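import Pool.Agent.PB.SB5

/-!
# Comparison of `d tanh^(2j+1)` with the Gumbel law (sharp normaliser)

* `dd j v`, `ee j v` : the two densities in the variable `v = exp (-2 β)`; `dd_sub_le`;
* `aa_eq` : `π wf k aa j k = 2 ∫_(0,1) cos ((k/2) log v) dd j v`; `ee_eq` : the Gamma side;
* **`gumbel`**.
-/

set_option autoImplicit false

noncomputable section

open Complex MeasureTheory Finset Filter Topology

namespace SB

/-- the density of `- d tanh^(2j+1)` -/
def dd (j : ℕ) (v : ℝ) : ℝ := (4 * j + 2) * ((1 - v) / (1 + v)) ^ (2 * j) / (1 + v) ^ 2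

/-- the Gumbel density -/
def ee (j : ℕ) (v : ℝ) : ℝ := (4 * j + 2) * Real.exp (-((4 * j + 2) * v))

/-- `(1 - v)/(1 + v) ≤ exp (-2v)` -/
theorem up_le {v : ℝ} (h0 : 0 ≤ v) (h1 : v ≤ 1) : (1 - v) / (1 + v) ≤ Real.exp (-(2 * v)) := by
  rw [div_le_iff₀ (by linarith)]
  -- (1 - v) e^{2v} ≤ 1 + v from e^{-x} ≥ ...
  have key : ∀ x ∈ Set.Icc (0 : ℝ) 1, (1 - x) ≤ Real.exp (-(2 * x)) * (1 + x) := by
    intro x hx
    have hmono : MonotoneOn (fun x : ℝ => Real.exp (-(2 * x)) * (1 + x) - (1 - x)) (Set.Icc 0 1) := by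
      refine monotoneOn_of_deriv_nonneg (convex_Icc 0 1) (by fun_prop) (by fun_prop) fun y hy => ?_
      rw [interior_Icc] at hy
      have hd : HasDerivAt (fun x : ℝ => Real.exp (-(2 * x)) * (1 + x) - (1 - x))
          (Real.exp (-(2 * y)) * (-(2 * 1)) * (1 + y) + Real.exp (-(2 * y)) * 1 - (-1)) y := by
        have a1 : HasDerivAt (fun x : ℝ => Real.exp (-(2 * x))) (Real.exp (-(2 * y)) * (-(2 * 1))) y :=
          (((hasDerivAt_id y).const_mul 2).neg).exp
        have a2 : HasDerivAt (fun x : ℝ => 1 + x) 1 y := (hasDerivAt_id y).const_add 1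
        have a3 : HasDerivAt (fun x : ℝ => 1 - x) (-1) y := (hasDerivAt_id y).const_sub 1
        exact (a1.mul a2).sub a3
      rw [hd.deriv]
      have h2 := Real.add_one_le_exp (2 * y)
      have h3 : Real.exp (-(2 * y)) * Real.exp (2 * y) = 1 := by
        rw [← Real.exp_add]
        simp
      have h4 := Real.exp_pos (-(2 * y))
      have h5 := mul_le_mul_of_nonneg_left h2 h4.le
      nlinarith [hy.1]
    have := hmono (Set.left_mem_Icc.2 zero_le_one) hx hx.1
    simp at this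
    linarith
  exact key v ⟨h0, h1⟩

/-- `1/(1+v)^2 ≤ exp (-2v) (1 + 3 v^2)` -/
theorem up2_le {v : ℝ} (h0 : 0 ≤ v) (h1 : v ≤ 1) :
    1 / (1 + v) ^ 2 ≤ Real.exp (-(2 * v)) * (1 + 3 * v ^ 2) := by
  have a1 := Real.abs_exp_sub_one_sub_id_le (x := v) (by rw [abs_of_nonneg h0]; exact h1)
  have a2 := (abs_le.1 a1).2
  have a3 : Real.exp v ≤ (1 + v) * (1 + v ^ 2) := by nlinarith [mul_nonneg h0 (sq_nonneg v)]
  have a4 : Real.exp (2 * v) ≤ (1 + v) ^ 2 * (1 + 3 * v ^ 2) := by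
    have e : Real.exp (2 * v) = Real.exp v ^ 2 := by
      rw [← Real.exp_nat_mul]
      norm_num
    rw [e]
    have h2 := pow_le_pow_left₀ (Real.exp_pos v).le a3 2
    have h3 : (1 + v ^ 2) ^ 2 ≤ 1 + 3 * v ^ 2 := by
      have : v ^ 2 ≤ 1 := by nlinarith
      nlinarith [sq_nonneg v]
    calc Real.exp v ^ 2 ≤ ((1 + v) * (1 + v ^ 2)) ^ 2 := h2
      _ = (1 + v) ^ 2 * (1 + v ^ 2) ^ 2 := by ring
      _ ≤ _ := mul_le_mul_of_nonneg_left h3 (sq_nonneg _)
  rw [div_le_iff₀ (by positivity)]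
  have e3 : Real.exp (-(2 * v)) * Real.exp (2 * v) = 1 := by
    rw [← Real.exp_add]
    simp
  have := mul_le_mul_of_nonneg_left a4 (Real.exp_pos (-(2 * v))).le
  rw [e3] at this
  linarith

/-- `exp (-2v) (1 - v^3) ≤ (1 - v)/(1 + v)` -/
theorem lo_le {v : ℝ} (h0 : 0 ≤ v) (h1 : v ≤ 1) :
    Real.exp (-(2 * v)) * (1 - v ^ 3) ≤ (1 - v) / (1 + v) := by
  have a1 := Real.sum_le_exp_of_nonneg (x := 2 * v) (by positivity) 4
  have e1 : ∑ i ∈ range 4, (2 * v) ^ i / (i.factorial : ℝ) = 1 + 2 * v + 2 * v ^ 2 + 4 / 3 * v ^ 3 := by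
    simp [sum_range_succ, Nat.factorial]
    ring
  rw [e1] at a1
  have a2 : (1 + v) * (1 - v ^ 3) ≤ (1 - v) * Real.exp (2 * v) := by
    have h2 := mul_le_mul_of_nonneg_left a1 (by linarith : 0 ≤ 1 - v)
    have h3 : 0 ≤ 1 / 3 * v ^ 3 * (1 - v) := by
      have : 0 ≤ 1 - v := by linarith
      positivity
    nlinarith
  rw [le_div_iff₀ (by linarith)]
  have e3 : Real.exp (-(2 * v)) * Real.exp (2 * v) = 1 := by
    rw [← Real.exp_add]
    simp
  have h4 := mul_le_mul_of_nonneg_left a2 (Real.exp_pos (-(2 * v))).le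
  have h5 : Real.exp (-(2 * v)) * ((1 - v) * Real.exp (2 * v)) = 1 - v := by
    linear_combination (1 - v) * e3
  rw [h5] at h4
  linarith

/-- `exp (-2v) ≤ 1/(1+v)^2` -/
theorem lo2_le {v : ℝ} (h0 : 0 ≤ v) : Real.exp (-(2 * v)) ≤ 1 / (1 + v) ^ 2 := by
  rw [le_div_iff₀ (by positivity)]
  have a1 : 1 + v ≤ Real.exp v := by linarith [Real.add_one_le_exp v]
  have e : Real.exp (2 * v) = Real.exp v ^ 2 := by
    rw [← Real.exp_nat_mul]
    norm_num
  have a2 : (1 + v) ^ 2 ≤ Real.exp (2 * v) := by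
    rw [e]
    exact pow_le_pow_left₀ (by linarith) a1 2
  have e3 : Real.exp (-(2 * v)) * Real.exp (2 * v) = 1 := by
    rw [← Real.exp_add]
    simp
  have := mul_le_mul_of_nonneg_left a2 (Real.exp_pos (-(2 * v))).le
  rwa [e3] at this

/-- **the difference of the densities** -/
theorem dd_sub_le (j : ℕ) {v : ℝ} (h0 : 0 ≤ v) (h1 : v ≤ 1) :
    |dd j v - ee j v| ≤ ee j v * (3 * v ^ 2 + (4 * j + 2) / 2 * v ^ 3) := by
  have hj : (0 : ℝ) ≤ j := Nat.cast_nonneg j
  have hM : (0 : ℝ) < 4 * j + 2 := by positivity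
  have hq0 : 0 ≤ (1 - v) / (1 + v) := div_nonneg (by linarith) (by linarith)
  have eE : ee j v = (4 * j + 2) * (Real.exp (-(2 * v)) ^ (2 * j) * Real.exp (-(2 * v))) := by
    unfold ee
    rw [← Real.exp_nat_mul, ← Real.exp_add]
    congr 2
    push_cast
    ring
  have eD : dd j v = (4 * j + 2) * (((1 - v) / (1 + v)) ^ (2 * j) * (1 / (1 + v) ^ 2)) := by
    unfold dd
    ring
  obtain ⟨E, hE⟩ : ∃ E, E = Real.exp (-(2 * v)) := ⟨_, rfl⟩
  have hE0 : 0 < E := by rw [hE]; exact Real.exp_pos _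
  have u1 := up_le h0 h1
  have u2 := up2_le h0 h1
  have l1 := lo_le h0 h1
  have l2 := lo2_le h0
  rw [← hE] at u1 u2 l1 l2 eE
  have hv3 : v ^ 3 ≤ 1 := pow_le_one₀ h0 h1
  -- upper
  have up : dd j v ≤ ee j v * (1 + 3 * v ^ 2) := by
    rw [eE, eD]
    have h2 : ((1 - v) / (1 + v)) ^ (2 * j) * (1 / (1 + v) ^ 2) ≤
        E ^ (2 * j) * (E * (1 + 3 * v ^ 2)) :=
      mul_le_mul (pow_le_pow_left₀ hq0 u1 _) u2 (by positivity) (by positivity)
    have := mul_le_mul_of_nonneg_left h2 hM.le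
    linarith
  have lo : ee j v * (1 - 2 * j * v ^ 3) ≤ dd j v := by
    rw [eE, eD]
    have hb : 1 - 2 * (j : ℝ) * v ^ 3 ≤ (1 - v ^ 3) ^ (2 * j) := by
      have := one_add_mul_le_pow (a := -(v ^ 3)) (by linarith) (2 * j)
      push_cast at this
      have e : (1 : ℝ) + -(v ^ 3) = 1 - v ^ 3 := by ring
      rw [e] at this
      linarith
    have h2 : E ^ (2 * j) * (1 - v ^ 3) ^ (2 * j) ≤ ((1 - v) / (1 + v)) ^ (2 * j) := by
      rw [← mul_pow]
      exact pow_le_pow_left₀ (mul_nonneg hE0.le (by linarith)) l1 _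
    have h3 : E ^ (2 * j) * (1 - 2 * (j : ℝ) * v ^ 3) ≤ ((1 - v) / (1 + v)) ^ (2 * j) :=
      (mul_le_mul_of_nonneg_left hb (by positivity)).trans h2
    have h4 : E ^ (2 * j) * (1 - 2 * (j : ℝ) * v ^ 3) * E ≤
        ((1 - v) / (1 + v)) ^ (2 * j) * (1 / (1 + v) ^ 2) := by
      calc E ^ (2 * j) * (1 - 2 * (j : ℝ) * v ^ 3) * E ≤ ((1 - v) / (1 + v)) ^ (2 * j) * E :=
            mul_le_mul_of_nonneg_right h3 hE0.le
        _ ≤ _ := mul_le_mul_of_nonneg_left l2 (by positivity)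
    have := mul_le_mul_of_nonneg_left h4 hM.le
    linarith
  have hee : 0 ≤ ee j v := by unfold ee; positivity
  have hv3' : 0 ≤ v ^ 3 := by positivity
  rw [abs_le]
  constructor
  · have h5 : ee j v * (2 * j * v ^ 3) ≤ ee j v * (3 * v ^ 2 + (4 * j + 2) / 2 * v ^ 3) := by
      refine mul_le_mul_of_nonneg_left ?_ hee
      nlinarith [sq_nonneg v]
    linarith
  · have h5 : ee j v * (3 * v ^ 2) ≤ ee j v * (3 * v ^ 2 + (4 * j + 2) / 2 * v ^ 3) := by
      refine mul_le_mul_of_nonneg_left ?_ hee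
      have : 0 ≤ (4 * (j : ℝ) + 2) / 2 * v ^ 3 := by positivity
      linarith
    linarith

/-! ### the integrals of the Gumbel density -/

theorem pow_exp_int (n : ℕ) {M : ℝ} (hM : 0 < M) :
    IntegrableOn (fun v : ℝ => v ^ n * Real.exp (-(M * v))) (Set.Ioi 0) ∧
    ∫ v in Set.Ioi (0 : ℝ), v ^ n * Real.exp (-(M * v)) = n.factorial / M ^ (n + 1) := by
  have h := Real.integral_rpow_mul_exp_neg_mul_Ioi (a := (n : ℝ) + 1) (r := M) (by positivity) hM
  have e : ∀ v ∈ Set.Ioi (0 : ℝ), v ^ ((n : ℝ) + 1 - 1) * Real.exp (-(M * v)) =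
      v ^ n * Real.exp (-(M * v)) := by
    intro v hv
    rw [add_sub_cancel_right, Real.rpow_natCast]
  rw [setIntegral_congr_fun measurableSet_Ioi e, Real.Gamma_nat_eq_factorial] at h
  have e2 : (1 / M) ^ ((n : ℝ) + 1) * (n.factorial : ℝ) = n.factorial / M ^ (n + 1) := by
    have : ((n : ℝ) + 1) = ((n + 1 : ℕ) : ℝ) := by push_cast; ring
    rw [this, Real.rpow_natCast, one_div, inv_pow]
    ring
  rw [e2] at h
  refine ⟨?_, h⟩
  by_contra hni
  rw [integral_undef hni] at h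
  have : (0 : ℝ) < n.factorial / M ^ (n + 1) := by positivity
  linarith

/-- the Gamma side -/
theorem ee_eq (j : ℕ) (k : ℝ) :
    IntegrableOn (fun v : ℝ => Real.cos (k / 2 * Real.log v) * ee j v) (Set.Ioi 0) ∧
    ∫ v in Set.Ioi (0 : ℝ), Real.cos (k / 2 * Real.log v) * ee j v =
      (Complex.Gamma (1 - I * k / 2) * (((4 * j + 2 : ℕ) : ℂ)) ^ (I * k / 2)).re := by
  have hM : (0 : ℝ) < 4 * j + 2 := by positivity
  obtain ⟨M, hMd⟩ : ∃ M : ℝ, M = 4 * j + 2 := ⟨_, rfl⟩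
  have hM' : 0 < M := by rw [hMd]; exact hM
  obtain ⟨a, ha⟩ : ∃ a : ℂ, a = 1 - I * k / 2 := ⟨_, rfl⟩
  have hre : 0 < a.re := by
    rw [ha]
    simp
  have h := Complex.integral_cpow_mul_exp_neg_mul_Ioi (a := a) (r := M) hre hM'
  have hex : ∀ v ∈ Set.Ioi (0 : ℝ), ((v : ℂ) ^ (a - 1) * cexp (-((M : ℂ) * v))).re * M =
      Real.cos (k / 2 * Real.log v) * ee j v := by
    intro v hv
    have hv' : (0 : ℝ) < v := hv
    have e1 : (v : ℂ) ^ (a - 1) = cexp (((-(k / 2 * Real.log v) : ℝ) : ℂ) * I) := by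
      rw [Complex.cpow_def_of_ne_zero (by exact_mod_cast hv'.ne'), ← Complex.ofReal_log hv'.le, ha]
      congr 1
      push_cast
      ring
    have e2 : cexp (-((M : ℂ) * v)) = ((Real.exp (-(M * v)) : ℝ) : ℂ) := by
      rw [Complex.ofReal_exp]
      congr 1
      push_cast
      ring
    rw [e1, e2, Complex.re_mul_ofReal, Complex.exp_ofReal_mul_I_re, Real.cos_neg]
    unfold ee
    rw [← hMd]
    ring
  have hint : IntegrableOn (fun v : ℝ => (v : ℂ) ^ (a - 1) * cexp (-((M : ℂ) * v))) (Set.Ioi 0) := by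
    have h2 := (pow_exp_int 0 hM').1
    refine h2.mono' ?_ ?_
    · refine (ContinuousOn.mul ?_ (by fun_prop)).aestronglyMeasurable measurableSet_Ioi
      intro v hv
      exact (Complex.continuousAt_ofReal_cpow_const v (a - 1) (Or.inr (ne_of_gt hv))).continuousWithinAt
    · refine (ae_restrict_iff' measurableSet_Ioi).2 (Eventually.of_forall fun v hv => ?_)
      have hv' : (0 : ℝ) < v := hv
      rw [norm_mul, Complex.norm_cpow_eq_rpow_re_of_pos hv', Complex.norm_exp]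
      have e3 : (a - 1).re = 0 := by
        rw [ha]
        simp
      rw [e3, Real.rpow_zero]
      simp
  have i2 : IntegrableOn (fun v : ℝ => ((v : ℂ) ^ (a - 1) * cexp (-((M : ℂ) * v))).re * M)
      (Set.Ioi 0) := hint.re.mul_const M
  refine ⟨i2.congr_fun hex measurableSet_Ioi, ?_⟩
  rw [← setIntegral_congr_fun measurableSet_Ioi hex, integral_mul_const]
  have e5 : ∫ v in Set.Ioi (0 : ℝ), ((v : ℂ) ^ (a - 1) * cexp (-((M : ℂ) * v))).re =
      (∫ v in Set.Ioi (0 : ℝ), (v : ℂ) ^ (a - 1) * cexp (-((M : ℂ) * v))).re := by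
    have := Complex.reCLM.integral_comp_comm hint
    exact this
  rw [e5, h]
  have e6 : (1 / (M : ℂ)) ^ a * M = (((4 * j + 2 : ℕ) : ℂ)) ^ (I * k / 2) := by
    have hMc : (M : ℂ) ≠ 0 := by exact_mod_cast hM'.ne'
    have hMn : (((4 * j + 2 : ℕ) : ℂ)) = (M : ℂ) := by
      rw [hMd]
      push_cast
      ring
    rw [hMn, one_div, Complex.inv_cpow _ _ (by
      rw [Complex.arg_ofReal_of_nonneg hM'.le]
      exact Real.pi_ne_zero.symm), ha, Complex.cpow_sub _ _ hMc, Complex.cpow_one, inv_div,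
      div_mul_cancel₀ _ hMc]
  rw [← e6, ← ha]
  have e7 : Complex.Gamma a * ((1 / (M : ℂ)) ^ a * M) = ((1 / (M : ℂ)) ^ a * Complex.Gamma a) * (M : ℝ) := by
    ring
  rw [e7, Complex.re_mul_ofReal]

theorem tanh_exp (β : ℝ) : Real.tanh β = (1 - Real.exp (-2 * β)) / (1 + Real.exp (-2 * β)) := by
  have e : Real.exp (-2 * β) = Real.exp (-β) * Real.exp (-β) := by
    rw [← Real.exp_add]
    congr 1
    ring
  have e1 : Real.exp β * Real.exp (-β) = 1 := by
    rw [← Real.exp_add]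
    simp
  have hp := Real.exp_pos β
  have hq := Real.exp_pos (-β)
  rw [Real.tanh_eq_sinh_div_cosh, Real.sinh_eq, Real.cosh_eq, e]
  rw [div_eq_div_iff (by positivity) (by positivity)]
  linear_combination (Real.exp (-β)) * e1

theorem cosh_exp (β : ℝ) : 1 / Real.cosh β ^ 2 = 4 * Real.exp (-2 * β) / (1 + Real.exp (-2 * β)) ^ 2 := by
  have e : Real.exp (-2 * β) = Real.exp (-β) * Real.exp (-β) := by
    rw [← Real.exp_add]
    congr 1
    ring
  have e1 : Real.exp β * Real.exp (-β) = 1 := by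
    rw [← Real.exp_add]
    simp
  have hp := Real.exp_pos β
  have hq := Real.exp_pos (-β)
  rw [Real.cosh_eq, e, div_eq_div_iff (by positivity) (by positivity)]
  linear_combination (-(Real.exp (-β) ^ 2 + 2 + Real.exp β * Real.exp (-β)) + 1 -
    Real.exp (-β) ^ 2) * e1

/-- the transform of `d tanh^(2j+1)` -/
theorem aa_eq (j : ℕ) (k : ℝ) :
    Real.pi * NUQ.wf k * aa j k =
      2 * ∫ v in Set.Ioo (0 : ℝ) 1, Real.cos (k / 2 * Real.log v) * dd j v := by
  have h1 := NUQ.Ft_ph (2 * j) k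
  have h2 : (NUQ.Ft (NUQ.ph (2 * j)) k).re = ∫ β : ℝ, Real.cos (k * β) * NUQ.ph (2 * j) β := by
    unfold NUQ.Ft
    have h3 := (Complex.reCLM.integral_comp_comm (NUQ.Ft_int (NUQ.ph_int (2 * j)) k)).symm
    have h4 : (∫ β : ℝ, cexp (I * k * β) * (NUQ.ph (2 * j) β : ℂ)).re =
        ∫ β : ℝ, (cexp (I * k * β) * (NUQ.ph (2 * j) β : ℂ)).re := h3
    rw [h4]
    congr 1
    funext β
    rw [Complex.re_mul_ofReal]
    have : I * k * β = ((k * β : ℝ) : ℂ) * I := by
      push_cast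
      ring
    rw [this, Complex.exp_ofReal_mul_I_re]
  have hpar : ∀ β : ℝ, Real.cos (k * -β) * NUQ.ph (2 * j) (-β) = Real.cos (k * β) * NUQ.ph (2 * j) β := by
    intro β
    unfold NUQ.ph
    rw [Real.tanh_neg, Real.cosh_neg, Even.neg_pow (even_two_mul j), mul_neg, Real.cos_neg]
  have h5 := NUQ.half_int (f := fun β => Real.cos (k * β) * NUQ.ph (2 * j) β) hpar
  have h6 : (NUQ.Ft (NUQ.ph (2 * j)) k).re = (-1) ^ j * ((NUQ.PP (2 * j)).eval k * (Real.pi * NUQ.wf k)) := by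
    rw [h1, pow_mul, Complex.I_sq]
    have : ((-1 : ℂ)) ^ j = (((-1 : ℝ) ^ j : ℝ) : ℂ) := by push_cast; ring
    rw [this, ← Complex.ofReal_mul, Complex.ofReal_re]
  have hs : ((-1 : ℝ) ^ j) * (-1) ^ j = 1 := by
    rw [← mul_pow]
    norm_num
  have h7 : Real.pi * NUQ.wf k * aa j k =
      (2 * j + 1) * (2 * ∫ β in Set.Ioi (0 : ℝ), Real.cos (k * β) * NUQ.ph (2 * j) β) := by
    rw [h5, ← h2, h6]
    unfold aa
    ring
  rw [h7]
  have hd : ∀ β ∈ Set.Ioi (0 : ℝ), HasDerivWithinAt (fun β : ℝ => Real.exp (-2 * β))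
      (Real.exp (-2 * β) * (-2)) (Set.Ioi 0) β := by
    intro β _
    have h8 : HasDerivAt (fun β : ℝ => -2 * β) (-2) β := by
      simpa using (hasDerivAt_id β).const_mul (-2)
    exact h8.exp.hasDerivWithinAt
  have hinj : Set.InjOn (fun β : ℝ => Real.exp (-2 * β)) (Set.Ioi 0) := by
    intro a _ b _ hab
    have := Real.exp_injective hab
    linarith
  have himg : (fun β : ℝ => Real.exp (-2 * β)) '' Set.Ioi 0 = Set.Ioo 0 1 := by
    ext x
    constructor
    · rintro ⟨β, hβ, rfl⟩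
      have hβ' : (0 : ℝ) < β := hβ
      exact ⟨Real.exp_pos _, by
        show Real.exp (-2 * β) < 1
        rw [Real.exp_lt_one_iff]
        linarith⟩
    · intro hx
      refine ⟨-(Real.log x) / 2, ?_, ?_⟩
      · have := Real.log_neg hx.1 hx.2
        show 0 < -(Real.log x) / 2
        linarith
      · show Real.exp (-2 * (-(Real.log x) / 2)) = x
        have : -2 * (-(Real.log x) / 2) = Real.log x := by ring
        rw [this, Real.exp_log hx.1]
  rw [← himg, integral_image_eq_integral_abs_deriv_smul measurableSet_Ioi hd hinj]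
  have h9 : ∀ β ∈ Set.Ioi (0 : ℝ), |Real.exp (-2 * β) * (-2)| •
      (Real.cos (k / 2 * Real.log (Real.exp (-2 * β))) * dd j (Real.exp (-2 * β))) =
      (2 * j + 1) * (Real.cos (k * β) * NUQ.ph (2 * j) β) := by
    intro β hβ
    rw [Real.log_exp]
    have e1 : k / 2 * (-2 * β) = -(k * β) := by ring
    rw [e1, Real.cos_neg]
    unfold dd
    rw [← tanh_exp]
    have e2 : |Real.exp (-2 * β) * (-2)| = 2 * Real.exp (-2 * β) := by
      rw [abs_mul, abs_of_pos (Real.exp_pos _)]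
      norm_num
      ring
    have e3 : NUQ.ph (2 * j) β = Real.tanh β ^ (2 * j) * (1 / Real.cosh β ^ 2) := by
      unfold NUQ.ph
      ring
    rw [e2, e3, cosh_exp, smul_eq_mul]
    ring
  rw [setIntegral_congr_fun measurableSet_Ioi h9, integral_const_mul]
  ring

/-- **the sharp Gumbel comparison** -/
theorem gumbel : ∃ C : ℝ, 0 ≤ C ∧ ∀ (j : ℕ) (k : ℝ), |Real.pi * NUQ.wf k * aa j k -
    2 * (Complex.Gamma (1 - Complex.I * k / 2) *
      (((4 * j + 2 : ℕ) : ℂ)) ^ (Complex.I * k / 2)).re| ≤ C / (4 * (j : ℝ) + 2) ^ 2 := by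
  refine ⟨18, by norm_num, fun j k => ?_⟩
  obtain ⟨he1, he2⟩ := ee_eq j k
  rw [aa_eq, ← he2]
  have hM : (0 : ℝ) < 4 * j + 2 := by positivity
  obtain ⟨M, hMd⟩ : ∃ M : ℝ, M = 4 * j + 2 := ⟨_, rfl⟩
  have hM' : 0 < M := by rw [hMd]; exact hM
  have hdi : IntegrableOn (fun v : ℝ => Real.cos (k / 2 * Real.log v) * dd j v) (Set.Ioo 0 1) := by
    refine Measure.integrableOn_of_bounded (M := M) (by simp) ?_ ?_
    · have m1 : Measurable fun v : ℝ => Real.cos (k / 2 * Real.log v) :=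
        Real.measurable_cos.comp (Real.measurable_log.const_mul _)
      have m2 : Measurable fun v : ℝ => dd j v := by
        unfold dd
        fun_prop
      exact (m1.mul m2).aestronglyMeasurable
    · refine (ae_restrict_iff' measurableSet_Ioo).2 (Eventually.of_forall fun v hv => ?_)
      have hq0 : 0 ≤ (1 - v) / (1 + v) := div_nonneg (by linarith [hv.2]) (by linarith [hv.1])
      have hq1 : (1 - v) / (1 + v) ≤ 1 := by
        rw [div_le_one (by linarith [hv.1])]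
        linarith [hv.1]
      rw [Real.norm_eq_abs, abs_mul]
      have a1 := Real.abs_cos_le_one (k / 2 * Real.log v)
      have a2 : |dd j v| ≤ M := by
        unfold dd
        rw [abs_of_nonneg (by positivity), hMd, mul_div_assoc]
        have a3 : ((1 - v) / (1 + v)) ^ (2 * j) ≤ 1 := pow_le_one₀ hq0 hq1
        have a4 : ((1 - v) / (1 + v)) ^ (2 * j) / (1 + v) ^ 2 ≤ 1 := by
          rw [div_le_one (by nlinarith [hv.1])]
          nlinarith [hv.1]
        nlinarith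
      calc |Real.cos (k / 2 * Real.log v)| * |dd j v| ≤ 1 * M :=
            mul_le_mul a1 a2 (abs_nonneg _) zero_le_one
        _ = M := one_mul M
  have hcap : Set.Ioi (0 : ℝ) ∩ Set.Ioo 0 1 = Set.Ioo 0 1 := by
    ext x
    exact ⟨fun h => h.2, fun h => ⟨h.1, h⟩⟩
  have e1 : ∫ v in Set.Ioo (0 : ℝ) 1, Real.cos (k / 2 * Real.log v) * dd j v =
      ∫ v in Set.Ioi (0 : ℝ), (Set.Ioo (0 : ℝ) 1).indicator
        (fun v => Real.cos (k / 2 * Real.log v) * dd j v) v := by
    rw [setIntegral_indicator measurableSet_Ioo, hcap]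
  have hdi2 : IntegrableOn ((Set.Ioo (0 : ℝ) 1).indicator
        (fun v => Real.cos (k / 2 * Real.log v) * dd j v)) (Set.Ioi 0) := by
    rw [IntegrableOn, integrable_indicator_iff measurableSet_Ioo, IntegrableOn,
      Measure.restrict_restrict measurableSet_Ioo, Set.inter_comm, hcap]
    exact hdi
  rw [e1]
  have e2 : 2 * (∫ v in Set.Ioi (0 : ℝ), (Set.Ioo (0 : ℝ) 1).indicator
        (fun v => Real.cos (k / 2 * Real.log v) * dd j v) v) -
      2 * ∫ v in Set.Ioi (0 : ℝ), Real.cos (k / 2 * Real.log v) * ee j v =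
      2 * ∫ v in Set.Ioi (0 : ℝ), ((Set.Ioo (0 : ℝ) 1).indicator
        (fun v => Real.cos (k / 2 * Real.log v) * dd j v) v -
        Real.cos (k / 2 * Real.log v) * ee j v) := by
    rw [integral_sub hdi2 he1]
    ring
  rw [e2, abs_mul, abs_of_pos (by norm_num : (0 : ℝ) < 2)]
  obtain ⟨p2, p2'⟩ := pow_exp_int 2 hM'
  obtain ⟨p3, p3'⟩ := pow_exp_int 3 hM'
  have hb := norm_integral_le_of_norm_le (μ := volume.restrict (Set.Ioi (0 : ℝ)))
    (f := fun v => (Set.Ioo (0 : ℝ) 1).indicator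
        (fun v => Real.cos (k / 2 * Real.log v) * dd j v) v -
        Real.cos (k / 2 * Real.log v) * ee j v)
    (g := fun v => 3 * M * (v ^ 2 * Real.exp (-(M * v))) + M ^ 2 / 2 * (v ^ 3 * Real.exp (-(M * v))))
    ((p2.const_mul _).add (p3.const_mul _)) (by
      refine (ae_restrict_iff' measurableSet_Ioi).2 (Eventually.of_forall fun v hv => ?_)
      have hv0 : (0 : ℝ) < v := hv
      have hee : 0 ≤ ee j v := by unfold ee; positivity
      have eg : 3 * M * (v ^ 2 * Real.exp (-(M * v))) + M ^ 2 / 2 * (v ^ 3 * Real.exp (-(M * v))) =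
          ee j v * (3 * v ^ 2 + (4 * j + 2) / 2 * v ^ 3) := by
        unfold ee
        rw [← hMd]
        ring
      have a1 := Real.abs_cos_le_one (k / 2 * Real.log v)
      show ‖_‖ ≤ 3 * M * (v ^ 2 * Real.exp (-(M * v))) + M ^ 2 / 2 * (v ^ 3 * Real.exp (-(M * v)))
      rw [eg, Real.norm_eq_abs]
      by_cases h1 : v < 1
      · rw [Set.indicator_of_mem (show v ∈ Set.Ioo (0 : ℝ) 1 from ⟨hv0, h1⟩), ← mul_sub, abs_mul]
        calc |Real.cos (k / 2 * Real.log v)| * |dd j v - ee j v| ≤ 1 * |dd j v - ee j v| :=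
              mul_le_mul_of_nonneg_right a1 (abs_nonneg _)
          _ ≤ _ := by
              rw [one_mul]
              exact dd_sub_le j hv0.le h1.le
      · rw [Set.indicator_of_notMem (fun h => h1 h.2), zero_sub, abs_neg, abs_mul, abs_of_nonneg hee]
        have h2 : 1 ≤ v := not_lt.1 h1
        have h3 : 1 ≤ 3 * v ^ 2 + (4 * (j : ℝ) + 2) / 2 * v ^ 3 := by
          have : 0 ≤ (4 * (j : ℝ) + 2) / 2 * v ^ 3 := by positivity
          nlinarith
        calc |Real.cos (k / 2 * Real.log v)| * ee j v ≤ 1 * ee j v :=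
              mul_le_mul_of_nonneg_right a1 hee
          _ = ee j v * 1 := by ring
          _ ≤ _ := mul_le_mul_of_nonneg_left h3 hee)
  rw [Real.norm_eq_abs, integral_add (p2.const_mul _) (p3.const_mul _), integral_const_mul,
    integral_const_mul, p2', p3'] at hb
  have e9 : 3 * M * (((2 : ℕ).factorial : ℝ) / M ^ (2 + 1)) +
      M ^ 2 / 2 * (((3 : ℕ).factorial : ℝ) / M ^ (3 + 1)) = 9 / M ^ 2 := by
    simp [Nat.factorial]
    field_simp
    ring
  rw [e9] at hb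
  rw [← hMd]
  calc 2 * |∫ v in Set.Ioi (0 : ℝ), ((Set.Ioo (0 : ℝ) 1).indicator
        (fun v => Real.cos (k / 2 * Real.log v) * dd j v) v -
        Real.cos (k / 2 * Real.log v) * ee j v)| ≤ 2 * (9 / M ^ 2) := by
        exact mul_le_mul_of_nonneg_left hb (by norm_num)
    _ = 18 / M ^ 2 := by ring

end SB

end
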