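import Pool.Agent.PB.SB5
import Pool.Agent.NUP.MF.Shift

/-!
# The oscillating part of the energy of two profiles

`osc`: the integral over the line of `Z^(ik/2) Γ(1-ik/2) / Γ(1+ik/2) / (2 cosh(πk/3) + b)` is at most
`48 Z^(-1/2)`: one shift of the line to imaginary part one. The quotient of the two Gamma functions is bounded
in the strip by the principle of Phragmen and Lindelof.
-/

set_option autoImplicit false

open MeasureTheory Filter Topology Complex Set

namespace SB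

noncomputable section

private theorem nG_le {s : ℂ} (hs : 0 < s.re) : ‖Gamma s‖ ≤ Real.Gamma s.re := by
  rw [Gamma_eq_integral hs, Real.Gamma_eq_integral hs, GammaIntegral]
  refine norm_integral_le_of_norm_le (Real.GammaIntegral_convergent hs) ?_
  refine (ae_restrict_iff' measurableSet_Ioi).mpr (Eventually.of_forall fun t ht => ?_)
  have ht' : 0 < t := ht
  rw [norm_mul, norm_cpow_eq_rpow_re_of_pos ht', norm_real,
    Real.norm_eq_abs, abs_of_pos (Real.exp_pos _)]
  simp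

private theorem nsin_le (z : ℂ) : ‖sin z‖ ≤ Real.exp |z.im| := by
  rw [Complex.sin]
  have h1 : ‖cexp (z * I)‖ ≤ Real.exp |z.im| := by
    rw [norm_exp]
    apply Real.exp_le_exp.mpr
    simp
    exact neg_le_abs _
  have h2 : ‖cexp (-z * I)‖ ≤ Real.exp |z.im| := by
    rw [norm_exp]
    apply Real.exp_le_exp.mpr
    simp
    exact le_abs_self _
  rw [norm_div, norm_mul, norm_I, mul_one]
  have h3 := norm_sub_le (cexp (-z * I)) (cexp (z * I))
  simp only [norm_ofNat]
  linarith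

/-- the quotient of the two Gamma functions -/
def Rq (z : ℂ) : ℂ := Gamma (1 - I * z / 2) * (Gamma (1 + I * z / 2))⁻¹

theorem G_conj (k : ℝ) : Gamma (1 - I * k / 2) = (starRingEnd ℂ) (Gamma (1 + I * k / 2)) := by
  rw [← Gamma_conj]
  congr 1
  simp only [map_add, map_one, map_div₀, map_mul, conj_I, conj_ofReal, map_ofNat]
  ring

theorem G_ne (k : ℝ) : Gamma (1 + I * k / 2) ≠ 0 :=
  Gamma_ne_zero_of_re_pos (by simp)

theorem Rq_real (k : ℝ) : ‖Rq k‖ = 1 := by
  rw [Rq, G_conj, norm_mul, norm_inv, RCLike.norm_conj, mul_inv_cancel₀ (norm_ne_zero_iff.2 (G_ne k))]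

theorem Rq_line (t : ℝ) : ‖Rq (t + I)‖ = ‖(1 / 2 - I * t / 2 : ℂ)‖ := by
  have e1 : (1 : ℂ) - I * (t + I) / 2 = (1 / 2 - I * t / 2) + 1 := by
    ring_nf
    rw [I_sq]
    ring
  have e2 : (1 : ℂ) + I * (t + I) / 2 = 1 / 2 + I * t / 2 := by
    ring_nf
    rw [I_sq]
    ring
  have h0 : (1 / 2 - I * t / 2 : ℂ) ≠ 0 := by
    intro h
    have := congrArg Complex.re h
    simp at this
  have e3 : Gamma (1 / 2 - I * t / 2) = (starRingEnd ℂ) (Gamma (1 / 2 + I * t / 2)) := by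
    rw [← Gamma_conj]
    congr 1
    simp only [map_add, map_one, map_div₀, map_mul, conj_I, conj_ofReal, map_ofNat]
    ring
  have h1 : Gamma (1 / 2 + I * t / 2) ≠ 0 := Gamma_ne_zero_of_re_pos (by simp)
  rw [Rq, e1, e2, Gamma_add_one _ h0, norm_mul, norm_mul, norm_inv, e3, RCLike.norm_conj, mul_assoc,
    mul_inv_cancel₀ (norm_ne_zero_iff.2 h1), mul_one]

theorem Rq_diff {z : ℂ} (hz : -2 < z.im) : DifferentiableAt ℂ Rq z := by
  have h1 : DifferentiableAt ℂ (fun z : ℂ => Gamma (1 - I * z / 2)) z := by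
    have h2 : DifferentiableAt ℂ Gamma (1 - I * z / 2) := by
      refine differentiableAt_Gamma _ fun m hm => ?_
      have := congrArg Complex.re hm
      simp at this
      have h3 : (0 : ℝ) ≤ m := Nat.cast_nonneg m
      linarith
    exact DifferentiableAt.comp (g := Gamma) (f := fun z : ℂ => 1 - I * z / 2) z h2 (by fun_prop)
  have h2 : DifferentiableAt ℂ (fun z : ℂ => (Gamma (1 + I * z / 2))⁻¹) z := by
    have h3 := differentiable_one_div_Gamma (1 + I * z / 2)
    exact DifferentiableAt.comp (g := fun s => (Gamma s)⁻¹) (f := fun z : ℂ => 1 + I * z / 2) z h3 (by fun_prop)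
  exact h1.mul h2

private theorem gam_bd : ∃ K : ℝ, 0 < K ∧ ∀ y : ℝ, 0 ≤ y → y ≤ 1 → Real.Gamma (1 + y / 2) ≤ K := by
  have hc : ContinuousOn (fun y : ℝ => Real.Gamma (1 + y / 2)) (Icc 0 1) := by
    intro y hy
    have h1 : ContinuousAt Real.Gamma (1 + y / 2) := by
      refine (Real.differentiableAt_Gamma fun m hm => ?_).continuousAt
      have h3 : (0 : ℝ) ≤ m := Nat.cast_nonneg m
      have := hy.1
      linarith
    exact (ContinuousAt.comp (f := fun y : ℝ => 1 + y / 2) h1 (by fun_prop)).continuousWithinAt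
  obtain ⟨K, hK⟩ := isCompact_Icc.exists_bound_of_continuousOn hc
  refine ⟨|K| + 1, by positivity, fun y h0 h1 => ?_⟩
  have := hK y ⟨h0, h1⟩
  rw [Real.norm_eq_abs] at this
  exact (le_abs_self _).trans (this.trans ((le_abs_self K).trans (by linarith)))

/-- crude bound of the quotient -/
private theorem Rq_crude : ∃ K : ℝ, 0 < K ∧ ∀ z : ℂ, 0 < z.im → z.im < 1 → 1 ≤ |z.re| →
    ‖Rq z‖ ≤ K * Real.exp (Real.pi / 2 * |z.re|) := by
  obtain ⟨K, hK, h⟩ := gam_bd
  refine ⟨K ^ 2, by positivity, fun z h0 h1 hx => ?_⟩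
  set s : ℂ := -(I * z / 2) with hs
  have sre : s.re = z.im / 2 := by rw [hs]; simp; ring
  have sim : s.im = -(z.re / 2) := by rw [hs]; simp
  have hsn : s ≠ 0 := by
    intro h2
    rw [h2] at sre
    simp at sre
    linarith
  have hsn2 : 1 / 2 ≤ ‖s‖ := by
    have := abs_im_le_norm s
    rw [sim, abs_neg, abs_div, abs_two] at this
    linarith
  have g1 : Gamma s * Gamma (1 - s) = Real.pi / sin (Real.pi * s) := Gamma_mul_Gamma_one_sub s
  have g2 : Gamma (s + 1) = s * Gamma s := Gamma_add_one s hsn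
  have n1 : Gamma (1 - s) ≠ 0 := Gamma_ne_zero_of_re_pos (by rw [sub_re, one_re, sre]; linarith)
  have n2 : Gamma s ≠ 0 := Gamma_ne_zero_of_re_pos (by rw [sre]; linarith)
  have hp : (Real.pi : ℂ) ≠ 0 := by exact_mod_cast Real.pi_ne_zero
  have n3 : sin (Real.pi * s) ≠ 0 := by
    intro h3
    rw [h3, div_zero] at g1
    exact mul_ne_zero n2 n1 g1
  have e1 : (Gamma (1 - s))⁻¹ = Gamma (s + 1) * sin (Real.pi * s) / (Real.pi * s) := by
    rw [g2, eq_div_iff (mul_ne_zero hp hsn), inv_mul_eq_iff_eq_mul₀ n1]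
    linear_combination (-s) * ((eq_div_iff n3).1 g1)
  have e2 : Rq z = Gamma (s + 1) * (Gamma (1 - s))⁻¹ := by
    rw [Rq, hs]
    congr 2
    · ring_nf
    · ring_nf
  have b1 : ‖Gamma (s + 1)‖ ≤ K := by
    refine (nG_le (by rw [add_re, one_re, sre]; linarith)).trans ?_
    rw [add_re, one_re, sre, add_comm]
    exact h _ h0.le h1.le
  have b2 : ‖sin (Real.pi * s)‖ ≤ Real.exp (Real.pi / 2 * |z.re|) := by
    refine (nsin_le _).trans (Real.exp_le_exp.2 (le_of_eq ?_))
    rw [mul_im, ofReal_re, ofReal_im, zero_mul, add_zero, sim, abs_mul, abs_of_pos Real.pi_pos, abs_neg, abs_div,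
      abs_two]
    ring
  have b3 : 1 ≤ ‖(Real.pi * s : ℂ)‖ := by
    rw [norm_mul, norm_real, Real.norm_of_nonneg Real.pi_pos.le]
    nlinarith [Real.pi_gt_three]
  rw [e2, e1, norm_mul, norm_div, norm_mul]
  have b4 : ‖Gamma (s + 1)‖ * ‖sin (Real.pi * s)‖ / ‖(Real.pi * s : ℂ)‖ ≤ K * Real.exp (Real.pi / 2 * |z.re|) := by
    refine (div_le_self (by positivity) b3).trans ?_
    exact mul_le_mul b1 b2 (norm_nonneg _) hK.le
  calc _ ≤ K * (K * Real.exp (Real.pi / 2 * |z.re|)) := mul_le_mul b1 b4 (by positivity) hK.le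
    _ = _ := by ring

/-- **the quotient of the two Gamma functions in the strip** -/
theorem Rq_le {z : ℂ} (h0 : 0 ≤ z.im) (h1 : z.im ≤ 1) : ‖Rq z‖ ≤ ‖z + 2 * I‖ := by
  have hne : ∀ w : ℂ, 0 ≤ w.im → w + 2 * I ≠ 0 := by
    intro w hw h
    have := congrArg Complex.im h
    simp at this
    linarith
  have hge : ∀ w : ℂ, 0 ≤ w.im → 1 ≤ ‖w + 2 * I‖ := by
    intro w hw
    have := abs_im_le_norm (w + 2 * I)
    simp at this
    have h2 := le_abs_self (w.im + 2)
    linarith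
  have key : ‖Rq z / (z + 2 * I)‖ ≤ 1 := by
    refine PhragmenLindelof.horizontal_strip (a := 0) (b := 1) (f := fun z => Rq z / (z + 2 * I)) ?_ ?_ ?_ ?_ h0 h1
    · refine DifferentiableOn.diffContOnCl fun w hw => ?_
      have hcl : w ∈ Complex.im ⁻¹' (Icc 0 1) := by
        refine (closure_minimal ?_ (isClosed_Icc.preimage Complex.continuous_im)) hw
        intro v hv
        exact ⟨hv.1.le, hv.2.le⟩
      have hw0 : 0 ≤ w.im := hcl.1
      exact ((Rq_diff (z := w) (by linarith)).div (by fun_prop) (hne w hw0)).differentiableWithinAt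
    · obtain ⟨K, hK, hc⟩ := Rq_crude
      refine ⟨1, by rw [sub_zero, div_one]; linarith [Real.pi_gt_three], 2, ?_⟩
      refine Asymptotics.IsBigO.of_bound K ?_
      rw [eventually_inf_principal]
      have := (tendsto_comap (f := fun z : ℂ => |z.re|) (x := atTop)).eventually (eventually_ge_atTop (1 : ℝ))
      refine this.mono fun w hw hw2 => ?_
      rw [norm_div]
      refine (div_le_self (norm_nonneg _) (hge w hw2.1.le)).trans ((hc w hw2.1 hw2.2 hw).trans ?_)
      rw [Real.norm_of_nonneg (Real.exp_pos _).le]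
      refine mul_le_mul_of_nonneg_left (Real.exp_le_exp.2 ?_) hK.le
      have h3 := Real.add_one_le_exp (1 * |w.re|)
      have h4 := abs_nonneg w.re
      have h5 := Real.pi_lt_four
      nlinarith
    · intro w hw
      have e : w = (w.re : ℂ) := by
        apply Complex.ext <;> simp [hw]
      rw [norm_div, div_le_one (by have := hge w hw.ge; linarith)]
      rw [e, Rq_real, ← e]
      exact hge w hw.ge
    · intro w hw
      have e : w = (w.re : ℂ) + I := by
        apply Complex.ext <;> simp [hw]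
      have hw0 : 0 ≤ w.im := by rw [hw]; norm_num
      rw [norm_div, div_le_one (by have := hge w hw0; linarith)]
      have e1 : ‖Rq w‖ = ‖(1 / 2 - I * w.re / 2 : ℂ)‖ := by
        conv_lhs => rw [e]
        exact Rq_line w.re
      rw [e1]
      refine le_of_sq_le_sq ?_ (norm_nonneg _)
      rw [← normSq_eq_norm_sq, ← normSq_eq_norm_sq, normSq_apply, normSq_apply]
      simp
      rw [hw]
      nlinarith [sq_nonneg w.re]
  rwa [norm_div, div_le_one (by have := hge z h0; linarith)] at key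

/-- the weight, analytic in the strip -/
def Dn (b : ℝ) (z : ℂ) : ℂ := 2 * cosh (Real.pi * z / 3) + b

theorem Dn_re (b : ℝ) (z : ℂ) : (Dn b z).re =
    2 * (Real.cosh (Real.pi * z.re / 3) * Real.cos (Real.pi * z.im / 3)) + b := by
  have e : (Real.pi : ℂ) * z / 3 = ((Real.pi * z.re / 3 : ℝ) : ℂ) + ((Real.pi * z.im / 3 : ℝ) : ℂ) * I := by
    apply Complex.ext <;> simp
  rw [Dn, e, Complex.cosh_add, Complex.cosh_mul_I, Complex.sinh_mul_I, ← ofReal_cosh, ← ofReal_cos, ← ofReal_sinh,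
    ← ofReal_sin]
  simp only [add_re, mul_re, mul_im, add_im, ofReal_re, ofReal_im, re_ofNat, im_ofNat, I_re, I_im]
  ring

theorem Dn_ge {b : ℝ} (hb : 0 ≤ b) {z : ℂ} (h0 : 0 ≤ z.im) (h1 : z.im ≤ 1) :
    Real.cosh (Real.pi * z.re / 3) ≤ ‖Dn b z‖ := by
  have hp := Real.pi_pos
  have hc : 1 / 2 ≤ Real.cos (Real.pi * z.im / 3) := by
    rw [← Real.cos_pi_div_three]
    refine Real.cos_le_cos_of_nonneg_of_le_pi (by positivity) (by linarith) ?_
    have : Real.pi * z.im ≤ Real.pi * 1 := mul_le_mul_of_nonneg_left h1 hp.le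
    linarith
  have hch := Real.cosh_pos (Real.pi * z.re / 3)
  refine le_trans ?_ (re_le_norm _)
  rw [Dn_re]
  nlinarith

theorem Dn_ne {b : ℝ} (hb : 0 ≤ b) {z : ℂ} (h0 : 0 ≤ z.im) (h1 : z.im ≤ 1) : Dn b z ≠ 0 := by
  have h := Dn_ge hb h0 h1
  have hch := Real.cosh_pos (Real.pi * z.re / 3)
  intro h2
  rw [h2, norm_zero] at h
  linarith

theorem Dn_diff (b : ℝ) : Differentiable ℂ (Dn b) := by
  unfold Dn
  fun_prop

/-- the integrand -/
def Ph (L b : ℝ) (z : ℂ) : ℂ := cexp (I * z / 2 * L) * Rq z * (Dn b z)⁻¹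

theorem Ph_norm (L b : ℝ) (z : ℂ) : ‖Ph L b z‖ = Real.exp (-(z.im * L / 2)) * ‖Rq z‖ * ‖Dn b z‖⁻¹ := by
  rw [Ph, norm_mul, norm_mul, norm_inv, norm_exp]
  congr 3
  simp
  ring

theorem inv_cosh_le (x : ℝ) : (Real.cosh (Real.pi * x / 3))⁻¹ ≤ 2 * Real.exp (-|x|) := by
  have h1 := NUQ.cosh_ge (Real.pi * x / 3)
  have h2 : |x| ≤ |Real.pi * x / 3| := by
    rw [abs_div, abs_mul, abs_of_pos Real.pi_pos, abs_of_pos (by norm_num : (0:ℝ) < 3)]
    have := Real.pi_gt_three
    have h3 := abs_nonneg x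
    rw [le_div_iff₀ (by norm_num)]
    nlinarith
  have h3 : Real.exp |x| / 2 ≤ Real.cosh (Real.pi * x / 3) :=
    le_trans (by have := Real.exp_le_exp.2 h2; linarith) h1
  rw [Real.exp_neg]
  have h4 := Real.exp_pos |x|
  calc (Real.cosh (Real.pi * x / 3))⁻¹ ≤ (Real.exp |x| / 2)⁻¹ := inv_anti₀ (by positivity) h3
    _ = 2 * (Real.exp |x|)⁻¹ := by rw [inv_div]; rfl

theorem lin_exp (x : ℝ) : (|x| + 3) * Real.exp (-|x|) ≤ 6 * Real.exp (-(1 / 2) * |x|) := by
  have h1 := Real.add_one_le_exp (1 / 2 * |x|)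
  have h0 := abs_nonneg x
  have e : Real.exp (-(1 / 2) * |x|) = Real.exp (1 / 2 * |x|) * Real.exp (-|x|) := by
    rw [← Real.exp_add]; congr 1; ring
  rw [e, ← mul_assoc]
  refine mul_le_mul_of_nonneg_right ?_ (Real.exp_pos _).le
  linarith

private theorem norm_le_lin {z : ℂ} (h0 : 0 ≤ z.im) (h1 : z.im ≤ 1) : ‖z + 2 * I‖ ≤ |z.re| + 3 := by
  refine (norm_le_abs_re_add_abs_im _).trans ?_
  have e1 : (z + 2 * I).re = z.re := by simp
  have e2 : (z + 2 * I).im = z.im + 2 := by simp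
  rw [e1, e2, abs_of_nonneg (by linarith : (0 : ℝ) ≤ z.im + 2)]
  linarith

theorem Ph_le {L b : ℝ} (hb : 0 ≤ b) {z : ℂ} (h0 : 0 ≤ z.im) (h1 : z.im ≤ 1) :
    ‖Ph L b z‖ ≤ Real.exp (-(z.im * L / 2)) * (12 * Real.exp (-(1 / 2) * |z.re|)) := by
  rw [Ph_norm, mul_assoc]
  refine mul_le_mul_of_nonneg_left ?_ (Real.exp_pos _).le
  have h2 := (Rq_le h0 h1).trans (norm_le_lin h0 h1)
  have h3 : ‖Dn b z‖⁻¹ ≤ 2 * Real.exp (-|z.re|) :=
    (inv_anti₀ (Real.cosh_pos _) (Dn_ge hb h0 h1)).trans (inv_cosh_le _)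
  have h4 := lin_exp z.re
  have h5 := abs_nonneg z.re
  calc ‖Rq z‖ * ‖Dn b z‖⁻¹ ≤ (|z.re| + 3) * (2 * Real.exp (-|z.re|)) :=
        mul_le_mul h2 h3 (inv_nonneg.2 (norm_nonneg _)) (by positivity)
    _ ≤ _ := by linarith

theorem Ph_shift {b : ℝ} (hb : 0 ≤ b) (L : ℝ) : Integrable (fun s : ℝ => Ph L b s) ∧
    Integrable (fun s : ℝ => Ph L b (s + I)) ∧ ∫ s : ℝ, Ph L b s = ∫ s : ℝ, Ph L b (s + I) := by
  have hd : ∀ z : ℂ, 0 ≤ z.im → z.im ≤ 1 → DifferentiableAt ℂ (Ph L b) z := by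
    intro z h0 h1
    refine DifferentiableAt.mul (DifferentiableAt.mul (by fun_prop) (Rq_diff (by linarith))) ?_
    exact (Dn_diff b z).inv (Dn_ne hb h0 h1)
  have h := NUMF.hshift (Φ := Ph L b) (θ := 1) (C := Real.exp |L| * 12) (κ := 1 / 2) (by norm_num) (by norm_num)
    (fun z hz => (hd z hz.1 hz.2).continuousAt.continuousWithinAt)
    (fun z h0 h1 => hd z h0.le h1.le) (fun z h0 h1 _ => by
      refine (Ph_le hb h0 h1).trans ?_
      rw [mul_assoc]
      refine mul_le_mul_of_nonneg_right (Real.exp_le_exp.2 ?_) (by positivity)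
      have h2 : -(z.im * L / 2) ≤ |z.im * L / 2| := neg_le_abs _
      rw [abs_div, abs_mul, abs_two, abs_of_nonneg h0] at h2
      have h3 := abs_nonneg L
      nlinarith)
  simpa using h

theorem int_exp_half : ∫ s : ℝ, Real.exp (-(1 / 2) * |s|) = 4 := by
  have h := integral_comp_abs (f := fun s : ℝ => Real.exp (-(1 / 2) * s))
  rw [h, integral_exp_mul_Ioi (by norm_num)]
  norm_num

/-- **the oscillating integral** -/
theorem osc {b : ℝ} (hb : 0 ≤ b) (L : ℝ) : ‖∫ s : ℝ, Ph L b s‖ ≤ 48 * Real.exp (-(L / 2)) := by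
  rw [(Ph_shift hb L).2.2]
  have hi : Integrable fun s : ℝ => Real.exp (-(1 / 2) * |s|) := by
    have := NUQ.int_exp_abs (b := 1 / 2) (by norm_num)
    refine this.congr (Eventually.of_forall fun s => ?_)
    simp only
    rw [neg_mul]
  have h1 : ‖∫ s : ℝ, Ph L b (s + I)‖ ≤ ∫ s : ℝ, Real.exp (-(L / 2)) * (12 * Real.exp (-(1 / 2) * |s|)) := by
    refine norm_integral_le_of_norm_le ((hi.const_mul 12).const_mul _) (Eventually.of_forall fun s => ?_)
    have h2 := Ph_le (L := L) hb (z := (s : ℂ) + I) (by simp) (by simp)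
    simpa using h2
  refine h1.trans (le_of_eq ?_)
  rw [integral_const_mul, integral_const_mul, int_exp_half]
  ring

end

end SB
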