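import Pool.Agent.PB.SB1
import Pool.Agent.PB.SB2
import Pool.Agent.PB.SB4

/-!
# The entry bound

`ebd`: for both signs the energy of two alternating orthogonal functions `aa j`, `aa l` is the Fourier transform
of the weight at the difference of the two logarithms, up to `M_j^(-1/2) + M_l^(-1/2)`, `M_j = 4 j + 2`.
-/

set_option autoImplicit false

open MeasureTheory Filter Topology Complex Set

namespace SB

noncomputable section

/-- the logarithm of the scale -/
def Lj (j : ℕ) : ℝ := Real.log (4 * j + 2)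

/-- Gumbel amplitude -/
def AG (j : ℕ) (k : ℝ) : ℂ := Gamma (1 - I * k / 2) * cexp (I * k / 2 * Lj j)

/-- the approximation of `aa` -/
def al (j : ℕ) (k : ℝ) : ℝ := 2 * (AG j k).re / (Real.pi * NUQ.wf k)

theorem AG_cpow (j : ℕ) (k : ℝ) : Gamma (1 - I * k / 2) * (((4 * j + 2 : ℕ) : ℂ)) ^ (I * k / 2) = AG j k := by
  have h0 : (((4 * j + 2 : ℕ) : ℂ)) ≠ 0 := by exact_mod_cast (by omega : 4 * j + 2 ≠ 0)
  rw [AG, cpow_def_of_ne_zero h0, Lj, ofReal_log (by positivity)]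
  congr 2
  push_cast
  ring

theorem G_sq (k : ℝ) : ‖Gamma (1 - I * k / 2)‖ ^ 2 = Real.pi / 2 * NUQ.wf k := by
  by_cases hk : k = 0
  · subst hk
    rw [NUQ.wf_zero]
    have hp := Real.pi_pos.ne'
    simp
  have hk' : (k : ℂ) ≠ 0 := by exact_mod_cast hk
  have hz : (I * k / 2 : ℂ) ≠ 0 := by
    simp [hk]
  have h1 := Gamma_mul_Gamma_one_sub (I * k / 2)
  have h2 := Gamma_add_one (I * k / 2) hz
  have h3 : ((‖Gamma (1 - I * k / 2)‖ ^ 2 : ℝ) : ℂ) = Gamma (1 + I * k / 2) * Gamma (1 - I * k / 2) := by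
    have h4 : Gamma (1 + I * k / 2) = (starRingEnd ℂ) (Gamma (1 - I * k / 2)) := by
      rw [G_conj]; simp
    rw [h4, conj_mul']
    push_cast
    rfl
  have h5 : sin (Real.pi * (I * k / 2)) = ((Real.sinh (Real.pi * k / 2) : ℝ) : ℂ) * I := by
    rw [ofReal_sinh, ← sin_mul_I]
    congr 1
    push_cast
    ring
  have hs : Real.sinh (Real.pi * k / 2) ≠ 0 := by
    rw [Ne, Real.sinh_eq_zero]
    have := Real.pi_pos.ne'
    positivity
  have hs' : ((Real.sinh (Real.pi * k / 2) : ℝ) : ℂ) ≠ 0 := by exact_mod_cast hs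
  have h6 : ((‖Gamma (1 - I * k / 2)‖ ^ 2 : ℝ) : ℂ) = ((Real.pi / 2 * NUQ.wf k : ℝ) : ℂ) := by
    rw [h3, add_comm, h2, mul_assoc, h1, h5, NUQ.wf_ne hk]
    push_cast
    field_simp
  exact_mod_cast h6

theorem inv_wf_le (k : ℝ) : (NUQ.wf k)⁻¹ ≤ Real.pi / 2 * Real.exp (Real.pi / 2 * |k|) := by
  have hp := Real.pi_pos
  have key : ∀ k : ℝ, 0 < k → (NUQ.wf k)⁻¹ ≤ Real.pi / 2 * Real.exp (Real.pi / 2 * |k|) := by
    intro k hk
    rw [NUQ.wf_ne hk.ne', inv_div, abs_of_pos hk, div_le_iff₀ hk, Real.sinh_eq]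
    have h1 := Real.add_one_le_exp (-(Real.pi * k))
    have h2 : Real.exp (-(Real.pi * k)) * Real.exp (Real.pi * k / 2) = Real.exp (-(Real.pi * k / 2)) := by
      rw [← Real.exp_add]; congr 1; ring
    have h3 : Real.exp (Real.pi / 2 * k) = Real.exp (Real.pi * k / 2) := by congr 1; ring
    rw [h3, ← h2]
    have h4 := Real.exp_pos (Real.pi * k / 2)
    nlinarith
  rcases lt_trichotomy k 0 with h | h | h
  · have := key (-k) (by linarith)
    rwa [NUQ.wf_neg, abs_neg] at this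
  · subst h
    rw [NUQ.wf_zero, inv_div]
    simp
  · exact key k h

theorem al_abs (j : ℕ) (k : ℝ) : |al j k| ≤ Real.exp (Real.pi / 4 * |k|) := by
  have hp := Real.pi_pos
  have hw := NUQ.wf_pos k
  refine abs_le_of_sq_le_sq ?_ (Real.exp_pos _).le
  have h1 : (AG j k).re ^ 2 ≤ Real.pi / 2 * NUQ.wf k := by
    rw [← G_sq]
    have h2 : ‖AG j k‖ = ‖Gamma (1 - I * k / 2)‖ := by
      rw [AG, norm_mul, norm_exp]
      have : (I * k / 2 * Lj j : ℂ).re = 0 := by simp
      rw [this, Real.exp_zero, mul_one]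
    rw [← h2, ← sq_abs]
    exact pow_le_pow_left₀ (abs_nonneg _) (abs_re_le_norm _) 2
  have h3 := inv_wf_le k
  have h4 : Real.exp (Real.pi / 4 * |k|) ^ 2 = Real.exp (Real.pi / 2 * |k|) := by
    rw [← Real.exp_nat_mul]
    congr 1
    push_cast
    ring
  rw [h4, al, div_pow, mul_pow, div_le_iff₀ (by positivity)]
  rw [inv_le_iff_one_le_mul₀ hw] at h3
  have h5 : 2 * Real.pi * NUQ.wf k * 1 ≤ 2 * Real.pi * NUQ.wf k *
      (NUQ.wf k * (Real.pi / 2 * Real.exp (Real.pi / 2 * |k|))) :=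
    mul_le_mul_of_nonneg_left (by linarith) (by positivity)
  nlinarith

/-- **the product of two approximations** -/
theorem al_mul (j l : ℕ) (k : ℝ) : NUQ.wf k * (al j k * al l k) =
    1 / Real.pi * Real.cos (k / 2 * (Lj j - Lj l)) +
      1 / Real.pi * (cexp (I * k / 2 * (Lj j + Lj l : ℝ)) * Rq k).re := by
  have hp := Real.pi_pos
  have hw := NUQ.wf_pos k
  set g := Gamma (1 - I * k / 2) with hg
  have hgc : Gamma (1 + I * k / 2) = (starRingEnd ℂ) g := by
    rw [hg, G_conj]; simp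
  have hg0 : (starRingEnd ℂ) g ≠ 0 := by
    rw [← hgc]; exact G_ne k
  have h1 : AG j k * (starRingEnd ℂ) (AG l k) = ((Real.pi / 2 * NUQ.wf k : ℝ) : ℂ) *
      cexp (((k / 2 * (Lj j - Lj l) : ℝ) : ℂ) * I) := by
    rw [← G_sq, ← hg]
    have e1 : ((‖g‖ ^ 2 : ℝ) : ℂ) = g * (starRingEnd ℂ) g := by
      rw [mul_conj, normSq_eq_norm_sq]
    have e2 : cexp (((k / 2 * (Lj j - Lj l) : ℝ) : ℂ) * I) =
        cexp (I * k / 2 * Lj j) * (starRingEnd ℂ) (cexp (I * k / 2 * Lj l)) := by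
      rw [← exp_conj, ← Complex.exp_add]
      congr 1
      simp only [map_mul, map_div₀, conj_I, conj_ofReal, map_ofNat]
      push_cast
      ring
    rw [e1, e2, AG, AG, map_mul, ← hg]
    ring
  have h2 : AG j k * AG l k = ((Real.pi / 2 * NUQ.wf k : ℝ) : ℂ) *
      (cexp (I * k / 2 * (Lj j + Lj l : ℝ)) * Rq k) := by
    rw [← G_sq, ← hg]
    have e1 : ((‖g‖ ^ 2 : ℝ) : ℂ) * Rq k = g * g := by
      have e3 : ((‖g‖ ^ 2 : ℝ) : ℂ) = g * (starRingEnd ℂ) g := by
        rw [mul_conj, normSq_eq_norm_sq]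
      rw [e3, Rq, ← hg, hgc]
      field_simp
    have e2 : cexp (I * k / 2 * (Lj j + Lj l : ℝ)) = cexp (I * k / 2 * Lj j) * cexp (I * k / 2 * Lj l) := by
      rw [← Complex.exp_add]
      congr 1
      push_cast
      ring
    rw [mul_left_comm, e1, e2, AG, AG, ← hg]
    ring
  have h3 : (AG j k).re * (AG l k).re = 1 / 2 * (AG j k * (starRingEnd ℂ) (AG l k)).re +
      1 / 2 * (AG j k * AG l k).re := by
    simp only [mul_re, conj_re, conj_im]
    ring
  have h4 : (AG j k).re * (AG l k).re = Real.pi / 4 * NUQ.wf k * Real.cos (k / 2 * (Lj j - Lj l)) +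
      Real.pi / 4 * NUQ.wf k * (cexp (I * k / 2 * (Lj j + Lj l : ℝ)) * Rq k).re := by
    rw [h3, h1, h2, re_ofReal_mul, re_ofReal_mul, exp_ofReal_mul_I_re]
    ring
  have e : NUQ.wf k * (al j k * al l k) = 4 / (Real.pi ^ 2 * NUQ.wf k) * ((AG j k).re * (AG l k).re) := by
    rw [al, al]
    field_simp
    ring
  rw [e, h4]
  field_simp

/-- the weight on the line -/
def wb (b k : ℝ) : ℝ := (2 * Real.cosh (Real.pi * k / 3) + b)⁻¹

theorem wb_pos {b : ℝ} (hb : 0 ≤ b) (k : ℝ) : 0 < wb b k := by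
  have := Real.cosh_pos (Real.pi * k / 3)
  unfold wb
  positivity

theorem wb_cont {b : ℝ} (hb : 0 ≤ b) : Continuous (wb b) := by
  unfold wb
  refine Continuous.inv₀ (by fun_prop) fun k => ?_
  have := Real.cosh_pos (Real.pi * k / 3)
  positivity

theorem wb_neg (b k : ℝ) : wb b (-k) = wb b k := by
  unfold wb
  rw [show Real.pi * -k / 3 = -(Real.pi * k / 3) by ring, Real.cosh_neg]

theorem wb_le {b : ℝ} (hb : 0 ≤ b) (k : ℝ) : wb b k ≤ Real.exp (-(Real.pi / 3 * |k|)) := by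
  have h1 := NUQ.cosh_ge (Real.pi * k / 3)
  have e : |Real.pi * k / 3| = Real.pi / 3 * |k| := by
    rw [abs_div, abs_mul, abs_of_pos Real.pi_pos, abs_of_pos (by norm_num : (0:ℝ) < 3)]
    ring
  rw [e] at h1
  rw [Real.exp_neg]
  exact inv_anti₀ (Real.exp_pos _) (by linarith)

theorem Dn_real (b k : ℝ) : (Dn b k)⁻¹ = ((wb b k : ℝ) : ℂ) := by
  unfold Dn wb
  push_cast
  rfl

theorem WW_neg (k : ℝ) : WW (-1) k = wb 0 k := by
  unfold WW wb
  rw [show -((-1) * NUQ.gg k) = NUQ.gg k by ring, NUQ.gg_exp, add_zero]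
  ring

theorem WW_pos (k : ℝ) : WW 1 k = -wb 1 k := by
  unfold WW wb
  have hc := Real.cosh_pos (Real.pi * k / 3)
  rw [one_mul, Real.exp_neg, NUQ.gg_exp]
  field_simp
  ring

theorem al_cont (j : ℕ) : Continuous (al j) := by
  have h1 : Continuous fun k : ℝ => Gamma (1 - I * k / 2) := by
    refine continuous_iff_continuousAt.2 fun k => ?_
    have h2 : ContinuousAt Gamma (1 - I * k / 2) := by
      refine (differentiableAt_Gamma _ fun m hm => ?_).continuousAt
      have := congrArg Complex.re hm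
      simp at this
      have h3 : (0 : ℝ) ≤ m := Nat.cast_nonneg m
      linarith
    exact ContinuousAt.comp (f := fun k : ℝ => (1 - I * k / 2 : ℂ)) h2 (by fun_prop)
  have h2 : Continuous (AG j) := by
    unfold AG
    exact h1.mul (by fun_prop)
  unfold al
  refine Continuous.div (by fun_prop) (continuous_const.mul NUQ.wf_cont) fun k => ?_
  exact mul_ne_zero Real.pi_pos.ne' (NUQ.wf_pos k).ne'

/-- the Gumbel comparison -/
def GumP (C : ℝ) : Prop := ∀ (j : ℕ) (k : ℝ),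
  |Real.pi * NUQ.wf k * aa j k - 2 * (AG j k).re| ≤ C / (4 * (j : ℝ) + 2) ^ 2

theorem aa_sub_al {C : ℝ} (h : GumP C) (j : ℕ) (k : ℝ) :
    NUQ.wf k * |aa j k - al j k| ≤ C / (4 * (j : ℝ) + 2) ^ 2 / Real.pi := by
  have hp := Real.pi_pos
  have hw := NUQ.wf_pos k
  have e : Real.pi * NUQ.wf k * aa j k - 2 * (AG j k).re = Real.pi * NUQ.wf k * (aa j k - al j k) := by
    rw [al]
    field_simp
  have h1 := h j k
  rw [e, abs_mul, abs_of_pos (by positivity : 0 < Real.pi * NUQ.wf k)] at h1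
  rw [le_div_iff₀ hp]
  linarith

theorem aa_wb {b : ℝ} (hb : 0 ≤ b) (l : ℕ) (k : ℝ) {t : ℝ} (ht : 0 < t) :
    |aa l k| * wb b k ≤ 1 / 2 * (t * (NUQ.wf k * (aa l k * aa l k)) +
      t⁻¹ * (Real.pi / 2 * Real.exp (-(Real.pi / 6 * |k|)))) := by
  have hp := Real.pi_pos
  have hw := NUQ.wf_pos k
  have hwb := wb_pos hb k
  have h1 : wb b k * wb b k * (NUQ.wf k)⁻¹ ≤ Real.pi / 2 * Real.exp (-(Real.pi / 6 * |k|)) := by
    have h2 : wb b k * wb b k ≤ Real.exp (-(Real.pi / 3 * |k|)) * Real.exp (-(Real.pi / 3 * |k|)) :=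
      mul_le_mul (wb_le hb k) (wb_le hb k) hwb.le (Real.exp_pos _).le
    calc _ ≤ Real.exp (-(Real.pi / 3 * |k|)) * Real.exp (-(Real.pi / 3 * |k|)) *
          (Real.pi / 2 * Real.exp (Real.pi / 2 * |k|)) :=
          mul_le_mul h2 (inv_wf_le k) (inv_nonneg.2 hw.le) (by positivity)
      _ = Real.pi / 2 * (Real.exp (-(Real.pi / 3 * |k|)) * Real.exp (-(Real.pi / 3 * |k|)) *
          Real.exp (Real.pi / 2 * |k|)) := by ring
      _ = _ := by
        rw [← Real.exp_add, ← Real.exp_add]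
        congr 2
        ring
  have h3 : |aa l k| * wb b k ≤ 1 / 2 * (t * (NUQ.wf k * (aa l k * aa l k)) +
      t⁻¹ * (wb b k * wb b k * (NUQ.wf k)⁻¹)) := by
    have h4 : 0 ≤ (t * NUQ.wf k * |aa l k| - wb b k) ^ 2 * (t⁻¹ * (NUQ.wf k)⁻¹) := by positivity
    have h5 : (t * NUQ.wf k * |aa l k| - wb b k) ^ 2 * (t⁻¹ * (NUQ.wf k)⁻¹) =
        t * (NUQ.wf k * (|aa l k| * |aa l k|)) + t⁻¹ * (wb b k * wb b k * (NUQ.wf k)⁻¹) -
          2 * (|aa l k| * wb b k) := by
      field_simp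
      ring
    rw [h5, abs_mul_abs_self] at h4
    linarith
  refine h3.trans ?_
  have h6 := mul_le_mul_of_nonneg_left h1 (inv_nonneg.2 ht.le)
  linarith

theorem al_wb {b : ℝ} (hb : 0 ≤ b) (j : ℕ) (k : ℝ) : |al j k| * wb b k ≤ Real.exp (-(Real.pi / 12 * |k|)) := by
  calc _ ≤ Real.exp (Real.pi / 4 * |k|) * Real.exp (-(Real.pi / 3 * |k|)) :=
        mul_le_mul (al_abs j k) (wb_le hb k) (wb_pos hb k).le (Real.exp_pos _).le
    _ = _ := by
        rw [← Real.exp_add]
        congr 1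
        ring

theorem prod_sub {C : ℝ} (hC : 0 ≤ C) (h : GumP C) {b : ℝ} (hb : 0 ≤ b) (j l : ℕ) (k : ℝ) {t : ℝ} (ht : 0 < t) :
    |NUQ.wf k * (aa j k * aa l k) * wb b k - NUQ.wf k * (al j k * al l k) * wb b k| ≤
      C / (4 * (j : ℝ) + 2) ^ 2 / Real.pi * (1 / 2 * (t * (NUQ.wf k * (aa l k * aa l k)) +
        t⁻¹ * (Real.pi / 2 * Real.exp (-(Real.pi / 6 * |k|))))) +
      C / (4 * (l : ℝ) + 2) ^ 2 / Real.pi * Real.exp (-(Real.pi / 12 * |k|)) := by
  have hp := Real.pi_pos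
  have hw := NUQ.wf_pos k
  have hwb := wb_pos hb k
  have e : NUQ.wf k * (aa j k * aa l k) * wb b k - NUQ.wf k * (al j k * al l k) * wb b k =
      NUQ.wf k * (aa j k - al j k) * (aa l k * wb b k) + NUQ.wf k * (aa l k - al l k) * (al j k * wb b k) := by
    ring
  rw [e]
  refine (abs_add_le _ _).trans (add_le_add ?_ ?_)
  · rw [abs_mul, abs_mul (NUQ.wf k), abs_of_pos hw, abs_mul (aa l k), abs_of_pos hwb]
    exact mul_le_mul (aa_sub_al h j k) (aa_wb hb l k ht) (by positivity) (by positivity)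
  · rw [abs_mul, abs_mul (NUQ.wf k), abs_of_pos hw, abs_mul (al j k), abs_of_pos hwb]
    exact mul_le_mul (aa_sub_al h l k) (al_wb hb j k) (by positivity) (by positivity)

private theorem int_exp_pos {c : ℝ} (hc : 0 < c) : ∫ k in Ioi (0 : ℝ), Real.exp (-(c * |k|)) = 1 / c := by
  have e : ∫ k in Ioi (0 : ℝ), Real.exp (-(c * |k|)) = ∫ k in Ioi (0 : ℝ), Real.exp (-c * k) := by
    refine setIntegral_congr_fun measurableSet_Ioi fun k hk => ?_
    have hk' : 0 < k := hk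
    simp only [abs_of_pos hk']
    rw [neg_mul]
  rw [e, integral_exp_mul_Ioi (by linarith)]
  simp

theorem al_int {b : ℝ} (hb : 0 ≤ b) (j l : ℕ) :
    IntegrableOn (fun k => NUQ.wf k * (al j k * al l k) * wb b k) (Ioi 0) := by
  have hp := Real.pi_pos
  have h1 : Integrable fun k : ℝ => 2 / Real.pi * Real.exp (-(Real.pi / 3 * |k|)) :=
    (NUQ.int_exp_abs (b := Real.pi / 3) (by positivity)).const_mul _
  refine (h1.mono' ((NUQ.wf_cont.mul ((al_cont j).mul (al_cont l))).mul (wb_cont hb)).aestronglyMeasurable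
    (Eventually.of_forall fun k => ?_)).integrableOn
  have hwb := wb_pos hb k
  change ‖NUQ.wf k * (al j k * al l k) * wb b k‖ ≤ _
  rw [norm_mul, Real.norm_of_nonneg hwb.le]
  refine mul_le_mul ?_ (wb_le hb k) hwb.le (by positivity)
  rw [al_mul, Real.norm_eq_abs]
  have h2 : |Real.cos (k / 2 * (Lj j - Lj l))| ≤ 1 := Real.abs_cos_le_one _
  have h3 : |(cexp (I * k / 2 * (Lj j + Lj l : ℝ)) * Rq k).re| ≤ 1 := by
    refine (abs_re_le_norm _).trans ?_
    rw [norm_mul, Rq_real, mul_one, norm_exp]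
    have : (I * k / 2 * (Lj j + Lj l : ℝ) : ℂ).re = 0 := by simp
    rw [this, Real.exp_zero]
  refine (abs_add_le _ _).trans ?_
  rw [abs_mul, abs_mul, abs_of_pos (by positivity : 0 < 1 / Real.pi)]
  have h4 : 0 < 1 / Real.pi := by positivity
  have e : 2 / Real.pi = 1 / Real.pi * 1 + 1 / Real.pi * 1 := by ring
  rw [e]
  exact add_le_add (mul_le_mul_of_nonneg_left h2 h4.le) (mul_le_mul_of_nonneg_left h3 h4.le)

theorem Ph_conj (L b k : ℝ) : Ph L b ((-k : ℝ) : ℂ) = (starRingEnd ℂ) (Ph L b k) := by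
  have e1 : Rq ((-k : ℝ) : ℂ) = (starRingEnd ℂ) (Rq k) := by
    rw [Rq, Rq, map_mul, map_inv₀, ← Gamma_conj, ← Gamma_conj]
    congr 2
    · simp only [map_sub, map_one, map_div₀, map_mul, conj_I, conj_ofReal, map_ofNat]
      push_cast
      ring
    · congr 1
      simp only [map_add, map_one, map_div₀, map_mul, conj_I, conj_ofReal, map_ofNat]
      push_cast
      ring
  rw [Ph, Ph, map_mul, map_mul, e1, Dn_real, Dn_real, wb_neg, conj_ofReal, ← exp_conj]
  congr 3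
  simp only [map_div₀, map_mul, conj_I, conj_ofReal, map_ofNat]
  push_cast
  ring

theorem cos_wb_int {b : ℝ} (hb : 0 ≤ b) (x : ℝ) : Integrable fun k => Real.cos (k / 2 * x) * wb b k := by
  have h1 := NUQ.int_exp_abs (b := Real.pi / 3) (by have := Real.pi_pos; positivity)
  refine h1.mono' ((by fun_prop : Continuous fun k : ℝ => Real.cos (k / 2 * x)).mul
    (wb_cont hb)).aestronglyMeasurable (Eventually.of_forall fun k => ?_)
  have hwb := wb_pos hb k
  rw [norm_mul, Real.norm_of_nonneg hwb.le, Real.norm_eq_abs]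
  calc _ ≤ 1 * Real.exp (-(Real.pi / 3 * |k|)) :=
        mul_le_mul (Real.abs_cos_le_one _) (wb_le hb k) hwb.le zero_le_one
    _ = _ := one_mul _

/-- **the energy of two approximations** -/
theorem al_energy {b : ℝ} (hb : 0 ≤ b) (j l : ℕ) :
    |(∫ k in Ioi (0 : ℝ), NUQ.wf k * (al j k * al l k) * wb b k) -
      1 / (2 * Real.pi) * ∫ k, Real.cos (k / 2 * (Lj j - Lj l)) * wb b k| ≤
      8 * Real.exp (-((Lj j + Lj l) / 2)) := by
  have hp := Real.pi_pos
  have hP := (Ph_shift hb (Lj j + Lj l)).1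
  have hPr : Integrable fun k : ℝ => (Ph (Lj j + Lj l) b k).re := hP.re
  have e1 : ∀ k : ℝ, NUQ.wf k * (al j k * al l k) * wb b k =
      1 / Real.pi * (Real.cos (k / 2 * (Lj j - Lj l)) * wb b k) + 1 / Real.pi * (Ph (Lj j + Lj l) b k).re := by
    intro k
    rw [al_mul, Ph, Dn_real, re_mul_ofReal]
    ring
  have e2 : ∫ k in Ioi (0 : ℝ), NUQ.wf k * (al j k * al l k) * wb b k =
      1 / (2 * Real.pi) * (∫ k, Real.cos (k / 2 * (Lj j - Lj l)) * wb b k) +
        1 / (2 * Real.pi) * ∫ k : ℝ, (Ph (Lj j + Lj l) b k).re := by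
    simp only [e1]
    rw [integral_add ((cos_wb_int hb _).const_mul _).integrableOn (hPr.const_mul _).integrableOn,
      integral_const_mul, integral_const_mul, NUQ.half_int (fun k => ?_), NUQ.half_int (fun k => ?_)]
    · ring
    · rw [Ph_conj, conj_re]
    · rw [wb_neg, show -k / 2 * (Lj j - Lj l) = -(k / 2 * (Lj j - Lj l)) by ring, Real.cos_neg]
  have e3 : |∫ k : ℝ, (Ph (Lj j + Lj l) b k).re| ≤ 48 * Real.exp (-((Lj j + Lj l) / 2)) := by
    have h1 : ∫ k : ℝ, (Ph (Lj j + Lj l) b k).re = (∫ k : ℝ, Ph (Lj j + Lj l) b k).re := integral_re hP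
    rw [h1]
    exact (abs_re_le_norm _).trans (osc hb _)
  rw [e2, add_sub_cancel_left, abs_mul, abs_of_pos (by positivity)]
  have h3 := Real.pi_gt_three
  have h4 := Real.exp_pos (-((Lj j + Lj l) / 2))
  calc 1 / (2 * Real.pi) * |∫ k : ℝ, (Ph (Lj j + Lj l) b k).re| ≤
        1 / (2 * 3) * (48 * Real.exp (-((Lj j + Lj l) / 2))) := by
        refine mul_le_mul ?_ e3 (abs_nonneg _) (by norm_num)
        exact one_div_le_one_div_of_le (by norm_num) (by linarith)
    _ = _ := by ring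

theorem exp_Lj (j l : ℕ) : Real.exp (-((Lj j + Lj l) / 2)) =
    1 / Real.sqrt (4 * j + 2) * (1 / Real.sqrt (4 * l + 2)) := by
  have h : ∀ j : ℕ, Real.exp (-(Lj j / 2)) = 1 / Real.sqrt (4 * j + 2) := by
    intro j
    have h0 : (0 : ℝ) < 4 * j + 2 := by positivity
    rw [Lj, ← Real.log_sqrt h0.le, Real.exp_neg, Real.exp_log (Real.sqrt_pos.2 h0), one_div]
  rw [← h, ← h, ← Real.exp_add]
  congr 1
  ring

/-- the entry bound, ordered indices -/
theorem ebw_le {C : ℝ} (hC : 0 ≤ C) (h : GumP C) {b : ℝ} (hb : 0 ≤ b) {j l : ℕ} (hjl : l ≤ j) :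
    |(∫ k in Ioi (0 : ℝ), NUQ.wf k * (aa j k * aa l k) * wb b k) -
      1 / (2 * Real.pi) * ∫ k, Real.cos (k / 2 * (Lj j - Lj l)) * wb b k| ≤
      (2 * C + 8) * (1 / Real.sqrt (4 * j + 2) + 1 / Real.sqrt (4 * l + 2)) := by
  have hp := Real.pi_pos
  have hp3 := Real.pi_gt_three
  set M : ℝ := 4 * j + 2 with hM
  set N : ℝ := 4 * l + 2 with hN
  have hN2 : 2 ≤ N := by rw [hN]; have : (0 : ℝ) ≤ l := Nat.cast_nonneg l; linarith
  have hNM : N ≤ M := by
    rw [hN, hM]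
    have : (l : ℝ) ≤ j := by exact_mod_cast hjl
    linarith
  have hN0 : 0 < N := by linarith
  have hM0 : 0 < M := by linarith
  set t : ℝ := 1 / Real.sqrt N with ht
  have hsN : 0 < Real.sqrt N := Real.sqrt_pos.2 hN0
  have hsM : 0 < Real.sqrt M := Real.sqrt_pos.2 hM0
  have ht0 : 0 < t := by positivity
  have hB : ∀ k, |wb b k| ≤ 1 := fun k => by
    rw [abs_of_pos (wb_pos hb k)]
    refine (wb_le hb k).trans (Real.exp_le_one_iff.2 ?_)
    have := abs_nonneg k
    have : 0 ≤ Real.pi / 3 * |k| := by positivity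
    linarith
  have i1 := aa_int j l (wb_cont hb) hB
  have i2 := al_int hb j l
  have i3 : IntegrableOn (fun k => NUQ.wf k * (aa l k * aa l k)) (Ioi 0) := by
    have := aa_int l l (f := fun _ => 1) continuous_const (B := 1) (fun k => by simp)
    simpa using this
  have i4 : IntegrableOn (fun k : ℝ => Real.exp (-(Real.pi / 6 * |k|))) (Ioi 0) :=
    (NUQ.int_exp_abs (b := Real.pi / 6) (by positivity)).integrableOn
  have i5 : IntegrableOn (fun k : ℝ => Real.exp (-(Real.pi / 12 * |k|))) (Ioi 0) :=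
    (NUQ.int_exp_abs (b := Real.pi / 12) (by positivity)).integrableOn
  -- the difference
  have h1 : |(∫ k in Ioi (0 : ℝ), NUQ.wf k * (aa j k * aa l k) * wb b k) -
      ∫ k in Ioi (0 : ℝ), NUQ.wf k * (al j k * al l k) * wb b k| ≤
      C / M ^ 2 / Real.pi * (1 / 2 * (t * (N / 2) + t⁻¹ * 3)) + C / N ^ 2 / Real.pi * (12 / Real.pi) := by
    rw [← integral_sub i1 i2]
    have hA0 : IntegrableOn (fun k => t * (NUQ.wf k * (aa l k * aa l k))) (Ioi 0) := i3.const_mul t
    have hA2 : IntegrableOn (fun k : ℝ => t⁻¹ * (Real.pi / 2 * Real.exp (-(Real.pi / 6 * |k|)))) (Ioi 0) :=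
      (i4.const_mul _).const_mul _
    have hA1 : IntegrableOn (fun k => C / M ^ 2 / Real.pi * (1 / 2 * (t * (NUQ.wf k * (aa l k * aa l k)) +
        t⁻¹ * (Real.pi / 2 * Real.exp (-(Real.pi / 6 * |k|)))))) (Ioi 0) :=
      ((hA0.add hA2).const_mul _).const_mul _
    have hA3 : IntegrableOn (fun k : ℝ => C / N ^ 2 / Real.pi * Real.exp (-(Real.pi / 12 * |k|))) (Ioi 0) :=
      i5.const_mul _
    have hD : IntegrableOn (fun k => C / M ^ 2 / Real.pi * (1 / 2 * (t * (NUQ.wf k * (aa l k * aa l k)) +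
        t⁻¹ * (Real.pi / 2 * Real.exp (-(Real.pi / 6 * |k|))))) +
        C / N ^ 2 / Real.pi * Real.exp (-(Real.pi / 12 * |k|))) (Ioi 0) := hA1.add hA3
    have h2 := norm_integral_le_of_norm_le hD (Eventually.of_forall fun k => by
      rw [Real.norm_eq_abs]
      exact prod_sub hC h hb j l k ht0)
    rw [Real.norm_eq_abs] at h2
    refine h2.trans (le_of_eq ?_)
    rw [integral_add hA1 hA3, integral_const_mul, integral_const_mul,
      integral_add hA0 hA2, integral_const_mul, integral_const_mul,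
      integral_const_mul, integral_const_mul, int_exp_pos (by positivity), int_exp_pos (by positivity),
      aa_orth, if_pos rfl]
    rw [hN]
    field_simp
    ring
  have h3 := al_energy hb j l
  rw [exp_Lj, ← hM, ← hN] at h3
  have h4 : C / M ^ 2 / Real.pi * (1 / 2 * (t * (N / 2) + t⁻¹ * 3)) ≤ C * (1 / Real.sqrt M) := by
    have e1 : t * (N / 2) = Real.sqrt N / 2 := by
      rw [ht]
      field_simp
      rw [Real.sq_sqrt hN0.le]
    have e2 : t⁻¹ = Real.sqrt N := by rw [ht, one_div, inv_inv]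
    rw [e1, e2]
    have e3 : Real.sqrt N ≤ Real.sqrt M := Real.sqrt_le_sqrt hNM
    have e4 : Real.sqrt M * Real.sqrt M = M := Real.mul_self_sqrt hM0.le
    have e5 : C / M ^ 2 / Real.pi * (1 / 2 * (Real.sqrt N / 2 + Real.sqrt N * 3)) =
        C * (7 / 4 / Real.pi * (Real.sqrt N / M ^ 2)) := by
      field_simp
      ring
    rw [e5]
    refine mul_le_mul_of_nonneg_left ?_ hC
    have e6 : Real.sqrt N / M ^ 2 ≤ 1 / Real.sqrt M := by
      rw [div_le_div_iff₀ (by positivity) hsM, one_mul]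
      nlinarith
    have e7 : 7 / 4 / Real.pi ≤ 1 := by
      rw [div_le_one hp]
      linarith
    calc _ ≤ 1 * (Real.sqrt N / M ^ 2) := mul_le_mul_of_nonneg_right e7 (by positivity)
      _ ≤ _ := by rw [one_mul]; exact e6
  have h5 : C / N ^ 2 / Real.pi * (12 / Real.pi) ≤ 2 * C * (1 / Real.sqrt N) := by
    have e1 : C / N ^ 2 / Real.pi * (12 / Real.pi) = C * (12 / (Real.pi * Real.pi) * (1 / N ^ 2)) := by
      field_simp
    rw [e1]
    have e2 : 12 / (Real.pi * Real.pi) ≤ 2 := by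
      rw [div_le_iff₀ (by positivity)]
      nlinarith
    have e4 : Real.sqrt N * Real.sqrt N = N := Real.mul_self_sqrt hN0.le
    have e5 : 1 ≤ Real.sqrt N := by
      rw [Real.one_le_sqrt]
      linarith
    have e3 : 1 / N ^ 2 ≤ 1 / Real.sqrt N := by
      refine one_div_le_one_div_of_le hsN ?_
      nlinarith
    calc C * (12 / (Real.pi * Real.pi) * (1 / N ^ 2)) ≤ C * (2 * (1 / Real.sqrt N)) := by
          refine mul_le_mul_of_nonneg_left ?_ hC
          exact mul_le_mul e2 e3 (by positivity) (by norm_num)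
      _ = _ := by ring
  have h6 : 8 * (1 / Real.sqrt M * (1 / Real.sqrt N)) ≤ 8 * (1 / Real.sqrt M) := by
    have e5 : 1 / Real.sqrt N ≤ 1 := by
      rw [div_le_one hsN, Real.one_le_sqrt]
      linarith
    have : 0 < 1 / Real.sqrt M := by positivity
    nlinarith
  have h7 : 0 < 1 / Real.sqrt M := by positivity
  have h8 : 0 < 1 / Real.sqrt N := by positivity
  have h9 := abs_sub_le (∫ k in Ioi (0 : ℝ), NUQ.wf k * (aa j k * aa l k) * wb b k)
    (∫ k in Ioi (0 : ℝ), NUQ.wf k * (al j k * al l k) * wb b k)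
    (1 / (2 * Real.pi) * ∫ k, Real.cos (k / 2 * (Lj j - Lj l)) * wb b k)
  have h10 : 0 ≤ C * (1 / Real.sqrt M) := by positivity
  have h11 : 0 ≤ C * (1 / Real.sqrt N) := by positivity
  have h12 : (2 * C + 8) * (1 / Real.sqrt M + 1 / Real.sqrt N) =
      2 * (C * (1 / Real.sqrt M)) + 8 * (1 / Real.sqrt M) + 2 * (C * (1 / Real.sqrt N)) + 8 * (1 / Real.sqrt N) := by
    ring
  rw [h12]
  linarith

theorem ebw {C : ℝ} (hC : 0 ≤ C) (h : GumP C) {b : ℝ} (hb : 0 ≤ b) (j l : ℕ) :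
    |(∫ k in Ioi (0 : ℝ), NUQ.wf k * (aa j k * aa l k) * wb b k) -
      1 / (2 * Real.pi) * ∫ k, Real.cos (k / 2 * Real.log ((4 * j + 2) / (4 * l + 2))) * wb b k| ≤
      (2 * C + 8) * (1 / Real.sqrt (4 * j + 2) + 1 / Real.sqrt (4 * l + 2)) := by
  have e1 : Real.log ((4 * (j : ℝ) + 2) / (4 * l + 2)) = Lj j - Lj l := by
    rw [Real.log_div (by positivity) (by positivity), Lj, Lj]
  rw [e1]
  rcases le_total l j with hjl | hjl
  · exact ebw_le hC h hb hjl
  · have h1 := ebw_le hC h hb hjl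
    have e2 : ∀ k, NUQ.wf k * (aa l k * aa j k) * wb b k = NUQ.wf k * (aa j k * aa l k) * wb b k := fun k => by ring
    have e3 : ∀ k : ℝ, Real.cos (k / 2 * (Lj l - Lj j)) * wb b k = Real.cos (k / 2 * (Lj j - Lj l)) * wb b k := by
      intro k
      rw [show k / 2 * (Lj l - Lj j) = -(k / 2 * (Lj j - Lj l)) by ring, Real.cos_neg]
    simp only [e2, e3] at h1
    rw [add_comm (1 / Real.sqrt (4 * (l : ℝ) + 2))] at h1
    exact h1

/-- **the entry bound for both signs** -/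
theorem ebd : ∃ C : ℝ, 0 ≤ C ∧ EBd 1 C ∧ EBd (-1) C := by
  obtain ⟨C, hC, h⟩ := gumbel
  have hG : GumP C := fun j k => by
    have := h j k
    rwa [AG_cpow] at this
  refine ⟨2 * C + 8, by linarith, fun j l => ?_, fun j l => ?_⟩
  · have h1 := ebw hC hG (b := 1) zero_le_one j l
    simp only [WW_pos, mul_neg, integral_neg]
    rw [← abs_neg]
    convert h1 using 2
    ring
  · have h1 := ebw hC hG (b := 0) le_rfl j l
    simp only [WW_neg]
    exact h1

/-- **the logarithm of the quotient of two consecutive determinants** -/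
theorem log_rn_main : ∃ C, 0 ≤ C ∧ ∀ n : ℕ, |Real.log (rn n) - 5 / 24 / (2 * (n : ℝ) + 1)| ≤
    C * ((n : ℝ) + 1) ^ (-(3 / 2) : ℝ) := by
  obtain ⟨C, hC, h1, h2⟩ := ebd
  exact log_rn var hC h1 h2

/-- the same, literally the hypothesis of the sharp normaliser -/
theorem quot_main : ∃ C : ℝ, ∀ n : ℕ,
    |Real.log ((_root_.NUQ.Gm (n + 1)).det / (_root_.NUQ.Gm n).det) - (5 / 24) / (2 * (n : ℝ) + 1)| ≤
      C * ((n : ℝ) + 1) ^ (-(3 / 2) : ℝ) := by
  obtain ⟨C, -, h⟩ := log_rn_main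
  exact ⟨C, h⟩

end

end SB
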