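import Pool.Agent.NUCR.Target
import Pool.Agent.NUQ.DenL

/-!
# The denominator from above, rows `0`

`denUp` : the disc function at loop weight zero and `2 m` equal rows is at most `m ^ (5 / 24 + ε) * bulk m`;
from the upper bound of the numerator (`NUF.NumUp`), the lower bound of the gas of nested polygons (`NUF.NFLow`)
and the monotony of the quotient of the two Hankel determinants.
-/

set_option autoImplicit false

open MeasureTheory Filter Topology Set Finset
open scoped Real Matrix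

namespace PBU

open Pool.Agent Pool.Agent.NUQ

/-- norm of the Meixner-Pollaczek polynomial -/
noncomputable def hh (i : ℕ) : ℝ := 1 / 2 * (((2 * i : ℕ) : ℝ) + 1)

theorem hh_pos (i : ℕ) : 0 < hh i := by unfold hh; positivity

theorem Gr_sub (m : ℕ) (i j : Fin m) : (Gr m - Matrix.diagonal fun i : Fin m => hh i) i j =
    ∫ x : ℝ, (MP (2 * (i : ℕ))).eval x * (MP (2 * (j : ℕ))).eval x * wt x * (Real.exp (Gf x) - 1) := by
  have h1 : Integrable fun x : ℝ => (MP (2 * (i : ℕ))).eval x * (MP (2 * (j : ℕ))).eval x * wt x := by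
    have := integrable_poly_wt (MP (2 * (i : ℕ)) * MP (2 * (j : ℕ)))
    simpa only [Polynomial.eval_mul] using this
  have h2 : Integrable fun x : ℝ => (MP (2 * (i : ℕ))).eval x * (MP (2 * (j : ℕ))).eval x * wt x *
      Real.exp (Gf x) := by
    refine h1.mul_bdd (c := Real.exp 1)
      (Real.measurable_exp.comp measurable_Gf).aestronglyMeasurable ?_
    exact Eventually.of_forall fun x => by
      simp only [Real.norm_eq_abs, Real.abs_exp]
      exact Real.exp_le_exp.2 (Gf_le x)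
  have h3 : ∫ x : ℝ, (MP (2 * (i : ℕ))).eval x * (MP (2 * (j : ℕ))).eval x * wt x =
      (Matrix.diagonal fun i : Fin m => hh i) i j := by
    have h4 := int_orth (2 * (i : ℕ)) (2 * (j : ℕ)) (by rw [Nat.even_iff]; omega)
    simp only [Polynomial.eval_mul] at h4
    rw [h4, Matrix.diagonal_apply]
    by_cases hij : i = j
    · subst hij
      rw [if_pos rfl, if_pos rfl, hh]
    · have : ¬ (2 * (i : ℕ) = 2 * (j : ℕ)) := by
        intro h0; exact hij (Fin.ext (by omega))
      rw [if_neg this, if_neg hij]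
  rw [Matrix.sub_apply, ← h3]
  simp only [Gr, Matrix.of_apply]
  rw [← integral_sub h2 h1]
  congr 1
  funext x
  ring

theorem Gr_symm (m : ℕ) : (Gr m).IsHermitian := by
  ext i j
  simp only [Matrix.conjTranspose_apply, Gr, Matrix.of_apply, star_trivial]
  congr 1
  funext x
  ring

theorem Gr_sub_psd (m : ℕ) : (Gr m - Matrix.diagonal fun i : Fin m => hh i).PosSemidef := by
  refine Matrix.PosSemidef.of_dotProduct_mulVec_nonneg ?_ fun x => ?_
  · exact (Gr_symm m).sub (Matrix.isHermitian_diagonal _)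
  have hint : ∀ i j : Fin m, Integrable fun t : ℝ => (MP (2 * (i : ℕ))).eval t *
      (MP (2 * (j : ℕ))).eval t * wt t * (Real.exp (Gf t) - 1) := by
    intro i j
    have h1 : Integrable fun x : ℝ => (MP (2 * (i : ℕ))).eval x * (MP (2 * (j : ℕ))).eval x * wt x := by
      have := integrable_poly_wt (MP (2 * (i : ℕ)) * MP (2 * (j : ℕ)))
      simpa only [Polynomial.eval_mul] using this
    refine h1.mul_bdd (c := Real.exp 1 + 1)
      ((Real.measurable_exp.comp measurable_Gf).sub_const 1).aestronglyMeasurable ?_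
    exact Eventually.of_forall fun x => by
      have h2 := Real.exp_le_exp.2 (Gf_le x)
      have h3 := Real.exp_pos (Gf x)
      rw [Real.norm_eq_abs, abs_le]
      constructor <;> linarith [Real.exp_pos (1 : ℝ)]
  have e1 : star x ⬝ᵥ ((Gr m - Matrix.diagonal fun i : Fin m => hh i).mulVec x) =
      ∫ t : ℝ, (∑ i, x i * (MP (2 * (i : ℕ))).eval t) ^ 2 * wt t * (Real.exp (Gf t) - 1) := by
    have e2 : ∀ t : ℝ, (∑ i, x i * (MP (2 * (i : ℕ))).eval t) ^ 2 * wt t * (Real.exp (Gf t) - 1) =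
        ∑ i, ∑ j, x i * x j * ((MP (2 * (i : ℕ))).eval t *
          (MP (2 * (j : ℕ))).eval t * wt t * (Real.exp (Gf t) - 1)) := by
      intro t
      rw [sq, Finset.sum_mul_sum, Finset.sum_mul, Finset.sum_mul]
      refine Finset.sum_congr rfl fun i _ => ?_
      rw [Finset.sum_mul, Finset.sum_mul]
      refine Finset.sum_congr rfl fun j _ => ?_
      ring
    simp only [e2]
    rw [integral_finsetSum _ fun i _ => integrable_finsetSum _ fun j _ => (hint i j).const_mul _]
    simp only [dotProduct, Matrix.mulVec, star_trivial]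
    refine Finset.sum_congr rfl fun i _ => ?_
    rw [integral_finsetSum _ fun j _ => (hint i j).const_mul _, Finset.mul_sum]
    refine Finset.sum_congr rfl fun j _ => ?_
    rw [integral_const_mul, Gr_sub]
    ring
  rw [e1]
  refine integral_nonneg fun t => ?_
  have h1 : 1 ≤ Real.exp (Gf t) := Real.one_le_exp (Gf_nonneg t)
  have h2 := wt_nonneg t
  have h3 : 0 ≤ Real.exp (Gf t) - 1 := by linarith
  positivity

theorem Gr_pos (m : ℕ) : (Gr m).PosDef := by
  have h1 : (Matrix.diagonal fun i : Fin m => hh i).PosDef := Matrix.PosDef.diagonal fun i => hh_pos i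
  have h2 := Matrix.PosDef.add_posSemidef h1 (Gr_sub_psd m)
  rwa [add_sub_cancel] at h2

/-- **one more polynomial** -/
theorem Gr_succ (m : ℕ) : hh m * (Gr m).det ≤ (Gr (m + 1)).det := by
  set B : Matrix (Fin m) (Fin 1) ℝ := Matrix.of fun i _ => Gr (m + 1) i.castSucc (Fin.last m) with hB
  set D : Matrix (Fin 1) (Fin 1) ℝ := Matrix.of fun _ _ => Gr (m + 1) (Fin.last m) (Fin.last m) with hD
  set e : Fin m ⊕ Fin 1 ≃ Fin (m + 1) := finSumFinEquiv with he
  have el : ∀ i : Fin m, e (Sum.inl i) = i.castSucc := fun i => rfl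
  have er : ∀ i : Fin 1, e (Sum.inr i) = Fin.last m := fun i => by
    rw [Subsingleton.elim i 0]; rfl
  have hblk : (Gr (m + 1)).submatrix e e = Matrix.fromBlocks (Gr m) B Bᴴ D := by
    ext i j
    rcases i with i | i <;> rcases j with j | j
    · simp only [Matrix.submatrix_apply, el, Matrix.fromBlocks_apply₁₁]
      rfl
    · simp only [Matrix.submatrix_apply, el, er, Matrix.fromBlocks_apply₁₂]
      rfl
    · simp only [Matrix.submatrix_apply, el, er, Matrix.fromBlocks_apply₂₁,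
        Matrix.conjTranspose_apply]
      rw [hB, Matrix.of_apply, ← (Gr_symm (m + 1)).apply]
    · simp only [Matrix.submatrix_apply, er, Matrix.fromBlocks_apply₂₂]
      rfl
  have hA := Gr_pos m
  have hdet : (Gr (m + 1)).det = (Gr m).det * (D - Bᴴ * (Gr m)⁻¹ * B).det := by
    haveI := hA.isUnit.invertible
    rw [← Matrix.det_submatrix_equiv_self e, hblk, Matrix.det_fromBlocks₁₁, Matrix.invOf_eq_nonsing_inv]
  -- the reduced matrix
  have hpsd : (Matrix.fromBlocks (Gr m) B Bᴴ (D - Matrix.diagonal fun _ : Fin 1 => hh m)).PosSemidef := by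
    have h1 := (Gr_sub_psd (m + 1)).submatrix e
    have h2 : (Matrix.diagonal fun i : Fin m ⊕ Fin 1 => Sum.elim (fun i : Fin m => hh i) (fun _ => (0 : ℝ)) i).PosSemidef :=
      Matrix.PosSemidef.diagonal fun i => by
        rcases i with i | i
        · exact (hh_pos _).le
        · exact le_refl (0 : ℝ)
    have h3 := h1.add h2
    convert h3 using 1
    rw [Matrix.submatrix_sub]
    change _ = (Gr (m + 1)).submatrix e e - _ + _
    rw [hblk]
    ext i j
    rcases i with i | i <;> rcases j with j | j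
    · simp only [Matrix.fromBlocks_apply₁₁, Matrix.add_apply, Matrix.sub_apply, Matrix.submatrix_apply,
        Matrix.diagonal_apply, el, Fin.castSucc_inj, Sum.inl.injEq, Sum.elim_inl, Fin.val_castSucc]
      split_ifs <;> ring
    · simp only [Matrix.fromBlocks_apply₁₂, Matrix.add_apply, Matrix.sub_apply, Matrix.submatrix_apply,
        Matrix.diagonal_apply, el, er]
      rw [if_neg (by exact (Fin.castSucc_lt_last i).ne), if_neg (by simp)]
      ring
    · simp only [Matrix.fromBlocks_apply₂₁, Matrix.add_apply, Matrix.sub_apply, Matrix.submatrix_apply,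
        Matrix.diagonal_apply, el, er]
      rw [if_neg (by exact (Fin.castSucc_lt_last j).ne'), if_neg (by simp)]
      ring
    · simp only [Matrix.fromBlocks_apply₂₂, Matrix.add_apply, Matrix.sub_apply, Matrix.submatrix_apply,
        Matrix.diagonal_apply, er, Sum.elim_inr]
      rw [Subsingleton.elim i j]
      simp
  have h4 : (D - (Matrix.diagonal fun _ : Fin 1 => hh m) - Bᴴ * (Gr m)⁻¹ * B).PosSemidef := by
    haveI := hA.isUnit.invertible
    exact (Matrix.PosDef.fromBlocks₁₁ B _ hA).1 hpsd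
  have h5 := h4.diag_nonneg (i := 0)
  rw [hdet, Matrix.det_fin_one, mul_comm]
  refine mul_le_mul_of_nonneg_left ?_ hA.det_pos.le
  simp only [Matrix.sub_apply, Matrix.diagonal_apply_eq] at h5 ⊢
  linarith

/-- the quotient of the two determinants -/
theorem HA_quot (m : ℕ) : (HA m).det * ∏ i : Fin m, hh i = bulk m * (Gr m).det := by
  have hb : bulk m = (∏ i : Fin m, (16 / 9 * (8 / 3) ^ (4 * (i : ℕ)) : ℝ)) *
      ((∏ i : Fin m, hh i) / (Cm m).det ^ 2) := by
    rw [det_Cm, ← Finset.prod_pow, ← Finset.prod_div_distrib, ← Finset.prod_mul_distrib]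
    unfold bulk
    refine Finset.prod_congr rfl fun i _ => ?_
    rw [Nat.factorial_succ]
    have h4 : ((8 : ℝ) / 3) ^ (4 * (i : ℕ)) = (4 / 3) ^ (4 * (i : ℕ)) * (2 ^ (2 * (i : ℕ))) ^ 2 := by
      rw [← pow_mul, show 2 * (i : ℕ) * 2 = 4 * (i : ℕ) by ring, ← mul_pow]
      norm_num
    rw [h4, hh]
    push_cast
    field_simp
    ring
  have hK : (Cm m).det ≠ 0 := by
    rw [det_Cm]
    exact Finset.prod_ne_zero_iff.2 fun i _ => by positivity
  rw [hb, det_HA, det_Gr]
  field_simp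

theorem HA_succ (m : ℕ) : (HA m).det / bulk m ≤ (HA (m + 1)).det / bulk (m + 1) := by
  have hp : ∀ m : ℕ, 0 < ∏ i : Fin m, hh i := fun m => Finset.prod_pos fun i _ => hh_pos i
  have e1 : ∀ m : ℕ, (HA m).det / bulk m = (Gr m).det / ∏ i : Fin m, hh i := fun m => by
    rw [div_eq_div_iff (bulk_pos m).ne' (hp m).ne', HA_quot, mul_comm]
  rw [e1, e1, Fin.prod_univ_castSucc]
  simp only [Fin.val_castSucc, Fin.val_last]
  rw [div_le_div_iff₀ (hp m) (mul_pos (hp m) (hh_pos m))]
  have h1 := Gr_succ m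
  have h2 := hp m
  nlinarith [mul_le_mul_of_nonneg_left h1 h2.le]

theorem HA_det_pos (m : ℕ) : 0 < (HA m).det := by
  have h1 := HA_quot m
  have hp : 0 < ∏ i : Fin m, hh i := Finset.prod_pos fun i _ => hh_pos i
  have h2 : 0 < (HA m).det * ∏ i : Fin m, hh i := by
    rw [h1]
    exact mul_pos (bulk_pos m) (Gr_pos m).det_pos
  exact (pos_iff_pos_of_mul_pos h2).2 hp

/-- value at loop weight zero over the bulk term -/
theorem W_quot (m : ℕ) : ‖(NUF.near_WW 0).Wd (List.replicate m 1) (List.replicate m 1)‖ =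
    NUF.bulk m * ((HA m).det / bulk m) ^ 2 := by
  rw [Wd0_val, Complex.norm_real, Real.norm_of_nonneg (by positivity), ← bulk_sq]
  have hb := (bulk_pos m).ne'
  have hP : (∏ k ∈ Finset.range (2 * m), (k.factorial : ℝ)) ≠ 0 :=
    Finset.prod_ne_zero_iff.2 fun k _ => by positivity
  field_simp

/-- **the value at loop weight zero over the bulk term is monotone in the number of rows** -/
theorem W_mono (m : ℕ) : ‖(NUF.near_WW 0).Wd (List.replicate m 1) (List.replicate m 1)‖ / NUF.bulk m ≤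
    ‖(NUF.near_WW 0).Wd (List.replicate (m + 1) 1) (List.replicate (m + 1) 1)‖ / NUF.bulk (m + 1) := by
  rw [W_quot, W_quot, mul_div_cancel_left₀ _ (NUF.bulk_pos m).ne',
    mul_div_cancel_left₀ _ (NUF.bulk_pos (m + 1)).ne']
  exact pow_le_pow_left₀ (div_pos (HA_det_pos m) (bulk_pos m)).le (HA_succ m) 2

/-- even number of rows -/
theorem even_up {ε : ℝ} (hε : 0 < ε) : ∃ C : ℝ, 0 < C ∧ ∀ T : ℕ, 1 ≤ T →
    ‖(NUF.near_WW 0).Wd (List.replicate (2 * T) 1) (List.replicate (2 * T) 1)‖ / NUF.bulk (2 * T) ≤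
      C * (T : ℝ) ^ (5 / 24 + ε) := by
  obtain ⟨C, hC⟩ := NUI.numUp_of_target NUCR.target (ε / 2) (by positivity)
  obtain ⟨c, hc, hN⟩ := NUCR.nfLow (ε / 4) (by positivity)
  refine ⟨(|C| + 1) * 2 ^ (3 / 8 + ε / 2 : ℝ) / c ^ 2, by positivity, fun T hT => ?_⟩
  have hT0 : (0 : ℝ) < T := by exact_mod_cast hT
  obtain ⟨M, hM⟩ := hN T hT
  obtain ⟨x, hx, hx1⟩ := NUF.NF_le_ZZ (n' := 2) (by norm_num) hT M
  have h1 := hC (2 * T) (by omega)
  have hb := NUF.bulk_pos (2 * T)
  set W0 := ‖(NUF.near_WW 0).Wd (List.replicate (2 * T) 1) (List.replicate (2 * T) 1)‖ with hW0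
  have hne : (NUF.near_WW 0).Wd (List.replicate (2 * T) 1) (List.replicate (2 * T) 1) ≠ 0 :=
    NUF.Wd_ne (2 * T)
  have hW : 0 < W0 := norm_pos_iff.2 hne
  have h2 : ‖(NUF.near_WW 2).Wd (List.replicate (2 * T) 1) (List.replicate (2 * T) 1)‖ = W0 * ‖NUF.ZZ 2 (2 * T)‖ := by
    rw [NUF.ZZ, norm_div, ← hW0]
    field_simp
  have h3 : (c * (T : ℝ) ^ (1 / 12 - ε / 4)) ^ 2 ≤ ‖NUF.ZZ 2 (2 * T)‖ := by
    have e : NUF.ZZ 2 (2 * T) = x := by
      rw [← hx]
      norm_num
    rw [e, Complex.norm_real]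
    refine le_trans (pow_le_pow_left₀ (by positivity) hM 2) (hx1.trans (Real.le_norm_self x))
  have h4 : (c * (T : ℝ) ^ (1 / 12 - ε / 4)) ^ 2 = c ^ 2 * (T : ℝ) ^ (1 / 6 - ε / 2) := by
    rw [mul_pow, ← Real.rpow_natCast ((T : ℝ) ^ (1 / 12 - ε / 4)) 2, ← Real.rpow_mul hT0.le]
    congr 2
    push_cast
    ring
  rw [h4] at h3
  rw [h2] at h1
  have h5 : W0 * (c ^ 2 * (T : ℝ) ^ (1 / 6 - ε / 2)) ≤
      (|C| + 1) * ((2 * T : ℕ) : ℝ) ^ (3 / 8 + ε / 2) * NUF.bulk (2 * T) := by
    refine (mul_le_mul_of_nonneg_left h3 hW.le).trans (h1.trans ?_)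
    have : C ≤ |C| + 1 := (le_abs_self C).trans (by linarith)
    gcongr
  rw [div_le_iff₀ hb]
  have e6 : ((2 * T : ℕ) : ℝ) ^ (3 / 8 + ε / 2) = 2 ^ (3 / 8 + ε / 2 : ℝ) *
      ((T : ℝ) ^ (1 / 6 - ε / 2) * (T : ℝ) ^ (5 / 24 + ε)) := by
    push_cast
    rw [Real.mul_rpow (by norm_num) hT0.le, ← Real.rpow_add hT0]
    congr 2
    ring
  rw [e6] at h5
  have h7 : 0 < (T : ℝ) ^ (1 / 6 - ε / 2) := Real.rpow_pos_of_pos hT0 _
  have h8 : W0 * c ^ 2 ≤ (|C| + 1) * 2 ^ (3 / 8 + ε / 2 : ℝ) * (T : ℝ) ^ (5 / 24 + ε) * NUF.bulk (2 * T) := by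
    refine le_of_mul_le_mul_right ?_ h7
    calc W0 * c ^ 2 * (T : ℝ) ^ (1 / 6 - ε / 2) = W0 * (c ^ 2 * (T : ℝ) ^ (1 / 6 - ε / 2)) := by ring
      _ ≤ _ := h5
      _ = _ := by ring
  rw [← le_div_iff₀ (by positivity)] at h8
  refine h8.trans (le_of_eq ?_)
  ring

/-- **The denominator from above.** -/
theorem denUp {ε : ℝ} (hε : 0 < ε) : ∃ C : ℝ, 0 < C ∧ ∀ m : ℕ, 1 ≤ m →
    ‖(NUF.near_WW 0).Wd (List.replicate m 1) (List.replicate m 1)‖ ≤
      C * (m : ℝ) ^ (5 / 24 + ε) * NUF.bulk m := by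
  obtain ⟨C, hC, h⟩ := even_up hε
  refine ⟨C, hC, fun m hm => ?_⟩
  rw [← div_le_iff₀ (NUF.bulk_pos m)]
  have hm0 : (0 : ℝ) < m := by exact_mod_cast hm
  rcases Nat.even_or_odd' m with ⟨T, rfl | rfl⟩
  · refine (h T (by omega)).trans ?_
    refine mul_le_mul_of_nonneg_left (Real.rpow_le_rpow (by positivity) ?_ (by positivity)) hC.le
    push_cast
    have : (0 : ℝ) ≤ T := Nat.cast_nonneg _
    linarith
  · refine (W_mono (2 * T + 1)).trans ?_
    have h1 := h (T + 1) (by omega)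
    rw [show 2 * T + 1 + 1 = 2 * (T + 1) by ring]
    refine h1.trans ?_
    refine mul_le_mul_of_nonneg_left (Real.rpow_le_rpow (by positivity) ?_ (by positivity)) hC.le
    push_cast
    have : (0 : ℝ) ≤ T := Nat.cast_nonneg _
    linarith

end PBU
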