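import Pool.Agent.PB.Main0
import Pool.Agent.GLD.W0
import Pool.Agent.NUBD.BD

/-!
# Plan B, top level at rows 0 (helper7, helper85)

`W0r k` = the physical two-point function `GLD.W0` (rows 0, ends 0, `2k` rows) as a real sequence;
`nrm k = 2^{2k(2k-1)} ‖B (0^{2k})‖² / bulk0 k` the literal normaliser.
Open inputs, one named Prop each:

* `AprP` : `W0 k ≥ k^{-7/12-ε}` (frequently);
* `NrmP nrm` : `nrm k = k^{5/24 ± ε}`;
* `TRP nrm` : `nrm k W0 k = u_k κ g + O(k^{-c})`, `c > 3/8`, `|u_k| = 1`.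

Conclusions: `w0_low`: `W0 k ≥ A k^{-5/24-ε}`; `hW_of`: the input `hW` of the link.

Second level: `FunP f g c` (the doubly dislocated function `f N z` converges to `g` with rate
`N^{-c}` at `0`), `TR1P r f` (TR with the function at `z = 0`) give `TRP r` (`trp_of`).
-/

set_option autoImplicit false

noncomputable section

open Complex Set Filter Topology
open scoped ENNReal

namespace PBM

open Pool.Agent

/-- **the physical two-point function**, rows 0, ends 0, `2k` rows -/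
def W0r (k : ℕ) : ℝ := if hk : 1 ≤ k then (GLD.W0 hk).re else 0

theorem W0r_eq {k : ℕ} (hk : 1 ≤ k) : W0r k = (GLD.W0 hk).re := by
  unfold W0r
  rw [dif_pos hk]

theorem W0r_nn (k : ℕ) : 0 ≤ W0r k := by
  unfold W0r
  split_ifs with hk
  · exact (GLD.W0_real hk).2.1
  · exact le_rfl

theorem W0r_cast {k : ℕ} (hk : 1 ≤ k) : ((W0r k : ℝ) : ℂ) = GLD.W0 hk := by
  rw [W0r_eq hk]
  exact (GLD.W0_real hk).1.symm

/-! ### the open inputs -/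

/-- **a priori lower bound** -/
def AprP : Prop := ∀ ε : ℝ, 0 < ε → ∃ A : ℝ, 0 < A ∧
  ∃ᶠ k : ℕ in atTop, A * (k : ℝ) ^ (-(7 / 12) - ε) ≤ W0r k

/-- **the size of the normaliser** -/
def NrmP (r : ℕ → ℝ) : Prop :=
  (∀ ε : ℝ, 0 < ε → ∃ A : ℝ, 0 < A ∧ ∀ᶠ k : ℕ in atTop, A * (k : ℝ) ^ (5 / 24 - ε) ≤ r k) ∧
  (∀ ε : ℝ, 0 < ε → ∃ A : ℝ, 0 < A ∧ ∀ᶠ k : ℕ in atTop, r k ≤ A * (k : ℝ) ^ (5 / 24 + ε))

/-- **the transfer**: the normalised physical function up to a phase is `κ g + O(k^{-c})` -/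
def TRP (r : ℕ → ℝ) : Prop :=
  ∃ (c C : ℝ) (κ g : ℂ) (u : ℕ → ℂ), 3 / 8 < c ∧ (∀ᶠ k : ℕ in atTop, ‖u k‖ = 1) ∧
    ∀ᶠ k : ℕ in atTop, ‖((r k * W0r k : ℝ) : ℂ) - u k * (κ * g)‖ ≤ C * (k : ℝ) ^ (-c)

/-! ### the literal normaliser -/

/-- the scalar of `2 k` rows at `0` -/
def B0 (k : ℕ) : ℂ := NUBD.BD (fun _ : Unit => (0 : ℂ)) (List.replicate (2 * k) ())

/-- the bulk term of `2 k` rows at `0` (`= NUF.bulk k`) -/
def bulk0 (k : ℕ) : ℝ := (2 / 3 * (2 + √2)) ^ (2 * k * (2 * k - 1)) * (2 / 3) ^ (2 * k)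

theorem bulk0_pos (k : ℕ) : 0 < bulk0 k := by
  unfold bulk0
  have : 0 ≤ √2 := Real.sqrt_nonneg _
  positivity

/-- **the normaliser** -/
def nrm (k : ℕ) : ℝ := 2 ^ (2 * k * (2 * k - 1)) * ‖B0 k‖ ^ 2 / bulk0 k

theorem nrm_nonneg (k : ℕ) : 0 ≤ nrm k := by
  have := bulk0_pos k
  unfold nrm
  positivity

/-- the scalar does not depend on the names of the rows -/
theorem BD_const {ι : Type*} (z : ι → ℂ) {X : List ι} (h : ∀ i ∈ X, z i = 0) :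
    NUBD.BD z X = NUBD.BD (fun _ : Unit => (0 : ℂ)) (List.replicate X.length ()) := by
  have e : ∀ f : ℂ → ℂ, X.map (fun i => f (z i)) =
      (List.replicate X.length ()).map (fun _ : Unit => f 0) := by
    intro f
    rw [List.map_replicate, List.eq_replicate_iff]
    refine ⟨by simp, ?_⟩
    intro b hb
    obtain ⟨i, hi, rfl⟩ := List.mem_map.1 hb
    rw [h i hi]
  unfold NUBD.BD
  rw [List.length_replicate]
  have e1 := e fun w => exp (I * ((X.length : ℂ) - 1) * w)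
  have e2' := e NUBD.e2
  rw [e1, e2']

theorem B0_eq {ι : Type*} (z : ι → ℂ) {X : List ι} {k : ℕ} (h : ∀ i ∈ X, z i = 0)
    (hX : X.length = 2 * k) : NUBD.BD z X = B0 k := by
  rw [BD_const z h, hX]
  rfl

/-- the normaliser from a bound of the form of PB/B0 (any list) -/
theorem nrm_low {c e : ℝ} {k : ℕ} (h : c * (k : ℝ) ^ e * bulk0 k ≤ 2 ^ (2 * k * (2 * k - 1)) * ‖B0 k‖ ^ 2) :
    c * (k : ℝ) ^ e ≤ nrm k := by
  unfold nrm
  rwa [le_div_iff₀ (bulk0_pos k)]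

theorem nrm_up {c e : ℝ} {k : ℕ} (h : 2 ^ (2 * k * (2 * k - 1)) * ‖B0 k‖ ^ 2 ≤ c * (k : ℝ) ^ e * bulk0 k) :
    nrm k ≤ c * (k : ℝ) ^ e := by
  unfold nrm
  rwa [div_le_iff₀ (bulk0_pos k)]

/-- a sequence bounded below for every large index gives the a priori Prop -/
theorem AprP_of (h : ∀ ε : ℝ, 0 < ε → ∃ (c : ℝ) (K0 : ℕ), 0 < c ∧ ∀ k : ℕ, K0 ≤ k → ∀ hk : 1 ≤ k,
    c * (k : ℝ) ^ (-(7 / 12) - ε) ≤ (GLD.W0 hk).re) : AprP := by
  intro ε hε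
  obtain ⟨c, K0, hc, h1⟩ := h ε hε
  refine ⟨c, hc, Eventually.frequently ?_⟩
  filter_upwards [eventually_ge_atTop K0, eventually_ge_atTop 1] with k h2 h3
  rw [W0r_eq h3]
  exact h1 k h2 h3

/-! ### the conclusion -/

/-- **the lower bound of the physical two-point function** -/
theorem w0_low {r : ℕ → ℝ} (hA : AprP) (hN : NrmP r) (hT : TRP r) :
    ∀ ε : ℝ, 0 < ε → ∃ A : ℝ, 0 < A ∧ ∀ᶠ k : ℕ in atTop, A * (k : ℝ) ^ (-(5 / 24) - ε) ≤ W0r k := by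
  obtain ⟨c, C, κ, g, u, hc, hu, hTR⟩ := hT
  exact (PB.Rec.gl_lim hc hu hTR hN.1 hN.2 (Eventually.of_forall W0r_nn) hA).2.2.2

/-- the normalised physical function has a positive limit -/
theorem w0_lim {r : ℕ → ℝ} (hA : AprP) (hN : NrmP r) (hT : TRP r) :
    ∃ L : ℝ, 0 < L ∧ Tendsto (fun k => r k * W0r k) atTop (𝓝 L) := by
  obtain ⟨c, C, κ, g, u, hc, hu, hTR⟩ := hT
  obtain ⟨h1, h2, h3, -⟩ := PB.Rec.gl_lim hc hu hTR hN.1 hN.2 (Eventually.of_forall W0r_nn) hA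
  exact ⟨_, mul_pos (norm_pos_iff.2 h1) (norm_pos_iff.2 h2), h3⟩

/-- **the input `hW` of the link** (for every large `x` one may take `k = x`) -/
theorem hW_of {r : ℕ → ℝ} (hA : AprP) (hN : NrmP r) (hT : TRP r) :
    ∀ ε : ℝ, 0 < ε → ∃ (c : ℝ) (x0 : ℕ), 0 < c ∧ ∀ x : ℕ, x0 ≤ x → ∃ (k : ℕ) (hk : 1 ≤ k),
      (x : ℝ) - (x : ℝ) ^ ε ≤ k ∧ (k : ℝ) ≤ x + (x : ℝ) ^ ε ∧
      ENNReal.ofReal (c * (x : ℝ) ^ (-(5 / 24) - ε)) ≤ ENNReal.ofReal (GLD.W0 hk).re := by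
  intro ε hε
  obtain ⟨A, hA0, hA1⟩ := w0_low hA hN hT ε hε
  obtain ⟨x0, hx0⟩ := eventually_atTop.1 hA1
  refine ⟨A, max x0 1, hA0, fun x hx => ?_⟩
  have hx1 : 1 ≤ x := (le_max_right _ _).trans hx
  have hp : 0 ≤ (x : ℝ) ^ ε := by positivity
  refine ⟨x, hx1, by linarith, by linarith, ENNReal.ofReal_le_ofReal ?_⟩
  have := hx0 x ((le_max_left _ _).trans hx)
  rwa [W0r_eq hx1] at this

/-! ### second level: the doubly dislocated function -/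

/-- **function side**: `f N z` (doubly dislocated, `N` rows 0, legs at `z`) at `z = 0` -/
def FunP (f : ℕ → ℂ → ℂ) (g : ℂ) (c : ℝ) : Prop :=
  ∃ C : ℝ, ∀ᶠ N : ℕ in atTop, ‖f N 0 - g‖ ≤ C * (N : ℝ) ^ (-c)

/-- **(TR)** with the value of the doubly dislocated function at `0` -/
def TR1P (r : ℕ → ℝ) (f : ℕ → ℂ → ℂ) : Prop :=
  ∃ (c C : ℝ) (κ : ℂ) (u : ℕ → ℂ), 3 / 8 < c ∧ (∀ᶠ k : ℕ in atTop, ‖u k‖ = 1) ∧
    ∀ᶠ k : ℕ in atTop, ‖((r k * W0r k : ℝ) : ℂ) - u k * (κ * f (k - 1) 0)‖ ≤ C * (k : ℝ) ^ (-c)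

theorem sub_one_rpow {c : ℝ} (hc : 0 ≤ c) {k : ℕ} (hk : 2 ≤ k) :
    ((k - 1 : ℕ) : ℝ) ^ (-c) ≤ 2 ^ c * (k : ℝ) ^ (-c) := by
  have h1 : (1 : ℝ) ≤ k := by
    have : 1 ≤ k := by omega
    exact_mod_cast this
  have h2 : ((k - 1 : ℕ) : ℝ) = k - 1 := by
    rw [Nat.cast_sub (by omega)]
    norm_num
  have h3 : (k : ℝ) / 2 ≤ ((k - 1 : ℕ) : ℝ) := by
    rw [h2]
    have : (2 : ℝ) ≤ k := by exact_mod_cast hk
    linarith
  calc ((k - 1 : ℕ) : ℝ) ^ (-c) ≤ ((k : ℝ) / 2) ^ (-c) :=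
        Real.rpow_le_rpow_of_nonpos (by linarith) h3 (by linarith)
    _ = 2 ^ c * (k : ℝ) ^ (-c) := by
        rw [Real.div_rpow (by linarith) (by norm_num), Real.rpow_neg (by norm_num : (0 : ℝ) ≤ 2)]
        field_simp

theorem trp_of {r : ℕ → ℝ} {f : ℕ → ℂ → ℂ} {g : ℂ} {c0 : ℝ} (hc0 : 3 / 8 < c0)
    (hf : FunP f g c0) (hT : TR1P r f) : TRP r := by
  obtain ⟨c, C, κ, u, hc, hu, hTR⟩ := hT
  obtain ⟨C1, hC1⟩ := hf
  obtain ⟨c', hc'⟩ : ∃ c', c' = min c c0 := ⟨_, rfl⟩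
  have h1 : c' ≤ c := by rw [hc']; exact min_le_left _ _
  have h2 : c' ≤ c0 := by rw [hc']; exact min_le_right _ _
  refine ⟨c', |C| + ‖κ‖ * (|C1| * 2 ^ c0), κ, g, u, by rw [hc']; exact lt_min hc hc0, hu, ?_⟩
  have ht : Tendsto (fun k : ℕ => k - 1) atTop atTop := tendsto_sub_atTop_nat 1
  filter_upwards [hTR, hu, ht.eventually hC1, eventually_ge_atTop 2] with k e1 e2 e3 hk
  have hk1 : (1 : ℝ) ≤ k := by
    have : 1 ≤ k := by omega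
    exact_mod_cast this
  have e4 := sub_one_rpow (c := c0) (by linarith) hk
  have m1 : (k : ℝ) ^ (-c) ≤ (k : ℝ) ^ (-c') :=
    Real.rpow_le_rpow_of_exponent_le hk1 (by linarith)
  have m2 : (k : ℝ) ^ (-c0) ≤ (k : ℝ) ^ (-c') :=
    Real.rpow_le_rpow_of_exponent_le hk1 (by linarith)
  have p1 : 0 ≤ (k : ℝ) ^ (-c) := by positivity
  have p2 : 0 ≤ ((k - 1 : ℕ) : ℝ) ^ (-c0) := by positivity
  have e5 : ((r k * W0r k : ℝ) : ℂ) - u k * (κ * g) =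
      (((r k * W0r k : ℝ) : ℂ) - u k * (κ * f (k - 1) 0)) + u k * (κ * (f (k - 1) 0 - g)) := by
    ring
  rw [e5]
  refine (norm_add_le _ _).trans ?_
  rw [norm_mul, norm_mul, e2, one_mul, add_mul]
  refine add_le_add ?_ ?_
  · calc _ ≤ C * (k : ℝ) ^ (-c) := e1
      _ ≤ |C| * (k : ℝ) ^ (-c) := mul_le_mul_of_nonneg_right (le_abs_self C) p1
      _ ≤ |C| * (k : ℝ) ^ (-c') := mul_le_mul_of_nonneg_left m1 (abs_nonneg C)
  · calc ‖κ‖ * ‖f (k - 1) 0 - g‖ ≤ ‖κ‖ * (C1 * ((k - 1 : ℕ) : ℝ) ^ (-c0)) :=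
          mul_le_mul_of_nonneg_left e3 (norm_nonneg _)
      _ ≤ ‖κ‖ * (|C1| * ((k - 1 : ℕ) : ℝ) ^ (-c0)) :=
          mul_le_mul_of_nonneg_left (mul_le_mul_of_nonneg_right (le_abs_self _) p2) (norm_nonneg _)
      _ ≤ ‖κ‖ * (|C1| * (2 ^ c0 * (k : ℝ) ^ (-c'))) := by
          refine mul_le_mul_of_nonneg_left (mul_le_mul_of_nonneg_left ?_ (abs_nonneg _))
            (norm_nonneg _)
          exact e4.trans (mul_le_mul_of_nonneg_left m2 (by positivity))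
      _ = ‖κ‖ * (|C1| * 2 ^ c0) * (k : ℝ) ^ (-c') := by ring

end PBM

end
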