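import Pool.Agent.PB.B0
import Pool.Agent.PB.DenUp
import Pool.Agent.PB.Main

/-!
# Plan B: the two sided bound of the normaliser as the proposition `NrmP` of the main deduction
-/

set_option autoImplicit false

open Filter

noncomputable section

namespace PBC

open Pool.Agent

/-- the bulk terms agree -/
theorem bulk0_eq (k : ℕ) : PBM.bulk0 k = NUF.bulk k := rfl

/-- the upper bound of the disc function without loops -/
theorem denUpP : PBU.DenUp := fun e he => by
  obtain ⟨C, -, h⟩ := PBU.denUp he
  exact ⟨C, h⟩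

/-- **the normaliser is `k^{5/24 ± ε}`.** -/
theorem nrmP : PBM.NrmP PBM.nrm := by
  have hl : ∀ k : ℕ, (List.replicate (2 * k) ()).length = 2 * k := fun k => List.length_replicate
  refine ⟨fun e he => ?_, fun e he => ?_⟩
  · obtain ⟨A, hA, h⟩ := PBU.B0_low he
    refine ⟨A, hA, ?_⟩
    filter_upwards [eventually_ge_atTop 1] with k hk
    refine PBM.nrm_low ?_
    rw [bulk0_eq]
    exact h k hk (fun _ : Unit => (0 : ℂ)) _ 0 (hl k) fun _ _ => rfl
  · obtain ⟨A, hA, h⟩ := PBU.B0_up denUpP he
    refine ⟨A, hA, ?_⟩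
    filter_upwards [eventually_ge_atTop 1] with k hk
    refine PBM.nrm_up ?_
    rw [bulk0_eq]
    exact h k hk (fun _ : Unit => (0 : ℂ)) _ 0 (hl k) fun _ _ => rfl

end PBC

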