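import Pool.Agent.PB.HankUp
import Pool.Agent.PB.CloseN

/-!
# PB/HankW (helper69): the normaliser of plan B without loss

* `Wd0_le`, `Wd0_up`: `‖(near_WW 0).Wd 1^m 1^m‖ <= C m^(5/24) NUF.bulk m`, all `m >= 1`;
* `Wd0_low`: the same from below;
* `nrm_two`: `c k^(5/24) <= PBM.nrm k <= C k^(5/24)`, all `k >= 1`;
* `w0_two`: from the open inputs `AprP`, `TRP nrm` the two point function is `k^(-5/24)` up to
  constants (no epsilon).
-/

set_option autoImplicit false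

noncomputable section

open Filter Topology

namespace PBHank

open Pool.Agent
open Pool.Agent.NUF (near_WW)

/-- the exact upper bound of the disc function without loops -/
theorem Wd0_le (n : ℕ) : ‖(near_WW 0).Wd (List.replicate (n + 1) 1) (List.replicate (n + 1) 1)‖
    ≤ NUF.bulk (n + 1) * Real.exp (5 / 12 * (∑ k ∈ Finset.range (2 * (n + 1)),
      1 / (2 * (k : ℝ) + 1) + 4 / 3) + 20) := by
  rw [NUQ.Wd0_val, Complex.norm_real]
  have h1 := HA_le n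
  have hl := NUQ.HA_ge (n + 1)
  have hb := NUQ.bulk_pos (n + 1)
  have h0 : 0 ≤ (NUQ.HA (n + 1)).det := le_trans (by positivity) hl
  obtain ⟨S, hS⟩ : ∃ S : ℝ, S = ∑ k ∈ Finset.range (2 * (n + 1)), 1 / (2 * (k : ℝ) + 1) + 4 / 3 :=
    ⟨_, rfl⟩
  rw [← hS] at h1 ⊢
  have h2 : Real.exp (5 / 12 * S + 20) = Real.exp (5 / 24 * S + 10) ^ 2 := by
    rw [← Real.exp_nat_mul]; congr 1; push_cast; ring
  have h3 : (NUQ.HA (n + 1)).det ^ 2 ≤ (NUQ.bulk (n + 1) * Real.exp (5 / 24 * S + 10)) ^ 2 :=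
    pow_le_pow_left₀ h0 h1 2
  have hc : 0 ≤ (1 + √2 / 2) ^ (2 * (n + 1) * (2 * (n + 1) - 1)) /
      ((∏ k ∈ Finset.range (2 * (n + 1)), (k.factorial : ℝ)) ^ 2) := by positivity
  rw [Real.norm_of_nonneg (mul_nonneg hc (sq_nonneg _)), ← NUQ.bulk_sq]
  calc (1 + √2 / 2) ^ (2 * (n + 1) * (2 * (n + 1) - 1)) /
      ((∏ k ∈ Finset.range (2 * (n + 1)), (k.factorial : ℝ)) ^ 2) * (NUQ.HA (n + 1)).det ^ 2
      ≤ (1 + √2 / 2) ^ (2 * (n + 1) * (2 * (n + 1) - 1)) /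
      ((∏ k ∈ Finset.range (2 * (n + 1)), (k.factorial : ℝ)) ^ 2) *
        (NUQ.bulk (n + 1) * Real.exp (5 / 24 * S + 10)) ^ 2 := mul_le_mul_of_nonneg_left h3 hc
    _ = _ := by rw [h2]; ring

theorem sum_odd_le (m : ℕ) (hm : 1 ≤ m) :
    ∑ k ∈ Finset.range (2 * m), 1 / (2 * (k : ℝ) + 1) ≤ 1 / 2 * Real.log m + 2 := by
  have hm0 : (0 : ℝ) < m := by exact_mod_cast hm
  obtain ⟨j, rfl⟩ : ∃ j, m = j + 1 := ⟨m - 1, by omega⟩
  have e : 2 * (j + 1) = (2 * j + 1) + 1 := by ring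
  rw [e, Finset.sum_range_succ']
  have h1 : ∑ k ∈ Finset.range (2 * j + 1), 1 / (2 * (((k + 1 : ℕ) : ℕ) : ℝ) + 1)
      ≤ 1 / 2 * ∑ k ∈ Finset.range (2 * j + 1), 1 / ((k : ℝ) + 1) := by
    rw [Finset.mul_sum]
    refine Finset.sum_le_sum fun k _ => ?_
    rw [one_div_mul_one_div]
    push_cast
    refine one_div_le_one_div_of_le (by positivity) (by linarith)
  have h2 : ((harmonic (2 * j + 1) : ℚ) : ℝ) = ∑ n ∈ Finset.range (2 * j + 1), 1 / ((n : ℝ) + 1) := by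
    simp [harmonic]
  have h3 := harmonic_le_one_add_log (2 * j + 1)
  rw [h2] at h3
  have h4 : Real.log ((2 * j + 1 : ℕ) : ℝ) ≤ Real.log 2 + Real.log ((j + 1 : ℕ) : ℝ) := by
    rw [← Real.log_mul (by norm_num) hm0.ne']
    refine Real.log_le_log (by positivity) ?_
    push_cast
    linarith
  have h5 := Real.log_two_lt_d9
  simp only [Nat.cast_zero, mul_zero, zero_add, div_one]
  linarith

/-- **The disc function without loops, upper bound without loss.** -/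
theorem Wd0_up : ∃ C : ℝ, 0 < C ∧ ∀ m : ℕ, 1 ≤ m →
    ‖(near_WW 0).Wd (List.replicate m 1) (List.replicate m 1)‖
      ≤ C * (m : ℝ) ^ (5 / 24 : ℝ) * NUF.bulk m := by
  refine ⟨Real.exp (25 / 18 + 20), Real.exp_pos _, fun m hm => ?_⟩
  obtain ⟨j, rfl⟩ : ∃ j, m = j + 1 := ⟨m - 1, by omega⟩
  refine (Wd0_le j).trans ?_
  have hm0 : (0 : ℝ) < ((j + 1 : ℕ) : ℝ) := by exact_mod_cast hm
  have h1 := sum_odd_le (j + 1) hm
  have hb := NUF.bulk_pos (j + 1)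
  have h4 : ((j + 1 : ℕ) : ℝ) ^ (5 / 24 : ℝ) = Real.exp (5 / 24 * Real.log ((j + 1 : ℕ) : ℝ)) := by
    rw [Real.rpow_def_of_pos hm0]; congr 1; ring
  have h5 : Real.exp (5 / 12 * (∑ k ∈ Finset.range (2 * (j + 1)), 1 / (2 * (k : ℝ) + 1) + 4 / 3) + 20)
      ≤ Real.exp (25 / 18 + 20) * ((j + 1 : ℕ) : ℝ) ^ (5 / 24 : ℝ) := by
    rw [h4, ← Real.exp_add]
    exact Real.exp_le_exp.2 (by linarith)
  calc _ ≤ NUF.bulk (j + 1) * (Real.exp (25 / 18 + 20) * ((j + 1 : ℕ) : ℝ) ^ (5 / 24 : ℝ)) := by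
        gcongr
    _ = _ := by ring

/-- **The disc function without loops, lower bound without loss.** -/
theorem Wd0_low : ∃ c : ℝ, 0 < c ∧ ∀ m : ℕ, 1 ≤ m →
    c * (m : ℝ) ^ (5 / 24 : ℝ) * NUF.bulk m
      ≤ ‖(near_WW 0).Wd (List.replicate m 1) (List.replicate m 1)‖ := by
  refine ⟨Real.exp (-(5 / 36)), Real.exp_pos _, fun m hm => ?_⟩
  refine le_trans ?_ (NUQ.Wd0_ge m)
  have hm0 : (0 : ℝ) < m := by exact_mod_cast hm
  have h1 := NUQ.half_log_le m hm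
  have hb := NUF.bulk_pos m
  have h4 : (m : ℝ) ^ (5 / 24 : ℝ) = Real.exp (5 / 24 * Real.log m) := by
    rw [Real.rpow_def_of_pos hm0]; congr 1; ring
  have h2 : Real.exp (-(5 / 36)) * (m : ℝ) ^ (5 / 24 : ℝ)
      ≤ Real.exp (5 / 12 * (∑ n ∈ Finset.range (2 * m), 1 / (2 * (n : ℝ) + 1) - 1 / 3)) := by
    rw [h4, ← Real.exp_add]
    exact Real.exp_le_exp.2 (by linarith)
  calc Real.exp (-(5 / 36)) * (m : ℝ) ^ (5 / 24 : ℝ) * NUF.bulk m
      ≤ Real.exp (5 / 12 * (∑ n ∈ Finset.range (2 * m), 1 / (2 * (n : ℝ) + 1) - 1 / 3)) *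
        NUF.bulk m := by gcongr
    _ = _ := by ring

/-- **the normaliser of plan B is `k^(5/24)` up to constants** -/
theorem nrm_two : ∃ c C : ℝ, 0 < c ∧ 0 < C ∧ ∀ k : ℕ, 1 ≤ k →
    c * (k : ℝ) ^ (5 / 24 : ℝ) ≤ PBM.nrm k ∧ PBM.nrm k ≤ C * (k : ℝ) ^ (5 / 24 : ℝ) := by
  obtain ⟨c, hc, h1⟩ := Wd0_low
  obtain ⟨C, hC, h2⟩ := Wd0_up
  refine ⟨c, C, hc, hC, fun k hk => ?_⟩
  have e := PBU.B0_sq (fun _ : Unit => (0 : ℂ)) (List.replicate (2 * k) ()) (k := k)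
    List.length_replicate (c := 0) fun _ _ => rfl
  have h3 := h1 k hk
  have h4 := h2 k hk
  rw [← e] at h3 h4
  exact ⟨PBM.nrm_low (by rw [PBC.bulk0_eq]; exact h3), PBM.nrm_up (by rw [PBC.bulk0_eq]; exact h4)⟩

/-- **the two point function up to constants**, from the a priori bound and the transfer -/
theorem w0_two (hA : PBM.AprP) (hT : PBM.TRP PBM.nrm) : ∃ c C : ℝ, 0 < c ∧ 0 < C ∧
    ∀ᶠ k : ℕ in atTop, c * (k : ℝ) ^ (-(5 / 24) : ℝ) ≤ PBM.W0r k ∧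
      PBM.W0r k ≤ C * (k : ℝ) ^ (-(5 / 24) : ℝ) := by
  obtain ⟨L, hL, hlim⟩ := PBM.w0_lim hA PBC.nrmP hT
  obtain ⟨c, C, hc, hC, h⟩ := nrm_two
  refine ⟨L / 2 / C, 2 * L / c, by positivity, by positivity, ?_⟩
  filter_upwards [hlim.eventually (lt_mem_nhds (show L / 2 < L by linarith)),
    hlim.eventually (gt_mem_nhds (show L < 2 * L by linarith)), eventually_ge_atTop 1]
    with k h1 h2 hk
  obtain ⟨h3, h4⟩ := h k hk
  have hk0 : (0 : ℝ) < k := by exact_mod_cast hk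
  have hp : 0 < (k : ℝ) ^ (5 / 24 : ℝ) := by positivity
  have hw := PBM.W0r_nn k
  rw [Real.rpow_neg hk0.le]
  constructor
  · have h5 : L / 2 < C * (k : ℝ) ^ (5 / 24 : ℝ) * PBM.W0r k :=
      h1.trans_le (mul_le_mul_of_nonneg_right h4 hw)
    have h6 : L / 2 / C * ((k : ℝ) ^ (5 / 24 : ℝ))⁻¹ = L / 2 / (C * (k : ℝ) ^ (5 / 24 : ℝ)) := by
      field_simp
    rw [h6, div_le_iff₀ (by positivity)]
    linarith
  · have h5 : c * (k : ℝ) ^ (5 / 24 : ℝ) * PBM.W0r k < 2 * L :=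
      (mul_le_mul_of_nonneg_right h3 hw).trans_lt h2
    have h6 : 2 * L / c * ((k : ℝ) ^ (5 / 24 : ℝ))⁻¹ = 2 * L / (c * (k : ℝ) ^ (5 / 24 : ℝ)) := by
      field_simp
    rw [h6, le_div_iff₀ (by positivity)]
    linarith

end PBHank

end
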