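import Pool.Agent.NUQ.DetLow
import Pool.Agent.PB.HankW

/-!
# PB/SBC (helper30): the sharp normaliser from the quotients of the Gram determinants

* `det_Gr_Gm`, `HA_Gm`, `W_Gm`, `nrm_Gm`: the disc function without loops over the bulk term is
  `det Gm ^ 2`, exactly;
* `lim_rate`: a sequence with increments at most `K k^(-3/2)` converges with rate `4 K k^(-1/2)`;
* `det_sharp`, `Wd_sharp`, `nrm_sharp`: from
  `log (det Gm (n+1) / det Gm n) = (5/24)/(2n+1) + O(n^(-3/2))` the limit of the disc function over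
  `bulk m * m^(5/24)`, with rate `m^(-1/2)`;
* `w0_sharp`: the physical two point function is `L k^(-5/24) (1 + O(k^(-3/8)))`.
-/

set_option autoImplicit false

open MeasureTheory Filter Topology Set
open scoped Real

namespace SB

noncomputable section

open Pool.Agent

/-! ### real sequences -/


theorem rpow_tel {k : ℕ} (hk : 1 ≤ k) : (k : ℝ) ^ (-(3 / 2) : ℝ) ≤
    4 * ((k : ℝ) ^ (-(1 / 2) : ℝ) - ((k + 1 : ℕ) : ℝ) ^ (-(1 / 2) : ℝ)) := by
  have hk1 : (1 : ℝ) ≤ k := by exact_mod_cast hk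
  have hk0 : (0 : ℝ) < k := by linarith
  have e1 : ∀ x : ℝ, 0 < x → x ^ (-(1 / 2) : ℝ) = (√x)⁻¹ := fun x hx => by
    rw [Real.rpow_neg hx.le, ← Real.sqrt_eq_rpow]
  have e2 : (k : ℝ) ^ (-(3 / 2) : ℝ) = (k * √k)⁻¹ := by
    rw [Real.rpow_neg hk0.le]
    congr 1
    rw [show (3 / 2 : ℝ) = 1 + 1 / 2 by norm_num, Real.rpow_add hk0, Real.rpow_one,
      ← Real.sqrt_eq_rpow]
  have hk2 : (0 : ℝ) < ((k + 1 : ℕ) : ℝ) := by positivity
  rw [e1 _ hk0, e1 _ hk2, e2]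
  obtain ⟨a, ha⟩ : ∃ a, a = √(k : ℝ) := ⟨_, rfl⟩
  obtain ⟨b, hb⟩ : ∃ b, b = √((k + 1 : ℕ) : ℝ) := ⟨_, rfl⟩
  have ha0 : 0 < a := by rw [ha]; positivity
  have hb0 : 0 < b := by rw [hb]; positivity
  have ha2 : a ^ 2 = k := by rw [ha, Real.sq_sqrt hk0.le]
  have hb2 : b ^ 2 = k + 1 := by rw [hb, Real.sq_sqrt hk2.le]; push_cast; ring
  have hab : a ≤ b := by
    refine le_of_sq_le_sq ?_ hb0.le
    rw [ha2, hb2]; linarith
  rw [← ha, ← hb, ← ha2]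
  have h1 : b ^ 2 - a ^ 2 = 1 := by rw [ha2, hb2]; ring
  have h2 : b ^ 2 ≤ 2 * a ^ 2 := by rw [hb2, ha2]; linarith
  have e3 : 4 * (a⁻¹ - b⁻¹) = 4 * (b - a) / (a * b) := by field_simp
  rw [e3, inv_eq_one_div, div_le_div_iff₀ (by positivity) (by positivity)]
  -- a * b ≤ 4 (b - a) a^3
  have h3 : (b - a) * (b + a) = 1 := by linear_combination h1
  have h4 : b * (b + a) ≤ 4 * a ^ 2 := by nlinarith
  have h5 : b = (b - a) * (b * (b + a)) := by linear_combination (-b) * h3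
  have h6 : b ≤ (b - a) * (4 * a ^ 2) := by
    have := mul_le_mul_of_nonneg_left h4 (sub_nonneg.2 hab)
    linarith
  nlinarith

/-- a sequence with increments `K k^(-3/2)` converges with rate `4 K k^(-1/2)` -/
theorem lim_rate {u : ℕ → ℝ} {K : ℝ} (hK : 0 ≤ K)
    (h : ∀ k : ℕ, 1 ≤ k → |u (k + 1) - u k| ≤ K * (k : ℝ) ^ (-(3 / 2) : ℝ)) :
    ∃ l : ℝ, ∀ m : ℕ, 1 ≤ m → |u m - l| ≤ 4 * K * (m : ℝ) ^ (-(1 / 2) : ℝ) := by
  have h1 : ∀ m : ℕ, 1 ≤ m → ∀ j : ℕ, |u (m + j) - u m| ≤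
      4 * K * ((m : ℝ) ^ (-(1 / 2) : ℝ) - ((m + j : ℕ) : ℝ) ^ (-(1 / 2) : ℝ)) := by
    intro m hm j
    induction j with
    | zero => simp
    | succ j ih =>
      have h2 := h (m + j) (by omega)
      have h3 := mul_le_mul_of_nonneg_left (rpow_tel (k := m + j) (by omega)) hK
      have h4 : |u (m + (j + 1)) - u m| ≤ |u (m + j + 1) - u (m + j)| + |u (m + j) - u m| := by
        rw [← add_assoc]
        exact abs_sub_le _ _ _
      rw [← add_assoc]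
      rw [← add_assoc] at h4
      linarith
  have h2 : ∀ m : ℕ, 1 ≤ m → ∀ n : ℕ, m ≤ n → |u n - u m| ≤ 4 * K * (m : ℝ) ^ (-(1 / 2) : ℝ) := by
    intro m hm n hn
    obtain ⟨j, rfl⟩ := Nat.exists_eq_add_of_le hn
    refine (h1 m hm j).trans ?_
    have : 0 ≤ ((m + j : ℕ) : ℝ) ^ (-(1 / 2) : ℝ) := by positivity
    nlinarith
  have hb : Tendsto (fun m : ℕ => 4 * K * (m : ℝ) ^ (-(1 / 2) : ℝ)) atTop (𝓝 0) := by
    have h3 := (tendsto_rpow_neg_atTop (show (0 : ℝ) < 1 / 2 by norm_num)).comp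
      tendsto_natCast_atTop_atTop
    simpa using h3.const_mul (4 * K)
  have hc : CauchySeq u := by
    refine Metric.cauchySeq_iff'.2 fun ε hε => ?_
    obtain ⟨N, hN⟩ := eventually_atTop.1 (hb.eventually (gt_mem_nhds hε))
    refine ⟨max N 1, fun n hn => ?_⟩
    rw [Real.dist_eq]
    exact (h2 _ (le_max_right _ _) n hn).trans_lt (hN _ (le_max_left _ _))
  obtain ⟨l, hl⟩ := cauchySeq_tendsto_of_complete hc
  refine ⟨l, fun m hm => ?_⟩
  rw [abs_sub_comm]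
  have h3 : Tendsto (fun n => |u n - u m|) atTop (𝓝 |l - u m|) := (hl.sub_const _).abs
  refine le_of_tendsto h3 ?_
  filter_upwards [eventually_ge_atTop m] with n hn
  exact h2 m hm n hn

theorem exp_sub_exp {x l c : ℝ} (h : |x - l| ≤ c) :
    |Real.exp x - Real.exp l| ≤ Real.exp l * Real.exp c * |x - l| := by
  have h1 : |Real.exp (x - l) - 1| ≤ |x - l| * Real.exp |x - l| := by
    rcases le_total 0 (x - l) with h0 | h0
    · rw [abs_of_nonneg h0, abs_of_nonneg (by linarith [Real.add_one_le_exp (x - l)])]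
      have h2 := Real.add_one_le_exp (-(x - l))
      have h3 : Real.exp (-(x - l)) * Real.exp (x - l) = 1 := by rw [← Real.exp_add]; simp
      nlinarith [Real.exp_pos (x - l)]
    · have h2 : Real.exp (x - l) ≤ 1 := Real.exp_le_one_iff.2 h0
      rw [abs_of_nonpos (by linarith), abs_of_nonpos h0]
      have h3 := Real.add_one_le_exp (x - l)
      have h4 : (1 : ℝ) ≤ Real.exp (-(x - l)) := Real.one_le_exp (by linarith)
      nlinarith
  have e : Real.exp x - Real.exp l = Real.exp l * (Real.exp (x - l) - 1) := by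
    rw [Real.exp_sub]
    have := Real.exp_pos l
    field_simp
  rw [e, abs_mul, abs_of_pos (Real.exp_pos l), mul_assoc]
  refine mul_le_mul_of_nonneg_left (h1.trans ?_) (Real.exp_pos l).le
  rw [mul_comm]
  exact mul_le_mul_of_nonneg_right (Real.exp_le_exp.2 h) (abs_nonneg _)

theorem log_mid {k : ℕ} (hk : 1 ≤ k) :
    |1 / ((k : ℝ) + 1 / 2) - (Real.log ((k + 1 : ℕ) : ℝ) - Real.log k)| ≤ (k : ℝ) ^ (-(3 / 2) : ℝ) := by
  have hk1 : (1 : ℝ) ≤ k := by exact_mod_cast hk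
  have hk0 : (0 : ℝ) < k := by linarith
  have e : Real.log ((k + 1 : ℕ) : ℝ) - Real.log k = Real.log (1 + 1 / k) := by
    rw [← Real.log_div (by positivity) hk0.ne']
    congr 1
    push_cast
    field_simp
  rw [e]
  have h1 : Real.log (1 + 1 / k) ≤ 1 / k := by
    have := Real.log_le_sub_one_of_pos (show (0 : ℝ) < 1 + 1 / k by positivity)
    linarith
  have h2 : 1 / ((k : ℝ) + 1) ≤ Real.log (1 + 1 / k) := by
    have := Real.one_sub_inv_le_log_of_pos (show (0 : ℝ) < 1 + 1 / k by positivity)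
    refine le_trans (le_of_eq ?_) this
    field_simp
    ring
  have h3 : 1 / ((k : ℝ) + 1 / 2) ≤ 1 / k := one_div_le_one_div_of_le hk0 (by linarith)
  have h4 : 1 / ((k : ℝ) + 1) ≤ 1 / ((k : ℝ) + 1 / 2) := one_div_le_one_div_of_le (by positivity) (by linarith)
  have h5 : 1 / (k : ℝ) - 1 / ((k : ℝ) + 1) ≤ (k : ℝ) ^ (-(3 / 2) : ℝ) := by
    have h6 : 1 / (k : ℝ) - 1 / ((k : ℝ) + 1) ≤ (k : ℝ) ^ (-(2 : ℝ)) := by
      rw [Real.rpow_neg hk0.le, Real.rpow_two]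
      have : 1 / (k : ℝ) - 1 / ((k : ℝ) + 1) = 1 / (k * (k + 1)) := by field_simp; ring
      rw [this, ← one_div]
      exact one_div_le_one_div_of_le (by positivity) (by nlinarith)
    exact h6.trans (Real.rpow_le_rpow_of_exponent_le hk1 (by norm_num))
  rw [abs_le]
  constructor <;> linarith


/-! ### the two Gram matrices -/

theorem MP_PP (n : ℕ) (k : ℝ) : (NUQ.MP n).eval (k / 2) = ((n : ℝ) + 1) * (_root_.NUQ.PP n).eval k := by
  induction n using Nat.strong_induction_on with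
  | _ n ih =>
    rcases n with _ | _ | n
    · rw [NUQ.MP_zero, _root_.NUQ.PP]
      simp
    · rw [NUQ.MP_one, _root_.NUQ.PP]
      simp only [Polynomial.eval_mul, Polynomial.eval_C, Polynomial.eval_X]
      push_cast
      ring
    · rw [NUQ.MP_add_two, _root_.NUQ.PP]
      simp only [Polynomial.eval_mul, Polynomial.eval_C, Polynomial.eval_X, Polynomial.eval_sub]
      rw [ih (n + 1) (by omega), ih n (by omega)]
      have h2 : (n : ℝ) + 2 ≠ 0 := by positivity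
      have h3 : (n : ℝ) + 3 ≠ 0 := by positivity
      push_cast
      field_simp
      ring

theorem wt_wf {k : ℝ} (hk : k ≠ 0) : NUQ.wt (k / 2) = _root_.NUQ.wf k / 2 := by
  rw [_root_.NUQ.wf_ne hk, NUQ.wt, show π * (k / 2) = π * k / 2 by ring]
  ring

theorem Gf_gg (k : ℝ) : NUQ.Gf (k / 2) = _root_.NUQ.gg k := by
  unfold NUQ.Gf _root_.NUQ.gg
  rw [show 2 * π / 3 * (k / 2) = π * k / 3 by ring]

/-- the entries of the two matrices -/
theorem Gr_entry (m : ℕ) (i j : Fin m) : NUQ.Gr m i j =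
    √((2 * (i : ℕ) + 1) / 2) * _root_.NUQ.Gm m i j * √((2 * (j : ℕ) + 1) / 2) := by
  have e1 : NUQ.Gr m i j = (1 / 2) * ∫ k : ℝ, (NUQ.MP (2 * (i : ℕ))).eval (k / 2) *
      (NUQ.MP (2 * (j : ℕ))).eval (k / 2) * NUQ.wt (k / 2) * Real.exp (NUQ.Gf (k / 2)) := by
    simp only [NUQ.Gr, Matrix.of_apply]
    have h := Measure.integral_comp_div (fun x : ℝ => (NUQ.MP (2 * (i : ℕ))).eval x *
      (NUQ.MP (2 * (j : ℕ))).eval x * NUQ.wt x * Real.exp (NUQ.Gf x)) (2 : ℝ)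
    rw [h, abs_of_pos (by norm_num : (0 : ℝ) < 2), smul_eq_mul]
    ring
  have e2 : ∫ k : ℝ, (NUQ.MP (2 * (i : ℕ))).eval (k / 2) *
      (NUQ.MP (2 * (j : ℕ))).eval (k / 2) * NUQ.wt (k / 2) * Real.exp (NUQ.Gf (k / 2)) =
      ∫ k : ℝ, (√(2 * (i : ℕ) + 1) * √(2 * (j : ℕ) + 1) / 2) *
        (_root_.NUQ.wf k * ((_root_.NUQ.qq i).eval k * (_root_.NUQ.qq j).eval k) *
          Real.exp (_root_.NUQ.gg k)) := by
    refine integral_congr_ae ?_
    have h0 : ∀ᵐ k : ℝ, k ≠ 0 := by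
      have := (Set.finite_singleton (0 : ℝ)).countable.ae_notMem volume
      filter_upwards [this] with k hk
      simpa using hk
    filter_upwards [h0] with k hk
    rw [MP_PP, MP_PP, wt_wf hk, Gf_gg, _root_.NUQ.qq, _root_.NUQ.qq]
    simp only [Polynomial.eval_mul, Polynomial.eval_C]
    have hi := Real.mul_self_sqrt (by positivity : (0 : ℝ) ≤ 2 * (i : ℕ) + 1)
    have hj := Real.mul_self_sqrt (by positivity : (0 : ℝ) ≤ 2 * (j : ℕ) + 1)
    obtain ⟨a, ha⟩ : ∃ a, a = √(2 * ((i : ℕ) : ℝ) + 1) := ⟨_, rfl⟩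
    obtain ⟨b, hb⟩ : ∃ b, b = √(2 * ((j : ℕ) : ℝ) + 1) := ⟨_, rfl⟩
    rw [← ha] at hi ⊢
    rw [← hb] at hj ⊢
    push_cast
    rw [← hi, ← hj]
    ring
  have e3 := _root_.NUQ.half_int (f := fun k => _root_.NUQ.wf k *
      ((_root_.NUQ.qq i).eval k * (_root_.NUQ.qq j).eval k) * Real.exp (_root_.NUQ.gg k))
    (fun k => by rw [_root_.NUQ.wf_neg, _root_.NUQ.qq_neg, _root_.NUQ.qq_neg, _root_.NUQ.gg_neg])
  have e4 : ∫ k : ℝ, (_root_.NUQ.wf k *
      ((_root_.NUQ.qq i).eval k * (_root_.NUQ.qq j).eval k) * Real.exp (_root_.NUQ.gg k)) =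
      2 * _root_.NUQ.Gm m i j := by
    simp only [_root_.NUQ.Gm, Matrix.of_apply]
    rw [e3]; ring
  rw [e1, e2, integral_const_mul, e4, Real.sqrt_div (by positivity), Real.sqrt_div (by positivity)]
  have h2 := Real.mul_self_sqrt (by positivity : (0 : ℝ) ≤ 2)
  have h2' : √(2 : ℝ) ≠ 0 := by positivity
  field_simp
  rw [sq, h2]
  ring

theorem Gm_det_pos (m : ℕ) : 0 < (_root_.NUQ.Gm m).det :=
  lt_of_lt_of_le (Real.exp_pos _) (_root_.NUQ.det_ge m)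

/-- **the two Gram determinants** -/
theorem det_Gr_Gm (m : ℕ) : (NUQ.Gr m).det =
    (∏ i : Fin m, (1 / 2 * (((2 * (i : ℕ) : ℕ) : ℝ) + 1))) * (_root_.NUQ.Gm m).det := by
  have h : NUQ.Gr m = Matrix.diagonal (fun i : Fin m => √((2 * (i : ℕ) + 1) / 2)) *
      _root_.NUQ.Gm m * Matrix.diagonal (fun i : Fin m => √((2 * (i : ℕ) + 1) / 2)) := by
    ext i j
    rw [Matrix.mul_diagonal, Matrix.diagonal_mul, Gr_entry]
  rw [h, Matrix.det_mul, Matrix.det_mul, Matrix.det_diagonal]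
  have h1 : (∏ i : Fin m, (1 / 2 * (((2 * (i : ℕ) : ℕ) : ℝ) + 1))) =
      (∏ i : Fin m, √((2 * ((i : ℕ) : ℝ) + 1) / 2)) * ∏ i : Fin m, √((2 * ((i : ℕ) : ℝ) + 1) / 2) := by
    rw [← Finset.prod_mul_distrib]
    refine Finset.prod_congr rfl fun i _ => ?_
    rw [Real.mul_self_sqrt (by positivity)]
    push_cast
    ring
  rw [h1]
  ring


/-! ### the disc function without loops -/

/-- the Hankel determinant over its bulk term is the Gram determinant -/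
theorem HA_Gm (m : ℕ) : (NUQ.HA m).det = NUQ.bulk m * (_root_.NUQ.Gm m).det := by
  have h := PBU.HA_quot m
  have e : (∏ i : Fin m, PBU.hh i) = ∏ i : Fin m, (1 / 2 * (((2 * (i : ℕ) : ℕ) : ℝ) + 1)) := rfl
  have hp : 0 < ∏ i : Fin m, PBU.hh i := Finset.prod_pos fun i _ => PBU.hh_pos i
  rw [det_Gr_Gm, ← e] at h
  have h2 : (∏ i : Fin m, PBU.hh i) * (NUQ.HA m).det =
      (∏ i : Fin m, PBU.hh i) * (NUQ.bulk m * (_root_.NUQ.Gm m).det) := by
    linear_combination h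
  exact mul_left_cancel₀ hp.ne' h2

/-- **exact value of the disc function without loops** -/
theorem W_Gm (m : ℕ) : ‖(NUF.near_WW 0).Wd (List.replicate m 1) (List.replicate m 1)‖ =
    NUF.bulk m * (_root_.NUQ.Gm m).det ^ 2 := by
  rw [PBU.W_quot, HA_Gm, mul_div_cancel_left₀ _ (NUQ.bulk_pos m).ne']

/-- **exact value of the normaliser of plan B** -/
theorem nrm_Gm (k : ℕ) : PBM.nrm k = (_root_.NUQ.Gm k).det ^ 2 := by
  have e := PBU.B0_sq (fun _ : Unit => (0 : ℂ)) (List.replicate (2 * k) ()) (k := k)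
    List.length_replicate (c := 0) fun _ _ => rfl
  have h1 : PBM.nrm k = 2 ^ (2 * k * (2 * k - 1)) * ‖PBM.B0 k‖ ^ 2 / PBM.bulk0 k := rfl
  have h2 : (2 : ℝ) ^ (2 * k * (2 * k - 1)) * ‖PBM.B0 k‖ ^ 2 =
      NUF.bulk k * (_root_.NUQ.Gm k).det ^ 2 := by
    rw [← W_Gm, ← e]
    rfl
  rw [h1, h2, PBC.bulk0_eq, mul_div_cancel_left₀ _ (NUF.bulk_pos k).ne']

/-- the hypothesis: the quotients of the Gram determinants -/
def QuotP : Prop := ∃ C : ℝ, ∀ n : ℕ,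
  |Real.log ((_root_.NUQ.Gm (n + 1)).det / (_root_.NUQ.Gm n).det) - (5 / 24) / (2 * (n : ℝ) + 1)| ≤
    C * ((n : ℝ) + 1) ^ (-(3 / 2) : ℝ)

/-- **the sharp Gram determinant** -/
theorem det_sharp (h : QuotP) : ∃ L C : ℝ, 0 < L ∧ 0 ≤ C ∧ ∀ m : ℕ, 1 ≤ m →
    |(_root_.NUQ.Gm m).det ^ 2 / (m : ℝ) ^ (5 / 24 : ℝ) - L| ≤ C * (m : ℝ) ^ (-(1 / 2) : ℝ) := by
  obtain ⟨C, hC⟩ := h
  have hC0 : 0 ≤ C := by
    have := (abs_nonneg _).trans (hC 0)
    simpa using this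
  obtain ⟨u, hu⟩ : ∃ u : ℕ → ℝ, u = fun m => 2 * Real.log (_root_.NUQ.Gm m).det - 5 / 24 * Real.log m :=
    ⟨_, rfl⟩
  have hinc : ∀ k : ℕ, 1 ≤ k → |u (k + 1) - u k| ≤ (2 * C + 5 / 24) * (k : ℝ) ^ (-(3 / 2) : ℝ) := by
    intro k hk
    have hk0 : (0 : ℝ) < k := by exact_mod_cast hk
    have h1 := hC k
    have h2 := log_mid hk
    rw [Real.log_div (Gm_det_pos _).ne' (Gm_det_pos _).ne'] at h1
    have h3 : ((k : ℝ) + 1) ^ (-(3 / 2) : ℝ) ≤ (k : ℝ) ^ (-(3 / 2) : ℝ) :=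
      Real.rpow_le_rpow_of_nonpos hk0 (by linarith) (by norm_num)
    have h4 := mul_le_mul_of_nonneg_left h3 hC0
    have e : u (k + 1) - u k = 2 * (Real.log (_root_.NUQ.Gm (k + 1)).det - Real.log (_root_.NUQ.Gm k).det
        - (5 / 24) / (2 * (k : ℝ) + 1)) + 5 / 24 * (1 / ((k : ℝ) + 1 / 2) -
          (Real.log ((k + 1 : ℕ) : ℝ) - Real.log k)) := by
      rw [hu]
      have : 1 / ((k : ℝ) + 1 / 2) = 2 / (2 * (k : ℝ) + 1) := by field_simp
      rw [this]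
      ring
    rw [e]
    refine (abs_add_le _ _).trans ?_
    rw [abs_mul, abs_mul, abs_of_pos (by norm_num : (0 : ℝ) < 2),
      abs_of_pos (by norm_num : (0 : ℝ) < 5 / 24)]
    linarith
  obtain ⟨l, hl⟩ := lim_rate (by positivity) hinc
  refine ⟨Real.exp l, Real.exp l * Real.exp (4 * (2 * C + 5 / 24)) * (4 * (2 * C + 5 / 24)),
    Real.exp_pos _, by positivity, fun m hm => ?_⟩
  have hm1 : (1 : ℝ) ≤ m := by exact_mod_cast hm
  have hm0 : (0 : ℝ) < m := by linarith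
  have e : (_root_.NUQ.Gm m).det ^ 2 / (m : ℝ) ^ (5 / 24 : ℝ) = Real.exp (u m) := by
    rw [hu]
    simp only
    rw [Real.exp_sub, mul_comm (5 / 24 : ℝ), ← Real.rpow_def_of_pos hm0]
    congr 1
    rw [two_mul, Real.exp_add, Real.exp_log (Gm_det_pos m), sq]
  have h1 := hl m hm
  have h2 : (m : ℝ) ^ (-(1 / 2) : ℝ) ≤ 1 := Real.rpow_le_one_of_one_le_of_nonpos hm1 (by norm_num)
  have h3 : |u m - l| ≤ 4 * (2 * C + 5 / 24) := by
    refine h1.trans ?_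
    nlinarith
  rw [e]
  refine (exp_sub_exp h3).trans ?_
  rw [mul_assoc (Real.exp l * Real.exp (4 * (2 * C + 5 / 24)))]
  exact mul_le_mul_of_nonneg_left h1 (by positivity)

/-- **THE SHARP VALUE OF THE DISC FUNCTION WITHOUT LOOPS** -/
theorem Wd_sharp (h : QuotP) : ∃ L C : ℝ, 0 < L ∧ 0 ≤ C ∧ ∀ m : ℕ, 1 ≤ m →
    |‖(NUF.near_WW 0).Wd (List.replicate m 1) (List.replicate m 1)‖ /
      (NUF.bulk m * (m : ℝ) ^ (5 / 24 : ℝ)) - L| ≤ C * (m : ℝ) ^ (-(1 / 2) : ℝ) := by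
  obtain ⟨L, C, hL, hC, h1⟩ := det_sharp h
  refine ⟨L, C, hL, hC, fun m hm => ?_⟩
  rw [W_Gm, mul_div_mul_left _ _ (NUF.bulk_pos m).ne']
  exact h1 m hm

/-- **the sharp normaliser of plan B** -/
theorem nrm_sharp (h : QuotP) : ∃ L C : ℝ, 0 < L ∧ 0 ≤ C ∧ ∀ k : ℕ, 1 ≤ k →
    |PBM.nrm k / (k : ℝ) ^ (5 / 24 : ℝ) - L| ≤ C * (k : ℝ) ^ (-(1 / 2) : ℝ) := by
  obtain ⟨L, C, hL, hC, h1⟩ := det_sharp h
  refine ⟨L, C, hL, hC, fun m hm => ?_⟩
  rw [nrm_Gm]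
  exact h1 m hm

/-! ### the physical two point function -/

/-- the normalised physical function converges with the rate of the transfer -/
theorem w0_rate {r : ℕ → ℝ} (hr : ∀ k, 0 ≤ r k) (hA : PBM.AprP) (hN : PBM.NrmP r) (hT : PBM.TRP r) :
    ∃ A C : ℝ, 0 < A ∧ 0 ≤ C ∧ ∀ᶠ k : ℕ in atTop,
      |r k * PBM.W0r k - A| ≤ C * (k : ℝ) ^ (-(3 / 8) : ℝ) := by
  obtain ⟨A, hA0, hlim⟩ := PBM.w0_lim hA hN hT
  obtain ⟨c, C, κ, g, u, hc, hu, hTR⟩ := hT
  have h1 : ∀ᶠ k : ℕ in atTop, |r k * PBM.W0r k - ‖κ * g‖| ≤ |C| * (k : ℝ) ^ (-(3 / 8) : ℝ) := by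
    filter_upwards [hu, hTR, eventually_ge_atTop 1] with k e1 e2 e3
    have hk1 : (1 : ℝ) ≤ k := by exact_mod_cast e3
    have e4 : r k * PBM.W0r k = ‖((r k * PBM.W0r k : ℝ) : ℂ)‖ := by
      rw [Complex.norm_real, Real.norm_of_nonneg (mul_nonneg (hr k) (PBM.W0r_nn k))]
    have e5 : ‖κ * g‖ = ‖u k * (κ * g)‖ := by rw [norm_mul (u k), e1, one_mul]
    rw [e4, e5]
    refine (abs_norm_sub_norm_le _ _).trans (e2.trans ?_)
    have e6 : (k : ℝ) ^ (-c) ≤ (k : ℝ) ^ (-(3 / 8) : ℝ) :=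
      Real.rpow_le_rpow_of_exponent_le hk1 (by linarith)
    exact (mul_le_mul_of_nonneg_right (le_abs_self C) (by positivity)).trans
      (mul_le_mul_of_nonneg_left e6 (abs_nonneg C))
  have h2 : Tendsto (fun k : ℕ => |C| * (k : ℝ) ^ (-(3 / 8) : ℝ)) atTop (𝓝 0) := by
    have h3 := (tendsto_rpow_neg_atTop (show (0 : ℝ) < 3 / 8 by norm_num)).comp
      tendsto_natCast_atTop_atTop
    simpa using h3.const_mul |C|
  have h3 : Tendsto (fun k => r k * PBM.W0r k) atTop (𝓝 ‖κ * g‖) := by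
    have h4 : Tendsto (fun k => r k * PBM.W0r k - ‖κ * g‖) atTop (𝓝 0) :=
      squeeze_zero_norm' (by simpa only [Real.norm_eq_abs] using h1) h2
    simpa using h4.add_const ‖κ * g‖
  have h4 : A = ‖κ * g‖ := tendsto_nhds_unique hlim h3
  exact ⟨A, |C|, hA0, abs_nonneg C, by rw [h4]; exact h1⟩

/-- **THE PHYSICAL TWO POINT FUNCTION, SHARP, WITH A RATE** -/
theorem w0_sharp (h : QuotP) (hA : PBM.AprP) (hT : PBM.TRP PBM.nrm) :
    ∃ A C : ℝ, 0 < A ∧ 0 ≤ C ∧ ∀ᶠ k : ℕ in atTop,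
      |PBM.W0r k * (k : ℝ) ^ (5 / 24 : ℝ) - A| ≤ C * (k : ℝ) ^ (-(3 / 8) : ℝ) := by
  obtain ⟨L, C1, hL, hC1, h1⟩ := nrm_sharp h
  obtain ⟨A, C2, hA0, hC2, h2⟩ := w0_rate PBM.nrm_nonneg hA PBC.nrmP hT
  have ht : Tendsto (fun k : ℕ => C1 * (k : ℝ) ^ (-(1 / 2) : ℝ)) atTop (𝓝 0) := by
    have h3 := (tendsto_rpow_neg_atTop (show (0 : ℝ) < 1 / 2 by norm_num)).comp
      tendsto_natCast_atTop_atTop
    simpa using h3.const_mul C1
  refine ⟨A / L, 2 * (L * C2 + A * C1) / L ^ 2, by positivity, by positivity, ?_⟩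
  filter_upwards [h2, ht.eventually (gt_mem_nhds (show (0 : ℝ) < L / 2 by linarith)),
    eventually_ge_atTop 1] with k e1 e2 e3
  have hk1 : (1 : ℝ) ≤ k := by exact_mod_cast e3
  have hk0 : (0 : ℝ) < k := by linarith
  have e4 := h1 k e3
  obtain ⟨p, hp⟩ : ∃ p, p = (k : ℝ) ^ (5 / 24 : ℝ) := ⟨_, rfl⟩
  have hp0 : 0 < p := by rw [hp]; positivity
  obtain ⟨b, hb⟩ : ∃ b, b = PBM.nrm k / p := ⟨_, rfl⟩
  rw [← hp, ← hb] at e4
  rw [← hp]
  have hb2 : L / 2 ≤ b := by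
    have := (abs_le.1 (e4.trans e2.le)).1
    linarith
  have hb0 : 0 < b := by linarith
  have e5 : PBM.W0r k * p = PBM.nrm k * PBM.W0r k / b := by
    have : PBM.nrm k = b * p := by rw [hb]; field_simp
    rw [this]
    field_simp
  obtain ⟨a, ha⟩ : ∃ a, a = PBM.nrm k * PBM.W0r k := ⟨_, rfl⟩
  rw [← ha] at e1
  rw [e5, ← ha]
  have e6 : a / b - A / L = (L * (a - A) - A * (b - L)) / (b * L) := by
    field_simp
    ring
  have e7 : (k : ℝ) ^ (-(1 / 2) : ℝ) ≤ (k : ℝ) ^ (-(3 / 8) : ℝ) :=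
    Real.rpow_le_rpow_of_exponent_le hk1 (by norm_num)
  obtain ⟨q, hq⟩ : ∃ q, q = (k : ℝ) ^ (-(3 / 8) : ℝ) := ⟨_, rfl⟩
  have hq0 : 0 ≤ q := by rw [hq]; positivity
  rw [← hq] at e1 e7 ⊢
  have e8 : |b - L| ≤ C1 * q := e4.trans (mul_le_mul_of_nonneg_left e7 hC1)
  have e9 : |L * (a - A) - A * (b - L)| ≤ (L * C2 + A * C1) * q := by
    refine (abs_sub _ _).trans ?_
    rw [abs_mul, abs_mul, abs_of_pos hL, abs_of_pos hA0]
    have f1 := mul_le_mul_of_nonneg_left e1 hL.le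
    have f2 := mul_le_mul_of_nonneg_left e8 hA0.le
    linarith
  rw [e6, abs_div, abs_of_pos (by positivity : 0 < b * L), div_le_iff₀ (by positivity)]
  have e10 : L ^ 2 / 2 ≤ b * L := by nlinarith
  calc |L * (a - A) - A * (b - L)| ≤ (L * C2 + A * C1) * q := e9
    _ = 2 * (L * C2 + A * C1) / L ^ 2 * q * (L ^ 2 / 2) := by field_simp
    _ ≤ 2 * (L * C2 + A * C1) / L ^ 2 * q * (b * L) :=
        mul_le_mul_of_nonneg_left e10 (by positivity)

end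

end SB
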