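import Pool.Agent.PB.Close
import Pool.Agent.PB.SBC
import Pool.Agent.PB.SB3

/-!
# PB/CloseS (helper30): the sharp two point function, no hypothesis

* `quotP` : the quotients of the Gram determinants (helper71's `quot_main`);
* `wd0_sharp`, `nrm0_sharp` : the disc function without loops and the normaliser;
* **`w0_sharp`** : `W0r k * k ^ (5 / 24) = A + O(k ^ (-3 / 8))`, `A > 0`;
* `w0_tendsto` : the limit.
-/

set_option autoImplicit false

noncomputable section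

open Filter Topology
open Pool.Agent

namespace PBC

/-- the quotients of the Gram determinants -/
theorem quotP : SB.QuotP := SB.quot_main

/-- **the disc function of `2 m` rows `0` without loops, sharp** -/
theorem wd0_sharp : ∃ L C : ℝ, 0 < L ∧ 0 ≤ C ∧ ∀ m : ℕ, 1 ≤ m →
    |‖(NUF.near_WW 0).Wd (List.replicate m 1) (List.replicate m 1)‖ /
      (NUF.bulk m * (m : ℝ) ^ (5 / 24 : ℝ)) - L| ≤ C * (m : ℝ) ^ (-(1 / 2) : ℝ) :=
  SB.Wd_sharp quotP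

/-- **the normaliser, sharp** -/
theorem nrm0_sharp : ∃ L C : ℝ, 0 < L ∧ 0 ≤ C ∧ ∀ k : ℕ, 1 ≤ k →
    |PBM.nrm k / (k : ℝ) ^ (5 / 24 : ℝ) - L| ≤ C * (k : ℝ) ^ (-(1 / 2) : ℝ) :=
  SB.nrm_sharp quotP

/-- **THE PHYSICAL TWO POINT FUNCTION, SHARP, WITH A RATE** -/
theorem w0_sharp : ∃ A C : ℝ, 0 < A ∧ 0 ≤ C ∧ ∀ᶠ k : ℕ in atTop,
    |PBM.W0r k * (k : ℝ) ^ (5 / 24 : ℝ) - A| ≤ C * (k : ℝ) ^ (-(3 / 8) : ℝ) :=
  SB.w0_sharp quotP aprP trp

/-- the limit -/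
theorem w0_tendsto : ∃ A : ℝ, 0 < A ∧
    Tendsto (fun k : ℕ => PBM.W0r k * (k : ℝ) ^ (5 / 24 : ℝ)) atTop (𝓝 A) := by
  obtain ⟨A, C, hA, -, h⟩ := w0_sharp
  refine ⟨A, hA, ?_⟩
  have h2 : Tendsto (fun k : ℕ => C * (k : ℝ) ^ (-(3 / 8) : ℝ)) atTop (𝓝 0) := by
    have h3 := (tendsto_rpow_neg_atTop (show (0 : ℝ) < 3 / 8 by norm_num)).comp
      tendsto_natCast_atTop_atTop
    simpa using h3.const_mul C
  have h4 : Tendsto (fun k : ℕ => PBM.W0r k * (k : ℝ) ^ (5 / 24 : ℝ) - A) atTop (𝓝 0) :=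
    squeeze_zero_norm' (by simpa only [Real.norm_eq_abs] using h) h2
  simpa using h4.add_const A

end PBC

end
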