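import Pool.Agent.PB.Reg2
import Pool.Agent.PB.OneD

/-!
# The regular function at rows `0`, ends `0`: closed forms

`RD.Z D` : rows and ends of `D` are `0`.  `rc0`, `th0` : factor of one row of both groups, of the
ends (without one row); `kf0`, `kp0`, `xd0` : prefactors of a half quantum, with a captured quantum,
of a captured pair; norms in terms of `rwC 0`.
-/

set_option autoImplicit false
set_option linter.unusedSectionVars false
set_option linter.unusedVariables false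

noncomputable section

open Complex MeasureTheory

namespace PBX

open NUP1 NUP1S NUP1.Bd NURow
open NUP1.N (Z3 Gr0 GXs GYs ZP ZP' ZPP prc pr1 rA rB I0 IP IP' IPP ID ID' UD OnL)
open NUP1.Leg (hE hr thE cc Ck Dk kap)

/-! ## functions of one variable -/

/-- one row `0` of both groups -/
def rc0 (u : ℂ) : ℂ := sin (u + 3 * l) ^ 2 / (sin u * sin (u - 2 * l))

/-- the ends at `0`, without the factor of one row -/
def th0 (u : ℂ) : ℂ := sin u / sin (u - 2 * l)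

/-- modulus of `th0` -/
def Th0 (u : ℂ) : ℝ := ‖Complex.sin u‖ / ‖Complex.sin (u - 2 * l)‖

/-- prefactor of a half quantum -/
def kf0 (m : ℕ) (w : ℂ) : ℂ := kap w * sin (w + 3 * l) * (sin (w + 3 * l) / sin w) ^ m

/-- prefactor of a half quantum with a captured quantum, without constants and cutoff -/
def kp0 (m : ℕ) (w : ℂ) : ℂ := sin (w + 3 * l) * sin (w - 2 * l) / (sin w * sin (w + l) ^ 2) *
  (sin (w - 2 * l) ^ 2 / (sin w * sin (w + l))) ^ m

/-- prefactor of a captured pair -/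
def xd0 (m : ℕ) (w : ℂ) : ℂ := -sin (2 * l) ^ 2 / (sin (w + l) * sin w) *
  (-sin (w - 2 * l) / sin w) ^ m

theorem norm_rc0 (u : ℂ) : ‖rc0 u‖ = rwC 0 u := by
  unfold rc0 rwC
  rw [norm_div, norm_mul, norm_pow, sub_zero]

theorem norm_th0 (u : ℂ) : ‖th0 u‖ = Th0 u := by
  unfold th0 Th0
  rw [norm_div]

theorem Th0_nonneg (u : ℂ) : 0 ≤ Th0 u := by
  unfold Th0
  positivity

theorem sin_six (w : ℂ) : sin (w + 6 * l) = -sin (w - 2 * l) := by
  have h : (8 : ℂ) * (l : ℂ) = Real.pi := by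
    unfold NUP1.l
    push_cast
    ring
  rw [show w + 6 * (l : ℂ) = w - 2 * l + Real.pi by rw [← h]; ring, Complex.sin_add_pi]

theorem RR_zero (c : ℂ) (m : ℕ) (u : ℂ) :
    RR c (fun _ : Fin m => 0) (fun _ => 0) u = c * rc0 u ^ m := by
  unfold RR rc0
  simp only [Finset.prod_const, Finset.card_univ, Fintype.card_fin, sub_zero]
  rw [mul_assoc, mul_assoc, ← mul_pow, ← mul_pow]
  congr 2
  field_simp

theorem thE_zero (u : ℂ) : thE 0 0 0 0 u = sin (u + 3 * l) ^ 2 / sin (u - 2 * l) ^ 2 := by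
  unfold Leg.thE
  rw [show (0 : ℂ) - u + 2 * l = -(u - 2 * l) by ring, Complex.sin_neg, neg_mul_neg, sub_zero]
  ring

theorem thE_zero' {u : ℂ} (h : sin u ≠ 0) : thE 0 0 0 0 u = rc0 u * th0 u := by
  rw [thE_zero]
  unfold rc0 th0
  rw [div_mul_div_comm, mul_right_comm, mul_comm (sin u * sin (u - 2 * l)), mul_comm (sin u),
    ← mul_assoc, mul_div_mul_right _ _ h, sq (sin (u - 2 * l))]

theorem norm_thE_zero {u : ℂ} (h : sin u ≠ 0) : ‖thE 0 0 0 0 u‖ = rwC 0 u * Th0 u := by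
  rw [thE_zero' h, norm_mul, norm_rc0, norm_th0]

theorem kap_ne {w : ℂ} : kap w = sin (2 * l) / (sin w * sin (w - 2 * l)) := rfl

/-! ## rows and ends at `0` -/

/-- rows and ends at `0` -/
structure RD.Z {m : ℕ} (D : RD m) : Prop where
  x : D.x = fun _ => 0
  y : D.y = fun _ => 0
  p : D.p = 0
  q : D.q = 0

theorem RD.Z.sw {m : ℕ} {D : RD m} (h : D.Z) : D.sw.Z := ⟨h.y, h.x, h.q, h.p⟩

section

variable {m : ℕ} {D : RD m}

theorem ph_zero (β : ℝ) (m : ℕ) (g : ℂ → ℂ) (u : ℂ) :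
    ph β (fun _ : Fin m => 0) g u = 1 - psi β u ^ m * g u := by
  unfold ph
  simp [Finset.prod_const, Finset.card_univ, Fintype.card_fin]

theorem gP_replicate (β : ℝ) (n : ℕ) (u : ℂ) : gP β (List.replicate n 0) u = psi β u ^ n := by
  unfold gP
  simp [List.map_replicate, List.prod_replicate]

theorem ph_zero_gP (β : ℝ) (m : ℕ) (W : List ℂ) (u : ℂ) :
    ph β (fun _ : Fin m => 0) (gP β W) u = NUP1.phi β (List.replicate m 0 ++ W) u := by
  rw [ph_gP, List.ofFn_const]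

/-- **a quantum of species X** -/
theorem RD.Z.X_none (h : D.Z) (u : ℂ) : D.X none u =
    D.c * rc0 u ^ m * (1 - psi D.β u ^ m * D.g u) * (sin (u + 3 * l) ^ 2 / sin (u - 2 * l) ^ 2) := by
  show RR D.c D.x D.y u * ph D.β D.x D.g u * thE D.p D.p D.q D.q u = _
  rw [h.x, h.y, h.p, h.q, RR_zero, ph_zero, thE_zero]

theorem RD.Z.Y_none (h : D.Z) (u : ℂ) : D.Y none u =
    D.c' * rc0 u ^ m * (1 - psi D.β u ^ m * D.g' u) *
      (sin (u + 3 * l) ^ 2 / sin (u - 2 * l) ^ 2) := h.sw.X_none u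

theorem RD.Z.X_none' (h : D.Z) {u : ℂ} (hu : sin u ≠ 0) : D.X none u =
    D.c * rc0 u ^ (m + 1) * th0 u * (1 - psi D.β u ^ m * D.g u) := by
  show RR D.c D.x D.y u * ph D.β D.x D.g u * thE D.p D.p D.q D.q u = _
  rw [h.x, h.y, h.p, h.q, RR_zero, ph_zero, thE_zero' hu]
  ring

theorem RD.Z.norm_X_none (h : D.Z) {u : ℂ} (hu : sin u ≠ 0) : ‖D.X none u‖ =
    ‖D.c‖ * rwC 0 u ^ (m + 1) * Th0 u * ‖1 - psi D.β u ^ m * D.g u‖ := by
  rw [h.X_none' hu, norm_mul, norm_mul, norm_mul, norm_pow, norm_rc0, norm_th0]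

/-- **the string S of species X** -/
theorem RD.Z.X_S (h : D.Z) {w : ℂ} (h1 : sin w ≠ 0) (h2 : sin (w - l) ≠ 0) : D.X (some .S) w =
    D.c * rc0 w ^ (m + 1) * th0 w * (D.c * rc0 (w - l) ^ (m + 1) * th0 (w - l)) *
      (1 - psi (4 / 3) w ^ m * D.g0 w) := by
  show RR D.c D.x D.y w * RR D.c D.x D.y (w - l) * ph (4 / 3) D.x D.g0 w *
    (thE D.p D.p D.q D.q w * thE D.p D.p D.q D.q (w - l)) = _
  rw [h.x, h.y, h.p, h.q, RR_zero, RR_zero, ph_zero, thE_zero' h1, thE_zero' h2]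
  ring

/-- **prefactor of a half quantum** -/
theorem RD.Z.KF (h : D.Z) (w : ℂ) : D.KF w = kf0 m w := by
  unfold RD.KF NUP1.N.pr1 NUP1.N.prc NUP1.N.rA NUP1.N.rB kf0
  rw [h.x, h.y, h.p, h.q]
  simp only [Finset.prod_const, Finset.card_univ, Fintype.card_fin, sub_zero]
  rw [mul_assoc, ← mul_pow, one_div, inv_mul_eq_div]

theorem RD.Z.KF' (h : D.Z) (w : ℂ) : D.KF' w = kf0 m w := h.sw.KF w

/-- the algebra of the captured quantum -/
theorem kf0_cap (m : ℕ) {w : ℂ} (h1 : sin w ≠ 0) (h2 : sin (w + 3 * l) ≠ 0)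
    (h3 : sin (w - 2 * l) ≠ 0) :
    kf0 m w * (rc0 (w + 3 * l) ^ m * (sin (w + 3 * l + 3 * l) ^ 2 / sin (w + 3 * l - 2 * l) ^ 2)) =
      sin (2 * l) * kp0 m w := by
  unfold kf0 kp0 rc0
  rw [kap_ne, show w + 3 * (l : ℂ) + 3 * l = w + 6 * l by ring, sin_six,
    show w + 3 * (l : ℂ) - 2 * l = w + l by ring]
  have e : sin (w + 3 * (l : ℂ)) / sin w *
      ((-sin (w - 2 * l)) ^ 2 / (sin (w + 3 * l) * sin (w + l))) =
      sin (w - 2 * l) ^ 2 / (sin w * sin (w + l)) := by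
    rw [neg_sq, div_mul_div_comm, mul_comm (sin w) (sin (w + 3 * (l : ℂ)) * sin (w + l)),
      mul_assoc, mul_div_mul_left _ _ h2, mul_comm (sin (w + l))]
  rw [show sin (2 * (l : ℂ)) / (sin w * sin (w - 2 * l)) * sin (w + 3 * l) *
      (sin (w + 3 * l) / sin w) ^ m *
      (((-sin (w - 2 * l)) ^ 2 / (sin (w + 3 * l) * sin (w + l))) ^ m *
        ((-sin (w - 2 * l)) ^ 2 / sin (w + l) ^ 2)) =
      sin (2 * (l : ℂ)) / (sin w * sin (w - 2 * l)) * sin (w + 3 * l) *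
        ((-sin (w - 2 * l)) ^ 2 / sin (w + l) ^ 2) *
      (sin (w + 3 * l) / sin w * ((-sin (w - 2 * l)) ^ 2 / (sin (w + 3 * l) * sin (w + l)))) ^ m by
    rw [mul_pow]; ring, e, neg_sq]
  rw [← mul_assoc]
  congr 1
  by_cases h4 : sin (w + l) = 0
  · simp [h4]
  · field_simp

/-- **the half quantum with a captured quantum** -/
theorem RD.Z.KP (h : D.Z) {w : ℂ} (h1 : sin w ≠ 0) (h2 : sin (w + 3 * l) ≠ 0)
    (h3 : sin (w - 2 * l) ≠ 0) : D.KP w = sin l * D.c' * kp0 m w *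
      (1 - psi D.β (w + 3 * l) ^ m * D.g' (w + 3 * l)) := by
  unfold RD.KP
  rw [h.KF, h.Y_none]
  have hs : sin (2 * (l : ℂ)) ≠ 0 := by
    refine Bd.sin_ne_zero_of_re ?_
    have hl := Bd.l_pos
    rw [show (2 * (l : ℂ)).re = 2 * l by simp]
    exact sin_ne_pos (by linarith) (by linarith)
  rw [show sin (l : ℂ) / sin (2 * l) * (kf0 m w * (D.c' * rc0 (w + 3 * l) ^ m *
      (1 - psi D.β (w + 3 * l) ^ m * D.g' (w + 3 * l)) *
        (sin (w + 3 * l + 3 * l) ^ 2 / sin (w + 3 * l - 2 * l) ^ 2))) =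
      sin (l : ℂ) / sin (2 * l) * D.c' * (1 - psi D.β (w + 3 * l) ^ m * D.g' (w + 3 * l)) *
        (kf0 m w * (rc0 (w + 3 * l) ^ m *
          (sin (w + 3 * l + 3 * l) ^ 2 / sin (w + 3 * l - 2 * l) ^ 2))) by ring,
    kf0_cap m h1 h2 h3]
  field_simp

theorem RD.Z.KP' (h : D.Z) {w : ℂ} (h1 : sin w ≠ 0) (h2 : sin (w + 3 * l) ≠ 0)
    (h3 : sin (w - 2 * l) ≠ 0) : D.KP' w = sin l * D.c * kp0 m w *
      (1 - psi D.β (w + 3 * l) ^ m * D.g (w + 3 * l)) := h.sw.KP h1 h2 h3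

/-- **the captured pair** -/
theorem RD.Z.XD (h : D.Z) (w : ℂ) : D.XD w = xd0 m w := by
  unfold RD.XD NUP1.N.XD xd0
  rw [h.y, h.p, h.q]
  simp only [Finset.prod_const, Finset.card_univ, Fintype.card_fin, sub_zero]

theorem RD.Z.XD' (h : D.Z) (w : ℂ) : D.XD' w = xd0 m w := h.sw.XD w

theorem RD.Z.norm_XS (h : D.Z) {w : ℂ} (h1 : sin w ≠ 0) (h2 : sin (w - l) ≠ 0) :
    ‖D.X (some .S) w‖ = ‖D.c‖ * rwC 0 w ^ (m + 1) * Th0 w *
      (‖D.c‖ * rwC 0 (w - l) ^ (m + 1) * Th0 (w - l)) * ‖1 - psi (4 / 3) w ^ m * D.g0 w‖ := by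
  rw [h.X_S h1 h2, norm_mul, norm_mul, norm_mul, norm_mul, norm_mul, norm_mul, norm_pow, norm_pow,
    norm_rc0, norm_rc0, norm_th0, norm_th0]

/-! ## the instance -/

/-- **rows `0`, ends `0`**, cutoffs over the rows and `ex` (quanta), the rows and `ex0` (strings) -/
def R0 (m : ℕ) (β : ℝ) (ex ex0 : List ℂ) : RD m :=
  ⟨cc m, cc m, β, fun _ => 0, fun _ => 0, 0, 0, gP β ex, gP β ex, gP (4 / 3) ex0, gP (4 / 3) ex0⟩

theorem R0_Z (m : ℕ) (β : ℝ) (ex ex0 : List ℂ) : (R0 m β ex ex0).Z := ⟨rfl, rfl, rfl, rfl⟩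

theorem R0_Ok (m : ℕ) {β : ℝ} (hβ : 0 < β) (hβ' : β ≤ 4 / 3) {ex ex0 : List ℂ}
    (hex : ∀ w ∈ ex, |w.re| ≤ l / 2) (hex0 : ∀ w ∈ ex0, |w.re| ≤ l / 2) :
    (R0 m β ex ex0).Ok where
  b0 := hβ
  b1 := hβ'
  hx i := by
    have hl := Bd.l_pos
    show |(0 : ℂ).re| ≤ l / 2
    rw [zero_re, abs_zero]
    linarith
  hy i := by
    have hl := Bd.l_pos
    show |(0 : ℂ).re| ≤ l / 2
    rw [zero_re, abs_zero]
    linarith
  hp := by
    have hl := Bd.l_pos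
    show |(0 : ℂ).re| ≤ l / 2
    rw [zero_re, abs_zero]
    linarith
  hq := by
    have hl := Bd.l_pos
    show |(0 : ℂ).re| ≤ l / 2
    rw [zero_re, abs_zero]
    linarith
  nx i := by
    have hl := Bd.l_pos
    show (0 : ℂ).re ≠ l / 4
    rw [zero_re]
    exact ne_of_lt (by linarith)
  ny i := by
    have hl := Bd.l_pos
    show (0 : ℂ).re ≠ l / 4
    rw [zero_re]
    exact ne_of_lt (by linarith)
  gg := GOk.gP hβ hβ' hex
  gg' := GOk.gP hβ hβ' hex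
  gg0 := GOk.gP (by norm_num) le_rfl hex0
  gg0' := GOk.gP (by norm_num) le_rfl hex0

theorem norm_cc (m : ℕ) : ‖cc m‖ = 2 * Real.cos l := by
  have hl := Bd.l_pos
  have h0 : Real.sin l ≠ 0 := (Real.sin_pos_of_pos_of_lt_pi hl (by unfold NUP1.l; linarith [Real.pi_pos])).ne'
  have h1 : 0 < Real.cos l := Real.cos_pos_of_mem_Ioo ⟨by linarith [Real.pi_pos], by
    unfold NUP1.l; linarith [Real.pi_pos]⟩
  unfold Leg.cc
  rw [norm_mul, norm_pow, norm_neg, norm_one, one_pow, one_mul,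
    show sin (2 * (l : ℂ)) / sin (l : ℂ) = ((2 * Real.cos l : ℝ) : ℂ) by
      rw [Complex.sin_two_mul]
      have : sin (l : ℂ) ≠ 0 := by
        rw [← Complex.ofReal_sin]
        exact_mod_cast h0
      push_cast
      field_simp, Complex.norm_real, Real.norm_eq_abs, abs_of_pos (by linarith)]

theorem R0_sym (m : ℕ) (β : ℝ) (ex ex0 : List ℂ) : (R0 m β ex ex0).Y = (R0 m β ex ex0).X := rfl

/-- **a quantum** -/
theorem R0_none (m : ℕ) (β : ℝ) (ex ex0 : List ℂ) {u : ℂ} (hu : sin u ≠ 0) :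
    ‖(R0 m β ex ex0).X none u‖ = 2 * Real.cos l * rwC 0 u ^ (m + 1) * Th0 u *
      ‖NUP1.phi β (List.replicate m 0 ++ ex) u‖ := by
  rw [(R0_Z m β ex ex0).norm_X_none hu]
  show ‖cc m‖ * _ * _ * ‖1 - psi β u ^ m * gP β ex u‖ = _
  rw [norm_cc, ← ph_zero, ph_zero_gP]

end

end PBX
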