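import Pool.Agent.PB.W1FF
import Pool.Agent.PB.Reg0
import Pool.Agent.NUGC.Ob1Fac

/-!
# The base at rows `0`, ends `0`

`ob0 m β ex ex0`: one body data, `m` rows and one end (`m + 1` effective rows): activity
`2 cos l · rwC 0 u ^ (m + 1) · Th0 u`, cutoffs over the rows and `ex` (quanta), `ex0` (strings);
**`bs_R0`**: `Bs` of `R0 m β ex ex0` with `(ob0 ..).mul g`; `R0_WW_FF`, `R0_WW_valFF`.
-/

set_option autoImplicit false
set_option linter.unusedSectionVars false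

noncomputable section

open Complex MeasureTheory Finset
open scoped ENNReal

namespace PBR

open NUO NUP1 NUCR NUP1S NUP1S.Ab NUP1S.AbC NUP1S.AbG NURow NUGC PBX PBC PBF
open NUP1.Leg (thE Ck Dk cc)

/-- **one body data at rows 0, ends 0** -/
def ob0 (m : ℕ) (β : ℝ) (ex ex0 : List ℂ) : OB where
  R _ u := 2 * Real.cos l * rwC 0 u ^ (m + 1) * Th0 u
  φ := NUP1.phi β (List.replicate m 0 ++ ex)
  φ0 := NUP1.phi (4 / 3) (List.replicate m 0 ++ ex0)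

theorem ob0_nn (m : ℕ) (β : ℝ) (ex ex0 : List ℂ) : (ob0 m β ex ex0).Nn := fun _ u => by
  have hc : 0 ≤ Real.cos l := by
    have hl := l_pos
    exact (Real.cos_pos_of_mem_Ioo ⟨by linarith [Real.pi_pos], by
      have := NURow.l8
      unfold NUP1.l
      linarith [Real.pi_pos]⟩).le
  have := rwC_nonneg 0 u
  have := Th0_nonneg u
  show 0 ≤ 2 * Real.cos l * rwC 0 u ^ (m + 1) * Th0 u
  positivity

theorem REq_R0 (m : ℕ) (β : ℝ) {ex ex0 : List ℂ} (hex : ∀ w ∈ ex, |w.re| ≤ l / 2) :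
    REq (R0 m β ex ex0) ex ex0 (2 * Real.cos l) where
  xy := rfl
  g := rfl
  g' := rfl
  g0 := rfl
  g0' := rfl
  c := norm_cc m
  c' := norm_cc m
  hex := hex

theorem obR_R0 {m : ℕ} (hm : 1 ≤ m) (β : ℝ) (ex ex0 : List ℂ) (g : Bool → ℂ → ℝ) :
    obR (R0 m β ex ex0) ex ex0 (2 * Real.cos l) g = (ob0 m β ex ex0).mul g := by
  have eR : ∀ (a : Bool) (u : ℂ), 2 * Real.cos l * (∏ _i : Fin m, rwC 0 u) *
      (‖thE 0 0 0 0 u‖ * g a u) = 2 * Real.cos l * rwC 0 u ^ (m + 1) * Th0 u * g a u := by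
    intro a u
    rw [Finset.prod_const, Finset.card_univ, Fintype.card_fin]
    by_cases hu : Complex.sin u = 0
    · have h0 : rwC 0 u = 0 := by
        unfold rwC
        rw [sub_zero, hu, norm_zero, zero_mul, div_zero]
      rw [h0, zero_pow (by omega), zero_pow (by omega)]
      ring
    · rw [norm_thE_zero hu]
      ring
  have eL : List.ofFn (fun _ : Fin m => (0 : ℂ)) = List.replicate m 0 := List.ofFn_const m 0
  unfold obR PBX.obX OB.mul ob0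
  show OB.mk _ (NUP1.phi β (List.ofFn (fun _ : Fin m => (0 : ℂ)) ++ ex))
    (NUP1.phi (4 / 3) (List.ofFn (fun _ : Fin m => (0 : ℂ)) ++ ex0)) = _
  rw [eL]
  congr 1
  funext a u
  exact eR a u

/-- **The base of the regular function at rows 0, ends 0.** -/
theorem bs_R0 {m : ℕ} (hm : 1 ≤ m) {β : ℝ} (hβ : 0 < β) (hβ' : β ≤ 4 / 3) {ex ex0 : List ℂ}
    (hex : ∀ w ∈ ex, |w.re| ≤ l / 2) (hex0 : ∀ w ∈ ex0, |w.re| ≤ l / 2) {P : NUO.Par} {ep : ℝ}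
    (hP : ParC P) (hep0 : 0 < ep) (hep : ep ≤ 1 / 100) :
    Bs (XB (R0 m β ex ex0).X (R0 m β ex ex0).Y) (fun g => (ob0 m β ex ex0).mul g) P ep (2 * β)
      {0} := by
  have h := bs_RD (R0_Ok m hβ hβ' hex hex0) (REq_R0 m β (ex0 := ex0) hex) hP hep0 hep
  have e : (Set.range fun i : Fin m => ((R0 m β ex ex0).x i).im) = {0} := by
    have : Nonempty (Fin m) := ⟨⟨0, hm⟩⟩
    show (Set.range fun _ : Fin m => (0 : ℂ).im) = {0}
    rw [Set.range_const, zero_im]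
  rw [e] at h
  exact h.congr (fun _ _ _ => rfl) fun g => obR_R0 hm β ex ex0 g

/-- **W W at rows 0, ends 0: the functional without insertion.** -/
theorem R0_WW_FF {m : ℕ} {β : ℝ} (hβ : 0 < β) (hβ' : β ≤ 4 / 3) {ex ex0 : List ℂ}
    (hex : ∀ w ∈ ex, |w.re| ≤ l / 2) (hex0 : ∀ w ∈ ex0, |w.re| ≤ l / 2) {P : NUO.Par} {ep : ℝ}
    (hP : ParC P) (hep0 : 0 < ep) (hep : ep ≤ 1 / 100)
    (hρ : ∀ r, ∃ ρ0, 0 < ρ0 ∧ ∀ t, ρ0 ≤ P.rad r t) {w w' : ℂ}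
    (hw : w.re = 5 / 4 * l) (hw' : w'.re = 5 / 4 * l) (n : ℕ)
    {η η' : Crs} (hη : ∀ r ≤ n + n, ∀ᵐ O ∂(Measure.pi fun _ : Fin r => nu),
      CurB ep (η r O) (η' r O)) :
    NURow.ZobjQ (RZW (R0 m β ex ex0) w w' true) (RZW (R0 m β ex ex0) w w' false) (3 / 5 * l) n n
      (lX P) (lY P) = PBF.FF (RZW (R0 m β ex ex0) w w') P n n η η' (fun _ _ _ _ _ => 1) :=
  RWW_FF (R0_Ok m hβ hβ' hex hex0) (REq_R0 m β hex) hP hep0 hep hρ hw hw' n hη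

/-- **The value of the class W W at rows 0, ends 0.** -/
theorem R0_WW_valFF {m : ℕ} {β : ℝ} (hβ : 0 < β) (hβ' : β ≤ 4 / 3) {ex ex0 : List ℂ}
    (hex : ∀ w ∈ ex, |w.re| ≤ l / 2) (hex0 : ∀ w ∈ ex0, |w.re| ≤ l / 2) {P : NUO.Par} {ep : ℝ}
    (hP : ParC P) (hep0 : 0 < ep) (hep : ep ≤ 1 / 100)
    (hρ : ∀ r, ∃ ρ0, 0 < ρ0 ∧ ∀ t, ρ0 ≤ P.rad r t) (n : ℕ)
    (η η' : ℝ × ℝ → Crs) (hη : ∀ y, ∀ r ≤ n + n, ∀ᵐ O ∂(Measure.pi fun _ : Fin r => nu),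
      CurB ep (η y r O) (η' y r O)) :
    ((R0 m β ex ex0).cF .W .W).val (R0 m β ex ex0).X (R0 m β ex ex0).Y (3 / 5 * l) n n
      (lX P) (lY P) =
      ∫ y : ℝ × ℝ, kf0 m (vl (5 / 4 * l) y.1) * kf0 m (vl (5 / 4 * l) y.2) *
        Dk (vl (5 / 4 * l) y.1 - vl (5 / 4 * l) y.2) *
        PBF.FF (RZW (R0 m β ex ex0) (vl (5 / 4 * l) y.1) (vl (5 / 4 * l) y.2)) P n n (η y) (η' y)
          (fun _ _ _ _ _ => 1) ∂(volume.prod volume) := by
  have h := RWW_valFF (R0_Ok m hβ hβ' hex hex0) (REq_R0 m β (ex0 := ex0) hex) hP hep0 hep hρ n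
    η η' hη
  rw [h]
  refine integral_congr_ae (Filter.Eventually.of_forall fun y => ?_)
  show (R0 m β ex ex0).KF _ * (R0 m β ex ex0).KF' _ * _ * _ = _
  rw [(R0_Z m β ex ex0).KF, (R0_Z m β ex ex0).KF']

end PBR

end
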