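import Pool.Agent.PB.Own0

/-!
# `OwnLe`, `OwnDLe` at rows `0`, ends `0`, sea `seaP`

* `CutB m k ep A β g g0`: bounds of the cutoffs of one species at the places of the half quanta;
* `IsK`: the kernels `PBQ.KD` at rows and ends `0` (`isK_RD`: those of `PBX.RD`);
* **`ownLe0`**: `K.OwnLe MF0 (m + 1) ep (C A²)` with one constant `C`, and the same for the types `F`,
  `H` with the gains `exp (-(m + 1) Ag (3/4) τ)`, `exp (-(m + 1) Ag (3/8) τ)`;
* **`ownDLe0`**; `gain_F`: `exp (-k Ag (3/4) τ) ≤ exp (-c k e^{-(8/3) |τ|})`;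
* **`cutB0`**: `CutB` for the cutoffs over `0^(m + j)`.
-/

set_option autoImplicit false
set_option linter.unusedSectionVars false
set_option linter.unusedVariables false

open MeasureTheory Set Filter Topology

namespace PB0

open NUMF (l l_pos zj Ag)
open NUHM (ls ls_per)
open NUPn (nsin inv_exp' exp_pow' Lin lin_ls norm_sin2l norm_sin1l sin2l_pos sin1l_pos)
open NUPref (la)
open NUGC (cut cut_nonneg cut_le_one clh qh htL htP)
open NURow (HT)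

noncomputable section

/-- bounds of the cutoffs of one species at the places of the half quanta -/
structure CutB (m k : ℕ) (ep A β : ℝ) (g g0 : ℂ → ℂ) : Prop where
  q : ∀ τ : ℝ, ‖ph0 β g m (zj (1 / 4) τ)‖ ≤ A * cut (Real.log k) ep (-1) τ
  h : ∀ τ : ℝ, ‖ph0 β g m (zj (5 / 8) τ)‖ ≤ A
  s : ∀ τ : ℝ, ‖ph0 (4 / 3) g0 m (zj (-(11 / 8)) τ)‖ ≤ A * cut (Real.log k) ep (-1) τ

/-- one body functions and kernels at rows and ends `0` -/
structure IsK (K : PBQ.KD) (m : ℕ) (c c' : ℂ) (β : ℝ) (g g' g0 g0' : ℂ → ℂ) : Prop where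
  zX : K.Z true = XZ c β g g0 m
  zY : K.Z false = XZ c' β g' g0' m
  kF : K.kF = KF0 m
  kF' : K.kF' = KF0 m
  kP : K.kP = KP0 c' β g' g0' m
  kP' : K.kP' = KP0 c β g g0 m

/-- the data with rows and ends `0` -/
def RZ (m : ℕ) (c c' : ℂ) (β : ℝ) (g g' g0 g0' : ℂ → ℂ) : PBX.RD m :=
  ⟨c, c', β, fun _ => 0, fun _ => 0, 0, 0, g, g', g0, g0'⟩

/-- one body functions and kernels of the data -/
def KRD {m : ℕ} (D : PBX.RD m) : PBQ.KD := ⟨fun a => if a then D.X else D.Y, D.KF, D.KP, D.KF', D.KP'⟩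

theorem isK_RD (m : ℕ) (c c' : ℂ) (β : ℝ) (g g' g0 g0' : ℂ → ℂ) :
    IsK (KRD (RZ m c c' β g g' g0 g0')) m c c' β g g' g0 g0' :=
  ⟨rfl, rfl, rfl, rfl, rfl, rfl⟩

/-- the constant of the host string -/
def cH : ℝ := ‖(2 * Real.pi * NURow.rD (2 * NUP1.l) * NUP1.Bd.wt .S : ℂ)‖

/-! ### one species -/

/-- the six bounds of one species (`c, g, g0` own, `c', g', g0'` other) -/
structure OwnB (C : ℝ) (m : ℕ) (c c' : ℂ) (β : ℝ) (g g0 g' g0' : ℂ → ℂ) (ep A : ℝ) : Prop where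
  W : ∀ τ, ‖KF0 m (zj (5 / 4) τ)‖ * Real.exp (((m + 1 : ℕ) : ℝ) * MF0 .w (zj (5 / 4) τ)) ≤
    C * Real.exp (-|τ|)
  F : ∀ τ, ‖KF0 m (zj (-(11 / 4)) τ)‖ *
    Real.exp (((m + 1 : ℕ) : ℝ) * MF0 .w (zj (-(11 / 4)) τ)) ≤
    C * Real.exp (-|τ|) * Real.exp (-(((m + 1 : ℕ) : ℝ) * Ag (3 / 4) τ))
  P : ∀ τ, ‖KP0 c' β g' g0' m (zj (-(11 / 4)) τ)‖ *
    Real.exp (((m + 1 : ℕ) : ℝ) * MF0 .p (zj (-(11 / 4)) τ)) ≤
    C * A * Real.exp (-|τ|) * cut (Real.log (m + 1 : ℕ)) ep (-1) τ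
  Hs : ∀ τ, ‖XZ c' β g' g0' m (some .S) (zj (5 / 8) τ - 2 * NUP1.l)‖ * ‖KF0 m (zj (5 / 8) τ)‖ *
    Real.exp (((m + 1 : ℕ) : ℝ) * MF0 .hs (zj (5 / 8) τ)) ≤
    C * A * Real.exp (-|τ|) * cut (Real.log (m + 1 : ℕ)) ep (-1) τ *
      Real.exp (-(((m + 1 : ℕ) : ℝ) * Ag (3 / 8) τ))
  Hp : ∀ τ, ‖XZ c' β g' g0' m (some .S) (zj (5 / 8) τ - 2 * NUP1.l)‖ * ‖KF0 m (zj (5 / 8) τ)‖ *
    ‖XZ c β g g0 m none (zj (5 / 8) τ)‖ *
    Real.exp (((m + 1 : ℕ) : ℝ) * MF0 .hp (zj (5 / 8) τ)) ≤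
    C * (A * A) * Real.exp (-|τ|) * cut (Real.log (m + 1 : ℕ)) ep (-1) τ

lemma gz_lin {p a : ℝ} (h : Gz p) (n : ℤ) (ha : a = p + n) : Lin (fun t => ls a t) 1 := by
  rw [ha]
  exact lin_ls (h.sn n)

theorem exists_ownB : ∃ C : ℝ, 0 < C ∧ ∀ (m : ℕ) (c c' : ℂ) (β : ℝ) (g g0 g' g0' : ℂ → ℂ)
    (ep A : ℝ), ‖c‖ ≤ 2 → ‖c'‖ ≤ 2 → 0 ≤ A → CutB m (m + 1) ep A β g g0 →
    CutB m (m + 1) ep A β g' g0' → OwnB C m c c' β g g0 g' g0' ep A := by
  have l1 := gz_lin gz_W (-2) (a := -(3 / 4)) (by norm_num)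
  have l2 := gz_lin gz_F (-2) (a := -(19 / 4)) (by norm_num)
  have l3 := gz_lin gz_Q 0 (a := 1 / 4) (by norm_num)
  have l4 := gz_lin gz_F 1 (a := -(7 / 4)) (by norm_num)
  have l5 := gz_lin gz_S (-3) (a := -(19 / 8)) (by norm_num)
  have l6 := gz_lin gz_S (-4) (a := -(27 / 8)) (by norm_num)
  have l7 := gz_lin gz_S 3 (a := 29 / 8) (by norm_num)
  have l8 := gz_lin gz_S 0 (a := 5 / 8) (by norm_num)
  have l9 := gz_lin gz_S (-2) (a := -(11 / 8)) (by norm_num)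
  obtain ⟨C1, h1, b1⟩ := ((l1.smul (-1)).congr (g := fun t => -ls (-(3 / 4)) t) (c' := -1)
    (fun t => by ring) (by norm_num)).exp_le
  obtain ⟨C2, h2, b2⟩ := ((l2.smul (-1)).congr (g := fun t => -ls (-(19 / 4)) t) (c' := -1)
    (fun t => by ring) (by norm_num)).exp_le
  obtain ⟨C3, h3, b3⟩ := (((l3.add (l2.smul (-1))).add (l4.smul (-1))).congr
    (g := fun t => ls (1 / 4) t - ls (-(19 / 4)) t - ls (-(7 / 4)) t) (c' := -1)
    (fun t => by ring) (by norm_num)).exp_le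
  obtain ⟨C4, h4, b4⟩ := (((l5.add (l6.smul (-1))).add (l7.smul (-1))).congr
    (g := fun t => ls (-(19 / 8)) t - ls (-(27 / 8)) t - ls (29 / 8) t) (c' := -1)
    (fun t => by ring) (by norm_num)).exp_le
  obtain ⟨C5, h5, b5⟩ := (((((l8.add (l9.smul (-1))).add l5).add (l6.smul (-1))).add
    (l7.smul (-1))).congr (g := fun t => ls (5 / 8) t - ls (-(11 / 8)) t + ls (-(19 / 8)) t -
      ls (-(27 / 8)) t - ls (29 / 8) t) (c' := -1)
    (fun t => by ring) (by norm_num)).exp_le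
  have hs := sin2l_pos
  have hs1 := sin1l_pos
  set S := Real.sin (2 * l) with hS
  set S1 := Real.sin l with hS1
  set C0 := S * C1 + S * C2 + S1 * 2 * C3 + S * 4 * C4 + S * 4 * 2 * C5 with hC0
  have p1 : 0 < S * C1 := by positivity
  have p2 : 0 < S * C2 := by positivity
  have p3 : 0 < S1 * 2 * C3 := by positivity
  have p4 : 0 < S * 4 * C4 := by positivity
  have p5 : 0 < S * 4 * 2 * C5 := by positivity
  refine ⟨C0, by positivity, fun m c c' β g g0 g' g0' ep A hc hc' hA H H' => ?_⟩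
  have hc2 : ‖c'‖ ^ 2 ≤ 4 := by nlinarith [norm_nonneg c']
  have k0 : ∀ τ, 0 ≤ cut (Real.log (m + 1 : ℕ)) ep (-1) τ := fun τ => cut_nonneg _ _ _ _
  refine ⟨fun τ => ?_, fun τ => ?_, fun τ => ?_, fun τ => ?_, fun τ => ?_⟩
  · rw [own_W]
    have := b1 τ
    rw [neg_one_mul] at this
    calc S * Real.exp (-ls (-(3 / 4)) τ) ≤ S * (C1 * Real.exp (-|τ|)) :=
          mul_le_mul_of_nonneg_left this hs.le
      _ = S * C1 * Real.exp (-|τ|) := by ring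
      _ ≤ _ := mul_le_mul_of_nonneg_right (by linarith) (Real.exp_pos _).le
  · rw [own_F]
    have := b2 τ
    rw [neg_one_mul] at this
    refine mul_le_mul_of_nonneg_right ?_ (Real.exp_pos _).le
    calc S * Real.exp (-ls (-(19 / 4)) τ) ≤ S * (C2 * Real.exp (-|τ|)) :=
          mul_le_mul_of_nonneg_left this hs.le
      _ = S * C2 * Real.exp (-|τ|) := by ring
      _ ≤ _ := mul_le_mul_of_nonneg_right (by linarith) (Real.exp_pos _).le
  · rw [own_P]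
    have := b3 τ
    rw [neg_one_mul] at this
    have q := H'.q τ
    have k := k0 τ
    calc S1 * ‖c'‖ * Real.exp (ls (1 / 4) τ - ls (-(19 / 4)) τ - ls (-(7 / 4)) τ) *
          ‖ph0 β g' m (zj (1 / 4) τ)‖ ≤ S1 * 2 * (C3 * Real.exp (-|τ|)) *
          (A * cut (Real.log (m + 1 : ℕ)) ep (-1) τ) := by gcongr
      _ = S1 * 2 * C3 * (A * Real.exp (-|τ|) * cut (Real.log (m + 1 : ℕ)) ep (-1) τ) := by ring
      _ ≤ C0 * (A * Real.exp (-|τ|) * cut (Real.log (m + 1 : ℕ)) ep (-1) τ) :=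
          mul_le_mul_of_nonneg_right (by linarith) (by positivity)
      _ = _ := by ring
  · rw [own_Hs]
    have := b4 τ
    rw [neg_one_mul] at this
    have q := H'.s τ
    have k := k0 τ
    calc S * ‖c'‖ ^ 2 * Real.exp (ls (-(19 / 8)) τ - ls (-(27 / 8)) τ - ls (29 / 8) τ) *
          Real.exp (-(((m + 1 : ℕ) : ℝ) * Ag (3 / 8) τ)) *
          ‖ph0 (4 / 3) g0' m (zj (-(11 / 8)) τ)‖ ≤ S * 4 * (C4 * Real.exp (-|τ|)) *
          Real.exp (-(((m + 1 : ℕ) : ℝ) * Ag (3 / 8) τ)) *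
          (A * cut (Real.log (m + 1 : ℕ)) ep (-1) τ) := by gcongr
      _ = S * 4 * C4 * (A * Real.exp (-|τ|) * cut (Real.log (m + 1 : ℕ)) ep (-1) τ *
          Real.exp (-(((m + 1 : ℕ) : ℝ) * Ag (3 / 8) τ))) := by ring
      _ ≤ C0 * (A * Real.exp (-|τ|) * cut (Real.log (m + 1 : ℕ)) ep (-1) τ *
          Real.exp (-(((m + 1 : ℕ) : ℝ) * Ag (3 / 8) τ))) :=
          mul_le_mul_of_nonneg_right (by linarith) (by positivity)
      _ = _ := by ring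
  · rw [own_Hp]
    have := b5 τ
    rw [neg_one_mul] at this
    have q := H'.s τ
    have q2 := H.h τ
    have k := k0 τ
    calc S * ‖c'‖ ^ 2 * ‖c‖ * Real.exp (ls (5 / 8) τ - ls (-(11 / 8)) τ + ls (-(19 / 8)) τ -
            ls (-(27 / 8)) τ - ls (29 / 8) τ) *
          ‖ph0 (4 / 3) g0' m (zj (-(11 / 8)) τ)‖ * ‖ph0 β g m (zj (5 / 8) τ)‖ ≤
          S * 4 * 2 * (C5 * Real.exp (-|τ|)) *
          (A * cut (Real.log (m + 1 : ℕ)) ep (-1) τ) * A := by gcongr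
      _ = S * 4 * 2 * C5 * ((A * A) * Real.exp (-|τ|) * cut (Real.log (m + 1 : ℕ)) ep (-1) τ) := by
          ring
      _ ≤ C0 * ((A * A) * Real.exp (-|τ|) * cut (Real.log (m + 1 : ℕ)) ep (-1) τ) :=
          mul_le_mul_of_nonneg_right (by linarith) (by positivity)
      _ = _ := by ring

/-! ### `OwnLe` -/

/-- the gain of a type -/
def gT (k : ℕ) (t : HT) (i : Bool) (τ : ℝ) : ℝ :=
  match t, i with
  | .F, _ => Real.exp (-((k : ℝ) * Ag (3 / 4) τ))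
  | .H, false => Real.exp (-((k : ℝ) * Ag (3 / 8) τ))
  | _, _ => 1

theorem gT_le_one (k : ℕ) (t : HT) (i : Bool) (τ : ℝ) : gT k t i τ ≤ 1 := by
  have h : ∀ a : ℝ, 0 ≤ a → a < 1 → Real.exp (-((k : ℝ) * Ag a τ)) ≤ 1 := by
    intro a h0 h1
    rw [Real.exp_le_one_iff]
    have := mul_nonneg (Nat.cast_nonneg (α := ℝ) k) (NUMF.Ag_nonneg h0 h1 τ)
    linarith
  cases t <;> cases i <;> unfold gT <;>
    first | exact le_rfl | exact h _ (by norm_num) (by norm_num)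

theorem gT_pos (k : ℕ) (t : HT) (i : Bool) (τ : ℝ) : 0 < gT k t i τ := by
  cases t <;> cases i <;> unfold gT <;> first | exact one_pos | exact Real.exp_pos _

/-- one species and one type -/
theorem own_all {C : ℝ} (hC : 0 < C) {m : ℕ} {c c' : ℂ} {β : ℝ} {g g0 g' g0' : ℂ → ℂ} {ep A : ℝ}
    (hA : 1 ≤ A) (B : OwnB C m c c' β g g0 g' g0' ep A) (t : HT) (i : Bool)
    (hi : i = true → htP t = true) (τ : ℝ) :
    ‖NUGC.ownK (KF0 m) (KP0 c' β g' g0' m) (XZ c' β g' g0' m) t (NUP1.vl (htL t) τ)‖ *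
      (if i then ‖XZ c β g g0 m none (NUP1.vl (htL t) τ) * NUGC.hR1 0‖ else 1) *
      Real.exp (((m + 1 : ℕ) : ℝ) * MF0 (clh t i) (NUP1.vl (htL t) τ)) ≤
      C * (1 + cH) * (1 + ‖NUGC.hR1 0‖) * (A * A) * Real.exp (-|τ|) *
        cut (Real.log (m + 1 : ℕ)) ep (qh t i) τ * gT (m + 1) t i τ := by
  have hH : 0 ≤ cH := norm_nonneg _
  have hR : 0 ≤ ‖NUGC.hR1 0‖ := norm_nonneg _
  have hE := Real.exp_pos (-|τ|)
  have hAA : A ≤ A * A := by nlinarith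
  have hAA1 : 1 ≤ A * A := by nlinarith
  have key : ∀ (X D : ℝ), 0 ≤ D → X ≤ C * D → X ≤ C * (1 + cH) * (1 + ‖NUGC.hR1 0‖) * D := by
    intro X D hD h
    refine h.trans ?_
    have h1 : (1 : ℝ) ≤ (1 + cH) * (1 + ‖NUGC.hR1 0‖) := by nlinarith
    have h2 := mul_le_mul_of_nonneg_left h1 (mul_nonneg hC.le hD)
    nlinarith
  cases t
  · -- W
    cases i
    · have e : qh .W false = 1 := rfl
      have e1 : cut (Real.log (m + 1 : ℕ)) ep 1 τ = 1 := if_pos rfl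
      have h := B.W τ
      rw [e, e1, mul_one]
      show ‖KF0 m (zj (5 / 4) τ)‖ * 1 * Real.exp (((m + 1 : ℕ) : ℝ) * MF0 .w (zj (5 / 4) τ)) ≤
        C * (1 + cH) * (1 + ‖NUGC.hR1 0‖) * (A * A) * Real.exp (-|τ|) * 1
      rw [mul_one, mul_one, mul_assoc _ (A * A)]
      refine key _ _ (by positivity) (h.trans ?_)
      refine mul_le_mul_of_nonneg_left ?_ hC.le
      nlinarith
    · exact absurd (hi rfl) (by simp [htP])
  · -- F
    cases i
    · have e : qh .F false = 1 := rfl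
      have e1 : cut (Real.log (m + 1 : ℕ)) ep 1 τ = 1 := if_pos rfl
      have h := B.F τ
      rw [e, e1, mul_one]
      show ‖KF0 m (zj (-(11 / 4)) τ)‖ * 1 *
        Real.exp (((m + 1 : ℕ) : ℝ) * MF0 .w (zj (-(11 / 4)) τ)) ≤
        C * (1 + cH) * (1 + ‖NUGC.hR1 0‖) * (A * A) * Real.exp (-|τ|) *
          Real.exp (-(((m + 1 : ℕ) : ℝ) * Ag (3 / 4) τ))
      set G := Real.exp (-(((m + 1 : ℕ) : ℝ) * Ag (3 / 4) τ)) with hG
      have hG0 : 0 < G := Real.exp_pos _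
      rw [mul_one, mul_assoc _ (A * A), mul_assoc _ _ G]
      refine key _ _ (by positivity) (h.trans ?_)
      rw [mul_assoc]
      refine mul_le_mul_of_nonneg_left ?_ hC.le
      have h2 : 0 < Real.exp (-|τ|) * G := by positivity
      nlinarith
    · exact absurd (hi rfl) (by simp [htP])
  · -- P
    cases i
    · have e : qh .P false = -1 := rfl
      have h := B.P τ
      rw [e]
      show ‖KP0 c' β g' g0' m (zj (-(11 / 4)) τ)‖ * 1 *
        Real.exp (((m + 1 : ℕ) : ℝ) * MF0 .p (zj (-(11 / 4)) τ)) ≤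
        C * (1 + cH) * (1 + ‖NUGC.hR1 0‖) * (A * A) * Real.exp (-|τ|) *
          cut (Real.log (m + 1 : ℕ)) ep (-1) τ * 1
      have k := cut_nonneg (Real.log (m + 1 : ℕ)) ep (-1) τ
      set G := cut (Real.log (m + 1 : ℕ)) ep (-1) τ with hG
      rw [mul_one, mul_one, mul_assoc _ (A * A), mul_assoc _ _ G]
      refine key _ _ (by positivity) (h.trans ?_)
      rw [mul_assoc C, mul_assoc C]
      refine mul_le_mul_of_nonneg_left ?_ hC.le
      have h2 : 0 ≤ Real.exp (-|τ|) * G := by positivity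
      nlinarith
    · exact absurd (hi rfl) (by simp [htP])
  · -- H
    have e0 : ∀ w : ℂ, ‖NUGC.ownK (KF0 m) (KP0 c' β g' g0' m) (XZ c' β g' g0' m) .H w‖ =
        cH * (‖XZ c' β g' g0' m (some .S) (w - 2 * NUP1.l)‖ * ‖KF0 m w‖) := by
      intro w
      show ‖-(2 * Real.pi * NURow.rD (2 * NUP1.l) * NUP1.Bd.wt .S *
        XZ c' β g' g0' m (some .S) (w - 2 * NUP1.l)) * KF0 m w‖ = _
      rw [norm_mul, norm_neg, norm_mul]
      unfold cH
      ring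
    cases i
    · have e : cut (Real.log (m + 1 : ℕ)) ep (qh .H false) τ =
          cut (Real.log (m + 1 : ℕ)) ep (-1) τ := by
        have : qh .H false = -3 := rfl
        rw [this]
        unfold NUGC.cut
        rw [if_neg (by norm_num), if_neg (by norm_num)]
      have h := B.Hs τ
      rw [e, e0]
      show cH * (‖XZ c' β g' g0' m (some .S) (zj (5 / 8) τ - 2 * NUP1.l)‖ *
        ‖KF0 m (zj (5 / 8) τ)‖) * 1 * Real.exp (((m + 1 : ℕ) : ℝ) * MF0 .hs (zj (5 / 8) τ)) ≤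
        C * (1 + cH) * (1 + ‖NUGC.hR1 0‖) * (A * A) * Real.exp (-|τ|) *
          cut (Real.log (m + 1 : ℕ)) ep (-1) τ * Real.exp (-(((m + 1 : ℕ) : ℝ) * Ag (3 / 8) τ))
      have k := cut_nonneg (Real.log (m + 1 : ℕ)) ep (-1) τ
      set G := cut (Real.log (m + 1 : ℕ)) ep (-1) τ with hG
      set F := Real.exp (-(((m + 1 : ℕ) : ℝ) * Ag (3 / 8) τ)) with hF
      have hF0 : 0 < F := Real.exp_pos _
      set U := ‖XZ c' β g' g0' m (some .S) (zj (5 / 8) τ - 2 * NUP1.l)‖ *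
        ‖KF0 m (zj (5 / 8) τ)‖ * Real.exp (((m + 1 : ℕ) : ℝ) * MF0 .hs (zj (5 / 8) τ)) with hU
      calc cH * (‖XZ c' β g' g0' m (some .S) (zj (5 / 8) τ - 2 * NUP1.l)‖ *
            ‖KF0 m (zj (5 / 8) τ)‖) * 1 * Real.exp (((m + 1 : ℕ) : ℝ) * MF0 .hs (zj (5 / 8) τ))
          = cH * U := by rw [hU]; ring
        _ ≤ cH * (C * A * Real.exp (-|τ|) * G * F) := mul_le_mul_of_nonneg_left h hH
        _ = C * cH * (A * (Real.exp (-|τ|) * G * F)) := by ring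
        _ ≤ C * ((1 + cH) * (1 + ‖NUGC.hR1 0‖)) * ((A * A) * (Real.exp (-|τ|) * G * F)) := by
            have h1 : cH ≤ (1 + cH) * (1 + ‖NUGC.hR1 0‖) := by nlinarith
            have h2 : 0 ≤ Real.exp (-|τ|) * G * F := by positivity
            gcongr
        _ = _ := by ring
    · have e : cut (Real.log (m + 1 : ℕ)) ep (qh .H true) τ =
          cut (Real.log (m + 1 : ℕ)) ep (-1) τ := rfl
      have h := B.Hp τ
      rw [e, e0]
      show cH * (‖XZ c' β g' g0' m (some .S) (zj (5 / 8) τ - 2 * NUP1.l)‖ *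
        ‖KF0 m (zj (5 / 8) τ)‖) * ‖XZ c β g g0 m none (zj (5 / 8) τ) * NUGC.hR1 0‖ *
        Real.exp (((m + 1 : ℕ) : ℝ) * MF0 .hp (zj (5 / 8) τ)) ≤
        C * (1 + cH) * (1 + ‖NUGC.hR1 0‖) * (A * A) * Real.exp (-|τ|) *
          cut (Real.log (m + 1 : ℕ)) ep (-1) τ * 1
      have k := cut_nonneg (Real.log (m + 1 : ℕ)) ep (-1) τ
      set G := cut (Real.log (m + 1 : ℕ)) ep (-1) τ with hG
      set U := ‖XZ c' β g' g0' m (some .S) (zj (5 / 8) τ - 2 * NUP1.l)‖ *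
        ‖KF0 m (zj (5 / 8) τ)‖ * ‖XZ c β g g0 m none (zj (5 / 8) τ)‖ *
        Real.exp (((m + 1 : ℕ) : ℝ) * MF0 .hp (zj (5 / 8) τ)) with hU
      calc cH * (‖XZ c' β g' g0' m (some .S) (zj (5 / 8) τ - 2 * NUP1.l)‖ *
            ‖KF0 m (zj (5 / 8) τ)‖) * ‖XZ c β g g0 m none (zj (5 / 8) τ) * NUGC.hR1 0‖ *
            Real.exp (((m + 1 : ℕ) : ℝ) * MF0 .hp (zj (5 / 8) τ))
          = cH * ‖NUGC.hR1 0‖ * U := by rw [hU, norm_mul]; ring
        _ ≤ cH * ‖NUGC.hR1 0‖ * (C * (A * A) * Real.exp (-|τ|) * G) :=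
            mul_le_mul_of_nonneg_left h (by positivity)
        _ = C * (cH * ‖NUGC.hR1 0‖) * ((A * A) * (Real.exp (-|τ|) * G)) := by ring
        _ ≤ C * ((1 + cH) * (1 + ‖NUGC.hR1 0‖)) * ((A * A) * (Real.exp (-|τ|) * G)) := by
            have h1 : cH * ‖NUGC.hR1 0‖ ≤ (1 + cH) * (1 + ‖NUGC.hR1 0‖) := by nlinarith
            have h2 : 0 ≤ Real.exp (-|τ|) * G := by positivity
            gcongr
        _ = _ := by ring

/-- **the own factors with the sea term, rows and ends `0`, with the gains** -/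
theorem ownG0 : ∃ C : ℝ, 0 < C ∧ ∀ (K : PBQ.KD) (m : ℕ) (c c' : ℂ) (β : ℝ) (g g' g0 g0' : ℂ → ℂ)
    (ep A : ℝ), IsK K m c c' β g g' g0 g0' → ‖c‖ ≤ 2 → ‖c'‖ ≤ 2 → 1 ≤ A →
    CutB m (m + 1) ep A β g g0 → CutB m (m + 1) ep A β g' g0' →
    ∀ (a : Bool) (t : HT) (i : Bool), (i = true → htP t = true) → ∀ τ : ℝ,
      K.own a t i (NUP1.vl (htL t) τ) *
        Real.exp (((m + 1 : ℕ) : ℝ) * MF0 (clh t i) (NUP1.vl (htL t) τ)) ≤
      C * (A * A) * Real.exp (-|τ|) * cut (Real.log (m + 1 : ℕ)) ep (qh t i) τ *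
        gT (m + 1) t i τ := by
  obtain ⟨C, hC, H⟩ := exists_ownB
  have hH : 0 ≤ cH := norm_nonneg _
  have hR : 0 ≤ ‖NUGC.hR1 0‖ := norm_nonneg _
  refine ⟨C * (1 + cH) * (1 + ‖NUGC.hR1 0‖), by positivity,
    fun K m c c' β g g' g0 g0' ep A hK hc hc' hA h h' a t i hi τ => ?_⟩
  have hA0 : 0 ≤ A := by linarith
  cases a
  · have B := H m c' c β g' g0' g g0 ep A hc' hc hA0 h' h
    have := own_all hC hA B t i hi τ
    unfold PBQ.KD.own PBQ.KD.ownZ PBQ.KD.ownQ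
    simp only [Bool.false_eq_true, if_false]
    rw [hK.zX, hK.zY, hK.kF', hK.kP']
    exact this
  · have B := H m c c' β g g0 g' g0' ep A hc hc' hA0 h h'
    have := own_all hC hA B t i hi τ
    unfold PBQ.KD.own PBQ.KD.ownZ PBQ.KD.ownQ
    simp only [if_true]
    rw [hK.zX, hK.zY, hK.kF, hK.kP]
    exact this

/-- **`OwnLe` at rows and ends `0`** -/
theorem ownLe0 : ∃ C : ℝ, 0 < C ∧ ∀ (K : PBQ.KD) (m : ℕ) (c c' : ℂ) (β : ℝ) (g g' g0 g0' : ℂ → ℂ)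
    (ep A : ℝ), IsK K m c c' β g g' g0 g0' → ‖c‖ ≤ 2 → ‖c'‖ ≤ 2 → 1 ≤ A →
    CutB m (m + 1) ep A β g g0 → CutB m (m + 1) ep A β g' g0' →
    K.OwnLe MF0 (m + 1) ep (C * (A * A)) := by
  obtain ⟨C, hC, H⟩ := ownG0
  refine ⟨C, hC, fun K m c c' β g g' g0 g0' ep A hK hc hc' hA h h' a t i hi τ => ?_⟩
  refine (H K m c c' β g g' g0 g0' ep A hK hc hc' hA h h' a t i hi τ).trans ?_
  refine mul_le_of_le_one_right ?_ (gT_le_one _ _ _ _)
  have := cut_nonneg (Real.log (m + 1 : ℕ)) ep (qh t i) τ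
  have h2 := Real.exp_pos (-|τ|)
  have h3 : 0 ≤ A * A := mul_self_nonneg A
  positivity

/-- **`OwnDLe` at rows and ends `0`** -/
theorem ownDLe0 : ∃ C : ℝ, 0 < C ∧ ∀ (m : ℕ), PBQ.OwnDLe (fun _ => XD0 m) MF0 (m + 1) C := by
  have l2 := gz_lin gz_F (-2) (a := -(19 / 4)) (by norm_num)
  have l4 := gz_lin gz_F 1 (a := -(7 / 4)) (by norm_num)
  obtain ⟨C, hC, b⟩ := (((l4.smul (-1)).add (l2.smul (-1))).congr
    (g := fun t => -ls (-(7 / 4)) t - ls (-(19 / 4)) t) (c' := -2)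
    (fun t => by ring) (by norm_num)).exp_le
  have hs := sin2l_pos
  refine ⟨Real.sin (2 * l) ^ 2 * C, by positivity, fun m o τ => ?_⟩
  show ‖XD0 m (zj (-(11 / 4)) τ)‖ *
    Real.exp (((m + 1 : ℕ) : ℝ) * MF0 .d (zj (-(11 / 4)) τ)) ≤ _
  rw [own_D, mul_assoc]
  exact mul_le_mul_of_nonneg_left (b τ) (by positivity)

/-- the gain of the type `F` -/
theorem gain_F : ∃ c : ℝ, 0 < c ∧ ∀ (k : ℕ) (τ : ℝ), Real.exp (-((k : ℝ) * Ag (3 / 4) τ)) ≤
    Real.exp (-(c * k * Real.exp (-(8 / 3) * |τ|))) := by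
  have hl := l_pos
  have hs : 0 < Real.sin (8 / 3 * (3 / 4 * l)) := by
    refine Real.sin_pos_of_pos_of_lt_pi (by positivity) ?_
    rw [← NUHM.l8]
    linarith
  refine ⟨6 / (7 * √3) * Real.sin (8 / 3 * (3 / 4 * l)), by positivity, fun k τ => ?_⟩
  rw [Real.exp_le_exp]
  have h := NUMF.Ag_ge (a := 3 / 4) (by norm_num) (by norm_num) τ
  have hk : (0 : ℝ) ≤ k := Nat.cast_nonneg k
  have := mul_le_mul_of_nonneg_left h hk
  linarith

/-! ### the cutoffs over `0^(m + j)` -/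

/-- the power of `psi` -/
theorem ph0_gP (β : ℝ) (j m : ℕ) (u : ℂ) :
    ph0 β (PBX.gP β (List.replicate j 0)) m u = 1 - NUP1.psi β u ^ (m + j) := by
  unfold ph0 PBX.ph PBX.gP
  rw [List.map_replicate, List.prod_replicate]
  simp only [sub_zero, Finset.prod_const, Finset.card_univ, Fintype.card_fin]
  rw [pow_add]

theorem phn_le {β : ℝ} (h0 : 0 < β) (h1 : β ≤ 4 / 3) {v : ℝ} (hv : -2 ≤ v) (hv' : v ≤ 1)
    (n : ℕ) (τ : ℝ) : ‖1 - NUP1.psi β (zj v τ) ^ n‖ ≤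
      8 * min 1 (n * Real.exp (-(2 * β) * |τ|)) := by
  have hl := l_pos
  have r1 : |(zj v τ).re + NUP1.l / 2| ≤ 3 * NUP1.l / 2 := by
    rw [zj_re, show (NUP1.l : ℝ) = l from rfl, abs_le]
    constructor <;> nlinarith
  have a1 := NUGC.psi_le_one' h0 h1 r1
  have b1 := NUGC.one_sub_psi' h0 h1 r1
  rw [zj_im] at b1
  have d1 : ‖1 - NUP1.psi β (zj v τ) ^ n‖ ≤ n * (8 * Real.exp (-(2 * β) * |τ|)) :=
    (NUO.norm_one_sub_pow_le a1 n).trans (mul_le_mul_of_nonneg_left b1 (Nat.cast_nonneg n))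
  have d2 : ‖1 - NUP1.psi β (zj v τ) ^ n‖ ≤ 8 := by
    refine (norm_sub_le _ _).trans ?_
    rw [norm_one, norm_pow]
    have := pow_le_one₀ (n := n) (norm_nonneg _) a1
    linarith
  rcases le_total 1 (n * Real.exp (-(2 * β) * |τ|)) with h | h
  · rw [min_eq_left h, mul_one]
    exact d2
  · rw [min_eq_right h]
    calc _ ≤ _ := d1
      _ = _ := by ring

/-- the cutoff in terms of `log k` -/
lemma min_cut0 {ep : ℝ} {k n : ℕ} (hk : 0 < k) {A : ℝ} (hA : 1 ≤ A) (hn : (n : ℝ) ≤ A * k) (τ : ℝ) :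
    min 1 ((n : ℝ) * Real.exp (-(8 / 3 * (1 - ep)) * |τ|)) ≤ A * cut (Real.log k) ep (-1) τ := by
  unfold NUGC.cut
  rw [if_neg (by norm_num)]
  have hk' : (0:ℝ) < k := by exact_mod_cast hk
  rw [show Real.log (k : ℝ) - 8 / 3 * (1 - ep) * |τ| = Real.log k +
    -(8 / 3 * (1 - ep)) * |τ| by ring, Real.exp_add, Real.exp_log hk']
  set E := Real.exp (-(8 / 3 * (1 - ep)) * |τ|) with hE
  have hE0 : 0 < E := Real.exp_pos _
  rcases le_total 1 ((k : ℝ) * E) with h | h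
  · rw [min_eq_left h, mul_one]
    exact (min_le_left _ _).trans hA
  · rw [min_eq_right h]
    refine (min_le_right _ _).trans ?_
    calc (n : ℝ) * E ≤ A * k * E := mul_le_mul_of_nonneg_right hn hE0.le
      _ = _ := by ring

/-- **`CutB` for the cutoffs over `0^(m + j)`** -/
theorem cutB0 {ep : ℝ} (h0 : 0 ≤ ep) (h1 : ep < 1) (m j : ℕ) :
    CutB m (m + 1) ep (8 * (j + 1)) (4 / 3 * (1 - ep))
      (PBX.gP (4 / 3 * (1 - ep)) (List.replicate j 0)) (PBX.gP (4 / 3) (List.replicate j 0)) := by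
  have hβ : 0 < 4 / 3 * (1 - ep) := by linarith
  have hβ' : 4 / 3 * (1 - ep) ≤ 4 / 3 := by linarith
  have hj : (0 : ℝ) ≤ j := Nat.cast_nonneg j
  have hm : (0 : ℝ) ≤ m := Nat.cast_nonneg m
  have hn : ((m + j : ℕ) : ℝ) ≤ (j + 1 : ℝ) * ((m + 1 : ℕ) : ℝ) := by
    push_cast
    nlinarith [mul_nonneg hj hm]
  refine ⟨fun τ => ?_, fun τ => ?_, fun τ => ?_⟩
  · rw [ph0_gP]
    refine (phn_le hβ hβ' (by norm_num) (by norm_num) _ τ).trans ?_
    have h := min_cut0 (ep := ep) (k := m + 1) (n := m + j) (Nat.succ_pos m) (A := (j + 1 : ℝ))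
      (by linarith) hn τ
    rw [show -(2 * (4 / 3 * (1 - ep))) * |τ| = -(8 / 3 * (1 - ep)) * |τ| by ring]
    linarith
  · rw [ph0_gP]
    refine (phn_le hβ hβ' (by norm_num) (by norm_num) _ τ).trans ?_
    have := min_le_left (1 : ℝ) (((m + j : ℕ) : ℝ) * Real.exp (-(2 * (4 / 3 * (1 - ep))) * |τ|))
    linarith
  · rw [ph0_gP]
    refine (phn_le (by norm_num) le_rfl (by norm_num) (by norm_num) _ τ).trans ?_
    have h := min_cut0 (ep := ep) (k := m + 1) (n := m + j) (Nat.succ_pos m) (A := (j + 1 : ℝ))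
      (by linarith) hn τ
    have h2 : min 1 (((m + j : ℕ) : ℝ) * Real.exp (-(2 * (4 / 3 : ℝ)) * |τ|)) ≤
        min 1 (((m + j : ℕ) : ℝ) * Real.exp (-(8 / 3 * (1 - ep)) * |τ|)) := by
      refine min_le_min le_rfl (mul_le_mul_of_nonneg_left (Real.exp_le_exp.2 ?_)
        (Nat.cast_nonneg _))
      have := abs_nonneg τ
      nlinarith
    linarith

end

end PB0
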