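import Pool.Agent.PB.Oth0
import Pool.Agent.PB.BsG0
import Pool.Agent.PB.OwnLe0
import Pool.Agent.NUSea.Inst

/-!
# The classes at rows `0`, ends `0` belong to the geometry of the rows `0`

`DX ex ex0 ep k`: the data with `k` effective rows (`k - 1` rows `0` in each group, ends `0`, cutoffs over
the rows and the points `ex` (quanta), `ex0` (strings), exponent `beC ep`); `KX`: its 16 classes; `kDX`: the
kernels of D1, D1'.

* `CutOk ex ex0`: the bounds of the cutoffs (45's `CutB`);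
* **`clOk0`**: `ClOk G (KX ex ex0) (kDX ex ex0)` for every geometry with the one body data `ob0` and the
  mean field values `MF0`.
-/

set_option autoImplicit false
set_option linter.unusedSectionVars false

noncomputable section

open Complex MeasureTheory Finset
open scoped ENNReal

namespace PBO

open NUO NUP1 NUCR NUP1S NURow NUGC

/-- the data with `k` effective rows `0` -/
def DX (ex ex0 : List ℂ) (ep : ℝ) (k : ℕ) : PBX.RD (k - 1) := PBX.R0 (k - 1) (beC ep) ex ex0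

/-- the 16 classes -/
def KX (ex ex0 : List ℂ) (ep : ℝ) (k : ℕ) : PBQ.KD := PB0.KRD (DX ex ex0 ep k)

/-- the kernels of D1 (`true`), D1' -/
def kDX (ex ex0 : List ℂ) (ep : ℝ) (k : ℕ) (o : Bool) : ℂ → ℂ :=
  if o then (DX ex ex0 ep k).XD else (DX ex ex0 ep k).XD'

theorem KX_Z (ex ex0 : List ℂ) (ep : ℝ) (k : ℕ) :
    (KX ex ex0 ep k).Z = XB (DX ex ex0 ep k).X (DX ex ex0 ep k).Y := by
  funext a
  cases a <;> rfl

theorem beC_bd {ep : ℝ} (h0 : 0 < ep) (h1 : ep ≤ 1 / 100) :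
    1 < beC ep ∧ beC ep ≤ 4 / 3 ∧ 0 < beC ep := by
  unfold beC
  refine ⟨by linarith, by linarith, by linarith⟩

/-- the bounds of the cutoffs -/
structure CutOk (ex ex0 : List ℂ) : Prop where
  re : ∀ w ∈ ex, |w.re| ≤ NUP1.l / 2
  re0 : ∀ w ∈ ex0, |w.re| ≤ NUP1.l / 2
  cut : ∀ ep : ℝ, 0 < ep → ep ≤ 1 / 100 → ∃ A : ℝ, 1 ≤ A ∧ ∀ m : ℕ,
    PB0.CutB m (m + 1) ep A (beC ep) (PBX.gP (beC ep) ex) (PBX.gP (4 / 3) ex0)

theorem DX_Ok {ex ex0 : List ℂ} (h : CutOk ex ex0) {ep : ℝ} (h0 : 0 < ep) (h1 : ep ≤ 1 / 100)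
    (k : ℕ) : (DX ex ex0 ep k).Ok :=
  PBX.R0_Ok _ (beC_bd h0 h1).2.2 (beC_bd h0 h1).2.1 h.re h.re0

theorem norm_cc_le (m : ℕ) : ‖NUP1.Leg.cc m‖ ≤ 2 := by
  rw [PBX.norm_cc]
  have := Real.cos_le_one NUP1.l
  linarith

theorem isK_X (ex ex0 : List ℂ) (ep : ℝ) (k : ℕ) : PB0.IsK (KX ex ex0 ep k) (k - 1)
    (NUP1.Leg.cc (k - 1)) (NUP1.Leg.cc (k - 1)) (beC ep) (PBX.gP (beC ep) ex)
    (PBX.gP (beC ep) ex) (PBX.gP (4 / 3) ex0) (PBX.gP (4 / 3) ex0) :=
  ⟨rfl, rfl, rfl, rfl, rfl, rfl⟩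

/-- cutoffs over `0 ^ (m + j)` -/
theorem cutOk_rep (j : ℕ) : CutOk (List.replicate j 0) (List.replicate j 0) := by
  have hre : ∀ w ∈ List.replicate j (0 : ℂ), |w.re| ≤ NUP1.l / 2 := by
    intro w hw
    rw [List.eq_of_mem_replicate hw, Complex.zero_re, abs_zero]
    have := Bd.l_pos
    positivity
  refine ⟨hre, hre, fun ep h0 h1 => ⟨8 * (j + 1), ?_, fun m =>
    PB0.cutB0 h0.le (by linarith) m j⟩⟩
  have : (0 : ℝ) ≤ j := Nat.cast_nonneg j
  linarith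

/-- **the classes at rows 0 belong to the geometry of the rows 0** -/
theorem clOk0 {ex ex0 : List ℂ} (hX : CutOk ex ex0) {G : Geo}
    (hB : ∀ k β, G.B k β = PBR.ob0 (k - 1) β ex ex0) (hM : G.MF = PB0.MF0) :
    @ClOk NUSea.seaP G (KX ex ex0) (kDX ex ex0) := by
  letI : NUSea.Sea := NUSea.seaP
  refine ⟨fun ep h0 h1 => ⟨2, fun k hk => ?_⟩, fun ep h0 h1 => ?_, fun ep h0 h1 => ?_,
    fun ep h0 h1 => ?_⟩
  · obtain ⟨b1, b2, b3⟩ := beC_bd h0 h1
    have h := PBR.bs_R0 (m := k - 1) (by omega) b3 b2 hX.re hX.re0 (parC_par0 k) h0 h1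
    refine ⟨_, _, h.congr (fun a u z => ?_) fun g => ?_⟩
    · rw [KX_Z]
      rfl
    · rw [hB]
  · obtain ⟨C, hC, h⟩ := PB0.ownLe0
    obtain ⟨A, hA, hcut⟩ := hX.cut ep h0 h1
    refine ⟨C * (A * A), by positivity, 1, fun k hk => ?_⟩
    have hk1 : k - 1 + 1 = k := by omega
    have h2 := h (KX ex ex0 ep k) (k - 1) _ _ _ _ _ _ _ ep A (isK_X ex ex0 ep k)
      (norm_cc_le _) (norm_cc_le _) hA (hcut (k - 1)) (hcut (k - 1))
    rw [hk1, ← hM] at h2
    exact h2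
  · obtain ⟨C, hC, h⟩ := PB0.ownG0
    obtain ⟨c, hc, hg⟩ := PB0.gain_F
    obtain ⟨A, hA, hcut⟩ := hX.cut ep h0 h1
    refine ⟨C * (A * A), c, by positivity, hc, 1, fun k hk a i hi τ => ?_⟩
    have hk1 : k - 1 + 1 = k := by omega
    have h2 := h (KX ex ex0 ep k) (k - 1) _ _ _ _ _ _ _ ep A (isK_X ex ex0 ep k)
      (norm_cc_le _) (norm_cc_le _) hA (hcut (k - 1)) (hcut (k - 1)) a .F i hi τ
    rw [hk1, ← hM] at h2
    refine h2.trans ?_
    have hq : qh .F i = 1 := by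
      unfold qh
      cases i <;> simp [clh, NUSp.qc]
    have hcut : NUGC.cut (Real.log k) ep (qh .F i) τ = 1 := by
      rw [hq]
      unfold NUGC.cut
      rw [if_pos rfl]
    rw [hcut, mul_one]
    refine mul_le_mul_of_nonneg_left ?_ (by positivity)
    have h3 := hg k τ
    rw [mul_assoc c] at h3
    exact h3
  · obtain ⟨C, hC, h⟩ := PB0.ownDLe0
    refine ⟨C, hC.le, 1, fun k hk => ?_⟩
    have hk1 : k - 1 + 1 = k := by omega
    have h2 := h (k - 1)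
    rw [hk1, ← hM] at h2
    intro o τ
    have h3 := h2 o τ
    cases o
    · exact h3
    · exact h3

end PBO

end
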