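import Pool.Agent.NUGC.QC1
import Pool.Agent.NUGC.CurEx

/-!
# Plan B, the other classes of the regular function: the integrals over the heights with the gain

`gnP`: the gain of the ends and of two groups with phases `φ`, `φ'` against the current `hC`.

* `gnP_nonneg`, `gnP_one`: the gain is nonnegative; at least `(1 - e1) T0 - 6` with one group of
  phase `>= 0` or one group beyond the support of the current;
* `comp_gn`: a composite group pays `(1 - e1) T0 - 9` at every height;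
* `gnP_ww`: two bare half quanta: at least `min |τ| D + min |τ'| D - 16`;
* `int_cls`: the integral of the majorant of a class on a measurable set from bounds of the weight
  near and far;
* `pow_far`, `pow_near`: the powers of `m`;
* **`cls_comp`**, **`cls_F`**, **`cls_ww`**: the three kinds of classes.
-/

set_option autoImplicit false

noncomputable section

open MeasureTheory Set
open scoped ENNReal

namespace PBO

open NUGC
open NUO (Tb)
open NUMF (l l_pos)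

variable {ep e1 J : ℝ} {m : ℕ}

/-- **the gain of the ends and of two groups** with the phases `φ`, `φ'` -/
def gnP (e1 J : ℝ) (m : ℕ) (φ φ' : ℝ) (z : ℝ × ℝ) : ℝ :=
  12 * l * hC e1 J m 0 + 2 * (φ * hC e1 J m z.1 + φ' * hC e1 J m z.2)

/-- the gain of the ends and of one group -/
def gnQ (e1 J : ℝ) (m : ℕ) (φ : ℝ) (τ : ℝ) : ℝ :=
  12 * l * hC e1 J m 0 + 2 * (φ * hC e1 J m τ)

theorem gnP_swap (e1 J : ℝ) (m : ℕ) (φ φ' : ℝ) (z : ℝ × ℝ) :
    gnP e1 J m φ φ' z = gnP e1 J m φ' φ (z.2, z.1) := by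
  unfold gnP
  ring

/-- `l a = 1 / 6` -/
theorem l_aC : l * aC = 1 / 6 := by
  have hpi : Real.pi ≠ 0 := Real.pi_ne_zero
  show Real.pi / 8 * (4 / (3 * Real.pi)) = 1 / 6
  field_simp
  norm_num

section
variable (he : 0 < e1) (he1 : e1 ≤ 1 / 100) (hJ : 0 ≤ J) (hT : 20 ≤ Tb (Real.log m))
include he he1 hJ hT

theorem six_h0 : (1 - e1) * Tb (Real.log m) - 6 ≤ 6 * l * hC e1 J m 0 := by
  have h1 := hC_zero_ge (J := J) he he1 hT
  have hl := l_pos
  have h2 : l * (aC * (1 - e1) * Tb (Real.log m) - 6 * aC + J) ≤ l * hC e1 J m 0 :=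
    mul_le_mul_of_nonneg_left h1 hl.le
  have h3 : l * (aC * (1 - e1) * Tb (Real.log m) - 6 * aC + J) =
      (l * aC) * ((1 - e1) * Tb (Real.log m)) - 6 * (l * aC) + l * J := by ring
  rw [h3, l_aC] at h2
  have h4 : 0 ≤ l * J := mul_nonneg hl.le hJ
  linarith

theorem hC_le0 (t : ℝ) : l * hC e1 J m t ≤ l * hC e1 J m 0 :=
  mul_le_mul_of_nonneg_left (hC_le_zero he he1 hJ hT t) l_pos.le

/-- a group of phase at least `-3 l` -/
theorem ph_hC {φ : ℝ} (hφ : -(3 * l) ≤ φ) (t : ℝ) :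
    -(6 * l * hC e1 J m 0) ≤ 2 * (φ * hC e1 J m t) := by
  have h0 := hC_nonneg he1 hJ hT t
  have h1 : -(3 * l) * hC e1 J m t ≤ φ * hC e1 J m t := mul_le_mul_of_nonneg_right hφ h0
  have h2 := hC_le0 he he1 hJ hT t
  nlinarith

theorem gnP_nonneg {φ φ' : ℝ} (hφ : -(3 * l) ≤ φ) (hφ' : -(3 * l) ≤ φ') (z : ℝ × ℝ) :
    0 ≤ gnP e1 J m φ φ' z := by
  have h1 := ph_hC he he1 hJ hT hφ z.1
  have h2 := ph_hC he he1 hJ hT hφ' z.2
  unfold gnP
  linarith

/-- one group with a nonnegative term -/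
theorem gnP_of {φ φ' : ℝ} (hφ : -(3 * l) ≤ φ) {z : ℝ × ℝ} {g : ℝ}
    (h : g ≤ 2 * (φ' * hC e1 J m z.2)) :
    (1 - e1) * Tb (Real.log m) - 6 + g ≤ gnP e1 J m φ φ' z := by
  have h1 := ph_hC he he1 hJ hT hφ z.1
  have h2 := six_h0 he he1 hJ hT
  unfold gnP
  linarith

theorem gnP_of' {φ φ' : ℝ} (hφ : -(3 * l) ≤ φ') {z : ℝ × ℝ} {g : ℝ}
    (h : g ≤ 2 * (φ * hC e1 J m z.1)) :
    (1 - e1) * Tb (Real.log m) - 6 + g ≤ gnP e1 J m φ φ' z := by
  rw [gnP_swap]
  exact gnP_of he he1 hJ hT hφ h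

/-- beyond the window of the current -/
theorem hC_far {T t : ℝ} (hTT : Tb (Real.log m) ≤ T) (ht : T < |t|) : hC e1 J m t = 0 := by
  refine hC_zero he he1 hT ?_
  nlinarith

/-- **far heights**: the gain is at least `(1 - e1) T0 - 6` -/
theorem gnP_far {φ φ' : ℝ} (hφ : -(3 * l) ≤ φ) (hφ' : -(3 * l) ≤ φ') {T : ℝ}
    (hTT : Tb (Real.log m) ≤ T) {z : ℝ × ℝ} (hz : z ∈ FarS T) :
    (1 - e1) * Tb (Real.log m) - 6 ≤ gnP e1 J m φ φ' z := by
  simp only [FarS, Set.mem_ofPred_eq] at hz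
  rcases hz with hz | hz
  · have h := gnP_of' he he1 hJ hT (φ := φ) (g := 0) hφ' (z := z) (by
      rw [hC_far he he1 hJ hT hTT hz, mul_zero, mul_zero])
    linarith
  · have h := gnP_of he he1 hJ hT (φ' := φ') (g := 0) hφ (z := z) (by
      rw [hC_far he he1 hJ hT hTT hz, mul_zero, mul_zero])
    linarith

/-- **a composite group pays its height** -/
theorem comp_gn {φ : ℝ} (hφ : 5 * l ≤ φ) (t : ℝ) :
    (1 - e1) * Tb (Real.log m) - 9 ≤ |t| + 2 * (φ * hC e1 J m t) := by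
  have h0 := hC_nonneg he1 hJ hT t
  have hl := l_pos
  have h1 : 5 * l * hC e1 J m t ≤ φ * hC e1 J m t := mul_le_mul_of_nonneg_right hφ h0
  have h2 := tent_ge (DC_nonneg (m := m) he1 hT) aC_pos.le t
  have h3 : tent (DC e1 m) aC t ≤ hC e1 J m t := by
    have := NUCUR.cur_nonneg (e := e1) (T := Tb (Real.log m)) hJ t
    unfold hC
    linarith
  have h4 : l * (aC * (DC e1 m - |t|) - 4 * aC) ≤ l * hC e1 J m t :=
    mul_le_mul_of_nonneg_left (h2.trans h3) hl.le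
  have h5 : l * (aC * (DC e1 m - |t|) - 4 * aC) = (l * aC) * (DC e1 m - |t|) - 4 * (l * aC) := by
    ring
  rw [h5, l_aC] at h4
  have h6 : 0 ≤ l * hC e1 J m t := mul_nonneg hl.le h0
  have hD : DC e1 m = (1 - e1) * Tb (Real.log m) - 2 := rfl
  rcases le_total (|t|) (DC e1 m) with h | h
  · nlinarith
  · nlinarith

/-- one bare half quantum -/
theorem w_gn (t : ℝ) : min (|t|) (DC e1 m) - 8 ≤ 6 * l * hC e1 J m 0 - 6 * l * hC e1 J m t := by
  have hl := l_pos
  have hD := DC_nonneg (m := m) he1 hT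
  have h1 := tent_ge hD aC_pos.le 0
  rw [abs_zero, sub_zero] at h1
  have h2 : tent (DC e1 m) aC t ≤ aC * max (DC e1 m - |t|) 0 + 4 * aC := by
    have h := NUCR.j3_sub (DC e1 m) 0 aC aC t
    rw [l3_tent hD, abs_of_nonneg aC_pos.le, abs_le] at h
    unfold tent
    linarith [h.2]
  have h3 : hC e1 J m 0 = tent (DC e1 m) aC 0 + J := hC_eq he hT (by
    rw [abs_zero]
    nlinarith)
  have h4 : hC e1 J m t ≤ tent (DC e1 m) aC t + J := by
    have := NUCUR.cur_le (e := e1) (T := Tb (Real.log m)) hJ t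
    unfold hC
    linarith
  have h5 : aC * DC e1 m - aC * max (DC e1 m - |t|) 0 - 8 * aC ≤
      hC e1 J m 0 - hC e1 J m t := by
    rw [h3]
    linarith
  have h6 := mul_le_mul_of_nonneg_left h5 hl.le
  have h7 : l * (aC * DC e1 m - aC * max (DC e1 m - |t|) 0 - 8 * aC) =
      (l * aC) * (DC e1 m - max (DC e1 m - |t|) 0 - 8) := by ring
  rw [h7, l_aC] at h6
  have h8 : min (|t|) (DC e1 m) = DC e1 m - max (DC e1 m - |t|) 0 := by
    rcases le_total (|t|) (DC e1 m) with h | h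
    · rw [min_eq_left h, max_eq_left (by linarith)]
      ring
    · rw [min_eq_right h, max_eq_right (by linarith)]
      ring
  rw [h8]
  linarith

/-- **two bare half quanta** -/
theorem gnP_ww (z : ℝ × ℝ) : min (|z.1|) (DC e1 m) + min (|z.2|) (DC e1 m) - 16 ≤
    gnP e1 J m (-(3 * l)) (-(3 * l)) z := by
  have h1 := w_gn he he1 hJ hT z.1
  have h2 := w_gn he he1 hJ hT z.2
  unfold gnP
  linarith

/-- one neutral group -/
theorem gnQ_ge {φ : ℝ} (hφ : 0 ≤ φ) (τ : ℝ) :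
    2 * (1 - e1) * Tb (Real.log m) - 12 ≤ gnQ e1 J m φ τ := by
  have h1 := six_h0 he he1 hJ hT
  have h2 : 0 ≤ φ * hC e1 J m τ := mul_nonneg hφ (hC_nonneg he1 hJ hT τ)
  unfold gnQ
  linarith

end

/-! ### the integral of a majorant -/

/-- the square of the near heights -/
theorem vol_near {T : ℝ} (hT : 0 ≤ T) :
    volume {z : ℝ × ℝ | |z.1| ≤ T ∧ |z.2| ≤ T} = ENNReal.ofReal (4 * T ^ 2) := by
  have e : {z : ℝ × ℝ | |z.1| ≤ T ∧ |z.2| ≤ T} = Icc (-T) T ×ˢ Icc (-T) T := by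
    ext z
    simp only [mem_setOf_eq, mem_prod, mem_Icc, abs_le]
  rw [e, Measure.volume_eq_prod, Measure.prod_prod, Real.volume_Icc,
    ← ENNReal.ofReal_mul (by linarith)]
  congr 1
  ring

theorem meas_near (T : ℝ) : MeasurableSet {z : ℝ × ℝ | |z.1| ≤ T ∧ |z.2| ≤ T} := by
  have h1 : MeasurableSet {z : ℝ × ℝ | |z.1| ≤ T} :=
    (isClosed_le (continuous_fst.abs) continuous_const).measurableSet
  have h2 : MeasurableSet {z : ℝ × ℝ | |z.2| ≤ T} :=
    (isClosed_le (continuous_snd.abs) continuous_const).measurableSet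
  exact h1.inter h2

/-- **the integral of the majorant of a class** on a measurable set from bounds of the weight near
(`a`, with `QI0`) and far (`b`) -/
theorem int_cls {T L : ℝ} (hT : 0 ≤ T) {S : Set (ℝ × ℝ)} (hS : MeasurableSet S) {w : ℝ × ℝ → ℝ}
    {a b : ℝ} (ha : 0 ≤ a) (hb : 0 ≤ b)
    (hn : ∀ z ∈ S, |z.1| ≤ T → |z.2| ≤ T → QI0 z * w z ≤ a)
    (hf : ∀ z ∈ S, z ∈ FarS T → w z ≤ b) :
    ∫⁻ z in S, ENNReal.ofReal (fr T L z * MQ T z * w z) ≤
      ENNReal.ofReal (a * (4 * T ^ 2) +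
        b * (Real.exp (L / 2) * (3000 * (1 + T) ^ 2 * Real.exp (-(3 / 2) * T)))) := by
  obtain ⟨j1, j2⟩ := MJ_int hT
  set N : Set (ℝ × ℝ) := {z | |z.1| ≤ T ∧ |z.2| ≤ T} with hN
  have key : ∀ z ∈ S, ENNReal.ofReal (fr T L z * MQ T z * w z) ≤
      N.indicator (fun _ => ENNReal.ofReal a) z +
        ENNReal.ofReal (b * (Real.exp (L / 2) * MJ T z)) := by
    intro z hz
    by_cases h : |z.1| ≤ T ∧ |z.2| ≤ T
    · rw [indicator_of_mem (show z ∈ N from h)]
      refine le_add_right (ENNReal.ofReal_le_ofReal ?_)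
      unfold fr MQ
      rw [if_pos h, if_pos h, one_mul]
      exact hn z hz h.1 h.2
    · rw [indicator_of_notMem (show z ∉ N from h), zero_add]
      refine ENNReal.ofReal_le_ofReal ?_
      unfold fr MQ
      rw [if_neg h, if_neg h]
      have hz' : z ∈ FarS T := by
        simp only [FarS, Set.mem_ofPred_eq]
        by_contra hc
        apply h
        simp only [not_or, not_lt] at hc
        exact hc
      have h0 : 0 ≤ Real.exp (L / 2) * MJ T z := mul_nonneg (Real.exp_pos _).le (MJ_nonneg _ _)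
      rw [mul_comm b]
      exact mul_le_mul_of_nonneg_left (hf z hz hz') h0
  have hm : Measurable fun z : ℝ × ℝ => ENNReal.ofReal (b * (Real.exp (L / 2) * MJ T z)) :=
    ENNReal.measurable_ofReal.comp ((MJ_cont T).measurable.const_mul _ |>.const_mul _)
  calc ∫⁻ z in S, ENNReal.ofReal (fr T L z * MQ T z * w z)
      ≤ ∫⁻ z in S, (N.indicator (fun _ => ENNReal.ofReal a) z +
        ENNReal.ofReal (b * (Real.exp (L / 2) * MJ T z))) := setLIntegral_mono' hS key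
    _ ≤ ∫⁻ z, (N.indicator (fun _ => ENNReal.ofReal a) z +
        ENNReal.ofReal (b * (Real.exp (L / 2) * MJ T z))) := setLIntegral_le_lintegral _ _
    _ = ENNReal.ofReal a * volume N +
        ∫⁻ z, ENNReal.ofReal (b * (Real.exp (L / 2) * MJ T z)) := by
        rw [lintegral_add_right _ hm, lintegral_indicator_const (meas_near T)]
    _ ≤ ENNReal.ofReal (a * (4 * T ^ 2)) +
        ENNReal.ofReal (b * (Real.exp (L / 2) * (3000 * (1 + T) ^ 2 *
          Real.exp (-(3 / 2) * T)))) := by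
        refine add_le_add ?_ ?_
        · rw [hN, vol_near hT, ENNReal.ofReal_mul ha]
        · rw [← ofReal_integral_eq_lintegral_ofReal ((j1.const_mul _).const_mul _)
            (Filter.Eventually.of_forall fun z => mul_nonneg hb (mul_nonneg (Real.exp_pos _).le
              (MJ_nonneg _ _)))]
          refine ENNReal.ofReal_le_ofReal ?_
          rw [integral_const_mul, integral_const_mul]
          exact mul_le_mul_of_nonneg_left (mul_le_mul_of_nonneg_left j2 (Real.exp_pos _).le) hb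
    _ = _ := by
        rw [← ENNReal.ofReal_add (by positivity) (by positivity)]

/-! ### the powers of `m` -/

/-- polynomials of the window -/
theorem one_add_le {δ : ℝ} (hδ : 0 < δ) (hδ1 : δ ≤ 1) {T : ℝ} (hT : 0 ≤ T) :
    1 + T ≤ δ⁻¹ * Real.exp (δ * T) := by
  have h1 := Real.add_one_le_exp (δ * T)
  rw [inv_mul_eq_div, le_div_iff₀ hδ]
  nlinarith

/-- **the power of the far range** -/
theorem pow_far {δ : ℝ} (hδ : 0 < δ) (hδ1 : δ ≤ 1 / 4) {T0 T K : ℝ} (hT0 : 0 ≤ T0) (hTT : T0 ≤ T) :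
    Real.exp (-((1 - e1) * T0) + K) * (Real.exp (8 / 3 * T0 / 2) * (3000 * (1 + T) ^ 2 *
      Real.exp (-(3 / 2) * T))) ≤
      3000 * (δ⁻¹) ^ 2 * Real.exp K * Real.exp (-((7 / 6 - e1 - 2 * δ) * T0)) := by
  have hT : 0 ≤ T := hT0.trans hTT
  have h1 := one_add_le hδ (by linarith) hT
  have h2 : (1 + T) ^ 2 ≤ (δ⁻¹ * Real.exp (δ * T)) ^ 2 := pow_le_pow_left₀ (by linarith) h1 2
  have h3 : (δ⁻¹ * Real.exp (δ * T)) ^ 2 = (δ⁻¹) ^ 2 * Real.exp (2 * δ * T) := by
    rw [mul_pow, ← Real.exp_nat_mul]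
    congr 2
    push_cast
    ring
  rw [h3] at h2
  calc Real.exp (-((1 - e1) * T0) + K) * (Real.exp (8 / 3 * T0 / 2) * (3000 * (1 + T) ^ 2 *
      Real.exp (-(3 / 2) * T)))
      ≤ Real.exp (-((1 - e1) * T0) + K) * (Real.exp (8 / 3 * T0 / 2) * (3000 * ((δ⁻¹) ^ 2 *
        Real.exp (2 * δ * T)) * Real.exp (-(3 / 2) * T))) := by gcongr
    _ = 3000 * (δ⁻¹) ^ 2 * (Real.exp (-((1 - e1) * T0) + K) * Real.exp (8 / 3 * T0 / 2) *
        Real.exp (2 * δ * T) * Real.exp (-(3 / 2) * T)) := by ring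
    _ ≤ 3000 * (δ⁻¹) ^ 2 * (Real.exp K * Real.exp (-((7 / 6 - e1 - 2 * δ) * T0))) := by
        refine mul_le_mul_of_nonneg_left ?_ (by positivity)
        rw [← Real.exp_add, ← Real.exp_add, ← Real.exp_add, ← Real.exp_add]
        refine Real.exp_le_exp.2 ?_
        have : (3 / 2 - 2 * δ) * T0 ≤ (3 / 2 - 2 * δ) * T :=
          mul_le_mul_of_nonneg_left hTT (by linarith)
        linarith
    _ = _ := by ring

/-- the power of the near range: `T <= 2 T0` -/
theorem pow_near {δ : ℝ} (hδ : 0 < δ) (hδ1 : δ ≤ 1 / 4) {T0 T K x : ℝ} (hT : 0 ≤ T)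
    (hTT : T ≤ 2 * T0) :
    Real.exp (-x + K) * (4 * T ^ 2) ≤ 4 * (δ⁻¹) ^ 2 * Real.exp K * Real.exp (-(x - 4 * δ * T0)) := by
  have h1 := one_add_le hδ (by linarith) hT
  have h2 : T ^ 2 ≤ (δ⁻¹ * Real.exp (δ * T)) ^ 2 := pow_le_pow_left₀ hT (by linarith) 2
  have h3 : (δ⁻¹ * Real.exp (δ * T)) ^ 2 = (δ⁻¹) ^ 2 * Real.exp (2 * δ * T) := by
    rw [mul_pow, ← Real.exp_nat_mul]
    congr 2
    push_cast
    ring
  rw [h3] at h2
  calc Real.exp (-x + K) * (4 * T ^ 2) ≤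
        Real.exp (-x + K) * (4 * ((δ⁻¹) ^ 2 * Real.exp (2 * δ * T))) := by gcongr
    _ = 4 * (δ⁻¹) ^ 2 * (Real.exp (-x + K) * Real.exp (2 * δ * T)) := by ring
    _ ≤ 4 * (δ⁻¹) ^ 2 * (Real.exp K * Real.exp (-(x - 4 * δ * T0))) := by
        refine mul_le_mul_of_nonneg_left ?_ (by positivity)
        rw [← Real.exp_add, ← Real.exp_add]
        refine Real.exp_le_exp.2 ?_
        have : 2 * δ * T ≤ 2 * δ * (2 * T0) := mul_le_mul_of_nonneg_left hTT (by positivity)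
        linarith
    _ = _ := by ring

/-- **the power of `m`** -/
theorem exp_Tb {m : ℕ} (hm : 1 ≤ m) (x : ℝ) :
    Real.exp (-(x * Tb (Real.log m))) = (m : ℝ) ^ (-(3 / 8 * x)) := by
  have h0 : (0 : ℝ) < m := by exact_mod_cast hm
  rw [Real.rpow_def_of_pos h0]
  congr 1
  unfold Tb
  ring

/-! ### the classes -/

section
variable (he : 0 < e1) (he1 : e1 ≤ 1 / 100) (hJ : 0 ≤ J) (hT : 20 ≤ Tb (Real.log m))
include he he1 hJ hT

theorem QI0_le (z : ℝ × ℝ) : QI0 z ≤ Real.exp (-|z.1|) ∧ QI0 z ≤ Real.exp (-|z.2|) := by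
  have h1 := abs_nonneg z.1
  have h2 := abs_nonneg z.2
  have h3 := abs_nonneg (z.1 - z.2)
  unfold QI0
  exact ⟨Real.exp_le_exp.2 (by linarith), Real.exp_le_exp.2 (by linarith)⟩

/-- **a class of pairs with gain at least `(1 - e1) T0 - 6` far and total `2 (1 - e1) T0 - K` near** -/
theorem cls_two {δ : ℝ} (hδ : 0 < δ) (hδ1 : δ ≤ 1 / 4) {T K : ℝ} (hTT : Tb (Real.log m) ≤ T)
    (hTT' : T ≤ 2 * Tb (Real.log m)) {w : ℝ × ℝ → ℝ}
    (hn : ∀ z : ℝ × ℝ, |z.1| ≤ T → |z.2| ≤ T →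
      QI0 z * w z ≤ Real.exp (-(2 * (1 - e1) * Tb (Real.log m)) + K))
    (hf : ∀ z : ℝ × ℝ, z ∈ FarS T → w z ≤ Real.exp (-((1 - e1) * Tb (Real.log m)) + 6)) :
    ∫⁻ z, ENNReal.ofReal (fr T (Real.log m) z * MQ T z * w z) ≤
      ENNReal.ofReal ((4 * (δ⁻¹) ^ 2 * Real.exp K + 3000 * (δ⁻¹) ^ 2 * Real.exp 6) *
        Real.exp (-((7 / 6 - e1 - 2 * δ) * Tb (Real.log m)))) := by
  have hT0 : 0 ≤ Tb (Real.log m) := by linarith
  have hTn : 0 ≤ T := hT0.trans hTT
  have h := int_cls (L := Real.log m) hTn MeasurableSet.univ (Real.exp_pos _).le (Real.exp_pos _).le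
    (fun z _ => hn z) (fun z _ => hf z)
  rw [Measure.restrict_univ] at h
  refine h.trans (ENNReal.ofReal_le_ofReal ?_)
  have hL : Real.log m / 2 = 8 / 3 * Tb (Real.log m) / 2 := by
    unfold Tb
    ring
  have h1 := pow_near (K := K) (x := 2 * (1 - e1) * Tb (Real.log m)) hδ hδ1 hTn hTT'
  have h2 := pow_far (e1 := e1) (K := 6) hδ hδ1 hT0 hTT
  rw [hL]
  have h3 : Real.exp (-(2 * (1 - e1) * Tb (Real.log m) - 4 * δ * Tb (Real.log m))) ≤
      Real.exp (-((7 / 6 - e1 - 2 * δ) * Tb (Real.log m))) := by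
    refine Real.exp_le_exp.2 ?_
    have : 0 ≤ (5 / 6 - e1 - 2 * δ) * Tb (Real.log m) := mul_nonneg (by linarith) hT0
    linarith
  have h4 : 4 * (δ⁻¹) ^ 2 * Real.exp K *
      Real.exp (-(2 * (1 - e1) * Tb (Real.log m) - 4 * δ * Tb (Real.log m))) ≤
      4 * (δ⁻¹) ^ 2 * Real.exp K * Real.exp (-((7 / 6 - e1 - 2 * δ) * Tb (Real.log m))) :=
    mul_le_mul_of_nonneg_left h3 (by positivity)
  linarith

/-- **a class with a composite group** -/
theorem cls_comp {δ : ℝ} (hδ : 0 < δ) (hδ1 : δ ≤ 1 / 4) {T : ℝ} (hTT : Tb (Real.log m) ≤ T)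
    (hTT' : T ≤ 2 * Tb (Real.log m)) {φ φ' : ℝ} (hφ : -(3 * l) ≤ φ) (hφ' : -(3 * l) ≤ φ')
    (hc : 5 * l ≤ φ ∨ 5 * l ≤ φ') :
    ∫⁻ z, ENNReal.ofReal (fr T (Real.log m) z * MQ T z * Real.exp (-gnP e1 J m φ φ' z)) ≤
      ENNReal.ofReal ((4 * (δ⁻¹) ^ 2 * Real.exp 15 + 3000 * (δ⁻¹) ^ 2 * Real.exp 6) *
        Real.exp (-((7 / 6 - e1 - 2 * δ) * Tb (Real.log m)))) := by
  refine cls_two he he1 hJ hT hδ hδ1 hTT hTT' (fun z _ _ => ?_) (fun z hz => ?_)
  · obtain ⟨q1, q2⟩ := QI0_le he he1 hJ hT z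
    rcases hc with hc | hc
    · have h1 := gnP_of' he he1 hJ hT (φ := φ) hφ' (z := z) le_rfl
      have h2 := comp_gn he he1 hJ hT hc z.1
      refine (mul_le_mul_of_nonneg_right q1 (Real.exp_pos _).le).trans ?_
      rw [← Real.exp_add]
      exact Real.exp_le_exp.2 (by linarith)
    · have h1 := gnP_of he he1 hJ hT (φ' := φ') hφ (z := z) le_rfl
      have h2 := comp_gn he he1 hJ hT hc z.2
      refine (mul_le_mul_of_nonneg_right q2 (Real.exp_pos _).le).trans ?_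
      rw [← Real.exp_add]
      exact Real.exp_le_exp.2 (by linarith)
  · have h1 := gnP_far he he1 hJ hT hφ hφ' hTT hz
    exact Real.exp_le_exp.2 (by linarith)

/-- **a class with a half quantum which is forbidden in the bulk** (`F`): the own factors `f` at the
height of this half quantum are at most `exp (-2 (1 - e1) T0)` for `|τ| <= (1 - e1) T0` -/
theorem cls_F {δ : ℝ} (hδ : 0 < δ) (hδ1 : δ ≤ 1 / 4) {T : ℝ} (hTT : Tb (Real.log m) ≤ T)
    (hTT' : T ≤ 2 * Tb (Real.log m)) {φ φ' : ℝ} (hφ : -(3 * l) ≤ φ) (hφ' : -(3 * l) ≤ φ')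
    {f : ℝ × ℝ → ℝ} (f0 : ∀ z, 0 ≤ f z) (f1 : ∀ z, f z ≤ 1)
    (hF : (∀ z : ℝ × ℝ, |z.1| ≤ (1 - e1) * Tb (Real.log m) →
        f z ≤ Real.exp (-(2 * (1 - e1) * Tb (Real.log m)))) ∨
      (∀ z : ℝ × ℝ, |z.2| ≤ (1 - e1) * Tb (Real.log m) →
        f z ≤ Real.exp (-(2 * (1 - e1) * Tb (Real.log m))))) :
    ∫⁻ z, ENNReal.ofReal (fr T (Real.log m) z * MQ T z *
        (f z * Real.exp (-gnP e1 J m φ φ' z))) ≤
      ENNReal.ofReal ((4 * (δ⁻¹) ^ 2 * Real.exp 15 + 3000 * (δ⁻¹) ^ 2 * Real.exp 6) *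
        Real.exp (-((7 / 6 - e1 - 2 * δ) * Tb (Real.log m)))) := by
  have hg0 := gnP_nonneg he he1 hJ hT hφ hφ'
  have fe : ∀ z, f z * Real.exp (-gnP e1 J m φ φ' z) ≤ Real.exp (-gnP e1 J m φ φ' z) := fun z =>
    mul_le_of_le_one_left (Real.exp_pos _).le (f1 z)
  have fe' : ∀ z, f z * Real.exp (-gnP e1 J m φ φ' z) ≤ f z := fun z =>
    mul_le_of_le_one_right (f0 z) (Real.exp_le_one_iff.2 (by linarith [hg0 z]))
  have q1' : ∀ z, QI0 z ≤ 1 := fun z => by
    obtain ⟨q1, q2⟩ := QI0_le he he1 hJ hT z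
    exact q1.trans (Real.exp_le_one_iff.2 (by linarith [abs_nonneg z.1]))
  have q0 : ∀ z, 0 ≤ QI0 z := fun z => (Real.exp_pos _).le
  have small : ∀ z, f z ≤ Real.exp (-(2 * (1 - e1) * Tb (Real.log m))) →
      QI0 z * (f z * Real.exp (-gnP e1 J m φ φ' z)) ≤
        Real.exp (-(2 * (1 - e1) * Tb (Real.log m)) + 15) := by
    intro z hz
    have h1 : QI0 z * (f z * Real.exp (-gnP e1 J m φ φ' z)) ≤ 1 * f z :=
      mul_le_mul (q1' z) (fe' z) (mul_nonneg (f0 z) (Real.exp_pos _).le) zero_le_one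
    rw [one_mul] at h1
    exact h1.trans (hz.trans (Real.exp_le_exp.2 (by linarith)))
  refine cls_two he he1 hJ hT hδ hδ1 hTT hTT' (fun z _ _ => ?_) (fun z hz => ?_)
  · obtain ⟨q1, q2⟩ := QI0_le he he1 hJ hT z
    rcases hF with hF | hF
    · rcases le_total (|z.1|) ((1 - e1) * Tb (Real.log m)) with h | h
      · exact small z (hF z h)
      · have h0 : hC e1 J m z.1 = 0 := hC_zero he he1 hT h
        have h1 := gnP_of' he he1 hJ hT (φ := φ) (g := 0) hφ' (z := z) (by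
          rw [h0, mul_zero, mul_zero])
        refine (mul_le_mul q1 (fe z) (mul_nonneg (f0 z) (Real.exp_pos _).le)
          (Real.exp_pos _).le).trans ?_
        rw [← Real.exp_add]
        exact Real.exp_le_exp.2 (by linarith)
    · rcases le_total (|z.2|) ((1 - e1) * Tb (Real.log m)) with h | h
      · exact small z (hF z h)
      · have h0 : hC e1 J m z.2 = 0 := hC_zero he he1 hT h
        have h1 := gnP_of he he1 hJ hT (φ' := φ') (g := 0) hφ (z := z) (by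
          rw [h0, mul_zero, mul_zero])
        refine (mul_le_mul q2 (fe z) (mul_nonneg (f0 z) (Real.exp_pos _).le)
          (Real.exp_pos _).le).trans ?_
        rw [← Real.exp_add]
        exact Real.exp_le_exp.2 (by linarith)
  · exact (fe z).trans (Real.exp_le_exp.2 (by
      have := gnP_far he he1 hJ hT hφ hφ' hTT hz
      linarith))

/-- **two bare half quanta outside the near set** `2 |τ| + 2 |τ'| + |τ - τ'| / 2 <= κ` -/
theorem cls_ww {δ : ℝ} (hδ : 0 < δ) (hδ1 : δ ≤ 1 / 4) (hep : 0 ≤ ep) (hep1 : ep ≤ 1 / 100) {T : ℝ}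
    (hTd : T = (1 + 2 * e1 + 2 * ep) * Tb (Real.log m)) {κ : ℝ} {S : Set (ℝ × ℝ)}
    (hS : MeasurableSet S) (hκ : ∀ z ∈ S, κ ≤ 2 * |z.1| + 2 * |z.2| + |z.1 - z.2| / 2) :
    ∫⁻ z in S, ENNReal.ofReal (fr T (Real.log m) z * MQ T z *
        Real.exp (-gnP e1 J m (-(3 * l)) (-(3 * l)) z)) ≤
      ENNReal.ofReal (4 * (δ⁻¹) ^ 2 * Real.exp 20 *
          Real.exp (-(κ - (6 * e1 + 4 * ep + 4 * δ) * Tb (Real.log m))) +
        3000 * (δ⁻¹) ^ 2 * Real.exp 6 * Real.exp (-((7 / 6 - e1 - 2 * δ) * Tb (Real.log m)))) := by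
  have hT0 : 0 ≤ Tb (Real.log m) := by linarith
  have hTT : Tb (Real.log m) ≤ T := by
    rw [hTd]
    nlinarith
  have hTT' : T ≤ 2 * Tb (Real.log m) := by
    rw [hTd]
    nlinarith
  have hTn : 0 ≤ T := hT0.trans hTT
  have h := int_cls (L := Real.log m) (w := fun z => Real.exp (-gnP e1 J m (-(3 * l)) (-(3 * l)) z))
    (a := Real.exp (-(κ - (6 * e1 + 4 * ep) * Tb (Real.log m)) + 20))
    (b := Real.exp (-((1 - e1) * Tb (Real.log m)) + 6)) hTn hS (Real.exp_pos _).le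
    (Real.exp_pos _).le (fun z hz n1 n2 => ?_) (fun z hz hf => ?_)
  · refine h.trans (ENNReal.ofReal_le_ofReal ?_)
    have hL : Real.log m / 2 = 8 / 3 * Tb (Real.log m) / 2 := by
      unfold Tb
      ring
    have h1 := pow_near (K := 20) (x := κ - (6 * e1 + 4 * ep) * Tb (Real.log m)) hδ hδ1 hTn hTT'
    have h2 := pow_far (e1 := e1) (K := 6) hδ hδ1 hT0 hTT
    have e3 : κ - (6 * e1 + 4 * ep) * Tb (Real.log m) - 4 * δ * Tb (Real.log m) =
        κ - (6 * e1 + 4 * ep + 4 * δ) * Tb (Real.log m) := by ring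
    rw [e3] at h1
    rw [hL]
    linarith
  · show QI0 z * Real.exp _ ≤ _
    unfold QI0
    rw [← Real.exp_add]
    refine Real.exp_le_exp.2 ?_
    have h1 := gnP_ww he he1 hJ hT z
    have h2 := hκ z hz
    have hD : DC e1 m = (1 - e1) * Tb (Real.log m) - 2 := rfl
    have h3 : T - DC e1 m = (3 * e1 + 2 * ep) * Tb (Real.log m) + 2 := by
      rw [hD, hTd]
      ring
    have hmin : ∀ x : ℝ, x ≤ T → x - ((3 * e1 + 2 * ep) * Tb (Real.log m) + 2) ≤
        min x (DC e1 m) := by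
      intro x hx
      refine le_min ?_ (by linarith)
      have : 0 ≤ (3 * e1 + 2 * ep) * Tb (Real.log m) := by positivity
      linarith
    have h4 := hmin (|z.1|) n1
    have h5 := hmin (|z.2|) n2
    nlinarith
  · have := gnP_far he he1 hJ hT (φ := -(3 * l)) (φ' := -(3 * l)) le_rfl le_rfl hTT hf
    exact Real.exp_le_exp.2 (by linarith)

/-- **the class with one neutral group** -/
theorem cls_D {T : ℝ} (hTT : Tb (Real.log m) ≤ T) {φ : ℝ} (hφ : 0 ≤ φ) :
    ∫⁻ τ : ℝ, ENNReal.ofReal (Real.exp (-2 * |τ|) *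
      ((if |τ| ≤ T then 1 else Real.exp (Real.log m / 2)) * Real.exp (37 / 20 * xs T τ)) *
        Real.exp (-gnQ e1 J m φ τ)) ≤
      ENNReal.ofReal (40 / 3 * Real.exp 12 * Real.exp (-(2 * (1 - e1) * Tb (Real.log m)))) := by
  have hL : 0 ≤ Real.log m := by
    have : 0 ≤ Tb (Real.log m) := by linarith
    unfold Tb at this
    linarith
  have hT3 : 3 / 8 * Real.log m ≤ T := hTT
  obtain ⟨i1, i2⟩ := d1_int
  calc ∫⁻ τ : ℝ, ENNReal.ofReal (Real.exp (-2 * |τ|) *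
      ((if |τ| ≤ T then 1 else Real.exp (Real.log m / 2)) * Real.exp (37 / 20 * xs T τ)) *
        Real.exp (-gnQ e1 J m φ τ))
      ≤ ∫⁻ τ : ℝ, ENNReal.ofReal (Real.exp (12 - 2 * (1 - e1) * Tb (Real.log m)) *
          Real.exp (-(3 / 20) * |τ|)) := by
        refine lintegral_mono fun τ => ENNReal.ofReal_le_ofReal ?_
        have h1 := d1_maj (τ := τ) hL hT3
        have h2 := gnQ_ge he he1 hJ hT hφ τ
        have h3 : Real.exp (-gnQ e1 J m φ τ) ≤ Real.exp (12 - 2 * (1 - e1) * Tb (Real.log m)) :=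
          Real.exp_le_exp.2 (by linarith)
        rw [mul_comm (Real.exp (12 - _))]
        exact mul_le_mul h1 h3 (Real.exp_pos _).le (Real.exp_pos _).le
    _ = ENNReal.ofReal (∫ τ : ℝ, Real.exp (12 - 2 * (1 - e1) * Tb (Real.log m)) *
          Real.exp (-(3 / 20) * |τ|)) :=
        (ofReal_integral_eq_lintegral_ofReal (i1.const_mul _)
          (Filter.Eventually.of_forall fun τ => by positivity)).symm
    _ ≤ _ := by
        refine ENNReal.ofReal_le_ofReal (le_of_eq ?_)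
        rw [integral_const_mul, i2, sub_eq_add_neg, Real.exp_add]
        ring

end

end PBO

end
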