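import Pool.Agent.NUGC.AsmC
import Pool.Agent.PB.OthInt

/-!
# The tilted bound of one configuration with groups of spectators, any one body data

The content of `NUGC/AsmC` for an abstract geometry (one body data `B m β` without groups, exponent of
the objects, bulk exponent, mean field values of the groups) and any sea, with the gain of the ends and
of the groups against the current kept.

* `Geo`: the geometry; `phC`: phase of a class; `gnF`: the gain of a family;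
* `RgR`, `S4R`: range of the parameters, the gas in the presence of objects and groups;
* `OneR`: one body factor of an object against the activity;
* **`perG_ofR : StabProd → S4R E → OneR E → PerGR E`**.
-/

set_option autoImplicit false

noncomputable section

open MeasureTheory Finset
open scoped ENNReal

namespace PBO

open NUGC
open NUO NUP1 NUStabP NUDispW
open NUC43 (sg kq)
open NUSea.H0 (Gd IG TG cstF)
open NUSp (kG spo qc)
open NUDirP (Small)
open Pool.Agent.NUM3 (sgn)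

/-- **a geometry**: one body data with `m` rows and cutoff exponent `β` (no groups), exponent of the
objects `one m ep e1 J O i`, bulk exponent, mean field value of a group -/
structure Geo where
  /-- one body data without groups -/
  B : ℕ → ℝ → OB
  /-- exponent of an object -/
  one : ℕ → ℝ → ℝ → ℝ → (r : ℕ) → (Fin r → Xo) → Fin r → ℝ
  /-- bulk exponent -/
  EM : ℝ
  /-- mean field value of a group -/
  MF : NUSp.Cl → ℂ → ℝ

/-- phase of a class of spectators (both species) -/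
def phC : NUSp.Cl → ℝ
  | .w => -(3 * NUMF.l)
  | .p => 5 * NUMF.l
  | .hs => 5 * NUMF.l
  | .hp => 13 * NUMF.l
  | .d => 2 * NUMF.l

/-- **the gain of the ends and of a family of groups** -/
def gnF (e1 J : ℝ) (m : ℕ) {n : ℕ} (g : Fin n → Gd) : ℝ :=
  12 * NUMF.l * hC e1 J m 0 + ∑ i, 2 * (phC (g i).c * hC e1 J m (g i).τ)

variable [NUSea.Sea]

/-- end of the window: `E` is the excess of the composite groups -/
def T1R (ep e1 : ℝ) (m : ℕ) {r : ℕ} (O : Fin r → Xo) (E : ℝ) : ℝ :=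
  TW ep e1 m + max (excS (TW ep e1 m) O) E

/-- the range of the parameters of one configuration: `N + aX` quanta X, `N + aY` quanta Y -/
structure RgR (ep e1 : ℝ) (m : ℕ) {n : ℕ} (g : Fin n → Gd) (aX aY : ℕ) (ν : ℝ) (N : ℕ) {r : ℕ}
    (O : Fin r → Xo) (E x : ℝ) : Prop where
  n2 : n ≤ 2
  sp : ∀ i j, i ≠ j → (g i).σ ≠ (g j).σ
  ax : aX ≤ 3
  ay : aY ≤ 3
  q : (aX : ℝ) - aY = -∑ i, NUC43.sg (g i).σ * qc (g i).c / 2
  nu : |ν - m| ≤ 2
  hN : N ≤ 2 * m
  hr : r ≤ 2 * N + (aX + aY)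
  hc1 : chgO O true ≤ N + aX
  hc2 : chgO O false ≤ N + aY
  E0 : 0 ≤ E
  hE : ∀ i, (g i).c = .w ∨ (g i).c = .d ∨ |(g i).τ| ≤ TW ep e1 m + E
  x0 : 0 ≤ x
  hx : ∀ i, NUSp.exc (T1R ep e1 m O E) (g i).τ ≤ x

/-- exponent of a configuration -/
def confR (G : Geo) (m : ℕ) (ep e1 J K kap : ℝ) {r : ℕ} (O : Fin r → Xo) : ℝ :=
  ∑ i, G.one m ep e1 J r O i + K * r + enC O + kap * win univ (fun i => ht (O i))

/-- energies objects - groups and groups - groups (groups pinned at `T1`), far constants of the groups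
with `p` quanta X, `q` quanta Y in the gas -/
def enR (m : ℕ) {n : ℕ} (g : Fin n → Gd) {r : ℕ} (O : Fin r → Xo) (T1 : ℝ) (p q : ℕ) : ℝ :=
  ∑ i, ∑ d, ES (obSr (NUSea.O.par0 m).jL (NUSea.O.par0 m).e (O i))
      (TG (fun i => (g i).pin T1) d) +
    1 / 2 * (∑ d, ∑ d', ES (TG (fun i => (g i).pin T1) d) (TG (fun i => (g i).pin T1) d')) +
    cstF T1 g true * ((p : ℝ) - q)

/-- prefactor: mean field value, mean field values of the groups at their true heights, far factors -/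
def prefR (G : Geo) (m : ℕ) {n : ℕ} (g : Fin n → Gd) (E x Cst : ℝ) : ℝ :=
  Cst * Real.exp ((m : ℝ) ^ 2 * G.EM) *
    Real.exp (m * ∑ i, G.MF (g i).c (g i).w) * Real.exp (37 / 20 * x + 12 / 5 * E)

/-- the left side: tilt and positive gas -/
def lhsR (G : Geo) (ep e1 J : ℝ) (m : ℕ) {n : ℕ} (g : Fin n → Gd) (aX aY : ℕ) (ν : ℝ) (N : ℕ)
    (b' : ℝ) {r : ℕ} (O : Fin r → Xo) : ℝ≥0∞ :=
  ENNReal.ofReal (Real.exp (b' * (ν - N))) *
    Z1c ((G.B m (4 / 3 * (1 - ep))).mul (spF g)) (NUSea.O.par0 m) (etaC e1 J m m)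
      (etaC' e1 J m m) O (N + aX - chgO O true) (N + aY - chgO O false)

/-- **the gas in the presence of the objects and of the groups**, the gain kept -/
def S4R (G : Geo) : Prop :=
  ∃ K Ca : ℝ, 0 ≤ K ∧ 0 ≤ Ca ∧ ∀ kap : ℝ, 0 < kap →
    ∀ ep : ℝ, 0 < ep → ep ≤ 1 / 100 → ∀ e1 : ℝ, 0 < e1 → e1 ≤ 1 / 100 → ∀ J : ℝ, 0 ≤ J →
    ∀ δ : ℝ, 0 < δ → ∃ d Cst : ℝ, 0 < d ∧ 0 ≤ Cst ∧ ∃ m0 : ℕ, ∀ m ≥ m0,
      ∀ (n : ℕ) (g : Fin n → Gd) (aX aY : ℕ) (ν : ℝ) (N : ℕ) (b' : ℝ) (r : ℕ) (O : Fin r → Xo)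
        (E x : ℝ), b' = d ∨ b' = -d → RgR ep e1 m g aX aY ν N O E x →
        lhsR G ep e1 J m g aX aY ν N b' O ≤
          ENNReal.ofReal (prefR G m g E x Cst * (m : ℝ) ^ (Ca * (ep + e1) + δ) *
            (if ∀ i, |(g i).τ| ≤ TW ep e1 m then 1 else Real.exp (Real.log m / 2)) *
            Real.exp (-gnF e1 J m g) *
            Real.exp (confR G m ep e1 J K kap O +
              enR m g O (T1R ep e1 m O E) (N + aX - chgO O true) (N + aY - chgO O false)))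

/-- **one body factor of an object against the activity** -/
def OneR (G : Geo) : Prop := ∀ (K0 : ℝ) (k0 : ℕ), ∃ C c : ℝ, 0 < C ∧ 0 < c ∧
  ∀ ep : ℝ, 0 < ep → ep ≤ 1 / 100 → ∀ e1 : ℝ, 0 < e1 → e1 ≤ 1 / 100 → ∀ J : ℝ, 0 ≤ J →
  ∃ m1 : ℕ, ∀ m ≥ m1, ∀ (r : ℕ) (O : Fin r → Xo) (i : Fin r),
    ob1c (G.B m (4 / 3 * (1 - ep))) (NUSea.O.par0 m).jL (ei (NUSea.O.par0 m) O i)
        (rr (NUSea.O.par0 m) O i) (O i) *
      Real.exp (G.one m ep e1 J r O i + K0) * colK (((r : ℝ) + 1) ^ k0) (kd (O i)) ≤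
    act C 1 c (1 / 10) (k0 + 6) (Real.log m) ep e1 J r (ht (O i))

/-- **the tilted bounds for a family of groups** -/
def PerGR (G : Geo) (C c b : ℝ) (k : ℕ) (c1 Ca : ℝ) : Prop :=
  ∀ ep : ℝ, 0 < ep → ep ≤ 1 / 100 → ∀ e1 : ℝ, 0 < e1 → e1 ≤ 1 / 100 → ∀ J : ℝ, 0 ≤ J →
    ∀ δ : ℝ, 0 < δ → ∃ d Cst : ℝ, 0 < d ∧ 0 ≤ Cst ∧ ∃ m0 : ℕ, ∀ m ≥ m0,
      ∀ (n : ℕ) (g : Fin n → Gd) (aX aY : ℕ) (ν E Qe : ℝ), n ≤ 2 →
        (∀ i j, i ≠ j → (g i).σ ≠ (g j).σ) → aX ≤ 3 → aY ≤ 3 →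
        (aX : ℝ) - aY = -∑ i, NUC43.sg (g i).σ * qc (g i).c / 2 →
        |ν - m| ≤ 2 → 0 ≤ E →
        (∀ i, (g i).c = .w ∨ (g i).c = .d ∨ |(g i).τ| ≤ TW ep e1 m + E) → 0 ≤ Qe →
        (∀ T1, TW ep e1 m + E ≤ T1 → ∃ x, 0 ≤ x ∧ (∀ i, NUSp.exc T1 (g i).τ ≤ x) ∧
          Real.exp (enQ g aX aY E x T1) ≤ Qe) →
        PerCof C 1 c b k c1 0 (Real.log m) ep e1 J ν d (2 * m)
          ((G.B m (4 / 3 * (1 - ep))).mul (spF g)) (NUSea.O.par0 m) aX aY
          (Cst * Real.exp ((m : ℝ) ^ 2 * G.EM) * (m : ℝ) ^ (Ca * (ep + e1) + δ) *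
            Real.exp (m * ∑ i, G.MF (g i).c (g i).w) *
            (if ∀ i, |(g i).τ| ≤ TW ep e1 m then 1 else Real.exp (Real.log m / 2)) *
            Real.exp (-gnF e1 J m g) * Qe)

theorem prefR_nonneg {G : Geo} {m : ℕ} {n : ℕ} {g : Fin n → Gd} {E x Cst : ℝ} (h : 0 ≤ Cst) :
    0 ≤ prefR G m g E x Cst := by
  unfold prefR
  positivity

theorem spFR_nonneg {n : ℕ} (g : Fin n → Gd) (a : Bool) (u : ℂ) : 0 ≤ spF g a u := by
  unfold spF
  refine prod_nonneg fun i _ => ?_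
  rw [← spM_get]
  exact spM_nonneg _ _ _

/-- **the tilted bounds for a family of groups** from the stability bound, `S4R` and `OneR` -/
theorem perG_ofR {G : Geo} (hB : ∀ m β, (G.B m β).Nn) (hS : StabProd) (h4 : S4R G) (h1 : OneR G) :
    ∃ (C c b c1 Ca : ℝ) (k : ℕ), 0 < C ∧ 0 < c ∧ 0 < b ∧
    0 < c1 ∧ 0 ≤ Ca ∧ PerGR G C c b k c1 Ca := by
  obtain ⟨C2, c1, hC2, hc1, hstab⟩ := hS
  obtain ⟨K, Ca, hK, hCa, h4⟩ := h4
  obtain ⟨C3, hC3, hspec⟩ := spec_pin
  obtain ⟨C, c, hC, hc, hone⟩ := h1 (2 * C2 + K + (C2 * 6144 + 1) * 4 + Real.log C3) 12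
  refine ⟨C, c, 1 / 10, c1 / 2, Ca, 12 + 6, hC, hc, by norm_num, by positivity, hCa, ?_⟩
  intro ep hep hep1 e1 he1 he11 J hJ δ hδ
  obtain ⟨d, Cst, hd, hCst, M0, h4⟩ :=
    h4 (c1 / 2) (by positivity) ep hep hep1 e1 he1 he11 J hJ δ hδ
  obtain ⟨m1, hm1, hcur⟩ := curOKC he1 he11 hJ hep
  obtain ⟨m2, hone⟩ := hone ep hep hep1 e1 he1 he11 J hJ
  refine ⟨d, Cst, hd, hCst, max (max M0 m2) (max m1 2), ?_⟩
  intro m hM n g aX aY ν E Qe hn hσ haX haY hq hν hE hcE hQe hpin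
  have hM0 : M0 ≤ m := ((le_max_left _ _).trans (le_max_left _ _)).trans hM
  have hM1 : m2 ≤ m := ((le_max_right _ _).trans (le_max_left _ _)).trans hM
  have hM2 : m1 ≤ m := ((le_max_left _ _).trans (le_max_right _ _)).trans hM
  have hM3 : 2 ≤ m := ((le_max_right _ _).trans (le_max_right _ _)).trans hM
  intro N hN b' hb' r hr O
  refine ⟨etaC e1 J m m, etaC' e1 J m m,
    hcur m hM2 _ (by
      have : (0 : ℝ) ≤ m := Nat.cast_nonneg _
      linarith), fun W => ?_⟩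
  unfold TmC Fnc
  by_cases hchg : chgO O true ≤ N + aX ∧ chgO O false ≤ N + aY
  swap
  · rw [if_neg hchg, mul_zero]
    exact zero_le
  rw [if_pos hchg]
  -- the end of the window
  obtain ⟨T1, hT1⟩ : ∃ T1, T1 = T1R ep e1 m O E := ⟨_, rfl⟩
  have hexc0 := excS_nonneg (TW ep e1 m) O
  have hT1E : TW ep e1 m + E ≤ T1 := by
    rw [hT1]
    unfold T1R
    linarith [le_max_right (excS (TW ep e1 m) O) E]
  have hT1O : ∀ i, |ht (O i)| ≤ T1 := by
    intro i
    have h1 := excS_ge (TW ep e1 m) O i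
    have h2 := le_max_left (excS (TW ep e1 m) O) E
    rw [hT1]
    unfold T1R
    linarith
  obtain ⟨x, hx0, hx, hQ⟩ := hpin T1 hT1E
  have hR : RgR ep e1 m g aX aY ν N O E x :=
    ⟨hn, hσ, haX, haY, hq, hν, hN, hr, hchg.1, hchg.2, hE, hcE, hx0, fun i => by
      rw [← hT1]
      exact hx i⟩
  have h5 := h4 m hM0 n g aX aY ν N b' r O E x hb' hR
  rw [← hT1] at h5
  obtain ⟨F, hF⟩ : ∃ F : ℝ, F = if ∀ i, |(g i).τ| ≤ TW ep e1 m then 1 else
    Real.exp (Real.log m / 2) := ⟨_, rfl⟩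
  rw [← hF] at h5 ⊢
  have hF0 : 0 ≤ F := by
    rw [hF]
    split_ifs
    · exact zero_le_one
    · exact (Real.exp_pos _).le
  obtain ⟨gn, hgn⟩ : ∃ gn : ℝ, gn = Real.exp (-gnF e1 J m g) := ⟨_, rfl⟩
  rw [← hgn] at h5 ⊢
  have hgn0 : 0 ≤ gn := by
    rw [hgn]
    exact (Real.exp_pos _).le
  obtain ⟨mp, hmp⟩ : ∃ mp, mp = (m : ℝ) ^ (Ca * (ep + e1) + δ) := ⟨_, rfl⟩
  rw [← hmp] at h5 ⊢
  have hmp0 : 0 ≤ mp := by
    rw [hmp]
    positivity
  -- the numbers
  have hpq : (((N + aX - chgO O true : ℕ) : ℝ) - ((N + aY - chgO O false : ℕ) : ℝ)) =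
      ((aX : ℝ) - aY) - ∑ i, sg (NUO.sp (O i)) * kq (kd (O i)) := by
    rw [NUH0.sum_kq, Nat.cast_sub hchg.1, Nat.cast_sub hchg.2]
    push_cast
    ring
  obtain ⟨EE, hEE⟩ : ∃ EE, EE = 1 / 2 * (∑ d, ∑ d', ES (TG (fun i => (g i).pin T1) d)
    (TG (fun i => (g i).pin T1) d')) := ⟨_, rfl⟩
  obtain ⟨ct, hct⟩ : ∃ ct, ct = cstF T1 g true := ⟨_, rfl⟩
  set es : Fin r → ℝ := fun i => ∑ d, ES (obSr (NUSea.O.par0 m).jL (NUSea.O.par0 m).e (O i))
    (TG (fun i => (g i).pin T1) d) - ct * (sg (NUO.sp (O i)) * kq (kd (O i))) with hes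
  have henG : enR m g O T1 (N + aX - chgO O true) (N + aY - chgO O false) =
      ∑ i, es i + (EE + ct * ((aX : ℝ) - aY)) := by
    unfold enR
    rw [hpq, hes, sum_sub_distrib, ← mul_sum, ← hEE, ← hct]
    ring
  set B : ℝ := prefR G m g E x Cst * mp * F * gn * Real.exp (EE + ct * ((aX : ℝ) - aY)) with hBd
  have hB0 : 0 ≤ B := by
    have := prefR_nonneg (G := G) (m := m) (g := g) (E := E) (x := x) hCst
    positivity
  -- the algebra
  have hobj0 : ∀ i, 0 ≤ ob1c (G.B m (4 / 3 * (1 - ep))) (NUSea.O.par0 m).jL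
      (ei (NUSea.O.par0 m) O i) (rr (NUSea.O.par0 m) O i) (O i) := fun i =>
    ob1c_nonneg (hB _ _) _ _ (NUSea.O.rad0_pos _ _ _).le _
  have hdr : (r : ℝ) ^ 2 * (NUSea.O.par0 m).d r ≤ r := by
    rcases Nat.eq_zero_or_pos r with h | h
    · simp [h]
    · have h1 := d0_sq r
      have h2 : (1 : ℝ) ≤ r := by exact_mod_cast h
      rw [NUSea.O.par0_d]
      linarith
  have key := conf_algC (x := fun i => ht (O i))
    (o := fun i => ob1c (G.B m (4 / 3 * (1 - ep))) (NUSea.O.par0 m).jL (ei (NUSea.O.par0 m) O i)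
      (rr (NUSea.O.par0 m) O i) (O i))
    (sp := fun i => facL (spF g) (cons (NUSea.O.par0 m) O i))
    (u := fun i => G.one m ep e1 J r O i) (es := es)
    (act' := fun i => act C 1 c (1 / 10) (12 + 6) (Real.log m) ep e1 J r (ht (O i)))
    (coll := fun i => collC C2 4 (NUSea.O.par0 m) r (O i))
    (col := fun i => colK (((r : ℝ) + 1) ^ 12) (kd (O i)))
    (PP := ∏ i, ∏ j, if i < j then pairN (NUSea.O.par0 m) O i j else 1) (EG := enC O) (B := B)
    (K := K) (C2 := C2) (A := (C2 * 6144 + 1) * 4) (A2 := Real.log C3) (c1 := c1) (kap := c1 / 2)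
    (dr := (NUSea.O.par0 m).d r) W hC2.le (by positivity) le_rfl hdr hobj0
    (fun i => facL_nonneg (spFR_nonneg g) _)
    (fun i => collC_nonneg hC2.le (d0_pos r) _)
    (fun i => coll_bd hC2.le (by norm_num) (d0_pos r) (d0_inv r).le _)
    (fun W => hstab (NUSea.O.par0 m) rfl rfl r (NUSea.O.small_par0 _ r) O W)
    (fun i => by
      have h := hspec (NUSea.O.par0 m) rfl rfl r (NUSea.O.small_par0 _ r) O i T1 (hT1O i) n g hn
      rw [Real.exp_log (by linarith), hes]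
      rw [← hct] at h
      exact h)
    (fun i => hone m hM1 r O i) hB0
  -- the weight of the objects
  have hobj : objWc ((G.B m (4 / 3 * (1 - ep))).mul (spF g)) (NUSea.O.par0 m) O =
      ((∏ i, ob1c (G.B m (4 / 3 * (1 - ep))) (NUSea.O.par0 m).jL (ei (NUSea.O.par0 m) O i)
        (rr (NUSea.O.par0 m) O i) (O i)) * ∏ i, facL (spF g) (cons (NUSea.O.par0 m) O i)) *
        ∏ i, ∏ j, if i < j then pairN (NUSea.O.par0 m) O i j else 1 := by
    unfold objWc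
    rw [prod_ob1c_mul]
  have hobjn : 0 ≤ objWc ((G.B m (4 / 3 * (1 - ep))).mul (spF g)) (NUSea.O.par0 m) O := by
    rw [hobj]
    refine mul_nonneg (mul_nonneg (prod_nonneg fun i _ => hobj0 i)
      (prod_nonneg fun i _ => facL_nonneg (spFR_nonneg g) _)) ?_
    refine prod_nonneg fun i _ => prod_nonneg fun j _ => ?_
    split_ifs
    · exact pairN_nonneg _ _ _ _
    · exact zero_le_one
  have hexp : prefR G m g E x Cst * mp * F * gn * Real.exp (confR G m ep e1 J K (c1 / 2) O +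
      enR m g O T1 (N + aX - chgO O true) (N + aY - chgO O false)) =
      B * Real.exp (∑ i, G.one m ep e1 J r O i + ∑ i, es i + K * r + enC O +
        c1 / 2 * win univ fun i => ht (O i)) := by
    rw [henG, hBd, mul_assoc _ (Real.exp _) (Real.exp _), ← Real.exp_add]
    congr 2
    unfold confR
    ring
  rw [hexp] at h5
  -- the prefactor
  have hBQ : B ≤ Cst * Real.exp ((m : ℝ) ^ 2 * G.EM) * mp *
      Real.exp (m * ∑ i, G.MF (g i).c (g i).w) * F * gn * Qe := by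
    have e1 : B = Cst * Real.exp ((m : ℝ) ^ 2 * G.EM) * mp *
        Real.exp (m * ∑ i, G.MF (g i).c (g i).w) * F * gn *
        Real.exp (enQ g aX aY E x T1) := by
      rw [hBd]
      unfold prefR enQ
      rw [← hEE, ← hct, Real.exp_add (EE + ct * ((aX : ℝ) - aY))]
      ring
    rw [e1]
    refine mul_le_mul_of_nonneg_left hQ ?_
    positivity
  have hact0 : 0 ≤ ∏ i, act C 1 c (1 / 10) (12 + 6) (Real.log m) ep e1 J r (ht (O i)) :=
    prod_nonneg fun i _ => act_nonneg hC.le zero_le_one (log_nn m)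
  have hlast : B * (∏ i, act C 1 c (1 / 10) (12 + 6) (Real.log m) ep e1 J r (ht (O i))) *
      Real.exp (-(c1 / 2 * ∑ w ∈ W, (cnt (fun i => ht (O i)) w : ℝ) ^ 2)) ≤
      Cst * Real.exp ((m : ℝ) ^ 2 * G.EM) * mp *
        Real.exp (m * ∑ i, G.MF (g i).c (g i).w) * F * gn * Qe *
        (if (r : ℝ) ≤ Real.log m then 1 else Real.exp (0 * Real.log m)) *
        (∏ i, act C 1 c (1 / 10) (12 + 6) (Real.log m) ep e1 J r (ht (O i))) *
        Real.exp (-(c1 / 2 * ∑ w ∈ W, (cO O w : ℝ) ^ 2)) := by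
    have g3 : ∀ w, cO O w = cnt (fun i => ht (O i)) w := fun w => rfl
    have g4 : (if (r : ℝ) ≤ Real.log m then (1 : ℝ) else Real.exp (0 * Real.log m)) = 1 := by
      split_ifs
      · rfl
      · rw [zero_mul, Real.exp_zero]
    simp only [g3]
    rw [g4, mul_one]
    refine mul_le_mul_of_nonneg_right ?_ (Real.exp_pos _).le
    exact mul_le_mul_of_nonneg_right hBQ hact0
  calc ENNReal.ofReal (Real.exp (b' * (ν - N))) *
        (ENNReal.ofReal (objWc ((G.B m (4 / 3 * (1 - ep))).mul (spF g)) (NUSea.O.par0 m) O) *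
          Z1c ((G.B m (4 / 3 * (1 - ep))).mul (spF g)) (NUSea.O.par0 m) (etaC e1 J m m)
            (etaC' e1 J m m) O (N + aX - chgO O true) (N + aY - chgO O false))
      = ENNReal.ofReal (objWc ((G.B m (4 / 3 * (1 - ep))).mul (spF g)) (NUSea.O.par0 m) O) *
        lhsR G ep e1 J m g aX aY ν N b' O := by
        unfold lhsR
        ring
    _ ≤ ENNReal.ofReal (objWc ((G.B m (4 / 3 * (1 - ep))).mul (spF g)) (NUSea.O.par0 m) O) *
        ENNReal.ofReal (B * Real.exp (∑ i, G.one m ep e1 J r O i + ∑ i, es i + K * r +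
          enC O + c1 / 2 * win univ fun i => ht (O i))) := mul_le_mul_right h5 _
    _ = ENNReal.ofReal (objWc ((G.B m (4 / 3 * (1 - ep))).mul (spF g)) (NUSea.O.par0 m) O *
        (B * Real.exp (∑ i, G.one m ep e1 J r O i + ∑ i, es i + K * r +
          enC O + c1 / 2 * win univ fun i => ht (O i)))) := (ENNReal.ofReal_mul hobjn).symm
    _ ≤ ENNReal.ofReal (B * (∏ i, act C 1 c (1 / 10) (12 + 6) (Real.log m) ep e1 J r (ht (O i))) *
      Real.exp (-(c1 / 2 * ∑ w ∈ W, (cnt (fun i => ht (O i)) w : ℝ) ^ 2))) := by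
        refine ENNReal.ofReal_le_ofReal ?_
        rw [hobj]
        exact key
    _ ≤ _ := ENNReal.ofReal_le_ofReal hlast

end PBO

end
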