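import Pool.Agent.NUGC.AsmK
import Pool.Agent.PB.AsmR

/-!
# The tilted bounds of all classes, any one body data (with the gain)

The content of `NUGC/{ClsSp, AsmK}` for an abstract geometry `G` (`PB/AsmR`).

* `obKB`, `obDB`: one body data of a class, of D1, D1' over a base `B`; `perK_ofB`, `perD_ofB`;
* `QFR`, `QDR`: the prefactors with the gain `gnP`, `gnQ`;
* **`perBd_ofR : PerGR → PerBdR`**.
-/

set_option autoImplicit false

noncomputable section

open MeasureTheory Finset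
open scoped ENNReal

namespace PBO

open NUGC
open NUO NUP1 NUCR NUP1S NURow NUP1.Leg
open NUC43 (kq)
open NUSea.H0 (Gd IG TG cstF)
open NUSp (kG spo qc)

/-! ### the one body data of a class over a base -/

/-- one body data of the class `t, t'` at fixed half quanta with the choice `i, i'` over the base `B` -/
def obKB (B : OB) (t t' : HT) (w w' : ℂ) (i i' : Bool) : OB :=
  B.mul fun a z => ‖sV (sG (htF t) (htF t') w w') w w' i i' a z‖

/-- one body data of D1 (`o = true`), D1' over the base `B` -/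
def obDB (B : OB) (o : Bool) (w : ℂ) : OB :=
  B.mul fun a z => ‖SD (if o then a else !a) none (w - z)‖

theorem obKB_eq (B : OB) {t t' : HT} {i i' : Bool} (hi : i = true → htP t = true)
    (hi' : i' = true → htP t' = true) (τ τ' : ℝ) (a : Bool) {z : ℂ} (hz : z ∈ DomC) :
    (obKB B t t' (vl (htL t) τ) (vl (htL t') τ') i i').R a z =
      (B.mul (spL (famK t t' i i' τ τ'))).R a z := by
  show B.R a z * ‖sV (sG (htF t) (htF t') (vl (htL t) τ) (vl (htL t') τ'))
    (vl (htL t) τ) (vl (htL t') τ') i i' a z‖ = B.R a z * spL (famK t t' i i' τ τ') a z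
  congr 1
  unfold famK
  rw [spL_append, ← norm_grp true a t i hi τ hz, ← norm_grp false a t' i' hi' τ' hz]
  unfold sV sG
  rw [norm_mul, norm_mul, norm_mul]
  have e1 : (a == true) = a := by cases a <;> rfl
  have e2 : (a == false) = !a := by cases a <;> rfl
  have e3 : ∀ (b : Bool) (x : ℂ), ‖(if b then x else 1)‖ = if b then ‖x‖ else 1 := by
    intro b x
    cases b <;> simp
  rw [e1, e2, e3, e3]
  ring

theorem obDB_eq (B : OB) (o : Bool) (τ : ℝ) (a : Bool) {z : ℂ} (hz : z ∈ DomC) :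
    (obDB B o (vl (-(11 / 4) * l) τ)).R a z = (B.mul (spL (famD o τ))).R a z := by
  show B.R a z * ‖SD (if o then a else !a) none (vl (-(11 / 4) * l) τ - z)‖ =
    B.R a z * (hq o (vl (Ek.ps .h1 * l) τ) a z *
      (hq (!o) (vl (Ek.ps .hm * l) τ) a z * 1))
  congr 1
  rw [mul_one, vl_ps .hm (x := -(11 / 4)) (by norm_num [Ek.x]), vl_ps .h1 (x := 1 / 4)
      (by norm_num [Ek.x])]
  obtain ⟨d1, d2, d3, d4⟩ := dom_m hz τ
  have hv : vl (1 / 4 * l) τ - z = vl (-(11 / 4) * l) τ - z + 3 * l := by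
    unfold vl
    push_cast
    ring
  have k1 : ‖(1 : ℂ)‖ = ‖Ck (vl (1 / 4 * l) τ - z)‖ * ‖Dk (vl (-(11 / 4) * l) τ - z)‖ := by
    rw [hv, ← norm_mul, Dk_Ck d1 d2 d3]
  have k2 : ‖NURow.Tk (vl (-(11 / 4) * l) τ - z)‖ = ‖Dk (vl (1 / 4 * l) τ - z)‖ *
      ‖Ck (vl (-(11 / 4) * l) τ - z)‖ := by
    rw [hv, ← norm_mul, Tk_eq d4]
  cases o <;> cases a
  · exact k1
  · exact k2
  · exact k2
  · exact k1

/-- **the tilted bound of the terms of a class from `PerCof` with the elementary spectators** -/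
theorem perK_ofB {C C' c b : ℝ} {k : ℕ} {c1 c' L ep e1 J ν d : ℝ} {N : ℕ} {P : NUO.Par}
    {B : OB} {t t' : HT} {i i' : Bool} {τ τ' Q : ℝ} (hP : ParC P) (hj : P.jL = 9 / 4)
    (he : P.e = 1 / 4) (hep : 0 ≤ ep) (hep' : ep ≤ 1 / 100) (hC : 0 ≤ C) (hC' : 0 ≤ C')
    (hL : 0 ≤ L) (hQ : 0 ≤ Q) (hi : i = true → htP t = true) (hi' : i' = true → htP t' = true)
    (h : PerCof C C' c b k c1 c' L ep e1 J (ν - shK t t' i i') d N
      (B.mul (spL (famK t t' i i' τ τ'))) P (htM t t' - htD t' + shK t t' i i' - i.toNat)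
      (htM t t' - htD t + shK t t' i i' - i'.toNat) Q) :
    PerGen C C' c b k c1 c' L ep e1 J ν d N (htM t t' - htD t' + (htM t t' - htD t))
      (TmV i.toNat i'.toNat (obKB B t t' (vl (htL t) τ) (vl (htL t') τ') i i') P
        (htM t t' - htD t') (htM t t' - htD t)) Q := by
  refine perGen_congr (B := B.mul (spL (famK t t' i i' τ τ'))) hP hj he
    (fun a z hz => (obKB_eq B hi hi' τ τ' a hz).symm) rfl rfl hep hep' ?_
  refine perGen_V (s := shK t t' i i') hep hC hC' hL hQ ?_ ?_ ?_ h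
  · cases t <;> cases t' <;> cases i <;> cases i' <;> simp_all [shK, htM, htD, htP]
  · cases t <;> cases t' <;> cases i <;> cases i' <;> simp_all [shK, htM, htD, htP]
  · cases t <;> cases t' <;> cases i <;> cases i' <;> simp_all [shK, htM, htD, htP]

/-- **the tilted bound of D1, D1' from `PerCof` with the elementary spectators** -/
theorem perD_ofB {C C' c b : ℝ} {k : ℕ} {c1 c' L ep e1 J ν d : ℝ} {N : ℕ} {P : NUO.Par}
    {B : OB} {o : Bool} {τ Q : ℝ} (hP : ParC P) (hj : P.jL = 9 / 4)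
    (he : P.e = 1 / 4) (hep : 0 ≤ ep) (hep' : ep ≤ 1 / 100)
    (h : PerCof C C' c b k c1 c' L ep e1 J ν d N (B.mul (spL (famD o τ))) P 0 0 Q) :
    PerCof C C' c b k c1 c' L ep e1 J ν d N (obDB B o (vl (-(11 / 4) * l) τ)) P 0 0 Q := by
  intro n hn b' hb' r hr O
  obtain ⟨η, η', hcur, hb⟩ := h n hn b' hb' r hr O
  refine ⟨η, η', hcur, fun W => ?_⟩
  have e : TmC (fun _ _ => obDB B o (vl (-(11 / 4) * l) τ)) P 0 0 n r O η η' =
      TmC (fun _ _ => B.mul (spL (famD o τ))) P 0 0 n r O η η' :=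
    Fnc_congr hP hj he (fun a z hz => obDB_eq B o τ a hz) rfl rfl hep hep' hcur _ _ O
  rw [e]
  exact hb W

/-- the groups of a class as a list of elementary spectators -/
theorem spF_gdK (t t' : HT) (u : Bool × Bool) (y : ℝ × ℝ) :
    spF (gdK t t' u y) = spL (famK t t' u.1 u.2 y.1 y.2) := by
  funext a z
  unfold famK
  rw [spL_append, ← lsG_gd true t u.1 y.1, ← lsG_gd false t' u.2 y.2]
  unfold spF
  rw [Fin.prod_univ_two]
  rfl

theorem spF_gdD (o : Bool) (τ : ℝ) : spF (gdD o τ) = spL (famD o τ) := by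
  funext a z
  unfold spF
  rw [Fin.prod_univ_one]
  cases o
  · show spL [(true, .hm, τ), (false, .h1, τ)] a z = spL [(false, .h1, τ), (true, .hm, τ)] a z
    unfold spL
    simp only [List.map_cons, List.map_nil, List.prod_cons, List.prod_nil]
    ring
  · show spL [(false, .hm, τ), (true, .h1, τ)] a z = spL [(true, .h1, τ), (false, .hm, τ)] a z
    unfold spL
    simp only [List.map_cons, List.map_nil, List.prod_cons, List.prod_nil]
    ring

/-! ### the prefactors -/

/-- **the prefactor of the choice `u` of the class `t, t'`**, with the gain (`A` = constant) -/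
def QFR (MF : NUSp.Cl → ℂ → ℝ) (ep e1 J : ℝ) (m : ℕ) (A : ℝ) (t t' : HT) (y : ℝ × ℝ)
    (u : Bool × Bool) : ℝ :=
  A * (Real.exp (m * MF (clh t u.1) (vl (htL t) y.1)) *
    Real.exp (m * MF (clh t' u.2) (vl (htL t') y.2)) *
    (fr (TW ep e1 m) (Real.log m) y *
      QX (TW ep e1 m) (qh t u.1) (qh t' u.2) y.1 y.2)) *
    Real.exp (-gnP e1 J m (phC (clh t u.1)) (phC (clh t' u.2)) y)

/-- **the prefactor of D1, D1'**, with the gain -/
def QDR (MF : NUSp.Cl → ℂ → ℝ) (ep e1 J : ℝ) (m : ℕ) (A : ℝ) (τ : ℝ) : ℝ :=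
  A * (Real.exp (m * MF .d (vl (-(11 / 4) * l) τ)) *
    ((if |τ| ≤ TW ep e1 m then 1 else Real.exp (Real.log m / 2)) *
      Real.exp (37 / 20 * xs (TW ep e1 m) τ))) *
    Real.exp (-gnQ e1 J m (phC .d) τ)

theorem QFR_nonneg {MF : NUSp.Cl → ℂ → ℝ} {ep e1 J : ℝ} {m : ℕ} {A : ℝ} (hA : 0 ≤ A) (t t' : HT)
    (y : ℝ × ℝ) (u : Bool × Bool) : 0 ≤ QFR MF ep e1 J m A t t' y u :=
  mul_nonneg (mul_nonneg hA (mul_nonneg (mul_nonneg (Real.exp_pos _).le (Real.exp_pos _).le)
    (mul_nonneg (fr_nonneg _ _ _) (QX_nonneg _ _ _ _ _)))) (Real.exp_pos _).le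

theorem QDR_nonneg {MF : NUSp.Cl → ℂ → ℝ} {ep e1 J : ℝ} {m : ℕ} {A : ℝ} (hA : 0 ≤ A) (τ : ℝ) :
    0 ≤ QDR MF ep e1 J m A τ := by
  unfold QDR
  refine mul_nonneg (mul_nonneg hA (mul_nonneg (Real.exp_pos _).le
    (mul_nonneg ?_ (Real.exp_pos _).le))) (Real.exp_pos _).le
  split_ifs
  · exact zero_le_one
  · exact (Real.exp_pos _).le

/-- the constant `A` of `QFR`, `QDR` -/
def ACR (EM Cst Ca ep e1 δ : ℝ) (m : ℕ) : ℝ := Cst * (m : ℝ) ^ (Ca * (ep + e1) + δ) *
  Real.exp ((m : ℝ) ^ 2 * EM)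

theorem ACR_nonneg {Cst : ℝ} (h : 0 ≤ Cst) (EM Ca ep e1 δ : ℝ) (m : ℕ) :
    0 ≤ ACR EM Cst Ca ep e1 δ m := by
  unfold ACR
  positivity

variable [NUSea.Sea]

/-- **the tilted bounds of all classes** with the prefactors `QFR`, `QDR` -/
def PerBdR (G : Geo) : Prop :=
  ∃ (C c b c1 c' Ca : ℝ) (k : ℕ), 0 < C ∧ 0 < c ∧ 0 < b ∧ 0 < c1 ∧ 0 ≤ c' ∧ 0 ≤ Ca ∧
    ∀ ep : ℝ, 0 < ep → ep ≤ 1 / 100 → ∀ e1 : ℝ, 0 < e1 → e1 ≤ 1 / 100 → ∀ J : ℝ, 0 ≤ J →
    ∀ δ : ℝ, 0 < δ → ∃ d C' Cst : ℝ, 0 < d ∧ 0 ≤ C' ∧ 0 ≤ Cst ∧ ∃ m0 : ℕ, ∀ m : ℕ, m0 ≤ m →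
      (∀ (t t' : HT) (y : ℝ × ℝ) (u : Bool × Bool), (u.1 = true → htP t = true) →
          (u.2 = true → htP t' = true) →
          PerGen C C' c b k c1 c' (Real.log m) ep e1 J m d (2 * m) (aXt t t' + aYt t t')
            (TmV u.1.toNat u.2.toNat (obKB (G.B m (beC ep)) t t' (vl (htL t) y.1)
              (vl (htL t') y.2) u.1 u.2) (NUSea.O.par0 m) (aXt t t') (aYt t t'))
            (QFR G.MF ep e1 J m (ACR G.EM Cst Ca ep e1 δ m) t t' y u)) ∧
      ∀ (o : Bool) (y : ℝ), PerCof C C' c b k c1 c' (Real.log m) ep e1 J m d (2 * m)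
          (obDB (G.B m (beC ep)) o (vl (-(11 / 4) * l) y)) (NUSea.O.par0 m) 0 0
          (QDR G.MF ep e1 J m (ACR G.EM Cst Ca ep e1 δ m) y)

theorem parC_par0 (m : ℕ) : ParC (NUSea.O.par0 m) where
  j1 := by rw [NUSea.O.par0_jL]
  j2 := by rw [NUSea.O.par0_jL]; norm_num
  e1 := by rw [NUSea.O.par0_e]; norm_num
  d0 := fun r => by rw [NUSea.O.par0_d]; exact d0_pos r
  e2 := fun r => by
    have := d0_le r
    rw [NUSea.O.par0_e, NUSea.O.par0_d]
    norm_num at this ⊢
    linarith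
  rm := NUSea.O.rad0_meas _
  r0 := fun r t => NUSea.O.rad0_pos _ r t
  r1 := fun r t => by
    refine (NUSea.O.rad0_le _ r t).trans ?_
    have h3 := d0_pos r
    have h4 := l_pos0
    show NUP1.l * d0 r / (64 * (r + 1)) ≤ NUP1.l * d0 r / (8 * (r + 1))
    gcongr
    norm_num

theorem parM_par0 (m : ℕ) : ParM (NUSea.O.par0 m) :=
  ⟨parC_par0 m, NUSea.O.par0_jL _, (NUSea.O.par0_e _).ge⟩

theorem TWR_nonneg {ep e1 : ℝ} (hep : 0 < ep) (he1 : 0 < e1) (m : ℕ) : 0 ≤ TW ep e1 m := by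
  have hL := log_nn m
  unfold TW Tb
  positivity

/-- **the tilted bounds of all classes** from those of the families of groups -/
theorem perBd_ofR {G : Geo} {C c b c1 Ca : ℝ} {k : ℕ} (hC0 : 0 < C) (hc : 0 < c) (hb : 0 < b)
    (hc1 : 0 < c1) (hCa : 0 ≤ Ca) (hG : PerGR G C c b k c1 Ca) : PerBdR G := by
  obtain ⟨K2, hK2, hQ2⟩ := grp_QX
  obtain ⟨K1, hK1, hQ1⟩ := one_QX
  refine ⟨C, c, b, c1, 0, Ca, k, hC0, hc, hb, hc1, le_rfl, hCa, ?_⟩
  intro ep hep hep' e1 he1 he1' J hJ δ hδ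
  obtain ⟨d, Cst, hd, hCst, M0, hM0⟩ := hG ep hep hep' e1 he1 he1' J hJ δ hδ
  refine ⟨d, 1, Cst * Real.exp (K1 + K2), hd, zero_le_one, by positivity, M0, fun m hM => ?_⟩
  have hT := TWR_nonneg hep he1 m
  have hL := log_nn m
  have hAC := ACR_nonneg (Cst := Cst * Real.exp (K1 + K2)) (by positivity) G.EM Ca ep e1 δ m
  have hexp1 : Real.exp K2 ≤ Real.exp (K1 + K2) := Real.exp_le_exp.2 (by linarith)
  have hexp2 : Real.exp K1 ≤ Real.exp (K1 + K2) := Real.exp_le_exp.2 (by linarith)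
  refine ⟨fun t t' y u h h' => ?_, fun o τ => ?_⟩
  · -- the classes
    obtain ⟨a1, a2, a3⟩ := aXY_K t t' u h h'
    have hsh := shK_le t t' u.1 u.2
    refine perK_ofB (parM_par0 m).1 (parM_par0 m).2.1 (NUSea.O.par0_e _) hep.le hep' hC0.le
      zero_le_one hL (QFR_nonneg hAC t t' y u) h h' ?_
    obtain ⟨aX, haX⟩ : ∃ aX, aX = htM t t' - htD t' + shK t t' u.1 u.2 - u.1.toNat := ⟨_, rfl⟩
    obtain ⟨aY, haY⟩ : ∃ aY, aY = htM t t' - htD t + shK t t' u.1 u.2 - u.2.toNat := ⟨_, rfl⟩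
    rw [← haX, ← haY]
    rw [← haX] at a1
    rw [← haY] at a2
    rw [← haX, ← haY] at a3
    have hq : (aX : ℝ) - aY = -∑ i, NUC43.sg (gdK t t' u y i).σ * qc (gdK t t' u y i).c / 2 := by
      rw [Fin.sum_univ_two, a3]
      show _ = -(NUC43.sg true * qc (clh t u.1) / 2 + NUC43.sg false * qc (clh t' u.2) / 2)
      rw [qc_clh t u.1 h, qc_clh t' u.2 h']
      unfold NUC43.sg
      simp only [if_true, Bool.false_eq_true, if_false]
      ring
    have hE0 : ∀ q τ, 0 ≤ ex (TW ep e1 m) q τ := by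
      intro q τ
      unfold ex xs
      split_ifs
      · exact le_rfl
      · exact le_max_right _ _
    have hexc : ∀ (c : NUSp.Cl) (τ : ℝ), c ≠ .d → c = .w ∨ |τ| ≤ TW ep e1 m +
        ex (TW ep e1 m) (qc c) τ := by
      intro c τ hc
      rcases eq_or_ne c .w with hw | hw
      · exact Or.inl hw
      · right
        have : qc c ≠ 1 := by
          revert hc hw
          cases c <;> norm_num [qc]
        unfold ex xs
        rw [if_neg this]
        linarith [le_max_left (|τ| - TW ep e1 m) 0]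
    have hcd : ∀ (t : HT) (i : Bool), clh t i ≠ .d := by
      intro t i
      cases t <;> cases i <;> simp [clh]
    set E : ℝ := max (ex (TW ep e1 m) (qc (clh t u.1)) y.1)
      (ex (TW ep e1 m) (qc (clh t' u.2)) y.2) with hE
    have hE1 : ex (TW ep e1 m) (qc (clh t u.1)) y.1 ≤ E := le_max_left _ _
    have hE2 : ex (TW ep e1 m) (qc (clh t' u.2)) y.2 ≤ E := le_max_right _ _
    have hall : ∀ i, (gdK t t' u y i).c = .w ∨ |(gdK t t' u y i).τ| ≤ TW ep e1 m + E := by
      intro i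
      fin_cases i
      · rcases hexc (clh t u.1) y.1 (hcd t u.1) with h0 | h0
        · exact Or.inl h0
        · right
          show |y.1| ≤ _
          linarith
      · rcases hexc (clh t' u.2) y.2 (hcd t' u.2) with h0 | h0
        · exact Or.inl h0
        · right
          show |y.2| ≤ _
          linarith
    have key := hM0 m hM 2 (gdK t t' u y) aX aY ((m : ℝ) - shK t t' u.1 u.2) E
      (Real.exp K2 * QX (TW ep e1 m) (qh t u.1) (qh t' u.2) y.1 y.2) le_rfl
      (by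
        intro i j hij
        fin_cases i <;> fin_cases j
        · exact absurd rfl hij
        · show true ≠ false
          simp
        · show false ≠ true
          simp
        · exact absurd rfl hij)
      a1 a2 hq
      (by
        rw [abs_le]
        have h1 : (shK t t' u.1 u.2 : ℝ) ≤ 1 := by exact_mod_cast hsh
        have h2 : (0 : ℝ) ≤ (shK t t' u.1 u.2 : ℝ) := Nat.cast_nonneg _
        constructor <;> linarith)
      ((hE0 _ _).trans hE1)
      (fun i => by
        rcases hall i with h0 | h0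
        · exact Or.inl h0
        · exact Or.inr (Or.inr h0))
      (mul_nonneg (Real.exp_pos _).le (QX_nonneg _ _ _ _ _))
      (by
        intro T1 hT1
        refine ⟨max (xs T1 y.1) (xs T1 y.2), (le_max_right _ _).trans (le_max_left _ _), ?_, ?_⟩
        · intro i
          fin_cases i
          · exact le_max_left (xs T1 y.1) (xs T1 y.2)
          · exact le_max_right (xs T1 y.1) (xs T1 y.2)
        · have h0 : 0 ≤ E := (hE0 _ _).trans hE1
          have k1 := hQ2 (gdK t t' u y) rfl rfl (by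
            intro i
            fin_cases i
            · exact hcd t u.1
            · exact hcd t' u.2) (TW ep e1 m) T1 hT (by linarith) (by
              intro i
              rcases hall i with h1 | h1
              · exact Or.inl h1
              · exact Or.inr (h1.trans hT1))
          rw [← hq] at k1
          refine le_trans (le_of_eq ?_) k1
          unfold enQ
          congr 1
          rw [hE]
          show _ + (37 / 20 * max (xs T1 y.1) (xs T1 y.2) + 12 / 5 * max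
            (ex (TW ep e1 m) (qc (clh t u.1)) y.1) (ex (TW ep e1 m) (qc (clh t' u.2)) y.2)) =
            _ + 37 / 20 * max (xs T1 y.1) (xs T1 y.2) + 12 / 5 * max
            (ex (TW ep e1 m) (qc (clh t u.1)) y.1) (ex (TW ep e1 m) (qc (clh t' u.2)) y.2)
          ring)
    rw [spF_gdK] at key
    refine perGen_monoQ hC0.le zero_le_one hL ?_ key
    have hF : (if ∀ i, |(gdK t t' u y i).τ| ≤ TW ep e1 m then (1 : ℝ) else
        Real.exp (Real.log m / 2)) = fr (TW ep e1 m) (Real.log m) y := by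
      unfold fr
      by_cases hc : |y.1| ≤ TW ep e1 m ∧ |y.2| ≤ TW ep e1 m
      · rw [if_pos hc, if_pos (Fin.forall_fin_two.2 hc)]
      · rw [if_neg hc, if_neg fun hc' => hc (Fin.forall_fin_two.1 hc')]
    have hMF : ∑ i, G.MF (gdK t t' u y i).c (gdK t t' u y i).w =
        G.MF (clh t u.1) (vl (htL t) y.1) + G.MF (clh t' u.2) (vl (htL t') y.2) := by
      rw [Fin.sum_univ_two, ← w_gd true t u.1 y.1, ← w_gd false t' u.2 y.2]
      rfl
    have hgn : gnF e1 J m (gdK t t' u y) =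
        gnP e1 J m (phC (clh t u.1)) (phC (clh t' u.2)) y := by
      unfold gnF gnP
      rw [Fin.sum_univ_two]
      show 12 * NUMF.l * NUGC.hC e1 J m 0 + (2 * (phC (clh t u.1) * NUGC.hC e1 J m y.1) +
        2 * (phC (clh t' u.2) * NUGC.hC e1 J m y.2)) = _
      ring
    rw [hF, hMF, hgn]
    unfold QFR ACR
    have f0 := fr_nonneg (TW ep e1 m) (Real.log m) y
    have q0 := QX_nonneg (TW ep e1 m) (qh t u.1) (qh t' u.2) y.1 y.2
    rw [mul_add (m : ℝ) (G.MF _ _), Real.exp_add ((m : ℝ) * G.MF _ _)]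
    set f := fr (TW ep e1 m) (Real.log m) y with hf
    set qx := QX (TW ep e1 m) (qh t u.1) (qh t' u.2) y.1 y.2 with hqx
    set E1 := Real.exp ((m : ℝ) * G.MF (clh t u.1) (vl (htL t) y.1)) with hE1'
    set E2 := Real.exp ((m : ℝ) * G.MF (clh t' u.2) (vl (htL t') y.2)) with hE2'
    set X := Real.exp ((m : ℝ) ^ 2 * G.EM) with hX
    set gn := Real.exp (-gnP e1 J m (phC (clh t u.1)) (phC (clh t' u.2)) y) with hgn'
    set p := (m : ℝ) ^ (Ca * (ep + e1) + δ) with hp
    have hp0 : 0 ≤ p := by positivity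
    calc Cst * X * p * (E1 * E2) * f * gn * (Real.exp K2 * qx)
        = (Cst * X * p * (E1 * E2) * f * gn * qx) * Real.exp K2 := by ring
      _ ≤ (Cst * X * p * (E1 * E2) * f * gn * qx) * Real.exp (K1 + K2) :=
          mul_le_mul_of_nonneg_left hexp1 (by positivity)
      _ = Cst * Real.exp (K1 + K2) * p * X * (E1 * E2 * (f * qx)) * gn := by ring
  · -- D1, D1'
    refine perD_ofB (parM_par0 m).1 (parM_par0 m).2.1 (NUSea.O.par0_e _) hep.le hep' ?_
    have hq : ((0 : ℕ) : ℝ) - ((0 : ℕ) : ℝ) =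
        -∑ i, NUC43.sg (gdD o τ i).σ * qc (gdD o τ i).c / 2 := by
      rw [Fin.sum_univ_one]
      show ((0 : ℕ) : ℝ) - ((0 : ℕ) : ℝ) = -(NUC43.sg (!o) * qc .d / 2)
      simp [qc]
    have key := hM0 m hM 1 (gdD o τ) 0 0 m 0
      (Real.exp K1 * Real.exp (37 / 20 * xs (TW ep e1 m) τ)) (by norm_num)
      (by
        intro i j hij
        exact absurd (Subsingleton.elim i j) hij)
      (by norm_num) (by norm_num) hq
      (by
        rw [sub_self, abs_zero]
        norm_num)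
      le_rfl
      (fun i => Or.inr (Or.inl rfl))
      (by positivity)
      (by
        intro T1 hT1
        refine ⟨xs T1 τ, le_max_right _ _, fun i => le_rfl, ?_⟩
        have k1 := hQ1 (gdD o τ) rfl (TW ep e1 m) T1 (by linarith)
        rw [← hq] at k1
        refine le_trans (le_of_eq ?_) k1
        unfold enQ
        congr 1
        show _ + (37 / 20 * xs T1 τ + 12 / 5 * 0) = _ + 37 / 20 * xs T1 τ
        ring)
    rw [spF_gdD] at key
    refine perGen_monoQ hC0.le zero_le_one hL ?_ key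
    have hF : (if ∀ i, |(gdD o τ i).τ| ≤ TW ep e1 m then (1 : ℝ) else
        Real.exp (Real.log m / 2)) =
        if |τ| ≤ TW ep e1 m then 1 else Real.exp (Real.log m / 2) := by
      by_cases hc : |τ| ≤ TW ep e1 m
      · rw [if_pos hc, if_pos (Fin.forall_fin_one.2 hc)]
      · rw [if_neg hc, if_neg fun hc' => hc (Fin.forall_fin_one.1 hc')]
    have hMF : ∑ i, G.MF (gdD o τ i).c (gdD o τ i).w = G.MF .d (vl (-(11 / 4) * l) τ) := by
      rw [Fin.sum_univ_one]
      rfl
    have hgn : gnF e1 J m (gdD o τ) = gnQ e1 J m (phC .d) τ := by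
      unfold gnF gnQ
      rw [Fin.sum_univ_one]
      rfl
    rw [hF, hMF, hgn]
    unfold QDR ACR
    set f : ℝ := if |τ| ≤ TW ep e1 m then 1 else Real.exp (Real.log m / 2) with hf
    have f0 : 0 ≤ f := by
      rw [hf]
      split_ifs
      · exact zero_le_one
      · exact (Real.exp_pos _).le
    set E1 := Real.exp ((m : ℝ) * G.MF .d (vl (-(11 / 4) * l) τ)) with hE1'
    set E2 := Real.exp (37 / 20 * xs (TW ep e1 m) τ) with hE2'
    set X := Real.exp ((m : ℝ) ^ 2 * G.EM) with hX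
    set gn := Real.exp (-gnQ e1 J m (phC .d) τ) with hgn'
    set p := (m : ℝ) ^ (Ca * (ep + e1) + δ) with hp
    have hp0 : 0 ≤ p := by positivity
    calc Cst * X * p * E1 * f * gn * (Real.exp K1 * E2)
        = (Cst * X * p * E1 * f * gn * E2) * Real.exp K1 := by ring
      _ ≤ (Cst * X * p * E1 * f * gn * E2) * Real.exp (K1 + K2) :=
          mul_le_mul_of_nonneg_left hexp2 (by positivity)
      _ = Cst * Real.exp (K1 + K2) * p * X * (E1 * (f * E2)) * gn := by ring

end PBO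

end
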