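import Pool.Agent.NUSp.Cls
import Pool.Agent.NUSp.Axis

/-!
# Plan B, U5: the total phases of the groups

`ph c` = total phase of the class `c` in units `l`: `w -3`, `p 5`, `hs 5`, `hp 13`, `d 2`.

* `gph_ph`: `gph true + gph false = ph c * l` for every position in the range of the class;
* `gph_wG`: the same on the lines.
-/

set_option autoImplicit false

noncomputable section

namespace PBQ

open NUMF (l l_pos)
open NUSp (Cl phX phY phc rg grp gph gph_eq wG wG_rg)

/-- total phase of a class, units `l` -/
def ph : Cl → ℝ
  | .w => -3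
  | .p => 5
  | .hs => 5
  | .hp => 13
  | .d => 2

theorem ph_ge (c : Cl) : -3 ≤ ph c := by
  cases c <;> norm_num [ph]

theorem phl_ge (c : Cl) : -(3 * l) ≤ ph c * l := by
  have h := ph_ge c
  have hl := l_pos
  nlinarith

theorem phl_comp {c : Cl} (hw : c ≠ .w) (hd : c ≠ .d) : 5 * l ≤ ph c * l := by
  have hl := l_pos
  have h : 5 ≤ ph c := by cases c <;> simp_all [ph] <;> norm_num
  nlinarith

/-- **the total phase of a group** -/
theorem gph_ph (c : Cl) (σ rt : Bool) {w : ℂ} (h : rg c rt (w.re / l)) :
    gph true (grp c σ w) + gph false (grp c σ w) = ph c * l := by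
  have e : gph true (grp c σ w) + gph false (grp c σ w) =
      (phX c rt (w.re / l) + phY c rt (w.re / l)) * l := by
    rw [gph_eq c true σ rt h, gph_eq c false σ rt h]
    unfold phc
    cases σ
    · simp
      ring
    · simp
      ring
  rw [e]
  congr 1
  cases c <;> cases rt <;> simp only [phX, phY, ph] <;> ring

/-- **the total phase of a group on its line** -/
theorem gph_wG (c : Cl) (σ rt : Bool) (τ : ℝ) :
    gph true (grp c σ (wG c rt τ)) + gph false (grp c σ (wG c rt τ)) = ph c * l :=
  gph_ph c σ rt (wG_rg c rt τ)

end PBQ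

end
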