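import Pool.Agent.NUGC.ExpS

/-!
# Plan B, the other classes of the regular function: the exponent with the gain of the groups

`NUGC.exists_enC`, `NUGC.exists_enS` with the phases of the groups against the current kept: gain
`2 (6 l h(0) + sum of phase times h(height of the group))`.
-/

set_option autoImplicit false
set_option linter.unusedSectionVars false

noncomputable section

open MeasureTheory Finset Filter Topology

namespace PBO

open NUGC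
open NUO (Kind Xo kd ht sp Par PG wK cons slkK rr Tb)
open NUStabP (enC)
open NUDispW (win)
open NUMF (l l_pos)
open NUSea (Cur P hd)
open NUSea.H0 (Inp IOk datO wO Gd TG SpI)

variable [NUSea.Sea]

/-- **ends and groups against the current**, the gain of the groups kept -/
theorem lin_curG {e1 J Cb : ℝ} {m : ℕ} {h h' : ℝ → ℝ} (hc : CuOk e1 J Cb m h h') {δ : Type*}
    [Fintype δ] {φ τ : δ → ℝ} :
    -(2 * (12 * l * h 0 + ∑ d, φ d * h (τ d))) + NUCR.bil h' h' ≤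
      -((1 - e1) * Tb (Real.log m)) + Cb - 2 * (6 * l * h 0 + ∑ d, φ d * h (τ d)) := by
  have h3 := hc.en
  have hl : l = Real.pi / 8 := rfl
  rw [← hl] at h3
  linarith

/-- **the exponent of a configuration with ends and groups, current of TARGET-C** -/
theorem exists_enCG {W : ℝ} (hW : 0 ≤ W) : ∃ K0 : ℝ, 0 ≤ K0 ∧ ∀ kap : ℝ, 0 < kap → ∀ κ CB : ℝ, 0 < κ →
    0 ≤ CB → ∀ k : ℕ, ∀ δ0 N : ℝ, 1 / 10 < δ0 → δ0 ≤ 1 → 2 ≤ N → ∀ n : ℕ,
    ∃ (Cc : ℝ) (m0 : ℕ), ∀ m ≥ m0, ∀ e1 : ℝ, 0 < e1 → e1 ≤ 1 / 100 → ∀ J Cb : ℝ,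
    ∀ (I : Inp) (Q : Par) (r : ℕ) (O : Fin r → Xo) (ι : Type) [Fintype ι] (T : ι → Sr),
    EnOk e1 κ W CB k m I Q O T → CuOk e1 J Cb m (curI I) (hd I.s I.η I.η1) →
    ∀ (p q : ℂ) (G : Fin n → NUSp.Grp) (τ : Fin n → ℝ),
      NUO.Away δ0 p → NUO.Away δ0 q → p.im = 0 → q.im = 0 → |p.re| < l → |q.re| < l →
      (∀ i, (G i).Ok δ0 (τ i)) → (∀ i, NUSp.gn (G i) ≤ N) →
      (∀ a z, |z.im| < l / 10 → I.A a z = ∑ i, NUSea.H0.fD p q G i a z) →
      (datO I Q O).En ≤ (∑ i, oneH I Q O (NUCUR.cur e1 (Tb (Real.log m)) J) i) + enC O +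
        (∑ i, ∑ d, ES (obSr Q.jL Q.e (O i)) (T d)) + 1 / 2 * (∑ d, ∑ d', ES (T d) (T d')) +
        (∫ t : ℝ, I.s * P t * (I.A true t + I.A false t).re) + (∑ a, ∫ t, I.s * P t * I.B a t) -
        (1 - e1) * Tb (Real.log m) + K0 * r + kap * win univ (fun i => ht (O i)) + Cc + Cb -
        2 * (6 * l * curI I 0 + ∑ i, (NUSp.gph true (G i) + NUSp.gph false (G i)) *
          curI I (τ i)) := by
  obtain ⟨K0, hK0, H⟩ := exists_enG hW
  refine ⟨K0, hK0, ?_⟩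
  intro kap hkap κ CB hκ hCB k δ0 N hδ hδ1 hN n
  have hsz := szD_nonneg hδ hδ1 (by linarith : 0 ≤ N) n
  obtain ⟨Cc, m0, H⟩ := H kap hkap κ (max CB (szD δ0 N n)) hκ (hCB.trans (le_max_left _ _)) k
  refine ⟨Cc, m0, ?_⟩
  intro m hm e1 he1 he1' J Cb I Q r O ι _ T hE hC p q G τ hp hq hp0 hq0 hpl hql hG hn hA
  have hE' : EnOk e1 κ W (max CB (szD δ0 N n)) k m I Q O T :=
    { hE with mass := fun a => (hE.mass a).trans (le_max_left _ _) }
  have hgr := grOk_D hδ hδ1 hp hq (hq0.trans hp0.symm) hG hN hn hA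
  have hgr' : GrOk (max CB (szD δ0 N n)) I (kD δ0 (l / 10) G) (fun _ => 0) (φD p q G)
      (NUSea.H0.hD p τ) (ΨD p q G) :=
    { hgr with size := hgr.size.trans (le_max_right _ _) }
  have h1 := H m hm e1 he1 he1' I Q r O ι T hE' hC.lip _ _ _ _ _ _ hgr'
  have h2 := lin_curG hC (φ := fun i => NUSp.gph true (G i) + NUSp.gph false (G i)) (τ := τ)
  have e1' : (∑ d, φD p q G d * curI I (NUSea.H0.hD p τ d)) =
      12 * l * curI I 0 + ∑ i, (NUSp.gph true (G i) + NUSp.gph false (G i)) * curI I (τ i) := by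
    rw [Fintype.sum_option, φD_none hpl hql]
    congr 2
    show curI I p.im = curI I 0
    rw [hp0]
  rw [e1'] at h1
  have h3 : (∑ i, oneH I Q O (curI I) i) ≤ ∑ i, oneH I Q O (NUCUR.cur e1 (Tb (Real.log m)) J) i :=
    sum_le_sum fun i _ => oneH_mono I Q O hC.ge i
  linarith

/-- **the exponent of a configuration with at most two groups of spectators** -/
theorem exists_enSG {WB : ℝ} (hWB : 0 ≤ WB) : ∃ K0 : ℝ, 0 ≤ K0 ∧ ∀ kap : ℝ, 0 < kap → ∀ κ : ℝ, 0 < κ →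
    ∀ k : ℕ, ∃ (Cc : ℝ) (m0 : ℕ), ∀ m ≥ m0, ∀ e1 : ℝ, 0 < e1 → e1 ≤ 1 / 100 → ∀ J Cb : ℝ,
    ∀ n : ℕ, n ≤ 2 → ∀ (g : Fin n → Gd) (p q : ℂ) (I : Inp) (B' : Bool → ℝ → ℝ),
    SpI p q g I B' → p.im = 0 → (∀ a t, |I.B a t| ≤ WB) →
    CuOk e1 J Cb m (curI I) (hd I.s I.η I.η1) →
    ∀ (Q : Par) (r : ℕ) (O : Fin r → Xo), Q.jL = 9 / 4 → Q.e = 1 / 4 → ∑ i, rr Q O i ≤ 1 →
    (∃ (dl ε M : ℝ) (e : ℝ → ℝ), IOk dl ε M ((1 - e1) * Tb (Real.log m)) e I Q r ∧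
      ε ≤ (m : ℝ) ^ (-κ) ∧ M ≤ Real.log m ^ k ∧
      dl ≤ 1 / (6000 * ((r : ℝ) + 1) ^ 2) + 3 * (m : ℝ) ^ (-κ)) →
      (datO I Q O).En ≤ (∑ i, oneH I Q O (NUCUR.cur e1 (Tb (Real.log m)) J) i) + enC O +
        (∑ i, ∑ d, ES (obSr Q.jL Q.e (O i)) (TG g d)) +
        1 / 2 * (∑ d, ∑ d', ES (TG g d) (TG g d')) +
        (∑ i, seaG I.s (g i)) + (∑ a, ∫ t, I.s * P t * I.B a t) -
        (1 - e1) * Tb (Real.log m) + K0 * r + kap * win univ (fun i => ht (O i)) + Cc + Cb -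
        2 * (6 * l * curI I 0 + ∑ i, (NUSp.gph true (g i).G + NUSp.gph false (g i).G) *
          curI I (g i).τ) := by
  obtain ⟨K0, hK0, H⟩ := exists_enCG (W := WB + 1) (by linarith)
  obtain ⟨K, hK, HS⟩ := NUSea.H0.exists_spG
  refine ⟨K0, hK0, ?_⟩
  intro kap hkap κ hκ k
  have H := fun n => H kap hkap κ (2 * K) hκ (by linarith) k (1 / 4) 15 (by norm_num) (by norm_num)
    (by norm_num) n
  choose Cc m0 H using H
  obtain ⟨m1, hm1⟩ := polylogC (3 * K) 0 hκ one_pos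
  refine ⟨|Cc 0| + |Cc 1| + |Cc 2|, max m1 (max (m0 0) (max (m0 1) (m0 2))), ?_⟩
  intro m hm e1 he1 he1' J Cb n hn g p q I B' hS hp0 hB hC Q r O hj he hrr hok
  simp only [ge_iff_le, max_le_iff] at hm
  obtain ⟨g1, g2, g3, g4⟩ := hm
  have hmn : m0 n ≤ m := by interval_cases n <;> assumption
  have hCn : Cc n ≤ |Cc 0| + |Cc 1| + |Cc 2| := by
    have a0 := abs_nonneg (Cc 0)
    have a1 := abs_nonneg (Cc 1)
    have a2 := abs_nonneg (Cc 2)
    have b0 := le_abs_self (Cc 0)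
    have b1 := le_abs_self (Cc 1)
    have b2 := le_abs_self (Cc 2)
    interval_cases n <;> linarith
  have hmk := hm1 m g1
  rw [pow_zero, mul_one] at hmk
  obtain ⟨dl, ε, M, e, hI, hε, hM, hdl⟩ := hok
  obtain ⟨w0, -, -, -, w4, -⟩ := HS n g p q I B' hS ε M ((1 - e1) * Tb (Real.log m)) e hI.cur
    hI.der hI.ε1
  have hn2 : (n : ℝ) ≤ 2 := by exact_mod_cast hn
  have hn0 : (0 : ℝ) ≤ n := Nat.cast_nonneg n
  have hε0 : 0 ≤ ε := hI.cur.ε0
  have hwO : ∀ a t, |wO I a t| ≤ WB + 1 := by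
    intro a t
    refine (w0 a t).trans (add_le_add (hB a t) ?_)
    calc K * (n + 1) * ε ≤ K * (2 + 1) * (m : ℝ) ^ (-κ) := by
          have hK0' : 0 ≤ K := by linarith
          gcongr
      _ = 3 * K * (m : ℝ) ^ (-κ) := by ring
      _ ≤ 1 := hmk
  have hAd : NUC43.Adm Q.jL Q.e := by
    rw [hj, he]
    exact NUC43.adm0
  have hE : EnOk e1 κ (WB + 1) (2 * K) k m I Q O (TG g) :=
    { jL := hj
      e := he
      rr1 := hrr
      ok := ⟨dl, ε, M, e, hI, hε, hM, hdl⟩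
      Tok := NUSea.H0.TG_ok g
      sy := fun i d => NUSea.H0.TG_sym g hAd O i d
      nu := fun a => by rw [hS.ν]
      tau := hS.τ
      mass := fun a => (w4 a).trans (by nlinarith)
      w0 := hwO }
  have hl := l_pos
  have hq0 : q.im = 0 := hS.him.trans hp0
  have h1 := H n m hmn e1 he1 he1' J Cb I Q r O _ (TG g) hE hC p q (fun i => (g i).G)
    (fun i => (g i).τ) (NUSea.H0.away_p hS.hp) (NUSea.H0.away_q hS.hq) hp0 hq0
    (by rw [hS.hp, abs_neg, abs_of_pos (by positivity)]; linarith)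
    (by rw [hS.hq, abs_of_pos (by positivity)]; linarith)
    (fun i => (g i).ok) (fun i => NUSp.gn_grp _ _ _)
    (fun a z _ => by rw [hS.A, NUSea.H0.sum_fD])
  rw [sea_fam hS] at h1
  linarith

end PBO

end
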