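import Pool.Agent.PotH.S4H
import Pool.Agent.PotH.CrvI
import Pool.Agent.PB.AsmR
import Pool.Agent.PB.OthEx
import Pool.Agent.PB.GphPh

/-!
# The gas in the presence of objects and groups, from the bound with a real potential

* `phG_ph`, `pin_hC`, `lin_leG`: the linear term of the groups against the current of the curve
  `etaC`, the gain `gnF` kept;
* `GOk`: what is asked of a geometry; `GOk.env`: the environment `EnvH` of the curve `etaC`, any family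
  of groups; `GOk.pref_le`: the prefactors;
* **`s4R_of : S4H → GOk G → S4R G`**; `s4R : GOk G → S4R G`.
-/

set_option autoImplicit false
set_option linter.unusedSectionVars false

noncomputable section

open MeasureTheory Finset Filter Topology
open scoped ENNReal

namespace PBO

open NUGC
open NUO (Kind Xo kd ht Par TW Tb excS chgO exc)
open NUStabP (enC)
open NUDispW (win)
open NUSea.H0 (Gd TG cstF)
open PotH (CrvP CutR HOk DomH EnvH S4H RgH crH phG linH T1H lhsH prefH oneEH confEH enH)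

variable [NUSea.Sea]

/-! ### the linear term -/

/-- the phase of a group is the phase of its class -/
theorem phG_ph (g : Gd) : phG g = phC g.c := by
  have h : phG g = PBQ.ph g.c * NUMF.l := PBQ.gph_wG g.c g.σ g.rt g.τ
  rw [h]
  rcases g with ⟨c, rt, σ, τ⟩
  cases c <;> simp only [PBQ.ph, phC] <;> ring

/-- beyond the window the current vanishes: pinning the height changes nothing -/
theorem pin_hC {e1 J T1 : ℝ} {m : ℕ} (he : 0 < e1) (he1 : e1 ≤ 1 / 100) (hT : 20 ≤ Tb (Real.log m))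
    (h1 : (1 - e1) * Tb (Real.log m) ≤ T1) (τ : ℝ) : hC e1 J m (NUSp.pin T1 τ) = hC e1 J m τ := by
  have h0 : 0 ≤ T1 := by nlinarith
  rcases le_or_gt |τ| T1 with h | h
  · rw [NUSp.pin_of_le h]
  · have h2 : |NUSp.pin T1 τ| = T1 := by
      rcases le_total 0 τ with h3 | h3
      · rw [abs_of_nonneg h3] at h
        rw [NUSp.pin_of_ge h0 h.le, abs_of_nonneg h0]
      · rw [abs_of_nonpos h3] at h
        rw [NUSp.pin_of_le_neg h0 (by linarith), abs_neg, abs_of_nonneg h0]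
    rw [hC_zero he he1 hT (by rw [h2]; exact h1), hC_zero he he1 hT (by linarith)]

/-- the current of the curve -/
theorem crH_etaG {e1 J : ℝ} {m : ℕ} (hm : 0 < m) (t : ℝ) :
    crH (etaC e1 J m m) m t = hC e1 J m t :=
  mul_etaC (by exact_mod_cast hm) t

/-- **the linear term**, the gain of the ends and of the groups kept -/
theorem lin_leG {e1 J Cb T1 : ℝ} {m : ℕ} (hm : 0 < m) (he : 0 < e1) (he1 : e1 ≤ 1 / 100)
    (hT : 20 ≤ Tb (Real.log m)) (h1 : (1 - e1) * Tb (Real.log m) ≤ T1)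
    (hc : CuOk e1 J Cb m (fun t => (m : ℝ) * NUSea.P t * etaC e1 J m m t)
      (NUSea.hd m (etaC e1 J m m) (etaC' e1 J m m))) {n : ℕ} (g : Fin n → Gd) (H : Bool → ℝ → ℝ) :
    linH (etaC e1 J m m) (etaC' e1 J m m) m g T1 H ≤
      -((1 - e1) * Tb (Real.log m)) + Cb - gnF e1 J m g + ∑ a, ∫ t, (m : ℝ) * NUSea.P t * H a t := by
  have h2 := lin_curG hc (φ := fun i => phG (g i)) (τ := fun i => NUSp.pin T1 (g i).τ)
  have hm0 : (0 : ℝ) < m := by exact_mod_cast hm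
  simp only [mul_etaC hm0] at h2
  have e1' : ∑ i, phG (g i) * hC e1 J m (NUSp.pin T1 (g i).τ) = ∑ i, phC (g i).c * hC e1 J m (g i).τ :=
    sum_congr rfl fun i _ => by rw [phG_ph, pin_hC he he1 hT h1]
  rw [e1'] at h2
  have e2 : ∑ i, phG (g i) * crH (etaC e1 J m m) m (NUSp.pin T1 (g i).τ) =
      ∑ i, phC (g i).c * hC e1 J m (g i).τ :=
    sum_congr rfl fun i _ => by rw [crH_etaG hm, phG_ph, pin_hC he he1 hT h1]
  unfold linH gnF
  rw [e2, crH_etaG hm, ← mul_sum]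
  linarith

/-- **the curve `etaC` is admissible** -/
theorem crvP_etaC {e1 J : ℝ} (he : 0 < e1) (he1 : e1 ≤ 1 / 100) (hJ : 0 ≤ J) :
    ∃ Cc : ℝ, 1 ≤ Cc ∧ ∃ Cb : ℝ, ∃ m0 : ℕ, ∀ m : ℕ, m0 ≤ m → 1 ≤ m ∧ 20 ≤ Tb (Real.log m) ∧
      CrvP e1 Cc m (etaC e1 J m m) (etaC' e1 J m m) ∧
      CuOk e1 J Cb m (fun t => (m : ℝ) * NUSea.P t * etaC e1 J m m t)
        (NUSea.hd m (etaC e1 J m m) (etaC' e1 J m m)) := by
  obtain ⟨C, hC1, m0, hm0, H⟩ := PotH.exists_crvC (J := J) he he1 hJ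
  obtain ⟨Cb, m1, H1⟩ := cuOkC he he1 hJ
  refine ⟨C, hC1, Cb, max m0 m1, fun m hm => ?_⟩
  have a0 : m0 ≤ m := (le_max_left _ _).trans hm
  have hmm : (m : ℝ) / 2 ≤ m := by
    have : (0 : ℝ) ≤ m := Nat.cast_nonneg m
    linarith
  exact ⟨hm0.trans a0, (H m a0).1, (H m a0).2, H1 m ((le_max_right _ _).trans hm) m hmm⟩

/-! ### geometries -/

/-- **what is asked of a geometry**: one body data dominated on the curve by the rows of the sea, the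
ends `ThN` and a real potential; admissible cutoff; exponents -/
structure GOk (G : Geo) : Prop where
  nn : ∀ m β, (G.B m β).Nn
  pot : ∃ B0 N0 : ℝ, 0 ≤ B0 ∧ 0 ≤ N0 ∧ ∀ ep : ℝ, 0 < ep → ep ≤ 1 / 100 → ∀ e1 : ℝ, 0 < e1 →
    e1 ≤ 1 / 100 → ∀ J : ℝ, 0 ≤ J → ∃ CH : ℝ, ∃ m0 : ℕ, ∀ m ≥ m0, ∃ H H' : Bool → ℝ → ℝ,
      (∀ d : ℝ, 0 ≤ d → HOk B0 N0 d ((1 - e1) * Tb (Real.log m)) (Real.log m ^ 3) H H') ∧
      (∀ a t, (G.B m (4 / 3 * (1 - ep))).R a (NUO.pA (etaC e1 J m m) t) ≤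
        2 * Real.cos NUP1.l *
          Real.exp ((m : ℝ) * (NUSea.vc (NUAct.zt (NUKer.iD (etaC e1 J m m)) t)).re) *
          ThN (NUO.pA (etaC e1 J m m) t) * Real.exp (H a t)) ∧
      ∑ a, ∫ t, (m : ℝ) * NUSea.P t * H a t ≤ CH
  cut : ∀ ep : ℝ, 0 < ep → ep ≤ 1 / 100 → ∀ e1 : ℝ, 0 < e1 → e1 ≤ 1 / 100 → ∀ J : ℝ, 0 ≤ J →
    ∃ C0 : ℝ, 1 ≤ C0 ∧ ∃ m0 : ℕ, ∀ m ≥ m0, ∃ cr Bc Bc' : ℝ → ℝ,
      CutR ep C0 ((1 - e1) * Tb (Real.log m)) m cr Bc Bc' ∧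
      ∀ t, ‖(G.B m (4 / 3 * (1 - ep))).φ (NUO.pA (etaC e1 J m m) t)‖ ≤ cr t
  one : ∃ K1 : ℝ, 0 ≤ K1 ∧ ∀ ep : ℝ, 0 < ep → ep ≤ 1 / 100 → ∀ e1 : ℝ, 0 < e1 → e1 ≤ 1 / 100 →
    ∀ J : ℝ, 0 ≤ J → ∃ m0 : ℕ, ∀ m ≥ m0, ∀ (r : ℕ) (O : Fin r → Xo) (i : Fin r),
      oneEH m (etaC e1 J m m) (TW ep e1 m) O i ≤ G.one m ep e1 J r O i + K1
  EM : ∃ C : ℝ, 0 ≤ C ∧ ∀ m : ℕ, NUSea.MF (m : ℝ) ≤ (m : ℝ) ^ 2 * G.EM + C
  MF : ∃ C : ℝ, 0 ≤ C ∧ ∀ (m : ℕ) (g : Gd), seaG m g ≤ m * G.MF g.c g.w + C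

/-- domination of the one body data with a family of groups -/
theorem domH_of {B : OB} {m : ℕ} {η cr : ℝ → ℝ} (hcr : ∀ t, 0 ≤ cr t) (hη : ∀ t, |η t| < NUMF.l / 5)
    {n : ℕ} (g : Fin n → Gd) {H : Bool → ℝ → ℝ}
    (hR : ∀ a t, B.R a (NUO.pA η t) ≤ 2 * Real.cos NUP1.l *
      Real.exp ((m : ℝ) * (NUSea.vc (NUAct.zt (NUKer.iD η) t)).re) * ThN (NUO.pA η t) *
      Real.exp (H a t))
    (hφ : ∀ t, ‖B.φ (NUO.pA η t)‖ ≤ cr t) : DomH (B.mul (spF g)) m η cr g H := by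
  intro a t
  show B.R a (NUO.pA η t) * spF g a (NUO.pA η t) * ‖B.φ (NUO.pA η t)‖ ≤ _
  have h1 := NUGC.ThN_spF g a (hη t)
  have h2 := spFR_nonneg g a (NUO.pA η t)
  have h3 : B.R a (NUO.pA η t) * spF g a (NUO.pA η t) ≤ 2 * Real.cos NUP1.l *
      Real.exp ((m : ℝ) * (NUSea.vc (NUAct.zt (NUKer.iD η) t)).re) * ThN (NUO.pA η t) *
      Real.exp (H a t) * spF g a (NUO.pA η t) := mul_le_mul_of_nonneg_right (hR a t) h2
  have hcos := cosl_nonneg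
  have h4 : 2 * Real.cos NUP1.l *
      Real.exp ((m : ℝ) * (NUSea.vc (NUAct.zt (NUKer.iD η) t)).re) * ThN (NUO.pA η t) *
      Real.exp (H a t) * spF g a (NUO.pA η t) = 2 * Real.cos NUP1.l *
      Real.exp ((m : ℝ) * (NUSea.vc (NUAct.zt (NUKer.iD η) t)).re +
      (NUSp.DD pE qE (List.ofFn fun i => (g i).G) a (NUAct.zt (NUKer.iD η) t)).re + H a t) := by
    rw [Real.exp_add, Real.exp_add, ← h1]
    ring
  rw [h4] at h3
  have h5 : 0 ≤ 2 * Real.cos NUP1.l *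
      Real.exp ((m : ℝ) * (NUSea.vc (NUAct.zt (NUKer.iD η) t)).re +
      (NUSp.DD pE qE (List.ofFn fun i => (g i).G) a (NUAct.zt (NUKer.iD η) t)).re + H a t) := by
    positivity
  have h6 := mul_le_mul h3 (hφ t) (norm_nonneg _) h5
  rw [← mul_assoc (2 * Real.cos NUP1.l)]
  exact h6

/-- the exponent of the objects against the one of the geometry -/
theorem confEH_le {G : Geo} {m : ℕ} {ep e1 J K K1 kap : ℝ} {r : ℕ} (O : Fin r → Xo)
    (h : ∀ i, oneEH m (etaC e1 J m m) (TW ep e1 m) O i ≤ G.one m ep e1 J r O i + K1) :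
    confEH m (etaC e1 J m m) (TW ep e1 m) K kap O ≤ confR G m ep e1 J (K + K1) kap O := by
  unfold confEH confR
  have h1 : ∑ i, oneEH m (etaC e1 J m m) (TW ep e1 m) O i ≤ ∑ i, (G.one m ep e1 J r O i + K1) :=
    sum_le_sum fun i _ => h i
  rw [sum_add_distrib, sum_const, card_univ, Fintype.card_fin, nsmul_eq_mul] at h1
  linarith

/-- the end of the window -/
lemma TW_geR {ep e1 : ℝ} (hep : 0 < ep) (he : 0 < e1) {m : ℕ} (hT : 20 ≤ Tb (Real.log m)) :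
    (1 - e1) * Tb (Real.log m) ≤ TW ep e1 m := by
  unfold NUO.TW
  nlinarith

/-- `Tb` is small against the square of the logarithm -/
lemma TW_le_sq {ep e1 : ℝ} (hep : ep ≤ 1 / 100) (he : e1 ≤ 1 / 100) {m : ℕ}
    (hT : 20 ≤ Tb (Real.log m)) : TW ep e1 m ≤ Real.log m ^ 2 := by
  unfold NUO.TW
  have h : Tb (Real.log m) = 3 / 8 * Real.log m := rfl
  rw [h] at hT ⊢
  nlinarith

/-- **the environment** of the curve `etaC`, any family of groups: `B0`, `N0` before everything -/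
theorem GOk.env {G : Geo} (hG : GOk G) : ∃ B0 N0 : ℝ, 0 ≤ B0 ∧ 0 ≤ N0 ∧ ∀ ep : ℝ, 0 < ep →
    ep ≤ 1 / 100 → ∀ e1 : ℝ, 0 < e1 → e1 ≤ 1 / 100 → ∀ J : ℝ, 0 ≤ J →
    ∃ Cc C0 : ℝ, 1 ≤ Cc ∧ 1 ≤ C0 ∧ ∃ CL : ℝ, ∃ m0 : ℕ, ∀ m : ℕ, m0 ≤ m →
      1 ≤ m ∧ 20 ≤ Tb (Real.log m) ∧ ∃ (cr Bc Bc' : ℝ → ℝ) (H H' : Bool → ℝ → ℝ),
      (∀ (n : ℕ) (g : Fin n → Gd) (d : ℝ), 0 ≤ d →
        EnvH ep e1 Cc C0 B0 N0 d m (etaC e1 J m m) (etaC' e1 J m m) cr Bc Bc' H H'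
          ((G.B m (4 / 3 * (1 - ep))).mul (spF g)) g) ∧
      ∀ (n : ℕ) (g : Fin n → Gd) (T1 : ℝ), (1 - e1) * Tb (Real.log m) ≤ T1 →
        linH (etaC e1 J m m) (etaC' e1 J m m) m g T1 H ≤
          -((1 - e1) * Tb (Real.log m)) + CL - gnF e1 J m g := by
  obtain ⟨B0, N0, hB0, hN0, hpot⟩ := hG.pot
  refine ⟨B0, N0, hB0, hN0, ?_⟩
  intro ep hep hep1 e1 he he1 J hJ
  obtain ⟨CH, m1, hpot⟩ := hpot ep hep hep1 e1 he he1 J hJ
  obtain ⟨C0, hC0, m2, hcut⟩ := hG.cut ep hep hep1 e1 he he1 J hJ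
  obtain ⟨Cc, hCc, Cb, m4, hcrv⟩ := crvP_etaC (J := J) he he1 hJ
  refine ⟨Cc, C0, hCc, hC0, Cb + CH, max (max m1 m2) m4, ?_⟩
  intro m hm
  have a1 : m1 ≤ m := ((le_max_left _ _).trans (le_max_left _ _)).trans hm
  have a2 : m2 ≤ m := ((le_max_right _ _).trans (le_max_left _ _)).trans hm
  have a4 : m4 ≤ m := (le_max_right _ _).trans hm
  obtain ⟨H, H', hH, hdom, hint⟩ := hpot m a1
  obtain ⟨cr, Bc, Bc', hcr, hφ⟩ := hcut m a2
  obtain ⟨hm1, hT, hc, hcu⟩ := hcrv m a4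
  have hη : ∀ t, |etaC e1 J m m t| < NUMF.l / 5 := fun t => (hc.small.1 t).trans_lt PotH.small_l
  refine ⟨hm1, hT, cr, Bc, Bc', H, H', fun n g d hd => ?_, fun n g T1 hT1 => ?_⟩
  · exact { crv := hc, cut := hcr, hok := hH d hd
            nn := fun a u => mul_nonneg (hG.nn _ _ a u) (spFR_nonneg g a u)
            dom := domH_of hcr.nn hη g hdom hφ }
  · have hlin := lin_leG hm1 he he1 hT hT1 hcu g H
    linarith

/-- **the prefactors** -/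
theorem GOk.pref_le {G : Geo} (hG : GOk G) : ∃ C : ℝ, 0 ≤ C ∧ ∀ (m n : ℕ) (g : Fin n → Gd), n ≤ 2 →
    NUSea.MF (m : ℝ) + ∑ i, seaG m (g i) ≤
      (m : ℝ) ^ 2 * G.EM + m * ∑ i, G.MF (g i).c (g i).w + C := by
  obtain ⟨CE, hCE, hEM⟩ := hG.EM
  obtain ⟨CM, hCM, hMF⟩ := hG.MF
  refine ⟨CE + 2 * CM, by positivity, fun m n g hn => ?_⟩
  have h1 : ∑ i, seaG m (g i) ≤ ∑ i, (m * G.MF (g i).c (g i).w + CM) :=
    sum_le_sum fun i _ => hMF m (g i)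
  rw [sum_add_distrib, ← mul_sum, sum_const, card_univ, Fintype.card_fin, nsmul_eq_mul] at h1
  have h2 : (n : ℝ) ≤ 2 := by exact_mod_cast hn
  have h3 : (n : ℝ) * CM ≤ 2 * CM := mul_le_mul_of_nonneg_right h2 hCM
  have h4 := hEM m
  linarith

/-- the prefactors, exponentiated: power `3 / 8 + a`, linear term `LI`, gain `GN` -/
theorem pref_alg {G : Geo} {m n : ℕ} (hm : 1 ≤ m) {g : Fin n → Gd} {E x Cst CP CL e1 a a' LI GN CF CR
    F1 F2 : ℝ} (hCst : 0 ≤ Cst) (hF : F1 ≤ F2) (hF1 : 0 ≤ F1)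
    (hp : NUSea.MF (m : ℝ) + ∑ i, seaG m (g i) ≤
      (m : ℝ) ^ 2 * G.EM + m * ∑ i, G.MF (g i).c (g i).w + CP)
    (hl : LI ≤ -((1 - e1) * Tb (Real.log m)) + CL - GN) (hc : CF ≤ CR) (ha : a + 3 / 8 * e1 ≤ a') :
    prefH m g E x Cst * (m : ℝ) ^ (3 / 8 + a) * F1 * Real.exp (CF + LI) ≤
      prefR G m g E x (Cst * Real.exp (CP + CL)) * (m : ℝ) ^ a' * F2 * Real.exp (-GN) *
        Real.exp CR := by
  have hmR : (0 : ℝ) < m := by exact_mod_cast hm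
  unfold prefH prefR
  rw [Real.rpow_def_of_pos hmR, Real.rpow_def_of_pos hmR]
  obtain ⟨L, hL⟩ : ∃ L, L = Real.log m := ⟨_, rfl⟩
  have hTb : Tb (Real.log m) = 3 / 8 * L := by
    rw [hL]
    rfl
  rw [hTb] at hl
  rw [← hL]
  have hL0 : 0 ≤ L := by
    rw [hL]
    exact Real.log_nonneg (by exact_mod_cast hm)
  obtain ⟨SG, hSG⟩ : ∃ SG, SG = ∑ i, seaG m (g i) := ⟨_, rfl⟩
  obtain ⟨SM, hSM⟩ : ∃ SM, SM = ∑ i, G.MF (g i).c (g i).w := ⟨_, rfl⟩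
  rw [← hSG, ← hSM] at hp
  rw [← hSG, ← hSM]
  have h1 : Cst * Real.exp (NUSea.MF (m : ℝ) + SG) * Real.exp (37 / 20 * x + 12 / 5 * E) *
        Real.exp (L * (3 / 8 + a)) * F1 * Real.exp (CF + LI) =
      Cst * F1 * Real.exp (NUSea.MF (m : ℝ) + SG + (37 / 20 * x + 12 / 5 * E) +
        L * (3 / 8 + a) + (CF + LI)) := by
    rw [Real.exp_add _ (CF + LI), Real.exp_add _ (L * (3 / 8 + a)),
      Real.exp_add _ (37 / 20 * x + 12 / 5 * E)]
    ring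
  have h2 : Cst * Real.exp (CP + CL) * Real.exp ((m : ℝ) ^ 2 * G.EM) *
        Real.exp (m * SM) * Real.exp (37 / 20 * x + 12 / 5 * E) *
        Real.exp (L * a') * F2 * Real.exp (-GN) * Real.exp CR =
      Cst * F2 * Real.exp (CP + CL + (m : ℝ) ^ 2 * G.EM + m * SM +
        (37 / 20 * x + 12 / 5 * E) + L * a' + -GN + CR) := by
    rw [Real.exp_add _ CR, Real.exp_add _ (-GN), Real.exp_add _ (L * a'),
      Real.exp_add _ (37 / 20 * x + 12 / 5 * E), Real.exp_add _ (m * SM),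
      Real.exp_add _ ((m : ℝ) ^ 2 * G.EM)]
    ring
  rw [h1, h2]
  refine mul_le_mul (mul_le_mul_of_nonneg_left hF hCst) (Real.exp_le_exp.2 ?_) (Real.exp_pos _).le
    (mul_nonneg hCst (hF1.trans hF))
  have h3 : L * (a + 3 / 8 * e1) ≤ L * a' := mul_le_mul_of_nonneg_left ha hL0
  nlinarith

/-- the two factors of the far heights -/
lemma far_le {ep e1 : ℝ} (hep : ep ≤ 1 / 100) (he : e1 ≤ 1 / 100) {m : ℕ} (hm : 1 ≤ m)
    (hT : 20 ≤ Tb (Real.log m)) {n : ℕ} (g : Fin n → Gd) :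
    (if ∀ i, |(g i).τ| ≤ Real.log m ^ 2 then (1 : ℝ) else Real.exp (Real.log m / 2)) ≤
      if ∀ i, |(g i).τ| ≤ TW ep e1 m then 1 else Real.exp (Real.log m / 2) := by
  have hL : 0 ≤ Real.log m := Real.log_nonneg (by exact_mod_cast hm)
  by_cases h1 : ∀ i, |(g i).τ| ≤ TW ep e1 m
  · rw [if_pos h1, if_pos fun i => (h1 i).trans (TW_le_sq hep he hT)]
  · rw [if_neg h1]
    split_ifs
    · exact Real.one_le_exp (by linarith)
    · exact le_rfl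

/-- **the gas in the presence of objects and groups** -/
theorem s4R_of (h4 : S4H) {G : Geo} (hG : GOk G) : S4R G := by
  obtain ⟨B0, N0, hB0, hN0, henv⟩ := hG.env
  obtain ⟨K, Ca, hK, hCa, h4⟩ := h4 B0 N0 hB0 hN0
  obtain ⟨K1, hK1, hone⟩ := hG.one
  obtain ⟨CP, hCP, hpref⟩ := hG.pref_le
  refine ⟨K + K1, Ca + 1, by linarith, by linarith, ?_⟩
  intro kap hkap ep hep hep1 e1 he he1 J hJ δ hδ
  obtain ⟨Cc, C0, hCc, hC0, CL, m1, henv⟩ := henv ep hep hep1 e1 he he1 J hJ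
  obtain ⟨m3, hone⟩ := hone ep hep hep1 e1 he he1 J hJ
  obtain ⟨d, Cst, hd, hCst, m5, h4⟩ := h4 kap hkap ep hep hep1 e1 he he1 Cc C0 hCc hC0 δ hδ
  refine ⟨d, Cst * Real.exp (CP + CL), hd, by positivity, max m1 (max m3 m5), ?_⟩
  intro m hm n g aX aY ν N b' r O E x hb' hR
  have a1 : m1 ≤ m := (le_max_left _ _).trans hm
  have a3 : m3 ≤ m := ((le_max_left _ _).trans (le_max_right _ _)).trans hm
  have a5 : m5 ≤ m := ((le_max_right _ _).trans (le_max_right _ _)).trans hm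
  obtain ⟨hm1, hT, cr, Bc, Bc', H, H', hE, hlin⟩ := henv m a1
  have hRH : RgH ep e1 m g aX aY ν N O E x :=
    ⟨hR.n2, hR.sp, hR.ax, hR.ay, hR.q, hR.nu.trans (by norm_num), hR.hN.trans (by omega), hR.hr,
      hR.hc1, hR.hc2, hR.E0, hR.hE, hR.x0, hR.hx⟩
  have hbd : |b'| ≤ d := by
    rcases hb' with rfl | rfl
    · exact (abs_of_pos hd).le
    · rw [abs_neg, abs_of_pos hd]
  have key := h4 m a5 n _ _ cr Bc Bc' H H' _ g (hE n g d hd.le) aX aY ν N b' r O E x hbd hRH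
  have e0 : lhsR G ep e1 J m g aX aY ν N b' O =
      lhsH ((G.B m (4 / 3 * (1 - ep))).mul (spF g)) m (etaC e1 J m m) (etaC' e1 J m m) aX aY ν N b' O
        (fun _ => 1) := by
    unfold lhsR lhsH
    rw [PBZ.Z1S_one]
  rw [e0]
  refine key.trans (ENNReal.ofReal_le_ofReal ?_)
  -- the linear term
  have hT1 : (1 - e1) * Tb (Real.log m) ≤ T1H ep e1 m O E := by
    have h1 := TW_geR hep he hT
    have h2 : TW ep e1 m ≤ T1H ep e1 m O E := by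
      unfold T1H
      linarith [le_max_right (excS (TW ep e1 m) O) E, hR.E0]
    linarith
  have hlin := hlin n g _ hT1
  have hconf := confEH_le (G := G) (K := K) (kap := kap) O fun i => hone m a3 r O i
  have hen : enH m g O (T1H ep e1 m O E) (N + aX - chgO O true) (N + aY - chgO O false) =
      enR m g O (T1R ep e1 m O E) (N + aX - chgO O true) (N + aY - chgO O false) := rfl
  rw [hen]
  obtain ⟨EN, hEN⟩ : ∃ EN, EN = enR m g O (T1R ep e1 m O E) (N + aX - chgO O true)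
    (N + aY - chgO O false) := ⟨_, rfl⟩
  rw [← hEN]
  have e1' : 3 / 8 + Ca * (ep + e1) + δ = 3 / 8 + (Ca * (ep + e1) + δ) := by ring
  have e2' : confEH m (etaC e1 J m m) (TW ep e1 m) K kap O +
      linH (etaC e1 J m m) (etaC' e1 J m m) m g (T1H ep e1 m O E) H + EN =
      (confEH m (etaC e1 J m m) (TW ep e1 m) K kap O + EN) +
      linH (etaC e1 J m m) (etaC' e1 J m m) m g (T1H ep e1 m O E) H := by ring
  rw [e1', e2']
  refine pref_alg (e1 := e1) hm1 hCst (far_le hep1 he1 hm1 hT g) ?_ (hpref m n g hR.n2) hlin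
    (by linarith) (by nlinarith)
  split_ifs
  · exact zero_le_one
  · exact (Real.exp_pos _).le

/-- **the gas in the presence of objects and groups**, unconditional -/
theorem s4R {G : Geo} (hG : GOk G) : S4R G := s4R_of PotH.s4H hG

end PBO

end
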