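import Pool.Agent.NUR2.Ext
import Pool.Agent.NUAct.OCw
import Pool.Agent.NUP.MF.Pot

/-!
# Local potentials: differences of two logarithms of `cosh`

`LC y1 y2 z = log cosh (z + i y1) - log cosh (z + i y2)`, `|y1|, |y2| ≤ 4 l - δ`, `|Im z| ≤ δ / 2`:
bounded, real part and derivative `O (exp (-2 |Re z|))`.  All potentials of rows, legs and spectators on
the line `A` are sums of such terms.
-/

set_option autoImplicit false

open MeasureTheory Filter Topology Set Complex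

namespace PBH

open NUMF (l l_pos cosh_slit two_norm_cosh_sq re_cosh)

noncomputable section

/-- the atom -/
def LC (y1 y2 : ℝ) (z : ℂ) : ℂ := Complex.log (Complex.cosh (z + y1 * I)) -
  Complex.log (Complex.cosh (z + y2 * I))

/-- its derivative -/
def LC' (y1 y2 : ℝ) (z : ℂ) : ℂ := Complex.sinh (z + y1 * I) / Complex.cosh (z + y1 * I) -
  Complex.sinh (z + y2 * I) / Complex.cosh (z + y2 * I)

lemma l8 : 8 * l = Real.pi := by unfold NUMF.l; ring

/-- lower bound of the modulus -/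
def c0 (δ : ℝ) : ℝ := Real.sin (δ / 2)

lemma im_add (z : ℂ) (y : ℝ) : (z + y * I : ℂ).im = z.im + y := by simp
lemma re_add (z : ℂ) (y : ℝ) : (z + y * I : ℂ).re = z.re := by simp

lemma c0_pos {δ : ℝ} (h0 : 0 < δ) (h1 : δ ≤ 4 * l) : 0 < c0 δ := by
  have := l_pos
  have h8 := l8
  exact Real.sin_pos_of_pos_of_lt_pi (by linarith) (by linarith)

lemma c0_le (δ : ℝ) : c0 δ ≤ 1 := Real.sin_le_one _

lemma norm_sq_eq (w : ℂ) : ‖Complex.cosh w‖ ^ 2 = Real.sinh w.re ^ 2 + Real.cos w.im ^ 2 := by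
  have h := two_norm_cosh_sq w
  have h1 := Real.cosh_two_mul w.re
  have h2 := Real.cosh_sq w.re
  have h3 := Real.cos_two_mul w.im
  linarith

lemma cos_ge {δ y : ℝ} (h0 : 0 < δ) (hy : |y| ≤ 4 * l - δ / 2) : c0 δ ≤ Real.cos y := by
  have h8 := l8
  have hl := l_pos
  rw [← Real.cos_abs, c0, ← Real.cos_pi_div_two_sub]
  have e : Real.pi / 2 - δ / 2 = 4 * l - δ / 2 := by rw [← h8]; ring
  rw [e]
  exact Real.cos_le_cos_of_nonneg_of_le_pi (abs_nonneg _) (by linarith) hy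

lemma norm_ge {δ : ℝ} (h0 : 0 < δ) (h1 : δ ≤ 4 * l) {w : ℂ} (hw : |w.im| ≤ 4 * l - δ / 2) :
    c0 δ * Real.cosh w.re ≤ ‖Complex.cosh w‖ := by
  have hc := c0_pos h0 h1
  have hc1 := c0_le δ
  have hC : 0 < Real.cosh w.re := Real.cosh_pos _
  refine (sq_le_sq₀ (by positivity) (norm_nonneg _)).1 ?_
  rw [norm_sq_eq, mul_pow, Real.cosh_sq]
  have h2 := cos_ge h0 hw
  have h3 : c0 δ ^ 2 ≤ Real.cos w.im ^ 2 := pow_le_pow_left₀ hc.le h2 2
  have h4 : c0 δ ^ 2 ≤ 1 := pow_le_one₀ hc.le hc1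
  nlinarith [sq_nonneg (Real.sinh w.re)]

lemma cosh_exp (x : ℝ) : Real.exp |x| / 2 ≤ Real.cosh x := by
  rw [← Real.cosh_abs, Real.cosh_eq]
  have := Real.exp_pos (-|x|)
  linarith

lemma norm_ge' {δ : ℝ} (h0 : 0 < δ) (h1 : δ ≤ 4 * l) {w : ℂ} (hw : |w.im| ≤ 4 * l - δ / 2) :
    c0 δ / 2 * Real.exp |w.re| ≤ ‖Complex.cosh w‖ := by
  refine le_trans ?_ (norm_ge h0 h1 hw)
  have hc := c0_pos h0 h1
  have := cosh_exp w.re
  nlinarith

/-- domain of the atom -/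
structure Dm (δ y1 y2 : ℝ) (z : ℂ) : Prop where
  i1 : |z.im + y1| ≤ 4 * l - δ / 2
  i2 : |z.im + y2| ≤ 4 * l - δ / 2

lemma Dm.of {δ y1 y2 : ℝ} {z : ℂ} (h1 : |y1| ≤ 4 * l - δ) (h2 : |y2| ≤ 4 * l - δ)
    (hz : |z.im| ≤ δ / 2) : Dm δ y1 y2 z :=
  ⟨(abs_add_le _ _).trans (by linarith), (abs_add_le _ _).trans (by linarith)⟩

variable {δ y1 y2 : ℝ} {z : ℂ}

lemma slit1 (h0 : 0 < δ) {y : ℝ} (h : |z.im + y| ≤ 4 * l - δ / 2) :
    Complex.cosh (z + y * I) ∈ slitPlane := by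
  refine cosh_slit ?_
  rw [im_add, ← l8]
  refine lt_of_le_of_lt h ?_
  linarith

theorem LC_deriv (h0 : 0 < δ) (h : Dm δ y1 y2 z) : HasDerivAt (LC y1 y2) (LC' y1 y2 z) z := by
  have d : ∀ y : ℝ, |z.im + y| ≤ 4 * l - δ / 2 → HasDerivAt
      (fun z => Complex.log (Complex.cosh (z + y * I)))
      (Complex.sinh (z + y * I) / Complex.cosh (z + y * I)) z := by
    intro y hy
    have h1 : HasDerivAt (fun z : ℂ => z + y * I) 1 z := (hasDerivAt_id z).add_const _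
    have h2 := (Complex.hasDerivAt_cosh (z + y * I)).comp z h1
    rw [mul_one] at h2
    exact h2.clog (slit1 h0 hy)
  exact (d y1 h.i1).sub (d y2 h.i2)

/-- the constant of the atoms -/
def KL (δ : ℝ) : ℝ := 4 / c0 δ ^ 2 + 2 * Real.pi

lemma KL_pos (h0 : 0 < δ) (h1 : δ ≤ 4 * l) : 0 < KL δ := by
  unfold KL
  have := c0_pos h0 h1
  have := Real.pi_pos
  positivity

lemma KL_ge (δ : ℝ) : 4 / c0 δ ^ 2 ≤ KL δ := by
  unfold KL
  have := Real.pi_pos
  linarith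

theorem LC'_le (h0 : 0 < δ) (h1 : δ ≤ 4 * l) (h : Dm δ y1 y2 z) :
    ‖LC' y1 y2 z‖ ≤ KL δ * Real.exp (-2 * |z.re|) := by
  have hc := c0_pos h0 h1
  have n1 := norm_ge' h0 h1 (w := z + y1 * I) (by rw [im_add]; exact h.i1)
  have n2 := norm_ge' h0 h1 (w := z + y2 * I) (by rw [im_add]; exact h.i2)
  rw [re_add] at n1 n2
  have hE := Real.exp_pos |z.re|
  have p1 : 0 < ‖Complex.cosh (z + y1 * I)‖ := lt_of_lt_of_le (by positivity) n1
  have p2 : 0 < ‖Complex.cosh (z + y2 * I)‖ := lt_of_lt_of_le (by positivity) n2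
  have e : LC' y1 y2 z = Complex.sinh (((y1 - y2 : ℝ) : ℂ) * I) /
      (Complex.cosh (z + y1 * I) * Complex.cosh (z + y2 * I)) := by
    unfold LC'
    rw [div_sub_div _ _ (norm_pos_iff.1 p1) (norm_pos_iff.1 p2)]
    have : (((y1 - y2 : ℝ) : ℂ) * I) = (z + y1 * I) - (z + y2 * I) := by push_cast; ring
    rw [this, Complex.sinh_sub]
  rw [e, norm_div, norm_mul, Complex.sinh_mul_I, norm_mul, Complex.norm_I, mul_one,
    ← Complex.ofReal_sin, Complex.norm_real, Real.norm_eq_abs]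
  have hs : |Real.sin (y1 - y2)| ≤ 1 := Real.abs_sin_le_one _
  have hp : c0 δ / 2 * Real.exp |z.re| * (c0 δ / 2 * Real.exp |z.re|) ≤
      ‖Complex.cosh (z + y1 * I)‖ * ‖Complex.cosh (z + y2 * I)‖ :=
    mul_le_mul n1 n2 (by positivity) p1.le
  calc |Real.sin (y1 - y2)| / (‖Complex.cosh (z + y1 * I)‖ * ‖Complex.cosh (z + y2 * I)‖) ≤
        1 / (c0 δ / 2 * Real.exp |z.re| * (c0 δ / 2 * Real.exp |z.re|)) := by gcongr
    _ = 4 / c0 δ ^ 2 * Real.exp (-2 * |z.re|) := by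
        rw [show -2 * |z.re| = -(|z.re| + |z.re|) by ring, Real.exp_neg, Real.exp_add]
        field_simp
        norm_num
    _ ≤ _ := mul_le_mul_of_nonneg_right (KL_ge δ) (Real.exp_pos _).le

lemma log_div_le {A B m : ℝ} (hm : 0 < m) (hA : m ≤ A) (hB : m ≤ B) :
    Real.log A - Real.log B ≤ |A - B| / m := by
  have hA0 : 0 < A := lt_of_lt_of_le hm hA
  have hB0 : 0 < B := lt_of_lt_of_le hm hB
  rw [← Real.log_div hA0.ne' hB0.ne']
  have h1 := Real.log_le_sub_one_of_pos (div_pos hA0 hB0)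
  have h2 : A / B - 1 = (A - B) / B := by field_simp
  rw [h2] at h1
  refine h1.trans ?_
  calc (A - B) / B ≤ |A - B| / B := by gcongr; exact le_abs_self _
    _ ≤ |A - B| / m := by gcongr

theorem re_LC_le (h0 : 0 < δ) (h1 : δ ≤ 4 * l) (h : Dm δ y1 y2 z) :
    |(LC y1 y2 z).re| ≤ KL δ * Real.exp (-2 * |z.re|) := by
  have hc := c0_pos h0 h1
  have hE := Real.exp_pos |z.re|
  -- both squares are at least `m`
  have key : ∀ a b : ℝ, |z.im + a| ≤ 4 * l - δ / 2 → |z.im + b| ≤ 4 * l - δ / 2 →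
      Real.log ‖Complex.cosh (z + a * I)‖ - Real.log ‖Complex.cosh (z + b * I)‖ ≤
        KL δ * Real.exp (-2 * |z.re|) := by
    intro a b ha hb
    have n1 := norm_ge' h0 h1 (w := z + a * I) (by rw [im_add]; exact ha)
    have n2 := norm_ge' h0 h1 (w := z + b * I) (by rw [im_add]; exact hb)
    rw [re_add] at n1 n2
    have p1 : 0 < ‖Complex.cosh (z + a * I)‖ := lt_of_lt_of_le (by positivity) n1
    have p2 : 0 < ‖Complex.cosh (z + b * I)‖ := lt_of_lt_of_le (by positivity) n2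
    have hm : 0 < (c0 δ / 2 * Real.exp |z.re|) ^ 2 := by positivity
    have q := log_div_le hm (pow_le_pow_left₀ (by positivity) n1 2)
      (pow_le_pow_left₀ (by positivity) n2 2)
    have hd : |‖Complex.cosh (z + a * I)‖ ^ 2 - ‖Complex.cosh (z + b * I)‖ ^ 2| ≤ 1 := by
      rw [norm_sq_eq, norm_sq_eq, re_add, re_add, abs_le]
      have b1 := Real.cos_sq_le_one (z + a * I : ℂ).im
      have b2 := Real.cos_sq_le_one (z + b * I : ℂ).im
      have b3 := sq_nonneg (Real.cos (z + a * I : ℂ).im)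
      have b4 := sq_nonneg (Real.cos (z + b * I : ℂ).im)
      constructor <;> linarith
    rw [Real.log_pow, Real.log_pow] at q
    push_cast at q
    have q2 : |‖Complex.cosh (z + a * I)‖ ^ 2 - ‖Complex.cosh (z + b * I)‖ ^ 2| /
        (c0 δ / 2 * Real.exp |z.re|) ^ 2 ≤ 1 / (c0 δ / 2 * Real.exp |z.re|) ^ 2 := by gcongr
    have q3 : 1 / (c0 δ / 2 * Real.exp |z.re|) ^ 2 = 4 / c0 δ ^ 2 * Real.exp (-2 * |z.re|) := by
      rw [show -2 * |z.re| = -(|z.re| + |z.re|) by ring, Real.exp_neg, Real.exp_add]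
      field_simp
      norm_num
    have q4 : 4 / c0 δ ^ 2 * Real.exp (-2 * |z.re|) ≤ KL δ * Real.exp (-2 * |z.re|) :=
      mul_le_mul_of_nonneg_right (KL_ge δ) (Real.exp_pos _).le
    have q5 : 0 ≤ KL δ * Real.exp (-2 * |z.re|) :=
      mul_nonneg (KL_pos h0 h1).le (Real.exp_pos _).le
    linarith
  have e : (LC y1 y2 z).re = Real.log ‖Complex.cosh (z + y1 * I)‖ -
      Real.log ‖Complex.cosh (z + y2 * I)‖ := by
    unfold LC
    rw [Complex.sub_re, Complex.log_re, Complex.log_re]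
  rw [e, abs_le]
  constructor
  · have := key y2 y1 h.i2 h.i1
    linarith
  · exact key y1 y2 h.i1 h.i2

theorem LC_le (h0 : 0 < δ) (h1 : δ ≤ 4 * l) (h : Dm δ y1 y2 z) : ‖LC y1 y2 z‖ ≤ 2 * KL δ := by
  have a1 := re_LC_le h0 h1 h
  have a2 : Real.exp (-2 * |z.re|) ≤ 1 := by
    refine Real.exp_le_one_iff.2 ?_
    have := abs_nonneg z.re
    linarith
  have hK := KL_pos h0 h1
  have a3 : |(LC y1 y2 z).re| ≤ KL δ := a1.trans (by nlinarith)
  have a4 : |(LC y1 y2 z).im| ≤ 2 * Real.pi := by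
    unfold LC
    rw [Complex.sub_im, Complex.log_im, Complex.log_im]
    refine (abs_sub _ _).trans ?_
    have := Complex.abs_arg_le_pi (Complex.cosh (z + y1 * I))
    have := Complex.abs_arg_le_pi (Complex.cosh (z + y2 * I))
    linarith
  have a5 : 2 * Real.pi ≤ KL δ := by
    unfold KL
    have := c0_pos h0 h1
    have : 0 ≤ 4 / c0 δ ^ 2 := by positivity
    linarith
  calc ‖LC y1 y2 z‖ ≤ |(LC y1 y2 z).re| + |(LC y1 y2 z).im| := Complex.norm_le_abs_re_add_abs_im _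
    _ ≤ _ := by linarith

/-! ### along a curve -/

/-- the atom along the curve, centre `c` -/
def AT (y1 y2 c : ℝ) (η : ℝ → ℝ) (t : ℝ) : ℝ := (LC y1 y2 (((t - c : ℝ) : ℂ) + η t * I)).re

/-- its derivative -/
def AT' (y1 y2 c : ℝ) (η η1 : ℝ → ℝ) (t : ℝ) : ℝ :=
  (LC' y1 y2 (((t - c : ℝ) : ℂ) + η t * I) * (1 + η1 t * I)).re

lemma im_pt (x y : ℝ) : ((x : ℂ) + y * I).im = y := by simp
lemma re_pt (x y : ℝ) : ((x : ℂ) + y * I).re = x := by simp

variable {c : ℝ} {η η1 : ℝ → ℝ}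

lemma Dm.pt (h1 : |y1| ≤ 4 * l - δ) (h2 : |y2| ≤ 4 * l - δ) (hη : ∀ t, |η t| ≤ δ / 2) (t : ℝ) :
    Dm δ y1 y2 (((t - c : ℝ) : ℂ) + η t * I) := Dm.of h1 h2 (by rw [im_pt]; exact hη t)

theorem AT_deriv (h0 : 0 < δ) (h1 : |y1| ≤ 4 * l - δ) (h2 : |y2| ≤ 4 * l - δ)
    (hη : ∀ t, |η t| ≤ δ / 2) (hd : ∀ t, HasDerivAt η (η1 t) t) (t : ℝ) :
    HasDerivAt (AT y1 y2 c η) (AT' y1 y2 c η η1 t) t := by
  have e1 : HasDerivAt (fun t : ℝ => ((t - c : ℝ) : ℂ)) 1 t := by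
    have := ((hasDerivAt_id t).sub_const c).ofReal_comp
    simpa using this
  have e2 : HasDerivAt (fun t : ℝ => ((η t : ℝ) : ℂ) * I) ((η1 t : ℂ) * I) t :=
    (hd t).ofReal_comp.mul_const I
  have e3 := e1.add e2
  have e4 := (LC_deriv h0 (Dm.pt (c := c) h1 h2 hη t)).comp_of_eq t e3 rfl
  exact Complex.reCLM.hasFDerivAt.comp_hasDerivAt t e4

theorem LC'_cont (h0 : 0 < δ) (h : Dm δ y1 y2 z) : ContinuousAt (LC' y1 y2) z := by
  have k : ∀ y : ℝ, |z.im + y| ≤ 4 * l - δ / 2 →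
      ContinuousAt (fun z : ℂ => Complex.sinh (z + y * I) / Complex.cosh (z + y * I)) z := by
    intro y hy
    have hne : Complex.cosh (z + y * I) ≠ 0 := Complex.slitPlane_ne_zero (slit1 h0 hy)
    exact ContinuousAt.div (by fun_prop) (by fun_prop) hne
  exact (k y1 h.i1).sub (k y2 h.i2)

theorem AT'_cont (h0 : 0 < δ) (h1 : |y1| ≤ 4 * l - δ) (h2 : |y2| ≤ 4 * l - δ)
    (hη : ∀ t, |η t| ≤ δ / 2) (hc : Continuous η) (hc1 : Continuous η1) :
    Continuous (AT' y1 y2 c η η1) := by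
  refine Complex.continuous_re.comp (Continuous.mul ?_ (by fun_prop))
  refine continuous_iff_continuousAt.2 fun t => ?_
  have hin : ContinuousAt (fun t : ℝ => ((t - c : ℝ) : ℂ) + η t * I) t :=
    Continuous.continuousAt (by fun_prop)
  exact ContinuousAt.comp (f := fun t : ℝ => ((t - c : ℝ) : ℂ) + η t * I)
    (LC'_cont h0 (Dm.pt (c := c) h1 h2 hη t)) hin

theorem AT_le (h0 : 0 < δ) (h01 : δ ≤ 4 * l) (h1 : |y1| ≤ 4 * l - δ) (h2 : |y2| ≤ 4 * l - δ)
    (hη : ∀ t, |η t| ≤ δ / 2) (t : ℝ) : |AT y1 y2 c η t| ≤ KL δ * Real.exp (-2 * |t - c|) := by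
  have := re_LC_le h0 h01 (Dm.pt (c := c) h1 h2 hη t)
  rwa [re_pt] at this

theorem AT'_le (h0 : 0 < δ) (h01 : δ ≤ 4 * l) (h1 : |y1| ≤ 4 * l - δ) (h2 : |y2| ≤ 4 * l - δ)
    (hη : ∀ t, |η t| ≤ δ / 2) (hη1 : ∀ t, |η1 t| ≤ 1) (t : ℝ) :
    |AT' y1 y2 c η η1 t| ≤ 2 * KL δ * Real.exp (-2 * |t - c|) := by
  have a := LC'_le h0 h01 (Dm.pt (c := c) h1 h2 hη t)
  rw [re_pt] at a
  have b : ‖(1 + η1 t * I : ℂ)‖ ≤ 2 := by
    refine (norm_add_le _ _).trans ?_
    rw [norm_one, norm_mul, Complex.norm_I, mul_one, Complex.norm_real, Real.norm_eq_abs]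
    linarith [hη1 t]
  unfold AT'
  refine (Complex.abs_re_le_norm _).trans ?_
  rw [norm_mul]
  calc _ ≤ KL δ * Real.exp (-2 * |t - c|) * 2 :=
        mul_le_mul a b (norm_nonneg _) (mul_nonneg (KL_pos h0 h01).le (Real.exp_pos _).le)
    _ = _ := by ring

/-- **the extension class** -/
theorem AT_ext {δ : ℝ} (h0 : 0 < δ) (h01 : δ ≤ 1) : ∃ C : ℝ, 1 ≤ C ∧ ∀ (y1 y2 c b : ℝ) (η : ℝ → ℝ),
    |y1| ≤ 4 * l - δ → |y2| ≤ 4 * l - δ → NUOC.O 4 1 η → (∀ x, |η x| ≤ δ / 4) →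
    NUR2.Ext 4 b C (AT y1 y2 c η) := by
  obtain ⟨C, hC, H⟩ := NUR2.ext_anal 4 (κ := δ / 2) (by positivity) (by linarith)
  have hpi := Real.pi_gt_three
  have h8 := l8
  have hK := KL_pos h0 (by linarith)
  refine ⟨C * (2 * KL δ) + 1, by nlinarith, fun y1 y2 c b η h1 h2 hη hη2 => ?_⟩
  have hD : ∀ z : ℂ, |z.im| < δ / 2 → Dm δ y1 y2 (z - c) := fun z hz =>
    Dm.of h1 h2 (by rw [Complex.sub_im, Complex.ofReal_im, sub_zero]; exact hz.le)
  have key := H (b := b) (A := 2 * KL δ) (F := fun z => LC y1 y2 (z - c)) (η := η) (by positivity)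
    (by
      intro z hz
      have d1 := (LC_deriv h0 (hD z hz.2)).differentiableAt
      have d2 : DifferentiableAt ℂ (fun z : ℂ => z - c) z := differentiableAt_id.sub_const _
      exact (DifferentiableAt.comp (f := fun z : ℂ => z - c) z d1 d2).differentiableWithinAt)
    (fun z _ hz => LC_le h0 (by linarith) (hD z hz)) hη (fun x => by linarith [hη2 x])
  refine (key.mono (by linarith)).congr fun x _ => ?_
  unfold AT
  congr 2
  push_cast
  ring

/-! ### the energy -/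

lemma int_exp4 (c : ℝ) : Integrable (fun t : ℝ => Real.exp (-4 * |t - c|)) ∧
    ∫ t : ℝ, Real.exp (-4 * |t - c|) = ∫ t : ℝ, Real.exp (-4 * |t|) := by
  have e0 := NUMF.int_exp_abs (b := 4) (by norm_num)
  exact ⟨e0.comp_sub_right c, integral_sub_right_eq_self (fun t : ℝ => Real.exp (-4 * |t|)) c⟩

/-- energy of a function with exponential decay about `c` -/
theorem en_le {f : ℝ → ℝ} {A : ℝ} (hA : 0 ≤ A) (hf : Continuous f)
    (h : ∀ t, |f t| ≤ A * Real.exp (-2 * |t - c|)) {T : ℝ} (hT : 0 ≤ T) :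
    ∫ t in (-T)..T, f t ^ 2 ≤ A ^ 2 * ∫ t : ℝ, Real.exp (-4 * |t|) := by
  obtain ⟨i0, e0⟩ := int_exp4 c
  have hb : ∀ t, f t ^ 2 ≤ A ^ 2 * Real.exp (-4 * |t - c|) := by
    intro t
    have h1 := pow_le_pow_left₀ (abs_nonneg _) (h t) 2
    rw [sq_abs] at h1
    refine h1.trans (le_of_eq ?_)
    rw [mul_pow, ← Real.exp_nat_mul]
    congr 2
    push_cast
    ring
  have i1 : Integrable (fun t : ℝ => A ^ 2 * Real.exp (-4 * |t - c|)) := i0.const_mul _
  calc ∫ t in (-T)..T, f t ^ 2 ≤ ∫ t in (-T)..T, A ^ 2 * Real.exp (-4 * |t - c|) := by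
        refine intervalIntegral.integral_mono_on (by linarith) ?_ i1.intervalIntegrable
          fun t _ => hb t
        exact (hf.pow 2).intervalIntegrable _ _
    _ ≤ ∫ t : ℝ, A ^ 2 * Real.exp (-4 * |t - c|) := by
        rw [intervalIntegral.integral_of_le (by linarith)]
        exact setIntegral_le_integral i1 (Eventually.of_forall fun t => by positivity)
    _ = _ := by rw [integral_const_mul, e0]

end

end PBH
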