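import Pool.Agent.NUGC.DefC

/-!
# Plan B: one body data of the doubly dislocated function (class D)

* `rwC x u`: modulus of the factor of one row at `x ∈ ℂ` on a quantum at `u`, both groups;
  `thZ z u`: modulus of the factor of the two legs at `z`;
* `obD mu b z`: rows `mu` in both groups, cutoff of the rows `mu ++ [i, -i]`;
* `RwD n0 M mu`: `mu` is, up to order, `K` pairs `± l / 2` and at most `n0` rows
  `± l / 2 + i η`, `|η| ≤ 2`, and `|2 K - (2 M + 1)| ≤ n0`.
-/

set_option autoImplicit false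

noncomputable section

namespace PBO

open NUO NUP1 NUCR NUGC

/-- modulus of the factor of one row at `x` on a quantum at `u`, both groups -/
def rwC (x u : ℂ) : ℝ :=
  ‖Complex.sin (u - x + 3 * l)‖ ^ 2 / (‖Complex.sin (u - x)‖ * ‖Complex.sin (u - x - 2 * l)‖)

/-- modulus of the factor of the two legs at `z` -/
def thZ (z u : ℂ) : ℝ := ‖Complex.sin (z - u - 3 * l)‖ / ‖Complex.sin (z - u + 2 * l)‖

/-- the rows of the cutoff -/
def rowsW (mu : List ℂ) : List ℂ := mu ++ [Complex.I, -Complex.I]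

/-- **one body data of the doubly dislocated function**, rows `mu` in both groups, legs at `z` -/
def obD (mu : List ℂ) (b : ℝ) (z : ℂ) : OB where
  R _ u := 2 * Real.cos l * (mu.map fun x => rwC x u).prod * thZ z u
  φ := phi b (rowsW mu)
  φ0 := phi (4 / 3) (rowsW mu)

theorem rwC_nonneg (x u : ℂ) : 0 ≤ rwC x u := by unfold rwC; positivity

theorem thZ_nonneg (z u : ℂ) : 0 ≤ thZ z u := by unfold thZ; positivity

theorem prod_rwC_nonneg (mu : List ℂ) (u : ℂ) : 0 ≤ (mu.map fun x => rwC x u).prod := by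
  refine List.prod_nonneg fun a ha => ?_
  obtain ⟨x, -, rfl⟩ := List.mem_map.1 ha
  exact rwC_nonneg x u

theorem obD_nn (mu : List ℂ) (b : ℝ) (z : ℂ) : (obD mu b z).Nn := fun _ u =>
  mul_nonneg (mul_nonneg (mul_nonneg two_pos.le cosl_nonneg) (prod_rwC_nonneg mu u)) (thZ_nonneg z u)

theorem phi_perm {X Y : List ℂ} (h : X.Perm Y) (b : ℝ) : phi b X = phi b Y := by
  funext u
  unfold phi
  rw [(h.map fun x => psi b (u - x)).prod_eq]

/-- the data do not depend on the order of the rows -/
theorem obD_perm {mu mu' : List ℂ} (h : mu.Perm mu') (b : ℝ) (z : ℂ) : obD mu b z = obD mu' b z := by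
  have h1 : (rowsW mu).Perm (rowsW mu') := h.append_right _
  unfold obD
  rw [phi_perm h1, phi_perm h1]
  congr 1
  funext a u
  rw [(h.map fun x => rwC x u).prod_eq]

/-- `K` pairs of rows at `± l / 2` -/
def pairs (K : ℕ) : List ℂ :=
  List.replicate K ((l / 2 : ℝ) : ℂ) ++ List.replicate K ((-(l / 2) : ℝ) : ℂ)

/-- a row which may be anywhere on `re x = ± l / 2`, `|im x| ≤ 2` -/
def RowX (x : ℂ) : Prop := (x.re = l / 2 ∨ x.re = -(l / 2)) ∧ |x.im| ≤ 2

/-- **admissible rows**: `K` pairs and at most `n0` other rows, `|2 K - (2 M + 1)| ≤ n0` -/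
def RwD (n0 M : ℕ) (mu : List ℂ) : Prop :=
  ∃ (K : ℕ) (ex : List ℂ), mu.Perm (pairs K ++ ex) ∧ ex.length ≤ n0 ∧ (∀ x ∈ ex, RowX x) ∧
    2 * K ≤ 2 * M + 1 + n0 ∧ 2 * M + 1 ≤ 2 * K + n0

theorem length_pairs (K : ℕ) : (pairs K).length = 2 * K := by
  unfold pairs
  rw [List.length_append, List.length_replicate, List.length_replicate]
  ring

theorem prod_pairs (K : ℕ) (f : ℂ → ℝ) : ((pairs K).map f).prod =
    (f ((l / 2 : ℝ) : ℂ) * f ((-(l / 2) : ℝ) : ℂ)) ^ K := by
  unfold pairs
  rw [List.map_append, List.prod_append, List.map_replicate, List.map_replicate,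
    List.prod_replicate, List.prod_replicate, mul_pow]

theorem prod_pairsC (K : ℕ) (f : ℂ → ℂ) : ((pairs K).map f).prod =
    (f ((l / 2 : ℝ) : ℂ) * f ((-(l / 2) : ℝ) : ℂ)) ^ K := by
  unfold pairs
  rw [List.map_append, List.prod_append, List.map_replicate, List.map_replicate,
    List.prod_replicate, List.prod_replicate, mul_pow]

/-- the row factor of `K` pairs and the rows `ex` -/
theorem R_pairs (K : ℕ) (ex : List ℂ) (b : ℝ) (z : ℂ) (a : Bool) (u : ℂ) :
    (obD (pairs K ++ ex) b z).R a u =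
      2 * Real.cos l * (prN u ^ K * (ex.map fun x => rwC x u).prod) * thZ z u := by
  show 2 * Real.cos l * ((pairs K ++ ex).map fun x => rwC x u).prod * thZ z u = _
  rw [List.map_append, List.prod_append, prod_pairs]
  rfl

/-- the cutoff of `K` pairs and the rows `ex` -/
theorem phi_pairs (K : ℕ) (ex : List ℂ) (b : ℝ) (u : ℂ) : phi b (rowsW (pairs K ++ ex)) u =
    1 - PsiP b u ^ K * (((ex ++ [Complex.I, -Complex.I]).map fun x => psi b (u - x)).prod) := by
  unfold phi rowsW
  rw [List.append_assoc, List.map_append, List.prod_append, prod_pairsC]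
  congr 3
  unfold PsiP
  push_cast
  ring_nf

/-- number of the rows -/
theorem RwD.len {n0 M : ℕ} {mu : List ℂ} (h : RwD n0 M mu) : mu.length ≤ 2 * M + 1 + 2 * n0 := by
  obtain ⟨K, ex, h1, h2, -, h4, -⟩ := h
  rw [h1.length_eq, List.length_append, length_pairs]
  omega

/-- rows `(l / 2)^a (-l / 2)^b` and further rows -/
theorem RwD.of {n0 M a b : ℕ} {ex : List ℂ} (hex : ∀ x ∈ ex, RowX x)
    (h1 : ex.length + (max a b - min a b) ≤ n0) (h2 : 2 * min a b ≤ 2 * M + 1 + n0)
    (h3 : 2 * M + 1 ≤ 2 * min a b + n0) :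
    RwD n0 M (List.replicate a ((l / 2 : ℝ) : ℂ) ++ List.replicate b ((-(l / 2) : ℝ) : ℂ) ++ ex) := by
  have hR : ∀ x : ℂ, (x = ((l / 2 : ℝ) : ℂ) ∨ x = ((-(l / 2) : ℝ) : ℂ)) → RowX x := by
    rintro x (rfl | rfl)
    · exact ⟨Or.inl (Complex.ofReal_re _), by rw [Complex.ofReal_im]; norm_num⟩
    · exact ⟨Or.inr (Complex.ofReal_re _), by rw [Complex.ofReal_im]; norm_num⟩
  set A : ℂ := ((l / 2 : ℝ) : ℂ) with hA
  set B : ℂ := ((-(l / 2) : ℝ) : ℂ) with hB
  refine ⟨min a b, List.replicate (a - b) A ++ List.replicate (b - a) B ++ ex, ?_, ?_, ?_, h2, h3⟩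
  · have e1 : List.replicate a A = List.replicate (min a b) A ++ List.replicate (a - b) A := by
      rw [← List.replicate_add]
      congr 1
      omega
    have e2 : List.replicate b B = List.replicate (min a b) B ++ List.replicate (b - a) B := by
      rw [← List.replicate_add]
      congr 1
      omega
    rw [e1, e2]
    unfold pairs
    rw [← hA, ← hB, ← Multiset.coe_eq_coe]
    simp only [← Multiset.coe_add]
    abel
  · rw [List.length_append, List.length_append, List.length_replicate, List.length_replicate]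
    omega
  · intro x hx
    rw [List.mem_append, List.mem_append] at hx
    rcases hx with (hx | hx) | hx
    · exact hR x (Or.inl (List.eq_of_mem_replicate hx))
    · exact hR x (Or.inr (List.eq_of_mem_replicate hx))
    · exact hex x hx

end PBO

end
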