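import Pool.Agent.PotH.InH
import Pool.Agent.PB.LC
import Pool.Agent.PB.ObDef
import Pool.Agent.NUGC.ThN

/-!
# Plan B: the potentials of rows, legs and spectators are admissible

* `HS x η`, `HS' x η η1`: sum of atoms `k Re LC y1 y2 (t - c + i η t)`, and derivative;
* **`hok`**: `HOk` for every sum of at most `n` atoms with bounded coefficients, `|y1|, |y2| ≤ 4 l - δ`, any
  centres, for every admissible curve;
* `rwC_pA`, `thZ_pA`, `ThN_pA`: the factors of rows, legs and ends on the curve are exponentials of atoms.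
-/

set_option autoImplicit false
set_option linter.unusedSectionVars false

open MeasureTheory Filter Topology Set Complex

namespace PBH

open NUMF (l l_pos)
open NUO (pA Tb)
open PotH (HOk CrvP)

noncomputable section

/-- an atom with its coefficient and centre -/
structure Atm where
  /-- coefficient -/
  k : ℝ
  /-- line of the numerator -/
  y1 : ℝ
  /-- line of the denominator -/
  y2 : ℝ
  /-- centre -/
  c : ℝ

/-- the sum of atoms -/
def HS {n : ℕ} (x : Bool → Fin n → Atm) (η : ℝ → ℝ) (a : Bool) (t : ℝ) : ℝ :=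
  ∑ i, (x a i).k * AT (x a i).y1 (x a i).y2 (x a i).c η t

/-- its derivative -/
def HS' {n : ℕ} (x : Bool → Fin n → Atm) (η η1 : ℝ → ℝ) (a : Bool) (t : ℝ) : ℝ :=
  ∑ i, (x a i).k * AT' (x a i).y1 (x a i).y2 (x a i).c η η1 t

/-- bounded atoms -/
def AtOk (K δ : ℝ) {n : ℕ} (x : Bool → Fin n → Atm) : Prop :=
  ∀ a i, |(x a i).k| ≤ K ∧ |(x a i).y1| ≤ 4 * l - δ ∧ |(x a i).y2| ≤ 4 * l - δ

lemma sum_abs_le {n : ℕ} {f : Fin n → ℝ} {A : ℝ} (h : ∀ i, |f i| ≤ A) : |∑ i, f i| ≤ n * A := by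
  refine (Finset.abs_sum_le_sum_abs _ _).trans ((Finset.sum_le_sum fun i _ => h i).trans ?_)
  simp

/-- energy of a sum -/
lemma en_sum {n : ℕ} {f : Fin n → ℝ → ℝ} {A : ℝ} (hf : ∀ i, Continuous (f i))
    (h : ∀ i, ∃ c, ∀ t, |f i t| ≤ A * Real.exp (-2 * |t - c|)) (hA : 0 ≤ A) {T : ℝ} (hT : 0 ≤ T) :
    ∫ t in (-T)..T, (∑ i, f i t) ^ 2 ≤ n ^ 2 * (A ^ 2 * ∫ t : ℝ, Real.exp (-4 * |t|)) := by
  have h1 : ∀ t, (∑ i, f i t) ^ 2 ≤ ∑ i, (n : ℝ) * f i t ^ 2 := by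
    intro t
    have := sq_sum_le_card_mul_sum_sq (s := (Finset.univ : Finset (Fin n))) (f := fun i => f i t)
    rw [Finset.card_univ, Fintype.card_fin, Finset.mul_sum] at this
    exact this
  have hc : ∀ i, Continuous fun t => (n : ℝ) * f i t ^ 2 := fun i =>
    continuous_const.mul ((hf i).pow 2)
  calc ∫ t in (-T)..T, (∑ i, f i t) ^ 2 ≤ ∫ t in (-T)..T, ∑ i, (n : ℝ) * f i t ^ 2 := by
        refine intervalIntegral.integral_mono_on (by linarith) ?_ ?_ fun t _ => h1 t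
        · exact ((continuous_finsetSum _ fun i _ => hf i).pow 2).intervalIntegrable _ _
        · exact (continuous_finsetSum _ fun i _ => hc i).intervalIntegrable _ _
    _ = ∑ i, ∫ t in (-T)..T, (n : ℝ) * f i t ^ 2 :=
        intervalIntegral.integral_finsetSum fun i _ => (hc i).intervalIntegrable _ _
    _ ≤ ∑ _i : Fin n, (n : ℝ) * (A ^ 2 * ∫ t : ℝ, Real.exp (-4 * |t|)) := by
        refine Finset.sum_le_sum fun i _ => ?_
        rw [intervalIntegral.integral_const_mul]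
        obtain ⟨c, hc⟩ := h i
        exact mul_le_mul_of_nonneg_left (en_le hA (hf i) hc hT) (Nat.cast_nonneg _)
    _ = _ := by
        rw [Finset.sum_const, Finset.card_univ, Fintype.card_fin, nsmul_eq_mul]
        ring

/-- a curve with small derivatives -/
structure Sm (ε : ℝ) (η η1 : ℝ → ℝ) : Prop where
  o : NUOC.O 4 1 η
  d : ∀ t, HasDerivAt η (η1 t) t
  c : Continuous η1
  le : ∀ t, |η t| ≤ ε
  le1 : ∀ t, |η1 t| ≤ 1

/-- **admissible potentials**, curve form -/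
theorem hok_sm (n : ℕ) {K δ : ℝ} (hK : 0 ≤ K) (hδ : 0 < δ) (hδ1 : δ ≤ 1) :
    ∃ B0 N0 : ℝ, 0 ≤ B0 ∧ 0 ≤ N0 ∧ ∃ A0 : ℝ, 0 ≤ A0 ∧
      ∀ (η η1 : ℝ → ℝ), Sm (δ / 4) η η1 → ∀ x : Bool → Fin n → Atm, AtOk K δ x →
      ∀ th b A : ℝ, 0 ≤ th → A0 ≤ A → HOk B0 N0 th b A (HS x η) (HS' x η η1) := by
  have hpi := Real.pi_gt_three
  have h8 := l8
  have h01 : δ ≤ 4 * l := by linarith
  obtain ⟨C, hC, HC⟩ := AT_ext hδ hδ1
  have hKL := KL_pos hδ h01
  obtain ⟨CI, hCI⟩ : ∃ CI : ℝ, CI = ∫ t : ℝ, Real.exp (-4 * |t|) := ⟨_, rfl⟩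
  have hCI0 : 0 ≤ CI := by
    rw [hCI]
    exact integral_nonneg fun t => (Real.exp_pos _).le
  refine ⟨n * (K * KL δ), n ^ 2 * ((K * KL δ) ^ 2 * CI) + n ^ 2 * ((K * (2 * KL δ)) ^ 2 * CI),
    by positivity, by positivity, n * (K * C), by positivity, ?_⟩
  intro η η1 hη x hx th b A hth hA
  have hη2 : ∀ t, |η t| ≤ δ / 2 := fun t => (hη.le t).trans (by linarith)
  have hcη : Continuous η := continuous_iff_continuousAt.2 fun t => (hη.d t).continuousAt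
  have hd : ∀ a t, HasDerivAt (HS x η a) (HS' x η η1 a t) t := by
    intro a t
    have h1 : ∀ i ∈ (Finset.univ : Finset (Fin n)), HasDerivAt
        (fun t => (x a i).k * AT (x a i).y1 (x a i).y2 (x a i).c η t)
        ((x a i).k * AT' (x a i).y1 (x a i).y2 (x a i).c η η1 t) t := fun i _ =>
      (AT_deriv hδ (hx a i).2.1 (hx a i).2.2 hη2 hη.d t).const_mul _
    have h2 := HasDerivAt.fun_sum h1
    exact h2
  have hcA : ∀ a i, Continuous (AT (x a i).y1 (x a i).y2 (x a i).c η) := fun a i =>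
    continuous_iff_continuousAt.2 fun t =>
      (AT_deriv hδ (hx a i).2.1 (hx a i).2.2 hη2 hη.d t).continuousAt
  have hcA' : ∀ a i, Continuous (AT' (x a i).y1 (x a i).y2 (x a i).c η η1) := fun a i =>
    AT'_cont hδ (hx a i).2.1 (hx a i).2.2 hη2 hcη hη.c
  have hb0 : ∀ a i t, |(x a i).k * AT (x a i).y1 (x a i).y2 (x a i).c η t| ≤
      K * KL δ * Real.exp (-2 * |t - (x a i).c|) := by
    intro a i t
    rw [abs_mul, mul_assoc]
    exact mul_le_mul (hx a i).1 (AT_le hδ h01 (hx a i).2.1 (hx a i).2.2 hη2 t) (abs_nonneg _) hK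
  have hb1 : ∀ a i t, |(x a i).k * AT' (x a i).y1 (x a i).y2 (x a i).c η η1 t| ≤
      K * (2 * KL δ) * Real.exp (-2 * |t - (x a i).c|) := by
    intro a i t
    rw [abs_mul, mul_assoc]
    refine mul_le_mul (hx a i).1 ?_ (abs_nonneg _) hK
    exact AT'_le hδ h01 (hx a i).2.1 (hx a i).2.2 hη2 hη.le1 t
  refine ⟨hd, fun a => ?_, fun a t => ?_, fun a T hT => ?_, fun a => ?_⟩
  · unfold HS'
    exact continuous_finsetSum _ fun i _ => continuous_const.mul (hcA' a i)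
  · refine sum_abs_le fun i => (hb0 a i t).trans ?_
    have : Real.exp (-2 * |t - (x a i).c|) ≤ 1 := by
      refine Real.exp_le_one_iff.2 ?_
      have := abs_nonneg (t - (x a i).c)
      linarith
    have h2 : 0 ≤ K * KL δ := by positivity
    nlinarith
  · have e1 := en_sum (f := fun i t => (x a i).k * AT (x a i).y1 (x a i).y2 (x a i).c η t)
      (A := K * KL δ) (fun i => continuous_const.mul (hcA a i)) (fun i => ⟨_, hb0 a i⟩)
      (by positivity) hT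
    have e2 := en_sum (f := fun i t => (x a i).k * AT' (x a i).y1 (x a i).y2 (x a i).c η η1 t)
      (A := K * (2 * KL δ)) (fun i => continuous_const.mul (hcA' a i)) (fun i => ⟨_, hb1 a i⟩)
      (by positivity) hT
    have i1 : IntervalIntegrable (fun t => HS x η a t ^ 2) volume (-T) T :=
      ((continuous_finsetSum _ fun i _ => continuous_const.mul (hcA a i)).pow 2).intervalIntegrable _ _
    have i2 : IntervalIntegrable (fun t => HS' x η η1 a t ^ 2) volume (-T) T :=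
      ((continuous_finsetSum _ fun i _ => continuous_const.mul (hcA' a i)).pow 2).intervalIntegrable _ _
    rw [intervalIntegral.integral_add i1 i2]
    rw [← hCI] at e1 e2
    have h3 : 0 ≤ th * T := mul_nonneg hth hT
    unfold HS HS'
    linarith
  · have h1 := NUR2.Ext.sum (b := b) (j := 4) (Finset.univ : Finset (Fin n))
      (M := fun i => |(x a i).k| * C)
      (f := fun i t => (x a i).k * AT (x a i).y1 (x a i).y2 (x a i).c η t)
      (fun i _ => (HC _ _ _ b η (hx a i).2.1 (hx a i).2.2 hη.o hη.le).smul _)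
    refine NUR2.Ext.mono h1 (le_trans ?_ hA)
    calc ∑ i, |(x a i).k| * C ≤ ∑ _i : Fin n, K * C :=
          Finset.sum_le_sum fun i _ => mul_le_mul_of_nonneg_right (hx a i).1 (by linarith)
      _ = _ := by simp

section
variable [NUSea.Sea]

/-- curves of the chain are small -/
theorem sm_of {e1 Cc : ℝ} {m : ℕ} {η η1 : ℝ → ℝ} (h : CrvP e1 Cc m η η1) {ε : ℝ}
    (hm : (m : ℝ) ^ (-(e1 / 2)) ≤ ε) : Sm ε η η1 := by
  obtain ⟨ε0, e, hC, h0, h1, h2⟩ := h.cur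
  have hO : NUOC.O 4 1 η := by
    have a := (hC.oc.smul (-I)).re (a := 1) (fun t => by
      rw [norm_neg, Complex.norm_I, one_mul]
      linarith [hC.le t])
    refine a.congr fun t => ?_
    unfold NUKer.iD
    rw [show -I * ((η t : ℂ) * I) = (η t : ℂ) by
      rw [show -I * ((η t : ℂ) * I) = -(I * I) * η t by ring, Complex.I_mul_I]; ring,
      Complex.ofReal_re]
  have hle : ∀ t, |η t| ≤ ε := by
    intro t
    have a := hC.oc.le t
    unfold NUKer.iD at a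
    rw [norm_mul, Complex.norm_I, mul_one, Complex.norm_real, Real.norm_eq_abs] at a
    linarith [hC.le t]
  refine ⟨hO, h.d, h.c, hle, fun t => ?_⟩
  obtain ⟨-, f', hf, ho⟩ := hO
  have := (hf t).unique (h.d t)
  rw [← this]
  exact ho.le t

/-- **admissible potentials of the chain**: sums of atoms satisfy the hypotheses of the sharp bound -/
theorem hok (n : ℕ) {K δ : ℝ} (hK : 0 ≤ K) (hδ : 0 < δ) (hδ1 : δ ≤ 1) :
    ∃ B0 N0 : ℝ, 0 ≤ B0 ∧ 0 ≤ N0 ∧ ∀ e1 : ℝ, 0 < e1 → ∃ m0 : ℕ, ∀ m : ℕ, m0 ≤ m →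
      ∀ (Cc : ℝ) (η η1 : ℝ → ℝ), CrvP e1 Cc m η η1 → ∀ x : Bool → Fin n → Atm, AtOk K δ x →
      ∀ th b : ℝ, 0 ≤ th → HOk B0 N0 th b (Real.log m ^ 3) (HS x η) (HS' x η η1) := by
  obtain ⟨B0, N0, hB0, hN0, A0, hA0, H⟩ := hok_sm n hK hδ hδ1
  refine ⟨B0, N0, hB0, hN0, fun e1 he1 => ?_⟩
  have t1 : Tendsto (fun m : ℕ => (m : ℝ) ^ (-(e1 / 2))) atTop (𝓝 0) :=
    (tendsto_rpow_neg_atTop (by linarith : 0 < e1 / 2)).comp tendsto_natCast_atTop_atTop
  have t2 : Tendsto (fun m : ℕ => Real.log m ^ 3) atTop atTop :=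
    (tendsto_pow_atTop (by norm_num)).comp (Real.tendsto_log_atTop.comp tendsto_natCast_atTop_atTop)
  obtain ⟨m0, hm0⟩ := eventually_atTop.1 ((t1.eventually (ge_mem_nhds (by linarith :
    (0 : ℝ) < δ / 4))).and (t2.eventually_ge_atTop A0))
  refine ⟨m0, fun m hm Cc η η1 hη x hx th b hth => ?_⟩
  obtain ⟨a1, a2⟩ := hm0 m hm
  exact H η η1 (sm_of hη a1) x hx th b _ hth a2

end

/-! ### the factors on the curve -/

lemma four_l : (4 : ℂ) * l = Real.pi / 2 := by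
  unfold NUMF.l
  push_cast
  ring

lemma cosh_eq (w : ℂ) : Complex.cosh w = Complex.cos (w * I) := (Complex.cos_mul_I w).symm

/-- point of the strip -/
def pw (y c : ℝ) (η : ℝ → ℝ) (t : ℝ) : ℂ := ((t - c : ℝ) : ℂ) + η t * I + y * I

lemma pA_eq (η : ℝ → ℝ) (t : ℝ) : pA η t = (l : ℂ) - η t + t * I := by
  unfold NUO.pA NUP1.vl
  rw [show NUP1.l = l from rfl]
  push_cast
  ring

/-- **the three sines of a row** -/
theorem sin_row (x : ℂ) (η : ℝ → ℝ) (t : ℝ) :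
    ‖Complex.sin (pA η t - x + 3 * l)‖ = ‖Complex.cosh (pw x.re x.im η t)‖ ∧
    ‖Complex.sin (pA η t - x)‖ = ‖Complex.cosh (pw (x.re + 3 * l) x.im η t)‖ ∧
    ‖Complex.sin (pA η t - x - 2 * l)‖ = ‖Complex.cosh (pw (x.re - 3 * l) x.im η t)‖ := by
  have hx : x = (x.re : ℂ) + x.im * I := (Complex.re_add_im x).symm
  have h4 := four_l
  have hI := Complex.I_mul_I
  refine ⟨?_, ?_, ?_⟩
  · rw [cosh_eq, ← Complex.sin_add_pi_div_two]
    congr 2
    rw [pA_eq, pw, ← h4]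
    conv_lhs => rw [hx]
    push_cast
    linear_combination (-(η t : ℂ) - x.re) * hI
  · rw [cosh_eq, ← Complex.cos_neg, ← Complex.sin_pi_div_two_sub]
    congr 2
    rw [pA_eq, pw, ← h4]
    conv_lhs => rw [hx]
    push_cast
    linear_combination (-(η t : ℂ) - x.re - 3 * l) * hI
  · rw [cosh_eq, ← norm_neg (Complex.sin _), ← Complex.sin_neg, ← Complex.cos_pi_div_two_sub]
    congr 2
    rw [pA_eq, pw, ← h4]
    conv_lhs => rw [hx]
    push_cast
    linear_combination (-(η t : ℂ) - x.re + 3 * l) * hI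

/-- **the two sines of a leg** -/
theorem sin_leg (z : ℂ) (η : ℝ → ℝ) (t : ℝ) :
    ‖Complex.sin (z - pA η t - 3 * l)‖ = ‖Complex.cosh (pw z.re z.im η t)‖ ∧
    ‖Complex.sin (z - pA η t + 2 * l)‖ = ‖Complex.cosh (pw (z.re - 3 * l) z.im η t)‖ := by
  have hz : z = (z.re : ℂ) + z.im * I := (Complex.re_add_im z).symm
  have h4 := four_l
  have hI := Complex.I_mul_I
  refine ⟨?_, ?_⟩
  · rw [cosh_eq, ← norm_neg (Complex.sin _), ← Complex.sin_neg, ← Complex.sin_add_pi_div_two]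
    congr 2
    rw [pA_eq, pw, ← h4]
    conv_lhs => rw [hz]
    push_cast
    linear_combination (-(η t : ℂ) - z.re) * hI
  · rw [cosh_eq, ← Complex.cos_pi_div_two_sub]
    congr 2
    rw [pA_eq, pw, ← h4]
    conv_lhs => rw [hz]
    push_cast
    linear_combination (-(η t : ℂ) - z.re + 3 * l) * hI

lemma pw_norm {δ y c : ℝ} (hδ : 0 < δ) (hδ1 : δ ≤ 4 * l) (hy : |y| ≤ 4 * l - δ) {η : ℝ → ℝ}
    (hη : ∀ t, |η t| ≤ δ / 2) (t : ℝ) : 0 < ‖Complex.cosh (pw y c η t)‖ := by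
  have h1 : (pw y c η t).im = η t + y := by
    unfold pw
    simp
  have h2 := norm_ge hδ hδ1 (w := pw y c η t) (by
    rw [h1]
    exact (abs_add_le _ _).trans (by linarith [hη t]))
  have := c0_pos hδ hδ1
  exact lt_of_lt_of_le (mul_pos this (Real.cosh_pos _)) h2

lemma AT_log (y1 y2 c : ℝ) (η : ℝ → ℝ) (t : ℝ) : AT y1 y2 c η t =
    Real.log ‖Complex.cosh (pw y1 c η t)‖ - Real.log ‖Complex.cosh (pw y2 c η t)‖ := by
  unfold AT LC pw
  rw [Complex.sub_re, Complex.log_re, Complex.log_re]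

variable {δ : ℝ} {η : ℝ → ℝ}

/-- **row factor on the curve** -/
theorem rwC_pA (hδ : 0 < δ) (hδ1 : δ ≤ l) (hη : ∀ t, |η t| ≤ δ / 2) {x : ℂ} (hx : |x.re| ≤ l - δ)
    (t : ℝ) : 0 < PBO.rwC x (pA η t) ∧ Real.log (PBO.rwC x (pA η t)) =
      AT x.re (x.re + 3 * l) x.im η t + AT x.re (x.re - 3 * l) x.im η t := by
  have hl := l_pos
  obtain ⟨x1, x2⟩ := abs_le.1 hx
  have p0 := pw_norm (c := x.im) hδ (by linarith) (y := x.re)
    (by rw [abs_le]; constructor <;> linarith) hη t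
  have p1 := pw_norm (c := x.im) hδ (by linarith) (y := x.re + 3 * l)
    (by rw [abs_le]; constructor <;> linarith) hη t
  have p2 := pw_norm (c := x.im) hδ (by linarith) (y := x.re - 3 * l)
    (by rw [abs_le]; constructor <;> linarith) hη t
  obtain ⟨s1, s2, s3⟩ := sin_row x η t
  have e : PBO.rwC x (pA η t) = ‖Complex.cosh (pw x.re x.im η t)‖ ^ 2 /
      (‖Complex.cosh (pw (x.re + 3 * l) x.im η t)‖ * ‖Complex.cosh (pw (x.re - 3 * l) x.im η t)‖) := by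
    rw [← s1, ← s2, ← s3]
    rfl
  rw [e]
  refine ⟨by positivity, ?_⟩
  rw [Real.log_div (by positivity) (by positivity), Real.log_pow, Real.log_mul p1.ne' p2.ne',
    AT_log, AT_log]
  push_cast
  ring

/-- **leg factor on the curve** -/
theorem thZ_pA (hδ : 0 < δ) (hδ1 : δ ≤ l) (hη : ∀ t, |η t| ≤ δ / 2) {z : ℂ} (h0 : -l + δ ≤ z.re)
    (h1 : z.re ≤ 4 * l - δ) (t : ℝ) : 0 < PBO.thZ z (pA η t) ∧
      Real.log (PBO.thZ z (pA η t)) = AT z.re (z.re - 3 * l) z.im η t := by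
  have hl := l_pos
  have p0 := pw_norm (c := z.im) hδ (by linarith) (y := z.re)
    (by rw [abs_le]; constructor <;> linarith) hη t
  have p2 := pw_norm (c := z.im) hδ (by linarith) (y := z.re - 3 * l)
    (by rw [abs_le]; constructor <;> linarith) hη t
  obtain ⟨s1, s2⟩ := sin_leg z η t
  have e : PBO.thZ z (pA η t) = ‖Complex.cosh (pw z.re z.im η t)‖ /
      ‖Complex.cosh (pw (z.re - 3 * l) z.im η t)‖ := by
    rw [← s1, ← s2]
    rfl
  rw [e]
  exact ⟨by positivity, by rw [Real.log_div p0.ne' p2.ne', AT_log]⟩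

/-- **the factor of the ends on the curve** -/
theorem ThN_pA (hδ : 0 < δ) (hδ1 : δ ≤ l / 2) (hη : ∀ t, |η t| ≤ δ / 2) (t : ℝ) :
    0 < NUGC.ThN (pA η t) ∧ Real.log (NUGC.ThN (pA η t)) =
      1 / 2 * AT (7 / 2 * l) (-(7 / 2 * l)) 0 η t + 1 / 2 * AT (5 / 2 * l) (-(5 / 2 * l)) 0 η t := by
  have hl := l_pos
  have q : ∀ y : ℝ, |y| ≤ 7 / 2 * l → 0 < ‖Complex.cosh (pw y 0 η t)‖ := fun y hy =>
    pw_norm (c := 0) hδ (by linarith) (by linarith) hη t
  have p1 := q (7 / 2 * l) (by rw [abs_of_pos (by linarith)])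
  have p2 := q (-(7 / 2 * l)) (by rw [abs_neg, abs_of_pos (by linarith)])
  have p3 := q (5 / 2 * l) (by rw [abs_of_pos (by linarith)]; linarith)
  have p4 := q (-(5 / 2 * l)) (by rw [abs_neg, abs_of_pos (by linarith)]; linarith)
  have h4 := four_l
  have hI := Complex.I_mul_I
  have hl1 : (NUP1.l : ℂ) = (l : ℂ) := rfl
  have s1 : ‖Complex.sin (pA η t - NUP1.l / 2)‖ = ‖Complex.cosh (pw (7 / 2 * l) 0 η t)‖ := by
    rw [cosh_eq, ← Complex.cos_neg, ← Complex.sin_pi_div_two_sub]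
    congr 2
    rw [pA_eq, pw, ← h4, hl1]
    push_cast
    linear_combination (-(η t : ℂ) - 7 / 2 * l) * hI
  have s2 : ‖Complex.sin (pA η t + NUP1.l / 2)‖ = ‖Complex.cosh (pw (5 / 2 * l) 0 η t)‖ := by
    rw [cosh_eq, ← Complex.cos_neg, ← Complex.sin_pi_div_two_sub]
    congr 2
    rw [pA_eq, pw, ← h4, hl1]
    push_cast
    linear_combination (-(η t : ℂ) - 5 / 2 * l) * hI
  have s3 : ‖Complex.sin (pA η t - 5 * NUP1.l / 2)‖ = ‖Complex.cosh (pw (-(5 / 2 * l)) 0 η t)‖ := by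
    rw [cosh_eq, ← norm_neg (Complex.sin _), ← Complex.sin_neg, ← Complex.cos_pi_div_two_sub]
    congr 2
    rw [pA_eq, pw, ← h4, hl1]
    push_cast
    linear_combination (-(η t : ℂ) + 5 / 2 * l) * hI
  have s4 : ‖Complex.sin (pA η t - 3 * NUP1.l / 2)‖ = ‖Complex.cosh (pw (-(7 / 2 * l)) 0 η t)‖ := by
    rw [cosh_eq, ← norm_neg (Complex.sin _), ← Complex.sin_neg, ← Complex.cos_pi_div_two_sub]
    congr 2
    rw [pA_eq, pw, ← h4, hl1]
    push_cast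
    linear_combination (-(η t : ℂ) + 7 / 2 * l) * hI
  unfold NUGC.ThN
  rw [s1, s2, s3, s4]
  have hp : 0 < ‖Complex.cosh (pw (7 / 2 * l) 0 η t)‖ * ‖Complex.cosh (pw (5 / 2 * l) 0 η t)‖ /
      (‖Complex.cosh (pw (-(5 / 2 * l)) 0 η t)‖ * ‖Complex.cosh (pw (-(7 / 2 * l)) 0 η t)‖) := by
    positivity
  refine ⟨Real.rpow_pos_of_pos hp _, ?_⟩
  rw [Real.log_rpow hp, Real.log_div (by positivity) (by positivity), Real.log_mul p1.ne' p3.ne',
    Real.log_mul p4.ne' p2.ne', AT_log, AT_log]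
  ring

/-! ### the potential of the legs at `z` with one moved row `x`, rows at `0` -/

/-- legs at `z`, row `x` in place of a row at `0`, ends removed `κ` times -/
def Hleg (κ : ℝ) (z x : ℂ) (η : ℝ → ℝ) (_a : Bool) (t : ℝ) : ℝ :=
  Real.log (PBO.thZ z (pA η t)) + Real.log (PBO.rwC x (pA η t)) - Real.log (PBO.rwC 0 (pA η t)) -
    κ * Real.log (NUGC.ThN (pA η t))

/-- its atoms -/
def aleg (κ : ℝ) (z x : ℂ) (_a : Bool) : Fin 7 → Atm := ![⟨1, z.re, z.re - 3 * l, z.im⟩,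
  ⟨1, x.re, x.re + 3 * l, x.im⟩, ⟨1, x.re, x.re - 3 * l, x.im⟩, ⟨-1, 0, 3 * l, 0⟩, ⟨-1, 0, -(3 * l), 0⟩,
  ⟨-(κ / 2), 7 / 2 * l, -(7 / 2 * l), 0⟩, ⟨-(κ / 2), 5 / 2 * l, -(5 / 2 * l), 0⟩]

theorem Hleg_eq {κ : ℝ} (hδ : 0 < δ) (hδ1 : δ ≤ l / 2) (hη : ∀ t, |η t| ≤ δ / 2) {z x : ℂ}
    (h0 : -l + δ ≤ z.re) (h1 : z.re ≤ 4 * l - δ) (hx : |x.re| ≤ l - δ) :
    Hleg κ z x η = HS (aleg κ z x) η := by
  have hl := l_pos
  funext a t
  have e1 := (thZ_pA hδ (by linarith) hη h0 h1 t).2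
  have e2 := (rwC_pA hδ (by linarith) hη hx t).2
  have e3 := (rwC_pA hδ (by linarith) hη (x := 0) (by simp; linarith) t).2
  have e4 := (ThN_pA hδ hδ1 hη t).2
  rw [Complex.zero_re, Complex.zero_im, zero_add, zero_sub] at e3
  unfold Hleg HS aleg
  rw [e1, e2, e3, e4]
  simp only [Fin.sum_univ_succ, Matrix.cons_val_zero, Matrix.cons_val_succ, Fin.sum_univ_zero,
    Matrix.cons_val_fin_one]
  ring

lemma aleg_ok {κ : ℝ} (hκ : |κ| ≤ 2) (hδ : 0 < δ) (hδ1 : δ ≤ l / 2) {z x : ℂ}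
    (h0 : -l + δ ≤ z.re) (h1 : z.re ≤ 4 * l - δ) (hx : |x.re| ≤ l - δ) : AtOk 1 δ (aleg κ z x) := by
  have hl := l_pos
  obtain ⟨x1, x2⟩ := abs_le.1 hx
  obtain ⟨k1, k2⟩ := abs_le.1 hκ
  intro a i
  fin_cases i
  all_goals refine ⟨abs_le.2 ⟨?_, ?_⟩, abs_le.2 ⟨?_, ?_⟩, abs_le.2 ⟨?_, ?_⟩⟩
  all_goals simp [aleg]
  all_goals linarith

section
variable [NUSea.Sea]

/-- **the legs and one moved row are admissible**: `-l + δ ≤ Re z ≤ 4 l - δ`, `|Re x| ≤ l - δ`, any heights -/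
theorem hok_legs {δ : ℝ} (hδ : 0 < δ) (hδ1 : δ ≤ l / 2) :
    ∃ B0 N0 : ℝ, 0 ≤ B0 ∧ 0 ≤ N0 ∧ ∀ e1 : ℝ, 0 < e1 → ∃ m0 : ℕ, ∀ m : ℕ, m0 ≤ m →
      ∀ (Cc : ℝ) (η η1 : ℝ → ℝ), CrvP e1 Cc m η η1 → ∀ (κ : ℝ) (z x : ℂ), |κ| ≤ 2 →
      -l + δ ≤ z.re → z.re ≤ 4 * l - δ → |x.re| ≤ l - δ →
      (∀ a t, |η t| ≤ δ / 4 ∧ 0 < PBO.thZ z (pA η t) ∧ 0 < PBO.rwC x (pA η t) ∧
        0 < PBO.rwC 0 (pA η t) ∧ 0 < NUGC.ThN (pA η t) ∧
        PBO.thZ z (pA η t) * PBO.rwC x (pA η t) = PBO.rwC 0 (pA η t) *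
          NUGC.ThN (pA η t) ^ κ * Real.exp (Hleg κ z x η a t)) ∧
      ∃ H' : Bool → ℝ → ℝ, ∀ th b : ℝ, 0 ≤ th →
        HOk B0 N0 th b (Real.log m ^ 3) (Hleg κ z x η) H' := by
  have hl := l_pos
  have h8 := l8
  have hpi := Real.pi_lt_four
  obtain ⟨B0, N0, hB0, hN0, H⟩ := hok 7 (K := 1) (δ := δ) zero_le_one hδ (by linarith)
  refine ⟨B0, N0, hB0, hN0, fun e1 he1 => ?_⟩
  obtain ⟨m0, H⟩ := H e1 he1
  have t1 : Tendsto (fun m : ℕ => (m : ℝ) ^ (-(e1 / 2))) atTop (𝓝 0) :=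
    (tendsto_rpow_neg_atTop (by linarith : 0 < e1 / 2)).comp tendsto_natCast_atTop_atTop
  obtain ⟨m1, hm1⟩ := eventually_atTop.1 (t1.eventually (ge_mem_nhds (by linarith :
    (0 : ℝ) < δ / 4)))
  refine ⟨max m0 m1, fun m hm Cc η η1 hη κ z x hκ h0 h1 hx => ?_⟩
  have hS := sm_of hη (hm1 m ((le_max_right _ _).trans hm))
  have hη2 : ∀ t, |η t| ≤ δ / 2 := fun t => (hS.le t).trans (by linarith)
  refine ⟨fun a t => ⟨hS.le t, ?_⟩, HS' (aleg κ z x) η η1, fun th b hth => ?_⟩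
  · have p1 := (thZ_pA hδ (by linarith) hη2 h0 h1 t).1
    have p2 := (rwC_pA hδ (by linarith) hη2 hx t).1
    have p3 := (rwC_pA hδ (by linarith) hη2 (x := 0) (by simp; linarith) t).1
    have p4 := (ThN_pA hδ hδ1 hη2 t).1
    refine ⟨p1, p2, p3, p4, ?_⟩
    unfold Hleg
    rw [Real.exp_sub, Real.exp_sub, Real.exp_add, Real.exp_log p1, Real.exp_log p2,
      Real.exp_log p3, mul_comm κ, Real.exp_mul, Real.exp_log p4]
    have p5 := Real.rpow_pos_of_pos p4 κ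
    field_simp
  · rw [Hleg_eq hδ hδ1 hη2 h0 h1 hx]
    exact H m ((le_max_left _ _).trans hm) Cc η η1 hη _ (aleg_ok hκ hδ hδ1 h0 h1 hx) th b hth

end

end

end PBH
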