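import Pool.Agent.PB.ValT
import Pool.Agent.PB.HPot

/-!
# Plan B: the potential of class D against the sea at rows `0`

`PBH.Hleg κ z x η a t = log thZ z + log rwC x - log rwC 0 - κ log ThN` on the curve `pA η t`: the one body
factor of the doubly dislocated function (one row moved to `x`) relative to the rows `0` and the ends
`ThN` (`κ = 1`) or no ends (`κ = 0`).

* `exists_HD`: `∫ s P Hleg = s (lE z + mE x - mE 0) - 6 l h(Im z) + 12 κ l h(0) + O(1)`, `h = s P η`;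
* `exists_HDc`: the same for the admissible curves `PotH.CrvP` with a current of slope at most one.
-/

set_option autoImplicit false
set_option linter.unusedSectionVars false

open MeasureTheory Set Filter Topology Complex

namespace PBV

open NUMF (l l_pos)
open NUKer NUAct
open NUGC (ThN)
open PBO (rwC thZ)
open PBH (Hleg)

noncomputable section

/-- powers of the logarithm against `m ^ (- e1 / 2)` -/
lemma log_sq_le {e1 : ℝ} (h1 : 0 < e1) {m : ℕ} (hm : 1 ≤ m) :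
    Real.log m ^ 2 * (m : ℝ) ^ (-(e1 / 2)) ≤ 16 / e1 ^ 2 := by
  have hm0 : (0 : ℝ) < m := by exact_mod_cast hm
  have hm1 : (1 : ℝ) ≤ m := by exact_mod_cast hm
  have h2 := Real.log_le_rpow_div (x := (m : ℝ)) hm0.le (ε := e1 / 4) (by linarith)
  have h3 := Real.log_nonneg hm1
  have h4 : Real.log m ^ 2 ≤ ((m : ℝ) ^ (e1 / 4) / (e1 / 4)) ^ 2 := pow_le_pow_left₀ h3 h2 2
  have h5 : ((m : ℝ) ^ (e1 / 4)) ^ 2 * (m : ℝ) ^ (-(e1 / 2)) = 1 := by
    rw [← Real.rpow_natCast, ← Real.rpow_mul hm0.le, ← Real.rpow_add hm0,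
      show e1 / 4 * ((2 : ℕ) : ℝ) + -(e1 / 2) = 0 by push_cast; ring, Real.rpow_zero]
  have h6 : 0 ≤ (m : ℝ) ^ (-(e1 / 2)) := by positivity
  calc Real.log m ^ 2 * (m : ℝ) ^ (-(e1 / 2))
      ≤ ((m : ℝ) ^ (e1 / 4) / (e1 / 4)) ^ 2 * (m : ℝ) ^ (-(e1 / 2)) :=
        mul_le_mul_of_nonneg_right h4 h6
    _ = (((m : ℝ) ^ (e1 / 4)) ^ 2 * (m : ℝ) ^ (-(e1 / 2))) * (16 / e1 ^ 2) := by
        field_simp
        ring
    _ = 16 / e1 ^ 2 := by rw [h5, one_mul]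

section P0

attribute [local instance] NUSea.seaP

/-- **the potential of class D against the sea, on the curve** -/
theorem exists_HD : ∃ C : ℝ, 1 ≤ C ∧ ∀ {s ε M b : ℝ} {e η η1 : ℝ → ℝ}, 0 ≤ s →
    ε ≤ 1 / 100 → NUSea.Cur s ε M b e η → (∀ t, HasDerivAt η (η1 t) t) → 0 ≤ b →
    (∀ t, |NUSea.hd s η η1 t| ≤ 1) → ∀ (κ : ℝ) (z x : ℂ), |κ| ≤ 2 → -(9 / 10 * l) ≤ z.re →
      z.re ≤ 37 / 10 * l → |x.re| ≤ l / 2 → ∀ a : Bool,
      Integrable (fun t => s * NUMF.P t * Hleg κ z x η a t) ∧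
      |(∫ t, s * NUMF.P t * Hleg κ z x η a t) - (s * (NUMFH.lE z + NUMFH.mE x - NUMFH.mE 0) -
          6 * l * (s * NUMF.P z.im * η z.im) + 12 * κ * l * (s * NUMF.P 0 * η 0))| ≤
        C * (1 + b * (M * ε)) := by
  obtain ⟨C1, hC1, H1⟩ := exists_row
  obtain ⟨C2, hC2, H2⟩ := exists_leg
  obtain ⟨C3, hC3, H3⟩ := exists_th
  refine ⟨2 * C1 + C2 + 2 * C3, by linarith, ?_⟩
  intro s ε M b e η η1 hs hε hcur h1 hb hA κ z x hκ hz1 hz2 hx a
  have hl := l_pos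
  obtain ⟨i1, a1⟩ := H1 hs hε hcur h1 hb hA x hx
  obtain ⟨i0, a0⟩ := H1 hs hε hcur h1 hb hA 0 (by rw [Complex.zero_re, abs_zero]; positivity)
  obtain ⟨i2, a2⟩ := H2 hs hε hcur h1 hb hA z hz1 hz2
  obtain ⟨i3, a3⟩ := H3 hs hε hcur h1 hb hA
  have e1 : (fun t => s * NUMF.P t * Hleg κ z x η a t) = fun t =>
      s * NUMF.P t * Real.log (thZ z (NUO.pA η t)) + s * NUMF.P t * Real.log (rwC x (NUO.pA η t)) -
        s * NUMF.P t * Real.log (rwC 0 (NUO.pA η t)) -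
          κ * (s * NUMF.P t * Real.log (ThN (NUO.pA η t))) := by
    funext t
    unfold PBH.Hleg
    ring
  rw [e1]
  have i3' := i3.const_mul κ
  refine ⟨((i2.add i1).sub i0).sub i3', ?_⟩
  have e2 : ∫ t, (s * NUMF.P t * Real.log (thZ z (NUO.pA η t)) +
      s * NUMF.P t * Real.log (rwC x (NUO.pA η t)) - s * NUMF.P t * Real.log (rwC 0 (NUO.pA η t)) -
        κ * (s * NUMF.P t * Real.log (ThN (NUO.pA η t)))) =
      (∫ t, s * NUMF.P t * Real.log (thZ z (NUO.pA η t))) +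
        (∫ t, s * NUMF.P t * Real.log (rwC x (NUO.pA η t))) -
        (∫ t, s * NUMF.P t * Real.log (rwC 0 (NUO.pA η t))) -
        κ * ∫ t, s * NUMF.P t * Real.log (ThN (NUO.pA η t)) := by
    have f1 := integral_sub ((i2.add i1).sub i0) i3'
    have f2 := integral_sub (i2.add i1) i0
    have f3 := integral_add i2 i1
    simp only [Pi.add_apply, Pi.sub_apply] at f1 f2 f3
    rw [f1, f2, f3, integral_const_mul]
  rw [e2]
  have hM0 := hcur.M0 hs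
  have hε0 := hcur.ε0
  have hN : 0 ≤ 1 + b * (M * ε) := by positivity
  have a3' : |κ * ((∫ t, s * NUMF.P t * Real.log (ThN (NUO.pA η t))) +
      12 * l * (s * NUMF.P 0 * η 0))| ≤ 2 * (C3 * (1 + b * (M * ε))) := by
    rw [abs_mul]
    exact mul_le_mul hκ a3 (abs_nonneg _) (by norm_num)
  rw [abs_le] at a0 a1 a2 a3' ⊢
  constructor <;> nlinarith [a0.1, a0.2, a1.1, a1.2, a2.1, a2.2, a3'.1, a3'.2]

/-- **the same for the admissible curves** -/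
theorem exists_HDc {e1 Cc : ℝ} (he : 0 < e1) (he1 : e1 ≤ 1) (hCc : 0 ≤ Cc) : ∃ C : ℝ, 1 ≤ C ∧
    ∀ (m : ℕ) (η η1 : ℝ → ℝ), 1 ≤ m → PotH.CrvP e1 Cc m η η1 →
    (∀ t, |NUSea.hd m η η1 t| ≤ 1) → ∀ (κ : ℝ) (z x : ℂ), |κ| ≤ 2 → -(9 / 10 * l) ≤ z.re →
      z.re ≤ 37 / 10 * l → |x.re| ≤ l / 2 → ∀ a : Bool,
      Integrable (fun t => (m : ℝ) * NUMF.P t * Hleg κ z x η a t) ∧
      |(∫ t, (m : ℝ) * NUMF.P t * Hleg κ z x η a t) -
        (m * (NUMFH.lE z + NUMFH.mE x - NUMFH.mE 0) -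
          6 * l * (m * NUMF.P z.im * η z.im) + 12 * κ * l * (m * NUMF.P 0 * η 0))| ≤ C := by
  obtain ⟨C, hC, H⟩ := exists_HD
  refine ⟨C * (1 + Cc * (16 / e1 ^ 2)), ?_, ?_⟩
  · have : 0 ≤ Cc * (16 / e1 ^ 2) := by positivity
    nlinarith
  intro m η η1 hm hcv hA κ z x hκ hz1 hz2 hx a
  obtain ⟨ε, e, hcur, hε0, hε1, hε⟩ := hcv.cur
  have hm1 : (1 : ℝ) ≤ m := by exact_mod_cast hm
  have hL0 := Real.log_nonneg hm1
  have hTb : NUO.Tb (Real.log m) = 3 / 8 * Real.log m := rfl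
  have hb : 0 ≤ (1 - e1) * NUO.Tb (Real.log m) := by
    rw [hTb]
    have : 0 ≤ 1 - e1 := by linarith
    positivity
  obtain ⟨i1, a1⟩ := H (by positivity) hε hcur hcv.d hb hA κ z x hκ hz1 hz2 hx a
  refine ⟨i1, a1.trans ?_⟩
  refine mul_le_mul_of_nonneg_left ?_ (by linarith)
  have h3 := log_sq_le he hm
  have h4 : (1 - e1) * NUO.Tb (Real.log m) ≤ Real.log m := by
    rw [hTb]
    nlinarith
  have h5 : (1 - e1) * NUO.Tb (Real.log m) * (Cc * Real.log m * ε) ≤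
      Real.log m * (Cc * Real.log m * (m : ℝ) ^ (-(e1 / 2))) := by
    refine mul_le_mul h4 (mul_le_mul_of_nonneg_left hε1 (by positivity)) (by positivity) hL0
  have h6 : Real.log m * (Cc * Real.log m * (m : ℝ) ^ (-(e1 / 2))) =
      Cc * (Real.log m ^ 2 * (m : ℝ) ^ (-(e1 / 2))) := by ring
  have h7 : Cc * (Real.log m ^ 2 * (m : ℝ) ^ (-(e1 / 2))) ≤ Cc * (16 / e1 ^ 2) :=
    mul_le_mul_of_nonneg_left h3 hCc
  linarith

end P0

end

end PBV
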