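import Pool.Agent.PB.G0
import Pool.Agent.PB.S4R0
import Pool.Agent.PotH.DomR
import Pool.Agent.PotH.CutI
import Pool.Agent.PB.AsmKR
import Pool.Agent.NUM3.Certs4

/-!
# The gas bound for the geometry at rows `0`, ends `0`

* **`gOk_G0`**: the geometry `G0 ex ex0` satisfies `PBO.GOk` (potential `PotH.Hend`, cutoff over the
  rows and `ex`);
* **`s4R_G0 : S4R (G0 ex ex0)`**; `perG_G0`, **`perBd_G0`**: the tilted bounds of the families of groups
  and of all classes, unconditional.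
-/

set_option autoImplicit false
set_option linter.unusedSectionVars false

noncomputable section

open Complex MeasureTheory Set Filter Topology

namespace PBR

open NUO NUP1 NUGC PBX
open PBO (PtZ PtsZ GOk S4R)

attribute [local instance] NUSea.seaP

/-- the mean field value of the sea at rows `0` -/
theorem MF_seaP0 (s : ℝ) : NUSea.MF s = s ^ 2 * PBVR.EMF0 := by
  unfold NUSea.MF PBVR.EMF0
  rw [NUSea.v_seaP, NUSea.P_seaP]

variable {n0 : ℕ} {h0 : ℝ} {ex ex0 : List ℂ}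

/-- **the geometry at rows `0`** -/
theorem gOk_G0 (hh : 0 ≤ h0) (h1 : PtsZ n0 h0 ex) : GOk (G0 ex ex0) where
  nn := G0_nn ex ex0
  pot := by
    obtain ⟨B0, N0, hB0, hN0, H⟩ := PotH.hok_end
    refine ⟨B0, N0, hB0, hN0, ?_⟩
    intro ep hep hep1 e1 he he1 J hJ
    obtain ⟨Cc, hCc, Cb, m1, hcrv⟩ := PBO.crvP_etaC (J := J) he he1 hJ
    obtain ⟨C, hC, hint⟩ := PotH.int_end (e1 := e1) (Cc := Cc) he (by linarith) (by linarith)
    obtain ⟨m2, H⟩ := H e1 he
    refine ⟨2 * C, max m1 m2, fun m hm => ?_⟩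
    obtain ⟨hm1, hT, hc, -⟩ := hcrv m ((le_max_left _ _).trans hm)
    obtain ⟨a1, H', a2⟩ := H m ((le_max_right _ _).trans hm) Cc _ _ hc
    refine ⟨PotH.Hend (etaC e1 J m m), H', fun d hd => a2 d _ hd, fun a t => ?_, ?_⟩
    · obtain ⟨b1, b2, b3, b4⟩ := a1 t
      have hl := NUMF.l_pos
      have e1' : ((G0 ex ex0).B m (4 / 3 * (1 - ep))).R a (pA (etaC e1 J m m) t) =
          2 * Real.cos NUP1.l * PBO.rwC 0 (pA (etaC e1 J m m) t) ^ m *
            PotH.Th0 (pA (etaC e1 J m m) t) := by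
        show 2 * Real.cos l * PBX.rwC 0 (pA (etaC e1 J m m) t) ^ (m - 1 + 1) *
          Th0 (pA (etaC e1 J m m) t) = _
        rw [Nat.sub_add_cancel hm1]
        rfl
      rw [e1', PotH.rwC0_pow (by linarith), b4 a]
      exact le_of_eq (by ring)
    · have c1 := (abs_le.1 (hint m _ _ hm1 hc true)).2
      have c2 := (abs_le.1 (hint m _ _ hm1 hc false)).2
      rw [Fintype.sum_bool]
      linarith
  cut := by
    intro ep hep hep1 e1 he he1 J hJ
    obtain ⟨Cc, hCc, Cb, m1, hcrv⟩ := PBO.crvP_etaC (J := J) he he1 hJ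
    obtain ⟨C0, hC0, m2, hm2, H⟩ := PotH.exists_cutR hep hep1 he he1 Cc (n0 + 1) hh
    refine ⟨C0, hC0, max m1 m2, fun m hm => ?_⟩
    obtain ⟨hm1, hT, hc, -⟩ := hcrv m ((le_max_left _ _).trans hm)
    obtain ⟨Bc, Bc', hB⟩ := H m ((le_max_right _ _).trans hm)
    refine ⟨_, Bc, Bc', hB (m - 1) (List.replicate (m - 1) 0 ++ ex) ex ?_ _ _ hc, fun t => le_rfl⟩
    exact { perm := List.Perm.refl _
            len := h1.len.trans (by omega)
            pt := h1.pt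
            up := by omega
            dn := by omega }
  one := ⟨0, le_rfl, fun ep _ _ e1 _ _ J _ => ⟨0, fun m _ r O i => by
    rw [G0_one, add_zero]⟩⟩
  EM := ⟨0, le_rfl, fun m => by
    rw [MF_seaP0, add_zero]
    exact le_rfl⟩
  MF := ⟨0, le_rfl, fun m g => by
    rw [PB0.seaG_eq0, add_zero]
    exact le_rfl⟩

/-- **the gas in the presence of objects and groups at rows `0`** -/
theorem s4R_G0 (hh : 0 ≤ h0) (h1 : PtsZ n0 h0 ex) : S4R (G0 ex ex0) := PBO.s4R (gOk_G0 hh h1)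

/-- **the tilted bounds for the families of groups at rows `0`** -/
theorem perG_G0 (hh : 0 ≤ h0) (h1 : PtsZ n0 h0 ex) (h2 : PtsZ n0 h0 ex0) :
    ∃ (C c b c1 Ca : ℝ) (k : ℕ), 0 < C ∧ 0 < c ∧ 0 < b ∧ 0 < c1 ∧ 0 ≤ Ca ∧
      PBO.PerGR (G0 ex ex0) C c b k c1 Ca :=
  PBO.perG_ofR (G0_nn ex ex0) Pool.Agent.NUM3.stabProd (s4R_G0 hh h1) (oneR_G0 hh h1 h2)

/-- **the tilted bounds for all classes at rows `0`** -/
theorem perBd_G0 (hh : 0 ≤ h0) (h1 : PtsZ n0 h0 ex) (h2 : PtsZ n0 h0 ex0) :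
    PBO.PerBdR (G0 ex ex0) := by
  obtain ⟨C, c, b, c1, Ca, k, hC, hc, hb, hc1, hCa, h⟩ := perG_G0 hh h1 h2
  exact PBO.perBd_ofR hC hc hb hc1 hCa h

/-- **cutoffs over `±i`** (strings: over the rows only) -/
theorem gOk_GI : GOk (G0 [I, -I] []) :=
  gOk_G0 (n0 := 2) (h0 := 1) zero_le_one (PtsZ.II le_rfl le_rfl)

theorem s4R_GI : S4R (G0 [I, -I] []) := PBO.s4R gOk_GI

theorem perBd_GI : PBO.PerBdR (G0 [I, -I] []) :=
  perBd_G0 (n0 := 2) (h0 := 1) zero_le_one (PtsZ.II le_rfl le_rfl) (PtsZ.nil 2 1)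

end PBR

end
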