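import Pool.Agent.PB.TRMF

/-!
# Plan B, (TR): asymptotics of `log sin`

`AS s z = - s i (z - π / 2) - log 2` (`s = ±1`) is the behaviour of `LSn z` for `s Im z → ∞`:
`‖LSn z - AS s z‖ ≤ C exp (- 2 s Im z)` for all `z` of a closed strip inside `0 < Re z < π`
(`LS_AS`, `cot_AS`).  `Asy K C M f f' p q`: `f` is analytic on the real parts `K`, with derivative
`f'`, `f u = p s * u + q s + O (exp (2 (M - s Im u)))`, the same for `f'`; closed under sums.
-/

set_option autoImplicit false

open MeasureTheory Set Filter Topology Complex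

namespace PBTD

open NUMF Pool.Agent.PB

noncomputable section

/-- behaviour of `LSn` for `s Im z → ∞` -/
def AS (s : ℝ) (z : ℂ) : ℂ := -(s * I * (z - 4 * l)) - (Real.log 2 : ℝ)

lemma eight_l : 8 * l = Real.pi := by unfold l; ring

lemma eight_lC : 8 * (l : ℂ) = Real.pi := by
  have := eight_l
  exact_mod_cast this

/-- a lower bound of `sin` on a strip -/
lemma sin_low {a b : ℝ} (ha : 0 < a) (hb : b < 8 * l) : ∃ c : ℝ, 0 < c ∧ ∀ z : ℂ, a ≤ z.re →
    z.re ≤ b → c * Real.exp |z.im| ≤ ‖Complex.sin z‖ := by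
  have hpi := eight_l
  rcases lt_or_ge b a with hab | hab
  · exact ⟨1, one_pos, fun z h1 h2 => absurd (h1.trans h2) (not_le.2 hab)⟩
  obtain ⟨x0, hx0, hm⟩ := (isCompact_Icc (a := a) (b := b)).exists_isMinOn
    (nonempty_Icc.2 hab) Real.continuous_sin.continuousOn
  have hm0 : 0 < Real.sin x0 := Real.sin_pos_of_pos_of_lt_pi (by linarith [hx0.1])
    (by linarith [hx0.2])
  refine ⟨Real.sin x0 / 2, by positivity, fun z h1 h2 => ?_⟩
  have h4 : Real.sin x0 ≤ Real.sin z.re := hm ⟨h1, h2⟩
  have h5 := Complex.re_le_norm (Complex.sin z)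
  rw [re_sin] at h5
  have h6 : Real.exp |z.im| / 2 ≤ Real.cosh z.im := by
    rw [← Real.cosh_abs, Real.cosh_eq]
    have := Real.exp_pos (-|z.im|)
    linarith
  have h7 : Real.sin x0 * (Real.exp |z.im| / 2) ≤ Real.sin z.re * Real.cosh z.im :=
    mul_le_mul h4 h6 (by positivity) (by linarith)
  calc _ = Real.sin x0 * (Real.exp |z.im| / 2) := by ring
    _ ≤ _ := h7.trans h5

lemma AS_conj (s : ℝ) (z : ℂ) : AS (-s) z = (starRingEnd ℂ) (AS s ((starRingEnd ℂ) z)) := by
  unfold AS
  simp only [map_sub, map_neg, map_mul, Complex.conj_ofReal, Complex.conj_I, Complex.conj_conj,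
    map_ofNat]
  push_cast
  ring

lemma LS_conj {z : ℂ} (h0 : 0 < z.re) (h1 : z.re < 8 * l) :
    LSn ((starRingEnd ℂ) z) = (starRingEnd ℂ) (LSn z) := by
  unfold LSn
  rw [Complex.sin_conj, Complex.log_conj]
  exact (Complex.mem_slitPlane_iff_arg.1 (sin_slit h0 h1)).1

lemma LS_AS_one {a b : ℝ} (ha : 0 < a) (hb : b < 8 * l) : ∃ C : ℝ, 0 ≤ C ∧ ∀ z : ℂ, a ≤ z.re →
    z.re ≤ b → ‖LSn z - AS 1 z‖ ≤ C * Real.exp (-(2 * z.im)) := by
  obtain ⟨C, hC, h⟩ := LS_bound ha hb
  have hl := l_pos
  have hpi := eight_l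
  have hpiC := eight_lC
  have hlog : 0 < Real.log 2 := Real.log_pos (by norm_num)
  have hlog1 : Real.log 2 < 1 := by
    have := Real.log_two_lt_d9
    linarith
  refine ⟨4 + 2 * (C + (8 * l + Real.log 2)), by positivity, fun z h1 h2 => ?_⟩
  have hz0 : 0 < z.re := by linarith
  have hz1 : z.re < 8 * l := by linarith
  rcases le_or_gt (Real.exp (-(2 * z.im))) (1 / 2) with hy | hy
  · have hw : ‖Complex.exp (2 * I * z)‖ = Real.exp (-(2 * z.im)) := by
      rw [Complex.norm_exp]
      congr 1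
      simp
    set w : ℂ := -Complex.exp (2 * I * z) with hwd
    have hwn : ‖w‖ = Real.exp (-(2 * z.im)) := by rw [hwd, norm_neg, hw]
    have hre : 0 < (1 + w).re := by
      have := Complex.re_le_norm (-w)
      rw [norm_neg] at this
      simp only [neg_re, add_re, one_re] at this ⊢
      linarith
    have key : LSn z = AS 1 z + Complex.log (1 + w) := by
      have e1 : Complex.exp (AS 1 z + Complex.log (1 + w)) = Complex.sin z := by
        have hne : 1 + w ≠ 0 := by
          intro h0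
          rw [h0] at hre
          simp at hre
        rw [Complex.exp_add, Complex.exp_log hne]
        unfold AS
        have e2 : -(((1 : ℝ) : ℂ) * I * (z - 4 * l)) - (Real.log 2 : ℝ) =
            (-z * I) + Real.pi / 2 * I - (Real.log 2 : ℝ) := by
          push_cast
          linear_combination (-(I / 2)) * hpiC * (-1)
        rw [e2, Complex.exp_sub, Complex.exp_add, Complex.exp_pi_div_two_mul_I, ← Complex.ofReal_exp,
          Real.exp_log (by norm_num)]
        rw [hwd, Complex.sin]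
        have e3 : Complex.exp (2 * I * z) = Complex.exp (z * I) * Complex.exp (z * I) := by
          rw [← Complex.exp_add]
          congr 1
          ring
        have e4 : Complex.exp (-z * I) * Complex.exp (z * I) = 1 := by
          rw [← Complex.exp_add]
          simp
        rw [e3]
        push_cast
        linear_combination (-(I / 2) * Complex.exp (z * I)) * e4
      have him : (AS 1 z + Complex.log (1 + w)).im = -(z.re - 4 * l) + (1 + w).arg := by
        rw [Complex.add_im, Complex.log_im]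
        congr 1
        unfold AS
        rw [Complex.sub_im, Complex.ofReal_im]
        simp
      have harg := Complex.abs_arg_lt_pi_div_two_iff.2 (Or.inl hre)
      obtain ⟨a1, a2⟩ := abs_lt.1 harg
      unfold LSn
      rw [← e1, Complex.log_exp]
      · rw [him]; linarith
      · rw [him]; linarith
    rw [key, add_sub_cancel_left]
    have h3 := Complex.norm_log_one_add_half_le_self (z := w) (by rw [hwn]; linarith)
    rw [hwn] at h3
    refine h3.trans (mul_le_mul_of_nonneg_right ?_ (Real.exp_pos _).le)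
    linarith
  · set E := Real.exp (-(2 * z.im)) with hE
    have hE0 : 0 < E := Real.exp_pos _
    have h3 := h z h1 h2
    have h4 : ‖AS 1 z‖ ≤ |z.im| + (8 * l + Real.log 2) := by
      unfold AS
      have e1 : ‖z - 4 * (l : ℂ)‖ ≤ |z.im| + 8 * l := by
        have e2 := Complex.norm_le_abs_re_add_abs_im (z - 4 * (l : ℂ))
        have e3 : (z - 4 * (l : ℂ)).re = z.re - 4 * l := by simp
        have e4 : (z - 4 * (l : ℂ)).im = z.im := by simp
        rw [e3, e4] at e2
        have e5 : |z.re - 4 * l| ≤ 8 * l := abs_le.2 ⟨by linarith, by linarith⟩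
        linarith
      calc _ ≤ ‖-(((1 : ℝ) : ℂ) * I * (z - 4 * l))‖ + ‖((Real.log 2 : ℝ) : ℂ)‖ := norm_sub_le _ _
        _ = ‖z - 4 * (l : ℂ)‖ + Real.log 2 := by
          rw [norm_neg, norm_mul, norm_mul, Complex.norm_I, Complex.norm_real, Complex.norm_real,
            Real.norm_of_nonneg hlog.le]
          simp
        _ ≤ _ := by linarith
    have h5 : 2 * |z.im| ≤ 4 * E := by
      rcases le_or_gt 0 z.im with hz | hz
      · rw [abs_of_nonneg hz]
        have : Real.exp (-Real.log 2) < E := by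
          rw [Real.exp_neg, Real.exp_log (by norm_num)]
          linarith
        rw [hE, Real.exp_lt_exp] at this
        linarith
      · rw [abs_of_neg hz]
        have := Real.add_one_le_exp (-(2 * z.im))
        linarith
    calc _ ≤ ‖LSn z‖ + ‖AS 1 z‖ := norm_sub_le _ _
      _ ≤ 2 * |z.im| + (C + (8 * l + Real.log 2)) := by linarith
      _ ≤ 4 * E + (C + (8 * l + Real.log 2)) * (2 * E) := by
        refine add_le_add h5 (le_mul_of_one_le_right (by positivity) (by linarith))
      _ = _ := by ring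

/-- **asymptotics of `LSn`**, both directions -/
lemma LS_AS {a b : ℝ} (ha : 0 < a) (hb : b < 8 * l) : ∃ C : ℝ, 0 ≤ C ∧ ∀ z : ℂ, a ≤ z.re →
    z.re ≤ b → ∀ s : ℝ, (s = 1 ∨ s = -1) → ‖LSn z - AS s z‖ ≤ C * Real.exp (-(2 * (s * z.im))) := by
  obtain ⟨C, hC, h⟩ := LS_AS_one ha hb
  refine ⟨C, hC, fun z h1 h2 s hs => ?_⟩
  rcases hs with rfl | rfl
  · rw [one_mul]
    exact h z h1 h2
  · have h3 := h ((starRingEnd ℂ) z) (by rwa [Complex.conj_re]) (by rwa [Complex.conj_re])
    rw [LS_conj (by linarith) (by linarith)] at h3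
    have e : (starRingEnd ℂ) (LSn z) - AS 1 ((starRingEnd ℂ) z) =
        (starRingEnd ℂ) (LSn z - AS (-1) z) := by
      rw [AS_conj, map_sub, Complex.conj_conj]
    rw [e, Complex.norm_conj, Complex.conj_im] at h3
    simpa using h3

/-- the derivative of `LSn` -/
def ct (z : ℂ) : ℂ := Complex.cos z / Complex.sin z

lemma hasDerivAt_LSct {z : ℂ} (h0 : 0 < z.re) (h1 : z.re < 8 * l) : HasDerivAt LSn (ct z) z :=
  hasDerivAt_LS h0 h1

/-- **asymptotics of `cot`**, and boundedness -/
lemma ct_AS {a b : ℝ} (ha : 0 < a) (hb : b < 8 * l) : ∃ C : ℝ, 0 ≤ C ∧ ∀ z : ℂ, a ≤ z.re →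
    z.re ≤ b → ‖ct z‖ ≤ C ∧ ∀ s : ℝ, (s = 1 ∨ s = -1) →
      ‖ct z + s * I‖ ≤ C * Real.exp (-(2 * (s * z.im))) := by
  obtain ⟨c, hc, h⟩ := sin_low ha hb
  refine ⟨1 / c, by positivity, fun z h1 h2 => ?_⟩
  have h3 := h z h1 h2
  have hs0 : 0 < ‖Complex.sin z‖ := lt_of_lt_of_le (by positivity) h3
  have hs1 : Complex.sin z ≠ 0 := norm_pos_iff.1 hs0
  have hcos : ‖Complex.cos z‖ ≤ Real.exp |z.im| := by
    have := norm_sin_le_exp (z + Real.pi / 2)
    rw [Complex.sin_add_pi_div_two] at this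
    have e : (z + Real.pi / 2 : ℂ).im = z.im := by
      rw [Complex.add_im, show (Real.pi / 2 : ℂ) = ((Real.pi / 2 : ℝ) : ℂ) by push_cast; ring,
        Complex.ofReal_im, add_zero]
    rwa [e] at this
  constructor
  · unfold ct
    rw [norm_div, div_le_iff₀ hs0]
    calc _ ≤ Real.exp |z.im| := hcos
      _ = 1 / c * (c * Real.exp |z.im|) := by field_simp
      _ ≤ _ := mul_le_mul_of_nonneg_left h3 (by positivity)
  · intro s hs
    have e1 : ct z + s * I = Complex.exp (s * I * z) / Complex.sin z := by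
      unfold ct
      rw [div_add' _ _ _ hs1]
      congr 1
      rcases hs with rfl | rfl
      · have := Complex.cos_add_sin_I z
        push_cast
        rw [show (1 : ℂ) * I * z = z * I by ring, ← this]
        ring
      · have := Complex.cos_sub_sin_I z
        push_cast
        rw [show (-1 : ℂ) * I * z = -z * I by ring, ← this]
        ring
    rw [e1, norm_div, Complex.norm_exp, div_le_iff₀ hs0]
    have e2 : ((s : ℂ) * I * z).re = -(s * z.im) := by simp
    rw [e2]
    have h4 : -(s * z.im) ≤ -(2 * (s * z.im)) + |z.im| := by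
      have : s * z.im ≤ |z.im| := by
        rcases hs with rfl | rfl
        · rw [one_mul]; exact le_abs_self _
        · rw [neg_one_mul]; exact neg_le_abs _
      linarith
    calc _ ≤ Real.exp (-(2 * (s * z.im)) + |z.im|) := Real.exp_le_exp.2 h4
      _ = 1 / c * Real.exp (-(2 * (s * z.im))) * (c * Real.exp |z.im|) := by
        rw [Real.exp_add]
        field_simp
      _ ≤ _ := mul_le_mul_of_nonneg_left h3 (by positivity)

/-! ### a calculus of asymptotics -/

/-- `f` is analytic on the real parts `K` with derivative `f'`, with asymptotics `p s * u + q s` for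
`s Im u → ∞` -/
structure Asy (K : Set ℝ) (C M : ℝ) (f f' : ℂ → ℂ) (p q : ℝ → ℂ) : Prop where
  der : ∀ u : ℂ, u.re ∈ K → HasDerivAt f (f' u) u
  as0 : ∀ u : ℂ, u.re ∈ K → ∀ s : ℝ, (s = 1 ∨ s = -1) →
    ‖f u - (p s * u + q s)‖ ≤ C * Real.exp (2 * (M - s * u.im))
  as1 : ∀ u : ℂ, u.re ∈ K → ∀ s : ℝ, (s = 1 ∨ s = -1) →
    ‖f' u - p s‖ ≤ C * Real.exp (2 * (M - s * u.im))
  bd : ∀ u : ℂ, u.re ∈ K → ‖f' u‖ ≤ C

lemma Asy.add {K : Set ℝ} {C C' M : ℝ} {f f' g g' : ℂ → ℂ} {p q p' q' : ℝ → ℂ}
    (h : Asy K C M f f' p q) (h' : Asy K C' M g g' p' q') :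
    Asy K (C + C') M (fun u => f u + g u) (fun u => f' u + g' u) (fun s => p s + p' s)
      (fun s => q s + q' s) where
  der u hu := (h.der u hu).add (h'.der u hu)
  as0 u hu s hs := by
    have h1 := h.as0 u hu s hs
    have h2 := h'.as0 u hu s hs
    rw [add_mul C C']
    refine le_trans (le_of_eq ?_) ((norm_add_le _ _).trans (add_le_add h1 h2))
    congr 1
    ring
  as1 u hu s hs := by
    have h1 := h.as1 u hu s hs
    have h2 := h'.as1 u hu s hs
    rw [add_mul C C']
    refine le_trans (le_of_eq ?_) ((norm_add_le _ _).trans (add_le_add h1 h2))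
    congr 1
    ring
  bd u hu := (norm_add_le _ _).trans (add_le_add (h.bd u hu) (h'.bd u hu))

lemma Asy.neg {K : Set ℝ} {C M : ℝ} {f f' : ℂ → ℂ} {p q : ℝ → ℂ} (h : Asy K C M f f' p q) :
    Asy K C M (fun u => -f u) (fun u => -f' u) (fun s => -p s) (fun s => -q s) where
  der u hu := (h.der u hu).neg
  as0 u hu s hs := by
    refine le_trans (le_of_eq ?_) (h.as0 u hu s hs)
    rw [← norm_neg]
    congr 1
    ring
  as1 u hu s hs := by
    refine le_trans (le_of_eq ?_) (h.as1 u hu s hs)
    rw [← norm_neg]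
    congr 1
    ring
  bd u hu := by rw [norm_neg]; exact h.bd u hu

lemma Asy.sub {K : Set ℝ} {C C' M : ℝ} {f f' g g' : ℂ → ℂ} {p q p' q' : ℝ → ℂ}
    (h : Asy K C M f f' p q) (h' : Asy K C' M g g' p' q') :
    Asy K (C + C') M (fun u => f u - g u) (fun u => f' u - g' u) (fun s => p s - p' s)
      (fun s => q s - q' s) := by
  simpa only [sub_eq_add_neg] using h.add h'.neg

lemma Asy.congr {K : Set ℝ} {C M : ℝ} {f f' g g' : ℂ → ℂ} {p q p' q' : ℝ → ℂ}
    (h : Asy K C M f f' p q) (h1 : ∀ u, f u = g u) (h2 : ∀ u, f' u = g' u)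
    (h3 : ∀ s, (s = 1 ∨ s = -1) → p s = p' s) (h4 : ∀ s, (s = 1 ∨ s = -1) → q s = q' s) :
    Asy K C M g g' p' q' := by
  obtain rfl : f = g := funext h1
  obtain rfl : f' = g' := funext h2
  exact ⟨h.der, fun u hu s hs => by rw [← h3 s hs, ← h4 s hs]; exact h.as0 u hu s hs,
    fun u hu s hs => by rw [← h3 s hs]; exact h.as1 u hu s hs, h.bd⟩

lemma Asy.mono {K : Set ℝ} {C C' M : ℝ} {f f' : ℂ → ℂ} {p q : ℝ → ℂ} (h : Asy K C M f f' p q)
    (hC : C ≤ C') : Asy K C' M f f' p q where
  der := h.der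
  as0 u hu s hs := (h.as0 u hu s hs).trans (mul_le_mul_of_nonneg_right hC (Real.exp_pos _).le)
  as1 u hu s hs := (h.as1 u hu s hs).trans (mul_le_mul_of_nonneg_right hC (Real.exp_pos _).le)
  bd u hu := (h.bd u hu).trans hC

lemma Asy.sub_set {K K' : Set ℝ} {C M : ℝ} {f f' : ℂ → ℂ} {p q : ℝ → ℂ} (h : Asy K' C M f f' p q)
    (hK : K ⊆ K') : Asy K C M f f' p q :=
  ⟨fun u hu => h.der u (hK hu), fun u hu => h.as0 u (hK hu), fun u hu => h.as1 u (hK hu),
    fun u hu => h.bd u (hK hu)⟩

lemma Asy.shift {K K' : Set ℝ} {C M : ℝ} {f f' : ℂ → ℂ} {p q : ℝ → ℂ} (h : Asy K' C M f f' p q)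
    (a : ℝ) (hK : ∀ x ∈ K, x + a ∈ K') :
    Asy K C M (fun u => f (u + a)) (fun u => f' (u + a)) p (fun s => q s + p s * a) where
  der u hu := by
    have := (h.der (u + a) (by simpa using hK _ hu)).comp_add_const u (a : ℂ)
    exact this
  as0 u hu s hs := by
    have := h.as0 (u + a) (by simpa using hK _ hu) s hs
    rw [show (u + (a : ℂ)).im = u.im by simp] at this
    refine le_trans (le_of_eq ?_) this
    congr 1
    ring
  as1 u hu s hs := by
    have := h.as1 (u + a) (by simpa using hK _ hu) s hs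
    rwa [show (u + (a : ℂ)).im = u.im by simp] at this
  bd u hu := h.bd _ (by simpa using hK _ hu)

/-- the two elementary functions: `u ↦ LSn (c + u)`, `u ↦ LSn (c - u)` -/
theorem Asy_LS {a b : ℝ} (ha : 0 < a) (hb : b < 8 * l) : ∃ C : ℝ, 0 ≤ C ∧
    ∀ (K : Set ℝ) (c : ℂ) (M : ℝ), |c.im| ≤ M →
      ((∀ x ∈ K, a ≤ c.re + x ∧ c.re + x ≤ b) →
        Asy K C M (fun u => LSn (c + u)) (fun u => ct (c + u)) (fun s => -(s * I))
          (fun s => -(s * I * (c - 4 * l)) - (Real.log 2 : ℝ))) ∧
      ((∀ x ∈ K, a ≤ c.re - x ∧ c.re - x ≤ b) →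
        Asy K C M (fun u => LSn (c - u)) (fun u => -ct (c - u)) (fun s => -(s * I))
          (fun s => s * I * (c - 4 * l) - (Real.log 2 : ℝ))) := by
  obtain ⟨C1, hC1, h1⟩ := LS_AS ha hb
  obtain ⟨C2, hC2, h2⟩ := ct_AS ha hb
  refine ⟨max C1 C2, le_max_of_le_left hC1, fun K c M hM => ⟨fun hK => ?_, fun hK => ?_⟩⟩
  · have r (u : ℂ) (hu : u.re ∈ K) : a ≤ (c + u).re ∧ (c + u).re ≤ b := by
      rw [add_re]; exact hK _ hu
    have ex (u : ℂ) (s : ℝ) (hs : s = 1 ∨ s = -1) :
        Real.exp (-(2 * (s * (c + u).im))) ≤ Real.exp (2 * (M - s * u.im)) := by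
      refine Real.exp_le_exp.2 ?_
      rw [add_im]
      have := abs_le.1 hM
      rcases hs with rfl | rfl <;> linarith
    constructor
    · intro u hu
      obtain ⟨r1, r2⟩ := r u hu
      have := (hasDerivAt_LSct (z := c + u) (by linarith) (by linarith)).comp_const_add c u
      exact this
    · intro u hu s hs
      obtain ⟨r1, r2⟩ := r u hu
      have h3 := h1 (c + u) r1 r2 s hs
      have e : LSn (c + u) - (-(s * I) * u + (-(s * I * (c - 4 * l)) - (Real.log 2 : ℝ))) =
          LSn (c + u) - AS s (c + u) := by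
        unfold AS
        ring
      rw [e]
      exact h3.trans (mul_le_mul (le_max_left _ _) (ex u s hs) (Real.exp_pos _).le
        (le_max_of_le_left hC1))
    · intro u hu s hs
      obtain ⟨r1, r2⟩ := r u hu
      have h3 := (h2 (c + u) r1 r2).2 s hs
      rw [sub_neg_eq_add]
      exact h3.trans (mul_le_mul (le_max_right _ _) (ex u s hs) (Real.exp_pos _).le
        (le_max_of_le_left hC1))
    · intro u hu
      obtain ⟨r1, r2⟩ := r u hu
      exact (h2 (c + u) r1 r2).1.trans (le_max_right _ _)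
  · have r (u : ℂ) (hu : u.re ∈ K) : a ≤ (c - u).re ∧ (c - u).re ≤ b := by
      rw [sub_re]; exact hK _ hu
    have ns (s : ℝ) (hs : s = 1 ∨ s = -1) : -s = 1 ∨ -s = -1 := by
      rcases hs with rfl | rfl
      · right; rfl
      · left; norm_num
    have ex (u : ℂ) (s : ℝ) (hs : s = 1 ∨ s = -1) :
        Real.exp (-(2 * (-s * (c - u).im))) ≤ Real.exp (2 * (M - s * u.im)) := by
      refine Real.exp_le_exp.2 ?_
      rw [sub_im]
      have := abs_le.1 hM
      rcases hs with rfl | rfl <;> linarith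
    constructor
    · intro u hu
      obtain ⟨r1, r2⟩ := r u hu
      have := (hasDerivAt_LSct (z := c - u) (by linarith) (by linarith)).comp u
        ((hasDerivAt_id u).const_sub c)
      simp only [mul_neg, mul_one] at this
      exact this
    · intro u hu s hs
      obtain ⟨r1, r2⟩ := r u hu
      have h3 := h1 (c - u) r1 r2 (-s) (ns s hs)
      have e : LSn (c - u) - (-(s * I) * u + (s * I * (c - 4 * l) - (Real.log 2 : ℝ))) =
          LSn (c - u) - AS (-s) (c - u) := by
        unfold AS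
        push_cast
        ring
      rw [e]
      exact h3.trans (mul_le_mul (le_max_left _ _) (ex u s hs) (Real.exp_pos _).le
        (le_max_of_le_left hC1))
    · intro u hu s hs
      obtain ⟨r1, r2⟩ := r u hu
      have h3 := (h2 (c - u) r1 r2).2 (-s) (ns s hs)
      have e : -ct (c - u) - -(s * I) = -(ct (c - u) + ((-s : ℝ) : ℂ) * I) := by
        push_cast
        ring
      rw [e, norm_neg]
      exact h3.trans (mul_le_mul (le_max_right _ _) (ex u s hs) (Real.exp_pos _).le
        (le_max_of_le_left hC1))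
    · intro u hu
      obtain ⟨r1, r2⟩ := r u hu
      rw [norm_neg]
      exact (h2 (c - u) r1 r2).1.trans (le_max_right _ _)

end

end PBTD
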