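import Pool.Agent.NUP.MF.Dens

/-!
# TR3: bounds of sums of `tan` and of `log cos` on horizontal lines

`TT κ c a t = (κ / π) ∑ c j tan (κ (a j + i t))`, `BB κ c a t = (i / π) ∑ c j log cos (κ (a j + i t))`.

* `BB_deriv : BB' = TT`;
* `TT_le` (`∑ c = 0`), `BB_le` (`∑ c = 0`, `∑ c a = 0`): `≤ C e^{2 κ (M - |Re t|)}`;
* `TT_int`, `BB_int`, `BB_int'`: integrability on the real line.
-/

set_option autoImplicit false

noncomputable section

open Complex MeasureTheory Filter Topology Set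

namespace PBT3

variable {ι : Type*} [Fintype ι]

/-- `(κ / π) ∑ c j tan (κ (a j + i t))` -/
def TT (κ : ℝ) (c a : ι → ℂ) (t : ℂ) : ℂ := ((κ : ℂ) / Real.pi) * ∑ j, c j * tan (κ * (a j + I * t))

/-- `(i / π) ∑ c j log cos (κ (a j + i t))` -/
def BB (κ : ℝ) (c a : ι → ℂ) (t : ℂ) : ℂ := (I / Real.pi) * ∑ j, c j * log (cos (κ * (a j + I * t)))

/-! ### one term -/

lemma cos_re (v : ℂ) : (cos v).re = Real.cos v.re * Real.cosh v.im := by
  conv_lhs => rw [← re_add_im v]
  rw [cos_add_mul_I, ← ofReal_cos, ← ofReal_cosh, ← ofReal_sin, ← ofReal_sinh, sub_re, ← ofReal_mul,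
    ofReal_re, ← ofReal_mul, re_ofReal_mul, I_re]
  ring

lemma cos_re_pos {v : ℂ} (h : |v.re| < Real.pi / 2) : 0 < (cos v).re := by
  obtain ⟨h1, h2⟩ := abs_lt.1 h
  rw [cos_re]
  exact mul_pos (Real.cos_pos_of_mem_Ioo ⟨by linarith, by linarith⟩) (Real.cosh_pos _)

lemma cos_ne {v : ℂ} (h : |v.re| < Real.pi / 2) : cos v ≠ 0 := by
  intro h0
  have := cos_re_pos h
  rw [h0] at this
  simp at this

lemma cos_slit {v : ℂ} (h : |v.re| < Real.pi / 2) : cos v ∈ slitPlane := Or.inl (cos_re_pos h)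

lemma norm_cos_ge {v : ℂ} {b : ℝ} (h : |v.re| ≤ b) (hb : b < Real.pi / 2) :
    Real.cos b / 2 * Real.exp |v.im| ≤ ‖cos v‖ := by
  have hp := Real.pi_pos
  have h1 : |(cos v).re| ≤ ‖cos v‖ := abs_re_le_norm _
  have e := cos_re v
  have hc : Real.cos b ≤ Real.cos v.re := by
    rw [← Real.cos_abs v.re]
    exact Real.cos_le_cos_of_nonneg_of_le_pi (abs_nonneg _) (by linarith) h
  have hb0 : 0 ≤ b := (abs_nonneg _).trans h
  have hcb : 0 < Real.cos b := Real.cos_pos_of_mem_Ioo ⟨by linarith, hb⟩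
  have hch : Real.exp |v.im| / 2 ≤ Real.cosh v.im := by
    rw [← Real.cosh_abs, Real.cosh_eq]
    have := Real.exp_pos (-|v.im|)
    linarith
  calc Real.cos b / 2 * Real.exp |v.im| = Real.cos b * (Real.exp |v.im| / 2) := by ring
    _ ≤ Real.cos v.re * Real.cosh v.im := mul_le_mul hc hch (by positivity) (by linarith)
    _ = (cos v).re := e.symm
    _ ≤ _ := (le_abs_self _).trans h1

/-- `|tan v - i| ≤ (2 / cos b) e^{-2 Im v}` -/
lemma tan_sub_I {v : ℂ} {b : ℝ} (h : |v.re| ≤ b) (hb : b < Real.pi / 2) :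
    ‖tan v - I‖ ≤ 2 / Real.cos b * Real.exp (-2 * v.im) := by
  have hb0 : 0 ≤ b := (abs_nonneg _).trans h
  have hcb : 0 < Real.cos b := Real.cos_pos_of_mem_Ioo ⟨by linarith [Real.pi_pos], hb⟩
  have hc := cos_ne (lt_of_le_of_lt h hb)
  have e : tan v - I = -I * exp (v * I) / cos v := by
    rw [tan_eq_sin_div_cos, exp_mul_I]
    field_simp
    linear_combination (sin v) * I_sq
  have hn : ‖exp (v * I)‖ = Real.exp (-v.im) := by
    rw [norm_exp]
    simp
  rw [e, norm_div, norm_mul, norm_neg, norm_I, one_mul, hn, div_le_iff₀ (norm_pos_iff.2 hc)]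
  have h1 := norm_cos_ge h hb
  calc Real.exp (-v.im) ≤ Real.exp (-2 * v.im) * Real.exp |v.im| := by
        rw [← Real.exp_add]
        exact Real.exp_le_exp.2 (by linarith [le_abs_self v.im])
    _ = 2 / Real.cos b * Real.exp (-2 * v.im) * (Real.cos b / 2 * Real.exp |v.im|) := by
        field_simp
    _ ≤ _ := by gcongr

/-- `|tan v + i| ≤ (2 / cos b) e^{2 Im v}` -/
lemma tan_add_I {v : ℂ} {b : ℝ} (h : |v.re| ≤ b) (hb : b < Real.pi / 2) :
    ‖tan v + I‖ ≤ 2 / Real.cos b * Real.exp (2 * v.im) := by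
  have h1 := tan_sub_I (v := -v) (by rwa [neg_re, abs_neg]) hb
  rw [tan_neg, neg_im] at h1
  rw [← norm_neg, neg_add]
  refine h1.trans (le_of_eq ?_)
  congr 2
  ring

/-- `log cos v + i v + log 2` is `log (1 + e^{2 i v})` -/
lemma lc_eq {v : ℂ} (h : |v.re| < Real.pi / 2) :
    log (cos v) + I * v + Real.log 2 = log (1 + exp (2 * (I * v))) := by
  have hc := cos_ne h
  have he : exp (log (cos v) + I * v + Real.log 2) = 1 + exp (2 * (I * v)) := by
    rw [exp_add, exp_add, exp_log hc, ← ofReal_exp, Real.exp_log two_pos, Complex.cos,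
      show 2 * (I * v) = v * I + v * I by ring, exp_add, show I * v = v * I by ring,
      show -v * I = -(v * I) by ring]
    have : exp (v * I) * exp (-(v * I)) = 1 := by rw [← exp_add, add_neg_cancel, exp_zero]
    push_cast
    linear_combination this
  rw [← he, log_exp]
  · have h1 := arg_mem_Ioc (cos v)
    have h2 : |arg (cos v)| < Real.pi / 2 := abs_arg_lt_pi_div_two_iff.2 (Or.inl (cos_re_pos h))
    obtain ⟨a1, a2⟩ := abs_lt.1 h
    obtain ⟨b1, b2⟩ := abs_lt.1 h2
    have : (log (cos v) + I * v + Real.log 2).im = arg (cos v) + v.re := by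
      rw [add_im, add_im, log_im, ofReal_im, I_mul_im, add_zero]
    rw [this]
    linarith
  · have h2 : |arg (cos v)| < Real.pi / 2 := abs_arg_lt_pi_div_two_iff.2 (Or.inl (cos_re_pos h))
    obtain ⟨a1, a2⟩ := abs_lt.1 h
    obtain ⟨b1, b2⟩ := abs_lt.1 h2
    have : (log (cos v) + I * v + Real.log 2).im = arg (cos v) + v.re := by
      rw [add_im, add_im, log_im, ofReal_im, I_mul_im, add_zero]
    rw [this]
    linarith

lemma hasDerivAt_lc {v : ℂ} (h : |v.re| < Real.pi / 2) :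
    HasDerivAt (fun v => log (cos v)) (-tan v) v := by
  have h1 := (Complex.hasDerivAt_cos v).clog (cos_slit h)
  rwa [tan_eq_sin_div_cos, ← neg_div]

/-- **`|log cos v + i v + log 2| ≤ e^{-2 Im v} / cos b`** -/
lemma lc_le {v : ℂ} {b : ℝ} (h : |v.re| ≤ b) (hb : b < Real.pi / 2) :
    ‖log (cos v) + I * v + Real.log 2‖ ≤ 1 / Real.cos b * Real.exp (-2 * v.im) := by
  have hb0 : 0 ≤ b := (abs_nonneg _).trans h
  have hcb : 0 < Real.cos b := Real.cos_pos_of_mem_Ioo ⟨by linarith [Real.pi_pos], hb⟩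
  set f : ℝ → ℂ := fun y => log (cos (v.re + y * I)) + I * (v.re + y * I) + Real.log 2 with hf
  have hre : ∀ y : ℝ, ((v.re : ℂ) + y * I).re = v.re := fun y => by simp
  have him : ∀ y : ℝ, ((v.re : ℂ) + y * I).im = y := fun y => by simp
  have hlt : ∀ y : ℝ, |((v.re : ℂ) + y * I).re| < Real.pi / 2 := fun y => by
    rw [hre]; exact lt_of_le_of_lt h hb
  have hd : ∀ y : ℝ, HasDerivAt f ((-tan (v.re + y * I) + I) * I) y := by
    intro y
    have h1 : HasDerivAt (fun y : ℝ => ((v.re : ℂ) + y * I)) I y := by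
      have := ((hasDerivAt_id (y : ℂ)).comp_ofReal.mul_const I).const_add (v.re : ℂ)
      simpa using this
    have h2 := (hasDerivAt_lc (hlt y)).comp y h1
    have h3 := h1.const_mul I
    have h4 := (h2.add h3).add_const (Real.log 2 : ℂ)
    refine h4.congr_deriv ?_
    ring
  have hcont : Continuous fun y : ℝ => (-tan ((v.re : ℂ) + y * I) + I) * I := by
    have : Continuous fun y : ℝ => tan ((v.re : ℂ) + y * I) := by
      rw [continuous_iff_continuousAt]
      intro y
      have h1 : ContinuousAt tan ((v.re : ℂ) + y * I) := continuousAt_tan.2 (cos_ne (hlt y))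
      exact ContinuousAt.comp (f := fun y : ℝ => ((v.re : ℂ) + y * I)) h1 (by fun_prop)
    fun_prop
  have hbd : ∀ y : ℝ, ‖(-tan ((v.re : ℂ) + y * I) + I) * I‖ ≤ 2 / Real.cos b * Real.exp (-2 * y) := by
    intro y
    rw [norm_mul, norm_I, mul_one, ← norm_neg]
    have := tan_sub_I (v := (v.re : ℂ) + y * I) (b := b) (by rw [hre]; exact h) hb
    rw [him] at this
    rwa [show -(-tan ((v.re : ℂ) + y * I) + I) = tan ((v.re : ℂ) + y * I) - I by ring]
  have hexp : IntegrableOn (fun y : ℝ => 2 / Real.cos b * Real.exp (-2 * y)) (Ioi v.im) :=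
    (integrableOn_exp_mul_Ioi (by norm_num) _).const_mul _
  have hint : IntegrableOn (fun y : ℝ => (-tan ((v.re : ℂ) + y * I) + I) * I) (Ioi v.im) :=
    Integrable.mono' hexp hcont.aestronglyMeasurable (Eventually.of_forall hbd)
  have hlim : Tendsto f atTop (𝓝 0) := by
    have e1 : f = fun y : ℝ => log (1 + exp (2 * (I * (v.re + y * I)))) := by
      funext y
      exact lc_eq (hlt y)
    rw [e1]
    have e2 : Tendsto (fun y : ℝ => exp (2 * (I * ((v.re : ℂ) + y * I)))) atTop (𝓝 0) := by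
      rw [tendsto_zero_iff_norm_tendsto_zero]
      have e3 : (fun y : ℝ => ‖exp (2 * (I * ((v.re : ℂ) + y * I)))‖) = fun y => Real.exp (-2 * y) := by
        funext y
        rw [norm_exp]
        congr 1
        simp
      rw [e3]
      exact Real.tendsto_exp_atBot.comp (tendsto_id.const_mul_atTop_of_neg (by norm_num))
    have e3 : Tendsto (fun y : ℝ => 1 + exp (2 * (I * ((v.re : ℂ) + y * I)))) atTop (𝓝 (1 + 0)) :=
      tendsto_const_nhds.add e2
    rw [add_zero] at e3
    have e4 := (continuousAt_clog (x := 1) (by simp)).tendsto.comp e3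
    rwa [log_one] at e4
  have hmain := integral_Ioi_of_hasDerivAt_of_tendsto' (a := v.im) (fun y _ => hd y) hint hlim
  have hv : f v.im = log (cos v) + I * v + Real.log 2 := by
    simp only [hf, re_add_im]
  have h5 : ‖f v.im‖ ≤ ∫ y in Ioi v.im, 2 / Real.cos b * Real.exp (-2 * y) := by
    rw [← norm_neg, ← zero_sub, ← hmain]
    exact norm_integral_le_of_norm_le hexp (Eventually.of_forall hbd)
  rw [← hv]
  refine h5.trans (le_of_eq ?_)
  rw [integral_const_mul, integral_exp_mul_Ioi (by norm_num)]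
  ring

/-- `|log cos v - i v + log 2| ≤ e^{2 Im v} / cos b` -/
lemma lc_le' {v : ℂ} {b : ℝ} (h : |v.re| ≤ b) (hb : b < Real.pi / 2) :
    ‖log (cos v) - I * v + Real.log 2‖ ≤ 1 / Real.cos b * Real.exp (2 * v.im) := by
  have h1 := lc_le (v := -v) (by rwa [neg_re, abs_neg]) hb
  rw [cos_neg, neg_im, mul_neg, ← sub_eq_add_neg] at h1
  refine h1.trans (le_of_eq ?_)
  congr 2
  ring

/-! ### sums -/

section

variable {κ : ℝ} {c a : ι → ℂ} {t : ℂ} {b M : ℝ}

lemma arg_re (κ : ℝ) (a t : ℂ) : ((κ : ℂ) * (a + I * t)).re = κ * (a.re - t.im) := by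
  rw [re_ofReal_mul, add_re, I_mul_re]
  ring

lemma arg_im (κ : ℝ) (a t : ℂ) : ((κ : ℂ) * (a + I * t)).im = κ * (a.im + t.re) := by
  rw [im_ofReal_mul, add_im, I_mul_im]

/-- **`BB' = TT`** -/
theorem BB_deriv (h : ∀ j, |κ * ((a j).re - t.im)| < Real.pi / 2) :
    HasDerivAt (BB κ c a) (TT κ c a t) t := by
  have h1 : ∀ j, HasDerivAt (fun t : ℂ => log (cos (κ * (a j + I * t))))
      (-tan (κ * (a j + I * t)) * (κ * I)) t := by
    intro j
    have h2 : HasDerivAt (fun t : ℂ => (κ : ℂ) * (a j + I * t)) (κ * I) t := by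
      have := (((hasDerivAt_id t).const_mul I).const_add (a j)).const_mul (κ : ℂ)
      simpa using this
    exact (hasDerivAt_lc (by rw [arg_re]; exact h j)).comp t h2
  have h3 := (HasDerivAt.fun_sum (u := Finset.univ) fun j _ => (h1 j).const_mul (c j)).const_mul
    (I / (Real.pi : ℂ))
  refine h3.congr_deriv ?_
  unfold TT
  rw [Finset.mul_sum, Finset.mul_sum]
  refine Finset.sum_congr rfl fun j _ => ?_
  linear_combination (-(κ : ℂ) / Real.pi * c j * tan (κ * (a j + I * t))) * I_sq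

theorem TT_le (hκ : 0 ≤ κ) (h0 : ∑ j, c j = 0) (hb : b < Real.pi / 2)
    (h : ∀ j, |κ * ((a j).re - t.im)| ≤ b) (hM : ∀ j, |(a j).im| ≤ M) :
    ‖TT κ c a t‖ ≤ 2 * κ / Real.pi * ((∑ j, ‖c j‖) / Real.cos b) * Real.exp (2 * κ * (M - |t.re|)) := by
  have hp := Real.pi_pos
  rcases isEmpty_or_nonempty ι with hι | ⟨⟨j0⟩⟩
  · unfold TT
    simp
  have hb0 : 0 ≤ b := (abs_nonneg _).trans (h j0)
  have hcb : 0 < Real.cos b := Real.cos_pos_of_mem_Ioo ⟨by linarith [Real.pi_pos], hb⟩
  have key : ∃ e : ℂ, ∀ j, ‖tan (κ * (a j + I * t)) - e‖ ≤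
      2 / Real.cos b * Real.exp (2 * κ * (M - |t.re|)) := by
    rcases le_total 0 t.re with ht | ht
    · refine ⟨I, fun j => ?_⟩
      refine (tan_sub_I (by rw [arg_re]; exact h j) hb).trans ?_
      rw [arg_im]
      refine mul_le_mul_of_nonneg_left (Real.exp_le_exp.2 ?_) (by positivity)
      rw [abs_of_nonneg ht]
      have := neg_abs_le (a j).im
      nlinarith [hM j]
    · refine ⟨-I, fun j => ?_⟩
      rw [sub_neg_eq_add]
      refine (tan_add_I (by rw [arg_re]; exact h j) hb).trans ?_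
      rw [arg_im]
      refine mul_le_mul_of_nonneg_left (Real.exp_le_exp.2 ?_) (by positivity)
      rw [abs_of_nonpos ht]
      have := le_abs_self (a j).im
      nlinarith [hM j]
  obtain ⟨e, he⟩ := key
  have e1 : ∑ j, c j * tan (κ * (a j + I * t)) = ∑ j, c j * (tan (κ * (a j + I * t)) - e) := by
    simp only [mul_sub, Finset.sum_sub_distrib, ← Finset.sum_mul, h0]
    ring
  have e2 : ‖((κ : ℂ) / Real.pi)‖ = κ / Real.pi := by
    rw [norm_div, norm_real, norm_real, Real.norm_eq_abs, Real.norm_eq_abs, abs_of_nonneg hκ,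
      abs_of_pos hp]
  unfold TT
  rw [norm_mul, e2, e1]
  have e3 : ‖∑ j, c j * (tan (κ * (a j + I * t)) - e)‖ ≤
      ∑ j, ‖c j‖ * (2 / Real.cos b * Real.exp (2 * κ * (M - |t.re|))) := by
    refine norm_sum_le_of_le _ fun j _ => ?_
    rw [norm_mul]
    exact mul_le_mul_of_nonneg_left (he j) (norm_nonneg _)
  rw [← Finset.sum_mul] at e3
  refine (mul_le_mul_of_nonneg_left e3 (by positivity)).trans (le_of_eq ?_)
  ring

theorem BB_le (h0 : ∑ j, c j = 0) (h1 : ∑ j, c j * a j = 0) (hκ : 0 ≤ κ) (hb : b < Real.pi / 2)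
    (h : ∀ j, |κ * ((a j).re - t.im)| ≤ b) (hM : ∀ j, |(a j).im| ≤ M) :
    ‖BB κ c a t‖ ≤ 1 / Real.pi * ((∑ j, ‖c j‖) / Real.cos b) * Real.exp (2 * κ * (M - |t.re|)) := by
  have hp := Real.pi_pos
  rcases isEmpty_or_nonempty ι with hι | ⟨⟨j0⟩⟩
  · unfold BB
    simp
  have hb0 : 0 ≤ b := (abs_nonneg _).trans (h j0)
  have hcb : 0 < Real.cos b := Real.cos_pos_of_mem_Ioo ⟨by linarith [Real.pi_pos], hb⟩
  have hs : ∑ j, c j * ((κ : ℂ) * (a j + I * t)) = 0 := by
    have : ∀ j, c j * ((κ : ℂ) * (a j + I * t)) = κ * (c j * a j) + (κ * I * t) * c j := fun j => by ring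
    simp only [this, Finset.sum_add_distrib, ← Finset.mul_sum, h0, h1]
    ring
  have key : ∃ e : ℂ, ∀ j, ‖log (cos (κ * (a j + I * t))) + e * (κ * (a j + I * t)) + Real.log 2‖ ≤
      1 / Real.cos b * Real.exp (2 * κ * (M - |t.re|)) := by
    rcases le_total 0 t.re with ht | ht
    · refine ⟨I, fun j => ?_⟩
      refine (lc_le (by rw [arg_re]; exact h j) hb).trans ?_
      rw [arg_im]
      refine mul_le_mul_of_nonneg_left (Real.exp_le_exp.2 ?_) (by positivity)
      rw [abs_of_nonneg ht]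
      have := neg_abs_le (a j).im
      nlinarith [hM j]
    · refine ⟨-I, fun j => ?_⟩
      rw [neg_mul, ← sub_eq_add_neg]
      refine (lc_le' (by rw [arg_re]; exact h j) hb).trans ?_
      rw [arg_im]
      refine mul_le_mul_of_nonneg_left (Real.exp_le_exp.2 ?_) (by positivity)
      rw [abs_of_nonpos ht]
      have := le_abs_self (a j).im
      nlinarith [hM j]
  obtain ⟨e, he⟩ := key
  have e1 : ∑ j, c j * log (cos (κ * (a j + I * t))) =
      ∑ j, c j * (log (cos (κ * (a j + I * t))) + e * (κ * (a j + I * t)) + Real.log 2) := by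
    have : ∀ j, c j * (log (cos (κ * (a j + I * t))) + e * (κ * (a j + I * t)) + Real.log 2) =
        c j * log (cos (κ * (a j + I * t))) + e * (c j * (κ * (a j + I * t))) +
          (Real.log 2 : ℂ) * c j := fun j => by ring
    simp only [this, Finset.sum_add_distrib, ← Finset.mul_sum, h0, hs]
    ring
  have e2 : ‖(I / (Real.pi : ℂ))‖ = 1 / Real.pi := by
    rw [norm_div, norm_I, norm_real, Real.norm_eq_abs, abs_of_pos hp]
  unfold BB
  rw [norm_mul, e2, e1]
  have e3 : ‖∑ j, c j * (log (cos (κ * (a j + I * t))) + e * (κ * (a j + I * t)) + Real.log 2)‖ ≤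
      ∑ j, ‖c j‖ * (1 / Real.cos b * Real.exp (2 * κ * (M - |t.re|))) := by
    refine norm_sum_le_of_le _ fun j _ => ?_
    rw [norm_mul]
    exact mul_le_mul_of_nonneg_left (he j) (norm_nonneg _)
  rw [← Finset.sum_mul] at e3
  refine (mul_le_mul_of_nonneg_left e3 (by positivity)).trans (le_of_eq ?_)
  ring

/-! ### the real line -/

/-- a shift of the line is a shift of the points -/
theorem TT_shift (κ : ℝ) (c a : ι → ℂ) (t : ℂ) (y : ℝ) :
    TT κ c a (t + y * I) = TT κ c (fun j => a j - y) t := by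
  unfold TT
  congr 1
  refine Finset.sum_congr rfl fun j _ => ?_
  congr 3
  linear_combination (y : ℂ) * I_mul_I

theorem BB_shift (κ : ℝ) (c a : ι → ℂ) (t : ℂ) (y : ℝ) :
    BB κ c a (t + y * I) = BB κ c (fun j => a j - y) t := by
  unfold BB
  congr 1
  refine Finset.sum_congr rfl fun j _ => ?_
  congr 4
  linear_combination (y : ℂ) * I_mul_I

lemma exists_b (h : ∀ j, |κ * (a j).re| < Real.pi / 2) :
    ∃ b M : ℝ, b < Real.pi / 2 ∧ (∀ j, |κ * (a j).re| ≤ b) ∧ ∀ j, |(a j).im| ≤ M := by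
  rcases isEmpty_or_nonempty ι with hι | hι
  · exact ⟨0, 0, by positivity, fun j => (hι.false j).elim, fun j => (hι.false j).elim⟩
  · obtain ⟨j0, hj0⟩ := Finite.exists_max fun j => |κ * (a j).re|
    obtain ⟨j1, hj1⟩ := Finite.exists_max fun j => |(a j).im|
    exact ⟨_, _, h j0, hj0, hj1⟩

lemma continuous_BB (h : ∀ j, |κ * (a j).re| < Real.pi / 2) :
    Continuous fun t : ℝ => BB κ c a t := by
  rw [continuous_iff_continuousAt]
  intro t
  have h1 : HasDerivAt (BB κ c a) (TT κ c a t) t := BB_deriv fun j => by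
    rw [ofReal_im, sub_zero]; exact h j
  exact ContinuousAt.comp (f := fun t : ℝ => (t : ℂ)) h1.continuousAt (by fun_prop)

lemma continuous_TT (h : ∀ j, |κ * (a j).re| < Real.pi / 2) :
    Continuous fun t : ℝ => TT κ c a t := by
  have h1 : ∀ j, Continuous fun t : ℝ => tan ((κ : ℂ) * (a j + I * t)) := by
    intro j
    rw [continuous_iff_continuousAt]
    intro t
    have h2 : ContinuousAt tan ((κ : ℂ) * (a j + I * t)) := continuousAt_tan.2 (cos_ne (by
      rw [arg_re, ofReal_im, sub_zero]; exact h j))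
    exact ContinuousAt.comp (f := fun t : ℝ => (κ : ℂ) * (a j + I * t)) h2 (by fun_prop)
  unfold TT
  fun_prop

lemma dom_exp {k M C : ℝ} (hk : 0 < k) : Integrable fun t : ℝ => C * Real.exp (k * (M - |t|)) := by
  have h1 := ((NUMF.int_exp_abs hk).const_mul (C * Real.exp (k * M)))
  refine h1.congr (Eventually.of_forall fun t => ?_)
  simp only
  rw [mul_assoc, ← Real.exp_add]
  congr 2
  ring

lemma dom_exp' {k M C : ℝ} (hk : 0 < k) (hC : 0 ≤ C) :
    Integrable fun t : ℝ => |t| * (C * Real.exp (k * (M - |t|))) := by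
  have h1 := dom_exp (k := k / 2) (M := 2 * M) (C := C * (2 / k)) (by positivity)
  refine h1.mono' (by fun_prop) (Eventually.of_forall fun t => ?_)
  rw [Real.norm_eq_abs, abs_of_nonneg (by positivity)]
  have h2 : k / 2 * |t| ≤ Real.exp (k / 2 * |t|) := by
    have := Real.add_one_le_exp (k / 2 * |t|)
    linarith
  have h3 : |t| ≤ 2 / k * Real.exp (k / 2 * |t|) := by
    rw [div_mul_eq_mul_div, le_div_iff₀ hk]
    linarith
  calc |t| * (C * Real.exp (k * (M - |t|))) ≤
      2 / k * Real.exp (k / 2 * |t|) * (C * Real.exp (k * (M - |t|))) := by gcongr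
    _ = C * (2 / k) * (Real.exp (k / 2 * |t|) * Real.exp (k * (M - |t|))) := by ring
    _ = _ := by
        rw [← Real.exp_add]
        congr 2
        ring

theorem TT_int (hκ : 0 < κ) (h0 : ∑ j, c j = 0) (h : ∀ j, |κ * (a j).re| < Real.pi / 2) :
    Integrable fun t : ℝ => TT κ c a t := by
  obtain ⟨b, M, hb, h1, hM⟩ := exists_b h
  refine (dom_exp (k := 2 * κ) (M := M) (C := 2 * κ / Real.pi * ((∑ j, ‖c j‖) / Real.cos b))
    (by positivity)).mono' (continuous_TT h).aestronglyMeasurable (Eventually.of_forall fun t => ?_)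
  have := TT_le (t := (t : ℂ)) hκ.le h0 hb (fun j => by rw [ofReal_im, sub_zero]; exact h1 j) hM
  rwa [ofReal_re] at this

theorem TT_int' (hκ : 0 < κ) (h0 : ∑ j, c j = 0) (h : ∀ j, |κ * (a j).re| < Real.pi / 2) :
    Integrable fun t : ℝ => |t| * ‖TT κ c a t‖ := by
  rcases isEmpty_or_nonempty ι with hι | ⟨⟨j0⟩⟩
  · unfold TT
    simp
  obtain ⟨b, M, hb, h1, hM⟩ := exists_b h
  have hb0 : 0 ≤ b := (abs_nonneg _).trans (h1 j0)
  have hcb : 0 < Real.cos b := Real.cos_pos_of_mem_Ioo ⟨by linarith [Real.pi_pos], hb⟩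
  refine (dom_exp' (k := 2 * κ) (M := M) (C := 2 * κ / Real.pi * ((∑ j, ‖c j‖) / Real.cos b))
    (by positivity) (by positivity)).mono'
    (continuous_abs.mul (continuous_TT h).norm).aestronglyMeasurable (Eventually.of_forall fun t => ?_)
  have := TT_le (t := (t : ℂ)) hκ.le h0 hb (fun j => by rw [ofReal_im, sub_zero]; exact h1 j) hM
  rw [ofReal_re] at this
  rw [norm_mul, norm_norm, Real.norm_eq_abs, abs_abs]
  exact mul_le_mul_of_nonneg_left this (abs_nonneg _)

theorem BB_int (hκ : 0 < κ) (h0 : ∑ j, c j = 0) (h1 : ∑ j, c j * a j = 0)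
    (h : ∀ j, |κ * (a j).re| < Real.pi / 2) : Integrable fun t : ℝ => BB κ c a t := by
  obtain ⟨b, M, hb, h2, hM⟩ := exists_b h
  refine (dom_exp (k := 2 * κ) (M := M) (C := 1 / Real.pi * ((∑ j, ‖c j‖) / Real.cos b))
    (by positivity)).mono' (continuous_BB h).aestronglyMeasurable (Eventually.of_forall fun t => ?_)
  have := BB_le (t := (t : ℂ)) h0 h1 hκ.le hb (fun j => by rw [ofReal_im, sub_zero]; exact h2 j) hM
  rwa [ofReal_re] at this

theorem BB_int' (hκ : 0 < κ) (h0 : ∑ j, c j = 0) (h1 : ∑ j, c j * a j = 0)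
    (h : ∀ j, |κ * (a j).re| < Real.pi / 2) : Integrable fun t : ℝ => |t| * ‖BB κ c a t‖ := by
  rcases isEmpty_or_nonempty ι with hι | ⟨⟨j0⟩⟩
  · unfold BB
    simp
  obtain ⟨b, M, hb, h2, hM⟩ := exists_b h
  have hb0 : 0 ≤ b := (abs_nonneg _).trans (h2 j0)
  have hcb : 0 < Real.cos b := Real.cos_pos_of_mem_Ioo ⟨by linarith [Real.pi_pos], hb⟩
  refine (dom_exp' (k := 2 * κ) (M := M) (C := 1 / Real.pi * ((∑ j, ‖c j‖) / Real.cos b))
    (by positivity) (by positivity)).mono'
    (continuous_abs.mul (continuous_BB h).norm).aestronglyMeasurable (Eventually.of_forall fun t => ?_)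
  have := BB_le (t := (t : ℂ)) h0 h1 hκ.le hb (fun j => by rw [ofReal_im, sub_zero]; exact h2 j) hM
  rw [ofReal_re] at this
  rw [norm_mul, norm_norm, Real.norm_eq_abs, abs_abs]
  exact mul_le_mul_of_nonneg_left this (abs_nonneg _)

end

end PBT3

end
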