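import Pool.Agent.PB.Frull
import Pool.Agent.PB.TrGB
import Pool.Agent.NUP1L.LegDefs

/-!
# TR3: the Gaussian factor in closed form, its size, continuity

`wt τ = 5l/4 + i τ`, `zt τ = l - (wt τ.1 + wt τ.2)/2`; `pF`, `gF` in terms of 38's `F1`, `F2`:
* `exp_pF`, `exp_gF`: closed forms (`cos`, `rh`);
* `gF_re`, `pF_re`: real parts up to a constant; `continuous_pF`, `continuous_gF`;
* `k1T`: kernel of the two half quanta; `k1_exp`: `k1T * exp gF` in closed form;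
  `k1T_le`, `k1_exp_le`: `≤ A e^{-|τ₁|-|τ₂|-|τ₁-τ₂|}`, `≤ A e^{-3|τ₁|-3|τ₂|}`.
-/

set_option autoImplicit false

noncomputable section

open Complex MeasureTheory Filter Topology Set

namespace PBT3

open PBFr (F1 F2)
open NUP1 (l)

/-- position of a half quantum of type `W` at the height `τ` -/
def wt (τ : ℝ) : ℂ := ((5 / 4 * l : ℝ) : ℂ) + I * τ

/-- position of the legs -/
def zt (τ : ℝ × ℝ) : ℂ := l - (wt τ.1 + wt τ.2) / 2

/-- linear term of the Gaussian exponent -/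
def pF (τ : ℝ × ℝ) : ℂ :=
  4 * F2 (zt τ) - 4 * F2 l - F1 (wt τ.1 - l - zt τ) - F1 (wt τ.2 - l - zt τ)

/-- the Gaussian exponent at the end of the path -/
def gF (τ : ℝ × ℝ) : ℂ :=
  F1 (wt τ.1 - wt τ.2 + l) + F1 (wt τ.1 - wt τ.2 - l) - F1 (wt τ.1 - wt τ.2) - 2 * F1 (wt τ.1 - l) -
    2 * F1 (wt τ.2 - l) - 6 * F2 l

lemma lp : 0 < l := PBR.l_pos'

lemma pi_half : Real.pi / 2 = 4 * l := by unfold l; ring

lemma wt_re (τ : ℝ) : (wt τ).re = 5 / 4 * l := by simp [wt]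

lemma wt_im (τ : ℝ) : (wt τ).im = τ := by simp [wt]

lemma zt_eq (τ : ℝ × ℝ) : zt τ = ((-(l / 4) : ℝ) : ℂ) + ((-(τ.1 + τ.2) / 2 : ℝ) : ℂ) * I := by
  unfold zt wt
  push_cast
  ring

lemma zt_re (τ : ℝ × ℝ) : (zt τ).re = -(l / 4) := by rw [zt_eq]; simp

lemma zt_im (τ : ℝ × ℝ) : (zt τ).im = -(τ.1 + τ.2) / 2 := by rw [zt_eq]; simp

lemma lre : ((l : ℂ)).re = l := ofReal_re l

lemma r1 (τ : ℝ × ℝ) : (wt τ.1 - wt τ.2 + l).re = l ∧ (wt τ.1 - wt τ.2 - l).re = -l ∧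
    (wt τ.1 - wt τ.2).re = 0 := by
  refine ⟨?_, ?_, ?_⟩ <;> simp [wt_re]

lemma r2' (τ : ℝ) : (wt τ - l).re = l / 4 := by
  rw [sub_re, wt_re, lre]; ring

lemma r3 (τ : ℝ × ℝ) (s : ℝ) : (wt s - l - zt τ).re = l / 2 := by
  rw [sub_re, r2', zt_re]; ring

lemma lt1 : |l| < Real.pi / 2 := by
  rw [abs_of_pos lp, pi_half]; linarith [lp]

lemma fl : |((l : ℂ)).re| < 5 * l := by
  rw [lre, abs_of_pos lp]; linarith [lp]

lemma fz (τ : ℝ × ℝ) : |(zt τ).re| < 5 * l := by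
  rw [zt_re, abs_neg, abs_of_pos (by linarith [lp])]; linarith [lp]

/-! ### closed forms -/

/-- **closed form of the linear term** -/
theorem exp_pF (τ : ℝ × ℝ) : exp (pF τ) = (PBR.rh (zt τ) / PBR.rh l) ^ 4 /
    (cos (wt τ.1 - l - zt τ) * cos (wt τ.2 - l - zt τ)) := by
  have hl := lp
  have a1 := PBFr.F2_exp (fz τ)
  have a2 := PBFr.F2_exp fl
  have a3 := PBFr.F1_exp (a := wt τ.1 - l - zt τ) (by rw [r3, pi_half, abs_of_pos (by linarith)]; linarith)
  have a4 := PBFr.F1_exp (a := wt τ.2 - l - zt τ) (by rw [r3, pi_half, abs_of_pos (by linarith)]; linarith)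
  have n0 : PBR.rh 0 ≠ 0 := PBR.rh_ne_zero (by simp; exact lp)
  unfold pF
  rw [exp_sub, exp_sub, exp_sub, a3, a4, show (4 : ℂ) * F2 (zt τ) = (4 : ℕ) * F2 (zt τ) by norm_num,
    show (4 : ℂ) * F2 l = (4 : ℕ) * F2 l by norm_num, exp_nat_mul, exp_nat_mul, a1, a2]
  field_simp

/-- **closed form of the Gaussian factor** -/
theorem exp_gF (τ : ℝ × ℝ) : exp (gF τ) = (PBR.rh 0 / PBR.rh l) ^ 6 *
    (cos (wt τ.1 - wt τ.2 + l) * cos (wt τ.1 - wt τ.2 - l)) /
    (cos (wt τ.1 - l) ^ 2 * cos (wt τ.2 - l) ^ 2 * cos (wt τ.1 - wt τ.2)) := by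
  have hl := lp
  obtain ⟨e1, e2, e3⟩ := r1 τ
  have a1 := PBFr.F1_exp (a := wt τ.1 - wt τ.2 + l) (by rw [e1]; exact lt1)
  have a2 := PBFr.F1_exp (a := wt τ.1 - wt τ.2 - l) (by rw [e2, abs_neg]; exact lt1)
  have a3 := PBFr.F1_exp (a := wt τ.1 - wt τ.2) (by rw [e3, abs_zero]; positivity)
  have a4 := PBFr.F1_exp (a := wt τ.1 - l) (by rw [r2', pi_half, abs_of_pos (by linarith)]; linarith)
  have a5 := PBFr.F1_exp (a := wt τ.2 - l) (by rw [r2', pi_half, abs_of_pos (by linarith)]; linarith)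
  have a6 := PBFr.F2_exp fl
  have n0 : PBR.rh 0 ≠ 0 := PBR.rh_ne_zero (by simp; exact lp)
  have n1 : PBR.rh l ≠ 0 := PBR.rh_ne_zero fl
  unfold gF
  rw [exp_sub, exp_sub, exp_sub, exp_sub, exp_add, a1, a2, a3,
    show (2 : ℂ) * F1 (wt τ.1 - l) = (2 : ℕ) * F1 (wt τ.1 - l) by norm_num,
    show (2 : ℂ) * F1 (wt τ.2 - l) = (2 : ℕ) * F1 (wt τ.2 - l) by norm_num,
    show (6 : ℂ) * F2 l = (6 : ℕ) * F2 l by norm_num, exp_nat_mul, exp_nat_mul, exp_nat_mul, a4, a5, a6]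
  field_simp

/-! ### size -/

/-- `|Re F1 a - |Im a|| ≤ C` in a strip -/
theorem F1_re {b : ℝ} (hb0 : 0 ≤ b) (hb : b < Real.pi / 2) : ∃ C : ℝ, 0 ≤ C ∧ ∀ a : ℂ, |a.re| ≤ b →
    |(F1 a).re - (|a.im|)| ≤ C := by
  have hcb : 0 < Real.cos b := Real.cos_pos_of_mem_Ioo ⟨by linarith [Real.pi_pos], hb⟩
  have hcb1 : Real.cos b ≤ 1 := Real.cos_le_one b
  refine ⟨Real.log (2 / Real.cos b), Real.log_nonneg (by rw [le_div_iff₀ hcb]; linarith), fun a ha => ?_⟩
  have hlt : |a.re| < Real.pi / 2 := lt_of_le_of_lt ha hb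
  have hn : 0 < ‖cos a‖ := norm_pos_iff.2 (cos_ne hlt)
  rw [PBFr.F1_eq hlt, log_re]
  have h1 : Real.log ‖cos a‖ ≤ |a.im| := by
    rw [Real.log_le_iff_le_exp hn]
    have := PBR.norm_sin_le (Real.pi / 2 - a)
    rw [Complex.sin_pi_div_two_sub] at this
    refine this.trans (le_of_eq ?_)
    congr 1
    have : (Real.pi / 2 - a : ℂ).im = -a.im := by
      rw [show (Real.pi / 2 - a : ℂ) = ((Real.pi / 2 : ℝ) : ℂ) - a by push_cast; ring, sub_im, ofReal_im]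
      ring
    rw [this, abs_neg]
  have h2 : |a.im| - Real.log (2 / Real.cos b) ≤ Real.log ‖cos a‖ := by
    have h3 := norm_cos_ge ha hb
    have h4 := Real.log_le_log (by positivity) h3
    rw [Real.log_mul (by positivity) (Real.exp_pos _).ne', Real.log_exp] at h4
    have h5 : Real.log (2 / Real.cos b) = -Real.log (Real.cos b / 2) := by
      rw [← Real.log_inv, inv_div]
    rw [h5]
    linarith
  rw [abs_le]
  have h6 : 0 ≤ Real.log (2 / Real.cos b) := Real.log_nonneg (by rw [le_div_iff₀ hcb]; linarith)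
  constructor <;> linarith

/-- `|Re F2 a - |Im a|| ≤ C` for `|Re a| ≤ 4l` -/
theorem F2_re : ∃ C : ℝ, 0 ≤ C ∧ ∀ a : ℂ, |a.re| ≤ 4 * l → |(F2 a).re - (|a.im|)| ≤ C := by
  have hl := lp
  have s1 := PBR.sδ_pos (δ := 1) one_pos (by norm_num)
  have s4 := PBR.sδ_pos (δ := 4) (by norm_num) le_rfl
  set A := 4 / PBR.sδ 4 ^ 4
  set B := 4 * PBR.sδ 1 ^ 7
  have hA : 0 < A := by positivity
  have hB : 0 < B := by positivity
  have n0 : 0 < ‖PBR.rh 0‖ := norm_pos_iff.2 (PBR.rh_ne_zero (by simp; exact lp))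
  refine ⟨|Real.log A| + |Real.log B| + |Real.log ‖PBR.rh 0‖|, by positivity, fun a ha => ?_⟩
  have ha' : |a.re| < 5 * l := by linarith
  have h1 := PBFr.F2_exp ha'
  have h2 := congrArg norm h1
  rw [norm_exp, norm_div] at h2
  have hn : 0 < ‖PBR.rh a‖ := norm_pos_iff.2 (PBR.rh_ne_zero ha')
  have h3 : (F2 a).re = Real.log ‖PBR.rh a‖ - Real.log ‖PBR.rh 0‖ := by
    rw [← Real.log_div hn.ne' n0.ne', ← h2, Real.log_exp]
  have u := PBR.rh_upper (δ := 4) (w := a) (by norm_num) le_rfl (by linarith)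
  have v := PBR.rh_lower (δ := 1) (w := a) one_pos (by norm_num) (by linarith)
  have u' := Real.log_le_log hn u
  have v' := Real.log_le_log (by positivity) v
  rw [Real.log_mul hA.ne' (Real.exp_pos _).ne', Real.log_exp] at u'
  rw [Real.log_mul hB.ne' (Real.exp_pos _).ne', Real.log_exp] at v'
  rw [h3, abs_le]
  have b1 := neg_abs_le (Real.log A)
  have b2 := le_abs_self (Real.log A)
  have b3 := neg_abs_le (Real.log B)
  have b4 := le_abs_self (Real.log B)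
  have b5 := neg_abs_le (Real.log ‖PBR.rh 0‖)
  have b6 := le_abs_self (Real.log ‖PBR.rh 0‖)
  constructor <;> linarith

/-- **real part of the Gaussian exponent** -/
theorem gF_re : ∃ C : ℝ, 0 ≤ C ∧ ∀ τ : ℝ × ℝ,
    |(gF τ).re - (|τ.1 - τ.2| - 2 * |τ.1| - 2 * |τ.2|)| ≤ C := by
  have hl := lp
  obtain ⟨C, hC, h⟩ := F1_re (b := l) hl.le (by rw [pi_half]; linarith)
  refine ⟨7 * C + 6 * |(F2 l).re|, by positivity, fun τ => ?_⟩
  obtain ⟨e1, e2, e3⟩ := r1 τ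
  have i1 : (wt τ.1 - wt τ.2 + l).im = τ.1 - τ.2 := by simp [wt_im]
  have i2 : (wt τ.1 - wt τ.2 - l).im = τ.1 - τ.2 := by simp [wt_im]
  have i3 : (wt τ.1 - wt τ.2).im = τ.1 - τ.2 := by simp [wt_im]
  have i4 : (wt τ.1 - l).im = τ.1 := by simp [wt_im]
  have i5 : (wt τ.2 - l).im = τ.2 := by simp [wt_im]
  have a1 := h (wt τ.1 - wt τ.2 + l) (by rw [e1, abs_of_pos hl])
  have a2 := h (wt τ.1 - wt τ.2 - l) (by rw [e2, abs_neg, abs_of_pos hl])
  have a3 := h (wt τ.1 - wt τ.2) (by rw [e3, abs_zero]; exact hl.le)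
  have a4 := h (wt τ.1 - l) (by rw [r2', abs_of_pos (by linarith)]; linarith)
  have a5 := h (wt τ.2 - l) (by rw [r2', abs_of_pos (by linarith)]; linarith)
  rw [i1] at a1
  rw [i2] at a2
  rw [i3] at a3
  rw [i4] at a4
  rw [i5] at a5
  have e : (gF τ).re = (F1 (wt τ.1 - wt τ.2 + l)).re + (F1 (wt τ.1 - wt τ.2 - l)).re -
      (F1 (wt τ.1 - wt τ.2)).re - 2 * (F1 (wt τ.1 - l)).re - 2 * (F1 (wt τ.2 - l)).re -
      6 * (F2 l).re := by
    unfold gF
    simp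
  rw [e]
  rw [abs_le] at a1 a2 a3 a4 a5 ⊢
  have b1 := neg_abs_le (F2 l).re
  have b2 := le_abs_self (F2 l).re
  constructor <;> linarith

/-- **real part of the linear term** -/
theorem pF_re : ∃ C : ℝ, 0 ≤ C ∧ ∀ τ : ℝ × ℝ,
    |(pF τ).re - (2 * |τ.1 + τ.2| - |3 * τ.1 + τ.2| / 2 - |τ.1 + 3 * τ.2| / 2)| ≤ C := by
  have hl := lp
  obtain ⟨C, hC, h⟩ := F1_re (b := l) hl.le (by rw [pi_half]; linarith)
  obtain ⟨D, hD, h'⟩ := F2_re
  refine ⟨2 * C + 4 * D + 4 * |(F2 l).re|, by positivity, fun τ => ?_⟩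
  have a1 := h' (zt τ) (by rw [zt_re, abs_neg, abs_of_pos (by linarith)]; linarith)
  have a3 := h (wt τ.1 - l - zt τ) (by rw [r3, abs_of_pos (by linarith)]; linarith)
  have a4 := h (wt τ.2 - l - zt τ) (by rw [r3, abs_of_pos (by linarith)]; linarith)
  have i1 : (wt τ.1 - l - zt τ).im = (3 * τ.1 + τ.2) / 2 := by
    rw [sub_im, zt_im, sub_im, wt_im, ofReal_im]; ring
  have i2 : (wt τ.2 - l - zt τ).im = (τ.1 + 3 * τ.2) / 2 := by
    rw [sub_im, zt_im, sub_im, wt_im, ofReal_im]; ring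
  rw [zt_im, abs_div, abs_neg, abs_of_pos (show (0 : ℝ) < 2 by norm_num)] at a1
  rw [i1, abs_div, abs_of_pos (show (0 : ℝ) < 2 by norm_num)] at a3
  rw [i2, abs_div, abs_of_pos (show (0 : ℝ) < 2 by norm_num)] at a4
  have e : (pF τ).re = 4 * (F2 (zt τ)).re - 4 * (F2 l).re - (F1 (wt τ.1 - l - zt τ)).re -
      (F1 (wt τ.2 - l - zt τ)).re := by
    unfold pF
    simp
  rw [e]
  rw [abs_le] at a1 a3 a4 ⊢
  have b1 := neg_abs_le (F2 l).re
  have b2 := le_abs_self (F2 l).re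
  constructor <;> linarith

/-! ### continuity -/

theorem F1_cont {a : ℂ} (ha : |a.re| < Real.pi / 2) : ContinuousAt F1 a := by
  have h1 : ∀ᶠ x in 𝓝 a, F1 x = log (cos x) := by
    have ho : IsOpen {x : ℂ | |x.re| < Real.pi / 2} :=
      isOpen_lt (continuous_abs.comp continuous_re) continuous_const
    filter_upwards [ho.mem_nhds ha] with x hx
    exact PBFr.F1_eq hx
  exact (hasDerivAt_lc ha).continuousAt.congr (h1.mono fun x hx => hx.symm)

/-- one term of `F2` -/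
def sv (m : ℝ) (w : ℂ) : ℂ := log (cos ((w + ((m * l : ℝ) : ℂ)) / 3)) - log (cos (((m * l : ℝ) : ℂ) / 3))

theorem sh_val (m : ℝ) {w : ℂ} (hw : |w.re| < 5 * l) (hm : |m| ≤ 7) :
    ∫ k in Ioi (0:ℝ), PBFr.sh (m * l) w k = sv m w := by
  have hl := lp
  have h2 : |m * l| ≤ 7 * l := by
    rw [abs_mul, abs_of_pos hl]
    exact mul_le_mul_of_nonneg_right hm hl.le
  have h3 : |w.re + m * l| < 12 * l := by
    have := abs_add_le w.re (m * l)
    linarith
  have hl3 : 12 * l / 3 = Real.pi / 2 := by unfold l; ring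
  have z1 : |((w + ((m * l : ℝ) : ℂ)) / 3).re| < Real.pi / 2 := by
    rw [PBFr.re_div3, Complex.add_re, Complex.ofReal_re, abs_div, ← hl3,
      abs_of_pos (show (0:ℝ) < 3 by norm_num)]
    exact div_lt_div_of_pos_right h3 (by norm_num)
  have z2 : |(((m * l : ℝ) : ℂ) / 3).re| < Real.pi / 2 := by
    rw [PBFr.re_div3, Complex.ofReal_re, abs_div, ← hl3, abs_of_pos (show (0:ℝ) < 3 by norm_num)]
    exact div_lt_div_of_pos_right (by linarith) (by norm_num)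
  have i1 := NUMF.ck_integrable z1
  have i2 := NUMF.ck_integrable z2
  have j1 : IntegrableOn (fun k : ℝ => NUMF.ck ((w + ((m * l : ℝ) : ℂ)) / 3) (3 * k)) (Ioi 0) := by
    rw [integrableOn_Ioi_comp_mul_left_iff _ 0 (show (0:ℝ) < 3 by norm_num), mul_zero]
    exact i1
  have j2 : IntegrableOn (fun k : ℝ => NUMF.ck (((m * l : ℝ) : ℂ) / 3) (3 * k)) (Ioi 0) := by
    rw [integrableOn_Ioi_comp_mul_left_iff _ 0 (show (0:ℝ) < 3 by norm_num), mul_zero]
    exact i2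
  have e : PBFr.sh (m * l) w = fun k => -3 * (NUMF.ck ((w + ((m * l : ℝ) : ℂ)) / 3) (3 * k) -
      NUMF.ck (((m * l : ℝ) : ℂ) / 3) (3 * k)) := funext (PBFr.sh_eq (m * l) w)
  rw [e, integral_const_mul, integral_sub j1 j2,
    integral_comp_mul_left_Ioi (NUMF.ck ((w + ((m * l : ℝ) : ℂ)) / 3)) 0 (show (0:ℝ) < 3 by norm_num),
    integral_comp_mul_left_Ioi (NUMF.ck (((m * l : ℝ) : ℂ) / 3)) 0 (show (0:ℝ) < 3 by norm_num), mul_zero,
    NUMF.neg_log_cos z1, NUMF.neg_log_cos z2, real_smul, real_smul]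
  unfold sv
  push_cast
  ring

/-- `F2` as a sum of logarithms -/
theorem F2_log {w : ℂ} (hw : |w.re| < 5 * l) : F2 w =
    (((sv 7 w + sv (-7) w) + (sv 1 w + sv (-1) w)) + (sv 6 w + sv (-6) w) + sv 0 w) -
    ((sv 3 w + sv (-3) w) + (sv 4 w + sv (-4) w)) := by
  have a7 := (PBFr.sh_int' 7 hw (by norm_num)).1
  have b7 := (PBFr.sh_int' (-7) hw (by norm_num)).1
  have a1 := (PBFr.sh_int' 1 hw (by norm_num)).1
  have b1 := (PBFr.sh_int' (-1) hw (by norm_num)).1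
  have a6 := (PBFr.sh_int' 6 hw (by norm_num)).1
  have b6 := (PBFr.sh_int' (-6) hw (by norm_num)).1
  have a0 := (PBFr.sh_int' 0 hw (by norm_num)).1
  have a3 := (PBFr.sh_int' 3 hw (by norm_num)).1
  have b3 := (PBFr.sh_int' (-3) hw (by norm_num)).1
  have a4 := (PBFr.sh_int' 4 hw (by norm_num)).1
  have b4 := (PBFr.sh_int' (-4) hw (by norm_num)).1
  have x7 := sh_val 7 hw (by norm_num)
  have y7 := sh_val (-7) hw (by norm_num)
  have x1 := sh_val 1 hw (by norm_num)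
  have y1 := sh_val (-1) hw (by norm_num)
  have x6 := sh_val 6 hw (by norm_num)
  have y6 := sh_val (-6) hw (by norm_num)
  have x0 := sh_val 0 hw (by norm_num)
  have x3 := sh_val 3 hw (by norm_num)
  have y3 := sh_val (-3) hw (by norm_num)
  have x4 := sh_val 4 hw (by norm_num)
  have y4 := sh_val (-4) hw (by norm_num)
  rw [(PBFr.F2_all hw).2]
  have e : ∫ k in Ioi (0:ℝ), PBFr.g2 w k = ∫ k in Ioi (0:ℝ),
      (((((PBFr.sh (7 * l) w + PBFr.sh (-7 * l) w) + (PBFr.sh (1 * l) w + PBFr.sh (-1 * l) w)) +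
      (PBFr.sh (6 * l) w + PBFr.sh (-6 * l) w)) + PBFr.sh (0 * l) w) -
      ((PBFr.sh (3 * l) w + PBFr.sh (-3 * l) w) + (PBFr.sh (4 * l) w + PBFr.sh (-4 * l) w))) k := by
    refine setIntegral_congr_fun measurableSet_Ioi fun k hk => ?_
    rw [PBFr.g2_eq w hk]
    simp only [neg_mul, one_mul, zero_mul]
    rfl
  rw [e, integral_sub' ((((a7.add b7).add (a1.add b1)).add (a6.add b6)).add a0)
      ((a3.add b3).add (a4.add b4)),
    integral_add' (((a7.add b7).add (a1.add b1)).add (a6.add b6)) a0,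
    integral_add' ((a7.add b7).add (a1.add b1)) (a6.add b6),
    integral_add' (a7.add b7) (a1.add b1), integral_add' a7 b7, integral_add' a1 b1,
    integral_add' a6 b6, integral_add' (a3.add b3) (a4.add b4), integral_add' a3 b3,
    integral_add' a4 b4, x7, y7, x1, y1, x6, y6, x0, x3, y3, x4, y4]

theorem sv_diff (m : ℝ) {w : ℂ} (hw : |w.re| < 5 * l) (hm : |m| ≤ 7) : DifferentiableAt ℂ (sv m) w := by
  have hl := lp
  have h2 : |m * l| ≤ 7 * l := by
    rw [abs_mul, abs_of_pos hl]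
    exact mul_le_mul_of_nonneg_right hm hl.le
  have h3 : |w.re + m * l| < 12 * l := by
    have := abs_add_le w.re (m * l)
    linarith
  have hl3 : 12 * l / 3 = Real.pi / 2 := by unfold l; ring
  have z1 : |((w + ((m * l : ℝ) : ℂ)) / 3).re| < Real.pi / 2 := by
    rw [PBFr.re_div3, Complex.add_re, Complex.ofReal_re, abs_div, ← hl3,
      abs_of_pos (show (0:ℝ) < 3 by norm_num)]
    exact div_lt_div_of_pos_right h3 (by norm_num)
  have h4 : DifferentiableAt ℂ (fun w : ℂ => (w + ((m * l : ℝ) : ℂ)) / 3) w := by fun_prop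
  have h5 := (hasDerivAt_lc z1).differentiableAt
  unfold sv
  exact (DifferentiableAt.comp w h5 h4).sub_const _

/-- **`F2` is analytic for `|Re w| < 5 l`** -/
theorem F2_diff {w : ℂ} (hw : |w.re| < 5 * l) : DifferentiableAt ℂ F2 w := by
  have h1 : ∀ᶠ x in 𝓝 w, (((sv 7 x + sv (-7) x) + (sv 1 x + sv (-1) x)) + (sv 6 x + sv (-6) x) + sv 0 x) -
      ((sv 3 x + sv (-3) x) + (sv 4 x + sv (-4) x)) = F2 x := by
    have ho : IsOpen {x : ℂ | |x.re| < 5 * l} :=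
      isOpen_lt (continuous_abs.comp continuous_re) continuous_const
    filter_upwards [ho.mem_nhds hw] with x hx
    exact (F2_log hx).symm
  have d : ∀ m : ℝ, |m| ≤ 7 → DifferentiableAt ℂ (sv m) w := fun m hm => sv_diff m hw hm
  have h2 : DifferentiableAt ℂ (fun x => (((sv 7 x + sv (-7) x) + (sv 1 x + sv (-1) x)) +
      (sv 6 x + sv (-6) x) + sv 0 x) - ((sv 3 x + sv (-3) x) + (sv 4 x + sv (-4) x))) w :=
    (((((d 7 (by norm_num)).add (d (-7) (by norm_num))).add ((d 1 (by norm_num)).add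
      (d (-1) (by norm_num)))).add ((d 6 (by norm_num)).add (d (-6) (by norm_num)))).add
      (d 0 (by norm_num))).sub (((d 3 (by norm_num)).add (d (-3) (by norm_num))).add
      ((d 4 (by norm_num)).add (d (-4) (by norm_num))))
  exact h2.congr_of_eventuallyEq (h1.mono fun x hx => hx.symm)

/-- `F1` is analytic for `|Re w| < π/2` -/
theorem F1_diff {a : ℂ} (ha : |a.re| < Real.pi / 2) : DifferentiableAt ℂ F1 a := by
  have h1 : ∀ᶠ x in 𝓝 a, F1 x = log (cos x) := by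
    have ho : IsOpen {x : ℂ | |x.re| < Real.pi / 2} :=
      isOpen_lt (continuous_abs.comp continuous_re) continuous_const
    filter_upwards [ho.mem_nhds ha] with x hx
    exact PBFr.F1_eq hx
  exact (hasDerivAt_lc ha).differentiableAt.congr_of_eventuallyEq h1

lemma continuous_wt : Continuous wt := by unfold wt; fun_prop

lemma continuous_zt : Continuous zt := by
  unfold zt
  exact continuous_const.sub (((continuous_wt.comp continuous_fst).add
    (continuous_wt.comp continuous_snd)).div_const _)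

lemma comp_F1 {f : ℝ × ℝ → ℂ} (hf : Continuous f) (h : ∀ τ, |(f τ).re| < Real.pi / 2) :
    Continuous fun τ => F1 (f τ) := by
  rw [continuous_iff_continuousAt]
  intro τ
  exact ContinuousAt.comp (f := f) (F1_cont (h τ)) hf.continuousAt

theorem continuous_pF : Continuous pF := by
  have hl := lp
  have c1 := continuous_wt.comp (continuous_fst (X := ℝ) (Y := ℝ))
  have c2 := continuous_wt.comp (continuous_snd (X := ℝ) (Y := ℝ))
  have h1 : Continuous fun τ : ℝ × ℝ => F2 (zt τ) := by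
    rw [continuous_iff_continuousAt]
    intro τ
    exact ContinuousAt.comp (f := zt) (F2_diff (fz τ)).continuousAt continuous_zt.continuousAt
  have h2 : Continuous fun τ : ℝ × ℝ => F1 (wt τ.1 - l - zt τ) :=
    comp_F1 ((c1.sub continuous_const).sub continuous_zt) fun τ => by
      show |(_ : ℂ).re| < _
      rw [r3, pi_half, abs_of_pos (by linarith)]; linarith
  have h3 : Continuous fun τ : ℝ × ℝ => F1 (wt τ.2 - l - zt τ) :=
    comp_F1 ((c2.sub continuous_const).sub continuous_zt) fun τ => by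
      show |(_ : ℂ).re| < _
      rw [r3, pi_half, abs_of_pos (by linarith)]; linarith
  unfold pF
  exact (((continuous_const.mul h1).sub continuous_const).sub h2).sub h3

theorem continuous_gF : Continuous gF := by
  have hl := lp
  have c1 := continuous_wt.comp (continuous_fst (X := ℝ) (Y := ℝ))
  have c2 := continuous_wt.comp (continuous_snd (X := ℝ) (Y := ℝ))
  have h1 : Continuous fun τ : ℝ × ℝ => F1 (wt τ.1 - wt τ.2 + l) :=
    comp_F1 ((c1.sub c2).add continuous_const) fun τ => by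
      show |(_ : ℂ).re| < _
      rw [(r1 τ).1]; exact lt1
  have h2 : Continuous fun τ : ℝ × ℝ => F1 (wt τ.1 - wt τ.2 - l) :=
    comp_F1 ((c1.sub c2).sub continuous_const) fun τ => by
      show |(_ : ℂ).re| < _
      rw [(r1 τ).2.1, abs_neg]; exact lt1
  have h3 : Continuous fun τ : ℝ × ℝ => F1 (wt τ.1 - wt τ.2) :=
    comp_F1 (c1.sub c2) fun τ => by
      show |(_ : ℂ).re| < _
      rw [(r1 τ).2.2, abs_zero]; positivity
  have h4 : Continuous fun τ : ℝ × ℝ => F1 (wt τ.1 - l) :=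
    comp_F1 (c1.sub continuous_const) fun τ => by
      show |(_ : ℂ).re| < _
      rw [r2', pi_half, abs_of_pos (by linarith)]; linarith
  have h5 : Continuous fun τ : ℝ × ℝ => F1 (wt τ.2 - l) :=
    comp_F1 (c2.sub continuous_const) fun τ => by
      show |(_ : ℂ).re| < _
      rw [r2', pi_half, abs_of_pos (by linarith)]; linarith
  unfold gF
  exact ((((h1.add h2).sub h3).sub (continuous_const.mul h4)).sub (continuous_const.mul h5)).sub
    continuous_const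

/-! ### the kernel of two half quanta of type `W` -/

/-- kernel: `kap w sin (w + 3l)` for both half quanta times their pair factor -/
def k1T (τ : ℝ × ℝ) : ℂ :=
  NUP1.Leg.kap (wt τ.1) * NUP1.Leg.kap (wt τ.2) * sin (wt τ.1 + 3 * l) * sin (wt τ.2 + 3 * l) *
    NUP1.Leg.Dk (wt τ.1 - wt τ.2)

lemma sin_wt_ge (k : ℝ) (τ : ℝ) :
    |Real.sin ((5 / 4 + k) * l)| / 2 * Real.exp |τ| ≤ ‖sin (wt τ + k * l)‖ := by
  have hre : (wt τ + k * l).re = (5 / 4 + k) * l := by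
    rw [add_re, wt_re, ← ofReal_mul, ofReal_re]; ring
  have him : (wt τ + k * l).im = τ := by
    rw [add_im, wt_im, ← ofReal_mul, ofReal_im]; ring
  have := PBR.norm_sin_ge (wt τ + k * l)
  rwa [hre, him] at this

lemma sin_kl_ne (k : ℝ) (h : (0 < 5 / 4 + k ∧ 5 / 4 + k < 8) ∨ (-8 < 5 / 4 + k ∧ 5 / 4 + k < 0)) :
    Real.sin ((5 / 4 + k) * l) ≠ 0 := by
  have hl := lp
  have hpi : Real.pi = 8 * l := by unfold l; ring
  rcases h with ⟨h0, h1⟩ | ⟨h0, h1⟩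
  · refine (Real.sin_pos_of_pos_of_lt_pi (mul_pos h0 hl) ?_).ne'
    rw [hpi]
    exact mul_lt_mul_of_pos_right h1 hl
  · refine (Real.sin_neg_of_neg_of_neg_pi_lt (mul_neg_of_neg_of_pos h1 hl) ?_).ne
    rw [hpi]
    nlinarith

lemma wt_nk (τ : ℝ) : wt τ + (0 : ℝ) * l = wt τ ∧ wt τ + (-2 : ℝ) * l = wt τ - 2 * l ∧
    wt τ + (3 : ℝ) * l = wt τ + 3 * l := by
  refine ⟨?_, ?_, ?_⟩ <;> (push_cast; ring)

/-- lower bounds of the three sines -/
lemma sines_ge : ∃ c : ℝ, 0 < c ∧ ∀ τ : ℝ, c * Real.exp |τ| ≤ ‖sin (wt τ)‖ ∧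
    c * Real.exp |τ| ≤ ‖sin (wt τ - 2 * l)‖ ∧ c * Real.exp |τ| ≤ ‖sin (wt τ + 3 * l)‖ := by
  have k0 := sin_kl_ne 0 (by left; constructor <;> norm_num)
  have k2 := sin_kl_ne (-2) (by right; constructor <;> norm_num)
  have k3 := sin_kl_ne 3 (by left; constructor <;> norm_num)
  set c0 := |Real.sin ((5 / 4 + 0) * l)| / 2 with hc0
  set c2 := |Real.sin ((5 / 4 + -2) * l)| / 2 with hc2
  set c3 := |Real.sin ((5 / 4 + 3) * l)| / 2 with hc3
  have p0 : 0 < c0 := by positivity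
  have p2 : 0 < c2 := by positivity
  have p3 : 0 < c3 := by positivity
  refine ⟨min c0 (min c2 c3), lt_min p0 (lt_min p2 p3), fun τ => ?_⟩
  have g0 := sin_wt_ge 0 τ
  have g2 := sin_wt_ge (-2) τ
  have g3 := sin_wt_ge 3 τ
  rw [(wt_nk τ).1] at g0
  rw [(wt_nk τ).2.1] at g2
  rw [(wt_nk τ).2.2] at g3
  have hE := (Real.exp_pos |τ|).le
  exact ⟨(mul_le_mul_of_nonneg_right (min_le_left _ _) hE).trans g0,
    (mul_le_mul_of_nonneg_right ((min_le_right _ _).trans (min_le_left _ _)) hE).trans g2,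
    (mul_le_mul_of_nonneg_right ((min_le_right _ _).trans (min_le_right _ _)) hE).trans g3⟩

lemma sin_ne_ge {z : ℂ} {c τ : ℝ} (hc : 0 < c) (h : c * Real.exp |τ| ≤ ‖sin z‖) : sin z ≠ 0 := by
  intro h0
  rw [h0, norm_zero] at h
  have : 0 < c * Real.exp |τ| := by positivity
  linarith

lemma wt_ne (τ : ℝ) : sin (wt τ) ≠ 0 ∧ sin (wt τ - 2 * l) ≠ 0 ∧ sin (wt τ + 3 * l) ≠ 0 := by
  obtain ⟨c, hc, h⟩ := sines_ge
  obtain ⟨h1, h2, h3⟩ := h τ
  exact ⟨sin_ne_ge hc h1, sin_ne_ge hc h2, sin_ne_ge hc h3⟩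

lemma sin3 (x : ℂ) : sin (3 * l + x) = cos (x - l) := by
  rw [show (3 * l + x : ℂ) = Real.pi / 2 + (x - l) by unfold l; push_cast; ring,
    Complex.sin_add, Complex.sin_pi_div_two, Complex.cos_pi_div_two]
  ring

lemma sin3' (x : ℂ) : sin (3 * l - x) = cos (x + l) := by
  rw [show (3 * l - x : ℂ) = 3 * l + -x by ring, sin3, show -x - (l : ℂ) = -(x + l) by ring, cos_neg]

lemma sinw3 (τ : ℝ) : sin (wt τ + 3 * l) = cos (wt τ - l) := by
  rw [add_comm, sin3]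

lemma Dk_eq (x : ℂ) : NUP1.Leg.Dk x = cos x / (cos (x + l) * cos (x - l)) := by
  unfold NUP1.Leg.Dk
  rw [sin3, sin3']

/-- **the kernel times the Gaussian factor** -/
theorem k1_exp (τ : ℝ × ℝ) : k1T τ * exp (gF τ) = (PBR.rh 0 / PBR.rh l) ^ 6 * sin (2 * l) ^ 2 /
    ((sin (wt τ.1) * sin (wt τ.1 - 2 * l) * sin (wt τ.1 + 3 * l)) *
      (sin (wt τ.2) * sin (wt τ.2 - 2 * l) * sin (wt τ.2 + 3 * l))) := by
  obtain ⟨a1, a2, a3⟩ := wt_ne τ.1
  obtain ⟨b1, b2, b3⟩ := wt_ne τ.2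
  obtain ⟨e1, e2, e3⟩ := r1 τ
  have c1 : cos (wt τ.1 - wt τ.2 + l) ≠ 0 := cos_ne (by rw [e1]; exact lt1)
  have c2 : cos (wt τ.1 - wt τ.2 - l) ≠ 0 := cos_ne (by rw [e2, abs_neg]; exact lt1)
  have c3 : cos (wt τ.1 - wt τ.2) ≠ 0 := cos_ne (by rw [e3, abs_zero]; positivity)
  have n1 : PBR.rh l ≠ 0 := PBR.rh_ne_zero fl
  rw [exp_gF]
  unfold k1T NUP1.Leg.kap
  rw [Dk_eq, sinw3, sinw3]
  rw [sinw3] at a3 b3
  field_simp

/-- **size of the kernel** -/
theorem k1T_le : ∃ A : ℝ, 0 < A ∧ ∀ τ : ℝ × ℝ,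
    ‖k1T τ‖ ≤ A * Real.exp (-(|τ.1| + |τ.2| + |τ.1 - τ.2|)) := by
  have hl := lp
  obtain ⟨c, hc, h⟩ := sines_ge
  have hlt : l < Real.pi / 2 := by rw [pi_half]; linarith
  have hcl : 0 < Real.cos l := Real.cos_pos_of_mem_Ioo ⟨by linarith [Real.pi_pos], hlt⟩
  set s2 := ‖sin (2 * (l : ℂ))‖ with hs2
  have hs2' : 0 ≤ s2 := norm_nonneg _
  have cosle : ∀ x : ℂ, ‖cos x‖ ≤ Real.exp |x.im| := by
    intro x
    have := PBR.norm_sin_le (Real.pi / 2 - x)
    rw [Complex.sin_pi_div_two_sub] at this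
    refine this.trans (le_of_eq ?_)
    congr 1
    have : (Real.pi / 2 - x : ℂ).im = -x.im := by
      rw [show (Real.pi / 2 - x : ℂ) = ((Real.pi / 2 : ℝ) : ℂ) - x by push_cast; ring, sub_im, ofReal_im]
      ring
    rw [this, abs_neg]
  have one : ∀ τ : ℝ, ‖NUP1.Leg.kap (wt τ) * sin (wt τ + 3 * l)‖ ≤ s2 / c ^ 2 * Real.exp (-|τ|) := by
    intro τ
    obtain ⟨h1, h2, _⟩ := h τ
    have h3 : ‖sin (wt τ + 3 * l)‖ ≤ Real.exp |τ| := by
      rw [sinw3]
      have := cosle (wt τ - l)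
      have e : (wt τ - l).im = τ := by rw [sub_im, wt_im, ofReal_im, sub_zero]
      rwa [e] at this
    unfold NUP1.Leg.kap
    rw [norm_mul, norm_div, norm_mul, ← hs2]
    have p1 : 0 < c * Real.exp |τ| := by positivity
    have h4 : (c * Real.exp |τ|) * (c * Real.exp |τ|) ≤ ‖sin (wt τ)‖ * ‖sin (wt τ - 2 * l)‖ :=
      mul_le_mul h1 h2 p1.le (norm_nonneg _)
    calc s2 / (‖sin (wt τ)‖ * ‖sin (wt τ - 2 * l)‖) * ‖sin (wt τ + 3 * l)‖ ≤
        s2 / ((c * Real.exp |τ|) * (c * Real.exp |τ|)) * Real.exp |τ| := by gcongr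
      _ = s2 / c ^ 2 * Real.exp (-|τ|) := by
          rw [Real.exp_neg]
          field_simp
  have two : ∀ τ : ℝ × ℝ, ‖NUP1.Leg.Dk (wt τ.1 - wt τ.2)‖ ≤
      4 / Real.cos l ^ 2 * Real.exp (-|τ.1 - τ.2|) := by
    intro τ
    obtain ⟨e1, e2, e3⟩ := r1 τ
    have i1 : (wt τ.1 - wt τ.2 + l).im = τ.1 - τ.2 := by simp [wt_im]
    have i2 : (wt τ.1 - wt τ.2 - l).im = τ.1 - τ.2 := by simp [wt_im]
    have i3 : (wt τ.1 - wt τ.2).im = τ.1 - τ.2 := by simp [wt_im]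
    have g1 := norm_cos_ge (v := wt τ.1 - wt τ.2 + l) (b := l) (by rw [e1, abs_of_pos hl]) hlt
    have g2 := norm_cos_ge (v := wt τ.1 - wt τ.2 - l) (b := l) (by rw [e2, abs_neg, abs_of_pos hl]) hlt
    have g3 := cosle (wt τ.1 - wt τ.2)
    rw [i1] at g1
    rw [i2] at g2
    rw [i3] at g3
    rw [Dk_eq, norm_div, norm_mul]
    set E := Real.exp |τ.1 - τ.2| with hE
    have hE0 : 0 < E := Real.exp_pos _
    have h4 : (Real.cos l / 2 * E) * (Real.cos l / 2 * E) ≤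
        ‖cos (wt τ.1 - wt τ.2 + l)‖ * ‖cos (wt τ.1 - wt τ.2 - l)‖ :=
      mul_le_mul g1 g2 (by positivity) (norm_nonneg _)
    calc ‖cos (wt τ.1 - wt τ.2)‖ / (‖cos (wt τ.1 - wt τ.2 + l)‖ * ‖cos (wt τ.1 - wt τ.2 - l)‖) ≤
        E / ((Real.cos l / 2 * E) * (Real.cos l / 2 * E)) := by gcongr
      _ = 4 / Real.cos l ^ 2 * Real.exp (-|τ.1 - τ.2|) := by
          rw [Real.exp_neg, ← hE]
          field_simp
          ring
  refine ⟨s2 / c ^ 2 * (s2 / c ^ 2) * (4 / Real.cos l ^ 2) + 1, by positivity, fun τ => ?_⟩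
  have e : k1T τ = (NUP1.Leg.kap (wt τ.1) * sin (wt τ.1 + 3 * l)) *
      (NUP1.Leg.kap (wt τ.2) * sin (wt τ.2 + 3 * l)) * NUP1.Leg.Dk (wt τ.1 - wt τ.2) := by
    unfold k1T; ring
  rw [e, norm_mul, norm_mul]
  calc _ ≤ (s2 / c ^ 2 * Real.exp (-|τ.1|)) * (s2 / c ^ 2 * Real.exp (-|τ.2|)) *
        (4 / Real.cos l ^ 2 * Real.exp (-|τ.1 - τ.2|)) := by
        gcongr
        · exact one τ.1
        · exact one τ.2
        · exact two τ
    _ = s2 / c ^ 2 * (s2 / c ^ 2) * (4 / Real.cos l ^ 2) *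
        Real.exp (-(|τ.1| + |τ.2| + |τ.1 - τ.2|)) := by
        rw [show -(|τ.1| + |τ.2| + |τ.1 - τ.2|) = -|τ.1| + -|τ.2| + -|τ.1 - τ.2| by ring,
          Real.exp_add, Real.exp_add]
        ring
    _ ≤ _ := by
        refine mul_le_mul_of_nonneg_right ?_ (Real.exp_pos _).le
        linarith

/-- **size of the kernel times the Gaussian factor** -/
theorem k1_exp_le : ∃ A : ℝ, 0 < A ∧ ∀ τ : ℝ × ℝ,
    ‖k1T τ * exp (gF τ)‖ ≤ A * Real.exp (-(3 * (|τ.1| + |τ.2|))) := by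
  obtain ⟨c, hc, h⟩ := sines_ge
  set B := ‖(PBR.rh 0 / PBR.rh l) ^ 6 * sin (2 * (l : ℂ)) ^ 2‖ with hB
  refine ⟨B / c ^ 6 + 1, by positivity, fun τ => ?_⟩
  obtain ⟨a1, a2, a3⟩ := h τ.1
  obtain ⟨b1, b2, b3⟩ := h τ.2
  have pa : 0 < c * Real.exp |τ.1| := by positivity
  have pb : 0 < c * Real.exp |τ.2| := by positivity
  have ha : (c * Real.exp |τ.1|) ^ 3 ≤
      ‖sin (wt τ.1)‖ * ‖sin (wt τ.1 - 2 * l)‖ * ‖sin (wt τ.1 + 3 * l)‖ := by
    rw [pow_three']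
    exact mul_le_mul (mul_le_mul a1 a2 pa.le (norm_nonneg _)) a3 pa.le (by positivity)
  have hb : (c * Real.exp |τ.2|) ^ 3 ≤
      ‖sin (wt τ.2)‖ * ‖sin (wt τ.2 - 2 * l)‖ * ‖sin (wt τ.2 + 3 * l)‖ := by
    rw [pow_three']
    exact mul_le_mul (mul_le_mul b1 b2 pb.le (norm_nonneg _)) b3 pb.le (by positivity)
  rw [k1_exp, norm_div, ← hB, norm_mul, norm_mul, norm_mul, norm_mul, norm_mul]
  have hab := mul_le_mul ha hb (by positivity) (by positivity)
  calc B / (‖sin (wt τ.1)‖ * ‖sin (wt τ.1 - 2 * l)‖ * ‖sin (wt τ.1 + 3 * l)‖ *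
        (‖sin (wt τ.2)‖ * ‖sin (wt τ.2 - 2 * l)‖ * ‖sin (wt τ.2 + 3 * l)‖)) ≤
      B / ((c * Real.exp |τ.1|) ^ 3 * (c * Real.exp |τ.2|) ^ 3) := by gcongr
    _ = B / c ^ 6 * Real.exp (-(3 * (|τ.1| + |τ.2|))) := by
        rw [show -(3 * (|τ.1| + |τ.2|)) = -(3 * |τ.1|) + -(3 * |τ.2|) by ring, Real.exp_add,
          Real.exp_neg, Real.exp_neg, show 3 * |τ.1| = (3 : ℕ) * |τ.1| by norm_num,
          show 3 * |τ.2| = (3 : ℕ) * |τ.2| by norm_num, Real.exp_nat_mul, Real.exp_nat_mul]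
        field_simp
    _ ≤ _ := by
        refine mul_le_mul_of_nonneg_right ?_ (Real.exp_pos _).le
        linarith

/-! ### measurability, the value at the real axis -/

theorem continuous_exp_gF : Continuous fun τ => exp (gF τ) := continuous_gF.cexp

theorem continuous_exp_pF : Continuous fun τ => exp (pF τ) := continuous_pF.cexp

theorem continuous_k1T : Continuous k1T := by
  have c1 : Continuous fun τ : ℝ × ℝ => wt τ.1 := continuous_wt.comp continuous_fst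
  have c2 : Continuous fun τ : ℝ × ℝ => wt τ.2 := continuous_wt.comp continuous_snd
  have hk : ∀ {f : ℝ × ℝ → ℝ}, Continuous f → Continuous fun τ => NUP1.Leg.kap (wt (f τ)) := by
    intro f hf
    have h1 : Continuous fun τ => wt (f τ) := continuous_wt.comp hf
    unfold NUP1.Leg.kap
    refine continuous_const.div (by fun_prop) fun τ => ?_
    exact mul_ne_zero (wt_ne (f τ)).1 (wt_ne (f τ)).2.1
  have hD : Continuous fun τ : ℝ × ℝ => NUP1.Leg.Dk (wt τ.1 - wt τ.2) := by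
    simp only [Dk_eq]
    refine Continuous.div (by fun_prop) (by fun_prop) fun τ => ?_
    obtain ⟨e1, e2, e3⟩ := r1 τ
    exact mul_ne_zero (cos_ne (by rw [e1]; exact lt1)) (cos_ne (by rw [e2, abs_neg]; exact lt1))
  unfold k1T
  have a := hk (f := fun τ => τ.1) continuous_fst
  have b := hk (f := fun τ => τ.2) continuous_snd
  exact ((((a.mul b).mul (by fun_prop)).mul (by fun_prop)).mul hD)

end PBT3

end
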