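import Pool.Agent.NUP1L.Link4
import Pool.Agent.NUMFC.Pre

/-!
# The prefactor of the regular function at rows `0`, ends `0`

`k = m + 1`: `m` rows `0` in each of the two groups and the four ends at `0`.

* `EX_zero`, `FF_zero`: one empty row with its ends, two empty rows: both `κ = (4 + 2 √2) / 16`;
* `Bp_sq`: `Bp 0 0 0^m * Bp 0 0 0^m = (sin l ^ 2) ^ m * κ ^ (m (m + 1))`, exactly, a positive number;
* `AM_eq`: `2 ^ (2 k (2 k - 1)) sin l (Bp * Bp) = pre k / sin l`;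
* **`AM0_match`**: times the mean field value `exp (k ^ 2 ∫ P v)` this is `bulk k / sin l`,
  `bulk k = (2 / 3 (2 + √2)) ^ (2 k (2 k - 1)) (2 / 3) ^ (2 k)`.
-/

set_option autoImplicit false

noncomputable section

open Complex

namespace PBVR

open NUP1 NUP1.Leg
open NUP1.Grand (P)
open NUMFC (pre bulkR MF sq2 sq2_pos sq2_lt)

/-- the value of one empty row with its ends, and of two empty rows -/
def kap0 : ℝ := (4 + 2 * √2) / 16

theorem kap0_pos : 0 < kap0 := by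
  have := sq2_pos
  unfold kap0
  positivity

theorem sin_2l : Real.sin (2 * NUP1.l) ^ 2 = 1 / 2 := by
  rw [show 2 * NUP1.l = Real.pi / 4 by unfold NUP1.l; ring, Real.sin_pi_div_four, div_pow, sq2]
  norm_num

theorem sin_3l : Real.sin (3 * NUP1.l) ^ 2 = (1 + √2 / 2) / 2 := by
  have h7 := Real.cos_two_mul (3 * NUP1.l)
  have h8 : Real.cos (2 * (3 * NUP1.l)) = -(√2 / 2) := by
    rw [show 2 * (3 * NUP1.l) = Real.pi - Real.pi / 4 by unfold NUP1.l; ring, Real.cos_pi_sub,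
      Real.cos_pi_div_four]
  have h9 := Real.sin_sq_add_cos_sq (3 * NUP1.l)
  rw [h8] at h7
  linarith

theorem sin_l_sq : Real.sin NUP1.l ^ 2 = (2 - √2) / 4 := by
  have : Real.cos (2 * NUP1.l) = √2 / 2 := by
    rw [show 2 * NUP1.l = Real.pi / 4 by unfold NUP1.l; ring, Real.cos_pi_div_four]
  have h4 := Real.cos_two_mul NUP1.l
  have h5 := Real.sin_sq_add_cos_sq NUP1.l
  linarith

theorem sin_l_pos : 0 < Real.sin NUP1.l :=
  Real.sin_pos_of_pos_of_lt_pi (by unfold NUP1.l; positivity)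
    (by unfold NUP1.l; linarith [Real.pi_pos])

theorem EX_zero : EX 0 0 0 = ((kap0 : ℝ) : ℂ) := by
  have h : EX 0 0 0 = ((Real.sin (2 * NUP1.l) ^ 2 * Real.sin (3 * NUP1.l) ^ 2 : ℝ) : ℂ) := by
    unfold EX
    push_cast
    rw [show (0 : ℂ) - 0 + 2 * (NUP1.l : ℂ) = 2 * NUP1.l by ring,
      show (0 : ℂ) - 0 + 3 * (NUP1.l : ℂ) = 3 * NUP1.l by ring]
    ring
  rw [h, sin_2l, sin_3l]
  congr 1
  unfold kap0
  ring

theorem FF_zero : FF 0 = ((kap0 : ℝ) : ℂ) := by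
  have h5 : Complex.sin (5 * (NUP1.l : ℂ)) = Complex.sin (3 * NUP1.l) := by
    have h := congrArg (fun x : ℝ => (x : ℂ)) (show Real.sin (5 * NUP1.l) = Real.sin (3 * NUP1.l) by
      rw [show 5 * NUP1.l = Real.pi - 3 * NUP1.l by unfold NUP1.l; ring, Real.sin_pi_sub])
    push_cast at h
    exact h
  have h6 : Complex.sin (6 * (NUP1.l : ℂ)) = Complex.sin (2 * NUP1.l) := by
    have h := congrArg (fun x : ℝ => (x : ℂ)) (show Real.sin (6 * NUP1.l) = Real.sin (2 * NUP1.l) by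
      rw [show 6 * NUP1.l = Real.pi - 2 * NUP1.l by unfold NUP1.l; ring, Real.sin_pi_sub])
    push_cast at h
    exact h
  have h : FF 0 = ((Real.sin (2 * NUP1.l) ^ 2 * Real.sin (3 * NUP1.l) ^ 2 : ℝ) : ℂ) := by
    unfold FF
    simp only [snz, zero_add]
    push_cast
    rw [h5, h6]
    ring
  rw [h, sin_2l, sin_3l]
  congr 1
  unfold kap0
  ring

/-- **the two prefactors at rows `0`, ends `0`** -/
theorem Bp_sq (m : ℕ) : Bp 0 0 (fun _ : Fin m => (0 : ℂ)) * Bp 0 0 (fun _ : Fin m => (0 : ℂ)) =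
    (((Real.sin NUP1.l ^ 2) ^ m * kap0 ^ (m * (m + 1)) : ℝ) : ℂ) := by
  have hP := NUMFC.P_const_sq (m := m) (((kap0 : ℝ) : ℂ))
  have e : Bp 0 0 (fun _ : Fin m => (0 : ℂ)) = (Complex.sin NUP1.l * ((kap0 : ℝ) : ℂ)) ^ m *
      P (fun _ _ : Fin m => ((kap0 : ℝ) : ℂ)) := by
    unfold Bp
    simp only [EX_zero, sub_self, FF_zero, Finset.prod_const, Finset.card_univ, Fintype.card_fin]
  have e2 : m * (m + 1) = 2 * m + m * (m - 1) := by
    rcases m with _ | m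
    · rfl
    · simp only [Nat.add_sub_cancel]
      ring
  rw [e, e2]
  push_cast
  rw [pow_add, ← hP, mul_pow]
  ring

/-- `2 ^ (2 k (2 k - 1))` times the two prefactors, `k = m + 1` -/
theorem Bp_pre (m : ℕ) : (2 : ℝ) ^ (2 * (m + 1) * (2 * (m + 1) - 1)) *
    ((Real.sin NUP1.l ^ 2) ^ m * kap0 ^ (m * (m + 1))) = 4 / (2 - √2) * pre ((m + 1 : ℕ) : ℝ) := by
  have h1 : 0 < 2 - √2 := by linarith [sq2_lt]
  have h2 : (0 : ℝ) < 4 + 2 * √2 := by have := sq2_pos; positivity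
  rw [NUMFC.pre_nat, sin_l_sq, Nat.add_sub_cancel]
  have e0 : 2 * (m + 1) * (2 * (m + 1) - 1) = 2 + 2 * m + 4 * (m * (m + 1)) := by
    have : 2 * (m + 1) - 1 = 2 * m + 1 := by omega
    rw [this]
    ring
  have e1 : (2 : ℝ) ^ (2 * (m + 1) * (2 * (m + 1) - 1)) = 4 * 4 ^ m * 16 ^ (m * (m + 1)) := by
    rw [e0, pow_add, pow_add, pow_mul, pow_mul]
    norm_num
  unfold kap0
  rw [e1, div_pow, div_pow, mul_comm (m + 1) m, pow_succ (2 - √2)]
  field_simp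

/-- **the prefactor, exactly** -/
theorem AM_eq (m : ℕ) : ((2 : ℂ) ^ (2 * (m + 1) * (2 * (m + 1) - 1))) *
    (Complex.sin NUP1.l * (Bp 0 0 (fun _ : Fin m => (0 : ℂ)) * Bp 0 0 (fun _ : Fin m => (0 : ℂ)))) =
      ((pre ((m + 1 : ℕ) : ℝ) / Real.sin NUP1.l : ℝ) : ℂ) := by
  have hs := sin_l_pos
  have h1 : 0 < 2 - √2 := by linarith [sq2_lt]
  have h := Bp_pre m
  have e : pre ((m + 1 : ℕ) : ℝ) / Real.sin NUP1.l = (2 : ℝ) ^ (2 * (m + 1) * (2 * (m + 1) - 1)) *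
      (Real.sin NUP1.l * ((Real.sin NUP1.l ^ 2) ^ m * kap0 ^ (m * (m + 1)))) := by
    have e1 : (4 : ℝ) / (2 - √2) = 1 / Real.sin NUP1.l ^ 2 := by
      rw [sin_l_sq, one_div_div]
    rw [e1] at h
    have : (2 : ℝ) ^ (2 * (m + 1) * (2 * (m + 1) - 1)) *
      (Real.sin NUP1.l * ((Real.sin NUP1.l ^ 2) ^ m * kap0 ^ (m * (m + 1)))) =
      Real.sin NUP1.l * ((2 : ℝ) ^ (2 * (m + 1) * (2 * (m + 1) - 1)) *
        ((Real.sin NUP1.l ^ 2) ^ m * kap0 ^ (m * (m + 1)))) := by ring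
    rw [this, h]
    field_simp
  rw [Bp_sq, e]
  push_cast
  ring

/-- **Prefactor times mean field value = bulk term**, rows `0`, ends `0`, `k = m + 1`. -/
theorem AM0_match (m : ℕ) : (2 : ℝ) ^ (2 * (m + 1) * (2 * (m + 1) - 1)) *
    ‖Complex.sin NUP1.l * (Bp 0 0 (fun _ : Fin m => (0 : ℂ)) * Bp 0 0 (fun _ : Fin m => (0 : ℂ)))‖ *
      Real.exp (MF ((m + 1 : ℕ) : ℝ)) = (Real.sin NUP1.l)⁻¹ *
        ((2 / 3 * (2 + √2)) ^ (2 * (m + 1) * (2 * (m + 1) - 1)) * (2 / 3) ^ (2 * (m + 1))) := by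
  have hs := sin_l_pos
  have h := congrArg norm (AM_eq m)
  rw [norm_mul, norm_pow, Complex.norm_real, Real.norm_eq_abs, abs_of_pos (div_pos
    (NUMFC.pre_pos _) hs), Complex.norm_ofNat] at h
  rw [h, ← NUMFC.bulkR_nat, ← NUMFC.pre_MF]
  ring

end PBVR

end
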