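import Pool.Agent.PB.NzA
import Pool.Agent.PB.ValR
import Pool.Agent.PB.Reg0
import Pool.Agent.PB.TrGR
import Pool.Agent.NUF.FINA

/-!
# (TR): the ratio of the prefactors does not depend on `k`

Rows `0` in both groups (`m` each), ends at `0`, half quanta at `w`, `w'`, legs at `z`.

* `EM z w w'`: the exponential of the mean (over the two species, sea `P` of mass one) of the logarithm
  of (regular / dislocated) one body factor, closed form;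
* `Pf_EM`: `Pf z 0 0 * (EM z w w')⁻¹ ^ m = (b / r²) ^ (2 m² + 4 m + 1) * (rows of the half quanta)`,
  `b = sin 2l sin 3l`, `r = rh 0`;
* **`ratio`**: prefactor of the regular function over the bulk term = `3 / 2 / rh 0`, times the kernel `K1`
  (independent of `m`), times `Pf z 0 0 * (EM z w w')⁻¹ ^ m`; exactly.
-/

set_option autoImplicit false

noncomputable section

open Complex

namespace PBTRat

open NUP1 (l)
open NUP1.Grand (P)
open NUP1.Leg (kap Dk Ck Bp thE)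
open PBR (rh r2 r2_sq rh_zero)
open Pool.Agent.PB (Pf Nu D1 D2 Lp Fp sin3_eq sin2_sq sinl_sq cosl_sq)

/-- `sin 2l sin 3l` -/
def bb : ℂ := sin (2 * l) * sin (3 * l)

theorem sinl_pos : 0 < Real.sin l := PBVR.sin_l_pos

theorem sinl_ne : sin (l : ℂ) ≠ 0 := by
  rw [← Complex.ofReal_sin]
  exact_mod_cast sinl_pos.ne'

/-- `3 sin l * rh 0 = 2 sin 2l sin 3l` -/
theorem rel : 3 * sin (l : ℂ) * rh 0 = 2 * bb := by
  have h1 : sin (2 * (l : ℂ)) = r2 / 2 := by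
    have : (2 * (l : ℂ)) = Real.pi / 4 := by unfold NUP1.l; push_cast; ring
    rw [this, ← PBR.cos_pi4, ← Complex.sin_pi_div_two_sub]
    congr 1
    ring
  have h2 : cos (l : ℂ) = (1 + r2) * sin l := by
    have e1 : 2 * sin (l : ℂ) * cos l = r2 / 2 := by rw [← Complex.sin_two_mul, h1]
    have e2 : sin (l : ℂ) * (cos l - (1 + r2) * sin l) = 0 := by
      have e3 := sinl_sq
      linear_combination e1 / 2 - (1 + r2) * e3 + 1 / 4 * r2_sq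
    rcases mul_eq_zero.1 e2 with h | h
    · exact absurd h sinl_ne
    · linear_combination h
  unfold bb
  rw [rh_zero, sin3_eq, h1, h2]
  linear_combination (-sin (l : ℂ)) * r2_sq

theorem rh0_ne : rh 0 ≠ 0 := PBR.rh_ne_zero (by
  rw [Complex.zero_re, abs_zero]
  have := PBR.l_pos'
  positivity)

theorem bb_ne : bb ≠ 0 := by
  intro h
  have := rel
  rw [h, mul_zero] at this
  exact mul_ne_zero (mul_ne_zero (by norm_num) sinl_ne) rh0_ne this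

/-- **exponential of the mean** of the logarithm of the ratio of the one body factors -/
def EM (z w w' : ℂ) : ℂ := (rh 0 ^ 2 / bb) ^ 4 * (sin w / sin (w + 3 * l)) *
  (sin w' / sin (w' + 3 * l)) * (sin (z + 2 * l) * sin (z + 3 * l) / rh z ^ 2) ^ 2

theorem Lp_zero (z : ℂ) : Lp z 0 = sin (z + 2 * l) * sin (z + 3 * l) := by
  unfold Lp
  rw [sub_zero]

theorem Fp_zero : Fp 0 = bb ^ 2 := by
  unfold Fp bb
  rw [zero_add, zero_add, sub_zero, sub_zero]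
  ring

theorem msq (m : ℕ) : m * m = m * (m - 1) + m := by
  rcases m with _ | m
  · rfl
  · simp only [Nat.add_sub_cancel]
    ring

/-- the prefactor at rows `0` -/
theorem Pf_zero (z : ℂ) (m : ℕ) : Pf z (fun _ : Fin m => (0 : ℂ)) (fun _ : Fin m => (0 : ℂ)) =
    (3 / 2) ^ (2 * m + 1) * sin l * ((sin l * Lp z 0) ^ (2 * m) * (bb ^ 2) ^ (m * (m - 1))) /
      ((rh 0 ^ 2) ^ (m * (m - 1)) * rh z ^ (4 * m) * rh 0 ^ (2 * (m * (m - 1)) + 2 * m) * rh 0) := by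
  have hP := NUMFC.P_const_sq (m := m) (bb ^ 2)
  have hR := NUMFC.P_const_sq (m := m) (rh 0 ^ 2)
  have hN : Nu z (fun _ : Fin m => (0 : ℂ)) * Nu z (fun _ : Fin m => (0 : ℂ)) =
      (sin l * Lp z 0) ^ (2 * m) * (bb ^ 2) ^ (m * (m - 1)) := by
    rw [← hP]
    unfold Nu
    simp only [sub_self, Fp_zero, Finset.prod_const, Finset.card_univ, Fintype.card_fin]
    ring
  have hD : D1 z (fun _ : Fin m => (0 : ℂ)) * D1 z (fun _ : Fin m => (0 : ℂ)) *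
      D2 (fun _ : Fin m => (0 : ℂ)) (fun _ : Fin m => (0 : ℂ)) * rh 0 =
      (rh 0 ^ 2) ^ (m * (m - 1)) * rh z ^ (4 * m) * rh 0 ^ (2 * (m * (m - 1)) + 2 * m) * rh 0 := by
    rw [← hR]
    have e : (rh 0 ^ 2) ^ (m * m) = rh 0 ^ (2 * (m * (m - 1)) + 2 * m) := by
      rw [msq m, ← pow_mul]
      congr 1
      ring
    unfold D1 D2
    simp only [sub_self, sub_zero, Finset.prod_const, Finset.card_univ, Fintype.card_fin]
    rw [← pow_mul (rh 0 ^ 2) m m, e, ← pow_mul (rh z) 2 m]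
    ring
  unfold Pf
  rw [hN, hD, show m + m + 1 = 2 * m + 1 by ring]

/-- algebra of the exponents -/
theorem alg {a b r rz L : ℂ} (X : ℂ) (q m : ℕ) (hr : r ≠ 0) (hL : L ≠ 0) (hz : rz ≠ 0)
    (ha : a = 2 / 3 * (b / r)) :
    (3 / 2) ^ (2 * m + 1) * a * ((a * L) ^ (2 * m) * (b ^ 2) ^ q) /
      ((r ^ 2) ^ q * rz ^ (4 * m) * r ^ (2 * q + 2 * m) * r) *
        ((b / r ^ 2) ^ 4 * X * (rz ^ 2 / L) ^ 2) ^ m = (b / r ^ 2) ^ (2 * q + 6 * m + 1) * X ^ m := by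
  have e1 : (3 / 2 : ℂ) ^ (2 * m + 1) * a * ((a * L) ^ (2 * m) * (b ^ 2) ^ q) =
      (3 / 2 * a) ^ (2 * m + 1) * (L ^ (2 * m) * b ^ (2 * q)) := by
    rw [mul_pow (3 / 2 : ℂ) a, mul_pow a L, ← pow_mul b, pow_succ a]
    ring
  have e2 : (3 / 2 : ℂ) * a = b * r⁻¹ := by
    rw [ha]
    field_simp
  have e3 : ((r ^ 2) ^ q * rz ^ (4 * m) * r ^ (2 * q + 2 * m) * r)⁻¹ =
      r⁻¹ ^ (2 * q) * rz⁻¹ ^ (4 * m) * r⁻¹ ^ (2 * q + 2 * m) * r⁻¹ := by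
    rw [mul_inv, mul_inv, mul_inv, ← pow_mul, inv_pow, inv_pow, inv_pow]
  have h1 : L ^ (2 * m) * L⁻¹ ^ (2 * m) = 1 := by
    rw [← mul_pow, mul_inv_cancel₀ hL, one_pow]
  have h2 : rz⁻¹ ^ (4 * m) * rz ^ (4 * m) = 1 := by
    rw [← mul_pow, inv_mul_cancel₀ hz, one_pow]
  rw [e1, e2, div_eq_mul_inv, e3]
  have e4 : ((b / r ^ 2) ^ 4 * X * (rz ^ 2 / L) ^ 2) ^ m =
      b ^ (4 * m) * r⁻¹ ^ (8 * m) * X ^ m * (rz ^ (4 * m) * L⁻¹ ^ (2 * m)) := by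
    rw [div_eq_mul_inv, div_eq_mul_inv, mul_pow, mul_pow, mul_pow, mul_pow, ← inv_pow, ← pow_mul,
      ← pow_mul, ← pow_mul, ← pow_mul, mul_pow, ← pow_mul]
    ring
  have e5 : (b / r ^ 2) ^ (2 * q + 6 * m + 1) =
      b ^ (2 * q + 6 * m + 1) * r⁻¹ ^ (2 * (2 * q + 6 * m + 1)) := by
    rw [div_eq_mul_inv, mul_pow, ← inv_pow, ← pow_mul]
  rw [e4, e5]
  calc (b * r⁻¹) ^ (2 * m + 1) * (L ^ (2 * m) * b ^ (2 * q)) *
        (r⁻¹ ^ (2 * q) * rz⁻¹ ^ (4 * m) * r⁻¹ ^ (2 * q + 2 * m) * r⁻¹) *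
        (b ^ (4 * m) * r⁻¹ ^ (8 * m) * X ^ m * (rz ^ (4 * m) * L⁻¹ ^ (2 * m)))
      = (L ^ (2 * m) * L⁻¹ ^ (2 * m)) * (rz⁻¹ ^ (4 * m) * rz ^ (4 * m)) *
          (b ^ (2 * q + 6 * m + 1) * r⁻¹ ^ (2 * (2 * q + 6 * m + 1)) * X ^ m) := by
        rw [mul_pow b r⁻¹]
        ring
    _ = _ := by rw [h1, h2, one_mul, one_mul]

/-- **the prefactor of the dislocated function against the mean field** -/
theorem Pf_EM {z w w' : ℂ} (hz : rh z ≠ 0) (h2 : sin (z + 2 * l) ≠ 0) (h3 : sin (z + 3 * l) ≠ 0)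
    (m : ℕ) :
    Pf z (fun _ : Fin m => (0 : ℂ)) (fun _ : Fin m => (0 : ℂ)) * (EM z w w')⁻¹ ^ m =
      (bb / rh 0 ^ 2) ^ (2 * (m * (m - 1)) + 6 * m + 1) *
        ((sin (w + 3 * l) / sin w) * (sin (w' + 3 * l) / sin w')) ^ m := by
  have hr := rh0_ne
  have hrel : sin (l : ℂ) = 2 / 3 * (bb / rh 0) := by
    field_simp
    linear_combination rel
  have hEM : (EM z w w')⁻¹ = (bb / rh 0 ^ 2) ^ 4 * ((sin (w + 3 * l) / sin w) *
      (sin (w' + 3 * l) / sin w')) * (rh z ^ 2 / (sin (z + 2 * l) * sin (z + 3 * l))) ^ 2 := by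
    unfold EM
    rw [mul_inv, mul_inv, mul_inv, ← inv_pow, ← inv_pow, inv_div, inv_div, inv_div, inv_div]
    ring
  rw [Pf_zero, hEM, Lp_zero]
  exact alg _ _ _ hr (mul_ne_zero h2 h3) hz hrel

/-- the bulk term -/
def bulkT (m : ℕ) : ℂ := (2 * rh 0) ^ (2 * (m + 1) * (2 * (m + 1) - 1)) * (2 / 3) ^ (2 * (m + 1))

theorem kap0_eq : ((PBVR.kap0 : ℝ) : ℂ) = bb ^ 2 := by
  have h3 : sin (3 * (l : ℂ)) ^ 2 = (2 + r2) / 4 := by rw [sin3_eq, cosl_sq]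
  unfold bb PBVR.kap0
  rw [mul_pow, sin2_sq, h3]
  unfold r2
  push_cast
  ring

/-- **the prefactor of the regular function over the bulk term** -/
theorem reg_pre (m : ℕ) : (2 : ℂ) ^ (2 * (m + 1) * (2 * (m + 1) - 1)) *
    (sin l * (Bp 0 0 (fun _ : Fin m => (0 : ℂ)) * Bp 0 0 (fun _ : Fin m => (0 : ℂ)))) / bulkT m =
      3 / 2 / rh 0 * (bb / rh 0 ^ 2) ^ (2 * (m * (m - 1)) + 6 * m + 1) := by
  have hr := rh0_ne
  have hb := bb_ne
  have hrel : 3 / 2 * sin (l : ℂ) = bb * (rh 0)⁻¹ := by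
    field_simp
    linear_combination rel
  have hB : Bp 0 0 (fun _ : Fin m => (0 : ℂ)) * Bp 0 0 (fun _ : Fin m => (0 : ℂ)) =
      (sin l ^ 2) ^ m * (bb ^ 2) ^ (m * (m + 1)) := by
    rw [PBVR.Bp_sq]
    push_cast
    rw [kap0_eq]
  rw [hB]
  unfold bulkT
  set q := m * (m - 1) with hq
  have hq1 : m * (m + 1) = q + 2 * m := by rw [mul_add, msq m, ← hq]; ring
  have hE : 2 * (m + 1) * (2 * (m + 1) - 1) = 4 * q + 10 * m + 2 := by
    have : 2 * (m + 1) - 1 = 2 * m + 1 := by omega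
    rw [this]
    have := msq m
    rw [← hq] at this
    nlinarith
  rw [hq1, hE]
  have e1 : (2 : ℂ) ^ (4 * q + 10 * m + 2) * (sin l * ((sin l ^ 2) ^ m * (bb ^ 2) ^ (q + 2 * m))) /
      ((2 * rh 0) ^ (4 * q + 10 * m + 2) * (2 / 3) ^ (2 * (m + 1))) =
      3 / 2 * ((3 / 2 * sin l) ^ (2 * m + 1) * bb ^ (2 * (q + 2 * m)) *
        (rh 0)⁻¹ ^ (4 * q + 10 * m + 2)) := by
    have h2 : (2 : ℂ) ^ (4 * q + 10 * m + 2) ≠ 0 := pow_ne_zero _ (by norm_num)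
    have h3 : ((2 / 3 : ℂ) ^ (2 * (m + 1)))⁻¹ = (3 / 2) ^ (2 * m + 1) * (3 / 2) := by
      rw [← inv_pow, ← pow_succ]
      norm_num
      congr 1
    rw [mul_pow (2 : ℂ) (rh 0), div_eq_mul_inv, mul_inv, mul_inv, h3, mul_pow (3 / 2 : ℂ), ← inv_pow,
      ← pow_mul, ← pow_mul, ← inv_pow (rh 0)]
    have h4 : (2 : ℂ) ^ (4 * q + 10 * m + 2) * (2 : ℂ)⁻¹ ^ (4 * q + 10 * m + 2) = 1 := by
      rw [← mul_pow]; norm_num
    calc (2 : ℂ) ^ (4 * q + 10 * m + 2) * (sin l * (sin l ^ (2 * m) * bb ^ (2 * (q + 2 * m)))) *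
          ((2 : ℂ)⁻¹ ^ (4 * q + 10 * m + 2) * (rh 0)⁻¹ ^ (4 * q + 10 * m + 2) *
            ((3 / 2) ^ (2 * m + 1) * (3 / 2)))
        = ((2 : ℂ) ^ (4 * q + 10 * m + 2) * (2 : ℂ)⁻¹ ^ (4 * q + 10 * m + 2)) *
          (3 / 2 * ((3 / 2) ^ (2 * m + 1) * (sin l ^ (2 * m) * sin l) * bb ^ (2 * (q + 2 * m)) *
            (rh 0)⁻¹ ^ (4 * q + 10 * m + 2))) := by ring
      _ = _ := by rw [h4, one_mul, ← pow_succ]
  rw [e1, hrel]
  have e2 : (bb / rh 0 ^ 2) ^ (2 * q + 6 * m + 1) =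
      bb ^ (2 * q + 6 * m + 1) * (rh 0)⁻¹ ^ (2 * (2 * q + 6 * m + 1)) := by
    rw [div_eq_mul_inv, mul_pow, ← inv_pow, ← pow_mul]
  rw [e2, mul_pow bb]
  ring

theorem bulkT_eq (m : ℕ) : bulkT m = ((Pool.Agent.NUF.bulk (m + 1) : ℝ) : ℂ) := by
  unfold bulkT Pool.Agent.NUF.bulk
  rw [rh_zero]
  unfold r2
  push_cast
  congr 2
  ring

/-- **(h4), exactly**: prefactor of the regular function over the bulk term = `3 / 2 / rh 0` times the
kernel of the two half quanta times (prefactor of the dislocated function / mean field ^ m) -/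
theorem ratio {z w w' : ℂ} (hz : rh z ≠ 0) (h2 : sin (z + 2 * l) ≠ 0) (h3 : sin (z + 3 * l) ≠ 0)
    (m : ℕ) :
    (2 : ℂ) ^ (2 * (m + 1) * (2 * (m + 1) - 1)) *
      (sin l * (Bp 0 0 (fun _ : Fin m => (0 : ℂ)) * Bp 0 0 (fun _ : Fin m => (0 : ℂ)))) /
        ((Pool.Agent.NUF.bulk (m + 1) : ℝ) : ℂ) * (PBX.kf0 m w * PBX.kf0 m w' * Dk (w - w')) =
      3 / 2 / rh 0 * (kap w * kap w' * sin (w + 3 * l) * sin (w' + 3 * l) * Dk (w - w')) *
        (Pf z (fun _ : Fin m => (0 : ℂ)) (fun _ : Fin m => (0 : ℂ)) * (EM z w w')⁻¹ ^ m) := by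
  rw [← bulkT_eq, reg_pre, Pf_EM hz h2 h3]
  unfold PBX.kf0
  rw [mul_pow]
  ring

/-- the same at the heights `τ` of the half quanta -/
theorem ratio_wt (τ : ℝ × ℝ) (m : ℕ) :
    (2 : ℂ) ^ (2 * (m + 1) * (2 * (m + 1) - 1)) *
      (sin l * (Bp 0 0 (fun _ : Fin m => (0 : ℂ)) * Bp 0 0 (fun _ : Fin m => (0 : ℂ)))) /
        ((Pool.Agent.NUF.bulk (m + 1) : ℝ) : ℂ) *
          (PBX.kf0 m (PBT3.wt τ.1) * PBX.kf0 m (PBT3.wt τ.2) * Dk (PBT3.wt τ.1 - PBT3.wt τ.2)) =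
      3 / 2 / rh 0 * PBT3.k1T τ *
        (Pf (PBT3.zt τ) (fun _ : Fin m => (0 : ℂ)) (fun _ : Fin m => (0 : ℂ)) *
          (EM (PBT3.zt τ) (PBT3.wt τ.1) (PBT3.wt τ.2))⁻¹ ^ m) := by
  have hl := PBR.l_pos'
  have hz := PBT3.zt_re τ
  have hre : ∀ k : ℝ, (PBT3.zt τ + (k : ℂ) * l).re = k * l - l / 4 := by
    intro k
    rw [Complex.add_re, hz]
    simp
    ring
  have hs : ∀ k : ℝ, 1 / 4 < k → k < 8 → sin (PBT3.zt τ + (k : ℂ) * l) ≠ 0 := by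
    intro k hk hk'
    have h1 : Real.sin (PBT3.zt τ + (k : ℂ) * l).re ≠ 0 := by
      rw [hre]
      exact NURow.sin_ne_pos (by nlinarith) (by nlinarith)
    intro h0
    have h2 := PBR.norm_sin_ge (PBT3.zt τ + (k : ℂ) * l)
    rw [h0, norm_zero] at h2
    have h3 : 0 < |Real.sin (PBT3.zt τ + (k : ℂ) * l).re| / 2 *
        Real.exp |(PBT3.zt τ + (k : ℂ) * l).im| := by
      have := abs_pos.2 h1
      positivity
    linarith
  have h2 := hs 2 (by norm_num) (by norm_num)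
  have h3 := hs 3 (by norm_num) (by norm_num)
  push_cast at h2 h3
  refine ratio ?_ h2 h3 m
  refine PBR.rh_ne_zero ?_
  rw [hz, abs_lt]
  constructor <;> nlinarith

end PBTRat

end
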