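import Pool.Agent.PB.RowsH
import Pool.Agent.PB.TRAs
import Pool.Agent.PB.TRRat

/-!
# The normaliser of the physical function for ARBITRARY rows and ends, exactly (helper39)

`Lt d = sin (d + 2 l) sin (d + 3 l)`, `eT d = Lt d / rh d ^ 2`: the exponential of the mean field of one end at
distance `d` from a row (`leg_eT`), `(eT d * eT (-d))⁻¹` = exponential of the mean field of a row in the sea of
another one at distance `d` (`row_eT`).

* **`Bp_eT`** : `Bp p q x = Bb x p q * ∏ i j, eT (x i - x j) * ∏ i, (eT (p - x i) * eT (q - x i))`,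
  `Bb x p q = (2/3 rh 0)^m * ∏ i ≠ j, rh (x i - x j) ^ 2 * ∏ i, (rh (p - x i) * rh (q - x i)) ^ 2`: all complex rows;
* **`nrm_eT`** : `sin l * Bp p q x * Bp q p x` against `bulkG x p q`;
* `Cnt.pair` : the double products for rows in three places.
-/

set_option autoImplicit false
set_option linter.unusedSectionVars false
set_option linter.unusedVariables false

noncomputable section

open Complex MeasureTheory

namespace PBX

open NUP1 NUP1S NUP1.Bd NURow
open NUP1.Leg (Bp EX FF)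
open NUP1.Grand (P)
open NUP1.Mu (P_both P_congr)
open PBR (rh rh_neg rh_ne_zero)

/-- one end at distance `d` from a row -/
def Lt (d : ℂ) : ℂ := sin (d + 2 * l) * sin (d + 3 * l)

/-- exponential of the mean field of one end at distance `d` from a row -/
def eT (d : ℂ) : ℂ := Lt d / rh d ^ 2

theorem EX_Lt (r o' z : ℂ) : EX r o' z = Lt (r - z) * Lt (o' - z) := rfl

theorem FF_Lt (z : ℂ) : FF z = Lt z * Lt (-z) := by
  unfold NUP1.Leg.FF Lt
  rw [← NUP1.Leg.z2, ← NUP1.Leg.z3, ← NUP1.Leg.z5, ← NUP1.Leg.z6,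
    show -z + 2 * (l : ℂ) = 2 * l - z by ring, show -z + 3 * (l : ℂ) = 3 * l - z by ring]
  ring

/-- `3 sin l rh 0 = 2 Lt 0` -/
theorem Lt_zero : 3 * sin (l : ℂ) * rh 0 = 2 * Lt 0 := by
  have h := PBTRat.rel
  unfold PBTRat.bb at h
  unfold Lt
  rw [zero_add, zero_add]
  exact h

theorem rh_zero_ne : rh 0 ≠ 0 := PBTRat.rh0_ne

theorem Lt_eT {d : ℂ} (h : |d.re| < 5 * l) : Lt d = eT d * rh d ^ 2 := by
  unfold eT
  rw [div_mul_cancel₀ _ (pow_ne_zero 2 (rh_ne_zero h))]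

theorem sin_l_eT : sin (l : ℂ) = 2 / 3 * rh 0 * eT 0 := by
  have h := Lt_zero
  have h0 := rh_zero_ne
  have hl := Bd.l_pos
  rw [Lt_eT (d := 0) (by rw [zero_re, abs_zero]; positivity)] at h
  have h1 : rh 0 * (3 * sin (l : ℂ) - 2 * rh 0 * eT 0) = 0 := by linear_combination h
  rcases mul_eq_zero.1 h1 with h2 | h2
  · exact absurd h2 h0
  · linear_combination h2 / 3

variable {m : ℕ}

/-- the part of the prefactor which belongs to the bulk -/
def Bb (x : Fin m → ℂ) (p q : ℂ) : ℂ := (2 / 3 * rh 0) ^ m *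
  (∏ i, ∏ j, if i = j then 1 else rh (x i - x j) ^ 2) * ∏ i, (rh (p - x i) * rh (q - x i)) ^ 2

/-- `P FF` as a product over all ordered pairs -/
theorem P_FF_Lt (x : Fin m → ℂ) : P (fun i j => FF (x i - x j)) =
    ∏ i, ∏ j, if i = j then 1 else Lt (x i - x j) := by
  rw [← P_both fun i j => Lt (x i - x j)]
  refine P_congr fun i j _ => ?_
  rw [FF_Lt, neg_sub]

/-- **the prefactor of one group, all rows** -/
theorem Bp_eT (x : Fin m → ℂ) (p q : ℂ) (hx : ∀ i j, |(x i - x j).re| < 5 * l)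
    (hp : ∀ i, |(p - x i).re| < 5 * l) (hq : ∀ i, |(q - x i).re| < 5 * l) :
    Bp p q x = Bb x p q * (∏ i, ∏ j, eT (x i - x j)) * ∏ i, (eT (p - x i) * eT (q - x i)) := by
  unfold NUP1.Leg.Bp Bb
  rw [P_FF_Lt]
  have e1 : ∀ i : Fin m, (∏ j, if i = j then 1 else Lt (x i - x j)) * (2 / 3 * rh 0 * eT 0) =
      2 / 3 * rh 0 * (∏ j, if i = j then 1 else rh (x i - x j) ^ 2) * ∏ j, eT (x i - x j) := by
    intro i
    have e2 : ∏ j, eT (x i - x j) = eT 0 * ∏ j, if i = j then 1 else eT (x i - x j) := by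
      rw [← Finset.mul_prod_erase Finset.univ _ (Finset.mem_univ i),
        ← Finset.mul_prod_erase Finset.univ (fun j => if i = j then 1 else eT (x i - x j))
          (Finset.mem_univ i), if_pos rfl, one_mul, sub_self]
      congr 1
      refine Finset.prod_congr rfl fun j hj => ?_
      rw [if_neg (Finset.ne_of_mem_erase hj).symm]
    have e3 : (∏ j, if i = j then 1 else Lt (x i - x j)) =
        (∏ j, if i = j then 1 else rh (x i - x j) ^ 2) * ∏ j, if i = j then 1 else eT (x i - x j) := by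
      rw [← Finset.prod_mul_distrib]
      refine Finset.prod_congr rfl fun j _ => ?_
      split_ifs
      · rw [one_mul]
      · rw [Lt_eT (hx i j)]
        ring
    rw [e2, e3]
    ring
  have e4 : ∏ i, (sin (l : ℂ) * EX p q (x i)) = (∏ _i : Fin m, (2 / 3 * rh 0 * eT 0)) *
      ((∏ i, (rh (p - x i) * rh (q - x i)) ^ 2) * ∏ i, (eT (p - x i) * eT (q - x i))) := by
    rw [← Finset.prod_mul_distrib, ← Finset.prod_mul_distrib]
    refine Finset.prod_congr rfl fun i _ => ?_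
    rw [EX_Lt, Lt_eT (hp i), Lt_eT (hq i), sin_l_eT]
    ring
  rw [e4]
  have e5 : (∏ i, ∏ j, if i = j then 1 else Lt (x i - x j)) * (∏ _i : Fin m, (2 / 3 * rh 0 * eT 0)) =
      (2 / 3 * rh 0) ^ m * (∏ i, ∏ j, if i = j then 1 else rh (x i - x j) ^ 2) *
        ∏ i, ∏ j, eT (x i - x j) := by
    rw [← Finset.prod_mul_distrib, Finset.prod_congr rfl fun i _ => e1 i, Finset.prod_mul_distrib,
      Finset.prod_mul_distrib, Finset.prod_const, Finset.card_univ, Fintype.card_fin]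
  linear_combination ((∏ i, (rh (p - x i) * rh (q - x i)) ^ 2) * ∏ i, (eT (p - x i) * eT (q - x i))) * e5

/-- **the bulk factor of `2 m + 2` rows**: `x`, `x`, `p`, `q` -/
def bulkG (x : Fin m → ℂ) (p q : ℂ) : ℂ := 2 ^ (2 * (m + 1) * (2 * (m + 1) - 1)) * (4 / 9) *
  Bb x p q ^ 2 * rh (p - q) ^ 2

/-- the mean field part of the normaliser -/
def eN (x : Fin m → ℂ) (p q : ℂ) : ℂ :=
  ((∏ i, ∏ j, eT (x i - x j)) * ∏ i, (eT (p - x i) * eT (q - x i))) ^ 2

theorem Bb_comm (x : Fin m → ℂ) (p q : ℂ) : Bb x q p = Bb x p q := by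
  unfold Bb
  congr 1
  exact Finset.prod_congr rfl fun i _ => by rw [mul_comm]

/-- **the normaliser of arbitrary rows and ends** -/
theorem nrm_eT (x : Fin m → ℂ) (p q : ℂ) (hx : ∀ i j, |(x i - x j).re| < 5 * l)
    (hp : ∀ i, |(p - x i).re| < 5 * l) (hq : ∀ i, |(q - x i).re| < 5 * l) (hpq : |(p - q).re| < 5 * l) :
    2 ^ (2 * (m + 1) * (2 * (m + 1) - 1)) * (sin (l : ℂ) * (Bp p q x * Bp q p x)) =
      bulkG x p q * (9 / 4 * sin (l : ℂ) / rh (p - q) ^ 2 * eN x p q) := by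
  have h := rh_ne_zero hpq
  have e : ∏ i, (eT (q - x i) * eT (p - x i)) = ∏ i, (eT (p - x i) * eT (q - x i)) :=
    Finset.prod_congr rfl fun i _ => mul_comm _ _
  rw [Bp_eT x p q hx hp hq, Bp_eT x q p hx hq hp, Bb_comm x p q, e]
  unfold bulkG eN
  field_simp

/-! ### the mean fields -/

/-- **mean field of an end at `w` in the sea of a row at `x`** -/
theorem leg_eT {w : ℂ} {x : ℝ} (hx : |x| < l) (h0 : -l < w.re) (h1 : w.re < 4 * l) :
    Integrable (fun s : ℝ => NUMF.Pc (s + x * I) * Pool.Agent.PB.fS (w + l - s * I)) ∧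
    Complex.exp (∫ s : ℝ, NUMF.Pc (s + x * I) * Pool.Agent.PB.fS (w + l - s * I)) = eT (w - x) := by
  obtain ⟨h2, h3⟩ := Pool.Agent.PB.leg_mf hx h0 h1
  obtain ⟨a1, a2⟩ := abs_lt.1 hx
  refine ⟨h2, ?_⟩
  have h4 : rh (w - x) ≠ 0 := by
    refine rh_ne_zero ?_
    rw [sub_re, ofReal_re, abs_lt]
    constructor <;> linarith
  unfold eT Lt
  rw [eq_div_iff (pow_ne_zero 2 h4)]
  exact h3

/-- logarithm of (minus) the factor of a row at `y` on the line `Re u = l` -/
def LR (y s : ℝ) : ℂ := -(Pool.Agent.PB.fS (y + l - s * I) + Pool.Agent.PB.fS (-y + l + s * I))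

theorem exp_LR {y : ℝ} (hy : |y| < l) (s : ℝ) : Complex.exp (LR y s) = -rc0 (l + s * I - y) := by
  have hl := Bd.l_pos
  obtain ⟨a1, a2⟩ := abs_lt.1 hy
  have r1 : ((y : ℂ) + l - s * I).re = y + l := by simp
  have r2 : (-(y : ℂ) + l + s * I).re = -y + l := by simp
  have e1 := Pool.Agent.PB.exp_fS (z := (y : ℂ) + l - s * I) (by rw [r1]; linarith) (by rw [r1]; change _ < 5 * l; linarith)
  have e2 := Pool.Agent.PB.exp_fS (z := -(y : ℂ) + l + s * I) (by rw [r2]; linarith) (by rw [r2]; change _ < 5 * l; linarith)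
  have n1 := Pool.Agent.PB.sin_neS (z := (y : ℂ) + l - s * I) (by rw [r1]; linarith) (by rw [r1]; change _ < 8 * l; linarith)
  have n2 := Pool.Agent.PB.sin_neS (z := -(y : ℂ) + l + s * I) (by rw [r2]; linarith) (by rw [r2]; change _ < 8 * l; linarith)
  have r3 : (-(y : ℂ) + l + s * I + 3 * l).re = -y + 4 * l := by
    simp
    ring
  have n3 := Pool.Agent.PB.sin_neS (z := -(y : ℂ) + l + s * I + 3 * l) (by rw [r3]; linarith) (by
    rw [r3]
    change _ < 8 * l
    linarith)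
  have hpi : (8 * (l : ℂ)) = Real.pi := by
    unfold l
    push_cast
    ring
  have e3 : sin ((y : ℂ) + l - s * I + 3 * l) = sin (-(y : ℂ) + l + s * I + 3 * l) := by
    rw [show (y : ℂ) + l - s * I + 3 * l = Real.pi - (-(y : ℂ) + l + s * I + 3 * l) by
      rw [← hpi]; ring, Complex.sin_pi_sub]
  change Complex.exp (Pool.Agent.PB.fS ((y : ℂ) + l - s * I)) = sin ((y : ℂ) + l - s * I) /
    sin ((y : ℂ) + l - s * I + 3 * l) at e1
  change Complex.exp (Pool.Agent.PB.fS (-(y : ℂ) + l + s * I)) = sin (-(y : ℂ) + l + s * I) /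
    sin (-(y : ℂ) + l + s * I + 3 * l) at e2
  change sin (-(y : ℂ) + l + s * I + 3 * l) ≠ 0 at n3
  change sin ((y : ℂ) + l - s * I) ≠ 0 at n1
  change sin (-(y : ℂ) + l + s * I) ≠ 0 at n2
  unfold LR
  rw [Complex.exp_neg, Complex.exp_add, e1, e2, e3]
  unfold rc0
  rw [show (l : ℂ) + s * I - y + 3 * l = -(y : ℂ) + l + s * I + 3 * l by ring,
    show (l : ℂ) + s * I - y = -(y : ℂ) + l + s * I by ring,
    show -(y : ℂ) + l + s * I - 2 * l = -((y : ℂ) + l - s * I) by ring, Complex.sin_neg]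
  field_simp

theorem LR_conj {y : ℝ} (hy : |y| < l) (s : ℝ) : LR (-y) s = (starRingEnd ℂ) (LR y s) := by
  have hl := Bd.l_pos
  obtain ⟨a1, a2⟩ := abs_lt.1 hy
  have hc : ∀ z : ℂ, 0 < z.re → z.re < 5 * l →
      Pool.Agent.PB.fS ((starRingEnd ℂ) z) = (starRingEnd ℂ) (Pool.Agent.PB.fS z) := by
    intro z h0 h1
    unfold Pool.Agent.PB.fS
    rw [map_sub]
    congr 1
    · exact PBTD.LS_conj h0 (by change _ < 8 * l; linarith)
    · rw [← PBTD.LS_conj (by rw [Pool.Agent.PB.re_add3]; change 0 < z.re + 3 * l; linarith) (by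
        rw [Pool.Agent.PB.re_add3]; change z.re + 3 * l < 8 * l; linarith)]
      congr 1
      rw [map_add, map_mul, Complex.conj_ofReal, Complex.conj_ofNat]
  have r1 : ((y : ℂ) + l - s * I).re = y + l := by simp
  have r2 : (-(y : ℂ) + l + s * I).re = -y + l := by simp
  unfold LR
  rw [map_neg, map_add, ← hc _ (by rw [r1]; linarith) (by rw [r1]; linarith),
    ← hc _ (by rw [r2]; linarith) (by rw [r2]; linarith), add_comm]
  congr 2
  · congr 1
    simp [sub_eq_add_neg]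
  · congr 1
    simp [sub_eq_add_neg]

theorem Pc_neg (z : ℂ) : NUMF.Pc (-z) = NUMF.Pc z := by
  unfold NUMF.Pc
  rw [mul_neg, Complex.cosh_neg]

/-- **mean field of a row at `y` in the sea of a row at `x`** -/
theorem int_LR {x y : ℝ} (hx : |x| < l) (hy : |y| < l) :
    Integrable (fun s : ℝ => NUMF.Pc (s + x * I) * LR y s) ∧
    Complex.exp (∫ s : ℝ, NUMF.Pc (s + x * I) * LR y s) * (eT (y - x) * eT (x - y)) = 1 := by
  have hl := Bd.l_pos
  obtain ⟨a1, a2⟩ := abs_lt.1 hy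
  obtain ⟨i1, e1⟩ := leg_eT (w := (y : ℂ)) hx (by rw [ofReal_re]; linarith) (by rw [ofReal_re]; linarith)
  obtain ⟨i2, e2⟩ := leg_eT (w := -(y : ℂ)) (x := -x) (by rwa [abs_neg]) (by rw [neg_re, ofReal_re]; linarith)
    (by rw [neg_re, ofReal_re]; linarith)
  have hf : ∀ s : ℝ, NUMF.Pc ((-s : ℝ) + (-x : ℝ) * I) * Pool.Agent.PB.fS (-(y : ℂ) + l - (-s : ℝ) * I) =
      NUMF.Pc (s + x * I) * Pool.Agent.PB.fS (-(y : ℂ) + l + s * I) := by
    intro s
    rw [show ((-s : ℝ) : ℂ) + (-x : ℝ) * I = -(s + x * I) by push_cast; ring, Pc_neg]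
    congr 2
    push_cast
    ring
  have i3 := i2.comp_neg
  have e3 := integral_neg_eq_self (fun s : ℝ => NUMF.Pc (s + (-x : ℝ) * I) *
    Pool.Agent.PB.fS (-(y : ℂ) + l - s * I)) volume
  simp only [hf] at i3 e3
  have h : (fun s : ℝ => NUMF.Pc (s + x * I) * LR y s) = fun s : ℝ =>
      -(NUMF.Pc (s + x * I) * Pool.Agent.PB.fS (y + l - s * I)) -
        NUMF.Pc (s + x * I) * Pool.Agent.PB.fS (-(y : ℂ) + l + s * I) := by
    funext s
    unfold LR
    ring
  have n1 : eT (y - x) ≠ 0 := by rw [← e1]; exact Complex.exp_ne_zero _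
  have n2 : eT (x - y) ≠ 0 := by
    have e4 := e2
    rw [show -(y : ℂ) - (-x : ℝ) = x - y by push_cast; ring] at e4
    rw [← e4]
    exact Complex.exp_ne_zero _
  rw [h]
  refine ⟨i1.neg.sub i3, ?_⟩
  have s2 : ∫ s : ℝ, (-(NUMF.Pc (s + x * I) * Pool.Agent.PB.fS (y + l - s * I)) -
        NUMF.Pc (s + x * I) * Pool.Agent.PB.fS (-(y : ℂ) + l + s * I)) =
      -(∫ s : ℝ, NUMF.Pc (s + x * I) * Pool.Agent.PB.fS (y + l - s * I)) -
        ∫ s : ℝ, NUMF.Pc (s + x * I) * Pool.Agent.PB.fS (-(y : ℂ) + l + s * I) := by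
    rw [← integral_neg]
    exact integral_sub i1.neg i3
  rw [s2, e3, Complex.exp_sub, Complex.exp_neg, e1, e2,
    show -(y : ℂ) - (-x : ℝ) = x - y by push_cast; ring]
  field_simp

/-- mean field of two rows at distance `d` -/
def mR (d : ℝ) : ℝ := -Real.log (‖eT d‖ * ‖eT (-d)‖)

theorem mR_neg (d : ℝ) : mR (-d) = mR d := by
  unfold mR
  rw [ofReal_neg, neg_neg, mul_comm]

theorem re_int_LR {x y : ℝ} (hx : |x| < l) (hy : |y| < l) :
    (∫ s : ℝ, NUMF.Pc (s + x * I) * LR y s).re = mR (x - y) := by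
  have h := congrArg norm (int_LR hx hy).2
  rw [norm_mul, Complex.norm_exp, norm_mul, norm_one] at h
  have h1 := congrArg Real.log h
  have h0 : ‖eT (y - x)‖ * ‖eT (x - y)‖ ≠ 0 := by
    intro h2
    rw [h2, mul_zero] at h
    exact zero_ne_one h
  rw [Real.log_mul (Real.exp_pos _).ne' h0, Real.log_exp, Real.log_one] at h1
  unfold mR
  rw [ofReal_sub, neg_sub, mul_comm ‖eT (x - y)‖]
  linarith

/-- logarithm of the modulus of a row -/
theorem re_LR {y : ℝ} (hy : |y| < l) (s : ℝ) : (LR y s).re = Real.log ‖rc0 (l + s * I - y)‖ := by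
  have h := congrArg norm (exp_LR hy s)
  rw [Complex.norm_exp, norm_neg] at h
  rw [← h, Real.log_exp]

/-- **the energy of two symmetric contents `± x`, `± y`** -/
theorem sea_eT {x y : ℝ} (hx : |x| < l) (hy : |y| < l) :
    Integrable (fun s : ℝ => (NUMF.Pc (s + x * I)).re * Real.log ‖rc0 (l + s * I - y)‖) ∧
    ∫ s : ℝ, (NUMF.Pc (s + x * I)).re * Real.log ‖rc0 (l + s * I - y)‖ = (mR (x - y) + mR (x + y)) / 2 := by
  obtain ⟨i1, -⟩ := int_LR hx hy
  obtain ⟨i2, -⟩ := int_LR hx (y := -y) (by rwa [abs_neg])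
  have e1 := re_int_LR hx hy
  have e2 := re_int_LR hx (y := -y) (by rwa [abs_neg])
  rw [sub_neg_eq_add] at e2
  have h : (fun s : ℝ => (NUMF.Pc (s + x * I)).re * Real.log ‖rc0 (l + s * I - y)‖) = fun s : ℝ =>
      (1 / 2) * ((NUMF.Pc (s + x * I) * LR y s).re + (NUMF.Pc (s + x * I) * LR (-y) s).re) := by
    funext s
    rw [← re_LR hy, LR_conj hy, mul_re, mul_re, conj_re, conj_im]
    ring
  rw [h]
  refine ⟨(i1.re.add i2.re).const_mul _, ?_⟩
  rw [integral_const_mul]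
  have s1 := integral_add i1.re i2.re
  have t1 : ∫ s : ℝ, (NUMF.Pc (s + x * I) * LR y s).re = mR (x - y) := by
    rw [← e1]
    exact integral_re i1
  have t2 : ∫ s : ℝ, (NUMF.Pc (s + x * I) * LR (-y) s).re = mR (x + y) := by
    rw [← e2]
    exact integral_re i2
  have s2 : ∫ s : ℝ, ((NUMF.Pc (s + x * I) * LR y s).re + (NUMF.Pc (s + x * I) * LR (-y) s).re) =
      mR (x - y) + mR (x + y) := by
    rw [← t1, ← t2]
    exact s1
  rw [s2]
  ring

/-! ### rows in three places -/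

theorem Cnt.pair {x : Fin m → ℂ} {n0 np nm : ℕ} (h : Cnt x n0 np nm) (f : ℂ → ℂ) :
    ∏ i, ∏ j, f (x i - x j) = f 0 ^ (n0 ^ 2 + np ^ 2 + nm ^ 2) *
      (f ((l : ℂ) / 2) * f (-((l : ℂ) / 2))) ^ (n0 * (np + nm)) * (f l * f (-l)) ^ (np * nm) := by
  have e1 : ∀ i, ∏ j, f (x i - x j) = (fun a : ℂ => f a ^ n0 * f (a - (l : ℂ) / 2) ^ np *
      f (a + (l : ℂ) / 2) ^ nm) (x i) := by
    intro i
    beta_reduce
    rw [h.pr fun b => f (x i - b), sub_zero, sub_neg_eq_add]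
  rw [Finset.prod_congr rfl fun i _ => e1 i, h.pr fun a : ℂ => f a ^ n0 * f (a - (l : ℂ) / 2) ^ np *
      f (a + (l : ℂ) / 2) ^ nm]
  beta_reduce
  rw [zero_sub, zero_add, sub_self, neg_add_cancel, show (l : ℂ) / 2 + l / 2 = l by ring,
    show -((l : ℂ) / 2) - l / 2 = -l by ring]
  ring

/-- the energy of the content `a` rows `0`, `b` rows `± l / 2` -/
def EMm (a b : ℝ) : ℝ := a ^ 2 * mR 0 + 2 * (a * b) * mR (l / 2) + b ^ 2 * ((mR 0 + mR l) / 2)

/-- the two orientations of an end -/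
def AT (d : ℝ) : ℝ := Real.log (‖eT d‖ / ‖eT (-d)‖)

/-- the normaliser over the bulk -/
def nG (x : Fin m → ℂ) (p q : ℂ) : ℂ :=
  2 ^ (2 * (m + 1) * (2 * (m + 1) - 1)) * (sin (l : ℂ) * (Bp p q x * Bp q p x)) / bulkG x p q

theorem eT_ne {d : ℂ} (h : |d.re| < 2 * l) : eT d ≠ 0 := by
  have hl := Bd.l_pos
  obtain ⟨h1, h2⟩ := abs_lt.1 h
  unfold eT Lt
  refine div_ne_zero (mul_ne_zero ?_ ?_) (pow_ne_zero 2 (rh_ne_zero (by linarith)))
  · refine Pool.Agent.PB.sin_neS ?_ ?_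
    · simp
      linarith
    · change _ < 8 * l
      simp
      linarith
  · refine Pool.Agent.PB.sin_neS ?_ ?_
    · simp
      linarith
    · change _ < 8 * l
      simp
      linarith

theorem bulkG_ne (x : Fin m → ℂ) (p q : ℂ) (hx : ∀ i j, |(x i - x j).re| < 5 * l)
    (hp : ∀ i, |(p - x i).re| < 5 * l) (hq : ∀ i, |(q - x i).re| < 5 * l) (hpq : |(p - q).re| < 5 * l) :
    bulkG x p q ≠ 0 := by
  have h0 := rh_zero_ne
  unfold bulkG Bb
  refine mul_ne_zero (mul_ne_zero (mul_ne_zero (pow_ne_zero _ two_ne_zero) (by norm_num)) (pow_ne_zero 2 (mul_ne_zero (mul_ne_zero ?_ ?_) ?_)))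
    (pow_ne_zero 2 (rh_ne_zero hpq))
  · exact pow_ne_zero _ (mul_ne_zero (by norm_num) h0)
  · refine Finset.prod_ne_zero_iff.2 fun i _ => Finset.prod_ne_zero_iff.2 fun j _ => ?_
    split_ifs
    · exact one_ne_zero
    · exact pow_ne_zero 2 (rh_ne_zero (hx i j))
  · exact Finset.prod_ne_zero_iff.2 fun i _ => pow_ne_zero 2
      (mul_ne_zero (rh_ne_zero (hp i)) (rh_ne_zero (hq i)))

theorem nG_eq (x : Fin m → ℂ) (p q : ℂ) (hx : ∀ i j, |(x i - x j).re| < 5 * l)
    (hp : ∀ i, |(p - x i).re| < 5 * l) (hq : ∀ i, |(q - x i).re| < 5 * l) (hpq : |(p - q).re| < 5 * l) :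
    nG x p q = 9 / 4 * sin (l : ℂ) / rh (p - q) ^ 2 * eN x p q := by
  unfold nG
  rw [nrm_eT x p q hx hp hq hpq, mul_div_cancel_left₀ _ (bulkG_ne x p q hx hp hq hpq)]

/-- all differences of rows in three places -/
theorem Cnt.dif {x : Fin m → ℂ} {n0 np nm : ℕ} (h : Cnt x n0 np nm) {p : ℂ} (hp : |p.re| ≤ l / 2) (i : Fin m) :
    |(p - x i).re| ≤ l := by
  have h1 := h.rws i
  rw [sub_re]
  exact (abs_sub _ _).trans (by linarith)

theorem log_eT_zero : -(2 * Real.log ‖eT 0‖) = mR 0 := by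
  unfold mR
  have h : ‖eT 0‖ ≠ 0 := norm_ne_zero_iff.2 (eT_ne (by
    rw [zero_re, abs_zero]
    have := Bd.l_pos
    positivity))
  rw [ofReal_zero, neg_zero, Real.log_mul h h]
  ring

theorem sinl_norm : ‖sin (l : ℂ)‖ = 2 / 3 * ‖rh 0‖ * ‖eT 0‖ := by
  rw [sin_l_eT, norm_mul, norm_mul]
  norm_num

/-- **ends at `0`, rows `0 ^ n0 (l/2) ^ n (-l/2) ^ n`**: the normaliser against the energy of the content
`(n0 + 1, 2 n)` is `1 / sin l`, exactly -/
theorem norm_nG_zero {x : Fin m → ℂ} {n0 n : ℕ} (h : Cnt x n0 n n) :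
    ‖nG x 0 0‖ * Real.exp (EMm (n0 + 1) (2 * n)) = ‖sin (l : ℂ)‖⁻¹ := by
  have hl := Bd.l_pos
  have h0 : |(0 : ℂ).re| ≤ l / 2 := by
    rw [zero_re, abs_zero]
    positivity
  have r0 : |(0 : ℂ).re| < 2 * l := by linarith
  have rl : |((l : ℂ)).re| < 2 * l := by
    rw [ofReal_re, abs_of_pos hl]
    linarith
  have rl' : |(-(l : ℂ)).re| < 2 * l := by rwa [neg_re, abs_neg]
  have rh2 : |((l : ℂ) / 2).re| < 2 * l := by
    rw [re_half, abs_of_pos (by linarith)]
    linarith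
  have rh2' : |(-((l : ℂ) / 2)).re| < 2 * l := by rwa [neg_re, abs_neg]
  have n0' := norm_pos_iff.2 (eT_ne r0)
  have nl := norm_pos_iff.2 (eT_ne rl)
  have nl' := norm_pos_iff.2 (eT_ne rl')
  have nh := norm_pos_iff.2 (eT_ne rh2)
  have nh' := norm_pos_iff.2 (eT_ne rh2')
  have hr := norm_pos_iff.2 rh_zero_ne
  have hp : ∀ i, |((0 : ℂ) - x i).re| < 5 * l := fun i => (h.dif h0 i).trans_lt (by linarith)
  have hx : ∀ i j, |(x i - x j).re| < 5 * l := fun i j => (h.dif (h.rws i) j).trans_lt (by linarith)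
  rw [nG_eq x 0 0 hx hp hp (by rw [sub_zero, zero_re, abs_zero]; positivity)]
  unfold eN
  have e1 : ∏ i, (eT (0 - x i) * eT (0 - x i)) = (eT 0 ^ n0 * eT (-((l : ℂ) / 2)) ^ n *
      eT ((l : ℂ) / 2) ^ n) ^ 2 := by
    rw [Finset.prod_mul_distrib, h.pr fun b => eT (0 - b)]
    beta_reduce
    rw [sub_zero, zero_sub, sub_neg_eq_add, zero_add]
    ring
  rw [h.pair eT, e1, sub_zero]
  have hs := sinl_norm
  have hsp : 0 < ‖sin (l : ℂ)‖ := by
    rw [hs]
    positivity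
  have ms : Real.log ‖sin (l : ℂ)‖ = Real.log (2 / 3) + Real.log ‖rh 0‖ + Real.log ‖eT 0‖ := by
    rw [hs, Real.log_mul (by positivity) n0'.ne', Real.log_mul (by norm_num) hr.ne']
  have m0 : mR 0 = -(2 * Real.log ‖eT 0‖) := log_eT_zero.symm
  have mh : mR (l / 2) = -(Real.log ‖eT ((l : ℂ) / 2)‖ + Real.log ‖eT (-((l : ℂ) / 2))‖) := by
    unfold mR
    push_cast
    rw [Real.log_mul nh.ne' nh'.ne']
  have ml : mR l = -(Real.log ‖eT (l : ℂ)‖ + Real.log ‖eT (-(l : ℂ))‖) := by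
    unfold mR
    rw [Real.log_mul nl.ne' nl'.ne']
  have l23 : Real.log (2 / 3) = Real.log 2 - Real.log 3 := Real.log_div (by norm_num) (by norm_num)
  have l94 : Real.log (9 / 4) = -2 * Real.log (2 / 3) := by
    rw [show (9 / 4 : ℝ) = ((2 / 3) ^ 2)⁻¹ by norm_num, Real.log_inv, Real.log_pow]
    norm_num
  have hn94 : ‖(9 / 4 : ℂ)‖ = 9 / 4 := by norm_num
  simp only [norm_mul, norm_div, norm_pow, hn94]
  refine Real.log_injOn_pos (Set.mem_Ioi.2 (by positivity)) (Set.mem_Ioi.2 (by positivity)) ?_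
  rw [Real.log_mul (by positivity) (by positivity), Real.log_exp, Real.log_mul (by positivity) (by positivity),
    Real.log_div (by positivity) (by positivity), Real.log_mul (by norm_num) (by positivity), Real.log_pow,
    Real.log_pow, Real.log_mul (by positivity) (by positivity), Real.log_mul (by positivity) (by positivity),
    Real.log_mul (by positivity) (by positivity), Real.log_pow, Real.log_pow, Real.log_pow, Real.log_pow,
    Real.log_mul (by positivity) (by positivity), Real.log_mul (by positivity) (by positivity),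
    Real.log_mul (by positivity) (by positivity), Real.log_mul (by positivity) (by positivity),
    Real.log_pow, Real.log_pow, Real.log_pow, Real.log_inv, ms, l94]
  unfold EMm
  rw [m0, mh, ml]
  push_cast
  ring

end PBX

end
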