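import Pool.Agent.PB.ClsFF
import Pool.Agent.PB.OneD
import Pool.Agent.PB.ParZ

/-!
# Plan B, module Cls: the state sum of general rows as the functional of `PB/FDef`

* `decZ_X`: decay of the one body functions of the objects on their final lines;
* `qok_X`: regularity of the one body functions of the quanta in the strip;
* `Z3_FF`, `DZ_FF`: the contour integral (state sum) `= FF Z P n n' η η' 1` for every family of
  admissible curves; `Z a = XX (c a) β (rw a) (rw !a) (gP β (ex a)) (gP (4/3) (ex0 a)) (s1 a) (s2 a)`;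
* `parZ_low`: the radii of the circles of `par0 m` are bounded below.
-/

set_option autoImplicit false
set_option linter.unusedSectionVars false

noncomputable section

open Complex MeasureTheory Finset

namespace PBC

open NUO NUP1 NUCR NUP1S NUP1S.Ab NUP1S.AbC NUP1S.AbG NUGC PBF PBX
open NURow (SpecQ Bdd.mono_set Bdd.cg K1 K2 DecOn_of measurable_RR)
open NUP1.N (Z3)

variable {m : ℕ} {c : Bool → ℂ} {β Q : ℝ} {rw : Bool → Fin m → ℂ} {g g0 s1 s2 : Bool → ℂ → ℂ}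
  {P : NUO.Par}

/-- decay of the one body functions -/
theorem decZ_X (hP : ParC P) (hβ : 0 < β) (hβ' : β ≤ 4 / 3) (hr : ∀ a, Rws (rw a))
    (hg : ∀ a, GOk β (g a)) (hg0 : ∀ a, GOk (4 / 3) (g0 a)) (h : ∀ a, SpecQ a Q (s1 a) (s2 a)) :
    DecZ (fun a => XX (c a) β (rw a) (rw !a) (g a) (g0 a) (s1 a) (s2 a)) P (3 / 5 * NUP1.l)
      (2 * β) Q := by
  have hl := Bd.l_pos
  have D := fun a => dataX (c := c a) hβ hβ' (hr a) (hr !a) (hg a) (hg0 a) (h a)
  refine ⟨fun a => ?_, fun a => ?_, fun a => ?_, fun a r i hi => ?_⟩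
  · refine DecOn_of (Bdd.mono_set (bdd_GX (c := c a) hβ hβ' (hr a) (hr !a) (hg a) (h a)) ?_)
      (by linarith)
    rintro x ⟨h1, h2⟩
    exact Or.inl ⟨h1, h2⟩
  · refine ((D a).dec (some .L)).mono ?_
    rintro x rfl
    have j1 := hP.j1
    have j2 := hP.j2
    constructor <;> simp only [lo4] <;> nlinarith
  · refine ((D a).dec (some .T)).mono ?_
    rintro x rfl
    constructor <;> simp only [lo4] <;> nlinarith
  · refine ((D a).dec (some .S)).mono ?_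
    rintro x rfl
    exact hP.lnO_mem hi .S

/-- regularity of the one body functions of the quanta -/
theorem qok_X {δ : ℝ} (hδ : δ ≤ 1 / 20) (hβ : 0 < β) (hβ' : β ≤ 4 / 3) (hr : ∀ a, Rws (rw a))
    {ex ex0 : Bool → List ℂ} (hex : ∀ a, ∀ w ∈ ex a, |w.re| ≤ l / 2) {q : ℤ}
    (hm1 : ∀ a, Measurable (s1 a)) (hA : ∀ a, SpecAt (3 / 5 * NUP1.l) a q (s1 a)) :
    QOk (fun a => XX (c a) β (rw a) (rw !a) (gP β (ex a)) (gP (4 / 3) (ex0 a)) (s1 a) (s2 a))
      δ (2 * β) q := by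
  have hl := Bd.l_pos
  have hsub : Ks δ ⊆ Set.Icc (3 / 5 * NUP1.l) (21 / 20 * NUP1.l) := fun y hy =>
    ⟨by linarith [hy.1], hy.2.trans (by nlinarith)⟩
  refine ⟨by linarith, fun a => ?_, fun a u hu => ?_, fun a => ?_⟩
  · exact ((measurable_RR (c a) (rw a) (rw !a)).mul
      (measurable_ph β (rw a) (measurable_gP _ _))).mul (hm1 a)
  · have hu := hsub hu
    have h2 := diffAt_RR (c a) (y := rw !a) NPr_A (hr a) hu
    have h3 : DifferentiableAt ℂ (ph β (rw a) (gP β (ex a))) u := by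
      have d1 := DifferentiableAt.fun_finsetProd (𝕜 := ℂ) (u := Finset.univ)
        (f := fun (i : Fin m) s => psi β (s - rw a i)) (x := u) (fun i _ =>
          diffAt_psiw (NQr_A hβ hβ') (hr a i) hu)
      exact (d1.mul (diffAt_gP (NQr_A hβ hβ') (hex a) hu)).const_sub 1
    exact (h2.mul h3).mul ((hA a).df u hu)
  · have h2 := bdd_RR (c a) (hr a) (hr !a) isCompact_Icc NPr_A
    have h3 : Bdd (Set.Icc (3 / 5 * NUP1.l) (21 / 20 * NUP1.l)) (-(2 * β))
        (ph β (rw a) (gP β (ex a))) := by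
      have hW : ∀ w ∈ List.ofFn (rw a) ++ ex a, |w.re| ≤ l / 2 := by
        intro w hw
        rcases List.mem_append.1 hw with h | h
        · obtain ⟨i, rfl⟩ := (List.mem_ofFn' _ _).1 h
          exact hr a i
        · exact hex a w h
      have h := (bdd_gP hβ (K := Set.Icc (3 / 5 * NUP1.l) (21 / 20 * NUP1.l)) isCompact_Icc
        (NQr_A hβ hβ') hW).1
      refine Bdd.cg h fun z _ => ?_
      rw [ph_gP]
      rfl
    have h5 : Bdd (Set.Icc (3 / 5 * NUP1.l) (21 / 20 * NUP1.l)) (-(2 * β + 2 * (sg a * q : ℤ)))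
        (XX (c a) β (rw a) (rw !a) (gP β (ex a)) (gP (4 / 3) (ex0 a)) (s1 a) (s2 a) none) := by
      refine ((h2.mul h3).mul (hA a).bd).rate ?_
      cases a <;> simp [sc, sg, Bd.chg] <;> ring
    exact Bdd.mono_set h5 hsub

/-- **The contour integral is the functional**, any charge `q = n - n'`. -/
theorem Z3_FF (hP : ParC P) (hρ : ∀ r, ∃ ρ0, 0 < ρ0 ∧ ∀ t, ρ0 ≤ P.rad r t) {δ : ℝ} (hδ0 : 0 ≤ δ)
    (hδ : δ ≤ 1 / 20) (hβ : 0 < β) (hβ' : β ≤ 4 / 3) (hr : ∀ a, Rws (rw a))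
    {ex ex0 : Bool → List ℂ} (hex : ∀ a, ∀ w ∈ ex a, |w.re| ≤ l / 2)
    (hex0 : ∀ a, ∀ w ∈ ex0 a, |w.re| ≤ l / 2) {n n' : ℕ} {q : ℤ} (hn : (n : ℤ) - n' = q)
    (h : ∀ a, SpecQ a (q : ℝ) (s1 a) (s2 a)) (hA : ∀ a, SpecAt (3 / 5 * NUP1.l) a q (s1 a))
    {η η' : Crs}
    (hη : ∀ r ≤ n + n', ∀ᵐ O ∂(Measure.pi fun _ : Fin r => nu), CrvR δ (η r O) (η' r O)) :
    Z3 (3 / 5 * NUP1.l) (-(17 / 10 * NUP1.l)) n n'
      (GX (c true) β (rw true) (rw false) (gP β (ex true)) (s1 true))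
      (GX (c false) β (rw false) (rw true) (gP β (ex false)) (s1 false)) =
    PBF.FF (fun a => XX (c a) β (rw a) (rw !a) (gP β (ex a)) (gP (4 / 3) (ex0 a)) (s1 a) (s2 a))
      P n n' η η' (fun _ _ _ _ _ => 1) := by
  have hl := Bd.l_pos
  have hg : ∀ a, GOk β (gP β (ex a)) := fun a => GOk.gP hβ hβ' (hex a)
  have hg0 : ∀ a, GOk (4 / 3) (gP (4 / 3) (ex0 a)) := fun a =>
    GOk.gP (by norm_num) le_rfl (hex0 a)
  have hnR : ((n : ℝ) - n') = q := by exact_mod_cast hn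
  have e := FF_one (Z := fun a => XX (c a) β (rw a) (rw !a) (gP β (ex a)) (gP (4 / 3) (ex0 a))
    (s1 a) (s2 a)) hP.goodQ (by linarith) hP.rm
    (fun a k => measurable_XX (measurable_gP _ _) (measurable_gP _ _) (h a).m1 (h a).m2 k)
    (by linarith : (0 : ℝ) < 2 * β) hρ
    (fun a u h1 h2 => diffAt_GX hβ hβ' (hr a) (hg a) (h a) (Or.inl ⟨h1, h2⟩))
    (decZ_X hP hβ hβ' hr hg hg0 h) hn (qok_X hδ hβ hβ' hr hex (fun a => (h a).m1) hA) hδ0 hδ
    (by linarith [hP.j2]) hη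
  rw [← e]
  have hX := h true
  have hY := h false
  rw [← hnR] at hX hY
  exact stageX hβ hβ' (hr true) (hr false) (hg true) (hg0 true) (hg false) (hg0 false) n n'
    hX hY (lX P) (lY P) (fun p p' k k' i => hP.lnO_mem (by omega) (k i))
    (fun p p' k k' i => hP.lnO_mem (by omega) (k' i))

/-- **The state sum of rows at arbitrary heights is the functional.** -/
theorem DZ_FF (hP : ParC P) (hρ : ∀ r, ∃ ρ0, 0 < ρ0 ∧ ∀ t, ρ0 ≤ P.rad r t) {δ : ℝ} (hδ0 : 0 ≤ δ)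
    (hδ : δ ≤ 1 / 20) (hβ : 0 < β) (hβ' : β ≤ 4 / 3) (hr : ∀ a, Rws (rw a))
    {ex ex0 : Bool → List ℂ} (hex : ∀ a, ∀ w ∈ ex a, |w.re| ≤ l / 2)
    (hex0 : ∀ a, ∀ w ∈ ex0 a, |w.re| ≤ l / 2) (hs : ∀ a, SpA (s1 a))
    (h : ∀ a, SpecQ a 0 (s1 a) (s2 a)) (hA : ∀ a, SpecAt (3 / 5 * NUP1.l) a 0 (s1 a)) (n : ℕ)
    {η η' : Crs}
    (hη : ∀ r ≤ n + n, ∀ᵐ O ∂(Measure.pi fun _ : Fin r => nu), CrvR δ (η r O) (η' r O)) :
    DZ (c true) (c false) (s1 true) (s1 false) (rw true) (rw false) n =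
    PBF.FF (fun a => XX (c a) β (rw a) (rw !a) (gP β (ex a)) (gP (4 / 3) (ex0 a)) (s1 a) (s2 a))
      P n n η η' (fun _ _ _ _ _ => 1) := by
  rw [DZ_GX hβ hβ' (hr true) (hr false) (GOk.gP hβ hβ' (hex true)) (GOk.gP hβ hβ' (hex false))
    (hs true) (hs false) n]
  exact Z3_FF (q := 0) hP hρ hδ0 hδ hβ hβ' hr hex hex0 (by simp) (by simpa using h)
    (by simpa using hA) hη

/-- the radii of the circles of `par0 m` are bounded below -/
theorem parZ_low [NUSea.Sea] (m r : ℕ) :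
    ∃ ρ0, 0 < ρ0 ∧ ∀ t, ρ0 ≤ (NUSea.O.par0 m).rad r t := by
  obtain ⟨C, hC, h⟩ := NUSea.P_le
  have h1 := d0_pos r
  have h2 := l_pos0
  have h4 : 0 ≤ Real.log m := log_nn m
  refine ⟨min (min (NUP1.l * d0 r / (64 * (r + 1) * (1 + Real.log m)))
    (d0 r / (224 * ((r : ℝ) + 1) ^ 2))) (1 / (1 + m * C)), ?_, fun t => ?_⟩
  · exact lt_min (lt_min (by positivity) (by positivity)) (by positivity)
  · rw [NUSea.O.par0_rad]
    unfold NUSea.O.rad0
    refine min_le_min le_rfl ?_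
    have h5 := h t
    have h6 : Real.exp (-(8 / 3) * |t|) ≤ 1 := Real.exp_le_one_iff.2 (by
      have := abs_nonneg t
      linarith)
    have h7 : NUSea.P t ≤ C := h5.trans (mul_le_of_le_one_right hC.le h6)
    have h8 := NUSea.P_pos t
    exact one_div_le_one_div_of_le (by positivity) (by gcongr)

end PBC

end
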