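import Pool.Agent.PB.TRPh

/-!
# Plan B, block R5: the integral over the heights of the half quanta on windows (helper65)

`winW a k`: the window `|τ₁|, |τ₂| ≤ a log k`.

* `nearS_sub_winW`: the near set of (TR) is in the window;
* `out_le`: outside the window the majorant `exp (-mT)` has a small integral;
* `h1_win`: from the integral over larger windows `V e k` (one for every precision `e`) to the fixed
  window `|τ| ≤ 3/8 log k`, error `k ^ (-c0)`, any `c0 < 7/16`;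
* `h2_win`, `meas_win`: the bound (H2) and the measurability on the fixed window;
* `prod_le`: the bound of `k1 * R` from the bound of the class as an extended number;
* **`tr_win`**: `tr_phase` with the hypotheses on the windows `V e k`.
-/

set_option autoImplicit false

noncomputable section

open MeasureTheory Set Filter Topology Complex

namespace PBTR

open Pool.Agent.PB.Rec

/-- the window `|τ₁|, |τ₂| ≤ a log k` -/
def winW (a : ℝ) (k : ℕ) : Set (ℝ × ℝ) :=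
  {τ | |τ.1| ≤ a * Real.log k ∧ |τ.2| ≤ a * Real.log k}

lemma measurableSet_winW (a : ℝ) (k : ℕ) : MeasurableSet (winW a k) := by
  have h1 : MeasurableSet {z : ℝ × ℝ | |z.1| ≤ a * Real.log k} :=
    measurableSet_le continuous_fst.abs.measurable measurable_const
  have h2 : MeasurableSet {z : ℝ × ℝ | |z.2| ≤ a * Real.log k} :=
    measurableSet_le continuous_snd.abs.measurable measurable_const
  exact h1.inter h2

lemma mT_ge1 (τ : ℝ × ℝ) : 5 / 2 * |τ.1| ≤ mT τ := by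
  unfold mT
  have h1 := abs_sub_abs_le_abs_sub τ.1 τ.2
  have h2 := abs_nonneg τ.2
  linarith

lemma mT_ge2 (τ : ℝ × ℝ) : 5 / 2 * |τ.2| ≤ mT τ := by
  unfold mT
  have h1 := abs_sub_abs_le_abs_sub τ.2 τ.1
  rw [abs_sub_comm] at h1
  have h2 := abs_nonneg τ.1
  linarith

/-- **the near set is in the window** -/
lemma nearS_sub_winW {a b : ℝ} (hab : a ≤ 5 / 2 * b) {k : ℕ} (hk : 0 ≤ Real.log k) :
    nearS a k ⊆ winW b k := by
  intro τ hτ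
  have h0 : mT τ ≤ a * Real.log k := hτ
  have h1 := mT_ge1 τ
  have h2 := mT_ge2 τ
  have h3 : a * Real.log k ≤ 5 / 2 * b * Real.log k := mul_le_mul_of_nonneg_right hab hk
  exact ⟨by linarith, by linarith⟩

lemma nearS_sub_win {d : ℝ} (hd : d ≤ 1 / 20) (k : ℕ) : nearS (3 / 8 + d) k ⊆ winW (3 / 8) k :=
  nearS_sub_winW (by linarith) (Real.log_natCast_nonneg k)

/-- outside the window -/
lemma mT_out {a : ℝ} {k : ℕ} {τ : ℝ × ℝ} (h : τ ∉ winW a k) : 5 / 2 * (a * Real.log k) ≤ mT τ := by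
  have h1 := mT_ge1 τ
  have h2 := mT_ge2 τ
  by_contra hc
  push Not at hc
  exact h ⟨by linarith, by linarith⟩

/-- the majorant outside the window -/
lemma exp_out {a : ℝ} {k : ℕ} {τ : ℝ × ℝ} (h : τ ∉ winW a k) :
    Real.exp (-(mT τ)) ≤ Real.exp (-(5 / 4 * (a * Real.log k))) * Real.exp (-(1 * sT τ)) := by
  rw [← Real.exp_add]
  apply Real.exp_le_exp.2
  have h1 := mT_out h
  have h2 := two_sT_le τ
  linarith

lemma int_exp_mT : Integrable fun τ : ℝ × ℝ => Real.exp (-(mT τ)) := by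
  refine (int_esT (θ := 2) (by norm_num)).mono' ?_ (Eventually.of_forall fun τ => ?_)
  · exact (Real.continuous_exp.comp continuous_mT.neg).aestronglyMeasurable
  · rw [Real.norm_eq_abs, abs_of_pos (Real.exp_pos _)]
    exact Real.exp_le_exp.2 (by linarith [two_sT_le τ])

/-- **the part outside the window** -/
theorem out_le : ∃ C : ℝ, 0 < C ∧ ∀ (k : ℕ) (a A : ℝ) (V : Set (ℝ × ℝ)) (F : ℝ × ℝ → ℂ), 0 ≤ A →
    MeasurableSet V → (∀ τ ∈ V, ‖F τ‖ ≤ A * Real.exp (-(mT τ))) →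
    ‖∫ τ in V \ winW a k, F τ‖ ≤ C * (A * Real.exp (-(5 / 4 * (a * Real.log k)))) := by
  have hI := int_esT (θ := 1) (by norm_num)
  have hI0 : 0 ≤ ∫ τ : ℝ × ℝ, Real.exp (-(1 * sT τ)) := integral_nonneg fun τ => (Real.exp_pos _).le
  refine ⟨(∫ τ : ℝ × ℝ, Real.exp (-(1 * sT τ))) + 1, by linarith, ?_⟩
  intro k a A V F hA hV hF
  have hS : MeasurableSet (V \ winW a k) := hV.diff (measurableSet_winW a k)
  set B : ℝ := A * Real.exp (-(5 / 4 * (a * Real.log k))) with hB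
  have hB0 : 0 ≤ B := mul_nonneg hA (Real.exp_pos _).le
  calc ‖∫ τ in V \ winW a k, F τ‖ ≤ ∫ τ in V \ winW a k, B * Real.exp (-(1 * sT τ)) := by
        refine norm_integral_le_of_norm_le (hI.const_mul B).integrableOn ?_
        refine (ae_restrict_mem hS).mono fun τ hτ => ?_
        refine (hF τ hτ.1).trans ?_
        rw [hB, mul_assoc]
        exact mul_le_mul_of_nonneg_left (exp_out hτ.2) hA
    _ ≤ ∫ τ, B * Real.exp (-(1 * sT τ)) :=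
        setIntegral_le_integral (hI.const_mul B) (Eventually.of_forall fun τ =>
          mul_nonneg hB0 (Real.exp_pos _).le)
    _ = (∫ τ : ℝ × ℝ, Real.exp (-(1 * sT τ))) * B := by rw [integral_const_mul, mul_comm]
    _ ≤ _ := mul_le_mul_of_nonneg_right (by linarith) hB0

/-- integrability on a window -/
lemma int_win {A : ℝ} {V : Set (ℝ × ℝ)} {F : ℝ × ℝ → ℂ} (hV : MeasurableSet V)
    (hm : AEStronglyMeasurable F (volume.restrict V))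
    (hF : ∀ τ ∈ V, ‖F τ‖ ≤ A * Real.exp (-(mT τ))) : IntegrableOn F V :=
  (int_exp_mT.const_mul A).integrableOn.mono' hm ((ae_restrict_mem hV).mono fun τ hτ => hF τ hτ)

/-- **(H1) on the fixed window**, error `k ^ (-c0)`, any `c0 < 7/16`; factors `u k` bounded -/
theorem h1_win {n u : ℕ → ℂ} {F : ℕ → ℝ × ℝ → ℂ} {V : ℝ → ℕ → Set (ℝ × ℝ)} {c0 b : ℝ}
    (hc : c0 < 7 / 16) (hu : ∀ᶠ k : ℕ in atTop, ‖u k‖ ≤ b)
    (hVm : ∀ e k, MeasurableSet (V e k))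
    (hVW : ∀ e : ℝ, 0 < e → ∀ᶠ k : ℕ in atTop, winW (3 / 8) k ⊆ V e k)
    (hFm : ∀ e : ℝ, 0 < e → ∀ᶠ k : ℕ in atTop, AEStronglyMeasurable (F k) (volume.restrict (V e k)))
    (hS : ∀ e : ℝ, 0 < e → ∀ᶠ k : ℕ in atTop,
      ‖n k - u k * ∫ τ in V e k, F k τ‖ ≤ (k : ℝ) ^ (-(7 / 16) + e))
    (hN : ∀ e : ℝ, 0 < e → ∀ᶠ k : ℕ in atTop, ∀ τ ∈ V e k,
      ‖F k τ‖ ≤ (k : ℝ) ^ e * Real.exp (-(mT τ))) :
    ∀ᶠ k : ℕ in atTop, ‖n k - u k * ∫ τ in winW (3 / 8) k, F k τ‖ ≤ (k : ℝ) ^ (-c0) := by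
  obtain ⟨C, hC0, hC⟩ := out_le
  set e : ℝ := (7 / 16 - c0) / 2 with he
  have he0 : 0 < e := by rw [he]; linarith
  filter_upwards [hu, hVW e he0, hFm e he0, hS e he0, hN e he0,
    ev_log (Real.log (1 + b * C) / e), ev_one] with k hu hVW hFm hS hN hL hk
  have hk0 : (0 : ℝ) < k := by linarith
  have hb : 0 ≤ b := (norm_nonneg _).trans hu
  have hp : (0 : ℝ) ≤ (k : ℝ) ^ e := Real.rpow_nonneg hk0.le _
  have hq : (0 : ℝ) ≤ (k : ℝ) ^ (-(7 / 16) + e) := Real.rpow_nonneg hk0.le _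
  have hint := int_win (hVm e k) hFm hN
  have h1 := hC k (3 / 8) ((k : ℝ) ^ e) (V e k) (F k) hp (hVm e k) hN
  have h2 : ∫ τ in V e k, F k τ =
      (∫ τ in V e k \ winW (3 / 8) k, F k τ) + ∫ τ in winW (3 / 8) k, F k τ := by
    rw [← setIntegral_union disjoint_sdiff_left (measurableSet_winW _ _)
      (hint.mono_set sdiff_subset) (hint.mono_set hVW), sdiff_union_of_subset hVW]
  have h3 : n k - u k * ∫ τ in winW (3 / 8) k, F k τ =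
      (n k - u k * ∫ τ in V e k, F k τ) + u k * ∫ τ in V e k \ winW (3 / 8) k, F k τ := by
    rw [h2]
    ring
  have h4 : (k : ℝ) ^ e * Real.exp (-(5 / 4 * (3 / 8 * Real.log k))) ≤
      (k : ℝ) ^ (-(7 / 16) + e) := by
    rw [rpow_log hk, rpow_log hk, ← Real.exp_add]
    apply Real.exp_le_exp.2
    have : 0 ≤ Real.log k := Real.log_natCast_nonneg k
    linarith
  have h0 : 0 < 1 + b * C := by positivity
  have h5 : (1 + b * C) * (k : ℝ) ^ (-(7 / 16) + e) ≤ (k : ℝ) ^ (-c0) := by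
    have h6 : 1 + b * C ≤ (k : ℝ) ^ e := by
      rw [rpow_log hk, ← Real.exp_log h0]
      apply Real.exp_le_exp.2
      rw [div_le_iff₀ he0] at hL
      linarith
    calc (1 + b * C) * (k : ℝ) ^ (-(7 / 16) + e) ≤ (k : ℝ) ^ e * (k : ℝ) ^ (-(7 / 16) + e) :=
          mul_le_mul_of_nonneg_right h6 hq
      _ = (k : ℝ) ^ (-c0) := by
          rw [← Real.rpow_add hk0]
          congr 1
          rw [he]
          ring
  rw [h3]
  calc _ ≤ ‖n k - u k * ∫ τ in V e k, F k τ‖ +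
        ‖u k * ∫ τ in V e k \ winW (3 / 8) k, F k τ‖ := norm_add_le _ _
    _ ≤ (k : ℝ) ^ (-(7 / 16) + e) + b * (C * (k : ℝ) ^ (-(7 / 16) + e)) := by
        rw [norm_mul]
        exact add_le_add hS (mul_le_mul hu (h1.trans (mul_le_mul_of_nonneg_left h4 hC0.le))
          (norm_nonneg _) hb)
    _ = (1 + b * C) * (k : ℝ) ^ (-(7 / 16) + e) := by ring
    _ ≤ _ := h5

/-- **(H2) on the fixed window `|τ| ≤ 3/8 log k`** -/
theorem h2_win {F : ℕ → ℝ × ℝ → ℂ} {V : ℝ → ℕ → Set (ℝ × ℝ)}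
    (hVW : ∀ e : ℝ, 0 < e → ∀ᶠ k : ℕ in atTop, winW (3 / 8) k ⊆ V e k)
    (hN : ∀ e : ℝ, 0 < e → ∀ᶠ k : ℕ in atTop, ∀ τ ∈ V e k,
      ‖F k τ‖ ≤ (k : ℝ) ^ e * Real.exp (-(mT τ))) :
    ∀ e : ℝ, 0 < e → ∀ᶠ k : ℕ in atTop, ∀ τ ∈ winW (3 / 8) k,
      ‖F k τ‖ ≤ (k : ℝ) ^ e * Real.exp (-(mT τ)) := by
  intro e he
  filter_upwards [hVW e he, hN e he] with k h1 h2 τ hτ
  exact h2 τ (h1 hτ)

/-- measurability on the fixed window -/
lemma meas_win {F : ℕ → ℝ × ℝ → ℂ} {V : ℝ → ℕ → Set (ℝ × ℝ)}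
    (hVW : ∀ e : ℝ, 0 < e → ∀ᶠ k : ℕ in atTop, winW (3 / 8) k ⊆ V e k)
    (hFm : ∀ e : ℝ, 0 < e → ∀ᶠ k : ℕ in atTop,
      AEStronglyMeasurable (F k) (volume.restrict (V e k))) :
    ∀ᶠ k : ℕ in atTop, AEStronglyMeasurable (F k) (volume.restrict (winW (3 / 8) k)) := by
  filter_upwards [hVW 1 one_pos, hFm 1 one_pos] with k h1 h2
  exact h2.mono_measure (Measure.restrict_mono h1 le_rfl)

/-- the bound of a product from the bound of the class as extended number -/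
lemma prod_le {x y : ℂ} {a : ENNReal} {B : ℝ} (hB : 0 ≤ B) (hy : ‖y‖ₑ ≤ a)
    (h : ‖x‖ₑ * a ≤ ENNReal.ofReal B) : ‖x * y‖ ≤ B := by
  have h1 : ‖x * y‖ₑ ≤ ENNReal.ofReal B := by
    rw [enorm_mul]
    exact (mul_le_mul_right hy _).trans h
  rw [← ofReal_norm] at h1
  exact (ENNReal.ofReal_le_ofReal_iff hB).1 h1

/-- **(TR): `tr_phase` with the hypotheses on the windows `V e k`** -/
theorem tr_win {K : ℕ} {g : ℕ → ℤ → ℂ} {f : ℕ → ℂ → ℂ} {x0 ρ c c1 d A b : ℝ}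
    {r W0 : ℕ → ℝ} {u : ℕ → ℂ} {R : ℕ → ℝ × ℝ → ℂ} {k1 E : ℝ × ℝ → ℂ}
    {V : ℝ → ℕ → Set (ℝ × ℝ)} {G : ℂ}
    (hb : 0 < b) (hu : ∀ᶠ k : ℕ in atTop, ‖u k‖ = b)
    (hx : |x0| ≤ ρ) (hd : 0 < d) (hd' : d ≤ 1 / 20) (hc1 : 3 / 8 < c1) (hc : 3 / 8 < c)
    (hVm : ∀ e k, MeasurableSet (V e k))
    (hVW : ∀ e : ℝ, 0 < e → ∀ᶠ k : ℕ in atTop, winW (3 / 8) k ⊆ V e k)
    (hFm : ∀ e : ℝ, 0 < e → ∀ᶠ k : ℕ in atTop,
      AEStronglyMeasurable (fun τ => k1 τ * R k τ) (volume.restrict (V e k)))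
    (hKm : AEStronglyMeasurable (fun τ => k1 τ * E τ) volume)
    (hS : ∀ e : ℝ, 0 < e → ∀ᶠ k : ℕ in atTop,
      ‖((r k * W0 k : ℝ) : ℂ) - u k * ∫ τ in V e k, k1 τ * R k τ‖ ≤ (k : ℝ) ^ (-(7 / 16) + e))
    (hN : ∀ e : ℝ, 0 < e → ∀ᶠ k : ℕ in atTop, ∀ τ ∈ V e k,
      ‖k1 τ * R k τ‖ ≤ (k : ℝ) ^ e * Real.exp (-(mT τ)))
    (H3 : ∀ᶠ k : ℕ in atTop, ∀ τ ∈ nearS (3 / 8 + d) k,
      ‖k1 τ‖ * ‖R k τ - E τ * f k (zT x0 τ)‖ ≤ (k : ℝ) ^ (-c1))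
    (H4 : ∀ τ, ‖k1 τ * E τ‖ ≤ A * Real.exp (-(3 * sT τ)))
    (H5 : ∀ᶠ k : ℕ in atTop, ∀ z : ℂ, |z.re| ≤ ρ → |z.im| ≤ 9 / 80 * Real.log k →
      ‖f k z - EL (8 / 3) K (g k) z‖ ≤ (k : ℝ) ^ (-(1 : ℝ)))
    (H6 : ∀ᶠ k : ℕ in atTop, ∀ j ∈ Finset.Icc (-(K : ℤ)) K, j ≠ 0 → ‖g k j‖ ≤ (k : ℝ) ^ (-c))
    (H7 : ∀ᶠ k : ℕ in atTop, ∀ t : ℝ, |t| ≤ 9 / 80 * Real.log k →
      ‖f k (I * t)‖ ≤ (k : ℝ) ^ (d / 8) * Real.exp (2 * |t|))
    (H8 : ∃ B : ℝ, ∀ᶠ k : ℕ in atTop, ‖g k 0 - G‖ ≤ B * (k : ℝ) ^ (-c)) :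
    ∃ (c' C : ℝ) (κ : ℂ) (u' : ℕ → ℂ), 3 / 8 < c' ∧ (∀ᶠ k : ℕ in atTop, ‖u' k‖ = 1) ∧
      ∀ᶠ k : ℕ in atTop, ‖((r k * W0 k : ℝ) : ℂ) - u' k * (κ * G)‖ ≤ C * (k : ℝ) ^ (-c') :=
  tr_phase (c0 := 2 / 5) hb hu hx hd hd' (by norm_num) hc1 hc (measurableSet_winW (3 / 8))
    (Eventually.of_forall fun k => nearS_sub_win hd' k) (meas_win hVW hFm) hKm
    (h1_win (c0 := 2 / 5) (b := b) (by norm_num) (hu.mono fun k h => h.le) hVm hVW hFm hS hN)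
    (h2_win hVW hN (d / 8) (by linarith)) H3 H4 H5 H6 H7 H8

end PBTR
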