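import Pool.Agent.PB.Reg3

/-!
# The regular function, general rows: integrability of the class `W W` (helper65)

* `cls_int`: a class with both half quanta on lines without poles has an integrable integrand;
* `RD.Ok.int_WW`: the final class `W W` of general rows;
* `sum_val`, `sum_val_split`, `tail_le`: the sum over the numbers of quanta under the integral, split by a
  measurable set, the remainder in modulus;
* `RD.Ok.WW_win`: the sum of the values is the integral over the window plus a remainder bounded by the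
  moduli.
-/

set_option autoImplicit false
set_option linter.unusedSectionVars false
set_option linter.unusedVariables false

noncomputable section

open Complex MeasureTheory Finset
open scoped ENNReal

namespace PBX

open NUP1 NUP1S NUP1.Bd NURow

/-- the integrand of a class -/
def ig (c : CD) (X Y : Option O3 → ℂ → ℂ) (α : ℝ) (n n' : ℕ)
    (lnX : ∀ p p' : ℕ, (Fin p → O3) → (Fin p' → O3) → Fin p → ℝ)
    (lnY : ∀ p p' : ℕ, (Fin p → O3) → (Fin p' → O3) → Fin p' → ℝ) (y : ℝ × ℝ) : ℂ :=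
  c.pre (vl c.a y.1) (vl c.b y.2) * c.Z X Y α n n' lnX lnY (vl c.a y.1) (vl c.b y.2)

section gen

variable {lo hi : Option O3 → ℝ} {κ cw cw' α : ℝ} {X Y : Option O3 → ℂ → ℂ}
  {lnX : ∀ p p' : ℕ, (Fin p → O3) → (Fin p' → O3) → Fin p → ℝ}
  {lnY : ∀ p p' : ℕ, (Fin p → O3) → (Fin p' → O3) → Fin p' → ℝ}

/-- **integrability of a class** with both half quanta on fixed lines -/
theorem cls_int (hκ : 0 < κ) (hok : OkS lo hi) (hlo : lo none ≤ α) (hhi : α ≤ hi none)
    (hF : FmD lo hi κ 0 (XB X Y)) {c : CD} (v : FxH lo hi κ cw c.a c.S c.K)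
    (v' : FxH lo hi κ cw' c.b c.S' c.K') (hgm : Measurable c.gw)
    (hg : Bdd {c.a - c.b} (2 * (cw * cw')) c.gw) {n n' : ℕ}
    (hQ : c.dX ≤ n → c.dY ≤ n' →
      cw + cw' + (((n - c.dX : ℕ) : ℝ) - ((n' - c.dY : ℕ) : ℝ)) = 0)
    (hl : LnA lo hi lnX lnY) : Integrable (ig c X Y α n n' lnX lnY) := by
  by_cases h : c.dX ≤ n ∧ c.dY ≤ n'
  · obtain ⟨fX, fY⟩ := hF.toX
    have hL : LOk fun k => Set.Icc (lo k) (hi k) := hok
    have i1 : Integrable (JJ X Y c.S c.S' c.gw c.K c.K' α (n - c.dX) (n' - c.dY) lnX lnY c.a c.b)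
        (volume.prod volume) :=
      integrable_JJ hL hκ (hQ h.1 h.2) fX fY v.toH v'.toH hgm hg ⟨hlo, hhi⟩
        (fun p p' k k' i => hl.hX p p' k k' i) (fun p p' k k' i => hl.hY p p' k k' i)
    rw [← Measure.volume_eq_prod] at i1
    refine i1.congr (Filter.Eventually.of_forall fun y => ?_)
    unfold ig CD.Z CD.pre JJ
    rw [if_pos h]
  · have e : ig c X Y α n n' lnX lnY = fun _ => 0 := by
      funext y
      unfold ig CD.Z
      rw [if_neg h, mul_zero]
    rw [e]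
    exact integrable_zero _ _ _

/-! ### the sum over the numbers under the integral -/

variable {c : CD}

theorem val_ig (n n' : ℕ) : c.val X Y α n n' lnX lnY = ∫ y, ig c X Y α n n' lnX lnY y := rfl

/-- the sum over the numbers of quanta of the integrands -/
def igS (c : CD) (X Y : Option O3 → ℂ → ℂ) (α : ℝ) (K : ℕ)
    (lnX : ∀ p p' : ℕ, (Fin p → O3) → (Fin p' → O3) → Fin p → ℝ)
    (lnY : ∀ p p' : ℕ, (Fin p → O3) → (Fin p' → O3) → Fin p' → ℝ) (y : ℝ × ℝ) : ℂ :=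
  c.pre (vl c.a y.1) (vl c.b y.2) *
    ∑ n ∈ range K, c.Z X Y α n n lnX lnY (vl c.a y.1) (vl c.b y.2)

theorem igS_eq (K : ℕ) (y : ℝ × ℝ) : igS c X Y α K lnX lnY y =
    ∑ n ∈ range K, ig c X Y α n n lnX lnY y := by
  unfold igS ig
  rw [Finset.mul_sum]

theorem igS_int {K : ℕ} (h : ∀ n < K, Integrable (ig c X Y α n n lnX lnY)) :
    Integrable (igS c X Y α K lnX lnY) := by
  have e : igS c X Y α K lnX lnY = fun y => ∑ n ∈ range K, ig c X Y α n n lnX lnY y :=
    funext fun y => igS_eq K y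
  rw [e]
  exact integrable_finsetSum _ fun n hn => h n (Finset.mem_range.1 hn)

/-- **the sum of the values as one integral** -/
theorem sum_val {K : ℕ} (h : ∀ n < K, Integrable (ig c X Y α n n lnX lnY)) :
    ∑ n ∈ range K, c.val X Y α n n lnX lnY = ∫ y, igS c X Y α K lnX lnY y := by
  simp only [igS_eq, val_ig]
  rw [integral_finsetSum _ fun n hn => h n (Finset.mem_range.1 hn)]

/-- the integral split by a set -/
theorem sum_val_split {K : ℕ} (h : ∀ n < K, Integrable (ig c X Y α n n lnX lnY))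
    {V : Set (ℝ × ℝ)} (hV : MeasurableSet V) :
    ∑ n ∈ range K, c.val X Y α n n lnX lnY = (∫ y in V, igS c X Y α K lnX lnY y) +
      ∫ y in Vᶜ, igS c X Y α K lnX lnY y := by
  rw [sum_val h, integral_add_compl hV (igS_int h)]

/-- the modulus of the integral over a set -/
theorem tail_le (K : ℕ) (V : Set (ℝ × ℝ)) : ‖∫ y in V, igS c X Y α K lnX lnY y‖ₑ ≤
    ∫⁻ y in V, ‖c.pre (vl c.a y.1) (vl c.b y.2)‖ₑ *
      ∑ n ∈ range K, ‖c.Z X Y α n n lnX lnY (vl c.a y.1) (vl c.b y.2)‖ₑ := by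
  refine (enorm_integral_le_lintegral_enorm _).trans (lintegral_mono fun y => ?_)
  unfold igS
  rw [enorm_mul]
  exact mul_le_mul' le_rfl (enorm_sum_le _ _)

end gen

/-! ### general rows -/

variable {m : ℕ} {D : RD m}

theorem RD.cF_WW_a (D : RD m) : (D.cF .W .W).a = 5 / 4 * l := rfl

theorem RD.cF_WW_b (D : RD m) : (D.cF .W .W).b = 5 / 4 * l := rfl

theorem RD.cF_WW_pre (D : RD m) (w w' : ℂ) :
    (D.cF .W .W).pre w w' = D.KF w * D.KF' w' * Leg.Dk (w - w') := rfl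

theorem RD.cF_WW_Z (D : RD m) (X Y : Option O3 → ℂ → ℂ) (α : ℝ) (n : ℕ)
    (lnX : ∀ p p' : ℕ, (Fin p → O3) → (Fin p' → O3) → Fin p → ℝ)
    (lnY : ∀ p p' : ℕ, (Fin p → O3) → (Fin p' → O3) → Fin p' → ℝ) (w w' : ℂ) :
    (D.cF .W .W).Z X Y α n n lnX lnY w w' =
      ZobjQ (XS true X SF (fl SF) w w') (XS false Y SF (fl SF) w w') α n n lnX lnY := by
  unfold CD.Z
  rw [if_pos ⟨Nat.zero_le _, Nat.zero_le _⟩]
  rfl

/-- **integrability of the class `W W`** -/
theorem RD.Ok.int_WW (H : D.Ok) (hβ : 1 / 2 ≤ D.β) (n : ℕ) {P : NUO.Par} (hP : ParP P) :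
    Integrable (ig (D.cF .W .W) D.X D.Y (3 / 5 * l) n n (lX P) (lY P)) := by
  have m1 := mvH_SF (κ := 1) D.measurable_KF H.PB_KF_A le_rfl
  have m2 := mvH_SF (κ := 1) D.measurable_KF' H.PB_KF'_A le_rfl
  have v1 := m1.fx (Or.inr rfl)
  have v2 := (m2.fx (Or.inr rfl)).flip
  have hg : Bdd {(5 / 4 * l - 5 / 4 * l : ℝ)} (2 * (1 / 2 * (-(1 / 2)))) (gT .W .W) := by
    refine Bdd.mono' gw_X.1.1 ?_
    intro d hd
    rw [Set.mem_singleton_iff] at hd
    have := Bd.l_pos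
    rw [hd]
    exact ⟨by linarith, by linarith⟩
  exact cls_int (c := D.cF .W .W) (κ := 1) (cw := 1 / 2) (cw' := -(1 / 2)) one_pos okS_P le_rfl
    le_rfl (H.fmD (by linarith)) v1 v2 (measurable_gT .W .W) hg (fun _ _ => by
      show (1 / 2 : ℝ) + -(1 / 2) + (((n - 0 : ℕ) : ℝ) - ((n - 0 : ℕ) : ℝ)) = 0
      ring) (lnA_P hP)

/-- the integrand of the class `W W`, summed over the numbers, is integrable -/
theorem RD.Ok.intS_WW (H : D.Ok) (hβ : 1 / 2 ≤ D.β) (K : ℕ) {P : NUO.Par} (hP : ParP P) :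
    Integrable (igS (D.cF .W .W) D.X D.Y (3 / 5 * l) K (lX P) (lY P)) :=
  igS_int fun n _ => H.int_WW hβ n hP

/-- **The sum of the values of the class `W W`: the integral over a set `V` of heights, the remainder
bounded by the moduli.** -/
theorem RD.Ok.WW_win (H : D.Ok) (hβ : 1 / 2 ≤ D.β) (K : ℕ) {P : NUO.Par} (hP : ParP P)
    {V : Set (ℝ × ℝ)} (hV : MeasurableSet V) :
    ‖∑ n ∈ range K, (D.cF .W .W).val D.X D.Y (3 / 5 * l) n n (lX P) (lY P) -
      ∫ y in V, igS (D.cF .W .W) D.X D.Y (3 / 5 * l) K (lX P) (lY P) y‖ₑ ≤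
    ∫⁻ y in Vᶜ, ‖(D.cF .W .W).pre (vl (5 / 4 * l) y.1) (vl (5 / 4 * l) y.2)‖ₑ *
      ∑ n ∈ range K, ‖(D.cF .W .W).Z D.X D.Y (3 / 5 * l) n n (lX P) (lY P)
        (vl (5 / 4 * l) y.1) (vl (5 / 4 * l) y.2)‖ₑ := by
  rw [sum_val_split (fun n _ => H.int_WW hβ n hP) hV, add_sub_cancel_left]
  exact tail_le K Vᶜ

/-- **measurability and integrability of any function equal to a multiple of the integrand** -/
theorem RD.Ok.aesm_WW (H : D.Ok) (hβ : 1 / 2 ≤ D.β) (K : ℕ) {P : NUO.Par} (hP : ParP P)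
    {F : ℝ × ℝ → ℂ} {a : ℂ}
    (hF : ∀ y, F y = a * igS (D.cF .W .W) D.X D.Y (3 / 5 * l) K (lX P) (lY P) y) :
    Integrable F := by
  have e : F = fun y => a * igS (D.cF .W .W) D.X D.Y (3 / 5 * l) K (lX P) (lY P) y := funext hF
  rw [e]
  exact (H.intS_WW hβ K hP).const_mul a

end PBX

end
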