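import Pool.Agent.NUGC.PrefMF
import Pool.Agent.NUGC.ExpS
import Pool.Agent.NUSea.Inst
import Pool.Agent.NUP.MF.StrPsi

/-!
# The sea term of a word (mean field of a spectator group), rows at `0` (sea `seaP`)

`∫ P(t) Re (wd L w t) dt = MW0 L w`, `MW0 L w = ∑ c (H ((3 - k + p) l) - log 2) / 2` over the word
`(k, c)`, `p = w.re / l`.  `MD0 k = H (y + 1) + H (y - 1) - H y - log 2`, `y = 3 - k + p`,
`MD0 k = dl0 y + 2 la (- k - 1)`, `dl0 = 0` for `|y| ≤ 3`, `= 2 Ag (y - 3)` for `3 ≤ y < 4`, even,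
period `8`.  `seaG_eq0`: the sea term of a group at `seaP` is `s * MF0`.
Values at the places of the half quanta: `MF0_W`, `MF0_F`, `MF0_P`, `MF0_Hs`, `MF0_Hp`, `MF0_Hp'`,
`MF0_D`.
-/

set_option autoImplicit false

open MeasureTheory Set Filter Topology

namespace PB0

open NUO hiding Ph
open NUSp NUHM
open NUPref (re_bk la la_per)
open NUMF (Ag)

noncomputable section

/-- value of the sea term of one block -/
def HL0 (w : ℂ) (k : ℤ) : ℝ := (NUMF.H w.im ((3 - k + w.re / NUMF.l) * NUMF.l) - Real.log 2) / 2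

theorem int_bk0 (w : ℂ) (k : ℤ) : Integrable (fun t : ℝ => NUMF.P t * (bk w k (t : ℂ)).re) ∧
    ∫ t : ℝ, NUMF.P t * (bk w k (t : ℂ)).re = HL0 w k := by
  have j1 := NUMF.Ph_integrable w.im ((3 - k + w.re / NUMF.l) * NUMF.l)
  have j4 : Integrable fun s => NUMF.P s * Real.log 2 := NUMF.P_integrable.mul_const _
  have hae : (fun t : ℝ => NUMF.P t * (bk w k (t : ℂ)).re) =ᵐ[volume] fun t =>
      (1 / 2) * (NUMF.P t * NUMF.h (w.im - t) ((3 - k + w.re / NUMF.l) * NUMF.l) -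
        NUMF.P t * Real.log 2) := by
    filter_upwards [NUMF.ae_ne w.im] with t ht
    rw [re_bk w k ht]
    ring
  refine ⟨((j1.sub j4).const_mul (1 / 2)).congr hae.symm, ?_⟩
  have b3 := integral_sub j1 j4
  have b6 : ∫ s, NUMF.P s * Real.log 2 = Real.log 2 := NUMF.integral_P_mul _
  rw [integral_congr_ae hae, integral_const_mul, b3, b6]
  unfold HL0 NUMF.H
  ring

/-! ### words -/

/-- sea term of a word -/
def MW0 (L : List (ℤ × ℝ)) (w : ℂ) : ℝ := (L.map fun kc => kc.2 * HL0 w kc.1).sum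

@[simp] lemma MW0_nil (w : ℂ) : MW0 [] w = 0 := rfl

@[simp] lemma MW0_cons (a : ℤ × ℝ) (L : List (ℤ × ℝ)) (w : ℂ) :
    MW0 (a :: L) w = a.2 * HL0 w a.1 + MW0 L w := by simp [MW0]

theorem int_wd0 (L : List (ℤ × ℝ)) (w : ℂ) :
    Integrable (fun t : ℝ => NUMF.P t * (wd L w (t : ℂ)).re) ∧
    ∫ t : ℝ, NUMF.P t * (wd L w (t : ℂ)).re = MW0 L w := by
  induction L with
  | nil => simp
  | cons a L ih =>
    have hb := int_bk0 w a.1
    have e : (fun t : ℝ => NUMF.P t * (wd (a :: L) w (t : ℂ)).re) =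
        fun t => a.2 * (NUMF.P t * (bk w a.1 (t : ℂ)).re) + NUMF.P t * (wd L w (t : ℂ)).re := by
      funext t
      rw [wd_cons, Complex.add_re, Complex.re_ofReal_mul]
      ring
    rw [e]
    refine ⟨(hb.1.const_mul a.2).add ih.1, ?_⟩
    rw [integral_add (hb.1.const_mul a.2) ih.1, integral_const_mul, hb.2, ih.2, MW0_cons]

/-- **the sea term of a group** on both species together -/
def MF0 (c : Cl) (w : ℂ) : ℝ := MW0 (wX c) w + MW0 (wY c) w

theorem int_gp0 (c : Cl) (s σ : Bool) (w : ℂ) :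
    Integrable (fun t : ℝ => NUMF.P t * (gp s (grp c σ w) (t : ℂ)).re) ∧
    ∫ t : ℝ, NUMF.P t * (gp s (grp c σ w) (t : ℂ)).re = MW0 (wc c (decide (s = σ))) w := by
  have e : (fun t : ℝ => NUMF.P t * (gp s (grp c σ w) (t : ℂ)).re) =
      fun t : ℝ => NUMF.P t * (wd (wc c (decide (s = σ))) w (t : ℂ)).re :=
    funext fun t => by rw [gp_grp]
  rw [e]
  exact int_wd0 _ w

theorem sum_gp0 (c : Cl) (σ : Bool) (w : ℂ) :
    (∫ t : ℝ, NUMF.P t * (gp true (grp c σ w) (t : ℂ)).re) +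
      ∫ t : ℝ, NUMF.P t * (gp false (grp c σ w) (t : ℂ)).re = MF0 c w := by
  rw [(int_gp0 c true σ w).2, (int_gp0 c false σ w).2]
  unfold MF0 wc
  cases σ <;> simp [add_comm]

/-- **the sea term of a group at `seaP` is its mean field value** -/
theorem seaG_eq0 (s : ℝ) (g : NUSea.H0.Gd) :
    @NUGC.seaG NUSea.seaP s g = s * MF0 g.c g.w := by
  have h1 := sum_gp0 g.c g.σ g.w
  have i1 := (int_gp0 g.c true g.σ g.w).1
  have i2 := (int_gp0 g.c false g.σ g.w).1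
  unfold NUGC.seaG
  rw [← h1, ← integral_add i1 i2]
  congr 1
  refine integral_congr_ae (ae_of_all _ fun t => ?_)
  show NUMF.P t * ((NUSp.gp true g.G t).re + (NUSp.gp false g.G t).re) =
    NUMF.P t * (NUSp.gp true (NUSp.grp g.c g.σ g.w) t).re +
      NUMF.P t * (NUSp.gp false (NUSp.grp g.c g.σ g.w) t).re
  have e2 : g.G = NUSp.grp g.c g.σ g.w := rfl
  rw [e2]
  ring

/-! ### the defect of the field equation -/

/-- `H (y + 1) + H (y - 1) - H y - h y`, height `t` -/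
def dl0 (t y : ℝ) : ℝ := NUMF.H t ((y + 1) * NUMF.l) + NUMF.H t ((y - 1) * NUMF.l) -
  NUMF.H t (y * NUMF.l) - NUMF.h t (y * NUMF.l)

theorem dl0_zero (t : ℝ) {y : ℝ} (h1 : |y| ≤ 3) : dl0 t y = 0 := by
  unfold dl0
  rw [NUMF.conv_unit t h1]
  ring

theorem dl0_out (t : ℝ) {y : ℝ} (h1 : 3 ≤ y) (h2 : y < 4) : dl0 t y = 2 * Ag (y - 3) t := by
  have h := NUMF.ext_unit t h1 h2
  have e : NUMF.H t ((y + 1) * NUMF.l) = NUMF.H t ((7 - y) * NUMF.l) := by
    rw [← NUMF.H_refl t (y + 1)]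
    congr 2
    ring
  unfold dl0
  rw [e]
  exact h

theorem dl0_refl (t y : ℝ) : dl0 t (8 - y) = dl0 t y := by
  have e1 : NUMF.H t ((8 - y + 1) * NUMF.l) = NUMF.H t ((y - 1) * NUMF.l) := by
    rw [← NUMF.H_refl t (y - 1)]
    congr 2
    ring
  have e2 : NUMF.H t ((8 - y - 1) * NUMF.l) = NUMF.H t ((y + 1) * NUMF.l) := by
    rw [← NUMF.H_refl t (y + 1)]
    congr 2
    ring
  unfold dl0
  rw [e1, e2, NUMF.H_refl, NUMF.h_refl]
  ring

theorem dl0_neg (t y : ℝ) : dl0 t (-y) = dl0 t y := by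
  have e1 : NUMF.H t ((-y + 1) * NUMF.l) = NUMF.H t ((y - 1) * NUMF.l) := by
    rw [← NUMF.H_neg_right]
    congr 1
    ring
  have e2 : NUMF.H t ((-y - 1) * NUMF.l) = NUMF.H t ((y + 1) * NUMF.l) := by
    rw [← NUMF.H_neg_right]
    congr 1
    ring
  have e3 : NUMF.H t (-y * NUMF.l) = NUMF.H t (y * NUMF.l) := by
    rw [← NUMF.H_neg_right]
    congr 1
    ring
  have e4 : NUMF.h t (-y * NUMF.l) = NUMF.h t (y * NUMF.l) := by
    rw [← NUMF.h_neg_right]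
    congr 1
    ring
  unfold dl0
  rw [e1, e2, e3, e4]
  ring

/-! ### the combinations -/

lemma HL0_per (w : ℂ) (k : ℤ) : HL0 w (k - 8) = HL0 w k := by
  unfold HL0
  rw [← NUMF.H_per w.im ((3 - k + w.re / NUMF.l) * NUMF.l)]
  congr 3
  push_cast
  ring

/-- `H (y + 1) + H (y - 1) - H y - log 2`, `y = 3 - k + p` -/
def MD0 (w : ℂ) (k : ℤ) : ℝ := 2 * (HL0 w (k - 1) + HL0 w (k + 1) - HL0 w k)

theorem MD0_eq (w : ℂ) (k : ℤ) : MD0 w k = dl0 w.im (3 - k + w.re / NUMF.l) +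
    2 * la w (-k - 1) := by
  set p := w.re / NUMF.l with hp
  have e1 : HL0 w (k - 1) = (NUMF.H w.im ((3 - k + p + 1) * NUMF.l) - Real.log 2) / 2 := by
    unfold HL0
    rw [← hp]
    congr 4
    push_cast
    ring
  have e2 : HL0 w (k + 1) = (NUMF.H w.im ((3 - k + p - 1) * NUMF.l) - Real.log 2) / 2 := by
    unfold HL0
    rw [← hp]
    congr 4
    push_cast
    ring
  have e3 : HL0 w k = (NUMF.H w.im ((3 - k + p) * NUMF.l) - Real.log 2) / 2 := rfl
  have e4 : la w (-k - 1) = (NUMF.h w.im ((3 - k + p) * NUMF.l) - Real.log 2) / 2 := by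
    unfold la ls
    rw [← hp, ← NUMF.h_refl w.im (3 - k + p)]
    congr 3
    ring
  unfold MD0 dl0
  rw [e1, e2, e3, e4]
  ring

/-- **the classes** -/
theorem MF0_w (w : ℂ) : MF0 .w w = (MD0 w (-1) - MD0 w 4) / 2 := by
  have e : HL0 w 5 = HL0 w (-3) := by rw [← HL0_per w 5]; norm_num
  unfold MF0 MD0
  simp only [wX, wY, MW0_cons, MW0_nil]
  norm_num
  rw [e]
  ring

theorem MF0_p (w : ℂ) : MF0 .p w = (MD0 w (-1) - 2 * MD0 w 1 + MD0 w (-2)) / 2 := by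
  unfold MF0 MD0
  simp only [wX, wY, MW0_cons, MW0_nil]
  norm_num
  ring

theorem MF0_hs (w : ℂ) : MF0 .hs w =
    (-MD0 w (-1) - 2 * MD0 w (-2) + MD0 w 1 + MD0 w 2 + MD0 w 3) / 2 := by
  unfold MF0 MD0
  simp only [wX, wY, MW0_cons, MW0_nil]
  norm_num
  ring

theorem MF0_hp (w : ℂ) : MF0 .hp w =
    (-2 * MD0 w (-2) + 2 * MD0 w 1 + MD0 w 2 + MD0 w 3 - 2 * MD0 w 4) / 2 := by
  have e : HL0 w 5 = HL0 w (-3) := by rw [← HL0_per w 5]; norm_num
  unfold MF0 MD0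
  simp only [wX, wY, MW0_cons, MW0_nil]
  norm_num
  rw [e]
  ring

theorem MF0_d (w : ℂ) : MF0 .d w = (MD0 w (-1) - MD0 w 1) / 2 := by
  unfold MF0 MD0
  simp only [wX, wY, MW0_cons, MW0_nil]
  norm_num
  ring

/-! ### the values at the places of the half quanta -/

lemma la_sub8 (w : ℂ) (a : ℝ) : la w (a - 8) = la w a := by
  rw [← la_per w (a - 8), sub_add_cancel]

/-- `MD0` where the field equation holds -/
lemma MD0_in (w : ℂ) (k : ℤ) (h : |(3 - k + w.re / NUMF.l : ℝ)| ≤ 3) :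
    MD0 w k = 2 * la w (-k - 1) := by
  rw [MD0_eq, dl0_zero _ h, zero_add]

/-- the same through the reflection `y ↦ 8 - y` -/
lemma MD0_in' (w : ℂ) (k : ℤ) (h : |(5 + k - w.re / NUMF.l : ℝ)| ≤ 3) :
    MD0 w k = 2 * la w (-k - 1) := by
  rw [MD0_eq, ← dl0_refl, show (8 - (3 - k + w.re / NUMF.l) : ℝ) = 5 + k - w.re / NUMF.l by ring,
    dl0_zero _ h, zero_add]

theorem MF0_W {w : ℂ} (hw : w.re = 5 / 4 * NUMF.l) : MF0 .w w = la w 0 - la w 3 := by
  have hl := NUMF.l_pos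
  have hp : w.re / NUMF.l = 5 / 4 := by rw [hw]; field_simp
  have e : la w (-(4:ℤ) - 1) = la w 3 := by
    rw [← la_sub8 w 3]
    norm_num
  rw [MF0_w, MD0_in' w (-1) (by rw [hp]; norm_num [abs_le]),
    MD0_in w 4 (by rw [hp]; norm_num [abs_le]), e]
  norm_num
  ring

theorem MF0_F {w : ℂ} (hw : w.re = -(11 / 4) * NUMF.l) :
    MF0 .w w = la w 0 - la w 3 - Ag (3 / 4) w.im := by
  have hl := NUMF.l_pos
  have hp : w.re / NUMF.l = -(11 / 4) := by rw [hw]; field_simp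
  have e : la w (-(4:ℤ) - 1) = la w 3 := by
    rw [← la_sub8 w 3]
    norm_num
  have e2 : dl0 w.im (3 - (4:ℤ) + w.re / NUMF.l) = 2 * Ag (3 / 4) w.im := by
    rw [hp, ← dl0_neg, dl0_out _ (by norm_num) (by norm_num)]
    norm_num
  rw [MF0_w, MD0_in w (-1) (by rw [hp]; norm_num [abs_le]), MD0_eq w 4, e2, e]
  norm_num
  ring

theorem MF0_P {w : ℂ} (hw : w.re = -(11 / 4) * NUMF.l) :
    MF0 .p w = la w 0 + la w 1 - 2 * la w (-2) := by
  have hl := NUMF.l_pos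
  have hp : w.re / NUMF.l = -(11 / 4) := by rw [hw]; field_simp
  rw [MF0_p, MD0_in w (-1) (by rw [hp]; norm_num [abs_le]),
    MD0_in w 1 (by rw [hp]; norm_num [abs_le]), MD0_in w (-2) (by rw [hp]; norm_num [abs_le])]
  norm_num
  ring

theorem MF0_D {w : ℂ} (hw : w.re = -(11 / 4) * NUMF.l) :
    MF0 .d w = la w 0 - la w (-2) := by
  have hl := NUMF.l_pos
  have hp : w.re / NUMF.l = -(11 / 4) := by rw [hw]; field_simp
  rw [MF0_d, MD0_in w (-1) (by rw [hp]; norm_num [abs_le]),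
    MD0_in w 1 (by rw [hp]; norm_num [abs_le])]
  norm_num
  ring

theorem MF0_Hs {w : ℂ} (hw : w.re = 5 / 8 * NUMF.l) : MF0 .hs w =
    la w (-2) + la w (-3) + la w 4 - la w 0 - 2 * la w 1 - Ag (3 / 8) w.im := by
  have hl := NUMF.l_pos
  have hp : w.re / NUMF.l = 5 / 8 := by rw [hw]; field_simp
  have e : la w (-(3:ℤ) - 1) = la w 4 := by
    rw [← la_sub8 w 4]
    norm_num
  have e2 : dl0 w.im (3 - (-1:ℤ) + w.re / NUMF.l) = 2 * Ag (3 / 8) w.im := by
    rw [hp, ← dl0_refl, dl0_out _ (by norm_num) (by norm_num)]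
    norm_num
  rw [MF0_hs, MD0_eq w (-1), e2, MD0_in' w (-2) (by rw [hp]; norm_num [abs_le]),
    MD0_in w 1 (by rw [hp]; norm_num [abs_le]), MD0_in w 2 (by rw [hp]; norm_num [abs_le]),
    MD0_in w 3 (by rw [hp]; norm_num [abs_le]), e]
  norm_num
  ring

theorem MF0_Hp {w : ℂ} (hw : w.re = 5 / 8 * NUMF.l) : MF0 .hp w =
    2 * la w (-2) + la w (-3) + la w 4 - 2 * la w 1 - 2 * la w 3 := by
  have hl := NUMF.l_pos
  have hp : w.re / NUMF.l = 5 / 8 := by rw [hw]; field_simp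
  have e : la w (-(3:ℤ) - 1) = la w 4 := by
    rw [← la_sub8 w 4]
    norm_num
  have e' : la w (-(4:ℤ) - 1) = la w 3 := by
    rw [← la_sub8 w 3]
    norm_num
  rw [MF0_hp, MD0_in' w (-2) (by rw [hp]; norm_num [abs_le]),
    MD0_in w 1 (by rw [hp]; norm_num [abs_le]), MD0_in w 2 (by rw [hp]; norm_num [abs_le]),
    MD0_in w 3 (by rw [hp]; norm_num [abs_le]), MD0_in w 4 (by rw [hp]; norm_num [abs_le]), e, e']
  norm_num
  ring

theorem MF0_Hs' {w : ℂ} (hw : w.re = -(11 / 8) * NUMF.l) : MF0 .hs w =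
    la w (-2) + la w (-3) + la w 4 - la w 0 - 2 * la w 1 - 2 * Ag (5 / 8) w.im := by
  have hl := NUMF.l_pos
  have hp : w.re / NUMF.l = -(11 / 8) := by rw [hw]; field_simp
  have e : la w (-(3:ℤ) - 1) = la w 4 := by
    rw [← la_sub8 w 4]
    norm_num
  have e2 : dl0 w.im (3 - (-2:ℤ) + w.re / NUMF.l) = 2 * Ag (5 / 8) w.im := by
    rw [hp, dl0_out _ (by norm_num) (by norm_num)]
    norm_num
  rw [MF0_hs, MD0_in w (-1) (by rw [hp]; norm_num [abs_le]), MD0_eq w (-2), e2,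
    MD0_in w 1 (by rw [hp]; norm_num [abs_le]), MD0_in w 2 (by rw [hp]; norm_num [abs_le]),
    MD0_in w 3 (by rw [hp]; norm_num [abs_le]), e]
  norm_num
  ring

theorem MF0_Hp' {w : ℂ} (hw : w.re = -(11 / 8) * NUMF.l) : MF0 .hp w =
    2 * la w (-2) + la w (-3) + la w 4 - 2 * la w 1 - 2 * la w 3 - 2 * Ag (5 / 8) w.im := by
  have hl := NUMF.l_pos
  have hp : w.re / NUMF.l = -(11 / 8) := by rw [hw]; field_simp
  have e : la w (-(3:ℤ) - 1) = la w 4 := by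
    rw [← la_sub8 w 4]
    norm_num
  have e' : la w (-(4:ℤ) - 1) = la w 3 := by
    rw [← la_sub8 w 3]
    norm_num
  have e2 : dl0 w.im (3 - (-2:ℤ) + w.re / NUMF.l) = 2 * Ag (5 / 8) w.im := by
    rw [hp, dl0_out _ (by norm_num) (by norm_num)]
    norm_num
  rw [MF0_hp, MD0_eq w (-2), e2,
    MD0_in w 1 (by rw [hp]; norm_num [abs_le]), MD0_in w 2 (by rw [hp]; norm_num [abs_le]),
    MD0_in w 3 (by rw [hp]; norm_num [abs_le]), MD0_in w 4 (by rw [hp]; norm_num [abs_le]), e, e']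
  norm_num
  ring

end

end PB0
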