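import Pool.Agent.PB.ValR
import Pool.Agent.NUSea.Bridge
import Pool.Agent.NUSea.MFC

/-!
# The mean field value of the sea at rows `0`

* `MF_seaP`: `NUSea.MF` at the instance `seaP` is `NUMFC.MF`, `s ^ 2 ∫ P v`;
* `EMF0`: `∫ P v`; `AM0_match'`: the prefactor times `exp (k ^ 2 EMF0)` is `bulk k / sin l`.
-/

set_option autoImplicit false

noncomputable section

open MeasureTheory

namespace PBVR

/-- the mean field value of the sea, rows `0` -/
theorem MF_seaP (s : ℝ) : @NUSea.MF NUSea.seaP s = NUMFC.MF s := by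
  unfold NUSea.MF NUMFC.MF
  rw [NUSea.P_seaP, NUSea.v_seaP]

/-- the exponent of the mean field value, rows `0` -/
def EMF0 : ℝ := ∫ t, NUMF.P t * NUMF.v t

theorem EMF0_eq : EMF0 = 4 * Real.log (2 / 3 * (2 + √2)) - Real.log (4 + 2 * √2) := by
  have h := NUMFC.MF_one
  unfold NUMFC.MF at h
  rw [one_pow, one_mul] at h
  exact h

theorem MF_EMF0 (s : ℝ) : NUMFC.MF s = s ^ 2 * EMF0 := rfl

/-- prefactor times mean field value, `k = m + 1` -/
theorem AM0_match' (m : ℕ) : (2 : ℝ) ^ (2 * (m + 1) * (2 * (m + 1) - 1)) *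
    ‖Complex.sin NUP1.l * (NUP1.Leg.Bp 0 0 (fun _ : Fin m => (0 : ℂ)) *
      NUP1.Leg.Bp 0 0 (fun _ : Fin m => (0 : ℂ)))‖ * Real.exp (((m : ℝ) + 1) ^ 2 * EMF0) =
      (Real.sin NUP1.l)⁻¹ *
        ((2 / 3 * (2 + √2)) ^ (2 * (m + 1) * (2 * (m + 1) - 1)) * (2 / 3) ^ (2 * (m + 1))) := by
  have h := AM0_match m
  rw [MF_EMF0, Nat.cast_add, Nat.cast_one] at h
  exact h

end PBVR

end
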