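import Pool.Agent.PB.OneRT0
import Pool.Agent.PB.BsG0
import Pool.Agent.PB.MF0
import Pool.Agent.PB.ValS

/-!
# The geometry at rows `0`, ends `0`

* `G0 ex ex0`: one body data `ob0 (k - 1) β ex ex0` (`k - 1` rows and one end, cutoffs over the rows and
  `ex`, `ex0`), exponent `PotH.oneEH` of the curve `etaC`, bulk exponent `PBVR.EMF0`, mean field values
  `PB0.MF0`;
* `G0_nn`, **`G0_bs`**: the base; `ObZ_ob0`: the bounds of its factors;
* **`oneR_G0`**, **`oneRT_G0`**: the one body bounds of the objects.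
-/

set_option autoImplicit false

noncomputable section

open Complex MeasureTheory Set

namespace PBR

open NUO NUP1 NUP1S.AbG NUGC PBX
open NURow (XB)
open PBO (s1 s1_pos sin_up sin_dn cR eM ObZ PtZ PtsZ SpZ)

/-- the factor of one row and of the ends at `0` is bounded on the lines of the objects -/
theorem rwTh_le {u : ℂ} (h1 : -((2 + eM) * l) ≤ u.re) (h2 : u.re ≤ 4 / 5 * l) :
    PBX.rwC 0 u * Th0 u ≤ cR := by
  have hl := l_pos
  have hs := s1_pos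
  have he : eM = 1251 / 5000 := rfl
  have hcR : 0 ≤ cR := by
    unfold PBO.cR
    positivity
  by_cases hu : Complex.sin u = 0
  · have h0 : PBX.rwC 0 u = 0 := by
      unfold PBX.rwC
      rw [sub_zero, hu, norm_zero, zero_mul, div_zero]
    rw [h0, zero_mul]
    exact hcR
  · have hu0 : 0 < ‖Complex.sin u‖ := norm_pos_iff.2 hu
    have e1 : (u - 2 * l).re = u.re - 2 * l := by simp
    have i1 : (u - 2 * l).im = u.im := by simp
    have i2 : (u + 3 * l).im = u.im := by simp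
    have a1 := sin_up (u + 3 * l)
    have hneg : (u - 2 * l).re < 0 := by rw [e1]; linarith
    have a2 := sin_dn (z := u - 2 * l) (by rw [abs_of_neg hneg, e1]; linarith) (by
      rw [abs_of_neg hneg, e1]
      rw [he] at h1
      linarith)
    rw [i2] at a1
    rw [i1] at a2
    have hc := Real.cosh_pos u.im
    have hd : 0 < ‖Complex.sin (u - 2 * l)‖ := lt_of_lt_of_le (by positivity) a2
    have e : PBX.rwC 0 u * Th0 u = ‖Complex.sin (u + 3 * l)‖ ^ 2 / ‖Complex.sin (u - 2 * l)‖ ^ 2 := by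
      unfold PBX.rwC Th0
      rw [sub_zero]
      field_simp
    have e2 : cR = Real.cosh u.im ^ 2 / (s1 * Real.cosh u.im) ^ 2 := by
      unfold PBO.cR
      field_simp
    rw [e, e2]
    gcongr

/-- one row and the ends at `0` are an admissible spectator -/
theorem rwThZ : SpZ cR eM fun _ u => PBX.rwC 0 u * Th0 u := fun _ _ h1 h2 =>
  ⟨mul_nonneg (PBX.rwC_nonneg 0 _) (Th0_nonneg _), rwTh_le h1 h2⟩

/-- **the bounds of the factors of `ob0`** (`k = m + 1` effective rows) -/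
theorem ObZ_ob0 {n0 k : ℕ} (hn : 1 ≤ n0) (hk : 1 ≤ k) {h0 β : ℝ} {ex ex0 : List ℂ}
    (h1 : PtsZ n0 h0 ex) (h2 : PtsZ n0 h0 ex0) :
    ObZ n0 h0 cR k β eM (ob0 (k - 1) β ex ex0) (k - 1) (List.replicate (k - 1) 0) [] ex ex0
      (2 * Real.cos l) fun _ u => PBX.rwC 0 u * Th0 u where
  rows := ⟨by simp, Nat.zero_le _, by simp, by omega, by omega⟩
  w1 := h1
  w2 := h2
  cc := by
    have a1 := cos_l_pos
    have a2 := Real.cos_le_one l
    constructor <;> linarith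
  sp := rwThZ
  R a u := by
    show 2 * Real.cos l * PBX.rwC 0 u ^ (k - 1 + 1) * Th0 u = _
    rw [List.map_replicate, List.prod_replicate, pow_succ]
    show _ = 2 * Real.cos l * PBX.rwC 0 u ^ (k - 1) * (PBX.rwC 0 u * Th0 u)
    ring
  φ := rfl
  φ0 := rfl

attribute [local instance] NUSea.seaP

/-- **the geometry at rows `0`, ends `0`** -/
def G0 (ex ex0 : List ℂ) : PBO.Geo where
  B k β := ob0 (k - 1) β ex ex0
  one k ep e1 J _ O i := PotH.oneEH k (etaC e1 J k k) (TW ep e1 k) O i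
  EM := PBVR.EMF0
  MF := PB0.MF0

theorem G0_nn (ex ex0 : List ℂ) (k : ℕ) (β : ℝ) : ((G0 ex ex0).B k β).Nn := ob0_nn _ _ _ _

theorem G0_one (ex ex0 : List ℂ) (k : ℕ) (ep e1 J : ℝ) {r : ℕ} (O : Fin r → Xo) (i : Fin r) :
    (G0 ex ex0).one k ep e1 J r O i = PotH.oneEH k (etaC e1 J k k) (TW ep e1 k) O i := rfl

/-- **the base at rows `0`, ends `0`** -/
theorem G0_bs {k : ℕ} (hk : 2 ≤ k) {β : ℝ} (hβ : 0 < β) (hβ' : β ≤ 4 / 3) {ex ex0 : List ℂ}
    (hex : ∀ w ∈ ex, |w.re| ≤ l / 2) (hex0 : ∀ w ∈ ex0, |w.re| ≤ l / 2) {P : NUO.Par} {ep : ℝ}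
    (hP : ParC P) (hep0 : 0 < ep) (hep : ep ≤ 1 / 100) :
    Bs (XB (R0 (k - 1) β ex ex0).X (R0 (k - 1) β ex ex0).Y)
      (fun g => ((G0 ex ex0).B k β).mul g) P ep (2 * β) {0} :=
  bs_R0 (show 1 ≤ k - 1 by omega) hβ hβ' hex hex0 hP hep0 hep

section one

variable {n0 : ℕ} {h0 : ℝ} {ex ex0 : List ℂ}

theorem G0_ObZ (h1 : PtsZ n0 h0 ex) (h2 : PtsZ n0 h0 ex0) (ep : ℝ) (_ : 0 < ep)
    (_ : ep ≤ 1 / 100) : ∃ m0 : ℕ, ∀ m ≥ m0,
      ∃ (K : ℕ) (mu ex' W1 W2 : List ℂ) (c0 : ℝ) (g : Bool → ℂ → ℝ),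
        ObZ (n0 + 1) h0 cR m (4 / 3 * (1 - ep)) eM ((G0 ex ex0).B m (4 / 3 * (1 - ep))) K mu ex'
          W1 W2 c0 g ∧ ((G0 ex ex0).B m (4 / 3 * (1 - ep))).Nn :=
  ⟨1, fun m hm => ⟨_, _, _, _, _, _, _, ObZ_ob0 (by omega) hm ⟨h1.len.trans (by omega), h1.pt⟩
    ⟨h2.len.trans (by omega), h2.pt⟩, G0_nn _ _ _ _⟩⟩

/-- **the one body bounds at rows `0`** -/
theorem oneR_G0 (hh : 0 ≤ h0) (h1 : PtsZ n0 h0 ex) (h2 : PtsZ n0 h0 ex0) :
    PBO.OneR (G0 ex ex0) :=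
  PBO.oneR_seaP (n0 + 1) hh (by
    have := s1_pos
    unfold PBO.cR
    positivity) (G0_ObZ h1 h2) (Kc := 0) fun m ep e1 J _ _ _ _ r O i => by
      rw [G0_one, add_zero]

/-- **the one body bounds at rows `0` with the gain of the tent** -/
theorem oneRT_G0 (hh : 0 ≤ h0) (h1 : PtsZ n0 h0 ex) (h2 : PtsZ n0 h0 ex0) :
    PBI.OneRT (G0 ex ex0) :=
  PBO.oneRT_seaP (n0 + 1) hh (by
    have := s1_pos
    unfold PBO.cR
    positivity) (G0_ObZ h1 h2) (Kc := 0) fun m ep e1 J _ _ _ _ r O i => by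
      rw [G0_one, add_zero]

end one

/-- the points `0, .., 0` are admissible -/
theorem ptsZ_zero (j : ℕ) {h0 : ℝ} (hh : 0 ≤ h0) : PtsZ j h0 (List.replicate j 0) where
  len := by simp
  pt x hx := by
    rw [List.eq_of_mem_replicate hx]
    have hl := l_pos
    refine ⟨?_, ?_⟩
    · rw [zero_re, abs_zero]
      positivity
    · rw [zero_im, abs_zero]
      exact hh

/-- **cutoffs over `j` further points `0`** -/
theorem oneR_G0' (j j' : ℕ) : PBO.OneR (G0 (List.replicate j 0) (List.replicate j' 0)) := by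
  have a1 := ptsZ_zero j (h0 := 0) le_rfl
  have a2 := ptsZ_zero j' (h0 := 0) le_rfl
  exact oneR_G0 (n0 := max j j') le_rfl ⟨a1.len.trans (le_max_left _ _), a1.pt⟩
    ⟨a2.len.trans (le_max_right _ _), a2.pt⟩

theorem oneRT_G0' (j j' : ℕ) : PBI.OneRT (G0 (List.replicate j 0) (List.replicate j' 0)) := by
  have a1 := ptsZ_zero j (h0 := 0) le_rfl
  have a2 := ptsZ_zero j' (h0 := 0) le_rfl
  exact oneRT_G0 (n0 := max j j') le_rfl ⟨a1.len.trans (le_max_left _ _), a1.pt⟩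
    ⟨a2.len.trans (le_max_right _ _), a2.pt⟩

/-- **cutoffs over `±i` (strings: over the rows only)** -/
theorem oneR_GI : PBO.OneR (G0 [I, -I] []) :=
  oneR_G0 (n0 := 2) (h0 := 1) zero_le_one (PtsZ.II le_rfl le_rfl) (PtsZ.nil 2 1)

theorem oneRT_GI : PBI.OneRT (G0 [I, -I] []) :=
  oneRT_G0 (n0 := 2) (h0 := 1) zero_le_one (PtsZ.II le_rfl le_rfl) (PtsZ.nil 2 1)

end PBR

end
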