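import Pool.Agent.PB.Oth1
import Pool.Agent.PB.G0
import Pool.Agent.PB.CutW

/-!
# The other classes at rows `0`, cutoff points `± i`

`cutOk_I : CutOk [I, -I] []`; **`oth1_GI`**: `oth0` at `G0 [I, -I] []` from the gas `S4R`.
-/

set_option autoImplicit false
set_option linter.unusedSectionVars false

noncomputable section

open Complex MeasureTheory Finset
open scoped ENNReal

namespace PBO

open NUO NUP1 NUCR NUP1S NURow NUGC

/-- the bounds of the cutoffs over the rows and `± i` (strings: over the rows) -/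
theorem cutOk_I : CutOk [I, -I] [] := by
  have hl := Bd.l_pos
  refine ⟨fun w hw => ?_, fun w hw => ?_, fun ep h0 h1 =>
    ⟨PB0.cWA 1 [I, -I] [], ?_, fun m => PB0.cutBI h0.le (by linarith) m⟩⟩
  · simp only [List.mem_cons, List.not_mem_nil, or_false] at hw
    rcases hw with rfl | rfl
    · rw [I_re, abs_zero]
      positivity
    · rw [neg_re, I_re, neg_zero, abs_zero]
      positivity
  · simp at hw
  · exact PB0.one_le_cWA 1 _ _

attribute [local instance] NUSea.seaP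

/-- **all classes except `W W`, and `W W` outside the near set, rows 0** -/
theorem oth1_GI (h4 : S4R (PBR.G0 [I, -I] [])) :
    ∀ ε : ℝ, 0 < ε → ∃ ep0 : ℝ, 0 < ep0 ∧ ep0 ≤ 1 / 100 ∧
      ∀ ep : ℝ, 0 < ep → ep ≤ ep0 → ∃ (Cst : ℝ) (m0 : ℕ), 0 ≤ Cst ∧ 1 ≤ m0 ∧ ∀ m : ℕ, m0 ≤ m →
        (∀ t t' : HT, ¬(t = .W ∧ t' = .W) →
          sVal (KX [I, -I] [] ep m) (NUSea.O.par0 m) (2 * m) t t' ≤
            Cst * (m : ℝ) ^ (-(7 / 16) + ε) * Real.exp ((m : ℝ) ^ 2 * PBVR.EMF0)) ∧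
        (∀ o : Bool, sValD (KX [I, -I] [] ep m) (kDX [I, -I] [] ep m) (NUSea.O.par0 m)
            (2 * m) o ≤ Cst * (m : ℝ) ^ (-(7 / 16) + ε) * Real.exp ((m : ℝ) ^ 2 * PBVR.EMF0)) ∧
        (∀ (S : Set (ℝ × ℝ)) (κ : ℝ), MeasurableSet S →
          (∀ z ∈ S, κ ≤ 2 * |z.1| + 2 * |z.2| + |z.1 - z.2| / 2) →
          sInt (KX [I, -I] [] ep m) (NUSea.O.par0 m) (2 * m) .W .W S ≤
            ENNReal.ofReal (Cst * (Real.exp (-κ) * (m : ℝ) ^ ε + (m : ℝ) ^ (-(7 / 16) + ε)) *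
              Real.exp ((m : ℝ) ^ 2 * PBVR.EMF0))) ∧
        (∀ y : ℝ × ℝ, |y.1| ≤ 3 / 8 * Real.log m → |y.2| ≤ 3 / 8 * Real.log m →
          sPt (KX [I, -I] [] ep m) (NUSea.O.par0 m) (2 * m) .W .W (vl (htL .W) y.1)
              (vl (htL .W) y.2) ≤
            Cst * (Real.exp (-(2 * |y.1| + 2 * |y.2| + |y.1 - y.2| / 2)) * (m : ℝ) ^ ε) *
              Real.exp ((m : ℝ) ^ 2 * PBVR.EMF0)) :=
  oth1_of cutOk_I (G := PBR.G0 [I, -I] []) (fun _ _ => rfl) rfl h4 PBR.oneR_GI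

end PBO

end
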