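import Pool.Agent.PB.FDef

/-!
# Plan B, module Cls: the gas of quanta in the field of the objects as an integral over the curves

* `reg_pot`, `gas_crv`: general one body functions and two curves: the gas on the line `Re u = l` is
  `(a! b!)⁻¹` times the integral of the complex integrand over the curves; integrability;
* `QOk`: the one body functions of the quanta of a class are regular in the strip (charge `Q`);
* `integrable_gK`, `gas_gK`, `integrable_gK_mul`, `trm_one`: the same for the functional of `FDef`;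
* `Zm`, `Fa`, `trm_mul`, `FF_mul`: multiplicative insertions are absorbed in the one body functions.
-/

set_option autoImplicit false
set_option linter.unusedSectionVars false

noncomputable section

open Complex MeasureTheory Finset
open scoped ENNReal

namespace PBF

open NUO NUP1 NUCR NUP1S NUP1S.Ab NUP1S.AbC NUGC

variable {r : ℕ}

/-! ### general one body functions, two curves -/

/-- the one body functions in the field of the objects are regular in the strip -/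
theorem reg_pot {P : NUO.Par} (hP : GoodP P) {δ : ℝ} (hδ : δ ≤ 1 / 20)
    (hj : P.jL + δ < 3) (O : Fin r → Xo) {κ : ℝ} {Q : ℤ} {G G' : ℂ → ℂ} (m1 : Measurable G)
    (m2 : Measurable G') (d1 : ∀ u : ℂ, u.re ∈ Ks δ → DifferentiableAt ℂ G u)
    (d2 : ∀ u : ℂ, u.re ∈ Ks δ → DifferentiableAt ℂ G' u)
    (b1 : Bdd (Ks δ) (-(κ + 2 * Q)) G) (b2 : Bdd (Ks δ) (-(κ - 2 * Q)) G') {a b : ℕ}
    (hn : ((a + chgO O true : ℕ) : ℤ) - ((b + chgO O false : ℕ) : ℤ) = Q) :
    Reg p0 κ (19 / 20 * NUP1.l) ((1 + δ) * NUP1.l) ((a : ℤ) - b)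
      (g2 (fun z => G z * potC P O true z) (fun z => G' z * potC P O false z)) := by
  have hQ : ((a : ℝ) - b) = Q + (chgO O false : ℝ) - chgO O true := by
    have h1 : (Q : ℝ) = (((a + chgO O true : ℕ) : ℤ) - ((b + chgO O false : ℕ) : ℤ) : ℤ) := by
      rw [hn]
    rw [h1]
    push_cast
    ring
  have ok := fun s i => okP_cons hδ hP hj O i s
  have r1 := rt_conf true P O
  have r2 := rt_conf false P O
  simp only [if_true] at r1
  simp only [Bool.false_eq_true, if_false] at r2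
  have B1 := (b1.mul (bdd_potC (ok true))).rate (s' := -(κ + 2 * (((a : ℤ) - b : ℤ) : ℝ))) (by
    rw [r1]
    push_cast
    linarith)
  have B2 := (b2.mul (bdd_potC (ok false))).rate (s' := -(κ - 2 * (((a : ℤ) - b : ℤ) : ℝ))) (by
    rw [r2]
    push_cast
    linarith)
  exact reg_p0 (m1.mul (meas_potC P O true)) (m2.mul (meas_potC P O false))
    (fun u h1 h2 => (d1 u ⟨h1, h2⟩).mul (diff_potC (ok true) ⟨h1, h2⟩))
    (fun u h1 h2 => (d2 u ⟨h1, h2⟩).mul (diff_potC (ok false) ⟨h1, h2⟩))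
    (DecOn_of_Bdd B1 le_rfl) (DecOn_of_Bdd B2 le_rfl)

/-- **The gas in the field of the objects = the integral over two curves.** -/
theorem gas_crv {P : NUO.Par} (hP : GoodP P) {δ : ℝ} (hδ0 : 0 ≤ δ) (hδ : δ ≤ 1 / 20)
    (hj : P.jL + δ < 3) {η η' ζ ζ' : ℝ → ℝ} (hη : CrvR δ η η') (hζ : CrvR δ ζ ζ')
    (O : Fin r → Xo) {κ : ℝ} (hκ : 0 < κ) {Q : ℤ} {G G' : ℂ → ℂ} (m1 : Measurable G)
    (m2 : Measurable G') (d1 : ∀ u : ℂ, u.re ∈ Ks δ → DifferentiableAt ℂ G u)
    (d2 : ∀ u : ℂ, u.re ∈ Ks δ → DifferentiableAt ℂ G' u)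
    (b1 : Bdd (Ks δ) (-(κ + 2 * Q)) G) (b2 : Bdd (Ks δ) (-(κ - 2 * Q)) G') {a b : ℕ}
    (hn : ((a + chgO O true : ℕ) : ℤ) - ((b + chgO O false : ℕ) : ℤ) = Q) :
    Integrable (fun x : (Fin a → ℝ) × (Fin b → ℝ) =>
      Fc p0 (g2 (fun z => G z * potC P O true z) (fun z => G' z * potC P O false z))
        (cCt a b (crvC true NUP1.l (dA η) (dA η')) (crvC false NUP1.l (dA ζ) (dA ζ')))
        (Sum.elim x.1 x.2)) ∧
    gas a b NUP1.l (fun z => G z * potC P O true z) (fun z => G' z * potC P O false z) =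
      ((a.factorial : ℂ) * b.factorial)⁻¹ * ∫ x : (Fin a → ℝ) × (Fin b → ℝ),
        Fc p0 (g2 (fun z => G z * potC P O true z) (fun z => G' z * potC P O false z))
          (cCt a b (crvC true NUP1.l (dA η) (dA η')) (crvC false NUP1.l (dA ζ) (dA ζ')))
          (Sum.elim x.1 x.2) := by
  have hl := Bd.l_pos
  have hg := reg_pot hP hδ hj O m1 m2 d1 d2 b1 b2 hn
  have CX := hη.crv hδ0
  have CY := hζ.crv hδ0
  have ht := CX.tau
  have G0 : Geo p0 κ (19 / 20 * NUP1.l) ((1 + δ) * NUP1.l) :=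
    geo_p0 hκ (ht.1.trans ht.2) (by nlinarith)
  have cX : CrvOk p0 (19 / 20 * NUP1.l) ((1 + δ) * NUP1.l) true NUP1.l (dA η) (dA η') :=
    ⟨_, _, CX, le_rfl, le_rfl, fun p hp => by simp [p0] at hp⟩
  have cY : CrvOk p0 (19 / 20 * NUP1.l) ((1 + δ) * NUP1.l) false NUP1.l (dA ζ) (dA ζ') :=
    ⟨_, _, CY, le_rfl, le_rfl, fun p hp => by simp [p0] at hp⟩
  obtain ⟨hI, hN⟩ := NI_two G0 (cX.ok G0) (cY.ok G0) rfl rfl a b hg
  refine ⟨hI, ?_⟩
  rw [gas_eq_ZZc G0 ht.1 ht.2 a b hg, ZZ_crv G0 cX cY a b hg, hN, mul_inv]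
  rfl

/-! ### the functional of `FDef` -/

/-- **the one body functions of the quanta of a class are regular in the strip** `Ks δ`, rate `κ > 0`,
total charge `Q` -/
structure QOk (Z : Bool → Option O3 → ℂ → ℂ) (δ κ : ℝ) (Q : ℤ) : Prop where
  kpos : 0 < κ
  m : ∀ s, Measurable (Z s none)
  d : ∀ s (u : ℂ), u.re ∈ Ks δ → DifferentiableAt ℂ (Z s none) u
  b : ∀ s, Bdd (Ks δ) (-(κ + 2 * (sg s * Q : ℤ))) (Z s none)

theorem QOk.of_oneC {Z : Bool → Option O3 → ℂ → ℂ} {B : OB} {P : NUO.Par} {ep κ x0 : ℝ} {Q : ℤ}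
    {E : Set ℝ} (h : OneC Z B P ep κ x0 Q E) : QOk Z (ep / 4) κ Q := by
  have hsub : Ks (ep / 4) ⊆ Set.Icc x0 ((1 + ep / 4) * NUP1.l) :=
    Set.Icc_subset_Icc h.x1 le_rfl
  refine ⟨h.kpos, fun s => h.meas s none, fun s u hu => h.dA s u (hsub hu).1 (hsub hu).2,
    fun s => ?_⟩
  obtain ⟨C, hC, hb⟩ := h.bA s
  exact ⟨C, hC, fun z hz => hb z (hsub hz)⟩

/-- the admissible curves of the corollary -/
theorem crvR_of {ep : ℝ} (hep0 : 0 < ep) (hep : ep ≤ 1 / 100) {η η' : ℝ → ℝ}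
    (hη : CurB ep η η') : CrvR (ep / 4) η η' := by
  have hl := Bd.l_pos
  refine ⟨hη.hd, hη.hc, fun t => ?_, fun t => ?_, hη.hb⟩
  · have := (abs_le.1 (hη.h1 t)).1
    linarith
  · have := (abs_le.1 (hη.h1 t)).2
    nlinarith

variable {Z : Bool → Option O3 → ℂ → ℂ} {P : NUO.Par} {δ κ : ℝ} {Q : ℤ}

/-- **the gas of the quanta of a configuration on the curve** -/
theorem gK_int (h : QOk Z δ κ Q) (hP : GoodP P) (hδ0 : 0 ≤ δ) (hδ : δ ≤ 1 / 20)
    (hj : P.jL + δ < 3) {η η' : ℝ → ℝ} (hη : CrvR δ η η') (O : Fin r → Xo) {a b : ℕ}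
    (hn : ((a + chgO O true : ℕ) : ℤ) - ((b + chgO O false : ℕ) : ℤ) = Q) :
    Integrable (fun x : (Fin a → ℝ) × (Fin b → ℝ) => gK (gF Z P O) η η' a b x) ∧
    gas a b NUP1.l (fun z => Z true none z * potC P O true z)
      (fun z => Z false none z * potC P O false z) =
      ((a.factorial : ℂ) * b.factorial)⁻¹ *
        ∫ x : (Fin a → ℝ) × (Fin b → ℝ), gK (gF Z P O) η η' a b x := by
  have e1 : (((sg true * Q : ℤ)) : ℝ) = Q := by simp [sg]
  have e2 : (((sg false * Q : ℤ)) : ℝ) = -(Q : ℝ) := by simp [sg]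
  exact gas_crv hP hδ0 hδ hj hη hη O h.kpos (h.m true) (h.m false) (h.d true) (h.d false)
      ((h.b true).rate (by rw [e1])) ((h.b false).rate (by rw [e2]; ring)) hn

theorem integrable_gK (h : QOk Z δ κ Q) (hP : GoodP P) (hδ0 : 0 ≤ δ) (hδ : δ ≤ 1 / 20)
    (hj : P.jL + δ < 3) {η η' : ℝ → ℝ} (hη : CrvR δ η η') (O : Fin r → Xo) {a b : ℕ}
    (hn : ((a + chgO O true : ℕ) : ℤ) - ((b + chgO O false : ℕ) : ℤ) = Q) :
    Integrable (fun x : (Fin a → ℝ) × (Fin b → ℝ) => gK (gF Z P O) η η' a b x) :=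
  (gK_int h hP hδ0 hδ hj hη O hn).1

theorem gas_gK (h : QOk Z δ κ Q) (hP : GoodP P) (hδ0 : 0 ≤ δ) (hδ : δ ≤ 1 / 20)
    (hj : P.jL + δ < 3) {η η' : ℝ → ℝ} (hη : CrvR δ η η') (O : Fin r → Xo) {a b : ℕ}
    (hn : ((a + chgO O true : ℕ) : ℤ) - ((b + chgO O false : ℕ) : ℤ) = Q) :
    gas a b NUP1.l (fun z => Z true none z * potC P O true z)
      (fun z => Z false none z * potC P O false z) =
      ((a.factorial : ℂ) * b.factorial)⁻¹ *
        ∫ x : (Fin a → ℝ) × (Fin b → ℝ), gK (gF Z P O) η η' a b x :=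
  (gK_int h hP hδ0 hδ hj hη O hn).2

/-- bounded measurable insertions -/
theorem integrable_gK_mul (h : QOk Z δ κ Q) (hP : GoodP P) (hδ0 : 0 ≤ δ) (hδ : δ ≤ 1 / 20)
    (hj : P.jL + δ < 3) {η η' : ℝ → ℝ} (hη : CrvR δ η η') (O : Fin r → Xo) {a b : ℕ}
    (hn : ((a + chgO O true : ℕ) : ℤ) - ((b + chgO O false : ℕ) : ℤ) = Q)
    {f : (Fin a → ℝ) × (Fin b → ℝ) → ℂ} (hf : AEStronglyMeasurable f) {C : ℝ}
    (hC : ∀ x, ‖f x‖ ≤ C) :
    Integrable (fun x : (Fin a → ℝ) × (Fin b → ℝ) => gK (gF Z P O) η η' a b x * f x) :=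
  (integrable_gK h hP hδ0 hδ hj hη O hn).mul_bdd (c := C) hf (Filter.Eventually.of_forall hC)

/-- **the term of a configuration without insertion does not depend on the curve** -/
theorem trm_one (h : QOk Z δ κ Q) (hP : GoodP P) (hδ0 : 0 ≤ δ) (hδ : δ ≤ 1 / 20)
    (hj : P.jL + δ < 3) {η η' : Crs} (O : Fin r → Xo) (hη : CrvR δ (η r O) (η' r O)) {n n' : ℕ}
    (hn : (n : ℤ) - n' = Q) :
    trm Z P n n' η η' (fun _ _ _ _ _ => 1) r O =
      if chgO O true ≤ n ∧ chgO O false ≤ n' then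
        wK Z P O * gas (n - chgO O true) (n' - chgO O false) NUP1.l
          (fun z => Z true none z * potC P O true z) (fun z => Z false none z * potC P O false z)
      else 0 := by
  unfold trm
  split_ifs with hc
  · rw [gas_gK h hP hδ0 hδ hj hη O (by omega)]
    simp only [mul_one]
  · rfl

/-! ### multiplicative insertions -/

/-- one body functions with factors -/
def Zm (Z g : Bool → Option O3 → ℂ → ℂ) : Bool → Option O3 → ℂ → ℂ := fun s k z => Z s k z * g s k z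

/-- the factor of an object -/
def obF (g : Bool → Option O3 → ℂ → ℂ) (jL e ρ : ℝ) (x : Xo) : ℂ :=
  match kd x with
  | .L => g (sp x) (some .L) (posL jL (ht x))
  | .St => g (sp x) (some .T) (posT (ht x))
  | .S => g (sp x) (some .S) (posS e (ht x))
  | .Sv => g (sp x) (some .S) (posS e (ht x)) * g (!sp x) none (posV e ρ (ht x) (an x))
  | .Svv => g (sp x) (some .S) (posS e (ht x)) * g (!sp x) none (posS e (ht x) + 2 * l) ^ 2

theorem obK_mul (Z g : Bool → Option O3 → ℂ → ℂ) (jL e ρ : ℝ) (x : Xo) :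
    obK (Zm Z g) jL e ρ x = obK Z jL e ρ x * obF g jL e ρ x := by
  unfold obK obF Zm
  rcases h : kd x with _ | _ | _ | _ | _ <;> simp only [] <;> ring

theorem wK_mul (Z g : Bool → Option O3 → ℂ → ℂ) (P : NUO.Par) (O : Fin r → Xo) :
    wK (Zm Z g) P O = wK Z P O * ∏ i, obF g P.jL (ei P O i) (rr P O i) (O i) := by
  unfold wK
  simp_rw [obK_mul]
  rw [Finset.prod_mul_distrib]
  ring

/-- the factor of the quanta -/
def quF (g : Bool → Option O3 → ℂ → ℂ) (η : ℝ → ℝ) {a b : ℕ} (x : (Fin a → ℝ) × (Fin b → ℝ)) : ℂ :=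
  (∏ i, g true none (NUO.pA η (x.1 i))) * ∏ j, g false none (NUO.pA η (x.2 j))

theorem hh_gF (Z : Bool → Option O3 → ℂ → ℂ) (P : NUO.Par) (O : Fin r → Xo) (s : Bool)
    (η η' : ℝ → ℝ) (t : ℝ) : hh p0 (gF Z P O) (crvC s NUP1.l (dA η) (dA η')) t =
      (2 * Real.pi : ℂ)⁻¹ * (1 + dA η' t) * (Z s none (NUO.pA η t) * potC P O s (NUO.pA η t)) := by
  show (2 * Real.pi : ℂ)⁻¹ * (1 + dA η' t) * Wt p0 (gF Z P O) s (vl NUP1.l t + I * dA η t) = _
  rw [Wt_p0, pA_crv]
  cases s <;> rfl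

theorem gK_mul (Z g : Bool → Option O3 → ℂ → ℂ) (P : NUO.Par) (O : Fin r → Xo) (η η' : ℝ → ℝ)
    {a b : ℕ} (x : (Fin a → ℝ) × (Fin b → ℝ)) :
    gK (gF (Zm Z g) P O) η η' a b x = gK (gF Z P O) η η' a b x * quF g η x := by
  unfold gK Fc quF
  rw [Fintype.prod_sum_type, Fintype.prod_sum_type]
  have e : ∀ (s : Bool) (t : ℝ), hh p0 (gF (Zm Z g) P O) (crvC s NUP1.l (dA η) (dA η')) t =
      hh p0 (gF Z P O) (crvC s NUP1.l (dA η) (dA η')) t * g s none (NUO.pA η t) := by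
    intro s t
    rw [hh_gF, hh_gF]
    unfold Zm
    ring
  simp only [cCt, Sum.elim_inl, Sum.elim_inr, e]
  rw [Finset.prod_mul_distrib, Finset.prod_mul_distrib]
  ring

/-- **the multiplicative insertion** -/
def Fa (g : Bool → Option O3 → ℂ → ℂ) (P : NUO.Par) (η : Crs) : Ins := fun r O _ _ x =>
  (∏ i, obF g P.jL (ei P O i) (rr P O i) (O i)) * quF g (η r O) x

theorem trm_mul (Z g : Bool → Option O3 → ℂ → ℂ) (P : NUO.Par) (n n' : ℕ) (η η' : Crs) (Ψ : Ins)
    (r : ℕ) (O : Fin r → Xo) :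
    trm (Zm Z g) P n n' η η' Ψ r O = trm Z P n n' η η' (fun r O a b x => Fa g P η r O a b x *
      Ψ r O a b x) r O := by
  unfold trm
  split_ifs
  · rw [wK_mul]
    simp only [gK_mul]
    unfold Fa
    have e : ∀ x, gK (gF Z P O) (η r O) (η' r O) (n - chgO O true) (n' - chgO O false) x *
        ((∏ i, obF g P.jL (ei P O i) (rr P O i) (O i)) * quF g (η r O) x *
          Ψ r O (n - chgO O true) (n' - chgO O false) x) =
        (∏ i, obF g P.jL (ei P O i) (rr P O i) (O i)) *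
        (gK (gF Z P O) (η r O) (η' r O) (n - chgO O true) (n' - chgO O false) x *
          quF g (η r O) x * Ψ r O (n - chgO O true) (n' - chgO O false) x) := fun x => by ring
    simp only [e]
    rw [integral_const_mul]
    ring
  · rfl

/-- **Multiplicative insertions are absorbed in the one body functions.** -/
theorem FF_mul (Z g : Bool → Option O3 → ℂ → ℂ) (P : NUO.Par) (n n' : ℕ) (η η' : Crs) (Ψ : Ins) :
    FF (Zm Z g) P n n' η η' Ψ = FF Z P n n' η η' (fun r O a b x => Fa g P η r O a b x *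
      Ψ r O a b x) := by
  unfold FF
  simp only [trm_mul]

end PBF

end
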