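import Pool.Agent.PB.BsR
import Pool.Agent.PB.ClsFF

/-!
# The class W W as the functional of `PB/FDef`

* `lnS P k`: real parts of the lines of the kinds; `HLn q p S`: spectators of a half quantum on these
  lines; `HLn_W`, `HLn_of`;
* `decZ_flat`: decay of the functions of a class without poles;
* **`flat_FF`**: the sum over the objects of a class without poles at fixed half quanta `=` the
  functional `PBF.FF` without insertion; **`WW_FF`** the same for W W, any base;
* `decZ_RD`, **`RWW_FF`**, **`RWW_valFF`**: the regular function with equal rows in both groups.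
-/

set_option autoImplicit false
set_option linter.unusedSectionVars false

noncomputable section

open Complex MeasureTheory Finset
open scoped ENNReal

namespace PBR

open NUO NUP1 NUCR NUP1S NUP1S.Ab NUP1S.AbC NUP1S.AbG NURow NUGC PBX PBC PBF
open NUP1.Leg (thE Ck Dk)

theorem DecOn.mulB {κ s κ' : ℝ} {K : Set ℝ} {f g : ℂ → ℂ} (hf : DecOn κ K f) (hg : Bdd K s g)
    (h : κ' ≤ κ - s) : DecOn κ' K fun z => f z * g z := by
  obtain ⟨D, hD⟩ := hf
  obtain ⟨C, hC, hb⟩ := hg
  refine ⟨|D| * C, fun z hz => ?_⟩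
  have h1 : ‖f z‖ ≤ |D| * Real.exp (-(κ * |z.im|)) :=
    (hD z hz).trans (mul_le_mul_of_nonneg_right (le_abs_self _) (Real.exp_pos _).le)
  rw [norm_mul]
  calc ‖f z‖ * ‖g z‖ ≤ (|D| * Real.exp (-(κ * |z.im|))) * (C * Real.exp (s * |z.im|)) :=
        mul_le_mul h1 (hb z hz) (norm_nonneg _) (by positivity)
    _ = |D| * C * Real.exp (-(κ * |z.im|) + s * |z.im|) := by
        rw [Real.exp_add]
        ring
    _ ≤ _ := by
        refine mul_le_mul_of_nonneg_left (Real.exp_le_exp.2 ?_) (by positivity)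
        nlinarith [abs_nonneg z.im]

theorem decOn_sub {κ κ' : ℝ} {K K' : Set ℝ} {f : ℂ → ℂ} (h : DecOn κ K f) (hK : K' ⊆ K)
    (e : κ = κ') : DecOn κ' K' f := by
  obtain ⟨D, hD⟩ := h
  rw [← e]
  exact ⟨D, fun z hz => hD z (hK hz)⟩

/-- real parts of the lines of the kinds -/
def lnS (P : NUO.Par) : Option O3 → Set ℝ
  | none => Set.Icc (3 / 5 * l) l
  | some .L => {(1 - P.jL) * l}
  | some .T => {-(1 / 2 * l)}
  | some .S => Set.Icc (-(13 / 10 * l)) (-(11 / 10 * l))

theorem lnO_S_mem {P : NUO.Par} (hP : ParC P) {r i : ℕ} (hi : i < r) :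
    lnO P r i .S ∈ lnS P (some .S) := by
  have hl := l_pos
  have hr : (0 : ℝ) < r := by exact_mod_cast (Nat.zero_le i).trans_lt hi
  have g0 : (0 : ℝ) ≤ (i : ℝ) / r := by positivity
  have g1 : (i : ℝ) / r ≤ 1 := by
    rw [div_le_one hr]
    exact_mod_cast hi.le
  have e1 := hP.e1
  have d0 := hP.d0 r
  have e2 := hP.e2 r
  have k1 : P.d r * ((i : ℝ) / r) ≤ P.d r := by nlinarith
  have k2 : 0 ≤ P.d r * ((i : ℝ) / r) := by positivity
  simp only [lnO, lnS]
  constructor <;> nlinarith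

/-- the lines are in the strips of the kinds -/
theorem lnS_sub {P : NUO.Par} (hP : ParC P) (k : Option O3) :
    lnS P k ⊆ Set.Icc (loK k) (hiK k) := by
  have hl := l_pos
  have j1 := hP.j1
  have j2 := hP.j2
  intro x hx
  rcases k with _ | (_ | _ | _) <;> simp only [lnS, loK, hiK, Set.mem_Icc, Set.mem_singleton_iff] at hx ⊢
  · exact ⟨hx.1, by linarith [hx.2]⟩
  · subst hx
    constructor <;> nlinarith
  · exact ⟨hx.1, by linarith [hx.2]⟩
  · subst hx
    constructor <;> linarith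

/-- **spectators of a half quantum at `Re = p` on the lines of the kinds**, rate `q` -/
structure HLn (q p : ℝ) (S : Sp) : Prop where
  bd : ∀ (P : NUO.Par), ParC P → ∀ (c : Bool) (k : Option O3) (w : ℂ), w.re = p →
    Bdd (lnS P k) (q * sc (c, ob4 k)) fun u => S c k (w - u)

theorem HLn_of {cw q p : ℝ} {S : Sp} (h : HQ cw p S) (hq : q = 2 * cw) : HLn q p S := by
  refine ⟨fun P hP c k w hw => ?_⟩
  have h1 := (h.pb c k).one w (K := lnS P k) fun x hx => by
    have := lnS_sub hP k hx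
    rw [hw]
    exact ⟨by linarith [this.2], by linarith [this.1]⟩
  rw [hq]
  exact h1.1

theorem HLn_W : HLn 1 (5 / 4 * l) SF := by
  have hl := l_pos
  refine ⟨fun P hP c k w hw => ?_⟩
  have j1 := hP.j1
  have j2 := hP.j2
  obtain ⟨K', hK', hc⟩ : ∃ K' : Set ℝ, (∀ x ∈ lnS P k, w.re - x ∈ K') ∧
      PB (sc (c, ob4 k)) K' (SF c k) := by
    rcases k with _ | (_ | _ | _)
    · refine ⟨Set.Icc (1 / 4 * l) (13 / 20 * l), fun x hx => ?_,
        PB_SF_of isCompact_Icc c none (fun _ _ d hd => ?_) (fun _ _ d hd => ⟨?_, ?_⟩)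
          (fun _ h => ?_)⟩
      · rw [hw]
        exact ⟨by linarith [hx.2], by linarith [hx.1]⟩
      · exact NURow.sin_ne_pos (by linarith [hd.1]) (by linarith [hd.2])
      · exact NURow.sin_ne_pos (by linarith [hd.1]) (by linarith [hd.2])
      · exact NURow.sin_ne_neg (by linarith [hd.2]) (by linarith [hd.1])
      · rcases h with h | h <;> exact absurd h (by decide)
    · refine ⟨Set.Icc (5 / 2 * l) (59 / 20 * l), fun x hx => ?_,
        PB_SF_of isCompact_Icc c (some .L) (fun _ _ d hd => ?_) (fun _ _ d hd => ⟨?_, ?_⟩)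
          (fun _ h => ?_)⟩
      · have hx' : x = (1 - P.jL) * l := hx
        rw [hw, hx']
        constructor <;> nlinarith
      · exact NURow.sin_ne_pos (by linarith [hd.1]) (by linarith [hd.2])
      · exact NURow.sin_ne_pos (by linarith [hd.1]) (by linarith [hd.2])
      · exact NURow.sin_ne_neg (by linarith [hd.2]) (by linarith [hd.1])
      · rcases h with h | h <;> exact absurd h (by decide)
    · refine ⟨Set.Icc (47 / 20 * l) (51 / 20 * l), fun x hx => ?_,
        PB_SF_of isCompact_Icc c (some .S) (fun _ h => ?_) (fun _ h => ?_)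
          (fun _ _ d hd => ⟨?_, ?_⟩)⟩
      · rw [hw]
        exact ⟨by linarith [hx.2], by linarith [hx.1]⟩
      · rcases h with h | h <;> exact absurd h (by decide)
      · rcases h with h | h <;> exact absurd h (by decide)
      · exact NURow.sin_ne_pos (by linarith [hd.1]) (by linarith [hd.2])
      · exact NURow.sin_ne_pos (by linarith [hd.1]) (by linarith [hd.2])
    · refine ⟨{7 / 4 * l}, fun x hx => ?_,
        PB_SF_of isCompact_singleton c (some .T) (fun _ h => ?_) (fun _ h => ?_)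
          (fun _ _ d hd => ⟨?_, ?_⟩)⟩
      · have hx' : x = -(1 / 2 * l) := hx
        show w.re - x = 7 / 4 * l
        rw [hw, hx']
        ring
      · rcases h with h | h <;> exact absurd h (by decide)
      · rcases h with h | h <;> exact absurd h (by decide)
      · have hd' : d = 7 / 4 * l := hd
        rw [hd']
        exact NURow.sin_ne_pos (by linarith) (by linarith)
      · have hd' : d = 7 / 4 * l := hd
        rw [hd']
        exact NURow.sin_ne_neg (by linarith) (by linarith)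
  have h1 := hc.one w (K := lnS P k) hK'
  rw [one_mul]
  exact h1.1

theorem HLn_F : HLn 1 (-(11 / 4) * l) SF := HLn_of HQ_SF_B (by norm_num)

theorem HLn_P : HLn (-1) (-(11 / 4) * l) SP := HLn_of HQ_SP_B (by norm_num)

section flat

variable {X : Bool → Option O3 → ℂ → ℂ} {ob : (Bool → ℂ → ℝ) → OB} {P : NUO.Par} {x κ : ℝ}
  {E0 : Set ℝ} {q q' p p' : ℝ} {F F' : Bool → Option O3 → ℂ → ℂ} {T T' : Bool → ℂ → ℂ} {w w' : ℂ}

/-- **decay of the functions of a class without poles** -/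
theorem decZ_flat {κ1 : ℝ} (hX : DecZ X P (3 / 5 * l) κ1 0) (hP : ParC P) (hF : HLn q p F)
    (hF' : HLn q' p' F') (hw : w.re = p) (hw' : w'.re = p') {q0 : ℝ} (hq : q' - q = 2 * q0) :
    DecZ (fun a => XS a (X a) F (fl F') w w') P (3 / 5 * l) κ1 q0 := by
  have key : ∀ (a : Bool) (k : Option O3), Bdd (lnS P k) (-(2 * q0 * sc (a, ob4 k)))
      fun u => F a k (w - u) * fl F' a k (w' - u) := by
    intro a k
    have h1 := hF.bd P hP a k w hw
    have h2 := hF'.bd P hP (!a) k w' hw'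
    refine (h1.mul h2).rate ?_
    have e : sc (!a, ob4 k) = -sc (a, ob4 k) := by
      cases a <;> simp [sc]
    rw [e, ← hq]
    ring
  refine ⟨fun s => ?_, fun s => ?_, fun s => ?_, fun s r i hi => ?_⟩
  · exact DecOn.mulB (hX.A s) (key s none) (le_of_eq (by simp only [ob4, Option.elim]; ring))
  · exact DecOn.mulB (hX.L s) (key s (some .L))
      (le_of_eq (by simp only [ob4, ob3, Option.elim]; ring))
  · exact DecOn.mulB (hX.T s) (key s (some .T))
      (le_of_eq (by simp only [ob4, ob3, Option.elim]; ring))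
  · have h := key s (some .S)
    obtain ⟨C, hC, hb⟩ := h
    have h' : Bdd {lnO P r i .S} (-(2 * q0 * sc (s, ob4 (some .S))))
        fun u => F s (some .S) (w - u) * fl F' s (some .S) (w' - u) :=
      ⟨C, hC, fun z hz => hb z (by
        have hz' : z.re = lnO P r i .S := hz
        rw [hz']
        exact lnO_S_mem hP hi)⟩
    exact DecOn.mulB (hX.S s r i hi) h' (le_of_eq (by simp only [ob4, ob3, Option.elim]; ring))

/-- **A class without poles at fixed half quanta is the functional without insertion.** -/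
theorem flat_FF (hB : Bs X ob P x κ E0) {κ1 : ℝ} (hκ1 : 0 < κ1) (hX : DecZ X P (3 / 5 * l) κ1 0)
    (hP : ParC P) (hx0 : 0 < x) (hx1 : x ≤ 1 / 100)
    (hρ : ∀ r, ∃ ρ0, 0 < ρ0 ∧ ∀ t, ρ0 ≤ P.rad r t)
    (hF : HG false q p F T) (hF' : HG false q' p' F' T') (hL : HLn q p F) (hL' : HLn q' p' F')
    (hw : w.re = p) (hw' : w'.re = p') {aX aY : ℕ} (hq : q' - q = 2 * ((aX : ℝ) - aY)) (n : ℕ)
    {η η' : Crs} (hη : ∀ r ≤ n + aX + (n + aY), ∀ᵐ O ∂(Measure.pi fun _ : Fin r => nu),
      CurB x (η r O) (η' r O)) :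
    NURow.ZobjQ (XS true (X true) F (fl F') w w') (XS false (X false) F (fl F') w w')
      (3 / 5 * l) (n + aX) (n + aY) (lX P) (lY P) =
      PBF.FF (fun a => XS a (X a) F (fl F') w w') P (n + aX) (n + aY) η η'
        (fun _ _ _ _ _ => 1) := by
  have hl := l_pos
  have h1 := oneC_flatB hB hF hF' hw hw' hq (x0 := 3 / 5 * l) le_rfl (by linarith)
  refine FF_oneC h1 hP.goodQ hx0 hx1 (by linarith [hP.j2]) hP.rm hκ1 hρ ?_
    (by push_cast; ring) hη
  refine decZ_flat hX hP hL hL' hw hw' ?_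
  rw [hq]
  push_cast
  ring

/-- **The class W W at fixed half quanta is the functional without insertion**, any base. -/
theorem WW_FF (hB : Bs X ob P x κ E0) {κ1 : ℝ} (hκ1 : 0 < κ1) (hX : DecZ X P (3 / 5 * l) κ1 0)
    (hP : ParC P) (hx0 : 0 < x) (hx1 : x ≤ 1 / 100)
    (hρ : ∀ r, ∃ ρ0, 0 < ρ0 ∧ ∀ t, ρ0 ≤ P.rad r t)
    (hw : w.re = 5 / 4 * l) (hw' : w'.re = 5 / 4 * l) (n : ℕ)
    {η η' : Crs} (hη : ∀ r ≤ n + n, ∀ᵐ O ∂(Measure.pi fun _ : Fin r => nu),
      CurB x (η r O) (η' r O)) :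
    NURow.ZobjQ (ZW X w w' true) (ZW X w w' false) (3 / 5 * l) n n (lX P) (lY P) =
      PBF.FF (ZW X w w') P n n η η' (fun _ _ _ _ _ => 1) :=
  flat_FF hB hκ1 hX hP hx0 hx1 hρ HG_SF_A HG_SF_A HLn_W HLn_W hw hw' (aX := 0) (aY := 0)
    (by norm_num) n hη

end flat

/-! ## the regular function -/

section reg

variable {m : ℕ} {D : RD m} {ex ex0 : List ℂ} {c0 : ℝ} {P : NUO.Par} {ep : ℝ} {w w' : ℂ}

/-- **decay of the one body functions of the regular function** -/
theorem decZ_RD (H : D.Ok) (h : REq D ex ex0 c0) (hP : ParC P) :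
    DecZ (XB D.X D.Y) P (3 / 5 * l) (2 * D.β) 0 := by
  have hl := l_pos
  have j1 := hP.j1
  have j2 := hP.j2
  have hB := bs_RD (ep := 1 / 100) H h hP (by norm_num) le_rfl
  have dX := dataX (c := D.c) (b := true) H.b0 H.b1 H.hx H.hy H.gg H.gg0
    (thE_SpecQ true (r := D.p) (o := D.p) (r' := D.q) (o' := D.q) H.hp H.hq)
  have dY := dataX (c := D.c') (b := false) H.b0 H.b1 H.hy H.hx H.gg' H.gg0'
    (thE_SpecQ false (r := D.q) (o := D.q) (r' := D.p) (o' := D.p) H.hq H.hp)
  have hdX := dX.dec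
  have hdY := dY.dec
  refine ⟨fun s => ?_, fun s => ?_, fun s => ?_, fun s r i hi => ?_⟩
  · obtain ⟨C, hC, hb⟩ := hB.bd s
    have h1 : Bdd (Set.Icc (3 / 5 * l) l) (-(2 * D.β)) (XB D.X D.Y s none) :=
      ⟨C, hC, fun z hz => hb z ⟨hz.1, hz.2.trans (by linarith)⟩⟩
    exact DecOn_of_Bdd h1 (le_of_eq (by ring))
  · have hK : ({(1 - P.jL) * l} : Set ℝ) ⊆ Set.Icc (-(17 / 10 * l)) (-(5 / 4 * l)) := by
      intro y hy
      have hy' : y = (1 - P.jL) * l := hy
      rw [hy']
      constructor <;> nlinarith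
    cases s
    · exact decOn_sub (hdY (some .L)) hK (by ring)
    · exact decOn_sub (hdX (some .L)) hK (by ring)
  · have hK : ({-(1 / 2 * l)} : Set ℝ) ⊆ Set.Icc (-(7 / 10 * l)) (-(l / 2)) := by
      intro y hy
      have hy' : y = -(1 / 2 * l) := hy
      rw [hy']
      constructor <;> linarith
    cases s
    · exact decOn_sub (hdY (some .T)) hK (by ring)
    · exact decOn_sub (hdX (some .T)) hK (by ring)
  · have hK : ({lnO P r i .S} : Set ℝ) ⊆ Set.Icc (-(13 / 10 * l)) (-(7 / 10 * l)) := by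
      intro y hy
      have hy' : y = lnO P r i .S := hy
      have := lnO_S_mem hP hi
      rw [hy']
      exact ⟨this.1, this.2.trans (by linarith)⟩
    cases s
    · exact decOn_sub (hdY (some .S)) hK (by ring)
    · exact decOn_sub (hdX (some .S)) hK (by ring)

/-- **The class W W of the regular function at fixed half quanta is the functional without
insertion.** -/
theorem RWW_FF (H : D.Ok) (h : REq D ex ex0 c0) (hP : ParC P) (hep0 : 0 < ep)
    (hep : ep ≤ 1 / 100) (hρ : ∀ r, ∃ ρ0, 0 < ρ0 ∧ ∀ t, ρ0 ≤ P.rad r t)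
    (hw : w.re = 5 / 4 * l) (hw' : w'.re = 5 / 4 * l) (n : ℕ)
    {η η' : Crs} (hη : ∀ r ≤ n + n, ∀ᵐ O ∂(Measure.pi fun _ : Fin r => nu),
      CurB ep (η r O) (η' r O)) :
    NURow.ZobjQ (RZW D w w' true) (RZW D w w' false) (3 / 5 * l) n n (lX P) (lY P) =
      PBF.FF (RZW D w w') P n n η η' (fun _ _ _ _ _ => 1) :=
  WW_FF (bs_RD H h hP hep0 hep) (κ1 := 2 * D.β) (by linarith [H.b0]) (decZ_RD H h hP) hP hep0 hep
    hρ hw hw' n hη

/-- **The value of the class W W of the regular function** as the double integral of the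
functionals. -/
theorem RWW_valFF (H : D.Ok) (h : REq D ex ex0 c0) (hP : ParC P) (hep0 : 0 < ep)
    (hep : ep ≤ 1 / 100) (hρ : ∀ r, ∃ ρ0, 0 < ρ0 ∧ ∀ t, ρ0 ≤ P.rad r t) (n : ℕ)
    (η η' : ℝ × ℝ → Crs) (hη : ∀ y, ∀ r ≤ n + n, ∀ᵐ O ∂(Measure.pi fun _ : Fin r => nu),
      CurB ep (η y r O) (η' y r O)) :
    (D.cF .W .W).val D.X D.Y (3 / 5 * l) n n (lX P) (lY P) =
      ∫ y : ℝ × ℝ, D.KF (vl (5 / 4 * l) y.1) * D.KF' (vl (5 / 4 * l) y.2) *
        Dk (vl (5 / 4 * l) y.1 - vl (5 / 4 * l) y.2) *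
        PBF.FF (RZW D (vl (5 / 4 * l) y.1) (vl (5 / 4 * l) y.2)) P n n (η y) (η' y)
          (fun _ _ _ _ _ => 1) ∂(volume.prod volume) := by
  rw [RWW_val]
  refine integral_congr_ae (Filter.Eventually.of_forall fun y => ?_)
  show _ * NURow.ZobjQ _ _ _ _ _ _ _ = _
  rw [RWW_FF H h hP hep0 hep hρ (by simp [vl]) (by simp [vl]) n (hη y)]

end reg

end PBR

end
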