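import Pool.Agent.PB.MstG
import Pool.Agent.PB.W1FF
import Pool.Agent.PB.ClsFX
import Pool.Agent.PB.Oth2
import Pool.Agent.PB.IntWW
import Pool.Agent.PB.H12

/-!
# The regular function as its class `W W` on a set of half quanta (block R7)

`rgD D`: the classes of the regular function with rows and ends `D` as an `RG`; `EED D n`: the sum of
the eleven integrals; `IsKD K kD D`: the kernels of `D` in the names of `PB/QC20`.

* `EED_eq`: the eleven integrals are the signed sum of the final classes;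
* `mst_split`: everything but the class `W W`;
* `mst_near`: the class `W W` on a measurable set `S`;
* **`mst_FF`**: the same with the functionals `PBF.FF` on `S`, from the bounds of `PB/Oth0`;
* **`mst_fam`**: families of data over a geometry, on the window `|τ|, |τ'| ≤ 3/8 log k`: the error
  `C k ^ (-7/16 + ε) exp (k² EM)` and the pointwise bound of the integrand;
* **`mst_R0`**: rows `0`, ends `0`, cutoff points `± i`.
-/

set_option autoImplicit false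
set_option linter.unusedSectionVars false

noncomputable section

open Complex MeasureTheory Finset Filter
open scoped ENNReal

namespace PBR

open NUO NUP1 NUCR NUP1S NURow NUGC PBX
open NUP1.N (E11)
open NUP1.Leg (Dk)

section one

variable {m : ℕ} (D : RD m) (P : NUO.Par)

/-- **the classes of the regular function** -/
def rgD : RG := ⟨D.X, D.Y, D.KF, D.KP, D.KF', D.KP', D.XD, D.XD'⟩

/-- the class `t, t'` -/
theorem rgD_cl (t t' : HT) : (rgD D).cl t t' = D.cF t t' := rfl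

/-- value of a class -/
theorem rgD_v (t t' : HT) (n : ℕ) :
    (rgD D).v P t t' n = (D.cF t t').val D.X D.Y (3 / 5 * l) n n (lX P) (lY P) := rfl

/-- **the eleven integrals**, `n` quanta of each species -/
def EED (n : ℕ) : ℂ :=
  E11 (3 / 5 * l) (-(17 / 10) * l) D.p D.q D.x D.y D.hX D.hY n n (31 / 50 * l) (-(11 / 4) * l)

variable {D P}

/-- the lines are admissible -/
theorem parM_P (hP : ParM P) : ParP P :=
  ⟨hP.2.1, hP.2.2, hP.1.d0, fun r => by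
    have h3 := hP.1.e2 r
    have h4 := hP.1.d0 r
    linarith⟩

theorem parM_L (hP : ParM P) : LnH (lX P) (lY P) :=
  LnH_P hP.1.goodP hP.1.j1 hP.1.j2 fun r => by
    have h3 := hP.1.e2 r
    have h4 := hP.1.d0 r
    linarith

/-- **The eleven integrals are the signed sum of the final classes.** -/
theorem EED_eq (H : D.Ok) (hβ : 1 < D.β) (hP : ParM P) (n : ℕ) : EED D n = (rgD D).tot P n :=
  H.E11_fin hβ n (parM_P hP) (parM_L hP)

/-! ### the names of `PB/QC20` -/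

/-- **the kernels of `D` in the names of `PB/QC20`** -/
structure IsKD (K : PBQ.KD) (kD : Bool → ℂ → ℂ) (D : RD m) : Prop where
  zX : K.Z true = D.X
  zY : K.Z false = D.Y
  kF : K.kF = D.KF
  kP : K.kP = D.KP
  kF' : K.kF' = D.KF'
  kP' : K.kP' = D.KP'
  k1 : kD true = D.XD
  k2 : kD false = D.XD'

variable {K : PBQ.KD} {kD : Bool → ℂ → ℂ}

theorem IsKD.cl (h : IsKD K kD D) (t t' : HT) : K.cl t t' = (rgD D).cl t t' := by
  unfold PBQ.KD.cl
  rw [h.zX, h.zY, h.kF, h.kP, h.kF', h.kP']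
  rfl

theorem IsKD.cl1 (h : IsKD K kD D) (o : Bool) : cDo o (kD o) = (rgD D).cl1 o := by
  cases o
  · show cD' (kD false) = cD' D.XD'
    rw [h.k2]
  · show cD (kD true) = cD D.XD
    rw [h.k1]

theorem IsKD.sVal (h : IsKD K kD D) (N : ℕ) (t t' : HT) :
    PBO.sVal K P N t t' = ∑ n ∈ range (N + 1), ‖(rgD D).v P t t' n‖ := by
  unfold PBO.sVal RG.v
  rw [h.cl, h.zX, h.zY]
  rfl

theorem IsKD.sValD (h : IsKD K kD D) (N : ℕ) (o : Bool) :
    PBO.sValD K kD P N o = ∑ n ∈ range (N + 1), ‖(rgD D).v1 P o n‖ := by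
  unfold PBO.sValD RG.v1
  rw [h.cl1, h.zX, h.zY]
  rfl

theorem IsKD.sInt (h : IsKD K kD D) (N : ℕ) (t t' : HT) (S : Set (ℝ × ℝ)) :
    PBO.sInt K P N t t' S = ∑ n ∈ range (N + 1), ∫⁻ y in S,
      ‖(rgD D).pre t t' y‖ₑ * ‖(rgD D).Z P t t' n y‖ₑ := by
  unfold PBO.sInt
  rw [h.cl, h.zX, h.zY]
  rfl

/-! ### the split -/

/-- prefactor of the class `W W` -/
def preWW (D : RD m) (y : ℝ × ℝ) : ℂ :=
  D.KF (vl (5 / 4 * l) y.1) * D.KF' (vl (5 / 4 * l) y.2) *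
    Dk (vl (5 / 4 * l) y.1 - vl (5 / 4 * l) y.2)

/-- the functions of the class `W W` at the heights `y` -/
def ZWW (D : RD m) (y : ℝ × ℝ) : Bool → Option O3 → ℂ → ℂ :=
  RZW D (vl (5 / 4 * l) y.1) (vl (5 / 4 * l) y.2)

/-- integrand of the class `W W` -/
def objWW (D : RD m) (P : NUO.Par) (n : ℕ) (y : ℝ × ℝ) : ℂ :=
  NURow.ZobjQ (ZWW D y true) (ZWW D y false) (3 / 5 * l) n n (lX P) (lY P)

theorem rgD_pre (y : ℝ × ℝ) : (rgD D).pre .W .W y = preWW D y := rfl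

theorem rgD_Z (n : ℕ) (y : ℝ × ℝ) : (rgD D).Z P .W .W n y = objWW D P n y :=
  (rgD D).Z_WW P n y

/-- the integrand of the class `W W` is integrable -/
theorem int_preWW (H : D.Ok) (hβ : 1 < D.β) (hP : ParM P) (n : ℕ) :
    Integrable fun y : ℝ × ℝ => preWW D y * objWW D P n y := by
  refine (H.int_WW (by linarith) n (parM_P hP)).congr (Filter.Eventually.of_forall fun y => ?_)
  show (rgD D).pre .W .W y * (rgD D).Z P .W .W n y = _
  rw [rgD_pre, rgD_Z]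

/-- the class `W W` on a measurable set, any numbers -/
theorem ww_near (H : D.Ok) (hβ : 1 < D.β) (hP : ParM P) {N N' : ℕ} (hN : N' ≤ N) {B' : ℝ}
    (hB' : 0 ≤ B') (hK : IsKD K kD D) {S : Set (ℝ × ℝ)} (hS : MeasurableSet S)
    (hf : PBO.sInt K P N .W .W Sᶜ ≤ ENNReal.ofReal B') :
    ‖∑ n ∈ range (N' + 1), (rgD D).v P .W .W n -
      ∫ y in S, preWW D y * ∑ n ∈ range (N' + 1), objWW D P n y‖ ≤ B' := by
  have hi := fun n => int_preWW H hβ hP n
  have e1 : ∫ y in S, preWW D y * ∑ n ∈ range (N' + 1), objWW D P n y =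
      ∑ n ∈ range (N' + 1), ∫ y in S, preWW D y * objWW D P n y := by
    simp only [Finset.mul_sum]
    exact integral_finsetSum _ fun n _ => (hi n).integrableOn
  have e2 : ∀ n ∈ range (N' + 1), (rgD D).v P .W .W n - ∫ y in S, preWW D y * objWW D P n y =
      ∫ y in Sᶜ, preWW D y * objWW D P n y := by
    intro n _
    have e3 : (rgD D).v P .W .W n = ∫ y, preWW D y * objWW D P n y := by
      rw [RG.v_eq]
      exact integral_congr_ae (Filter.Eventually.of_forall fun y => by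
        show (rgD D).pre .W .W y * (rgD D).Z P .W .W n y = _
        rw [rgD_pre, rgD_Z])
    rw [e3, ← integral_add_compl hS (hi n), add_sub_cancel_left]
  rw [e1, ← Finset.sum_sub_distrib, Finset.sum_congr rfl e2]
  have h2 : ‖∑ n ∈ range (N' + 1), ∫ y in Sᶜ, preWW D y * objWW D P n y‖ₑ ≤
      ENNReal.ofReal B' := by
    refine (enorm_sum_le _ _).trans (le_trans ?_ hf)
    rw [hK.sInt]
    refine (Finset.sum_le_sum fun n _ => (enorm_integral_le_lintegral_enorm _).trans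
      (lintegral_mono fun y => ?_)).trans (Finset.sum_le_sum_of_subset_of_nonneg
        (Finset.range_subset_range.2 (by omega)) fun _ _ _ => zero_le)
    rw [rgD_pre, rgD_Z, enorm_mul]
  rw [← ofReal_norm] at h2
  exact (ENNReal.ofReal_le_ofReal_iff hB').1 h2

/-- **The regular function as its class `W W` on a measurable set of half quanta.** -/
theorem mst_near (H : D.Ok) (hβ : 1 < D.β) (hP : ParM P) (hK : IsKD K kD D) {N N' : ℕ}
    (hN : N' ≤ N) {B B' : ℝ} (hB' : 0 ≤ B')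
    (ho : ∀ t t' : HT, ¬(t = .W ∧ t' = .W) → PBO.sVal K P N t t' ≤ B)
    (hd : ∀ o : Bool, PBO.sValD K kD P N o ≤ B)
    {S : Set (ℝ × ℝ)} (hS : MeasurableSet S)
    (hf : PBO.sInt K P N .W .W Sᶜ ≤ ENNReal.ofReal B') :
    ‖∑ n ∈ range (N' + 1), EED D n - (2 * (Real.pi : ℂ))⁻¹ ^ 2 *
      ∫ y in S, preWW D y * ∑ n ∈ range (N' + 1), objWW D P n y‖ ≤
      RG.KA * B + (2 * Real.pi)⁻¹ ^ 2 * B' := by
  have hsub : range (N' + 1) ⊆ range (N + 1) := Finset.range_subset_range.2 (by omega)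
  have e1 : ‖∑ n ∈ range (N' + 1), (rgD D).tot P n -
      (2 * (Real.pi : ℂ))⁻¹ ^ 2 * ∑ n ∈ range (N' + 1), (rgD D).v P .W .W n‖ ≤ RG.KA * B := by
    refine (rgD D).split_le P (fun t t' ht => ?_) fun o => ?_
    · refine le_trans (Finset.sum_le_sum_of_subset_of_nonneg hsub fun _ _ _ => norm_nonneg _) ?_
      rw [← hK.sVal]
      exact ho t t' fun h => ht (by rw [h.1, h.2])
    · refine le_trans (Finset.sum_le_sum_of_subset_of_nonneg hsub fun _ _ _ => norm_nonneg _) ?_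
      rw [← hK.sValD]
      exact hd o
  have e2 := ww_near H hβ hP hN hB' hK hS hf
  rw [Finset.sum_congr rfl fun n _ => EED_eq H hβ hP n]
  have e3 : ∑ n ∈ range (N' + 1), (rgD D).tot P n - (2 * (Real.pi : ℂ))⁻¹ ^ 2 *
      ∫ y in S, preWW D y * ∑ n ∈ range (N' + 1), objWW D P n y =
      (∑ n ∈ range (N' + 1), (rgD D).tot P n -
        (2 * (Real.pi : ℂ))⁻¹ ^ 2 * ∑ n ∈ range (N' + 1), (rgD D).v P .W .W n) +
      (2 * (Real.pi : ℂ))⁻¹ ^ 2 * (∑ n ∈ range (N' + 1), (rgD D).v P .W .W n -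
        ∫ y in S, preWW D y * ∑ n ∈ range (N' + 1), objWW D P n y) := by
    ring
  rw [e3]
  refine (norm_add_le _ _).trans (add_le_add e1 ?_)
  rw [norm_mul, norm_pow, RG.norm_2pi]
  exact mul_le_mul_of_nonneg_left e2 (by positivity)

/-- **The regular function as the functionals of its class `W W` on a set of half quanta.** -/
theorem mst_FF (H : D.Ok) (hβ : 1 < D.β) {ex ex0 : List ℂ} {c0 : ℝ} (hR : REq D ex ex0 c0)
    (hP : ParM P) {ep : ℝ} (hep0 : 0 < ep) (hep : ep ≤ 1 / 100)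
    (hρ : ∀ r, ∃ ρ0, 0 < ρ0 ∧ ∀ t, ρ0 ≤ P.rad r t) (hK : IsKD K kD D) {N N' : ℕ}
    (hN : N' ≤ N) {B B' : ℝ} (hB' : 0 ≤ B')
    (ho : ∀ t t' : HT, ¬(t = .W ∧ t' = .W) → PBO.sVal K P N t t' ≤ B)
    (hd : ∀ o : Bool, PBO.sValD K kD P N o ≤ B)
    {S : Set (ℝ × ℝ)} (hS : MeasurableSet S)
    (hf : PBO.sInt K P N .W .W Sᶜ ≤ ENNReal.ofReal B')
    (η η' : ℝ × ℝ → PBF.Crs) (hη : ∀ y, ∀ r ≤ N' + N', ∀ᵐ O ∂(Measure.pi fun _ : Fin r => nu),
      CurB ep (η y r O) (η' y r O)) :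
    ‖∑ n ∈ range (N' + 1), EED D n - (2 * (Real.pi : ℂ))⁻¹ ^ 2 *
      ∫ y in S, preWW D y * ∑ n ∈ range (N' + 1),
        PBF.FF (ZWW D y) P n n (η y) (η' y) (fun _ _ _ _ _ => 1)‖ ≤
      RG.KA * B + (2 * Real.pi)⁻¹ ^ 2 * B' := by
  have e := mst_near H hβ hP hK hN hB' ho hd hS hf
  have e1 : ∫ y in S, preWW D y * ∑ n ∈ range (N' + 1),
      PBF.FF (ZWW D y) P n n (η y) (η' y) (fun _ _ _ _ _ => 1) =
      ∫ y in S, preWW D y * ∑ n ∈ range (N' + 1), objWW D P n y := by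
    refine setIntegral_congr_fun hS fun y _ => ?_
    beta_reduce
    congr 1
    refine Finset.sum_congr rfl fun n hn => ?_
    exact (RWW_FF H hR hP.1 hep0 hep hρ (by simp [vl]) (by simp [vl]) n
      fun r hr => hη y r (by have := Finset.mem_range.1 hn; omega)).symm
  rw [e1]
  exact e

end one

/-! ### families -/

section fam

variable [NUSea.Sea]

open PBTR (winW)

/-- outside the window the weight is small -/
theorem out_win {k : ℕ} {z : ℝ × ℝ} (hz : z ∈ (winW (3 / 8) k)ᶜ) :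
    15 / 16 * Real.log k ≤ 2 * |z.1| + 2 * |z.2| + |z.1 - z.2| / 2 := by
  have h := PBTR.mT_out hz
  unfold PBTR.mT at h
  linarith

/-- **The regular function over a geometry, on the window.** -/
theorem mst_fam {G : PBO.Geo} (hP : PBO.PerBdR G) {K : ℝ → ℕ → PBQ.KD}
    {kD : ℝ → ℕ → Bool → ℂ → ℂ} (hK : PBO.ClOk G K kD) {D : ∀ (_ : ℝ) (k : ℕ), RD (k - 1)}
    {ex ex0 : List ℂ} {c0 : ℝ}
    (hD : ∀ ep : ℝ, 0 < ep → ep ≤ 1 / 100 → ∀ k : ℕ, (D ep k).Ok ∧ 1 < (D ep k).β ∧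
      REq (D ep k) ex ex0 c0 ∧ IsKD (K ep k) (kD ep k) (D ep k)) :
    ∀ ε : ℝ, 0 < ε → ∃ ep0 : ℝ, 0 < ep0 ∧ ep0 ≤ 1 / 100 ∧
      ∀ ep : ℝ, 0 < ep → ep ≤ ep0 → ∃ (Cst : ℝ) (k0 : ℕ), 0 ≤ Cst ∧ 1 ≤ k0 ∧ ∀ k : ℕ, k0 ≤ k →
        ∀ η η' : ℝ × ℝ → PBF.Crs, (∀ y, ∀ r ≤ 2 * (k - 1) + 2 * (k - 1),
          ∀ᵐ O ∂(Measure.pi fun _ : Fin r => nu), CurB ep (η y r O) (η' y r O)) →
        ‖∑ n ∈ range (2 * (k - 1) + 1), EED (D ep k) n - (2 * (Real.pi : ℂ))⁻¹ ^ 2 *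
          ∫ y in winW (3 / 8) k, preWW (D ep k) y * ∑ n ∈ range (2 * (k - 1) + 1),
            PBF.FF (ZWW (D ep k) y) (NUSea.O.par0 k) n n (η y) (η' y) (fun _ _ _ _ _ => 1)‖ ≤
          Cst * (k : ℝ) ^ (-(7 / 16) + ε) * Real.exp ((k : ℝ) ^ 2 * G.EM) ∧
        ∀ y ∈ winW (3 / 8) k, ‖preWW (D ep k) y * ∑ n ∈ range (2 * (k - 1) + 1),
            PBF.FF (ZWW (D ep k) y) (NUSea.O.par0 k) n n (η y) (η' y) (fun _ _ _ _ _ => 1)‖ ≤
          Cst * ((k : ℝ) ^ ε * Real.exp (-(PBTR.mT y))) * Real.exp ((k : ℝ) ^ 2 * G.EM) := by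
  intro ε hε
  obtain ⟨ep0, h0, h1, hoth⟩ := PBO.oth0 hP hK ε hε
  refine ⟨ep0, h0, h1, fun ep hep hep' => ?_⟩
  obtain ⟨Cst, k0, hC, hk0, hk⟩ := hoth ep hep hep'
  have hep1 : ep ≤ 1 / 100 := hep'.trans h1
  refine ⟨RG.KA * Cst + (2 * Real.pi)⁻¹ ^ 2 * (2 * Cst) + Cst, k0, by
    have := RG.KA_nonneg
    positivity, hk0, fun k hkk η η' hη => ?_⟩
  obtain ⟨ho, hd, hww, hpt⟩ := hk k hkk
  obtain ⟨hOk, hβ, hR, hIs⟩ := hD ep hep hep1 k
  have hk1 : 1 ≤ k := hk0.trans hkk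
  have hkR : (1 : ℝ) ≤ k := by exact_mod_cast hk1
  have hkR0 : (0 : ℝ) < k := by linarith
  have hPk : ParM (NUSea.O.par0 k) := PBO.parM_par0 k
  have hρ := PBC.parZ_low (m := k)
  obtain ⟨X, hX⟩ : ∃ X : ℝ, X = Real.exp ((k : ℝ) ^ 2 * G.EM) := ⟨_, rfl⟩
  have hX0 : 0 < X := by rw [hX]; exact Real.exp_pos _
  rw [← hX] at ho hd hww hpt ⊢
  have hKA := RG.KA_nonneg
  refine ⟨?_, fun y hy => ?_⟩
  · have hw := hww (winW (3 / 8) k)ᶜ (15 / 16 * Real.log k)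
      (PBTR.measurableSet_winW _ _).compl fun z hz => out_win hz
    have e1 : Real.exp (-(15 / 16 * Real.log k)) * (k : ℝ) ^ ε ≤ (k : ℝ) ^ (-(7 / 16) + ε) := by
      have e2 : Real.exp (-(15 / 16 * Real.log k)) = (k : ℝ) ^ (-(15 / 16) : ℝ) := by
        rw [Real.rpow_def_of_pos hkR0]
        congr 1
        ring
      rw [e2, ← Real.rpow_add hkR0]
      exact Real.rpow_le_rpow_of_exponent_le hkR (by linarith)
    have hB' : 0 ≤ 2 * Cst * (k : ℝ) ^ (-(7 / 16) + ε) * X := by positivity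
    have hf : PBO.sInt (K ep k) (NUSea.O.par0 k) (2 * k) .W .W (winW (3 / 8) k)ᶜ ≤
        ENNReal.ofReal (2 * Cst * (k : ℝ) ^ (-(7 / 16) + ε) * X) := by
      refine hw.trans (ENNReal.ofReal_le_ofReal ?_)
      refine mul_le_mul_of_nonneg_right ?_ hX0.le
      calc Cst * (Real.exp (-(15 / 16 * Real.log k)) * (k : ℝ) ^ ε + (k : ℝ) ^ (-(7 / 16) + ε))
          ≤ Cst * ((k : ℝ) ^ (-(7 / 16) + ε) + (k : ℝ) ^ (-(7 / 16) + ε)) := by gcongr
        _ = _ := by ring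
    refine (mst_FF hOk hβ hR hPk hep hep1 hρ hIs (N := 2 * k) (N' := 2 * (k - 1)) (by omega) hB'
      ho hd (PBTR.measurableSet_winW _ _) hf η η' hη).trans ?_
    have h3 : 0 ≤ (k : ℝ) ^ (-(7 / 16) + ε) * X := by positivity
    calc RG.KA * (Cst * (k : ℝ) ^ (-(7 / 16) + ε) * X) + (2 * Real.pi)⁻¹ ^ 2 *
          (2 * Cst * (k : ℝ) ^ (-(7 / 16) + ε) * X)
        = (RG.KA * Cst + (2 * Real.pi)⁻¹ ^ 2 * (2 * Cst)) * ((k : ℝ) ^ (-(7 / 16) + ε) * X) := by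
          ring
      _ ≤ (RG.KA * Cst + (2 * Real.pi)⁻¹ ^ 2 * (2 * Cst) + Cst) *
          ((k : ℝ) ^ (-(7 / 16) + ε) * X) := by
          refine mul_le_mul_of_nonneg_right ?_ h3
          linarith
      _ = _ := by ring
  · have h2 := hpt y hy.1 hy.2
    have e1 : ∑ n ∈ range (2 * (k - 1) + 1),
        PBF.FF (ZWW (D ep k) y) (NUSea.O.par0 k) n n (η y) (η' y) (fun _ _ _ _ _ => 1) =
        ∑ n ∈ range (2 * (k - 1) + 1), objWW (D ep k) (NUSea.O.par0 k) n y := by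
      refine Finset.sum_congr rfl fun n hn => ?_
      exact (RWW_FF hOk hR hPk.1 hep hep1 hρ (by simp [vl]) (by simp [vl]) n
        fun r hr => hη y r (by have := Finset.mem_range.1 hn; omega)).symm
    rw [e1, norm_mul]
    have e2 : PBO.sPt (K ep k) (NUSea.O.par0 k) (2 * k) .W .W (vl (htL .W) y.1)
        (vl (htL .W) y.2) = ‖preWW (D ep k) y‖ * ∑ n ∈ range (2 * k + 1),
          ‖objWW (D ep k) (NUSea.O.par0 k) n y‖ := by
      unfold PBO.sPt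
      rw [hIs.cl, hIs.zX, hIs.zY]
      show ‖(rgD (D ep k)).pre .W .W y‖ * ∑ n ∈ range (2 * k + 1),
        ‖(rgD (D ep k)).Z (NUSea.O.par0 k) .W .W n y‖ = _
      rw [rgD_pre]
      simp only [rgD_Z]
    rw [e2] at h2
    have e3 : ‖∑ n ∈ range (2 * (k - 1) + 1), objWW (D ep k) (NUSea.O.par0 k) n y‖ ≤
        ∑ n ∈ range (2 * k + 1), ‖objWW (D ep k) (NUSea.O.par0 k) n y‖ :=
      (norm_sum_le _ _).trans (Finset.sum_le_sum_of_subset_of_nonneg
        (Finset.range_subset_range.2 (by omega)) fun _ _ _ => norm_nonneg _)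
    refine (mul_le_mul_of_nonneg_left e3 (norm_nonneg _)).trans (h2.trans ?_)
    have e4 : Real.exp (-(2 * |y.1| + 2 * |y.2| + |y.1 - y.2| / 2)) =
        Real.exp (-(PBTR.mT y)) := by
      unfold PBTR.mT
      congr 1
    rw [e4]
    have h4 : 0 ≤ (k : ℝ) ^ ε * Real.exp (-(PBTR.mT y)) := by positivity
    have h5 : 0 ≤ RG.KA * Cst + (2 * Real.pi)⁻¹ ^ 2 * (2 * Cst) := by positivity
    calc Cst * (Real.exp (-(PBTR.mT y)) * (k : ℝ) ^ ε) * X
        = Cst * ((k : ℝ) ^ ε * Real.exp (-(PBTR.mT y))) * X := by ring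
      _ ≤ _ := by
        refine mul_le_mul_of_nonneg_right (mul_le_mul_of_nonneg_right ?_ h4) hX0.le
        linarith

end fam

/-! ### rows `0`, ends `0` -/

attribute [local instance] NUSea.seaP

/-- **The regular function at rows `0`, ends `0`, on the window.**  `k` effective rows, cutoff points
`± i`. -/
theorem mst_R0 (h4 : PBO.S4R (G0 [I, -I] [])) :
    ∀ ε : ℝ, 0 < ε → ∃ ep0 : ℝ, 0 < ep0 ∧ ep0 ≤ 1 / 100 ∧
      ∀ ep : ℝ, 0 < ep → ep ≤ ep0 → ∃ (Cst : ℝ) (k0 : ℕ), 0 ≤ Cst ∧ 1 ≤ k0 ∧ ∀ k : ℕ, k0 ≤ k →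
        ∀ η η' : ℝ × ℝ → PBF.Crs, (∀ y, ∀ r ≤ 2 * (k - 1) + 2 * (k - 1),
          ∀ᵐ O ∂(Measure.pi fun _ : Fin r => nu), CurB ep (η y r O) (η' y r O)) →
        ‖∑ n ∈ range (2 * (k - 1) + 1), EED (R0 (k - 1) (beC ep) [I, -I] []) n -
          (2 * (Real.pi : ℂ))⁻¹ ^ 2 * ∫ y in PBTR.winW (3 / 8) k,
            preWW (R0 (k - 1) (beC ep) [I, -I] []) y * ∑ n ∈ range (2 * (k - 1) + 1),
              PBF.FF (ZWW (R0 (k - 1) (beC ep) [I, -I] []) y) (NUSea.O.par0 k) n n (η y) (η' y)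
                (fun _ _ _ _ _ => 1)‖ ≤
          Cst * (k : ℝ) ^ (-(7 / 16) + ε) * Real.exp ((k : ℝ) ^ 2 * PBVR.EMF0) ∧
        ∀ y ∈ PBTR.winW (3 / 8) k, ‖preWW (R0 (k - 1) (beC ep) [I, -I] []) y *
            ∑ n ∈ range (2 * (k - 1) + 1),
              PBF.FF (ZWW (R0 (k - 1) (beC ep) [I, -I] []) y) (NUSea.O.par0 k) n n (η y) (η' y)
                (fun _ _ _ _ _ => 1)‖ ≤
          Cst * ((k : ℝ) ^ ε * Real.exp (-(PBTR.mT y))) *
            Real.exp ((k : ℝ) ^ 2 * PBVR.EMF0) :=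
  mst_fam (G := G0 [I, -I] []) (PBO.perBd_of0 (G0_nn [I, -I] []) h4 oneR_GI)
    (K := PBO.KX [I, -I] []) (kD := PBO.kDX [I, -I] [])
    (PBO.clOk0 PBO.cutOk_I (fun _ _ => rfl) rfl)
    (D := fun ep k => R0 (k - 1) (beC ep) [I, -I] []) (ex := [I, -I]) (ex0 := [])
    (c0 := 2 * Real.cos l) fun ep h0 h1 k =>
      ⟨PBO.DX_Ok PBO.cutOk_I h0 h1 k, (PBO.beC_bd h0 h1).1, REq_R0 _ _ PBO.cutOk_I.re,
        ⟨rfl, rfl, rfl, rfl, rfl, rfl, rfl, rfl⟩⟩

end PBR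

end
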