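import Pool.Agent.PB.PinAct

/-!
# Plan B: weights of pinned objects against the gain of the tent (module U4)

`gT e1 L t = (8 / 3) (D' - |t|)_+`, `D' = (1 - 4 e1) (3 / 8) L` (`PB/PinAct`): every object carries the
factor `exp (-gT)` beside its activity `act`.  Here: a weight `exp (-q |t_o|)`, `0 ≤ q ≤ 8 / 3`, of one
of the objects is paid by that factor, price `pinB q e1 L = exp (-q D')`, at `L = log m` equal to
`m ^ (-(3/8) q (1 - 4 e1))`; for `q = 2` it is `m ^ (-(3/4) (1 - 4 e1))`.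

* `pin_one`, `pin_one_sh` (centre `s`), `pin_one_poly` (times a polynomial of the height);
* `pin_sum`: `sum_o exp (-q |t_o|) ≤ B 2 ^ r prod exp (gT)`; `pin_sum_two`; `pin_sum_pow`
  (times `(r + 1) ^ p`); `pin_sum_poly`; `pin_sum2` (two different objects);
* `pow_mul_prod_act`, `pin_conf`: insertion into the bound of a configuration.
-/

set_option autoImplicit false
set_option linter.unusedVariables false

noncomputable section

open MeasureTheory

namespace PBP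

open NUO

/-- the price of a weight `exp (-q |t|)`: `B = exp (-q D')` -/
def pinB (q e1 L : ℝ) : ℝ := Real.exp (-(q * Dg e1 L))

theorem pinB_pos (q e1 L : ℝ) : 0 < pinB q e1 L := Real.exp_pos _

/-- `B = m ^ (-(3/8) q (1 - 4 e1))` at `L = log m` -/
theorem pinB_rpow (q e1 : ℝ) {m : ℝ} (hm : 0 < m) :
    pinB q e1 (Real.log m) = m ^ (-(3 / 8 * q * (1 - 4 * e1))) := by
  rw [Real.rpow_def_of_pos hm]
  unfold pinB Dg Tb
  congr 1
  ring

/-- `B = m ^ (-3/4 (1 - 4 e1))` for `q = 2` -/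
theorem pinB_two (e1 : ℝ) {m : ℝ} (hm : 0 < m) :
    pinB 2 e1 (Real.log m) = m ^ (-(3 / 4 * (1 - 4 * e1))) := by
  rw [pinB_rpow 2 e1 hm]
  congr 1
  ring

theorem pinB_add (q q' e1 L : ℝ) : pinB (q + q') e1 L = pinB q e1 L * pinB q' e1 L := by
  unfold pinB
  rw [← Real.exp_add]
  congr 1
  ring

theorem one_le_exp_gT (e1 L t : ℝ) : 1 ≤ Real.exp (gT e1 L t) :=
  Real.one_le_exp (gT_nonneg e1 L t)

/-- **one object**: the weight `exp (-q |t|)`, `0 ≤ q ≤ 8 / 3`, against the gain -/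
theorem pin_one {q : ℝ} (hq0 : 0 ≤ q) (hq : q ≤ 8 / 3) (e1 L t : ℝ) :
    Real.exp (-(q * |t|)) ≤ pinB q e1 L * Real.exp (gT e1 L t) := by
  unfold pinB
  rw [← Real.exp_add, Real.exp_le_exp]
  have h1 := gT_nonneg e1 L t
  have h2 := gT_ge e1 L t
  rcases le_total (|t|) (Dg e1 L) with h | h
  · have h3 : q * (Dg e1 L - |t|) ≤ 8 / 3 * (Dg e1 L - |t|) :=
      mul_le_mul_of_nonneg_right hq (by linarith)
    linarith
  · have h3 := mul_le_mul_of_nonneg_left h hq0
    linarith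

/-- the same with a shifted centre -/
theorem pin_one_sh {q : ℝ} (hq0 : 0 ≤ q) (hq : q ≤ 8 / 3) (e1 L t s : ℝ) :
    Real.exp (-(q * |t - s|)) ≤
      Real.exp (q * |s|) * pinB q e1 L * Real.exp (gT e1 L t) := by
  have h1 := pin_one hq0 hq e1 L t
  have h2 : Real.exp (-(q * |t - s|)) ≤ Real.exp (q * |s|) * Real.exp (-(q * |t|)) := by
    rw [← Real.exp_add, Real.exp_le_exp]
    have h3 : |t| ≤ |t - s| + |s| := by
      calc |t| = |(t - s) + s| := by ring_nf
        _ ≤ _ := abs_add_le _ _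
    have := mul_le_mul_of_nonneg_left h3 hq0
    linarith
  refine h2.trans ?_
  rw [mul_assoc]
  exact mul_le_mul_of_nonneg_left h1 (Real.exp_pos _).le

/-- the same with a polynomial of the height, `p ≤ q (1 + D')` -/
theorem pin_one_poly {q : ℝ} (hq0 : 0 ≤ q) (hq : q ≤ 8 / 3) (p : ℕ) {e1 L : ℝ}
    (hD : 0 ≤ Dg e1 L) (hp : (p : ℝ) ≤ q * (1 + Dg e1 L)) (t : ℝ) :
    (1 + |t|) ^ p * Real.exp (-(q * |t|)) ≤
      (1 + Dg e1 L) ^ p * pinB q e1 L * Real.exp (gT e1 L t) := by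
  have hD1 : 0 < 1 + Dg e1 L := by linarith
  have ht := abs_nonneg t
  rcases le_total (|t|) (Dg e1 L) with h | h
  · rw [mul_assoc]
    refine mul_le_mul ?_ (pin_one hq0 hq e1 L t) (Real.exp_pos _).le (by positivity)
    exact pow_le_pow_left₀ (by linarith) (by linarith) p
  · -- beyond `D'` the product decreases
    have h1 : (1 + |t|) ^ p ≤ (1 + Dg e1 L) ^ p *
        Real.exp (p * ((|t| - Dg e1 L) / (1 + Dg e1 L))) := by
      rw [Real.exp_nat_mul, ← mul_pow]
      refine pow_le_pow_left₀ (by linarith) ?_ p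
      have h2 := Real.add_one_le_exp ((|t| - Dg e1 L) / (1 + Dg e1 L))
      calc 1 + |t| = (1 + Dg e1 L) * ((|t| - Dg e1 L) / (1 + Dg e1 L) + 1) := by
            field_simp
            ring
        _ ≤ _ := mul_le_mul_of_nonneg_left h2 hD1.le
    have h3 : (p : ℝ) * ((|t| - Dg e1 L) / (1 + Dg e1 L)) ≤ q * (|t| - Dg e1 L) := by
      rw [← mul_div_assoc, div_le_iff₀ hD1]
      have := mul_le_mul_of_nonneg_right hp (by linarith : 0 ≤ |t| - Dg e1 L)
      linarith
    calc (1 + |t|) ^ p * Real.exp (-(q * |t|))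
        ≤ (1 + Dg e1 L) ^ p * Real.exp (q * (|t| - Dg e1 L)) * Real.exp (-(q * |t|)) := by
          refine mul_le_mul_of_nonneg_right (h1.trans ?_) (Real.exp_pos _).le
          exact mul_le_mul_of_nonneg_left (Real.exp_le_exp.mpr h3) (by positivity)
      _ = (1 + Dg e1 L) ^ p * pinB q e1 L * 1 := by
          unfold pinB
          rw [mul_assoc, ← Real.exp_add, mul_one]
          congr 2
          ring
      _ ≤ _ := mul_le_mul_of_nonneg_left (one_le_exp_gT _ _ _)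
          (mul_nonneg (by positivity) (pinB_pos _ _ _).le)

/-! ### one pinned object -/

/-- a family: one factor against the product -/
theorem le_prod_of_one {ι : Type*} [Fintype ι] {P : ι → ℝ} (hP : ∀ i, 1 ≤ P i) (i : ι) :
    P i ≤ ∏ j, P j := by
  classical
  rw [← Finset.mul_prod_erase Finset.univ P (Finset.mem_univ i)]
  have h1 : 1 ≤ ∏ j ∈ Finset.univ.erase i, P j :=
    Finset.prod_induction P (fun x => 1 ≤ x) (fun a b ha hb => one_le_mul_of_one_le_of_one_le ha hb)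
      le_rfl fun j _ => hP j
  exact le_mul_of_one_le_right (zero_le_one.trans (hP i)) h1

/-- two different factors against the product -/
theorem mul_le_prod_of_ne {ι : Type*} [Fintype ι] [DecidableEq ι] {P : ι → ℝ}
    (hP : ∀ i, 1 ≤ P i) {i j : ι} (hij : i ≠ j) : P i * P j ≤ ∏ k, P k := by
  rw [← Finset.mul_prod_erase Finset.univ P (Finset.mem_univ i),
    ← Finset.mul_prod_erase (Finset.univ.erase i) P
      (Finset.mem_erase.mpr ⟨hij.symm, Finset.mem_univ j⟩), ← mul_assoc]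
  have h1 : 1 ≤ ∏ k ∈ (Finset.univ.erase i).erase j, P k :=
    Finset.prod_induction P (fun x => 1 ≤ x) (fun a b ha hb => one_le_mul_of_one_le_of_one_le ha hb)
      le_rfl fun k _ => hP k
  exact le_mul_of_one_le_right (mul_nonneg (zero_le_one.trans (hP i)) (zero_le_one.trans (hP j))) h1

/-- **abstract form**: weights `w i ≤ A * P i` of one object, `P ≥ 1` -/
theorem sum_le_of_one {r : ℕ} {w P : Fin r → ℝ} {A : ℝ} (hA : 0 ≤ A) (hP : ∀ i, 1 ≤ P i)
    (hw : ∀ i, w i ≤ A * P i) : ∑ i, w i ≤ A * r * ∏ i, P i := by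
  calc ∑ i, w i ≤ ∑ _i : Fin r, A * ∏ j, P j :=
        Finset.sum_le_sum fun i _ => (hw i).trans
          (mul_le_mul_of_nonneg_left (le_prod_of_one hP i) hA)
    _ = A * r * ∏ i, P i := by
        rw [Finset.sum_const, Finset.card_univ, Fintype.card_fin, nsmul_eq_mul]
        ring

/-- `r ≤ 2 ^ r` -/
theorem cast_le_two_pow (r : ℕ) : (r : ℝ) ≤ 2 ^ r := by
  exact_mod_cast Nat.lt_two_pow_self.le

/-- `(r + 1) ^ p ≤ 3 p! 3 ^ r` -/
theorem pow_le_fact (p r : ℕ) : ((r : ℝ) + 1) ^ p ≤ 3 * p.factorial * 3 ^ r := by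
  have h1 := Real.pow_div_factorial_le_exp ((r : ℝ) + 1) (by positivity) p
  rw [div_le_iff₀ (by positivity)] at h1
  have h2 : Real.exp ((r : ℝ) + 1) ≤ 3 ^ r * 3 := by
    have e3 : Real.exp 1 ≤ 3 := by
      have := Real.exp_one_lt_d9
      linarith
    have : Real.exp ((r : ℝ) + 1) = Real.exp 1 ^ r * Real.exp 1 := by
      rw [← Real.exp_nat_mul, ← Real.exp_add, mul_one]
    rw [this]
    exact mul_le_mul (pow_le_pow_left₀ (Real.exp_pos _).le e3 r) e3 (Real.exp_pos _).le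
      (by positivity)
  calc ((r : ℝ) + 1) ^ p ≤ Real.exp ((r : ℝ) + 1) * p.factorial := h1
    _ ≤ 3 ^ r * 3 * p.factorial := mul_le_mul_of_nonneg_right h2 (by positivity)
    _ = _ := by ring

/-- the gain of a configuration -/
def gPi (e1 L : ℝ) {r : ℕ} (t : Fin r → ℝ) : ℝ := ∏ i, Real.exp (gT e1 L (t i))

theorem one_le_gPi (e1 L : ℝ) {r : ℕ} (t : Fin r → ℝ) : 1 ≤ gPi e1 L t :=
  Finset.prod_induction _ (fun x => 1 ≤ x) (fun a b ha hb => one_le_mul_of_one_le_of_one_le ha hb)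
    le_rfl fun i _ => one_le_exp_gT e1 L (t i)

/-- **one pinned object**: `sum_o exp (-q |t_o|) ≤ B 2 ^ r prod exp (gT)`, `0 ≤ q ≤ 8 / 3` -/
theorem pin_sum {q : ℝ} (hq0 : 0 ≤ q) (hq : q ≤ 8 / 3) (e1 L : ℝ) {r : ℕ} (t : Fin r → ℝ) :
    ∑ i, Real.exp (-(q * |t i|)) ≤ pinB q e1 L * 2 ^ r * ∏ i, Real.exp (gT e1 L (t i)) := by
  refine (sum_le_of_one (pinB_pos q e1 L).le (fun i => one_le_exp_gT e1 L (t i))
    (fun i => pin_one hq0 hq e1 L (t i))).trans ?_
  refine mul_le_mul_of_nonneg_right ?_ (zero_le_one.trans (one_le_gPi e1 L t))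
  exact mul_le_mul_of_nonneg_left (cast_le_two_pow r) (pinB_pos q e1 L).le

/-- the form `q = 2`, `L = log m` -/
theorem pin_sum_two (e1 : ℝ) {m : ℝ} (hm : 0 < m) {r : ℕ} (t : Fin r → ℝ) :
    ∑ i, Real.exp (-(2 * |t i|)) ≤
      m ^ (-(3 / 4 * (1 - 4 * e1))) * 2 ^ r * ∏ i, Real.exp (gT e1 (Real.log m) (t i)) := by
  have h := pin_sum (q := 2) (by norm_num) (by norm_num) e1 (Real.log m) t
  rwa [pinB_two e1 hm] at h

/-- **with a polynomial of the number of objects**: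
`(r + 1) ^ p * sum_o exp (-q |t_o|) ≤ 3 p! B 6 ^ r prod exp (gT)` -/
theorem pin_sum_pow {q : ℝ} (hq0 : 0 ≤ q) (hq : q ≤ 8 / 3) (p : ℕ) (e1 L : ℝ) {r : ℕ}
    (t : Fin r → ℝ) :
    ((r : ℝ) + 1) ^ p * ∑ i, Real.exp (-(q * |t i|)) ≤
      3 * p.factorial * pinB q e1 L * 6 ^ r * ∏ i, Real.exp (gT e1 L (t i)) := by
  have h1 := pin_sum hq0 hq e1 L t
  have h2 := pow_le_fact p r
  have hs : 0 ≤ ∑ i, Real.exp (-(q * |t i|)) :=
    Finset.sum_nonneg fun i _ => (Real.exp_pos _).le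
  calc ((r : ℝ) + 1) ^ p * ∑ i, Real.exp (-(q * |t i|))
      ≤ (3 * p.factorial * 3 ^ r) *
        (pinB q e1 L * 2 ^ r * ∏ i, Real.exp (gT e1 L (t i))) :=
        mul_le_mul h2 h1 hs (by positivity)
    _ = 3 * p.factorial * pinB q e1 L * (3 * 2) ^ r * ∏ i, Real.exp (gT e1 L (t i)) := by
        rw [mul_pow]; ring
    _ = _ := by norm_num

/-- **with polynomials of the height and of the number of objects** -/
theorem pin_sum_poly {q : ℝ} (hq0 : 0 ≤ q) (hq : q ≤ 8 / 3) (p s : ℕ) {e1 L : ℝ}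
    (hD : 0 ≤ Dg e1 L) (hp : (s : ℝ) ≤ q * (1 + Dg e1 L)) {r : ℕ} (t : Fin r → ℝ) :
    ((r : ℝ) + 1) ^ p * ∑ i, (1 + |t i|) ^ s * Real.exp (-(q * |t i|)) ≤
      3 * p.factorial * (1 + Dg e1 L) ^ s * pinB q e1 L * 6 ^ r *
        ∏ i, Real.exp (gT e1 L (t i)) := by
  have hB := (pinB_pos q e1 L).le
  have hD1 : 0 ≤ (1 + Dg e1 L) ^ s := by positivity
  have hG := zero_le_one.trans (one_le_gPi e1 L t)
  have h1 := sum_le_of_one (w := fun i => (1 + |t i|) ^ s * Real.exp (-(q * |t i|)))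
    (mul_nonneg hD1 hB) (fun i => one_le_exp_gT e1 L (t i))
    (fun i => pin_one_poly hq0 hq s hD hp (t i))
  have h3 : (1 + Dg e1 L) ^ s * pinB q e1 L * r * ∏ i, Real.exp (gT e1 L (t i)) ≤
      (1 + Dg e1 L) ^ s * pinB q e1 L * 2 ^ r * ∏ i, Real.exp (gT e1 L (t i)) :=
    mul_le_mul_of_nonneg_right (mul_le_mul_of_nonneg_left (cast_le_two_pow r)
      (mul_nonneg hD1 hB)) hG
  have h2 := pow_le_fact p r
  have hs : 0 ≤ ∑ i, (1 + |t i|) ^ s * Real.exp (-(q * |t i|)) :=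
    Finset.sum_nonneg fun i _ => by positivity
  calc ((r : ℝ) + 1) ^ p * ∑ i, (1 + |t i|) ^ s * Real.exp (-(q * |t i|))
      ≤ (3 * p.factorial * 3 ^ r) *
        ((1 + Dg e1 L) ^ s * pinB q e1 L * 2 ^ r * ∏ i, Real.exp (gT e1 L (t i))) :=
        mul_le_mul h2 (h1.trans h3) hs (by positivity)
    _ = 3 * p.factorial * (1 + Dg e1 L) ^ s * pinB q e1 L * (3 * 2) ^ r *
        ∏ i, Real.exp (gT e1 L (t i)) := by
        rw [mul_pow]; ring
    _ = _ := by norm_num

/-! ### two pinned objects -/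

/-- **two different pinned objects**: `B_q B_q' 4 ^ r prod exp (gT)` -/
theorem pin_sum2 {q q' : ℝ} (hq0 : 0 ≤ q) (hq : q ≤ 8 / 3) (hq0' : 0 ≤ q') (hq' : q' ≤ 8 / 3)
    (e1 L : ℝ) {r : ℕ} (t : Fin r → ℝ) :
    ∑ i, ∑ j ∈ Finset.univ.erase i, Real.exp (-(q * |t i|)) * Real.exp (-(q' * |t j|)) ≤
      pinB q e1 L * pinB q' e1 L * 4 ^ r * ∏ i, Real.exp (gT e1 L (t i)) := by
  classical
  have hG := zero_le_one.trans (one_le_gPi e1 L t)
  have hB := mul_nonneg (pinB_pos q e1 L).le (pinB_pos q' e1 L).le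
  have h1 : ∀ i, ∀ j ∈ Finset.univ.erase i,
      Real.exp (-(q * |t i|)) * Real.exp (-(q' * |t j|)) ≤
        pinB q e1 L * pinB q' e1 L * ∏ i, Real.exp (gT e1 L (t i)) := by
    intro i j hj
    have hij : i ≠ j := ((Finset.mem_erase.mp hj).1).symm
    calc Real.exp (-(q * |t i|)) * Real.exp (-(q' * |t j|))
        ≤ (pinB q e1 L * Real.exp (gT e1 L (t i))) *
          (pinB q' e1 L * Real.exp (gT e1 L (t j))) :=
          mul_le_mul (pin_one hq0 hq e1 L (t i)) (pin_one hq0' hq' e1 L (t j))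
            (Real.exp_pos _).le (mul_nonneg (pinB_pos q e1 L).le (Real.exp_pos _).le)
      _ = pinB q e1 L * pinB q' e1 L * (Real.exp (gT e1 L (t i)) * Real.exp (gT e1 L (t j))) := by
          ring
      _ ≤ _ := mul_le_mul_of_nonneg_left
          (mul_le_prod_of_ne (fun k => one_le_exp_gT e1 L (t k)) hij) hB
  have h2 : ∀ i : Fin r, ∑ j ∈ Finset.univ.erase i,
      Real.exp (-(q * |t i|)) * Real.exp (-(q' * |t j|)) ≤
        2 ^ r * (pinB q e1 L * pinB q' e1 L * ∏ i, Real.exp (gT e1 L (t i))) := by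
    intro i
    refine (Finset.sum_le_sum (h1 i)).trans ?_
    rw [Finset.sum_const, nsmul_eq_mul]
    refine mul_le_mul_of_nonneg_right ?_ (mul_nonneg hB hG)
    refine le_trans ?_ (cast_le_two_pow r)
    have : (Finset.univ.erase i).card ≤ r := by
      calc (Finset.univ.erase i).card ≤ (Finset.univ : Finset (Fin r)).card :=
            Finset.card_erase_le
        _ = r := by rw [Finset.card_univ, Fintype.card_fin]
    exact_mod_cast this
  calc ∑ i, ∑ j ∈ Finset.univ.erase i, Real.exp (-(q * |t i|)) * Real.exp (-(q' * |t j|))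
      ≤ ∑ _i : Fin r, 2 ^ r * (pinB q e1 L * pinB q' e1 L * ∏ i, Real.exp (gT e1 L (t i))) :=
        Finset.sum_le_sum fun i _ => h2 i
    _ = (r : ℝ) * (2 ^ r * (pinB q e1 L * pinB q' e1 L * ∏ i, Real.exp (gT e1 L (t i)))) := by
        rw [Finset.sum_const, Finset.card_univ, Fintype.card_fin, nsmul_eq_mul]
    _ ≤ 2 ^ r * (2 ^ r * (pinB q e1 L * pinB q' e1 L * ∏ i, Real.exp (gT e1 L (t i)))) :=
        mul_le_mul_of_nonneg_right (cast_le_two_pow r)
          (mul_nonneg (by positivity) (mul_nonneg hB hG))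
    _ = pinB q e1 L * pinB q' e1 L * (2 * 2) ^ r * ∏ i, Real.exp (gT e1 L (t i)) := by
        rw [mul_pow]; ring
    _ = _ := by norm_num

/-! ### absorption in the activities -/

/-- a power of the number of objects goes into the constant of `act` -/
theorem pow_mul_prod_act {C C' c b : ℝ} {k : ℕ} {L ep e1 J K : ℝ} {r : ℕ} (t : Fin r → ℝ) :
    K ^ r * ∏ i, act C C' c b k L ep e1 J r (t i) = ∏ i, act (K * C) C' c b k L ep e1 J r (t i) := by
  have h : ∀ i, act (K * C) C' c b k L ep e1 J r (t i) =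
      K * act C C' c b k L ep e1 J r (t i) := by
    intro i
    unfold act
    ring
  simp only [h]
  rw [Finset.prod_mul_distrib, Finset.prod_const, Finset.card_univ, Fintype.card_fin]

/-- **the marked configuration**: a weight `Ψ ≤ B K ^ r prod exp (gT)` times a configuration
bounded by `Q * prod (act * exp (-gT)) * E` is at most `B Q prod (K act) E` -/
theorem pin_conf {C C' c b : ℝ} {k : ℕ} {L ep e1 J K B Q E Ψ F : ℝ} {r : ℕ} {t : Fin r → ℝ}
    (hF0 : 0 ≤ F) (hB : 0 ≤ B) (hK : 0 ≤ K)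
    (hΨ : Ψ ≤ B * K ^ r * ∏ i, Real.exp (gT e1 L (t i)))
    (hF : F ≤ Q * (∏ i, act C C' c b k L ep e1 J r (t i) * Real.exp (-gT e1 L (t i))) * E) :
    Ψ * F ≤ B * Q * (∏ i, act (K * C) C' c b k L ep e1 J r (t i)) * E := by
  have hG := zero_le_one.trans (one_le_gPi e1 L t)
  have h0 : 0 ≤ B * K ^ r * ∏ i, Real.exp (gT e1 L (t i)) :=
    mul_nonneg (by positivity) hG
  have h1 : (∏ i, Real.exp (gT e1 L (t i))) *
      ∏ i, act C C' c b k L ep e1 J r (t i) * Real.exp (-gT e1 L (t i)) =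
      ∏ i, act C C' c b k L ep e1 J r (t i) := by
    rw [← Finset.prod_mul_distrib]
    refine Finset.prod_congr rfl fun i _ => ?_
    rw [Real.exp_neg]
    have := (Real.exp_pos (gT e1 L (t i))).ne'
    field_simp
  calc Ψ * F ≤ (B * K ^ r * ∏ i, Real.exp (gT e1 L (t i))) * F :=
        mul_le_mul_of_nonneg_right hΨ hF0
    _ ≤ (B * K ^ r * ∏ i, Real.exp (gT e1 L (t i))) *
        (Q * (∏ i, act C C' c b k L ep e1 J r (t i) * Real.exp (-gT e1 L (t i))) * E) :=
        mul_le_mul_of_nonneg_left hF h0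
    _ = B * Q * (K ^ r * ((∏ i, Real.exp (gT e1 L (t i))) *
        ∏ i, act C C' c b k L ep e1 J r (t i) * Real.exp (-gT e1 L (t i)))) * E := by ring
    _ = B * Q * (∏ i, act (K * C) C' c b k L ep e1 J r (t i)) * E := by
        rw [h1, pow_mul_prod_act]

end PBP

end
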