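import Pool.Agent.PB.HolU
import Pool.Agent.NUGC.GlueC
import Pool.Agent.NUGC.GlueCore

/-!
# Plan B: the sum over the configurations and over the number of quanta, with an insertion

* `trE_le`, `FE_le`: one configuration and the functional against the positive gas, nonnegative
  insertions;
* `PerI`: the tilted bound of one configuration with an insertion, on given curves (`n + aX`, `n + aY`
  quanta, tilts `± d` around `ν`, prefactor `Q`);
* **`fe_sum`**: `∑ n ≤ N, FE Z P (n + aX) (n + aY) .. φ ≤ 4 (1 + 1 / d) Q exp (δ L)`;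
* **`fa_sum`**: the same for `FA`.
-/

set_option autoImplicit false
set_option linter.unusedSectionVars false

noncomputable section

open Complex MeasureTheory Finset
open scoped ENNReal

namespace PBF

open NUO NUP1 NUP1S NUP1S.Ab NUP1S.AbC NUGC NUCR

variable {Z : Bool → Option O3 → ℂ → ℂ} {P : NUO.Par} {n n' : ℕ} {η η' : Crs}

/-- **one configuration**: `trE` is bounded by the term of the positive gas -/
theorem trE_le {B : OB} {ep κ x0 : ℝ} {Q : ℤ} {E : Set ℝ} (h : OneC Z B P ep κ x0 Q E)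
    (hP : GoodP P) {r : ℕ} (O : Fin r → Xo) (hE : ∀ i, ht (O i) ∉ E)
    (hη : CurB ep (η r O) (η' r O)) (hep : ep ≤ 1 / 100) (φ : InsE) :
    trE Z P n n' η η' φ r O ≤ FnI B P (η r O) (η' r O) n n' O (φ r O) := by
  unfold trE FnI
  split_ifs with hc
  swap
  · exact le_rfl
  have hcr : CrvR (ep / 4) (η r O) (η' r O) := by
    have hl := Bd.l_pos
    refine ⟨hη.hd, hη.hc, fun t => ?_, fun t => ?_, hη.hb⟩
    · have := (abs_le.1 (hη.h1 t)).1
      linarith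
    · have := (abs_le.1 (hη.h1 t)).2
      nlinarith
  refine mul_le_mul' ?_ (mul_le_mul' le_rfl (lintegral_mono fun x => mul_le_mul' ?_ le_rfl))
  · rw [← ofReal_norm]
    exact ENNReal.ofReal_le_ofReal (norm_wK_le h hP O hE)
  · rw [← ofReal_norm, norm_gK]
    refine ENNReal.ofReal_le_ofReal ?_
    have hq : ∀ s t, qG (Z s none) P (η r O) O s t ≤ qAc B P (η r O) O s t := by
      intro s t
      unfold qG qAc
      refine mul_le_mul_of_nonneg_right (mul_le_mul_of_nonneg_left (h.A s _ ?_) (by positivity))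
        (Finset.prod_nonneg fun i _ => potN_nonneg _ _ _ _ _)
      exact pA_mem hcr t
    have h0 : ∀ s t, 0 ≤ qG (Z s none) P (η r O) O s t := by
      intro s t
      unfold qG
      exact mul_nonneg (by positivity) (Finset.prod_nonneg fun i _ => potN_nonneg _ _ _ _ _)
    exact WO_mono _ _ _ _ (h0 true) (hq true) (h0 false) (hq false) _ _

/-- **`FE` is bounded by the positive gas with the insertion** -/
theorem FE_le {B : OB} {ep κ x0 : ℝ} {Q : ℤ} {E : Set ℝ} (h : OneC Z B P ep κ x0 Q E)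
    (hP : GoodP P) (hη : ∀ r O, CurB ep (η r O) (η' r O)) (hep : ep ≤ 1 / 100) (φ : InsE) :
    FE Z P n n' η η' φ ≤ ∑ r ∈ range (n + n' + 1), ((r.factorial : ℕ) : ℝ≥0∞)⁻¹ *
      ∫⁻ O : Fin r → Xo, FnI B P (η r O) (η' r O) n n' O (φ r O) ∂(Measure.pi fun _ => nu) := by
  unfold FE
  refine Finset.sum_le_sum fun r _ => mul_le_mul' le_rfl (lintegral_mono_ae ?_)
  filter_upwards [ae_ht (r := r) h.nul] with O hO
  exact trE_le h hP O hO (hη r O) hep φ

/-- the positive gas is monotone in the insertion -/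
theorem FnI_mono (B : OB) (P : NUO.Par) (η η' : ℝ → ℝ) (nX nY : ℕ) {r : ℕ} (O : Fin r → Xo)
    {ψ ψ' : (a b : ℕ) → (Fin a → ℝ) × (Fin b → ℝ) → ℝ≥0∞} (h : ∀ a b x, ψ a b x ≤ ψ' a b x) :
    FnI B P η η' nX nY O ψ ≤ FnI B P η η' nX nY O ψ' := by
  unfold FnI
  split_ifs
  · exact mul_le_mul' le_rfl (mul_le_mul' le_rfl (lintegral_mono fun x =>
      mul_le_mul' le_rfl (h _ _ _)))
  · exact le_rfl

/-- **the tilted bound of one configuration with an insertion**, given curves, `n + aX` quanta X,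
`n + aY` quanta Y -/
def PerI (C C' c b : ℝ) (k : ℕ) (c1 c' L ep e1 J ν d : ℝ) (N : ℕ) (B : OB) (P : NUO.Par)
    (aX aY : ℕ) (η η' : ℕ → Crs) (φ : ℕ → InsE) (Q : ℝ) : Prop :=
  ∀ n ≤ N, ∀ b' : ℝ, b' = d ∨ b' = -d → ∀ r ≤ 2 * n + (aX + aY), ∀ (O : Fin r → Xo)
    (W : Finset ℤ), ENNReal.ofReal (Real.exp (b' * (ν - n))) *
      FnI B P (η n r O) (η' n r O) (n + aX) (n + aY) O (φ n r O) ≤
      ENNReal.ofReal (Q * (if (r : ℝ) ≤ L then 1 else Real.exp (c' * L)) *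
        (∏ i, act C C' c b k L ep e1 J r (ht (O i))) *
        Real.exp (-(c1 * ∑ w ∈ W, (cO O w : ℝ) ^ 2)))

theorem PerI.mono {C C' c b : ℝ} {k : ℕ} {c1 c' L ep e1 J ν d : ℝ} {N : ℕ} {B : OB} {P : NUO.Par}
    {aX aY : ℕ} {η η' : ℕ → Crs} {φ φ' : ℕ → InsE} {Q Q' : ℝ} (hC : 0 ≤ C) (hC' : 0 ≤ C')
    (hL : 0 ≤ L) (hφ : ∀ n r O a b x, φ' n r O a b x ≤ φ n r O a b x) (hQ : Q ≤ Q')
    (h : PerI C C' c b k c1 c' L ep e1 J ν d N B P aX aY η η' φ Q) :
    PerI C C' c b k c1 c' L ep e1 J ν d N B P aX aY η η' φ' Q' := by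
  intro n hn b' hb' r hr O W
  refine (mul_le_mul' le_rfl (FnI_mono B P _ _ _ _ O fun a b x => hφ n r O a b x)).trans
    ((h n hn b' hb' r hr O W).trans (ENNReal.ofReal_le_ofReal ?_))
  have h1 : 0 ≤ ∏ i, act C C' c b k L ep e1 J r (ht (O i)) :=
    prod_nonneg fun i _ => act_nonneg hC hC' hL
  have h2 : (0 : ℝ) ≤ if (r : ℝ) ≤ L then 1 else Real.exp (c' * L) := by
    split_ifs
    · exact zero_le_one
    · exact (Real.exp_pos _).le
  exact mul_le_mul_of_nonneg_right (mul_le_mul_of_nonneg_right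
    (mul_le_mul_of_nonneg_right hQ h2) h1) (Real.exp_pos _).le

/-- **the sum over the configurations and over the numbers of quanta**, nonnegative insertions -/
theorem fe_sum {C c b c1 c' : ℝ} {k : ℕ} (hC : 0 < C) (hc : 0 < c) (hb : 0 < b) (hc1 : 0 < c1)
    (hc' : 0 ≤ c') {δ : ℝ} (hδ : 0 < δ) :
    ∃ a0 : ℝ, 0 < a0 ∧ ∀ C' : ℝ, 0 ≤ C' → ∃ L0 : ℝ, ∀ L ≥ L0, ∀ ep : ℝ, 0 ≤ ep → ep ≤ 1 / 100 →
      ∀ e1 : ℝ, 0 < e1 → e1 ≤ 1 / 4 → ∀ J : ℝ, 0 ≤ J →
      Real.exp (-(2 * Real.pi * J)) + 3 * e1 + 3 * ep ≤ a0 →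
      ∀ (ν d Q : ℝ) (N aX aY : ℕ) (Z : Bool → Option O3 → ℂ → ℂ) (B : OB) (P : NUO.Par)
        (κ x0 : ℝ) (Qz : ℤ) (E : Set ℝ) (η η' : ℕ → Crs) (φ : ℕ → InsE), 0 < d → 0 ≤ Q →
      ((2 * N + (aX + aY) + 1 : ℕ) : ℝ) ≤ Real.exp (2 * L) →
      OneC Z B P ep κ x0 Qz E → GoodP P → (∀ n ≤ N, ∀ r O, CurB ep (η n r O) (η' n r O)) →
      PerI C C' c b k c1 c' L ep e1 J ν d N B P aX aY η η' φ Q →
      ∑ n ∈ range (N + 1), FE Z P (n + aX) (n + aY) (η n) (η' n) (φ n) ≤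
        ENNReal.ofReal (4 * (1 + 1 / d) * (Q * Real.exp (δ * L))) := by
  obtain ⟨a0, ha0, h⟩ := conf_sum (C := C) (c := c) (b := b) (k := k) hC hc1 hc' hδ
  refine ⟨a0, ha0, fun C' hC' => ?_⟩
  obtain ⟨D, L0, -, h⟩ := h C' hC' (actInt hC.le hC' hc hb k)
  refine ⟨L0, fun L hL ep hep hep' e1 he1 he1' J hJ hsm ν d Q N aX aY Z B P κ x0 Qz E η η' φ
    hd hQ hN hone hP hcur hper => ?_⟩
  have key : ∀ n < N + 1, ∀ b' : ℝ, b' = d ∨ b' = -d →
      ENNReal.ofReal (Real.exp (b' * (ν - n))) *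
        FE Z P (n + aX) (n + aY) (η n) (η' n) (φ n) ≤ ENNReal.ofReal (Q * Real.exp (δ * L)) := by
    intro n hn b' hb'
    have hn' : n ≤ N := Nat.lt_succ_iff.1 hn
    have h1 := FE_le (n := n + aX) (n' := n + aY) (η := η n) (η' := η' n) hone hP (hcur n hn')
      hep' (φ n)
    calc ENNReal.ofReal (Real.exp (b' * (ν - n))) * FE Z P (n + aX) (n + aY) (η n) (η' n) (φ n)
        ≤ ENNReal.ofReal (Real.exp (b' * (ν - n))) *
          ∑ r ∈ range (n + aX + (n + aY) + 1), ((r.factorial : ℕ) : ℝ≥0∞)⁻¹ *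
            ∫⁻ O : Fin r → Xo, FnI B P (η n r O) (η' n r O) (n + aX) (n + aY) O (φ n r O)
              ∂(Measure.pi fun _ => nu) := mul_le_mul' le_rfl h1
      _ = ∑ r ∈ range (n + aX + (n + aY) + 1), ((r.factorial : ℕ) : ℝ≥0∞)⁻¹ *
            ∫⁻ O : Fin r → Xo, ENNReal.ofReal (Real.exp (b' * (ν - n))) *
              FnI B P (η n r O) (η' n r O) (n + aX) (n + aY) O (φ n r O)
                ∂(Measure.pi fun _ => nu) := by
          rw [Finset.mul_sum]
          refine Finset.sum_congr rfl fun r _ => ?_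
          rw [lintegral_const_mul' _ _ ENNReal.ofReal_ne_top]
          ring
      _ ≤ ENNReal.ofReal (Q * Real.exp (δ * L)) := by
          refine h L hL ep hep (hep'.trans (by norm_num)) e1 he1 he1' J hJ hsm Q hQ
            (n + aX + (n + aY) + 1) ?_ (fun r O => ENNReal.ofReal (Real.exp (b' * (ν - n))) *
              FnI B P (η n r O) (η' n r O) (n + aX) (n + aY) O (φ n r O)) ?_
          · refine le_trans ?_ hN
            exact_mod_cast (by omega : n + aX + (n + aY) + 1 ≤ 2 * N + (aX + aY) + 1)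
          · intro r hr O
            have hr' : r ≤ 2 * n + (aX + aY) := by omega
            refine (hper n hn' b' hb' r hr' O (WZ D L r)).trans
              (ENNReal.ofReal_le_ofReal (le_of_eq ?_))
            have e1 : Q * (if (r : ℝ) ≤ L then 1 else Real.exp (c' * L)) =
                if (r : ℝ) ≤ L then Q else Q * Real.exp (c' * L) := by
              split_ifs
              · rw [mul_one]
              · rfl
            rw [e1]
            rfl
  have h1 := sumN_le (b := 0) (d := d) (s := ν) (Q := Q * Real.exp (δ * L)) hd (by positivity)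
    (fun n => FE Z P (n + aX) (n + aY) (η n) (η' n) (φ n)) (N + 1)
    (fun n hn => by
      have := key n hn d (Or.inl rfl)
      simpa using this)
    (fun n hn => by
      have := key n hn (-d) (Or.inr rfl)
      simpa using this)
  simpa using h1

/-- **the sum over the configurations and over the numbers of quanta** for `FA` -/
theorem fa_sum {C c b c1 c' : ℝ} {k : ℕ} (hC : 0 < C) (hc : 0 < c) (hb : 0 < b) (hc1 : 0 < c1)
    (hc' : 0 ≤ c') {δ : ℝ} (hδ : 0 < δ) :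
    ∃ a0 : ℝ, 0 < a0 ∧ ∀ C' : ℝ, 0 ≤ C' → ∃ L0 : ℝ, ∀ L ≥ L0, ∀ ep : ℝ, 0 ≤ ep → ep ≤ 1 / 100 →
      ∀ e1 : ℝ, 0 < e1 → e1 ≤ 1 / 4 → ∀ J : ℝ, 0 ≤ J →
      Real.exp (-(2 * Real.pi * J)) + 3 * e1 + 3 * ep ≤ a0 →
      ∀ (ν d Q : ℝ) (N aX aY : ℕ) (Z : Bool → Option O3 → ℂ → ℂ) (B : OB) (P : NUO.Par)
        (κ x0 : ℝ) (Qz : ℤ) (E : Set ℝ) (η η' : ℕ → Crs) (Ψ : ℕ → Ins), 0 < d → 0 ≤ Q →
      ((2 * N + (aX + aY) + 1 : ℕ) : ℝ) ≤ Real.exp (2 * L) →
      OneC Z B P ep κ x0 Qz E → GoodP P → (∀ n ≤ N, ∀ r O, CurB ep (η n r O) (η' n r O)) →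
      PerI C C' c b k c1 c' L ep e1 J ν d N B P aX aY η η' (fun n r O a b x => ‖Ψ n r O a b x‖ₑ) Q →
      ∑ n ∈ range (N + 1), FA Z P (n + aX) (n + aY) (η n) (η' n) (Ψ n) ≤
        ENNReal.ofReal (4 * (1 + 1 / d) * (Q * Real.exp (δ * L))) := by
  obtain ⟨a0, ha0, h⟩ := fe_sum (k := k) hC hc hb hc1 hc' hδ
  refine ⟨a0, ha0, fun C' hC' => ?_⟩
  obtain ⟨L0, h⟩ := h C' hC'
  exact ⟨L0, fun L hL ep hep hep' e1 he1 he1' J hJ hsm ν d Q N aX aY Z B P κ x0 Qz E η η' Ψ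
    hd hQ hN hone hP hcur hper => h L hL ep hep hep' e1 he1 he1' J hJ hsm ν d Q N aX aY Z B P κ x0
      Qz E η η' (fun n r O a b x => ‖Ψ n r O a b x‖ₑ) hd hQ hN hone hP hcur hper⟩

end PBF

end
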