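import Pool.Agent.NUGC.GasQ
import Pool.Agent.NUP1S.WordZ

/-!
# Plan B: the functional of a class with an insertion

Class data: one body functions `Z : Bool → Option O3 → ℂ → ℂ` (species; `none` = quanta `A`, `some k` =
objects), parameters `P`, numbers `n`, `n'` of quanta X, Y (quanta of the objects included).

* `obK`, `wK`: complex weights of an object, of a configuration; `norm_obK`, `norm_wK`;
* `gF`, `gK`: one body functions of the quanta in the field of the objects, the integrand of the quanta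
  on the curve `pA η`; `norm_gK`;
* `Ins`: insertions (functions of the objects and of the real parameters of the quanta);
* `trm`, `FF`: the term of a configuration, the functional; `trA`, `FA`: the same with moduli;
* `FF_le`; `Good`: admissible insertions, `FF_add`, `FF_cmul`, `FF_sub`;
* `FnI`, `trA_le`, `FA_le`: `FA` is bounded by the terms of the positive gas with the insertion;
  `FnI_obj`: insertions of the objects.
-/

set_option autoImplicit false
set_option linter.unusedSectionVars false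

noncomputable section

open Complex MeasureTheory Finset
open scoped ENNReal

namespace PBF

open NUO NUP1 NUP1S NUP1S.Ab NUP1S.AbC NUGC NUCR

variable {r : ℕ}

/-! ### weights of the objects -/

/-- complex one body weight of an object -/
def obK (Z : Bool → Option O3 → ℂ → ℂ) (jL e ρ : ℝ) (x : Xo) : ℂ :=
  match kd x with
  | .L => Bd.wt .L * Z (sp x) (some .L) (posL jL (ht x))
  | .St => Bd.wt .S * Z (sp x) (some .T) (posT (ht x))
  | .S => Bd.wt .S * Z (sp x) (some .S) (posS e (ht x))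
  | .Sv => Bd.wt .S * (Z (sp x) (some .S) (posS e (ht x)) *
      (-(ρ * Complex.exp (2 * Real.pi * an x * I)) *
        (Z (!sp x) none (posV e ρ (ht x) (an x)) *
          Kn.cz false true (posV e ρ (ht x) (an x) - posS e (ht x)))))
  | .Svv => Bd.wt .S * (Z (sp x) (some .S) (posS e (ht x)) * ((sin (2 * l) / sin l) ^ 2 *
      (Z (!sp x) none (posS e (ht x) + 2 * l) * (1 / sin (5 * l) ^ 2)) ^ 2))

theorem norm_obK (Z : Bool → Option O3 → ℂ → ℂ) (jL e : ℝ) {ρ : ℝ} (hρ : 0 ≤ ρ) (x : Xo) :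
    ‖obK Z jL e ρ x‖ = obZ Z jL e ρ x := by
  unfold obK obZ
  rcases h : kd x with _ | _ | _ | _ | _ <;> simp only []
  · rw [norm_mul, norm_wt_L]
  · rw [norm_mul, norm_wt_S]
  · rw [norm_mul, norm_wt_S]
  · have e1 : ‖(ρ : ℂ) * Complex.exp (2 * Real.pi * an x * I)‖ = ρ := by
      rw [norm_mul, norm_real, Real.norm_of_nonneg hρ]
      have : Complex.exp (2 * Real.pi * an x * I) =
          Complex.exp (((2 * Real.pi * an x : ℝ) : ℂ) * I) := by
        push_cast
        rfl
      rw [this, norm_exp_ofReal_mul_I, mul_one]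
    rw [norm_mul, norm_wt_S, norm_mul, norm_mul, norm_neg, e1, norm_mul]
    ring
  · rw [norm_mul, norm_wt_S, norm_mul, norm_mul, norm_two_cos, norm_pow, norm_mul, norm_sin5,
      mul_one_div]
    ring

/-- complex weight of a configuration -/
def wK (Z : Bool → Option O3 → ℂ → ℂ) (P : NUO.Par) (O : Fin r → Xo) : ℂ :=
  (∏ i, obK Z P.jL (ei P O i) (rr P O i) (O i)) * PU fun i j => ppC (cons P O i) (cons P O j)

theorem norm_wK (Z : Bool → Option O3 → ℂ → ℂ) {P : NUO.Par} (hr : ∀ r t, 0 ≤ P.rad r t)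
    (O : Fin r → Xo) : ‖wK Z P O‖ = WW (oZ Z P O) (cons P O) := by
  unfold wK WW oZ
  rw [norm_mul, norm_prod]
  congr 1
  exact Finset.prod_congr rfl fun i _ => norm_obK Z _ _ (hr _ _) _

/-! ### the quanta on the curve -/

/-- one body functions of the quanta in the field of the objects -/
def gF (Z : Bool → Option O3 → ℂ → ℂ) (P : NUO.Par) (O : Fin r → Xo) : Bool → ℂ → ℂ :=
  g2 (fun z => Z true none z * potC P O true z) (fun z => Z false none z * potC P O false z)

/-- the integrand of `a` quanta X and `b` quanta Y on the curve `pA η` -/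
def gK (G : Bool → ℂ → ℂ) (η η' : ℝ → ℝ) (a b : ℕ) (x : (Fin a → ℝ) × (Fin b → ℝ)) : ℂ :=
  Fc p0 G (cCt a b (crvC true NUP1.l (dA η) (dA η')) (crvC false NUP1.l (dA η) (dA η')))
    (Sum.elim x.1 x.2)

theorem pA_crv (η : ℝ → ℝ) (t : ℝ) : vl NUP1.l t + I * dA η t = NUO.pA η t := by
  unfold NUO.pA vl dA
  push_cast
  linear_combination (η t : ℂ) * I_sq

theorem norm_gK (Z : Bool → Option O3 → ℂ → ℂ) (P : NUO.Par) (O : Fin r → Xo) (η η' : ℝ → ℝ)
    (a b : ℕ) (x : (Fin a → ℝ) × (Fin b → ℝ)) :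
    ‖gK (gF Z P O) η η' a b x‖ = NU42.WO (dA η) (dA η') (dA η) (dA η')
      (qG (Z true none) P η O true) (qG (Z false none) P η O false) x.1 x.2 := by
  unfold gK
  rw [norm_Fc]
  have hq : ∀ (s : Bool), qG (Z s none) P η O s = fun t => (2 * Real.pi)⁻¹ *
      ‖Wt p0 (gF Z P O) s (vl NUP1.l t + I * dA η t)‖ := by
    intro s
    funext t
    rw [Wt_p0, pA_crv]
    unfold qG gF g2
    cases s
    · simp only [Bool.false_eq_true, if_false]
      rw [norm_mul, norm_potC]
      ring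
    · simp only [if_true]
      rw [norm_mul, norm_potC]
      ring
  rw [hq true, hq false, WO_smul]

/-! ### the functional -/

/-- insertions: functions of the objects and of the real parameters of the quanta -/
abbrev Ins : Type := (r : ℕ) → (Fin r → Xo) → (a b : ℕ) → (Fin a → ℝ) × (Fin b → ℝ) → ℂ

/-- curves depending on the configuration -/
abbrev Crs : Type := (r : ℕ) → (Fin r → Xo) → ℝ → ℝ

variable (Z : Bool → Option O3 → ℂ → ℂ) (P : NUO.Par) (n n' : ℕ) (η η' : Crs)

/-- the term of a configuration -/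
def trm (Ψ : Ins) (r : ℕ) (O : Fin r → Xo) : ℂ :=
  if chgO O true ≤ n ∧ chgO O false ≤ n' then
    wK Z P O * ((((n - chgO O true).factorial : ℂ) * (n' - chgO O false).factorial)⁻¹ *
      ∫ x, gK (gF Z P O) (η r O) (η' r O) (n - chgO O true) (n' - chgO O false) x *
        Ψ r O (n - chgO O true) (n' - chgO O false) x)
  else 0

/-- **the functional** -/
def FF (Ψ : Ins) : ℂ :=
  ∑ r ∈ range (n + n' + 1), ((r.factorial : ℕ) : ℂ)⁻¹ *
    ∫ O : Fin r → Xo, trm Z P n n' η η' Ψ r O ∂(Measure.pi fun _ => nu)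

/-- the modulus of the term of a configuration -/
def trA (Ψ : Ins) (r : ℕ) (O : Fin r → Xo) : ℝ≥0∞ :=
  if chgO O true ≤ n ∧ chgO O false ≤ n' then
    ‖wK Z P O‖ₑ * ((((n - chgO O true).factorial : ℝ≥0∞) * (n' - chgO O false).factorial)⁻¹ *
      ∫⁻ x, ‖gK (gF Z P O) (η r O) (η' r O) (n - chgO O true) (n' - chgO O false) x‖ₑ *
        ‖Ψ r O (n - chgO O true) (n' - chgO O false) x‖ₑ)
  else 0

/-- **the functional with moduli** -/
def FA (Ψ : Ins) : ℝ≥0∞ :=
  ∑ r ∈ range (n + n' + 1), ((r.factorial : ℕ) : ℝ≥0∞)⁻¹ *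
    ∫⁻ O : Fin r → Xo, trA Z P n n' η η' Ψ r O ∂(Measure.pi fun _ => nu)

variable {Z P n n' η η'}

theorem enorm_inv_natCast (q : ℕ) (h : q ≠ 0) : ‖((q : ℕ) : ℂ)⁻¹‖ₑ = ((q : ℕ) : ℝ≥0∞)⁻¹ := by
  have h0 : ((q : ℕ) : ℂ) ≠ 0 := by exact_mod_cast h
  rw [enorm_inv h0]
  congr 1
  rw [← ofReal_norm, Complex.norm_natCast, ENNReal.ofReal_natCast]

theorem enorm_fac (a b : ℕ) : ‖((a.factorial : ℂ) * b.factorial)⁻¹‖ₑ =
    ((a.factorial : ℝ≥0∞) * b.factorial)⁻¹ := by
  have h := enorm_inv_natCast (a.factorial * b.factorial)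
    (Nat.mul_ne_zero a.factorial_ne_zero b.factorial_ne_zero)
  push_cast at h
  exact h

theorem trm_le (Ψ : Ins) (r : ℕ) (O : Fin r → Xo) :
    ‖trm Z P n n' η η' Ψ r O‖ₑ ≤ trA Z P n n' η η' Ψ r O := by
  unfold trm trA
  split_ifs
  · rw [enorm_mul, enorm_mul, enorm_fac]
    refine mul_le_mul' le_rfl (mul_le_mul' le_rfl ?_)
    refine (enorm_integral_le_lintegral_enorm _).trans (le_of_eq ?_)
    exact lintegral_congr fun x => enorm_mul _ _
  · rw [enorm_zero]

/-- **the functional is bounded by the functional with moduli** -/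
theorem FF_le (Ψ : Ins) : ‖FF Z P n n' η η' Ψ‖ₑ ≤ FA Z P n n' η η' Ψ := by
  unfold FF FA
  refine (enorm_sum_le _ _).trans (Finset.sum_le_sum fun r _ => ?_)
  rw [enorm_mul, enorm_inv_natCast _ r.factorial_ne_zero]
  refine mul_le_mul' le_rfl ((enorm_integral_le_lintegral_enorm _).trans ?_)
  exact lintegral_mono fun O => trm_le Ψ r O

/-- `FA` is monotone -/
theorem trA_mono {Ψ Ψ' : Ins} (h : ∀ r O a b x, ‖Ψ r O a b x‖ₑ ≤ ‖Ψ' r O a b x‖ₑ) (r : ℕ)
    (O : Fin r → Xo) : trA Z P n n' η η' Ψ r O ≤ trA Z P n n' η η' Ψ' r O := by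
  unfold trA
  split_ifs
  · refine mul_le_mul' le_rfl (mul_le_mul' le_rfl (lintegral_mono fun x => ?_))
    exact mul_le_mul' le_rfl (h _ _ _ _ _)
  · exact le_rfl

theorem FA_mono {Ψ Ψ' : Ins} (h : ∀ r O a b x, ‖Ψ r O a b x‖ₑ ≤ ‖Ψ' r O a b x‖ₑ) :
    FA Z P n n' η η' Ψ ≤ FA Z P n n' η η' Ψ' := by
  unfold FA
  exact Finset.sum_le_sum fun r _ => mul_le_mul' le_rfl (lintegral_mono fun O => trA_mono h r O)

/-! ### admissible insertions -/

variable (Z P n n' η η')

/-- **admissible insertions** -/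
structure Good (Ψ : Ins) : Prop where
  /-- the integrand of the quanta -/
  mi : ∀ (r : ℕ) (O : Fin r → Xo), AEStronglyMeasurable (fun x =>
    gK (gF Z P O) (η r O) (η' r O) (n - chgO O true) (n' - chgO O false) x *
      Ψ r O (n - chgO O true) (n' - chgO O false) x)
  /-- the terms -/
  mo : ∀ r : ℕ, AEStronglyMeasurable (fun O : Fin r → Xo => trm Z P n n' η η' Ψ r O)
    (Measure.pi fun _ => nu)
  /-- finite -/
  fin : FA Z P n n' η η' Ψ < ∞
  /-- the moduli are measurable -/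
  ma : ∀ r : ℕ, AEMeasurable (fun O : Fin r → Xo => trA Z P n n' η η' Ψ r O)
    (Measure.pi fun _ => nu)

variable {Z P n n' η η'}

theorem Good.lint {Ψ : Ins} (h : Good Z P n n' η η' Ψ) {r : ℕ} (hr : r ≤ n + n') :
    ∫⁻ O : Fin r → Xo, trA Z P n n' η η' Ψ r O ∂(Measure.pi fun _ => nu) < ∞ := by
  have h1 := h.fin
  unfold FA at h1
  rw [ENNReal.sum_lt_top] at h1
  have h2 := h1 r (Finset.mem_range.2 (by omega))
  by_contra hc
  rw [not_lt, top_le_iff] at hc
  rw [hc, ENNReal.mul_top] at h2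
  · exact (lt_irrefl _ h2)
  · exact ENNReal.inv_ne_zero.2 (ENNReal.natCast_ne_top _)

theorem Good.integrable {Ψ : Ins} (h : Good Z P n n' η η' Ψ) {r : ℕ} (hr : r ≤ n + n') :
    Integrable (fun O : Fin r → Xo => trm Z P n n' η η' Ψ r O) (Measure.pi fun _ => nu) :=
  ⟨h.mo r, lt_of_le_of_lt (lintegral_mono fun O => trm_le Ψ r O) (h.lint hr)⟩

theorem Good.ae {Ψ : Ins} (h : Good Z P n n' η η' Ψ) {r : ℕ} (hr : r ≤ n + n') :
    ∀ᵐ O : Fin r → Xo ∂(Measure.pi fun _ => nu), trA Z P n n' η η' Ψ r O < ∞ :=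
  ae_lt_top' (h.ma r) (h.lint hr).ne

/-- for almost every configuration the weight vanishes or the integrand of the quanta is
integrable -/
theorem Good.inner {Ψ : Ins} (h : Good Z P n n' η η' Ψ) {r : ℕ} {O : Fin r → Xo}
    (hO : trA Z P n n' η η' Ψ r O < ∞) (hc : chgO O true ≤ n ∧ chgO O false ≤ n')
    (hw : wK Z P O ≠ 0) :
    Integrable (fun x =>
      gK (gF Z P O) (η r O) (η' r O) (n - chgO O true) (n' - chgO O false) x *
        Ψ r O (n - chgO O true) (n' - chgO O false) x) := by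
  refine ⟨h.mi r O, ?_⟩
  unfold trA at hO
  rw [if_pos hc] at hO
  have e : ∀ x, ‖gK (gF Z P O) (η r O) (η' r O) (n - chgO O true) (n' - chgO O false) x *
      Ψ r O (n - chgO O true) (n' - chgO O false) x‖ₑ =
      ‖gK (gF Z P O) (η r O) (η' r O) (n - chgO O true) (n' - chgO O false) x‖ₑ *
        ‖Ψ r O (n - chgO O true) (n' - chgO O false) x‖ₑ := fun x => enorm_mul _ _
  show (∫⁻ x, ‖gK (gF Z P O) (η r O) (η' r O) (n - chgO O true) (n' - chgO O false) x *
      Ψ r O (n - chgO O true) (n' - chgO O false) x‖ₑ) < ∞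
  simp only [e]
  by_contra hc'
  rw [not_lt, top_le_iff] at hc'
  rw [hc', ENNReal.mul_top, ENNReal.mul_top] at hO
  · exact lt_irrefl _ hO
  · exact enorm_ne_zero.2 hw
  · refine ENNReal.inv_ne_zero.2 (ENNReal.mul_ne_top ?_ ?_)
    · exact ENNReal.natCast_ne_top _
    · exact ENNReal.natCast_ne_top _

theorem trm_add {Ψ Ψ' : Ins} (h : Good Z P n n' η η' Ψ) (h' : Good Z P n n' η η' Ψ') {r : ℕ}
    {O : Fin r → Xo} (hO : trA Z P n n' η η' Ψ r O < ∞) (hO' : trA Z P n n' η η' Ψ' r O < ∞) :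
    trm Z P n n' η η' (Ψ + Ψ') r O = trm Z P n n' η η' Ψ r O + trm Z P n n' η η' Ψ' r O := by
  unfold trm
  by_cases hc : chgO O true ≤ n ∧ chgO O false ≤ n'
  swap
  · simp only [if_neg hc, add_zero]
  simp only [if_pos hc]
  by_cases hw : wK Z P O = 0
  · simp [hw]
  rw [← mul_add, ← mul_add, ← integral_add (h.inner hO hc hw) (h'.inner hO' hc hw)]
  congr 3
  funext x
  simp only [Pi.add_apply]
  ring

theorem trA_add_le (Ψ Ψ' : Ins) {r : ℕ} (O : Fin r → Xo)
    (hm : AEStronglyMeasurable (fun x =>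
      gK (gF Z P O) (η r O) (η' r O) (n - chgO O true) (n' - chgO O false) x *
        Ψ r O (n - chgO O true) (n' - chgO O false) x)) :
    trA Z P n n' η η' (Ψ + Ψ') r O ≤ trA Z P n n' η η' Ψ r O + trA Z P n n' η η' Ψ' r O := by
  unfold trA
  split_ifs
  · rw [← mul_add, ← mul_add]
    refine mul_le_mul' le_rfl (mul_le_mul' le_rfl ?_)
    have e : ∀ x, ‖gK (gF Z P O) (η r O) (η' r O) (n - chgO O true) (n' - chgO O false) x‖ₑ *
        ‖Ψ r O (n - chgO O true) (n' - chgO O false) x‖ₑ =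
        ‖gK (gF Z P O) (η r O) (η' r O) (n - chgO O true) (n' - chgO O false) x *
          Ψ r O (n - chgO O true) (n' - chgO O false) x‖ₑ := fun x => (enorm_mul _ _).symm
    simp only [e]
    rw [← lintegral_add_left' hm.enorm]
    refine lintegral_mono fun x => ?_
    rw [← enorm_mul, ← enorm_mul]
    simp only [Pi.add_apply]
    rw [mul_add]
    exact enorm_add_le _ _
  · simp

/-- **the functional is additive** -/
theorem FF_add {Ψ Ψ' : Ins} (h : Good Z P n n' η η' Ψ) (h' : Good Z P n n' η η' Ψ') :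
    FF Z P n n' η η' (Ψ + Ψ') = FF Z P n n' η η' Ψ + FF Z P n n' η η' Ψ' := by
  unfold FF
  rw [← Finset.sum_add_distrib]
  refine Finset.sum_congr rfl fun r hr => ?_
  have hr' : r ≤ n + n' := by
    have := Finset.mem_range.1 hr
    omega
  rw [← mul_add, ← integral_add (h.integrable hr') (h'.integrable hr')]
  congr 1
  refine integral_congr_ae ?_
  filter_upwards [h.ae hr', h'.ae hr'] with O hO hO'
  exact trm_add h h' hO hO'

theorem trm_cmul (c : ℂ) (Ψ : Ins) (r : ℕ) (O : Fin r → Xo) :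
    trm Z P n n' η η' (fun r O a b x => c * Ψ r O a b x) r O = c * trm Z P n n' η η' Ψ r O := by
  unfold trm
  split_ifs
  · have e : ∀ x, gK (gF Z P O) (η r O) (η' r O) (n - chgO O true) (n' - chgO O false) x *
        (c * Ψ r O (n - chgO O true) (n' - chgO O false) x) =
        c * (gK (gF Z P O) (η r O) (η' r O) (n - chgO O true) (n' - chgO O false) x *
          Ψ r O (n - chgO O true) (n' - chgO O false) x) := fun x => by ring
    simp only [e]
    rw [integral_const_mul]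
    ring
  · rw [mul_zero]

/-- **the functional is homogeneous** -/
theorem FF_cmul (c : ℂ) (Ψ : Ins) :
    FF Z P n n' η η' (fun r O a b x => c * Ψ r O a b x) = c * FF Z P n n' η η' Ψ := by
  unfold FF
  simp only [trm_cmul, integral_const_mul]
  rw [Finset.mul_sum]
  exact Finset.sum_congr rfl fun r _ => by ring

/-! ### the positive gas -/

/-- the term of the positive gas with the insertion `ψ` (modulus) -/
def FnI (B : OB) (P : NUO.Par) (η η' : ℝ → ℝ) (nX nY : ℕ) {r : ℕ} (O : Fin r → Xo)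
    (ψ : (a b : ℕ) → (Fin a → ℝ) × (Fin b → ℝ) → ℝ≥0∞) : ℝ≥0∞ :=
  if chgO O true ≤ nX ∧ chgO O false ≤ nY then
    ENNReal.ofReal (objWc B P O) *
      ((((nX - chgO O true).factorial : ℝ≥0∞) * (nY - chgO O false).factorial)⁻¹ *
        ∫⁻ x : (Fin (nX - chgO O true) → ℝ) × (Fin (nY - chgO O false) → ℝ),
          ENNReal.ofReal (NU42.WO (dA η) (dA η') (dA η) (dA η') (qAc B P η O true)
            (qAc B P η O false) x.1 x.2) * ψ (nX - chgO O true) (nY - chgO O false) x)
  else 0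

theorem FnI_one (B : OB) (P : NUO.Par) (η η' : ℝ → ℝ) (nX nY : ℕ) {r : ℕ} (O : Fin r → Xo) :
    FnI B P η η' nX nY O (fun _ _ _ => 1) = Fnc B P η η' nX nY O := by
  unfold FnI Fnc Z1c
  simp only [mul_one]

/-- insertions of the objects -/
theorem FnI_obj (B : OB) (P : NUO.Par) (η η' : ℝ → ℝ) (nX nY : ℕ) {r : ℕ} (O : Fin r → Xo)
    {c : ℝ≥0∞} (hc : c ≠ ∞) :
    FnI B P η η' nX nY O (fun _ _ _ => c) = c * Fnc B P η η' nX nY O := by
  unfold FnI Fnc Z1c
  split_ifs
  · rw [lintegral_mul_const' _ _ hc]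
    ring
  · rw [mul_zero]

theorem norm_wK_le {B : OB} {ep κ x0 : ℝ} {Q : ℤ} {E : Set ℝ} (h : OneC Z B P ep κ x0 Q E)
    (hP : GoodP P) {r : ℕ} (O : Fin r → Xo) (hE : ∀ i, ht (O i) ∉ E) :
    ‖wK Z P O‖ ≤ objWc B P O := by
  rw [norm_wK Z (fun r t => (hP.r0 r t).le)]
  exact WW_le h hP O hE

/-- **one configuration**: `trA` is bounded by the term of the positive gas -/
theorem trA_le {B : OB} {ep κ x0 : ℝ} {Q : ℤ} {E : Set ℝ} (h : OneC Z B P ep κ x0 Q E)
    (hP : GoodP P) {r : ℕ} (O : Fin r → Xo) (hE : ∀ i, ht (O i) ∉ E)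
    (hη : CurB ep (η r O) (η' r O)) (hep : ep ≤ 1 / 100) (Ψ : Ins) :
    trA Z P n n' η η' Ψ r O ≤
      FnI B P (η r O) (η' r O) n n' O fun a b x => ‖Ψ r O a b x‖ₑ := by
  unfold trA FnI
  split_ifs with hc
  swap
  · exact le_rfl
  have hcr : CrvR (ep / 4) (η r O) (η' r O) := by
    have hl := Bd.l_pos
    refine ⟨hη.hd, hη.hc, fun t => ?_, fun t => ?_, hη.hb⟩
    · have := (abs_le.1 (hη.h1 t)).1
      linarith
    · have := (abs_le.1 (hη.h1 t)).2
      nlinarith
  refine mul_le_mul' ?_ (mul_le_mul' le_rfl (lintegral_mono fun x => mul_le_mul' ?_ le_rfl))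
  · rw [← ofReal_norm]
    exact ENNReal.ofReal_le_ofReal (norm_wK_le h hP O hE)
  · rw [← ofReal_norm, norm_gK]
    refine ENNReal.ofReal_le_ofReal ?_
    have hq : ∀ s t, qG (Z s none) P (η r O) O s t ≤ qAc B P (η r O) O s t := by
      intro s t
      unfold qG qAc
      refine mul_le_mul_of_nonneg_right (mul_le_mul_of_nonneg_left (h.A s _ ?_) (by positivity))
        (Finset.prod_nonneg fun i _ => potN_nonneg _ _ _ _ _)
      exact pA_mem hcr t
    have h0 : ∀ s t, 0 ≤ qG (Z s none) P (η r O) O s t := by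
      intro s t
      unfold qG
      exact mul_nonneg (by positivity) (Finset.prod_nonneg fun i _ => potN_nonneg _ _ _ _ _)
    exact WO_mono _ _ _ _ (h0 true) (hq true) (h0 false) (hq false) _ _

/-- **`FA` is bounded by the positive gas with the insertion** -/
theorem FA_le {B : OB} {ep κ x0 : ℝ} {Q : ℤ} {E : Set ℝ} (h : OneC Z B P ep κ x0 Q E)
    (hP : GoodP P) (hη : ∀ r O, CurB ep (η r O) (η' r O)) (hep : ep ≤ 1 / 100) (Ψ : Ins) :
    FA Z P n n' η η' Ψ ≤ ∑ r ∈ range (n + n' + 1), ((r.factorial : ℕ) : ℝ≥0∞)⁻¹ *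
      ∫⁻ O : Fin r → Xo, FnI B P (η r O) (η' r O) n n' O (fun a b x => ‖Ψ r O a b x‖ₑ)
        ∂(Measure.pi fun _ => nu) := by
  unfold FA
  refine Finset.sum_le_sum fun r _ => mul_le_mul' le_rfl (lintegral_mono_ae ?_)
  filter_upwards [ae_ht (r := r) h.nul] with O hO
  exact trA_le h hP O hO (hη r O) hep Ψ

end PBF

end
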