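import Pool.Agent.PB.AsmR
import Pool.Agent.PB.TopI
import Pool.Agent.PB.PinW
import Pool.Agent.PotH.PerH

/-!
# Plan B: the tilted bound of one configuration with groups, a statistic and weights of the objects

The content of `PB/AsmR` (abstract geometry `G : PBO.Geo`, near groups) with a statistic of the quanta
in the gas and with a weight of the objects which is paid by the gain `gT` of the tent.

* `S4I G ok Φ`: the gas with the statistics `Φ i`, `i` admissible (`ok m i`); the exponent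
  `K r` takes powers of the number of objects; `S4K`: with given constants;
* `OneRT G`: one body factor of an object against the activity, the gain kept;
* `PerGI`: the bounds; **`perI_ofK : StabProd → OneRT → (S4K → PerGI)`** with constants independent of
  the statistic; `perI_ofR`.
-/

set_option autoImplicit false

noncomputable section

open MeasureTheory Finset
open scoped ENNReal

namespace PBI

open NUGC PBO PBF PotH
open NUO NUP1 NUStabP NUDispW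
open NUC43 (sg kq)
open NUSea.H0 (Gd IG TG cstF)
open NUSp (kG spo qc)
open NUDirP (Small)
open PBP (gT)

/-- constants in front of the statistic -/
theorem gasI_const (B : OB) (P : Par) (η η' : ℝ → ℝ) {r : ℕ} (O : Fin r → Xo) (p q : ℕ)
    {c : ℝ≥0∞} (hc : c ≠ ∞) (ψ : (Fin p → ℝ) × (Fin q → ℝ) → ℝ≥0∞) :
    gasI B P η η' O p q (fun x => c * ψ x) = c * gasI B P η η' O p q ψ := by
  unfold gasI
  have h : ∀ x : (Fin p → ℝ) × (Fin q → ℝ),
      ENNReal.ofReal (NU42.WO (dA η) (dA η') (dA η) (dA η') (qAc B P η O true)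
        (qAc B P η O false) x.1 x.2) * (c * ψ x) =
      c * (ENNReal.ofReal (NU42.WO (dA η) (dA η') (dA η) (dA η') (qAc B P η O true)
        (qAc B P η O false) x.1 x.2) * ψ x) := fun x => by ring
  simp only [h]
  rw [lintegral_const_mul' _ _ hc]
  ring

theorem FnI_const (B : OB) (P : Par) (η η' : ℝ → ℝ) (nX nY : ℕ) {r : ℕ} (O : Fin r → Xo)
    {c : ℝ≥0∞} (hc : c ≠ ∞) (ψ : (a b : ℕ) → (Fin a → ℝ) × (Fin b → ℝ) → ℝ≥0∞) :
    FnI B P η η' nX nY O (fun a b x => c * ψ a b x) = c * FnI B P η η' nX nY O ψ := by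
  by_cases h : chgO O true ≤ nX ∧ chgO O false ≤ nY
  · rw [FnI_eq B P η η' O _ h, FnI_eq B P η η' O _ h, gasI_const B P η η' O _ _ hc]
    ring
  · rw [FnI_zero B P η η' O _ h, FnI_zero B P η η' O _ h, mul_zero]

variable [NUSea.Sea]

/-- the left side: tilt and positive gas with a statistic -/
def lhsI (G : Geo) (ep e1 J : ℝ) (m : ℕ) {n : ℕ} (g : Fin n → Gd) (aX aY : ℕ) (ν : ℝ) (N : ℕ)
    (b' : ℝ) {r : ℕ} (O : Fin r → Xo) (φ : InsE) : ℝ≥0∞ :=
  ENNReal.ofReal (Real.exp (b' * (ν - N))) *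
    gasI ((G.B m (4 / 3 * (1 - ep))).mul (spF g)) (NUSea.O.par0 m) (etaC e1 J m m)
      (etaC' e1 J m m) O (N + aX - chgO O true) (N + aY - chgO O false)
      (φ r O (N + aX - chgO O true) (N + aY - chgO O false))

/-- **the gas with a statistic in the presence of the objects and of near groups**, the gain kept;
`K` = constant per object, `Ca` = constant of the exponent -/
def S4K (G : Geo) {ι : Type*} (ok : ℕ → ι → Prop) (Φ : ι → ℕ → ℕ → InsE) (K Ca : ℝ) : Prop :=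
  ∀ kap : ℝ, 0 < kap →
    ∀ ep : ℝ, 0 < ep → ep ≤ 1 / 100 → ∀ e1 : ℝ, 0 < e1 → e1 ≤ 1 / 100 → ∀ J : ℝ, 0 ≤ J →
    ∀ δ : ℝ, 0 < δ → ∃ d Cst : ℝ, 0 < d ∧ 0 ≤ Cst ∧ ∃ m0 : ℕ, ∀ m ≥ m0,
      ∀ (n : ℕ) (g : Fin n → Gd) (aX aY : ℕ) (ν : ℝ) (N : ℕ) (b' : ℝ) (r : ℕ) (O : Fin r → Xo),
        b' = d ∨ b' = -d → RgR ep e1 m g aX aY ν N O 0 0 → (∀ i, |(g i).τ| ≤ TW ep e1 m) →
        ∀ i : ι, ok m i → lhsI G ep e1 J m g aX aY ν N b' O (Φ i m N) ≤
          ENNReal.ofReal (prefR G m g 0 0 Cst * (m : ℝ) ^ (Ca * (ep + e1) + δ) *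
            Real.exp (-gnF e1 J m g) * Real.exp (confR G m ep e1 J K kap O +
              enR m g O (T1R ep e1 m O 0) (N + aX - chgO O true) (N + aY - chgO O false)))

/-- **the gas with a statistic**, some constants -/
def S4I (G : Geo) {ι : Type*} (ok : ℕ → ι → Prop) (Φ : ι → ℕ → ℕ → InsE) : Prop :=
  ∃ K Ca : ℝ, 0 ≤ K ∧ 0 ≤ Ca ∧ S4K G ok Φ K Ca

/-- **one body factor of an object against the activity**, the gain of the tent kept -/
def OneRT (G : Geo) : Prop := ∀ (K0 : ℝ) (k0 : ℕ), ∃ C c : ℝ, 0 < C ∧ 0 < c ∧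
  ∀ ep : ℝ, 0 < ep → ep ≤ 1 / 100 → ∀ e1 : ℝ, 0 < e1 → e1 ≤ 1 / 100 → ∀ J : ℝ, 0 ≤ J →
  ∃ m1 : ℕ, ∀ m ≥ m1, ∀ (r : ℕ) (O : Fin r → Xo) (i : Fin r),
    ob1c (G.B m (4 / 3 * (1 - ep))) (NUSea.O.par0 m).jL (ei (NUSea.O.par0 m) O i)
        (rr (NUSea.O.par0 m) O i) (O i) *
      Real.exp (G.one m ep e1 J r O i + K0) * colK (((r : ℝ) + 1) ^ k0) (kd (O i)) ≤
    act C 1 c (1 / 10) (k0 + 6) (Real.log m) ep e1 J r (ht (O i)) *
      Real.exp (-gT e1 (Real.log m) (ht (O i)))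

theorem OneRT.oneR {G : Geo} (h : OneRT G) : OneR G := by
  intro K0 k0
  obtain ⟨C, c, hC, hc, h⟩ := h K0 k0
  refine ⟨C, c, hC, hc, fun ep hep hep1 e1 he1 he11 J hJ => ?_⟩
  obtain ⟨m1, h⟩ := h ep hep hep1 e1 he1 he11 J hJ
  refine ⟨m1, fun m hm r O i => (h m hm r O i).trans ?_⟩
  have h0 : 0 ≤ act C 1 c (1 / 10) (k0 + 6) (Real.log m) ep e1 J r (ht (O i)) :=
    act_nonneg hC.le zero_le_one (log_nn m)
  exact mul_le_of_le_one_right h0
    (Real.exp_le_one_iff.2 (by linarith [PBP.gT_nonneg e1 (Real.log m) (ht (O i))]))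

/-- **the tilted bounds for a family of near groups with a statistic and a weight of the objects** -/
def PerGI (G : Geo) {ι : Type*} (ok : ℕ → ι → Prop) (Φ : ι → ℕ → ℕ → InsE) (K2 C c b : ℝ) (k : ℕ)
    (c1 Ca : ℝ) : Prop :=
  ∀ ep : ℝ, 0 < ep → ep ≤ 1 / 100 → ∀ e1 : ℝ, 0 < e1 → e1 ≤ 1 / 100 → ∀ J : ℝ, 0 ≤ J →
    ∀ δ : ℝ, 0 < δ → ∃ d Cst : ℝ, 0 < d ∧ 0 ≤ Cst ∧ ∃ m0 : ℕ, ∀ m ≥ m0,
      ∀ (n : ℕ) (g : Fin n → Gd) (aX aY : ℕ) (ν Qe : ℝ), n ≤ 2 →
        (∀ i j, i ≠ j → (g i).σ ≠ (g j).σ) → aX ≤ 3 → aY ≤ 3 →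
        (aX : ℝ) - aY = -∑ i, NUC43.sg (g i).σ * qc (g i).c / 2 →
        |ν - m| ≤ 2 → (∀ i, |(g i).τ| ≤ TW ep e1 m) → 0 ≤ Qe →
        (∀ T1, TW ep e1 m ≤ T1 → Real.exp (enQ g aX aY 0 0 T1) ≤ Qe) →
        ∀ i : ι, ok m i → ∀ (w : (r : ℕ) → (Fin r → Xo) → ℝ) (Bw : ℝ), 0 ≤ Bw →
        (∀ r O, 0 ≤ w r O) → (∀ (r : ℕ) (O : Fin r → Xo), w r O ≤ Bw * Real.exp (K2 * r) *
          Real.exp (∑ i, gT e1 (Real.log m) (ht (O i)))) →
        PerI C 1 c b k c1 0 (Real.log m) ep e1 J ν d (2 * m)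
          ((G.B m (4 / 3 * (1 - ep))).mul (spF g)) (NUSea.O.par0 m) aX aY
          (fun _ _ _ => etaC e1 J m m) (fun _ _ _ => etaC' e1 J m m)
          (fun N r O a b x => ENNReal.ofReal (w r O) * Φ i m N r O a b x)
          (Bw * (Cst * Real.exp ((m : ℝ) ^ 2 * G.EM) * (m : ℝ) ^ (Ca * (ep + e1) + δ) *
            Real.exp (m * ∑ i, G.MF (g i).c (g i).w) * Real.exp (-gnF e1 J m g) * Qe))

/-- **the tilted bounds for a family of near groups with a statistic and a weight of the objects**,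
constants independent of the statistic -/
theorem perI_ofK {G : Geo} (hB : ∀ m β, (G.B m β).Nn) (hS : StabProd) (h1 : OneRT G) (K K2 : ℝ) :
    ∃ (C c b c1 : ℝ) (k : ℕ), 0 < C ∧ 0 < c ∧ 0 < b ∧ 0 < c1 ∧
      ∀ (ι : Type*) (ok : ℕ → ι → Prop) (Φ : ι → ℕ → ℕ → InsE) (Ca : ℝ), S4K G ok Φ K Ca →
        PerGI G ok Φ K2 C c b k c1 Ca := by
  obtain ⟨K', c1, hc1, hper⟩ := perH hS K K2
  obtain ⟨C3, hC3, hspec⟩ := spec_pin
  obtain ⟨C, c, hC, hc, hone⟩ := h1 (K' + Real.log C3) 12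
  refine ⟨C, c, 1 / 10, c1, 12 + 6, hC, hc, by norm_num, hc1, ?_⟩
  intro ι ok Φ Ca h4 ep hep hep1 e1 he1 he11 J hJ δ hδ
  obtain ⟨d, Cst, hd, hCst, M0, h4⟩ := h4 c1 hc1 ep hep hep1 e1 he1 he11 J hJ δ hδ
  obtain ⟨m2, hone⟩ := hone ep hep hep1 e1 he1 he11 J hJ
  refine ⟨d, Cst, hd, hCst, max M0 m2, ?_⟩
  intro m hM n g aX aY ν Qe hn hσ haX haY hq hν hnear hQe hpin i hok w Bw hBw hw0 hwB
  have hM0 : M0 ≤ m := (le_max_left _ _).trans hM
  have hM1 : m2 ≤ m := (le_max_right _ _).trans hM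
  intro N hN b' hb' r hr O W
  -- the end of the window
  obtain ⟨T1, hT1⟩ : ∃ T1, T1 = T1R ep e1 m O 0 := ⟨_, rfl⟩
  have hexc0 := excS_nonneg (TW ep e1 m) O
  have hT1E : TW ep e1 m ≤ T1 := by
    rw [hT1]
    unfold T1R
    linarith [le_max_left (excS (TW ep e1 m) O) 0]
  have hT1O : ∀ i, |ht (O i)| ≤ T1 := by
    intro i
    have h1 := excS_ge (TW ep e1 m) O i
    have h2 := le_max_left (excS (TW ep e1 m) O) 0
    rw [hT1]
    unfold T1R
    linarith
  have hQ := hpin T1 hT1E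
  -- the prefactor
  obtain ⟨EE, hEE⟩ : ∃ EE, EE = 1 / 2 * (∑ d, ∑ d', ES (TG (fun i => (g i).pin T1) d)
    (TG (fun i => (g i).pin T1) d')) := ⟨_, rfl⟩
  obtain ⟨ct, hct⟩ : ∃ ct, ct = cstF T1 g true := ⟨_, rfl⟩
  set es : Fin r → ℝ := fun i => ∑ d, ES (obSr (NUSea.O.par0 m).jL (NUSea.O.par0 m).e (O i))
    (TG (fun i => (g i).pin T1) d) - ct * (sg (NUO.sp (O i)) * kq (kd (O i))) with hes
  obtain ⟨mp, hmp⟩ : ∃ mp, mp = (m : ℝ) ^ (Ca * (ep + e1) + δ) := ⟨_, rfl⟩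
  have hmp0 : 0 ≤ mp := by
    rw [hmp]
    positivity
  obtain ⟨gn, hgn⟩ : ∃ gn : ℝ, gn = Real.exp (-gnF e1 J m g) := ⟨_, rfl⟩
  have hgn0 : 0 ≤ gn := by
    rw [hgn]
    exact (Real.exp_pos _).le
  obtain ⟨Qp, hQp⟩ : ∃ Qp : ℝ, Qp = prefR G m g 0 0 Cst * mp * gn *
    Real.exp (EE + ct * ((aX : ℝ) - aY)) := ⟨_, rfl⟩
  have hpref := prefR_nonneg (G := G) (m := m) (g := g) (E := 0) (x := 0) hCst
  have hQp0 : 0 ≤ Qp := by
    rw [hQp]
    positivity
  have hQpQ : Qp ≤ Cst * Real.exp ((m : ℝ) ^ 2 * G.EM) * mp *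
      Real.exp (m * ∑ i, G.MF (g i).c (g i).w) * gn * Qe := by
    have e1 : Qp = Cst * Real.exp ((m : ℝ) ^ 2 * G.EM) * mp *
        Real.exp (m * ∑ i, G.MF (g i).c (g i).w) * gn *
        Real.exp (enQ g aX aY 0 0 T1) := by
      rw [hQp]
      unfold prefR enQ
      rw [← hEE, ← hct, mul_zero, mul_zero, add_zero, add_zero, Real.exp_zero]
      ring
    rw [e1]
    refine mul_le_mul_of_nonneg_left hQ ?_
    positivity
  -- the weight with the tilt
  obtain ⟨φ, hφ⟩ : ∃ φ : (a b : ℕ) → (Fin a → ℝ) × (Fin b → ℝ) → ℝ≥0∞,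
    φ = fun a b x => ENNReal.ofReal (Real.exp (b' * (ν - N))) *
      (ENNReal.ofReal (w r O) * Φ i m N r O a b x) := ⟨_, rfl⟩
  have hleft : ENNReal.ofReal (Real.exp (b' * (ν - N))) *
      FnI ((G.B m (4 / 3 * (1 - ep))).mul (spF g)) (NUSea.O.par0 m) (etaC e1 J m m)
        (etaC' e1 J m m) (N + aX) (N + aY) O
        (fun a b x => ENNReal.ofReal (w r O) * Φ i m N r O a b x) =
      FnI ((G.B m (4 / 3 * (1 - ep))).mul (spF g)) (NUSea.O.par0 m) (etaC e1 J m m)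
        (etaC' e1 J m m) (N + aX) (N + aY) O φ := by
    rw [hφ]
    exact (FnI_const _ _ _ _ _ _ O ENNReal.ofReal_ne_top _).symm
  have hBn : ((G.B m (4 / 3 * (1 - ep))).mul (spF g)).Nn := fun a u =>
    mul_nonneg (hB _ _ a u) (spFR_nonneg g a u)
  have key := hper ((G.B m (4 / 3 * (1 - ep))).mul (spF g)) hBn (NUSea.O.par0 m) rfl rfl rfl
    (fun r t => (NUSea.O.rad0_pos _ r t).le) r (NUSea.O.small_par0 _ r) O (etaC e1 J m m)
    (etaC' e1 J m m) (N + aX) (N + aY) φ (fun i => G.one m ep e1 J r O i + es i)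
    (fun i => gT e1 (Real.log m) (ht (O i)))
    (fun i => act C 1 c (1 / 10) (12 + 6) (Real.log m) ep e1 J r (ht (O i))) Qp Bw (w r O) hQp0
    (hw0 r O) hBw (hwB r O) (fun i => ?_) (fun k1 k2 => ?_) W
  · show ENNReal.ofReal (Real.exp (b' * (ν - N))) *
      FnI ((G.B m (4 / 3 * (1 - ep))).mul (spF g)) (NUSea.O.par0 m) (etaC e1 J m m)
        (etaC' e1 J m m) (N + aX) (N + aY) O
        (fun a b x => ENNReal.ofReal (w r O) * Φ i m N r O a b x) ≤ _
    rw [hleft]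
    refine key.trans (ENNReal.ofReal_le_ofReal ?_)
    have hact0 : 0 ≤ ∏ i, act C 1 c (1 / 10) (12 + 6) (Real.log m) ep e1 J r (ht (O i)) :=
      prod_nonneg fun i _ => act_nonneg hC.le zero_le_one (log_nn m)
    have g4 : (if (r : ℝ) ≤ Real.log m then (1 : ℝ) else Real.exp (0 * Real.log m)) = 1 := by
      split_ifs
      · rfl
      · rw [zero_mul, Real.exp_zero]
    rw [g4, mul_one, ← hmp, ← hgn]
    refine mul_le_mul_of_nonneg_right ?_ (Real.exp_pos _).le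
    exact mul_le_mul_of_nonneg_right (mul_le_mul_of_nonneg_left hQpQ hBw) hact0
  · -- the one body bounds
    have h := hspec (NUSea.O.par0 m) rfl rfl r (NUSea.O.small_par0 _ r) O i T1 (hT1O i) n g hn
    rw [← hct] at h
    have h' : facL (spF g) (NUO.cons (NUSea.O.par0 m) O i) * Real.exp (es i) ≤ C3 := h
    have h0 : 0 ≤ facL (spF g) (NUO.cons (NUSea.O.par0 m) O i) := facL_nonneg (spFR_nonneg g) _
    have h2 := hone m hM1 r O i
    have hob : ob1c ((G.B m (4 / 3 * (1 - ep))).mul (spF g)) (NUSea.O.par0 m).jL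
        (ei (NUSea.O.par0 m) O i) (rr (NUSea.O.par0 m) O i) (O i) =
        ob1c (G.B m (4 / 3 * (1 - ep))) (NUSea.O.par0 m).jL
          (ei (NUSea.O.par0 m) O i) (rr (NUSea.O.par0 m) O i) (O i) *
          facL (spF g) (NUO.cons (NUSea.O.par0 m) O i) := ob1c_mul _ _ _ _ _ _
    have ho : 0 ≤ ob1c (G.B m (4 / 3 * (1 - ep))) (NUSea.O.par0 m).jL
        (ei (NUSea.O.par0 m) O i) (rr (NUSea.O.par0 m) O i) (O i) :=
      ob1c_nonneg (hB _ _) _ _ (NUSea.O.rad0_pos _ _ _).le _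
    have hcol : 0 ≤ colK (((r : ℝ) + 1) ^ 12) (kd (O i)) := by
      have : (0 : ℝ) ≤ ((r : ℝ) + 1) ^ 12 := by positivity
      cases kd (O i) <;> simp only [colK] <;> first | exact this | exact zero_le_one
    rw [hob]
    obtain ⟨o1, ho1⟩ : ∃ o1, o1 = ob1c (G.B m (4 / 3 * (1 - ep))) (NUSea.O.par0 m).jL
          (ei (NUSea.O.par0 m) O i) (rr (NUSea.O.par0 m) O i) (O i) := ⟨_, rfl⟩
    obtain ⟨f1, hf1⟩ : ∃ f1, f1 = facL (spF g) (NUO.cons (NUSea.O.par0 m) O i) := ⟨_, rfl⟩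
    obtain ⟨cl, hcl⟩ : ∃ cl, cl = colK (((r : ℝ) + 1) ^ 12) (kd (O i)) := ⟨_, rfl⟩
    rw [← ho1, ← hcl] at h2
    rw [← hf1] at h' h0
    rw [← ho1] at ho
    rw [← hcl] at hcol
    rw [← ho1, ← hf1, ← hcl]
    calc o1 * f1 * Real.exp (G.one m ep e1 J r O i + es i + K') * cl
        = o1 * (f1 * Real.exp (es i)) * Real.exp (G.one m ep e1 J r O i + K') * cl := by
          rw [show G.one m ep e1 J r O i + es i + K' = es i + (G.one m ep e1 J r O i + K') by ring,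
            Real.exp_add (es i)]
          ring
      _ ≤ o1 * C3 * Real.exp (G.one m ep e1 J r O i + K') * cl := by gcongr
      _ = o1 * Real.exp (G.one m ep e1 J r O i + (K' + Real.log C3)) * cl := by
          rw [show G.one m ep e1 J r O i + (K' + Real.log C3) =
            (G.one m ep e1 J r O i + K') + Real.log C3 by ring, Real.exp_add _ (Real.log C3),
            Real.exp_log (by linarith)]
          ring
      _ ≤ _ := h2
  · -- the gas
    have hR : RgR ep e1 m g aX aY ν N O 0 0 :=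
      ⟨hn, hσ, haX, haY, hq, hν, hN, hr, k1, k2, le_rfl, fun i => by
        right
        right
        rw [add_zero]
        exact hnear i, le_rfl, fun i => by
        rw [← hT1]
        unfold NUSp.exc
        exact max_le (by linarith [hnear i]) le_rfl⟩
    have h5 := h4 m hM0 n g aX aY ν N b' r O hb' hR hnear i hok
    rw [← hT1] at h5
    have hpq : (((N + aX - chgO O true : ℕ) : ℝ) - ((N + aY - chgO O false : ℕ) : ℝ)) =
        ((aX : ℝ) - aY) - ∑ i, sg (NUO.sp (O i)) * kq (kd (O i)) := by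
      rw [NUH0.sum_kq, Nat.cast_sub k1, Nat.cast_sub k2]
      push_cast
      ring
    have henG : enR m g O T1 (N + aX - chgO O true) (N + aY - chgO O false) =
        ∑ i, es i + (EE + ct * ((aX : ℝ) - aY)) := by
      unfold enR
      rw [hpq, hes, sum_sub_distrib, ← mul_sum, ← hEE, ← hct]
      ring
    have hexp : prefR G m g 0 0 Cst * mp * gn * Real.exp (confR G m ep e1 J K c1 O +
        enR m g O T1 (N + aX - chgO O true) (N + aY - chgO O false)) =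
        Qp * Real.exp (∑ i, (G.one m ep e1 J r O i + es i) + K * r + enC O +
          c1 * win univ fun i => ht (O i)) := by
      rw [henG, hQp, mul_assoc _ (Real.exp _) (Real.exp _), ← Real.exp_add, sum_add_distrib]
      congr 2
      unfold confR
      ring
    rw [← hmp, ← hgn, hexp] at h5
    have e1 : gasI ((G.B m (4 / 3 * (1 - ep))).mul (spF g)) (NUSea.O.par0 m) (etaC e1 J m m)
        (etaC' e1 J m m) O (N + aX - chgO O true) (N + aY - chgO O false)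
        (φ (N + aX - chgO O true) (N + aY - chgO O false)) =
        ENNReal.ofReal (w r O) * lhsI G ep e1 J m g aX aY ν N b' O (Φ i m N) := by
      rw [hφ]
      unfold lhsI
      have e2 := gasI_const ((G.B m (4 / 3 * (1 - ep))).mul (spF g)) (NUSea.O.par0 m)
        (etaC e1 J m m) (etaC' e1 J m m) O (N + aX - chgO O true) (N + aY - chgO O false)
        (c := ENNReal.ofReal (Real.exp (b' * (ν - N)))) ENNReal.ofReal_ne_top
        (fun x => ENNReal.ofReal (w r O) *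
          Φ i m N r O (N + aX - chgO O true) (N + aY - chgO O false) x)
      have e3 := gasI_const ((G.B m (4 / 3 * (1 - ep))).mul (spF g)) (NUSea.O.par0 m)
        (etaC e1 J m m) (etaC' e1 J m m) O (N + aX - chgO O true) (N + aY - chgO O false)
        (c := ENNReal.ofReal (w r O)) ENNReal.ofReal_ne_top
        (Φ i m N r O (N + aX - chgO O true) (N + aY - chgO O false))
      rw [e3] at e2
      refine e2.trans ?_
      ring
    rw [e1, ENNReal.ofReal_mul (hw0 r O)]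
    exact mul_le_mul' le_rfl h5

/-- **the tilted bounds for a family of near groups with a statistic and a weight of the objects** -/
theorem perI_ofR {G : Geo} (hB : ∀ m β, (G.B m β).Nn) (hS : StabProd) {ι : Type*}
    {ok : ℕ → ι → Prop} {Φ : ι → ℕ → ℕ → InsE} (h4 : S4I G ok Φ) (h1 : OneRT G) (K2 : ℝ) :
    ∃ (C c b c1 Ca : ℝ) (k : ℕ), 0 < C ∧ 0 < c ∧ 0 < b ∧ 0 < c1 ∧ 0 ≤ Ca ∧
      PerGI G ok Φ K2 C c b k c1 Ca := by
  obtain ⟨K, Ca, hK, hCa, h4⟩ := h4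
  obtain ⟨C, c, b, c1, k, hC, hc, hb, hc1, H⟩ := perI_ofK hB hS h1 K K2
  exact ⟨C, c, b, c1, Ca, k, hC, hc, hb, hc1, hCa, H _ _ _ _ h4⟩

end PBI

end
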