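import Pool.Agent.PB.OneR0
import Pool.Agent.PB.AsmI

/-!
# Rows `0`: the one body bounds with the gain of the tent (`OneRT` of `PB/AsmI`)

**`oneRT_seaP`**: `PBI.OneRT` for every geometry at rows `0`.
-/

set_option autoImplicit false

noncomputable section

open Complex MeasureTheory Set

namespace PBO

open NUP1 NUO NUGC

attribute [local instance] NUSea.seaP

/-- **`OneRT` for every geometry at rows `0`** -/
theorem oneRT_seaP (n0 : ℕ) {h0 GG : ℝ} (hh : 0 ≤ h0) (hG : 0 < GG) {Ge : Geo}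
    (hB : ∀ ep : ℝ, 0 < ep → ep ≤ 1 / 100 → ∃ m0 : ℕ, ∀ m ≥ m0,
      ∃ (K : ℕ) (mu ex W1 W2 : List ℂ) (c0 : ℝ) (g : Bool → ℂ → ℝ),
        ObZ n0 h0 GG m (4 / 3 * (1 - ep)) eM (Ge.B m (4 / 3 * (1 - ep))) K mu ex W1 W2 c0 g ∧
          (Ge.B m (4 / 3 * (1 - ep))).Nn)
    {Kc : ℝ} (h1 : ∀ (m : ℕ) (ep e1 J : ℝ), 1 ≤ m → 0 < ep → 0 < e1 → 0 ≤ J →
      ∀ (r : ℕ) (O : Fin r → Xo) (i : Fin r), Ge.one m ep e1 J r O i ≤
        PotH.oneEH m (etaC e1 J m m) (TW ep e1 m) O i + Kc) : PBI.OneRT Ge := by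
  intro K0 k0
  obtain ⟨C, c, hC', hc, H⟩ := one_oneEHT n0 hh hG (Kc + K0) k0
  refine ⟨C, c, hC', hc, fun ep hep hep1 e1 he he1 J hJ => ?_⟩
  obtain ⟨m0, hm0⟩ := hB ep hep hep1
  obtain ⟨m2, H2⟩ := H e1 he he1
  refine ⟨max (max m0 m2) 1, fun m hm r O i => ?_⟩
  simp only [ge_iff_le, max_le_iff] at hm
  obtain ⟨⟨g1, g2⟩, g3⟩ := hm
  obtain ⟨K, mu, ex, W1, W2, c0, g, hZ, hN⟩ := hm0 m g1
  have key := H2 m g2 ep hep hep1 _ K mu ex W1 W2 c0 g hZ hN J hJ r O i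
  refine le_trans ?_ key
  have h4 := h1 m ep e1 J g3 hep he hJ r O i
  have hob : 0 ≤ ob1c (Ge.B m (4 / 3 * (1 - ep))) (NUSea.O.par0 m).jL (ei (NUSea.O.par0 m) O i)
      (rr (NUSea.O.par0 m) O i) (O i) :=
    ob1c_nonneg hN _ _ ((parOK_seaP m).r0 r _).le _
  have hcol : 0 ≤ colK (((r : ℝ) + 1) ^ k0) (kd (O i)) := by
    have : (0 : ℝ) ≤ ((r : ℝ) + 1) ^ k0 := by positivity
    cases kd (O i) <;> simp only [colK] <;> first | exact this | exact zero_le_one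
  have h5 : Real.exp (Ge.one m ep e1 J r O i + K0) ≤
      Real.exp (PotH.oneEH m (etaC e1 J m m) (TW ep e1 m) O i + (Kc + K0)) :=
    Real.exp_le_exp.2 (by linarith)
  exact mul_le_mul_of_nonneg_right (mul_le_mul_of_nonneg_left h5 hob) hcol

end PBO

end
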