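import Pool.Agent.PB.S4I0
import Pool.Agent.PB.S4G0
import Pool.Agent.PB.OwnLe0
import Pool.Agent.PB.ValR
import Pool.Agent.NUGC.DirLe
import Pool.Agent.NUM3.Certs4
import Pool.Agent.NUF.FINA

/-!
# The class `W W` at rows `0`, ends `0`, at fixed half quanta, with statistics and pinned objects (U5N)

Geometry `G0 [I, -I] []`, `k` effective rows, both half quanta in the window `TW`.

* `kR k y`: the kernels of the class; `nrR k`: the normaliser (prefactor over bulk value);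
* **`topR0`**: the normalised sum over the numbers of quanta of the functional with moduli, with a
  statistic `Φ i` and a weight `w ≤ Bw e^{K2 r} ∏ exp gT` of the objects, is at most
  `Bw k ^ e exp (- 2|τ| - 2|τ'| - |τ - τ'| / 2)`; the smallness of `ep`, `e1`, `exp (-2πJ)` only depends on
  `A0`, `K2`, `e`;
* **`topR0_val`**: the same for the value (no statistic), the sum over `n ≤ M` for every `M ≤ 2 k`.
-/

set_option autoImplicit false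
set_option linter.unusedSectionVars false

noncomputable section

open Complex MeasureTheory Finset
open scoped ENNReal

namespace PBI

open NUGC PBO PBF PotH PBR PBX
open NUO NUP1 NUCR NUP1S NUP1S.Ab NUP1S.AbC NUP1S.AbG NURow NUP1.Leg NUStabP NUDispW
open NUSea.H0 (Gd)
open PBP (gT)

/-- the exponent of the majorant of the class `W W` -/
def mTR (y : ℝ × ℝ) : ℝ := 2 * |y.1| + 2 * |y.2| + |y.1 - y.2| / 2

/-- the kernels of the class `W W`, `k` effective rows `0` -/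
def kR (k : ℕ) (y : ℝ × ℝ) : ℂ :=
  kf0 (k - 1) (vl (5 / 4 * l) y.1) * kf0 (k - 1) (vl (5 / 4 * l) y.2) *
    Dk (vl (5 / 4 * l) y.1 - vl (5 / 4 * l) y.2)

/-- the normaliser -/
def nrR (k : ℕ) : ℂ := (2 : ℂ) ^ (2 * k * (2 * k - 1)) *
  (Complex.sin l * (Bp 0 0 (fun _ : Fin (k - 1) => (0 : ℂ)) *
    Bp 0 0 (fun _ : Fin (k - 1) => (0 : ℂ)))) / ((Pool.Agent.NUF.bulk k : ℝ) : ℂ)

theorem norm_nrR {k : ℕ} (hk : 1 ≤ k) :
    ‖nrR k‖ * Real.exp ((k : ℝ) ^ 2 * PBVR.EMF0) = (Real.sin l)⁻¹ := by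
  obtain ⟨m, rfl⟩ : ∃ m, k = m + 1 := ⟨k - 1, by omega⟩
  have h := PBVR.AM0_match' m
  have hb := Pool.Agent.NUF.bulk_pos (m + 1)
  unfold nrR
  rw [norm_div, norm_mul, norm_pow, Complex.norm_ofNat, Complex.norm_real, Real.norm_eq_abs,
    abs_of_pos hb, Nat.add_sub_cancel]
  push_cast
  rw [div_mul_eq_mul_div, div_eq_iff hb.ne']
  exact h

theorem kf0_eq (m : ℕ) (w : ℂ) : kf0 m w = PB0.KF0 m w :=
  ((R0_Z m (4 / 3) [] []).KF w).symm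

/-- the own kernel with the sea term -/
theorem kf0_le : ∃ C : ℝ, 0 ≤ C ∧ ∀ (k : ℕ), 1 ≤ k → ∀ τ : ℝ,
    ‖kf0 (k - 1) (vl (5 / 4 * l) τ)‖ * Real.exp ((k : ℝ) * PB0.MF0 .w (vl (5 / 4 * l) τ)) ≤
      C * Real.exp (-|τ|) := by
  have l1 := PB0.gz_lin PB0.gz_W (-2) (a := -(3 / 4)) (by norm_num)
  obtain ⟨C1, h1, b1⟩ := ((l1.smul (-1)).congr (g := fun t => -NUHM.ls (-(3 / 4)) t) (c' := -1)
    (fun t => by ring) (by norm_num)).exp_le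
  have hs := NUPn.sin2l_pos
  refine ⟨Real.sin (2 * NUMF.l) * C1, by positivity, fun k hk τ => ?_⟩
  have h := PB0.own_W (k - 1) τ
  rw [Nat.sub_add_cancel hk] at h
  rw [kf0_eq]
  have e : vl (5 / 4 * l) τ = NUMF.zj (5 / 4) τ := rfl
  rw [e, h, mul_assoc]
  refine mul_le_mul_of_nonneg_left ?_ hs.le
  have := b1 τ
  rwa [neg_one_mul] at this

/-- the direct factor -/
theorem dk_le : ∃ C : ℝ, 0 ≤ C ∧ ∀ τ τ' : ℝ,
    ‖Dk (vl (5 / 4 * l) τ - vl (5 / 4 * l) τ')‖ ≤ C * Real.exp (-|τ - τ'|) := by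
  obtain ⟨C, hC, h⟩ := dirLe
  refine ⟨C, hC, fun τ τ' => ?_⟩
  have key := h 0 0 .W .W false false (by simp) (by simp) τ τ'
  have e : NUGC.gO 0 0 .W .W false false (vl (htL .W) τ) (vl (htL .W) τ') =
      ‖Dk (vl (htL .W) τ - vl (htL .W) τ')‖ := by
    unfold NUGC.gO
    simp only [Bool.false_eq_true, if_false, Bool.and_false, mul_one]
    rfl
  rw [e] at key
  have e2 : -((qh .W false * qh .W false + 1) / 2) * |τ - τ'| = -|τ - τ'| := by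
    have : qh .W false = 1 := by simp [qh, clh, NUSp.qc]
    rw [this]
    ring
  rw [e2] at key
  exact key

theorem II_re {w : ℂ} (hw : w ∈ [I, -I]) : |w.re| ≤ l / 2 := by
  have hl := l_pos
  have : w.re = 0 := by
    simp only [List.mem_cons, List.not_mem_nil, or_false] at hw
    rcases hw with rfl | rfl <;> simp
  rw [this, abs_zero]
  positivity

attribute [local instance] NUSea.seaP

theorem gOk_GI : GOk (G0 [I, -I] []) :=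
  gOk_G0 (n0 := 2) (h0 := 1) zero_le_one (PtsZ.II le_rfl le_rfl)

/-- **the class `W W` at rows `0` at fixed half quanta in the window** -/
theorem topR0 (A0 K2 : ℝ) {e : ℝ} (he : 0 < e) : ∃ κ0 : ℝ, 0 < κ0 ∧ κ0 ≤ 1 / 100 ∧
      ∀ (ι : Type*) (ok : ℕ → ι → Prop) (Φ : ι → ℕ → ℕ → InsE), StatFam A0 ok Φ →
      ∀ ep : ℝ, 0 < ep → ep ≤ κ0 → ∀ e1 : ℝ, 0 < e1 → e1 ≤ κ0 →
      ∀ J : ℝ, 0 ≤ J → Real.exp (-(2 * Real.pi * J)) ≤ κ0 →
      ∀ (c : ℕ → ℂ) (Cn : ℝ), (∀ k, 1 ≤ k → ‖c k‖ * Real.exp ((k : ℝ) ^ 2 * PBVR.EMF0) ≤ Cn) →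
      ∃ k0 : ℕ, 2 ≤ k0 ∧ ∀ k ≥ k0,
      (∀ (r : ℕ) (_O : Fin r → Xo), CurB ep (etaC e1 J k k) (etaC' e1 J k k)) ∧
      ∀ y : ℝ × ℝ, |y.1| ≤ TW ep e1 k → |y.2| ≤ TW ep e1 k → ∀ i : ι, ok k i →
      ∀ (w : (r : ℕ) → (Fin r → Xo) → ℝ) (Bw : ℝ), 0 ≤ Bw → (∀ r O, 0 ≤ w r O) →
      (∀ (r : ℕ) (O : Fin r → Xo), w r O ≤ Bw * Real.exp (K2 * r) *
          Real.exp (∑ i, gT e1 (Real.log k) (ht (O i)))) →
      ENNReal.ofReal ‖c k * kR k y‖ *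
        ∑ n ∈ range (2 * k + 1), FE (RZW (R0 (k - 1) (beC ep) [I, -I] []) (vl (5 / 4 * l) y.1)
          (vl (5 / 4 * l) y.2)) (NUSea.O.par0 k) n n (fun _ _ => etaC e1 J k k)
          (fun _ _ => etaC' e1 J k k) (fun r O a b x => ENNReal.ofReal (w r O) *
            Φ i k n r O a b x) ≤
        ENNReal.ofReal (Bw * ((k : ℝ) ^ e * Real.exp (-mTR y))) := by
  obtain ⟨K, Ca, hK, hCa, hS4⟩ := s4K gOk_GI
  obtain ⟨κ0, hκ, hκ1, htop⟩ := topR (G := G0 [I, -I] []) (fun m β => G0_nn _ _ _ _) Pool.Agent.NUM3.stabProd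
    oneRT_GI (K + A0) K2 hCa (e := e / 2) (by linarith)
  obtain ⟨C0, hC0, hkf⟩ := kf0_le
  obtain ⟨Cg, hCg, hdk⟩ := dk_le
  refine ⟨κ0, hκ, hκ1, ?_⟩
  intro ι ok Φ hst ep hep hep1 e1 he1 he11 J hJ hJ1 c Cn hc
  obtain ⟨Cst, hCst, m0, hm0, htop⟩ := htop ι ok Φ (hS4 A0 ι ok Φ hst) ep hep hep1 e1 he1 he11 J hJ
    hJ1
  have hCn : 0 ≤ Cn := (by positivity : (0 : ℝ) ≤ _).trans (hc 1 le_rfl)
  obtain ⟨m1, hm1⟩ := Filter.eventually_atTop.1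
    (((tendsto_rpow_atTop (show (0 : ℝ) < e / 2 by linarith)).comp
      tendsto_natCast_atTop_atTop).eventually_ge_atTop (C0 * C0 * Cg * Cst * Cn))
  refine ⟨max m0 m1, hm0.trans (le_max_left _ _), fun k hk => ?_⟩
  have hk0 : m0 ≤ k := (le_max_left _ _).trans hk
  have hk1 : m1 ≤ k := (le_max_right _ _).trans hk
  have h1k : 1 ≤ k := by omega
  have hkp : (0 : ℝ) < k := by exact_mod_cast h1k
  obtain ⟨hcur, htop⟩ := htop k hk0
  refine ⟨hcur, fun y hy1 hy2 i hok w Bw hBw hw0 hwB => ?_⟩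
  have hep2 : ep ≤ 1 / 100 := hep1.trans hκ1
  have hbs := G0_bs (k := k) (by omega) (β := beC ep) (by unfold beC; linarith)
    (by unfold beC; linarith) (ex := [I, -I]) (ex0 := []) (fun w hw => II_re hw) (by simp)
    (parM_par0 k).1 hep hep2
  have key := htop _ _ _ hbs y hy1 hy2 i hok w Bw hBw hw0 hwB C0 Cg
    ‖kf0 (k - 1) (vl (5 / 4 * l) y.1)‖ ‖kf0 (k - 1) (vl (5 / 4 * l) y.2)‖
    ‖Dk (vl (5 / 4 * l) y.1 - vl (5 / 4 * l) y.2)‖ hC0 (norm_nonneg _) (norm_nonneg _)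
    (norm_nonneg _) (hkf k h1k y.1) (hkf k h1k y.2) (hdk y.1 y.2)
  have e1 : ‖c k * kR k y‖ = ‖c k‖ * (‖kf0 (k - 1) (vl (5 / 4 * l) y.1)‖ *
      ‖kf0 (k - 1) (vl (5 / 4 * l) y.2)‖ * ‖Dk (vl (5 / 4 * l) y.1 - vl (5 / 4 * l) y.2)‖) := by
    unfold kR
    rw [norm_mul, norm_mul, norm_mul]
  rw [e1, ENNReal.ofReal_mul (norm_nonneg _), mul_assoc]
  refine (mul_le_mul' le_rfl key).trans ?_
  rw [← ENNReal.ofReal_mul (norm_nonneg _)]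
  refine ENNReal.ofReal_le_ofReal ?_
  have hEM : (G0 [I, -I] []).EM = PBVR.EMF0 := rfl
  have hck := hc k h1k
  obtain ⟨X0, hX0⟩ : ∃ X0, X0 = Real.exp ((k : ℝ) ^ 2 * PBVR.EMF0) := ⟨_, rfl⟩
  rw [hEM, ← hX0]
  rw [← hX0] at hck
  have hX00 : 0 ≤ X0 := by
    rw [hX0]
    exact (Real.exp_pos _).le
  have hpow : (k : ℝ) ^ e = (k : ℝ) ^ (e / 2) * (k : ℝ) ^ (e / 2) := by
    rw [← Real.rpow_add hkp]
    congr 1
    ring
  have hbig : C0 * C0 * Cg * Cst * Cn ≤ (k : ℝ) ^ (e / 2) := hm1 k hk1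
  have hp0 : 0 ≤ (k : ℝ) ^ (e / 2) := by positivity
  have hm : Real.exp (-(2 * |y.1| + 2 * |y.2| + |y.1 - y.2| / 2)) = Real.exp (-mTR y) := rfl
  rw [hm]
  have hE0 := (Real.exp_pos (-mTR y)).le
  calc ‖c k‖ * (C0 * C0 * Cg * Bw * (Cst * (k : ℝ) ^ (e / 2) * X0 * Real.exp (-mTR y)))
      = Bw * (C0 * C0 * Cg * Cst * (‖c k‖ * X0)) * (k : ℝ) ^ (e / 2) * Real.exp (-mTR y) := by ring
    _ ≤ Bw * (C0 * C0 * Cg * Cst * Cn) * (k : ℝ) ^ (e / 2) * Real.exp (-mTR y) := by gcongr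
    _ ≤ Bw * (k : ℝ) ^ (e / 2) * (k : ℝ) ^ (e / 2) * Real.exp (-mTR y) := by gcongr
    _ = _ := by
        rw [hpow]
        ring

/-- **the regular main class at fixed half quanta in the window**: the value without statistic -/
theorem topR0_val {e : ℝ} (he : 0 < e) : ∃ κ0 : ℝ, 0 < κ0 ∧ κ0 ≤ 1 / 100 ∧
      ∀ ep : ℝ, 0 < ep → ep ≤ κ0 → ∀ e1 : ℝ, 0 < e1 → e1 ≤ κ0 →
      ∀ J : ℝ, 0 ≤ J → Real.exp (-(2 * Real.pi * J)) ≤ κ0 →
      ∀ (c : ℕ → ℂ) (Cn : ℝ), (∀ k, 1 ≤ k → ‖c k‖ * Real.exp ((k : ℝ) ^ 2 * PBVR.EMF0) ≤ Cn) →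
      ∃ k0 : ℕ, 2 ≤ k0 ∧ ∀ k ≥ k0,
      (∀ (r : ℕ) (_O : Fin r → Xo), CurB ep (etaC e1 J k k) (etaC' e1 J k k)) ∧
      ∀ y : ℝ × ℝ, |y.1| ≤ TW ep e1 k → |y.2| ≤ TW ep e1 k → ∀ M ≤ 2 * k,
      ‖c k * kR k y * ∑ n ∈ range (M + 1), FF (RZW (R0 (k - 1) (beC ep) [I, -I] [])
          (vl (5 / 4 * l) y.1) (vl (5 / 4 * l) y.2)) (NUSea.O.par0 k) n n
          (fun _ _ => etaC e1 J k k) (fun _ _ => etaC' e1 J k k) (fun _ _ _ _ _ => 1)‖ ≤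
        (k : ℝ) ^ e * Real.exp (-mTR y) := by
  obtain ⟨κ0, hκ, hκ1, h⟩ := topR0 0 0 he
  refine ⟨κ0, hκ, hκ1, fun ep hep hep1 e1 he1 he11 J hJ hJ1 c Cn hc => ?_⟩
  obtain ⟨k0, hk0, h⟩ := h Unit (fun _ _ => True) _ (statFam_one _) ep hep hep1 e1 he1 he11 J hJ
    hJ1 c Cn hc
  refine ⟨k0, hk0, fun k hk => ?_⟩
  obtain ⟨hcur, h⟩ := h k hk
  refine ⟨hcur, fun y hy1 hy2 M hM => ?_⟩
  have key := h y hy1 hy2 () trivial (fun _ _ => 1) 1 zero_le_one (fun _ _ => zero_le_one)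
    (fun r O => by
      rw [zero_mul, Real.exp_zero, one_mul, one_mul]
      exact Real.one_le_exp (Finset.sum_nonneg fun i _ => PBP.gT_nonneg _ _ _))
  have hR : 0 ≤ (k : ℝ) ^ e * Real.exp (-mTR y) := by positivity
  rw [← ENNReal.ofReal_le_ofReal_iff hR, norm_mul, ENNReal.ofReal_mul (norm_nonneg _)]
  rw [one_mul] at key
  refine le_trans (mul_le_mul' le_rfl ?_) key
  rw [ofReal_norm]
  refine (enorm_sum_le _ _).trans ?_
  refine le_trans (Finset.sum_le_sum fun n _ => FF_le _) ?_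
  refine (Finset.sum_le_sum_of_subset (f := fun n => FA (RZW (R0 (k - 1) (beC ep) [I, -I] [])
    (vl (5 / 4 * l) y.1) (vl (5 / 4 * l) y.2)) (NUSea.O.par0 k) n n (fun _ _ => etaC e1 J k k)
    (fun _ _ => etaC' e1 J k k) (fun _ _ _ _ _ => 1)) (show range (M + 1) ⊆ range (2 * k + 1) from
      Finset.range_subset_range.2 (by omega))).trans ?_
  refine Finset.sum_le_sum fun n _ => ?_
  rw [FA_eq_FE]
  exact FE_mono fun r O a b x => by simp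

end PBI

end
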