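import Pool.Agent.PB.HPot
import Pool.Agent.PB.OneD
import Pool.Agent.NUGC.ExD
import Pool.Agent.NUS4C.RowC
import Pool.Agent.NUSea.Bridge

/-!
# Plan B: the one body factors of the dislocated function on the curve, rows at `0`

`mu1 k x`: one row at `x`, `k` rows at `0`; `row0_pA`: the factor of a row at `0` on the curve is
`exp (Re vc)` (field of the sea `seaP`); `end_pA`: the factor of the ends; **`domL`**: the one body factor
of the data `obX` with rows `mu1 k x` and legs at `z` is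
`2 cos l exp ((k+1) Re vc) (exp (Re DD) * |phi|) exp (Hleg 1 z x)`.
-/

set_option autoImplicit false
set_option linter.unusedSectionVars false

noncomputable section

open Complex

namespace PBL

open NUMF (l l_pos)
open NUO (pA)
open PBX (rwC thZ obX)

/-- one row at `x`, `k` rows at `0` -/
def mu1 (k : ℕ) (x : ℂ) : Fin (k + 1) → ℂ := Fin.cons x fun _ => 0

theorem prod_rwC (k : ℕ) (x u : ℂ) : ∏ i, rwC (mu1 k x i) u = rwC x u * rwC 0 u ^ k := by
  unfold mu1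
  rw [Fin.prod_univ_succ]
  simp

theorem ofFn_mu1 (k : ℕ) (x : ℂ) : List.ofFn (mu1 k x) = x :: List.replicate k 0 := by
  unfold mu1
  rw [List.ofFn_succ]
  simp [List.ofFn_const]

/-- **a row at `0` on the curve** -/
theorem row0_pA {η : ℝ → ℝ} {t : ℝ} (h : |η t| < l) :
    rwC 0 (pA η t) = Real.exp (@NUSea.vc NUSea.seaP (NUAct.zt (NUKer.iD η) t)).re := by
  have him : (NUAct.zt (NUKer.iD η) t + ((0 : ℝ) : ℂ) * I).im = η t := by
    unfold NUAct.zt NUKer.iD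
    simp
  have h1 := NUS4C.rwN_line 0 (z := NUAct.zt (NUKer.iD η) t) (by rw [him]; exact h)
  have e : pA η t = NUP1.l + I * (NUAct.zt (NUKer.iD η) t) := NUBR.line_pt (η t) t
  rw [e, NUSea.vc_seaP]
  rw [Complex.ofReal_zero, zero_mul, add_zero] at h1
  rw [← h1]
  unfold rwC NUGC.rwN
  simp

/-- **the ends on the curve**, no groups -/
theorem end_pA (a : Bool) {η : ℝ → ℝ} {t : ℝ} (h : |η t| < 1 / 4 * l) (g : Fin 0 → NUSea.H0.Gd) :
    Real.exp (NUSp.DD NUGC.pE NUGC.qE (List.ofFn fun i => (g i).G) a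
      (NUAct.zt (NUKer.iD η) t)).re = NUGC.ThN (pA η t) := by
  have h1 := NUGC.ex_DD_pA (n := 0) (fun i => i.elim0) (fun i => i.elim0) (fun i => i.elim0)
    (fun i => i.elim0) a h
  have e2 : NUAct.zt (NUKer.iD η) t = (t : ℂ) + (η t : ℂ) * I := rfl
  rw [Finset.univ_eq_empty, Finset.prod_empty, mul_one] at h1
  rw [h1, e2]
  simp only [List.ofFn_zero]
  rfl

/-- **the one body factor of the dislocated function on the curve** -/
theorem domL {δ : ℝ} (hδ : 0 < δ) (hδ1 : δ ≤ l / 4) {η : ℝ → ℝ} (hη : ∀ t, |η t| ≤ δ / 2) {z x : ℂ}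
    (h0 : -l + δ ≤ z.re) (h1 : z.re ≤ 4 * l - δ) (hx : |x.re| ≤ l - δ) (k : ℕ) (β : ℝ)
    (ex ex0 : List ℂ) (g : Fin 0 → NUSea.H0.Gd) (a : Bool) (t : ℝ) :
    (obX (2 * Real.cos NUP1.l) β (mu1 k x) ex ex0 fun _ u => thZ z u).R a (pA η t) *
        ‖(obX (2 * Real.cos NUP1.l) β (mu1 k x) ex ex0 fun _ u => thZ z u).φ (pA η t)‖ =
      2 * Real.cos NUP1.l * (Real.exp (((k + 1 : ℕ) : ℝ) *
          (@NUSea.vc NUSea.seaP (NUAct.zt (NUKer.iD η) t)).re +
          (NUSp.DD NUGC.pE NUGC.qE (List.ofFn fun i => (g i).G) a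
            (NUAct.zt (NUKer.iD η) t)).re + PBH.Hleg 1 z x η a t) *
          ‖NUP1.phi β (List.ofFn (mu1 k x) ++ ex) (pA η t)‖) := by
  have hl := l_pos
  have p1 := (PBH.thZ_pA hδ (by linarith) hη h0 h1 t).1
  have p2 := (PBH.rwC_pA hδ (by linarith) hη hx t).1
  have p3 := (PBH.rwC_pA hδ (by linarith) hη (x := 0) (by simp; linarith) t).1
  have p4 := (PBH.ThN_pA hδ (by linarith) hη t).1
  have hη1 : |η t| < l := by linarith [hη t]
  have e0 := row0_pA hη1
  have e4 := end_pA a (η := η) (t := t) (by linarith [hη t]) g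
  have e3 : PBO.rwC 0 (pA η t) = rwC 0 (pA η t) := rfl
  have e2 : PBO.rwC x (pA η t) = rwC x (pA η t) := rfl
  have e1 : PBO.thZ z (pA η t) = thZ z (pA η t) := rfl
  have eH : Real.exp (PBH.Hleg 1 z x η a t) = thZ z (pA η t) * rwC x (pA η t) / rwC 0 (pA η t) /
      NUGC.ThN (pA η t) := by
    unfold PBH.Hleg
    rw [one_mul, Real.exp_sub, Real.exp_sub, Real.exp_add, Real.exp_log p1, Real.exp_log p2,
      Real.exp_log p3, Real.exp_log p4, e1, e2, e3]
  have ev : Real.exp (((k + 1 : ℕ) : ℝ) * (@NUSea.vc NUSea.seaP (NUAct.zt (NUKer.iD η) t)).re) =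
      rwC 0 (pA η t) ^ (k + 1) := by
    rw [Real.exp_nat_mul, ← e0]
  rw [Real.exp_add, Real.exp_add, eH, ev, e4]
  show (2 * Real.cos NUP1.l * (∏ i, rwC (mu1 k x i) (pA η t)) * thZ z (pA η t)) *
    ‖NUP1.phi β (List.ofFn (mu1 k x) ++ ex) (pA η t)‖ = _
  rw [prod_rwC]
  rw [e3] at p3
  have hc := p3.ne'
  have hd := p4.ne'
  obtain ⟨A, hA⟩ : ∃ A, A = rwC 0 (pA η t) := ⟨_, rfl⟩
  obtain ⟨T, hT⟩ : ∃ T, T = NUGC.ThN (pA η t) := ⟨_, rfl⟩
  rw [← hA] at hc ⊢
  rw [← hT] at hd ⊢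
  field_simp
  try ring

end PBL

end
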