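import Pool.Agent.PB.Func2

/-!
# Plan B: the assembly of `(E')` from the two Ward identities

Everything is in terms of NUMBERS of the functional `F = F_{mu,z}` (any realisation, e.g. `PBF.FF`):
`f = F[1]`, `G1 g = F[ν_+(g)]`, `G2 g h = F[ν_+(g) ν_+(h)]`, `H2 g h = F[ν_-(g) ν_-(h)]`,
`Hs g = F[ν_-(g) S_-]`, `Hss = F[S_- S_-]`.

* `TC y₁ y₂ a M g` : test functions, analytic for `y₁ < Im z < y₂`, `|g| ≤ M e^{-a |Re z|}`;
* `Rep` : product representation `E(z, w) = ∫ a_s(z) b_s(w) dσ(s)` with test functions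
  (`PBV.prod_decomp`);
* `Lev2` : the level two statement of the plus channel: for NEUTRAL `g` and any `h`
  `|G1 g - m g f| ≤ M δ`, `|G2 g h - (m g G1 h + C g h f)| ≤ M M' δ`;
* `Lev2m` : the minus channel (no neutrality, mean zero, the step `S_-` included);
* **`E_prime`** : from the first Ward identity (hypothesis `hI`)
  `f_η ≈ ∫ G2 (a_s) (b_s) + ∫ H2 (a'_s) (b'_s) + 2 Hs u - (J/2) Hss + G1 (r g')`,
  the leg derivatives `f_τ ≈ - G1 h0`, `f_ττ ≈ G2 h0 h0 + G1 g2` and the values of the constants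
  (`Vals`), `|f_η - (K2 f_ττ - L f_τ)| ≤ errors`.
-/

set_option autoImplicit false

open MeasureTheory Complex Filter Topology
open scoped ENNReal

noncomputable section

namespace PBE

/-- the strip -/
def Sp (y₁ y₂ : ℝ) : Set ℂ := {z | y₁ < z.im ∧ z.im < y₂}

/-- test functions -/
structure TC (y₁ y₂ a M : ℝ) (g : ℂ → ℂ) : Prop where
  an : DifferentiableOn ℂ g (Sp y₁ y₂)
  bd : ∀ z ∈ Sp y₁ y₂, ‖g z‖ ≤ M * Real.exp (-(a * |z.re|))

section tc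

variable {y₁ y₂ a M M' : ℝ} {g h : ℂ → ℂ}

lemma TC.nonneg (hg : TC y₁ y₂ a M g) (h1 : y₁ < 0) (h2 : 0 < y₂) : 0 ≤ M := by
  have := (norm_nonneg _).trans (hg.bd 0 ⟨by simpa using h1, by simpa using h2⟩)
  exact nonneg_of_mul_nonneg_left this (Real.exp_pos _)

lemma TC.comb (hg : TC y₁ y₂ a M g) (hh : TC y₁ y₂ a M' h) (c : ℂ) :
    TC y₁ y₂ a (‖c‖ * M + M') (fun z => c * g z + h z) where
  an := (hg.an.const_mul c).add hh.an
  bd z hz := by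
    calc ‖c * g z + h z‖ ≤ ‖c‖ * ‖g z‖ + ‖h z‖ := by
          refine (norm_add_le _ _).trans ?_
          rw [norm_mul]
      _ ≤ ‖c‖ * (M * Real.exp (-(a * |z.re|))) + M' * Real.exp (-(a * |z.re|)) := by
          gcongr
          · exact hg.bd z hz
          · exact hh.bd z hz
      _ = _ := by ring

lemma TC.mono (hg : TC y₁ y₂ a M g) (h : M ≤ M') : TC y₁ y₂ a M' g where
  an := hg.an
  bd z hz := (hg.bd z hz).trans (mul_le_mul_of_nonneg_right h (Real.exp_pos _).le)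

lemma int_exp_abs {a : ℝ} (ha : 0 < a) : Integrable (fun t : ℝ => Real.exp (-(a * |t|))) ∧
    ∫ t : ℝ, Real.exp (-(a * |t|)) = 2 / a := by
  constructor
  · rw [← integrableOn_univ, ← Set.Iic_union_Ioi (a := (0 : ℝ)), integrableOn_union]
    constructor
    · refine (integrableOn_exp_mul_Iic ha 0).congr_fun (fun x hx => ?_) measurableSet_Iic
      rw [abs_of_nonpos hx]
      ring_nf
    · refine (integrableOn_exp_mul_Ioi (a := -a) (by linarith) 0).congr_fun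
        (fun x hx => ?_) measurableSet_Ioi
      have hx' : 0 < x := hx
      simp only [abs_of_pos hx', neg_mul]
  · have := integral_comp_abs (f := fun t : ℝ => Real.exp (-(a * t)))
    rw [this]
    have h1 := integral_exp_mul_Ioi (by linarith : -a < 0) 0
    simp only [neg_mul] at h1
    rw [h1]
    simp
    ring

lemma TC.real (hg : TC y₁ y₂ a M g) (ha : 0 < a) (h1 : y₁ < 0) (h2 : 0 < y₂) :
    Integrable (fun t : ℝ => g t) ∧ ‖∫ t : ℝ, g t‖ ≤ M * (2 / a) := by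
  have hb : ∀ t : ℝ, ‖g t‖ ≤ M * Real.exp (-(a * |t|)) := by
    intro t
    have := hg.bd (t : ℂ) ⟨by simpa using h1, by simpa using h2⟩
    simpa using this
  have hc : Continuous fun t : ℝ => g t := by
    rw [continuous_iff_continuousAt]
    intro t
    have ho : IsOpen (Sp y₁ y₂) :=
      (isOpen_lt continuous_const Complex.continuous_im).inter
        (isOpen_lt Complex.continuous_im continuous_const)
    have := (hg.an.differentiableAt (x := (t : ℂ))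
      (ho.mem_nhds ⟨by simpa using h1, by simpa using h2⟩)).continuousAt
    exact this.comp Complex.continuous_ofReal.continuousAt
  have hi := (int_exp_abs ha).1.const_mul M
  refine ⟨hi.mono' hc.aestronglyMeasurable (Eventually.of_forall hb), ?_⟩
  have := norm_integral_le_of_norm_le hi (Eventually.of_forall hb)
  rw [integral_const_mul, (int_exp_abs ha).2] at this
  exact this

end tc

/-- `∫ g` on the real line -/
def mass (g : ℂ → ℂ) : ℂ := ∫ t : ℝ, g t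

lemma mass_comb {y₁ y₂ a M M' : ℝ} {g h : ℂ → ℂ} (hg : TC y₁ y₂ a M g) (hh : TC y₁ y₂ a M' h)
    (ha : 0 < a) (h1 : y₁ < 0) (h2 : 0 < y₂) (c : ℂ) :
    mass (fun z => c * g z + h z) = c * mass g + mass h := by
  unfold mass
  rw [integral_add ((hg.real ha h1 h2).1.const_mul c) (hh.real ha h1 h2).1, integral_const_mul]

/-- product representation with test functions; the scalars are measurable -/
structure Rep {T : Type*} [MeasurableSpace T] (y₁ y₂ a : ℝ) (σ : Measure T) (A B : T → ℂ → ℂ)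
    (al be : T → ℝ) : Prop where
  tA : ∀ s, TC y₁ y₂ a (al s) (A s)
  tB : ∀ s, TC y₁ y₂ a (be s) (B s)
  int : Integrable (fun s => al s * be s) σ

/-- linear functional on test functions -/
structure Lin1 (y₁ y₂ a : ℝ) (m : (ℂ → ℂ) → ℂ) : Prop where
  lin : ∀ M M' g h c, TC y₁ y₂ a M g → TC y₁ y₂ a M' h →
    m (fun z => c * g z + h z) = c * m g + m h

/-- symmetric bilinear functional on test functions -/
structure Lin2 (y₁ y₂ a : ℝ) (C : (ℂ → ℂ) → (ℂ → ℂ) → ℂ) : Prop where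
  lin : ∀ M M' M'' g h k c, TC y₁ y₂ a M g → TC y₁ y₂ a M' h → TC y₁ y₂ a M'' k →
    C (fun z => c * g z + h z) k = c * C g k + C h k
  symm : ∀ M M' g h, TC y₁ y₂ a M g → TC y₁ y₂ a M' h → C g h = C h g

/-- **level two, plus channel** -/
structure Lev2 (y₁ y₂ a : ℝ) (f : ℂ) (G1 : (ℂ → ℂ) → ℂ) (G2 : (ℂ → ℂ) → (ℂ → ℂ) → ℂ)
    (m : (ℂ → ℂ) → ℂ) (C : (ℂ → ℂ) → (ℂ → ℂ) → ℂ) (δ : ℝ) : Prop where
  mean : ∀ M g, TC y₁ y₂ a M g → mass g = 0 → ‖G1 g - m g * f‖ ≤ M * δ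
  cov : ∀ M M' g h, TC y₁ y₂ a M g → mass g = 0 → TC y₁ y₂ a M' h →
    ‖G2 g h - (m g * G1 h + C g h * f)‖ ≤ M * M' * δ

/-- **level two, minus channel**; `Cs g = C_-(g, sg)`, `Css = C_-(sg, sg)` -/
structure Lev2m (y₁ y₂ a : ℝ) (f : ℂ) (H2 : (ℂ → ℂ) → (ℂ → ℂ) → ℂ) (Hs : (ℂ → ℂ) → ℂ) (Hss : ℂ)
    (C : (ℂ → ℂ) → (ℂ → ℂ) → ℂ) (Cs : (ℂ → ℂ) → ℂ) (Css : ℂ) (δ : ℝ) : Prop where
  cov : ∀ M M' g h, TC y₁ y₂ a M g → TC y₁ y₂ a M' h → ‖H2 g h - C g h * f‖ ≤ M * M' * δ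
  covs : ∀ M g, TC y₁ y₂ a M g → ‖Hs g - Cs g * f‖ ≤ M * δ
  covss : ‖Hss - Css * f‖ ≤ δ

section main

variable {y₁ y₂ a : ℝ}

/-- neutral part of `g` with respect to `h0` -/
def ntr (h0 g : ℂ → ℂ) : ℂ → ℂ := fun z => -(mass g / mass h0) * h0 z + g z

lemma ntr_TC {M M0 : ℝ} {g h0 : ℂ → ℂ} (hg : TC y₁ y₂ a M g) (hh : TC y₁ y₂ a M0 h0) (ha : 0 < a)
    (h1 : y₁ < 0) (h2 : 0 < y₂) :
    TC y₁ y₂ a (M * (1 + 2 * M0 / (a * ‖mass h0‖))) (ntr h0 g) := by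
  have h3 := hh.comb hg (-(mass g / mass h0))
  refine h3.mono ?_
  have h4 := (hg.real ha h1 h2).2
  have hM := hg.nonneg h1 h2
  have hM0 := hh.nonneg h1 h2
  have h5 : ‖-(mass g / mass h0)‖ ≤ M * (2 / a) / ‖mass h0‖ := by
    rw [norm_neg, norm_div]
    exact div_le_div_of_nonneg_right h4 (norm_nonneg _)
  calc ‖-(mass g / mass h0)‖ * M0 + M ≤ M * (2 / a) / ‖mass h0‖ * M0 + M := by gcongr
    _ = M * (1 + 2 * M0 / (a * ‖mass h0‖)) := by
      rw [div_mul_eq_mul_div, mul_div_assoc', ← div_div, mul_add, mul_one]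
      ring

lemma mass_ntr {M M0 : ℝ} {g h0 : ℂ → ℂ} (hg : TC y₁ y₂ a M g) (hh : TC y₁ y₂ a M0 h0) (ha : 0 < a)
    (h1 : y₁ < 0) (h2 : 0 < y₂) (h0' : mass h0 ≠ 0) : mass (ntr h0 g) = 0 := by
  unfold ntr
  rw [mass_comb hh hg ha h1 h2]
  field_simp
  ring

lemma split_eq (h0 g : ℂ → ℂ) : (fun z => (mass g / mass h0) * h0 z + ntr h0 g z) = g := by
  funext z
  unfold ntr
  ring

lemma Lin1.split {m : (ℂ → ℂ) → ℂ} (hm : Lin1 y₁ y₂ a m) {M M0 : ℝ} {g h0 : ℂ → ℂ}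
    (hg : TC y₁ y₂ a M g) (hh : TC y₁ y₂ a M0 h0) (ha : 0 < a) (h1 : y₁ < 0) (h2 : 0 < y₂) :
    m g = (mass g / mass h0) * m h0 + m (ntr h0 g) := by
  have := hm.lin _ _ h0 (ntr h0 g) (mass g / mass h0) hh (ntr_TC hg hh ha h1 h2)
  rw [split_eq] at this
  exact this

lemma Lin2.split {C : (ℂ → ℂ) → (ℂ → ℂ) → ℂ} (hC : Lin2 y₁ y₂ a C) {M M0 M' : ℝ}
    {g h0 k : ℂ → ℂ} (hg : TC y₁ y₂ a M g) (hh : TC y₁ y₂ a M0 h0) (hk : TC y₁ y₂ a M' k)
    (ha : 0 < a) (h1 : y₁ < 0) (h2 : 0 < y₂) :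
    C g k = (mass g / mass h0) * C h0 k + C (ntr h0 g) k := by
  have := hC.lin _ _ _ h0 (ntr h0 g) k (mass g / mass h0) hh (ntr_TC hg hh ha h1 h2) hk
  rw [split_eq] at this
  exact this

/-- the full split of a bilinear form -/
lemma Lin2.split2 {C : (ℂ → ℂ) → (ℂ → ℂ) → ℂ} (hC : Lin2 y₁ y₂ a C) {M M0 M' : ℝ}
    {g h0 k : ℂ → ℂ} (hg : TC y₁ y₂ a M g) (hh : TC y₁ y₂ a M0 h0) (hk : TC y₁ y₂ a M' k)
    (ha : 0 < a) (h1 : y₁ < 0) (h2 : 0 < y₂) :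
    C g k = (mass g / mass h0) * (mass k / mass h0) * C h0 h0 +
      (mass g / mass h0) * C (ntr h0 k) h0 + (mass k / mass h0) * C (ntr h0 g) h0 +
      C (ntr h0 g) (ntr h0 k) := by
  have n1 := ntr_TC hg hh ha h1 h2
  have n2 := ntr_TC hk hh ha h1 h2
  rw [hC.split hg hh hk ha h1 h2, hC.symm _ _ _ _ hh hk, hC.symm _ _ _ _ n1 hk,
    hC.split hk hh hh ha h1 h2, hC.split hk hh n1 ha h1 h2, hC.symm _ _ _ _ hh n1,
    hC.symm _ _ _ _ n2 n1]
  ring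

/-- **one product of test functions** -/
theorem cov_pair {f : ℂ} {G1 m : (ℂ → ℂ) → ℂ} {G2 C : (ℂ → ℂ) → (ℂ → ℂ) → ℂ} {δ K M M' M0 : ℝ}
    {g h h0 : ℂ → ℂ} (hL : Lev2 y₁ y₂ a f G1 G2 m C δ) (hG2 : Lin2 y₁ y₂ a G2)
    (hm : Lin1 y₁ y₂ a m) (hC : Lin2 y₁ y₂ a C)
    (hK : ∀ M g, TC y₁ y₂ a M g → ‖m g‖ ≤ K * M) (hm0 : m h0 = 0)
    (hg : TC y₁ y₂ a M g) (hk : TC y₁ y₂ a M' h) (hh : TC y₁ y₂ a M0 h0) (hA : mass h0 ≠ 0)
    (ha : 0 < a) (h1 : y₁ < 0) (h2 : 0 < y₂) (hδ : 0 ≤ δ) (hK0 : 0 ≤ K) :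
    ‖G2 g h - ((mass g / mass h0) * (mass h / mass h0) * G2 h0 h0 +
      ((mass g / mass h0) * m h + (mass h / mass h0) * m g) * G1 h0 +
      (C g h - (mass g / mass h0) * (mass h / mass h0) * C h0 h0 + m g * m h) * f)‖ ≤
      (3 + K) * (1 + 2 * M0 / (a * ‖mass h0‖)) ^ 2 * (M * M') * δ := by
  have n1 := ntr_TC hg hh ha h1 h2
  have n2 := ntr_TC hk hh ha h1 h2
  have z1 := mass_ntr hg hh ha h1 h2 hA
  have z2 := mass_ntr hk hh ha h1 h2 hA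
  have mg : m g = m (ntr h0 g) := by rw [hm.split hg hh ha h1 h2, hm0]; ring
  have mh : m h = m (ntr h0 h) := by rw [hm.split hk hh ha h1 h2, hm0]; ring
  have c1 := hL.cov _ _ _ _ n2 z2 hh
  have c2 := hL.cov _ _ _ _ n1 z1 hh
  have c3 := hL.cov _ _ _ _ n1 z1 n2
  have c4 := hL.mean _ _ n2 z2
  have c5 := hK _ _ n1
  have M_nn := hg.nonneg h1 h2
  have M'_nn := hk.nonneg h1 h2
  have M0_nn := hh.nonneg h1 h2
  set κ := 1 + 2 * M0 / (a * ‖mass h0‖) with hκ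
  have hA' : 0 < ‖mass h0‖ := norm_pos_iff.2 hA
  have hκ1 : 2 * M0 / (a * ‖mass h0‖) ≤ κ := by rw [hκ]; linarith
  have hκ0 : 0 ≤ κ := by rw [hκ]; positivity
  have al1 : ‖mass g / mass h0‖ * M0 ≤ M * κ := by
    rw [norm_div]
    calc ‖mass g‖ / ‖mass h0‖ * M0 ≤ M * (2 / a) / ‖mass h0‖ * M0 := by
          gcongr
          exact (hg.real ha h1 h2).2
      _ = M * (2 * M0 / (a * ‖mass h0‖)) := by field_simp
      _ ≤ M * κ := mul_le_mul_of_nonneg_left hκ1 M_nn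
  have al2 : ‖mass h / mass h0‖ * M0 ≤ M' * κ := by
    rw [norm_div]
    calc ‖mass h‖ / ‖mass h0‖ * M0 ≤ M' * (2 / a) / ‖mass h0‖ * M0 := by
          gcongr
          exact (hk.real ha h1 h2).2
      _ = M' * (2 * M0 / (a * ‖mass h0‖)) := by field_simp
      _ ≤ M' * κ := mul_le_mul_of_nonneg_left hκ1 M'_nn
  rw [hG2.split2 hg hh hk ha h1 h2, hC.split2 hg hh hk ha h1 h2, mg, mh]
  set α := mass g / mass h0
  set β := mass h / mass h0
  set ng := ntr h0 g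
  set nh := ntr h0 h
  have e : α * β * G2 h0 h0 + α * G2 nh h0 + β * G2 ng h0 + G2 ng nh -
      (α * β * G2 h0 h0 + (α * m nh + β * m ng) * G1 h0 +
        (α * β * C h0 h0 + α * C nh h0 + β * C ng h0 + C ng nh - α * β * C h0 h0 +
          m ng * m nh) * f) =
      α * (G2 nh h0 - (m nh * G1 h0 + C nh h0 * f)) +
      β * (G2 ng h0 - (m ng * G1 h0 + C ng h0 * f)) +
      (G2 ng nh - (m ng * G1 nh + C ng nh * f)) + m ng * (G1 nh - m nh * f) := by ring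
  rw [e]
  have b1 : ‖α * (G2 nh h0 - (m nh * G1 h0 + C nh h0 * f))‖ ≤ κ ^ 2 * (M * M') * δ := by
    rw [norm_mul]
    calc ‖α‖ * ‖G2 nh h0 - (m nh * G1 h0 + C nh h0 * f)‖ ≤ ‖α‖ * (M' * κ * M0 * δ) :=
          mul_le_mul_of_nonneg_left c1 (norm_nonneg _)
      _ = (‖α‖ * M0) * (M' * κ * δ) := by ring
      _ ≤ (M * κ) * (M' * κ * δ) := mul_le_mul_of_nonneg_right al1 (by positivity)
      _ = _ := by ring
  have b2 : ‖β * (G2 ng h0 - (m ng * G1 h0 + C ng h0 * f))‖ ≤ κ ^ 2 * (M * M') * δ := by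
    rw [norm_mul]
    calc ‖β‖ * ‖G2 ng h0 - (m ng * G1 h0 + C ng h0 * f)‖ ≤ ‖β‖ * (M * κ * M0 * δ) :=
          mul_le_mul_of_nonneg_left c2 (norm_nonneg _)
      _ = (‖β‖ * M0) * (M * κ * δ) := by ring
      _ ≤ (M' * κ) * (M * κ * δ) := mul_le_mul_of_nonneg_right al2 (by positivity)
      _ = _ := by ring
  have b4 : ‖m ng * (G1 nh - m nh * f)‖ ≤ K * (κ ^ 2 * (M * M') * δ) := by
    rw [norm_mul]
    calc ‖m ng‖ * ‖G1 nh - m nh * f‖ ≤ (K * (M * κ)) * (M' * κ * δ) :=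
          mul_le_mul c5 c4 (norm_nonneg _) (by positivity)
      _ = _ := by ring
  calc ‖α * (G2 nh h0 - (m nh * G1 h0 + C nh h0 * f)) +
      β * (G2 ng h0 - (m ng * G1 h0 + C ng h0 * f)) +
      (G2 ng nh - (m ng * G1 nh + C ng nh * f)) + m ng * (G1 nh - m nh * f)‖
      ≤ κ ^ 2 * (M * M') * δ + κ ^ 2 * (M * M') * δ + M * κ * (M' * κ) * δ +
        K * (κ ^ 2 * (M * M') * δ) :=
        (norm_add_le _ _).trans (add_le_add ((norm_add_le _ _).trans (add_le_add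
          ((norm_add_le _ _).trans (add_le_add b1 b2)) c3)) b4)
    _ = _ := by ring

end main

section asm

variable {y₁ y₂ a : ℝ} {T T' : Type*} [MeasurableSpace T] [MeasurableSpace T'] {σ : Measure T}
  {σ' : Measure T'}

/-- **the plus channel, integrated** -/
theorem plus_int {f : ℂ} {G1 m : (ℂ → ℂ) → ℂ} {G2 C : (ℂ → ℂ) → (ℂ → ℂ) → ℂ} {δ K M0 : ℝ}
    {h0 : ℂ → ℂ} {A B : T → ℂ → ℂ} {al be : T → ℝ} (hR : Rep y₁ y₂ a σ A B al be)
    (hL : Lev2 y₁ y₂ a f G1 G2 m C δ) (hG2 : Lin2 y₁ y₂ a G2)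
    (hm : Lin1 y₁ y₂ a m) (hC : Lin2 y₁ y₂ a C)
    (hK : ∀ M g, TC y₁ y₂ a M g → ‖m g‖ ≤ K * M) (hm0 : m h0 = 0)
    (hh : TC y₁ y₂ a M0 h0) (hA : mass h0 ≠ 0)
    (ha : 0 < a) (h1 : y₁ < 0) (h2 : 0 < y₂) (hδ : 0 ≤ δ) (hK0 : 0 ≤ K)
    (iG : Integrable (fun s => G2 (A s) (B s)) σ)
    (i2 : Integrable (fun s => mass (A s) * mass (B s)) σ)
    (i1 : Integrable (fun s => mass (A s) * m (B s) + mass (B s) * m (A s)) σ)
    (iC : Integrable (fun s => C (A s) (B s)) σ)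
    (im : Integrable (fun s => m (A s) * m (B s)) σ) {K2 : ℂ}
    (hK2 : ∫ s, mass (A s) * mass (B s) ∂σ = K2 * mass h0 ^ 2) :
    ‖(∫ s, G2 (A s) (B s) ∂σ) - (K2 * G2 h0 h0 +
      ((∫ s, (mass (A s) * m (B s) + mass (B s) * m (A s)) ∂σ) / mass h0) * G1 h0 +
      ((∫ s, C (A s) (B s) ∂σ) - K2 * C h0 h0 + ∫ s, m (A s) * m (B s) ∂σ) * f)‖ ≤
      (3 + K) * (1 + 2 * M0 / (a * ‖mass h0‖)) ^ 2 * (∫ s, al s * be s ∂σ) * δ := by
  set P2 : T → ℂ := fun s => (mass (A s) / mass h0) * (mass (B s) / mass h0) with hP2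
  set P1 : T → ℂ := fun s => (mass (A s) / mass h0) * m (B s) + (mass (B s) / mass h0) * m (A s)
    with hP1
  set P0 : T → ℂ := fun s => C (A s) (B s) -
    (mass (A s) / mass h0) * (mass (B s) / mass h0) * C h0 h0 + m (A s) * m (B s) with hP0
  have e2 : P2 = fun s => (mass h0 ^ 2)⁻¹ * (mass (A s) * mass (B s)) := by
    funext s
    simp only [hP2]
    field_simp
  have e1 : P1 = fun s => (mass h0)⁻¹ * (mass (A s) * m (B s) + mass (B s) * m (A s)) := by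
    funext s
    simp only [hP1]
    field_simp
  have I2 : Integrable P2 σ := by rw [e2]; exact i2.const_mul _
  have I1 : Integrable P1 σ := by rw [e1]; exact i1.const_mul _
  have I0' : Integrable (fun s => C (A s) (B s) - P2 s * C h0 h0) σ := iC.sub (I2.mul_const _)
  have I0 : Integrable P0 σ := I0'.add im
  have v2 : ∫ s, P2 s ∂σ = K2 := by
    rw [e2, integral_const_mul, hK2]
    field_simp
  have v1 : ∫ s, P1 s ∂σ =
      (∫ s, (mass (A s) * m (B s) + mass (B s) * m (A s)) ∂σ) / mass h0 := by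
    rw [e1, integral_const_mul]
    field_simp
  have v0 : ∫ s, P0 s ∂σ = (∫ s, C (A s) (B s) ∂σ) - K2 * C h0 h0 +
      ∫ s, m (A s) * m (B s) ∂σ := by
    have : P0 = fun s => (C (A s) (B s) - P2 s * C h0 h0) + m (A s) * m (B s) := rfl
    rw [this, integral_add I0' im, integral_sub iC (I2.mul_const _), integral_mul_const, v2]
  have j2 : Integrable (fun s => P2 s * G2 h0 h0) σ := I2.mul_const _
  have j1 : Integrable (fun s => P1 s * G1 h0) σ := I1.mul_const _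
  have j0 : Integrable (fun s => P0 s * f) σ := I0.mul_const _
  have j21 : Integrable (fun s => P2 s * G2 h0 h0 + P1 s * G1 h0) σ := j2.add j1
  have j210 : Integrable (fun s => P2 s * G2 h0 h0 + P1 s * G1 h0 + P0 s * f) σ := j21.add j0
  rw [← v2, ← v1]
  have v0' : (∫ s, C (A s) (B s) ∂σ) - (∫ s, P2 s ∂σ) * C h0 h0 +
      ∫ s, m (A s) * m (B s) ∂σ = ∫ s, P0 s ∂σ := by rw [v0, v2]
  rw [v0', ← integral_mul_const, ← integral_mul_const, ← integral_mul_const,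
    ← integral_add j2 j1, ← integral_add j21 j0, ← integral_sub iG j210]
  have hb : Integrable (fun s => (3 + K) * (1 + 2 * M0 / (a * ‖mass h0‖)) ^ 2 *
      (al s * be s) * δ) σ := (hR.int.const_mul _).mul_const _
  refine (norm_integral_le_of_norm_le hb (Eventually.of_forall fun s => ?_)).trans
    (le_of_eq ?_)
  · exact cov_pair hL hG2 hm hC hK hm0 (hR.tA s) (hR.tB s) hh hA ha h1 h2 hδ hK0
  · rw [integral_mul_const, integral_const_mul]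

/-- **the minus channel, integrated** -/
theorem minus_int {f : ℂ} {H2 C : (ℂ → ℂ) → (ℂ → ℂ) → ℂ} {Hs Cs : (ℂ → ℂ) → ℂ} {Hss Css : ℂ}
    {δ : ℝ} {A B : T → ℂ → ℂ} {al be : T → ℝ} (hR : Rep y₁ y₂ a σ A B al be)
    (hL : Lev2m y₁ y₂ a f H2 Hs Hss C Cs Css δ)
    (iH : Integrable (fun s => H2 (A s) (B s)) σ) (iC : Integrable (fun s => C (A s) (B s)) σ)
    {u : ℂ → ℂ} {Mu : ℝ} (hu : TC y₁ y₂ a Mu u) (J : ℂ) :
    ‖((∫ s, H2 (A s) (B s) ∂σ) + 2 * Hs u - J / 2 * Hss) -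
      ((∫ s, C (A s) (B s) ∂σ) + 2 * Cs u - J / 2 * Css) * f‖ ≤
      ((∫ s, al s * be s ∂σ) + 2 * Mu + ‖J‖ / 2) * δ := by
  have e : ((∫ s, H2 (A s) (B s) ∂σ) + 2 * Hs u - J / 2 * Hss) -
      ((∫ s, C (A s) (B s) ∂σ) + 2 * Cs u - J / 2 * Css) * f =
      ((∫ s, H2 (A s) (B s) ∂σ) - (∫ s, C (A s) (B s) ∂σ) * f) + 2 * (Hs u - Cs u * f) -
        J / 2 * (Hss - Css * f) := by ring
  rw [e]
  have b1 : ‖(∫ s, H2 (A s) (B s) ∂σ) - (∫ s, C (A s) (B s) ∂σ) * f‖ ≤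
      (∫ s, al s * be s ∂σ) * δ := by
    rw [← integral_mul_const, ← integral_sub iH (iC.mul_const _), ← integral_mul_const]
    refine norm_integral_le_of_norm_le (hR.int.mul_const _) (Eventually.of_forall fun s => ?_)
    exact hL.cov _ _ _ _ (hR.tA s) (hR.tB s)
  have b2 : ‖2 * (Hs u - Cs u * f)‖ ≤ 2 * (Mu * δ) := by
    rw [norm_mul]
    have : ‖(2 : ℂ)‖ = 2 := by simp
    rw [this]
    exact mul_le_mul_of_nonneg_left (hL.covs _ _ hu) (by norm_num)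
  have b3 : ‖J / 2 * (Hss - Css * f)‖ ≤ ‖J‖ / 2 * δ := by
    rw [norm_mul, norm_div]
    have : ‖(2 : ℂ)‖ = 2 := by simp
    rw [this]
    exact mul_le_mul_of_nonneg_left hL.covss (by positivity)
  calc ‖((∫ s, H2 (A s) (B s) ∂σ) - (∫ s, C (A s) (B s) ∂σ) * f) + 2 * (Hs u - Cs u * f) -
        J / 2 * (Hss - Css * f)‖ ≤ (∫ s, al s * be s ∂σ) * δ + 2 * (Mu * δ) + ‖J‖ / 2 * δ :=
        (norm_sub_le _ _).trans (add_le_add ((norm_add_le _ _).trans (add_le_add b1 b2)) b3)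
    _ = _ := by ring

/-- **`(E')`**.  `h0 = g_leg'`, `g2 = g_leg''`, `q = r g_leg'`; `fη`, `fτ`, `fττ` the derivatives
(of `N log`-type: `fη` is `N` times the derivative in the position of the row). -/
theorem E_prime {f fη fτ fττ : ℂ} {G1 m : (ℂ → ℂ) → ℂ} {G2 C H2 Cm : (ℂ → ℂ) → (ℂ → ℂ) → ℂ}
    {Hs Cs : (ℂ → ℂ) → ℂ} {Hss Css J : ℂ} {δ δ0 K M0 M2 Mq Mu : ℝ}
    {h0 g2 q u : ℂ → ℂ} {A B : T → ℂ → ℂ} {al be : T → ℝ} {A' B' : T' → ℂ → ℂ} {al' be' : T' → ℝ}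
    (ha : 0 < a) (h1 : y₁ < 0) (h2 : 0 < y₂) (hδ : 0 ≤ δ) (hK0 : 0 ≤ K)
    -- the product representations of the two kernels
    (hR : Rep y₁ y₂ a σ A B al be) (hR' : Rep y₁ y₂ a σ' A' B' al' be')
    -- level two
    (hL : Lev2 y₁ y₂ a f G1 G2 m C δ) (hL' : Lev2m y₁ y₂ a f H2 Hs Hss Cm Cs Css δ)
    (hG1 : Lin1 y₁ y₂ a G1) (hG2 : Lin2 y₁ y₂ a G2) (hm : Lin1 y₁ y₂ a m) (hC : Lin2 y₁ y₂ a C)
    (hK : ∀ M g, TC y₁ y₂ a M g → ‖m g‖ ≤ K * M) (hm0 : m h0 = 0)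
    -- test functions of the legs and of the field
    (hh : TC y₁ y₂ a M0 h0) (hA : mass h0 ≠ 0) (hg2 : TC y₁ y₂ a M2 g2) (hg20 : mass g2 = 0)
    (hq : TC y₁ y₂ a Mq q) (hu : TC y₁ y₂ a Mu u)
    -- integrability
    (iG : Integrable (fun s => G2 (A s) (B s)) σ)
    (i2 : Integrable (fun s => mass (A s) * mass (B s)) σ)
    (i1 : Integrable (fun s => mass (A s) * m (B s) + mass (B s) * m (A s)) σ)
    (iC : Integrable (fun s => C (A s) (B s)) σ)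
    (im : Integrable (fun s => m (A s) * m (B s)) σ)
    (iH : Integrable (fun s => H2 (A' s) (B' s)) σ')
    (iC' : Integrable (fun s => Cm (A' s) (B' s)) σ')
    -- the first Ward identity
    (hI : ‖fη - ((∫ s, G2 (A s) (B s) ∂σ) +
      ((∫ s, H2 (A' s) (B' s) ∂σ') + 2 * Hs u - J / 2 * Hss) + G1 q)‖ ≤ δ0)
    -- the derivatives in the height of the legs
    (hτ : ‖G1 h0 + fτ‖ ≤ δ) (hττ : ‖G2 h0 h0 + G1 g2 - fττ‖ ≤ δ)
    -- the values
    {K2 L : ℂ} (hK2 : ∫ s, mass (A s) * mass (B s) ∂σ = K2 * mass h0 ^ 2)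
    (hK1 : (∫ s, (mass (A s) * m (B s) + mass (B s) * m (A s)) ∂σ) + mass q = L * mass h0)
    (hV : (∫ s, C (A s) (B s) ∂σ) + (∫ s, m (A s) * m (B s) ∂σ) + m q -
      K2 * (C h0 h0 + m g2) + ((∫ s, Cm (A' s) (B' s) ∂σ') + 2 * Cs u - J / 2 * Css) = 0) :
    ‖fη - (K2 * fττ - L * fτ)‖ ≤ δ0 +
      ((3 + K) * (1 + 2 * M0 / (a * ‖mass h0‖)) ^ 2 * (∫ s, al s * be s ∂σ) +
        ((∫ s, al' s * be' s ∂σ') + 2 * Mu + ‖J‖ / 2) +
        Mq * (1 + 2 * M0 / (a * ‖mass h0‖)) + ‖L‖ + ‖K2‖ * (1 + M2)) * δ := by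
  have hp := plus_int hR hL hG2 hm hC hK hm0 hh hA ha h1 h2 hδ hK0 iG i2 i1 iC im hK2
  have hn := minus_int hR' hL' iH iC' hu J
  have nq := ntr_TC hq hh ha h1 h2
  have zq := mass_ntr hq hh ha h1 h2 hA
  have hLn : ‖G1 q - ((mass q / mass h0) * G1 h0 + m q * f)‖ ≤
      Mq * (1 + 2 * M0 / (a * ‖mass h0‖)) * δ := by
    rw [hG1.split hq hh ha h1 h2, hm.split hq hh ha h1 h2, hm0]
    have := hL.mean _ _ nq zq
    calc _ = ‖G1 (ntr h0 q) - m (ntr h0 q) * f‖ := by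
          congr 1
          ring
      _ ≤ _ := this
  have hX2 : ‖G2 h0 h0 - (fττ - m g2 * f)‖ ≤ (1 + M2) * δ := by
    have h3 := hL.mean _ _ hg2 hg20
    have e : G2 h0 h0 - (fττ - m g2 * f) = (G2 h0 h0 + G1 g2 - fττ) - (G1 g2 - m g2 * f) := by ring
    rw [e]
    refine (norm_sub_le _ _).trans ?_
    linarith
  have key := PBFunc.E_asm (f := f) (fη := fη) (fτ := fτ) (fττ := fττ) (X1 := G1 h0)
    (X2 := G2 h0 h0) (G := m g2) hI hp hn hLn hτ hX2 (by linear_combination hV)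
  have hL' : (∫ s, (mass (A s) * m (B s) + mass (B s) * m (A s)) ∂σ) / mass h0 +
      mass q / mass h0 = L := by
    rw [← add_div, hK1]
    field_simp
  rw [hL'] at key
  refine key.trans (le_of_eq ?_)
  ring

end asm


end PBE
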