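import Pool.Agent.PB.NzE

/-!
# The dislocated function at the rows `0` and with one moved row (helper71)

`f0 N z` : `N` rows at `0` (both groups), legs at `z`; `fx N x z` : the rows `x, 0, .., 0`
(`N + 1` rows).
-/

set_option autoImplicit false

noncomputable section

open Complex

namespace Pool.Agent.PB

open NUP1 (l lpos)
open PBX (Rws)

/-- `N` rows at `0` -/
def f0 (N : ℕ) (z : ℂ) : ℂ := fN (fun _ : Fin N => (0 : ℂ)) z

/-- one row at `x`, `N` rows at `0` -/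
def fx (N : ℕ) (x z : ℂ) : ℂ := fN (Fin.cons x (fun _ : Fin N => (0 : ℂ)) : Fin (N + 1) → ℂ) z

theorem Rws_zero (N : ℕ) : Rws (fun _ : Fin N => (0 : ℂ)) := fun i => by
  have := lpos
  simpa using by linarith

theorem Rws_cons {N : ℕ} {x : ℂ} (h : |x.re| ≤ l / 2) :
    Rws (Fin.cons x (fun _ : Fin N => (0 : ℂ)) : Fin (N + 1) → ℂ) := Rws.cons h (Rws_zero N)

theorem f0_diff (N : ℕ) : DifferentiableOn ℂ (f0 N) {z | |z.re| < 43 / 10 * l} :=
  fN_diff (Rws_zero N)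

theorem fx_diff (N : ℕ) {x : ℂ} (h : |x.re| ≤ l / 2) :
    DifferentiableOn ℂ (fx N x) {z | |z.re| < 43 / 10 * l} := fN_diff (Rws_cons h)

theorem fx_zero (N : ℕ) (z : ℂ) : fx N 0 z = f0 (N + 1) z := by
  unfold fx f0
  congr 1
  funext i
  refine Fin.cases ?_ (fun j => ?_) i
  · simp
  · simp

/-- **(A1)** -/
theorem fx_leg (N : ℕ) {x : ℂ} (h : |x.re| ≤ l / 2) : fx N x (x + 3 * l) = f0 N x :=
  fN_leg h (Rws_zero N)

theorem fx_leg' (N : ℕ) {x : ℂ} (h : |x.re| ≤ l / 2) : fx N x (x - 3 * l) = f0 N x :=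
  fN_leg' h (Rws_zero N)

theorem f0_even (N : ℕ) {z : ℂ} (hz : |z.re| < 43 / 10 * l) : f0 N (-z) = f0 N z := by
  have h := fN_even (Rws_zero N) hz
  have e : -(fun _ : Fin N => (0 : ℂ)) = fun _ : Fin N => (0 : ℂ) := by
    funext i
    simp
  rw [e] at h
  exact h

/-- the zeros of the difference, rows `0` -/
theorem f0_zeros (N : ℕ) : ∃ Q : ℂ → ℂ, DifferentiableOn ℂ Q {z | |z.re| < 13 / 10 * l} ∧
    ∀ z, f0 N (z + 3 * l) - f0 N (z - 3 * l) = z ^ N * Q z := by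
  obtain ⟨Q, hQ, h⟩ := fN_zeros (Rws_zero N)
  refine ⟨Q, hQ, fun z => ?_⟩
  have := h z
  simp only [sub_zero, Finset.prod_const, Finset.card_univ, Fintype.card_fin] at this
  exact this

/-- the zeros of the difference, one moved row -/
theorem fx_zeros (N : ℕ) {x : ℂ} (hx : |x.re| ≤ l / 2) :
    ∃ Q : ℂ → ℂ, DifferentiableOn ℂ Q {z | |z.re| < 13 / 10 * l} ∧
      ∀ z, fx N x (z + 3 * l) - fx N x (z - 3 * l) = (z - x) * z ^ N * Q z := by
  obtain ⟨Q, hQ, h⟩ := fN_zeros (Rws_cons (N := N) hx)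
  refine ⟨Q, hQ, fun z => ?_⟩
  have := h z
  rw [Fin.prod_univ_succ] at this
  simp only [Fin.cons_zero, Fin.cons_succ, sub_zero, Finset.prod_const, Finset.card_univ,
    Fintype.card_fin] at this
  exact this

end Pool.Agent.PB

end
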