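import Pool.Agent.PB.OneD
import Pool.Agent.PB.ClsFF
import Pool.Agent.PB.Nz
import Pool.Agent.NURow.ConvL
import Pool.Agent.NUSea.Par0

/-!
# Plan B: the literal function is the functional of its class

* `decZ_XX`: decay of the class functions on the final lines;
* `DZ_FF`: state sum with `n` quanta = `FF` of the class functions, every family of admissible curves,
  any admissible spectators; `FF_crvX`: independence of the curves;
* `ZL β x ex ex0 z`: class functions of the dislocated function (rows `x` in both groups, cutoff points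
  `x`, `ex` (quanta), `x`, `ex0` (strings), legs at `z`); `Zlg`: the same as a multiplicative insertion;
* **`nz_FF`**, **`fN_FF`**: `fN x z = Pf z x x * ∑ n ≤ 2 m, FF (ZL ..) P n n η η' 1`,
  `-9/10 l ≤ Re z < 37/10 l`; `fN_le`: the bound by the functional with moduli;
* `ParC_par0`, `rad_low`: the parameters `par0 m` of a general sea are admissible.
-/

set_option autoImplicit false
set_option linter.unusedSectionVars false
set_option linter.unusedVariables false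

noncomputable section

open Complex MeasureTheory Finset
open scoped ENNReal

namespace PBX

open NUO NUP1 NUCR NUP1S NUP1S.Ab NUP1S.AbC NURow NUGC PBF
open NUP1.Bd (Ob)
open PBC (DecZ)
open Pool.Agent.PB (nz fN Pf f0 fx LS)

variable {m : ℕ} {P : NUO.Par}

/-! ## decay on the final lines -/

/-- **decay of the class functions on the final lines** -/
theorem decZ_XX (hP : ParC P) {c : Bool → ℂ} {β Q : ℝ} (hβ : 0 < β) (hβ' : β ≤ 4 / 3)
    {x : Fin m → ℂ} (hx : Rws x) {g g0 : ℂ → ℂ} (hg : GOk β g) (hg0 : GOk (4 / 3) g0)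
    {s1 s2 : Bool → ℂ → ℂ} (h : ∀ a, SpecQ a Q (s1 a) (s2 a)) :
    DecZ (fun a => XX (c a) β x x g g0 (s1 a) (s2 a)) P (3 / 5 * l) (2 * β) Q := by
  have hl := Bd.l_pos
  have hD := fun a => (dataX (c := c a) hβ hβ' hx hx hg hg0 (h a)).dec
  have j1 := hP.j1
  have j2 := hP.j2
  refine ⟨fun a => ?_, fun a => ?_, fun a => ?_, fun a r i hi => ?_⟩
  · refine DecOn_of (Bdd.mono_set (bdd_GX hβ hβ' hx hx hg (h a)) ?_) (by linarith)
    rintro y ⟨h1, h2⟩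
    exact Or.inl ⟨h1, by linarith⟩
  · refine DecOn.mono (hD a (some .L)) ?_
    rw [Set.singleton_subset_iff]
    constructor
    · show -(17 / 10 * l) ≤ (1 - P.jL) * l
      nlinarith
    · show (1 - P.jL) * l ≤ -(5 / 4 * l)
      nlinarith
  · refine DecOn.mono (hD a (some .T)) ?_
    rw [Set.singleton_subset_iff]
    constructor
    · show -(7 / 10 * l) ≤ -(1 / 2 * l)
      linarith
    · show -(1 / 2 * l) ≤ -(l / 2)
      linarith
  · refine DecOn.mono (hD a (some .S)) ?_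
    rw [Set.singleton_subset_iff]
    have h3 := hP.e2 r
    have h4 := hP.d0 r
    exact lnO_memL hP.goodP j1 j2 (by linarith) hi .S

/-! ## the state sum is the functional -/

/-- **the state sum with `n` quanta is the functional**, every family of admissible curves -/
theorem DZ_FF {ep β : ℝ} (hP : ParC P) (hρ : ∀ r, ∃ ρ0, 0 < ρ0 ∧ ∀ t, ρ0 ≤ P.rad r t)
    (hep0 : 0 < ep) (hep : ep ≤ 1 / 100) (hβ : 0 < β) (hβ' : β ≤ 4 / 3)
    {x : Fin m → ℂ} (hx : Rws x) {ex ex0 : List ℂ} (hex : ∀ w ∈ ex, |w.re| ≤ l / 2)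
    (hex0 : ∀ w ∈ ex0, |w.re| ≤ l / 2) {c : Bool → ℂ} {c0 : ℝ} (hc : ∀ a, ‖c a‖ = c0)
    {s1 s2 : Bool → ℂ → ℂ} (hA : ∀ a, SpA (s1 a)) (hQ : ∀ a, SpecQ a 0 (s1 a) (s2 a))
    (hAt : ∀ a, SpecAt (3 / 5 * l) a ((0 : ℤ) : ℝ) (s1 a)) {E : Set ℝ} (hE : volume E = 0)
    (hS : ∀ a, SpecS P E (s1 a) (s2 a)) {n : ℕ} {η η' : Crs}
    (hη : ∀ r ≤ n + n, ∀ᵐ O ∂(Measure.pi fun _ : Fin r => nu), CurB ep (η r O) (η' r O)) :
    DZ (c true) (c false) (s1 true) (s1 false) x x n =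
      FF (fun a => XX (c a) β x x (gP β ex) (gP (4 / 3) ex0) (s1 a) (s2 a)) P n n η η'
        (fun _ _ _ _ _ => 1) := by
  have hl := Bd.l_pos
  have L : LnH (lX P) (lY P) := LnH_P hP.goodP hP.j1 hP.j2 fun r => by
    have h3 := hP.e2 r
    have h4 := hP.d0 r
    linarith
  have hg := GOk.gP hβ hβ' hex
  have hg0 := GOk.gP (β := 4 / 3) (by norm_num) le_rfl hex0
  have h := DZ_cls (c := c true) (c' := c false) (s := s1 true) (t := s1 false) hβ hβ' hx hx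
    (g := gP β ex) (g' := gP β ex) (g0 := gP (4 / 3) ex0) (g0' := gP (4 / 3) ex0)
    hg hg hg0 hg0 (hA true) (hA false) (hQ true) (hQ false) n (lX P) (lY P) L.hX L.hY
  rw [h]
  have hO := oneC_XX (P := P) (ep := ep) (β := β) (x0 := 3 / 5 * l) (q := 0) (E := E) (c := c)
    (s1 := s1) (s2 := s2) le_rfl (by linarith) hP hep0 hep hβ hβ' hx hex ex0 hc
    (fun a => (hQ a).m1) (fun a => (hQ a).m2) hAt hS hE
  have hD : DecZ (fun a => XX (c a) β x x (gP β ex) (gP (4 / 3) ex0) (s1 a) (s2 a)) P (3 / 5 * l)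
      (2 * β) ((0 : ℤ) : ℝ) := by
    rw [Int.cast_zero]
    exact decZ_XX hP hβ hβ' hx hg hg0 hQ
  exact PBC.FF_oneC (Z := fun a => XX (c a) β x x (gP β ex) (gP (4 / 3) ex0) (s1 a) (s2 a)) hO
    hP.goodQ hep0 hep (by linarith [hP.j2]) hP.rm (by positivity) hρ hD (by simp) hη

/-- the functional of the class functions does not depend on the curves -/
theorem FF_crvX {ep β : ℝ} (hP : ParC P) (hρ : ∀ r, ∃ ρ0, 0 < ρ0 ∧ ∀ t, ρ0 ≤ P.rad r t)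
    (hep0 : 0 < ep) (hep : ep ≤ 1 / 100) (hβ : 0 < β) (hβ' : β ≤ 4 / 3)
    {x : Fin m → ℂ} (hx : Rws x) {ex ex0 : List ℂ} (hex : ∀ w ∈ ex, |w.re| ≤ l / 2)
    (hex0 : ∀ w ∈ ex0, |w.re| ≤ l / 2) {c : Bool → ℂ} {c0 : ℝ} (hc : ∀ a, ‖c a‖ = c0)
    {s1 s2 : Bool → ℂ → ℂ} (hA : ∀ a, SpA (s1 a)) (hQ : ∀ a, SpecQ a 0 (s1 a) (s2 a))
    (hAt : ∀ a, SpecAt (3 / 5 * l) a ((0 : ℤ) : ℝ) (s1 a)) {E : Set ℝ} (hE : volume E = 0)
    (hS : ∀ a, SpecS P E (s1 a) (s2 a)) {n : ℕ} {η η' ζ ζ' : Crs}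
    (hη : ∀ r ≤ n + n, ∀ᵐ O ∂(Measure.pi fun _ : Fin r => nu), CurB ep (η r O) (η' r O))
    (hζ : ∀ r ≤ n + n, ∀ᵐ O ∂(Measure.pi fun _ : Fin r => nu), CurB ep (ζ r O) (ζ' r O)) :
    FF (fun a => XX (c a) β x x (gP β ex) (gP (4 / 3) ex0) (s1 a) (s2 a)) P n n η η'
        (fun _ _ _ _ _ => 1) =
      FF (fun a => XX (c a) β x x (gP β ex) (gP (4 / 3) ex0) (s1 a) (s2 a)) P n n ζ ζ'
        (fun _ _ _ _ _ => 1) := by
  rw [← DZ_FF hP hρ hep0 hep hβ hβ' hx hex hex0 hc hA hQ hAt hE hS hη,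
    ← DZ_FF hP hρ hep0 hep hβ hβ' hx hex hex0 hc hA hQ hAt hE hS hζ]

/-! ## the dislocated function -/

/-- class functions of the dislocated function: rows `x`, cutoff points `x`, `ex` (quanta) and `x`,
`ex0` (strings), legs at `z` -/
def ZL (β : ℝ) (x : Fin m → ℂ) (ex ex0 : List ℂ) (z : ℂ) : Bool → Option O3 → ℂ → ℂ := fun _ =>
  XX (Leg.cc m) β x x (gP β ex) (gP (4 / 3) ex0) (Lg z z) (fun w => Lg z z w * Lg z z (w - l))

/-- class functions without legs -/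
def Z0 (β : ℝ) (x : Fin m → ℂ) (ex ex0 : List ℂ) : Bool → Option O3 → ℂ → ℂ := fun _ =>
  XX (Leg.cc m) β x x (gP β ex) (gP (4 / 3) ex0) (fun _ => 1) (fun _ => 1)

/-- the legs as a multiplicative insertion -/
def lgF (z : ℂ) : Bool → Option O3 → ℂ → ℂ
  | _, none, u => Lg z z u
  | _, some .L, u => Lg z z u
  | _, some .S, u => Lg z z u * Lg z z (u - l)
  | _, some .T, u => Lg z z u * Lg z z (u - l)

/-- the legs are a multiplicative insertion -/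
theorem ZL_eq (β : ℝ) (x : Fin m → ℂ) (ex ex0 : List ℂ) (z : ℂ) :
    ZL β x ex ex0 z = Zm (Z0 β x ex ex0) (lgF z) := by
  funext a k u
  rcases k with _ | k
  · show RR _ _ _ _ * ph _ _ _ _ * _ = RR _ _ _ _ * ph _ _ _ _ * 1 * _
    rw [mul_one]
    rfl
  · rcases k with _ | _ | _
    · show RR _ _ _ _ * ph _ _ _ _ * _ = RR _ _ _ _ * ph _ _ _ _ * 1 * _
      rw [mul_one]
      rfl
    · show RR _ _ _ _ * RR _ _ _ _ * ph _ _ _ _ * _ = RR _ _ _ _ * RR _ _ _ _ * ph _ _ _ _ * 1 * _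
      rw [mul_one]
      rfl
    · show TT _ _ _ _ _ _ _ _ * _ = TT _ _ _ _ _ _ _ _ * 1 * _
      rw [mul_one]
      rfl

theorem measurable_ZL (β : ℝ) (x : Fin m → ℂ) (ex ex0 : List ℂ) (z : ℂ) (a : Bool)
    (k : Option O3) : Measurable (ZL β x ex ex0 z a k) :=
  measurable_XX (measurable_gP _ _) (measurable_gP _ _) (Lg_meas z z)
    ((Lg_meas z z).mul ((Lg_meas z z).comp (measurable_id.sub_const _))) k

theorem oneC_ZL {ep β x0 : ℝ} (hx0 : 3 / 5 * l ≤ x0) (hx0' : x0 ≤ 19 / 20 * l)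
    (hP : ParC P) (hep0 : 0 < ep) (hep : ep ≤ 1 / 100) (hβ : 0 < β) (hβ' : β ≤ 4 / 3)
    {x : Fin m → ℂ} (hx : Rws x) {ex : List ℂ} (hex : ∀ w ∈ ex, |w.re| ≤ l / 2) (ex0 : List ℂ)
    {z : ℂ} (h1 : -(9 / 10 * l) ≤ z.re) (h2 : z.re < 37 / 10 * l) :
    OneC (ZL β x ex ex0 z) (obX ‖Leg.cc m‖ β x ex ex0 fun _ u => thZ z u) P ep (2 * β) x0 0
      (Set.range fun i => (x i).im) :=
  oneC_Lg (c := fun _ => Leg.cc m) hx0 hx0' hP hep0 hep hβ hβ' hx hex ex0 (fun _ => rfl) h1 h2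

/-- the decay of the class functions of the dislocated function -/
theorem decZ_ZL {β : ℝ} (hP : ParC P) (hβ : 0 < β) (hβ' : β ≤ 4 / 3) {x : Fin m → ℂ} (hx : Rws x)
    {ex ex0 : List ℂ} (hex : ∀ w ∈ ex, |w.re| ≤ l / 2) (hex0 : ∀ w ∈ ex0, |w.re| ≤ l / 2) {z : ℂ}
    (h1 : -l < z.re) (h2 : z.re < 37 / 10 * l) :
    DecZ (ZL β x ex ex0 z) P (3 / 5 * l) (2 * β) 0 :=
  decZ_XX (c := fun _ => Leg.cc m) (s1 := fun _ => Lg z z)
    (s2 := fun _ w => Lg z z w * Lg z z (w - l)) hP hβ hβ' hx (GOk.gP hβ hβ' hex)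
    (GOk.gP (by norm_num) le_rfl hex0) fun a => Lg_SpecQ a h1 h2

/-- the state sum with `n` quanta of the dislocated function -/
theorem DZ_ZL {ep β : ℝ} (hP : ParC P) (hρ : ∀ r, ∃ ρ0, 0 < ρ0 ∧ ∀ t, ρ0 ≤ P.rad r t)
    (hep0 : 0 < ep) (hep : ep ≤ 1 / 100) (hβ : 0 < β) (hβ' : β ≤ 4 / 3)
    {x : Fin m → ℂ} (hx : Rws x) {ex ex0 : List ℂ} (hex : ∀ w ∈ ex, |w.re| ≤ l / 2)
    (hex0 : ∀ w ∈ ex0, |w.re| ≤ l / 2) {z : ℂ} (h1 : -(9 / 10 * l) ≤ z.re)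
    (h2 : z.re < 37 / 10 * l) {n : ℕ} {η η' : Crs}
    (hη : ∀ r ≤ n + n, ∀ᵐ O ∂(Measure.pi fun _ : Fin r => nu), CurB ep (η r O) (η' r O)) :
    DZ (Leg.cc m) (Leg.cc m) (Lg z z) (Lg z z) x x n =
      FF (ZL β x ex ex0 z) P n n η η' (fun _ _ _ _ _ => 1) := by
  have hl := Bd.l_pos
  exact DZ_FF (c := fun _ => Leg.cc m) (c0 := ‖Leg.cc m‖) (s1 := fun _ => Lg z z)
    (s2 := fun _ w => Lg z z w * Lg z z (w - l)) (E := ∅) hP hρ hep0 hep hβ hβ' hx hex hex0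
    (fun _ => rfl) (fun _ => Lg_SpA (by linarith) (by linarith))
    (fun a => Lg_SpecQ a (by linarith) h2) (fun a => Lg_SpecAt le_rfl a h1 h2) (by simp)
    (fun _ => Lg_SpecS z) hη

/-- **the function at all rows is the functional**, `-9/10 l ≤ Re z < 37/10 l` -/
theorem nz_FF {ep β : ℝ} (hP : ParC P) (hρ : ∀ r, ∃ ρ0, 0 < ρ0 ∧ ∀ t, ρ0 ≤ P.rad r t)
    (hep0 : 0 < ep) (hep : ep ≤ 1 / 100) (hβ : 0 < β) (hβ' : β ≤ 4 / 3)
    {x : Fin m → ℂ} (hx : Rws x) {ex ex0 : List ℂ} (hex : ∀ w ∈ ex, |w.re| ≤ l / 2)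
    (hex0 : ∀ w ∈ ex0, |w.re| ≤ l / 2) {z : ℂ} (h1 : -(9 / 10 * l) ≤ z.re)
    (h2 : z.re < 37 / 10 * l) {η η' : ℕ → Crs}
    (hη : ∀ n ∈ range (2 * m + 1), ∀ r ≤ n + n, ∀ᵐ O ∂(Measure.pi fun _ : Fin r => nu),
      CurB ep (η n r O) (η' n r O)) :
    nz z x x = Pf z x x * ∑ n ∈ range (2 * m + 1),
      FF (ZL β x ex ex0 z) P n n (η n) (η' n) (fun _ _ _ _ _ => 1) := by
  unfold Pool.Agent.PB.nz
  congr 1
  refine Finset.sum_congr rfl fun n hn => ?_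
  rw [← DZ_ZL hP hρ hep0 hep hβ hβ' hx hex hex0 h1 h2 (hη n hn)]
  rfl

/-- **the literal function is the functional** -/
theorem fN_FF {ep β : ℝ} (hP : ParC P) (hρ : ∀ r, ∃ ρ0, 0 < ρ0 ∧ ∀ t, ρ0 ≤ P.rad r t)
    (hep0 : 0 < ep) (hep : ep ≤ 1 / 100) (hβ : 0 < β) (hβ' : β ≤ 4 / 3)
    {x : Fin m → ℂ} (hx : Rws x) {ex ex0 : List ℂ} (hex : ∀ w ∈ ex, |w.re| ≤ l / 2)
    (hex0 : ∀ w ∈ ex0, |w.re| ≤ l / 2) {z : ℂ} (h1 : -(9 / 10 * l) ≤ z.re)
    (h2 : z.re < 37 / 10 * l) {η η' : ℕ → Crs}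
    (hη : ∀ n ∈ range (2 * m + 1), ∀ r ≤ n + n, ∀ᵐ O ∂(Measure.pi fun _ : Fin r => nu),
      CurB ep (η n r O) (η' n r O)) :
    fN x z = Pf z x x * ∑ n ∈ range (2 * m + 1),
      FF (ZL β x ex ex0 z) P n n (η n) (η' n) (fun _ _ _ _ _ => 1) := by
  have hl := Bd.l_pos
  rw [Pool.Agent.PB.fN_right hx ⟨by linarith, by linarith⟩]
  exact nz_FF hP hρ hep0 hep hβ hβ' hx hex hex0 h1 h2 hη

/-- **the bound by the functional with moduli** -/
theorem fN_le {ep β : ℝ} (hP : ParC P) (hρ : ∀ r, ∃ ρ0, 0 < ρ0 ∧ ∀ t, ρ0 ≤ P.rad r t)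
    (hep0 : 0 < ep) (hep : ep ≤ 1 / 100) (hβ : 0 < β) (hβ' : β ≤ 4 / 3)
    {x : Fin m → ℂ} (hx : Rws x) {ex ex0 : List ℂ} (hex : ∀ w ∈ ex, |w.re| ≤ l / 2)
    (hex0 : ∀ w ∈ ex0, |w.re| ≤ l / 2) {z : ℂ} (h1 : -(9 / 10 * l) ≤ z.re)
    (h2 : z.re < 37 / 10 * l) {η η' : ℕ → Crs}
    (hη : ∀ n ∈ range (2 * m + 1), ∀ r ≤ n + n, ∀ᵐ O ∂(Measure.pi fun _ : Fin r => nu),
      CurB ep (η n r O) (η' n r O)) :
    ‖fN x z‖ₑ ≤ ‖Pf z x x‖ₑ * ∑ n ∈ range (2 * m + 1),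
      FA (ZL β x ex ex0 z) P n n (η n) (η' n) (fun _ _ _ _ _ => 1) := by
  rw [fN_FF hP hρ hep0 hep hβ hβ' hx hex hex0 h1 h2 hη, enorm_mul]
  refine mul_le_mul_right ((enorm_sum_le _ _).trans (Finset.sum_le_sum fun n _ => ?_)) _
  exact FF_le _

/-! ## the parameters of a sea -/

theorem ParC_par0 [NUSea.Sea] (k : ℕ) : ParC (NUSea.O.par0 k) where
  j1 := by rw [NUSea.O.par0_jL]
  j2 := by rw [NUSea.O.par0_jL]; norm_num
  e1 := by rw [NUSea.O.par0_e]; norm_num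
  d0 := fun r => by rw [NUSea.O.par0_d]; exact d0_pos r
  e2 := fun r => by
    have := d0_le r
    rw [NUSea.O.par0_e, NUSea.O.par0_d]
    norm_num at this ⊢
    linarith
  rm := NUSea.O.rad0_meas _
  r0 := fun r t => NUSea.O.rad0_pos _ r t
  r1 := fun r t => by
    refine (NUSea.O.rad0_le _ r t).trans ?_
    have h3 := d0_pos r
    have h4 := l_pos0
    show NUP1.l * d0 r / (64 * (r + 1)) ≤ NUP1.l * d0 r / (8 * (r + 1))
    gcongr
    norm_num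

/-- the radii of the circles are bounded below -/
theorem rad_low [X : NUSea.Sea] (k r : ℕ) :
    ∃ ρ0, 0 < ρ0 ∧ ∀ t, ρ0 ≤ (NUSea.O.par0 k).rad r t := by
  obtain ⟨C, hC, hb⟩ := X.bd 0 0 le_rfl (by have := NUMF.l_pos; linarith)
  have hPle : ∀ t : ℝ, NUSea.P t ≤ C := by
    intro t
    have h := hb (t : ℂ) (by simp)
    rw [iteratedDeriv_zero, X.real t, Complex.norm_real, Real.norm_eq_abs] at h
    have h1 : Real.exp (-(8 / 3) * |((t : ℂ)).re|) ≤ 1 := by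
      rw [Real.exp_le_one_iff]
      have := abs_nonneg ((t : ℂ)).re
      linarith
    calc NUSea.P t ≤ |X.dens t| := le_abs_self _
      _ ≤ C * Real.exp (-(8 / 3) * |((t : ℂ)).re|) := h
      _ ≤ C := mul_le_of_le_one_right hC h1
  set D : ℝ := K1c * ((r : ℝ) + 1) ^ 5 * (1 + Real.log k) * (1 + k * C) with hD
  have hk0 : (0 : ℝ) ≤ K1c := K1c_nonneg
  have hlog : 0 ≤ Real.log k := by
    rcases Nat.eq_zero_or_pos k with h | h
    · rw [h]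
      simp
    · exact Real.log_nonneg (by exact_mod_cast h)
  have hD0 : 0 ≤ D := by
    rw [hD]
    positivity
  refine ⟨1 / (D + 1), by positivity, fun t => ?_⟩
  have h1 := NUSea.O.rad0_inv k r t
  have h2 := NUSea.O.rad0_pos k r t
  have h3 : K1c * ((r : ℝ) + 1) ^ 5 * (1 + Real.log k) * (1 + k * NUSea.P t) ≤ D := by
    rw [hD]
    have := hPle t
    gcongr
  rw [NUSea.O.par0_rad]
  have h4 : 1 / NUSea.O.rad0 k r t ≤ D + 1 := by linarith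
  rw [div_le_iff₀ (by positivity)]
  rw [div_le_iff₀ h2] at h4
  linarith

end PBX

end
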