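import Pool.Agent.PB.HolU
import Pool.Agent.PB.PinW
import Pool.Agent.PB.EAbs
import Pool.Agent.NUGC.CurEx
import Pool.Agent.NUSea.Par0
import Pool.Agent.PB.DomL
import Pool.Agent.PB.FNeq

/-!
# Plan B: the upper bounds U1, U3, U4 as propositions, and their easy consequences

* `hq`, `nu1`: complex height of a quantum, linear statistic of one species on the curve;
* `nuE`: `1 + |ν_X(g)| + |ν_Y(g')|`;
* `BC y₁ y₂ M g`: analytic test functions bounded by `M` on the strip (`PBE.TC` is a special case);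
* `Fam ι`: a family of functionals (class functions, normaliser, admissible indices, bound);
* `FS`: the functional with moduli, summed over the number `n` of quanta;
* **`UB F ep e1 J p K ε`**: the master bound, constants before `m` and the index: weights of the
  objects up to `B K ^ r ∏ exp (gT)`, products of at most `p` statistics;
* **`UX F`**: what the provider proves: `UB` for every `p`, `K`, `ε` and all small parameters;
* `UX.pick`, `UX.pick2`: one choice of the parameters;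
* `UB.mass`, `UB.weight` (U1), `UB.stat`, `UB.pow` (U3), `UB.pin` (U4), `OW.pinSh`;
* `famL`: the family of the dislocated function;
* `FL`, `norm_FL_le`: the complex functional.
-/

set_option autoImplicit false
set_option linter.unusedSectionVars false

noncomputable section

open Complex MeasureTheory Finset
open scoped ENNReal

namespace PBU

open NUO NUP1 NUP1S NUP1S.Ab NUP1S.AbC NUGC PBF PBP

/-! ### statistics -/

/-- complex height of a quantum on the curve -/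
def hq (η : ℝ → ℝ) (t : ℝ) : ℂ := t + dA η t

theorem pA_hq (η : ℝ → ℝ) (t : ℝ) : NUO.pA η t = NUP1.l + I * hq η t := by
  unfold NUO.pA vl hq dA
  push_cast
  linear_combination (-(η t : ℂ)) * I_sq

theorem hq_pA (η : ℝ → ℝ) (t : ℝ) : hq η t = (NUO.pA η t - NUP1.l) / I := by
  rw [pA_hq]
  field_simp
  ring

/-- linear statistic of the species `s`: density `ρ`, test function `g` of the complex height -/
def nu1 (ρ : ℝ → ℂ) (η : ℝ → ℝ) (s : Bool) (g : ℂ → ℂ) {a b : ℕ}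
    (x : (Fin a → ℝ) × (Fin b → ℝ)) : ℂ :=
  (if s then ∑ i, g (hq η (x.1 i)) else ∑ i, g (hq η (x.2 i))) - ∫ t : ℝ, ρ t * g t

theorem nu1_smul (ρ : ℝ → ℂ) (η : ℝ → ℝ) (s : Bool) (g : ℂ → ℂ) (c : ℂ) {a b : ℕ}
    (x : (Fin a → ℝ) × (Fin b → ℝ)) :
    nu1 ρ η s (fun z => c * g z) x = c * nu1 ρ η s g x := by
  unfold nu1
  have e : (fun t : ℝ => ρ t * (c * g t)) = fun t : ℝ => c * (ρ t * g t) := by
    funext t
    ring
  rw [e, integral_const_mul]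
  split_ifs
  · rw [← Finset.mul_sum]
    ring
  · rw [← Finset.mul_sum]
    ring

theorem nu1_add {ρ : ℝ → ℂ} (η : ℝ → ℝ) (s : Bool) {g g' : ℂ → ℂ}
    (h : Integrable fun t : ℝ => ρ t * g t) (h' : Integrable fun t : ℝ => ρ t * g' t) {a b : ℕ}
    (x : (Fin a → ℝ) × (Fin b → ℝ)) :
    nu1 ρ η s (fun z => g z + g' z) x = nu1 ρ η s g x + nu1 ρ η s g' x := by
  unfold nu1
  have e : (fun t : ℝ => ρ t * (g t + g' t)) = fun t : ℝ => ρ t * g t + ρ t * g' t := by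
    funext t
    ring
  rw [e, integral_add h h']
  split_ifs
  · rw [Finset.sum_add_distrib]
    ring
  · rw [Finset.sum_add_distrib]
    ring

/-- change of the density -/
theorem nu1_dens {ρ ρ' : ℝ → ℂ} (η : ℝ → ℝ) (s : Bool) {g : ℂ → ℂ}
    (h : Integrable fun t : ℝ => ρ t * g t) (h' : Integrable fun t : ℝ => ρ' t * g t) {a b : ℕ}
    (x : (Fin a → ℝ) × (Fin b → ℝ)) :
    nu1 ρ η s g x = nu1 ρ' η s g x + ∫ t : ℝ, (ρ' t - ρ t) * g t := by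
  unfold nu1
  have e : (fun t : ℝ => (ρ' t - ρ t) * g t) = fun t : ℝ => ρ' t * g t - ρ t * g t := by
    funext t
    ring
  rw [e, integral_sub h' h]
  ring

/-- bounded analytic test functions -/
structure BC (y₁ y₂ M : ℝ) (g : ℂ → ℂ) : Prop where
  an : DifferentiableOn ℂ g (PBE.Sp y₁ y₂)
  bd : ∀ z ∈ PBE.Sp y₁ y₂, ‖g z‖ ≤ M

theorem BC.mono {y₁ y₂ M M' : ℝ} {g : ℂ → ℂ} (h : BC y₁ y₂ M g) (hM : M ≤ M') :
    BC y₁ y₂ M' g := ⟨h.an, fun z hz => (h.bd z hz).trans hM⟩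

theorem BC.of_TC {y₁ y₂ α M : ℝ} {g : ℂ → ℂ} (h : PBE.TC y₁ y₂ α M g) (hα : 0 ≤ α)
    (hM : 0 ≤ M) : BC y₁ y₂ M g where
  an := h.an
  bd z hz := by
    refine (h.bd z hz).trans ?_
    have h1 : Real.exp (-(α * |z.re|)) ≤ 1 := by
      rw [Real.exp_le_one_iff, neg_nonpos]
      exact mul_nonneg hα (abs_nonneg _)
    calc M * Real.exp (-(α * |z.re|)) ≤ M * 1 := mul_le_mul_of_nonneg_left h1 hM
      _ = M := mul_one M

theorem BC.const (y₁ y₂ : ℝ) (c : ℂ) : BC y₁ y₂ ‖c‖ fun _ => c :=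
  ⟨differentiableOn_const c, fun _ _ => le_rfl⟩

theorem BC.smul {y₁ y₂ M : ℝ} {g : ℂ → ℂ} (h : BC y₁ y₂ M g) (c : ℂ) :
    BC y₁ y₂ (‖c‖ * M) fun z => c * g z where
  an := h.an.const_mul c
  bd z hz := by
    rw [norm_mul]
    exact mul_le_mul_of_nonneg_left (h.bd z hz) (norm_nonneg _)

/-- the test function divided by its size -/
theorem BC.normed {y₁ y₂ M : ℝ} {g : ℂ → ℂ} (h : BC y₁ y₂ M g) (hM : 0 < M) :
    BC y₁ y₂ 1 fun z => ((M : ℂ)⁻¹) * g z := by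
  refine (h.smul _).mono (le_of_eq ?_)
  rw [norm_inv, norm_real, Real.norm_of_nonneg hM.le]
  field_simp

/-! ### families of functionals -/

/-- **a family of functionals**: class functions (`ep`, number of rows, index), normaliser, largest
number of quanta, admissible indices, bound -/
structure Fam (ι : Type) where
  /-- one body functions: `ep`, `m`, index -/
  Z : ℝ → ℕ → ι → Bool → Option O3 → ℂ → ℂ
  /-- normaliser -/
  Pf : ℕ → ι → ℂ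
  /-- the sum over the number of quanta runs over `n ≤ top m` -/
  top : ℕ → ℕ
  /-- admissible indices -/
  ok : ℕ → ι → Prop
  /-- the bound of the index -/
  bd : ℕ → ι → ℝ

variable [NUSea.Sea] {ι : Type}

/-- the fixed curve -/
def cr (e1 J : ℝ) (m : ℕ) : Crs := fun _ _ => etaC e1 J m m

/-- its derivative -/
def cr' (e1 J : ℝ) (m : ℕ) : Crs := fun _ _ => etaC' e1 J m m

/-- **the functional with moduli**, summed over the number of quanta with weights `c n` -/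
def FS (F : Fam ι) (ep e1 J : ℝ) (m : ℕ) (i : ι) (c : ℕ → ℝ≥0∞) (φ : InsE) : ℝ≥0∞ :=
  ∑ n ∈ range (F.top m + 1), c n * (‖F.Pf m i‖ₑ *
    FE (F.Z ep m i) (NUSea.O.par0 m) n n (cr e1 J m) (cr' e1 J m) φ)

/-- **the complex functional** -/
def FL (F : Fam ι) (ep e1 J : ℝ) (m : ℕ) (i : ι) (Ψ : Ins) : ℂ :=
  ∑ n ∈ range (F.top m + 1), F.Pf m i *
    FF (F.Z ep m i) (NUSea.O.par0 m) n n (cr e1 J m) (cr' e1 J m) Ψ

variable {F : Fam ι} {ep e1 J : ℝ} {m : ℕ} {i : ι}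

theorem FS_mono {c c' : ℕ → ℝ≥0∞} (hc : ∀ n, c n ≤ c' n) {φ ψ : InsE}
    (h : ∀ r O a b x, φ r O a b x ≤ ψ r O a b x) :
    FS F ep e1 J m i c φ ≤ FS F ep e1 J m i c' ψ :=
  Finset.sum_le_sum fun n _ => mul_le_mul' (hc n) (mul_le_mul' le_rfl (FE_mono h))

theorem norm_FL_le (Ψ : Ins) :
    ‖FL F ep e1 J m i Ψ‖ₑ ≤ FS F ep e1 J m i (fun _ => 1) fun r O a b x => ‖Ψ r O a b x‖ₑ := by
  unfold FL FS
  refine (enorm_sum_le _ _).trans (Finset.sum_le_sum fun n _ => ?_)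
  rw [enorm_mul, one_mul, ← FA_eq_FE]
  exact mul_le_mul' le_rfl (FF_le Ψ)

theorem FE_const_mul {Z : Bool → Option O3 → ℂ → ℂ} {P : NUO.Par} {n n' : ℕ} {η η' : Crs}
    {c : ℝ≥0∞} (hc : c ≠ ∞) (φ : InsE) :
    FE Z P n n' η η' (fun r O a b x => c * φ r O a b x) = c * FE Z P n n' η η' φ := by
  unfold FE
  rw [Finset.mul_sum]
  refine Finset.sum_congr rfl fun r _ => ?_
  have e : ∀ O : Fin r → Xo, trE Z P n n' η η' (fun r O a b x => c * φ r O a b x) r O =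
      c * trE Z P n n' η η' φ r O := by
    intro O
    unfold trE
    split_ifs
    · have e1 : ∀ x, ‖gK (gF Z P O) (η r O) (η' r O) (n - chgO O true) (n' - chgO O false) x‖ₑ *
          (c * φ r O (n - chgO O true) (n' - chgO O false) x) =
          c * (‖gK (gF Z P O) (η r O) (η' r O) (n - chgO O true) (n' - chgO O false) x‖ₑ *
            φ r O (n - chgO O true) (n' - chgO O false) x) := fun x => by ring
      simp only [e1]
      rw [lintegral_const_mul' _ _ hc]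
      ring
    · rw [mul_zero]
  simp only [e]
  rw [lintegral_const_mul' _ _ hc]
  ring

theorem FS_const_mul {cn : ℕ → ℝ≥0∞} {c : ℝ≥0∞} (hc : c ≠ ∞) (φ : InsE) :
    FS F ep e1 J m i cn (fun r O a b x => c * φ r O a b x) = c * FS F ep e1 J m i cn φ := by
  unfold FS
  rw [Finset.mul_sum]
  refine Finset.sum_congr rfl fun n _ => ?_
  rw [FE_const_mul hc]
  ring

/-! ### the bounds -/

/-- one factor of a statistic -/
def nuE (ρ : ℝ → ℂ) (η : ℝ → ℝ) (g g' : ℂ → ℂ) {a b : ℕ} (x : (Fin a → ℝ) × (Fin b → ℝ)) : ℝ≥0∞ :=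
  1 + ‖nu1 ρ η true g x‖ₑ + ‖nu1 ρ η false g' x‖ₑ

variable (F ep e1 J)

/-- admissible weights of the objects -/
def OW (K B : ℝ) (m : ℕ) (w : (r : ℕ) → (Fin r → Xo) → ℝ) : Prop :=
  ∀ r O, w r O ≤ B * K ^ r * ∏ j, Real.exp (gT e1 (Real.log m) (ht (O j)))

/-- admissible densities -/
def DN (C0 : ℝ) (m : ℕ) (ρ : ℝ → ℂ) : Prop :=
  Integrable ρ ∧ (∫ t : ℝ, ‖ρ t - (m : ℝ) * NUSea.P t‖) ≤ C0

/-- **the master bound**: at most `p` statistics, constant `K` per object, exponent `ε`. -/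
def UB (p : ℕ) (K ε : ℝ) : Prop :=
  ∀ C0 y₁ y₂ : ℝ, y₁ < 0 → 0 < y₂ → ∃ m0 : ℕ, ∀ m ≥ m0, ∀ i : ι, F.ok m i →
    ∀ ρ : ℝ → ℂ, DN C0 m ρ →
    ∀ B : ℝ, 0 ≤ B → ∀ w : (r : ℕ) → (Fin r → Xo) → ℝ, OW e1 K B m w →
    ∀ g g' : (r : ℕ) → (Fin r → Xo) → Fin p → ℂ → ℂ,
      (∀ r O j, BC y₁ y₂ 1 (g r O j) ∧ BC y₁ y₂ 1 (g' r O j)) →
      FS F ep e1 J m i (fun _ => 1) (fun r O _ _ x => ENNReal.ofReal (w r O) *
          ∏ j, nuE ρ (etaC e1 J m m) (g r O j) (g' r O j) x) ≤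
      ENNReal.ofReal (B * (m : ℝ) ^ ε * F.bd m i)

variable {ep e1 J}

/-- **what the provider proves** -/
def UX : Prop := ∀ (p : ℕ) (K ε : ℝ), 0 < ε → ∃ a0 : ℝ, 0 < a0 ∧ ∀ ep e1 J : ℝ, 0 < ep → 0 < e1 →
  0 ≤ J → Real.exp (-(2 * Real.pi * J)) + 3 * e1 + 3 * ep ≤ a0 → UB F ep e1 J p K ε

variable {F}

theorem OW.mono {K K' B B' : ℝ} {w : (r : ℕ) → (Fin r → Xo) → ℝ} (h : OW e1 K B m w)
    (hK : 0 ≤ K) (hKK : K ≤ K') (hB : 0 ≤ B) (hBB : B ≤ B') : OW e1 K' B' m w := fun r O => by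
  refine (h r O).trans ?_
  have h0 := zero_le_one.trans (one_le_gPi e1 (Real.log m) (fun j => ht (O j)))
  refine mul_le_mul_of_nonneg_right ?_ h0
  exact mul_le_mul hBB (pow_le_pow_left₀ hK hKK r) (pow_nonneg hK r) (hB.trans hBB)

theorem OW.one {K : ℝ} (hK : 1 ≤ K) (m : ℕ) : OW e1 K 1 m fun _ _ => 1 := fun r O => by
  rw [one_mul]
  exact one_le_mul_of_one_le_of_one_le (one_le_pow₀ hK)
    (one_le_gPi e1 (Real.log m) (fun j => ht (O j)))

/-- a power of the number of objects -/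
theorem OW.pow (a : ℕ) (m : ℕ) : OW e1 3 (3 * a.factorial) m fun r _ => ((r : ℝ) + 1) ^ a :=
  fun r O => by
    have h1 := pow_le_fact a r
    have h2 := one_le_gPi e1 (Real.log m) (fun j => ht (O j))
    calc ((r : ℝ) + 1) ^ a ≤ 3 * a.factorial * 3 ^ r := h1
      _ ≤ _ := le_mul_of_one_le_right (by positivity) h2

/-- **a pinned object** -/
theorem OW.pin {q : ℝ} (hq0 : 0 ≤ q) (hq : q ≤ 8 / 3) (a m : ℕ) :
    OW e1 6 (3 * a.factorial * pinB q e1 (Real.log m)) m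
      fun r O => ((r : ℝ) + 1) ^ a * ∑ j, Real.exp (-(q * |ht (O j)|)) :=
  fun r O => pin_sum_pow hq0 hq a e1 (Real.log m) (fun j => ht (O j))

/-- a pinned object, shifted centre -/
theorem OW.pinSh {q : ℝ} (hq0 : 0 ≤ q) (hq : q ≤ 8 / 3) (a m : ℕ) (s : ℝ) :
    OW e1 6 (3 * a.factorial * (Real.exp (q * |s|) * pinB q e1 (Real.log m))) m
      fun r O => ((r : ℝ) + 1) ^ a * ∑ j, Real.exp (-(q * |ht (O j) - s|)) := fun r O => by
  have h1 := pin_sum_pow hq0 hq a e1 (Real.log m) (fun j => ht (O j))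
  have h2 : ∑ j, Real.exp (-(q * |ht (O j) - s|)) ≤
      Real.exp (q * |s|) * ∑ j, Real.exp (-(q * |ht (O j)|)) := by
    rw [Finset.mul_sum]
    refine Finset.sum_le_sum fun j _ => ?_
    rw [← Real.exp_add, Real.exp_le_exp]
    have h3 : |ht (O j)| ≤ |ht (O j) - s| + |s| := by
      calc |ht (O j)| = |(ht (O j) - s) + s| := by ring_nf
        _ ≤ _ := abs_add_le _ _
    have := mul_le_mul_of_nonneg_left h3 hq0
    linarith
  calc ((r : ℝ) + 1) ^ a * ∑ j, Real.exp (-(q * |ht (O j) - s|))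
      ≤ ((r : ℝ) + 1) ^ a * (Real.exp (q * |s|) * ∑ j, Real.exp (-(q * |ht (O j)|))) :=
        mul_le_mul_of_nonneg_left h2 (by positivity)
    _ = Real.exp (q * |s|) * (((r : ℝ) + 1) ^ a * ∑ j, Real.exp (-(q * |ht (O j)|))) := by ring
    _ ≤ Real.exp (q * |s|) * (3 * a.factorial * pinB q e1 (Real.log m) * 6 ^ r *
          ∏ j, Real.exp (gT e1 (Real.log m) (ht (O j)))) :=
        mul_le_mul_of_nonneg_left h1 (Real.exp_pos _).le
    _ = _ := by ring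

theorem OW.smul {K B c : ℝ} (hc : 0 ≤ c) {w : (r : ℕ) → (Fin r → Xo) → ℝ} (h : OW e1 K B m w) :
    OW e1 K (c * B) m fun r O => c * w r O := fun r O => by
  refine (mul_le_mul_of_nonneg_left (h r O) hc).trans (le_of_eq ?_)
  ring

/-- small parameters -/
theorem exists_small {a : ℝ} (ha : 0 < a) : ∃ e J : ℝ, 0 < e ∧ e ≤ a ∧ 0 ≤ J ∧
    Real.exp (-(2 * Real.pi * J)) + 3 * e + 3 * e ≤ a := by
  have hpi := Real.pi_pos
  obtain ⟨n, hn⟩ := exists_nat_gt (Real.log (2 / a) / (2 * Real.pi))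
  refine ⟨a / 12, n, by positivity, by linarith, Nat.cast_nonneg n, ?_⟩
  have h1 : Real.exp (-(2 * Real.pi * n)) ≤ a / 2 := by
    rw [← Real.exp_log (show (0 : ℝ) < a / 2 by positivity), Real.exp_le_exp]
    rw [div_lt_iff₀ (by positivity)] at hn
    have h2 : Real.log (2 / a) = -Real.log (a / 2) := by
      rw [← Real.log_inv, inv_div]
    rw [h2] at hn
    nlinarith
  linarith

/-- **one choice of the parameters** -/
theorem UX.pick (h : UX F) (p : ℕ) (K : ℝ) {ε a : ℝ} (hε : 0 < ε) (ha : 0 < a) :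
    ∃ ep e1 J : ℝ, 0 < ep ∧ ep ≤ a ∧ 0 < e1 ∧ e1 ≤ a ∧ 0 ≤ J ∧ UB F ep e1 J p K ε := by
  obtain ⟨a0, ha0, h0⟩ := h p K ε hε
  obtain ⟨e, J, he, he', hJ, h1⟩ := exists_small (lt_min ha ha0)
  exact ⟨e, e, J, he, he'.trans (min_le_left _ _), he, he'.trans (min_le_left _ _), hJ,
    h0 e e J he he hJ (h1.trans (min_le_right _ _))⟩

/-- the same for two families -/
theorem UX.pick2 {ι' : Type} {F' : Fam ι'} (h : UX F) (h' : UX F') (p : ℕ) (K : ℝ) {ε a : ℝ}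
    (hε : 0 < ε) (ha : 0 < a) :
    ∃ ep e1 J : ℝ, 0 < ep ∧ ep ≤ a ∧ 0 < e1 ∧ e1 ≤ a ∧ 0 ≤ J ∧ UB F ep e1 J p K ε ∧
      UB F' ep e1 J p K ε := by
  obtain ⟨a0, ha0, h0⟩ := h p K ε hε
  obtain ⟨a1, ha1, h1⟩ := h' p K ε hε
  obtain ⟨e, J, he, he', hJ, h2⟩ := exists_small (lt_min ha (lt_min ha0 ha1))
  have l1 := min_le_left a (min a0 a1)
  have l2 := (min_le_right a (min a0 a1)).trans (min_le_left a0 a1)
  have l3 := (min_le_right a (min a0 a1)).trans (min_le_right a0 a1)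
  exact ⟨e, e, J, he, he'.trans l1, he, he'.trans l1, hJ, h0 e e J he he hJ (h2.trans l2),
    h1 e e J he he hJ (h2.trans l3)⟩

/-! ### consequences -/

variable {p : ℕ} {K ε : ℝ}

theorem one_le_nuE (ρ : ℝ → ℂ) (η : ℝ → ℝ) (g g' : ℂ → ℂ) {a b : ℕ}
    (x : (Fin a → ℝ) × (Fin b → ℝ)) : 1 ≤ nuE ρ η g g' x := by
  unfold nuE
  rw [add_assoc]
  exact le_self_add

/-- the standard density -/
theorem DN.std (m : ℕ) : DN 0 m fun t => (((m : ℝ) * NUSea.P t : ℝ) : ℂ) := by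
  refine ⟨(NUSea.P_int.const_mul _).ofReal, le_of_eq ?_⟩
  have e : ∀ t : ℝ, ‖(((m : ℝ) * NUSea.P t : ℝ) : ℂ) - (m : ℝ) * NUSea.P t‖ = 0 := by
    intro t
    rw [norm_eq_zero]
    push_cast
    ring
  simp only [e, integral_zero]

/-- **products of statistics of given sizes**, `|ν_X(g_j)| + |ν_Y(g'_j)|` for `j ∈ S` -/
theorem UB.stat (h : UB F ep e1 J p K ε) (C0 y₁ y₂ : ℝ) (h1 : y₁ < 0) (h2 : 0 < y₂) :
    ∃ m0 : ℕ, ∀ m ≥ m0, ∀ i : ι, F.ok m i → ∀ ρ : ℝ → ℂ, DN C0 m ρ →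
    ∀ B : ℝ, 0 ≤ B → ∀ w : (r : ℕ) → (Fin r → Xo) → ℝ, OW e1 K B m w →
    ∀ M : Fin p → ℝ, (∀ j, 0 < M j) → ∀ g g' : (r : ℕ) → (Fin r → Xo) → Fin p → ℂ → ℂ,
      (∀ r O j, BC y₁ y₂ (M j) (g r O j) ∧ BC y₁ y₂ (M j) (g' r O j)) →
    ∀ S : Finset (Fin p),
      FS F ep e1 J m i (fun _ => 1) (fun r O _ _ x => ENNReal.ofReal (w r O) *
          ∏ j ∈ S, (‖nu1 ρ (etaC e1 J m m) true (g r O j) x‖ₑ +
            ‖nu1 ρ (etaC e1 J m m) false (g' r O j) x‖ₑ)) ≤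
      ENNReal.ofReal (B * (∏ j ∈ S, M j) * (m : ℝ) ^ ε * F.bd m i) := by
  obtain ⟨m0, h0⟩ := h C0 y₁ y₂ h1 h2
  refine ⟨m0, fun m hm i hi ρ hρ B hB w hw M hM g g' hg S => ?_⟩
  have h3 := h0 m hm i hi ρ hρ B hB w hw (fun r O j z => ((M j : ℂ)⁻¹) * g r O j z)
    (fun r O j z => ((M j : ℂ)⁻¹) * g' r O j z)
    (fun r O j => ⟨(hg r O j).1.normed (hM j), (hg r O j).2.normed (hM j)⟩)
  have hP : 0 ≤ ∏ j ∈ S, M j := Finset.prod_nonneg fun j _ => (hM j).le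
  have e0 : ∀ (j : Fin p) (s : Bool) (f : ℂ → ℂ) {a b : ℕ} (x : (Fin a → ℝ) × (Fin b → ℝ)),
      ‖nu1 ρ (etaC e1 J m m) s f x‖ₑ = ENNReal.ofReal (M j) *
        ‖nu1 ρ (etaC e1 J m m) s (fun z => ((M j : ℂ)⁻¹) * f z) x‖ₑ := by
    intro j s f a b x
    rw [nu1_smul, enorm_mul, ← mul_assoc, ← ofReal_norm (((M j : ℝ) : ℂ)⁻¹), norm_inv, norm_real,
      Real.norm_of_nonneg (hM j).le, ← ENNReal.ofReal_mul (hM j).le,
      mul_inv_cancel₀ (hM j).ne', ENNReal.ofReal_one, one_mul]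
  have key : ∀ (r : ℕ) (O : Fin r → Xo) (a b : ℕ) (x : (Fin a → ℝ) × (Fin b → ℝ)),
      ENNReal.ofReal (w r O) * ∏ j ∈ S, (‖nu1 ρ (etaC e1 J m m) true (g r O j) x‖ₑ +
        ‖nu1 ρ (etaC e1 J m m) false (g' r O j) x‖ₑ) ≤
      ENNReal.ofReal (∏ j ∈ S, M j) * (ENNReal.ofReal (w r O) *
        ∏ j, nuE ρ (etaC e1 J m m) (fun z => ((M j : ℂ)⁻¹) * g r O j z)
          (fun z => ((M j : ℂ)⁻¹) * g' r O j z) x) := by
    intro r O a b x
    have e2 : ∏ j ∈ S, (‖nu1 ρ (etaC e1 J m m) true (g r O j) x‖ₑ +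
        ‖nu1 ρ (etaC e1 J m m) false (g' r O j) x‖ₑ) ≤ ENNReal.ofReal (∏ j ∈ S, M j) *
        ∏ j ∈ S, nuE ρ (etaC e1 J m m) (fun z => ((M j : ℂ)⁻¹) * g r O j z)
          (fun z => ((M j : ℂ)⁻¹) * g' r O j z) x := by
      rw [ENNReal.ofReal_prod_of_nonneg fun j _ => (hM j).le, ← Finset.prod_mul_distrib]
      refine Finset.prod_le_prod' fun j _ => ?_
      rw [e0 j true (g r O j) x, e0 j false (g' r O j) x, ← mul_add]
      refine mul_le_mul' le_rfl ?_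
      unfold nuE
      rw [add_assoc]
      exact le_add_self
    have e3 : ∏ j ∈ S, nuE ρ (etaC e1 J m m) (fun z => ((M j : ℂ)⁻¹) * g r O j z)
          (fun z => ((M j : ℂ)⁻¹) * g' r O j z) x ≤
        ∏ j, nuE ρ (etaC e1 J m m) (fun z => ((M j : ℂ)⁻¹) * g r O j z)
          (fun z => ((M j : ℂ)⁻¹) * g' r O j z) x :=
      Finset.prod_le_prod_of_subset_of_one_le' (Finset.subset_univ S)
        fun j _ _ => one_le_nuE _ _ _ _ _
    calc _ ≤ ENNReal.ofReal (w r O) * (ENNReal.ofReal (∏ j ∈ S, M j) * _) :=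
          mul_le_mul' le_rfl (e2.trans (mul_le_mul' le_rfl e3))
      _ = _ := by ring
  refine (FS_mono (fun _ => le_rfl) key).trans ?_
  rw [FS_const_mul ENNReal.ofReal_ne_top]
  refine (mul_le_mul' le_rfl h3).trans (le_of_eq ?_)
  rw [← ENNReal.ofReal_mul hP]
  congr 1
  ring

/-- **U1**, with a weight of the objects -/
theorem UB.weight (h : UB F ep e1 J p K ε) :
    ∃ m0 : ℕ, ∀ m ≥ m0, ∀ i : ι, F.ok m i →
      ∀ B : ℝ, 0 ≤ B → ∀ w : (r : ℕ) → (Fin r → Xo) → ℝ, OW e1 K B m w →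
      FS F ep e1 J m i (fun _ => 1) (fun r O _ _ _ => ENNReal.ofReal (w r O)) ≤
      ENNReal.ofReal (B * (m : ℝ) ^ ε * F.bd m i) := by
  obtain ⟨m0, h0⟩ := h.stat 0 (-1) 1 (by norm_num) one_pos
  refine ⟨m0, fun m hm i hi B hB w hw => ?_⟩
  have h3 := h0 m hm i hi _ (DN.std m) B hB w hw (fun _ => 1) (fun _ => one_pos)
    (fun _ _ _ _ => 0) (fun _ _ _ _ => 0)
    (fun _ _ _ => ⟨⟨differentiableOn_const 0, fun _ _ => by simp⟩,
      ⟨differentiableOn_const 0, fun _ _ => by simp⟩⟩) ∅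
  simpa using h3

/-- **U1** -/
theorem UB.mass (h : UB F ep e1 J p K ε) (hK : 1 ≤ K) : ∃ m0 : ℕ, ∀ m ≥ m0, ∀ i : ι, F.ok m i →
    FS F ep e1 J m i (fun _ => 1) (fun _ _ _ _ _ => 1) ≤
      ENNReal.ofReal ((m : ℝ) ^ ε * F.bd m i) := by
  obtain ⟨m0, h0⟩ := h.weight
  refine ⟨m0, fun m hm i hi => ?_⟩
  simpa using h0 m hm i hi 1 zero_le_one (fun _ _ => 1) (OW.one hK m)

theorem FS_eq (φ : InsE) : FS F ep e1 J m i (fun _ => 1) φ = ‖F.Pf m i‖ₑ *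
    ∑ n ∈ range (F.top m + 1),
      FE (F.Z ep m i) (NUSea.O.par0 m) n n (cr e1 J m) (cr' e1 J m) φ := by
  unfold FS
  rw [Finset.mul_sum]
  exact Finset.sum_congr rfl fun n _ => by rw [one_mul]

/-- **U4**: pinned objects, powers of the number of objects, products of statistics -/
theorem UB.pin (h : UB F ep e1 J p K ε) (hK : 6 ≤ K) {q : ℝ} (hq0 : 0 ≤ q) (hq : q ≤ 8 / 3) (a : ℕ)
    (C0 y₁ y₂ : ℝ) (h1 : y₁ < 0) (h2 : 0 < y₂) :
    ∃ m0 : ℕ, ∀ m ≥ m0, ∀ i : ι, F.ok m i → ∀ ρ : ℝ → ℂ, DN C0 m ρ →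
    ∀ M : Fin p → ℝ, (∀ j, 0 < M j) → ∀ g g' : (r : ℕ) → (Fin r → Xo) → Fin p → ℂ → ℂ,
      (∀ r O j, BC y₁ y₂ (M j) (g r O j) ∧ BC y₁ y₂ (M j) (g' r O j)) →
    ∀ S : Finset (Fin p),
      FS F ep e1 J m i (fun _ => 1) (fun r O _ _ x =>
          ENNReal.ofReal (((r : ℝ) + 1) ^ a * ∑ j, Real.exp (-(q * |ht (O j)|))) *
          ∏ j ∈ S, (‖nu1 ρ (etaC e1 J m m) true (g r O j) x‖ₑ +
            ‖nu1 ρ (etaC e1 J m m) false (g' r O j) x‖ₑ)) ≤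
      ENNReal.ofReal (3 * a.factorial * (m : ℝ) ^ (-(3 / 8 * q * (1 - 4 * e1))) *
        (∏ j ∈ S, M j) * (m : ℝ) ^ ε * F.bd m i) := by
  obtain ⟨m0, h0⟩ := h.stat C0 y₁ y₂ h1 h2
  refine ⟨max m0 1, fun m hm i hi ρ hρ M hM g g' hg S => ?_⟩
  have hm0 : m0 ≤ m := (le_max_left _ _).trans hm
  have hm1 : (0 : ℝ) < m := by exact_mod_cast (le_max_right m0 1).trans hm
  have hp := pinB_pos q e1 (Real.log m)
  have h3 := h0 m hm0 i hi ρ hρ _ (by positivity) _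
    ((OW.pin (e1 := e1) hq0 hq a m).mono (K' := K) (by norm_num) hK (by positivity) le_rfl)
    M hM g g' hg S
  rw [pinB_rpow q e1 hm1] at h3
  exact h3

/-- powers of the number of objects, products of statistics (**U3**) -/
theorem UB.pow (h : UB F ep e1 J p K ε) (hK : 3 ≤ K) (a : ℕ)
    (C0 y₁ y₂ : ℝ) (h1 : y₁ < 0) (h2 : 0 < y₂) :
    ∃ m0 : ℕ, ∀ m ≥ m0, ∀ i : ι, F.ok m i → ∀ ρ : ℝ → ℂ, DN C0 m ρ →
    ∀ M : Fin p → ℝ, (∀ j, 0 < M j) → ∀ g g' : (r : ℕ) → (Fin r → Xo) → Fin p → ℂ → ℂ,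
      (∀ r O j, BC y₁ y₂ (M j) (g r O j) ∧ BC y₁ y₂ (M j) (g' r O j)) →
    ∀ S : Finset (Fin p),
      FS F ep e1 J m i (fun _ => 1) (fun r O _ _ x => ENNReal.ofReal (((r : ℝ) + 1) ^ a) *
          ∏ j ∈ S, (‖nu1 ρ (etaC e1 J m m) true (g r O j) x‖ₑ +
            ‖nu1 ρ (etaC e1 J m m) false (g' r O j) x‖ₑ)) ≤
      ENNReal.ofReal (3 * a.factorial * (∏ j ∈ S, M j) * (m : ℝ) ^ ε * F.bd m i) := by
  obtain ⟨m0, h0⟩ := h.stat C0 y₁ y₂ h1 h2
  refine ⟨m0, fun m hm i hi ρ hρ M hM g g' hg S => ?_⟩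
  exact h0 m hm i hi ρ hρ _ (by positivity) _
    ((OW.pow (e1 := e1) a m).mono (K' := K) (by norm_num) hK (by positivity) le_rfl)
    M hM g g' hg S

/-! ### the family of the dislocated function -/

/-- **the family of the dislocated function**: index `(x, z)`, one row at `x`, `m - 1` rows at `0`,
legs at `z`; cutoff of the quanta over the rows and `± i`, cutoff of the strings over the rows -/
def famL : Fam (ℂ × ℂ) where
  Z ep m i := PBX.ZL (4 / 3 * (1 - ep)) (PBL.mu1 (m - 1) i.1) [I, -I] [] i.2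
  Pf m i := Pool.Agent.PB.Pf i.2 (PBL.mu1 (m - 1) i.1) (PBL.mu1 (m - 1) i.1)
  top m := 2 * m
  ok m i := |i.1.re| ≤ NUP1.l / 10 ∧ |i.1.im| ≤ 2 ∧ -(9 / 10 * NUP1.l) ≤ i.2.re ∧
    i.2.re < 37 / 10 * NUP1.l ∧ |i.2.im| ≤ 3 / 20 * Real.log m + 2
  bd _ i := Real.exp (2 * |i.2.im|)

end PBU

end
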