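import Pool.Agent.PotH.S4M
import Pool.Agent.PotH.PerH
import Pool.Agent.PB.UProps

/-!
# Plan B: the bounds `UX` of a family from the bound of its gas (helper79)

* `StatU`: products of linear statistics are admissible (`PotH.StatM`), price `m ^ ε`;
* `TopF F B lin`: the functional of the family is bounded by its gas (67's `topG`);
* `EnvF F B lin`: curve, cutoff, potential, one body data of the family are admissible for `PotH.S4M`;
* **`ux_of`**: `StatU`, `TopF`, `EnvF` give `UX F` (U1, U3, U4).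
-/

set_option autoImplicit false
set_option linter.unusedSectionVars false

noncomputable section

open Complex MeasureTheory Finset
open scoped ENNReal

namespace PBU

open NUO NUP1 NUP1S NUP1S.Ab NUP1S.AbC NUGC PBF PBP
open NUSea.H0 (Gd)
open NUStabP (enC)
open NUDispW (win)
open PotH (EnvH RgH lhsH prefH enH linH confEH oneEH crH T1H StatM S4M s4M)

variable [NUSea.Sea] {ι : Type}

/-! ### no groups -/

/-- no groups -/
def g0 : Fin 0 → Gd := fun i => i.elim0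

theorem prefH_g0 (m : ℕ) (Cst : ℝ) : prefH m g0 0 0 Cst = Cst * Real.exp (NUSea.MF (m : ℝ)) := by
  unfold prefH
  simp

theorem enH_g0 (m : ℕ) {r : ℕ} (O : Fin r → Xo) (T1 : ℝ) (p q : ℕ) : enH m g0 O T1 p q = 0 := by
  unfold enH NUSea.H0.cstF
  have : IsEmpty (NUSea.H0.IG fun i => (g0 i).pin T1) := ⟨fun x => x.1.elim0⟩
  simp

theorem linH_g0 (η η1 : ℝ → ℝ) (m : ℕ) (T1 : ℝ) (H : Bool → ℝ → ℝ) : linH η η1 m g0 T1 H =
    NUCR.bil (NUSea.hd m η η1) (NUSea.hd m η η1) - 24 * NUMF.l * crH η m 0 +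
      ∑ a, ∫ t, (m : ℝ) * NUSea.P t * H a t := by
  unfold linH
  simp

theorem rgH_g0 {ep e1 : ℝ} {m n r : ℕ} (O : Fin r → Xo) (hn : n ≤ 3 * m) (hr : r ≤ 2 * n)
    (h1 : chgO O true ≤ n) (h2 : chgO O false ≤ n) : RgH ep e1 m g0 0 0 (m : ℝ) n O 0 0 where
  n2 := by norm_num
  sp i := i.elim0
  ax := by norm_num
  ay := by norm_num
  q := by simp
  nu := by simp
  hN := hn
  hr := by simpa using hr
  hc1 := by simpa using h1
  hc2 := by simpa using h2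
  E0 := le_rfl
  hE i := i.elim0
  x0 := le_rfl
  hx i := i.elim0

/-! ### the three inputs -/

/-- **products of linear statistics are admissible** -/
def StatU : Prop :=
  ∀ e1 : ℝ, 0 < e1 → e1 ≤ 1 / 100 → ∀ J : ℝ, 0 ≤ J → ∀ C0 y₁ y₂ : ℝ, y₁ < 0 → 0 < y₂ →
    ∀ (k : ℕ) (Cg ε : ℝ), 1 ≤ Cg → 0 < ε → ∃ m0 : ℕ, ∀ m ≥ m0, ∀ a b : ℕ, a ≤ 8 * m → b ≤ 8 * m →
    ∀ ρ : ℝ → ℂ, DN C0 m ρ → ∀ g g' : Fin k → ℂ → ℂ,
      (∀ j, BC y₁ y₂ 1 (g j) ∧ BC y₁ y₂ 1 (g' j)) →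
      StatM Cg m a b ((m : ℝ) ^ (k + 1)) ((m : ℝ) ^ ε)
        (fun x => ∏ j, nuE ρ (etaC e1 J m m) (g j) (g' j) x)

/-- **the family from the bound of its gas** -/
def TopF (F : Fam ι) (B : ℝ → ℕ → ι → OB) (lin : ℝ → ℝ → ℕ → ι → ℝ) : Prop :=
  ∀ K K2 : ℝ, ∃ c1 : ℝ, 0 < c1 ∧ ∀ c' : ℝ, 0 ≤ c' →
    ∀ δ : ℝ, 0 < δ → ∃ a0 : ℝ, 0 < a0 ∧ ∀ ep : ℝ, 0 < ep → ep ≤ 1 / 100 → ∀ e1 : ℝ, 0 < e1 →
    e1 ≤ 1 / 100 → ∀ J : ℝ, 0 ≤ J → Real.exp (-(2 * Real.pi * J)) + 3 * e1 + 3 * ep ≤ a0 →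
    ∃ C : ℝ, 0 ≤ C ∧ ∃ m0 : ℕ, ∀ m : ℕ, m0 ≤ m → ∀ i : ι, F.ok m i →
      ∀ (φ : ℕ → InsE) (w : ℕ → (r : ℕ) → (Fin r → Xo) → ℝ) (Q Bw d : ℝ), 0 ≤ Q → 0 ≤ Bw →
      0 < d →
      (∀ n ≤ F.top m, ∀ r ≤ 2 * n, ∀ O : Fin r → Xo, 0 ≤ w n r O ∧
        w n r O ≤ (if (r : ℝ) ≤ Real.log m then Bw else
          Bw * Real.exp (c' * Real.log m)) * Real.exp (K2 * r) *
            Real.exp (∑ i, gT e1 (Real.log m) (ht (O i)))) →
      (∀ b' : ℝ, |b'| = d → ∀ n ≤ F.top m, ∀ r ≤ 2 * n, ∀ O : Fin r → Xo,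
        chgO O true ≤ n → chgO O false ≤ n →
        ENNReal.ofReal (Real.exp (b' * ((m : ℝ) - n))) *
          PotH.gasI (B ep m i) (NUSea.O.par0 m) (etaC e1 J m m)
            (etaC' e1 J m m) O (n - chgO O true) (n - chgO O false)
            (φ n r O (n - chgO O true) (n - chgO O false)) ≤
        ENNReal.ofReal (w n r O * (Q * Real.exp (lin e1 J m i +
          (∑ j, oneEH m (etaC e1 J m m) (TW ep e1 m) O j + K * r +
            enC O + c1 * win univ fun j => ht (O j)))))) →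
      ENNReal.ofReal ‖F.Pf m i‖ *
        ∑ n ∈ range (F.top m + 1), FE (F.Z ep m i) (NUSea.O.par0 m) n n (cr e1 J m) (cr' e1 J m)
          (φ n) ≤
        ENNReal.ofReal (C * Bw * Q * (m : ℝ) ^ (-(3 / 8 : ℝ) + δ) * F.bd m i *
          (2 / (1 - Real.exp (-d))))

/-- **curve, cutoff, potential and one body data of the family** -/
def EnvF (F : Fam ι) (B : ℝ → ℕ → ι → OB) (lin : ℝ → ℝ → ℕ → ι → ℝ) : Prop :=
  ∃ B0 N0 : ℝ, 0 ≤ B0 ∧ 0 ≤ N0 ∧ ∀ ep : ℝ, 0 < ep → ep ≤ 1 / 100 → ∀ e1 : ℝ, 0 < e1 →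
    e1 ≤ 1 / 100 → ∀ J : ℝ, 0 ≤ J → ∃ Cc C0 : ℝ, 1 ≤ Cc ∧ 1 ≤ C0 ∧ ∃ m0 : ℕ, ∀ m : ℕ, m0 ≤ m →
    ∀ i : ι, F.ok m i → ∃ (cf Bc Bc' : ℝ → ℝ) (H H' : Bool → ℝ → ℝ),
      (∀ th : ℝ, 0 ≤ th → EnvH ep e1 Cc C0 B0 N0 th m (etaC e1 J m m) (etaC' e1 J m m) cf Bc Bc'
        H H' (B ep m i) g0) ∧
      NUSea.MF (m : ℝ) + (NUCR.bil (NUSea.hd m (etaC e1 J m m) (etaC' e1 J m m))
        (NUSea.hd m (etaC e1 J m m) (etaC' e1 J m m)) - 24 * NUMF.l * crH (etaC e1 J m m) m 0 +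
        ∑ a, ∫ t, (m : ℝ) * NUSea.P t * H a t) ≤ lin e1 J m i

/-- powers of `m` absorb constants -/
lemma const_le_pow {C ε : ℝ} (hε : 0 < ε) : ∃ m0 : ℕ, ∀ m : ℕ, m0 ≤ m → C ≤ (m : ℝ) ^ ε := by
  have h1 : Filter.Tendsto (fun m : ℕ => (m : ℝ) ^ ε) Filter.atTop Filter.atTop :=
    (tendsto_rpow_atTop hε).comp tendsto_natCast_atTop_atTop
  exact Filter.eventually_atTop.1 (h1.eventually_ge_atTop C)

/-- **U1, U3, U4 of a family from the bound of its gas** -/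
theorem ux_of {F : Fam ι} {B : ℝ → ℕ → ι → OB} {lin : ℝ → ℝ → ℕ → ι → ℝ}
    (htop : ∀ m, F.top m ≤ 3 * m) (hbd : ∀ m i, 0 ≤ F.bd m i)
    (hS : StatU) (hT : TopF F B lin) (hE : EnvF F B lin) : UX F := by
  intro p K ε hε
  obtain ⟨B0, N0, hB0, hN0, hE⟩ := hE
  obtain ⟨KS, Ca, hKS, hCa, hM⟩ := s4M B0 N0 hB0 hN0
  have hM := hM ((p : ℝ) + 1) (by positivity)
  obtain ⟨K', hK'⟩ : ∃ K', K' = max |K| 1 := ⟨_, rfl⟩
  have hK1 : 1 ≤ K' := by rw [hK']; exact le_max_right _ _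
  obtain ⟨c1, hc1, hT⟩ := hT (KS + ((p : ℝ) + 1)) (Real.log K')
  obtain ⟨a0, ha0, hT⟩ := hT 0 le_rfl (ε / 8) (by positivity)
  refine ⟨min a0 (min (3 / 100) (3 * (ε / 8) / (2 * (Ca + 1)))),
    lt_min ha0 (lt_min (by norm_num) (by positivity)), ?_⟩
  intro ep e1 J hep he1 hJ hsm
  have hexpJ := Real.exp_pos (-(2 * Real.pi * J))
  have hs1 : Real.exp (-(2 * Real.pi * J)) + 3 * e1 + 3 * ep ≤ a0 := hsm.trans (min_le_left _ _)
  have hs2 : Real.exp (-(2 * Real.pi * J)) + 3 * e1 + 3 * ep ≤ 3 / 100 :=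
    hsm.trans ((min_le_right _ _).trans (min_le_left _ _))
  have hs3 : Real.exp (-(2 * Real.pi * J)) + 3 * e1 + 3 * ep ≤ 3 * (ε / 8) / (2 * (Ca + 1)) :=
    hsm.trans ((min_le_right _ _).trans (min_le_right _ _))
  have hepl : ep ≤ 1 / 100 := by linarith
  have he1l : e1 ≤ 1 / 100 := by linarith
  have hCaε : Ca * (ep + e1) ≤ ε / 8 := by
    have h1 : 3 * (ep + e1) ≤ 3 * (ε / 8) / (2 * (Ca + 1)) := by linarith
    rw [le_div_iff₀ (by positivity)] at h1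
    have h2 : 0 ≤ (ep + e1) := by linarith
    nlinarith
  obtain ⟨Cc, C0, hCc, hC0, me, hE⟩ := hE ep hep hepl e1 he1 he1l J hJ
  obtain ⟨d, Cst, Cg, hd, hCst, hCg, ms, hM⟩ := hM c1 hc1 ep hep hepl e1 he1 he1l Cc C0 hCc hC0
    (ε / 8) (by positivity)
  obtain ⟨C, hC, mt, hT⟩ := hT ep hep hepl e1 he1 he1l J hJ hs1
  intro D0 y₁ y₂ hy1 hy2
  obtain ⟨mu, hU⟩ := hS e1 he1 he1l J hJ D0 y₁ y₂ hy1 hy2 p Cg (ε / 8) hCg (by positivity)
  have hexpd : Real.exp (-d) < 1 := by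
    rw [← Real.exp_zero]
    exact Real.exp_lt_exp.2 (by linarith)
  have hde : 0 ≤ 2 / (1 - Real.exp (-d)) := div_nonneg (by norm_num) (by linarith)
  obtain ⟨mc, hmc⟩ := const_le_pow (C := C * Cst * (2 / (1 - Real.exp (-d))))
    (show 0 < ε / 8 by positivity)
  refine ⟨max (max me ms) (max (max mt mu) (max mc 3)), fun m hm i hi ρ hρ Bw hBw w hw g g' hg => ?_⟩
  have m1 : me ≤ m := ((le_max_left _ _).trans (le_max_left _ _)).trans hm
  have m2 : ms ≤ m := ((le_max_right _ _).trans (le_max_left _ _)).trans hm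
  have m3 : mt ≤ m := (((le_max_left _ _).trans (le_max_left _ _)).trans (le_max_right _ _)).trans hm
  have m4 : mu ≤ m := (((le_max_right _ _).trans (le_max_left _ _)).trans (le_max_right _ _)).trans hm
  have m5 : mc ≤ m := (((le_max_left _ _).trans (le_max_right _ _)).trans (le_max_right _ _)).trans hm
  have m6 : 3 ≤ m := (((le_max_right _ _).trans (le_max_right _ _)).trans (le_max_right _ _)).trans hm
  have hmp : (0 : ℝ) < m := by exact_mod_cast (by omega : 0 < m)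
  have hm1 : (1 : ℝ) ≤ m := by exact_mod_cast (by omega : 1 ≤ m)
  have hL : 0 ≤ Real.log m := Real.log_nonneg hm1
  obtain ⟨cf, Bc, Bc', H, H', hEnv, hlin⟩ := hE m m1 i hi
  -- the weight of the objects
  obtain ⟨w', hw'⟩ : ∃ w' : (r : ℕ) → (Fin r → Xo) → ℝ, w' = fun r O => max (w r O) 0 := ⟨_, rfl⟩
  have hw0 : ∀ r O, 0 ≤ w' r O := fun r O => by rw [hw']; exact le_max_right _ _
  have hw1 : ∀ r O, w' r O ≤ Bw * Real.exp (Real.log K' * r) *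
      Real.exp (∑ i, gT e1 (Real.log m) (ht (O i))) := by
    intro r O
    have e : w' r O = max (w r O) 0 := by rw [hw']
    rw [e]
    have hk : Real.exp (Real.log K' * r) = K' ^ r := by
      rw [Real.exp_mul, Real.exp_log (by linarith), Real.rpow_natCast]
    rw [hk]
    refine max_le ((hw r O).trans ?_) (by positivity)
    rw [Real.exp_sum]
    refine mul_le_mul_of_nonneg_right (mul_le_mul_of_nonneg_left ?_ hBw)
      (Finset.prod_nonneg fun i _ => (Real.exp_pos _).le)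
    have h1 : K ^ r ≤ |K| ^ r := by
      rw [← abs_pow]
      exact le_abs_self _
    refine h1.trans (pow_le_pow_left₀ (abs_nonneg _) ?_ r)
    rw [hK']
    exact le_max_left _ _
  have hww : ∀ r O, ENNReal.ofReal (w r O) = ENNReal.ofReal (w' r O) := by
    intro r O
    have e : w' r O = max (w r O) 0 := by rw [hw']
    rw [e]
    rcases le_total (w r O) 0 with h | h
    · rw [max_eq_right h, ENNReal.ofReal_of_nonpos h, ENNReal.ofReal_zero]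
    · rw [max_eq_left h]
  -- the price
  have hD1 : 1 ≤ (m : ℝ) ^ (ε / 8) := Real.one_le_rpow hm1 (by positivity)
  have hA : ((m : ℝ) ^ (p + 1)) = Real.exp (((p : ℝ) + 1) * Real.log m) := by
    rw [mul_comm, Real.exp_mul, Real.exp_log hmp, ← Real.rpow_natCast]
    push_cast
    rfl
  obtain ⟨Q, hQ⟩ : ∃ Q, Q = (m : ℝ) ^ (ε / 8) * (Cst * (m : ℝ) ^ (3 / 8 + Ca * (ep + e1) + ε / 8)) :=
    ⟨_, rfl⟩
  have hQ0 : 0 ≤ Q := by rw [hQ]; positivity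
  have key := hT m m3 i hi (fun _ r O _ _ x => ENNReal.ofReal (w r O) *
      ∏ j, nuE ρ (etaC e1 J m m) (g r O j) (g' r O j) x) (fun _ => w') Q Bw d hQ0 hBw hd ?_ ?_
  · rw [FS_eq]
    rw [← ofReal_norm]
    refine key.trans (ENNReal.ofReal_le_ofReal ?_)
    have hb := hbd m i
    have h1 := hmc m m5
    have hmε : ∀ x : ℝ, 0 ≤ (m : ℝ) ^ x := fun x => Real.rpow_nonneg hmp.le x
    have h2 : (m : ℝ) ^ (ε / 8) * (m : ℝ) ^ (3 / 8 + Ca * (ep + e1) + ε / 8) *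
        (m : ℝ) ^ (-(3 / 8 : ℝ) + ε / 8) * (m : ℝ) ^ (ε / 8) ≤ (m : ℝ) ^ ε := by
      rw [← Real.rpow_add hmp, ← Real.rpow_add hmp, ← Real.rpow_add hmp]
      exact Real.rpow_le_rpow_of_exponent_le hm1 (by linarith)
    calc C * Bw * Q * (m : ℝ) ^ (-(3 / 8 : ℝ) + ε / 8) * F.bd m i * (2 / (1 - Real.exp (-d)))
        = Bw * F.bd m i * ((m : ℝ) ^ (ε / 8) * (m : ℝ) ^ (3 / 8 + Ca * (ep + e1) + ε / 8) *
          (m : ℝ) ^ (-(3 / 8 : ℝ) + ε / 8)) * (C * Cst * (2 / (1 - Real.exp (-d)))) := by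
          rw [hQ]
          ring
      _ ≤ Bw * F.bd m i * ((m : ℝ) ^ (ε / 8) * (m : ℝ) ^ (3 / 8 + Ca * (ep + e1) + ε / 8) *
          (m : ℝ) ^ (-(3 / 8 : ℝ) + ε / 8)) * (m : ℝ) ^ (ε / 8) :=
          mul_le_mul_of_nonneg_left h1 (by positivity)
      _ = Bw * F.bd m i * ((m : ℝ) ^ (ε / 8) * (m : ℝ) ^ (3 / 8 + Ca * (ep + e1) + ε / 8) *
        (m : ℝ) ^ (-(3 / 8 : ℝ) + ε / 8) * (m : ℝ) ^ (ε / 8)) := by ring
      _ ≤ Bw * F.bd m i * (m : ℝ) ^ ε := mul_le_mul_of_nonneg_left h2 (by positivity)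
      _ = _ := by ring
  · intro n _ r _ O
    refine ⟨hw0 r O, (hw1 r O).trans (le_of_eq ?_)⟩
    rw [zero_mul, Real.exp_zero, mul_one, ite_self]
  · intro b' hb' n hn r hr O h1 h2
    have hn3 : n ≤ 3 * m := hn.trans (htop m)
    have hR := rgH_g0 (ep := ep) (e1 := e1) O hn3 hr h1 h2
    have hst := hU m m4 (n - chgO O true) (n - chgO O false) (by omega) (by omega) ρ hρ (g r O)
      (g' r O) (hg r O)
    have hst' := PBZ.StatOK.smul hst (hw0 r O)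
    have h3 := hM m m2 0 (etaC e1 J m m) (etaC' e1 J m m) cf Bc Bc' H H' (B ep m i) g0
      (hEnv d hd.le) 0 0 (m : ℝ) n b' r O 0 0 (le_of_eq hb') hR
      (fun x => ENNReal.ofReal (w r O) * ∏ j, nuE ρ (etaC e1 J m m) (g r O j) (g' r O j) x)
      (w' r O) ((m : ℝ) ^ (ε / 8)) (hw0 r O) hD1
      (fun y => by
        have := hst'.poly y
        rw [hA] at this
        rw [hww]
        exact this)
      (fun _ _ _ _ => ⟨_, by
        simp only [hww]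
        exact hst'⟩)
    rw [if_pos (fun i => i.elim0), mul_one] at h3
    refine le_trans (le_of_eq ?_) (h3.trans (ENNReal.ofReal_le_ofReal ?_))
    · rfl
    · rw [mul_assoc (w' r O)]
      refine mul_le_mul_of_nonneg_left ?_ (hw0 r O)
      rw [prefH_g0, enH_g0, linH_g0, add_zero, hQ]
      have hcf : confEH m (etaC e1 J m m) (TW ep e1 m) (KS + ((p : ℝ) + 1)) c1 O =
          ∑ j, oneEH m (etaC e1 J m m) (TW ep e1 m) O j + (KS + ((p : ℝ) + 1)) * r + enC O +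
            c1 * win univ fun j => ht (O j) := rfl
      rw [hcf]
      obtain ⟨S, hSd⟩ : ∃ S, S = ∑ j, oneEH m (etaC e1 J m m) (TW ep e1 m) O j +
        (KS + ((p : ℝ) + 1)) * r + enC O + c1 * win univ fun j => ht (O j) := ⟨_, rfl⟩
      rw [← hSd]
      have h4 := Real.exp_le_exp.2 (add_le_add_left hlin S)
      have h5 : (0 : ℝ) ≤ (m : ℝ) ^ (ε / 8) * (Cst * (m : ℝ) ^ (3 / 8 + Ca * (ep + e1) + ε / 8)) := by
        positivity
      refine le_trans (le_of_eq ?_) (mul_le_mul_of_nonneg_left h4 h5)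
      rw [show NUSea.MF (m : ℝ) + (NUCR.bil (NUSea.hd m (etaC e1 J m m) (etaC' e1 J m m))
        (NUSea.hd m (etaC e1 J m m) (etaC' e1 J m m)) - 24 * NUMF.l * crH (etaC e1 J m m) m 0 +
        ∑ a, ∫ t, (m : ℝ) * NUSea.P t * H a t) + S = NUSea.MF (m : ℝ) + (S +
        (NUCR.bil (NUSea.hd m (etaC e1 J m m) (etaC' e1 J m m))
        (NUSea.hd m (etaC e1 J m m) (etaC' e1 J m m)) - 24 * NUMF.l * crH (etaC e1 J m m) m 0 +
        ∑ a, ∫ t, (m : ℝ) * NUSea.P t * H a t)) by ring, Real.exp_add (NUSea.MF (m : ℝ))]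
      ring

end PBU

end
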