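import Pool.Agent.PB.TopR0
import Pool.Agent.PB.UXof

/-!
# Plan B: the bounds `UX` of the regular main class at fixed half quanta (right end of (TR))

* `famR nr`: index = heights of the two half quanta; class functions of the class `W W` at rows `0`,
  `k` effective rows, cutoffs `[I, -I]`, `[]`; normaliser `nr k * kR k y`; bound `exp (- mTR y)`;
* `statFam_U`: the statistics of `UB` are a family `StatFam (p + 1)`;
* **`ux_famR : StatU → UX (famR nr)`** for `‖nr k‖ exp (k² EMF0)` bounded; `ux_famR_nr`: `nr = nrR`.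
-/

set_option autoImplicit false
set_option linter.unusedSectionVars false

noncomputable section

open Complex MeasureTheory Finset
open scoped ENNReal

namespace PBI

open NUGC PBO PBF PotH PBR PBX PBU
open NUO NUP1 NUCR NUP1S NUP1S.Ab NUP1S.AbC NUP1S.AbG NURow NUP1.Leg NUStabP NUDispW
open PBP (gT)

/-- **the regular main class at fixed half quanta** -/
def famR (nr : ℕ → ℂ) : PBU.Fam (ℝ × ℝ) where
  Z ep m y := RZW (R0 (m - 1) (beC ep) [I, -I] []) (vl (5 / 4 * l) y.1) (vl (5 / 4 * l) y.2)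
  Pf m y := nr m * kR m y
  top m := 2 * m
  ok m y := |y.1| ≤ 3 / 8 * Real.log m ∧ |y.2| ≤ 3 / 8 * Real.log m
  bd _ y := Real.exp (-mTR y)

/-- the indices of the statistics -/
def StI (p : ℕ) : Type :=
  (ℝ → ℂ) × (((r : ℕ) → (Fin r → Xo) → Fin p → ℂ → ℂ) × ((r : ℕ) → (Fin r → Xo) → Fin p → ℂ → ℂ))

section anySea

variable [NUSea.Sea]

/-- the admissible statistics -/
def okU (C0 y₁ y₂ : ℝ) {p : ℕ} (m : ℕ) (i : StI p) : Prop :=
  DN C0 m i.1 ∧ ∀ r O j, BC y₁ y₂ 1 (i.2.1 r O j) ∧ BC y₁ y₂ 1 (i.2.2 r O j)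

/-- the statistics of `UB` -/
def phU (e1 J : ℝ) {p : ℕ} (i : StI p) (m _N : ℕ) : InsE := fun r O _ _ x =>
  ∏ j, nuE i.1 (etaC e1 J m m) (i.2.1 r O j) (i.2.2 r O j) x

theorem statFam_U (hS : StatU) {e1 : ℝ} (he1 : 0 < e1) (he11 : e1 ≤ 1 / 100) {J : ℝ} (hJ : 0 ≤ J)
    (C0 : ℝ) {y₁ y₂ : ℝ} (hy1 : y₁ < 0) (hy2 : 0 < y₂) (p : ℕ) :
    StatFam ((p : ℝ) + 1) (okU C0 y₁ y₂ (p := p)) (phU e1 J) where
  hA0 := by positivity
  poly := by
    obtain ⟨m0, h⟩ := hS e1 he1 he11 J hJ C0 y₁ y₂ hy1 hy2 p 1 1 le_rfl zero_lt_one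
    refine ⟨max m0 1, fun m hm i hi N hN r O a b y _ ha hb => ?_⟩
    have hm0 : m0 ≤ m := (le_max_left _ _).trans hm
    have hm1 : 1 ≤ m := (le_max_right _ _).trans hm
    have hmp : (0 : ℝ) < m := by exact_mod_cast hm1
    have key := (h m hm0 a b (by omega) (by omega) i.1 hi.1 (i.2.1 r O) (i.2.2 r O) (hi.2 r O)).poly y
    refine key.trans (ENNReal.ofReal_le_ofReal (le_of_eq ?_))
    rw [mul_comm, Real.exp_mul, Real.exp_log hmp, ← Real.rpow_natCast]
    push_cast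
    rfl
  sharp Cg hCg ε hε := by
    obtain ⟨m0, h⟩ := hS e1 he1 he11 J hJ C0 y₁ y₂ hy1 hy2 p Cg ε hCg hε
    refine ⟨max m0 1, fun m hm i hi N hN r O a b _ _ _ ha hb => ?_⟩
    have hm0 : m0 ≤ m := (le_max_left _ _).trans hm
    have hm1 : 1 ≤ m := (le_max_right _ _).trans hm
    exact ⟨_, h m hm0 a b (by omega) (by omega) i.1 hi.1 (i.2.1 r O) (i.2.2 r O) (hi.2 r O)⟩

end anySea

attribute [local instance] NUSea.seaP

/-- **U1, U3, U4 of the regular main class at fixed half quanta** -/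
theorem ux_famR (hS : StatU) {nr : ℕ → ℂ} {Cn : ℝ}
    (hn : ∀ k, 1 ≤ k → ‖nr k‖ * Real.exp ((k : ℝ) ^ 2 * PBVR.EMF0) ≤ Cn) : UX (famR nr) := by
  intro p K ε hε
  obtain ⟨K', hK'⟩ : ∃ K', K' = max |K| 1 := ⟨_, rfl⟩
  have hK1 : 1 ≤ K' := by rw [hK']; exact le_max_right _ _
  obtain ⟨κ0, hκ, hκ1, htop⟩ := topR0 ((p : ℝ) + 1) (Real.log K') hε
  refine ⟨κ0, hκ, fun ep e1 J hep he1 hJ hsm => ?_⟩
  have hexpJ := Real.exp_pos (-(2 * Real.pi * J))
  have a1 : ep ≤ κ0 := by linarith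
  have a2 : e1 ≤ κ0 := by linarith
  have a3 : Real.exp (-(2 * Real.pi * J)) ≤ κ0 := by linarith
  intro C0 y₁ y₂ hy1 hy2
  obtain ⟨k0, hk0, htop⟩ := htop (StI p) (okU C0 y₁ y₂) (phU e1 J)
    (statFam_U hS he1 (a2.trans hκ1) hJ C0 hy1 hy2 p) ep hep a1 e1 he1 a2 J hJ a3 nr Cn hn
  refine ⟨k0, fun m hm y hy ρ hρ Bw hBw w hw g g' hg => ?_⟩
  obtain ⟨-, htop⟩ := htop m hm
  have hm1 : 1 ≤ m := by omega
  have hmp : (0 : ℝ) < m := by exact_mod_cast hm1
  have hL : 0 ≤ Real.log m := Real.log_nonneg (by exact_mod_cast hm1)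
  have hTW : 3 / 8 * Real.log m ≤ TW ep e1 m := by
    have h : TW ep e1 m = (1 + 2 * e1 + 2 * ep) * (3 / 8 * Real.log m) := rfl
    rw [h]
    nlinarith [mul_nonneg he1.le hL, mul_nonneg hep.le hL]
  -- the weight of the objects
  obtain ⟨w', hw'⟩ : ∃ w' : (r : ℕ) → (Fin r → Xo) → ℝ, w' = fun r O => max (w r O) 0 := ⟨_, rfl⟩
  have hw0 : ∀ r O, 0 ≤ w' r O := fun r O => by rw [hw']; exact le_max_right _ _
  have hw1 : ∀ (r : ℕ) (O : Fin r → Xo), w' r O ≤ Bw * Real.exp (Real.log K' * r) *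
      Real.exp (∑ i, gT e1 (Real.log m) (ht (O i))) := by
    intro r O
    have e : w' r O = max (w r O) 0 := by rw [hw']
    rw [e]
    have hk : Real.exp (Real.log K' * r) = K' ^ r := by
      rw [Real.exp_mul, Real.exp_log (by linarith), Real.rpow_natCast]
    rw [hk]
    refine max_le ((hw r O).trans ?_) (by positivity)
    rw [Real.exp_sum]
    refine mul_le_mul_of_nonneg_right (mul_le_mul_of_nonneg_left ?_ hBw)
      (Finset.prod_nonneg fun i _ => (Real.exp_pos _).le)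
    have h1 : K ^ r ≤ |K| ^ r := by
      rw [← abs_pow]
      exact le_abs_self _
    refine h1.trans (pow_le_pow_left₀ (abs_nonneg _) ?_ r)
    rw [hK']
    exact le_max_left _ _
  have hww : ∀ r O, ENNReal.ofReal (w r O) = ENNReal.ofReal (w' r O) := by
    intro r O
    have e : w' r O = max (w r O) 0 := by rw [hw']
    rw [e]
    rcases le_total (w r O) 0 with h | h
    · rw [max_eq_right h, ENNReal.ofReal_of_nonpos h, ENNReal.ofReal_zero]
    · rw [max_eq_left h]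
  have key := htop y (hy.1.trans hTW) (hy.2.trans hTW) (ρ, g, g') ⟨hρ, hg⟩ w' Bw hBw hw0 hw1
  rw [FS_eq, ← ofReal_norm]
  simp only [hww]
  refine key.trans (le_of_eq ?_)
  rw [mul_assoc]
  rfl

/-- the same with the normaliser prefactor over bulk value -/
theorem ux_famR_nr (hS : StatU) : UX (famR nrR) := ux_famR hS fun _ hk => (norm_nrR hk).le

end PBI

end
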