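import Pool.Agent.PB.UXfin
import Pool.Agent.PB.UXR

/-!
# Plan B: U1, U3, U4 of the right end of (TR) without hypotheses (helper79)

`uxR : UX (famR nrR)` and `uxR_of` for every normaliser of the size of `nrR` (7's `ux_famR`, 93's
`statU`).
-/

set_option autoImplicit false

noncomputable section

open PBI PBU

namespace PBU

attribute [local instance] NUSea.seaP

/-- **U1, U3, U4 of the regular main class at fixed half quanta** -/
theorem uxR : UX (famR nrR) := ux_famR_nr statU_all

/-- the same for another normaliser -/
theorem uxR_of {nr : ℕ → ℂ} {Cn : ℝ}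
    (hn : ∀ k, 1 ≤ k → ‖nr k‖ * Real.exp ((k : ℝ) ^ 2 * PBVR.EMF0) ≤ Cn) : UX (famR nr) :=
  ux_famR statU_all hn

end PBU

end
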