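import Pool.Agent.PB.FunS

/-!
# Plan B: (E') in the normalisation of the gas side (helper12)

`N = j + 1` rows, one of them at `i s`: fields `r₊ = N e^{(8/3)s}/(j + e^{(8/3)s})`,
`r₋ = N e^{-(8/3)s}/(j + e^{-(8/3)s})`, `J = r₊ - r₋`.

* `FunH.bd`, `FunH.dbd`: `Psi` and two derivatives in the legs are `≤ j^ε` near `i[0,1]`;
* `tau1`, `tau2`: derivatives in the height `τ` of the legs, `z = i τ`;
* `E2 c Psi`: `|N f_η + (J/8) f_ττ + ((r₊ + r₋)/2) f_τ| ≤ C j^{-c}` with `f_τ = i g'`, `f_ττ = - g''`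
  (the output of `E_prime2`); **`EPr_of`**: `E2 c Psi → EPr c Psi`, `c < 1`.
-/

set_option autoImplicit false

noncomputable section

open Complex MeasureTheory Set Filter Topology
open Pool.Agent.PB.Rec (EL EL_coef EL_add EL_le ReR seg Bx Op)

namespace PBV

variable {C : ℝ} {f : ℕ → ℂ → ℂ} {Psi : ℕ → ℂ → ℂ → ℂ}

theorem pow_ev {ε : ℝ} (hε : 0 < ε) (M : ℝ) : ∀ᶠ j : ℕ in atTop, M ≤ (j : ℝ) ^ ε :=
  ((tendsto_rpow_atTop hε).comp tendsto_natCast_atTop_atTop).eventually_ge_atTop M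

/-- `Psi` in the box -/
theorem FunH.bd (h : FunH C f Psi) {ε : ℝ} (hε : 0 < ε) : ∀ᶠ j : ℕ in atTop, ∀ x ∈ seg 0,
    ∀ z : ℂ, |z.re| ≤ aL → |z.im| ≤ 2 → ‖Psi j z x‖ ≤ (j : ℝ) ^ ε := by
  obtain ⟨K1, hK1⟩ := h.kp 0 (ρ := 0) le_rfl σL_pos
  obtain ⟨K2, hK2⟩ := h.coef
  have h1 := hK1 (max K1 K2) (le_max_left _ _)
  have h2 := hK2 (max K1 K2) (le_max_right _ _) (ε / 2) (by positivity)
  set K := max K1 K2 with hK
  set M : ℝ := (2 * K + 1) * Real.exp (|(8 / 3 : ℝ)| * K * 2) + 1 with hM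
  filter_upwards [h1, h2, pow_ev (show 0 < ε / 2 by positivity) M, eventually_ge_atTop 1]
    with j h1 h2 h3 h4 x hx z hz hzi
  have hj1 : (1 : ℝ) ≤ j := by exact_mod_cast h4
  have hj0 : (0 : ℝ) < j := by linarith
  have e1 := h1 x hx z (by linarith) hzi
  rw [neg_zero, Real.rpow_zero] at e1
  have e2 := EL_le (w := 8 / 3) (h2.2 x hx) z
  have e3 : ‖EL (8 / 3) K (aK Psi j x) z‖ ≤
      (2 * K + 1) * Real.exp (|(8 / 3 : ℝ)| * K * 2) * (j : ℝ) ^ (ε / 2) := by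
    refine e2.trans ?_
    gcongr
  have e4 : 1 ≤ (j : ℝ) ^ (ε / 2) := Real.one_le_rpow hj1 (by positivity)
  have e5 : ‖Psi j z x‖ ≤ M * (j : ℝ) ^ (ε / 2) := by
    have : Psi j z x = (Psi j z x - EL (8 / 3) K (aK Psi j x) z) + EL (8 / 3) K (aK Psi j x) z := by ring
    rw [this]
    refine (norm_add_le _ _).trans ?_
    rw [hM]
    nlinarith
  calc ‖Psi j z x‖ ≤ M * (j : ℝ) ^ (ε / 2) := e5
    _ ≤ (j : ℝ) ^ (ε / 2) * (j : ℝ) ^ (ε / 2) := by gcongr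
    _ = (j : ℝ) ^ ε := by rw [← Real.rpow_add hj0, add_halves]

theorem one_le_aL : 1 ≤ aL := by
  unfold aL
  have := Real.pi_gt_three
  linarith

/-- the ball of the Cauchy estimates -/
theorem ball_box {t : ℝ} (ht : t ∈ Icc (0 : ℝ) 1) {z : ℂ} (hz : z ∈ Metric.ball (I * (t : ℂ)) (2 * (1 / 2))) :
    |z.re| ≤ aL ∧ |z.im| ≤ 2 := by
  rw [Metric.mem_ball, dist_eq_norm] at hz
  have h1 := (abs_re_le_norm (z - I * t)).trans hz.le
  have h2 := (abs_im_le_norm (z - I * t)).trans hz.le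
  have e1 : (z - I * t).re = z.re := by simp
  have e2 : (z - I * t).im = z.im - t := by simp
  rw [e1] at h1
  rw [e2] at h2
  have := one_le_aL
  constructor
  · linarith
  · rw [abs_le] at h2 ⊢
    constructor <;> linarith [ht.1, ht.2, h2.1, h2.2]

/-- the derivatives in the legs -/
theorem FunH.dbd (h : FunH C f Psi) {ε : ℝ} (hε : 0 < ε) : ∀ᶠ j : ℕ in atTop, ∀ x ∈ seg 0,
    ∀ t ∈ Icc (0 : ℝ) 1, ‖deriv (fun z => Psi j z x) (I * t)‖ ≤ (j : ℝ) ^ ε ∧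
      ‖deriv (deriv fun z => Psi j z x) (I * t)‖ ≤ (j : ℝ) ^ ε := by
  filter_upwards [h.bd (show 0 < ε / 2 by positivity), h.fp, log_ev (20 / 3),
    pow_ev (show 0 < ε / 2 by positivity) 16, eventually_ge_atTop 1] with j h1 h2 h3 h4 h5 x hx t ht
  have hj1 : (1 : ℝ) ≤ j := by exact_mod_cast h5
  have hj0 : (0 : ℝ) < j := by linarith
  have key := Pool.Agent.PB.Rec.cauchy2 (f := fun z => Psi j z x) (z := I * t) (r := 1 / 2)
    (ε := (j : ℝ) ^ (ε / 2)) (by norm_num)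
    (fun z hz => ((h2 x hx).df z (by
      have := ball_box ht hz
      have := σL_pos
      linarith) (by
      rw [two_σL]
      have := ball_box ht hz
      linarith)).differentiableWithinAt)
    (fun z hz => h1 x hx z (ball_box ht hz).1 (ball_box ht hz).2)
  have e0 : 0 < (j : ℝ) ^ (ε / 2) := by positivity
  have e1 : (j : ℝ) ^ ε = (j : ℝ) ^ (ε / 2) * (j : ℝ) ^ (ε / 2) := by
    rw [← Real.rpow_add hj0, add_halves]
  constructor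
  · refine key.1.trans ?_
    rw [e1, div_le_iff₀ (by norm_num)]
    nlinarith
  · refine key.2.trans ?_
    rw [e1, div_le_iff₀ (by norm_num)]
    nlinarith

/-! ### derivatives in the height of the legs -/

theorem tau1 {g : ℂ → ℂ} {t : ℝ} (hg : DifferentiableAt ℂ g (I * t)) :
    HasDerivAt (fun τ : ℝ => g (I * τ)) (I * deriv g (I * t)) t := by
  have h1 : HasDerivAt (fun τ : ℝ => I * (τ : ℂ)) I t := by
    simpa using (hasDerivAt_id t).ofReal_comp.const_mul I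
  have h2 := hg.hasDerivAt.comp t h1
  rw [mul_comm] at h2
  exact h2

theorem tau2 {g : ℂ → ℂ} {U : Set ℂ} (hU : IsOpen U) (hg : DifferentiableOn ℂ g U) {t : ℝ}
    (ht : I * (t : ℂ) ∈ U) :
    HasDerivAt (fun τ : ℝ => deriv (fun τ : ℝ => g (I * τ)) τ) (-deriv (deriv g) (I * t)) t := by
  have h1 : HasDerivAt (fun τ : ℝ => I * deriv g (I * τ)) (I * (I * deriv (deriv g) (I * t))) t :=
    (tau1 ((hg.deriv hU).differentiableAt (hU.mem_nhds ht))).const_mul I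
  have e1 : I * (I * deriv (deriv g) (I * t)) = -deriv (deriv g) (I * t) := by
    rw [← mul_assoc, I_mul_I]
    ring
  rw [e1] at h1
  refine h1.congr_of_eventuallyEq ?_
  have hc : ContinuousAt (fun τ : ℝ => I * (τ : ℂ)) t := by fun_prop
  filter_upwards [hc.preimage_mem_nhds (hU.mem_nhds ht)] with τ hτ
  exact (tau1 (hg.differentiableAt (hU.mem_nhds hτ))).deriv

/-! ### the two forms of (E') -/

/-- `r₊` -/
def rP (j : ℕ) (s : ℝ) : ℝ := (j + 1) * Real.exp (8 / 3 * s) / (j + Real.exp (8 / 3 * s))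

/-- `r₋` -/
def rM (j : ℕ) (s : ℝ) : ℝ := (j + 1) * Real.exp (-(8 / 3 * s)) / (j + Real.exp (-(8 / 3 * s)))

/-- (E'), gas side -/
def E2 (c : ℝ) (Psi : ℕ → ℂ → ℂ → ℂ) : Prop :=
  ∃ C' : ℝ, ∀ᶠ j : ℕ in atTop, ∀ s ∈ Icc (0 : ℝ) 1, ∀ t ∈ Icc (0 : ℝ) 1, ∃ D : ℂ,
    HasDerivAt (fun s : ℝ => Psi j (I * t) (I * s)) D s ∧
    ‖((j + 1 : ℝ) : ℂ) * D - (-(((rP j s - rM j s) / 8 : ℝ) : ℂ) *
      (-deriv (deriv fun z => Psi j z (I * s)) (I * t)) - (((rP j s + rM j s) / 2 : ℝ) : ℂ) *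
      (I * deriv (fun z => Psi j z (I * s)) (I * t)))‖ ≤ C' * (j : ℝ) ^ (-c)

theorem field_diff {j : ℝ} (hj : 1 ≤ j) {E Y : ℝ} (hE : 0 < E) (hEY : E ≤ Y) :
    |E / (j + E) - E / j| ≤ Y ^ 2 / j ^ 2 := by
  have h0 : 0 < j := by linarith
  have e : E / (j + E) - E / j = -(E ^ 2 / (j * (j + E))) := by
    field_simp
    ring
  rw [e, abs_neg, abs_of_nonneg (by positivity)]
  have h1 : E ^ 2 ≤ Y ^ 2 := by gcongr
  have h2 : j ^ 2 ≤ j * (j + E) := by nlinarith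
  gcongr

theorem EPr_of (h : FunH C f Psi) {c : ℝ} (hc : c < 1) (hE : E2 c Psi) : EPr c Psi := by
  obtain ⟨C1, hE⟩ := hE
  set Y : ℝ := Real.exp (8 / 3) with hY
  have hY1 : 1 ≤ Y := Real.one_le_exp (by norm_num)
  refine ⟨|C1| + 2 * Y ^ 2, ?_⟩
  filter_upwards [hE, h.dbd (show 0 < 1 - c by linarith), eventually_ge_atTop 1]
    with j h1 h2 h3 s hs t ht
  obtain ⟨D, hD, hD1⟩ := h1 s hs t ht
  refine ⟨D, hD, ?_⟩
  have hj1 : (1 : ℝ) ≤ j := by exact_mod_cast h3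
  have hj0 : (0 : ℝ) < j := by linarith
  have hx : I * (s : ℂ) ∈ seg 0 := ⟨s, hs, by simp⟩
  obtain ⟨d1, d2⟩ := h2 _ hx t ht
  set g1 := deriv (fun z => Psi j z (I * s)) (I * t) with hg1
  set g2 := deriv (deriv fun z => Psi j z (I * s)) (I * t) with hg2
  set E : ℝ := Real.exp (8 / 3 * s) with hEd
  have hE0 : 0 < E := Real.exp_pos _
  have hEY : E ≤ Y := Real.exp_le_exp.2 (by linarith [hs.2])
  have hE0' : 0 < E⁻¹ := by positivity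
  have hE1 : 1 ≤ E := Real.one_le_exp (by linarith [hs.1])
  have hEY' : E⁻¹ ≤ Y := (inv_le_one_of_one_le₀ hE1).trans hY1
  have hEm : Real.exp (-(8 / 3 * s)) = E⁻¹ := by rw [hEd, Real.exp_neg]
  -- y
  have hy : exp (I * (8 / 3 : ℝ) * (I * s)) = ((E⁻¹ : ℝ) : ℂ) := by
    rw [← hEm, ofReal_exp]
    congr 1
    push_cast
    linear_combination (8 / 3 * s : ℂ) * I_sq
  have hy' : (exp (I * (8 / 3 : ℝ) * (I * s)))⁻¹ = ((E : ℝ) : ℂ) := by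
    rw [hy, ofReal_inv, inv_inv]
  unfold Op
  rw [hy', hy, ← hg1, ← hg2]
  -- the two fields
  set A : ℝ := E / (j + E) with hA
  set B : ℝ := E⁻¹ / (j + E⁻¹) with hB
  have hrP : rP j s = (j + 1) * A := by
    unfold rP
    rw [← hEd, hA, mul_div_assoc]
  have hrM : rM j s = (j + 1) * B := by
    unfold rM
    rw [hEm, hB, mul_div_assoc]
  have hA1 := field_diff hj1 hE0 hEY
  have hB1 := field_diff hj1 hE0' hEY'
  rw [← hA] at hA1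
  rw [← hB] at hB1
  have hN : ((j + 1 : ℝ) : ℂ) ≠ 0 := by
    have : (0 : ℝ) < j + 1 := by linarith
    exact_mod_cast this.ne'
  -- first part
  have p1 : ‖D - ((((A - B) / 8 : ℝ) : ℂ) * g2 - (((A + B) / 2 : ℝ) : ℂ) * (I * g1))‖ ≤
      |C1| * (j : ℝ) ^ (-(1 + c)) := by
    have e1 : ((j + 1 : ℝ) : ℂ) * D - (-(((rP j s - rM j s) / 8 : ℝ) : ℂ) * (-g2) -
        (((rP j s + rM j s) / 2 : ℝ) : ℂ) * (I * g1)) = ((j + 1 : ℝ) : ℂ) *
        (D - ((((A - B) / 8 : ℝ) : ℂ) * g2 - (((A + B) / 2 : ℝ) : ℂ) * (I * g1))) := by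
      rw [hrP, hrM]
      push_cast
      ring
    rw [e1, norm_mul, norm_real, Real.norm_of_nonneg (by linarith)] at hD1
    have e2 : (j : ℝ) ^ (-c) = (j : ℝ) * (j : ℝ) ^ (-(1 + c)) := by
      rw [show -c = 1 + -(1 + c) by ring, Real.rpow_add hj0, Real.rpow_one]
    have e3 : (j : ℝ) * ‖D - ((((A - B) / 8 : ℝ) : ℂ) * g2 - (((A + B) / 2 : ℝ) : ℂ) * (I * g1))‖ ≤
        (j : ℝ) * (|C1| * (j : ℝ) ^ (-(1 + c))) := by
      have e4 : 0 ≤ (j : ℝ) ^ (-c) := by positivity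
      calc _ ≤ ((j : ℝ) + 1) * ‖D - ((((A - B) / 8 : ℝ) : ℂ) * g2 -
            (((A + B) / 2 : ℝ) : ℂ) * (I * g1))‖ := by
            have := norm_nonneg (D - ((((A - B) / 8 : ℝ) : ℂ) * g2 - (((A + B) / 2 : ℝ) : ℂ) * (I * g1)))
            nlinarith
        _ ≤ C1 * (j : ℝ) ^ (-c) := hD1
        _ ≤ |C1| * (j : ℝ) ^ (-c) := by
            gcongr
            exact le_abs_self _
        _ = _ := by rw [e2]; ring
    exact le_of_mul_le_mul_left e3 hj0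
  -- second part
  have p2 : ‖((((A - B) / 8 : ℝ) : ℂ) * g2 - (((A + B) / 2 : ℝ) : ℂ) * (I * g1)) -
      ((1 / j : ℝ) : ℂ) * ((((E : ℝ) : ℂ) - ((E⁻¹ : ℝ) : ℂ)) * ((1 / 8 : ℝ) : ℂ) * g2 +
        (((E : ℝ) : ℂ) + ((E⁻¹ : ℝ) : ℂ)) * (-(I / 2)) * g1)‖ ≤ 2 * Y ^ 2 * (j : ℝ) ^ (-(1 + c)) := by
    have e1 : ((((A - B) / 8 : ℝ) : ℂ) * g2 - (((A + B) / 2 : ℝ) : ℂ) * (I * g1)) -
      ((1 / j : ℝ) : ℂ) * ((((E : ℝ) : ℂ) - ((E⁻¹ : ℝ) : ℂ)) * ((1 / 8 : ℝ) : ℂ) * g2 +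
        (((E : ℝ) : ℂ) + ((E⁻¹ : ℝ) : ℂ)) * (-(I / 2)) * g1) =
      (((A - E / j) - (B - E⁻¹ / j) : ℝ) : ℂ) * (1 / 8 * g2) -
      (((A - E / j) + (B - E⁻¹ / j) : ℝ) : ℂ) * (I / 2 * g1) := by
      push_cast
      ring
    have hQ : ‖(((A - E / j) - (B - E⁻¹ / j) : ℝ) : ℂ)‖ ≤ 2 * (Y ^ 2 / j ^ 2) := by
      rw [norm_real, Real.norm_eq_abs]
      exact (abs_sub _ _).trans (by linarith)
    have hQ' : ‖(((A - E / j) + (B - E⁻¹ / j) : ℝ) : ℂ)‖ ≤ 2 * (Y ^ 2 / j ^ 2) := by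
      rw [norm_real, Real.norm_eq_abs]
      exact (abs_add_le _ _).trans (by linarith)
    have hP : 0 ≤ Y ^ 2 / (j : ℝ) ^ 2 := by positivity
    have hjc : 0 ≤ (j : ℝ) ^ (1 - c) := by positivity
    rw [e1]
    refine (norm_sub_le _ _).trans ?_
    rw [norm_mul _ ((1 / 8 : ℂ) * g2), norm_mul _ ((I / 2 : ℂ) * g1)]
    have g2n : ‖(1 / 8 : ℂ) * g2‖ ≤ 1 / 2 * (j : ℝ) ^ (1 - c) := by
      rw [norm_mul]
      have : ‖(1 / 8 : ℂ)‖ = 1 / 8 := by norm_num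
      rw [this]
      nlinarith
    have g1n : ‖(I / 2 : ℂ) * g1‖ ≤ 1 / 2 * (j : ℝ) ^ (1 - c) := by
      rw [norm_mul]
      have : ‖(I / 2 : ℂ)‖ = 1 / 2 := by
        rw [norm_div, norm_I]
        norm_num
      rw [this]
      nlinarith
    calc _ ≤ 2 * (Y ^ 2 / j ^ 2) * (1 / 2 * (j : ℝ) ^ (1 - c)) +
          2 * (Y ^ 2 / j ^ 2) * (1 / 2 * (j : ℝ) ^ (1 - c)) :=
          add_le_add (mul_le_mul hQ g2n (norm_nonneg _) (by positivity))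
            (mul_le_mul hQ' g1n (norm_nonneg _) (by positivity))
      _ = 2 * Y ^ 2 * ((j : ℝ) ^ (1 - c) / (j : ℝ) ^ 2) := by ring
      _ = _ := by
        congr 1
        have e6 : (j : ℝ) ^ (-(1 + c)) * (j : ℝ) ^ (2 : ℕ) = (j : ℝ) ^ (1 - c) := by
          rw [← Real.rpow_natCast (j : ℝ) 2, ← Real.rpow_add hj0]
          congr 1
          push_cast
          ring
        rw [div_eq_iff (by positivity), e6]
  have e5 : D - ((1 / j : ℝ) : ℂ) * ((((E : ℝ) : ℂ) - ((E⁻¹ : ℝ) : ℂ)) * ((1 / 8 : ℝ) : ℂ) * g2 +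
        (((E : ℝ) : ℂ) + ((E⁻¹ : ℝ) : ℂ)) * (-(I / 2)) * g1) =
      (D - ((((A - B) / 8 : ℝ) : ℂ) * g2 - (((A + B) / 2 : ℝ) : ℂ) * (I * g1))) +
      (((((A - B) / 8 : ℝ) : ℂ) * g2 - (((A + B) / 2 : ℝ) : ℂ) * (I * g1)) -
      ((1 / j : ℝ) : ℂ) * ((((E : ℝ) : ℂ) - ((E⁻¹ : ℝ) : ℂ)) * ((1 / 8 : ℝ) : ℂ) * g2 +
        (((E : ℝ) : ℂ) + ((E⁻¹ : ℝ) : ℂ)) * (-(I / 2)) * g1)) := by ring
  rw [e5]
  exact (norm_add_le _ _).trans ((add_le_add p1 p2).trans (le_of_eq (by ring)))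

end PBV
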