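import Pool.Agent.PB.Nz
import Pool.Agent.PB.EPrOf

/-!
# Plan B: the function side for the literal function (helper12)

`f0 N z` = `N` rows at `0`, `fx N x z` = rows `x, 0^N` (helper71, `PB/Nz`).

* `U0P C`: the crude bound; `U1P`: the sharp bound on `Re z = 0`;
* `funH_f0 : U0P C → U1P → FunH C f0 fx`;
* **`funS_f0`**: `U0P C`, `U1P`, (E') (`E2 c`), `0 ≤ c < 2/3`: `FunO c f0 g`, `g j = bK f0 j 0`.
-/

set_option autoImplicit false

noncomputable section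

open Complex MeasureTheory Set Filter Topology
open Pool.Agent.PB.Rec (seg)
open Pool.Agent.PB (f0 fx)
open NUP1 (l lpos)

namespace PBV

theorem aL_eq : aL = 3 * l := by
  unfold aL l
  ring

theorem σL_eq : σL = 3 / 5 * l := by
  unfold σL l
  ring

/-- crude bound -/
def U0P (C : ℝ) : Prop :=
  (∀ᶠ j : ℕ in atTop, ∀ z : ℂ, |z.re| ≤ 18 / 5 * l → |z.im| ≤ 3 / 20 * Real.log j + 1 →
    ‖f0 j z‖ ≤ (j : ℝ) ^ C) ∧
  ∀ᶠ j : ℕ in atTop, ∀ s ∈ Icc (0 : ℝ) 1, ∀ z : ℂ, |z.re| ≤ 18 / 5 * l →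
    |z.im| ≤ 3 / 20 * Real.log j + 1 → ‖fx j (I * s) z‖ ≤ (j : ℝ) ^ C

/-- sharp bound -/
def U1P : Prop := ∀ ε : ℝ, 0 < ε →
  (∀ᶠ j : ℕ in atTop, ∀ z : ℂ, z.re = 0 → |z.im| ≤ 9 / 80 * Real.log j + 1 →
    ‖f0 j z‖ ≤ (j : ℝ) ^ ε * Real.exp (2 * |z.im|)) ∧
  ∀ᶠ j : ℕ in atTop, ∀ s ∈ Icc (0 : ℝ) 1, ∀ t ∈ Icc (0 : ℝ) 1, ‖fx j (I * s) (I * t)‖ ≤ (j : ℝ) ^ ε

theorem strip_open (r : ℝ) : IsOpen {z : ℂ | |z.re| < r} :=
  isOpen_lt (by fun_prop) continuous_const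

theorem seg_Is {x : ℂ} (hx : x ∈ seg 0) : ∃ s ∈ Icc (0 : ℝ) 1, x = I * s := by
  obtain ⟨s, hs, rfl⟩ := hx
  exact ⟨s, hs, by simp⟩

theorem funH_f0 {C : ℝ} (h0 : U0P C) (h1 : U1P) : FunH C f0 (fun j z x => fx j x z) := by
  have hl := lpos
  have hs : aL + σL = 18 / 5 * l := by
    rw [aL_eq, σL_eq]
    ring
  have hr : aL + σL < 43 / 10 * l := by
    rw [hs]
    linarith
  have hr' : σL < 13 / 10 * l := by
    rw [σL_eq]
    linarith
  have ha : ((aL : ℝ) : ℂ) = 3 * l := by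
    rw [aL_eq]
    push_cast
    ring
  refine ⟨?_, ?_, ?_, ?_, ?_, ?_⟩
  · filter_upwards [h0.1] with j hj
    obtain ⟨Q, hQ, hz⟩ := Pool.Agent.PB.f0_zeros j
    refine FD_zero hr hr' (fun z h => (Pool.Agent.PB.f0_diff j).differentiableAt ((strip_open _).mem_nhds h))
      (fun z h => hQ.differentiableAt ((strip_open _).mem_nhds h)) (fun z _ => ?_) ?_
    · rw [ha]
      exact hz z
    · intro z h1 h2
      rw [two_σL] at h2
      rw [hs] at h1
      exact hj z h1 h2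
  · filter_upwards [h0.2, eventually_ge_atTop 1] with j hj hj1 x hx
    obtain ⟨s, hs1, rfl⟩ := seg_Is hx
    have hx0 : |(I * (s : ℂ)).re| ≤ l / 2 := by
      simp
      linarith
    obtain ⟨Q, hQ, hz⟩ := Pool.Agent.PB.fx_zeros j hx0
    refine FD_cons hj1 (x := I * s) (by simp) (by simp [abs_of_nonneg hs1.1, hs1.2]) hr hr'
      (fun z h => (Pool.Agent.PB.fx_diff j hx0).differentiableAt ((strip_open _).mem_nhds h))
      (fun z h => hQ.differentiableAt ((strip_open _).mem_nhds h)) (fun z _ => ?_) ?_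
    · rw [ha]
      exact hz z
    · intro z h1 h2
      rw [two_σL] at h2
      rw [hs] at h1
      exact hj s hs1 z h1 h2
  · exact Filter.Eventually.of_forall fun j z => Pool.Agent.PB.fx_zero j z
  · refine Filter.Eventually.of_forall fun j x hx => ?_
    obtain ⟨s, hs1, rfl⟩ := seg_Is hx
    have hx0 : |(I * (s : ℂ)).re| ≤ l / 2 := by
      simp
      linarith
    have := Pool.Agent.PB.fx_leg j hx0
    rw [ha]
    exact this
  · exact fun ε hε => (h1 ε hε).1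
  · intro ε hε
    filter_upwards [(h1 ε hε).2] with j hj x hx t ht
    obtain ⟨s, hs1, rfl⟩ := seg_Is hx
    exact hj s hs1 t ht

/-- **the function side, literal** -/
theorem funS_f0 {C c : ℝ} (h0 : U0P C) (h1 : U1P) (hc : 0 ≤ c) (hc1 : c < 2 / 3)
    (hE : E2 c (fun j z x => fx j x z)) : FunO c f0 (fun j => bK f0 j 0) :=
  funS (funH_f0 h0 h1) hc hc1 (EPr_of (funH_f0 h0 h1) (by linarith) hE)

end PBV
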