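import Pool.Agent.PB.EAbs

/-!
# Plan B: from the second Ward identity and second moments to level two

`F μ w O = ∫ w O`.  `M2 μ w K A a` : `∫ ‖w‖ ‖A‖² ≤ a² K`; `L1 μ w A a` : `∫ ‖w‖ ‖A‖ ≤ a`.

* `M2.add`, `M2.smul`, `M2.mono`, `M2.mul` (Cauchy-Schwarz), `norm_F_L1`;
* `mean_bound`, `cov_bound` : one observable, any Ward identity (also species dependent legs);
* `WPl` : the second Ward identity of a test function `g` in the plus channel, remainder `Q + P`,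
  `Q` with second moments, `P` with pins;
* **`lev2_of`** : `PBE.Lev2` with `δ = 2 K θ + δp`;
* `WMi`, **`lev2m_of`** : the minus channel, with the step observable `S`.
-/

set_option autoImplicit false

open MeasureTheory Complex Filter Topology
open scoped ENNReal

noncomputable section

namespace PBFunc

variable {Ω : Type*} [MeasurableSpace Ω] {μ : Measure Ω}

/-- second moment bound -/
def M2 (μ : Measure Ω) (w : Ω → ℂ) (K : ℝ) (A : Ω → ℂ) (a : ℝ) : Prop :=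
  ∫⁻ ω, ENNReal.ofReal (‖w ω‖ * ‖A ω‖ ^ 2) ∂μ ≤ ENNReal.ofReal (a ^ 2 * K)

/-- first moment bound -/
def L1 (μ : Measure Ω) (w : Ω → ℂ) (A : Ω → ℂ) (a : ℝ) : Prop :=
  ∫⁻ ω, ENNReal.ofReal (‖w ω‖ * ‖A ω‖) ∂μ ≤ ENNReal.ofReal a

section

variable {w A B : Ω → ℂ} {K a b : ℝ}

theorem norm_F_L1 (ha : 0 ≤ a) (h : L1 μ w A a) : ‖F μ w A‖ ≤ a := norm_F_le ha h

theorem L1.wi (h : L1 μ w A a) (hw : AEStronglyMeasurable w μ) (hA : AEStronglyMeasurable A μ) :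
    WI μ w A := WI.of_le hw hA h

theorem L1.mono (h : L1 μ w A a) (hab : a ≤ b) : L1 μ w A b :=
  h.trans (ENNReal.ofReal_le_ofReal hab)

theorem L1.add (ha : 0 ≤ a) (hb : 0 ≤ b) (hA : AEStronglyMeasurable A μ)
    (hw : AEStronglyMeasurable w μ) (h : L1 μ w A a) (h' : L1 μ w B b) :
    L1 μ w (fun ω => A ω + B ω) (a + b) := by
  unfold L1 at *
  have h1 : AEMeasurable (fun ω => ENNReal.ofReal (‖w ω‖ * ‖A ω‖)) μ :=
    (hw.norm.aemeasurable.mul hA.norm.aemeasurable).ennreal_ofReal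
  calc ∫⁻ ω, ENNReal.ofReal (‖w ω‖ * ‖A ω + B ω‖) ∂μ ≤
      ∫⁻ ω, (ENNReal.ofReal (‖w ω‖ * ‖A ω‖) + ENNReal.ofReal (‖w ω‖ * ‖B ω‖)) ∂μ := by
        refine lintegral_mono fun ω => ?_
        rw [← ENNReal.ofReal_add (by positivity) (by positivity)]
        apply ENNReal.ofReal_le_ofReal
        rw [← mul_add]
        exact mul_le_mul_of_nonneg_left (norm_add_le _ _) (norm_nonneg _)
    _ = ∫⁻ ω, ENNReal.ofReal (‖w ω‖ * ‖A ω‖) ∂μ + ∫⁻ ω, ENNReal.ofReal (‖w ω‖ * ‖B ω‖) ∂μ :=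
        lintegral_add_left' h1 _
    _ ≤ ENNReal.ofReal a + ENNReal.ofReal b := add_le_add h h'
    _ = _ := (ENNReal.ofReal_add ha hb).symm

theorem M2.mono {K' : ℝ} (h : M2 μ w K A a) (ha : 0 ≤ a) (hab : a ≤ b) (hK : K ≤ K')
    (hK0 : 0 ≤ K) : M2 μ w K' A b := by
  refine h.trans (ENNReal.ofReal_le_ofReal ?_)
  gcongr

theorem M2.congr (h : M2 μ w K A a) (e : ∀ ω, A ω = B ω) : M2 μ w K B a := by
  have : A = B := funext e
  rw [← this]
  exact h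

theorem M2.smul (h : M2 μ w K A a) (c : ℂ) : M2 μ w K (fun ω => c * A ω) (‖c‖ * a) := by
  unfold M2 at *
  have e : ∀ ω, ENNReal.ofReal (‖w ω‖ * ‖c * A ω‖ ^ 2) =
      ENNReal.ofReal (‖c‖ ^ 2) * ENNReal.ofReal (‖w ω‖ * ‖A ω‖ ^ 2) := by
    intro ω
    rw [← ENNReal.ofReal_mul (by positivity), norm_mul]
    congr 1
    ring
  simp only [e]
  rw [lintegral_const_mul' _ _ ENNReal.ofReal_ne_top, mul_pow, mul_assoc,
    ENNReal.ofReal_mul (by positivity)]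
  gcongr

/-- Cauchy-Schwarz -/
theorem M2.mul (ha : 0 < a) (hb : 0 < b) (hw : AEStronglyMeasurable w μ)
    (hA : AEStronglyMeasurable A μ) (h : M2 μ w K A a) (h' : M2 μ w K B b) :
    L1 μ w (fun ω => A ω * B ω) (a * b * K) := by
  unfold M2 at h h'
  unfold L1
  have key : ∀ ω, ENNReal.ofReal (‖w ω‖ * ‖A ω * B ω‖) ≤
      ENNReal.ofReal (b / (2 * a)) * ENNReal.ofReal (‖w ω‖ * ‖A ω‖ ^ 2) +
      ENNReal.ofReal (a / (2 * b)) * ENNReal.ofReal (‖w ω‖ * ‖B ω‖ ^ 2) := by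
    intro ω
    rw [← ENNReal.ofReal_mul (by positivity), ← ENNReal.ofReal_mul (by positivity),
      ← ENNReal.ofReal_add (by positivity) (by positivity)]
    apply ENNReal.ofReal_le_ofReal
    rw [norm_mul]
    set x := ‖A ω‖
    set y := ‖B ω‖
    have h1 : x * y ≤ b / (2 * a) * x ^ 2 + a / (2 * b) * y ^ 2 := by
      have e : b / (2 * a) * x ^ 2 + a / (2 * b) * y ^ 2 - x * y =
          (b * x - a * y) ^ 2 / (2 * a * b) := by
        field_simp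
        ring
      have : 0 ≤ (b * x - a * y) ^ 2 / (2 * a * b) := by positivity
      linarith
    calc ‖w ω‖ * (x * y) ≤ ‖w ω‖ * (b / (2 * a) * x ^ 2 + a / (2 * b) * y ^ 2) :=
          mul_le_mul_of_nonneg_left h1 (norm_nonneg _)
      _ = _ := by ring
  have m1 : AEMeasurable (fun ω => ENNReal.ofReal (b / (2 * a)) *
      ENNReal.ofReal (‖w ω‖ * ‖A ω‖ ^ 2)) μ :=
    ((hw.norm.aemeasurable.mul (hA.norm.aemeasurable.pow_const 2)).ennreal_ofReal).const_mul _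
  refine (lintegral_mono key).trans ?_
  rw [lintegral_add_left' m1, lintegral_const_mul' _ _ ENNReal.ofReal_ne_top,
    lintegral_const_mul' _ _ ENNReal.ofReal_ne_top]
  refine (add_le_add (mul_le_mul' le_rfl h) (mul_le_mul' le_rfl h')).trans ?_
  rw [← ENNReal.ofReal_mul (by positivity), ← ENNReal.ofReal_mul (by positivity)]
  have e1 : b / (2 * a) * (a ^ 2 * K) = a * b * K / 2 := by field_simp
  have e2 : a / (2 * b) * (b ^ 2 * K) = a * b * K / 2 := by field_simp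
  rw [e1, e2]
  by_cases hK : 0 ≤ K
  · rw [← ENNReal.ofReal_add (by positivity) (by positivity)]
    apply ENNReal.ofReal_le_ofReal
    linarith
  · have hK' : a * b * K ≤ 0 := by
      have : 0 < a * b := by positivity
      nlinarith [mul_pos this (by linarith : 0 < -K)]
    rw [ENNReal.ofReal_of_nonpos (by linarith : a * b * K / 2 ≤ 0)]
    simp

/-- Minkowski -/
theorem M2.add (ha : 0 < a) (hb : 0 < b) (hw : AEStronglyMeasurable w μ)
    (hA : AEStronglyMeasurable A μ) (h : M2 μ w K A a) (h' : M2 μ w K B b) :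
    M2 μ w K (fun ω => A ω + B ω) (a + b) := by
  unfold M2 at *
  have key : ∀ ω, ENNReal.ofReal (‖w ω‖ * ‖A ω + B ω‖ ^ 2) ≤
      ENNReal.ofReal ((a + b) / a) * ENNReal.ofReal (‖w ω‖ * ‖A ω‖ ^ 2) +
      ENNReal.ofReal ((a + b) / b) * ENNReal.ofReal (‖w ω‖ * ‖B ω‖ ^ 2) := by
    intro ω
    rw [← ENNReal.ofReal_mul (by positivity), ← ENNReal.ofReal_mul (by positivity),
      ← ENNReal.ofReal_add (by positivity) (by positivity)]
    apply ENNReal.ofReal_le_ofReal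
    have hn : ‖A ω + B ω‖ ^ 2 ≤ (‖A ω‖ + ‖B ω‖) ^ 2 :=
      pow_le_pow_left₀ (norm_nonneg _) (norm_add_le _ _) 2
    set x := ‖A ω‖
    set y := ‖B ω‖
    have h1 : (x + y) ^ 2 ≤ (a + b) / a * x ^ 2 + (a + b) / b * y ^ 2 := by
      have e : (a + b) / a * x ^ 2 + (a + b) / b * y ^ 2 - (x + y) ^ 2 =
          (b * x - a * y) ^ 2 / (a * b) := by
        field_simp
        ring
      have : 0 ≤ (b * x - a * y) ^ 2 / (a * b) := by positivity
      linarith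
    calc ‖w ω‖ * ‖A ω + B ω‖ ^ 2 ≤ ‖w ω‖ * ((a + b) / a * x ^ 2 + (a + b) / b * y ^ 2) :=
          mul_le_mul_of_nonneg_left (hn.trans h1) (norm_nonneg _)
      _ = _ := by ring
  have m1 : AEMeasurable (fun ω => ENNReal.ofReal ((a + b) / a) *
      ENNReal.ofReal (‖w ω‖ * ‖A ω‖ ^ 2)) μ :=
    ((hw.norm.aemeasurable.mul (hA.norm.aemeasurable.pow_const 2)).ennreal_ofReal).const_mul _
  refine (lintegral_mono key).trans ?_
  rw [lintegral_add_left' m1, lintegral_const_mul' _ _ ENNReal.ofReal_ne_top,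
    lintegral_const_mul' _ _ ENNReal.ofReal_ne_top]
  refine (add_le_add (mul_le_mul' le_rfl h) (mul_le_mul' le_rfl h')).trans ?_
  rw [← ENNReal.ofReal_mul (by positivity), ← ENNReal.ofReal_mul (by positivity)]
  have e1 : (a + b) / a * (a ^ 2 * K) = (a + b) * a * K := by field_simp
  have e2 : (a + b) / b * (b ^ 2 * K) = (a + b) * b * K := by field_simp
  rw [e1, e2]
  by_cases hK : 0 ≤ K
  · rw [← ENNReal.ofReal_add (by positivity) (by positivity)]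
    apply ENNReal.ofReal_le_ofReal
    nlinarith
  · have hK' : K ≤ 0 := by linarith
    rw [ENNReal.ofReal_of_nonpos (mul_nonpos_of_nonneg_of_nonpos (by positivity) hK'),
      ENNReal.ofReal_of_nonpos (mul_nonpos_of_nonneg_of_nonpos (by positivity) hK')]
    simp

theorem M2.mul' (ha : 0 ≤ a) (hb : 0 ≤ b) (hK : 0 ≤ K) (hw : AEStronglyMeasurable w μ)
    (hA : AEStronglyMeasurable A μ) (h : M2 μ w K A a) (h' : M2 μ w K B b) :
    L1 μ w (fun ω => A ω * B ω) (a * b * K) := by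
  have key : ∀ e : ℝ, 0 < e → ∫⁻ ω, ENNReal.ofReal (‖w ω‖ * ‖A ω * B ω‖) ∂μ ≤
      ENNReal.ofReal ((a + e) * (b + e) * K) := fun e he =>
    (h.mono ha (by linarith : a ≤ a + e) le_rfl hK).mul (by linarith) (by linarith) hw hA
      (h'.mono hb (by linarith : b ≤ b + e) le_rfl hK)
  have ht : Tendsto (fun e : ℝ => ENNReal.ofReal ((a + e) * (b + e) * K)) (𝓝[>] 0)
      (𝓝 (ENNReal.ofReal (a * b * K))) := by
    have h1 : Continuous fun e : ℝ => ENNReal.ofReal ((a + e) * (b + e) * K) :=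
      ENNReal.continuous_ofReal.comp (by fun_prop)
    have h2 := (h1.tendsto 0).mono_left (nhdsWithin_le_nhds (s := Set.Ioi 0))
    simpa using h2
  refine ge_of_tendsto ht ?_
  filter_upwards [self_mem_nhdsWithin] with e he
  exact key e he

theorem M2.l1 (hb : 0 ≤ a) (hK : 0 ≤ K) (hw : AEStronglyMeasurable w μ)
    (hA : AEStronglyMeasurable A μ) (h : M2 μ w K A a) (h1 : M2 μ w K (fun _ => 1) 1) :
    L1 μ w A (a * K) := by
  have := h.mul' hb zero_le_one hK hw hA h1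
  simp only [mul_one] at this
  exact this

/-- the mean of one observable from one Ward identity -/
theorem mean_bound {Y Q P : Ω → ℂ} {m : ℂ} {q p : ℝ} (hq : 0 ≤ q) (hp : 0 ≤ p) (hK : 0 ≤ K)
    (hw : AEStronglyMeasurable w μ) (mQ : AEStronglyMeasurable Q μ)
    (mP : AEStronglyMeasurable P μ)
    (h : F μ w Y = m * F μ w (fun _ => 1) + F μ w (fun ω => Q ω + P ω))
    (h1 : M2 μ w K (fun _ => 1) 1) (q2 : M2 μ w K Q q) (p1 : L1 μ w P p) :
    ‖F μ w Y - m * F μ w (fun _ => 1)‖ ≤ q * K + p := by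
  have lq := q2.l1 hq hK hw mQ h1
  rw [h, add_sub_cancel_left, F_add (lq.wi hw mQ) (p1.wi hw mP)]
  exact (norm_add_le _ _).trans (add_le_add (norm_F_L1 (by positivity) lq)
    (norm_F_L1 hp p1))

/-- the covariance of two observables from one Ward identity -/
theorem cov_bound {Y B D Q P : Ω → ℂ} {m c : ℂ} {q d b p : ℝ} (hq : 0 ≤ q) (hd : 0 ≤ d)
    (hb : 0 ≤ b) (hp : 0 ≤ p) (hK : 0 ≤ K) (hw : AEStronglyMeasurable w μ)
    (mQ : AEStronglyMeasurable Q μ) (mP : AEStronglyMeasurable P μ)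
    (mD : AEStronglyMeasurable D μ) (mB : AEStronglyMeasurable B μ)
    (h : F μ w (fun ω => Y ω * B ω) = m * F μ w B + c * F μ w (fun _ => 1) + F μ w D +
      F μ w (fun ω => (Q ω + P ω) * B ω))
    (h1 : M2 μ w K (fun _ => 1) 1) (q2 : M2 μ w K Q q) (d2 : M2 μ w K D d)
    (b2 : M2 μ w K B b) (p1 : L1 μ w (fun ω => P ω * B ω) p) :
    ‖F μ w (fun ω => Y ω * B ω) - (m * F μ w B + c * F μ w (fun _ => 1))‖ ≤
      d * K + q * b * K + p := by
  have ld := d2.l1 hd hK hw mD h1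
  have lq := q2.mul' hq hb hK hw mQ b2
  have e : F μ w (fun ω => (Q ω + P ω) * B ω) = F μ w (fun ω => Q ω * B ω) +
      F μ w (fun ω => P ω * B ω) := by
    rw [← F_add (lq.wi hw (mQ.mul mB)) (p1.wi hw (mP.mul mB))]
    congr 1
    funext ω
    ring
  rw [h, e]
  have e2 : m * F μ w B + c * F μ w (fun _ => 1) + F μ w D +
      (F μ w (fun ω => Q ω * B ω) + F μ w (fun ω => P ω * B ω)) -
      (m * F μ w B + c * F μ w (fun _ => 1)) =
      F μ w D + F μ w (fun ω => Q ω * B ω) + F μ w (fun ω => P ω * B ω) := by ring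
  rw [e2]
  exact (norm_add_le _ _).trans (add_le_add ((norm_add_le _ _).trans (add_le_add
    (norm_F_L1 (by positivity) ld) (norm_F_L1 (by positivity) lq))) (norm_F_L1 hp p1))

end

end PBFunc

namespace PBE

open PBFunc

variable {Ω : Type*} [MeasurableSpace Ω] {μ : Measure Ω}

/-- **the second Ward identity of the test function `g`, plus channel**: `V h` the statistic of a
test function, `m = m(g)`, `C h = C(g, h)`, `D h` the statistic of `X_g h'`, remainder `Q + P` -/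
structure WPl (y₁ y₂ a : ℝ) (μ : Measure Ω) (w : Ω → ℂ) (K θ δp M : ℝ)
    (V : (ℂ → ℂ) → Ω → ℂ) (g : ℂ → ℂ) (m : ℂ) (C : (ℂ → ℂ) → ℂ) (D : (ℂ → ℂ) → Ω → ℂ)
    (Q P : Ω → ℂ) : Prop where
  /-- insertion `1` -/
  one : F μ w (V g) = m * F μ w (fun _ => 1) + F μ w (fun ω => Q ω + P ω)
  /-- insertion `V h` -/
  two : ∀ M' h, TC y₁ y₂ a M' h → F μ w (fun ω => V g ω * V h ω) =
    m * F μ w (V h) + C h * F μ w (fun _ => 1) + F μ w (D h) +
      F μ w (fun ω => (Q ω + P ω) * V h ω)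
  mQ : AEStronglyMeasurable Q μ
  mP : AEStronglyMeasurable P μ
  q2 : M2 μ w K Q (M * θ)
  p1 : L1 μ w P (M * δp)
  mD : ∀ M' h, TC y₁ y₂ a M' h → AEStronglyMeasurable (D h) μ
  d2 : ∀ M' h, TC y₁ y₂ a M' h → M2 μ w K (D h) (M * M' * θ)
  p2 : ∀ M' h, TC y₁ y₂ a M' h → L1 μ w (fun ω => P ω * V h ω) (M * M' * δp)

section

variable {y₁ y₂ a K θ δp : ℝ} {w : Ω → ℂ} {V : (ℂ → ℂ) → Ω → ℂ}

/-- one test function: the mean -/
theorem WPl.mean {M : ℝ} {g : ℂ → ℂ} {m : ℂ} {C : (ℂ → ℂ) → ℂ} {D : (ℂ → ℂ) → Ω → ℂ}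
    {Q P : Ω → ℂ} (h : WPl y₁ y₂ a μ w K θ δp M V g m C D Q P) (hw : AEStronglyMeasurable w μ)
    (hM : 0 ≤ M) (hK : 0 ≤ K) (hθ : 0 ≤ θ) (hδ : 0 ≤ δp) (h1 : M2 μ w K (fun _ => 1) 1) :
    ‖F μ w (V g) - m * F μ w (fun _ => 1)‖ ≤ M * (2 * K * θ + δp) := by
  have lq := h.q2.l1 (mul_nonneg hM hθ) hK hw h.mQ h1
  rw [h.one, add_sub_cancel_left, F_add (lq.wi hw h.mQ) (h.p1.wi hw h.mP)]
  calc ‖F μ w Q + F μ w P‖ ≤ M * θ * K + M * δp :=
        (norm_add_le _ _).trans (add_le_add (norm_F_L1 (by positivity) lq)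
          (norm_F_L1 (by positivity) h.p1))
    _ ≤ M * (2 * K * θ + δp) := by nlinarith [mul_nonneg (mul_nonneg hM hθ) hK]

/-- one test function: the covariances -/
theorem WPl.cov {M M' : ℝ} {g k : ℂ → ℂ} {m : ℂ} {C : (ℂ → ℂ) → ℂ} {D : (ℂ → ℂ) → Ω → ℂ}
    {Q P : Ω → ℂ} (h : WPl y₁ y₂ a μ w K θ δp M V g m C D Q P) (hw : AEStronglyMeasurable w μ)
    (hM : 0 ≤ M) (hM' : 0 ≤ M') (hK : 0 ≤ K) (hθ : 0 ≤ θ) (hδ : 0 ≤ δp)
    (h1 : M2 μ w K (fun _ => 1) 1) (hk : TC y₁ y₂ a M' k) (mV : AEStronglyMeasurable (V k) μ)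
    (v2 : M2 μ w K (V k) M') :
    ‖F μ w (fun ω => V g ω * V k ω) - (m * F μ w (V k) + C k * F μ w (fun _ => 1))‖ ≤
      M * M' * (2 * K * θ + δp) := by
  have ld := (h.d2 _ _ hk).l1 (by positivity) hK hw (h.mD _ _ hk) h1
  have lq := h.q2.mul' (mul_nonneg hM hθ) hM' hK hw h.mQ v2
  have lp := h.p2 _ _ hk
  have e : F μ w (fun ω => (Q ω + P ω) * V k ω) = F μ w (fun ω => Q ω * V k ω) +
      F μ w (fun ω => P ω * V k ω) := by
    rw [← F_add (lq.wi hw (h.mQ.mul mV)) (lp.wi hw (h.mP.mul mV))]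
    congr 1
    funext ω
    ring
  rw [h.two _ _ hk, e]
  have e2 : m * F μ w (V k) + C k * F μ w (fun _ => 1) + F μ w (D k) +
      (F μ w (fun ω => Q ω * V k ω) + F μ w (fun ω => P ω * V k ω)) -
      (m * F μ w (V k) + C k * F μ w (fun _ => 1)) =
      F μ w (D k) + F μ w (fun ω => Q ω * V k ω) + F μ w (fun ω => P ω * V k ω) := by ring
  rw [e2]
  calc ‖F μ w (D k) + F μ w (fun ω => Q ω * V k ω) + F μ w (fun ω => P ω * V k ω)‖ ≤
      M * M' * θ * K + M * θ * M' * K + M * M' * δp :=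
        (norm_add_le _ _).trans (add_le_add ((norm_add_le _ _).trans (add_le_add
          (norm_F_L1 (by positivity) ld) (norm_F_L1 (by positivity) lq)))
          (norm_F_L1 (by positivity) lp))
    _ = _ := by ring

/-- **level two, plus channel** -/
theorem lev2_of (hy1 : y₁ < 0) (hy2 : 0 < y₂) (hw : AEStronglyMeasurable w μ) (hK : 0 ≤ K)
    (hθ : 0 ≤ θ) (hδ : 0 ≤ δp)
    (h1 : M2 μ w K (fun _ => 1) 1)
    (mV : ∀ M h, TC y₁ y₂ a M h → AEStronglyMeasurable (V h) μ)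
    (v2 : ∀ M h, TC y₁ y₂ a M h → M2 μ w K (V h) M)
    {m : (ℂ → ℂ) → ℂ} {C : (ℂ → ℂ) → (ℂ → ℂ) → ℂ}
    (hW : ∀ M g, TC y₁ y₂ a M g → mass g = 0 → ∃ (D : (ℂ → ℂ) → Ω → ℂ) (Q P : Ω → ℂ),
      WPl y₁ y₂ a μ w K θ δp M V g (m g) (C g) D Q P) :
    Lev2 y₁ y₂ a (F μ w (fun _ => 1)) (fun g => F μ w (V g))
      (fun g h => F μ w (fun ω => V g ω * V h ω)) m C (2 * K * θ + δp) where
  mean M g hg hz := by
    obtain ⟨D, Q, P, h⟩ := hW M g hg hz
    exact h.mean hw (hg.nonneg hy1 hy2) hK hθ hδ h1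
  cov M M' g k hg hz hk := by
    obtain ⟨D, Q, P, h⟩ := hW M g hg hz
    exact h.cov hw (hg.nonneg hy1 hy2) (hk.nonneg hy1 hy2) hK hθ hδ h1 hk (mV _ _ hk) (v2 _ _ hk)

end

/-- **the second Ward identity of a test function `g` (or of the step: `g = none`), minus channel**:
`Y` the observable (`V g` or `S`), insertions `V h` and `S`; the mean vanishes -/
structure WMi (y₁ y₂ a : ℝ) (μ : Measure Ω) (w : Ω → ℂ) (K θ δp M : ℝ)
    (V : (ℂ → ℂ) → Ω → ℂ) (S : Ω → ℂ) (Y : Ω → ℂ) (C : (ℂ → ℂ) → ℂ) (Cs : ℂ)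
    (D : (ℂ → ℂ) → Ω → ℂ) (Ds : Ω → ℂ) (Q P : Ω → ℂ) : Prop where
  /-- insertion `V h` -/
  two : ∀ M' h, TC y₁ y₂ a M' h → F μ w (fun ω => Y ω * V h ω) =
    C h * F μ w (fun _ => 1) + F μ w (D h) + F μ w (fun ω => (Q ω + P ω) * V h ω)
  /-- insertion `S` -/
  step : F μ w (fun ω => Y ω * S ω) =
    Cs * F μ w (fun _ => 1) + F μ w Ds + F μ w (fun ω => (Q ω + P ω) * S ω)
  mQ : AEStronglyMeasurable Q μ
  mP : AEStronglyMeasurable P μ
  q2 : M2 μ w K Q (M * θ)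
  mD : ∀ M' h, TC y₁ y₂ a M' h → AEStronglyMeasurable (D h) μ
  mDs : AEStronglyMeasurable Ds μ
  d2 : ∀ M' h, TC y₁ y₂ a M' h → M2 μ w K (D h) (M * M' * θ)
  ds2 : M2 μ w K Ds (M * θ)
  p2 : ∀ M' h, TC y₁ y₂ a M' h → L1 μ w (fun ω => P ω * V h ω) (M * M' * δp)
  ps : L1 μ w (fun ω => P ω * S ω) (M * δp)

section

variable {y₁ y₂ a K θ δp : ℝ} {w : Ω → ℂ} {V : (ℂ → ℂ) → Ω → ℂ} {S : Ω → ℂ}

theorem WMi.cov {M M' : ℝ} {Y : Ω → ℂ} {k : ℂ → ℂ} {C : (ℂ → ℂ) → ℂ} {Cs : ℂ}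
    {D : (ℂ → ℂ) → Ω → ℂ} {Ds Q P : Ω → ℂ}
    (h : WMi y₁ y₂ a μ w K θ δp M V S Y C Cs D Ds Q P) (hw : AEStronglyMeasurable w μ)
    (hM : 0 ≤ M) (hM' : 0 ≤ M') (hK : 0 ≤ K) (hθ : 0 ≤ θ) (hδ : 0 ≤ δp)
    (h1 : M2 μ w K (fun _ => 1) 1) (hk : TC y₁ y₂ a M' k) (mV : AEStronglyMeasurable (V k) μ)
    (v2 : M2 μ w K (V k) M') :
    ‖F μ w (fun ω => Y ω * V k ω) - C k * F μ w (fun _ => 1)‖ ≤
      M * M' * (2 * K * θ + δp) := by
  have ld := (h.d2 _ _ hk).l1 (by positivity) hK hw (h.mD _ _ hk) h1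
  have lq := h.q2.mul' (mul_nonneg hM hθ) hM' hK hw h.mQ v2
  have lp := h.p2 _ _ hk
  have e : F μ w (fun ω => (Q ω + P ω) * V k ω) = F μ w (fun ω => Q ω * V k ω) +
      F μ w (fun ω => P ω * V k ω) := by
    rw [← F_add (lq.wi hw (h.mQ.mul mV)) (lp.wi hw (h.mP.mul mV))]
    congr 1
    funext ω
    ring
  rw [h.two _ _ hk, e]
  have e2 : C k * F μ w (fun _ => 1) + F μ w (D k) +
      (F μ w (fun ω => Q ω * V k ω) + F μ w (fun ω => P ω * V k ω)) -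
      C k * F μ w (fun _ => 1) =
      F μ w (D k) + F μ w (fun ω => Q ω * V k ω) + F μ w (fun ω => P ω * V k ω) := by ring
  rw [e2]
  calc ‖F μ w (D k) + F μ w (fun ω => Q ω * V k ω) + F μ w (fun ω => P ω * V k ω)‖ ≤
      M * M' * θ * K + M * θ * M' * K + M * M' * δp :=
        (norm_add_le _ _).trans (add_le_add ((norm_add_le _ _).trans (add_le_add
          (norm_F_L1 (by positivity) ld) (norm_F_L1 (by positivity) lq)))
          (norm_F_L1 (by positivity) lp))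
    _ = _ := by ring

theorem WMi.covs {M : ℝ} {Y : Ω → ℂ} {C : (ℂ → ℂ) → ℂ} {Cs : ℂ}
    {D : (ℂ → ℂ) → Ω → ℂ} {Ds Q P : Ω → ℂ}
    (h : WMi y₁ y₂ a μ w K θ δp M V S Y C Cs D Ds Q P) (hw : AEStronglyMeasurable w μ)
    (hM : 0 ≤ M) (hK : 0 ≤ K) (hθ : 0 ≤ θ) (hδ : 0 ≤ δp)
    (h1 : M2 μ w K (fun _ => 1) 1) (mS : AEStronglyMeasurable S μ) (s2 : M2 μ w K S 1) :
    ‖F μ w (fun ω => Y ω * S ω) - Cs * F μ w (fun _ => 1)‖ ≤ M * (2 * K * θ + δp) := by
  have ld := h.ds2.l1 (by positivity) hK hw h.mDs h1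
  have lq := h.q2.mul' (mul_nonneg hM hθ) zero_le_one hK hw h.mQ s2
  have lp := h.ps
  have e : F μ w (fun ω => (Q ω + P ω) * S ω) = F μ w (fun ω => Q ω * S ω) +
      F μ w (fun ω => P ω * S ω) := by
    rw [← F_add (lq.wi hw (h.mQ.mul mS)) (lp.wi hw (h.mP.mul mS))]
    congr 1
    funext ω
    ring
  rw [h.step, e]
  have e2 : Cs * F μ w (fun _ => 1) + F μ w Ds +
      (F μ w (fun ω => Q ω * S ω) + F μ w (fun ω => P ω * S ω)) -
      Cs * F μ w (fun _ => 1) =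
      F μ w Ds + F μ w (fun ω => Q ω * S ω) + F μ w (fun ω => P ω * S ω) := by ring
  rw [e2]
  calc ‖F μ w Ds + F μ w (fun ω => Q ω * S ω) + F μ w (fun ω => P ω * S ω)‖ ≤
      M * θ * K + M * θ * 1 * K + M * δp :=
        (norm_add_le _ _).trans (add_le_add ((norm_add_le _ _).trans (add_le_add
          (norm_F_L1 (by positivity) ld) (norm_F_L1 (by positivity) lq)))
          (norm_F_L1 (by positivity) lp))
    _ = _ := by ring

/-- **level two, minus channel** -/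
theorem lev2m_of (hy1 : y₁ < 0) (hy2 : 0 < y₂) (hw : AEStronglyMeasurable w μ) (hK : 0 ≤ K)
    (hθ : 0 ≤ θ) (hδ : 0 ≤ δp)
    (h1 : M2 μ w K (fun _ => 1) 1)
    (mV : ∀ M h, TC y₁ y₂ a M h → AEStronglyMeasurable (V h) μ)
    (v2 : ∀ M h, TC y₁ y₂ a M h → M2 μ w K (V h) M)
    (mS : AEStronglyMeasurable S μ) (s2 : M2 μ w K S 1)
    {C : (ℂ → ℂ) → (ℂ → ℂ) → ℂ} {Cs : (ℂ → ℂ) → ℂ} {Cs' : (ℂ → ℂ) → ℂ} {Css : ℂ}
    (hW : ∀ M g, TC y₁ y₂ a M g → ∃ (D : (ℂ → ℂ) → Ω → ℂ) (Ds Q P : Ω → ℂ),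
      WMi y₁ y₂ a μ w K θ δp M V S (V g) (C g) (Cs g) D Ds Q P)
    (hS : ∃ (D : (ℂ → ℂ) → Ω → ℂ) (Ds Q P : Ω → ℂ),
      WMi y₁ y₂ a μ w K θ δp 1 V S S Cs' Css D Ds Q P) :
    Lev2m y₁ y₂ a (F μ w (fun _ => 1)) (fun g h => F μ w (fun ω => V g ω * V h ω))
      (fun g => F μ w (fun ω => V g ω * S ω)) (F μ w (fun ω => S ω * S ω)) C Cs Css
      (2 * K * θ + δp) where
  cov M M' g k hg hk := by
    obtain ⟨D, Ds, Q, P, h⟩ := hW M g hg
    exact h.cov hw (hg.nonneg hy1 hy2) (hk.nonneg hy1 hy2) hK hθ hδ h1 hk (mV _ _ hk) (v2 _ _ hk)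
  covs M g hg := by
    obtain ⟨D, Ds, Q, P, h⟩ := hW M g hg
    exact h.covs hw (hg.nonneg hy1 hy2) hK hθ hδ h1 mS s2
  covss := by
    obtain ⟨D, Ds, Q, P, h⟩ := hS
    have := h.covs hw zero_le_one hK hθ hδ h1 mS s2
    rwa [one_mul] at this

end

/-! ### linearity and Fubini for the numbers `G1`, `G2` -/

section

variable {y₁ y₂ a K : ℝ} {w : Ω → ℂ} {V : (ℂ → ℂ) → Ω → ℂ}

/-- the statistic is linear in the test function -/
def VLin (y₁ y₂ a : ℝ) (V : (ℂ → ℂ) → Ω → ℂ) : Prop :=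
  ∀ M M' g h c ω, TC y₁ y₂ a M g → TC y₁ y₂ a M' h →
    V (fun z => c * g z + h z) ω = c * V g ω + V h ω

theorem lin1_of (hy1 : y₁ < 0) (hy2 : 0 < y₂) (hw : AEStronglyMeasurable w μ) (hK : 0 ≤ K)
    (h1 : M2 μ w K (fun _ => 1) 1) (hV : VLin y₁ y₂ a V)
    (mV : ∀ M h, TC y₁ y₂ a M h → AEStronglyMeasurable (V h) μ)
    (v2 : ∀ M h, TC y₁ y₂ a M h → M2 μ w K (V h) M) :
    Lin1 y₁ y₂ a (fun g => F μ w (V g)) where
  lin M M' g h c hg hh := by
    have wi : ∀ M h, TC y₁ y₂ a M h → WI μ w (V h) := fun M h hh =>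
      ((v2 M h hh).l1 (hh.nonneg hy1 hy2) hK hw (mV M h hh) h1).wi hw (mV M h hh)
    have e : V (fun z => c * g z + h z) = fun ω => c * V g ω + V h ω := by
      funext ω
      exact hV M M' g h c ω hg hh
    show F μ w (V (fun z => c * g z + h z)) = c * F μ w (V g) + F μ w (V h)
    rw [e, F_add ((wi _ _ hg).smul c) (wi _ _ hh), F_smul]

theorem lin2_of (hy1 : y₁ < 0) (hy2 : 0 < y₂) (hw : AEStronglyMeasurable w μ) (hK : 0 ≤ K)
    (hV : VLin y₁ y₂ a V)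
    (mV : ∀ M h, TC y₁ y₂ a M h → AEStronglyMeasurable (V h) μ)
    (v2 : ∀ M h, TC y₁ y₂ a M h → M2 μ w K (V h) M) :
    Lin2 y₁ y₂ a (fun g h => F μ w (fun ω => V g ω * V h ω)) where
  lin M M' M'' g h k c hg hh hk := by
    have wi : ∀ M h, TC y₁ y₂ a M h → WI μ w (fun ω => V h ω * V k ω) := fun M h hh =>
      ((v2 M h hh).mul' (hh.nonneg hy1 hy2) (hk.nonneg hy1 hy2) hK hw (mV M h hh)
        (v2 _ _ hk)).wi hw ((mV M h hh).mul (mV _ _ hk))
    have e : (fun ω => V (fun z => c * g z + h z) ω * V k ω) =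
        fun ω => c * (V g ω * V k ω) + V h ω * V k ω := by
      funext ω
      rw [hV M M' g h c ω hg hh]
      ring
    show F μ w (fun ω => V (fun z => c * g z + h z) ω * V k ω) =
      c * F μ w (fun ω => V g ω * V k ω) + F μ w (fun ω => V h ω * V k ω)
    rw [e, F_add ((wi _ _ hg).smul c) (wi _ _ hh), F_smul]
  symm M M' g h _ _ := by
    show F μ w (fun ω => V g ω * V h ω) = F μ w (fun ω => V h ω * V g ω)
    congr 1
    funext ω
    ring

variable {T : Type*} [MeasurableSpace T] {σ : Measure T}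

/-- **Fubini**: joint integrability of the superposition -/
theorem prod_int_of [SFinite μ] [SFinite σ] {A B : T → ℂ → ℂ} {al be : T → ℝ}
    (hR : Rep y₁ y₂ a σ A B al be) (hy1 : y₁ < 0) (hy2 : 0 < y₂)
    (hw : AEStronglyMeasurable w μ) (hK : 0 ≤ K)
    (mV : ∀ M h, TC y₁ y₂ a M h → AEStronglyMeasurable (V h) μ)
    (v2 : ∀ M h, TC y₁ y₂ a M h → M2 μ w K (V h) M)
    (jA : AEStronglyMeasurable (fun p : Ω × T => V (A p.2) p.1) (μ.prod σ))
    (jB : AEStronglyMeasurable (fun p : Ω × T => V (B p.2) p.1) (μ.prod σ)) :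
    Integrable (fun p : Ω × T => w p.1 * (V (A p.2) p.1 * V (B p.2) p.1)) (μ.prod σ) := by
  have jm : AEStronglyMeasurable (fun p : Ω × T => w p.1 * (V (A p.2) p.1 * V (B p.2) p.1))
      (μ.prod σ) := hw.comp_fst.mul (jA.mul jB)
  refine ⟨jm, ?_⟩
  unfold HasFiniteIntegral
  rw [lintegral_prod_symm _ jm.enorm]
  have key : ∀ s, ∫⁻ ω, ‖w ω * (V (A s) ω * V (B s) ω)‖ₑ ∂μ ≤
      ENNReal.ofReal (al s * be s * K) := by
    intro s
    have h := (v2 _ _ (hR.tA s)).mul' ((hR.tA s).nonneg hy1 hy2) ((hR.tB s).nonneg hy1 hy2) hK hw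
      (mV _ _ (hR.tA s)) (v2 _ _ (hR.tB s))
    refine le_trans (le_of_eq ?_) h
    refine lintegral_congr fun ω => ?_
    rw [← ofReal_norm, norm_mul]
  refine lt_of_le_of_lt (lintegral_mono key) ?_
  have hi : Integrable (fun s => al s * be s * K) σ := hR.int.mul_const K
  exact hi.lintegral_lt_top

/-- the functional of the superposition, and the integrability of the numbers -/
theorem F_sup [SFinite μ] [SFinite σ] {A B : T → ℂ → ℂ} {al be : T → ℝ}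
    (hR : Rep y₁ y₂ a σ A B al be) (hy1 : y₁ < 0) (hy2 : 0 < y₂)
    (hw : AEStronglyMeasurable w μ) (hK : 0 ≤ K)
    (mV : ∀ M h, TC y₁ y₂ a M h → AEStronglyMeasurable (V h) μ)
    (v2 : ∀ M h, TC y₁ y₂ a M h → M2 μ w K (V h) M)
    (jA : AEStronglyMeasurable (fun p : Ω × T => V (A p.2) p.1) (μ.prod σ))
    (jB : AEStronglyMeasurable (fun p : Ω × T => V (B p.2) p.1) (μ.prod σ)) :
    Integrable (fun s => F μ w (fun ω => V (A s) ω * V (B s) ω)) σ ∧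
    WI μ w (fun ω => ∫ s, V (A s) ω * V (B s) ω ∂σ) ∧
    F μ w (fun ω => ∫ s, V (A s) ω * V (B s) ω ∂σ) =
      ∫ s, F μ w (fun ω => V (A s) ω * V (B s) ω) ∂σ := by
  have h := prod_int_of hR hy1 hy2 hw hK mV v2 jA jB
  refine ⟨h.integral_prod_right, ?_, F_int (a := fun s ω => V (A s) ω * V (B s) ω) h⟩
  have h2 := h.integral_prod_left
  unfold WI
  refine h2.congr (Eventually.of_forall fun ω => ?_)
  simp only []
  rw [integral_const_mul]

end

end PBE
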