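import Pool.Agent.PB.ClsMeas

/-!
# Plan B: the functional of a class: closure of the admissible insertions, Fubini (helper59)

* `ClsM`: joint measurability of the weight and of the integrand of the quanta;
* `PM`: insertions jointly measurable with a parameter; `ClsM.of` (from `ClsMeas`), `ClsM.mtrm`,
  `ClsM.mtrA`;
* `Good.of_fin`, `Good.of_le`, `Good.add`, `Good.cmul`, `Good.sum`, `FA_add_le`, `FA_cmul`;
* **`FF_integral`**: `FF (∫ Ψ s) = ∫ FF (Ψ s)`, `FA_integral_le`, `Good.integral`.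
-/

set_option autoImplicit false
set_option linter.unusedSectionVars false

noncomputable section

open Complex MeasureTheory Finset
open scoped ENNReal

namespace PBF

open NUO NUP1 NUP1S NUP1S.Ab NUP1S.AbC NUGC NUCR

variable (Z : Bool → Option O3 → ℂ → ℂ) (P : NUO.Par) (n n' : ℕ) (η η' : Crs)

/-- joint measurability of the weight and of the integrand of the quanta -/
structure ClsM : Prop where
  /-- the weight -/
  w : ∀ r : ℕ, Measurable (fun O : Fin r → Xo => wK Z P O)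
  /-- the integrand of the quanta -/
  g : ∀ r a b : ℕ, Measurable (fun p : (Fin r → Xo) × ((Fin a → ℝ) × (Fin b → ℝ)) =>
    gK (gF Z P p.1) (η r p.1) (η' r p.1) a b p.2)

/-- insertions, jointly measurable with a parameter -/
def PM {S : Type*} [MeasurableSpace S] (Ψ : S → Ins) : Prop :=
  ∀ r a b : ℕ, Measurable fun p : S × ((Fin r → Xo) × ((Fin a → ℝ) × (Fin b → ℝ))) =>
    Ψ p.1 r p.2.1 a b p.2.2

variable {Z P n n' η η'}

/-- **from the measurability of the class functions and of the curves** -/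
theorem ClsM.of (hP : ∀ r, Measurable (P.rad r)) (hZ : ∀ s k, Measurable (Z s k))
    (hc : MCr η η') : ClsM Z P η η' where
  w r := measurable_wK (hP r) hZ
  g r a b := measurable_gK (hP r) hZ (hc.m r) (hc.m' r) a b

theorem ClsM.comp (hM : ClsM Z P η η') {r a b : ℕ} {T : Type*} [MeasurableSpace T]
    {f : T → Fin r → Xo} {x : T → (Fin a → ℝ) × (Fin b → ℝ)} (hf : Measurable f)
    (hx : Measurable x) :
    Measurable fun t => gK (gF Z P (f t)) (η r (f t)) (η' r (f t)) a b (x t) := by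
  have h := (hM.g r a b).comp (hf.prodMk hx)
  exact h

theorem PM.comp {S : Type*} [MeasurableSpace S] {Ψ : S → Ins} (h : PM Ψ) {r a b : ℕ}
    {T : Type*} [MeasurableSpace T] {s : T → S}
    {f : T → Fin r → Xo} {x : T → (Fin a → ℝ) × (Fin b → ℝ)} (hs : Measurable s)
    (hf : Measurable f) (hx : Measurable x) :
    Measurable fun t => Ψ (s t) r (f t) a b (x t) := by
  have h := (h r a b).comp (hs.prodMk (hf.prodMk hx))
  exact h

theorem MIn.comp {Ψ : Ins} (h : MIn Ψ) {r a b : ℕ} {T : Type*} [MeasurableSpace T]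
    {f : T → Fin r → Xo} {x : T → (Fin a → ℝ) × (Fin b → ℝ)}
    (hf : Measurable f) (hx : Measurable x) :
    Measurable fun t => Ψ r (f t) a b (x t) := by
  have h := (h r a b).comp (hf.prodMk hx)
  exact h

theorem PM.at {S : Type*} [MeasurableSpace S] {Ψ : S → Ins} (h : PM Ψ) (s : S) : MIn (Ψ s) :=
  fun _ _ _ => h.comp (s := fun _ => s) (f := Prod.fst) (x := Prod.snd) measurable_const
    measurable_fst measurable_snd

theorem MIn.pm {Ψ : Ins} (h : MIn Ψ) {S : Type*} [MeasurableSpace S] : PM fun _ : S => Ψ :=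
  fun r a b => h.comp
    (f := fun p : S × ((Fin r → Xo) × ((Fin a → ℝ) × (Fin b → ℝ))) => p.2.1)
    (x := fun p : S × ((Fin r → Xo) × ((Fin a → ℝ) × (Fin b → ℝ))) => p.2.2)
    (measurable_fst.comp measurable_snd) (measurable_snd.comp measurable_snd)

theorem MIn.cmul {Ψ : Ins} (c : ℂ) (h : MIn Ψ) : MIn (fun r O a b x => c * Ψ r O a b x) :=
  fun r a b => (h r a b).const_mul c

theorem MIn.sum {T : Type*} {Ψ : T → Ins} (s : Finset T) (h : ∀ i ∈ s, MIn (Ψ i)) :
    MIn (fun r O a b x => ∑ i ∈ s, Ψ i r O a b x) := fun r a b =>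
  Finset.measurable_sum s fun i hi => h i hi r a b

/-! ### measurability of the terms -/

section meas

variable {S : Type*} [MeasurableSpace S]

/-- the integral of the quanta for given numbers -/
theorem ClsM.minner (hM : ClsM Z P η η') {Ψ : S → Ins} (hΨ : PM Ψ) (r a b : ℕ) :
    Measurable fun p : S × (Fin r → Xo) =>
      ∫ x, gK (gF Z P p.2) (η r p.2) (η' r p.2) a b x * Ψ p.1 r p.2 a b x := by
  have h1 : Measurable fun q : (S × (Fin r → Xo)) × ((Fin a → ℝ) × (Fin b → ℝ)) =>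
      gK (gF Z P q.1.2) (η r q.1.2) (η' r q.1.2) a b q.2 * Ψ q.1.1 r q.1.2 a b q.2 := by
    refine Measurable.fun_mul ?_ ?_
    · exact hM.comp (f := fun q : (S × (Fin r → Xo)) × ((Fin a → ℝ) × (Fin b → ℝ)) => q.1.2)
        (x := fun q => q.2) (measurable_snd.comp measurable_fst) measurable_snd
    · exact hΨ.comp (s := fun q : (S × (Fin r → Xo)) × ((Fin a → ℝ) × (Fin b → ℝ)) => q.1.1)
        (f := fun q => q.1.2) (x := fun q => q.2)
        (measurable_fst.comp measurable_fst) (measurable_snd.comp measurable_fst) measurable_snd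
  exact (h1.stronglyMeasurable.integral_prod_right'
    (ν := (volume : Measure ((Fin a → ℝ) × (Fin b → ℝ))))).measurable

theorem ClsM.minnerA (hM : ClsM Z P η η') {Ψ : S → Ins} (hΨ : PM Ψ) (r a b : ℕ) :
    Measurable fun p : S × (Fin r → Xo) =>
      ∫⁻ x, ‖gK (gF Z P p.2) (η r p.2) (η' r p.2) a b x‖ₑ * ‖Ψ p.1 r p.2 a b x‖ₑ := by
  have h1 : Measurable fun q : (S × (Fin r → Xo)) × ((Fin a → ℝ) × (Fin b → ℝ)) =>
      ‖gK (gF Z P q.1.2) (η r q.1.2) (η' r q.1.2) a b q.2‖ₑ * ‖Ψ q.1.1 r q.1.2 a b q.2‖ₑ := by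
    refine Measurable.fun_mul ?_ ?_
    · exact (hM.comp (f := fun q : (S × (Fin r → Xo)) × ((Fin a → ℝ) × (Fin b → ℝ)) => q.1.2)
        (x := fun q => q.2) (measurable_snd.comp measurable_fst) measurable_snd).enorm
    · exact (hΨ.comp (s := fun q : (S × (Fin r → Xo)) × ((Fin a → ℝ) × (Fin b → ℝ)) => q.1.1)
        (f := fun q => q.1.2) (x := fun q => q.2)
        (measurable_fst.comp measurable_fst) (measurable_snd.comp measurable_fst)
        measurable_snd).enorm
  exact h1.lintegral_prod_right' (ν := (volume : Measure ((Fin a → ℝ) × (Fin b → ℝ))))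

/-- a function of the configuration depending on the charges -/
theorem measurable_chg {r : ℕ} {β : Type*} [MeasurableSpace β] {f : ℕ → ℕ → S × (Fin r → Xo) → β}
    (h : ∀ c c', Measurable (f c c')) :
    Measurable fun p : S × (Fin r → Xo) => f (chgO p.2 true) (chgO p.2 false) p := by
  have h1 : Measurable fun q : (ℕ × ℕ) × (S × (Fin r → Xo)) => f q.1.1 q.1.2 q.2 :=
    measurable_from_prod_countable_right fun c => h c.1 c.2
  have h2 : Measurable fun p : S × (Fin r → Xo) => ((chgO p.2 true, chgO p.2 false), p) :=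
    (((measurable_chgO true).comp measurable_snd).prodMk
      ((measurable_chgO false).comp measurable_snd)).prodMk measurable_id
  exact h1.comp h2

theorem ClsM.mtrm (hM : ClsM Z P η η') {Ψ : S → Ins} (hΨ : PM Ψ) (r : ℕ) :
    Measurable fun p : S × (Fin r → Xo) => trm Z P n n' η η' (Ψ p.1) r p.2 := by
  refine measurable_chg (f := fun c c' p => if c ≤ n ∧ c' ≤ n' then
    wK Z P p.2 * ((((n - c).factorial : ℂ) * (n' - c').factorial)⁻¹ *
      ∫ x, gK (gF Z P p.2) (η r p.2) (η' r p.2) (n - c) (n' - c') x *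
        Ψ p.1 r p.2 (n - c) (n' - c') x) else 0) fun c c' => ?_
  by_cases hc : c ≤ n ∧ c' ≤ n'
  · simp only [if_pos hc]
    exact ((hM.w r).comp measurable_snd).mul
      ((hM.minner hΨ r (n - c) (n' - c')).const_mul _)
  · simp only [if_neg hc]
    exact measurable_const

theorem ClsM.mtrA (hM : ClsM Z P η η') {Ψ : S → Ins} (hΨ : PM Ψ) (r : ℕ) :
    Measurable fun p : S × (Fin r → Xo) => trA Z P n n' η η' (Ψ p.1) r p.2 := by
  refine measurable_chg (f := fun c c' p => if c ≤ n ∧ c' ≤ n' then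
    ‖wK Z P p.2‖ₑ * ((((n - c).factorial : ℝ≥0∞) * (n' - c').factorial)⁻¹ *
      ∫⁻ x, ‖gK (gF Z P p.2) (η r p.2) (η' r p.2) (n - c) (n' - c') x‖ₑ *
        ‖Ψ p.1 r p.2 (n - c) (n' - c') x‖ₑ) else 0) fun c c' => ?_
  by_cases hc : c ≤ n ∧ c' ≤ n'
  · simp only [if_pos hc]
    exact ((hM.w r).comp measurable_snd).enorm.mul
      ((hM.minnerA hΨ r (n - c) (n' - c')).const_mul _)
  · simp only [if_neg hc]
    exact measurable_const

theorem ClsM.mtrm1 (hM : ClsM Z P η η') {Ψ : Ins} (hΨ : MIn Ψ) (r : ℕ) :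
    Measurable fun O : Fin r → Xo => trm Z P n n' η η' Ψ r O := by
  have h1 := (ClsM.mtrm (n := n) (n' := n') hM (hΨ.pm (S := Unit)) r).comp
    ((measurable_const (a := ())).prodMk (measurable_id (α := Fin r → Xo)))
  exact h1

theorem ClsM.mtrA1 (hM : ClsM Z P η η') {Ψ : Ins} (hΨ : MIn Ψ) (r : ℕ) :
    Measurable fun O : Fin r → Xo => trA Z P n n' η η' Ψ r O := by
  have h1 := (ClsM.mtrA (n := n) (n' := n') hM (hΨ.pm (S := Unit)) r).comp
    ((measurable_const (a := ())).prodMk (measurable_id (α := Fin r → Xo)))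
  exact h1

end meas

/-! ### admissible insertions -/

/-- **a measurable insertion with finite `FA` is admissible** -/
theorem Good.of_fin (hM : ClsM Z P η η') {Ψ : Ins} (hΨ : MIn Ψ)
    (h : FA Z P n n' η η' Ψ < ∞) : Good Z P n n' η η' Ψ where
  mi r O := by
    have h1 := hM.comp (a := n - chgO O true) (b := n' - chgO O false) (f := fun _ => O)
      (x := fun x => x) measurable_const measurable_id
    have h2 := hΨ.comp (a := n - chgO O true) (b := n' - chgO O false) (f := fun _ => O)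
      (x := fun x => x) measurable_const measurable_id
    exact (h1.mul h2).aestronglyMeasurable
  mo r := (hM.mtrm1 hΨ r).aestronglyMeasurable
  fin := h
  ma r := (hM.mtrA1 hΨ r).aemeasurable

/-- domination -/
theorem Good.of_le (hM : ClsM Z P η η') {Ψ Ψ' : Ins} (hΨ : MIn Ψ)
    (hl : ∀ r O a b x, ‖Ψ r O a b x‖ₑ ≤ ‖Ψ' r O a b x‖ₑ) (h : FA Z P n n' η η' Ψ' < ∞) :
    Good Z P n n' η η' Ψ :=
  Good.of_fin hM hΨ ((FA_mono hl).trans_lt h)

theorem trA_cmul (c : ℂ) (Ψ : Ins) (r : ℕ) (O : Fin r → Xo) :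
    trA Z P n n' η η' (fun r O a b x => c * Ψ r O a b x) r O = ‖c‖ₑ * trA Z P n n' η η' Ψ r O := by
  unfold trA
  split_ifs
  · have e : ∀ x, ‖gK (gF Z P O) (η r O) (η' r O) (n - chgO O true) (n' - chgO O false) x‖ₑ *
        ‖c * Ψ r O (n - chgO O true) (n' - chgO O false) x‖ₑ =
        ‖c‖ₑ * (‖gK (gF Z P O) (η r O) (η' r O) (n - chgO O true) (n' - chgO O false) x‖ₑ *
        ‖Ψ r O (n - chgO O true) (n' - chgO O false) x‖ₑ) := fun x => by
      rw [enorm_mul]
      ring
    simp only [e]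
    rw [lintegral_const_mul' _ _ enorm_ne_top]
    ring
  · rw [mul_zero]

theorem FA_cmul (c : ℂ) (Ψ : Ins) :
    FA Z P n n' η η' (fun r O a b x => c * Ψ r O a b x) = ‖c‖ₑ * FA Z P n n' η η' Ψ := by
  unfold FA
  simp only [trA_cmul]
  rw [Finset.mul_sum]
  refine Finset.sum_congr rfl fun r _ => ?_
  rw [lintegral_const_mul' _ _ enorm_ne_top]
  ring

theorem FA_add_le (hM : ClsM Z P η η') {Ψ Ψ' : Ins} (h : MIn Ψ) :
    FA Z P n n' η η' (Ψ + Ψ') ≤ FA Z P n n' η η' Ψ + FA Z P n n' η η' Ψ' := by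
  unfold FA
  rw [← Finset.sum_add_distrib]
  refine Finset.sum_le_sum fun r _ => ?_
  rw [← mul_add, ← lintegral_add_left (hM.mtrA1 h r)]
  refine mul_le_mul' le_rfl (lintegral_mono fun O => ?_)
  refine trA_add_le Ψ Ψ' O ?_
  have h1 := hM.comp (a := n - chgO O true) (b := n' - chgO O false) (f := fun _ => O)
    (x := fun x => x) measurable_const measurable_id
  have h2 := h.comp (a := n - chgO O true) (b := n' - chgO O false) (f := fun _ => O)
    (x := fun x => x) measurable_const measurable_id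
  exact (h1.mul h2).aestronglyMeasurable

theorem Good.add (hM : ClsM Z P η η') {Ψ Ψ' : Ins} (h : MIn Ψ) (h' : MIn Ψ')
    (hf : FA Z P n n' η η' Ψ < ∞) (hf' : FA Z P n n' η η' Ψ' < ∞) :
    Good Z P n n' η η' (Ψ + Ψ') :=
  Good.of_fin hM (h.add h') ((FA_add_le hM h).trans_lt (ENNReal.add_lt_top.2 ⟨hf, hf'⟩))

theorem Good.cmul (hM : ClsM Z P η η') (c : ℂ) {Ψ : Ins} (h : MIn Ψ)
    (hf : FA Z P n n' η η' Ψ < ∞) :
    Good Z P n n' η η' (fun r O a b x => c * Ψ r O a b x) :=
  Good.of_fin hM (h.cmul c) (by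
    rw [FA_cmul]
    exact ENNReal.mul_lt_top enorm_lt_top hf)

/-- a bounded factor -/
theorem FA_mul_le {Ψ Φ : Ins} {B : ℝ} (hB : ∀ r O a b x, ‖Φ r O a b x‖ ≤ B) :
    FA Z P n n' η η' (fun r O a b x => Φ r O a b x * Ψ r O a b x) ≤
      ENNReal.ofReal B * FA Z P n n' η η' Ψ := by
  have h1 : FA Z P n n' η η' (fun r O a b x => Φ r O a b x * Ψ r O a b x) ≤
      FA Z P n n' η η' (fun r O a b x => ((B : ℝ) : ℂ) * Ψ r O a b x) := by
    refine FA_mono fun r O a b x => ?_
    have hB0 : 0 ≤ B := (norm_nonneg _).trans (hB r O a b x)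
    rw [enorm_mul, enorm_mul]
    refine mul_le_mul' ?_ le_rfl
    rw [← ofReal_norm, ← ofReal_norm, norm_real, Real.norm_of_nonneg hB0]
    exact ENNReal.ofReal_le_ofReal (hB r O a b x)
  refine h1.trans ?_
  rw [FA_cmul]
  refine mul_le_mul' ?_ le_rfl
  rw [← ofReal_norm, norm_real]
  rcases le_or_gt 0 B with h | h
  · rw [Real.norm_of_nonneg h]
  · exact absurd ((norm_nonneg _).trans (hB 0 Fin.elim0 0 0 (0, 0))) (not_le.2 h)

theorem Good.mul_bdd (hM : ClsM Z P η η') {Ψ Φ : Ins} (h : MIn Ψ) (h' : MIn Φ) {B : ℝ}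
    (hB : ∀ r O a b x, ‖Φ r O a b x‖ ≤ B) (hf : FA Z P n n' η η' Ψ < ∞) :
    Good Z P n n' η η' (fun r O a b x => Φ r O a b x * Ψ r O a b x) :=
  Good.of_fin hM (h'.mul h) ((FA_mul_le hB).trans_lt
    (ENNReal.mul_lt_top ENNReal.ofReal_lt_top hf))

theorem FA_zero : FA Z P n n' η η' (fun _ _ _ _ _ => 0) = 0 := by
  have := FA_cmul (Z := Z) (P := P) (n := n) (n' := n') (η := η) (η' := η') 0 (fun _ _ _ _ _ => 0)
  simpa using this

theorem FA_sum_le {T : Type*} (hM : ClsM Z P η η') {Ψ : T → Ins} (s : Finset T)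
    (h : ∀ i ∈ s, MIn (Ψ i)) :
    FA Z P n n' η η' (fun r O a b x => ∑ i ∈ s, Ψ i r O a b x) ≤
      ∑ i ∈ s, FA Z P n n' η η' (Ψ i) := by
  classical
  induction s using Finset.induction_on with
  | empty =>
    simp only [Finset.sum_empty]
    exact FA_zero.le
  | insert i s hi ih =>
    have e : (fun (r : ℕ) (O : Fin r → Xo) (a b : ℕ) (x : (Fin a → ℝ) × (Fin b → ℝ)) =>
        ∑ i ∈ insert i s, Ψ i r O a b x) =
        (Ψ i) + fun r O a b x => ∑ i ∈ s, Ψ i r O a b x := by
      funext r O a b x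
      rw [Finset.sum_insert hi]
      rfl
    rw [e, Finset.sum_insert hi]
    exact (FA_add_le hM (h i (Finset.mem_insert_self _ _))).trans
      (add_le_add_right (ih fun j hj => h j (Finset.mem_insert_of_mem hj)) _)

/-- **finite sums** -/
theorem FF_sum {T : Type*} (hM : ClsM Z P η η') {Ψ : T → Ins} (s : Finset T)
    (h : ∀ i ∈ s, MIn (Ψ i)) (hf : ∀ i ∈ s, FA Z P n n' η η' (Ψ i) < ∞) :
    FF Z P n n' η η' (fun r O a b x => ∑ i ∈ s, Ψ i r O a b x) =
      ∑ i ∈ s, FF Z P n n' η η' (Ψ i) := by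
  classical
  induction s using Finset.induction_on with
  | empty =>
    simp only [Finset.sum_empty]
    have := FF_cmul (Z := Z) (P := P) (n := n) (n' := n') (η := η) (η' := η') 0
      (fun _ _ _ _ _ => 0)
    simpa using this
  | insert i s hi ih =>
    have e : (fun (r : ℕ) (O : Fin r → Xo) (a b : ℕ) (x : (Fin a → ℝ) × (Fin b → ℝ)) =>
        ∑ i ∈ insert i s, Ψ i r O a b x) =
        (Ψ i) + fun r O a b x => ∑ i ∈ s, Ψ i r O a b x := by
      funext r O a b x
      rw [Finset.sum_insert hi]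
      rfl
    have h1 : ∀ j ∈ s, MIn (Ψ j) := fun j hj => h j (Finset.mem_insert_of_mem hj)
    have h2 : ∀ j ∈ s, FA Z P n n' η η' (Ψ j) < ∞ := fun j hj => hf j (Finset.mem_insert_of_mem hj)
    rw [e, Finset.sum_insert hi, FF_add, ih h1 h2]
    · exact Good.of_fin hM (h i (Finset.mem_insert_self _ _)) (hf i (Finset.mem_insert_self _ _))
    · refine Good.of_fin hM (MIn.sum s h1) ((FA_sum_le hM s h1).trans_lt ?_)
      exact ENNReal.sum_lt_top.2 h2

/-! ### integrals over a parameter -/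

section fubini

variable {S : Type*} [MeasurableSpace S] {μ : Measure S} [SFinite μ]

/-- the insertion integrated over the parameter -/
def InI (μ : Measure S) (Ψ : S → Ins) : Ins := fun r O a b x => ∫ s, Ψ s r O a b x ∂μ

theorem MIn.integral {Ψ : S → Ins} (h : PM Ψ) : MIn (InI μ Ψ) := by
  intro r a b
  unfold InI
  have h1 : Measurable fun q : ((Fin r → Xo) × ((Fin a → ℝ) × (Fin b → ℝ))) × S =>
      Ψ q.2 r q.1.1 a b q.1.2 :=
    h.comp (s := fun q : ((Fin r → Xo) × ((Fin a → ℝ) × (Fin b → ℝ))) × S => q.2)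
      (f := fun q => q.1.1) (x := fun q => q.1.2) measurable_snd
      (measurable_fst.comp measurable_fst) (measurable_snd.comp measurable_fst)
  exact (h1.stronglyMeasurable.integral_prod_right' (ν := μ)).measurable

/-- Tonelli for one configuration -/
theorem trA_integral_le (hM : ClsM Z P η η') {Ψ : S → Ins} (h : PM Ψ) (r : ℕ) (O : Fin r → Xo) :
    trA Z P n n' η η' (InI μ Ψ) r O ≤ ∫⁻ s, trA Z P n n' η η' (Ψ s) r O ∂μ := by
  unfold trA
  by_cases hc : chgO O true ≤ n ∧ chgO O false ≤ n'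
  swap
  · simp only [if_neg hc]
    exact zero_le
  simp only [if_pos hc]
  set a := n - chgO O true
  set b := n' - chgO O false
  have m1 : Measurable fun q : S × ((Fin a → ℝ) × (Fin b → ℝ)) =>
      ‖gK (gF Z P O) (η r O) (η' r O) a b q.2‖ₑ * ‖Ψ q.1 r O a b q.2‖ₑ := by
    refine Measurable.fun_mul ?_ ?_
    · exact (hM.comp (f := fun _ : S × ((Fin a → ℝ) × (Fin b → ℝ)) => O) (x := fun q => q.2)
        measurable_const measurable_snd).enorm
    · exact (h.comp (s := fun q : S × ((Fin a → ℝ) × (Fin b → ℝ)) => q.1) (f := fun _ => O)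
        (x := fun q => q.2) measurable_fst measurable_const measurable_snd).enorm
  have m2 : Measurable fun s : S => ∫⁻ x, ‖gK (gF Z P O) (η r O) (η' r O) a b x‖ₑ *
      ‖Ψ s r O a b x‖ₑ :=
    m1.lintegral_prod_right' (ν := (volume : Measure ((Fin a → ℝ) × (Fin b → ℝ))))
  rw [lintegral_const_mul _ (m2.const_mul _), lintegral_const_mul _ m2]
  refine mul_le_mul' le_rfl (mul_le_mul' le_rfl ?_)
  rw [lintegral_lintegral_swap m1.aemeasurable]
  refine lintegral_mono fun x => ?_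
  have m3 : Measurable fun s : S => ‖Ψ s r O a b x‖ₑ :=
    (h.comp (s := fun s => s) (f := fun _ => O) (x := fun _ => x) measurable_id
      measurable_const measurable_const).enorm
  rw [lintegral_const_mul _ m3]
  exact mul_le_mul' le_rfl (enorm_integral_le_lintegral_enorm _)

theorem FA_integral_le (hM : ClsM Z P η η') {Ψ : S → Ins} (h : PM Ψ) :
    FA Z P n n' η η' (InI μ Ψ) ≤ ∫⁻ s, FA Z P n n' η η' (Ψ s) ∂μ := by
  unfold FA
  have m : ∀ r : ℕ, Measurable fun s : S =>
      ∫⁻ O : Fin r → Xo, trA Z P n n' η η' (Ψ s) r O ∂(Measure.pi fun _ => nu) := fun r =>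
    (hM.mtrA h r).lintegral_prod_right' (ν := (Measure.pi fun _ => nu))
  rw [lintegral_finsetSum _ fun r _ => (m r).const_mul _]
  refine Finset.sum_le_sum fun r _ => ?_
  rw [lintegral_const_mul _ (m r)]
  refine mul_le_mul' le_rfl ?_
  rw [lintegral_lintegral_swap (hM.mtrA h r).aemeasurable]
  exact lintegral_mono fun O => trA_integral_le hM h r O

theorem Good.integral (hM : ClsM Z P η η') {Ψ : S → Ins} (h : PM Ψ)
    (hf : ∫⁻ s, FA Z P n n' η η' (Ψ s) ∂μ < ∞) : Good Z P n n' η η' (InI μ Ψ) :=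
  Good.of_fin hM (MIn.integral h) ((FA_integral_le hM h).trans_lt hf)

theorem lint_trA_lt (hM : ClsM Z P η η') {Ψ : S → Ins} (h : PM Ψ)
    (hf : ∫⁻ s, FA Z P n n' η η' (Ψ s) ∂μ < ∞) {r : ℕ} (hr : r ≤ n + n') :
    ∫⁻ s, ∫⁻ O : Fin r → Xo, trA Z P n n' η η' (Ψ s) r O ∂(Measure.pi fun _ => nu) ∂μ < ∞ := by
  have m : Measurable fun s : S =>
      ∫⁻ O : Fin r → Xo, trA Z P n n' η η' (Ψ s) r O ∂(Measure.pi fun _ => nu) :=
    (hM.mtrA h r).lintegral_prod_right' (ν := (Measure.pi fun _ => nu))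
  have h1 : ∫⁻ s, ((r.factorial : ℕ) : ℝ≥0∞)⁻¹ *
      ∫⁻ O : Fin r → Xo, trA Z P n n' η η' (Ψ s) r O ∂(Measure.pi fun _ => nu) ∂μ < ∞ := by
    refine lt_of_le_of_lt (lintegral_mono fun s => ?_) hf
    unfold FA
    exact Finset.single_le_sum (f := fun r => ((r.factorial : ℕ) : ℝ≥0∞)⁻¹ *
      ∫⁻ O : Fin r → Xo, trA Z P n n' η η' (Ψ s) r O ∂(Measure.pi fun _ => nu))
      (fun _ _ => zero_le) (Finset.mem_range.2 (by omega))
  rw [lintegral_const_mul _ m] at h1
  by_contra hc
  rw [not_lt, top_le_iff] at hc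
  rw [hc, ENNReal.mul_top] at h1
  · exact lt_irrefl _ h1
  · exact ENNReal.inv_ne_zero.2 (ENNReal.natCast_ne_top _)

/-- Fubini for one configuration -/
theorem trm_integral (hM : ClsM Z P η η') {Ψ : S → Ins} (h : PM Ψ) {r : ℕ} {O : Fin r → Xo}
    (hO : ∫⁻ s, trA Z P n n' η η' (Ψ s) r O ∂μ < ∞) :
    trm Z P n n' η η' (InI μ Ψ) r O = ∫ s, trm Z P n n' η η' (Ψ s) r O ∂μ := by
  unfold trm
  unfold trA at hO
  by_cases hc : chgO O true ≤ n ∧ chgO O false ≤ n'
  swap
  · simp only [if_neg hc, integral_zero]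
  simp only [if_pos hc] at hO ⊢
  set a := n - chgO O true
  set b := n' - chgO O false
  by_cases hw : wK Z P O = 0
  · simp only [hw, zero_mul, integral_zero]
  have m1 : Measurable fun q : S × ((Fin a → ℝ) × (Fin b → ℝ)) =>
      gK (gF Z P O) (η r O) (η' r O) a b q.2 * Ψ q.1 r O a b q.2 := by
    refine Measurable.fun_mul ?_ ?_
    · exact hM.comp (f := fun _ : S × ((Fin a → ℝ) × (Fin b → ℝ)) => O) (x := fun q => q.2)
        measurable_const measurable_snd
    · exact h.comp (s := fun q : S × ((Fin a → ℝ) × (Fin b → ℝ)) => q.1) (f := fun _ => O)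
        (x := fun q => q.2) measurable_fst measurable_const measurable_snd
  have m1' : Measurable fun q : S × ((Fin a → ℝ) × (Fin b → ℝ)) =>
      ‖gK (gF Z P O) (η r O) (η' r O) a b q.2‖ₑ * ‖Ψ q.1 r O a b q.2‖ₑ := by
    refine Measurable.fun_mul ?_ ?_
    · exact (hM.comp (f := fun _ : S × ((Fin a → ℝ) × (Fin b → ℝ)) => O) (x := fun q => q.2)
        measurable_const measurable_snd).enorm
    · exact (h.comp (s := fun q : S × ((Fin a → ℝ) × (Fin b → ℝ)) => q.1) (f := fun _ => O)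
        (x := fun q => q.2) measurable_fst measurable_const measurable_snd).enorm
  have m2 : Measurable fun s : S => ∫⁻ x, ‖gK (gF Z P O) (η r O) (η' r O) a b x‖ₑ *
      ‖Ψ s r O a b x‖ₑ :=
    m1'.lintegral_prod_right' (ν := (volume : Measure ((Fin a → ℝ) × (Fin b → ℝ))))
  rw [lintegral_const_mul _ (m2.const_mul _), lintegral_const_mul _ m2] at hO
  have hfin : ∫⁻ s, (∫⁻ x, ‖gK (gF Z P O) (η r O) (η' r O) a b x‖ₑ * ‖Ψ s r O a b x‖ₑ) ∂μ < ∞ := by
    by_contra hc'
    rw [not_lt, top_le_iff] at hc'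
    rw [hc', ENNReal.mul_top, ENNReal.mul_top] at hO
    · exact lt_irrefl _ hO
    · exact enorm_ne_zero.2 hw
    · refine ENNReal.inv_ne_zero.2 (ENNReal.mul_ne_top ?_ ?_)
      · exact ENNReal.natCast_ne_top _
      · exact ENNReal.natCast_ne_top _
  have hint : Integrable (fun q : S × ((Fin a → ℝ) × (Fin b → ℝ)) =>
      gK (gF Z P O) (η r O) (η' r O) a b q.2 * Ψ q.1 r O a b q.2) (μ.prod volume) := by
    refine ⟨m1.aestronglyMeasurable, ?_⟩
    show (∫⁻ q, ‖gK (gF Z P O) (η r O) (η' r O) a b q.2 * Ψ q.1 r O a b q.2‖ₑ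
      ∂(μ.prod volume)) < ∞
    rw [lintegral_prod _ m1.enorm.aemeasurable]
    simpa only [enorm_mul] using hfin
  rw [integral_const_mul, integral_const_mul]
  congr 2
  have e1 : ∀ x, gK (gF Z P O) (η r O) (η' r O) a b x * InI μ Ψ r O a b x =
      ∫ s, gK (gF Z P O) (η r O) (η' r O) a b x * Ψ s r O a b x ∂μ := fun x => by
    unfold InI
    rw [integral_const_mul]
  simp only [e1]
  exact (integral_integral_swap (f := fun s x => gK (gF Z P O) (η r O) (η' r O) a b x *
    Ψ s r O a b x) hint).symm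

/-- **Fubini**: the functional of an insertion integrated over a parameter -/
theorem FF_integral (hM : ClsM Z P η η') {Ψ : S → Ins} (h : PM Ψ)
    (hf : ∫⁻ s, FA Z P n n' η η' (Ψ s) ∂μ < ∞) :
    Integrable (fun s => FF Z P n n' η η' (Ψ s)) μ ∧
    FF Z P n n' η η' (fun r O a b x => ∫ s, Ψ s r O a b x ∂μ) =
      ∫ s, FF Z P n n' η η' (Ψ s) ∂μ := by
  have hprod : ∀ r ≤ n + n', Integrable (fun q : S × (Fin r → Xo) =>
      trm Z P n n' η η' (Ψ q.1) r q.2) (μ.prod (Measure.pi fun _ => nu)) := by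
    intro r hr
    refine ⟨(hM.mtrm h r).aestronglyMeasurable, ?_⟩
    show (∫⁻ q : S × (Fin r → Xo), ‖trm Z P n n' η η' (Ψ q.1) r q.2‖ₑ
      ∂(μ.prod (Measure.pi fun _ => nu))) < ∞
    rw [lintegral_prod _ (hM.mtrm h r).enorm.aemeasurable]
    refine lt_of_le_of_lt (lintegral_mono fun s => lintegral_mono fun O => ?_)
      (lint_trA_lt hM h hf hr)
    exact trm_le _ _ _
  have hs : ∀ r ≤ n + n', Integrable (fun s : S =>
      ∫ O : Fin r → Xo, trm Z P n n' η η' (Ψ s) r O ∂(Measure.pi fun _ => nu)) μ :=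
    fun r hr => (hprod r hr).integral_prod_left
  have hs' : ∀ r ∈ range (n + n' + 1), Integrable (fun s : S => ((r.factorial : ℕ) : ℂ)⁻¹ *
      ∫ O : Fin r → Xo, trm Z P n n' η η' (Ψ s) r O ∂(Measure.pi fun _ => nu)) μ := by
    intro r hr
    have := Finset.mem_range.1 hr
    exact (hs r (by omega)).const_mul _
  refine ⟨?_, ?_⟩
  · unfold FF
    exact integrable_finsetSum _ hs'
  unfold FF
  rw [integral_finsetSum _ hs']
  refine Finset.sum_congr rfl fun r hr => ?_
  have hr' : r ≤ n + n' := by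
    have := Finset.mem_range.1 hr
    omega
  rw [integral_const_mul]
  congr 1
  rw [integral_integral_swap (f := fun s (O : Fin r → Xo) => trm Z P n n' η η' (Ψ s) r O)
    (hprod r hr')]
  refine integral_congr_ae ?_
  have hae : ∀ᵐ O : Fin r → Xo ∂(Measure.pi fun _ => nu),
      ∫⁻ s, trA Z P n n' η η' (Ψ s) r O ∂μ < ∞ := by
    have m := (ClsM.mtrA (n := n) (n' := n') hM h r)
    have m' : Measurable fun O : Fin r → Xo => ∫⁻ s, trA Z P n n' η η' (Ψ s) r O ∂μ :=
      m.lintegral_prod_left' (μ := μ)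
    refine ae_lt_top m' ?_
    rw [← lintegral_lintegral_swap m.aemeasurable]
    exact (lint_trA_lt hM h hf hr').ne
  filter_upwards [hae] with O hO
  exact trm_integral hM h hO

end fubini

end PBF

end
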