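import Pool.Agent.PB.Func2

/-!
# Finitely many measure spaces as one measure space

`sig μ` : the measure on `Σ i, X i` which is `μ i` on the `i`-th piece.

* `meas_sig` : a function on `Σ i, X i` is measurable iff all its pieces are;
* `lintegral_sig`, `integral_sig`, `integrable_sig`, `aesm_sig`; `sig` is s-finite.
-/

set_option autoImplicit false
set_option linter.unusedSectionVars false

open MeasureTheory Set
open scoped ENNReal

noncomputable section

namespace PBFunc

variable {I : Type*} [Fintype I] {X : I → Type*} [∀ i, MeasurableSpace (X i)]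

theorem meas_sig {β : Type*} [MeasurableSpace β] {f : (Σ i, X i) → β} :
    Measurable f ↔ ∀ i, Measurable fun x => f ⟨i, x⟩ := by
  constructor
  · intro h i
    refine h.comp ?_
    intro s hs
    rw [MeasurableSpace.measurableSet_iInf] at hs
    exact hs i
  · intro h s hs
    refine MeasurableSpace.measurableSet_iInf.2 fun i => ?_
    exact h i hs

theorem measurable_mk (i : I) : Measurable (Sigma.mk i : X i → Σ i, X i) :=
  (meas_sig.1 measurable_id) i

theorem emb_mk (i : I) : MeasurableEmbedding (Sigma.mk i : X i → Σ i, X i) where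
  injective := sigma_mk_injective
  measurable := measurable_mk i
  measurableSet_image' := by
    intro s hs
    refine MeasurableSpace.measurableSet_iInf.2 fun j => ?_
    show MeasurableSet (Sigma.mk j ⁻¹' (Sigma.mk i '' s))
    by_cases h : j = i
    · subst h
      rw [preimage_image_eq _ sigma_mk_injective]
      exact hs
    · have : Sigma.mk j ⁻¹' (Sigma.mk i '' s) = (∅ : Set (X j)) := by
        ext x
        simp only [mem_preimage, mem_image, mem_empty_iff_false, iff_false, not_exists, not_and]
        intro y _ hy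
        exact h (congrArg Sigma.fst hy).symm
      rw [this]
      exact MeasurableSet.empty

/-- the measure `μ i` on the piece `i` -/
def sig (μ : ∀ i, Measure (X i)) : Measure (Σ i, X i) := ∑ i, (μ i).map (Sigma.mk i)

variable {μ : ∀ i, Measure (X i)}

instance [∀ i, SFinite (μ i)] : SFinite (sig μ) := by
  unfold sig
  rw [← Measure.sum_fintype]
  infer_instance

theorem lintegral_sig (f : (Σ i, X i) → ℝ≥0∞) :
    ∫⁻ x, f x ∂(sig μ) = ∑ i, ∫⁻ x, f ⟨i, x⟩ ∂(μ i) := by
  unfold sig
  rw [lintegral_finsetSum_measure]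
  exact Finset.sum_congr rfl fun i _ => (emb_mk i).lintegral_map _

theorem aesm_sig {f : (Σ i, X i) → ℂ} :
    AEStronglyMeasurable f (sig μ) ↔ ∀ i, AEStronglyMeasurable (fun x => f ⟨i, x⟩) (μ i) := by
  unfold sig
  rw [← Measure.sum_fintype, aestronglyMeasurable_sum_measure_iff]
  exact forall_congr' fun i => (emb_mk i).aestronglyMeasurable_map_iff

theorem integrable_sig {f : (Σ i, X i) → ℂ} :
    Integrable f (sig μ) ↔ ∀ i, Integrable (fun x => f ⟨i, x⟩) (μ i) := by
  unfold sig
  rw [integrable_finsetSum_measure]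
  constructor
  · intro h i
    exact (emb_mk i).integrable_map_iff.1 (h i (Finset.mem_univ i))
  · intro h i _
    exact (emb_mk i).integrable_map_iff.2 (h i)

theorem integral_sig {f : (Σ i, X i) → ℂ} (h : ∀ i, Integrable (fun x => f ⟨i, x⟩) (μ i)) :
    ∫ x, f x ∂(sig μ) = ∑ i, ∫ x, f ⟨i, x⟩ ∂(μ i) := by
  unfold sig
  rw [integral_finsetSum_measure fun i _ => (emb_mk i).integrable_map_iff.2 (h i)]
  exact Finset.sum_congr rfl fun i _ => (emb_mk i).integral_map _

/-- the functional on the pieces -/
theorem F_sig {w O : (Σ i, X i) → ℂ}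
    (h : ∀ i, Integrable (fun x => w ⟨i, x⟩ * O ⟨i, x⟩) (μ i)) :
    F (sig μ) w O = ∑ i, ∫ x, w ⟨i, x⟩ * O ⟨i, x⟩ ∂(μ i) :=
  integral_sig (f := fun ω => w ω * O ω) h

end PBFunc
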