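import Pool.Agent.PB.QMomB
import Pool.Agent.PB.WardCf
import Pool.Agent.PB.CovW
import Pool.Agent.PB.FGood

/-!
# Plan B: second moment of the quadratic statistic of a small field

* `meas_sig_prod`, `meas_evN_par`: joint measurability on `CfN N × T`; `pm_vy`: the statistic `Vy`;
* `Mom4`: products of four linear statistics of bounded analytic test functions;
* **`quad_M2`**: `Q = c V f V g + (1/2) ∫ V (A q) V (B q)` has the second moment
  `2 |c| a b + ∫ al be`;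
* **`qy_M2`**: `Qy 0 η ρ X`, `X` a field with `|X| ≤ Θ e^{-κ |Re z|}`: second moment `C Θ / κ`.
-/

set_option autoImplicit false
set_option linter.unusedSectionVars false

noncomputable section

open MeasureTheory Set Filter Topology
open scoped ENNReal

namespace PBQM

open PBFunc PBF PBV NUMF

/-! ### joint measurability -/

section sigma

variable {I : Type*} [Fintype I] {X : I → Type*} [∀ i, MeasurableSpace (X i)] {T : Type*}
  [MeasurableSpace T] {β : Type*} [MeasurableSpace β]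

theorem meas_sig_prod {f : (Σ i, X i) × T → β}
    (h : ∀ i, Measurable fun p : X i × T => f (⟨i, p.1⟩, p.2)) : Measurable f := by
  intro s hs
  have e : f ⁻¹' s = ⋃ i, (Prod.map (Sigma.mk i : X i → Σ i, X i) (id : T → T)) ''
      ((fun p : X i × T => f (⟨i, p.1⟩, p.2)) ⁻¹' s) := by
    ext ⟨⟨i, x⟩, t⟩
    simp only [mem_preimage, mem_iUnion, mem_image, Prod.exists, Prod.map_apply, id_eq,
      Prod.mk.injEq]
    constructor
    · intro hx
      exact ⟨i, x, t, hx, rfl, rfl⟩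
    · rintro ⟨j, y, t', hy, he, rfl⟩
      rw [← he]
      exact hy
  rw [e]
  refine MeasurableSet.iUnion fun i => ?_
  exact ((emb_mk i).prodMap MeasurableEmbedding.id).measurableSet_image' (h i hs)

end sigma

section par

variable {T : Type*} [MeasurableSpace T]

/-- **joint measurability of the evaluation** -/
theorem meas_evN_par {N : ℕ} {Ψ : T → ℕ → Ins} (h : ∀ n ≤ N, PM fun t => Ψ t n) :
    Measurable fun p : CfN N × T => evN (Ψ p.2) p.1 := by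
  refine meas_sig_prod fun n => meas_sig_prod fun i => ?_
  have h1 := h n (by omega) i.1 i.2.1 i.2.2
  have h2 : Measurable fun p : Pc i × T => (p.2, (p.1.1, p.1.2)) :=
    measurable_snd.prodMk (measurable_fst.fst.prodMk measurable_fst.snd)
  exact h1.comp h2

/-- the linear statistic, jointly measurable with a parameter -/
theorem pm_vy {η η' : PBF.Crs} (hm : MCr η η') (y0 : ℝ) {ρ : ℂ → ℂ}
    (hρ : Measurable fun u : ℝ => ρ u) {G : T → Bool → ℂ → ℂ}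
    (hG : ∀ s, Measurable fun p : T × ℂ => G p.1 s p.2) :
    PM fun t => Vy y0 η ρ (G t) := by
  intro r a b
  unfold Vy PB.NX.nuL
  refine Measurable.sub ?_ ?_
  · refine Finset.measurable_fun_sum _ fun k _ => ?_
    exact (hG _).comp (measurable_fst.prodMk ((meas_zqy hm y0 r k).comp measurable_snd))
  · refine Finset.measurable_fun_sum _ fun s _ => ?_
    have h1 : StronglyMeasurable fun p : T × ℝ => PB.rS ρ s p.2 * G p.1 s (PB.eR p.2) := by
      refine Measurable.stronglyMeasurable ?_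
      exact (hρ.comp measurable_snd).mul ((hG s).comp (measurable_fst.prodMk
        (Complex.measurable_ofReal.comp measurable_snd)))
    exact (h1.integral_prod_right').measurable.comp measurable_fst

end par

/-! ### the abstract bound -/

section abs

variable {Ω : Type*} [MeasurableSpace Ω] {μ : Measure Ω} {w : Ω → ℂ}
  {V : (Bool → ℂ → ℂ) → Ω → ℂ} {y₁ y₂ K : ℝ}

/-- bounded analytic test functions of both species -/
def BB (y₁ y₂ M : ℝ) (g : Bool → ℂ → ℂ) : Prop :=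
  ∀ s, DifferentiableOn ℂ (g s) (PBE.Sp y₁ y₂) ∧ ∀ z ∈ PBE.Sp y₁ y₂, ‖g s z‖ ≤ M

/-- products of four linear statistics -/
def Mom4 (μ : Measure Ω) (w : Ω → ℂ) (V : (Bool → ℂ → ℂ) → Ω → ℂ) (y₁ y₂ K : ℝ) : Prop :=
  ∀ (M : Fin 4 → ℝ) (g : Fin 4 → Bool → ℂ → ℂ), (∀ j, 0 ≤ M j) → (∀ j, BB y₁ y₂ (M j) (g j)) →
    ∫⁻ ω, ‖w ω‖ₑ * ∏ j, ‖V (g j) ω‖ₑ ∂μ ≤ ENNReal.ofReal ((∏ j, M j) * K)

theorem Mom4.four (h4 : Mom4 μ w V y₁ y₂ K) {a b c d : ℝ} {f g f' g' : Bool → ℂ → ℂ} (ha : 0 ≤ a)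
    (hb : 0 ≤ b) (hc : 0 ≤ c) (hd : 0 ≤ d) (hf : BB y₁ y₂ a f) (hg : BB y₁ y₂ b g)
    (hf' : BB y₁ y₂ c f') (hg' : BB y₁ y₂ d g') :
    ∫⁻ ω, ‖w ω‖ₑ * (‖V f ω‖ₑ * ‖V g ω‖ₑ * (‖V f' ω‖ₑ * ‖V g' ω‖ₑ)) ∂μ ≤
      ENNReal.ofReal (a * b * (c * d) * K) := by
  have h := h4 ![a, b, c, d] ![f, g, f', g']
    (fun j => by fin_cases j <;> simpa) (fun j => by fin_cases j <;> simpa)
  simp only [Fin.prod_univ_four] at h
  refine le_trans (le_of_eq ?_) (h.trans (le_of_eq ?_))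
  · refine lintegral_congr fun ω => ?_
    show _ = ‖w ω‖ₑ * (‖V f ω‖ₑ * ‖V g ω‖ₑ * ‖V f' ω‖ₑ * ‖V g' ω‖ₑ)
    ring
  · congr 1
    show (a * b * c * d) * K = _
    ring

theorem ofReal_M2 (w A : ℂ) : ENNReal.ofReal (‖w‖ * ‖A‖ ^ 2) = ‖w‖ₑ * ‖A‖ₑ ^ 2 := by
  rw [ENNReal.ofReal_mul (norm_nonneg _), ENNReal.ofReal_pow (norm_nonneg _), ofReal_norm,
    ofReal_norm]

theorem ennreal_sq_add (x y : ℝ≥0∞) : (x + y) ^ 2 ≤ 2 * x ^ 2 + 2 * y ^ 2 := by
  induction x with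
  | top => simp
  | coe x =>
    induction y with
    | top => simp
    | coe y =>
      have h : (x + y) ^ 2 ≤ 2 * x ^ 2 + 2 * y ^ 2 := by
        rw [← NNReal.coe_le_coe]
        push_cast
        nlinarith [sq_nonneg ((x : ℝ) - y)]
      exact_mod_cast h

variable {T : Type*} [MeasurableSpace T] {σ : Measure T}

/-- **the abstract bound of a quadratic statistic** -/
theorem quad_M2 [SFinite μ] [SFinite σ] (hw : AEStronglyMeasurable w μ) (hK : 0 ≤ K)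
    (h4 : Mom4 μ w V y₁ y₂ K) {Q : Ω → ℂ} {c : ℂ} {a b : ℝ} {f g : Bool → ℂ → ℂ}
    {A B : T → Bool → ℂ → ℂ} {al be : T → ℝ} (ha : 0 ≤ a) (hb : 0 ≤ b)
    (hf : BB y₁ y₂ a f) (hg : BB y₁ y₂ b g) (hA : ∀ q, BB y₁ y₂ (al q) (A q))
    (hB : ∀ q, BB y₁ y₂ (be q) (B q)) (a0 : ∀ q, 0 ≤ al q) (b0 : ∀ q, 0 ≤ be q)
    (hi : Integrable (fun q => al q * be q) σ)
    (mf : AEMeasurable (V f) μ) (mg : AEMeasurable (V g) μ)
    (jA : Measurable fun p : Ω × T => V (A p.2) p.1)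
    (jB : Measurable fun p : Ω × T => V (B p.2) p.1)
    (hQ : ∀ᵐ ω ∂μ, w ω ≠ 0 → Q ω = c * (V f ω * V g ω) +
      (1 / 2) * ∫ q, V (A q) ω * V (B q) ω ∂σ) :
    M2 μ w K Q (2 * ‖c‖ * a * b + ∫ q, al q * be q ∂σ) := by
  set I := ∫ q, al q * be q ∂σ with hI
  have hI0 : 0 ≤ I := integral_nonneg fun q => mul_nonneg (a0 q) (b0 q)
  -- the integral over the index
  set S : Ω → ℝ≥0∞ := fun ω => ∫⁻ q, ‖V (A q) ω‖ₑ * ‖V (B q) ω‖ₑ ∂σ with hS
  have jm : Measurable fun p : Ω × T => ‖V (A p.2) p.1‖ₑ * ‖V (B p.2) p.1‖ₑ :=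
    jA.enorm.mul jB.enorm
  have mS : Measurable S := jm.lintegral_prod_right'
  have hIe : ∫⁻ q, ENNReal.ofReal (al q * be q) ∂σ = ENNReal.ofReal I :=
    (ofReal_integral_eq_lintegral_ofReal hi
      (Eventually.of_forall fun q => mul_nonneg (a0 q) (b0 q))).symm
  have mal : AEMeasurable (fun q => ENNReal.ofReal (al q * be q)) σ :=
    hi.1.aemeasurable.ennreal_ofReal
  have h1 : ∫⁻ ω, ‖w ω‖ₑ * S ω ^ 2 ∂μ ≤ ENNReal.ofReal (I ^ 2 * K) := by
    have e1 : ∀ ω, ‖w ω‖ₑ * S ω ^ 2 = ∫⁻ q, ‖w ω‖ₑ * (S ω * (‖V (A q) ω‖ₑ * ‖V (B q) ω‖ₑ)) ∂σ := by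
      intro ω
      have m1 : Measurable fun q => ‖V (A q) ω‖ₑ * ‖V (B q) ω‖ₑ :=
        jm.comp (measurable_const.prodMk measurable_id)
      rw [lintegral_const_mul' _ _ enorm_ne_top, lintegral_const_mul _ m1, sq]
    have e2 : ∀ q, ∫⁻ ω, ‖w ω‖ₑ * (S ω * (‖V (A q) ω‖ₑ * ‖V (B q) ω‖ₑ)) ∂μ ≤
        ENNReal.ofReal (al q * be q) * ENNReal.ofReal (I * K) := by
      intro q
      have m2 : Measurable fun ω => ‖V (A q) ω‖ₑ * ‖V (B q) ω‖ₑ :=
        jm.comp (measurable_id.prodMk measurable_const)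
      have e3 : ∀ ω, ‖w ω‖ₑ * (S ω * (‖V (A q) ω‖ₑ * ‖V (B q) ω‖ₑ)) =
          ∫⁻ q', ‖w ω‖ₑ * (‖V (A q) ω‖ₑ * ‖V (B q) ω‖ₑ * (‖V (A q') ω‖ₑ * ‖V (B q') ω‖ₑ)) ∂σ := by
        intro ω
        have m1 : Measurable fun q => ‖V (A q) ω‖ₑ * ‖V (B q) ω‖ₑ :=
          jm.comp (measurable_const.prodMk measurable_id)
        rw [lintegral_const_mul' _ _ enorm_ne_top, lintegral_const_mul _ m1, mul_comm (S ω)]
      simp only [e3]
      rw [lintegral_lintegral_swap]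
      · calc ∫⁻ q', ∫⁻ ω, ‖w ω‖ₑ * (‖V (A q) ω‖ₑ * ‖V (B q) ω‖ₑ *
              (‖V (A q') ω‖ₑ * ‖V (B q') ω‖ₑ)) ∂μ ∂σ ≤
            ∫⁻ q', ENNReal.ofReal (al q * be q * K) * ENNReal.ofReal (al q' * be q') ∂σ := by
              refine lintegral_mono fun q' => ?_
              refine (h4.four (a0 q) (b0 q) (a0 q') (b0 q') (hA q) (hB q) (hA q') (hB q')).trans
                (le_of_eq ?_)
              rw [← ENNReal.ofReal_mul (mul_nonneg (mul_nonneg (a0 q) (b0 q)) hK)]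
              congr 1
              ring
          _ = ENNReal.ofReal (al q * be q * K) * ENNReal.ofReal I := by
              rw [lintegral_const_mul' _ _ ENNReal.ofReal_ne_top, hIe]
          _ = _ := by
              rw [← ENNReal.ofReal_mul (mul_nonneg (mul_nonneg (a0 q) (b0 q)) hK),
                ← ENNReal.ofReal_mul (mul_nonneg (a0 q) (b0 q))]
              congr 1
              ring
      · exact (hw.enorm.comp_fst).mul (((m2.comp measurable_fst).aemeasurable).mul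
          jm.aemeasurable)
    simp only [e1]
    rw [lintegral_lintegral_swap]
    · refine (lintegral_mono e2).trans (le_of_eq ?_)
      rw [lintegral_mul_const' _ _ ENNReal.ofReal_ne_top, hIe, ← ENNReal.ofReal_mul hI0]
      congr 1
      ring
    · exact (hw.enorm.comp_fst).mul ((mS.comp measurable_fst).aemeasurable.mul jm.aemeasurable)
  have h2 : ∫⁻ ω, ‖w ω‖ₑ * (‖V f ω‖ₑ * ‖V g ω‖ₑ) ^ 2 ∂μ ≤ ENNReal.ofReal ((a * b) ^ 2 * K) := by
    refine le_trans (le_of_eq ?_) ((h4.four ha hb ha hb hf hg hf hg).trans (le_of_eq ?_))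
    · refine lintegral_congr fun ω => ?_
      ring
    · congr 1
      ring
  -- the pointwise bound
  have key : ∀ᵐ ω ∂μ, ENNReal.ofReal (‖w ω‖ * ‖Q ω‖ ^ 2) ≤
      ENNReal.ofReal (2 * ‖c‖ ^ 2) * (‖w ω‖ₑ * (‖V f ω‖ₑ * ‖V g ω‖ₑ) ^ 2) +
      ENNReal.ofReal (1 / 2) * (‖w ω‖ₑ * S ω ^ 2) := by
    filter_upwards [hQ] with ω hω
    rw [ofReal_M2]
    by_cases h0 : w ω = 0
    · simp [h0]
    · have b1 : ‖Q ω‖ₑ ≤ ENNReal.ofReal ‖c‖ * (‖V f ω‖ₑ * ‖V g ω‖ₑ) + ENNReal.ofReal (1 / 2) * S ω := by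
        rw [hω h0]
        refine (enorm_add_le _ _).trans (add_le_add ?_ ?_)
        · rw [enorm_mul, enorm_mul, ofReal_norm]
        · rw [enorm_mul]
          refine mul_le_mul' ?_ ?_
          · rw [← ofReal_norm]
            simp
          · refine (enorm_integral_le_lintegral_enorm _).trans (lintegral_mono fun q => ?_)
            rw [enorm_mul]
      calc ‖w ω‖ₑ * ‖Q ω‖ₑ ^ 2 ≤ ‖w ω‖ₑ * (ENNReal.ofReal ‖c‖ * (‖V f ω‖ₑ * ‖V g ω‖ₑ) +
            ENNReal.ofReal (1 / 2) * S ω) ^ 2 := by gcongr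
        _ ≤ ‖w ω‖ₑ * (2 * (ENNReal.ofReal ‖c‖ * (‖V f ω‖ₑ * ‖V g ω‖ₑ)) ^ 2 +
            2 * (ENNReal.ofReal (1 / 2) * S ω) ^ 2) := by
              gcongr
              exact ennreal_sq_add _ _
        _ = _ := by
              rw [ENNReal.ofReal_mul (by norm_num : (0 : ℝ) ≤ 2), ENNReal.ofReal_pow (norm_nonneg _)]
              have e5 : ENNReal.ofReal (1 / 2) * (2 * ENNReal.ofReal (1 / 2)) =
                  ENNReal.ofReal (1 / 2) := by
                have : (2 : ℝ≥0∞) = ENNReal.ofReal 2 := by simp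
                rw [this, ← ENNReal.ofReal_mul (by norm_num), ← ENNReal.ofReal_mul (by norm_num)]
                norm_num
              have e6 : ENNReal.ofReal 2 = (2 : ℝ≥0∞) := by simp
              rw [e6]
              calc _ = 2 * ENNReal.ofReal ‖c‖ ^ 2 * (‖w ω‖ₑ * (‖V f ω‖ₑ * ‖V g ω‖ₑ) ^ 2) +
                    (ENNReal.ofReal (1 / 2) * (2 * ENNReal.ofReal (1 / 2))) *
                      (‖w ω‖ₑ * S ω ^ 2) := by ring
                _ = _ := by rw [e5]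
  unfold M2
  have mV : AEMeasurable (fun ω => ‖w ω‖ₑ * (‖V f ω‖ₑ * ‖V g ω‖ₑ) ^ 2) μ :=
    hw.enorm.mul ((mf.enorm.mul mg.enorm).pow_const 2)
  refine (lintegral_mono_ae key).trans ?_
  rw [lintegral_add_left' (mV.const_mul _), lintegral_const_mul' _ _ ENNReal.ofReal_ne_top,
    lintegral_const_mul' _ _ ENNReal.ofReal_ne_top]
  refine (add_le_add (mul_le_mul' le_rfl h2) (mul_le_mul' le_rfl h1)).trans ?_
  rw [← ENNReal.ofReal_mul (by positivity), ← ENNReal.ofReal_mul (by norm_num),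
    ← ENNReal.ofReal_add (by positivity) (by positivity)]
  apply ENNReal.ofReal_le_ofReal
  have n1 : 0 ≤ ‖c‖ * a * b := by positivity
  nlinarith [mul_nonneg n1 hI0, mul_nonneg (mul_nonneg n1 hI0) hK, mul_nonneg (sq_nonneg (‖c‖ * a * b)) hK,
    mul_nonneg (sq_nonneg I) hK]

end abs

/-! ### the field cut off outside the strip -/

section cut

variable {X : Bool → ℂ → ℂ} {b b' Θ κ : ℝ}

/-- the field cut off outside the strip -/
def ctX (b : ℝ) (X : Bool → ℂ → ℂ) (s : Bool) (z : ℂ) : ℂ := if |z.im| < b then X s z else 0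

theorem open_strip (b : ℝ) : IsOpen {z : ℂ | |z.im| < b} :=
  isOpen_lt (continuous_abs.comp Complex.continuous_im) continuous_const

theorem ctX_eq {s : Bool} {z : ℂ} (hz : |z.im| < b) : ctX b X s z = X s z := if_pos hz

theorem ctX_ev {s : Bool} {z : ℂ} (hz : |z.im| < b) : ctX b X s =ᶠ[𝓝 z] X s := by
  filter_upwards [(open_strip b).mem_nhds hz] with w hw using ctX_eq hw

theorem ctX_meas (H : ∀ s, XiA (X s) b Θ κ 0 0) (s : Bool) : Measurable (ctX b X s) := by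
  classical
  have hS := open_strip b
  have hc : ContinuousOn (X s) {z : ℂ | |z.im| < b} := fun z hz =>
    ((H s).an z (le_of_lt hz)).continuousAt.continuousWithinAt
  have h := ContinuousOn.measurable_piecewise hc
    (continuousOn_const (c := (0 : ℂ)) (s := {z : ℂ | |z.im| < b}ᶜ)) hS.measurableSet
  have e : ctX b X s = Set.piecewise {z : ℂ | |z.im| < b} (X s) (fun _ => 0) := by
    funext z
    unfold ctX Set.piecewise
    rfl
  rw [e]
  exact h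

theorem ctX_XiA (H : ∀ s, XiA (X s) b Θ κ 0 0) (hb : b' < b) (hb0 : 0 < b') (s : Bool) :
    XiA (ctX b X s) b' Θ κ 0 0 where
  K0 := (H s).K0
  c0 := (H s).c0
  b0 := hb0
  an z hz := ((H s).an z (hz.trans hb.le)).congr_of_eventuallyEq (ctX_ev (hz.trans_lt hb))
  db z hz := by
    rw [(ctX_ev (hz.trans_lt hb)).deriv_eq]
    exact (H s).db z (hz.trans hb.le)
  pp z hz h0 := by
    rw [ctX_eq (hz.trans_lt hb)]
    exact (H s).pp z (hz.trans hb.le) h0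
  pm z hz h0 := by
    rw [ctX_eq (hz.trans_lt hb)]
    exact (H s).pm z (hz.trans hb.le) h0

theorem dslope_congr {f g : ℂ → ℂ} {z w : ℂ} (h : f =ᶠ[𝓝 z] g) (hw : f w = g w) :
    dslope f z w = dslope g z w := by
  by_cases e : w = z
  · rw [e, dslope_same, dslope_same, h.deriv_eq]
  · rw [dslope_of_ne _ e, dslope_of_ne _ e, slope_def_field, slope_def_field, hw, h.eq_of_nhds]

theorem aC_ctX (s c : Bool) {z w : ℂ} (hz : |z.im| < b) (hw : |w.im| < b) :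
    PB.aC (ctX b X) s c z w = PB.aC X s c z w := by
  unfold PB.aC
  split_ifs
  · rw [dslope_congr (ctX_ev hz) (ctX_eq hw)]
  · rw [ctX_eq hz, ctX_eq hw]

end cut

/-! ### the instance -/

section inst

variable {N : ℕ} {w : CfN N → ℂ} {η η' : ℕ → PBF.Crs} {ρ : ℂ → ℂ} {K : ℝ}

/-- the linear statistic at the level of configurations -/
def VN (N : ℕ) (η : ℕ → PBF.Crs) (ρ : ℂ → ℂ) (g : Bool → ℂ → ℂ) : CfN N → ℂ :=
  evN fun n => Vy 0 (η n) ρ g

/-- the quadratic statistic at the level of configurations -/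
def QN (N : ℕ) (η : ℕ → PBF.Crs) (ρ : ℂ → ℂ) (X : Bool → ℂ → ℂ) : CfN N → ℂ :=
  evN fun n => Qy 0 (η n) ρ X

theorem vN_meas (hm : ∀ n ≤ N, MCr (η n) (η' n)) (hρ : Measurable fun u : ℝ => ρ u)
    {T : Type*} [MeasurableSpace T] {G : T → Bool → ℂ → ℂ}
    (hG : ∀ s, Measurable fun p : T × ℂ => G p.1 s p.2) :
    Measurable fun p : CfN N × T => VN N η ρ (G p.2) p.1 :=
  meas_evN_par (Ψ := fun t n => Vy 0 (η n) ρ (G t)) fun n hn => pm_vy (hm n hn) 0 hρ hG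

theorem vN_meas1 (hm : ∀ n ≤ N, MCr (η n) (η' n)) (hρ : Measurable fun u : ℝ => ρ u)
    {g : Bool → ℂ → ℂ} (hg : ∀ s, Measurable (g s)) : Measurable (VN N η ρ g) := by
  have h : ∀ n ≤ N, MIn (Vy 0 (η n) ρ g) := fun n hn =>
    PM.at (S := Unit) (Ψ := fun _ => Vy 0 (η n) ρ g) (pm_vy (T := Unit) (G := fun _ => g) (hm n hn)
      0 hρ fun s => (hg s).comp measurable_snd) ()
  exact evN_meas h

/-- **second moment of the quadratic statistic of a small field** -/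
theorem exists_qy {Y α θ : ℝ} (hY : Y < l) : ∃ C : ℝ, 0 ≤ C ∧
    ∀ {b y₁ y₂ Y₁ Y₂ : ℝ}, Geo y₁ y₂ Y₁ Y₂ θ α b Y → y₁ < 0 → 0 < y₂ → y₂ - y₁ < l →
    ∀ {X : Bool → ℂ → ℂ} {Θ κ : ℝ}, (∀ s, XiA (X s) b Θ κ 0 0) → 0 < κ → κ ≤ 1 →
    ∀ {N : ℕ} {w : CfN N → ℂ} {η η' : ℕ → PBF.Crs} {ρ : ℂ → ℂ} {K : ℝ},
      AEStronglyMeasurable w (mN N) → 0 ≤ K → (∀ n ≤ N, MCr (η n) (η' n)) →
      (∀ n ≤ N, ∀ r O t, y₁ < η n r O t ∧ η n r O t < y₂) →
      Integrable (fun u : ℝ => ρ u) → Measurable (fun u : ℝ => ρ u) →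
      Mom4 (mN N) w (VN N η ρ) y₁ y₂ K → M2 (mN N) w K (QN N η ρ X) (C * Θ / κ) := by
  obtain ⟨C, hC, hA⟩ := AQ_bound hY
  have hr := r_pos
  refine ⟨8 / r + 16 * C * |cE α θ|, by positivity, ?_⟩
  intro b y₁ y₂ Y₁ Y₂ G h1 h2 hy X Θ κ H hκ0 hκ N w η η' ρ K hw hK hm hst hρi hρm h4
  have hΘ := (H true).K0
  -- a smaller strip
  obtain ⟨b', hb1, hb2⟩ := exists_between (max_lt G.b1 G.b2)
  have hb1' := max_lt_iff.1 hb1
  have hb0 : 0 < b' := (abs_nonneg _).trans_lt hb1'.1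
  have G' : Geo y₁ y₂ Y₁ Y₂ θ α b' Y :=
    ⟨G.θ0, G.l1, G.l2, G.α0, G.αY, hb1'.1, hb1'.2, hb2.le.trans G.bl, G.Yl, G.d1, G.d2⟩
  have H' := fun s => ctX_XiA H hb2 hb0 s
  have hX' := fun s => ctX_meas H s
  set X' := ctX b X with hX'd
  have hc0 : 0 ≤ cE α θ := by
    have := BQ_bound G ((true, (true, 0)) : QIx) true (z := 0)
      ⟨by simpa using h1, by simpa using h2⟩
    exact (norm_nonneg _).trans this
  have hin : ∀ z ∈ PBE.Sp y₁ y₂, |z.im| ≤ b' := by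
    intro z hz
    exact (G'.of_mem hz).1.le
  have bX : BB y₁ y₂ Θ (fS X') := by
    intro s
    refine ⟨fun z hz => ?_, fun z hz => ?_⟩
    · exact (((H' s).an z (hin z hz)).const_mul _).differentiableWithinAt
    · unfold fS
      rw [norm_mul, norm_sb, one_mul]
      refine (XiA.bd (H' s) (hin z hz)).trans ?_
      have : Real.exp (-(κ * |z.re|)) ≤ 1 := Real.exp_le_one_iff.2 (by
        have := mul_nonneg hκ0.le (abs_nonneg z.re)
        linarith)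
      nlinarith
  have bT : BB y₁ y₂ (2 / r) (fS fun _ => tgh) := by
    intro s
    refine ⟨fun z hz => ?_, fun z hz => ?_⟩
    · exact ((tgh_diff ((hin z hz).trans G'.bl)).const_mul _).differentiableWithinAt
    · unfold fS
      rw [norm_mul, norm_sb, one_mul]
      exact tgh_bound ((hin z hz).trans G'.bl)
  have bA : ∀ q, BB y₁ y₂ (alQ C Θ κ q) (AQ X' Y₁ Y₂ q) := fun q s =>
    ⟨AQ_diff H' G' q s, fun z hz => hA H' hκ G' q s z hz⟩
  have bB : ∀ q : QIx, BB y₁ y₂ (cE α θ) (BQ α Y₁ Y₂ q) := fun q s =>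
    ⟨BQ_diff G' q s, fun z hz => BQ_bound G' q s hz⟩
  have hal : ∀ q, 0 ≤ alQ C Θ κ q := fun q => by unfold alQ; positivity
  obtain ⟨hi, hiv⟩ := alQ_int C Θ hκ0 (cE α θ)
  have jA := vN_meas hm hρm (G := AQ X' Y₁ Y₂) fun s => AQ_measurable hX' Y₁ Y₂ s
  have jB := vN_meas hm hρm (G := BQ α Y₁ Y₂) fun s => BQ_measurable α Y₁ Y₂ s
  have mf := vN_meas1 hm hρm (g := fS X') fun s => (hX' s).const_mul _
  have mg := vN_meas1 hm hρm (g := fS fun _ => tgh) fun s => tgh_measurable.const_mul _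
  have hQ : ∀ᵐ ω ∂(mN N), w ω ≠ 0 → QN N η ρ X ω = -2 * (VN N η ρ (fS X') ω *
      VN N η ρ (fS fun _ => tgh) ω) +
      (1 / 2) * ∫ q, VN N η ρ (AQ X' Y₁ Y₂ q) ω * VN N η ρ (BQ α Y₁ Y₂ q) ω ∂qm := by
    refine Eventually.of_forall fun ω _ => ?_
    have hn : ((ω.1 : ℕ)) ≤ N := by omega
    have hz : ∀ k, zqy 0 (η ω.1) ω.2.1.1 ω.2.2.1 ω.2.2.2 k ∈ PBE.Sp y₁ y₂ := by
      intro k
      unfold zqy
      have := hst _ hn ω.2.1.1 ω.2.2.1 (Sum.elim ω.2.2.2.1 ω.2.2.2.2 k)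
      constructor
      · rw [zy_im, sub_zero]; exact this.1
      · rw [zy_im, sub_zero]; exact this.2
    have key := (nuQ_aC hX' H' hκ0 hκ G' h1 h2 hy (ρ := PB.rS ρ) (fun _ => hρi)
      (spQ ω.2.1.2.1 ω.2.1.2.2) hz).2
    have he : ∀ (s : Bool) (u : ℝ), PB.rS ρ s u ≠ 0 → PB.eR u ∈ (fun _ : Bool => PBE.Sp y₁ y₂) s :=
      fun s u _ => ⟨by simpa [PB.eR] using h1, by simpa [PB.eR] using h2⟩
    have e1 : PB.NX.nuQ PB.eR (spQ ω.2.1.2.1 ω.2.1.2.2) (PB.rS ρ) (PB.aC X)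
        (zqy 0 (η ω.1) ω.2.1.1 ω.2.2.1 ω.2.2.2) =
        PB.NX.nuQ PB.eR (spQ ω.2.1.2.1 ω.2.1.2.2) (PB.rS ρ) (PB.aC X')
          (zqy 0 (η ω.1) ω.2.1.1 ω.2.2.1 ω.2.2.2) := by
      rw [← PB.NX.nuQ_cD he (PB.aC X) hz, ← PB.NX.nuQ_cD he (PB.aC X') hz]
      congr 1
      funext s c x y
      unfold PB.NX.cD
      by_cases h : x ∈ PBE.Sp y₁ y₂ ∧ y ∈ PBE.Sp y₁ y₂
      · rw [if_pos h, if_pos h]
        exact (aC_ctX s c ((hin x h.1).trans_lt hb2) ((hin y h.2).trans_lt hb2)).symm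
      · rw [if_neg h, if_neg h]
    show PB.NX.nuQ PB.eR (spQ ω.2.1.2.1 ω.2.1.2.2) (PB.rS ρ) (PB.aC X)
        (zqy 0 (η ω.1) ω.2.1.1 ω.2.2.1 ω.2.2.2) = _
    rw [e1, key]
    rfl
  have main := quad_M2 hw hK h4 hΘ (by positivity : 0 ≤ 2 / r) bX bT bA bB hal (fun _ => hc0) hi
    mf.aemeasurable mg.aemeasurable jA jB hQ
  refine main.mono ?_ ?_ le_rfl hK
  · have : 0 ≤ ∫ q, alQ C Θ κ q * cE α θ ∂qm :=
      integral_nonneg fun q => mul_nonneg (hal q) hc0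
    positivity
  · rw [hiv, norm_neg, abs_of_nonneg hc0]
    have n2 : ‖(2 : ℂ)‖ = 2 := by simp
    rw [n2, le_div_iff₀ hκ0]
    have e : (2 * 2 * Θ * (2 / r) + 16 * C * Θ * cE α θ / κ) * κ =
        8 / r * Θ * κ + 16 * C * Θ * cE α θ := by
      field_simp
      ring
    rw [e]
    have h5 : 8 / r * Θ * κ ≤ 8 / r * Θ * 1 := by gcongr
    linarith

end inst

end PBQM
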