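import Pool.Agent.NUGC.OneActC
import Pool.Agent.NUGC.CurEx
import Pool.Agent.NUO.Glue

/-!
# Plan B: the activity of an object with the tent of the current kept (helper79)

The current of TARGET-C is `hC = tent + cur`, `cur` the plateau of height `J`, `tent` of slope
`aC = 4 / (3 π)`.  `S4C` keeps only the plateau.  Here: the tent is kept as a gain.

* `gT e1 L t = (8 / 3) (D' - |t|)_+`, `D' = (1 - 4 e1) (3 / 8) L`: the gain of an object at the height `t`;
* `cur_gT_le`: `cur + gT / (2 π) ≤ hC`; `gT_le_Ph`: `gT ≤ m Ph / 100`;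
* `one_actT`: the one body factor of every object with the current `hC` is at most `act * exp (- gT)`.
-/

set_option autoImplicit false

noncomputable section

open MeasureTheory

namespace PBP

open NUO NUP1 NUGC
open NUHM (Agh)

/-- half width of the gain -/
def Dg (e1 L : ℝ) : ℝ := (1 - 4 * e1) * Tb L

/-- **the gain of an object at the height `t`** -/
def gT (e1 L t : ℝ) : ℝ := 8 / 3 * max (Dg e1 L - |t|) 0

theorem gT_nonneg (e1 L t : ℝ) : 0 ≤ gT e1 L t := by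
  unfold gT
  have := le_max_right (Dg e1 L - |t|) 0
  positivity

theorem gT_ge (e1 L t : ℝ) : 8 / 3 * (Dg e1 L - |t|) ≤ gT e1 L t := by
  unfold gT
  have := le_max_left (Dg e1 L - |t|) 0
  linarith

/-- the tent contains the gain -/
theorem cur_gT_le {e1 J : ℝ} (he : 0 < e1) (he1 : e1 ≤ 1 / 100) {m : ℕ}
    (hT : 2 ≤ e1 * Tb (Real.log m)) (t : ℝ) :
    NUCUR.cur e1 (Tb (Real.log m)) J t + gT e1 (Real.log m) t / (2 * Real.pi) ≤ hC e1 J m t := by
  have hT0 : 200 ≤ Tb (Real.log m) := by nlinarith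
  have hD : 0 ≤ DC e1 m := DC_nonneg he1 (by linarith)
  have h1 := (tent_bd hD aC_pos.le t).1
  have h2 := tent_ge hD aC_pos.le t
  have hpi := Real.pi_pos
  have e : gT e1 (Real.log m) t / (2 * Real.pi) = aC * max (Dg e1 (Real.log m) - |t|) 0 := by
    unfold gT aC
    field_simp
    ring
  rw [e]
  unfold hC
  have h3 : aC * max (Dg e1 (Real.log m) - |t|) 0 ≤ tent (DC e1 m) aC t := by
    rcases le_total (Dg e1 (Real.log m) - |t|) 0 with h | h
    · rw [max_eq_right h, mul_zero]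
      exact h1
    · rw [max_eq_left h]
      refine le_trans ?_ h2
      have h4 : Dg e1 (Real.log m) + 4 ≤ DC e1 m := by
        unfold Dg DC
        linarith
      have h5 := aC_pos
      nlinarith
  linarith

/-- the sea contains the gain -/
theorem gT_le_Ph {e1 : ℝ} {m : ℝ} (hm : 0 < m) (h : 50 * Real.pi ≤ m ^ (4 * e1)) (t : ℝ) :
    gT e1 (Real.log m) t ≤ 1 / 100 * (m * NUSea.Ph t) := by
  have hpi := Real.pi_pos
  have hPh := Ph_low t
  rcases le_total (Dg e1 (Real.log m) - |t|) 0 with h1 | h1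
  · unfold gT
    rw [max_eq_right h1, mul_zero]
    have : 0 ≤ 2 / Real.pi * Real.exp (-(8 / 3) * |t|) := by positivity
    have h2 : 0 ≤ NUSea.Ph t := this.trans hPh
    positivity
  · unfold gT
    rw [max_eq_left h1]
    have e1' : m * Real.exp (-(8 / 3) * |t|) =
        m ^ (4 * e1) * Real.exp (8 / 3 * (Dg e1 (Real.log m) - |t|)) := by
      have e2 : m = Real.exp (Real.log m) := (Real.exp_log hm).symm
      have e3 : m ^ (4 * e1) = Real.exp (Real.log m * (4 * e1)) := Real.rpow_def_of_pos hm _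
      rw [e3, ← Real.exp_add]
      conv_lhs => rw [e2]
      rw [← Real.exp_add]
      congr 1
      unfold Dg Tb
      ring
    have h3 : 8 / 3 * (Dg e1 (Real.log m) - |t|) ≤ Real.exp (8 / 3 * (Dg e1 (Real.log m) - |t|)) := by
      have := Real.add_one_le_exp (8 / 3 * (Dg e1 (Real.log m) - |t|))
      linarith
    have h4 : 0 ≤ 8 / 3 * (Dg e1 (Real.log m) - |t|) := by linarith
    calc 8 / 3 * (Dg e1 (Real.log m) - |t|) ≤
        1 / 100 * (2 / Real.pi * (50 * Real.pi *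
          Real.exp (8 / 3 * (Dg e1 (Real.log m) - |t|)))) := by
          have : 1 / 100 * (2 / Real.pi * (50 * Real.pi *
            Real.exp (8 / 3 * (Dg e1 (Real.log m) - |t|)))) =
            Real.exp (8 / 3 * (Dg e1 (Real.log m) - |t|)) := by field_simp; norm_num
          rw [this]
          exact h3
      _ ≤ 1 / 100 * (2 / Real.pi * (m ^ (4 * e1) *
          Real.exp (8 / 3 * (Dg e1 (Real.log m) - |t|)))) := by gcongr
      _ = 1 / 100 * (m * (2 / Real.pi * Real.exp (-(8 / 3) * |t|))) := by rw [← e1']; ring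
      _ ≤ 1 / 100 * (m * NUSea.Ph t) := by gcongr

/-- large `m` -/
theorem exists_M0 {e1 : ℝ} (he : 0 < e1) : ∃ M0 : ℕ, ∀ m ≥ M0, 2 ≤ e1 * Tb (Real.log m) ∧
    50 * Real.pi ≤ (m : ℝ) ^ (4 * e1) := by
  have h1 := (Real.tendsto_log_atTop.comp tendsto_natCast_atTop_atTop).eventually_ge_atTop
    (16 / 3 / e1)
  have h2 := ((tendsto_rpow_atTop (by positivity : 0 < 4 * e1)).comp
    tendsto_natCast_atTop_atTop).eventually_ge_atTop (50 * Real.pi)
  obtain ⟨M0, hM0⟩ := Filter.eventually_atTop.1 (h1.and h2)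
  refine ⟨M0, fun m hm => ⟨?_, (hM0 m hm).2⟩⟩
  have h3 : 16 / 3 / e1 ≤ Real.log m := (hM0 m hm).1
  rw [div_le_iff₀ he] at h3
  unfold Tb
  linarith

attribute [local instance] NUSea.seaH

/-- **the one body factor of every object, the tent kept** -/
theorem one_actT (K0 : ℝ) (k0 : ℕ) :
    ∃ C c : ℝ, 0 < C ∧ 0 < c ∧ ∀ e1 : ℝ, 0 < e1 → e1 ≤ 1 / 100 → ∃ M0 : ℕ, ∀ M : ℕ, M0 ≤ M → 1 ≤ M →
      ∀ ep : ℝ, 0 < ep → ep ≤ 1 / 100 → ∀ J : ℝ, 0 ≤ J →
      ∀ T' : ℝ, Tb (Real.log (2 * M + 1 : ℕ)) / (1 - ep) ≤ T' →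
      ∀ (r : ℕ) (O : Fin r → Xo) (i : Fin r),
        ob1c (obE M (4 / 3 * (1 - ep)) fun _ _ => 1) (NUSea.O.par0 (2 * M + 1)).jL
            (ei (NUSea.O.par0 (2 * M + 1)) O i) (rr (NUSea.O.par0 (2 * M + 1)) O i) (O i) *
          Real.exp ((2 * M + 1 : ℕ) * mfH (cons (NUSea.O.par0 (2 * M + 1)) O i) +
            (2 * M + 1 : ℕ) * slkK NUMFH.slkh (kd (O i)) (ht (O i)) -
            2 * Real.pi * NUO.wK (kd (O i)) * hC e1 J (2 * M + 1) (ht (O i)) +
            exc T' (ht (O i)) + K0) *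
            colK (((r : ℝ) + 1) ^ k0) (kd (O i)) ≤
          act C 1 c (1 / 10) (k0 + 6) (Real.log (2 * M + 1 : ℕ)) ep e1 J r (ht (O i)) *
            Real.exp (-gT e1 (Real.log (2 * M + 1 : ℕ)) (ht (O i))) := by
  have hK : 0 ≤ K1c := by
    unfold K1c
    have := l_pos
    positivity
  obtain ⟨C, c, hC', hc, H⟩ := one_actC (κ := 1 / 100) (by norm_num) K0 K1c hK k0
  refine ⟨C, c, hC', hc, fun e1 he he1 => ?_⟩
  obtain ⟨M0, hM0⟩ := exists_M0 he
  refine ⟨M0, fun M hM hM1 ep hep hep1 J hJ T' hT' r O i => ?_⟩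
  obtain ⟨g1, g2⟩ := hM0 (2 * M + 1) (by omega)
  have hmp : (0 : ℝ) < ((2 * M + 1 : ℕ) : ℝ) := by positivity
  have hTp : 0 < Tb (Real.log (2 * M + 1 : ℕ)) := by nlinarith
  obtain ⟨slk', hslk'⟩ : ∃ f : ℝ → ℝ, f = fun t => NUMFH.slkh t + 1 / 100 * NUSea.Ph t := ⟨_, rfl⟩
  have key := H M hM1 _ (NUSea.O.parOK_par0 _) slk' (fun t => by
    have h1 := NUMFH.slkh_le t
    rw [hslk']
    linarith) ep hep hep1 e1 J T' hT' (NUCUR.cur e1 (Tb (Real.log (2 * M + 1 : ℕ))) J)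
    (fun t => NUCUR.cur_nonneg hJ t)
    (fun t ht' => (NUCUR.cur_eq he hTp (ht'.trans (by nlinarith))).ge) r O i
  have hcur := cur_gT_le (J := J) he he1 g1 (ht (O i))
  have hsea := gT_le_Ph hmp g2 (ht (O i))
  have hg0 := gT_nonneg e1 (Real.log (2 * M + 1 : ℕ)) (ht (O i))
  have hPh0 : 0 ≤ ((2 * M + 1 : ℕ) : ℝ) * NUSea.Ph (ht (O i)) := by linarith
  have hpi := Real.pi_pos
  have hob : 0 ≤ ob1c (obE M (4 / 3 * (1 - ep)) fun _ _ => 1) (NUSea.O.par0 (2 * M + 1)).jL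
      (ei (NUSea.O.par0 (2 * M + 1)) O i) (rr (NUSea.O.par0 (2 * M + 1)) O i) (O i) := by
    refine ob1c_nonneg ?_ _ _ ?_ _
    · exact obC_nn fun a u => mul_nonneg (ThN_nonneg u) zero_le_one
    · exact (NUSea.O.rad0_pos _ _ _).le
  have hcol : 0 ≤ colK (((r : ℝ) + 1) ^ k0) (kd (O i)) := by
    have : (0 : ℝ) ≤ ((r : ℝ) + 1) ^ k0 := by positivity
    cases kd (O i) <;> simp only [colK] <;> first | exact this | exact zero_le_one
  obtain ⟨g, hg⟩ : ∃ g, g = gT e1 (Real.log (2 * M + 1 : ℕ)) (ht (O i)) := ⟨_, rfl⟩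
  rw [← hg] at hcur hsea hg0 ⊢
  obtain ⟨h0, hh0⟩ : ∃ h0, h0 = hC e1 J (2 * M + 1) (ht (O i)) := ⟨_, rfl⟩
  rw [← hh0] at hcur ⊢
  obtain ⟨cu, hcu⟩ : ∃ cu, cu = NUCUR.cur e1 (Tb (Real.log (2 * M + 1 : ℕ))) J (ht (O i)) :=
    ⟨_, rfl⟩
  rw [← hcu] at hcur key
  obtain ⟨mm, hmm⟩ : ∃ mm : ℝ, mm = ((2 * M + 1 : ℕ) : ℝ) := ⟨_, rfl⟩
  rw [← hmm] at hPh0 hsea key ⊢
  have hgc : g ≤ 2 * Real.pi * (h0 - cu) := by
    have h1 : g / (2 * Real.pi) ≤ h0 - cu := by linarith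
    rw [div_le_iff₀ (by positivity)] at h1
    linarith
  have hexp : mm * mfH (cons (NUSea.O.par0 (2 * M + 1)) O i) +
      mm * slkK NUMFH.slkh (kd (O i)) (ht (O i)) -
      2 * Real.pi * NUO.wK (kd (O i)) * h0 + exc T' (ht (O i)) + K0 ≤
      (mm * mfH (cons (NUSea.O.par0 (2 * M + 1)) O i) + mm * slkK slk' (kd (O i)) (ht (O i)) -
      2 * Real.pi * NUO.wK (kd (O i)) * cu + exc T' (ht (O i)) + K0) + -g := by
    rcases hk : kd (O i) with _ | _ | _ | _ | _
    · simp only [slkK, NUO.wK]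
      linarith
    · simp only [slkK, NUO.wK]
      linarith
    · simp only [slkK, NUO.wK, hslk']
      linarith
    · simp only [slkK, NUO.wK, hslk']
      linarith
    · simp only [slkK, NUO.wK]
      linarith
  calc _ ≤ ob1c (obE M (4 / 3 * (1 - ep)) fun _ _ => 1) (NUSea.O.par0 (2 * M + 1)).jL
            (ei (NUSea.O.par0 (2 * M + 1)) O i) (rr (NUSea.O.par0 (2 * M + 1)) O i) (O i) *
          Real.exp ((mm * mfH (cons (NUSea.O.par0 (2 * M + 1)) O i) +
            mm * slkK slk' (kd (O i)) (ht (O i)) -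
            2 * Real.pi * NUO.wK (kd (O i)) * cu + exc T' (ht (O i)) + K0) + -g) *
            colK (((r : ℝ) + 1) ^ k0) (kd (O i)) := by
        gcongr
    _ = (ob1c (obE M (4 / 3 * (1 - ep)) fun _ _ => 1) (NUSea.O.par0 (2 * M + 1)).jL
            (ei (NUSea.O.par0 (2 * M + 1)) O i) (rr (NUSea.O.par0 (2 * M + 1)) O i) (O i) *
          Real.exp (mm * mfH (cons (NUSea.O.par0 (2 * M + 1)) O i) +
            mm * slkK slk' (kd (O i)) (ht (O i)) -
            2 * Real.pi * NUO.wK (kd (O i)) * cu + exc T' (ht (O i)) + K0) *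
            colK (((r : ℝ) + 1) ^ k0) (kd (O i))) * Real.exp (-g) := by
        rw [Real.exp_add _ (-g)]
        ring
    _ ≤ _ := mul_le_mul_of_nonneg_right key (Real.exp_pos _).le

end PBP

end
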