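import Pool.Agent.PB.ObZA
import Pool.Agent.PB.PinAct

/-!
# Plan B, rows `0`: the activity of an object with the tent of the current kept

`gT_le_P`: the sea contains the gain; **`one_actZT`**: for any current `h` with
`J + gT / (2 π) ≤ h` in the bulk and `gT / (2 π) ≤ h` everywhere, the one body factor of every object is at
most `act * exp (- gT)`; `hC_gain`: the current `hC` of TARGET-C (number `m` of rows) is such a current.
-/

set_option autoImplicit false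

noncomputable section

open Complex MeasureTheory Set

namespace PBO

open NUP1 NUO NUGC
open PBP (gT gT_nonneg Dg)

/-- the sea contains the gain, rows `0` -/
theorem gT_le_P {e1 m : ℝ} (hm : 0 < m) (h : 50 * Real.pi ≤ m ^ (4 * e1)) (t : ℝ) :
    gT e1 (Real.log m) t ≤ 1 / 100 * (m * NUMF.P t) := by
  have hP := seven_tenths_le_P t
  have hpi := Real.pi_gt_three
  rcases le_total (Dg e1 (Real.log m) - |t|) 0 with h1 | h1
  · unfold gT
    rw [max_eq_right h1, mul_zero]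
    have := (NUMF.P_pos t).le
    positivity
  · unfold gT
    rw [max_eq_left h1]
    have e1' : m * Real.exp (-(8 / 3) * |t|) =
        m ^ (4 * e1) * Real.exp (8 / 3 * (Dg e1 (Real.log m) - |t|)) := by
      have e2 : m = Real.exp (Real.log m) := (Real.exp_log hm).symm
      have e3 : m ^ (4 * e1) = Real.exp (Real.log m * (4 * e1)) := Real.rpow_def_of_pos hm _
      rw [e3, ← Real.exp_add]
      conv_lhs => rw [e2]
      rw [← Real.exp_add]
      congr 1
      unfold Dg Tb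
      ring
    have h3 : 8 / 3 * (Dg e1 (Real.log m) - |t|) ≤ Real.exp (8 / 3 * (Dg e1 (Real.log m) - |t|)) := by
      have := Real.add_one_le_exp (8 / 3 * (Dg e1 (Real.log m) - |t|))
      linarith
    have hE := Real.exp_pos (8 / 3 * (Dg e1 (Real.log m) - |t|))
    have h150 : (150 : ℝ) ≤ m ^ (4 * e1) := by linarith
    calc 8 / 3 * (Dg e1 (Real.log m) - |t|) ≤
        1 / 100 * (7 / 10 * (150 * Real.exp (8 / 3 * (Dg e1 (Real.log m) - |t|)))) := by
          linarith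
      _ ≤ 1 / 100 * (7 / 10 * (m ^ (4 * e1) * Real.exp (8 / 3 * (Dg e1 (Real.log m) - |t|)))) := by
          gcongr
      _ = 1 / 100 * (m * (7 / 10 * Real.exp (-(8 / 3) * |t|))) := by rw [← e1']; ring
      _ ≤ 1 / 100 * (m * NUMF.P t) := by gcongr

/-- **the one body factor of every object, the tent kept**, rows `0` -/
theorem one_actZT (n0 : ℕ) {h0 G : ℝ} (hh : 0 ≤ h0) (hG : 0 < G) (K0 : ℝ) (k0 : ℕ) :
    ∃ C c : ℝ, 0 < C ∧ 0 < c ∧ ∀ e1 : ℝ, 0 < e1 → ∃ m0 : ℕ, ∀ m : ℕ, m0 ≤ m → 3 ≤ m →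
      ∀ ep : ℝ, 0 < ep → ep ≤ 1 / 100 →
      ∀ (B : OB) (K : ℕ) (mu ex W1 W2 : List ℂ) (c0 : ℝ) (g : Bool → ℂ → ℝ),
        ObZ n0 h0 G m (4 / 3 * (1 - ep)) eM B K mu ex W1 W2 c0 g → B.Nn →
      ∀ J : ℝ, ∀ T' : ℝ, Tb (Real.log m) / (1 - ep) ≤ T' → ∀ h : ℝ → ℝ,
      (∀ t, gT e1 (Real.log m) t / (2 * Real.pi) ≤ h t) →
      (∀ t, |t| ≤ (1 - 3 * e1) * Tb (Real.log m) →
        J + gT e1 (Real.log m) t / (2 * Real.pi) ≤ h t) →
      ∀ (r : ℕ) (O : Fin r → Xo) (i : Fin r),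
        ob1c B (@NUSea.O.par0 NUSea.seaP m).jL (ei (@NUSea.O.par0 NUSea.seaP m) O i)
            (rr (@NUSea.O.par0 NUSea.seaP m) O i) (O i) *
          Real.exp (m * @NUSea.O.mfo NUSea.seaP (cons (@NUSea.O.par0 NUSea.seaP m) O i) +
            m * slkK (fun t : ℝ => ∫ u, @NUSea.P NUSea.seaP u * NUC43.slk (u - t)) (kd (O i))
              (ht (O i)) -
            2 * Real.pi * NUO.wK (kd (O i)) * h (ht (O i)) + exc T' (ht (O i)) + K0) *
            colK (((r : ℝ) + 1) ^ k0) (kd (O i)) ≤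
          act C 1 c (1 / 10) (k0 + 6) (Real.log m) ep e1 J r (ht (O i)) *
            Real.exp (-gT e1 (Real.log m) (ht (O i))) := by
  obtain ⟨C, c, hC, hc, H⟩ := one_actZk n0 hh hG (κ := 1 / 100) (by norm_num) K0 k0
  refine ⟨C, c, hC, hc, fun e1 he => ?_⟩
  obtain ⟨M0, hM0⟩ := PBP.exists_M0 he
  refine ⟨M0, fun m hm hm3 ep hep hep1 B K mu ex W1 W2 c0 g hZ hN J T' hT' h hh' hJ r O i => ?_⟩
  obtain ⟨-, g2⟩ := hM0 m hm
  have hmp : (0 : ℝ) < m := by
    have : (3 : ℝ) ≤ m := by exact_mod_cast hm3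
    linarith
  rw [slk0_eq]
  obtain ⟨slk', hslk'⟩ : ∃ f : ℝ → ℝ, f = fun t => NUSlk.slk t + 1 / 100 * NUMF.P t := ⟨_, rfl⟩
  obtain ⟨cu, hcu⟩ : ∃ f : ℝ → ℝ, f = fun t => h t - gT e1 (Real.log m) t / (2 * Real.pi) :=
    ⟨_, rfl⟩
  have key := H m hm3 slk' (fun t => by
    have h1 := NUSlk.slk_le t
    rw [hslk']
    simp only
    linarith) ep hep hep1 B K mu ex W1 W2 c0 g hZ e1 J T' hT' cu
    (fun t => by rw [hcu]; simp only; linarith [hh' t])
    (fun t ht' => by rw [hcu]; simp only; linarith [hJ t ht']) r O i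
  have hsea := gT_le_P hmp g2 (ht (O i))
  have hg0 := gT_nonneg e1 (Real.log m) (ht (O i))
  have hPh0 : 0 ≤ (m : ℝ) * NUMF.P (ht (O i)) := mul_nonneg hmp.le (NUMF.P_pos _).le
  have hpi := Real.pi_pos
  have hob : 0 ≤ ob1c B (@NUSea.O.par0 NUSea.seaP m).jL (ei (@NUSea.O.par0 NUSea.seaP m) O i)
      (rr (@NUSea.O.par0 NUSea.seaP m) O i) (O i) :=
    ob1c_nonneg hN _ _ ((parOK_seaP m).r0 r _).le _
  have hcol : 0 ≤ colK (((r : ℝ) + 1) ^ k0) (kd (O i)) := by
    have : (0 : ℝ) ≤ ((r : ℝ) + 1) ^ k0 := by positivity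
    cases kd (O i) <;> simp only [colK] <;> first | exact this | exact zero_le_one
  obtain ⟨gg, hg⟩ : ∃ gg, gg = gT e1 (Real.log m) (ht (O i)) := ⟨_, rfl⟩
  have hcu' : cu (ht (O i)) = h (ht (O i)) - gg / (2 * Real.pi) := by rw [hcu, hg]
  rw [← hg] at hsea hg0 ⊢
  rw [hcu'] at key
  obtain ⟨hv, hhv⟩ : ∃ hv, hv = h (ht (O i)) := ⟨_, rfl⟩
  rw [← hhv] at key ⊢
  have hgc : 2 * Real.pi * (gg / (2 * Real.pi)) = gg := by field_simp
  have hexp : m * @NUSea.O.mfo NUSea.seaP (cons (@NUSea.O.par0 NUSea.seaP m) O i) +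
      m * slkK NUSlk.slk (kd (O i)) (ht (O i)) -
      2 * Real.pi * NUO.wK (kd (O i)) * hv + exc T' (ht (O i)) + K0 ≤
      (m * @NUSea.O.mfo NUSea.seaP (cons (@NUSea.O.par0 NUSea.seaP m) O i) +
        m * slkK slk' (kd (O i)) (ht (O i)) -
      2 * Real.pi * NUO.wK (kd (O i)) * (hv - gg / (2 * Real.pi)) + exc T' (ht (O i)) + K0) + -gg := by
    rcases hk : kd (O i) with _ | _ | _ | _ | _
    · simp only [slkK, NUO.wK]
      linarith
    · simp only [slkK, NUO.wK]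
      linarith
    · simp only [slkK, NUO.wK, hslk']
      linarith
    · simp only [slkK, NUO.wK, hslk']
      linarith
    · simp only [slkK, NUO.wK]
      linarith
  calc _ ≤ ob1c B (@NUSea.O.par0 NUSea.seaP m).jL (ei (@NUSea.O.par0 NUSea.seaP m) O i)
            (rr (@NUSea.O.par0 NUSea.seaP m) O i) (O i) *
          Real.exp ((m * @NUSea.O.mfo NUSea.seaP (cons (@NUSea.O.par0 NUSea.seaP m) O i) +
            m * slkK slk' (kd (O i)) (ht (O i)) -
            2 * Real.pi * NUO.wK (kd (O i)) * (hv - gg / (2 * Real.pi)) + exc T' (ht (O i)) + K0) +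
              -gg) * colK (((r : ℝ) + 1) ^ k0) (kd (O i)) := by
        gcongr
    _ = (ob1c B (@NUSea.O.par0 NUSea.seaP m).jL (ei (@NUSea.O.par0 NUSea.seaP m) O i)
            (rr (@NUSea.O.par0 NUSea.seaP m) O i) (O i) *
          Real.exp (m * @NUSea.O.mfo NUSea.seaP (cons (@NUSea.O.par0 NUSea.seaP m) O i) +
            m * slkK slk' (kd (O i)) (ht (O i)) -
            2 * Real.pi * NUO.wK (kd (O i)) * (hv - gg / (2 * Real.pi)) + exc T' (ht (O i)) + K0) *
            colK (((r : ℝ) + 1) ^ k0) (kd (O i))) * Real.exp (-gg) := by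
        rw [Real.exp_add _ (-gg)]
        ring
    _ ≤ _ := mul_le_mul_of_nonneg_right key (Real.exp_pos _).le

/-- the current `hC` (tent and plateau) is admissible in `one_actZT` -/
theorem hC_gain {e1 J : ℝ} (he : 0 < e1) (he1 : e1 ≤ 1 / 100) (hJ : 0 ≤ J) {m : ℕ}
    (hT : 2 ≤ e1 * Tb (Real.log m)) :
    (∀ t, gT e1 (Real.log m) t / (2 * Real.pi) ≤ hC e1 J m t) ∧
    ∀ t, |t| ≤ (1 - 3 * e1) * Tb (Real.log m) →
      J + gT e1 (Real.log m) t / (2 * Real.pi) ≤ hC e1 J m t := by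
  have hTp : 0 < Tb (Real.log m) := by nlinarith
  refine ⟨fun t => ?_, fun t ht => ?_⟩
  · have h1 := PBP.cur_gT_le (J := J) he he1 hT t
    have h2 := NUCUR.cur_nonneg (e := e1) (T := Tb (Real.log m)) hJ t
    linarith
  · have h1 := PBP.cur_gT_le (J := J) he he1 hT t
    have h2 := NUCUR.cur_eq he hTp (ht.trans (by nlinarith) : |t| ≤ (1 - 2 * e1) * Tb (Real.log m))
      (J := J)
    linarith

end PBO

end
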