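import Pool.Agent.PB.TopI
import Pool.Agent.PotH.PerH
import Pool.Agent.NUO.OSum

/-!
# Plan B: from the bound of one configuration to the functional (abstract part of TopD)

* `FE_top`: `FnI ≤ M ∏ act exp (- c1 ∑ cnt²)` for every configuration (`M exp (c' L)` if there are more
  than `L` objects) gives `FE ≤ M exp (δ L)`;
* `FE_perH`: the same from the hypotheses of `PotH.perH` (weights `w` of the objects with gains `g`,
  one body bounds with `act`, bound of the gas with the insertion);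
* `tilt_two`, `sum_tilt`: two tilts `b' = ± d` give the factor `exp (- d |n - m|)`, the sum over the
  number `n` of quanta; **`FE_sum`**: all together, `∑ n ≤ 2 m, FE Z P n n η η' (φ n)`.
-/

set_option autoImplicit false
set_option linter.unusedSectionVars false

noncomputable section

open Complex MeasureTheory Finset
open scoped ENNReal

namespace PBF

open NUO NUP1 NUP1S NUP1S.Ab NUP1S.AbC NUGC NUCR

variable {Z : Bool → Option O3 → ℂ → ℂ} {P : NUO.Par} {n n' : ℕ} {η η' : Crs}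

/-- **the sum over the configurations** -/
theorem FE_top {C c b c1 c' : ℝ} (k : ℕ) (hC : 0 < C) (hc : 0 < c) (hb : 0 < b) (hc1 : 0 < c1)
    (hc' : 0 ≤ c') {δ : ℝ} (hδ : 0 < δ) :
    ∃ a0 : ℝ, 0 < a0 ∧ ∀ C' : ℝ, 0 ≤ C' → ∃ D L0 : ℝ, 0 < D ∧
      ∀ L ≥ L0, ∀ ep : ℝ, 0 ≤ ep → ep ≤ 1 / 4 →
      ∀ e1 : ℝ, 0 < e1 → e1 ≤ 1 / 4 → ∀ J : ℝ, 0 ≤ J →
      Real.exp (-(2 * Real.pi * J)) + 3 * e1 + 3 * ep ≤ a0 →
      ∀ M : ℝ, 0 ≤ M →
      ∀ (Z : Bool → Option O3 → ℂ → ℂ) (P : NUO.Par) (n n' : ℕ) (η η' : Crs) (B : OB)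
        (ep' κ x0 : ℝ) (Q : ℤ) (E : Set ℝ), OneC Z B P ep' κ x0 Q E → GoodP P →
        (∀ r O, CurB ep' (η r O) (η' r O)) → ep' ≤ 1 / 100 →
        ((n + n' + 1 : ℕ) : ℝ) ≤ Real.exp (2 * L) → ∀ φ : InsE,
        (∀ r ≤ n + n', ∀ O : Fin r → Xo,
          FnI B P (η r O) (η' r O) n n' O (fun a b x => φ r O a b x) ≤
          ENNReal.ofReal ((if (r : ℝ) ≤ L then M else M * Real.exp (c' * L)) *
          (∏ i, act C C' c b k L ep e1 J r (ht (O i))) *
          Real.exp (-(c1 * ∑ w ∈ WZ D L r, (cO O w : ℝ) ^ 2)))) →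
        FE Z P n n' η η' φ ≤ ENNReal.ofReal (M * Real.exp (δ * L)) := by
  obtain ⟨a0, ha0, H⟩ := xo_sum k hC hc hb hc1 hc' hδ
  refine ⟨a0, ha0, fun C' hC' => ?_⟩
  obtain ⟨D, L0, hD, H1⟩ := H C' hC'
  refine ⟨D, L0, hD, ?_⟩
  intro L hL ep hep0 hep e1 he1 he1' J hJ hsm M hM Z P n n' η η' B ep' κ x0 Q E hO hP hη hep' hR φ
    hF
  refine (FE_le hO hP hη hep' φ).trans ?_
  refine H1 L hL ep hep0 hep e1 he1 he1' J hJ hsm M hM (n + n' + 1) hR
    (fun r O => FnI B P (η r O) (η' r O) n n' O (fun a b x => φ r O a b x)) ?_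
  intro r hr O
  exact hF r (by omega) O

/-- two tilts -/
theorem tilt_two {d : ℝ} {m n : ℝ} {A X : ℝ≥0∞}
    (h : ∀ b' : ℝ, |b'| = d → ENNReal.ofReal (Real.exp (b' * (m - n))) * A ≤ X) (hd : 0 ≤ d) :
    A ≤ ENNReal.ofReal (Real.exp (-(d * |n - m|))) * X := by
  have key : ∀ b' : ℝ, |b'| = d → A ≤ ENNReal.ofReal (Real.exp (-(b' * (m - n)))) * X := by
    intro b' hb'
    have h1 := h b' hb'
    calc A = ENNReal.ofReal (Real.exp (-(b' * (m - n)))) *
          (ENNReal.ofReal (Real.exp (b' * (m - n))) * A) := by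
          rw [← mul_assoc, ← ENNReal.ofReal_mul (Real.exp_pos _).le, ← Real.exp_add, neg_add_cancel,
            Real.exp_zero, ENNReal.ofReal_one, one_mul]
      _ ≤ _ := mul_le_mul' le_rfl h1
  rcases le_total m n with hmn | hmn
  · have h1 := key (-d) (by rw [abs_neg, abs_of_nonneg hd])
    rw [abs_of_nonneg (by linarith : 0 ≤ n - m)]
    rwa [show -(-d * (m - n)) = -(d * (n - m)) by ring] at h1
  · have h1 := key d (abs_of_nonneg hd)
    rw [abs_of_nonpos (by linarith : n - m ≤ 0)]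
    rwa [show -(d * (m - n)) = -(d * -(n - m)) by ring] at h1

/-- the real form of `tilt_two` -/
theorem tilt_two_real {d m n X : ℝ} {A : ℝ≥0∞} (hd : 0 ≤ d)
    (h : ∀ b' : ℝ, |b'| = d → ENNReal.ofReal (Real.exp (b' * (m - n))) * A ≤ ENNReal.ofReal X) :
    A ≤ ENNReal.ofReal (X * Real.exp (-(d * |n - m|))) := by
  have h1 := tilt_two h hd
  rwa [← ENNReal.ofReal_mul (Real.exp_pos _).le, mul_comm] at h1

/-- the geometric sum around `m` -/
theorem sum_exp_abs {d : ℝ} (hd : 0 < d) (m N : ℕ) :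
    ∑ n ∈ range N, Real.exp (-(d * |(n : ℝ) - m|)) ≤ 2 / (1 - Real.exp (-d)) := by
  have hq : Real.exp (-d) < 1 := by
    rw [Real.exp_lt_one_iff]
    linarith
  have hq0 := Real.exp_pos (-d)
  have hs := summable_geometric_of_lt_one hq0.le hq
  have ht := tsum_geometric_of_lt_one hq0.le hq
  -- the part `n ≥ m`
  have h1 : ∑ n ∈ (range N).filter (fun n => m ≤ n), Real.exp (-(d * |(n : ℝ) - m|)) ≤
      1 / (1 - Real.exp (-d)) := by
    rw [one_div, ← ht]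
    have e : ∑ n ∈ (range N).filter (fun n => m ≤ n), Real.exp (-(d * |(n : ℝ) - m|)) =
        ∑ j ∈ ((range N).filter (fun n => m ≤ n)).image (fun n => n - m),
          Real.exp (-d) ^ j := by
      rw [Finset.sum_image]
      · refine Finset.sum_congr rfl fun n hn => ?_
        have hmn : m ≤ n := (Finset.mem_filter.mp hn).2
        rw [← Real.exp_nat_mul]
        congr 1
        have : (m : ℝ) ≤ n := by exact_mod_cast hmn
        rw [abs_of_nonneg (by linarith), Nat.cast_sub hmn]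
        ring
      · intro a ha b hb hab
        have h1 := (Finset.mem_filter.mp ha).2
        have h2 := (Finset.mem_filter.mp hb).2
        simp only at hab
        omega
    rw [e]
    exact hs.sum_le_tsum _ fun j _ => pow_nonneg hq0.le j
  have h2 : ∑ n ∈ (range N).filter (fun n => ¬ m ≤ n), Real.exp (-(d * |(n : ℝ) - m|)) ≤
      1 / (1 - Real.exp (-d)) := by
    rw [one_div, ← ht]
    have e : ∑ n ∈ (range N).filter (fun n => ¬ m ≤ n), Real.exp (-(d * |(n : ℝ) - m|)) =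
        ∑ j ∈ ((range N).filter (fun n => ¬ m ≤ n)).image (fun n => m - n),
          Real.exp (-d) ^ j := by
      rw [Finset.sum_image]
      · refine Finset.sum_congr rfl fun n hn => ?_
        have hmn : n ≤ m := by
          have := (Finset.mem_filter.mp hn).2
          omega
        rw [← Real.exp_nat_mul]
        congr 1
        have : (n : ℝ) ≤ m := by exact_mod_cast hmn
        rw [abs_of_nonpos (by linarith), Nat.cast_sub hmn]
        ring
      · intro a ha b hb hab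
        have h1 := (Finset.mem_filter.mp ha).2
        have h2 := (Finset.mem_filter.mp hb).2
        simp only at hab
        omega
    rw [e]
    exact hs.sum_le_tsum _ fun j _ => pow_nonneg hq0.le j
  calc ∑ n ∈ range N, Real.exp (-(d * |(n : ℝ) - m|)) =
      ∑ n ∈ (range N).filter (fun n => m ≤ n), Real.exp (-(d * |(n : ℝ) - m|)) +
      ∑ n ∈ (range N).filter (fun n => ¬ m ≤ n), Real.exp (-(d * |(n : ℝ) - m|)) :=
        (Finset.sum_filter_add_sum_filter_not _ _ _).symm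
    _ ≤ 1 / (1 - Real.exp (-d)) + 1 / (1 - Real.exp (-d)) := add_le_add h1 h2
    _ = _ := by ring

/-- **the sum over the number of quanta** -/
theorem sum_tilt {d X : ℝ} (hd : 0 < d) (hX : 0 ≤ X) (m N : ℕ) {f : ℕ → ℝ≥0∞}
    (h : ∀ n < N, f n ≤ ENNReal.ofReal (X * Real.exp (-(d * |(n : ℝ) - m|)))) :
    ∑ n ∈ range N, f n ≤ ENNReal.ofReal (X * (2 / (1 - Real.exp (-d)))) := by
  calc ∑ n ∈ range N, f n ≤
      ∑ n ∈ range N, ENNReal.ofReal (X * Real.exp (-(d * |(n : ℝ) - m|))) :=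
        Finset.sum_le_sum fun n hn => h n (Finset.mem_range.1 hn)
    _ = ENNReal.ofReal (∑ n ∈ range N, X * Real.exp (-(d * |(n : ℝ) - m|))) :=
        (ENNReal.ofReal_sum_of_nonneg fun n _ => mul_nonneg hX (Real.exp_pos _).le).symm
    _ ≤ _ := by
        refine ENNReal.ofReal_le_ofReal ?_
        rw [← Finset.mul_sum]
        exact mul_le_mul_of_nonneg_left (sum_exp_abs hd m N) hX

/-- **the functional from the bound of the gas, the one body bounds and the weights** -/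
theorem FE_perH (hS : NUStabP.StabProd) (K K2 : ℝ) : ∃ K' c1 : ℝ, 0 < c1 ∧
    ∀ (C c b c' : ℝ) (k : ℕ), 0 < C → 0 < c → 0 < b → 0 ≤ c' → ∀ δ : ℝ, 0 < δ →
    ∃ a0 : ℝ, 0 < a0 ∧ ∀ C' : ℝ, 0 ≤ C' → ∃ L0 : ℝ,
      ∀ L ≥ L0, ∀ ep : ℝ, 0 ≤ ep → ep ≤ 1 / 4 →
      ∀ e1 : ℝ, 0 < e1 → e1 ≤ 1 / 4 → ∀ J : ℝ, 0 ≤ J →
      Real.exp (-(2 * Real.pi * J)) + 3 * e1 + 3 * ep ≤ a0 →
      ∀ (Z : Bool → Option O3 → ℂ → ℂ) (P : NUO.Par) (n n' : ℕ) (η η' : Crs) (B : OB)
        (ep' κ x0 : ℝ) (Qc : ℤ) (E : Set ℝ), OneC Z B P ep' κ x0 Qc E → GoodP P → B.Nn →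
        P.jL = 9 / 4 → P.e = 1 / 4 → P.d = d0 → (∀ r ≤ n + n', NUDirP.Small 8 P r) →
        (∀ r O, CurB ep' (η r O) (η' r O)) → ep' ≤ 1 / 100 →
        ((n + n' + 1 : ℕ) : ℝ) ≤ Real.exp (2 * L) →
      ∀ (φ : InsE) (g : ℝ → ℝ) (u : (r : ℕ) → (Fin r → Xo) → Fin r → ℝ)
        (w : (r : ℕ) → (Fin r → Xo) → ℝ) (Q Bw : ℝ), 0 ≤ Q → 0 ≤ Bw →
        (∀ r ≤ n + n', ∀ O : Fin r → Xo, 0 ≤ w r O ∧
          w r O ≤ (if (r : ℝ) ≤ L then Bw else Bw * Real.exp (c' * L)) * Real.exp (K2 * r) *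
            Real.exp (∑ i, g (ht (O i)))) →
        (∀ r ≤ n + n', ∀ (O : Fin r → Xo) (i : Fin r),
          ob1c B P.jL (ei P O i) (rr P O i) (O i) * Real.exp (u r O i + K') *
            colK (((r : ℝ) + 1) ^ 12) (kd (O i)) ≤
          act C C' c b k L ep e1 J r (ht (O i)) * Real.exp (-g (ht (O i)))) →
        (∀ r ≤ n + n', ∀ O : Fin r → Xo, chgO O true ≤ n → chgO O false ≤ n' →
          PotH.gasI B P (η r O) (η' r O) O (n - chgO O true) (n' - chgO O false)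
            (φ r O (n - chgO O true) (n' - chgO O false)) ≤
          ENNReal.ofReal (w r O * (Q * Real.exp (∑ i, u r O i + K * r + NUStabP.enC O +
            c1 * NUDispW.win univ fun i => ht (O i))))) →
        FE Z P n n' η η' φ ≤ ENNReal.ofReal (Bw * Q * Real.exp (δ * L)) := by
  obtain ⟨K', c1, hc1, HP⟩ := PotH.perH hS K K2
  refine ⟨K', c1, hc1, ?_⟩
  intro C c b c' k hC hc hb hc' δ hδ
  obtain ⟨a0, ha0, H⟩ := FE_top k hC hc hb hc1 hc' hδ
  refine ⟨a0, ha0, fun C' hC' => ?_⟩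
  obtain ⟨D, L0, hD, H1⟩ := H C' hC'
  refine ⟨L0, ?_⟩
  intro L hL ep hep0 hep e1 he1 he1' J hJ hsm Z P n n' η η' B ep' κ x0 Qc E hO hP hB hj he hd hsml
    hη hep' hR φ g u w Q Bw hQ hBw hw hone hgas
  refine H1 L hL ep hep0 hep e1 he1 he1' J hJ hsm (Bw * Q) (mul_nonneg hBw hQ) Z P n n' η η' B
    ep' κ x0 Qc E hO hP hη hep' hR φ ?_
  intro r hr O
  obtain ⟨hw0, hw1⟩ := hw r hr O
  have hBw' : 0 ≤ (if (r : ℝ) ≤ L then Bw else Bw * Real.exp (c' * L)) := by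
    split_ifs
    · exact hBw
    · exact mul_nonneg hBw (Real.exp_pos _).le
  have key := HP B hB P hj he hd (fun r t => (hP.r0 r t).le) r (hsml r hr) O (η r O) (η' r O) n n'
    (fun a b x => φ r O a b x) (u r O) (fun i => g (ht (O i)))
    (fun i => act C C' c b k L ep e1 J r (ht (O i))) Q
    (if (r : ℝ) ≤ L then Bw else Bw * Real.exp (c' * L)) (w r O) hQ hw0 hBw' hw1
    (fun i => hone r hr O i) (fun h1 h2 => hgas r hr O h1 h2) (WZ D L r)
  refine key.trans (ENNReal.ofReal_le_ofReal (le_of_eq ?_))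
  split_ifs <;> ring

/-- the geometric sum around a real number -/
theorem sum_exp_abs_real {d : ℝ} (hd : 0 < d) (m N : ℕ) (ν : ℝ) :
    ∑ n ∈ range N, Real.exp (-(d * |(n : ℝ) - ν|)) ≤
      Real.exp (d * |ν - m|) * (2 / (1 - Real.exp (-d))) := by
  calc ∑ n ∈ range N, Real.exp (-(d * |(n : ℝ) - ν|)) ≤
      ∑ n ∈ range N, Real.exp (d * |ν - m|) * Real.exp (-(d * |(n : ℝ) - m|)) := by
        refine Finset.sum_le_sum fun n _ => ?_
        rw [← Real.exp_add, Real.exp_le_exp]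
        have h1 : |(n : ℝ) - m| ≤ |(n : ℝ) - ν| + |ν - m| := by
          calc |(n : ℝ) - m| = |((n : ℝ) - ν) + (ν - m)| := by ring_nf
            _ ≤ _ := abs_add_le _ _
        have := mul_le_mul_of_nonneg_left h1 hd.le
        linarith
    _ = Real.exp (d * |ν - m|) * ∑ n ∈ range N, Real.exp (-(d * |(n : ℝ) - m|)) :=
        (Finset.mul_sum _ _ _).symm
    _ ≤ _ := mul_le_mul_of_nonneg_left (sum_exp_abs hd m N) (Real.exp_pos _).le

/-- **the sum over the number of quanta** (`m` rows per group, `n ≤ 2 m` quanta per species): the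
tilted bound of the gas for `b' = ± d` -/
theorem FE_sum (hS : NUStabP.StabProd) (K K2 : ℝ) : ∃ K' c1 : ℝ, 0 < c1 ∧
    ∀ (C c b c' : ℝ) (k : ℕ), 0 < C → 0 < c → 0 < b → 0 ≤ c' → ∀ δ : ℝ, 0 < δ →
    ∃ a0 : ℝ, 0 < a0 ∧ ∀ C' : ℝ, 0 ≤ C' → ∃ L0 : ℝ,
      ∀ L ≥ L0, ∀ ep : ℝ, 0 ≤ ep → ep ≤ 1 / 4 →
      ∀ e1 : ℝ, 0 < e1 → e1 ≤ 1 / 4 → ∀ J : ℝ, 0 ≤ J →
      Real.exp (-(2 * Real.pi * J)) + 3 * e1 + 3 * ep ≤ a0 →
      ∀ (Z : Bool → Option O3 → ℂ → ℂ) (P : NUO.Par) (m : ℕ) (η η' : Crs) (B : OB)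
        (ep' κ x0 : ℝ) (Qc : ℤ) (E : Set ℝ), OneC Z B P ep' κ x0 Qc E → GoodP P → B.Nn →
        P.jL = 9 / 4 → P.e = 1 / 4 → P.d = d0 → (∀ r ≤ 4 * m, NUDirP.Small 8 P r) →
        (∀ r O, CurB ep' (η r O) (η' r O)) → ep' ≤ 1 / 100 →
        ((4 * m + 1 : ℕ) : ℝ) ≤ Real.exp (2 * L) →
      ∀ (φ : ℕ → InsE) (g : ℝ → ℝ) (u : (r : ℕ) → (Fin r → Xo) → Fin r → ℝ)
        (w : ℕ → (r : ℕ) → (Fin r → Xo) → ℝ) (Q Bw d ν : ℝ), 0 ≤ Q → 0 ≤ Bw → 0 < d →
        (∀ n ≤ 2 * m, ∀ r ≤ 2 * n, ∀ O : Fin r → Xo, 0 ≤ w n r O ∧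
          w n r O ≤ (if (r : ℝ) ≤ L then Bw else Bw * Real.exp (c' * L)) * Real.exp (K2 * r) *
            Real.exp (∑ i, g (ht (O i)))) →
        (∀ r ≤ 4 * m, ∀ (O : Fin r → Xo) (i : Fin r),
          ob1c B P.jL (ei P O i) (rr P O i) (O i) * Real.exp (u r O i + K') *
            colK (((r : ℝ) + 1) ^ 12) (kd (O i)) ≤
          act C C' c b k L ep e1 J r (ht (O i)) * Real.exp (-g (ht (O i)))) →
        (∀ b' : ℝ, |b'| = d → ∀ n ≤ 2 * m, ∀ r ≤ 2 * n, ∀ O : Fin r → Xo,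
          chgO O true ≤ n → chgO O false ≤ n →
          ENNReal.ofReal (Real.exp (b' * (ν - n))) *
            PotH.gasI B P (η r O) (η' r O) O (n - chgO O true) (n - chgO O false)
              (φ n r O (n - chgO O true) (n - chgO O false)) ≤
          ENNReal.ofReal (w n r O * (Q * Real.exp (∑ i, u r O i + K * r + NUStabP.enC O +
            c1 * NUDispW.win univ fun i => ht (O i))))) →
        ∑ n ∈ range (2 * m + 1), FE Z P n n η η' (φ n) ≤
          ENNReal.ofReal (Bw * Q * Real.exp (δ * L) *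
            (Real.exp (d * |ν - m|) * (2 / (1 - Real.exp (-d))))) := by
  obtain ⟨K', c1, hc1, HP⟩ := FE_perH hS K K2
  refine ⟨K', c1, hc1, ?_⟩
  intro C c b c' k hC hc hb hc' δ hδ
  obtain ⟨a0, ha0, H⟩ := HP C c b c' k hC hc hb hc' δ hδ
  refine ⟨a0, ha0, fun C' hC' => ?_⟩
  obtain ⟨L0, H1⟩ := H C' hC'
  refine ⟨L0, ?_⟩
  intro L hL ep hep0 hep e1 he1 he1' J hJ hsm Z P m η η' B ep' κ x0 Qc E hO hP hB hj he hd hsml
    hη hep' hR φ g u w Q Bw d ν hQ hBw hd0 hw hone hgas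
  have key : ∀ n ≤ 2 * m, FE Z P n n η η' (φ n) ≤
      ENNReal.ofReal (Bw * (Q * Real.exp (-(d * |(n : ℝ) - ν|))) * Real.exp (δ * L)) := by
    intro n hn
    refine H1 L hL ep hep0 hep e1 he1 he1' J hJ hsm Z P n n η η' B ep' κ x0 Qc E hO hP hB hj he hd
      (fun r hr => hsml r (by omega)) hη hep' (le_trans ?_ hR) (φ n) g u (w n)
      (Q * Real.exp (-(d * |(n : ℝ) - ν|))) Bw (mul_nonneg hQ (Real.exp_pos _).le) hBw
      (fun r hr O => hw n hn r (by omega) O) (fun r hr O i => hone r (by omega) O i) ?_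
    · have : n + n + 1 ≤ 4 * m + 1 := by omega
      exact_mod_cast this
    · intro r hr O h1 h2
      have h3 := tilt_two_real (A := PotH.gasI B P (η r O) (η' r O) O (n - chgO O true)
        (n - chgO O false) (φ n r O (n - chgO O true) (n - chgO O false))) hd0.le
        (fun b' hb' => hgas b' hb' n hn r (by omega) O h1 h2)
      refine h3.trans (ENNReal.ofReal_le_ofReal (le_of_eq ?_))
      ring
  calc ∑ n ∈ range (2 * m + 1), FE Z P n n η η' (φ n) ≤
      ∑ n ∈ range (2 * m + 1), ENNReal.ofReal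
        (Bw * (Q * Real.exp (-(d * |(n : ℝ) - ν|))) * Real.exp (δ * L)) :=
        Finset.sum_le_sum fun n hn => key n (by have := Finset.mem_range.1 hn; omega)
    _ = ENNReal.ofReal (∑ n ∈ range (2 * m + 1),
        Bw * (Q * Real.exp (-(d * |(n : ℝ) - ν|))) * Real.exp (δ * L)) :=
        (ENNReal.ofReal_sum_of_nonneg fun n _ => by positivity).symm
    _ ≤ _ := by
        refine ENNReal.ofReal_le_ofReal ?_
        have e : ∀ n : ℕ, Bw * (Q * Real.exp (-(d * |(n : ℝ) - ν|))) * Real.exp (δ * L) =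
            Bw * Q * Real.exp (δ * L) * Real.exp (-(d * |(n : ℝ) - ν|)) := fun n => by ring
        simp only [e]
        rw [← Finset.mul_sum]
        exact mul_le_mul_of_nonneg_left (sum_exp_abs_real hd0 m (2 * m + 1) ν) (by positivity)

end PBF

end
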