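import Pool.Agent.PB.LErh

/-!
# Plan B: the quadratic form of the rows `x, 0, .., 0` and the legs

`QE mu z = ∑ᵢⱼ mE (muᵢ - muⱼ) + 2 ∑ᵢ lE (z - muᵢ)`; for `mu = (x, 0, .., 0)` it is
`m² mE 0 + 2 m (lE z + mE x - mE 0) + O(1)` (`exists_QE`).
-/

set_option autoImplicit false

namespace NUMFH

open NUMF (l l_pos)

noncomputable section

/-- mean field value of the rows `mu` (both groups) and the legs at `z` -/
def QE {m : ℕ} (mu : Fin m → ℂ) (z : ℂ) : ℝ :=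
  ∑ i, ∑ j, mE (mu i - mu j) + 2 * ∑ i, lE (z - mu i)

theorem QE_cons (n : ℕ) (x z : ℂ) : QE (Fin.cons x (fun _ : Fin n => 0) : Fin (n + 1) → ℂ) z =
    ((n : ℝ) ^ 2 + 1) * mE 0 + 2 * n * mE x + 2 * (lE (z - x) + n * lE z) := by
  unfold QE
  simp only [Fin.sum_univ_succ, Fin.cons_zero, Fin.cons_succ, sub_self, sub_zero, zero_sub, mE_even,
    Finset.sum_const, Finset.card_univ, Fintype.card_fin, nsmul_eq_mul, Finset.sum_add_distrib]
  ring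

/-- **the quadratic form against its linearisation at the rows `0`** -/
theorem exists_QE : ∃ C : ℝ, 0 ≤ C ∧ ∀ (n : ℕ) (x z : ℂ), |x.re| ≤ l → -l ≤ z.re → z.re ≤ 4 * l →
    -l ≤ (z - x).re → (z - x).re ≤ 4 * l →
    |(((n + 1 : ℕ) : ℝ) ^ 2 * mE 0 + 2 * ((n + 1 : ℕ) : ℝ) * (lE z + mE x - mE 0)) -
      QE (Fin.cons x (fun _ : Fin n => 0) : Fin (n + 1) → ℂ) z| ≤ C := by
  obtain ⟨C1, h1, H1⟩ := exists_lE
  obtain ⟨C2, h2, H2⟩ := exists_mE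
  refine ⟨4 * C1 + 4 * C2, by positivity, ?_⟩
  intro n x z hx z1 z2 z3 z4
  have hl := l_pos
  have a1 := H1 z z1 z2
  have a2 := H1 (z - x) z3 z4
  have a3 := H2 x hx
  have a4 := H2 0 (by rw [Complex.zero_re, abs_zero]; exact hl.le)
  rw [QE_cons]
  have e : (((n + 1 : ℕ) : ℝ) ^ 2 * mE 0 + 2 * ((n + 1 : ℕ) : ℝ) * (lE z + mE x - mE 0)) -
      (((n : ℝ) ^ 2 + 1) * mE 0 + 2 * n * mE x + 2 * (lE (z - x) + n * lE z)) =
      2 * lE z - 2 * lE (z - x) + 2 * mE x - 2 * mE 0 := by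
    push_cast
    ring
  rw [e]
  rw [abs_le] at a1 a2 a3 a4 ⊢
  constructor <;> linarith [a1.1, a1.2, a2.1, a2.2, a3.1, a3.2, a4.1, a4.2]

end

end NUMFH
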