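import Pool.Agent.PB.NHat
import Pool.Agent.PB.ValQ

/-!
# Plan B: the normaliser of the doubly dislocated function is the mean field value, exactly

**`nrm_QE`**: `‖sin l * (pre z x * pre z x) / PN z x x‖ * exp (QE x z) = 3/2 * sin l / ‖rh 0‖` for all rows
with `|Re| ≤ l / 2` and `- l ≤ Re (z - xᵢ) ≤ 4 l` off the zeros of `sin (z - xᵢ + 3 l) sin (z - xᵢ + 2 l)`.
-/

set_option autoImplicit false

noncomputable section

open Complex

namespace PBS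

open NUP1.Grand (P)
open NUMFH (mE lE QE)
open PBR (rh rh_neg)

/-- the four sines of a pair of rows -/
def FF (w : ℂ) : ℂ := fw .pos .pos w

theorem FF_def (w : ℂ) : FF w = sin (3 * NUP1.l + w) * sin (3 * NUP1.l - w) *
    (sin (2 * NUP1.l + w) * sin (2 * NUP1.l - w)) := rfl

theorem FF_neg (w : ℂ) : FF (-w) = FF w := by
  rw [FF_def, FF_def]
  simp only [sub_neg_eq_add, ← sub_eq_add_neg]
  ring

theorem prod_both {m : ℕ} (x : Fin m → ℂ) {g : ℂ → ℂ} (hg : ∀ w, g (-w) = g w) :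
    ∏ i, ∏ j, g (x i - x j) = g 0 ^ m * P (fun i j => g (x i - x j)) ^ 2 := by
  have h1 := NUP1.Mu.P_both fun i j : Fin m => g (x i - x j)
  have h2 : P (fun i j => g (x i - x j) * g (x j - x i)) = P (fun i j => g (x i - x j)) ^ 2 := by
    rw [pow_two, ← NUP1.Mu.P_mul]
    refine NUP1.Mu.P_congr fun i j _ => ?_
    rw [show x j - x i = -(x i - x j) by ring, hg]
  rw [← h2, h1]
  have h3 : ∀ i : Fin m, ∏ j, g (x i - x j) = g 0 * ∏ j, (if i = j then 1 else g (x i - x j)) := by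
    intro i
    rw [← Finset.mul_prod_erase Finset.univ (fun j => g (x i - x j)) (Finset.mem_univ i),
      ← Finset.mul_prod_erase Finset.univ (fun j => if i = j then (1 : ℂ) else g (x i - x j))
        (Finset.mem_univ i), if_pos rfl, one_mul, sub_self]
    congr 1
    refine Finset.prod_congr rfl fun j hj => ?_
    rw [if_neg (Finset.ne_of_mem_erase hj).symm]
  rw [Finset.prod_congr rfl fun i _ => h3 i, Finset.prod_mul_distrib, Finset.prod_const,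
    Finset.card_univ, Fintype.card_fin]

theorem FF_ne {w : ℂ} (h : |w.re| ≤ NUP1.l) : FF w ≠ 0 := by
  have hl := PBS.l_pos
  obtain ⟨h1, h2⟩ := abs_le.1 h
  rw [FF_def]
  refine mul_ne_zero (mul_ne_zero ?_ ?_) (mul_ne_zero ?_ ?_)
  all_goals
    refine sin_ne_of_bd ?_ ?_ <;> simp <;> linarith

theorem exp_mE {w : ℂ} (h : |w.re| ≤ NUP1.l) :
    Real.exp (mE w) = ‖rh w‖ ^ 4 / ‖FF w‖ := by
  have hl := PBS.l_pos
  have hll : NUMF.l = NUP1.l := rfl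
  have hF := FF_ne h
  rw [FF_def] at hF ⊢
  have hr : rh w ≠ 0 := PBR.rh_ne_zero (by linarith)
  simp only [mul_ne_zero_iff] at hF
  obtain ⟨⟨f1, f2⟩, f3, f4⟩ := hF
  rw [NUMFH.mE_rh (by rw [hll]; linarith), hll, Real.exp_sub, Real.exp_sub, Real.exp_sub, Real.exp_sub,
    Real.exp_log (norm_pos_iff.2 f1), Real.exp_log (norm_pos_iff.2 f2),
    Real.exp_log (norm_pos_iff.2 f3), Real.exp_log (norm_pos_iff.2 f4), norm_mul, norm_mul,
    norm_mul, show (4 : ℝ) * Real.log ‖rh w‖ = ((4 : ℕ) : ℝ) * Real.log ‖rh w‖ by norm_num,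
    Real.exp_nat_mul, Real.exp_log (norm_pos_iff.2 hr)]
  simp only [div_div]
  ring

theorem Lw_ne {w : ℂ} (h1 : -NUP1.l ≤ w.re) (h2 : w.re ≤ 4 * NUP1.l) : Lw .pos w ≠ 0 := by
  have hl := PBS.l_pos
  refine mul_ne_zero ?_ ?_
  all_goals
    refine sin_ne_of_bd ?_ ?_ <;> simp <;> linarith

theorem exp_lE {w : ℂ} (h1 : -NUP1.l ≤ w.re) (h2 : w.re ≤ 4 * NUP1.l) :
    Real.exp (2 * lE w) = ‖rh w‖ ^ 4 / ‖Lw .pos w‖ ^ 2 := by
  have hl := PBS.l_pos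
  have hll : NUMF.l = NUP1.l := rfl
  have hr : rh w ≠ 0 := PBR.rh_ne_zero (by rw [abs_lt]; constructor <;> linarith)
  have hL := Lw_ne h1 h2
  have e : Lw .pos w = sin (3 * NUP1.l + w) * sin (2 * NUP1.l + w) := by
    show sin (w + 3 * NUP1.l) * sin (w + 2 * NUP1.l) = _
    rw [add_comm w, add_comm w]
  rw [e] at hL ⊢
  obtain ⟨f1, f2⟩ := mul_ne_zero_iff.1 hL
  rw [NUMFH.lE_rh (by rw [hll]; linarith) (by rw [hll]; linarith), hll,
    show 2 * (2 * Real.log ‖rh w‖ - Real.log ‖sin (3 * NUP1.l + w)‖ -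
      Real.log ‖sin (2 * NUP1.l + w)‖) = ((4 : ℕ) : ℝ) * Real.log ‖rh w‖ -
      ((2 : ℕ) : ℝ) * Real.log ‖sin (3 * NUP1.l + w)‖ -
      ((2 : ℕ) : ℝ) * Real.log ‖sin (2 * NUP1.l + w)‖ by push_cast; ring,
    Real.exp_sub, Real.exp_sub, Real.exp_nat_mul, Real.exp_nat_mul, Real.exp_nat_mul,
    Real.exp_log (norm_pos_iff.2 f1), Real.exp_log (norm_pos_iff.2 f2),
    Real.exp_log (norm_pos_iff.2 hr), norm_mul, div_div, mul_pow]

/-- **the normaliser is the mean field value** -/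
theorem nrm_QE {m : ℕ} {x : Fin m → ℂ} {z : ℂ} (hx : ∀ i, |(x i).re| ≤ NUP1.l / 2)
    (h1 : ∀ i, -NUP1.l ≤ (z - x i).re) (h2 : ∀ i, (z - x i).re ≤ 4 * NUP1.l) :
    ‖sin NUP1.l * (pre z x * pre z x) / PN z x x‖ * Real.exp (QE x z) =
      3 / 2 * ‖sin (NUP1.l : ℂ)‖ / ‖rh 0‖ := by
  have hl := PBS.l_pos
  have hr0 : rh 0 ≠ 0 := PBR.rh_ne_zero (by rw [Complex.zero_re, abs_zero]; positivity)
  have hd : ∀ i j, |(x i - x j).re| ≤ NUP1.l := fun i j => rw_sub (hx i) (hx j)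
  have hrd : ∀ i j, rh (x i - x j) ≠ 0 := fun i j => PBR.rh_ne_zero (by linarith [hd i j])
  have hrz : ∀ i, rh (z - x i) ≠ 0 := fun i => PBR.rh_ne_zero (by
    rw [abs_lt]; constructor <;> linarith [h1 i, h2 i])
  have hFd : ∀ i j, FF (x i - x j) ≠ 0 := fun i j => FF_ne (hd i j)
  have hLz : ∀ i, Lw .pos (z - x i) ≠ 0 := fun i => Lw_ne (h1 i) (h2 i)
  have hF0 : FF 0 ≠ 0 := FF_ne (by rw [Complex.zero_re, abs_zero]; exact hl.le)
  -- the exponential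
  have e1 : Real.exp (QE x z) = (∏ i, ∏ j, ‖rh (x i - x j)‖ ^ 4) / (∏ i, ∏ j, ‖FF (x i - x j)‖) *
      ((∏ i, ‖rh (z - x i)‖ ^ 4) / ∏ i, ‖Lw .pos (z - x i)‖ ^ 2) := by
    unfold QE
    rw [Real.exp_add, Real.exp_sum, Finset.mul_sum, Real.exp_sum, ← Finset.prod_div_distrib,
      ← Finset.prod_div_distrib]
    congr 1
    · refine Finset.prod_congr rfl fun i _ => ?_
      rw [Real.exp_sum, ← Finset.prod_div_distrib]
      exact Finset.prod_congr rfl fun j _ => exp_mE (hd i j)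
    · exact Finset.prod_congr rfl fun i _ => exp_lE (h1 i) (h2 i)
  have hbr := congrArg norm (prod_both x rh_neg)
  have hbF := congrArg norm (prod_both x FF_neg)
  rw [norm_mul, norm_pow, norm_pow] at hbr hbF
  simp only [norm_prod] at hbr hbF
  obtain ⟨A, hA⟩ : ∃ A, A = ‖P fun i j => rh (x i - x j)‖ := ⟨_, rfl⟩
  obtain ⟨B, hB⟩ : ∃ B, B = ‖P fun i j => FF (x i - x j)‖ := ⟨_, rfl⟩
  obtain ⟨R, hR⟩ : ∃ R, R = ∏ i, ‖rh (z - x i)‖ := ⟨_, rfl⟩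
  obtain ⟨L, hL⟩ : ∃ L, L = ∏ i, ‖Lw .pos (z - x i)‖ := ⟨_, rfl⟩
  rw [← hA] at hbr
  rw [← hB] at hbF
  have hAp : 0 < A := by
    have : 0 < ∏ i, ∏ j, ‖rh (x i - x j)‖ := Finset.prod_pos fun i _ =>
      Finset.prod_pos fun j _ => norm_pos_iff.2 (hrd i j)
    rw [hbr] at this
    have h0 : A ≠ 0 := by
      intro h
      rw [h] at this
      simp at this
    exact lt_of_le_of_ne (hA ▸ norm_nonneg _) h0.symm
  have hBp : 0 < B := by
    have : 0 < ∏ i, ∏ j, ‖FF (x i - x j)‖ := Finset.prod_pos fun i _ =>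
      Finset.prod_pos fun j _ => norm_pos_iff.2 (hFd i j)
    rw [hbF] at this
    have h0 : B ≠ 0 := by
      intro h
      rw [h] at this
      simp at this
    exact lt_of_le_of_ne (hB ▸ norm_nonneg _) h0.symm
  have hRp : 0 < R := hR ▸ Finset.prod_pos fun i _ => norm_pos_iff.2 (hrz i)
  have hLp : 0 < L := hL ▸ Finset.prod_pos fun i _ => norm_pos_iff.2 (hLz i)
  have hr0p : 0 < ‖rh 0‖ := norm_pos_iff.2 hr0
  have hF0p : 0 < ‖FF 0‖ := norm_pos_iff.2 hF0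
  have hsl : 0 < ‖sin (NUP1.l : ℂ)‖ := norm_pos_iff.2 (sin_ne_of_bd (by simp; exact hl) (by
    simp; linarith))
  -- the norms of the products
  have n1 : (∏ i, ∏ j, ‖rh (x i - x j)‖ ^ 4) = (‖rh 0‖ ^ m * A ^ 2) ^ 4 := by
    rw [← hbr]
    simp only [Finset.prod_pow]
  have n2 : (∏ i, ‖rh (z - x i)‖ ^ 4) = R ^ 4 := by rw [hR, Finset.prod_pow]
  have n3 : (∏ i, ‖Lw .pos (z - x i)‖ ^ 2) = L ^ 2 := by rw [hL, Finset.prod_pow]
  have hpow : ∀ (f : Fin m → Fin m → ℂ) (k : ℕ), P (fun i j => f i j ^ k) = P f ^ k := by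
    intro f k
    unfold P
    rw [← Finset.prod_pow]
    refine Finset.prod_congr rfl fun i _ => ?_
    rw [← Finset.prod_pow]
    refine Finset.prod_congr rfl fun j _ => ?_
    split_ifs
    · rfl
    · rw [one_pow]
  have n4 : ‖pre z x‖ = ‖sin (NUP1.l : ℂ)‖ ^ m * L * B := by
    unfold pre
    rw [norm_mul, norm_prod, hB, hL]
    congr 1
    simp only [norm_mul, Finset.prod_mul_distrib, Finset.prod_const, Finset.card_univ,
      Fintype.card_fin]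
  have n5 : ‖PN z x x‖ = (2 / 3) ^ (m + m + 1) * ‖rh 0‖ * (R ^ 2 * R ^ 2) * (A ^ 2 * A ^ 2) *
      (‖rh 0‖ ^ m * A ^ 2) ^ 2 := by
    unfold PN
    rw [← hbr, hpow fun i j => rh (x i - x j)]
    simp only [norm_mul, norm_prod, norm_pow, norm_div, Complex.norm_ofNat, Finset.prod_pow,
      ← hA, ← hR]
  have hc : (9 / 4 : ℝ) * ‖sin (NUP1.l : ℂ)‖ ^ 2 * ‖rh 0‖ ^ 2 = ‖FF 0‖ := by
    have h3 : FF 0 = (sin (3 * (NUP1.l : ℂ)) * sin (2 * NUP1.l)) ^ 2 := by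
      rw [FF_def]
      simp only [add_zero, sub_zero]
      ring
    have h4 : sin (3 * (NUP1.l : ℂ)) * sin (2 * NUP1.l) = 3 / 2 * sin (NUP1.l : ℂ) * rh 0 := by
      rw [← rh03, ← rh3]
      ring
    rw [h3, h4, norm_pow, norm_mul, norm_mul, norm_div, Complex.norm_ofNat, Complex.norm_ofNat]
    ring
  rw [e1, n1, n2, n3, hbF, norm_div, norm_mul, norm_mul, n4, n5, ← hc]
  obtain ⟨S, hS⟩ : ∃ S, S = ‖sin (NUP1.l : ℂ)‖ := ⟨_, rfl⟩
  obtain ⟨r, hr⟩ : ∃ r, r = ‖rh 0‖ := ⟨_, rfl⟩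
  rw [← hS] at hsl ⊢
  rw [← hr] at hr0p ⊢
  have e2 : ((9 / 4 : ℝ) * S ^ 2 * r ^ 2) ^ m = (3 / 2 : ℝ) ^ (m + m) * (S ^ m) ^ 2 * (r ^ m) ^ 2 := by
    rw [mul_pow, mul_pow, show (9 / 4 : ℝ) = (3 / 2) ^ 2 by norm_num, ← pow_mul, ← pow_mul,
      ← pow_mul, ← pow_mul, ← pow_mul, mul_comm m 2, ← two_mul]
  have e3 : (2 / 3 : ℝ) ^ (m + m + 1) * (3 / 2) ^ (m + m) = 2 / 3 := by
    rw [pow_succ, mul_right_comm, ← mul_pow]
    norm_num
  rw [e2]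
  have hSm : 0 < S ^ m := pow_pos hsl _
  have hrm : 0 < r ^ m := pow_pos hr0p _
  obtain ⟨Sm, hSm'⟩ : ∃ Sm, Sm = S ^ m := ⟨_, rfl⟩
  obtain ⟨rm, hrm'⟩ : ∃ rm, rm = r ^ m := ⟨_, rfl⟩
  obtain ⟨c1, hc1⟩ : ∃ c1 : ℝ, c1 = (2 / 3) ^ (m + m + 1) := ⟨_, rfl⟩
  obtain ⟨c2, hc2⟩ : ∃ c2 : ℝ, c2 = (3 / 2) ^ (m + m) := ⟨_, rfl⟩
  rw [← hSm'] at hSm ⊢
  rw [← hrm'] at hrm ⊢
  rw [← hc1, ← hc2] at e3 ⊢
  have hc1p : 0 < c1 := by rw [hc1]; positivity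
  have hc2p : 0 < c2 := by rw [hc2]; positivity
  rw [div_mul_div_comm, div_mul_div_comm, div_eq_div_iff (by positivity) (by positivity)]
  linear_combination (-(3 / 2 : ℝ)) * (S * Sm ^ 2 * L ^ 2 * B ^ 2 * rm ^ 4 * A ^ 8 * R ^ 4 * r) * e3
end PBS

end
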