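import Pool.Agent.PB.ValH
import Pool.Agent.PB.ValE

/-!
# Plan B: the value of class D (rows `x, 0, .., 0` in both groups, legs at `z`)

`nrm z mu = ‖sin l * (pre z mu * pre z mu) / PN z mu mu‖`: the normaliser in front of the sum over the
quanta of the doubly dislocated function (`PBS.SS_eq`, `PBS.nh`).

* `nrm_MF`: `nrm z mu * exp (m² mE 0 + 2 m (lE z + mE x - mE 0)) = e^{O(1)}`;
* **`exists_valD`**: for the sea at rows `0`, every admissible curve, `h = m P η`, every `κ`: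
  `nrm z mu * exp (MF m + ∑ₐ ∫ m P Hleg κ) ≤ C exp (- 12 l h(Im z) + 24 κ l h(0))`,
  uniformly in `m`, the heights of `z` and `x`, `- 9 l / 10 ≤ Re z ≤ 37 l / 10`.
-/

set_option autoImplicit false
set_option linter.unusedSectionVars false

open MeasureTheory Set Filter Topology Complex

namespace PBV

open NUMF (l l_pos)
open NUMFH (mE lE QE)
open PBS (pre PN)
open PBH (Hleg)

noncomputable section

/-- modulus of the normaliser of the sum over the quanta -/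
def nrm {m : ℕ} (z : ℂ) (mu : Fin m → ℂ) : ℝ :=
  ‖sin (NUP1.l : ℂ) * (pre z mu * pre z mu) / PN z mu mu‖

/-- rows `x, 0, .., 0` -/
def mu0 (n : ℕ) (x : ℂ) : Fin (n + 1) → ℂ := Fin.cons x fun _ => 0

theorem mu0_zero (n : ℕ) : mu0 n 0 = fun _ => 0 := by
  funext i
  refine Fin.cases ?_ (fun j => ?_) i <;> simp [mu0]

theorem mu0_re {n : ℕ} {x : ℂ} (hx : |x.re| ≤ l / 2) (i : Fin (n + 1)) : |(mu0 n x i).re| ≤ l / 2 := by
  have hl := l_pos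
  unfold mu0
  refine Fin.cases ?_ (fun j => ?_) i
  · simpa using hx
  · simp only [Fin.cons_succ, Complex.zero_re, abs_zero]
    positivity

theorem mu0_z {n : ℕ} {x z : ℂ} {P : ℂ → Prop} (h0 : P z) (h1 : P (z - x)) (i : Fin (n + 1)) :
    P (z - mu0 n x i) := by
  unfold mu0
  refine Fin.cases ?_ (fun j => ?_) i
  · simpa using h1
  · simpa using h0

/-- **the normaliser against the linearised mean field value** -/
theorem nrm_MF : ∃ C : ℝ, 1 ≤ C ∧ ∀ (n : ℕ) (x z : ℂ), |x.re| ≤ l / 2 → -l ≤ z.re → z.re ≤ 4 * l →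
    -l ≤ (z - x).re → (z - x).re ≤ 4 * l →
    nrm z (mu0 n x) *
      Real.exp (((n + 1 : ℕ) : ℝ) ^ 2 * mE 0 + 2 * ((n + 1 : ℕ) : ℝ) * (lE z + mE x - mE 0)) ≤ C ∧
    C⁻¹ ≤ nrm z (mu0 n x) *
      Real.exp (((n + 1 : ℕ) : ℝ) ^ 2 * mE 0 + 2 * ((n + 1 : ℕ) : ℝ) * (lE z + mE x - mE 0)) := by
  obtain ⟨C, hC, H⟩ := NUMFH.exists_QE
  have hl := l_pos
  have hr0 : PBR.rh 0 ≠ 0 := PBR.rh_ne_zero (by
    rw [Complex.zero_re, abs_zero]
    exact mul_pos (by norm_num) PBS.l_pos)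
  have hs0 : sin (NUP1.l : ℂ) ≠ 0 := PBS.sin_ne_of_bd (by simp; exact PBS.l_pos) (by
    simp
    have := PBS.l_pos
    linarith)
  obtain ⟨c0, hc0⟩ : ∃ c0 : ℝ, c0 = 3 / 2 * ‖sin (NUP1.l : ℂ)‖ / ‖PBR.rh 0‖ := ⟨_, rfl⟩
  have hc0p : 0 < c0 := by
    rw [hc0]
    have := norm_pos_iff.2 hr0
    have := norm_pos_iff.2 hs0
    positivity
  refine ⟨(c0 + c0⁻¹ + 1) * Real.exp C, ?_, ?_⟩
  · have h1 := Real.one_le_exp hC
    have h2 : 0 < c0⁻¹ := inv_pos.2 hc0p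
    nlinarith
  intro n x z hx z1 z2 z3 z4
  have key := PBS.nrm_QE (x := mu0 n x) (z := z) (fun i => mu0_re hx i)
    (fun i => mu0_z (P := fun w => -NUP1.l ≤ w.re) z1 z3 i)
    (fun i => mu0_z (P := fun w => w.re ≤ 4 * NUP1.l) z2 z4 i)
  rw [← hc0] at key
  have hq := H n x z (by linarith) z1 z2 z3 z4
  obtain ⟨A, hA⟩ : ∃ A : ℝ, A = ((n + 1 : ℕ) : ℝ) ^ 2 * mE 0 +
    2 * ((n + 1 : ℕ) : ℝ) * (lE z + mE x - mE 0) := ⟨_, rfl⟩
  rw [← hA] at hq ⊢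
  obtain ⟨B, hB⟩ : ∃ B : ℝ, B = QE (mu0 n x) z := ⟨_, rfl⟩
  have hq' : |A - B| ≤ C := by
    rw [hB]
    exact hq
  rw [← hB] at key
  have hkey : nrm z (mu0 n x) * Real.exp B = c0 := key
  have e : nrm z (mu0 n x) * Real.exp A = c0 * Real.exp (A - B) := by
    rw [← hkey, mul_assoc, ← Real.exp_add]
    congr 2
    ring
  obtain ⟨q1, q2⟩ := abs_le.1 hq'
  have h2 : 0 < c0⁻¹ := inv_pos.2 hc0p
  rw [e]
  constructor
  · exact mul_le_mul (by linarith) (Real.exp_le_exp.2 q2) (Real.exp_pos _).le (by positivity)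
  · rw [mul_inv, ← Real.exp_neg]
    refine mul_le_mul ?_ (Real.exp_le_exp.2 q1) (Real.exp_pos _).le hc0p.le
    rw [inv_le_comm₀ (by positivity) hc0p]
    linarith

section P0

attribute [local instance] NUSea.seaP

theorem MF_seaP (s : ℝ) : NUSea.MF s = s ^ 2 * mE 0 := by
  unfold NUSea.MF
  rw [NUSea.v_seaP, NUSea.P_seaP, NUMFH.int_P_v]

/-- **the value of class D**, every admissible curve -/
theorem exists_valD {e1 Cc : ℝ} (he : 0 < e1) (he1 : e1 ≤ 1) (hCc : 0 ≤ Cc) : ∃ C : ℝ, 1 ≤ C ∧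
    ∀ (n : ℕ) (η η1 : ℝ → ℝ), PotH.CrvP e1 Cc (n + 1) η η1 →
    (∀ t, |NUSea.hd ((n + 1 : ℕ) : ℝ) η η1 t| ≤ 1) → ∀ (κ : ℝ) (z x : ℂ), |κ| ≤ 2 →
      -(9 / 10 * l) ≤ z.re → z.re ≤ 37 / 10 * l → |x.re| ≤ l / 2 → -l ≤ (z - x).re →
      (z - x).re ≤ 4 * l →
      nrm z (mu0 n x) * Real.exp (NUSea.MF ((n + 1 : ℕ) : ℝ) +
        ∑ a : Bool, ∫ t, ((n + 1 : ℕ) : ℝ) * NUSea.P t * Hleg κ z x η a t) ≤
      C * Real.exp (-(12 * l * (((n + 1 : ℕ) : ℝ) * NUSea.P z.im * η z.im)) +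
        24 * κ * l * (((n + 1 : ℕ) : ℝ) * NUSea.P 0 * η 0)) := by
  obtain ⟨C1, hC1, H1⟩ := nrm_MF
  obtain ⟨C2, hC2, H2⟩ := exists_HDc he he1 hCc
  refine ⟨C1 * Real.exp (2 * C2), ?_, ?_⟩
  · have h1 := Real.one_le_exp (show 0 ≤ 2 * C2 by linarith)
    nlinarith
  intro n η η1 hcv hA κ z x hκ z1 z2 hx z3 z4
  have hl := l_pos
  obtain ⟨a1, -⟩ := H1 n x z hx (by linarith) (by linarith) z3 z4
  have b1 := (H2 (n + 1) η η1 (by omega) hcv hA κ z x hκ z1 z2 hx true).2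
  have b2 := (H2 (n + 1) η η1 (by omega) hcv hA κ z x hκ z1 z2 hx false).2
  rw [Fintype.sum_bool, MF_seaP]
  have e0 : (NUSea.P : ℝ → ℝ) = NUMF.P := rfl
  rw [e0]
  have hn : 0 ≤ nrm z (mu0 n x) := norm_nonneg _
  obtain ⟨A, hA'⟩ : ∃ A : ℝ, A = ((n + 1 : ℕ) : ℝ) ^ 2 * mE 0 +
    2 * ((n + 1 : ℕ) : ℝ) * (lE z + mE x - mE 0) := ⟨_, rfl⟩
  rw [← hA'] at a1
  have h3 : ((n + 1 : ℕ) : ℝ) ^ 2 * mE 0 +
      ((∫ t, ((n + 1 : ℕ) : ℝ) * NUMF.P t * Hleg κ z x η true t) +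
        ∫ t, ((n + 1 : ℕ) : ℝ) * NUMF.P t * Hleg κ z x η false t) ≤ A + (2 * C2 +
      (-(12 * l * (((n + 1 : ℕ) : ℝ) * NUMF.P z.im * η z.im)) +
        24 * κ * l * (((n + 1 : ℕ) : ℝ) * NUMF.P 0 * η 0))) := by
    rw [hA']
    have c1 := (abs_le.1 b1).2
    have c2 := (abs_le.1 b2).2
    linarith
  calc _ ≤ nrm z (mu0 n x) * Real.exp (A + (2 * C2 +
      (-(12 * l * (((n + 1 : ℕ) : ℝ) * NUMF.P z.im * η z.im)) +
        24 * κ * l * (((n + 1 : ℕ) : ℝ) * NUMF.P 0 * η 0)))) :=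
        mul_le_mul_of_nonneg_left (Real.exp_le_exp.2 h3) hn
    _ = (nrm z (mu0 n x) * Real.exp A) * Real.exp (2 * C2) *
        Real.exp (-(12 * l * (((n + 1 : ℕ) : ℝ) * NUMF.P z.im * η z.im)) +
        24 * κ * l * (((n + 1 : ℕ) : ℝ) * NUMF.P 0 * η 0)) := by
        rw [Real.exp_add, Real.exp_add]
        ring
    _ ≤ _ := by
        refine mul_le_mul_of_nonneg_right ?_ (Real.exp_pos _).le
        exact mul_le_mul_of_nonneg_right a1 (Real.exp_pos _).le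

end P0

end

end PBV
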