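import Pool.Agent.NUP1.Defs

/-!
# Plan B: the bulk pair factor `rho` without removable singularities

`rho w = sin (3l + w) sin (3l - w) tan (4w/3) / sin w` (`l = π/8`) is the restriction of
`rh w = (4c² + 2√2 c - 1) c cos (w/3) / ((c + √2/2) (2c + 1))`, `c = cos (2w/3)`.

* `rh_prod`: product of sines `sk k w = sin ((k l - w) / 3)`;
* `rh_eq`: the literal quotient; `rh_neg`, `rh_conj`, `rh_zero`, `rh_three`;
* `rh_mul : rh w * rh (w + 3l) = sin (3l - w) sin (2l - w)`, `rh_mul'` the mirror;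
* `rh_ne_zero` (`|Re w| < 5l`), `differentiableAt_rh`, `analyticAt_rh`, `continuousAt_rh` (`|Re w| < 8l`);
* `rh_upper`, `rh_lower`: `c e^{|Im w|} ≤ ‖rh w‖ ≤ C e^{|Im w|}`;
* `rh_I`: positive on the imaginary axis.
-/

set_option autoImplicit false

noncomputable section

namespace PBR

open Complex NUP1

/-- `√2` as a complex number -/
def r2 : ℂ := ((Real.sqrt 2 : ℝ) : ℂ)

theorem r2_sq : r2 ^ 2 = 2 := by
  unfold r2
  rw [← Complex.ofReal_pow, Real.sq_sqrt (by norm_num)]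
  norm_num

/-- `cos (2w/3)` -/
def cc (w : ℂ) : ℂ := cos (2 * w / 3)

/-- the bulk pair factor -/
def rh (w : ℂ) : ℂ :=
  (4 * cc w ^ 2 + 2 * r2 * cc w - 1) * cc w * cos (w / 3) / ((cc w + r2 / 2) * (2 * cc w + 1))

/-- the sines of the product formula -/
def sk (k : ℝ) (w : ℂ) : ℂ := sin ((k * l - w) / 3)

theorem l_pos' : 0 < l := by unfold l; positivity

/-- difference of two cosines -/
theorem cos_sub_aux (w α : ℂ) : cos (2 * w / 3) - cos α = 2 * (sin (α / 2 + w / 3) * sin (α / 2 - w / 3)) := by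
  rw [Complex.cos_sub_cos, show (2 * w / 3 + α) / 2 = α / 2 + w / 3 by ring,
    show (2 * w / 3 - α) / 2 = -(α / 2 - w / 3) by ring, Complex.sin_neg]
  ring

theorem sk_supp (k : ℝ) (w : ℂ) : sk (24 - k) w = sin ((k * l + w) / 3) := by
  unfold sk
  have : (((24 - k : ℝ) : ℂ) * l - w) / 3 = (Real.pi : ℂ) - (k * l + w) / 3 := by
    unfold l; push_cast; ring
  rw [this, sin_pi_sub]

/-- `cc w - cos (2 k l / 3) = 2 sk k w sk (24 - k) w` -/
theorem cc_sub (k : ℝ) (w : ℂ) : cc w - cos (2 * (k * l) / 3) = 2 * (sk k w * sk (24 - k) w) := by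
  rw [sk_supp]
  unfold cc sk
  rw [cos_sub_aux w (2 * (k * l) / 3)]
  rw [show (2 * ((k : ℂ) * l) / 3) / 2 + w / 3 = (k * l + w) / 3 by ring,
    show (2 * ((k : ℂ) * l) / 3) / 2 - w / 3 = (k * l - w) / 3 by ring]
  ring

theorem cos_pi4 : cos ((Real.pi : ℂ) / 4) = r2 / 2 := by
  unfold r2
  rw [show ((Real.pi : ℂ) / 4) = ((Real.pi / 4 : ℝ) : ℂ) by push_cast; ring, ← Complex.ofReal_cos,
    Real.cos_pi_div_four]
  push_cast; ring

/-- `k = 6`: `cc w = 2 sk 6 w sk 18 w` -/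
theorem cc_six (w : ℂ) : cc w = 2 * (sk 6 w * sk 18 w) := by
  have h := cc_sub 6 w
  rw [show (2 * (((6 : ℝ) : ℂ) * l) / 3) = (Real.pi : ℂ) / 2 by unfold l; push_cast; ring,
    Complex.cos_pi_div_two, sub_zero] at h
  rw [h]; norm_num

/-- `k = 9` -/
theorem cc_nine (w : ℂ) : cc w + r2 / 2 = 2 * (sk 9 w * sk 15 w) := by
  have h := cc_sub 9 w
  rw [show (2 * (((9 : ℝ) : ℂ) * l) / 3) = (Real.pi : ℂ) - Real.pi / 4 by unfold l; push_cast; ring,
    Complex.cos_pi_sub, cos_pi4] at h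
  rw [show cc w + r2 / 2 = cc w - -(r2 / 2) by ring, h]; norm_num

/-- `k = 8` -/
theorem cc_eight (w : ℂ) : 2 * cc w + 1 = 4 * (sk 8 w * sk 16 w) := by
  have h := cc_sub 8 w
  have h3 : cos ((Real.pi : ℂ) / 3) = 1 / 2 := by
    rw [show ((Real.pi : ℂ) / 3) = ((Real.pi / 3 : ℝ) : ℂ) by push_cast; ring, ← Complex.ofReal_cos,
      Real.cos_pi_div_three]
    push_cast; ring
  rw [show (2 * (((8 : ℝ) : ℂ) * l) / 3) = (Real.pi : ℂ) - Real.pi / 3 by unfold l; push_cast; ring,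
    Complex.cos_pi_sub, h3] at h
  rw [show 2 * cc w + 1 = 2 * (cc w - -(1 / 2)) by ring, h]; norm_num; ring

/-- `k = 5, 11` -/
theorem cc_quad (w : ℂ) :
    4 * cc w ^ 2 + 2 * r2 * cc w - 1 = 16 * (sk 5 w * sk 19 w) * (sk 11 w * sk 13 w) := by
  have h5 := cc_sub 5 w
  have h11 := cc_sub 11 w
  set a : ℂ := cos (2 * (((5 : ℝ) : ℂ) * l) / 3) with ha
  set b : ℂ := cos (2 * (((11 : ℝ) : ℂ) * l) / 3) with hb
  have e5 : (2 * (((5 : ℝ) : ℂ) * l) / 3) = (2 / 3 * (Real.pi : ℂ)) - Real.pi / 4 := by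
    unfold l; push_cast; ring
  have e11 : (2 * (((11 : ℝ) : ℂ) * l) / 3) = (2 / 3 * (Real.pi : ℂ)) + Real.pi / 4 := by
    unfold l; push_cast; ring
  have c23 : cos (2 / 3 * (Real.pi : ℂ)) = -(1 / 2) := by
    rw [show (2 / 3 * (Real.pi : ℂ)) = Real.pi - ((Real.pi / 3 : ℝ) : ℂ) by push_cast; ring,
      Complex.cos_pi_sub, ← Complex.ofReal_cos, Real.cos_pi_div_three]
    push_cast; ring
  have s23 : sin (2 / 3 * (Real.pi : ℂ)) ^ 2 = 3 / 4 := by
    have := Complex.sin_sq_add_cos_sq (2 / 3 * (Real.pi : ℂ))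
    rw [c23] at this
    linear_combination this
  have s4 : sin ((Real.pi : ℂ) / 4) = r2 / 2 := by
    unfold r2
    rw [show ((Real.pi : ℂ) / 4) = ((Real.pi / 4 : ℝ) : ℂ) by push_cast; ring, ← Complex.ofReal_sin,
      Real.sin_pi_div_four]
    push_cast; ring
  have hab : a + b = -(r2 / 2) := by
    rw [ha, hb, e5, e11, Complex.cos_sub, Complex.cos_add, c23, cos_pi4]; ring
  have hab2 : a * b = -(1 / 4) := by
    rw [ha, hb, e5, e11, Complex.cos_sub, Complex.cos_add, c23, cos_pi4, s4]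
    linear_combination (-r2 ^ 2 / 4) * s23 + (-1 / 8) * r2_sq
  have : 4 * cc w ^ 2 + 2 * r2 * cc w - 1 = 4 * ((cc w - a) * (cc w - b)) := by
    linear_combination (4 * cc w) * hab - 4 * hab2
  rw [this, h5, h11]
  norm_num; ring

theorem cos_third (w : ℂ) : cos (w / 3) = sk 12 w := by
  unfold sk
  rw [show (((12 : ℝ) : ℂ) * l - w) / 3 = (Real.pi : ℂ) / 2 - w / 3 by unfold l; push_cast; ring,
    Complex.sin_pi_div_two_sub]

/-- **product formula** -/
theorem rh_prod (w : ℂ) : rh w = 4 * (sk 5 w * sk 19 w * sk 11 w * sk 13 w * sk 6 w * sk 18 w * sk 12 w) /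
    (sk 9 w * sk 15 w * sk 8 w * sk 16 w) := by
  unfold rh
  rw [cc_quad, cc_nine, cc_eight, cc_six, cos_third]
  rw [show 16 * (sk 5 w * sk 19 w) * (sk 11 w * sk 13 w) * (2 * (sk 6 w * sk 18 w)) * sk 12 w =
    8 * (4 * (sk 5 w * sk 19 w * sk 11 w * sk 13 w * sk 6 w * sk 18 w * sk 12 w)) by ring,
    show 2 * (sk 9 w * sk 15 w) * (4 * (sk 8 w * sk 16 w)) = 8 * (sk 9 w * sk 15 w * sk 8 w * sk 16 w) by ring]
  rw [mul_div_mul_left _ _ (by norm_num : (8 : ℂ) ≠ 0)]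

/-! ### symmetries -/

theorem cc_neg (w : ℂ) : cc (-w) = cc w := by
  unfold cc; rw [show 2 * -w / 3 = -(2 * w / 3) by ring, Complex.cos_neg]

theorem rh_neg (w : ℂ) : rh (-w) = rh w := by
  unfold rh; rw [cc_neg, show -w / 3 = -(w / 3) by ring, Complex.cos_neg]

theorem cc_conj (w : ℂ) : cc (starRingEnd ℂ w) = starRingEnd ℂ (cc w) := by
  unfold cc
  rw [← Complex.cos_conj]; congr 1
  simp [map_ofNat]

theorem r2_conj : starRingEnd ℂ r2 = r2 := Complex.conj_ofReal _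

theorem rh_conj (w : ℂ) : rh (starRingEnd ℂ w) = starRingEnd ℂ (rh w) := by
  unfold rh
  rw [cc_conj]
  rw [show cos (starRingEnd ℂ w / 3) = starRingEnd ℂ (cos (w / 3)) by
    rw [← Complex.cos_conj]; congr 1; simp [map_ofNat]]
  simp [r2_conj, map_ofNat]

/-! ### zeros of the sines -/

theorem sk_zero {k : ℝ} {w : ℂ} (h : sk k w = 0) : ∃ n : ℤ, w.re = (k - 24 * n) * l ∧ w.im = 0 := by
  unfold sk at h
  obtain ⟨n, hn⟩ := Complex.sin_eq_zero_iff.1 h
  refine ⟨n, ?_, ?_⟩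
  · have h1 := congrArg Complex.re hn
    simp at h1
    have hl : l = Real.pi / 8 := rfl
    rw [hl] at h1 ⊢
    linarith
  · have h1 := congrArg Complex.im hn
    simp at h1
    linarith

theorem sk_ne {k b : ℝ} {w : ℂ} (hw : |w.re| < b * l) (hk : ∀ n : ℤ, b ≤ |k - 24 * n|) : sk k w ≠ 0 := by
  intro h
  obtain ⟨n, h1, -⟩ := sk_zero h
  rw [h1, abs_mul, abs_of_pos l_pos'] at hw
  exact absurd (lt_of_mul_lt_mul_right hw l_pos'.le) (not_lt.2 (hk n))

theorem far_int {k b : ℝ} (h1 : b ≤ k) (h2 : k ≤ 24 - b) (n : ℤ) : b ≤ |k - 24 * n| := by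
  rcases le_or_gt n 0 with hn | hn
  · have : (n : ℝ) ≤ 0 := by exact_mod_cast hn
    exact le_trans (by linarith) (le_abs_self _)
  · have : (1 : ℝ) ≤ n := by exact_mod_cast hn
    exact le_trans (by linarith) (neg_le_abs _)

theorem den_ne {w : ℂ} (hw : |w.re| < 8 * l) : sk 9 w * sk 15 w * sk 8 w * sk 16 w ≠ 0 := by
  refine mul_ne_zero (mul_ne_zero (mul_ne_zero ?_ ?_) ?_) ?_ <;>
    exact sk_ne hw (far_int (by norm_num) (by norm_num))

theorem den_ne1 {w : ℂ} (hw : |w.re| < 8 * l) : (cc w + r2 / 2) * (2 * cc w + 1) ≠ 0 := by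
  rw [cc_nine, cc_eight]
  have := den_ne hw
  intro h
  apply this
  linear_combination h / 8

/-- **no zero for `|Re w| < 5 l`** -/
theorem rh_ne_zero {w : ℂ} (hw : |w.re| < 5 * l) : rh w ≠ 0 := by
  have hl := l_pos'
  rw [rh_prod]
  refine div_ne_zero (mul_ne_zero (by norm_num) ?_) (den_ne (by linarith))
  refine mul_ne_zero (mul_ne_zero (mul_ne_zero (mul_ne_zero (mul_ne_zero (mul_ne_zero ?_ ?_) ?_) ?_) ?_) ?_) ?_ <;>
    exact sk_ne hw (far_int (by norm_num) (by norm_num))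

/-! ### the functional relation -/

theorem sk_shift (k : ℝ) (w : ℂ) : sk k (w + 3 * l) = sk (k - 3) w := by
  unfold sk; congr 1; push_cast; ring

theorem sin_three (x : ℂ) : sin (3 * x) = 4 * (sin x * sin (Real.pi / 3 - x) * sin (Real.pi / 3 + x)) := by
  have c3 : cos ((Real.pi : ℂ) / 3) = 1 / 2 := by
    rw [show ((Real.pi : ℂ) / 3) = ((Real.pi / 3 : ℝ) : ℂ) by push_cast; ring, ← Complex.ofReal_cos,
      Real.cos_pi_div_three]
    push_cast; ring
  have s3 : sin ((Real.pi : ℂ) / 3) ^ 2 = 3 / 4 := by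
    have := Complex.sin_sq_add_cos_sq ((Real.pi : ℂ) / 3)
    rw [c3] at this
    linear_combination this
  rw [Complex.sin_three_mul, Complex.sin_sub, Complex.sin_add, c3]
  have h := Complex.sin_sq_add_cos_sq x
  linear_combination (-4 * sin x * cos x ^ 2) * s3 - 3 * sin x * h

theorem sin_sub_prod (k : ℝ) (w : ℂ) : sin (k * l - w) = 4 * (sk k w * sk (16 + k) w * sk (8 + k) w) := by
  have h := sin_three ((k * l - w) / 3)
  rw [show 3 * (((k : ℂ) * l - w) / 3) = k * l - w by ring] at h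
  rw [h]
  have e1 : sin ((Real.pi : ℂ) / 3 - (k * l - w) / 3) = sk (16 + k) w := by
    unfold sk
    rw [← Complex.sin_pi_sub]; congr 1; unfold l; push_cast; ring
  have e2 : sin ((Real.pi : ℂ) / 3 + (k * l - w) / 3) = sk (8 + k) w := by
    unfold sk; congr 1; unfold l; push_cast; ring
  rw [e1, e2]
  unfold sk
  ring

/-- **`rh w * rh (w + 3l) = sin (3l - w) sin (2l - w)`** -/
theorem rh_mul {w : ℂ} (h1 : |w.re| < 8 * l) (h2 : |w.re + 3 * l| < 8 * l) :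
    rh w * rh (w + 3 * l) = sin (3 * l - w) * sin (2 * l - w) := by
  have d1 := den_ne h1
  have d2 : sk 9 (w + 3 * l) * sk 15 (w + 3 * l) * sk 8 (w + 3 * l) * sk 16 (w + 3 * l) ≠ 0 := by
    refine den_ne ?_
    simpa using h2
  have a3 := sin_sub_prod 3 w
  have a2 := sin_sub_prod 2 w
  push_cast at a3 a2
  rw [rh_prod, rh_prod, a3, a2]
  simp only [sk_shift] at d2 ⊢
  norm_num at d2 ⊢
  rw [div_mul_div_comm, div_eq_iff (mul_ne_zero d1 (by
    refine mul_ne_zero (mul_ne_zero (mul_ne_zero ?_ ?_) ?_) ?_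
    · exact d2.1.1.1
    · exact d2.1.1.2
    · exact d2.1.2
    · exact d2.2))]
  ring

/-- the mirror -/
theorem rh_mul' {w : ℂ} (h1 : |w.re| < 8 * l) (h2 : |w.re - 3 * l| < 8 * l) :
    rh w * rh (w - 3 * l) = sin (3 * l + w) * sin (2 * l + w) := by
  have := rh_mul (w := -w) (by simpa using h1) (by
    rw [Complex.neg_re, show -w.re + 3 * l = -(w.re - 3 * l) by ring, abs_neg]; exact h2)
  rw [rh_neg, show -w + 3 * (l : ℂ) = -(w - 3 * l) by ring, rh_neg] at this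
  rw [this]; congr 1 <;> congr 1 <;> ring

/-! ### the literal quotient -/

/-- `rh w sin w cos (4w/3) = sin (3l+w) sin (3l-w) sin (4w/3)` -/
theorem rh_eq' {w : ℂ} (h : |w.re| < 8 * l) :
    rh w * (sin w * cos (4 * w / 3)) = sin (3 * l + w) * sin (3 * l - w) * sin (4 * w / 3) := by
  have d := den_ne1 h
  have hsw : sin w = sin (w / 3) * (2 * cc w + 1) := by
    unfold cc
    rw [show sin w = sin (3 * (w / 3)) by congr 1; ring, Complex.sin_three_mul,
      show 2 * w / 3 = 2 * (w / 3) by ring, Complex.cos_two_mul]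
    have := Complex.sin_sq_add_cos_sq (w / 3)
    linear_combination (-4 * sin (w / 3)) * this
  have hc4 : cos (4 * w / 3) = 2 * cc w ^ 2 - 1 := by
    unfold cc
    rw [show 4 * w / 3 = 2 * (2 * w / 3) by ring, Complex.cos_two_mul]
  have hs4 : sin (4 * w / 3) = 4 * (sin (w / 3) * cos (w / 3)) * cc w := by
    unfold cc
    rw [show 4 * w / 3 = 2 * (2 * w / 3) by ring, Complex.sin_two_mul,
      show sin (2 * w / 3) = sin (2 * (w / 3)) by congr 1; ring, Complex.sin_two_mul]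
    ring
  have c6 : cos (6 * (l : ℂ)) = -(r2 / 2) := by
    rw [show 6 * (l : ℂ) = Real.pi - Real.pi / 4 by unfold l; push_cast; ring, Complex.cos_pi_sub,
      cos_pi4]
  have hss : sin (3 * l + w) * sin (3 * l - w) = (cos (2 * w) - cos (6 * (l : ℂ))) / 2 := by
    rw [Complex.cos_sub_cos, show (2 * w + 6 * (l : ℂ)) / 2 = 3 * l + w by ring,
      show (2 * w - 6 * (l : ℂ)) / 2 = -(3 * l - w) by ring, Complex.sin_neg]
    ring
  have hc2 : cos (2 * w) = 4 * cc w ^ 3 - 3 * cc w := by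
    unfold cc
    rw [← Complex.cos_three_mul]; congr 1; ring
  rw [hss, c6, hc2, hsw, hc4, hs4]
  unfold rh
  rw [div_mul_eq_mul_div, div_eq_iff d]
  linear_combination (-(cc w * cos (w / 3) * sin (w / 3) * (1 + 2 * cc w)) / 2) * r2_sq

/-- **the literal quotient** -/
theorem rh_eq {w : ℂ} (h : |w.re| < 8 * l) (h1 : sin w ≠ 0) (h2 : cos (4 * w / 3) ≠ 0) :
    rh w = sin (3 * l + w) * sin (3 * l - w) * tan (4 * w / 3) / sin w := by
  rw [Complex.tan_eq_sin_div_cos, mul_div_assoc', div_div, eq_div_iff (mul_ne_zero h2 h1)]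
  rw [mul_comm (cos (4 * w / 3)) (sin w)]
  exact rh_eq' h

/-! ### values -/

theorem r2_ne : r2 ≠ 0 := by
  intro h
  have := r2_sq
  rw [h] at this
  norm_num at this

theorem rh_zero : rh 0 = (2 + r2) / 3 := by
  unfold rh cc
  have h : (1 + r2 / 2) ≠ 0 := by
    intro h
    have : r2 = -2 := by linear_combination 2 * h
    have h2 := r2_sq
    rw [this] at h2
    norm_num at h2
  simp only [mul_zero, zero_div, Complex.cos_zero, one_pow, mul_one]
  rw [div_eq_div_iff (mul_ne_zero h (by norm_num)) (by norm_num)]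
  linear_combination (-3 / 2) * r2_sq

theorem rh_three : rh (3 * l) = 3 / 2 * (r2 - 1) * cos l := by
  have hc : cc (3 * l) = r2 / 2 := by
    unfold cc
    rw [← cos_pi4]; congr 1; unfold l; push_cast; ring
  unfold rh
  rw [hc, show 3 * (l : ℂ) / 3 = l by ring]
  have h : (r2 / 2 + r2 / 2) * (2 * (r2 / 2) + 1) ≠ 0 := by
    refine mul_ne_zero (by rw [add_halves]; exact r2_ne) ?_
    intro h
    have : r2 = -1 := by linear_combination h
    have h2 := r2_sq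
    rw [this] at h2
    norm_num at h2
  rw [div_eq_iff h]
  linear_combination (-(r2 * cos l) / 2) * r2_sq

/-! ### regularity -/

theorem differentiableAt_rh {w : ℂ} (h : |w.re| < 8 * l) : DifferentiableAt ℂ rh w := by
  have d := den_ne1 h
  unfold rh cc at *
  fun_prop (disch := assumption)

theorem isOpen_strip (b : ℝ) : IsOpen {w : ℂ | |w.re| < b} :=
  isOpen_lt (continuous_abs.comp Complex.continuous_re) continuous_const

theorem analyticAt_rh {w : ℂ} (h : |w.re| < 8 * l) : AnalyticAt ℂ rh w :=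
  (DifferentiableOn.analyticOnNhd (fun _ hz => (differentiableAt_rh hz).differentiableWithinAt)
    (isOpen_strip (8 * l))) w h

theorem continuousAt_rh {w : ℂ} (h : |w.re| < 8 * l) : ContinuousAt rh w :=
  (differentiableAt_rh h).continuousAt

/-! ### size -/

theorem norm_sin_le (z : ℂ) : ‖sin z‖ ≤ Real.exp |z.im| := by
  unfold sin
  have h1 : ‖exp (-z * I)‖ ≤ Real.exp |z.im| := by
    rw [Complex.norm_exp]
    refine Real.exp_le_exp.2 ?_
    simp
    exact le_abs_self _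
  have h2 : ‖exp (z * I)‖ ≤ Real.exp |z.im| := by
    rw [Complex.norm_exp]
    refine Real.exp_le_exp.2 ?_
    simp
    exact neg_le_abs _
  have h3 := norm_sub_le (exp (-z * I)) (exp (z * I))
  rw [norm_div, norm_mul, Complex.norm_I, mul_one]
  simp only [Complex.norm_ofNat]
  linarith

theorem norm_sin_ge (z : ℂ) : |Real.sin z.re| / 2 * Real.exp |z.im| ≤ ‖sin z‖ := by
  have h0 : sin z = (Real.sin z.re * Real.cosh z.im : ℝ) + (Real.cos z.re * Real.sinh z.im : ℝ) * I := by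
    conv_lhs => rw [← Complex.re_add_im z]
    rw [Complex.sin_add, Complex.sin_mul_I, Complex.cos_mul_I]
    push_cast
    ring
  have h1 : |Real.sin z.re * Real.cosh z.im| ≤ ‖sin z‖ := by
    have h := Complex.abs_re_le_norm (sin z)
    have hre : (sin z).re = Real.sin z.re * Real.cosh z.im := by
      rw [h0, Complex.add_re, Complex.ofReal_re, Complex.re_ofReal_mul, Complex.I_re, mul_zero, add_zero]
    rwa [hre] at h
  refine le_trans ?_ h1
  rw [abs_mul, abs_of_pos (Real.cosh_pos _), div_mul_eq_mul_div, mul_div_assoc]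
  refine mul_le_mul_of_nonneg_left ?_ (abs_nonneg _)
  rw [← Real.cosh_abs, Real.cosh_eq]
  have := Real.exp_pos (-|z.im|)
  linarith

theorem sk_arg (k : ℝ) (w : ℂ) : (((k : ℂ) * l - w) / 3).re = (k * l - w.re) / 3 ∧
    (((k : ℂ) * l - w) / 3).im = -(w.im / 3) := by
  rw [show ((k : ℂ) * l - w) / 3 = ((1 / 3 : ℝ) : ℂ) * (((k * l : ℝ) : ℂ) - w) by push_cast; ring,
    Complex.re_ofReal_mul, Complex.im_ofReal_mul, Complex.sub_re, Complex.sub_im, Complex.ofReal_re,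
    Complex.ofReal_im]
  constructor <;> ring

theorem norm_sk_le (k : ℝ) (w : ℂ) : ‖sk k w‖ ≤ Real.exp (|w.im| / 3) := by
  unfold sk
  refine (norm_sin_le _).trans (Real.exp_le_exp.2 (le_of_eq ?_))
  rw [(sk_arg k w).2, abs_neg, abs_div, abs_of_pos (by norm_num : (0 : ℝ) < 3)]

theorem norm_sk_ge {k b δ : ℝ} {w : ℂ} (hδ : 0 < δ) (hw : |w.re| ≤ (b - δ) * l) (h1 : b ≤ k)
    (h2 : k ≤ 24 - b) : Real.sin (δ * l / 3) / 2 * Real.exp (|w.im| / 3) ≤ ‖sk k w‖ := by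
  have hl := l_pos'
  have hlv : l = Real.pi / 8 := rfl
  obtain ⟨hw1, hw2⟩ := abs_le.1 hw
  unfold sk
  refine le_trans ?_ (norm_sin_ge _)
  rw [(sk_arg k w).1, (sk_arg k w).2, abs_neg, abs_div, abs_of_pos (by norm_num : (0 : ℝ) < 3)]
  refine mul_le_mul_of_nonneg_right (div_le_div_of_nonneg_right ?_ (by norm_num)) (Real.exp_pos _).le
  refine le_trans ?_ (le_abs_self _)
  have ha : δ * l / 3 ≤ (k * l - w.re) / 3 := by nlinarith
  have hb : (k * l - w.re) / 3 ≤ Real.pi - δ * l / 3 := by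
    have : Real.pi = 8 * l := by rw [hlv]; ring
    rw [this]; nlinarith
  have hs : δ * l / 3 ≤ Real.pi / 2 := by rw [hlv]; nlinarith [Real.pi_pos]
  rcases le_total ((k * l - w.re) / 3) (Real.pi / 2) with h | h
  · exact Real.sin_le_sin_of_le_of_le_pi_div_two (by nlinarith [Real.pi_pos]) h ha
  · rw [← Real.sin_pi_sub ((k * l - w.re) / 3)]
    exact Real.sin_le_sin_of_le_of_le_pi_div_two (by nlinarith [Real.pi_pos]) (by linarith) (by linarith)

/-- the constant of `rh_lower`, `rh_upper` -/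
def sδ (δ : ℝ) : ℝ := Real.sin (δ * l / 3) / 2

theorem sδ_pos {δ : ℝ} (h : 0 < δ) (h1 : δ ≤ 4) : 0 < sδ δ := by
  have hl := l_pos'
  have hlv : l = Real.pi / 8 := rfl
  unfold sδ
  have := Real.sin_pos_of_pos_of_lt_pi (x := δ * l / 3) (by positivity) (by rw [hlv]; nlinarith [Real.pi_pos])
  positivity

theorem rh_upper {δ : ℝ} {w : ℂ} (hδ : 0 < δ) (hδ1 : δ ≤ 4) (hw : |w.re| ≤ (8 - δ) * l) :
    ‖rh w‖ ≤ 4 / sδ δ ^ 4 * Real.exp |w.im| := by
  have hs := sδ_pos hδ hδ1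
  set E := Real.exp (|w.im| / 3) with hE
  have hE0 : 0 < E := Real.exp_pos _
  have hE3 : Real.exp |w.im| = E ^ 3 := by
    rw [hE, ← Real.exp_nat_mul]; congr 1; push_cast; ring
  have up : ∀ k : ℝ, ‖sk k w‖ ≤ E := fun k => norm_sk_le k w
  have lo : ∀ k : ℝ, 8 ≤ k → k ≤ 16 → sδ δ * E ≤ ‖sk k w‖ := fun k h1 h2 =>
    norm_sk_ge hδ hw h1 (by linarith)
  rw [rh_prod, norm_div, norm_mul, hE3, div_le_iff₀ (norm_pos_iff.2 (den_ne (by
    have hl := l_pos'
    nlinarith)))]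
  simp only [norm_mul, Complex.norm_ofNat]
  have hden : (sδ δ * E) ^ 4 ≤ ‖sk 9 w‖ * ‖sk 15 w‖ * ‖sk 8 w‖ * ‖sk 16 w‖ := by
    rw [show (sδ δ * E) ^ 4 = (sδ δ * E) * (sδ δ * E) * (sδ δ * E) * (sδ δ * E) by ring]
    have h0 : 0 ≤ sδ δ * E := by positivity
    gcongr
    · exact lo 9 (by norm_num) (by norm_num)
    · exact lo 15 (by norm_num) (by norm_num)
    · exact lo 8 (by norm_num) (by norm_num)
    · exact lo 16 (by norm_num) (by norm_num)
  have hnum : ‖sk 5 w‖ * ‖sk 19 w‖ * ‖sk 11 w‖ * ‖sk 13 w‖ * ‖sk 6 w‖ * ‖sk 18 w‖ * ‖sk 12 w‖ ≤ E ^ 7 := by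
    rw [show E ^ 7 = E * E * E * E * E * E * E by ring]
    gcongr <;> exact up _
  calc 4 * (‖sk 5 w‖ * ‖sk 19 w‖ * ‖sk 11 w‖ * ‖sk 13 w‖ * ‖sk 6 w‖ * ‖sk 18 w‖ * ‖sk 12 w‖)
      ≤ 4 * E ^ 7 := by gcongr
    _ = 4 / sδ δ ^ 4 * E ^ 3 * (sδ δ * E) ^ 4 := by field_simp
    _ ≤ 4 / sδ δ ^ 4 * E ^ 3 * (‖sk 9 w‖ * ‖sk 15 w‖ * ‖sk 8 w‖ * ‖sk 16 w‖) := by gcongr

theorem rh_lower {δ : ℝ} {w : ℂ} (hδ : 0 < δ) (hδ1 : δ ≤ 4) (hw : |w.re| ≤ (5 - δ) * l) :
    4 * sδ δ ^ 7 * Real.exp |w.im| ≤ ‖rh w‖ := by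
  have hl := l_pos'
  have hs := sδ_pos hδ hδ1
  set E := Real.exp (|w.im| / 3) with hE
  have hE0 : 0 < E := Real.exp_pos _
  have hE3 : Real.exp |w.im| = E ^ 3 := by
    rw [hE, ← Real.exp_nat_mul]; congr 1; push_cast; ring
  have up : ∀ k : ℝ, ‖sk k w‖ ≤ E := fun k => norm_sk_le k w
  have lo : ∀ k : ℝ, 5 ≤ k → k ≤ 19 → sδ δ * E ≤ ‖sk k w‖ := fun k h1 h2 =>
    norm_sk_ge hδ hw h1 (by linarith)
  rw [rh_prod, norm_div, norm_mul, hE3, le_div_iff₀ (norm_pos_iff.2 (den_ne (by nlinarith)))]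
  simp only [norm_mul, Complex.norm_ofNat]
  have hden : ‖sk 9 w‖ * ‖sk 15 w‖ * ‖sk 8 w‖ * ‖sk 16 w‖ ≤ E ^ 4 := by
    rw [show E ^ 4 = E * E * E * E by ring]
    gcongr <;> exact up _
  have hnum : (sδ δ * E) ^ 7 ≤
      ‖sk 5 w‖ * ‖sk 19 w‖ * ‖sk 11 w‖ * ‖sk 13 w‖ * ‖sk 6 w‖ * ‖sk 18 w‖ * ‖sk 12 w‖ := by
    rw [show (sδ δ * E) ^ 7 = (sδ δ * E) * (sδ δ * E) * (sδ δ * E) * (sδ δ * E) * (sδ δ * E) *
      (sδ δ * E) * (sδ δ * E) by ring]
    have h0 : 0 ≤ sδ δ * E := by positivity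
    gcongr
    · exact lo 5 (by norm_num) (by norm_num)
    · exact lo 19 (by norm_num) (by norm_num)
    · exact lo 11 (by norm_num) (by norm_num)
    · exact lo 13 (by norm_num) (by norm_num)
    · exact lo 6 (by norm_num) (by norm_num)
    · exact lo 18 (by norm_num) (by norm_num)
    · exact lo 12 (by norm_num) (by norm_num)
  calc 4 * sδ δ ^ 7 * E ^ 3 * (‖sk 9 w‖ * ‖sk 15 w‖ * ‖sk 8 w‖ * ‖sk 16 w‖)
      ≤ 4 * sδ δ ^ 7 * E ^ 3 * E ^ 4 := by gcongr
    _ = 4 * (sδ δ * E) ^ 7 := by ring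
    _ ≤ _ := by gcongr

/-! ### the imaginary axis -/

/-- `rh (t i)` as a real number -/
def rhR (t : ℝ) : ℝ :=
  (4 * Real.cosh (2 * t / 3) ^ 2 + 2 * Real.sqrt 2 * Real.cosh (2 * t / 3) - 1) *
    Real.cosh (2 * t / 3) * Real.cosh (t / 3) /
    ((Real.cosh (2 * t / 3) + Real.sqrt 2 / 2) * (2 * Real.cosh (2 * t / 3) + 1))

theorem rh_I (t : ℝ) : rh (t * I) = (rhR t : ℂ) := by
  have h1 : cc (t * I) = (Real.cosh (2 * t / 3) : ℂ) := by
    unfold cc
    rw [show 2 * ((t : ℂ) * I) / 3 = ((2 * t / 3 : ℝ) : ℂ) * I by push_cast; ring, Complex.cos_mul_I,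
      Complex.ofReal_cosh]
  have h2 : cos ((t : ℂ) * I / 3) = (Real.cosh (t / 3) : ℂ) := by
    rw [show (t : ℂ) * I / 3 = ((t / 3 : ℝ) : ℂ) * I by push_cast; ring, Complex.cos_mul_I,
      Complex.ofReal_cosh]
  unfold rh rhR
  rw [h1, h2]
  unfold r2
  push_cast
  ring

theorem rhR_pos (t : ℝ) : 0 < rhR t := by
  unfold rhR
  have h1 : 1 ≤ Real.cosh (2 * t / 3) := Real.one_le_cosh _
  have h2 : 0 < Real.cosh (t / 3) := Real.cosh_pos _
  have h3 : 0 ≤ Real.sqrt 2 := Real.sqrt_nonneg 2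
  have h4 : 0 < 4 * Real.cosh (2 * t / 3) ^ 2 + 2 * Real.sqrt 2 * Real.cosh (2 * t / 3) - 1 := by
    nlinarith [mul_nonneg h3 (le_trans zero_le_one h1)]
  positivity

end PBR

end
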