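import Pool.Agent.PB.SSum
import Pool.Agent.PB.Rho

/-!
# The normalised function `nh` of the legs (plan B, nu34/PB section 1)

* `P_perm`, `SS_perm`: symmetry in the rows of each group;
* `PN`: the normaliser, `nh z x y = SS z x y / PN z x y`;
* `nh_node`, `nh_node'`: **(A1)**; `nh_neg`: (A2); `nh_perm`, `nh_swap`.
-/

set_option autoImplicit false
set_option linter.unusedSectionVars false
set_option linter.unusedSimpArgs false

noncomputable section

open Complex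

namespace PBS

open NUP1 (l)
open NUP1.Grand (P)
open NUP1.Mu (P_cons P_congr P_mul)
open PBR (rh r2 r2_sq rh_mul rh_mul' rh_neg rh_zero rh_three rh_ne_zero differentiableAt_rh
  continuousAt_rh)

/-! ## permutations of the rows -/

theorem P_eq_filter {n : ℕ} (F : Fin n → Fin n → ℂ) :
    P F = ∏ p ∈ (Finset.univ : Finset (Fin n × Fin n)).filter (fun p => p.1 < p.2), F p.1 p.2 := by
  unfold P
  rw [Finset.prod_filter, ← Finset.univ_product_univ, Finset.prod_product]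

/-- the product over the pairs of a symmetric function is symmetric -/
theorem P_perm {n : ℕ} {F : Fin n → Fin n → ℂ} (hF : ∀ i j, F i j = F j i)
    (σ : Equiv.Perm (Fin n)) : P (fun i j => F (σ i) (σ j)) = P F := by
  rw [P_eq_filter, P_eq_filter]
  refine Finset.prod_bij'
    (fun p _ => if σ p.1 < σ p.2 then (σ p.1, σ p.2) else (σ p.2, σ p.1))
    (fun p _ => if σ.symm p.1 < σ.symm p.2 then (σ.symm p.1, σ.symm p.2) else
      (σ.symm p.2, σ.symm p.1)) ?_ ?_ ?_ ?_ ?_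
  · intro p hp
    rw [Finset.mem_filter] at hp ⊢
    refine ⟨Finset.mem_univ _, ?_⟩
    split_ifs with h
    · exact h
    · exact lt_of_le_of_ne (not_lt.1 h) fun e => hp.2.ne' (σ.injective e)
  · intro p hp
    rw [Finset.mem_filter] at hp ⊢
    refine ⟨Finset.mem_univ _, ?_⟩
    split_ifs with h
    · exact h
    · exact lt_of_le_of_ne (not_lt.1 h) fun e => hp.2.ne' (σ.symm.injective e)
  · intro p hp
    rw [Finset.mem_filter] at hp
    by_cases h : σ p.1 < σ p.2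
    · simp only [if_pos h, Equiv.symm_apply_apply, if_pos hp.2]
    · simp only [if_neg h, Equiv.symm_apply_apply, if_neg hp.2.not_gt]
  · intro p hp
    rw [Finset.mem_filter] at hp
    by_cases h : σ.symm p.1 < σ.symm p.2
    · simp only [if_pos h, Equiv.apply_symm_apply, if_pos hp.2]
    · simp only [if_neg h, Equiv.apply_symm_apply, if_neg hp.2.not_gt]
  · intro p hp
    split_ifs with h
    · rfl
    · exact hF _ _

theorem tm_perm (z : ℂ) {m M : ℕ} (x : Fin m → ℂ) (y : Fin M → ℂ) (a : Fin m → SignType)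
    (b : Fin M → SignType) (σ : Equiv.Perm (Fin m)) (τ : Equiv.Perm (Fin M)) :
    tm z (x ∘ σ) (y ∘ τ) (a ∘ σ) (b ∘ τ) = tm z x y a b := by
  unfold tm
  simp only [Function.comp_apply]
  have e : ∀ (c d : SignType) (u v : ℂ), fw c d (u - v) = fw d c (v - u) := fun c d u v => by
    rw [← fw_neg, neg_sub]
  have h1 : P (fun i j => fw (a (σ i)) (a (σ j)) (x (σ i) - x (σ j))) =
      P (fun i j => fw (a i) (a j) (x i - x j)) :=
    P_perm (F := fun i j => fw (a i) (a j) (x i - x j)) (fun i j => e _ _ _ _) σ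
  have h2 : P (fun i j => fw (b (τ i)) (b (τ j)) (y (τ i) - y (τ j))) =
      P (fun i j => fw (b i) (b j) (y i - y j)) :=
    P_perm (F := fun i j => fw (b i) (b j) (y i - y j)) (fun i j => e _ _ _ _) τ
  have h3 : ∏ i, ∏ j, gw (a i) (b (τ j)) (x i - y (τ j)) = ∏ i, ∏ j, gw (a i) (b j) (x i - y j) :=
    Finset.prod_congr rfl fun i _ => Equiv.prod_comp τ (fun j => gw (a i) (b j) (x i - y j))
  rw [h1, h2, Equiv.prod_comp σ (fun i => ww (a i) * Lw (a i) (z - x i)),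
    Equiv.prod_comp τ (fun i => ww (b i) * Lw (b i) (z - y i)),
    Equiv.prod_comp σ (fun i => ∏ j, gw (a i) (b (τ j)) (x i - y (τ j))), h3]

/-- **the state sum is symmetric in the rows of each group** -/
theorem SS_perm (z : ℂ) {m M : ℕ} (x : Fin m → ℂ) (y : Fin M → ℂ) (σ : Equiv.Perm (Fin m))
    (τ : Equiv.Perm (Fin M)) : SS z (x ∘ σ) (y ∘ τ) = SS z x y := by
  unfold SS
  congr 1
  refine (Equiv.sum_comp (σ.symm.arrowCongr (Equiv.refl SignType)) _).symm.trans ?_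
  refine Finset.sum_congr rfl fun a _ => ?_
  refine (Equiv.sum_comp (τ.symm.arrowCongr (Equiv.refl SignType)) _).symm.trans ?_
  refine Finset.sum_congr rfl fun b _ => ?_
  have ea : (σ.symm.arrowCongr (Equiv.refl SignType)) a = a ∘ σ := by
    funext i
    rfl
  have eb : (τ.symm.arrowCongr (Equiv.refl SignType)) b = b ∘ τ := by
    funext i
    rfl
  rw [ea, eb, tm_perm]
  simp only [Function.comp_apply]
  rw [Equiv.sum_comp σ (fun i => (a i : ℤ)), Equiv.sum_comp τ (fun i => (b i : ℤ))]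

/-! ## the state sum is entire in `z` -/

theorem differentiable_Lw (a : SignType) : Differentiable ℂ (Lw a) := by
  cases a <;> · unfold Lw; fun_prop

theorem differentiable_tm {m M : ℕ} (x : Fin m → ℂ) (y : Fin M → ℂ) (a : Fin m → SignType)
    (b : Fin M → SignType) : Differentiable ℂ fun z => tm z x y a b := by
  unfold tm
  have h : ∀ {k : ℕ} (u : Fin k → ℂ) (c : Fin k → SignType),
      Differentiable ℂ fun z => ∏ i, ww (c i) * Lw (c i) (z - u i) := by
    intro k u c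
    refine Differentiable.fun_finsetProd fun i _ => ?_
    exact ((differentiable_Lw (c i)).comp (differentiable_id.sub_const (u i))).const_mul _
  exact (((h x a).mul_const _).mul ((h y b).mul_const _)).mul_const _

/-- the state sum is entire in `z` -/
theorem differentiable_SS {m M : ℕ} (x : Fin m → ℂ) (y : Fin M → ℂ) :
    Differentiable ℂ fun z => SS z x y := by
  unfold SS
  refine Differentiable.const_mul (Differentiable.fun_sum fun a _ => Differentiable.fun_sum fun b _ => ?_) _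
  split_ifs
  · exact differentiable_tm x y a b
  · exact differentiable_const _

/-! ## the normaliser -/

/-- the normaliser -/
def PN (z : ℂ) {m M : ℕ} (x : Fin m → ℂ) (y : Fin M → ℂ) : ℂ :=
  (2 / 3) ^ (m + M + 1) * rh 0 * ((∏ i, rh (z - x i) ^ 2) * ∏ j, rh (z - y j) ^ 2) *
    (P (fun i j => rh (x i - x j) ^ 2) * P (fun i j => rh (y i - y j) ^ 2)) *
      ∏ i, ∏ j, rh (x i - y j) ^ 2

/-- **the normalised function** -/
def nh (z : ℂ) {m M : ℕ} (x : Fin m → ℂ) (y : Fin M → ℂ) : ℂ := SS z x y / PN z x y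

theorem rh_sub (u v : ℂ) : rh (u - v) = rh (v - u) := by rw [← rh_neg, neg_sub]

theorem PN_perm (z : ℂ) {m M : ℕ} (x : Fin m → ℂ) (y : Fin M → ℂ) (σ : Equiv.Perm (Fin m))
    (τ : Equiv.Perm (Fin M)) : PN z (x ∘ σ) (y ∘ τ) = PN z x y := by
  unfold PN
  simp only [Function.comp_apply]
  have h1 : P (fun i j => rh (x (σ i) - x (σ j)) ^ 2) = P (fun i j => rh (x i - x j) ^ 2) :=
    P_perm (F := fun i j => rh (x i - x j) ^ 2) (fun i j => by rw [rh_sub]) σ
  have h2 : P (fun i j => rh (y (τ i) - y (τ j)) ^ 2) = P (fun i j => rh (y i - y j) ^ 2) :=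
    P_perm (F := fun i j => rh (y i - y j) ^ 2) (fun i j => by rw [rh_sub]) τ
  have h3 : ∏ i, ∏ j, rh (x i - y (τ j)) ^ 2 = ∏ i, ∏ j, rh (x i - y j) ^ 2 :=
    Finset.prod_congr rfl fun i _ => Equiv.prod_comp τ (fun j => rh (x i - y j) ^ 2)
  rw [h1, h2, Equiv.prod_comp σ (fun i => rh (z - x i) ^ 2),
    Equiv.prod_comp τ (fun i => rh (z - y i) ^ 2),
    Equiv.prod_comp σ (fun i => ∏ j, rh (x i - y (τ j)) ^ 2), h3]

theorem nh_perm (z : ℂ) {m M : ℕ} (x : Fin m → ℂ) (y : Fin M → ℂ) (σ : Equiv.Perm (Fin m))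
    (τ : Equiv.Perm (Fin M)) : nh z (x ∘ σ) (y ∘ τ) = nh z x y := by
  unfold nh
  rw [SS_perm, PN_perm]

theorem PN_swap (z : ℂ) {m M : ℕ} (x : Fin m → ℂ) (y : Fin M → ℂ) : PN z y x = PN z x y := by
  unfold PN
  have e : ∏ i, ∏ j, rh (y i - x j) ^ 2 = ∏ i, ∏ j, rh (x i - y j) ^ 2 := by
    rw [Finset.prod_comm]
    exact Finset.prod_congr rfl fun i _ => Finset.prod_congr rfl fun j _ => by rw [rh_sub]
  rw [e, show M + m + 1 = m + M + 1 by ring]
  ring

theorem nh_swap (z : ℂ) {m M : ℕ} (x : Fin m → ℂ) (y : Fin M → ℂ) : nh z y x = nh z x y := by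
  unfold nh
  rw [SS_swap, PN_swap]

theorem PN_neg (z : ℂ) {m M : ℕ} (x : Fin m → ℂ) (y : Fin M → ℂ) :
    PN (-z) (-x) (-y) = PN z x y := by
  unfold PN
  have e : ∀ u v : ℂ, rh (-u - -v) = rh (u - v) := fun u v => by
    rw [← rh_neg]
    congr 1
    ring
  simp only [Pi.neg_apply, e]

/-- **(A2)** -/
theorem nh_neg (z : ℂ) {m M : ℕ} (x : Fin m → ℂ) (y : Fin M → ℂ) :
    nh (-z) (-x) (-y) = nh z x y := by
  unfold nh
  rw [SS_neg, PN_neg]

/-! ## (A1) -/

theorem l_pos : (0 : ℝ) < l := by unfold l; positivity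

theorem sin_l : sin (l : ℂ) = (r2 - 1) * cos l := by
  have h4 : (2 : ℂ) * l = Real.pi / 4 := by unfold l; push_cast; ring
  have h5 : sin ((Real.pi : ℂ) / 4) = r2 / 2 := by
    unfold r2
    rw [show (Real.pi : ℂ) / 4 = ((Real.pi / 4 : ℝ) : ℂ) by push_cast; ring, ← Complex.ofReal_sin,
      Real.sin_pi_div_four]
    push_cast
    ring
  have h1 : 2 * sin (l : ℂ) * cos l = r2 / 2 := by rw [← Complex.sin_two_mul, h4, h5]
  have h2 : 2 * cos (l : ℂ) ^ 2 - 1 = r2 / 2 := by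
    rw [← Complex.cos_two_mul, h4, PBR.cos_pi4]
  have hc : cos (l : ℂ) ≠ 0 := by
    intro h
    rw [h] at h1
    have := PBR.r2_ne
    apply this
    linear_combination -2 * h1
  refine mul_right_cancel₀ hc ?_
  linear_combination h1 / 2 - (r2 - 1) / 2 * h2 - r2_sq / 4

/-- `(2/3) rh (3 λ) = s λ` -/
theorem rh3 : 2 / 3 * rh (3 * l) = sin (l : ℂ) := by
  rw [rh_three, sin_l]
  ring

theorem rh03 : rh 0 * rh (3 * l) = sin (3 * (l : ℂ)) * sin (2 * l) := by
  have h := rh_mul (w := 0) (by simp; exact l_pos) (by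
    have := l_pos
    rw [Complex.zero_re, zero_add, abs_of_pos (by positivity)]
    linarith)
  rw [zero_add, sub_zero, sub_zero] at h
  exact h

theorem Lw3_pos : Lw .pos (3 * l) = sin (2 * (l : ℂ)) * sin (3 * l) := by
  simp only [Lw]
  have e6 : sin (3 * (l : ℂ) + 3 * l) = sin (2 * l) := by
    rw [← sin_refl (2 * l)]; congr 1; ring
  have e5 : sin (3 * (l : ℂ) + 2 * l) = sin (3 * l) := by
    rw [← sin_refl (3 * l)]; congr 1; ring
  rw [e6, e5]

theorem const_eq : (2 / 3 : ℂ) ^ 2 * rh 0 ^ 2 * rh (3 * l) ^ 4 = (sin l * Lw .pos (3 * l)) ^ 2 := by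
  rw [Lw3_pos, ← rh3]
  linear_combination (2 / 3 : ℂ) ^ 2 * rh (3 * l) ^ 2 * (rh 0 * rh (3 * l) + sin (3 * (l : ℂ)) *
    sin (2 * l)) * rh03

/-- `rh w ≠ 0`-type conditions for the rows -/
def Rw {m : ℕ} (x : Fin m → ℂ) : Prop := ∀ i, |(x i).re| ≤ l / 2

theorem rw_sub {u v : ℂ} (hu : |u.re| ≤ l / 2) (hv : |v.re| ≤ l / 2) : |(u - v).re| ≤ l := by
  rw [Complex.sub_re]
  have := abs_le.1 hu
  have := abs_le.1 hv
  rw [abs_le]
  constructor <;> linarith

/-- the normaliser does not vanish -/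
theorem PN_ne {z : ℂ} {m M : ℕ} {x : Fin m → ℂ} {y : Fin M → ℂ} (hz : |z.re| < 9 / 2 * l)
    (hx : Rw x) (hy : Rw y) : PN z x y ≠ 0 := by
  have hl := l_pos
  have h1 : ∀ u v : ℂ, |u.re| ≤ l / 2 → |v.re| ≤ l / 2 → rh (u - v) ≠ 0 := fun u v hu hv =>
    rh_ne_zero (by linarith [rw_sub hu hv])
  have h2 : ∀ u : ℂ, |u.re| ≤ l / 2 → rh (z - u) ≠ 0 := fun u hu => rh_ne_zero (by
    rw [Complex.sub_re]
    have := abs_le.1 hu
    have := abs_lt.1 hz
    rw [abs_lt]
    constructor <;> linarith)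
  have hP : ∀ {k : ℕ} (u : Fin k → ℂ), Rw u → P (fun i j => rh (u i - u j) ^ 2) ≠ 0 := by
    intro k u hu
    unfold P
    refine Finset.prod_ne_zero_iff.2 fun i _ => Finset.prod_ne_zero_iff.2 fun j _ => ?_
    split_ifs
    · exact pow_ne_zero _ (h1 _ _ (hu i) (hu j))
    · exact one_ne_zero
  unfold PN
  refine mul_ne_zero (mul_ne_zero (mul_ne_zero (mul_ne_zero ?_ ?_) (mul_ne_zero ?_ ?_))
    (mul_ne_zero (hP x hx) (hP y hy))) ?_
  · exact pow_ne_zero _ (by norm_num)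
  · exact rh_ne_zero (by simp; exact l_pos)
  · exact Finset.prod_ne_zero_iff.2 fun i _ => pow_ne_zero _ (h2 _ (hx i))
  · exact Finset.prod_ne_zero_iff.2 fun i _ => pow_ne_zero _ (h2 _ (hy i))
  · exact Finset.prod_ne_zero_iff.2 fun i _ => Finset.prod_ne_zero_iff.2 fun j _ =>
      pow_ne_zero _ (h1 _ _ (hx i) (hy j))

/-- the normaliser at the node -/
theorem PN_node {m M : ℕ} {x0 : ℂ} {x : Fin m → ℂ} {y : Fin M → ℂ} (h0 : |x0.re| ≤ l / 2)
    (hx : Rw x) (hy : Rw y) :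
    PN (x0 + 3 * l) (Fin.cons x0 x : Fin (m + 1) → ℂ) (Fin.cons x0 y : Fin (M + 1) → ℂ) =
      (sin l * Lw .pos (3 * l)) ^ 2 * ((∏ i, Kw (x0 - x i) ^ 2) * ∏ j, Kw (x0 - y j) ^ 2) *
        PN x0 x y := by
  have hl := l_pos
  have key : ∀ u : ℂ, |u.re| ≤ l / 2 → rh (x0 - u) * rh (x0 + 3 * l - u) = Kw (x0 - u) := by
    intro u hu
    have h := rw_sub h0 hu
    have e : x0 + 3 * (l : ℂ) - u = x0 - u + 3 * l := by ring
    rw [e, rh_mul (by linarith) (by
      have h' := abs_le.1 h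
      rw [abs_lt]
      constructor <;> linarith)]
    unfold Kw
    ring
  unfold PN
  rw [Fin.prod_univ_succ (n := m), Fin.prod_univ_succ (n := M), P_cons (n := m), P_cons (n := M),
    Fin.prod_univ_succ (n := m)]
  simp only [Fin.cons_zero, Fin.cons_succ]
  simp_rw [Fin.prod_univ_succ (n := M)]
  simp only [Fin.cons_zero, Fin.cons_succ]
  rw [show x0 + 3 * (l : ℂ) - x0 = 3 * l by ring, sub_self]
  have hX : ∏ i, Kw (x0 - x i) ^ 2 = (∏ i, rh (x0 - x i) ^ 2) * ∏ i, rh (x0 + 3 * l - x i) ^ 2 := by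
    rw [← Finset.prod_mul_distrib]
    exact Finset.prod_congr rfl fun i _ => by rw [← key _ (hx i)]; ring
  have hY : ∏ i, Kw (x0 - y i) ^ 2 = (∏ i, rh (x0 - y i) ^ 2) * ∏ i, rh (x0 + 3 * l - y i) ^ 2 := by
    rw [← Finset.prod_mul_distrib]
    exact Finset.prod_congr rfl fun i _ => by rw [← key _ (hy i)]; ring
  have hC : ∏ i, rh (x i - x0) ^ 2 = ∏ i, rh (x0 - x i) ^ 2 :=
    Finset.prod_congr rfl fun i _ => by rw [rh_sub]
  rw [Finset.prod_mul_distrib (f := fun i => rh (x i - x0) ^ 2), hX, hY, hC, ← const_eq,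
    show m + 1 + (M + 1) + 1 = (m + M + 1) + 2 by ring, pow_add (2 / 3 : ℂ) (m + M + 1) 2]
  ring

theorem sin_ne_of_re {w : ℂ} (h : ∀ n : ℤ, w.re ≠ n * Real.pi) : sin w ≠ 0 := by
  intro h0
  rw [Complex.sin_eq_zero_iff] at h0
  obtain ⟨k, hk⟩ := h0
  apply h k
  rw [hk]
  simp

theorem sin_ne_of_im {w : ℂ} (h : w.im ≠ 0) : sin w ≠ 0 := by
  intro h0
  rw [Complex.sin_eq_zero_iff] at h0
  obtain ⟨k, hk⟩ := h0
  apply h
  rw [hk]
  simp

theorem sin_ne_of_bd {w : ℂ} (h1 : 0 < w.re) (h2 : w.re < 8 * l) : sin w ≠ 0 := by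
  refine sin_ne_of_re fun n hn => ?_
  have hp : 8 * l = Real.pi := by unfold l; ring
  rw [hp] at h2
  rw [hn] at h1 h2
  have hpi := Real.pi_pos
  have a1 : (0 : ℝ) < n := by
    by_contra hc
    rw [not_lt] at hc
    nlinarith
  have a2 : (n : ℝ) < 1 := by
    by_contra hc
    rw [not_lt] at hc
    nlinarith
  have b1 : 0 < n := by exact_mod_cast a1
  have b2 : n < 1 := by exact_mod_cast a2
  omega

theorem Kw_ne {w : ℂ} (h : |w.re| ≤ l) : Kw w ≠ 0 := by
  have hl := l_pos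
  have h' := abs_le.1 h
  have e : ∀ k : ℝ, ((k : ℂ) * l - w).re = k * l - w.re := fun k => by
    rw [Complex.sub_re, Complex.re_ofReal_mul, Complex.ofReal_re]
  have e2 := e 2
  have e3 := e 3
  push_cast at e2 e3
  unfold Kw
  exact mul_ne_zero (sin_ne_of_bd (by rw [e2]; linarith) (by rw [e2]; linarith))
    (sin_ne_of_bd (by rw [e3]; linarith) (by rw [e3]; linarith))

theorem c3_ne : sin (l : ℂ) * Lw .pos (3 * l) ≠ 0 := by
  have hl := l_pos
  have e : ∀ k : ℝ, ((k : ℂ) * l).re = k * l := fun k => by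
    rw [Complex.re_ofReal_mul, Complex.ofReal_re]
  have e2 := e 2
  have e3 := e 3
  push_cast at e2 e3
  rw [Lw3_pos]
  refine mul_ne_zero (sin_ne_of_bd ?_ ?_) (mul_ne_zero (sin_ne_of_bd ?_ ?_) (sin_ne_of_bd ?_ ?_))
  · simpa using hl
  · rw [Complex.ofReal_re]; linarith
  · rw [e2]; linarith
  · rw [e2]; linarith
  · rw [e3]; linarith
  · rw [e3]; linarith

/-- **(A1)**: `n^(x0 + 3 λ; x0 ∪ x, x0 ∪ y) = n^(x0; x, y)` -/
theorem nh_node {m M : ℕ} {x0 : ℂ} {x : Fin m → ℂ} {y : Fin M → ℂ} (h0 : |x0.re| ≤ l / 2)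
    (hx : Rw x) (hy : Rw y)
    (sx : ∀ i, sin (x0 - x i) ≠ 0 ∧ sin (x0 - x i + l) ≠ 0)
    (sy : ∀ i, sin (x0 - y i) ≠ 0 ∧ sin (x0 - y i + l) ≠ 0) :
    nh (x0 + 3 * l) (Fin.cons x0 x : Fin (m + 1) → ℂ) (Fin.cons x0 y : Fin (M + 1) → ℂ) =
      nh x0 x y := by
  unfold nh
  rw [SS_node sx sy, PN_node h0 hx hy]
  refine mul_div_mul_left _ _ (mul_ne_zero (pow_ne_zero _ c3_ne) (mul_ne_zero ?_ ?_))
  · exact Finset.prod_ne_zero_iff.2 fun i _ => pow_ne_zero _ (Kw_ne (rw_sub h0 (hx i)))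
  · exact Finset.prod_ne_zero_iff.2 fun i _ => pow_ne_zero _ (Kw_ne (rw_sub h0 (hy i)))

/-- **(A1)**, left side -/
theorem nh_node' {m M : ℕ} {x0 : ℂ} {x : Fin m → ℂ} {y : Fin M → ℂ} (h0 : |x0.re| ≤ l / 2)
    (hx : Rw x) (hy : Rw y)
    (sx : ∀ i, sin (x0 - x i) ≠ 0 ∧ sin (x0 - x i - l) ≠ 0)
    (sy : ∀ i, sin (x0 - y i) ≠ 0 ∧ sin (x0 - y i - l) ≠ 0) :
    nh (x0 - 3 * l) (Fin.cons x0 x : Fin (m + 1) → ℂ) (Fin.cons x0 y : Fin (M + 1) → ℂ) =
      nh x0 x y := by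
  have e1 : ∀ {k : ℕ} (u : Fin k → ℂ), -(Fin.cons x0 u : Fin (k + 1) → ℂ) =
      (Fin.cons (-x0) (-u) : Fin (k + 1) → ℂ) := by
    intro k u
    funext i
    refine Fin.cases ?_ (fun j => ?_) i
    · simp
    · simp
  have e2 : ∀ {k : ℕ} {u : Fin k → ℂ}, (∀ i, sin (x0 - u i) ≠ 0 ∧ sin (x0 - u i - l) ≠ 0) →
      ∀ i, sin (-x0 - (-u) i) ≠ 0 ∧ sin (-x0 - (-u) i + l) ≠ 0 := by
    intro k u h i
    obtain ⟨h1, h2⟩ := h i
    constructor
    · intro h0
      apply h1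
      rw [← neg_eq_zero, ← sin_neg, ← h0]
      congr 1
      simp
      ring
    · intro h0
      apply h2
      rw [← neg_eq_zero, ← sin_neg, ← h0]
      congr 1
      simp
      ring
  have e3 : ∀ {k : ℕ} {u : Fin k → ℂ}, Rw u → Rw (-u) := by
    intro k u h i
    simpa using h i
  have h := nh_node (x0 := -x0) (x := -x) (y := -y) (by simpa using h0) (e3 hx) (e3 hy)
    (e2 sx) (e2 sy)
  rw [← nh_neg, e1, e1, show -(x0 - 3 * (l : ℂ)) = -x0 + 3 * l by ring, h, nh_neg]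

/-! ## translations, complex conjugation -/

/-- translation of everything -/
theorem SS_shift (c z : ℂ) {m M : ℕ} (x : Fin m → ℂ) (y : Fin M → ℂ) :
    SS (z + c) (fun i => x i + c) (fun i => y i + c) = SS z x y := by
  have e : ∀ u v : ℂ, u + c - (v + c) = u - v := fun u v => by ring
  unfold SS tm
  simp only [e]

theorem nh_shift (c z : ℂ) {m M : ℕ} (x : Fin m → ℂ) (y : Fin M → ℂ) :
    nh (z + c) (fun i => x i + c) (fun i => y i + c) = nh z x y := by
  have e : ∀ u v : ℂ, u + c - (v + c) = u - v := fun u v => by ring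
  unfold nh
  rw [SS_shift]
  unfold PN
  simp only [e]

theorem cj_l : starRingEnd ℂ (l : ℂ) = l := Complex.conj_ofReal _

theorem cj_two : starRingEnd ℂ (2 : ℂ) = 2 := map_ofNat _ 2

theorem cj_three : starRingEnd ℂ (3 : ℂ) = 3 := map_ofNat _ 3

theorem fw_conj (a b : SignType) (w : ℂ) : fw a b (starRingEnd ℂ w) = starRingEnd ℂ (fw a b w) := by
  cases a <;> cases b <;>
    simp only [fw, map_mul, map_div₀, map_add, map_sub, map_pow, ← Complex.sin_conj, cj_l, cj_two,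
      cj_three]

theorem gw_conj (a b : SignType) (w : ℂ) : gw a b (starRingEnd ℂ w) = starRingEnd ℂ (gw a b w) := by
  cases a <;> cases b <;>
    simp only [gw, map_mul, map_div₀, map_add, map_sub, map_pow, map_one, ← Complex.sin_conj,
      ← Complex.cos_conj, cj_l, cj_two, cj_three]

theorem Lw_conj (a : SignType) (w : ℂ) : Lw a (starRingEnd ℂ w) = starRingEnd ℂ (Lw a w) := by
  cases a <;>
    simp only [Lw, map_mul, map_div₀, map_add, map_sub, map_pow, ← Complex.sin_conj, cj_l, cj_two,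
      cj_three]

theorem ww_conj (a : SignType) : starRingEnd ℂ (ww a) = ww a := by
  cases a <;> simp only [ww, map_one, ← Complex.sin_conj, cj_l]

theorem P_conj {n : ℕ} (F : Fin n → Fin n → ℂ) :
    starRingEnd ℂ (P F) = P fun i j => starRingEnd ℂ (F i j) := by
  unfold P
  rw [map_prod]
  refine Finset.prod_congr rfl fun i _ => ?_
  rw [map_prod]
  refine Finset.prod_congr rfl fun j _ => ?_
  split_ifs
  · rfl
  · exact map_one _

/-- **reality** -/
theorem SS_conj (z : ℂ) {m M : ℕ} (x : Fin m → ℂ) (y : Fin M → ℂ) :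
    SS (starRingEnd ℂ z) (fun i => starRingEnd ℂ (x i)) (fun i => starRingEnd ℂ (y i)) =
      starRingEnd ℂ (SS z x y) := by
  unfold SS
  rw [map_mul, ← Complex.sin_conj, cj_l, map_sum]
  congr 1
  refine Finset.sum_congr rfl fun a _ => ?_
  rw [map_sum]
  refine Finset.sum_congr rfl fun b _ => ?_
  split_ifs
  · unfold tm
    simp only [map_mul, map_prod, P_conj, ww_conj, ← fw_conj, ← gw_conj, ← Lw_conj, map_sub]
  · exact (map_zero _).symm

theorem PN_conj (z : ℂ) {m M : ℕ} (x : Fin m → ℂ) (y : Fin M → ℂ) :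
    PN (starRingEnd ℂ z) (fun i => starRingEnd ℂ (x i)) (fun i => starRingEnd ℂ (y i)) =
      starRingEnd ℂ (PN z x y) := by
  have h0 : starRingEnd ℂ (rh 0) = rh 0 := by rw [← PBR.rh_conj, map_zero]
  have h1 : ∀ u v : ℂ, starRingEnd ℂ (rh (u - v)) = rh (starRingEnd ℂ u - starRingEnd ℂ v) := by
    intro u v
    rw [← PBR.rh_conj, map_sub]
  unfold PN
  simp only [map_mul, map_prod, map_pow, P_conj, h1, h0, map_div₀, cj_two, cj_three]

theorem nh_conj (z : ℂ) {m M : ℕ} (x : Fin m → ℂ) (y : Fin M → ℂ) :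
    nh (starRingEnd ℂ z) (fun i => starRingEnd ℂ (x i)) (fun i => starRingEnd ℂ (y i)) =
      starRingEnd ℂ (nh z x y) := by
  unfold nh
  rw [SS_conj, PN_conj, map_div₀]

end PBS

end
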