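import Pool.Agent.PB.NzC
import Pool.Agent.PB.NHat

/-!
# The normalised function of helper4 and the sums over the states (helper71)

`nh_eq` : `PBS.nh z x y = Pf z x y * DT (cn m) (cn m) z x y`.
-/

set_option autoImplicit false

noncomputable section

open Complex

namespace Pool.Agent.PB

open NUP1 (l lpos St sta qu nq crq)
open NUP1.Grand (P)
open PBR (rh)

variable {m M : ℕ}

/-- the constant of the one body function -/
def cn (m : ℕ) : ℂ := (-1) ^ m * (sin (2 * l) / sin l)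

theorem cn_succ (m : ℕ) : cn (m + 1) = -cn m := by
  unfold cn
  rw [pow_succ]
  ring

theorem DT_neg (c c' z : ℂ) (x : Fin m → ℂ) (y : Fin M → ℂ) : DT (-c) (-c') z x y = DT c c' z x y :=
  Finset.sum_congr rfl fun n _ => DS_neg n c c' z x y

theorem DT_cn (k : ℕ) (z : ℂ) (x : Fin m → ℂ) (y : Fin M → ℂ) :
    DT (cn k) (cn k) z x y = DT (sin (2 * l) / sin l) (sin (2 * l) / sin l) z x y := by
  induction k with
  | zero => simp [cn]
  | succ k ih => rw [cn_succ, DT_neg, ih]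

theorem pre_Nu (z : ℂ) (x : Fin m → ℂ) : PBS.pre z x = Nu z x := by
  unfold PBS.pre Nu
  congr 1
  · refine Finset.prod_congr rfl fun i _ => ?_
    unfold Lp
    simp only [PBS.Lw]
    ring
  · refine NUP1.Mu.P_congr fun i j _ => ?_
    unfold Fp
    simp only [PBS.fw]
    rw [add_comm (3 * (l : ℂ)), add_comm (2 * (l : ℂ))]
    ring

theorem PN_D (z : ℂ) (x : Fin m → ℂ) (y : Fin M → ℂ) :
    PBS.PN z x y = (2 / 3) ^ (m + M + 1) * (D1 z x * D1 z y * D2 x y * rh 0) := by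
  unfold PBS.PN D1 D2
  ring

theorem hrow_hD (z : ℂ) (x : Fin m → ℂ) (y : Fin M → ℂ) :
    (fun u => NUP1.Mu.hrow (2 * sin l) x y u * PBS.Th z u) =
      hD (sin (2 * l) / sin l) z x y := by
  funext u
  have s1 : sin (l : ℂ) ≠ 0 := NUP1.Mu.sin1_ne
  have e : PBS.Th z u = -dg z u := by
    unfold PBS.Th dg
    rw [show z - u - 3 * (l : ℂ) = -(u - z + 3 * l) by ring, Complex.sin_neg, neg_div]
  rw [e]
  unfold NUP1.Mu.hrow hD
  have e2 : ∏ j, (sin (u - x j - 2 * (l : ℂ)))⁻¹ = ∏ i, 1 / sin (u - x i - 2 * l) :=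
    Finset.prod_congr rfl fun i _ => (one_div _).symm
  rw [e2]
  have e3 : -2 * sin (2 * (l : ℂ)) / (2 * sin l) = -(sin (2 * l) / sin l) := by
    field_simp
  rw [e3]
  ring

/-- **the normalised function as a sum over the states** -/
theorem nh_eq {z : ℂ} {x y : Fin m → ℂ} (hx : ∀ i j, i ≠ j → NUP1.Mu.Gn (x i - x j))
    (hy : ∀ i j, i ≠ j → NUP1.Mu.Gn (y i - y j)) (hxy : ∀ i j, NUP1.Mu.Gc (x i - y j))
    (zx : ∀ i, sin (z - x i + 2 * l) ≠ 0 ∧ sin (z - x i + 3 * l) ≠ 0)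
    (zy : ∀ i, sin (z - y i + 2 * l) ≠ 0 ∧ sin (z - y i + 3 * l) ≠ 0) :
    PBS.nh z x y = Pf z x y * DT (cn m) (cn m) z x y := by
  unfold PBS.nh
  rw [PBS.SS_eq hx hy hxy zx zy, pre_Nu, pre_Nu, PN_D, hrow_hD, hrow_hD, DT_cn]
  have e1 : (∑ n ∈ Finset.range (2 * m + 1), ∑ a ∈ St m n, ∑ b ∈ St m n,
      sta x (hD (sin (2 * l) / sin l) z x y) a * sta y (hD (sin (2 * l) / sin l) z y x) b *
        crq x y a b) = DT (sin (2 * l) / sin l) (sin (2 * l) / sin l) z x y := rfl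
  rw [e1]
  unfold Pf
  have h : ((3 : ℂ) / 2) ^ (m + m + 1) * (2 / 3) ^ (m + m + 1) = 1 := by
    rw [← mul_pow]
    norm_num
  have h23 : ((2 : ℂ) / 3) ^ (m + m + 1) ≠ 0 := pow_ne_zero _ (by norm_num)
  have h32 : ((3 : ℂ) / 2) ^ (m + m + 1) = 1 / (2 / 3) ^ (m + m + 1) := by
    rw [eq_div_iff h23]
    exact h
  rw [h32]
  by_cases hD : D1 z x * D1 z y * D2 x y * rh 0 = 0
  · rw [hD]
    simp
  field_simp

end Pool.Agent.PB

end
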