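import Pool.Agent.PB.ValD
import Pool.Agent.PB.NzB

/-!
# Plan B: the normaliser of class D is the prefactor `Pf` of `nz`

`nrm_Pf : nrm z mu = ‖Pf z mu mu‖`.
-/

set_option autoImplicit false

open Complex

namespace PBV

open NUP1.Grand (P)

theorem pre_PN {m : ℕ} (z : ℂ) (mu : Fin m → ℂ) :
    sin (NUP1.l : ℂ) * (PBS.pre z mu * PBS.pre z mu) / PBS.PN z mu mu =
      Pool.Agent.PB.Pf z mu mu := by
  unfold PBS.PN Pool.Agent.PB.Pf Pool.Agent.PB.D1 Pool.Agent.PB.D2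
  rw [Pool.Agent.PB.pre_Nu]
  have h : ((2 : ℂ) / 3) ^ (m + m + 1) = ((3 / 2 : ℂ) ^ (m + m + 1))⁻¹ := by
    rw [← inv_pow]
    norm_num
  rw [h]
  generalize (3 / 2 : ℂ) ^ (m + m + 1) = c
  generalize (P fun i j => PBR.rh (mu i - mu j) ^ 2) = a
  generalize (∏ i, PBR.rh (z - mu i) ^ 2) = b
  generalize (∏ i, ∏ j, PBR.rh (mu i - mu j) ^ 2) = d
  rw [show c⁻¹ * PBR.rh 0 * (b * b) * (a * a) * d = c⁻¹ * (a * b * (a * b) * d * PBR.rh 0) by ring,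
    ← div_div, div_inv_eq_mul]
  congr 1
  ring

/-- **the normaliser is the modulus of the prefactor** -/
theorem nrm_Pf {m : ℕ} (z : ℂ) (mu : Fin m → ℂ) : nrm z mu = ‖Pool.Agent.PB.Pf z mu mu‖ := by
  unfold nrm
  rw [pre_PN]

end PBV
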