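import Pool.Agent.PotH.Red
import Pool.Agent.PB.TopC
import Pool.Agent.PB.ObZT
import Pool.Agent.PB.ValPf
import Pool.Agent.PB.ValD
import Pool.Agent.PB.DomL
import Pool.Agent.PB.ParZ

/-!
# Plan B: the dislocated function from the bound of its gas (rows `x, 0, …, 0`, legs at `z`)

`obL k β x z`: one body data; `ZL`: class functions; `etL e1 J m`: the landed curve of the sea `seaP`;
`linL`: linear and quadratic terms of the current with the legs.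

**`topG`**: if the tilted gas of every configuration with the insertion `φ` is at most
`w Q exp (MF + linL + ∑ oneEH + K r + enC + c1 win)`, then
`‖Pf‖ ∑ n ≤ 2 m, FE (φ n) ≤ C Bw Q m ^ (- 3/8 + δ) exp (2 |Im z|)`.
-/

set_option autoImplicit false
set_option linter.unusedSectionVars false

noncomputable section

open Complex MeasureTheory Finset
open scoped ENNReal

namespace PBT

open NUO NUP1 NUP1S NUP1S.Ab NUP1S.AbC NUGC PBF
open PBX (obX XX Lg gP Rws oneC_Lg obX_nn)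
open PBL (mu1)
open PBP (gT)
open PotH (crH oneEH)

attribute [local instance] NUSea.seaP

/-- the parameters -/
abbrev pL (m : ℕ) : Par := NUSea.O.par0 m

/-- the curve of the sea of the rows at `0` -/
def etL (e1 J : ℝ) (m : ℕ) : ℝ → ℝ := etaC e1 J m m

/-- its derivative -/
def etL' (e1 J : ℝ) (m : ℕ) : ℝ → ℝ := etaC' e1 J m m

/-- the curve as a family -/
def crL (e1 J : ℝ) (m : ℕ) : Crs := fun _ _ => etL e1 J m

/-- its derivative -/
def crL' (e1 J : ℝ) (m : ℕ) : Crs := fun _ _ => etL' e1 J m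

/-- one body data: rows `x, 0, …, 0`, legs at `z`, cutoff with the points `± i` -/
def obL (k : ℕ) (β : ℝ) (x z : ℂ) : OB :=
  obX (2 * Real.cos NUP1.l) β (mu1 k x) [I, -I] [] fun _ u => PBX.thZ z u

/-- the class functions -/
def ZL (c : Bool → ℂ) (k : ℕ) (β : ℝ) (x z : ℂ) : Bool → Option O3 → ℂ → ℂ := fun a =>
  XX (c a) β (mu1 k x) (mu1 k x) (gP β [I, -I]) (gP (4 / 3) []) (Lg z z)
    (fun w => Lg z z w * Lg z z (w - NUP1.l))

/-- mean field value, energy and linear terms of the current -/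
def linL (e1 J : ℝ) (m : ℕ) (x z : ℂ) : ℝ :=
  NUSea.MF (m : ℝ) + (NUCR.bil (NUSea.hd m (etL e1 J m) (etL' e1 J m))
    (NUSea.hd m (etL e1 J m) (etL' e1 J m)) - 24 * NUMF.l * crH (etL e1 J m) m 0 +
    ∑ a, ∫ t, (m : ℝ) * NUSea.P t * PBH.Hleg 1 z x (etL e1 J m) a t)

/-! ### rows and parameters -/

theorem two_cos : 0 ≤ 2 * Real.cos NUP1.l ∧ 2 * Real.cos NUP1.l ≤ 2 := by
  have h1 := Real.cos_le_one NUP1.l
  have h2 : 0 ≤ Real.cos NUP1.l := by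
    refine Real.cos_nonneg_of_mem_Icc ⟨?_, ?_⟩ <;> unfold NUP1.l <;> linarith [Real.pi_pos]
  constructor <;> linarith

theorem obL_nn (k : ℕ) (β : ℝ) (x z : ℂ) : (obL k β x z).Nn :=
  obX_nn two_cos.1 β _ _ _ fun _ u => PBX.thZ_nonneg z u

theorem rws_mu1 (k : ℕ) {x : ℂ} (hx : |x.re| ≤ NUP1.l / 2) : Rws (mu1 k x) := by
  intro i
  have hl := NUP1.l_pos
  unfold PBL.mu1
  refine Fin.cases ?_ (fun j => ?_) i
  · simpa using hx
  · simp
    positivity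

theorem rowsZ (k : ℕ) {x : ℂ} (hx : |x.re| ≤ NUP1.l / 5) (hx' : |x.im| ≤ 2) :
    PBO.RwZ 2 2 (k + 1) k (List.ofFn (mu1 k x)) [x] where
  perm := by
    rw [PBL.ofFn_mu1]
    exact (List.perm_append_comm (l₁ := [x]) (l₂ := List.replicate k 0))
  len := by simp
  pt := fun y hy => by
    rw [List.mem_singleton] at hy
    rw [hy]
    exact ⟨hx, hx'⟩
  up := by omega
  dn := by omega

theorem obZ_L {ep : ℝ} (k : ℕ) {x z : ℂ} (hx : |x.re| ≤ NUP1.l / 5) (hx' : |x.im| ≤ 2)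
    (h1 : -(9 / 10 * NUP1.l) ≤ z.re) (h2 : z.re ≤ 187 / 50 * NUP1.l) :
    PBO.ObZ 2 2 PBO.cZ (k + 1) (4 / 3 * (1 - ep)) PBO.eM (obL k (4 / 3 * (1 - ep)) x z) k
      (List.ofFn (mu1 k x)) [x] [I, -I] [] (2 * Real.cos NUP1.l) (fun _ u => PBO.thZ z u) where
  rows := rowsZ k hx hx'
  w1 := PBO.PtsZ.II le_rfl (by norm_num)
  w2 := PBO.PtsZ.nil _ _
  cc := two_cos
  sp := PBO.legZ h1 h2
  R := fun a u => by
    show 2 * Real.cos NUP1.l * (∏ i, PBX.rwC (mu1 k x i) u) * PBX.thZ z u =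
      2 * Real.cos NUP1.l * ((List.ofFn (mu1 k x)).map fun x => PBO.rwC x u).prod * PBO.thZ z u
    rw [List.map_ofFn, List.prod_ofFn]
    rfl
  φ := rfl
  φ0 := rfl

theorem TW_ge {ep e1 : ℝ} (h0 : 0 < ep) (h1 : ep ≤ 1 / 100) (he : 0 ≤ e1) {m : ℕ} (hm : 1 ≤ m) :
    Tb (Real.log m) / (1 - ep) ≤ TW ep e1 m := by
  have hL : 0 ≤ Real.log m := Real.log_nonneg (by exact_mod_cast hm)
  unfold TW Tb
  rw [div_le_iff₀ (by linarith)]
  have h2 : 0 ≤ 3 / 8 * Real.log m := by positivity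
  have h3 : 1 ≤ (1 + 2 * e1 + 2 * ep) * (1 - ep) := by nlinarith
  nlinarith

/-- the exponents of the current: `-(1 - e1) Tb + 2 |Im z| + O(1)` -/
theorem cur_num {e1 : ℝ} (he : 0 < e1) (he1 : e1 ≤ 1 / 100) {J : ℝ} (hJ : 0 ≤ J) :
    ∃ C : ℝ, 0 ≤ C ∧ ∃ m0 : ℕ, ∀ m : ℕ, m0 ≤ m → 20 ≤ Tb (Real.log m) ∧
      (∀ t, |NUSea.hd m (etL e1 J m) (etL' e1 J m) t| ≤ 1) ∧
      ∀ y : ℝ, |y| ≤ 3 / 20 * Real.log m + 2 →
        NUCR.bil (NUSea.hd m (etL e1 J m) (etL' e1 J m)) (NUSea.hd m (etL e1 J m) (etL' e1 J m)) -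
          12 * NUMF.l * crH (etL e1 J m) m y ≤ -((1 - e1) * Tb (Real.log m)) + 2 * |y| + C := by
  obtain ⟨C1, hC1, H1⟩ := bil_curC he
  obtain ⟨C2, hC2, H2⟩ := hC_lip he
  obtain ⟨C3, hC3, H3⟩ := hC_slope he
  have t1 := Real.tendsto_log_atTop.comp tendsto_natCast_atTop_atTop
  obtain ⟨m0, hm0⟩ := Filter.eventually_atTop.1
    ((t1.eventually_ge_atTop (160 / 3 : ℝ)).and (t1.eventually_ge_atTop (16 / 3 * (C3 * J))))
  refine ⟨C1 * (1 + J) ^ 2 + 12 * NUMF.l * (C2 * J), by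
    have := NUMF.l_pos
    positivity, max m0 1, fun m hm => ?_⟩
  obtain ⟨a1, a2⟩ := hm0 m ((le_max_left _ _).trans hm)
  have a1' : (160 / 3 : ℝ) ≤ Real.log m := a1
  have a2' : 16 / 3 * (C3 * J) ≤ Real.log m := a2
  have hm1 : 1 ≤ m := (le_max_right _ _).trans hm
  have hmp : (0 : ℝ) < m := by exact_mod_cast hm1
  have hT : 20 ≤ Tb (Real.log m) := by
    unfold Tb
    linarith
  have hTb : Tb (Real.log m) = 3 / 8 * Real.log m := rfl
  have hl := NUMF.l_pos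
  refine ⟨hT, fun t => ?_, fun y hy => ?_⟩
  · unfold etL etL'
    rw [hd_curC hmp]
    have b1 := H3 J hJ m he1 hT t
    have b2 : C3 * J / Tb (Real.log m) ≤ 1 / 2 := by
      rw [div_le_iff₀ (by linarith), hTb]
      linarith
    linarith [aC_le]
  · have b1 := (H1 J hJ m he1 hT m hmp).2
    have b2 := H2 J hJ m he1 hT 0 y
    have e0 : ∀ t, crH (etL e1 J m) m t = hC e1 J m t := fun t => mul_etaC hmp t
    rw [e0]
    have b3 : hC e1 J m 0 - hC e1 J m y ≤ (aC + C2 * J / Tb (Real.log m)) * |y| := by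
      have := (le_abs_self _).trans b2
      rwa [zero_sub, abs_neg] at this
    have b4 : 12 * NUMF.l * (aC * |y|) = 2 * |y| := by
      unfold aC NUMF.l
      have := Real.pi_ne_zero
      field_simp
      ring
    have b5 : C2 * J / Tb (Real.log m) * |y| ≤ C2 * J := by
      rw [div_mul_eq_mul_div, div_le_iff₀ (by linarith)]
      refine mul_le_mul_of_nonneg_left ?_ (by positivity)
      rw [hTb]
      linarith
    have b6 : 12 * NUMF.l * (hC e1 J m 0 - hC e1 J m y) ≤ 2 * |y| + 12 * NUMF.l * (C2 * J) := by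
      calc 12 * NUMF.l * (hC e1 J m 0 - hC e1 J m y) ≤
          12 * NUMF.l * ((aC + C2 * J / Tb (Real.log m)) * |y|) :=
            mul_le_mul_of_nonneg_left b3 (by positivity)
        _ = 12 * NUMF.l * (aC * |y|) + 12 * NUMF.l * (C2 * J / Tb (Real.log m) * |y|) := by ring
        _ ≤ _ := by
            rw [b4]
            have := mul_le_mul_of_nonneg_left b5 (show 0 ≤ 12 * NUMF.l by positivity)
            linarith
    have e1' : 12 * (Real.pi / 8) = 12 * NUMF.l := rfl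
    rw [e1'] at b1
    have e2 : NUSea.hd (m : ℝ) (etL e1 J m) (etL' e1 J m) =
        NUSea.hd (m : ℝ) (etaC e1 J m m) (etaC' e1 J m m) := rfl
    rw [e2]
    linarith

/-- **the landed curve is admissible for the values** -/
theorem crvL {e1 : ℝ} (he : 0 < e1) (he1 : e1 ≤ 1 / 100) {J : ℝ} (hJ : 0 ≤ J) :
    ∃ Cc : ℝ, 1 ≤ Cc ∧ ∃ m0 : ℕ, ∀ m ≥ m0, PotH.CrvP e1 Cc m (etL e1 J m) (etL' e1 J m) := by
  obtain ⟨C, hC1, m0, hm0, H⟩ := exists_curC he he1 hJ (x := 1 / 100) (by norm_num)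
  obtain ⟨m1, H2⟩ := slope_one he J hJ
  refine ⟨C, hC1, max m0 m1, fun m hm => ?_⟩
  obtain ⟨hT, H1⟩ := H m ((le_max_left _ _).trans hm)
  have H2 := H2 m ((le_max_right _ _).trans hm) he1 hT
  have hm1 : 1 ≤ m := hm0.trans ((le_max_left _ _).trans hm)
  have hmp : (0 : ℝ) < m := by exact_mod_cast hm1
  have hmn : (0 : ℝ) ≤ m := hmp.le
  obtain ⟨ε, e, h1, h2, h3, h4⟩ := H1 m (by linarith)
  exact
    { cur := ⟨ε, e, h1, h2, h3, h4⟩
      d := fun t => etaC_hasDeriv e1 J m m t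
      c := etaC'_cont e1 J m m
      nn := fun t => etaC_nonneg he1 hJ hT hmn t
      lip := fun t t' => by
        have a1 : (m : ℝ) * NUSea.P t * etL e1 J m t = hC e1 J m t := mul_etaC hmp t
        have a2 : (m : ℝ) * NUSea.P t' * etL e1 J m t' = hC e1 J m t' := mul_etaC hmp t'
        rw [a1, a2]
        exact H2 t t' }

/-- **the value**: `‖Pf‖ exp (linL) ≤ C m ^ (-(3/8)(1 - e1)) exp (2 |Im z|)` -/
theorem valL {e1 : ℝ} (he : 0 < e1) (he1 : e1 ≤ 1 / 100) {J : ℝ} (hJ : 0 ≤ J) :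
    ∃ C : ℝ, 0 ≤ C ∧ ∃ m0 : ℕ, ∀ k : ℕ, m0 ≤ k → ∀ x z : ℂ, |x.re| ≤ NUMF.l / 10 →
      -(9 / 10 * NUMF.l) ≤ z.re → z.re ≤ 37 / 10 * NUMF.l →
      |z.im| ≤ 3 / 20 * Real.log (k + 1 : ℕ) + 2 →
      ‖Pool.Agent.PB.Pf z (mu1 k x) (mu1 k x)‖ * Real.exp (linL e1 J (k + 1) x z) ≤
        C * Real.exp (-((1 - e1) * Tb (Real.log (k + 1 : ℕ))) + 2 * |z.im|) := by
  obtain ⟨Cc, hCc, mc, Hc⟩ := crvL he he1 hJ
  obtain ⟨CV, hCV, HV⟩ := PBV.exists_valD he (by linarith : e1 ≤ 1) (by linarith : 0 ≤ Cc)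
  obtain ⟨CN, hCN, mn, HN⟩ := cur_num he he1 hJ
  have hl := NUMF.l_pos
  refine ⟨CV * Real.exp CN, by positivity, max mc mn, fun k hk x z hx z1 z2 z3 => ?_⟩
  have k1 : mc ≤ k + 1 := by
    have := (le_max_left _ _).trans hk
    omega
  have k2 : mn ≤ k + 1 := by
    have := (le_max_right _ _).trans hk
    omega
  obtain ⟨hT, hd1, hb⟩ := HN (k + 1) k2
  obtain ⟨x1, x2⟩ := abs_le.1 hx
  have key := HV k (etL e1 J (k + 1)) (etL' e1 J (k + 1)) (Hc (k + 1) k1) hd1 1 z x (by norm_num)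
    z1 z2 (by linarith) (by rw [Complex.sub_re]; linarith) (by rw [Complex.sub_re]; linarith)
  rw [PBV.nrm_Pf] at key
  have hmu : PBV.mu0 k x = mu1 k x := rfl
  rw [hmu] at key
  have hb' := hb z.im z3
  obtain ⟨N0, hN0⟩ : ∃ N0, N0 = ‖Pool.Agent.PB.Pf z (mu1 k x) (mu1 k x)‖ := ⟨_, rfl⟩
  obtain ⟨S, hS⟩ : ∃ S, S = ∑ a : Bool, ∫ t, ((k + 1 : ℕ) : ℝ) * NUSea.P t *
    PBH.Hleg 1 z x (etL e1 J (k + 1)) a t := ⟨_, rfl⟩
  obtain ⟨MF, hMF⟩ : ∃ MF, MF = NUSea.MF ((k + 1 : ℕ) : ℝ) := ⟨_, rfl⟩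
  obtain ⟨bl, hbl⟩ : ∃ bl, bl = NUCR.bil
    (NUSea.hd ((k + 1 : ℕ) : ℝ) (etL e1 J (k + 1)) (etL' e1 J (k + 1)))
    (NUSea.hd ((k + 1 : ℕ) : ℝ) (etL e1 J (k + 1)) (etL' e1 J (k + 1))) := ⟨_, rfl⟩
  obtain ⟨h0, hh0⟩ : ∃ h0, h0 = crH (etL e1 J (k + 1)) (k + 1) 0 := ⟨_, rfl⟩
  obtain ⟨hz, hhz⟩ : ∃ hz, hz = crH (etL e1 J (k + 1)) (k + 1) z.im := ⟨_, rfl⟩
  have e1' : ((k + 1 : ℕ) : ℝ) * NUSea.P z.im * etL e1 J (k + 1) z.im = hz := by rw [hhz]; rfl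
  have e2' : ((k + 1 : ℕ) : ℝ) * NUSea.P 0 * etL e1 J (k + 1) 0 = h0 := by rw [hh0]; rfl
  rw [← hN0, ← hS, ← hMF, e1', e2'] at key
  rw [← hbl, ← hhz] at hb'
  have hL : linL e1 J (k + 1) x z = (MF + S) + (bl - 24 * NUMF.l * h0) := by
    unfold linL
    rw [← hS, ← hMF, ← hbl, ← hh0]
    ring
  rw [← hN0, hL, Real.exp_add, ← mul_assoc]
  calc N0 * Real.exp (MF + S) * Real.exp (bl - 24 * NUMF.l * h0) ≤
      CV * Real.exp (-(12 * NUMF.l * hz) + 24 * 1 * NUMF.l * h0) *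
        Real.exp (bl - 24 * NUMF.l * h0) := mul_le_mul_of_nonneg_right key (Real.exp_pos _).le
    _ = CV * Real.exp (bl - 12 * NUMF.l * hz) := by
        rw [mul_assoc, ← Real.exp_add]
        congr 2
        ring
    _ ≤ CV * Real.exp (CN + (-((1 - e1) * Tb (Real.log (k + 1 : ℕ))) + 2 * |z.im|)) := by
        refine mul_le_mul_of_nonneg_left (Real.exp_le_exp.2 ?_) (by linarith)
        linarith
    _ = _ := by
        rw [Real.exp_add]
        ring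

/-- **the dislocated function from the bound of its gas** -/
theorem topG (hS : NUStabP.StabProd) (K K2 : ℝ) : ∃ c1 : ℝ, 0 < c1 ∧ ∀ c' : ℝ, 0 ≤ c' →
    ∀ δ : ℝ, 0 < δ → ∃ a0 : ℝ, 0 < a0 ∧ ∀ ep : ℝ, 0 < ep → ep ≤ 1 / 100 → ∀ e1 : ℝ, 0 < e1 →
    e1 ≤ 1 / 100 → ∀ J : ℝ, 0 ≤ J → Real.exp (-(2 * Real.pi * J)) + 3 * e1 + 3 * ep ≤ a0 →
    ∃ C : ℝ, 0 ≤ C ∧ ∃ m0 : ℕ, ∀ k : ℕ, m0 ≤ k → ∀ x z : ℂ, |x.re| ≤ NUMF.l / 10 → |x.im| ≤ 2 →
      -(9 / 10 * NUMF.l) ≤ z.re → z.re < 37 / 10 * NUMF.l →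
      |z.im| ≤ 3 / 20 * Real.log (k + 1 : ℕ) + 2 → ∀ c : Bool → ℂ,
      (∀ a, ‖c a‖ = 2 * Real.cos NUP1.l) →
      ∀ (φ : ℕ → InsE) (w : ℕ → (r : ℕ) → (Fin r → Xo) → ℝ) (Q Bw d : ℝ), 0 ≤ Q → 0 ≤ Bw →
      0 < d →
      (∀ n ≤ 2 * (k + 1), ∀ r ≤ 2 * n, ∀ O : Fin r → Xo, 0 ≤ w n r O ∧
        w n r O ≤ (if (r : ℝ) ≤ Real.log (k + 1 : ℕ) then Bw else
          Bw * Real.exp (c' * Real.log (k + 1 : ℕ))) * Real.exp (K2 * r) *
            Real.exp (∑ i, gT e1 (Real.log (k + 1 : ℕ)) (ht (O i)))) →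
      (∀ b' : ℝ, |b'| = d → ∀ n ≤ 2 * (k + 1), ∀ r ≤ 2 * n, ∀ O : Fin r → Xo,
        chgO O true ≤ n → chgO O false ≤ n →
        ENNReal.ofReal (Real.exp (b' * (((k + 1 : ℕ) : ℝ) - n))) *
          PotH.gasI (obL k (4 / 3 * (1 - ep)) x z) (pL (k + 1)) (etL e1 J (k + 1))
            (etL' e1 J (k + 1)) O (n - chgO O true) (n - chgO O false)
            (φ n r O (n - chgO O true) (n - chgO O false)) ≤
        ENNReal.ofReal (w n r O * (Q * Real.exp (linL e1 J (k + 1) x z +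
          (∑ i, oneEH (k + 1) (etL e1 J (k + 1)) (TW ep e1 (k + 1)) O i + K * r +
            NUStabP.enC O + c1 * NUDispW.win univ fun i => ht (O i)))))) →
      ENNReal.ofReal ‖Pool.Agent.PB.Pf z (mu1 k x) (mu1 k x)‖ *
        ∑ n ∈ range (2 * (k + 1) + 1), FE (ZL c k (4 / 3 * (1 - ep)) x z) (pL (k + 1)) n n
          (crL e1 J (k + 1)) (crL' e1 J (k + 1)) (φ n) ≤
        ENNReal.ofReal (C * Bw * Q * ((k + 1 : ℕ) : ℝ) ^ (-(3 / 8 : ℝ) + δ) *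
          Real.exp (2 * |z.im|) * (2 / (1 - Real.exp (-d)))) := by
  obtain ⟨K', c1, hc1, HF⟩ := FE_sum hS K K2
  obtain ⟨Ca, c, hCa, hc, HO⟩ := PBO.one_actZT 2 (h0 := 2) (G := PBO.cZ) (by norm_num) PBO.cZ_pos
    K' 12
  refine ⟨c1, hc1, fun c' hc' δ hδ => ?_⟩
  obtain ⟨a0, ha0, HF⟩ := HF Ca c (1 / 10) c' 18 hCa hc (by norm_num) hc' (δ / 2) (by linarith)
  obtain ⟨L0, HF⟩ := HF 1 zero_le_one
  refine ⟨min a0 δ, lt_min ha0 hδ, fun ep hep hep1 e1 he he1 J hJ hsm => ?_⟩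
  obtain ⟨CV, hCV, mv, HV⟩ := valL he he1 hJ
  obtain ⟨mo, HO⟩ := HO e1 he
  obtain ⟨mg, Hg⟩ := PBP.exists_M0 he
  obtain ⟨mc, -, Hcur⟩ := curZ_crs he he1 hJ hep
  have t1 := Real.tendsto_log_atTop.comp tendsto_natCast_atTop_atTop
  obtain ⟨ml, hml⟩ := Filter.eventually_atTop.1 (t1.eventually_ge_atTop L0)
  refine ⟨CV, hCV, max (max mv mo) (max (max mg mc) (max ml 5)), fun k hk x z hx hx' z1 z2 z3 cc
    hcc φ w Q Bw d hQ hBw hd hw hgas => ?_⟩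
  have k1 : mv ≤ k := (le_max_left _ _).trans ((le_max_left _ _).trans hk)
  have k2 : mo ≤ k + 1 := ((le_max_right _ _).trans ((le_max_left _ _).trans hk)).trans
    (Nat.le_succ k)
  have k3 : mg ≤ k + 1 := ((le_max_left _ _).trans ((le_max_left _ _).trans
    ((le_max_right _ _).trans hk))).trans (Nat.le_succ k)
  have k4 : mc ≤ k + 1 := ((le_max_right _ _).trans ((le_max_left _ _).trans
    ((le_max_right _ _).trans hk))).trans (Nat.le_succ k)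
  have k5 : ml ≤ k + 1 := ((le_max_left _ _).trans ((le_max_right _ _).trans
    ((le_max_right _ _).trans hk))).trans (Nat.le_succ k)
  have k6 : 5 ≤ k := (le_max_right _ _).trans ((le_max_right _ _).trans
    ((le_max_right _ _).trans hk))
  have hl := NUMF.l_pos
  have hlN : NUP1.l = NUMF.l := rfl
  have hmp : (0 : ℝ) < ((k + 1 : ℕ) : ℝ) := by positivity
  have hm5 : (5 : ℝ) ≤ ((k + 1 : ℕ) : ℝ) := by exact_mod_cast (by omega : 5 ≤ k + 1)
  have hL0 : L0 ≤ Real.log (k + 1 : ℕ) := hml (k + 1) k5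
  have hsm' : Real.exp (-(2 * Real.pi * J)) + 3 * e1 + 3 * ep ≤ a0 := hsm.trans (min_le_left _ _)
  have hsd : 3 * e1 ≤ δ := by
    have h1 := hsm.trans (min_le_right _ _)
    have h2 := Real.exp_pos (-(2 * Real.pi * J))
    linarith
  have hone : OneC (ZL cc k (4 / 3 * (1 - ep)) x z) (obL k (4 / 3 * (1 - ep)) x z) (pL (k + 1)) ep
      (2 * (4 / 3 * (1 - ep))) (3 / 5 * NUP1.l) 0 (Set.range fun i => (mu1 k x i).im) :=
    oneC_Lg le_rfl (by rw [hlN]; linarith) (parZ_parC (k + 1)) hep hep1 (by linarith) (by linarith)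
      (rws_mu1 k (by rw [hlN]; linarith)) (by
        intro w hw
        rw [List.mem_cons, List.mem_singleton] at hw
        rcases hw with rfl | rfl
        · rw [Complex.I_re, abs_zero, hlN]; positivity
        · rw [Complex.neg_re, Complex.I_re, neg_zero, abs_zero, hlN]; positivity) [] hcc
      (by rw [hlN]; exact z1) (by rw [hlN]; exact z2)
  have hexp : ((4 * (k + 1) + 1 : ℕ) : ℝ) ≤ Real.exp (2 * Real.log (k + 1 : ℕ)) := by
    have e1 : Real.exp (2 * Real.log (k + 1 : ℕ)) = ((k + 1 : ℕ) : ℝ) * (k + 1 : ℕ) := by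
      rw [two_mul, Real.exp_add, Real.exp_log hmp]
    have e2 : ((4 * (k + 1) + 1 : ℕ) : ℝ) = 4 * ((k + 1 : ℕ) : ℝ) + 1 := by push_cast; ring
    rw [e1, e2]
    nlinarith
  have hcr : ∀ t, crH (etL e1 J (k + 1)) (k + 1) t = hC e1 J (k + 1) t := fun t => mul_etaC hmp t
  obtain ⟨g1, g2⟩ := PBO.hC_gain he he1 hJ (m := k + 1) (Hg (k + 1) k3).1
  have key := HF (Real.log (k + 1 : ℕ)) hL0 ep hep.le (by linarith) e1 he (by linarith) J hJ hsm'
    (ZL cc k (4 / 3 * (1 - ep)) x z) (pL (k + 1)) (k + 1) (crL e1 J (k + 1)) (crL' e1 J (k + 1))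
    (obL k (4 / 3 * (1 - ep)) x z) ep (2 * (4 / 3 * (1 - ep))) (3 / 5 * NUP1.l) 0
    (Set.range fun i => (mu1 k x i).im) hone (parZ_goodP (k + 1)) (obL_nn _ _ _ _)
    (parZ_fields (k + 1)).1 (parZ_fields (k + 1)).2.1 (parZ_fields (k + 1)).2.2
    (fun r _ => parZ_small (k + 1) r)
    (fun r O => Hcur (k + 1) k4 r O) hep1 hexp φ (gT e1 (Real.log (k + 1 : ℕ)))
    (fun r O i => oneEH (k + 1) (etL e1 J (k + 1)) (TW ep e1 (k + 1)) O i) w
    (Q * Real.exp (linL e1 J (k + 1) x z)) Bw d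
    ((k + 1 : ℕ) : ℝ) (by positivity) hBw hd hw ?_ ?_
  · have hv := HV k k1 x z hx z1 z2.le z3
    obtain ⟨N0, hN0⟩ : ∃ N0, N0 = ‖Pool.Agent.PB.Pf z (mu1 k x) (mu1 k x)‖ := ⟨_, rfl⟩
    have hN00 : 0 ≤ N0 := by rw [hN0]; exact norm_nonneg _
    rw [← hN0] at hv ⊢
    obtain ⟨D, hD⟩ : ∃ D, D = 2 / (1 - Real.exp (-d)) := ⟨_, rfl⟩
    have hD0 : 0 ≤ D := by
      rw [hD]
      have : Real.exp (-d) < 1 := by
        rw [← Real.exp_zero]; exact Real.exp_lt_exp.2 (by linarith)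
      exact div_nonneg (by norm_num) (by linarith)
    rw [sub_self, abs_zero, mul_zero, Real.exp_zero, one_mul, ← hD] at key
    rw [← hD]
    refine (mul_le_mul' le_rfl key).trans ?_
    rw [← ENNReal.ofReal_mul hN00]
    refine ENNReal.ofReal_le_ofReal ?_
    have hTb : Tb (Real.log (k + 1 : ℕ)) = 3 / 8 * Real.log (k + 1 : ℕ) := rfl
    have hLm : 0 ≤ Real.log (k + 1 : ℕ) := Real.log_nonneg (by linarith)
    have hpow : Real.exp (-((1 - e1) * Tb (Real.log (k + 1 : ℕ))) + 2 * |z.im|) *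
        Real.exp (δ / 2 * Real.log (k + 1 : ℕ)) ≤
        ((k + 1 : ℕ) : ℝ) ^ (-(3 / 8 : ℝ) + δ) * Real.exp (2 * |z.im|) := by
      rw [Real.rpow_def_of_pos hmp, ← Real.exp_add, ← Real.exp_add]
      refine Real.exp_le_exp.2 ?_
      rw [hTb]
      nlinarith
    calc N0 * (Bw * (Q * Real.exp (linL e1 J (k + 1) x z)) *
          Real.exp (δ / 2 * Real.log (k + 1 : ℕ)) * D)
        = (N0 * Real.exp (linL e1 J (k + 1) x z)) *
          (Real.exp (δ / 2 * Real.log (k + 1 : ℕ)) * (Bw * Q * D)) := by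
          ring
      _ ≤ (CV * Real.exp (-((1 - e1) * Tb (Real.log (k + 1 : ℕ))) + 2 * |z.im|)) *
          (Real.exp (δ / 2 * Real.log (k + 1 : ℕ)) * (Bw * Q * D)) :=
          mul_le_mul_of_nonneg_right hv (by positivity)
      _ = CV * (Bw * Q * D) * (Real.exp (-((1 - e1) * Tb (Real.log (k + 1 : ℕ))) + 2 * |z.im|) *
          Real.exp (δ / 2 * Real.log (k + 1 : ℕ))) := by ring
      _ ≤ CV * (Bw * Q * D) * (((k + 1 : ℕ) : ℝ) ^ (-(3 / 8 : ℝ) + δ) *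
          Real.exp (2 * |z.im|)) := mul_le_mul_of_nonneg_left hpow (by positivity)
      _ = _ := by ring
  · intro r _ O i
    have hZ : PBO.ObZ 2 2 PBO.cZ (k + 1) (4 / 3 * (1 - ep)) PBO.eM
        (obL k (4 / 3 * (1 - ep)) x z) k (List.ofFn (mu1 k x)) [x] [I, -I] []
        (2 * Real.cos NUP1.l) (fun _ u => PBO.thZ z u) := by
      refine obZ_L k ?_ hx' ?_ ?_
      · rw [hlN]
        linarith
      · rw [hlN]
        exact z1
      · rw [hlN]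
        linarith
    have h1 := HO (k + 1) k2 (by omega) ep hep hep1 (obL k (4 / 3 * (1 - ep)) x z) k
      (List.ofFn (mu1 k x)) [x] [I, -I] [] (2 * Real.cos NUP1.l) (fun _ u => PBO.thZ z u)
      hZ (obL_nn _ _ _ _) J (TW ep e1 (k + 1)) (TW_ge hep hep1 he.le (by omega))
      (crH (etL e1 J (k + 1)) (k + 1)) (fun t => by rw [hcr]; exact g1 t)
      (fun t ht => by rw [hcr]; exact g2 t ht) r O i
    exact h1
  · intro b' hb' n hn r hr O h1 h2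
    refine (hgas b' hb' n hn r hr O h1 h2).trans (le_of_eq ?_)
    congr 2
    rw [mul_assoc Q, ← Real.exp_add]

end PBT

end
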