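import Pool.Agent.PB.FNeq
import Pool.Agent.PB.TopG
import Pool.Agent.PB.FunI

/-!
# Plan B: the bounds of the literal function from the mass of its functional (helper12)

* `TopM δ`: the mass of the functional at the landed curves is at most `m ^ δ exp (2 |Im z|)`
  (literal statement of `topD_mass`, PB/TopD of helper75);
* `fx_le`: `‖fx k x z‖ ≤ (k + 1) ^ δ exp (2 |Im z|)`, `|Re z| < 37/10 l`, both signs of `Re z`;
* **`u1P_of`**, **`u0P_of`**: the inputs `U1P`, `U0P 1` of `funS_f0`; `funS_top`: the function side from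
  `TopM δ` (all `δ > 0`) and (E').
-/

set_option autoImplicit false
set_option linter.unusedSectionVars false

noncomputable section

open Complex MeasureTheory Set Filter Topology
open scoped ENNReal
open Pool.Agent.PB (f0 fx fN)

namespace PBV

attribute [local instance] NUSea.seaP

/-- **mass of the functional of the dislocated function**, rows `x, 0, …, 0`, legs at `z` -/
def TopM (δ : ℝ) : Prop := ∃ a0 : ℝ, 0 < a0 ∧ ∀ ep e1 J : ℝ, 0 < ep → ep ≤ 1 / 100 → 0 < e1 →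
  e1 ≤ 1 / 100 → 0 ≤ J → Real.exp (-(2 * Real.pi * J)) + 3 * e1 + 3 * ep ≤ a0 →
  ∃ m0 : ℕ, ∀ k : ℕ, m0 ≤ k → ∀ x z : ℂ, |x.re| ≤ NUMF.l / 10 → |x.im| ≤ 2 →
    -(9 / 10 * NUMF.l) ≤ z.re → z.re < 37 / 10 * NUMF.l →
    |z.im| ≤ 3 / 20 * Real.log (k + 1 : ℕ) + 2 → ∀ c : Bool → ℂ,
    (∀ a, ‖c a‖ = 2 * Real.cos NUP1.l) →
    ENNReal.ofReal ‖Pool.Agent.PB.Pf z (PBL.mu1 k x) (PBL.mu1 k x)‖ *
      ∑ n ∈ Finset.range (2 * (k + 1) + 1), PBF.FE (PBT.ZL c k (4 / 3 * (1 - ep)) x z)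
        (PBT.pL (k + 1)) n n (PBT.crL e1 J (k + 1)) (PBT.crL' e1 J (k + 1))
        (fun _ _ _ _ _ => 1) ≤
      ENNReal.ofReal (((k + 1 : ℕ) : ℝ) ^ δ * Real.exp (2 * |z.im|))

/-- the constant of the one body functions -/
theorem nrm_cc (m : ℕ) : ‖NUP1.Leg.cc m‖ = 2 * Real.cos NUP1.l := by
  have hl := NUP1.l_pos
  have h1 : 0 < Real.sin NUP1.l := by
    refine Real.sin_pos_of_pos_of_lt_pi hl ?_
    unfold NUP1.l
    linarith [Real.pi_pos]
  have e : sin (2 * (NUP1.l : ℂ)) / sin NUP1.l = ((2 * Real.cos NUP1.l : ℝ) : ℂ) := by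
    rw [Complex.sin_two_mul]
    have : sin (NUP1.l : ℂ) ≠ 0 := by
      rw [← Complex.ofReal_sin]
      exact_mod_cast h1.ne'
    field_simp
    push_cast
    ring
  unfold NUP1.Leg.cc
  rw [norm_mul, norm_pow, norm_neg, norm_one, one_pow, one_mul, e, Complex.norm_real,
    Real.norm_eq_abs, abs_of_nonneg PBT.two_cos.1]

/-- **the bound for `Re z ≥ -9/10 l`** -/
theorem fx_le_right {δ : ℝ} (h : TopM δ) : ∃ m0 : ℕ, ∀ k : ℕ, m0 ≤ k → ∀ x z : ℂ,
    |x.re| ≤ NUMF.l / 10 → |x.im| ≤ 2 → -(9 / 10 * NUMF.l) ≤ z.re → z.re < 37 / 10 * NUMF.l →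
    |z.im| ≤ 3 / 20 * Real.log (k + 1 : ℕ) + 2 →
    ‖fx k x z‖ ≤ ((k + 1 : ℕ) : ℝ) ^ δ * Real.exp (2 * |z.im|) := by
  obtain ⟨a0, ha0, H⟩ := h
  have hl := NUMF.l_pos
  have hlN : NUP1.l = NUMF.l := rfl
  -- the parameters
  obtain ⟨J, hJ, hJa⟩ : ∃ J : ℝ, 0 ≤ J ∧ Real.exp (-(2 * Real.pi * J)) ≤ a0 / 3 := by
    have t1 : Tendsto (fun J : ℝ => Real.exp (-(2 * Real.pi * J))) atTop (𝓝 0) :=
      Real.tendsto_exp_neg_atTop_nhds_zero.comp
        (tendsto_id.const_mul_atTop (by positivity))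
    obtain ⟨J, h1, h2⟩ := ((t1.eventually_le_const (by positivity : 0 < a0 / 3)).and
      (eventually_ge_atTop 0)).exists
    exact ⟨J, h2, h1⟩
  obtain ⟨e, he, he1, hea⟩ : ∃ e : ℝ, 0 < e ∧ e ≤ 1 / 100 ∧ 9 * e ≤ a0 := by
    refine ⟨min (1 / 100) (a0 / 9), lt_min (by norm_num) (by positivity), min_le_left _ _, ?_⟩
    have := min_le_right (1 / 100 : ℝ) (a0 / 9)
    linarith
  obtain ⟨m1, H1⟩ := H e e J he he1 he he1 hJ (by linarith)
  obtain ⟨mc, -, Hcur⟩ := PBF.curZ_crs he he1 hJ he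
  refine ⟨max m1 mc, fun k hk x z hx hx' z1 z2 z3 => ?_⟩
  have k1 : m1 ≤ k := (le_max_left _ _).trans hk
  have k2 : mc ≤ k + 1 := ((le_max_right _ _).trans hk).trans (Nat.le_succ k)
  have key := H1 k k1 x z hx hx' z1 z2 z3 (fun _ => NUP1.Leg.cc (k + 1)) fun _ => nrm_cc _
  have h2 := PBX.fN_le (P := NUSea.O.par0 (k + 1)) (ep := e) (β := 4 / 3 * (1 - e))
    (PBX.ParC_par0 (k + 1)) (PBX.rad_low (k + 1)) he he1 (by linarith) (by linarith)
    (x := PBL.mu1 k x) (PBT.rws_mu1 k (by rw [hlN]; linarith)) (ex := [I, -I]) (ex0 := [])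
    (by
      intro w hw
      rw [List.mem_cons, List.mem_singleton] at hw
      rcases hw with rfl | rfl
      · rw [Complex.I_re, abs_zero, hlN]
        positivity
      · rw [Complex.neg_re, Complex.I_re, neg_zero, abs_zero, hlN]
        positivity) (by simp) (z := z) (by rw [hlN]; exact z1) (by rw [hlN]; exact z2)
    (η := fun _ => PBT.crL e J (k + 1)) (η' := fun _ => PBT.crL' e J (k + 1))
    (fun n _ r _ => Filter.Eventually.of_forall fun O => Hcur (k + 1) k2 r O)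
  have e1 : ∀ n, PBF.FA (PBX.ZL (4 / 3 * (1 - e)) (PBL.mu1 k x) [I, -I] [] z)
      (NUSea.O.par0 (k + 1)) n n (PBT.crL e J (k + 1)) (PBT.crL' e J (k + 1))
      (fun _ _ _ _ _ => 1) = PBF.FE (PBT.ZL (fun _ => NUP1.Leg.cc (k + 1)) k (4 / 3 * (1 - e)) x z)
        (PBT.pL (k + 1)) n n (PBT.crL e J (k + 1)) (PBT.crL' e J (k + 1))
        (fun _ _ _ _ _ => 1) := by
    intro n
    rw [PBF.FA_eq_FE]
    simp only [enorm_one]
    rfl
  simp only [e1] at h2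
  rw [← ofReal_norm, ← ofReal_norm] at h2
  have h3 := h2.trans key
  rwa [ENNReal.ofReal_le_ofReal_iff (by positivity)] at h3

/-- symmetry -/
theorem fx_neg (N : ℕ) {x : ℂ} (h : |x.re| ≤ NUP1.l / 2) {z : ℂ} (hz : |z.re| < 43 / 10 * NUP1.l) :
    fx N (-x) (-z) = fx N x z := by
  have h1 := Pool.Agent.PB.fN_even (Pool.Agent.PB.Rws_cons (N := N) h) hz
  rw [Pool.Agent.PB.neg_cons] at h1
  have e : -(fun _ : Fin N => (0 : ℂ)) = fun _ : Fin N => (0 : ℂ) := by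
    funext i
    simp
  rw [e] at h1
  exact h1

/-- **the bound of the function with one moved row** -/
theorem fx_le {δ : ℝ} (h : TopM δ) : ∃ m0 : ℕ, ∀ k : ℕ, m0 ≤ k → ∀ x z : ℂ,
    |x.re| ≤ NUMF.l / 10 → |x.im| ≤ 2 → |z.re| < 37 / 10 * NUMF.l →
    |z.im| ≤ 3 / 20 * Real.log (k + 1 : ℕ) + 2 →
    ‖fx k x z‖ ≤ ((k + 1 : ℕ) : ℝ) ^ δ * Real.exp (2 * |z.im|) := by
  obtain ⟨m0, H⟩ := fx_le_right h
  refine ⟨m0, fun k hk x z hx hx' hz hz' => ?_⟩
  have hl := NUMF.l_pos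
  have hlN : NUP1.l = NUMF.l := rfl
  obtain ⟨z1, z2⟩ := abs_lt.1 hz
  rcases le_or_gt (-(9 / 10 * NUMF.l)) z.re with h1 | h1
  · exact H k hk x z hx hx' h1 z2 hz'
  · rw [← fx_neg k (by rw [hlN]; linarith) (by rw [hlN]; linarith)]
    have := H k hk (-x) (-z) (by rwa [neg_re, abs_neg]) (by rwa [neg_im, abs_neg])
      (by rw [neg_re]; linarith) (by rw [neg_re]; linarith) (by rwa [neg_im, abs_neg])
    rwa [neg_im, abs_neg] at this

/-- **the bound of the function at the rows `0`** -/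
theorem f0_le {δ : ℝ} (h : TopM δ) : ∃ m0 : ℕ, ∀ j : ℕ, m0 ≤ j → ∀ z : ℂ,
    |z.re| < 37 / 10 * NUMF.l → |z.im| ≤ 3 / 20 * Real.log j + 2 →
    ‖f0 j z‖ ≤ (j : ℝ) ^ δ * Real.exp (2 * |z.im|) := by
  obtain ⟨m0, H⟩ := fx_le h
  refine ⟨m0 + 1, fun j hj z hz hz' => ?_⟩
  have hl := NUMF.l_pos
  obtain ⟨k, rfl⟩ : ∃ k, j = k + 1 := ⟨j - 1, by omega⟩
  rw [← Pool.Agent.PB.fx_zero]
  exact H k (by omega) 0 z (by simp; positivity) (by simp) hz hz'

/-- powers -/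
theorem ev_pow {a b : ℝ} (C : ℝ) (hab : a < b) :
    ∀ᶠ j : ℕ in atTop, C * (j : ℝ) ^ a ≤ (j : ℝ) ^ b := by
  have t1 : Tendsto (fun j : ℕ => (j : ℝ) ^ (b - a)) atTop atTop :=
    (tendsto_rpow_atTop (by linarith)).comp tendsto_natCast_atTop_atTop
  filter_upwards [t1.eventually_ge_atTop C, eventually_ge_atTop 1] with j h1 h2
  have hj : (0 : ℝ) < j := by exact_mod_cast h2
  have e : (j : ℝ) ^ b = (j : ℝ) ^ (b - a) * (j : ℝ) ^ a := by
    rw [← Real.rpow_add hj]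
    congr 1
    ring
  rw [e]
  exact mul_le_mul_of_nonneg_right h1 (by positivity)

/-- `j + 1` rows -/
theorem succ_pow {δ : ℝ} (h0 : 0 ≤ δ) (h1 : δ ≤ 1) {j : ℕ} (hj : 1 ≤ j) :
    ((j + 1 : ℕ) : ℝ) ^ δ ≤ 2 * (j : ℝ) ^ δ := by
  have hj' : (1 : ℝ) ≤ j := by exact_mod_cast hj
  have h2 : ((j + 1 : ℕ) : ℝ) ≤ 2 * j := by
    push_cast
    linarith
  calc ((j + 1 : ℕ) : ℝ) ^ δ ≤ (2 * (j : ℝ)) ^ δ := Real.rpow_le_rpow (by positivity) h2 h0
    _ = 2 ^ δ * (j : ℝ) ^ δ := Real.mul_rpow (by norm_num) (by positivity)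
    _ ≤ 2 * (j : ℝ) ^ δ := by
        refine mul_le_mul_of_nonneg_right ?_ (by positivity)
        calc (2 : ℝ) ^ δ ≤ 2 ^ (1 : ℝ) := Real.rpow_le_rpow_of_exponent_le (by norm_num) h1
          _ = 2 := Real.rpow_one 2

/-- **(U1)** -/
theorem u1P_of (h : ∀ δ : ℝ, 0 < δ → TopM δ) : U1P := by
  intro ε hε
  obtain ⟨δ, hδ, hδ1, hδε⟩ : ∃ δ : ℝ, 0 < δ ∧ δ ≤ 1 ∧ δ < ε :=
    ⟨min 1 (ε / 2), lt_min one_pos (by linarith), min_le_left _ _,
      (min_le_right _ _).trans_lt (by linarith)⟩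
  obtain ⟨m0, H0⟩ := f0_le (h δ hδ)
  obtain ⟨m1, H1⟩ := fx_le (h δ hδ)
  have hl := NUMF.l_pos
  constructor
  · filter_upwards [eventually_ge_atTop m0, eventually_ge_atTop 1] with j h1 h2 z hz hz'
    have hj : (1 : ℝ) ≤ j := by exact_mod_cast h2
    have hlog : 0 ≤ Real.log j := Real.log_nonneg hj
    refine (H0 j h1 z (by rw [hz, abs_zero]; positivity) (by linarith)).trans ?_
    exact mul_le_mul_of_nonneg_right (Real.rpow_le_rpow_of_exponent_le hj hδε.le)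
      (Real.exp_pos _).le
  · filter_upwards [eventually_ge_atTop m1, eventually_ge_atTop 1,
      ev_pow (2 * Real.exp 2) hδε] with j h1 h2 h3 s hs t ht
    have hj : (1 : ℝ) ≤ j := by exact_mod_cast h2
    have hlog : 0 ≤ Real.log (j + 1 : ℕ) := Real.log_nonneg (by push_cast; linarith)
    have k1 := H1 j h1 (I * s) (I * t) (by simp; positivity)
      (by simp [abs_of_nonneg hs.1]; linarith [hs.2]) (by simp; positivity)
      (by simp [abs_of_nonneg ht.1]; push_cast at hlog; linarith [ht.2])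
    refine k1.trans (le_trans ?_ h3)
    have e1 : (I * (t : ℂ)).im = t := by simp
    rw [e1, abs_of_nonneg ht.1]
    calc ((j + 1 : ℕ) : ℝ) ^ δ * Real.exp (2 * t) ≤ (2 * (j : ℝ) ^ δ) * Real.exp 2 := by
          refine mul_le_mul (succ_pow hδ.le hδ1 h2) (Real.exp_le_exp.2 (by linarith [ht.2]))
            (Real.exp_pos _).le (by positivity)
      _ = _ := by ring

/-- **(U0)** -/
theorem u0P_of (h : ∀ δ : ℝ, 0 < δ → TopM δ) : U0P 1 := by
  obtain ⟨m0, H0⟩ := f0_le (h (1 / 10) (by norm_num))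
  obtain ⟨m1, H1⟩ := fx_le (h (1 / 10) (by norm_num))
  have hl := NUMF.l_pos
  have hlN : NUP1.l = NUMF.l := rfl
  have key : ∀ j : ℕ, 1 ≤ j → ∀ y : ℝ, |y| ≤ 3 / 20 * Real.log j + 1 →
      (j : ℝ) ^ (1 / 10 : ℝ) * Real.exp (2 * |y|) ≤ Real.exp 2 * (j : ℝ) ^ (2 / 5 : ℝ) := by
    intro j hj y hy
    have hj' : (0 : ℝ) < j := by exact_mod_cast hj
    have e1 : (j : ℝ) ^ (2 / 5 : ℝ) = (j : ℝ) ^ (1 / 10 : ℝ) * (j : ℝ) ^ (3 / 10 : ℝ) := by
      rw [← Real.rpow_add hj']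
      norm_num
    have e2 : Real.exp (2 * |y|) ≤ Real.exp 2 * (j : ℝ) ^ (3 / 10 : ℝ) := by
      rw [Real.rpow_def_of_pos hj', ← Real.exp_add]
      refine Real.exp_le_exp.2 ?_
      linarith
    rw [e1]
    calc (j : ℝ) ^ (1 / 10 : ℝ) * Real.exp (2 * |y|) ≤
        (j : ℝ) ^ (1 / 10 : ℝ) * (Real.exp 2 * (j : ℝ) ^ (3 / 10 : ℝ)) :=
          mul_le_mul_of_nonneg_left e2 (by positivity)
      _ = _ := by ring
  constructor
  · filter_upwards [eventually_ge_atTop m0, eventually_ge_atTop 1,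
      ev_pow (Real.exp 2) (show (2 / 5 : ℝ) < 1 by norm_num)] with j h1 h2 h3 z hz hz'
    have hz1 : |z.re| < 37 / 10 * NUMF.l := by
      have : |z.re| ≤ 18 / 5 * NUMF.l := hz
      linarith
    exact (H0 j h1 z hz1 (by linarith)).trans ((key j h2 _ hz').trans h3)
  · filter_upwards [eventually_ge_atTop m1, eventually_ge_atTop 1,
      ev_pow (2 * Real.exp 2) (show (2 / 5 : ℝ) < 1 by norm_num)] with j h1 h2 h3 s hs z hz hz'
    have hj : (1 : ℝ) ≤ j := by exact_mod_cast h2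
    have hz1 : |z.re| < 37 / 10 * NUMF.l := by
      have : |z.re| ≤ 18 / 5 * NUMF.l := hz
      linarith
    have hlog : Real.log j ≤ Real.log (j + 1 : ℕ) :=
      Real.log_le_log (by linarith) (by push_cast; linarith)
    have k1 := H1 j h1 (I * s) z (by simp; positivity)
      (by simp [abs_of_nonneg hs.1]; linarith [hs.2]) hz1 (by linarith)
    refine k1.trans (le_trans ?_ h3)
    calc ((j + 1 : ℕ) : ℝ) ^ (1 / 10 : ℝ) * Real.exp (2 * |z.im|) ≤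
        (2 * (j : ℝ) ^ (1 / 10 : ℝ)) * Real.exp (2 * |z.im|) :=
          mul_le_mul_of_nonneg_right (succ_pow (by norm_num) (by norm_num) h2) (Real.exp_pos _).le
      _ = 2 * ((j : ℝ) ^ (1 / 10 : ℝ) * Real.exp (2 * |z.im|)) := by ring
      _ ≤ 2 * (Real.exp 2 * (j : ℝ) ^ (2 / 5 : ℝ)) :=
          mul_le_mul_of_nonneg_left (key j h2 _ hz') (by norm_num)
      _ = _ := by ring

/-- **the function side** from the mass of the functional and (E') -/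
theorem funS_top {c : ℝ} (h : ∀ δ : ℝ, 0 < δ → TopM δ) (hc : 0 ≤ c) (hc1 : c < 2 / 3)
    (hE : E2 c (fun j z x => fx j x z)) : FunO c f0 (fun j => bK f0 j 0) :=
  funS_f0 (u0P_of h) (u1P_of h) hc hc1 hE

end PBV

end
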