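import Pool.Agent.PB.SqI

/-!
# Plan B, (U3): whole line statistics in a positive gas

For a weight with `GasM` and a nonnegative integrable density `ρ`:

* `GasM.linF`: all even moments of `nuF ρ x.1 f`, `nuF ρ x.2 f`, `f` continuous, bounded, in `KC1` on the
  window;
* `GasM.quadF`: the same for `nuF2` of a continuous bounded kernel in `KC` on the window;
* `nuC`, `nuC2`: complex valued test functions and kernels.
-/

set_option autoImplicit false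

open MeasureTheory Set Filter Topology
open scoped ENNReal

namespace PBM

open NUKer NUR2 NUDi PBQ

noncomputable section

/-- the density of the gas and its tail -/
structure Rho (R : ℝ) (ρ : ℝ → ℝ) (N δ : ℝ) : Prop where
  i : Integrable ρ
  nn : ∀ t, 0 ≤ ρ t
  c : Continuous ρ
  N : ∫ t, ρ t ≤ N
  δ : ∫ t in (Set.Ioc (-R) R)ᶜ, ρ t ≤ δ

lemma Rho.δ0 {R : ℝ} {ρ : ℝ → ℝ} {N δ : ℝ} (h : Rho R ρ N δ) : 0 ≤ δ :=
  le_trans (integral_nonneg fun t => h.nn t) h.δ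

lemma Rho.N0 {R : ℝ} {ρ : ℝ → ℝ} {N δ : ℝ} (h : Rho R ρ N δ) : 0 ≤ N :=
  le_trans (integral_nonneg fun t => h.nn t) h.N

lemma add_pow_le_two {a b : ℝ} (ha : 0 ≤ a) (hb : 0 ≤ b) (k : ℕ) :
    (a + b) ^ k ≤ 2 ^ k * (a ^ k + b ^ k) := by
  rcases le_total a b with h | h
  · calc (a + b) ^ k ≤ (2 * b) ^ k := pow_le_pow_left₀ (by positivity) (by linarith) k
      _ = 2 ^ k * b ^ k := by ring
      _ ≤ _ := by
        have : 0 ≤ a ^ k := by positivity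
        gcongr
        linarith
  · calc (a + b) ^ k ≤ (2 * a) ^ k := pow_le_pow_left₀ (by positivity) (by linarith) k
      _ = 2 ^ k * a ^ k := by ring
      _ ≤ _ := by
        have : 0 ≤ b ^ k := by positivity
        gcongr
        linarith

variable {p n : ℕ} {g : Cfg p n → ℝ≥0∞} {R : ℝ} {ρ : ℝ → ℝ} {U : ℝ≥0∞} {c Λ τ : ℝ}

/-- **from the window to the whole line**: `S` is close to `S0` on the window and bounded everywhere -/
theorem GasM.line (h : GasM g R ρ U c Λ τ) {S S0 : Cfg p n → ℝ} (hS0 : ∀ x, 0 ≤ S x) {k : ℕ}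
    {M δ A : ℝ} (hM : 0 ≤ M) (hδ : 0 ≤ δ) (hA : 0 ≤ A) (hw : ∀ x ∈ Bx (p := p) (n := n) R, S x ≤ |S0 x| + δ)
    (ht : ∀ x, S x ≤ A)
    (hm : ∫⁻ x in Bx R, g x * ENNReal.ofReal (|S0 x| ^ k) ≤ U * ENNReal.ofReal M) :
    ∫⁻ x, g x * ENNReal.ofReal (S x ^ k) ≤
      U * ENNReal.ofReal (2 ^ k * (M + δ ^ k) + A ^ k * Real.exp (-τ)) := by
  rw [← lintegral_add_compl _ (measurableSet_Bx (p := p) (n := n) R),
    ENNReal.ofReal_add (by positivity) (by positivity), mul_add]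
  refine add_le_add ?_ ?_
  · have h1 : ∫⁻ x in Bx R, g x * ENNReal.ofReal (S x ^ k) ≤
        ∫⁻ x in Bx R, ENNReal.ofReal (2 ^ k) * (g x * ENNReal.ofReal (|S0 x| ^ k)) +
          ENNReal.ofReal (2 ^ k * δ ^ k) * g x := by
      refine setLIntegral_mono' (measurableSet_Bx R) fun x hx => ?_
      have h2 : S x ^ k ≤ 2 ^ k * (|S0 x| ^ k + δ ^ k) :=
        (pow_le_pow_left₀ (hS0 x) (hw x hx) k).trans (add_pow_le_two (abs_nonneg _) hδ k)
      calc g x * ENNReal.ofReal (S x ^ k) ≤ g x * ENNReal.ofReal (2 ^ k * (|S0 x| ^ k + δ ^ k)) := by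
            gcongr
        _ = _ := by
            rw [mul_add, ENNReal.ofReal_add (by positivity) (by positivity),
              ENNReal.ofReal_mul (by positivity)]
            ring
    refine h1.trans ?_
    rw [lintegral_add_right _ (h.meas.const_mul _), lintegral_const_mul _ h.meas,
      lintegral_const_mul' _ _ ENNReal.ofReal_ne_top]
    calc _ ≤ ENNReal.ofReal (2 ^ k) * (U * ENNReal.ofReal M) + ENNReal.ofReal (2 ^ k * δ ^ k) * U := by
          gcongr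
          exact h.mass
      _ = _ := by
          rw [mul_add, ENNReal.ofReal_add (by positivity) (by positivity),
            ENNReal.ofReal_mul (by positivity : (0:ℝ) ≤ 2 ^ k),
            ENNReal.ofReal_mul (by positivity : (0:ℝ) ≤ 2 ^ k)]
          ring
  · calc ∫⁻ x in (Bx R)ᶜ, g x * ENNReal.ofReal (S x ^ k) ≤
          ∫⁻ x in (Bx R)ᶜ, ENNReal.ofReal (A ^ k) * g x := by
          refine lintegral_mono fun x => ?_
          rw [mul_comm]
          gcongr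
          · exact hS0 x
          · exact ht x
      _ = ENNReal.ofReal (A ^ k) * ∫⁻ x in (Bx R)ᶜ, g x := lintegral_const_mul _ h.meas
      _ ≤ ENNReal.ofReal (A ^ k) * (U * ENNReal.ofReal (Real.exp (-τ))) := by
          gcongr
          exact h.tail
      _ = _ := by
          rw [ENNReal.ofReal_mul (by positivity)]
          ring

/-- **linear statistics on the whole line** -/
theorem GasM.linF (h : GasM g R ρ U c Λ τ) {N δ : ℝ} (hρ : Rho R ρ N δ) {Λf A : ℝ} {f : ℝ → ℝ}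
    (hf : Continuous f) (hA : ∀ t, |f t| ≤ A) (hK : KC1 R Λf (fun t => (f t : ℂ))) {k : ℕ} (hk : k ≠ 0) :
    (∫⁻ x, g x * ENNReal.ofReal (|nuF ρ x.1 f| ^ (2 * k)) ≤
      U * ENNReal.ofReal (2 ^ (2 * k) * ((k.factorial : ℝ) * (8 * (Λ + 1) / c * Λf ^ 2) ^ k +
        (A * δ) ^ (2 * k)) + (A * (p + N)) ^ (2 * k) * Real.exp (-τ))) ∧
    (∫⁻ x, g x * ENNReal.ofReal (|nuF ρ x.2 f| ^ (2 * k)) ≤
      U * ENNReal.ofReal (2 ^ (2 * k) * ((k.factorial : ℝ) * (8 * (Λ + 1) / c * Λf ^ 2) ^ k +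
        (A * δ) ^ (2 * k)) + (A * (n + N)) ^ (2 * k) * Real.exp (-τ))) := by
  obtain ⟨h1, h2⟩ := h.lin hf hK hk
  have hA0 : 0 ≤ A := (abs_nonneg _).trans (hA 0)
  have hc := h.c0
  have hΛ := h.Λ0
  have hδ := hρ.δ0
  have hN := hρ.N0
  have hb : ∀ {m : ℕ} (s : Fin m → ℝ), |nuF ρ s f| ≤ |nu R ρ s f| + A * δ := by
    intro m s
    have h3 := nuF_sub_nu h.R0 (s := s) hρ.i hρ.nn hρ.δ hf hA
    have h4 := abs_add_le (nu R ρ s f) (nuF ρ s f - nu R ρ s f)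
    rw [add_sub_cancel] at h4
    linarith
  have ht : ∀ {m : ℕ} (s : Fin m → ℝ), |nuF ρ s f| ≤ A * (m + N) := by
    intro m s
    have h3 := nuF_abs (s := s) hρ.i hρ.nn hA
    rw [Fintype.card_fin] at h3
    refine h3.trans ?_
    have := hρ.N
    gcongr
  exact ⟨h.line (S := fun x => |nuF ρ x.1 f|) (S0 := fun x => nu R ρ x.1 f)
      (fun x => abs_nonneg _) (by positivity) (by positivity) (by positivity)
      (fun x _ => hb x.1) (fun x => ht x.1) h1,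
    h.line (S := fun x => |nuF ρ x.2 f|) (S0 := fun x => nu R ρ x.2 f)
      (fun x => abs_nonneg _) (by positivity) (by positivity) (by positivity)
      (fun x _ => hb x.2) (fun x => ht x.2) h2⟩

lemma nuF2_abs {ι ι' : Type*} [Fintype ι] [Fintype ι'] {s : ι → ℝ} {s' : ι' → ℝ} {N δ : ℝ}
    (hρ : Rho R ρ N δ) {κ : ℝ → ℝ → ℝ} {A : ℝ} (hA : ∀ t t', |κ t t'| ≤ A) :
    |nuF2 ρ ρ s s' κ| ≤ A * ((Fintype.card ι' : ℝ) + N) * ((Fintype.card ι : ℝ) + N) := by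
  have hA0 : 0 ≤ A := (abs_nonneg _).trans (hA 0 0)
  have hN := hρ.N0
  have h1 : ∀ t, |nuF ρ s' (κ t)| ≤ A * ((Fintype.card ι' : ℝ) + N) := by
    intro t
    refine (nuF_abs hρ.i hρ.nn (hA t)).trans ?_
    have := hρ.N
    gcongr
  refine (nuF_abs hρ.i hρ.nn h1).trans ?_
  have := hρ.N
  gcongr

/-- **quadratic statistics on the whole line** -/
theorem GasM.quadF (h : GasM g R ρ U c Λ τ) {N δ : ℝ} (hρ : Rho R ρ N δ) {Λk A : ℝ}
    {κ : ℝ → ℝ → ℝ} (hκ : Continuous fun q : ℝ × ℝ => κ q.1 q.2) (hA : ∀ t t', |κ t t'| ≤ A)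
    (hK : KC R Λk (fun t t' => (κ t t' : ℂ))) {k : ℕ} (hk : k ≠ 0) :
    (∫⁻ x, g x * ENNReal.ofReal (|nuF2 ρ ρ x.1 x.1 κ| ^ k) ≤
      U * ENNReal.ofReal (2 ^ k * ((k.factorial : ℝ) * (4 * (Λ + 1) / c * Λk) ^ k +
        (2 * A * δ * (p + n + N)) ^ k) + (A * (p + n + N) ^ 2) ^ k * Real.exp (-τ))) ∧
    (∫⁻ x, g x * ENNReal.ofReal (|nuF2 ρ ρ x.1 x.2 κ| ^ k) ≤
      U * ENNReal.ofReal (2 ^ k * ((k.factorial : ℝ) * (4 * (Λ + 1) / c * Λk) ^ k +
        (2 * A * δ * (p + n + N)) ^ k) + (A * (p + n + N) ^ 2) ^ k * Real.exp (-τ))) ∧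
    (∫⁻ x, g x * ENNReal.ofReal (|nuF2 ρ ρ x.2 x.1 κ| ^ k) ≤
      U * ENNReal.ofReal (2 ^ k * ((k.factorial : ℝ) * (4 * (Λ + 1) / c * Λk) ^ k +
        (2 * A * δ * (p + n + N)) ^ k) + (A * (p + n + N) ^ 2) ^ k * Real.exp (-τ))) ∧
    (∫⁻ x, g x * ENNReal.ofReal (|nuF2 ρ ρ x.2 x.2 κ| ^ k) ≤
      U * ENNReal.ofReal (2 ^ k * ((k.factorial : ℝ) * (4 * (Λ + 1) / c * Λk) ^ k +
        (2 * A * δ * (p + n + N)) ^ k) + (A * (p + n + N) ^ 2) ^ k * Real.exp (-τ))) := by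
  obtain ⟨h1, h2, h3, h4⟩ := h.quad hK hk
  have hA0 : 0 ≤ A := (abs_nonneg _).trans (hA 0 0)
  have hc := h.c0
  have hΛ := h.Λ0
  have hδ := hρ.δ0
  have hN := hρ.N0
  have hΛk := hK.nonneg
  have hb : ∀ {m m' : ℕ} (s : Fin m → ℝ) (s' : Fin m' → ℝ), (m : ℝ) ≤ p + n → (m' : ℝ) ≤ p + n →
      (∀ i, |s i| ≤ R) → |nuF2 ρ ρ s s' κ| ≤ |nu2 R ρ ρ s s' κ| + 2 * A * δ * (p + n + N) := by
    intro m m' s s' hm hm' hs
    have h5 := nuF2_sub_nu2 h.R0 (s := s) (s' := s') hρ.i hρ.nn hρ.c hρ.i hρ.nn hρ.c hρ.δ hρ.δ hκ hA hs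
    rw [Fintype.card_fin, Fintype.card_fin] at h5
    have h6 := abs_add_le (nu2 R ρ ρ s s' κ) (nuF2 ρ ρ s s' κ - nu2 R ρ ρ s s' κ)
    rw [add_sub_cancel] at h6
    have h7 := hρ.N
    have h8 : A * ((m' : ℝ) + ∫ t, ρ t) * δ ≤ A * (p + n + N) * δ := by gcongr
    have h9 : A * δ * ((m : ℝ) + ∫ t, ρ t) ≤ A * δ * (p + n + N) := by gcongr
    nlinarith
  have ht : ∀ {m m' : ℕ} (s : Fin m → ℝ) (s' : Fin m' → ℝ), (m : ℝ) ≤ p + n → (m' : ℝ) ≤ p + n →
      |nuF2 ρ ρ s s' κ| ≤ A * (p + n + N) ^ 2 := by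
    intro m m' s s' hm hm'
    have h5 := nuF2_abs (s := s) (s' := s') hρ hA
    rw [Fintype.card_fin, Fintype.card_fin] at h5
    refine h5.trans ?_
    rw [pow_two, ← mul_assoc]
    gcongr
  have hp : (p : ℝ) ≤ p + n := by linarith [Nat.cast_nonneg (α := ℝ) n]
  have hn : (n : ℝ) ≤ p + n := by linarith [Nat.cast_nonneg (α := ℝ) p]
  exact ⟨h.line (S := fun x => |nuF2 ρ ρ x.1 x.1 κ|) (S0 := fun x => nu2 R ρ ρ x.1 x.1 κ)
      (fun x => abs_nonneg _) (by positivity) (by positivity) (by positivity)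
      (fun x hx => hb x.1 x.1 hp hp hx.1) (fun x => ht x.1 x.1 hp hp) h1,
    h.line (S := fun x => |nuF2 ρ ρ x.1 x.2 κ|) (S0 := fun x => nu2 R ρ ρ x.1 x.2 κ)
      (fun x => abs_nonneg _) (by positivity) (by positivity) (by positivity)
      (fun x hx => hb x.1 x.2 hp hn hx.1) (fun x => ht x.1 x.2 hp hn) h2,
    h.line (S := fun x => |nuF2 ρ ρ x.2 x.1 κ|) (S0 := fun x => nu2 R ρ ρ x.2 x.1 κ)
      (fun x => abs_nonneg _) (by positivity) (by positivity) (by positivity)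
      (fun x hx => hb x.2 x.1 hn hp hx.2) (fun x => ht x.2 x.1 hn hp) h3,
    h.line (S := fun x => |nuF2 ρ ρ x.2 x.2 κ|) (S0 := fun x => nu2 R ρ ρ x.2 x.2 κ)
      (fun x => abs_nonneg _) (by positivity) (by positivity) (by positivity)
      (fun x hx => hb x.2 x.2 hn hn hx.2) (fun x => ht x.2 x.2 hn hn) h4⟩

end

end PBM
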