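import Pool.Agent.PB.StatOK
import Pool.Agent.PB.CurvK
import Pool.Agent.PB.GasL

/-!
# Plan B, (U3): products of linear statistics on the curve are admissible insertions

**`statU`**: for `g_j`, `g'_j` analytic and bounded by `1` on a strip, densities `ρ` with
`∫ |ρ - m P| ≤ C0`, at most `8 m` quanta of each species: `∏_j nuE ρ η g_j g'_j` is `StatOK` with the bound
`m^(k+1)` and the price `m^ε`.
-/

set_option autoImplicit false
set_option linter.unusedSectionVars false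

open MeasureTheory Set Filter Topology
open scoped ENNReal

namespace PBZ

open NUKer NUR2 NUDi PBM

noncomputable section

/-! ### numbers -/

/-- polylogarithms are smaller than powers -/
theorem polylog_le (C : ℝ) (j : ℕ) {ε : ℝ} (hε : 0 < ε) :
    ∃ m0 : ℕ, ∀ m ≥ m0, C * Real.log m ^ j ≤ (m : ℝ) ^ ε := by
  have h1 : Tendsto (fun x : ℝ => x ^ j / Real.exp (ε * x)) atTop (𝓝 0) := by
    have h2 := Real.tendsto_pow_mul_exp_neg_atTop_nhds_zero j
    have h3 := (h2.comp (tendsto_id.const_mul_atTop hε)).const_mul ((1 / ε) ^ j)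
    rw [mul_zero] at h3
    refine h3.congr fun x => ?_
    simp only [Function.comp, id]
    rw [mul_pow, Real.exp_neg, div_eq_mul_inv, ← mul_assoc, ← mul_assoc, ← mul_pow]
    have e : (1 : ℝ) / ε * ε = 1 := by field_simp
    rw [one_div] at e
    rw [one_mul, e, one_pow, one_mul, div_eq_mul_inv]
  have h4 := (h1.const_mul C).comp (Real.tendsto_log_atTop.comp tendsto_natCast_atTop_atTop)
  rw [mul_zero] at h4
  have h5 := h4.eventually (eventually_le_nhds (zero_lt_one))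
  obtain ⟨m0, hm0⟩ := eventually_atTop.1 h5
  refine ⟨max m0 1, fun m hm => ?_⟩
  have h6 := hm0 m ((le_max_left _ _).trans hm)
  have hm1 : 1 ≤ m := (le_max_right _ _).trans hm
  have hmp : (0:ℝ) < m := by exact_mod_cast hm1
  simp only [Function.comp] at h6
  rw [← mul_div_assoc, div_le_one (Real.exp_pos _)] at h6
  rw [Real.rpow_def_of_pos hmp, mul_comm (Real.log (m:ℝ)) ε]
  exact h6

/-- powers are smaller than `exp (c (log m)²)` -/
theorem pow_le_explog (a : ℝ) {c : ℝ} (hc : 0 < c) :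
    ∃ m0 : ℕ, ∀ m ≥ m0, (m : ℝ) ^ a * Real.exp (-(c * Real.log m ^ 2)) ≤ 1 := by
  obtain ⟨m1, hm1⟩ := (Real.tendsto_log_atTop.comp tendsto_natCast_atTop_atTop).eventually
    (eventually_ge_atTop (|a| / c)) |>.exists_forall_of_atTop
  refine ⟨max m1 1, fun m hm => ?_⟩
  have h1 := hm1 m ((le_max_left _ _).trans hm)
  have hm2 : 1 ≤ m := (le_max_right _ _).trans hm
  have hmp : (0:ℝ) < m := by exact_mod_cast hm2
  simp only [Function.comp] at h1
  rw [div_le_iff₀ hc] at h1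
  have hL : 0 ≤ Real.log (m:ℝ) := Real.log_natCast_nonneg m
  rw [Real.rpow_def_of_pos hmp, ← Real.exp_add]
  refine Real.exp_le_one_iff.2 ?_
  have h2 : Real.log m * a ≤ Real.log m * |a| := by
    gcongr
    exact le_abs_self a
  nlinarith

theorem exists_log_ge (x : ℝ) : ∃ m0 : ℕ, ∀ m ≥ m0, x ≤ Real.log m := by
  obtain ⟨m1, hm1⟩ := (Real.tendsto_log_atTop.comp tendsto_natCast_atTop_atTop).eventually
    (eventually_ge_atTop x) |>.exists_forall_of_atTop
  exact ⟨m1, fun m hm => hm1 m hm⟩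

/-! ### operations with statistics -/

section ops

variable {R : ℝ} {ρ : ℝ → ℝ} {c Λ τ : ℝ} {p n : ℕ} {a b : ℝ} {X : Cfg p n → ℝ}

lemma pow_add_pow_le' {x y : ℝ} (hx : 0 ≤ x) (hy : 0 ≤ y) {k : ℕ} (hk : k ≠ 0) :
    x ^ k + y ^ k ≤ (x + y) ^ k := by
  obtain ⟨j, rfl⟩ := Nat.exists_eq_succ_of_ne_zero hk
  induction j with
  | zero => simp
  | succ j ih =>
    have h1 := ih (Nat.succ_ne_zero _)
    rw [pow_succ x, pow_succ y, pow_succ (x + y)]
    have hx1 : 0 ≤ x ^ (j + 1) := by positivity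
    have hy1 : 0 ≤ y ^ (j + 1) := by positivity
    calc x ^ (j + 1) * x + y ^ (j + 1) * y ≤ x ^ (j + 1) * (x + y) + y ^ (j + 1) * (x + y) := by
          gcongr <;> linarith
      _ = (x ^ (j + 1) + y ^ (j + 1)) * (x + y) := by ring
      _ ≤ _ := by gcongr

/-- a statistic close to another one on the window -/
theorem St.shift {b' : ℝ} {Y : Cfg p n → ℝ} (h : St R ρ c Λ τ p n a b' Y) (hm : Measurable X)
    {d : ℝ} (hd : 0 ≤ d) (hb0 : 0 ≤ b) (hw : ∀ x ∈ Bx (p := p) (n := n) R, |X x| ≤ |Y x| + d)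
    (hb : ∀ x, |X x| ≤ b) : St R ρ c Λ τ p n (2 * (a + d)) b X where
  meas := hm
  a0 := by
    have := h.a0
    positivity
  b0 := hb0
  bd := hb
  mom g U hg k hk := by
    have ha := h.a0
    have hk1 : (1:ℝ) ≤ k := by exact_mod_cast Nat.one_le_iff_ne_zero.2 hk
    have h2k : 2 * k ≠ 0 := by omega
    have h1 := h.mom g U hg k hk
    have hpt : ∀ x ∈ Bx (p := p) (n := n) R, g x * ENNReal.ofReal (|X x| ^ (2 * k)) ≤
        ENNReal.ofReal (2 ^ (2 * k)) * (g x * ENNReal.ofReal (|Y x| ^ (2 * k))) +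
          ENNReal.ofReal (2 ^ (2 * k) * d ^ (2 * k)) * g x := by
      intro x hx
      have h2 : |X x| ^ (2 * k) ≤ 2 ^ (2 * k) * (|Y x| ^ (2 * k) + d ^ (2 * k)) :=
        (pow_le_pow_left₀ (abs_nonneg _) (hw x hx) _).trans (add_pow_le_two (abs_nonneg _) hd _)
      calc g x * ENNReal.ofReal (|X x| ^ (2 * k)) ≤
          g x * ENNReal.ofReal (2 ^ (2 * k) * (|Y x| ^ (2 * k) + d ^ (2 * k))) := by gcongr
        _ = _ := by
            rw [mul_add, ENNReal.ofReal_add (by positivity) (by positivity),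
              ENNReal.ofReal_mul (by positivity)]
            ring
    refine (setLIntegral_mono' (measurableSet_Bx R) hpt).trans ?_
    rw [lintegral_add_right _ (hg.meas.const_mul _), lintegral_const_mul _ hg.meas,
      lintegral_const_mul' _ _ ENNReal.ofReal_ne_top]
    calc _ ≤ ENNReal.ofReal (2 ^ (2 * k)) * (U * ENNReal.ofReal ((k * a) ^ (2 * k))) +
          ENNReal.ofReal (2 ^ (2 * k) * d ^ (2 * k)) * U := by
          gcongr
          exact hg.mass
      _ = U * ENNReal.ofReal (2 ^ (2 * k) * ((k * a) ^ (2 * k) + d ^ (2 * k))) := by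
          rw [mul_add, ENNReal.ofReal_add (by positivity) (by positivity),
            ENNReal.ofReal_mul (by positivity : (0:ℝ) ≤ 2 ^ (2 * k)),
            ENNReal.ofReal_mul (by positivity : (0:ℝ) ≤ 2 ^ (2 * k))]
          ring
      _ ≤ _ := by
          gcongr
          have h3 := pow_add_pow_le' (show 0 ≤ k * a by positivity) hd h2k
          calc 2 ^ (2 * k) * ((k * a) ^ (2 * k) + d ^ (2 * k)) ≤ 2 ^ (2 * k) * (k * a + d) ^ (2 * k) := by
                gcongr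
            _ = (2 * (k * a + d)) ^ (2 * k) := by rw [mul_pow]
            _ ≤ _ := by
                refine pow_le_pow_left₀ (by positivity) ?_ _
                nlinarith

/-- sums of absolute values -/
theorem St.addA {a' b' : ℝ} {Y : Cfg p n → ℝ} (h : St R ρ c Λ τ p n a b X)
    (h' : St R ρ c Λ τ p n a' b' Y) :
    St R ρ c Λ τ p n (2 * (a + a')) (b + b') (fun x => |X x| + |Y x|) where
  meas := h.meas.abs.add h'.meas.abs
  a0 := by
    have := h.a0
    have := h'.a0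
    positivity
  b0 := add_nonneg h.b0 h'.b0
  bd x := by
    rw [abs_of_nonneg (by positivity)]
    exact add_le_add (h.bd x) (h'.bd x)
  mom g U hg k hk := by
    have ha := h.a0
    have ha' := h'.a0
    have h2k : 2 * k ≠ 0 := by omega
    have h1 := h.mom g U hg k hk
    have h2 := h'.mom g U hg k hk
    have hm1 : Measurable fun x => g x * ENNReal.ofReal (|X x| ^ (2 * k)) :=
      hg.meas.mul (h.meas.abs.pow_const _).ennreal_ofReal
    have hpt : ∀ x, g x * ENNReal.ofReal (|(|X x| + |Y x|)| ^ (2 * k)) ≤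
        ENNReal.ofReal (2 ^ (2 * k)) * (g x * ENNReal.ofReal (|X x| ^ (2 * k)) +
          g x * ENNReal.ofReal (|Y x| ^ (2 * k))) := by
      intro x
      rw [abs_of_nonneg (by positivity : 0 ≤ |X x| + |Y x|)]
      calc g x * ENNReal.ofReal ((|X x| + |Y x|) ^ (2 * k)) ≤
          g x * ENNReal.ofReal (2 ^ (2 * k) * (|X x| ^ (2 * k) + |Y x| ^ (2 * k))) := by
            gcongr
            exact add_pow_le_two (abs_nonneg _) (abs_nonneg _) _
        _ = _ := by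
            rw [ENNReal.ofReal_mul (by positivity), ENNReal.ofReal_add (by positivity) (by positivity)]
            ring
    refine (lintegral_mono fun x => hpt x).trans ?_
    rw [lintegral_const_mul' _ _ ENNReal.ofReal_ne_top, lintegral_add_left hm1]
    calc _ ≤ ENNReal.ofReal (2 ^ (2 * k)) * (U * ENNReal.ofReal ((k * a) ^ (2 * k)) +
          U * ENNReal.ofReal ((k * a') ^ (2 * k))) := by gcongr
      _ = U * ENNReal.ofReal (2 ^ (2 * k) * ((k * a) ^ (2 * k) + (k * a') ^ (2 * k))) := by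
          rw [ENNReal.ofReal_mul (by positivity : (0:ℝ) ≤ 2 ^ (2 * k)),
            ENNReal.ofReal_add (by positivity) (by positivity)]
          ring
      _ ≤ _ := by
          gcongr
          have h3 := pow_add_pow_le' (show 0 ≤ k * a by positivity) (show 0 ≤ k * a' by positivity) h2k
          calc 2 ^ (2 * k) * ((k * a) ^ (2 * k) + (k * a') ^ (2 * k)) ≤
              2 ^ (2 * k) * (k * a + k * a') ^ (2 * k) := by gcongr
            _ = (2 * (k * a + k * a')) ^ (2 * k) := by rw [mul_pow]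
            _ = _ := by ring

variable (hR : 0 ≤ R) (hc : 0 < c) (hΛ : 0 ≤ Λ) {N δ : ℝ} (hρ : Rho R ρ N δ)

include hρ in
lemma tv_le {ι : Type*} [Fintype ι] (hR : 0 ≤ R) : tv ι R ρ ≤ (Fintype.card ι : ℝ) + N := by
  unfold tv
  gcongr
  rw [intervalIntegral.integral_of_le (by linarith)]
  have e : ∀ t, |ρ t| = ρ t := fun t => abs_of_nonneg (hρ.nn t)
  simp only [e]
  exact (setIntegral_le_integral hρ.i (ae_of_all _ hρ.nn)).trans hρ.N

lemma measurable_nuF {m : ℕ} {s : Cfg p n → Fin m → ℝ} (hs : Measurable s) {f : ℝ → ℝ}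
    (hf : Continuous f) : Measurable fun x => nuF ρ (s x) f := by
  unfold nuF
  refine Measurable.sub (Finset.measurable_fun_sum _ fun i _ => ?_) measurable_const
  exact hf.measurable.comp ((measurable_pi_apply i).comp hs)

include hR hc hΛ hρ in
/-- whole line linear statistic, species X -/
theorem St.nuFX {f : ℝ → ℝ} (hf : Continuous f) {Λf F : ℝ} (hΛf : 0 < Λf)
    (hK : KC1 R Λf (fun t => (f t : ℂ))) (hF : ∀ t, |f t| ≤ F) :
    St R ρ c Λ τ p n (2 * (aLin c Λ Λf + F * δ)) (F * (p + N)) (fun x => nuF ρ x.1 f) := by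
  have hF0 : 0 ≤ F := (abs_nonneg _).trans (hF 0)
  have hδ := hρ.δ0
  have hN := hρ.N0
  refine (St.linX hR hρ.c hc hΛ hf hΛf hK hF).shift (measurable_nuF measurable_fst hf)
    (by positivity) (by positivity) (fun x _ => ?_) fun x => ?_
  · have h3 := nuF_sub_nu hR (s := x.1) hρ.i hρ.nn hρ.δ hf hF
    have h4 := abs_add_le (nu R ρ x.1 f) (nuF ρ x.1 f - nu R ρ x.1 f)
    rw [add_sub_cancel] at h4
    linarith
  · have h3 := nuF_abs (s := x.1) hρ.i hρ.nn hF
    rw [Fintype.card_fin] at h3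
    refine h3.trans ?_
    have := hρ.N
    gcongr

include hR hc hΛ hρ in
/-- whole line linear statistic, species Y -/
theorem St.nuFY {f : ℝ → ℝ} (hf : Continuous f) {Λf F : ℝ} (hΛf : 0 < Λf)
    (hK : KC1 R Λf (fun t => (f t : ℂ))) (hF : ∀ t, |f t| ≤ F) :
    St R ρ c Λ τ p n (2 * (aLin c Λ Λf + F * δ)) (F * (n + N)) (fun x => nuF ρ x.2 f) := by
  have hF0 : 0 ≤ F := (abs_nonneg _).trans (hF 0)
  have hδ := hρ.δ0
  have hN := hρ.N0
  refine (St.linY hR hρ.c hc hΛ hf hΛf hK hF).shift (measurable_nuF measurable_snd hf)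
    (by positivity) (by positivity) (fun x _ => ?_) fun x => ?_
  · have h3 := nuF_sub_nu hR (s := x.2) hρ.i hρ.nn hρ.δ hf hF
    have h4 := abs_add_le (nu R ρ x.2 f) (nuF ρ x.2 f - nu R ρ x.2 f)
    rw [add_sub_cancel] at h4
    linarith
  · have h3 := nuF_abs (s := x.2) hρ.i hρ.nn hF
    rw [Fintype.card_fin] at h3
    refine h3.trans ?_
    have := hρ.N
    gcongr

end ops

/-! ### complex test functions on the curve -/

lemma KC1_im {R Λ : ℝ} {f : ℝ → ℂ} (hR : 0 ≤ R) (h : KC1 R Λ f) :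
    KC1 R Λ (fun t => ((f t).im : ℂ)) := by
  have h1 : KC1 R Λ (fun t => (-Complex.I) * f t) := by
    refine KC1_of_left ((h.left.smul (-Complex.I)).mono (le_of_eq ?_)) hR
    rw [norm_neg, Complex.norm_I, one_mul]
  refine (h1.re hR).congr fun t _ => ?_
  simp

/-- complex whole line statistic -/
def nuC {ι : Type*} [Fintype ι] (ρ : ℝ → ℝ) (s : ι → ℝ) (f : ℝ → ℂ) : ℂ :=
  ∑ i, f (s i) - ∫ t, (ρ t : ℂ) * f t

lemma norm_nuC_le {ι : Type*} [Fintype ι] {ρ : ℝ → ℝ} {s : ι → ℝ} {f : ℝ → ℂ}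
    (hi : Integrable fun t => (ρ t : ℂ) * f t) :
    ‖nuC ρ s f‖ ≤ |nuF ρ s (fun t => (f t).re)| + |nuF ρ s (fun t => (f t).im)| := by
  have e1 : (nuC ρ s f).re = nuF ρ s (fun t => (f t).re) := by
    unfold nuC nuF
    rw [Complex.sub_re, Complex.re_sum]
    congr 1
    have h1 := integral_re hi
    simp only [RCLike.re_to_complex] at h1
    rw [← h1]
    refine integral_congr_ae (ae_of_all _ fun t => ?_)
    simp only [Complex.re_ofReal_mul]
    ring
  have e2 : (nuC ρ s f).im = nuF ρ s (fun t => (f t).im) := by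
    unfold nuC nuF
    rw [Complex.sub_im, Complex.im_sum]
    congr 1
    have h1 := integral_im hi
    simp only [RCLike.im_to_complex] at h1
    rw [← h1]
    refine integral_congr_ae (ae_of_all _ fun t => ?_)
    simp only [Complex.im_ofReal_mul]
    ring
  rw [← e1, ← e2]
  exact Complex.norm_le_abs_re_add_abs_im _

/-! ### the statistic on the curve -/

section curve

open PBU NUGC

variable [NUSea.Sea]

/-- the sea -/
theorem exists_rho : ∃ m0 : ℕ, ∀ m ≥ m0,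
    Rho (2 * Real.log m ^ 2) (fun t => (m : ℝ) * NUSea.P t) m (Real.exp (-(Real.log m ^ 2))) := by
  obtain ⟨m1, h1⟩ := pow_le_explog 1 (c := 1) one_pos
  have htC := NUSea.H0.tC_ge
  obtain ⟨m2, h2⟩ := exists_log_ge (max 1 (NUSea.H0.tC))
  refine ⟨max (max m1 m2) 1, fun m hm => ?_⟩
  have g1 := h1 m ((le_max_left _ _).trans ((le_max_left _ _).trans hm))
  have g2 := h2 m ((le_max_right _ _).trans ((le_max_left _ _).trans hm))
  have hmn : 1 ≤ m := (le_max_right _ _).trans hm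
  have hm1 : (1:ℝ) ≤ m := by exact_mod_cast hmn
  have hmp : (0:ℝ) < m := by linarith
  have hL1 : 1 ≤ Real.log m := (le_max_left _ _).trans g2
  have hLt : NUSea.H0.tC ≤ Real.log m := (le_max_right _ _).trans g2
  obtain ⟨L, hL⟩ : ∃ L, L = Real.log m := ⟨_, rfl⟩
  rw [← hL] at g1 hL1 hLt ⊢
  rw [Real.rpow_one, one_mul] at g1
  have hi : Integrable fun t => (m : ℝ) * NUSea.P t := NUSea.P_int.const_mul _
  have hn : ∀ t, 0 ≤ (m : ℝ) * NUSea.P t := fun t => mul_nonneg hmp.le (NUSea.P_pos t).le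
  refine ⟨hi, hn, continuous_const.mul NUSea.P_cont, ?_, ?_⟩
  · rw [integral_const_mul, NUSea.P_mass, mul_one]
  · have h3 := NUH0.tail2 (T := 2 * L ^ 2)
      (c := NUSea.H0.tC / 2 * |(m:ℝ)| * Real.exp (-(8 / 3) * (2 * L ^ 2))) (by positivity) hi
      (fun x hx => NUSea.H0.sP_tail hx)
    have h4 : ∫ t in (Set.Ioc (-(2 * L ^ 2)) (2 * L ^ 2))ᶜ, (m : ℝ) * NUSea.P t ≤
        ∫ x in {x | 2 * L ^ 2 ≤ |x|}, |(m : ℝ) * NUSea.P x| := by
      have e : ∀ x, |(m : ℝ) * NUSea.P x| = (m : ℝ) * NUSea.P x := fun x => abs_of_nonneg (hn x)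
      simp only [e]
      refine setIntegral_mono_set hi.integrableOn (ae_of_all _ hn) (Filter.Eventually.of_forall ?_)
      intro x hx
      show 2 * L ^ 2 ≤ |x|
      have hx' : ¬ (-(2 * L ^ 2) < x ∧ x ≤ 2 * L ^ 2) := hx
      rw [not_and_or, not_lt, not_le] at hx'
      rcases hx' with h | h
      · rw [le_abs]
        right
        linarith
      · exact h.le.trans (le_abs_self x)
    refine h4.trans (h3.trans ?_)
    rw [abs_of_pos hmp]
    have h5 : Real.exp (-(8 / 3) * (2 * L ^ 2)) ≤ Real.exp (-(L ^ 2)) * Real.exp (-(L ^ 2)) *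
        Real.exp (-L) := by
      rw [← Real.exp_add, ← Real.exp_add]
      refine Real.exp_le_exp.2 ?_
      nlinarith
    have h6 : L * Real.exp (-L) ≤ 1 := by
      have := Real.add_one_le_exp L
      rw [Real.exp_neg, ← div_eq_mul_inv, div_le_one (Real.exp_pos _)]
      linarith
    have hE := Real.exp_pos (-(L ^ 2))
    have hE1 := Real.exp_pos (-L)
    calc 2 * (NUSea.H0.tC / 2 * (m:ℝ) * Real.exp (-(8 / 3) * (2 * L ^ 2))) =
        NUSea.H0.tC * (m:ℝ) * Real.exp (-(8 / 3) * (2 * L ^ 2)) := by ring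
      _ ≤ L * (m:ℝ) * (Real.exp (-(L ^ 2)) * Real.exp (-(L ^ 2)) * Real.exp (-L)) := by gcongr
      _ = (L * Real.exp (-L)) * ((m:ℝ) * Real.exp (-(L ^ 2))) * Real.exp (-(L ^ 2)) := by ring
      _ ≤ 1 * 1 * Real.exp (-(L ^ 2)) := by gcongr
      _ = _ := by ring

lemma Sp_convex (y₁ y₂ : ℝ) : Convex ℝ (PBE.Sp y₁ y₂) := by
  have h1 : Convex ℝ {z : ℂ | y₁ < z.im} := convex_halfSpace_im_gt y₁
  have h2 : Convex ℝ {z : ℂ | z.im < y₂} := convex_halfSpace_im_lt y₂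
  exact h1.inter h2

/-- vertical displacement -/
lemma BC_lip {y₁ y₂ M r : ℝ} {g : ℂ → ℂ} (hg : BC y₁ y₂ M g) (hr : 0 < r) {z w : ℂ}
    (hz : z ∈ PBE.Sp (y₁ + r) (y₂ - r)) (hw : w ∈ PBE.Sp (y₁ + r) (y₂ - r)) :
    ‖g z - g w‖ ≤ M / r * ‖z - w‖ := by
  have h1 := hg.deriv hr
  exact (Sp_convex _ _).norm_image_sub_le_of_norm_hasDerivWithin_le (f' := deriv g)
    (fun x hx => (hg.hasDeriv ⟨by linarith [hx.1], by linarith [hx.2]⟩).hasDerivWithinAt)
    (fun x hx => h1.bd x hx) hw hz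

/-- mass of the displacement -/
lemma cur_mass {s ε M b : ℝ} {e η : ℝ → ℝ} (h : NUSea.Cur s ε M b e η) (hs : 0 ≤ s) (hb : 0 ≤ b)
    (hM : 0 ≤ M) : Integrable (fun t => s * NUSea.P t * |η t|) ∧
      ∫ t, s * NUSea.P t * |η t| ≤ 2 * b * M := by
  have h1 : ∀ t, |η t| ≤ e t := by
    intro t
    have := h.oc.le t
    unfold iD at this
    rw [norm_mul, Complex.norm_I, mul_one, Complex.norm_real, Real.norm_eq_abs] at this
    exact this
  have hP : ∀ t, 0 ≤ s * NUSea.P t := fun t => mul_nonneg hs (NUSea.P_pos t).le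
  have h0 : ∀ t, s * NUSea.P t * |η t| ≤ (Set.Icc (-b) b).indicator (fun _ => M) t := by
    intro t
    by_cases ht : t ∈ Set.Icc (-b) b
    · rw [Set.indicator_of_mem ht]
      exact (mul_le_mul_of_nonneg_left (h1 t) (hP t)).trans (h.mass t)
    · rw [Set.indicator_of_notMem ht]
      have h2 : b < |t| := by
        by_contra h3
        exact ht (abs_le.1 (not_lt.1 h3))
      have h4 := h1 t
      rw [h.supp t h2] at h4
      rw [le_antisymm h4 (abs_nonneg _), mul_zero]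
  have hi : Integrable ((Set.Icc (-b) b).indicator (fun _ : ℝ => M)) :=
    (integrable_indicator_iff measurableSet_Icc).2 (continuous_const.integrableOn_Icc)
  have hc : Continuous η := by
    have h3 := Complex.continuous_im.comp h.oc.cont
    refine h3.congr fun t => ?_
    simp [iD]
  have hci : Integrable (fun t => s * NUSea.P t * |η t|) := by
    refine hi.mono' ((continuous_const.mul NUSea.P_cont).mul hc.abs).aestronglyMeasurable
      (ae_of_all _ fun t => ?_)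
    rw [Real.norm_of_nonneg (mul_nonneg (hP t) (abs_nonneg _))]
    exact h0 t
  refine ⟨hci, (integral_mono hci hi h0).trans (le_of_eq ?_)⟩
  rw [integral_indicator measurableSet_Icc, setIntegral_const, Measure.real, Real.volume_Icc,
    ENNReal.toReal_ofReal (by linarith), smul_eq_mul]
  ring

lemma BC_cont {y₁ y₂ M : ℝ} {g : ℂ → ℂ} (hg : BC y₁ y₂ M g) (h1 : y₁ < 0) (h2 : 0 < y₂) :
    Continuous fun t : ℝ => g t := by
  refine continuous_iff_continuousAt.2 fun t => ?_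
  have hz : (t : ℂ) ∈ PBE.Sp y₁ y₂ := ⟨by simpa using h1, by simpa using h2⟩
  exact ContinuousAt.comp_of_eq (hg.hasDeriv hz).continuousAt
    Complex.continuous_ofReal.continuousAt rfl

/-- the mean on the curve -/
lemma mean_diff {C0 y₁ y₂ r M b s : ℝ} {ε : ℝ} {e η : ℝ → ℝ} {g : ℂ → ℂ} {ρ : ℝ → ℂ}
    (hg : BC y₁ y₂ 1 g) (hr : 0 < r) (hy1 : y₁ ≤ -(5 * r)) (hy2 : 5 * r ≤ y₂)
    (h : NUSea.Cur s ε M b e η) (hε : ε ≤ r) (hs : 0 ≤ s) (hb : 0 ≤ b) (hM : 0 ≤ M)
    (hρ : Integrable ρ) (hd : (∫ t : ℝ, ‖ρ t - (s : ℂ) * NUSea.P t‖) ≤ C0) :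
    ‖(∫ t : ℝ, ((s * NUSea.P t : ℝ) : ℂ) * g (t + iD η t)) - ∫ t : ℝ, ρ t * g t‖ ≤
      1 / r * (2 * b * M) + C0 := by
  obtain ⟨m1, m2⟩ := cur_mass h hs hb hM
  have hin : ∀ t : ℝ, (t + iD η t : ℂ) ∈ PBE.Sp (y₁ + r) (y₂ - r) := by
    intro t
    have h1 := (Complex.abs_im_le_norm (iD η t)).trans ((h.oc.le t).trans ((h.le t).trans hε))
    rw [abs_le] at h1
    have e1 : (t + iD η t : ℂ).im = (iD η t).im := by simp
    constructor
    · rw [e1]; linarith [h1.1]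
    · rw [e1]; linarith [h1.2]
  have hin' : ∀ t : ℝ, (t + iD η t : ℂ) ∈ PBE.Sp y₁ y₂ := fun t =>
    ⟨by linarith [(hin t).1], by linarith [(hin t).2]⟩
  have hin0 : ∀ t : ℝ, (t : ℂ) ∈ PBE.Sp (y₁ + r) (y₂ - r) := fun t =>
    ⟨by simpa using (by linarith : y₁ + r < 0), by simpa using (by linarith : 0 < y₂ - r)⟩
  have hin0' : ∀ t : ℝ, (t : ℂ) ∈ PBE.Sp y₁ y₂ := fun t =>
    ⟨by linarith [(hin0 t).1], by linarith [(hin0 t).2]⟩
  have hi : Integrable fun t : ℝ => s * NUSea.P t := NUSea.P_int.const_mul _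
  have hic : Integrable fun t : ℝ => ((s * NUSea.P t : ℝ) : ℂ) := hi.ofReal
  have cg : Continuous fun t : ℝ => g t := BC_cont hg (by linarith) (by linarith)
  have cf : Continuous fun t : ℝ => g (t + iD η t) := by
    refine continuous_iff_continuousAt.2 fun t => ?_
    exact ContinuousAt.comp_of_eq (hg.hasDeriv (hin' t)).continuousAt
      (Complex.continuous_ofReal.add h.oc.cont).continuousAt rfl
  have i1 : Integrable fun t : ℝ => ((s * NUSea.P t : ℝ) : ℂ) * g (t + iD η t) :=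
    hic.mul_bdd (c := 1) cf.aestronglyMeasurable (ae_of_all _ fun t => hg.bd _ (hin' t))
  have i2 : Integrable fun t : ℝ => ((s * NUSea.P t : ℝ) : ℂ) * g t :=
    hic.mul_bdd (c := 1) cg.aestronglyMeasurable (ae_of_all _ fun t => hg.bd _ (hin0' t))
  have i3 : Integrable fun t : ℝ => ρ t * g t :=
    hρ.mul_bdd (c := 1) cg.aestronglyMeasurable (ae_of_all _ fun t => hg.bd _ (hin0' t))
  have e1 : (∫ t : ℝ, ((s * NUSea.P t : ℝ) : ℂ) * g (t + iD η t)) - ∫ t : ℝ, ρ t * g t =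
      (∫ t : ℝ, ((s * NUSea.P t : ℝ) : ℂ) * (g (t + iD η t) - g t)) -
        ∫ t : ℝ, (ρ t - (s : ℂ) * NUSea.P t) * g t := by
    rw [← integral_sub i1 i3]
    have e2 : (fun t : ℝ => ((s * NUSea.P t : ℝ) : ℂ) * (g (t + iD η t) - g t)) =
        fun t : ℝ => ((s * NUSea.P t : ℝ) : ℂ) * g (t + iD η t) -
          ((s * NUSea.P t : ℝ) : ℂ) * g t := by
      funext t
      ring
    have e3 : (fun t : ℝ => (ρ t - (s : ℂ) * NUSea.P t) * g t) =
        fun t : ℝ => ρ t * g t - ((s * NUSea.P t : ℝ) : ℂ) * g t := by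
      funext t
      push_cast
      ring
    rw [e2, e3, integral_sub i1 i2, integral_sub i3 i2, integral_sub i1 i3]
    ring
  rw [e1]
  refine (norm_sub_le _ _).trans (add_le_add ?_ ?_)
  · refine (norm_integral_le_of_norm_le (m1.const_mul (1 / r)) (ae_of_all _ fun t => ?_)).trans ?_
    · rw [norm_mul, Complex.norm_real, Real.norm_of_nonneg (mul_nonneg hs (NUSea.P_pos t).le)]
      have h3 := BC_lip hg hr (hin t) (hin0 t)
      have e4 : ‖(t + iD η t : ℂ) - t‖ = |η t| := by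
        rw [add_sub_cancel_left]
        unfold iD
        rw [norm_mul, Complex.norm_I, mul_one, Complex.norm_real, Real.norm_eq_abs]
      rw [e4] at h3
      calc s * NUSea.P t * ‖g (t + iD η t) - g t‖ ≤ s * NUSea.P t * (1 / r * |η t|) :=
            mul_le_mul_of_nonneg_left h3 (mul_nonneg hs (NUSea.P_pos t).le)
        _ = _ := by ring
    · rw [integral_const_mul]
      gcongr
  · refine (norm_integral_le_of_norm_le ?_ (ae_of_all _ fun t => ?_)).trans hd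
    · exact (hρ.sub (by simpa using hic)).norm
    · rw [norm_mul]
      calc _ ≤ ‖ρ t - (s : ℂ) * NUSea.P t‖ * 1 := by
            gcongr
            exact hg.bd _ (hin0' t)
        _ = _ := mul_one _

lemma abs_nest (A B C D : ℝ) {t : ℝ} (ht : 0 ≤ t) :
    |(|(|(|A| + |B|)| + |(|C| + |D|)|)| + |t|)| = |A| + |B| + (|C| + |D|) + t := by
  rw [abs_of_nonneg (by positivity : 0 ≤ |A| + |B|), abs_of_nonneg (by positivity : 0 ≤ |C| + |D|),
    abs_of_nonneg (by positivity : 0 ≤ |A| + |B| + (|C| + |D|)), abs_of_nonneg ht,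
    abs_of_nonneg (by positivity)]

/-- numbers of the moment constant -/
lemma aLin_le {Cg L Λf : ℝ} (hCg : 1 ≤ Cg) (hL : 1 ≤ L) (hΛ : 0 ≤ Λf) :
    aLin (1 / (Cg * L ^ 2)) (Cg * L ^ 6) Λf ≤ 4 * Cg * L ^ 4 * Λf := by
  unfold aLin
  refine mul_le_mul_of_nonneg_right ?_ hΛ
  refine Real.sqrt_le_iff.2 ⟨by positivity, ?_⟩
  have h1 : 1 ≤ Cg * L ^ 6 := by
    have := one_le_pow₀ hL (n := 6)
    nlinarith
  have h2 : 0 ≤ Cg * L ^ 2 := by positivity
  calc 8 * (Cg * L ^ 6 + 1) / (1 / (Cg * L ^ 2)) = 8 * (Cg * L ^ 6 + 1) * (Cg * L ^ 2) := by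
        field_simp
    _ ≤ 8 * (Cg * L ^ 6 + Cg * L ^ 6) * (Cg * L ^ 2) := by gcongr
    _ = (4 * Cg * L ^ 4) ^ 2 := by ring

/-- the statistic on the curve from the real statistics -/
lemma nu1_le {η : ℝ → ℝ} {ρ : ℝ → ℂ} {ρ' : ℝ → ℝ} (g : ℂ → ℂ) (s : Bool) {p q : ℕ}
    {C1 : ℝ} (hρ' : Integrable ρ') (hf : Continuous fun t : ℝ => g (t + iD η t))
    (hb : ∀ t : ℝ, ‖g (t + iD η t)‖ ≤ 1)
    (hC : ‖(∫ t : ℝ, ((ρ' t : ℝ) : ℂ) * g (t + iD η t)) - ∫ t : ℝ, ρ t * g t‖ ≤ C1)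
    (x : Cfg p q) :
    ‖nu1 ρ η s g x‖ ≤ (if s then |nuF ρ' x.1 (fun t => (g (t + iD η t)).re)| +
        |nuF ρ' x.1 (fun t => (g (t + iD η t)).im)| else
        |nuF ρ' x.2 (fun t => (g (t + iD η t)).re)| +
        |nuF ρ' x.2 (fun t => (g (t + iD η t)).im)|) + C1 := by
  have hi : Integrable fun t : ℝ => ((ρ' t : ℝ) : ℂ) * g (t + iD η t) :=
    hρ'.ofReal.mul_bdd (c := 1) hf.aestronglyMeasurable (ae_of_all _ hb)
  have hq' : ∀ t : ℝ, hq η t = t + iD η t := fun t => rfl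
  cases s
  · have e : nu1 ρ η false g x = nuC ρ' x.2 (fun t => g (t + iD η t)) +
        ((∫ t : ℝ, ((ρ' t : ℝ) : ℂ) * g (t + iD η t)) - ∫ t : ℝ, ρ t * g t) := by
      unfold nu1 nuC
      simp only [hq']
      simp
    rw [e]
    exact (norm_add_le _ _).trans (add_le_add (norm_nuC_le hi) hC)
  · have e : nu1 ρ η true g x = nuC ρ' x.1 (fun t => g (t + iD η t)) +
        ((∫ t : ℝ, ((ρ' t : ℝ) : ℂ) * g (t + iD η t)) - ∫ t : ℝ, ρ t * g t) := by
      unfold nu1 nuC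
      simp only [hq']
      simp
    rw [e]
    exact (norm_add_le _ _).trans (add_le_add (norm_nuC_le hi) hC)

lemma measurable_nu1 {η : ℝ → ℝ} {ρ : ℝ → ℂ} (g : ℂ → ℂ) (s : Bool) {p q : ℕ}
    (hf : Continuous fun t : ℝ => g (t + iD η t)) :
    Measurable fun x : Cfg p q => nu1 ρ η s g x := by
  have hq' : ∀ t : ℝ, hq η t = t + iD η t := fun t => rfl
  unfold nu1
  simp only [hq']
  refine Measurable.sub ?_ measurable_const
  cases s
  · simp only [Bool.false_eq_true, if_false]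
    refine Finset.measurable_fun_sum _ fun i _ => ?_
    exact hf.measurable.comp ((measurable_pi_apply i).comp measurable_snd)
  · simp only [if_true]
    refine Finset.measurable_fun_sum _ fun i _ => ?_
    exact hf.measurable.comp ((measurable_pi_apply i).comp measurable_fst)

/-- **one factor**: the statistic `1 + |ν_X g| + |ν_Y g'|` on the curve -/
theorem exists_St {e1 J : ℝ} (he : 0 < e1) (he1 : e1 ≤ 1 / 100) (hJ : 0 ≤ J) (C0 y₁ y₂ : ℝ)
    (h1 : y₁ < 0) (h2 : 0 < y₂) {Cg : ℝ} (hCg : 1 ≤ Cg) :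
    ∃ (Ca : ℝ) (m0 : ℕ), 1 ≤ Ca ∧ ∀ m ≥ m0, ∀ ρ : ℝ → ℂ, DN C0 m ρ → ∀ g g' : ℂ → ℂ,
      BC y₁ y₂ 1 g → BC y₁ y₂ 1 g' → ∀ p q : ℕ, (p : ℝ) ≤ 8 * m → (q : ℝ) ≤ 8 * m →
      ∃ X : Cfg p q → ℝ, (∀ x, nuE ρ (etaC e1 J m m) g g' x ≤ ENNReal.ofReal |X x|) ∧
        (Measurable fun x : Cfg p q => nuE ρ (etaC e1 J m m) g g' x) ∧
        St (2 * Real.log m ^ 2) (fun t => (m : ℝ) * NUSea.P t) (1 / (Cg * Real.log m ^ 2))
          (Cg * Real.log m ^ 6) (Real.log m ^ 2 / 40) p q (Ca * Real.log m ^ 10) (Ca * m) X := by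
  obtain ⟨r, hr⟩ : ∃ r, r = min 1 (min (-y₁ / 5) (y₂ / 5)) := ⟨_, rfl⟩
  have hr0 : 0 < r := by
    rw [hr]
    exact lt_min one_pos (lt_min (by linarith) (by linarith))
  have hr1 : r ≤ 1 := by rw [hr]; exact min_le_left _ _
  have hy1 : y₁ ≤ -(5 * r) := by
    have : r ≤ -y₁ / 5 := by rw [hr]; exact (min_le_right _ _).trans (min_le_left _ _)
    linarith
  have hy2 : 5 * r ≤ y₂ := by
    have : r ≤ y₂ / 5 := by rw [hr]; exact (min_le_right _ _).trans (min_le_right _ _)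
    linarith
  obtain ⟨C1, hC1, m1, hm1, H1⟩ := exists_curC he he1 hJ hr0
  obtain ⟨K, hK0, HK⟩ := exists_KC1_curve
  obtain ⟨m2, H2⟩ := exists_rho
  obtain ⟨m3, H3⟩ := exists_log_ge 1
  obtain ⟨m4, H4⟩ := polylog_le 1 2 (one_pos : (0:ℝ) < 1)
  obtain ⟨Ct, hCt⟩ : ∃ Ct, Ct = 1 + 2 * (C1 / r + |C0|) := ⟨_, rfl⟩
  obtain ⟨Ka, hKa⟩ : ∃ Ka, Ka = 32 * Cg * K * (1 / r ^ 3) + 1 := ⟨_, rfl⟩
  have hCt1 : 1 ≤ Ct := by
    rw [hCt]
    have : 0 ≤ C1 / r + |C0| := by positivity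
    linarith
  have hKa1 : 1 ≤ Ka := by
    rw [hKa]
    have : 0 ≤ 32 * Cg * K * (1 / r ^ 3) := by positivity
    linarith
  refine ⟨2 * (16 * (2 * Ka) + Ct) + 36 + Ct, max (max m1 m2) (max m3 (max m4 1)), by linarith,
    fun m hm ρ hρ g g' hg hg' p q hp hq => ?_⟩
  have k1 : m1 ≤ m := (le_max_left _ _).trans ((le_max_left _ _).trans hm)
  have k2 : m2 ≤ m := (le_max_right _ _).trans ((le_max_left _ _).trans hm)
  have k3 : m3 ≤ m := (le_max_left _ _).trans ((le_max_right _ _).trans hm)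
  have k4 : m4 ≤ m := (le_max_left _ _).trans ((le_max_right _ _).trans ((le_max_right _ _).trans hm))
  have k5 : 1 ≤ m := (le_max_right _ _).trans ((le_max_right _ _).trans ((le_max_right _ _).trans hm))
  have hm1 : (1:ℝ) ≤ m := by exact_mod_cast k5
  obtain ⟨hT, H1⟩ := H1 m k1
  obtain ⟨ε, e, hcur, hε0, -, hεr⟩ := H1 m (by linarith)
  have hrho := H2 m k2
  have hL1 := H3 m k3
  have hL2 := H4 m k4
  rw [one_mul, Real.rpow_one] at hL2
  obtain ⟨L, hL⟩ : ∃ L, L = Real.log m := ⟨_, rfl⟩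
  obtain ⟨η, hη⟩ : ∃ η, η = etaC e1 J m m := ⟨_, rfl⟩
  rw [← hη] at hcur ⊢
  rw [← hL] at hcur hrho hL1 hL2 hT ⊢
  have hTb : (1 - e1) * NUO.Tb L ≤ L / 2 := by
    unfold NUO.Tb
    nlinarith
  have hTb0 : 0 ≤ (1 - e1) * NUO.Tb L := by
    refine mul_nonneg (by linarith) (by linarith)
  have hA : 1 ≤ 2 * L ^ 2 := by nlinarith
  have hA0 : 0 ≤ 2 * L ^ 2 := by linarith
  have hL2' : 1 ≤ L ^ 2 := by nlinarith
  have hL10 : 1 ≤ L ^ 10 := one_le_pow₀ hL1
  have hL210 : L ^ 2 ≤ L ^ 10 := pow_le_pow_right₀ hL1 (by norm_num)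
  have hc : 0 < 1 / (Cg * L ^ 2) := by positivity
  have hΛ : 0 ≤ Cg * L ^ 6 := by positivity
  obtain ⟨hρi, hρd⟩ := hρ
  -- the test functions on the curve
  obtain ⟨f1, f2, f3⟩ := HK (2 * L ^ 2) hA hg hr0 hr1 hy1 hy2 hcur.oc.lower hcur.le hεr
  obtain ⟨f1', f2', f3'⟩ := HK (2 * L ^ 2) hA hg' hr0 hr1 hy1 hy2 hcur.oc.lower hcur.le hεr
  obtain ⟨Λf, hΛf⟩ : ∃ Λf, Λf = K * (2 * L ^ 2) ^ 3 * (1 / r ^ 3) := ⟨_, rfl⟩
  rw [← hΛf] at f1 f1'
  have hΛf0 : 0 < Λf := by rw [hΛf]; positivity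
  obtain ⟨δ, hδ⟩ : ∃ δ, δ = Real.exp (-(L ^ 2)) := ⟨_, rfl⟩
  rw [← hδ] at hrho
  have hδ1 : δ ≤ 1 := by
    rw [hδ]
    exact Real.exp_le_one_iff.2 (by linarith)
  have hre : ∀ (f : ℂ → ℂ), (Continuous fun t : ℝ => f (t + iD η t)) →
      Continuous fun t : ℝ => (f (t + iD η t)).re := fun f h => Complex.continuous_re.comp h
  have him : ∀ (f : ℂ → ℂ), (Continuous fun t : ℝ => f (t + iD η t)) →
      Continuous fun t : ℝ => (f (t + iD η t)).im := fun f h => Complex.continuous_im.comp h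
  have sX1 := St.nuFX (τ := L ^ 2 / 40) (p := p) (n := q) hA0 hc hΛ hrho (hre g f2) hΛf0 (f1.re hA0)
    (F := 1) fun t => (Complex.abs_re_le_norm _).trans (f3 t)
  have sX2 := St.nuFX (τ := L ^ 2 / 40) (p := p) (n := q) hA0 hc hΛ hrho (him g f2) hΛf0
    (KC1_im hA0 f1) (F := 1) fun t => (Complex.abs_im_le_norm _).trans (f3 t)
  have sY1 := St.nuFY (τ := L ^ 2 / 40) (p := p) (n := q) hA0 hc hΛ hrho (hre g' f2') hΛf0
    (f1'.re hA0) (F := 1) fun t => (Complex.abs_re_le_norm _).trans (f3' t)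
  have sY2 := St.nuFY (τ := L ^ 2 / 40) (p := p) (n := q) hA0 hc hΛ hrho (him g' f2') hΛf0
    (KC1_im hA0 f1') (F := 1) fun t => (Complex.abs_im_le_norm _).trans (f3' t)
  obtain ⟨a0, ha0⟩ : ∃ a0, a0 = 2 * (aLin (1 / (Cg * L ^ 2)) (Cg * L ^ 6) Λf + 1 * δ) := ⟨_, rfl⟩
  have ha : a0 ≤ 2 * Ka * L ^ 10 := by
    have h3 := aLin_le hCg hL1 hΛf0.le
    have h4 : 4 * Cg * L ^ 4 * Λf = 32 * Cg * K * (1 / r ^ 3) * L ^ 10 := by
      rw [hΛf]
      ring
    rw [h4] at h3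
    rw [ha0, hKa]
    nlinarith
  rw [← ha0] at sX1 sX2 sY1 sY2
  have ht : 0 < Ct * L ^ 2 := by positivity
  have s5 := ((sX1.addA sX2).addA (sY1.addA sY2)).addA
    (St.const (R := 2 * L ^ 2) (ρ := fun t => (m : ℝ) * NUSea.P t) (c := 1 / (Cg * L ^ 2))
      (Λ := Cg * L ^ 6) (τ := L ^ 2 / 40) (p := p) (n := q) ht)
  refine ⟨_, ?_, ?_, s5.mono ?_ ?_⟩
  · intro x
    have hmC : 0 ≤ C1 * L := by positivity
    have hρd' : (∫ t : ℝ, ‖ρ t - (((m : ℝ) : ℂ)) * NUSea.P t‖) ≤ C0 := by simpa using hρd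
    have d1 := mean_diff hg hr0 hy1 hy2 hcur hεr (by linarith) hTb0 hmC hρi hρd'
    have d2 := mean_diff hg' hr0 hy1 hy2 hcur hεr (by linarith) hTb0 hmC hρi hρd'
    have n1 := nu1_le g true hrho.i f2 f3 d1 x
    have n2 := nu1_le g' false hrho.i f2' f3' d2 x
    simp only [if_true] at n1
    simp only [Bool.false_eq_true, if_false] at n2
    have hCd : 1 / r * (2 * ((1 - e1) * NUO.Tb L) * (C1 * L)) + C0 ≤ C1 / r * L ^ 2 + |C0| := by
      have h5 : 2 * ((1 - e1) * NUO.Tb L) * (C1 * L) ≤ L * (C1 * L) := by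
        gcongr
        linarith
      calc _ ≤ 1 / r * (L * (C1 * L)) + |C0| := by
            gcongr
            exact le_abs_self _
        _ = _ := by ring
    have hfin : 1 + ‖nu1 ρ η true g x‖ + ‖nu1 ρ η false g' x‖ ≤
        (|nuF (fun t => (m : ℝ) * NUSea.P t) x.1 (fun t => (g (t + iD η t)).re)| +
        |nuF (fun t => (m : ℝ) * NUSea.P t) x.1 (fun t => (g (t + iD η t)).im)|) +
        (|nuF (fun t => (m : ℝ) * NUSea.P t) x.2 (fun t => (g' (t + iD η t)).re)| +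
        |nuF (fun t => (m : ℝ) * NUSea.P t) x.2 (fun t => (g' (t + iD η t)).im)|) + Ct * L ^ 2 := by
      have h6 : 1 + 2 * (C1 / r * L ^ 2 + |C0|) ≤ Ct * L ^ 2 := by
        rw [hCt]
        have : 0 ≤ |C0| := abs_nonneg _
        nlinarith
      linarith
    unfold nuE
    rw [← ofReal_norm, ← ofReal_norm, ← ENNReal.ofReal_one, ← ENNReal.ofReal_add zero_le_one
      (norm_nonneg _), ← ENNReal.ofReal_add (by positivity) (norm_nonneg _)]
    exact ENNReal.ofReal_le_ofReal (hfin.trans (abs_nest _ _ _ _ ht.le).ge)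
  · unfold nuE
    exact ((measurable_const.add (measurable_nu1 g true f2).enorm)).add
      (measurable_nu1 g' false f2').enorm
  · have h7 : Ct * L ^ 2 ≤ Ct * L ^ 10 := by gcongr
    have h8 : 0 ≤ (36 + Ct) * L ^ 10 := by positivity
    nlinarith
  · have h7 : Ct * L ^ 2 ≤ Ct * m := by gcongr
    have h8 : 0 ≤ (2 * (16 * (2 * Ka) + Ct)) * (m : ℝ) := by positivity
    nlinarith

/-- **products of statistics on the curve**: bound `m^(k+1)`, price `m^ε` -/
theorem statU {e1 : ℝ} (he : 0 < e1) (he1 : e1 ≤ 1 / 100) {J : ℝ} (hJ : 0 ≤ J) (C0 y₁ y₂ : ℝ)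
    (h1 : y₁ < 0) (h2 : 0 < y₂) (k : ℕ) {Cg ε : ℝ} (hCg : 1 ≤ Cg) (hε : 0 < ε) :
    ∃ m0 : ℕ, ∀ m ≥ m0, ∀ a b : ℕ, a ≤ 8 * m → b ≤ 8 * m →
    ∀ ρ : ℝ → ℂ, DN C0 m ρ → ∀ g g' : Fin k → ℂ → ℂ,
      (∀ j, BC y₁ y₂ 1 (g j) ∧ BC y₁ y₂ 1 (g' j)) →
      StatOK (2 * Real.log m ^ 2) (fun t => (m : ℝ) * NUSea.P t)
        (1 / (Cg * Real.log m ^ 2)) (Cg * Real.log m ^ 6) (Real.log m ^ 2 / 40) a b
        ((m : ℝ) ^ (k + 1)) ((m : ℝ) ^ ε)
        (fun x => ∏ j, nuE ρ (etaC e1 J m m) (g j) (g' j) x) := by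
  obtain ⟨Ca, m1, hCa, H⟩ := exists_St he he1 hJ C0 y₁ y₂ h1 h2 hCg
  obtain ⟨m2, H2⟩ := polylog_le (2 * (k * Ca) ^ k + Ca ^ k) (10 * k) hε
  obtain ⟨m3, H3⟩ := pow_le_explog k (c := 1 / 40) (by norm_num)
  obtain ⟨m4, H4⟩ := exists_log_ge 1
  obtain ⟨m5, H5⟩ := exists_nat_ge (Ca ^ k)
  obtain ⟨m6, H6⟩ := polylog_le 2 0 hε
  refine ⟨max (max (max m1 m2) (max m3 m4)) (max (max m5 m6) 1),
    fun m hm a b ha hb ρ hρ g g' hg => ?_⟩
  have hm' := (le_max_left _ _).trans hm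
  have hm'' := (le_max_right _ _).trans hm
  have q1 : m1 ≤ m := (le_max_left _ _).trans ((le_max_left _ _).trans hm')
  have q2 : m2 ≤ m := (le_max_right _ _).trans ((le_max_left _ _).trans hm')
  have q3 : m3 ≤ m := (le_max_left _ _).trans ((le_max_right _ _).trans hm')
  have q4 : m4 ≤ m := (le_max_right _ _).trans ((le_max_right _ _).trans hm')
  have q5 : m5 ≤ m := (le_max_left _ _).trans ((le_max_left _ _).trans hm'')
  have q6 : m6 ≤ m := (le_max_right _ _).trans ((le_max_left _ _).trans hm'')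
  have q7 : 1 ≤ m := (le_max_right _ _).trans hm''
  have r2 := H2 m q2
  have r3 := H3 m q3
  have hL1 := H4 m q4
  have r6 := H6 m q6
  have hm1 : (1:ℝ) ≤ m := by exact_mod_cast q7
  have hm5 : Ca ^ k ≤ m := H5.trans (by exact_mod_cast q5)
  have ha' : (a : ℝ) ≤ 8 * m := by exact_mod_cast ha
  have hb' : (b : ℝ) ≤ 8 * m := by exact_mod_cast hb
  choose X hX1 hX2 hX3 using fun j => H m q1 ρ hρ (g j) (g' j) (hg j).1 (hg j).2 a b ha' hb'
  obtain ⟨L, hL⟩ : ∃ L, L = Real.log m := ⟨_, rfl⟩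
  simp only [← hL] at r2 r3 hL1 hX3 ⊢
  have hmeas : Measurable fun x : Cfg a b => ∏ j, nuE ρ (etaC e1 J m m) (g j) (g' j) x :=
    Finset.measurable_fun_prod _ fun j _ => hX2 j
  rcases Nat.eq_zero_or_pos k with hk | hk
  · subst hk
    refine (StatOK.one (by positivity : (0:ℝ) ≤ L ^ 2 / 40)).mono ?_ ?_ hmeas fun x => ?_
    · rw [zero_add, pow_one]
      exact hm1
    · rw [pow_zero, mul_one] at r6
      exact r6
    · simp
  · have : Nonempty (Fin k) := ⟨⟨0, hk⟩⟩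
    have h5 := StatOK.prod hX3
    rw [Fintype.card_fin] at h5
    simp only [Finset.prod_const, Finset.card_univ, Fintype.card_fin] at h5
    have hmk : (1:ℝ) ≤ (m : ℝ) ^ k := one_le_pow₀ hm1
    refine h5.mono ?_ ?_ hmeas fun x => ?_
    · calc (Ca * m) ^ k = Ca ^ k * (m : ℝ) ^ k := mul_pow _ _ _
        _ ≤ m * (m : ℝ) ^ k := by gcongr
        _ = _ := by ring
    · have e2 : Real.exp (-(L ^ 2 / 40)) = Real.exp (-(1 / 40 * L ^ 2)) := by
        congr 1
        ring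
      rw [Real.rpow_natCast] at r3
      have hL10 : 1 ≤ L ^ (10 * k) := one_le_pow₀ hL1
      have hCk : 0 ≤ Ca ^ k := by positivity
      calc 2 * (k * (Ca * L ^ 10)) ^ k + (Ca * m) ^ k * Real.exp (-(L ^ 2 / 40)) =
            2 * (k * Ca) ^ k * L ^ (10 * k) +
              Ca ^ k * ((m : ℝ) ^ k * Real.exp (-(1 / 40 * L ^ 2))) := by
              rw [e2, mul_pow Ca (m:ℝ), ← mul_assoc (k:ℝ), mul_pow (k * Ca), ← pow_mul]
              ring
        _ ≤ 2 * (k * Ca) ^ k * L ^ (10 * k) + Ca ^ k * L ^ (10 * k) := by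
              have := r3.trans hL10
              gcongr
        _ = (2 * (k * Ca) ^ k + Ca ^ k) * L ^ (10 * k) := by ring
        _ ≤ _ := r2
    · rw [ENNReal.ofReal_prod_of_nonneg fun j _ => abs_nonneg _]
      exact Finset.prod_le_prod' fun j _ => hX1 j x

end curve

end

end PBZ
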