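import Pool.Agent.PB.UProps
import Pool.Agent.PB.Conf
import Pool.Agent.PB.CovW
import Pool.Agent.PB.WardCf

/-!
# Plan B: U1, U3, U4 on the configuration space (helper79)

50's `UB` (functional `FS`, statistics `nu1`, `nuE`, weights `OW`) in the notation of `PB/Conf`
(`mN`, `wN`, `evN`) and `PB/WardFy` (`Vy`), with 77's `L1`, `M2`.

* `wF F ep e1 J m i`: the weight of the family on `CfN (F.top m)`;
* `lint_wF`: `∫ ‖w‖ ‖evN Ψ‖ ≤ FS φ` for `‖Ψ‖ ≤ φ`; `WI_wF`;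
* `enorm_Vy_le`: `Vy 0` is the sum of two statistics `nu1`;
* **`UB.l1`**, **`UB.m2`**: first and second moments of everything that is at most
  `w(O) ∏_j ‖Vy (g_j)‖`;
* `OWs`: square weights; `OWs.one`, `OWs.pow`, `OWs.pin`;
* `MBd`, **`UB.mbd`**: the interface of the Ward identities (13, 38); `UB.m4` four statistics.
-/

set_option autoImplicit false
set_option linter.unusedSectionVars false

noncomputable section

open Complex MeasureTheory Finset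
open scoped ENNReal

namespace PBU

open NUO NUP1 NUP1S NUP1S.Ab NUP1S.AbC NUGC PBF PBP PBFunc

variable [NUSea.Sea] {ι : Type} {F : Fam ι} {ep e1 J : ℝ} {m : ℕ} {i : ι}

/-- **the weight of a family on the configuration space** -/
abbrev wF (F : Fam ι) (ep e1 J : ℝ) (m : ℕ) (i : ι) : CfN (F.top m) → ℂ :=
  wN (fun _ => F.Z ep m i) (fun _ => NUSea.O.par0 m) (F.top m) (fun _ => cr e1 J m)
    (fun _ => cr' e1 J m) (fun _ => F.Pf m i)

/-- the sum of the moduli is the functional `FS` -/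
theorem FAN_wF (Ψ : ℕ → Ins) :
    FAN (fun _ => F.Z ep m i) (fun _ => NUSea.O.par0 m) (F.top m) (fun _ => cr e1 J m)
      (fun _ => cr' e1 J m) (fun _ => F.Pf m i) Ψ =
    ∑ n ∈ range (F.top m + 1), ‖F.Pf m i‖ₑ * FE (F.Z ep m i) (NUSea.O.par0 m) n n (cr e1 J m)
      (cr' e1 J m) fun r O a b x => ‖Ψ n r O a b x‖ₑ := by
  unfold FAN
  refine Finset.sum_congr rfl fun n _ => ?_
  rw [← FA_eq_FE]

/-- **the integral on the configuration space** -/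
theorem lint_wF (h : MC (F.Z ep m i) (NUSea.O.par0 m) (cr e1 J m) (cr' e1 J m)) {Ψ : ℕ → Ins}
    (hΨ : ∀ n ≤ F.top m, MIn (Ψ n)) {φ : InsE}
    (hφ : ∀ n ≤ F.top m, ∀ r O a b x, ‖Ψ n r O a b x‖ₑ ≤ φ r O a b x) :
    ∫⁻ x, ‖wF F ep e1 J m i x‖ₑ * ‖evN Ψ x‖ₑ ∂(mN (F.top m)) ≤
      FS F ep e1 J m i (fun _ => 1) φ := by
  rw [← FAN_eq (fun n _ => h) hΨ, FAN_wF]
  unfold FS
  refine Finset.sum_le_sum fun n hn => ?_
  rw [one_mul]
  exact mul_le_mul' le_rfl (FE_mono fun r O a b x =>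
    hφ n (by have := Finset.mem_range.1 hn; omega) r O a b x)

/-- integrability -/
theorem WI_wF (h : MC (F.Z ep m i) (NUSea.O.par0 m) (cr e1 J m) (cr' e1 J m)) {Ψ : ℕ → Ins}
    (hΨ : ∀ n ≤ F.top m, MIn (Ψ n)) {φ : InsE}
    (hφ : ∀ n ≤ F.top m, ∀ r O a b x, ‖Ψ n r O a b x‖ₑ ≤ φ r O a b x)
    (hf : FS F ep e1 J m i (fun _ => 1) φ < ⊤) :
    WI (mN (F.top m)) (wF F ep e1 J m i) (evN Ψ) := by
  refine WIN_of (fun n _ => h) hΨ ?_
  rw [FAN_eq (fun n _ => h) hΨ]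
  exact (lint_wF h hΨ hφ).trans_lt hf

/-! ### linear statistics -/

/-- **the linear statistic is the sum of the statistics of the two species** -/
theorem Vy_eq (ρ : ℂ → ℂ) (g : Bool → ℂ → ℂ) (r : ℕ) (O : Fin r → Xo) (a b : ℕ)
    (x : (Fin a → ℝ) × (Fin b → ℝ)) :
    Vy 0 (cr e1 J m) ρ g r O a b x = nu1 (fun t => ρ t) (etaC e1 J m m) true (g true) x +
      nu1 (fun t => ρ t) (etaC e1 J m m) false (g false) x := by
  unfold Vy PB.NX.nuL nu1
  rw [Fintype.sum_sum_type, Fintype.sum_bool]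
  simp only [if_true, if_false, Bool.false_eq_true]
  have e1 : ∀ k : Fin a ⊕ Fin b, zqy 0 (cr e1 J m) r O x k =
      hq (etaC e1 J m m) (Sum.elim x.1 x.2 k) := by
    intro k
    unfold zqy zy zc hq cr
    simp
  simp only [e1, Sum.elim_inl, Sum.elim_inr]
  show (∑ x_1, g true _ + ∑ x_1, g false _) - (_ + _) = _
  unfold PB.rS PB.eR
  ring

theorem enorm_Vy_le (ρ : ℂ → ℂ) (g : Bool → ℂ → ℂ) (r : ℕ) (O : Fin r → Xo) (a b : ℕ)
    (x : (Fin a → ℝ) × (Fin b → ℝ)) :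
    ‖Vy 0 (cr e1 J m) ρ g r O a b x‖ₑ ≤
      ‖nu1 (fun t => ρ t) (etaC e1 J m m) true (g true) x‖ₑ +
        ‖nu1 (fun t => ρ t) (etaC e1 J m m) false (g false) x‖ₑ := by
  rw [Vy_eq]
  exact enorm_add_le _ _

/-- the statistic of a test function of size `M`, against the normalised one -/
theorem enorm_Vy_nuE {M : ℝ} (hM : 0 < M) (ρ : ℂ → ℂ) (g : Bool → ℂ → ℂ) (r : ℕ)
    (O : Fin r → Xo) (a b : ℕ) (x : (Fin a → ℝ) × (Fin b → ℝ)) :
    ‖Vy 0 (cr e1 J m) ρ g r O a b x‖ₑ ≤ ENNReal.ofReal M *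
      nuE (fun t => ρ t) (etaC e1 J m m) (fun z => ((M : ℂ)⁻¹) * g true z)
        (fun z => ((M : ℂ)⁻¹) * g false z) x := by
  have hMc : ((M : ℝ) : ℂ) ≠ 0 := by exact_mod_cast hM.ne'
  have e : ∀ (s : Bool) (f : ℂ → ℂ), nu1 (fun t => ρ t) (etaC e1 J m m) s f x =
      (M : ℂ) * nu1 (fun t => ρ t) (etaC e1 J m m) s (fun z => ((M : ℂ)⁻¹) * f z) x := by
    intro s f
    rw [nu1_smul, ← mul_assoc, mul_inv_cancel₀ hMc, one_mul]
  have hn : ‖((M : ℝ) : ℂ)‖ₑ = ENNReal.ofReal M := by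
    rw [← ofReal_norm, Complex.norm_real, Real.norm_of_nonneg hM.le]
  refine (enorm_Vy_le ρ g r O a b x).trans ?_
  rw [e true, e false, enorm_mul, enorm_mul, hn, ← mul_add]
  refine mul_le_mul' le_rfl ?_
  unfold nuE
  rw [add_assoc]
  exact le_add_self

/-- the same for the statistic of `WardFF` -/
theorem Vst_eq (ρ : ℂ → ℂ) (g : Bool → ℂ → ℂ) (r : ℕ) (O : Fin r → Xo) (a b : ℕ)
    (x : (Fin a → ℝ) × (Fin b → ℝ)) :
    Vst (cr e1 J m) ρ g r O a b x = Vy 0 (cr e1 J m) ρ g r O a b x := by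
  unfold Vst Vy
  congr 1
  funext k
  unfold zq zqy zy
  simp

/-! ### products of statistics -/

theorem zero_BC (y₁ y₂ : ℝ) : BC y₁ y₂ 1 fun _ => 0 :=
  ⟨differentiableOn_const 0, fun _ _ => by simp⟩

/-- more factors make the product larger -/
theorem prod_nuE_le {q s : ℕ} (ρ : ℝ → ℂ) (η : ℝ → ℝ) (A A' : Fin q → ℂ → ℂ)
    (B B' : Fin s → ℂ → ℂ) {a b : ℕ} (x : (Fin a → ℝ) × (Fin b → ℝ)) :
    (∏ j, nuE ρ η (A j) (A' j) x) * (∏ j, nuE ρ η (B j) (B' j) x) =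
      ∏ j, nuE ρ η (Fin.append A B j) (Fin.append A' B' j) x := by
  rw [Fin.prod_univ_add]
  simp only [Fin.append_left, Fin.append_right]

theorem one_le_prod_nuE {q : ℕ} (ρ : ℝ → ℂ) (η : ℝ → ℝ) (A A' : Fin q → ℂ → ℂ) {a b : ℕ}
    (x : (Fin a → ℝ) × (Fin b → ℝ)) : 1 ≤ ∏ j, nuE ρ η (A j) (A' j) x :=
  Finset.one_le_prod' fun _ _ => one_le_nuE _ _ _ _ _

theorem BC_append {y₁ y₂ : ℝ} {q s : ℕ} {A : Fin q → ℂ → ℂ} {B : Fin s → ℂ → ℂ}
    (hA : ∀ j, BC y₁ y₂ 1 (A j)) (hB : ∀ j, BC y₁ y₂ 1 (B j)) (j : Fin (q + s)) :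
    BC y₁ y₂ 1 (Fin.append A B j) := by
  refine Fin.addCases (fun i => ?_) (fun i => ?_) j
  · rw [Fin.append_left]
    exact hA i
  · rw [Fin.append_right]
    exact hB i

/-- the test functions divided by their sizes -/
def nrm {q : ℕ} (M : Fin q → ℝ) (g : Fin q → Bool → ℂ → ℂ) (s : Bool) (j : Fin q) (z : ℂ) : ℂ :=
  ((M j : ℂ)⁻¹) * g j s z

theorem prod_Vy_le {q : ℕ} {M : Fin q → ℝ} (hM : ∀ j, 0 < M j) (ρ : ℂ → ℂ)
    (g : Fin q → Bool → ℂ → ℂ) (r : ℕ) (O : Fin r → Xo) (a b : ℕ)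
    (x : (Fin a → ℝ) × (Fin b → ℝ)) :
    ∏ j, ‖Vy 0 (cr e1 J m) ρ (g j) r O a b x‖ₑ ≤ ENNReal.ofReal (∏ j, M j) *
      ∏ j, nuE (fun t => ρ t) (etaC e1 J m m) (nrm M g true j) (nrm M g false j) x := by
  rw [ENNReal.ofReal_prod_of_nonneg fun j _ => (hM j).le, ← Finset.prod_mul_distrib]
  exact Finset.prod_le_prod' fun j _ => enorm_Vy_nuE (hM j) ρ (g j) r O a b x

variable {p : ℕ} {K ε : ℝ}

/-- **products of at most `p` statistics** -/
theorem UB.fs (h : UB F ep e1 J p K ε) (C0 y₁ y₂ : ℝ) (h1 : y₁ < 0) (h2 : 0 < y₂) :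
    ∃ m0 : ℕ, ∀ m ≥ m0, ∀ i : ι, F.ok m i → ∀ ρ : ℂ → ℂ, DN C0 m (fun t : ℝ => ρ t) →
    ∀ (q : ℕ), q ≤ p → ∀ M : Fin q → ℝ, (∀ j, 0 < M j) →
    ∀ g : (r : ℕ) → (Fin r → Xo) → Fin q → Bool → ℂ → ℂ,
      (∀ r O j s, BC y₁ y₂ (M j) (g r O j s)) →
    ∀ B : ℝ, 0 ≤ B → ∀ w : (r : ℕ) → (Fin r → Xo) → ℝ, OW e1 K B m w →
      FS F ep e1 J m i (fun _ => 1) (fun r O a b x => ENNReal.ofReal (w r O) *
          ∏ j, ‖Vy 0 (cr e1 J m) ρ (g r O j) r O a b x‖ₑ) ≤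
      ENNReal.ofReal (B * (∏ j, M j) * ((m : ℝ) ^ ε * F.bd m i)) := by
  obtain ⟨m0, h0⟩ := h C0 y₁ y₂ h1 h2
  refine ⟨m0, fun m hm i hi ρ hρ q hq M hM g hg B hB w hw => ?_⟩
  obtain ⟨s, rfl⟩ := Nat.exists_eq_add_of_le hq
  have hn : ∀ r O s' j, BC y₁ y₂ 1 (nrm M (g r O) s' j) := fun r O s' j =>
    (hg r O j s').normed (hM j)
  have key := h0 m hm i hi _ hρ B hB w hw
    (fun r O => Fin.append (nrm M (g r O) true) (fun (_ : Fin s) _ => 0))
    (fun r O => Fin.append (nrm M (g r O) false) (fun (_ : Fin s) _ => 0))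
    (fun r O j => ⟨BC_append (hn r O true) (fun _ => zero_BC _ _) j,
      BC_append (hn r O false) (fun _ => zero_BC _ _) j⟩)
  have hP : 0 ≤ ∏ j, M j := Finset.prod_nonneg fun j _ => (hM j).le
  refine (FS_mono (fun _ => le_rfl) fun r O a b x => ?_).trans
    ((FS_const_mul (c := ENNReal.ofReal (∏ j, M j)) ENNReal.ofReal_ne_top _).le.trans
      ((mul_le_mul' le_rfl key).trans ?_))
  · rw [← prod_nuE_le]
    calc _ ≤ ENNReal.ofReal (w r O) * (ENNReal.ofReal (∏ j, M j) *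
          ∏ j, nuE (fun t => ρ t) (etaC e1 J m m) (nrm M (g r O) true j)
            (nrm M (g r O) false j) x) := mul_le_mul' le_rfl (prod_Vy_le hM ρ (g r O) r O a b x)
      _ = ENNReal.ofReal (∏ j, M j) * (ENNReal.ofReal (w r O) *
          ((∏ j, nuE (fun t => ρ t) (etaC e1 J m m) (nrm M (g r O) true j)
            (nrm M (g r O) false j) x) * 1)) := by ring
      _ ≤ _ := mul_le_mul' le_rfl (mul_le_mul' le_rfl (mul_le_mul' le_rfl
          (one_le_prod_nuE _ _ _ _ x)))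
  · rw [← ENNReal.ofReal_mul hP]
    exact ENNReal.ofReal_le_ofReal (le_of_eq (by ring))

/-- **squares of products of at most `p / 2` statistics** -/
theorem UB.fs2 (h : UB F ep e1 J p K ε) (C0 y₁ y₂ : ℝ) (h1 : y₁ < 0) (h2 : 0 < y₂) :
    ∃ m0 : ℕ, ∀ m ≥ m0, ∀ i : ι, F.ok m i → ∀ ρ : ℂ → ℂ, DN C0 m (fun t : ℝ => ρ t) →
    ∀ (q : ℕ), 2 * q ≤ p → ∀ M : Fin q → ℝ, (∀ j, 0 < M j) →
    ∀ g : (r : ℕ) → (Fin r → Xo) → Fin q → Bool → ℂ → ℂ,
      (∀ r O j s, BC y₁ y₂ (M j) (g r O j s)) →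
    ∀ B : ℝ, 0 ≤ B → ∀ w : (r : ℕ) → (Fin r → Xo) → ℝ, OW e1 K (B ^ 2) m (fun r O => w r O ^ 2) →
      FS F ep e1 J m i (fun _ => 1) (fun r O a b x => ENNReal.ofReal (w r O ^ 2) *
          (∏ j, ‖Vy 0 (cr e1 J m) ρ (g r O j) r O a b x‖ₑ) ^ 2) ≤
      ENNReal.ofReal ((B * ∏ j, M j) ^ 2 * ((m : ℝ) ^ ε * F.bd m i)) := by
  obtain ⟨m0, h0⟩ := h C0 y₁ y₂ h1 h2
  refine ⟨m0, fun m hm i hi ρ hρ q hq M hM g hg B hB w hw => ?_⟩
  obtain ⟨s, rfl⟩ : ∃ s, p = q + (q + s) := ⟨p - 2 * q, by omega⟩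
  have hn : ∀ r O s' j, BC y₁ y₂ 1 (nrm M (g r O) s' j) := fun r O s' j =>
    (hg r O j s').normed (hM j)
  have key := h0 m hm i hi _ hρ (B ^ 2) (by positivity) _ hw
    (fun r O => Fin.append (nrm M (g r O) true)
      (Fin.append (nrm M (g r O) true) (fun (_ : Fin s) _ => 0)))
    (fun r O => Fin.append (nrm M (g r O) false)
      (Fin.append (nrm M (g r O) false) (fun (_ : Fin s) _ => 0)))
    (fun r O j => ⟨BC_append (hn r O true) (BC_append (hn r O true) fun _ => zero_BC _ _) j,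
      BC_append (hn r O false) (BC_append (hn r O false) fun _ => zero_BC _ _) j⟩)
  have hP : 0 ≤ ∏ j, M j := Finset.prod_nonneg fun j _ => (hM j).le
  refine (FS_mono (fun _ => le_rfl) fun r O a b x => ?_).trans
    ((FS_const_mul (c := ENNReal.ofReal ((∏ j, M j) ^ 2)) ENNReal.ofReal_ne_top _).le.trans
      ((mul_le_mul' le_rfl key).trans ?_))
  · rw [← prod_nuE_le, ← prod_nuE_le]
    obtain ⟨N, hN⟩ : ∃ N, N = ∏ j, nuE (fun t => ρ t) (etaC e1 J m m) (nrm M (g r O) true j)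
      (nrm M (g r O) false j) x := ⟨_, rfl⟩
    have h3 := prod_Vy_le (e1 := e1) (J := J) (m := m) hM ρ (g r O) r O a b x
    rw [← hN] at h3 ⊢
    calc _ ≤ ENNReal.ofReal (w r O ^ 2) * (ENNReal.ofReal (∏ j, M j) * N) ^ 2 :=
          mul_le_mul' le_rfl (pow_le_pow_left' h3 2)
      _ = ENNReal.ofReal ((∏ j, M j) ^ 2) * (ENNReal.ofReal (w r O ^ 2) * (N * (N * 1))) := by
          rw [ENNReal.ofReal_pow hP]
          ring
      _ ≤ _ := mul_le_mul' le_rfl (mul_le_mul' le_rfl (mul_le_mul' le_rfl (mul_le_mul' le_rfl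
          (one_le_prod_nuE _ _ _ _ x))))
  · rw [← ENNReal.ofReal_mul (by positivity)]
    exact ENNReal.ofReal_le_ofReal (le_of_eq (by ring))

/-- **first moments** of everything that is at most `w(O) ∏_j ‖Vy (g_j)‖` -/
theorem UB.l1 (h : UB F ep e1 J p K ε) (C0 y₁ y₂ : ℝ) (h1 : y₁ < 0) (h2 : 0 < y₂) :
    ∃ m0 : ℕ, ∀ m ≥ m0, ∀ i : ι, F.ok m i →
    MC (F.Z ep m i) (NUSea.O.par0 m) (cr e1 J m) (cr' e1 J m) →
    ∀ ρ : ℂ → ℂ, DN C0 m (fun t : ℝ => ρ t) →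
    ∀ (q : ℕ), q ≤ p → ∀ M : Fin q → ℝ, (∀ j, 0 < M j) →
    ∀ g : (r : ℕ) → (Fin r → Xo) → Fin q → Bool → ℂ → ℂ,
      (∀ r O j s, BC y₁ y₂ (M j) (g r O j s)) →
    ∀ B : ℝ, 0 ≤ B → ∀ w : (r : ℕ) → (Fin r → Xo) → ℝ, OW e1 K B m w →
    ∀ Ψ : ℕ → Ins, (∀ n ≤ F.top m, MIn (Ψ n)) → (∀ n ≤ F.top m, ∀ r O a b x,
      ‖Ψ n r O a b x‖ ≤ w r O * ∏ j, ‖Vy 0 (cr e1 J m) ρ (g r O j) r O a b x‖) →
      L1 (mN (F.top m)) (wF F ep e1 J m i) (evN Ψ)
        (B * (∏ j, M j) * ((m : ℝ) ^ ε * F.bd m i)) := by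
  obtain ⟨m0, h0⟩ := h.fs C0 y₁ y₂ h1 h2
  refine ⟨m0, fun m hm i hi hMC ρ hρ q hq M hM g hg B hB w hw Ψ hΨ hle => ?_⟩
  have key := h0 m hm i hi ρ hρ q hq M hM g hg B hB w hw
  refine le_trans (le_of_eq ?_) ((lint_wF hMC hΨ fun n hn r O a b x => ?_).trans key)
  · refine lintegral_congr fun x => ?_
    rw [ENNReal.ofReal_mul (norm_nonneg _), ofReal_norm, ofReal_norm]
  · rw [← ofReal_norm]
    refine (ENNReal.ofReal_le_ofReal (hle n hn r O a b x)).trans (le_of_eq ?_)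
    rw [ENNReal.ofReal_mul' (Finset.prod_nonneg fun j _ => norm_nonneg _),
      ENNReal.ofReal_prod_of_nonneg fun j _ => norm_nonneg _]
    simp only [ofReal_norm]

/-- **second moments** of everything that is at most `w(O) ∏_j ‖Vy (g_j)‖` -/
theorem UB.m2 (h : UB F ep e1 J p K ε) (C0 y₁ y₂ : ℝ) (h1 : y₁ < 0) (h2 : 0 < y₂) :
    ∃ m0 : ℕ, ∀ m ≥ m0, ∀ i : ι, F.ok m i →
    MC (F.Z ep m i) (NUSea.O.par0 m) (cr e1 J m) (cr' e1 J m) →
    ∀ ρ : ℂ → ℂ, DN C0 m (fun t : ℝ => ρ t) →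
    ∀ (q : ℕ), 2 * q ≤ p → ∀ M : Fin q → ℝ, (∀ j, 0 < M j) →
    ∀ g : (r : ℕ) → (Fin r → Xo) → Fin q → Bool → ℂ → ℂ,
      (∀ r O j s, BC y₁ y₂ (M j) (g r O j s)) →
    ∀ B : ℝ, 0 ≤ B → ∀ w : (r : ℕ) → (Fin r → Xo) → ℝ, OW e1 K (B ^ 2) m (fun r O => w r O ^ 2) →
    ∀ Ψ : ℕ → Ins, (∀ n ≤ F.top m, MIn (Ψ n)) → (∀ n ≤ F.top m, ∀ r O a b x,
      ‖Ψ n r O a b x‖ ≤ w r O * ∏ j, ‖Vy 0 (cr e1 J m) ρ (g r O j) r O a b x‖) →
      M2 (mN (F.top m)) (wF F ep e1 J m i) ((m : ℝ) ^ ε * F.bd m i) (evN Ψ)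
        (B * ∏ j, M j) := by
  obtain ⟨m0, h0⟩ := h.fs2 C0 y₁ y₂ h1 h2
  refine ⟨m0, fun m hm i hi hMC ρ hρ q hq M hM g hg B hB w hw Ψ hΨ hle => ?_⟩
  have key := h0 m hm i hi ρ hρ q hq M hM g hg B hB w hw
  have hΨ2 : ∀ n ≤ F.top m, MIn fun r O a b x => Ψ n r O a b x * Ψ n r O a b x := fun n hn =>
    (hΨ n hn).mul' (hΨ n hn)
  refine le_trans (le_of_eq ?_) ((lint_wF (Ψ := fun n r O a b x => Ψ n r O a b x * Ψ n r O a b x)
    hMC hΨ2 fun n hn r O a b x => ?_).trans key)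
  · refine lintegral_congr fun x => ?_
    rw [ENNReal.ofReal_mul (norm_nonneg _), ofReal_norm]
    congr 1
    show _ = ‖evN Ψ x * evN Ψ x‖ₑ
    rw [enorm_mul, ← ofReal_norm, ← ENNReal.ofReal_mul (norm_nonneg _), ← pow_two]
  · have h3 : ‖Ψ n r O a b x‖ₑ ^ 2 ≤ ENNReal.ofReal (w r O ^ 2) *
        (∏ j, ‖Vy 0 (cr e1 J m) ρ (g r O j) r O a b x‖ₑ) ^ 2 := by
      have h4 := hle n hn r O a b x
      have h5 : 0 ≤ ∏ j, ‖Vy 0 (cr e1 J m) ρ (g r O j) r O a b x‖ :=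
        Finset.prod_nonneg fun j _ => norm_nonneg _
      have h6 : ∏ j, ‖Vy 0 (cr e1 J m) ρ (g r O j) r O a b x‖ₑ =
          ENNReal.ofReal (∏ j, ‖Vy 0 (cr e1 J m) ρ (g r O j) r O a b x‖) := by
        rw [ENNReal.ofReal_prod_of_nonneg fun j _ => norm_nonneg _]
        simp only [ofReal_norm]
      rw [h6, ← ENNReal.ofReal_pow h5, ← ENNReal.ofReal_mul (by positivity), ← mul_pow,
        ← ofReal_norm, ← ENNReal.ofReal_pow (norm_nonneg _)]
      exact ENNReal.ofReal_le_ofReal (pow_le_pow_left₀ (norm_nonneg _) h4 2)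
    rw [enorm_mul, ← pow_two]
    exact h3


/-! ### equalities for one insertion -/

/-- **the sum of the moduli is the integral on the configuration space** -/
theorem lint_wF_eq (h : MC (F.Z ep m i) (NUSea.O.par0 m) (cr e1 J m) (cr' e1 J m)) {Ψ : Ins}
    (hΨ : MIn Ψ) :
    ∫⁻ x, ‖wF F ep e1 J m i x‖ₑ * ‖evN (fun _ => Ψ) x‖ₑ ∂(mN (F.top m)) =
      FS F ep e1 J m i (fun _ => 1) fun r O a b x => ‖Ψ r O a b x‖ₑ := by
  rw [← FAN_eq (fun n _ => h) fun _ _ => hΨ, FAN_wF]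
  unfold FS
  exact Finset.sum_congr rfl fun n _ => by rw [one_mul]

/-- **the complex functional is the integral on the configuration space** -/
theorem FL_wF (h : MC (F.Z ep m i) (NUSea.O.par0 m) (cr e1 J m) (cr' e1 J m)) {Ψ : Ins}
    (hΨ : MIn Ψ)
    (hf : FS F ep e1 J m i (fun _ => 1) (fun r O a b x => ‖Ψ r O a b x‖ₑ) < ⊤) :
    FL F ep e1 J m i Ψ =
      PBFunc.F (mN (F.top m)) (wF F ep e1 J m i) (evN fun _ => Ψ) := by
  rw [← FFN_eq (fun n _ => h) (fun _ _ => hΨ) ?_]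
  · rfl
  · rw [FAN_eq (fun n _ => h) fun _ _ => hΨ]
    exact (lint_wF_eq h hΨ).trans_lt hf

/-! ### square weights -/

/-- weights whose squares are admissible -/
abbrev OWs (e1 K B : ℝ) (m : ℕ) (w : (r : ℕ) → (Fin r → Xo) → ℝ) : Prop :=
  OW e1 K (B ^ 2) m fun r O => w r O ^ 2

theorem OWs.one {K : ℝ} (hK : 1 ≤ K) (m : ℕ) : OWs e1 K 1 m fun _ _ => 1 := fun r O => by
  have h := OW.one (e1 := e1) hK m r O
  simpa using h

/-- a smaller weight, larger constants -/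
theorem OWs.mono {K K' B B' : ℝ} {w w' : (r : ℕ) → (Fin r → Xo) → ℝ} (h : OWs e1 K B m w)
    (hw : ∀ r O, |w' r O| ≤ w r O) (hK : 0 ≤ K) (hKK : K ≤ K') (hB : 0 ≤ B) (hBB : B ≤ B') :
    OWs e1 K' B' m w' := fun r O => by
  have h1 := OW.mono h hK hKK (by positivity) (pow_le_pow_left₀ hB hBB 2) r O
  refine le_trans ?_ h1
  show w' r O ^ 2 ≤ w r O ^ 2
  rw [← sq_abs (w' r O)]
  exact pow_le_pow_left₀ (abs_nonneg _) (hw r O) 2

theorem OWs.smul {K B : ℝ} (c : ℝ) {w : (r : ℕ) → (Fin r → Xo) → ℝ} (h : OWs e1 K B m w) :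
    OWs e1 K (c * B) m fun r O => c * w r O := fun r O => by
  have h1 := OW.smul (c := c ^ 2) (by positivity) h r O
  refine le_trans (le_of_eq ?_) (h1.trans (le_of_eq ?_))
  · ring
  · ring

theorem OWs.add {K B B' : ℝ} {w w' : (r : ℕ) → (Fin r → Xo) → ℝ} (hK : 0 ≤ K) (hB : 0 ≤ B)
    (hB' : 0 ≤ B') (h : OWs e1 K B m w) (h' : OWs e1 K B' m w') :
    OWs e1 K (2 * (B + B')) m fun r O => w r O + w' r O := fun r O => by
  have h1 := h r O
  have h2 := h' r O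
  have h3 : 0 ≤ K ^ r * ∏ j, Real.exp (gT e1 (Real.log m) (ht (O j))) := by positivity
  have h4 : (w r O + w' r O) ^ 2 ≤ 2 * (w r O ^ 2 + w' r O ^ 2) := by
    nlinarith [pow_two_nonneg (w r O - w' r O)]
  have h5 : 2 * (B ^ 2 + B' ^ 2) ≤ (2 * (B + B')) ^ 2 := by
    nlinarith [mul_nonneg hB hB', pow_two_nonneg B, pow_two_nonneg B']
  calc (w r O + w' r O) ^ 2 ≤ 2 * (w r O ^ 2 + w' r O ^ 2) := h4
    _ ≤ 2 * (B ^ 2 + B' ^ 2) * (K ^ r * ∏ j, Real.exp (gT e1 (Real.log m) (ht (O j)))) := by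
        simp only at h1 h2
        linarith
    _ ≤ (2 * (B + B')) ^ 2 * (K ^ r * ∏ j, Real.exp (gT e1 (Real.log m) (ht (O j)))) :=
        mul_le_mul_of_nonneg_right h5 h3
    _ = _ := by ring

/-- a power of the number of objects, exact constant -/
theorem OWs.pow_sqrt (a m : ℕ) : OWs e1 3 (Real.sqrt (3 * (2 * a).factorial)) m
    fun r _ => ((r : ℝ) + 1) ^ a := fun r O => by
  have h := OW.pow (e1 := e1) (2 * a) m r O
  show (((r : ℝ) + 1) ^ a) ^ 2 ≤ _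
  rw [Real.sq_sqrt (by positivity), ← pow_mul, mul_comm a 2]
  exact h

theorem one_le_fac (a : ℕ) : (1 : ℝ) ≤ 3 * a.factorial := by
  have : (1 : ℝ) ≤ a.factorial := by exact_mod_cast Nat.one_le_iff_ne_zero.2 (Nat.factorial_ne_zero a)
  linarith

/-- a power of the number of objects -/
theorem OWs.pow (a m : ℕ) : OWs e1 3 (3 * (2 * a).factorial) m
    fun r _ => ((r : ℝ) + 1) ^ a := by
  refine OWs.mono (OWs.pow_sqrt a m) (fun r O => le_of_eq (abs_of_nonneg (by positivity)))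
    (by norm_num) le_rfl (Real.sqrt_nonneg _) ?_
  rw [Real.sqrt_le_left (by positivity)]
  nlinarith [one_le_fac (2 * a)]

/-- **the square of a pinned object** -/
theorem OW.pinSq {q : ℝ} (hq0 : 0 ≤ q) (hq : q ≤ 4 / 3) (a m : ℕ) :
    OW e1 6 (3 * (a + 1).factorial * pinB q e1 (Real.log m) ^ 2) m
      fun r O => ((r : ℝ) + 1) ^ a * (∑ j, Real.exp (-(q * |ht (O j)|))) ^ 2 := fun r O => by
  have h1 := OW.pin (e1 := e1) (q := 2 * q) (by linarith) (by linarith) (a + 1) m r O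
  have h2 : (∑ j, Real.exp (-(q * |ht (O j)|))) ^ 2 ≤
      ((r : ℝ) + 1) * ∑ j, Real.exp (-(2 * q * |ht (O j)|)) := by
    have h3 := sq_sum_le_card_mul_sum_sq (s := (Finset.univ : Finset (Fin r)))
      (f := fun j => Real.exp (-(q * |ht (O j)|)))
    rw [Finset.card_univ, Fintype.card_fin] at h3
    have h4 : ∀ j, Real.exp (-(q * |ht (O j)|)) ^ 2 = Real.exp (-(2 * q * |ht (O j)|)) := by
      intro j
      rw [← Real.exp_nat_mul]
      congr 1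
      push_cast
      ring
    simp only [h4] at h3
    refine h3.trans (mul_le_mul_of_nonneg_right (by linarith) ?_)
    exact Finset.sum_nonneg fun j _ => (Real.exp_pos _).le
  have h5 : pinB (2 * q) e1 (Real.log m) = pinB q e1 (Real.log m) ^ 2 := by
    rw [two_mul, pinB_add, pow_two]
  rw [h5] at h1
  refine le_trans ?_ h1
  calc ((r : ℝ) + 1) ^ a * (∑ j, Real.exp (-(q * |ht (O j)|))) ^ 2
      ≤ ((r : ℝ) + 1) ^ a * (((r : ℝ) + 1) * ∑ j, Real.exp (-(2 * q * |ht (O j)|))) :=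
        mul_le_mul_of_nonneg_left h2 (by positivity)
    _ = _ := by ring

/-- **a pinned object**, second moments -/
theorem OWs.pin {q : ℝ} (hq0 : 0 ≤ q) (hq : q ≤ 4 / 3) (a m : ℕ) :
    OWs e1 6 (3 * (2 * a + 1).factorial * pinB q e1 (Real.log m)) m
      fun r O => ((r : ℝ) + 1) ^ a * ∑ j, Real.exp (-(q * |ht (O j)|)) := fun r O => by
  have h1 := OW.pinSq (e1 := e1) hq0 hq (2 * a) m r O
  have h2 := one_le_fac (2 * a + 1)
  have h3 : 0 ≤ (6 : ℝ) ^ r * ∏ j, Real.exp (gT e1 (Real.log m) (ht (O j))) := by positivity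
  have h4 : 3 * (2 * a + 1).factorial * pinB q e1 (Real.log m) ^ 2 ≤
      (3 * (2 * a + 1).factorial * pinB q e1 (Real.log m)) ^ 2 := by
    rw [mul_pow]
    refine mul_le_mul_of_nonneg_right ?_ (by positivity)
    nlinarith
  calc (((r : ℝ) + 1) ^ a * ∑ j, Real.exp (-(q * |ht (O j)|))) ^ 2
      = ((r : ℝ) + 1) ^ (2 * a) * (∑ j, Real.exp (-(q * |ht (O j)|))) ^ 2 := by
        rw [mul_pow, ← pow_mul, mul_comm a 2]
    _ ≤ 3 * (2 * a + 1).factorial * pinB q e1 (Real.log m) ^ 2 *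
          (6 ^ r * ∏ j, Real.exp (gT e1 (Real.log m) (ht (O j)))) := by
        refine h1.trans (le_of_eq ?_)
        ring
    _ ≤ (3 * (2 * a + 1).factorial * pinB q e1 (Real.log m)) ^ 2 *
          (6 ^ r * ∏ j, Real.exp (gT e1 (Real.log m) (ht (O j)))) :=
        mul_le_mul_of_nonneg_right h4 h3
    _ = _ := by ring

/-- **a pinned object with a shifted centre**, second moments -/
theorem OWs.pinSh {q : ℝ} (hq0 : 0 ≤ q) (hq : q ≤ 4 / 3) (a m : ℕ) (s : ℝ) :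
    OWs e1 6 (Real.exp (q * |s|) * (3 * (2 * a + 1).factorial * pinB q e1 (Real.log m))) m
      fun r O => ((r : ℝ) + 1) ^ a * ∑ j, Real.exp (-(q * |ht (O j) - s|)) := by
  refine OWs.mono ((OWs.pin (e1 := e1) hq0 hq a m).smul (Real.exp (q * |s|))) (fun r O => ?_)
    (by norm_num) le_rfl ?_ le_rfl
  · rw [abs_of_nonneg (by positivity)]
    have h2 : ∑ j, Real.exp (-(q * |ht (O j) - s|)) ≤
        Real.exp (q * |s|) * ∑ j, Real.exp (-(q * |ht (O j)|)) := by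
      rw [Finset.mul_sum]
      refine Finset.sum_le_sum fun j _ => ?_
      rw [← Real.exp_add, Real.exp_le_exp]
      have h3 : |ht (O j)| ≤ |ht (O j) - s| + |s| := by
        calc |ht (O j)| = |(ht (O j) - s) + s| := by ring_nf
          _ ≤ _ := abs_add_le _ _
      have := mul_le_mul_of_nonneg_left h3 hq0
      linarith
    calc ((r : ℝ) + 1) ^ a * ∑ j, Real.exp (-(q * |ht (O j) - s|))
        ≤ ((r : ℝ) + 1) ^ a * (Real.exp (q * |s|) * ∑ j, Real.exp (-(q * |ht (O j)|))) :=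
          mul_le_mul_of_nonneg_left h2 (by positivity)
      _ = _ := by ring
  · have := pinB_pos q e1 (Real.log m)
    positivity

/-! ### the interface of the Ward identities -/

theorem M2.rescale {Ω : Type*} [MeasurableSpace Ω] {μ : Measure Ω} {w A : Ω → ℂ} {K a b : ℝ}
    (h : M2 μ w K A (b * a)) : M2 μ w (b ^ 2 * K) A a := by
  unfold M2 at h ⊢
  refine h.trans (le_of_eq ?_)
  congr 1
  ring

/-- sizes `0 ≤ M` from sizes `0 < M` -/
theorem M2.of_pos {Ω : Type*} [MeasurableSpace Ω] {μ : Measure Ω} {w A : Ω → ℂ} {K M : ℝ}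
    (h : ∀ M' > M, M2 μ w K A M') : M2 μ w K A M := by
  unfold M2 at h ⊢
  have h1 : Filter.Tendsto (fun x : ℝ => ENNReal.ofReal (x ^ 2 * K)) (nhdsWithin M (Set.Ioi M))
      (nhds (ENNReal.ofReal (M ^ 2 * K))) := by
    refine ENNReal.tendsto_ofReal (Filter.Tendsto.mono_left ?_ nhdsWithin_le_nhds)
    exact (Continuous.tendsto (by fun_prop) M)
  exact ge_of_tendsto h1 (Filter.eventually_of_mem self_mem_nhdsWithin fun x hx => h x hx)

theorem L1.of_pos {Ω : Type*} [MeasurableSpace Ω] {μ : Measure Ω} {w A : Ω → ℂ} {M d : ℝ}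
    (h : ∀ M' > M, L1 μ w A (M' * d)) : L1 μ w A (M * d) := by
  unfold L1 at h ⊢
  have h1 : Filter.Tendsto (fun x : ℝ => ENNReal.ofReal (x * d)) (nhdsWithin M (Set.Ioi M))
      (nhds (ENNReal.ofReal (M * d))) := by
    refine ENNReal.tendsto_ofReal (Filter.Tendsto.mono_left ?_ nhdsWithin_le_nhds)
    exact (Continuous.tendsto (by fun_prop) M)
  exact ge_of_tendsto h1 (Filter.eventually_of_mem self_mem_nhdsWithin fun x hx => h x hx)

/-- the sum of the weights of the pins -/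
def pinI (q : ℝ) : Ins := fun r O _ _ _ => ((∑ j : Fin r, Real.exp (-(q * |ht (O j)|)) : ℝ) : ℂ)

/-- the number of objects plus one -/
def cnI : Ins := fun r _ _ _ _ => (r : ℂ) + 1

theorem MIn.pinI (q : ℝ) : MIn (pinI q) := fun r a b => by
  unfold PBU.pinI
  have h : Measurable fun p : (Fin r → Xo) × ((Fin a → ℝ) × (Fin b → ℝ)) =>
      ∑ j : Fin r, Real.exp (-(q * |ht (p.1 j)|)) := by
    refine Finset.measurable_sum _ fun j _ => ?_
    have h1 : Measurable fun p : (Fin r → Xo) × ((Fin a → ℝ) × (Fin b → ℝ)) => ht (p.1 j) := by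
      exact measurable_fst.comp (measurable_snd.comp
        ((measurable_pi_apply (X := fun _ : Fin r => Xo) j).comp measurable_fst))
    exact (h1.abs.const_mul q).neg.exp
  exact Complex.measurable_ofReal.comp h

theorem MIn.cnI : MIn cnI := fun _ _ _ => measurable_const

/-- **moment bounds on the configuration space**: one statistic and the number of objects in `L²`
(constant `K`), pinned objects in `L¹` (constant `dp`); the test functions may depend on the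
objects -/
structure MBd (N : ℕ) (Z : ℕ → Bool → Option O3 → ℂ → ℂ) (P : ℕ → NUO.Par) (η η' : ℕ → Crs)
    (c : ℕ → ℂ) (ρ : ℂ → ℂ) (y₁ y₂ K q dp : ℝ) : Prop where
  one : M2 (mN N) (wN Z P N η η' c) K (evN fun _ => cnI) 1
  vy : ∀ (M : ℝ) (g : (r : ℕ) → (Fin r → Xo) → Bool → ℂ → ℂ), 0 ≤ M →
    (∀ r O s, BC y₁ y₂ M (g r O s)) →
    (∀ n ≤ N, MIn fun r O a b x => Vy 0 (η n) ρ (g r O) r O a b x) →
    M2 (mN N) (wN Z P N η η' c) K
      (evN fun n r O a b x => ((r : ℂ) + 1) * Vy 0 (η n) ρ (g r O) r O a b x) M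
  pin : L1 (mN N) (wN Z P N η η' c)
    (evN fun _ r O a b x => ((r : ℂ) + 1) * pinI q r O a b x) dp
  pinv : ∀ (M : ℝ) (g : (r : ℕ) → (Fin r → Xo) → Bool → ℂ → ℂ), 0 ≤ M →
    (∀ r O s, BC y₁ y₂ M (g r O s)) →
    (∀ n ≤ N, MIn fun r O a b x => Vy 0 (η n) ρ (g r O) r O a b x) →
    L1 (mN N) (wN Z P N η η' c)
      (evN fun n r O a b x =>
        (((r : ℂ) + 1) * pinI q r O a b x) * Vy 0 (η n) ρ (g r O) r O a b x) (M * dp)

theorem norm_cn (r : ℕ) : ‖(r : ℂ) + 1‖ = (r : ℝ) + 1 := by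
  have : (r : ℂ) + 1 = (((r : ℝ) + 1 : ℝ) : ℂ) := by push_cast; ring
  rw [this, Complex.norm_real, Real.norm_of_nonneg (by positivity)]

theorem norm_pinI (q : ℝ) (r : ℕ) (O : Fin r → Xo) (a b : ℕ) (x : (Fin a → ℝ) × (Fin b → ℝ)) :
    ‖pinI q r O a b x‖ = ∑ j : Fin r, Real.exp (-(q * |ht (O j)|)) := by
  unfold pinI
  rw [Complex.norm_real, Real.norm_of_nonneg (Finset.sum_nonneg fun j _ => (Real.exp_pos _).le)]

/-- **UB gives the interface** -/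
theorem UB.mbd (h : UB F ep e1 J p K ε) (hp : 2 ≤ p) (hK : 6 ≤ K) {q : ℝ} (hq0 : 0 ≤ q)
    (hq : q ≤ 8 / 3) (C0 y₁ y₂ : ℝ) (h1 : y₁ < 0) (h2 : 0 < y₂) :
    ∃ m0 : ℕ, ∀ m ≥ m0, ∀ i : ι, F.ok m i →
    MC (F.Z ep m i) (NUSea.O.par0 m) (cr e1 J m) (cr' e1 J m) →
    ∀ ρ : ℂ → ℂ, DN C0 m (fun t : ℝ => ρ t) →
      MBd (F.top m) (fun _ => F.Z ep m i) (fun _ => NUSea.O.par0 m) (fun _ => cr e1 J m)
        (fun _ => cr' e1 J m) (fun _ => F.Pf m i) ρ y₁ y₂ (6 * ((m : ℝ) ^ ε * F.bd m i)) q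
        (3 * (m : ℝ) ^ (-(3 / 8 * q * (1 - 4 * e1))) * ((m : ℝ) ^ ε * F.bd m i)) := by
  obtain ⟨m1, hl1⟩ := h.l1 C0 y₁ y₂ h1 h2
  obtain ⟨m2, hm2⟩ := h.m2 C0 y₁ y₂ h1 h2
  refine ⟨max (max m1 m2) 1, fun m hm i hi hMC ρ hρ => ?_⟩
  have hm1 : m1 ≤ m := by omega
  have hm2' : m2 ≤ m := by omega
  have hm0 : (0 : ℝ) < m := by
    have : 0 < m := by omega
    exact_mod_cast this
  have hs : Real.sqrt 6 ^ 2 = 6 := Real.sq_sqrt (by norm_num)
  have hw : OWs e1 K (Real.sqrt 6) m fun r _ => (r : ℝ) + 1 := by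
    have := OWs.pow_sqrt (e1 := e1) 1 m
    have h6 : (3 * (2 * 1).factorial : ℝ) = 6 := by norm_num [Nat.factorial]
    rw [h6] at this
    refine OWs.mono this (fun r O => ?_) (by norm_num) (by linarith) (Real.sqrt_nonneg _) le_rfl
    rw [pow_one, abs_of_nonneg (by positivity)]
  have hw2 : OW e1 K (3 * (m : ℝ) ^ (-(3 / 8 * q * (1 - 4 * e1)))) m
      fun r O => ((r : ℝ) + 1) * ∑ j, Real.exp (-(q * |ht (O j)|)) := by
    have h3 := OW.pin (e1 := e1) hq0 hq 1 m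
    rw [pinB_rpow q e1 hm0] at h3
    have h4 : (3 * (Nat.factorial 1 : ℝ) * (m : ℝ) ^ (-(3 / 8 * q * (1 - 4 * e1)))) =
        3 * (m : ℝ) ^ (-(3 / 8 * q * (1 - 4 * e1))) := by norm_num
    rw [h4] at h3
    have h5 := h3.mono (K' := K) (by norm_num) hK (by positivity) le_rfl
    intro r O
    have h6 := h5 r O
    simpa using h6
  have e0 : ∀ {f : Fin 0 → ℝ}, ∏ j, f j = 1 := fun {f} => by simp
  constructor
  · have h3 := hm2 m hm2' i hi hMC ρ hρ 0 (by omega) (fun _ => 1) (fun _ => one_pos)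
      (fun _ _ j => j.elim0) (fun _ _ j => j.elim0) (Real.sqrt 6) (Real.sqrt_nonneg _)
      (fun r _ => (r : ℝ) + 1) hw (fun _ => cnI) (fun _ _ => MIn.cnI) (fun n _ r O a b x => by
        show ‖(r : ℂ) + 1‖ ≤ _
        rw [norm_cn]
        simp)
    rw [e0] at h3
    have h4 := M2.rescale h3
    rwa [hs] at h4
  · intro M g hM hg hmeas
    refine M2.of_pos fun M' hM' => ?_
    have hM0 : 0 < M' := hM.trans_lt hM'
    have h3 := hm2 m hm2' i hi hMC ρ hρ 1 (by omega) (fun _ => M') (fun _ => hM0)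
      (fun r O _ s => g r O s) (fun r O _ s => (hg r O s).mono hM'.le) (Real.sqrt 6)
      (Real.sqrt_nonneg _) (fun r _ => (r : ℝ) + 1) hw
      (fun n r O a b x => ((r : ℂ) + 1) * Vy 0 (cr e1 J m) ρ (g r O) r O a b x)
      (fun n hn => MIn.mul' MIn.cnI (hmeas n hn)) (fun n _ r O a b x => by
        rw [norm_mul, norm_cn]
        simp)
    have h4 := M2.rescale (by simpa using h3)
    rwa [hs] at h4
  · have h3 := hl1 m hm1 i hi hMC ρ hρ 0 (by omega) (fun _ => 1) (fun _ => one_pos)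
      (fun _ _ j => j.elim0) (fun _ _ j => j.elim0) _ (by positivity) _ hw2
      (fun _ r O a b x => ((r : ℂ) + 1) * pinI q r O a b x)
      (fun _ _ => MIn.mul' MIn.cnI (MIn.pinI q)) (fun n _ r O a b x => by
        rw [norm_mul, norm_cn, norm_pinI]
        simp)
    rw [e0, mul_one] at h3
    exact h3
  · intro M g hM hg hmeas
    refine L1.of_pos fun M' hM' => ?_
    have hM0 : 0 < M' := hM.trans_lt hM'
    have h3 := hl1 m hm1 i hi hMC ρ hρ 1 (by omega) (fun _ => M') (fun _ => hM0)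
      (fun r O _ s => g r O s) (fun r O _ s => (hg r O s).mono hM'.le) _ (by positivity) _ hw2
      (fun n r O a b x =>
        (((r : ℂ) + 1) * pinI q r O a b x) * Vy 0 (cr e1 J m) ρ (g r O) r O a b x)
      (fun n hn => MIn.mul' (MIn.mul' MIn.cnI (MIn.pinI q)) (hmeas n hn)) (fun n _ r O a b x => by
        rw [norm_mul, norm_mul, norm_cn, norm_pinI]
        simp)
    refine h3.mono (le_of_eq ?_)
    simp only [Finset.univ_unique, Finset.prod_singleton]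
    ring

end PBU

end
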