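import Pool.Agent.PB.UXT
import Pool.Agent.PB.StatU
import Pool.Agent.PB.UBN
import Pool.Agent.NUM3.Certs4

/-!
# Plan B: U1, U3, U4 without hypotheses (helper79)

* `statU_all : StatU` (93's `PBZ.statU`);
* **`uxL : UX famL`**, `uxS`, **`uxT : UX famT`** (the stability certificate is
  `Pool.Agent.NUM3.stabProd`);
* `mcr_cr`, `mc_famL`, `mc_famS`, `mc_famT`: the measurability hypothesis of `UB.l1`, `UB.m2`,
  `UB.mbd`.
-/

set_option autoImplicit false
set_option linter.unusedSectionVars false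

noncomputable section

open Complex MeasureTheory Finset
open scoped ENNReal

namespace PBU

open NUO NUP1 NUP1S NUP1S.Ab NUP1S.AbC NUGC PBF PBP

section meas

variable [NUSea.Sea]

/-- the fixed curve is measurable -/
theorem mcr_cr (e1 J : ℝ) (m : ℕ) : MCr (cr e1 J m) (cr' e1 J m) where
  m r := PBF.curZ_meas e1 J m m r
  m' r := PBF.curZ_meas' e1 J m m r

end meas

attribute [local instance] NUSea.seaP

/-- **products of linear statistics are admissible** -/
theorem statU_all : StatU := fun _ he he1 _ hJ C0 y₁ y₂ h1 h2 k _ _ hCg hε =>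
  PBZ.statU he he1 hJ C0 y₁ y₂ h1 h2 k hCg hε

/-- **U1, U3, U4 of the dislocated function** -/
theorem uxL : UX famL := ux_famL Pool.Agent.NUM3.stabProd statU_all

/-- **U1, U3, U4 of the dislocated function, `s` rows missing** -/
theorem uxS {s : ℕ} (hs : s ≤ 1) : UX (famS s) := ux_famS Pool.Agent.NUM3.stabProd statU_all hs

/-- **U1, U3, U4 of the left end of (TR)** -/
theorem uxT : UX famT := uxS le_rfl

theorem mc_famS (s : ℕ) (ep e1 J : ℝ) (m : ℕ) (i : ℂ × ℂ) :
    MC ((famS s).Z ep m i) (NUSea.O.par0 m) (cr e1 J m) (cr' e1 J m) :=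
  MC.of (PBX.ParC_par0 m).rm (fun a k => PBX.measurable_ZL _ _ _ _ _ a k) (mcr_cr e1 J m)

theorem mc_famL (ep e1 J : ℝ) (m : ℕ) (i : ℂ × ℂ) :
    MC (famL.Z ep m i) (NUSea.O.par0 m) (cr e1 J m) (cr' e1 J m) := mc_famS 0 ep e1 J m i

theorem mc_famT (ep e1 J : ℝ) (m : ℕ) (i : ℂ × ℂ) :
    MC (famT.Z ep m i) (NUSea.O.par0 m) (cr e1 J m) (cr' e1 J m) := mc_famS 1 ep e1 J m i

end PBU

end
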