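import Pool.Agent.PB.Mom4F
import Pool.Agent.PB.UXfin

/-!
# Plan B: four statistics and the interface `MBd` at the dislocated function (helper79)

One choice of the small parameters for all bounds:
* **`mom4L`**: 77's `Mom4` for `famL`;
* **`mbdL`**: `MBd` for `famL`;
both for every strip `y₁ < 0 < y₂` (chosen after `ep`, `e1`, `J`), every density close to `m P`.
-/

set_option autoImplicit false
set_option linter.unusedSectionVars false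

noncomputable section

open Complex MeasureTheory Finset
open scoped ENNReal

namespace PBU

open NUO NUP1 NUP1S NUP1S.Ab NUP1S.AbC NUGC PBF PBP PBFunc
open PBQM (Mom4 BB VN)

attribute [local instance] NUSea.seaP

/-- **products of four statistics of the dislocated function** -/
theorem mom4L {ε : ℝ} (hε : 0 < ε) : ∃ a0 : ℝ, 0 < a0 ∧ ∀ ep e1 J : ℝ, 0 < ep → 0 < e1 →
    e1 ≤ 1 / 100 → 0 ≤ J → Real.exp (-(2 * Real.pi * J)) + 3 * e1 + 3 * ep ≤ a0 →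
    ∀ C0 y₁ y₂ : ℝ, y₁ < 0 → 0 < y₂ → ∃ m0 : ℕ, ∀ m ≥ m0, ∀ i : ℂ × ℂ, famL.ok m i →
    ∀ ρ : ℂ → ℂ, (Measurable fun u : ℝ => ρ u) → DN C0 m (fun t : ℝ => ρ t) →
      Mom4 (mN (famL.top m)) (wF famL ep e1 J m i) (VN (famL.top m) (fun _ => cr e1 J m) ρ) y₁ y₂
        ((m : ℝ) ^ ε * famL.bd m i) := by
  obtain ⟨a0, ha0, h0⟩ := uxL 4 1 ε hε
  refine ⟨a0, ha0, fun ep e1 J hep he he1 hJ hs C0 y₁ y₂ h1 h2 => ?_⟩
  obtain ⟨m0, h3⟩ := (h0 ep e1 J hep he hJ hs).mom4 le_rfl le_rfl he he1 hJ C0 y₁ y₂ h1 h2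
  exact ⟨m0, fun m hm i hi ρ hρm hρ => h3 m hm i hi (mc_famL ep e1 J m i) ρ hρm hρ⟩

/-- **the interface `MBd` of the dislocated function** -/
theorem mbdL {ε : ℝ} (hε : 0 < ε) : ∃ a0 : ℝ, 0 < a0 ∧ ∀ ep e1 J : ℝ, 0 < ep → 0 < e1 →
    0 ≤ J → Real.exp (-(2 * Real.pi * J)) + 3 * e1 + 3 * ep ≤ a0 →
    ∀ q : ℝ, 0 ≤ q → q ≤ 8 / 3 →
    ∀ C0 y₁ y₂ : ℝ, y₁ < 0 → 0 < y₂ → ∃ m0 : ℕ, ∀ m ≥ m0, ∀ i : ℂ × ℂ, famL.ok m i →
    ∀ ρ : ℂ → ℂ, DN C0 m (fun t : ℝ => ρ t) →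
      MBd (famL.top m) (fun _ => famL.Z ep m i) (fun _ => NUSea.O.par0 m) (fun _ => cr e1 J m)
        (fun _ => cr' e1 J m) (fun _ => famL.Pf m i) ρ y₁ y₂ (6 * ((m : ℝ) ^ ε * famL.bd m i)) q
        (3 * (m : ℝ) ^ (-(3 / 8 * q * (1 - 4 * e1))) * ((m : ℝ) ^ ε * famL.bd m i)) := by
  obtain ⟨a0, ha0, h0⟩ := uxL 2 6 ε hε
  refine ⟨a0, ha0, fun ep e1 J hep he hJ hs q hq0 hq C0 y₁ y₂ h1 h2 => ?_⟩
  obtain ⟨m0, h3⟩ := (h0 ep e1 J hep he hJ hs).mbd le_rfl le_rfl hq0 hq C0 y₁ y₂ h1 h2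
  exact ⟨m0, fun m hm i hi ρ hρ => h3 m hm i hi (mc_famL ep e1 J m i) ρ hρ⟩

end PBU

end
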