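import Pool.Agent.PB.UXof
import Pool.Agent.PB.TopG
import Pool.Agent.PotH.CutI

/-!
# Plan B: U1, U3, U4 for the dislocated function (helper79)

* `topF_L`: `TopF` for the family `famL` (67's `topG`);
* `envF_L`: curve, cutoff, potential, one body data of `famL`;
* **`ux_famL`**: `StatU → UX famL`.
-/

set_option autoImplicit false
set_option linter.unusedSectionVars false

noncomputable section

open Complex MeasureTheory Finset
open scoped ENNReal

namespace PBU

open NUO NUP1 NUP1S NUP1S.Ab NUP1S.AbC NUGC PBF PBP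
open PBT (obL linL etL etL' crvL topG)
open PBL (mu1)
open PotH (EnvH DomH CrvP CutR crH)

attribute [local instance] NUSea.seaP

/-- one body data of `famL` -/
def BL (ep : ℝ) (m : ℕ) (i : ℂ × ℂ) : OB := obL (m - 1) (4 / 3 * (1 - ep)) i.1 i.2

/-- exponent of `famL` -/
def linF (e1 J : ℝ) (m : ℕ) (i : ℂ × ℂ) : ℝ := linL e1 J m i.1 i.2

theorem norm_ccL (m : ℕ) : ‖Leg.cc m‖ = 2 * Real.cos NUP1.l := by
  have hl := NUP1.l_pos
  have h0 : Real.sin NUP1.l ≠ 0 := (Real.sin_pos_of_pos_of_lt_pi hl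
    (by unfold NUP1.l; linarith [Real.pi_pos])).ne'
  have h1 : 0 < Real.cos NUP1.l := Real.cos_pos_of_mem_Ioo ⟨by linarith [Real.pi_pos], by
    unfold NUP1.l; linarith [Real.pi_pos]⟩
  unfold Leg.cc
  rw [norm_mul, norm_pow, norm_neg, norm_one, one_pow, one_mul,
    show Complex.sin (2 * (NUP1.l : ℂ)) / Complex.sin (NUP1.l : ℂ) =
        ((2 * Real.cos NUP1.l : ℝ) : ℂ) by
      rw [Complex.sin_two_mul]
      have : Complex.sin (NUP1.l : ℂ) ≠ 0 := by
        rw [← Complex.ofReal_sin]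
        exact_mod_cast h0
      push_cast
      field_simp, Complex.norm_real, Real.norm_eq_abs, abs_of_pos (by linarith)]

/-- **`TopF` for the dislocated function** -/
theorem topF_L (hS : NUStabP.StabProd) : TopF famL BL linF := by
  intro K K2
  obtain ⟨c1, hc1, H⟩ := topG hS K K2
  refine ⟨c1, hc1, fun c' hc' δ hδ => ?_⟩
  obtain ⟨a0, ha0, H⟩ := H c' hc' δ hδ
  refine ⟨a0, ha0, fun ep hep hep1 e1 he he1 J hJ hsm => ?_⟩
  obtain ⟨C, hC, m0, H⟩ := H ep hep hep1 e1 he he1 J hJ hsm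
  refine ⟨C, hC, m0 + 1, fun m hm i hi φ w Q Bw d hQ hBw hd hw hg => ?_⟩
  obtain ⟨k, rfl⟩ : ∃ k, m = k + 1 := ⟨m - 1, by omega⟩
  obtain ⟨x, z⟩ := i
  obtain ⟨h1, h2, h3, h4, h5⟩ := hi
  exact H k (by omega) x z h1 h2 h3 h4 h5 (fun _ => Leg.cc (k + 1)) (fun _ => norm_ccL _) φ w Q Bw d
    hQ hBw hd hw hg

/-- **curve, cutoff, potential and one body data of the dislocated function** -/
theorem envF_L : EnvF famL BL linF := by
  have hl : 0 < NUMF.l := NUMF.l_pos
  have hll : NUP1.l = NUMF.l := rfl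
  obtain ⟨B0, N0, hB0, hN0, HH⟩ := PBH.hok_legs (δ := NUMF.l / 10) (by positivity) (by linarith)
  refine ⟨B0, N0, hB0, hN0, fun ep hep hep1 e1 he he1 J hJ => ?_⟩
  obtain ⟨Cc, hCc, m1, Hc⟩ := crvL he he1 hJ
  obtain ⟨C0, hC0, m2, -, Hcut⟩ := PotH.exists_cutR hep hep1 he he1 Cc 3 (hh := 2) (by norm_num)
  obtain ⟨m3, HH⟩ := HH e1 he
  refine ⟨Cc, C0, hCc, hC0, max (max m1 m2) (max m3 1), fun m hm i hi => ?_⟩
  have k1 : m1 ≤ m := (le_max_left _ _).trans ((le_max_left _ _).trans hm)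
  have k2 : m2 ≤ m := (le_max_right _ _).trans ((le_max_left _ _).trans hm)
  have k3 : m3 ≤ m := (le_max_left _ _).trans ((le_max_right _ _).trans hm)
  have k4 : 1 ≤ m := (le_max_right _ _).trans ((le_max_right _ _).trans hm)
  obtain ⟨Bc, Bc', Hcut⟩ := Hcut m k2
  have hcv := Hc m k1
  obtain ⟨x, z⟩ := i
  obtain ⟨h1, h2, h3, h4, h5⟩ := hi
  dsimp only at h1 h2 h3 h4 h5
  rw [hll] at h1 h3 h4
  obtain ⟨hA, H', hH⟩ := HH m k3 Cc (etL e1 J m) (etL' e1 J m) hcv 1 z x (by norm_num)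
    (by linarith) (by linarith) (by linarith)
  obtain ⟨k, rfl⟩ : ∃ k, m = k + 1 := ⟨m - 1, by omega⟩
  refine ⟨PotH.cfW ep (List.ofFn (mu1 k x) ++ [I, -I]) (etL e1 J (k + 1)), Bc, Bc',
    PBH.Hleg 1 z x (etL e1 J (k + 1)), H', fun th hth => ?_, le_rfl⟩
  refine
    { crv := hcv
      cut := Hcut k (List.ofFn (mu1 k x) ++ [I, -I]) [x, I, -I] ?_ _ _ hcv
      hok := hH th _ hth
      nn := PBT.obL_nn _ _ _ _
      dom := fun a t => ?_ }
  · refine
      { perm := ?_
        len := by simp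
        pt := ?_
        up := by omega
        dn := by omega }
    · rw [PBL.ofFn_mu1]
      have : (x :: List.replicate k (0 : ℂ)).Perm (List.replicate k 0 ++ [x]) :=
        List.perm_append_comm (l₁ := [x]) (l₂ := List.replicate k 0)
      refine (this.append_right _).trans ?_
      rw [List.append_assoc]
      rfl
    · intro y hy
      simp only [List.mem_cons, List.not_mem_nil, or_false] at hy
      have hl1 := NUP1.l_pos
      rcases hy with rfl | rfl | rfl
      · exact ⟨by linarith, h2⟩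
      · simp
        positivity
      · simp
        positivity
  · have h := PBL.domL (δ := NUMF.l / 10) (by positivity) (by linarith) (η := etL e1 J (k + 1))
      (fun t => ((hA true t).1).trans (by linarith)) (z := z) (x := x) (by linarith) (by linarith)
      (by linarith) k (4 / 3 * (1 - ep)) [I, -I] [] g0 a t
    exact le_of_eq h

/-- **U1, U3, U4 for the dislocated function** -/
theorem ux_famL (hP : NUStabP.StabProd) (hS : StatU) : UX famL :=
  ux_of (F := famL) (B := BL) (lin := linF) (fun m => by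
    show 2 * m ≤ 3 * m
    omega) (fun _ _ => (Real.exp_pos _).le) hS (topF_L hP) envF_L

end PBU

end
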