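import Pool.Agent.NU5.Main
import Pool.Agent.NU5.Lat
import Pool.Agent.NUTP.Gas.Final

/-!
# The regular function of the cylinder with all rows at 0 is the limit of the gas of two cut rows

`W0 k`: two-point function of the ring functionals, `2 k` rows of rapidity `0`, rows `0` and `k` are cut.
`B0 k`: scalar of all rows.  `RR0`: the gas of two cut rows at generic lines tending to `0` tends to
`B0 k ^ 2 * W0 k` (any `k ≥ 1`, any parity).
-/

set_option autoImplicit false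

namespace Pool.Agent.PB

open _root_.Pool.Agent.EXL _root_.Pool.Agent.EXL.Pat _root_.Pool.Agent.NUF _root_.Pool.Agent.NUU
  _root_.Pool.Agent.NUT2 _root_.Pool.Agent.NUBD _root_.Pool.Agent.NU5 Filter Topology
open NUTP (th)

/-- the gas family has the properties (as `NU5.gasData`, smaller imports) -/
theorem gasData0 : GasData := fun q g => NUTP.Gas.gas_data NUTP.th8 one_ne_zero q g

/-- **The two-point function of the cylinder, `2 k` rows at `0`.** -/
noncomputable def W0 (k : ℕ) (hk : 1 ≤ k) : ℂ :=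
  WR (Sum.inr 0) (Sum.inr 1) (fun _ => 0) (Ik k) (Jk k) (xr (r0 k hk)) (xl (r0 k hk)) (xr (rk k hk))
    (xl (rk k hk))

/-- **The scalar of all rows at `0`.** -/
noncomputable def B0 (k : ℕ) : ℂ := BD (fun _ : St (2 * k) => 0) ((List.finRange (2 * k)).map xr)

/-- the same lists of lines as in `MXR` -/
theorem W0_eq_prs {k : ℕ} (hk : 1 ≤ k) : W0 k hk =
    WR (Sum.inr 0) (Sum.inr 1) (fun _ => 0) (MXR.prs (MXR.rowI k)) (MXR.prs (MXR.rowJ k)) (xr (r0 k hk))
      (xl (r0 k hk)) (xr (rk k hk)) (xl (rk k hk)) := by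
  unfold W0
  rw [Ik_eq hk, Jk_eq hk]

/-- `W0` in terms of the lists of all rows. -/
theorem W0_eq {k : ℕ} (hk : 1 ≤ k) : W0 k hk =
    VR (Sum.inr 0) (Sum.inr 1) (fun _ => 0) ((List.finRange (2 * k)).map xr) fun p =>
    VR (Sum.inr 0) (Sum.inr 1) (fun _ => 0) ((List.finRange (2 * k)).map xl).reverse fun p' =>
      glu (Ik k ++ Jk k) (HS.ind (arc (xr (r0 k hk)) (xr (rk k hk)))) (un p p') := by
  unfold W0 WR
  rw [rowsR_k hk, rowsL_k hk]

theorem B0_left (k : ℕ) : BD (fun _ : St (2 * k) => 0) ((List.finRange (2 * k)).map xl).reverse = B0 k := by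
  unfold B0
  rw [BD_perm (List.reverse_perm _), BD_map, BD_map]

variable {k : ℕ} {β : Type*} {l : Filter β} {X Y : β → Fin (k - 1) → ℂ} {ra rb rq rg : β → ℂ}

theorem zm0_tendsto (hX : ∀ i, Tendsto (fun t => X t i) l (𝓝 0))
    (hY : ∀ i, Tendsto (fun t => Y t i) l (𝓝 0))
    (ha : Tendsto ra l (𝓝 0)) (hb : Tendsto rb l (𝓝 0))
    (hq : Tendsto rq l (𝓝 0)) (hg : Tendsto rg l (𝓝 0)) (r : Fin (2 * k)) (s : Bool) :
    Tendsto (fun t => (0 : ℂ) - zmk k (X t) (Y t) (ra t) (rb t) (rq t) (rg t) (Sum.inl (r, s))) l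
      (𝓝 0) := by
  suffices h : Tendsto (fun t => zmk k (X t) (Y t) (ra t) (rb t) (rq t) (rg t) (Sum.inl (r, s))) l
      (𝓝 0) by
    have h2 := h.const_sub (0 : ℂ)
    rwa [sub_zero] at h2
  by_cases h0 : r.val = 0
  · have e : ∀ t, zmk k (X t) (Y t) (ra t) (rb t) (rq t) (rg t) (Sum.inl (r, s)) =
        if s then rb t else ra t := fun t => by
      unfold zmk
      simp only [dif_pos h0]
    simp only [e]
    cases s
    · exact ha
    · exact hb
  by_cases h1 : r.val < k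
  · have e : ∀ t, zmk k (X t) (Y t) (ra t) (rb t) (rq t) (rg t) (Sum.inl (r, s)) =
        Y t ⟨r.val - 1, by omega⟩ := fun t => by
      unfold zmk
      simp only [dif_neg h0, dif_pos h1]
    simp only [e]
    exact hY _
  by_cases h2 : r.val = k
  · have e : ∀ t, zmk k (X t) (Y t) (ra t) (rb t) (rq t) (rg t) (Sum.inl (r, s)) =
        if s then rg t else rq t := fun t => by
      unfold zmk
      simp only [dif_neg h0, dif_neg h1, dif_pos h2]
    simp only [e]
    cases s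
    · exact hq
    · exact hg
  · have e : ∀ t, zmk k (X t) (Y t) (ra t) (rb t) (rq t) (rg t) (Sum.inl (r, s)) =
        X t ⟨r.val - k - 1, by omega⟩ := fun t => by
      unfold zmk
      simp only [dif_neg h0, dif_neg h1, dif_neg h2]
    simp only [e]
    exact hX _

/-- **The gas of two cut rows tends to `B0 k ^ 2 * W0 k`.** -/
theorem RR0 (hk : 1 ≤ k)
    (hX : ∀ i, Tendsto (fun t => X t i) l (𝓝 0))
    (hY : ∀ i, Tendsto (fun t => Y t i) l (𝓝 0))
    (ha : Tendsto ra l (𝓝 0)) (hb : Tendsto rb l (𝓝 0))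
    (hq : Tendsto rq l (𝓝 0)) (hg : Tendsto rg l (𝓝 0))
    (hgen : ∀ᶠ t in l, NUTP.G th (NUTP.ea (ra t) :: NUTP.ea (rb t) :: NUTP.ea (rq t) ::
      NUTP.ea (rg t) :: ((List.ofFn fun i => NUTP.ea (X t i)) ++ List.ofFn fun i => NUTP.ea (Y t i)))) :
    Tendsto (fun t => gasR (List.ofFn fun i => NUTP.ea (X t i)) (List.ofFn fun i => NUTP.ea (Y t i))
      (NUTP.ea (ra t)) (NUTP.ea (rb t)) (NUTP.ea (rq t)) (NUTP.ea (rg t))) l
      (𝓝 (B0 k ^ 2 * W0 k hk)) := by
  have nr : ((List.finRange (2 * k)).map (xr (n := 2 * k))).Nodup :=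
    (List.nodup_append.1 (all_nodup (2 * k))).1
  have nl : ((List.finRange (2 * k)).map (xl (n := 2 * k))).Nodup :=
    (List.nodup_append.1 (all_nodup (2 * k))).2.1
  have nl' := List.nodup_reverse.2 nl
  have c01 : (Sum.inr 0 : St (2 * k)) ≠ Sum.inr 1 := by simp
  have n1 : ∀ j : Fin 4, (Sum.inr j : St (2 * k)) ∉ (List.finRange (2 * k)).map xr := by simp
  have n2 : ∀ j : Fin 4, (Sum.inr j : St (2 * k)) ∉ ((List.finRange (2 * k)).map xl).reverse := by simp
  obtain ⟨r, hr, hR⟩ := regR_ball (α := St (2 * k)) c01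
  have hRr := (hR (fun _ => 0) _ nr (n1 0) (n1 1) fun i _ => Metric.mem_ball_self hr).1
  have hRl := (hR (fun _ => 0) _ nl' (n2 0) (n2 1) fun i _ => Metric.mem_ball_self hr).1
  have hUr : UDRing (Sum.inr 0) (Sum.inr 1) ((List.finRange (2 * k)).map (xr (n := 2 * k))) :=
    udRingAll (St (2 * k)) _ _ (Sum.inr 2) _ nr (by simp) (by simp) (by simp) (n1 0) (n1 1) (n1 2)
  have hUl : UDRing (Sum.inr 0) (Sum.inr 1) ((List.finRange (2 * k)).map (xl (n := 2 * k))).reverse :=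
    udRingAll (St (2 * k)) _ _ (Sum.inr 2) _ nl' (by simp) (by simp) (by simp) (n2 0) (n2 1) (n2 2)
  have hrf : UDRefl ((List.finRange (2 * k)).map (xl (n := 2 * k))).reverse := udRefl nl' (udRingAll _)
  set zt : β → St (2 * k) → ℂ := fun t => zmk k (X t) (Y t) (ra t) (rb t) (rq t) (rg t) with hzt
  have hT := zm0_tendsto hX hY ha hb hq hg
  have hzr : ∀ j ∈ rowsR (Ik k) (Jk k) (xr (r0 k hk)) (xr (rk k hk)),
      Tendsto (fun t => (0 : ℂ) - zt t j) l (𝓝 ((fun _ => 0 : St (2 * k) → ℂ) j)) := by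
    rw [rowsR_k]
    intro j hj
    obtain ⟨r, -, rfl⟩ := List.mem_map.1 hj
    exact hT r false
  have hzl : ∀ j ∈ rowsL (Ik k) (Jk k) (xl (r0 k hk)) (xl (rk k hk)),
      Tendsto (fun t => (0 : ℂ) - zt t j) l (𝓝 ((fun _ => 0 : St (2 * k) → ℂ) j)) := by
    rw [rowsL_k]
    intro j hj
    obtain ⟨r, -, rfl⟩ := List.mem_map.1 hj
    exact hT r true
  have hends := fun t => zmk_ends hk (X t) (Y t) (ra t) (rb t) (rq t) (rg t)
  have hgen' : ∀ᶠ t in l, NUTP.G th (NUTP.ea (zt t (xr (r0 k hk))) :: NUTP.ea (zt t (xl (r0 k hk))) ::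
      NUTP.ea (zt t (xr (rk k hk))) :: NUTP.ea (zt t (xl (rk k hk))) ::
        ((Ik k).map (li (zt t)) ++ (Jk k).map (li (zt t)))) := hgen.mono fun t ht => by
    rw [hzt]
    simp only [(hends t).1, (hends t).2.1, (hends t).2.2.1, (hends t).2.2.2, zmk_I, zmk_J]
    exact ht
  have hsame : ∀ t, ∀ s ∈ Ik k ++ Jk k, zt t s.2 = zt t s.1 := fun t => zmk_same
  have hnr : (rowsR (Ik k) (Jk k) (xr (r0 k hk)) (xr (rk k hk))).Nodup := (Ok_k hk).nd1
  have hnl : (rowsL (Ik k) (Jk k) (xl (r0 k hk)) (xl (rk k hk))).Nodup := (Ok_k hk).nd2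
  have e : ∀ t i, (0 : ℂ) - zt t i = -zt t i + 0 := fun t i => by ring
  have hGr : ∀ᶠ t in l, Gz (fun i => (0 : ℂ) - zt t i)
      (rowsR (Ik k) (Jk k) (xr (r0 k hk)) (xr (rk k hk))) := hgen'.mono fun t ht => by
    simp only [e]
    exact (Gz_neg (G_rowsR ht)).shift _
  have hGl : ∀ᶠ t in l, Gz (fun i => (0 : ℂ) - zt t i)
      (rowsL (Ik k) (Jk k) (xl (r0 k hk)) (xl (rk k hk))).reverse := hgen'.mono fun t ht => by
    simp only [e]
    exact (Gz_neg (Gz_rev (G_rowsL (hsame t) ht))).shift _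
  have hBr := BE_tendsto (β := β) hnr hGr hzr
  have hBl := BE_tendsto (β := β) (List.nodup_reverse.2 hnl) hGl
    fun j hj => hzl j (List.mem_reverse.1 hj)
  have hok : okR ((Real.pi / 8 : ℂ) - 0) := by
    rw [sub_zero]
    exact okR_hex
  have key := RR_tendsto (x := 0) latData gasData0 (Ok_k hk) (c := Sum.inr 0) (d := Sum.inr 1)
    (by simp) (spare_notMem hk 0) (spare_notMem hk 1) hsame hgen' hzr hzl (fun j _ => hok)
    (fun j _ => hok) (by rw [rowsR_k]; exact hRr) (by rw [rowsL_k]; exact hRl)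
    (by rw [rowsR_k]; exact hUr) (by rw [rowsL_k]; exact hUl) (by rw [rowsL_k]; exact hrf) hBr hBl
  have e1 : BD (fun _ : St (2 * k) => 0) (rowsR (Ik k) (Jk k) (xr (r0 k hk)) (xr (rk k hk))) = B0 k := by
    rw [rowsR_k]
    rfl
  have e2 : BD (fun _ : St (2 * k) => 0) (rowsL (Ik k) (Jk k) (xl (r0 k hk)) (xl (rk k hk))).reverse =
      B0 k := by
    rw [rowsL_k]
    exact B0_left k
  have e3 : WR (Sum.inr 0) (Sum.inr 1) (fun _ => 0) (Ik k) (Jk k) (xr (r0 k hk)) (xl (r0 k hk))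
      (xr (rk k hk)) (xl (rk k hk)) = W0 k hk := rfl
  rw [e1, e2, e3] at key
  rw [sq]
  refine key.congr fun t => ?_
  rw [hzt]
  simp only [(hends t).1, (hends t).2.1, (hends t).2.2.1, (hends t).2.2.2, zmk_I, zmk_J]

end Pool.Agent.PB
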