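import Pool.Agent.PB.Main
import Pool.Agent.PB.RR0

/-!
# The normaliser and the phase (helper85)

`B0_RR`, `W0_RR`: the scalar and the physical function of `PB/RR0` are those of `PB/Main`.
`ph k`: a number of modulus one with `nrm k * W0r k = ph k * (2^{2k(2k-1)} B0^2 W0 / bulk0)`.
`h1_of`: an approximation of `2^{2k(2k-1)} B0^2 W0 / bulk0` by `X` gives one of `nrm k * W0r k` by `ph k * X`.
-/

set_option autoImplicit false

noncomputable section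

open Complex

namespace PBM

open Pool.Agent

theorem B0_RR (k : ℕ) : PB.B0 k = B0 k := by
  unfold PB.B0
  exact B0_eq _ (fun _ _ => rfl) (by simp)

theorem W0_RR {k : ℕ} (hk : 1 ≤ k) : PB.W0 k hk = GLD.W0 hk := by
  rw [PB.W0_eq_prs]
  rfl

/-- the phase -/
def ph (k : ℕ) : ℂ := if B0 k = 0 then 1 else ((‖B0 k‖ ^ 2 : ℝ) : ℂ) / B0 k ^ 2

theorem norm_ph (k : ℕ) : ‖ph k‖ = 1 := by
  unfold ph
  split_ifs with h
  · exact norm_one
  · have h2 : ‖B0 k‖ ^ 2 ≠ 0 := pow_ne_zero 2 (norm_ne_zero_iff.2 h)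
    rw [norm_div, norm_pow (B0 k), norm_real, Real.norm_of_nonneg (by positivity), div_self h2]

theorem ph_mul (k : ℕ) : ph k * B0 k ^ 2 = ((‖B0 k‖ ^ 2 : ℝ) : ℂ) := by
  unfold ph
  split_ifs with h
  · rw [h]
    simp
  · field_simp

theorem nrm_W0 {k : ℕ} (hk : 1 ≤ k) : ((nrm k * W0r k : ℝ) : ℂ) =
    ph k * (2 ^ (2 * k * (2 * k - 1)) * B0 k ^ 2 * GLD.W0 hk / (bulk0 k : ℂ)) := by
  have e : ((nrm k * W0r k : ℝ) : ℂ) = ((nrm k : ℝ) : ℂ) * GLD.W0 hk := by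
    rw [ofReal_mul, W0r_cast hk]
  rw [e]
  unfold nrm
  have h := ph_mul k
  push_cast at h ⊢
  rw [← h]
  ring

/-- **the form with a phase** -/
theorem h1_of {k : ℕ} (hk : 1 ≤ k) {X : ℂ} {e : ℝ}
    (h : ‖2 ^ (2 * k * (2 * k - 1)) * B0 k ^ 2 * GLD.W0 hk / (bulk0 k : ℂ) - X‖ ≤ e) :
    ‖((nrm k * W0r k : ℝ) : ℂ) - ph k * X‖ ≤ e := by
  rw [nrm_W0 hk, ← mul_sub, norm_mul, norm_ph, one_mul]
  exact h

/-- the same with the names of `PB/RR0` -/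
theorem h1_of_RR {k : ℕ} (hk : 1 ≤ k) {X : ℂ} {e : ℝ}
    (h : ‖2 ^ (2 * k * (2 * k - 1)) * (PB.B0 k ^ 2 * PB.W0 k hk) / (bulk0 k : ℂ) - X‖ ≤ e) :
    ‖((nrm k * W0r k : ℝ) : ℂ) - ph k * X‖ ≤ e := by
  refine h1_of hk ?_
  rwa [B0_RR, W0_RR, ← mul_assoc] at h

end PBM

end
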