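import Pool.Agent.PB.W0Fam
import Pool.Agent.PB.RR0
import Pool.Agent.PB.Reg0

/-!
# The regular two-point function at rows 0 as the sum of the eleven integrals

* `W0_gas` : `B0 k ^ 2 * W0 k` for any data with `k - 1` rows 0 in each group and ends 0;
* `W0_gas_R0` : the same for the data `R0 (k - 1) β ex ex0`.
-/

set_option autoImplicit false
set_option linter.unusedSectionVars false
set_option linter.unusedVariables false

noncomputable section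

open Complex MeasureTheory Filter Topology

namespace PBZ

open NUP1 PBX
open NUP1.N (E11)
open NUP1.Leg (Bp cc)
open Pool.Agent.PB (B0 W0)

/-- the gas at the rows `xZ`, `yZ` tends to the numerator -/
theorem gasR_B0 {k : ℕ} (hk : 1 ≤ k) :
    Tendsto (fun e => Pool.Agent.NU5.gasR (List.ofFn fun i => NUTP.ea (-xZ (k - 1) e i))
      (List.ofFn fun i => NUTP.ea (-yZ (k - 1) e i)) (NUTP.ea (-pZ (2 * (k - 1) + 1) e))
      (NUTP.ea (-pZ (2 * (k - 1) + 2) e)) (NUTP.ea (-pZ (2 * (k - 1) + 3) e))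
      (NUTP.ea (-pZ (2 * (k - 1) + 4) e))) (𝓝[>] (0 : ℝ)) (𝓝 (B0 k ^ 2 * W0 k hk)) := by
  have hpos : ∀ᶠ e : ℝ in 𝓝[>] 0, 0 < e := self_mem_nhdsWithin
  exact Pool.Agent.PB.RR0 (l := 𝓝[>] (0 : ℝ)) (k := k) (X := fun e i => -xZ (k - 1) e i)
    (Y := fun e i => -yZ (k - 1) e i) (ra := fun e => -pZ (2 * (k - 1) + 1) e)
    (rb := fun e => -pZ (2 * (k - 1) + 2) e) (rq := fun e => -pZ (2 * (k - 1) + 3) e)
    (rg := fun e => -pZ (2 * (k - 1) + 4) e) hk (fun i => pZ_neg_tendsto _)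
    (fun i => pZ_neg_tendsto _) (pZ_neg_tendsto _) (pZ_neg_tendsto _) (pZ_neg_tendsto _)
    (pZ_neg_tendsto _) (hpos.mono fun e he => G_Z he)

/-- **The numerator of the regular two-point function at rows 0, ends 0** -/
theorem W0_gas {k : ℕ} (hk : 1 ≤ k) {a : ℝ} (ha : a = 31 / 50 ∨ a = 5 / 4) {D : RD (k - 1)}
    (O : D.Ok) (hβ : 1 < D.β) (hc : D.c = cc (k - 1)) (hc' : D.c' = cc (k - 1)) (Z : D.Z) :
    B0 k ^ 2 * W0 k hk =
      sin l * (Bp 0 0 (fun _ : Fin (k - 1) => 0) * Bp 0 0 (fun _ : Fin (k - 1) => 0)) *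
      ∑ n ∈ Finset.range (2 * (k - 1) + 1),
        E11 (3 / 5 * l) (-(17 / 10) * l) D.p D.q D.x D.y D.hX D.hY n n (a * l)
          (-(11 / 4) * l) := by
  have h1 := gasR_zero ha O hβ hc hc' Z.x Z.y Z.p Z.q
  exact tendsto_nhds_unique (gasR_B0 hk) h1

/-- the same for `R0` -/
theorem W0_gas_R0 {k : ℕ} (hk : 1 ≤ k) {a : ℝ} (ha : a = 31 / 50 ∨ a = 5 / 4) {β : ℝ}
    (hβ : 1 < β) (hβ' : β ≤ 4 / 3) {ex ex0 : List ℂ} (hex : ∀ w ∈ ex, |w.re| ≤ l / 2)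
    (hex0 : ∀ w ∈ ex0, |w.re| ≤ l / 2) :
    B0 k ^ 2 * W0 k hk =
      sin l * (Bp 0 0 (fun _ : Fin (k - 1) => 0) * Bp 0 0 (fun _ : Fin (k - 1) => 0)) *
      ∑ n ∈ Finset.range (2 * (k - 1) + 1),
        E11 (3 / 5 * l) (-(17 / 10) * l) (R0 (k - 1) β ex ex0).p (R0 (k - 1) β ex ex0).q
          (R0 (k - 1) β ex ex0).x (R0 (k - 1) β ex ex0).y
          (R0 (k - 1) β ex ex0).hX (R0 (k - 1) β ex ex0).hY n n (a * l) (-(11 / 4) * l) :=
  W0_gas hk ha (D := R0 (k - 1) β ex ex0) (R0_Ok (k - 1) (by linarith) hβ' hex hex0) hβ rfl rfl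
    (R0_Z _ _ _ _)

end PBZ

end
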