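import Pool.Agent.PB.TRH2
import Pool.Agent.PB.W0Gas
import Pool.Agent.PB.MainRR
import Pool.Agent.PB.Mst0
import Pool.Agent.PB.S4G0

/-!
# (H1) of (TR), literally

* `KK_WW`: the integrand `KK (SR0 ep e1 J)` in the names of `PB/Mst0`;
* **`h1_SR0`**: the normalised physical function at rows `0` is, up to a phase, the integral of
  `KK (SR0 ep e1 J) k` over the window `|τ₁|, |τ₂| ≤ 3/8 log k`, error `k ^ (-c0)`, every `c0 < 7/16`;
* **`hm_SR0`**: measurability.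
-/

set_option autoImplicit false
set_option linter.unusedSectionVars false

noncomputable section

open Complex MeasureTheory Finset Filter

namespace PBTRF

open NUGC PBO PBF PBR PBX PBI
open NUO NUP1 NUP1S NURow
open NUP1.Leg (Dk Bp)
open PBT3 (wt zt k1T)
open PBTR (mT winW)

attribute [local instance] NUSea.seaP

/-- the prefactor of the class `W W` -/
theorem preWW_R0 (ep : ℝ) (k : ℕ) (y : ℝ × ℝ) :
    preWW (R0 (k - 1) (beC ep) [I, -I] []) y = kR k y := by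
  unfold preWW kR
  rw [(R0_Z _ _ _ _).KF, (R0_Z _ _ _ _).KF']

/-- the integrand in the names of `PB/Mst0` -/
theorem KK_WW (ep e1 J : ℝ) (k : ℕ) (y : ℝ × ℝ) : KK (SR0 ep e1 J) k y =
    nrR k * (2 * (Real.pi : ℂ))⁻¹ ^ 2 * (preWW (R0 (k - 1) (beC ep) [I, -I] []) y *
      ∑ n ∈ range (2 * (k - 1) + 1), PBF.FF (ZWW (R0 (k - 1) (beC ep) [I, -I] []) y)
        (NUSea.O.par0 k) n n (fun _ _ => etaC e1 J k k) (fun _ _ => etaC' e1 J k k)
          (fun _ _ _ _ _ => 1)) := by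
  rw [KK_SR0, preWW_R0]
  unfold SR0 ZWW
  rw [wt_vl, wt_vl]
  ring

/-- the physical function -/
theorem phys_EED {k : ℕ} (hk : 1 ≤ k) {ep : ℝ} (hep : 0 < ep) (hep1 : ep ≤ 1 / 100) :
    2 ^ (2 * k * (2 * k - 1)) * (Pool.Agent.PB.B0 k ^ 2 * Pool.Agent.PB.W0 k hk) /
        ((PBM.bulk0 k : ℝ) : ℂ) =
      nrR k * ∑ n ∈ range (2 * (k - 1) + 1), EED (R0 (k - 1) (beC ep) [I, -I] []) n := by
  have h := PBZ.W0_gas_R0 hk (a := 31 / 50) (Or.inl rfl) (β := beC ep) (PBO.beC_bd hep hep1).1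
    (by unfold beC; linarith) (ex := [I, -I]) (ex0 := []) PBO.cutOk_I.re (by simp)
  have hb : PBM.bulk0 k = Pool.Agent.NUF.bulk k := rfl
  rw [h, hb]
  unfold nrR EED
  ring

/-- **(H1)** -/
theorem h1_SR0 {c0 : ℝ} (hc : c0 < 7 / 16) : ∃ ep0 : ℝ, 0 < ep0 ∧ ep0 ≤ 1 / 100 ∧
    ∀ ep : ℝ, 0 < ep → ep ≤ ep0 → ∀ e1 : ℝ, 0 < e1 → e1 ≤ 1 / 100 → ∀ J : ℝ, 0 ≤ J →
    ∀ᶠ k : ℕ in atTop, ‖((PBM.nrm k * PBM.W0r k : ℝ) : ℂ) -
      PBM.ph k * ∫ τ in winW (3 / 8) k, KK (SR0 ep e1 J) k τ‖ ≤ (k : ℝ) ^ (-c0) := by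
  obtain ⟨ep0, h0, h1, H⟩ := mst_R0 s4R_GI ((7 / 16 - c0) / 2) (by linarith)
  refine ⟨ep0, h0, h1, fun ep hep hep0 e1 he1 he11 J hJ => ?_⟩
  have hep1 := hep0.trans h1
  obtain ⟨Cst, k0, hC, hk0, H⟩ := H ep hep hep0
  obtain ⟨kc, hkc, Hc⟩ := curOKC he1 he11 hJ hep
  have h3 : Tendsto (fun k : ℕ => (k : ℝ) ^ ((7 / 16 - c0) / 2)) atTop atTop :=
    (tendsto_rpow_atTop (by linarith)).comp tendsto_natCast_atTop_atTop
  filter_upwards [h3.eventually_ge_atTop ((Real.sin l)⁻¹ * Cst), eventually_ge_atTop k0,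
    eventually_ge_atTop kc] with k q1 q2 q3
  have hk : 1 ≤ k := hk0.trans q2
  have hkp : (0 : ℝ) < k := by exact_mod_cast hk
  refine PBM.h1_of_RR hk ?_
  have e := (H k q2 (fun _ _ _ => etaC e1 J k k) (fun _ _ _ => etaC' e1 J k k) fun y r _ =>
    Filter.Eventually.of_forall fun O => Hc k q3 k (by linarith)).1
  rw [phys_EED hk hep hep1]
  simp only [KK_WW]
  rw [integral_const_mul, mul_assoc, ← mul_sub, norm_mul]
  refine (mul_le_mul_of_nonneg_left e (norm_nonneg _)).trans ?_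
  have hn := norm_nrR hk
  have e1 : (k : ℝ) ^ (-(7 / 16) + (7 / 16 - c0) / 2) =
      (k : ℝ) ^ (-c0) * ((k : ℝ) ^ ((7 / 16 - c0) / 2))⁻¹ := by
    rw [← Real.rpow_neg hkp.le, ← Real.rpow_add hkp]
    congr 1
    ring
  have hp : 0 < (k : ℝ) ^ ((7 / 16 - c0) / 2) := Real.rpow_pos_of_pos hkp _
  calc ‖nrR k‖ * (Cst * (k : ℝ) ^ (-(7 / 16) + (7 / 16 - c0) / 2) *
        Real.exp ((k : ℝ) ^ 2 * PBVR.EMF0))
      = (‖nrR k‖ * Real.exp ((k : ℝ) ^ 2 * PBVR.EMF0)) * Cst *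
          (k : ℝ) ^ (-(7 / 16) + (7 / 16 - c0) / 2) := by ring
    _ = (Real.sin l)⁻¹ * Cst * ((k : ℝ) ^ (-c0) * ((k : ℝ) ^ ((7 / 16 - c0) / 2))⁻¹) := by
        rw [hn, e1]
    _ ≤ (k : ℝ) ^ ((7 / 16 - c0) / 2) * ((k : ℝ) ^ (-c0) * ((k : ℝ) ^ ((7 / 16 - c0) / 2))⁻¹) :=
        mul_le_mul_of_nonneg_right q1 (by positivity)
    _ = (k : ℝ) ^ (-c0) := by
        field_simp

/-- **measurability** -/
theorem hm_SR0 {ep : ℝ} (hep : 0 < ep) (hep1 : ep ≤ 1 / 100) {e1 : ℝ} (he1 : 0 < e1)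
    (he11 : e1 ≤ 1 / 100) {J : ℝ} (hJ : 0 ≤ J) : ∀ᶠ k : ℕ in atTop,
    AEStronglyMeasurable (KK (SR0 ep e1 J) k) volume := by
  obtain ⟨kc, hkc, Hc⟩ := curOKC he1 he11 hJ hep
  filter_upwards [eventually_ge_atTop kc] with k q3
  have hP : ParM (NUSea.O.par0 k) := PBO.parM_par0 k
  have hOk := PBO.DX_Ok PBO.cutOk_I hep hep1 k
  have hβ := (PBO.beC_bd hep hep1).1
  have e : KK (SR0 ep e1 J) k = fun y => nrR k * (2 * (Real.pi : ℂ))⁻¹ ^ 2 *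
      ∑ n ∈ range (2 * (k - 1) + 1), preWW (R0 (k - 1) (beC ep) [I, -I] []) y *
        objWW (R0 (k - 1) (beC ep) [I, -I] []) (NUSea.O.par0 k) n y := by
    funext y
    rw [KK_WW, Finset.mul_sum]
    congr 1
    refine Finset.sum_congr rfl fun n _ => ?_
    congr 1
    exact (RWW_FF hOk (REq_R0 _ _ PBO.cutOk_I.re) hP.1 hep hep1 (PBC.parZ_low k) (by simp [vl])
      (by simp [vl]) n fun r _ => Filter.Eventually.of_forall fun O => Hc k q3 k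
        (by have : (0 : ℝ) ≤ k := Nat.cast_nonneg k
            linarith)).symm
  rw [e]
  refine AEStronglyMeasurable.const_mul ?_ _
  exact (MeasureTheory.integrable_finsetSum _ fun n _ =>
    int_preWW hOk hβ hP n).aestronglyMeasurable

end PBTRF

end
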