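import Pool.Agent.PB.Apr0
import Pool.Agent.PB.Main

/-!
# Plan B: the a priori bound as the proposition `AprP` of the main deduction
-/

set_option autoImplicit false

namespace PBC

/-- **the a priori bound.** -/
theorem aprP : PBM.AprP := PBM.AprP_of fun _ hε => PBA.W0_low hε

end PBC
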