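import Pool.Agent.PB.CylGeo

/-!
# The cylinder graph and the words of the cylinder (helper69): the dictionary

`card_words`: the words with `n + 1` letters counted by `GLD.W0` are the self-avoiding walks `saws k n`.
`hasSum_W0`: the two-point function `GLD.W0` is the generating function of the numbers of these walks.
-/

set_option autoImplicit false

namespace Pool.Agent.CylSaw

open HexObs HexObs.LP ENNReal
open Pool.Agent.NUF.Cyl (Nm Cy pL nm_A nm_B)
open Pool.Agent.NUN (Om mem_Om)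

variable {k : ℕ}

/-- the vertex number i of a word on the cylinder. -/
def wv (k : ℕ) (t : List Bool) (i : ℕ) : V (2 * k) := ps (2 * k) (vx (pL 0).1 (pL 0).2 t i)

/-- the words. -/
def Wd (k n : ℕ) : Set (List Bool) :=
  {t | t.length = n + 1 ∧ (∀ i j, 1 ≤ i → i < j → j ≤ t.length → wv k t i ≠ wv k t j) ∧
    wv k t t.length = (0, (k : ZMod (2 * k)), false) ∧ dx (pL 0).2 t t.length = (-1, 1)}

theorem de0 : De (pL 0) := by
  refine ⟨by decide, Vt_B' _ _, ?_⟩
  show Vt (_root_.EXL.B (-1) 0 + (1, -1))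
  rw [B_2]
  exact Vt_A' _ _

theorem de_w (t : List Bool) (i : ℕ) : De (vx (pL 0).1 (pL 0).2 t i, dx (pL 0).2 t i) := de_vx de0 t i

theorem vx_s (t : List Bool) (i : ℕ) : vx (pL 0).1 (pL 0).2 t (i + 1) =
    vx (pL 0).1 (pL 0).2 t i + dx (pL 0).2 t i := rfl

theorem dx_s (t : List Bool) (i : ℕ) : dx (pL 0).2 t (i + 1) = turn (tf t i) (dx (pL 0).2 t i) := rfl

theorem wv_zero (t : List Bool) : wv k t 0 = (-1, 0, true) := by
  unfold wv
  have e : vx (pL 0).1 (pL 0).2 t 0 = _root_.EXL.B (-1) 0 := rfl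
  rw [e, ps_B, Int.cast_zero]

theorem wv_one (t : List Bool) : wv k t 1 = (0, 0, false) := by
  unfold wv
  have e : vx (pL 0).1 (pL 0).2 t 1 = _root_.EXL.B (-1) 0 + (1, -1) := rfl
  rw [e, B_2, ps_A, Int.cast_zero]
  rfl

theorem wv_adj (t : List Bool) (i : ℕ) : (cyl (2 * k)).Adj (wv k t i) (wv k t (i + 1)) := by
  unfold wv
  rw [vx_s]
  exact adj_step _ (de_w t i)

/-- no step back. -/
theorem wv_ne_back (hk : 1 ≤ k) (t : List Bool) (i : ℕ) : wv k t (i + 2) ≠ wv k t i := by
  intro e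
  unfold wv at e
  have h1 : vx (pL 0).1 (pL 0).2 t i = vx (pL 0).1 (pL 0).2 t (i + 1) + -dx (pL 0).2 t i := by
    rw [vx_s, add_neg_cancel_right]
  have h2 : vx (pL 0).1 (pL 0).2 t (i + 2) = vx (pL 0).1 (pL 0).2 t (i + 1) + dx (pL 0).2 t (i + 1) := rfl
  rw [h1, h2] at e
  have h3 := dir_inj (N := 2 * k) (by omega) (de_w t (i + 1)) (de_back (de_w t i)) e
  rw [dx_s] at h3
  exact turn_ne' _ (de_w t i).1 _ h3

/-! ### words and walks -/

theorem nb_last (hk : 1 ≤ k) {v : Pt} (hv : Vt v) :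
    (Cy (2 * k) (GLD.two_k hk)).nm (v + (-1, 1)) = _root_.EXL.B (-1) k ↔
      ps (2 * k) v = (0, (k : ZMod (2 * k)), false) := by
  have hA : ps (2 * k) (_root_.EXL.A 0 (k : ℤ)) = (0, (k : ZMod (2 * k)), false) := by
    rw [ps_A, Int.cast_natCast]
  constructor
  · intro h
    have h1 : (Cy (2 * k) (GLD.two_k hk)).nm v = (Cy (2 * k) (GLD.two_k hk)).nm (_root_.EXL.A 0 (k : ℤ)) := by
      have h2 : v = v + (-1, 1) + (1, -1) := by
        rw [add_assoc]
        simp
      rw [h2, ← (Cy (2 * k) (GLD.two_k hk)).add (v + (-1, 1)) (1, -1), h, B_2]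
      simp
    rw [← ps_nm (GLD.two_k hk) v, h1, ps_nm, hA]
  · intro h
    rw [← hA] at h
    have h1 := nm_of_ps (GLD.two_k hk) hv (Vt_A' _ _) h
    rw [← (Cy (2 * k) (GLD.two_k hk)).add v (-1, 1), h1, (Cy (2 * k) (GLD.two_k hk)).add, A_2, zero_sub]
    exact nm_B _ _ (by omega) (by push_cast; omega)

/-- the words of the cylinder. -/
theorem mem_words (hk : 1 ≤ k) (t : List Bool) :
    ((∃ m, (Cy (2 * k) (GLD.two_k hk)).Arr (Om (2 * k) m) (pL 0) t) ∧
      (Cy (2 * k) (GLD.two_k hk)).rv ((Cy (2 * k) (GLD.two_k hk)).le (pL 0) t) = pL (k : ℤ)) ↔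
    ∃ n, t ∈ Wd k n := by
  set C := Cy (2 * k) (GLD.two_k hk) with hC
  have hnm : ∀ i j, C.nm (vx (pL 0).1 (pL 0).2 t i) = C.nm (vx (pL 0).1 (pL 0).2 t j) ↔ wv k t i = wv k t j := by
    intro i j
    constructor
    · intro h
      unfold wv
      rw [← ps_nm (GLD.two_k hk), ← hC, h, hC, ps_nm]
    · intro h
      exact nm_of_ps (GLD.two_k hk) (de_w t i).2.1 (de_w t j).2.1 h
  have hrv : C.rv (C.le (pL 0) t) = pL (k : ℤ) ↔
      wv k t t.length = (0, (k : ZMod (2 * k)), false) ∧ dx (pL 0).2 t t.length = (-1, 1) := by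
    have e1 : C.rv (C.le (pL 0) t) = (C.nm (vx (pL 0).1 (pL 0).2 t t.length + dx (pL 0).2 t t.length),
        -dx (pL 0).2 t t.length) := by
      unfold Nm.rv Nm.le Nm.nb
      simp only
      rw [C.add]
    rw [e1]
    constructor
    · intro h
      have h2 : -dx (pL 0).2 t t.length = (1, -1) := congrArg Prod.snd h
      have h3 : dx (pL 0).2 t t.length = (-1, 1) := by
        rw [← neg_neg (dx (pL 0).2 t t.length), h2]
        rfl
      have h4 := congrArg Prod.fst h
      rw [h3] at h4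
      exact ⟨(nb_last hk (de_w t t.length).2.1).1 h4, h3⟩
    · rintro ⟨h1, h2⟩
      rw [h2]
      refine Prod.ext ((nb_last hk (de_w t t.length).2.1).2 h1) ?_
      rfl
  rw [hrv]
  constructor
  · rintro ⟨⟨m, hm⟩, h1, h2⟩
    have hl : t.length ≠ 0 := by
      intro h0
      rw [h0] at h2
      have : dx (pL 0).2 t 0 = (1, -1) := rfl
      rw [this] at h2
      exact absurd h2 (by decide)
    obtain ⟨n, hn⟩ := Nat.exists_eq_succ_of_ne_zero hl
    refine ⟨n, hn, fun i j hi hij hj => ?_, h1, h2⟩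
    have := hm.inj i j hi hij hj
    rwa [Ne, hnm] at this
  · rintro ⟨n, hn, h0, h1, h2⟩
    refine ⟨?_, h1, h2⟩
    classical
    obtain ⟨m, hm⟩ := Pool.Agent.NUN.Om_exhaust (N := 2 * k)
      (Ω := (Finset.range (t.length + 1)).image fun i => C.nm (vx (pL 0).1 (pL 0).2 t i)) (by
        intro v hv
        rw [Finset.mem_image] at hv
        obtain ⟨i, -, rfl⟩ := hv
        set u := vx (pL 0).1 (pL 0).2 t i with hu
        have hvt : Vt u := (de_w t i).2.1
        have hr1 : 0 ≤ NUF.Cyl.ri u % ((2 * k : ℕ) : ℤ) := Int.emod_nonneg _ (by omega)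
        have hr2 : NUF.Cyl.ri u % ((2 * k : ℕ) : ℤ) < ((2 * k : ℕ) : ℤ) := Int.emod_lt_of_pos _ (by omega)
        refine ⟨co u, NUF.Cyl.ri u % ((2 * k : ℕ) : ℤ), hr1, hr2, ?_⟩
        have e : C.nm u = NUF.Cyl.tr (-(((2 * k : ℕ) : ℤ) * (NUF.Cyl.ri u / ((2 * k : ℕ) : ℤ)))) u := rfl
        have e2 : NUF.Cyl.ri u + -(((2 * k : ℕ) : ℤ) * (NUF.Cyl.ri u / ((2 * k : ℕ) : ℤ))) =
            NUF.Cyl.ri u % ((2 * k : ℕ) : ℤ) := by
          rw [Int.emod_def]
          ring
        rcases vt_cases hvt with h | h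
        · left
          rw [e]
          conv_lhs => rw [h]
          rw [tr_A, NUF.Cyl.ri_A, e2]
        · right
          rw [e]
          conv_lhs => rw [h]
          rw [tr_B, NUF.Cyl.ri_B, e2])
    refine ⟨m, fun i h3 h4 => hm m le_rfl ?_, fun i j hi hij hj => ?_⟩
    · rw [Finset.mem_image]
      exact ⟨i, Finset.mem_range.2 (by omega), rfl⟩
    · rw [Ne, hnm]
      exact h0 i j hi hij hj

/-! ### the bijection -/

/-- the walk of a word. -/
def wk (k n : ℕ) (t : List Bool) (i : Fin (n + 1)) : V (2 * k) := wv k t (i.val + 1)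

theorem dv_last (hk : 1 ≤ k) {v d : Pt} (hv : De (v, d)) (h : ps (2 * k) v = (0, (k : ZMod (2 * k)), false))
    (h' : ps (2 * k) (v + d) = (-1, (k : ZMod (2 * k)), true)) : d = (-1, 1) := by
  rcases vt_cases hv.2.1 with e | e
  · simp only at e
    rw [e, ps_A] at h
    have h1 : co v = 0 := congrArg Prod.fst h
    have h2 : ((NUF.Cyl.ri v : ℤ) : ZMod (2 * k)) = k := congrArg (fun p : V (2 * k) => p.2.1) h
    have h3 : De (v, ((-1, 1) : Pt)) := by
      refine ⟨(by decide : ((-1, 1) : Pt) ∈ dirs), hv.2.1, ?_⟩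
      show Vt (v + (-1, 1))
      rw [e, A_2]
      exact Vt_B' _ _
    refine dir_inj (N := 2 * k) (by omega) hv h3 ?_
    rw [h', e, A_2, ps_B, h1, h2, zero_sub]
  · simp only at e
    rw [e, ps_B] at h
    have := congrArg (fun p : V (2 * k) => p.2.2) h
    simp at this

theorem back_last {v : Pt} (hv : Vt v) (h : ps (2 * k) v = (0, (k : ZMod (2 * k)), false)) :
    De (v, ((-1, 1) : Pt)) ∧ ps (2 * k) (v + (-1, 1)) = (-1, (k : ZMod (2 * k)), true) := by
  rcases vt_cases hv with e | e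
  · rw [e, ps_A] at h
    have h1 : co v = 0 := congrArg Prod.fst h
    have h2 : ((NUF.Cyl.ri v : ℤ) : ZMod (2 * k)) = k := congrArg (fun p : V (2 * k) => p.2.1) h
    refine ⟨⟨(by decide : ((-1, 1) : Pt) ∈ dirs), hv, ?_⟩, ?_⟩
    · show Vt (v + (-1, 1))
      rw [e, A_2]
      exact Vt_B' _ _
    · rw [e, A_2, ps_B, h1, h2, zero_sub]
  · rw [e, ps_B] at h
    have := congrArg (fun p : V (2 * k) => p.2.2) h
    simp at this

theorem wk_mem (hk : 1 ≤ k) {n : ℕ} {t : List Bool} (ht : t ∈ Wd k n) : wk k n t ∈ saws k n := by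
  obtain ⟨h1, h2, h3, h4⟩ := ht
  have hne : ∀ i j, 1 ≤ i → 1 ≤ j → i ≤ n + 1 → j ≤ n + 1 → wv k t i = wv k t j → i = j := by
    intro i j hi hj hi' hj' e
    rcases lt_trichotomy i j with h | h | h
    · exact absurd e (h2 i j hi h (by omega))
    · exact h
    · exact absurd e.symm (h2 j i hj h (by omega))
  rw [h1] at h3 h4
  refine ⟨?_, ?_, ?_, ?_⟩
  · intro i j hij
    have := hne (i.val + 1) (j.val + 1) (by omega) (by omega) (by omega) (by omega) hij
    exact Fin.ext (by omega)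
  · exact wv_one t
  · exact h3
  · intro i
    rw [SimpleGraph.deleteEdges_adj]
    have hi := i.2
    have e1 : wk k n t i.castSucc = wv k t (i.val + 1) := rfl
    have e2 : wk k n t i.succ = wv k t (i.val + 2) := rfl
    rw [e1, e2]
    refine ⟨wv_adj t _, ?_⟩
    rw [Set.mem_insert_iff, Set.mem_singleton_iff, not_or]
    constructor
    · intro e
      unfold cut at e
      rw [Sym2.eq_iff] at e
      rcases e with ⟨a1, a2⟩ | ⟨a1, a2⟩
      · have a3 : wv k t (i.val + 2) = wv k t 1 := by rw [a2, wv_one]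
        have := hne _ _ (by omega) le_rfl (by omega) (by omega) a3
        omega
      · have a3 : wv k t (i.val + 1) = wv k t 1 := by rw [a1, wv_one]
        have a4 := hne _ _ (by omega) le_rfl (by omega) (by omega) a3
        have a5 : i.val = 0 := by omega
        rw [a5] at a2
        refine wv_ne_back hk t 0 ?_
        rw [wv_zero]
        exact a2
    · intro e
      unfold cut at e
      rw [Sym2.eq_iff] at e
      rcases e with ⟨a1, a2⟩ | ⟨a1, a2⟩
      · have a3 : wv k t (i.val + 2) = wv k t (n + 1) := by rw [a2, h3]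
        have a4 := hne _ _ (by omega) (by omega) (by omega) (by omega) a3
        have a5 : i.val + 1 = n := by omega
        rw [a5] at a1
        have a6 : De (vx (pL 0).1 (pL 0).2 t (n + 1), -dx (pL 0).2 t n) := de_back (de_w t n)
        have a7 : vx (pL 0).1 (pL 0).2 t (n + 1) + -dx (pL 0).2 t n = vx (pL 0).1 (pL 0).2 t n := by
          rw [vx_s, add_neg_cancel_right]
        have a8 := dv_last hk a6 h3 (by rw [a7]; exact a1)
        rw [← h4, dx_s] at a8
        exact turn_ne' _ (de_w t n).1 _ a8.symm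
      · have a3 : wv k t (i.val + 1) = wv k t (n + 1) := by rw [a1, h3]
        have := hne _ _ (by omega) (by omega) (by omega) (by omega) a3
        omega

theorem tf_ext {s t : List Bool} (hl : s.length = t.length) (h : ∀ i, i < s.length → tf s i = tf t i) : s = t := by
  refine List.ext_getElem hl fun i h1 h2 => ?_
  have := h i h1
  unfold tf at this
  rwa [List.getD_eq_getElem _ _ h1, List.getD_eq_getElem _ _ h2] at this

theorem turn_inj : ∀ d ∈ dirs, ∀ b c : Bool, turn b d = turn c d → b = c := by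
  decide

theorem wk_inj (hk : 1 ≤ k) {n : ℕ} {s t : List Bool} (hs : s ∈ Wd k n) (ht : t ∈ Wd k n)
    (h : wk k n s = wk k n t) : s = t := by
  obtain ⟨s1, -, s3, s4⟩ := hs
  obtain ⟨t1, -, t3, t4⟩ := ht
  have key : ∀ i, i ≤ n → vx (pL 0).1 (pL 0).2 s i = vx (pL 0).1 (pL 0).2 t i ∧
      dx (pL 0).2 s i = dx (pL 0).2 t i ∧ (∀ j, j < i → tf s j = tf t j) := by
    intro i
    induction i with
    | zero => exact fun _ => ⟨rfl, rfl, fun j hj => absurd hj (by omega)⟩
    | succ i ih =>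
      intro hi
      obtain ⟨a1, a2, a3⟩ := ih (by omega)
      have b1 : vx (pL 0).1 (pL 0).2 s (i + 1) = vx (pL 0).1 (pL 0).2 t (i + 1) := by
        rw [vx_s, vx_s, a1, a2]
      have b2 : wv k s (i + 2) = wv k t (i + 2) := congrFun h ⟨i + 1, by omega⟩
      have b3 : dx (pL 0).2 s (i + 1) = dx (pL 0).2 t (i + 1) := by
        have c1 := de_w s (i + 1)
        have c2 := de_w t (i + 1)
        rw [b1] at c1
        refine dir_inj (N := 2 * k) (by omega) c1 c2 ?_
        have b2' : ps (2 * k) (vx (pL 0).1 (pL 0).2 s (i + 1) + dx (pL 0).2 s (i + 1)) =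
          ps (2 * k) (vx (pL 0).1 (pL 0).2 t (i + 1) + dx (pL 0).2 t (i + 1)) := b2
        rwa [b1] at b2'
      refine ⟨b1, b3, fun j hj => ?_⟩
      rcases Nat.lt_succ_iff_lt_or_eq.1 hj with hj' | rfl
      · exact a3 j hj'
      · rw [dx_s, dx_s, a2] at b3
        exact turn_inj _ (de_w t _).1 _ _ b3
  obtain ⟨a1, a2, a3⟩ := key n le_rfl
  refine tf_ext (by omega) fun i hi => ?_
  rcases Nat.lt_or_ge i n with hj | hj
  · exact a3 i hj
  · have hin : i = n := by omega
    subst hin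
    rw [s1] at s4
    rw [t1] at t4
    rw [← t4, dx_s, dx_s, a2] at s4
    exact turn_inj _ (de_w t _).1 _ _ s4

theorem wk_surj (hk : 1 ≤ k) {n : ℕ} {w : Fin (n + 1) → V (2 * k)} (hw : w ∈ saws k n) :
    ∃ t ∈ Wd k n, wk k n t = w := by
  obtain ⟨h1, h2, h3, h4⟩ := hw
  have hk0 : ((0 : ℤ), ((0 : ZMod (2 * k)), false)) ≠ (0, (k : ZMod (2 * k)), false) := by
    intro e
    have e1 : (0 : ZMod (2 * k)) = (k : ZMod (2 * k)) := congrArg (fun p : V (2 * k) => p.2.1) e
    have e2 : ((k : ℕ) : ZMod (2 * k)) = 0 := e1.symm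
    rw [ZMod.natCast_eq_zero_iff] at e2
    have := Nat.le_of_dvd (by omega) e2
    omega
  have key : ∀ j, j ≤ n → ∃ t : List Bool, t.length = j ∧ ∀ i (hi : i ≤ j) (hn : i ≤ n),
      wv k t (i + 1) = w ⟨i, by omega⟩ := by
    intro j
    induction j with
    | zero =>
      intro _
      refine ⟨[], rfl, fun i hi hn => ?_⟩
      have : i = 0 := by omega
      subst this
      rw [wv_one]
      exact h2.symm
    | succ j ih =>
      intro hj
      obtain ⟨t, t1, t2⟩ := ih (by omega)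
      have a1 := h4 ⟨j, by omega⟩
      rw [SimpleGraph.deleteEdges_adj, Set.mem_insert_iff, Set.mem_singleton_iff, not_or] at a1
      obtain ⟨a2, a3, a4⟩ := a1
      have e1 : w (Fin.castSucc ⟨j, by omega⟩) = wv k t (j + 1) := (t2 j le_rfl (by omega)).symm
      have e2 : w (Fin.succ ⟨j, by omega⟩) = w ⟨j + 1, by omega⟩ := rfl
      rw [e1, e2] at a2 a3 a4
      obtain ⟨d, d1, d2⟩ := adj_lift (2 * k) (v := vx (pL 0).1 (pL 0).2 t (j + 1)) (de_w t (j + 1)).2.1 a2
      have hst : De (vx (pL 0).1 (pL 0).2 t j + dx (pL 0).2 t j, d) := d1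
      rcases step_cases (de_w t j) hst with b1 | ⟨b, b1⟩
      · exfalso
        have b2 : w ⟨j + 1, by omega⟩ = wv k t j := by
          rw [d2, b1, vx_s, add_neg_cancel_right]
          rfl
        rcases Nat.eq_zero_or_pos j with hj0 | hj0
        · subst hj0
          rw [wv_zero] at b2
          apply a3
          rw [wv_one, b2]
          unfold cut
          exact Sym2.eq_swap
        · have b3 := t2 (j - 1) (by omega) (by omega)
          rw [Nat.sub_add_cancel hj0] at b3
          rw [b3] at b2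
          have b4 := congrArg Fin.val (h1 b2)
          simp only at b4
          omega
      · refine ⟨t ++ [b], by simp [t1], fun i hi hn => ?_⟩
        unfold wv
        rcases Nat.lt_or_ge i (j + 1) with hij | hij
        · rw [vx_append (by omega)]
          exact t2 i (by omega) hn
        · have hij' : i = j + 1 := by omega
          subst hij'
          rw [vx_s, vx_append (by omega), dx_s, dx_append (by omega)]
          have b4 : tf (t ++ [b]) j = b := by
            have := tf_append_right (t := t) (s := [b]) 0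
            rw [add_zero, t1] at this
            rw [this]
            rfl
          rw [b4, ← b1]
          exact d2.symm
  obtain ⟨t, t1, t2⟩ := key n le_rfl
  have hlast : wv k t (n + 1) = (0, (k : ZMod (2 * k)), false) := (t2 n le_rfl le_rfl).trans h3
  obtain ⟨c1, c2⟩ := back_last (k := k) (v := vx (pL 0).1 (pL 0).2 t (n + 1)) (de_w t (n + 1)).2.1 hlast
  have hst : De (vx (pL 0).1 (pL 0).2 t n + dx (pL 0).2 t n, ((-1, 1) : Pt)) := c1
  have hn0 : n ≠ 0 := by
    rintro rfl
    rw [wv_one] at hlast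
    exact hk0 hlast
  obtain ⟨m, hm⟩ := Nat.exists_eq_succ_of_ne_zero hn0
  rcases step_cases (de_w t n) hst with b1 | ⟨b, b1⟩
  · exfalso
    have b2 : wv k t n = (-1, (k : ZMod (2 * k)), true) := by
      rw [← c2, b1, vx_s, add_neg_cancel_right]
      rfl
    have a1 := h4 ⟨m, by omega⟩
    rw [SimpleGraph.deleteEdges_adj, Set.mem_insert_iff, Set.mem_singleton_iff, not_or] at a1
    apply a1.2.2
    have e1 : w (Fin.castSucc ⟨m, by omega⟩) = wv k t n :=
      (t2 m (by omega) (by omega)).symm.trans (congrArg (wv k t) hm.symm)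
    have e2 : w (Fin.succ ⟨m, by omega⟩) = wv k t (n + 1) := by
      rw [t2 n le_rfl le_rfl]
      exact congrArg w (Fin.ext (by simp [hm]))
    rw [e1, e2, b2, hlast]
    rfl
  · have hv : ∀ i, i ≤ n + 1 → wv k (t ++ [b]) i = wv k t i := fun i hi => by
      unfold wv
      rw [vx_append (by omega)]
    have htf : tf (t ++ [b]) n = b := by
      have := tf_append_right (t := t) (s := [b]) 0
      rw [add_zero, t1] at this
      rw [this]
      rfl
    have hll : (t ++ [b]).length = n + 1 := by simp [t1]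
    refine ⟨t ++ [b], ⟨hll, ?_, ?_, ?_⟩, ?_⟩
    · intro i j hi hij hj
      rw [hll] at hj
      rw [hv i (by omega), hv j hj]
      have f1 := t2 (i - 1) (by omega) (by omega)
      have f2 := t2 (j - 1) (by omega) (by omega)
      rw [Nat.sub_add_cancel hi] at f1
      rw [Nat.sub_add_cancel (by omega : 1 ≤ j)] at f2
      rw [f1, f2]
      intro e
      have := congrArg Fin.val (h1 e)
      simp only at this
      omega
    · rw [hll, hv _ le_rfl]
      exact hlast
    · rw [hll, dx_s, dx_append (by omega), htf]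
      exact b1.symm
    · funext i
      have := t2 i.val (by omega) (by omega)
      unfold wk
      rw [hv _ (by omega), this]

/-- **The words are the walks.** -/
theorem card_words (hk : 1 ≤ k) (n : ℕ) : (Wd k n).ncard = (saws k n).ncard :=
  Set.ncard_congr (fun t _ => wk k n t) (fun _ ht => wk_mem hk ht) (fun _ _ hs ht h => wk_inj hk hs ht h)
    (fun _ hw => by
      obtain ⟨t, ht, e⟩ := wk_surj hk hw
      exact ⟨t, ht, e⟩)

/-! ### the sum -/

theorem zc_eq : zc = xc := by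
  have h1 := xc_sq
  have h2 : 0 < xc := xc_pos
  have h3 : 0 ≤ zc := by
    unfold zc
    positivity
  have h4 : zc ^ 2 = 1 / (2 + √2) := by
    unfold zc
    rw [div_pow, one_pow, Real.sq_sqrt (by positivity)]
  have h5 : zc ^ 2 = xc ^ 2 := by rw [h4, h1]
  exact (pow_left_inj₀ h3 h2.le (by norm_num)).1 h5

/-- the words of the rings -m, ..., m - 1. -/
noncomputable def Fm (hk : 1 ≤ k) (m : ℕ) : Finset (List Bool) :=
  ((Cy (2 * k) (GLD.two_k hk)).arr (Om (2 * k) m) (pL 0)).filter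
    (fun t => (Cy (2 * k) (GLD.two_k hk)).rv ((Cy (2 * k) (GLD.two_k hk)).le (pL 0) t) ∈ ({pL (k : ℤ)} : Finset (Pt × Pt)))

theorem mem_Fm (hk : 1 ≤ k) (m : ℕ) (t : List Bool) : t ∈ Fm hk m ↔
    (Cy (2 * k) (GLD.two_k hk)).Arr (Om (2 * k) m) (pL 0) t ∧
      (Cy (2 * k) (GLD.two_k hk)).rv ((Cy (2 * k) (GLD.two_k hk)).le (pL 0) t) = pL (k : ℤ) := by
  unfold Fm
  rw [Finset.mem_filter, Nm.mem_arr, Finset.mem_singleton]

theorem gf_Fm (hk : 1 ≤ k) (m : ℕ) : gf (Fm hk m : Set (List Bool)) = ENNReal.ofReal (GLD.Wm hk m) := by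
  rw [gf_finset]
  rfl

theorem Fm_mono (hk : 1 ≤ k) : Monotone fun m => (Fm hk m : Set (List Bool)) := by
  intro m m' h t ht
  rw [Finset.mem_coe, mem_Fm] at ht ⊢
  exact ⟨GLD.arr_mono (GLD.Om_mono h) ht.1, ht.2⟩

theorem iUnion_eq (hk : 1 ≤ k) : (⋃ n, Wd k n) = ⋃ m, (Fm hk m : Set (List Bool)) := by
  ext t
  rw [Set.mem_iUnion, Set.mem_iUnion, ← mem_words hk]
  constructor
  · rintro ⟨⟨m, hm⟩, h⟩
    exact ⟨m, (mem_Fm hk m t).2 ⟨hm, h⟩⟩
  · rintro ⟨m, hm⟩
    rw [Finset.mem_coe, mem_Fm] at hm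
    exact ⟨⟨m, hm.1⟩, hm.2⟩

theorem gf_all (hk : 1 ≤ k) : gf (⋃ n, Wd k n) = ENNReal.ofReal (GLD.W0 hk).re := by
  refine le_antisymm ?_ ?_
  · refine gf_le_of_mono_union _ (Fm_mono hk) (iUnion_eq hk).le fun m => ?_
    rw [gf_Fm]
    exact ENNReal.ofReal_le_ofReal (GLD.Wm_le hk m)
  · rw [GLD.W0_iSup]
    refine iSup_le fun m => ?_
    rw [← gf_Fm, iUnion_eq hk]
    exact gf_mono (Set.subset_iUnion (fun m => (Fm hk m : Set (List Bool))) m)

theorem gf_len' {S : Set (List Bool)} {n : ℕ} (h : ∀ t ∈ S, t.length = n) :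
    gf S = ENNReal.ofReal ((S.ncard : ℝ) * xc ^ n) := by
  have hfin : S.Finite := (List.finite_length_eq Bool n).subset h
  have := hfin.fintype
  have h1 : gf S = ∑' _ : S, ENNReal.ofReal (xc ^ n) := by
    unfold gf
    apply tsum_congr
    intro t
    unfold wE
    rw [h t t.2]
  rw [h1, tsum_fintype, Finset.sum_const, Finset.card_univ, nsmul_eq_mul, ← Nat.card_eq_fintype_card,
    Nat.card_coe_set_eq, ENNReal.ofReal_mul (Nat.cast_nonneg _), ENNReal.ofReal_natCast]

theorem gf_disj {F : ℕ → Set (List Bool)} (h : ∀ i j, i ≠ j → Disjoint (F i) (F j)) :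
    gf (⋃ n, F n) = ∑' n, gf (F n) := by
  unfold gf
  apply ENNReal.tsum_biUnion
  intro i _ j _ hij
  exact h i j hij

/-- **The two-point function is the generating function of the walks.** -/
theorem hasSum_W0 (hk : 1 ≤ k) :
    HasSum (fun n : ℕ => ((saws k n).ncard : ℝ) * zc ^ (n + 1)) (GLD.W0 hk).re := by
  have hd : ∀ i j : ℕ, i ≠ j → Disjoint (Wd k i) (Wd k j) := by
    intro i j hij
    rw [Set.disjoint_left]
    intro t h1 h2
    have := h1.1.symm.trans h2.1
    omega
  have h1 := gf_all hk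
  rw [gf_disj hd] at h1
  have h2 : ∀ n, gf (Wd k n) = ENNReal.ofReal (((saws k n).ncard : ℝ) * zc ^ (n + 1)) := fun n => by
    rw [gf_len' (n := n + 1) fun t ht => ht.1, card_words hk, zc_eq]
  simp only [h2] at h1
  have hnn : ∀ n : ℕ, 0 ≤ ((saws k n).ncard : ℝ) * zc ^ (n + 1) := fun n => by
    rw [zc_eq]
    exact mul_nonneg (Nat.cast_nonneg _) (pow_nonneg xc_pos.le _)
  have h3 : Summable fun n : ℕ => ((saws k n).ncard : ℝ) * zc ^ (n + 1) := by
    have h4 := ENNReal.summable_toReal (f := fun n : ℕ => ENNReal.ofReal (((saws k n).ncard : ℝ) * zc ^ (n + 1)))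
      (by rw [h1]; exact ENNReal.ofReal_ne_top)
    refine h4.congr fun n => ?_
    rw [ENNReal.toReal_ofReal (hnn n)]
  have h5 := ENNReal.ofReal_tsum_of_nonneg hnn h3
  rw [h1] at h5
  have h6 : ∑' n : ℕ, ((saws k n).ncard : ℝ) * zc ^ (n + 1) = (GLD.W0 hk).re :=
    (ENNReal.ofReal_eq_ofReal_iff (tsum_nonneg hnn) (GLD.W0_real hk).2.1).1 h5
  rw [← h6]
  exact h3.hasSum

end Pool.Agent.CylSaw
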