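import Pool.Agent.PB.CylPub
import Pool.Agent.PB.Main

/-!
# The two-point function of the cylinder graph (helper69): the public form of a sharp law

`two_point` turns a law of `PBM.W0r` for all large `k` into a law of the generating function of the self-avoiding
walks of the honeycomb cylinder for all `k ≥ 1`.
-/

set_option autoImplicit false

namespace Pool.Agent.CylSaw

open Filter

theorem hasSum_W0r {k : ℕ} (hk : 1 ≤ k) :
    HasSum (fun n : ℕ => ((saws k n).ncard : ℝ) * zc ^ (n + 1)) (PBM.W0r k) := by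
  rw [PBM.W0r_eq hk]
  exact hasSum_W0 hk

/-- **from the sequence to the walks.** -/
theorem two_point {a b : ℝ} (h : ∃ A C : ℝ, 0 < A ∧ 0 ≤ C ∧ ∀ᶠ k : ℕ in atTop,
      |PBM.W0r k * (k : ℝ) ^ a - A| ≤ C * (k : ℝ) ^ b) :
    ∃ A C : ℝ, 0 < A ∧ ∀ k : ℕ, 1 ≤ k → ∃ G : ℝ,
      HasSum (fun n : ℕ => ((saws k n).ncard : ℝ) * zc ^ (n + 1)) G ∧
      |G * (k : ℝ) ^ a - A| ≤ C * (k : ℝ) ^ b := by
  obtain ⟨A, C, hA, hC, h1⟩ := h
  obtain ⟨K, hK⟩ := eventually_atTop.1 h1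
  refine ⟨A, C + ∑ j ∈ Finset.range K, |PBM.W0r j * (j : ℝ) ^ a - A| / (j : ℝ) ^ b, hA, fun k hk =>
    ⟨PBM.W0r k, hasSum_W0r hk, ?_⟩⟩
  have hk0 : (0 : ℝ) < (k : ℝ) ^ b := Real.rpow_pos_of_pos (by exact_mod_cast hk) _
  have hnn : ∀ j ∈ Finset.range K, 0 ≤ |PBM.W0r j * (j : ℝ) ^ a - A| / (j : ℝ) ^ b := fun j _ =>
    div_nonneg (abs_nonneg _) (Real.rpow_nonneg (Nat.cast_nonneg j) _)
  rcases lt_or_ge k K with hkK | hkK
  · have h2 := Finset.single_le_sum hnn (Finset.mem_range.2 hkK)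
    have h3 : |PBM.W0r k * (k : ℝ) ^ a - A| = |PBM.W0r k * (k : ℝ) ^ a - A| / (k : ℝ) ^ b * (k : ℝ) ^ b := by
      field_simp
    rw [h3]
    exact mul_le_mul_of_nonneg_right (by linarith) hk0.le
  · refine (hK k hkK).trans (mul_le_mul_of_nonneg_right ?_ hk0.le)
    have := Finset.sum_nonneg hnn
    linarith

end Pool.Agent.CylSaw
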