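import Pool.Agent.PB.WHGas
import Pool.Agent.PB.BsG0
import Pool.Agent.PB.Mst0
import Pool.Agent.NUQ2.PreL

/-!
# Rows `± l / 2` (and any rows, the same in both groups): the data (helper39)

* `RX β x p q ex ex0` : the same rows `x` in both groups, ends `p`, `q`, standard cutoffs; `RX_Ok`, `REq_RX`;
  `RX_KF`, `RX_thE`: closed forms;
* `Cnt x n0 np nm` : `n0` rows at `0`, `np` at `l / 2`, `nm` at `- l / 2`; `rowM`: such rows;
* `cnt_hy`, `PE_hxy`: the alternating rows of the honeycomb cylinder;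
* `nrH k`, **`phys_EED_H`** : the normalised numerator at the rows `± l / 2` is `nrH k * ∑ EED`, every `k ≥ 2`;
* **`norm_nrH_odd`**, **`norm_nrH_even`** : `‖nrH k‖` against the mean field: for `k` even the constant is that of the
  rows `0`, for `k` odd it has the additional factor `√(4 + 2 √2) / 2`.
-/

set_option autoImplicit false
set_option linter.unusedSectionVars false
set_option linter.unusedVariables false

noncomputable section

open Complex MeasureTheory Filter Topology

namespace PBX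

open NUP1 NUP1S NUP1.Bd NURow
open NUP1.Leg (thE cc kap)
open PBR (REq)

/-- the same rows in both groups, standard cutoffs -/
def RX {m : ℕ} (β : ℝ) (x : Fin m → ℂ) (p q : ℂ) (ex ex0 : List ℂ) : RD m :=
  ⟨cc m, cc m, β, x, x, p, q, gP β ex, gP β ex, gP (4 / 3) ex0, gP (4 / 3) ex0⟩

section

variable {m : ℕ} {β : ℝ} {x : Fin m → ℂ} {p q : ℂ} {ex ex0 : List ℂ}

theorem RX_Ok (hβ : 0 < β) (hβ' : β ≤ 4 / 3) (hx : Rws x) (nx : ∀ i, (x i).re ≠ l / 4)
    (hp : |p.re| ≤ l / 2) (hq : |q.re| ≤ l / 2) (hex : ∀ w ∈ ex, |w.re| ≤ l / 2)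
    (hex0 : ∀ w ∈ ex0, |w.re| ≤ l / 2) : (RX β x p q ex ex0).Ok := by
  have h := R0_Ok m hβ hβ' hex hex0
  exact ⟨h.b0, h.b1, hx, hx, hp, hq, nx, nx, h.gg, h.gg', h.gg0, h.gg0'⟩

theorem REq_RX (hex : ∀ w ∈ ex, |w.re| ≤ l / 2) :
    REq (RX β x p q ex ex0) ex ex0 (2 * Real.cos l) where
  xy := rfl
  g := rfl
  g' := rfl
  g0 := rfl
  g0' := rfl
  c := norm_cc m
  c' := norm_cc m
  hex := hex

/-- prefactor of a half quantum of species `X` -/
theorem RX_KF (w : ℂ) : (RX β x p q ex ex0).KF w =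
    kap (w - p) * sin (w - q + 3 * l) * ∏ i, (sin (w - x i + 3 * l) / sin (w - x i)) := by
  show kap (w - p) * sin (w - q + 3 * l) * (∏ i, 1 / sin (w - x i)) * (∏ i, sin (w - x i + 3 * l)) = _
  rw [mul_assoc, ← Finset.prod_mul_distrib]
  congr 1
  exact Finset.prod_congr rfl fun i _ => by rw [one_div, inv_mul_eq_div]

theorem RX_KF' (w : ℂ) : (RX β x p q ex ex0).KF' w =
    kap (w - q) * sin (w - p + 3 * l) * ∏ i, (sin (w - x i + 3 * l) / sin (w - x i)) :=
  RX_KF (β := β) (x := x) (p := q) (q := p) (ex := ex) (ex0 := ex0) w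

theorem RR_rc (c : ℂ) (x : Fin m → ℂ) (u : ℂ) : RR c x x u = c * ∏ i, rc0 (u - x i) := by
  unfold RR rc0
  rw [mul_assoc, mul_assoc, ← Finset.prod_mul_distrib, ← Finset.prod_mul_distrib]
  congr 1
  refine Finset.prod_congr rfl fun i _ => ?_
  field_simp

/-- a quantum -/
theorem RX_X (u : ℂ) : (RX β x p q ex ex0).X none u =
    cc m * (∏ i, rc0 (u - x i)) * ph β x (gP β ex) u * thE p p q q u := by
  show RR (cc m) x x u * ph β x (gP β ex) u * thE p p q q u = _
  rw [RR_rc]

theorem RX_Y (u : ℂ) : (RX β x p q ex ex0).Y none u =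
    cc m * (∏ i, rc0 (u - x i)) * ph β x (gP β ex) u * thE q q p p u := by
  show RR (cc m) x x u * ph β x (gP β ex) u * thE q q p p u = _
  rw [RR_rc]

/-- the ends -/
theorem thE_ends (p q u : ℂ) : thE p p q q u =
    (sin (u - p + 3 * l) / sin (u - p - 2 * l)) * (sin (u - q + 3 * l) / sin (u - q - 2 * l)) := by
  rw [thE_Lg]
  unfold Lg
  rw [show p - u - 3 * (l : ℂ) = -(u - p + 3 * l) by ring, show p - u + 2 * (l : ℂ) = -(u - p - 2 * l) by ring,
    show q - u - 3 * (l : ℂ) = -(u - q + 3 * l) by ring, show q - u + 2 * (l : ℂ) = -(u - q - 2 * l) by ring]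
  simp only [Complex.sin_neg, neg_div_neg_eq]

/-- one end is half a row and half a phase: its square is the factor of one row times `th0` -/
theorem end_sq {r u : ℂ} (h : sin (u - r) ≠ 0) :
    (sin (u - r + 3 * l) / sin (u - r - 2 * l)) ^ 2 = rc0 (u - r) * th0 (u - r) := by
  unfold rc0 th0
  rw [div_mul_div_comm, mul_right_comm, mul_comm (sin (u - r) * sin (u - r - 2 * l)),
    mul_comm (sin (u - r)), ← mul_assoc, mul_div_mul_right _ _ h, div_pow, sq (sin (u - r - 2 * l))]

/-! ### rows in three places -/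

/-- `n0` rows at `0`, `np` at `l / 2`, `nm` at `- l / 2` -/
structure Cnt (x : Fin m → ℂ) (n0 np nm : ℕ) : Prop where
  pr : ∀ f : ℂ → ℂ, ∏ i, f (x i) = f 0 ^ n0 * f ((l : ℂ) / 2) ^ np * f (-((l : ℂ) / 2)) ^ nm
  val : ∀ i, x i = 0 ∨ x i = (l : ℂ) / 2 ∨ x i = -((l : ℂ) / 2)

theorem re_half : ((l : ℂ) / 2).re = l / 2 := by
  rw [show (l : ℂ) / 2 = ((l / 2 : ℝ) : ℂ) by push_cast; rfl, ofReal_re]

theorem Cnt.rws {n0 np nm : ℕ} (h : Cnt x n0 np nm) : Rws x := by
  have hl := Bd.l_pos
  intro i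
  rcases h.val i with e | e | e
  · rw [e, zero_re, abs_zero]
    linarith
  · rw [e, re_half, abs_of_pos (by linarith)]
  · rw [e, neg_re, abs_neg, re_half, abs_of_pos (by linarith)]

theorem Cnt.nx {n0 np nm : ℕ} (h : Cnt x n0 np nm) (i : Fin m) : (x i).re ≠ l / 4 := by
  have hl := Bd.l_pos
  rcases h.val i with e | e | e
  · rw [e, zero_re]
    exact ne_of_lt (by linarith)
  · rw [e, re_half]
    exact ne_of_gt (by linarith)
  · rw [e, neg_re, re_half]
    exact ne_of_lt (by linarith)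

theorem Cnt.pe {n0 np nm : ℕ} (h : Cnt x n0 np nm) {x' : Fin m → ℂ} (h' : Cnt x' n0 np nm) :
    NUP1.N.PE x x' := fun f => (h.pr f).trans (h'.pr f).symm

end

/-- rows in three places -/
def rowM (n0 np nm : ℕ) (i : Fin (n0 + np + nm)) : ℂ :=
  if i.val < n0 then 0 else if i.val < n0 + np then (l : ℂ) / 2 else -((l : ℂ) / 2)

theorem cnt_rowM (n0 np nm : ℕ) : Cnt (rowM n0 np nm) n0 np nm where
  pr f := by
    set g : ℕ → ℂ := fun j => if j < n0 then f 0 else if j < n0 + np then f ((l : ℂ) / 2) else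
      f (-((l : ℂ) / 2)) with hg
    have e : ∀ i : Fin (n0 + np + nm), f (rowM n0 np nm i) = g i.val := by
      intro i
      rw [hg]
      unfold rowM
      beta_reduce
      by_cases h1 : i.val < n0
      · rw [if_pos h1, if_pos h1]
      · by_cases h2 : i.val < n0 + np
        · rw [if_neg h1, if_neg h1, if_pos h2, if_pos h2]
        · rw [if_neg h1, if_neg h1, if_neg h2, if_neg h2]
    rw [Finset.prod_congr rfl fun i _ => e i, Fin.prod_univ_eq_prod_range g, Finset.prod_range_add,
      Finset.prod_range_add]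
    congr 1
    · congr 1
      · rw [Finset.prod_congr rfl fun i hi => if_pos (Finset.mem_range.1 hi), Finset.prod_const,
          Finset.card_range]
      · have e2 : ∀ j ∈ Finset.range np, (if n0 + j < n0 then f 0 else if n0 + j < n0 + np then
            f ((l : ℂ) / 2) else f (-((l : ℂ) / 2))) = f ((l : ℂ) / 2) := by
          intro j hj
          have := Finset.mem_range.1 hj
          rw [if_neg (by omega), if_pos (by omega)]
        rw [Finset.prod_congr rfl e2, Finset.prod_const, Finset.card_range]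
    · have e2 : ∀ j ∈ Finset.range nm, (if n0 + np + j < n0 then f 0 else if n0 + np + j < n0 + np then
          f ((l : ℂ) / 2) else f (-((l : ℂ) / 2))) = f (-((l : ℂ) / 2)) := by
        intro j hj
        rw [if_neg (by omega), if_neg (by omega)]
      rw [Finset.prod_congr rfl e2, Finset.prod_const, Finset.card_range]
  val i := by
    unfold rowM
    split_ifs
    · exact Or.inl rfl
    · exact Or.inr (Or.inl rfl)
    · exact Or.inr (Or.inr rfl)

end PBX

end
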