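import Pool.Agent.PB.ForceK

/-!
# Plan B: the field of a row at rows on the imaginary axis

`xiR x i0 u = pc (u - l - x i0) / rhoR x u`, rows `x i = i h_i`, `|h_i| ≤ 1`, `m` rows.
For every `b < l` there is a constant `C`, independent of `m`, of the rows and of `i0`, with

* `xiR_le` : `‖xiR u‖ ≤ C / m`;
* `xiR_right`, `xiR_left` : `‖xiR u - xiP‖ ≤ (C / m) exp (- 32/3 |Im u|)` for `Im u ≥ 0` and the
  same with `xiM` for `Im u ≤ 0`;
* `xiR_deriv` : `‖xiR' u‖ ≤ (C / m) exp (- 32/3 |Im u|)`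

for `|Re (u - l)| ≤ b`; `rhoR_low`, `rhoR_up` : two sided bounds of the density.
-/

set_option autoImplicit false

noncomputable section

open MeasureTheory Set Filter Topology Metric

namespace PBForce

open NUP1

/-! ### the asymptotic form of the density -/

/-- the exponential of the right end -/
def yE (w : ℂ) : ℂ := Complex.exp (Complex.I * (8 / 3 * w))

lemma norm_yE (w : ℂ) : ‖yE w‖ = Real.exp (-(8 / 3 * w.im)) := by
  unfold yE
  rw [Complex.norm_exp]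
  congr 1
  rw [Complex.mul_re, Complex.I_re, Complex.I_im, zero_mul, one_mul, zero_sub, im_83]

lemma cos_yE (w : ℂ) : Complex.cos (8 / 3 * w) = (yE w + (yE w)⁻¹) / 2 := by
  unfold yE Complex.cos
  rw [← Complex.exp_neg]
  congr 3
  · ring
  · ring

/-- the constant of the density -/
def c1 : ℝ := 8 / (√3 * Real.pi)

lemma c1_pos : 0 < c1 := by unfold c1; positivity

/-- lower bounds in a strip -/
lemma strip_low {b : ℝ} (hb0 : 0 ≤ b) (hb : b < l) {w : ℂ} (hw : |w.re| ≤ b) :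
    0 < 2 * Real.cos (8 / 3 * b) - 1 ∧
    (2 * Real.cos (8 / 3 * b) - 1) * Real.cosh (8 / 3 * w.im) ≤ ‖2 * Complex.cos (8 / 3 * w) - 1‖ ∧
    (2 * Real.cos (8 / 3 * b) - 1) * Real.cosh (8 / 3 * w.im) ≤ ‖2 * Complex.cos (8 / 3 * w) + 1‖ ∧
    (2 * Real.cos (8 / 3 * b) - 1) * Real.cosh (8 / 3 * w.im) ≤
      (2 * Complex.cos (8 / 3 * w) - 1).re ∧
    (2 * Real.cos (8 / 3 * b) - 1) * Real.cosh (8 / 3 * w.im) ≤
      (2 * Complex.cos (8 / 3 * w) + 1).re := by
  have hb' : b < NUMF.l := hb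
  obtain ⟨hc, h0, hp⟩ := cos_b hb0 hb'
  have hw' : |(8 / 3 * w : ℂ).re| ≤ 8 / 3 * b := by
    rw [re_83, abs_mul, abs_of_pos (by norm_num : (0:ℝ) < 8 / 3)]
    linarith
  obtain ⟨l1, l2⟩ := cos_low hc hp hw'
  rw [im_83] at l1 l2
  have hch : 1 ≤ Real.cosh (8 / 3 * w.im) := Real.one_le_cosh _
  have h1 : Real.cos (8 / 3 * b) ≤ Real.cos (8 / 3 * w.re) := by
    rw [← Real.cos_abs (8 / 3 * w.re)]
    refine Real.cos_le_cos_of_nonneg_of_le_pi (abs_nonneg _) hp ?_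
    rw [← re_83]
    exact hw'
  have h2 : (Complex.cos (8 / 3 * w)).re = Real.cos (8 / 3 * w.re) * Real.cosh (8 / 3 * w.im) := by
    rw [cos_re', re_83, im_83]
  refine ⟨by linarith, l1, l2, ?_, ?_⟩
  · have : (2 * Complex.cos (8 / 3 * w) - 1).re = 2 * (Complex.cos (8 / 3 * w)).re - 1 := by simp
    rw [this, h2]
    nlinarith
  · have : (2 * Complex.cos (8 / 3 * w) + 1).re = 2 * (Complex.cos (8 / 3 * w)).re + 1 := by simp
    rw [this, h2]
    nlinarith

/-- **asymptotic form of the density** -/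
theorem pc_asym {b : ℝ} (hb0 : 0 ≤ b) (hb : b < l) : ∃ C : ℝ, 0 < C ∧ ∀ w : ℂ, |w.re| ≤ b →
    ‖pc w - c1 * yE w‖ ≤ C * ‖yE w‖ ^ 5 := by
  set D := 2 * Real.cos (8 / 3 * b) - 1 with hD
  have hD0 : 0 < D := (strip_low hb0 hb (w := 0) (by simpa using hb0)).1
  refine ⟨c1 * (4 / D ^ 2), mul_pos c1_pos (by positivity), fun w hw => ?_⟩
  obtain ⟨-, l1, l2, -, -⟩ := strip_low hb0 hb hw
  set y := yE w with hy
  have hy0 : y ≠ 0 := Complex.exp_ne_zero _
  have hyn : 0 < ‖y‖ := norm_pos_iff.2 hy0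
  have hch := Real.cosh_pos (8 / 3 * w.im)
  -- the denominator
  have e1 : y ^ 2 * ((2 * Complex.cos (8 / 3 * w) - 1) * (2 * Complex.cos (8 / 3 * w) + 1)) =
      1 + y ^ 2 + y ^ 4 := by
    rw [cos_yE, ← hy]
    field_simp
    ring
  have e2 : (1 / 2 : ℝ) ≤ ‖y‖ * Real.cosh (8 / 3 * w.im) := by
    rw [hy, norm_yE, Real.cosh_eq, mul_div_assoc', mul_add, ← Real.exp_add, ← Real.exp_add]
    have h3 : -(8 / 3 * w.im) + 8 / 3 * w.im = 0 := by ring
    rw [h3, Real.exp_zero]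
    have := Real.exp_pos (-(8 / 3 * w.im) + -(8 / 3 * w.im))
    linarith
  have hden : D ^ 2 / 4 ≤ ‖1 + y ^ 2 + y ^ 4‖ := by
    rw [← e1, norm_mul, norm_pow, norm_mul]
    have h4 : (D * Real.cosh (8 / 3 * w.im)) * (D * Real.cosh (8 / 3 * w.im)) ≤
        ‖2 * Complex.cos (8 / 3 * w) - 1‖ * ‖2 * Complex.cos (8 / 3 * w) + 1‖ :=
      mul_le_mul l1 l2 (by positivity) (norm_nonneg _)
    calc D ^ 2 / 4 = D ^ 2 * (1 / 2) ^ 2 := by ring
      _ ≤ D ^ 2 * (‖y‖ * Real.cosh (8 / 3 * w.im)) ^ 2 := by gcongr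
      _ = ‖y‖ ^ 2 * ((D * Real.cosh (8 / 3 * w.im)) * (D * Real.cosh (8 / 3 * w.im))) := by ring
      _ ≤ _ := by gcongr
  have hdpos : 0 < ‖1 + y ^ 2 + y ^ 4‖ := lt_of_lt_of_le (by positivity) hden
  have hd0 : 1 + y ^ 2 + y ^ 4 ≠ 0 := norm_pos_iff.1 hdpos
  have e3 : pc w = c1 * (y * (1 + y ^ 2) / (1 + y ^ 2 + y ^ 4)) := by
    have n1 : 2 * Complex.cos (8 / 3 * w) - 1 ≠ 0 :=
      norm_pos_iff.1 (lt_of_lt_of_le (mul_pos hD0 hch) l1)
    have n2 : 2 * Complex.cos (8 / 3 * w) + 1 ≠ 0 :=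
      norm_pos_iff.1 (lt_of_lt_of_le (mul_pos hD0 hch) l2)
    have e4 : Complex.cos (8 / 3 * w) /
        ((2 * Complex.cos (8 / 3 * w) - 1) * (2 * Complex.cos (8 / 3 * w) + 1)) =
        y * (1 + y ^ 2) / (1 + y ^ 2 + y ^ 4) / 2 := by
      rw [← e1]
      rw [div_div, div_eq_div_iff (mul_ne_zero n1 n2)
        (mul_ne_zero (mul_ne_zero (pow_ne_zero _ hy0) (mul_ne_zero n1 n2)) two_ne_zero)]
      have e5 : Complex.cos (8 / 3 * w) * (2 * y) = 1 + y ^ 2 := by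
        rw [cos_yE, ← hy]
        field_simp
        ring
      linear_combination (y * ((2 * Complex.cos (8 / 3 * w) - 1) *
        (2 * Complex.cos (8 / 3 * w) + 1))) * e5
    unfold pc c1
    rw [pc_split, e4]
    push_cast
    ring
  have e6 : pc w - c1 * y = -(c1 * (y ^ 5 / (1 + y ^ 2 + y ^ 4))) := by
    rw [e3]
    field_simp
    ring
  rw [e6, norm_neg, norm_mul, norm_div, norm_pow, Complex.norm_real, Real.norm_eq_abs,
    abs_of_pos c1_pos]
  calc c1 * (‖y‖ ^ 5 / ‖1 + y ^ 2 + y ^ 4‖) ≤ c1 * (‖y‖ ^ 5 / (D ^ 2 / 4)) := by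
        have := c1_pos
        gcongr
    _ = _ := by
      field_simp

/-- **lower bound of the real part of the density** -/
theorem pc_re_low {b : ℝ} (hb0 : 0 ≤ b) (hb : b < l) : ∃ c : ℝ, 0 < c ∧ ∀ w : ℂ, |w.re| ≤ b →
    c / Real.cosh (8 / 3 * w.im) ≤ (pc w).re := by
  set D := 2 * Real.cos (8 / 3 * b) - 1 with hD
  have hD0 : 0 < D := (strip_low hb0 hb (w := 0) (by simpa using hb0)).1
  refine ⟨4 / (√3 * Real.pi) * (D / 9), by positivity, fun w hw => ?_⟩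
  obtain ⟨-, l1, l2, r1, r2⟩ := strip_low hb0 hb hw
  rw [← hD] at l1 l2 r1 r2
  set C := Complex.cos (8 / 3 * w) with hC
  have hch : 1 ≤ Real.cosh (8 / 3 * w.im) := Real.one_le_cosh _
  have hch0 : 0 < Real.cosh (8 / 3 * w.im) := by linarith
  have hDc : 0 < D * Real.cosh (8 / 3 * w.im) := by positivity
  have n1 : 2 * C - 1 ≠ 0 := norm_pos_iff.1 (lt_of_lt_of_le hDc l1)
  have n2 : 2 * C + 1 ≠ 0 := norm_pos_iff.1 (lt_of_lt_of_le hDc l2)
  have hCn : ‖C‖ ≤ Real.cosh (8 / 3 * w.im) := by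
    have := norm_cos_le (8 / 3 * w)
    rwa [im_83] at this
  have u1 : ‖2 * C - 1‖ ≤ 3 * Real.cosh (8 / 3 * w.im) := by
    calc ‖2 * C - 1‖ ≤ ‖2 * C‖ + ‖(1 : ℂ)‖ := norm_sub_le _ _
      _ = 2 * ‖C‖ + 1 := by rw [norm_mul, norm_one]; simp
      _ ≤ _ := by linarith
  have u2 : ‖2 * C + 1‖ ≤ 3 * Real.cosh (8 / 3 * w.im) := by
    calc ‖2 * C + 1‖ ≤ ‖2 * C‖ + ‖(1 : ℂ)‖ := norm_add_le _ _
      _ = 2 * ‖C‖ + 1 := by rw [norm_mul, norm_one]; simp
      _ ≤ _ := by linarith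
  have inv_low : ∀ z : ℂ, z ≠ 0 → D * Real.cosh (8 / 3 * w.im) ≤ z.re →
      ‖z‖ ≤ 3 * Real.cosh (8 / 3 * w.im) → D / 9 / Real.cosh (8 / 3 * w.im) ≤ (z⁻¹).re := by
    intro z hz h1 h2
    rw [Complex.inv_re, ← Complex.sq_norm]
    have hz0 : 0 < ‖z‖ := norm_pos_iff.2 hz
    rw [div_div, div_le_div_iff₀ (by positivity) (by positivity)]
    calc D * ‖z‖ ^ 2 ≤ D * (3 * Real.cosh (8 / 3 * w.im)) ^ 2 := by gcongr
      _ = (D * Real.cosh (8 / 3 * w.im)) * (9 * Real.cosh (8 / 3 * w.im)) := by ring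
      _ ≤ _ := by gcongr
  have e : pc w = ((4 / (√3 * Real.pi) : ℝ) : ℂ) * ((2 * C - 1)⁻¹ + (2 * C + 1)⁻¹) := by
    have e0 : (2 * C - 1)⁻¹ + (2 * C + 1)⁻¹ = 4 * C / ((2 * C - 1) * (2 * C + 1)) := by
      field_simp
      ring
    unfold pc
    rw [pc_split, ← hC, e0]
    push_cast
    ring
  have k1 := inv_low _ n1 r1 u1
  have k2 := inv_low _ n2 r2 u2
  have k0 : 0 ≤ D / 9 / Real.cosh (8 / 3 * w.im) := by positivity
  rw [e, Complex.re_ofReal_mul, Complex.add_re, mul_div_assoc]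
  refine mul_le_mul_of_nonneg_left ?_ (by positivity)
  linarith

variable {m : ℕ}

/-- rows on the imaginary axis at heights `≤ 1` -/
structure Rws0 (x : Fin m → ℂ) : Prop where
  re : ∀ i, (x i).re = 0
  im : ∀ i, |(x i).im| ≤ 1

lemma Rws0.neg {x : Fin m → ℂ} (h : Rws0 x) : Rws0 fun i => -x i :=
  ⟨fun i => by rw [Complex.neg_re, h.re i, neg_zero], fun i => by
    rw [Complex.neg_im, abs_neg]; exact h.im i⟩

/-- reflection -/
lemma rhoR_refl (x : Fin m → ℂ) (u : ℂ) : rhoR (fun i => -x i) (2 * l - u) = rhoR x u := by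
  unfold rhoR
  refine Finset.sum_congr rfl fun i _ => ?_
  rw [← pc_neg]
  congr 1
  ring

lemma xiR_refl (x : Fin m → ℂ) (i0 : Fin m) (u : ℂ) :
    xiR (fun i => -x i) i0 (2 * l - u) = xiR x i0 u := by
  unfold xiR
  rw [rhoR_refl]
  congr 1
  rw [← pc_neg]
  congr 1
  ring

lemma cosh_le_exp (v : ℝ) : Real.cosh v ≤ Real.exp |v| := by
  rw [← Real.cosh_abs, Real.cosh_eq]
  have h1 : Real.exp (-|v|) ≤ Real.exp |v| := Real.exp_le_exp.2 (by linarith [abs_nonneg v])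
  linarith

lemma exp_le_cosh (v : ℝ) : Real.exp |v| / 2 ≤ Real.cosh v := by
  rw [← Real.cosh_abs, Real.cosh_eq]
  have h1 := Real.exp_pos (-|v|)
  linarith

/-- imaginary parts of the positions -/
lemma row_re {x : Fin m → ℂ} (h : Rws0 x) (u : ℂ) (i : Fin m) : (u - l - x i).re = (u - l).re := by
  rw [Complex.sub_re, h.re i, sub_zero]

lemma row_im (x : Fin m → ℂ) (u : ℂ) (i : Fin m) : (u - l - x i).im = u.im - (x i).im := by
  simp

/-- **lower bound of the density** -/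
theorem rhoR_low {b : ℝ} (hb0 : 0 ≤ b) (hb : b < l) : ∃ c : ℝ, 0 < c ∧
    ∀ (m : ℕ) (x : Fin m → ℂ), Rws0 x → ∀ u : ℂ, |(u - l).re| ≤ b →
      c * m * Real.exp (-(8 / 3 * |u.im|)) ≤ (rhoR x u).re := by
  obtain ⟨c, hc, hlow⟩ := pc_re_low hb0 hb
  refine ⟨c * Real.exp (-(8 / 3)), by positivity, fun m x hx u hu => ?_⟩
  unfold rhoR
  rw [Complex.re_sum]
  have h1 : ∀ i : Fin m, c * Real.exp (-(8 / 3)) * Real.exp (-(8 / 3 * |u.im|)) ≤
      (pc (u - l - x i)).re := by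
    intro i
    refine le_trans ?_ (hlow _ (by rw [row_re hx]; exact hu))
    rw [row_im, mul_assoc, ← Real.exp_add, le_div_iff₀ (Real.cosh_pos _)]
    have h2 := cosh_le_exp (8 / 3 * (u.im - (x i).im))
    have h3 : |8 / 3 * (u.im - (x i).im)| ≤ 8 / 3 * |u.im| + 8 / 3 := by
      rw [abs_mul, abs_of_pos (by norm_num : (0:ℝ) < 8 / 3)]
      have := abs_sub u.im (x i).im
      have := hx.im i
      linarith
    have h4 : Real.cosh (8 / 3 * (u.im - (x i).im)) ≤ Real.exp (8 / 3 * |u.im| + 8 / 3) :=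
      h2.trans (Real.exp_le_exp.2 h3)
    calc c * Real.exp (-(8 / 3) + -(8 / 3 * |u.im|)) * Real.cosh (8 / 3 * (u.im - (x i).im))
        ≤ c * Real.exp (-(8 / 3) + -(8 / 3 * |u.im|)) * Real.exp (8 / 3 * |u.im| + 8 / 3) := by
          gcongr
      _ = c := by
          rw [mul_assoc, ← Real.exp_add]
          rw [show -(8 / 3) + -(8 / 3 * |u.im|) + (8 / 3 * |u.im| + 8 / 3) = 0 by ring,
            Real.exp_zero, mul_one]
  calc c * Real.exp (-(8 / 3)) * m * Real.exp (-(8 / 3 * |u.im|))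
      = ∑ _i : Fin m, c * Real.exp (-(8 / 3)) * Real.exp (-(8 / 3 * |u.im|)) := by
        rw [Finset.sum_const, Finset.card_univ, Fintype.card_fin, nsmul_eq_mul]
        ring
    _ ≤ _ := Finset.sum_le_sum fun i _ => h1 i

/-- one row: upper bound of its density -/
theorem pc_row_le {b : ℝ} (hb0 : 0 ≤ b) (hb : b < l) : ∃ C : ℝ, 0 < C ∧
    ∀ (m : ℕ) (x : Fin m → ℂ), Rws0 x → ∀ u : ℂ, |(u - l).re| ≤ b → ∀ i,
      ‖pc (u - l - x i)‖ ≤ C * Real.exp (-(8 / 3 * |u.im|)) := by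
  have hD0 := (strip_low hb0 hb (w := 0) (by simpa using hb0)).1
  set D := 2 * Real.cos (8 / 3 * b) - 1 with hD
  have hb' : b < NUMF.l := hb
  refine ⟨16 / (√3 * Real.pi) / D ^ 2 * (2 * Real.exp (8 / 3)), by positivity,
    fun m x hx u hu i => ?_⟩
  have h1 := pc_le hb0 hb' (w := u - l - x i) (by rw [row_re hx]; exact hu)
  rw [← hD, row_im] at h1
  refine h1.trans ?_
  have hK : 0 < 16 / (√3 * Real.pi) / D ^ 2 := by positivity
  rw [div_eq_mul_inv, mul_assoc]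
  refine mul_le_mul_of_nonneg_left ?_ hK.le
  have h2 := exp_le_cosh (8 / 3 * (u.im - (x i).im))
  have h3 : 8 / 3 * |u.im| - 8 / 3 ≤ |8 / 3 * (u.im - (x i).im)| := by
    rw [abs_mul, abs_of_pos (by norm_num : (0:ℝ) < 8 / 3)]
    have := abs_sub_abs_le_abs_sub u.im (x i).im
    have := hx.im i
    linarith
  have h4 : Real.exp (8 / 3 * |u.im| - 8 / 3) / 2 ≤ Real.cosh (8 / 3 * (u.im - (x i).im)) :=
    le_trans (by have := Real.exp_le_exp.2 h3; linarith) h2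
  rw [inv_le_comm₀ (Real.cosh_pos _) (by positivity)]
  refine le_trans (le_of_eq ?_) h4
  rw [mul_inv, mul_inv, ← Real.exp_neg, ← Real.exp_neg, neg_neg, Real.exp_sub, Real.exp_neg]
  field_simp

/-- upper bound of the density -/
theorem rhoR_up {b : ℝ} (hb0 : 0 ≤ b) (hb : b < l) : ∃ C : ℝ, 0 < C ∧
    ∀ (m : ℕ) (x : Fin m → ℂ), Rws0 x → ∀ u : ℂ, |(u - l).re| ≤ b →
      ‖rhoR x u‖ ≤ C * m * Real.exp (-(8 / 3 * |u.im|)) := by
  obtain ⟨C, hC, h⟩ := pc_row_le hb0 hb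
  refine ⟨C, hC, fun m x hx u hu => ?_⟩
  unfold rhoR
  calc ‖∑ i, pc (u - l - x i)‖ ≤ ∑ i, ‖pc (u - l - x i)‖ := norm_sum_le _ _
    _ ≤ ∑ _i : Fin m, C * Real.exp (-(8 / 3 * |u.im|)) :=
        Finset.sum_le_sum fun i _ => h m x hx u hu i
    _ = _ := by
        rw [Finset.sum_const, Finset.card_univ, Fintype.card_fin, nsmul_eq_mul]
        ring

/-- **the field is `O(1/m)`** -/
theorem xiR_le {b : ℝ} (hb0 : 0 ≤ b) (hb : b < l) : ∃ C : ℝ, 0 < C ∧
    ∀ (m : ℕ) (x : Fin m → ℂ) (i0 : Fin m), Rws0 x → ∀ u : ℂ, |(u - l).re| ≤ b →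
      ‖xiR x i0 u‖ ≤ C / m := by
  obtain ⟨c, hc, hlow⟩ := rhoR_low hb0 hb
  obtain ⟨C, hC, hup⟩ := pc_row_le hb0 hb
  refine ⟨C / c, by positivity, fun m x i0 hx u hu => ?_⟩
  have hm : (0 : ℝ) < m := by exact_mod_cast i0.pos
  have h1 := hlow m x hx u hu
  have h2 := hup m x hx u hu i0
  have h3 : c * m * Real.exp (-(8 / 3 * |u.im|)) ≤ ‖rhoR x u‖ :=
    h1.trans (Complex.re_le_norm _)
  have he := Real.exp_pos (-(8 / 3 * |u.im|))
  unfold xiR
  rw [norm_div]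
  calc ‖pc (u - l - x i0)‖ / ‖rhoR x u‖ ≤
      C * Real.exp (-(8 / 3 * |u.im|)) / (c * m * Real.exp (-(8 / 3 * |u.im|))) :=
        div_le_div₀ (by positivity) h2 (by positivity) h3
    _ = _ := by field_simp

/-- the plateau of the field at `+ ∞` -/
def xiP (x : Fin m → ℂ) (i0 : Fin m) : ℝ :=
  Real.exp (8 / 3 * (x i0).im) / ∑ i, Real.exp (8 / 3 * (x i).im)

/-- the plateau of the field at `- ∞` -/
def xiM (x : Fin m → ℂ) (i0 : Fin m) : ℝ :=
  Real.exp (-(8 / 3 * (x i0).im)) / ∑ i, Real.exp (-(8 / 3 * (x i).im))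

lemma xiM_neg (x : Fin m → ℂ) (i0 : Fin m) : xiP (fun i => -x i) i0 = xiM x i0 := by
  unfold xiP xiM
  simp only [Complex.neg_im]
  congr 1
  · congr 1; ring
  · refine Finset.sum_congr rfl fun i _ => ?_
    congr 1; ring

lemma row_eq {x : Fin m → ℂ} (h : Rws0 x) (i : Fin m) : x i = (x i).im * Complex.I := by
  apply Complex.ext
  · simp [h.re i]
  · simp

/-- the exponential of a row -/
lemma yE_row {x : Fin m → ℂ} (h : Rws0 x) (u : ℂ) (i : Fin m) : yE (u - l - x i) =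
    yE (u - l) * ((Real.exp (8 / 3 * (x i).im) : ℝ) : ℂ) := by
  unfold yE
  rw [Complex.ofReal_exp, ← Complex.exp_add]
  congr 1
  rw [row_eq h i]
  push_cast
  simp only [Complex.mul_im, Complex.ofReal_re, Complex.I_im, mul_one, Complex.ofReal_im,
    Complex.I_re, mul_zero, add_zero]
  linear_combination (-(8 / 3 * ((x i).im : ℂ))) * Complex.I_mul_I

lemma sum_exp_low {x : Fin m → ℂ} (h : Rws0 x) :
    m * Real.exp (-(8 / 3)) ≤ ∑ i, Real.exp (8 / 3 * (x i).im) := by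
  calc m * Real.exp (-(8 / 3)) = ∑ _i : Fin m, Real.exp (-(8 / 3)) := by
        rw [Finset.sum_const, Finset.card_univ, Fintype.card_fin, nsmul_eq_mul]
    _ ≤ _ := Finset.sum_le_sum fun i _ => Real.exp_le_exp.2 (by
        have := abs_le.1 (h.im i)
        linarith)

lemma sum_exp_up {x : Fin m → ℂ} (h : Rws0 x) :
    ∑ i, Real.exp (8 / 3 * (x i).im) ≤ m * Real.exp (8 / 3) := by
  calc ∑ i, Real.exp (8 / 3 * (x i).im) ≤ ∑ _i : Fin m, Real.exp (8 / 3) :=
        Finset.sum_le_sum fun i _ => Real.exp_le_exp.2 (by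
          have := abs_le.1 (h.im i)
          linarith)
    _ = _ := by rw [Finset.sum_const, Finset.card_univ, Fintype.card_fin, nsmul_eq_mul]

lemma xiP_nonneg (x : Fin m → ℂ) (i0 : Fin m) : 0 ≤ xiP x i0 := by
  unfold xiP; positivity

lemma xiM_nonneg (x : Fin m → ℂ) (i0 : Fin m) : 0 ≤ xiM x i0 := by
  unfold xiM; positivity

lemma xiP_le {x : Fin m → ℂ} (h : Rws0 x) (i0 : Fin m) :
    xiP x i0 ≤ Real.exp (16 / 3) / m := by
  have hm : (0 : ℝ) < m := by exact_mod_cast i0.pos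
  have h1 := sum_exp_low h
  have h2 : Real.exp (8 / 3 * (x i0).im) ≤ Real.exp (8 / 3) := Real.exp_le_exp.2 (by
    have := abs_le.1 (h.im i0)
    linarith)
  unfold xiP
  calc Real.exp (8 / 3 * (x i0).im) / ∑ i, Real.exp (8 / 3 * (x i).im) ≤
      Real.exp (8 / 3) / (m * Real.exp (-(8 / 3))) := div_le_div₀ (Real.exp_pos _).le h2
        (by positivity) h1
    _ = _ := by
      rw [Real.exp_neg, show (16 / 3 : ℝ) = 8 / 3 + 8 / 3 by norm_num, Real.exp_add]
      field_simp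

lemma xiM_le {x : Fin m → ℂ} (h : Rws0 x) (i0 : Fin m) :
    xiM x i0 ≤ Real.exp (16 / 3) / m := by
  rw [← xiM_neg]
  exact xiP_le h.neg i0

/-- **the right plateau**, also a little below the real axis -/
theorem xiR_right' {b : ℝ} (hb0 : 0 ≤ b) (hb : b < l) : ∃ C : ℝ, 0 < C ∧
    ∀ (m : ℕ) (x : Fin m → ℂ) (i0 : Fin m), Rws0 x → ∀ u : ℂ, |(u - l).re| ≤ b → -1 ≤ u.im →
      ‖xiR x i0 u - xiP x i0‖ ≤ C / m * Real.exp (-(32 / 3 * u.im)) := by
  obtain ⟨c, hc, hlow⟩ := rhoR_low hb0 hb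
  obtain ⟨C, hC, hasy⟩ := pc_asym hb0 hb
  -- one row
  set K := C * Real.exp (40 / 3) with hK
  have hK0 : 0 < K := by positivity
  have row : ∀ (m : ℕ) (x : Fin m → ℂ), Rws0 x → ∀ u : ℂ, |(u - l).re| ≤ b → ∀ i,
      ‖pc (u - l - x i) - c1 * (yE (u - l) * ((Real.exp (8 / 3 * (x i).im) : ℝ) : ℂ))‖ ≤
        K * Real.exp (-(40 / 3 * u.im)) := by
    intro m x hx u hu i
    have h1 := hasy (u - l - x i) (by rw [row_re hx]; exact hu)
    rw [← yE_row hx]
    refine h1.trans ?_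
    rw [norm_yE, row_im, ← Real.exp_nat_mul, hK, mul_assoc, ← Real.exp_add]
    refine mul_le_mul_of_nonneg_left (Real.exp_le_exp.2 ?_) hC.le
    push_cast
    have := abs_le.1 (hx.im i)
    linarith
  refine ⟨2 * K * (Real.exp (8 / 3)) ^ 2 * Real.exp (16 / 3) / c, by positivity,
    fun m x i0 hx u hu hu1 => ?_⟩
  have hm : (0 : ℝ) < m := by exact_mod_cast i0.pos
  set Y := yE (u - l) with hY
  set e : Fin m → ℝ := fun i => Real.exp (8 / 3 * (x i).im) with he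
  set E : ℝ := ∑ i, e i with hE
  have hE1 : m * Real.exp (-(8 / 3)) ≤ E := sum_exp_low hx
  have hE2 : E ≤ m * Real.exp (8 / 3) := sum_exp_up hx
  have hE0 : 0 < E := lt_of_lt_of_le (by positivity) hE1
  have he0 : ∀ i, 0 < e i := fun i => Real.exp_pos _
  have he1 : e i0 ≤ Real.exp (8 / 3) := Real.exp_le_exp.2 (by
    have := abs_le.1 (hx.im i0)
    linarith)
  set r : Fin m → ℂ := fun i => pc (u - l - x i) - c1 * (Y * ((e i : ℝ) : ℂ)) with hr
  have hrb : ∀ i, ‖r i‖ ≤ K * Real.exp (-(40 / 3 * u.im)) := fun i => row m x hx u hu i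
  have hpc : ∀ i, pc (u - l - x i) = c1 * (Y * ((e i : ℝ) : ℂ)) + r i := fun i => by
    rw [hr]; ring
  -- the density
  have h1 := hlow m x hx u hu
  have h3 : c * m * Real.exp (-(8 / 3 * |u.im|)) ≤ ‖rhoR x u‖ := h1.trans (Complex.re_le_norm _)
  have h4 : c * m * (Real.exp (-(16 / 3)) * Real.exp (-(8 / 3 * u.im))) ≤ ‖rhoR x u‖ := by
    refine le_trans ?_ h3
    refine mul_le_mul_of_nonneg_left ?_ (by positivity)
    rw [← Real.exp_add]
    refine Real.exp_le_exp.2 ?_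
    have : |u.im| ≤ u.im + 2 := by
      rw [abs_le]
      constructor <;> linarith
    linarith
  have hrho0 : 0 < ‖rhoR x u‖ := lt_of_lt_of_le (by positivity) h4
  have hrho : rhoR x u ≠ 0 := norm_pos_iff.1 hrho0
  have hEc : ((E : ℝ) : ℂ) ≠ 0 := by exact_mod_cast hE0.ne'
  have hsum : rhoR x u = c1 * (Y * ((E : ℝ) : ℂ)) + ∑ i, r i := by
    unfold rhoR
    rw [Finset.sum_congr rfl fun i _ => hpc i, Finset.sum_add_distrib, ← Finset.mul_sum,
      ← Finset.mul_sum, hE]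
    push_cast
    rfl
  have hdiff : xiR x i0 u - xiP x i0 =
      (r i0 * (E : ℂ) - (e i0 : ℂ) * ∑ i, r i) / (rhoR x u * (E : ℂ)) := by
    have e1 : (xiP x i0 : ℂ) = (e i0 : ℂ) / (E : ℂ) := by
      unfold xiP
      rw [Complex.ofReal_div]
    unfold xiR
    rw [e1, div_sub_div _ _ hrho hEc]
    congr 1
    rw [hpc i0, hsum]
    ring
  have hs : ‖∑ i, r i‖ ≤ m * (K * Real.exp (-(40 / 3 * u.im))) := by
    calc ‖∑ i, r i‖ ≤ ∑ i, ‖r i‖ := norm_sum_le _ _
      _ ≤ ∑ _i : Fin m, K * Real.exp (-(40 / 3 * u.im)) := Finset.sum_le_sum fun i _ => hrb i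
      _ = _ := by rw [Finset.sum_const, Finset.card_univ, Fintype.card_fin, nsmul_eq_mul]
  have hnum : ‖r i0 * (E : ℂ) - (e i0 : ℂ) * ∑ i, r i‖ ≤
      2 * (m * Real.exp (8 / 3)) * (K * Real.exp (-(40 / 3 * u.im))) := by
    refine (norm_sub_le _ _).trans ?_
    rw [norm_mul, norm_mul, Complex.norm_real, Complex.norm_real, Real.norm_eq_abs,
      Real.norm_eq_abs, abs_of_pos hE0, abs_of_pos (he0 i0)]
    have k1 : ‖r i0‖ * E ≤ (K * Real.exp (-(40 / 3 * u.im))) * (m * Real.exp (8 / 3)) :=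
      mul_le_mul (hrb i0) hE2 hE0.le (by positivity)
    have k2 : e i0 * ‖∑ i, r i‖ ≤ Real.exp (8 / 3) * (m * (K * Real.exp (-(40 / 3 * u.im)))) :=
      mul_le_mul he1 hs (norm_nonneg _) (Real.exp_pos _).le
    linarith
  have hden : (c * m * (Real.exp (-(16 / 3)) * Real.exp (-(8 / 3 * u.im)))) *
      (m * Real.exp (-(8 / 3))) ≤ ‖rhoR x u * (E : ℂ)‖ := by
    rw [norm_mul, Complex.norm_real, Real.norm_eq_abs, abs_of_pos hE0]
    exact mul_le_mul h4 hE1 (by positivity) (norm_nonneg _)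
  rw [hdiff, norm_div]
  calc _ ≤ 2 * (m * Real.exp (8 / 3)) * (K * Real.exp (-(40 / 3 * u.im))) /
        ((c * m * (Real.exp (-(16 / 3)) * Real.exp (-(8 / 3 * u.im)))) *
          (m * Real.exp (-(8 / 3)))) := div_le_div₀ (by positivity) hnum (by positivity) hden
    _ = _ := by
      have e5 : Real.exp (-(40 / 3 * u.im)) =
          Real.exp (-(8 / 3 * u.im)) * Real.exp (-(32 / 3 * u.im)) := by
        rw [← Real.exp_add]
        congr 1
        ring
      rw [e5, Real.exp_neg (16 / 3), Real.exp_neg (8 / 3)]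
      have := Real.exp_pos (-(8 / 3 * u.im))
      field_simp

/-- **the right plateau** -/
theorem xiR_right {b : ℝ} (hb0 : 0 ≤ b) (hb : b < l) : ∃ C : ℝ, 0 < C ∧
    ∀ (m : ℕ) (x : Fin m → ℂ) (i0 : Fin m), Rws0 x → ∀ u : ℂ, |(u - l).re| ≤ b → 0 ≤ u.im →
      ‖xiR x i0 u - xiP x i0‖ ≤ C / m * Real.exp (-(32 / 3 * |u.im|)) := by
  obtain ⟨C, hC, h⟩ := xiR_right' hb0 hb
  exact ⟨C, hC, fun m x i0 hx u hu h0 => by
    rw [abs_of_nonneg h0]
    exact h m x i0 hx u hu (by linarith)⟩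

/-- **the left plateau** -/
theorem xiR_left {b : ℝ} (hb0 : 0 ≤ b) (hb : b < l) : ∃ C : ℝ, 0 < C ∧
    ∀ (m : ℕ) (x : Fin m → ℂ) (i0 : Fin m), Rws0 x → ∀ u : ℂ, |(u - l).re| ≤ b → u.im ≤ 0 →
      ‖xiR x i0 u - xiM x i0‖ ≤ C / m * Real.exp (-(32 / 3 * |u.im|)) := by
  obtain ⟨C, hC, h⟩ := xiR_right hb0 hb
  refine ⟨C, hC, fun m x i0 hx u hu h0 => ?_⟩
  have e1 : (2 * l - u - l : ℂ) = -(u - l) := by ring
  have e2 : (2 * l - u : ℂ).im = -u.im := by simp
  have := h m (fun i => -x i) i0 hx.neg (2 * l - u) (by rw [e1, Complex.neg_re, abs_neg]; exact hu)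
    (by rw [e2]; linarith)
  rwa [xiR_refl, xiM_neg, e2, abs_neg] at this

/-! ### differentiability -/

theorem rhoR_diff {x : Fin m → ℂ} {u : ℂ} (h : ∀ i, |(u - l - x i).re| < l) :
    DifferentiableAt ℂ (rhoR x) u := by
  unfold rhoR
  refine DifferentiableAt.fun_sum fun i _ => ?_
  have h1 : |(u - l - x i).re| < NUMF.l := h i
  have h2 : DifferentiableAt ℂ (fun u : ℂ => u - l - x i) u :=
    ((differentiableAt_id).sub_const _).sub_const _
  exact DifferentiableAt.comp (g := pc) u (pc_diff h1) h2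

theorem xiR_diff {x : Fin m → ℂ} (i0 : Fin m) {u : ℂ} (h : ∀ i, |(u - l - x i).re| < l) :
    DifferentiableAt ℂ (xiR x i0) u := by
  unfold xiR
  have h1 : |(u - l - x i0).re| < NUMF.l := h i0
  have h2 : DifferentiableAt ℂ (fun u : ℂ => u - l - x i0) u :=
    ((differentiableAt_id).sub_const _).sub_const _
  have h3 : DifferentiableAt ℂ (fun u : ℂ => pc (u - l - x i0)) u :=
    DifferentiableAt.comp (g := pc) u (pc_diff h1) h2
  exact h3.div (rhoR_diff h) (rhoR_ne i0.pos h)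

theorem xiR_diff0 {x : Fin m → ℂ} (hx : Rws0 x) (i0 : Fin m) {u : ℂ} (h : |(u - l).re| < l) :
    DifferentiableAt ℂ (xiR x i0) u :=
  xiR_diff i0 fun i => by rw [row_re hx]; exact h

/-- **the derivative of the field** -/
theorem xiR_deriv {b : ℝ} (hb0 : 0 ≤ b) (hb : b < l) : ∃ C : ℝ, 0 < C ∧
    ∀ (m : ℕ) (x : Fin m → ℂ) (i0 : Fin m), Rws0 x → ∀ u : ℂ, |(u - l).re| ≤ b →
      ‖deriv (xiR x i0) u‖ ≤ C / m * Real.exp (-(32 / 3 * |u.im|)) := by
  have hl : 0 < l := NUMF.l_pos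
  have hl1 : l < 1 := by
    unfold l
    have := Real.pi_lt_d2
    linarith
  set r := (l - b) / 2 with hr
  have hr0 : 0 < r := by rw [hr]; linarith
  have hr1 : r < 1 := by rw [hr]; linarith
  have hbr : b + r < l := by rw [hr]; linarith
  obtain ⟨C, hC, h⟩ := xiR_right' (b := b + r) (by positivity) hbr
  -- the right half
  have key : ∀ (m : ℕ) (x : Fin m → ℂ) (i0 : Fin m), Rws0 x → ∀ u : ℂ, |(u - l).re| ≤ b →
      0 ≤ u.im → ‖deriv (xiR x i0) u‖ ≤
        C * Real.exp (32 / 3) / r / m * Real.exp (-(32 / 3 * u.im)) := by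
    intro m x i0 hx u hu h0
    have hm : (0 : ℝ) < m := by exact_mod_cast i0.pos
    have hball : ∀ v ∈ closedBall u r, |(v - l).re| ≤ b + r ∧ u.im - r ≤ v.im := by
      intro v hv
      rw [mem_closedBall, dist_eq_norm] at hv
      have h1 := Complex.abs_re_le_norm (v - u)
      have h2 := Complex.abs_im_le_norm (v - u)
      have h3 : (v - l : ℂ).re = (u - l : ℂ).re + (v - u).re := by simp
      constructor
      · rw [h3]
        refine (abs_add_le _ _).trans ?_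
        linarith
      · have h4 : v.im = u.im + (v - u).im := by simp
        rw [h4]
        have := neg_abs_le (v - u).im
        linarith
    have hd : DiffContOnCl ℂ (fun v => xiR x i0 v - xiP x i0) (ball u r) := by
      refine DifferentiableOn.diffContOnCl_ball (U := closedBall u r) (fun v hv => ?_)
        subset_rfl
      have h5 := (hball v hv).1
      exact ((xiR_diff0 hx i0 (lt_of_le_of_lt h5 hbr)).sub_const _).differentiableWithinAt
    have hb2 : ∀ v ∈ sphere u r, ‖xiR x i0 v - xiP x i0‖ ≤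
        C / m * (Real.exp (32 / 3) * Real.exp (-(32 / 3 * u.im))) := by
      intro v hv
      obtain ⟨h5, h6⟩ := hball v (sphere_subset_closedBall hv)
      refine (h m x i0 hx v h5 (by linarith)).trans ?_
      refine mul_le_mul_of_nonneg_left ?_ (by positivity)
      rw [← Real.exp_add]
      exact Real.exp_le_exp.2 (by linarith)
    have h7 := Complex.norm_deriv_le_of_forall_mem_sphere_norm_le hr0 hd hb2
    have h8 : deriv (fun v => xiR x i0 v - xiP x i0) u = deriv (xiR x i0) u := by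
      rw [deriv_sub_const]
    rw [h8] at h7
    refine h7.trans (le_of_eq ?_)
    field_simp
  refine ⟨C * Real.exp (32 / 3) / r, by positivity, fun m x i0 hx u hu => ?_⟩
  rcases le_total 0 u.im with h0 | h0
  · rw [abs_of_nonneg h0]
    exact key m x i0 hx u hu h0
  · have e1 : (2 * l - u - l : ℂ) = -(u - l) := by ring
    have e2 : (2 * l - u : ℂ).im = -u.im := by simp
    have h9 := key m (fun i => -x i) i0 hx.neg (2 * l - u)
      (by rw [e1, Complex.neg_re, abs_neg]; exact hu) (by rw [e2]; linarith)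
    have e3 : xiR x i0 = fun u => xiR (fun i => -x i) i0 (2 * l - u) := by
      funext v
      rw [xiR_refl]
    have e4 : deriv (xiR x i0) u = -deriv (xiR (fun i => -x i) i0) (2 * l - u) := by
      rw [e3, deriv_comp_const_sub]
    rw [e4, norm_neg, abs_of_nonpos h0]
    rw [e2] at h9
    exact h9

end PBForce
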