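import Pool.Agent.PB.WaveR
import Pool.Agent.PB.FieldR

/-!
# Plan B: the data of `PBE.E_prime` at the true field, rows on the imaginary axis

Heights `z`, positions `u = l + i z`.
* `rF x i0 z = m xiR x i0 (l + i z)`: the field times the number of rows; `rF_XiA` (constant
  independent of `m`, of the rows and of `i0`), `rF_measurable`;
* `GEO`: the strip `-l/10 < Im z < 9l/20`, Cauchy lines `-l/5`, `3l/5`;
* `rep_EF`: `PBE.Rep` for both channels;
* `h0T τ`, `g2T τ`: first and second derivative of the logarithm of the leg factor; closed forms,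
  `h0_TC`, `g2_TC`, `mass_h0`, `mass_g2`;
* `q_TC`, `u_TC`.
-/

set_option autoImplicit false

open Complex Set Filter Topology MeasureTheory

noncomputable section

namespace PBEI

open NUMF (l r l_pos)
open PBForce (xiR xiP xiM Rws0 pc rhoR)
open PBV

variable {m : ℕ}

/-! ### the field -/

/-- the field times the number of rows, as a function of the height -/
def rF (x : Fin m → ℂ) (i0 : Fin m) (z : ℂ) : ℂ := m * xiR x i0 (l + I * z)

/-- plateaus -/
def rP (x : Fin m → ℂ) (i0 : Fin m) : ℂ := ((m * xiP x i0 : ℝ) : ℂ)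

def rM (x : Fin m → ℂ) (i0 : Fin m) : ℂ := ((m * xiM x i0 : ℝ) : ℂ)

lemma pos_re (z : ℂ) : ((l : ℂ) + I * z - NUP1.l).re = -z.im := by
  have : NUP1.l = l := rfl
  rw [this]; simp

lemma pos_im (z : ℂ) : ((l : ℂ) + I * z).im = z.re := by simp

/-- the field is `PBV.XiA`, constants independent of the number of rows -/
theorem rF_XiA {b : ℝ} (hb0 : 0 < b) (hb : b < l) : ∃ C : ℝ, 0 < C ∧
    ∀ (m : ℕ) (x : Fin m → ℂ) (i0 : Fin m), Rws0 x →
      XiA (rF x i0) b C (32 / 3) (rP x i0) (rM x i0) ∧ ‖rP x i0‖ ≤ C ∧ ‖rM x i0‖ ≤ C := by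
  have hb' : b < NUP1.l := hb
  obtain ⟨C1, hC1, h1⟩ := PBForce.xiR_right hb0.le hb'
  obtain ⟨C2, hC2, h2⟩ := PBForce.xiR_left hb0.le hb'
  obtain ⟨C3, hC3, h3⟩ := PBForce.xiR_deriv hb0.le hb'
  refine ⟨C1 + C2 + C3 + Real.exp (16 / 3), by positivity, fun m x i0 hx => ?_⟩
  have hm : (0 : ℝ) < m := by exact_mod_cast i0.pos
  have hmC : ‖(m : ℂ)‖ = m := by simp
  have hE := Real.exp_pos (16 / 3 : ℝ)
  have hre : ∀ z : ℂ, |z.im| ≤ b → |((l : ℂ) + I * z - NUP1.l).re| ≤ b := by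
    intro z hz; rw [pos_re, abs_neg]; exact hz
  have hderiv : ∀ z : ℂ, |z.im| ≤ b → HasDerivAt (rF x i0) (m * (deriv (xiR x i0) (l + I * z) * I)) z := by
    intro z hz
    have h4 : DifferentiableAt ℂ (xiR x i0) (l + I * z) :=
      PBForce.xiR_diff0 hx i0 (lt_of_le_of_lt (hre z hz) hb')
    have h5 : HasDerivAt (fun z : ℂ => (l : ℂ) + I * z) I z := by
      simpa using ((hasDerivAt_id z).const_mul I).const_add (l : ℂ)
    exact (h4.hasDerivAt.comp z h5).const_mul (m : ℂ)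
  refine ⟨⟨by positivity, by norm_num, hb0, fun z hz => (hderiv z hz).differentiableAt, fun z hz => ?_,
    fun z hz h0 => ?_, fun z hz h0 => ?_⟩, ?_, ?_⟩
  · rw [(hderiv z hz).deriv, norm_mul, norm_mul, hmC, norm_I, mul_one]
    have h6 := h3 m x i0 hx _ (hre z hz)
    rw [pos_im] at h6
    calc (m : ℝ) * ‖deriv (xiR x i0) (l + I * z)‖ ≤ m * (C3 / m * Real.exp (-(32 / 3 * |z.re|))) := by gcongr
      _ = C3 * Real.exp (-(32 / 3 * |z.re|)) := by field_simp
      _ ≤ _ := by gcongr; linarith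
  · have h6 := h1 m x i0 hx _ (hre z hz) (by rw [pos_im]; exact h0)
    rw [pos_im] at h6
    have e : rF x i0 z - rP x i0 = m * (xiR x i0 (l + I * z) - xiP x i0) := by
      unfold rF rP; push_cast; ring
    rw [e, norm_mul, hmC]
    calc (m : ℝ) * ‖xiR x i0 (l + I * z) - xiP x i0‖ ≤ m * (C1 / m * Real.exp (-(32 / 3 * |z.re|))) := by gcongr
      _ = C1 * Real.exp (-(32 / 3 * |z.re|)) := by field_simp
      _ ≤ _ := by gcongr; linarith
  · have h6 := h2 m x i0 hx _ (hre z hz) (by rw [pos_im]; exact h0)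
    rw [pos_im] at h6
    have e : rF x i0 z - rM x i0 = m * (xiR x i0 (l + I * z) - xiM x i0) := by
      unfold rF rM; push_cast; ring
    rw [e, norm_mul, hmC]
    calc (m : ℝ) * ‖xiR x i0 (l + I * z) - xiM x i0‖ ≤ m * (C2 / m * Real.exp (-(32 / 3 * |z.re|))) := by gcongr
      _ = C2 * Real.exp (-(32 / 3 * |z.re|)) := by field_simp
      _ ≤ _ := by gcongr; linarith
  · have h7 := PBForce.xiP_le hx i0
    have h8 := PBForce.xiP_nonneg x i0
    unfold rP
    rw [norm_real, Real.norm_of_nonneg (by positivity)]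
    calc (m : ℝ) * xiP x i0 ≤ m * (Real.exp (16 / 3) / m) := by gcongr
      _ = Real.exp (16 / 3) := by field_simp
      _ ≤ _ := by linarith
  · have h7 := PBForce.xiM_le hx i0
    have h8 := PBForce.xiM_nonneg x i0
    unfold rM
    rw [norm_real, Real.norm_of_nonneg (by positivity)]
    calc (m : ℝ) * xiM x i0 ≤ m * (Real.exp (16 / 3) / m) := by gcongr
      _ = Real.exp (16 / 3) := by field_simp
      _ ≤ _ := by linarith

lemma xiR_measurable (x : Fin m → ℂ) (i0 : Fin m) : Measurable (xiR x i0) := by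
  unfold PBForce.xiR PBForce.rhoR
  have h : ∀ i : Fin m, Measurable fun u : ℂ => pc (u - NUP1.l - x i) := fun i =>
    PBForce.pc_meas.comp ((measurable_id.sub_const _).sub_const _)
  exact (h i0).div (Finset.measurable_fun_sum _ fun i _ => h i)

lemma rF_measurable (x : Fin m → ℂ) (i0 : Fin m) : Measurable (rF x i0) := by
  unfold rF
  have h : Measurable fun z : ℂ => (l : ℂ) + I * z := (by fun_prop : Continuous _).measurable
  exact ((xiR_measurable x i0).comp h).const_mul _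

/-! ### the geometry -/

/-- strip `-l/10 < Im z < 9l/20`, Cauchy lines `-l/5` and `3l/5` -/
lemma GEO : Geo (-(l / 10)) (9 / 20 * l) (-(l / 5)) (3 / 5 * l) (l / 10) 4 (9 / 10 * l) (9 / 10 * l) := by
  have hl := l_pos
  have hl4 : l = Real.pi / 8 := rfl
  have hpi := Real.pi_pos
  refine ⟨by linarith, by linarith, by linarith, by norm_num, ?_, ?_, ?_, by linarith, by linarith, by linarith,
    by linarith⟩
  · rw [hl4]; linarith
  · rw [abs_neg, abs_of_pos (by linarith)]; linarith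
  · rw [abs_of_pos (by linarith)]; linarith

/-- the strip of the test functions -/
abbrev y1 : ℝ := -(l / 10)
abbrev y2 : ℝ := 9 / 20 * l
abbrev Y1 : ℝ := -(l / 5)
abbrev Y2 : ℝ := 3 / 5 * l

/-- plus channel, first factors -/
def Apl (x : Fin m → ℂ) (i0 : Fin m) : Bool × ℝ → ℂ → ℂ := AE (Ep (rF x i0) (rP x i0) (rM x i0)) Y1 Y2
/-- minus channel, first factors -/
def Ami (x : Fin m → ℂ) (i0 : Fin m) : Bool × ℝ → ℂ → ℂ := AE (Em (rF x i0) (rP x i0) (rM x i0)) Y1 Y2
/-- second factors -/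
def Bch : Bool × ℝ → ℂ → ℂ := BE 4 Y1 Y2

lemma Apl_measurable (x : Fin m → ℂ) (i0 : Fin m) : Measurable fun p : (Bool × ℝ) × ℂ => Apl x i0 p.1 p.2 :=
  AE_Ec_measurable _ _ (rF_measurable x i0) _ _ _ _

lemma Ami_measurable (x : Fin m → ℂ) (i0 : Fin m) : Measurable fun p : (Bool × ℝ) × ℂ => Ami x i0 p.1 p.2 :=
  AE_Ec_measurable _ _ (rF_measurable x i0) _ _ _ _

lemma Bch_measurable : Measurable fun p : (Bool × ℝ) × ℂ => Bch p.1 p.2 := BE_measurable _ _ _

/-- **the product representations of the two channels**, every rate `0 < a' < a < 2` -/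
theorem rep_EF {a a' : ℝ} (ha0 : 0 ≤ a') (haa : a' < a) (ha : a < 2) : ∃ C : ℝ, 0 < C ∧
    ∀ (m : ℕ) (x : Fin m → ℂ) (i0 : Fin m), Rws0 x →
      PBE.Rep y1 y2 a' wm (Apl x i0) Bch (fun q => C * Real.exp (-(a * |q.2|))) (fun q => C * Real.exp (a' * |q.2|)) ∧
      PBE.Rep y1 y2 a' wm (Ami x i0) Bch (fun q => C * Real.exp (-(a * |q.2|))) (fun q => C * Real.exp (a' * |q.2|)) ∧
      ∫ q, (C * Real.exp (-(a * |q.2|))) * (C * Real.exp (a' * |q.2|)) ∂wm = C ^ 2 * (4 / (a - a')) := by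
  have hl := l_pos
  obtain ⟨K, hK, hX⟩ := rF_XiA (b := 9 / 10 * l) (by linarith) (by linarith)
  obtain ⟨C1, hC1, h1⟩ := Ec_rep (1 / 4) (1 / 4) GEO (ha0.trans haa.le) ha
  obtain ⟨C2, hC2, h2⟩ := Ec_rep (1 / 4) (-(1 / 4)) GEO (ha0.trans haa.le) ha
  have hcE : 0 < cE 4 (l / 10) := by
    refine cE_pos (by norm_num) (by linarith) ?_
    have hl4 : l = Real.pi / 8 := rfl
    have := Real.pi_pos
    rw [hl4]; linarith
  set C := C1 * (K + 2 * K) + C2 * (K + 2 * K) + cE 4 (l / 10) with hCdef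
  have hCpos : 0 < C := by positivity
  have hp : 0 < a - a' := by linarith
  have hint : Integrable (fun q : Bool × ℝ => (C * Real.exp (-(a * |q.2|))) * (C * Real.exp (a' * |q.2|))) wm ∧
      ∫ q, (C * Real.exp (-(a * |q.2|))) * (C * Real.exp (a' * |q.2|)) ∂wm = C ^ 2 * (4 / (a - a')) := by
    have e : (fun q : Bool × ℝ => (C * Real.exp (-(a * |q.2|))) * (C * Real.exp (a' * |q.2|))) =
        fun q : Bool × ℝ => C ^ 2 * Real.exp (-((a - a') * |q.2|)) := by
      funext q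
      have : Real.exp (-((a - a') * |q.2|)) = Real.exp (-(a * |q.2|)) * Real.exp (a' * |q.2|) := by
        rw [← Real.exp_add]; congr 1; ring
      rw [this]; ring
    rw [e]
    exact ⟨(integrable_exp_wm hp).const_mul _, by rw [integral_const_mul, integral_exp_wm hp]⟩
  refine ⟨C, hCpos, fun m x i0 hx => ?_⟩
  obtain ⟨hXi, hP, hM⟩ := hX m x i0 hx
  have hD : ‖rP x i0 - rM x i0‖ ≤ 2 * K := (norm_sub_le _ _).trans (by linarith)
  have r1 := (h1 hXi (by norm_num) a' ha0 haa (by linarith)).1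
  have r2 := (h2 hXi (by norm_num) a' ha0 haa (by linarith)).1
  have k1 : C1 * (K + ‖rP x i0 - rM x i0‖) ≤ C := by
    have : C1 * (K + ‖rP x i0 - rM x i0‖) ≤ C1 * (K + 2 * K) := by gcongr
    have h3 : 0 ≤ C2 * (K + 2 * K) := by positivity
    linarith
  have k2 : C2 * (K + ‖rP x i0 - rM x i0‖) ≤ C := by
    have : C2 * (K + ‖rP x i0 - rM x i0‖) ≤ C2 * (K + 2 * K) := by gcongr
    have h3 : 0 ≤ C1 * (K + 2 * K) := by positivity
    linarith
  have k3 : cE 4 (l / 10) ≤ C := by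
    have h3 : 0 ≤ C1 * (K + 2 * K) := by positivity
    have h4 : 0 ≤ C2 * (K + 2 * K) := by positivity
    linarith
  refine ⟨⟨fun q => (r1.tA q).mono ?_, fun q => (r1.tB q).mono ?_, hint.1⟩,
    ⟨fun q => (r2.tA q).mono ?_, fun q => (r2.tB q).mono ?_, hint.1⟩, hint.2⟩
  · gcongr
  · gcongr
  · gcongr
  · gcongr

/-- pointwise product form, plus channel -/
theorem Apl_eq (x : Fin m → ℂ) (i0 : Fin m) (hx : Rws0 x) {z w : ℂ} (hz : z ∈ PBE.Sp y1 y2)
    (hw : w ∈ PBE.Sp y1 y2) : Integrable (fun q => Apl x i0 q z * Bch q w) wm ∧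
      Ep (rF x i0) (rP x i0) (rM x i0) z w = ∫ q, Apl x i0 q z * Bch q w ∂wm := by
  have hl := l_pos
  obtain ⟨K, hK, hX⟩ := rF_XiA (b := 9 / 10 * l) (by linarith) (by linarith)
  exact Ec_decomp _ _ GEO (hX m x i0 hx).1 (by norm_num) hz hw

/-- pointwise product form, minus channel -/
theorem Ami_eq (x : Fin m → ℂ) (i0 : Fin m) (hx : Rws0 x) {z w : ℂ} (hz : z ∈ PBE.Sp y1 y2)
    (hw : w ∈ PBE.Sp y1 y2) : Integrable (fun q => Ami x i0 q z * Bch q w) wm ∧
      Em (rF x i0) (rP x i0) (rM x i0) z w = ∫ q, Ami x i0 q z * Bch q w ∂wm := by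
  have hl := l_pos
  obtain ⟨K, hK, hX⟩ := rF_XiA (b := 9 / 10 * l) (by linarith) (by linarith)
  exact Ec_decomp _ _ GEO (hX m x i0 hx).1 (by norm_num) hz hw

/-! ### test functions: products, translations, derivatives -/

section tc

variable {w1 w2 a M : ℝ} {g : ℂ → ℂ}

/-- product with a bounded analytic function -/
lemma TC_mul {K : ℝ} {h : ℂ → ℂ} (hg : PBE.TC w1 w2 a M g) (hh : DifferentiableOn ℂ h (PBE.Sp w1 w2))
    (hb : ∀ z ∈ PBE.Sp w1 w2, ‖h z‖ ≤ K) : PBE.TC w1 w2 a (K * M) (fun z => h z * g z) where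
  an := hh.mul hg.an
  bd z hz := by
    rw [norm_mul, mul_assoc]
    exact mul_le_mul (hb z hz) (hg.bd z hz) (norm_nonneg _) ((norm_nonneg _).trans (hb z hz))

/-- real translations -/
lemma TC_shift (hg : PBE.TC w1 w2 a M g) (ha : 0 ≤ a) (hM : 0 ≤ M) (τ : ℝ) :
    PBE.TC w1 w2 a (M * Real.exp (a * |τ|)) (fun z => g (z - τ)) where
  an := by
    refine hg.an.comp (by fun_prop) fun z hz => ?_
    have hz' : w1 < z.im ∧ z.im < w2 := hz
    show w1 < (z - τ).im ∧ (z - τ).im < w2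
    simpa using hz'
  bd z hz := by
    have hz' : w1 < z.im ∧ z.im < w2 := hz
    have h1 := hg.bd (z - τ) (by show w1 < (z - τ).im ∧ (z - τ).im < w2; simpa using hz')
    refine h1.trans ?_
    rw [mul_assoc, ← Real.exp_add]
    refine mul_le_mul_of_nonneg_left (Real.exp_le_exp.2 ?_) hM
    have h2 : (z - (τ : ℂ)).re = z.re - τ := by simp
    rw [h2]
    have h3 := abs_sub_abs_le_abs_sub z.re τ
    nlinarith

lemma Sp_open (w1 w2 : ℝ) : IsOpen (PBE.Sp w1 w2) :=
  (isOpen_lt continuous_const continuous_im).inter (isOpen_lt continuous_im continuous_const)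

/-- **Cauchy**: the derivative of a test function of a larger strip -/
lemma TC_deriv {δ : ℝ} (hδ : 0 < δ) (hg : PBE.TC (w1 - δ) (w2 + δ) a M g) (ha : 0 ≤ a) (hM : 0 ≤ M) :
    PBE.TC w1 w2 a (M * Real.exp (a * δ) / δ) (deriv g) where
  an := by
    have h1 : DifferentiableOn ℂ (deriv g) (PBE.Sp (w1 - δ) (w2 + δ)) := hg.an.deriv (Sp_open _ _)
    exact h1.mono fun z hz => ⟨by linarith [hz.1], by linarith [hz.2]⟩
  bd z hz := by
    have key : ∀ ρ : ℝ, 0 < ρ → ρ < δ → ‖deriv g z‖ ≤ M * Real.exp (a * δ) * Real.exp (-(a * |z.re|)) / ρ := by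
      intro ρ hρ hρδ
      have hball : ∀ w ∈ Metric.closedBall z ρ, w ∈ PBE.Sp (w1 - δ) (w2 + δ) ∧ |z.re| - δ ≤ |w.re| := by
        intro w hw
        rw [Metric.mem_closedBall, dist_eq_norm] at hw
        have h1 := abs_le.1 ((Complex.abs_im_le_norm (w - z)).trans hw)
        have h2 := (Complex.abs_re_le_norm (w - z)).trans hw
        rw [sub_im] at h1
        rw [sub_re] at h2
        refine ⟨⟨by linarith [hz.1], by linarith [hz.2]⟩, ?_⟩
        have h3 := abs_sub_abs_le_abs_sub z.re w.re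
        rw [abs_sub_comm] at h3
        linarith
      have hd : DiffContOnCl ℂ g (Metric.ball z ρ) := by
        refine DifferentiableOn.diffContOnCl ?_
        rw [closure_ball z hρ.ne']
        exact hg.an.mono fun w hw => (hball w hw).1
      refine Complex.norm_deriv_le_of_forall_mem_sphere_norm_le hρ hd fun w hw => ?_
      have hw' := hball w (Metric.sphere_subset_closedBall hw)
      refine (hg.bd w hw'.1).trans ?_
      rw [mul_assoc, ← Real.exp_add]
      refine mul_le_mul_of_nonneg_left (Real.exp_le_exp.2 ?_) hM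
      nlinarith [hw'.2]
    have h1 : Tendsto (fun ρ : ℝ => M * Real.exp (a * δ) * Real.exp (-(a * |z.re|)) / ρ) (𝓝[<] δ)
        (𝓝 (M * Real.exp (a * δ) * Real.exp (-(a * |z.re|)) / δ)) :=
      (tendsto_const_nhds.div tendsto_id hδ.ne').mono_left nhdsWithin_le_nhds
    have h2 := ge_of_tendsto h1 (by
      filter_upwards [Ioo_mem_nhdsLT hδ] with ρ hρ using key ρ hρ.1 hρ.2)
    refine h2.trans (le_of_eq ?_)
    ring

/-- the derivative of a test function has mass zero -/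
lemma mass_deriv {δ : ℝ} (hδ : 0 < δ) (hg : PBE.TC (w1 - δ) (w2 + δ) a M g) (ha : 0 < a) (hM : 0 ≤ M)
    (h1 : w1 < 0) (h2 : 0 < w2) : PBE.mass (deriv g) = 0 := by
  have hd := TC_deriv hδ hg ha.le hM
  have hr := hd.real ha h1 h2
  have hder : ∀ t : ℝ, HasDerivAt (fun t : ℝ => g t) (deriv g t) t := by
    intro t
    have h3 : DifferentiableAt ℂ g t := hg.an.differentiableAt ((Sp_open _ _).mem_nhds
      ⟨by rw [ofReal_im]; linarith, by rw [ofReal_im]; linarith⟩)
    exact h3.hasDerivAt.comp_ofReal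
  have hb : ∀ t : ℝ, ‖g t‖ ≤ M * Real.exp (-(a * |t|)) := by
    intro t
    have := hg.bd (t : ℂ) ⟨by rw [ofReal_im]; linarith, by rw [ofReal_im]; linarith⟩
    simpa using this
  have t1 : Tendsto (fun t : ℝ => g t) atTop (𝓝 0) := by
    rw [tendsto_zero_iff_norm_tendsto_zero]
    have h0 : Tendsto (fun t : ℝ => M * Real.exp (-(a * |t|))) atTop (𝓝 0) := by
      have h4 : Tendsto (fun t : ℝ => Real.exp (-(a * |t|))) atTop (𝓝 0) :=
        Real.tendsto_exp_atBot.comp (tendsto_neg_atTop_atBot.comp (tendsto_abs_atTop_atTop.const_mul_atTop ha))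
      simpa using h4.const_mul M
    exact squeeze_zero (fun _ => norm_nonneg _) hb h0
  have t2 : Tendsto (fun t : ℝ => g t) atBot (𝓝 0) := by
    rw [tendsto_zero_iff_norm_tendsto_zero]
    have h0 : Tendsto (fun t : ℝ => M * Real.exp (-(a * |t|))) atBot (𝓝 0) := by
      have h4 : Tendsto (fun t : ℝ => Real.exp (-(a * |t|))) atBot (𝓝 0) :=
        Real.tendsto_exp_atBot.comp (tendsto_neg_atTop_atBot.comp (tendsto_abs_atBot_atTop.const_mul_atTop ha))
      simpa using h4.const_mul M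
    exact squeeze_zero (fun _ => norm_nonneg _) hb h0
  unfold PBE.mass
  rw [integral_of_hasDerivAt_of_tendsto hder hr.1 t2 t1, sub_zero]

end tc

/-! ### the leg functions -/

/-- first derivative (in the height `w` of the quantum) of the logarithm of the leg factor, leg at height `0` -/
def h00 (w : ℂ) : ℂ := I * cos l / (cosh w * sin (l - I * w))

/-- the leg at height `τ` -/
def h0T (τ : ℝ) (z : ℂ) : ℂ := h00 (z - τ)

/-- second derivative -/
def g2T (τ : ℝ) : ℂ → ℂ := deriv (h0T τ)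

/-- the logarithm of the leg factor on the real line, leg at height `0` -/
def D0 (t : ℝ) : ℂ := -Complex.log (sin l - I * cos l * Real.tanh t)

lemma sin_leg (w : ℂ) : sin ((l : ℂ) - I * w) = sin l * cosh w - I * cos l * sinh w := by
  rw [mul_comm I w, Complex.sin_sub, Complex.cos_mul_I, Complex.sin_mul_I]
  ring

lemma norm_sin_leg (w : ℂ) : ‖sin ((l : ℂ) - I * w)‖ ^ 2 = Real.sin (l + w.im) ^ 2 + Real.sinh w.re ^ 2 := by
  rw [NUP1.norm_sin_sq]
  have e1 : ((l : ℂ) - I * w).re = l + w.im := by simp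
  have e2 : ((l : ℂ) - I * w).im = -w.re := by simp
  rw [e1, e2, Real.sinh_neg]; ring

/-- lower bound of the denominator in the strip `-2l/5 ≤ Im w ≤ l` -/
lemma den_low {w : ℂ} (h1 : -(2 / 5 * l) ≤ w.im) (h2 : w.im ≤ l) :
    Real.sin (3 / 5 * l) / 8 * Real.exp (2 * |w.re|) ≤ ‖cosh w * sin ((l : ℂ) - I * w)‖ := by
  have hl := l_pos
  have hl4 : l = Real.pi / 8 := rfl
  have hpi := Real.pi_pos
  have hs : 0 < Real.sin (3 / 5 * l) := Real.sin_pos_of_pos_of_lt_pi (by linarith) (by rw [hl4]; linarith)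
  have hs1 : Real.sin (3 / 5 * l) ≤ 1 := Real.sin_le_one _
  -- cosh
  have hc : r * Real.cosh w.re ≤ ‖cosh w‖ := by
    have h3 := norm_cosh_ge w
    have h4 := cos_ge_r (y := w.im) (abs_le.2 ⟨by linarith, h2⟩)
    have := Real.cosh_pos w.re
    nlinarith
  -- sine
  have hsin : Real.sin (3 / 5 * l) * Real.cosh w.re ≤ ‖sin ((l : ℂ) - I * w)‖ := by
    refine abs_le_of_sq_le_sq' ?_ (norm_nonneg _) |>.2
    rw [norm_sin_leg, mul_pow]
    have h5 : Real.sin (3 / 5 * l) ≤ Real.sin (l + w.im) :=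
      sin_ge_of (by linarith) (by linarith) (by rw [hl4] at h2 ⊢; linarith)
    have h6 : Real.sin (3 / 5 * l) ^ 2 ≤ Real.sin (l + w.im) ^ 2 := pow_le_pow_left₀ hs.le h5 2
    have h7 := Real.cosh_sq w.re
    have h8 : 0 ≤ Real.sinh w.re ^ 2 := sq_nonneg _
    have h9 : Real.sin (3 / 5 * l) ^ 2 ≤ 1 := pow_le_one₀ hs.le hs1
    rw [h7]
    nlinarith
  have he := exp_le_cosh w.re
  have hr2 : 1 / 2 ≤ r := by
    have h3 : r = √2 / 2 := rfl
    have h4 : (1 : ℝ) ≤ √2 := by rw [Real.one_le_sqrt]; norm_num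
    rw [h3]; linarith
  have hE := Real.exp_pos |w.re|
  rw [norm_mul, show Real.exp (2 * |w.re|) = Real.exp |w.re| * Real.exp |w.re| by rw [← Real.exp_add]; congr 1; ring]
  calc Real.sin (3 / 5 * l) / 8 * (Real.exp |w.re| * Real.exp |w.re|) =
      (1 / 2 * (Real.exp |w.re| / 2)) * (Real.sin (3 / 5 * l) * (Real.exp |w.re| / 2)) := by ring
    _ ≤ (r * Real.cosh w.re) * (Real.sin (3 / 5 * l) * Real.cosh w.re) := by
        have := Real.cosh_pos w.re
        gcongr
    _ ≤ _ := by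
        have := Real.cosh_pos w.re
        gcongr

/-- **the leg function is a test function**, every rate `a ≤ 2` -/
theorem h00_TC {a : ℝ} (ha : a ≤ 2) : PBE.TC (-(2 / 5 * l)) l a (8 / Real.sin (3 / 5 * l)) h00 := by
  have hl := l_pos
  have hl4 : l = Real.pi / 8 := rfl
  have hpi := Real.pi_pos
  have hs : 0 < Real.sin (3 / 5 * l) := Real.sin_pos_of_pos_of_lt_pi (by linarith) (by rw [hl4]; linarith)
  have hne : ∀ z ∈ PBE.Sp (-(2 / 5 * l)) l, cosh z * sin ((l : ℂ) - I * z) ≠ 0 := fun z hz =>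
    norm_pos_iff.1 (lt_of_lt_of_le (by positivity) (den_low hz.1.le hz.2.le))
  refine ⟨fun z hz => ?_, fun z hz => ?_⟩
  · have d : DifferentiableAt ℂ (fun w : ℂ => cosh w * sin ((l : ℂ) - I * w)) z := by fun_prop
    exact ((differentiableAt_const (I * cos (l : ℂ))).div d (hne z hz)).differentiableWithinAt
  · unfold h00
    have h1 := den_low hz.1.le hz.2.le
    have h2 : 0 < ‖cosh z * sin ((l : ℂ) - I * z)‖ := norm_pos_iff.2 (hne z hz)
    rw [norm_div, div_le_iff₀ h2, norm_mul, norm_I, one_mul]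
    have h3 : ‖cos (l : ℂ)‖ ≤ 1 := by
      rw [← ofReal_cos, norm_real, Real.norm_eq_abs]
      exact Real.abs_cos_le_one _
    have h4 : 1 ≤ Real.exp (-(a * |z.re|)) * Real.exp (2 * |z.re|) := by
      rw [← Real.exp_add]
      refine Real.one_le_exp ?_
      nlinarith [abs_nonneg z.re]
    have hE := Real.exp_pos (-(a * |z.re|))
    calc ‖cos (l : ℂ)‖ ≤ 1 := h3
      _ ≤ Real.exp (-(a * |z.re|)) * Real.exp (2 * |z.re|) := h4
      _ = 8 / Real.sin (3 / 5 * l) * Real.exp (-(a * |z.re|)) *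
          (Real.sin (3 / 5 * l) / 8 * Real.exp (2 * |z.re|)) := by
            have h5 : 8 / Real.sin (3 / 5 * l) * (Real.sin (3 / 5 * l) / 8) = 1 := by
              generalize Real.sin (3 / 5 * l) = s at hs ⊢
              field_simp
            calc Real.exp (-(a * |z.re|)) * Real.exp (2 * |z.re|) =
                (8 / Real.sin (3 / 5 * l) * (Real.sin (3 / 5 * l) / 8)) *
                  (Real.exp (-(a * |z.re|)) * Real.exp (2 * |z.re|)) := by rw [h5, one_mul]
              _ = _ := by ring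
      _ ≤ _ := by gcongr

lemma TC_sub {w1 w2 w1' w2' a M : ℝ} {g : ℂ → ℂ} (hg : PBE.TC w1 w2 a M g) (h1 : w1 ≤ w1') (h2 : w2' ≤ w2) :
    PBE.TC w1' w2' a M g where
  an := hg.an.mono fun z hz => ⟨by linarith [hz.1], by linarith [hz.2]⟩
  bd z hz := hg.bd z ⟨by linarith [hz.1], by linarith [hz.2]⟩

/-- the constant of the leg functions -/
def cL : ℝ := 8 / Real.sin (3 / 5 * l)

lemma cL_pos : 0 < cL := by
  have hl := l_pos
  have hl4 : l = Real.pi / 8 := rfl
  have hpi := Real.pi_pos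
  have hs : 0 < Real.sin (3 / 5 * l) := Real.sin_pos_of_pos_of_lt_pi (by linarith) (by rw [hl4]; linarith)
  unfold cL; positivity

theorem h0_TC {a : ℝ} (ha0 : 0 ≤ a) (ha : a ≤ 2) (τ : ℝ) :
    PBE.TC (-(2 / 5 * l)) l a (cL * Real.exp (a * |τ|)) (h0T τ) :=
  TC_shift (h00_TC ha) ha0 cL_pos.le τ

theorem h0_TC' {a : ℝ} (ha0 : 0 ≤ a) (ha : a ≤ 2) (τ : ℝ) :
    PBE.TC y1 y2 a (cL * Real.exp (a * |τ|)) (h0T τ) :=
  TC_sub (h0_TC ha0 ha τ) (by have := l_pos; show -(2 / 5 * l) ≤ -(l / 10); linarith)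
    (by have := l_pos; show 9 / 20 * l ≤ l; linarith)

theorem g2_TC {a : ℝ} (ha0 : 0 ≤ a) (ha : a ≤ 2) (τ : ℝ) :
    PBE.TC y1 y2 a (cL * Real.exp (a * |τ|) * Real.exp (a * (3 / 10 * l)) / (3 / 10 * l)) (g2T τ) := by
  have hl := l_pos
  have h := TC_sub (h0_TC ha0 ha τ) (w1' := y1 - 3 / 10 * l) (w2' := y2 + 3 / 10 * l)
    (by show -(2 / 5 * l) ≤ -(l / 10) - 3 / 10 * l; linarith) (by show 9 / 20 * l + 3 / 10 * l ≤ l; linarith)
  exact TC_deriv (by linarith) h ha0 (by have := cL_pos; positivity)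

theorem mass_g2 (τ : ℝ) : PBE.mass (g2T τ) = 0 := by
  have hl := l_pos
  have h := TC_sub (h0_TC zero_le_one one_le_two τ) (w1' := y1 - 3 / 10 * l) (w2' := y2 + 3 / 10 * l)
    (by show -(2 / 5 * l) ≤ -(l / 10) - 3 / 10 * l; linarith) (by show 9 / 20 * l + 3 / 10 * l ≤ l; linarith)
  exact mass_deriv (by linarith) h one_pos (by have := cL_pos; positivity)
    (by show -(l / 10) < 0; linarith) (by show 0 < 9 / 20 * l; linarith)

lemma arg_re (s : ℝ) : (sin (l : ℂ) - I * cos l * s).re = Real.sin l := by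
  have e : sin (l : ℂ) - I * cos l * s = (Real.sin l : ℂ) - (Real.cos l * s : ℝ) * I := by
    push_cast; ring
  rw [e, sub_re, ofReal_re, re_ofReal_mul, I_re, mul_zero, sub_zero]

lemma D0_arg_re (t : ℝ) : 0 < (sin (l : ℂ) - I * cos l * Real.tanh t).re := by
  have hl := l_pos
  have hl4 : l = Real.pi / 8 := rfl
  have hpi := Real.pi_pos
  rw [arg_re]
  exact Real.sin_pos_of_pos_of_lt_pi hl (by rw [hl4]; linarith)

theorem hasDerivAt_D0 (t : ℝ) : HasDerivAt D0 (h00 t) t := by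
  have h0 := D0_arg_re t
  have hne : sin (l : ℂ) - I * cos l * Real.tanh t ≠ 0 := fun h => by rw [h] at h0; simp at h0
  have hC : (Real.cosh t : ℂ) ≠ 0 := by exact_mod_cast (Real.cosh_pos t).ne'
  have ht : HasDerivAt Real.tanh (1 / Real.cosh t ^ 2) t := by
    have e : Real.tanh = fun t => Real.sinh t / Real.cosh t := by
      funext t; exact Real.tanh_eq_sinh_div_cosh t
    rw [e]
    have h4 : HasDerivAt (fun t => Real.sinh t / Real.cosh t) _ t :=
      (Real.hasDerivAt_sinh t).div (Real.hasDerivAt_cosh t) (Real.cosh_pos t).ne'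
    refine h4.congr_deriv ?_
    have h2 := Real.cosh_sq t
    have h3 : Real.cosh t * Real.cosh t - Real.sinh t * Real.sinh t = 1 := by
      have : Real.cosh t * Real.cosh t = Real.cosh t ^ 2 := by ring
      rw [this, h2]; ring
    rw [h3]
  have h1 : HasDerivAt (fun t : ℝ => sin (l : ℂ) - I * cos l * Real.tanh t)
      (-(I * cos l * ((1 / Real.cosh t ^ 2 : ℝ) : ℂ))) t := by
    have := (ht.ofReal_comp.const_mul (I * cos (l : ℂ))).const_sub (sin (l : ℂ))
    exact this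
  have h2 := (h1.clog_real (Or.inl h0)).neg
  refine HasDerivAt.congr_deriv (f := D0) h2 ?_
  unfold h00
  rw [sin_leg, Real.tanh_eq_sinh_div_cosh]
  rw [Real.tanh_eq_sinh_div_cosh] at hne
  push_cast at hne hC ⊢
  have hne2 : sin (l : ℂ) * cosh t - I * cos l * sinh t ≠ 0 := by
    intro h
    apply hne
    field_simp
    rw [mul_zero]
    exact h
  field_simp

lemma tendsto_tanh_top : Tendsto Real.tanh atTop (𝓝 1) := by
  have h1 : ∀ t : ℝ, Real.tanh t = 1 - 2 * Real.exp (-t) / (Real.exp t + Real.exp (-t)) := by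
    intro t
    rw [Real.tanh_eq_sinh_div_cosh, Real.sinh_eq, Real.cosh_eq]
    have := Real.exp_pos t
    have := Real.exp_pos (-t)
    field_simp
    ring
  have h2 : Tendsto (fun t : ℝ => 2 * Real.exp (-t) / (Real.exp t + Real.exp (-t))) atTop (𝓝 0) := by
    have h3 : Tendsto (fun t : ℝ => 2 * Real.exp (-t)) atTop (𝓝 0) := by
      simpa using (Real.tendsto_exp_neg_atTop_nhds_zero).const_mul 2
    refine squeeze_zero' (Eventually.of_forall fun t => by positivity) ?_ h3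
    filter_upwards [eventually_ge_atTop 0] with t ht
    have h4 : 1 ≤ Real.exp t := Real.one_le_exp ht
    have h5 := Real.exp_pos (-t)
    exact div_le_self (by positivity) (by linarith)
  have h3 := h2.const_sub 1
  rw [sub_zero] at h3
  exact h3.congr fun t => (h1 t).symm

lemma tendsto_tanh_bot : Tendsto Real.tanh atBot (𝓝 (-1)) := by
  have h := (tendsto_tanh_top.comp tendsto_neg_atBot_atTop).neg
  refine h.congr fun t => ?_
  simp [Real.tanh_neg]

lemma log_leg (σ : ℝ) (hσ : σ = 1 ∨ σ = -1) : Complex.log (sin (l : ℂ) - I * cos l * σ) = -(σ * (3 * l * I)) := by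
  have hl := l_pos
  have hl4 : l = Real.pi / 8 := rfl
  have hpi := Real.pi_pos
  have e : sin (l : ℂ) - I * cos l * σ = Complex.exp (-(σ * (3 * l * I))) := by
    have h3 : 3 * l = Real.pi / 2 - l := by rw [hl4]; ring
    have c3 : Real.cos (3 * l) = Real.sin l := by rw [h3, Real.cos_pi_div_two_sub]
    have s3 : Real.sin (3 * l) = Real.cos l := by rw [h3, Real.sin_pi_div_two_sub]
    have e1 : -((σ : ℂ) * (3 * l * I)) = ((-(σ * (3 * l)) : ℝ) : ℂ) * I := by push_cast; ring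
    have c4 : Real.cos (-(σ * (3 * l))) = Real.sin l := by
      rcases hσ with rfl | rfl
      · rw [one_mul, Real.cos_neg, c3]
      · rw [neg_one_mul, neg_neg, c3]
    have s4 : Real.sin (-(σ * (3 * l))) = -(σ * Real.cos l) := by
      rcases hσ with rfl | rfl
      · rw [one_mul, Real.sin_neg, s3, one_mul]
      · rw [neg_one_mul, neg_neg, s3]; ring
    rw [e1, Complex.exp_mul_I, ← Complex.ofReal_cos (-(σ * (3 * l))), ← Complex.ofReal_sin (-(σ * (3 * l))), c4, s4]
    push_cast; ring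
  rw [e, Complex.log_exp]
  · have : (-((σ : ℂ) * (3 * l * I))).im = -(σ * (3 * l)) := by simp
    rw [this]
    rcases hσ with rfl | rfl <;> rw [hl4] <;> linarith
  · have : (-((σ : ℂ) * (3 * l * I))).im = -(σ * (3 * l)) := by simp
    rw [this]
    rcases hσ with rfl | rfl <;> rw [hl4] <;> linarith

theorem D0_top : Tendsto D0 atTop (𝓝 (3 * l * I)) := by
  have h1 : Tendsto (fun t : ℝ => sin (l : ℂ) - I * cos l * Real.tanh t) atTop
      (𝓝 (sin (l : ℂ) - I * cos l * ((1 : ℝ) : ℂ))) :=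
    (((Complex.continuous_ofReal.tendsto 1).comp tendsto_tanh_top).const_mul _).const_sub _
  have h0 : 0 < (sin (l : ℂ) - I * cos l * ((1 : ℝ) : ℂ)).re := by
    rw [arg_re]
    have hl4 : l = Real.pi / 8 := rfl
    exact Real.sin_pos_of_pos_of_lt_pi l_pos (by rw [hl4]; linarith [Real.pi_pos])
  have h2 := (h1.clog (Or.inl h0)).neg
  rw [log_leg 1 (Or.inl rfl)] at h2
  have e : -(-(((1 : ℝ) : ℂ) * (3 * l * I))) = 3 * l * I := by push_cast; ring
  rw [e] at h2
  exact h2

theorem D0_bot : Tendsto D0 atBot (𝓝 (-(3 * l * I))) := by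
  have h1 : Tendsto (fun t : ℝ => sin (l : ℂ) - I * cos l * Real.tanh t) atBot
      (𝓝 (sin (l : ℂ) - I * cos l * ((-1 : ℝ) : ℂ))) :=
    (((Complex.continuous_ofReal.tendsto (-1)).comp tendsto_tanh_bot).const_mul _).const_sub _
  have h0 : 0 < (sin (l : ℂ) - I * cos l * ((-1 : ℝ) : ℂ)).re := by
    rw [arg_re]
    have hl4 : l = Real.pi / 8 := rfl
    exact Real.sin_pos_of_pos_of_lt_pi l_pos (by rw [hl4]; linarith [Real.pi_pos])
  have h2 := (h1.clog (Or.inl h0)).neg
  rw [log_leg (-1) (Or.inr rfl)] at h2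
  have e : -(-(((-1 : ℝ) : ℂ) * (3 * l * I))) = -(3 * l * I) := by push_cast; ring
  rw [e] at h2
  exact h2

/-- **the mass of the leg function** -/
theorem mass_h0 (τ : ℝ) : PBE.mass (h0T τ) = 6 * l * I := by
  have hl := l_pos
  have h := (h00_TC (a := 1) one_le_two).real one_pos (by linarith : -(2 / 5 * l) < 0) hl
  have h1 := integral_of_hasDerivAt_of_tendsto hasDerivAt_D0 h.1 D0_bot D0_top
  unfold PBE.mass h0T
  have h2 : ∫ t : ℝ, h00 ((t - τ : ℝ) : ℂ) = ∫ t : ℝ, h00 t :=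
    integral_sub_right_eq_self (μ := volume) (fun t : ℝ => h00 t) τ
  have h3 : (fun t : ℝ => h00 ((t : ℂ) - τ)) = fun t : ℝ => h00 ((t - τ : ℝ) : ℂ) := by
    funext t; push_cast; rfl
  rw [h3, h2, h1]
  ring

lemma mass_h0_ne (τ : ℝ) : PBE.mass (h0T τ) ≠ 0 := by
  rw [mass_h0]
  have h1 : (l : ℂ) ≠ 0 := by exact_mod_cast l_pos.ne'
  simp [h1]

end PBEI

end
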