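import Pool.Agent.PB.ExMix2

/-!
# Plan B: cutoff corrections and spectators, closure properties

`gP β W` : product of `psi β (u - w)`, `w ∈ W` (`|Re w| ≤ l / 2`), an admissible correction of the
cutoff: `ph β x (gP β W) = NUP1.phi β (ofFn x ++ W)`.
`SpA.mul`, `SpecQ.mul`, `SpA.exp`, `SpecQ.exp` : products and exponentials of bounded analytic
potentials.
-/

set_option autoImplicit false
set_option linter.unusedSectionVars false
set_option linter.unusedVariables false

noncomputable section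

open Complex MeasureTheory Filter Topology

namespace PBX

open NUP1 NUP1S NUP1.Bd NURow
open NUP1.N (Z3 Gr0)
open NUP1.Leg (hr)

variable {m : ℕ}

/-! ## corrections of the cutoff -/

/-- one factor: `1 - psi` decays -/
theorem bdd_one_sub_psiw {β : ℝ} (hβ : 0 < β) {K : Set ℝ} (hK : IsCompact K)
    (h : NQr β (l / 2) K) {w : ℂ} (hw : |w.re| ≤ l / 2) :
    Bdd K (-(2 * β)) (fun z => 1 - psi β (z - w)) :=
  (ub_one_sub_psi (Θ := Unit) (S := Set.univ) (w := fun _ => w) (ρ := |w.im|) hβ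
    (fun _ _ => ⟨hw, le_rfl⟩) hK h).bdd (Set.mem_univ ())

theorem bdd_psiw {β : ℝ} (hβ : 0 < β) {K : Set ℝ} (hK : IsCompact K)
    (h : NQr β (l / 2) K) {w : ℂ} (hw : |w.re| ≤ l / 2) :
    Bdd K 0 (fun z => psi β (z - w)) :=
  (ub_psi (Θ := Unit) (S := Set.univ) (w := fun _ => w) (ρ := |w.im|) hβ
    (fun _ _ => ⟨hw, le_rfl⟩) hK h).bdd (Set.mem_univ ())

theorem diffAt_psiw {β : ℝ} {K : Set ℝ} (h : NQr β (l / 2) K) {w : ℂ} (hw : |w.re| ≤ l / 2)
    {z : ℂ} (hz : z.re ∈ K) : DifferentiableAt ℂ (fun z => psi β (z - w)) z :=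
  (diff_psi' (by rw [sub_re]; exact h _ hz _ hw)).comp z (differentiableAt_id.sub_const _)

/-- product of the factors of a list of points -/
def gP (β : ℝ) (W : List ℂ) (u : ℂ) : ℂ := (W.map fun w => psi β (u - w)).prod

theorem gP_nil (β : ℝ) (u : ℂ) : gP β [] u = 1 := rfl

theorem gP_cons (β : ℝ) (w : ℂ) (W : List ℂ) (u : ℂ) :
    gP β (w :: W) u = psi β (u - w) * gP β W u := by
  simp [gP]

theorem ph_gP (β : ℝ) (x : Fin m → ℂ) (W : List ℂ) (u : ℂ) :
    ph β x (gP β W) u = NUP1.phi β (List.ofFn x ++ W) u := by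
  unfold ph gP NUP1.phi
  rw [List.map_append, List.prod_append, List.map_ofFn, List.prod_ofFn]
  rfl

theorem ph_one (β : ℝ) (x : Fin m → ℂ) (u : ℂ) :
    ph β x (fun _ => 1) u = NUP1.phi β (List.ofFn x) u := by
  rw [phi_ofFn]
  unfold ph
  rw [mul_one]

theorem measurable_gP (β : ℝ) (W : List ℂ) : Measurable (gP β W) := by
  induction W with
  | nil => exact measurable_const
  | cons w W ih =>
    have e : gP β (w :: W) = fun u => psi β (u - w) * gP β W u := by
      funext u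
      exact gP_cons β w W u
    rw [e]
    exact ((measurable_psi0 β).comp (measurable_id.sub_const _)).mul ih

theorem diffAt_gP {β : ℝ} {K : Set ℝ} (h : NQr β (l / 2) K) {W : List ℂ}
    (hW : ∀ w ∈ W, |w.re| ≤ l / 2) {z : ℂ} (hz : z.re ∈ K) : DifferentiableAt ℂ (gP β W) z := by
  induction W with
  | nil => exact differentiableAt_const (1 : ℂ)
  | cons w W ih =>
    have e : gP β (w :: W) = fun u => psi β (u - w) * gP β W u := by
      funext u
      exact gP_cons β w W u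
    rw [e]
    exact (diffAt_psiw h (hW w (by simp)) hz).mul (ih fun v hv => hW v (by simp [hv]))

/-- sum of two decaying functions -/
theorem Bdd.addB {K : Set ℝ} {s : ℝ} {f g : ℂ → ℂ} (h : Bdd K s f) (h' : Bdd K s g) :
    Bdd K s (fun z => f z + g z) := by
  obtain ⟨C, hC, h⟩ := h
  obtain ⟨D, hD, h'⟩ := h'
  refine ⟨C + D, add_nonneg hC hD, fun z hz => ?_⟩
  rw [add_mul]
  exact (norm_add_le _ _).trans (add_le_add (h z hz) (h' z hz))

theorem bdd_gP {β : ℝ} (hβ : 0 < β) {K : Set ℝ} (hK : IsCompact K) (h : NQr β (l / 2) K)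
    {W : List ℂ} (hW : ∀ w ∈ W, |w.re| ≤ l / 2) :
    Bdd K (-(2 * β)) (fun z => 1 - gP β W z) ∧ Bdd K 0 (gP β W) := by
  induction W with
  | nil =>
    refine ⟨⟨0, le_rfl, fun z _ => by simp [gP_nil]⟩, ⟨1, zero_le_one, fun z _ => by
      simp [gP_nil]⟩⟩
  | cons w W ih =>
    obtain ⟨h1, h2⟩ := ih fun v hv => hW v (by simp [hv])
    have h3 := bdd_one_sub_psiw hβ hK h (hW w (by simp))
    have h4 := bdd_psiw hβ hK h (hW w (by simp))
    constructor
    · refine Bdd.cg (Bdd.addB h3 ((h4.mul h1).rate (by ring))) fun z _ => ?_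
      rw [gP_cons]
      ring
    · refine Bdd.cg ((h4.mul h2).rate (by ring)) fun z _ => ?_
      rw [gP_cons]

/-- **Extra points in the cutoff.** -/
theorem GOk.gP {β : ℝ} (hβ : 0 < β) (hβ' : β ≤ 4 / 3) {W : List ℂ}
    (hW : ∀ w ∈ W, |w.re| ≤ l / 2) : GOk β (gP β W) where
  meas := measurable_gP β W
  bd := (bdd_gP hβ isCompact_KK (NQr_KK hβ hβ') hW).1
  diff _ hz := diffAt_gP (NQr_KK hβ hβ') hW hz

/-- product of two corrections -/
theorem GOk.mul {β : ℝ} (hβ : 0 < β) {g h : ℂ → ℂ} (hg : GOk β g) (hh : GOk β h) :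
    GOk β (fun u => g u * h u) where
  meas := hg.meas.mul hh.meas
  bd := by
    have h0 : Bdd KK 0 g := by
      have := (Bdd.const KK 1).sub (hg.bd.mono_rate (s' := 0) (by linarith))
      exact Bdd.cg this fun z _ => by ring
    refine Bdd.cg (Bdd.addB hg.bd ((h0.mul hh.bd).rate (by ring))) fun z _ => ?_
    ring
  diff z hz := (hg.diff z hz).mul (hh.diff z hz)

/-! ## spectators -/

theorem SpA.mul {s t : ℂ → ℂ} (hs : SpA s) (ht : SpA t) : SpA (fun u => s u * t u) where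
  meas := hs.meas.mul ht.meas
  diff z h1 h2 := (hs.diff z h1 h2).mul (ht.diff z h1 h2)
  gr := (hs.gr.mul ht.gr).mono (by norm_num)

theorem SpA.const (c : ℂ) : SpA (fun _ => c) where
  meas := measurable_const
  diff _ _ _ := differentiableAt_const c
  gr := Gr.const c

/-- exponential of a bounded analytic potential -/
theorem SpA.exp {h : ℂ → ℂ} (hm : Measurable h)
    (hd : ∀ z : ℂ, -(17 / 10 * l) ≤ z.re → z.re ≤ 3 / 5 * l → DifferentiableAt ℂ h z) {B : ℝ}
    (hb : ∀ z : ℂ, -(17 / 10 * l) ≤ z.re → z.re ≤ 3 / 5 * l → (h z).re ≤ B) :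
    SpA (fun u => Complex.exp (h u)) where
  meas := Complex.measurable_exp.comp hm
  diff z h1 h2 := (hd z h1 h2).cexp
  gr := ⟨Real.exp B, 0, (Real.exp_pos _).le, fun z h1 h2 _ => by
    rw [Complex.norm_exp, zero_mul, Real.exp_zero, mul_one]
    exact Real.exp_le_exp.2 (hb z h1 h2)⟩

theorem specQ_mul {b : Bool} {Q Q' : ℝ} {s1 s2 t1 t2 : ℂ → ℂ} (h : SpecQ b Q s1 s2)
    (h' : SpecQ b Q' t1 t2) :
    SpecQ b (Q + Q') (fun u => s1 u * t1 u) (fun u => s2 u * t2 u) where
  m1 := h.m1.mul h'.m1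
  m2 := h.m2.mul h'.m2
  b1 := (h.b1.mul h'.b1).rate (by ring)
  b2 := (h.b2.mul h'.b2).rate (by ring)
  d1 z hz := (h.d1 z hz).mul (h'.d1 z hz)
  d2 z hz := (h.d2 z hz).mul (h'.d2 z hz)
  mul z hz := by
    rw [h.mul z hz, h'.mul z hz]
    ring

/-- exponential of a bounded analytic potential: strings carry both constituents -/
theorem specQ_exp (b : Bool) {h : ℂ → ℂ} (hm : Measurable h)
    (hd : ∀ z : ℂ, z.re ∈ K1 → DifferentiableAt ℂ h z)
    (hd2 : ∀ z : ℂ, z.re ∈ K2 → DifferentiableAt ℂ (fun w => h w + h (w - l)) z) {B : ℝ}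
    (hb : ∀ z : ℂ, z.re ∈ K1 → (h z).re ≤ B)
    (hb2 : ∀ z : ℂ, z.re ∈ K2 → (h z + h (z - l)).re ≤ B) :
    SpecQ b 0 (fun u => Complex.exp (h u)) (fun w => Complex.exp (h w + h (w - l))) where
  m1 := Complex.measurable_exp.comp hm
  m2 := Complex.measurable_exp.comp (hm.add (hm.comp (measurable_id.sub_const _)))
  b1 := ⟨Real.exp B, (Real.exp_pos _).le, fun z hz => by
    rw [Complex.norm_exp]
    refine (Real.exp_le_exp.2 (hb z hz)).trans ?_
    rw [show -(2 * (0 : ℝ) * sc (b, .A)) = 0 by ring, zero_mul, Real.exp_zero, mul_one]⟩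
  b2 := ⟨Real.exp B, (Real.exp_pos _).le, fun z hz => by
    rw [Complex.norm_exp]
    refine (Real.exp_le_exp.2 (hb2 z hz)).trans ?_
    rw [show -(2 * (0 : ℝ) * sc (b, .S)) = 0 by ring, zero_mul, Real.exp_zero, mul_one]⟩
  d1 z hz := (hd z hz).cexp
  d2 z hz := (hd2 z hz).cexp
  mul z _ := Complex.exp_add _ _

/-- a general factor of the strings of modulus `O(1)` which is one on the start line is allowed -/
theorem specQ_one (b : Bool) : SpecQ b 0 (fun _ => 1) (fun _ => 1) where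
  m1 := measurable_const
  m2 := measurable_const
  b1 := ⟨1, zero_le_one, fun z _ => by
    rw [show -(2 * (0 : ℝ) * sc (b, .A)) = 0 by ring]
    simp⟩
  b2 := ⟨1, zero_le_one, fun z _ => by
    rw [show -(2 * (0 : ℝ) * sc (b, .S)) = 0 by ring]
    simp⟩
  d1 _ _ := differentiableAt_const _
  d2 _ _ := differentiableAt_const _
  mul _ _ := by simp

end PBX

end
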