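import Pool.Agent.PB.LegNode
import Pool.Agent.PB.Rho

/-!
# The prefactor of the dislocated function (helper71)

`Pf z x y` = the weight of the empty rows with the two legs at `z` over the bulk factors (pairs of
`x ∪ y`, pairs of `x ∪ y ∪ {z, z}`).  `Pf_leg`: `Pf (x₀ + 3 l) (x₀, x) (x₀, y) = Pf x₀ x y`.
-/

set_option autoImplicit false

noncomputable section

open Complex

namespace Pool.Agent.PB

open NUP1 (l lpos P_succ)
open NUP1.Grand (P)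
open PBR (rh rh_neg rh_ne_zero rh_mul rh_zero rh_three r2 r2_sq)

variable {m M : ℕ}

/-- the two legs and an empty row, one group -/
def Lp (z w : ℂ) : ℂ := sin (z - w + 2 * l) * sin (z - w + 3 * l)

/-- two empty rows -/
def Fp (w : ℂ) : ℂ := sin (w + 2 * l) * sin (w + 3 * l) * (sin (3 * l - w) * sin (2 * l - w))

theorem Fp_neg (w : ℂ) : Fp (-w) = Fp w := by
  unfold Fp
  rw [show -w + 2 * (l : ℂ) = 2 * l - w by ring, show -w + 3 * (l : ℂ) = 3 * l - w by ring,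
    show 3 * (l : ℂ) - -w = w + 3 * l by ring, show 2 * (l : ℂ) - -w = w + 2 * l by ring]
  ring

/-- the empty rows of a group -/
def Nu (z : ℂ) (x : Fin m → ℂ) : ℂ := (∏ i, sin l * Lp z (x i)) * P fun i j => Fp (x i - x j)

/-- bulk factors of a group with itself and the legs -/
def D1 (z : ℂ) (x : Fin m → ℂ) : ℂ := (P fun i j => rh (x i - x j) ^ 2) * ∏ i, rh (z - x i) ^ 2

/-- bulk factors of the two groups -/
def D2 (x : Fin m → ℂ) (y : Fin M → ℂ) : ℂ := ∏ i, ∏ j, rh (x i - y j) ^ 2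

/-- the prefactor -/
def Pf (z : ℂ) (x : Fin m → ℂ) (y : Fin M → ℂ) : ℂ :=
  (3 / 2) ^ (m + M + 1) * sin l * (Nu z x * Nu z y) / (D1 z x * D1 z y * D2 x y * rh 0)

theorem sin5 (v : ℂ) : sin (v + 3 * l + 2 * l) = sin (3 * l - v) := by
  rw [show v + 3 * (l : ℂ) + 2 * l = Real.pi - (3 * l - v) by rw [← eight]; ring, Complex.sin_pi_sub]

theorem sin6 (v : ℂ) : sin (v + 3 * l + 3 * l) = sin (2 * l - v) := by
  rw [show v + 3 * (l : ℂ) + 3 * l = Real.pi - (2 * l - v) by rw [← eight]; ring, Complex.sin_pi_sub]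

/-- the crossed factor -/
def Sx (v : ℂ) : ℂ := sin (3 * l - v) * sin (2 * l - v)

theorem Lp_leg (x₀ w : ℂ) : Lp (x₀ + 3 * l) w * Fp (x₀ - w) = Lp x₀ w * Sx (x₀ - w) ^ 2 := by
  unfold Lp Fp Sx
  rw [show x₀ + 3 * (l : ℂ) - w + 2 * l = x₀ - w + 3 * l + 2 * l by ring,
    show x₀ + 3 * (l : ℂ) - w + 3 * l = x₀ - w + 3 * l + 3 * l by ring, sin5, sin6]
  ring

theorem Lp_self (x₀ : ℂ) : Lp (x₀ + 3 * l) x₀ = sin (3 * l) * sin (2 * l) := by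
  unfold Lp
  rw [show x₀ + 3 * (l : ℂ) - x₀ + 2 * l = 0 + 3 * l + 2 * l by ring,
    show x₀ + 3 * (l : ℂ) - x₀ + 3 * l = 0 + 3 * l + 3 * l by ring, sin5, sin6, sub_zero, sub_zero]

theorem Nu_leg (x₀ : ℂ) (x : Fin m → ℂ) :
    Nu (x₀ + 3 * l) (Fin.cons x₀ x : Fin (m + 1) → ℂ) =
      sin l * (sin (3 * l) * sin (2 * l)) * (∏ i, Sx (x₀ - x i) ^ 2) * Nu x₀ x := by
  unfold Nu
  rw [Fin.prod_univ_succ, P_succ]
  simp only [Fin.cons_zero, Fin.cons_succ]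
  rw [Lp_self]
  have e1 : (∏ i, sin l * Lp (x₀ + 3 * l) (x i)) * (∏ j, Fp (x₀ - x j)) =
      (∏ i, Sx (x₀ - x i) ^ 2) * ∏ i, sin l * Lp x₀ (x i) := by
    rw [← Finset.prod_mul_distrib, ← Finset.prod_mul_distrib]
    refine Finset.prod_congr rfl fun i _ => ?_
    linear_combination sin l * Lp_leg x₀ (x i)
  linear_combination (sin l * (sin (3 * l) * sin (2 * l)) * P fun i j => Fp (x i - x j)) * e1

theorem D1_leg (x₀ : ℂ) (x : Fin m → ℂ) :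
    D1 (x₀ + 3 * l) (Fin.cons x₀ x : Fin (m + 1) → ℂ) =
      rh (3 * l) ^ 2 * (∏ i, rh (x₀ - x i + 3 * l) ^ 2) * D1 x₀ x := by
  unfold D1
  rw [Fin.prod_univ_succ, P_succ]
  simp only [Fin.cons_zero, Fin.cons_succ]
  rw [show x₀ + 3 * (l : ℂ) - x₀ = 3 * l by ring]
  have e : ∀ i, x₀ + 3 * (l : ℂ) - x i = x₀ - x i + 3 * l := fun i => by ring
  simp only [e]
  ring

theorem D2_leg {x₀ : ℂ} (x : Fin m → ℂ) (y : Fin M → ℂ) :
    D2 (Fin.cons x₀ x : Fin (m + 1) → ℂ) (Fin.cons x₀ y : Fin (M + 1) → ℂ) =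
      rh 0 ^ 2 * (∏ j, rh (x₀ - y j) ^ 2) * (∏ i, rh (x₀ - x i) ^ 2) * D2 x y := by
  unfold D2
  rw [Fin.prod_univ_succ]
  simp only [Fin.cons_zero, Fin.cons_succ]
  rw [Fin.prod_univ_succ]
  simp only [Fin.cons_zero, Fin.cons_succ, sub_self]
  have e : ∀ i, ∏ j, rh (x i - (Fin.cons x₀ y : Fin (M + 1) → ℂ) j) ^ 2 =
      rh (x₀ - x i) ^ 2 * ∏ j, rh (x i - y j) ^ 2 := by
    intro i
    rw [Fin.prod_univ_succ]
    simp only [Fin.cons_zero, Fin.cons_succ]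
    rw [← rh_neg (x i - x₀), neg_sub]
  rw [Finset.prod_congr rfl fun i _ => e i, Finset.prod_mul_distrib]
  ring

/-! ### the constant -/

theorem cosl_sq : cos (l : ℂ) ^ 2 = (2 + r2) / 4 := by
  have h := Complex.cos_sq (l : ℂ)
  have h2 : cos (2 * (l : ℂ)) = r2 / 2 := by
    rw [← PBR.cos_pi4]
    congr 1
    unfold NUP1.l
    push_cast
    ring
  rw [h, h2]
  ring

theorem sinl_sq : sin (l : ℂ) ^ 2 = (2 - r2) / 4 := by
  have h := Complex.sin_sq_add_cos_sq (l : ℂ)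
  rw [cosl_sq] at h
  linear_combination h

theorem sin3_eq : sin (3 * (l : ℂ)) = cos l := by
  rw [show (3 * (l : ℂ)) = Real.pi / 2 - l by
    unfold NUP1.l
    push_cast
    ring, Complex.sin_pi_div_two_sub]

theorem sin2_sq : sin (2 * (l : ℂ)) ^ 2 = 1 / 2 := by
  rw [Complex.sin_two_mul]
  have h1 := cosl_sq
  have h2 := sinl_sq
  calc (2 * sin (l : ℂ) * cos l) ^ 2 = 4 * (sin (l : ℂ) ^ 2) * (cos (l : ℂ) ^ 2) := by ring
    _ = 1 / 2 := by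
        rw [h1, h2]
        linear_combination (-1 / 4 : ℂ) * r2_sq

theorem const_leg : (9 / 4 : ℂ) * (sin l * (sin (3 * l) * sin (2 * l))) ^ 2 =
    rh (3 * l) ^ 4 * rh 0 ^ 2 := by
  rw [rh_three, rh_zero, sin3_eq]
  have h1 := cosl_sq
  have h2 := sinl_sq
  have h3 := sin2_sq
  have h4 := r2_sq
  have e1 : (sin (l : ℂ) * (cos l * sin (2 * l))) ^ 2 =
      sin (l : ℂ) ^ 2 * cos (l : ℂ) ^ 2 * sin (2 * (l : ℂ)) ^ 2 := by ring
  have e2 : (3 / 2 * (r2 - 1) * cos (l : ℂ)) ^ 4 = 81 / 16 * (r2 - 1) ^ 4 * (cos (l : ℂ) ^ 2) ^ 2 := by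
    ring
  rw [e1, e2, h1, h2, h3]
  have e3 : (r2 - 1) ^ 4 = 17 - 12 * r2 := by
    have : (r2 - 1) ^ 4 = (r2 ^ 2) ^ 2 - 4 * r2 * r2 ^ 2 + 6 * r2 ^ 2 - 4 * r2 + 1 := by ring
    rw [this, h4]
    ring
  have e4 : (2 + r2) ^ 2 = 6 + 4 * r2 := by
    have : (2 + r2) ^ 2 = 4 + 4 * r2 + r2 ^ 2 := by ring
    rw [this, h4]
    ring
  have e5 : (2 - r2) * (2 + r2) = 2 := by
    have : (2 - r2) * (2 + r2) = 4 - r2 ^ 2 := by ring
    rw [this, h4]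
    norm_num
  have l1 : (9 / 4 : ℂ) * ((2 - r2) / 4 * ((2 + r2) / 4) * (1 / 2)) = 9 / 64 := by
    linear_combination (9 / 128 : ℂ) * e5
  have r1 : 81 / 16 * (r2 - 1) ^ 4 * ((2 + r2) / 4) ^ 2 * ((2 + r2) / 3) ^ 2 =
      9 / 256 * ((r2 - 1) ^ 4 * ((2 + r2) ^ 2) ^ 2) := by ring
  rw [l1, r1, e3, e4]
  have e6 : (17 - 12 * r2) * (6 + 4 * r2) ^ 2 = 4 := by
    have : (17 - 12 * r2) * (6 + 4 * r2) ^ 2 =
        612 + 816 * r2 - 432 * r2 + 272 * r2 ^ 2 - 576 * r2 ^ 2 - 192 * r2 * r2 ^ 2 := by ring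
    rw [this, h4]
    ring
  rw [e6]
  norm_num

/-- **The prefactor**: the row `x₀` and the legs at `x₀ + 3 l` are the legs at `x₀`. -/
theorem Pf_leg {x₀ : ℂ} {x : Fin m → ℂ} {y : Fin M → ℂ} (hx : ∀ i, |(x₀ - x i).re| ≤ l)
    (hy : ∀ i, |(x₀ - y i).re| ≤ l) :
    Pf (x₀ + 3 * l) (Fin.cons x₀ x : Fin (m + 1) → ℂ) (Fin.cons x₀ y : Fin (M + 1) → ℂ) =
      Pf x₀ x y := by
  have hl := lpos
  have k1 : ∀ {v : ℂ}, |v.re| ≤ l → rh v ≠ 0 := fun h => rh_ne_zero (by linarith)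
  have k2 : ∀ {v : ℂ}, |v.re| ≤ l → rh (v + 3 * l) ≠ 0 := fun {v} h => by
    refine rh_ne_zero ?_
    have e : (v + 3 * (l : ℂ)).re = v.re + 3 * l := by simp
    rw [e]
    obtain ⟨h1, h2⟩ := abs_le.1 h
    rw [abs_lt]
    constructor <;> linarith
  have k3 : ∀ {v : ℂ}, |v.re| ≤ l → rh v * rh (v + 3 * l) = Sx v := fun {v} h => by
    refine rh_mul (by linarith) ?_
    obtain ⟨h1, h2⟩ := abs_le.1 h
    rw [abs_lt]
    constructor <;> linarith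
  have k4 : rh (3 * l) ≠ 0 := by
    have := k2 (v := 0) (by simpa using hl.le)
    rwa [zero_add] at this
  have k5 : rh 0 ≠ 0 := k1 (by simpa using hl.le)
  have k6 : ∀ {n : ℕ} {u : Fin n → ℂ}, (∀ i, |(x₀ - u i).re| ≤ l) →
      (∏ i, rh (x₀ - u i + 3 * l) ^ 2) * (∏ i, rh (x₀ - u i) ^ 2) = ∏ i, Sx (x₀ - u i) ^ 2 := by
    intro n u hu
    rw [← Finset.prod_mul_distrib]
    refine Finset.prod_congr rfl fun i _ => ?_
    rw [← k3 (hu i)]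
    ring
  have k7 : ∀ {n : ℕ} {u : Fin n → ℂ}, (∀ i, |(x₀ - u i).re| ≤ l) →
      ∏ i, rh (x₀ - u i) ^ 2 ≠ 0 := fun hu =>
    Finset.prod_ne_zero_iff.2 fun i _ => pow_ne_zero _ (k1 (hu i))
  have k8 : ∀ {n : ℕ} {u : Fin n → ℂ}, (∀ i, |(x₀ - u i).re| ≤ l) →
      ∏ i, rh (x₀ - u i + 3 * l) ^ 2 ≠ 0 := fun hu =>
    Finset.prod_ne_zero_iff.2 fun i _ => pow_ne_zero _ (k2 (hu i))
  unfold Pf
  rw [Nu_leg, Nu_leg, D1_leg, D1_leg, D2_leg, ← k6 hx, ← k6 hy]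
  have hcon := const_leg
  have a1 := k7 hx
  have a2 := k7 hy
  have a3 := k8 hx
  have a4 := k8 hy
  generalize (∏ i, rh (x₀ - x i) ^ 2) = A1 at *
  generalize (∏ i, rh (x₀ - y i) ^ 2) = A2 at *
  generalize (∏ i, rh (x₀ - x i + 3 * l) ^ 2) = A3 at *
  generalize (∏ i, rh (x₀ - y i + 3 * l) ^ 2) = A4 at *
  generalize D1 x₀ x = B1
  generalize D1 x₀ y = B2
  generalize D2 x y = B3
  generalize Nu x₀ x = C1
  generalize Nu x₀ y = C2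
  generalize hK : sin (l : ℂ) * (sin (3 * l) * sin (2 * l)) = K at *
  have e1 : ((3 : ℂ) / 2) ^ (m + 1 + (M + 1) + 1) * sin l * (K * (A3 * A1) * C1 * (K * (A4 * A2) * C2)) =
      (9 / 4 * K ^ 2) * (A1 * A2 * A3 * A4) * (((3 : ℂ) / 2) ^ (m + M + 1) * sin l * (C1 * C2)) := by
    rw [show m + 1 + (M + 1) + 1 = m + M + 1 + 2 by ring, pow_add]
    ring
  have e2 : rh (3 * l) ^ 2 * A3 * B1 * (rh (3 * l) ^ 2 * A4 * B2) * (rh 0 ^ 2 * A2 * A1 * B3) * rh 0 =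
      (rh (3 * l) ^ 4 * rh 0 ^ 2) * (A1 * A2 * A3 * A4) * (B1 * B2 * B3 * rh 0) := by ring
  rw [e1, e2, hcon]
  rw [mul_div_mul_left]
  exact mul_ne_zero (mul_ne_zero (pow_ne_zero _ k4) (pow_ne_zero _ k5))
    (mul_ne_zero (mul_ne_zero (mul_ne_zero a1 a2) a3) a4)

end Pool.Agent.PB

end
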