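import Pool.Agent.PB.TRSum
import Pool.Agent.PB.Rho

/-!
# Plan B, (TR): exact complex mean field of half quanta and legs against the density `P`

`LSn z = log (sin z)` (principal, `0 < Re z < π`), `fS z = LSn z - LSn (z + 3l)` (`0 < Re z < 5l`),
`LCD z = LSn z - LSn (z + l) + LSn (z + 2l) - LSn (z + 3l) + LSn (z + 4l) - LSn (z + 5l)` (`0 < Re z < 3l`),
`exp (LCD z) = Ck z * Dk z`.  For a row at the real position `x`, `|x| < l`:

* `half_flat`: `∫ Pc (s + i x) LCD (w - l - i s) ds = fS (w - x)`, `l < Re w < 4 l`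
  (half quantum: exactly flat, also the phase);
* `leg_mf`: `exp (∫ Pc (s + i x) fS (z + l - i s) ds) * rh (z - x) ^ 2 =
  sin (z - x + 2 l) sin (z - x + 3 l)`, `-l < Re z < 4 l` (leg at `z`).
-/

set_option autoImplicit false

open MeasureTheory Set Filter Topology Complex

namespace Pool.Agent.PB

open NUMF

noncomputable section

/-- `log sin`, analytic for `0 < Re z < π` -/
def LSn (z : ℂ) : ℂ := Complex.log (Complex.sin z)

lemma re_sin (z : ℂ) : (Complex.sin z).re = Real.sin z.re * Real.cosh z.im := by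
  have h : Complex.sin z = Complex.sin (z.re + z.im * I) := by rw [Complex.re_add_im]
  rw [h, Complex.sin_add_mul_I, ← Complex.ofReal_sin, ← Complex.ofReal_cos, ← Complex.ofReal_cosh,
    ← Complex.ofReal_sinh, Complex.add_re, ← Complex.ofReal_mul, Complex.ofReal_re, mul_assoc,
    mul_comm _ I, ← mul_assoc, mul_comm _ I, mul_assoc, ← Complex.ofReal_mul, Complex.re_mul_ofReal]
  simp

lemma sin_re_pos {z : ℂ} (h0 : 0 < z.re) (h1 : z.re < 8 * l) : 0 < (Complex.sin z).re := by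
  rw [re_sin]
  have h2 : 0 < Real.sin z.re := Real.sin_pos_of_pos_of_lt_pi h0 (by
    have : 8 * l = Real.pi := by unfold l; ring
    linarith)
  exact mul_pos h2 (Real.cosh_pos _)

lemma sin_slit {z : ℂ} (h0 : 0 < z.re) (h1 : z.re < 8 * l) : Complex.sin z ∈ slitPlane :=
  Or.inl (sin_re_pos h0 h1)

lemma sin_neS {z : ℂ} (h0 : 0 < z.re) (h1 : z.re < 8 * l) : Complex.sin z ≠ 0 :=
  slitPlane_ne_zero (sin_slit h0 h1)

lemma exp_LS {z : ℂ} (h0 : 0 < z.re) (h1 : z.re < 8 * l) : Complex.exp (LSn z) = Complex.sin z :=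
  Complex.exp_log (sin_neS h0 h1)

lemma hasDerivAt_LS {z : ℂ} (h0 : 0 < z.re) (h1 : z.re < 8 * l) :
    HasDerivAt LSn (Complex.cos z / Complex.sin z) z :=
  (Complex.hasDerivAt_sin z).clog (sin_slit h0 h1)

lemma diff_LS {z : ℂ} (h0 : 0 < z.re) (h1 : z.re < 8 * l) : DifferentiableAt ℂ LSn z :=
  (hasDerivAt_LS h0 h1).differentiableAt

lemma norm_sin_le_exp (z : ℂ) : ‖Complex.sin z‖ ≤ Real.exp |z.im| := by
  have h2 : ‖Complex.sin z‖ ^ 2 ≤ (Real.exp |z.im|) ^ 2 := by
    have h3 : ‖Complex.sin z‖ ^ 2 = Real.sin z.re ^ 2 + Real.sinh z.im ^ 2 := by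
      have h : Complex.sin z = ((Real.sin z.re * Real.cosh z.im : ℝ) : ℂ) +
          ((Real.cos z.re * Real.sinh z.im : ℝ) : ℂ) * I := by
        conv_lhs => rw [← Complex.re_add_im z]
        rw [Complex.sin_add_mul_I]
        push_cast
        ring
      rw [h, ← Complex.normSq_eq_norm_sq, Complex.normSq_add_mul_I]
      have e1 := Real.cosh_sq z.im
      have e2 := Real.sin_sq_add_cos_sq z.re
      nlinarith
    have h4 : Real.cosh z.im ≤ Real.exp |z.im| := by
      rw [← Real.cosh_abs, Real.cosh_eq]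
      have : Real.exp (-|z.im|) ≤ Real.exp |z.im| :=
        Real.exp_le_exp.2 (by linarith [abs_nonneg z.im])
      linarith
    have e1 := Real.cosh_sq z.im
    have e2 := Real.sin_sq_le_one z.re
    have e3 := Real.cosh_pos z.im
    rw [h3]
    nlinarith
  exact abs_le_of_sq_le_sq' h2 (Real.exp_pos _).le |>.2

/-- growth of `LSn` in a closed strip -/
lemma LS_bound {a b : ℝ} (ha : 0 < a) (hb : b < 8 * l) : ∃ C : ℝ, 0 ≤ C ∧ ∀ z : ℂ, a ≤ z.re →
    z.re ≤ b → ‖LSn z‖ ≤ |z.im| + C := by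
  rcases lt_or_ge b a with hab | hab
  · exact ⟨0, le_rfl, fun z h1 h2 => absurd (h1.trans h2) (not_le.2 hab)⟩
  have hpi : 8 * l = Real.pi := by unfold l; ring
  obtain ⟨x0, hx0, hm⟩ := (isCompact_Icc (a := a) (b := b)).exists_isMinOn
    (nonempty_Icc.2 hab) Real.continuous_sin.continuousOn
  have hm0 : 0 < Real.sin x0 := Real.sin_pos_of_pos_of_lt_pi (by linarith [hx0.1])
    (by linarith [hx0.2])
  refine ⟨|Real.log (Real.sin x0)| + Real.pi, by positivity, fun z h1 h2 => ?_⟩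
  have h3 : Real.sin x0 ≤ ‖Complex.sin z‖ := by
    have h4 : Real.sin x0 ≤ Real.sin z.re := hm ⟨h1, h2⟩
    have h5 := Complex.re_le_norm (Complex.sin z)
    rw [re_sin] at h5
    have h6 := Real.one_le_cosh z.im
    nlinarith
  have h4 := norm_sin_le_exp z
  have h5 : 0 < ‖Complex.sin z‖ := lt_of_lt_of_le hm0 h3
  have h6 : |Real.log ‖Complex.sin z‖| ≤ |z.im| + |Real.log (Real.sin x0)| := by
    have l1 : Real.log ‖Complex.sin z‖ ≤ |z.im| := by
      have := Real.log_le_log h5 h4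
      rwa [Real.log_exp] at this
    have l2 : Real.log (Real.sin x0) ≤ Real.log ‖Complex.sin z‖ := Real.log_le_log hm0 h3
    rw [abs_le]
    constructor
    · have := neg_abs_le (Real.log (Real.sin x0))
      have := abs_nonneg z.im
      linarith
    · have := abs_nonneg (Real.log (Real.sin x0))
      linarith
  have h7 : ‖LSn z‖ ≤ |(LSn z).re| + |(LSn z).im| := Complex.norm_le_abs_re_add_abs_im _
  have h8 : (LSn z).re = Real.log ‖Complex.sin z‖ := Complex.log_re _
  have h9 : |(LSn z).im| ≤ Real.pi := by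
    unfold LSn
    rw [Complex.log_im]
    exact Complex.abs_arg_le_pi _
  rw [h8] at h7
  linarith

/-- `log (sin z / sin (z + 3 l))` -/
def fS (z : ℂ) : ℂ := LSn z - LSn (z + 3 * l)

/-- `log (Ck z * Dk z)` -/
def LCD (z : ℂ) : ℂ := fS z - fS (z + l) + fS (z + 2 * l)

lemma re_addk (z : ℂ) (k : ℝ) : (z + (k : ℂ) * l).re = z.re + k * l := by simp

lemma re_add3 (z : ℂ) : (z + 3 * (l : ℂ)).re = z.re + 3 * l := by simp

lemma diff_fS {z : ℂ} (h0 : 0 < z.re) (h1 : z.re < 5 * l) : DifferentiableAt ℂ fS z := by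
  have hl := l_pos
  have h3 : DifferentiableAt ℂ LSn (z + 3 * l) :=
    diff_LS (z := z + 3 * l) (by rw [re_add3]; linarith) (by rw [re_add3]; linarith)
  have h2 : DifferentiableAt ℂ (fun z : ℂ => LSn (z + 3 * l)) z :=
    DifferentiableAt.comp (g := LSn) (f := fun z : ℂ => z + 3 * l) z h3 (by fun_prop)
  exact (diff_LS h0 (by linarith)).sub h2

lemma exp_fS {z : ℂ} (h0 : 0 < z.re) (h1 : z.re < 5 * l) :
    Complex.exp (fS z) = Complex.sin z / Complex.sin (z + 3 * l) := by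
  have hl := l_pos
  unfold fS
  rw [Complex.exp_sub, exp_LS h0 (by linarith), exp_LS (by rw [re_add3]; linarith)
    (by rw [re_add3]; linarith)]

lemma fS_bound {a b : ℝ} (ha : 0 < a) (hb : b < 5 * l) : ∃ C : ℝ, 0 ≤ C ∧ ∀ z : ℂ, a ≤ z.re →
    z.re ≤ b → ‖fS z‖ ≤ 2 * |z.im| + C := by
  have hl := l_pos
  obtain ⟨C1, c1, h1⟩ := LS_bound (a := a) (b := b) ha (by linarith)
  obtain ⟨C2, c2, h2⟩ := LS_bound (a := a + 3 * l) (b := b + 3 * l) (by linarith) (by linarith)
  refine ⟨C1 + C2, by linarith, fun z ha hb => ?_⟩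
  have e1 := h1 z ha hb
  have e2 := h2 (z + 3 * l) (by rw [re_add3]; linarith) (by rw [re_add3]; linarith)
  have e3 : (z + 3 * (l : ℂ)).im = z.im := by simp
  rw [e3] at e2
  unfold fS
  calc _ ≤ ‖LSn z‖ + ‖LSn (z + 3 * l)‖ := norm_sub_le _ _
    _ ≤ _ := by linarith

lemma lin_le_exp {y C M : ℝ} (hC : 0 ≤ C) (hM : 0 ≤ M) (hy : 0 ≤ y) :
    M * y + C ≤ (M + C) * Real.exp (1 * y) := by
  have h1 := Real.add_one_le_exp (1 * y)
  have h2 : 1 ≤ Real.exp (1 * y) := Real.one_le_exp (by linarith)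
  nlinarith

/-- the sum rule on the line `w - i s`, for a function of the position -/
theorem sum_rule_pos' {f : ℂ → ℂ} {w : ℂ} {x a b M C : ℝ} (hx : |x| < l) (hM : 0 ≤ M) (hC : 0 ≤ C)
    (ha : a < w.re - l) (hb : w.re + l < b)
    (hd : ∀ z : ℂ, a < z.re → z.re < b → DifferentiableAt ℂ f z)
    (hbd : ∀ z : ℂ, w.re - l ≤ z.re → z.re ≤ w.re + l → ‖f z‖ ≤ M * |z.im| + C) :
    Integrable (fun s : ℝ => Pc (s + x * I) * f (w + l - s * I)) ∧
    Integrable (fun s : ℝ => Pc (s + x * I) * f (w - l - s * I)) ∧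
    Integrable (fun s : ℝ => Pc (s + x * I) * f (w - s * I)) ∧
    ∫ s : ℝ, Pc (s + x * I) * (f (w + l - s * I) + f (w - l - s * I) - f (w - s * I)) =
      f (w - x) := by
  have hl := l_pos
  have hre : ∀ ζ : ℂ, (w - x - I * ζ).re = w.re - x + ζ.im := fun ζ => by simp
  have him : ∀ ζ : ℂ, (w - x - I * ζ).im = w.im - ζ.re := fun ζ => by simp
  have hD : ∀ ζ : ℂ, x - l ≤ ζ.im → ζ.im ≤ x + l →
      DifferentiableAt ℂ (fun ζ => f (w - x - I * ζ)) ζ := by
    intro ζ h1 h2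
    have h3 : DifferentiableAt ℂ f (w - x - I * ζ) := hd _ (by rw [hre]; linarith)
      (by rw [hre]; linarith)
    exact h3.comp ζ (by fun_prop)
  obtain ⟨k1, k2, k3, k4⟩ := sum_ruleX (f := fun ζ => f (w - x - I * ζ)) (x := x)
    (A := M + (M * |w.im| + C)) (c := 1) hx zero_le_one (by norm_num)
    (fun ζ hζ => (hD ζ hζ.1 hζ.2).continuousAt.continuousWithinAt)
    (fun ζ h1 h2 => hD ζ h1.le h2.le)
    (by
      intro ζ h1 h2
      have h3 := hbd (w - x - I * ζ) (by rw [hre]; linarith) (by rw [hre]; linarith)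
      rw [him] at h3
      have h4 : |w.im - ζ.re| ≤ |w.im| + |ζ.re| := abs_sub _ _
      have h5 : M * |w.im - ζ.re| ≤ M * (|w.im| + |ζ.re|) := mul_le_mul_of_nonneg_left h4 hM
      have h6 := lin_le_exp (y := |ζ.re|) (C := M * |w.im| + C) (M := M) (by positivity) hM
        (abs_nonneg _)
      linarith)
  have e1 : ∀ s : ℝ, f (w - x - I * ((s : ℂ) + (x + l : ℝ) * I)) = f (w + l - s * I) := by
    intro s
    congr 1
    push_cast
    linear_combination (-(x : ℂ) - l) * I_mul_I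
  have e2 : ∀ s : ℝ, f (w - x - I * ((s : ℂ) + (x - l : ℝ) * I)) = f (w - l - s * I) := by
    intro s
    congr 1
    push_cast
    linear_combination (-(x : ℂ) + l) * I_mul_I
  have e3 : ∀ s : ℝ, f (w - x - I * ((s : ℂ) + x * I)) = f (w - s * I) := by
    intro s
    congr 1
    linear_combination (-(x : ℂ)) * I_mul_I
  simp only [e1, e2, e3, mul_zero, sub_zero] at k1 k2 k3 k4
  exact ⟨k1, k2, k3, k4⟩

/-- **Half quanta are exactly flat.** -/
theorem half_flat {w : ℂ} {x : ℝ} (hx : |x| < l) (h0 : l < w.re) (h1 : w.re < 4 * l) :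
    Integrable (fun s : ℝ => Pc (s + x * I) * LCD (w - l - s * I)) ∧
    ∫ s : ℝ, Pc (s + x * I) * LCD (w - l - s * I) = fS (w - x) := by
  have hl := l_pos
  obtain ⟨C, hC, hb⟩ := fS_bound (a := w.re - l) (b := w.re + l) (by linarith) (by linarith)
  obtain ⟨k1, k2, k3, k4⟩ := sum_rule_pos' (f := fS) (w := w) (x := x) (a := 0) (b := 5 * l)
    (M := 2) (C := C) hx (by norm_num) hC (by linarith) (by linarith)
    (fun z h1 h2 => diff_fS h1 h2) hb
  have e : ∀ s : ℝ, LCD (w - l - s * I) = fS (w + l - s * I) + fS (w - l - s * I) - fS (w - s * I) := by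
    intro s
    unfold LCD
    have e1 : w - l - s * I + l = w - s * I := by ring
    have e2 : w - l - s * I + 2 * l = w + l - s * I := by ring
    rw [e1, e2]
    ring
  refine ⟨?_, ?_⟩
  · refine ((k1.add k2).sub k3).congr (Eventually.of_forall fun s => ?_)
    simp only [Pi.add_apply, Pi.sub_apply]
    rw [e s]
    ring
  · rw [← k4]
    refine integral_congr_ae (Eventually.of_forall fun s => ?_)
    simp only
    rw [e s]

/-! ### legs -/

lemma l_eq : NUP1.l = l := by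
  unfold NUP1.l l
  rfl

/-- `log sk k` -/
def Lk (k : ℝ) (w : ℂ) : ℂ := LSn ((k * l - w) / 3)

/-- a logarithm of `rh` on `|Re w| < 5 l` -/
def Lrh (w : ℂ) : ℂ := Complex.log 4 + (Lk 5 w + Lk 19 w + Lk 11 w + Lk 13 w + Lk 6 w + Lk 18 w +
  Lk 12 w) - (Lk 9 w + Lk 15 w + Lk 8 w + Lk 16 w)

lemma re_third (k : ℝ) (w : ℂ) : (((k : ℂ) * l - w) / 3).re = (k * l - w.re) / 3 := by
  simp

lemma im_third (k : ℝ) (w : ℂ) : (((k : ℂ) * l - w) / 3).im = -w.im / 3 := by
  simp

lemma win {k : ℝ} (h5 : 5 ≤ k) (h19 : k ≤ 19) {w : ℂ} (hw : |w.re| < 5 * l) :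
    0 < (((k : ℂ) * l - w) / 3).re ∧ (((k : ℂ) * l - w) / 3).re < 8 * l := by
  have hl := l_pos
  rw [re_third]
  obtain ⟨h1, h2⟩ := abs_lt.1 hw
  constructor <;> nlinarith

lemma exp_Lk {k : ℝ} (h5 : 5 ≤ k) (h19 : k ≤ 19) {w : ℂ} (hw : |w.re| < 5 * l) :
    Complex.exp (Lk k w) = PBR.sk k w := by
  obtain ⟨h1, h2⟩ := win h5 h19 hw
  unfold Lk
  rw [exp_LS h1 h2]
  unfold PBR.sk
  rw [l_eq]

lemma diff_Lk {k : ℝ} (h5 : 5 ≤ k) (h19 : k ≤ 19) {w : ℂ} (hw : |w.re| < 5 * l) :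
    DifferentiableAt ℂ (Lk k) w := by
  obtain ⟨h1, h2⟩ := win h5 h19 hw
  exact DifferentiableAt.comp (g := LSn) (f := fun w : ℂ => ((k : ℂ) * l - w) / 3) w
    (diff_LS h1 h2) (by fun_prop)

lemma exp_Lrh {w : ℂ} (hw : |w.re| < 5 * l) : Complex.exp (Lrh w) = PBR.rh w := by
  unfold Lrh
  rw [Complex.exp_sub]
  simp only [Complex.exp_add]
  rw [exp_Lk (by norm_num) (by norm_num) hw, exp_Lk (by norm_num) (by norm_num) hw,
    exp_Lk (by norm_num) (by norm_num) hw, exp_Lk (by norm_num) (by norm_num) hw,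
    exp_Lk (by norm_num) (by norm_num) hw, exp_Lk (by norm_num) (by norm_num) hw,
    exp_Lk (by norm_num) (by norm_num) hw, exp_Lk (by norm_num) (by norm_num) hw,
    exp_Lk (by norm_num) (by norm_num) hw, exp_Lk (by norm_num) (by norm_num) hw,
    exp_Lk (by norm_num) (by norm_num) hw, PBR.rh_prod, Complex.exp_log (by norm_num)]

lemma diff_Lrh {w : ℂ} (hw : |w.re| < 5 * l) : DifferentiableAt ℂ Lrh w := by
  unfold Lrh
  have h : ∀ k : ℝ, 5 ≤ k → k ≤ 19 → DifferentiableAt ℂ (Lk k) w := fun k h1 h2 => diff_Lk h1 h2 hw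
  refine (((((((((differentiableAt_const _).add ?_)).sub ?_))))))
  · exact (((((((h 5 (by norm_num) (by norm_num)).add (h 19 (by norm_num) (by norm_num))).add
      (h 11 (by norm_num) (by norm_num))).add (h 13 (by norm_num) (by norm_num))).add
      (h 6 (by norm_num) (by norm_num))).add (h 18 (by norm_num) (by norm_num))).add
      (h 12 (by norm_num) (by norm_num)))
  · exact ((((h 9 (by norm_num) (by norm_num)).add (h 15 (by norm_num) (by norm_num))).add
      (h 8 (by norm_num) (by norm_num))).add (h 16 (by norm_num) (by norm_num)))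

/-- growth of a function in a strip -/
def Lin (f : ℂ → ℂ) (a b : ℝ) : Prop := ∃ M C : ℝ, 0 ≤ M ∧ 0 ≤ C ∧ ∀ z : ℂ, a ≤ z.re →
  z.re ≤ b → ‖f z‖ ≤ M * |z.im| + C

lemma Lin.add {f g : ℂ → ℂ} {a b : ℝ} (hf : Lin f a b) (hg : Lin g a b) :
    Lin (fun z => f z + g z) a b := by
  obtain ⟨M, C, h1, h2, h3⟩ := hf
  obtain ⟨M', C', h1', h2', h3'⟩ := hg
  refine ⟨M + M', C + C', by linarith, by linarith, fun z ha hb => ?_⟩
  have := h3 z ha hb
  have := h3' z ha hb
  calc _ ≤ ‖f z‖ + ‖g z‖ := norm_add_le _ _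
    _ ≤ _ := by linarith

lemma Lin.sub {f g : ℂ → ℂ} {a b : ℝ} (hf : Lin f a b) (hg : Lin g a b) :
    Lin (fun z => f z - g z) a b := by
  obtain ⟨M, C, h1, h2, h3⟩ := hf
  obtain ⟨M', C', h1', h2', h3'⟩ := hg
  refine ⟨M + M', C + C', by linarith, by linarith, fun z ha hb => ?_⟩
  have := h3 z ha hb
  have := h3' z ha hb
  calc _ ≤ ‖f z‖ + ‖g z‖ := norm_sub_le _ _
    _ ≤ _ := by linarith

lemma Lin_const (c : ℂ) (a b : ℝ) : Lin (fun _ => c) a b :=
  ⟨0, ‖c‖, le_rfl, norm_nonneg _, fun z _ _ => by linarith [mul_nonneg (le_refl (0:ℝ)) (abs_nonneg z.im)]⟩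

lemma Lin_LS {a b : ℝ} (k : ℝ) (ha : 0 < a + k * l) (hb : b + k * l < 8 * l) :
    Lin (fun z => LSn (z + k * l)) a b := by
  obtain ⟨C, hC, h⟩ := LS_bound ha hb
  refine ⟨1, C, zero_le_one, hC, fun z h1 h2 => ?_⟩
  have h3 := h (z + (k : ℂ) * l) (by rw [re_addk]; linarith) (by rw [re_addk]; linarith)
  have e : (z + (k : ℂ) * l).im = z.im := by simp
  rw [e] at h3
  simpa using h3

lemma Lin_Lk {a b k : ℝ} (h5 : 5 ≤ k) (h19 : k ≤ 19) (ha : -(5 * l) < a) (hb : b < 5 * l) :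
    Lin (Lk k) a b := by
  have hl := l_pos
  obtain ⟨C, hC, h⟩ := LS_bound (a := (k * l - b) / 3) (b := (k * l - a) / 3)
    (by nlinarith) (by nlinarith)
  refine ⟨1, C, zero_le_one, hC, fun z h1 h2 => ?_⟩
  have h3 := h (((k : ℂ) * l - z) / 3) (by rw [re_third]; linarith) (by rw [re_third]; linarith)
  rw [im_third] at h3
  have h4 : |-z.im / 3| ≤ |z.im| := by
    rw [abs_div, abs_neg, abs_of_pos (by norm_num : (0:ℝ) < 3)]
    linarith [abs_nonneg z.im]
  unfold Lk
  linarith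

lemma Lin_Lrh {a b : ℝ} (ha : -(5 * l) < a) (hb : b < 5 * l) : Lin Lrh a b := by
  have h : ∀ k : ℝ, 5 ≤ k → k ≤ 19 → Lin (Lk k) a b := fun k h1 h2 => Lin_Lk h1 h2 ha hb
  unfold Lrh
  refine ((Lin_const _ a b).add ?_).sub ?_
  · exact (((((((h 5 (by norm_num) (by norm_num)).add (h 19 (by norm_num) (by norm_num))).add
      (h 11 (by norm_num) (by norm_num))).add (h 13 (by norm_num) (by norm_num))).add
      (h 6 (by norm_num) (by norm_num))).add (h 18 (by norm_num) (by norm_num))).add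
      (h 12 (by norm_num) (by norm_num)))
  · exact ((((h 9 (by norm_num) (by norm_num)).add (h 15 (by norm_num) (by norm_num))).add
      (h 8 (by norm_num) (by norm_num))).add (h 16 (by norm_num) (by norm_num)))

/-- `rh (z + l) rh (z - l) = cos z rh z` -/
theorem rh_shift {z : ℂ} (h : |z.re| < 7 * l) :
    PBR.rh (z + l) * PBR.rh (z - l) = Complex.cos z * PBR.rh z := by
  have hl := l_pos
  have sh1 : ∀ k : ℝ, PBR.sk k (z + l) = PBR.sk (k - 1) z := fun k => by
    unfold PBR.sk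
    congr 1
    push_cast
    rw [l_eq]
    ring
  have sh2 : ∀ k : ℝ, PBR.sk k (z - l) = PBR.sk (k + 1) z := fun k => by
    unfold PBR.sk
    congr 1
    push_cast
    rw [l_eq]
    ring
  obtain ⟨h1, h2⟩ := abs_lt.1 h
  have hz : |z.re| < 8 * NUP1.l := by rw [l_eq]; exact lt_trans h (by linarith)
  have hzp : |(z + l).re| < 8 * NUP1.l := by
    rw [l_eq]
    have : (z + (l : ℂ)).re = z.re + l := by simp
    rw [this, abs_lt]
    constructor <;> linarith
  have hzm : |(z - l).re| < 8 * NUP1.l := by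
    rw [l_eq]
    have : (z - (l : ℂ)).re = z.re - l := by simp
    rw [this, abs_lt]
    constructor <;> linarith
  have d0 := PBR.den_ne hz
  have d1 := PBR.den_ne hzp
  have d2 := PBR.den_ne hzm
  have hc : Complex.cos z = 4 * (PBR.sk 4 z * PBR.sk 20 z * PBR.sk 12 z) := by
    have := PBR.sin_sub_prod 4 z
    norm_num at this
    rw [← this, l_eq]
    have e : (4 * (l : ℂ) - z) = Real.pi / 2 - z := by
      rw [il]
      ring
    rw [e, Complex.sin_pi_div_two_sub]
  rw [PBR.rh_prod, PBR.rh_prod, PBR.rh_prod, hc]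
  simp only [sh1, sh2] at d1 d2 ⊢
  norm_num at d0 d1 d2 ⊢
  obtain ⟨⟨⟨a1, a2⟩, a3⟩, a4⟩ := d0
  obtain ⟨⟨⟨b1, b2⟩, b3⟩, b4⟩ := d1
  obtain ⟨⟨⟨c1, c2⟩, c3⟩, c4⟩ := d2
  field_simp

/-- a logarithm of `sin (z + 2l) sin (z + 3l) / rh z ^ 2` -/
def LG (z : ℂ) : ℂ := LSn (z + (2 : ℝ) * l) + LSn (z + (3 : ℝ) * l) - (Lrh z + Lrh z)

lemma diff_LSk {z : ℂ} (k : ℝ) (h0 : 0 < z.re + k * l) (h1 : z.re + k * l < 8 * l) :
    DifferentiableAt ℂ (fun z : ℂ => LSn (z + (k : ℝ) * l)) z :=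
  DifferentiableAt.comp (g := LSn) (f := fun z : ℂ => z + (k : ℝ) * l) z
    (diff_LS (by rw [re_addk]; exact h0) (by rw [re_addk]; exact h1)) (by fun_prop)

lemma diff_LG {z : ℂ} (h0 : -(2 * l) < z.re) (h1 : z.re < 5 * l) : DifferentiableAt ℂ LG z := by
  have hl := l_pos
  have h2 : |z.re| < 5 * l := abs_lt.2 ⟨by linarith, h1⟩
  exact ((diff_LSk 2 (by linarith) (by linarith)).add (diff_LSk 3 (by linarith) (by linarith))).sub
    ((diff_Lrh h2).add (diff_Lrh h2))

lemma exp_LG {z : ℂ} (h0 : -(2 * l) < z.re) (h1 : z.re < 5 * l) :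
    Complex.exp (LG z) = Complex.sin (z + 2 * l) * Complex.sin (z + 3 * l) / PBR.rh z ^ 2 := by
  have hl := l_pos
  have h2 : |z.re| < 5 * l := abs_lt.2 ⟨by linarith, h1⟩
  unfold LG
  rw [Complex.exp_sub, Complex.exp_add, Complex.exp_add, exp_Lrh h2,
    exp_LS (by rw [re_addk]; linarith) (by rw [re_addk]; linarith),
    exp_LS (by rw [re_addk]; linarith) (by rw [re_addk]; linarith), sq]
  norm_num

lemma Lin_LG {a b : ℝ} (ha : -(2 * l) < a) (hb : b < 5 * l) : Lin LG a b := by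
  have hl := l_pos
  exact ((Lin_LS 2 (by linarith) (by linarith)).add (Lin_LS 3 (by linarith) (by linarith))).sub
    ((Lin_Lrh (by linarith) hb).add (Lin_Lrh (by linarith) hb))

lemma exp_LG_rule {z : ℂ} (h0 : -l < z.re) (h1 : z.re < 4 * l) :
    Complex.exp (LG (z + l) + LG (z - l) - LG z - fS (z + l)) = 1 := by
  have hl := l_pos
  have e1 : (z + (l : ℂ)).re = z.re + l := by simp
  have e2 : (z - (l : ℂ)).re = z.re - l := by simp
  have hz : |z.re| < 5 * l := abs_lt.2 ⟨by linarith, by linarith⟩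
  have n0 : PBR.rh z ≠ 0 := PBR.rh_ne_zero (by rw [l_eq]; exact hz)
  have n1 : PBR.rh (z + l) ≠ 0 := PBR.rh_ne_zero (by
    rw [l_eq, e1, abs_lt]
    constructor <;> linarith)
  have n2 : PBR.rh (z - l) ≠ 0 := PBR.rh_ne_zero (by
    rw [l_eq, e2, abs_lt]
    constructor <;> linarith)
  have hr := rh_shift (z := z) (abs_lt.2 ⟨by linarith, by linarith⟩)
  have s4 : Complex.sin (z + l + 3 * l) = Complex.cos z := by
    have e : (z + l + 3 * (l : ℂ)) = z + Real.pi / 2 := by
      rw [il]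
      ring
    rw [e, Complex.sin_add_pi_div_two]
  have c0 : Complex.cos z ≠ 0 := by
    rw [← s4]
    refine sin_neS ?_ ?_ <;> rw [re_add3, e1] <;> linarith
  have m2 : Complex.sin (z + 2 * l) ≠ 0 := by
    have e : (z + 2 * (l : ℂ)).re = z.re + 2 * l := by simp
    refine sin_neS ?_ ?_ <;> rw [e] <;> linarith
  have m3 : Complex.sin (z + 3 * l) ≠ 0 := by
    refine sin_neS ?_ ?_ <;> rw [re_add3] <;> linarith
  have m1 : Complex.sin (z + l) ≠ 0 := by
    refine sin_neS ?_ ?_ <;> rw [e1] <;> linarith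
  rw [Complex.exp_sub, Complex.exp_sub, Complex.exp_add, exp_LG (by rw [e1]; linarith)
    (by rw [e1]; linarith), exp_LG (by rw [e2]; linarith) (by rw [e2]; linarith),
    exp_LG (by linarith) (by linarith), exp_fS (by rw [e1]; linarith) (by rw [e1]; linarith), s4]
  have f1 : z + l + 2 * (l : ℂ) = z + 3 * l := by ring
  have f2 : z - l + 2 * (l : ℂ) = z + l := by ring
  have f3 : z - l + 3 * (l : ℂ) = z + 2 * l := by ring
  rw [f1, f2, f3]
  generalize PBR.rh (z + l) = A at *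
  generalize PBR.rh (z - l) = B at *
  generalize PBR.rh z = R at *
  generalize Complex.sin (z + 2 * l) = s2 at *
  generalize Complex.sin (z + 3 * l) = s3 at *
  generalize Complex.sin (z + l) = s1 at *
  generalize Complex.cos z = c at *
  have hr2 : c ^ 2 * R ^ 2 = A ^ 2 * B ^ 2 := by
    have : (A * B) ^ 2 = (c * R) ^ 2 := by rw [hr]
    linear_combination -this
  field_simp
  linear_combination hr2

/-- the functional equation of `LG` on a vertical line, up to one constant -/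
lemma LG_line {w : ℂ} (h0 : -l < w.re) (h1 : w.re < 4 * l) : ∃ c : ℂ, Complex.exp c = 1 ∧
    ∀ t : ℝ, LG (w + l - t * I) + LG (w - l - t * I) - LG (w - t * I) - fS (w + l - t * I) = c := by
  have hl := l_pos
  set D : ℝ → ℂ := fun t =>
    LG (w + l - t * I) + LG (w - l - t * I) - LG (w - t * I) - fS (w + l - t * I) with hD
  have e0 : ∀ t : ℝ, (w - t * I).re = w.re := fun t => by simp
  have e1 : ∀ t : ℝ, (w + l - t * I).re = w.re + l := fun t => by simp
  have e2 : ∀ t : ℝ, (w - l - t * I).re = w.re - l := fun t => by simp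
  have hexp : ∀ t : ℝ, Complex.exp (D t) = 1 := by
    intro t
    have h := exp_LG_rule (z := w - t * I) (by rw [e0]; exact h0) (by rw [e0]; exact h1)
    have f1 : w - t * I + l = w + l - t * I := by ring
    have f2 : w - t * I - l = w - l - t * I := by ring
    rw [f1, f2] at h
    exact h
  have hdiff : ∀ t : ℝ, DifferentiableAt ℝ D t := by
    intro t
    have g1 : DifferentiableAt ℂ (fun ζ : ℂ => LG (w + l - ζ * I)) (t : ℂ) :=
      DifferentiableAt.comp (g := LG) (f := fun ζ : ℂ => w + l - ζ * I) (t : ℂ)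
        (diff_LG (by rw [e1]; linarith) (by rw [e1]; linarith)) (by fun_prop)
    have g2 : DifferentiableAt ℂ (fun ζ : ℂ => LG (w - l - ζ * I)) (t : ℂ) :=
      DifferentiableAt.comp (g := LG) (f := fun ζ : ℂ => w - l - ζ * I) (t : ℂ)
        (diff_LG (by rw [e2]; linarith) (by rw [e2]; linarith)) (by fun_prop)
    have g3 : DifferentiableAt ℂ (fun ζ : ℂ => LG (w - ζ * I)) (t : ℂ) :=
      DifferentiableAt.comp (g := LG) (f := fun ζ : ℂ => w - ζ * I) (t : ℂ)
        (diff_LG (by rw [e0]; linarith) (by rw [e0]; linarith)) (by fun_prop)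
    have g4 : DifferentiableAt ℂ (fun ζ : ℂ => fS (w + l - ζ * I)) (t : ℂ) :=
      DifferentiableAt.comp (g := fS) (f := fun ζ : ℂ => w + l - ζ * I) (t : ℂ)
        (diff_fS (by rw [e1]; linarith) (by rw [e1]; linarith)) (by fun_prop)
    have H : DifferentiableAt ℂ (fun ζ : ℂ => LG (w + l - ζ * I) + LG (w - l - ζ * I) -
      LG (w - ζ * I) - fS (w + l - ζ * I)) (t : ℂ) := ((g1.add g2).sub g3).sub g4
    exact H.hasDerivAt.comp_ofReal.differentiableAt
  have hder : ∀ t : ℝ, deriv D t = 0 := by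
    intro t
    have h2 := (hdiff t).hasDerivAt
    have h3 : HasDerivAt (fun t => Complex.exp (D t)) (Complex.exp (D t) * deriv D t) t := h2.cexp
    have h4 : (fun t => Complex.exp (D t)) = fun _ => 1 := funext hexp
    rw [h4, hexp t, one_mul] at h3
    exact h3.unique (hasDerivAt_const t (1 : ℂ))
  refine ⟨D 0, hexp 0, fun t => ?_⟩
  exact is_const_of_deriv_eq_zero (fun t => hdiff t) hder t 0

/-- **Exact mean field of a leg.** -/
theorem leg_mf {w : ℂ} {x : ℝ} (hx : |x| < l) (h0 : -l < w.re) (h1 : w.re < 4 * l) :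
    Integrable (fun s : ℝ => Pc (s + x * I) * fS (w + l - s * I)) ∧
    Complex.exp (∫ s : ℝ, Pc (s + x * I) * fS (w + l - s * I)) * PBR.rh (w - x) ^ 2 =
      Complex.sin (w - x + 2 * l) * Complex.sin (w - x + 3 * l) := by
  have hl := l_pos
  obtain ⟨x1, x2⟩ := abs_lt.1 hx
  obtain ⟨c, hc, hline⟩ := LG_line h0 h1
  obtain ⟨M, C, hM, hC, hb⟩ := Lin_LG (a := w.re - l) (b := w.re + l) (by linarith) (by linarith)
  obtain ⟨k1, k2, k3, k4⟩ := sum_rule_pos' (f := LG) (w := w) (x := x) (a := -(2 * l)) (b := 5 * l)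
    (M := M) (C := C) hx hM hC (by linarith) (by linarith) (fun z h1 h2 => diff_LG h1 h2) hb
  obtain ⟨p1, p2⟩ := int_Pc hx
  have e : ∀ s : ℝ, fS (w + l - s * I) =
      LG (w + l - s * I) + LG (w - l - s * I) - LG (w - s * I) - c := by
    intro s
    rw [← hline s]
    ring
  have i1 : Integrable (fun s : ℝ => Pc (s + x * I) *
      (LG (w + l - s * I) + LG (w - l - s * I) - LG (w - s * I))) := by
    refine ((k1.add k2).sub k3).congr (Eventually.of_forall fun s => ?_)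
    simp only [Pi.add_apply, Pi.sub_apply]
    ring
  have i2 := i1.sub (p1.mul_const c)
  have hI : ∫ s : ℝ, Pc (s + x * I) * fS (w + l - s * I) = LG (w - x) - c := by
    have h2 := integral_sub i1 (p1.mul_const c)
    rw [k4, integral_mul_const, p2, one_mul] at h2
    rw [← h2]
    refine integral_congr_ae (Eventually.of_forall fun s => ?_)
    simp only
    rw [e s]
    ring
  have hre : (w - (x : ℂ)).re = w.re - x := by simp
  have hn : PBR.rh (w - x) ≠ 0 := PBR.rh_ne_zero (by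
    rw [l_eq, hre, abs_lt]
    constructor <;> linarith)
  refine ⟨?_, ?_⟩
  · refine i2.congr (Eventually.of_forall fun s => ?_)
    simp only [Pi.sub_apply]
    rw [e s]
    ring
  · rw [hI, Complex.exp_sub, hc, div_one, exp_LG (by rw [hre]; linarith) (by rw [hre]; linarith)]
    field_simp

end

end Pool.Agent.PB
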