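import Pool.Agent.PB.I1Q
import Pool.Agent.PB.TRMF
import Pool.Agent.PB.NzA
import Pool.Agent.PB.NHat

/-!
# Plan B: the constant of the first Ward identity is the derivative of the prefactor

* `ct`, `fSd`: `cot` and the derivative of `fS`; `TT`, `dTT`: mean field of a leg and its
  derivative, `hasDerivAt_TT`, `dTT_eq : dTT w = cot (w + 2 l) + cot (w + 3 l) - 2 rh'/rh`;
* `lamL`: the leg force, `hasDerivAt_Lg`; `C1_eq`, `C0_eq'`;
* `Num`: `d/dη Pf = - Pf (C0 + C1)`.
-/

set_option autoImplicit false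
set_option linter.unusedSectionVars false

noncomputable section

open MeasureTheory Set Filter Topology Finset
open scoped Classical

namespace PBQ1

section mf

open NUMF PBForce Pool.Agent.PB

/-- `cot`, quotient form -/
def ct (z : ℂ) : ℂ := Complex.cos z / Complex.sin z

lemma norm_cos_le (z : ℂ) : ‖Complex.cos z‖ ≤ Real.cosh z.im := by
  rw [Complex.cos, norm_div, Complex.norm_ofNat]
  have h1 : ‖Complex.exp (z * Complex.I)‖ = Real.exp (-z.im) := by
    rw [Complex.norm_exp]
    simp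
  have h2 : ‖Complex.exp (-z * Complex.I)‖ = Real.exp z.im := by
    rw [Complex.norm_exp]
    simp
  rw [div_le_iff₀ (by norm_num)]
  refine (norm_add_le _ _).trans ?_
  rw [h1, h2, Real.cosh_eq]
  linarith

lemma ct_le {z : ℂ} (h : Real.sin z.re ≠ 0) : ‖ct z‖ ≤ 1 / |Real.sin z.re| := by
  have hs : |Real.sin z.re| * Real.cosh z.im ≤ ‖Complex.sin z‖ := by
    have h1 := Complex.abs_re_le_norm (Complex.sin z)
    rw [re_sin, abs_mul, abs_of_pos (Real.cosh_pos _)] at h1
    exact h1
  have hc := Real.cosh_pos z.im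
  have h0 : 0 < |Real.sin z.re| := abs_pos.2 h
  unfold ct
  rw [norm_div, div_le_div_iff₀ (lt_of_lt_of_le (mul_pos h0 hc) hs) h0, one_mul]
  calc ‖Complex.cos z‖ * |Real.sin z.re| ≤ Real.cosh z.im * |Real.sin z.re| :=
        mul_le_mul_of_nonneg_right (norm_cos_le z) h0.le
    _ ≤ ‖Complex.sin z‖ := by rw [mul_comm]; exact hs

lemma pi8 : Real.pi = 8 * l := by
  unfold l
  ring

lemma ct_bound {a b : ℝ} (ha : 0 < a) (hb : b < 8 * l) : ∃ C : ℝ, 0 ≤ C ∧ ∀ z : ℂ, a ≤ z.re →
    z.re ≤ b → ‖ct z‖ ≤ C := by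
  have hm : 0 < min (Real.sin a) (Real.sin b) ∨ b < a := by
    rcases lt_or_ge b a with h | h
    · exact Or.inr h
    · left
      refine lt_min (Real.sin_pos_of_pos_of_lt_pi ha (by rw [pi8]; linarith))
        (Real.sin_pos_of_pos_of_lt_pi (by linarith) (by rw [pi8]; linarith))
  rcases hm with hm | hm
  · refine ⟨1 / min (Real.sin a) (Real.sin b), by positivity, fun z h1 h2 => ?_⟩
    have hz : min (Real.sin a) (Real.sin b) ≤ Real.sin z.re := by
      have hconc := strictConcaveOn_sin_Icc.concaveOn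
      have ha' : a ∈ Icc 0 Real.pi := ⟨ha.le, by rw [pi8]; linarith⟩
      have hb' : b ∈ Icc 0 Real.pi := ⟨by linarith, by rw [pi8]; linarith⟩
      exact hconc.min_le_of_mem_Icc ha' hb' ⟨h1, h2⟩
    have hp : 0 < Real.sin z.re := lt_of_lt_of_le hm hz
    refine (ct_le hp.ne').trans ?_
    rw [abs_of_pos hp]
    exact one_div_le_one_div_of_le hm hz
  · exact ⟨0, le_rfl, fun z h1 h2 => absurd (h1.trans h2) (not_le.2 hm)⟩

/-- derivative of `fS` -/
def fSd (z : ℂ) : ℂ := ct z - ct (z + 3 * l)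

lemma hasDerivAt_fS {z : ℂ} (h0 : 0 < z.re) (h1 : z.re < 5 * l) : HasDerivAt fS (fSd z) z := by
  have hl := l_pos
  have h2 : HasDerivAt (fun z : ℂ => LSn (z + 3 * l)) (ct (z + 3 * l)) z := by
    have hh : HasDerivAt LSn (ct (z + 3 * l)) (z + 3 * l) :=
      hasDerivAt_LS (by rw [re_add3]; linarith) (by rw [re_add3]; linarith)
    have := hh.comp z ((hasDerivAt_id z).add_const (3 * (l : ℂ)))
    rwa [mul_one] at this
  exact (hasDerivAt_LS h0 (by linarith)).sub h2

lemma fSd_bound {a b : ℝ} (ha : 0 < a) (hb : b < 5 * l) : ∃ C : ℝ, 0 ≤ C ∧ ∀ z : ℂ, a ≤ z.re →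
    z.re ≤ b → ‖fSd z‖ ≤ C := by
  have hl := l_pos
  obtain ⟨C1, h1, H1⟩ := ct_bound (a := a) (b := b) ha (by linarith)
  obtain ⟨C2, h2, H2⟩ := ct_bound (a := a + 3 * l) (b := b + 3 * l) (by linarith) (by linarith)
  refine ⟨C1 + C2, add_nonneg h1 h2, fun z ha hb => ?_⟩
  refine (norm_sub_le _ _).trans (add_le_add (H1 z ha hb) (H2 _ ?_ ?_))
  · rw [re_add3]; linarith
  · rw [re_add3]; linarith

lemma re_leg (w : ℂ) (s : ℝ) : (w + l - s * Complex.I).re = w.re + l := by simp

lemma ct_cont {z : ℂ} (h : Complex.sin z ≠ 0) : ContinuousAt ct z :=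
  Complex.continuous_cos.continuousAt.div Complex.continuous_sin.continuousAt h

lemma fSd_cont {z : ℂ} (h0 : 0 < z.re) (h1 : z.re < 5 * l) : ContinuousAt fSd z := by
  have hl := l_pos
  have c1 := ct_cont (sin_neS h0 (by linarith : z.re < 8 * l))
  have c2 : ContinuousAt (fun z : ℂ => ct (z + 3 * l)) z := by
    have h := ct_cont (sin_neS (z := z + 3 * l) (by rw [re_add3]; linarith)
      (by rw [re_add3]; linarith))
    exact ContinuousAt.comp (f := fun z : ℂ => z + 3 * l) h
      (by fun_prop : ContinuousAt (fun z : ℂ => z + 3 * (l : ℂ)) z)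
  exact c1.sub c2

lemma fSd_line {w : ℂ} (h0 : -l < w.re) (h1 : w.re < 4 * l) :
    Continuous fun s : ℝ => fSd (w + l - s * Complex.I) := by
  refine continuous_iff_continuousAt.2 fun s => ?_
  have h := fSd_cont (z := w + l - s * Complex.I) (by rw [re_leg]; linarith)
    (by rw [re_leg]; linarith)
  exact ContinuousAt.comp (f := fun s : ℝ => w + l - s * Complex.I) h (by fun_prop)

lemma fS_line {w : ℂ} (h0 : -l < w.re) (h1 : w.re < 4 * l) :
    Continuous fun s : ℝ => fS (w + l - s * Complex.I) := by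
  refine continuous_iff_continuousAt.2 fun s => ?_
  have h := (hasDerivAt_fS (z := w + l - s * Complex.I) (by rw [re_leg]; linarith)
    (by rw [re_leg]; linarith)).continuousAt
  exact ContinuousAt.comp (f := fun s : ℝ => w + l - s * Complex.I) h (by fun_prop)

/-- the mean field of a leg -/
def TT (w : ℂ) : ℂ := ∫ s : ℝ, Pc s * fS (w + l - s * Complex.I)

/-- its derivative -/
def dTT (w : ℂ) : ℂ := ∫ s : ℝ, Pc s * fSd (w + l - s * Complex.I)

lemma int_Pc0 : Integrable fun s : ℝ => Pc s := by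
  have := (int_Pc (x := 0) (by rw [abs_zero]; exact l_pos)).1
  simpa using this

lemma int_dTT {w : ℂ} (h0 : -l < w.re) (h1 : w.re < 4 * l) :
    Integrable fun s : ℝ => Pc s * fSd (w + l - s * Complex.I) := by
  obtain ⟨C, hC, H⟩ := fSd_bound (a := w.re + l) (b := w.re + l) (by linarith) (by linarith)
  exact int_Pc0.mul_bdd (c := C) (fSd_line h0 h1).aestronglyMeasurable
    (Eventually.of_forall fun s => H _ (by rw [re_leg]) (by rw [re_leg]))

theorem hasDerivAt_TT {w : ℂ} (h0 : -l < w.re) (h1 : w.re < 4 * l) :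
    HasDerivAt TT (dTT w) w := by
  have hl := l_pos
  set a := (-l + w.re) / 2 with ha
  set b := (4 * l + w.re) / 2 with hb
  have a1 : -l < a := by rw [ha]; linarith
  have a2 : a < w.re := by rw [ha]; linarith
  have b1 : b < 4 * l := by rw [hb]; linarith
  have b2 : w.re < b := by rw [hb]; linarith
  obtain ⟨C, hC, H⟩ := fSd_bound (a := a + l) (b := b + l) (by linarith) (by linarith)
  have hS : {v : ℂ | a < v.re ∧ v.re < b} ∈ 𝓝 w := by
    refine IsOpen.mem_nhds ?_ ⟨a2, b2⟩
    exact (isOpen_lt continuous_const Complex.continuous_re).inter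
      (isOpen_lt Complex.continuous_re continuous_const)
  have i0 : Integrable fun s : ℝ => Pc s * fS (w + l - s * Complex.I) := by
    have := (leg_mf (w := w) (x := 0) (by rw [abs_zero]; exact hl) h0 h1).1
    simpa using this
  have hPm : AEStronglyMeasurable (fun s : ℝ => Pc s) volume := int_Pc0.aestronglyMeasurable
  have key := hasDerivAt_integral_of_dominated_loc_of_deriv_le (μ := volume) (𝕜 := ℂ)
    (s := {v : ℂ | a < v.re ∧ v.re < b})
    (F := fun v (s : ℝ) => Pc s * fS (v + l - s * Complex.I))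
    (F' := fun v (s : ℝ) => Pc s * fSd (v + l - s * Complex.I))
    (x₀ := w) (bound := fun s : ℝ => ‖Pc s‖ * C) hS ?_ i0
    (int_dTT h0 h1).aestronglyMeasurable ?_ (int_Pc0.norm.mul_const C) ?_
  · exact key.2
  · filter_upwards [hS] with v hv
    exact hPm.mul (fS_line (by linarith [hv.1]) (by linarith [hv.2])).aestronglyMeasurable
  · refine Eventually.of_forall fun s v hv => ?_
    rw [norm_mul]
    refine mul_le_mul_of_nonneg_left (H _ ?_ ?_) (norm_nonneg _)
    · rw [re_leg]; linarith [hv.1]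
    · rw [re_leg]; linarith [hv.2]
  · refine Eventually.of_forall fun s v hv => ?_
    have h2 := hasDerivAt_fS (z := v + l - s * Complex.I) (by rw [re_leg]; linarith [hv.1])
      (by rw [re_leg]; linarith [hv.2])
    have h3 : HasDerivAt (fun v : ℂ => v + l - s * Complex.I) 1 v :=
      ((hasDerivAt_id v).add_const _).sub_const _
    have h4 := h2.comp v h3
    rw [mul_one] at h4
    exact h4.const_mul _

/-- logarithmic derivative of the bulk factor -/
def lrh (w : ℂ) : ℂ := deriv PBR.rh w / PBR.rh w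

lemma hasDerivAt_rh' {w : ℂ} (h : |w.re| < 5 * l) :
    HasDerivAt PBR.rh (PBR.rh w * lrh w) w := by
  have hl := l_pos
  have h1 := (PBR.differentiableAt_rh (w := w) (by
    show |w.re| < 8 * l
    linarith)).hasDerivAt
  refine h1.congr_deriv ?_
  unfold lrh
  rw [mul_div_cancel₀ _ (PBR.rh_ne_zero (w := w) h)]

/-- **the mean force of a leg in closed form** -/
theorem dTT_eq {w : ℂ} (h0 : -l < w.re) (h1 : w.re < 4 * l) :
    dTT w = ct (w + 2 * l) + ct (w + 3 * l) - 2 * lrh w := by
  have hl := l_pos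
  have habs : ∀ v : ℂ, -l < v.re → v.re < 4 * l → |v.re| < 5 * l := fun v a b => by
    rw [abs_lt]; constructor <;> linarith
  have e : ∀ v : ℂ, -l < v.re → v.re < 4 * l → Complex.exp (TT v) * PBR.rh v ^ 2 =
      Complex.sin (v + 2 * l) * Complex.sin (v + 3 * l) := by
    intro v a b
    have := (leg_mf (w := v) (x := 0) (by rw [abs_zero]; exact hl) a b).2
    simpa [TT] using this
  have n2 : Complex.sin (w + 2 * l) ≠ 0 := sin_neS (by simp; linarith) (by simp; linarith)
  have n3 : Complex.sin (w + 3 * l) ≠ 0 := sin_neS (by simp; linarith) (by simp; linarith)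
  have nr : PBR.rh w ≠ 0 := PBR.rh_ne_zero (w := w) (habs w h0 h1)
  have hS : {v : ℂ | -l < v.re ∧ v.re < 4 * l} ∈ 𝓝 w := by
    refine IsOpen.mem_nhds ?_ ⟨h0, h1⟩
    exact (isOpen_lt continuous_const Complex.continuous_re).inter
      (isOpen_lt Complex.continuous_re continuous_const)
  have d1 := ((hasDerivAt_TT h0 h1).cexp).mul ((hasDerivAt_rh' (habs w h0 h1)).pow 2)
  have q2 : HasDerivAt (fun v : ℂ => Complex.sin (v + 2 * l)) (Complex.cos (w + 2 * l)) w := by
    have := ((hasDerivAt_id w).add_const (2 * (l : ℂ))).csin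
    rwa [mul_one] at this
  have q3 : HasDerivAt (fun v : ℂ => Complex.sin (v + 3 * l)) (Complex.cos (w + 3 * l)) w := by
    have := ((hasDerivAt_id w).add_const (3 * (l : ℂ))).csin
    rwa [mul_one] at this
  have d2 := q2.mul q3
  have d3 : HasDerivAt (fun v : ℂ => Complex.exp (TT v) * PBR.rh v ^ 2)
      (Complex.cos (w + 2 * l) * Complex.sin (w + 3 * l) +
        Complex.sin (w + 2 * l) * Complex.cos (w + 3 * l)) w := by
    refine d2.congr_of_eventuallyEq ?_
    filter_upwards [hS] with v hv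
    exact e v hv.1 hv.2
  have h := d1.unique d3
  clear d1 d2 d3 q2 q3
  have e0 := e w h0 h1
  have hE : Complex.exp (TT w) ≠ 0 := Complex.exp_ne_zero _
  have hp : Complex.exp (TT w) * PBR.rh w ^ 2 ≠ 0 := mul_ne_zero hE (pow_ne_zero _ nr)
  have h5 : (Complex.exp (TT w) * PBR.rh w ^ 2) * (dTT w + 2 * lrh w) =
      (Complex.exp (TT w) * PBR.rh w ^ 2) * (ct (w + 2 * l) + ct (w + 3 * l)) := by
    have lhs : (Complex.exp (TT w) * PBR.rh w ^ 2) * (dTT w + 2 * lrh w) =
        Complex.cos (w + 2 * l) * Complex.sin (w + 3 * l) +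
        Complex.sin (w + 2 * l) * Complex.cos (w + 3 * l) := by
      rw [← h]
      simp only [Pi.pow_apply]
      push_cast
      ring
    rw [lhs, e0]
    unfold ct
    generalize Complex.cos (w + 2 * l) = c2 at *
    generalize Complex.cos (w + 3 * l) = c3 at *
    generalize Complex.sin (w + 2 * l) = s2 at *
    generalize Complex.sin (w + 3 * l) = s3 at *
    field_simp
  have h6 := mul_left_cancel₀ hp h5
  linear_combination h6

/-! ### the constants -/

variable {m : ℕ} {x : Fin m → ℂ} {i0 : Fin m}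

/-- the leg force on a quantum at `u`: `I` times the logarithmic derivative of `PBS.Th z` -/
def lamL (z u : ℂ) : ℂ := Complex.I * fSd (z + 2 * l - u)

lemma sin_add8 (w : ℂ) : Complex.sin (w - 3 * l) = -Complex.sin (w + 5 * l) := by
  have : w + 5 * (l : ℂ) = w - 3 * l + Real.pi := by
    rw [pi8]
    push_cast
    ring
  rw [this, Complex.sin_add_pi, neg_neg]

lemma cos_add8 (w : ℂ) : Complex.cos (w - 3 * l) = -Complex.cos (w + 5 * l) := by
  have : w + 5 * (l : ℂ) = w - 3 * l + Real.pi := by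
    rw [pi8]
    push_cast
    ring
  rw [this, Complex.cos_add_pi, neg_neg]

/-- logarithmic derivative of the leg factor -/
theorem hasDerivAt_Th {z u : ℂ} (h1 : Complex.sin (z - u + 2 * l) ≠ 0)
    (h2 : Complex.sin (z - u - 3 * l) ≠ 0) :
    HasDerivAt (PBS.Th z) (PBS.Th z u * (-Complex.I * lamL z u)) u := by
  have s1 : HasDerivAt (fun u : ℂ => Complex.sin (z - u + 2 * l))
      (Complex.cos (z - u + 2 * l) * -1) u :=
    (((hasDerivAt_id u).const_sub z).add_const (2 * (l : ℂ))).csin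
  have s2 : HasDerivAt (fun u : ℂ => Complex.sin (z - u - 3 * l))
      (Complex.cos (z - u - 3 * l) * -1) u :=
    (((hasDerivAt_id u).const_sub z).sub_const (3 * (l : ℂ))).csin
  have d := s2.div s1 h1
  have e : PBS.Th z = fun u : ℂ => Complex.sin (z - u - 3 * l) / Complex.sin (z - u + 2 * l) := rfl
  rw [e]
  refine d.congr_deriv ?_
  show _ = Complex.sin (z - u - 3 * l) / Complex.sin (z - u + 2 * l) * (-Complex.I * lamL z u)
  clear d s1 s2 e
  unfold lamL fSd ct
  rw [show z + 2 * (l : ℂ) - u = z - u + 2 * l by ring,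
    show z - u + 2 * (l : ℂ) + 3 * l = z - u + 5 * l by ring]
  have e1 := sin_add8 (z - u)
  have e2 := cos_add8 (z - u)
  have e3 : Complex.sin (z - u + 5 * l) ≠ 0 := by
    intro h
    rw [h, neg_zero] at e1
    exact h2 e1
  rw [e1, e2]
  generalize Complex.sin (z - u + 5 * l) = A at *
  generalize Complex.cos (z - u + 5 * l) = B at *
  generalize Complex.sin (z - u + 2 * l) = C at *
  generalize Complex.cos (z - u + 2 * l) = E at *
  have : -Complex.I * (Complex.I * (E / C - B / A)) = E / C - B / A := by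
    linear_combination (-(E / C - B / A)) * Complex.I_mul_I
  rw [this]
  field_simp
  ring

lemma hr_real {w : ℂ} (h : w.re = 0) : hr w = (w.im : ℂ) := by
  apply Complex.ext
  · unfold hr
    simp
  · rw [hr_im, h]
    simp

lemma im_eq {w : ℂ} (h : w.re = 0) : w = (w.im : ℂ) * Complex.I := by
  apply Complex.ext
  · simp [h]
  · simp

/-- `vc'` by the legs -/
lemma vc_fSd {y : ℂ} (hy : |y.im| < l) : deriv vc y =
    -Complex.I * fSd (l + Complex.I * y) + Complex.I * fSd (l - Complex.I * y) := by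
  rw [← rowD_I hy]
  unfold rowD fSd
  have c1 : ct (l + Complex.I * y) = Complex.cot (Complex.I * y + l) := by
    unfold ct Complex.cot
    rw [add_comm]
  have c2 : ct (l - Complex.I * y) = -Complex.cot (Complex.I * y - l) := by
    unfold ct Complex.cot
    rw [show (l : ℂ) - Complex.I * y = -(Complex.I * y - l) by ring, Complex.cos_neg,
      Complex.sin_neg, div_neg]
  have c3 : ct (l + Complex.I * y + 3 * l) = -Complex.tan (Complex.I * y) := by
    have := cot_m (l + Complex.I * y + 3 * l)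
    unfold ct
    unfold Complex.cot at this
    rw [this]
    congr 2
    ring
  have c4 : ct (l - Complex.I * y + 3 * l) = Complex.tan (Complex.I * y) := by
    have := cot_m (l - Complex.I * y + 3 * l)
    unfold ct
    unfold Complex.cot at this
    rw [this, ← Complex.tan_neg]
    congr 1
    ring
  rw [c1, c2, c3, c4]
  ring

lemma Pc_even (t : ℝ) : Pc ((-t : ℝ) : ℂ) = Pc (t : ℂ) := by
  have h := pc_neg (Complex.I * t)
  have h1 := pc_Im (z := (t : ℂ)) (by simp [l_pos])
  have h2 := pc_Im (z := ((-t : ℝ) : ℂ)) (by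
    rw [Complex.ofReal_im, abs_zero]
    exact l_pos)
  rw [← h1, ← h2, ← h]
  congr 1
  push_cast
  ring

/-- a row against a shifted leg force, first orientation -/
lemma int_row1 (a b : ℝ) :
    Integrable (fun s : ℝ => Pc (s - (a : ℂ)) * fSd (l + Complex.I * (s - (b : ℂ)))) ∧
    ∫ s : ℝ, Pc (s - (a : ℂ)) * fSd (l + Complex.I * (s - (b : ℂ))) =
      dTT (((a - b : ℝ) : ℂ) * Complex.I) := by
  have hl := l_pos
  have e : ∀ s : ℝ, Pc (s - (a : ℂ)) * fSd (l + Complex.I * (s - (b : ℂ))) =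
      (fun s : ℝ => Pc s * fSd (((a - b : ℝ) : ℂ) * Complex.I + l - s * Complex.I)) (a - s) := by
    intro s
    simp only []
    congr 1
    · rw [← Pc_even]
      congr 1
      push_cast
      ring
    · congr 1
      push_cast
      ring
  have h0 : (((a - b : ℝ) : ℂ) * Complex.I).re = 0 := by simp
  have i0 := int_dTT (w := ((a - b : ℝ) : ℂ) * Complex.I) (by rw [h0]; linarith)
    (by rw [h0]; linarith)
  simp only [e]
  refine ⟨i0.comp_sub_left a, ?_⟩
  rw [integral_sub_left_eq_self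
    (fun s : ℝ => Pc s * fSd (((a - b : ℝ) : ℂ) * Complex.I + l - s * Complex.I)) volume a]
  rfl

/-- second orientation -/
lemma int_row2 (a b : ℝ) :
    Integrable (fun s : ℝ => Pc (s - (a : ℂ)) * fSd (l - Complex.I * (s - (b : ℂ)))) ∧
    ∫ s : ℝ, Pc (s - (a : ℂ)) * fSd (l - Complex.I * (s - (b : ℂ))) =
      dTT (((b - a : ℝ) : ℂ) * Complex.I) := by
  have hl := l_pos
  have e : ∀ s : ℝ, Pc (s - (a : ℂ)) * fSd (l - Complex.I * (s - (b : ℂ))) =
      (fun s : ℝ => Pc s * fSd (((b - a : ℝ) : ℂ) * Complex.I + l - s * Complex.I)) (s - a) := by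
    intro s
    simp only []
    congr 1
    · congr 1
      push_cast
      ring
    · congr 1
      push_cast
      ring
  have h0 : (((b - a : ℝ) : ℂ) * Complex.I).re = 0 := by simp
  have i0 := int_dTT (w := ((b - a : ℝ) : ℂ) * Complex.I) (by rw [h0]; linarith)
    (by rw [h0]; linarith)
  simp only [e]
  refine ⟨i0.comp_sub_right a, ?_⟩
  rw [integral_sub_right_eq_self
    (fun s : ℝ => Pc s * fSd (((b - a : ℝ) : ℂ) * Complex.I + l - s * Complex.I)) a]
  rfl

/-- **the constant of the rows** -/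
theorem C0_eq' (i0 : Fin m) (hx : ∀ i, (x i).re = 0) :
    C0 x i0 = 2 * Complex.I * ∑ i, (dTT (x i - x i0) - dTT (x i0 - x i)) := by
  have hl := l_pos
  rw [C0_line hx]
  have h1 : ∀ i, Integrable (fun s : ℝ => Pc (s - hr (x i)) * deriv vc (s - hr (x i0))) ∧
      ∫ s : ℝ, Pc (s - hr (x i)) * deriv vc (s - hr (x i0)) =
        -Complex.I * dTT (x i - x i0) + Complex.I * dTT (x i0 - x i) := by
    intro i
    obtain ⟨a1, a2⟩ := int_row1 (x i).im (x i0).im
    obtain ⟨b1, b2⟩ := int_row2 (x i).im (x i0).im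
    have e1 : ((((x i).im - (x i0).im : ℝ) : ℂ)) * Complex.I = x i - x i0 := by
      conv_rhs => rw [im_eq (hx i), im_eq (hx i0)]
      push_cast
      ring
    have e2 : ((((x i0).im - (x i).im : ℝ) : ℂ)) * Complex.I = x i0 - x i := by
      conv_rhs => rw [im_eq (hx i), im_eq (hx i0)]
      push_cast
      ring
    rw [e1] at a2
    rw [e2] at b2
    have e : ∀ s : ℝ, Pc (s - hr (x i)) * deriv vc (s - hr (x i0)) =
        -Complex.I * (Pc (s - ((x i).im : ℂ)) * fSd (l + Complex.I * (s - ((x i0).im : ℂ)))) +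
        Complex.I * (Pc (s - ((x i).im : ℂ)) * fSd (l - Complex.I * (s - ((x i0).im : ℂ)))) := by
      intro s
      rw [hr_real (hx i), hr_real (hx i0), vc_fSd (by simpa using hl)]
      ring
    simp only [e]
    refine ⟨(a1.const_mul _).add (b1.const_mul _), ?_⟩
    rw [integral_add (a1.const_mul _) (b1.const_mul _), integral_const_mul, integral_const_mul,
      a2, b2]
  have h2 : ∫ s : ℝ, ro x s * deriv vc (s - hr (x i0)) =
      ∑ i, (-Complex.I * dTT (x i - x i0) + Complex.I * dTT (x i0 - x i)) := by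
    unfold ro
    simp only [Finset.sum_mul]
    rw [integral_finsetSum _ fun i _ => (h1 i).1]
    exact Finset.sum_congr rfl fun i _ => (h1 i).2
  rw [h2, Finset.mul_sum, Finset.mul_sum, ← Finset.sum_neg_distrib]
  refine Finset.sum_congr rfl fun i _ => ?_
  ring

/-- the leg force on the kinds -/
def lamK (z : ℂ) (b : K4) (w : ℂ) : ℂ := kO (lamL z) (NUP1S.ob4 b.2) w

/-- the constant of the leg -/
def C1v (z : ℂ) (x : Fin m → ℂ) (i0 : Fin m) : ℂ :=
  ∑ b : K4, ∫ s, rhK x b s * (xiK x i0 b (NUP1.vl NUP1.l s) * lamK z b (NUP1.vl NUP1.l s))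

/-- **the constant of the leg** -/
theorem C1_eq {z : ℂ} (i0 : Fin m) (hx : ∀ i, (x i).re = 0) (h0 : -l < z.re)
    (h1 : z.re < 4 * l) : C1v z x i0 = 2 * Complex.I * dTT (z - x i0) := by
  have hl := l_pos
  unfold C1v
  rw [sum_K4 (f := fun b : K4 => ∫ s, rhK x b s * (xiK x i0 b (NUP1.vl NUP1.l s) *
    lamK z b (NUP1.vl NUP1.l s))) (fun s k => by simp [rhK_some]) true]
  have e : ∀ σ : Bool, ∫ s, rhK x (σ, none) s * (xiK x i0 (σ, none) (NUP1.vl NUP1.l s) *
      lamK z (σ, none) (NUP1.vl NUP1.l s)) = Complex.I * dTT (z - x i0) := by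
    intro σ
    have e1 : ∀ s : ℝ, rhK x (σ, none) s * (xiK x i0 (σ, none) (NUP1.vl NUP1.l s) *
        lamK z (σ, none) (NUP1.vl NUP1.l s)) =
        (fun s : ℝ => Complex.I * (Pc s * fSd (z - x i0 + l - s * Complex.I))) (s - (x i0).im) := by
      intro s
      change rhoR x (l + s * Complex.I) * (xiR x i0 (l + s * Complex.I) *
        lamL z (l + s * Complex.I)) = _
      rw [rhoR_line (fun i => by rw [hx i, abs_zero]; exact hl),
        xiR_line i0 (fun i => by rw [hx i, abs_zero]; exact hl), hr_real (hx i0)]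
      have hne := ro_ne i0 hx s
      unfold lamL
      have e3 : z + 2 * (l : ℂ) - (l + s * Complex.I) =
          z - x i0 + l - ((s - (x i0).im : ℝ) : ℂ) * Complex.I := by
        conv_rhs => rw [im_eq (hx i0)]
        push_cast
        ring_nf
        simp
      have e4 : (((s - (x i0).im : ℝ) : ℂ)) = s - ((x i0).im : ℂ) := by push_cast; ring
      rw [e3, ← e4]
      beta_reduce
      generalize ((s - (x i0).im : ℝ) : ℂ) = q
      generalize fSd (z - x i0 + l - q * Complex.I) = F
      field_simp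
    simp only [e1]
    rw [integral_sub_right_eq_self
      (fun s : ℝ => Complex.I * (Pc s * fSd (z - x i0 + l - s * Complex.I))) (x i0).im,
      integral_const_mul]
    rfl
  rw [e, e]
  ring

/-! ### the prefactor -/

/-- `f' = f a` -/
def LD (f : ℝ → ℂ) (a : ℂ) (t : ℝ) : Prop := HasDerivAt f (f t * a) t

lemma LD.mul {f g : ℝ → ℂ} {a b : ℂ} {t : ℝ} (hf : LD f a t) (hg : LD g b t) :
    LD (fun η => f η * g η) (a + b) t := by
  unfold LD
  refine (HasDerivAt.mul hf hg).congr_deriv ?_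
  ring

lemma LD.const (c : ℂ) (t : ℝ) : LD (fun _ => c) 0 t := by
  unfold LD
  rw [mul_zero]
  exact hasDerivAt_const t c

lemma LD.div {f g : ℝ → ℂ} {a b : ℂ} {t : ℝ} (hf : LD f a t) (hg : LD g b t) (h0 : g t ≠ 0) :
    LD (fun η => f η / g η) (a - b) t := by
  unfold LD
  refine (HasDerivAt.div hf hg h0).congr_deriv ?_
  field_simp

lemma LD.pow {f : ℝ → ℂ} {a : ℂ} {t : ℝ} (hf : LD f a t) (n : ℕ) :
    LD (fun η => f η ^ n) (n * a) t := by
  induction n with
  | zero =>
    have := LD.const 1 t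
    simpa using this
  | succ n ih =>
    have h := ih.mul hf
    have e : (fun η => f η ^ (n + 1)) = fun η => f η ^ n * f η := by
      funext η
      exact pow_succ _ _
    rw [e]
    convert h using 1
    push_cast
    ring

lemma LD.prod {κ : Type*} (S : Finset κ) {f : κ → ℝ → ℂ} {a : κ → ℂ} {t : ℝ}
    (h : ∀ i ∈ S, LD (f i) (a i) t) : LD (fun η => ∏ i ∈ S, f i η) (∑ i ∈ S, a i) t := by
  induction S using Finset.induction_on with
  | empty => simpa using LD.const 1 t
  | insert i S hi ih =>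
    have h1 := (h i (Finset.mem_insert_self _ _)).mul
      (ih fun j hj => h j (Finset.mem_insert_of_mem hj))
    simpa only [Finset.prod_insert hi, Finset.sum_insert hi] using h1

lemma LD.comp {F : ℂ → ℂ} {X : ℝ → ℂ} {a v : ℂ} {t : ℝ} (hF : HasDerivAt F (F (X t) * a) (X t))
    (hX : HasDerivAt X v t) : LD (fun η => F (X η)) (a * v) t := by
  unfold LD
  have := hF.scomp t hX
  refine this.congr_deriv ?_
  rw [smul_eq_mul]
  ring

/-- velocities of the rows -/
def vv (i0 i : Fin m) : ℂ := if i = i0 then Complex.I else 0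

lemma sum_vv (i0 : Fin m) (f : Fin m → ℂ) : ∑ i, f i * vv i0 i = Complex.I * f i0 := by
  unfold vv
  simp only [mul_ite, mul_zero, Finset.sum_ite_eq', Finset.mem_univ, if_true]
  ring

/-- sums over all ordered pairs -/
lemma pairs_all {g : ℂ → ℂ} (hg : ∀ w, g (-w) = -g w) (x : Fin m → ℂ) (i0 : Fin m) :
    ∑ a, ∑ b, g (x a - x b) * (vv i0 a - vv i0 b) = 2 * (Complex.I * ∑ b, g (x i0 - x b)) := by
  have h1 : ∑ a, ∑ b, g (x a - x b) * vv i0 a = Complex.I * ∑ b, g (x i0 - x b) := by
    rw [← sum_vv i0 (fun a => ∑ b, g (x a - x b))]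
    refine Finset.sum_congr rfl fun a _ => ?_
    rw [Finset.sum_mul]
  have h2 : ∑ a, ∑ b, g (x a - x b) * vv i0 b = -(Complex.I * ∑ b, g (x i0 - x b)) := by
    rw [Finset.sum_comm, ← h1, ← Finset.sum_neg_distrib]
    refine Finset.sum_congr rfl fun a _ => ?_
    rw [← Finset.sum_neg_distrib]
    refine Finset.sum_congr rfl fun b _ => ?_
    rw [show x b - x a = -(x a - x b) by ring, hg]
    ring
  have h3 : ∀ a b, g (x a - x b) * (vv i0 a - vv i0 b) =
      g (x a - x b) * vv i0 a - g (x a - x b) * vv i0 b := fun a b => by ring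
  simp only [h3, Finset.sum_sub_distrib]
  rw [h1, h2]
  ring

/-- sums over the pairs `a < b` -/
lemma pairs_lt {g : ℂ → ℂ} (hg : ∀ w, g (-w) = -g w) (x : Fin m → ℂ) (i0 : Fin m) :
    ∑ a, ∑ b, (if a < b then g (x a - x b) * (vv i0 a - vv i0 b) else 0) =
      Complex.I * ∑ b, g (x i0 - x b) := by
  have h0 := pairs_all hg x i0
  set s : Fin m → Fin m → ℂ := fun a b => g (x a - x b) * (vv i0 a - vv i0 b) with hs
  have hsym : ∀ a b, s a b = s b a := by
    intro a b
    simp only [hs]
    rw [show x b - x a = -(x a - x b) by ring, hg]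
    ring
  have h1 : ∑ a, ∑ b, s a b = ∑ a, ∑ b, (if a < b then s a b else 0) +
      ∑ a, ∑ b, (if b < a then s a b else 0) := by
    rw [← Finset.sum_add_distrib]
    refine Finset.sum_congr rfl fun a _ => ?_
    rw [← Finset.sum_add_distrib]
    refine Finset.sum_congr rfl fun b _ => ?_
    rcases lt_trichotomy a b with h | h | h
    · rw [if_pos h, if_neg h.not_gt, add_zero]
    · subst h
      simp [hs]
    · rw [if_neg h.not_gt, if_pos h, zero_add]
  have h2 : ∑ a, ∑ b, (if b < a then s a b else 0) = ∑ a, ∑ b, (if a < b then s a b else 0) := by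
    rw [Finset.sum_comm]
    refine Finset.sum_congr rfl fun a _ => Finset.sum_congr rfl fun b _ => ?_
    by_cases h : a < b
    · rw [if_pos h, if_pos h, hsym]
    · rw [if_neg h, if_neg h]
  change ∑ a, ∑ b, s a b = _ at h0
  change ∑ a, ∑ b, (if a < b then s a b else 0) = _
  rw [h1, h2] at h0
  linear_combination h0 / 2

/-- logarithmic derivative of a two body product -/
lemma LD.pairs {F g : ℂ → ℂ} {y : ℝ → Fin m → ℂ} {t : ℝ} (i0 : Fin m)
    (hy : ∀ i, HasDerivAt (fun η => y η i) (vv i0 i) t) (hg : ∀ w, g (-w) = -g w)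
    (hF : ∀ i j, HasDerivAt F (F (y t i - y t j) * g (y t i - y t j)) (y t i - y t j)) :
    LD (fun η => NUP1.Grand.P fun i j => F (y η i - y η j))
      (Complex.I * ∑ b, g (y t i0 - y t b)) t := by
  rw [← pairs_lt hg (y t) i0]
  unfold NUP1.Grand.P
  refine LD.prod _ fun a _ => LD.prod _ fun b _ => ?_
  by_cases h : a < b
  · simp only [if_pos h]
    exact LD.comp (F := F) (X := fun η => y η a - y η b) (hF a b) ((hy a).sub (hy b))
  · simp only [if_neg h]
    exact LD.const 1 t

/-- all ordered pairs -/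
lemma LD.pairsAll {F g : ℂ → ℂ} {y : ℝ → Fin m → ℂ} {t : ℝ} (i0 : Fin m)
    (hy : ∀ i, HasDerivAt (fun η => y η i) (vv i0 i) t) (hg : ∀ w, g (-w) = -g w)
    (hF : ∀ i j, HasDerivAt F (F (y t i - y t j) * g (y t i - y t j)) (y t i - y t j)) :
    LD (fun η => ∏ i, ∏ j, F (y η i - y η j))
      (2 * (Complex.I * ∑ b, g (y t i0 - y t b))) t := by
  rw [← pairs_all hg (y t) i0]
  refine LD.prod _ fun a _ => LD.prod _ fun b _ => ?_
  exact LD.comp (F := F) (X := fun η => y η a - y η b) (hF a b) ((hy a).sub (hy b))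

/-- one body products -/
lemma LD.ones {F g : ℂ → ℂ} {y : ℝ → Fin m → ℂ} {t : ℝ} (z : ℂ) (i0 : Fin m)
    (hy : ∀ i, HasDerivAt (fun η => y η i) (vv i0 i) t)
    (hF : ∀ i, HasDerivAt F (F (z - y t i) * g (z - y t i)) (z - y t i)) :
    LD (fun η => ∏ i, F (z - y η i)) (-(Complex.I * g (z - y t i0))) t := by
  have h := LD.prod (Finset.univ : Finset (Fin m)) (f := fun i η => F (z - y η i))
    (a := fun i => g (z - y t i) * -vv i0 i) (t := t) fun i _ =>
      LD.comp (F := F) (X := fun η => z - y η i) (hF i) ((hy i).const_sub z)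
  have e : ∑ i, g (z - y t i) * -vv i0 i = -(Complex.I * g (z - y t i0)) := by
    rw [← sum_vv i0 (fun i => g (z - y t i)), ← Finset.sum_neg_distrib]
    exact Finset.sum_congr rfl fun i _ => by ring
  rwa [e] at h

/-- `(log Lp)'` -/
def lLp (v : ℂ) : ℂ := ct (v + 2 * l) + ct (v + 3 * l)

/-- `(log Fp)'` -/
def lFp (v : ℂ) : ℂ := ct (v + 2 * l) + ct (v + 3 * l) - ct (3 * l - v) - ct (2 * l - v)

lemma lFp_odd (v : ℂ) : lFp (-v) = -lFp v := by
  unfold lFp
  rw [show -v + 2 * (l : ℂ) = 2 * l - v by ring, show -v + 3 * (l : ℂ) = 3 * l - v by ring,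
    show 3 * (l : ℂ) - -v = v + 3 * l by ring, show 2 * (l : ℂ) - -v = v + 2 * l by ring]
  ring

lemma lrh_odd (v : ℂ) : lrh (-v) = -lrh v := by
  have e : (fun w => PBR.rh (-w)) = PBR.rh := funext PBR.rh_neg
  have h : deriv PBR.rh (-v) = -deriv PBR.rh v := by
    have h1 := deriv_comp_neg PBR.rh v
    rw [e] at h1
    rw [h1, neg_neg]
  unfold lrh
  rw [h, PBR.rh_neg, neg_div]

lemma hasDerivAt_Lpf {v : ℂ} (h0 : -l < v.re) (h1 : v.re < 4 * l) :
    HasDerivAt (fun v : ℂ => Complex.sin (v + 2 * l) * Complex.sin (v + 3 * l))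
      (Complex.sin (v + 2 * l) * Complex.sin (v + 3 * l) * lLp v) v := by
  have hl := l_pos
  have n2 : Complex.sin (v + 2 * l) ≠ 0 := sin_neS (by simp; linarith) (by simp; linarith)
  have n3 : Complex.sin (v + 3 * l) ≠ 0 := sin_neS (by simp; linarith) (by simp; linarith)
  have q2 : HasDerivAt (fun v : ℂ => Complex.sin (v + 2 * l)) (Complex.cos (v + 2 * l)) v := by
    have := ((hasDerivAt_id v).add_const (2 * (l : ℂ))).csin
    rwa [mul_one] at this
  have q3 : HasDerivAt (fun v : ℂ => Complex.sin (v + 3 * l)) (Complex.cos (v + 3 * l)) v := by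
    have := ((hasDerivAt_id v).add_const (3 * (l : ℂ))).csin
    rwa [mul_one] at this
  refine (q2.mul q3).congr_deriv ?_
  unfold lLp ct
  generalize Complex.cos (v + 2 * l) = c2
  generalize Complex.cos (v + 3 * l) = c3
  generalize Complex.sin (v + 2 * l) = s2 at *
  generalize Complex.sin (v + 3 * l) = s3 at *
  field_simp

lemma hasDerivAt_Fp {v : ℂ} (h : v.re = 0) : HasDerivAt Fp (Fp v * lFp v) v := by
  have hl := l_pos
  have d1 := hasDerivAt_Lpf (v := v) (by rw [h]; linarith) (by rw [h]; linarith)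
  have n2 : Complex.sin (3 * l - v) ≠ 0 := sin_neS (by simp [h]; linarith) (by simp [h]; linarith)
  have n3 : Complex.sin (2 * l - v) ≠ 0 := sin_neS (by simp [h]; linarith) (by simp [h]; linarith)
  have q2 : HasDerivAt (fun v : ℂ => Complex.sin (3 * l - v)) (-Complex.cos (3 * l - v)) v := by
    have := ((hasDerivAt_id v).const_sub (3 * (l : ℂ))).csin
    rwa [mul_neg_one] at this
  have q3 : HasDerivAt (fun v : ℂ => Complex.sin (2 * l - v)) (-Complex.cos (2 * l - v)) v := by
    have := ((hasDerivAt_id v).const_sub (2 * (l : ℂ))).csin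
    rwa [mul_neg_one] at this
  refine (d1.mul (q2.mul q3)).congr_deriv ?_
  unfold lFp lLp Fp ct
  show Complex.sin (v + 2 * l) * Complex.sin (v + 3 * l) * _ *
    (Complex.sin (3 * l - v) * Complex.sin (2 * l - v)) +
    Complex.sin (v + 2 * l) * Complex.sin (v + 3 * l) * _ =
    Complex.sin (v + 2 * l) * Complex.sin (v + 3 * l) *
      (Complex.sin (3 * l - v) * Complex.sin (2 * l - v)) * _
  clear d1 q2 q3
  generalize Complex.cos (v + 2 * l) = c2
  generalize Complex.cos (v + 3 * l) = c3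
  generalize Complex.sin (v + 2 * l) = s2
  generalize Complex.sin (v + 3 * l) = s3
  generalize Complex.cos (3 * l - v) = c4
  generalize Complex.cos (2 * l - v) = c5
  generalize Complex.sin (3 * l - v) = s4 at *
  generalize Complex.sin (2 * l - v) = s5 at *
  field_simp
  ring

lemma hasDerivAt_rh2 {v : ℂ} (h : |v.re| < 5 * l) :
    HasDerivAt (fun v => PBR.rh v ^ 2) (PBR.rh v ^ 2 * (2 * lrh v)) v := by
  refine ((hasDerivAt_rh' h).pow 2).congr_deriv ?_
  push_cast
  ring

/-- **(Num)**: the derivative of the prefactor in the height of a row -/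
theorem Num {y : ℝ → Fin m → ℂ} {t : ℝ} {z : ℂ} (i0 : Fin m)
    (hy : ∀ i, HasDerivAt (fun η => y η i) (vv i0 i) t) (hx : ∀ i, (y t i).re = 0)
    (h0 : -l < z.re) (h1 : z.re < 4 * l) :
    HasDerivAt (fun η => Pf z (y η) (y η))
      (-(Pf z (y t) (y t) * (C0 (y t) i0 + C1v z (y t) i0))) t := by
  have hl := l_pos
  have hre : ∀ i j, (y t i - y t j).re = 0 := fun i j => by simp [hx]
  have hrz : ∀ i, (z - y t i).re = z.re := fun i => by simp [hx]
  have hz5 : ∀ i, |(z - y t i).re| < 5 * l := fun i => by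
    rw [hrz, abs_lt]
    constructor <;> linarith
  have h5 : ∀ i j, |(y t i - y t j).re| < 5 * l := fun i j => by
    rw [hre, abs_zero]
    linarith
  have nu : LD (fun η => Nu z (y η)) ((0 + -(Complex.I * lLp (z - y t i0))) +
      Complex.I * ∑ b, lFp (y t i0 - y t b)) t := by
    have a1 := LD.ones (F := fun v : ℂ => Complex.sin (v + 2 * l) * Complex.sin (v + 3 * l))
      (g := lLp) z i0 hy fun i => hasDerivAt_Lpf (by rw [hrz]; exact h0) (by rw [hrz]; exact h1)
    have a2 := LD.pairs (F := Fp) (g := lFp) i0 hy lFp_odd fun i j => hasDerivAt_Fp (hre i j)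
    have a3 := ((LD.const ((Complex.sin (l : ℂ)) ^ m) t).mul a1).mul a2
    have e : (fun η => Nu z (y η)) = fun η => (Complex.sin (l : ℂ)) ^ m *
        (∏ i, (Complex.sin (z - y η i + 2 * l) * Complex.sin (z - y η i + 3 * l))) *
        NUP1.Grand.P fun i j => Fp (y η i - y η j) := by
      funext η
      unfold Nu Pool.Agent.PB.Lp
      rw [Finset.prod_mul_distrib, Finset.prod_const, Finset.card_univ, Fintype.card_fin]
      rfl
    rw [e]
    exact a3
  have d1 : LD (fun η => D1 z (y η)) (Complex.I * (∑ b, 2 * lrh (y t i0 - y t b)) +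
      -(Complex.I * (2 * lrh (z - y t i0)))) t := by
    have a1 := LD.ones (F := fun v => PBR.rh v ^ 2) (g := fun v => 2 * lrh v) z i0 hy
      fun i => hasDerivAt_rh2 (hz5 i)
    have a2 := LD.pairs (F := fun v => PBR.rh v ^ 2) (g := fun v => 2 * lrh v) i0 hy
      (fun w => by rw [lrh_odd]; ring) fun i j => hasDerivAt_rh2 (h5 i j)
    exact a2.mul a1
  have d2 : LD (fun η => D2 (y η) (y η)) (2 * (Complex.I * ∑ b, 2 * lrh (y t i0 - y t b))) t :=
    LD.pairsAll (F := fun v => PBR.rh v ^ 2) (g := fun v => 2 * lrh v) i0 hy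
      (fun w => by rw [lrh_odd]; ring) fun i j => hasDerivAt_rh2 (h5 i j)
  have nD1 : D1 z (y t) ≠ 0 := by
    unfold D1 NUP1.Grand.P
    refine mul_ne_zero (Finset.prod_ne_zero_iff.2 fun a _ => Finset.prod_ne_zero_iff.2
      fun b _ => ?_) (Finset.prod_ne_zero_iff.2 fun a _ => pow_ne_zero _
        (PBR.rh_ne_zero (hz5 a)))
    split_ifs
    · exact pow_ne_zero _ (PBR.rh_ne_zero (h5 a b))
    · exact one_ne_zero
  have nD2 : D2 (y t) (y t) ≠ 0 := by
    unfold D2
    exact Finset.prod_ne_zero_iff.2 fun a _ => Finset.prod_ne_zero_iff.2 fun b _ =>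
      pow_ne_zero _ (PBR.rh_ne_zero (h5 a b))
  have nr : PBR.rh 0 ≠ 0 := PBR.rh_ne_zero (w := 0) (by
    rw [Complex.zero_re, abs_zero]
    show 0 < 5 * l
    linarith)
  have hnum := (LD.const ((3 / 2 : ℂ) ^ (m + m + 1) * Complex.sin (l : ℂ)) t).mul (nu.mul nu)
  have hden := ((d1.mul d1).mul d2).mul (LD.const (PBR.rh 0) t)
  have key := hnum.div hden (mul_ne_zero (mul_ne_zero (mul_ne_zero nD1 nD1) nD2) nr)
  have hPf : (fun η => Pf z (y η) (y η)) = fun η =>
      (3 / 2 : ℂ) ^ (m + m + 1) * Complex.sin (l : ℂ) * (Nu z (y η) * Nu z (y η)) /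
        (D1 z (y η) * D1 z (y η) * D2 (y η) (y η) * PBR.rh 0) := rfl
  have hv : Pf z (y t) (y t) = (3 / 2 : ℂ) ^ (m + m + 1) * Complex.sin (l : ℂ) *
      (Nu z (y t) * Nu z (y t)) / (D1 z (y t) * D1 z (y t) * D2 (y t) (y t) * PBR.rh 0) := rfl
  rw [hPf]
  refine HasDerivAt.congr_deriv key ?_
  rw [hv, ← mul_neg]
  congr 1
  rw [C0_eq' i0 hx, C1_eq i0 hx h0 h1]
  rw [dTT_eq (w := z - y t i0) (by rw [hrz]; exact h0) (by rw [hrz]; exact h1)]
  have e1 : ∀ i, dTT (y t i - y t i0) - dTT (y t i0 - y t i) =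
      -lFp (y t i0 - y t i) + 4 * lrh (y t i0 - y t i) := by
    intro i
    rw [dTT_eq (w := y t i - y t i0) (by rw [hre]; linarith) (by rw [hre]; linarith),
      dTT_eq (w := y t i0 - y t i) (by rw [hre]; linarith) (by rw [hre]; linarith)]
    rw [show y t i - y t i0 = -(y t i0 - y t i) by ring, lrh_odd]
    unfold lFp
    rw [show -(y t i0 - y t i) + 2 * (l : ℂ) = 2 * l - (y t i0 - y t i) by ring,
      show -(y t i0 - y t i) + 3 * (l : ℂ) = 3 * l - (y t i0 - y t i) by ring]
    ring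
  simp only [e1, Finset.sum_add_distrib, Finset.sum_neg_distrib, ← Finset.mul_sum]
  unfold lLp
  ring

end mf

end PBQ1

end
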