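import Pool.Agent.PB.Vand

/-!
# Plan B: Schwarz lemma with zeros at arbitrary points of the strip (helper7)

Rows at `0`, `± l/2` and one moved row: the difference `f (z + 3l) - f (z - 3l)` vanishes at all rows.

* `Bf δ b z = sin (π(z-b)/4δ) / cos (π(z+b)/4δ)`: zero at `b`, modulus one at `|Re z| = δ`;
* **`schwarzR`**: `‖D z‖ ≤ M / tanh(πY/4δ)^n * ‖Bf δ b z‖^n` on `|Re z| ≤ δ`, `|Im z| ≤ Y`;
* `Bf_le`: `‖Bf‖^n ≤ exp(-(7/20) cos(πb/2δ) n e^{-π|Im z|/2δ})` for `|Re z| ≤ δ/2`;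
* `Bc δ c z`: the same with zero at the complex point `c`; **`schwarzP`**: product of zeros
  `D z = (∏ j, (z - c j)) * Q z` (the form of `zero_rows` in `PB/ZeroR`):
  `‖D z‖ ≤ M / tanh(π(Y - y₀)/4δ)^n * ∏ ‖Bc δ (c j) z‖`;
* **`small_zeros`**: explicit bound for `|Re z| ≤ ρ < δ`; **`small_N`**: `‖D z‖ ≤ N^{-e}` for
  `|Re z| ≤ ρ`, `|Im z| ≤ (1 - ε) (2δ/π) log N`, at least `N/2` and at most `2N` zeros, `‖D‖ ≤ N^C` on
  `|Re z| ≤ δ`, `|Im z| ≤ (2δ/π) log N + y₀`; **`small_Nx`**: the same with any height `x₁ log N + y₀`,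
  `0 < x₁ ≤ 2δ/π`, conclusion for `|Im z| ≤ (1 - ε) x₁ log N`.
-/

set_option autoImplicit false

noncomputable section

open Complex MeasureTheory Set Filter Topology

namespace PBV

/-- the factor of the strip with zero at `b` -/
def Bf (δ b : ℝ) (z : ℂ) : ℂ :=
  Complex.sin (Real.pi * (z - b) / (4 * δ)) / Complex.cos (Real.pi * (z + b) / (4 * δ))

variable {δ b : ℝ}

theorem arg_eqm (δ b : ℝ) (z : ℂ) : (Real.pi * (z - b) / (4 * δ) : ℂ) =
    ((Real.pi * (z.re - b) / (4 * δ) : ℝ) : ℂ) + ((Real.pi * z.im / (4 * δ) : ℝ) : ℂ) * I := by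
  conv_lhs => rw [← re_add_im z]
  push_cast
  ring

theorem arg_eqp (δ b : ℝ) (z : ℂ) : (Real.pi * (z + b) / (4 * δ) : ℂ) =
    ((Real.pi * (z.re + b) / (4 * δ) : ℝ) : ℂ) + ((Real.pi * z.im / (4 * δ) : ℝ) : ℂ) * I := by
  conv_lhs => rw [← re_add_im z]
  push_cast
  ring

theorem Bf_sq (δ b : ℝ) (z : ℂ) : ‖Bf δ b z‖ ^ 2 =
    (Real.sin (Real.pi * (z.re - b) / (4 * δ)) ^ 2 + Real.sinh (Real.pi * z.im / (4 * δ)) ^ 2) /
    (Real.cos (Real.pi * (z.re + b) / (4 * δ)) ^ 2 + Real.sinh (Real.pi * z.im / (4 * δ)) ^ 2) := by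
  unfold Bf
  rw [norm_div, div_pow, arg_eqm, arg_eqp, nsq_sin, nsq_cos]

theorem ub_bound (hδ : 0 < δ) (hb : |b| < δ) {z : ℂ} (hz : |z.re| ≤ δ) :
    |Real.pi * (z.re + b) / (4 * δ)| < Real.pi / 2 := by
  have hpi := Real.pi_pos
  rw [abs_div, abs_mul, abs_of_pos hpi, abs_of_pos (by positivity : 0 < 4 * δ),
    div_lt_div_iff₀ (by positivity) (by norm_num)]
  have h1 : |z.re + b| < 2 * δ := lt_of_le_of_lt (abs_add_le _ _) (by linarith)
  nlinarith

theorem ubm_bound (hδ : 0 < δ) (hb : |b| < δ) {z : ℂ} (hz : |z.re| ≤ δ) :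
    |Real.pi * (z.re - b) / (4 * δ)| < Real.pi / 2 := by
  have h := ub_bound (b := -b) hδ (by rwa [abs_neg]) hz
  simpa only [sub_eq_add_neg] using h

theorem cosb_pos (hδ : 0 < δ) (hb : |b| < δ) {z : ℂ} (hz : |z.re| ≤ δ) :
    0 < Real.cos (Real.pi * (z.re + b) / (4 * δ)) := by
  have h := abs_lt.1 (ub_bound hδ hb hz)
  apply Real.cos_pos_of_mem_Ioo
  constructor <;> linarith [h.1, h.2]

theorem cosbz_ne (hδ : 0 < δ) (hb : |b| < δ) {z : ℂ} (hz : |z.re| ≤ δ) :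
    Complex.cos (Real.pi * (z + b) / (4 * δ)) ≠ 0 := by
  intro h
  have h1 := nsq_cos (Real.pi * (z.re + b) / (4 * δ)) (Real.pi * z.im / (4 * δ))
  rw [← arg_eqp, h, norm_zero] at h1
  have h2 := cosb_pos hδ hb hz
  nlinarith [sq_nonneg (Real.sinh (Real.pi * z.im / (4 * δ))), pow_pos h2 2]

theorem cos_sin_id (A B : ℝ) : Real.cos A ^ 2 - Real.sin B ^ 2 = Real.cos (A + B) * Real.cos (A - B) := by
  rw [Real.cos_add, Real.cos_sub]
  have h1 := Real.sin_sq_add_cos_sq A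
  have h2 := Real.sin_sq_add_cos_sq B
  have e1 : Real.sin A ^ 2 = 1 - Real.cos A ^ 2 := by linarith
  have e2 : Real.cos B ^ 2 = 1 - Real.sin B ^ 2 := by linarith
  calc Real.cos A ^ 2 - Real.sin B ^ 2 = Real.cos A ^ 2 * (1 - Real.sin B ^ 2) -
      (1 - Real.cos A ^ 2) * Real.sin B ^ 2 := by ring
    _ = Real.cos A ^ 2 * Real.cos B ^ 2 - Real.sin A ^ 2 * Real.sin B ^ 2 := by rw [e1, e2]
    _ = _ := by ring

/-- the difference of denominator and numerator -/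
theorem diff_id (hδ : 0 < δ) (b : ℝ) (x : ℝ) :
    Real.cos (Real.pi * (x + b) / (4 * δ)) ^ 2 - Real.sin (Real.pi * (x - b) / (4 * δ)) ^ 2 =
      Real.cos (Real.pi * x / (2 * δ)) * Real.cos (Real.pi * b / (2 * δ)) := by
  rw [cos_sin_id]
  congr 2
  · field_simp
    ring
  · field_simp
    ring

theorem Bf_side (hδ : 0 < δ) (hb : |b| < δ) {z : ℂ} (hz : |z.re| = δ) : ‖Bf δ b z‖ = 1 := by
  have hpi := Real.pi_pos
  have h0 : Real.cos (Real.pi * z.re / (2 * δ)) = 0 := by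
    rcases abs_choice z.re with h | h
    · rw [h] at hz
      rw [hz, show Real.pi * δ / (2 * δ) = Real.pi / 2 by field_simp, Real.cos_pi_div_two]
    · rw [h] at hz
      have : z.re = -δ := by linarith
      rw [this, show Real.pi * -δ / (2 * δ) = -(Real.pi / 2) by field_simp, Real.cos_neg,
        Real.cos_pi_div_two]
  have h1 := Bf_sq δ b z
  have h2 := cosb_pos hδ hb hz.le
  have h4 := diff_id hδ b z.re
  rw [h0, zero_mul] at h4
  have h5 : Real.sin (Real.pi * (z.re - b) / (4 * δ)) ^ 2 =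
      Real.cos (Real.pi * (z.re + b) / (4 * δ)) ^ 2 := by linarith
  rw [h5, div_self (by positivity)] at h1
  have h3 := norm_nonneg (Bf δ b z)
  nlinarith [sq_nonneg (‖Bf δ b z‖ - 1)]

theorem le_of_sqs {x y : ℝ} (h : x ^ 2 ≤ y ^ 2) (hy : 0 ≤ y) : x ≤ y := by
  nlinarith [sq_nonneg (x - y), abs_le_of_sq_le_sq h hy, le_abs_self x]

theorem Bf_low (hδ : 0 < δ) (hb : |b| < δ) {z : ℂ} (hz : |z.re| ≤ δ) {v : ℝ} (hv : 0 ≤ v)
    (hv' : v ≤ |Real.pi * z.im / (4 * δ)|) : Real.tanh v ≤ ‖Bf δ b z‖ := by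
  have h1 := Bf_sq δ b z
  have h2 := cosb_pos hδ hb hz
  set S := Real.sinh (Real.pi * z.im / (4 * δ)) ^ 2 with hS
  have hS0 : 0 ≤ S := sq_nonneg _
  have h3 : Real.sinh v ^ 2 ≤ S := by
    rw [hS, ← sq_abs (Real.sinh (Real.pi * z.im / (4 * δ))), Real.abs_sinh]
    have h4 : Real.sinh v ≤ Real.sinh |Real.pi * z.im / (4 * δ)| := Real.sinh_le_sinh.2 hv'
    have h5 : 0 ≤ Real.sinh v := Real.sinh_nonneg_iff.2 hv
    gcongr
  have hc := Real.cosh_sq v
  have hc0 := Real.cosh_pos v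
  have h4 : Real.tanh v ^ 2 ≤ ‖Bf δ b z‖ ^ 2 := by
    rw [h1, Real.tanh_eq_sinh_div_cosh, div_pow, hc, div_le_div_iff₀ (by positivity) (by positivity)]
    have h5 := Real.cos_sq_le_one (Real.pi * (z.re + b) / (4 * δ))
    nlinarith [sq_nonneg (Real.sin (Real.pi * (z.re - b) / (4 * δ))), sq_nonneg (Real.sinh v)]
  exact le_of_sqs h4 (norm_nonneg _)

theorem kap_pos (hδ : 0 < δ) (hb : |b| < δ) : 0 < Real.cos (Real.pi * b / (2 * δ)) := by
  have hpi := Real.pi_pos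
  have h : |Real.pi * b / (2 * δ)| < Real.pi / 2 := by
    rw [abs_div, abs_mul, abs_of_pos hpi, abs_of_pos (by positivity : 0 < 2 * δ),
      div_lt_div_iff₀ (by positivity) (by norm_num)]
    nlinarith
  have h' := abs_lt.1 h
  apply Real.cos_pos_of_mem_Ioo
  constructor <;> linarith [h'.1, h'.2]

theorem Bf_le (hδ : 0 < δ) (hb : |b| < δ) {z : ℂ} (hz : |z.re| ≤ δ / 2) (N : ℕ) :
    ‖Bf δ b z‖ ^ N ≤ Real.exp (-(7 / 20 * Real.cos (Real.pi * b / (2 * δ)) * N *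
      Real.exp (-(Real.pi * |z.im| / (2 * δ))))) := by
  have hpi := Real.pi_pos
  have h1 := Bf_sq δ b z
  have hz' : |z.re| ≤ δ := by linarith
  have h2 := cosb_pos hδ hb hz'
  have h4 := diff_id hδ b z.re
  set κ := Real.cos (Real.pi * b / (2 * δ)) with hκ
  have hκ0 : 0 < κ := kap_pos hδ hb
  set u := Real.pi * z.re / (2 * δ) with hu
  set v := Real.pi * z.im / (4 * δ) with hv
  set A := Real.pi * (z.re + b) / (4 * δ) with hA
  set B := Real.pi * (z.re - b) / (4 * δ) with hB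
  have hub : |u| ≤ Real.pi / 4 := by
    rw [hu, abs_div, abs_mul, abs_of_pos hpi, abs_of_pos (by positivity : 0 < 2 * δ),
      div_le_div_iff₀ (by positivity) (by norm_num)]
    nlinarith
  have hc2 : 7 / 10 ≤ Real.cos u := by
    have h3 : Real.cos (Real.pi / 4) ≤ Real.cos |u| := by
      apply Real.cos_le_cos_of_nonneg_of_le_pi (abs_nonneg _) (by linarith) hub
    rw [Real.cos_abs, Real.cos_pi_div_four] at h3
    have h4 : (7 / 5 : ℝ) ≤ Real.sqrt 2 := Real.le_sqrt_of_sq_le (by norm_num)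
    linarith
  have hch := Real.cosh_sq v
  set S := Real.sinh v ^ 2 with hS
  have hS0 : 0 ≤ S := sq_nonneg _
  have h5 : Real.cosh v ^ 2 ≤ Real.exp (2 * |v|) := by
    have h6 : Real.cosh v ≤ Real.exp |v| := by
      rw [← Real.cosh_abs, Real.cosh_eq]
      have h7 : Real.exp (-|v|) ≤ Real.exp |v| := Real.exp_le_exp.2 (by linarith [abs_nonneg v])
      linarith
    calc Real.cosh v ^ 2 ≤ Real.exp |v| ^ 2 := by
          have := Real.cosh_pos v
          gcongr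
      _ = _ := by rw [← Real.exp_nat_mul]; norm_num
  have h6 : ‖Bf δ b z‖ ^ 2 ≤ 1 - 7 / 10 * κ * Real.exp (-(2 * |v|)) := by
    have e1 : ‖Bf δ b z‖ ^ 2 = 1 - (Real.cos u * κ) / (Real.cos A ^ 2 + S) := by
      rw [h1, eq_sub_iff_add_eq, ← add_div, div_eq_one_iff_eq (by positivity)]
      linarith
    rw [e1]
    have h7 : Real.cos A ^ 2 + S ≤ Real.exp (2 * |v|) := by
      have := Real.cos_sq_le_one A
      linarith
    have h8 : 7 / 10 * κ * Real.exp (-(2 * |v|)) ≤ (Real.cos u * κ) / (Real.cos A ^ 2 + S) := by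
      rw [Real.exp_neg, ← div_eq_mul_inv]
      have h9 : 0 < Real.cos A ^ 2 + S := by positivity
      gcongr
    linarith
  have h9 : ‖Bf δ b z‖ ^ 2 ≤ Real.exp (-(7 / 10 * κ * Real.exp (-(2 * |v|)))) :=
    h6.trans (by
      have := Real.add_one_le_exp (-(7 / 10 * κ * Real.exp (-(2 * |v|))))
      linarith)
  have h10 : ‖Bf δ b z‖ ≤ Real.exp (-(7 / 20 * κ * Real.exp (-(2 * |v|)))) := by
    have e2 : Real.exp (-(7 / 10 * κ * Real.exp (-(2 * |v|)))) =
        Real.exp (-(7 / 20 * κ * Real.exp (-(2 * |v|)))) ^ 2 := by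
      rw [← Real.exp_nat_mul]
      congr 1
      push_cast
      ring
    rw [e2] at h9
    exact (le_abs_self _).trans (abs_le_of_sq_le_sq h9 (Real.exp_pos _).le)
  have e3 : 2 * |v| = Real.pi * |z.im| / (2 * δ) := by
    rw [hv, abs_div, abs_mul, abs_of_pos hpi, abs_of_pos (by positivity : 0 < 4 * δ)]
    field_simp
    ring
  calc ‖Bf δ b z‖ ^ N ≤ Real.exp (-(7 / 20 * κ * Real.exp (-(2 * |v|)))) ^ N := by gcongr
    _ = _ := by
      rw [← Real.exp_nat_mul, e3]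
      congr 1
      ring

theorem Bf_diff (hδ : 0 < δ) (hb : |b| < δ) {z : ℂ} (hz : |z.re| ≤ δ) :
    DifferentiableAt ℂ (Bf δ b) z := by
  unfold Bf
  exact DifferentiableAt.div (by fun_prop) (by fun_prop) (cosbz_ne hδ hb hz)

theorem Bf_ne (hδ : 0 < δ) (hb : |b| < δ) {z : ℂ} (hz : |z.re| ≤ δ) (h0 : z ≠ b) :
    Bf δ b z ≠ 0 := by
  have hpi := Real.pi_pos
  intro h
  have h1 := Bf_sq δ b z
  rw [h, norm_zero, zero_pow two_ne_zero] at h1
  have h2 := cosb_pos hδ hb hz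
  have h3 : 0 < Real.cos (Real.pi * (z.re + b) / (4 * δ)) ^ 2 +
      Real.sinh (Real.pi * z.im / (4 * δ)) ^ 2 := by
    positivity
  have h4 : Real.sin (Real.pi * (z.re - b) / (4 * δ)) ^ 2 +
      Real.sinh (Real.pi * z.im / (4 * δ)) ^ 2 = 0 := by
    rw [eq_comm, div_eq_zero_iff] at h1
    rcases h1 with h1 | h1
    · exact h1
    · exact absurd h1 h3.ne'
  have h5 : Real.sinh (Real.pi * z.im / (4 * δ)) = 0 := by
    have := sq_nonneg (Real.sin (Real.pi * (z.re - b) / (4 * δ)))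
    have h6 := sq_nonneg (Real.sinh (Real.pi * z.im / (4 * δ)))
    exact pow_eq_zero_iff (two_ne_zero) |>.1 (by linarith)
  have h6 : Real.sin (Real.pi * (z.re - b) / (4 * δ)) = 0 := by
    have := sq_nonneg (Real.sin (Real.pi * (z.re - b) / (4 * δ)))
    have h6 := sq_nonneg (Real.sinh (Real.pi * z.im / (4 * δ)))
    exact pow_eq_zero_iff (two_ne_zero) |>.1 (by linarith)
  rw [Real.sinh_eq_zero] at h5
  have h7 := abs_lt.1 (ubm_bound hδ hb hz)
  rw [Real.sin_eq_zero_iff_of_lt_of_lt (by linarith [h7.1]) (by linarith [h7.2])] at h6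
  apply h0
  apply Complex.ext
  · rw [div_eq_zero_iff] at h6
    rcases h6 with h6 | h6
    · rw [mul_eq_zero] at h6
      rcases h6 with h6 | h6
      · exact absurd h6 hpi.ne'
      · rw [ofReal_re]; linarith
    · linarith
  · rw [div_eq_zero_iff] at h5
    rcases h5 with h5 | h5
    · rw [mul_eq_zero] at h5
      rcases h5 with h5 | h5
      · exact absurd h5 hpi.ne'
      · rw [ofReal_im]; exact h5
    · linarith

theorem Bf_zero (δ b : ℝ) : Bf δ b b = 0 := by simp [Bf]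

theorem Bf_deriv (hδ : 0 < δ) (hb : |b| < δ) : deriv (Bf δ b) b ≠ 0 := by
  have hpi : (Real.pi : ℂ) ≠ 0 := by exact_mod_cast Real.pi_ne_zero
  have hδ' : (δ : ℂ) ≠ 0 := by exact_mod_cast hδ.ne'
  have h1 : HasDerivAt (fun z : ℂ => (Real.pi * (z - b) / (4 * δ) : ℂ)) (Real.pi / (4 * δ)) b := by
    have := (((hasDerivAt_id (b : ℂ)).sub_const (b : ℂ)).const_mul (Real.pi : ℂ)).div_const (4 * δ)
    simpa using this
  have h1' : HasDerivAt (fun z : ℂ => (Real.pi * (z + b) / (4 * δ) : ℂ)) (Real.pi / (4 * δ)) b := by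
    have := (((hasDerivAt_id (b : ℂ)).add_const (b : ℂ)).const_mul (Real.pi : ℂ)).div_const (4 * δ)
    simpa using this
  have h2 := h1.csin
  have h3 := h1'.ccos
  have hc : Complex.cos (Real.pi * ((b : ℂ) + b) / (4 * δ)) ≠ 0 :=
    cosbz_ne hδ hb (z := b) (by rw [ofReal_re]; exact hb.le)
  have h4 := h2.div h3 hc
  have h5 : deriv (Bf δ b) b = (Real.pi / (4 * δ)) / Complex.cos (Real.pi * ((b : ℂ) + b) / (4 * δ)) := by
    have := h4.deriv
    unfold Bf
    rw [show (fun z : ℂ => Complex.sin (Real.pi * (z - b) / (4 * δ)) /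
        Complex.cos (Real.pi * (z + b) / (4 * δ))) =
      (fun z : ℂ => Complex.sin (Real.pi * (z - b) / (4 * δ))) / (fun z : ℂ =>
        Complex.cos (Real.pi * (z + b) / (4 * δ))) from rfl, this]
    simp only [sub_self, mul_zero, zero_div, Complex.cos_zero, Complex.sin_zero, one_mul, zero_mul,
      sub_zero]
    field_simp
  rw [h5]
  exact div_ne_zero (div_ne_zero hpi (mul_ne_zero (by norm_num) hδ')) hc

/-- **Schwarz lemma on a rectangle, zero of order `n` at the real point `b`** -/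
theorem schwarzR {Y M : ℝ} (hδ : 0 < δ) (hb : |b| < δ) (hY : 0 < Y) {D : ℂ → ℂ}
    (hD : ∀ z ∈ CR δ Y, DifferentiableAt ℂ D z) (hM : ∀ z ∈ CR δ Y, ‖D z‖ ≤ M) {n : ℕ}
    (hn : (n : ℕ∞) ≤ analyticOrderAt D b) {z : ℂ} (hz : z ∈ CR δ Y) :
    ‖D z‖ ≤ M / Real.tanh (Real.pi * Y / (4 * δ)) ^ n * ‖Bf δ b z‖ ^ n := by
  have hpi := Real.pi_pos
  have h00 : (b : ℂ) ∈ CR δ Y := by
    refine ⟨?_, ?_⟩
    · rw [ofReal_re]; exact hb.le
    · rw [ofReal_im, abs_zero]; exact hY.le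
  have hM0 : 0 ≤ M := (norm_nonneg _).trans (hM _ h00)
  have hth : 0 < Real.tanh (Real.pi * Y / (4 * δ)) := by
    rw [Real.tanh_eq_sinh_div_cosh]
    have := Real.sinh_pos_iff.2 (show 0 < Real.pi * Y / (4 * δ) by positivity)
    have := Real.cosh_pos (Real.pi * Y / (4 * δ))
    positivity
  have hth1 : Real.tanh (Real.pi * Y / (4 * δ)) ≤ 1 := (Real.tanh_lt_one _).le
  have hOR0 : (b : ℂ) ∈ OR δ Y := by
    refine ⟨?_, ?_⟩
    · rw [ofReal_re]; exact hb
    · rw [ofReal_im, abs_zero]; exact hY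
  have hOR : OR δ Y ∈ 𝓝 (b : ℂ) := (OR_open δ Y).mem_nhds hOR0
  have hDa : AnalyticAt ℂ D b := by
    have : DifferentiableOn ℂ D (OR δ Y) := fun w hw =>
      (hD w (OR_sub δ Y hw)).differentiableWithinAt
    exact this.analyticAt hOR
  obtain ⟨g, hg, hgD⟩ := (natCast_le_analyticOrderAt hDa).1 hn
  simp only [smul_eq_mul] at hgD
  set T1 := dslope (Bf δ b) b with hT1
  have hTa : DifferentiableOn ℂ (Bf δ b) (OR δ Y) := fun w hw =>
    (Bf_diff hδ hb hw.1.le).differentiableWithinAt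
  have hT1d : DifferentiableAt ℂ T1 b :=
    ((differentiableOn_dslope hOR).2 hTa).differentiableAt hOR
  have hT10 : T1 b ≠ 0 := by
    rw [hT1, dslope_same]
    exact Bf_deriv hδ hb
  have hTm : ∀ w, Bf δ b w = (w - b) * T1 w := by
    intro w
    have h := sub_smul_dslope (Bf δ b) b w
    rw [Bf_zero, sub_zero, smul_eq_mul] at h
    exact h.symm
  set Φ : ℂ → ℂ := fun w => if w = b then g b / T1 b ^ n else D w / Bf δ b w ^ n with hΦ
  have hΦ0 : DifferentiableAt ℂ Φ b := by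
    have h1 : DifferentiableAt ℂ (fun w => g w / T1 w ^ n) b :=
      hg.differentiableAt.div (hT1d.pow n) (pow_ne_zero _ hT10)
    refine h1.congr_of_eventuallyEq ?_
    have h2 : ∀ᶠ w in 𝓝 (b : ℂ), T1 w ≠ 0 := hT1d.continuousAt.eventually_ne hT10
    filter_upwards [hgD, h2] with w hw hw2
    rw [hΦ]
    by_cases h : w = b
    · simp [h]
    · simp only [h, if_false]
      have h3 : w - b ≠ 0 := sub_ne_zero.2 h
      rw [hw, hTm, mul_pow]
      field_simp
  have hΦd : ∀ w ∈ CR δ Y, DifferentiableAt ℂ Φ w := by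
    intro w hw
    by_cases h : w = b
    · rw [h]; exact hΦ0
    · have h1 : DifferentiableAt ℂ (fun w => D w / Bf δ b w ^ n) w :=
        (hD w hw).div ((Bf_diff hδ hb hw.1).pow n) (pow_ne_zero _ (Bf_ne hδ hb hw.1 h))
      refine h1.congr_of_eventuallyEq ?_
      filter_upwards [isOpen_ne.mem_nhds h] with v hv
      rw [hΦ]
      simp only [hv, if_false]
  have hΦc : DiffContOnCl ℂ Φ (OR δ Y) := by
    apply DifferentiableOn.diffContOnCl
    exact fun w hw => (hΦd w (clo_sub δ Y hw)).differentiableWithinAt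
  have hbdd : Bornology.IsBounded (OR δ Y) := by
    rw [isBounded_iff_forall_norm_le]
    refine ⟨δ + Y, fun w hw => ?_⟩
    have := norm_le_abs_re_add_abs_im w
    linarith [hw.1, hw.2]
  have hfr : ∀ w ∈ frontier (OR δ Y), ‖Φ w‖ ≤ M / Real.tanh (Real.pi * Y / (4 * δ)) ^ n := by
    intro w hw
    have h1 : w ∈ CR δ Y := clo_sub δ Y (frontier_subset_closure hw)
    have h2 : w ∉ OR δ Y := by
      rw [(OR_open δ Y).frontier_eq] at hw
      exact hw.2
    have h3 : w ≠ b := by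
      rintro rfl
      exact h2 hOR0
    have h4 : Real.tanh (Real.pi * Y / (4 * δ)) ≤ ‖Bf δ b w‖ := by
      by_cases h5 : |w.re| = δ
      · rw [Bf_side hδ hb h5]
        exact hth1
      · have h6 : |w.re| < δ := lt_of_le_of_ne h1.1 h5
        have h7 : |w.im| = Y := by
          by_contra h
          exact h2 ⟨h6, lt_of_le_of_ne h1.2 h⟩
        apply Bf_low hδ hb h1.1 (by positivity)
        rw [abs_div, abs_mul, abs_of_pos hpi, abs_of_pos (by positivity : 0 < 4 * δ), h7]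
    rw [hΦ]
    simp only [h3, if_false]
    rw [norm_div, norm_pow]
    have h8 := hM w h1
    gcongr
  have hΦz : ‖Φ z‖ ≤ M / Real.tanh (Real.pi * Y / (4 * δ)) ^ n :=
    norm_le_of_forall_mem_frontier_norm_le hbdd hΦc hfr (CR_sub hδ hY hz)
  by_cases h : z = b
  · rw [h, Bf_zero, norm_zero]
    have h1 : D b = (b - b) ^ n * g b := hgD.self_of_nhds
    rw [sub_self] at h1
    rcases Nat.eq_zero_or_pos n with h2 | h2
    · subst h2
      simpa using hM _ h00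
    · rw [h1, zero_pow (by omega), zero_mul, norm_zero, zero_pow (by omega), mul_zero]
  · have h1 : Φ z = D z / Bf δ b z ^ n := by rw [hΦ]; simp only [h, if_false]
    have h2 : D z = Φ z * Bf δ b z ^ n := by
      rw [h1]
      field_simp [Bf_ne hδ hb hz.1 h]
    rw [h2, norm_mul, norm_pow]
    gcongr


/-! ## complex zeros, products -/

/-- the factor of the strip with zero at the complex point `c` -/
def Bc (δ : ℝ) (c z : ℂ) : ℂ := Bf δ c.re (z - c.im * I)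

theorem sh_re (c z : ℂ) : (z - c.im * I).re = z.re := by simp

theorem sh_im (c z : ℂ) : (z - c.im * I).im = z.im - c.im := by simp

/-- the open set on which `Bf δ b` is differentiable -/
def Ob (δ b : ℝ) : Set ℂ := {z | |z.re + b| < 2 * δ}

theorem Ob_open (δ b : ℝ) : IsOpen (Ob δ b) :=
  isOpen_lt ((continuous_re.add continuous_const).abs) continuous_const

theorem Ob_sub (hb : |b| < δ) {z : ℂ} (hz : |z.re| ≤ δ) : z ∈ Ob δ b := by
  have h := abs_add_le z.re b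
  show |z.re + b| < 2 * δ
  linarith

theorem Bf_diffO (hδ : 0 < δ) : DifferentiableOn ℂ (Bf δ b) (Ob δ b) := by
  intro z hz
  have hpi := Real.pi_pos
  have h1 : |Real.pi * (z.re + b) / (4 * δ)| < Real.pi / 2 := by
    rw [abs_div, abs_mul, abs_of_pos hpi, abs_of_pos (by positivity : 0 < 4 * δ),
      div_lt_div_iff₀ (by positivity) (by norm_num)]
    have h1 : |z.re + b| < 2 * δ := hz
    nlinarith
  have h2 : 0 < Real.cos (Real.pi * (z.re + b) / (4 * δ)) := by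
    have h := abs_lt.1 h1
    apply Real.cos_pos_of_mem_Ioo
    constructor <;> linarith [h.1, h.2]
  have h3 : Complex.cos (Real.pi * (z + b) / (4 * δ)) ≠ 0 := by
    intro h
    have h1 := nsq_cos (Real.pi * (z.re + b) / (4 * δ)) (Real.pi * z.im / (4 * δ))
    rw [← arg_eqp, h, norm_zero] at h1
    nlinarith [sq_nonneg (Real.sinh (Real.pi * z.im / (4 * δ))), pow_pos h2 2]
  have h4 : DifferentiableAt ℂ (Bf δ b) z := by
    unfold Bf
    exact DifferentiableAt.div (by fun_prop) (by fun_prop) h3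
  exact h4.differentiableWithinAt

/-- the quotient `Bf / (z - b)` -/
def Rf (δ b : ℝ) (z : ℂ) : ℂ := dslope (Bf δ b) b z

theorem Rf_diff (hδ : 0 < δ) (hb : |b| < δ) {z : ℂ} (hz : |z.re| ≤ δ) :
    DifferentiableAt ℂ (Rf δ b) z := by
  have hb0 : (b : ℂ) ∈ Ob δ b := Ob_sub hb (by rw [ofReal_re]; exact hb.le)
  exact ((differentiableOn_dslope ((Ob_open δ b).mem_nhds hb0)).2 (Bf_diffO hδ)).differentiableAt
    ((Ob_open δ b).mem_nhds (Ob_sub hb hz))

theorem Rf_mul (δ b : ℝ) (z : ℂ) : Bf δ b z = (z - b) * Rf δ b z := by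
  have h := sub_smul_dslope (Bf δ b) b z
  rw [Bf_zero, sub_zero, smul_eq_mul] at h
  exact h.symm

theorem Rf_ne (hδ : 0 < δ) (hb : |b| < δ) {z : ℂ} (hz : |z.re| ≤ δ) : Rf δ b z ≠ 0 := by
  by_cases h : z = b
  · rw [h]
    unfold Rf
    rw [dslope_same]
    exact Bf_deriv hδ hb
  · intro h0
    have h1 := Rf_mul δ b z
    rw [h0, mul_zero] at h1
    exact Bf_ne hδ hb hz h h1

/-- the quotient `Bc / (z - c)` -/
def Rc (δ : ℝ) (c z : ℂ) : ℂ := Rf δ c.re (z - c.im * I)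

theorem Rc_mul (δ : ℝ) (c z : ℂ) : Bc δ c z = (z - c) * Rc δ c z := by
  unfold Bc Rc
  rw [Rf_mul]
  congr 1
  conv_rhs => rw [← re_add_im c]
  ring

theorem Rc_diff (hδ : 0 < δ) {c : ℂ} (hc : |c.re| < δ) {z : ℂ} (hz : |z.re| ≤ δ) :
    DifferentiableAt ℂ (Rc δ c) z := by
  have h := Rf_diff (z := z - c.im * I) hδ hc (by rwa [sh_re])
  exact DifferentiableAt.comp z (g := Rf δ c.re) (f := fun z => z - c.im * I) h (by fun_prop)

theorem Rc_ne (hδ : 0 < δ) {c : ℂ} (hc : |c.re| < δ) {z : ℂ} (hz : |z.re| ≤ δ) : Rc δ c z ≠ 0 :=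
  Rf_ne hδ hc (by rwa [sh_re])

theorem Bc_side (hδ : 0 < δ) {c : ℂ} (hc : |c.re| < δ) {z : ℂ} (hz : |z.re| = δ) :
    ‖Bc δ c z‖ = 1 := Bf_side hδ hc (by rwa [sh_re])

theorem Bc_low (hδ : 0 < δ) {c : ℂ} (hc : |c.re| < δ) {z : ℂ} (hz : |z.re| ≤ δ) {Y y0 : ℝ}
    (hY : y0 ≤ Y) (hci : |c.im| ≤ y0) (hzY : |z.im| = Y) :
    Real.tanh (Real.pi * (Y - y0) / (4 * δ)) ≤ ‖Bc δ c z‖ := by
  have hpi := Real.pi_pos
  have h0 : 0 ≤ Y - y0 := by linarith
  apply Bf_low hδ hc (by rwa [sh_re]) (by positivity)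
  rw [sh_im, abs_div, abs_mul, abs_of_pos hpi, abs_of_pos (by positivity : 0 < 4 * δ)]
  have h1 : Y - y0 ≤ |z.im - c.im| := by
    have := abs_sub_abs_le_abs_sub z.im c.im
    linarith
  gcongr

/-- the bound of one factor inside -/
theorem Bc_le (hδ : 0 < δ) {c : ℂ} {ρ b0 y0 : ℝ} (hρ : ρ < δ) (hb0 : b0 < δ)
    (hc : |c.re| ≤ b0) (hci : |c.im| ≤ y0) {z : ℂ} (hz : |z.re| ≤ ρ) :
    ‖Bc δ c z‖ ≤ Real.exp (-(1 / 2 * (Real.cos (Real.pi * ρ / (2 * δ)) *
      Real.cos (Real.pi * b0 / (2 * δ))) * Real.exp (-(Real.pi * y0 / (2 * δ))) *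
      Real.exp (-(Real.pi * |z.im| / (2 * δ))))) := by
  have hpi := Real.pi_pos
  have hρ0 : 0 ≤ ρ := (abs_nonneg _).trans hz
  have hb00 : 0 ≤ b0 := (abs_nonneg _).trans hc
  have hcδ : |c.re| < δ := lt_of_le_of_lt hc hb0
  set w := z - c.im * I with hw
  have hwre : w.re = z.re := sh_re c z
  have hwim : w.im = z.im - c.im := sh_im c z
  have hwδ : |w.re| ≤ δ := by rw [hwre]; linarith
  have h1 := Bf_sq δ c.re w
  have h2 := cosb_pos hδ hcδ hwδ
  have h4 := diff_id hδ c.re w.re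
  set κ1 := Real.cos (Real.pi * ρ / (2 * δ)) with hκ1
  set κ2 := Real.cos (Real.pi * b0 / (2 * δ)) with hκ2
  have mono : ∀ x r : ℝ, |x| ≤ r → r < δ → Real.cos (Real.pi * r / (2 * δ)) ≤
      Real.cos (Real.pi * x / (2 * δ)) := by
    intro x r hx hr
    have hr0 : 0 ≤ r := (abs_nonneg _).trans hx
    rw [← Real.cos_abs (Real.pi * x / (2 * δ))]
    apply Real.cos_le_cos_of_nonneg_of_le_pi (abs_nonneg _)
    · rw [div_le_iff₀ (by positivity)]
      nlinarith
    · rw [abs_div, abs_mul, abs_of_pos hpi, abs_of_pos (by positivity : 0 < 2 * δ)]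
      gcongr
  have hκ10 : 0 < κ1 := kap_pos hδ (by rw [abs_of_nonneg hρ0]; exact hρ)
  have hκ20 : 0 < κ2 := kap_pos hδ (by rw [abs_of_nonneg hb00]; exact hb0)
  have hx1 : κ1 ≤ Real.cos (Real.pi * w.re / (2 * δ)) := mono _ _ (by rwa [hwre]) hρ
  have hx2 : κ2 ≤ Real.cos (Real.pi * c.re / (2 * δ)) := mono _ _ hc hb0
  set v := Real.pi * w.im / (4 * δ) with hv
  set A := Real.pi * (w.re + c.re) / (4 * δ) with hA
  have hch := Real.cosh_sq v
  set S := Real.sinh v ^ 2 with hS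
  have hS0 : 0 ≤ S := sq_nonneg _
  have h5 : Real.cosh v ^ 2 ≤ Real.exp (2 * |v|) := by
    have h6 : Real.cosh v ≤ Real.exp |v| := by
      rw [← Real.cosh_abs, Real.cosh_eq]
      have h7 : Real.exp (-|v|) ≤ Real.exp |v| := Real.exp_le_exp.2 (by linarith [abs_nonneg v])
      linarith
    calc Real.cosh v ^ 2 ≤ Real.exp |v| ^ 2 := by
          have := Real.cosh_pos v
          gcongr
      _ = _ := by rw [← Real.exp_nat_mul]; norm_num
  have hκ : κ1 * κ2 ≤ Real.cos (Real.pi * w.re / (2 * δ)) * Real.cos (Real.pi * c.re / (2 * δ)) :=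
    mul_le_mul hx1 hx2 hκ20.le (hκ10.le.trans hx1)
  have h6 : ‖Bf δ c.re w‖ ^ 2 ≤ 1 - κ1 * κ2 * Real.exp (-(2 * |v|)) := by
    have e1 : ‖Bf δ c.re w‖ ^ 2 = 1 - (Real.cos (Real.pi * w.re / (2 * δ)) *
        Real.cos (Real.pi * c.re / (2 * δ))) / (Real.cos A ^ 2 + S) := by
      rw [h1, eq_sub_iff_add_eq, ← add_div, div_eq_one_iff_eq (by positivity)]
      linarith
    rw [e1]
    have h7 : Real.cos A ^ 2 + S ≤ Real.exp (2 * |v|) := by
      have := Real.cos_sq_le_one A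
      linarith
    have h8 : κ1 * κ2 * Real.exp (-(2 * |v|)) ≤ (Real.cos (Real.pi * w.re / (2 * δ)) *
        Real.cos (Real.pi * c.re / (2 * δ))) / (Real.cos A ^ 2 + S) := by
      rw [Real.exp_neg, ← div_eq_mul_inv]
      have h9 : 0 < Real.cos A ^ 2 + S := by positivity
      have h10 : 0 ≤ Real.cos (Real.pi * w.re / (2 * δ)) * Real.cos (Real.pi * c.re / (2 * δ)) :=
        le_trans (by positivity) hκ
      gcongr
    linarith
  have h9 : ‖Bf δ c.re w‖ ^ 2 ≤ Real.exp (-(κ1 * κ2 * Real.exp (-(2 * |v|)))) :=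
    h6.trans (by
      have := Real.add_one_le_exp (-(κ1 * κ2 * Real.exp (-(2 * |v|))))
      linarith)
  have h10 : ‖Bf δ c.re w‖ ≤ Real.exp (-(1 / 2 * (κ1 * κ2) * Real.exp (-(2 * |v|)))) := by
    have e2 : Real.exp (-(κ1 * κ2 * Real.exp (-(2 * |v|)))) =
        Real.exp (-(1 / 2 * (κ1 * κ2) * Real.exp (-(2 * |v|)))) ^ 2 := by
      rw [← Real.exp_nat_mul]
      congr 1
      push_cast
      ring
    rw [e2] at h9
    exact (le_abs_self _).trans (abs_le_of_sq_le_sq h9 (Real.exp_pos _).le)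
  refine le_trans (le_of_eq rfl) (h10.trans (Real.exp_le_exp.2 (neg_le_neg ?_)))
  have e3 : 2 * |v| = Real.pi * |z.im - c.im| / (2 * δ) := by
    rw [hv, hwim, abs_div, abs_mul, abs_of_pos hpi, abs_of_pos (by positivity : 0 < 4 * δ)]
    field_simp
    ring
  have e4 : 2 * |v| ≤ Real.pi * y0 / (2 * δ) + Real.pi * |z.im| / (2 * δ) := by
    rw [e3, ← add_div, ← mul_add]
    have : |z.im - c.im| ≤ y0 + |z.im| := by
      have := abs_sub z.im c.im
      linarith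
    gcongr
  calc 1 / 2 * (κ1 * κ2) * Real.exp (-(Real.pi * y0 / (2 * δ))) * Real.exp (-(Real.pi * |z.im| / (2 * δ)))
      = 1 / 2 * (κ1 * κ2) * Real.exp (-(Real.pi * y0 / (2 * δ) + Real.pi * |z.im| / (2 * δ))) := by
        rw [neg_add, Real.exp_add]
        ring
    _ ≤ 1 / 2 * (κ1 * κ2) * Real.exp (-(2 * |v|)) := by
        gcongr

/-- **Schwarz lemma, a product of zeros** -/
theorem schwarzP {ι : Type*} [Fintype ι] {Y M y0 : ℝ} (hδ : 0 < δ) (hy0 : 0 ≤ y0) (hY : y0 < Y)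
    {c : ι → ℂ} (hc : ∀ j, |(c j).re| < δ ∧ |(c j).im| ≤ y0) {D Q : ℂ → ℂ}
    (hQ : ∀ z ∈ CR δ Y, DifferentiableAt ℂ Q z)
    (hDQ : ∀ z ∈ CR δ Y, D z = (∏ j, (z - c j)) * Q z) (hM : ∀ z ∈ CR δ Y, ‖D z‖ ≤ M)
    {z : ℂ} (hz : z ∈ CR δ Y) :
    ‖D z‖ ≤ M / Real.tanh (Real.pi * (Y - y0) / (4 * δ)) ^ Fintype.card ι *
      ∏ j, ‖Bc δ (c j) z‖ := by
  have hpi := Real.pi_pos
  have hY0 : 0 < Y := lt_of_le_of_lt hy0 hY
  have hYy : 0 < Y - y0 := by linarith
  have h00 : (0 : ℂ) ∈ CR δ Y := by simp [CR, hδ.le, hY0.le]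
  have hM0 : 0 ≤ M := (norm_nonneg _).trans (hM _ h00)
  set th := Real.tanh (Real.pi * (Y - y0) / (4 * δ)) with hthd
  have hth : 0 < th := by
    rw [hthd, Real.tanh_eq_sinh_div_cosh]
    have := Real.sinh_pos_iff.2 (show 0 < Real.pi * (Y - y0) / (4 * δ) by positivity)
    have := Real.cosh_pos (Real.pi * (Y - y0) / (4 * δ))
    positivity
  have hth1 : th ≤ 1 := (Real.tanh_lt_one _).le
  set P : ℂ → ℂ := fun w => ∏ j, Rc δ (c j) w with hP
  have hPne : ∀ w ∈ CR δ Y, P w ≠ 0 := fun w hw =>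
    Finset.prod_ne_zero_iff.2 fun j _ => Rc_ne hδ (hc j).1 hw.1
  have hPd : ∀ w ∈ CR δ Y, DifferentiableAt ℂ P w := fun w hw => by
    rw [hP]
    exact DifferentiableAt.fun_finsetProd fun j _ => Rc_diff hδ (hc j).1 hw.1
  have hBP : ∀ w, ∏ j, Bc δ (c j) w = (∏ j, (w - c j)) * P w := fun w => by
    rw [hP, ← Finset.prod_mul_distrib]
    exact Finset.prod_congr rfl fun j _ => Rc_mul δ (c j) w
  set Φ : ℂ → ℂ := fun w => Q w / P w with hΦ
  have hΦd : ∀ w ∈ CR δ Y, DifferentiableAt ℂ Φ w := fun w hw =>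
    (hQ w hw).div (hPd w hw) (hPne w hw)
  have hDΦ : ∀ w ∈ CR δ Y, D w = Φ w * ∏ j, Bc δ (c j) w := fun w hw => by
    rw [hDQ w hw, hBP, hΦ]
    have := hPne w hw
    field_simp
  have hΦc : DiffContOnCl ℂ Φ (OR δ Y) := by
    apply DifferentiableOn.diffContOnCl
    exact fun w hw => (hΦd w (clo_sub δ Y hw)).differentiableWithinAt
  have hbdd : Bornology.IsBounded (OR δ Y) := by
    rw [isBounded_iff_forall_norm_le]
    refine ⟨δ + Y, fun w hw => ?_⟩
    have := norm_le_abs_re_add_abs_im w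
    linarith [hw.1, hw.2]
  have hfr : ∀ w ∈ frontier (OR δ Y), ‖Φ w‖ ≤ M / th ^ Fintype.card ι := by
    intro w hw
    have h1 : w ∈ CR δ Y := clo_sub δ Y (frontier_subset_closure hw)
    have h2 : w ∉ OR δ Y := by
      rw [(OR_open δ Y).frontier_eq] at hw
      exact hw.2
    have h4 : ∀ j, th ≤ ‖Bc δ (c j) w‖ := by
      intro j
      by_cases h5 : |w.re| = δ
      · rw [Bc_side hδ (hc j).1 h5]
        exact hth1
      · have h6 : |w.re| < δ := lt_of_le_of_ne h1.1 h5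
        have h7 : |w.im| = Y := by
          by_contra h
          exact h2 ⟨h6, lt_of_le_of_ne h1.2 h⟩
        exact Bc_low hδ (hc j).1 h1.1 hY.le (hc j).2 h7
    have h5 : th ^ Fintype.card ι ≤ ‖∏ j, Bc δ (c j) w‖ := by
      rw [norm_prod, Fintype.card, ← Finset.prod_const]
      exact Finset.prod_le_prod (fun _ _ => hth.le) fun j _ => h4 j
    have h6 : 0 < th ^ Fintype.card ι := pow_pos hth _
    rw [le_div_iff₀ h6]
    calc ‖Φ w‖ * th ^ Fintype.card ι ≤ ‖Φ w‖ * ‖∏ j, Bc δ (c j) w‖ :=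
          mul_le_mul_of_nonneg_left h5 (norm_nonneg _)
      _ = ‖D w‖ := by rw [hDΦ w h1, norm_mul]
      _ ≤ M := hM w h1
  have hΦz : ‖Φ z‖ ≤ M / th ^ Fintype.card ι :=
    norm_le_of_forall_mem_frontier_norm_le hbdd hΦc hfr (CR_sub hδ hY0 hz)
  rw [hDΦ z hz, norm_mul, norm_prod]
  exact mul_le_mul_of_nonneg_right hΦz (Finset.prod_nonneg fun _ _ => norm_nonneg _)

/-- **many zeros: smallness, explicit** -/
theorem small_zeros {ι : Type*} [Fintype ι] {Y M ρ b0 y0 : ℝ} (hδ : 0 < δ) (hρ : ρ < δ)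
    (hb0 : b0 < δ) (hy0 : 0 ≤ y0) (hY : y0 < Y) {c : ι → ℂ}
    (hc : ∀ j, |(c j).re| ≤ b0 ∧ |(c j).im| ≤ y0) {D Q : ℂ → ℂ}
    (hQ : ∀ z ∈ CR δ Y, DifferentiableAt ℂ Q z)
    (hDQ : ∀ z ∈ CR δ Y, D z = (∏ j, (z - c j)) * Q z) (hM : ∀ z ∈ CR δ Y, ‖D z‖ ≤ M)
    {z : ℂ} (hz : |z.re| ≤ ρ) (hzi : |z.im| ≤ Y) :
    ‖D z‖ ≤ M / Real.tanh (Real.pi * (Y - y0) / (4 * δ)) ^ Fintype.card ι *
      Real.exp (-(1 / 2 * (Real.cos (Real.pi * ρ / (2 * δ)) *
      Real.cos (Real.pi * b0 / (2 * δ))) * Real.exp (-(Real.pi * y0 / (2 * δ))) *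
      Fintype.card ι * Real.exp (-(Real.pi * |z.im| / (2 * δ))))) := by
  have hpi := Real.pi_pos
  have hzc : z ∈ CR δ Y := ⟨hz.trans hρ.le, hzi⟩
  have hY0 : 0 < Y := lt_of_le_of_lt hy0 hY
  have h00 : (0 : ℂ) ∈ CR δ Y := by simp [CR, hδ.le, hY0.le]
  have hM0 : 0 ≤ M := (norm_nonneg _).trans (hM _ h00)
  have h1 := schwarzP hδ hy0 hY (fun j => ⟨lt_of_le_of_lt (hc j).1 hb0, (hc j).2⟩) hQ hDQ hM hzc
  refine h1.trans ?_
  have hYy : 0 < Y - y0 := by linarith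
  have hth : 0 < Real.tanh (Real.pi * (Y - y0) / (4 * δ)) := by
    rw [Real.tanh_eq_sinh_div_cosh]
    have := Real.sinh_pos_iff.2 (show 0 < Real.pi * (Y - y0) / (4 * δ) by positivity)
    have := Real.cosh_pos (Real.pi * (Y - y0) / (4 * δ))
    positivity
  refine mul_le_mul_of_nonneg_left ?_ (by positivity)
  refine (Finset.prod_le_prod (fun _ _ => norm_nonneg _) fun j _ =>
    Bc_le hδ hρ hb0 (hc j).1 (hc j).2 hz).trans ?_
  rw [Finset.prod_const, ← Real.exp_nat_mul]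
  refine le_of_eq ?_
  congr 1
  rw [Finset.card_univ]
  ring

/-- **many zeros: smallness, in powers of `N`** -/
theorem small_N {ρ b0 y0 : ℝ} (C e : ℝ) {ε : ℝ} (hδ : 0 < δ) (hρ0 : 0 ≤ ρ) (hρ : ρ < δ)
    (hb00 : 0 ≤ b0) (hb0 : b0 < δ) (hy0 : 0 ≤ y0) (hε : 0 < ε) (hε1 : ε < 1) :
    ∃ N0 : ℕ, ∀ N ≥ N0, ∀ (ι : Type) [Fintype ι] (c : ι → ℂ) (D Q : ℂ → ℂ),
      N ≤ 2 * Fintype.card ι → Fintype.card ι ≤ 2 * N →
      (∀ j, |(c j).re| ≤ b0 ∧ |(c j).im| ≤ y0) →
      (∀ z ∈ CR δ (2 * δ / Real.pi * Real.log N + y0), DifferentiableAt ℂ Q z) →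
      (∀ z ∈ CR δ (2 * δ / Real.pi * Real.log N + y0), D z = (∏ j, (z - c j)) * Q z) →
      (∀ z ∈ CR δ (2 * δ / Real.pi * Real.log N + y0), ‖D z‖ ≤ (N : ℝ) ^ C) →
      ∀ z : ℂ, |z.re| ≤ ρ → |z.im| ≤ (1 - ε) * (2 * δ / Real.pi * Real.log N) →
        ‖D z‖ ≤ (N : ℝ) ^ (-e) := by
  have hpi := Real.pi_pos
  set κ := 1 / 2 * (Real.cos (Real.pi * ρ / (2 * δ)) *
      Real.cos (Real.pi * b0 / (2 * δ))) * Real.exp (-(Real.pi * y0 / (2 * δ))) with hκ
  have hκ0 : 0 < κ := by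
    have h1 := kap_pos (b := ρ) hδ (by rw [abs_of_nonneg hρ0]; exact hρ)
    have h2 := kap_pos (b := b0) hδ (by rw [abs_of_nonneg hb00]; exact hb0)
    positivity
  have hlog : Tendsto (fun N : ℕ => Real.log N) atTop atTop :=
    Real.tendsto_log_atTop.comp tendsto_natCast_atTop_atTop
  obtain ⟨N0, hN0⟩ := Filter.eventually_atTop.1 ((hlog.eventually_ge_atTop 1).and
    ((hlog.eventually_ge_atTop ((4 * (C + e + 8)) / (κ * ε ^ 2))).and (eventually_ge_atTop 2)))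
  refine ⟨N0, fun N hN ι _ c D Q hn1 hn2 hc hQ hDQ hM z hz hzi => ?_⟩
  obtain ⟨hL1, hL2, hN2⟩ := hN0 N hN
  set L := Real.log N with hL
  have hNpos : (0 : ℝ) < N := by
    have : 0 < N := by omega
    exact_mod_cast this
  have hNe : ∀ x : ℝ, (N : ℝ) ^ x = Real.exp (x * L) := by
    intro x
    rw [Real.rpow_def_of_pos hNpos, mul_comm]
  have hY1 : 0 < 2 * δ / Real.pi * L := by positivity
  have hzY : |z.im| ≤ 2 * δ / Real.pi * L + y0 := by nlinarith
  have h1 := small_zeros hδ hρ hb0 hy0 (by linarith : y0 < 2 * δ / Real.pi * L + y0) hc hQ hDQ hM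
    hz hzY
  refine h1.trans ?_
  have e1 : Real.pi * (2 * δ / Real.pi * L + y0 - y0) / (4 * δ) = L / 2 := by
    field_simp
    ring
  rw [e1, ← hκ]
  have hth : 0 < Real.tanh (L / 2) := by
    rw [Real.tanh_eq_sinh_div_cosh]
    have := Real.sinh_pos_iff.2 (show 0 < L / 2 by positivity)
    have := Real.cosh_pos (L / 2)
    positivity
  have hth1 : Real.tanh (L / 2) ≤ 1 := (Real.tanh_lt_one _).le
  have h3 : 1 / Real.tanh (L / 2) ^ Fintype.card ι ≤ Real.exp 8 := by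
    have h4 := tanh_pow hN2
    have h5 : Real.tanh (L / 2) ^ (2 * N) ≤ Real.tanh (L / 2) ^ Fintype.card ι :=
      pow_le_pow_of_le_one hth.le hth1 hn2
    calc 1 / Real.tanh (L / 2) ^ Fintype.card ι ≤ 1 / Real.tanh (L / 2) ^ (2 * N) := by
          gcongr
      _ = (1 / Real.tanh (L / 2) ^ N) ^ 2 := by rw [mul_comm 2 N, pow_mul]; ring
      _ ≤ Real.exp 4 ^ 2 := by gcongr
      _ = Real.exp 8 := by rw [← Real.exp_nat_mul]; norm_num
  have h5 : Real.exp (ε * L) / 2 ≤ (Fintype.card ι : ℝ) * Real.exp (-(Real.pi * |z.im| / (2 * δ))) := by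
    have h6 : Real.pi * |z.im| / (2 * δ) ≤ (1 - ε) * L := by
      rw [div_le_iff₀ (by positivity)]
      have : Real.pi * |z.im| ≤ Real.pi * ((1 - ε) * (2 * δ / Real.pi * L)) := by gcongr
      calc _ ≤ _ := this
        _ = _ := by field_simp
    have h7 : Real.exp (ε * L) = N * Real.exp (-((1 - ε) * L)) := by
      rw [← Real.exp_log hNpos, ← hL, ← Real.exp_add]
      congr 1
      ring
    have h8 : Real.exp (-((1 - ε) * L)) ≤ Real.exp (-(Real.pi * |z.im| / (2 * δ))) :=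
      Real.exp_le_exp.2 (by linarith)
    have h9 : (N : ℝ) / 2 ≤ Fintype.card ι := by
      have : (N : ℝ) ≤ 2 * Fintype.card ι := by exact_mod_cast hn1
      linarith
    rw [h7]
    calc N * Real.exp (-((1 - ε) * L)) / 2 = N / 2 * Real.exp (-((1 - ε) * L)) := by ring
      _ ≤ _ := by gcongr
  have h6 : (ε * L) ^ 2 / 2 ≤ Real.exp (ε * L) := by
    have := Real.quadratic_le_exp_of_nonneg (show 0 ≤ ε * L by positivity)
    have h3 : 0 ≤ ε * L := by positivity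
    linarith
  have h7 : (C + e + 8) * L ≤ κ * (ε * L) ^ 2 / 4 := by
    rw [div_le_iff₀ (by positivity)] at hL2
    nlinarith
  calc (N : ℝ) ^ C / Real.tanh (L / 2) ^ Fintype.card ι * Real.exp (-(κ * Fintype.card ι *
        Real.exp (-(Real.pi * |z.im| / (2 * δ)))))
      = (N : ℝ) ^ C * (1 / Real.tanh (L / 2) ^ Fintype.card ι) * Real.exp (-(κ * Fintype.card ι *
        Real.exp (-(Real.pi * |z.im| / (2 * δ))))) := by ring
    _ ≤ Real.exp (C * L) * Real.exp 8 * Real.exp (-(κ * (ε * L) ^ 2 / 4)) := by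
        rw [hNe]
        have h8 : κ * (ε * L) ^ 2 / 4 ≤ κ * Fintype.card ι *
            Real.exp (-(Real.pi * |z.im| / (2 * δ))) := by
          calc κ * (ε * L) ^ 2 / 4 = κ * ((ε * L) ^ 2 / 2 / 2) := by ring
            _ ≤ κ * (Fintype.card ι * Real.exp (-(Real.pi * |z.im| / (2 * δ)))) := by
              gcongr
              linarith
            _ = _ := by ring
        gcongr
    _ ≤ Real.exp (-e * L) := by
        rw [← Real.exp_add, ← Real.exp_add]
        apply Real.exp_le_exp.2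
        nlinarith
    _ = _ := by rw [hNe]


theorem tanh_inv_pow {v : ℝ} (hv : 2 ≤ v) (n : ℕ) :
    1 / Real.tanh v ^ n ≤ Real.exp (4 * n * Real.exp (-(2 * v))) := by
  have h1 : Real.exp (-(2 * v)) ≤ 1 / 4 := by
    have h2 : Real.exp (-(2 * v)) ≤ Real.exp (-4) := Real.exp_le_exp.2 (by linarith)
    have h3 : Real.exp (-4) = Real.exp (-1) ^ 4 := by rw [← Real.exp_nat_mul]; norm_num
    have h4 : Real.exp (-1) ≤ 1 / 2 := by
      rw [Real.exp_neg, inv_le_comm₀ (Real.exp_pos 1) (by norm_num)]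
      have := Real.add_one_le_exp (1 : ℝ)
      linarith
    calc Real.exp (-(2 * v)) ≤ Real.exp (-1) ^ 4 := h2.trans h3.le
      _ ≤ (1 / 2) ^ 4 := by
        have := Real.exp_pos (-1)
        gcongr
      _ ≤ 1 / 4 := by norm_num
  set x := Real.exp (-(2 * v)) with hx
  have hx0 : 0 < x := Real.exp_pos _
  have hth : 1 - 2 * x ≤ Real.tanh v := by
    rw [Real.tanh_eq_sinh_div_cosh, Real.sinh_eq, Real.cosh_eq]
    have e1 : (Real.exp v - Real.exp (-v)) / 2 / ((Real.exp v + Real.exp (-v)) / 2) =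
        (1 - x) / (1 + x) := by
      have h5 : Real.exp (-v) = Real.exp v * x := by
        rw [hx, ← Real.exp_add]
        congr 1
        ring
      rw [h5]
      have := Real.exp_pos v
      field_simp
    rw [e1, le_div_iff₀ (by linarith)]
    nlinarith
  have h2 : Real.exp (-(4 * x)) ≤ 1 - 2 * x := by
    have h3 := Real.add_one_le_exp (4 * x)
    rw [Real.exp_neg, inv_le_comm₀ (Real.exp_pos _) (by linarith)]
    refine le_trans ?_ h3
    rw [inv_le_comm₀ (by linarith) (by linarith), inv_eq_one_div, div_le_iff₀ (by linarith)]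
    nlinarith
  have h3 : Real.exp (-(4 * x)) ^ n ≤ Real.tanh v ^ n := by
    have := h2.trans hth
    gcongr
  have h4 : 0 < Real.exp (-(4 * x)) ^ n := by positivity
  calc 1 / Real.tanh v ^ n ≤ 1 / Real.exp (-(4 * x)) ^ n := by gcongr
    _ = _ := by
      rw [← Real.exp_nat_mul, one_div, ← Real.exp_neg]
      congr 1
      ring

set_option maxHeartbeats 1000000 in
/-- **many zeros: smallness, in powers of `N`, any height `x₁ log N`** -/
theorem small_Nx {ρ b0 y0 x1 : ℝ} (C e : ℝ) {ε : ℝ} (hδ : 0 < δ) (hρ0 : 0 ≤ ρ) (hρ : ρ < δ)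
    (hb00 : 0 ≤ b0) (hb0 : b0 < δ) (hy0 : 0 ≤ y0) (hε : 0 < ε) (hε1 : ε < 1) (hx1 : 0 < x1)
    (hx2 : x1 ≤ 2 * δ / Real.pi) :
    ∃ N0 : ℕ, ∀ N ≥ N0, ∀ (ι : Type) [Fintype ι] (c : ι → ℂ) (D Q : ℂ → ℂ),
      N ≤ 2 * Fintype.card ι →
      (∀ j, |(c j).re| ≤ b0 ∧ |(c j).im| ≤ y0) →
      (∀ z ∈ CR δ (x1 * Real.log N + y0), DifferentiableAt ℂ Q z) →
      (∀ z ∈ CR δ (x1 * Real.log N + y0), D z = (∏ j, (z - c j)) * Q z) →
      (∀ z ∈ CR δ (x1 * Real.log N + y0), ‖D z‖ ≤ (N : ℝ) ^ C) →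
      ∀ z : ℂ, |z.re| ≤ ρ → |z.im| ≤ (1 - ε) * (x1 * Real.log N) →
        ‖D z‖ ≤ (N : ℝ) ^ (-e) := by
  have hpi := Real.pi_pos
  set κ := 1 / 2 * (Real.cos (Real.pi * ρ / (2 * δ)) *
      Real.cos (Real.pi * b0 / (2 * δ))) * Real.exp (-(Real.pi * y0 / (2 * δ))) with hκ
  have hκ0 : 0 < κ := by
    have h1 := kap_pos (b := ρ) hδ (by rw [abs_of_nonneg hρ0]; exact hρ)
    have h2 := kap_pos (b := b0) hδ (by rw [abs_of_nonneg hb00]; exact hb0)
    positivity
  set β := Real.pi * x1 / (2 * δ) with hβ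
  have hβ0 : 0 < β := by positivity
  have hβ1 : β ≤ 1 := by
    rw [hβ, div_le_one (by positivity)]
    have h := mul_le_mul_of_nonneg_left hx2 hpi.le
    have e1 : Real.pi * (2 * δ / Real.pi) = 2 * δ := by field_simp
    linarith
  have hlog : Tendsto (fun N : ℕ => Real.log N) atTop atTop :=
    Real.tendsto_log_atTop.comp tendsto_natCast_atTop_atTop
  obtain ⟨N0, hN0⟩ := Filter.eventually_atTop.1 ((hlog.eventually_ge_atTop 1).and
    ((hlog.eventually_ge_atTop ((8 * (|C| + |e| + 1)) / (κ * ε ^ 2))).and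
    ((hlog.eventually_ge_atTop (4 / β)).and
    ((hlog.eventually_ge_atTop (Real.log (8 / κ) / (ε * β))).and (eventually_ge_atTop 2)))))
  refine ⟨N0, fun N hN ι _ c D Q hn1 hc hQ hDQ hM z hz hzi => ?_⟩
  obtain ⟨hL1, hL2, hL3, hL4, hN2⟩ := hN0 N hN
  set L := Real.log N with hL
  have hNpos : (0 : ℝ) < N := by
    have : 0 < N := by omega
    exact_mod_cast this
  have hNe : ∀ x : ℝ, (N : ℝ) ^ x = Real.exp (x * L) := by
    intro x
    rw [Real.rpow_def_of_pos hNpos, mul_comm]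
  have hY1 : 0 < x1 * L := by positivity
  have hzY : |z.im| ≤ x1 * L + y0 := by nlinarith
  have h1 := small_zeros hδ hρ hb0 hy0 (by linarith : y0 < x1 * L + y0) hc hQ hDQ hM hz hzY
  refine h1.trans ?_
  have e1 : Real.pi * (x1 * L + y0 - y0) / (4 * δ) = β * L / 2 := by
    rw [hβ]
    field_simp
    ring
  rw [e1, ← hκ]
  set n := Fintype.card ι with hn
  have hβL : 4 ≤ β * L := by
    rw [div_le_iff₀ hβ0] at hL3
    linarith
  have h3 := tanh_inv_pow (v := β * L / 2) (by linarith) n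
  have e2 : 2 * (β * L / 2) = β * L := by ring
  rw [e2] at h3
  -- the height of the point
  have h6 : Real.pi * |z.im| / (2 * δ) ≤ (1 - ε) * (β * L) := by
    rw [div_le_iff₀ (by positivity)]
    have : Real.pi * |z.im| ≤ Real.pi * ((1 - ε) * (x1 * L)) := by gcongr
    calc _ ≤ _ := this
      _ = _ := by
        rw [hβ]
        field_simp
  have h7 : Real.exp (-((1 - ε) * (β * L))) ≤ Real.exp (-(Real.pi * |z.im| / (2 * δ))) :=
    Real.exp_le_exp.2 (by linarith)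
  have h8 : Real.exp (-(β * L)) * (8 / κ) ≤ Real.exp (-((1 - ε) * (β * L))) := by
    have h9 : Real.log (8 / κ) ≤ ε * (β * L) := by
      rw [div_le_iff₀ (by positivity)] at hL4
      linarith
    have h10 : 8 / κ ≤ Real.exp (ε * (β * L)) := by
      rw [← Real.exp_log (show 0 < 8 / κ by positivity)]
      exact Real.exp_le_exp.2 h9
    calc Real.exp (-(β * L)) * (8 / κ) ≤ Real.exp (-(β * L)) * Real.exp (ε * (β * L)) := by
          gcongr
      _ = _ := by
        rw [← Real.exp_add]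
        congr 1
        ring
  have hn0 : (0 : ℝ) ≤ n := n.cast_nonneg
  have h9 : 4 * n * Real.exp (-(β * L)) ≤ 1 / 2 * (κ * n * Real.exp (-(Real.pi * |z.im| / (2 * δ)))) := by
    have h10 := h8.trans h7
    rw [mul_div_assoc', div_le_iff₀ hκ0] at h10
    nlinarith [mul_le_mul_of_nonneg_left h10 hn0]
  -- the main gain
  have h11 : κ / 4 * Real.exp (ε * L) ≤ 1 / 2 * (κ * n * Real.exp (-(Real.pi * |z.im| / (2 * δ)))) := by
    have h12 : Real.exp (ε * L) ≤ N * Real.exp (-((1 - ε) * (β * L))) := by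
      have e3 : (N : ℝ) = Real.exp L := by rw [hL, Real.exp_log hNpos]
      rw [e3, ← Real.exp_add]
      apply Real.exp_le_exp.2
      have h14 : (1 - ε) * (β * L) ≤ (1 - ε) * (1 * L) := by
        have : 0 ≤ L := by linarith
        have : 0 ≤ 1 - ε := by linarith
        gcongr
      linarith
    have h13 : (N : ℝ) / 2 ≤ n := by
      have : (N : ℝ) ≤ 2 * n := by exact_mod_cast hn1
      linarith
    calc κ / 4 * Real.exp (ε * L) ≤ κ / 4 * (N * Real.exp (-((1 - ε) * (β * L)))) := by gcongr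
      _ = 1 / 2 * (κ * (N / 2) * Real.exp (-((1 - ε) * (β * L)))) := by ring
      _ ≤ _ := by gcongr
  have h14 : (|C| + |e| + 1) * L ≤ κ / 4 * Real.exp (ε * L) := by
    have h15 : (ε * L) ^ 2 / 2 ≤ Real.exp (ε * L) := by
      have := Real.quadratic_le_exp_of_nonneg (show 0 ≤ ε * L by positivity)
      have h3 : 0 ≤ ε * L := by positivity
      linarith
    rw [div_le_iff₀ (by positivity)] at hL2
    have h16 : 8 * (|C| + |e| + 1) * L ≤ L * (κ * ε ^ 2) * L :=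
      mul_le_mul_of_nonneg_right hL2 (by linarith)
    calc (|C| + |e| + 1) * L = (8 * (|C| + |e| + 1) * L) / 8 := by ring
      _ ≤ (L * (κ * ε ^ 2) * L) / 8 := by linarith
      _ = κ / 4 * ((ε * L) ^ 2 / 2) := by ring
      _ ≤ κ / 4 * Real.exp (ε * L) := mul_le_mul_of_nonneg_left h15 (by positivity)
  clear_value κ β
  have hC : C * L ≤ |C| * L := mul_le_mul_of_nonneg_right (le_abs_self C) (by linarith)
  have he : e * L ≤ |e| * L := mul_le_mul_of_nonneg_right (le_abs_self e) (by linarith)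
  have hfin : C * L + (4 * n * Real.exp (-(β * L)) -
      κ * n * Real.exp (-(Real.pi * |z.im| / (2 * δ)))) ≤ -e * L := by
    have h17 := h14.trans h11
    have h18 : (|C| + |e| + 1) * L = |C| * L + |e| * L + L := by ring
    have h19 : -e * L = -(e * L) := by ring
    rw [h18] at h17
    rw [h19]
    linarith only [h17, h9, hC, he, hL1]
  calc (N : ℝ) ^ C / Real.tanh (β * L / 2) ^ n * Real.exp (-(κ * n *
        Real.exp (-(Real.pi * |z.im| / (2 * δ)))))
      = (N : ℝ) ^ C * (1 / Real.tanh (β * L / 2) ^ n) * Real.exp (-(κ * n *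
        Real.exp (-(Real.pi * |z.im| / (2 * δ))))) := by ring
    _ ≤ Real.exp (C * L) * Real.exp (4 * n * Real.exp (-(β * L))) * Real.exp (-(κ * n *
        Real.exp (-(Real.pi * |z.im| / (2 * δ))))) := by
        rw [hNe]
        gcongr
    _ = Real.exp (C * L + (4 * n * Real.exp (-(β * L)) -
        κ * n * Real.exp (-(Real.pi * |z.im| / (2 * δ))))) := by
        rw [← Real.exp_add, ← Real.exp_add]
        congr 1
        ring
    _ ≤ Real.exp (-e * L) := Real.exp_le_exp.2 hfin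
    _ = _ := by rw [hNe]

end PBV
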