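import Pool.Agent.PB.KT
import Pool.Agent.PB.VandR

/-!
# Plan B: the K-terms from the zeros at the rows (helper12; joins helper7's `small_N` and `kt`)

`FD a σ y₀ b₀ C N f`: `f` is differentiable and `≤ N^C` on `|Re z| ≤ a + σ`,
`|Im z| ≤ (2σ/π) log N + y₀`, and `f (z + a) - f (z - a) = (∏ j, (z - c j)) * Q z` on `|Re z| ≤ σ`
(`|Re c_j| ≤ b₀ < σ`, `|Im c_j| ≤ y₀`, between `N/2` and `2N` zeros).
`kc a σ ε N f` = the coefficients (one and the same function of `f` for all `K`).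

* **`kterm`**: `|f z - EL (π/a) K (kc a σ ε N f) z| ≤ N^{-e}` on `|Re z| ≤ a + ρ`,
  `|Im z| ≤ (1-ε)(2σ/π) log N + 1`, for every `K ≥ K₀`, `N ≥ N₀(K)`;
* **`kterm1`**: the rectangle `ReR (a + ρ)` of `Rec` (`ε = 1/2`);
* **`kcoef`**: `|c k| ≤ V (S + N^{-e})` if `|f (i t)| ≤ S` for `t ∈ [0,1]`.
-/

set_option autoImplicit false

noncomputable section

open Complex MeasureTheory Set Filter Topology
open Pool.Agent.PB.Rec (EL EL_coef ReR)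

namespace PBV

/-- the hypotheses -/
structure FD (a σ y₀ b₀ C : ℝ) (N : ℕ) (f : ℂ → ℂ) : Prop where
  df : ∀ z : ℂ, |z.re| ≤ a + σ → |z.im| ≤ 2 * σ / Real.pi * Real.log N + y₀ → DifferentiableAt ℂ f z
  b : ∀ z : ℂ, |z.re| ≤ a + σ → |z.im| ≤ 2 * σ / Real.pi * Real.log N + y₀ → ‖f z‖ ≤ (N : ℝ) ^ C
  zr : ∃ (ι : Type) (_ : Fintype ι) (c : ι → ℂ) (Q : ℂ → ℂ), N ≤ 2 * Fintype.card ι ∧
    Fintype.card ι ≤ 2 * N ∧ (∀ j, |(c j).re| ≤ b₀ ∧ |(c j).im| ≤ y₀) ∧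
    ∀ z : ℂ, |z.re| ≤ σ → |z.im| ≤ 2 * σ / Real.pi * Real.log N + y₀ →
      DifferentiableAt ℂ Q z ∧ f (z + a) - f (z - a) = (∏ j, (z - c j)) * Q z

/-- the height of the horizontal sides -/
def kτ (σ ε : ℝ) (N : ℕ) : ℝ := (1 - ε / 2) * (2 * σ / Real.pi) * Real.log N

/-- the coefficients -/
def kc (a σ ε : ℝ) (N : ℕ) (f : ℂ → ℂ) (k : ℤ) : ℂ := cf a (-a) (kτ σ ε N) f k

/-- **the K-terms** -/
theorem kterm {a σ ρ y₀ b₀ ε : ℝ} (C e : ℝ) (hρ : 0 ≤ ρ) (hρσ : ρ < σ) (hσ : σ < a) (hb : 0 ≤ b₀)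
    (hbσ : b₀ < σ) (hy : 0 ≤ y₀) (hε : 0 < ε) (hε1 : ε < 1) :
    ∃ K0 : ℕ, ∀ K ≥ K0, ∃ N0 : ℕ, ∀ N ≥ N0, ∀ f : ℂ → ℂ, FD a σ y₀ b₀ C N f →
      ∀ z : ℂ, |z.re| ≤ a + ρ → |z.im| ≤ (1 - ε) * (2 * σ / Real.pi * Real.log N) + 1 →
        ‖f z - EL (Real.pi / a) K (kc a σ ε N f) z‖ ≤ (N : ℝ) ^ (-e) := by
  have hpi := Real.pi_pos
  have hσ0 : 0 < σ := by linarith
  have ha : 0 < a := by linarith
  set ρ₁ : ℝ := (ρ + σ) / 2 with hρ₁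
  have h1 : ρ < ρ₁ := by rw [hρ₁]; linarith
  have h2 : ρ₁ < σ := by rw [hρ₁]; linarith
  set x₁ : ℝ := (1 - ε / 2) * (2 * σ / Real.pi) with hx₁
  have hx0 : 0 < x₁ := by
    have : 0 < 1 - ε / 2 := by linarith
    positivity
  obtain ⟨N1, hN1⟩ := small_N (C + 1) (e + 1) (ε := ε / 2) hσ0 (show 0 ≤ ρ₁ by linarith) h2 hb hbσ hy
    (by linarith) (by linarith)
  obtain ⟨K0, hK0⟩ := kt (a := a) (σ := ρ₁) (ρ := ρ) (x₁ := x₁) (ε := ε / 2) C e (e + 1) ha hρ h1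
    (by linarith) hx0 (by linarith) (by linarith)
  refine ⟨K0, fun K hK => ?_⟩
  obtain ⟨N2, hN2⟩ := hK0 K hK
  refine ⟨max (max N1 N2) 2, fun N hN f hf => ?_⟩
  have hN1' : N1 ≤ N := (le_max_left _ _).trans ((le_max_left _ _).trans hN)
  have hN2' : N2 ≤ N := (le_max_right _ _).trans ((le_max_left _ _).trans hN)
  have hN3 : 2 ≤ N := (le_max_right _ _).trans hN
  have hNr : (2 : ℝ) ≤ N := by exact_mod_cast hN3
  have hL0 : 0 ≤ Real.log N := Real.log_nonneg (by linarith)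
  set Y := 2 * σ / Real.pi * Real.log N with hY
  have hY0 : 0 ≤ Y := by positivity
  have hτ : x₁ * Real.log N = (1 - ε / 2) * Y := by rw [hx₁, hY]; ring
  have hτY : x₁ * Real.log N ≤ Y + y₀ := by
    rw [hτ]
    nlinarith
  obtain ⟨ι, hι, c, Q, hc1, hc2, hc3, hc4⟩ := hf.zr
  have hD : ∀ z : ℂ, |z.re| ≤ σ → |z.im| ≤ Y + y₀ → ‖f (z + a) - f (z - a)‖ ≤ (N : ℝ) ^ (C + 1) := by
    intro z hz hzi
    have e1 := hf.b (z + a) (by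
      simp only [add_re, ofReal_re]
      exact (abs_add_le _ _).trans (by rw [abs_of_pos ha]; linarith)) (by simpa using hzi)
    have e2 := hf.b (z - a) (by
      simp only [sub_re, ofReal_re]
      exact (abs_sub _ _).trans (by rw [abs_of_pos ha]; linarith)) (by simpa using hzi)
    have e3 : (N : ℝ) ^ (C + 1) = (N : ℝ) ^ C * N := by
      rw [Real.rpow_add (by linarith), Real.rpow_one]
    have e4 : 0 ≤ (N : ℝ) ^ C := by positivity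
    rw [e3]
    refine (norm_sub_le _ _).trans ?_
    nlinarith
  have hsd : SD a ρ₁ (x₁ * Real.log N) ((N : ℝ) ^ C) ((N : ℝ) ^ (-(e + 1))) f := by
    refine ⟨?_, ?_, ?_⟩
    · intro z hz hzi
      exact hf.df z (by linarith) (hzi.trans hτY)
    · intro z hz hzi
      exact hf.b z (by linarith) (hzi.le.trans hτY)
    · intro z hz hzi
      refine hN1 N hN1' ι c (fun z => f (z + a) - f (z - a)) Q hc1 hc2 hc3 ?_ ?_ ?_ z hz ?_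
      · exact fun w hw => (hc4 w hw.1 hw.2).1
      · exact fun w hw => (hc4 w hw.1 hw.2).2
      · exact fun w hw => hD w hw.1 hw.2
      · rw [← hτ]
        exact hzi
  intro z hz hzi
  refine hN2 N hN2' f hsd z hz ?_
  refine hzi.trans ?_
  rw [hτ]
  have : (1 - ε) * Y ≤ (1 - ε / 2) * ((1 - ε / 2) * Y) := by
    have : (1 - ε) ≤ (1 - ε / 2) * (1 - ε / 2) := by nlinarith [sq_nonneg ε]
    nlinarith
  linarith

/-- the rectangle of `Rec` -/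
theorem kterm1 {a σ ρ y₀ b₀ : ℝ} (C e : ℝ) (hρ : 0 ≤ ρ) (hρσ : ρ < σ) (hσ : σ < a) (hb : 0 ≤ b₀)
    (hbσ : b₀ < σ) (hy : 0 ≤ y₀) :
    ∃ K0 : ℕ, ∀ K ≥ K0, ∃ N0 : ℕ, ∀ N ≥ N0, ∀ f : ℂ → ℂ, FD a σ y₀ b₀ C N f →
      ∀ z ∈ ReR (a + ρ), ‖f z - EL (Real.pi / a) K (kc a σ (1 / 2) N f) z‖ ≤ (N : ℝ) ^ (-e) := by
  have hpi := Real.pi_pos
  obtain ⟨K0, hK0⟩ := kterm (ε := 1 / 2) (a := a) (σ := σ) (ρ := ρ) C e hρ hρσ hσ hb hbσ hy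
    (by norm_num) (by norm_num)
  refine ⟨K0, fun K hK => ?_⟩
  obtain ⟨N0, hN0⟩ := hK0 K hK
  refine ⟨max N0 1, fun N hN f hf z hz => hN0 N ((le_max_left _ _).trans hN) f hf z hz.1 ?_⟩
  have h1 : (1 : ℝ) ≤ N := by exact_mod_cast (le_max_right _ _).trans hN
  have h2 : 0 ≤ Real.log N := Real.log_nonneg h1
  have h3 : 0 < σ := by linarith
  have h4 : 0 ≤ (1 - 1 / 2 : ℝ) * (2 * σ / Real.pi * Real.log N) := by
    have : (0 : ℝ) ≤ 1 - 1 / 2 := by norm_num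
    positivity
  have := hz.2
  linarith

/-- **the K-terms and the coefficients**, one statement for `Rec` / `Rec2` -/
theorem kterm2 {a σ ρ y₀ b₀ : ℝ} (C e : ℝ) (hρ : 0 ≤ ρ) (hρσ : ρ < σ) (hσ : σ < a) (hb : 0 ≤ b₀)
    (hbσ : b₀ < σ) (hy : 0 ≤ y₀) :
    ∃ K0 : ℕ, ∀ K ≥ K0, ∃ V : ℝ, 0 < V ∧ ∃ N0 : ℕ, ∀ N ≥ N0, ∀ f : ℂ → ℂ, FD a σ y₀ b₀ C N f →
      (∀ z ∈ ReR (a + ρ), ‖f z - EL (Real.pi / a) K (kc a σ (1 / 2) N f) z‖ ≤ (N : ℝ) ^ (-e)) ∧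
      ∀ S : ℝ, (∀ t ∈ Icc (0 : ℝ) 1, ‖f (I * t)‖ ≤ S) →
        ∀ k ∈ Finset.Icc (-(K : ℤ)) K, ‖kc a σ (1 / 2) N f k‖ ≤ V * (S + (N : ℝ) ^ (-e)) := by
  have ha : 0 < a := by linarith
  obtain ⟨K0, hK0⟩ := kterm1 (a := a) (σ := σ) (ρ := ρ) C e hρ hρσ hσ hb hbσ hy
  refine ⟨K0, fun K hK => ?_⟩
  obtain ⟨N0, hN0⟩ := hK0 K hK
  obtain ⟨V, hV0, hV⟩ := cf_le1 ha K
  refine ⟨V, hV0, N0, fun N hN f hf => ⟨hN0 N hN f hf, fun S hS k hk => ?_⟩⟩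
  refine hV f (kc a σ (1 / 2) N f) S _ hS (fun t ht => ?_) k hk
  refine hN0 N hN f hf _ ⟨?_, ?_⟩
  · simpa using (show 0 ≤ a + ρ by linarith)
  · simp only [mul_im, I_re, ofReal_im, mul_zero, I_im, ofReal_re, one_mul, zero_add]
    rw [abs_of_nonneg ht.1]
    exact ht.2

end PBV
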