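import Pool.Agent.PB.VInst
import Pool.Agent.PB.CovW
import Pool.Agent.PB.EPrOf

/-!
# Plan B: `(E')` from the Ward identities at the true field (helper72)

`w` a weight on a measure space, `V` the statistic of a test function in the plus channel, `Vm` in the
minus channel, `S` the step.

* `Lev2.mono`, `Lev2m.mono`;
* `LevD` : the data of level two for one `(rows, legs)`: second moments, the second Ward identity `WPl` of every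
  neutral test function, `WMi` of every test function and of the step; `LevD.lev2`, `LevD.lev2m`, ...
* **`E2_of`** : families over `j` (number of rows at `0`), `s` (height of the moved row), `t` (height of the
  legs): `LevD` + first Ward identity `hI` + leg derivatives + sizes `=> PBV.E2 c Psi` (helper12's form).
-/

set_option autoImplicit false

open MeasureTheory Set Filter Topology Complex

noncomputable section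

namespace PBE

variable {y₁ y₂ a : ℝ}

theorem Lev2.mono {f : ℂ} {G1 m : (ℂ → ℂ) → ℂ} {G2 C : (ℂ → ℂ) → (ℂ → ℂ) → ℂ} {δ δ' : ℝ}
    (h : Lev2 y₁ y₂ a f G1 G2 m C δ) (h1 : y₁ < 0) (h2 : 0 < y₂) (hδ : δ ≤ δ') :
    Lev2 y₁ y₂ a f G1 G2 m C δ' where
  mean M g hg hz := (h.mean M g hg hz).trans (mul_le_mul_of_nonneg_left hδ (hg.nonneg h1 h2))
  cov M M' g k hg hz hk := (h.cov M M' g k hg hz hk).trans
    (mul_le_mul_of_nonneg_left hδ (mul_nonneg (hg.nonneg h1 h2) (hk.nonneg h1 h2)))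

theorem Lev2m.mono {f Hss Css : ℂ} {Hs Cs : (ℂ → ℂ) → ℂ} {H2 C : (ℂ → ℂ) → (ℂ → ℂ) → ℂ} {δ δ' : ℝ}
    (h : Lev2m y₁ y₂ a f H2 Hs Hss C Cs Css δ) (h1 : y₁ < 0) (h2 : 0 < y₂) (hδ : δ ≤ δ') :
    Lev2m y₁ y₂ a f H2 Hs Hss C Cs Css δ' where
  cov M M' g k hg hk := (h.cov M M' g k hg hk).trans
    (mul_le_mul_of_nonneg_left hδ (mul_nonneg (hg.nonneg h1 h2) (hk.nonneg h1 h2)))
  covs M g hg := (h.covs M g hg).trans (mul_le_mul_of_nonneg_left hδ (hg.nonneg h1 h2))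
  covss := h.covss.trans hδ

end PBE

namespace PBEM

open PBE PBFunc PBEI PBV
open Pool.Agent.PB (rl MeanDat VDat mV CV CmV CsV CssV)

/-- **level two data** for one value of the rows and the legs; `ap`, `am`, `bc` the representation of
the field kernels (`Apl`, `Ami`, `Bch`) -/
structure LevD {Ω : Type*} [MeasurableSpace Ω] (y₁ y₂ a : ℝ) (μ : Measure Ω) (w : Ω → ℂ)
    (V Vm : (ℂ → ℂ) → Ω → ℂ) (S : Ω → ℂ) (K th δp : ℝ) (mf : ℝ → ℂ) (s' : ℝ → ℂ)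
    {T : Type*} [MeasurableSpace T] (σ : Measure T) (ap am bc : T → ℂ → ℂ) : Prop where
  hw : AEStronglyMeasurable w μ
  K0 : 0 ≤ K
  th0 : 0 ≤ th
  dp0 : 0 ≤ δp
  one : M2 μ w K (fun _ => 1) 1
  lin : VLin y₁ y₂ a V
  msV : ∀ M h, TC y₁ y₂ a M h → AEStronglyMeasurable (V h) μ
  v2 : ∀ M h, TC y₁ y₂ a M h → M2 μ w K (V h) M
  msVm : ∀ M h, TC y₁ y₂ a M h → AEStronglyMeasurable (Vm h) μ
  v2m : ∀ M h, TC y₁ y₂ a M h → M2 μ w K (Vm h) M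
  msS : AEStronglyMeasurable S μ
  s2 : M2 μ w K S 1
  wp : ∀ M g, TC y₁ y₂ a M g → mass g = 0 → ∃ (D : (ℂ → ℂ) → Ω → ℂ) (Q P : Ω → ℂ),
    WPl y₁ y₂ a μ w K th δp M V g (mV mf g) (CV g) D Q P
  wm : ∀ M g, TC y₁ y₂ a M g → ∃ (D : (ℂ → ℂ) → Ω → ℂ) (Ds Q P : Ω → ℂ),
    WMi y₁ y₂ a μ w K th δp M Vm S (Vm g) (CmV g) (CsV s' g) D Ds Q P
  ws : ∃ (C : (ℂ → ℂ) → ℂ) (D : (ℂ → ℂ) → Ω → ℂ) (Ds Q P : Ω → ℂ),
    WMi y₁ y₂ a μ w K th δp 1 Vm S S C (CssV s') D Ds Q P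
  jA : AEStronglyMeasurable (fun p : Ω × T => V (ap p.2) p.1) (μ.prod σ)
  jB : AEStronglyMeasurable (fun p : Ω × T => V (bc p.2) p.1) (μ.prod σ)
  jA' : AEStronglyMeasurable (fun p : Ω × T => Vm (am p.2) p.1) (μ.prod σ)
  jB' : AEStronglyMeasurable (fun p : Ω × T => Vm (bc p.2) p.1) (μ.prod σ)

namespace LevD

variable {Ω : Type*} [MeasurableSpace Ω] {y₁ y₂ a : ℝ} {μ : Measure Ω} {w : Ω → ℂ}
    {V Vm : (ℂ → ℂ) → Ω → ℂ} {S : Ω → ℂ} {K th δp : ℝ} {mf : ℝ → ℂ} {s' : ℝ → ℂ}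
    {T : Type*} [MeasurableSpace T] {σ : Measure T} {ap am bc : T → ℂ → ℂ}

theorem lev2 (h : LevD y₁ y₂ a μ w V Vm S K th δp mf s' σ ap am bc) (h1 : y₁ < 0) (h2 : 0 < y₂) :
    Lev2 y₁ y₂ a (F μ w (fun _ => 1)) (fun g => F μ w (V g))
      (fun g k => F μ w (fun ω => V g ω * V k ω)) (Pool.Agent.PB.mV mf) CV (2 * K * th + δp) :=
  lev2_of h1 h2 h.hw h.K0 h.th0 h.dp0 h.one h.msV h.v2 h.wp

theorem lev2m (h : LevD y₁ y₂ a μ w V Vm S K th δp mf s' σ ap am bc) (h1 : y₁ < 0) (h2 : 0 < y₂) :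
    Lev2m y₁ y₂ a (F μ w (fun _ => 1)) (fun g k => F μ w (fun ω => Vm g ω * Vm k ω))
      (fun g => F μ w (fun ω => Vm g ω * S ω)) (F μ w (fun ω => S ω * S ω)) CmV (CsV s') (CssV s')
      (2 * K * th + δp) := by
  obtain ⟨C, hC⟩ := h.ws
  exact lev2m_of h1 h2 h.hw h.K0 h.th0 h.dp0 h.one h.msVm h.v2m h.msS h.s2 h.wm hC

theorem lin1 (h : LevD y₁ y₂ a μ w V Vm S K th δp mf s' σ ap am bc) (h1 : y₁ < 0) (h2 : 0 < y₂) :
    Lin1 y₁ y₂ a (fun g => F μ w (V g)) := lin1_of h1 h2 h.hw h.K0 h.one h.lin h.msV h.v2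

theorem lin2 (h : LevD y₁ y₂ a μ w V Vm S K th δp mf s' σ ap am bc) (h1 : y₁ < 0) (h2 : 0 < y₂) :
    Lin2 y₁ y₂ a (fun g k => F μ w (fun ω => V g ω * V k ω)) := lin2_of h1 h2 h.hw h.K0 h.lin h.msV h.v2

theorem iG [SFinite μ] [SFinite σ] (h : LevD y₁ y₂ a μ w V Vm S K th δp mf s' σ ap am bc) (h1 : y₁ < 0)
    (h2 : 0 < y₂) {al be : T → ℝ} (hR : Rep y₁ y₂ a σ ap bc al be) :
    Integrable (fun q => F μ w (fun ω => V (ap q) ω * V (bc q) ω)) σ :=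
  (F_sup hR h1 h2 h.hw h.K0 h.msV h.v2 h.jA h.jB).1

theorem iH [SFinite μ] [SFinite σ] (h : LevD y₁ y₂ a μ w V Vm S K th δp mf s' σ ap am bc) (h1 : y₁ < 0)
    (h2 : 0 < y₂) {al be : T → ℝ} (hR : Rep y₁ y₂ a σ am bc al be) :
    Integrable (fun q => F μ w (fun ω => Vm (am q) ω * Vm (bc q) ω)) σ :=
  (F_sup hR h1 h2 h.hw h.K0 h.msVm h.v2m h.jA' h.jB').1

end LevD

lemma y1_neg : y1 < 0 := by
  have := NUMF.l_pos
  unfold y1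
  linarith

lemma y2_pos : 0 < y2 := by
  have := NUMF.l_pos
  unfold y2
  linarith

/-- **(E')**, families -/
theorem E2_of {a' : ℝ} (ha : 1 / 2 ≤ a') (ha2 : a' < 2) {c B C : ℝ} {Psi : ℕ → ℂ → ℂ → ℂ}
    {Ω : ℕ → Type*} [∀ j, MeasurableSpace (Ω j)] {μ : ∀ j, Measure (Ω j)} [∀ j, SFinite (μ j)]
    {w : ∀ j, ℝ → ℝ → Ω j → ℂ} {V Vm : ∀ j, ℝ → ℝ → (ℂ → ℂ) → Ω j → ℂ} {S : ∀ j, ℝ → ℝ → Ω j → ℂ}
    {K th δp δ0 δ1 : ℕ → ℝ} {mf mf' D0 : ℝ → ℝ → ℂ} {mp mm : ℝ → ℂ}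
    (hm : ∀ t ∈ Icc (0 : ℝ) 1, MeanDat (mf t) (mf' t) (D0 t) (rl (h0T t)) B (mp t) (mm t))
    (hL : ∀ᶠ j : ℕ in atTop, ∀ s ∈ Icc (0 : ℝ) 1, ∀ t ∈ Icc (0 : ℝ) 1,
      LevD y1 y2 a' (μ j) (w j s t) (V j s t) (Vm j s t) (S j s t) (K j) (th j) (δp j) (mf t) PBEI.sg' wm
        (Apl (rowS j s) 0) (Ami (rowS j s) 0) Bch)
    (hD : ∀ᶠ j : ℕ in atTop, ∀ s ∈ Icc (0 : ℝ) 1, ∀ t ∈ Icc (0 : ℝ) 1, ∃ D : ℂ,
      HasDerivAt (fun s : ℝ => Psi j (I * t) (I * s)) D s ∧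
      ‖((j + 1 : ℝ) : ℂ) * D -
        ((∫ q, F (μ j) (w j s t) (fun ω => V j s t (Apl (rowS j s) 0 q) ω * V j s t (Bch q) ω) ∂wm) +
        ((∫ q, F (μ j) (w j s t) (fun ω => Vm j s t (Ami (rowS j s) 0 q) ω * Vm j s t (Bch q) ω) ∂wm) +
          2 * F (μ j) (w j s t) (fun ω => Vm j s t (uF (rowS j s) 0) ω * S j s t ω) -
          ((PBV.rP j s : ℂ) - (PBV.rM j s : ℂ)) / 2 * F (μ j) (w j s t) (fun ω => S j s t ω * S j s t ω)) +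
        F (μ j) (w j s t) (V j s t (qF (rowS j s) 0 t)))‖ ≤ δ0 j)
    (hτ : ∀ᶠ j : ℕ in atTop, ∀ s ∈ Icc (0 : ℝ) 1, ∀ t ∈ Icc (0 : ℝ) 1,
      ‖F (μ j) (w j s t) (V j s t (h0T t)) + I * deriv (fun z => Psi j z (I * s)) (I * t)‖ ≤ δ1 j ∧
      ‖F (μ j) (w j s t) (fun ω => V j s t (h0T t) ω * V j s t (h0T t) ω) +
        F (μ j) (w j s t) (V j s t (g2T t)) - -deriv (deriv fun z => Psi j z (I * s)) (I * t)‖ ≤ δ1 j)
    (hsz : ∀ᶠ j : ℕ in atTop, δ0 j ≤ C * (j : ℝ) ^ (-c) ∧ 2 * K j * th j ≤ C * (j : ℝ) ^ (-c) ∧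
      δp j ≤ C * (j : ℝ) ^ (-c) ∧ 0 ≤ δ1 j ∧ δ1 j ≤ C * (j : ℝ) ^ (-c)) : PBV.E2 c Psi := by
  obtain ⟨K0, hK0, hE⟩ := E_inst ha ha2 B
  obtain ⟨C1, CC, -, -, hV⟩ := vinst (a := (a' + 2) / 2) ha (by linarith) (by linarith)
  refine ⟨C + K0 * (3 * C), ?_⟩
  filter_upwards [hL, hD, hτ, hsz] with j h1 h2 h3 h4 s hs t ht
  have hs1 : |s| ≤ 1 := abs_le.2 ⟨by linarith [hs.1], hs.2⟩
  have ht1 : |t| ≤ 1 := abs_le.2 ⟨by linarith [ht.1], ht.2⟩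
  obtain ⟨D, hD1, hD2⟩ := h2 s hs t ht
  obtain ⟨e1, e2⟩ := h3 s hs t ht
  obtain ⟨z0, z1, z2, z3, z4⟩ := h4
  have L := h1 s hs t ht
  refine ⟨D, hD1, ?_⟩
  obtain ⟨dv, -⟩ := hV j s t hs1 ht1 (mf t) (mf' t) (D0 t) B (mp t) (mm t) (hm t ht) (max CC B)
    (le_max_left _ _) (le_max_right _ _)
  have hy1 := y1_neg
  have hy2 := y2_pos
  have hKt : 0 ≤ 2 * K j * th j := by
    have := L.K0
    have := L.th0
    positivity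
  have hδ : 2 * K j * th j + δp j ≤ 2 * K j * th j + δp j + δ1 j := by linarith
  have hδ1 : δ1 j ≤ 2 * K j * th j + δp j + δ1 j := by linarith [L.dp0]
  have hδ0 : 0 ≤ 2 * K j * th j + δp j + δ1 j := by linarith
  have key := hE j s t hs1 ht1 (mf t) (mf' t) (D0 t) (mp t) (mm t) (hm t ht)
    (F (μ j) (w j s t) (fun _ => 1)) (((j + 1 : ℝ) : ℂ) * D)
    (I * deriv (fun z => Psi j z (I * s)) (I * t)) (-deriv (deriv fun z => Psi j z (I * s)) (I * t))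
    _ _ _ _ _ (2 * K j * th j + δp j + δ1 j) (δ0 j) hδ0
    ((L.lev2 hy1 hy2).mono hy1 hy2 hδ) ((L.lev2m hy1 hy2).mono hy1 hy2 hδ) (L.lin1 hy1 hy2)
    (L.lin2 hy1 hy2) (L.iG hy1 hy2 dv.hR) (L.iH hy1 hy2 dv.hR') hD2 (e1.trans hδ1) (e2.trans hδ1)
  have e3 : ((PBV.rP j s - PBV.rM j s) / 8 : ℝ) = (PBV.rP j s - PBV.rM j s) / 8 := rfl
  refine le_trans (le_of_eq ?_) (key.trans ?_)
  · congr 1
    unfold PBV.rP PBV.rM
    push_cast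
    ring
  · have : K0 * (2 * K j * th j + δp j + δ1 j) ≤ K0 * (3 * C * (j : ℝ) ^ (-c)) :=
      mul_le_mul_of_nonneg_left (by linarith) hK0.le
    linarith

end PBEM

end
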