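import Pool.Agent.NUDi.Sq

/-!
# Moments of linear and quadratic statistics from exponential squares

* `mom_sq`: total mass at most `U` and `∫ exp (c F²) ≤ U e^Λ` give `∫ F^(2 k) ≤ k! (2 (Λ + 1) / c)^k U`;
* `mom_sum`: weighted sums;
* `mom_prod`: products of several factors;
* `mom_nu`, `mom_nu2`: all moments of linear statistics with a test function in `KC1` and of
  quadratic statistics with a kernel in `KC`;
* `SqW.mom`: the modes of a weight with `SqW` and total mass at most `U` on the window.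
-/

set_option autoImplicit false

open Complex Finset Filter MeasureTheory
open scoped Topology ENNReal

namespace PBQ

open NUKer NUR2 NUDi

noncomputable section

variable {Ω : Type*} [MeasurableSpace Ω] {μ : Measure Ω}

lemma pow_le_exp {y : ℝ} (hy : 0 ≤ y) (k : ℕ) : y ^ k ≤ 2 ^ k * k.factorial * Real.exp (y / 2) := by
  have h1 := Real.pow_div_factorial_le_exp (y / 2) (by positivity) k
  have h2 : (0 : ℝ) < k.factorial := by positivity
  rw [div_pow, div_div, div_le_iff₀ (by positivity)] at h1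
  calc y ^ k ≤ Real.exp (y / 2) * (2 ^ k * k.factorial) := h1
    _ = _ := by ring

lemma pow_le_exp2 {y Λ : ℝ} (hy : 0 ≤ y) (hΛ : 0 ≤ Λ) (k : ℕ) :
    y ^ k ≤ (2 * Λ) ^ k + 2 ^ k * k.factorial * (Real.exp (-Λ) * Real.exp y) := by
  rcases le_total y (2 * Λ) with h | h
  · have h1 : y ^ k ≤ (2 * Λ) ^ k := pow_le_pow_left₀ hy h k
    have h2 : 0 ≤ 2 ^ k * (k.factorial : ℝ) * (Real.exp (-Λ) * Real.exp y) := by positivity
    linarith
  · have h1 := pow_le_exp hy k
    have h2 : Real.exp (y / 2) ≤ Real.exp (-Λ) * Real.exp y := by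
      rw [← Real.exp_add]
      exact Real.exp_le_exp.2 (by linarith)
    have h3 : 2 ^ k * (k.factorial : ℝ) * Real.exp (y / 2) ≤
        2 ^ k * (k.factorial : ℝ) * (Real.exp (-Λ) * Real.exp y) := by gcongr
    have h4 : 0 ≤ (2 * Λ) ^ k := by positivity
    linarith

/-- **moments from an exponential square** -/
theorem mom_sq {F : Ω → ℝ} {U : ℝ≥0∞} {c Λ : ℝ} (hc : 0 < c) (hΛ : 0 ≤ Λ)
    (h0 : μ Set.univ ≤ U)
    (h1 : ∫⁻ x, ENNReal.ofReal (Real.exp (c * F x ^ 2)) ∂μ ≤ U * ENNReal.ofReal (Real.exp Λ))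
    (k : ℕ) : ∫⁻ x, ENNReal.ofReal ((F x ^ 2) ^ k) ∂μ ≤
      U * ENNReal.ofReal ((k.factorial : ℝ) * (2 * (Λ + 1) / c) ^ k) := by
  rcases Nat.eq_zero_or_pos k with rfl | hk
  · simpa using h0
  have hpt : ∀ x, ENNReal.ofReal ((F x ^ 2) ^ k) ≤ ENNReal.ofReal ((2 * Λ / c) ^ k) +
      ENNReal.ofReal ((2 / c) ^ k * k.factorial * Real.exp (-Λ)) *
        ENNReal.ofReal (Real.exp (c * F x ^ 2)) := by
    intro x
    rw [← ENNReal.ofReal_mul (by positivity), ← ENNReal.ofReal_add (by positivity) (by positivity)]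
    refine ENNReal.ofReal_le_ofReal ?_
    have h2 := pow_le_exp2 (y := c * F x ^ 2) (by positivity) hΛ k
    have h3 : (F x ^ 2) ^ k = (c * F x ^ 2) ^ k / c ^ k := by
      rw [mul_pow]
      field_simp
    rw [h3, div_le_iff₀ (by positivity)]
    refine h2.trans (le_of_eq ?_)
    rw [div_pow, div_pow]
    field_simp
  have hm : Measurable fun _ : Ω => ENNReal.ofReal ((2 * Λ / c) ^ k) := measurable_const
  calc ∫⁻ x, ENNReal.ofReal ((F x ^ 2) ^ k) ∂μ ≤
      ∫⁻ x, (ENNReal.ofReal ((2 * Λ / c) ^ k) +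
      ENNReal.ofReal ((2 / c) ^ k * k.factorial * Real.exp (-Λ)) *
        ENNReal.ofReal (Real.exp (c * F x ^ 2))) ∂μ := lintegral_mono hpt
    _ = ENNReal.ofReal ((2 * Λ / c) ^ k) * μ Set.univ +
        ENNReal.ofReal ((2 / c) ^ k * k.factorial * Real.exp (-Λ)) *
        ∫⁻ x, ENNReal.ofReal (Real.exp (c * F x ^ 2)) ∂μ := by
        rw [lintegral_add_left hm, lintegral_const, lintegral_const_mul' _ _ ENNReal.ofReal_ne_top]
    _ ≤ ENNReal.ofReal ((2 * Λ / c) ^ k) * U +
        ENNReal.ofReal ((2 / c) ^ k * k.factorial * Real.exp (-Λ)) *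
        (U * ENNReal.ofReal (Real.exp Λ)) := by gcongr
    _ = U * (ENNReal.ofReal ((2 * Λ / c) ^ k) + ENNReal.ofReal ((2 / c) ^ k * k.factorial *
        Real.exp (-Λ)) * ENNReal.ofReal (Real.exp Λ)) := by ring
    _ = U * ENNReal.ofReal ((2 * Λ / c) ^ k + (2 / c) ^ k * k.factorial) := by
        rw [← ENNReal.ofReal_mul (by positivity), ← ENNReal.ofReal_add (by positivity)
          (by positivity), mul_assoc ((2 / c) ^ k * (k.factorial : ℝ)), ← Real.exp_add,
          neg_add_cancel, Real.exp_zero, mul_one]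
    _ ≤ _ := by
        gcongr
        have e1 : (2 * Λ / c) ^ k = (2 / c) ^ k * Λ ^ k := by rw [← mul_pow]; congr 1; ring
        have e2 : (2 * (Λ + 1) / c) ^ k = (2 / c) ^ k * (Λ + 1) ^ k := by
          rw [← mul_pow]; congr 1; ring
        rw [e1, e2]
        have h4 : Λ ^ k + 1 ≤ (Λ + 1) ^ k := by
          have := pow_add_pow_le hΛ zero_le_one hk.ne'
          rwa [one_pow] at this
        have h5 : (1 : ℝ) ≤ k.factorial := by exact_mod_cast Nat.one_le_iff_ne_zero.2 (Nat.factorial_ne_zero k)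
        have h6 : 0 ≤ (2 / c) ^ k := by positivity
        have h7 : 0 ≤ Λ ^ k := by positivity
        have h8 : Λ ^ k + k.factorial ≤ k.factorial * (Λ + 1) ^ k := by nlinarith
        calc (2 / c) ^ k * Λ ^ k + (2 / c) ^ k * (k.factorial : ℝ) =
            (2 / c) ^ k * (Λ ^ k + k.factorial) := by ring
          _ ≤ (2 / c) ^ k * (k.factorial * (Λ + 1) ^ k) := by gcongr
          _ = _ := by ring

/-- **weighted sums** -/
theorem mom_sum {ι : Type*} (s : Finset ι) {c β : ι → ℝ} {F : ι → Ω → ℝ} {n : ℕ} (hn : n ≠ 0)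
    {M : ℝ≥0∞} (hc : ∀ i ∈ s, 0 ≤ c i) (hβ : ∀ i ∈ s, 0 < β i) (hF0 : ∀ i ∈ s, ∀ x, 0 ≤ F i x)
    (hm : ∀ i ∈ s, Measurable (F i))
    (hF : ∀ i ∈ s, ∫⁻ x, ENNReal.ofReal (F i x ^ n) ∂μ ≤ M * ENNReal.ofReal (β i ^ n)) {Λ : ℝ}
    (hΛ : ∑ i ∈ s, c i * β i ≤ Λ) :
    ∫⁻ x, ENNReal.ofReal ((∑ i ∈ s, c i * F i x) ^ n) ∂μ ≤ M * ENNReal.ofReal (Λ ^ n) := by
  obtain ⟨S, hS⟩ : ∃ S, S = ∑ i ∈ s, c i * β i := ⟨_, rfl⟩
  have hS0 : 0 ≤ S := by
    rw [hS]
    exact sum_nonneg fun i hi => mul_nonneg (hc i hi) (hβ i hi).le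
  rcases hS0.eq_or_lt with h0 | h0
  · have hz : ∀ i ∈ s, c i = 0 := by
      intro i hi
      have h1 : ∑ i ∈ s, c i * β i = 0 := by rw [← hS, ← h0]
      have h2 := (sum_eq_zero_iff_of_nonneg fun i hi => mul_nonneg (hc i hi) (hβ i hi).le).1 h1 i hi
      rcases mul_eq_zero.1 h2 with h3 | h3
      · exact h3
      · exact absurd h3 (hβ i hi).ne'
    have : ∀ x, ENNReal.ofReal ((∑ i ∈ s, c i * F i x) ^ n) = 0 := fun x => by
      rw [sum_eq_zero fun i hi => by rw [hz i hi, zero_mul], zero_pow hn, ENNReal.ofReal_zero]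
    simp_rw [this]
    simp
  · have hpt : ∀ x, ENNReal.ofReal ((∑ i ∈ s, c i * F i x) ^ n) ≤
        ∑ i ∈ s, ENNReal.ofReal (S ^ n * (c i * β i / S) / β i ^ n) *
          ENNReal.ofReal (F i x ^ n) := by
      intro x
      have h1 := Real.pow_arith_mean_le_arith_mean_pow s (fun i => c i * β i / S)
        (fun i => F i x / β i) (fun i hi => by
          have := hc i hi
          have := (hβ i hi).le
          positivity) (by rw [← sum_div, ← hS, div_self h0.ne'])
        (fun i hi => div_nonneg (hF0 i hi x) (hβ i hi).le) n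
      have e1 : ∑ i ∈ s, c i * F i x = S * ∑ i ∈ s, c i * β i / S * (F i x / β i) := by
        rw [mul_sum]
        refine sum_congr rfl fun i hi => ?_
        have := (hβ i hi).ne'
        field_simp
      have e2 : ∀ i ∈ s, ENNReal.ofReal (S ^ n * (c i * β i / S) / β i ^ n) *
          ENNReal.ofReal (F i x ^ n) = ENNReal.ofReal (S ^ n * (c i * β i / S *
            (F i x / β i) ^ n)) := by
        intro i hi
        have := hc i hi
        have hb := hβ i hi
        rw [← ENNReal.ofReal_mul (by positivity)]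
        congr 1
        rw [div_pow]
        ring
      rw [sum_congr rfl e2, ← ENNReal.ofReal_sum_of_nonneg fun i hi => by
        have := hc i hi
        have := hβ i hi
        have := hF0 i hi x
        positivity]
      refine ENNReal.ofReal_le_ofReal ?_
      rw [e1, mul_pow, ← mul_sum]
      exact mul_le_mul_of_nonneg_left h1 (by positivity)
    refine (lintegral_mono hpt).trans ?_
    rw [lintegral_finsetSum _ fun i hi => ((hm i hi).pow_const n).ennreal_ofReal.const_mul _]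
    calc ∑ i ∈ s, ∫⁻ x, ENNReal.ofReal (S ^ n * (c i * β i / S) / β i ^ n) *
          ENNReal.ofReal (F i x ^ n) ∂μ ≤
        ∑ i ∈ s, ENNReal.ofReal (S ^ n * (c i * β i / S) / β i ^ n) *
          (M * ENNReal.ofReal (β i ^ n)) := by
          refine sum_le_sum fun i hi => ?_
          rw [lintegral_const_mul' _ _ ENNReal.ofReal_ne_top]
          gcongr
          exact hF i hi
      _ = ∑ i ∈ s, M * ENNReal.ofReal (S ^ n * (c i * β i / S)) := by
          refine sum_congr rfl fun i hi => ?_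
          have := hc i hi
          have hb := hβ i hi
          rw [mul_left_comm, ← ENNReal.ofReal_mul (by positivity)]
          congr 2
          field_simp
      _ = M * ENNReal.ofReal (S ^ n) := by
          rw [← mul_sum, ← ENNReal.ofReal_sum_of_nonneg fun i hi => by
            have := hc i hi
            have := hβ i hi
            positivity, ← mul_sum, ← sum_div, ← hS, div_self h0.ne', mul_one]
      _ ≤ _ := by
          rw [← hS] at hΛ
          gcongr

lemma prod_le_amgm {n : ℕ} (hn : n ≠ 0) {z : Fin n → ℝ} (hz : ∀ i, 0 ≤ z i) :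
    ∏ i, z i ≤ (1 / n : ℝ) * ∑ i, z i ^ n := by
  have hn0 : (n : ℝ) ≠ 0 := by exact_mod_cast hn
  have h1 := Real.geom_mean_le_arith_mean_weighted (univ : Finset (Fin n)) (fun _ => (1 / n : ℝ))
    (fun i => z i ^ n) (fun _ _ => by positivity) (by simp [hn0]) (fun i _ => pow_nonneg (hz i) n)
  have h2 : ∀ i, (z i ^ n) ^ (1 / n : ℝ) = z i := fun i => by
    rw [one_div]
    exact Real.pow_rpow_inv_natCast (hz i) hn
  simp_rw [h2] at h1
  rwa [← mul_sum] at h1

/-- **products** -/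
theorem mom_prod {n : ℕ} (hn : n ≠ 0) {F : Fin n → Ω → ℝ} {v : Fin n → ℝ} {U : ℝ≥0∞}
    (hv : ∀ i, 0 < v i) (hF0 : ∀ i x, 0 ≤ F i x) (hm : ∀ i, Measurable (F i))
    (hF : ∀ i, ∫⁻ x, ENNReal.ofReal (F i x ^ n) ∂μ ≤ U * ENNReal.ofReal (v i ^ n)) :
    ∫⁻ x, ENNReal.ofReal (∏ i, F i x) ∂μ ≤ U * ENNReal.ofReal (∏ i, v i) := by
  have hn0 : (0 : ℝ) < n := by exact_mod_cast Nat.pos_of_ne_zero hn
  have hp : 0 < ∏ i, v i := prod_pos fun i _ => hv i
  have hpt : ∀ x, ENNReal.ofReal (∏ i, F i x) ≤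
      ∑ i, ENNReal.ofReal ((∏ j, v j) * (1 / n) / v i ^ n) * ENNReal.ofReal (F i x ^ n) := by
    intro x
    have h1 := prod_le_amgm hn (z := fun i => F i x / v i) fun i => div_nonneg (hF0 i x) (hv i).le
    have e2 : ∀ i, ENNReal.ofReal ((∏ j, v j) * (1 / n) / v i ^ n) * ENNReal.ofReal (F i x ^ n) =
        ENNReal.ofReal ((∏ j, v j) * (1 / n) * (F i x / v i) ^ n) := by
      intro i
      have := hv i
      rw [← ENNReal.ofReal_mul (by positivity)]
      congr 1
      rw [div_pow]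
      ring
    rw [sum_congr rfl fun i _ => e2 i, ← ENNReal.ofReal_sum_of_nonneg fun i _ => by
      have := hv i
      have := hF0 i x
      positivity]
    refine ENNReal.ofReal_le_ofReal ?_
    rw [← mul_sum, prod_div_distrib, div_le_iff₀ hp] at *
    calc ∏ i, F i x ≤ 1 / n * (∑ i, (F i x / v i) ^ n) * ∏ i, v i := h1
      _ = _ := by ring
  refine (lintegral_mono hpt).trans ?_
  rw [lintegral_finsetSum _ fun i _ => ((hm i).pow_const n).ennreal_ofReal.const_mul _]
  calc ∑ i, ∫⁻ x, ENNReal.ofReal ((∏ j, v j) * (1 / n) / v i ^ n) *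
        ENNReal.ofReal (F i x ^ n) ∂μ ≤
      ∑ i, ENNReal.ofReal ((∏ j, v j) * (1 / n) / v i ^ n) * (U * ENNReal.ofReal (v i ^ n)) := by
        refine sum_le_sum fun i _ => ?_
        rw [lintegral_const_mul' _ _ ENNReal.ofReal_ne_top]
        gcongr
        exact hF i
    _ = ∑ _i : Fin n, U * ENNReal.ofReal ((∏ j, v j) * (1 / n)) := by
        refine sum_congr rfl fun i _ => ?_
        have := hv i
        rw [mul_left_comm, ← ENNReal.ofReal_mul (by positivity)]
        congr 2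
        field_simp
    _ = _ := by
        rw [← mul_sum, ← ENNReal.ofReal_sum_of_nonneg fun i _ => by positivity]
        congr 2
        rw [sum_const, card_univ, Fintype.card_fin, nsmul_eq_mul]
        field_simp

/-! ### statistics with a test function or a kernel -/

/-- all moments of the modes -/
structure ModeM {n : ℕ} (μ : Measure Ω) (R : ℝ) (ρ : ℝ → ℝ) (s : Ω → Fin n → ℝ) (U : ℝ≥0∞)
    (v : ℝ) : Prop where
  cos : ∀ (a : ℝ) (k : ℕ), ∫⁻ x, ENNReal.ofReal (((nu R ρ (s x) fun t => Real.cos (a * t)) ^ 2) ^ k) ∂μ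
    ≤ U * ENNReal.ofReal ((k.factorial : ℝ) * (v * (1 + |a|)) ^ k)
  sin : ∀ (a : ℝ) (k : ℕ), ∫⁻ x, ENNReal.ofReal (((nu R ρ (s x) fun t => Real.sin (a * t)) ^ 2) ^ k) ∂μ
    ≤ U * ENNReal.ofReal ((k.factorial : ℝ) * (v * (1 + |a|)) ^ k)

theorem ModeM.mass {n : ℕ} {R : ℝ} {ρ : ℝ → ℝ} {s : Ω → Fin n → ℝ} {U : ℝ≥0∞} {v : ℝ}
    (h : ModeM μ R ρ s U v) : μ Set.univ ≤ U := by
  have h1 := h.cos 0 0
  simpa using h1

/-- **quadratic statistics** -/
theorem mom_nu2 {n n' : ℕ} {R Λ v : ℝ} {ρ ρ' : ℝ → ℝ} {s : Ω → Fin n → ℝ} {s' : Ω → Fin n' → ℝ}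
    (hs : Measurable s) (hs' : Measurable s') (hR : 0 ≤ R) (hsR : ∀ x i, |s x i| ≤ R)
    (hsR' : ∀ x i, |s' x i| ≤ R) (hρ : Continuous ρ) (hρ' : Continuous ρ') {κ : ℝ → ℝ → ℝ}
    (hK : KC R Λ (fun t t' => (κ t t' : ℂ))) {U : ℝ≥0∞} (hU : U ≠ ∞) (hv : 0 < v)
    (h : ModeM μ R ρ s U v) (h' : ModeM μ R ρ' s' U v) {k : ℕ} (hk : k ≠ 0) :
    ∫⁻ x, ENNReal.ofReal (|nu2 R ρ ρ' (s x) (s' x) κ| ^ k) ∂μ ≤
      U * ENNReal.ofReal ((k.factorial : ℝ) * (2 * v * Λ) ^ k) := by
  obtain ⟨T, hT⟩ : ∃ T : ℝ, T = tv (Fin n) R ρ * tv (Fin n') R ρ' := ⟨_, rfl⟩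
  have htv : ∀ (m : ℕ) (r : ℝ → ℝ), 0 ≤ tv (Fin m) R r := fun m r => by
    unfold tv
    have : 0 ≤ ∫ t in (-R)..R, |r t| :=
      intervalIntegral.integral_nonneg (by linarith) fun t _ => abs_nonneg _
    positivity
  have hT0 : 0 ≤ T := by
    rw [hT]
    exact mul_nonneg (htv _ _) (htv _ _)
  have hΛ0 := hK.nonneg
  -- for every precision
  have hone : ∀ ε : ℝ, 0 < ε → ∫⁻ x, ENNReal.ofReal (|nu2 R ρ ρ' (s x) (s' x) κ| ^ k) ∂μ ≤
      (U * ENNReal.ofReal (k.factorial : ℝ)) * ENNReal.ofReal ((2 * v * Λ + T * ε) ^ k) := by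
    intro ε hε
    obtain ⟨ι, hι, c, a, b, h1, h2⟩ := (hK.clamp hR).2 ε hε
    have hcont := (hK.clamp hR).1
    have hpt : ∀ x, |nu2 R ρ ρ' (s x) (s' x) κ| ≤
        (∑ i, ‖c i‖ / 2 * ((nu R ρ (s x) fun t => Real.cos (a i * t)) ^ 2 +
          (nu R ρ (s x) fun t => Real.sin (a i * t)) ^ 2 +
          (nu R ρ' (s' x) fun t => Real.cos (b i * t)) ^ 2 +
          (nu R ρ' (s' x) fun t => Real.sin (b i * t)) ^ 2)) + T * ε := by
      intro x
      have c1 : Continuous fun q : ℝ × ℝ => ∑ i,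
          (c i * cexp (((a i * q.1 + b i * q.2 : ℝ) : ℂ) * I)).re := by fun_prop
      have h3 := nu2_sub (R := R) (s := s x) (s' := s' x) hρ hρ'
        (κ := fun t t' => κ (cl R t) (cl R t')) hcont (κ' := fun t t' => ∑ i,
          (c i * cexp (((a i * t + b i * t' : ℝ) : ℂ) * I)).re) c1
      have h4 := abs_nu2_le (s := s x) (s' := s' x) hR hρ hρ'
        (hsR x) (hsR' x) (κ := fun t t' => κ (cl R t) (cl R t') - ∑ i,
          (c i * cexp (((a i * t + b i * t' : ℝ) : ℂ) * I)).re) (C := ε) (by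
        intro t t' ht ht'
        have h5 := h2 t t' ht ht'
        have h6 := Complex.abs_re_le_norm ((κ (cl R t) (cl R t') : ℂ) -
          ∑ i, c i * cexp (((a i * t + b i * t' : ℝ) : ℂ) * I))
        rw [Complex.sub_re, Complex.ofReal_re, Complex.re_sum] at h6
        exact h6.trans h5)
      have h7 := nu2_sum (R := R) (s := s x) (s' := s' x) hρ hρ'
        (univ : Finset ι) (κ := fun i t t' =>
          (c i * cexp (((a i * t + b i * t' : ℝ) : ℂ) * I)).re)
        (fun i _ => by fun_prop)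
      have h8 : nu2 R ρ ρ' (s x) (s' x) κ =
          nu2 R ρ ρ' (s x) (s' x) (fun t t' => κ (cl R t) (cl R t')) :=
        nu2_congr hR (hsR x) (hsR' x) fun t t' ht ht' => by rw [cl_eq ht, cl_eq ht']
      have h9 : |nu2 R ρ ρ' (s x) (s' x) (fun t t' => ∑ i,
          (c i * cexp (((a i * t + b i * t' : ℝ) : ℂ) * I)).re)| ≤
          ∑ i, ‖c i‖ / 2 * ((nu R ρ (s x) fun t => Real.cos (a i * t)) ^ 2 +
          (nu R ρ (s x) fun t => Real.sin (a i * t)) ^ 2 +
          (nu R ρ' (s' x) fun t => Real.cos (b i * t)) ^ 2 +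
          (nu R ρ' (s' x) fun t => Real.sin (b i * t)) ^ 2) := by
        rw [h7]
        refine (abs_sum_le_sum_abs _ _).trans (sum_le_sum fun i _ => ?_)
        refine (NUKer.abs_nu2_exp hρ hρ' (c i) (a i) (b i)).trans (le_of_eq ?_)
        ring
      rw [h8]
      rw [h3] at h4
      have h10 := abs_le.1 h4
      have h11 := abs_le.1 h9
      have e : T * ε = tv (Fin n) R ρ * (tv (Fin n') R ρ' * ε) := by rw [hT]; ring
      rw [abs_le, e]
      constructor <;> linarith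
    -- as a weighted sum indexed by `Option (ι × Fin 4)`
    obtain ⟨G, hG⟩ : ∃ G : Option (ι × Fin 4) → Ω → ℝ, G = fun o x => o.elim 1 fun q =>
      (![(nu R ρ (s x) fun t => Real.cos (a q.1 * t)) ^ 2,
        (nu R ρ (s x) fun t => Real.sin (a q.1 * t)) ^ 2,
        (nu R ρ' (s' x) fun t => Real.cos (b q.1 * t)) ^ 2,
        (nu R ρ' (s' x) fun t => Real.sin (b q.1 * t)) ^ 2] : Fin 4 → ℝ) q.2 := ⟨_, rfl⟩
    obtain ⟨C, hC⟩ : ∃ C : Option (ι × Fin 4) → ℝ, C = fun o => o.elim (T * ε) fun q =>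
      ‖c q.1‖ / 2 := ⟨_, rfl⟩
    obtain ⟨β, hβ⟩ : ∃ β : Option (ι × Fin 4) → ℝ, β = fun o => o.elim 1 fun q =>
      (![v * (1 + |a q.1|), v * (1 + |a q.1|), v * (1 + |b q.1|), v * (1 + |b q.1|)] :
        Fin 4 → ℝ) q.2 := ⟨_, rfl⟩
    have hsum : ∀ x, ∑ o, C o * G o x = (∑ i, ‖c i‖ / 2 * ((nu R ρ (s x) fun t =>
          Real.cos (a i * t)) ^ 2 +
          (nu R ρ (s x) fun t => Real.sin (a i * t)) ^ 2 +
          (nu R ρ' (s' x) fun t => Real.cos (b i * t)) ^ 2 +
          (nu R ρ' (s' x) fun t => Real.sin (b i * t)) ^ 2)) + T * ε := by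
      intro x
      rw [Fintype.sum_option, Fintype.sum_prod_type, hC, hG]
      simp only [Option.elim_none, Option.elim_some, mul_one]
      rw [add_comm]
      congr 1
      refine sum_congr rfl fun i _ => ?_
      rw [Fin.sum_univ_four]
      simp only [Matrix.cons_val_zero, Matrix.cons_val_one, Matrix.cons_val]
      ring
    have hCβ : ∑ o, C o * β o ≤ 2 * v * Λ + T * ε := by
      rw [Fintype.sum_option, Fintype.sum_prod_type, hC, hβ]
      simp only [Option.elim_none, Option.elim_some, mul_one]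
      have e1 : ∑ i, ∑ j : Fin 4, ‖c i‖ / 2 * (![v * (1 + |a i|), v * (1 + |a i|), v * (1 + |b i|),
          v * (1 + |b i|)] : Fin 4 → ℝ) j = v * ∑ i, ‖c i‖ * ((1 + |a i|) + (1 + |b i|)) := by
        rw [mul_sum]
        refine sum_congr rfl fun i _ => ?_
        rw [Fin.sum_univ_four]
        simp only [Matrix.cons_val_zero, Matrix.cons_val_one, Matrix.cons_val]
        ring
      rw [e1]
      have e2 : ∑ i, ‖c i‖ * ((1 + |a i|) + (1 + |b i|)) ≤ 2 * Λ := by
        calc ∑ i, ‖c i‖ * ((1 + |a i|) + (1 + |b i|)) ≤ ∑ i, 2 * (‖c i‖ * (1 + |a i| + |b i|)) := by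
              refine sum_le_sum fun i _ => ?_
              have h3 := norm_nonneg (c i)
              have h4 := abs_nonneg (a i)
              have h5 := abs_nonneg (b i)
              nlinarith [mul_nonneg h3 h4, mul_nonneg h3 h5]
          _ ≤ 2 * Λ := by rw [← mul_sum]; linarith
      have := mul_le_mul_of_nonneg_left e2 hv.le
      linarith
    have hm : ∀ o, Measurable (G o) := by
      intro o
      rcases o with _ | ⟨i, j⟩
      · rw [hG]
        exact measurable_const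
      · rw [hG]
        simp only [Option.elim_some]
        fin_cases j
        · exact (measurable_nu hs (by fun_prop)).pow_const 2
        · exact (measurable_nu hs (by fun_prop)).pow_const 2
        · exact (measurable_nu hs' (by fun_prop)).pow_const 2
        · exact (measurable_nu hs' (by fun_prop)).pow_const 2
    have hk1 : (1 : ℝ) ≤ k.factorial := by
      exact_mod_cast Nat.one_le_iff_ne_zero.2 (Nat.factorial_ne_zero k)
    have hfac : ∀ y : ℝ, 0 ≤ y → U * ENNReal.ofReal ((k.factorial : ℝ) * y) =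
        (U * ENNReal.ofReal (k.factorial : ℝ)) * ENNReal.ofReal y := fun y hy => by
      rw [ENNReal.ofReal_mul (by positivity), mul_assoc]
    have hmom := mom_sum (μ := μ) (univ : Finset (Option (ι × Fin 4))) (c := C) (β := β) (F := G)
      (n := k) hk (M := U * ENNReal.ofReal (k.factorial : ℝ)) (fun o _ => by
        rcases o with _ | q
        · rw [hC]
          exact mul_nonneg hT0 hε.le
        · rw [hC]
          exact div_nonneg (norm_nonneg _) two_pos.le) (fun o _ => by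
        rcases o with _ | ⟨i, j⟩
        · rw [hβ]
          exact one_pos
        · rw [hβ]
          have h3 : 0 < v * (1 + |a i|) := by positivity
          have h4 : 0 < v * (1 + |b i|) := by positivity
          simp only [Option.elim_some]
          fin_cases j
          · exact h3
          · exact h3
          · exact h4
          · exact h4) (fun o _ x => by
        rcases o with _ | ⟨i, j⟩
        · rw [hG]
          exact zero_le_one
        · rw [hG]
          simp only [Option.elim_some]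
          fin_cases j
          · exact sq_nonneg _
          · exact sq_nonneg _
          · exact sq_nonneg _
          · exact sq_nonneg _) (fun o _ => hm o) (fun o _ => by
        rcases o with _ | ⟨i, j⟩
        · rw [hG, hβ]
          simp only [Option.elim_none, one_pow, ENNReal.ofReal_one, lintegral_const, one_mul, mul_one]
          calc μ Set.univ ≤ U * 1 := by rw [mul_one]; exact h.mass
            _ ≤ _ := by
              gcongr
              rw [← ENNReal.ofReal_one]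
              exact ENNReal.ofReal_le_ofReal hk1
        · rw [hG, hβ]
          simp only [Option.elim_some]
          fin_cases j
          · refine (h.cos (a i) k).trans (le_of_eq (hfac _ (by positivity)))
          · refine (h.sin (a i) k).trans (le_of_eq (hfac _ (by positivity)))
          · refine (h'.cos (b i) k).trans (le_of_eq (hfac _ (by positivity)))
          · refine (h'.sin (b i) k).trans (le_of_eq (hfac _ (by positivity)))) hCβ
    refine (lintegral_mono fun x => ENNReal.ofReal_le_ofReal ?_).trans hmom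
    rw [hsum x]
    exact pow_le_pow_left₀ (abs_nonneg _) (hpt x) k
  -- the limit
  have hk0 : (0 : ℝ) ≤ k.factorial := by positivity
  have e : U * ENNReal.ofReal ((k.factorial : ℝ) * (2 * v * Λ) ^ k) =
      (U * ENNReal.ofReal (k.factorial : ℝ)) * ENNReal.ofReal ((2 * v * Λ) ^ k) := by
    rw [ENNReal.ofReal_mul hk0, mul_assoc U]
  rw [e]
  have hlim : Tendsto (fun ε : ℝ => (U * ENNReal.ofReal (k.factorial : ℝ)) *
      ENNReal.ofReal ((2 * v * Λ + T * ε) ^ k)) (𝓝[>] 0)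
      (𝓝 ((U * ENNReal.ofReal (k.factorial : ℝ)) * ENNReal.ofReal ((2 * v * Λ) ^ k))) := by
    refine ENNReal.Tendsto.const_mul ?_ (Or.inr (ENNReal.mul_ne_top hU ENNReal.ofReal_ne_top))
    refine (ENNReal.continuous_ofReal.tendsto _).comp ?_
    have hc : Continuous fun ε : ℝ => (2 * v * Λ + T * ε) ^ k := by fun_prop
    have h3 := hc.tendsto 0
    simp only [mul_zero, add_zero] at h3
    exact h3.mono_left nhdsWithin_le_nhds
  exact ge_of_tendsto hlim (eventually_nhdsWithin_of_forall fun ε hε => hone ε hε)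

/-- **linear statistics** -/
theorem mom_nu {n : ℕ} {R Λ v : ℝ} {ρ : ℝ → ℝ} {s : Ω → Fin n → ℝ} (hs : Measurable s)
    (hR : 0 ≤ R) (hsR : ∀ x i, |s x i| ≤ R) (hρ : Continuous ρ) {f : ℝ → ℝ} (hf : Continuous f)
    (hK : KC1 R Λ (fun t => (f t : ℂ))) {U : ℝ≥0∞} (hU : U ≠ ∞) (hv : 1 ≤ v)
    (h : ModeM μ R ρ s U v) {k : ℕ} (hk : k ≠ 0) :
    ∫⁻ x, ENNReal.ofReal (|nu R ρ (s x) f| ^ (2 * k)) ∂μ ≤
      U * ENNReal.ofReal ((k.factorial : ℝ) * (4 * v * Λ ^ 2) ^ k) := by
  obtain ⟨T, hT⟩ : ∃ T : ℝ, T = tv (Fin n) R ρ := ⟨_, rfl⟩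
  have hT0 : 0 ≤ T := by
    rw [hT]
    unfold tv
    have : 0 ≤ ∫ t in (-R)..R, |ρ t| :=
      intervalIntegral.integral_nonneg (by linarith) fun t _ => abs_nonneg _
    positivity
  have hv0 : 0 < v := by linarith
  have hk1 : (1 : ℝ) ≤ k.factorial := by
    exact_mod_cast Nat.one_le_iff_ne_zero.2 (Nat.factorial_ne_zero k)
  obtain ⟨M, hM⟩ : ∃ M : ℝ, M = (k.factorial : ℝ) * v ^ k := ⟨_, rfl⟩
  have hM1 : 1 ≤ M := by
    rw [hM]
    have := one_le_pow₀ (n := k) hv
    nlinarith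
  have hone : ∀ ε : ℝ, 0 < ε → ∫⁻ x, ENNReal.ofReal (|nu R ρ (s x) f| ^ (2 * k)) ∂μ ≤
      (U * ENNReal.ofReal M) * ENNReal.ofReal ((2 * Λ + T * ε) ^ (2 * k)) := by
    intro ε hε
    obtain ⟨ι, hι, c, a, h1, h2⟩ := hK ε hε
    have hpt : ∀ x, |nu R ρ (s x) f| ≤ (∑ i, ‖c i‖ * (|nu R ρ (s x) fun t => Real.cos (a i * t)| +
          |nu R ρ (s x) fun t => Real.sin (a i * t)|)) + T * ε := by
      intro x
      have c1 : Continuous fun t : ℝ => ∑ i, (c i * cexp (((a i * t : ℝ) : ℂ) * I)).re := by fun_prop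
      have h3 := nu_sub (R := R) (s := s x) hρ hf c1
      have h4 := abs_nu_le (s := s x) hR hρ (hsR x) (f := fun t => f t - ∑ i,
          (c i * cexp (((a i * t : ℝ) : ℂ) * I)).re) (C := ε) (by
        intro t ht
        have h5 := h2 t ht
        have h6 := Complex.abs_re_le_norm ((f t : ℂ) - ∑ i, c i * cexp (((a i * t : ℝ) : ℂ) * I))
        rw [Complex.sub_re, Complex.ofReal_re, Complex.re_sum] at h6
        exact h6.trans h5)
      have h7 := nu_sum (R := R) (s := s x) hρ (univ : Finset ι)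
        (f := fun i t => (c i * cexp (((a i * t : ℝ) : ℂ) * I)).re) (fun i _ => by fun_prop)
      have h8 : ∀ i, |nu R ρ (s x) fun t => (c i * cexp (((a i * t : ℝ) : ℂ) * I)).re| ≤
          ‖c i‖ * (|nu R ρ (s x) fun t => Real.cos (a i * t)| +
          |nu R ρ (s x) fun t => Real.sin (a i * t)|) := by
        intro i
        have e1 : (fun t : ℝ => (c i * cexp (((a i * t : ℝ) : ℂ) * I)).re) =
            fun t => (c i).re * Real.cos (a i * t) - (c i).im * Real.sin (a i * t) := by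
          funext t
          rw [Complex.mul_re, Complex.exp_ofReal_mul_I_re, Complex.exp_ofReal_mul_I_im]
        rw [e1, nu_sub hρ (by fun_prop) (by fun_prop), nu_smul, nu_smul]
        refine (abs_sub _ _).trans ?_
        rw [abs_mul, abs_mul, mul_add]
        have h9 := Complex.abs_re_le_norm (c i)
        have h10 := Complex.abs_im_le_norm (c i)
        gcongr
      have h9 : |nu R ρ (s x) fun t => ∑ i, (c i * cexp (((a i * t : ℝ) : ℂ) * I)).re| ≤
          ∑ i, ‖c i‖ * (|nu R ρ (s x) fun t => Real.cos (a i * t)| +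
          |nu R ρ (s x) fun t => Real.sin (a i * t)|) := by
        rw [h7]
        exact (abs_sum_le_sum_abs _ _).trans (sum_le_sum fun i _ => h8 i)
      rw [h3, ← hT] at h4
      have h10 := abs_le.1 h4
      have h11 := abs_le.1 h9
      rw [abs_le]
      constructor <;> linarith
    obtain ⟨G, hG⟩ : ∃ G : Option (ι × Fin 2) → Ω → ℝ, G = fun o x => o.elim 1 fun q =>
      (![|nu R ρ (s x) fun t => Real.cos (a q.1 * t)|,
        |nu R ρ (s x) fun t => Real.sin (a q.1 * t)|] : Fin 2 → ℝ) q.2 := ⟨_, rfl⟩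
    obtain ⟨C, hC⟩ : ∃ C : Option (ι × Fin 2) → ℝ, C = fun o => o.elim (T * ε) fun q =>
      ‖c q.1‖ := ⟨_, rfl⟩
    obtain ⟨β, hβ⟩ : ∃ β : Option (ι × Fin 2) → ℝ, β = fun o => o.elim 1 fun q =>
      1 + |a q.1| := ⟨_, rfl⟩
    have hsum : ∀ x, ∑ o, C o * G o x = (∑ i, ‖c i‖ * (|nu R ρ (s x) fun t =>
          Real.cos (a i * t)| + |nu R ρ (s x) fun t => Real.sin (a i * t)|)) + T * ε := by
      intro x
      rw [Fintype.sum_option, Fintype.sum_prod_type, hC, hG]
      simp only [Option.elim_none, Option.elim_some, mul_one]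
      rw [add_comm]
      congr 1
      refine sum_congr rfl fun i _ => ?_
      rw [Fin.sum_univ_two]
      simp only [Matrix.cons_val_zero, Matrix.cons_val_one]
      ring
    have hCβ : ∑ o, C o * β o ≤ 2 * Λ + T * ε := by
      rw [Fintype.sum_option, Fintype.sum_prod_type, hC, hβ]
      simp only [Option.elim_none, Option.elim_some, mul_one, Fin.sum_univ_two]
      rw [sum_add_distrib]
      linarith
    have hm : ∀ o, Measurable (G o) := by
      intro o
      rcases o with _ | ⟨i, j⟩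
      · rw [hG]
        exact measurable_const
      · rw [hG]
        simp only [Option.elim_some]
        fin_cases j
        · exact (measurable_nu hs (by fun_prop)).abs
        · exact (measurable_nu hs (by fun_prop)).abs
    have hcase : ∀ (y : Ω → ℝ) (b : ℝ), (∫⁻ x, ENNReal.ofReal ((y x ^ 2) ^ k) ∂μ ≤
        U * ENNReal.ofReal ((k.factorial : ℝ) * (v * (1 + |b|)) ^ k)) →
        ∫⁻ x, ENNReal.ofReal (|y x| ^ (2 * k)) ∂μ ≤
          (U * ENNReal.ofReal M) * ENNReal.ofReal ((1 + |b|) ^ (2 * k)) := by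
      intro y b hy
      have e1 : ∀ x, |y x| ^ (2 * k) = (y x ^ 2) ^ k := fun x => by rw [pow_mul, sq_abs]
      simp_rw [e1]
      refine hy.trans ?_
      have h3 : (1 + |b|) ^ k ≤ (1 + |b|) ^ (2 * k) :=
        pow_le_pow_right₀ (by linarith [abs_nonneg b]) (by omega)
      have h4 : (k.factorial : ℝ) * (v * (1 + |b|)) ^ k ≤ M * (1 + |b|) ^ (2 * k) := by
        rw [hM, mul_pow, ← mul_assoc]
        exact mul_le_mul_of_nonneg_left h3 (by positivity)
      rw [mul_assoc U, ← ENNReal.ofReal_mul (by linarith)]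
      exact mul_le_mul_right (ENNReal.ofReal_le_ofReal h4) _
    have hmom := mom_sum (μ := μ) (univ : Finset (Option (ι × Fin 2))) (c := C) (β := β) (F := G)
      (n := 2 * k) (by omega) (M := U * ENNReal.ofReal M) (fun o _ => by
        rcases o with _ | q
        · rw [hC]
          exact mul_nonneg hT0 hε.le
        · rw [hC]
          exact norm_nonneg _) (fun o _ => by
        rcases o with _ | q
        · rw [hβ]
          exact one_pos
        · rw [hβ]
          simp only [Option.elim_some]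
          positivity) (fun o _ x => by
        rcases o with _ | ⟨i, j⟩
        · rw [hG]
          exact zero_le_one
        · rw [hG]
          simp only [Option.elim_some]
          fin_cases j
          · exact abs_nonneg _
          · exact abs_nonneg _) (fun o _ => hm o) (fun o _ => by
        rcases o with _ | ⟨i, j⟩
        · rw [hG, hβ]
          simp only [Option.elim_none, one_pow, ENNReal.ofReal_one, lintegral_const, one_mul, mul_one]
          calc μ Set.univ ≤ U * 1 := by rw [mul_one]; exact h.mass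
            _ ≤ _ := by
              gcongr
              rw [← ENNReal.ofReal_one]
              exact ENNReal.ofReal_le_ofReal hM1
        · rw [hG, hβ]
          simp only [Option.elim_some]
          fin_cases j
          · exact hcase _ _ (h.cos (a i) k)
          · exact hcase _ _ (h.sin (a i) k)) hCβ
    refine (lintegral_mono fun x => ENNReal.ofReal_le_ofReal ?_).trans hmom
    rw [hsum x]
    exact pow_le_pow_left₀ (abs_nonneg _) (hpt x) _
  have e : U * ENNReal.ofReal ((k.factorial : ℝ) * (4 * v * Λ ^ 2) ^ k) =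
      (U * ENNReal.ofReal M) * ENNReal.ofReal ((2 * Λ) ^ (2 * k)) := by
    have e3 : (2 * Λ) ^ (2 * k) = (4 * Λ ^ 2) ^ k := by
      rw [pow_mul]
      congr 1
      ring
    have e4 : 4 * v * Λ ^ 2 = v * (4 * Λ ^ 2) := by ring
    rw [mul_assoc U, ← ENNReal.ofReal_mul (by linarith), hM, e3, e4, mul_pow v, mul_assoc]
  rw [e]
  have hlim : Tendsto (fun ε : ℝ => (U * ENNReal.ofReal M) *
      ENNReal.ofReal ((2 * Λ + T * ε) ^ (2 * k))) (𝓝[>] 0)
      (𝓝 ((U * ENNReal.ofReal M) * ENNReal.ofReal ((2 * Λ) ^ (2 * k)))) := by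
    refine ENNReal.Tendsto.const_mul ?_ (Or.inr (ENNReal.mul_ne_top hU ENNReal.ofReal_ne_top))
    refine (ENNReal.continuous_ofReal.tendsto _).comp ?_
    have hc : Continuous fun ε : ℝ => (2 * Λ + T * ε) ^ (2 * k) := by fun_prop
    have h3 := hc.tendsto 0
    simp only [mul_zero, add_zero] at h3
    exact h3.mono_left nhdsWithin_le_nhds
  exact ge_of_tendsto hlim (eventually_nhdsWithin_of_forall fun ε hε => hone ε hε)

/-! ### the modes of a weight on the window -/

variable {p n : ℕ}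

/-- the clamped positions -/
def clX (R : ℝ) (x : Cfg p n) : Fin p → ℝ := fun i => cl R (x.1 i)

/-- the clamped positions -/
def clY (R : ℝ) (x : Cfg p n) : Fin n → ℝ := fun i => cl R (x.2 i)

theorem clX_meas (R : ℝ) : Measurable (clX (p := p) (n := n) R) :=
  measurable_pi_lambda _ fun i => (cl_cont R).measurable.comp
    ((measurable_pi_apply i).comp measurable_fst)

theorem clY_meas (R : ℝ) : Measurable (clY (p := p) (n := n) R) :=
  measurable_pi_lambda _ fun i => (cl_cont R).measurable.comp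
    ((measurable_pi_apply i).comp measurable_snd)

theorem clX_eq {R : ℝ} {x : Cfg p n} (hx : x ∈ Bx R) : clX R x = x.1 :=
  funext fun i => cl_eq (hx.1 i)

theorem clY_eq {R : ℝ} {x : Cfg p n} (hx : x ∈ Bx R) : clY R x = x.2 :=
  funext fun i => cl_eq (hx.2 i)

/-- integrals over the window -/
theorem lint_win {R : ℝ} {g : Cfg p n → ℝ≥0∞} (hg : Measurable g) {F : Cfg p n → ℝ≥0∞}
    (hF : Measurable F) : ∫⁻ x, F x ∂(mWin R g) = ∫⁻ x in Bx R, g x * F x := by
  unfold mWin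
  rw [lintegral_withDensity_eq_lintegral_mul _ hg hF]
  rfl

/-- **all moments of the modes**: weight with exponential squares `SqW` on the window, mass `U` -/
theorem modeM_of_sq {R c K Λ : ℝ} {ρ : ℝ → ℝ} {g : Cfg p n → ℝ≥0∞} (hg : Measurable g)
    (hc : 0 < c) (hΛ : 0 ≤ Λ) {B U : ℝ≥0∞} (h : SqW g R ρ B c K)
    (h0 : ∫⁻ x in Bx R, g x ≤ U)
    (hB : B * ENNReal.ofReal (Real.exp K) ≤ U * ENNReal.ofReal (Real.exp Λ)) :
    ModeM (mWin R g) R ρ (clX (p := p) (n := n) R) U (2 * (Λ + 1) / c) ∧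
    ModeM (mWin R g) R ρ (clY (p := p) (n := n) R) U (2 * (Λ + 1) / c) := by
  have hm0 : mWin R g Set.univ ≤ U := by
    refine le_trans (le_of_eq ?_) h0
    have h1 := lint_win (R := R) hg (F := fun _ => 1) measurable_const
    rw [lintegral_one] at h1
    rw [h1]
    simp only [mul_one]
  have go : ∀ (m : ℕ) (s : Cfg p n → Fin m → ℝ) (y : Cfg p n → Fin m → ℝ), Measurable s →
      (∀ x ∈ Bx (p := p) (n := n) R, s x = y x) → ∀ (f : ℝ → ℝ), Continuous f → ∀ (a : ℝ) (k : ℕ),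
      ∫⁻ x in Bx R, g x * ENNReal.ofReal (Real.exp (c / (1 + |a|) * (nu R ρ (y x) f) ^ 2)) ≤
        B * ENNReal.ofReal (Real.exp K) →
      ∫⁻ x, ENNReal.ofReal (((nu R ρ (s x) f) ^ 2) ^ k) ∂(mWin R g) ≤
        U * ENNReal.ofReal ((k.factorial : ℝ) * (2 * (Λ + 1) / c * (1 + |a|)) ^ k) := by
    intro m s y hs hsy f hf a k hh
    have ha : 0 < 1 + |a| := by positivity
    have h1 := mom_sq (μ := mWin R g) (F := fun x => nu R ρ (s x) f) (U := U) (c := c / (1 + |a|))
      (Λ := Λ) (by positivity) hΛ hm0 (by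
        rw [lint_win hg ((measurable_nu hs hf).pow_const 2 |>.const_mul _ |>.exp.ennreal_ofReal)]
        refine le_trans (le_of_eq ?_) (hh.trans hB)
        refine setLIntegral_congr_fun (measurableSet_Bx R) fun x hx => ?_
        rw [hsy x hx]) k
    have e : 2 * (Λ + 1) / (c / (1 + |a|)) = 2 * (Λ + 1) / c * (1 + |a|) := by field_simp
    rwa [e] at h1
  exact ⟨⟨fun a k => go p _ (fun x => x.1) (clX_meas R) (fun x hx => clX_eq hx) _ (by fun_prop) a k
      (h.cosX a), fun a k => go p _ (fun x => x.1) (clX_meas R) (fun x hx => clX_eq hx) _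
      (by fun_prop) a k (h.sinX a)⟩,
    ⟨fun a k => go n _ (fun x => x.2) (clY_meas R) (fun x hx => clY_eq hx) _ (by fun_prop) a k
      (h.cosY a), fun a k => go n _ (fun x => x.2) (clY_meas R) (fun x hx => clY_eq hx) _
      (by fun_prop) a k (h.sinY a)⟩⟩

theorem meas_nu2_cl {m m' : ℕ} {R Λ : ℝ} {ρ ρ' : ℝ → ℝ} {s : Ω → Fin m → ℝ}
    {s' : Ω → Fin m' → ℝ} (hs : Measurable s) (hs' : Measurable s') (hR : 0 ≤ R)
    (hsR : ∀ x i, |s x i| ≤ R) (hsR' : ∀ x i, |s' x i| ≤ R) (hρ : Continuous ρ)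
    (hρ' : Continuous ρ') {κ : ℝ → ℝ → ℝ} (hK : KC R Λ (fun t t' => (κ t t' : ℂ))) :
    Measurable fun x => nu2 R ρ ρ' (s x) (s' x) κ := by
  have h1 : (fun x => nu2 R ρ ρ' (s x) (s' x) κ) =
      fun x => nu2 R ρ ρ' (s x) (s' x) (fun t t' => κ (cl R t) (cl R t')) := by
    funext x
    exact nu2_congr hR (hsR x) (hsR' x) fun t t' ht ht' => by rw [cl_eq ht, cl_eq ht']
  rw [h1]
  exact measurable_nu2 hs hs' hρ hρ' (hK.clamp hR).1

/-- **quadratic statistics on the window**: `y`, `y'` are the positions of two species -/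
theorem nu2_win {m m' : ℕ} {R Λ v : ℝ} {ρ ρ' : ℝ → ℝ} {g : Cfg p n → ℝ≥0∞} (hg : Measurable g)
    {s : Cfg p n → Fin m → ℝ} {s' : Cfg p n → Fin m' → ℝ} {y : Cfg p n → Fin m → ℝ}
    {y' : Cfg p n → Fin m' → ℝ} (hs : Measurable s) (hs' : Measurable s') (hR : 0 ≤ R)
    (hsR : ∀ x i, |s x i| ≤ R) (hsR' : ∀ x i, |s' x i| ≤ R)
    (hy : ∀ x ∈ Bx (p := p) (n := n) R, s x = y x) (hy' : ∀ x ∈ Bx (p := p) (n := n) R, s' x = y' x)
    (hρ : Continuous ρ) (hρ' : Continuous ρ') {κ : ℝ → ℝ → ℝ}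
    (hK : KC R Λ (fun t t' => (κ t t' : ℂ))) {U : ℝ≥0∞} (hU : U ≠ ∞) (hv : 0 < v)
    (h : ModeM (mWin R g) R ρ s U v) (h' : ModeM (mWin R g) R ρ' s' U v) {k : ℕ} (hk : k ≠ 0) :
    ∫⁻ x in Bx R, g x * ENNReal.ofReal (|nu2 R ρ ρ' (y x) (y' x) κ| ^ k) ≤
      U * ENNReal.ofReal ((k.factorial : ℝ) * (2 * v * Λ) ^ k) := by
  refine le_trans (le_of_eq ?_) (mom_nu2 hs hs' hR hsR hsR' hρ hρ' hK hU hv h h' hk)
  rw [lint_win hg ((meas_nu2_cl hs hs' hR hsR hsR' hρ hρ' hK).abs.pow_const k).ennreal_ofReal]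
  refine setLIntegral_congr_fun (measurableSet_Bx R) fun x hx => ?_
  simp only [hy x hx, hy' x hx]

/-- **linear statistics on the window** -/
theorem nu_win {m : ℕ} {R Λ v : ℝ} {ρ : ℝ → ℝ} {g : Cfg p n → ℝ≥0∞} (hg : Measurable g)
    {s : Cfg p n → Fin m → ℝ} {y : Cfg p n → Fin m → ℝ} (hs : Measurable s) (hR : 0 ≤ R)
    (hsR : ∀ x i, |s x i| ≤ R) (hy : ∀ x ∈ Bx (p := p) (n := n) R, s x = y x)
    (hρ : Continuous ρ) {f : ℝ → ℝ} (hf : Continuous f)
    (hK : KC1 R Λ (fun t => (f t : ℂ))) {U : ℝ≥0∞} (hU : U ≠ ∞) (hv : 1 ≤ v)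
    (h : ModeM (mWin R g) R ρ s U v) {k : ℕ} (hk : k ≠ 0) :
    ∫⁻ x in Bx R, g x * ENNReal.ofReal (|nu R ρ (y x) f| ^ (2 * k)) ≤
      U * ENNReal.ofReal ((k.factorial : ℝ) * (4 * v * Λ ^ 2) ^ k) := by
  refine le_trans (le_of_eq ?_) (mom_nu hs hR hsR hρ hf hK hU hv h hk)
  rw [lint_win hg ((measurable_nu hs hf).abs.pow_const (2 * k)).ennreal_ofReal]
  refine setLIntegral_congr_fun (measurableSet_Bx R) fun x hx => ?_
  simp only [hy x hx]

theorem clX_le {R : ℝ} (hR : 0 ≤ R) (x : Cfg p n) (i : Fin p) : |clX R x i| ≤ R := cl_abs hR _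

theorem clY_le {R : ℝ} (hR : 0 ≤ R) (x : Cfg p n) (i : Fin n) : |clY R x i| ≤ R := cl_abs hR _

/-- **all quadratic statistics** of a weight with `SqW` on the window -/
theorem quad_of_sq {R c K Λ Λk : ℝ} {ρ : ℝ → ℝ} {g : Cfg p n → ℝ≥0∞} (hg : Measurable g)
    (hR : 0 ≤ R) (hρ : Continuous ρ) (hc : 0 < c) (hΛ : 0 ≤ Λ) {B U : ℝ≥0∞} (hU : U ≠ ∞)
    (h : SqW g R ρ B c K) (h0 : ∫⁻ x in Bx R, g x ≤ U)
    (hB : B * ENNReal.ofReal (Real.exp K) ≤ U * ENNReal.ofReal (Real.exp Λ)) {κ : ℝ → ℝ → ℝ}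
    (hK : KC R Λk (fun t t' => (κ t t' : ℂ))) {k : ℕ} (hk : k ≠ 0) :
    (∫⁻ x in Bx R, g x * ENNReal.ofReal (|nu2 R ρ ρ x.1 x.1 κ| ^ k) ≤
      U * ENNReal.ofReal ((k.factorial : ℝ) * (4 * (Λ + 1) / c * Λk) ^ k)) ∧
    (∫⁻ x in Bx R, g x * ENNReal.ofReal (|nu2 R ρ ρ x.1 x.2 κ| ^ k) ≤
      U * ENNReal.ofReal ((k.factorial : ℝ) * (4 * (Λ + 1) / c * Λk) ^ k)) ∧
    (∫⁻ x in Bx R, g x * ENNReal.ofReal (|nu2 R ρ ρ x.2 x.1 κ| ^ k) ≤
      U * ENNReal.ofReal ((k.factorial : ℝ) * (4 * (Λ + 1) / c * Λk) ^ k)) ∧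
    (∫⁻ x in Bx R, g x * ENNReal.ofReal (|nu2 R ρ ρ x.2 x.2 κ| ^ k) ≤
      U * ENNReal.ofReal ((k.factorial : ℝ) * (4 * (Λ + 1) / c * Λk) ^ k)) := by
  obtain ⟨hX, hY⟩ := modeM_of_sq hg hc hΛ h h0 hB
  have e : 4 * (Λ + 1) / c * Λk = 2 * (2 * (Λ + 1) / c) * Λk := by ring
  have hv : 0 < 2 * (Λ + 1) / c := by positivity
  rw [e]
  exact ⟨nu2_win hg (clX_meas R) (clX_meas R) hR (clX_le hR) (clX_le hR) (fun x hx => clX_eq hx)
      (fun x hx => clX_eq hx) hρ hρ hK hU hv hX hX hk,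
    nu2_win hg (clX_meas R) (clY_meas R) hR (clX_le hR) (clY_le hR) (fun x hx => clX_eq hx)
      (fun x hx => clY_eq hx) hρ hρ hK hU hv hX hY hk,
    nu2_win hg (clY_meas R) (clX_meas R) hR (clY_le hR) (clX_le hR) (fun x hx => clY_eq hx)
      (fun x hx => clX_eq hx) hρ hρ hK hU hv hY hX hk,
    nu2_win hg (clY_meas R) (clY_meas R) hR (clY_le hR) (clY_le hR) (fun x hx => clY_eq hx)
      (fun x hx => clY_eq hx) hρ hρ hK hU hv hY hY hk⟩

/-- **all linear statistics** of a weight with `SqW` on the window -/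
theorem lin_of_sq {R c K Λ Λf : ℝ} {ρ : ℝ → ℝ} {g : Cfg p n → ℝ≥0∞} (hg : Measurable g)
    (hR : 0 ≤ R) (hρ : Continuous ρ) (hc : 0 < c) (hc1 : c ≤ 2) (hΛ : 0 ≤ Λ) {B U : ℝ≥0∞}
    (hU : U ≠ ∞) (h : SqW g R ρ B c K) (h0 : ∫⁻ x in Bx R, g x ≤ U)
    (hB : B * ENNReal.ofReal (Real.exp K) ≤ U * ENNReal.ofReal (Real.exp Λ)) {f : ℝ → ℝ}
    (hf : Continuous f) (hK : KC1 R Λf (fun t => (f t : ℂ))) {k : ℕ} (hk : k ≠ 0) :
    (∫⁻ x in Bx R, g x * ENNReal.ofReal (|nu R ρ x.1 f| ^ (2 * k)) ≤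
      U * ENNReal.ofReal ((k.factorial : ℝ) * (8 * (Λ + 1) / c * Λf ^ 2) ^ k)) ∧
    (∫⁻ x in Bx R, g x * ENNReal.ofReal (|nu R ρ x.2 f| ^ (2 * k)) ≤
      U * ENNReal.ofReal ((k.factorial : ℝ) * (8 * (Λ + 1) / c * Λf ^ 2) ^ k)) := by
  obtain ⟨hX, hY⟩ := modeM_of_sq hg hc hΛ h h0 hB
  have e : 8 * (Λ + 1) / c * Λf ^ 2 = 4 * (2 * (Λ + 1) / c) * Λf ^ 2 := by ring
  have hv : 1 ≤ 2 * (Λ + 1) / c := by
    rw [le_div_iff₀ hc]
    linarith
  rw [e]
  exact ⟨nu_win hg (clX_meas R) hR (clX_le hR) (fun x hx => clX_eq hx) hρ hf hK hU hv hX hk,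
    nu_win hg (clY_meas R) hR (clY_le hR) (fun x hx => clY_eq hx) hρ hf hK hU hv hY hk⟩

end

end PBQ
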