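import Pool.Agent.NUS4C.SharpI
import Pool.Agent.PB.MomQ

/-!
# Plan B, (U3): the positive gas of a configuration with all its statistics

* `GasM g R ρ U c Λ τ`: mass at most `U` on the window, tail at most `U e^{-τ}`, exponential squares of all
  modes with constant `c` and total at most `U e^Λ`;
* `GasM.quad`, `GasM.lin`, `GasM.mono`, `GasM.smul`;
* `gasI`: the gas of an instance (same hypotheses as `NUS4C.sharpI`) has `GasM` with the sharp mass,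
  `R = 2 (log m)²`, `c = 1 / (C (log m)²)`, `Λ = C (log m)⁶`, `τ = (log m)² / 40`.
-/

set_option autoImplicit false
set_option linter.unusedSectionVars false

open MeasureTheory Set Filter Topology
open scoped ENNReal

namespace PBM

open NUKer NUR2 NUDi PBQ

noncomputable section

/-- positive gas: mass and exponential squares on the window, mass outside -/
structure GasM {p n : ℕ} (g : Cfg p n → ℝ≥0∞) (R : ℝ) (ρ : ℝ → ℝ) (U : ℝ≥0∞) (c Λ τ : ℝ) : Prop where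
  meas : Measurable g
  R0 : 0 ≤ R
  ρc : Continuous ρ
  c0 : 0 < c
  c2 : c ≤ 2
  Λ0 : 0 ≤ Λ
  Ut : U ≠ ∞
  mass : ∫⁻ x in Bx R, g x ≤ U
  tail : ∫⁻ x in (Bx R)ᶜ, g x ≤ U * ENNReal.ofReal (Real.exp (-τ))
  sq : ∃ (B : ℝ≥0∞) (K : ℝ), SqW g R ρ B c K ∧
    B * ENNReal.ofReal (Real.exp K) ≤ U * ENNReal.ofReal (Real.exp Λ)

namespace GasM

variable {p n : ℕ} {g : Cfg p n → ℝ≥0∞} {R : ℝ} {ρ : ℝ → ℝ} {U : ℝ≥0∞} {c Λ τ : ℝ}

/-- quadratic statistics -/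
theorem quad (h : GasM g R ρ U c Λ τ) {Λk : ℝ} {κ : ℝ → ℝ → ℝ}
    (hK : KC R Λk (fun t t' => (κ t t' : ℂ))) {k : ℕ} (hk : k ≠ 0) :
    (∫⁻ x in Bx R, g x * ENNReal.ofReal (|nu2 R ρ ρ x.1 x.1 κ| ^ k) ≤
      U * ENNReal.ofReal ((k.factorial : ℝ) * (4 * (Λ + 1) / c * Λk) ^ k)) ∧
    (∫⁻ x in Bx R, g x * ENNReal.ofReal (|nu2 R ρ ρ x.1 x.2 κ| ^ k) ≤
      U * ENNReal.ofReal ((k.factorial : ℝ) * (4 * (Λ + 1) / c * Λk) ^ k)) ∧
    (∫⁻ x in Bx R, g x * ENNReal.ofReal (|nu2 R ρ ρ x.2 x.1 κ| ^ k) ≤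
      U * ENNReal.ofReal ((k.factorial : ℝ) * (4 * (Λ + 1) / c * Λk) ^ k)) ∧
    (∫⁻ x in Bx R, g x * ENNReal.ofReal (|nu2 R ρ ρ x.2 x.2 κ| ^ k) ≤
      U * ENNReal.ofReal ((k.factorial : ℝ) * (4 * (Λ + 1) / c * Λk) ^ k)) := by
  obtain ⟨B, K, h1, h2⟩ := h.sq
  exact quad_of_sq h.meas h.R0 h.ρc h.c0 h.Λ0 h.Ut h1 h.mass h2 hK hk

/-- linear statistics -/
theorem lin (h : GasM g R ρ U c Λ τ) {Λf : ℝ} {f : ℝ → ℝ} (hf : Continuous f)
    (hK : KC1 R Λf (fun t => (f t : ℂ))) {k : ℕ} (hk : k ≠ 0) :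
    (∫⁻ x in Bx R, g x * ENNReal.ofReal (|nu R ρ x.1 f| ^ (2 * k)) ≤
      U * ENNReal.ofReal ((k.factorial : ℝ) * (8 * (Λ + 1) / c * Λf ^ 2) ^ k)) ∧
    (∫⁻ x in Bx R, g x * ENNReal.ofReal (|nu R ρ x.2 f| ^ (2 * k)) ≤
      U * ENNReal.ofReal ((k.factorial : ℝ) * (8 * (Λ + 1) / c * Λf ^ 2) ^ k)) := by
  obtain ⟨B, K, h1, h2⟩ := h.sq
  exact lin_of_sq h.meas h.R0 h.ρc h.c0 h.c2 h.Λ0 h.Ut h1 h.mass h2 hf hK hk

/-- a smaller weight, a larger mass -/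
theorem mono (h : GasM g R ρ U c Λ τ) {g' : Cfg p n → ℝ≥0∞} (hm : Measurable g')
    (hg : ∀ x, g' x ≤ g x) {U' : ℝ≥0∞} (hU : U ≤ U') (hU' : U' ≠ ∞) : GasM g' R ρ U' c Λ τ where
  meas := hm
  R0 := h.R0
  ρc := h.ρc
  c0 := h.c0
  c2 := h.c2
  Λ0 := h.Λ0
  Ut := hU'
  mass := (lintegral_mono fun x => hg x).trans (h.mass.trans hU)
  tail := (lintegral_mono fun x => hg x).trans (h.tail.trans (by gcongr))
  sq := by
    obtain ⟨B, K, h1, h2⟩ := h.sq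
    exact ⟨B, K, h1.mono (fun x _ => hg x) le_rfl, h2.trans (by gcongr)⟩

/-- multiplication by a constant -/
theorem smul (h : GasM g R ρ U c Λ τ) {w : ℝ≥0∞} (hw : w ≠ ∞) :
    GasM (fun x => w * g x) R ρ (w * U) c Λ τ where
  meas := h.meas.const_mul w
  R0 := h.R0
  ρc := h.ρc
  c0 := h.c0
  c2 := h.c2
  Λ0 := h.Λ0
  Ut := ENNReal.mul_ne_top hw h.Ut
  mass := by
    rw [lintegral_const_mul _ h.meas]
    gcongr
    exact h.mass
  tail := by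
    rw [lintegral_const_mul _ h.meas, mul_assoc]
    gcongr
    exact h.tail
  sq := by
    obtain ⟨B, K, h1, h2⟩ := h.sq
    exact ⟨w * B, K, h1.smul hw, by rw [mul_assoc, mul_assoc]; gcongr⟩

/-- weaker constants -/
theorem weak (h : GasM g R ρ U c Λ τ) {c' Λ' τ' : ℝ} (hc : 0 < c') (hc' : c' ≤ c) (hΛ : Λ ≤ Λ')
    (hτ : τ' ≤ τ) : GasM g R ρ U c' Λ' τ' where
  meas := h.meas
  R0 := h.R0
  ρc := h.ρc
  c0 := hc
  c2 := hc'.trans h.c2
  Λ0 := h.Λ0.trans hΛ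
  Ut := h.Ut
  mass := h.mass
  tail := h.tail.trans (by gcongr)
  sq := by
    obtain ⟨B, K, h1, h2⟩ := h.sq
    exact ⟨B, K, h1.monoC hc' le_rfl, h2.trans (by gcongr)⟩

/-- the total mass -/
theorem total (h : GasM g R ρ U c Λ τ) (hτ : 0 ≤ τ) : ∫⁻ x, g x ≤ 2 * U := by
  rw [← lintegral_add_compl g (measurableSet_Bx R), two_mul]
  refine add_le_add h.mass (h.tail.trans ?_)
  have h1 : ENNReal.ofReal (Real.exp (-τ)) ≤ 1 := by
    rw [← ENNReal.ofReal_one]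
    exact ENNReal.ofReal_le_ofReal (Real.exp_le_one_iff.2 (by linarith))
  calc U * ENNReal.ofReal (Real.exp (-τ)) ≤ U * 1 := by gcongr
    _ = U := mul_one U

end GasM

end

end PBM

namespace PBS

open NUS4 (win_le_sq)
open NUSea (MFs)
open NUSea.H0 (Hyp1 Shl Ex1 W0 tC tC_ge Inst Nums hyp1 NT Ex1_le H0fin)
open NUH0 (shF shF_nonneg T0i T0i_cost log_qc T0c qc)
open NUS4C (GD)
open NUE NUOC NUKer NUR2 NUTr NUDi NUDispW NUEnW PBM

noncomputable section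

variable [NUSea.Sea]

/-- the exponent of the bound of `sharpI` -/
def exI (X : NUSea.H0.Dat) (p n : ℕ) {r : ℕ} (h : Fin r → ℝ) (ε' T' Y C N0 x : ℝ) (m : ℕ) : ℝ :=
  MFs X.s p n + X.En + ((7 / 3 + 2 * ε') * T' + 12 / 5 * Y + 6 * r + C * (1 + N0) +
        x * (win Finset.univ h + 1 + Real.log m) + 1)

/-- **the gas of an instance with all its statistics** -/
theorem gasI {ε k A κ ε' : ℝ} (hε : 0 < ε) (hε1 : ε ≤ 1) (hk : 0 ≤ k) (hA : 1 ≤ A) (hκ : 0 < κ)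
    (hε' : 0 < ε') (hε'1 : ε' ≤ 1 / 200) : ∃ C : ℝ, 0 ≤ C ∧ ∀ (kk : ℕ) {e w x : ℝ}, 0 < e →
    e ≤ 1 / 4 → 0 < w → w ≤ 1 / 10 → 0 < x → ∃ (C' C₂ : ℝ) (m0 : ℕ), 1 ≤ C' ∧ 1 ≤ C₂ ∧ 3 ≤ m0 ∧
    ∀ m ≥ m0,
    ∀ {X : NUSea.H0.Dat} {p n r : ℕ} {h : Fin r → ℝ} {T' b : ℝ} {η η1 : Bool → ℝ → ℝ},
    Inst X p n k A κ m h T' b η η1 → 0 ≤ b → b ≤ Real.log m →
    ∀ {aX aY cf B : ℝ → ℝ} {D q : ℝ}, Shl X aX aY cf B D q → 7 / 3 + 2 * ε' + 1 / 10 ≤ q →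
    GD m kk κ e w X.s (2 * Real.log m ^ 2) b (η true) (η1 true) (η false) (η1 false)
      (fun t => aX t * cf t) (fun t => aY t * cf t) →
    ∀ {Y : ℝ}, 3 / 8 * Real.log m ≤ T' → T' ≤ Real.log m → 0 ≤ Y → Y ≤ Real.log m ^ 2 →
    (∀ i, |h i| ≤ T' + Y) → (r : ℝ) ≤ Real.log m →
    ∀ {N0 e1 : ℝ}, 0 ≤ N0 → C * e1 ≤ ε' → (∀ T, T0i T' Y A r m ≤ T → NT X T ≤ N0 + e1 * T) →
    GasM (fun y : Cfg p n => ENNReal.ofReal (W0 X p n aX aY cf y)) (2 * Real.log m ^ 2) X.ρ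
      (ENNReal.ofReal (C' * ((p.factorial : ℝ) * n.factorial *
        Real.exp (exI X p n h ε' T' Y C N0 x m) *
        (1 + shF D q (7 / 3 + 2 * ε') (T0i T' Y A r m))) * (m : ℝ) ^ (-(1 / 2 : ℝ) + (ε + e))))
      (1 / (C₂ * Real.log m ^ 2)) (C₂ * Real.log m ^ 6) (Real.log m ^ 2 / 40) := by
  obtain ⟨Cs, hCs0, HS⟩ := NUS4C.sharpI hε hε1 hk hA hκ hε' hε'1
  obtain ⟨Ch, N, C₁, hCh0, hN, hC₁, HH0⟩ := H0fin hε' k
  obtain ⟨C, hC⟩ : ∃ C : ℝ, C = max Cs Ch := ⟨_, rfl⟩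
  have hCs : Cs ≤ C := by rw [hC]; exact le_max_left _ _
  have hCh : Ch ≤ C := by rw [hC]; exact le_max_right _ _
  have hC0 : 0 ≤ C := hCs0.trans hCs
  refine ⟨C, hC0, ?_⟩
  intro kk e w x he he1 hw hw1 hx
  have hKc := (Kc_pos (by norm_num : (0 : ℝ) < 5 / 2)).le
  obtain ⟨C₂, hC₂⟩ : ∃ C₂ : ℝ, C₂ = 4 * (2 + N + N) * (A ^ 2 * Kc (5 / 2)) +
    8 * A ^ 2 * (2 + N + N) ^ 2 + (tC * k) ^ 2 := ⟨_, rfl⟩
  have hC₂0 : 0 ≤ C₂ := by rw [hC₂]; positivity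
  obtain ⟨C', m1, hC', hm1, HM⟩ := HS kk he he1 hw hw1 hx
  obtain ⟨m2, HH⟩ := hyp1 (k := k) (A := A) (κ := κ) hk hA hκ (x := x) (N := N) (c := 2) hx hN 2
  obtain ⟨m3, HT⟩ := T0i_cost (x := x) (ε' := 2 * ε') hx A hA (by linarith)
  obtain ⟨m4, hm4⟩ := (Real.tendsto_log_atTop.comp tendsto_natCast_atTop_atTop).eventually
    (eventually_ge_atTop (40 : ℝ)) |>.exists_forall_of_atTop
  obtain ⟨m5, HQ⟩ := log_qc (x := 1) one_pos A hA
  refine ⟨C', C₂ + 24 * C₁ + 2, max (max m1 m2) (max (max m3 m4) m5), hC', by linarith,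
    hm1.trans ((le_max_left _ _).trans (le_max_left _ _)), ?_⟩
  intro m hm X p n r h T' b η η1 hI hb0 hb aX aY cf B D q hS hq hG Y hT1 hT2 hY hY2 hh hr N0 e1
    hN0 he1' hNT
  have hmm1 : m1 ≤ m := ((le_max_left _ _).trans (le_max_left _ _)).trans hm
  have hmm2 : m2 ≤ m := ((le_max_right _ _).trans (le_max_left _ _)).trans hm
  have hmm34 : max m3 m4 ≤ m := ((le_max_left _ _).trans (le_max_right _ _)).trans hm
  have hmm3 : m3 ≤ m := (le_max_left _ _).trans hmm34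
  have hmm4 : m4 ≤ m := (le_max_right _ _).trans hmm34
  have hmm5 : m5 ≤ m := ((le_max_right _ _).trans (le_max_right _ _)).trans hm
  have hm3' : 3 ≤ m := hm1.trans hmm1
  have hmr : (3 : ℝ) ≤ m := by exact_mod_cast hm3'
  have hmp : (0:ℝ) < m := by linarith
  have he1s : Cs * e1 ≤ ε' := by
    rcases le_total 0 e1 with h0 | h0
    · exact (mul_le_mul_of_nonneg_right hCs h0).trans he1'
    · exact (mul_nonpos_of_nonneg_of_nonpos hCs0 h0).trans hε'.le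
  have he1h : Ch * e1 ≤ ε' := by
    rcases le_total 0 e1 with h0 | h0
    · exact (mul_le_mul_of_nonneg_right hCh h0).trans he1'
    · exact (mul_nonpos_of_nonneg_of_nonpos hCh0 h0).trans hε'.le
  have key0 := HM m hmm1 hI hb0 hb hS hq hG hT1 hT2 hY hY2 hh hr he1s hNT
  have hL := hm4 m hmm4
  simp only [Function.comp] at hL
  obtain ⟨L, hLd⟩ : ∃ L, L = Real.log m := ⟨_, rfl⟩
  have hq5 := HQ m hmm5 r
  rw [← hLd] at hL hb hT1 hT2 hY2 hr hq5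
  have hr0 : (0:ℝ) ≤ r := Nat.cast_nonneg r
  have hLp : 0 ≤ Real.log m := by rw [← hLd]; linarith
  have hL2 : 40 * L ≤ L ^ 2 := by nlinarith
  have hT0 : T0i T' Y A r m ≤ 3 / 2 * L ^ 2 := by
    unfold T0i T0c
    nlinarith
  obtain ⟨ε1, c1, mm, hn, hH⟩ := HH m hmm2 hI hb0 (R1 := 2 * L ^ 2) (by rw [← hLd]; nlinarith)
    (by rw [← hLd]) (Y := Y) (by rw [← hLd]; exact hT1) (by rw [← hLd]; exact hT2) hY hh
    (by nlinarith)
  have hwin : win Finset.univ h ≤ L ^ 2 := by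
    refine (win_le_sq h).trans ?_
    exact pow_le_pow_left₀ hr0 hr 2
  have hwin0 := win_nonneg (Finset.univ : Finset (Fin r)) h
  have hT0p := hH.T0p
  have hL6 : 1 ≤ L ^ 6 := one_le_pow₀ (by linarith)
  have hm26 : mm ^ 2 + (tC * k) ^ 2 ≤ C₂ * L ^ 6 := by
    rw [hC₂]
    have h46 : L ^ 4 ≤ L ^ 6 := pow_le_pow_right₀ (by linarith) (by norm_num)
    have h1 : 2 * L ^ 2 + N ≤ (2 + N + N) * L ^ 2 := by nlinarith
    have h0 : 0 ≤ A ^ 2 * Kc (5 / 2) := by positivity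
    have h2 : A ^ 2 * Kc (5 / 2) * win Finset.univ h ≤ A ^ 2 * Kc (5 / 2) * L ^ 2 := by gcongr
    have h3 : 0 ≤ A ^ 2 * Kc (5 / 2) * win Finset.univ h := by positivity
    have h4 : 4 * (2 * L ^ 2 + N) * (A ^ 2 * Kc (5 / 2) * win Finset.univ h) ≤
        4 * ((2 + N + N) * L ^ 2) * (A ^ 2 * Kc (5 / 2) * L ^ 2) := by gcongr
    have h5 : 8 * A ^ 2 * (2 * L ^ 2 + N) ^ 2 ≤ 8 * A ^ 2 * ((2 + N + N) * L ^ 2) ^ 2 := by gcongr
    calc mm ^ 2 + (tC * k) ^ 2 ≤ 4 * (2 * L ^ 2 + N) * (A ^ 2 * Kc (5 / 2) * win Finset.univ h) +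
          8 * A ^ 2 * (2 * L ^ 2 + N) ^ 2 + (tC * k) ^ 2 := by
          have := hn.mw
          linarith
      _ ≤ 4 * ((2 + N + N) * L ^ 2) * (A ^ 2 * Kc (5 / 2) * L ^ 2) +
          8 * A ^ 2 * ((2 + N + N) * L ^ 2) ^ 2 + (tC * k) ^ 2 * 1 := by linarith
      _ = (4 * (2 + N + N) * (A ^ 2 * Kc (5 / 2)) + 8 * A ^ 2 * (2 + N + N) ^ 2) * L ^ 4 + (tC * k) ^ 2 * 1 := by
          ring
      _ ≤ (4 * (2 + N + N) * (A ^ 2 * Kc (5 / 2)) + 8 * A ^ 2 * (2 + N + N) ^ 2) * L ^ 6 + (tC * k) ^ 2 * L ^ 6 := by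
          gcongr
      _ = _ := by ring
  obtain ⟨g, hg⟩ : ∃ g, g = 7 / 3 + 2 * ε' := ⟨_, rfl⟩
  have hg0 : 0 ≤ g := by rw [hg]; linarith
  have hgq : g < q := by rw [hg]; linarith
  obtain ⟨-, h2, h3⟩ := HH0 hH hS hg0 hgq
    (E1 := MFs X.s p n + X.En + (7 / 3 + 2 * ε') * T0i T' Y A r m + (Ch * (1 + N0) + 1))
    (fun T hT => by
      have h1 := Ex1_le (X := X) (p := p) (n := n) (ε := ε1) (ε' := ε') (C := Ch)
        (T0 := T0i T' Y A r m) (T := T) (N0 := N0 + e1 * T0i T' Y A r m) (e1 := e1) hCh0 he1h hT (by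
            have := hNT T hT
            linarith)
      have h2 := hn.e1
      have h4 : Ch * (e1 * T0i T' Y A r m) ≤ ε' * T0i T' Y A r m := by
        rw [← mul_assoc]
        gcongr
      rw [hg]
      linarith)
  have h5 := HT m hmm3 r (T' := T') hY
  have hsh := shF_nonneg (T0 := T0i T' Y A r m) hS.D0 hgq
  have h3' := hn.cm
  have hCN : Ch * (1 + N0) ≤ C * (1 + N0) := by gcongr
  have hCsN : Cs * (1 + N0) ≤ C * (1 + N0) := by gcongr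
  have hexp1 : Real.exp (MFs X.s p n + X.En + (7 / 3 + 2 * ε') * T0i T' Y A r m + (Ch * (1 + N0) + 1) +
      176 * c1 * (2 * L ^ 2 + N) * mm ^ 2) ≤ Real.exp (exI X p n h ε' T' Y C N0 x m) := by
    refine Real.exp_le_exp.2 ?_
    unfold exI
    linarith
  have hexp2 : Real.exp (MFs X.s p n + X.En + (7 / 3 + 2 * ε') * T0i T' Y A r m + (Ch * (1 + N0) + 1)) ≤
      Real.exp (exI X p n h ε' T' Y C N0 x m) := by
    refine (Real.exp_le_exp.2 ?_).trans hexp1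
    have h6 : 0 ≤ 176 * c1 * (2 * L ^ 2 + N) * mm ^ 2 := by
      have := hn.c0
      positivity
    linarith
  obtain ⟨G, hGd⟩ : ∃ G : ℝ, G = (p.factorial : ℝ) * n.factorial *
      Real.exp (exI X p n h ε' T' Y C N0 x m) * (1 + shF D q (7 / 3 + 2 * ε') (T0i T' Y A r m)) :=
    ⟨_, rfl⟩
  rw [← hg] at hGd
  have hG0 : 0 ≤ G := by rw [hGd]; positivity
  have hmq : 0 ≤ (m : ℝ) ^ (-(1 / 2 : ℝ) + (ε + e)) := (Real.rpow_pos_of_pos hmp _).le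
  have hml : Real.exp (-L) ≤ (m : ℝ) ^ (-(1 / 2 : ℝ) + (ε + e)) := by
    rw [Real.rpow_def_of_pos hmp, ← hLd]
    refine Real.exp_le_exp.2 ?_
    nlinarith
  have hLpos : 0 < L := by linarith
  have hL26 : L ^ 2 ≤ L ^ 6 := pow_le_pow_right₀ (by linarith) (by norm_num)
  have hLL6 : L ≤ L ^ 6 := by nlinarith
  obtain ⟨Cκ, hGeo⟩ := hI.geo
  have mD := fun a => (hGeo.D_cont a).measurable
  have mD1 := fun a => (hGeo.D1_cont a).measurable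
  rw [← hLd, ← hg, ← hGd]
  clear HS HH0 HM HH HT HQ hm4 hNT hG hI hH hn hLp
  obtain ⟨V, hV⟩ : ∃ V : ℝ, V = C' * G * (m : ℝ) ^ (-(1 / 2 : ℝ) + (ε + e)) := ⟨_, rfl⟩
  have hVG : G * Real.exp (-L) ≤ V := by
    rw [hV]
    have h1 : G ≤ C' * G := le_mul_of_one_le_left hG0 hC'
    gcongr
  have hV0 : 0 ≤ V := le_trans (by positivity) hVG
  rw [← hV]
  refine
    { meas := (NU42.WO_meas (mD true) (mD1 true) (mD false) (mD1 false) (hS.mX.mul hS.mc)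
        (hS.mY.mul hS.mc)).ennreal_ofReal
      R0 := by positivity
      ρc := NUSea.H0.ρ_cont X
      c0 := by positivity
      c2 := ?_
      Λ0 := by positivity
      Ut := ENNReal.ofReal_ne_top
      mass := ?_
      tail := ?_
      sq := ?_ }
  · rw [div_le_iff₀ (by positivity)]
    nlinarith [mul_nonneg (by positivity : (0:ℝ) ≤ C₂ + 24 * C₁ + 1) (by positivity : (0:ℝ) ≤ L ^ 2)]
  · refine (setLIntegral_le_lintegral _ _).trans (key0.trans (ENNReal.ofReal_le_ofReal ?_))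
    rw [hV, hGd, ← hg, ← hLd]
    unfold exI
    rw [← hg, ← hLd]
    gcongr
  · refine h2.trans ?_
    rw [← ENNReal.ofReal_mul hV0]
    refine ENNReal.ofReal_le_ofReal ?_
    have t1 : 1 / 10 ≤ q - g := by rw [hg]; linarith
    have t2 : L ^ 2 / 2 ≤ 2 * L ^ 2 - T0i T' Y A r m := by linarith
    have t3 : 1 / 10 * (L ^ 2 / 2) ≤ (q - g) * (2 * L ^ 2 - T0i T' Y A r m) :=
      mul_le_mul t1 t2 (by positivity) (by linarith)
    have t4 : Real.exp (-(q - g) * (2 * L ^ 2 - T0i T' Y A r m)) ≤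
        Real.exp (-L) * Real.exp (-(L ^ 2 / 40)) := by
      rw [← Real.exp_add]
      refine Real.exp_le_exp.2 ?_
      nlinarith
    have t5 : (p.factorial : ℝ) * n.factorial * Real.exp (MFs X.s p n + X.En +
        (7 / 3 + 2 * ε') * T0i T' Y A r m + (Ch * (1 + N0) + 1) +
        176 * c1 * (2 * L ^ 2 + N) * mm ^ 2) * shF D q g (T0i T' Y A r m) ≤ G := by
      rw [hGd]
      gcongr
      linarith
    calc (p.factorial : ℝ) * n.factorial * Real.exp (MFs X.s p n + X.En +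
        (7 / 3 + 2 * ε') * T0i T' Y A r m + (Ch * (1 + N0) + 1) +
        176 * c1 * (2 * L ^ 2 + N) * mm ^ 2) *
        (Real.exp (-(q - g) * (2 * L ^ 2 - T0i T' Y A r m)) * shF D q g (T0i T' Y A r m)) =
        ((p.factorial : ℝ) * n.factorial * Real.exp (MFs X.s p n + X.En +
        (7 / 3 + 2 * ε') * T0i T' Y A r m + (Ch * (1 + N0) + 1) +
        176 * c1 * (2 * L ^ 2 + N) * mm ^ 2) * shF D q g (T0i T' Y A r m)) *
        Real.exp (-(q - g) * (2 * L ^ 2 - T0i T' Y A r m)) := by ring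
      _ ≤ G * (Real.exp (-L) * Real.exp (-(L ^ 2 / 40))) := by gcongr
      _ = (G * Real.exp (-L)) * Real.exp (-(L ^ 2 / 40)) := by ring
      _ ≤ V * Real.exp (-(L ^ 2 / 40)) := by gcongr
  · refine ⟨_, _, h3.monoC ?_ hm26, ?_⟩
    · refine one_div_le_one_div_of_le (by positivity) ?_
      have hL1 : 1 ≤ L ^ 2 := one_le_pow₀ (by linarith)
      have c0 : C₁ ≤ C₁ * L ^ 2 := le_mul_of_one_le_right hC₁.le hL1
      have c1 : 0 ≤ (C₂ + 2) * L ^ 2 := by positivity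
      nlinarith
    · rw [← ENNReal.ofReal_mul (by positivity), ← ENNReal.ofReal_mul hV0]
      refine ENNReal.ofReal_le_ofReal ?_
      have t5 : (p.factorial : ℝ) * n.factorial * Real.exp (MFs X.s p n + X.En +
          (7 / 3 + 2 * ε') * T0i T' Y A r m + (Ch * (1 + N0) + 1)) *
          (1 + shF D q g (T0i T' Y A r m)) ≤ G := by
        rw [hGd]
        gcongr
      have t6 : Real.exp (C₂ * L ^ 6) ≤ Real.exp (-L) * Real.exp ((C₂ + 24 * C₁ + 2) * L ^ 6) := by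
        rw [← Real.exp_add]
        refine Real.exp_le_exp.2 ?_
        have : 0 ≤ (24 * C₁ + 1) * L ^ 6 := by positivity
        nlinarith
      calc _ ≤ G * (Real.exp (-L) * Real.exp ((C₂ + 24 * C₁ + 2) * L ^ 6)) := by gcongr
        _ = (G * Real.exp (-L)) * Real.exp ((C₂ + 24 * C₁ + 2) * L ^ 6) := by ring
        _ ≤ _ := by gcongr

end

end PBS
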