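import Pool.Agent.NUSea.H0.InstC
import Pool.Agent.PB.SqI

/-!
# Plan B, (U3): `GasM` for every configuration of objects, general sea

`GasSharpC`: as `NUSea.H0.SharpC`, with `GasM` (mass, tail, exponential squares of all modes) instead of
the total mass.
-/

set_option autoImplicit false

noncomputable section

open MeasureTheory Finset
open scoped ENNReal

namespace PBS

open NUO NUStabP NUDispW NUSea.H0 PBM NUR2
open NUSea (MFs)
open NUH0 (T0i T0i_ge shF shF_nonneg)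

variable [NUSea.Sea]

/-- **the gas of a configuration with all its statistics** -/
def GasSharpC : Prop :=
  ∃ K Ca : ℝ, 0 ≤ K ∧ 0 ≤ Ca ∧ ∀ (G : ℕ) (kap : ℝ), 0 < kap →
    ∀ ep : ℝ, 0 < ep → ep ≤ 1 / 100 → ∀ e1 : ℝ, 0 < e1 → e1 ≤ 1 / 100 → ∀ δ : ℝ, 0 < δ →
    ∀ (k : ℕ) (κ CB w : ℝ), 0 < κ → 0 ≤ CB → 0 < w → w ≤ 1 / 10 →
    ∃ ϑ Cst Cc : ℝ, 0 < ϑ ∧ 0 ≤ Cst ∧ 1 ≤ Cc ∧ ∃ m0 : ℕ, ∀ m ≥ m0,
      ∀ (I : Inp) (P : Par) (r : ℕ) (O : Fin r → Xo) (g : Fin G → ℝ) (p n : ℕ)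
        (aX aY cf B1 : ℝ → ℝ) (T1 D q S : ℝ),
      DatC ep e1 κ CB ϑ k m I P O g p n aX aY cf B1 T1 D q S →
      NUS4C.GD m k κ e1 w I.s (2 * Real.log m ^ 2) ((1 - e1) * Tb (Real.log m)) I.η I.η1 I.η I.η1
        (fun t => aX t * cf t) (fun t => aY t * cf t) →
      (r : ℝ) + G ≤ Real.log m → (∀ i, |ht (O i)| ≤ Real.log m ^ 2) →
      (∀ j, |g j| ≤ Real.log m ^ 2) → D * Real.exp (-(q * TW ep e1 m)) ≤ S →
        GasM (fun x : Cfg p n => ENNReal.ofReal (W0 (datO I P O) p n aX aY cf x))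
          (2 * Real.log m ^ 2) (datO I P O).ρ
          (ENNReal.ofReal ((p.factorial : ℝ) * n.factorial *
            (Cst * (m : ℝ) ^ (3 / 8 + Ca * (ep + e1) + δ) * (1 + S) *
              Real.exp (confC ep e1 m I P p n K kap O T1))))
          (1 / (Cc * Real.log m ^ 2)) (Cc * Real.log m ^ 6) (Real.log m ^ 2 / 40)

theorem gasSharpC_of (hI : InstC) : GasSharpC := by
  refine ⟨6, 3, by norm_num, by norm_num, ?_⟩
  intro G kap hkap ep hep hep1 e1 he he1 δ hδ k κ CB w hκ hCB hw hwl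
  obtain ⟨A, hA, hInst⟩ := hI G ep hep hep1 e1 he he1 k κ CB hκ hCB
  obtain ⟨ε', hε'⟩ : ∃ ε' : ℝ, ε' = min (1 / 200) (δ / 4) := ⟨_, rfl⟩
  have hε'0 : 0 < ε' := by rw [hε']; exact lt_min (by norm_num) (by positivity)
  have hε'1 : ε' ≤ 1 / 200 := by rw [hε']; exact min_le_left _ _
  have hε'2 : ε' ≤ δ / 4 := by rw [hε']; exact min_le_right _ _
  obtain ⟨C, hC, HC⟩ := PBS.gasI (ε := ε') (k := 8) (A := A) (κ := κ) (ε' := ε') hε'0 (by linarith)
    (by norm_num) hA hκ hε'0 hε'1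
  obtain ⟨x, hx⟩ : ∃ x : ℝ, x = min (kap / 8) (δ / 4) := ⟨_, rfl⟩
  have hx0 : 0 < x := by rw [hx]; exact lt_min (by positivity) (by positivity)
  have hx1 : x ≤ kap / 8 := by rw [hx]; exact min_le_left _ _
  have hx2 : x ≤ δ / 4 := by rw [hx]; exact min_le_right _ _
  obtain ⟨C', C₂, m1, hC', hC₂, -, HM⟩ := HC k he (by linarith) hw hwl hx0
  obtain ⟨x2, hx2d⟩ : ∃ x2 : ℝ, x2 = min (ε' / (C + 1)) (kap / 4 / (C + 1)) := ⟨_, rfl⟩
  have hC1 : 0 < C + 1 := by linarith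
  have hx20 : 0 < x2 := by rw [hx2d]; exact lt_min (by positivity) (by positivity)
  have hx2a : C * x2 ≤ ε' := by
    have h1 : x2 ≤ ε' / (C + 1) := by rw [hx2d]; exact min_le_left _ _
    rw [le_div_iff₀ hC1] at h1
    nlinarith
  have hx2b : C * x2 ≤ kap / 4 := by
    have h1 : x2 ≤ kap / 4 / (C + 1) := by rw [hx2d]; exact min_le_right _ _
    rw [le_div_iff₀ hC1] at h1
    nlinarith
  obtain ⟨ϑ, N1, hϑ, hN1, m2, hI2⟩ := hInst x2 hx20
  refine ⟨ϑ, C' * Real.exp (C * (1 + N1) + x * (1 + 2 * (G : ℝ) ^ 2) + 6 * G + 1) * (1 + NUSea.H0.shC), C₂, hϑ, by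
    have := NUSea.H0.shC_nonneg
    positivity, hC₂, max (max m1 m2) 3, ?_⟩
  intro m hm I P r O g p n aX aY cf B1 T1 D q S hD hG hr hht hgt hDS
  obtain ⟨i1, i2⟩ := hI2 m ((le_max_right _ _).trans ((le_max_left _ _).trans hm)) I P r O g p n aX aY
    cf B1 T1 D q S hD
  have hm3 : 3 ≤ m := (le_max_right _ _).trans hm
  have hmr : (3:ℝ) ≤ m := by exact_mod_cast hm3
  have hmp : (0:ℝ) < m := by linarith
  obtain ⟨L, hL⟩ : ∃ L, L = Real.log m := ⟨_, rfl⟩
  have hL0 : 0 ≤ L := by rw [hL]; exact Real.log_nonneg (by linarith)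
  obtain ⟨T', hT'⟩ : ∃ T', T' = TW ep e1 m := ⟨_, rfl⟩
  have hTW : T' = (1 + 2 * e1 + 2 * ep) * Tb L := by rw [hT', hL]; rfl
  have hT1 : 3 / 8 * L ≤ T' := by
    rw [hTW]
    unfold Tb
    nlinarith
  have hT2 : T' ≤ L := by
    rw [hTW]
    unfold Tb
    nlinarith
  have hb0 : 0 ≤ (1 - e1) * Tb (Real.log m) := by
    rw [← hL]
    unfold Tb
    have : 0 ≤ 1 - e1 := by linarith
    positivity
  have hb1 : (1 - e1) * Tb (Real.log m) ≤ Real.log m := by
    rw [← hL]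
    unfold Tb
    nlinarith
  have hT1' : T' + excS T' O ≤ T1 := by
    have := hD.tw
    rwa [← hT'] at this
  have hT10 : 0 ≤ T1 - T' := by
    have := excS_nonneg T' O
    linarith
  obtain ⟨Y, hY⟩ : ∃ Y, Y = min (T1 - T') (L ^ 2) := ⟨_, rfl⟩
  have hY0 : 0 ≤ Y := by rw [hY]; exact le_min hT10 (by positivity)
  have hYS : Y ≤ T1 - T' := by rw [hY]; exact min_le_left _ _
  have hYL : Y ≤ L ^ 2 := by rw [hY]; exact min_le_right _ _
  have hw0 := win_nonneg (Finset.univ : Finset (Fin r)) (fun i => ht (O i))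
  have hw1 := win_hts O g
  have hq1 := hD.q1
  have hT0 : TW ep e1 m ≤ T0i (TW ep e1 m) Y A (r + G) m := by
    have h1 := T0i_ge (T' := TW ep e1 m) (Y := Y) (r := r + G) (m := m) hA
      (by rw [← hL]; exact hL0) hY0
    linarith
  have key := HM m ((le_max_left _ _).trans ((le_max_left _ _).trans hm)) i1 hb0 hb1 hD.shl
    (by linarith) hG (Y := Y) (by rw [← hT', ← hL]; exact hT1) (by rw [← hT', ← hL]; exact hT2)
    hY0 (by rw [← hL]; exact hYL) (fun i => by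
      rw [← hT', hY]
      refine Fin.addCases (fun i => ?_) (fun j => ?_) i
      · unfold hts
        rw [Fin.append_left]
        have h1 := excS_ge T' O i
        have h2 := hht i
        rw [← hL] at h2
        rcases min_choice (T1 - T') (L ^ 2) with h | h
        · rw [h]
          linarith
        · rw [h]
          linarith
      · unfold hts
        rw [Fin.append_right]
        have h1 := hD.gs j
        have h2 := hgt j
        rw [← hL] at h2
        rcases min_choice (T1 - T') (L ^ 2) with h | h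
        · rw [h]
          linarith
        · rw [h]
          linarith) (by push_cast; exact hr)
    (N0 := N1 + x2 * win univ (fun i => ht (O i))) (e1 := x2) (by positivity) hx2a
    (fun T hT => i2 T (by
      rw [← hT'] at hT0 hT
      linarith))
  refine key.mono key.meas (fun _ => le_rfl) (ENNReal.ofReal_le_ofReal ?_) ENNReal.ofReal_ne_top
  have hS0 : 0 ≤ S := le_trans (mul_nonneg hD.shl.D0 (Real.exp_pos _).le) hDS
  have hsh := shF_le (ε' := ε') hε'1 hD.shl.D0 hq1 hDS hT0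
  have hsh0 := shF_nonneg (T0 := T0i (TW ep e1 m) Y A (r + G) m) hD.shl.D0
    (show 7 / 3 + 2 * ε' < q by linarith)
  have hshC := NUSea.H0.shC_nonneg
  have hshf : 1 + shF D q (7 / 3 + 2 * ε') (T0i (TW ep e1 m) Y A (r + G) m) ≤
      (1 + S) * (1 + NUSea.H0.shC) := by linarith
  have har := arithC (M0 := MFs I.s p n + (datO I P O).En) (N1 := N1) (R := r) (G := G)
    (Y := Y) (S := T1 - T') (W := win univ (fun i => ht (O i))) (W' := win univ (hts O g))
    hL0 hTW hep hep1 he he1 hε'0.le hε'2 hx0.le hx2 hx1 hx2b hw0 hYS hw1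
  have hexp : Real.exp (MFs (datO I P O).s p n + (datO I P O).En +
      ((7 / 3 + 2 * ε') * TW ep e1 m + 12 / 5 * Y + 6 * (r + G : ℕ) +
        C * (1 + (N1 + x2 * win univ fun i => ht (O i))) +
        x * (win univ (hts O g) + 1 + Real.log m) + 1)) ≤
      Real.exp (C * (1 + N1) + x * (1 + 2 * (G : ℝ) ^ 2) + 6 * G + 1) * ((m : ℝ) ^ (7 / 8 + 2 * (ep + e1) + δ / 2) *
        Real.exp (confC ep e1 m I P p n 6 kap O T1)) := by
    rw [Real.rpow_def_of_pos hmp, ← Real.exp_add, ← Real.exp_add]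
    refine Real.exp_le_exp.2 ?_
    unfold confC
    rw [← hT', ← hL]
    have h2 : MFs (datO I P O).s p n = MFs I.s p n := rfl
    rw [h2]
    push_cast
    linarith
  have hpow : (m : ℝ) ^ (7 / 8 + 2 * (ep + e1) + δ / 2) * (m : ℝ) ^ (-(1 / 2 : ℝ) + (ε' + e1)) ≤
      (m : ℝ) ^ (3 / 8 + 3 * (ep + e1) + δ) := by
    rw [← Real.rpow_add hmp]
    refine Real.rpow_le_rpow_of_exponent_le (by linarith) ?_
    linarith
  have hp1 : 0 ≤ (m : ℝ) ^ (-(1 / 2 : ℝ) + (ε' + e1)) := (Real.rpow_pos_of_pos hmp _).le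
  have hp2 : 0 ≤ (m : ℝ) ^ (7 / 8 + 2 * (ep + e1) + δ / 2) := (Real.rpow_pos_of_pos hmp _).le
  calc C' * ((p.factorial : ℝ) * n.factorial * Real.exp (MFs (datO I P O).s p n +
      (datO I P O).En + ((7 / 3 + 2 * ε') * TW ep e1 m + 12 / 5 * Y + 6 * (r + G : ℕ) +
        C * (1 + (N1 + x2 * win univ fun i => ht (O i))) +
        x * (win univ (hts O g) + 1 + Real.log m) + 1)) *
      (1 + shF D q (7 / 3 + 2 * ε') (T0i (TW ep e1 m) Y A (r + G) m))) *
        (m : ℝ) ^ (-(1 / 2 : ℝ) + (ε' + e1))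
      ≤ C' * ((p.factorial : ℝ) * n.factorial * (Real.exp (C * (1 + N1) +
        x * (1 + 2 * (G : ℝ) ^ 2) + 6 * G + 1) *
        ((m : ℝ) ^ (7 / 8 + 2 * (ep + e1) + δ / 2) *
        Real.exp (confC ep e1 m I P p n 6 kap O T1))) * ((1 + S) * (1 + NUSea.H0.shC))) *
        (m : ℝ) ^ (-(1 / 2 : ℝ) + (ε' + e1)) := by gcongr
    _ = (p.factorial : ℝ) * n.factorial * (C' * Real.exp (C * (1 + N1) +
        x * (1 + 2 * (G : ℝ) ^ 2) + 6 * G + 1) * (1 + NUSea.H0.shC) *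
        ((m : ℝ) ^ (7 / 8 + 2 * (ep + e1) + δ / 2) * (m : ℝ) ^ (-(1 / 2 : ℝ) + (ε' + e1))) * (1 + S) *
        Real.exp (confC ep e1 m I P p n 6 kap O T1)) := by ring
    _ ≤ (p.factorial : ℝ) * n.factorial * (C' * Real.exp (C * (1 + N1) +
        x * (1 + 2 * (G : ℝ) ^ 2) + 6 * G + 1) * (1 + NUSea.H0.shC) *
        (m : ℝ) ^ (3 / 8 + 3 * (ep + e1) + δ) * (1 + S) *
        Real.exp (confC ep e1 m I P p n 6 kap O T1)) := by gcongr
    _ = _ := by ring

/-- **unconditional** -/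
theorem gasSharpC : GasSharpC := gasSharpC_of instC

end PBS
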