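import Pool.Agent.PB.TopR
import Pool.Agent.PB.S4R0
import Pool.Agent.PotH.S4M


/-!
# Plan B: the gas with a statistic for a geometry with near groups (`S4I`) from the chain `PotH`

* `StatFam A0 ok Φ`: a family of statistics: polynomial bound everywhere, admissible (`StatM`) in the
  sharp range with the price `m ^ ε`, for every `ε > 0` and every constant `Cg`; `statFam_one`;
* **`s4K_of : GOk G → S4M → (StatFam A0 → S4K (K + A0) Ca)`**, `K`, `Ca` independent of the statistic;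
  `s4K`, `s4I_of`.
-/

set_option autoImplicit false
set_option linter.unusedSectionVars false

noncomputable section

open MeasureTheory Finset Filter Topology
open scoped ENNReal

namespace PBI

open NUGC PBO PBF PotH
open NUO NUP1 NUStabP NUDispW
open NUSea.H0 (Gd)

variable [NUSea.Sea]

/-- **a family of statistics** -/
structure StatFam (A0 : ℝ) {ι : Type*} (ok : ℕ → ι → Prop) (Φ : ι → ℕ → ℕ → InsE) : Prop where
  /-- the exponent -/
  hA0 : 0 ≤ A0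
  /-- the polynomial bound -/
  poly : ∃ m0 : ℕ, ∀ m ≥ m0, ∀ i : ι, ok m i → ∀ N ≤ 2 * m, ∀ (r : ℕ) (O : Fin r → Xo) (a b : ℕ)
    (y : (Fin a → ℝ) × (Fin b → ℝ)), r ≤ 2 * N + 6 → a ≤ N + 3 → b ≤ N + 3 →
    Φ i m N r O a b y ≤ ENNReal.ofReal (Real.exp (A0 * Real.log m))
  /-- the sharp range -/
  sharp : ∀ Cg : ℝ, 1 ≤ Cg → ∀ ε : ℝ, 0 < ε → ∃ m0 : ℕ, ∀ m ≥ m0, ∀ i : ι, ok m i →
    ∀ N ≤ 2 * m, ∀ (r : ℕ) (O : Fin r → Xo) (a b : ℕ), |(m : ℝ) - N| ≤ Real.log m ^ 3 + 2 →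
    (r : ℝ) + 2 ≤ Real.log m → (∀ i, |ht (O i)| ≤ Real.log m ^ 2) → a ≤ N + 3 → b ≤ N + 3 →
    ∃ A : ℝ, StatM Cg m a b A ((m : ℝ) ^ ε) (Φ i m N r O a b)

/-- no statistic -/
theorem statFam_one {ι : Type*} (ok : ℕ → ι → Prop) :
    StatFam 0 ok (fun _ _ _ _ _ _ _ _ => (1 : ℝ≥0∞)) where
  hA0 := le_rfl
  poly := ⟨0, fun m _ i _ N _ r O a b y _ _ _ => by simp⟩
  sharp Cg hCg ε hε := by
    obtain ⟨M, hM⟩ := Filter.eventually_atTop.1
      (((tendsto_rpow_atTop hε).comp tendsto_natCast_atTop_atTop).eventually_ge_atTop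
        (2 : ℝ))
    refine ⟨M, fun m hm i _ N _ r O a b _ _ _ _ _ => ⟨1, ?_⟩⟩
    have h1 : StatM Cg m a b 1 2 (fun _ => (1 : ℝ≥0∞)) := PBZ.StatOK.one (by positivity)
    exact h1.mono le_rfl (hM m hm) measurable_const fun _ => le_rfl

/-- **the gas with a statistic**, the constants are independent of the statistic -/
theorem s4K_of {G : Geo} (hG : GOk G) (h4 : S4M) :
    ∃ K Ca : ℝ, 0 ≤ K ∧ 0 ≤ Ca ∧ ∀ (A0 : ℝ) (ι : Type*) (ok : ℕ → ι → Prop)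
      (Φ : ι → ℕ → ℕ → InsE), StatFam A0 ok Φ → S4K G ok Φ (K + A0) Ca := by
  obtain ⟨B0, N0, hB0, hN0, henv⟩ := hG.env
  obtain ⟨K, Ca, hK, hCa, h4⟩ := h4 B0 N0 hB0 hN0
  obtain ⟨K1, hK1, hone⟩ := hG.one
  obtain ⟨CP, hCP, hpref⟩ := hG.pref_le
  refine ⟨K + K1, Ca + 1, by linarith, by linarith, ?_⟩
  intro A0 ι ok Φ hst kap hkap ep hep hep1 e1 he1 he11 J hJ δ hδ
  obtain ⟨Cc, C0, hCc, hC0, CL, m1, henv⟩ := henv ep hep hep1 e1 he1 he11 J hJ
  obtain ⟨m3, hone⟩ := hone ep hep hep1 e1 he1 he11 J hJ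
  obtain ⟨d, Cst, Cg, hd, hCst, hCg, M0, h4⟩ := h4 A0 hst.hA0 kap hkap ep hep hep1 e1 he1 he11 Cc C0
    hCc hC0 (δ / 2) (by linarith)
  obtain ⟨M2, hpoly⟩ := hst.poly
  obtain ⟨M3, hsharp⟩ := hst.sharp Cg hCg (δ / 2) (by linarith)
  refine ⟨d, Cst * Real.exp (CP + CL), hd, by positivity,
    max (max M0 m1) (max (max M2 M3) m3), ?_⟩
  intro m hm n g aX aY ν N b' r O hb' hR hnear i hok
  simp only [ge_iff_le, max_le_iff] at hm
  obtain ⟨⟨g0, g1⟩, ⟨g2, g3⟩, g4⟩ := hm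
  obtain ⟨hm1, hT, cr, Bc, Bc', H, H', hE, hlin⟩ := henv m g1
  have hmp : (0 : ℝ) < m := by exact_mod_cast hm1
  have hm1' : (1 : ℝ) ≤ m := by exact_mod_cast hm1
  have hb : |b'| ≤ d := by
    rcases hb' with h | h
    · rw [h, abs_of_pos hd]
    · rw [h, abs_neg, abs_of_pos hd]
  have hRH : RgH ep e1 m g aX aY ν N O 0 0 :=
    { n2 := hR.n2, sp := hR.sp, ax := hR.ax, ay := hR.ay, q := hR.q
      nu := hR.nu.trans (by norm_num), hN := hR.hN.trans (by omega), hr := hR.hr, hc1 := hR.hc1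
      hc2 := hR.hc2, E0 := le_rfl, hE := hR.hE, x0 := le_rfl, hx := hR.hx }
  have hN := hR.hN
  have hax := hR.ax
  have hay := hR.ay
  have hr6 : r ≤ 2 * N + 6 := by
    have := hR.hr
    omega
  have ha3 : N + aX - chgO O true ≤ N + 3 := by omega
  have hb3 : N + aY - chgO O false ≤ N + 3 := by omega
  have hnear2 : ∀ i, |(g i).τ| ≤ Real.log m ^ 2 := fun i =>
    (hnear i).trans (PBO.TW_le_sq hep1 he11 hT)
  have key := h4 m g0 n (etaC e1 J m m) (etaC' e1 J m m) cr Bc Bc' H H'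
    ((G.B m (4 / 3 * (1 - ep))).mul (spF g)) g (hE n g d hd.le) aX aY ν N b' r O 0 0 hb hRH
    (Φ i m N r O (N + aX - chgO O true) (N + aY - chgO O false)) 1 ((m : ℝ) ^ (δ / 2)) zero_le_one
    (Real.one_le_rpow hm1' (by linarith))
    (fun y => by
      rw [one_mul]
      exact hpoly m g2 i hok N hN r O _ _ y hr6 ha3 hb3)
    (fun _ hnu hr hht => by
      rw [one_mul]
      refine hsharp m g3 i hok N hN r O _ _ ?_ hr hht ha3 hb3
      have h1 := hR.nu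
      rw [abs_le] at hnu h1 ⊢
      constructor <;> linarith [hnu.1, hnu.2, h1.1, h1.2])
  rw [if_pos hnear2] at key
  refine le_trans (le_of_eq ?_) (key.trans (ENNReal.ofReal_le_ofReal ?_))
  · rfl
  -- the numbers
  have hT1 : (1 - e1) * Tb (Real.log m) ≤ T1H ep e1 m O 0 :=
    (PBO.TW_geR hep he1 hT).trans (TW_le ep e1 m O le_rfl).1
  have hlin := hlin n g _ hT1
  have hconf := confEH_le (G := G) (K := K + A0) (kap := kap) O fun i => hone m g4 r O i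
  have hen : enH m g O (T1H ep e1 m O 0) (N + aX - chgO O true) (N + aY - chgO O false) =
      enR m g O (T1R ep e1 m O 0) (N + aX - chgO O true) (N + aY - chgO O false) := rfl
  rw [hen]
  obtain ⟨EN, hEN⟩ : ∃ EN, EN = enR m g O (T1R ep e1 m O 0) (N + aX - chgO O true)
    (N + aY - chgO O false) := ⟨_, rfl⟩
  rw [← hEN]
  have hp := hpref m n g hR.n2
  obtain ⟨CF, hCF⟩ : ∃ CF, CF = confEH m (etaC e1 J m m) (TW ep e1 m) (K + A0) kap O + EN :=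
    ⟨_, rfl⟩
  obtain ⟨CR, hCR⟩ : ∃ CR, CR = confR G m ep e1 J (K + A0 + K1) kap O + EN := ⟨_, rfl⟩
  have hc : CF ≤ CR := by
    rw [hCF, hCR]
    linarith
  have hpa := pref_alg (G := G) hm1 (g := g) (E := 0) (x := 0) (F1 := 1) (F2 := 1)
    (a := Ca * (ep + e1) + δ / 2) (a' := Ca * (ep + e1) + δ / 2 + (ep + e1)) hCst le_rfl zero_le_one
    hp hlin hc (by linarith)
  have e2 : K + K1 + A0 = K + A0 + K1 := by ring
  rw [e2, ← hCR]
  have e3 : confEH m (etaC e1 J m m) (TW ep e1 m) (K + A0) kap O +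
      linH (etaC e1 J m m) (etaC' e1 J m m) m g (T1H ep e1 m O 0) H + EN =
      CF + linH (etaC e1 J m m) (etaC' e1 J m m) m g (T1H ep e1 m O 0) H := by
    rw [hCF]
    ring
  rw [e3, one_mul]
  have hpow : (m : ℝ) ^ ((Ca + 1) * (ep + e1) + δ) =
      (m : ℝ) ^ (δ / 2) * (m : ℝ) ^ (Ca * (ep + e1) + δ / 2 + (ep + e1)) := by
    rw [← Real.rpow_add hmp]
    congr 1
    ring
  rw [hpow]
  have e4 : 3 / 8 + Ca * (ep + e1) + δ / 2 = 3 / 8 + (Ca * (ep + e1) + δ / 2) := by ring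
  rw [e4]
  have hm0 : 0 ≤ (m : ℝ) ^ (δ / 2) := by positivity
  refine (mul_le_mul_of_nonneg_left hpa hm0).trans (le_of_eq ?_)
  ring

/-- **the gas with a statistic**, unconditional -/
theorem s4K {G : Geo} (hG : GOk G) :
    ∃ K Ca : ℝ, 0 ≤ K ∧ 0 ≤ Ca ∧ ∀ (A0 : ℝ) (ι : Type*) (ok : ℕ → ι → Prop)
      (Φ : ι → ℕ → ℕ → InsE), StatFam A0 ok Φ → S4K G ok Φ (K + A0) Ca :=
  s4K_of hG PotH.s4M

theorem s4I_of {G : Geo} (hG : GOk G) (h4 : S4M) {A0 : ℝ} {ι : Type*}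
    {ok : ℕ → ι → Prop} {Φ : ι → ℕ → ℕ → InsE} (hst : StatFam A0 ok Φ) : S4I G ok Φ := by
  obtain ⟨K, Ca, hK, hCa, H⟩ := s4K_of hG h4
  exact ⟨K + A0, Ca, by have := hst.hA0; positivity, hCa, H _ _ _ _ hst⟩

end PBI

end
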