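import Pool.Agent.NUKer.Pair
import Pool.Agent.NUKer.Q

/-!
# Plan B: the quadratic kernels of the Ward identity are superpositions of exponentials

Displaced paths `t + D t`, `t' + D' t'`, a field `X` along the first path (`X'` along the second):
the kernels `(X t - X t') coth z`, `(X t - X' t') sinh 2z / (cosh 2z - c)` (`c < 1`), where
`z = (t + D t) - (t' + D' t')`, belong to `KC`; the first one is continued to the diagonal.
-/

set_option autoImplicit false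

open Complex Finset Filter MeasureTheory NUKer
open scoped Topology

namespace PBK

variable {R Λ lam : ℝ} {κ : ℝ → ℝ → ℂ}

/-- inverse -/
theorem KC_inv (h : KC R Λ κ) (hΛ : Λ ≤ 1 / 2) : KC R 2 (fun t t' => (1 + κ t t')⁻¹) := by
  have h0 := h.nonneg
  have hL : Λ < 1 := by linarith
  have hg := hasSum_geometric_of_lt_one h0 hL
  have e : (fun n : ℕ => ‖((-1 : ℂ)) ^ n‖ * Λ ^ n) = fun n => Λ ^ n := by
    funext n
    rw [norm_pow, norm_neg, norm_one, one_pow, one_mul]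
  have h1 := h.series (u := fun n => (-1 : ℂ) ^ n) (by rw [e]; exact hg.summable)
  rw [e, hg.tsum_eq] at h1
  have h2 : (1 - Λ)⁻¹ ≤ 2 := by
    rw [inv_le_comm₀ (by linarith) (by norm_num)]
    norm_num
    linarith
  refine (h1.mono h2).congr fun t t' ht ht' => ?_
  have hb := h.bound ht ht'
  have e2 : (fun n : ℕ => (-1 : ℂ) ^ n * κ t t' ^ n) = fun n => (-κ t t') ^ n := by
    funext n
    rw [← mul_pow]
    congr 1
    ring
  rw [e2, tsum_geometric_of_norm_lt_one (by rw [norm_neg]; linarith), sub_neg_eq_add]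

/-- `x` itself -/
theorem exists_id : ∃ K : ℝ, 0 < K ∧ ∀ A : ℝ, 1 ≤ A → KC1 A (K * A ^ 4) (fun x => (x : ℂ)) := by
  obtain ⟨K, hK, h⟩ := exists_KC1
  refine ⟨2 * K, by positivity, fun A hA => ?_⟩
  have h1 := h A hA (fun x => (x : ℂ)) (fun _ => 1) (fun _ => 0) (fun _ => 0)
    (fun x => by simpa using (hasDerivAt_id x).ofReal_comp) (fun x => hasDerivAt_const _ _)
    (fun x => hasDerivAt_const _ _) continuous_const (2 * A)
    (fun x hx => by simpa using hx) (fun x _ => by simp; linarith) (fun x _ => by simp; linarith)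
    (fun x _ => by simp; linarith)
  exact h1.mono (le_of_eq (by ring))

/-! ### the kernel of `cosh 2z - c` -/

/-- `sinh 2z / (cosh 2z - c)`, `z = (t + D t) - (t' + D' t')` -/
noncomputable def Sd (c : ℝ) (D D' : ℝ → ℂ) (t t' : ℝ) : ℂ :=
  Complex.sinh (2 * ((t + D t) - (t' + D' t'))) / (Complex.cosh (2 * ((t + D t) - (t' + D' t'))) - c)

theorem Sd_eq {c : ℝ} (hc : c < 1) (D D' : ℝ → ℂ) (t t' : ℝ) :
    Sd c D D' t t' = ((Complex.cosh (2 * (D t - D' t')) - 1) * fS c (t - t') + fS c (t - t') +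
      Complex.sinh (2 * (D t - D' t')) * fC c (t - t')) * (1 + Yc c D D' t t')⁻¹ := by
  unfold Sd
  rw [den_mul hc, div_mul_eq_div_div, div_eq_mul_inv]
  congr 1
  have h0 : (Real.cosh (2 * (t - t')) - c : ℝ) ≠ 0 := by
    have := den_ge (c := c) (t - t')
    linarith
  have h0' : (((Real.cosh (2 * (t - t')) - c : ℝ)) : ℂ) ≠ 0 := by exact_mod_cast h0
  have e1 : (2 * (((t : ℂ) + D t) - (t' + D' t'))) =
      ((2 * (t - t') : ℝ) : ℂ) + 2 * (D t - D' t') := by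
    push_cast; ring
  rw [e1, Complex.sinh_add, ← Complex.ofReal_cosh, ← Complex.ofReal_sinh]
  unfold fC fS fE
  push_cast
  push_cast at h0'
  field_simp
  ring

/-- `Yc` itself is in `KC` -/
theorem exists_Yc {c : ℝ} (hc : c < 1) : ∃ K : ℝ, 1 ≤ K ∧ ∀ R : ℝ, 1 ≤ R → ∀ lam : ℝ,
    ∀ D D' : ℝ → ℂ, KC1 R lam D → KC1 R lam D' → K * R ^ 3 * lam ≤ 1 →
    KC R (1 / 2) (Yc c D D') ∧ KC R (K * R ^ 3) (Sd c D D') := by
  obtain ⟨K, hK0, hK⟩ := exists_CS hc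
  refine ⟨104000 * (K + 1), by nlinarith, fun R hR lam D D' hD hD' hsm => ?_⟩
  have hl := hD.nonneg
  have hR3 : 1 ≤ R ^ 3 := one_le_pow₀ hR
  have hl1 : lam ≤ 1 / 104000 := by
    have h1 : 104000 * lam ≤ 104000 * (K + 1) * R ^ 3 * lam := by
      have h2 : 1 ≤ (K + 1) * R ^ 3 := by nlinarith
      nlinarith
    linarith
  obtain ⟨hC, hS⟩ := hK (2 * R) (by linarith)
  have hC2 := hC.diff
  have hS2 := hS.diff
  have hz : KC R (4 * lam) (fun t t' => 2 * (D t - D' t')) := by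
    have h1 := (hD.left.sub hD'.right).smul 2
    refine h1.mono (le_of_eq ?_)
    rw [show ‖(2 : ℂ)‖ = 2 by simp]
    ring
  have he : Real.exp (4 * lam) ≤ 81 := (Real.exp_le_exp.2 (by linarith)).trans exp_four_le
  have hE := Real.exp_pos (4 * lam)
  have h3 : (4 * lam) ^ 2 ≤ 16 * lam := by nlinarith
  have h2 := (hz.cosh_sub_one.mul hC2).add (hz.sinh.mul hS2)
  obtain ⟨M, hM⟩ : ∃ M : ℝ, M = (4 * lam) ^ 2 * Real.exp (4 * lam) * (2 * (K * (2 * R) ^ 3)) +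
      4 * lam * Real.exp (4 * lam) * (2 * (K * (2 * R) ^ 3)) := ⟨_, rfl⟩
  have hMb : M ≤ 25920 * (K * R ^ 3 * lam) := by
    calc M = ((4 * lam) ^ 2 + 4 * lam) * Real.exp (4 * lam) * (16 * (K * R ^ 3)) := by
          rw [hM]; ring
      _ ≤ (20 * lam) * 81 * (16 * (K * R ^ 3)) := by
          have h4 : (4 * lam) ^ 2 + 4 * lam ≤ 20 * lam := by linarith
          have h5 : ((4 * lam) ^ 2 + 4 * lam) * Real.exp (4 * lam) ≤ (20 * lam) * 81 := by
            apply mul_le_mul h4 he hE.le (by positivity)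
          gcongr
      _ ≤ _ := by nlinarith [mul_nonneg (mul_nonneg hK0.le (by positivity : (0 : ℝ) ≤ R ^ 3)) hl]
  have h6 : K * R ^ 3 * lam ≤ 1 / 104000 := by
    rw [le_div_iff₀ (by norm_num)]
    have : K * R ^ 3 * lam * 104000 ≤ 104000 * (K + 1) * R ^ 3 * lam := by
      nlinarith [mul_nonneg (by positivity : (0 : ℝ) ≤ R ^ 3) hl]
    linarith
  have hM4 : M ≤ 1 / 2 := by linarith
  have h2' : KC R M (Yc c D D') := (h2.mono (le_of_eq hM.symm)).congr fun t t' _ _ => rfl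
  refine ⟨h2'.mono hM4, ?_⟩
  have h7 := KC_inv h2' hM4
  have h8 := (((hz.cosh_sub_one.mul hS2).add hS2).add (hz.sinh.mul hC2)).mul h7
  refine (h8.mono ?_).congr fun t t' _ _ => (Sd_eq hc D D' t t').symm
  have h9 : (4 * lam) ^ 2 * Real.exp (4 * lam) ≤ 1 := by
    calc (4 * lam) ^ 2 * Real.exp (4 * lam) ≤ 16 * lam * 81 := by
          apply mul_le_mul h3 he hE.le (by positivity)
      _ ≤ 1 := by linarith
  have h10 : 4 * lam * Real.exp (4 * lam) ≤ 1 := by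
    calc 4 * lam * Real.exp (4 * lam) ≤ 4 * lam * 81 := by gcongr
      _ ≤ 1 := by linarith
  have h11 : 0 ≤ 2 * (K * (2 * R) ^ 3) := by positivity
  have h12 : ((4 * lam) ^ 2 * Real.exp (4 * lam) * (2 * (K * (2 * R) ^ 3)) + 2 * (K * (2 * R) ^ 3) +
      4 * lam * Real.exp (4 * lam) * (2 * (K * (2 * R) ^ 3))) * 2 ≤
      (1 * (2 * (K * (2 * R) ^ 3)) + 2 * (K * (2 * R) ^ 3) + 1 * (2 * (K * (2 * R) ^ 3))) * 2 := by
    gcongr
  refine h12.trans ?_
  have : 0 ≤ R ^ 3 := by positivity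
  nlinarith

/-! ### the singular kernel -/

/-- `(X t - X t') coth z`, `z = (t + D t) - (t' + D t')`, continued to the diagonal -/
noncomputable def C0 (D D1 X1 : ℝ → ℂ) (t t' : ℝ) : ℂ :=
  qd X1 t t' * (xcoth (t - t') * (Complex.cosh (D t - D t') - 1) + xcoth (t - t') +
    (t - t' : ℝ) * Complex.sinh (D t - D t')) * (1 + Y0 D D1 t t')⁻¹

theorem C0_diag (D D1 X1 : ℝ → ℂ) (t : ℝ) : C0 D D1 X1 t t = X1 t * (1 + D1 t)⁻¹ := by
  unfold C0
  rw [Y0_diag, qd_diag, sub_self, xcoth_zero, sub_self, Complex.cosh_zero]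
  simp

theorem C0_eq {D D1 X X1 : ℝ → ℂ} (hD : ∀ x, HasDerivAt D (D1 x) x) (hc : Continuous D1)
    (hX : ∀ x, HasDerivAt X (X1 x) x) (hXc : Continuous X1) {t t' : ℝ} (h : t ≠ t') :
    C0 D D1 X1 t t' = (X t - X t') *
      (Complex.cosh ((t + D t) - (t' + D t')) / Complex.sinh ((t + D t) - (t' + D t'))) := by
  have hu : t - t' ≠ 0 := sub_ne_zero.2 h
  have hs : Real.sinh (t - t') ≠ 0 := by rwa [Ne, Real.sinh_eq_zero]
  have hs' : ((Real.sinh (t - t') : ℝ) : ℂ) ≠ 0 := by exact_mod_cast hs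
  have e1 : (((t : ℂ) + D t) - (t' + D t')) = ((t - t' : ℝ) : ℂ) + (D t - D t') := by
    push_cast; ring
  rw [sub_eq_qd hX hXc t t', sinh_mul hD hc, e1, Complex.cosh_add, ← Complex.ofReal_cosh,
    ← Complex.ofReal_sinh, div_mul_eq_div_div, div_eq_mul_inv _ (1 + Y0 D D1 t t')]
  unfold C0
  rw [xcoth_eq hu]
  have e2 : (((t - t') * (Real.cosh (t - t') / Real.sinh (t - t')) : ℝ) : ℂ) =
      ((t - t' : ℝ) : ℂ) * (((Real.cosh (t - t') : ℝ) : ℂ) / ((Real.sinh (t - t') : ℝ) : ℂ)) := by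
    push_cast; ring
  rw [e2]
  field_simp
  ring

theorem exists_C0 : ∃ K : ℝ, 1 ≤ K ∧ ∀ R : ℝ, 1 ≤ R → ∀ lam : ℝ,
    ∀ D D1 : ℝ → ℂ, KC1 R lam D → KC1 R lam D1 → K * R ^ 4 * lam ≤ 1 →
    ∀ (M : ℝ) (X1 : ℝ → ℂ), KC1 R M X1 → KC R (K * R ^ 4 * M) (C0 D D1 X1) := by
  obtain ⟨K, hK0, hK⟩ := exists_xcoth
  obtain ⟨K2, hK2, hI⟩ := exists_id
  refine ⟨1000 * (K + 1) + 8 * (K + K2) + 8, by nlinarith,
    fun R hR lam D D1 hD hD1 hsm M X1 hX1 => ?_⟩
  have hl := hD.nonneg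
  have hM0 := hX1.nonneg
  have hR4 : 1 ≤ R ^ 4 := one_le_pow₀ hR
  have hsm' : 1000 * (K + 1) * R ^ 4 * lam ≤ 1 := by
    refine le_trans ?_ hsm
    have h1 : 0 ≤ R ^ 4 * lam := by positivity
    nlinarith
  have hl1 : lam ≤ 1 / 1000 := by
    have h1 : 1000 * lam ≤ 1000 * (K + 1) * R ^ 4 * lam := by
      have h2 : 1 ≤ (K + 1) * R ^ 4 := by nlinarith
      nlinarith
    linarith
  have hz : KC R (2 * lam) (fun t t' => D t - D t') := by
    have h1 := (hD.left.sub hD.right)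
    exact h1.mono (le_of_eq (by ring))
  have hq := hD1.qd (by linarith : 0 ≤ R)
  have h2 := hz.cosh_sub_one.add (((hK R hR).mul hq).mul hz.shc)
  have he : Real.exp (2 * lam) ≤ 3 := (Real.exp_le_exp.2 (by linarith)).trans exp_one_le
  have hE := Real.exp_pos (2 * lam)
  have h3 : (2 * lam) ^ 2 ≤ lam := by nlinarith
  obtain ⟨m, hm⟩ : ∃ m : ℝ, m = (2 * lam) ^ 2 * Real.exp (2 * lam) +
      K * R ^ 4 * lam * Real.exp (2 * lam) := ⟨_, rfl⟩
  have hmb : m ≤ 3 * (K + 1) * R ^ 4 * lam := by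
    have h8 : 0 ≤ K * R ^ 4 * lam := by positivity
    calc m = ((2 * lam) ^ 2 + K * R ^ 4 * lam) * Real.exp (2 * lam) := by
          rw [hm]; ring
      _ ≤ (lam + K * R ^ 4 * lam) * 3 := by
          apply mul_le_mul (by linarith) he hE.le (by positivity)
      _ ≤ _ := by nlinarith
  have hm4 : m ≤ 1 / 2 := by nlinarith
  have h2' : KC R m (Y0 D D1) := (h2.mono (le_of_eq hm.symm)).congr fun t t' _ _ => rfl
  have h7 := KC_inv h2' hm4
  have hqX := hX1.qd (by linarith : 0 ≤ R)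
  have hid := (hI R hR)
  have hdif : KC R (K2 * R ^ 4 + K2 * R ^ 4) (fun t t' => ((t - t' : ℝ) : ℂ)) :=
    (hid.left.sub hid.right).congr fun t t' _ _ => by push_cast; ring
  have h8 := (hqX.mul ((((hK R hR).mul hz.cosh_sub_one).add (hK R hR)).add
    (hdif.mul hz.sinh))).mul h7
  refine (h8.mono ?_).congr fun t t' _ _ => rfl
  have h9 : (2 * lam) ^ 2 * Real.exp (2 * lam) ≤ 1 := by
    calc (2 * lam) ^ 2 * Real.exp (2 * lam) ≤ lam * 3 := by
          apply mul_le_mul h3 he hE.le (by positivity)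
      _ ≤ 1 := by linarith
  have h10 : 2 * lam * Real.exp (2 * lam) ≤ 1 := by
    calc 2 * lam * Real.exp (2 * lam) ≤ 2 * lam * 3 := by gcongr
      _ ≤ 1 := by linarith
  have h11 : 0 ≤ K * R ^ 4 := by positivity
  have h12 : 0 ≤ K2 * R ^ 4 := by positivity
  have h13 : M * (K * R ^ 4 * ((2 * lam) ^ 2 * Real.exp (2 * lam)) + K * R ^ 4 +
      (K2 * R ^ 4 + K2 * R ^ 4) * (2 * lam * Real.exp (2 * lam))) * 2 ≤
      M * (K * R ^ 4 * 1 + K * R ^ 4 + (K2 * R ^ 4 + K2 * R ^ 4) * 1) * 2 := by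
    gcongr
  refine h13.trans ?_
  have h14 : 0 ≤ R ^ 4 * M := by positivity
  nlinarith

/-! ### the kernels of `w` and `g` -/

/-- `(log w)'` at a complex point -/
noncomputable def Kwc (z : ℂ) : ℂ := 2 * Complex.sinh (2 * z) / (Complex.cosh (2 * z) - 1) +
  2 * Complex.sinh (2 * z) / Complex.cosh (2 * z) -
    2 * Complex.sinh (2 * z) / (Complex.cosh (2 * z) - (NUMF.r : ℝ))

/-- `(log g)'` at a complex point -/
noncomputable def Kgc (z : ℂ) : ℂ := 2 * Complex.sinh (2 * z) / (Complex.cosh (2 * z) + 1) -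
  4 * Complex.sinh (2 * z) / (Complex.cosh (2 * z) + (NUMF.r : ℝ))

/-- `(X t - X t') (log w)' (z t - z t')`, continued to the diagonal -/
noncomputable def qw (D D1 X X1 : ℝ → ℂ) (t t' : ℝ) : ℂ :=
  2 * C0 D D1 X1 t t' + (X t - X t') * (2 * Sd 0 D D t t' - 2 * Sd NUMF.r D D t t')

/-- `(X t - X' t') (log g)' (z t - z' t')` -/
noncomputable def qg (D D' X X' : ℝ → ℂ) (t t' : ℝ) : ℂ :=
  (X t - X' t') * (2 * Sd (-1) D D' t t' - 4 * Sd (-NUMF.r) D D' t t')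

theorem coth_two (z : ℂ) : Complex.cosh z / Complex.sinh z =
    Complex.sinh (2 * z) / (Complex.cosh (2 * z) - 1) := by
  rw [Complex.sinh_two_mul, Complex.cosh_two_mul, Complex.cosh_sq]
  rcases eq_or_ne (Complex.sinh z) 0 with h | h
  · rw [h]
    simp
  · have h2 : (Complex.sinh z) ^ 2 + 1 + Complex.sinh z ^ 2 - 1 = 2 * Complex.sinh z ^ 2 := by ring
    rw [h2]
    field_simp

theorem qw_diag (D D1 X X1 : ℝ → ℂ) (t : ℝ) : qw D D1 X X1 t t = 2 * X1 t * (1 + D1 t)⁻¹ := by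
  unfold qw
  rw [C0_diag, sub_self, zero_mul, add_zero, mul_assoc]

theorem qw_eq {D D1 X X1 : ℝ → ℂ} (hD : ∀ x, HasDerivAt D (D1 x) x) (hc : Continuous D1)
    (hX : ∀ x, HasDerivAt X (X1 x) x) (hXc : Continuous X1) {t t' : ℝ} (h : t ≠ t') :
    qw D D1 X X1 t t' = (X t - X t') * Kwc ((t + D t) - (t' + D t')) := by
  unfold qw
  rw [C0_eq hD hc hX hXc h, coth_two]
  unfold Sd Kwc
  push_cast
  ring

theorem qg_eq (D D' X X' : ℝ → ℂ) (t t' : ℝ) :
    qg D D' X X' t t' = (X t - X' t') * Kgc ((t + D t) - (t' + D' t')) := by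
  unfold qg Sd Kgc
  push_cast
  ring

theorem exists_qw : ∃ K : ℝ, 1 ≤ K ∧ ∀ R : ℝ, 1 ≤ R → ∀ lam : ℝ,
    ∀ D D1 : ℝ → ℂ, KC1 R lam D → KC1 R lam D1 → K * R ^ 4 * lam ≤ 1 →
    ∀ (M : ℝ) (X X1 : ℝ → ℂ), KC1 R M X → KC1 R M X1 → KC R (K * R ^ 4 * M) (qw D D1 X X1) := by
  obtain ⟨K0, k0, h0⟩ := exists_C0
  obtain ⟨K1, k1, h1⟩ := exists_Yc (c := 0) one_pos
  obtain ⟨K2, k2, h2⟩ := exists_Yc r_lt
  refine ⟨2 * K0 + 4 * K1 + 4 * K2, by linarith, fun R hR lam D D1 hD hD1 hsm M X X1 hX hX1 => ?_⟩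
  have hl := hD.nonneg
  have hM := hX.nonneg
  have hR0 : 0 ≤ R := by linarith
  have hR3 : 0 ≤ R ^ 3 := by positivity
  have hR34 : R ^ 3 ≤ R ^ 4 := pow_le_pow_right₀ hR (by norm_num)
  have hR4 : 0 ≤ R ^ 4 := by positivity
  have s0 : K0 * R ^ 4 * lam ≤ 1 := by
    refine le_trans ?_ hsm
    gcongr
    linarith
  have s1 : K1 * R ^ 3 * lam ≤ 1 := by
    refine le_trans ?_ hsm
    gcongr
    linarith
  have s2 : K2 * R ^ 3 * lam ≤ 1 := by
    refine le_trans ?_ hsm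
    gcongr
    linarith
  have a0 := (h0 R hR lam D D1 hD hD1 s0 M X1 hX1).smul 2
  have a1 := (h1 R hR lam D D hD hD s1).2.smul 2
  have a2 := (h2 R hR lam D D hD hD s2).2.smul 2
  have a3 := (hX.left.sub hX.right).mul (a1.sub a2)
  have n2 : ‖(2 : ℂ)‖ = 2 := by simp
  rw [n2] at a0 a1 a2 a3
  refine ((a0.add a3).mono ?_).congr fun t t' _ _ => rfl
  have e1 : (M + M) * (2 * (K1 * R ^ 3) + 2 * (K2 * R ^ 3)) ≤
      (M + M) * (2 * (K1 * R ^ 4) + 2 * (K2 * R ^ 4)) := by gcongr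
  refine (add_le_add le_rfl e1).trans (le_of_eq ?_)
  ring

theorem exists_qg : ∃ K : ℝ, 1 ≤ K ∧ ∀ R : ℝ, 1 ≤ R → ∀ lam : ℝ,
    ∀ D D' : ℝ → ℂ, KC1 R lam D → KC1 R lam D' → K * R ^ 3 * lam ≤ 1 →
    ∀ (M : ℝ) (X X' : ℝ → ℂ), KC1 R M X → KC1 R M X' → KC R (K * R ^ 3 * M) (qg D D' X X') := by
  obtain ⟨K1, k1, h1⟩ := exists_Yc (c := -1) (by norm_num)
  obtain ⟨K2, k2, h2⟩ := exists_Yc (c := -NUMF.r) (by linarith [r_pos])
  refine ⟨4 * K1 + 8 * K2, by linarith, fun R hR lam D D' hD hD' hsm M X X' hX hX' => ?_⟩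
  have hl := hD.nonneg
  have hM := hX.nonneg
  have hR0 : 0 ≤ R := by linarith
  have hR3 : 0 ≤ R ^ 3 := by positivity
  have s1 : K1 * R ^ 3 * lam ≤ 1 := by
    refine le_trans ?_ hsm
    gcongr
    linarith
  have s2 : K2 * R ^ 3 * lam ≤ 1 := by
    refine le_trans ?_ hsm
    gcongr
    linarith
  have a1 := (h1 R hR lam D D' hD hD' s1).2.smul 2
  have a2 := (h2 R hR lam D D' hD hD' s2).2.smul 4
  have a3 := (hX.left.sub hX'.right).mul (a1.sub a2)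
  have n2 : ‖(2 : ℂ)‖ = 2 := by simp
  have n4 : ‖(4 : ℂ)‖ = 4 := by simp
  rw [n2, n4] at a3
  refine (a3.mono (le_of_eq ?_)).congr fun t t' _ _ => rfl
  ring

end PBK
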