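import Pool.Agent.PB.TailQ

/-!
# Plan B: the first Ward identity pointwise, positions in any type

The same as `PB/NormI1`, `PB/TailQ` for constituents at positions `z i : X` (for instance complex
heights), kinds `sp i : S`, densities `ρ b` on the line `e : ℝ → X`; field, step and charge depend
on the kind.

* `normI1`: `∑ (r1 + dξ + ξ (κ + lam)) + ∑_{pairs} a
    = ∑ b ∫ ρ r1 + ∑ Cv + nuQ a + ∑ ξ lam + ∑ (dξ - a(z,z)/2)`;
* `nuQ_add`, `nuQ_smul`, `nuQ_prod`, `nuQ_sq`, `nuQ_obj`;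
* `split_eq`: `(x - x') κ = plat + loc`, `norm_loc`: the bound of `loc`;
* `nuQ_charge`: all plateau parts together;
* `sgC`: the analytic step.
-/

set_option autoImplicit false
set_option linter.unusedSectionVars false

noncomputable section

open MeasureTheory Finset
open scoped Classical

namespace PB

namespace NX

section stat

variable {ι S X : Type*} [Fintype ι] [Fintype S]

/-- linear statistic -/
def nuL (e : ℝ → X) (sp : ι → S) (ρ : S → ℝ → ℂ) (g : S → X → ℂ) (z : ι → X) : ℂ :=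
  ∑ i, g (sp i) (z i) - ∑ b, ∫ u, ρ b u * g b (e u)

/-- the kernel smeared with the density -/
def smr (e : ℝ → X) (ρ : S → ℝ → ℂ) (a : S → S → X → X → ℂ) (b : S) (x : X) : ℂ :=
  ∑ c, ∫ u, a b c x (e u) * ρ c u

/-- the double integral of the kernel -/
def dbl (e : ℝ → X) (ρ : S → ℝ → ℂ) (a : S → S → X → X → ℂ) : ℂ :=
  ∑ b, ∫ s, ρ b s * smr e ρ a b (e s)

/-- quadratic statistic -/
def nuQ (e : ℝ → X) (sp : ι → S) (ρ : S → ℝ → ℂ) (a : S → S → X → X → ℂ) (z : ι → X) : ℂ :=
  (1 / 2) * ∑ i, ∑ j, a (sp i) (sp j) (z i) (z j) - ∑ i, smr e ρ a (sp i) (z i) +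
    (1 / 2) * dbl e ρ a

theorem nuL_real (sp : ι → S) (ρ g : S → ℝ → ℂ) (t : ι → ℝ) :
    nuL (fun u => u) sp ρ g t = PB.nuL sp ρ g t := rfl

theorem nuQ_real (sp : ι → S) (ρ : S → ℝ → ℂ) (a : S → S → ℝ → ℝ → ℂ) (t : ι → ℝ) :
    nuQ (fun u => u) sp ρ a t = PB.nuQ sp ρ a t := rfl

/-- the convective part of the row force and of the force of the sea -/
def Cv (e : ℝ → X) (ρ : S → ℝ → ℂ) (ξ κr r1 : S → X → ℂ) (a : S → S → X → X → ℂ) (b : S) (x : X) :
    ℂ := ξ b x * κr b x + smr e ρ a b x + r1 b x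

/-- **the pointwise normal form of the first Ward identity** -/
theorem normI1 {r : ι → ι → Prop} (hr : Tourn r) (e : ℝ → X) (sp : ι → S) {ρ : S → ℝ → ℂ}
    {ξ dξ κr r1 : S → X → ℂ} {lam : ι → X → ℂ} {a : S → S → X → X → ℂ}
    (has : ∀ b c s t, a b c s t = a c b t s)
    (hI1 : ∀ b, Integrable fun s => ρ b s * (ξ b (e s) * κr b (e s)))
    (hI2 : ∀ b, Integrable fun s => ρ b s * smr e ρ a b (e s))
    (hE : ∑ b, (∫ s, ρ b s * (ξ b (e s) * κr b (e s))) + (1 / 2) * dbl e ρ a = 0)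
    (hC : ∀ b s, ρ b s * Cv e ρ ξ κr r1 a b (e s) = 0) (z : ι → X) :
    (∑ k, (r1 (sp k) (z k) + (dξ (sp k) (z k) + ξ (sp k) (z k) *
      (κr (sp k) (z k) + lam k (z k))))) +
      ∑ p ∈ prs r, a (sp p.1) (sp p.2) (z p.1) (z p.2) =
    ∑ b, (∫ s, ρ b s * r1 b (e s)) + ∑ k, Cv e ρ ξ κr r1 a (sp k) (z k) + nuQ e sp ρ a z +
      ∑ k, ξ (sp k) (z k) * lam k (z k) +
      ∑ k, (dξ (sp k) (z k) - (1 / 2) * a (sp k) (sp k) (z k) (z k)) := by
  have h1 := sum_pairs hr (fun i j => a (sp i) (sp j) (z i) (z j)) fun i j => has _ _ _ _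
  have h2 : ∑ b, (∫ s, ρ b s * r1 b (e s)) =
      -(∑ b, (∫ s, ρ b s * (ξ b (e s) * κr b (e s))) + dbl e ρ a) := by
    unfold dbl
    rw [← Finset.sum_add_distrib, ← Finset.sum_neg_distrib]
    refine Finset.sum_congr rfl fun b _ => ?_
    rw [← integral_add (hI1 b) (hI2 b), ← integral_neg]
    refine integral_congr_ae (Filter.Eventually.of_forall fun s => ?_)
    have := hC b s
    simp only [Cv] at this
    simp only []
    linear_combination this
  have h4 : ∑ k, (r1 (sp k) (z k) + (dξ (sp k) (z k) + ξ (sp k) (z k) *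
      (κr (sp k) (z k) + lam k (z k)))) =
      ∑ k, Cv e ρ ξ κr r1 a (sp k) (z k) - ∑ k, smr e ρ a (sp k) (z k) +
        ∑ k, dξ (sp k) (z k) + ∑ k, ξ (sp k) (z k) * lam k (z k) := by
    rw [← Finset.sum_sub_distrib, ← Finset.sum_add_distrib, ← Finset.sum_add_distrib]
    exact Finset.sum_congr rfl fun k _ => by simp only [Cv]; ring
  rw [Finset.sum_sub_distrib, ← Finset.mul_sum, h4, h2]
  unfold nuQ
  rw [h1]
  linear_combination hE

/-! ### linearity and products -/

/-- integrability of a kernel against the densities -/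
structure QI (e : ℝ → X) (ρ : S → ℝ → ℂ) (a : S → S → X → X → ℂ) : Prop where
  one : ∀ b c x, Integrable fun u => a b c x (e u) * ρ c u
  two : ∀ b, Integrable fun s => ρ b s * smr e ρ a b (e s)

theorem smr_add {e : ℝ → X} {ρ : S → ℝ → ℂ} {a a' : S → S → X → X → ℂ}
    (h : ∀ b c x, Integrable fun u => a b c x (e u) * ρ c u)
    (h' : ∀ b c x, Integrable fun u => a' b c x (e u) * ρ c u) (b : S) (s : X) :
    smr e ρ (fun b c s u => a b c s u + a' b c s u) b s = smr e ρ a b s + smr e ρ a' b s := by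
  unfold smr
  rw [← Finset.sum_add_distrib]
  refine Finset.sum_congr rfl fun c _ => ?_
  rw [← integral_add (h b c s) (h' b c s)]
  refine integral_congr_ae (Filter.Eventually.of_forall fun u => ?_)
  simp only []
  ring

theorem smr_smul {e : ℝ → X} {ρ : S → ℝ → ℂ} {a : S → S → X → X → ℂ} (x : ℂ) (b : S) (s : X) :
    smr e ρ (fun b c s u => x * a b c s u) b s = x * smr e ρ a b s := by
  unfold smr
  rw [Finset.mul_sum]
  refine Finset.sum_congr rfl fun c _ => ?_
  rw [← integral_const_mul]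
  refine integral_congr_ae (Filter.Eventually.of_forall fun u => ?_)
  simp only []
  ring

theorem QI.add {e : ℝ → X} {ρ : S → ℝ → ℂ} {a a' : S → S → X → X → ℂ} (h : QI e ρ a)
    (h' : QI e ρ a') : QI e ρ (fun b c s u => a b c s u + a' b c s u) where
  one b c s := ((h.one b c s).add (h'.one b c s)).congr
    (Filter.Eventually.of_forall fun u => by simp only [Pi.add_apply]; ring)
  two b := ((h.two b).add (h'.two b)).congr (Filter.Eventually.of_forall fun s => by
    simp only [Pi.add_apply, smr_add h.one h'.one]; ring)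

theorem QI.smul {e : ℝ → X} {ρ : S → ℝ → ℂ} {a : S → S → X → X → ℂ} (h : QI e ρ a) (x : ℂ) :
    QI e ρ (fun b c s u => x * a b c s u) where
  one b c s := ((h.one b c s).const_mul x).congr
    (Filter.Eventually.of_forall fun u => by simp only []; ring)
  two b := ((h.two b).const_mul x).congr (Filter.Eventually.of_forall fun s => by
    simp only [smr_smul]; ring)

theorem nuQ_add {e : ℝ → X} (sp : ι → S) {ρ : S → ℝ → ℂ} {a a' : S → S → X → X → ℂ}
    (h : QI e ρ a) (h' : QI e ρ a') (z : ι → X) :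
    nuQ e sp ρ (fun b c s u => a b c s u + a' b c s u) z = nuQ e sp ρ a z + nuQ e sp ρ a' z := by
  have h1 : dbl e ρ (fun b c s u => a b c s u + a' b c s u) = dbl e ρ a + dbl e ρ a' := by
    unfold dbl
    rw [← Finset.sum_add_distrib]
    refine Finset.sum_congr rfl fun b _ => ?_
    rw [← integral_add (h.two b) (h'.two b)]
    refine integral_congr_ae (Filter.Eventually.of_forall fun u => ?_)
    simp only [smr_add h.one h'.one]
    ring
  unfold nuQ
  rw [h1]
  simp only [smr_add h.one h'.one, Finset.sum_add_distrib]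
  ring

theorem nuQ_smul (e : ℝ → X) (sp : ι → S) {ρ : S → ℝ → ℂ} {a : S → S → X → X → ℂ} (x : ℂ)
    (z : ι → X) :
    nuQ e sp ρ (fun b c s u => x * a b c s u) z = x * nuQ e sp ρ a z := by
  have h1 : dbl e ρ (fun b c s u => x * a b c s u) = x * dbl e ρ a := by
    unfold dbl
    rw [Finset.mul_sum]
    refine Finset.sum_congr rfl fun b _ => ?_
    rw [← integral_const_mul]
    refine integral_congr_ae (Filter.Eventually.of_forall fun u => ?_)
    simp only [smr_smul]
    ring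
  unfold nuQ
  rw [h1]
  simp only [smr_smul, ← Finset.mul_sum]
  ring

theorem smr_prod {e : ℝ → X} {ρ : S → ℝ → ℂ} (f g : S → X → ℂ)
    (hf : ∀ b, Integrable fun u => ρ b u * f b (e u))
    (hg : ∀ b, Integrable fun u => ρ b u * g b (e u)) (b : S) (s : X) :
    smr e ρ (fun b c s u => f b s * g c u + g b s * f c u) b s =
      f b s * ∑ c, (∫ u, ρ c u * g c (e u)) + g b s * ∑ c, ∫ u, ρ c u * f c (e u) := by
  unfold smr
  rw [Finset.mul_sum, Finset.mul_sum, ← Finset.sum_add_distrib]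
  refine Finset.sum_congr rfl fun c _ => ?_
  rw [← integral_const_mul, ← integral_const_mul,
    ← integral_add ((hg c).const_mul _) ((hf c).const_mul _)]
  refine integral_congr_ae (Filter.Eventually.of_forall fun u => ?_)
  simp only []
  ring

theorem QI.prod {e : ℝ → X} {ρ : S → ℝ → ℂ} {f g : S → X → ℂ}
    (hf : ∀ b, Integrable fun u => ρ b u * f b (e u))
    (hg : ∀ b, Integrable fun u => ρ b u * g b (e u)) :
    QI e ρ (fun b c s u => f b s * g c u + g b s * f c u) where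
  one b c s := (((hg c).const_mul (f b s)).add ((hf c).const_mul (g b s))).congr
    (Filter.Eventually.of_forall fun u => by simp only [Pi.add_apply]; ring)
  two b := (((hf b).mul_const (∑ c, ∫ u, ρ c u * g c (e u))).add
    ((hg b).mul_const (∑ c, ∫ u, ρ c u * f c (e u)))).congr
      (Filter.Eventually.of_forall fun s => by
        simp only [Pi.add_apply, smr_prod f g hf hg]; ring)

/-- product kernels -/
theorem nuQ_prod {e : ℝ → X} (sp : ι → S) {ρ : S → ℝ → ℂ} {f g : S → X → ℂ}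
    (hf : ∀ b, Integrable fun u => ρ b u * f b (e u))
    (hg : ∀ b, Integrable fun u => ρ b u * g b (e u)) (z : ι → X) :
    nuQ e sp ρ (fun b c s u => f b s * g c u + g b s * f c u) z =
      nuL e sp ρ f z * nuL e sp ρ g z := by
  have h1 : dbl e ρ (fun b c s u => f b s * g c u + g b s * f c u) =
      2 * ((∑ c, ∫ u, ρ c u * g c (e u)) * ∑ c, ∫ u, ρ c u * f c (e u)) := by
    unfold dbl
    have e1 : ∀ b, ∫ s, ρ b s * smr e ρ (fun b c s u => f b s * g c u + g b s * f c u) b (e s) =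
        (∫ s, ρ b s * f b (e s)) * (∑ c, ∫ u, ρ c u * g c (e u)) +
          (∫ s, ρ b s * g b (e s)) * ∑ c, ∫ u, ρ c u * f c (e u) := by
      intro b
      rw [← integral_mul_const, ← integral_mul_const,
        ← integral_add ((hf b).mul_const _) ((hg b).mul_const _)]
      refine integral_congr_ae (Filter.Eventually.of_forall fun u => ?_)
      simp only [smr_prod f g hf hg]
      ring
    simp only [e1]
    rw [Finset.sum_add_distrib, ← Finset.sum_mul, ← Finset.sum_mul]
    ring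
  have h2 : ∑ i, ∑ j, (f (sp i) (z i) * g (sp j) (z j) + g (sp i) (z i) * f (sp j) (z j)) =
      2 * ((∑ i, f (sp i) (z i)) * ∑ i, g (sp i) (z i)) := by
    have e1 : ∑ i, ∑ j, f (sp i) (z i) * g (sp j) (z j) =
        (∑ i, f (sp i) (z i)) * ∑ i, g (sp i) (z i) := by
      rw [Finset.sum_mul_sum]
    have e2 : ∑ i, ∑ j, g (sp i) (z i) * f (sp j) (z j) =
        (∑ i, g (sp i) (z i)) * ∑ i, f (sp i) (z i) := by
      rw [Finset.sum_mul_sum]
    simp only [Finset.sum_add_distrib]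
    rw [e1, e2]
    ring
  unfold nuQ nuL
  rw [h1, h2]
  simp only [smr_prod f g hf hg, Finset.sum_add_distrib, ← Finset.sum_mul]
  ring

theorem nuQ_sq {e : ℝ → X} (sp : ι → S) {ρ : S → ℝ → ℂ} {f : S → X → ℂ}
    (hf : ∀ b, Integrable fun u => ρ b u * f b (e u)) (z : ι → X) :
    nuQ e sp ρ (fun b c s u => f b s * f c u) z = (1 / 2) * nuL e sp ρ f z ^ 2 := by
  rw [sq, ← nuQ_prod sp hf hf z, ← nuQ_smul]
  congr 1
  funext b c s u
  ring

theorem QI.sq {e : ℝ → X} {ρ : S → ℝ → ℂ} {f : S → X → ℂ}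
    (hf : ∀ b, Integrable fun u => ρ b u * f b (e u)) :
    QI e ρ (fun b c s u => f b s * f c u) := by
  have h := (QI.prod hf hf).smul (1 / 2)
  have e1 : (fun (b c : S) (s u : X) => (1 / 2 : ℂ) * (f b s * f c u + f b s * f c u)) =
      fun b c s u => f b s * f c u := by
    funext b c s u
    ring
  rwa [e1] at h

/-! ### objects -/

/-- the kernel restricted to the kinds in `A` -/
def rA (A : S → Prop) (a : S → S → X → X → ℂ) (b c : S) (s u : X) : ℂ :=
  if A b ∧ A c then a b c s u else 0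

/-- **quanta-quanta, object-quanta and object-object parts** -/
theorem nuQ_obj (e : ℝ → X) (sp : ι → S) {ρ : S → ℝ → ℂ} {a : S → S → X → X → ℂ} (A : S → Prop)
    (hρ : ∀ b, ¬ A b → ∀ u, ρ b u = 0) (has : ∀ b c s t, a b c s t = a c b t s) (z : ι → X) :
    nuQ e sp ρ a z = nuQ e sp ρ (rA A a) z +
      ∑ i ∈ univ.filter (fun i => ¬ A (sp i)),
        nuL e sp ρ (fun c u => if A c then a (sp i) c (z i) u else 0) z +
      (1 / 2) * ∑ i ∈ univ.filter (fun i => ¬ A (sp i)), ∑ j ∈ univ.filter (fun i => ¬ A (sp i)),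
        a (sp i) (sp j) (z i) (z j) := by
  have hs : ∀ b s, A b → smr e ρ a b s = smr e ρ (rA A a) b s := by
    intro b s hb
    unfold smr
    refine Finset.sum_congr rfl fun c _ => ?_
    refine integral_congr_ae (Filter.Eventually.of_forall fun u => ?_)
    simp only [rA]
    by_cases hc : A c
    · simp [hb, hc]
    · simp [hρ c hc]
  have hs0 : ∀ b s, ¬ A b → smr e ρ (rA A a) b s = 0 := by
    intro b s hb
    unfold smr
    refine Finset.sum_eq_zero fun c _ => ?_
    simp [rA, hb]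
  have hd : dbl e ρ a = dbl e ρ (rA A a) := by
    unfold dbl
    refine Finset.sum_congr rfl fun b _ => ?_
    by_cases hb : A b
    · simp only [hs _ _ hb]
    · simp [hρ b hb]
  have e1 : ∑ i, smr e ρ a (sp i) (z i) = ∑ i, smr e ρ (rA A a) (sp i) (z i) +
      ∑ i ∈ univ.filter (fun i => ¬ A (sp i)), smr e ρ a (sp i) (z i) := by
    rw [Finset.sum_filter, ← Finset.sum_add_distrib]
    refine Finset.sum_congr rfl fun i _ => ?_
    by_cases hi : A (sp i)
    · simp [hi, hs _ _ hi]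
    · simp [hi, hs0 _ _ hi]
  have e2 : ∑ i ∈ univ.filter (fun i => ¬ A (sp i)),
        nuL e sp ρ (fun c u => if A c then a (sp i) c (z i) u else 0) z =
      ∑ i ∈ univ.filter (fun i => ¬ A (sp i)), ∑ j, (if A (sp j) then a (sp i) (sp j) (z i) (z j)
        else 0) - ∑ i ∈ univ.filter (fun i => ¬ A (sp i)), smr e ρ a (sp i) (z i) := by
    rw [← Finset.sum_sub_distrib]
    refine Finset.sum_congr rfl fun i _ => ?_
    unfold nuL smr
    congr 1
    refine Finset.sum_congr rfl fun c _ => ?_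
    refine integral_congr_ae (Filter.Eventually.of_forall fun u => ?_)
    simp only []
    by_cases hc : A c
    · simp [hc, mul_comm]
    · simp [hρ c hc]
  have e3 : ∑ i, ∑ j, a (sp i) (sp j) (z i) (z j) = ∑ i, ∑ j, rA A a (sp i) (sp j) (z i) (z j) +
      2 * ∑ i ∈ univ.filter (fun i => ¬ A (sp i)), ∑ j, (if A (sp j) then
        a (sp i) (sp j) (z i) (z j) else 0) +
      ∑ i ∈ univ.filter (fun i => ¬ A (sp i)), ∑ j ∈ univ.filter (fun i => ¬ A (sp i)),
        a (sp i) (sp j) (z i) (z j) := by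
    have f1 : ∑ i ∈ univ.filter (fun i => ¬ A (sp i)), ∑ j, (if A (sp j) then
        a (sp i) (sp j) (z i) (z j) else 0) =
        ∑ i, ∑ j, (if ¬ A (sp i) ∧ A (sp j) then a (sp i) (sp j) (z i) (z j) else 0) := by
      rw [Finset.sum_filter]
      refine Finset.sum_congr rfl fun i _ => ?_
      by_cases hi : A (sp i) <;> simp [hi]
    have f2 : ∑ i, ∑ j, (if ¬ A (sp i) ∧ A (sp j) then a (sp i) (sp j) (z i) (z j) else 0) =
        ∑ i, ∑ j, (if A (sp i) ∧ ¬ A (sp j) then a (sp i) (sp j) (z i) (z j) else 0) := by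
      rw [Finset.sum_comm]
      refine Finset.sum_congr rfl fun i _ => Finset.sum_congr rfl fun j _ => ?_
      rw [has (sp j) (sp i) (z j) (z i)]
      by_cases hi : A (sp i) <;> by_cases hj : A (sp j) <;> simp [hi, hj]
    have f3 : ∑ i ∈ univ.filter (fun i => ¬ A (sp i)), ∑ j ∈ univ.filter (fun i => ¬ A (sp i)),
        a (sp i) (sp j) (z i) (z j) =
        ∑ i, ∑ j, (if ¬ A (sp i) ∧ ¬ A (sp j) then a (sp i) (sp j) (z i) (z j) else 0) := by
      rw [Finset.sum_filter]
      refine Finset.sum_congr rfl fun i _ => ?_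
      rw [Finset.sum_filter]
      by_cases hi : A (sp i) <;> simp [hi]
    rw [two_mul, f1]
    nth_rewrite 2 [f2]
    rw [f3]
    simp only [← Finset.sum_add_distrib]
    refine Finset.sum_congr rfl fun i _ => Finset.sum_congr rfl fun j _ => ?_
    simp only [rA]
    by_cases hi : A (sp i) <;> by_cases hj : A (sp j) <;> simp [hi, hj]
  unfold nuQ
  rw [hd, e1, e2, e3]
  ring

/-! ### charges -/

/-- the localised part of `-ξ` -/
def be (xp xm x s : ℂ) : ℂ := (xp + xm) / 2 - x + (xp - xm) / 2 * s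

/-- the plateau part of a pair kernel, `x, x'` the fields and `s, s'` the steps -/
def plat (xp xm x x' s s' : ℂ) : ℂ :=
  (xp - xm) / 2 + be xp xm x s * s' + be xp xm x' s' * s - (xp - xm) / 2 * (s * s')

/-- charge statistic: objects counted with their charges -/
def Qf (e : ℝ → X) (sp : ι → S) (ρ : S → ℝ → ℂ) (q : S → ℂ) (f : S → X → ℂ) (z : ι → X) : ℂ :=
  nuL e sp ρ (fun b u => q b * f b u) z

/-- **plateau parts of all pairs** -/
theorem nuQ_charge {e : ℝ → X} (sp : ι → S) {ρ : S → ℝ → ℂ} {q : S → ℂ} {ξ σ : S → X → ℂ}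
    {xp xm : ℂ} {a : S → S → X → X → ℂ} (hQ : QI e ρ a)
    (h1 : ∀ b, Integrable fun u => ρ b u * (q b * 1))
    (hb : ∀ b, Integrable fun u => ρ b u * (q b * be xp xm (ξ b (e u)) (σ b (e u))))
    (hs : ∀ b, Integrable fun u => ρ b u * (q b * σ b (e u))) (z : ι → X) :
    nuQ e sp ρ a z =
    nuQ e sp ρ (fun b c s u => a b c s u - 2 * (q b * q c) * plat xp xm (ξ b s) (ξ c u)
      (σ b s) (σ c u)) z + (xp - xm) / 2 * Qf e sp ρ q (fun _ _ => 1) z ^ 2 +
      2 * Qf e sp ρ q (fun b x => be xp xm (ξ b x) (σ b x)) z * Qf e sp ρ q σ z -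
      (xp - xm) / 2 * Qf e sp ρ q σ z ^ 2 := by
  set J := (xp - xm) / 2 with hJ
  have k1 := QI.sq (e := e) (ρ := ρ) (f := fun b (_ : X) => q b * (1 : ℂ)) h1
  have k2 := QI.prod (e := e) (ρ := ρ) (f := fun b x => q b * be xp xm (ξ b x) (σ b x))
    (g := fun b x => q b * σ b x) hb hs
  have k3 := QI.sq (e := e) (ρ := ρ) (f := fun b x => q b * σ b x) hs
  have e1 : (fun (b c : S) (s u : X) => a b c s u - 2 * (q b * q c) * plat xp xm (ξ b s) (ξ c u)
      (σ b s) (σ c u)) =
      fun b c s u => a b c s u + ((-(2 * J)) * ((q b * 1) * (q c * 1)) +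
        ((-2) * ((q b * be xp xm (ξ b s) (σ b s)) * (q c * σ c u) +
          (q b * σ b s) * (q c * be xp xm (ξ c u) (σ c u))) +
        (2 * J) * ((q b * σ b s) * (q c * σ c u)))) := by
    funext b c s u
    unfold plat
    ring
  rw [e1, nuQ_add sp hQ ((k1.smul (-(2 * J))).add ((k2.smul (-2)).add (k3.smul (2 * J)))),
    nuQ_add sp (k1.smul (-(2 * J))) ((k2.smul (-2)).add (k3.smul (2 * J))),
    nuQ_add sp (k2.smul (-2)) (k3.smul (2 * J)), nuQ_smul, nuQ_smul, nuQ_smul,
    nuQ_sq sp (f := fun b (_ : X) => q b * (1 : ℂ)) h1,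
    nuQ_prod sp (f := fun b x => q b * be xp xm (ξ b x) (σ b x)) (g := fun b x => q b * σ b x) hb hs,
    nuQ_sq sp (f := fun b x => q b * σ b x) hs]
  unfold Qf
  ring

/-- when the density of charge vanishes, `Qf` is the plain sum -/
theorem Qf_eq {e : ℝ → X} (sp : ι → S) {ρ : S → ℝ → ℂ} {q : S → ℂ} {f : S → X → ℂ}
    (hq : ∑ b, ∫ u, ρ b u * (q b * f b (e u)) = 0) (z : ι → X) :
    Qf e sp ρ q f z = ∑ k, q (sp k) * f (sp k) (z k) := by
  unfold Qf nuL
  rw [hq, sub_zero]

end stat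

/-! ### the local part of a pair kernel -/

theorem split_eq (xp xm x x' s s' κ : ℂ) : (x - x') * κ = plat xp xm x x' s s' +
    ((xp - xm) / 2 * ((s - s') * κ - 1 + s * s') - be xp xm x s * (κ + s') +
      be xp xm x' s' * (κ - s)) := by
  unfold plat be
  ring

/-- the fields and steps have plateaus -/
structure Plt (xp xm : ℂ) (M K : ℝ) (x s : ℂ) (t : ℝ) : Prop where
  xp' : 0 ≤ t → ‖xp - x‖ ≤ M * Real.exp (-4 * |t|)
  xm' : t ≤ 0 → ‖xm - x‖ ≤ M * Real.exp (-4 * |t|)
  sp' : 0 ≤ t → ‖1 - s‖ ≤ K * Real.exp (-4 * |t|)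
  sm' : t ≤ 0 → ‖1 + s‖ ≤ K * Real.exp (-4 * |t|)

theorem Plt.be_le {xp xm : ℂ} {M K : ℝ} {x s : ℂ} {t : ℝ} (h : Plt xp xm M K x s t) :
    ‖be xp xm x s‖ ≤ (M + K * ‖xp - xm‖) * Real.exp (-4 * |t|) := by
  have key : ∀ y w : ℂ, ‖y‖ ≤ M * Real.exp (-4 * |t|) → ‖w‖ ≤ K * Real.exp (-4 * |t|) →
      ‖y‖ + ‖(xp - xm) / 2 * w‖ ≤ (M + K * ‖xp - xm‖) * Real.exp (-4 * |t|) := by
    intro y w hy hw
    have h0 := norm_nonneg (xp - xm)
    have h1 : ‖(xp - xm) / 2 * w‖ ≤ ‖xp - xm‖ * (K * Real.exp (-4 * |t|)) := by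
      rw [norm_mul, norm_div, Complex.norm_ofNat]
      exact mul_le_mul (by linarith) hw (norm_nonneg _) h0
    nlinarith
  rcases le_total 0 t with ht | ht
  · have e : be xp xm x s = (xp - x) - (xp - xm) / 2 * (1 - s) := by
      unfold be
      ring
    rw [e]
    exact (norm_sub_le _ _).trans (key _ _ (h.xp' ht) (h.sp' ht))
  · have e : be xp xm x s = (xm - x) + (xp - xm) / 2 * (1 + s) := by
      unfold be
      ring
    rw [e]
    exact (norm_add_le _ _).trans (key _ _ (h.xm' ht) (h.sm' ht))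

theorem Plt.K_nonneg {xp xm : ℂ} {M K : ℝ} {x s : ℂ} {t : ℝ} (h : Plt xp xm M K x s t) :
    0 ≤ K := by
  rcases le_total 0 t with ht | ht
  · exact nonneg_of_mul_nonneg_left ((norm_nonneg _).trans (h.sp' ht)) (Real.exp_pos _)
  · exact nonneg_of_mul_nonneg_left ((norm_nonneg _).trans (h.sm' ht)) (Real.exp_pos _)

theorem Plt.M_nonneg {xp xm : ℂ} {M K : ℝ} {x s : ℂ} {t : ℝ} (h : Plt xp xm M K x s t) :
    0 ≤ M := by
  rcases le_total 0 t with ht | ht
  · exact nonneg_of_mul_nonneg_left ((norm_nonneg _).trans (h.xp' ht)) (Real.exp_pos _)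
  · exact nonneg_of_mul_nonneg_left ((norm_nonneg _).trans (h.xm' ht)) (Real.exp_pos _)

theorem Plt.s_le {xp xm : ℂ} {M K : ℝ} {x s : ℂ} {t : ℝ} (h : Plt xp xm M K x s t) :
    ‖s‖ ≤ 1 + K := by
  have hK := h.K_nonneg
  have hE : Real.exp (-4 * |t|) ≤ 1 := Real.exp_le_one_iff.2 (by have := abs_nonneg t; linarith)
  have hKE : K * Real.exp (-4 * |t|) ≤ K := by nlinarith
  rcases le_total 0 t with ht | ht
  · have e : s = 1 - (1 - s) := by ring
    rw [e]
    refine (norm_sub_le _ _).trans ?_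
    rw [norm_one]
    linarith [h.sp' ht]
  · have e : s = (1 + s) - 1 := by ring
    rw [e]
    refine (norm_sub_le _ _).trans ?_
    rw [norm_one]
    linarith [h.sm' ht]

/-- `|1 - s| ≤ (2 + K) e^{-4 t⁺}` -/
theorem Plt.one_sub {xp xm : ℂ} {M K : ℝ} {x s : ℂ} {t : ℝ} (h : Plt xp xm M K x s t) :
    ‖1 - s‖ ≤ (2 + K) * Real.exp (-4 * max t 0) := by
  have hK := h.K_nonneg
  rcases le_total 0 t with ht | ht
  · rw [max_eq_left ht]
    have := h.sp' ht
    rw [abs_of_nonneg ht] at this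
    have h2 := Real.exp_pos (-4 * t)
    nlinarith
  · rw [max_eq_right ht, mul_zero, Real.exp_zero, mul_one]
    refine (norm_sub_le _ _).trans ?_
    rw [norm_one]
    linarith [h.s_le]

theorem Plt.one_add {xp xm : ℂ} {M K : ℝ} {x s : ℂ} {t : ℝ} (h : Plt xp xm M K x s t) :
    ‖1 + s‖ ≤ (2 + K) * Real.exp (-4 * max (-t) 0) := by
  have hK := h.K_nonneg
  rcases le_total 0 t with ht | ht
  · rw [max_eq_right (neg_nonpos.2 ht), mul_zero, Real.exp_zero, mul_one]
    refine (norm_add_le _ _).trans ?_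
    rw [norm_one]
    linarith [h.s_le]
  · rw [max_eq_left (neg_nonneg.2 ht)]
    have := h.sm' ht
    rw [abs_of_nonpos ht] at this
    have h2 := Real.exp_pos (-4 * -t)
    nlinarith

/-- the two fields, `t' ≤ t` -/
theorem sub_le_exp {xp xm : ℂ} {M K : ℝ} {x x' s s' : ℂ} {t t' : ℝ} (h : Plt xp xm M K x s t)
    (h' : Plt xp xm M K x' s' t') (htt : t' ≤ t) :
    ‖x - x'‖ * Real.exp (-2 * |t - t'|) ≤
      (‖xp - xm‖ + 2 * M) * (Real.exp (-2 * |t|) * Real.exp (-2 * |t'|)) := by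
  have hM := h.M_nonneg
  have hJ := norm_nonneg (xp - xm)
  have hab : |t - t'| = t - t' := abs_of_nonneg (sub_nonneg.2 htt)
  rw [hab, ← Real.exp_add]
  rcases le_total 0 t' with a' | a'
  · have a : 0 ≤ t := a'.trans htt
    rw [abs_of_nonneg a, abs_of_nonneg a']
    have e1 := h.xp' a
    have e2 := h'.xp' a'
    rw [abs_of_nonneg a] at e1
    rw [abs_of_nonneg a'] at e2
    have e3 : Real.exp (-4 * t) ≤ Real.exp (-4 * t') := Real.exp_le_exp.2 (by linarith)
    have e4 : ‖x - x'‖ ≤ 2 * M * Real.exp (-4 * t') := by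
      have : x - x' = (xp - x') - (xp - x) := by ring
      rw [this]
      refine (norm_sub_le _ _).trans ?_
      nlinarith
    calc ‖x - x'‖ * Real.exp (-2 * (t - t')) ≤ 2 * M * Real.exp (-4 * t') *
          Real.exp (-2 * (t - t')) := mul_le_mul_of_nonneg_right e4 (Real.exp_pos _).le
      _ = 2 * M * Real.exp (-2 * t + -2 * t') := by
          rw [mul_assoc, ← Real.exp_add]
          ring_nf
      _ ≤ _ := mul_le_mul_of_nonneg_right (by linarith) (Real.exp_pos _).le
  · rcases le_total 0 t with a | a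
    · rw [abs_of_nonneg a, abs_of_nonpos a']
      have e1 := h.xp' a
      have e2 := h'.xm' a'
      have f1 : Real.exp (-4 * |t|) ≤ 1 := Real.exp_le_one_iff.2 (by
        have := abs_nonneg t; linarith)
      have f2 : Real.exp (-4 * |t'|) ≤ 1 := Real.exp_le_one_iff.2 (by
        have := abs_nonneg t'; linarith)
      have e4 : ‖x - x'‖ ≤ ‖xp - xm‖ + 2 * M := by
        have : x - x' = (xp - xm) - (xp - x) + (xm - x') := by ring
        rw [this]
        refine (norm_add_le _ _).trans ((add_le_add (norm_sub_le _ _) le_rfl).trans ?_)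
        nlinarith
      have e5 : Real.exp (-2 * (t - t')) = Real.exp (-2 * t + -2 * -t') := by
        congr 1
        ring
      rw [e5]
      exact mul_le_mul_of_nonneg_right e4 (Real.exp_pos _).le
    · rw [abs_of_nonpos a, abs_of_nonpos a']
      have e1 := h.xm' a
      have e2 := h'.xm' a'
      rw [abs_of_nonpos a] at e1
      rw [abs_of_nonpos a'] at e2
      have e3 : Real.exp (-4 * -t') ≤ Real.exp (-4 * -t) := Real.exp_le_exp.2 (by linarith)
      have e4 : ‖x - x'‖ ≤ 2 * M * Real.exp (-4 * -t) := by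
        have : x - x' = (xm - x') - (xm - x) := by ring
        rw [this]
        refine (norm_sub_le _ _).trans ?_
        nlinarith
      calc ‖x - x'‖ * Real.exp (-2 * (t - t')) ≤ 2 * M * Real.exp (-4 * -t) *
            Real.exp (-2 * (t - t')) := mul_le_mul_of_nonneg_right e4 (Real.exp_pos _).le
        _ = 2 * M * Real.exp (-2 * -t + -2 * -t') := by
            rw [mul_assoc, ← Real.exp_add]
            ring_nf
        _ ≤ _ := mul_le_mul_of_nonneg_right (by linarith) (Real.exp_pos _).le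

theorem exp_aux {t t' : ℝ} (htt : t' ≤ t) : Real.exp (-4 * max t 0) * Real.exp (-4 * max (-t') 0) ≤
    Real.exp (-2 * |t|) * Real.exp (-2 * |t'|) := by
  rw [← Real.exp_add, ← Real.exp_add]
  apply Real.exp_le_exp.2
  rcases le_total 0 t with a | a <;> rcases le_total 0 t' with b | b
  · rw [max_eq_left a, max_eq_right (by linarith), abs_of_nonneg a, abs_of_nonneg b]; linarith
  · rw [max_eq_left a, max_eq_left (by linarith), abs_of_nonneg a, abs_of_nonpos b]; linarith
  · rw [max_eq_right a, max_eq_right (by linarith), abs_of_nonpos a, abs_of_nonneg b]; linarith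
  · rw [max_eq_right a, max_eq_left (by linarith), abs_of_nonpos a, abs_of_nonpos b]; linarith

theorem exp_abs_le (t : ℝ) : Real.exp (-4 * |t|) ≤ Real.exp (-4 * max t 0) :=
  Real.exp_le_exp.2 (by
    have : max t 0 ≤ |t| := max_le (le_abs_self t) (abs_nonneg t)
    linarith)

theorem exp_abs_le' (t : ℝ) : Real.exp (-4 * |t|) ≤ Real.exp (-4 * max (-t) 0) :=
  Real.exp_le_exp.2 (by
    have : max (-t) 0 ≤ |t| := max_le (neg_le_abs t) (abs_nonneg t)
    linarith)

/-- far pairs, `t' ≤ t` -/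
theorem norm_far {xp xm : ℂ} {M K C : ℝ} {x x' s s' κ : ℂ} {t t' : ℝ} (h : Plt xp xm M K x s t)
    (h' : Plt xp xm M K x' s' t') (htt : t' ≤ t) (hC : 0 ≤ C)
    (hκ : ‖κ - 1‖ ≤ C * Real.exp (-2 * |t - t'|)) :
    ‖(x - x') * κ - plat xp xm x x' s s'‖ ≤ (3 * (2 + K) ^ 2 + 2 * C) * (‖xp - xm‖ + M) *
      (Real.exp (-2 * |t|) * Real.exp (-2 * |t'|)) := by
  have hM := h.M_nonneg
  have hK := h.K_nonneg
  have hJ := norm_nonneg (xp - xm)
  set E := Real.exp (-2 * |t|) * Real.exp (-2 * |t'|) with hE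
  have hE0 : 0 < E := by positivity
  have hx := exp_aux htt
  rw [← hE] at hx
  have e : (x - x') * κ - plat xp xm x x' s s' =
      -((xp - xm) / 2 * ((1 - s) * (1 + s'))) - be xp xm x s * (1 + s') +
      be xp xm x' s' * (1 - s) + (κ - 1) * (x - x') := by
    unfold plat be
    ring
  have a1 : ‖(xp - xm) / 2 * ((1 - s) * (1 + s'))‖ ≤ ‖xp - xm‖ * ((2 + K) ^ 2 * E) := by
    rw [norm_mul, norm_mul, norm_div, Complex.norm_ofNat]
    apply mul_le_mul (by linarith) _ (by positivity) hJ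
    calc ‖1 - s‖ * ‖1 + s'‖ ≤ ((2 + K) * Real.exp (-4 * max t 0)) *
          ((2 + K) * Real.exp (-4 * max (-t') 0)) :=
          mul_le_mul h.one_sub h'.one_add (norm_nonneg _) (by positivity)
      _ = (2 + K) ^ 2 * (Real.exp (-4 * max t 0) * Real.exp (-4 * max (-t') 0)) := by ring
      _ ≤ _ := mul_le_mul_of_nonneg_left hx (by positivity)
  have hB : 0 ≤ M + K * ‖xp - xm‖ := by positivity
  have a2 : ‖be xp xm x s * (1 + s')‖ ≤ (M + K * ‖xp - xm‖) * ((2 + K) * E) := by
    rw [norm_mul]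
    calc ‖be xp xm x s‖ * ‖1 + s'‖ ≤ ((M + K * ‖xp - xm‖) * Real.exp (-4 * max t 0)) *
          ((2 + K) * Real.exp (-4 * max (-t') 0)) :=
          mul_le_mul (h.be_le.trans (mul_le_mul_of_nonneg_left (exp_abs_le t) hB)) h'.one_add
            (norm_nonneg _) (by positivity)
      _ = (M + K * ‖xp - xm‖) * ((2 + K) * (Real.exp (-4 * max t 0) *
            Real.exp (-4 * max (-t') 0))) := by ring
      _ ≤ _ := mul_le_mul_of_nonneg_left (mul_le_mul_of_nonneg_left hx (by positivity)) hB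
  have a3 : ‖be xp xm x' s' * (1 - s)‖ ≤ (M + K * ‖xp - xm‖) * ((2 + K) * E) := by
    rw [norm_mul]
    calc ‖be xp xm x' s'‖ * ‖1 - s‖ ≤ ((M + K * ‖xp - xm‖) * Real.exp (-4 * max (-t') 0)) *
          ((2 + K) * Real.exp (-4 * max t 0)) :=
          mul_le_mul (h'.be_le.trans (mul_le_mul_of_nonneg_left (exp_abs_le' t') hB)) h.one_sub
            (norm_nonneg _) (by positivity)
      _ = (M + K * ‖xp - xm‖) * ((2 + K) * (Real.exp (-4 * max t 0) *
            Real.exp (-4 * max (-t') 0))) := by ring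
      _ ≤ _ := mul_le_mul_of_nonneg_left (mul_le_mul_of_nonneg_left hx (by positivity)) hB
  have a4 : ‖(κ - 1) * (x - x')‖ ≤ C * ((‖xp - xm‖ + 2 * M) * E) := by
    rw [norm_mul]
    calc ‖κ - 1‖ * ‖x - x'‖ ≤ C * Real.exp (-2 * |t - t'|) * ‖x - x'‖ :=
          mul_le_mul_of_nonneg_right hκ (norm_nonneg _)
      _ = C * (‖x - x'‖ * Real.exp (-2 * |t - t'|)) := by ring
      _ ≤ _ := mul_le_mul_of_nonneg_left (sub_le_exp h h' htt) hC
  rw [e]
  refine (norm_add_le _ _).trans ((add_le_add ((norm_add_le _ _).trans (add_le_add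
    ((norm_sub_le _ _).trans (add_le_add ((norm_neg _).le.trans a1) a2)) a3)) a4).trans ?_)
  have key : ‖xp - xm‖ * (2 + K) ^ 2 + 2 * ((M + K * ‖xp - xm‖) * (2 + K)) +
      C * (‖xp - xm‖ + 2 * M) ≤ (3 * (2 + K) ^ 2 + 2 * C) * (‖xp - xm‖ + M) := by
    have m1 : 0 ≤ ‖xp - xm‖ * K := by positivity
    have m2 : 0 ≤ M * K := by positivity
    have m3 : 0 ≤ ‖xp - xm‖ * K ^ 2 := by positivity
    have m4 : 0 ≤ M * K ^ 2 := by positivity
    have m5 : 0 ≤ C * ‖xp - xm‖ := by positivity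
    nlinarith
  calc ‖xp - xm‖ * ((2 + K) ^ 2 * E) + (M + K * ‖xp - xm‖) * ((2 + K) * E) +
        (M + K * ‖xp - xm‖) * ((2 + K) * E) + C * ((‖xp - xm‖ + 2 * M) * E)
      = (‖xp - xm‖ * (2 + K) ^ 2 + 2 * ((M + K * ‖xp - xm‖) * (2 + K)) +
        C * (‖xp - xm‖ + 2 * M)) * E := by ring
    _ ≤ _ := mul_le_mul_of_nonneg_right key hE0.le

theorem plat_symm (xp xm x x' s s' : ℂ) : plat xp xm x x' s s' = plat xp xm x' x s' s := by
  unfold plat
  ring

/-- near pairs -/
theorem norm_plat_near {xp xm : ℂ} {M K : ℝ} {x x' s s' : ℂ} {t t' : ℝ}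
    (h : Plt xp xm M K x s t) (h' : Plt xp xm M K x' s' t') (htt : |t - t'| ≤ 1) :
    ‖plat xp xm x x' s s'‖ ≤ 24 * (2 + K) ^ 2 * (‖xp - xm‖ + M) *
      (Real.exp (-2 * |t|) * Real.exp (-2 * |t'|)) := by
  have hM := h.M_nonneg
  have hK := h.K_nonneg
  have hJ := norm_nonneg (xp - xm)
  have hB : 0 ≤ M + K * ‖xp - xm‖ := by positivity
  set E := Real.exp (-2 * |t|) * Real.exp (-2 * |t'|) with hE
  have hE0 : 0 < E := by positivity
  have he2 : Real.exp 2 ≤ 8 := by
    have h1 := Real.exp_one_lt_d9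
    have h2 : Real.exp 2 = Real.exp 1 * Real.exp 1 := by
      rw [← Real.exp_add]
      norm_num
    have h3 := Real.exp_pos 1
    rw [h2]
    nlinarith
  have c1 : |t'| ≤ |t| + 1 := by
    have := abs_sub_abs_le_abs_sub t' t
    rw [abs_sub_comm] at this
    linarith
  have c2 : |t| ≤ |t'| + 1 := by
    have := abs_sub_abs_le_abs_sub t t'
    linarith
  have w1 : Real.exp (-4 * |t|) ≤ 8 * E := by
    calc Real.exp (-4 * |t|) ≤ Real.exp (2 + (-2 * |t| + -2 * |t'|)) :=
          Real.exp_le_exp.2 (by linarith)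
      _ = Real.exp 2 * E := by rw [Real.exp_add, Real.exp_add, hE]
      _ ≤ _ := mul_le_mul_of_nonneg_right he2 hE0.le
  have w2 : Real.exp (-4 * |t'|) ≤ 8 * E := by
    calc Real.exp (-4 * |t'|) ≤ Real.exp (2 + (-2 * |t| + -2 * |t'|)) :=
          Real.exp_le_exp.2 (by linarith)
      _ = Real.exp 2 * E := by rw [Real.exp_add, Real.exp_add, hE]
      _ ≤ _ := mul_le_mul_of_nonneg_right he2 hE0.le
  have b1 : ‖be xp xm x s * s'‖ ≤ (M + K * ‖xp - xm‖) * (1 + K) * (8 * E) := by
    rw [norm_mul]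
    calc ‖be xp xm x s‖ * ‖s'‖ ≤ ((M + K * ‖xp - xm‖) * (8 * E)) * (1 + K) :=
          mul_le_mul (h.be_le.trans (mul_le_mul_of_nonneg_left w1 hB)) h'.s_le (norm_nonneg _)
            (by positivity)
      _ = _ := by ring
  have b2 : ‖be xp xm x' s' * s‖ ≤ (M + K * ‖xp - xm‖) * (1 + K) * (8 * E) := by
    rw [norm_mul]
    calc ‖be xp xm x' s'‖ * ‖s‖ ≤ ((M + K * ‖xp - xm‖) * (8 * E)) * (1 + K) :=
          mul_le_mul (h'.be_le.trans (mul_le_mul_of_nonneg_left w2 hB)) h.s_le (norm_nonneg _)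
            (by positivity)
      _ = _ := by ring
  have b3 : ‖1 - s * s'‖ ≤ (2 + K) ^ 2 * (8 * E) := by
    rcases le_total 0 t with a | a <;> rcases le_total 0 t' with b | b
    · have e : 1 - s * s' = (1 - s) + s * (1 - s') := by ring
      rw [e]
      refine (norm_add_le _ _).trans ?_
      rw [norm_mul]
      have f1 := (h.sp' a).trans (mul_le_mul_of_nonneg_left w1 hK)
      have f2 := mul_le_mul h.s_le ((h'.sp' b).trans (mul_le_mul_of_nonneg_left w2 hK))
        (norm_nonneg _) (by positivity)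
      nlinarith [mul_nonneg hK hE0.le]
    · have hs : |t| + |t'| ≤ 1 := by
        rw [abs_of_nonneg a, abs_of_nonpos b]
        have := le_abs_self (t - t')
        linarith
      have f1 : 1 ≤ 8 * E := by
        have : Real.exp (-2) ≤ E := by
          rw [hE, ← Real.exp_add]
          exact Real.exp_le_exp.2 (by linarith)
        have h3 : Real.exp (-2) * Real.exp 2 = 1 := by
          rw [← Real.exp_add]
          norm_num
        have h4 := Real.exp_pos 2
        nlinarith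
      have f2 : ‖1 - s * s'‖ ≤ (2 + K) ^ 2 := by
        refine (norm_sub_le _ _).trans ?_
        rw [norm_one, norm_mul]
        have := mul_le_mul h.s_le h'.s_le (norm_nonneg _) (by positivity)
        nlinarith
      calc ‖1 - s * s'‖ ≤ (2 + K) ^ 2 * 1 := by rw [mul_one]; exact f2
        _ ≤ _ := mul_le_mul_of_nonneg_left f1 (by positivity)
    · have hs : |t| + |t'| ≤ 1 := by
        rw [abs_of_nonpos a, abs_of_nonneg b]
        have := neg_abs_le (t - t')
        linarith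
      have f1 : 1 ≤ 8 * E := by
        have : Real.exp (-2) ≤ E := by
          rw [hE, ← Real.exp_add]
          exact Real.exp_le_exp.2 (by linarith)
        have h3 : Real.exp (-2) * Real.exp 2 = 1 := by
          rw [← Real.exp_add]
          norm_num
        have h4 := Real.exp_pos 2
        nlinarith
      have f2 : ‖1 - s * s'‖ ≤ (2 + K) ^ 2 := by
        refine (norm_sub_le _ _).trans ?_
        rw [norm_one, norm_mul]
        have := mul_le_mul h.s_le h'.s_le (norm_nonneg _) (by positivity)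
        nlinarith
      calc ‖1 - s * s'‖ ≤ (2 + K) ^ 2 * 1 := by rw [mul_one]; exact f2
        _ ≤ _ := mul_le_mul_of_nonneg_left f1 (by positivity)
    · have e : 1 - s * s' = (1 + s) - s * (1 + s') := by ring
      rw [e]
      refine (norm_sub_le _ _).trans ?_
      rw [norm_mul]
      have f1 := (h.sm' a).trans (mul_le_mul_of_nonneg_left w1 hK)
      have f2 := mul_le_mul h.s_le ((h'.sm' b).trans (mul_le_mul_of_nonneg_left w2 hK))
        (norm_nonneg _) (by positivity)
      nlinarith [mul_nonneg hK hE0.le]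
  have e : plat xp xm x x' s s' = (xp - xm) / 2 * (1 - s * s') + be xp xm x s * s' +
      be xp xm x' s' * s := by
    unfold plat
    ring
  have b4 : ‖(xp - xm) / 2 * (1 - s * s')‖ ≤ ‖xp - xm‖ / 2 * ((2 + K) ^ 2 * (8 * E)) := by
    rw [norm_mul, norm_div, Complex.norm_ofNat]
    exact mul_le_mul_of_nonneg_left b3 (by positivity)
  rw [e]
  refine (norm_add_le _ _).trans ((add_le_add ((norm_add_le _ _).trans (add_le_add b4 b1))
    b2).trans ?_)
  have key : ‖xp - xm‖ / 2 * (2 + K) ^ 2 + 2 * ((M + K * ‖xp - xm‖) * (1 + K)) ≤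
      3 * (2 + K) ^ 2 * (‖xp - xm‖ + M) := by
    have m1 : 0 ≤ ‖xp - xm‖ * K := by positivity
    have m2 : 0 ≤ M * K := by positivity
    have m3 : 0 ≤ ‖xp - xm‖ * K ^ 2 := by positivity
    have m4 : 0 ≤ M * K ^ 2 := by positivity
    nlinarith
  calc ‖xp - xm‖ / 2 * ((2 + K) ^ 2 * (8 * E)) + (M + K * ‖xp - xm‖) * (1 + K) * (8 * E) +
        (M + K * ‖xp - xm‖) * (1 + K) * (8 * E)
      = (‖xp - xm‖ / 2 * (2 + K) ^ 2 + 2 * ((M + K * ‖xp - xm‖) * (1 + K))) * (8 * E) := by ring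
    _ ≤ (3 * (2 + K) ^ 2 * (‖xp - xm‖ + M)) * (8 * E) :=
        mul_le_mul_of_nonneg_right key (by positivity)
    _ = _ := by ring

/-- **the local part of a pair kernel**: `κ` the normalised kernel -/
theorem norm_loc {xp xm : ℂ} {M K C D : ℝ} {x x' s s' κ : ℂ} {t t' : ℝ}
    (h : Plt xp xm M K x s t) (h' : Plt xp xm M K x' s' t') (hC : 0 ≤ C) (hD : 0 ≤ D)
    (h1 : t' + 1 ≤ t → ‖κ - 1‖ ≤ C * Real.exp (-2 * |t - t'|))
    (h2 : t + 1 ≤ t' → ‖κ + 1‖ ≤ C * Real.exp (-2 * |t - t'|))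
    (h3 : |t - t'| ≤ 1 →
      ‖(x - x') * κ‖ ≤ D * (‖xp - xm‖ + M) * (Real.exp (-2 * |t|) * Real.exp (-2 * |t'|))) :
    ‖(x - x') * κ - plat xp xm x x' s s'‖ ≤ (24 * (2 + K) ^ 2 + 2 * C + D) * (‖xp - xm‖ + M) *
      (Real.exp (-2 * |t|) * Real.exp (-2 * |t'|)) := by
  have hM := h.M_nonneg
  have hK := h.K_nonneg
  have hJ := norm_nonneg (xp - xm)
  have hG : 0 ≤ (‖xp - xm‖ + M) * (Real.exp (-2 * |t|) * Real.exp (-2 * |t'|)) := by positivity
  have hK2 : 0 ≤ (2 + K) ^ 2 := by positivity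
  rcases le_or_gt |t - t'| 1 with c | c
  · refine (norm_sub_le _ _).trans ((add_le_add (h3 c) (norm_plat_near h h' c)).trans ?_)
    nlinarith [mul_nonneg hC hG]
  · rcases le_total t' t with d | d
    · rw [abs_of_nonneg (sub_nonneg.2 d)] at c
      refine (norm_far h h' d hC (h1 (by linarith))).trans ?_
      nlinarith [mul_nonneg hD hG, mul_nonneg hK2 hG]
    · rw [abs_of_nonpos (sub_nonpos.2 d)] at c
      have e : (x - x') * κ - plat xp xm x x' s s' = (x' - x) * (-κ) - plat xp xm x' x s' s := by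
        rw [plat_symm]
        ring
      have hk : ‖-κ - 1‖ ≤ C * Real.exp (-2 * |t' - t|) := by
        have : -κ - 1 = -(κ + 1) := by ring
        rw [this, norm_neg, abs_sub_comm]
        exact h2 (by linarith)
      rw [e, mul_comm (Real.exp (-2 * |t|))]
      refine (norm_far h' h d hC hk).trans ?_
      rw [mul_comm (Real.exp (-2 * |t|))] at hG
      nlinarith [mul_nonneg hD hG, mul_nonneg hK2 hG]

/-! ### the analytic step -/

/-- the analytic step -/
def sgC (z : ℂ) : ℂ := 1 - 2 / (Complex.exp (4 * z) + 1)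

theorem exp_re_nonneg {z : ℂ} (hz : |z.im| ≤ Real.pi / 8) : 0 ≤ (Complex.exp (4 * z)).re := by
  rw [Complex.exp_re]
  have h := abs_le.1 hz
  apply mul_nonneg (Real.exp_pos _).le
  apply Real.cos_nonneg_of_mem_Icc
  have e : (4 * z : ℂ).im = 4 * z.im := by simp
  rw [e]
  constructor <;> linarith [h.1, h.2]

theorem norm_add_one_ge {w : ℂ} (hw : 0 ≤ w.re) : max ‖w‖ 1 ≤ ‖w + 1‖ := by
  apply max_le
  · apply abs_le_of_sq_le_sq' _ (norm_nonneg _) |>.2
    rw [Complex.sq_norm, Complex.sq_norm, Complex.normSq_apply, Complex.normSq_apply]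
    simp only [Complex.add_re, Complex.one_re, Complex.add_im, Complex.one_im, add_zero]
    nlinarith
  · apply abs_le_of_sq_le_sq' _ (norm_nonneg _) |>.2
    rw [Complex.sq_norm, Complex.normSq_apply]
    simp only [Complex.add_re, Complex.one_re, Complex.add_im, Complex.one_im, add_zero]
    nlinarith [sq_nonneg w.im, sq_nonneg w.re]

theorem exp_add_ne {z : ℂ} (hz : |z.im| ≤ Real.pi / 8) : Complex.exp (4 * z) + 1 ≠ 0 := by
  intro h
  have := norm_add_one_ge (exp_re_nonneg hz)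
  rw [h, norm_zero] at this
  have h2 := (le_max_right ‖Complex.exp (4 * z)‖ 1).trans this
  linarith

theorem norm_one_sub_sgC {z : ℂ} (hz : |z.im| ≤ Real.pi / 8) (h0 : 0 ≤ z.re) :
    ‖1 - sgC z‖ ≤ 2 * Real.exp (-4 * |z.re|) := by
  have h1 := norm_add_one_ge (exp_re_nonneg hz)
  have h2 : Real.exp (4 * z.re) ≤ ‖Complex.exp (4 * z) + 1‖ := by
    refine le_trans ?_ ((le_max_left _ _).trans h1)
    rw [Complex.norm_exp]
    simp
  have e : 1 - sgC z = 2 / (Complex.exp (4 * z) + 1) := by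
    unfold sgC
    ring
  have h3 := Real.exp_pos (4 * z.re)
  rw [e, norm_div, Complex.norm_ofNat, abs_of_nonneg h0, div_le_iff₀ (h3.trans_le h2)]
  calc (2 : ℝ) = 2 * Real.exp (-4 * z.re) * Real.exp (4 * z.re) := by
        rw [mul_assoc, ← Real.exp_add]
        simp
    _ ≤ _ := mul_le_mul_of_nonneg_left h2 (by positivity)

theorem norm_one_add_sgC {z : ℂ} (hz : |z.im| ≤ Real.pi / 8) (h0 : z.re ≤ 0) :
    ‖1 + sgC z‖ ≤ 2 * Real.exp (-4 * |z.re|) := by
  have h1 := norm_add_one_ge (exp_re_nonneg hz)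
  have hne := exp_add_ne hz
  have h2 := (le_max_right ‖Complex.exp (4 * z)‖ 1).trans h1
  have e : 1 + sgC z = 2 * Complex.exp (4 * z) / (Complex.exp (4 * z) + 1) := by
    unfold sgC
    field_simp
    ring
  have e3 : ‖Complex.exp (4 * z)‖ = Real.exp (-4 * |z.re|) := by
    rw [Complex.norm_exp, abs_of_nonpos h0]
    simp
  rw [e, norm_div, norm_mul, Complex.norm_ofNat, e3, div_le_iff₀ (by linarith)]
  have h4 : 0 < 2 * Real.exp (-4 * |z.re|) := by positivity
  nlinarith

theorem differentiableAt_sgC {z : ℂ} (hz : |z.im| ≤ Real.pi / 8) : DifferentiableAt ℂ sgC z := by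
  unfold sgC
  have h1 : DifferentiableAt ℂ (fun z : ℂ => Complex.exp (4 * z) + 1) z := by fun_prop
  exact (differentiableAt_const _).sub ((differentiableAt_const _).div h1 (exp_add_ne hz))

/-- on the real axis the analytic step is `sg` -/
theorem sgC_real (t : ℝ) : sgC t = (N1.sg t : ℂ) := by
  have h1 : Real.exp (4 * t) + 1 ≠ 0 := by positivity
  have e : N1.sg t = 1 - 2 / (Real.exp (4 * t) + 1) := by
    unfold N1.sg
    rw [Real.tanh_eq_sinh_div_cosh, Real.sinh_eq, Real.cosh_eq]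
    have h2 : Real.exp (4 * t) = Real.exp (2 * t) * Real.exp (2 * t) := by
      rw [← Real.exp_add]
      ring_nf
    have h3 : Real.exp (-(2 * t)) = (Real.exp (2 * t))⁻¹ := Real.exp_neg _
    have h4 := Real.exp_pos (2 * t)
    rw [h2, h3]
    field_simp
    ring
  unfold sgC
  rw [e]
  push_cast
  rfl

/-- fields and steps on a line, from the bounds of the field -/
theorem Plt.mk_sgC {xp xm : ℂ} {M : ℝ} {x z : ℂ} (hz : |z.im| ≤ Real.pi / 8)
    (hp : 0 ≤ z.re → ‖xp - x‖ ≤ M * Real.exp (-4 * |z.re|))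
    (hm : z.re ≤ 0 → ‖xm - x‖ ≤ M * Real.exp (-4 * |z.re|)) : Plt xp xm M 2 x (sgC z) z.re where
  xp' := hp
  xm' := hm
  sp' h := norm_one_sub_sgC hz h
  sm' h := norm_one_add_sgC hz h

end NX

end PB

end
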