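import Pool.Agent.NUP1S.CurveN
import Pool.Agent.PB.KWd

/-!
# The pair functions `wcx`, `gcx` on complex points: derivatives and bounds

* `hasDerivAt_wcx`, `hasDerivAt_gcx`: logarithmic derivatives `Kwc`, `Kgc` for `|im z| < l`;
* `wb b c z` = pair function of the species `b`, `c` at the displacement `z` along the line;
  `kb b c z` its logarithmic derivative; `hasDerivAt_wb`, `wb_bound`, `dwb_bound`;
* `gen_le`: bound of a product of one body factors and of pair factors, charge `Q`.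
-/

set_option autoImplicit false
set_option linter.unusedSectionVars false

noncomputable section

open Complex MeasureTheory
open scoped Classical

namespace PB

open NUP1 NUP1.Bd NUP1S NUKer PBK

/-! ### non vanishing -/

theorem sin_I_add_ne {z : ℂ} (h : |z.im| < l) {a : ℝ} (h1 : l ≤ a) (h2 : a ≤ 7 * l) :
    sin (I * z + a) ≠ 0 ∧ sin (I * z - a) ≠ 0 := by
  have hl := Bd.l_pos
  have hpi := Bd.pi_eq
  obtain ⟨h3, h4⟩ := abs_lt.1 h
  have e : (I * z).re = -z.im := by simp
  constructor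
  · refine sin_ne_strip ?_ ?_
    · rw [add_re, e, ofReal_re]
      linarith
    · rw [add_re, e, ofReal_re]
      linarith
  · refine sin_ne_strip' ?_ ?_
    · rw [sub_re, e, ofReal_re]
      linarith
    · rw [sub_re, e, ofReal_re]
      linarith

theorem cosh_two_ne {z : ℂ} (h : |z.im| < l) : cosh (2 * z) ≠ 0 := by
  have hl := Bd.l_pos
  have h1 := sin_add_mul_sin_sub (I * z) (2 * l)
  have h3 := cosh_two_mul z
  have h4 := cosh_sq z
  rw [sin_I_mul', sin_sq_2l] at h1
  have e1 : sin (I * z + 2 * l) * sin (I * z - 2 * l) = -(cosh (2 * z)) / 2 := by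
    rw [h1, h3]
    linear_combination (sinh z ^ 2) * I_mul_I + h4 / 2
  obtain ⟨n1, n2⟩ := sin_I_add_ne h (a := 2 * l) (by linarith) (by linarith)
  push_cast at n1 n2
  intro h0
  rw [h0, neg_zero, zero_div] at e1
  exact (mul_ne_zero n1 n2) e1

theorem cosh_sub_r_ne {z : ℂ} (h : |z.im| < l) : cosh (2 * z) - (NUMF.r : ℂ) ≠ 0 := by
  have hl := Bd.l_pos
  have h2 := sin_add_mul_sin_sub (I * z) l
  have h3 := cosh_two_mul z
  have h4 := cosh_sq z
  rw [sin_I_mul', sin_sq_l] at h2
  have e2 : sin (I * z + l) * sin (I * z - l) = -(cosh (2 * z) - NUMF.r) / 2 := by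
    rw [h2, h3]
    linear_combination (sinh z ^ 2) * I_mul_I + h4 / 2
  obtain ⟨n1, n2⟩ := sin_I_add_ne h (a := l) (by linarith) (by linarith)
  intro h0
  rw [h0, neg_zero, zero_div] at e2
  exact (mul_ne_zero n1 n2) e2

theorem cosh_add_r_ne {z : ℂ} (h : |z.im| < l) : cosh (2 * z) + (NUMF.r : ℂ) ≠ 0 := by
  have hl := Bd.l_pos
  have h2 := sin_add_mul_sin_sub (I * z) (3 * l)
  have h3 := cosh_two_mul z
  have h4 := cosh_sq z
  rw [sin_I_mul', sin_sq_3l] at h2
  have e2 : sin (I * z + 3 * l) * sin (I * z - 3 * l) = -(cosh (2 * z) + NUMF.r) / 2 := by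
    rw [h2, h3]
    linear_combination (sinh z ^ 2) * I_mul_I + h4 / 2
  obtain ⟨n1, n2⟩ := sin_I_add_ne h (a := 3 * l) (by linarith) (by linarith)
  push_cast at n1 n2
  intro h0
  rw [h0, neg_zero, zero_div] at e2
  exact (mul_ne_zero n1 n2) e2

theorem cosh_ne {z : ℂ} (h : |z.im| < l) : cosh z ≠ 0 := by
  have hl := Bd.l_pos
  have hpi := Bd.pi_eq
  obtain ⟨n1, -⟩ := sin_I_add_ne h (a := 4 * l) (by linarith) (by linarith)
  have e : sin (I * z + ((4 * l : ℝ) : ℂ)) = cosh z := by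
    have : ((4 * l : ℝ) : ℂ) = (Real.pi : ℂ) / 2 := by
      rw [hpi]
      push_cast
      ring
    rw [this, sin_add_pi_div_two, cos_I_mul']
  rwa [e] at n1

theorem sinh_ne {z : ℂ} (h : |z.im| < l) (hz : z ≠ 0) : sinh z ≠ 0 := by
  intro h0
  have hl := Bd.l_pos
  have hpi := Bd.pi_eq
  have h1 : sin (I * z) = 0 := by rw [sin_I_mul', h0, mul_zero]
  obtain ⟨k, hk⟩ := Complex.sin_eq_zero_iff.1 h1
  have h2 : (I * z).re = k * Real.pi := by
    rw [hk]
    simp
  have h3 : (I * z).re = -z.im := by simp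
  have h4 : |(k : ℝ)| * Real.pi < Real.pi := by
    have : |(k : ℝ) * Real.pi| < l := by
      rw [← h2, h3, abs_neg]
      exact h
    rw [abs_mul, abs_of_pos Real.pi_pos] at this
    linarith
  have h5 : |(k : ℝ)| < 1 := by
    have := Real.pi_pos
    nlinarith
  have h6 : k = 0 := by
    have : |k| < 1 := by exact_mod_cast h5
    exact Int.abs_lt_one_iff.1 this
  rw [h6] at hk
  have : I * z = 0 := by rw [hk]; simp
  rcases mul_eq_zero.1 this with h7 | h7
  · exact I_ne_zero h7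
  · exact hz h7

/-! ### logarithmic derivatives -/

theorem hasDerivAt_cosh2 (z : ℂ) : HasDerivAt (fun z => cosh (2 * z)) (2 * sinh (2 * z)) z := by
  have h1 : HasDerivAt (fun z : ℂ => 2 * z) 2 z := by simpa using (hasDerivAt_id z).const_mul 2
  exact (h1.ccosh).congr_deriv (by ring)

theorem hasDerivAt_wcx {z : ℂ} (h : |z.im| < l) : HasDerivAt wcx (Kwc z * wcx z) z := by
  have n1 := cosh_two_ne h
  have n2 := cosh_sub_r_ne h
  have h1 := (hasDerivAt_sinh z).pow 2
  have h2 := hasDerivAt_cosh2 z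
  have h3 := (h1.mul h2).div (h2.sub_const (NUMF.r : ℂ)) n2
  refine HasDerivAt.congr_deriv (f := wcx) h3 ?_
  unfold Kwc wcx
  simp only [Pi.pow_apply, Pi.mul_apply]
  rcases eq_or_ne z 0 with h0 | h0
  · rw [h0]
    simp
  · have n3 := sinh_ne h h0
    have e1 : cosh (2 * z) - 1 = 2 * sinh z ^ 2 := by
      rw [Complex.cosh_two_mul, Complex.cosh_sq]
      ring
    have n4 : (cosh (2 * z) - 1) ≠ 0 := by
      rw [e1]
      exact mul_ne_zero two_ne_zero (pow_ne_zero 2 n3)
    have e2 : sinh (2 * z) = 2 * sinh z * cosh z := Complex.sinh_two_mul z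
    have e3 : 2 * sinh (2 * z) / (cosh (2 * z) - 1) = 2 * cosh z / sinh z := by
      rw [e1, e2]
      field_simp
    rw [e3]
    field_simp
    ring

theorem hasDerivAt_gcx {z : ℂ} (h : |z.im| < l) : HasDerivAt gcx (Kgc z * gcx z) z := by
  have n1 := cosh_ne h
  have n2 := cosh_add_r_ne h
  have h1 := ((hasDerivAt_cosh z).pow 2).const_mul 4
  have h2 := hasDerivAt_cosh2 z
  have h3 := h1.div ((h2.add_const (NUMF.r : ℂ)).pow 2) (pow_ne_zero 2 n2)
  refine HasDerivAt.congr_deriv (f := gcx) h3 ?_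
  unfold Kgc gcx
  simp only [Pi.pow_apply, Pi.mul_apply]
  have e1 : cosh (2 * z) + 1 = 2 * cosh z ^ 2 := by
    rw [Complex.cosh_two_mul]
    have := Complex.cosh_sq z
    linear_combination -this
  have n4 : (cosh (2 * z) + 1) ≠ 0 := by
    rw [e1]
    exact mul_ne_zero two_ne_zero (pow_ne_zero 2 n1)
  have e2 : sinh (2 * z) = 2 * sinh z * cosh z := Complex.sinh_two_mul z
  have e3 : 2 * sinh (2 * z) / (cosh (2 * z) + 1) = 2 * sinh z / cosh z := by
    rw [e1, e2]
    field_simp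
  rw [e3]
  field_simp
  ring

/-! ### the pair function of two species -/

/-- pair function at the displacement `z` along the line -/
def wb (b c : Bool) (z : ℂ) : ℂ := PP b c (I * z)

/-- its logarithmic derivative -/
def kb (b c : Bool) (z : ℂ) : ℂ := if b = c then Kwc z else Kgc z

theorem wb_eq (b c : Bool) : wb b c = if b = c then wcx else gcx := by
  funext z
  unfold wb PP
  split_ifs
  · rw [q_I_mul]
  · rw [qg_I_mul]

theorem hasDerivAt_wb (b c : Bool) {z : ℂ} (h : |z.im| < l) :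
    HasDerivAt (wb b c) (kb b c z * wb b c z) z := by
  rw [wb_eq]
  unfold kb
  split_ifs
  · exact hasDerivAt_wcx h
  · exact hasDerivAt_gcx h

theorem wb_self_zero (b : Bool) : wb b b 0 = 0 := by
  rw [wb_eq, if_pos rfl]
  unfold wcx
  simp

theorem measurable_Kwc : Measurable Kwc := by
  unfold Kwc
  fun_prop

theorem measurable_Kgc : Measurable Kgc := by
  unfold Kgc
  fun_prop

theorem measurable_kb (b c : Bool) : Measurable (kb b c) := by
  unfold kb
  split_ifs
  · exact measurable_Kwc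
  · exact measurable_Kgc

theorem measurable_wb (b c : Bool) : Measurable (wb b c) :=
  (measurable_PP b c).comp (measurable_const.mul measurable_id)

/-- real charge of a species -/
def sr (b : Bool) : ℝ := if b then 1 else -1

theorem sr_mul (b c : Bool) : ((sg b * sg c : ℤ) : ℝ) = sr b * sr c := by
  cases b <;> cases c <;> simp [sg, sr]

theorem wb_bound {w : ℝ} (hw0 : 0 ≤ w) (hw : w < l) : ∃ C : ℝ, 1 ≤ C ∧ ∀ (b c : Bool) (z : ℂ),
    |z.im| ≤ w → ‖wb b c z‖ ≤ C * Real.exp (2 * (sr b * sr c * |z.re|)) := by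
  obtain ⟨C, hC, h⟩ := PP_bound hw0 hw
  refine ⟨C, hC, fun b c z hz => ?_⟩
  have := h b c (I * z) (by simpa using hz)
  rw [sr_mul] at this
  have e : (I * z).im = z.re := by simp
  rw [e] at this
  exact this

/-- bound of the derivative -/
theorem dwb_bound {w : ℝ} (hw0 : 0 ≤ w) (hw : w < l) : ∃ C : ℝ, 1 ≤ C ∧ ∀ (b c : Bool) (z : ℂ),
    |z.im| ≤ w → ‖kb b c z * wb b c z‖ ≤ C * Real.exp (2 * (sr b * sr c * |z.re|)) := by
  obtain ⟨δ, hδ⟩ : ∃ δ : ℝ, δ = (l - w) / 2 := ⟨_, rfl⟩
  have hδ0 : 0 < δ := by rw [hδ]; linarith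
  obtain ⟨C, hC, h⟩ := wb_bound (w := w + δ) (by linarith) (by rw [hδ]; linarith)
  refine ⟨max 1 (C * Real.exp (2 * δ) / δ), le_max_left _ _, fun b c z hz => ?_⟩
  have hin : ∀ w' ∈ Metric.closedBall z δ, |w'.im| ≤ w + δ := by
    intro w' hw'
    rw [Metric.mem_closedBall, dist_eq_norm] at hw'
    have h1 := (abs_im_le_norm (w' - z)).trans hw'
    rw [sub_im] at h1
    have h2 := abs_sub_abs_le_abs_sub w'.im z.im
    linarith
  have hlt : ∀ w' ∈ Metric.closedBall z δ, |w'.im| < l := fun w' hw' => by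
    have := hin w' hw'
    have h3 : w + δ < l := by rw [hδ]; linarith
    linarith
  have hd : DiffContOnCl ℂ (wb b c) (Metric.ball z δ) := by
    refine DifferentiableOn.diffContOnCl_ball (U := Metric.closedBall z δ) ?_ subset_rfl
    exact fun w' hw' => (hasDerivAt_wb b c (hlt w' hw')).differentiableAt.differentiableWithinAt
  have hs : ∀ w' ∈ Metric.sphere z δ, ‖wb b c w'‖ ≤
      C * Real.exp (2 * δ) * Real.exp (2 * (sr b * sr c * |z.re|)) := by
    intro w' hw'
    have hw2 : w' ∈ Metric.closedBall z δ := Metric.sphere_subset_closedBall hw'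
    refine (h b c w' (hin w' hw2)).trans ?_
    have hC0 : 0 ≤ C := zero_le_one.trans hC
    have e0 : C * Real.exp (2 * δ) * Real.exp (2 * (sr b * sr c * |z.re|)) =
        C * Real.exp (2 * δ + 2 * (sr b * sr c * |z.re|)) := by
      rw [Real.exp_add]
      ring
    rw [e0]
    refine mul_le_mul_of_nonneg_left (Real.exp_le_exp.2 ?_) hC0
    rw [Metric.mem_closedBall, dist_eq_norm] at hw2
    have h1 := (abs_re_le_norm (w' - z)).trans hw2
    rw [sub_re] at h1
    have h2 := abs_sub_abs_le_abs_sub w'.re z.re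
    have h3 := abs_sub_abs_le_abs_sub z.re w'.re
    rw [abs_sub_comm] at h3
    cases b <;> cases c <;> simp only [sr, if_true, if_false, Bool.false_eq_true] <;> linarith
  have h1 := norm_deriv_le_of_forall_mem_sphere_norm_le hδ0 hd hs
  have hz' : z ∈ Metric.closedBall z δ := Metric.mem_closedBall_self hδ0.le
  rw [(hasDerivAt_wb b c (hlt z hz')).deriv] at h1
  refine h1.trans ?_
  rw [div_eq_mul_inv, mul_assoc, mul_comm (Real.exp (2 * (sr b * sr c * |z.re|))), ← mul_assoc,
    ← div_eq_mul_inv]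
  exact mul_le_mul_of_nonneg_right (le_max_right _ _) (Real.exp_pos _).le

/-! ### a general bound -/

variable {ι : Type*} [Fintype ι]

theorem energyQ (σ t : ι → ℝ) : ∑ i, ∑ j, σ i * σ j * |t i - t j| ≤
    2 * ((∑ i, σ i) * ∑ i, σ i * |t i|) := by
  obtain ⟨Q, hQ⟩ : ∃ Q : ℝ, ∑ i, σ i = Q := ⟨_, rfl⟩
  have h := energy_nonpos (Finset.univ : Finset (Option ι))
    (fun o => o.elim (-Q) σ) (fun o => o.elim 0 t) (by
      rw [Fintype.sum_option]
      simp [hQ])
  rw [Fintype.sum_option] at h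
  simp only [Fintype.sum_option, Option.elim_none, Option.elim_some, abs_zero,
    mul_zero, zero_add, zero_sub, abs_neg, sub_zero, Finset.sum_add_distrib] at h
  have e1 : ∑ i, -Q * σ i * |t i| = -(Q * ∑ i, σ i * |t i|) := by
    rw [Finset.mul_sum, ← Finset.sum_neg_distrib]
    exact Finset.sum_congr rfl fun i _ => by ring
  have e2 : ∑ i, σ i * -Q * |t i| = -(Q * ∑ i, σ i * |t i|) := by
    rw [Finset.mul_sum, ← Finset.sum_neg_distrib]
    exact Finset.sum_congr rfl fun i _ => by ring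
  rw [e1, e2] at h
  rw [hQ]
  linarith

/-- **bound of a product weight** -/
theorem gen_le {σ t : ι → ℝ} {h : ι → ℂ} {f : ι → ι → ℂ} {C D κ : ℝ} (hC : 1 ≤ C)
    (hh : ∀ i, ‖h i‖ ≤ D * Real.exp (-((κ + 2 * (σ i * ∑ j, σ j)) * |t i|)))
    (hf : ∀ a b, a ≠ b → ‖f a b‖ ≤ C * Real.exp (2 * (σ a * σ b * |t a - t b|))) :
    ‖(∏ i, h i) * PU f‖ ≤ D ^ Fintype.card ι * C ^ (Fintype.card ι * Fintype.card ι) *
      ∏ i, Real.exp (-(κ * |t i|)) := by
  rw [norm_mul, norm_prod]
  have e1 : ∏ i, ‖h i‖ ≤ D ^ Fintype.card ι *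
      ∏ i, Real.exp (-((κ + 2 * (σ i * ∑ j, σ j)) * |t i|)) := by
    refine (Finset.prod_le_prod (fun i _ => norm_nonneg _) fun i _ => hh i).trans (le_of_eq ?_)
    rw [Finset.prod_mul_distrib, Finset.prod_const, Finset.card_univ]
  have e2 := PU_norm_le f (fun a b => σ a * σ b * |t a - t b|)
    (fun a b => by rw [abs_sub_comm]; ring) (fun a => by simp) hC hf
  have e3 := energyQ σ t
  have hC0 : 0 ≤ C := zero_le_one.trans hC
  have hP : 0 ≤ ∏ i, ‖h i‖ := Finset.prod_nonneg fun i _ => norm_nonneg _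
  refine (mul_le_mul e1 e2 (norm_nonneg _) (hP.trans e1)).trans ?_
  by_cases hι : Nonempty ι
  · have hD : 0 ≤ D ^ Fintype.card ι := by
      obtain ⟨i⟩ := hι
      have h1 := (norm_nonneg _).trans (hh i)
      have h2 : 0 ≤ D := by
        by_contra h3
        exact absurd h1 (not_le.2 (mul_neg_of_neg_of_pos (not_le.1 h3) (Real.exp_pos _)))
      positivity
    have e4 : (∏ i, Real.exp (-((κ + 2 * (σ i * ∑ j, σ j)) * |t i|))) *
        Real.exp (∑ a, ∑ b, σ a * σ b * |t a - t b|) ≤ ∏ i, Real.exp (-(κ * |t i|)) := by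
      rw [← Real.exp_sum, ← Real.exp_sum, ← Real.exp_add, Real.exp_le_exp]
      have e5 : ∑ i, -((κ + 2 * (σ i * ∑ j, σ j)) * |t i|) =
          (∑ i, -(κ * |t i|)) - 2 * ((∑ i, σ i) * ∑ i, σ i * |t i|) := by
        rw [Finset.mul_sum, Finset.mul_sum, ← Finset.sum_sub_distrib]
        exact Finset.sum_congr rfl fun i _ => by ring
      rw [e5]
      linarith
    calc _ = D ^ Fintype.card ι * C ^ (Fintype.card ι * Fintype.card ι) *
          ((∏ i, Real.exp (-((κ + 2 * (σ i * ∑ j, σ j)) * |t i|))) *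
            Real.exp (∑ a, ∑ b, σ a * σ b * |t a - t b|)) := by ring
      _ ≤ _ := mul_le_mul_of_nonneg_left e4 (mul_nonneg hD (pow_nonneg hC0 _))
  · rw [not_nonempty_iff] at hι
    simp

end PB

end
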