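import Pool.Agent.PB.ConvC
import Pool.Agent.PB.KWd
import Pool.Agent.PB.PairC
import Pool.Agent.PB.NormX
import Pool.Agent.NUP1S.Curve

/-!
# The mean field identity at complex points (helper33)

`ρ`, `X b` analytic in a strip, the sea on the real line.

* `hshift`: horizontal shift of an integral;
* `Kwc`, `Kgc`: bounds in the strip, `psw w = w Kwc w` without singularity;
* `aC X b c z w` = `(X b z - X c w) k_bc (z - w)` continued to the diagonal;
* `cV`, `cG`, `rsp`: convolutions with `V`, `Kg`, the response of a field;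
* **`mf_h`**: `X b z κ z + ∑ c ∫ aC b c z u ρ u du = - rsp (X ρ) b z`, `κ = cV ρ'`.
-/

set_option autoImplicit false
set_option linter.unusedSectionVars false

noncomputable section

open MeasureTheory Set Filter Topology

namespace PB

open NUMF PBK Pool.Agent.PB

/-! ### shift of a horizontal line -/

/-- **horizontal shift** -/
theorem hshift {F : ℂ → ℂ} {b y : ℝ} (hy : |y| ≤ b)
    (hF : DifferentiableOn ℂ F {z | |z.im| ≤ b}) {K R δ : ℝ} (hδ : 0 < δ)
    (hd : ∀ z : ℂ, |z.im| ≤ b → R ≤ |z.re| → ‖F z‖ ≤ K * Real.exp (-(δ * |z.re|))) :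
    ∫ t : ℝ, F (t + y * Complex.I) = ∫ t : ℝ, F t := by
  set f : ℂ → ℂ := fun u => F (-(Complex.I * u)) with hf
  have him : ∀ u : ℂ, (-(Complex.I * u)).im = -u.re := fun u => by simp
  have hre : ∀ u : ℂ, (-(Complex.I * u)).re = u.im := fun u => by simp
  have hb : 0 ≤ b := (abs_nonneg y).trans hy
  have hfd : DifferentiableOn ℂ f (NUP1.CS (-b) b) := by
    refine hF.comp (by fun_prop) fun u hu => ?_
    show |_| ≤ b
    rw [him, abs_neg, abs_le]
    exact ⟨hu.1, hu.2⟩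
  have hdec : ∀ u ∈ NUP1.CS (-b) b, R ≤ |u.im| → ‖f u‖ ≤ K * Real.exp (-(δ * |u.im|)) := by
    intro u hu hR
    have h1 := hd (-(Complex.I * u)) (by
      rw [him, abs_neg, abs_le]
      exact ⟨hu.1, hu.2⟩) (by rw [hre]; exact hR)
    rw [hre] at h1
    exact h1
  have key : ∀ c : ℝ, |c| ≤ b → ∫ t : ℝ, f (NUP1.vl c t) = ∫ t : ℝ, F t := by
    intro c hc
    have hc' := abs_le.1 hc
    have C : NUP1S.Crv (-b) b c (fun _ => (c : ℂ) * Complex.I) (fun _ => 0) := by
      refine ⟨fun t => hasDerivAt_const _ _, continuous_const, ⟨‖(c : ℂ) * Complex.I‖,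
        norm_nonneg _, fun t => ⟨le_rfl, by simp⟩⟩, ⟨hc'.1, hc'.2⟩, fun t => ?_, fun t => ?_⟩
      · simp [hb]
      · simp [hb]
    have h1 := NUP1S.crv_line hfd C hδ hdec
    rw [← h1]
    refine integral_congr_ae (Eventually.of_forall fun t => ?_)
    simp only [hf, add_zero, one_mul]
    congr 1
    unfold NUP1.vl
    linear_combination (-(t : ℂ) - (c : ℂ) * Complex.I) * Complex.I_sq
  rw [← key (-y) (by rwa [abs_neg])]
  refine integral_congr_ae (Eventually.of_forall fun t => ?_)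
  simp only [hf]
  congr 1
  unfold NUP1.vl
  push_cast
  linear_combination (t : ℂ) * Complex.I_sq

/-! ### the kernels in the strip -/

theorem norm_sinh_le (w : ℂ) : ‖Complex.sinh w‖ ≤ Real.cosh w.re := by
  have h := Complex.sinh_add_cosh w
  unfold Complex.sinh
  rw [Real.cosh_eq, norm_div]
  have h2 : ‖(2 : ℂ)‖ = 2 := by simp
  rw [h2]
  refine div_le_div_of_nonneg_right ((norm_sub_le _ _).trans ?_) (by norm_num)
  rw [Complex.norm_exp, Complex.norm_exp]
  simp

theorem norm_cosh_ge (w : ℂ) : Real.sinh |w.re| ≤ ‖Complex.cosh w‖ := by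
  unfold Complex.cosh
  rw [norm_div]
  have h2 : ‖(2 : ℂ)‖ = 2 := by simp
  rw [h2, Real.sinh_eq]
  refine div_le_div_of_nonneg_right ?_ (by norm_num)
  rcases abs_cases w.re with ⟨h, _⟩ | ⟨h, _⟩
  · rw [h]
    have := norm_sub_norm_le (Complex.exp w) (-Complex.exp (-w))
    rw [sub_neg_eq_add, norm_neg, Complex.norm_exp, Complex.norm_exp, Complex.neg_re] at this
    exact this
  · rw [h]
    have := norm_sub_norm_le (Complex.exp (-w)) (-Complex.exp w)
    rw [sub_neg_eq_add, norm_neg, Complex.norm_exp, Complex.norm_exp, Complex.neg_re,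
      add_comm (Complex.exp (-w))] at this
    rw [neg_neg]
    exact this

theorem lMF : NUP1.l = NUMF.l := rfl

theorem cosh_re_eq (w : ℂ) : (Complex.cosh w).re = Real.cosh w.re * Real.cos w.im := by
  rw [← Complex.re_add_im w]
  rw [Complex.cosh_add, Complex.cosh_mul_I, Complex.sinh_mul_I]
  simp [Complex.cosh_ofReal_re, Complex.cosh_ofReal_im, Complex.cos_ofReal_re]

theorem cosh_re_ge {w : ℂ} (hw : |w.im| ≤ Real.pi / 4) :
    NUMF.r * Real.cosh w.re ≤ (Complex.cosh w).re := by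
  rw [cosh_re_eq, mul_comm]
  refine mul_le_mul_of_nonneg_left ?_ (Real.cosh_pos _).le
  rw [NUMF.r_eq, ← Real.cos_abs w.im]
  exact Real.cos_le_cos_of_nonneg_of_le_pi (abs_nonneg _) (by linarith [Real.pi_pos]) hw

/-- bound of `Kg` in the strip -/
theorem norm_Kgc_le {w : ℂ} (hw : |w.im| ≤ l) : ‖Kgc w‖ ≤ 9 := by
  have hr := NUMF.r_pos
  have hw2 : |(2 * w).im| ≤ Real.pi / 4 := by
    have e : (2 * w).im = 2 * w.im := by simp
    rw [e, abs_mul, abs_two]
    have : l = Real.pi / 8 := rfl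
    linarith
  have h1 := norm_sinh_le (2 * w)
  have h2 := cosh_re_ge hw2
  have hc : 0 < Real.cosh (2 * w).re := Real.cosh_pos _
  have h3 : ∀ c : ℝ, 0 ≤ c → NUMF.r * Real.cosh (2 * w).re ≤ ‖Complex.cosh (2 * w) + c‖ := by
    intro c hc0
    refine le_trans ?_ (Complex.re_le_norm _)
    rw [Complex.add_re, Complex.ofReal_re]
    linarith
  have h4 : ∀ c : ℝ, 0 ≤ c → ‖Complex.sinh (2 * w) / (Complex.cosh (2 * w) + c)‖ ≤ NUMF.r⁻¹ := by
    intro c hc0
    have hpos : 0 < NUMF.r * Real.cosh (2 * w).re := by positivity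
    rw [norm_div, div_le_iff₀ (hpos.trans_le (h3 c hc0))]
    calc ‖Complex.sinh (2 * w)‖ ≤ NUMF.r⁻¹ * (NUMF.r * Real.cosh (2 * w).re) := by
          rw [inv_mul_cancel_left₀ hr.ne']
          exact h1
      _ ≤ _ := mul_le_mul_of_nonneg_left (h3 c hc0) (inv_nonneg.2 hr.le)
  have e : Kgc w = 2 * (Complex.sinh (2 * w) / (Complex.cosh (2 * w) + (1 : ℝ))) -
      4 * (Complex.sinh (2 * w) / (Complex.cosh (2 * w) + (NUMF.r : ℝ))) := by
    unfold Kgc
    push_cast
    ring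
  rw [e]
  refine (norm_sub_le _ _).trans ?_
  rw [norm_mul, norm_mul]
  have n2 : ‖(2 : ℂ)‖ = 2 := by simp
  have n4 : ‖(4 : ℂ)‖ = 4 := by simp
  rw [n2, n4]
  have h5 := h4 1 zero_le_one
  have h6 := h4 NUMF.r hr.le
  have h7 : NUMF.r⁻¹ ≤ 3 / 2 := by
    rw [inv_le_comm₀ hr (by norm_num)]
    unfold NUMF.r
    have : (4 : ℝ) / 3 ≤ √2 := by
      rw [Real.le_sqrt' (by norm_num)]
      norm_num
    linarith
  linarith

/-- bound of `Kw` far from the diagonal -/
theorem norm_Kwc_le {w : ℂ} (hw : 1 ≤ |w.re|) : ‖Kwc w‖ ≤ 9 := by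
  have hr := NUMF.r_pos
  have hr1 := NUMF.r_lt_one
  have h1 := norm_sinh_le (2 * w)
  have h2 := norm_cosh_ge (2 * w)
  have e2 : (2 * w).re = 2 * w.re := by simp
  rw [e2] at h1 h2
  rw [abs_mul, abs_two] at h2
  obtain ⟨x, hx⟩ : ∃ x : ℝ, x = 2 * |w.re| := ⟨_, rfl⟩
  have hx2 : 2 ≤ x := by rw [hx]; linarith
  have ec : Real.cosh (2 * w.re) = Real.cosh x := by
    rw [hx, ← Real.cosh_abs (2 * w.re), abs_mul, abs_two]
  rw [ec] at h1
  rw [← hx] at h2
  have hex : 7 ≤ Real.exp x := by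
    have h3 : Real.exp 2 ≤ Real.exp x := Real.exp_le_exp.2 hx2
    have h4 : (2.7 : ℝ) ^ 2 ≤ Real.exp 2 := by
      have := Real.exp_one_gt_d9
      have e : Real.exp 2 = Real.exp 1 ^ 2 := by
        rw [← Real.exp_nat_mul]
        norm_num
      rw [e]
      exact pow_le_pow_left₀ (by norm_num) (by linarith) 2
    norm_num at h4
    linarith
  have hen : Real.exp (-x) ≤ 1 / 7 := by
    rw [Real.exp_neg, ← one_div]
    exact one_div_le_one_div_of_le (by norm_num) hex
  have hen0 := Real.exp_pos (-x)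
  have hS : Real.sinh x = (Real.exp x - Real.exp (-x)) / 2 := Real.sinh_eq x
  have hC : Real.cosh x = (Real.exp x + Real.exp (-x)) / 2 := Real.cosh_eq x
  have h3 : ∀ c : ℝ, |c| ≤ 1 → 2 / 3 * Real.cosh x ≤ ‖Complex.cosh (2 * w) - c‖ := by
    intro c hc
    have h5 := norm_sub_norm_le (Complex.cosh (2 * w)) (c : ℂ)
    rw [Complex.norm_real, Real.norm_eq_abs] at h5
    nlinarith
  have h4 : ∀ c : ℝ, |c| ≤ 1 → ‖Complex.sinh (2 * w) / (Complex.cosh (2 * w) - c)‖ ≤ 3 / 2 := by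
    intro c hc
    have hp : 0 < Real.cosh x := Real.cosh_pos _
    have := h3 c hc
    rw [norm_div, div_le_iff₀ (by linarith)]
    linarith
  have e : Kwc w = 2 * (Complex.sinh (2 * w) / (Complex.cosh (2 * w) - (1 : ℝ))) +
      2 * (Complex.sinh (2 * w) / (Complex.cosh (2 * w) - (0 : ℝ))) -
      2 * (Complex.sinh (2 * w) / (Complex.cosh (2 * w) - (NUMF.r : ℝ))) := by
    unfold Kwc
    push_cast
    ring
  rw [e]
  refine (norm_sub_le _ _).trans ?_
  have n2 : ‖(2 : ℂ)‖ = 2 := by simp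
  have h5 := h4 1 (by simp)
  have h6 := h4 0 (by simp)
  have h7 := h4 NUMF.r (by rw [abs_of_pos hr]; exact hr1.le)
  have h8 : ‖2 * (Complex.sinh (2 * w) / (Complex.cosh (2 * w) - (1 : ℝ))) +
      2 * (Complex.sinh (2 * w) / (Complex.cosh (2 * w) - (0 : ℝ)))‖ ≤ 6 := by
    refine (norm_add_le _ _).trans ?_
    rw [norm_mul, norm_mul, n2]
    linarith
  rw [norm_mul, n2]
  linarith

/-! ### the kernel `w Kw w` -/

/-- `sinh w / w` -/
def dsh (w : ℂ) : ℂ := dslope Complex.sinh 0 w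

/-- `w Kw w` without singularity -/
def psw (w : ℂ) : ℂ := 2 * Complex.cosh w / dsh w + w * (2 * Complex.sinh (2 * w) /
  Complex.cosh (2 * w) - 2 * Complex.sinh (2 * w) / (Complex.cosh (2 * w) - (NUMF.r : ℝ)))

theorem dsh_ne {w : ℂ} (hw : |w.im| < l) : dsh w ≠ 0 := by
  unfold dsh
  by_cases h0 : w = 0
  · rw [h0, dslope_same, (Complex.hasDerivAt_sinh 0).deriv, Complex.cosh_zero]
    exact one_ne_zero
  · rw [dslope_of_ne _ h0, slope_def_field, Complex.sinh_zero, sub_zero, sub_zero]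
    exact div_ne_zero (sinh_ne hw h0) h0

theorem psw_zero : psw 0 = 2 := by
  unfold psw dsh
  rw [dslope_same, (Complex.hasDerivAt_sinh 0).deriv]
  simp

theorem psw_eq {w : ℂ} (hw : |w.im| < l) (h0 : w ≠ 0) : psw w = w * Kwc w := by
  unfold psw dsh Kwc
  rw [dslope_of_ne _ h0, slope_def_field, Complex.sinh_zero, sub_zero, sub_zero]
  have h1 := coth_two w
  have h2 := sinh_ne hw h0
  have e : 2 * Complex.cosh w / (Complex.sinh w / w) = w * (2 * (Complex.cosh w / Complex.sinh w)) := by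
    field_simp
  rw [e, h1]
  ring

theorem diff_psw {w : ℂ} (hw : |w.im| < l) : DifferentiableAt ℂ psw w := by
  have h1 : DifferentiableAt ℂ dsh w := by
    have : DifferentiableOn ℂ dsh Set.univ :=
      (Complex.differentiableOn_dslope Filter.univ_mem).2 Complex.differentiable_sinh.differentiableOn
    exact (this w (Set.mem_univ _)).differentiableAt Filter.univ_mem
  have n1 := dsh_ne hw
  have n2 := cosh_two_ne hw
  have n3 := cosh_sub_r_ne hw
  unfold psw
  refine DifferentiableAt.add (DifferentiableAt.div (by fun_prop) h1 n1) ?_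
  refine DifferentiableAt.mul differentiableAt_id ?_
  refine DifferentiableAt.sub (DifferentiableAt.div (by fun_prop) (by fun_prop) n2)
    (DifferentiableAt.div (by fun_prop) (by fun_prop) n3)

theorem cosh_add_one_ne {w : ℂ} (hw : |w.im| < l) : Complex.cosh (2 * w) + 1 ≠ 0 := by
  have n1 := cosh_ne hw
  have e1 : Complex.cosh (2 * w) + 1 = 2 * Complex.cosh w ^ 2 := by
    rw [Complex.cosh_two_mul]
    have := Complex.cosh_sq w
    linear_combination -this
  rw [e1]
  exact mul_ne_zero two_ne_zero (pow_ne_zero 2 n1)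

theorem diff_Kgc {w : ℂ} (hw : |w.im| < l) : DifferentiableAt ℂ Kgc w := by
  have n1 := cosh_add_one_ne hw
  have n2 := cosh_add_r_ne hw
  unfold Kgc
  exact DifferentiableAt.sub (DifferentiableAt.div (by fun_prop) (by fun_prop) n1)
    (DifferentiableAt.div (by fun_prop) (by fun_prop) n2)

theorem Kwc_neg' (z : ℂ) : Kwc (-z) = -Kwc z := by
  unfold Kwc
  rw [mul_neg, Complex.sinh_neg, Complex.cosh_neg]
  ring

theorem Kgc_neg' (z : ℂ) : Kgc (-z) = -Kgc z := by
  unfold Kgc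
  rw [mul_neg, Complex.sinh_neg, Complex.cosh_neg]
  ring

/-! ### the kernels of a field -/

/-- `(X b z - X c w) k_bc (z - w)`, continued to the diagonal -/
def aC (X : Bool → ℂ → ℂ) (b c : Bool) (z w : ℂ) : ℂ :=
  if b = c then dslope (X b) z w * psw (z - w) else (X b z - X c w) * Kgc (z - w)

theorem aC_ne (X : Bool → ℂ → ℂ) (b c : Bool) {z w : ℂ} (h : |(z - w).im| < l) (hzw : z ≠ w) :
    aC X b c z w = (X b z - X c w) * kb b c (z - w) := by
  unfold aC kb
  split_ifs with hbc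
  · subst hbc
    have h1 : z - w ≠ 0 := sub_ne_zero.2 hzw
    have h2 : w - z ≠ 0 := sub_ne_zero.2 hzw.symm
    rw [psw_eq h h1, dslope_of_ne _ hzw.symm, slope_def_field]
    field_simp
    ring
  · rfl

theorem aC_off (X : Bool → ℂ → ℂ) {b c : Bool} (hbc : b ≠ c) (z w : ℂ) :
    aC X b c z w = (X b z - X c w) * Kgc (z - w) := by
  unfold aC
  rw [if_neg hbc]

theorem aC_diag (X : Bool → ℂ → ℂ) (b : Bool) (z : ℂ) : aC X b b z z = 2 * deriv (X b) z := by
  unfold aC
  rw [if_pos rfl, dslope_same, sub_self, psw_zero]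
  ring

theorem dsh_neg (w : ℂ) : dsh (-w) = dsh w := by
  unfold dsh
  by_cases h0 : w = 0
  · rw [h0, neg_zero]
  · rw [dslope_of_ne _ h0, dslope_of_ne _ (neg_ne_zero.2 h0), slope_def_field, slope_def_field,
      Complex.sinh_zero, Complex.sinh_neg, sub_zero, sub_zero, sub_zero, sub_zero, neg_div_neg_eq]

theorem psw_neg (w : ℂ) : psw (-w) = psw w := by
  unfold psw
  rw [dsh_neg, mul_neg, Complex.cosh_neg, Complex.sinh_neg, Complex.cosh_neg]
  ring

theorem aC_symm (X : Bool → ℂ → ℂ) (b c : Bool) (z w : ℂ) : aC X b c z w = aC X c b w z := by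
  unfold aC
  by_cases hbc : b = c
  · subst hbc
    rw [if_pos rfl, if_pos rfl, ← neg_sub w z, psw_neg]
    congr 1
    by_cases hzw : z = w
    · rw [hzw]
    · rw [dslope_of_ne _ (Ne.symm hzw), dslope_of_ne _ hzw, slope_comm]
  · rw [if_neg hbc, if_neg (Ne.symm hbc), ← neg_sub w z, Kgc_neg']
    ring

/-! ### analytic data in a strip -/

/-- a sea: analytic without zeros, exponential decay -/
structure SeaF (b1 : ℝ) (ρ : ℂ → ℂ) : Prop where
  d : ∀ z : ℂ, |z.im| < b1 → DifferentiableAt ℂ ρ z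
  ne : ∀ z : ℂ, |z.im| < b1 → ρ z ≠ 0
  bd : ∃ A c : ℝ, 0 ≤ A ∧ 0 < c ∧ ∀ z : ℂ, |z.im| < b1 → ‖ρ z‖ ≤ A * Real.exp (-(c * |z.re|))

/-- a field: analytic and bounded -/
structure FldF (b1 : ℝ) (X : Bool → ℂ → ℂ) : Prop where
  d : ∀ b (z : ℂ), |z.im| < b1 → DifferentiableAt ℂ (X b) z
  bd : ∃ B : ℝ, 0 ≤ B ∧ ∀ b (z : ℂ), |z.im| < b1 → ‖X b z‖ ≤ B

/-- Cauchy estimate in a strip -/
theorem strip_deriv {f : ℂ → ℂ} {b0 b1 A c : ℝ} (hb : b0 < b1) (hc : 0 ≤ c) (hA : 0 ≤ A)
    (hf : ∀ z : ℂ, |z.im| < b1 → DifferentiableAt ℂ f z)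
    (hbd : ∀ z : ℂ, |z.im| < b1 → ‖f z‖ ≤ A * Real.exp (-(c * |z.re|))) {z : ℂ}
    (hz : |z.im| ≤ b0) :
    ‖deriv f z‖ ≤ A * Real.exp (c * ((b1 - b0) / 2)) / ((b1 - b0) / 2) *
      Real.exp (-(c * |z.re|)) := by
  obtain ⟨δ, hδ⟩ : ∃ δ : ℝ, δ = (b1 - b0) / 2 := ⟨_, rfl⟩
  rw [← hδ]
  have hδ0 : 0 < δ := by rw [hδ]; linarith
  have hin : ∀ w ∈ Metric.closedBall z δ, |w.im| < b1 ∧ |z.re| ≤ |w.re| + δ := by
    intro w hw
    rw [Metric.mem_closedBall, dist_eq_norm] at hw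
    have h1 := (Complex.abs_im_le_norm (w - z)).trans hw
    have h2 := (Complex.abs_re_le_norm (w - z)).trans hw
    rw [Complex.sub_im] at h1
    rw [Complex.sub_re] at h2
    have h3 := abs_sub_abs_le_abs_sub w.im z.im
    have h4 := abs_sub_abs_le_abs_sub z.re w.re
    rw [abs_sub_comm] at h4
    constructor <;> [skip; linarith]
    have : b0 + δ < b1 := by rw [hδ]; linarith
    linarith
  have hd : DiffContOnCl ℂ f (Metric.ball z δ) := by
    refine DifferentiableOn.diffContOnCl_ball (U := Metric.closedBall z δ) ?_ subset_rfl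
    exact fun w hw => (hf w (hin w hw).1).differentiableWithinAt
  have hs : ∀ w ∈ Metric.sphere z δ, ‖f w‖ ≤
      A * Real.exp (c * δ) * Real.exp (-(c * |z.re|)) := by
    intro w hw
    have hw2 := hin w (Metric.sphere_subset_closedBall hw)
    refine (hbd w hw2.1).trans ?_
    rw [mul_assoc, ← Real.exp_add]
    refine mul_le_mul_of_nonneg_left (Real.exp_le_exp.2 ?_) hA
    have := mul_le_mul_of_nonneg_left hw2.2 hc
    linarith
  have h1 := Complex.norm_deriv_le_of_forall_mem_sphere_norm_le hδ0 hd hs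
  refine h1.trans (le_of_eq ?_)
  ring

theorem Kwc_real (u : ℝ) : Kwc u = (Kw u : ℂ) := by
  unfold Kwc Kw
  push_cast
  ring

theorem Kgc_real (u : ℝ) : Kgc u = (Kg u : ℂ) := by
  unfold Kgc Kg
  push_cast
  ring

theorem abs_Kg_le (u : ℝ) : |Kg u| ≤ 9 := by
  have h := norm_Kgc_le (w := (u : ℂ)) (by
    rw [Complex.ofReal_im, abs_zero]
    exact NUP1.Bd.l_pos.le)
  rwa [Kgc_real, Complex.norm_real, Real.norm_eq_abs] at h

variable {b1 : ℝ} {ρ : ℂ → ℂ} {X : Bool → ℂ → ℂ}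

/-- a field times the sea -/
def mulF (ρ : ℂ → ℂ) (X : Bool → ℂ → ℂ) (b : Bool) (z : ℂ) : ℂ := X b z * ρ z

theorem mulF_bd (hρ : SeaF b1 ρ) (hX : FldF b1 X) : ∃ A c : ℝ, 0 ≤ A ∧ 0 < c ∧ ∀ b (z : ℂ),
    |z.im| < b1 → ‖mulF ρ X b z‖ ≤ A * Real.exp (-(c * |z.re|)) := by
  obtain ⟨A, c, hA, hc, h1⟩ := hρ.bd
  obtain ⟨B, hB, h2⟩ := hX.bd
  refine ⟨B * A, c, mul_nonneg hB hA, hc, fun b z hz => ?_⟩
  unfold mulF
  rw [norm_mul, mul_assoc]
  exact mul_le_mul (h2 b z hz) (h1 z hz) (norm_nonneg _) hB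

theorem mulF_d (hρ : SeaF b1 ρ) (hX : FldF b1 X) (b : Bool) (z : ℂ) (hz : |z.im| < b1) :
    DifferentiableAt ℂ (mulF ρ X b) z := (hX.d b z hz).mul (hρ.d z hz)

theorem ln_im (s y : ℝ) : ((s : ℂ) + y * Complex.I).im = y := by simp

theorem ln_re (s y : ℝ) : ((s : ℂ) + y * Complex.I).re = s := by simp

theorem hasDerivAt_ln {f : ℂ → ℂ} {s y : ℝ} (h : DifferentiableAt ℂ f (s + y * Complex.I)) :
    HasDerivAt (fun s : ℝ => f (s + y * Complex.I)) (deriv f (s + y * Complex.I)) s := by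
  have h1 : HasDerivAt (fun s : ℝ => (s : ℂ) + y * Complex.I) 1 s :=
    (Complex.ofRealCLM.hasDerivAt (x := s)).add_const _
  have h2 := h.hasDerivAt.scomp s h1
  rw [one_smul] at h2
  exact h2

theorem cont_deriv_ln {f : ℂ → ℂ} {y : ℝ} (hy : |y| < b1)
    (h : ∀ z : ℂ, |z.im| < b1 → DifferentiableAt ℂ f z) :
    Continuous fun s : ℝ => deriv f (s + y * Complex.I) := by
  have ho : IsOpen {w : ℂ | |w.im| < b1} := strip_open b1
  have h1 : DifferentiableOn ℂ f {w : ℂ | |w.im| < b1} := fun z hz => (h z hz).differentiableWithinAt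
  have h2 := (h1.deriv ho).continuousOn
  refine h2.comp_continuous (by fun_prop) fun s => ?_
  show |_| < b1
  rw [ln_im]
  exact hy

theorem int_ln {f : ℝ → ℂ} {A c : ℝ} (hc : 0 < c) (hf : AEStronglyMeasurable f)
    (h : ∀ s : ℝ, ‖f s‖ ≤ A * Real.exp (-(c * |s|))) : Integrable f := by
  have h1 := int_exp_abs hc
  refine (h1.const_mul A).mono' hf (Eventually.of_forall fun s => ?_)
  simp only [neg_mul]
  exact h s

/-- the data on a horizontal line -/
theorem xi_dat (hρ : SeaF b1 ρ) (hX : FldF b1 X) {y : ℝ} (hy : |y| < b1) (b : Bool) :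
    ∃ B : ℝ, XiDatC (fun s : ℝ => ρ (s + y * Complex.I)) (fun s : ℝ => deriv ρ (s + y * Complex.I))
      (fun s : ℝ => mulF ρ X b (s + y * Complex.I))
      (fun s : ℝ => deriv (mulF ρ X b) (s + y * Complex.I)) B := by
  obtain ⟨A, c, hA, hc, h1⟩ := hρ.bd
  obtain ⟨A', c', hA', hc', h1'⟩ := mulF_bd hρ hX
  have d1 := mulF_d hρ hX b
  have hy' : ∀ s : ℝ, |((s : ℂ) + y * Complex.I).im| < b1 := fun s => by rw [ln_im]; exact hy
  obtain ⟨K, hK⟩ : ∃ K : ℝ, K = A * Real.exp (c * ((b1 - |y|) / 2)) / ((b1 - |y|) / 2) := ⟨_, rfl⟩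
  obtain ⟨K', hK'⟩ : ∃ K : ℝ, K = A' * Real.exp (c' * ((b1 - |y|) / 2)) / ((b1 - |y|) / 2) :=
    ⟨_, rfl⟩
  have hK0 : 0 ≤ K := by
    rw [hK]
    have : 0 ≤ (b1 - |y|) / 2 := by linarith
    positivity
  have hK0' : 0 ≤ K' := by
    rw [hK']
    have : 0 ≤ (b1 - |y|) / 2 := by linarith
    positivity
  have e1 : ∀ s : ℝ, ‖deriv ρ (s + y * Complex.I)‖ ≤ K * Real.exp (-(c * |s|)) := by
    intro s
    have := strip_deriv hy hc.le hA hρ.d h1 (z := (s : ℂ) + y * Complex.I) (by rw [ln_im])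
    rw [ln_re, ← hK] at this
    exact this
  have e2 : ∀ s : ℝ, ‖deriv (mulF ρ X b) (s + y * Complex.I)‖ ≤ K' * Real.exp (-(c' * |s|)) := by
    intro s
    have := strip_deriv hy hc'.le hA' d1 (h1' b) (z := (s : ℂ) + y * Complex.I) (by rw [ln_im])
    rw [ln_re, ← hK'] at this
    exact this
  have e3 : ∀ s : ℝ, ‖ρ (s + y * Complex.I)‖ ≤ A * Real.exp (-(c * |s|)) := by
    intro s
    have := h1 ((s : ℂ) + y * Complex.I) (hy' s)
    rwa [ln_re] at this
  have e4 : ∀ s : ℝ, ‖mulF ρ X b (s + y * Complex.I)‖ ≤ A' * Real.exp (-(c' * |s|)) := by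
    intro s
    have := h1' b ((s : ℂ) + y * Complex.I) (hy' s)
    rwa [ln_re] at this
  have one : ∀ (M c : ℝ), 0 ≤ M → 0 < c → ∀ s : ℝ, M * Real.exp (-(c * |s|)) ≤ M := by
    intro M c hM hc s
    refine mul_le_of_le_one_right hM (Real.exp_le_one_iff.2 ?_)
    have := mul_nonneg hc.le (abs_nonneg s)
    linarith
  obtain ⟨B, hB⟩ : ∃ B : ℝ, B = max (max K K') (max A A') := ⟨_, rfl⟩
  have c0 := cont_deriv_ln hy hρ.d
  have c1 := cont_deriv_ln hy d1
  have cd : ∀ {f : ℂ → ℂ}, (∀ z : ℂ, |z.im| < b1 → DifferentiableAt ℂ f z) →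
      Continuous fun s : ℝ => f (s + y * Complex.I) := fun {f} hf =>
    continuous_iff_continuousAt.2 fun s => (hasDerivAt_ln (hf _ (hy' s))).continuousAt
  refine ⟨B, ?_⟩
  refine ⟨fun s => hasDerivAt_ln (hρ.d _ (hy' s)), fun s => hasDerivAt_ln (d1 _ (hy' s)), c0, c1,
    fun s => ?_, fun s => ?_, fun s => ?_, fun s => ?_, fun s => hρ.ne _ (hy' s), ?_, ?_, ?_, ?_⟩
  · exact ((e3 s).trans (one A c hA hc s)).trans (by rw [hB]; simp)
  · exact ((e1 s).trans (one K c hK0 hc s)).trans (by rw [hB]; simp)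
  · exact ((e4 s).trans (one A' c' hA' hc' s)).trans (by rw [hB]; simp)
  · exact ((e2 s).trans (one K' c' hK0' hc' s)).trans (by rw [hB]; simp)
  · exact int_ln hc (cd hρ.d).aestronglyMeasurable e3
  · exact int_ln hc c0.aestronglyMeasurable e1
  · exact int_ln hc' (cd d1).aestronglyMeasurable e4
  · exact int_ln hc' c1.aestronglyMeasurable e2

/-! ### convolutions and the response of a field -/

/-- convolution with the total potential -/
def cV (f : ℂ → ℂ) (z : ℂ) : ℂ := ∫ u : ℝ, f (z - u) * (V u : ℂ)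

/-- convolution with the cross kernel -/
def cG (f : ℂ → ℂ) (z : ℂ) : ℂ := ∫ u : ℝ, f (z - u) * (Kg u : ℂ)

/-- **the response** `∑ c ∫ β c u k_bc (z - u) du` of the fields `β` -/
def rsp (β : Bool → ℂ → ℂ) (b : Bool) (z : ℂ) : ℂ :=
  -(cV (deriv (β b)) z + cG (fun w => β b w - β (!b) w) z)

theorem sub_ln (z : ℂ) (u : ℝ) : z - u = ((z.re - u : ℝ) : ℂ) + z.im * Complex.I := by
  apply Complex.ext <;> simp

theorem cV_ln (f : ℂ → ℂ) (z : ℂ) :
    cV f z = ∫ s : ℝ, f (s + z.im * Complex.I) * (V (z.re - s) : ℂ) := by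
  unfold cV
  rw [← integral_sub_left_eq_self (fun s : ℝ => f (s + z.im * Complex.I) * (V (z.re - s) : ℂ))
    volume z.re]
  refine integral_congr_ae (Eventually.of_forall fun u => ?_)
  simp only [sub_sub_cancel]
  rw [sub_ln z u]

theorem cG_ln (f : ℂ → ℂ) (z : ℂ) :
    cG f z = ∫ s : ℝ, f (s + z.im * Complex.I) * (Kg (z.re - s) : ℂ) := by
  unfold cG
  rw [← integral_sub_left_eq_self (fun s : ℝ => f (s + z.im * Complex.I) * (Kg (z.re - s) : ℂ))
    volume z.re]
  refine integral_congr_ae (Eventually.of_forall fun u => ?_)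
  simp only [sub_sub_cancel]
  rw [sub_ln z u]

theorem z_sub_ln (z : ℂ) (s : ℝ) : z - (s + z.im * Complex.I) = ((z.re - s : ℝ) : ℂ) := by
  apply Complex.ext <;> simp

theorem Kg_meas : Measurable fun u : ℝ => (Kg u : ℂ) := by
  have : Measurable Kg := by
    unfold Kg
    fun_prop
  exact Complex.measurable_ofReal.comp this

theorem cont_ln {y : ℝ} (hy : |y| < b1) {f : ℂ → ℂ}
    (hf : ∀ z : ℂ, |z.im| < b1 → DifferentiableAt ℂ f z) :
    Continuous fun s : ℝ => f (s + y * Complex.I) :=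
  continuous_iff_continuousAt.2 fun s => (hasDerivAt_ln (hf _ (by rw [ln_im]; exact hy))).continuousAt

/-- **the mean field identity on a horizontal line** -/
theorem line_id (hρ : SeaF b1 ρ) (hX : FldF b1 X) {z : ℂ} (hz : |z.im| < b1)
    (b : Bool) :
    (∀ c, Integrable fun s : ℝ => aC X b c z (s + z.im * Complex.I) *
      ρ (s + z.im * Complex.I)) ∧
    X b z * cV (deriv ρ) z + ∑ c, ∫ s : ℝ, aC X b c z (s + z.im * Complex.I) *
      ρ (s + z.im * Complex.I) = -rsp (mulF ρ X) b z := by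
  obtain ⟨B, D⟩ := xi_dat hρ hX hz b
  obtain ⟨i1, e1⟩ := mf_xiC D z.re
  obtain ⟨y, hy⟩ : ∃ y : ℝ, y = z.im := ⟨_, rfl⟩
  have hl := NUP1.Bd.l_pos
  have hzz : ((z.re : ℂ) + z.im * Complex.I) = z := Complex.re_add_im z
  have hne : ∀ s : ℝ, ρ (s + z.im * Complex.I) ≠ 0 := fun s => hρ.ne _ (by rw [ln_im]; exact hz)
  have hq : ∀ s : ℝ, mulF ρ X b (s + z.im * Complex.I) / ρ (s + z.im * Complex.I) =
      X b (s + z.im * Complex.I) := by
    intro s
    unfold mulF
    rw [mul_div_assoc, div_self (hne s), mul_one]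
  have hqz : mulF ρ X b z / ρ z = X b z := by
    have := hq z.re
    rwa [hzz] at this
  simp only [hzz, hq, hqz] at i1 e1
  obtain ⟨Bx, hBx, hXb⟩ := hX.bd
  have hXl : ∀ c (s : ℝ), ‖X c (s + z.im * Complex.I)‖ ≤ Bx := fun c s =>
    hXb c _ (by rw [ln_im]; exact hz)
  have iρ := D.i0
  have cX : ∀ c, Continuous fun s : ℝ => X c (s + z.im * Complex.I) := fun c => cont_ln hz (hX.d c)
  -- the cross kernel
  have mK : AEStronglyMeasurable fun s : ℝ => (Kg (z.re - s) : ℂ) :=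
    (Kg_meas.comp (measurable_const.sub measurable_id)).aestronglyMeasurable
  have iG : ∀ (f : ℝ → ℂ), Continuous f → (∀ s, ‖f s‖ ≤ 2 * Bx) → Integrable fun s : ℝ =>
      (f s * (Kg (z.re - s) : ℂ)) * ρ (s + z.im * Complex.I) := by
    intro f hf hfb
    refine iρ.bdd_mul (c := 2 * Bx * 9) (hf.aestronglyMeasurable.mul mK)
      (Eventually.of_forall fun s => ?_)
    rw [norm_mul, Complex.norm_real, Real.norm_eq_abs]
    exact mul_le_mul (hfb s) (abs_Kg_le _) (abs_nonneg _) (by positivity)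
  have hd2 : ∀ c c' (s : ℝ), ‖X c z - X c' (s + z.im * Complex.I)‖ ≤ 2 * Bx := by
    intro c c' s
    refine (norm_sub_le _ _).trans ?_
    linarith [hXb c z hz, hXl c' s]
  have hd3 : ∀ c c' (s : ℝ), ‖X c (s + z.im * Complex.I) - X c' (s + z.im * Complex.I)‖ ≤
      2 * Bx := by
    intro c c' s
    refine (norm_sub_le _ _).trans ?_
    linarith [hXl c s, hXl c' s]
  have iG1 := iG (fun s => X b z - X b (s + z.im * Complex.I))
    (continuous_const.sub (cX b)) (hd2 b b)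
  have iG2 := iG (fun s => X b (s + z.im * Complex.I) - X (!b) (s + z.im * Complex.I))
    ((cX b).sub (cX (!b))) (hd3 b (!b))
  have iG3 := iG (fun s => X b z - X (!b) (s + z.im * Complex.I))
    (continuous_const.sub (cX (!b))) (hd2 b (!b))
  have hbb : b ≠ !b := by cases b <;> decide
  -- the kernels
  have ew : ∀ s : ℝ, s ≠ z.re → aC X b b z (s + z.im * Complex.I) =
      (X b z - X b (s + z.im * Complex.I)) * (Kw (z.re - s) : ℂ) := by
    intro s hs
    rw [aC_ne]
    · unfold kb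
      rw [if_pos rfl, z_sub_ln, Kwc_real]
    · rw [z_sub_ln, Complex.ofReal_im, abs_zero]
      exact hl
    · intro h0
      apply hs
      have := congrArg Complex.re h0
      rw [ln_re] at this
      exact this.symm
  have eg : ∀ s : ℝ, aC X b (!b) z (s + z.im * Complex.I) =
      (X b z - X (!b) (s + z.im * Complex.I)) * (Kg (z.re - s) : ℂ) := by
    intro s
    rw [aC_off X hbb, z_sub_ln, Kgc_real]
  have hae : ∀ᵐ s : ℝ, s ≠ z.re := by
    have : ({z.re} : Set ℝ)ᶜ ∈ ae volume := compl_mem_ae_iff.2 (by simp)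
    exact this
  have iW : Integrable fun s : ℝ => aC X b b z (s + z.im * Complex.I) *
      ρ (s + z.im * Complex.I) := by
    refine (i1.sub iG1).congr (hae.mono fun s hs => ?_)
    simp only [Pi.sub_apply, ew s hs]
    unfold KC
    push_cast
    ring
  have iC : Integrable fun s : ℝ => aC X b (!b) z (s + z.im * Complex.I) *
      ρ (s + z.im * Complex.I) := by
    refine iG3.congr (Eventually.of_forall fun s => ?_)
    simp only [eg s]
  refine ⟨fun c => ?_, ?_⟩
  · by_cases hc : c = b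
    · subst hc
      exact iW
    · have : c = !b := by cases b <;> cases c <;> simp_all
      subst this
      exact iC
  · have hsum : ∀ f : Bool → ℂ, ∑ c, f c = f b + f (!b) := by
      intro f
      rw [Fintype.sum_bool]
      cases b
      · simp [add_comm]
      · simp
    rw [hsum]
    have e2 : ∫ s : ℝ, aC X b b z (s + z.im * Complex.I) * ρ (s + z.im * Complex.I) =
        (∫ s : ℝ, (X b z - X b (s + z.im * Complex.I)) * KC (z.re - s) *
          ρ (s + z.im * Complex.I)) -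
        ∫ s : ℝ, (X b z - X b (s + z.im * Complex.I)) * (Kg (z.re - s) : ℂ) *
          ρ (s + z.im * Complex.I) := by
      rw [← integral_sub i1 iG1]
      refine integral_congr_ae (hae.mono fun s hs => ?_)
      simp only [ew s hs]
      unfold KC
      push_cast
      ring
    have e3 : ∫ s : ℝ, aC X b (!b) z (s + z.im * Complex.I) * ρ (s + z.im * Complex.I) =
        (∫ s : ℝ, (X b z - X b (s + z.im * Complex.I)) * (Kg (z.re - s) : ℂ) *
          ρ (s + z.im * Complex.I)) +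
        ∫ s : ℝ, (X b (s + z.im * Complex.I) - X (!b) (s + z.im * Complex.I)) *
          (Kg (z.re - s) : ℂ) * ρ (s + z.im * Complex.I) := by
      rw [← integral_add iG1 iG2]
      refine integral_congr_ae (Eventually.of_forall fun s => ?_)
      simp only [eg s]
      ring
    have e4 : cG (fun w => mulF ρ X b w - mulF ρ X (!b) w) z =
        ∫ s : ℝ, (X b (s + z.im * Complex.I) - X (!b) (s + z.im * Complex.I)) *
          (Kg (z.re - s) : ℂ) * ρ (s + z.im * Complex.I) := by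
      rw [cG_ln]
      refine integral_congr_ae (Eventually.of_forall fun s => ?_)
      simp only []
      unfold mulF
      ring
    unfold rsp
    rw [e4, cV_ln (deriv (mulF ρ X b)), cV_ln (deriv ρ), e2, e3]
    linear_combination e1

/-- the kernel is analytic in the second variable -/
theorem diff_aC (hX : FldF b1 X) (hb : 2 * b1 ≤ l) {z : ℂ} (hz : |z.im| < b1) (b c : Bool) {u : ℂ}
    (hu : |u.im| < b1) : DifferentiableAt ℂ (fun u => aC X b c z u) u := by
  have him : |(z - u).im| < l := by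
    rw [Complex.sub_im]
    have := abs_sub z.im u.im
    linarith
  have hs : DifferentiableAt ℂ (fun u : ℂ => z - u) u := by fun_prop
  unfold aC
  split_ifs with hbc
  · have ho : {w : ℂ | |w.im| < b1} ∈ 𝓝 z := (strip_open b1).mem_nhds hz
    have ho' : {w : ℂ | |w.im| < b1} ∈ 𝓝 u := (strip_open b1).mem_nhds hu
    have h1 : DifferentiableOn ℂ (dslope (X b) z) {w : ℂ | |w.im| < b1} :=
      (Complex.differentiableOn_dslope ho).2 fun w hw => (hX.d b w hw).differentiableWithinAt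
    have h2 := (h1 u hu).differentiableAt ho'
    exact h2.mul ((diff_psw him).comp u hs)
  · exact ((hX.d c u hu).const_sub _).mul ((diff_Kgc him).comp u hs)

theorem norm_aC_far (X : Bool → ℂ → ℂ) {B : ℝ} (hB : ∀ b (z : ℂ), |z.im| < b1 → ‖X b z‖ ≤ B)
    (hb : 2 * b1 ≤ l) {z u : ℂ} (hz : |z.im| < b1) (hu : |u.im| < b1) (hzu : 1 ≤ |(z - u).re|)
    (b c : Bool) : ‖aC X b c z u‖ ≤ 18 * B := by
  have him : |(z - u).im| < l := by
    rw [Complex.sub_im]
    have := abs_sub z.im u.im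
    linarith
  have hne : z ≠ u := by
    intro h0
    rw [h0, sub_self, Complex.zero_re, abs_zero] at hzu
    linarith
  rw [aC_ne X b c him hne, norm_mul]
  have h1 : ‖X b z - X c u‖ ≤ 2 * B := by
    refine (norm_sub_le _ _).trans ?_
    linarith [hB b z hz, hB c u hu]
  have h2 : ‖kb b c (z - u)‖ ≤ 9 := by
    unfold kb
    split_ifs
    · exact norm_Kwc_le hzu
    · exact norm_Kgc_le him.le
  calc ‖X b z - X c u‖ * ‖kb b c (z - u)‖ ≤ (2 * B) * 9 :=
        mul_le_mul h1 h2 (norm_nonneg _) ((norm_nonneg _).trans h1)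
    _ = _ := by ring

/-- **the sea on the real line** -/
theorem aC_shift (hρ : SeaF b1 ρ) (hX : FldF b1 X) (hb : 2 * b1 ≤ l) {z : ℂ} (hz : |z.im| < b1)
    (b c : Bool) :
    ∫ s : ℝ, aC X b c z (s + z.im * Complex.I) * ρ (s + z.im * Complex.I) =
      ∫ s : ℝ, aC X b c z s * ρ s := by
  obtain ⟨A, κ, hA, hκ, h1⟩ := hρ.bd
  obtain ⟨B, hB, h2⟩ := hX.bd
  refine hshift (F := fun u => aC X b c z u * ρ u) (b := |z.im|) (y := z.im) le_rfl
    (K := 18 * B * A) (R := |z.re| + 1) (δ := κ) ?_ hκ ?_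
  · intro u hu
    have hu' : |u.im| < b1 := lt_of_le_of_lt hu hz
    exact ((diff_aC hX hb hz b c hu').mul (hρ.d u hu')).differentiableWithinAt
  · intro u hu hR
    have hu' : |u.im| < b1 := lt_of_le_of_lt hu hz
    have h3 : 1 ≤ |(z - u).re| := by
      rw [Complex.sub_re, abs_sub_comm]
      have := abs_sub_abs_le_abs_sub u.re z.re
      linarith
    rw [norm_mul, mul_assoc (18 * B)]
    exact mul_le_mul (norm_aC_far X h2 hb hz hu' h3 b c) (h1 u hu') (norm_nonneg _) (by positivity)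

/-- **the mean field identity at a complex point** -/
theorem mf_h (hρ : SeaF b1 ρ) (hX : FldF b1 X) (hb : 2 * b1 ≤ l) {z : ℂ} (hz : |z.im| < b1)
    (b : Bool) :
    X b z * cV (deriv ρ) z + ∑ c, ∫ s : ℝ, aC X b c z s * ρ s = -rsp (mulF ρ X) b z := by
  rw [← (line_id hρ hX hz b).2]
  congr 1
  exact Finset.sum_congr rfl fun c _ => (aC_shift hρ hX hb hz b c).symm

/-! ### the constants -/

theorem real_im (s : ℝ) (h : 0 < b1) : |(s : ℂ).im| < b1 := by
  rw [Complex.ofReal_im, abs_zero]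
  exact h

theorem cV_real (f : ℂ → ℂ) (s : ℝ) : cV f s = ∫ u : ℝ, f u * (V (s - u) : ℂ) := by
  rw [cV_ln]
  simp

theorem xi_dat0 (hρ : SeaF b1 ρ) (hX : FldF b1 X) (h0 : 0 < b1) (b : Bool) :
    ∃ B : ℝ, XiDatC (fun s : ℝ => ρ s) (fun s : ℝ => deriv ρ s)
      (fun s : ℝ => mulF ρ X b s) (fun s : ℝ => deriv (mulF ρ X b) s) B := by
  have := xi_dat hρ hX (y := 0) (by rwa [abs_zero]) b
  simpa using this

/-- convolution with the cross kernel, integrability -/
theorem int_cG {f g : ℝ → ℂ} (hf : Integrable f) (hg : Integrable g) :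
    Integrable fun t : ℝ => f t * ∫ s : ℝ, g s * (Kg (t - s) : ℂ) := by
  have h1 : Integrable (fun p : ℝ × ℝ => f p.1 * g p.2) (volume.prod volume) := hf.mul_prod hg
  have h2 : Integrable (fun p : ℝ × ℝ => f p.1 * (g p.2 * (Kg (p.1 - p.2) : ℂ)))
      (volume.prod volume) := by
    have mK : AEStronglyMeasurable (fun p : ℝ × ℝ => (Kg (p.1 - p.2) : ℂ)) (volume.prod volume) :=
      (Kg_meas.comp (measurable_fst.sub measurable_snd)).aestronglyMeasurable
    refine (h1.mul_bdd (c := 9) mK (Eventually.of_forall fun p => ?_)).congr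
      (Eventually.of_forall fun p => ?_)
    · rw [Complex.norm_real, Real.norm_eq_abs]
      exact abs_Kg_le _
    · simp only []
      ring
  have h3 := h2.integral_prod_left
  refine h3.congr (Eventually.of_forall fun t => ?_)
  simp only []
  rw [integral_const_mul]

theorem cG_real (f : ℂ → ℂ) (s : ℝ) : cG f s = ∫ u : ℝ, f u * (Kg (s - u) : ℂ) := by
  rw [cG_ln]
  simp

theorem int_line (hρ : SeaF b1 ρ) (hX : FldF b1 X) (h0 : 0 < b1) (b : Bool) :
    (Integrable fun s : ℝ => ρ s * (X b s * cV (deriv ρ) s)) ∧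
    (Integrable fun s : ℝ => ρ s * cV (deriv (mulF ρ X b)) s) ∧
    (Integrable fun s : ℝ => ρ s * cG (fun w => mulF ρ X b w - mulF ρ X (!b) w) s) ∧
    (∫ s : ℝ, ρ s * cV (deriv (mulF ρ X b)) s) = -∫ s : ℝ, ρ s * (X b s * cV (deriv ρ) s) := by
  obtain ⟨B, D⟩ := xi_dat0 hρ hX h0 b
  obtain ⟨B', D'⟩ := xi_dat0 hρ hX h0 (!b)
  have iρ := D.i0
  obtain ⟨p1, -⟩ := conv_symmC (a := fun s : ℝ => ρ s) (b := fun s : ℝ => deriv (mulF ρ X b) s)
    D.cont0 D.i1' D.b0
  obtain ⟨p2, -⟩ := conv_symmC (a := fun s : ℝ => mulF ρ X b s) (b := fun s : ℝ => deriv ρ s)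
    D.cont1 D.i0' D.b1
  have j1 : Integrable fun t : ℝ => ρ t * ∫ s : ℝ, deriv (mulF ρ X b) s * (V (t - s) : ℂ) := by
    simp_rw [← integral_const_mul]
    exact p1.integral_prod_left
  have j2 : Integrable fun t : ℝ => mulF ρ X b t * ∫ s : ℝ, deriv ρ s * (V (t - s) : ℂ) := by
    simp_rw [← integral_const_mul]
    exact p2.integral_prod_left
  have e1 : ∀ t : ℝ, ρ t * (X b t * cV (deriv ρ) t) =
      mulF ρ X b t * ∫ s : ℝ, deriv ρ s * (V (t - s) : ℂ) := by
    intro t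
    rw [cV_real]
    unfold mulF
    ring
  have e2 : ∀ t : ℝ, ρ t * cV (deriv (mulF ρ X b)) t =
      ρ t * ∫ s : ℝ, deriv (mulF ρ X b) s * (V (t - s) : ℂ) := by
    intro t
    rw [cV_real]
  simp_rw [e1, e2]
  refine ⟨j2, j1, ?_, ?_⟩
  · have h1 : Integrable fun s : ℝ => mulF ρ X b s - mulF ρ X (!b) s := D.i1.sub D'.i1
    refine (int_cG iρ h1).congr (Eventually.of_forall fun t => ?_)
    simp only []
    rw [cG_real]
  · have h1 := mf_constC D
    have h2 : (∫ t : ℝ, ρ t * ∫ s : ℝ, (mulF ρ X b t / ρ t - mulF ρ X b s / ρ s) *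
        KC (t - s) * ρ s) =
        (∫ t : ℝ, ρ t * ∫ s : ℝ, deriv (mulF ρ X b) s * (V (t - s) : ℂ)) -
          ∫ t : ℝ, mulF ρ X b t * ∫ s : ℝ, deriv ρ s * (V (t - s) : ℂ) := by
      rw [← integral_sub j1 j2]
      refine integral_congr_ae (Eventually.of_forall fun t => ?_)
      simp only []
      have h3 := (mf_xiC D t).2
      have n1 := D.ne t
      have h4 : ρ t * (mulF ρ X b t / ρ t) = mulF ρ X b t := by field_simp
      linear_combination (ρ t) * h3 - (∫ s : ℝ, deriv ρ s * (V (t - s) : ℂ)) * h4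
    rw [h2] at h1
    linear_combination h1

theorem cG_neg (f : ℂ → ℂ) (z : ℂ) : cG (fun w => -f w) z = -cG f z := by
  unfold cG
  rw [← integral_neg]
  refine integral_congr_ae (Eventually.of_forall fun u => ?_)
  simp only []
  ring

/-- the real line in the plane -/
def eR (u : ℝ) : ℂ := u

/-- the two densities -/
def rS (ρ : ℂ → ℂ) (_ : Bool) (u : ℝ) : ℂ := ρ u

theorem smr_h (hρ : SeaF b1 ρ) (hX : FldF b1 X) (hb : 2 * b1 ≤ l) {z : ℂ} (hz : |z.im| < b1)
    (b : Bool) :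
    NX.smr eR (rS ρ) (aC X) b z = -rsp (mulF ρ X) b z - X b z * cV (deriv ρ) z := by
  rw [← mf_h hρ hX hb hz b]
  unfold NX.smr eR rS
  ring

variable (ρ X) in
/-- the integrability and the constant of the algebra -/
structure ConstH : Prop where
  i1 : ∀ b, Integrable fun s : ℝ => rS ρ b s * (X b (eR s) * cV (deriv ρ) (eR s))
  i2 : ∀ b, Integrable fun s : ℝ => rS ρ b s * NX.smr eR (rS ρ) (aC X) b (eR s)
  e : ∑ b, (∫ s, rS ρ b s * (X b (eR s) * cV (deriv ρ) (eR s))) +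
    (1 / 2) * NX.dbl eR (rS ρ) (aC X) = 0

theorem constH (hρ : SeaF b1 ρ) (hX : FldF b1 X) (h0 : 0 < b1) (hb : 2 * b1 ≤ l) :
    ConstH ρ X := by
  have hL := int_line hρ hX h0
  have e0 : ∀ b (s : ℝ), rS ρ b s * NX.smr eR (rS ρ) (aC X) b (eR s) =
      ρ s * cV (deriv (mulF ρ X b)) s +
        ρ s * cG (fun w => mulF ρ X b w - mulF ρ X (!b) w) s -
        ρ s * (X b s * cV (deriv ρ) s) := by
    intro b s
    have h1 : NX.smr eR (rS ρ) (aC X) b (eR s) = _ := smr_h hρ hX hb (real_im s h0) b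
    rw [h1]
    unfold rsp rS
    ring
  refine ⟨fun b => (hL b).1, fun b => ?_, ?_⟩
  · simp_rw [e0]
    exact ((hL b).2.1.add (hL b).2.2.1).sub (hL b).1
  · unfold NX.dbl
    simp_rw [e0]
    have e1 : ∀ b, (∫ s : ℝ, (ρ s * cV (deriv (mulF ρ X b)) s +
        ρ s * cG (fun w => mulF ρ X b w - mulF ρ X (!b) w) s -
        ρ s * (X b s * cV (deriv ρ) s))) =
        -2 * (∫ s : ℝ, ρ s * (X b s * cV (deriv ρ) s)) +
          ∫ s : ℝ, ρ s * cG (fun w => mulF ρ X b w - mulF ρ X (!b) w) s := by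
      intro b
      have h12 : Integrable fun s : ℝ => ρ s * cV (deriv (mulF ρ X b)) s +
          ρ s * cG (fun w => mulF ρ X b w - mulF ρ X (!b) w) s := (hL b).2.1.add (hL b).2.2.1
      rw [integral_sub h12 (hL b).1, integral_add (hL b).2.1 (hL b).2.2.1, (hL b).2.2.2]
      ring
    simp_rw [e1]
    have e2 : (∫ s : ℝ, ρ s * cG (fun w => mulF ρ X false w - mulF ρ X (!false) w) s) =
        -∫ s : ℝ, ρ s * cG (fun w => mulF ρ X true w - mulF ρ X (!true) w) s := by
      rw [← integral_neg]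
      refine integral_congr_ae (Eventually.of_forall fun s => ?_)
      simp only [Bool.not_false, Bool.not_true]
      have : (fun w => mulF ρ X false w - mulF ρ X true w) =
          fun w => -(mulF ρ X true w - mulF ρ X false w) := by
        funext w
        ring
      rw [this, cG_neg]
      ring
    rw [Fintype.sum_bool, Fintype.sum_bool, e2]
    unfold rS eR
    ring

/-- **the algebra of the Ward identity at complex positions** -/
theorem alg_h {ι : Type*} [Fintype ι] {r : ι → ι → Prop} (hr : Tourn r) (hρ : SeaF b1 ρ)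
    (hX : FldF b1 X) (h0 : 0 < b1) (hb : 2 * b1 ≤ l) (sp : ι → Bool) {lam : Bool → ℂ → ℂ}
    (z : ι → ℂ) (hz : ∀ i, |(z i).im| < b1) :
    (∑ k, (deriv (X (sp k)) (z k) + X (sp k) (z k) * (cV (deriv ρ) (z k) + lam (sp k) (z k)))) +
      ∑ p ∈ prs r, aC X (sp p.1) (sp p.2) (z p.1) (z p.2) =
    -NX.nuL eR sp (rS ρ) (rsp (mulF ρ X)) z + NX.nuQ eR sp (rS ρ) (aC X) z +
      ∑ k, X (sp k) (z k) * lam (sp k) (z k) := by
  have C := constH hρ hX h0 hb
  have hC : ∀ b (z : ℂ), |z.im| < b1 →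
      NX.Cv eR (rS ρ) X (fun _ => cV (deriv ρ)) (rsp (mulF ρ X)) (aC X) b z = 0 := by
    intro b z hz
    unfold NX.Cv
    rw [smr_h hρ hX hb hz]
    ring
  have key := NX.normI1 hr eR sp (ρ := rS ρ) (ξ := X) (dξ := fun b => deriv (X b))
    (κr := fun _ => cV (deriv ρ)) (r1 := rsp (mulF ρ X)) (lam := fun k => lam (sp k)) (a := aC X)
    (fun b c s t => aC_symm X b c s t) C.i1 C.i2 C.e
    (fun b s => by
      rw [hC b (eR s) (real_im s h0), mul_zero]) z
  have e1 : ∀ k, NX.Cv eR (rS ρ) X (fun _ => cV (deriv ρ)) (rsp (mulF ρ X)) (aC X) (sp k) (z k) =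
      0 := fun k => hC _ _ (hz k)
  have e2 : ∀ k, deriv (X (sp k)) (z k) - (1 / 2) * aC X (sp k) (sp k) (z k) (z k) = 0 := by
    intro k
    rw [aC_diag]
    ring
  simp only [e1, e2, Finset.sum_const_zero, add_zero] at key
  have e3 : ∑ k, (rsp (mulF ρ X) (sp k) (z k) + (deriv (X (sp k)) (z k) + X (sp k) (z k) *
      (cV (deriv ρ) (z k) + lam (sp k) (z k)))) = ∑ k, rsp (mulF ρ X) (sp k) (z k) +
      ∑ k, (deriv (X (sp k)) (z k) + X (sp k) (z k) *
      (cV (deriv ρ) (z k) + lam (sp k) (z k))) := Finset.sum_add_distrib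
  rw [e3] at key
  unfold NX.nuL
  linear_combination key

end PB

end
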