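import Pool.Agent.PB.Vals

/-!
# Plan B: dictionary between the fields `β = ρ ξ` of the second Ward identity and the functionals of
`PB/Vals`

Plus channel: `V * β' = - g`; minus channel: `g = - V * β' + 2 (Gs * β)`, `Gs = - Kg`
(= the statistics of `gasWard` for `ξ_X = ± ξ_Y`, `ρ ξ = β`).

* `TC_derivTC`, **`TC_Lim`**: test functions are `Lim .. 0 0` on the real line (Cauchy);
* **`dict_C`**: `2 ∫ β h' = CV g h`; **`dict_m`**: `2 ∫ β h0 = mV mf g` (`h0 = D'`);
* **`dict_CmD`**: minus channel, `∫ β h' = CmD g' h'` for every integrable `h'`;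
  `dict_Cm`: `2 ∫ β h' = CmV g h`; `dict_Cs`: `2 ∫ β sg' = CsV sg' g`;
  `dict_Css`: for `g = sg`: `2 ∫ β sg' = CssV sg'`, `2 ∫ β h' = CsV sg' h`.
-/

set_option autoImplicit false

open MeasureTheory Set Filter Topology

namespace Pool.Agent.PB

open NUMF

noncomputable section

set_option linter.unusedSectionVars false

/-! ### test functions and their derivatives -/

section tc

variable {y₁ y₂ a M ρ : ℝ} {g : ℂ → ℂ}

lemma isOpen_Sp (y₁ y₂ : ℝ) : IsOpen (PBE.Sp y₁ y₂) :=
  (isOpen_lt continuous_const Complex.continuous_im).inter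
    (isOpen_lt Complex.continuous_im continuous_const)

theorem TC_derivTC (hg : PBE.TC y₁ y₂ a M g) (ha : 0 ≤ a) (hM : 0 ≤ M) (hρ : 0 < ρ) :
    PBE.TC (y₁ + ρ) (y₂ - ρ) a (M * Real.exp (a * ρ) / ρ) (deriv g) where
  an := by
    have h1 : DifferentiableOn ℂ (deriv g) (PBE.Sp y₁ y₂) := hg.an.deriv (isOpen_Sp y₁ y₂)
    refine h1.mono fun z hz => ?_
    have h2 : y₁ + ρ < z.im ∧ z.im < y₂ - ρ := hz
    exact ⟨by linarith [h2.1], by linarith [h2.2]⟩
  bd z hz := by
    have h2 : y₁ + ρ < z.im ∧ z.im < y₂ - ρ := hz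
    have hmem : ∀ w, ‖w - z‖ ≤ ρ → w ∈ PBE.Sp y₁ y₂ := by
      intro w hw
      have h3 := (Complex.abs_im_le_norm (w - z)).trans hw
      rw [Complex.sub_im, abs_le] at h3
      exact ⟨by linarith [h3.1, h2.1], by linarith [h3.2, h2.2]⟩
    have hd : DiffContOnCl ℂ g (Metric.ball z ρ) := by
      refine DifferentiableOn.diffContOnCl ?_
      refine hg.an.mono fun w hw => hmem w ?_
      have := Metric.closure_ball_subset_closedBall hw
      rwa [Metric.mem_closedBall, dist_eq_norm] at this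
    have hb : ∀ w ∈ Metric.sphere z ρ, ‖g w‖ ≤ M * Real.exp (a * ρ) * Real.exp (-(a * |z.re|)) := by
      intro w hw
      have hw' : ‖w - z‖ = ρ := by rwa [mem_sphere_iff_norm] at hw
      refine (hg.bd w (hmem w hw'.le)).trans ?_
      rw [mul_assoc, ← Real.exp_add]
      refine mul_le_mul_of_nonneg_left (Real.exp_le_exp.2 ?_) hM
      have h3 := (Complex.abs_re_le_norm (w - z)).trans hw'.le
      rw [Complex.sub_re] at h3
      have h4 : |z.re| ≤ |w.re| + |w.re - z.re| := by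
        have := abs_sub_abs_le_abs_sub z.re w.re
        rw [abs_sub_comm] at this
        linarith
      nlinarith
    have := Complex.norm_deriv_le_of_forall_mem_sphere_norm_le hρ hd hb
    refine this.trans (le_of_eq ?_)
    ring

/-- **test functions on the real line** -/
theorem TC_Lim (hg : PBE.TC y₁ y₂ a M g) (ha : 1 / 2 ≤ a) (hρ : 0 < ρ) (h1 : y₁ < -ρ) (h2 : ρ < y₂) :
    Lim (rl g) (rl (deriv g)) (max M (M * Real.exp (a * ρ) / ρ)) 0 0 := by
  have ha0 : 0 < a := by linarith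
  have hy1 : y₁ < 0 := by linarith
  have hy2 : 0 < y₂ := by linarith
  have hM := hg.nonneg hy1 hy2
  have hg' := TC_derivTC hg ha0.le hM hρ
  have hexp : ∀ t : ℝ, Real.exp (-(a * |t|)) ≤ Real.exp (-(|t| / 2)) := by
    intro t
    refine Real.exp_le_exp.2 ?_
    nlinarith [abs_nonneg t]
  have lim0 : ∀ F : Filter ℝ, Tendsto (fun t => |t|) F atTop → Tendsto (rl g) F (𝓝 0) := by
    intro F hF
    refine squeeze_zero_norm (fun t => TC_bd hg hy1 hy2 t) ?_
    have h1 : Tendsto (fun t : ℝ => a * |t|) F atTop := hF.const_mul_atTop ha0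
    have h2 := (Real.tendsto_exp_atBot.comp (tendsto_neg_atTop_atBot.comp h1)).const_mul M
    simpa using h2
  exact
  { d := fun t => TC_deriv hg hy1 hy2 t
    c := TC_cont hg' (by linarith) (by linarith)
    b := fun t => by
      have h3 := TC_bd hg hy1 hy2 t
      have h4 : Real.exp (-(a * |t|)) ≤ 1 := Real.exp_le_one_iff.2 (by
        have := abs_nonneg t
        nlinarith)
      refine h3.trans (le_trans ?_ (le_max_left _ _))
      nlinarith
    b' := fun t => by
      have h3 := TC_bd hg' (by linarith) (by linarith) t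
      refine h3.trans ?_
      refine mul_le_mul (le_max_right _ _) (hexp t) (Real.exp_pos _).le ?_
      exact hM.trans (le_max_left _ _)
    top := lim0 _ tendsto_abs_atTop_atTop
    bot := lim0 _ tendsto_abs_atBot_atTop }

end tc

/-! ### plus channel -/

section plus

variable {β β' g : ℝ → ℂ} {B : ℝ}

/-- integration by parts against a bounded function with derivative -/
lemma parts_zero (hβ : Lim β β' B 0 0) {h h' : ℝ → ℂ} {C : ℝ} (hd : ∀ t, HasDerivAt h (h' t) t)
    (hb : ∀ t, ‖h t‖ ≤ C) (hi : Integrable fun t => β t * h' t) :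
    ∫ t, β t * h' t = -∫ t, β' t * h t := by
  have hc : Continuous h := continuous_iff_continuousAt.2 fun t => (hd t).continuousAt
  have j1 : Integrable fun t => β' t * h t :=
    hβ.int'.mul_bdd (c := C) hc.aestronglyMeasurable (Eventually.of_forall hb)
  have hdd : ∀ t, HasDerivAt (fun t => β t * h t) (β' t * h t + β t * h' t) t := fun t =>
    (hβ.d t).mul (hd t)
  have hlim : ∀ F : Filter ℝ, Tendsto β F (𝓝 0) → Tendsto (fun t => β t * h t) F (𝓝 0) := by
    intro F hF
    refine squeeze_zero_norm (a := fun t => ‖β t‖ * C) (fun t => ?_) ?_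
    · rw [norm_mul]
      exact mul_le_mul_of_nonneg_left (hb t) (norm_nonneg _)
    · simpa using hF.norm.mul_const C
  have hp := integral_of_hasDerivAt_of_tendsto hdd (j1.add hi) (hlim _ hβ.bot) (hlim _ hβ.top)
  rw [integral_add j1 hi] at hp
  linear_combination hp

/-- **covariance, plus channel** -/
theorem dict_C {y₁ y₂ a M θ : ℝ} {h : ℂ → ℂ} (hh : PBE.TC y₁ y₂ a M h)
    (ha : 0 < a) (hθ : 0 < θ) (h1 : y₁ < -θ) (h2 : θ < y₂) (hβ : Lim β β' B 0 0)
    (he : ∀ t, ∫ s, β' s * (V (t - s) : ℂ) = -g t)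
    (hi : Integrable fun t : ℝ => β t * deriv h (t : ℂ)) :
    2 * ∫ t : ℝ, β t * deriv h (t : ℂ) = 2 * FU Up g (rl h) := by
  have hM := hh.nonneg (by linarith) (by linarith)
  have hb : ∀ t, ‖rl h t‖ ≤ M := by
    intro t
    have h3 := TC_bd hh (by linarith) (by linarith) t
    have h4 : Real.exp (-(a * |t|)) ≤ 1 := Real.exp_le_one_iff.2 (by
      have := abs_nonneg t
      nlinarith)
    nlinarith
  rw [parts_zero hβ (fun t => TC_deriv hh (by linarith) (by linarith) t) hb hi]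
  have e := form_of_conv (b := β') (g := g) (c := -1) hh ha hθ h1 h2 hβ.int' (fun t => by
    rw [he, neg_one_mul])
  have e2 : ∫ t, β' t * rl h t = ∫ t, rl h t * β' t :=
    integral_congr_ae (Eventually.of_forall fun t => mul_comm _ _)
  rw [e2, e, FU_symm symU_Up g]
  ring

/-- **mean, plus channel** -/
theorem dict_m {m m' D D' : ℝ → ℂ} {b : ℝ} {mp mm : ℂ} (h : MeanDat m m' D D' b mp mm)
    (hD' : Integrable D') (hc : Continuous D') (hβ : Lim β β' B 0 0)
    (he : ∀ t, ∫ s, β' s * (V (t - s) : ℂ) = -g t) :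
    2 * ∫ t, β t * D' t = ∫ t, g t * m t := by
  have hDc : Continuous D := continuous_iff_continuousAt.2 fun t => (h.dD t).continuousAt
  have hDb : ∀ t, ‖D t‖ ≤ (b * ∫ u, |V u|) / 2 := by
    intro t
    have h1 := h.lim.conv_bdd t
    rw [h.eq, norm_mul] at h1
    have : ‖(2 : ℂ)‖ = 2 := by simp
    rw [this] at h1
    linarith
  have hi : Integrable fun t => β t * D' t :=
    hD'.bdd_mul (c := B) hβ.cont.aestronglyMeasurable (Eventually.of_forall hβ.b)
  rw [parts_zero hβ h.dD hDb hi]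
  obtain ⟨p1, e1⟩ := conv_symmC (a := m) (b := β') h.lim.cont hβ.int' h.lim.b
  have e2 : ∫ t, m t * ∫ s, β' s * (V (t - s) : ℂ) = -∫ t, g t * m t := by
    rw [← integral_neg]
    refine integral_congr_ae (Eventually.of_forall fun t => ?_)
    simp only [he]
    ring
  have e3 : ∫ t, β' t * ∫ s, m s * (V (t - s) : ℂ) = 2 * ∫ t, β' t * D t := by
    rw [← integral_const_mul]
    refine integral_congr_ae (Eventually.of_forall fun t => ?_)
    simp only [h.eq]
    ring
  rw [e2, e3] at e1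
  linear_combination e1

end plus

/-! ### minus channel -/

section minus

variable {β β' β'' g g' : ℝ → ℂ} {B : ℝ}

lemma ft_conv' {b k : ℝ → ℂ} (hb : Integrable b) (hk : Integrable k) (q : ℝ) :
    ft (fun t => ∫ s, b s * k (t - s)) q = ft b q * ft k q := by
  have hi : Integrable (fun p : ℝ × ℝ => b p.2 * ek q p.2 * (k (p.1 - p.2) * ek q (p.1 - p.2)))
      (volume.prod volume) :=
    (mul_ek_int hb q).convolution_integrand (ContinuousLinearMap.mul ℝ ℂ) (mul_ek_int hk q)
  unfold ft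
  have e1 : ∀ t, (∫ s, b s * k (t - s)) * ek q t =
      ∫ s, b s * ek q s * (k (t - s) * ek q (t - s)) := by
    intro t
    rw [← integral_mul_const]
    refine integral_congr_ae (Eventually.of_forall fun s => ?_)
    simp only
    rw [show ek q t = ek q s * ek q (t - s) by rw [← ek_add]; congr 1; ring]
    ring
  simp_rw [e1]
  rw [integral_integral_swap hi, ← integral_mul_const]
  refine integral_congr_ae (Eventually.of_forall fun s => ?_)
  simp only
  rw [integral_const_mul]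
  congr 1
  exact integral_sub_right_eq_self (fun w => k w * ek q w) s

lemma conv_int2 {b k : ℝ → ℂ} (hb : Integrable b) (hk : Integrable k) :
    Integrable fun t => ∫ s, b s * k (t - s) := by
  have h1 : Integrable (fun p : ℝ × ℝ => b p.2 * k (p.1 - p.2)) (volume.prod volume) :=
    hb.convolution_integrand (ContinuousLinearMap.mul ℝ ℂ) hk
  exact h1.integral_prod_left

/-- derivative of `Gs * β` -/
lemma hasDerivAt_convG (hb : Integrable β) (t : ℝ) :
    HasDerivAt (fun t => ∫ s, β s * (Gs (t - s) : ℂ)) (∫ s, β s * dGC (t - s)) t := by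
  obtain ⟨C, hC⟩ : ∃ C : ℝ, ∀ u, |Gs u| ≤ C := by
    have h1 := Gs_top
    have h2 := Gs_bot
    have hc := Gs_cont
    obtain ⟨C1, hC1⟩ : ∃ C1 : ℝ, ∀ u, 0 ≤ u → |Gs u| ≤ C1 := by
      obtain ⟨R, hR⟩ := (h1.abs.eventually (gt_mem_nhds (show |(2:ℝ)| < 3 by norm_num))).exists_forall_of_atTop
      obtain ⟨M, hM⟩ := isCompact_Icc.exists_bound_of_continuousOn (s := Icc (0:ℝ) (max R 0))
        (f := Gs) hc.continuousOn
      refine ⟨max 3 M, fun u hu => ?_⟩
      rcases le_total R u with h3 | h3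
      · exact (hR u h3).le.trans (le_max_left _ _)
      · exact (hM u ⟨hu, h3.trans (le_max_left _ _)⟩).trans (le_max_right _ _)
    refine ⟨C1, fun u => ?_⟩
    rcases le_total 0 u with h3 | h3
    · exact hC1 u h3
    · have := hC1 (-u) (by linarith)
      rwa [Gs_neg, abs_neg] at this
  have hd40 : ∀ u, |dGs u| ≤ 40 := fun u => (dGs_le u).trans (by
    have : Real.exp (-(2 * |u|)) ≤ 1 := Real.exp_le_one_iff.2 (by linarith [abs_nonneg u])
    linarith)
  have hGc : Continuous fun u => (Gs u : ℂ) := Complex.continuous_ofReal.comp Gs_cont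
  have hdGc : Continuous dGC := Complex.continuous_ofReal.comp dGs_cont
  have h := hasDerivAt_integral_of_dominated_loc_of_deriv_le (μ := volume) (s := univ)
    (F := fun t s => β s * (Gs (t - s) : ℂ)) (F' := fun t s => β s * dGC (t - s)) (x₀ := t)
    (bound := fun s => ‖β s‖ * 40) univ_mem
    (Eventually.of_forall fun t => hb.aestronglyMeasurable.mul
      (hGc.comp (continuous_const.sub continuous_id)).aestronglyMeasurable)
    (hb.mul_bdd (c := C) (hGc.comp (continuous_const.sub continuous_id)).aestronglyMeasurable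
      (Eventually.of_forall fun s => by
        change ‖(Gs (t - s) : ℂ)‖ ≤ C
        rw [Complex.norm_real, Real.norm_eq_abs]
        exact hC _))
    (hb.aestronglyMeasurable.mul
      (hdGc.comp (continuous_const.sub continuous_id)).aestronglyMeasurable)
    (Eventually.of_forall fun s t _ => by
      rw [norm_mul]
      refine mul_le_mul_of_nonneg_left ?_ (norm_nonneg _)
      unfold dGC
      rw [Complex.norm_real, Real.norm_eq_abs]
      exact hd40 _)
    (hb.norm.mul_const 40)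
    (Eventually.of_forall fun s t _ => by
      have h1 : HasDerivAt (fun t => t - s) 1 t := by simpa using (hasDerivAt_id t).sub_const s
      have h2 := ((hasDerivAt_Gs (t - s)).comp t h1).ofReal_comp.const_mul (β s)
      simpa [dGC] using h2)
  exact h.2

lemma ft_comb2 {f h : ℝ → ℂ} (hf : Integrable f) (hh : Integrable h) (q : ℝ) :
    ft (fun t => -f t + 2 * h t) q = -ft f q + 2 * ft h q := by
  have k1 : Integrable fun t => -(f t * ek q t) := (mul_ek_int hf q).neg
  have k2 : Integrable fun t => 2 * (h t * ek q t) := (mul_ek_int hh q).const_mul 2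
  unfold ft
  rw [← integral_neg, ← integral_const_mul, ← integral_add k1 k2]
  refine integral_congr_ae (Eventually.of_forall fun t => ?_)
  simp only
  ring

/-- the transform of `β` -/
theorem ft_beta (hβ : Lim β β' B 0 0) (hβ' : Lim β' β'' B 0 0) (hg : ∀ t, HasDerivAt g (g' t) t)
    (he : ∀ t, g t = -(∫ s, β' s * (V (t - s) : ℂ)) + 2 * ∫ s, β s * (Gs (t - s) : ℂ))
    {q : ℝ} (hq : q ≠ 0) : ft g' q = (q : ℂ) ^ 2 * (Um q : ℂ) * ft β q := by
  have iβ := hβ.int_zero
  have e1 : g' = fun t => -(∫ s, β'' s * (V (t - s) : ℂ)) + 2 * ∫ s, β s * dGC (t - s) := by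
    funext t
    have h1 := (hβ'.conv_hasDerivAt t).neg
    have h2 := (hasDerivAt_convG iβ t).const_mul 2
    have h3 := h1.add h2
    have h4 : g = fun t => -(∫ s, β' s * (V (t - s) : ℂ)) + 2 * ∫ s, β s * (Gs (t - s) : ℂ) := funext he
    have h5 := hg t
    rw [h4] at h5
    exact h5.unique h3
  have j1 : Integrable fun t => ∫ s, β'' s * (V (t - s) : ℂ) := hβ'.conv_int'
  have j2 : Integrable fun t => ∫ s, β s * dGC (t - s) := conv_int2 iβ dGC_int
  have e2 : ft g' q = -ft (fun t => ∫ s, β'' s * (V (t - s) : ℂ)) q +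
      2 * ft (fun t => ∫ s, β s * dGC (t - s)) q := by
    rw [e1]
    exact ft_comb2 j1 j2 q
  have e3 := ft_deriv hβ.d iβ hβ.int' q
  have e4 := ft_deriv hβ'.d hβ.int' hβ'.int' q
  have hI : Complex.I * Complex.I = -1 := Complex.I_mul_I
  rw [e2, ft_conv hβ'.int' q, ft_conv' iβ dGC_int q, ft_V hq, ft_dG hq, e4, e3, Um_eq]
  push_cast
  linear_combination (-((q : ℂ) ^ 2 * ft β q * (Up q : ℂ))) * hI

lemma ft_beta_int (hβ : Lim β β' B 0 0) (hβ' : Lim β' β'' B 0 0) : Integrable (ft β) := by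
  have iβ := hβ.int_zero
  have hC : Integrable fun q : ℝ => ((∫ t, ‖β t‖) + ∫ t, ‖β'' t‖) * (1 + q ^ 2)⁻¹ :=
    integrable_inv_one_add_sq.const_mul _
  refine hC.mono' (ft_cont iβ).aestronglyMeasurable (Eventually.of_forall fun q => ?_)
  have e3 := ft_deriv hβ.d iβ hβ.int' q
  have e4 := ft_deriv hβ'.d hβ.int' hβ'.int' q
  have h1 := ft_bdd (f := β) q
  have h2 := ft_bdd (f := β'') q
  rw [e4, e3] at h2
  have h3 : ‖(q : ℂ) * Complex.I * ((q : ℂ) * Complex.I * ft β q)‖ = q ^ 2 * ‖ft β q‖ := by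
    rw [norm_mul, norm_mul, norm_mul, norm_mul, Complex.norm_I, Complex.norm_real, Real.norm_eq_abs,
      ← sq_abs q]
    ring
  rw [h3] at h2
  rw [← div_eq_mul_inv, le_div_iff₀ (by positivity)]
  linarith

/-- **covariances, minus channel** -/
theorem dict_CmD (hβ : Lim β β' B 0 0) (hβ' : Lim β' β'' B 0 0) (hg : ∀ t, HasDerivAt g (g' t) t)
    (he : ∀ t, g t = -(∫ s, β' s * (V (t - s) : ℂ)) + 2 * ∫ s, β s * (Gs (t - s) : ℂ))
    {h' : ℝ → ℂ} (hh : Integrable h') : ∫ t, β t * h' t = CmD g' h' := by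
  rw [parseval hβ.int_zero hβ.cont (ft_beta_int hβ hβ') hh]
  unfold CmD
  congr 1
  refine integral_congr_ae ?_
  filter_upwards [ae_ne_zero] with q hq
  have hq' : (q : ℂ) ≠ 0 := Complex.ofReal_ne_zero.2 hq
  have hU : (Um q : ℂ) ≠ 0 := Complex.ofReal_ne_zero.2 (Um_ne hq)
  rw [ft_beta hβ hβ' hg he hq]
  field_simp

lemma CmD_symm' (f' g' : ℝ → ℂ) : CmD f' g' = CmD g' f' := by
  unfold CmD
  congr 1
  rw [← integral_neg_eq_self]
  refine integral_congr_ae (Eventually.of_forall fun q => ?_)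
  simp only
  rw [Um_even, neg_neg]
  push_cast
  rw [neg_sq, mul_comm]

/-- two test functions -/
theorem dict_Cm {y₁ y₂ a M M' ρ : ℝ} {G h : ℂ → ℂ} (hG : PBE.TC y₁ y₂ a M G) (hh : PBE.TC y₁ y₂ a M' h)
    (ha : 1 / 2 ≤ a) (hρ : 0 < ρ) (h1 : y₁ < -ρ) (h2 : ρ < y₂) (hβ : Lim β β' B 0 0)
    (hβ' : Lim β' β'' B 0 0)
    (he : ∀ t, rl G t = -(∫ s, β' s * (V (t - s) : ℂ)) + 2 * ∫ s, β s * (Gs (t - s) : ℂ)) :
    2 * ∫ t : ℝ, β t * deriv h (t : ℂ) = CmV G h := by
  have lG := TC_Lim hG ha hρ h1 h2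
  have lh := TC_Lim hh ha hρ h1 h2
  have e := dict_CmD hβ hβ' lG.d he lh.int'
  have e2 : ∫ t : ℝ, β t * deriv h (t : ℂ) = ∫ t, β t * rl (deriv h) t := rfl
  rw [e2, e]
  unfold CmV
  rw [← Cm_eq_FU, Cm_eq_CmD (lG.mono (le_max_left _ _)) (lh.mono (le_max_right _ _))]

/-- a test function against the smooth sign -/
theorem dict_Cs {y₁ y₂ a M ρ : ℝ} {G : ℂ → ℂ} (hG : PBE.TC y₁ y₂ a M G)
    (ha : 1 / 2 ≤ a) (hρ : 0 < ρ) (h1 : y₁ < -ρ) (h2 : ρ < y₂) (hβ : Lim β β' B 0 0)
    (hβ' : Lim β' β'' B 0 0)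
    (he : ∀ t, rl G t = -(∫ s, β' s * (V (t - s) : ℂ)) + 2 * ∫ s, β s * (Gs (t - s) : ℂ))
    {sg' : ℝ → ℂ} (hs : Integrable sg') : 2 * ∫ t, β t * sg' t = CsV sg' G := by
  have lG := TC_Lim hG ha hρ h1 h2
  rw [dict_CmD hβ hβ' lG.d he hs]
  rfl

/-- the smooth sign against a test function -/
theorem dict_sC {y₁ y₂ a M ρ : ℝ} {h : ℂ → ℂ} (hh : PBE.TC y₁ y₂ a M h)
    (ha : 1 / 2 ≤ a) (hρ : 0 < ρ) (h1 : y₁ < -ρ) (h2 : ρ < y₂) (hβ : Lim β β' B 0 0)
    (hβ' : Lim β' β'' B 0 0) {sg sg' : ℝ → ℂ} (hs : ∀ t, HasDerivAt sg (sg' t) t)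
    (he : ∀ t, sg t = -(∫ s, β' s * (V (t - s) : ℂ)) + 2 * ∫ s, β s * (Gs (t - s) : ℂ)) :
    2 * ∫ t : ℝ, β t * deriv h (t : ℂ) = CsV sg' h := by
  have lh := TC_Lim hh ha hρ h1 h2
  have e := dict_CmD hβ hβ' hs he lh.int'
  have e2 : ∫ t : ℝ, β t * deriv h (t : ℂ) = ∫ t, β t * rl (deriv h) t := rfl
  rw [e2, e, CmD_symm']
  rfl

/-- the smooth sign against itself -/
theorem dict_Css (hβ : Lim β β' B 0 0) (hβ' : Lim β' β'' B 0 0) {sg sg' : ℝ → ℂ}
    (hs : ∀ t, HasDerivAt sg (sg' t) t) (hi : Integrable sg')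
    (he : ∀ t, sg t = -(∫ s, β' s * (V (t - s) : ℂ)) + 2 * ∫ s, β s * (Gs (t - s) : ℂ)) :
    2 * ∫ t, β t * sg' t = CssV sg' := by
  rw [dict_CmD hβ hβ' hs he hi]
  rfl

end minus

end

end Pool.Agent.PB
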