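import Pool.Agent.PB.MeanF
import Pool.Agent.PB.Dict

/-!
# The mean data of the legs

Mean density `t ↦ mF0 (t - τ - 3/2 l i)`, potential `D`, `D' t = dleg (t - τ)`; everything uniform in
`|τ| ≤ 1`.

* `tanh_sgn`: `|tanh w ∓ 1| ≤ 2 / cos a e^{-2 |Re w|}`;
* **`dleg_TC`**: `dleg (· - τ)` and its derivative are test functions in every strip inside
  `- l < Im z < 4 l`, `a = 2`;
* **`dleg_Lim`**: `Lim (dleg (· - τ)) (dleg' ..)`, `Lim (dleg' ..) (dleg'' ..)`;
* **`mF_Lim`**: `Lim (mF0 (· - τ - 3/2 l i)) (mF0' ..) B (8 i / (3 π)) (- 8 i / (3 π))`;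
* **`mF_MeanDat`**: `MeanDat` of the legs.
-/

set_option autoImplicit false

noncomputable section

open MeasureTheory Set Filter Topology Complex

namespace PBLeg

open NUMF Pool.Agent.PB

/-! ## 1. `tanh` -/

theorem cosh_ge_exp {a : ℝ} {w : ℂ} (ha : a < Real.pi / 2) (hw : |w.im| ≤ a) :
    Real.exp |w.re| / 2 * Real.cos a ≤ ‖Complex.cosh w‖ := by
  have ha0 : 0 ≤ a := (abs_nonneg _).trans hw
  have hc : 0 < Real.cos a := Real.cos_pos_of_mem_Ioo ⟨by linarith, ha⟩
  have hc1 : Real.cos a ≤ |Real.cos w.im| := by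
    rw [← Real.cos_abs w.im]
    refine le_trans ?_ (le_abs_self _)
    exact Real.cos_le_cos_of_nonneg_of_le_pi (abs_nonneg _) (by linarith [Real.pi_pos]) hw
  have h1 := norm_cosh_ge' w
  have h2 := exp_le_two_cosh w.re
  refine le_trans ?_ h1
  exact mul_le_mul (by linarith) hc1 hc.le (Real.cosh_pos _).le

theorem tanh_sub_one {a : ℝ} {w : ℂ} (ha : a < Real.pi / 2) (hw : |w.im| ≤ a) (hr : 0 ≤ w.re) :
    ‖Complex.tanh w - 1‖ ≤ 2 / Real.cos a * Real.exp (-2 * |w.re|) := by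
  have ha0 : 0 ≤ a := (abs_nonneg _).trans hw
  have hc : 0 < Real.cos a := Real.cos_pos_of_mem_Ioo ⟨by linarith, ha⟩
  have h1 := cosh_ge_exp ha hw
  have hne : Complex.cosh w ≠ 0 := cosh_ne (lt_of_le_of_lt hw ha)
  have e : Complex.tanh w - 1 = -(Complex.exp (-w) / Complex.cosh w) := by
    rw [Complex.tanh_eq_sinh_div_cosh, div_sub_one hne, ← neg_div]
    congr 1
    rw [Complex.sinh, Complex.cosh]
    ring
  rw [e, norm_neg, norm_div, Complex.norm_exp, Complex.neg_re]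
  have h2 : 0 < Real.exp |w.re| / 2 * Real.cos a := by positivity
  calc Real.exp (-w.re) / ‖Complex.cosh w‖ ≤ Real.exp (-w.re) / (Real.exp |w.re| / 2 * Real.cos a) := by
        gcongr
    _ = 2 / Real.cos a * (Real.exp (-w.re) / Real.exp |w.re|) := by
        have := Real.exp_pos |w.re|
        field_simp
    _ = _ := by
        rw [← Real.exp_sub]
        congr 2
        rw [abs_of_nonneg hr]
        ring

theorem tanh_add_one {a : ℝ} {w : ℂ} (ha : a < Real.pi / 2) (hw : |w.im| ≤ a) (hr : w.re ≤ 0) :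
    ‖Complex.tanh w + 1‖ ≤ 2 / Real.cos a * Real.exp (-2 * |w.re|) := by
  have h := tanh_sub_one (w := -w) ha (by rwa [Complex.neg_im, abs_neg]) (by rw [Complex.neg_re]; linarith)
  rw [Complex.tanh_neg, Complex.neg_re, abs_neg] at h
  have e : -(Complex.tanh w + 1) = -Complex.tanh w - 1 := by ring
  rw [← norm_neg, e]
  exact h

theorem tanh_bd {a : ℝ} {w : ℂ} (ha : a < Real.pi / 2) (hw : |w.im| ≤ a) :
    ‖Complex.tanh w‖ ≤ 1 + 2 / Real.cos a := by
  have ha0 : 0 ≤ a := (abs_nonneg _).trans hw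
  have hc : 0 < Real.cos a := Real.cos_pos_of_mem_Ioo ⟨by linarith, ha⟩
  have he : 2 / Real.cos a * Real.exp (-2 * |w.re|) ≤ 2 / Real.cos a := by
    refine mul_le_of_le_one_right (by positivity) (Real.exp_le_one_iff.2 ?_)
    have := abs_nonneg w.re
    linarith
  rcases le_total 0 w.re with hr | hr
  · have h1 := tanh_sub_one ha hw hr
    have h2 : ‖Complex.tanh w‖ ≤ ‖Complex.tanh w - 1‖ + 1 := by
      have := norm_add_le (Complex.tanh w - 1) 1
      rwa [sub_add_cancel, norm_one] at this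
    linarith
  · have h1 := tanh_add_one ha hw hr
    have h2 : ‖Complex.tanh w‖ ≤ ‖Complex.tanh w + 1‖ + 1 := by
      have := norm_sub_le (Complex.tanh w + 1) 1
      rwa [add_sub_cancel_right, norm_one] at this
    linarith

/-- difference of two `tanh` -/
theorem tanh_sub_tanh {a b : ℝ} {w v : ℂ} (ha : a < Real.pi / 2) (hw : |w.im| ≤ a) (hb : b < Real.pi / 2)
    (hv : |v.im| ≤ b) (hre : w.re = v.re) :
    ‖Complex.tanh w - Complex.tanh v‖ ≤ (2 / Real.cos a + 2 / Real.cos b) * Real.exp (-2 * |w.re|) := by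
  rcases le_total 0 w.re with hr | hr
  · have h1 := tanh_sub_one ha hw hr
    have h2 := tanh_sub_one hb hv (by rwa [← hre])
    rw [← hre] at h2
    have h3 := norm_sub_le (Complex.tanh w - 1) (Complex.tanh v - 1)
    rw [sub_sub_sub_cancel_right] at h3
    rw [add_mul]
    linarith
  · have h1 := tanh_add_one ha hw hr
    have h2 := tanh_add_one hb hv (by rwa [← hre])
    rw [← hre] at h2
    have h3 := norm_sub_le (Complex.tanh w + 1) (Complex.tanh v + 1)
    rw [add_sub_add_right_eq_sub] at h3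
    rw [add_mul]
    linarith

/-! ## 2. `dleg` -/

theorem lt_half_pi : 4 * l = Real.pi / 2 := by
  have := eight_l
  linarith

/-- the derivative of `dleg` -/
def dleg' (z : ℂ) : ℂ := S2 z - S2 (z - (3 * l : ℝ) * I)

theorem dleg_hasDerivAt {z : ℂ} (h1 : -l < z.im) (h2 : z.im < 4 * l) : HasDerivAt dleg (dleg' z) z := by
  have hl := l_pos
  have h8 := lt_half_pi
  have g1 := tanh_hasDerivAt (w := z) (by rw [← h8, abs_lt]; constructor <;> linarith)
  have g2 := (tanh_hasDerivAt (w := z - (3 * l : ℝ) * I) (by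
    rw [← h8, abs_lt]
    have : (z - (3 * l : ℝ) * I).im = z.im - 3 * l := by simp
    rw [this]
    constructor <;> linarith)).comp z ((hasDerivAt_id z).sub_const ((3 * l : ℝ) * I))
  have e : dleg = fun z => Complex.tanh z - Complex.tanh (z - (3 * l : ℝ) * I) := funext dleg_eq
  rw [e]
  have g3 := g1.sub g2
  rw [mul_one] at g3
  exact g3

theorem dleg'_diff {z : ℂ} (h1 : -l < z.im) (h2 : z.im < 4 * l) : DifferentiableAt ℂ dleg' z := by
  have hl := l_pos
  have h8 := lt_half_pi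
  have g1 := S2_diff (w := z) (by rw [← h8, abs_lt]; constructor <;> linarith)
  have g2 : DifferentiableAt ℂ (fun z : ℂ => S2 (z - (3 * l : ℝ) * I)) z := by
    have g := S2_diff (w := z - (3 * l : ℝ) * I) (by
      rw [← h8, abs_lt]
      have : (z - (3 * l : ℝ) * I).im = z.im - 3 * l := by simp
      rw [this]
      constructor <;> linarith)
    exact DifferentiableAt.comp (f := fun z : ℂ => z - (3 * l : ℝ) * I) z g (by fun_prop)
  exact g1.sub g2

theorem exp_shift {τ x : ℝ} (hτ : |τ| ≤ 1) : Real.exp (-2 * |x - τ|) ≤ Real.exp 2 * Real.exp (-2 * |x|) := by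
  rw [← Real.exp_add]
  refine Real.exp_le_exp.2 ?_
  have h1 : |x| ≤ |x - τ| + |τ| := by
    have := abs_add_le (x - τ) τ
    rwa [sub_add_cancel] at this
  linarith

/-- **`dleg (· - τ)` and its derivative are test functions** -/
theorem dleg_TC {y₁ y₂ : ℝ} (h1 : -l < y₁) (h2 : y₂ < 4 * l) :
    ∃ M : ℝ, 0 < M ∧ ∀ a : ℝ, a ≤ 2 → ∀ τ : ℝ, |τ| ≤ 1 →
      PBE.TC y₁ y₂ a M (fun z => dleg (z - τ)) ∧ PBE.TC y₁ y₂ a M (fun z => dleg' (z - τ)) := by
  have hl := l_pos
  have h8 := lt_half_pi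
  have c1 : max l y₂ < Real.pi / 2 := by rw [← h8]; exact max_lt (by linarith) h2
  have c2 : max l (3 * l - y₁) < Real.pi / 2 := by rw [← h8]; exact max_lt (by linarith) (by linarith)
  have cp : ∀ a : ℝ, a < Real.pi / 2 → 0 < a → 0 < Real.cos a := fun a ha h0 =>
    Real.cos_pos_of_mem_Ioo ⟨by linarith, ha⟩
  have k1 : 0 < Real.cos (max l y₂) := cp _ c1 (lt_of_lt_of_le hl (le_max_left _ _))
  have k2 : 0 < Real.cos (max l (3 * l - y₁)) := cp _ c2 (lt_of_lt_of_le hl (le_max_left _ _))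
  set N1 : ℝ := 2 / Real.cos (max l y₂) + 2 / Real.cos (max l (3 * l - y₁)) with hN1
  set N2 : ℝ := 4 / Real.cos (max l y₂) ^ 2 + 4 / Real.cos (max l (3 * l - y₁)) ^ 2 with hN2
  have n1 : 0 < N1 := by positivity
  have n2 : 0 < N2 := by positivity
  have e2 := Real.exp_pos 2
  refine ⟨(N1 + N2) * Real.exp 2, by positivity, fun a ha τ hτ => ?_⟩
  have him : ∀ z ∈ PBE.Sp y₁ y₂, -l < (z - τ : ℂ).im ∧ (z - τ : ℂ).im < 4 * l ∧
      |(z - τ : ℂ).im| ≤ max l y₂ ∧ |(z - τ - (3 * l : ℝ) * I : ℂ).im| ≤ max l (3 * l - y₁) := by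
    intro z hz
    have hz' : y₁ < z.im ∧ z.im < y₂ := hz
    obtain ⟨z1, z2⟩ := hz'
    have i1 : (z - τ : ℂ).im = z.im := by simp
    have i2 : (z - τ - (3 * l : ℝ) * I : ℂ).im = z.im - 3 * l := by simp
    rw [i1, i2]
    have m1 := le_max_left l y₂
    have m2 := le_max_right l y₂
    have m3 := le_max_left l (3 * l - y₁)
    have m4 := le_max_right l (3 * l - y₁)
    refine ⟨by linarith, by linarith, ?_, ?_⟩ <;> rw [abs_le] <;> constructor <;> linarith
  have hre : ∀ z : ℂ, (z - τ : ℂ).re = z.re - τ := by intro z; simp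
  have hre' : ∀ z : ℂ, (z - τ : ℂ).re = (z - τ - (3 * l : ℝ) * I : ℂ).re := by intro z; simp
  have hexp : ∀ z : ℂ, Real.exp (-2 * |(z - τ : ℂ).re|) ≤ Real.exp 2 * Real.exp (-(a * |z.re|)) := by
    intro z
    rw [hre]
    refine (exp_shift hτ).trans (mul_le_mul_of_nonneg_left (Real.exp_le_exp.2 ?_) e2.le)
    have := abs_nonneg z.re
    nlinarith
  constructor
  · refine ⟨fun z hz => ?_, fun z hz => ?_⟩
    · obtain ⟨q1, q2, -, -⟩ := him z hz
      exact (DifferentiableAt.comp (f := fun z : ℂ => z - (τ : ℂ)) z (dleg_hasDerivAt q1 q2).differentiableAt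
        (by fun_prop)).differentiableWithinAt
    · obtain ⟨-, -, q3, q4⟩ := him z hz
      rw [dleg_eq]
      calc _ ≤ N1 * Real.exp (-2 * |(z - τ : ℂ).re|) := tanh_sub_tanh c1 q3 c2 q4 (hre' z)
        _ ≤ (N1 + N2) * (Real.exp 2 * Real.exp (-(a * |z.re|))) :=
            mul_le_mul (by linarith) (hexp z) (Real.exp_pos _).le (by linarith)
        _ = _ := by ring
  · refine ⟨fun z hz => ?_, fun z hz => ?_⟩
    · obtain ⟨q1, q2, -, -⟩ := him z hz
      exact (DifferentiableAt.comp (f := fun z : ℂ => z - (τ : ℂ)) z (dleg'_diff q1 q2)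
        (by fun_prop)).differentiableWithinAt
    · obtain ⟨-, -, q3, q4⟩ := him z hz
      have s1 := S2_le c1 q3
      have s2 := S2_le c2 q4
      rw [← hre' z] at s2
      calc ‖dleg' (z - τ)‖ ≤ ‖S2 (z - τ)‖ + ‖S2 (z - τ - (3 * l : ℝ) * I)‖ := norm_sub_le _ _
        _ ≤ N2 * Real.exp (-2 * |(z - τ : ℂ).re|) := by rw [hN2, add_mul]; exact add_le_add s1 s2
        _ ≤ (N1 + N2) * (Real.exp 2 * Real.exp (-(a * |z.re|))) :=
            mul_le_mul (by linarith) (hexp z) (Real.exp_pos _).le (by linarith)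
        _ = _ := by ring

/-- `dleg (· - τ)` on the real line -/
theorem dleg_rl_hasDerivAt (τ t : ℝ) : HasDerivAt (fun t : ℝ => dleg (t - τ)) (dleg' (t - τ)) t := by
  have hl := l_pos
  have i1 : ((t : ℂ) - τ).im = 0 := by simp
  have h := dleg_hasDerivAt (z := t - τ) (by rw [i1]; linarith) (by rw [i1]; linarith)
  have h1 : HasDerivAt (fun t : ℝ => (t : ℂ) - τ) 1 t := (hasDerivAt_id t).ofReal_comp.sub_const _
  have h2 := h.comp t h1
  rw [mul_one] at h2
  exact h2

theorem deriv_dleg {τ : ℝ} {z : ℂ} (h1 : -l < z.im) (h2 : z.im < 4 * l) :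
    deriv (fun z : ℂ => dleg (z - τ)) z = dleg' (z - τ) := by
  have i1 : (z - τ : ℂ).im = z.im := by simp
  have h := (dleg_hasDerivAt (z := z - τ) (by rwa [i1]) (by rwa [i1])).comp z ((hasDerivAt_id z).sub_const _)
  rw [mul_one] at h
  exact h.deriv

/-! ## 3. `Lim` -/

/-- second derivative -/
def dleg'' (z : ℂ) : ℂ := deriv dleg' z

theorem dleg_Lim : ∃ B : ℝ, 0 < B ∧ ∀ τ : ℝ, |τ| ≤ 1 →
    Lim (fun t : ℝ => dleg (t - τ)) (fun t : ℝ => dleg' (t - τ)) B 0 0 ∧
    Lim (fun t : ℝ => dleg' (t - τ)) (fun t : ℝ => dleg'' (t - τ)) B 0 0 := by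
  have hl := l_pos
  obtain ⟨M, hM, h⟩ := dleg_TC (y₁ := -(l / 2)) (y₂ := l / 2) (by linarith) (by linarith)
  set B : ℝ := max M (M * Real.exp (2 * (l / 4)) / (l / 4)) with hB
  refine ⟨B, lt_of_lt_of_le hM (le_max_left _ _), fun τ hτ => ?_⟩
  obtain ⟨t1, t2⟩ := h 2 le_rfl τ hτ
  have g1 := TC_Lim t1 (by norm_num) (ρ := l / 4) (by linarith) (by linarith) (by linarith)
  have g2 := TC_Lim t2 (by norm_num) (ρ := l / 4) (by linarith) (by linarith) (by linarith)
  have e1 : rl (deriv fun z : ℂ => dleg (z - τ)) = fun t : ℝ => dleg' (t - τ) := by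
    funext t
    exact deriv_dleg (by simpa using hl) (by simpa using hl)
  have e2 : rl (deriv fun z : ℂ => dleg' (z - τ)) = fun t : ℝ => dleg'' (t - τ) := by
    funext t
    have i1 : ((t : ℂ) - τ).im = 0 := by simp
    have h3 := (dleg'_diff (z := t - τ) (by rw [i1]; linarith) (by rw [i1]; linarith)).hasDerivAt.comp
      (t : ℂ) ((hasDerivAt_id (t : ℂ)).sub_const (τ : ℂ))
    rw [mul_one] at h3
    exact h3.deriv
  rw [e1] at g1
  rw [e2] at g2
  exact ⟨g1, g2⟩

/-! ## 4. The mean density -/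

theorem mF0_eq {w : ℂ} (hw : |w.im| < 5 / 2 * l) :
    mF0 w = 4 * I / (3 * Real.pi) * (Complex.tanh (4 / 3 * w + Real.pi / 12 * I) +
      Complex.tanh (4 / 3 * w - Real.pi / 12 * I)) := by
  have hpi := Real.pi_pos
  have h8 := eight_l
  obtain ⟨c1, c2⟩ := abs12 (z := w) le_rfl
  have n1 := cosh_ne (lt_of_le_of_lt c1 (by linarith) : |(4 / 3 * w + Real.pi / 12 * I : ℂ).im| < Real.pi / 2)
  have n2 := cosh_ne (lt_of_le_of_lt c2 (by linarith) : |(4 / 3 * w - Real.pi / 12 * I : ℂ).im| < Real.pi / 2)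
  rw [Complex.tanh_eq_sinh_div_cosh, Complex.tanh_eq_sinh_div_cosh, div_add_div _ _ n1 n2]
  set u : ℂ := 4 / 3 * w + Real.pi / 12 * I with hu
  set v : ℂ := 4 / 3 * w - Real.pi / 12 * I with hv
  have e1 : Complex.sinh u * Complex.cosh v + Complex.cosh u * Complex.sinh v = Complex.sinh (8 / 3 * w) := by
    rw [← Complex.sinh_add]
    congr 1
    rw [hu, hv]
    ring
  have e2 : 2 * (Complex.cosh u * Complex.cosh v) = Complex.cosh (8 / 3 * w) + (√3 : ℝ) / 2 := by
    have f1 : Complex.cosh (8 / 3 * w) = Complex.cosh u * Complex.cosh v + Complex.sinh u * Complex.sinh v := by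
      rw [← Complex.cosh_add]
      congr 1
      rw [hu, hv]
      ring
    have f2 : ((√3 : ℝ) : ℂ) / 2 = Complex.cosh u * Complex.cosh v - Complex.sinh u * Complex.sinh v := by
      rw [← Complex.cosh_sub, ← cos_pi_6, ← Complex.cosh_mul_I]
      congr 1
      rw [hu, hv]
      ring
    rw [f1, f2]
    ring
  have n3 : Complex.cosh u * Complex.cosh v ≠ 0 := mul_ne_zero n1 n2
  unfold mF0
  rw [← e2, e1]
  field_simp
  ring

/-- the line of the mean density -/
theorem im_line (t τ : ℝ) : ((t : ℂ) - τ - 3 / 2 * l * I).im = -(3 / 2 * l) := by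
  have : ((t : ℂ) - τ - 3 / 2 * l * I) = ((t - τ : ℝ) : ℂ) - (3 / 2 * l : ℝ) * I := by push_cast; ring
  rw [this]
  simp

theorem re_line (t τ : ℝ) : ((t : ℂ) - τ - 3 / 2 * l * I).re = t - τ := by
  have : ((t : ℂ) - τ - 3 / 2 * l * I) = ((t - τ : ℝ) : ℂ) - (3 / 2 * l : ℝ) * I := by push_cast; ring
  rw [this]
  simp

theorem abs_line (t τ : ℝ) : |((t : ℂ) - τ - 3 / 2 * l * I).im| = 3 / 2 * l := by
  have hl := l_pos
  rw [im_line, abs_neg, abs_of_pos (by positivity)]

theorem re_arg (w : ℂ) (c : ℝ) : (4 / 3 * w + c * I).re = 4 / 3 * w.re := by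
  have : (4 / 3 : ℂ) = ((4 / 3 : ℝ) : ℂ) := by push_cast; rfl
  rw [this, Complex.add_re, Complex.re_ofReal_mul]
  simp

theorem im_arg (w : ℂ) (c : ℝ) : (4 / 3 * w + c * I).im = 4 / 3 * w.im + c := by
  have : (4 / 3 : ℂ) = ((4 / 3 : ℝ) : ℂ) := by push_cast; rfl
  rw [this, Complex.add_im, Complex.im_ofReal_mul]
  simp

/-- two sided estimate of `mF0` on the line -/
theorem mF0_near {w : ℂ} (hw : |w.im| ≤ 3 / 2 * l) :
    (0 ≤ w.re → ‖mF0 w - 8 * I / (3 * Real.pi)‖ ≤ 4 / Real.cos (3 * l) * Real.exp (-2 * |4 / 3 * w.re|)) ∧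
    (w.re ≤ 0 → ‖mF0 w - -(8 * I / (3 * Real.pi))‖ ≤ 4 / Real.cos (3 * l) * Real.exp (-2 * |4 / 3 * w.re|)) := by
  have hpi := Real.pi_pos
  have hl := l_pos
  have h8 := lt_half_pi
  have ha : 3 * l < Real.pi / 2 := by linarith
  have hc : 0 < Real.cos (3 * l) := Real.cos_pos_of_mem_Ioo ⟨by linarith, ha⟩
  have hq : Real.pi / 12 = 2 / 3 * l := by linarith
  obtain ⟨w1, w2⟩ := abs_le.1 hw
  have e := mF0_eq (w := w) (lt_of_le_of_lt hw (by linarith))
  have p1 : (4 / 3 * w + Real.pi / 12 * I : ℂ) = 4 / 3 * w + ((Real.pi / 12 : ℝ) : ℂ) * I := by push_cast; rfl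
  have p2 : (4 / 3 * w - Real.pi / 12 * I : ℂ) = 4 / 3 * w + ((-(Real.pi / 12) : ℝ) : ℂ) * I := by
    push_cast; ring
  rw [p1, p2] at e
  set u : ℂ := 4 / 3 * w + ((Real.pi / 12 : ℝ) : ℂ) * I with hu
  set v : ℂ := 4 / 3 * w + ((-(Real.pi / 12) : ℝ) : ℂ) * I with hv
  have iu : |u.im| ≤ 3 * l := by
    rw [hu, im_arg, hq, abs_le]
    constructor <;> linarith
  have iv : |v.im| ≤ 3 * l := by
    rw [hv, im_arg, hq, abs_le]
    constructor <;> linarith
  have ru : u.re = 4 / 3 * w.re := by rw [hu, re_arg]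
  have rv : v.re = 4 / 3 * w.re := by rw [hv, re_arg]
  have nc : ‖(4 * I / (3 * Real.pi) : ℂ)‖ ≤ 1 := by
    rw [norm_div, norm_mul, norm_mul, Complex.norm_I, Complex.norm_real, Real.norm_eq_abs,
      abs_of_pos hpi, Complex.norm_ofNat, Complex.norm_ofNat, div_le_one (by positivity)]
    have := Real.pi_gt_three
    linarith
  have hfin : ∀ c : ℂ, ‖Complex.tanh u - c‖ ≤ 2 / Real.cos (3 * l) * Real.exp (-2 * |4 / 3 * w.re|) →
      ‖Complex.tanh v - c‖ ≤ 2 / Real.cos (3 * l) * Real.exp (-2 * |4 / 3 * w.re|) →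
      ‖mF0 w - c * (8 * I / (3 * Real.pi))‖ ≤ 4 / Real.cos (3 * l) * Real.exp (-2 * |4 / 3 * w.re|) := by
    intro c h1 h2
    have e3 : mF0 w - c * (8 * I / (3 * Real.pi)) =
        4 * I / (3 * Real.pi) * ((Complex.tanh u - c) + (Complex.tanh v - c)) := by
      rw [e]
      ring
    rw [e3, norm_mul]
    calc _ ≤ 1 * ‖(Complex.tanh u - c) + (Complex.tanh v - c)‖ := mul_le_mul_of_nonneg_right nc (norm_nonneg _)
      _ ≤ ‖Complex.tanh u - c‖ + ‖Complex.tanh v - c‖ := by rw [one_mul]; exact norm_add_le _ _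
      _ ≤ _ := by
        refine (add_le_add h1 h2).trans (le_of_eq ?_)
        ring
  constructor
  · intro hr
    have h1 := tanh_sub_one ha iu (by rw [ru]; linarith)
    have h2 := tanh_sub_one ha iv (by rw [rv]; linarith)
    rw [ru] at h1
    rw [rv] at h2
    simpa only [one_mul] using hfin 1 h1 h2
  · intro hr
    have h1 := tanh_add_one ha iu (by rw [ru]; linarith)
    have h2 := tanh_add_one ha iv (by rw [rv]; linarith)
    rw [ru] at h1
    rw [rv] at h2
    have := hfin (-1) (by simpa only [sub_neg_eq_add] using h1) (by simpa only [sub_neg_eq_add] using h2)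
    simpa only [neg_mul, one_mul] using this

/-- **the mean density of the legs** -/
theorem mF_Lim : ∃ B : ℝ, 0 < B ∧ ∀ τ : ℝ, |τ| ≤ 1 →
    Lim (fun t : ℝ => mF0 (t - τ - 3 / 2 * l * I)) (fun t : ℝ => mF0' (t - τ - 3 / 2 * l * I)) B
      (8 * I / (3 * Real.pi)) (-(8 * I / (3 * Real.pi))) := by
  have hpi := Real.pi_pos
  have hl := l_pos
  have h8 := lt_half_pi
  have ha : 3 * l < Real.pi / 2 := by linarith
  have hc : 0 < Real.cos (3 * l) := Real.cos_pos_of_mem_Ioo ⟨by linarith, ha⟩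
  obtain ⟨C, hC0, hC⟩ := mF0'_le (β := 2 * l) (by linarith)
  set B : ℝ := (4 / Real.cos (3 * l) + 1) + C * Real.exp (8 / 3) with hB
  have hE := Real.exp_pos (8 / 3)
  have hB0 : 0 < B := by positivity
  have him := abs_line
  have hnc : ‖(8 * I / (3 * Real.pi) : ℂ)‖ ≤ 1 := by
    rw [norm_div, norm_mul, norm_mul, Complex.norm_I, Complex.norm_real, Real.norm_eq_abs,
      abs_of_pos hpi, Complex.norm_ofNat, Complex.norm_ofNat, div_le_one (by positivity)]
    have := Real.pi_gt_three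
    linarith
  have hnear : ∀ w : ℂ, 4 / Real.cos (3 * l) * Real.exp (-2 * |4 / 3 * w.re|) ≤ 4 / Real.cos (3 * l) := by
    intro w
    refine mul_le_of_le_one_right (by positivity) (Real.exp_le_one_iff.2 ?_)
    have := abs_nonneg (4 / 3 * w.re)
    linarith
  refine ⟨B, hB0, fun τ hτ => ?_⟩
  have lim0 : ∀ F : Filter ℝ, Tendsto (fun t : ℝ => |t|) F atTop →
      Tendsto (fun t : ℝ => 4 / Real.cos (3 * l) * Real.exp (-2 * |4 / 3 * (t - τ)|)) F (𝓝 0) := by
    intro F hF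
    have h1 : Tendsto (fun t : ℝ => -2 * |4 / 3 * (t - τ)|) F atBot := by
      refine tendsto_atBot_mono (fun t => ?_) (?_ : Tendsto (fun t : ℝ => -(8 / 3) * |t| + 8 / 3) F atBot)
      · rw [abs_mul, abs_of_pos (by norm_num : (0 : ℝ) < 4 / 3)]
        have h1 : |t| ≤ |t - τ| + |τ| := by
          have := abs_add_le (t - τ) τ
          rwa [sub_add_cancel] at this
        linarith
      · refine tendsto_atBot_add_const_right _ _ ?_
        exact hF.const_mul_atTop_of_neg (by norm_num)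
    have h2 := (Real.tendsto_exp_atBot.comp h1).const_mul (4 / Real.cos (3 * l))
    simpa using h2
  have hd : ∀ t : ℝ, HasDerivAt (fun t : ℝ => mF0 (t - τ - 3 / 2 * l * I)) (mF0' (t - τ - 3 / 2 * l * I)) t := by
    intro t
    have h1 : HasDerivAt (fun t : ℝ => (t : ℂ) - τ - 3 / 2 * l * I) 1 t :=
      ((hasDerivAt_id t).ofReal_comp.sub_const (τ : ℂ)).sub_const _
    have h2 := (mF0_hasDerivAt (z := (t : ℂ) - τ - 3 / 2 * l * I) (by rw [him]; linarith)).comp t h1
    rw [mul_one] at h2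
    exact h2
  refine ⟨hd, ?_, ?_, ?_, ?_, ?_⟩
  · rw [continuous_iff_continuousAt]
    intro t
    have h1 : ContinuousAt mF0' ((t : ℂ) - τ - 3 / 2 * l * I) :=
      (mF0'_diff (by rw [him]; linarith)).continuousAt
    exact ContinuousAt.comp (f := fun t : ℝ => (t : ℂ) - τ - 3 / 2 * l * I) h1 (by fun_prop)
  · intro t
    obtain ⟨n1, n2⟩ := mF0_near (w := (t : ℂ) - τ - 3 / 2 * l * I) (by rw [him])
    have hn := hnear ((t : ℂ) - τ - 3 / 2 * l * I)
    have hCe : 0 < C * Real.exp (8 / 3) := by positivity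
    rcases le_total 0 ((t : ℂ) - τ - 3 / 2 * l * I).re with hr | hr
    · have h1 := n1 hr
      have h2 : ‖mF0 ((t : ℂ) - τ - 3 / 2 * l * I)‖ ≤
          ‖mF0 ((t : ℂ) - τ - 3 / 2 * l * I) - 8 * I / (3 * Real.pi)‖ + ‖(8 * I / (3 * Real.pi) : ℂ)‖ := by
        have := norm_add_le (mF0 ((t : ℂ) - τ - 3 / 2 * l * I) - 8 * I / (3 * Real.pi)) (8 * I / (3 * Real.pi))
        rwa [sub_add_cancel] at this
      rw [hB]
      linarith
    · have h1 := n2 hr
      have h2 : ‖mF0 ((t : ℂ) - τ - 3 / 2 * l * I)‖ ≤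
          ‖mF0 ((t : ℂ) - τ - 3 / 2 * l * I) - -(8 * I / (3 * Real.pi))‖ + ‖(8 * I / (3 * Real.pi) : ℂ)‖ := by
        have := norm_add_le (mF0 ((t : ℂ) - τ - 3 / 2 * l * I) - -(8 * I / (3 * Real.pi)))
          (-(8 * I / (3 * Real.pi)))
        rwa [sub_add_cancel, norm_neg] at this
      rw [hB]
      linarith
  · intro t
    refine (hC _ (by rw [him]; linarith)).trans ?_
    rw [re_line]
    have h1 : |t| ≤ |t - τ| + |τ| := by
      have := abs_add_le (t - τ) τ
      rwa [sub_add_cancel] at this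
    have h2 : C * Real.exp (-(8 / 3) * |t - τ|) ≤ C * Real.exp (8 / 3) * Real.exp (-(|t| / 2)) := by
      rw [mul_assoc, ← Real.exp_add]
      refine mul_le_mul_of_nonneg_left (Real.exp_le_exp.2 ?_) hC0.le
      have := abs_nonneg t
      linarith
    refine h2.trans (mul_le_mul_of_nonneg_right ?_ (Real.exp_pos _).le)
    rw [hB]
    have : 0 < 4 / Real.cos (3 * l) := by positivity
    linarith
  · rw [tendsto_iff_norm_sub_tendsto_zero]
    refine squeeze_zero' (Eventually.of_forall fun _ => norm_nonneg _) ?_ (lim0 atTop tendsto_abs_atTop_atTop)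
    filter_upwards [eventually_ge_atTop τ] with t ht
    have := (mF0_near (w := (t : ℂ) - τ - 3 / 2 * l * I) (by rw [him])).1 (by rw [re_line]; linarith)
    rwa [re_line] at this
  · rw [tendsto_iff_norm_sub_tendsto_zero]
    refine squeeze_zero' (Eventually.of_forall fun _ => norm_nonneg _) ?_ (lim0 atBot tendsto_abs_atBot_atTop)
    filter_upwards [eventually_le_atBot τ] with t ht
    have := (mF0_near (w := (t : ℂ) - τ - 3 / 2 * l * I) (by rw [him])).2 (by rw [re_line]; linarith)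
    rwa [re_line] at this

/-! ## 5. `MeanDat` -/

/-- the mean potential of the legs -/
def Dleg (τ t : ℝ) : ℂ := (∫ s : ℝ, mF0 (s - τ - 3 / 2 * l * I) * (V (t - s) : ℂ)) / 2

/-- **the mean data of the legs** -/
theorem mF_MeanDat : ∃ B : ℝ, 1 ≤ B ∧ ∀ τ : ℝ, |τ| ≤ 1 →
    MeanDat (fun t : ℝ => mF0 (t - τ - 3 / 2 * l * I)) (fun t : ℝ => mF0' (t - τ - 3 / 2 * l * I))
      (Dleg τ) (fun t : ℝ => dleg (t - τ)) B (8 * I / (3 * Real.pi)) (-(8 * I / (3 * Real.pi))) := by
  have hpi := Real.pi_pos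
  have h8 := lt_half_pi
  obtain ⟨B0, hB0, h0⟩ := mF_Lim
  refine ⟨max B0 1, le_max_right _ _, fun τ hτ => ?_⟩
  have hL0 := h0 τ hτ
  have hL : Lim (fun t : ℝ => mF0 (t - τ - 3 / 2 * l * I)) (fun t : ℝ => mF0' (t - τ - 3 / 2 * l * I))
      (max B0 1) (8 * I / (3 * Real.pi)) (-(8 * I / (3 * Real.pi))) :=
    { hL0 with
      b := fun s => (hL0.b s).trans (le_max_left _ _)
      b' := fun s => (hL0.b' s).trans (mul_le_mul_of_nonneg_right (le_max_left _ _) (Real.exp_pos _).le) }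
  have hpi' : (Real.pi : ℂ) ≠ 0 := by exact_mod_cast hpi.ne'
  have hval : 8 * I / (3 * Real.pi) * ((9 * Real.pi ^ 2 / 32 : ℝ) : ℂ) / 2 = (3 * l : ℝ) * I := by
    have hl : l = Real.pi / 8 := by linarith
    rw [hl]
    push_cast
    field_simp
    ring
  refine ⟨hL, fun t => ?_, fun t => ?_, ?_, ?_⟩
  · have h1 := (hL.conv_hasDerivAt t).div_const 2
    rw [conv_leg] at h1
    have e : 2 * dleg (t - τ) / 2 = dleg (t - τ) := by ring
    rw [e] at h1
    exact h1
  · unfold Dleg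
    ring
  · have h1 := hL.conv_top.div_const 2
    rw [hval] at h1
    exact h1
  · have h1 := hL.conv_bot.div_const 2
    have hval' : -(8 * I / (3 * Real.pi)) * ((9 * Real.pi ^ 2 / 32 : ℝ) : ℂ) / 2 = -((3 * l : ℝ) * I) := by
      rw [← hval]
      ring
    rw [hval'] at h1
    exact h1

end PBLeg

end
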