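import Pool.Agent.PB.VInst
import Pool.Agent.PB.MeanF2

/-!
# Plan B: `VDat` and `(E')` for one moved row, no open hypothesis on the mean density

* `h00_dleg`: the leg function of `EInst` is the leg function `dleg` of `MeanF`;
* `mfL τ`: the mean density of the legs at height `τ`; `meanDat`;
* **`vinst2`**, **`E_inst2`**.
-/

set_option autoImplicit false

open Complex Set Filter Topology MeasureTheory

noncomputable section

namespace PBEI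

open NUMF (l l_pos)
open PBForce (Rws0)
open PBV
open Pool.Agent.PB (rl MeanDat VDat mV CV CmV CsV CssV)

lemma h00_eq {w : ℂ} (h1 : cosh w ≠ 0) (h2 : sin ((l : ℂ) - I * w) ≠ 0) :
    h00 w = tanh w + I * cot ((l : ℂ) - I * w) := by
  have e1 := sin_leg w
  have e2 : cos ((l : ℂ) - I * w) = cos l * cosh w + I * sin l * sinh w := by
    rw [mul_comm I w, Complex.cos_sub, Complex.cos_mul_I, Complex.sin_mul_I]
    ring
  have h3 := Complex.cosh_sq w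
  unfold h00
  rw [Complex.tanh_eq_sinh_div_cosh, Complex.cot_eq_cos_div_sin, ← mul_div_assoc, div_add_div _ _ h1 h2]
  congr 1
  rw [e1, e2]
  linear_combination -(I * cos (l : ℂ)) * h3 - (sin (l : ℂ) * sinh w * cosh w) * I_sq

/-- in the strip of the leg function -/
theorem h00_dleg {w : ℂ} (h1 : -(2 / 5 * l) ≤ w.im) (h2 : w.im ≤ l) : h00 w = PBLeg.dleg w := by
  have hl := l_pos
  have hl4 : l = Real.pi / 8 := rfl
  have hpi := Real.pi_pos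
  have hs : 0 < Real.sin (3 / 5 * l) := Real.sin_pos_of_pos_of_lt_pi (by linarith) (by rw [hl4]; linarith)
  have hne : cosh w * sin ((l : ℂ) - I * w) ≠ 0 := norm_pos_iff.1 (lt_of_lt_of_le (by positivity) (den_low h1 h2))
  exact h00_eq (left_ne_zero_of_mul hne) (right_ne_zero_of_mul hne)

lemma h0T_dleg (τ t : ℝ) : h0T τ t = PBLeg.dleg (t - τ) := by
  have hl := l_pos
  unfold h0T
  refine h00_dleg ?_ ?_
  · rw [sub_im, ofReal_im, ofReal_im]; linarith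
  · rw [sub_im, ofReal_im, ofReal_im]; linarith

/-- mean density of the legs at height `τ` -/
def mfL (τ t : ℝ) : ℂ := PBLeg.mF0 (t - τ - 3 / 2 * l * I)

/-- its derivative -/
def mfL' (τ t : ℝ) : ℂ := PBLeg.mF0' (t - τ - 3 / 2 * l * I)

/-- the constant of the mean density -/
theorem meanDat : ∃ B : ℝ, 1 ≤ B ∧ ∀ τ : ℝ, |τ| ≤ 1 →
    MeanDat (mfL τ) (mfL' τ) (PBLeg.Dleg τ) (rl (h0T τ)) B (8 * I / (3 * Real.pi)) (-(8 * I / (3 * Real.pi))) := by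
  obtain ⟨B, hB, h⟩ := PBLeg.mF_MeanDat
  refine ⟨B, hB, fun τ hτ => ?_⟩
  have h1 := h τ hτ
  have e : rl (h0T τ) = fun t : ℝ => PBLeg.dleg (t - τ) := by
    funext t
    exact h0T_dleg τ t
  rw [e]
  exact h1

/-- `r₊` and `r₋` -/
def rpS (j : ℕ) (s : ℝ) : ℝ := (j + 1) * Real.exp (8 / 3 * s) / (j + Real.exp (8 / 3 * s))
def rmS (j : ℕ) (s : ℝ) : ℝ := (j + 1) * Real.exp (-(8 / 3 * s)) / (j + Real.exp (-(8 / 3 * s)))

/-- **the data of the values**, one moved row at height `s`, legs at height `t`, constants before `j`, `s`, `t` -/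
theorem vinst2 {a a' : ℝ} (ha : 1 / 2 ≤ a') (haa : a' < a) (ha2 : a < 2) : ∃ C1 C : ℝ, 0 < C1 ∧ 32 ≤ C ∧
    ∀ (j : ℕ) (s t : ℝ), |s| ≤ 1 → |t| ≤ 1 →
      VDat y1 y2 a' (l / 20) wm wm (Apl (rowS j s) 0) Bch (aE C1 a) (bE' C1 a') (Ami (rowS j s) 0) Bch
        (aE C1 a) (bE' C1 a') (rF (rowS j s) 0) (uF (rowS j s) 0) (h0T t) (g2T t) (qF (rowS j s) 0 t)
        (fun u : ℝ => deriv (rF (rowS j s) 0) u) (rl (deriv (uF (rowS j s) 0))) sg sg' sg'' (mfL t) (mfL' t)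
        (PBLeg.Dleg t) C C C C C (rpS j s) (rmS j s) (8 * I / (3 * Real.pi)) (-(8 * I / (3 * Real.pi))) ∧
      ∫ q, aE C1 a q * bE' C1 a' q ∂wm ≤ C := by
  obtain ⟨C1, C, hC1, hC, h⟩ := vinst ha haa ha2
  obtain ⟨B, hB, hm⟩ := meanDat
  refine ⟨C1, max C B, hC1, hC.trans (le_max_left _ _), fun j s t hs ht => ?_⟩
  obtain ⟨d, hI⟩ := h j s t hs ht _ _ _ B _ _ (hm t ht) (max C B) (le_max_left _ _) (le_max_right _ _)
  have e : C ≤ max C B := le_max_left _ _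
  exact ⟨{ d with
    tu := d.tu.mono e
    th0 := d.th0.mono e
    tg2 := d.tg2.mono e
    tq := d.tq.mono e }, hI.trans e⟩

/-- **`(E')`**, one moved row at height `s`, legs at height `t` -/
theorem E_inst2 {a' : ℝ} (ha : 1 / 2 ≤ a') (ha2 : a' < 2) : ∃ K : ℝ, 0 < K ∧
    ∀ (j : ℕ) (s t : ℝ), |s| ≤ 1 → |t| ≤ 1 →
    ∀ (f fη fτ fττ : ℂ) (G1 : (ℂ → ℂ) → ℂ) (G2 H2 : (ℂ → ℂ) → (ℂ → ℂ) → ℂ) (Hs : (ℂ → ℂ) → ℂ) (Hss : ℂ)
      (δ δ0 : ℝ), 0 ≤ δ →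
      PBE.Lev2 y1 y2 a' f G1 G2 (mV (mfL t)) CV δ →
      PBE.Lev2m y1 y2 a' f H2 Hs Hss CmV (CsV sg') (CssV sg') δ →
      PBE.Lin1 y1 y2 a' G1 → PBE.Lin2 y1 y2 a' G2 →
      Integrable (fun q => G2 (Apl (rowS j s) 0 q) (Bch q)) wm →
      Integrable (fun q => H2 (Ami (rowS j s) 0 q) (Bch q)) wm →
      ‖fη - ((∫ q, G2 (Apl (rowS j s) 0 q) (Bch q) ∂wm) +
        ((∫ q, H2 (Ami (rowS j s) 0 q) (Bch q) ∂wm) + 2 * Hs (uF (rowS j s) 0) -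
          ((rpS j s : ℂ) - (rmS j s : ℂ)) / 2 * Hss) + G1 (qF (rowS j s) 0 t))‖ ≤ δ0 →
      ‖G1 (h0T t) + fτ‖ ≤ δ → ‖G2 (h0T t) (h0T t) + G1 (g2T t) - fττ‖ ≤ δ →
      ‖fη - (-(((rpS j s : ℂ) - (rmS j s : ℂ)) / 8) * fττ - ((rpS j s : ℂ) + (rmS j s : ℂ)) / 2 * fτ)‖ ≤
        δ0 + K * δ := by
  obtain ⟨B, hB, hm⟩ := meanDat
  obtain ⟨K, hK, h⟩ := E_inst ha ha2 B
  exact ⟨K, hK, fun j s t hs ht f fη fτ fττ G1 G2 H2 Hs Hss δ δ0 hδ hL hL' hG1 hG2 iG iH hI h1 h2 =>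
    h j s t hs ht _ _ _ _ _ (hm t ht) f fη fτ fττ G1 G2 H2 Hs Hss δ δ0 hδ hL hL' hG1 hG2 iG iH hI h1 h2⟩

end PBEI

end
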