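import Pool.Agent.BAR.GammaS
import Pool.Agent.NU5.GU
import Pool.Agent.NUCR.Target

/-!
# Plan B: the a priori bound of the two-point function of the vertical cylinder

`PBA.window`: for every `ε > 0` and every large `m` some odd `k` of `[4 m, 10 m]` has
`c * k ^ (-(7 / 12) - ε) ≤ Re (Wk k)` (regular cylinder with `2 k` rows).  Nothing is assumed.
From `HH_sq_le_CW` (columns), the half plane walks from below with the exponent `13 / 12`, and `gf_le_Wk`.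
-/

set_option autoImplicit false

namespace PBA

open HexObs HexObs.BAR HexObs.SDN Finset Filter Pool.Agent.NU5

open scoped ENNReal Topology

/-- half plane walks from below, unconditional -/
theorem hLow : HLow (13 / 12) := hLow_of NUCR.nfLow

/-- the sum over the window of the column walks from below -/
theorem sum_CW_low {δ : Pt} (hδ : δ ∈ dF ∪ dR) {ε : ℝ} (hε : 0 < ε) : ∃ (c : ℝ) (m0 : ℕ), 0 < c ∧ ∀ m : ℕ, m0 ≤ m →
    ENNReal.ofReal (c * (m : ℝ) ^ (5 / 12 - ε)) ≤ ∑ k ∈ Icc (4 * m) (10 * m), gf (CW δ k) := by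
  obtain ⟨C, m0, hC, h⟩ := HH_sq_le_CW hδ
  obtain ⟨c, hc, hlow⟩ := hLow (ε / 4) (by positivity)
  obtain ⟨K, hK, hlg⟩ := lg_sq_pow (ε := ε / 2) (by positivity)
  refine ⟨c ^ 2 / (C * K), m0 + 1, by positivity, fun m hm => ?_⟩
  have hm1 : 1 ≤ m := by omega
  have hmR : (0 : ℝ) < m := by exact_mod_cast hm1
  have h1 := h m (by omega)
  have h2 := hlow m hm1
  have h3 : ENNReal.ofReal ((c * (m : ℝ) ^ (13 / 12 - ε / 4)) ^ 2) ≤ HH m ^ 2 := by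
    rw [ENNReal.ofReal_pow (by positivity)]
    exact pow_le_pow_left' h2 2
  have h4 : C * lg m ^ 2 * (m : ℝ) ^ (7 / 4 : ℝ) ≤ C * K * (m : ℝ) ^ (7 / 4 + ε / 2 : ℝ) := by
    have h5 := hlg m hm1
    rw [Real.rpow_add hmR]
    calc C * lg m ^ 2 * (m : ℝ) ^ (7 / 4 : ℝ) ≤ C * (K * (m : ℝ) ^ (ε / 2)) * (m : ℝ) ^ (7 / 4 : ℝ) := by
          gcongr
      _ = _ := by ring
  have h5 : ENNReal.ofReal ((c * (m : ℝ) ^ (13 / 12 - ε / 4)) ^ 2) ≤
      ENNReal.ofReal (C * K * (m : ℝ) ^ (7 / 4 + ε / 2 : ℝ)) * ∑ k ∈ Icc (4 * m) (10 * m), gf (CW δ k) :=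
    (h3.trans h1).trans (mul_le_mul' (ENNReal.ofReal_le_ofReal h4) le_rfl)
  have e : (c * (m : ℝ) ^ (13 / 12 - ε / 4)) ^ 2 =
      (C * K * (m : ℝ) ^ (7 / 4 + ε / 2 : ℝ)) * (c ^ 2 / (C * K) * (m : ℝ) ^ (5 / 12 - ε)) := by
    have e1 : ((m : ℝ) ^ (13 / 12 - ε / 4)) ^ 2 = (m : ℝ) ^ (7 / 4 + ε / 2 : ℝ) * (m : ℝ) ^ (5 / 12 - ε) := by
      rw [← Real.rpow_natCast, ← Real.rpow_mul hmR.le, ← Real.rpow_add hmR]
      congr 1
      push_cast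
      ring
    rw [mul_pow, e1]
    field_simp
  rw [e, ENNReal.ofReal_mul (by positivity)] at h5
  have hp : (0 : ℝ) < C * K * (m : ℝ) ^ (7 / 4 + ε / 2 : ℝ) := by positivity
  exact (ENNReal.mul_le_mul_iff_right (ENNReal.ofReal_pos.2 hp).ne' ENNReal.ofReal_ne_top).1 h5

/-- **The a priori bound**: one odd `k` of the window `[4 m, 10 m]`. -/
theorem window {ε : ℝ} (hε : 0 < ε) : ∃ (c : ℝ) (m0 : ℕ), 0 < c ∧ ∀ m : ℕ, m0 ≤ m →
    ∃ k : ℕ, 4 * m ≤ k ∧ k ≤ 10 * m ∧ k % 2 = 1 ∧ ∀ hk : 1 ≤ k, c * (k : ℝ) ^ (-(7 / 12) - ε) ≤ (Wk k hk).re := by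
  obtain ⟨c, m0, hc, h⟩ := sum_CW_low (δ := (-1, 0)) (by decide) hε
  have hA : (0 : ℝ) < 4 ^ (-(7 / 12) - ε) := Real.rpow_pos_of_pos (by norm_num) _
  obtain ⟨c', hc'⟩ : ∃ c' : ℝ, c' = c / 10 := ⟨_, rfl⟩
  have hc'0 : 0 < c' := by rw [hc']; positivity
  refine ⟨c', m0 + 1, hc'0, fun m hm => ?_⟩
  have hm1 : 1 ≤ m := by omega
  have hmR : (0 : ℝ) < m := by exact_mod_cast hm1
  by_contra hcon
  push Not at hcon
  have h1 := h m (by omega)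
  have hterm : ∀ k ∈ Icc (4 * m) (10 * m), gf (CW (-1, 0) k) ≤
      ENNReal.ofReal (c' * (m : ℝ) ^ (-(7 / 12) - ε)) := by
    intro k hk
    rw [mem_Icc] at hk
    rcases Nat.mod_two_eq_zero_or_one k with h0 | h0
    · rw [CW_even h0]
      unfold gf
      simp
    · obtain ⟨hk1, h2⟩ := hcon k hk.1 hk.2 h0
      refine (gf_le_Wk (by omega) h0 hk1).trans (ENNReal.ofReal_le_ofReal ?_)
      refine h2.le.trans (mul_le_mul_of_nonneg_left ?_ hc'0.le)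
      apply Real.rpow_le_rpow_of_nonpos hmR
      · have h7 : m ≤ k := by omega
        exact_mod_cast h7
      · linarith
  have h2 : ∑ k ∈ Icc (4 * m) (10 * m), gf (CW (-1, 0) k) ≤
      ENNReal.ofReal (7 * m * (c' * (m : ℝ) ^ (-(7 / 12) - ε))) := by
    refine (Finset.sum_le_sum hterm).trans ?_
    rw [Finset.sum_const, Nat.card_Icc, nsmul_eq_mul]
    generalize c' * (m : ℝ) ^ (-(7 / 12) - ε) = y
    rw [ENNReal.ofReal_mul (by positivity)]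
    refine mul_le_mul' ?_ (le_refl (ENNReal.ofReal y))
    have h8 : (((10 * m + 1 - 4 * m : ℕ) : ℕ) : ℝ≥0∞) = ENNReal.ofReal ((10 * m + 1 - 4 * m : ℕ) : ℝ) :=
      (ENNReal.ofReal_natCast _).symm
    rw [h8]
    apply ENNReal.ofReal_le_ofReal
    have h9 : 10 * m + 1 - 4 * m ≤ 7 * m := by omega
    have h10 : ((10 * m + 1 - 4 * m : ℕ) : ℝ) ≤ ((7 * m : ℕ) : ℝ) := by exact_mod_cast h9
    refine h10.trans (le_of_eq ?_)
    push_cast
    ring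
  have h3 := h1.trans h2
  rw [ENNReal.ofReal_le_ofReal_iff (by positivity)] at h3
  have e : (m : ℝ) ^ (5 / 12 - ε) = m * (m : ℝ) ^ (-(7 / 12) - ε) := by
    nth_rewrite 2 [← Real.rpow_one (m : ℝ)]
    rw [← Real.rpow_add hmR]
    congr 1
    ring
  have hp : 0 < (m : ℝ) * (m : ℝ) ^ (-(7 / 12) - ε) := by positivity
  rw [e, hc'] at h3
  nlinarith

/-- infinitely many odd `k` -/
theorem often {ε : ℝ} (hε : 0 < ε) : ∃ c : ℝ, 0 < c ∧ ∃ᶠ k : ℕ in atTop, k % 2 = 1 ∧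
    ∀ hk : 1 ≤ k, c * (k : ℝ) ^ (-(7 / 12 + ε)) ≤ (Wk k hk).re := by
  obtain ⟨c, m0, hc, h⟩ := window hε
  refine ⟨c, hc, ?_⟩
  rw [frequently_atTop]
  intro M
  obtain ⟨k, h1, h2, h3, h4⟩ := h (max M m0) (le_max_right _ _)
  refine ⟨k, ?_, h3, fun hk => ?_⟩
  · have := le_max_left M m0
    omega
  · have := h4 hk
    rwa [show -(7 / 12) - ε = -(7 / 12 + ε) by ring] at this

/-- the same along `k = 2 j + 1`, for the norm (`Wn`) -/
theorem often_Wn {ε : ℝ} (hε : 0 < ε) : ∃ c : ℝ, 0 < c ∧ ∃ᶠ j : ℕ in atTop,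
    c * ((2 * j + 1 : ℕ) : ℝ) ^ (-(7 / 12 + ε)) ≤ Pool.Agent.NU5.Wn (2 * j + 1) := by
  obtain ⟨c, hc, h⟩ := often hε
  refine ⟨c, hc, ?_⟩
  rw [frequently_atTop] at h ⊢
  intro M
  obtain ⟨k, hk, h1, h2⟩ := h (2 * M + 1)
  refine ⟨k / 2, by omega, ?_⟩
  have e : 2 * (k / 2) + 1 = k := by omega
  rw [e, Pool.Agent.NU5.Wn_eq (by omega)]
  exact (h2 (by omega)).trans (Complex.re_le_norm _)

end PBA
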