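import Pool.Agent.PB.Apr0C
import Pool.Agent.PB.APr

/-!
# Plan B: the a priori bound of the two-point function of the cylinder with all rows at 0

`PBA.W0_low`: for every `ε > 0` there is `c > 0` with `c * k ^ (-(7 / 12) - ε) ≤ Re (W0 k)` for EVERY large `k`
(regular cylinder with `2 k` rows, all rapidities 0, cut rows `0` and `k`).  Nothing is assumed.
-/

set_option autoImplicit false

namespace PBA

open HexObs HexObs.BAR Filter Pool.Agent.GLD

open scoped ENNReal Topology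

/-- **The a priori bound at the rows 0.** -/
theorem W0_low {ε : ℝ} (hε : 0 < ε) : ∃ (c : ℝ) (K0 : ℕ), 0 < c ∧ ∀ k : ℕ, K0 ≤ k → ∀ hk : 1 ≤ k,
    c * (k : ℝ) ^ (-(7 / 12) - ε) ≤ (W0 hk).re :=
  W0_low_of hLow hε

/-- The same for the norm, with the exponent as a sum. -/
theorem norm_W0_low {ε : ℝ} (hε : 0 < ε) : ∃ (c : ℝ) (K0 : ℕ), 0 < c ∧ ∀ k : ℕ, K0 ≤ k → ∀ hk : 1 ≤ k,
    c * (k : ℝ) ^ (-(7 / 12 + ε)) ≤ ‖W0 hk‖ := by
  obtain ⟨c, K0, hc, h⟩ := W0_low hε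
  refine ⟨c, K0, hc, fun k hk hk1 => ?_⟩
  have h1 := h k hk hk1
  rw [show -(7 / 12) - ε = -(7 / 12 + ε) by ring] at h1
  exact h1.trans (Complex.re_le_norm _)

end PBA
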