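import Pool.Agent.BAR.ColD
import Pool.Agent.RSWP.DefsL

/-!
# Plan B: the a priori bound at the rows 0, part A: the gluing

`DW K`: words of the plane from the mid-edge `{oo, (1, 0)}` to the mid-edge of the lattice translate by `K (-1, 2)`,
distinct vertices, extent smaller than `4 K` in the second coordinate (then they are words of the cylinder with `2 K`
rows).  `jw s (b ++ t)` with two half plane words `s`, `t` of at most `m` rows and a bridge `b` in a tube.
-/

set_option autoImplicit false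

namespace PBA

open HexObs HexObs.BAR Finset

open scoped ENNReal

/-- words of the plane with the displacement `K (-1, 2)`. -/
def DW (K : ℕ) : Set (List Bool) := {u | 1 ≤ u.length ∧
  (∀ i j, 1 ≤ i → i < j → j ≤ u.length → vx oo (1, 0) u i ≠ vx oo (1, 0) u j) ∧
  dx (1, 0) u u.length = (-1, 0) ∧ vx oo (1, 0) u u.length = (1 - (K : ℤ), 2 * (K : ℤ)) ∧
  ∀ i j, 1 ≤ i → i ≤ u.length → 1 ≤ j → j ≤ u.length →
    (vx oo (1, 0) u i).2 - (vx oo (1, 0) u j).2 < 4 * K}

/-- half plane words of at most `m` rows with a new tip, the last direction `δ`, at most `k` cuts and the columns in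
`[-X, X]`. -/
def LS (m k X : ℕ) (δ : Pt) : Set (List Bool) := {w | w ∈ TN m ∧ 1 ≤ w.length ∧ dx up w w.length = δ ∧
  (BAR13.cuts w).card ≤ k ∧ ∀ i, i ≤ w.length → |(vx oo up w i).1| ≤ X}

/-- bridges of height `T` that end in the column `x`, in a tube, with at most `k` cuts. -/
def TB (T k Y : ℕ) (x : ℤ) : Set (List Bool) := {b | b ∈ RP.EndB T x ∧ (BAR13.cuts b).card ≤ k ∧
  ∀ i, i ≤ b.length → min 0 x - Y ≤ (vx oo up b i).1 ∧ (vx oo up b i).1 ≤ max 0 x + Y}

lemma lat_eq (t : List Bool) (i : ℕ) : lat t i = (vx oo up t i).1 := by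
  unfold lat
  simp only [cross, up]
  ring

lemma lev_eq (t : List Bool) (i : ℕ) : lev t i = (vx oo up t i).1 + 2 * (vx oo up t i).2 := by
  unfold lev
  simp only [ip, up]
  ring

/-- cuts of a bridge followed by a half plane word -/
lemma cuts_cat {T m : ℕ} {b t : List Bool} (hb : b ∈ Brd T) (ht : t ∈ SSt m) :
    (BAR13.cuts (b ++ t)).card ≤ (BAR13.cuts b).card + (BAR13.cuts t).card := by
  obtain ⟨b1, -, b3, b4⟩ := mem_Brd.1 hb
  obtain ⟨t1, -⟩ := BAR13.mem_SSt.1 ht
  have hsub : BAR13.cuts (b ++ t) ⊆ BAR13.cuts b ∪ (BAR13.cuts t).image fun i => b.length + i := by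
    intro j hj
    obtain ⟨j1, j2, j3, j4, j5⟩ := BAR13.mem_cuts.1 hj
    rw [List.length_append] at j2 j5
    rw [mem_union, mem_image]
    rcases Nat.lt_or_ge b.length j with h | h
    · right
      obtain ⟨i, rfl⟩ := Nat.exists_eq_add_of_le h.le
      refine ⟨i, BAR13.mem_cuts.2 ⟨by omega, by omega, ?_, fun l hl => ?_, fun l hl hl2 => ?_⟩, rfl⟩
      · rw [dx_cat b3] at j3
        exact j3
      · have := j4 (b.length + l) (by omega)
        rw [lev_cat b3, lev_cat b3] at this
        omega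
      · have := j5 (b.length + l) (by omega) (by omega)
        rw [lev_cat b3, lev_cat b3] at this
        omega
    · left
      refine BAR13.mem_cuts.2 ⟨j1, h, ?_, fun l hl => ?_, fun l hl hl2 => ?_⟩
      · rw [dx_append h] at j3
        exact j3
      · have := j4 l hl
        rw [lev_append (by omega), lev_append (by omega)] at this
        exact this
      · have := j5 l hl (by omega)
        rw [lev_append (by omega), lev_append (by omega)] at this
        exact this
  exact (card_le_card hsub).trans ((card_union_le _ _).trans (Nat.add_le_add le_rfl card_image_le))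

lemma D_eq : (-mir ((-1, 1) : Pt)) = (1, 0) := by decide

section glue

variable {K m k X T Y : ℕ} {s t b : List Bool} {x : ℤ}

lemma TN_cat (hb : b ∈ Brd T) (ht : t ∈ TN m) : b ++ t ∈ TN (T + m) := by
  show (b ++ t) ++ [true] ∈ SSt (T + m)
  rw [List.append_assoc]
  exact SSt_cat hb ht

/-- **The glued word.** -/
theorem glue_mem (hK : 6 * m + 6 * X + 2 * Y < 4 * K) (hs : s ∈ LS m k X (-1, 1)) (ht : t ∈ LS m k X (-1, 0))
    (hT : 3 * (T : ℤ) + lev s s.length + lev t t.length = 3 * K + 2)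
    (hx : x = col s - col t - K) (hb : b ∈ TB T k Y x) : jw s (b ++ t) ∈ DW K := by
  obtain ⟨s1, s2, s3, -, s5⟩ := hs
  obtain ⟨t1, t2, t3, -, t5⟩ := ht
  obtain ⟨⟨b1, bx⟩, -, b5⟩ := hb
  obtain ⟨c1, -, c3, c4⟩ := mem_Brd.1 b1
  have hbt := TN_cat b1 t1
  have a1 := (mem_TN.1 s1).1
  have a2 := (mem_TN.1 t1).1
  have hinj := jw_inj s1 hbt
  have hlen : (jw s (b ++ t)).length = s.length + (b.length + t.length) := by
    rw [jw_length, List.length_append]
  have hD2 : ∀ i, dx (1, 0) (jw s (b ++ t)) (s.length + i) = dx up (b ++ t) i := fun i => by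
    have := jw_dx_right s (b ++ t) i
    rwa [s3, D_eq] at this
  have hV1 : ∀ i, i ≤ s.length + 1 → bs s + vx oo (1, 0) (jw s (b ++ t)) i =
      mir (vx oo up s (s.length + 1 - i)) + up := fun i hi => by
    have := jw_vx_left s (b ++ t) i hi
    rwa [s3, D_eq] at this
  have hV2 : ∀ i, bs s + vx oo (1, 0) (jw s (b ++ t)) (s.length + i) = vx oo up (b ++ t) i := fun i => by
    have := jw_vx_right s (b ++ t) i
    rwa [s3, D_eq] at this
  rw [s3, D_eq] at hinj
  have hbs : bs s = ((vx oo up s s.length).1 - 1, 1 - (vx oo up s s.length).1 - (vx oo up s s.length).2) := by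
    unfold bs
    rw [vx_succ, s3]
    refine Prod.ext ?_ ?_
    · simp only [mir, up, Prod.fst_add, add_zero]
      ring
    · simp only [mir, up, Prod.fst_add, Prod.snd_add]
      ring
  have hls := lev_eq s s.length
  have hlt := lev_eq t t.length
  have hlb := lev_eq b b.length
  have hxb : (vx oo up b b.length).1 = x := by
    rw [← lat_eq]
    exact bx
  have hcs : col s = (vx oo up s s.length).1 := rfl
  have hct : col t = (vx oo up t t.length).1 := rfl
  refine ⟨by omega, fun i j _ hij hj => hinj i j hij (by omega), ?_, ?_, ?_⟩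
  · rw [hlen, hD2, dx_cat c3]
    exact t3
  · have e := hV2 (b.length + t.length)
    rw [vx_cat c3, hbs] at e
    rw [hlen]
    obtain ⟨P, hP⟩ : ∃ P, P = vx oo (1, 0) (jw s (b ++ t)) (s.length + (b.length + t.length)) := ⟨_, rfl⟩
    rw [← hP] at e ⊢
    have e1 := congrArg Prod.fst e
    have e2 := congrArg Prod.snd e
    simp only [Prod.fst_add, Prod.snd_add] at e1 e2
    refine Prod.ext ?_ ?_
    · show P.1 = 1 - (K : ℤ)
      omega
    · show P.2 = 2 * (K : ℤ)
      omega
  · -- the extent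
    have hcol1 := abs_le.1 (s5 s.length le_rfl)
    have hcol2 := abs_le.1 (t5 t.length le_rfl)
    have hs0 := (a1 s.length s2 (by omega)).1
    have ht0 := (a2 t.length t2 (by omega)).1
    have hs0' := lev_ge_two' hs0
    have ht0' := lev_ge_two' ht0
    have key : ∀ i, 1 ≤ i → i ≤ (jw s (b ++ t)).length →
        -(3 * (m : ℤ) + 3 * X + Y) ≤ 2 * (bs s + vx oo (1, 0) (jw s (b ++ t)) i).2 ∧
        2 * (bs s + vx oo (1, 0) (jw s (b ++ t)) i).2 ≤ 4 * K + 3 * m + 3 * X + Y := by
      intro i hi1 hi2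
      rw [hlen] at hi2
      rcases Nat.lt_or_ge s.length i with h | h
      · obtain ⟨l, rfl⟩ := Nat.exists_eq_add_of_le h.le
        rw [hV2]
        rcases Nat.lt_or_ge b.length l with h' | h'
        · obtain ⟨j, rfl⟩ := Nat.exists_eq_add_of_le h'.le
          rw [vx_cat c3]
          have e1 := lev_eq t j
          have e2 := a2 j (by omega) (by omega)
          have e3 := abs_le.1 (t5 j (by omega))
          have e4 : lev t j ≤ 3 * m := by
            have := lev_mod t j
            split_ifs at this <;> omega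
          simp only [Prod.snd_add]
          omega
        · rw [vx_append (by omega)]
          have e1 := lev_eq b l
          have e3 := b5 l h'
          have e2 : 0 ≤ lev b l ∧ lev b l ≤ 3 * T := by
            rcases Nat.eq_zero_or_pos l with h0 | h0
            · rw [h0, lev_zero]
              constructor <;> positivity
            · have := c1 l h0 h'
              omega
          omega
      · rw [hV1 i (by omega)]
        have e1 := lev_eq s (s.length + 1 - i)
        have e2 := a1 (s.length + 1 - i) (by omega) (by omega)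
        have e3 := abs_le.1 (s5 (s.length + 1 - i) (by omega))
        have e4 := lev_ge_two' e2.1
        have e5 : lev s (s.length + 1 - i) ≤ 3 * m := by
          have := lev_mod s (s.length + 1 - i)
          split_ifs at this <;> omega
        have e6 : (mir (vx oo up s (s.length + 1 - i)) + up).2 =
            -(vx oo up s (s.length + 1 - i)).1 - (vx oo up s (s.length + 1 - i)).2 + 1 := rfl
        rw [e6]
        omega
    intro i j hi1 hi2 hj1 hj2
    have k1 := (key i hi1 hi2).2
    have k2 := (key j hj1 hj2).1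
    simp only [Prod.snd_add] at k1 k2
    omega

/-- The two marks of the glued word. -/
theorem glue_marks (hs : s ∈ LS m k X (-1, 1)) (ht : t ∈ LS m k X (-1, 0)) (hb : b ∈ TB T k Y x) :
    s.length ∈ mks' (1, 0) (jw s (b ++ t)) ∧ s.length + b.length ∈ mks' (1, 0) (jw s (b ++ t)) ∧
      (mks' (1, 0) (jw s (b ++ t))).card ≤ 3 * k + 1 := by
  obtain ⟨s1, s2, s3, s4, s5⟩ := hs
  obtain ⟨t1, t2, t3, t4, t5⟩ := ht
  obtain ⟨⟨b1, bx⟩, b4, b5⟩ := hb
  obtain ⟨c1, -, c3, c4⟩ := mem_Brd.1 b1
  have hbt := TN_SSt (TN_cat b1 t1)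
  have a1 := (mem_TN.1 s1).1
  have a2 := (mem_TN.1 t1).1
  have h1 := jw_mark (TN_SSt s1) hbt s2
  have h2 := jw_marks (TN_SSt s1) hbt
  have hL1 : ∀ i, i ≤ s.length + 1 → ip (bs s) up + ip (vx oo (1, 0) (jw s (b ++ t)) i) up =
      2 - lev s (s.length + 1 - i) := fun i hi => by
    have := jw_lev_left s (b ++ t) hi
    rwa [s3, D_eq] at this
  have hL2 : ∀ i, ip (bs s) up + ip (vx oo (1, 0) (jw s (b ++ t)) (s.length + i)) up = lev (b ++ t) i := fun i => by
    have := jw_lev_right s (b ++ t) i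
    rwa [s3, D_eq] at this
  have hD2 : dx (1, 0) (jw s (b ++ t)) (s.length + b.length) = dx up (b ++ t) b.length := by
    have := jw_dx_right s (b ++ t) b.length
    rwa [s3, D_eq] at this
  rw [s3, D_eq] at h1 h2
  have hend := hL2 b.length
  rw [lev_append (by omega), c4] at hend
  refine ⟨mem_mks'.2 h1, mem_mks'.2 ⟨by omega, ?_, ?_, ?_, ?_⟩, ?_⟩
  · rw [jw_length, List.length_append]
    omega
  · rw [hD2, dx_append le_rfl, c3]
  · intro i hi1 hi2
    rcases Nat.lt_or_ge s.length i with h | h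
    · obtain ⟨l, rfl⟩ := Nat.exists_eq_add_of_le h.le
      have e := hL2 l
      rw [lev_append (by omega)] at e
      have e2 : lev b l ≤ 3 * T := (c1 l (by omega) (by omega)).2
      omega
    · have e := hL1 i (by omega)
      have e4 := (a1 (s.length + 1 - i) (by omega) (by omega)).1
      have e5 := lev_ge_two' e4
      have : (0 : ℤ) ≤ 3 * T := by positivity
      omega
  · intro i hi1 hi2
    rw [jw_length, List.length_append] at hi2
    obtain ⟨l, rfl⟩ := Nat.exists_eq_add_of_le hi1.le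
    have e := hL2 (b.length + l)
    rw [lev_cat c3, c4, ← add_assoc] at e
    have e2 := (a2 l (by omega) (by omega)).1
    omega
  · have h3 := cuts_cat b1 (TN_SSt t1)
    omega

end glue

/-- Sums over triples with two marks. -/
theorem inj_sum {A B D : Set (List Bool)} {C : List Bool → List Bool → Set (List Bool)} {β : ℝ≥0∞} {M : ℕ}
    (mk : List Bool → Finset ℕ) (hβ : ∀ s ∈ A, ∀ t ∈ B, β ≤ gf (C s t))
    (hmem : ∀ s ∈ A, ∀ t ∈ B, ∀ b ∈ C s t, jw s (b ++ t) ∈ D ∧ s.length ∈ mk (jw s (b ++ t)) ∧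
      s.length + b.length ∈ mk (jw s (b ++ t)) ∧ (mk (jw s (b ++ t))).card ≤ M) :
    gf A * gf B * β ≤ (M : ℝ≥0∞) ^ 2 * gf D := by
  classical
  let G : List Bool × (ℕ × ℕ) → ℝ≥0∞ := fun q =>
    if q.1 ∈ D ∧ (mk q.1).card ≤ M ∧ q.2.1 ∈ mk q.1 ∧ q.2.2 ∈ mk q.1 then wE q.1 else 0
  let F : (Σ p : A × B, C p.1 p.2) → List Bool × (ℕ × ℕ) := fun p =>
    (jw p.1.1 ((p.2 : List Bool) ++ p.1.2), ((p.1.1 : List Bool).length,
      (p.1.1 : List Bool).length + (p.2 : List Bool).length))
  have hFinj : Function.Injective F := by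
    rintro ⟨⟨⟨s, hs⟩, ⟨t, ht⟩⟩, ⟨b, hb⟩⟩ ⟨⟨⟨s', hs'⟩, ⟨t', ht'⟩⟩, ⟨b', hb'⟩⟩ h
    have e1 : jw s (b ++ t) = jw s' (b' ++ t') := congrArg (fun q => q.1) h
    have e2 : s.length = s'.length := congrArg (fun q => q.2.1) h
    have e3 : s.length + b.length = s'.length + b'.length := congrArg (fun q => q.2.2) h
    obtain ⟨e4, e5⟩ := jw_eq e1 e2
    obtain ⟨e6, e7⟩ := List.append_inj e5 (by omega)
    subst e4
    subst e6
    subst e7
    rfl
  have hval : ∀ p, wE (p.1.1 : List Bool) * wE (p.1.2 : List Bool) * wE (p.2 : List Bool) = G (F p) := by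
    rintro ⟨⟨⟨s, hs⟩, ⟨t, ht⟩⟩, ⟨b, hb⟩⟩
    obtain ⟨h1, h2, h3, h4⟩ := hmem s hs t ht b hb
    show wE s * wE t * wE b = if jw s (b ++ t) ∈ D ∧ (mk (jw s (b ++ t))).card ≤ M ∧
      s.length ∈ mk (jw s (b ++ t)) ∧ s.length + b.length ∈ mk (jw s (b ++ t)) then wE (jw s (b ++ t)) else 0
    rw [if_pos ⟨h1, h4, h2, h3⟩, wE_jw, wE_append]
    ring
  calc gf A * gf B * β = ∑' p : A × B, wE (p.1 : List Bool) * wE (p.2 : List Bool) * β := by
        unfold gf
        rw [ENNReal.tsum_mul_right, ENNReal.tsum_prod (f := fun (a : A) (c : B) => wE (a : List Bool) *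
          wE (c : List Bool))]
        simp only [ENNReal.tsum_mul_left, ENNReal.tsum_mul_right]
    _ ≤ ∑' p : A × B, wE (p.1 : List Bool) * wE (p.2 : List Bool) * gf (C p.1 p.2) :=
        ENNReal.tsum_le_tsum fun p => mul_le_mul' le_rfl (hβ _ p.1.2 _ p.2.2)
    _ = ∑' p : A × B, ∑' b : C p.1 p.2, wE (p.1 : List Bool) * wE (p.2 : List Bool) * wE (b : List Bool) := by
        refine tsum_congr fun p => ?_
        unfold gf
        rw [ENNReal.tsum_mul_left]
    _ = ∑' p : (Σ p : A × B, C p.1 p.2), wE (p.1.1 : List Bool) * wE (p.1.2 : List Bool) * wE (p.2 : List Bool) :=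
        (ENNReal.tsum_sigma (fun (p : A × B) (b : C p.1 p.2) =>
          wE (p.1 : List Bool) * wE (p.2 : List Bool) * wE (b : List Bool))).symm
    _ = ∑' p, G (F p) := tsum_congr hval
    _ ≤ ∑' q, G q := ENNReal.tsum_comp_le_tsum_of_injective hFinj G
    _ = ∑' u : List Bool, ∑' p : ℕ × ℕ, G (u, p) := by
        rw [ENNReal.tsum_prod']
    _ ≤ ∑' u : List Bool, D.indicator (fun u => (M : ℝ≥0∞) ^ 2 * wE u) u := by
        refine ENNReal.tsum_le_tsum fun u => ?_
        by_cases hu : u ∈ D ∧ (mk u).card ≤ M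
        · rw [Set.indicator_of_mem hu.1]
          have h1 : ∑' p : ℕ × ℕ, G (u, p) = ∑ p ∈ mk u ×ˢ mk u, wE u := by
            rw [tsum_eq_sum (s := mk u ×ˢ mk u)]
            · refine Finset.sum_congr rfl fun p hp => ?_
              rw [mem_product] at hp
              show (if u ∈ D ∧ (mk u).card ≤ M ∧ p.1 ∈ mk u ∧ p.2 ∈ mk u then wE u else 0) = _
              rw [if_pos ⟨hu.1, hu.2, hp.1, hp.2⟩]
            · intro p hp
              show (if u ∈ D ∧ (mk u).card ≤ M ∧ p.1 ∈ mk u ∧ p.2 ∈ mk u then wE u else 0) = 0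
              rw [if_neg (fun h => hp (mem_product.2 ⟨h.2.2.1, h.2.2.2⟩))]
          rw [h1, Finset.sum_const, nsmul_eq_mul, card_product]
          refine mul_le_mul' ?_ le_rfl
          rw [sq]
          push_cast
          have : ((mk u).card : ℝ≥0∞) ≤ M := by exact_mod_cast hu.2
          exact mul_le_mul' this this
        · refine le_trans (le_of_eq (ENNReal.tsum_eq_zero.2 ?_)) bot_le
          intro p
          show (if u ∈ D ∧ (mk u).card ≤ M ∧ p.1 ∈ mk u ∧ p.2 ∈ mk u then wE u else 0) = 0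
          rw [if_neg (fun h => hu ⟨h.1, h.2.1⟩)]
    _ = (M : ℝ≥0∞) ^ 2 * gf D := by
        unfold gf
        rw [← tsum_subtype D (fun u => (M : ℝ≥0∞) ^ 2 * wE u), ENNReal.tsum_mul_left]

/-- **The gluing.** -/
theorem glue_sum {K m k X Y : ℕ} (hm : 2 * m ≤ K) (hK : 6 * m + 6 * X + 2 * Y < 4 * K) {β : ℝ≥0∞}
    (hβ : ∀ (T : ℕ) (x : ℤ), K ≤ T + 2 * m → T ≤ K → |x| ≤ K + 2 * X → Even (x - T) → β ≤ gf (TB T k Y x)) :
    gf (LS m k X (-1, 1)) * gf (LS m k X (-1, 0)) * β ≤ ((3 * k + 1 : ℕ) : ℝ≥0∞) ^ 2 * gf (DW K) := by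
  obtain ⟨Tf, hTf⟩ : ∃ Tf : List Bool → List Bool → ℕ, Tf = fun s t =>
    ((3 * (K : ℤ) + 2 - lev s s.length - lev t t.length) / 3).toNat := ⟨_, rfl⟩
  have hT : ∀ s ∈ LS m k X (-1, 1), ∀ t ∈ LS m k X (-1, 0),
      3 * (Tf s t : ℤ) + lev s s.length + lev t t.length = 3 * K + 2 ∧ K ≤ Tf s t + 2 * m ∧ Tf s t ≤ K := by
    intro s hs t ht
    obtain ⟨s1, s2, s3, -, -⟩ := hs
    obtain ⟨t1, t2, t3, -, -⟩ := ht
    have a1 := (mem_TN.1 s1).1 s.length s2 (by omega)
    have a2 := (mem_TN.1 t1).1 t.length t2 (by omega)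
    have d1 := dir_lev s s.length
    have d2 := dir_lev t t.length
    rw [s3] at d1
    rw [t3] at d2
    have f1 : ip ((-1, 1) : Pt) up = 1 := by decide
    have f2 : ip ((-1, 0) : Pt) up = -1 := by decide
    rw [f1] at d1
    rw [f2] at d2
    have m1 := lev_mod s s.length
    have m2 := lev_mod t t.length
    have o1 : ¬ Even s.length := by
      rcases d1 with ⟨-, h | h⟩ | ⟨h, -⟩
      · omega
      · omega
      · exact h
    have o2 : Even t.length := by
      rcases d2 with ⟨h, -⟩ | ⟨-, h | h⟩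
      · exact h
      · omega
      · omega
    rw [if_neg o1] at m1
    rw [if_pos o2] at m2
    rw [hTf]
    simp only
    omega
  refine inj_sum (C := fun s t => TB (Tf s t) k Y (col s - col t - K)) (mks' (1, 0)) ?_ ?_
  · intro s hs t ht
    obtain ⟨h1, h2, h3⟩ := hT s hs t ht
    have hc1 := abs_le.1 (hs.2.2.2.2 s.length le_rfl)
    have hc2 := abs_le.1 (ht.2.2.2.2 t.length le_rfl)
    have hcs : col s = (vx oo up s s.length).1 := rfl
    have hct : col t = (vx oo up t t.length).1 := rfl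
    refine hβ _ _ h2 h3 ?_ ?_
    · rw [abs_le]
      constructor <;> omega
    · have p1 := lev_eq s s.length
      have p2 := lev_eq t t.length
      rw [Int.even_iff]
      omega
  · intro s hs t ht b hb
    obtain ⟨h1, -, -⟩ := hT s hs t ht
    obtain ⟨g1, g2, g3⟩ := glue_marks hs ht hb
    exact ⟨glue_mem hK hs ht h1 rfl hb, g1, g2, g3⟩

end PBA
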