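import Pool.Agent.PB.Apr0A
import Pool.Agent.RSWP.LocalT
import Pool.Agent.BAR.ColG

/-!
# Plan B: the a priori bound at the rows 0, part B: the masses

`DW_low`: `c * K ^ (-(7 / 12) - ε) ≤ gf (DW K)` for every large `K`, from the half plane walks from below.
-/

set_option autoImplicit false

namespace PBA

open HexObs HexObs.BAR HexObs.SDN Finset Filter

open scoped ENNReal Topology

/-! ### powers -/

lemma ev_pow {τ : ℝ} (hτ : 0 < τ) (a : ℝ) : ∀ᶠ K : ℕ in atTop, a ≤ (K : ℝ) ^ τ :=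
  ((tendsto_rpow_atTop hτ).comp tendsto_natCast_atTop_atTop).eventually_ge_atTop a

lemma ev_exp {τ : ℝ} (hτ : 0 < τ) (s : ℝ) {c : ℝ} (hc : 0 < c) : ∀ᶠ K : ℕ in atTop,
    Real.exp (-((K : ℝ) ^ τ)) * (K : ℝ) ^ s ≤ c := by
  obtain ⟨n, hn⟩ := exists_nat_ge (s / τ)
  have h1 := Real.tendsto_pow_mul_exp_neg_atTop_nhds_zero n
  have h2 : Tendsto (fun K : ℕ => (K : ℝ) ^ τ) atTop atTop :=
    (tendsto_rpow_atTop hτ).comp tendsto_natCast_atTop_atTop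
  have h3 := (h1.comp h2).eventually (gt_mem_nhds hc)
  filter_upwards [h3, eventually_ge_atTop 1] with K hK hK1
  have hK1' : (1 : ℝ) ≤ K := by exact_mod_cast hK1
  have e : (K : ℝ) ^ s ≤ ((K : ℝ) ^ τ) ^ n := by
    rw [← Real.rpow_natCast, ← Real.rpow_mul (by positivity)]
    apply Real.rpow_le_rpow_of_exponent_le hK1'
    rw [div_le_iff₀ hτ] at hn
    linarith
  have hK' : ((K : ℝ) ^ τ) ^ n * Real.exp (-((K : ℝ) ^ τ)) < c := hK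
  have h5 := mul_le_mul_of_nonneg_left e (Real.exp_pos (-((K : ℝ) ^ τ))).le
  linarith

/-! ### masses -/

lemma col_all {L : ℕ} {v : List Bool} (hv : v ∈ WL L) {i : ℕ} (hi : i ≤ v.length) :
    |(vx oo up v i).1| ≤ ((3 * 2 ^ L + 2 : ℕ) : ℤ) := by
  have h1 := abs_le.1 (hv.2 i hi false)
  have h2 := abs_le.1 (hv.2 i hi true)
  unfold row at h1 h2
  rw [lvl_false_eq] at h1
  rw [lvl_true_eq] at h2
  rw [abs_le]
  push_cast
  constructor <;> omega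

lemma SN_sub0 {m k L : ℕ} {δ : Pt} (hδ : δ ≠ up) : SN m δ ⊆
    (LS m k (3 * 2 ^ L + 2) δ ∪ MC m (k + 1)) ∪ {t | t ∈ SA ∧ Ext m t ∧ t ∉ WL L} := by
  rintro w ⟨h1, h2⟩
  by_cases hw : w ∈ WL L
  · left
    rcases Nat.lt_or_ge k (cuts w).card with h | h
    · exact Or.inr (mem_MC (k + 1) (TN_SSt h1) h)
    · refine Or.inl ⟨h1, ?_, h2, by rw [cuts_eq]; exact h, fun i hi => col_all hw hi⟩
      rcases Nat.eq_zero_or_pos w.length with h0 | h0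
      · exfalso
        apply hδ
        rw [← h2, h0]
        rfl
      · exact h0
  · right
    obtain ⟨e1, e2⟩ := SSt_Ext (TN_SSt h1)
    exact ⟨e1, e2, hw⟩

lemma LS_mass {m k L : ℕ} {δ : Pt} (hδ : δ ∈ dF ∪ dR) (h1 : gf (MC m (k + 1)) ≤ 1)
    (h2 : gf {t | t ∈ SA ∧ Ext m t ∧ t ∉ WL L} ≤ 1) : HH m ≤ 80 + 20 * gf (LS m k (3 * 2 ^ L + 2) δ) := by
  have hδu : δ ≠ up := by
    have : ∀ δ ∈ dF ∪ dR, δ ≠ up := by decide
    exact this δ hδ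
  have h3 : gf (SN m δ) ≤ gf (LS m k (3 * 2 ^ L + 2) δ) + 2 := by
    refine (gf_mono (SN_sub0 (k := k) (L := L) hδu)).trans ((gf_union_le _ _).trans
      ((add_le_add (gf_union_le _ _) le_rfl).trans ?_))
    calc gf (LS m k (3 * 2 ^ L + 2) δ) + gf (MC m (k + 1)) + gf {t | t ∈ SA ∧ Ext m t ∧ t ∉ WL L} ≤
        gf (LS m k (3 * 2 ^ L + 2) δ) + 1 + 1 := add_le_add (add_le_add le_rfl h1) h2
      _ = _ := by
          rw [add_assoc]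
          norm_num
  calc HH m ≤ 40 + 20 * gf (SN m δ) := HH_le_SN m hδ
    _ ≤ 40 + 20 * (gf (LS m k (3 * 2 ^ L + 2) δ) + 2) := by gcongr
    _ = (40 + 40) + 20 * gf (LS m k (3 * 2 ^ L + 2) δ) := by ring
    _ = _ := by norm_num

lemma mass_low {m k L : ℕ} {δ : Pt} (hδ : δ ∈ dF ∪ dR) (h1 : gf (MC m (k + 1)) ≤ 1)
    (h2 : gf {t | t ∈ SA ∧ Ext m t ∧ t ∉ WL L} ≤ 1) {y : ℝ} (hy : 160 < y) (h3 : ENNReal.ofReal y ≤ HH m) :
    ENNReal.ofReal (y / 40) ≤ gf (LS m k (3 * 2 ^ L + 2) δ) := by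
  by_contra hcon
  have h4 := (not_le.1 hcon).le
  have h5 : ENNReal.ofReal y ≤ ENNReal.ofReal (80 + 20 * (y / 40)) := by
    refine (h3.trans (LS_mass hδ h1 h2)).trans ?_
    rw [ENNReal.ofReal_add (by norm_num) (by positivity), ENNReal.ofReal_mul (by norm_num)]
    have e1 : (80 : ℝ≥0∞) = ENNReal.ofReal 80 := by norm_num
    have e2 : (20 : ℝ≥0∞) = ENNReal.ofReal 20 := by norm_num
    rw [e1, e2]
    gcongr
  rw [ENNReal.ofReal_le_ofReal_iff (by positivity)] at h5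
  linarith

/-- the bridges in the tube -/
lemma TB_low {T k Y : ℕ} {x : ℤ} {β γ η : ℝ} (hβ : 0 ≤ β) (hγ : 0 ≤ γ) (hY : η * T ≤ Y)
    (h1 : ENNReal.ofReal (β + γ) ≤ gf {b | b ∈ RP.EndB T x ∧ ∀ i, i ≤ b.length →
      ((min 0 x : ℤ) : ℝ) - η * T ≤ lat b i ∧ (lat b i : ℝ) ≤ ((max 0 x : ℤ) : ℝ) + η * T})
    (h2 : gf (MC T (k + 1)) ≤ ENNReal.ofReal γ) : ENNReal.ofReal β ≤ gf (TB T k Y x) := by
  have hsub : {b | b ∈ RP.EndB T x ∧ ∀ i, i ≤ b.length →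
      ((min 0 x : ℤ) : ℝ) - η * T ≤ lat b i ∧ (lat b i : ℝ) ≤ ((max 0 x : ℤ) : ℝ) + η * T} ⊆
      TB T k Y x ∪ MC T (k + 1) := by
    rintro b ⟨hb1, hb2⟩
    rcases Nat.lt_or_ge k (cuts b).card with h | h
    · exact Or.inr (mem_MC (k + 1) (Brd_SSt hb1.1) h)
    · refine Or.inl ⟨hb1, by rw [cuts_eq]; exact h, fun i hi => ?_⟩
      obtain ⟨e1, e2⟩ := hb2 i hi
      rw [lat_eq] at e1 e2
      constructor
      · have : ((min 0 x - Y : ℤ) : ℝ) ≤ ((vx oo up b i).1 : ℝ) := by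
          push_cast at e1 ⊢
          linarith
        exact_mod_cast this
      · have : ((vx oo up b i).1 : ℝ) ≤ ((max 0 x + Y : ℤ) : ℝ) := by
          push_cast at e2 ⊢
          linarith
        exact_mod_cast this
  have h3 : ENNReal.ofReal β + ENNReal.ofReal γ ≤ gf (TB T k Y x) + ENNReal.ofReal γ := by
    rw [← ENNReal.ofReal_add hβ hγ]
    exact h1.trans ((gf_mono hsub).trans ((gf_union_le _ _).trans (add_le_add le_rfl h2)))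
  exact (ENNReal.add_le_add_iff_right ENNReal.ofReal_ne_top).1 h3

/-- **The words of the plane with the displacement `K (-1, 2)` from below.** -/
theorem DW_low (hL : ∀ ε : ℝ, 0 < ε → ∃ c : ℝ, 0 < c ∧ ∀ n : ℕ, 1 ≤ n →
      ENNReal.ofReal (c * (n : ℝ) ^ (13 / 12 - ε)) ≤ HH n) {ε : ℝ} (hε : 0 < ε) :
    ∃ (c : ℝ) (K0 : ℕ), 0 < c ∧ ∀ K : ℕ, K0 ≤ K → ENNReal.ofReal (c * (K : ℝ) ^ (-(7 / 12) - ε)) ≤ gf (DW K) := by
  obtain ⟨τ, hτ⟩ : ∃ τ : ℝ, τ = min (ε / 8) (1 / 4) := ⟨_, rfl⟩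
  have hτ0 : 0 < τ := by
    rw [hτ]
    exact lt_min (by positivity) (by norm_num)
  have hτ1 : τ ≤ 1 / 4 := by
    rw [hτ]
    exact min_le_right _ _
  have hτε : 8 * τ ≤ ε := by
    have : τ ≤ ε / 8 := by
      rw [hτ]
      exact min_le_left _ _
    linarith
  obtain ⟨c1, t0, hc1, htube⟩ := RP.localTube 2 (η := 1 / 4) (by norm_num)
  obtain ⟨C, hC, hbr⟩ := Pool.Agent.EXL.bridge_exponent
  obtain ⟨C2, hC2, hKK⟩ := KK_low
  obtain ⟨A, B, hA, hB, hpoly⟩ := HH_poly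
  obtain ⟨KL, hKL⟩ := lat_log (Q := 1) one_pos
  obtain ⟨CL, hCL, hlg⟩ := lg_sq_pow (ε := τ / 2) (by positivity)
  obtain ⟨c0, hc0, hlow⟩ := hL τ hτ0
  obtain ⟨β0, hβ0⟩ : ∃ β0 : ℝ, β0 = c1 / C := ⟨_, rfl⟩
  have hβ00 : 0 < β0 := by rw [hβ0]; positivity
  obtain ⟨a, ha⟩ : ∃ a : ℝ, a = 13 / 12 - τ := ⟨_, rfl⟩
  have ha0 : 0 < a := by rw [ha]; linarith
  obtain ⟨C7, hC7⟩ : ∃ C7 : ℝ, C7 = (6 * C2 + 1) ^ 2 := ⟨_, rfl⟩
  have hC70 : 0 < C7 := by rw [hC7]; positivity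
  obtain ⟨c6, hc6⟩ : ∃ c6 : ℝ, c6 = (c0 / 40 * (1 / 4)) ^ 2 * (β0 / 2) := ⟨_, rfl⟩
  have hc60 : 0 < c6 := by rw [hc6]; positivity
  -- the eventual facts
  have E1 := ev_exp hτ0 (B + 5 / 4) (c := β0 / (2 * A)) (by positivity)
  have E2 := ev_exp hτ0 B (c := 1 / A) (by positivity)
  have E3 := ev_pow (τ := τ / 2) (by positivity) (256 * KL * CL)
  have E4 := ev_pow hτ0 32
  have E5 := ev_pow (τ := (1 - τ) * a) (mul_pos (by linarith) ha0) (4 * 161 / c0)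
  have E6 := ev_pow (τ := 1 - τ) (by linarith) 2
  have E7 := eventually_ge_atTop (2 * t0 + 1000)
  obtain ⟨K0, hK0⟩ := eventually_atTop.1 (E1.and (E2.and (E3.and (E4.and (E5.and (E6.and E7))))))
  refine ⟨c6 / C7, K0, by positivity, fun K hK => ?_⟩
  obtain ⟨f1, f2, f3, f4, f5, f6, f7⟩ := hK0 K hK
  have hKn : 1000 ≤ K := by omega
  have hKR : (1000 : ℝ) ≤ K := by exact_mod_cast hKn
  have hKp : (0 : ℝ) < K := by linarith
  have hK1 : (1 : ℝ) ≤ K := by linarith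
  -- the height of the legs
  obtain ⟨m, hm⟩ : ∃ m : ℕ, m = ⌊(K : ℝ) ^ (1 - τ)⌋₊ := ⟨_, rfl⟩
  have m1 : (m : ℝ) ≤ (K : ℝ) ^ (1 - τ) := by
    rw [hm]
    exact Nat.floor_le (by positivity)
  have m2 : (K : ℝ) ^ (1 - τ) < m + 1 := by
    rw [hm]
    exact Nat.lt_floor_add_one _
  have m3 : (K : ℝ) ^ (1 - τ) / 2 ≤ m := by linarith
  have m4 : 1 ≤ m := by
    have : (0 : ℝ) < m := by linarith
    exact_mod_cast this
  have e1 : (K : ℝ) ^ (1 - τ) * (K : ℝ) ^ τ = K := by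
    rw [← Real.rpow_add hKp]
    norm_num
  have m5 : 32 * m ≤ K := by
    have h1 : 32 * (K : ℝ) ^ (1 - τ) ≤ K := by
      have h2 : 0 ≤ (K : ℝ) ^ (1 - τ) := by positivity
      nlinarith
    have h2 : (32 : ℝ) * m ≤ K := by linarith
    exact_mod_cast h2
  -- the box
  obtain ⟨L, hLd⟩ : ∃ L : ℕ, L = Nat.log 2 (K / 64) := ⟨_, rfl⟩
  have l1 : 2 ^ L ≤ K / 64 := by
    rw [hLd]
    exact Nat.pow_log_le_self 2 (by omega)
  have l2 : K / 64 < 2 ^ (L + 1) := by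
    rw [hLd]
    exact Nat.lt_pow_succ_log_self (by norm_num) _
  have l3 : (K : ℝ) ≤ 128 * (2 : ℝ) ^ L := by
    have h1 : K ≤ 128 * 2 ^ L := by
      rw [pow_succ] at l2
      omega
    exact_mod_cast h1
  have l4 : KL * (L + 1) * (m + 1) ≤ 2 ^ L := by
    have h1 : ((L + 1 : ℕ) : ℝ) ≤ CL * (K : ℝ) ^ (τ / 2) := by
      have h2 := hlg K (by omega)
      have h3 := lg_one K
      have h4 : ((L + 1 : ℕ) : ℝ) ≤ lg K := by
        unfold lg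
        have h5 : L ≤ Nat.log 2 K := by
          rw [hLd]
          exact Nat.log_mono_right (Nat.div_le_self _ _)
        have h6 : (L : ℝ) ≤ (Nat.log 2 K : ℝ) := by exact_mod_cast h5
        push_cast
        linarith
      nlinarith
    have h2 : ((m + 1 : ℕ) : ℝ) ≤ 2 * (K : ℝ) ^ (1 - τ) := by
      push_cast
      linarith
    have h3 : (K : ℝ) ^ (τ / 2) * (K : ℝ) ^ (1 - τ) * (K : ℝ) ^ (τ / 2) = K := by
      rw [← Real.rpow_add hKp, ← Real.rpow_add hKp]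
      ring_nf
      exact Real.rpow_one _
    have h4 : (KL : ℝ) * ((L + 1 : ℕ) : ℝ) * ((m + 1 : ℕ) : ℝ) ≤ (2 : ℝ) ^ L := by
      have h5 : (KL : ℝ) * ((L + 1 : ℕ) : ℝ) * ((m + 1 : ℕ) : ℝ) ≤
          KL * (CL * (K : ℝ) ^ (τ / 2)) * (2 * (K : ℝ) ^ (1 - τ)) := by gcongr
      have h6 : 256 * (KL : ℝ) * CL * ((K : ℝ) ^ (τ / 2) * (K : ℝ) ^ (1 - τ)) ≤
          (K : ℝ) ^ (τ / 2) * ((K : ℝ) ^ (τ / 2) * (K : ℝ) ^ (1 - τ)) :=
        mul_le_mul_of_nonneg_right f3 (by positivity)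
      nlinarith
    exact_mod_cast h4
  obtain ⟨X, hX⟩ : ∃ X : ℕ, X = 3 * 2 ^ L + 2 := ⟨_, rfl⟩
  have x1 : 16 * X ≤ K := by
    rw [hX]
    omega
  -- cuts
  obtain ⟨k, hk⟩ : ∃ k : ℕ, k = ⌊C2 * ((K : ℝ) + 1) ^ (3 / 4 : ℝ) * (K : ℝ) ^ τ⌋₊ := ⟨_, rfl⟩
  have k1 : (k : ℝ) ≤ C2 * ((K : ℝ) + 1) ^ (3 / 4 : ℝ) * (K : ℝ) ^ τ := by
    rw [hk]
    exact Nat.floor_le (by positivity)
  have k2 : C2 * ((K : ℝ) + 1) ^ (3 / 4 : ℝ) * (K : ℝ) ^ τ ≤ k + 1 := by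
    rw [hk]
    exact (Nat.lt_floor_add_one _).le
  have k3 : ((3 * k + 1 : ℕ) : ℝ) ≤ (6 * C2 + 1) * (K : ℝ) ^ (3 / 4 + τ) := by
    have h1 : ((K : ℝ) + 1) ^ (3 / 4 : ℝ) ≤ 2 * (K : ℝ) ^ (3 / 4 : ℝ) := by
      calc ((K : ℝ) + 1) ^ (3 / 4 : ℝ) ≤ (2 * (K : ℝ)) ^ (3 / 4 : ℝ) :=
            Real.rpow_le_rpow (by positivity) (by linarith) (by norm_num)
        _ = 2 ^ (3 / 4 : ℝ) * (K : ℝ) ^ (3 / 4 : ℝ) := Real.mul_rpow (by norm_num) hKp.le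
        _ ≤ 2 ^ (1 : ℝ) * (K : ℝ) ^ (3 / 4 : ℝ) := by
            apply mul_le_mul_of_nonneg_right _ (by positivity)
            exact Real.rpow_le_rpow_of_exponent_le (by norm_num) (by norm_num)
        _ = _ := by rw [Real.rpow_one]
    have h2 : (k : ℝ) ≤ C2 * (2 * (K : ℝ) ^ (3 / 4 : ℝ)) * (K : ℝ) ^ τ := k1.trans (by gcongr)
    have h3 : (K : ℝ) ^ (3 / 4 + τ) = (K : ℝ) ^ (3 / 4 : ℝ) * (K : ℝ) ^ τ := Real.rpow_add hKp _ _
    have h4 : 1 ≤ (K : ℝ) ^ (3 / 4 + τ) := Real.one_le_rpow hK1 (by positivity)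
    push_cast
    rw [h3] at h4 ⊢
    nlinarith
  have hMC : ∀ T : ℕ, 1 ≤ T → T ≤ K → gf (MC T (k + 1)) ≤
      ENNReal.ofReal (A * (Real.exp (-((K : ℝ) ^ τ)) * (K : ℝ) ^ B)) := by
    intro T hT1 hT2
    have hTR : (T : ℝ) ≤ K := by exact_mod_cast hT2
    have h1 : C2 * ((T : ℝ) + 1) ^ (3 / 4 : ℝ) * (K : ℝ) ^ τ ≤ k + 1 := by
      refine le_trans ?_ k2
      gcongr
    refine (MC_small hC2 (hKK T) (by positivity) h1).trans ?_
    refine (mul_le_mul' le_rfl (hpoly T hT1)).trans ?_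
    rw [← ENNReal.ofReal_mul (Real.exp_pos _).le]
    apply ENNReal.ofReal_le_ofReal
    have h2 : (T : ℝ) ^ B ≤ (K : ℝ) ^ B := Real.rpow_le_rpow (by positivity) hTR hB
    have h3 := (Real.exp_pos (-((K : ℝ) ^ τ))).le
    calc Real.exp (-((K : ℝ) ^ τ)) * (A * (T : ℝ) ^ B) ≤ Real.exp (-((K : ℝ) ^ τ)) * (A * (K : ℝ) ^ B) := by
          gcongr
      _ = _ := by ring
  have hMC1 : gf (MC m (k + 1)) ≤ 1 := by
    refine (hMC m m4 (by omega)).trans ?_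
    rw [← ENNReal.ofReal_one]
    apply ENNReal.ofReal_le_ofReal
    rw [le_div_iff₀ (by linarith)] at f2
    linarith
  have hfar : gf {t | t ∈ SA ∧ Ext m t ∧ t ∉ WL L} ≤ 1 := by
    refine (hKL L m l4).trans ?_
    rw [← ENNReal.ofReal_one]
    apply ENNReal.ofReal_le_ofReal
    apply Real.rpow_le_one_of_one_le_of_nonpos (by norm_num)
    have : (0 : ℝ) ≤ L := Nat.cast_nonneg _
    linarith
  -- the legs
  have hma : (1 / 4) * (K : ℝ) ^ ((1 - τ) * a) ≤ (m : ℝ) ^ a := by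
    have h1 : ((K : ℝ) ^ (1 - τ) / 2) ^ a ≤ (m : ℝ) ^ a := Real.rpow_le_rpow (by positivity) m3 ha0.le
    refine le_trans ?_ h1
    have h2 : ((K : ℝ) ^ (1 - τ) / 2) ^ a = (K : ℝ) ^ ((1 - τ) * a) * (2⁻¹ : ℝ) ^ a := by
      rw [div_eq_mul_inv, Real.mul_rpow (by positivity) (by norm_num), ← Real.rpow_mul hKp.le]
    rw [h2, mul_comm]
    apply mul_le_mul_of_nonneg_left _ (by positivity)
    calc (1 / 4 : ℝ) = (2⁻¹ : ℝ) ^ (2 : ℝ) := by norm_num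
      _ ≤ (2⁻¹ : ℝ) ^ a := Real.rpow_le_rpow_of_exponent_ge (by norm_num) (by norm_num) (by rw [ha]; linarith)
  have hy : 160 < c0 * (m : ℝ) ^ a := by
    rw [div_le_iff₀ hc0] at f5
    nlinarith
  have hmass : ∀ δ ∈ dF ∪ dR, ENNReal.ofReal (c0 / 40 * (1 / 4) * (K : ℝ) ^ (13 / 12 - 3 * τ)) ≤
      gf (LS m k X δ) := by
    intro δ hδ
    rw [hX]
    refine le_trans ?_ (mass_low hδ hMC1 hfar hy (by rw [ha]; exact hlow m m4))
    apply ENNReal.ofReal_le_ofReal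
    have h1 : (K : ℝ) ^ (13 / 12 - 3 * τ) ≤ (K : ℝ) ^ ((1 - τ) * a) := by
      apply Real.rpow_le_rpow_of_exponent_le hK1
      rw [ha]
      nlinarith
    have h2 : (1 / 4) * (K : ℝ) ^ (13 / 12 - 3 * τ) ≤ (m : ℝ) ^ a := by linarith
    calc c0 / 40 * (1 / 4) * (K : ℝ) ^ (13 / 12 - 3 * τ) = c0 / 40 * ((1 / 4) * (K : ℝ) ^ (13 / 12 - 3 * τ)) := by
          ring
      _ ≤ c0 / 40 * (m : ℝ) ^ a := by gcongr
      _ = _ := by ring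
  -- the bridges
  have hβ : ∀ (T : ℕ) (x : ℤ), K ≤ T + 2 * m → T ≤ K → |x| ≤ K + 2 * X → Even (x - T) →
      ENNReal.ofReal (β0 / 2 * (K : ℝ) ^ (-(5 / 4) : ℝ)) ≤ gf (TB T k (K / 4 + 1) x) := by
    intro T x hT1 hT2 hx hev
    have hTp : 1 ≤ T := by omega
    have hTR : (0 : ℝ) < T := by exact_mod_cast hTp
    have hTK : (T : ℝ) ≤ K := by exact_mod_cast hT2
    have h1 := htube T x (by omega) hev (by
      push_cast
      omega)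
    refine TB_low (γ := β0 / 2 * (K : ℝ) ^ (-(5 / 4) : ℝ)) (η := 1 / 4) (by positivity) (by positivity) ?_
      (le_trans (ENNReal.ofReal_le_ofReal ?_) h1) ?_
    · have h2 : K ≤ 4 * (K / 4 + 1) := by omega
      have h3 : (K : ℝ) ≤ 4 * ((K / 4 + 1 : ℕ) : ℝ) := by exact_mod_cast h2
      linarith
    · have h2 := (hbr T hTp).1
      have h3 : uu T = bT T := rfl
      rw [← h3] at h2
      have h4 : (K : ℝ) ^ (-(5 / 4) : ℝ) ≤ (T : ℝ) ^ (-(5 / 4) : ℝ) :=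
        Real.rpow_le_rpow_of_nonpos hTR hTK (by norm_num)
      have h5 : (T : ℝ) ^ (-(5 / 4) : ℝ) = (T : ℝ) ^ (-(1 / 4) : ℝ) / T := by
        have e : (-(5 / 4) : ℝ) = -(1 / 4) - 1 := by norm_num
        rw [e, Real.rpow_sub hTR, Real.rpow_one]
      calc β0 / 2 * (K : ℝ) ^ (-(5 / 4) : ℝ) + β0 / 2 * (K : ℝ) ^ (-(5 / 4) : ℝ) =
          β0 * (K : ℝ) ^ (-(5 / 4) : ℝ) := by ring
        _ ≤ β0 * (T : ℝ) ^ (-(5 / 4) : ℝ) := by gcongr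
        _ = c1 * ((T : ℝ) ^ (-(1 / 4) : ℝ) / C / T) := by
            rw [h5, hβ0]
            ring
        _ ≤ c1 * (uu T / T) := by gcongr
    · refine (hMC T hTp hT2).trans (ENNReal.ofReal_le_ofReal ?_)
      have h2 : (K : ℝ) ^ B = (K : ℝ) ^ (B + 5 / 4) * (K : ℝ) ^ (-(5 / 4) : ℝ) := by
        rw [← Real.rpow_add hKp]
        congr 1
        ring
      rw [le_div_iff₀ (by positivity)] at f1
      rw [h2]
      have h3 : (0 : ℝ) ≤ (K : ℝ) ^ (-(5 / 4) : ℝ) := by positivity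
      calc A * (Real.exp (-((K : ℝ) ^ τ)) * ((K : ℝ) ^ (B + 5 / 4) * (K : ℝ) ^ (-(5 / 4) : ℝ))) =
          (Real.exp (-((K : ℝ) ^ τ)) * (K : ℝ) ^ (B + 5 / 4) * (2 * A)) / 2 * (K : ℝ) ^ (-(5 / 4) : ℝ) := by ring
        _ ≤ β0 / 2 * (K : ℝ) ^ (-(5 / 4) : ℝ) := by gcongr
  -- the gluing
  have hglue := glue_sum (K := K) (m := m) (k := k) (X := X) (Y := K / 4 + 1) (by omega) (by omega) hβ
  have h1 : ENNReal.ofReal (c0 / 40 * (1 / 4) * (K : ℝ) ^ (13 / 12 - 3 * τ)) *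
      ENNReal.ofReal (c0 / 40 * (1 / 4) * (K : ℝ) ^ (13 / 12 - 3 * τ)) *
      ENNReal.ofReal (β0 / 2 * (K : ℝ) ^ (-(5 / 4) : ℝ)) ≤
      ENNReal.ofReal (C7 * (K : ℝ) ^ (3 / 2 + 2 * τ)) * gf (DW K) := by
    refine (mul_le_mul' (mul_le_mul' (hmass _ (by decide)) (hmass _ (by decide))) le_rfl).trans (hglue.trans ?_)
    refine mul_le_mul' ?_ le_rfl
    rw [← ENNReal.ofReal_natCast, ← ENNReal.ofReal_pow (by positivity)]
    apply ENNReal.ofReal_le_ofReal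
    have e : (K : ℝ) ^ (3 / 2 + 2 * τ) = ((K : ℝ) ^ (3 / 4 + τ)) ^ 2 := by
      rw [← Real.rpow_natCast, ← Real.rpow_mul hKp.le]
      congr 1
      push_cast
      ring
    rw [e, hC7, ← mul_pow]
    exact pow_le_pow_left₀ (by positivity) k3 2
  rw [← ENNReal.ofReal_mul (by positivity), ← ENNReal.ofReal_mul (by positivity)] at h1
  have e2 : c0 / 40 * (1 / 4) * (K : ℝ) ^ (13 / 12 - 3 * τ) * (c0 / 40 * (1 / 4) * (K : ℝ) ^ (13 / 12 - 3 * τ)) *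
      (β0 / 2 * (K : ℝ) ^ (-(5 / 4) : ℝ)) =
      C7 * (K : ℝ) ^ (3 / 2 + 2 * τ) * (c6 / C7 * (K : ℝ) ^ (-(7 / 12) - 8 * τ)) := by
    have e3 : (K : ℝ) ^ (13 / 12 - 3 * τ) * (K : ℝ) ^ (13 / 12 - 3 * τ) * (K : ℝ) ^ (-(5 / 4) : ℝ) =
        (K : ℝ) ^ (3 / 2 + 2 * τ) * (K : ℝ) ^ (-(7 / 12) - 8 * τ) := by
      rw [← Real.rpow_add hKp, ← Real.rpow_add hKp, ← Real.rpow_add hKp]
      congr 1
      ring
    calc _ = (c0 / 40 * (1 / 4)) ^ 2 * (β0 / 2) * ((K : ℝ) ^ (13 / 12 - 3 * τ) * (K : ℝ) ^ (13 / 12 - 3 * τ) *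
          (K : ℝ) ^ (-(5 / 4) : ℝ)) := by ring
      _ = _ := by
          rw [e3, hc6]
          field_simp
  rw [e2, ENNReal.ofReal_mul (by positivity)] at h1
  have h2 : ENNReal.ofReal (c6 / C7 * (K : ℝ) ^ (-(7 / 12) - 8 * τ)) ≤ gf (DW K) := by
    have hp : (0 : ℝ) < C7 * (K : ℝ) ^ (3 / 2 + 2 * τ) := by positivity
    exact (ENNReal.mul_le_mul_iff_right (ENNReal.ofReal_pos.2 hp).ne' ENNReal.ofReal_ne_top).1 h1
  refine le_trans (ENNReal.ofReal_le_ofReal ?_) h2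
  apply mul_le_mul_of_nonneg_left _ (by positivity)
  apply Real.rpow_le_rpow_of_exponent_le hK1
  linarith

end PBA
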