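import Pool.Agent.PB.Apr0B
import Pool.Agent.GLD.PC

/-!
# Plan B: the a priori bound at the rows 0, part C: the words of the cylinder

`W0_low_of`: the bound of the two-point function of the cylinder from the half plane walks from below.
-/

set_option autoImplicit false

namespace PBA

open HexObs HexObs.BAR Finset Filter Pool.Agent.GLD

open scoped ENNReal Topology

/-- rotation by one unit. -/
def rt1 (p : Pt) : Pt := (-p.2, p.1 + p.2)

theorem rt1_add (p q : Pt) : rt1 (p + q) = rt1 p + rt1 q := by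
  refine Prod.ext ?_ ?_ <;> simp only [rt1, Prod.fst_add, Prod.snd_add] <;> ring

theorem rt1_inj {p q : Pt} (h : rt1 p = rt1 q) : p = q := by
  simp only [rt1, Prod.ext_iff] at h
  refine Prod.ext ?_ ?_ <;> omega

theorem rt1_turn (b : Bool) (d : Pt) : rt1 (turn b d) = turn b (rt1 d) := by
  cases b <;> refine Prod.ext ?_ ?_ <;> simp only [rt1, turn, rotL, rotR, if_true, Bool.false_eq_true, if_false] <;> ring

theorem dx_rt1 (d : Pt) (t : List Bool) (i : ℕ) : dx (rt1 d) t i = rt1 (dx d t i) := by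
  unfold dx
  induction i with
  | zero => rfl
  | succ i ih => rw [ds_succ, ds_succ, ih, rt1_turn]

theorem vx_rt1 (d : Pt) (t : List Bool) (i : ℕ) : vx oo (rt1 d) t i = rt1 (vx oo d t i) := by
  unfold vx
  induction i with
  | zero => rfl
  | succ i ih =>
    have h := dx_rt1 d t i
    unfold dx at h
    rw [vs_succ, vs_succ, ih, h, ← rt1_add]

theorem rt1_start : rt1 (1, 0) = up := rfl

/-- The words of `DW k` are words of the cylinder. -/
theorem DW_sub (k : ℕ) : DW k ⊆ PC k := by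
  rintro t ⟨h1, h2, h3, h4, h5⟩
  have hv : ∀ i, vx oo up t i = rt1 (vx oo (1, 0) t i) := fun i => by
    rw [← rt1_start]
    exact vx_rt1 (1, 0) t i
  have hd : ∀ i, dx up t i = rt1 (dx (1, 0) t i) := fun i => by
    rw [← rt1_start]
    exact dx_rt1 (1, 0) t i
  refine PC_of_strip h1 ?_ ?_ ?_ ?_
  · intro i j hi hij hj e
    rw [hv, hv] at e
    exact h2 i j hi hij hj (rt1_inj e)
  · intro i j hi hij hj
    rw [hv, hv]
    have e1 := h5 i j hi (by omega) (by omega) hj
    have e2 := h5 j i (by omega) hj hi (by omega)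
    show |-(vx oo (1, 0) t i).2 - -(vx oo (1, 0) t j).2| < 4 * (k : ℤ)
    rw [abs_lt]
    constructor <;> omega
  · rw [hv, h4]
    refine Prod.ext ?_ ?_
    · simp only [rt1, up, Prod.fst_add]
      ring
    · simp only [rt1, up, Prod.snd_add]
      ring
  · rw [hd, h3]
    rfl

/-- The a priori bound at the rows 0 from the half plane walks from below. -/
theorem W0_low_of (hL : ∀ ε : ℝ, 0 < ε → ∃ c : ℝ, 0 < c ∧ ∀ n : ℕ, 1 ≤ n →
      ENNReal.ofReal (c * (n : ℝ) ^ (13 / 12 - ε)) ≤ HH n) {ε : ℝ} (hε : 0 < ε) :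
    ∃ (c : ℝ) (K0 : ℕ), 0 < c ∧ ∀ k : ℕ, K0 ≤ k → ∀ hk : 1 ≤ k,
      c * (k : ℝ) ^ (-(7 / 12) - ε) ≤ (W0 hk).re := by
  obtain ⟨c, K0, hc, h⟩ := DW_low hL hε
  refine ⟨c, K0, hc, fun k hk hk1 => ?_⟩
  have h1 := (h k hk).trans (gf_mono (DW_sub k))
  rw [← W0_eq_gf hk1, ENNReal.ofReal_le_ofReal_iff (W0_real hk1).2.1] at h1
  exact h1

end PBA
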