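import Pool.Agent.NUBD.Sq
import Pool.Agent.NUQ.DenL

/-!
# Plan B: the normaliser at rows `0`, literal form

`X` a list of `2 k` rows with one common rapidity: `2^{2k(2k-1)} ‖BD z X‖^2` is the disc function
without loops of `2 k` points `1` (`B0_sq`), hence at least `c k^{5/24-e} bulk k` (`B0_low`, from
the landed `NUQ.denLow`) and, with the upper bound `DenUp`, at most `C k^{5/24+e} bulk k` (`B0_up`);
`B0_two`: the two sided bound of the quotient by the bulk, eventually, as used by `PBE.end_one`.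
-/

set_option autoImplicit false

noncomputable section

open Finset Filter Topology

namespace PBU

open Pool.Agent
open Pool.Agent.NUBD (BD BD_sq_Wd BD_shift)
open Pool.Agent.NUF (near_WW DenLow)

variable {ι : Type*}

theorem map_one_rep (z : ι → ℂ) (X : List ι) (h : ∀ j ∈ X, z j = 0) :
    X.map (fun k => Complex.exp (-(2 * Complex.I * z k))) = List.replicate X.length 1 := by
  rw [List.eq_replicate_iff]
  refine ⟨by rw [List.length_map], fun b hb => ?_⟩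
  obtain ⟨j, hj, rfl⟩ := List.mem_map.1 hb
  rw [h j hj, mul_zero, neg_zero, Complex.exp_zero]

/-- **The square of the scalar at equal rows.** -/
theorem B0_sq' (z : ι → ℂ) (X : List ι) {k : ℕ} (hX : X.length = 2 * k) {c : ℂ}
    (hc : ∀ j ∈ X, z j = c) :
    2 ^ (2 * k * (2 * k - 1)) * BD z X ^ 2 =
      (near_WW 0).Wd (List.replicate k 1) (List.replicate k 1) := by
  have e0 : X.take k ++ X.drop k = X := List.take_append_drop k X
  have h0 : ∀ j ∈ X, (fun j => z j + -c) j = 0 := fun j hj => by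
    simp only []
    rw [hc j hj, add_neg_cancel]
  have h1 := BD_sq_Wd (fun j => z j + -c) (X.take k) (X.drop k)
  rw [e0, BD_shift, hX] at h1
  have l1 : (X.take k).length = k := by
    rw [List.length_take, hX]
    omega
  have l2 : (X.drop k).length = k := by
    rw [List.length_drop, hX]
    omega
  have m1 := map_one_rep (fun j => z j + -c) (X.take k) fun j hj => h0 j (List.mem_of_mem_take hj)
  have m2 := map_one_rep (fun j => z j + -c) (X.drop k) fun j hj => h0 j (List.mem_of_mem_drop hj)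
  rw [l1] at m1
  rw [l2] at m2
  have hp : (X.map fun j => Complex.exp (2 * Complex.I * (((2 * k : ℕ) : ℂ) - 1) *
      (z j + -c))).prod = 1 := by
    refine List.prod_eq_one fun b hb => ?_
    obtain ⟨j, hj, rfl⟩ := List.mem_map.1 hb
    have := h0 j hj
    simp only [] at this
    rw [this, mul_zero, Complex.exp_zero]
  have hd : NUMv.dg (2 * k) = 2 * k * (2 * k - 1) := rfl
  rw [m1, m2, hp, one_mul, hd] at h1
  rw [h1, ← mul_assoc, ← mul_pow]
  norm_num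

/-- the same for the moduli -/
theorem B0_sq (z : ι → ℂ) (X : List ι) {k : ℕ} (hX : X.length = 2 * k) {c : ℂ}
    (hc : ∀ j ∈ X, z j = c) :
    2 ^ (2 * k * (2 * k - 1)) * ‖BD z X‖ ^ 2 =
      ‖(near_WW 0).Wd (List.replicate k 1) (List.replicate k 1)‖ := by
  rw [← B0_sq' z X hX hc, norm_mul, norm_pow, norm_pow]
  norm_num

/-- **lower bound** -/
theorem B0_low {e : ℝ} (he : 0 < e) : ∃ A : ℝ, 0 < A ∧ ∀ k : ℕ, 1 ≤ k →
    ∀ {ι : Type} (z : ι → ℂ) (X : List ι) (c : ℂ), X.length = 2 * k → (∀ j ∈ X, z j = c) →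
      A * (k : ℝ) ^ (5 / 24 - e) * NUF.bulk k ≤ 2 ^ (2 * k * (2 * k - 1)) * ‖BD z X‖ ^ 2 := by
  obtain ⟨A, hA, h⟩ := NUQ.denLow e he
  refine ⟨A, hA, fun k hk ι z X c hX hc => ?_⟩
  rw [B0_sq z X hX hc]
  exact h k hk

/-- the upper bound of the disc function without loops -/
def DenUp : Prop := ∀ e : ℝ, 0 < e → ∃ C : ℝ, ∀ m : ℕ, 1 ≤ m →
  ‖(near_WW 0).Wd (List.replicate m 1) (List.replicate m 1)‖ ≤ C * (m : ℝ) ^ (5 / 24 + e) * NUF.bulk m

/-- **upper bound** -/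
theorem B0_up (H : DenUp) {e : ℝ} (he : 0 < e) : ∃ A : ℝ, 0 < A ∧ ∀ k : ℕ, 1 ≤ k →
    ∀ {ι : Type} (z : ι → ℂ) (X : List ι) (c : ℂ), X.length = 2 * k → (∀ j ∈ X, z j = c) →
      2 ^ (2 * k * (2 * k - 1)) * ‖BD z X‖ ^ 2 ≤ A * (k : ℝ) ^ (5 / 24 + e) * NUF.bulk k := by
  obtain ⟨C, h⟩ := H e he
  refine ⟨|C| + 1, by positivity, fun k hk ι z X c hX hc => ?_⟩
  rw [B0_sq z X hX hc]
  refine (h k hk).trans ?_
  have h1 : (0 : ℝ) ≤ (k : ℝ) ^ (5 / 24 + e) := Real.rpow_nonneg (Nat.cast_nonneg _) _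
  have h2 := (NUF.bulk_pos k).le
  have h3 := le_abs_self C
  gcongr
  linarith

theorem B0_ne {k : ℕ} (hk : 1 ≤ k) (z : ι → ℂ) (X : List ι) {c : ℂ} (hX : X.length = 2 * k)
    (hc : ∀ j ∈ X, z j = c) : BD z X ≠ 0 := by
  obtain ⟨A, hA, h⟩ := NUQ.denLow 1 one_pos
  intro h0
  have h1 := B0_sq z X hX hc
  rw [h0, norm_zero] at h1
  have h2 := h k hk
  rw [← h1] at h2
  have hk0 : (0 : ℝ) < k := by exact_mod_cast hk
  have hb := NUF.bulk_pos k
  have : 0 < A * (k : ℝ) ^ (5 / 24 - 1 : ℝ) * NUF.bulk k := by positivity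
  norm_num at h2
  linarith

/-- **Two sided bound of the normaliser**, in the form of `PBE.end_one`: `X k` any lists of `2 k`
equal rows. -/
theorem B0_two (H : DenUp) {ι : ℕ → Type} (z : ∀ k, ι k → ℂ) (X : ∀ k, List (ι k)) (c : ℕ → ℂ)
    (hX : ∀ k, 1 ≤ k → (X k).length = 2 * k) (hc : ∀ k, 1 ≤ k → ∀ j ∈ X k, z k j = c k) :
    (∀ e : ℝ, 0 < e → ∃ A : ℝ, 0 < A ∧ ∀ᶠ k : ℕ in atTop, A * (k : ℝ) ^ (5 / 24 - e) ≤
      2 ^ (2 * k * (2 * k - 1)) * ‖BD (z k) (X k)‖ ^ 2 / NUF.bulk k) ∧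
    ∀ e : ℝ, 0 < e → ∃ A : ℝ, ∀ᶠ k : ℕ in atTop,
      2 ^ (2 * k * (2 * k - 1)) * ‖BD (z k) (X k)‖ ^ 2 / NUF.bulk k ≤ A * (k : ℝ) ^ (5 / 24 + e) := by
  refine ⟨fun e he => ?_, fun e he => ?_⟩
  · obtain ⟨A, hA, h⟩ := B0_low he
    refine ⟨A, hA, ?_⟩
    filter_upwards [eventually_ge_atTop 1] with k hk
    rw [le_div_iff₀ (NUF.bulk_pos k)]
    exact h k hk (z k) (X k) (c k) (hX k hk) (hc k hk)
  · obtain ⟨A, hA, h⟩ := B0_up H he
    refine ⟨A, ?_⟩
    filter_upwards [eventually_ge_atTop 1] with k hk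
    rw [div_le_iff₀ (NUF.bulk_pos k)]
    exact h k hk (z k) (X k) (c k) (hX k hk) (hc k hk)

end PBU
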