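import Pool.Agent.PB.BUpT
import Pool.Agent.NUQ2.Two

/-!
# PB/BUpC (helper69): upper bound of the trace near the link rows

`tr ((C1 y)⁻¹ * CT y GG) <= 5/48 * log M + C` for `y` near `0` (rows positive, different), with `C`
independent of `M`.
-/

set_option autoImplicit false

open MeasureTheory Filter Topology Set
open scoped Real

namespace NUQ2.Up

open Pool.Agent.NUQ

variable {M : ℕ}

/-! ## the function of the circle at the link rows -/

theorem fac_one {S t : ℝ} (hS : 0 < S) (ht : Real.sin t ≠ 0) :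
    ∃ r : ℝ, r ≠ 0 ∧ ((zp (Real.arsinh S) t) ^ 2 + 2 * ((1 : ℝ) : ℂ) * zp (Real.arsinh S) t + 1)
      / ((zp (Real.arsinh S) t) ^ 2 - 2 * ((1 : ℝ) : ℂ) * zp (Real.arsinh S) t + 1)
      = (r : ℂ) * Complex.exp (-(((-(2 * Real.arctan (S / Real.sin t)) : ℝ) : ℂ) * Complex.I)) := by
  obtain ⟨E, hE⟩ : ∃ E : ℝ, E = Real.exp (Real.arsinh S) := ⟨_, rfl⟩
  have hE0 : 0 < E := by rw [hE]; positivity
  have hEE : E ^ 2 - 1 = 2 * E * S := by
    have h1 : S = (E - E⁻¹) / 2 := by
      rw [hE, ← Real.exp_neg, ← Real.sinh_eq, Real.sinh_arsinh]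
    have h2 : E * E⁻¹ = 1 := mul_inv_cancel₀ hE0.ne'
    calc E ^ 2 - 1 = E ^ 2 - E * E⁻¹ := by rw [h2]
      _ = 2 * E * ((E - E⁻¹) / 2) := by ring
      _ = 2 * E * S := by rw [← h1]
  have hz : zp (Real.arsinh S) t = ((E * Real.cos t : ℝ) : ℂ) + ((E * Real.sin t : ℝ) : ℂ) * Complex.I := by
    unfold zp
    rw [Complex.exp_add, Complex.exp_mul_I, ← Complex.ofReal_exp, ← hE, ← Complex.ofReal_cos,
      ← Complex.ofReal_sin]
    push_cast
    ring
  have hcs := Real.sin_sq_add_cos_sq t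
  obtain ⟨D, hD⟩ : ∃ D : ℝ, D = (E * Real.cos t - 1) ^ 2 + (E * Real.sin t) ^ 2 := ⟨_, rfl⟩
  have hD0 : 0 < D := by
    have : 0 < (E * Real.sin t) ^ 2 := by positivity
    rw [hD]
    nlinarith [sq_nonneg (E * Real.cos t - 1)]
  obtain ⟨z, hzz⟩ : ∃ z : ℂ, z = zp (Real.arsinh S) t := ⟨_, rfl⟩
  rw [← hzz] at hz ⊢
  have hz1 : z - 1 ≠ 0 := by
    intro h
    have := congrArg Complex.im h
    rw [hz] at this
    simp at this
    rcases this with h | h
    · exact hE0.ne' h
    · exact ht h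
  have hDc : (D : ℂ) ≠ 0 := by exact_mod_cast hD0.ne'
  have hq : (z + 1) / (z - 1) = ((2 * E / D : ℝ) : ℂ) * ((S : ℂ) - Real.sin t * Complex.I) := by
    rw [div_eq_iff hz1]
    have h1 : (z + 1) * D = 2 * E * (((S : ℂ) - Real.sin t * Complex.I) * (z - 1)) := by
      rw [hz]
      apply Complex.ext
      · simp only [Complex.mul_re, Complex.mul_im, Complex.add_re, Complex.add_im, Complex.sub_re,
          Complex.sub_im, Complex.ofReal_re, Complex.ofReal_im, Complex.I_re, Complex.I_im,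
          Complex.re_ofNat, Complex.im_ofNat, Complex.one_re, Complex.one_im]
        rw [hD]
        ring_nf
        have h3 : Real.sin t ^ 2 = 1 - Real.cos t ^ 2 := by linarith
        rw [h3]
        have h4 : E ^ 2 = 1 + 2 * E * S := by linarith
        linear_combination (E * Real.cos t - 1) * h4
      · simp only [Complex.mul_re, Complex.mul_im, Complex.add_re, Complex.add_im, Complex.sub_re,
          Complex.sub_im, Complex.ofReal_re, Complex.ofReal_im, Complex.I_re, Complex.I_im,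
          Complex.re_ofNat, Complex.im_ofNat, Complex.one_re, Complex.one_im]
        rw [hD]
        have h3 : Real.sin t ^ 2 = 1 - Real.cos t ^ 2 := by linarith
        have h4 : E ^ 2 = 1 + 2 * E * S := by linarith
        linear_combination (E * Real.sin t) * h4 + (E ^ 3 * Real.sin t) * hcs
    have h2 : ((2 * E / D : ℝ) : ℂ) * ((S : ℂ) - Real.sin t * Complex.I) * (z - 1)
        = 2 * E * (((S : ℂ) - Real.sin t * Complex.I) * (z - 1)) / D := by
      push_cast
      field_simp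
    rw [h2, ← h1, mul_div_assoc, div_self hDc, mul_one]
  have hf : (z ^ 2 + 2 * ((1 : ℝ) : ℂ) * z + 1) / (z ^ 2 - 2 * ((1 : ℝ) : ℂ) * z + 1)
      = ((z + 1) / (z - 1)) ^ 2 := by
    rw [div_pow]
    push_cast
    congr 1 <;> ring
  rw [hf, hq]
  obtain ⟨u, hu⟩ : ∃ u : ℝ, u = S / Real.sin t := ⟨_, rfl⟩
  rw [← hu]
  have hR : 0 < √(1 + u ^ 2) := by positivity
  have hR2 : √(1 + u ^ 2) ^ 2 = 1 + u ^ 2 := Real.sq_sqrt (by positivity)
  have hRc : ((√(1 + u ^ 2) : ℝ) : ℂ) ≠ 0 := by exact_mod_cast hR.ne'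
  have hexp : Complex.exp (((Real.arctan u : ℝ) : ℂ) * Complex.I)
      = ((1 : ℂ) + u * Complex.I) / (√(1 + u ^ 2) : ℝ) := by
    rw [Complex.exp_mul_I, ← Complex.ofReal_cos, ← Complex.ofReal_sin, Real.sin_arctan,
      Real.cos_arctan]
    push_cast
    field_simp
  refine ⟨(2 * E / D) ^ 2 * (-(Real.sin t ^ 2 * (1 + u ^ 2))), ?_, ?_⟩
  · refine mul_ne_zero (by positivity) (neg_ne_zero.2 (mul_ne_zero (pow_ne_zero _ ht) (by positivity)))
  have e1 : Complex.exp (-(((-(2 * Real.arctan u) : ℝ) : ℂ) * Complex.I))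
      = Complex.exp (((Real.arctan u : ℝ) : ℂ) * Complex.I) ^ 2 := by
    rw [← Complex.exp_nat_mul]
    congr 1
    push_cast
    ring
  rw [e1, hexp]
  have hS2 : (S : ℂ) = u * Real.sin t := by
    rw [hu]
    push_cast
    have : ((Real.sin t : ℝ) : ℂ) ≠ 0 := by exact_mod_cast ht
    rw [← Complex.ofReal_sin] at *
    field_simp
  have hRc2 : ((√(1 + u ^ 2) : ℝ) : ℂ) ^ 2 = 1 + (u : ℂ) ^ 2 := by
    rw [← Complex.ofReal_pow, hR2]
    push_cast
    ring
  have e2 : (((2 * E / D) ^ 2 * (-(Real.sin t ^ 2 * (1 + u ^ 2))) : ℝ) : ℂ) *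
      (((1 : ℂ) + u * Complex.I) / (√(1 + u ^ 2) : ℝ)) ^ 2
      = (((2 * E / D : ℝ) : ℂ)) ^ 2 * (-((Real.sin t : ℝ) : ℂ) ^ 2) * ((1 : ℂ) + u * Complex.I) ^ 2 := by
    have e3 : (((1 : ℂ) + u * Complex.I) / (√(1 + u ^ 2) : ℝ)) ^ 2
        = ((1 : ℂ) + u * Complex.I) ^ 2 / (1 + (u : ℂ) ^ 2) := by rw [div_pow, hRc2]
    rw [e3]
    have h5 : (1 + (u : ℂ) ^ 2) ≠ 0 := by rw [← hRc2]; exact pow_ne_zero _ hRc
    push_cast
    field_simp
  rw [e2, mul_pow, hS2]
  have hI : Complex.I ^ 2 = -1 := Complex.I_sq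
  linear_combination ((((2 * E / D : ℝ) : ℂ)) ^ 2 * ((Real.sin t : ℝ) : ℂ) ^ 2 * (1 + (u : ℂ) ^ 2)) * hI

theorem sq_one {S t : ℝ} (hS : 0 < S) (ht : Real.sin t ≠ 0) :
    sq (Bq (fun _ : Fin M => (1 : ℝ)) (zp (Real.arsinh S) t))
      = Real.sin (2 * M * Real.arctan (S / Real.sin t)) ^ 2 := by
  obtain ⟨r, hr, h⟩ := fac_one hS ht
  have h1 : Bq (fun _ : Fin M => (1 : ℝ)) (zp (Real.arsinh S) t)
      = ((r : ℂ) * Complex.exp (-(((-(2 * Real.arctan (S / Real.sin t)) : ℝ) : ℂ) * Complex.I))) ^ M := by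
    unfold Bq
    rw [Finset.prod_const, h, Finset.card_univ, Fintype.card_fin]
  rw [h1, sq_pow_exp hr]
  have h2 : (M : ℝ) * -(2 * Real.arctan (S / Real.sin t)) = -(2 * M * Real.arctan (S / Real.sin t)) := by
    ring
  rw [h2, Real.sin_neg, neg_sq]

/-! ## the oscillating integral -/

theorem osc1 {M s : ℝ} (hM : 1 ≤ M) (hs : 1 / M ≤ s) (hs1 : s ≤ 1) :
    |∫ S in (s / M)..1, Real.cos (4 * M * Real.arctan (S / s)) / S| ≤ 3 / 2 := by
  have hM0 : 0 < M := by linarith
  have hs0 : 0 < s := lt_of_lt_of_le (by positivity) hs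
  have ha0 : 0 < s / M := by positivity
  have ha1 : s / M ≤ 1 := by rw [div_le_one hM0]; linarith
  have hsM : 1 / s ≤ M := by rw [div_le_iff₀ hs0]; rw [div_le_iff₀ hM0] at hs; linarith
  obtain ⟨u, hu⟩ : ∃ u : ℝ → ℝ, u = fun S => (S / s + s / S) / (4 * M) := ⟨_, rfl⟩
  obtain ⟨v, hv⟩ : ∃ v : ℝ → ℝ, v = fun S => Real.sin (4 * M * Real.arctan (S / s)) := ⟨_, rfl⟩
  have hpos : ∀ S ∈ uIcc (s / M) 1, 0 < S := fun S hS => by
    rw [uIcc_of_le ha1] at hS
    exact ha0.trans_le hS.1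
  have hud : ∀ S ∈ uIcc (s / M) 1, HasDerivAt u ((1 / s - s / S ^ 2) / (4 * M)) S := fun S hS => by
    have h0 := hpos S hS
    have h1 : HasDerivAt (fun S : ℝ => S / s + s / S) (1 / s - s / S ^ 2) S := by
      have h2 := (hasDerivAt_id S).div_const s
      have h3 := (hasDerivAt_inv h0.ne').const_mul s
      have h4 := h2.add h3
      refine h4.congr_deriv ?_
      ring
    rw [hu]
    exact h1.div_const _
  have hvd : ∀ S ∈ uIcc (s / M) 1, HasDerivAt v (Real.cos (4 * M * Real.arctan (S / s)) *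
      (4 * M * (1 / (1 + (S / s) ^ 2) * (1 / s)))) S := fun S hS => by
    have h1 : HasDerivAt (fun S : ℝ => S / s) (1 / s) S := (hasDerivAt_id S).div_const s
    have h2 := (h1.arctan.const_mul (4 * M)).sin
    rw [hv]
    exact h2
  have hui : IntervalIntegrable (fun S => (1 / s - s / S ^ 2) / (4 * M)) volume (s / M) 1 := by
    refine ContinuousOn.intervalIntegrable ?_
    refine ContinuousOn.div_const (continuousOn_const.sub (continuousOn_const.div (by fun_prop)
      fun S hS => ?_)) _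
    have := hpos S hS
    positivity
  have hvi : IntervalIntegrable (fun S => Real.cos (4 * M * Real.arctan (S / s)) *
      (4 * M * (1 / (1 + (S / s) ^ 2) * (1 / s)))) volume (s / M) 1 := by
    refine Continuous.intervalIntegrable ?_ _ _
    have h1 : Continuous fun S : ℝ => 1 / (1 + (S / s) ^ 2) := by
      refine continuous_const.div (by fun_prop) fun S => ?_
      positivity
    fun_prop
  have hib := intervalIntegral.integral_mul_deriv_eq_deriv_mul hud hvd hui hvi
  have e1 : ∫ S in (s / M)..1, Real.cos (4 * M * Real.arctan (S / s)) / S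
      = ∫ S in (s / M)..1, u S * (Real.cos (4 * M * Real.arctan (S / s)) *
      (4 * M * (1 / (1 + (S / s) ^ 2) * (1 / s)))) := by
    refine intervalIntegral.integral_congr fun S hS => ?_
    have h0 := hpos S hS
    simp only [hu]
    field_simp
    ring
  rw [e1, hib]
  have hv1 : ∀ S, |v S| ≤ 1 := fun S => by rw [hv]; exact Real.abs_sin_le_one _
  have b1 : |u 1 * v 1| ≤ (M + 1) / (4 * M) := by
    rw [abs_mul]
    have h1 : |u 1| ≤ (M + 1) / (4 * M) := by
      rw [hu]
      simp only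
      rw [abs_of_pos (by positivity)]
      gcongr ?_ / _
      rw [div_one]
      linarith
    calc |u 1| * |v 1| ≤ (M + 1) / (4 * M) * 1 := by
          gcongr
          exact hv1 1
      _ = _ := mul_one _
  have b2 : |u (s / M) * v (s / M)| ≤ (M + 1) / (4 * M) := by
    rw [abs_mul]
    have h1 : |u (s / M)| ≤ (M + 1) / (4 * M) := by
      rw [hu]
      simp only
      rw [abs_of_pos (by positivity)]
      gcongr ?_ / _
      have h2 : s / M / s = 1 / M := by field_simp
      have h3 : s / (s / M) = M := by field_simp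
      rw [h2, h3]
      have : 1 / M ≤ 1 := by rw [div_le_one hM0]; exact hM
      linarith
    calc |u (s / M)| * |v (s / M)| ≤ (M + 1) / (4 * M) * 1 := by
          gcongr
          exact hv1 _
      _ = _ := mul_one _
  have b3 : |∫ S in (s / M)..1, (1 / s - s / S ^ 2) / (4 * M) * v S| ≤ 1 / 2 := by
    obtain ⟨G, hG⟩ : ∃ G : ℝ → ℝ, G = fun S => (S / s - s / S) / (4 * M) := ⟨_, rfl⟩
    have hGd : ∀ S ∈ uIcc (s / M) 1, HasDerivAt G ((1 / s + s / S ^ 2) / (4 * M)) S := fun S hS => by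
      have h0 := hpos S hS
      have h1 : HasDerivAt (fun S : ℝ => S / s - s / S) (1 / s + s / S ^ 2) S := by
        have h2 := (hasDerivAt_id S).div_const s
        have h3 := (hasDerivAt_inv h0.ne').const_mul s
        have h4 := h2.sub h3
        refine h4.congr_deriv ?_
        ring
      rw [hG]
      exact h1.div_const _
    have hGi : IntervalIntegrable (fun S => (1 / s + s / S ^ 2) / (4 * M)) volume (s / M) 1 := by
      refine ContinuousOn.intervalIntegrable ?_
      refine ContinuousOn.div_const (continuousOn_const.add (continuousOn_const.div (by fun_prop)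
        fun S hS => ?_)) _
      have := hpos S hS
      positivity
    have hGI := intervalIntegral.integral_eq_sub_of_hasDerivAt hGd hGi
    have h1 : |∫ S in (s / M)..1, (1 / s - s / S ^ 2) / (4 * M) * v S|
        ≤ ∫ S in (s / M)..1, (1 / s + s / S ^ 2) / (4 * M) := by
      rw [← Real.norm_eq_abs]
      refine intervalIntegral.norm_integral_le_of_norm_le ha1 ?_ hGi
      refine Eventually.of_forall fun S hS => ?_
      have h0 : 0 < S := ha0.trans hS.1
      rw [Real.norm_eq_abs, abs_mul, abs_div, abs_of_pos (by positivity : 0 < 4 * M)]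
      calc |1 / s - s / S ^ 2| / (4 * M) * |v S| ≤ |1 / s - s / S ^ 2| / (4 * M) * 1 := by
            gcongr
            exact hv1 _
        _ ≤ _ := by
            rw [mul_one]
            gcongr ?_ / _
            rw [abs_le]
            have h2 : 0 < 1 / s := by positivity
            have h3 : 0 < s / S ^ 2 := by positivity
            constructor <;> linarith
    refine h1.trans ?_
    rw [hGI, hG]
    simp only
    have h2 : s / M / s = 1 / M := by field_simp
    have h3 : s / (s / M) = M := by field_simp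
    rw [h2, h3, ← sub_div, div_le_iff₀ (by positivity)]
    have h4 : 0 < 1 / M := by positivity
    rw [div_one]
    linarith
  have b4 : (M + 1) / (4 * M) ≤ 1 / 2 := by
    rw [div_le_iff₀ (by positivity)]
    linarith
  have t1 := abs_sub (u 1 * v 1 - u (s / M) * v (s / M))
    (∫ S in (s / M)..1, (1 / s - s / S ^ 2) / (4 * M) * v S)
  have t2 := abs_sub (u 1 * v 1) (u (s / M) * v (s / M))
  linarith

/-- the integral over `S` at a fixed angle -/
theorem Iup {M s : ℝ} (hM : 1 ≤ M) (hs0 : 0 < s) (hs1 : s ≤ 1) {S0 : ℝ} (h0 : 0 < S0) (h1 : S0 ≤ 1) :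
    ∫ S in S0..1, Real.sin (2 * M * Real.arctan (S / s)) ^ 2 / S
      ≤ 1 / 2 * Real.log M + 3 + 3 / 2 * Real.log (1 / s) := by
  have hM0 : 0 < M := by linarith
  obtain ⟨f, hf⟩ : ∃ f : ℝ → ℝ, f = fun S => Real.sin (2 * M * Real.arctan (S / s)) ^ 2 / S := ⟨_, rfl⟩
  have hf0 : ∀ S, 0 ≤ S → 0 ≤ f S := fun S hS => by rw [hf]; positivity
  have hf1 : ∀ S, 0 ≤ S → f S ≤ (2 * M / s) ^ 2 * S := fun S hS => by
    rw [hf]
    rcases hS.eq_or_lt with h | h
    · rw [← h]; simp
    · simp only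
      rw [div_le_iff₀ h]
      have h2 : |Real.sin (2 * M * Real.arctan (S / s))| ≤ 2 * M / s * S := by
        have h3 : |2 * M * Real.arctan (S / s)| ≤ 2 * M / s * S := by
          have h4 : 0 ≤ Real.arctan (S / s) := Real.arctan_nonneg.2 (by positivity)
          rw [abs_of_nonneg (by positivity)]
          have h5 : Real.arctan (S / s) ≤ S / s := by
            have h6 := Real.le_tan h4 (Real.arctan_lt_pi_div_two _)
            rwa [Real.tan_arctan] at h6
          calc 2 * M * Real.arctan (S / s) ≤ 2 * M * (S / s) := by gcongr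
            _ = _ := by ring
        exact (Real.abs_sin_le_abs).trans h3
      calc Real.sin (2 * M * Real.arctan (S / s)) ^ 2
          = |Real.sin (2 * M * Real.arctan (S / s))| ^ 2 := (sq_abs _).symm
        _ ≤ (2 * M / s * S) ^ 2 := by gcongr
        _ = (2 * M / s) ^ 2 * S * S := by ring
  have hmeas : Measurable f := by
    rw [hf]
    fun_prop
  have hfi : ∀ a b : ℝ, 0 ≤ a → 0 ≤ b → IntervalIntegrable f volume a b := by
    intro a b ha hb
    have hg : IntervalIntegrable (fun S : ℝ => (2 * M / s) ^ 2 * S) volume a b :=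
      (by fun_prop : Continuous fun S : ℝ => (2 * M / s) ^ 2 * S).intervalIntegrable _ _
    refine hg.mono_fun hmeas.aestronglyMeasurable ?_
    refine (ae_restrict_iff' measurableSet_uIoc).2 (Eventually.of_forall fun S hS => ?_)
    have hS0 : 0 ≤ S := by
      rcases le_total a b with h | h
      · rw [uIoc_of_le h] at hS
        linarith [hS.1]
      · rw [uIoc_of_ge h] at hS
        linarith [hS.1]
    simp only
    rw [Real.norm_of_nonneg (hf0 S hS0)]
    exact (hf1 S hS0).trans (le_abs_self _)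
  obtain ⟨a, ha⟩ : ∃ a : ℝ, a = s / M := ⟨_, rfl⟩
  have ha0 : 0 < a := by rw [ha]; positivity
  have ha1 : a ≤ 1 := by rw [ha, div_le_one hM0]; linarith
  have s1 : ∫ S in S0..1, f S ≤ ∫ S in (0 : ℝ)..1, f S := by
    rw [← intervalIntegral.integral_add_adjacent_intervals (hfi 0 S0 le_rfl h0.le)
      (hfi S0 1 h0.le zero_le_one)]
    have h2 : 0 ≤ ∫ S in (0 : ℝ)..S0, f S :=
      intervalIntegral.integral_nonneg h0.le fun S hS => hf0 S hS.1
    linarith
  have s2 : ∫ S in (0 : ℝ)..1, f S = (∫ S in (0 : ℝ)..a, f S) + ∫ S in a..1, f S :=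
    (intervalIntegral.integral_add_adjacent_intervals (hfi 0 a le_rfl ha0.le)
      (hfi a 1 ha0.le zero_le_one)).symm
  have s3 : ∫ S in (0 : ℝ)..a, f S ≤ 2 := by
    have h2 : ∫ S in (0 : ℝ)..a, f S ≤ ∫ S in (0 : ℝ)..a, (2 * M / s) ^ 2 * S :=
      intervalIntegral.integral_mono_on ha0.le (hfi 0 a le_rfl ha0.le)
        ((by fun_prop : Continuous fun S : ℝ => (2 * M / s) ^ 2 * S).intervalIntegrable _ _)
        fun S hS => hf1 S hS.1
    rw [intervalIntegral.integral_const_mul, integral_id] at h2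
    refine h2.trans (le_of_eq ?_)
    rw [ha]
    field_simp
    ring
  have hlog : Real.log (1 / a) = Real.log M + Real.log (1 / s) := by
    rw [ha, one_div_div, Real.log_div hM0.ne' hs0.ne', Real.log_div one_ne_zero hs0.ne',
      Real.log_one]
    ring
  have hls : 0 ≤ Real.log (1 / s) := Real.log_nonneg (by rw [le_div_iff₀ hs0]; linarith)
  have hlM : 0 ≤ Real.log M := Real.log_nonneg hM
  have hinv : ∫ S in a..1, (1 : ℝ) / S = Real.log (1 / a) := integral_one_div_of_pos ha0 one_pos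
  have s4 : ∫ S in a..1, f S ≤ 1 / 2 * Real.log M + 1 + 3 / 2 * Real.log (1 / s) := by
    rcases le_or_gt (1 / M) s with hc | hc
    · have ho := osc1 hM hc hs1
      have h2 : ∫ S in a..1, f S = ∫ S in a..1, (1 / 2 * (1 / S) -
          1 / 2 * (Real.cos (4 * M * Real.arctan (S / s)) / S)) := by
        refine intervalIntegral.integral_congr fun S hS => ?_
        rw [hf]
        have h3 : 4 * M * Real.arctan (S / s) = 2 * (2 * M * Real.arctan (S / s)) := by ring
        simp only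
        rw [h3, Real.cos_two_mul, Real.sin_sq]
        ring
      have i1 := intervalIntegrable_inv ha0 ha1
      have i2 : IntervalIntegrable (fun S => Real.cos (4 * M * Real.arctan (S / s)) / S) volume a 1 := by
        refine ContinuousOn.intervalIntegrable ?_
        refine ContinuousOn.div (Continuous.continuousOn (by fun_prop)) continuousOn_id fun S hS => ?_
        rw [uIcc_of_le ha1] at hS
        exact (ha0.trans_le hS.1).ne'
      rw [h2, intervalIntegral.integral_sub (i1.const_mul _) (i2.const_mul _),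
        intervalIntegral.integral_const_mul, intervalIntegral.integral_const_mul, hinv, hlog]
      rw [← ha] at ho
      have := (abs_le.1 ho).1
      linarith
    · have h2 : ∫ S in a..1, f S ≤ ∫ S in a..1, (1 : ℝ) / S := by
        refine intervalIntegral.integral_mono_on ha1 (hfi a 1 ha0.le zero_le_one)
          (intervalIntegrable_inv ha0 ha1) fun S hS => ?_
        rw [hf]
        have h3 : 0 < S := ha0.trans_le hS.1
        simp only
        gcongr
        exact Real.sin_sq_le_one _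
      have h3 : Real.log M ≤ Real.log (1 / s) := by
        refine Real.log_le_log hM0 ?_
        rw [le_div_iff₀ hs0]
        rw [lt_div_iff₀ hM0] at hc
        linarith
      rw [hinv, hlog] at h2
      linarith
  rw [hf] at s1 s2 s3 s4
  linarith

/-- **the homogeneous integral** -/
theorem hom_up : ∃ C : ℝ, ∀ M : ℕ, 1 ≤ M → ∀ S0 : ℝ, 0 < S0 → S0 ≤ 1 →
    ∫ S in S0..1, mB (fun _ : Fin M => (1 : ℝ)) (Real.arsinh S) / S ≤ 1 / 2 * Real.log M + C := by
  have hp := Real.pi_pos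
  refine ⟨3 + 1 / (2 * π) * ∫ t in (0 : ℝ)..(2 * π), -(3 / 2 * Real.log (Real.sin t)), fun M hM S0 h0 h1 => ?_⟩
  have hM1 : (1 : ℝ) ≤ M := by exact_mod_cast hM
  obtain ⟨F, hF⟩ : ∃ F : ℝ → ℝ → ℝ, F = fun S t =>
    sq (Bq (fun _ : Fin M => (1 : ℝ)) (zp (Real.arsinh (max S S0)) t)) / max S S0 := ⟨_, rfl⟩
  have hpos : ∀ S : ℝ, 0 < max S S0 := fun S => lt_of_lt_of_le h0 (le_max_right _ _)
  have hFc : Continuous (Function.uncurry F) := by
    have hc1 : Continuous fun p : ℝ × ℝ =>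
        sq (Bq (fun _ : Fin M => (1 : ℝ)) (zp (Real.arsinh (max p.1 S0)) p.2)) := by
      refine continuous_sqB (c := fun _ : ℝ × ℝ => fun _ : Fin M => (1 : ℝ))
        (a := fun p : ℝ × ℝ => Real.arsinh (max p.1 S0)) (t := fun p : ℝ × ℝ => p.2)
        ?_ ?_ ?_ ?_ ?_
      · exact continuous_const
      · exact Real.continuous_arsinh.comp (by fun_prop)
      · fun_prop
      · exact fun p k => by simp
      · exact fun p => Real.arsinh_pos_iff.2 (hpos _)
    rw [hF]
    change Continuous fun p : ℝ × ℝ =>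
      sq (Bq (fun _ : Fin M => (1 : ℝ)) (zp (Real.arsinh (max p.1 S0)) p.2)) / max p.1 S0
    exact hc1.div (by fun_prop) fun p => (hpos _).ne'
  have hI : IntegrableOn (Function.uncurry F) (uIoc S0 1 ×ˢ uIoc 0 (2 * π)) := by
    have h2 : IntegrableOn (Function.uncurry F) (Icc S0 1 ×ˢ Icc 0 (2 * π)) :=
      hFc.continuousOn.integrableOn_compact (isCompact_Icc.prod isCompact_Icc)
    refine h2.mono_set ?_
    rw [uIoc_of_le h1, uIoc_of_le (by positivity)]
    exact prod_mono Ioc_subset_Icc_self Ioc_subset_Icc_self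
  have e1 : ∫ S in S0..1, mB (fun _ : Fin M => (1 : ℝ)) (Real.arsinh S) / S
      = 1 / (2 * π) * ∫ S in S0..1, ∫ t in (0 : ℝ)..(2 * π), F S t := by
    rw [← intervalIntegral.integral_const_mul]
    refine intervalIntegral.integral_congr fun S hS => ?_
    rw [uIcc_of_le h1] at hS
    rw [hF]
    simp only [max_eq_left hS.1]
    rw [intervalIntegral.integral_div]
    unfold mB
    ring
  have hgc : Continuous fun t : ℝ => ∫ S in S0..1, F S t := by
    have : Continuous (Function.uncurry fun t S : ℝ => F S t) :=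
      hFc.comp (continuous_snd.prodMk continuous_fst)
    exact intervalIntegral.continuous_parametric_intervalIntegral_of_continuous' this _ _
  have hli : IntervalIntegrable (fun t : ℝ => -(3 / 2 * Real.log (Real.sin t))) volume 0 (2 * π) :=
    ((intervalIntegrable_log_sin (a := 0) (b := 2 * π)).const_mul (3 / 2)).neg
  have e2 : ∫ t in (0 : ℝ)..(2 * π), ∫ S in S0..1, F S t
      ≤ ∫ t in (0 : ℝ)..(2 * π), ((1 / 2 * Real.log M + 3) + -(3 / 2 * Real.log (Real.sin t))) := by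
    refine intervalIntegral.integral_mono_ae (by positivity) (hgc.intervalIntegrable _ _)
      (intervalIntegrable_const.add hli) ?_
    filter_upwards [ae_generic] with t ht
    have hs : Real.sin t ≠ 0 := fun h => ht.1 (by rw [h, mul_zero])
    have hs0 : 0 < |Real.sin t| := abs_pos.2 hs
    have h2 : ∫ S in S0..1, F S t
        = ∫ S in S0..1, Real.sin (2 * M * Real.arctan (S / |Real.sin t|)) ^ 2 / S := by
      refine intervalIntegral.integral_congr fun S hS => ?_
      rw [uIcc_of_le h1] at hS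
      rw [hF]
      simp only [max_eq_left hS.1]
      rw [sq_one (h0.trans_le hS.1) hs]
      congr 1
      rcases abs_choice (Real.sin t) with h | h
      · rw [h]
      · rw [h, div_neg, Real.arctan_neg, mul_neg, Real.sin_neg, neg_sq]
    rw [h2]
    refine (Iup hM1 hs0 (Real.abs_sin_le_one _) h0 h1).trans (le_of_eq ?_)
    have h3 : Real.log (1 / |Real.sin t|) = -Real.log (Real.sin t) := by
      rw [one_div, Real.log_inv, Real.log_abs]
    rw [h3]
    ring
  rw [e1, intervalIntegral_intervalIntegral_swap hI]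
  rw [intervalIntegral.integral_add intervalIntegrable_const hli, intervalIntegral.integral_const,
    smul_eq_mul, sub_zero] at e2
  have h4 : (0 : ℝ) < 1 / (2 * π) := by positivity
  calc 1 / (2 * π) * ∫ t in (0 : ℝ)..(2 * π), ∫ S in S0..1, F S t
      ≤ 1 / (2 * π) * (2 * π * (1 / 2 * Real.log M + 3) +
        ∫ t in (0 : ℝ)..(2 * π), -(3 / 2 * Real.log (Real.sin t))) := by gcongr
    _ = _ := by
      field_simp
      ring

/-! ## the crude bound near `S = 0` -/

theorem sa_prod {ι : Type*} (s : Finset ι) (w : ι → ℂ) :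
    |(∏ k ∈ s, w k).im| / ‖∏ k ∈ s, w k‖ ≤ ∑ k ∈ s, |(w k).im| / ‖w k‖ := by
  classical
  induction s using Finset.induction_on with
  | empty => simp
  | insert a s ha ih =>
    rw [Finset.prod_insert ha, Finset.sum_insert ha]
    refine le_trans ?_ (add_le_add_right ih _)
    obtain ⟨p, hp⟩ : ∃ p : ℂ, p = ∏ k ∈ s, w k := ⟨_, rfl⟩
    rw [← hp]
    rcases eq_or_ne (w a) 0 with h | h
    · rw [h]
      simp only [zero_mul, Complex.zero_im, abs_zero, zero_div, zero_add]
      positivity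
    rcases eq_or_ne p 0 with h' | h'
    · rw [h']
      simp only [mul_zero, Complex.zero_im, abs_zero, zero_div, add_zero]
      positivity
    have n1 : 0 < ‖w a‖ := norm_pos_iff.2 h
    have n2 : 0 < ‖p‖ := norm_pos_iff.2 h'
    rw [norm_mul, div_add_div _ _ n1.ne' n2.ne', Complex.mul_im]
    gcongr
    calc |(w a).re * p.im + (w a).im * p.re| ≤ |(w a).re * p.im| + |(w a).im * p.re| := abs_add_le _ _
      _ = |(w a).re| * |p.im| + |(w a).im| * |p.re| := by rw [abs_mul, abs_mul]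
      _ ≤ ‖w a‖ * |p.im| + |(w a).im| * ‖p‖ := by
        gcongr
        · exact Complex.abs_re_le_norm _
        · exact Complex.abs_re_le_norm _
      _ = |(w a).im| * ‖p‖ + ‖w a‖ * |p.im| := by ring

theorem sq_eq_sa (w : ℂ) : sq w = (|w.im| / ‖w‖) ^ 2 := by
  unfold sq
  rw [div_pow, div_pow, sq_abs]

theorem sq_Bq_le (c : Fin M → ℝ) (z : ℂ) :
    sq (Bq c z) ≤ M * ∑ k, sq (Bq (fun _ : Fin 1 => c k) z) := by
  have h1 : ∀ k, sq (Bq (fun _ : Fin 1 => c k) z) =
      (|((z ^ 2 + 2 * (c k : ℂ) * z + 1) / (z ^ 2 - 2 * (c k : ℂ) * z + 1)).im| /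
        ‖(z ^ 2 + 2 * (c k : ℂ) * z + 1) / (z ^ 2 - 2 * (c k : ℂ) * z + 1)‖) ^ 2 := by
    intro k
    rw [sq_eq_sa]
    unfold Bq
    rw [Fin.prod_univ_one]
  rw [Finset.sum_congr rfl fun k _ => h1 k]
  have h2 := sa_prod Finset.univ fun k =>
    (z ^ 2 + 2 * (c k : ℂ) * z + 1) / (z ^ 2 - 2 * (c k : ℂ) * z + 1)
  rw [sq_eq_sa]
  have h3 := sq_sum_le_card_mul_sum_sq (s := (Finset.univ : Finset (Fin M))) (f := fun k =>
    |((z ^ 2 + 2 * (c k : ℂ) * z + 1) / (z ^ 2 - 2 * (c k : ℂ) * z + 1)).im| /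
        ‖(z ^ 2 + 2 * (c k : ℂ) * z + 1) / (z ^ 2 - 2 * (c k : ℂ) * z + 1)‖)
  rw [Finset.card_univ, Fintype.card_fin] at h3
  refine le_trans ?_ h3
  have h4 : 0 ≤ |(Bq c z).im| / ‖Bq c z‖ := by positivity
  exact pow_le_pow_left₀ h4 h2 2

theorem mB_one {x : ℝ} (h0 : 0 < x) (h1 : x < π / 2) {S : ℝ} (hS : 0 < S) :
    mB (fun _ : Fin 1 => Real.cos x) (Real.arsinh S) ≤ 2 * S := by
  have ha : 0 < Real.arsinh S := Real.arsinh_pos_iff.2 hS
  have hs : 0 < Real.sin x := Real.sin_pos_of_pos_of_lt_pi h0 (by linarith)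
  have hc : 0 < Real.cos x := Real.cos_pos_of_mem_Ioo ⟨by linarith, h1⟩
  have h := circ' (fun _ : Fin 1 => x) (fun a b _ => Subsingleton.elim _ _) (fun _ => hs.ne') ha
  simp only [Fin.sum_univ_one, Fin.isValue, sub_self, Real.cos_zero] at h
  have hal : al (fun _ : Fin 1 => Real.cos x) 0 = 2 * Real.cos x := by
    unfold al
    have : (Finset.univ : Finset (Fin 1)).erase 0 = ∅ := by decide
    rw [this]
    simp
  rw [h, hal, Real.cosh_two_mul, Real.sinh_two_mul, Real.sinh_arsinh, Real.cosh_arsinh,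
    Real.sq_sqrt (by positivity)]
  have h2 : x + x = 2 * x := by ring
  rw [h2, Real.cos_two_mul]
  have hR : 0 < √(1 + S ^ 2) := by positivity
  have hR1 : 1 ≤ √(1 + S ^ 2) := by
    rw [Real.one_le_sqrt]
    nlinarith
  have hR2 : √(1 + S ^ 2) ^ 2 = 1 + S ^ 2 := Real.sq_sqrt (by positivity)
  have hsc := Real.sin_sq_add_cos_sq x
  obtain ⟨R, hRR⟩ : ∃ R : ℝ, R = √(1 + S ^ 2) := ⟨_, rfl⟩
  obtain ⟨c, hcc⟩ : ∃ c : ℝ, c = Real.cos x := ⟨_, rfl⟩
  obtain ⟨s, hss⟩ : ∃ s : ℝ, s = Real.sin x := ⟨_, rfl⟩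
  rw [← hRR] at hR hR1 hR2 ⊢
  rw [← hcc] at hc hsc ⊢
  rw [← hss] at hs hsc ⊢
  have d1 : 0 < 2 * c ^ 2 - 1 + (1 + S ^ 2 + S ^ 2) := by nlinarith [sq_nonneg S, pow_pos hc 2]
  have d2 : 0 < 1 + (1 + S ^ 2 + S ^ 2) := by positivity
  have e1 : 1 / 2 * (2 * c * (2 * c) / (s * s) * (2 * S * R / (2 * c ^ 2 - 1 + (1 + S ^ 2 + S ^ 2)) -
      2 * S * R / (1 + (1 + S ^ 2 + S ^ 2)))) = 2 * S * (c ^ 2 / (c ^ 2 + S ^ 2) * (1 / R)) := by
    have h3 : 2 * c ^ 2 - 1 + (1 + S ^ 2 + S ^ 2) = 2 * (c ^ 2 + S ^ 2) := by ring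
    have h4 : 1 + (1 + S ^ 2 + S ^ 2) = 2 * R ^ 2 := by rw [hR2]; ring
    have h5 : s ^ 2 = R ^ 2 - (c ^ 2 + S ^ 2) := by rw [hR2]; linarith
    have h6 : 0 < c ^ 2 + S ^ 2 := by positivity
    rw [h3, h4]
    have h7 : s * s = R ^ 2 - (c ^ 2 + S ^ 2) := by rw [← h5]; ring
    have h8 : R ^ 2 - (c ^ 2 + S ^ 2) ≠ 0 := by rw [← h5]; positivity
    rw [h7]
    field_simp
  rw [e1]
  have h3 : c ^ 2 / (c ^ 2 + S ^ 2) ≤ 1 := by
    rw [div_le_one (by positivity)]
    nlinarith
  have h4 : 1 / R ≤ 1 := by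
    rw [div_le_one hR]
    exact hR1
  have h5 : c ^ 2 / (c ^ 2 + S ^ 2) * (1 / R) ≤ 1 * 1 := by
    gcongr
  nlinarith

/-- **the crude bound** -/
theorem mB_crude {y : Fin M → ℝ} (h0 : ∀ i, 0 < y i) (h1 : ∀ i, y i < 3 * π / 16) {S : ℝ}
    (hS : 0 < S) : mB (cc y) (Real.arsinh S) ≤ 2 * M ^ 2 * S := by
  have hp := Real.pi_pos
  have ha : 0 < Real.arsinh S := Real.arsinh_pos_iff.2 hS
  have hcont : ∀ {n : ℕ} (c : Fin n → ℝ), (∀ k, |c k| ≤ 1) →
      Continuous fun t : ℝ => sq (Bq c (zp (Real.arsinh S) t)) := fun c hc =>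
    continuous_sqB (c := fun _ : ℝ => c) continuous_const continuous_const continuous_id
      (fun _ => hc) fun _ => ha
  have i1 : ∫ t in (0 : ℝ)..(2 * π), sq (Bq (cc y) (zp (Real.arsinh S) t))
      ≤ ∫ t in (0 : ℝ)..(2 * π), (M : ℝ) * ∑ k, sq (Bq (fun _ : Fin 1 => cc y k) (zp (Real.arsinh S) t)) := by
    refine intervalIntegral.integral_mono_on (by positivity)
      ((hcont _ fun k => Real.abs_cos_le_one _).intervalIntegrable _ _)
      (Continuous.intervalIntegrable ?_ _ _) fun t _ => sq_Bq_le _ _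
    exact continuous_const.mul (continuous_finsetSum _ fun k _ => hcont _ fun _ => Real.abs_cos_le_one _)
  have i3 : ∀ k ∈ (Finset.univ : Finset (Fin M)), IntervalIntegrable
      (fun t : ℝ => sq (Bq (fun _ : Fin 1 => cc y k) (zp (Real.arsinh S) t))) volume 0 (2 * π) :=
    fun k _ => (hcont _ fun _ => Real.abs_cos_le_one _).intervalIntegrable _ _
  rw [intervalIntegral.integral_const_mul, intervalIntegral.integral_finsetSum i3] at i1
  have i2 : ∀ k, 1 / (2 * π) * ∫ t in (0 : ℝ)..(2 * π),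
      sq (Bq (fun _ : Fin 1 => cc y k) (zp (Real.arsinh S) t)) ≤ 2 * S := fun k => by
    refine mB_one (x := 8 / 3 * y k) (by have := h0 k; positivity) ?_ hS
    have := h1 k
    linarith
  unfold mB
  calc 1 / (2 * π) * ∫ t in (0 : ℝ)..(2 * π), sq (Bq (cc y) (zp (Real.arsinh S) t))
      ≤ 1 / (2 * π) * (M * ∑ k, ∫ t in (0 : ℝ)..(2 * π),
        sq (Bq (fun _ : Fin 1 => cc y k) (zp (Real.arsinh S) t))) := by gcongr
    _ = M * ∑ k, 1 / (2 * π) * ∫ t in (0 : ℝ)..(2 * π),
        sq (Bq (fun _ : Fin 1 => cc y k) (zp (Real.arsinh S) t)) := by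
      rw [← Finset.mul_sum]
      ring
    _ ≤ M * ∑ _k : Fin M, 2 * S :=
      mul_le_mul_of_nonneg_left (Finset.sum_le_sum fun k _ => i2 k) (Nat.cast_nonneg _)
    _ = _ := by
      rw [Finset.sum_const, Finset.card_univ, Fintype.card_fin, nsmul_eq_mul]
      ring

/-! ## the bound of the trace -/

/-- **upper bound of the trace near the link rows**: exponent `5/48`, no loss. -/
theorem trace_up : ∃ C : ℝ, ∀ M : ℕ, 1 ≤ M → ∀ᶠ y in 𝓝 (fun _ : Fin M => (0 : ℝ)),
    (∀ i, 0 < y i) → Function.Injective y →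
      ((C1 y)⁻¹ * CT y GG).trace ≤ 5 / 48 * Real.log M + C := by
  have hp := Real.pi_pos
  obtain ⟨C, hC⟩ := hom_up
  refine ⟨5 / 24 * (C + 3) + 5 / 9, fun M hM => ?_⟩
  have hM1 : (1 : ℝ) ≤ M := by exact_mod_cast hM
  have hM0 : (0 : ℝ) < M := by linarith
  have hS0 : (0 : ℝ) < 1 / M ^ 2 := by positivity
  have hS1 : 1 / (M : ℝ) ^ 2 ≤ 1 := by
    rw [div_le_one (by positivity)]
    nlinarith
  have hcont : Continuous fun y : Fin M → ℝ =>
      ∫ S in (1 / (M : ℝ) ^ 2)..1, mB (fun i => Real.cos (8 / 3 * y i)) (Real.arsinh S) / S := by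
    refine continuous_J (c := fun (y : Fin M → ℝ) i => Real.cos (8 / 3 * y i)) ?_ ?_ hS0 hS1
    · fun_prop
    · exact fun y k => Real.abs_cos_le_one _
  have hev := hcont.tendsto (fun _ : Fin M => (0 : ℝ))
  simp only [mul_zero, Real.cos_zero] at hev
  have hh := hC M hM (1 / (M : ℝ) ^ 2) hS0 hS1
  have hlt := hev.eventually (gt_mem_nhds (show
    (∫ S in (1 / (M : ℝ) ^ 2)..1, mB (fun _ : Fin M => (1 : ℝ)) (Real.arsinh S) / S)
    < (∫ S in (1 / (M : ℝ) ^ 2)..1, mB (fun _ : Fin M => (1 : ℝ)) (Real.arsinh S) / S) + 1 by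
      linarith))
  have hnear : ∀ᶠ y in 𝓝 (fun _ : Fin M => (0 : ℝ)), ∀ i, y i < 3 * π / 16 := by
    rw [Filter.eventually_all]
    intro i
    have hc : Tendsto (fun y : Fin M → ℝ => y i) (𝓝 (fun _ : Fin M => (0 : ℝ))) (𝓝 0) :=
      (continuous_apply i).tendsto _
    exact hc.eventually (gt_mem_nhds (by positivity : (0 : ℝ) < 3 * π / 16))
  filter_upwards [hlt, hnear] with y hy h1 h0 hi
  have hr := rr_int h0 h1
  have hcirc : ∀ (x : Fin M → ℝ), (Function.Injective fun k => Real.cos (x k)) →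
      (∀ k, Real.sin (x k) ≠ 0) → ∀ {a : ℝ}, 0 < a → mB (fun k => Real.cos (x k)) a
        = 1 / 2 * ∑ i, ∑ j, al (fun k => Real.cos (x k)) i * al (fun k => Real.cos (x k)) j /
          (Real.sin (x i) * Real.sin (x j)) *
          (Complex.tan ((((x i + x j) / 2 : ℝ) : ℂ) + a * Complex.I)
            - Complex.tan ((((x i - x j) / 2 : ℝ) : ℂ) + a * Complex.I)).im :=
    fun x hc hs _ ha => circ x hc hs ha
  have hLc : ∀ t, 0 < t → Lc (rr y) t = (Real.cosh (8 / 3 * t) + 1) / Real.sinh (8 / 3 * t) *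
      (1 / 2 * mB (cc y) (4 / 3 * t)) := fun t ht => Lc_rr hcirc h0 h1 hi ht
  have hpos : ∀ t, 0 < t → 0 ≤ Lc (rr y) t := by
    intro t ht
    rw [hLc t ht]
    have h2 := Real.cosh_pos (8 / 3 * t)
    have h3 : 0 < Real.sinh (8 / 3 * t) := Real.sinh_pos_iff.2 (by positivity)
    have h4 := mB_nonneg (cc y) (4 / 3 * t)
    positivity
  have hm : ∀ S, 0 < S → Lc (rr y) (3 / 4 * Real.arsinh S)
      = √(1 + S ^ 2) / (2 * S) * mB (cc y) (Real.arsinh S) := by
    intro S hS
    have ha : 0 < Real.arsinh S := Real.arsinh_pos_iff.2 hS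
    rw [hLc _ (by positivity)]
    have e1 : 8 / 3 * (3 / 4 * Real.arsinh S) = 2 * Real.arsinh S := by ring
    have e2 : 4 / 3 * (3 / 4 * Real.arsinh S) = Real.arsinh S := by ring
    rw [e1, e2, Real.cosh_two_mul, Real.sinh_two_mul, Real.sinh_arsinh, Real.cosh_arsinh]
    have h3 : 0 < √(1 + S ^ 2) := by positivity
    have h4 : √(1 + S ^ 2) ^ 2 = 1 + S ^ 2 := Real.sq_sqrt (by positivity)
    field_simp
    rw [h4]
    ring
  have hm1 : ∀ S, 0 < S → mB (cc y) (Real.arsinh S) ≤ 1 := fun S hS =>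
    mB_le_one (fun k => Real.abs_cos_le_one _) (Real.arsinh_pos_iff.2 hS)
  have hG := Gf_le_S hr hpos (m := fun S => mB (cc y) (Real.arsinh S)) hm hm1
  have htr : ((C1 y)⁻¹ * CT y GG).trace = ∫ k in Ioi (0 : ℝ), rr y k * Gf (3 / 8 * k) := by
    rw [trace_rr h0 h1 measurable_GG (B := 1) fun k => by
      rw [abs_of_nonneg (GG_nonneg k)]; exact GG_le k]
    rfl
  have hRc := Rs_cont hr
  have hsp : ∫ S in (0 : ℝ)..1, Rs (rr y) S = (∫ S in (0 : ℝ)..(1 / (M : ℝ) ^ 2), Rs (rr y) S)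
      + ∫ S in (1 / (M : ℝ) ^ 2)..1, Rs (rr y) S :=
    (intervalIntegral.integral_add_adjacent_intervals (hRc.intervalIntegrable _ _)
      (hRc.intervalIntegrable _ _)).symm
  have p1 : ∫ S in (0 : ℝ)..(1 / (M : ℝ) ^ 2), Rs (rr y) S ≤ 2 := by
    have h2 : ∫ S in (0 : ℝ)..(1 / (M : ℝ) ^ 2), Rs (rr y) S
        ≤ ∫ _S in (0 : ℝ)..(1 / (M : ℝ) ^ 2), 2 * (M : ℝ) ^ 2 := by
      refine intervalIntegral.integral_mono_on_of_le_Ioo hS0.le (hRc.intervalIntegrable _ _)
        intervalIntegrable_const fun S hS => ?_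
      rw [Rs_eq hm hS.1, div_le_iff₀ hS.1]
      exact mB_crude h0 h1 hS.1
    rw [intervalIntegral.integral_const, smul_eq_mul, sub_zero] at h2
    refine h2.trans (le_of_eq ?_)
    field_simp
  have p2 : ∫ S in (1 / (M : ℝ) ^ 2)..1, Rs (rr y) S
      = ∫ S in (1 / (M : ℝ) ^ 2)..1, mB (fun i => Real.cos (8 / 3 * y i)) (Real.arsinh S) / S := by
    refine intervalIntegral.integral_congr fun S hS => ?_
    rw [uIcc_of_le hS1] at hS
    exact Rs_eq hm (hS0.trans_le hS.1)
  rw [htr]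
  rw [hsp, p2] at hG
  linarith

end NUQ2.Up
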