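import Pool.Agent.NUQ2.LowC
import Pool.Agent.NUQ2.Circ

/-!
# PB/BUpT (helper69): the trace against the logarithm of the weight, from above

`Gf_le_S`: for a density `r` on the half line with `Lc r t >= 0`,
`Lc r (3/4 arsinh S) = sqrt (1 + S^2) / (2 S) * m S`, `m S <= 1`:
`int r Gf <= 5/24 * int_0^1 m S / S + 5/9`, written with the continuous function of `S`.
-/

set_option autoImplicit false

open MeasureTheory Filter Topology Set
open scoped Real

namespace NUQ2.Up

open Pool.Agent.NUQ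

theorem sinh_mul_le {l x : ℝ} (hl : 0 ≤ l) (hl1 : l ≤ 1) (hx : 0 ≤ x) :
    Real.sinh (l * x) ≤ l * Real.sinh x := by
  have hmono : MonotoneOn (fun x : ℝ => l * Real.sinh x - Real.sinh (l * x)) (Ici 0) := by
    refine monotoneOn_of_deriv_nonneg (convex_Ici 0) (by fun_prop) (by fun_prop) fun x hx => ?_
    rw [interior_Ici] at hx
    have hx0 : (0 : ℝ) < x := hx
    have h1 : HasDerivAt (fun x : ℝ => l * Real.sinh x - Real.sinh (l * x))
        (l * Real.cosh x - Real.cosh (l * x) * (l * 1)) x :=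
      ((Real.hasDerivAt_sinh x).const_mul l).sub (((hasDerivAt_id x).const_mul l).sinh)
    rw [h1.deriv]
    have h2 : Real.cosh (l * x) ≤ Real.cosh x := by
      rw [Real.cosh_le_cosh, abs_of_nonneg (by positivity), abs_of_nonneg hx0.le]
      nlinarith
    nlinarith
  have h := hmono (show (0 : ℝ) ∈ Ici 0 from self_mem_Ici) (show x ∈ Ici (0 : ℝ) from hx) hx
  simp only [mul_zero, Real.sinh_zero, sub_zero] at h
  linarith

theorem kf_le {φ η : ℝ} (h0 : 0 ≤ φ) (hφ : φ ≤ π / 2) (hη : 0 < η) :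
    kf φ η ≤ φ / π * (Real.cosh (π / 2 * η))⁻¹ := by
  have hp := Real.pi_pos
  unfold kf
  have h1 : Real.sinh (φ * η) ≤ (φ / (π / 2)) * Real.sinh (π / 2 * η) := by
    have h2 := sinh_mul_le (l := φ / (π / 2)) (x := π / 2 * η) (by positivity)
      (by rw [div_le_one (by positivity)]; exact hφ) (by positivity)
    have e : φ / (π / 2) * (π / 2 * η) = φ * η := by field_simp
    rwa [e] at h2
  have h3 : Real.sinh (π * η) = 2 * Real.sinh (π / 2 * η) * Real.cosh (π / 2 * η) := by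
    rw [← Real.sinh_two_mul]
    congr 1
    ring
  have h4 : 0 < Real.sinh (π / 2 * η) := Real.sinh_pos_iff.2 (by positivity)
  have h5 := Real.cosh_pos (π / 2 * η)
  rw [h3, div_le_iff₀ (by positivity)]
  calc Real.sinh (φ * η) ≤ (φ / (π / 2)) * Real.sinh (π / 2 * η) := h1
    _ = φ / π * (Real.cosh (π / 2 * η))⁻¹ *
        (2 * Real.sinh (π / 2 * η) * Real.cosh (π / 2 * η)) := by
      field_simp

theorem int_sech : IntegrableOn (fun η : ℝ => (Real.cosh (π / 2 * η))⁻¹) (Ioi 0) ∧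
    ∀ a : ℝ, 0 ≤ a → ∫ η in Ioi a, (Real.cosh (π / 2 * η))⁻¹ ≤ 4 / π := by
  have hp := Real.pi_pos
  have hexp : ∀ a : ℝ, IntegrableOn (fun η : ℝ => 2 * Real.exp (-(π / 2) * η)) (Ioi a) := fun a =>
    (integrableOn_exp_mul_Ioi (by linarith : -(π / 2) < 0) a).const_mul 2
  have hle : ∀ η : ℝ, (Real.cosh (π / 2 * η))⁻¹ ≤ 2 * Real.exp (-(π / 2) * η) := by
    intro η
    rw [inv_le_comm₀ (Real.cosh_pos _) (by positivity)]
    rw [Real.cosh_eq]
    have h1 : (2 * Real.exp (-(π / 2) * η))⁻¹ = Real.exp (π / 2 * η) / 2 := by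
      rw [mul_inv, ← Real.exp_neg]
      have : -(-(π / 2) * η) = π / 2 * η := by ring
      rw [this]
      ring
    rw [h1]
    have := Real.exp_pos (-(π / 2 * η))
    linarith
  have hc : Continuous fun η : ℝ => (Real.cosh (π / 2 * η))⁻¹ :=
    Continuous.inv₀ (by fun_prop) fun x => (Real.cosh_pos _).ne'
  have hI : ∀ a : ℝ, IntegrableOn (fun η : ℝ => (Real.cosh (π / 2 * η))⁻¹) (Ioi a) := fun a =>
    (hexp a).mono' hc.aestronglyMeasurable (Eventually.of_forall fun η => by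
      rw [Real.norm_of_nonneg (inv_nonneg.2 (Real.cosh_pos _).le)]
      exact hle η)
  refine ⟨hI 0, fun a ha => ?_⟩
  have h1 : ∫ η in Ioi a, (Real.cosh (π / 2 * η))⁻¹ ≤ ∫ η in Ioi a, 2 * Real.exp (-(π / 2) * η) :=
    integral_mono (hI a) (hexp a) hle
  refine h1.trans ?_
  rw [integral_const_mul, integral_exp_mul_Ioi (by linarith : -(π / 2) < 0) a]
  have h2 : Real.exp (-(π / 2) * a) ≤ 1 := by
    rw [Real.exp_le_one_iff]
    nlinarith
  have e : 2 * (-Real.exp (-(π / 2) * a) / -(π / 2)) = 4 / π * Real.exp (-(π / 2) * a) := by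
    field_simp
    ring
  rw [e]
  have h3 : 0 < 4 / π := by positivity
  nlinarith

theorem Lc_bdd {r : ℝ → ℝ} (hr : IntegrableOn r (Ioi 0)) (t : ℝ) :
    |Lc r t| ≤ ∫ k in Ioi (0 : ℝ), |r k| := by
  unfold Lc
  rw [← Real.norm_eq_abs]
  refine (norm_integral_le_integral_norm _).trans ?_
  refine integral_mono (Lc_int hr t).norm hr.abs fun k => ?_
  simp only [norm_mul, Real.norm_eq_abs]
  exact mul_le_of_le_one_right (abs_nonneg _) (Real.abs_cos_le_one _)

theorem int_sech_Lc {r : ℝ → ℝ} (hr : IntegrableOn r (Ioi 0)) :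
    IntegrableOn (fun η => (Real.cosh (π / 2 * η))⁻¹ * Lc r (π / 4 * η)) (Ioi 0) := by
  refine int_sech.1.mul_bdd (c := ∫ k in Ioi (0 : ℝ), |r k|) ?_ ?_
  · have := Lc_cont hr
    exact (by fun_prop : Continuous fun η : ℝ => Lc r (π / 4 * η)).aestronglyMeasurable
  · exact Eventually.of_forall fun η => by
      rw [Real.norm_eq_abs]
      exact Lc_bdd hr _

/-- one angle, from above -/
theorem gf_le {r : ℝ → ℝ} (hr : IntegrableOn r (Ioi 0)) (hpos : ∀ t, 0 < t → 0 ≤ Lc r t)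
    {φ : ℝ} (h0 : 0 ≤ φ) (hφ : φ ≤ π / 2) :
    ∫ k in Ioi (0 : ℝ), r k * gf φ (3 / 8 * k) ≤
      2 * (φ / π) * ∫ η in Ioi (0 : ℝ), (Real.cosh (π / 2 * η))⁻¹ * Lc r (π / 4 * η) := by
  have hp := Real.pi_pos
  have hφ' : |φ| < π := by rw [abs_of_nonneg h0]; linarith
  obtain ⟨h4, h5⟩ := int_gf hr hφ'
  rw [h5, mul_assoc]
  refine mul_le_mul_of_nonneg_left ?_ (by norm_num)
  rw [← integral_const_mul]
  refine setIntegral_mono_on h4 ((int_sech_Lc hr).const_mul _) measurableSet_Ioi fun η hη => ?_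
  have hη0 : (0 : ℝ) < η := hη
  have h8 := kf_le h0 hφ hη0
  have h9 := hpos (π / 4 * η) (by positivity)
  calc kf φ η * Lc r (π / 4 * η) ≤ φ / π * (Real.cosh (π / 2 * η))⁻¹ * Lc r (π / 4 * η) :=
        mul_le_mul_of_nonneg_right h8 h9
    _ = _ := by ring

/-- **the logarithm of the weight, from above** -/
theorem Gf_le {r : ℝ → ℝ} (hr : IntegrableOn r (Ioi 0)) (hpos : ∀ t, 0 < t → 0 ≤ Lc r t) :
    ∫ k in Ioi (0 : ℝ), r k * Gf (3 / 8 * k) ≤
      5 * π / 36 * ∫ η in Ioi (0 : ℝ), (Real.cosh (π / 2 * η))⁻¹ * Lc r (π / 4 * η) := by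
  have hp := Real.pi_pos
  have hle : π / 3 ≤ π / 2 := by linarith
  set μ : Measure ℝ := volume.restrict (Ioc (π / 3) (π / 2)) with hμ
  have hgm : Measurable (fun p : ℝ × ℝ => gf p.2 (3 / 8 * p.1)) := by
    unfold gf
    refine Measurable.div (by fun_prop) ?_
    refine Measurable.add (by fun_prop) ?_
    exact (Real.continuous_cosh.comp (by fun_prop)).measurable
  have h0 : Integrable (fun p : ℝ × ℝ => r p.1 * 1) ((volume.restrict (Ioi 0)).prod μ) :=
    hr.mul_prod (integrable_const (1 : ℝ))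
  have hF : Integrable (fun p : ℝ × ℝ => r p.1 * gf p.2 (3 / 8 * p.1))
      ((volume.restrict (Ioi 0)).prod μ) := by
    have h00 : Integrable (fun p : ℝ × ℝ => r p.1) ((volume.restrict (Ioi 0)).prod μ) := by
      simpa using h0
    refine h00.mul_bdd (c := 1) hgm.aestronglyMeasurable ?_
    have hae : ∀ᵐ p : ℝ × ℝ ∂((volume.restrict (Ioi 0)).prod μ), p.2 ∈ Ioc (π / 3) (π / 2) := by
      have h1 : ∀ᵐ y ∂μ, y ∈ Ioc (π / 3) (π / 2) := ae_restrict_mem measurableSet_Ioc
      exact Measure.quasiMeasurePreserving_snd.ae h1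
    filter_upwards [hae] with p hp2
    have h1 : 0 ≤ Real.cos p.2 := Real.cos_nonneg_of_mem_Icc ⟨by linarith [hp2.1], hp2.2⟩
    have h2 := Real.one_le_cosh (2 * π / 3 * (3 / 8 * p.1))
    have h3 : |Real.sin p.2| ≤ 1 := Real.abs_sin_le_one _
    unfold gf
    rw [norm_div, Real.norm_eq_abs, Real.norm_of_nonneg (by linarith),
      div_le_one (by linarith)]
    linarith
  have h1 : ∫ k in Ioi (0 : ℝ), r k * Gf (3 / 8 * k)
      = ∫ k in Ioi (0 : ℝ), ∫ φ, r k * gf φ (3 / 8 * k) ∂μ := by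
    refine integral_congr_ae (Eventually.of_forall fun x => ?_)
    simp only
    rw [Gf_eq, intervalIntegral.integral_of_le hle, ← integral_const_mul]
  have h2 : ∫ k in Ioi (0 : ℝ), ∫ φ, r k * gf φ (3 / 8 * k) ∂μ
      = ∫ φ, (∫ k in Ioi (0 : ℝ), r k * gf φ (3 / 8 * k)) ∂μ :=
    integral_integral_swap hF
  rw [h1, h2]
  set S : ℝ := ∫ η in Ioi (0 : ℝ), (Real.cosh (π / 2 * η))⁻¹ * Lc r (π / 4 * η) with hS
  have h3 : ∫ φ, (∫ k in Ioi (0 : ℝ), r k * gf φ (3 / 8 * k)) ∂μ ≤ ∫ φ, 2 * (φ / π) * S ∂μ := by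
    have h4 : Integrable (fun φ : ℝ => ∫ k in Ioi (0 : ℝ), r k * gf φ (3 / 8 * k)) μ :=
      hF.integral_prod_right
    refine integral_mono_ae h4 ?_ ?_
    · have : Continuous (fun φ : ℝ => 2 * (φ / π) * S) := by fun_prop
      exact (this.integrableOn_Icc (a := π / 3) (b := π / 2)).mono_set Ioc_subset_Icc_self
    · have h5 : ∀ᵐ y ∂μ, y ∈ Ioc (π / 3) (π / 2) := ae_restrict_mem measurableSet_Ioc
      filter_upwards [h5] with φ hφ
      exact gf_le hr hpos (by linarith [hφ.1]) hφ.2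
  refine h3.trans (le_of_eq ?_)
  rw [hμ, ← intervalIntegral.integral_of_le hle]
  have h4 : ∫ φ in (π / 3)..(π / 2), 2 * (φ / π) * S
      = 2 * S / π * ∫ φ in (π / 3)..(π / 2), φ := by
    rw [← intervalIntegral.integral_const_mul]
    congr 1; funext φ; ring
  rw [h4, integral_id]
  field_simp
  ring

/-- the continuous representative of `m S / S` -/
noncomputable def Rs (r : ℝ → ℝ) (S : ℝ) : ℝ :=
  2 * (√(1 + S ^ 2))⁻¹ * Lc r (3 / 4 * Real.arsinh S)

theorem Rs_cont {r : ℝ → ℝ} (hr : IntegrableOn r (Ioi 0)) : Continuous (Rs r) := by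
  unfold Rs
  have h1 := Lc_cont hr
  have h2 := Real.continuous_arsinh
  refine Continuous.mul (continuous_const.mul (Continuous.inv₀ (by fun_prop) fun x => ?_))
    (by fun_prop)
  have : (0 : ℝ) < 1 + x ^ 2 := by positivity
  positivity

theorem Rs_eq {r : ℝ → ℝ} {m : ℝ → ℝ}
    (hm : ∀ S, 0 < S → Lc r (3 / 4 * Real.arsinh S) = √(1 + S ^ 2) / (2 * S) * m S) {S : ℝ}
    (hS : 0 < S) : Rs r S = m S / S := by
  unfold Rs
  rw [hm S hS]
  have : 0 < √(1 + S ^ 2) := by positivity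
  field_simp

/-- **upper bound in the variable `S`** -/
theorem Gf_le_S {r : ℝ → ℝ} (hr : IntegrableOn r (Ioi 0)) (hpos : ∀ t, 0 < t → 0 ≤ Lc r t)
    {m : ℝ → ℝ} (hm : ∀ S, 0 < S → Lc r (3 / 4 * Real.arsinh S) = √(1 + S ^ 2) / (2 * S) * m S)
    (hm1 : ∀ S, 0 < S → m S ≤ 1) :
    ∫ k in Ioi (0 : ℝ), r k * Gf (3 / 8 * k) ≤ 5 / 24 * (∫ S in (0 : ℝ)..1, Rs r S) + 5 / 9 := by
  have hp := Real.pi_pos
  refine (Gf_le hr hpos).trans ?_
  set η1 : ℝ := 3 / π * Real.arsinh 1 with hη1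
  have ha1 : 0 < Real.arsinh 1 := Real.arsinh_pos_iff.2 one_pos
  have hη1p : 0 < η1 := by positivity
  have hI := int_sech_Lc hr
  have hsplit : ∫ η in Ioi (0 : ℝ), (Real.cosh (π / 2 * η))⁻¹ * Lc r (π / 4 * η)
      = (∫ η in (0 : ℝ)..η1, (Real.cosh (π / 2 * η))⁻¹ * Lc r (π / 4 * η)) +
        ∫ η in Ioi η1, (Real.cosh (π / 2 * η))⁻¹ * Lc r (π / 4 * η) := by
    rw [intervalIntegral.integral_interval_add_Ioi hI (hI.mono_set (Ioi_subset_Ioi hη1p.le))]
  rw [hsplit]
  -- far part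
  have hfar : ∫ η in Ioi η1, (Real.cosh (π / 2 * η))⁻¹ * Lc r (π / 4 * η) ≤ 4 / π := by
    have h1 : ∫ η in Ioi η1, (Real.cosh (π / 2 * η))⁻¹ * Lc r (π / 4 * η)
        ≤ ∫ η in Ioi η1, (Real.cosh (π / 2 * η))⁻¹ := by
      refine setIntegral_mono_on (hI.mono_set (Ioi_subset_Ioi hη1p.le))
        (int_sech.1.mono_set (Ioi_subset_Ioi hη1p.le)) measurableSet_Ioi fun η hη => ?_
      have hη : η1 < η := hη
      refine mul_le_of_le_one_right (inv_nonneg.2 (Real.cosh_pos _).le) ?_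
      -- eta = 3/pi arsinh S with S > 1
      set S : ℝ := Real.sinh (π / 3 * η) with hS
      have hS1 : 1 < S := by
        have h2 : Real.arsinh 1 < π / 3 * η := by
          have h3 : π / 3 * η1 = Real.arsinh 1 := by rw [hη1]; field_simp
          rw [← h3]
          gcongr
        have h4 := Real.sinh_lt_sinh.2 h2
        rwa [Real.sinh_arsinh] at h4
      have hS0 : 0 < S := by linarith
      have e : π / 4 * η = 3 / 4 * Real.arsinh S := by
        rw [hS, Real.arsinh_sinh]; ring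
      rw [e, hm S hS0]
      have h5 : √(1 + S ^ 2) / (2 * S) ≤ 1 := by
        rw [div_le_one (by positivity)]
        rw [Real.sqrt_le_left (by positivity)]
        nlinarith
      have h6 := hm1 S hS0
      have h7 : 0 ≤ √(1 + S ^ 2) / (2 * S) := by positivity
      calc √(1 + S ^ 2) / (2 * S) * m S ≤ √(1 + S ^ 2) / (2 * S) * 1 := by gcongr
        _ ≤ 1 := by linarith
    exact h1.trans (int_sech.2 η1 hη1p.le)
  -- near part
  have hnear : ∫ η in (0 : ℝ)..η1, (Real.cosh (π / 2 * η))⁻¹ * Lc r (π / 4 * η)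
      ≤ 3 / (2 * π) * ∫ S in (0 : ℝ)..1, Rs r S := by
    have hg : Continuous fun η : ℝ => (Real.cosh (π / 2 * η))⁻¹ * Lc r (π / 4 * η) := by
      have h1 := Lc_cont hr
      exact Continuous.mul (Continuous.inv₀ (by fun_prop) fun x => (Real.cosh_pos _).ne')
        (by fun_prop)
    have h1 := int_arsinh hg 0 1
    have e0 : 3 / π * Real.arsinh 0 = 0 := by rw [Real.arsinh_zero, mul_zero]
    rw [e0, ← hη1] at h1
    rw [← h1, ← intervalIntegral.integral_const_mul]
    refine intervalIntegral.integral_mono_on zero_le_one ?_ ?_ fun S hS => ?_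
    · refine Continuous.intervalIntegrable ?_ _ _
      refine Continuous.mul (hg.comp (by have := Real.continuous_arsinh; fun_prop)) ?_
      refine continuous_const.mul (Continuous.inv₀ (by fun_prop) fun x => ?_)
      have : (0 : ℝ) < 1 + x ^ 2 := by positivity
      positivity
    · exact ((Rs_cont hr).const_mul _).intervalIntegrable _ _
    · have hL : 0 ≤ Lc r (3 / 4 * Real.arsinh S) := by
        rcases hS.1.eq_or_lt with h | h
        · rw [← h, Real.arsinh_zero, mul_zero]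
          have hc := (Lc_cont hr).tendsto 0
          have hc2 : Tendsto (Lc r) (𝓝[>] (0 : ℝ)) (𝓝 (Lc r 0)) :=
            hc.mono_left nhdsWithin_le_nhds
          refine ge_of_tendsto hc2 ?_
          filter_upwards [self_mem_nhdsWithin] with t ht
          exact hpos t ht
        · have := Real.arsinh_pos_iff.2 h
          exact hpos _ (by positivity)
      have a2 : π / 4 * (3 / π * Real.arsinh S) = 3 / 4 * Real.arsinh S := by field_simp
      rw [a2]
      have h2 : (Real.cosh (π / 2 * (3 / π * Real.arsinh S)))⁻¹ ≤ 1 :=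
        inv_le_one_of_one_le₀ (Real.one_le_cosh _)
      have h3 : 0 < √(1 + S ^ 2) := by positivity
      unfold Rs
      have h4 : 0 ≤ 3 / π * (√(1 + S ^ 2))⁻¹ := by positivity
      calc _ ≤ 1 * Lc r (3 / 4 * Real.arsinh S) * (3 / π * (√(1 + S ^ 2))⁻¹) := by gcongr
        _ = _ := by
          field_simp
  have h9 : 0 < 5 * π / 36 := by positivity
  calc _ ≤ 5 * π / 36 * (3 / (2 * π) * (∫ S in (0 : ℝ)..1, Rs r S) + 4 / π) := by
        gcongr
    _ = _ := by
      field_simp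
      ring

end NUQ2.Up
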