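import Pool.Agent.PB.ClsR40
import Pool.Agent.PB.ClsCrv

/-!
# Classes without poles: `OneC` at fixed half quanta, any base

`oneC_flatB`: the one body functions of two half quanta without poles at fixed positions;
`oneC_WW`: both half quanta of type W; `cFWW_Z`: the integrand of the class W W.
-/

set_option autoImplicit false
set_option linter.unusedSectionVars false

noncomputable section

open Complex MeasureTheory Finset
open scoped ENNReal

namespace PBR

open NUO NUP1 NUCR NUP1S NUP1S.Ab NUP1S.AbC NUP1S.AbG NURow NUP1.Leg NUGC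

variable {X : Bool → Option O3 → ℂ → ℂ} {ob : (Bool → ℂ → ℝ) → OB} {P : NUO.Par} {x κ : ℝ}
  {E0 : Set ℝ} {q q' p p' : ℝ} {F F' : Bool → Option O3 → ℂ → ℂ} {T T' : Bool → ℂ → ℂ} {w w' : ℂ}

theorem sG_eq_tG (hF : HG false q p F T) (hF' : HG false q' p' F' T') :
    tG T T' w w' = sG F F' w w' := by
  funext a u
  unfold tG sG
  rw [hF.eq, hF'.eq]
  simp

/-- **`OneC` of two half quanta without poles at fixed positions, any base** -/
theorem oneC_flatB (hB : Bs X ob P x κ E0) (hF : HG false q p F T) (hF' : HG false q' p' F' T')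
    (hw : w.re = p) (hw' : w'.re = p') {aX aY : ℕ} (hq : q' - q = 2 * ((aX : ℝ) - aY)) {x0 : ℝ}
    (h0 : 3 / 5 * l ≤ x0) (h1 : x0 ≤ 19 / 20 * l) :
    OneC (fun a => XS a (X a) F (fl F') w w') (ob fun a z => ‖sG F F' w w' a z‖) P x κ x0
      ((aX : ℤ) - aY) ({w.im, w'.im} ∪ E0) := by
  have hl := l_pos
  have hms : ∀ a, Measurable (s2G F F' w w' a) := fun a =>
    ((hF.ms a _).comp (measurable_const.sub measurable_id)).mul
      ((hF'.ms (!a) _).comp (measurable_const.sub measurable_id))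
  have hm1 : ∀ a, Measurable (sG F F' w w' a) := fun a =>
    ((hF.ms a _).comp (measurable_const.sub measurable_id)).mul
      ((hF'.ms (!a) _).comp (measurable_const.sub measurable_id))
  have hsub : Set.Icc x0 (21 / 20 * l) ⊆ Set.Icc (3 / 5 * l) (21 / 20 * l) := fun y hy =>
    ⟨h0.trans hy.1, hy.2⟩
  have hSp : ∀ a, SpecAt x0 a (((aX : ℤ) - aY : ℤ) : ℝ) (sG F F' w w' a) := by
    intro a
    have h := specP_two (w := w) (w' := w') hF hF' hw hw' hq a
    rw [← sG_eq_tG hF hF']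
    refine ⟨(Bdd.mono_set h.bd hsub).rate ?_, fun z hz => h.df z (hsub hz)⟩
    rw [cE_eps]
    simp
  have hSS : ∀ a, SpecS P {w.im, w'.im} (sG F F' w w' a) (s2G F F' w w' a) := by
    intro a
    have h := specS_two (P := P) (w := w) (w' := w') hF hF' a
    have e : (fun u => tG T T' w w' a u / dX (esE (b := false) (b' := false)) (epE w w') a u) =
        sG F F' w w' a := by
      funext u
      exact tG_div hF hF' a u
    rw [e] at h
    exact h
  have key := hB.one x0 h0 h1 ((aX : ℤ) - aY) (sG F F' w w') (s2G F F' w w') {w.im, w'.im} hm1 hms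
    hSp hSS ((Set.toFinite _).measure_zero _)
  have e : (fun a => spX (X a) (sG F F' w w' a) (s2G F F' w w' a)) =
      fun a => XS a (X a) F (fl F') w w' := by
    funext a
    exact spX_XS a (X a) (S := F) (S' := fl F') (hF.kL a) (hF.kT a) (hF'.kL _) (hF'.kT _) w w'
  rw [e] at key
  exact key

/-- the functions of the class W W at fixed half quanta -/
def ZW (X : Bool → Option O3 → ℂ → ℂ) (w w' : ℂ) (a : Bool) : Option O3 → ℂ → ℂ :=
  XS a (X a) SF (fl SF) w w'

/-- **`OneC` of the class W W at fixed half quanta** (`Re w = Re w' = 5 l / 4`) -/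
theorem oneC_WW (hB : Bs X ob P x κ E0) (hw : w.re = 5 / 4 * l) (hw' : w'.re = 5 / 4 * l) {x0 : ℝ}
    (h0 : 3 / 5 * l ≤ x0) (h1 : x0 ≤ 19 / 20 * l) :
    OneC (ZW X w w') (ob fun a z => ‖sG SF SF w w' a z‖) P x κ x0 0 ({w.im, w'.im} ∪ E0) := by
  have h := oneC_flatB hB HG_SF_A HG_SF_A hw hw' (aX := 0) (aY := 0) (by norm_num) h0 h1
  have e : ((0 : ℕ) : ℤ) - ((0 : ℕ) : ℤ) = 0 := by norm_num
  rw [e] at h
  exact h

/-- the integrand of the class W W -/
theorem cFWW_Z (X' Y' : Option O3 → ℂ → ℂ) (kF kP kF' kP' : ℂ → ℂ) (α : ℝ) (n n' : ℕ)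
    (lnX : ∀ p p' : ℕ, (Fin p → O3) → (Fin p' → O3) → Fin p → ℝ)
    (lnY : ∀ p p' : ℕ, (Fin p → O3) → (Fin p' → O3) → Fin p' → ℝ) (w w' : ℂ) :
    (cF X' Y' kF kP kF' kP' .W .W).Z (X true) (X false) α n n' lnX lnY w w' =
      NURow.ZobjQ (ZW X w w' true) (ZW X w w' false) α n n' lnX lnY := by
  unfold CD.Z
  rw [cF_S, cF_S', cF_dX, cF_dY, if_pos ⟨Nat.zero_le _, Nat.zero_le _⟩]
  rfl

/-- the kernel of the class W W -/
theorem cFWW_pre (X' Y' : Option O3 → ℂ → ℂ) (kF kP kF' kP' : ℂ → ℂ) (w w' : ℂ) :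
    (cF X' Y' kF kP kF' kP' .W .W).pre w w' = Pre Dk kF kF' w w' := rfl

/-- **the value of the class W W** as the double integral of the state sums at fixed half quanta -/
theorem cFWW_val (X' Y' : Option O3 → ℂ → ℂ) (kF kP kF' kP' : ℂ → ℂ) (α : ℝ) (n n' : ℕ)
    (lnX : ∀ p p' : ℕ, (Fin p → O3) → (Fin p' → O3) → Fin p → ℝ)
    (lnY : ∀ p p' : ℕ, (Fin p → O3) → (Fin p' → O3) → Fin p' → ℝ) :
    (cF X' Y' kF kP kF' kP' .W .W).val (X true) (X false) α n n' lnX lnY =
      ∫ y : ℝ × ℝ, Pre Dk kF kF' (vl (5 / 4 * l) y.1) (vl (5 / 4 * l) y.2) *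
        NURow.ZobjQ (ZW X (vl (5 / 4 * l) y.1) (vl (5 / 4 * l) y.2) true)
          (ZW X (vl (5 / 4 * l) y.1) (vl (5 / 4 * l) y.2) false) α n n' lnX lnY
          ∂(volume.prod volume) := by
  unfold CD.val
  refine integral_congr_ae (Filter.Eventually.of_forall fun y => ?_)
  show (cF X' Y' kF kP kF' kP' .W .W).pre _ _ * _ = _
  rw [cFWW_pre, cFWW_Z, cF_a, cF_b]
  rfl

end PBR

end
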