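import Pool.Agent.PB.Reg2

/-!
# The regular function, general rows: the eleven integrals as the final classes

`RD.Ok.E11_val` : the eleven integrals as the start classes; `RD.Ok.E11_fin` : as the sixteen final
classes and the two classes with one line.
-/

set_option autoImplicit false
set_option linter.unusedSectionVars false
set_option linter.unusedVariables false

noncomputable section

open Complex MeasureTheory

namespace PBX

open NUP1 NUP1S NUP1.Bd NURow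
open NUP1.N (Z3 Gr0 GXs GYs ZP ZP' ZPP prc pr1 rA rB I0 IP IP' IPP ID ID' UD E11 Ln Ln_start)
open NUP1.Leg (hE hr thE cc Ck Dk)

variable {m : ℕ} {D : RD m}

/-- the start classes -/
abbrev RD.cS (D : RD m) (t t' : HT) : CD := NURow.cS D.KF D.KP D.KF' D.KP' t t'

/-- the final classes -/
abbrev RD.cF (D : RD m) (t t' : HT) : CD := NURow.cF D.X D.Y D.KF D.KP D.KF' D.KP' t t'

section pts

variable (H : D.Ok) (n : ℕ)
  {lnX : ∀ p p' : ℕ, (Fin p → O3) → (Fin p' → O3) → Fin p → ℝ}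
  {lnY : ∀ p p' : ℕ, (Fin p → O3) → (Fin p' → O3) → Fin p' → ℝ} (L : LnH lnX lnY)
  {w w' : ℂ} {t t' : HT}
include H L

theorem RD.Ok.pt_I0 (ht : t = .W ∨ t = .F) (ht' : t' = .W ∨ t' = .F) (hw : w.re = t.l0)
    (hw' : w'.re = t'.l0) :
    I0 (3 / 5 * l) (-(17 / 10) * l) D.p D.q D.x D.y D.hX D.hY n n w w' =
      (D.cS t t').pre w w' * (D.cS t t').Z D.X D.Y (3 / 5 * l) n n lnX lnY w w' := by
  have p1 : Pos w := by
    rcases ht with rfl | rfl
    · exact Or.inl hw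
    · exact Or.inr hw
  have p2 : Pos w' := by
    rcases ht' with rfl | rfl
    · exact Or.inl hw'
    · exact Or.inr hw'
  rw [D.I0_pre, stX_WW H L p1 p2, rxWW, ryWW]
  have e : (D.cS t t').pre w w' * (D.cS t t').Z D.X D.Y (3 / 5 * l) n n lnX lnY w w' =
      Pre gFF D.KF D.KF' w w' * (if 0 ≤ n ∧ 0 ≤ n then
        ZobjQ (XS true D.X SF (fl SF) w w') (XS false D.Y SF (fl SF) w w')
          (3 / 5 * l) n n lnX lnY else 0) := by
    rcases ht with rfl | rfl <;> rcases ht' with rfl | rfl <;> rfl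
  rw [e, if_pos ⟨Nat.zero_le _, Nat.zero_le _⟩]
  rfl

theorem RD.Ok.pt_IP (ht' : t' = .W ∨ t' = .F) (hw : w.re = -(11 / 4) * l)
    (hw' : w'.re = t'.l0) :
    IP (3 / 5 * l) (-(17 / 10) * l) D.p D.q D.x D.y D.hX D.hY n n w w' =
      (D.cS .P t').pre w w' * (D.cS .P t').Z D.X D.Y (3 / 5 * l) n n lnX lnY w w' := by
  have p2 : Pos w' := by
    rcases ht' with rfl | rfl
    · exact Or.inl hw'
    · exact Or.inr hw'
  rw [H.IP_pre hw, stX_P H L hw p2, rxP, ryP]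
  have e : (D.cS .P t').pre w w' * (D.cS .P t').Z D.X D.Y (3 / 5 * l) n n lnX lnY w w' =
      Pre gPF D.KP D.KF' w w' * (if 0 ≤ n ∧ 1 ≤ n then
        ZobjQ (XS true D.X SP (fl SF) w w') (XS false D.Y SP (fl SF) w w')
          (3 / 5 * l) n (n - 1) lnX lnY else 0) := by
    rcases ht' with rfl | rfl <;> rfl
  rw [e]
  simp only [Nat.zero_le, true_and]
  rfl

theorem RD.Ok.pt_IP' (ht : t = .W ∨ t = .F) (hw : w.re = t.l0) (hw' : w'.re = -(11 / 4) * l) :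
    IP' (3 / 5 * l) (-(17 / 10) * l) D.p D.q D.x D.y D.hX D.hY n n w w' =
      (D.cS t .P).pre w w' * (D.cS t .P).Z D.X D.Y (3 / 5 * l) n n lnX lnY w w' := by
  have p1 : Pos w := by
    rcases ht with rfl | rfl
    · exact Or.inl hw
    · exact Or.inr hw
  rw [H.IP'_pre w hw', stX_P' H L p1 hw', rxP', ryP']
  have e : (D.cS t .P).pre w w' * (D.cS t .P).Z D.X D.Y (3 / 5 * l) n n lnX lnY w w' =
      Pre gFP D.KF D.KP' w w' * (if 1 ≤ n ∧ 0 ≤ n then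
        ZobjQ (XS true D.X SF (fl SP) w w') (XS false D.Y SF (fl SP) w w')
          (3 / 5 * l) (n - 1) n lnX lnY else 0) := by
    rcases ht with rfl | rfl <;> rfl
  rw [e]
  simp only [Nat.zero_le, and_true]
  rfl

theorem RD.Ok.pt_IPP (hw : w.re = -(11 / 4) * l) (hw' : w'.re = -(11 / 4) * l) :
    IPP (3 / 5 * l) (-(17 / 10) * l) D.p D.q D.x D.y D.hX D.hY n n w w' =
      (D.cS .P .P).pre w w' * (D.cS .P .P).Z D.X D.Y (3 / 5 * l) n n lnX lnY w w' := by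
  rw [H.IPP_pre hw hw', stX_PP H L hw hw', rxPP, ryPP]
  have e : (D.cS .P .P).pre w w' * (D.cS .P .P).Z D.X D.Y (3 / 5 * l) n n lnX lnY w w' =
      Pre gPP D.KP D.KP' w w' * (if 1 ≤ n ∧ 1 ≤ n then
        ZobjQ (XS true D.X SP (fl SP) w w') (XS false D.Y SP (fl SP) w w')
          (3 / 5 * l) (n - 1) (n - 1) lnX lnY else 0) := rfl
  rw [e]
  simp only [and_self]
  rfl

theorem RD.Ok.pt_ID (hw : w.re = -(11 / 4) * l) :
    ID (3 / 5 * l) (-(17 / 10) * l) D.p D.q D.x D.y D.hX D.hY n n w =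
      D.XD w * (cD D.XD).Z D.X D.Y (3 / 5 * l) n n lnX lnY w := by
  rw [D.ID_pre, stX_D H L hw, rxD D w, ryD]
  rfl

theorem RD.Ok.pt_ID' (hw : w.re = -(11 / 4) * l) :
    ID' (3 / 5 * l) (-(17 / 10) * l) D.p D.q D.x D.y D.hX D.hY n n w =
      D.XD' w * (cD' D.XD').Z D.X D.Y (3 / 5 * l) n n lnX lnY w := by
  rw [D.ID'_pre, stX_D' H L hw, rxD', ryD' D w]
  rfl

end pts

section final

variable {n : ℕ}
  {lnX : ∀ p p' : ℕ, (Fin p → O3) → (Fin p' → O3) → Fin p → ℝ}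
  {lnY : ∀ p p' : ℕ, (Fin p → O3) → (Fin p' → O3) → Fin p' → ℝ}

theorem RD.LL_cls {t t' : HT} {f : ℂ → ℂ → ℂ} (h : NUP1.G2 t.l0 t'.l0 f)
    (e : ∀ w w' : ℂ, w.re = t.l0 → w'.re = t'.l0 → f w w' = (D.cS t t').pre w w' *
      (D.cS t t').Z D.X D.Y (3 / 5 * l) n n lnX lnY w w') :
    NUP1.LL t.l0 t'.l0 f = ((2 * Real.pi : ℂ)⁻¹) ^ 2 *
      (D.cS t t').val D.X D.Y (3 / 5 * l) n n lnX lnY :=
  LL_joint_congr h fun _ => e _ _ (NUP1.vlre _ _) (NUP1.vlre _ _)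

/-- **The eleven integrals are the start classes.** -/
theorem RD.Ok.E11_val (H : D.Ok) (hβ : 1 < D.β) (n : ℕ) (L : LnH lnX lnY) :
    E11 (3 / 5 * l) (-(17 / 10) * l) D.p D.q D.x D.y D.hX D.hY n n
      (31 / 50 * l) (-(11 / 4) * l) =
    ((2 * Real.pi : ℂ)⁻¹) ^ 2 * ∑ t ∈ ({HT.W, HT.F, HT.P} : Finset HT),
      ∑ t' ∈ ({HT.W, HT.F, HT.P} : Finset HT), t.sg * t'.sg *
        (D.cS t t').val D.X D.Y (3 / 5 * l) n n lnX lnY -
    sin l / sin (2 * l) * ((2 * Real.pi : ℂ)⁻¹ *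
      ((cD D.XD).val D.X D.Y (3 / 5 * l) n n lnX lnY +
        (cD' D.XD').val D.X D.Y (3 / 5 * l) n n lnX lnY)) := by
  obtain ⟨C, R, U⟩ := H.UD_rows
  have Ls : Ln (3 / 5 * l) (-(17 / 10) * l) (31 / 50 * l) (-(11 / 4) * l) :=
    Ln_start (Or.inl rfl)
  have hK : 2 < (2 * D.β - m) + (m : ℝ) := by linarith
  have hA : NUP1.N.LnAB (31 / 50 * l) (-(11 / 4) * l) (31 / 50 * l) := Or.inl rfl
  have hB : NUP1.N.LnAB (31 / 50 * l) (-(11 / 4) * l) (-(11 / 4) * l) := Or.inr rfl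
  have eWW := RD.LL_cls (D := D) (t := .W) (t' := .W) (NUP1.N.G2_I0 (n := n) Ls U hK hA hA)
    fun w w' h h' => H.pt_I0 n L (Or.inl rfl) (Or.inl rfl) h h'
  have eWF := RD.LL_cls (D := D) (t := .W) (t' := .F) (NUP1.N.G2_I0 (n := n) Ls U hK hA hB)
    fun w w' h h' => H.pt_I0 n L (Or.inl rfl) (Or.inr rfl) h h'
  have eFW := RD.LL_cls (D := D) (t := .F) (t' := .W) (NUP1.N.G2_I0 (n := n) Ls U hK hB hA)
    fun w w' h h' => H.pt_I0 n L (Or.inr rfl) (Or.inl rfl) h h'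
  have eFF := RD.LL_cls (D := D) (t := .F) (t' := .F) (NUP1.N.G2_I0 (n := n) Ls U hK hB hB)
    fun w w' h h' => H.pt_I0 n L (Or.inr rfl) (Or.inr rfl) h h'
  have eWP := RD.LL_cls (D := D) (t := .W) (t' := .P) (NUP1.N.G2_IP' (n := n) Ls U hK hA)
    fun w w' h h' => H.pt_IP' n L (Or.inl rfl) h h'
  have eFP := RD.LL_cls (D := D) (t := .F) (t' := .P) (NUP1.N.G2_IP' (n := n) Ls U hK hB)
    fun w w' h h' => H.pt_IP' n L (Or.inr rfl) h h'
  have ePW := RD.LL_cls (D := D) (t := .P) (t' := .W) (NUP1.N.G2_IP (n := n) Ls U hK hA)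
    fun w w' h h' => H.pt_IP n L (Or.inl rfl) h h'
  have ePF := RD.LL_cls (D := D) (t := .P) (t' := .F) (NUP1.N.G2_IP (n := n) Ls U hK hB)
    fun w w' h h' => H.pt_IP n L (Or.inr rfl) h h'
  have ePP := RD.LL_cls (D := D) (t := .P) (t' := .P) (NUP1.N.G2_IPP (n := n) Ls U hK)
    fun w w' h h' => H.pt_IPP n L h h'
  have eD : NUP1.LI (-(11 / 4) * l) (ID (3 / 5 * l) (-(17 / 10) * l) D.p D.q D.x D.y
      D.hX D.hY n n) = (2 * Real.pi : ℂ)⁻¹ *
      (cD D.XD).val D.X D.Y (3 / 5 * l) n n lnX lnY := by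
    unfold NUP1.LI CD1.val
    congr 1
    exact integral_congr_ae (Filter.Eventually.of_forall fun t =>
      H.pt_ID n L (NUP1.vlre _ _))
  have eD' : NUP1.LI (-(11 / 4) * l) (ID' (3 / 5 * l) (-(17 / 10) * l) D.p D.q D.x D.y
      D.hX D.hY n n) = (2 * Real.pi : ℂ)⁻¹ *
      (cD' D.XD').val D.X D.Y (3 / 5 * l) n n lnX lnY := by
    unfold NUP1.LI CD1.val
    congr 1
    exact integral_congr_ae (Filter.Eventually.of_forall fun t =>
      H.pt_ID' n L (NUP1.vlre _ _))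
  simp only [HT.l0] at eWW eWF eFW eFF eWP eFP ePW ePF ePP
  unfold NUP1.N.E11
  rw [eWW, eWF, eFW, eFF, eWP, eFP, ePW, ePF, ePP, eD, eD']
  simp only [sum_st, HT.sg]
  ring

/-- **The start classes as the final classes.** -/
theorem RD.Ok.cS_cF (H : D.Ok) (hβ : 1 < D.β) (n : ℕ) {P : NUO.Par} (hP : ParP P) :
    ∑ t ∈ T3, ∑ t' ∈ T3, t.sg * t'.sg *
        (D.cS t t').val D.X D.Y (3 / 5 * l) n n (lX P) (lY P) =
      ∑ t, ∑ t', t.sg * t'.sg * (D.cF t t').val D.X D.Y (3 / 5 * l) n n (lX P) (lY P) := by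
  have hs : ({-(11 / 4) * l} : Set ℝ) ⊆ Set.Icc (-(11 / 4) * l) (-(11 / 4) * l) := by
    intro x hx
    rw [Set.mem_singleton_iff.1 hx]
    exact ⟨le_rfl, le_rfl⟩
  exact NURow.cS_cF (κ := 1) (lo := loP) (hi := hiP) one_pos okS_P le_rfl le_rfl
    (H.fmD (by linarith))
    (mvH_SF D.measurable_KF H.PB_KF_A le_rfl)
    (mvH_SF D.measurable_KF' H.PB_KF'_A le_rfl)
    (fxH_SF D.measurable_KF ((H.PB_KF_B.decOn (by norm_num)).mono hs))
    (fxH_SP H.measurable_KP ((H.PB_KP_B.decOn (by linarith)).mono hs))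
    (fxH_SF D.measurable_KF' ((H.PB_KF'_B.decOn (by norm_num)).mono hs))
    (fxH_SP H.measurable_KP' ((H.PB_KP'_B.decOn (by linarith)).mono hs))
    (lnA_P hP) (lnA_P' hP)

/-- **The eleven integrals are the final classes.** -/
theorem RD.Ok.E11_fin (H : D.Ok) (hβ : 1 < D.β) (n : ℕ) {P : NUO.Par} (hP : ParP P)
    (L : LnH (lX P) (lY P)) :
    E11 (3 / 5 * l) (-(17 / 10) * l) D.p D.q D.x D.y D.hX D.hY n n
      (31 / 50 * l) (-(11 / 4) * l) =
    ((2 * Real.pi : ℂ)⁻¹) ^ 2 * ∑ t : HT, ∑ t' : HT, t.sg * t'.sg *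
        (D.cF t t').val D.X D.Y (3 / 5 * l) n n (lX P) (lY P) -
    sin l / sin (2 * l) * ((2 * Real.pi : ℂ)⁻¹ *
      ((cD D.XD).val D.X D.Y (3 / 5 * l) n n (lX P) (lY P) +
        (cD' D.XD').val D.X D.Y (3 / 5 * l) n n (lX P) (lY P))) := by
  rw [H.E11_val hβ n L, ← H.cS_cF hβ n hP]
  rfl

end final

end PBX

end
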