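import Pool.Agent.NUGC.ClsR4

/-!
# The representation corollary for any base functions (rows and ends abstract)

* `spX X s1 s2`: one body functions `X` with spectators `s1` (quanta), `s2` (strings);
* `Bs X ob P ep κ E0`: the base functions `X : Bool → Option O3 → ℂ → ℂ` (rows, ends, cutoff; species)
  with the one body data `ob g` (`g` = moduli of the spectators): regularity on `[3/5 l, 21/20 l]` and
  `OneC` of `X` with any admissible spectators;
* `r4U_B`, `r4_twoB`, `r4_explB`: `R4genU` with simple poles, two half quanta, explicit choices;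
* `r4_cFB`, `cls_leB`: the final class `cF t t'` at fixed half quanta; `r4_flatB`, `r4_cDB`.

Everything of `NUGC/{OneUX, FlatR4, ClsR4}` with `XH`, `obC (M + 1/2)`, `ThN` replaced by a base.
-/

set_option autoImplicit false
set_option linter.unusedSectionVars false

noncomputable section

open Complex MeasureTheory Finset
open scoped ENNReal

namespace PBR

open NUO NUP1 NUCR NUP1S NUP1S.Ab NUP1S.AbC NUP1S.AbG NURow NUP1.Leg NUGC

/-! ## functions with spectators -/

/-- one body functions with spectators -/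
def spX (X : Option O3 → ℂ → ℂ) (s1 s2 : ℂ → ℂ) : Option O3 → ℂ → ℂ
  | none, u => X none u * s1 u
  | some .L, u => X (some .L) u * s1 u
  | some .S, w => X (some .S) w * s2 w
  | some .T, w => X (some .T) w * s2 w

theorem measurable_spX {X : Option O3 → ℂ → ℂ} {s1 s2 : ℂ → ℂ} (hX : ∀ k, Measurable (X k))
    (h1 : Measurable s1) (h2 : Measurable s2) (k : Option O3) : Measurable (spX X s1 s2 k) := by
  rcases k with _ | k
  · exact (hX none).mul h1
  · cases k
    · exact (hX _).mul h1
    · exact (hX _).mul h2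
    · exact (hX _).mul h2

theorem spX_one (X : Option O3 → ℂ → ℂ) : spX X (fun _ => 1) (fun _ => 1) = X := by
  funext k u
  rcases k with _ | (_ | _ | _) <;> exact mul_one _

/-- spectators twice -/
theorem spX_spX (X : Option O3 → ℂ → ℂ) (s1 s2 t1 t2 : ℂ → ℂ) :
    spX (spX X s1 s2) t1 t2 = spX X (fun u => s1 u * t1 u) (fun u => s2 u * t2 u) := by
  funext k u
  rcases k with _ | (_ | _ | _) <;> exact mul_assoc _ _ _

/-- the functions of a class as functions with spectators -/
theorem spX_XS (b : Bool) (X : Option O3 → ℂ → ℂ) {S S' : Sp}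
    (hL : S b (some .L) = S b none) (hT : S b (some .T) = S b (some .S))
    (hL' : S' b (some .L) = S' b none) (hT' : S' b (some .T) = S' b (some .S)) (w w' : ℂ) :
    spX X (fun u => S b none (w - u) * S' b none (w' - u))
      (fun u => S b (some .S) (w - u) * S' b (some .S) (w' - u)) = XS b X S S' w w' := by
  funext k z
  unfold XS
  rcases k with _ | (_ | _ | _)
  · simp only [spX]
  · simp only [spX, hL, hL']
  · simp only [spX]
  · simp only [spX, hT, hT']

/-- **Base functions** `X` (species) with the one body data `ob g`. -/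
structure Bs (X : Bool → Option O3 → ℂ → ℂ) (ob : (Bool → ℂ → ℝ) → OB) (P : NUO.Par)
    (ep κ : ℝ) (E0 : Set ℝ) : Prop where
  kpos : 0 < κ
  nul : volume E0 = 0
  meas : ∀ a k, Measurable (X a k)
  df : ∀ a (u : ℂ), u.re ∈ Set.Icc (3 / 5 * l) (21 / 20 * l) → DifferentiableAt ℂ (X a none) u
  bd : ∀ a, Bdd (Set.Icc (3 / 5 * l) (21 / 20 * l)) (-κ) (X a none)
  one : ∀ (x0 : ℝ), 3 / 5 * l ≤ x0 → x0 ≤ 19 / 20 * l → ∀ (q : ℤ) (s1 s2 : Bool → ℂ → ℂ)
    (E : Set ℝ), (∀ a, Measurable (s1 a)) → (∀ a, Measurable (s2 a)) →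
    (∀ a, SpecAt x0 a q (s1 a)) → (∀ a, SpecS P E (s1 a) (s2 a)) → volume E = 0 →
    OneC (fun a => spX (X a) (s1 a) (s2 a)) (ob fun a u => ‖s1 a u‖) P ep κ x0 q (E ∪ E0)

/-- the landed base: rows `± l / 2`, two ends -/
theorem bs_XH {P : NUO.Par} {ep β : ℝ} {M N : ℕ} {c : Bool → ℂ} (hP : ParC P) (hep0 : 0 < ep)
    (hep : ep ≤ 1 / 100) (hβ : 0 < β) (hβ' : β ≤ 4 / 3) (hMN : M ≤ N)
    (hc : ∀ a, ‖c a‖ = 2 * Real.cos l) :
    Bs (fun a => XM c β M N a) (fun g => obC ((M : ℝ) + 1 / 2) N β fun a u => ThN u * g a u) P ep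
      (2 * β) {0} := by
  have hl := l_pos
  have e0 : ∀ (a : Bool) (u : ℂ), XM c β M N a none u = R1 (c a) M u * phN β N u := fun a u =>
    mul_one _
  refine
    { kpos := by linarith
      nul := by simp
      meas := fun a k => measurable_XH measurable_const measurable_const k
      df := ?_
      bd := ?_
      one := ?_ }
  · intro a u hu
    have hN : NH u.re := ⟨sin_pos_ne (by linarith [hu.1]) (by linarith [hu.2]),
      sin_neg_ne (by linarith [hu.2]) (by linarith [hu.1]),
      sin_neg_ne (by linarith [hu.2]) (by linarith [hu.1])⟩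
    have h2 := diffAt_R1 (c a) M hN (sin_pos_ne (by linarith [hu.1]) (by linarith [hu.2]))
    have h3 := diffAt_phN (β := β) N (z := u)
      (NC_strip hβ hβ' (by linarith [hu.1]) (by linarith [hu.2]))
    have e1 : XM c β M N a none = fun u => R1 (c a) M u * phN β N u := funext (e0 a)
    rw [e1]
    exact h2.mul h3
  · intro a
    have h2 := bdd_R1 (c a) M (K := Set.Icc (3 / 5 * l) (21 / 20 * l)) isCompact_Icc fun x hx =>
      ⟨⟨sin_pos_ne (by linarith [hx.1]) (by linarith [hx.2]),
        sin_neg_ne (by linarith [hx.2]) (by linarith [hx.1]),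
        sin_neg_ne (by linarith [hx.2]) (by linarith [hx.1])⟩,
        sin_pos_ne (by linarith [hx.1]) (by linarith [hx.2])⟩
    have h3 := bdd_phN hβ N (K := Set.Icc (3 / 5 * l) (21 / 20 * l)) isCompact_Icc fun x hx =>
      NC_strip hβ hβ' (by linarith [hx.1]) (by linarith [hx.2])
    have e1 : XM c β M N a none = fun u => R1 (c a) M u * phN β N u := funext (e0 a)
    rw [e1]
    exact (h2.mul h3).rate (by ring)
  · intro x0 h0 h1 q s1 s2 E hm1 hm2 hA hS hE
    have h := oneC_XHt h0 h1 hP hep0 hep hβ hβ' hMN hc hm1 hm2 hA hS hE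
    have e : (fun a => XH (c a) β M N (s1 a) (s2 a)) =
        fun a => spX (XM c β M N a) (s1 a) (s2 a) := by
      funext a k u
      rcases k with _ | (_ | _ | _) <;>
        simp only [spX, XM, XH, mul_one]
    rw [e] at h
    exact h

variable {ε : Type*} [Fintype ε] [DecidableEq ε]

theorem XU_spX (X : Bool → Option O3 → ℂ → ℂ) (s1 s2 : Bool → ℂ → ℂ) (es : ε → Bool)
    (ep : ε → ℂ) (υ : ε → Fin 3) : XU (fun a => spX (X a) (s1 a) (s2 a)) es ep υ =
      fun a => spX (X a) (sU es ep υ s1 a) (s2U es ep υ s2 a) := by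
  funext a k u
  match k with
  | none => exact mul_assoc _ _ _
  | some .L =>
    show X a (some .L) u * s1 a u * oE es ep υ (a, ob3 .L) u = _
    unfold oE
    have e : (∏ j, gz (es j, .A) (a, ob3 .L) (ep j - u) ^ (υ j : ℕ)) =
        ∏ j, PP a (es j) (u - ep j) ^ (υ j : ℕ) :=
      Finset.prod_congr rfl fun j _ => by
        show gz (es j, .A) (a, .L) (ep j - u) ^ _ = _
        rw [gz_AL]
    rw [e]
    exact mul_assoc _ _ _
  | some .S => exact mul_assoc _ _ _
  | some .T => exact mul_assoc _ _ _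

/-- the regular part of the one body function of the quanta -/
def GrB (X : Bool → Option O3 → ℂ → ℂ) (t1 : Bool → ℂ → ℂ) (a : Bool) (u : ℂ) : ℂ :=
  X a none u * t1 a u

section base

variable {X : Bool → Option O3 → ℂ → ℂ} {ob : (Bool → ℂ → ℝ) → OB} {P : NUO.Par} {x κ : ℝ}
  {E0 : Set ℝ}

/-- **The representation corollary of a class with simple poles, any base.** -/
theorem r4U_B (hB : Bs X ob P x κ E0) {t1 s2 : Bool → ℂ → ℂ}
    {E : Set ℝ} {es : ε → Bool} {ep : ε → ℂ} (hP : ParC P) (hx0 : 0 < x) (hx1 : x ≤ 1 / 100)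
    {q : ℤ} (hm1 : ∀ a, Measurable (t1 a)) (hm2 : ∀ a, Measurable (s2 a))
    (hA : ∀ a, SpecP es ep a q (t1 a))
    (hS : ∀ a, SpecS P E (fun u => t1 a u / dX es ep a u) (s2 a)) (hE : volume E = 0)
    (hx : ∀ j, 3 / 5 * l < (ep j).re ∧ (ep j).re < 19 / 20 * l)
    (hsep : ∀ r i, i < r → ∀ j, l * P.d r / (8 * (r + 1)) <
      |lnO P r i .S + 2 * l - (ep j).re|)
    (hxx : ∀ j k, j ≠ k → es j = es k → (ep j).re ≠ (ep k).re) {aX aY : ℕ}
    (hq : (aX : ℤ) - aY = q) :
    R4genU x (aX + aY) (cU es ep (GrB X t1))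
      (fun υ => TmV (nE es true υ) (nE es false υ) (ob fun a u =>
        ‖sU es ep υ (fun a u => t1 a u / dX es ep a u) a u‖) P aX aY)
      fun n => NURow.ZobjQ (spX (X true) (fun u => t1 true u / dX es ep true u) (s2 true))
        (spX (X false) (fun u => t1 false u / dX es ep false u) (s2 false)) (3 / 5 * l)
        (n + aX) (n + aY) (lX P) (lY P) := by
  have hl := l_pos
  have hmd : ∀ a, Measurable (dX es ep a) := fun a => by
    refine Finset.measurable_prod _ fun j _ => ?_
    by_cases h : es j = a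
    · simp only [if_pos h]
      exact Complex.measurable_sin.comp (measurable_id.sub_const _)
    · simp only [if_neg h]
      exact measurable_const
  have hm1' : ∀ a, Measurable fun u => t1 a u / dX es ep a u := fun a => (hm1 a).div (hmd a)
  set s1 : Bool → ℂ → ℂ := fun a u => t1 a u / dX es ep a u with hs1
  have hone : ∀ υ : ε → Fin 3, OneC (fun a => spX (X a) (sU es ep υ s1 a) (s2U es ep υ s2 a))
      (ob fun a u => ‖sU es ep υ s1 a u‖) P x κ
      (19 / 20 * l) (q - nE es true υ + nE es false υ) (EU E ep ∪ E0) := fun υ =>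
    hB.one (19 / 20 * l) (by linarith) le_rfl (q - nE es true υ + nE es false υ) _ _ _
      (fun a => measurable_sU (hm1' a)) (fun a => measurable_s2U (hm2 a))
      (fun a => SpecAt_U ((hA a).at hx) hx) (fun a => SpecS_U (hS a)) (EU_null hE ep)
  have hY : ∀ (υ : ε → Fin 3) (s : Bool) (k : Option O3), Measurable
      (XU (fun a => spX (X a) (s1 a) (s2 a)) es ep υ s k) := fun υ s k =>
    measurable_XU (fun a k => measurable_spX (hB.meas a) (hm1' a) (hm2 a) k) es ep υ s k
  refine R4U_of (X := fun a => spX (X a) (s1 a) (s2 a))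
    (Y := XU (fun a => spX (X a) (s1 a) (s2 a)) es ep)
    (κ := fun _ => κ) (x1 := fun _ => 19 / 20 * l)
    (Q := fun υ => q - nE es true υ + nE es false υ) (E := EU E ep ∪ E0) hY
    (fun υ _ => by rw [XU_spX]; exact hone υ) ?_ hx0 hx1 hP.goodP (by linarith [hP.j2]) hP.rm
    (fun υ _ => by rw [← hq]; ring) fun n => ?_
  · rw [measure_union_null_iff]
    exact ⟨EU_null hE ep, hB.nul⟩
  · refine word_keyX hP.goodQ (Gr := GrB X t1) (κ := κ) (q0 := q) (fun s => ?_)
      hB.kpos (by push_cast; omega) (fun s => ?_) (fun s u u1 u2 => ?_) (fun s => ?_)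
      (fun j => ⟨(hx j).1, by linarith [(hx j).2]⟩) hsep hxx
    · funext u
      show X s none u * (t1 s u / dX es ep s u) = _
      unfold NUP1S.GX GrB
      rw [mul_div_assoc]
    · exact (hB.meas s none).mul (hm1 s)
    · have u3 : u.re ≤ 21 / 20 * l := by linarith
      exact (hB.df s u ⟨u1, u3⟩).mul ((hA s).df u ⟨u1, u3⟩)
    · obtain ⟨C, hC, hb⟩ := (hB.bd s).mul (hA s).bd
      have h1 : Bdd (Set.Icc (3 / 5 * l) l) (-κ + (-(2 * (q : ℝ) * sc (s, .A)) + cE es s))
          fun u => X s none u * t1 s u :=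
        ⟨C, hC, fun z hz => hb z ⟨hz.1, hz.2.trans (by linarith)⟩⟩
      refine DecOn_of_Bdd h1 (le_of_eq ?_)
      cases s <;> simp [sc, sg, Bd.chg] <;> ring

variable {pl pl' : Bool} {q q' p p' : ℝ}
  {F F' : Bool → Option O3 → ℂ → ℂ} {T T' : Bool → ℂ → ℂ} {w w' : ℂ}

/-- **The representation corollary of two half quanta at fixed positions, any base.** -/
theorem r4_twoB (hB : Bs X ob P x κ E0) (hP : ParC P) (hx0 : 0 < x) (hx1 : x ≤ 1 / 100)
    (hF : HG pl q p F T) (hF' : HG pl' q' p' F' T') (hw : w.re = p) (hw' : w'.re = p')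
    {aX aY : ℕ} (hq : q' - q = 2 * ((aX : ℝ) - aY)) :
    R4genU x (aX + aY)
      (cU (esE (b := pl) (b' := pl')) (epE w w') (GrB X (tG T T' w w')))
      (fun υ => TmV (nE esE true υ) (nE esE false υ) (ob fun a u =>
        ‖sU esE (epE w w') υ (sG F F' w w') a u‖) P aX aY)
      fun n => NURow.ZobjQ (XS true (X true) F (fl F') w w') (XS false (X false) F (fl F') w w')
        (3 / 5 * l) (n + aX) (n + aY) (lX P) (lY P) := by
  have hl := l_pos
  have hms : ∀ a, Measurable (s2G F F' w w' a) := fun a =>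
    ((hF.ms a _).comp (measurable_const.sub measurable_id)).mul
      ((hF'.ms (!a) _).comp (measurable_const.sub measurable_id))
  have hmt : ∀ a, Measurable (tG T T' w w' a) := fun a =>
    ((hF.mt a).comp (measurable_const.sub measurable_id)).mul
      ((hF'.mt (!a)).comp (measurable_const.sub measurable_id))
  have hep : ∀ j : Eps pl pl', 3 / 5 * l < (epE w w' j).re ∧ (epE w w' j).re ≤ 5 / 8 * l := by
    rintro ⟨j, hj⟩
    cases j
    · have := hF'.hp (by simpa using hj)
      rw [← hw'] at this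
      exact this
    · have := hF.hp (by simpa using hj)
      rw [← hw] at this
      exact this
  have key := r4U_B hB (t1 := tG T T' w w') (s2 := s2G F F' w w') (E := {w.im, w'.im})
    (es := esE (b := pl) (b' := pl')) (ep := epE w w') hP hx0 hx1
    (q := (aX : ℤ) - aY) hmt hms (fun a => specP_two hF hF' hw hw' hq a)
    (fun a => specS_two hF hF' a) ((Set.toFinite _).measure_zero _)
    (fun j => ⟨(hep j).1, (hep j).2.trans_lt (by linarith)⟩)
    (fun r i hi j => hP.sep hi (hep j).2)
    (fun j k hjk h => absurd (Subtype.ext h) hjk) rfl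
  have e1 : (fun a u => tG T T' w w' a u / dX (esE (b := pl) (b' := pl')) (epE w w') a u) =
      sG F F' w w' := by
    funext a u
    exact tG_div hF hF' a u
  have e2 : ∀ a, (fun u => tG T T' w w' a u / dX (esE (b := pl) (b' := pl')) (epE w w') a u) =
      sG F F' w w' a := fun a => congrFun e1 a
  rw [e1] at key
  simp only [e2] at key
  have e3 : spX (X true) (sG F F' w w' true) (s2G F F' w w' true) =
      XS true (X true) F (fl F') w w' :=
    spX_XS true (X true) (S := F) (S' := fl F') (hF.kL true) (hF.kT true) (hF'.kL _)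
      (hF'.kT _) w w'
  have e4 : spX (X false) (sG F F' w w' false) (s2G F F' w w' false) =
      XS false (X false) F (fl F') w w' :=
    spX_XS false (X false) (S := F) (S' := fl F') (hF.kL false) (hF.kT false) (hF'.kL _)
      (hF'.kT _) w w'
  rw [e3, e4] at key
  exact key

/-- **The representation corollary of two half quanta at fixed positions, explicit choices, any
base**: `u.1` (`u.2`) = there is a quantum X at `w` (Y at `w'`). -/
theorem r4_explB (hB : Bs X ob P x κ E0) (hP : ParC P) (hx0 : 0 < x) (hx1 : x ≤ 1 / 100)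
    (hF : HG pl q p F T) (hF' : HG pl' q' p' F' T') (hw : w.re = p) (hw' : w'.re = p')
    {aX aY : ℕ} (hq : q' - q = 2 * ((aX : ℝ) - aY)) :
    R4genU x (aX + aY)
      (fun u : Bool × Bool => if (u.1 = true → pl = true) ∧ (u.2 = true → pl' = true) then
        ENNReal.ofReal (wgt2 (GrB X (tG T T' w w')) w w' u.1 u.2) else 0)
      (fun u => TmV u.1.toNat u.2.toNat (ob fun a z =>
        ‖sV (sG F F' w w') w w' u.1 u.2 a z‖) P aX aY)
      fun n => NURow.ZobjQ (XS true (X true) F (fl F') w w') (XS false (X false) F (fl F') w w')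
        (3 / 5 * l) (n + aX) (n + aY) (lX P) (lY P) := by
  have h2 : ∀ υ : Eps pl pl' → Fin 3, cU esE (epE w w') (GrB X (tG T T' w w')) υ ≠ 0 →
      ∀ j, υ j ≠ 2 := by
    intro υ h j hj
    apply h
    unfold cU
    rw [if_neg]
    exact fun h' => h' j hj
  refine (r4_twoB hB hP hx0 hx1 hF hF' hw hw' hq).map flg (fun υ h => ?_)
    fun υ υ' h h' e => flg_inj (h2 υ h) (h2 υ' h') e
  have hυ := h2 υ h
  obtain ⟨n1, n2⟩ := nE_flg hυ
  constructor
  · rw [if_pos, cU_flg hυ]
    constructor
    · intro h1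
      by_contra hb
      simp [flg, hb] at h1
    · intro h1
      by_contra hb
      simp [flg, hb] at h1
  · rw [n1, n2, sU_flg hυ]

/-! ## the final classes -/

/-- one body data of the class `t, t'` at fixed half quanta with the choice `i, i'` -/
def obKB (ob : (Bool → ℂ → ℝ) → OB) (t t' : HT) (w w' : ℂ) (i i' : Bool) : OB :=
  ob fun a z => ‖sV (sG (htF t) (htF t') w w') w w' i i' a z‖

/-- weight of the choice `i, i'` -/
def wKB (X : Bool → Option O3 → ℂ → ℂ) (t t' : HT) (w w' : ℂ) (i i' : Bool) : ℝ :=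
  if (i = true → htP t = true) ∧ (i' = true → htP t' = true) then
    wgt2 (GrB X (tG (htT t) (htT t') w w')) w w' i i' else 0

theorem wKB_nonneg (X : Bool → Option O3 → ℂ → ℂ) (t t' : HT) (w w' : ℂ) (i i' : Bool) :
    0 ≤ wKB X t t' w w' i i' := by
  unfold wKB
  split_ifs
  · exact wgt2_nonneg _ _ _ _ _
  · exact le_rfl

/-- **The representation corollary of the class `cF t t'` at fixed half quanta, any base.** -/
theorem r4_cFB (hB : Bs X ob P x κ E0) (hP : ParC P) (hx0 : 0 < x) (hx1 : x ≤ 1 / 100)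
    (kF kP kF' kP' : ℂ → ℂ) (t t' : HT) {w w' : ℂ} (hw : w.re = htL t) (hw' : w'.re = htL t') :
    R4genU x (htM t t' - htD t' + (htM t t' - htD t))
      (fun u : Bool × Bool => ENNReal.ofReal (wKB X t t' w w' u.1 u.2))
      (fun u => TmV u.1.toNat u.2.toNat (obKB ob t t' w w' u.1 u.2) P
        (htM t t' - htD t') (htM t t' - htD t))
      fun n => (cF (X true) (X false) kF kP kF' kP' t t').Z (X true) (X false) (3 / 5 * l)
        (n + htM t t') (n + htM t t') (lX P) (lY P) w w' := by
  have hl := l_pos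
  have h1 : htD t' ≤ htM t t' := le_max_right _ _
  have h2 : htD t ≤ htM t t' := le_max_left _ _
  have key := r4_explB hB hP hx0 hx1 (HG_ht t) (HG_ht t') hw hw'
    (aX := htM t t' - htD t') (aY := htM t t' - htD t) (by
      rw [htQ_eq, htQ_eq, Nat.cast_sub h1, Nat.cast_sub h2]
      ring)
  have e1 : (fun u : Bool × Bool => ENNReal.ofReal (wKB X t t' w w' u.1 u.2)) =
      fun u : Bool × Bool => if (u.1 = true → htP t = true) ∧ (u.2 = true → htP t' = true) then
        ENNReal.ofReal (wgt2 (GrB X (tG (htT t) (htT t') w w')) w w' u.1 u.2) else 0 := by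
    funext u
    unfold wKB
    split_ifs
    · rfl
    · exact ENNReal.ofReal_zero
  have e2 : (fun n => (cF (X true) (X false) kF kP kF' kP' t t').Z (X true) (X false) (3 / 5 * l)
        (n + htM t t') (n + htM t t') (lX P) (lY P) w w') = fun n => NURow.ZobjQ
        (XS true (X true) (htF t) (fl (htF t')) w w')
        (XS false (X false) (htF t) (fl (htF t')) w w') (3 / 5 * l)
        (n + (htM t t' - htD t')) (n + (htM t t' - htD t)) (lX P) (lY P) := by
    funext n
    unfold CD.Z
    rw [cF_S, cF_S', cF_dX, cF_dY, if_pos ⟨by omega, by omega⟩,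
      Nat.add_sub_assoc h1, Nat.add_sub_assoc h2]
  rw [e1, e2]
  exact key

end base

/-- **The bound of the class `cF t t'` at fixed half quanta** from the tilted bounds of its
choices, any base. -/
theorem cls_leB {C c b c1 c' : ℝ} {k : ℕ} (hC : 0 < C) (hc : 0 < c) (hb : 0 < b) (hc1 : 0 < c1)
    (hc' : 0 ≤ c') {δ : ℝ} (hδ : 0 < δ) :
    ∃ a0 : ℝ, 0 < a0 ∧ ∀ C' : ℝ, 0 ≤ C' → ∃ L0 : ℝ, ∀ L ≥ L0, ∀ ep : ℝ, 0 < ep → ep ≤ 1 / 100 →
      ∀ e1 : ℝ, 0 < e1 → e1 ≤ 1 / 4 → ∀ J : ℝ, 0 ≤ J →
      Real.exp (-(2 * Real.pi * J)) + 3 * e1 + 3 * ep ≤ a0 →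
      ∀ (P : NUO.Par), ParC P → ∀ (X : Bool → Option O3 → ℂ → ℂ) (ob : (Bool → ℂ → ℝ) → OB)
        (κ : ℝ) (E0 : Set ℝ), Bs X ob P ep κ E0 → ∀ (kF kP kF' kP' : ℂ → ℂ) (t t' : HT)
        (w w' : ℂ), w.re = htL t → w'.re = htL t' →
      ∀ (ν d : ℝ) (K : ℕ) (Q : Bool × Bool → ℝ), 0 < d → (∀ u, 0 ≤ Q u) →
      ((2 * K + (htM t t' - htD t' + (htM t t' - htD t)) + 1 : ℕ) : ℝ) ≤ Real.exp (2 * L) →
      (∀ u : Bool × Bool, (u.1 = true → htP t = true) → (u.2 = true → htP t' = true) →
        PerGen C C' c b k c1 c' L ep e1 J ν d K (htM t t' - htD t' + (htM t t' - htD t))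
          (TmV u.1.toNat u.2.toNat (obKB ob t t' w w' u.1 u.2) P
            (htM t t' - htD t') (htM t t' - htD t)) (Q u)) →
      ∑ n ∈ range (K + 1), ‖(cF (X true) (X false) kF kP kF' kP' t t').Z (X true) (X false)
        (3 / 5 * l) n n (lX P) (lY P) w w'‖ ≤
        4 * (1 + 1 / d) *
          ((∑ u : Bool × Bool, wKB X t t' w w' u.1 u.2 * Q u) * Real.exp (δ * L)) := by
  obtain ⟨a0, ha0, h⟩ := glue_U (k := k) hC hc hb hc1 hc' hδ
  refine ⟨a0, ha0, fun C' hC' => ?_⟩
  obtain ⟨L0, h⟩ := h C' hC'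
  refine ⟨L0, fun L hL ep hep hep' e1 he1 he1' J hJ hsm P hP X ob κ E0 hB kF kP kF' kP'
    t t' w w' hw hw' ν d K Q hd hQ hK hPer => ?_⟩
  have key := h L hL ep hep.le (hep'.trans (by norm_num)) e1 he1 he1' J hJ hsm ν d K
    (htM t t' - htD t' + (htM t t' - htD t)) (Bool × Bool) inferInstance
    (fun u => ENNReal.ofReal (wKB X t t' w w' u.1 u.2)) Q
    (fun u => TmV u.1.toNat u.2.toNat (obKB ob t t' w w' u.1 u.2) P
        (htM t t' - htD t') (htM t t' - htD t)) _ hd hQ (fun u => ENNReal.ofReal_ne_top) hK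
    (r4_cFB hB hP hep hep' kF kP kF' kP' t t' hw hw') (fun u hu => by
      by_cases hf : (u.1 = true → htP t = true) ∧ (u.2 = true → htP t' = true)
      · exact hPer u hf.1 hf.2
      · exact absurd (by unfold wKB; rw [if_neg hf, ENNReal.ofReal_zero]) hu)
  have e1 : ∀ u : Bool × Bool, (ENNReal.ofReal (wKB X t t' w w' u.1 u.2)).toReal =
      wKB X t t' w w' u.1 u.2 := fun u => ENNReal.toReal_ofReal (wKB_nonneg _ _ _ _ _ _ _)
  simp only [e1] at key
  refine (sum_shift (D := htM t t') (fun n => norm_nonneg _) (fun n hn => ?_) K).trans key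
  rw [cF_zero _ _ _ _ _ _ _ _ _ _ _ hn, norm_zero]

/-! ## classes without poles -/

section flat

variable {X : Bool → Option O3 → ℂ → ℂ} {ob : (Bool → ℂ → ℝ) → OB} {P : NUO.Par} {x κ : ℝ}
  {E0 : Set ℝ}

/-- **the representation corollary of two half quanta without poles, any base** -/
theorem r4_flatB (hB : Bs X ob P x κ E0) {q q' p p' : ℝ} {F F' : Bool → Option O3 → ℂ → ℂ}
    {T T' : Bool → ℂ → ℂ} (hP : ParC P) (hx0 : 0 < x) (hx1 : x ≤ 1 / 100)
    (hF : HG false q p F T) (hF' : HG false q' p' F' T') {w w' : ℂ} (hw : w.re = p)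
    (hw' : w'.re = p') {aX aY : ℕ} (hq : q' - q = 2 * ((aX : ℝ) - aY)) :
    R4Cof x (ob fun a z => ‖sG F F' w w' a z‖) P aX aY
      fun n => NURow.ZobjQ (XS true (X true) F (fl F') w w')
        (XS false (X false) F (fl F') w w') (3 / 5 * l) (n + aX) (n + aY) (lX P) (lY P) := by
  have key := (r4_explB hB hP hx0 hx1 hF hF' hw hw' hq).gen
  have e : (fun (n : ℕ) (r : ℕ) (O : Fin r → Xo) (η η' : ℝ → ℝ) => ∑ u : Bool × Bool,
      (if (u.1 = true → false = true) ∧ (u.2 = true → false = true) then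
        ENNReal.ofReal (wgt2 (GrB X (tG T T' w w')) w w' u.1 u.2) else 0) *
      TmV u.1.toNat u.2.toNat (ob fun a z =>
        ‖sV (sG F F' w w') w w' u.1 u.2 a z‖) P aX aY n r O η η') =
      TmC (fun _ _ => ob fun a z => ‖sG F F' w w' a z‖) P aX aY := by
    funext n r O η η'
    rw [Fintype.sum_prod_type, Fintype.sum_bool, Fintype.sum_bool, Fintype.sum_bool]
    have e1 : (fun a z => ‖sV (sG F F' w w') w w' false false a z‖) =
        fun a z => ‖sG F F' w w' a z‖ := by
      funext a z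
      simp [sV]
    simp [wgt2, TmV, TmC, e1]
  exact cast (congrArg (fun T => R4gen x (aX + aY) T _) e) key

/-- one body data of the classes D1 (`o = true`), D1' -/
def obDB (ob : (Bool → ℂ → ℝ) → OB) (o : Bool) (w : ℂ) : OB :=
  ob fun a z => ‖SD (if o then a else !a) none (w - z)‖

/-- **the representation corollary of the classes D1, D1', any base** -/
theorem r4_cDB (hB : Bs X ob P x κ E0) (hP : ParC P) (hx0 : 0 < x) (hx1 : x ≤ 1 / 100)
    (k : ℂ → ℂ) {w : ℂ} (hw : w.re = -(11 / 4) * l) :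
    R4Cof x (obDB ob true w) P 0 0 (fun n => (cD k).Z (X true) (X false) (3 / 5 * l) n n
        (lX P) (lY P) w) ∧
    R4Cof x (obDB ob false w) P 0 0 (fun n => (cD' k).Z (X true) (X false) (3 / 5 * l) n n
        (lX P) (lY P) w) := by
  constructor
  · have key := r4_flatB hB hP hx0 hx1 HG_SD (HG_one 0) hw
      (w' := 0) (by simp) (aX := 0) (aY := 0) (by norm_num)
    have e1 : (ob fun a z => ‖sG SD (fun _ _ _ => 1) w 0 a z‖) = obDB ob true w := by
      unfold obDB
      congr 1
      funext a z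
      simp [sG]
    rw [e1] at key
    exact key
  · have key := r4_flatB hB hP hx0 hx1 (HG_one 0) HG_SD
      (w := 0) (by simp) hw (aX := 0) (aY := 0) (by norm_num)
    have e1 : (ob fun a z => ‖sG (fun _ _ _ => 1) SD 0 w a z‖) = obDB ob false w := by
      unfold obDB
      congr 1
      funext a z
      simp [sG]
    have e2 : ∀ a (X : Option O3 → ℂ → ℂ), XS a X (fun _ _ _ => 1) (fl SD) 0 w =
        XS a X (fl SD) (fun _ _ _ => 1) w 0 := by
      intro a X
      funext k z
      unfold XS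
      ring
    rw [e1, e2, e2] at key
    exact key

end flat

end PBR

end
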