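import Pool.Agent.NUGC.TopC
import Pool.Agent.PB.ClsR40

/-!
# The class level for any base functions

`top_cFB`, `top_cFB_le`, `top_cDB`, `top_cDB_le`: the sum over the numbers of quanta of the moduli of
the values of a final class from the tilted bounds `PerGen` at given half quanta, any base
(`NUGC/TopC` with `XM`, `obK`, `wK` replaced by a base `Bs X ob P ep κ E0`).
-/

set_option autoImplicit false
set_option linter.unusedSectionVars false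

noncomputable section

open Complex MeasureTheory Finset
open scoped ENNReal

namespace PBR

open NUO NUP1 NUCR NUP1S NUP1S.Ab NUP1S.AbC NUP1S.AbG NURow NUP1.Leg NUGC

/-- **The bound of the final class `cF t t'`**: `∑ n ≤ K, ‖val n‖` from the tilted bounds of the
choices at given half quanta, any base. -/
theorem top_cFB {C c b c1 c' : ℝ} {k : ℕ} (hC : 0 < C) (hc : 0 < c) (hb : 0 < b) (hc1 : 0 < c1)
    (hc' : 0 ≤ c') {δ : ℝ} (hδ : 0 < δ) :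
    ∃ a0 : ℝ, 0 < a0 ∧ ∀ C' : ℝ, 0 ≤ C' → ∃ L0 : ℝ, ∀ L ≥ L0, ∀ ep : ℝ, 0 < ep → ep ≤ 1 / 100 →
      ∀ e1 : ℝ, 0 < e1 → e1 ≤ 1 / 4 → ∀ J : ℝ, 0 ≤ J →
      Real.exp (-(2 * Real.pi * J)) + 3 * e1 + 3 * ep ≤ a0 →
      ∀ (P : NUO.Par), ParC P → ∀ (X : Bool → Option O3 → ℂ → ℂ) (ob : (Bool → ℂ → ℝ) → OB)
        (κ : ℝ) (E0 : Set ℝ), Bs X ob P ep κ E0 → ∀ (kF kP kF' kP' : ℂ → ℂ) (t t' : HT)
        (ν : ℝ × ℝ → ℝ) (d : ℝ) (K : ℕ) (Q : ℝ × ℝ → Bool × Bool → ℝ), 0 < d →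
      (∀ y u, 0 ≤ Q y u) →
      ((2 * K + (htM t t' - htD t' + (htM t t' - htD t)) + 1 : ℕ) : ℝ) ≤ Real.exp (2 * L) →
      (∀ᵐ y : ℝ × ℝ, ∀ u : Bool × Bool, (u.1 = true → htP t = true) →
        (u.2 = true → htP t' = true) →
        PerGen C C' c b k c1 c' L ep e1 J (ν y) d K (htM t t' - htD t' + (htM t t' - htD t))
          (TmV u.1.toNat u.2.toNat
            (obKB ob t t' (vl (htL t) y.1) (vl (htL t') y.2) u.1 u.2) P
            (htM t t' - htD t') (htM t t' - htD t)) (Q y u)) →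
      ∑ n ∈ range (K + 1), ‖(cF (X true) (X false) kF kP kF' kP' t t').val
        (X true) (X false) (3 / 5 * l) n n (lX P) (lY P)‖ₑ ≤
        ENNReal.ofReal (4 * (1 + 1 / d) * Real.exp (δ * L)) *
          ∫⁻ y : ℝ × ℝ, ENNReal.ofReal (
            ‖(cF (X true) (X false) kF kP kF' kP' t t').pre
              (vl (htL t) y.1) (vl (htL t') y.2)‖ *
            ∑ u : Bool × Bool,
              wKB X t t' (vl (htL t) y.1) (vl (htL t') y.2) u.1 u.2 * Q y u) := by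
  obtain ⟨a0, ha0, h⟩ := cls_leB (k := k) hC hc hb hc1 hc' hδ
  refine ⟨a0, ha0, fun C' hC' => ?_⟩
  obtain ⟨L0, h⟩ := h C' hC'
  refine ⟨L0, fun L hL ep hep hep' e1 he1 he1' J hJ hsm P hP X ob κ E0 hB kF kP kF' kP'
    t t' ν d K Q hd hQ hK hPer => ?_⟩
  set cl : CD := cF (X true) (X false) kF kP kF' kP' t t' with hcl
  have ha : cl.a = htL t := cF_a _ _ _ _ _ _ _ _
  have hb' : cl.b = htL t' := cF_b _ _ _ _ _ _ _ _
  have key := CD_sum_val cl (X true) (X false) (3 / 5 * l) K (lX P) (lY P)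
    (fun y => ENNReal.ofReal (4 * (1 + 1 / d) *
      ((∑ u : Bool × Bool, wKB X t t' (vl (htL t) y.1) (vl (htL t') y.2) u.1 u.2 * Q y u) *
        Real.exp (δ * L)))) (by
      filter_upwards [hPer] with y hy
      rw [sum_enorm_eq, ha, hb']
      refine ENNReal.ofReal_le_ofReal ?_
      exact h L hL ep hep hep' e1 he1 he1' J hJ hsm P hP X ob κ E0 hB kF kP kF' kP'
        t t' (vl (htL t) y.1) (vl (htL t') y.2) (by simp [vl]) (by simp [vl]) (ν y) d K (Q y) hd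
        (hQ y) hK hy)
  refine key.trans (le_of_eq ?_)
  have h4 : (0 : ℝ) ≤ 4 * (1 + 1 / d) * Real.exp (δ * L) := by positivity
  rw [← lintegral_const_mul' _ _ ENNReal.ofReal_ne_top]
  refine lintegral_congr fun y => ?_
  have hS : 0 ≤ ∑ u : Bool × Bool,
      wKB X t t' (vl (htL t) y.1) (vl (htL t') y.2) u.1 u.2 * Q y u :=
    sum_nonneg fun u _ => mul_nonneg (wKB_nonneg _ _ _ _ _ _ _) (hQ y u)
  rw [ha, hb', ← ofReal_norm, ← ENNReal.ofReal_mul (norm_nonneg _), ← ENNReal.ofReal_mul h4]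
  congr 1
  ring

/-- **The bound of the final class `cF t t'`, real form**: with a majorant `G` of the integrand whose
integral is at most `I`, any base. -/
theorem top_cFB_le {C c b c1 c' : ℝ} {k : ℕ} (hC : 0 < C) (hc : 0 < c) (hb : 0 < b) (hc1 : 0 < c1)
    (hc' : 0 ≤ c') {δ : ℝ} (hδ : 0 < δ) :
    ∃ a0 : ℝ, 0 < a0 ∧ ∀ C' : ℝ, 0 ≤ C' → ∃ L0 : ℝ, ∀ L ≥ L0, ∀ ep : ℝ, 0 < ep → ep ≤ 1 / 100 →
      ∀ e1 : ℝ, 0 < e1 → e1 ≤ 1 / 4 → ∀ J : ℝ, 0 ≤ J →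
      Real.exp (-(2 * Real.pi * J)) + 3 * e1 + 3 * ep ≤ a0 →
      ∀ (P : NUO.Par), ParC P → ∀ (X : Bool → Option O3 → ℂ → ℂ) (ob : (Bool → ℂ → ℝ) → OB)
        (κ : ℝ) (E0 : Set ℝ), Bs X ob P ep κ E0 → ∀ (kF kP kF' kP' : ℂ → ℂ) (t t' : HT)
        (ν : ℝ × ℝ → ℝ) (d : ℝ) (K : ℕ) (Q : ℝ × ℝ → Bool × Bool → ℝ), 0 < d →
      (∀ y u, 0 ≤ Q y u) →
      ((2 * K + (htM t t' - htD t' + (htM t t' - htD t)) + 1 : ℕ) : ℝ) ≤ Real.exp (2 * L) →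
      (∀ᵐ y : ℝ × ℝ, ∀ u : Bool × Bool, (u.1 = true → htP t = true) →
        (u.2 = true → htP t' = true) →
        PerGen C C' c b k c1 c' L ep e1 J (ν y) d K (htM t t' - htD t' + (htM t t' - htD t))
          (TmV u.1.toNat u.2.toNat
            (obKB ob t t' (vl (htL t) y.1) (vl (htL t') y.2) u.1 u.2) P
            (htM t t' - htD t') (htM t t' - htD t)) (Q y u)) →
      ∀ (G : ℝ × ℝ → ℝ) (I : ℝ), 0 ≤ I →
      (∀ᵐ y : ℝ × ℝ, ‖(cF (X true) (X false) kF kP kF' kP' t t').pre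
          (vl (htL t) y.1) (vl (htL t') y.2)‖ * ∑ u : Bool × Bool,
            wKB X t t' (vl (htL t) y.1) (vl (htL t') y.2) u.1 u.2 * Q y u ≤ G y) →
      ∫⁻ y, ENNReal.ofReal (G y) ≤ ENNReal.ofReal I →
      ∑ n ∈ range (K + 1), ‖(cF (X true) (X false) kF kP kF' kP' t t').val
        (X true) (X false) (3 / 5 * l) n n (lX P) (lY P)‖ ≤
        4 * (1 + 1 / d) * Real.exp (δ * L) * I := by
  obtain ⟨a0, ha0, h⟩ := top_cFB (k := k) hC hc hb hc1 hc' hδ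
  refine ⟨a0, ha0, fun C' hC' => ?_⟩
  obtain ⟨L0, h⟩ := h C' hC'
  refine ⟨L0, fun L hL ep hep hep' e1 he1 he1' J hJ hsm P hP X ob κ E0 hB kF kP kF' kP'
    t t' ν d K Q hd hQ hK hPer G I hI hG hi => ?_⟩
  exact real_of_lint (by positivity) hI (h L hL ep hep hep' e1 he1 he1' J hJ hsm P hP X ob κ E0 hB
    kF kP kF' kP' t t' ν d K Q hd hQ hK hPer) hG hi

/-- **The bound of the classes D1 (`o = true`), D1' (`o = false`), any base** -/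
theorem top_cDB {C c b c1 c' : ℝ} {k : ℕ} (hC : 0 < C) (hc : 0 < c) (hb : 0 < b) (hc1 : 0 < c1)
    (hc' : 0 ≤ c') {δ : ℝ} (hδ : 0 < δ) :
    ∃ a0 : ℝ, 0 < a0 ∧ ∀ C' : ℝ, 0 ≤ C' → ∃ L0 : ℝ, ∀ L ≥ L0, ∀ ep : ℝ, 0 < ep → ep ≤ 1 / 100 →
      ∀ e1 : ℝ, 0 < e1 → e1 ≤ 1 / 4 → ∀ J : ℝ, 0 ≤ J →
      Real.exp (-(2 * Real.pi * J)) + 3 * e1 + 3 * ep ≤ a0 →
      ∀ (P : NUO.Par), ParC P → ∀ (X : Bool → Option O3 → ℂ → ℂ) (ob : (Bool → ℂ → ℝ) → OB)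
        (κ : ℝ) (E0 : Set ℝ), Bs X ob P ep κ E0 → ∀ (kD : ℂ → ℂ) (o : Bool)
        (ν : ℝ → ℝ) (d : ℝ) (K : ℕ) (Q : ℝ → ℝ), 0 < d → (∀ y, 0 ≤ Q y) →
      ((2 * K + 1 : ℕ) : ℝ) ≤ Real.exp (2 * L) →
      (∀ᵐ y : ℝ, PerCof C C' c b k c1 c' L ep e1 J (ν y) d K
        (obDB ob o (vl (-(11 / 4) * l) y)) P 0 0 (Q y)) →
      ∑ n ∈ range (K + 1), ‖(cDo o kD).val
        (X true) (X false) (3 / 5 * l) n n (lX P) (lY P)‖ₑ ≤
        ENNReal.ofReal (4 * (1 + 1 / d) * Real.exp (δ * L)) *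
          ∫⁻ y : ℝ, ENNReal.ofReal (‖kD (vl (-(11 / 4) * l) y)‖ * Q y) := by
  obtain ⟨a0, ha0, h⟩ := glue_class (k := k) hC hc hb hc1 hc' hδ
  refine ⟨a0, ha0, fun C' hC' => ?_⟩
  obtain ⟨L0, h⟩ := h C' hC'
  refine ⟨L0, fun L hL ep hep hep' e1 he1 he1' J hJ hsm P hP X ob κ E0 hB kD o ν d K Q
    hd hQ hK hPer => ?_⟩
  have hR : ∀ w : ℂ, w.re = -(11 / 4) * l → R4Cof ep (obDB ob o w) P 0 0
      (fun n => (cDo o kD).Z (X true) (X false) (3 / 5 * l) n n (lX P) (lY P) w) := by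
    intro w hw
    have key := r4_cDB hB hP hep hep' kD hw
    cases o
    · exact key.2
    · exact key.1
  have key := CD1_sum_val (cDo o kD) (X true) (X false) (3 / 5 * l) K
    (lX P) (lY P) (fun y => ENNReal.ofReal (4 * (1 + 1 / d) * (Q y * Real.exp (δ * L)))) (by
      filter_upwards [hPer] with y hy
      rw [sum_enorm_eq, cDo_a]
      refine ENNReal.ofReal_le_ofReal ?_
      exact h L hL ep hep.le (hep'.trans (by norm_num)) e1 he1 he1' J hJ hsm (ν y) d (Q y) K 0 0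
        _ P _ hd (hQ y) (by simpa using hK) (hR (vl (-(11 / 4) * l) y) (by simp [vl])) hy)
  refine key.trans (le_of_eq ?_)
  have h4 : (0 : ℝ) ≤ 4 * (1 + 1 / d) * Real.exp (δ * L) := by positivity
  rw [← lintegral_const_mul' _ _ ENNReal.ofReal_ne_top]
  refine lintegral_congr fun y => ?_
  rw [cDo_a, cDo_K, ← ofReal_norm, ← ENNReal.ofReal_mul (norm_nonneg _), ← ENNReal.ofReal_mul h4]
  congr 1
  ring

/-- **The bound of the classes D1, D1', real form, any base** -/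
theorem top_cDB_le {C c b c1 c' : ℝ} {k : ℕ} (hC : 0 < C) (hc : 0 < c) (hb : 0 < b) (hc1 : 0 < c1)
    (hc' : 0 ≤ c') {δ : ℝ} (hδ : 0 < δ) :
    ∃ a0 : ℝ, 0 < a0 ∧ ∀ C' : ℝ, 0 ≤ C' → ∃ L0 : ℝ, ∀ L ≥ L0, ∀ ep : ℝ, 0 < ep → ep ≤ 1 / 100 →
      ∀ e1 : ℝ, 0 < e1 → e1 ≤ 1 / 4 → ∀ J : ℝ, 0 ≤ J →
      Real.exp (-(2 * Real.pi * J)) + 3 * e1 + 3 * ep ≤ a0 →
      ∀ (P : NUO.Par), ParC P → ∀ (X : Bool → Option O3 → ℂ → ℂ) (ob : (Bool → ℂ → ℝ) → OB)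
        (κ : ℝ) (E0 : Set ℝ), Bs X ob P ep κ E0 → ∀ (kD : ℂ → ℂ) (o : Bool)
        (ν : ℝ → ℝ) (d : ℝ) (K : ℕ) (Q : ℝ → ℝ), 0 < d → (∀ y, 0 ≤ Q y) →
      ((2 * K + 1 : ℕ) : ℝ) ≤ Real.exp (2 * L) →
      (∀ᵐ y : ℝ, PerCof C C' c b k c1 c' L ep e1 J (ν y) d K
        (obDB ob o (vl (-(11 / 4) * l) y)) P 0 0 (Q y)) →
      ∀ (G : ℝ → ℝ) (I : ℝ), 0 ≤ I →
      (∀ᵐ y : ℝ, ‖kD (vl (-(11 / 4) * l) y)‖ * Q y ≤ G y) →
      ∫⁻ y, ENNReal.ofReal (G y) ≤ ENNReal.ofReal I →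
      ∑ n ∈ range (K + 1), ‖(cDo o kD).val
        (X true) (X false) (3 / 5 * l) n n (lX P) (lY P)‖ ≤
        4 * (1 + 1 / d) * Real.exp (δ * L) * I := by
  obtain ⟨a0, ha0, h⟩ := top_cDB (k := k) hC hc hb hc1 hc' hδ
  refine ⟨a0, ha0, fun C' hC' => ?_⟩
  obtain ⟨L0, h⟩ := h C' hC'
  refine ⟨L0, fun L hL ep hep hep' e1 he1 he1' J hJ hsm P hP X ob κ E0 hB kD o ν d K Q
    hd hQ hK hPer G I hI hG hi => ?_⟩
  exact real_of_lint (by positivity) hI (h L hL ep hep hep' e1 he1 he1' J hJ hsm P hP X ob κ E0 hB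
    kD o ν d K Q hd hQ hK hPer) hG hi

end PBR

end
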