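import Pool.Agent.PB.BsX
import Pool.Agent.PB.Reg3
import Pool.Agent.PB.Top0
import Pool.Agent.PB.FlatOne

/-!
# The base of the regular function with equal rows in both groups

`REq D ex ex0 c0`: data `D : PBX.RD m` with the same rows in both groups and the cutoff corrections of
the lists `ex`, `ex0`; `obR`: one body data; **`bs_RD`**: `Bs (XB D.X D.Y) (obR ..)`;
`WW_val`, `WW_pre`: the class W W of the regular function.
-/

set_option autoImplicit false
set_option linter.unusedSectionVars false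

noncomputable section

open Complex MeasureTheory Finset
open scoped ENNReal

namespace PBR

open NUO NUP1 NUCR NUP1S NUP1S.Ab NUP1S.AbC NUP1S.AbG NURow NUGC PBX
open NUP1.Leg (thE Ck Dk)

/-- equal rows in both groups, cutoff corrections from lists -/
structure REq {m : ℕ} (D : RD m) (ex ex0 : List ℂ) (c0 : ℝ) : Prop where
  xy : D.y = D.x
  g : D.g = gP D.β ex
  g' : D.g' = gP D.β ex
  g0 : D.g0 = gP (4 / 3) ex0
  g0' : D.g0' = gP (4 / 3) ex0
  c : ‖D.c‖ = c0
  c' : ‖D.c'‖ = c0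
  hex : ∀ w ∈ ex, |w.re| ≤ l / 2

/-- **one body data of the regular function**, spectators `g` -/
def obR {m : ℕ} (D : RD m) (ex ex0 : List ℂ) (c0 : ℝ) (g : Bool → ℂ → ℝ) : OB :=
  obX c0 D.β D.x ex ex0 fun a u => ‖thE D.p D.p D.q D.q u‖ * g a u

/-- **The base of the regular function.** -/
theorem bs_RD {m : ℕ} {D : RD m} (H : D.Ok) {ex ex0 : List ℂ} {c0 : ℝ} (h : REq D ex ex0 c0)
    {P : NUO.Par} {ep : ℝ} (hP : ParC P) (hep0 : 0 < ep) (hep : ep ≤ 1 / 100) :
    Bs (XB D.X D.Y) (obR D ex ex0 c0) P ep (2 * D.β) (Set.range fun i => (D.x i).im) := by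
  have hc : ∀ a : Bool, ‖cond a D.c D.c'‖ = c0 := by
    intro a
    cases a
    · exact h.c'
    · exact h.c
  refine (bs_ends (c := fun a => cond a D.c D.c') (ex0 := ex0) hP hep0 hep H.b0 H.b1 H.hx h.hex hc
    H.hp H.hq).congr (fun a k u => ?_) fun g => rfl
  cases a
  · show XX D.c' D.β D.x D.x (gP D.β ex) (gP (4 / 3) ex0) (thE D.p D.p D.q D.q)
        (fun w => thE D.p D.p D.q D.q w * thE D.p D.p D.q D.q (w - l)) k u = D.Y k u
    unfold RD.Y thS
    rw [h.xy, h.g', h.g0', thE_symm D.q D.p]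
  · show XX D.c D.β D.x D.x (gP D.β ex) (gP (4 / 3) ex0) (thE D.p D.p D.q D.q)
        (fun w => thE D.p D.p D.q D.q w * thE D.p D.p D.q D.q (w - l)) k u = D.X k u
    unfold RD.X thS
    rw [h.xy, h.g, h.g0]

/-- the class functions of the regular function, W W -/
def RZW {m : ℕ} (D : RD m) (w w' : ℂ) : Bool → Option O3 → ℂ → ℂ := ZW (XB D.X D.Y) w w'

/-- **`OneC` of the class W W of the regular function at fixed half quanta** -/
theorem oneC_RZW {m : ℕ} {D : RD m} (H : D.Ok) {ex ex0 : List ℂ} {c0 : ℝ} (h : REq D ex ex0 c0)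
    {P : NUO.Par} {ep : ℝ} (hP : ParC P) (hep0 : 0 < ep) (hep : ep ≤ 1 / 100) {w w' : ℂ}
    (hw : w.re = 5 / 4 * l) (hw' : w'.re = 5 / 4 * l) {x0 : ℝ} (h0 : 3 / 5 * l ≤ x0)
    (h1 : x0 ≤ 19 / 20 * l) :
    OneC (RZW D w w') (obR D ex ex0 c0 fun a z => ‖sG SF SF w w' a z‖) P ep (2 * D.β) x0 0
      ({w.im, w'.im} ∪ Set.range fun i => (D.x i).im) :=
  oneC_WW (bs_RD H h hP hep0 hep) hw hw' h0 h1

/-- **The value of the class W W of the regular function.** -/
theorem RWW_val {m : ℕ} (D : RD m) (α : ℝ) (n n' : ℕ)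
    (lnX : ∀ p p' : ℕ, (Fin p → O3) → (Fin p' → O3) → Fin p → ℝ)
    (lnY : ∀ p p' : ℕ, (Fin p → O3) → (Fin p' → O3) → Fin p' → ℝ) :
    (D.cF .W .W).val D.X D.Y α n n' lnX lnY =
      ∫ y : ℝ × ℝ, D.KF (vl (5 / 4 * l) y.1) * D.KF' (vl (5 / 4 * l) y.2) *
        Dk (vl (5 / 4 * l) y.1 - vl (5 / 4 * l) y.2) *
        NURow.ZobjQ (RZW D (vl (5 / 4 * l) y.1) (vl (5 / 4 * l) y.2) true)
          (RZW D (vl (5 / 4 * l) y.1) (vl (5 / 4 * l) y.2) false) α n n' lnX lnY
          ∂(volume.prod volume) := by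
  have h := cFWW_val (X := XB D.X D.Y) D.X D.Y D.KF D.KP D.KF' D.KP' α n n' lnX lnY
  refine h.trans (integral_congr_ae (Filter.Eventually.of_forall fun y => ?_))
  show Pre Dk D.KF D.KF' _ _ * _ = _
  rfl

end PBR

end
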