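import Pool.Agent.PB.ClsR40
import Pool.Agent.PB.OneD

/-!
# Base functions with any rows `|Re x| ≤ l / 2`, any ends or legs as base spectators

* `bs_spX`: a base with base spectators (legs, ends) is a base;
* `bs_XX`: `XX (c a) β x x (gP β ex) (gP (4/3) ex) (s0 a) (t0 a)` (rows `x` of both groups, extra
  cutoff points `ex` (quanta), `ex0` (strings), base spectators `s0`, `t0` of rate 0) with the one body data
  `obX c0 β x ex ex0 (‖s0‖ g)`;
* `bs_legs`: legs at `z`, `- 9 l / 10 ≤ Re z < 37 l / 10`; `bs_ends`: ends `p`, `q`,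
  `|Re p|, |Re q| ≤ l / 2` (spectator `NUP1.Leg.thE p p q q`).
-/

set_option autoImplicit false
set_option linter.unusedSectionVars false

noncomputable section

open Complex MeasureTheory Finset
open scoped ENNReal

namespace PBR

open NUO NUP1 NUCR NUP1S NUP1S.Ab NUP1S.AbC NUP1S.AbG NURow NUP1.Leg NUGC PBX

/-- one body data with base spectators -/
theorem Bs.congr {X X' : Bool → Option O3 → ℂ → ℂ} {ob ob' : (Bool → ℂ → ℝ) → OB} {P : NUO.Par}
    {ep κ : ℝ} {E0 : Set ℝ} (h : Bs X ob P ep κ E0) (hX : ∀ a k u, X a k u = X' a k u)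
    (hob : ∀ g, ob g = ob' g) : Bs X' ob' P ep κ E0 := by
  have e1 : X = X' := funext fun a => funext fun k => funext fun u => hX a k u
  have e2 : ob = ob' := funext hob
  rw [← e1, ← e2]
  exact h

/-- admissible base spectators (rate 0) -/
structure Bsp (P : NUO.Par) (E1 : Set ℝ) (s0 t0 : ℂ → ℂ) : Prop where
  m1 : Measurable s0
  m2 : Measurable t0
  bd : Bdd (Set.Icc (3 / 5 * l) (21 / 20 * l)) 0 s0
  df : ∀ z : ℂ, z.re ∈ Set.Icc (3 / 5 * l) (21 / 20 * l) → DifferentiableAt ℂ s0 z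
  st : SpecS P E1 s0 t0

theorem SpecS.mul {P : NUO.Par} {E E1 : Set ℝ} {s1 s2 t1 t2 : ℂ → ℂ} (h : SpecS P E s1 s2)
    (h' : SpecS P E1 t1 t2) :
    SpecS P (E ∪ E1) (fun u => t1 u * s1 u) fun u => t2 u * s2 u := by
  have key : ∀ w : ℂ, ‖s2 w‖ ≤ ‖s1 w‖ * ‖s1 (w - l)‖ → ‖t2 w‖ ≤ ‖t1 w‖ * ‖t1 (w - l)‖ →
      ‖t2 w * s2 w‖ ≤ ‖t1 w * s1 w‖ * ‖t1 (w - l) * s1 (w - l)‖ := by
    intro w h1 h2
    rw [norm_mul, norm_mul, norm_mul]
    calc ‖t2 w‖ * ‖s2 w‖ ≤ (‖t1 w‖ * ‖t1 (w - l)‖) * (‖s1 w‖ * ‖s1 (w - l)‖) :=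
          mul_le_mul h2 h1 (norm_nonneg _) (by positivity)
      _ = _ := by ring
  exact ⟨fun t ht => key _ (h.1 t fun h0 => ht (Or.inl h0)) (h'.1 t fun h0 => ht (Or.inr h0)),
    fun r e t ht h1 h2 => key _ (h.2 r e t (fun h0 => ht (Or.inl h0)) h1 h2)
      (h'.2 r e t (fun h0 => ht (Or.inr h0)) h1 h2)⟩

/-- **a base with base spectators is a base** -/
theorem bs_spX {X : Bool → Option O3 → ℂ → ℂ} {ob : (Bool → ℂ → ℝ) → OB} {P : NUO.Par}
    {ep κ : ℝ} {E0 E1 : Set ℝ} (h : Bs X ob P ep κ E0) {s0 t0 : Bool → ℂ → ℂ}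
    (hs : ∀ a, Bsp P E1 (s0 a) (t0 a)) (hE1 : volume E1 = 0) :
    Bs (fun a => spX (X a) (s0 a) (t0 a)) (fun g => ob fun a u => ‖s0 a u‖ * g a u) P ep κ
      (E1 ∪ E0) where
  kpos := h.kpos
  nul := by
    rw [measure_union_null_iff]
    exact ⟨hE1, h.nul⟩
  meas a k := measurable_spX (h.meas a) (hs a).m1 (hs a).m2 k
  df a u hu := (h.df a u hu).mul ((hs a).df u hu)
  bd a := ((h.bd a).mul (hs a).bd).rate (by ring)
  one x0 h0 h1 q s1 s2 E hm1 hm2 hA hS hE := by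
    have hsub : Set.Icc x0 (21 / 20 * l) ⊆ Set.Icc (3 / 5 * l) (21 / 20 * l) := fun y hy =>
      ⟨h0.trans hy.1, hy.2⟩
    have key := h.one x0 h0 h1 q (fun a u => s0 a u * s1 a u) (fun a u => t0 a u * s2 a u)
      (E ∪ E1) (fun a => (hs a).m1.mul (hm1 a)) (fun a => (hs a).m2.mul (hm2 a))
      (fun a => ⟨((Bdd.mono_set (hs a).bd hsub).mul (hA a).bd).rate (by ring),
        fun z hz => ((hs a).df z (hsub hz)).mul ((hA a).df z hz)⟩)
      (fun a => SpecS.mul (hS a) (hs a).st) (by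
        rw [measure_union_null_iff]
        exact ⟨hE, hE1⟩)
    have e1 : (fun a => spX (X a) (fun u => s0 a u * s1 a u) fun u => t0 a u * s2 a u) =
        fun a => spX (spX (X a) (s0 a) (t0 a)) (s1 a) (s2 a) := by
      funext a
      rw [spX_spX]
    have e2 : (fun (a : Bool) (u : ℂ) => ‖s0 a u * s1 a u‖) = fun a u => ‖s0 a u‖ * ‖s1 a u‖ := by
      funext a u
      exact norm_mul _ _
    rw [e1, e2, Set.union_assoc] at key
    exact key

/-- the functions `XX` with spectators -/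
theorem spX_XX {m : ℕ} (c : ℂ) (β : ℝ) (x y : Fin m → ℂ) (g g0 s0 t0 : ℂ → ℂ) :
    spX (XX c β x y g g0 (fun _ => 1) fun _ => 1) s0 t0 = XX c β x y g g0 s0 t0 := by
  funext k u
  rcases k with _ | (_ | _ | _) <;> simp only [spX, XX, mul_one]

variable {m : ℕ} {P : NUO.Par} {ep β : ℝ} {c : Bool → ℂ} {c0 : ℝ} {x : Fin m → ℂ} {ex ex0 : List ℂ}

/-- the rows alone -/
theorem bs_rows (hP : ParC P) (hep0 : 0 < ep) (hep : ep ≤ 1 / 100) (hβ : 0 < β)
    (hβ' : β ≤ 4 / 3) (hx : Rws x) (hex : ∀ w ∈ ex, |w.re| ≤ l / 2) (hc : ∀ a, ‖c a‖ = c0) :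
    Bs (fun a => XX (c a) β x x (gP β ex) (gP (4 / 3) ex0) (fun _ => 1) fun _ => 1)
      (obX c0 β x ex ex0) P ep (2 * β) (Set.range fun i => (x i).im) := by
  have hl := l_pos
  have hW : ∀ w ∈ List.ofFn x ++ ex, |w.re| ≤ l / 2 := by
    intro w hw
    rcases List.mem_append.1 hw with h | h
    · obtain ⟨i, rfl⟩ := (List.mem_ofFn' _ _).1 h
      exact hx i
    · exact hex w h
  refine
    { kpos := by linarith
      nul := (Set.finite_range _).measure_zero _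
      meas := fun a k => measurable_XX (measurable_gP _ _) (measurable_gP _ _) measurable_const
        measurable_const k
      df := ?_
      bd := ?_
      one := ?_ }
  · intro a u hu
    have h2 := diffAt_RR (c a) (y := x) NPr_A hx hu
    have h3 : DifferentiableAt ℂ (ph β x (gP β ex)) u := by
      have d1 := DifferentiableAt.fun_finsetProd (𝕜 := ℂ) (u := Finset.univ)
        (f := fun (i : Fin m) s => psi β (s - x i)) (x := u) (fun i _ =>
          diffAt_psiw (NQr_A hβ hβ') (hx i) hu)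
      exact (d1.mul (diffAt_gP (NQr_A hβ hβ') hex hu)).const_sub 1
    exact (h2.mul h3).mul (differentiableAt_const _)
  · intro a
    have h2 := bdd_RR (c a) hx hx isCompact_Icc NPr_A
    have h3 : Bdd (Set.Icc (3 / 5 * l) (21 / 20 * l)) (-(2 * β)) (ph β x (gP β ex)) := by
      have h := (bdd_gP hβ (K := Set.Icc (3 / 5 * l) (21 / 20 * l)) isCompact_Icc
        (NQr_A hβ hβ') hW).1
      refine Bdd.cg h fun z _ => ?_
      rw [ph_gP]
      rfl
    exact ((h2.mul h3).mul (Bdd.const _ _)).rate (by ring)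
  · intro x0 h0 h1 q s1 s2 E hm1 hm2 hA hS hE
    have h := oneC_XX h0 h1 hP hep0 hep hβ hβ' hx hex ex0 hc hm1 hm2 hA hS hE
    have e : (fun a => XX (c a) β x x (gP β ex) (gP (4 / 3) ex0) (s1 a) (s2 a)) =
        fun a => spX (XX (c a) β x x (gP β ex) (gP (4 / 3) ex0) (fun _ => 1) fun _ => 1) (s1 a)
          (s2 a) := by
      funext a
      rw [spX_XX]
    rw [e] at h
    exact h

/-- **rows with base spectators** -/
theorem bs_XX {E1 : Set ℝ} {s0 t0 : Bool → ℂ → ℂ} (hP : ParC P) (hep0 : 0 < ep)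
    (hep : ep ≤ 1 / 100) (hβ : 0 < β) (hβ' : β ≤ 4 / 3) (hx : Rws x)
    (hex : ∀ w ∈ ex, |w.re| ≤ l / 2) (hc : ∀ a, ‖c a‖ = c0) (hs : ∀ a, Bsp P E1 (s0 a) (t0 a))
    (hE1 : volume E1 = 0) :
    Bs (fun a => XX (c a) β x x (gP β ex) (gP (4 / 3) ex0) (s0 a) (t0 a))
      (fun g => obX c0 β x ex ex0 fun a u => ‖s0 a u‖ * g a u) P ep (2 * β)
      (E1 ∪ Set.range fun i => (x i).im) := by
  refine (bs_spX (bs_rows hP hep0 hep hβ hβ' hx hex hc) hs hE1).congr (fun a k u => ?_)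
    fun g => rfl
  rw [spX_XX]

/-! ## legs -/

theorem bsp_Lg {z : ℂ} (h1 : -(9 / 10 * l) ≤ z.re) (h2 : z.re < 37 / 10 * l) :
    Bsp P ∅ (Lg z z) fun w => Lg z z w * Lg z z (w - l) where
  m1 := Lg_meas z z
  m2 := (Lg_meas z z).mul ((Lg_meas z z).comp (measurable_id.sub_const _))
  bd := ((Lg_SpecAt le_rfl true h1 h2).bd).rate (by simp)
  df := (Lg_SpecAt le_rfl true h1 h2).df
  st := Lg_SpecS z

/-- **legs at `z`** -/
theorem bs_legs {z : ℂ} (hP : ParC P) (hep0 : 0 < ep) (hep : ep ≤ 1 / 100) (hβ : 0 < β)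
    (hβ' : β ≤ 4 / 3) (hx : Rws x) (hex : ∀ w ∈ ex, |w.re| ≤ l / 2) (hc : ∀ a, ‖c a‖ = c0)
    (h1 : -(9 / 10 * l) ≤ z.re) (h2 : z.re < 37 / 10 * l) :
    Bs (fun a => XX (c a) β x x (gP β ex) (gP (4 / 3) ex0) (Lg z z)
        fun w => Lg z z w * Lg z z (w - l))
      (fun g => obX c0 β x ex ex0 fun a u => thZ z u * g a u) P ep (2 * β)
      (Set.range fun i => (x i).im) := by
  have h := bs_XX (ex0 := ex0) (E1 := ∅) (s0 := fun _ => Lg z z)
    (t0 := fun _ w => Lg z z w * Lg z z (w - l)) hP hep0 hep hβ hβ' hx hex hc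
    (fun _ => bsp_Lg h1 h2) (by simp)
  simp only [norm_Lg, Set.empty_union] at h
  exact h

/-! ## ends -/

theorem measurable_thE (r o r' o' : ℂ) : Measurable (thE r o r' o') := by
  unfold thE
  fun_prop

/-- the ends on the strip of the quanta -/
theorem PB_thE {p q : ℂ} (hp : |p.re| ≤ l / 2) (hq : |q.re| ≤ l / 2) :
    (Bdd (Set.Icc (3 / 5 * l) (21 / 20 * l)) 0 (thE p p q q)) ∧
    ∀ z : ℂ, z.re ∈ Set.Icc (3 / 5 * l) (21 / 20 * l) →
      DifferentiableAt ℂ (thE p p q q) z := by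
  have hl := l_pos
  obtain ⟨p1, p2⟩ := abs_le.1 hp
  obtain ⟨q1, q2⟩ := abs_le.1 hq
  have hden : ∀ {r : ℂ}, |r.re| ≤ l / 2 → ∀ d ∈ Set.Icc (3 / 5 * l) (21 / 20 * l),
      Real.sin (r.re - d + 2 * l) ≠ 0 := by
    intro r hr d hd
    obtain ⟨r1, r2⟩ := abs_le.1 hr
    exact sin_pos_ne (by linarith [hd.2]) (by linarith [hd.1])
  have hp' := hden hp
  have hq' := hden hq
  have hdC : ∀ {r : ℂ}, (∀ d ∈ Set.Icc (3 / 5 * l) (21 / 20 * l), Real.sin (r.re - d + 2 * l) ≠ 0) →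
      ∀ z : ℂ, z.re ∈ Set.Icc (3 / 5 * l) (21 / 20 * l) → sin (r - z + 2 * l) ≠ 0 := by
    intro r hr z hz
    exact Lg_den (hr _ hz)
  -- the leg factors
  have e : thE p p q q = fun u => Lg p q u * Lg q p u := by
    funext u
    unfold thE Lg
    have e1 : sin (u - p + 3 * l) = -sin (p - u - 3 * l) := by
      rw [← Complex.sin_neg]
      congr 1
      ring
    have e2 : sin (u - q + 3 * l) = -sin (q - u - 3 * l) := by
      rw [← Complex.sin_neg]
      congr 1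
      ring
    rw [e1, e2, div_mul_div_comm]
    congr 1
    ring
  have key : ∀ {r o : ℂ}, (∀ d ∈ Set.Icc (3 / 5 * l) (21 / 20 * l),
      Real.sin (r.re - d + 2 * l) ≠ 0) → Bdd (Set.Icc (3 / 5 * l) (21 / 20 * l)) 0 (Lg r o) ∧
      ∀ z : ℂ, z.re ∈ Set.Icc (3 / 5 * l) (21 / 20 * l) → DifferentiableAt ℂ (Lg r o) z := by
    intro r o hr
    have hd : ∀ z : ℂ, z.re ∈ Set.Icc (3 / 5 * l) (21 / 20 * l) →
        DifferentiableAt ℂ (Lg r o) z := fun z hz => Lg_diff (hr _ hz)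
    refine ⟨?_, hd⟩
    have h := Bdd_of_Gr (K := Set.Icc (3 / 5 * l) (21 / 20 * l)) (f := Lg r o) isCompact_Icc
      (α := 21 / 20 * l) (β := 3 / 5 * l) (s := 0) (fun r hr => hr) (Lg_gr _ _ r o)
      (fun u hu => (hd u hu).continuousAt)
    exact h
  rw [e]
  have k1 := key (o := q) hp'
  have k2 := key (o := p) hq'
  exact ⟨(k1.1.mul k2.1).rate (by ring), fun z hz => (k1.2 z hz).mul (k2.2 z hz)⟩

theorem bsp_thE {p q : ℂ} (hp : |p.re| ≤ l / 2) (hq : |q.re| ≤ l / 2) :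
    Bsp P ∅ (thE p p q q) fun w => thE p p q q w * thE p p q q (w - l) where
  m1 := measurable_thE _ _ _ _
  m2 := (measurable_thE _ _ _ _).mul ((measurable_thE _ _ _ _).comp (measurable_id.sub_const _))
  bd := (PB_thE hp hq).1
  df := (PB_thE hp hq).2
  st := ⟨fun _ _ => le_of_eq (norm_mul _ _), fun _ _ _ _ _ _ => le_of_eq (norm_mul _ _)⟩

/-- **ends `p`, `q`** (both ends of each species at one point, as `PBX.RD.X`, `PBX.RD.Y` at equal
rows) -/
theorem bs_ends {p q : ℂ} (hP : ParC P) (hep0 : 0 < ep) (hep : ep ≤ 1 / 100) (hβ : 0 < β)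
    (hβ' : β ≤ 4 / 3) (hx : Rws x) (hex : ∀ w ∈ ex, |w.re| ≤ l / 2) (hc : ∀ a, ‖c a‖ = c0)
    (hp : |p.re| ≤ l / 2) (hq : |q.re| ≤ l / 2) :
    Bs (fun a => XX (c a) β x x (gP β ex) (gP (4 / 3) ex0) (thE p p q q)
        fun w => thE p p q q w * thE p p q q (w - l))
      (fun g => obX c0 β x ex ex0 fun a u => ‖thE p p q q u‖ * g a u) P ep (2 * β)
      (Set.range fun i => (x i).im) := by
  have h := bs_XX (ex0 := ex0) (E1 := ∅) (s0 := fun _ => thE p p q q)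
    (t0 := fun _ w => thE p p q q w * thE p p q q (w - l)) hP hep0 hep hβ hβ' hx hex hc
    (fun _ => bsp_thE hp hq) (by simp)
  simp only [Set.empty_union] at h
  exact h

/-- the mirrored ends are the same function -/
theorem thE_symm (p q : ℂ) : thE p p q q = thE q q p p := by
  funext u
  unfold thE
  rw [mul_comm (sin (u - p + 3 * l)), mul_comm (sin (p - u + 2 * l))]

end PBR

end
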