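import Mathlib

/-!
# The constant of the transfer (TR)

`∫ dτ / (sin z · sin (z - 2l) · sin (z + x + 3l))`, `z = a + iτ`, `0 < a < 2l`, `l = π/8`, in closed
form, by partial fractions and `∫ dτ / sin (b + iτ) = π` (`0 < b < π`).
-/

set_option autoImplicit false

open MeasureTheory Set Filter Topology

namespace PB.CStar

noncomputable section

/-- real antiderivative of `Re 1/sin (b + iτ)` -/
def F1 (b τ : ℝ) : ℝ := Real.arctan (Real.sinh τ / Real.sin b)

/-- antiderivative of `Im 1/sin (b + iτ)` -/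
def F2 (b τ : ℝ) : ℝ :=
  -(1 / 2 * (Real.log (Real.cosh τ - Real.cos b) - Real.log (Real.cosh τ + Real.cos b)))

theorem norm_sin_sq (b τ : ℝ) :
    ‖Complex.sin (b + τ * Complex.I)‖ ^ 2 = Real.cosh τ ^ 2 - Real.cos b ^ 2 := by
  rw [Complex.sin_add_mul_I, ← Complex.ofReal_sin, ← Complex.ofReal_cos, ← Complex.ofReal_sinh,
    ← Complex.ofReal_cosh, ← Complex.normSq_eq_norm_sq]
  have e : (Real.sin b : ℂ) * (Real.cosh τ : ℂ) + (Real.cos b : ℂ) * (Real.sinh τ : ℂ) * Complex.I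
      = ((Real.sin b * Real.cosh τ : ℝ) : ℂ) + ((Real.cos b * Real.sinh τ : ℝ) : ℂ) * Complex.I := by
    push_cast; ring
  rw [e, Complex.normSq_add_mul_I]
  have h1 := Real.sin_sq b
  have h2 := Real.cosh_sq τ
  have h3 : Real.sinh τ ^ 2 = Real.cosh τ ^ 2 - 1 := by linarith
  rw [mul_pow, mul_pow, h1, h3]; ring

theorem sin_ne {b : ℝ} (h0 : 0 < b) (h1 : b < Real.pi) (τ : ℝ) :
    Complex.sin (b + τ * Complex.I) ≠ 0 := by
  intro h
  have h2 := norm_sin_sq b τ
  rw [h, norm_zero] at h2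
  have h3 := Real.one_le_cosh τ
  have h4 := Real.sin_pos_of_pos_of_lt_pi h0 h1
  have h5 := Real.sin_sq_add_cos_sq b
  nlinarith

theorem norm_sin_ge {b : ℝ} (h0 : 0 < b) (h1 : b < Real.pi) (τ : ℝ) :
    Real.sin b * Real.cosh τ ≤ ‖Complex.sin (b + τ * Complex.I)‖ := by
  have h4 := Real.sin_pos_of_pos_of_lt_pi h0 h1
  have h3 := Real.one_le_cosh τ
  apply le_of_sq_le_sq _ (norm_nonneg _)
  rw [norm_sin_sq, mul_pow, Real.sin_sq]
  nlinarith [sq_nonneg (Real.cos b), sq_nonneg (Real.cosh τ), mul_nonneg (sq_nonneg (Real.cos b))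
    (show 0 ≤ Real.cosh τ ^ 2 - 1 by nlinarith)]


theorem int_exp_neg_abs : Integrable fun y : ℝ => Real.exp (-|y|) := by
  rw [← integrableOn_univ, ← Iic_union_Ioi (a := (0 : ℝ)), integrableOn_union]
  constructor
  · have h := integrableOn_exp_mul_Iic (show (0:ℝ) < 1 by norm_num) 0
    refine h.congr_fun (fun y hy => ?_) measurableSet_Iic
    have hy' : y ≤ 0 := hy
    simp only
    rw [abs_of_nonpos hy']; congr 1; ring
  · have h := integrableOn_exp_mul_Ioi (show (-1:ℝ) < 0 by norm_num) 0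
    refine h.congr_fun (fun y hy => ?_) measurableSet_Ioi
    have hy' : 0 < y := hy
    simp only
    rw [abs_of_pos hy']; congr 1; ring

theorem cosh_ge (τ : ℝ) : Real.exp |τ| / 2 ≤ Real.cosh τ := by
  rw [← Real.cosh_abs, Real.cosh_eq]
  have := Real.exp_pos (-|τ|)
  linarith

theorem norm_inv_le {b : ℝ} (h0 : 0 < b) (h1 : b < Real.pi) (τ : ℝ) :
    ‖(Complex.sin (b + τ * Complex.I))⁻¹‖ ≤ 2 / Real.sin b * Real.exp (-|τ|) := by
  have h4 := Real.sin_pos_of_pos_of_lt_pi h0 h1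
  rw [norm_inv]
  have h5 : Real.sin b * (Real.exp |τ| / 2) ≤ ‖Complex.sin (b + τ * Complex.I)‖ :=
    (mul_le_mul_of_nonneg_left (cosh_ge τ) h4.le).trans (norm_sin_ge h0 h1 τ)
  calc _ ≤ (Real.sin b * (Real.exp |τ| / 2))⁻¹ := inv_anti₀ (by positivity) h5
    _ = _ := by rw [Real.exp_neg]; field_simp

theorem cont_sin (b : ℂ) : Continuous fun τ : ℝ => Complex.sin (b + τ * Complex.I) := by
  fun_prop

theorem integrable_inv_sin {b : ℝ} (h0 : 0 < b) (h1 : b < Real.pi) :
    Integrable fun τ : ℝ => (Complex.sin (b + τ * Complex.I))⁻¹ :=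
  (int_exp_neg_abs.const_mul (2 / Real.sin b)).mono'
    ((cont_sin b).inv₀ (sin_ne h0 h1)).aestronglyMeasurable
    (Eventually.of_forall (norm_inv_le h0 h1))

/-- the antiderivative -/
theorem deriv_F {b : ℝ} (h0 : 0 < b) (h1 : b < Real.pi) (τ : ℝ) :
    HasDerivAt (fun τ : ℝ => ((F1 b τ : ℝ) : ℂ) + ((F2 b τ : ℝ) : ℂ) * Complex.I)
      ((Complex.sin (b + τ * Complex.I))⁻¹) τ := by
  have hs := Real.sin_pos_of_pos_of_lt_pi h0 h1
  have hc := Real.one_le_cosh τ
  have hcb : |Real.cos b| < 1 := by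
    rw [abs_lt]
    have := Real.sin_sq_add_cos_sq b
    constructor <;> nlinarith
  rw [abs_lt] at hcb
  have p1 : 0 < Real.cosh τ - Real.cos b := by linarith
  have p2 : 0 < Real.cosh τ + Real.cos b := by linarith
  have hN : 0 < Real.cosh τ ^ 2 - Real.cos b ^ 2 := by nlinarith
  have e0 : Real.sinh τ ^ 2 + Real.sin b ^ 2 = Real.cosh τ ^ 2 - Real.cos b ^ 2 := by
    rw [Real.sinh_sq, Real.sin_sq]; ring
  have d1 : HasDerivAt (F1 b) (Real.sin b * Real.cosh τ / (Real.cosh τ ^ 2 - Real.cos b ^ 2)) τ := by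
    have := ((Real.hasDerivAt_sinh τ).div_const (Real.sin b)).arctan
    refine this.congr_deriv ?_
    rw [← e0]
    field_simp
    ring
  have d2 : HasDerivAt (F2 b) (-(Real.cos b * Real.sinh τ) / (Real.cosh τ ^ 2 - Real.cos b ^ 2)) τ := by
    have a1 := ((Real.hasDerivAt_cosh τ).sub_const (Real.cos b)).log p1.ne'
    have a2 := ((Real.hasDerivAt_cosh τ).add_const (Real.cos b)).log p2.ne'
    refine (((a1.sub a2).const_mul (1 / 2)).neg).congr_deriv ?_
    have e : Real.cosh τ ^ 2 - Real.cos b ^ 2 = (Real.cosh τ - Real.cos b) * (Real.cosh τ + Real.cos b) := by ring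
    rw [e]
    field_simp
    ring
  have d := (d1.ofReal_comp).add ((d2.ofReal_comp).mul_const Complex.I)
  refine d.congr_deriv ?_
  have hne := sin_ne h0 h1 τ
  rw [← mul_eq_one_iff_eq_inv₀ hne]
  rw [Complex.sin_add_mul_I, ← Complex.ofReal_sin, ← Complex.ofReal_cos, ← Complex.ofReal_sinh,
    ← Complex.ofReal_cosh]
  have hNC : ((Real.cosh τ ^ 2 - Real.cos b ^ 2 : ℝ) : ℂ) ≠ 0 := by exact_mod_cast hN.ne'
  have e2 : (Real.sin b * Real.cosh τ) ^ 2 + (Real.cos b * Real.sinh τ) ^ 2 =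
      Real.cosh τ ^ 2 - Real.cos b ^ 2 := by
    rw [mul_pow, mul_pow, Real.sin_sq, Real.sinh_sq]; ring
  have e3 : (((Real.sin b * Real.cosh τ / (Real.cosh τ ^ 2 - Real.cos b ^ 2) : ℝ) : ℂ) +
      ((-(Real.cos b * Real.sinh τ) / (Real.cosh τ ^ 2 - Real.cos b ^ 2) : ℝ) : ℂ) * Complex.I) =
      (((Real.sin b * Real.cosh τ : ℝ) : ℂ) - ((Real.cos b * Real.sinh τ : ℝ) : ℂ) * Complex.I) /
        ((Real.cosh τ ^ 2 - Real.cos b ^ 2 : ℝ) : ℂ) := by
    push_cast; ring
  rw [e3, div_mul_eq_mul_div, div_eq_one_iff_eq hNC]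
  have e4 : (((Real.sin b * Real.cosh τ : ℝ) : ℂ) - ((Real.cos b * Real.sinh τ : ℝ) : ℂ) * Complex.I) *
      ((Real.sin b : ℂ) * (Real.cosh τ : ℂ) + (Real.cos b : ℂ) * (Real.sinh τ : ℂ) * Complex.I) =
      (((Real.sin b * Real.cosh τ) ^ 2 + (Real.cos b * Real.sinh τ) ^ 2 : ℝ) : ℂ) := by
    push_cast
    linear_combination -(Complex.cos (b : ℂ) * Complex.sinh (τ : ℂ)) ^ 2 * Complex.I_sq
  rw [e4, e2]

theorem sinh_top : Tendsto Real.sinh atTop atTop := by
  refine tendsto_atTop_mono' atTop ?_ tendsto_id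
  filter_upwards [eventually_ge_atTop (0 : ℝ)] with x hx
  exact Real.self_le_sinh_iff.mpr hx

theorem sinh_bot : Tendsto Real.sinh atBot atBot := by
  have h : Real.sinh = fun x : ℝ => -Real.sinh (-x) := by
    funext x; rw [Real.sinh_neg, neg_neg]
  rw [h]
  exact tendsto_neg_atTop_atBot.comp (sinh_top.comp tendsto_neg_atBot_atTop)

theorem cosh_top : Tendsto Real.cosh atTop atTop := by
  refine tendsto_atTop_mono (fun x => ?_) sinh_top
  exact (Real.sinh_lt_cosh x).le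

theorem cosh_bot : Tendsto Real.cosh atBot atTop := by
  have h : Real.cosh = fun x : ℝ => Real.cosh (-x) := by
    funext x; rw [Real.cosh_neg]
  rw [h]
  exact cosh_top.comp tendsto_neg_atBot_atTop

theorem F2_lim (b : ℝ) {f : Filter ℝ} (h : Tendsto Real.cosh f atTop) :
    Tendsto (F2 b) f (𝓝 0) := by
  have h1 : Tendsto (fun y : ℝ => (y - Real.cos b) / (y + Real.cos b)) atTop (𝓝 1) := by
    have h2 : Tendsto (fun y : ℝ => 1 - 2 * Real.cos b * (y + Real.cos b)⁻¹) atTop (𝓝 (1 - 2 * Real.cos b * 0)) := by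
      refine tendsto_const_nhds.sub (Tendsto.const_mul _ ?_)
      exact tendsto_inv_atTop_zero.comp (tendsto_atTop_add_const_right _ _ tendsto_id)
    rw [mul_zero, sub_zero] at h2
    refine h2.congr' ?_
    filter_upwards [eventually_gt_atTop (|Real.cos b|)] with y hy
    have : y + Real.cos b ≠ 0 := by
      have := neg_abs_le (Real.cos b)
      linarith
    field_simp
    ring
  have h3 := (h1.comp h).log one_ne_zero
  rw [Real.log_one] at h3
  have h4 := (h3.const_mul (1 / 2)).neg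
  rw [mul_zero, neg_zero] at h4
  refine h4.congr' ?_
  filter_upwards [h.eventually (eventually_gt_atTop 1)] with τ hτ
  have p1 : Real.cosh τ - Real.cos b ≠ 0 := by
    have := Real.cos_le_one b; linarith
  have p2 : Real.cosh τ + Real.cos b ≠ 0 := by
    have := Real.neg_one_le_cos b; linarith
  simp only [F2, Function.comp]
  rw [Real.log_div p1 p2]

theorem integral_inv_sin {b : ℝ} (h0 : 0 < b) (h1 : b < Real.pi) :
    ∫ τ : ℝ, (Complex.sin (b + τ * Complex.I))⁻¹ = Real.pi := by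
  have hs := Real.sin_pos_of_pos_of_lt_pi h0 h1
  have t1 : Tendsto (F1 b) atTop (𝓝 (Real.pi / 2)) :=
    (tendsto_nhds_of_tendsto_nhdsWithin Real.tendsto_arctan_atTop).comp (sinh_top.atTop_div_const hs)
  have t2 : Tendsto (F1 b) atBot (𝓝 (-(Real.pi / 2))) :=
    (tendsto_nhds_of_tendsto_nhdsWithin Real.tendsto_arctan_atBot).comp (sinh_bot.atBot_div_const hs)
  have lim : ∀ {f : Filter ℝ} {v : ℝ}, Tendsto (F1 b) f (𝓝 v) → Tendsto (F2 b) f (𝓝 0) →
      Tendsto (fun τ : ℝ => ((F1 b τ : ℝ) : ℂ) + ((F2 b τ : ℝ) : ℂ) * Complex.I) f (𝓝 (v : ℂ)) := by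
    intro f v a1 a2
    have a3 := (Complex.continuous_ofReal.tendsto v).comp a1
    have a4 := ((Complex.continuous_ofReal.tendsto 0).comp a2).mul_const Complex.I
    have a5 := a3.add a4
    rw [Complex.ofReal_zero, zero_mul, add_zero] at a5
    exact a5
  rw [integral_of_hasDerivAt_of_tendsto (deriv_F h0 h1) (integrable_inv_sin h0 h1)
    (lim t2 (F2_lim b cosh_bot)) (lim t1 (F2_lim b cosh_top))]
  push_cast; ring

theorem shift_eq (c : ℂ) (τ : ℝ) : (Complex.sin (c + τ * Complex.I))⁻¹ =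
    (fun u : ℝ => (Complex.sin ((c.re : ℂ) + u * Complex.I))⁻¹) (τ + c.im) := by
  simp only
  congr 2
  conv_lhs => rw [← Complex.re_add_im c]
  push_cast; ring

theorem refl_eq (c : ℂ) (τ : ℝ) : (Complex.sin (c + τ * Complex.I))⁻¹ =
    (fun u : ℝ => -(Complex.sin (-c + u * Complex.I))⁻¹) (-τ) := by
  simp only
  rw [← inv_neg, ← Complex.sin_neg]
  congr 2
  push_cast; ring

/-- `∫ dτ / sin (c + iτ) = π` for `0 < Re c < π` -/
theorem int_pos {c : ℂ} (h0 : 0 < c.re) (h1 : c.re < Real.pi) :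
    Integrable (fun τ : ℝ => (Complex.sin (c + τ * Complex.I))⁻¹) ∧
    ∫ τ : ℝ, (Complex.sin (c + τ * Complex.I))⁻¹ = Real.pi := by
  have e : (fun τ : ℝ => (Complex.sin (c + τ * Complex.I))⁻¹) =
      fun τ : ℝ => (fun u : ℝ => (Complex.sin ((c.re : ℂ) + u * Complex.I))⁻¹) (τ + c.im) :=
    funext (shift_eq c)
  rw [e]
  refine ⟨(integrable_inv_sin h0 h1).comp_add_right c.im, ?_⟩
  rw [integral_add_right_eq_self (fun u : ℝ => (Complex.sin ((c.re : ℂ) + u * Complex.I))⁻¹)]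
  exact integral_inv_sin h0 h1

/-- `∫ dτ / sin (c + iτ) = -π` for `-π < Re c < 0` -/
theorem int_neg {c : ℂ} (h0 : c.re < 0) (h1 : -Real.pi < c.re) :
    Integrable (fun τ : ℝ => (Complex.sin (c + τ * Complex.I))⁻¹) ∧
    ∫ τ : ℝ, (Complex.sin (c + τ * Complex.I))⁻¹ = -Real.pi := by
  have h2 : 0 < (-c).re := by rw [Complex.neg_re]; linarith
  have h3 : (-c).re < Real.pi := by rw [Complex.neg_re]; linarith
  have e : (fun τ : ℝ => (Complex.sin (c + τ * Complex.I))⁻¹) =
      fun τ : ℝ => (fun u : ℝ => -(Complex.sin (-c + u * Complex.I))⁻¹) (-τ) :=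
    funext (refl_eq c)
  rw [e]
  refine ⟨(int_pos h2 h3).1.neg.comp_neg, ?_⟩
  rw [integral_neg_eq_self (fun u : ℝ => -(Complex.sin (-c + u * Complex.I))⁻¹), integral_neg,
    (int_pos h2 h3).2]

/-- partial fractions for three sines -/
theorem pf {z α β : ℂ} (h0 : Complex.sin z ≠ 0) (h1 : Complex.sin (z - α) ≠ 0)
    (h2 : Complex.sin (z + β) ≠ 0) (ha : Complex.sin α ≠ 0) (hb : Complex.sin β ≠ 0)
    (hab : Complex.sin (α + β) ≠ 0) :
    (Complex.sin z * Complex.sin (z - α) * Complex.sin (z + β))⁻¹ =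
      -(Complex.sin α * Complex.sin β)⁻¹ * (Complex.sin z)⁻¹ +
      (Complex.sin α * Complex.sin (α + β))⁻¹ * (Complex.sin (z - α))⁻¹ +
      (Complex.sin β * Complex.sin (α + β))⁻¹ * (Complex.sin (z + β))⁻¹ := by
  have key : 1 * (Complex.sin α * Complex.sin β * Complex.sin (α + β)) =
      -Complex.sin (α + β) * (Complex.sin (z - α) * Complex.sin (z + β)) +
      Complex.sin β * (Complex.sin z * Complex.sin (z + β)) +
      Complex.sin α * (Complex.sin z * Complex.sin (z - α)) := by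
    have s1 := Complex.sin_sq_add_cos_sq z
    have s2 := Complex.sin_sq_add_cos_sq α
    have s3 := Complex.sin_sq_add_cos_sq β
    rw [Complex.sin_add, Complex.sin_sub, Complex.sin_add]
    linear_combination (-(Complex.sin α * Complex.sin β * (Complex.sin α * Complex.cos β +
      Complex.cos α * Complex.sin β))) * s1 + (Complex.sin z * Complex.cos z * Complex.sin β ^ 2 +
      Complex.sin z ^ 2 * Complex.sin β * Complex.cos β) * s2 -
      (Complex.sin z * Complex.cos z * Complex.sin α ^ 2 -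
      Complex.sin z ^ 2 * Complex.sin α * Complex.cos α) * s3
  field_simp
  linear_combination key

theorem sin_ne' {c : ℂ} (h0 : 0 < c.re) (h1 : c.re < Real.pi) : Complex.sin c ≠ 0 := by
  have := sin_ne h0 h1 c.im
  rwa [Complex.re_add_im] at this

theorem sin_ne'' {c : ℂ} (h0 : c.re < 0) (h1 : -Real.pi < c.re) : Complex.sin c ≠ 0 := by
  intro h
  have h2 : 0 < (-c).re := by rw [Complex.neg_re]; linarith
  have h3 : (-c).re < Real.pi := by rw [Complex.neg_re]; linarith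
  exact sin_ne' h2 h3 (by rw [Complex.sin_neg, h, neg_zero])

/-- the three sine integral, general form -/
theorem int3 {a α β : ℂ} (a0 : 0 < a.re) (a1 : a.re < Real.pi) (a2 : a.re < α.re)
    (a3 : α.re < Real.pi) (b0 : 0 < β.re) (b2 : α.re + β.re < Real.pi) :
    Integrable (fun τ : ℝ => (Complex.sin (a + τ * Complex.I) * Complex.sin (a + τ * Complex.I - α) *
      Complex.sin (a + τ * Complex.I + β))⁻¹) ∧
    ∫ τ : ℝ, (Complex.sin (a + τ * Complex.I) * Complex.sin (a + τ * Complex.I - α) *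
      Complex.sin (a + τ * Complex.I + β))⁻¹ =
      -Real.pi * (Complex.sin (α + β) + Complex.sin β - Complex.sin α) /
        (Complex.sin α * Complex.sin β * Complex.sin (α + β)) := by
  have ha : Complex.sin α ≠ 0 := sin_ne' (by linarith) a3
  have hb : Complex.sin β ≠ 0 := sin_ne' b0 (by linarith)
  have hab : Complex.sin (α + β) ≠ 0 := sin_ne' (by rw [Complex.add_re]; linarith)
    (by rw [Complex.add_re]; linarith)
  have re1 : ∀ (c : ℂ) (τ : ℝ), (c + τ * Complex.I).re = c.re := by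
    intro c τ; simp
  have e1 : ∀ τ : ℝ, a + τ * Complex.I - α = (a - α) + τ * Complex.I := by intro τ; ring
  have e2 : ∀ τ : ℝ, a + τ * Complex.I + β = (a + β) + τ * Complex.I := by intro τ; ring
  have r1 : (a - α).re < 0 := by rw [Complex.sub_re]; linarith
  have r2 : -Real.pi < (a - α).re := by rw [Complex.sub_re]; linarith
  have r3 : 0 < (a + β).re := by rw [Complex.add_re]; linarith
  have r4 : (a + β).re < Real.pi := by rw [Complex.add_re]; linarith
  have e : (fun τ : ℝ => (Complex.sin (a + τ * Complex.I) * Complex.sin (a + τ * Complex.I - α) *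
      Complex.sin (a + τ * Complex.I + β))⁻¹) = fun τ : ℝ =>
      -(Complex.sin α * Complex.sin β)⁻¹ * (Complex.sin (a + τ * Complex.I))⁻¹ +
      (Complex.sin α * Complex.sin (α + β))⁻¹ * (Complex.sin ((a - α) + τ * Complex.I))⁻¹ +
      (Complex.sin β * Complex.sin (α + β))⁻¹ * (Complex.sin ((a + β) + τ * Complex.I))⁻¹ := by
    funext τ
    rw [pf (sin_ne' (by rw [re1]; exact a0) (by rw [re1]; exact a1))
      (by rw [e1]; exact sin_ne'' (by rw [re1]; exact r1) (by rw [re1]; exact r2))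
      (by rw [e2]; exact sin_ne' (by rw [re1]; exact r3) (by rw [re1]; exact r4)) ha hb hab, e1, e2]
  rw [e]
  have i1 := int_pos a0 a1
  have i2 := int_neg r1 r2
  have i3 := int_pos r3 r4
  have j1 := i1.1.const_mul (-(Complex.sin α * Complex.sin β)⁻¹)
  have j2 := i2.1.const_mul ((Complex.sin α * Complex.sin (α + β))⁻¹)
  have j3 := i3.1.const_mul ((Complex.sin β * Complex.sin (α + β))⁻¹)
  refine ⟨(j1.add j2).add j3, ?_⟩
  have k1 := integral_add (j1.add j2) j3
  have k2 := integral_add j1 j2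
  simp only [Pi.add_apply] at k1
  rw [k1, k2, integral_const_mul, integral_const_mul, integral_const_mul, i1.2, i2.2, i3.2]
  field_simp
  ring

theorem sum_sines (x : ℂ) : Complex.sin ((Real.pi / 4 : ℝ) + (x + (3 * Real.pi / 8 : ℝ))) +
      Complex.sin (x + (3 * Real.pi / 8 : ℝ)) - Complex.sin ((Real.pi / 4 : ℝ)) =
    2 * Complex.cos ((Real.pi / 8 : ℝ)) * (Complex.cos x - Complex.sin ((Real.pi / 8 : ℝ))) := by
  have e1 : ((Real.pi / 4 : ℝ) : ℂ) + (x + (3 * Real.pi / 8 : ℝ)) =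
      (x + Real.pi / 2) + (Real.pi / 8 : ℝ) := by push_cast; ring
  have e2 : x + (3 * Real.pi / 8 : ℝ) = (x + Real.pi / 2) - (Real.pi / 8 : ℝ) := by push_cast; ring
  have e3 : ((Real.pi / 4 : ℝ) : ℂ) = 2 * (Real.pi / 8 : ℝ) := by push_cast; ring
  rw [e1, e2, e3, Complex.sin_two_mul, Complex.sin_add, Complex.sin_sub, Complex.sin_add_pi_div_two]
  ring

/-- **the constant of the transfer**: one of the two factors of `C_*` (times the constants of the
kernel), for ends at distance `x` -/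
theorem cstar {a x : ℂ} (a0 : 0 < a.re) (a1 : a.re < Real.pi / 4)
    (x0 : -(3 * Real.pi / 8) < x.re) (x1 : x.re < 3 * Real.pi / 8) :
    Integrable (fun τ : ℝ => (Complex.sin (a + τ * Complex.I) *
      Complex.sin (a + τ * Complex.I - (Real.pi / 4 : ℝ)) *
      Complex.sin (a + τ * Complex.I + (x + (3 * Real.pi / 8 : ℝ))))⁻¹) ∧
    ∫ τ : ℝ, (Complex.sin (a + τ * Complex.I) *
      Complex.sin (a + τ * Complex.I - (Real.pi / 4 : ℝ)) *
      Complex.sin (a + τ * Complex.I + (x + (3 * Real.pi / 8 : ℝ))))⁻¹ =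
    -Real.pi * (Complex.cos x - Complex.sin ((Real.pi / 8 : ℝ))) /
      (Complex.sin ((Real.pi / 8 : ℝ)) * Complex.sin ((3 * Real.pi / 8 : ℝ) + x) *
        Complex.sin ((3 * Real.pi / 8 : ℝ) - x)) := by
  have hp := Real.pi_pos
  have h := int3 (a := a) (α := ((Real.pi / 4 : ℝ) : ℂ)) (β := x + (3 * Real.pi / 8 : ℝ)) a0
    (by linarith) (by rw [Complex.ofReal_re]; exact a1) (by rw [Complex.ofReal_re]; linarith)
    (by rw [Complex.add_re, Complex.ofReal_re]; linarith)
    (by rw [Complex.ofReal_re, Complex.add_re, Complex.ofReal_re]; linarith)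
  refine ⟨h.1, ?_⟩
  rw [h.2, sum_sines]
  have e3 : ((Real.pi / 4 : ℝ) : ℂ) = 2 * (Real.pi / 8 : ℝ) := by push_cast; ring
  have e4 : Complex.sin ((Real.pi / 4 : ℝ) + (x + (3 * Real.pi / 8 : ℝ))) =
      Complex.sin ((3 * Real.pi / 8 : ℝ) - x) := by
    rw [← Complex.sin_pi_sub]
    congr 1
    push_cast; ring
  have s8 : Complex.sin ((Real.pi / 8 : ℝ) : ℂ) ≠ 0 := by
    rw [← Complex.ofReal_sin]
    exact_mod_cast (Real.sin_pos_of_pos_of_lt_pi (by positivity) (by linarith)).ne'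
  have c8 : Complex.cos ((Real.pi / 8 : ℝ) : ℂ) ≠ 0 := by
    rw [← Complex.ofReal_cos]
    exact_mod_cast (Real.cos_pos_of_mem_Ioo ⟨by linarith, by linarith⟩).ne'
  have n1 : Complex.sin ((3 * Real.pi / 8 : ℝ) + x) ≠ 0 := sin_ne'
    (by rw [Complex.add_re, Complex.ofReal_re]; linarith)
    (by rw [Complex.add_re, Complex.ofReal_re]; linarith)
  have n2 : Complex.sin ((3 * Real.pi / 8 : ℝ) - x) ≠ 0 := sin_ne'
    (by rw [Complex.sub_re, Complex.ofReal_re]; linarith)
    (by rw [Complex.sub_re, Complex.ofReal_re]; linarith)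
  rw [e4, e3, Complex.sin_two_mul, add_comm x]
  field_simp

theorem cos_ne {x : ℂ} (x0 : -(3 * Real.pi / 8) < x.re) (x1 : x.re < 3 * Real.pi / 8) :
    Complex.cos x - Complex.sin ((Real.pi / 8 : ℝ)) ≠ 0 := by
  have hp := Real.pi_pos
  have e : Complex.sin ((Real.pi / 8 : ℝ)) = Complex.cos ((3 * Real.pi / 8 : ℝ)) := by
    rw [← Complex.cos_pi_div_two_sub]
    congr 1
    push_cast; ring
  rw [e, Complex.cos_sub_cos]
  have n1 : Complex.sin ((x + (3 * Real.pi / 8 : ℝ)) / 2) ≠ 0 := by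
    have r : ((x + (3 * Real.pi / 8 : ℝ)) / 2).re = (x.re + 3 * Real.pi / 8) / 2 := by
      have : (x + (3 * Real.pi / 8 : ℝ)) / 2 = ((1 / 2 : ℝ) : ℂ) * (x + (3 * Real.pi / 8 : ℝ)) := by
        push_cast; ring
      rw [this, Complex.re_ofReal_mul, Complex.add_re, Complex.ofReal_re]; ring
    exact sin_ne' (by rw [r]; linarith) (by rw [r]; linarith)
  have n2 : Complex.sin ((x - (3 * Real.pi / 8 : ℝ)) / 2) ≠ 0 := by
    have r : ((x - (3 * Real.pi / 8 : ℝ)) / 2).re = (x.re - 3 * Real.pi / 8) / 2 := by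
      have : (x - (3 * Real.pi / 8 : ℝ)) / 2 = ((1 / 2 : ℝ) : ℂ) * (x - (3 * Real.pi / 8 : ℝ)) := by
        push_cast; ring
      rw [this, Complex.re_ofReal_mul, Complex.sub_re, Complex.ofReal_re]; ring
    exact sin_ne'' (by rw [r]; linarith) (by rw [r]; linarith)
  exact mul_ne_zero (mul_ne_zero (by norm_num) n1) n2

/-- the constant does not vanish -/
theorem cstar_ne {x : ℂ} (x0 : -(3 * Real.pi / 8) < x.re) (x1 : x.re < 3 * Real.pi / 8) :
    -(Real.pi : ℂ) * (Complex.cos x - Complex.sin ((Real.pi / 8 : ℝ))) /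
      (Complex.sin ((Real.pi / 8 : ℝ)) * Complex.sin ((3 * Real.pi / 8 : ℝ) + x) *
        Complex.sin ((3 * Real.pi / 8 : ℝ) - x)) ≠ 0 := by
  have hp := Real.pi_pos
  have s8 : Complex.sin ((Real.pi / 8 : ℝ) : ℂ) ≠ 0 := by
    rw [← Complex.ofReal_sin]
    exact_mod_cast (Real.sin_pos_of_pos_of_lt_pi (by positivity) (by linarith)).ne'
  have n1 : Complex.sin ((3 * Real.pi / 8 : ℝ) + x) ≠ 0 := sin_ne'
    (by rw [Complex.add_re, Complex.ofReal_re]; linarith)
    (by rw [Complex.add_re, Complex.ofReal_re]; linarith)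
  have n2 : Complex.sin ((3 * Real.pi / 8 : ℝ) - x) ≠ 0 := sin_ne'
    (by rw [Complex.sub_re, Complex.ofReal_re]; linarith)
    (by rw [Complex.sub_re, Complex.ofReal_re]; linarith)
  have hpc : (Real.pi : ℂ) ≠ 0 := by exact_mod_cast hp.ne'
  exact div_ne_zero (mul_ne_zero (neg_ne_zero.mpr hpc) (cos_ne x0 x1))
    (mul_ne_zero (mul_ne_zero s8 n1) n2)

end

end PB.CStar
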