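import Pool.Agent.PB.GasWard

/-!
# Quadratic statistics as superpositions of products of linear statistics (plan B)

`nuL`, `nuQ` of `PB.GasWard`.
* `ProdRep σ A B al be a`: the kernel `a b c s t = ∫ A x b s * B x c t dσ(x)` with
  `‖A x b s‖ ≤ al x`, `‖B x c t‖ ≤ be x`, `al * be` integrable;
* **`nuQ_prod`**: `nuQ a = ½ ∫ nuL (A x) * nuL (B x) dσ(x)` for a symmetric kernel;
* `nuQ_add`, `nuQ_smul`;
* **`nuQ_chan`**: the two channels `H_+`, `H_-` of two species.
-/

set_option autoImplicit false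
set_option linter.unusedSectionVars false

noncomputable section

open MeasureTheory Finset
open scoped Classical

namespace PB

variable {ι S T : Type*} [Fintype ι] [Fintype S] [MeasurableSpace T] {σ : Measure T}

/-- product representation of a kernel -/
structure ProdRep (σ : Measure T) (A B : T → S → ℝ → ℂ) (al be : T → ℝ)
    (a : S → S → ℝ → ℝ → ℂ) : Prop where
  mA : ∀ b, StronglyMeasurable fun p : T × ℝ => A p.1 b p.2
  mB : ∀ b, StronglyMeasurable fun p : T × ℝ => B p.1 b p.2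
  bA : ∀ x b s, ‖A x b s‖ ≤ al x
  bB : ∀ x b s, ‖B x b s‖ ≤ be x
  int : Integrable (fun x => al x * be x) σ
  eq : ∀ b c s t, a b c s t = ∫ x, A x b s * B x c t ∂σ

section

variable {A B : T → S → ℝ → ℂ} {al be : T → ℝ} {a : S → S → ℝ → ℝ → ℂ} {ρ : S → ℝ → ℂ}

/-- `∑ b, ∫ ρ b g b` -/
def rhoL (ρ g : S → ℝ → ℂ) : ℂ := ∑ b, ∫ u, ρ b u * g b u

/-- `∑ i, g (sp i) (t i)` -/
def cntL (sp : ι → S) (g : S → ℝ → ℂ) (t : ι → ℝ) : ℂ := ∑ i, g (sp i) (t i)

theorem nuL_eq' (sp : ι → S) (ρ g : S → ℝ → ℂ) (t : ι → ℝ) :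
    nuL sp ρ g t = cntL sp g t - rhoL ρ g := rfl

/-- total mass of the densities -/
def mass (ρ : S → ℝ → ℂ) : ℝ := ∑ b, ∫ u, ‖ρ b u‖

lemma mass_nonneg (ρ : S → ℝ → ℂ) : 0 ≤ mass ρ :=
  Finset.sum_nonneg fun _ _ => integral_nonneg fun _ => norm_nonneg _

lemma norm_rhoL_le {g : S → ℝ → ℂ} {M : ℝ} (hρ : ∀ b, Integrable (ρ b))
    (hg : ∀ b u, ‖g b u‖ ≤ M) : ‖rhoL ρ g‖ ≤ mass ρ * M := by
  unfold rhoL mass
  rw [Finset.sum_mul]
  refine (norm_sum_le _ _).trans (Finset.sum_le_sum fun b _ => ?_)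
  rw [← integral_mul_const]
  refine norm_integral_le_of_norm_le ((hρ b).norm.mul_const M) (Filter.Eventually.of_forall fun u => ?_)
  rw [norm_mul]
  exact mul_le_mul_of_nonneg_left (hg b u) (norm_nonneg _)

lemma norm_cntL_le (sp : ι → S) {g : S → ℝ → ℂ} {M : ℝ} (hg : ∀ b u, ‖g b u‖ ≤ M) (t : ι → ℝ) :
    ‖cntL sp g t‖ ≤ Fintype.card ι * M := by
  unfold cntL
  refine (norm_sum_le _ _).trans ?_
  calc ∑ i, ‖g (sp i) (t i)‖ ≤ ∑ _i : ι, M := Finset.sum_le_sum fun i _ => hg _ _
    _ = _ := by simp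

variable [SFinite σ]

lemma meas_rhoL (hρ : ∀ b, Integrable (ρ b))
    (mA : ∀ b, StronglyMeasurable fun p : T × ℝ => A p.1 b p.2) :
    AEStronglyMeasurable (fun x => rhoL ρ (A x)) σ := by
  have key : ∀ b, AEStronglyMeasurable (fun x : T => ∫ u, ρ b u * A x b u) σ := by
    intro b
    have h1 : AEStronglyMeasurable (fun p : T × ℝ => ρ b p.2 * A p.1 b p.2) (σ.prod volume) :=
      ((hρ b).aestronglyMeasurable.comp_snd).mul (mA b).aestronglyMeasurable
    exact h1.integral_prod_right'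
  unfold rhoL
  exact Finset.aestronglyMeasurable_fun_sum _ fun b _ => key b

lemma meas_cntL (sp : ι → S) (mA : ∀ b, StronglyMeasurable fun p : T × ℝ => A p.1 b p.2)
    (t : ι → ℝ) : AEStronglyMeasurable (fun x => cntL sp (A x) t) σ := by
  unfold cntL
  refine Finset.aestronglyMeasurable_fun_sum _ fun i _ => ?_
  exact ((mA (sp i)).comp_measurable (by fun_prop : Measurable fun x : T => (x, t i))).aestronglyMeasurable

/-- products bounded by `C al be` are integrable -/
lemma int_of (hP : Integrable (fun x => al x * be x) σ) {f g : T → ℂ} {C D : ℝ}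
    (hf : AEStronglyMeasurable f σ) (hg : AEStronglyMeasurable g σ) (hC : 0 ≤ C)
    (bf : ∀ x, ‖f x‖ ≤ C * al x) (bg : ∀ x, ‖g x‖ ≤ D * be x) (h0 : ∀ x, 0 ≤ al x) :
    Integrable (fun x => f x * g x) σ := by
  refine (hP.const_mul (C * D)).mono' (hf.mul hg) (Filter.Eventually.of_forall fun x => ?_)
  rw [norm_mul]
  calc ‖f x‖ * ‖g x‖ ≤ (C * al x) * (D * be x) :=
        mul_le_mul (bf x) (bg x) (norm_nonneg _) (mul_nonneg hC (h0 x))
    _ = _ := by ring

theorem ProdRep.swap (h : ProdRep σ A B al be a) (has : ∀ b c s t, a b c s t = a c b t s) :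
    ProdRep σ B A be al a where
  mA := h.mB
  mB := h.mA
  bA := h.bB
  bB := h.bA
  int := by
    have := h.int
    simpa only [mul_comm] using this
  eq b c s t := by
    rw [has, h.eq]
    refine integral_congr_ae (Filter.Eventually.of_forall fun x => ?_)
    simp only [mul_comm]

lemma ProdRep.prod1 (h : ProdRep σ A B al be a) (hρ : ∀ b, Integrable (ρ b)) (b c : S) (s : ℝ) :
    Integrable (fun p : ℝ × T => A p.2 b s * (ρ c p.1 * B p.2 c p.1)) (volume.prod σ) := by
    have h1 : Integrable (fun p : ℝ × T => ‖ρ c p.1‖ * (al p.2 * be p.2)) (volume.prod σ) :=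
      (hρ c).norm.mul_prod h.int
    refine h1.mono' ?_ (Filter.Eventually.of_forall fun p => ?_)
    · have m1 : StronglyMeasurable fun p : ℝ × T => A p.2 b s :=
        (h.mA b).comp_measurable (by fun_prop : Measurable fun p : ℝ × T => (p.2, s))
      have m2 : StronglyMeasurable fun p : ℝ × T => B p.2 c p.1 :=
        (h.mB c).comp_measurable measurable_swap
      exact m1.aestronglyMeasurable.mul
        ((hρ c).aestronglyMeasurable.comp_fst.mul m2.aestronglyMeasurable)
    · rw [norm_mul, norm_mul]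
      have h2 := h.bA p.2 b s
      have h3 := h.bB p.2 c p.1
      calc ‖A p.2 b s‖ * (‖ρ c p.1‖ * ‖B p.2 c p.1‖) = ‖ρ c p.1‖ * (‖A p.2 b s‖ * ‖B p.2 c p.1‖) := by
            ring
        _ ≤ _ := mul_le_mul_of_nonneg_left
            (mul_le_mul h2 h3 (norm_nonneg _) ((norm_nonneg _).trans h2)) (norm_nonneg _)

lemma ProdRep.int1 (h : ProdRep σ A B al be a) (hρ : ∀ b, Integrable (ρ b)) (b c : S) (s : ℝ) :
    Integrable fun u => a b c s u * ρ c u := by
  have := (h.prod1 hρ b c s).integral_prod_left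
  refine this.congr (Filter.Eventually.of_forall fun u => ?_)
  simp only []
  rw [h.eq, ← integral_mul_const]
  refine integral_congr_ae (Filter.Eventually.of_forall fun x => ?_)
  simp only []
  ring

/-- **the smeared kernel** -/
theorem smr_prod (h : ProdRep σ A B al be a) (hρ : ∀ b, Integrable (ρ b)) (b : S) (s : ℝ) :
    smr ρ a b s = ∫ x, A x b s * rhoL ρ (B x) ∂σ := by
  have hint : ∀ c, Integrable (fun p : ℝ × T => A p.2 b s * (ρ c p.1 * B p.2 c p.1))
      (volume.prod σ) := fun c => h.prod1 hρ b c s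
  have hsw : ∀ c, ∫ u, a b c s u * ρ c u = ∫ x, A x b s * (∫ u, ρ c u * B x c u) ∂σ := by
    intro c
    have h1 := integral_integral_swap (f := fun u x => A x b s * (ρ c u * B x c u)) (hint c)
    have h2 : ∀ u, a b c s u * ρ c u = ∫ x, A x b s * (ρ c u * B x c u) ∂σ := by
      intro u
      rw [h.eq, ← integral_mul_const]
      refine integral_congr_ae (Filter.Eventually.of_forall fun x => ?_)
      simp only []
      ring
    simp_rw [h2]
    rw [h1]
    refine integral_congr_ae (Filter.Eventually.of_forall fun x => ?_)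
    simp only []
    rw [integral_const_mul]
  unfold smr rhoL
  simp_rw [hsw, Finset.mul_sum]
  rw [integral_finsetSum]
  intro c _
  have := (hint c).integral_prod_right
  refine this.congr (Filter.Eventually.of_forall fun x => ?_)
  simp only []
  rw [integral_const_mul]

theorem smr_prod' (h : ProdRep σ A B al be a) (has : ∀ b c s t, a b c s t = a c b t s)
    (hρ : ∀ b, Integrable (ρ b)) (b : S) (s : ℝ) :
    smr ρ a b s = ∫ x, rhoL ρ (A x) * B x b s ∂σ := by
  rw [smr_prod (h.swap has) hρ]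
  refine integral_congr_ae (Filter.Eventually.of_forall fun x => ?_)
  simp only [mul_comm]

lemma ProdRep.prod2 (h : ProdRep σ A B al be a) (hρ : ∀ b, Integrable (ρ b)) (b : S) :
    Integrable (fun p : ℝ × T => (ρ b p.1 * A p.2 b p.1) * rhoL ρ (B p.2)) (volume.prod σ) := by
    have h1 : Integrable (fun p : ℝ × T => ‖ρ b p.1‖ * (mass ρ * (al p.2 * be p.2)))
        (volume.prod σ) := (hρ b).norm.mul_prod (h.int.const_mul _)
    refine h1.mono' ?_ (Filter.Eventually.of_forall fun p => ?_)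
    · have m2 : StronglyMeasurable fun p : ℝ × T => A p.2 b p.1 :=
        (h.mA b).comp_measurable measurable_swap
      exact ((hρ b).aestronglyMeasurable.comp_fst.mul m2.aestronglyMeasurable).mul
        (meas_rhoL hρ h.mB).comp_snd
    · rw [norm_mul, norm_mul]
      have h2 := h.bA p.2 b p.1
      have h3 := norm_rhoL_le (g := B p.2) hρ (fun b u => h.bB p.2 b u)
      calc ‖ρ b p.1‖ * ‖A p.2 b p.1‖ * ‖rhoL ρ (B p.2)‖ ≤
            ‖ρ b p.1‖ * al p.2 * (mass ρ * be p.2) := by
            refine mul_le_mul (mul_le_mul_of_nonneg_left h2 (norm_nonneg _)) h3 (norm_nonneg _) ?_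
            exact mul_nonneg (norm_nonneg _) ((norm_nonneg _).trans h2)
        _ = _ := by ring

lemma ProdRep.int2 (h : ProdRep σ A B al be a) (hρ : ∀ b, Integrable (ρ b)) (b : S) :
    Integrable fun s => ρ b s * smr ρ a b s := by
  have := (h.prod2 hρ b).integral_prod_left
  refine this.congr (Filter.Eventually.of_forall fun s => ?_)
  simp only []
  rw [smr_prod h hρ, ← integral_const_mul]
  refine integral_congr_ae (Filter.Eventually.of_forall fun x => ?_)
  simp only []
  ring

/-- **the double integral** -/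
theorem dbl_prod (h : ProdRep σ A B al be a) (hρ : ∀ b, Integrable (ρ b)) :
    dbl ρ a = ∫ x, rhoL ρ (A x) * rhoL ρ (B x) ∂σ := by
  have hint : ∀ b, Integrable (fun p : ℝ × T => (ρ b p.1 * A p.2 b p.1) * rhoL ρ (B p.2))
      (volume.prod σ) := fun b => h.prod2 hρ b
  have hsw : ∀ b, ∫ s, ρ b s * smr ρ a b s =
      ∫ x, (∫ s, ρ b s * A x b s) * rhoL ρ (B x) ∂σ := by
    intro b
    have h1 := integral_integral_swap
      (f := fun s x => (ρ b s * A x b s) * rhoL ρ (B x)) (hint b)
    have h2 : ∀ s, ρ b s * smr ρ a b s = ∫ x, (ρ b s * A x b s) * rhoL ρ (B x) ∂σ := by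
      intro s
      rw [smr_prod h hρ, ← integral_const_mul]
      refine integral_congr_ae (Filter.Eventually.of_forall fun x => ?_)
      simp only []
      ring
    simp_rw [h2]
    rw [h1]
    refine integral_congr_ae (Filter.Eventually.of_forall fun x => ?_)
    simp only []
    rw [integral_mul_const]
  unfold dbl
  simp_rw [hsw]
  rw [← integral_finsetSum]
  · refine integral_congr_ae (Filter.Eventually.of_forall fun x => ?_)
    simp only []
    rw [← Finset.sum_mul]
    rfl
  · intro b _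
    have := (hint b).integral_prod_right
    refine this.congr (Filter.Eventually.of_forall fun x => ?_)
    simp only []
    rw [integral_mul_const]

variable [Nonempty S]

/-- **the quadratic statistic of a product kernel** -/
theorem nuQ_prod (h : ProdRep σ A B al be a) (has : ∀ b c s t, a b c s t = a c b t s)
    (hρ : ∀ b, Integrable (ρ b)) (sp : ι → S) (t : ι → ℝ) :
    Integrable (fun x => nuL sp ρ (A x) t * nuL sp ρ (B x) t) σ ∧
    nuQ sp ρ a t = (1 / 2) * ∫ x, nuL sp ρ (A x) t * nuL sp ρ (B x) t ∂σ := by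
  have h0 : ∀ x, 0 ≤ al x := fun x =>
    (norm_nonneg _).trans (h.bA x (Classical.arbitrary S) 0)
  set n : ℝ := (Fintype.card ι : ℝ) with hn
  have hn0 : 0 ≤ n := Nat.cast_nonneg _
  have mcA := meas_cntL (σ := σ) sp h.mA t
  have mcB := meas_cntL (σ := σ) sp h.mB t
  have mrA := meas_rhoL (σ := σ) hρ h.mA
  have mrB := meas_rhoL (σ := σ) hρ h.mB
  have bcA : ∀ x, ‖cntL sp (A x) t‖ ≤ n * al x := fun x => norm_cntL_le sp (h.bA x) t
  have bcB : ∀ x, ‖cntL sp (B x) t‖ ≤ n * be x := fun x => norm_cntL_le sp (h.bB x) t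
  have brA : ∀ x, ‖rhoL ρ (A x)‖ ≤ mass ρ * al x := fun x => norm_rhoL_le hρ (h.bA x)
  have brB : ∀ x, ‖rhoL ρ (B x)‖ ≤ mass ρ * be x := fun x => norm_rhoL_le hρ (h.bB x)
  have i1 : Integrable (fun x => cntL sp (A x) t * cntL sp (B x) t) σ :=
    int_of h.int mcA mcB hn0 bcA bcB h0
  have i2 : Integrable (fun x => cntL sp (A x) t * rhoL ρ (B x)) σ :=
    int_of h.int mcA mrB hn0 bcA brB h0
  have i3 : Integrable (fun x => rhoL ρ (A x) * cntL sp (B x) t) σ :=
    int_of h.int mrA mcB (mass_nonneg ρ) brA bcB h0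
  have i4 : Integrable (fun x => rhoL ρ (A x) * rhoL ρ (B x)) σ :=
    int_of h.int mrA mrB (mass_nonneg ρ) brA brB h0
  have e1 : ∑ i, ∑ j, a (sp i) (sp j) (t i) (t j) = ∫ x, cntL sp (A x) t * cntL sp (B x) t ∂σ := by
    have hp : ∀ i j, Integrable (fun x => A x (sp i) (t i) * B x (sp j) (t j)) σ := by
      intro i j
      refine int_of h.int (C := 1) (D := 1) ?_ ?_ zero_le_one ?_ ?_ h0
      · exact ((h.mA (sp i)).comp_measurable
          (by fun_prop : Measurable fun x : T => (x, t i))).aestronglyMeasurable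
      · exact ((h.mB (sp j)).comp_measurable
          (by fun_prop : Measurable fun x : T => (x, t j))).aestronglyMeasurable
      · intro x; rw [one_mul]; exact h.bA _ _ _
      · intro x; rw [one_mul]; exact h.bB _ _ _
    simp_rw [h.eq]
    have e : ∀ x, cntL sp (A x) t * cntL sp (B x) t =
        ∑ i, ∑ j, A x (sp i) (t i) * B x (sp j) (t j) := by
      intro x
      unfold cntL
      rw [Finset.sum_mul_sum]
    simp_rw [e]
    rw [integral_finsetSum _ fun i _ => integrable_finsetSum _ fun j _ => hp i j]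
    refine Finset.sum_congr rfl fun i _ => ?_
    rw [integral_finsetSum _ fun j _ => hp i j]
  have e2 : ∑ i, smr ρ a (sp i) (t i) = ∫ x, cntL sp (A x) t * rhoL ρ (B x) ∂σ := by
    simp_rw [smr_prod h hρ]
    unfold cntL
    simp_rw [Finset.sum_mul]
    rw [integral_finsetSum]
    intro i _
    refine int_of h.int (C := 1) (D := mass ρ) ?_ mrB zero_le_one ?_ brB h0
    · exact ((h.mA (sp i)).comp_measurable
          (by fun_prop : Measurable fun x : T => (x, t i))).aestronglyMeasurable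
    · intro x; rw [one_mul]; exact h.bA _ _ _
  have e3 : ∑ i, smr ρ a (sp i) (t i) = ∫ x, rhoL ρ (A x) * cntL sp (B x) t ∂σ := by
    simp_rw [smr_prod' h has hρ]
    unfold cntL
    simp_rw [Finset.mul_sum]
    rw [integral_finsetSum]
    intro i _
    refine int_of h.int (C := mass ρ) (D := 1) mrA ?_ (mass_nonneg ρ) brA ?_ h0
    · exact ((h.mB (sp i)).comp_measurable
          (by fun_prop : Measurable fun x : T => (x, t i))).aestronglyMeasurable
    · intro x; rw [one_mul]; exact h.bB _ _ _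
  have e4 := dbl_prod h hρ
  have ex : ∀ x, nuL sp ρ (A x) t * nuL sp ρ (B x) t =
      cntL sp (A x) t * cntL sp (B x) t - cntL sp (A x) t * rhoL ρ (B x) -
        rhoL ρ (A x) * cntL sp (B x) t + rhoL ρ (A x) * rhoL ρ (B x) := by
    intro x
    rw [nuL_eq', nuL_eq']
    ring
  simp_rw [ex]
  have i12 : Integrable (fun x => cntL sp (A x) t * cntL sp (B x) t -
      cntL sp (A x) t * rhoL ρ (B x)) σ := i1.sub i2
  have i123 : Integrable (fun x => cntL sp (A x) t * cntL sp (B x) t -
      cntL sp (A x) t * rhoL ρ (B x) - rhoL ρ (A x) * cntL sp (B x) t) σ := i12.sub i3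
  refine ⟨i123.add i4, ?_⟩
  rw [integral_add i123 i4, integral_sub i12 i3, integral_sub i1 i2, ← e1, ← e2, ← e3, ← e4]
  unfold nuQ
  ring

end

/-! ### linearity of `nuQ` in the kernel -/

section

variable {a a' : S → S → ℝ → ℝ → ℂ} {ρ : S → ℝ → ℂ}

theorem smr_add (h : ∀ b c s, Integrable fun u => a b c s u * ρ c u)
    (h' : ∀ b c s, Integrable fun u => a' b c s u * ρ c u) (b : S) (s : ℝ) :
    smr ρ (fun b c s t => a b c s t + a' b c s t) b s = smr ρ a b s + smr ρ a' b s := by
  unfold smr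
  rw [← Finset.sum_add_distrib]
  refine Finset.sum_congr rfl fun c _ => ?_
  rw [← integral_add (h b c s) (h' b c s)]
  refine integral_congr_ae (Filter.Eventually.of_forall fun u => ?_)
  simp only []
  ring

theorem nuQ_add (sp : ι → S) (h : ∀ b c s, Integrable fun u => a b c s u * ρ c u)
    (h' : ∀ b c s, Integrable fun u => a' b c s u * ρ c u)
    (k : ∀ b, Integrable fun s => ρ b s * smr ρ a b s)
    (k' : ∀ b, Integrable fun s => ρ b s * smr ρ a' b s) (t : ι → ℝ) :
    nuQ sp ρ (fun b c s t => a b c s t + a' b c s t) t = nuQ sp ρ a t + nuQ sp ρ a' t := by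
  have e := smr_add h h'
  have e1 : dbl ρ (fun b c s t => a b c s t + a' b c s t) = dbl ρ a + dbl ρ a' := by
    unfold dbl
    rw [← Finset.sum_add_distrib]
    refine Finset.sum_congr rfl fun b _ => ?_
    rw [← integral_add (k b) (k' b)]
    refine integral_congr_ae (Filter.Eventually.of_forall fun u => ?_)
    simp only []
    rw [e]
    ring
  unfold nuQ
  rw [e1]
  simp_rw [e, Finset.sum_add_distrib]
  ring

theorem smr_smul (c : ℂ) (b : S) (s : ℝ) :
    smr ρ (fun b c' s t => c * a b c' s t) b s = c * smr ρ a b s := by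
  unfold smr
  rw [Finset.mul_sum]
  refine Finset.sum_congr rfl fun c' _ => ?_
  rw [← integral_const_mul]
  refine integral_congr_ae (Filter.Eventually.of_forall fun u => ?_)
  simp only []
  ring

theorem nuQ_smul (sp : ι → S) (c : ℂ) (t : ι → ℝ) :
    nuQ sp ρ (fun b c' s t => c * a b c' s t) t = c * nuQ sp ρ a t := by
  have e1 : dbl ρ (fun b c' s t => c * a b c' s t) = c * dbl ρ a := by
    unfold dbl
    rw [Finset.mul_sum]
    refine Finset.sum_congr rfl fun b _ => ?_
    rw [← integral_const_mul]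
    refine integral_congr_ae (Filter.Eventually.of_forall fun u => ?_)
    simp only []
    rw [smr_smul]
    ring
  unfold nuQ
  rw [e1]
  simp_rw [smr_smul, ← Finset.mul_sum]
  ring

end

/-! ### channels -/

/-- linear statistic with charges `e` -/
def nuE (sp : ι → S) (ρ : S → ℝ → ℂ) (e : S → ℂ) (g : ℝ → ℂ) (t : ι → ℝ) : ℂ :=
  nuL sp ρ (fun b s => e b * g s) t

/-- product representation of a scalar kernel -/
structure ProdRep1 (σ : Measure T) (A B : T → ℝ → ℂ) (al be : T → ℝ) (H : ℝ → ℝ → ℂ) : Prop where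
  mA : StronglyMeasurable fun p : T × ℝ => A p.1 p.2
  mB : StronglyMeasurable fun p : T × ℝ => B p.1 p.2
  bA : ∀ x s, ‖A x s‖ ≤ al x
  bB : ∀ x s, ‖B x s‖ ≤ be x
  int : Integrable (fun x => al x * be x) σ
  eq : ∀ s t, H s t = ∫ x, A x s * B x t ∂σ

/-- a scalar kernel with charges -/
theorem ProdRep1.lift {A B : T → ℝ → ℂ} {al be : T → ℝ} {H : ℝ → ℝ → ℂ}
    (h : ProdRep1 σ A B al be H) {e : S → ℂ} (he : ∀ b, ‖e b‖ ≤ 1) :
    ProdRep σ (fun x b s => e b * A x s) (fun x b s => e b * B x s) al be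
      (fun b c s t => e b * e c * H s t) where
  mA b := h.mA.const_mul (e b)
  mB b := h.mB.const_mul (e b)
  bA x b s := by
    rw [norm_mul]
    calc ‖e b‖ * ‖A x s‖ ≤ 1 * ‖A x s‖ := mul_le_mul_of_nonneg_right (he b) (norm_nonneg _)
      _ ≤ al x := by rw [one_mul]; exact h.bA x s
  bB x b s := by
    rw [norm_mul]
    calc ‖e b‖ * ‖B x s‖ ≤ 1 * ‖B x s‖ := mul_le_mul_of_nonneg_right (he b) (norm_nonneg _)
      _ ≤ be x := by rw [one_mul]; exact h.bB x s
  int := h.int
  eq b c s t := by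
    rw [h.eq, ← integral_const_mul]
    refine integral_congr_ae (Filter.Eventually.of_forall fun x => ?_)
    simp only []
    ring

/-- **one channel**: `nuQ (e e H) = ½ ∫ ν_e(A x) ν_e(B x) dσ` -/
theorem nuQ_one [Nonempty S] [SFinite σ] {A B : T → ℝ → ℂ} {al be : T → ℝ} {H : ℝ → ℝ → ℂ}
    (h : ProdRep1 σ A B al be H) (hs : ∀ s t, H s t = H t s) {e : S → ℂ} (he : ∀ b, ‖e b‖ ≤ 1)
    {ρ : S → ℝ → ℂ} (hρ : ∀ b, Integrable (ρ b)) (sp : ι → S) (t : ι → ℝ) :
    Integrable (fun x => nuE sp ρ e (A x) t * nuE sp ρ e (B x) t) σ ∧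
    nuQ sp ρ (fun b c s t => e b * e c * H s t) t =
      (1 / 2) * ∫ x, nuE sp ρ e (A x) t * nuE sp ρ e (B x) t ∂σ :=
  nuQ_prod (h.lift he) (fun b c s t => by rw [hs s t]; ring) hρ sp t

/-- **the channel split**: kernel `½ (e e H + f f H') + r` -/
theorem nuQ_chan {T' : Type*} [MeasurableSpace T'] {σ' : Measure T'} [Nonempty S] [SFinite σ]
    [SFinite σ'] {A B : T → ℝ → ℂ} {al be : T → ℝ} {H : ℝ → ℝ → ℂ}
    {A' B' : T' → ℝ → ℂ} {al' be' : T' → ℝ} {H' : ℝ → ℝ → ℂ}
    (h : ProdRep1 σ A B al be H) (hs : ∀ s t, H s t = H t s)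
    (h' : ProdRep1 σ' A' B' al' be' H') (hs' : ∀ s t, H' s t = H' t s)
    {e f : S → ℂ} (he : ∀ b, ‖e b‖ ≤ 1) (hf : ∀ b, ‖f b‖ ≤ 1)
    {ρ : S → ℝ → ℂ} (hρ : ∀ b, Integrable (ρ b)) {r a : S → S → ℝ → ℝ → ℂ}
    (hr1 : ∀ b c s, Integrable fun u => r b c s u * ρ c u)
    (hr2 : ∀ b, Integrable fun s => ρ b s * smr ρ r b s)
    (ha : ∀ b c s t, a b c s t = (1 / 2) * (e b * e c * H s t + f b * f c * H' s t) + r b c s t)
    (sp : ι → S) (t : ι → ℝ) :
    nuQ sp ρ a t = (1 / 4) * (∫ x, nuE sp ρ e (A x) t * nuE sp ρ e (B x) t ∂σ) +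
      (1 / 4) * (∫ x, nuE sp ρ f (A' x) t * nuE sp ρ f (B' x) t ∂σ') + nuQ sp ρ r t := by
  have ea : a = fun b c s t => (1 / 2) * (e b * e c * H s t + f b * f c * H' s t) + r b c s t := by
    funext b c s t
    exact ha b c s t
  have p1 := h.lift he
  have p2 := h'.lift hf
  have i1 := fun b c s => p1.int1 (ρ := ρ) hρ b c s
  have i2 := fun b c s => p2.int1 (ρ := ρ) hρ b c s
  have j1 := fun b => p1.int2 (ρ := ρ) hρ b
  have j2 := fun b => p2.int2 (ρ := ρ) hρ b
  have k1 : ∀ b c s, Integrable fun u =>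
      (e b * e c * H s u + f b * f c * H' s u) * ρ c u := by
    intro b c s
    refine ((i1 b c s).add (i2 b c s)).congr (Filter.Eventually.of_forall fun u => ?_)
    simp only [Pi.add_apply]
    ring
  have k2 : ∀ b, Integrable fun s => ρ b s *
      smr ρ (fun b c s t => e b * e c * H s t + f b * f c * H' s t) b s := by
    intro b
    refine ((j1 b).add (j2 b)).congr (Filter.Eventually.of_forall fun u => ?_)
    simp only [Pi.add_apply]
    rw [smr_add i1 i2]
    ring
  have l1 : ∀ b c s, Integrable fun u =>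
      (1 / 2) * (e b * e c * H s u + f b * f c * H' s u) * ρ c u := by
    intro b c s
    refine ((k1 b c s).const_mul (1 / 2)).congr (Filter.Eventually.of_forall fun u => ?_)
    simp only []
    ring
  have l2 : ∀ b, Integrable fun s => ρ b s *
      smr ρ (fun b c s t => (1 / 2) * (e b * e c * H s t + f b * f c * H' s t)) b s := by
    intro b
    refine ((k2 b).const_mul (1 / 2)).congr (Filter.Eventually.of_forall fun u => ?_)
    simp only []
    rw [smr_smul]
    ring
  rw [ea, nuQ_add sp l1 hr1 l2 hr2, nuQ_smul, nuQ_add sp i1 i2 j1 j2, (nuQ_one h hs he hρ sp t).2,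
    (nuQ_one h' hs' hf hρ sp t).2]
  ring

/-- finite rank kernels -/
theorem ProdRep1.fin {n : ℕ} {p q : Fin n → ℝ → ℂ} {P Q : Fin n → ℝ}
    (hp : ∀ k, Measurable (p k)) (hq : ∀ k, Measurable (q k)) (bp : ∀ k s, ‖p k s‖ ≤ P k)
    (bq : ∀ k s, ‖q k s‖ ≤ Q k) :
    ProdRep1 (Measure.count : Measure (Fin n)) p q P Q (fun s t => ∑ k, p k s * q k t) where
  mA := (measurable_from_prod_countable_right fun k => hp k).stronglyMeasurable
  mB := (measurable_from_prod_countable_right fun k => hq k).stronglyMeasurable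
  bA := bp
  bB := bq
  int := Integrable.of_finite
  eq s t := by rw [integral_countable Integrable.of_finite]; simp

/-- `nuQ` of a finite linear combination of kernels -/
theorem nuQ_sum {κ : Type*} (J : Finset κ) {ρ : S → ℝ → ℂ} {a : κ → S → S → ℝ → ℝ → ℂ}
    (w : κ → ℂ) (h1 : ∀ k b c s, Integrable fun u => a k b c s u * ρ c u)
    (h2 : ∀ k b, Integrable fun s => ρ b s * smr ρ (a k) b s) (sp : ι → S) (t : ι → ℝ) :
    (∀ b c s, Integrable fun u => (∑ k ∈ J, w k * a k b c s u) * ρ c u) ∧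
    (∀ b, Integrable fun s => ρ b s * smr ρ (fun b c s t => ∑ k ∈ J, w k * a k b c s t) b s) ∧
    nuQ sp ρ (fun b c s t => ∑ k ∈ J, w k * a k b c s t) t = ∑ k ∈ J, w k * nuQ sp ρ (a k) t := by
  induction J using Finset.induction_on with
  | empty =>
    refine ⟨fun b c s => by simp, fun b => by simp [smr], ?_⟩
    simp [nuQ, smr, dbl]
  | insert k J hk ih =>
    obtain ⟨i1, i2, e⟩ := ih
    have e1 : (fun (b c : S) (s t : ℝ) => ∑ k ∈ insert k J, w k * a k b c s t) =
        fun b c s t => w k * a k b c s t + ∑ k ∈ J, w k * a k b c s t := by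
      funext b c s t
      rw [Finset.sum_insert hk]
    have j1 : ∀ b c s, Integrable fun u => w k * a k b c s u * ρ c u := by
      intro b c s
      refine ((h1 k b c s).const_mul (w k)).congr (Filter.Eventually.of_forall fun u => ?_)
      simp only []
      ring
    have j2 : ∀ b, Integrable fun s => ρ b s * smr ρ (fun b c s t => w k * a k b c s t) b s := by
      intro b
      refine ((h2 k b).const_mul (w k)).congr (Filter.Eventually.of_forall fun u => ?_)
      simp only []
      rw [smr_smul]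
      ring
    refine ⟨fun b c s => ?_, fun b => ?_, ?_⟩
    · refine ((j1 b c s).add (i1 b c s)).congr (Filter.Eventually.of_forall fun u => ?_)
      simp only [Pi.add_apply]
      rw [Finset.sum_insert hk]
      ring
    · rw [e1]
      refine ((j2 b).add (i2 b)).congr (Filter.Eventually.of_forall fun u => ?_)
      simp only [Pi.add_apply]
      rw [smr_add j1 i1]
      ring
    · rw [e1, nuQ_add sp j1 i1 j2 i2, nuQ_smul, e, Finset.sum_insert hk]

/-- **any number of channels**: kernel `∑ k, w k * (e_k e_k H_k) + r` -/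
theorem nuQ_chans {κ : Type*} (J : Finset κ) {U : κ → Type*} [∀ k, MeasurableSpace (U k)]
    {σ : ∀ k, Measure (U k)} [Nonempty S] [∀ k, SFinite (σ k)]
    {A B : ∀ k, U k → ℝ → ℂ} {al be : ∀ k, U k → ℝ} {H : κ → ℝ → ℝ → ℂ}
    (h : ∀ k, ProdRep1 (σ k) (A k) (B k) (al k) (be k) (H k)) (hs : ∀ k s t, H k s t = H k t s)
    {e : κ → S → ℂ} (he : ∀ k b, ‖e k b‖ ≤ 1) (w : κ → ℂ)
    {ρ : S → ℝ → ℂ} (hρ : ∀ b, Integrable (ρ b)) {r a : S → S → ℝ → ℝ → ℂ}
    (hr1 : ∀ b c s, Integrable fun u => r b c s u * ρ c u)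
    (hr2 : ∀ b, Integrable fun s => ρ b s * smr ρ r b s)
    (ha : ∀ b c s t, a b c s t = (∑ k ∈ J, w k * (e k b * e k c * H k s t)) + r b c s t)
    (sp : ι → S) (t : ι → ℝ) :
    nuQ sp ρ a t = (∑ k ∈ J, w k * ((1 / 2) * ∫ x, nuE sp ρ (e k) (A k x) t *
      nuE sp ρ (e k) (B k x) t ∂(σ k))) + nuQ sp ρ r t := by
  have ea : a = fun b c s t => (∑ k ∈ J, w k * (e k b * e k c * H k s t)) + r b c s t := by
    funext b c s t
    exact ha b c s t
  obtain ⟨i1, i2, e1⟩ := nuQ_sum J (ρ := ρ) (a := fun k b c s t => e k b * e k c * H k s t) w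
    (fun k b c s => ((h k).lift (he k)).int1 hρ b c s)
    (fun k b => ((h k).lift (he k)).int2 hρ b) sp t
  rw [ea, nuQ_add sp i1 hr1 i2 hr2, e1]
  congr 1
  exact Finset.sum_congr rfl fun k _ => by rw [(nuQ_one (h k) (hs k) (he k) hρ sp t).2]

/-- the two species `X`, `Y` of the type A gas: own kernel `kw`, cross kernel `kg` -/
theorem two_chan {e f : S → ℂ} {X Y : S} (eX : e X = 1) (eY : e Y = 1) (fX : f X = 1)
    (fY : f Y = -1) (kw kg : ℂ) :
    kw = (1 / 2) * (e X * e X * (kw + kg) + f X * f X * (kw - kg)) ∧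
    kg = (1 / 2) * (e X * e Y * (kw + kg) + f X * f Y * (kw - kg)) ∧
    kg = (1 / 2) * (e Y * e X * (kw + kg) + f Y * f X * (kw - kg)) ∧
    kw = (1 / 2) * (e Y * e Y * (kw + kg) + f Y * f Y * (kw - kg)) := by
  rw [eX, eY, fX, fY]
  refine ⟨by ring, by ring, by ring, by ring⟩

end PB
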