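import Pool.Agent.PB.InsFF
import Pool.Agent.PB.TRsA

/-!
# Plan B: products of linear statistics: straight lines = curves

* `ClZ`: the class of one body data (hypotheses of `F0_ZobjQ` and `FF_one`), `Adm`: admissible
  statistics; `ClZ.tw`: the class is closed under `tw`;
* **`ins_list`**: `F0 Z (∏ St a) = FF Z (∏ StF a)` for every list of admissible statistics;
* `StF_stA`: `StF = stA` (`TRsA`); `AdS`, `ins_listA`, `ins_one`, `ins_two`: the same with `stA`.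
-/

set_option autoImplicit false
set_option linter.unusedSectionVars false

noncomputable section

open Complex MeasureTheory Finset
open scoped ENNReal

namespace PBF

open NUO NUP1 NUCR NUP1S NUP1S.Ab NUP1S.AbC NUGC PBFunc PBC
open PBI (Stt tw F0 fl)

/-! ### the class -/

/-- **the class of one body data** -/
structure ClZ (Z : Stt) (P : NUO.Par) (x0 κ κ' δ : ℝ) (Q : ℤ) : Prop where
  m : ∀ s k, Measurable (Z s k)
  d : ∀ s, ∀ u : ℂ, x0 ≤ u.re → u.re ≤ NUP1.l → DifferentiableAt ℂ (Z s none) u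
  dec : DecZ Z P x0 κ Q
  q : QOk Z δ κ' Q

/-- **admissible statistics** -/
structure Adm (a : Stt) (P : NUO.Par) (x0 δ C : ℝ) : Prop where
  m : ∀ s k, Measurable (a s k)
  d : ∀ s, ∀ u : ℂ, x0 ≤ u.re → u.re ≤ (1 + δ) * NUP1.l → DifferentiableAt ℂ (a s none) u
  A : ∀ s (u : ℂ), x0 ≤ u.re → u.re ≤ (1 + δ) * NUP1.l → ‖a s none u‖ ≤ C
  L : ∀ s (u : ℂ), u.re = (1 - P.jL) * NUP1.l → ‖a s (some .L) u‖ ≤ C
  T : ∀ s (u : ℂ), u.re = -(1 / 2 * NUP1.l) → ‖a s (some .T) u‖ ≤ C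
  S : ∀ s (r : ℕ) (e : ℝ) (u : ℂ), P.e ≤ e → e ≤ P.e + P.d r → u.re = -((1 + e) * NUP1.l) →
    ‖a s (some .S) u‖ ≤ C

theorem decOn_mul {κ : ℝ} {K : Set ℝ} {f g : ℂ → ℂ} {B : ℝ} (h : DecOn κ K f)
    (hg : ∀ z : ℂ, z.re ∈ K → ‖g z‖ ≤ B) : DecOn κ K (fun z => f z * g z) := by
  obtain ⟨D, hD⟩ := h
  refine ⟨|D| * |B|, fun z hz => ?_⟩
  rw [norm_mul]
  have h1 := (hD z hz).trans (mul_le_mul_of_nonneg_right (le_abs_self D) (Real.exp_pos _).le)
  have h2 := (hg z hz).trans (le_abs_self B)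
  calc _ ≤ (|D| * Real.exp (-(κ * |z.im|))) * |B| :=
        mul_le_mul h1 h2 (norm_nonneg _) (by positivity)
    _ = _ := by ring

theorem bdd_mul {σ : ℝ} {K : Set ℝ} {f g : ℂ → ℂ} {B : ℝ} (h : Bdd K σ f)
    (hg : ∀ z : ℂ, z.re ∈ K → ‖g z‖ ≤ B) : Bdd K σ (fun z => f z * g z) := by
  obtain ⟨D, hD0, hD⟩ := h
  refine ⟨D * |B|, by positivity, fun z hz => ?_⟩
  rw [norm_mul]
  calc _ ≤ (D * Real.exp (σ * |z.im|)) * |B| :=
        mul_le_mul (hD z hz) ((hg z hz).trans (le_abs_self B)) (norm_nonneg _) (by positivity)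
    _ = _ := by ring

variable {Z a : Stt} {P : NUO.Par} {x0 κ κ' δ C : ℝ} {Q : ℤ} {n n' : ℕ} {η η' : Crs}

theorem norm_tw_le {z : ℂ} (hz : ‖z‖ ≤ C) (ε : ℂ) : ‖1 + ε * z‖ ≤ 1 + ‖ε‖ * C := by
  refine (norm_add_le _ _).trans ?_
  rw [norm_one, norm_mul]
  have := mul_le_mul_of_nonneg_left hz (norm_nonneg ε)
  linarith

/-- line of the strings -/
theorem lnO_S (h : GoodP P) {r i : ℕ} (hi : i < r) : ∃ e : ℝ, P.e ≤ e ∧ e ≤ P.e + P.d r ∧
    lnO P r i .S = -((1 + e) * NUP1.l) := by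
  have hr : (0 : ℝ) < r := by exact_mod_cast (Nat.zero_le _).trans_lt hi
  have h0 := h.d0 r
  have h1 : (0 : ℝ) ≤ (i : ℝ) / r := by positivity
  have h2 : (i : ℝ) / r ≤ 1 := by
    rw [div_le_one hr]
    exact_mod_cast hi.le
  exact ⟨P.e + P.d r * ((i : ℝ) / r), by nlinarith, by nlinarith, rfl⟩

/-- **the class is closed under `tw`** -/
theorem ClZ.tw (h : ClZ Z P x0 κ κ' δ Q) (ha : Adm a P x0 δ C) (hP : GoodP P)
    (hx0 : x0 ≤ 19 / 20 * NUP1.l) (hδ0 : 0 ≤ δ) (ε : ℂ) :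
    ClZ (PBI.tw Z a ε) P x0 κ κ' δ Q := by
  have hl := Bd.l_pos
  have hle : NUP1.l ≤ (1 + δ) * NUP1.l := by nlinarith
  refine ⟨fun s k => (h.m s k).mul (((ha.m s k).const_mul ε).const_add 1), fun s u h1 h2 => ?_,
    ⟨fun s => ?_, fun s => ?_, fun s => ?_, fun s r i hi => ?_⟩, ⟨h.q.kpos, fun s => ?_,
      fun s u hu => ?_, fun s => ?_⟩⟩
  · exact (h.d s u h1 h2).mul (((ha.d s u h1 (h2.trans hle)).const_mul ε).const_add 1)
  · exact decOn_mul (h.dec.A s) (B := 1 + ‖ε‖ * C) fun z hz =>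
      norm_tw_le (ha.A s z hz.1 (hz.2.trans hle)) ε
  · exact decOn_mul (h.dec.L s) (B := 1 + ‖ε‖ * C) fun z hz => norm_tw_le (ha.L s z hz) ε
  · exact decOn_mul (h.dec.T s) (B := 1 + ‖ε‖ * C) fun z hz => norm_tw_le (ha.T s z hz) ε
  · obtain ⟨e, e1, e2, e3⟩ := lnO_S hP hi
    exact decOn_mul (h.dec.S s r i hi) (B := 1 + ‖ε‖ * C) fun z hz =>
      norm_tw_le (ha.S s r e z e1 e2 ((Set.mem_singleton_iff.1 hz).trans e3)) ε
  · exact (h.q.m s).mul (((ha.m s none).const_mul ε).const_add 1)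
  · exact (h.q.d s u hu).mul (((ha.d s u (hx0.trans hu.1) hu.2).const_mul ε).const_add 1)
  · exact bdd_mul (h.q.b s) (B := 1 + ‖ε‖ * C) fun z hz =>
      norm_tw_le (ha.A s z (hx0.trans hz.1) hz.2) ε

/-- admissible statistics are bounded on the straight lines -/
theorem Adm.sok (ha : Adm a P x0 δ C) (hP : GoodP P) (hx0 : x0 ≤ NUP1.l) (hδ0 : 0 ≤ δ)
    (n n' : ℕ) : PBI.SOk x0 n n' (fl P) a := by
  have hl := Bd.l_pos
  have hle : NUP1.l ≤ (1 + δ) * NUP1.l := by nlinarith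
  refine ⟨|C|, abs_nonneg _, fun p p' k k' _ _ => ⟨ha.m, fun i t => ?_⟩⟩
  have hA : ∀ s, ‖a s none (vl x0 t)‖ ≤ |C| := fun s =>
    (ha.A s _ (by rw [NUO.vl_re59]) (by rw [NUO.vl_re59]; linarith)).trans (le_abs_self C)
  have hO : ∀ (s : Bool) (o : O3) (j : ℕ), j < p + p' →
      ‖a s (some o) (vl (lnO P (p + p') j o) t)‖ ≤ |C| := by
    intro s o j hj
    refine le_trans ?_ (le_abs_self C)
    cases o
    · exact ha.L s _ (NUO.vl_re59 _ _)
    · obtain ⟨e, e1, e2, e3⟩ := lnO_S hP hj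
      exact ha.S s _ e _ e1 e2 ((NUO.vl_re59 _ _).trans e3)
    · exact ha.T s _ (NUO.vl_re59 _ _)
  rcases i with (i | i) | (i | i)
  · exact hA true
  · exact hO true (k i) i (i.2.trans_le (Nat.le_add_right _ _))
  · exact hA false
  · exact hO false (k' i) i (i.2.trans_le (Nat.le_add_left _ _))

/-- admissible statistics are bounded at all constituents -/
theorem Adm.cbd (ha : Adm a P x0 δ C) (h : GoodQ P x0) (hx0 : x0 ≤ 19 / 20 * NUP1.l)
    (hδ0 : 0 ≤ δ) {N : ℕ} (hη : ∀ r ≤ N, ∀ O, CrvR δ (η r O) (η' r O)) : CBd a P η N C := by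
  have hl := Bd.l_pos
  intro r hr O m m' x c hc
  have hsat : ∀ (s : Bool) (i : Fin r) (u : ℂ), |u.re - (1 - ei P O i) * NUP1.l| ≤
      NUP1.l * P.d r / 8 → ‖a s none u‖ ≤ C := by
    intro s i u hu
    obtain ⟨e1, e2⟩ := ei_mem' h.d0 O i
    have h1 := h.xl r
    have h2 := h.e1
    have h3 := h.d0 r
    have h4 := h.e2 r
    obtain ⟨h5, h6⟩ := abs_le.1 hu
    exact ha.A s u (by nlinarith) (by nlinarith)
  unfold csA at hc
  simp only [List.mem_append, List.mem_flatten, List.mem_ofFn] at hc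
  rcases hc with ⟨Lc, ⟨i, rfl⟩, hc⟩ | ⟨i, rfl⟩ | ⟨i, rfl⟩
  · obtain ⟨e1, e2⟩ := ei_mem' h.d0 O i
    have hρ0 := h.r0 r (ht (O i))
    have hρ := h.rad r (ht (O i))
    have hρ' : rr P O i ≤ NUP1.l * P.d r / 8 := hρ
    have hρ0' : 0 < rr P O i := hρ0
    have h8 : 0 ≤ NUP1.l * P.d r / 8 := hρ0'.le.trans hρ'
    unfold cst at hc
    rcases hk : kd (O i) with _ | _ | _ | _ | _ <;> rw [hk] at hc <;>
      simp only [List.mem_cons, List.not_mem_nil, or_false] at hc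
    · subst hc
      exact ha.L _ _ (NUO.vl_re59 _ _)
    · subst hc
      exact ha.T _ _ (NUO.vl_re59 _ _)
    · subst hc
      exact ha.S _ r _ _ e1 e2 (NUO.vl_re59 _ _)
    · rcases hc with rfl | rfl
      · exact ha.S _ r _ _ e1 e2 (NUO.vl_re59 _ _)
      · refine hsat _ i _ ?_
        show |(posV (ei P O i) (rr P O i) (ht (O i)) (an (O i))).re - _| ≤ _
        rw [posV_re', add_sub_cancel_left, abs_mul, abs_of_pos hρ0']
        calc rr P O i * |Real.cos (2 * Real.pi * an (O i))| ≤ rr P O i * 1 :=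
              mul_le_mul_of_nonneg_left (Real.abs_cos_le_one _) hρ0'.le
          _ ≤ _ := by rw [mul_one]; exact hρ'
    · have h0 : (posS (ei P O i) (ht (O i)) + 2 * (NUP1.l : ℂ)).re - (1 - ei P O i) * NUP1.l = 0 := by
        unfold posS vl
        simp
        ring
      rcases hc with rfl | rfl | rfl
      · exact ha.S _ r _ _ e1 e2 (NUO.vl_re59 _ _)
      · refine hsat _ i _ ?_
        show |(posS (ei P O i) (ht (O i)) + 2 * (NUP1.l : ℂ)).re - _| ≤ _
        rw [h0, abs_zero]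
        exact h8
      · refine hsat _ i _ ?_
        show |(posS (ei P O i) (ht (O i)) + 2 * (NUP1.l : ℂ)).re - _| ≤ _
        rw [h0, abs_zero]
        exact h8
  · have h1 := pA_mem (hη r hr O) (x.1 i)
    exact ha.A true _ (hx0.trans h1.1) h1.2
  · have h1 := pA_mem (hη r hr O) (x.2 i)
    exact ha.A false _ (hx0.trans h1.1) h1.2

/-! ### the moduli with multiplicative insertions -/

theorem wC_mul (Z g : Stt) (P : NUO.Par) (n n' : ℕ) (η η' : Crs) (c : Cf n n') :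
    wC (Zm Z g) P n n' η η' c = wC Z P n n' η η' c * ev (Fa g P η) c := by
  unfold wC wP ev
  split_ifs
  · rw [wK_mul, gK_mul]
    unfold Fa
    ring
  · rw [zero_mul]

theorem FA_tw_lt (hP : ∀ r, Measurable (P.rad r)) (hZ : ∀ s k, Measurable (Z s k))
    (hc : MCr η η') {Ψ : Ins} (hΨ : MIn Ψ) (hf : FA Z P n n' η η' Ψ < ∞)
    (ha : ∀ c k, Measurable (a c k)) (hC : 0 ≤ C) (hB : CBd a P η (n + n') C) {ε : ℂ}
    (hε : ‖ε‖ ≤ 1) : FA (tw Z a ε) P n n' η η' Ψ < ∞ := by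
  have hM := MC.of hP hZ hc
  have hm1 : ∀ c k, Measurable fun z => 1 + ε * a c k z := fun c k =>
    ((ha c k).const_mul ε).const_add 1
  have hM' : MC (tw Z a ε) P η η' := MC.of hP (fun s k => (hZ s k).mul (hm1 s k)) hc
  have hF : MIn (Fa (fun c k z => 1 + ε * a c k z) P η) := MIn.Fa hP hm1 hc
  have hf1 := FA_mul_lt hM hΨ hf hF
    (fun r hr O m m' hm hm' x => norm_Fa_tw_le hC hB hε hr O hm hm' x)
  have hm2 : MIn fun r O m m' x => Ψ r O m m' x *
      Fa (fun c k z => 1 + ε * a c k z) P η r O m m' x := fun r m m' => (hΨ r m m').mul (hF r m m')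
  rw [FA_eq hM hm2] at hf1
  rw [FA_eq hM' hΨ]
  refine lt_of_le_of_lt (le_of_eq (lintegral_congr fun c => ?_)) hf1
  have e1 : wC (tw Z a ε) P n n' η η' c = wC Z P n n' η η' c *
      ev (Fa (fun c k z => 1 + ε * a c k z) P η) c := wC_mul Z _ P n n' η η' c
  rw [e1, enorm_mul]
  have e2 : ‖ev (n := n) (n' := n') (fun r O m m' x => Ψ r O m m' x *
      Fa (fun c k z => 1 + ε * a c k z) P η r O m m' x) c‖ₑ =
      ‖ev Ψ c‖ₑ * ‖ev (Fa (fun c k z => 1 + ε * a c k z) P η) c‖ₑ := enorm_mul _ _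
  rw [e2]
  ring

/-! ### products of statistics -/

/-- product of the statistics on the straight lines -/
def pSt (L : List Stt) : PBI.Ins := fun ι _ c z => (L.map fun a => PBI.St a ι c z).prod

/-- product of the statistics on the curves -/
def pStF (L : List Stt) (P : NUO.Par) (η : Crs) : Ins := fun r O m m' x =>
  (L.map fun a => StF a P η r O m m' x).prod

/-- **Products of linear statistics: straight lines = curves.** -/
theorem ins_list (h : GoodQ P x0) (hx0 : x0 ≤ 19 / 20 * NUP1.l) (hP : ∀ r, Measurable (P.rad r))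
    (hρ : ∀ r, ∃ ρ0, 0 < ρ0 ∧ ∀ t, ρ0 ≤ P.rad r t) (hκ : 0 < κ) (hn : (n : ℤ) - n' = Q)
    (hδ0 : 0 ≤ δ) (hδ : δ ≤ 1 / 20) (hj : P.jL + δ < 3) (hc : MCr η η')
    (hη : ∀ r ≤ n + n', ∀ O, CrvR δ (η r O) (η' r O)) (L : List Stt)
    (hL : ∀ a ∈ L, ∃ C, Adm a P x0 δ C) :
    ∀ Z : Stt, ClZ Z P x0 κ κ' δ Q → FA Z P n n' η η' (fun _ _ _ _ _ => 1) < ∞ →
      F0 x0 n n' (fl P) Z (pSt L) = FF Z P n n' η η' (pStF L P η) ∧
      PBI.F0Ok x0 n n' (fl P) Z (pSt L) ∧ MIn (pStF L P η) ∧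
      FA Z P n n' η η' (pStF L P η) < ∞ := by
  have hl := Bd.l_pos
  have hx0' : x0 ≤ NUP1.l := by linarith
  induction L with
  | nil =>
    intro Z hZ hf
    refine ⟨?_, PBI.F0Ok_decZ h hx0' hκ hZ.m hZ.dec hn, MIn.one, hf⟩
    refine (PBI.F0_ZobjQ h hx0' hκ hZ.m hZ.dec hn).trans ?_
    exact FF_one h hx0' hP hZ.m hκ hρ hZ.d hZ.dec hn hZ.q hδ0 hδ hj fun r hr =>
      Filter.Eventually.of_forall fun O => hη r hr O
  | cons a L ih =>
    intro Z hZ hf
    obtain ⟨C, ha⟩ := hL a List.mem_cons_self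
    have ih' := ih fun b hb => hL b (List.mem_cons_of_mem _ hb)
    obtain ⟨hE, hOk, hM, hFA⟩ := ih' Z hZ hf
    have hCB := ha.cbd h hx0 hδ0 hη
    have hC : 0 ≤ C := (norm_nonneg _).trans (ha.A true (x0 : ℂ) (by simp) (by
      rw [ofReal_re]
      nlinarith))
    have hS := ha.sok h.toGoodP hx0' hδ0 n n'
    have hd1 := PBI.hasDerivAt_F0 hOk hS
    have hd2 := hasDerivAt_FF hP hZ.m hc hM hFA ha.m hC hCB
    have hev : (fun ε : ℂ => F0 x0 n n' (fl P) (tw Z a ε) (pSt L)) =ᶠ[nhds 0]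
        fun ε => FF (tw Z a ε) P n n' η η' (pStF L P η) := by
      filter_upwards [Metric.ball_mem_nhds (0 : ℂ) one_pos] with ε hε
      have hε' : ‖ε‖ ≤ 1 := by
        rw [Metric.mem_ball, dist_zero_right] at hε
        exact hε.le
      exact (ih' _ (hZ.tw ha h.toGoodP hx0 hδ0 ε)
        (FA_tw_lt hP hZ.m hc MIn.one hf ha.m hC hCB hε')).1
    have hun := (hd2.congr_of_eventuallyEq hev).unique hd1
    have e1 : pSt (a :: L) = (fun ι _ c z => pSt L ι c z * PBI.St a ι c z : PBI.Ins) := by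
      funext ι _ c z
      unfold pSt
      rw [List.map_cons, List.prod_cons, mul_comm]
    have e2 : pStF (a :: L) P η = (fun r O m m' x => pStF L P η r O m m' x *
        StF a P η r O m m' x : Ins) := by
      funext r O m m' x
      unfold pStF
      rw [List.map_cons, List.prod_cons, mul_comm]
    have hM2 : MIn (StF a P η) := MIn.StF hP ha.m hc
    refine ⟨?_, ?_, ?_, ?_⟩
    · rw [e1, e2]
      exact hun.symm
    · rw [e1]
      exact hOk.mul_St hS
    · rw [e2]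
      exact fun r m m' => (hM r m m').mul (hM2 r m m')
    · rw [e2]
      exact FA_mul_lt (MC.of hP hZ.m hc) hM hFA hM2
        (fun r hr O m m' hm hm' x => norm_StF_le hCB hr O hm hm' x hC)

/-! ### the statistics `stA` of `TRsA` -/

theorem obSt_obT (D : Stt) (jL e ρ : ℝ) (x : Xo) : obSt D jL e ρ x = obT D jL e ρ x := by
  unfold obSt obT cst
  rcases kd x with _ | _ | _ | _ | _
  · show D _ _ _ + 0 = _
    rw [add_zero]
  · show D _ _ _ + 0 = _
    rw [add_zero]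
  · show D _ _ _ + 0 = _
    rw [add_zero]
  · show D _ _ _ + (D _ _ _ + 0) = _
    rw [add_zero]
  · show D (sp x) (some .S) (posS e (ht x)) + (D (!sp x) none (posS e (ht x) + 2 * l) +
      (D (!sp x) none (posS e (ht x) + 2 * l) + 0)) = D (sp x) (some .S) (posS e (ht x)) +
      2 * D (!sp x) none (posS e (ht x) + 2 * l)
    ring

/-- **the two forms of the total statistic** -/
theorem StF_stA (D : Stt) (P : NUO.Par) (η : Crs) : StF D P η = stA D P η := by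
  funext r O m m' x
  rw [StF_eq]
  simp only [obSt_obT]
  rfl

/-- **admissible statistics** -/
def AdS (P : NUO.Par) (x0 δ : ℝ) (D : Stt) : Prop := ∃ C, Adm D P x0 δ C

/-- product of the statistics on the curves -/
def pStA (L : List Stt) (P : NUO.Par) (η : Crs) : Ins := fun r O m m' x =>
  (L.map fun a => stA a P η r O m m' x).prod

theorem pStF_pStA (L : List Stt) (P : NUO.Par) (η : Crs) : pStF L P η = pStA L P η := by
  unfold pStF pStA
  simp only [StF_stA]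

/-- the data of the transfer -/
structure InsQ (P : NUO.Par) (x0 κ κ' δ : ℝ) (Q : ℤ) (n n' : ℕ) (η η' : Crs) : Prop where
  hG : GoodQ P x0
  hx0 : x0 ≤ 19 / 20 * NUP1.l
  hP : ∀ r, Measurable (P.rad r)
  hρ : ∀ r, ∃ ρ0, 0 < ρ0 ∧ ∀ t, ρ0 ≤ P.rad r t
  hκ : 0 < κ
  hn : (n : ℤ) - n' = Q
  hδ0 : 0 ≤ δ
  hδ : δ ≤ 1 / 20
  hj : P.jL + δ < 3
  hc : MCr η η'
  hη : ∀ r ≤ n + n', ∀ O, CrvR δ (η r O) (η' r O)

/-- **Products of linear statistics: straight lines = curves** (`stA`). -/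
theorem ins_listA (h : InsQ P x0 κ κ' δ Q n n' η η') {L : List Stt} (hL : ∀ a ∈ L, AdS P x0 δ a)
    (hZ : ClZ Z P x0 κ κ' δ Q) (hf : FA Z P n n' η η' (fun _ _ _ _ _ => 1) < ∞) :
    F0 x0 n n' (fl P) Z (pSt L) = FF Z P n n' η η' (pStA L P η) ∧
      PBI.F0Ok x0 n n' (fl P) Z (pSt L) ∧ MIn (pStA L P η) ∧
      FA Z P n n' η η' (pStA L P η) < ∞ := by
  have key := ins_list h.hG h.hx0 h.hP h.hρ h.hκ h.hn h.hδ0 h.hδ h.hj h.hc h.hη L hL Z hZ hf
  rwa [pStF_pStA] at key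

/-- no statistic -/
theorem ins_zero (h : InsQ P x0 κ κ' δ Q n n' η η')
    (hZ : ClZ Z P x0 κ κ' δ Q) (hf : FA Z P n n' η η' (fun _ _ _ _ _ => 1) < ∞) :
    F0 x0 n n' (fl P) Z (fun _ _ _ _ => 1) = FF Z P n n' η η' (fun _ _ _ _ _ => 1) :=
  (ins_listA h (L := []) (fun a ha => absurd ha List.not_mem_nil) hZ hf).1

/-- **one statistic** -/
theorem ins_one (h : InsQ P x0 κ κ' δ Q n n' η η') (ha : AdS P x0 δ a)
    (hZ : ClZ Z P x0 κ κ' δ Q) (hf : FA Z P n n' η η' (fun _ _ _ _ _ => 1) < ∞) :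
    F0 x0 n n' (fl P) Z (PBI.St a) = FF Z P n n' η η' (stA a P η) ∧
      FA Z P n n' η η' (stA a P η) < ∞ := by
  have key := ins_listA h (L := [a]) (fun b hb => by
    rw [List.mem_singleton] at hb
    rw [hb]
    exact ha) hZ hf
  have e1 : pSt [a] = PBI.St a := by
    funext ι _ c z
    simp [pSt]
  have e2 : pStA [a] P η = stA a P η := by
    funext r O m m' x
    show ([stA a P η r O m m' x] : List ℂ).prod = _
    rw [List.prod_cons, List.prod_nil, mul_one]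
  rw [e1, e2] at key
  exact ⟨key.1, key.2.2.2⟩

/-- **two statistics** -/
theorem ins_two {b : Stt} (h : InsQ P x0 κ κ' δ Q n n' η η') (ha : AdS P x0 δ a)
    (hb : AdS P x0 δ b) (hZ : ClZ Z P x0 κ κ' δ Q)
    (hf : FA Z P n n' η η' (fun _ _ _ _ _ => 1) < ∞) :
    F0 x0 n n' (fl P) Z (fun ι _ c z => PBI.St a ι c z * PBI.St b ι c z) =
      FF Z P n n' η η' (fun r O m m' x => stA a P η r O m m' x * stA b P η r O m m' x) ∧
      FA Z P n n' η η' (fun r O m m' x => stA a P η r O m m' x * stA b P η r O m m' x) < ∞ := by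
  have key := ins_listA h (L := [a, b]) (fun d hd => by
    simp only [List.mem_cons, List.not_mem_nil, or_false] at hd
    rcases hd with rfl | rfl
    · exact ha
    · exact hb) hZ hf
  have e1 : pSt [a, b] = (fun ι _ c z => PBI.St a ι c z * PBI.St b ι c z : PBI.Ins) := by
    funext ι _ c z
    simp [pSt]
  have e2 : pStA [a, b] P η =
      (fun r O m m' x => stA a P η r O m m' x * stA b P η r O m m' x : Ins) := by
    funext r O m m' x
    show ([stA a P η r O m m' x, stA b P η r O m m' x] : List ℂ).prod = _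
    rw [List.prod_cons, List.prod_cons, List.prod_nil, mul_one]
  rw [e1, e2] at key
  exact ⟨key.1, key.2.2.2⟩

/-! ### closure of the admissible statistics -/

theorem AdS.const {P : NUO.Par} {x0 δ : ℝ} (c : Bool → Option O3 → ℂ) :
    AdS P x0 δ fun s k _ => c s k := by
  have hfin : ∃ C, ∀ s k, ‖c s k‖ ≤ C := by
    obtain ⟨C, hC⟩ := (Set.finite_range fun p : Bool × Option O3 => ‖c p.1 p.2‖).bddAbove
    exact ⟨C, fun s k => hC ⟨(s, k), rfl⟩⟩
  obtain ⟨C, hC⟩ := hfin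
  exact ⟨C, fun s k => measurable_const, fun s u _ _ => differentiableAt_const _,
    fun s u _ _ => hC s _, fun s u _ => hC s _, fun s u _ => hC s _, fun s r e u _ _ _ => hC s _⟩

theorem AdS.add {P : NUO.Par} {x0 δ : ℝ} {a b : Stt} (ha : AdS P x0 δ a) (hb : AdS P x0 δ b) :
    AdS P x0 δ fun s k z => a s k z + b s k z := by
  obtain ⟨C, h⟩ := ha
  obtain ⟨D, g⟩ := hb
  exact ⟨C + D, fun s k => (h.m s k).add (g.m s k), fun s u h1 h2 => (h.d s u h1 h2).add (g.d s u h1 h2),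
    fun s u h1 h2 => (norm_add_le _ _).trans (add_le_add (h.A s u h1 h2) (g.A s u h1 h2)),
    fun s u h1 => (norm_add_le _ _).trans (add_le_add (h.L s u h1) (g.L s u h1)),
    fun s u h1 => (norm_add_le _ _).trans (add_le_add (h.T s u h1) (g.T s u h1)),
    fun s r e u h1 h2 h3 => (norm_add_le _ _).trans
      (add_le_add (h.S s r e u h1 h2 h3) (g.S s r e u h1 h2 h3))⟩

theorem AdS.cmul {P : NUO.Par} {x0 δ : ℝ} {a : Stt} (ha : AdS P x0 δ a) (c : ℂ) :
    AdS P x0 δ fun s k z => c * a s k z := by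
  obtain ⟨C, h⟩ := ha
  have key : ∀ z : ℂ, ‖z‖ ≤ C → ‖c * z‖ ≤ ‖c‖ * C := fun z hz => by
    rw [norm_mul]
    exact mul_le_mul_of_nonneg_left hz (norm_nonneg _)
  exact ⟨‖c‖ * C, fun s k => (h.m s k).const_mul c, fun s u h1 h2 => (h.d s u h1 h2).const_mul c,
    fun s u h1 h2 => key _ (h.A s u h1 h2), fun s u h1 => key _ (h.L s u h1),
    fun s u h1 => key _ (h.T s u h1), fun s r e u h1 h2 h3 => key _ (h.S s r e u h1 h2 h3)⟩

end PBF

end
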