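import Pool.Agent.PB.StatN
import Pool.Agent.PB.InsTwo

/-!
# Plan B: quadratic insertions, from the straight lines to the curves (helper15)

`Z`, `P` fixed, numbers of quanta `n ≤ N`, coefficients `c n`, curves `η n`.

* `F0N Ψ = ∑ n ≤ N, c n * F0 x0 n n (fl P) Z Ψ`;
* `TrN`: the data of 86's transfer for every `n ≤ N`;
* `VC ρ g`: the centred statistic of all constituents on `CfN N`;
* `F0N_zero`, `F0N_one`, `F0N_two`: insertions `1`, `nuI A`, `nuI A * nuI B`;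
* `Chn`: a kernel which is a superposition of products of admissible statistics;
  **`Chn.F0N_nuQ`**: `F0N (nuQI k) = (1/2) ∫ F (VC (A q) * VC (B q))`;
* **`F0N_total`**: the whole insertion of the first Ward identity.
-/

set_option autoImplicit false
set_option linter.unusedSectionVars false
set_option maxHeartbeats 1000000

noncomputable section

open Complex MeasureTheory Finset
open scoped ENNReal Classical

namespace PBRep

open NUP1 hiding Kd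
open NUO NUP1S NUP1S.Ab NUP1S.AbC PBF PBFunc PB
open PBI (Stt Kd F0 F0Ok fl nuI nuQI mnI InD PAll F0_rep nuI_eq)

/-- one body data from functions of kinds -/
abbrev sK (g : Kd → ℂ → ℂ) : Stt := fun s k => g (s, k)

/-- the data of the transfer for all numbers of quanta -/
structure TrN (Z : Stt) (P : NUO.Par) (x0 κ κ' δ : ℝ) (N : ℕ) (η η' : ℕ → Crs) : Prop where
  ins : ∀ n ≤ N, PBF.InsQ P x0 κ κ' δ 0 n n (η n) (η' n)
  cl : ClZ Z P x0 κ κ' δ 0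
  fin : ∀ n ≤ N, FA Z P n n (η n) (η' n) (fun _ _ _ _ _ => 1) < ∞

variable {Z : Stt} {P : NUO.Par} {x0 κ κ' δ : ℝ} {N : ℕ} {η η' : ℕ → Crs} {c : ℕ → ℂ}

theorem TrN.mc (h : TrN Z P x0 κ κ' δ N η η') : ∀ n ≤ N, MC Z P (η n) (η' n) := fun n hn =>
  MC.of (h.ins n hn).hP h.cl.m (h.ins n hn).hc

/-- the sum of the functionals of the straight lines -/
def F0N (Z : Stt) (P : NUO.Par) (x0 : ℝ) (N : ℕ) (c : ℕ → ℂ) (Ψ : PBI.Ins) : ℂ :=
  ∑ n ∈ range (N + 1), c n * F0 x0 n n (fl P) Z Ψ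

/-- the weight on the configurations -/
abbrev wT (Z : Stt) (P : NUO.Par) (N : ℕ) (η η' : ℕ → Crs) (c : ℕ → ℂ) : CfN N → ℂ :=
  wN (fun _ => Z) (fun _ => P) N η η' c

/-- centred statistic of all constituents -/
def VC (ρ : Kd → ℝ → ℂ) (P : NUO.Par) (η : ℕ → Crs) (g : Kd → ℂ → ℂ) : CfN N → ℂ := fun ω =>
  VA (sK g) P η ω - mnI ρ g

/-- centred statistic as an insertion -/
def cI (ρ : Kd → ℝ → ℂ) (P : NUO.Par) (η : Crs) (g : Kd → ℂ → ℂ) : PBF.Ins := fun r O a b x =>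
  stA (sK g) P η r O a b x - mnI ρ g

theorem FAN_lt {Ψ : ℕ → PBF.Ins} (h : ∀ n ≤ N, FA Z P n n (η n) (η' n) (Ψ n) < ∞) :
    FAN (fun _ => Z) (fun _ => P) N η η' c Ψ < ∞ := by
  unfold FAN
  refine ENNReal.sum_lt_top.2 fun n hn => ?_
  exact ENNReal.mul_lt_top enorm_lt_top (h n (Nat.lt_succ_iff.1 (Finset.mem_range.1 hn)))

theorem FFN_F (h : TrN Z P x0 κ κ' δ N η η') {Ψ : ℕ → PBF.Ins} (hΨ : ∀ n ≤ N, MIn (Ψ n))
    (hf : ∀ n ≤ N, FA Z P n n (η n) (η' n) (Ψ n) < ∞) :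
    ∑ n ∈ range (N + 1), c n * FF Z P n n (η n) (η' n) (Ψ n) =
      F (mN N) (wT Z P N η η' c) (evN Ψ) :=
  FFN_eq (Z := fun _ => Z) (P := fun _ => P) h.mc hΨ (FAN_lt hf)

theorem WI_N (h : TrN Z P x0 κ κ' δ N η η') {Ψ : ℕ → PBF.Ins} (hΨ : ∀ n ≤ N, MIn (Ψ n))
    (hf : ∀ n ≤ N, FA Z P n n (η n) (η' n) (Ψ n) < ∞) :
    WI (mN N) (wT Z P N η η' c) (evN Ψ) :=
  WIN_of (Z := fun _ => Z) (P := fun _ => P) h.mc hΨ (FAN_lt hf)

theorem MIn_stA (h : TrN Z P x0 κ κ' δ N η η') {D : Stt} (hD : ∀ s k, Measurable (D s k))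
    {n : ℕ} (hn : n ≤ N) : MIn (stA D P (η n)) := by
  have := MIn.StF (h.ins n hn).hP hD (h.ins n hn).hc
  rwa [StF_stA] at this

/-! ### one and two statistics, one number of quanta -/

section one

variable {n : ℕ} {ρ : Kd → ℝ → ℂ} {A B : Kd → ℂ → ℂ}

theorem MIn_cI (h : TrN Z P x0 κ κ' δ N η η') (hA : AdS P x0 δ (sK A)) (hn : n ≤ N) :
    MIn (cI ρ P (η n) A) := by
  obtain ⟨C, hA⟩ := hA
  exact fun r a b => ((MIn_stA h hA.m hn) r a b).sub_const _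

/-- the total statistic is bounded -/
theorem FA_stA (h : TrN Z P x0 κ κ' δ N η η') (hA : AdS P x0 δ (sK A)) (hn : n ≤ N) :
    FA Z P n n (η n) (η' n) (stA (sK A) P (η n)) < ∞ :=
  (ins_one (h.ins n hn) hA h.cl (h.fin n hn)).2

theorem ok_St (h : TrN Z P x0 κ κ' δ N η η') (hA : AdS P x0 δ (sK A)) (hn : n ≤ N) :
    F0Ok x0 n n (fl P) Z (PBI.St (sK A)) := by
  have key := (ins_listA (h.ins n hn) (L := [sK A]) (fun b hb => by
    rw [List.mem_singleton] at hb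
    rw [hb]
    exact hA) h.cl (h.fin n hn)).2.1
  have e1 : pSt [sK A] = PBI.St (sK A) := by
    funext ι _ c z
    simp [pSt]
  rwa [e1] at key

theorem ok_St2 (h : TrN Z P x0 κ κ' δ N η η') (hA : AdS P x0 δ (sK A))
    (hB : AdS P x0 δ (sK B)) (hn : n ≤ N) :
    F0Ok x0 n n (fl P) Z (fun ι _ c z => PBI.St (sK A) ι c z * PBI.St (sK B) ι c z) := by
  have key := (ins_listA (h.ins n hn) (L := [sK A, sK B]) (fun d hd => by
    simp only [List.mem_cons, List.not_mem_nil, or_false] at hd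
    rcases hd with rfl | rfl
    · exact hA
    · exact hB) h.cl (h.fin n hn)).2.1
  have e1 : pSt [sK A, sK B] = (fun ι _ c z => PBI.St (sK A) ι c z * PBI.St (sK B) ι c z : PBI.Ins) := by
    funext ι _ c z
    simp [pSt]
  rwa [e1] at key

theorem ok_one (h : TrN Z P x0 κ κ' δ N η η') (hn : n ≤ N) :
    F0Ok x0 n n (fl P) Z (fun _ _ _ _ => 1) := by
  have hi := h.ins n hn
  exact PBI.F0Ok_decZ hi.hG (hi.hx0.trans (by have := Bd.l_pos; linarith)) hi.hκ h.cl.m h.cl.dec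
    hi.hn

/-- insertion of one centred statistic -/
theorem F0_nuI (h : TrN Z P x0 κ κ' δ N η η') (hA : AdS P x0 δ (sK A)) (hn : n ≤ N) :
    F0Ok x0 n n (fl P) Z (nuI ρ A) ∧
    F0 x0 n n (fl P) Z (nuI ρ A) = FF Z P n n (η n) (η' n) (cI ρ P (η n) A) ∧
    FA Z P n n (η n) (η' n) (cI ρ P (η n) A) < ∞ := by
  obtain ⟨C, hAm⟩ := id hA
  have hM := h.mc n hn
  have o1 := ok_St h hA hn
  have o0 := ok_one h hn
  have oc := o0.smul (-(mnI ρ A))
  have e0 : nuI ρ A = (fun ι _ c z => PBI.St (sK A) ι c z + -(mnI ρ A) * 1 : PBI.Ins) := by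
    funext ι _ c z
    rw [nuI_eq]
    ring
  have w1 := WI_of hM (MIn_stA h hAm.m hn) (FA_stA h hA hn)
  have w0 := WI_of hM MIn.one (h.fin n hn)
  have wc := w0.smul (-(mnI ρ A))
  have wt := w1.add wc
  have ec : ev (n := n) (n' := n) (cI ρ P (η n) A) = fun ω =>
      ev (stA (sK A) P (η n)) ω + -(mnI ρ A) * ev (fun _ _ _ _ _ => 1) ω := by
    funext ω
    show stA (sK A) P (η n) _ _ _ _ _ - mnI ρ A = stA (sK A) P (η n) _ _ _ _ _ + -(mnI ρ A) * 1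
    ring
  have hf : FA Z P n n (η n) (η' n) (cI ρ P (η n) A) < ∞ := by
    rw [FA_eq hM (MIn_cI h hA hn)]
    have := wt.2
    unfold HasFiniteIntegral at this
    rw [← ec] at this
    simpa only [enorm_mul] using this
  refine ⟨?_, ?_, hf⟩
  · rw [e0]
    exact o1.add oc
  · rw [e0, PBI.F0_add o1 oc, PBI.F0_smul, (ins_one (h.ins n hn) hA h.cl (h.fin n hn)).1,
      ins_zero (h.ins n hn) h.cl (h.fin n hn), FF_eq hM (MIn_stA h hAm.m hn) (FA_stA h hA hn),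
      FF_eq hM MIn.one (h.fin n hn), FF_eq hM (MIn_cI h hA hn) hf, ec, F_add w1 wc, F_smul]

/-- **insertion of two centred statistics** -/
theorem F0_nuI2 (h : TrN Z P x0 κ κ' δ N η η') (hA : AdS P x0 δ (sK A))
    (hB : AdS P x0 δ (sK B)) (hn : n ≤ N) :
    F0Ok x0 n n (fl P) Z (fun ι _ c z => nuI ρ A ι c z * nuI ρ B ι c z) ∧
    F0 x0 n n (fl P) Z (fun ι _ c z => nuI ρ A ι c z * nuI ρ B ι c z) =
      FF Z P n n (η n) (η' n) (fun r O a b x => cI ρ P (η n) A r O a b x *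
        cI ρ P (η n) B r O a b x) ∧
    FA Z P n n (η n) (η' n) (fun r O a b x => cI ρ P (η n) A r O a b x *
        cI ρ P (η n) B r O a b x) < ∞ := by
  obtain ⟨C, hAm⟩ := id hA
  obtain ⟨C', hBm⟩ := id hB
  have hM := h.mc n hn
  set mA := mnI ρ A with hmA
  set mB := mnI ρ B with hmB
  have o2 := ok_St2 h hA hB hn
  have oA := (ok_St h hA hn).smul (-mB)
  have oB := (ok_St h hB hn).smul (-mA)
  have o0 := (ok_one h hn).smul (mA * mB)
  have e0 : (fun ι _ c z => nuI ρ A ι c z * nuI ρ B ι c z : PBI.Ins) = (fun ι _ c z =>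
      PBI.St (sK A) ι c z * PBI.St (sK B) ι c z + (-mB * PBI.St (sK A) ι c z +
        (-mA * PBI.St (sK B) ι c z + (mA * mB) * 1)) : PBI.Ins) := by
    funext ι _ c z
    rw [nuI_eq, nuI_eq, ← hmA, ← hmB]
    ring
  have t2 := ins_two (h.ins n hn) hA hB h.cl (h.fin n hn)
  have MA := MIn_stA h hAm.m hn
  have MB := MIn_stA h hBm.m hn
  have M2 : MIn (fun r O m m' x => stA (sK A) P (η n) r O m m' x * stA (sK B) P (η n) r O m m' x) :=
    fun r a b => (MA r a b).mul (MB r a b)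
  have MC2 : MIn (fun r O a b x => cI ρ P (η n) A r O a b x * cI ρ P (η n) B r O a b x) :=
    fun r a b => (MIn_cI h hA hn r a b).mul (MIn_cI h hB hn r a b)
  have w2 := WI_of hM M2 t2.2
  have wA := (WI_of hM MA (FA_stA h hA hn)).smul (-mB)
  have wB := (WI_of hM MB (FA_stA h hB hn)).smul (-mA)
  have w0 := (WI_of hM MIn.one (h.fin n hn)).smul (mA * mB)
  have wt := w2.add (wA.add (wB.add w0))
  have ec : ev (n := n) (n' := n) (fun r O a b x => cI ρ P (η n) A r O a b x *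
      cI ρ P (η n) B r O a b x) = fun ω =>
      ev (fun r O m m' x => stA (sK A) P (η n) r O m m' x * stA (sK B) P (η n) r O m m' x) ω +
      (-mB * ev (stA (sK A) P (η n)) ω + (-mA * ev (stA (sK B) P (η n)) ω +
        (mA * mB) * ev (fun _ _ _ _ _ => 1) ω)) := by
    funext ω
    show (stA (sK A) P (η n) _ _ _ _ _ - mA) * (stA (sK B) P (η n) _ _ _ _ _ - mB) =
      stA (sK A) P (η n) _ _ _ _ _ * stA (sK B) P (η n) _ _ _ _ _ +
        (-mB * stA (sK A) P (η n) _ _ _ _ _ + (-mA * stA (sK B) P (η n) _ _ _ _ _ +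
          (mA * mB) * 1))
    ring
  have hf : FA Z P n n (η n) (η' n) (fun r O a b x => cI ρ P (η n) A r O a b x *
      cI ρ P (η n) B r O a b x) < ∞ := by
    rw [FA_eq hM MC2]
    have := wt.2
    unfold HasFiniteIntegral at this
    rw [← ec] at this
    simpa only [enorm_mul] using this
  refine ⟨?_, ?_, hf⟩
  · rw [e0]
    exact o2.add (oA.add (oB.add o0))
  · rw [e0, PBI.F0_add o2 (oA.add (oB.add o0)), PBI.F0_add oA (oB.add o0), PBI.F0_add oB o0,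
      PBI.F0_smul, PBI.F0_smul, PBI.F0_smul, t2.1,
      (ins_one (h.ins n hn) hA h.cl (h.fin n hn)).1, (ins_one (h.ins n hn) hB h.cl (h.fin n hn)).1,
      ins_zero (h.ins n hn) h.cl (h.fin n hn), FF_eq hM M2 t2.2,
      FF_eq hM MA (FA_stA h hA hn), FF_eq hM MB (FA_stA h hB hn), FF_eq hM MIn.one (h.fin n hn),
      FF_eq hM MC2 hf, ec, F_add w2 (wA.add (wB.add w0)), F_add wA (wB.add w0), F_add wB w0,
      F_smul, F_smul, F_smul]

end one

/-! ### sums over the numbers of quanta -/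

section sum

variable {ρ : Kd → ℝ → ℂ} {A B : Kd → ℂ → ℂ}

theorem F0N_zero (h : TrN Z P x0 κ κ' δ N η η') :
    F0N Z P x0 N c (fun _ _ _ _ => 1) = F (mN N) (wT Z P N η η' c) fun _ => 1 := by
  rw [show (fun _ : CfN N => (1 : ℂ)) = evN fun _ _ _ _ _ _ => 1 from rfl,
    ← FFN_F h (fun _ _ => MIn.one) h.fin]
  unfold F0N
  refine Finset.sum_congr rfl fun n hn => ?_
  have hn' := Nat.lt_succ_iff.1 (Finset.mem_range.1 hn)
  rw [ins_zero (h.ins n hn') h.cl (h.fin n hn')]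

theorem F0N_one (h : TrN Z P x0 κ κ' δ N η η') (hA : AdS P x0 δ (sK A)) :
    WI (mN N) (wT Z P N η η' c) (VC ρ P η A) ∧
    F0N Z P x0 N c (nuI ρ A) = F (mN N) (wT Z P N η η' c) (VC ρ P η A) := by
  have hΨ : ∀ n ≤ N, MIn (cI ρ P (η n) A) := fun n hn => MIn_cI h hA hn
  have hf : ∀ n ≤ N, FA Z P n n (η n) (η' n) (cI ρ P (η n) A) < ∞ := fun n hn =>
    (F0_nuI h hA hn).2.2
  refine ⟨WI_N h hΨ hf, ?_⟩
  rw [show (VC ρ P η A : CfN N → ℂ) = evN fun n => cI ρ P (η n) A from rfl, ← FFN_F h hΨ hf]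
  unfold F0N
  refine Finset.sum_congr rfl fun n hn => ?_
  have hn' := Nat.lt_succ_iff.1 (Finset.mem_range.1 hn)
  rw [(F0_nuI h hA hn').2.1]

/-- **two centred statistics** -/
theorem F0N_two (h : TrN Z P x0 κ κ' δ N η η') (hA : AdS P x0 δ (sK A))
    (hB : AdS P x0 δ (sK B)) :
    WI (mN N) (wT Z P N η η' c) (fun ω => VC ρ P η A ω * VC ρ P η B ω) ∧
    F0N Z P x0 N c (fun ι _ c z => nuI ρ A ι c z * nuI ρ B ι c z) =
      F (mN N) (wT Z P N η η' c) (fun ω => VC ρ P η A ω * VC ρ P η B ω) := by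
  have hΨ : ∀ n ≤ N, MIn (fun r O a b x => cI ρ P (η n) A r O a b x *
      cI ρ P (η n) B r O a b x) := fun n hn r a b =>
    (MIn_cI h hA hn r a b).mul (MIn_cI h hB hn r a b)
  have hf : ∀ n ≤ N, FA Z P n n (η n) (η' n) (fun r O a b x => cI ρ P (η n) A r O a b x *
      cI ρ P (η n) B r O a b x) < ∞ := fun n hn => (F0_nuI2 h hA hB hn).2.2
  refine ⟨WI_N h hΨ hf, ?_⟩
  rw [show (fun ω : CfN N => VC ρ P η A ω * VC ρ P η B ω) = evN fun n r O a b x =>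
      cI ρ P (η n) A r O a b x * cI ρ P (η n) B r O a b x from rfl, ← FFN_F h hΨ hf]
  unfold F0N
  refine Finset.sum_congr rfl fun n hn => ?_
  have hn' := Nat.lt_succ_iff.1 (Finset.mem_range.1 hn)
  rw [(F0_nuI2 h hA hB hn').2.1]

/-! linearity of `F0N` -/

variable {Ψ Ψ' : PBI.Ins}

/-- admissible insertions for every number of quanta -/
def OkN (Z : Stt) (P : NUO.Par) (x0 : ℝ) (N : ℕ) (Ψ : PBI.Ins) : Prop :=
  ∀ n ≤ N, F0Ok x0 n n (fl P) Z Ψ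

theorem F0N_add (h : OkN Z P x0 N Ψ) (h' : OkN Z P x0 N Ψ') :
    F0N Z P x0 N c (fun ι _ k z => Ψ ι k z + Ψ' ι k z) = F0N Z P x0 N c Ψ + F0N Z P x0 N c Ψ' := by
  unfold F0N
  rw [← Finset.sum_add_distrib]
  refine Finset.sum_congr rfl fun n hn => ?_
  have hn' := Nat.lt_succ_iff.1 (Finset.mem_range.1 hn)
  rw [PBI.F0_add (h n hn') (h' n hn')]
  ring

theorem OkN.add (h : OkN Z P x0 N Ψ) (h' : OkN Z P x0 N Ψ') :
    OkN Z P x0 N (fun ι _ k z => Ψ ι k z + Ψ' ι k z) := fun n hn => (h n hn).add (h' n hn)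

theorem OkN.smul (h : OkN Z P x0 N Ψ) (r : ℂ) : OkN Z P x0 N (fun ι _ k z => r * Ψ ι k z) :=
  fun n hn => (h n hn).smul r

theorem F0N_smul (r : ℂ) :
    F0N Z P x0 N c (fun ι _ k z => r * Ψ ι k z) = r * F0N Z P x0 N c Ψ := by
  unfold F0N
  rw [Finset.mul_sum]
  refine Finset.sum_congr rfl fun n _ => ?_
  rw [PBI.F0_smul]
  ring

theorem F0N_congr (h : ∀ n ≤ N, PBI.AllW x0 n n (fl P) fun {ι} _ c x => ∀ t : ι → ℝ,
    Ψ ι c (NUP1S.pos x t) = Ψ' ι c (NUP1S.pos x t)) : F0N Z P x0 N c Ψ = F0N Z P x0 N c Ψ' := by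
  unfold F0N
  refine Finset.sum_congr rfl fun n hn => ?_
  have hn' := Nat.lt_succ_iff.1 (Finset.mem_range.1 hn)
  rw [PBI.F0_congr (h n hn')]

end sum

/-! ### superpositions -/

section chn

variable {T : Type*} [MeasurableSpace T] {μ : Measure T} [SFinite μ] {D : Kd → Set ℂ}
  {ρ : Kd → ℝ → ℂ} {k : Kd → Kd → ℂ → ℂ → ℂ} {A B : T → Kd → ℂ → ℂ} {al be : T → ℝ}
  {φ ψ : Kd → ℂ → ℝ}

/-- **a kernel which is a superposition of products of admissible statistics** -/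
structure Chn (P : NUO.Par) (x0 δ : ℝ) (N : ℕ) (μ : Measure T) (D : Kd → Set ℂ)
    (ρ : Kd → ℝ → ℂ) (k : Kd → Kd → ℂ → ℂ → ℂ) (A B : T → Kd → ℂ → ℂ) (al be : T → ℝ)
    (φ ψ : Kd → ℂ → ℝ) : Prop where
  R : NX.PRep μ D (vl l) ρ k A B al be φ ψ
  hm : ∀ b c x, x ∈ D b → AEStronglyMeasurable (fun u => k b c x (vl l u) * ρ c u) volume
  mA : ∀ b, Measurable fun p : T × ℂ => A p.1 b p.2
  mB : ∀ b, Measurable fun p : T × ℂ => B p.1 b p.2
  adA : ∀ q, AdS P x0 δ (sK (A q))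
  adB : ∀ q, AdS P x0 δ (sK (B q))
  inD : ∀ n ≤ N, InD x0 n n (fl P) D φ ψ

theorem Chn.qid (h : Chn P x0 δ N μ D ρ k A B al be φ ψ) : NX.QID D (vl l) ρ k := h.R.qid h.hm

theorem Chn.ok (h : Chn P x0 δ N μ D ρ k A B al be φ ψ) (hT : TrN Z P x0 κ κ' δ N η η') :
    OkN Z P x0 N (nuQI ρ k) := fun n hn =>
  (F0_rep h.R h.mA h.mB (h.inD n hn) (ok_one hT hn)).2.1

/-- **the quadratic insertion of a superposition** -/
theorem Chn.F0N_nuQ (h : Chn P x0 δ N μ D ρ k A B al be φ ψ)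
    (hT : TrN Z P x0 κ κ' δ N η η') :
    Integrable (fun q => F (mN N) (wT Z P N η η' c)
      fun ω => VC ρ P η (A q) ω * VC ρ P η (B q) ω) μ ∧
    F0N Z P x0 N c (nuQI ρ k) = (1 / 2) * ∫ q, (F (mN N) (wT Z P N η η' c)
      fun ω => VC ρ P η (A q) ω * VC ρ P η (B q) ω) ∂μ := by
  have h1 : ∀ q, F (mN N) (wT Z P N η η' c) (fun ω => VC ρ P η (A q) ω * VC ρ P η (B q) ω) =
      F0N Z P x0 N c (fun ι _ c z => nuI ρ (A q) ι c z * nuI ρ (B q) ι c z) := fun q =>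
    (F0N_two hT (h.adA q) (h.adB q)).2.symm
  simp only [h1]
  unfold F0N
  have h2 := fun n (hn : n ≤ N) => F0_rep h.R h.mA h.mB (h.inD n hn) (ok_one hT hn)
  have h3 : ∀ n ∈ range (N + 1), Integrable (fun q => c n * F0 x0 n n (fl P) Z
      fun ι _ c z => nuI ρ (A q) ι c z * nuI ρ (B q) ι c z) μ := fun n hn =>
    ((h2 n (Nat.lt_succ_iff.1 (Finset.mem_range.1 hn))).1).const_mul _
  refine ⟨integrable_finsetSum _ h3, ?_⟩
  rw [integral_finsetSum _ h3, Finset.mul_sum]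
  refine Finset.sum_congr rfl fun n hn => ?_
  rw [(h2 n (Nat.lt_succ_iff.1 (Finset.mem_range.1 hn))).2.2, integral_const_mul]
  ring

end chn

/-! ### the total insertion -/

section total

variable {T T' T₃ : Type*} [MeasurableSpace T] [MeasurableSpace T'] [MeasurableSpace T₃]
  {μ : Measure T} {μ' : Measure T'} {μ₃ : Measure T₃} [SFinite μ] [SFinite μ'] [SFinite μ₃]
  {D : Kd → Set ℂ} {ρ : Kd → ℝ → ℂ} {a : Kd → Kd → ℂ → ℂ → ℂ}
  {k : Kd → Kd → ℂ → ℂ → ℂ} {A B : T → Kd → ℂ → ℂ} {al be : T → ℝ} {φ ψ : Kd → ℂ → ℝ}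
  {k' : Kd → Kd → ℂ → ℂ → ℂ} {A' B' : T' → Kd → ℂ → ℂ} {al' be' : T' → ℝ} {φ' ψ' : Kd → ℂ → ℝ}
  {k₃ : Kd → Kd → ℂ → ℂ → ℂ} {A₃ B₃ : T₃ → Kd → ℂ → ℂ} {al₃ be₃ : T₃ → ℝ}
  {φ₃ ψ₃ : Kd → ℂ → ℝ} {ξ sg : Kd → ℂ → ℂ} {xp xm : ℂ} {gl : Kd → ℂ → ℂ}

/-- three channels -/
theorem nuQI_split3 (he : ∀ b u, ρ b u ≠ 0 → vl l u ∈ D b) (h1 : NX.QID D (vl l) ρ k)
    (h2 : NX.QID D (vl l) ρ k') (h3 : NX.QID D (vl l) ρ k₃)
    (hk : ∀ b c x y, x ∈ D b → y ∈ D c → a b c x y = k b c x y + k' b c x y + k₃ b c x y)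
    {ι : Type} [Fintype ι] {s : ι → Kd} {z : ι → ℂ} (hz : ∀ i, z i ∈ D (s i)) :
    nuQI ρ a ι s z = nuQI ρ k ι s z + nuQI ρ k' ι s z + nuQI ρ k₃ ι s z := by
  unfold nuQI
  rw [← NX.nuQ_addD s he h1 h2 hz, ← NX.nuQ_addD s he (h1.add he h2) h3 hz]
  refine (NX.nuQ_cD he a hz).symm.trans (Eq.trans ?_ (NX.nuQ_cD he
    (fun b c x y => k b c x y + k' b c x y + k₃ b c x y) hz))
  congr 1
  funext b c x y
  unfold NX.cD
  split_ifs with hxy
  · exact hk b c x y hxy.1 hxy.2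
  · rfl

/-- **the whole insertion of the first Ward identity on the curves** -/
theorem F0N_total (hT : TrN Z P x0 κ κ' δ N η η')
    (C1 : Chn P x0 δ N μ D ρ k A B al be φ ψ) (C2 : Chn P x0 δ N μ' D ρ k' A' B' al' be' φ' ψ')
    (C3 : Chn P x0 δ N μ₃ D ρ k₃ A₃ B₃ al₃ be₃ φ₃ ψ₃)
    (hk : ∀ b c x y, x ∈ D b → y ∈ D c →
      PBI.aLoc xp xm ξ sg a b c x y = k b c x y + k' b c x y + k₃ b c x y)
    (hQ : NX.QID D (vl l) ρ a) (hρ : ∀ b, Integrable (ρ b))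
    (hn : ∑ b, ∫ u, ρ b u * (PBI.chK b * 1) = 0)
    (hb : ∀ b, Integrable fun u => ρ b u * PBI.beK xp xm ξ sg b (vl l u))
    (hs : ∀ b, Integrable fun u => ρ b u * PBI.sgK sg b (vl l u))
    (adb : AdS P x0 δ (sK (PBI.beK xp xm ξ sg))) (ads : AdS P x0 δ (sK (PBI.sgK sg)))
    (adl : AdS P x0 δ (sK gl)) :
    F0N Z P x0 N c (fun ι _ s z => nuQI ρ a ι s z + nuI ρ gl ι s z) =
      (1 / 2) * (∫ q, (F (mN N) (wT Z P N η η' c)
        fun ω => VC ρ P η (A q) ω * VC ρ P η (B q) ω) ∂μ) +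
      (1 / 2) * (∫ q, (F (mN N) (wT Z P N η η' c)
        fun ω => VC ρ P η (A' q) ω * VC ρ P η (B' q) ω) ∂μ') +
      (1 / 2) * (∫ q, (F (mN N) (wT Z P N η η' c)
        fun ω => VC ρ P η (A₃ q) ω * VC ρ P η (B₃ q) ω) ∂μ₃) +
      2 * (F (mN N) (wT Z P N η η' c)
        fun ω => VC ρ P η (PBI.beK xp xm ξ sg) ω * VC ρ P η (PBI.sgK sg) ω) -
      (xp - xm) / 2 * (F (mN N) (wT Z P N η η' c)
        fun ω => VC ρ P η (PBI.sgK sg) ω * VC ρ P η (PBI.sgK sg) ω) +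
      F (mN N) (wT Z P N η η' c) (VC ρ P η gl) := by
  have he := C1.R.he
  have q1 := C1.qid
  have q2 := C2.qid
  have q3 := C3.qid
  have o1 := C1.ok hT
  have o2 := C2.ok hT
  have o3 := C3.ok hT
  have ob : OkN Z P x0 N (fun ι _ s z => nuI ρ (PBI.beK xp xm ξ sg) ι s z *
      nuI ρ (PBI.sgK sg) ι s z) := fun n hn' => (F0_nuI2 hT adb ads hn').1
  have os : OkN Z P x0 N (fun ι _ s z => nuI ρ (PBI.sgK sg) ι s z *
      nuI ρ (PBI.sgK sg) ι s z) := fun n hn' => (F0_nuI2 hT ads ads hn').1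
  have ol : OkN Z P x0 N (nuI ρ gl) := fun n hn' => (F0_nuI hT adl hn').1
  have e : F0N Z P x0 N c (fun ι _ s z => nuQI ρ a ι s z + nuI ρ gl ι s z) =
      F0N Z P x0 N c (fun ι _ s z => ((((nuQI ρ k ι s z + nuQI ρ k' ι s z) + nuQI ρ k₃ ι s z) +
        2 * (nuI ρ (PBI.beK xp xm ξ sg) ι s z * nuI ρ (PBI.sgK sg) ι s z)) +
        -((xp - xm) / 2) * (nuI ρ (PBI.sgK sg) ι s z * nuI ρ (PBI.sgK sg) ι s z)) +
        nuI ρ gl ι s z) := by
    refine F0N_congr fun n hn' p p' w w' h1 h2 t => ?_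
    have hz : ∀ i, NUP1S.pos ((fl P).all x0 n n w w') t i ∈ D (PBI.cl n n w w' i) := fun i =>
      (C1.inD n hn').d p p' w w' h1 h2 i (t i)
    have hc : ∑ i, sc (PBI.co (PBI.cl n n w w' i)) = 0 := by
      rw [PBI.sum_sc_cl h1 h2, sub_self]
    rw [PBI.nuQI_charge he hQ hρ hn hb hs hc hz,
      nuQI_split3 (a := PBI.aLoc xp xm ξ sg a) he q1 q2 q3 hk hz]
    ring
  rw [e, F0N_add (((((o1.add o2).add o3).add (ob.smul 2)).add (os.smul _))) ol,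
    F0N_add ((((o1.add o2).add o3).add (ob.smul 2))) (os.smul _),
    F0N_add ((o1.add o2).add o3) (ob.smul 2), F0N_add (o1.add o2) o3, F0N_add o1 o2, F0N_smul,
    F0N_smul, (C1.F0N_nuQ hT).2, (C2.F0N_nuQ hT).2, (C3.F0N_nuQ hT).2, (F0N_two hT adb ads).2,
    (F0N_two hT ads ads).2, (F0N_one hT adl).2]
  ring

end total

end PBRep

end
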