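import Pool.Agent.PB.ObRep
import Pool.Agent.PB.RepT

/-!
# Plan B: the object channel

* `adS_A3`, `adS_B3`: the factors of the representation of the pairs with an object are admissible
  statistics, with bounds `alO`, `beO`;
* `inD_DQ`: the lines of all words lie in `DQ`;
* **`chnO`**: the object channel, any domain `D` with `D b ⊆ DQ b`.
-/

set_option autoImplicit false
set_option linter.unusedSectionVars false

noncomputable section

open Complex MeasureTheory Set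
open scoped Classical

namespace PBOb

open NUP1 hiding Kd
open NUP1.Bd NUP1S PB PBRep PBF
open PBI (Stt Kd F0 F0Ok fl nuI nuQI mnI InD AllW)

/-- what is used of the parameters of the lines -/
structure ParO (P : NUO.Par) : Prop where
  jL : P.jL = 9 / 4
  e1 : 1 / 4 ≤ P.e
  d0 : ∀ r, 0 ≤ P.d r
  e2 : ∀ r, P.e + P.d r ≤ 3 / 8

theorem ParO.of {P : NUO.Par} (h : NURow.ParP P) : ParO P :=
  ⟨h.jL, h.e1, fun r => (h.d0 r).le, h.e2⟩

/-- the lines of the heads lie in the domain -/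
theorem DQ_none {u : ℂ} {s : Bool} {x0 δ : ℝ} (hx0 : 13 / 25 * l ≤ x0) (hδ : δ ≤ 1 / 20)
    (h1 : x0 ≤ u.re) (h2 : u.re ≤ (1 + δ) * l) : u ∈ DQ (s, none) := by
  have hl := Bd.l_pos
  show lo none + 1 / 50 * l ≤ u.re ∧ u.re ≤ hi none - 1 / 50 * l
  simp only [lo, hi]
  constructor
  · linarith
  · have : (1 + δ) * l ≤ (1 + 1 / 20) * l := mul_le_mul_of_nonneg_right (by linarith) hl.le
    linarith

theorem DQ_L {P : NUO.Par} (hP : ParO P) {u : ℂ} {s : Bool} (h : u.re = (1 - P.jL) * l) :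
    u ∈ DQ (s, some .L) := by
  have hl := Bd.l_pos
  show lo (some .L) + 1 / 50 * l ≤ u.re ∧ u.re ≤ hi (some .L) - 1 / 50 * l
  rw [h, hP.jL]
  simp only [lo, hi]
  constructor <;> linarith

theorem DQ_T {u : ℂ} {s : Bool} (h : u.re = -(1 / 2 * l)) : u ∈ DQ (s, some .T) := by
  have hl := Bd.l_pos
  show lo (some .T) + 1 / 50 * l ≤ u.re ∧ u.re ≤ hi (some .T) - 1 / 50 * l
  rw [h]
  simp only [lo, hi]
  constructor <;> linarith

theorem DQ_S {P : NUO.Par} (hP : ParO P) {u : ℂ} {s : Bool} {r : ℕ} {e : ℝ} (h1 : P.e ≤ e)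
    (h2 : e ≤ P.e + P.d r) (h : u.re = -((1 + e) * l)) : u ∈ DQ (s, some .S) := by
  have hl := Bd.l_pos
  have h3 := hP.e1
  have h4 := hP.e2 r
  show lo (some .S) + 1 / 50 * l ≤ u.re ∧ u.re ≤ hi (some .S) - 1 / 50 * l
  rw [h]
  simp only [lo, hi]
  constructor <;> nlinarith

/-- **a statistic with a bound on `DQ` is admissible** -/
theorem adm_of {P : NUO.Par} (hP : ParO P) {x0 δ C : ℝ} (hx0 : 13 / 25 * l ≤ x0) (hδ : δ ≤ 1 / 20)
    {g : Kd → ℂ → ℂ} (hm : ∀ b, Measurable (g b))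
    (hd : ∀ (s : Bool) (u : ℂ), u ∈ DQ (s, none) → DifferentiableAt ℂ (g (s, none)) u)
    (hC : ∀ b, ∀ u ∈ DQ b, ‖g b u‖ ≤ C) : Adm (PBRep.sK g) P x0 δ C where
  m s k := hm (s, k)
  d s u h1 h2 := hd s u (DQ_none hx0 hδ h1 h2)
  A s u h1 h2 := hC (s, none) u (DQ_none hx0 hδ h1 h2)
  L s u h := hC (s, some .L) u (DQ_L hP h)
  T s u h := hC (s, some .T) u (DQ_T h)
  S s r e u h1 h2 h := hC (s, some .S) u (DQ_S hP h1 h2 h)

theorem DQ_int {b : Kd} {u : ℂ} (h : u ∈ DQ b) : lo b.2 < u.re ∧ u.re < hi b.2 := by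
  have hl := Bd.l_pos
  exact ⟨by linarith [h.1], by linarith [h.2]⟩

theorem adm_A3 {X : ℂ → ℂ} {xp xm : ℂ} {M : ℝ} (hX : Measurable X) (h : FX X xp xm M)
    {P : NUO.Par} (hP : ParO P) {x0 δ : ℝ} (hx0 : 13 / 25 * l ≤ x0) (hδ : δ ≤ 1 / 20) (q : IxO) :
    Adm (PBRep.sK (A3 X xp xm q)) P x0 δ (alO (‖xp - xm‖ + M) q) := by
  have hM := h.M_nonneg
  refine adm_of hP hx0 hδ (fun b => (measurable_A3 hX xp xm b).comp
    (measurable_const.prodMk measurable_id)) (fun s u hu => A3_diff h.dif xp xm q _ (DQ_sub _ hu))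
    fun b u hu => ?_
  refine (norm_A3_le h q (DQ_sub _ hu)).trans (mul_le_of_le_one_right
    (alO_nonneg (by positivity) q) ?_)
  rw [Real.exp_le_one_iff]
  nlinarith [abs_nonneg u.im]

theorem adm_B3 {P : NUO.Par} (hP : ParO P) {x0 δ a : ℝ} (hx0 : 13 / 25 * l ≤ x0) (hδ : δ ≤ 1 / 20)
    (ha0 : 0 ≤ a) (ha : a ≤ 10) (q : IxO) : Adm (PBRep.sK (B3 q)) P x0 δ (beO a q) := by
  refine adm_of hP hx0 hδ (fun b => (measurable_B3 b).comp
    (measurable_const.prodMk measurable_id)) (fun s u hu => B3_diff q _ (DQ_int hu).1 (DQ_int hu).2)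
    fun b u hu => ?_
  refine (norm_B3_le ha0 ha q hu).trans (mul_le_of_le_one_right (beO_nonneg a q) ?_)
  rw [Real.exp_le_one_iff]
  nlinarith [abs_nonneg u.im]

/-- the lines of a word lie in the strips of the final stage -/
theorem all_DQ {P : NUO.Par} (hP : NURow.ParP P) {x0 : ℝ} (h0 : 13 / 25 * l ≤ x0)
    (h1 : x0 ≤ 59 / 50 * l) (n n' : ℕ) {p p' : ℕ} (k : Fin p → O3) (k' : Fin p' → O3)
    (i : (Fin (nA n k) ⊕ Fin p) ⊕ (Fin (nA n' k') ⊕ Fin p')) (t : ℝ) :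
    vl ((fl P).all x0 n n' k k' i) t ∈ DQ (PBI.cl n n' k k' i) := by
  have hl := Bd.l_pos
  have hre : ∀ y : ℝ, (vl y t).re = y := fun y => by simp [vl]
  have key : ∀ (s : Bool) (k : O3) (x : ℝ), x ∈ Set.Icc (NURow.loP (some k)) (NURow.hiP (some k)) →
      vl x t ∈ DQ (s, some k) := by
    rintro s k x ⟨a, b⟩
    show lo (some k) + 1 / 50 * l ≤ (vl x t).re ∧ (vl x t).re ≤ hi (some k) - 1 / 50 * l
    rw [hre]
    cases k <;> simp only [lo, hi, NURow.loP, NURow.hiP] at * <;> constructor <;> linarith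
  have hA : ∀ s : Bool, vl x0 t ∈ DQ (s, none) := by
    intro s
    show lo none + 1 / 50 * l ≤ (vl x0 t).re ∧ (vl x0 t).re ≤ hi none - 1 / 50 * l
    rw [hre]
    simp only [lo, hi]
    constructor <;> linarith
  rcases i with (i | i) | (i | i)
  · exact hA true
  · exact key true (k i) _ ((NURow.lnA_P hP).hX p p' k k' i)
  · exact hA false
  · exact key false (k' i) _ ((NURow.lnA_P hP).hY p p' k k' i)

theorem inD_DQ {P : NUO.Par} (hP : NURow.ParP P) {x0 : ℝ} (h0 : 13 / 25 * l ≤ x0)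
    (h1 : x0 ≤ 59 / 50 * l) (n n' : ℕ) {c c' : ℝ} (hc : 0 ≤ c) (hc' : 0 ≤ c') :
    InD x0 n n' (fl P) DQ (fun _ z => Real.exp (-c * |z.im|))
      (fun _ z => Real.exp (-c' * |z.im|)) := by
  have key : ∀ c : ℝ, 0 ≤ c → ∀ z : ℂ, Real.exp (-c * |z.im|) ≤ 1 := by
    intro c hc z
    rw [Real.exp_le_one_iff]
    nlinarith [abs_nonneg z.im]
  exact ⟨fun p p' k k' _ _ i t => all_DQ hP h0 h1 n n' k k' i t,
    fun p p' k k' _ _ => ⟨1, fun i t => key c hc _⟩, fun p p' k k' _ _ => ⟨1, fun i t => key c' hc' _⟩⟩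

/-- **the object channel** -/
theorem chnO {X : ℂ → ℂ} {xp xm : ℂ} {M : ℝ} (hX : Measurable X) (h : FX X xp xm M)
    {P : NUO.Par} (hP : ParO P) {x0 δ : ℝ} (hx0 : 13 / 25 * l ≤ x0) (hδ : δ ≤ 1 / 20)
    {D : Kd → Set ℂ} (hD : ∀ b, D b ⊆ DQ b) {ρ : Kd → ℝ → ℂ} (hρ : ∀ b, Integrable (ρ b))
    (hρ0 : ∀ s k u, ρ (s, some k) u = 0) (hl : ∀ s u, vl l u ∈ D (s, none)) {a : ℝ}
    (ha0 : 0 ≤ a) (ha : a < 2) {N : ℕ}
    (hin : ∀ n ≤ N, InD x0 n n (fl P) D (fun _ z => Real.exp (-2 * |z.im|))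
      (fun _ z => Real.exp (-a * |z.im|))) :
    Chn P x0 δ N muO D ρ (aO X xp xm) (A3 X xp xm) B3 (alO (‖xp - xm‖ + M)) (beO a)
      (fun _ z => Real.exp (-2 * |z.im|)) (fun _ z => Real.exp (-a * |z.im|)) where
  R := rep3 hX h hD hρ hρ0 hl ha0 ha
  hm b c x _ := by
    refine AEStronglyMeasurable.mul ?_ (hρ c).1
    have hv : Measurable fun u : ℝ => vl l u := by
      unfold vl
      fun_prop
    have h1 : Measurable fun u : ℝ => aO X xp xm b c x (vl l u) := by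
      simp only [aO]
      split_ifs
      · exact measurable_const
      · exact measurable_lK' hX xp xm b c measurable_const hv
    exact h1.aestronglyMeasurable
  mA := measurable_A3 hX xp xm
  mB := measurable_B3
  adA q := ⟨_, adm_A3 hX h hP hx0 hδ q⟩
  adB q := ⟨_, adm_B3 hP hx0 hδ ha0 (by linarith) q⟩
  inD := hin

end PBOb

end
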