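import Pool.Agent.PB.CovW

/-!
# Plan B: the first Ward identity in terms of the free quanta, abstract part (helper15)

`F μ w O = ∫ w O`; `Vp g`, `Vm g` the centred statistics of the free quanta (both channels), `S` the
step, `pin ≥ 0` the pinning function of the objects.

* `Pins`: first moments with one factor `pin`;
* `PinO`, `Obj1`: pinned observables; an observable `V g + O`, `O` pinned;
* `chan_bd`: one channel, `∫ F[X Y] - ∫ F[V A V B]`;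
* `obj_bd`: the pairs with an object;
* **`repI_abs`**: the total insertion against the form of `PBE.E_prime`.
-/

set_option autoImplicit false

open MeasureTheory Complex Filter Topology
open scoped ENNReal

noncomputable section

namespace PBRep

open PBFunc PBE

variable {Ω : Type*} [MeasurableSpace Ω] {μ : Measure Ω}

/-- moments with one pinned factor -/
structure Pins (y₁ y₂ a : ℝ) (μ : Measure Ω) (w : Ω → ℂ) (Vp Vm : (ℂ → ℂ) → Ω → ℂ) (S : Ω → ℂ)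
    (pin : Ω → ℝ) (δ : ℝ) : Prop where
  δ0 : 0 ≤ δ
  p0 : ∀ ω, 0 ≤ pin ω
  one : L1 μ w (fun ω => (pin ω : ℂ)) δ
  two : L1 μ w (fun ω => (pin ω : ℂ) * pin ω) δ
  st : L1 μ w (fun ω => (pin ω : ℂ) * S ω) δ
  vp : ∀ M h, TC y₁ y₂ a M h → L1 μ w (fun ω => (pin ω : ℂ) * Vp h ω) (M * δ)
  vm : ∀ M h, TC y₁ y₂ a M h → L1 μ w (fun ω => (pin ω : ℂ) * Vm h ω) (M * δ)

/-- a pinned observable -/
structure PinO (μ : Measure Ω) (pin : Ω → ℝ) (O : Ω → ℂ) (M : ℝ) : Prop where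
  m : AEStronglyMeasurable O μ
  M0 : 0 ≤ M
  bd : ∀ ω, ‖O ω‖ ≤ M * pin ω

/-- a statistic of the free quanta plus a pinned observable -/
structure Obs (y₁ y₂ a : ℝ) (μ : Measure Ω) (V : (ℂ → ℂ) → Ω → ℂ) (pin : Ω → ℝ) (k : ℝ)
    (X : Ω → ℂ) (g : ℂ → ℂ) (M : ℝ) : Prop where
  tc : TC y₁ y₂ a M g
  m : AEStronglyMeasurable (V g) μ
  O : PinO μ pin (fun ω => X ω - V g ω) (k * M)

section

variable {y₁ y₂ a δ : ℝ} {w : Ω → ℂ} {Vp Vm V : (ℂ → ℂ) → Ω → ℂ} {S : Ω → ℂ} {pin : Ω → ℝ}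

theorem L1.dom {A : Ω → ℂ} {B : Ω → ℂ} {M b : ℝ} (hM : 0 ≤ M) (h : L1 μ w B b)
    (hd : ∀ ω, ‖A ω‖ ≤ M * ‖B ω‖) : L1 μ w A (M * b) := by
  unfold L1 at *
  calc ∫⁻ ω, ENNReal.ofReal (‖w ω‖ * ‖A ω‖) ∂μ ≤
      ∫⁻ ω, ENNReal.ofReal M * ENNReal.ofReal (‖w ω‖ * ‖B ω‖) ∂μ := by
        refine lintegral_mono fun ω => ?_
        rw [← ENNReal.ofReal_mul hM]
        apply ENNReal.ofReal_le_ofReal
        calc ‖w ω‖ * ‖A ω‖ ≤ ‖w ω‖ * (M * ‖B ω‖) := mul_le_mul_of_nonneg_left (hd ω) (norm_nonneg _)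
          _ = _ := by ring
    _ = ENNReal.ofReal M * ∫⁻ ω, ENNReal.ofReal (‖w ω‖ * ‖B ω‖) ∂μ :=
        lintegral_const_mul' _ _ ENNReal.ofReal_ne_top
    _ ≤ ENNReal.ofReal M * ENNReal.ofReal b := mul_le_mul' le_rfl h
    _ = _ := (ENNReal.ofReal_mul hM).symm

/-- pinned times an observable with a pinned moment -/
theorem PinO.l1 {O Y : Ω → ℂ} {M b : ℝ} (hO : PinO μ pin O M)
    (h : L1 μ w (fun ω => (pin ω : ℂ) * Y ω) b) (hp : ∀ ω, 0 ≤ pin ω) :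
    L1 μ w (fun ω => O ω * Y ω) (M * b) :=
  L1.dom hO.M0 h fun ω => by
    rw [norm_mul, norm_mul, norm_real, Real.norm_of_nonneg (hp ω), ← mul_assoc]
    exact mul_le_mul_of_nonneg_right (hO.bd ω) (norm_nonneg _)

theorem PinO.l1' {O : Ω → ℂ} {M : ℝ} (hO : PinO μ pin O M)
    (h : L1 μ w (fun ω => (pin ω : ℂ)) δ) (hp : ∀ ω, 0 ≤ pin ω) : L1 μ w O (M * δ) :=
  L1.dom hO.M0 h fun ω => by
    rw [norm_real, Real.norm_of_nonneg (hp ω)]
    exact hO.bd ω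

/-- two pinned observables -/
theorem PinO.l2 {O O' : Ω → ℂ} {M M' : ℝ} (hO : PinO μ pin O M) (hO' : PinO μ pin O' M')
    (h : L1 μ w (fun ω => (pin ω : ℂ) * pin ω) δ) (hp : ∀ ω, 0 ≤ pin ω) :
    L1 μ w (fun ω => O ω * O' ω) (M * M' * δ) :=
  L1.dom (mul_nonneg hO.M0 hO'.M0) h fun ω => by
    rw [norm_mul, norm_mul, norm_real, Real.norm_of_nonneg (hp ω)]
    have h1 := hO.bd ω
    have h2 := hO'.bd ω
    calc ‖O ω‖ * ‖O' ω‖ ≤ (M * pin ω) * (M' * pin ω) :=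
          mul_le_mul h1 h2 (norm_nonneg _) ((norm_nonneg _).trans h1)
      _ = _ := by ring

theorem l1_swap {A B : Ω → ℂ} {b : ℝ} (h : L1 μ w (fun ω => A ω * B ω) b) :
    L1 μ w (fun ω => B ω * A ω) b := by
  have e : (fun ω => B ω * A ω) = fun ω => A ω * B ω := by
    funext ω
    ring
  rw [e]
  exact h

/-- **one product** -/
theorem prod_bd {K M M' k : ℝ} {X Y : Ω → ℂ} {g h : ℂ → ℂ} (hw : AEStronglyMeasurable w μ)
    (hP : Pins y₁ y₂ a μ w Vp Vm S pin δ)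
    (hV : ∀ M h, TC y₁ y₂ a M h → L1 μ w (fun ω => (pin ω : ℂ) * V h ω) (M * δ))
    (v2 : ∀ M h, TC y₁ y₂ a M h → AEStronglyMeasurable (V h) μ → M2 μ w K (V h) M)
    (hy1 : y₁ < 0) (hy2 : 0 < y₂) (hK : 0 ≤ K) (hk : 0 ≤ k)
    (hX : Obs y₁ y₂ a μ V pin k X g M) (hY : Obs y₁ y₂ a μ V pin k Y h M') :
    WI μ w (fun ω => X ω * Y ω) ∧
    ‖F μ w (fun ω => X ω * Y ω) - F μ w (fun ω => V g ω * V h ω)‖ ≤
      (2 * k + k ^ 2) * (M * M') * δ := by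
  have M0 := hX.tc.nonneg hy1 hy2
  have M0' := hY.tc.nonneg hy1 hy2
  have δ0 := hP.δ0
  have l1 := hX.O.l1 (hV _ _ hY.tc) hP.p0
  have l2 := l1_swap (hY.O.l1 (hV _ _ hX.tc) hP.p0)
  have l3 := hX.O.l2 hY.O hP.two hP.p0
  have m1 : AEStronglyMeasurable (fun ω => (X ω - V g ω) * V h ω) μ := hX.O.m.mul hY.m
  have m2 : AEStronglyMeasurable (fun ω => V g ω * (Y ω - V h ω)) μ := hX.m.mul hY.O.m
  have m3 : AEStronglyMeasurable (fun ω => (X ω - V g ω) * (Y ω - V h ω)) μ :=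
    hX.O.m.mul hY.O.m
  have m12 : AEStronglyMeasurable (fun ω => (X ω - V g ω) * V h ω + V g ω * (Y ω - V h ω)) μ :=
    m1.add m2
  have wV : WI μ w (fun ω => V g ω * V h ω) :=
    ((v2 _ _ hX.tc hX.m).mul' M0 M0' hK hw hX.m (v2 _ _ hY.tc hY.m)).wi hw (hX.m.mul hY.m)
  have c1 : 0 ≤ k * M * (M' * δ) := by positivity
  have c2 : 0 ≤ k * M' * (M * δ) := by positivity
  have c3 : 0 ≤ k * M * (k * M') * δ := by positivity
  have s1 := L1.add c1 c2 m1 hw l1 l2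
  have s2 := L1.add (add_nonneg c1 c2) c3 m12 hw s1 l3
  have e : (fun ω => X ω * Y ω) = fun ω => ((X ω - V g ω) * V h ω + V g ω * (Y ω - V h ω) +
      (X ω - V g ω) * (Y ω - V h ω)) + V g ω * V h ω := by
    funext ω
    ring
  have w1 := s2.wi hw (m12.add m3)
  rw [e]
  refine ⟨w1.add wV, ?_⟩
  rw [F_add w1 wV, add_sub_cancel_right]
  refine (norm_F_L1 (add_nonneg (add_nonneg c1 c2) c3) s2).trans (le_of_eq ?_)
  ring

variable {T : Type*} [MeasurableSpace T] {σ : Measure T}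

/-- **one channel** -/
theorem chan_bd {K k : ℝ} {A B : T → ℂ → ℂ} {X Y : T → Ω → ℂ} {al be : T → ℝ}
    (hw : AEStronglyMeasurable w μ) (hP : Pins y₁ y₂ a μ w Vp Vm S pin δ)
    (hV : ∀ M h, TC y₁ y₂ a M h → L1 μ w (fun ω => (pin ω : ℂ) * V h ω) (M * δ))
    (v2 : ∀ M h, TC y₁ y₂ a M h → AEStronglyMeasurable (V h) μ → M2 μ w K (V h) M)
    (hy1 : y₁ < 0) (hy2 : 0 < y₂) (hK : 0 ≤ K) (hk : 0 ≤ k)
    (hab : Integrable (fun q => al q * be q) σ)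
    (hX : ∀ q, Obs y₁ y₂ a μ V pin k (X q) (A q) (al q))
    (hY : ∀ q, Obs y₁ y₂ a μ V pin k (Y q) (B q) (be q))
    (i1 : Integrable (fun q => F μ w fun ω => X q ω * Y q ω) σ)
    (i2 : Integrable (fun q => F μ w fun ω => V (A q) ω * V (B q) ω) σ) :
    ‖(∫ q, (F μ w fun ω => X q ω * Y q ω) ∂σ) -
      ∫ q, (F μ w fun ω => V (A q) ω * V (B q) ω) ∂σ‖ ≤
      (2 * k + k ^ 2) * (∫ q, al q * be q ∂σ) * δ := by
  rw [← integral_sub i1 i2]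
  have hb : Integrable (fun q => (2 * k + k ^ 2) * (al q * be q) * δ) σ :=
    (hab.const_mul _).mul_const _
  refine (norm_integral_le_of_norm_le hb (Eventually.of_forall fun q => ?_)).trans (le_of_eq ?_)
  · exact (prod_bd hw hP hV v2 hy1 hy2 hK hk (hX q) (hY q)).2
  · rw [integral_mul_const, integral_const_mul]

/-- an observable of one kind: pinned, or a statistic of one species plus a pinned observable -/
inductive Obj1 (y₁ y₂ a : ℝ) (μ : Measure Ω) (Vp Vm : (ℂ → ℂ) → Ω → ℂ) (pin : Ω → ℝ) (k : ℝ)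
    (X : Ω → ℂ) (M : ℝ) : Prop
  | obj (h : PinO μ pin X (k * M)) : Obj1 y₁ y₂ a μ Vp Vm pin k X M
  | qua (g : ℂ → ℂ) (ε : ℂ) (hε : ‖ε‖ ≤ 1) (tc : TC y₁ y₂ a M g)
      (mp : AEStronglyMeasurable (Vp g) μ) (mm : AEStronglyMeasurable (Vm g) μ)
      (h : PinO μ pin (fun ω => X ω - (1 / 2) * (Vp g ω + ε * Vm g ω)) (k * M)) :
      Obj1 y₁ y₂ a μ Vp Vm pin k X M

theorem Obj1.l1 {k M M' : ℝ} {X Y : Ω → ℂ} (hw : AEStronglyMeasurable w μ)
    (hP : Pins y₁ y₂ a μ w Vp Vm S pin δ) (hk : 0 ≤ k)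
    (hM' : 0 ≤ M') (hX : PinO μ pin X (k * M)) (hY : Obj1 y₁ y₂ a μ Vp Vm pin k Y M') :
    AEStronglyMeasurable Y μ ∧ L1 μ w (fun ω => X ω * Y ω) (k * M * ((1 + k) * M' * δ)) := by
  have δ0 := hP.δ0
  have kM := hX.M0
  rcases hY with hY | ⟨g, ε, hε, tc, mp, mm, hO⟩
  · refine ⟨hY.m, (hX.l2 hY hP.two hP.p0).mono ?_⟩
    have : 0 ≤ k * M * (M' * δ) := by positivity
    nlinarith
  · have l1 := hX.l1 (hP.vp _ _ tc) hP.p0
    have l2 := hX.l1 (hP.vm _ _ tc) hP.p0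
    have l3 := hX.l2 hO hP.two hP.p0
    have a1 : L1 μ w (fun ω => (1 / 2 : ℂ) * (X ω * Vp g ω)) (1 / 2 * (k * M * (M' * δ))) :=
      L1.dom (by norm_num) l1 fun ω => by rw [norm_mul]; norm_num
    have a2 : L1 μ w (fun ω => (1 / 2 : ℂ) * ε * (X ω * Vm g ω)) (1 / 2 * (k * M * (M' * δ))) :=
      L1.dom (by norm_num) l2 fun ω => by
        rw [norm_mul, norm_mul]
        refine mul_le_mul_of_nonneg_right ?_ (norm_nonneg _)
        calc ‖(1 / 2 : ℂ)‖ * ‖ε‖ ≤ ‖(1 / 2 : ℂ)‖ * 1 := by gcongr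
          _ = 1 / 2 := by norm_num
    have m1 : AEStronglyMeasurable (fun ω => (1 / 2 : ℂ) * (X ω * Vp g ω)) μ :=
      (hX.m.mul mp).const_mul _
    have m2 : AEStronglyMeasurable (fun ω => (1 / 2 : ℂ) * ε * (X ω * Vm g ω)) μ :=
      (hX.m.mul mm).const_mul _
    have m12 : AEStronglyMeasurable (fun ω => (1 / 2 : ℂ) * (X ω * Vp g ω) +
        (1 / 2 : ℂ) * ε * (X ω * Vm g ω)) μ := m1.add m2
    have c1 : 0 ≤ 1 / 2 * (k * M * (M' * δ)) := by positivity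
    have c3 : 0 ≤ k * M * (k * M') * δ := by positivity
    have s1 := L1.add c1 c1 m1 hw a1 a2
    have s2 := L1.add (add_nonneg c1 c1) c3 m12 hw s1 l3
    constructor
    · have e : Y = fun ω => (Y ω - 1 / 2 * (Vp g ω + ε * Vm g ω)) +
          1 / 2 * (Vp g ω + ε * Vm g ω) := by
        funext ω
        ring
      rw [e]
      exact hO.m.add ((mp.add (mm.const_mul ε)).const_mul _)
    · have e : (fun ω => X ω * Y ω) = fun ω => (1 / 2 : ℂ) * (X ω * Vp g ω) +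
          (1 / 2 : ℂ) * ε * (X ω * Vm g ω) + X ω * (Y ω - 1 / 2 * (Vp g ω + ε * Vm g ω)) := by
        funext ω
        ring
      rw [e]
      refine s2.mono (le_of_eq ?_)
      ring

/-- **the pairs with an object**: one factor is pinned -/
theorem obj_bd {k : ℝ} {X Y : T → Ω → ℂ} {al be : T → ℝ} (hw : AEStronglyMeasurable w μ)
    (hP : Pins y₁ y₂ a μ w Vp Vm S pin δ) (hk : 0 ≤ k)
    (a0 : ∀ q, 0 ≤ al q) (b0 : ∀ q, 0 ≤ be q)
    (hab : Integrable (fun q => al q * be q) σ)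
    (h : ∀ q, (PinO μ pin (X q) (k * al q) ∧ Obj1 y₁ y₂ a μ Vp Vm pin k (Y q) (be q)) ∨
      (Obj1 y₁ y₂ a μ Vp Vm pin k (X q) (al q) ∧ PinO μ pin (Y q) (k * be q))) :
    ‖∫ q, (F μ w fun ω => X q ω * Y q ω) ∂σ‖ ≤ k * (1 + k) * (∫ q, al q * be q ∂σ) * δ := by
  have hb : Integrable (fun q => k * (1 + k) * (al q * be q) * δ) σ :=
    (hab.const_mul _).mul_const _
  refine (norm_integral_le_of_norm_le hb (Eventually.of_forall fun q => ?_)).trans (le_of_eq ?_)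
  · have δ0 := hP.δ0
    have ha := a0 q
    have hb := b0 q
    rcases h q with ⟨h1, h2⟩ | ⟨h1, h2⟩
    · have := (h2.l1 hw hP hk hb h1).2
      refine (norm_F_L1 (by positivity) this).trans (le_of_eq ?_)
      ring
    · have := l1_swap (h1.l1 hw hP hk ha h2).2
      refine (norm_F_L1 (by positivity) this).trans (le_of_eq ?_)
      ring
  · rw [integral_mul_const, integral_const_mul]

/-- an observable against a factor with a second moment -/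
theorem obs_mul {K M b k : ℝ} {X R : Ω → ℂ} {g : ℂ → ℂ} (hw : AEStronglyMeasurable w μ)
    (hP : Pins y₁ y₂ a μ w Vp Vm S pin δ) (hK : 0 ≤ K) (hy1 : y₁ < 0) (hy2 : 0 < y₂)
    (hb : 0 ≤ b) (mR : AEStronglyMeasurable R μ) (r2 : M2 μ w K R b)
    (hR : L1 μ w (fun ω => (pin ω : ℂ) * R ω) (b * δ))
    (v2 : ∀ M h, TC y₁ y₂ a M h → AEStronglyMeasurable (V h) μ → M2 μ w K (V h) M)
    (hk : 0 ≤ k) (hX : Obs y₁ y₂ a μ V pin k X g M) :
    WI μ w (fun ω => X ω * R ω) ∧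
      ‖F μ w (fun ω => X ω * R ω) - F μ w (fun ω => V g ω * R ω)‖ ≤ k * M * b * δ := by
  have M0 := hX.tc.nonneg hy1 hy2
  have δ0 := hP.δ0
  have l1 := hX.O.l1 hR hP.p0
  have m1 : AEStronglyMeasurable (fun ω => (X ω - V g ω) * R ω) μ := hX.O.m.mul mR
  have w1 := l1.wi hw m1
  have wV : WI μ w (fun ω => V g ω * R ω) :=
    ((v2 _ _ hX.tc hX.m).mul' M0 hb hK hw hX.m r2).wi hw (hX.m.mul mR)
  have e : (fun ω => X ω * R ω) = fun ω => (X ω - V g ω) * R ω + V g ω * R ω := by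
    funext ω
    ring
  rw [e]
  refine ⟨w1.add wV, ?_⟩
  rw [F_add w1 wV, add_sub_cancel_right]
  refine (norm_F_L1 (by positivity) l1).trans (le_of_eq ?_)
  ring

variable {T' T₃ : Type*} [MeasurableSpace T'] [MeasurableSpace T₃] {σ' : Measure T'}
  {σ₃ : Measure T₃}

/-- **The total insertion against the form of `PBE.E_prime`.** -/
theorem repI_abs {K k Mu Mq : ℝ} {A B : T → ℂ → ℂ} {X Y : T → Ω → ℂ} {al be : T → ℝ}
    {A' B' : T' → ℂ → ℂ} {X' Y' : T' → Ω → ℂ} {al' be' : T' → ℝ}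
    {X₃ Y₃ : T₃ → Ω → ℂ} {al₃ be₃ : T₃ → ℝ} {u qf : ℂ → ℂ} {Xu Xq : Ω → ℂ} {J : ℂ}
    (hw : AEStronglyMeasurable w μ) (hP : Pins y₁ y₂ a μ w Vp Vm S pin δ)
    (h1 : M2 μ w K (fun _ => 1) 1)
    (vp : ∀ M h, TC y₁ y₂ a M h → AEStronglyMeasurable (Vp h) μ → M2 μ w K (Vp h) M)
    (vm : ∀ M h, TC y₁ y₂ a M h → AEStronglyMeasurable (Vm h) μ → M2 μ w K (Vm h) M)
    (mS : AEStronglyMeasurable S μ) (s2 : M2 μ w K S 1)
    (hy1 : y₁ < 0) (hy2 : 0 < y₂) (hK : 0 ≤ K) (hk : 0 ≤ k)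
    -- plus channel
    (hab : Integrable (fun q => al q * be q) σ)
    (hX : ∀ q, Obs y₁ y₂ a μ Vp pin k (X q) (A q) (al q))
    (hY : ∀ q, Obs y₁ y₂ a μ Vp pin k (Y q) (B q) (be q))
    (i1 : Integrable (fun q => F μ w fun ω => X q ω * Y q ω) σ)
    (i2 : Integrable (fun q => F μ w fun ω => Vp (A q) ω * Vp (B q) ω) σ)
    -- minus channel
    (hab' : Integrable (fun q => al' q * be' q) σ')
    (hX' : ∀ q, Obs y₁ y₂ a μ Vm pin k (X' q) (A' q) (al' q))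
    (hY' : ∀ q, Obs y₁ y₂ a μ Vm pin k (Y' q) (B' q) (be' q))
    (i1' : Integrable (fun q => F μ w fun ω => X' q ω * Y' q ω) σ')
    (i2' : Integrable (fun q => F μ w fun ω => Vm (A' q) ω * Vm (B' q) ω) σ')
    -- pairs with an object
    (hab₃ : Integrable (fun q => al₃ q * be₃ q) σ₃) (a0 : ∀ q, 0 ≤ al₃ q) (b0 : ∀ q, 0 ≤ be₃ q)
    (h₃ : ∀ q, (PinO μ pin (X₃ q) (k * al₃ q) ∧ Obj1 y₁ y₂ a μ Vp Vm pin k (Y₃ q) (be₃ q)) ∨
      (Obj1 y₁ y₂ a μ Vp Vm pin k (X₃ q) (al₃ q) ∧ PinO μ pin (Y₃ q) (k * be₃ q)))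
    -- plateau part and the leg
    (hu : Obs y₁ y₂ a μ Vm pin k Xu u Mu) (hq : Obs y₁ y₂ a μ Vp pin k Xq qf Mq) :
    ‖((∫ q, (F μ w fun ω => X q ω * Y q ω) ∂σ) + (∫ q, (F μ w fun ω => X' q ω * Y' q ω) ∂σ') +
        (1 / 2) * (∫ q, (F μ w fun ω => X₃ q ω * Y₃ q ω) ∂σ₃) +
        2 * (F μ w fun ω => Xu ω * S ω) - J / 2 * (F μ w fun ω => S ω * S ω) + F μ w Xq) -
      ((∫ q, (F μ w fun ω => Vp (A q) ω * Vp (B q) ω) ∂σ) +
        ((∫ q, (F μ w fun ω => Vm (A' q) ω * Vm (B' q) ω) ∂σ') +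
          2 * (F μ w fun ω => Vm u ω * S ω) - J / 2 * (F μ w fun ω => S ω * S ω)) +
        F μ w (Vp qf))‖ ≤
      ((2 * k + k ^ 2) * ((∫ q, al q * be q ∂σ) + ∫ q, al' q * be' q ∂σ') +
        k * (1 + k) * (∫ q, al₃ q * be₃ q ∂σ₃) + 2 * (k * Mu) + k * Mq) * δ := by
  have δ0 := hP.δ0
  have e1 := chan_bd hw hP hP.vp vp hy1 hy2 hK hk hab hX hY i1 i2
  have e2 := chan_bd hw hP hP.vm vm hy1 hy2 hK hk hab' hX' hY' i1' i2'
  have e3 := obj_bd hw hP hk a0 b0 hab₃ h₃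
  have e4 := (obs_mul (V := Vm) hw hP hK hy1 hy2 zero_le_one mS s2
    (by simpa only [one_mul] using hP.st) vm hk hu).2
  have e5 : ‖F μ w Xq - F μ w (Vp qf)‖ ≤ k * Mq * δ := by
    have := (obs_mul (V := Vp) (R := fun _ => 1) hw hP hK hy1 hy2 zero_le_one
      aestronglyMeasurable_const h1 (by simpa only [one_mul, mul_one] using hP.one) vp hk hq).2
    simpa only [mul_one] using this
  rw [mul_one] at e4
  set P1 := ∫ q, (F μ w fun ω => X q ω * Y q ω) ∂σ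
  set P2 := ∫ q, (F μ w fun ω => Vp (A q) ω * Vp (B q) ω) ∂σ
  set Q1 := ∫ q, (F μ w fun ω => X' q ω * Y' q ω) ∂σ'
  set Q2 := ∫ q, (F μ w fun ω => Vm (A' q) ω * Vm (B' q) ω) ∂σ'
  set R1 := ∫ q, (F μ w fun ω => X₃ q ω * Y₃ q ω) ∂σ₃
  set U1 := F μ w fun ω => Xu ω * S ω
  set U2 := F μ w fun ω => Vm u ω * S ω
  have e : (P1 + Q1 + 1 / 2 * R1 + 2 * U1 - J / 2 * (F μ w fun ω => S ω * S ω) + F μ w Xq) -
      (P2 + (Q2 + 2 * U2 - J / 2 * (F μ w fun ω => S ω * S ω)) + F μ w (Vp qf)) =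
      (P1 - P2) + (Q1 - Q2) + 1 / 2 * R1 + 2 * (U1 - U2) + (F μ w Xq - F μ w (Vp qf)) := by ring
  rw [e]
  have n3 : ‖(1 / 2 : ℂ) * R1‖ ≤ k * (1 + k) * (∫ q, al₃ q * be₃ q ∂σ₃) * δ := by
    rw [norm_mul]
    have : ‖(1 / 2 : ℂ)‖ = 1 / 2 := by norm_num
    rw [this]
    have := norm_nonneg R1
    linarith
  have n4 : ‖(2 : ℂ) * (U1 - U2)‖ ≤ 2 * (k * Mu * δ) := by
    rw [norm_mul]
    have : ‖(2 : ℂ)‖ = 2 := by simp
    rw [this]
    exact mul_le_mul_of_nonneg_left e4 (by norm_num)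
  calc ‖(P1 - P2) + (Q1 - Q2) + 1 / 2 * R1 + 2 * (U1 - U2) + (F μ w Xq - F μ w (Vp qf))‖
      ≤ (2 * k + k ^ 2) * (∫ q, al q * be q ∂σ) * δ + (2 * k + k ^ 2) * (∫ q, al' q * be' q ∂σ') * δ +
        k * (1 + k) * (∫ q, al₃ q * be₃ q ∂σ₃) * δ + 2 * (k * Mu * δ) + k * Mq * δ :=
        (norm_add_le _ _).trans (add_le_add ((norm_add_le _ _).trans (add_le_add
          ((norm_add_le _ _).trans (add_le_add ((norm_add_le _ _).trans (add_le_add e1 e2)) n3))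
          n4)) e5)
    _ = _ := by ring

end

end PBRep

end
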