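import Pool.Agent.PB.TRsB
import Pool.Agent.NUGC.OneXH

/-!
# Plan B, I1: measurability and bounds of the statistics of the representations

* `meas_sig_s`: measurability on `T × Σ i, X i` piece by piece;
* `MIs`: insertions with a parameter; `evN_meas_s`; `MIs_stO`, `MIs_stQ`, `MIs_stA`: the statistics of
  a jointly measurable family `D : T → ..`; `evN_stA_s`, `evN_stO_s`, `evN_stQ_s`;
* `MIn_tA`: the statistics for fixed data (`MIn_stA`, `MIn_stO`, `MIn_stQ` of `TRsB`);
* `pinI a`: the insertion `∑ i, e^{-a |ht (O i)|}`; `stO_le`, `stO_leC`: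
  `‖stO D P O‖ ≤ 40 M ∑ i, e^{-a |ht (O i)|}`.
-/

set_option autoImplicit false
set_option linter.unusedSectionVars false

noncomputable section

open Complex MeasureTheory Finset
open scoped ENNReal

namespace PBF

open NUO NUP1 NUCR NUP1S NUP1S.Ab NUP1S.AbC NUGC PBFunc

variable {T : Type*} [MeasurableSpace T]

/-! ### sums with a parameter -/

/-- **measurability on `T × Σ i, X i`, piece by piece** -/
theorem meas_sig_s {I : Type*} [Fintype I] {X : I → Type*} [∀ i, MeasurableSpace (X i)]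
    {β : Type*} [MeasurableSpace β] {f : T × (Σ i, X i) → β} :
    Measurable f ↔ ∀ i, Measurable fun p : T × X i => f (p.1, ⟨i, p.2⟩) := by
  have hemb : ∀ i, MeasurableEmbedding
      (Prod.map id (Sigma.mk i) : T × X i → T × (Σ i, X i)) := fun i =>
    MeasurableEmbedding.id.prodMap (emb_mk i)
  constructor
  · intro h i
    exact h.comp (hemb i).measurable
  · intro h s hs
    have e : f ⁻¹' s = ⋃ i, Prod.map id (Sigma.mk i) ''
        ((fun p : T × X i => f (p.1, ⟨i, p.2⟩)) ⁻¹' s) := by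
      ext ⟨t, ⟨i, x⟩⟩
      constructor
      · intro hx
        exact Set.mem_iUnion.2 ⟨i, (t, x), hx, rfl⟩
      · intro hx
        obtain ⟨j, ⟨t', y⟩, hy, hxy⟩ := Set.mem_iUnion.1 hx
        rw [Set.mem_preimage, ← hxy]
        exact hy
    rw [e]
    exact MeasurableSet.iUnion fun i => (hemb i).measurableSet_image' (h i hs)

/-! ### insertions with a parameter -/

/-- **jointly measurable insertions with a parameter** -/
def MIs (Ψ : T → Ins) : Prop :=
  ∀ r a b : ℕ, Measurable fun p : T × ((Fin r → Xo) × ((Fin a → ℝ) × (Fin b → ℝ))) =>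
    Ψ p.1 r p.2.1 a b p.2.2

theorem MIs.at {Ψ : T → Ins} (h : MIs Ψ) (t : T) : MIn (Ψ t) := fun r a b =>
  (h r a b).comp (measurable_const.prodMk measurable_id)

theorem MIs.const {Ψ : Ins} (h : MIn Ψ) : MIs fun _ : T => Ψ := fun r a b =>
  (h r a b).comp measurable_snd

theorem MIs.add {Ψ Ψ' : T → Ins} (h : MIs Ψ) (h' : MIs Ψ') :
    MIs fun t r O a b x => Ψ t r O a b x + Ψ' t r O a b x := fun r a b => (h r a b).add (h' r a b)

theorem MIs.sub {Ψ Ψ' : T → Ins} (h : MIs Ψ) (h' : MIs Ψ') :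
    MIs fun t r O a b x => Ψ t r O a b x - Ψ' t r O a b x := fun r a b => (h r a b).sub (h' r a b)

theorem MIs.mul {Ψ Ψ' : T → Ins} (h : MIs Ψ) (h' : MIs Ψ') :
    MIs fun t r O a b x => Ψ t r O a b x * Ψ' t r O a b x := fun r a b => (h r a b).mul (h' r a b)

theorem MIs.cst {c : T → ℂ} (h : Measurable c) : MIs fun t _ _ _ _ _ => c t := fun _ _ _ =>
  h.comp measurable_fst

theorem MIs.ev {n n' : ℕ} {Ψ : T → Ins} (h : MIs Ψ) :
    Measurable fun p : T × Cf n n' => PBF.ev (Ψ p.1) p.2 :=
  meas_sig_s.2 fun i => h i.1 i.2.1 i.2.2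

/-- **measurability of `evN` with a parameter** -/
theorem evN_meas_s {N : ℕ} {Ψ : T → ℕ → Ins} (h : ∀ n ≤ N, MIs fun t => Ψ t n) :
    Measurable fun p : T × CfN N => evN (Ψ p.1) p.2 :=
  meas_sig_s.2 fun n => (h n (by omega)).ev

/-! ### the statistics with a parameter -/

section stat

variable {D : T → Bool → Option O3 → ℂ → ℂ}
  (hD : ∀ s k, Measurable fun p : T × ℂ => D p.1 s k p.2)

include hD

theorem measurable_obT_s (jL e : ℝ) (k : Bool × Kind) {Y : Type*} [MeasurableSpace Y]
    {τ : Y → T} {t a ρ : Y → ℝ} (hτ : Measurable τ) (ht : Measurable t) (ha : Measurable a)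
    (hρ : Measurable ρ) : Measurable fun y => obT (D (τ y)) jL e (ρ y) (k, (t y, a y)) := by
  obtain ⟨s, k⟩ := k
  have hS : Measurable fun y => posS e (t y) := NUO.measurable_vl ht _
  have hS' : Measurable fun y => posS e (t y) + 2 * l := hS.add_const _
  have hV := measurable_posV ht ha hρ e
  have hL : Measurable fun y => posL jL (t y) := NUO.measurable_vl ht _
  have hT : Measurable fun y => posT (t y) := NUO.measurable_vl ht _
  cases k
  · exact (hD s (some .L)).comp (hτ.prodMk hL)
  · exact (hD s (some .T)).comp (hτ.prodMk hT)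
  · exact (hD s (some .S)).comp (hτ.prodMk hS)
  · exact ((hD s (some .S)).comp (hτ.prodMk hS)).add ((hD (!s) none).comp (hτ.prodMk hV))
  · exact ((hD s (some .S)).comp (hτ.prodMk hS)).add
      (((hD (!s) none).comp (hτ.prodMk hS')).const_mul _)

theorem measurable_obTi_s {P : NUO.Par} {r : ℕ} (hP : Measurable (P.rad r)) (i : Fin r) :
    Measurable fun p : (Fin r → Xo) × T =>
      obT (D p.2) P.jL (ei P p.1 i) (rr P p.1 i) (p.1 i) := by
  refine measurable_config fun K => ?_
  have ht : Measurable fun y : (Fin r → ℝ × ℝ) × T => (y.1 i).1 :=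
    measurable_fst.comp ((measurable_pi_apply i).comp measurable_fst)
  have ha : Measurable fun y : (Fin r → ℝ × ℝ) × T => (y.1 i).2 :=
    measurable_snd.comp ((measurable_pi_apply i).comp measurable_fst)
  exact measurable_obT_s hD P.jL (ei P (fun i => (K i, ((0 : ℝ), (0 : ℝ)))) i) (K i)
    measurable_snd ht ha (hP.comp ht)

theorem measurable_stO_s {P : NUO.Par} {r : ℕ} (hP : Measurable (P.rad r)) :
    Measurable fun p : T × (Fin r → Xo) => stO (D p.1) P p.2 := by
  unfold stO
  refine Finset.measurable_sum _ fun i _ => ?_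
  have h := (measurable_obTi_s hD hP i).comp (measurable_swap (α := T) (β := Fin r → Xo))
  refine (congrArg Measurable (funext fun p => ?_)).mpr h
  rfl

theorem MIs_stO {P : NUO.Par} (hP : ∀ r, Measurable (P.rad r)) :
    MIs fun (t : T) r O _ _ _ => stO (r := r) (D t) P O := fun r _ _ =>
  (measurable_stO_s hD (hP r)).comp (measurable_fst.prodMk (measurable_fst.comp measurable_snd))

theorem MIs_stQ {η η' : Crs} (hc : MCr η η') :
    MIs fun (t : T) r O a b x => stQ (D t) (η r O) a b x := by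
  intro r a b
  have h0 := hc.m r
  have hpos : Measurable fun p : (Fin r → Xo) × ℝ => NUO.pA (η r p.1) p.2 := by
    unfold NUO.pA vl
    fun_prop
  unfold stQ
  refine (Finset.measurable_sum _ fun i _ => ?_).add (Finset.measurable_sum _ fun j _ => ?_)
  · have h1 : Measurable fun p : T × ((Fin r → Xo) × ((Fin a → ℝ) × (Fin b → ℝ))) =>
        ((p.2.1, p.2.2.1 i) : (Fin r → Xo) × ℝ) :=
      (measurable_fst.comp measurable_snd).prodMk ((measurable_pi_apply i).comp
        (measurable_fst.comp (measurable_snd.comp measurable_snd)))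
    have h2 := (hD true none).comp ((measurable_fst (α := T)
      (β := (Fin r → Xo) × ((Fin a → ℝ) × (Fin b → ℝ)))).prodMk (hpos.comp h1))
    refine (congrArg Measurable (funext fun p => ?_)).mpr h2
    rfl
  · have h1 : Measurable fun p : T × ((Fin r → Xo) × ((Fin a → ℝ) × (Fin b → ℝ))) =>
        ((p.2.1, p.2.2.2 j) : (Fin r → Xo) × ℝ) :=
      (measurable_fst.comp measurable_snd).prodMk ((measurable_pi_apply j).comp
        (measurable_snd.comp (measurable_snd.comp measurable_snd)))
    have h2 := (hD false none).comp ((measurable_fst (α := T)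
      (β := (Fin r → Xo) × ((Fin a → ℝ) × (Fin b → ℝ)))).prodMk (hpos.comp h1))
    refine (congrArg Measurable (funext fun p => ?_)).mpr h2
    rfl

theorem MIs_stA {P : NUO.Par} (hP : ∀ r, Measurable (P.rad r)) {η η' : Crs} (hc : MCr η η') :
    MIs fun t : T => stA (D t) P η := fun r a b =>
  (MIs_stO hD hP r a b).add (MIs_stQ hD hc r a b)

/-- **the total statistic on all configurations, jointly with the parameter** -/
theorem evN_stA_s {N : ℕ} {P : ℕ → NUO.Par} (hP : ∀ n ≤ N, ∀ r, Measurable ((P n).rad r))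
    {η η' : ℕ → Crs} (hc : ∀ n ≤ N, MCr (η n) (η' n)) :
    Measurable fun p : T × CfN N => evN (fun n => stA (D p.1) (P n) (η n)) p.2 :=
  evN_meas_s (Ψ := fun t n => stA (D t) (P n) (η n)) fun n hn => MIs_stA hD (hP n hn) (hc n hn)

theorem evN_stO_s {N : ℕ} {P : ℕ → NUO.Par} (hP : ∀ n ≤ N, ∀ r, Measurable ((P n).rad r)) :
    Measurable fun p : T × CfN N => evN (fun n _ O _ _ _ => stO (D p.1) (P n) O) p.2 :=
  evN_meas_s (Ψ := fun t n _ O _ _ _ => stO (D t) (P n) O) fun n hn => MIs_stO hD (hP n hn)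

theorem evN_stQ_s {N : ℕ} {η η' : ℕ → Crs} (hc : ∀ n ≤ N, MCr (η n) (η' n)) :
    Measurable fun p : T × CfN N =>
      evN (fun n r O a b x => stQ (D p.1) (η n r O) a b x) p.2 :=
  evN_meas_s (Ψ := fun t n r O a b x => stQ (D t) (η n r O) a b x) fun n hn =>
    MIs_stQ hD (hc n hn)

end stat

/-! ### the exponential pin -/

/-- **the exponential pin** `∑ i, e^{-a |ht (O i)|}` -/
def pinI (a : ℝ) : Ins := fun _ O _ _ _ => ((∑ i, Real.exp (-(a * |ht (O i)|)) : ℝ) : ℂ)

theorem MIn_pinI (a : ℝ) : MIn (pinI a) := by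
  intro r p q
  have h1 : Measurable fun O : Fin r → Xo => ∑ i, Real.exp (-(a * |ht (O i)|)) := by
    refine Finset.measurable_sum _ fun i _ => ?_
    have h2 : Measurable fun O : Fin r → Xo => ht (O i) :=
      measurable_fst.comp (measurable_snd.comp (measurable_pi_apply i))
    fun_prop
  exact (Complex.measurable_ofReal.comp h1).comp measurable_fst

theorem norm_pinI (a : ℝ) {r : ℕ} (O : Fin r → Xo) (p q : ℕ) (x : (Fin p → ℝ) × (Fin q → ℝ)) :
    ‖pinI a r O p q x‖ = ∑ i, Real.exp (-(a * |ht (O i)|)) := by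
  unfold pinI
  rw [norm_real, Real.norm_of_nonneg (Finset.sum_nonneg fun i _ => (Real.exp_pos _).le)]

/-! ### bound of the statistic of the objects -/

section bound

variable {D : Bool → Option O3 → ℂ → ℂ} {P : NUO.Par}

theorem ei_mem (h : GoodP P) {r : ℕ} (O : Fin r → Xo) (i : Fin r) :
    P.e ≤ ei P O i ∧ ei P O i ≤ P.e + P.d r := by
  have hr : (0 : ℝ) < r := by exact_mod_cast (Nat.zero_le _).trans_lt i.2
  have hk : rk O i < r := by
    unfold rk
    calc _ < (univ : Finset (Fin r)).card := by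
          refine Finset.card_lt_card ?_
          rw [Finset.ssubset_univ_iff]
          intro he
          have := Finset.mem_univ i
          rw [← he, Finset.mem_filter] at this
          exact lt_irrefl _ this.2.1
      _ = r := by simp
  have h0 : (0 : ℝ) ≤ (rk O i : ℝ) / r := by positivity
  have h1 : (rk O i : ℝ) / r ≤ 1 := (div_le_one hr).2 (by exact_mod_cast hk.le)
  have hd := (h.d0 r).le
  unfold ei
  constructor
  · have := mul_nonneg hd h0
    linarith
  · have := mul_le_mul_of_nonneg_left h1 hd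
    linarith

theorem exp_shift {a t u : ℝ} (ha0 : 0 ≤ a) (ha : a ≤ 2) (h : |u - t| ≤ 1) :
    Real.exp (-(a * |u|)) ≤ 8 * Real.exp (-(a * |t|)) := by
  have h1 : |t| ≤ |u| + 1 := by
    have h2 : |t| - |u| ≤ |t - u| := abs_sub_abs_le_abs_sub t u
    rw [abs_sub_comm] at h2
    linarith
  have h3 : a * |t| ≤ a * |u| + 2 := by nlinarith [abs_nonneg u]
  have h4 : Real.exp 2 ≤ 8 := by
    have h5 : Real.exp 2 = Real.exp 1 * Real.exp 1 := by
      rw [← Real.exp_add]
      norm_num
    rw [h5]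
    have h6 := Real.exp_one_lt_d9
    have h7 := Real.exp_pos 1
    nlinarith
  calc Real.exp (-(a * |u|)) ≤ Real.exp (2 + -(a * |t|)) := Real.exp_le_exp.2 (by linarith)
    _ = Real.exp 2 * Real.exp (-(a * |t|)) := Real.exp_add _ _
    _ ≤ _ := mul_le_mul_of_nonneg_right h4 (Real.exp_pos _).le

/-- **the statistic of the objects is bounded by the pin** -/
theorem stO_le {x0 : ℝ} (h : GoodQ P x0) {M a : ℝ} (hM : 0 ≤ M) (ha0 : 0 ≤ a) (ha : a ≤ 2)
    {r : ℕ} (O : Fin r → Xo)
    (hL : ∀ s t, ‖D s (some .L) (posL P.jL t)‖ ≤ M * Real.exp (-(a * |t|)))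
    (hT : ∀ s t, ‖D s (some .T) (posT t)‖ ≤ M * Real.exp (-(a * |t|)))
    (hS : ∀ s (i : Fin r) t, ‖D s (some .S) (posS (ei P O i) t)‖ ≤ M * Real.exp (-(a * |t|)))
    (hA : ∀ s (z : ℂ), x0 < z.re → z.re < NUP1.l →
      ‖D s none z‖ ≤ M * Real.exp (-(a * |z.im|))) :
    ‖stO D P O‖ ≤ 40 * M * ∑ i, Real.exp (-(a * |ht (O i)|)) := by
  have hl := Bd.l_pos
  have hl2 : NUP1.l < 1 / 2 := by
    have h1 := Bd.pi_eq
    have h2 := Real.pi_lt_d2
    linarith
  unfold stO
  rw [Finset.mul_sum]
  refine norm_sum_le_of_le _ fun i _ => ?_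
  set t := ht (O i) with ht'
  set e := ei P O i with he
  have hE : 0 ≤ Real.exp (-(a * |t|)) := (Real.exp_pos _).le
  have hME : 0 ≤ M * Real.exp (-(a * |t|)) := mul_nonneg hM hE
  have he1 := (ei_mem h.toGoodP O i).1
  have he2 := (ei_mem h.toGoodP O i).2
  rw [← he] at he1 he2
  have hd0 := h.d0 r
  have hrad0 := h.r0 r t
  have hrad : P.rad r t ≤ NUP1.l * P.d r / 8 := h.rad r t
  have hxl := h.xl r
  have he10 := h.e1
  have hd1 : P.d r ≤ 1 / 2 := by linarith [h.e2 r]
  -- the satellite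
  have hposS : ∀ u, (posS e u + 2 * NUP1.l).re = (1 - e) * NUP1.l ∧
      (posS e u + 2 * NUP1.l).im = u := by
    intro u
    unfold posS vl
    constructor
    · simp
      ring
    · simp
  have hA2 : ∀ s, ‖D s none (posS e t + 2 * NUP1.l)‖ ≤ M * Real.exp (-(a * |t|)) := by
    intro s
    have h1 := hA s (posS e t + 2 * NUP1.l) (by
      rw [(hposS t).1]
      refine hxl.trans_le ?_
      refine mul_le_mul_of_nonneg_right ?_ hl.le
      linarith) (by
      rw [(hposS t).1]
      nlinarith)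
    rwa [(hposS t).2] at h1
  have hV : ∀ s, ‖D s none (posV e (rr P O i) t (an (O i)))‖ ≤
      8 * (M * Real.exp (-(a * |t|))) := by
    intro s
    set w : ℂ := (rr P O i : ℂ) * Complex.exp (2 * Real.pi * an (O i) * I) with hw
    have hrr : rr P O i = P.rad r t := rfl
    have hnw : ‖w‖ = P.rad r t := by
      rw [hw, hrr, norm_mul, norm_real, Real.norm_of_nonneg hrad0.le]
      have h3 : Complex.exp (2 * Real.pi * an (O i) * I) =
          Complex.exp (((2 * Real.pi * an (O i) : ℝ) : ℂ) * I) := by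
        push_cast
        rfl
      rw [h3, norm_exp_ofReal_mul_I, mul_one]
    have hwre := Complex.abs_re_le_norm w
    have hwim := Complex.abs_im_le_norm w
    rw [hnw] at hwre hwim
    have h1 := abs_le.1 hwre
    have e1 : posV e (rr P O i) t (an (O i)) = posS e t + 2 * NUP1.l + w := rfl
    have hre : (posV e (rr P O i) t (an (O i))).re = (1 - e) * NUP1.l + w.re := by
      rw [e1, add_re, (hposS t).1]
    have him : (posV e (rr P O i) t (an (O i))).im = t + w.im := by
      rw [e1, add_im, (hposS t).2]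
    have h2 := hA s (posV e (rr P O i) t (an (O i))) (by
      rw [hre]
      have h3 : x0 < (1 - (P.e + 9 / 8 * P.d r)) * NUP1.l := hxl
      nlinarith) (by
      rw [hre]
      nlinarith)
    rw [him] at h2
    refine h2.trans ?_
    have h4 := exp_shift (t := t) (u := t + w.im) ha0 ha (by
      rw [add_sub_cancel_left]
      refine hwim.trans (hrad.trans ?_)
      nlinarith)
    calc M * Real.exp (-(a * |t + w.im|)) ≤ M * (8 * Real.exp (-(a * |t|))) :=
          mul_le_mul_of_nonneg_left h4 hM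
      _ = _ := by ring
  have hS0 : ‖D (sp (O i)) (some .S) (posS e t)‖ ≤ M * Real.exp (-(a * |t|)) :=
    hS (sp (O i)) i t
  unfold obT
  rw [← ht']
  rcases hk : kd (O i) with _ | _ | _ | _ | _ <;> simp only []
  · refine (hL _ t).trans ?_
    linarith
  · refine (hT _ t).trans ?_
    linarith
  · refine hS0.trans ?_
    linarith
  · refine (norm_add_le _ _).trans ?_
    have := hV (!sp (O i))
    linarith
  · refine (norm_add_le _ _).trans ?_
    have h5 := hA2 (!sp (O i))
    rw [norm_mul, Complex.norm_ofNat]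
    linarith

/-- the same for `ParC`: quanta in `.55 l < re z < 1.1 l` -/
theorem stO_leC (h : ParC P) {M a : ℝ} (hM : 0 ≤ M) (ha0 : 0 ≤ a) (ha : a ≤ 2)
    {r : ℕ} (O : Fin r → Xo)
    (hL : ∀ s t, ‖D s (some .L) (posL P.jL t)‖ ≤ M * Real.exp (-(a * |t|)))
    (hT : ∀ s t, ‖D s (some .T) (posT t)‖ ≤ M * Real.exp (-(a * |t|)))
    (hS : ∀ s (i : Fin r) t, ‖D s (some .S) (posS (ei P O i) t)‖ ≤ M * Real.exp (-(a * |t|)))
    (hA : ∀ s (z : ℂ), 11 / 20 * NUP1.l < z.re → z.re < 11 / 10 * NUP1.l →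
      ‖D s none z‖ ≤ M * Real.exp (-(a * |z.im|))) :
    ‖stO D P O‖ ≤ 40 * M * ∑ i, Real.exp (-(a * |ht (O i)|)) := by
  have hl := Bd.l_pos
  exact stO_le h.goodQ hM ha0 ha O hL hT hS fun s z h1 h2 => hA s z (by linarith) (by linarith)

end bound

end PBF

end
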