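import Pool.Agent.PB.ChnO
import Pool.Agent.PB.RepA
import Pool.Agent.PB.RepM

/-!
# Plan B: the object channel, one factor is pinned

* `pinO_VO`: the statistic of the objects and satellites is pinned;
* `VC_obj`: a statistic of an object kind is `VO`; `VC_qua`: a statistic of the quanta of one species is
  `(1/2) (Vp ± Vm) + VO`;
* **`h3O`**: the hypothesis `h₃` of 15's `repI_abs` for `A3`, `B3`, with `k = 40`.
-/

set_option autoImplicit false
set_option linter.unusedSectionVars false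

noncomputable section

open Complex MeasureTheory Set
open scoped Classical

namespace PBOb

open NUP1 hiding Kd
open NUP1.Bd NUP1S NUP1S.Ab NUP1S.AbC PB PBRep PBF PBFunc NUO
open PBI (Stt Kd F0 F0Ok fl nuI nuQI mnI InD AllW)

variable {N : ℕ} {P : NUO.Par} {η η' : ℕ → Crs} {x0 a : ℝ} {ρ : Kd → ℝ → ℂ} {ρ0 : ℝ → ℂ}

theorem meas_VO (hP : ∀ r, Measurable (P.rad r)) {g : Kd → ℂ → ℂ} (hg : ∀ b, Measurable (g b)) :
    Measurable (VO (PBRep.sK g) P : CfN N → ℂ) := by
  have h := evN_stO_s (T := Unit) (D := fun _ => PBRep.sK g) (N := N) (P := fun _ => P)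
    (fun s k => (hg (s, k)).comp measurable_snd) (fun _ _ => hP)
  exact h.comp (measurable_const.prodMk measurable_id : Measurable fun ω : CfN N => (((), ω) : Unit × CfN N))

theorem meas_VQ (hc : ∀ n ≤ N, MCr (η n) (η' n)) {D : Stt} (hg : ∀ s k, Measurable (D s k)) :
    Measurable (VQ D η : CfN N → ℂ) := by
  have h := evN_stQ_s (T := Unit) (D := fun _ => D) (N := N) (η := η) (η' := η')
    (fun s k => (hg s k).comp measurable_snd) hc
  exact h.comp (measurable_const.prodMk measurable_id : Measurable fun ω : CfN N => (((), ω) : Unit × CfN N))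

theorem measurable_hgt : Measurable hgt := by
  unfold hgt
  fun_prop

theorem meas_Vp (hc : ∀ n ≤ N, MCr (η n) (η' n)) {g : ℂ → ℂ} (hg : Measurable g) :
    Measurable (Vp ρ0 η g : CfN N → ℂ) := by
  unfold Vp
  refine (meas_VQ hc fun s k => ?_).sub_const _
  cases k with
  | none => exact (hg.comp measurable_hgt).const_mul _
  | some k => exact measurable_const

theorem meas_Vm (hc : ∀ n ≤ N, MCr (η n) (η' n)) {g : ℂ → ℂ} (hg : Measurable g) :
    Measurable (Vm η g : CfN N → ℂ) := by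
  unfold Vm
  refine meas_VQ hc fun s k => ?_
  cases k with
  | none => exact (hg.comp measurable_hgt).const_mul _
  | some k => exact measurable_const

/-- **the statistic of the objects and satellites is pinned** -/
theorem pinO_VO (hG : GoodQ P x0) (hP : ParO P) (hx0 : 13 / 25 * l ≤ x0)
    (hm : ∀ r, Measurable (P.rad r)) {g : Kd → ℂ → ℂ} (hg : ∀ b, Measurable (g b)) {M : ℝ}
    (hM : 0 ≤ M) (ha0 : 0 ≤ a) (ha : a ≤ 2)
    (hb : ∀ b, ∀ z ∈ DQ b, ‖g b z‖ ≤ M * Real.exp (-a * |z.im|)) :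
    PinO (mN N) (pinN a) (VO (PBRep.sK g) P : CfN N → ℂ) (40 * M) := by
  have hl := Bd.l_pos
  refine ⟨(meas_VO hm hg).aestronglyMeasurable, by positivity, fun ω => ?_⟩
  have hre : ∀ y t : ℝ, (vl y t).re = y := fun y t => by simp [vl]
  have him : ∀ y t : ℝ, (vl y t).im = t := fun y t => by simp [vl]
  have key := stO_le (D := PBRep.sK g) hG hM ha0 ha ω.2.2.1 (fun s t => ?_) (fun s t => ?_)
    (fun s i t => ?_) (fun s z h1 h2 => ?_)
  · exact key
  · have h := hb (s, some .L) (posL P.jL t) (DQ_L hP (hre _ _))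
    rw [show (posL P.jL t).im = t from him _ _, neg_mul] at h
    exact h
  · have h := hb (s, some .T) (posT t) (DQ_T (hre _ _))
    rw [show (posT t).im = t from him _ _, neg_mul] at h
    exact h
  · obtain ⟨e1, e2⟩ := PBF.ei_mem hG.toGoodP ω.2.2.1 i
    have h := hb (s, some .S) (posS (ei P ω.2.2.1 i) t) (DQ_S hP e1 e2 (hre _ _))
    rw [show (posS (ei P ω.2.2.1 i) t).im = t from him _ _, neg_mul] at h
    exact h
  · have h := hb (s, none) z (DQ_none (δ := 0) hx0 (by norm_num) h1.le (by linarith))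
    rw [neg_mul] at h
    exact h

theorem mnI_eq (ρ : Kd → ℝ → ℂ) (g : Kd → ℂ → ℂ) :
    mnI ρ g = ∑ b, ∫ u, ρ b u * g b (vl l u) := rfl

theorem sum_kinds {f : Kd → ℂ} (h : ∀ s k, f (s, some k) = 0) :
    ∑ b, f b = f (true, none) + f (false, none) := by
  rw [Fintype.sum_prod_type]
  simp only [Fintype.sum_bool, Fintype.sum_option, h, Finset.sum_const_zero, add_zero]

theorem mnI_none (hρ0 : ∀ s k u, ρ (s, some k) u = 0) (g : Kd → ℂ → ℂ) :
    mnI ρ g = (∫ u, ρ (true, none) u * g (true, none) (vl l u)) +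
      ∫ u, ρ (false, none) u * g (false, none) (vl l u) := by
  rw [mnI_eq]
  exact sum_kinds fun s k => by simp [hρ0]

/-- a statistic of object kinds -/
theorem VC_obj (hρ0 : ∀ s k u, ρ (s, some k) u = 0) {g : Kd → ℂ → ℂ}
    (h : ∀ s, g (s, none) = fun _ => 0) :
    (VC ρ P η g : CfN N → ℂ) = VO (PBRep.sK g) P := by
  funext ω
  unfold VC
  rw [VA_eq, VQ_eq, mnI_none hρ0]
  simp only [PBRep.sK, h, mul_zero, Finset.sum_const_zero, integral_zero, add_zero, sub_zero]

/-- a statistic of the quanta of one species -/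
theorem VC_qua (hρ0 : ∀ s k u, ρ (s, some k) u = 0) (hρ1 : ∀ s, ρ (s, none) = ρ0)
    {g : Kd → ℂ → ℂ} (s : Bool) (h : g (!s, none) = fun _ => 0) (ω : CfN N) :
    VC ρ P η g ω - (1 / 2) * (Vp ρ0 η (fun w => g (s, none) (l + I * w)) ω +
      eM s * Vm η (fun w => g (s, none) (l + I * w)) ω) = VO (PBRep.sK g) P ω := by
  have e1 : ∀ z : ℂ, (l : ℂ) + I * hgt z = z := by
    intro z
    unfold hgt
    linear_combination (-(z - l)) * I_mul_I
  have e2 : ∀ u : ℝ, vl l u = (l : ℂ) + I * u := by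
    intro u
    unfold vl
    ring
  unfold VC
  rw [VA_eq, VQ_eq, mnI_none hρ0, Vp_eq, Vm_eq]
  simp only [e1, hρ1, e2]
  cases s
  · have h' : g (true, none) = fun _ => 0 := h
    simp only [PBRep.sK, h', eM, mul_zero, Finset.sum_const_zero, integral_zero,
      Bool.false_eq_true, if_false]
    ring
  · have h' : g (false, none) = fun _ => 0 := h
    simp only [PBRep.sK, h', eM, mul_zero, Finset.sum_const_zero, integral_zero, if_true]
    ring

/-- the two alternatives for one factor -/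
theorem obj1_of (hG : GoodQ P x0) (hP : ParO P) (hx0 : 13 / 25 * l ≤ x0)
    (hm : ∀ r, Measurable (P.rad r)) (hc : ∀ n ≤ N, MCr (η n) (η' n))
    (hρ0 : ∀ s k u, ρ (s, some k) u = 0) (hρ1 : ∀ s, ρ (s, none) = ρ0) {g : Kd → ℂ → ℂ}
    (hg : ∀ b, Measurable (g b)) {M : ℝ} (hM : 0 ≤ M) (ha0 : 0 ≤ a) (ha : a ≤ 2)
    (hb : ∀ b, ∀ z ∈ DQ b, ‖g b z‖ ≤ M * Real.exp (-a * |z.im|)) (b : Kd)
    (hs : ∀ c, c ≠ b → g c = fun _ => 0)
    (htc : ∀ s, PBE.TC (-(l / 10)) (9 / 20 * l) a M (fun w => g (s, none) (l + I * w))) :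
    Obj1 (-(l / 10)) (9 / 20 * l) a (mN N) (Vp ρ0 η) (Vm η) (pinN a) 40 (VC ρ P η g) M ∧
    (b.2 ≠ none → PinO (mN N) (pinN a) (VC ρ P η g : CfN N → ℂ) (40 * M)) := by
  have hO := pinO_VO (N := N) hG hP hx0 hm hg hM ha0 ha hb
  obtain ⟨s, k⟩ := b
  have hobj : k ≠ none → PinO (mN N) (pinN a) (VC ρ P η g : CfN N → ℂ) (40 * M) := by
    intro hk
    rw [VC_obj hρ0 fun s' => hs (s', none) fun e => hk (Prod.ext_iff.1 e).2.symm]
    exact hO
  refine ⟨?_, hobj⟩
  cases k with
  | some k => exact Obj1.obj (hobj (by simp))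
  | none =>
    have hgl : Measurable fun w : ℂ => g (s, none) (l + I * w) := (hg (s, none)).comp (by fun_prop)
    refine Obj1.qua (fun w => g (s, none) (l + I * w)) (eM s) ?_ (htc s)
      (meas_Vp hc hgl).aestronglyMeasurable (meas_Vm hc hgl).aestronglyMeasurable ?_
    · cases s <;> simp [eM]
    · have e : (fun ω : CfN N => VC ρ P η g ω - 1 / 2 * (Vp ρ0 η (fun w => g (s, none) (l + I * w)) ω +
          eM s * Vm η (fun w => g (s, none) (l + I * w)) ω)) = VO (PBRep.sK g) P :=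
        funext fun ω => VC_qua hρ0 hρ1 s (hs (!s, none) fun e => by
          have := (Prod.ext_iff.1 e).1
          cases s <;> simp at this) ω
      rw [e]
      exact hO

/-- **one of the two factors is pinned** -/
theorem h3O {X : ℂ → ℂ} {xp xm : ℂ} {M : ℝ} (hX : Measurable X) (h : FX X xp xm M)
    (hG : GoodQ P x0) (hP : ParO P) (hx0 : 13 / 25 * l ≤ x0)
    (hm : ∀ r, Measurable (P.rad r)) (hc : ∀ n ≤ N, MCr (η n) (η' n))
    (hρ0 : ∀ s k u, ρ (s, some k) u = 0) (hρ1 : ∀ s, ρ (s, none) = ρ0) (ha0 : 0 ≤ a)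
    (ha : a ≤ 2) (q : IxO) :
    (PinO (mN N) (pinN a) (VC ρ P η (A3 X xp xm q) : CfN N → ℂ) (40 * alO (‖xp - xm‖ + M) q) ∧
      Obj1 (-(l / 10)) (9 / 20 * l) a (mN N) (Vp ρ0 η) (Vm η) (pinN a) 40
        (VC ρ P η (B3 q)) (beO a q)) ∨
    (Obj1 (-(l / 10)) (9 / 20 * l) a (mN N) (Vp ρ0 η) (Vm η) (pinN a) 40
        (VC ρ P η (A3 X xp xm q)) (alO (‖xp - xm‖ + M) q) ∧
      PinO (mN N) (pinN a) (VC ρ P η (B3 q) : CfN N → ℂ) (40 * beO a q)) := by
  have hM := h.M_nonneg
  have hJ : 0 ≤ ‖xp - xm‖ + M := by positivity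
  have hA := obj1_of (N := N) (η := η) (η' := η') hG hP hx0 hm hc hρ0 hρ1 (g := A3 X xp xm q)
    (fun b => (measurable_A3 hX xp xm b).comp (measurable_const.prodMk measurable_id))
    (M := alO (‖xp - xm‖ + M) q) (alO_nonneg hJ q) ha0 ha (fun b z hz => by
      refine (norm_A3_le h q (DQ_sub _ hz)).trans
        (mul_le_mul_of_nonneg_left (Real.exp_le_exp.2 ?_) (alO_nonneg hJ q))
      nlinarith [abs_nonneg z.im]) q.1.1.1 (fun c hc => by
      funext z
      unfold A3
      rw [if_neg fun h' => hc h'.1]) (A3_tc h ha q)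
  have hB := obj1_of (N := N) (η := η) (η' := η') hG hP hx0 hm hc hρ0 hρ1 (g := B3 q)
    (fun b => (measurable_B3 b).comp (measurable_const.prodMk measurable_id))
    (M := beO a q) (beO_nonneg a q) ha0 ha (fun b z hz => norm_B3_le ha0 (by linarith) q hz)
    q.1.1.2 (fun c hc => by
      funext z
      unfold B3
      rw [if_neg fun h' => hc h'.1]) (B3_tc ha0 (by linarith) q)
  by_cases hb : q.1.1.1.2 = none
  · by_cases hc' : q.1.1.2.2 = none
    · -- both factors vanish
      have ho : ¬ hasO q.1.1 := fun h' => h' ⟨hb, hc'⟩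
      have eA : A3 X xp xm q = fun _ _ => 0 := by
        funext b z
        unfold A3
        rw [if_neg fun h' => ho h'.2]
      refine Or.inl ⟨?_, hB.1⟩
      rw [eA]
      have e0 : (VC ρ P η (fun _ _ => 0) : CfN N → ℂ) = VO (PBRep.sK fun _ _ => 0) P :=
        VC_obj hρ0 fun s => rfl
      rw [e0]
      refine pinO_VO hG hP hx0 hm (fun b => measurable_const) (alO_nonneg hJ q) ha0 ha
        fun b z _ => ?_
      rw [norm_zero]
      have := alO_nonneg hJ q
      positivity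
    · exact Or.inr ⟨hA.1, hB.2 hc'⟩
  · exact Or.inl ⟨hA.2 hb, hB.1⟩

end PBOb

end
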