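import Pool.Agent.PB.TopD
import Pool.Agent.PB.U1Of
import Pool.Agent.NUM3.Certs4

/-!
# Plan B: plug of the bounds (helper12)

`topM : TopM δ` for every `δ > 0` (helper75's `topD_mass` + the certificates), `u0P : U0P 1`, `u1P : U1P`,
**`funO`**: the function side from (E') alone; `f0_bd`, `fx_bd`: the bounds of the literal functions.
-/

set_option autoImplicit false

noncomputable section

open Complex

namespace PBC

open Pool.Agent.PB (f0 fx)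

/-- the mass of the functional, every exponent -/
theorem topM {δ : ℝ} (hδ : 0 < δ) : PBV.TopM δ := by
  obtain ⟨a0, ha0, H⟩ := PBT.topD_mass Pool.Agent.NUM3.stabProd hδ
  exact ⟨a0, ha0, fun ep e1 J h1 h2 h3 h4 h5 h6 => H ep h1 h2 e1 h3 h4 J h5 h6⟩

/-- **(U0)** -/
theorem u0P : PBV.U0P 1 := PBV.u0P_of fun _ h => topM h

/-- **(U1)** -/
theorem u1P : PBV.U1P := PBV.u1P_of fun _ h => topM h

/-- the bound of the function at the rows `0` -/
theorem f0_bd {δ : ℝ} (hδ : 0 < δ) : ∃ m0 : ℕ, ∀ j : ℕ, m0 ≤ j → ∀ z : ℂ,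
    |z.re| < 37 / 10 * NUMF.l → |z.im| ≤ 3 / 20 * Real.log j + 2 →
    ‖f0 j z‖ ≤ (j : ℝ) ^ δ * Real.exp (2 * |z.im|) := PBV.f0_le (topM hδ)

/-- the bound of the function with one moved row -/
theorem fx_bd {δ : ℝ} (hδ : 0 < δ) : ∃ m0 : ℕ, ∀ k : ℕ, m0 ≤ k → ∀ x z : ℂ,
    |x.re| ≤ NUMF.l / 10 → |x.im| ≤ 2 → |z.re| < 37 / 10 * NUMF.l →
    |z.im| ≤ 3 / 20 * Real.log (k + 1 : ℕ) + 2 →
    ‖fx k x z‖ ≤ ((k + 1 : ℕ) : ℝ) ^ δ * Real.exp (2 * |z.im|) := PBV.fx_le (topM hδ)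

/-- **the function side from (E')** -/
theorem funO {c : ℝ} (hc : 0 ≤ c) (hc1 : c < 2 / 3) (hE : PBV.E2 c fun j z x => fx j x z) :
    PBV.FunO c f0 fun j => PBV.bK f0 j 0 := PBV.funS_f0 u0P u1P hc hc1 hE

end PBC

end
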