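import Pool.Agent.NUGC.GasQ
import Pool.Agent.NUGC.ActGen
import Pool.Agent.NURow.Data2

/-!
# Plan B: one body functions perturbed by `ε Zc` (cut term of the first Ward identity, helper17)

`obE B δ M`: one body data `B` with the row factors times `1 + δ` and with an additional own weight
`M (t)` of the objects `St` at height `t` (the cutoff of the strings is only evaluated on the lines of the
strings and on the line `Re = - l / 2` of `St`, where it can be chosen).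

* `OneC.eps`: if `OneC Z B ..`, `‖Zc‖ ≤ c ‖bound function of Z‖` for the quanta, `L`, the strings and
  `‖Zc‖ ≤ R R' M₁` for `St`, then `OneC (Z + ε Zc) (obE B δ M) ..` with `δ = |ε| c`, `M = |ε| M₁`;
* `ob1c_obE`: the own weights of `obE B δ M`: `(1 + δ) ^ 4` times those of `B`, plus `M` for `St`;
* `qAc_obE`: the quanta.
-/

set_option autoImplicit false
set_option linter.unusedVariables false

noncomputable section

open Complex MeasureTheory Finset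
open scoped ENNReal

namespace PBC

open NUP1 NUP1S NUCR NUO NUGC

/-- **one body data with row factors times `1 + δ` and an additional weight `M` of `St`** -/
def obE (B : OB) (δ : ℝ) (M : ℝ → ℝ) : OB where
  R a u := (1 + δ) * B.R a u
  φ := B.φ
  φ0 u := if u.re = -(1 / 2 * NUP1.l) then B.φ u * B.φ (u - NUP1.l) -
    ((‖B.φ u * B.φ (u - NUP1.l) - B.φ0 u‖ + M u.im : ℝ) : ℂ) else B.φ0 u

section basic
variable {B : OB} {δ : ℝ} {M : ℝ → ℝ}

theorem obE_nn (hB : B.Nn) (hδ : 0 ≤ δ) : (obE B δ M).Nn := fun a u =>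
  mul_nonneg (by linarith) (hB a u)

theorem posT_re (t : ℝ) : (posT t).re = -(1 / 2 * NUP1.l) := by
  unfold posT vl
  simp

theorem posT_im (t : ℝ) : (posT t).im = t := by
  unfold posT vl
  simp

theorem posS_re (e t : ℝ) : (posS e t).re = -((1 + e) * NUP1.l) := by
  unfold posS vl
  simp

/-- the bracket of `St` -/
theorem obE_T (hM : ∀ t, 0 ≤ M t) (t : ℝ) :
    ‖(obE B δ M).φ (posT t) * (obE B δ M).φ (posT t - NUP1.l) - (obE B δ M).φ0 (posT t)‖ =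
      ‖B.φ (posT t) * B.φ (posT t - NUP1.l) - B.φ0 (posT t)‖ + M t := by
  show ‖B.φ (posT t) * B.φ (posT t - NUP1.l) - (if (posT t).re = -(1 / 2 * NUP1.l) then
    B.φ (posT t) * B.φ (posT t - NUP1.l) - ((‖B.φ (posT t) * B.φ (posT t - NUP1.l) -
      B.φ0 (posT t)‖ + M (posT t).im : ℝ) : ℂ) else B.φ0 (posT t))‖ = _
  rw [if_pos (posT_re t), sub_sub_cancel, Complex.norm_real, posT_im, Real.norm_of_nonneg]
  have := hM t
  positivity

/-- the cutoff of the strings -/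
theorem obE_S {e : ℝ} (he : 0 ≤ e) (t : ℝ) : (obE B δ M).φ0 (posS e t) = B.φ0 (posS e t) := by
  have hl := NUP1.l_pos
  show (if (posS e t).re = -(1 / 2 * NUP1.l) then _ else B.φ0 (posS e t)) = _
  rw [if_neg]
  rw [posS_re]
  intro h
  nlinarith

end basic

variable {Z Zc : Bool → Option O3 → ℂ → ℂ} {B : OB} {P : NUO.Par} {ep κ x0 : ℝ} {Q : ℤ} {E : Set ℝ}

/-- **the perturbation `Zc`**: bounded by `c` times the one body data of `Z` (`St`: own weight `M`) -/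
structure CutZ (Z Zc : Bool → Option O3 → ℂ → ℂ) (B : OB) (P : NUO.Par) (ep κ x0 : ℝ) (Q : ℤ)
    (E : Set ℝ) (c : ℝ) (M : ℝ → ℝ) : Prop where
  c0 : 0 ≤ c
  M0 : ∀ t, 0 ≤ M t
  meas : ∀ s k, Measurable (Zc s k)
  L : ∀ s t, t ∉ E → ‖Zc s (some .L) (posL P.jL t)‖ ≤
    c * (B.R s (posL P.jL t) * ‖B.φ (posL P.jL t)‖)
  T : ∀ s t, t ∉ E → ‖Zc s (some .T) (posT t)‖ ≤
    (B.R s (posT t) * B.R s (posT t - NUP1.l)) * M t
  S : ∀ s (O : ℕ) (e t : ℝ), t ∉ E → P.e ≤ e → e ≤ P.e + P.d O → ‖Zc s (some .S) (posS e t)‖ ≤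
    c * ((B.R s (posS e t) * B.R s (posS e t - NUP1.l)) * ‖B.φ0 (posS e t)‖)
  V : ∀ s (O : ℕ) (e : ℝ), P.e ≤ e → e ≤ P.e + P.d O → ∀ u : ℂ,
    |u.re - (1 - e) * NUP1.l| ≤ NUP1.l * P.d O / (8 * (O + 1)) →
    ‖Zc s none u‖ ≤ c * (B.R s u * ‖B.φ u‖)
  A : ∀ s (u : ℂ), u.re ∈ Ks (ep / 4) → ‖Zc s none u‖ ≤ c * (B.R s u * ‖B.φ u‖)
  dA : ∀ s (u : ℂ), x0 ≤ u.re → u.re ≤ (1 + ep / 4) * NUP1.l → DifferentiableAt ℂ (Zc s none) u
  bA : ∀ s, Bdd (Set.Icc x0 ((1 + ep / 4) * NUP1.l)) (-(κ + 2 * (sg s * Q : ℤ))) (Zc s none)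

theorem norm_eps_le {z zc : ℂ} {ε : ℂ} {c δ X : ℝ} (hc : 0 ≤ c) (hX : 0 ≤ X) (hz : ‖z‖ ≤ X)
    (hzc : ‖zc‖ ≤ c * X) (hε : ‖ε‖ * c ≤ δ) : ‖z + ε * zc‖ ≤ (1 + δ) * X := by
  refine (norm_add_le _ _).trans ?_
  rw [norm_mul]
  have h1 : ‖ε‖ * ‖zc‖ ≤ ‖ε‖ * (c * X) := mul_le_mul_of_nonneg_left hzc (norm_nonneg _)
  have h2 : ‖ε‖ * c * X ≤ δ * X := mul_le_mul_of_nonneg_right hε hX
  nlinarith

theorem Bdd.add' {K : Set ℝ} {s : ℝ} {g g' : ℂ → ℂ} (h : Bdd K s g) (h' : Bdd K s g') :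
    Bdd K s (fun z => g z + g' z) := by
  obtain ⟨C, hC, h⟩ := h
  obtain ⟨D, hD, h'⟩ := h'
  refine ⟨C + D, add_nonneg hC hD, fun z hz => ?_⟩
  refine (norm_add_le _ _).trans ?_
  rw [add_mul]
  exact add_le_add (h z hz) (h' z hz)

theorem Bdd.cmul {K : Set ℝ} {s : ℝ} {g : ℂ → ℂ} (h : Bdd K s g) (ε : ℂ) :
    Bdd K s (fun z => ε * g z) := by
  obtain ⟨C, hC, h⟩ := h
  refine ⟨‖ε‖ * C, by positivity, fun z hz => ?_⟩
  rw [norm_mul, mul_assoc]
  exact mul_le_mul_of_nonneg_left (h z hz) (norm_nonneg _)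

/-- **the perturbed one body functions** -/
theorem OneC.eps (h : OneC Z B P ep κ x0 Q E) {c : ℝ} {M : ℝ → ℝ}
    (hc : CutZ Z Zc B P ep κ x0 Q E c M) (he0 : 0 ≤ P.e) {ε : ℂ} {δ : ℝ} (hδ : 0 ≤ δ)
    (hε : ‖ε‖ * c ≤ δ) {M' : ℝ → ℝ} (hM' : ∀ t, ‖ε‖ * M t ≤ M' t) :
    OneC (fun s k u => Z s k u + ε * Zc s k u) (obE B δ M') P ep κ x0 Q E := by
  have hnn : ∀ a u, 0 ≤ B.R a u := h.nn
  have h1 : (1 : ℝ) ≤ 1 + δ := by linarith
  have hM0 : ∀ t, 0 ≤ M' t := fun t => (mul_nonneg (norm_nonneg _) (hc.M0 t)).trans (hM' t)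
  refine
    { kpos := h.kpos
      nn := obE_nn h.nn hδ
      nul := h.nul
      meas := fun s k => (h.meas s k).add ((hc.meas s k).const_mul ε)
      L := ?_
      T := ?_
      S := ?_
      V := ?_
      A := ?_
      x1 := h.x1
      dA := fun s u h1 h2 => (h.dA s u h1 h2).add ((hc.dA s u h1 h2).const_mul ε)
      bA := fun s => Bdd.add' (h.bA s) (Bdd.cmul (hc.bA s) ε) }
  · intro s t ht
    show _ ≤ (1 + δ) * B.R s (posL P.jL t) * ‖B.φ (posL P.jL t)‖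
    rw [mul_assoc]
    exact norm_eps_le hc.c0 (mul_nonneg (hnn _ _) (norm_nonneg _)) (h.L s t ht) (hc.L s t ht) hε
  · intro s t ht
    rw [obE_T hM0]
    show _ ≤ ((1 + δ) * B.R s (posT t) * ((1 + δ) * B.R s (posT t - NUP1.l))) * _
    have hR : 0 ≤ B.R s (posT t) * B.R s (posT t - NUP1.l) := mul_nonneg (hnn _ _) (hnn _ _)
    have e1 := h.T s t ht
    have e2 := hc.T s t ht
    set X := B.R s (posT t) * B.R s (posT t - NUP1.l) with hX
    set Y := ‖B.φ (posT t) * B.φ (posT t - NUP1.l) - B.φ0 (posT t)‖ with hY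
    have hY0 : 0 ≤ Y := norm_nonneg _
    have e3 : ‖Z s (some .T) (posT t) + ε * Zc s (some .T) (posT t)‖ ≤ X * (Y + M' t) := by
      refine (norm_add_le _ _).trans ?_
      rw [norm_mul, mul_add]
      refine add_le_add e1 ?_
      calc ‖ε‖ * ‖Zc s (some .T) (posT t)‖ ≤ ‖ε‖ * (X * M t) :=
            mul_le_mul_of_nonneg_left e2 (norm_nonneg _)
        _ = X * (‖ε‖ * M t) := by ring
        _ ≤ X * M' t := mul_le_mul_of_nonneg_left (hM' t) hR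
    refine e3.trans ?_
    have e4 : 0 ≤ X * (Y + M' t) := mul_nonneg hR (add_nonneg hY0 (hM0 t))
    calc X * (Y + M' t) = 1 * (X * (Y + M' t)) := (one_mul _).symm
      _ ≤ ((1 + δ) * (1 + δ)) * (X * (Y + M' t)) :=
          mul_le_mul_of_nonneg_right (by nlinarith) e4
      _ = _ := by ring
  · intro s O e t ht h3 h4
    rw [obE_S (he0.trans h3)]
    show _ ≤ ((1 + δ) * B.R s (posS e t) * ((1 + δ) * B.R s (posS e t - NUP1.l))) * _
    have hR : 0 ≤ (B.R s (posS e t) * B.R s (posS e t - NUP1.l)) * ‖B.φ0 (posS e t)‖ :=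
      mul_nonneg (mul_nonneg (hnn _ _) (hnn _ _)) (norm_nonneg _)
    have e1 := norm_eps_le (ε := ε) (δ := δ) hc.c0 hR (h.S s O e t ht h3 h4)
      (hc.S s O e t ht h3 h4) hε
    refine e1.trans ?_
    calc (1 + δ) * ((B.R s (posS e t) * B.R s (posS e t - NUP1.l)) * ‖B.φ0 (posS e t)‖) ≤
        ((1 + δ) * (1 + δ)) * ((B.R s (posS e t) * B.R s (posS e t - NUP1.l)) *
          ‖B.φ0 (posS e t)‖) := mul_le_mul_of_nonneg_right (by nlinarith) hR
      _ = _ := by ring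
  · intro s O e h3 h4 u hu
    show _ ≤ (1 + δ) * B.R s u * ‖B.φ u‖
    rw [mul_assoc]
    exact norm_eps_le hc.c0 (mul_nonneg (hnn _ _) (norm_nonneg _)) (h.V s O e h3 h4 u hu)
      (hc.V s O e h3 h4 u hu) hε
  · intro s u hu
    show _ ≤ (1 + δ) * B.R s u * ‖B.φ u‖
    rw [mul_assoc]
    exact norm_eps_le hc.c0 (mul_nonneg (hnn _ _) (norm_nonneg _)) (h.A s u hu)
      (hc.A s u hu) hε

/-! ## the own weights -/

/-- the additional own weight of `St` -/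
def wT (B : OB) (M : ℝ → ℝ) (x : Xo) : ℝ :=
  match NUO.kd x with
  | .St => aS * (B.R (sp x) (posT (ht x)) * B.R (sp x) (posT (ht x) - NUP1.l)) * M (ht x)
  | _ => 0

theorem ob1c_obE {B : OB} (hB : B.Nn) {δ : ℝ} (hδ : 0 ≤ δ) {M : ℝ → ℝ} (hM : ∀ t, 0 ≤ M t)
    {jL e ρ : ℝ} (he : 0 ≤ e) (hρ : 0 ≤ ρ) (x : Xo) :
    ob1c (obE B δ M) jL e ρ x ≤ (1 + δ) ^ 4 * (ob1c B jL e ρ x + wT B M x) := by
  have hnn : ∀ a u, 0 ≤ B.R a u := hB
  have h1 : (1 : ℝ) ≤ 1 + δ := by linarith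
  have h10 : (0 : ℝ) ≤ 1 + δ := by linarith
  have hpi := Real.pi_pos
  have haS := NUO.aS_pos
  have hS : ∀ a : Bool, oSc (obE B δ M) a (posS e (ht x)) = (1 + δ) ^ 2 * oSc B a (posS e (ht x)) := by
    intro a
    unfold oSc
    rw [obE_S he]
    show aS * ((1 + δ) * B.R a (posS e (ht x)) * ((1 + δ) * B.R a (posS e (ht x) - NUP1.l))) *
      ‖B.φ0 (posS e (ht x))‖ = _
    ring
  have hS0 : ∀ a : Bool, 0 ≤ oSc B a (posS e (ht x)) := by
    intro a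
    unfold oSc
    have := hnn a (posS e (ht x))
    have := hnn a (posS e (ht x) - NUP1.l)
    positivity
  have hp : ∀ j : ℕ, j ≤ 4 → (1 + δ) ^ j ≤ (1 + δ) ^ 4 := fun j hj => pow_le_pow_right₀ h1 hj
  unfold ob1c wT
  rcases hk : NUO.kd x with _ | _ | _ | _ | _ <;> simp only []
  · -- L
    rw [add_zero]
    show (2 * Real.pi)⁻¹ * ((1 + δ) * B.R (sp x) (posL jL (ht x)) * ‖B.φ (posL jL (ht x))‖) ≤ _
    have h0 : 0 ≤ (2 * Real.pi)⁻¹ * (B.R (sp x) (posL jL (ht x)) * ‖B.φ (posL jL (ht x))‖) := by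
      have := hnn (sp x) (posL jL (ht x))
      positivity
    calc _ = (1 + δ) ^ 1 * ((2 * Real.pi)⁻¹ * (B.R (sp x) (posL jL (ht x)) *
          ‖B.φ (posL jL (ht x))‖)) := by ring
      _ ≤ _ := mul_le_mul_of_nonneg_right (hp 1 (by norm_num)) h0
  · -- St
    have e1 := obE_T (B := B) (δ := δ) hM (ht x)
    show aS * ((1 + δ) * B.R (sp x) (posT (ht x)) * ((1 + δ) * B.R (sp x) (posT (ht x) - NUP1.l))) *
      ‖(obE B δ M).φ (posT (ht x)) * (obE B δ M).φ (posT (ht x) - NUP1.l) -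
        (obE B δ M).φ0 (posT (ht x))‖ ≤ _
    rw [e1]
    have a1 := hnn (sp x) (posT (ht x))
    have a2 := hnn (sp x) (posT (ht x) - NUP1.l)
    have a3 := hM (ht x)
    have h0 : 0 ≤ aS * (B.R (sp x) (posT (ht x)) * B.R (sp x) (posT (ht x) - NUP1.l)) *
        (‖B.φ (posT (ht x)) * B.φ (posT (ht x) - NUP1.l) - B.φ0 (posT (ht x))‖ + M (ht x)) := by
      positivity
    calc _ = (1 + δ) ^ 2 * (aS * (B.R (sp x) (posT (ht x)) * B.R (sp x) (posT (ht x) - NUP1.l)) *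
        (‖B.φ (posT (ht x)) * B.φ (posT (ht x) - NUP1.l) - B.φ0 (posT (ht x))‖ + M (ht x))) := by
          ring
      _ ≤ (1 + δ) ^ 4 * (aS * (B.R (sp x) (posT (ht x)) * B.R (sp x) (posT (ht x) - NUP1.l)) *
        (‖B.φ (posT (ht x)) * B.φ (posT (ht x) - NUP1.l) - B.φ0 (posT (ht x))‖ + M (ht x))) :=
          mul_le_mul_of_nonneg_right (hp 2 (by norm_num)) h0
      _ = _ := by ring
  · -- S
    rw [add_zero, hS]
    exact mul_le_mul_of_nonneg_right (hp 2 (by norm_num)) (hS0 _)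
  · -- Sv
    rw [add_zero, hS]
    show (1 + δ) ^ 2 * oSc B (sp x) (posS e (ht x)) * (ρ * ((1 + δ) *
      B.R (!sp x) (posV e ρ (ht x) (an x)) * ‖B.φ (posV e ρ (ht x) (an x))‖) *
      ‖Kn.cz false true (posV e ρ (ht x) (an x) - posS e (ht x))‖) ≤ _
    have a1 := hS0 (sp x)
    have a2 := hnn (!sp x) (posV e ρ (ht x) (an x))
    have h0 : 0 ≤ oSc B (sp x) (posS e (ht x)) * (ρ * (
      B.R (!sp x) (posV e ρ (ht x) (an x)) * ‖B.φ (posV e ρ (ht x) (an x))‖) *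
      ‖Kn.cz false true (posV e ρ (ht x) (an x) - posS e (ht x))‖) := by positivity
    calc _ = (1 + δ) ^ 3 * (oSc B (sp x) (posS e (ht x)) * (ρ * (
      B.R (!sp x) (posV e ρ (ht x) (an x)) * ‖B.φ (posV e ρ (ht x) (an x))‖) *
      ‖Kn.cz false true (posV e ρ (ht x) (an x) - posS e (ht x))‖)) := by ring
      _ ≤ _ := mul_le_mul_of_nonneg_right (hp 3 (by norm_num)) h0
  · -- Svv
    rw [add_zero, hS]
    show (1 + δ) ^ 2 * oSc B (sp x) (posS e (ht x)) * (4 * Real.cos NUP1.l ^ 2 *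
      ((1 + δ) * B.R (!sp x) (posS e (ht x) + 2 * NUP1.l) * ‖B.φ (posS e (ht x) + 2 * NUP1.l)‖ /
        Real.sin (5 * NUP1.l) ^ 2) ^ 2) ≤ _
    refine le_of_eq ?_
    ring

/-- the quanta -/
theorem qAc_obE (B : OB) (P : Par) (δ : ℝ) (M : ℝ → ℝ) (η : ℝ → ℝ) {r : ℕ} (O : Fin r → Xo)
    (a : Bool) (t : ℝ) : qAc (obE B δ M) P η O a t = (1 + δ) * qAc B P η O a t := by
  show (2 * Real.pi)⁻¹ * ((1 + δ) * B.R a (NUO.pA η t) * ‖B.φ (NUO.pA η t)‖) * _ =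
    (1 + δ) * ((2 * Real.pi)⁻¹ * (B.R a (NUO.pA η t) * ‖B.φ (NUO.pA η t)‖) * _)
  ring

/-! ## the bounds by kinds -/

/-- **kinds `L`, `S`, `Sv`, `Svv`, `St`: from the bounds `KB` of `B` and of the additional weight of
`St`** -/
theorem KB_obE {B : OB} (hB : B.Nn) {δ : ℝ} (hδ : 0 ≤ δ) (hδ1 : δ ≤ 1) {M : ℝ → ℝ}
    (hM : ∀ t, 0 ≤ M t) {jL e ρ : ℝ} (he : 0 ≤ e) (hρ : 0 < ρ) (x : Xo) {m : ℕ} {β A Y C0 C1 v : ℝ}
    (hY : 0 ≤ Y) (hC0 : 0 ≤ C0) (hC1 : 0 ≤ C1) (hv : 0 ≤ v)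
    (h0 : KB C0 m β ρ A Y (ob1c B jL e ρ x * v) (NUO.kd x) (ht x))
    (h1 : NUO.kd x = .St → wT B M x * v ≤ C1 * (NUO.cut m β (ht x) * Y)) :
    KB (16 * (C0 + C1)) m β ρ A Y (ob1c (obE B δ M) jL e ρ x * v) (NUO.kd x) (ht x) := by
  have key := ob1c_obE hB hδ hM (jL := jL) he hρ.le x
  have h4 : (1 + δ) ^ 4 ≤ 16 := by
    calc (1 + δ) ^ 4 ≤ (2 : ℝ) ^ 4 := pow_le_pow_left₀ (by linarith) (by linarith) 4
      _ = 16 := by norm_num
  have hc1 := NUO.cut_nonneg m β (ht x)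
  have hc2 := NUO.cut_nonneg m (4 / 3) (ht x)
  have hob : 0 ≤ ob1c B jL e ρ x + wT B M x := by
    have := key
    have hn : 0 ≤ ob1c (obE B δ M) jL e ρ x := ob1c_nonneg (obE_nn hB hδ) _ _ hρ.le x
    have hp : 0 < (1 + δ) ^ 4 := by positivity
    by_contra hcon
    push Not at hcon
    nlinarith
  have key2 : ob1c (obE B δ M) jL e ρ x * v ≤ 16 * ((ob1c B jL e ρ x + wT B M x) * v) := by
    calc _ ≤ ((1 + δ) ^ 4 * (ob1c B jL e ρ x + wT B M x)) * v := mul_le_mul_of_nonneg_right key hv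
      _ ≤ (16 * (ob1c B jL e ρ x + wT B M x)) * v :=
          mul_le_mul_of_nonneg_right (mul_le_mul_of_nonneg_right h4 hob) hv
      _ = _ := by ring
  rcases hk : NUO.kd x with _ | _ | _ | _ | _
  all_goals rw [hk] at h0
  · have ew : wT B M x = 0 := by unfold wT; rw [hk]
    rw [ew, add_zero] at key2
    show _ ≤ 16 * (C0 + C1) * NUO.cut m β (ht x)
    have h0' : ob1c B jL e ρ x * v ≤ C0 * NUO.cut m β (ht x) := h0
    nlinarith [mul_nonneg hC1 hc1]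
  · have h1' := h1 hk
    show _ ≤ 16 * (C0 + C1) * (NUO.cut m β (ht x) * Y)
    have h0' : ob1c B jL e ρ x * v ≤ C0 * (NUO.cut m β (ht x) * Y) := h0
    nlinarith
  · have ew : wT B M x = 0 := by unfold wT; rw [hk]
    rw [ew, add_zero] at key2
    show _ ≤ 16 * (C0 + C1) * NUO.cut m (4 / 3) (ht x) * Real.exp (-(2 * m * A))
    have h0' : ob1c B jL e ρ x * v ≤ C0 * NUO.cut m (4 / 3) (ht x) * Real.exp (-(2 * m * A)) := h0
    have : 0 ≤ C1 * NUO.cut m (4 / 3) (ht x) * Real.exp (-(2 * m * A)) := by positivity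
    nlinarith
  · have ew : wT B M x = 0 := by unfold wT; rw [hk]
    rw [ew, add_zero] at key2
    have hX : 0 ≤ NUO.cut m (4 / 3) (ht x) := hc2
    show _ ≤ 16 * (C0 + C1) / ρ * NUO.cut m (4 / 3) (ht x) *
      Real.exp (-(m * A) + 16 * (C0 + C1) * (m * ρ * Real.exp (-(8 / 3) * |ht x|)))
    have h0' : ob1c B jL e ρ x * v ≤ C0 / ρ * NUO.cut m (4 / 3) (ht x) *
      Real.exp (-(m * A) + C0 * (m * ρ * Real.exp (-(8 / 3) * |ht x|))) := h0
    have hY2 : 0 ≤ m * ρ * Real.exp (-(8 / 3) * |ht x|) := by positivity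
    have e1 : Real.exp (-(m * A) + C0 * (m * ρ * Real.exp (-(8 / 3) * |ht x|))) ≤
        Real.exp (-(m * A) + 16 * (C0 + C1) * (m * ρ * Real.exp (-(8 / 3) * |ht x|))) := by
      refine Real.exp_le_exp.2 ?_
      have : C0 * (m * ρ * Real.exp (-(8 / 3) * |ht x|)) ≤
          16 * (C0 + C1) * (m * ρ * Real.exp (-(8 / 3) * |ht x|)) :=
        mul_le_mul_of_nonneg_right (by linarith) hY2
      linarith
    calc _ ≤ 16 * (C0 / ρ * NUO.cut m (4 / 3) (ht x) *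
        Real.exp (-(m * A) + C0 * (m * ρ * Real.exp (-(8 / 3) * |ht x|)))) := by linarith
      _ ≤ 16 * ((C0 + C1) / ρ * NUO.cut m (4 / 3) (ht x) *
        Real.exp (-(m * A) + 16 * (C0 + C1) * (m * ρ * Real.exp (-(8 / 3) * |ht x|)))) := by
          gcongr
          linarith
      _ = _ := by ring
  · have ew : wT B M x = 0 := by unfold wT; rw [hk]
    rw [ew, add_zero] at key2
    show _ ≤ 16 * (C0 + C1) * NUO.cut m (4 / 3) (ht x)
    have h0' : ob1c B jL e ρ x * v ≤ C0 * NUO.cut m (4 / 3) (ht x) := h0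
    nlinarith [mul_nonneg hC1 hc2]

end PBC

end
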