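import Pool.Agent.PB.TopB
import Pool.Agent.PB.UseW

/-!
# Plan B: the cut term of the first Ward identity, the supremum over the perturbations

* `gasI_obE`: the gas of the perturbed data `obE B δ M` is `(1 + δ) ^ (p + q)` times the gas of `B`;
* `GasK`: the tilted gas of the dislocated function without statistic (data `obL`);
* **`cutSup`**: perturbed one body functions `Z` with data `obE (obL k β x z) δ₀ M`, `δ₀ ≤ 1 / (k + 1)`:
  `‖Pf‖ ∑ n ≤ 2 (k + 1), FE Z 1 ≤ (k + 1) ^ δ exp (2 |Im z|)`.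
-/

set_option autoImplicit false
set_option linter.unusedSectionVars false

noncomputable section

open Complex MeasureTheory Finset
open scoped ENNReal

namespace PBT

open NUO NUP1 NUP1S NUP1S.Ab NUP1S.AbC NUGC PBF
open PBX (obX XX Lg gP Rws oneC_Lg obX_nn)
open PBL (mu1)
open PBP (gT)
open PotH (crH oneEH)

/-! ### the perturbed gas -/

/-- **the gas of the perturbed one body data** -/
theorem gasI_obE (B : OB) (P : NUO.Par) {δ : ℝ} (hδ : 0 ≤ δ) (M : ℝ → ℝ) (η η' : ℝ → ℝ) {r : ℕ}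
    (O : Fin r → Xo) (p q : ℕ) (ψ : (Fin p → ℝ) × (Fin q → ℝ) → ℝ≥0∞) :
    PotH.gasI (PBC.obE B δ M) P η η' O p q ψ =
      ENNReal.ofReal ((1 + δ) ^ (p + q)) * PotH.gasI B P η η' O p q ψ := by
  have hq : ∀ a, qAc (PBC.obE B δ M) P η O a = fun t => (1 + δ) * qAc B P η O a t := fun a =>
    funext fun t => PBC.qAc_obE B P δ M η O a t
  unfold PotH.gasI
  rw [hq true, hq false]
  have h0 : (0 : ℝ) ≤ (1 + δ) ^ (p + q) := by positivity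
  have e : ∀ x : (Fin p → ℝ) × (Fin q → ℝ),
      ENNReal.ofReal (NU42.WO (dA η) (dA η') (dA η) (dA η') (fun t => (1 + δ) * qAc B P η O true t)
        (fun t => (1 + δ) * qAc B P η O false t) x.1 x.2) * ψ x =
      ENNReal.ofReal ((1 + δ) ^ (p + q)) *
        (ENNReal.ofReal (NU42.WO (dA η) (dA η') (dA η) (dA η') (qAc B P η O true)
          (qAc B P η O false) x.1 x.2) * ψ x) := by
    intro x
    rw [NUBR.WO_smul, ENNReal.ofReal_mul h0, mul_assoc]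
  rw [lintegral_congr e, lintegral_const_mul' _ _ ENNReal.ofReal_ne_top]
  ring

/-- `(1 + δ) ^ (p + q) ≤ e ^ 4` for `p + q ≤ 4 m`, `δ ≤ 1 / m` -/
theorem pow_obE_le {δ : ℝ} (hδ : 0 ≤ δ) {m N : ℕ} (hm : 1 ≤ m) (hN : N ≤ 4 * m)
    (h : δ ≤ 1 / (m : ℝ)) : (1 + δ) ^ N ≤ Real.exp 4 := by
  have hmp : (0 : ℝ) < m := by exact_mod_cast hm
  calc (1 + δ) ^ N ≤ Real.exp δ ^ N :=
        pow_le_pow_left₀ (by linarith) (by linarith [Real.add_one_le_exp δ]) N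
    _ = Real.exp (N * δ) := by rw [Real.exp_nat_mul]
    _ ≤ Real.exp 4 := by
        refine Real.exp_le_exp.2 ?_
        have h1 : (N : ℝ) ≤ 4 * m := by exact_mod_cast hN
        calc (N : ℝ) * δ ≤ (4 * m) * (1 / m) := mul_le_mul h1 h hδ (by positivity)
          _ = 4 := by field_simp

attribute [local instance] NUSea.seaP


/-- **the tilted gas of the dislocated function**, no statistic, exponent `A` -/
def GasK (K kap A d Cst ep e1 J : ℝ) (k : ℕ) (x z : ℂ) : Prop :=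
  ∀ b' : ℝ, |b'| ≤ d → ∀ n ≤ 2 * (k + 1), ∀ r ≤ 2 * n, ∀ O : Fin r → Xo,
    chgO O true ≤ n → chgO O false ≤ n →
    ENNReal.ofReal (Real.exp (b' * (((k + 1 : ℕ) : ℝ) - n))) *
      PotH.gasI (obL k (4 / 3 * (1 - ep)) x z) (pL (k + 1)) (etL e1 J (k + 1))
        (etL' e1 J (k + 1)) O (n - chgO O true) (n - chgO O false) (fun _ => 1) ≤
    ENNReal.ofReal (Cst * ((k + 1 : ℕ) : ℝ) ^ A * Real.exp (linL e1 J (k + 1) x z +
      (∑ i, oneEH (k + 1) (etL e1 J (k + 1)) (TW ep e1 (k + 1)) O i + K * r +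
        NUStabP.enC O + kap * NUDispW.win univ fun i => ht (O i))))

/-- `GasK` for all parameters (`K`, `Ca` first) -/
def GasOf (K Ca : ℝ) : Prop :=
  ∀ kap : ℝ, 0 < kap → ∀ ep : ℝ, 0 < ep → ep ≤ 1 / 100 → ∀ e1 : ℝ, 0 < e1 → e1 ≤ 1 / 100 →
    ∀ J : ℝ, 0 ≤ J → ∀ δ : ℝ, 0 < δ → ∃ d Cst : ℝ, 0 < d ∧ 0 ≤ Cst ∧ ∃ m0 : ℕ, ∀ k : ℕ, m0 ≤ k →
    ∀ x z : ℂ, |x.re| ≤ NUMF.l / 10 → |x.im| ≤ 2 → -(9 / 10 * NUMF.l) ≤ z.re →
      z.re < 37 / 10 * NUMF.l →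
      GasK K kap (3 / 8 + Ca * (ep + e1) + δ) d Cst ep e1 J k x z

/-- **the supremum over the perturbations** -/
theorem cutSup (hS : NUStabP.StabProd) {K Ca : ℝ} (hCa : 0 ≤ Ca) (hG : GasOf K Ca) :
    ∃ K' : ℝ, ∀ C c : ℝ, 0 < C → 0 < c → ∀ δ : ℝ, 0 < δ → ∃ a0 : ℝ, 0 < a0 ∧
    ∀ ep : ℝ, 0 < ep → ep ≤ 1 / 100 → ∀ e1 : ℝ, 0 < e1 → e1 ≤ 1 / 100 → ∀ J : ℝ, 0 ≤ J →
    Real.exp (-(2 * Real.pi * J)) + 3 * e1 + 3 * ep ≤ a0 →
    ∃ m0 : ℕ, ∀ k : ℕ, m0 ≤ k → ∀ x z : ℂ, |x.re| ≤ NUMF.l / 10 → |x.im| ≤ 2 →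
      -(9 / 10 * NUMF.l) ≤ z.re → z.re < 37 / 10 * NUMF.l →
      |z.im| ≤ 3 / 20 * Real.log (k + 1 : ℕ) + 2 →
      ∀ (Z : Bool → Option O3 → ℂ → ℂ) (δ₀ : ℝ) (M : ℝ → ℝ) (κ x0 : ℝ) (Qc : ℤ) (E : Set ℝ),
      0 ≤ δ₀ → δ₀ ≤ 1 / ((k + 1 : ℕ) : ℝ) →
      OneC Z (PBC.obE (obL k (4 / 3 * (1 - ep)) x z) δ₀ M) (pL (k + 1)) ep κ x0 Qc E →
      OneB C c K' ep e1 J (k + 1) (PBC.obE (obL k (4 / 3 * (1 - ep)) x z) δ₀ M) →
      ENNReal.ofReal ‖Pool.Agent.PB.Pf z (mu1 k x) (mu1 k x)‖ *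
        ∑ n ∈ range (2 * (k + 1) + 1), FE Z (pL (k + 1)) n n
          (crL e1 J (k + 1)) (crL' e1 J (k + 1)) (fun _ _ _ _ _ => 1) ≤
        ENNReal.ofReal (((k + 1 : ℕ) : ℝ) ^ δ * Real.exp (2 * |z.im|)) := by
  obtain ⟨K', c1, hc1, HT⟩ := topB hS K 0
  refine ⟨K', fun C c hC hc δ hδ => ?_⟩
  obtain ⟨a0, ha0, HT⟩ := HT C c 0 hC hc le_rfl (δ / 4) (by linarith)
  refine ⟨min a0 (δ / (4 * (Ca + 1))), lt_min ha0 (by positivity),
    fun ep hep hep1 e1 he he1 J hJ hsm => ?_⟩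
  have hsm1 : Real.exp (-(2 * Real.pi * J)) + 3 * e1 + 3 * ep ≤ a0 := hsm.trans (min_le_left _ _)
  have hCa1 : Ca * (ep + e1) ≤ δ / 4 := by
    have h1 := hsm.trans (min_le_right _ _)
    have h2 := Real.exp_pos (-(2 * Real.pi * J))
    have h3 : ep + e1 ≤ δ / (4 * (Ca + 1)) := by linarith
    calc Ca * (ep + e1) ≤ (Ca + 1) * (δ / (4 * (Ca + 1))) :=
          mul_le_mul (by linarith) h3 (by linarith) (by linarith)
      _ = δ / 4 := by field_simp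
  obtain ⟨mt, HT⟩ := HT ep hep hep1 e1 he he1 J hJ hsm1
  obtain ⟨CV, hCV, mv, HV⟩ := valL he he1 hJ
  obtain ⟨d, Cst, hd, hCst, mg, HG⟩ := hG c1 hc1 ep hep hep1 e1 he he1 J hJ (δ / 4) (by linarith)
  obtain ⟨X, hX⟩ : ∃ X : ℝ, X = CV * (Real.exp 4 * Cst) * (2 / (1 - Real.exp (-d))) := ⟨_, rfl⟩
  have t1 : Filter.Tendsto (fun m : ℕ => (m : ℝ) ^ (δ / 4)) Filter.atTop Filter.atTop :=
    (tendsto_rpow_atTop (by linarith : 0 < δ / 4)).comp tendsto_natCast_atTop_atTop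
  obtain ⟨mx, hmx⟩ := Filter.eventually_atTop.1 (t1.eventually_ge_atTop X)
  refine ⟨max (max mt mv) (max mg mx), fun k hk x z hx hx' z1 z2 z3 Z δ₀ M κ x0 Qc E h0 h1 hone hact
    => ?_⟩
  have k1 : mt ≤ k + 1 := ((le_max_left _ _).trans ((le_max_left _ _).trans hk)).trans
    (Nat.le_succ k)
  have k2 : mv ≤ k := (le_max_right _ _).trans ((le_max_left _ _).trans hk)
  have k3 : mg ≤ k := (le_max_left _ _).trans ((le_max_right _ _).trans hk)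
  have k4 : mx ≤ k + 1 := ((le_max_right _ _).trans ((le_max_right _ _).trans hk)).trans
    (Nat.le_succ k)
  have hmp : (0 : ℝ) < ((k + 1 : ℕ) : ℝ) := by positivity
  have hm1 : (1 : ℝ) ≤ ((k + 1 : ℕ) : ℝ) := by exact_mod_cast (by omega : 1 ≤ k + 1)
  have hQ0 : 0 ≤ Real.exp 4 * Cst * ((k + 1 : ℕ) : ℝ) ^ (3 / 8 + Ca * (ep + e1) + δ / 4) := by
    positivity
  have key := HT (k + 1) k1 Z (PBC.obE (obL k (4 / 3 * (1 - ep)) x z) δ₀ M) κ x0 Qc E hone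
    (PBC.obE_nn (obL_nn _ _ _ _) h0) hact ‖Pool.Agent.PB.Pf z (mu1 k x) (mu1 k x)‖
    (linL e1 J (k + 1) x z) (2 * |z.im|) CV (norm_nonneg _) hCV (HV k k2 x z hx z1 z2.le z3)
    (fun _ _ _ _ _ _ => 1) (fun _ _ _ => 1)
    (Real.exp 4 * Cst * ((k + 1 : ℕ) : ℝ) ^ (3 / 8 + Ca * (ep + e1) + δ / 4)) 1 d hQ0 zero_le_one
    hd ?_ ?_
  · refine key.trans (ENNReal.ofReal_le_ofReal ?_)
    obtain ⟨D, hD⟩ : ∃ D, D = 2 / (1 - Real.exp (-d)) := ⟨_, rfl⟩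
    have hD0 : 0 ≤ D := by
      rw [hD]
      have : Real.exp (-d) < 1 := by
        rw [← Real.exp_zero]; exact Real.exp_lt_exp.2 (by linarith)
      exact div_nonneg (by norm_num) (by linarith)
    rw [← hD] at hX ⊢
    have e1' : ((k + 1 : ℕ) : ℝ) ^ (3 / 8 + Ca * (ep + e1) + δ / 4) *
        ((k + 1 : ℕ) : ℝ) ^ (-(3 / 8 : ℝ) + δ / 4) ≤ ((k + 1 : ℕ) : ℝ) ^ (3 / 4 * δ) := by
      rw [← Real.rpow_add hmp]
      exact Real.rpow_le_rpow_of_exponent_le hm1 (by linarith)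
    have e2 : X * ((k + 1 : ℕ) : ℝ) ^ (3 / 4 * δ) ≤ ((k + 1 : ℕ) : ℝ) ^ δ := by
      calc X * ((k + 1 : ℕ) : ℝ) ^ (3 / 4 * δ) ≤
          ((k + 1 : ℕ) : ℝ) ^ (δ / 4) * ((k + 1 : ℕ) : ℝ) ^ (3 / 4 * δ) :=
            mul_le_mul_of_nonneg_right (hmx (k + 1) k4) (Real.rpow_nonneg hmp.le _)
        _ = ((k + 1 : ℕ) : ℝ) ^ δ := by
            rw [← Real.rpow_add hmp]
            congr 1
            ring
    have hX0 : 0 ≤ X := by rw [hX]; positivity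
    calc CV * 1 * (Real.exp 4 * Cst * ((k + 1 : ℕ) : ℝ) ^ (3 / 8 + Ca * (ep + e1) + δ / 4)) *
          ((k + 1 : ℕ) : ℝ) ^ (-(3 / 8 : ℝ) + δ / 4) * Real.exp (2 * |z.im|) * D
        = X * (((k + 1 : ℕ) : ℝ) ^ (3 / 8 + Ca * (ep + e1) + δ / 4) *
          ((k + 1 : ℕ) : ℝ) ^ (-(3 / 8 : ℝ) + δ / 4)) * Real.exp (2 * |z.im|) := by
          rw [hX]
          ring
      _ ≤ X * ((k + 1 : ℕ) : ℝ) ^ (3 / 4 * δ) * Real.exp (2 * |z.im|) := by gcongr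
      _ ≤ _ := mul_le_mul_of_nonneg_right e2 (Real.exp_pos _).le
  · intro n _ r _ O
    refine ⟨zero_le_one, ?_⟩
    have hs : 0 ≤ ∑ i, gT e1 (Real.log (k + 1 : ℕ)) (ht (O i)) :=
      Finset.sum_nonneg fun i _ => PBP.gT_nonneg _ _ _
    have h2 : (if (r : ℝ) ≤ Real.log (k + 1 : ℕ) then (1 : ℝ) else
        1 * Real.exp (0 * Real.log (k + 1 : ℕ))) = 1 := by
      split_ifs
      · rfl
      · rw [zero_mul, Real.exp_zero, one_mul]
    rw [h2, zero_mul, Real.exp_zero, one_mul, one_mul]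
    exact Real.one_le_exp hs
  · intro b' hb' n hn r hr O g1 g2
    rw [gasI_obE _ _ h0]
    have hN : (n - chgO O true) + (n - chgO O false) ≤ 4 * (k + 1) := by omega
    have hp := pow_obE_le h0 (by omega : 1 ≤ k + 1) hN h1
    have hg := HG k k3 x z hx hx' z1 z2 b' hb'.le n hn r hr O g1 g2
    obtain ⟨G, hGd⟩ : ∃ G, G = PotH.gasI (obL k (4 / 3 * (1 - ep)) x z) (pL (k + 1))
      (etL e1 J (k + 1)) (etL' e1 J (k + 1)) O (n - chgO O true) (n - chgO O false)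
      (fun _ => 1) := ⟨_, rfl⟩
    rw [← hGd] at hg ⊢
    calc ENNReal.ofReal (Real.exp (b' * (((k + 1 : ℕ) : ℝ) - n))) *
          (ENNReal.ofReal ((1 + δ₀) ^ (n - chgO O true + (n - chgO O false))) * G)
        = ENNReal.ofReal ((1 + δ₀) ^ (n - chgO O true + (n - chgO O false))) *
          (ENNReal.ofReal (Real.exp (b' * (((k + 1 : ℕ) : ℝ) - n))) * G) := by ring
      _ ≤ ENNReal.ofReal (Real.exp 4) * ENNReal.ofReal (Cst *
          ((k + 1 : ℕ) : ℝ) ^ (3 / 8 + Ca * (ep + e1) + δ / 4) *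
          Real.exp (linL e1 J (k + 1) x z +
            (∑ i, oneEH (k + 1) (etL e1 J (k + 1)) (TW ep e1 (k + 1)) O i + K * r +
              NUStabP.enC O + c1 * NUDispW.win univ fun i => ht (O i)))) :=
          mul_le_mul' (ENNReal.ofReal_le_ofReal hp) hg
      _ = _ := by
          rw [← ENNReal.ofReal_mul (Real.exp_pos 4).le]
          congr 1
          ring

end PBT

end
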