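import Pool.Agent.PB.TopD
import Pool.Agent.PB.CutBd

/-!
# Plan B: the bound of the gas of the dislocated function in the form `GasOf`
-/

set_option autoImplicit false

noncomputable section

namespace PBT

/-- **the hypothesis of `cutSup` and `cutFin`** -/
theorem gasOf_L : ∃ K Ca : ℝ, 0 ≤ K ∧ 0 ≤ Ca ∧ GasOf K Ca := by
  obtain ⟨K, Ca, hK, hCa, H⟩ := gas_L
  refine ⟨K, Ca, hK, hCa, ?_⟩
  intro kap hkap ep hep hep1 e1 he he1 J hJ δ hδ
  obtain ⟨d, Cst, hd, hCst, m0, H⟩ := H kap hkap ep hep hep1 e1 he he1 J hJ δ hδ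
  exact ⟨d, Cst, hd, hCst, m0, fun k hk x z hx hx' z1 z2 b' hb' n hn r hr O h1 h2 =>
    H k hk x z hx hx' z1 z2 n hn b' hb' r O hr h1 h2⟩

end PBT

end
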