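import Pool.Agent.PB.ZFamR
import Pool.Agent.PB.Num

/-!
# The cut term with the literal names of `PB/I1Q`, `PB/Num`

* `lamL_eq` : 5's leg force `lamL` is `i` times the logarithmic derivative of the leg factor;
* **`zcut_K`** : on the lines of all words `Zcut (ZR η0) (ZdR η0) ZpR (xiK x 0) (krK x) (r1K x 0)
  (lamK z0)` is 17's `ZcX` with the field `xiR x 0`, rows `x = rwx a η0`.
-/

set_option autoImplicit false
set_option linter.unusedSectionVars false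
set_option linter.unusedVariables false

noncomputable section

open Complex MeasureTheory Filter Topology

namespace PBZF

open NUP1 NUP1.Bd NURow
open PBX (Lg)

variable {b : ℝ} {a : ℕ} {z0 : ℂ}

theorem lamL_eq {u : ℂ} (hz : Lz z0) (h1 : -(47 / 20) * l ≤ u.re) (h2 : u.re ≤ 19 / 20 * l) :
    PBQ1.lamL z0 u = lamU z0 u := by
  obtain ⟨hne, hd⟩ := Lg_ne hz h1 h2
  have h3 : sin (z0 - u + 2 * l) ≠ 0 := PBX.Lg_den hd
  have h4 : sin (z0 - u - 3 * l) ≠ 0 := by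
    intro h0
    apply hne
    unfold Lg
    rw [h0, zero_div]
  have e : deriv (Lg z0 z0) u = Lg z0 z0 u * (-I * PBQ1.lamL z0 u) :=
    (PBQ1.hasDerivAt_Th h3 h4).deriv
  unfold lamU
  rw [e]
  field_simp
  linear_combination PBQ1.lamL z0 u * I_sq

theorem KI_range {k : Option NUP1S.O3} {u : ℂ} (hu : u.re ∈ KI k) :
    -(47 / 20) * l ≤ u.re ∧ u.re ≤ 19 / 20 * l := by
  have hl := Bd.l_pos
  rcases k with _ | (_ | _ | _)
  all_goals
    obtain ⟨h1, h2⟩ := hu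
    constructor <;> linarith

theorem KI_range' {k : NUP1S.O3} (hk : k ≠ .L) {u : ℂ} (hu : u.re ∈ KI (some k)) :
    -(47 / 20) * l ≤ (u - l).re ∧ (u - l).re ≤ 19 / 20 * l := by
  have hl := Bd.l_pos
  rw [re_sub_l]
  cases k
  · exact absurd rfl hk
  all_goals
    obtain ⟨h1, h2⟩ := hu
    constructor <;> linarith

theorem lamK_eq {s : Bool} {k : Option NUP1S.O3} {u : ℂ} (hz : Lz z0) (hu : u.re ∈ KI k) :
    PBQ1.lamK z0 (s, k) u = lamK z0 k u := by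
  obtain ⟨h1, h2⟩ := KI_range hu
  have a1 := lamL_eq hz h1 h2
  rcases k with _ | (_ | _ | _)
  · exact a1
  · exact a1
  · obtain ⟨h3, h4⟩ := KI_range' (by decide) hu
    show PBQ1.lamL z0 u + PBQ1.lamL z0 (u - l) = lamU z0 u + lamU z0 (u - l)
    rw [a1, lamL_eq hz h3 h4]
  · obtain ⟨h3, h4⟩ := KI_range' (by decide) hu
    show PBQ1.lamL z0 u + PBQ1.lamL z0 (u - l) = lamU z0 u + lamU z0 (u - l)
    rw [a1, lamL_eq hz h3 h4]

/-- **the cut term on the lines of all words, literal names** -/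
theorem zcut_K (c : Bool → ℂ) (hb1 : 1 ≤ b) (hb' : b ≤ 4 / 3) (hz : Lz z0) (η0 : ℝ)
    (ξe : ℝ → ℂ) {α : ℝ} (hα : 3 / 5 * l ≤ α) (hα' : α ≤ 9 / 10 * l) {L : PBI.Lns}
    (hL : LnH L.X L.Y) (n : ℕ) :
    PBI.AllW α n n L fun c' x => ∀ i, ∀ t : ℝ,
      PBI.Zcut (ZR c b a z0 η0 (PBFar.vI b a ((η0 : ℂ) * I) I ξe) η0)
        (ZdR c b a z0 η0 (PBFar.vI b a ((η0 : ℂ) * I) I ξe) η0)
        (ZpR c b a z0 η0 (PBFar.vI b a ((η0 : ℂ) * I) I ξe))
        (PBQ1.xiK (rwx a (η0 : ℂ)) 0) (PBQ1.krK (rwx a (η0 : ℂ))) (PBQ1.r1K (rwx a (η0 : ℂ)) 0)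
        (PBQ1.lamK z0) (c' i).1 (c' i).2 (NUP1.vl (x i) t) =
      PBC.ZcX (c (c' i).1) (rwx a (η0 : ℂ)) b a ((η0 : ℂ) * I) I ξe
        (PBForce.xiR (rwx a (η0 : ℂ)) 0) (Lg z0 z0)
        (fun w => Lg z0 z0 w * Lg z0 z0 (w - l)) (c' i).2 (NUP1.vl (x i) t) := by
  intro p p' k k' h1 h2 i t
  have hi := all_KI hα hα' hL n n k k' i
  rw [show L.all α n n k k' i = (NUP1.vl (L.all α n n k k' i) t).re from
    (NUP1.re_vl _ _).symm] at hi
  exact zcut_eq c hb1 hb' hz η0 ξe (PBI.cl n n k k' i).1 hi rfl (fun o => rfl) rfl rfl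
    (lamK_eq hz hi)

end PBZF

end
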