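import Pool.Agent.PB.FarF
import Pool.Agent.PB.K11E

/-!
# Plan B, far end: the cut of `St` at all heights

Rows `η I :: 0 ^ a`, `cutT b a x e w = phi_b (w) phi_b (w - l) - phi_{4/3} (w)` (extra points only in
`phi_b`), `DT = (∂_η + ξ ∂_t) cutT` at `w = posT t`:
* `far_T_form` : `‖DT‖ ≤ K e^{-6 b |t|} e^{-MF} e^{- κ a e^{-(8/3)|t|}}`,
  `e^{-MF} = exp (- Ag (1/2) (t - η)) exp (- a Ag (1/2) t)`;
* `far_T_all` : `‖DT‖ ≤ K a ^ (- 9 b / 4) e^{-MF} min 1 (a e^{-(8/3)|t|})`.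
-/

set_option autoImplicit false

open Complex Finset

noncomputable section

namespace PBFar

open NUP1 NURow PBForce NUO PB.K11

/-- `e^{-MF}` of `St` -/
def eMF (a : ℕ) (η t : ℝ) : ℝ := Real.exp (-NUMF.Ag (1 / 2) (t - η)) * Real.exp (-(a * NUMF.Ag (1 / 2) t))

theorem eMF_pos (a : ℕ) (η t : ℝ) : 0 < eMF a η t := by unfold eMF; positivity

theorem row0_eq (a : ℕ) (η : ℝ) : row0 a (η : ℂ) = ((η : ℂ) * I) :: List.replicate a 0 := by
  unfold row0
  rw [mul_comm]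

theorem W0_eq (a : ℕ) (η : ℝ) (e : Fin 2 → ℂ) : W0 a ((η : ℂ) * I) e = row0 a (η : ℂ) ++ [e 0, e 1] := by
  rw [row0_eq]
  rfl

theorem wE_list : ([wE 0, wE 1] : List ℂ) = [I, -I] := rfl

theorem ex_re (x : ℂ) (hx : x ∈ ([I, -I] : List ℂ)) : |x.re| ≤ l / 2 := by
  have hl := l_pos
  have hx0 : x.re = 0 := by
    simp only [List.mem_cons, List.not_mem_nil, or_false] at hx
    rcases hx with h | h <;> rw [h] <;> simp
  rw [hx0, abs_zero]
  positivity

/-- the three products -/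
theorem prods {κ b : ℝ} (hG : Good κ b) (hκ : 0 ≤ κ) (a : ℕ) (η t : ℝ) :
    ‖1 - NUP1.phi b (W0 a ((η : ℂ) * I) wE) (posT t)‖ ≤
        eMF a η t * Real.exp (-(κ * (a * Real.exp (-(8 / 3) * |t|)))) ∧
    ‖1 - NUP1.phi b (W0 a ((η : ℂ) * I) wE) (posT t - l)‖ ≤
        eMF a η t * Real.exp (-(κ * (a * Real.exp (-(8 / 3) * |t|)))) ∧
    ‖1 - NUP1.phi (4 / 3) (((η : ℂ) * I) :: List.replicate a 0) (posT t)‖ ≤
        eMF a η t * Real.exp (-(κ * (a * Real.exp (-(8 / 3) * |t|)))) := by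
  classical
  have hl := l_pos
  set V := row0 a (η : ℂ) with hV
  set ex : List ℂ := [I, -I] with hex
  have hVr : ∀ x ∈ V, |x.re| ≤ l / 2 := fun x hx => by
    rw [row0_re a η x hx, abs_zero]; positivity
  set y := pts V ex with hy
  set R := rws V ex with hR
  have hyr : ∀ i, |(y i).re| ≤ l / 2 := pts_mem (p := fun x => |x.re| ≤ l / 2) hVr ex_re
  have hPV : PV y R (posT t) = eMF a η t := by
    rw [hy, hR, PV_list, hV, prod_row0]
    rfl
  have hSV : a * Real.exp (-(8 / 3) * |t|) ≤ SV y R t := by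
    rw [hy, hR, SV_list, hV]
    exact sum_wt_row0 a η t
  have hQ : PV y R (posT t) * Real.exp (-(κ * SV y R t)) ≤
      eMF a η t * Real.exp (-(κ * (a * Real.exp (-(8 / 3) * |t|)))) := by
    rw [hPV]
    exact mul_le_mul_of_nonneg_left (Real.exp_le_exp.2 (neg_le_neg
      (mul_le_mul_of_nonneg_left hSV hκ))) (eMF_pos a η t).le
  have e1 : ∀ u, 1 - NUP1.phi b (W0 a ((η : ℂ) * I) wE) u = prI b y u := by
    intro u
    rw [W0_eq, wE_list, ← hex, ← hV, hy, prI_list]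
    unfold NUP1.phi
    rw [sub_sub_cancel]
  have e2 : ∀ u, 1 - NUP1.phi (4 / 3) (((η : ℂ) * I) :: List.replicate a 0) u = prR y R u := by
    intro u
    rw [← row0_eq, ← hV, hy, hR, prR_list]
    unfold NUP1.phi
    rw [sub_sub_cancel]
  refine ⟨?_, ?_, ?_⟩
  · rw [e1]
    refine le_trans ?_ hQ
    rw [prI, norm_prod]
    exact prod_le_aux R (fun i => norm_nonneg _) (fun i => (hG (y i) t (hyr i)).2.2.2.2)
      fun i _ => (hG (y i) t (hyr i)).2.1
  · rw [e1]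
    refine le_trans ?_ hQ
    rw [prI, norm_prod]
    exact prod_le_aux R (fun i => norm_nonneg _) (fun i => (hG (y i) t (hyr i)).2.2.2.1)
      fun i _ => (hG (y i) t (hyr i)).1
  · rw [e2]
    refine le_trans ?_ hQ
    rw [prR, norm_prod, PV, SV]
    have e : Real.exp (-(κ * ∑ i ∈ R, wt (y i) t)) = ∏ i ∈ R, Real.exp (-(κ * wt (y i) t)) := by
      rw [← Real.exp_sum]
      congr 1
      rw [Finset.mul_sum, Finset.sum_neg_distrib]
    rw [e, ← Finset.prod_mul_distrib]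
    exact Finset.prod_le_prod (fun i _ => norm_nonneg _) fun i _ => (hG (y i) t (hyr i)).2.2.1

theorem hyp_b {b : ℝ} (h1 : 1 ≤ b) (h2 : b < 4 / 3) : Hyp b (3 * l / 2) where
  b1 := h1
  b2 := h2.le
  s0 := by have := l_pos; positivity
  s1 := by
    have hl := l_pos
    have hpl : 8 * l = Real.pi := by unfold l; ring
    nlinarith

theorem hyp_43 : Hyp (4 / 3) l where
  b1 := by norm_num
  b2 := le_rfl
  s0 := l_pos.le
  s1 := by
    have hl := l_pos
    have hpl : 8 * l = Real.pi := by unfold l; ring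
    linarith

theorem posT_strip (t : ℝ) : |(posT t).re + l / 2| ≤ l ∧ |(posT t).re + l / 2| ≤ 3 * l / 2 ∧
    |(posT t - l).re + l / 2| ≤ 3 * l / 2 := by
  have hl := l_pos
  have e1 : (posT t).re = -(1 / 2 * l) := NUO.vl_re _ _
  have e2 : (posT t - l).re = -(3 / 2 * l) := by rw [sub_re, e1, ofReal_re]; ring
  have a1 : (posT t).re + l / 2 = 0 := by rw [e1]; ring
  have a2 : (posT t - l).re + l / 2 = -l := by rw [e2]; ring
  rw [a1, a2, abs_zero, abs_neg, abs_of_pos hl]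
  exact ⟨hl.le, by positivity, by linarith⟩

/-- the derivative of K11 is `DT` -/
theorem DT_eq {b : ℝ} (h1 : 1 ≤ b) (h2 : b < 4 / 3) {κ : ℝ} (hG : Good κ b) (hκ : 0 ≤ κ)
    (hκ1 : κ ≤ 1 / 100) (a : ℕ) {η : ℝ} (hη : |η| ≤ 1) (t : ℝ) (ξ : ℂ) (ξe : ℝ → ℂ) :
    ‖DT b a ((η : ℂ) * I) I ξe ξ (posT t)‖ ≤
      3440 * Real.exp 3 * ((a + 3) * ‖ξ‖ + 1 + ‖vI b a ((η : ℂ) * I) I ξe 0‖ +
        ‖vI b a ((η : ℂ) * I) I ξe 1‖) * Real.exp (-(2 * b) * |t|) * eMF a η t *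
        Real.exp (-(κ * (a * Real.exp (-(8 / 3) * |t|)))) := by
  obtain ⟨d, hd, hn⟩ := cut0_deriv hG hκ hκ1 (by linarith) h2.le a hη t ξ
    (vI b a ((η : ℂ) * I) I ξe 0) (vI b a ((η : ℂ) * I) I ξe 1)
  obtain ⟨s1, s2, s3⟩ := posT_strip t
  set v := vI b a ((η : ℂ) * I) I ξe with hv
  have dlin : ∀ p q : ℂ, HasDerivAt (fun s : ℝ => p + s * q) q 0 := by
    intro p q
    have := ((Complex.ofRealCLM.hasDerivAt (x := (0 : ℝ))).mul_const q).const_add p
    simpa using this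
  have hX : HasDerivAt (fun s : ℝ => ((η + s : ℝ) : ℂ) * I) I 0 := by
    have := dlin ((η : ℂ) * I) I
    refine this.congr_of_eventuallyEq (Filter.Eventually.of_forall fun s => ?_)
    show ((η + s : ℝ) : ℂ) * I = (η : ℂ) * I + s * I
    push_cast
    ring
  have he : ∀ i, HasDerivAt (fun s : ℝ => (![I + s * v 0, -I + s * v 1] : Fin 2 → ℂ) i) (v i) 0 := by
    intro i
    fin_cases i
    · exact dlin _ _
    · exact dlin _ _
  have hu : HasDerivAt (fun s : ℝ => posT t + I * (ξ * s)) (I * ξ) 0 := by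
    have := (((Complex.ofRealCLM.hasDerivAt (x := (0 : ℝ))).const_mul ξ).const_mul I).const_add (posT t)
    simpa using this
  have hu0 : posT t + I * (ξ * ((0 : ℝ) : ℂ)) = posT t := by simp
  have hT := hasDerivAt_T (hyp_b h1 h2) hyp_43 (a := a) (x := (η : ℂ) * I) (v := I) (re_row η)
    (ξe := ξe) (X := fun s : ℝ => ((η + s : ℝ) : ℂ) * I)
    (e := fun s : ℝ => ![I + s * v 0, -I + s * v 1])
    (u := fun s : ℝ => posT t + I * (ξ * s)) (ξ := ξ) (τ := 0) hX (by simp) he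
    (by funext i; fin_cases i <;> simp [wE]) hu (by simp only [hu0]; exact s2)
    (by simp only [hu0]; exact s3) (by simp only [hu0]; exact s1)
  simp only [hu0] at hT
  have hfun : (fun s : ℝ => PBFar.cutT b a (((η + s : ℝ) : ℂ) * I) ![I + s * v 0, -I + s * v 1]
      (posT t + I * (ξ * s))) = fun s : ℝ => cutL b (row0 a ((η + s : ℝ) : ℂ))
        [I + s * v 0, -I + s * v 1] (posT t + I * (ξ * s)) := by
    funext s
    unfold PBFar.cutT cutL
    rw [W0_eq, row0_eq]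
    rfl
  rw [hfun] at hT
  rw [← hd.unique hT]
  unfold eMF
  refine hn.trans (le_of_eq ?_)
  ring

/-- **the cut of `St`, product form**, all heights -/
theorem far_T_form {b : ℝ} (h1 : 1 ≤ b) (h2 : b < 4 / 3) {κ : ℝ} (hG : Good κ b) (hκ : 0 ≤ κ)
    (hκ1 : κ ≤ 1 / 100) {C0 : ℝ} (hC0 : 1 ≤ C0) : ∃ (K : ℝ) (N0 : ℕ), 0 < K ∧ ∀ a : ℕ, N0 ≤ a →
    ∀ η : ℝ, |η| ≤ 1 → ∀ ξ : ℝ → ℂ, Fl a C0 ξ (xe a η) → ∀ t : ℝ,
      ‖DT b a ((η : ℂ) * I) I (xe a η) (ξ t) (posT t)‖ ≤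
        K * Real.exp (-(6 * b * |t|)) * eMF a η t *
          Real.exp (-(κ * (a * Real.exp (-(8 / 3) * |t|)))) := by
  have H := hyp_b h1 h2
  have H' := hyp_43
  set K1 := CT b C0 1 * (11 * (2 + 3 * Real.exp (4 * b)) + 200 * Real.exp (12 * b) * 3 * 3 + 800) with hK1
  set K2 := C0 * (11 * (2 + Real.exp (4 * (4 / 3))) + 200 * Real.exp (12 * (4 / 3)) * 3 + 800) with hK2
  set K3 := 3440 * Real.exp 3 * (8 * C0 + 1 + CT b C0 1 + CT b C0 1) with hK3
  have hCT : 0 ≤ CT b C0 1 := by unfold CT CR; positivity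
  have hCK := CK_pos H 3
  have p1 : 0 ≤ K1 := by rw [hK1]; positivity
  have p2 : 0 ≤ K2 := by rw [hK2]; positivity
  have p3 : 0 < K3 := by rw [hK3]; positivity
  refine ⟨2 * K1 * CK b (3 * l / 2) 3 + K2 + K3 * Real.exp (18 * b),
    max 1 ⌈n0 b (3 * l / 2) 3⌉₊, by positivity, fun a ha η hη ξ hF t => ?_⟩
  have ha1 : 1 ≤ a := (le_max_left _ _).trans ha
  have ha0 : (1 : ℝ) ≤ a := by exact_mod_cast ha1
  have han : n0 b (3 * l / 2) 3 ≤ a := (Nat.le_ceil _).trans (by exact_mod_cast (le_max_right _ _).trans ha)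
  obtain ⟨s1, s2, s3⟩ := posT_strip t
  have i1 : (posT t).im = t := NUO.vl_im _ _
  have i2 : (posT t - l).im = t := by rw [sub_im, i1, ofReal_im, sub_zero]
  obtain ⟨q1, q2, q3⟩ := prods hG hκ a η t
  set E := eMF a η t * Real.exp (-(κ * (a * Real.exp (-(8 / 3) * |t|)))) with hE
  have hE0 : 0 < E := mul_pos (eMF_pos _ _ _) (Real.exp_pos _)
  set x : ℂ := (η : ℂ) * I with hx
  have hxr := re_row η
  have hxi := im_row hη
  have hI : ‖(I : ℂ)‖ ≤ C0 := by rw [Complex.norm_I]; exact hC0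
  have goal_eq : (2 * K1 * CK b (3 * l / 2) 3 + K2 + K3 * Real.exp (18 * b)) *
      Real.exp (-(6 * b * |t|)) * eMF a η t * Real.exp (-(κ * (a * Real.exp (-(8 / 3) * |t|)))) =
      (2 * K1 * CK b (3 * l / 2) 3 + K2 + K3 * Real.exp (18 * b)) * (Real.exp (-(6 * b * |t|)) * E) := by
    rw [hE]; ring
  rw [goal_eq]
  rcases le_total 3 |t| with ht | ht
  · -- far
    have a1 := far_W_prod H ha1 hxr hxi hI hF s2 (by rw [i1]; exact ht)
    have a2 := far_W_prod H ha1 hxr hxi hI hF s3 (by rw [i2]; exact ht)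
    have a3 := far_R0_prod H' ha1 hη hC0 hF s1 (by rw [i1]; exact ht)
    rw [i1] at a1 a3
    rw [i2] at a2
    have b1 := phi_le H han hxr hxi s2
    have b2 := phi_le H han hxr hxi s3
    have c1' : ‖NUP1.phi b (W0 a x wE) (posT t)‖ ≤ CK b (3 * l / 2) 3 :=
      b1.trans (mul_le_of_le_one_right hCK.le (min_le_left _ _))
    have c2' : ‖NUP1.phi b (W0 a x wE) (posT t - l)‖ ≤ CK b (3 * l / 2) 3 :=
      b2.trans (mul_le_of_le_one_right hCK.le (min_le_left _ _))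
    set F := Real.exp (-(6 * b * |t|)) with hFF
    have hF0 : 0 < F := Real.exp_pos _
    have hF8 : Real.exp (-(8 * |t|)) ≤ F := by
      rw [hFF]
      refine Real.exp_le_exp.2 ?_
      nlinarith [abs_nonneg t]
    have d1 : ‖DW b a x I (xe a η) (ξ t) (posT t)‖ ≤ K1 * F * E :=
      a1.trans (mul_le_mul_of_nonneg_left q1 (by positivity))
    have d2 : ‖DW b a x I (xe a η) (ξ t) (posT t - l)‖ ≤ K1 * F * E :=
      a2.trans (mul_le_mul_of_nonneg_left q2 (by positivity))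
    have d3 : ‖DR (4 / 3) a x I (ξ t) (posT t)‖ ≤ K2 * F * E :=
      a3.trans (mul_le_mul (mul_le_mul_of_nonneg_left hF8 p2) q3 (norm_nonneg _) (by positivity))
    unfold DT
    refine (norm_sub_le _ _).trans ((add_le_add (norm_add_le _ _) le_rfl).trans ?_)
    rw [norm_mul, norm_mul]
    have m1 := mul_le_mul d1 c2' (norm_nonneg _) (by positivity)
    have m2 := mul_le_mul c1' d2 (norm_nonneg _) hCK.le
    have m4 : 0 ≤ K3 * Real.exp (18 * b) * (F * E) := by positivity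
    have e : (2 * K1 * CK b (3 * l / 2) 3 + K2 + K3 * Real.exp (18 * b)) * (F * E) =
        K1 * F * E * CK b (3 * l / 2) 3 + CK b (3 * l / 2) 3 * (K1 * F * E) + K2 * F * E +
          K3 * Real.exp (18 * b) * (F * E) := by ring
    rw [e]
    linarith
  · -- near
    have a1 := DT_eq h1 h2 hG hκ hκ1 a hη t (ξ t) (xe a η)
    have a2 := norm_vI_le H han hxr hxi hI hF 0
    have a3 := norm_vI_le H han hxr hxi hI hF 1
    have a4 := hF.norm_le t
    have a5 : (a + 3) * ‖ξ t‖ ≤ 8 * C0 := by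
      have h5 : (a + 3 : ℝ) * ‖ξ t‖ ≤ (a + 3) * (2 * C0 / a) := mul_le_mul_of_nonneg_left a4 (by positivity)
      refine h5.trans ?_
      rw [← mul_div_assoc, div_le_iff₀ (by linarith)]
      nlinarith
    have a6 : Real.exp (-(2 * b) * |t|) ≤ Real.exp (18 * b) * Real.exp (-(6 * b * |t|)) := by
      rw [← Real.exp_add]
      refine Real.exp_le_exp.2 ?_
      nlinarith [abs_nonneg t]
    refine a1.trans ?_
    rw [mul_assoc _ (eMF a η t), ← hE]
    have a7 : 3440 * Real.exp 3 * ((a + 3) * ‖ξ t‖ + 1 + ‖vI b a x I (xe a η) 0‖ +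
        ‖vI b a x I (xe a η) 1‖) ≤ K3 := by
      rw [hK3]
      exact mul_le_mul_of_nonneg_left (by linarith) (by positivity)
    have a8 := mul_le_mul (mul_le_mul a7 a6 (Real.exp_pos _).le p3.le) (le_refl E) hE0.le (by positivity)
    refine a8.trans ?_
    have a9 : 0 ≤ (2 * K1 * CK b (3 * l / 2) 3 + K2) * (Real.exp (-(6 * b * |t|)) * E) := by positivity
    linarith

/-- `x ^ p e^{-κ x} ≤ (1 + 6 / κ ^ 3) min 1 x` -/
theorem rpow_exp_le {κ p x : ℝ} (hκ : 0 < κ) (hp1 : 1 ≤ p) (hp : p ≤ 3) (hx : 0 ≤ x) :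
    x ^ p * Real.exp (-(κ * x)) ≤ (1 + 6 / κ ^ 3) * min 1 x := by
  rcases le_total x 1 with h | h
  · rw [min_eq_right h]
    have e1 : x ^ p ≤ x := by
      have := Real.rpow_le_rpow_of_exponent_ge_of_imp hx h hp1 (fun _ h0 => by exfalso; linarith)
      rwa [Real.rpow_one] at this
    have e2 : Real.exp (-(κ * x)) ≤ 1 := Real.exp_le_one_iff.2 (by have := mul_nonneg hκ.le hx; linarith)
    have e3 : x ^ p * Real.exp (-(κ * x)) ≤ x * 1 := mul_le_mul e1 e2 (Real.exp_pos _).le hx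
    have e4 : 0 ≤ 6 / κ ^ 3 * x := by positivity
    linarith
  · rw [min_eq_left h, mul_one]
    have e1 : x ^ p ≤ x ^ (3 : ℝ) := Real.rpow_le_rpow_of_exponent_le h hp
    have e2 : x ^ (3 : ℝ) = x ^ 3 := by
      rw [show (3 : ℝ) = ((3 : ℕ) : ℝ) by norm_num, Real.rpow_natCast]
    rw [e2] at e1
    have e3 : (κ * x) ^ 3 * Real.exp (-(κ * x)) ≤ 6 * (1 - Real.exp (-(κ * x))) :=
      cube_exp (by positivity)
    have e4 := Real.exp_pos (-(κ * x))
    have e5 : x ^ 3 * Real.exp (-(κ * x)) ≤ 6 / κ ^ 3 := by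
      rw [le_div_iff₀ (by positivity)]
      calc x ^ 3 * Real.exp (-(κ * x)) * κ ^ 3 = (κ * x) ^ 3 * Real.exp (-(κ * x)) := by ring
        _ ≤ 6 * (1 - Real.exp (-(κ * x))) := e3
        _ ≤ 6 := by linarith
    have e6 := mul_le_mul_of_nonneg_right e1 e4.le
    linarith

/-- **the cut of `St`**, all heights -/
theorem far_T_all {b : ℝ} (h1 : 1 ≤ b) (h2 : b < 4 / 3) {κ : ℝ} (hG : Good κ b) (hκ : 0 < κ)
    (hκ1 : κ ≤ 1 / 100) {C0 : ℝ} (hC0 : 1 ≤ C0) : ∃ (K : ℝ) (N0 : ℕ), 0 < K ∧ ∀ a : ℕ, N0 ≤ a →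
    ∀ η : ℝ, |η| ≤ 1 → ∀ ξ : ℝ → ℂ, Fl a C0 ξ (xe a η) → ∀ t : ℝ,
      ‖DT b a ((η : ℂ) * I) I (xe a η) (ξ t) (posT t)‖ ≤
        K * (a : ℝ) ^ (-(9 / 4 * b)) * eMF a η t * min 1 (a * Real.exp (-(8 / 3) * |t|)) := by
  obtain ⟨K, N0, hK, H⟩ := far_T_form h1 h2 hG hκ.le hκ1 hC0
  refine ⟨K * (1 + 6 / κ ^ 3), max N0 1, by positivity, fun a ha η hη ξ hF t => ?_⟩
  have ha1 : (1 : ℝ) ≤ a := by exact_mod_cast (le_max_right _ _).trans ha
  have ha0 : (0 : ℝ) < a := by linarith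
  refine (H a ((le_max_left _ _).trans ha) η hη ξ hF t).trans ?_
  set y := (a : ℝ) * Real.exp (-(8 / 3) * |t|) with hy
  have hy0 : 0 < y := by rw [hy]; positivity
  have e1 : Real.exp (-(6 * b * |t|)) = (a : ℝ) ^ (-(9 / 4 * b)) * y ^ (9 / 4 * b) := by
    rw [hy, Real.mul_rpow ha0.le (Real.exp_pos _).le, ← mul_assoc, ← Real.rpow_add ha0,
      neg_add_cancel, Real.rpow_zero, one_mul, ← Real.exp_mul]
    congr 1
    ring
  rw [e1]
  have e2 := rpow_exp_le (p := 9 / 4 * b) hκ (by linarith) (by linarith) hy0.le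
  have e3 : 0 ≤ K * (a : ℝ) ^ (-(9 / 4 * b)) * eMF a η t :=
    mul_nonneg (mul_nonneg hK.le (Real.rpow_nonneg ha0.le _)) (eMF_pos _ _ _).le
  have e4 := mul_le_mul_of_nonneg_left e2 e3
  calc K * ((a : ℝ) ^ (-(9 / 4 * b)) * y ^ (9 / 4 * b)) * eMF a η t * Real.exp (-(κ * y)) =
      K * (a : ℝ) ^ (-(9 / 4 * b)) * eMF a η t * (y ^ (9 / 4 * b) * Real.exp (-(κ * y))) := by ring
    _ ≤ _ := e4
    _ = _ := by ring

end PBFar

end
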