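import Pool.Agent.PB.OneR0
import Pool.Agent.PB.UseW

/-!
# Plan B, rows `0`: the one body factor of every object from the bounds by kinds (helper17)

`WKB B0 m β B`: the bounds by kinds `NUGC.KB` of the weights `wZ B m`;
* **`one_oneEHT_KB`**: the one body bound in the form `act * exp (- gT)` for every `B` with `WKB`;
* `wkb_ObZ`: `WKB` from `ObZ`;
* **`wkb_obE`**: `WKB` for the perturbed data `obE B δ M`, if `exp (K Ag (1/2) t) M t ≤ CM cut`.
-/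

set_option autoImplicit false
set_option linter.unusedVariables false

noncomputable section

open Complex MeasureTheory Set

namespace PBC

open NUP1 NUO NUGC PBO

/-- **bounds by kinds of the weights of the objects**, sea of `m` rows at `0` -/
def WKB (B0 : ℝ) (m : ℕ) (β : ℝ) (B : OB) : Prop :=
  ∀ e : ℝ, 1 / 4 ≤ e → e ≤ eM → ∀ (jL ρ : ℝ) (x : Xo), 2 ≤ jL → jL ≤ 5 / 2 → 0 < ρ → ρ ≤ l / 20 →
    KB B0 m β ρ (NUMF.Ag e (ht x)) 1 (wZ B m jL e ρ x) (kd x) (ht x)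

/-- `WKB` from the data of 73 -/
theorem wkb_ObZ (n0 : ℕ) {h0 G : ℝ} (hh : 0 ≤ h0) (hG : 0 < G) : ∃ B0 : ℝ, 0 < B0 ∧
    ∀ (m : ℕ) (β : ℝ) (B : OB) (K : ℕ) (mu ex W1 W2 : List ℂ) (c0 : ℝ) (g : Bool → ℂ → ℝ),
      1 ≤ m → 0 < β → β ≤ 4 / 3 → ObZ n0 h0 G m β eM B K mu ex W1 W2 c0 g → WKB B0 m β B := by
  obtain ⟨B0, hB0, H⟩ := wZ_KB n0 hh hG
  refine ⟨B0, hB0, fun m β B K mu ex W1 W2 c0 g hm b0 b1 hZ e e0 e1 jL ρ x j0 j1 r0 r1 => ?_⟩
  exact H m β e B K mu ex W1 W2 c0 g hm b0 b1 (hZ.mono e1) e0 (e1.trans (by unfold eM; norm_num))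
    jL ρ x j0 j1 r0 r1

attribute [local instance] NUSea.seaP

/-- **the one body factor of every object from the bounds by kinds**, curve `etaC`, the gain of the
tent kept -/
theorem one_oneEHT_KB {B0 : ℝ} (hB0 : 0 < B0) (K0 : ℝ) (k0 : ℕ) :
    ∃ C c : ℝ, 0 < C ∧ 0 < c ∧ ∀ e1 : ℝ, 0 < e1 → e1 ≤ 1 / 100 → ∃ m0 : ℕ, ∀ m : ℕ, m0 ≤ m →
      ∀ ep : ℝ, 0 < ep → ep ≤ 1 / 100 →
      ∀ B : OB, WKB B0 m (4 / 3 * (1 - ep)) B → B.Nn → ∀ J : ℝ, 0 ≤ J →
      ∀ (r : ℕ) (O : Fin r → Xo) (i : Fin r),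
        ob1c B (NUSea.O.par0 m).jL (ei (NUSea.O.par0 m) O i) (rr (NUSea.O.par0 m) O i) (O i) *
          Real.exp (PotH.oneEH m (etaC e1 J m m) (TW ep e1 m) O i + K0) *
            colK (((r : ℝ) + 1) ^ k0) (kd (O i)) ≤
          act C 1 c (1 / 10) (k0 + 6) (Real.log m) ep e1 J r (ht (O i)) *
            Real.exp (-PBP.gT e1 (Real.log m) (ht (O i))) := by
  have hK : 0 ≤ K1c := by
    unfold K1c
    have := l_pos
    positivity
  obtain ⟨C, c, hC', hc, H⟩ := kb_act (κ := 1 / 100) (by norm_num) K0 K1c B0 hK hB0 k0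
  refine ⟨C, c, hC', hc, fun e1 he he1 => ?_⟩
  obtain ⟨m1, hm1⟩ := PBP.exists_M0 he
  refine ⟨max m1 3, fun m hm ep hep hep1 B hW hN J hJ r O i => ?_⟩
  simp only [max_le_iff] at hm
  obtain ⟨g1, g3⟩ := hm
  have hL := log_ge_one g3
  obtain ⟨g0, g2⟩ := hm1 m g1
  obtain ⟨a1, a2⟩ := hC_gain he he1 hJ g0
  have hmp : (0 : ℝ) < m := by
    have : (3 : ℝ) ≤ m := by exact_mod_cast g3
    linarith
  obtain ⟨q0, q1⟩ := ei_bd (parOK_seaP m) O i
  have hA := Ag_mono (a := 1 / 4) (a' := ei (NUSea.O.par0 m) O i) (by norm_num) q0 (by linarith)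
    (ht (O i))
  have hs := NUSlk.slk_le (ht (O i))
  unfold PotH.oneEH
  rw [crH_etaC e1 J (by omega), slk0_eq]
  set gg := PBP.gT e1 (Real.log m) (ht (O i)) with hgg
  have hsea := gT_le_P hmp g2 (ht (O i))
  have hg0 := PBP.gT_nonneg e1 (Real.log m) (ht (O i))
  rw [← hgg] at hsea hg0
  have hpi := Real.pi_pos
  set hv := hC e1 J m (ht (O i)) with hhv
  have hb1 : gg / (2 * Real.pi) ≤ hv := a1 (ht (O i))
  obtain ⟨slk', hslk'⟩ : ∃ f : ℝ → ℝ, f = fun t => NUSlk.slk t + 1 / 100 * NUMF.P t := ⟨_, rfl⟩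
  have hP := parOK_seaP m
  have key := H m g3 (NUSea.O.par0 m) hP ep hep hep1 e1 J (TW ep e1 m)
    (TW_ge hep hep1 he.le (by linarith)) r O i
    (wZ B m (NUSea.O.par0 m).jL (ei (NUSea.O.par0 m) O i) (rr (NUSea.O.par0 m) O i) (O i))
    (NUMF.Ag (ei (NUSea.O.par0 m) O i) (ht (O i))) (hv - gg / (2 * Real.pi)) slk' (by linarith)
    (fun ht' => by linarith [a2 (ht (O i)) ht'])
    (by rw [hslk']; simp only; linarith)
    (hW _ q0 (ei_par0 m O i) _ _ _ hP.j1 hP.j2 (hP.r0 r _) (hP.r1 r _))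
  have hob : 0 ≤ ob1c B (NUSea.O.par0 m).jL (ei (NUSea.O.par0 m) O i)
      (rr (NUSea.O.par0 m) O i) (O i) :=
    ob1c_nonneg hN _ _ ((parOK_seaP m).r0 r _).le _
  have hcol : 0 ≤ colK (((r : ℝ) + 1) ^ k0) (kd (O i)) := by
    have : (0 : ℝ) ≤ ((r : ℝ) + 1) ^ k0 := by positivity
    cases kd (O i) <;> simp only [colK] <;> first | exact this | exact zero_le_one
  have hPh0 : 0 ≤ (m : ℝ) * NUMF.P (ht (O i)) := mul_nonneg hmp.le (NUMF.P_pos _).le
  have hgc : 2 * Real.pi * (gg / (2 * Real.pi)) = gg := by field_simp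
  set MF := m * NUSea.O.mfo (cons (NUSea.O.par0 m) O i) with hMF
  have hexp : MF + m * slkK NUSlk.slk (kd (O i)) (ht (O i)) -
      2 * Real.pi * NUO.wK (kd (O i)) * hv + exc (TW ep e1 m) (ht (O i)) + K0 ≤
      MF + (m * slkK slk' (kd (O i)) (ht (O i)) -
      2 * Real.pi * NUO.wK (kd (O i)) * (hv - gg / (2 * Real.pi)) + exc (TW ep e1 m) (ht (O i)) +
        K0) + -gg := by
    rcases hk : kd (O i) with _ | _ | _ | _ | _
    · simp only [slkK, NUO.wK]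
      linarith
    · simp only [slkK, NUO.wK]
      linarith
    · simp only [slkK, NUO.wK, hslk']
      linarith
    · simp only [slkK, NUO.wK, hslk']
      linarith
    · simp only [slkK, NUO.wK]
      linarith
  calc _ ≤ ob1c B (NUSea.O.par0 m).jL (ei (NUSea.O.par0 m) O i)
            (rr (NUSea.O.par0 m) O i) (O i) *
          Real.exp (MF + (m * slkK slk' (kd (O i)) (ht (O i)) -
            2 * Real.pi * NUO.wK (kd (O i)) * (hv - gg / (2 * Real.pi)) +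
              exc (TW ep e1 m) (ht (O i)) + K0) + -gg) * colK (((r : ℝ) + 1) ^ k0) (kd (O i)) := by
        gcongr
    _ = (wZ B m (NUSea.O.par0 m).jL (ei (NUSea.O.par0 m) O i) (rr (NUSea.O.par0 m) O i) (O i) *
          Real.exp (m * slkK slk' (kd (O i)) (ht (O i)) -
            2 * Real.pi * NUO.wK (kd (O i)) * (hv - gg / (2 * Real.pi)) +
              exc (TW ep e1 m) (ht (O i)) + K0) *
            colK (((r : ℝ) + 1) ^ k0) (kd (O i))) * Real.exp (-gg) := by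
        have e : wZ B m (NUSea.O.par0 m).jL (ei (NUSea.O.par0 m) O i)
            (rr (NUSea.O.par0 m) O i) (O i) = ob1c B (NUSea.O.par0 m).jL
            (ei (NUSea.O.par0 m) O i) (rr (NUSea.O.par0 m) O i) (O i) * Real.exp MF := rfl
        rw [Real.exp_add _ (-gg), Real.exp_add MF, e]
        ring
    _ ≤ _ := mul_le_mul_of_nonneg_right key (Real.exp_pos _).le

/-! ### the perturbed data -/

/-- the two row factors of `St` and its cloud -/
theorem row_T (n0 : ℕ) {h0 G : ℝ} (hG : 0 < G) {m : ℕ} {β e : ℝ} {B : OB} {K : ℕ}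
    {mu ex W1 W2 : List ℂ} {c0 : ℝ} {g : Bool → ℂ → ℝ}
    (hB : ObZ n0 h0 G m β e B K mu ex W1 W2 c0 g) (he : 0 ≤ e) (a : Bool) (t : ℝ) :
    B.R a (posT t) * B.R a (posT t - l) * Real.exp (m * (clo (3 / 2) t + clo (3 / 2 + 1) t)) ≤
      cQ n0 G ^ 2 * Real.exp (n0 * (6 * cG)) * Real.exp (K * NUMF.Ag (1 / 2) t) := by
  have hl := l_pos
  have hQ := cQ_pos (n0 := n0) hG
  set v := clo (3 / 2) t + clo (3 / 2 + 1) t with hvd
  have hvb : |v| ≤ 6 * cG := by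
    refine (abs_add_le _ _).trans ?_
    linarith [clo_bdd (3 / 2) t, clo_bdd (3 / 2 + 1) t]
  have r1 := zT_re t
  have r2 := zTl_re t
  obtain ⟨a0, a1⟩ := R_Z hB a (u := posT t) (by linarith) (by linarith)
    (by rw [r1, abs_neg, abs_of_pos (by positivity)]; linarith) (by nlinarith)
  obtain ⟨b0, b1⟩ := R_Z hB a (u := posT t - l) (by linarith) (by linarith)
    (by rw [r2, abs_neg, abs_of_pos (by positivity)]; linarith) (by nlinarith)
  have hsh := exp_shZ hB.rows.up hB.rows.dn hvb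
  have hrw := rw0_string (j := 3 / 2) (by norm_num) (by norm_num) (by norm_num) K t
  have h2 := NUMF.mf_string (j := 3 / 2) (by norm_num) (by norm_num) t
  rw [h2, show (2 : ℝ) - 3 / 2 = 1 / 2 by norm_num, ← posT_eq, ← hvd] at hrw
  set E1 : ℝ := Real.exp (n0 * (6 * cG)) with hE1
  have hE1p : 0 < E1 := Real.exp_pos _
  set u := posT t with hud
  rw [← hrw]
  calc B.R a u * B.R a (u - l) * Real.exp (m * v) ≤
      (cQ n0 G * rwC 0 u ^ K) * (cQ n0 G * rwC 0 (u - l) ^ K) * (Real.exp (K * v) * E1) := by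
        have q1 := a0.trans a1
        have q2 : 0 ≤ rwC 0 u ^ K := pow_nonneg (rwC_nonneg _ _) K
        have q3 : 0 ≤ rwC 0 (u - l) ^ K := pow_nonneg (rwC_nonneg _ _) K
        gcongr
    _ = _ := by rw [mul_pow]; ring

/-- constant of the additional weight of `St` -/
def cWT (n0 : ℕ) (G : ℝ) : ℝ := aS * (cQ n0 G ^ 2 * Real.exp (n0 * (6 * cG)))

theorem cWT_pos {n0 : ℕ} {G : ℝ} (hG : 0 < G) : 0 < cWT n0 G := by
  have h1 := NUO.aS_pos
  have h2 := cQ_pos (n0 := n0) hG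
  unfold cWT
  positivity

/-- the additional weight of `St` with its mean field -/
theorem wT_le (n0 : ℕ) {h0 G : ℝ} (hG : 0 < G) {m : ℕ} {β e : ℝ} {B : OB} {K : ℕ}
    {mu ex W1 W2 : List ℂ} {c0 : ℝ} {g : Bool → ℂ → ℝ}
    (hB : ObZ n0 h0 G m β e B K mu ex W1 W2 c0 g) (he : 0 ≤ e) {M : ℝ → ℝ} (hM0 : ∀ t, 0 ≤ M t)
    {CM : ℝ} (hM : ∀ t, Real.exp (K * NUMF.Ag (1 / 2) t) * M t ≤ CM * NUO.cut m β t)
    {jL ρ : ℝ} {x : Xo} (hx : kd x = .St) :
    wT B M x * Real.exp (m * mfo (NUO.parts jL e ρ x)) ≤ cWT n0 G * CM * (NUO.cut m β (ht x) * 1) := by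
  have haS := NUO.aS_pos
  have hQ := cQ_pos (n0 := n0) hG
  have hp : NUO.parts jL e ρ x = [(sp x, true, posT (ht x))] := by
    unfold NUO.parts
    rw [hx]
  have hv : mfo (NUO.parts jL e ρ x) = clo (3 / 2) (ht x) + clo (3 / 2 + 1) (ht x) := by
    rw [hp, posT_eq]
    exact (good_string (sp x) (3 / 2) (ht x)).val
  rw [hv]
  unfold wT
  rw [hx]
  simp only
  have hrow := row_T n0 hG hB he (sp x) (ht x)
  have h1 := hM (ht x)
  have h2 := hM0 (ht x)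
  calc aS * (B.R (sp x) (posT (ht x)) * B.R (sp x) (posT (ht x) - l)) * M (ht x) *
        Real.exp (m * (clo (3 / 2) (ht x) + clo (3 / 2 + 1) (ht x))) =
      aS * (B.R (sp x) (posT (ht x)) * B.R (sp x) (posT (ht x) - l) *
        Real.exp (m * (clo (3 / 2) (ht x) + clo (3 / 2 + 1) (ht x)))) * M (ht x) := by ring
    _ ≤ aS * (cQ n0 G ^ 2 * Real.exp (n0 * (6 * cG)) * Real.exp (K * NUMF.Ag (1 / 2) (ht x))) *
        M (ht x) := by gcongr
    _ = aS * (cQ n0 G ^ 2 * Real.exp (n0 * (6 * cG))) *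
        (Real.exp (K * NUMF.Ag (1 / 2) (ht x)) * M (ht x)) := by ring
    _ ≤ aS * (cQ n0 G ^ 2 * Real.exp (n0 * (6 * cG))) * (CM * NUO.cut m β (ht x)) := by gcongr
    _ = _ := by
      unfold cWT
      ring

/-- **the bounds by kinds of the perturbed data** -/
theorem wkb_obE (n0 : ℕ) {h0 G : ℝ} (hG : 0 < G) {m : ℕ} {β : ℝ} {B : OB} {K : ℕ}
    {mu ex W1 W2 : List ℂ} {c0 : ℝ} {g : Bool → ℂ → ℝ}
    (hZ : ObZ n0 h0 G m β eM B K mu ex W1 W2 c0 g) (hN : B.Nn) {B0 : ℝ} (hB0 : 0 ≤ B0)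
    (hW : WKB B0 m β B) {δ : ℝ} (hδ : 0 ≤ δ) (hδ1 : δ ≤ 1) {M : ℝ → ℝ} (hM0 : ∀ t, 0 ≤ M t)
    {CM : ℝ} (hCM : 0 ≤ CM) (hM : ∀ t, Real.exp (K * NUMF.Ag (1 / 2) t) * M t ≤ CM * NUO.cut m β t) :
    WKB (16 * (B0 + cWT n0 G * CM)) m β (obE B δ M) := by
  intro e e0 e1 jL ρ x j0 j1 r0 r1
  have h0 := hW e e0 e1 jL ρ x j0 j1 r0 r1
  have hc := cWT_pos (n0 := n0) hG
  unfold wZ at h0 ⊢
  exact KB_obE hN hδ hδ1 hM0 (by linarith) r0 x zero_le_one hB0 (mul_nonneg hc.le hCM)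
    (Real.exp_pos _).le h0 fun hx =>
      wT_le n0 hG (hZ.mono e1) (by linarith) hM0 hM hx

end PBC

end
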