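import Pool.Agent.PB.TopG

/-!
# Plan B: the functional from the bound of its gas, abstract one body functions and data

`m`: number of rows of the sea (`par0 m`, curve `etL e1 J m`, window `TW ep e1 m`). `OneB`: the one body
bounds of the data `B`, with the gain `gT`. **`topB`**: if the tilted gas of every configuration with the
insertion `φ` is at most `w Q exp (lin + ∑ oneEH + K r + enC + c1 win)` and
`Nf exp lin ≤ CV exp (-(1 - e1) Tb + y)`, then
`Nf ∑ n ≤ 2 m, FE Z (φ n) ≤ CV Bw Q m ^ (- 3/8 + δ) exp y (2 / (1 - exp (-d)))`.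
-/

set_option autoImplicit false
set_option linter.unusedSectionVars false

noncomputable section

open Complex MeasureTheory Finset
open scoped ENNReal

namespace PBT

open NUO NUP1 NUP1S NUP1S.Ab NUP1S.AbC NUGC PBF
open PBP (gT)
open PotH (crH oneEH)

attribute [local instance] NUSea.seaP

/-- the one body bounds of the data `B` (constants `C`, `c`, one body constant `K'`, gain `gT` kept) -/
def OneB (C c K' ep e1 J : ℝ) (m : ℕ) (B : OB) : Prop :=
  ∀ (r : ℕ) (O : Fin r → Xo) (i : Fin r),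
    ob1c B (pL m).jL (ei (pL m) O i) (rr (pL m) O i) (O i) *
      Real.exp (oneEH m (etL e1 J m) (TW ep e1 m) O i + K') *
        colK (((r : ℝ) + 1) ^ 12) (kd (O i)) ≤
      act C 1 c (1 / 10) 18 (Real.log m) ep e1 J r (ht (O i)) *
        Real.exp (-gT e1 (Real.log m) (ht (O i)))

/-- **the functional of abstract one body functions from the bound of the gas** -/
theorem topB (hS : NUStabP.StabProd) (K K2 : ℝ) : ∃ K' c1 : ℝ, 0 < c1 ∧
    ∀ C c c' : ℝ, 0 < C → 0 < c → 0 ≤ c' →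
    ∀ δ : ℝ, 0 < δ → ∃ a0 : ℝ, 0 < a0 ∧ ∀ ep : ℝ, 0 < ep → ep ≤ 1 / 100 → ∀ e1 : ℝ, 0 < e1 →
    e1 ≤ 1 / 100 → ∀ J : ℝ, 0 ≤ J → Real.exp (-(2 * Real.pi * J)) + 3 * e1 + 3 * ep ≤ a0 →
    ∃ m0 : ℕ, ∀ m : ℕ, m0 ≤ m →
      ∀ (Z : Bool → Option O3 → ℂ → ℂ) (B : OB) (κ x0 : ℝ) (Qc : ℤ) (E : Set ℝ),
      OneC Z B (pL m) ep κ x0 Qc E → B.Nn → OneB C c K' ep e1 J m B →
      ∀ Nf lin y CV : ℝ, 0 ≤ Nf → 0 ≤ CV →
      Nf * Real.exp lin ≤ CV * Real.exp (-((1 - e1) * Tb (Real.log m)) + y) →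
      ∀ (φ : ℕ → InsE) (w : ℕ → (r : ℕ) → (Fin r → Xo) → ℝ) (Q Bw d : ℝ), 0 ≤ Q → 0 ≤ Bw →
      0 < d →
      (∀ n ≤ 2 * m, ∀ r ≤ 2 * n, ∀ O : Fin r → Xo, 0 ≤ w n r O ∧
        w n r O ≤ (if (r : ℝ) ≤ Real.log m then Bw else
          Bw * Real.exp (c' * Real.log m)) * Real.exp (K2 * r) *
            Real.exp (∑ i, gT e1 (Real.log m) (ht (O i)))) →
      (∀ b' : ℝ, |b'| = d → ∀ n ≤ 2 * m, ∀ r ≤ 2 * n, ∀ O : Fin r → Xo,
        chgO O true ≤ n → chgO O false ≤ n →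
        ENNReal.ofReal (Real.exp (b' * ((m : ℝ) - n))) *
          PotH.gasI B (pL m) (etL e1 J m) (etL' e1 J m) O (n - chgO O true) (n - chgO O false)
            (φ n r O (n - chgO O true) (n - chgO O false)) ≤
        ENNReal.ofReal (w n r O * (Q * Real.exp (lin +
          (∑ i, oneEH m (etL e1 J m) (TW ep e1 m) O i + K * r +
            NUStabP.enC O + c1 * NUDispW.win univ fun i => ht (O i)))))) →
      ENNReal.ofReal Nf *
        ∑ n ∈ range (2 * m + 1), FE Z (pL m) n n (crL e1 J m) (crL' e1 J m) (φ n) ≤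
        ENNReal.ofReal (CV * Bw * Q * (m : ℝ) ^ (-(3 / 8 : ℝ) + δ) * Real.exp y *
          (2 / (1 - Real.exp (-d)))) := by
  obtain ⟨K', c1, hc1, HF⟩ := FE_sum hS K K2
  refine ⟨K', c1, hc1, fun Ca c c' hCa hc hc' δ hδ => ?_⟩
  obtain ⟨a0, ha0, HF⟩ := HF Ca c (1 / 10) c' 18 hCa hc (by norm_num) hc' (δ / 2) (by linarith)
  obtain ⟨L0, HF⟩ := HF 1 zero_le_one
  refine ⟨min a0 δ, lt_min ha0 hδ, fun ep hep hep1 e1 he he1 J hJ hsm => ?_⟩
  obtain ⟨mc, -, Hcur⟩ := curZ_crs he he1 hJ hep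
  have t1 := Real.tendsto_log_atTop.comp tendsto_natCast_atTop_atTop
  obtain ⟨ml, hml⟩ := Filter.eventually_atTop.1 (t1.eventually_ge_atTop L0)
  refine ⟨max mc (max ml 5), fun m hm Z B κ x0 Qc E hone hB hact Nf lin y CV hNf hCV hv φ w Q Bw d
    hQ hBw hd hw hgas => ?_⟩
  have k4 : mc ≤ m := (le_max_left _ _).trans hm
  have k5 : ml ≤ m := (le_max_left _ _).trans ((le_max_right _ _).trans hm)
  have k6 : 5 ≤ m := (le_max_right _ _).trans ((le_max_right _ _).trans hm)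
  have hm5 : (5 : ℝ) ≤ (m : ℝ) := by exact_mod_cast k6
  have hmp : (0 : ℝ) < (m : ℝ) := by linarith
  have hL0 : L0 ≤ Real.log m := hml m k5
  have hsm' : Real.exp (-(2 * Real.pi * J)) + 3 * e1 + 3 * ep ≤ a0 := hsm.trans (min_le_left _ _)
  have hsd : 3 * e1 ≤ δ := by
    have h1 := hsm.trans (min_le_right _ _)
    have h2 := Real.exp_pos (-(2 * Real.pi * J))
    linarith
  have hexp : ((4 * m + 1 : ℕ) : ℝ) ≤ Real.exp (2 * Real.log m) := by
    have e1 : Real.exp (2 * Real.log m) = (m : ℝ) * m := by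
      rw [two_mul, Real.exp_add, Real.exp_log hmp]
    have e2 : ((4 * m + 1 : ℕ) : ℝ) = 4 * (m : ℝ) + 1 := by push_cast; ring
    rw [e1, e2]
    nlinarith
  have key := HF (Real.log m) hL0 ep hep.le (by linarith) e1 he (by linarith) J hJ hsm'
    Z (pL m) m (crL e1 J m) (crL' e1 J m) B ep κ x0 Qc E hone
    (parZ_goodP m) hB (parZ_fields m).1 (parZ_fields m).2.1 (parZ_fields m).2.2
    (fun r _ => parZ_small m r) (fun r O => Hcur m k4 r O) hep1 hexp φ (gT e1 (Real.log m))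
    (fun r O i => oneEH m (etL e1 J m) (TW ep e1 m) O i) w
    (Q * Real.exp lin) Bw d (m : ℝ) (by positivity) hBw hd hw (fun r _ O i => hact r O i) ?_
  · obtain ⟨D, hD⟩ : ∃ D, D = 2 / (1 - Real.exp (-d)) := ⟨_, rfl⟩
    have hD0 : 0 ≤ D := by
      rw [hD]
      have : Real.exp (-d) < 1 := by
        rw [← Real.exp_zero]; exact Real.exp_lt_exp.2 (by linarith)
      exact div_nonneg (by norm_num) (by linarith)
    rw [sub_self, abs_zero, mul_zero, Real.exp_zero, one_mul, ← hD] at key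
    rw [← hD]
    refine (mul_le_mul' le_rfl key).trans ?_
    rw [← ENNReal.ofReal_mul hNf]
    refine ENNReal.ofReal_le_ofReal ?_
    have hTb : Tb (Real.log m) = 3 / 8 * Real.log m := rfl
    have hLm : 0 ≤ Real.log m := Real.log_nonneg (by linarith)
    have hpow : Real.exp (-((1 - e1) * Tb (Real.log m)) + y) *
        Real.exp (δ / 2 * Real.log m) ≤
        (m : ℝ) ^ (-(3 / 8 : ℝ) + δ) * Real.exp y := by
      rw [Real.rpow_def_of_pos hmp, ← Real.exp_add, ← Real.exp_add]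
      refine Real.exp_le_exp.2 ?_
      rw [hTb]
      nlinarith
    calc Nf * (Bw * (Q * Real.exp lin) * Real.exp (δ / 2 * Real.log m) * D)
        = (Nf * Real.exp lin) * (Real.exp (δ / 2 * Real.log m) * (Bw * Q * D)) := by
          ring
      _ ≤ (CV * Real.exp (-((1 - e1) * Tb (Real.log m)) + y)) *
          (Real.exp (δ / 2 * Real.log m) * (Bw * Q * D)) :=
          mul_le_mul_of_nonneg_right hv (by positivity)
      _ = CV * (Bw * Q * D) * (Real.exp (-((1 - e1) * Tb (Real.log m)) + y) *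
          Real.exp (δ / 2 * Real.log m)) := by ring
      _ ≤ CV * (Bw * Q * D) * ((m : ℝ) ^ (-(3 / 8 : ℝ) + δ) * Real.exp y) :=
          mul_le_mul_of_nonneg_left hpow (by positivity)
      _ = _ := by ring
  · intro b' hb' n hn r hr O h1 h2
    refine (hgas b' hb' n hn r hr O h1 h2).trans (le_of_eq ?_)
    congr 2
    rw [mul_assoc Q, ← Real.exp_add]

end PBT

end
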