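import Pool.Agent.PB.ZcB2
import Pool.Agent.PB.OneKB
import Pool.Agent.PB.FarT
import Pool.Agent.PB.TopB

/-!
# Plan B: the cut term at the rows `η I :: 0 ^ k`, final form (helper17)

* `flX_xiR`: the field of the moved row is an `FlX`;
* **`cutH_R0`**: the moved cutoffs: `c = C / k ^ 3`, `St`: `K k ^ (- 9 b / 4) e^{-MF} min 1 ..`;
* **`cut_data`**: for all `‖ε‖ ≤ (k + 1) ^ 2` the functions `Z + ε Zc` are bounded by one body data
  `obE (obL ..) (D / (k + 1)) M` with the one body bounds `OneB` (constants before `ep`).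
-/

set_option autoImplicit false
set_option linter.unusedVariables false
set_option linter.unusedSectionVars false

noncomputable section

open Complex Set

namespace PBC

open NUP1 NUP1S NUP1S.AbC NURow NUO NUGC PBX PBFar
open PBForce (xiR)

/-! ## the field -/

theorem meas_xiR {m : ℕ} (x : Fin m → ℂ) (i0 : Fin m) : Measurable (xiR x i0) := by
  unfold PBForce.xiR PBForce.rhoR PBForce.pc
  fun_prop

theorem flX_xiR : ∃ C0 : ℝ, 1 ≤ C0 ∧ ∀ k : ℕ, 1 ≤ k → ∀ η : ℝ, |η| ≤ 1 →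
    FlX k C0 (xiR (rwx k η) 0) (xe k η) := by
  have hl := Bd.l_pos
  obtain ⟨C0, h1, H⟩ := fl_xiR (b := 11 / 20 * l) (by positivity) (by linarith)
  refine ⟨C0, h1, fun k hk η hη => ⟨meas_xiR _ _, fun r r0 r1 => H k hk η hη r ?_,
    fun u u0 u1 => PBForce.xiR_diff0 (rws_rwx k hη) 0 ?_⟩⟩
  · rw [abs_le]
    constructor <;> linarith
  · have e : (u - l).re = u.re - l := by simp
    rw [e, abs_lt]
    constructor <;> linarith

/-! ## the moved cutoffs -/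

theorem hyp_ep {ep : ℝ} (h0 : 0 < ep) (h1 : ep ≤ 1 / 100) :
    Hyp (4 / 3 * (1 - ep)) ((3 / 2 + ep / 4) * l) where
  b1 := by linarith
  b2 := by linarith
  s0 := by
    have hl := Bd.l_pos
    positivity
  s1 := by
    have hpi := Real.pi_pos
    have e : (2 : ℝ) * (4 / 3 * (1 - ep)) * ((3 / 2 + ep / 4) * l) =
        Real.pi / 2 * ((1 - ep) * (1 + ep / 6)) := by
      unfold NUP1.l
      ring
    rw [e]
    have h2 : (1 - ep) * (1 + ep / 6) < 1 := by nlinarith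
    nlinarith

/-- the bound of the moved cut of `St` -/
def MT (K b : ℝ) (k : ℕ) (η t : ℝ) : ℝ :=
  K * (k : ℝ) ^ (-(9 / 4 * b)) * eMF k η t * min 1 (k * Real.exp (-(8 / 3) * |t|))

theorem MT_nonneg {K : ℝ} (hK : 0 ≤ K) (b : ℝ) (k : ℕ) (η t : ℝ) : 0 ≤ MT K b k η t := by
  unfold MT
  have h1 := (eMF_pos k η t).le
  have h2 : 0 ≤ min 1 ((k : ℝ) * Real.exp (-(8 / 3) * |t|)) := le_min zero_le_one (by positivity)
  have h3 : 0 ≤ (k : ℝ) ^ (-(9 / 4 * b)) := Real.rpow_nonneg (Nat.cast_nonneg k) _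
  positivity

/-- **the moved cutoffs** -/
theorem cutH_R0 {ep : ℝ} (h0 : 0 < ep) (h1 : ep ≤ 1 / 100) {C0 : ℝ} (hC0 : 1 ≤ C0) :
    ∃ (Cc K : ℝ) (N0 : ℕ), 0 < Cc ∧ 0 < K ∧ ∀ k : ℕ, N0 ≤ k → ∀ η : ℝ, |η| ≤ 1 → ∀ X : ℂ → ℂ,
      FlX k C0 X (xe k η) →
      CutH (4 / 3 * (1 - ep)) k ((η : ℂ) * I) I (xe k η) X (Cc / (k : ℝ) ^ 3)
        (MT K (4 / 3 * (1 - ep)) k η) (ep / 4) := by
  have hl := Bd.l_pos
  have hH := hyp_ep h0 h1
  have hH' := hyp_43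
  obtain ⟨κ, hκ, hκ1, hG⟩ := PB.K11.exists_good h0 (by linarith)
  obtain ⟨K, N1, hK, hT⟩ := far_T_all (b := 4 / 3 * (1 - ep)) (by linarith) (by linarith)
    (hG _ (by linarith) le_rfl) hκ hκ1 hC0
  set b := 4 / 3 * (1 - ep) with hb
  set s := (3 / 2 + ep / 4) * l with hs
  set Cc := max 1 (max (CW b s C0) (CF (4 / 3) l C0 1)) with hCc
  obtain ⟨N2, hN2⟩ := exists_nat_ge (n0 b s 3)
  obtain ⟨N3, hN3⟩ := exists_nat_ge (n0 (4 / 3) l 1)
  refine ⟨Cc, K, max (max N1 1) (max N2 N3), lt_of_lt_of_le one_pos (le_max_left _ _), hK,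
    fun k hk η hη X hF => ?_⟩
  simp only [max_le_iff] at hk
  obtain ⟨⟨k1, k2⟩, k3, k4⟩ := hk
  have kn1 : n0 b s 3 ≤ k := hN2.trans (by exact_mod_cast k3)
  have kn2 : n0 (4 / 3) l 1 ≤ k := hN3.trans (by exact_mod_cast k4)
  have hkp : (0 : ℝ) < (k : ℝ) ^ 3 := by
    have : (0 : ℝ) < k := by exact_mod_cast k2
    positivity
  have c1 : CW b s C0 / (k : ℝ) ^ 3 ≤ Cc / (k : ℝ) ^ 3 :=
    div_le_div_of_nonneg_right ((le_max_left _ _).trans (le_max_right _ _)) hkp.le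
  have c2 : CF (4 / 3) l C0 1 / (k : ℝ) ^ 3 ≤ Cc / (k : ℝ) ^ 3 :=
    div_le_div_of_nonneg_right ((le_max_right _ _).trans (le_max_right _ _)) hkp.le
  have hv : ‖I‖ ≤ C0 := by rw [Complex.norm_I]; exact hC0
  have hvl : ∀ u : ℂ, vl u.re u.im = u := fun u => by
    unfold vl
    exact re_add_im u
  have hW : ∀ (u h : ℂ), |u.re + l / 2| ≤ s → h.im = u.im → 1 / 2 * l ≤ h.re → h.re ≤ 31 / 20 * l →
      ‖DW b k ((η : ℂ) * I) I (xe k η) (X h) u‖ ≤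
        Cc / (k : ℝ) ^ 3 * ‖NUP1.phi b (W0 k ((η : ℂ) * I) PBFar.wE) u‖ := by
    intro u h hu him r0 r1
    have key := far_W hH kn1 (re_row η) (im_row hη) hv (hF.fl h.re r0 r1) (u := u) hu
    beta_reduce at key
    rw [← him, hvl] at key
    exact key.trans (mul_le_mul_of_nonneg_right c1 (norm_nonneg _))
  have hR : ∀ (u h : ℂ), |u.re + l / 2| ≤ l → h.im = u.im → 1 / 2 * l ≤ h.re → h.re ≤ 31 / 20 * l →
      ‖DR (4 / 3) k ((η : ℂ) * I) I (X h) u‖ ≤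
        Cc / (k : ℝ) ^ 3 * ‖NUP1.phi (4 / 3) (((η : ℂ) * I) :: List.replicate k 0) u‖ := by
    intro u h hu him r0 r1
    have key := far_R0 hH' kn2 hη hC0 (hF.fl h.re r0 r1) (u := u) hu
    beta_reduce at key
    rw [← him, hvl] at key
    exact key.trans (mul_le_mul_of_nonneg_right c2 (norm_nonneg _))
  have him2 : ∀ u : ℂ, (u + 2 * l).im = u.im := fun u => by simp
  have hre2 : ∀ u : ℂ, (u + 2 * l).re = u.re + 2 * l := fun u => by simp
  refine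
    { c0 := by positivity
      M0 := fun t => MT_nonneg hK.le _ _ _ _
      A := fun u u0 u1 => hW u u (by rw [abs_of_pos (by linarith), hs]; nlinarith) rfl u0
        (u1.trans (by nlinarith))
      L := fun u u0 u1 => hW u (u + 2 * l) (by rw [abs_le, hs]; constructor <;> nlinarith) (him2 u)
        (by rw [hre2]; linarith) (by rw [hre2]; linarith)
      S := fun u u0 u1 => hR u (u + 2 * l) (by rw [abs_le]; constructor <;> linarith) (him2 u)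
        (by rw [hre2]; linarith) (by rw [hre2]; linarith)
      T := fun t => ?_ }
  have r1 : (posT t).re = -(1 / 2 * l) := posT_re t
  have hr : 1 / 2 * l ≤ (posT t + 2 * l).re ∧ (posT t + 2 * l).re ≤ 31 / 20 * l := by
    rw [hre2, r1]
    constructor <;> linarith
  have e : X (posT t + 2 * l) = (fun t => X (vl (posT t + 2 * l).re t)) t := by
    show X (posT t + 2 * l) = X (vl (posT t + 2 * l).re t)
    have him : (posT t + 2 * l).im = t := by rw [him2, posT_im]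
    congr 1
    have h := hvl (posT t + 2 * l)
    rw [him] at h
    exact h.symm
  rw [e]
  exact hT k k1 η hη _ (hF.fl _ hr.1 hr.2) t

/-! ## the final form -/

theorem Ag_half_nn (t : ℝ) : 0 ≤ NUMF.Ag (1 / 2) t := by
  have hl := Bd.l_pos
  have h1 : ‖psi (4 / 3) (posT t - l)‖ ≤ 1 := NUGC.psi_le_one' (by norm_num) le_rfl (by
    rw [PBO.zTl_re, abs_le]
    constructor <;> linarith)
  rw [NUO.norm_psi_T_sub, Real.exp_le_one_iff] at h1
  linarith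

theorem eMF_le_one (k : ℕ) (η t : ℝ) : eMF k η t ≤ 1 := by
  unfold eMF
  have h1 := Ag_half_nn (t - η)
  have h2 := Ag_half_nn t
  have h3 : (0 : ℝ) ≤ k * NUMF.Ag (1 / 2) t := mul_nonneg (Nat.cast_nonneg k) h2
  have a1 : Real.exp (-NUMF.Ag (1 / 2) (t - η)) ≤ 1 := Real.exp_le_one_iff.2 (by linarith)
  have a2 : Real.exp (-(k * NUMF.Ag (1 / 2) t)) ≤ 1 := Real.exp_le_one_iff.2 (by linarith)
  exact mul_le_one₀ a1 (Real.exp_pos _).le a2

/-- the moved cut of `St` decays -/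
theorem MT_dec {K : ℝ} (hK : 0 ≤ K) {b : ℝ} (hb : b ≤ 4 / 3) (k : ℕ) (η t : ℝ) :
    MT K b k η t ≤ K * (k : ℝ) ^ (-(9 / 4 * b)) * k * Real.exp (-(2 * b * |t|)) := by
  have h3 : 0 ≤ (k : ℝ) ^ (-(9 / 4 * b)) := Real.rpow_nonneg (Nat.cast_nonneg k) _
  have h4 : Real.exp (-(8 / 3) * |t|) ≤ Real.exp (-(2 * b * |t|)) := Real.exp_le_exp.2 (by
    have := abs_nonneg t
    nlinarith)
  unfold MT
  calc _ ≤ K * (k : ℝ) ^ (-(9 / 4 * b)) * 1 * (k * Real.exp (-(2 * b * |t|))) := by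
        have h5 := eMF_le_one k η t
        have h6 : min 1 ((k : ℝ) * Real.exp (-(8 / 3) * |t|)) ≤ k * Real.exp (-(2 * b * |t|)) :=
          (min_le_right _ _).trans (mul_le_mul_of_nonneg_left h4 (Nat.cast_nonneg k))
        have h7 : 0 ≤ min 1 ((k : ℝ) * Real.exp (-(8 / 3) * |t|)) := le_min zero_le_one (by positivity)
        exact mul_le_mul (mul_le_mul_of_nonneg_left h5 (by positivity)) h6 h7 (by positivity)
    _ = _ := by ring

/-- the moved cut of `St` against the mean field -/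
theorem MT_mf {K : ℝ} (hK : 0 ≤ K) {b : ℝ} (hb : b ≤ 4 / 3) (k : ℕ) (η t : ℝ) :
    Real.exp (k * NUMF.Ag (1 / 2) t) * MT K b k η t ≤
      K * (k : ℝ) ^ (-(9 / 4 * b)) * NUO.cut (k + 1) b t := by
  have h3 : 0 ≤ (k : ℝ) ^ (-(9 / 4 * b)) := Real.rpow_nonneg (Nat.cast_nonneg k) _
  have h1 : Real.exp (-NUMF.Ag (1 / 2) (t - η)) ≤ 1 :=
    Real.exp_le_one_iff.2 (by linarith [Ag_half_nn (t - η)])
  have h2 : Real.exp (k * NUMF.Ag (1 / 2) t) * Real.exp (-(k * NUMF.Ag (1 / 2) t)) = 1 := by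
    rw [← Real.exp_add, add_neg_cancel, Real.exp_zero]
  have h4 : Real.exp (-(8 / 3) * |t|) ≤ Real.exp (-(2 * b) * |t|) := Real.exp_le_exp.2 (by
    have := abs_nonneg t
    nlinarith)
  have h6 : min 1 ((k : ℝ) * Real.exp (-(8 / 3) * |t|)) ≤ NUO.cut (k + 1) b t := by
    unfold NUO.cut
    refine min_le_min le_rfl ?_
    push_cast
    exact mul_le_mul (by linarith) h4 (Real.exp_pos _).le (by positivity)
  have h7 : 0 ≤ min 1 ((k : ℝ) * Real.exp (-(8 / 3) * |t|)) := le_min zero_le_one (by positivity)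
  unfold MT eMF
  calc _ = K * (k : ℝ) ^ (-(9 / 4 * b)) * (Real.exp (k * NUMF.Ag (1 / 2) t) *
        Real.exp (-(k * NUMF.Ag (1 / 2) t))) * (Real.exp (-NUMF.Ag (1 / 2) (t - η)) *
          min 1 ((k : ℝ) * Real.exp (-(8 / 3) * |t|))) := by ring
    _ ≤ K * (k : ℝ) ^ (-(9 / 4 * b)) * 1 * (1 * NUO.cut (k + 1) b t) := by
        rw [h2]
        have := mul_le_mul h1 h6 h7 zero_le_one
        exact mul_le_mul_of_nonneg_left this (by positivity)
    _ = _ := by ring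

open PBT

attribute [local instance] NUSea.seaP

/-- the cut term with legs at `z` -/
def ZcL (c : Bool → ℂ) (k : ℕ) (b : ℝ) (η : ℝ) (z : ℂ) (X : ℂ → ℂ) : Bool → Option O3 → ℂ → ℂ :=
  fun a => ZcX (c a) (rwx k η) b k ((η : ℂ) * I) I (xe k η) X (Lg z z)
    (fun w => Lg z z w * Lg z z (w - l))

theorem small_k {K : ℝ} (hK : 0 < K) {p : ℝ} (hp : p ≤ -(5 / 2)) : ∃ N : ℕ, 1 ≤ N ∧
    ∀ k : ℕ, N ≤ k → ((k : ℝ) + 1) ^ 2 * (K * (k : ℝ) ^ p) ≤ 1 := by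
  obtain ⟨N, hN⟩ := exists_nat_ge ((4 * K) ^ 2)
  refine ⟨max N 1, le_max_right _ _, fun k hk => ?_⟩
  have k1 : (1 : ℝ) ≤ k := by exact_mod_cast (le_max_right _ _).trans hk
  have k2 : (4 * K) ^ 2 ≤ k := hN.trans (by exact_mod_cast (le_max_left _ _).trans hk)
  have k0 : (0 : ℝ) < k := by linarith
  have a1 : ((k : ℝ) + 1) ^ 2 ≤ 4 * (k : ℝ) ^ 2 := by nlinarith
  have a2 : (k : ℝ) ^ p ≤ (k : ℝ) ^ (-(5 / 2) : ℝ) := Real.rpow_le_rpow_of_exponent_le k1 hp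
  have a3 : (k : ℝ) ^ 2 * (k : ℝ) ^ (-(5 / 2) : ℝ) = (k : ℝ) ^ (-(1 / 2) : ℝ) := by
    rw [← Real.rpow_natCast, ← Real.rpow_add k0]
    norm_num
  have a4 : (k : ℝ) ^ (-(1 / 2) : ℝ) = (Real.sqrt k)⁻¹ := by
    rw [Real.rpow_neg k0.le, Real.sqrt_eq_rpow]
  have a5 : 4 * K ≤ Real.sqrt k := Real.le_sqrt_of_sq_le k2
  have a6 : 0 < Real.sqrt k := Real.sqrt_pos.2 k0
  calc ((k : ℝ) + 1) ^ 2 * (K * (k : ℝ) ^ p) ≤ (4 * (k : ℝ) ^ 2) * (K * (k : ℝ) ^ (-(5 / 2) : ℝ)) := by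
        gcongr
    _ = 4 * K * ((k : ℝ) ^ 2 * (k : ℝ) ^ (-(5 / 2) : ℝ)) := by ring
    _ = 4 * K * (Real.sqrt k)⁻¹ := by rw [a3, a4]
    _ ≤ 1 := by
        rw [← div_eq_mul_inv, div_le_one a6]
        exact a5

/-- **all data of the cut term**: `Zc` relative to `Z`, and the one body bounds of the perturbed data -/
theorem cut_data (K' : ℝ) : ∃ C c : ℝ, 0 < C ∧ 0 < c ∧ ∀ C0 : ℝ, 1 ≤ C0 → ∀ ep : ℝ, 0 < ep →
    ep ≤ 1 / 100 → ∃ Cc K : ℝ, 0 < Cc ∧ 0 < K ∧ ∀ e1 : ℝ, 0 < e1 → e1 ≤ 1 / 100 →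
    ∃ k0 : ℕ, 1 ≤ k0 ∧ ∀ k : ℕ, k0 ≤ k → ∀ η : ℝ, |η| ≤ 1 → ∀ X : ℂ → ℂ, FlX k C0 X (xe k η) →
    ∀ z : ℂ, -(9 / 10 * l) ≤ z.re → z.re < 37 / 10 * l →
    (∀ cc : Bool → ℂ, (∀ a, ‖cc a‖ = 2 * Real.cos l) →
      CutZ (ZL cc k (4 / 3 * (1 - ep)) ((η : ℂ) * I) z) (ZcL cc k (4 / 3 * (1 - ep)) η z X)
        (obL k (4 / 3 * (1 - ep)) ((η : ℂ) * I) z) (pL (k + 1)) ep (2 * (4 / 3 * (1 - ep)))
        (3 / 5 * l) 0 (Set.range fun i => (PBL.mu1 k ((η : ℂ) * I) i).im) (Cc / (k : ℝ) ^ 3)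
        (MT K (4 / 3 * (1 - ep)) k η) ∧
      ∃ D, PBI.ZcOk (ZL cc k (4 / 3 * (1 - ep)) ((η : ℂ) * I) z)
        (ZcL cc k (4 / 3 * (1 - ep)) η z X) (pL (k + 1)) (3 / 5 * l) (2 * (4 / 3 * (1 - ep)))
        (ep / 4) (Cc / (k : ℝ) ^ 3) D) ∧
    ∀ E : ℝ, 0 ≤ E → E ≤ ((k : ℝ) + 1) ^ 2 → ∀ J : ℝ, 0 ≤ J →
      OneB C c K' ep e1 J (k + 1) (obE (obL k (4 / 3 * (1 - ep)) ((η : ℂ) * I) z)
        (E * (Cc / (k : ℝ) ^ 3)) fun t => E * MT K (4 / 3 * (1 - ep)) k η t) := by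
  have hl := Bd.l_pos
  obtain ⟨B0, hB0, HW⟩ := wkb_ObZ 2 (h0 := 2) (by norm_num) PBO.cZ_pos
  have hcw := cWT_pos (n0 := 2) PBO.cZ_pos
  obtain ⟨C, c, hC, hc, H⟩ := one_oneEHT_KB (B0 := 16 * (B0 + cWT 2 PBO.cZ * 1)) (by positivity)
    K' 12
  refine ⟨C, c, hC, hc, fun C0 hC0 ep hep hep1 => ?_⟩
  obtain ⟨Cc, K, N0, hCc, hK, HC⟩ := cutH_R0 hep hep1 hC0
  refine ⟨Cc, K, hCc, hK, fun e1 he he1 => ?_⟩
  obtain ⟨m0, H0⟩ := H e1 he he1
  set b := 4 / 3 * (1 - ep) with hb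
  have hb0 : 0 < b := by rw [hb]; linarith
  have hb1 : b ≤ 4 / 3 := by rw [hb]; linarith
  obtain ⟨N1, hN1, h1⟩ := small_k hCc (p := -3) (by norm_num)
  obtain ⟨N2, hN2, h2⟩ := small_k hK (p := -(9 / 4 * b)) (by rw [hb]; linarith)
  refine ⟨max (max N0 N1) (max N2 m0), hN1.trans ((le_max_right _ _).trans (le_max_left _ _)),
    fun k hk η hη X hF z z1 z2 => ?_⟩
  simp only [max_le_iff] at hk
  obtain ⟨⟨k1, k2⟩, k3, k4⟩ := hk
  have hCH := HC k k1 η hη X hF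
  have hre : |((η : ℂ) * I).re| ≤ l / 5 := by
    simp
    positivity
  have him : |((η : ℂ) * I).im| ≤ 2 := im_row hη
  have hre2 : |((η : ℂ) * I).re| ≤ l / 2 := re_row η
  have hrows : Rws (rwx k η) := rws_mu1 k hre2
  have hPC : ParC (pL (k + 1)) := PBF.parZ_parC (k + 1)
  have hj : (pL (k + 1)).jL ≤ 5 / 2 := (PBO.parOK_seaP (k + 1)).j2
  have z3 : z.re ≤ 187 / 50 * l := by linarith
  have hkp : (0 : ℝ) < k := by
    have : 1 ≤ k := hN1.trans k2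
    exact_mod_cast this
  refine ⟨fun cc hcc => ⟨?_, ?_⟩, fun E hE hE1 J hJ => ?_⟩
  · have key := cutZ_X (c := cc) (s1 := fun _ => Lg z z) (s2 := fun _ w => Lg z z w * Lg z z (w - l))
      (E := ∅) (q := 0) (x0 := 3 / 5 * l) le_rfl (by linarith) hPC hj hep hep1 hb0 hb1
      (hyp_ep hep hep1) le_rfl hrows hre2 (ofFn_rwx k η) hcc hF (fun _ => Lg_meas z z)
      (fun _ => (Lg_meas z z).mul ((Lg_meas z z).comp (measurable_id.sub_const _)))
      (fun a => by simpa using Lg_SpecAt (le_refl (3 / 5 * l)) a z1 z2) (fun _ => Lg_SpecS z)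
      (by simp) hCH
    rw [Set.empty_union] at key
    simp only [norm_Lg] at key
    exact key
  · have hS2 : ∀ (a : Bool) (t : ℝ), ‖Lg z z (posT t) * Lg z z (posT t - l)‖ ≤
        PBO.cZ * PBO.cZ := by
      intro a t
      rw [norm_mul, norm_Lg, norm_Lg]
      have r1 := PBO.zT_re t
      have r2 := PBO.zTl_re t
      have he : PBO.eM = 1251 / 5000 := rfl
      obtain ⟨p0, p1⟩ := PBO.legZ z1 z3 a (posT t) (by rw [r1, he]; linarith) (by rw [r1]; linarith)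
      obtain ⟨q0, q1⟩ := PBO.legZ z1 z3 a (posT t - l) (by rw [r2, he]; linarith)
        (by rw [r2]; linarith)
      exact mul_le_mul p1 q1 q0 (p0.trans p1)
    exact zcOk_X (c := cc) (s1 := fun _ => Lg z z) (s2 := fun _ w => Lg z z w * Lg z z (w - l))
      (h0 := 2) hPC hj (by linarith) (hyp_ep hep hep1) le_rfl hrows (fun i => by
        refine Fin.cases ?_ (fun j => ?_) i
        · exact ⟨hre, him⟩
        · refine ⟨?_, ?_⟩
          · rw [rwx_succ]; simp; positivity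
          · rw [rwx_succ]; simp) hre2 (ofFn_rwx k η) hF (fun _ => Lg_meas z z)
      (fun _ => (Lg_meas z z).mul ((Lg_meas z z).comp (measurable_id.sub_const _)))
      (fun a u u1 u2 => (Lg_SpecAt (le_refl (3 / 5 * l)) a z1 z2).df u ⟨u1, u2.trans (by nlinarith)⟩)
      hS2 (fun t => MT_dec hK.le hb1 k η t) hCH
  · have hZ := obZ_L (ep := ep) k hre him z1 z3
    have hN := obL_nn k b ((η : ℂ) * I) z
    have hWB := HW (k + 1) b (obL k b ((η : ℂ) * I) z) k _ _ _ _ _ _ (by omega) hb0 hb1 hZ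
    have hδ : E * (Cc / (k : ℝ) ^ 3) ≤ 1 := by
      have h3 := h1 k k2
      have e : (k : ℝ) ^ (-3 : ℝ) = ((k : ℝ) ^ 3)⁻¹ := by
        rw [Real.rpow_neg hkp.le]
        norm_num
      rw [e, ← div_eq_mul_inv] at h3
      exact (mul_le_mul_of_nonneg_right hE1 (by positivity)).trans h3
    have hM : ∀ t, Real.exp (k * NUMF.Ag (1 / 2) t) * (E * MT K b k η t) ≤
        1 * NUO.cut (k + 1) b t := by
      intro t
      have h3 := h2 k k3
      have h4 := MT_mf hK.le hb1 k η t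
      have hc0 := NUO.cut_nonneg (k + 1) b t
      calc _ = E * (Real.exp (k * NUMF.Ag (1 / 2) t) * MT K b k η t) := by ring
        _ ≤ ((k : ℝ) + 1) ^ 2 * (K * (k : ℝ) ^ (-(9 / 4 * b)) * NUO.cut (k + 1) b t) :=
            mul_le_mul hE1 h4 (mul_nonneg (Real.exp_pos _).le (MT_nonneg hK.le _ _ _ _))
              (by positivity)
        _ = ((k : ℝ) + 1) ^ 2 * (K * (k : ℝ) ^ (-(9 / 4 * b))) * NUO.cut (k + 1) b t := by ring
        _ ≤ 1 * NUO.cut (k + 1) b t := mul_le_mul_of_nonneg_right h3 hc0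
    have hW := wkb_obE 2 PBO.cZ_pos hZ hN hB0.le hWB (δ := E * (Cc / (k : ℝ) ^ 3)) (by positivity) hδ
      (M := fun t => E * MT K b k η t) (fun t => mul_nonneg hE (MT_nonneg hK.le _ _ _ _)) zero_le_one
      hM
    exact fun r O i => H0 (k + 1) (by omega) ep hep hep1 _ hW (obE_nn hN (by positivity)) J hJ r O i

end PBC

end
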