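import Pool.Agent.PB.CutFin
import Pool.Agent.PB.ZcC
import Pool.Agent.PB.ZFamK
import Pool.Agent.PB.F0Ln
import Pool.Agent.PB.GasOfL

/-!
# Plan B: the cut term of the first Ward identity at the rows `i η, 0, …, 0`

**`cutAll`**: `‖Pf ∑ n, F0D n Z Zcut‖ ≤ (k + 1) ^ (- 2 + d) exp (2 |Im z|)` for the family `ZR` of
`PB/ZFamR` (cutoff points `± i` moving with the velocities `vI`), with the literal names of `PB/I1Q`,
`PB/Num`.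
-/

set_option autoImplicit false
set_option maxHeartbeats 400000
set_option linter.unusedSectionVars false

noncomputable section

open Complex MeasureTheory Finset
open scoped ENNReal

namespace PBT

open NUO NUP1 NUP1S NUP1S.Ab NUP1S.AbC NUGC PBF PBI
open PBX (obX XX Lg gP Rws)
open PBL (mu1)
open PBZF (ZR ZdR ZpR Lz)

attribute [local instance] NUSea.seaP

/-- the family at `η0` is the data of `topG` -/
theorem ZR_topG (cc : Bool → ℂ) (b : ℝ) (k : ℕ) (z : ℂ) (η0 : ℝ) (v : Fin 2 → ℂ) :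
    ZR cc b k z η0 v η0 = ZL cc k b ((η0 : ℂ) * I) z := by
  have h := PBZF.vx_at η0 v
  have h0 : PBZF.vx η0 v (η0 : ℂ) 0 = I := by rw [h]; rfl
  have h1 : PBZF.vx η0 v (η0 : ℂ) 1 = -I := by rw [h]; rfl
  funext s o u
  show XX (cc s) b (PBZF.rwx k (η0 : ℂ)) (PBZF.rwx k (η0 : ℂ))
    (gP b [PBZF.vx η0 v (η0 : ℂ) 0, PBZF.vx η0 v (η0 : ℂ) 1]) (gP (4 / 3) []) (Lg z z)
    (fun w => Lg z z w * Lg z z (w - NUP1.l)) o u = _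
  rw [h0, h1]
  rfl

/-- **the cut term of the first Ward identity** -/
theorem cutAll (hS : NUStabP.StabProd) {d : ℝ} (hd : 0 < d) : ∃ a0 : ℝ, 0 < a0 ∧
    ∀ ep : ℝ, 0 < ep → ep ≤ 1 / 100 → ∀ e1 : ℝ, 0 < e1 → e1 ≤ 1 / 100 → ∀ J : ℝ, 0 ≤ J →
    Real.exp (-(2 * Real.pi * J)) + 3 * e1 + 3 * ep ≤ a0 →
    ∃ m0 : ℕ, ∀ k : ℕ, m0 ≤ k → ∀ η0 : ℝ, |η0| ≤ 1 → ∀ z : ℂ, Lz z →
      |z.im| ≤ 3 / 20 * Real.log (k + 1 : ℕ) + 2 → ∀ cc : Bool → ℂ,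
      (∀ a, ‖cc a‖ = 2 * Real.cos NUP1.l) → ∀ v : Fin 2 → ℂ,
      v = PBFar.vI (4 / 3 * (1 - ep)) k ((η0 : ℂ) * I) I (PBFar.xe k η0) →
      ‖Pool.Agent.PB.Pf z (PBZF.rwx k (η0 : ℂ)) (PBZF.rwx k (η0 : ℂ)) *
        ∑ n ∈ range (2 * (k + 1) + 1), F0D (3 / 5 * NUP1.l) n n (fl (pL (k + 1)))
          (ZR cc (4 / 3 * (1 - ep)) k z η0 v η0)
          (Zcut (ZR cc (4 / 3 * (1 - ep)) k z η0 v η0)
            (ZdR cc (4 / 3 * (1 - ep)) k z η0 v η0)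
            (ZpR cc (4 / 3 * (1 - ep)) k z η0 v)
            (PBQ1.xiK (PBZF.rwx k (η0 : ℂ)) 0) (PBQ1.krK (PBZF.rwx k (η0 : ℂ)))
            (PBQ1.r1K (PBZF.rwx k (η0 : ℂ)) 0) (PBQ1.lamK z))‖ ≤
        ((k + 1 : ℕ) : ℝ) ^ (-2 + d) * Real.exp (2 * |z.im|) := by
  obtain ⟨K, Ca, -, hCa, hG⟩ := gasOf_L
  obtain ⟨K', HT⟩ := cutFin hS hCa hG
  obtain ⟨C, c, hC, hc, HD⟩ := PBC.cut_data K'
  obtain ⟨C0, hC0, HX⟩ := PBC.flX_xiR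
  obtain ⟨a0, ha0, HT⟩ := HT C c hC hc (d / 2) (by linarith)
  refine ⟨a0, ha0, fun ep hep hep1 e1 he he1 J hJ hsm => ?_⟩
  obtain ⟨mt, HT⟩ := HT ep hep hep1 e1 he he1 J hJ hsm
  obtain ⟨Cc, Kz, hCc, hKz, HD⟩ := HD C0 hC0 ep hep hep1
  obtain ⟨k0, hk0, HD⟩ := HD e1 he he1
  have t1 : Filter.Tendsto (fun m : ℕ => (m : ℝ) ^ (d / 2)) Filter.atTop Filter.atTop :=
    (tendsto_rpow_atTop (by positivity : 0 < d / 2)).comp tendsto_natCast_atTop_atTop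
  obtain ⟨mx, hmx⟩ := Filter.eventually_atTop.1 (t1.eventually_ge_atTop (8 * Cc))
  refine ⟨max (max mt k0) (max mx 1), fun k hk η0 hη0 z hz z3 cc hcc v hv => ?_⟩
  have k1 : mt ≤ k := (le_max_left _ _).trans ((le_max_left _ _).trans hk)
  have k2 : k0 ≤ k := (le_max_right _ _).trans ((le_max_left _ _).trans hk)
  have k3 : mx ≤ k + 1 := ((le_max_left _ _).trans ((le_max_right _ _).trans hk)).trans
    (Nat.le_succ k)
  have k4 : 1 ≤ k := (le_max_right _ _).trans ((le_max_right _ _).trans hk)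
  have hl := NUMF.l_pos
  have hlN : NUP1.l = NUMF.l := rfl
  have hkp : (0 : ℝ) < (k : ℝ) := by exact_mod_cast k4
  have hk1 : (1 : ℝ) ≤ (k : ℝ) := by exact_mod_cast k4
  have ek : ((k + 1 : ℕ) : ℝ) = (k : ℝ) + 1 := by push_cast; ring
  have hmp : (0 : ℝ) < ((k + 1 : ℕ) : ℝ) := by positivity
  have hm1 : (1 : ℝ) ≤ ((k + 1 : ℕ) : ℝ) := by rw [ek]; linarith
  obtain ⟨E, hE⟩ : ∃ E : ℝ, E = ((k + 1 : ℕ) : ℝ) ^ (2 - d / 2) := ⟨_, rfl⟩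
  have hE0 : 0 < E := by rw [hE]; exact Real.rpow_pos_of_pos hmp _
  have hE2 : E ≤ ((k : ℝ) + 1) ^ 2 := by
    rw [hE, ← ek, ← Real.rpow_natCast]
    exact Real.rpow_le_rpow_of_exponent_le hm1 (by push_cast; linarith)
  have hEd : E * ((k + 1 : ℕ) : ℝ) ^ (d / 2) = ((k + 1 : ℕ) : ℝ) ^ 2 := by
    rw [hE, ← Real.rpow_add hmp, ← Real.rpow_natCast]
    congr 1
    push_cast
    ring
  have hδ0 : 0 ≤ E * (Cc / (k : ℝ) ^ 3) := by positivity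
  have hδ1 : E * (Cc / (k : ℝ) ^ 3) ≤ 1 / ((k + 1 : ℕ) : ℝ) := by
    have h1 := hmx (k + 1) k3
    have h2 : ((k + 1 : ℕ) : ℝ) ^ 3 ≤ 8 * (k : ℝ) ^ 3 := by
      have h3 : ((k + 1 : ℕ) : ℝ) ≤ 2 * k := by rw [ek]; linarith
      calc ((k + 1 : ℕ) : ℝ) ^ 3 ≤ (2 * (k : ℝ)) ^ 3 := pow_le_pow_left₀ hmp.le h3 3
        _ = 8 * (k : ℝ) ^ 3 := by ring
    have h4 : E * (8 * Cc) ≤ ((k + 1 : ℕ) : ℝ) ^ 2 := by
      rw [← hEd]
      exact mul_le_mul_of_nonneg_left h1 hE0.le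
    rw [mul_div_assoc', div_le_div_iff₀ (by positivity) hmp]
    have h5 : E * (8 * Cc) * ((k + 1 : ℕ) : ℝ) ≤ ((k + 1 : ℕ) : ℝ) ^ 2 * ((k + 1 : ℕ) : ℝ) :=
      mul_le_mul_of_nonneg_right h4 hmp.le
    have h6 : ((k + 1 : ℕ) : ℝ) ^ 2 * ((k + 1 : ℕ) : ℝ) = ((k + 1 : ℕ) : ℝ) ^ 3 := by ring
    linarith
  have hz' := hz
  obtain ⟨z1, z2⟩ := hz'
  have z2' : z.re < 37 / 10 * NUMF.l := by
    rw [← hlN]
    linarith [NUP1.l_pos]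
  have hre : |((η0 : ℂ) * I).re| ≤ NUMF.l / 10 := by
    simp
    positivity
  have him : |((η0 : ℂ) * I).im| ≤ 2 := by
    have : ((η0 : ℂ) * I).im = η0 := by simp
    rw [this]
    linarith
  obtain ⟨X, hX⟩ : ∃ X, X = PBForce.xiR (PBZF.rwx k (η0 : ℂ)) 0 := ⟨_, rfl⟩
  have hFX : PBC.FlX k C0 X (PBFar.xe k η0) := by rw [hX]; exact HX k k4 η0 hη0
  obtain ⟨hD1, hD2⟩ := HD k k2 η0 hη0 X hFX z z1 z2'
  obtain ⟨hcut, D, hzc⟩ := hD1 cc hcc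
  have hact := hD2 E hE0.le hE2 J hJ
  obtain ⟨Zd, hZd⟩ : ∃ Zd : Stt, Zd = Zcut (ZR cc (4 / 3 * (1 - ep)) k z η0 v η0)
            (ZdR cc (4 / 3 * (1 - ep)) k z η0 v η0)
            (ZpR cc (4 / 3 * (1 - ep)) k z η0 v)
            (PBQ1.xiK (PBZF.rwx k (η0 : ℂ)) 0) (PBQ1.krK (PBZF.rwx k (η0 : ℂ)))
            (PBQ1.r1K (PBZF.rwx k (η0 : ℂ)) 0) (PBQ1.lamK z) := ⟨_, rfl⟩
  have hline : ∀ n ∈ range (2 * (k + 1) + 1),
      AllW (3 / 5 * NUP1.l) n n (Lfin (pL (k + 1))) fun c x => ∀ i, ∀ t : ℝ,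
        Zd (c i).1 (c i).2 (vl (x i) t) =
          PBC.ZcL cc k (4 / 3 * (1 - ep)) η0 z X (c i).1 (c i).2 (vl (x i) t) := by
    intro n _
    have h1 := PBZF.zcut_K (a := k) (b := 4 / 3 * (1 - ep)) (z0 := z) cc (by linarith) (by linarith)
      hz η0 (PBFar.xe k η0) (α := 3 / 5 * NUP1.l) le_rfl (by linarith [NUP1.l_pos])
      (L := Lfin (pL (k + 1)))
      (NURow.LnH_P (parZ_parC (k + 1)).goodP (parZ_parC (k + 1)).j1 (parZ_parC (k + 1)).j2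
        fun r => by
          have h3 := (parZ_parC (k + 1)).e2 r
          have h4 := (parZ_parC (k + 1)).d0 r
          linarith) n
    rw [← hv, ← hZd, ← hX] at h1
    intro p p' w w' g1 g2 i t
    exact h1 p p' w w' g1 g2 i t
  have key := HT k k1 ((η0 : ℂ) * I) z hre him z1 z2' z3 cc hcc Zd
    (PBC.ZcL cc k (4 / 3 * (1 - ep)) η0 z X) (E * (Cc / (k : ℝ) ^ 3)) E (Cc / (k : ℝ) ^ 3)
    (PBC.MT Kz (4 / 3 * (1 - ep)) k η0) (fun t => E * PBC.MT Kz (4 / 3 * (1 - ep)) k η0 t)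
    (Cc / (k : ℝ) ^ 3) D (range (2 * (k + 1) + 1)) hδ0 hδ1 hE0 (by positivity) hcut le_rfl
    (fun t => le_rfl) hact hzc (Finset.Subset.refl _) hline
  rw [← hZd, ZR_topG]
  refine key.trans (le_of_eq ?_)
  rw [hE, div_eq_mul_inv, ← Real.rpow_neg hmp.le, mul_right_comm, ← Real.rpow_add hmp]
  congr 2
  ring

end PBT

end
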