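import Pool.Agent.PB.EInst2

/-!
# Plan B: `VDat` and `(E')` for one moved row at height `s`, the other `j` rows at `0`

* `rowS j s : Fin (j + 1) → ℂ`, `rowS_ok`, `rP_rowS`, `rM_rowS`;
* **`vinst`**, **`E_inst`**: all constants before `j`, `s`, `t` (`t` = height of the legs).
-/

set_option autoImplicit false

open Complex Set Filter Topology MeasureTheory

noncomputable section

namespace PBEI

open NUMF (l)
open PBForce (Rws0)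
open PBV
open Pool.Agent.PB (rl MeanDat VDat mV CV CmV CsV CssV)

/-- one moved row at height `s` -/
def rowS (j : ℕ) (s : ℝ) : Fin (j + 1) → ℂ := Fin.cons (I * s) fun _ => 0

lemma rowS_zero (j : ℕ) (s : ℝ) : rowS j s 0 = I * s := rfl

lemma rowS_ne (j : ℕ) (s : ℝ) {i : Fin (j + 1)} (h : i ≠ 0) : rowS j s i = 0 := by
  obtain ⟨k, rfl⟩ := Fin.exists_succ_eq.2 h
  rfl

lemma rowS_ok (j : ℕ) {s : ℝ} (hs : |s| ≤ 1) : Rws0 (rowS j s) := by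
  constructor
  · intro i
    by_cases h : i = 0
    · rw [h, rowS_zero]; simp
    · rw [rowS_ne j s h]; simp
  · intro i
    by_cases h : i = 0
    · rw [h, rowS_zero]; simpa using hs
    · rw [rowS_ne j s h]; simp

lemma rP_rowS (j : ℕ) (s : ℝ) :
    rP (rowS j s) 0 = (((j + 1) * Real.exp (8 / 3 * s) / (j + Real.exp (8 / 3 * s)) : ℝ) : ℂ) := by
  rw [rP_one (rowS j s) 0 (s := s) (by rw [rowS_zero]; simp) fun i hi => by rw [rowS_ne j s hi]; simp]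
  push_cast
  ring_nf

lemma rM_rowS (j : ℕ) (s : ℝ) :
    rM (rowS j s) 0 = (((j + 1) * Real.exp (-(8 / 3 * s)) / (j + Real.exp (-(8 / 3 * s))) : ℝ) : ℂ) := by
  rw [rM_one (rowS j s) 0 (s := s) (by rw [rowS_zero]; simp) fun i hi => by rw [rowS_ne j s hi]; simp]
  push_cast
  ring_nf

/-- **the data of the values**, one moved row -/
theorem vinst {a a' : ℝ} (ha : 1 / 2 ≤ a') (haa : a' < a) (ha2 : a < 2) : ∃ C1 C : ℝ, 0 < C1 ∧ 32 ≤ C ∧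
    ∀ (j : ℕ) (s t : ℝ), |s| ≤ 1 → |t| ≤ 1 →
    ∀ (mf mf' D : ℝ → ℂ) (B : ℝ) (mp mm : ℂ), MeanDat mf mf' D (rl (h0T t)) B mp mm → ∀ b : ℝ, C ≤ b → B ≤ b →
      VDat y1 y2 a' (l / 20) wm wm (Apl (rowS j s) 0) Bch (aE C1 a) (bE' C1 a') (Ami (rowS j s) 0) Bch
        (aE C1 a) (bE' C1 a') (rF (rowS j s) 0) (uF (rowS j s) 0) (h0T t) (g2T t) (qF (rowS j s) 0 t)
        (fun u : ℝ => deriv (rF (rowS j s) 0) u) (rl (deriv (uF (rowS j s) 0))) sg sg' sg'' mf mf' D b C C C C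
        (((j + 1) * Real.exp (8 / 3 * s) / (j + Real.exp (8 / 3 * s)) : ℝ) : ℂ)
        (((j + 1) * Real.exp (-(8 / 3 * s)) / (j + Real.exp (-(8 / 3 * s))) : ℝ) : ℂ) mp mm ∧
      ∫ q, aE C1 a q * bE' C1 a' q ∂wm ≤ C := by
  obtain ⟨C1, C, hC1, hC, h⟩ := vdat ha haa ha2
  refine ⟨C1, C, hC1, hC, fun j s t hs ht mf mf' D B mp mm hm b hb hB => ?_⟩
  have h1 := h (j + 1) (rowS j s) 0 (rowS_ok j hs) t ht mf mf' D B mp mm hm b hb hB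
  rw [rP_rowS, rM_rowS] at h1
  exact ⟨h1.1, h1.2.1⟩

/-- **`(E')`**, one moved row -/
theorem E_inst {a' : ℝ} (ha : 1 / 2 ≤ a') (ha2 : a' < 2) (B : ℝ) : ∃ K : ℝ, 0 < K ∧
    ∀ (j : ℕ) (s t : ℝ), |s| ≤ 1 → |t| ≤ 1 →
    ∀ (mf mf' D : ℝ → ℂ) (mp mm : ℂ), MeanDat mf mf' D (rl (h0T t)) B mp mm →
    ∀ (f fη fτ fττ : ℂ) (G1 : (ℂ → ℂ) → ℂ) (G2 H2 : (ℂ → ℂ) → (ℂ → ℂ) → ℂ) (Hs : (ℂ → ℂ) → ℂ) (Hss : ℂ)
      (δ δ0 : ℝ), 0 ≤ δ →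
      PBE.Lev2 y1 y2 a' f G1 G2 (mV mf) CV δ →
      PBE.Lev2m y1 y2 a' f H2 Hs Hss CmV (CsV sg') (CssV sg') δ →
      PBE.Lin1 y1 y2 a' G1 → PBE.Lin2 y1 y2 a' G2 →
      Integrable (fun q => G2 (Apl (rowS j s) 0 q) (Bch q)) wm →
      Integrable (fun q => H2 (Ami (rowS j s) 0 q) (Bch q)) wm →
      ‖fη - ((∫ q, G2 (Apl (rowS j s) 0 q) (Bch q) ∂wm) +
        ((∫ q, H2 (Ami (rowS j s) 0 q) (Bch q) ∂wm) + 2 * Hs (uF (rowS j s) 0) -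
          ((((j + 1) * Real.exp (8 / 3 * s) / (j + Real.exp (8 / 3 * s)) : ℝ) : ℂ) -
            (((j + 1) * Real.exp (-(8 / 3 * s)) / (j + Real.exp (-(8 / 3 * s))) : ℝ) : ℂ)) / 2 * Hss) +
          G1 (qF (rowS j s) 0 t))‖ ≤ δ0 →
      ‖G1 (h0T t) + fτ‖ ≤ δ → ‖G2 (h0T t) (h0T t) + G1 (g2T t) - fττ‖ ≤ δ →
      ‖fη - (-(((((j + 1) * Real.exp (8 / 3 * s) / (j + Real.exp (8 / 3 * s)) : ℝ) : ℂ) -
            (((j + 1) * Real.exp (-(8 / 3 * s)) / (j + Real.exp (-(8 / 3 * s))) : ℝ) : ℂ)) / 8) * fττ -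
          ((((j + 1) * Real.exp (8 / 3 * s) / (j + Real.exp (8 / 3 * s)) : ℝ) : ℂ) +
            (((j + 1) * Real.exp (-(8 / 3 * s)) / (j + Real.exp (-(8 / 3 * s))) : ℝ) : ℂ)) / 2 * fτ)‖ ≤
        δ0 + K * δ := by
  obtain ⟨K, hK, h⟩ := E_field ha ha2 B
  refine ⟨K, hK, fun j s t hs ht mf mf' D mp mm hm f fη fτ fττ G1 G2 H2 Hs Hss δ δ0 hδ hL hL' hG1 hG2 iG iH hI h1 h2 => ?_⟩
  have h3 := h (j + 1) (rowS j s) 0 (rowS_ok j hs) t ht mf mf' D mp mm hm f fη fτ fττ G1 G2 H2 Hs Hss δ δ0 hδ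
    hL hL' hG1 hG2 iG iH
  rw [rP_rowS, rM_rowS] at h3
  exact h3 hI h1 h2

end PBEI

end
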