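import Pool.Agent.PB.I1
import Pool.Agent.PB.CutAll
import Pool.Agent.PB.VInst

/-!
# Plan B: 72's hypothesis `hD` of `E2_of`, from the total insertion (helper89)

Rows `i s, 0^j` (`PBEI.rowS j s`), legs at `i t`, `b = 4 (1 - ep) / 3`, `P = par0 (j + 1)`.

* `rwx_rowS`: the rows; `insT j s t`: the insertion `nuQI aK + nuI (Ξ λ)`; `F0T ep j s t`: its value
  `F0N` with the coefficients `Pf`;
* **`hD_all`**: `‖(j + 1) F0T - main‖ ≤ δa j` for large `j` gives `hD` with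
  `δ0 j = δa j + e^2 (j + 1)^(-1 + d)`.
-/

set_option autoImplicit false
set_option linter.unusedSectionVars false
set_option linter.unusedVariables false

noncomputable section

attribute [local instance] NUSea.seaP

open Complex MeasureTheory Finset Filter
open scoped Classical

namespace PBI

open NUP1 hiding Kd
open NUP1S NUP1.Bd NURow PB PBZF PBRep PBQ1 PBForce PBT
open PBX (Lg)
open Pool.Agent.PB (Pf fx)

theorem rwx_rowS (j : ℕ) (s : ℝ) : PBZF.rwx j (s : ℂ) = PBEI.rowS j s := by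
  unfold PBZF.rwx PBEI.rowS
  rw [mul_comm]

/-- the total insertion -/
def insT (j : ℕ) (s t : ℝ) : Ins := fun ι _ c z =>
  nuQI (rhK (PBEI.rowS j s)) (PBOb.aK (xiR (PBEI.rowS j s) 0)) ι c z +
    nuI (rhK (PBEI.rowS j s)) (glK (I * t) (PBEI.rowS j s) 0) ι c z

/-- its value, sum over the number of quanta, coefficients `Pf` -/
def F0T (ep : ℝ) (j : ℕ) (s t : ℝ) : ℂ :=
  F0N (PBT.ZL (fun _ => Leg.cc (j + 1)) j (4 / 3 * (1 - ep)) (I * s) (I * t)) (pL (j + 1))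
    (3 / 5 * NUP1.l) (2 * (j + 1)) (fun _ => Pf (I * t) (PBEI.rowS j s) (PBEI.rowS j s)) (insT j s t)

/-- FFam at the rows `i s, 0^j` -/
def FFamH : Prop := ∀ (j : ℕ) (s t : ℝ) (n : ℕ), |s| ≤ 1 → |t| ≤ 1 → ∃ B,
  FFam (3 / 5 * NUP1.l) n (fl (pL (j + 1))) B (xiK (PBEI.rowS j s) 0)
    (fun b w => deriv (xiR (PBEI.rowS j s) 0) (fp b w)) (PBOb.aK (xiR (PBEI.rowS j s) 0))
    (rhK (PBEI.rowS j s)) (krK (PBEI.rowS j s)) (r1K (PBEI.rowS j s) 0) (lamK (I * t))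

theorem norm_ccL (m : ℕ) : ‖Leg.cc m‖ = 2 * Real.cos NUP1.l := by
  have hl := Bd.l_pos
  have hl2 : NUP1.l < Real.pi / 2 := by
    unfold NUP1.l
    linarith [Real.pi_pos]
  have hs : Complex.sin (NUP1.l : ℂ) ≠ 0 := by
    rw [← Complex.ofReal_sin]
    exact Complex.ofReal_ne_zero.2 (Real.sin_pos_of_pos_of_lt_pi hl (by linarith [Real.pi_pos])).ne'
  have hc : 0 < Real.cos NUP1.l := Real.cos_pos_of_mem_Ioo ⟨by linarith [Real.pi_pos], hl2⟩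
  have e : Complex.sin (2 * (NUP1.l : ℂ)) / Complex.sin NUP1.l = ((2 * Real.cos NUP1.l : ℝ) : ℂ) := by
    rw [Complex.sin_two_mul]
    push_cast
    field_simp
  unfold Leg.cc
  rw [norm_mul, norm_pow, norm_neg, norm_one, one_pow, one_mul, e, Complex.norm_real,
    Real.norm_of_nonneg (by positivity)]

/-- **`hD` for large `j`** -/
theorem hD_all (hS : NUStabP.StabProd) (hF : FFamH) {d : ℝ} (hd : 0 < d) : ∃ a0 : ℝ, 0 < a0 ∧
    ∀ ep : ℝ, 0 < ep → ep ≤ 1 / 100 → ∀ e1 : ℝ, 0 < e1 → e1 ≤ 1 / 100 → ∀ J : ℝ, 0 ≤ J →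
    Real.exp (-(2 * Real.pi * J)) + 3 * e1 + 3 * ep ≤ a0 →
    ∀ {main : ℕ → ℝ → ℝ → ℂ} {δa : ℕ → ℝ},
    (∀ᶠ j : ℕ in atTop, ∀ s ∈ Set.Icc (0 : ℝ) 1, ∀ t ∈ Set.Icc (0 : ℝ) 1,
      ‖((j + 1 : ℝ) : ℂ) * F0T ep j s t - main j s t‖ ≤ δa j) →
    ∀ᶠ j : ℕ in atTop, ∀ s ∈ Set.Icc (0 : ℝ) 1, ∀ t ∈ Set.Icc (0 : ℝ) 1, ∃ D : ℂ,
      HasDerivAt (fun s : ℝ => fx j (I * s) (I * t)) D s ∧
      ‖((j + 1 : ℝ) : ℂ) * D - main j s t‖ ≤
        δa j + Real.exp 2 * ((j + 1 : ℕ) : ℝ) ^ (-1 + d) := by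
  obtain ⟨a0, ha0, HT⟩ := cutAll hS hd
  refine ⟨a0, ha0, fun ep hep hep1 e1 he he1 J hJ hsm main δa hmain => ?_⟩
  obtain ⟨m0, HT⟩ := HT ep hep hep1 e1 he he1 J hJ hsm
  filter_upwards [hmain, eventually_ge_atTop m0] with j h1 hj s hs t ht
  have hl := Bd.l_pos
  have hs1 : |s| ≤ 1 := abs_le.2 ⟨by linarith [hs.1], hs.2⟩
  have ht1 : |t| ≤ 1 := abs_le.2 ⟨by linarith [ht.1], ht.2⟩
  have hre : (I * (t : ℂ)).re = 0 := by simp
  have him : (I * (t : ℂ)).im = t := by simp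
  have hz : Lz (I * (t : ℂ)) := by
    constructor <;> rw [hre] <;> linarith
  have hP : NUGC.ParC (pL (j + 1)) := PBF.parZ_parC (j + 1)
  set v : Fin 2 → ℂ := PBFar.vI (4 / 3 * (1 - ep)) j ((s : ℂ) * I) I (PBFar.xe j s) with hv
  have hb : (0 : ℝ) < 4 / 3 * (1 - ep) := by linarith
  have hb' : 4 / 3 * (1 - ep) ≤ 4 / 3 := by linarith
  have key := fx_D (k := j) (s := s) (b := 4 / 3 * (1 - ep)) (z0 := I * t) (v := v) hP hb hb' hz
    (fun n _ => by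
      have := hF j s t n hs1 ht1
      rw [← rwx_rowS] at this
      exact this)
  have ecc : ∀ a : Bool, ‖(fun _ : Bool => Leg.cc (j + 1)) a‖ = 2 * Real.cos NUP1.l := fun _ =>
    norm_ccL _
  have hlog : 0 ≤ Real.log ((j + 1 : ℕ) : ℝ) := Real.log_nonneg (by
    have : (1 : ℝ) ≤ ((j + 1 : ℕ) : ℝ) := by exact_mod_cast Nat.succ_le_succ (Nat.zero_le j)
    exact this)
  have hc := HT j hj s hs1 (I * t) hz (by rw [him]; linarith [ht1]) (fun _ => Leg.cc (j + 1)) ecc v hv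
  have efx : (fun s : ℝ => fx j (I * s) (I * t)) = fun η : ℝ => fx j ((η : ℂ) * I) (I * t) := by
    funext η
    rw [mul_comm]
  rw [efx]
  have eA : F0T ep j s t = F0N (ZR (fun _ => Leg.cc (j + 1)) (4 / 3 * (1 - ep)) j (I * t) s v s)
      (pL (j + 1)) (3 / 5 * NUP1.l) (2 * (j + 1))
      (fun _ => Pf (I * t) (PBZF.rwx j s) (PBZF.rwx j s))
      (fun ι _ c z => nuQI (rhK (PBZF.rwx j s)) (PBOb.aK (xiR (PBZF.rwx j s) 0)) ι c z +
        nuI (rhK (PBZF.rwx j s)) (glK (I * t) (PBZF.rwx j s) 0) ι c z) := by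
    unfold F0T insT
    rw [rwx_rowS, ZR_topG, mul_comm (s : ℂ) I]
  have h2 := h1 s hs t ht
  rw [eA] at h2
  have hcn := hD_one key h2 hc
  obtain ⟨D, hD, hb2⟩ := hcn
  refine ⟨D, hD, hb2.trans ?_⟩
  have hj0 : (0 : ℝ) < ((j + 1 : ℕ) : ℝ) := by positivity
  have en : ‖(((j : ℝ) + 1 : ℝ) : ℂ)‖ = ((j + 1 : ℕ) : ℝ) := by
    rw [Complex.norm_real, Real.norm_of_nonneg (by positivity)]
    push_cast
    ring
  have e2 : Real.exp (2 * |(I * (t : ℂ)).im|) ≤ Real.exp 2 := by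
    rw [him]
    exact Real.exp_le_exp.2 (by linarith)
  have e3 : ((j + 1 : ℕ) : ℝ) * ((j + 1 : ℕ) : ℝ) ^ (-2 + d) = ((j + 1 : ℕ) : ℝ) ^ (-1 + d) := by
    have h := Real.rpow_add hj0 1 (-2 + d)
    rw [Real.rpow_one] at h
    rw [← h]
    congr 1
    ring
  rw [en]
  have hp : 0 ≤ ((j + 1 : ℕ) : ℝ) ^ (-2 + d) := Real.rpow_nonneg hj0.le _
  calc δa j + ((j + 1 : ℕ) : ℝ) * (((j + 1 : ℕ) : ℝ) ^ (-2 + d) * Real.exp (2 * |(I * (t : ℂ)).im|))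
      ≤ δa j + ((j + 1 : ℕ) : ℝ) * (((j + 1 : ℕ) : ℝ) ^ (-2 + d) * Real.exp 2) := by gcongr
    _ = δa j + Real.exp 2 * (((j + 1 : ℕ) : ℝ) * ((j + 1 : ℕ) : ℝ) ^ (-2 + d)) := by ring
    _ = _ := by rw [e3]

end PBI

end
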