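import Pool.Agent.PB.NormX

/-!
# Plan B: the quadratic statistics on a domain, and as integrals of products

`NX.nuQ` uses the kernel only at the positions of the particles and on the line of the density, so
all hypotheses are needed on a domain `D b` of positions of each kind only.

* `QID`, `nuQ_addD`, `nuQ_chargeD`: additivity, plateau parts;
* `PRep`: kernel `a b c x y = ∫ A q b x * B q c y ∂μ` on the domain; **`nuQ_int`**:
  `nuQ a = (1/2) ∫ nuL (A q) nuL (B q) ∂μ`;
* `nuQ_chan`: the kernels `(1/2) (k₊ + σ_b σ_c k₋)` of the quanta of both species.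
-/

set_option autoImplicit false
set_option linter.unusedSectionVars false

noncomputable section

open MeasureTheory Finset
open scoped Classical

namespace PB

namespace NX

variable {ι S X : Type*} [Fintype ι] [Fintype S]

/-- the kernel cut off to the domain -/
def cD (D : S → Set X) (a : S → S → X → X → ℂ) (b c : S) (x y : X) : ℂ :=
  if x ∈ D b ∧ y ∈ D c then a b c x y else 0

theorem smr_cD {e : ℝ → X} {ρ : S → ℝ → ℂ} {D : S → Set X} (he : ∀ b u, ρ b u ≠ 0 → e u ∈ D b)
    (a : S → S → X → X → ℂ) {b : S} {x : X} (hx : x ∈ D b) :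
    smr e ρ (cD D a) b x = smr e ρ a b x := by
  unfold smr
  refine Finset.sum_congr rfl fun c _ => ?_
  refine integral_congr_ae (Filter.Eventually.of_forall fun u => ?_)
  simp only []
  by_cases h : ρ c u = 0
  · rw [h, mul_zero, mul_zero]
  · unfold cD
    rw [if_pos ⟨hx, he c u h⟩]

theorem mul_smr_cD {e : ℝ → X} {ρ : S → ℝ → ℂ} {D : S → Set X}
    (he : ∀ b u, ρ b u ≠ 0 → e u ∈ D b) (a : S → S → X → X → ℂ) (b : S) (s : ℝ) :
    ρ b s * smr e ρ (cD D a) b (e s) = ρ b s * smr e ρ a b (e s) := by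
  by_cases h : ρ b s = 0
  · rw [h, zero_mul, zero_mul]
  · rw [smr_cD he a (he b s h)]

theorem nuQ_cD {e : ℝ → X} {sp : ι → S} {ρ : S → ℝ → ℂ} {D : S → Set X}
    (he : ∀ b u, ρ b u ≠ 0 → e u ∈ D b) (a : S → S → X → X → ℂ) {z : ι → X}
    (hz : ∀ i, z i ∈ D (sp i)) : nuQ e sp ρ (cD D a) z = nuQ e sp ρ a z := by
  unfold nuQ dbl
  simp only [mul_smr_cD he]
  congr 1
  congr 1
  · congr 1
    refine Finset.sum_congr rfl fun i _ => Finset.sum_congr rfl fun j _ => ?_
    unfold cD
    rw [if_pos ⟨hz i, hz j⟩]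
  · exact Finset.sum_congr rfl fun i _ => smr_cD he a (hz i)

/-- integrability of a kernel against the densities, on the domain -/
structure QID (D : S → Set X) (e : ℝ → X) (ρ : S → ℝ → ℂ) (a : S → S → X → X → ℂ) : Prop where
  one : ∀ b c x, x ∈ D b → Integrable fun u => a b c x (e u) * ρ c u
  two : ∀ b, Integrable fun s => ρ b s * smr e ρ a b (e s)

theorem QID.qi {D : S → Set X} {e : ℝ → X} {ρ : S → ℝ → ℂ} {a : S → S → X → X → ℂ}
    (he : ∀ b u, ρ b u ≠ 0 → e u ∈ D b) (h : QID D e ρ a) : QI e ρ (cD D a) where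
  one b c x := by
    by_cases hx : x ∈ D b
    · refine (h.one b c x hx).congr (Filter.Eventually.of_forall fun u => ?_)
      simp only []
      by_cases h0 : ρ c u = 0
      · rw [h0, mul_zero, mul_zero]
      · unfold cD
        rw [if_pos ⟨hx, he c u h0⟩]
    · refine (integrable_zero ℝ ℂ volume).congr (Filter.Eventually.of_forall fun u => ?_)
      simp [cD, hx]
  two b := (h.two b).congr (Filter.Eventually.of_forall fun s => (mul_smr_cD he a b s).symm)

theorem QI.qid {D : S → Set X} {e : ℝ → X} {ρ : S → ℝ → ℂ} {a : S → S → X → X → ℂ}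
    (h : QI e ρ a) : QID D e ρ a := ⟨fun b c x _ => h.one b c x, h.two⟩

theorem nuQ_addD {D : S → Set X} {e : ℝ → X} (sp : ι → S) {ρ : S → ℝ → ℂ}
    {a a' : S → S → X → X → ℂ} (he : ∀ b u, ρ b u ≠ 0 → e u ∈ D b) (h : QID D e ρ a)
    (h' : QID D e ρ a') {z : ι → X} (hz : ∀ i, z i ∈ D (sp i)) :
    nuQ e sp ρ (fun b c s u => a b c s u + a' b c s u) z = nuQ e sp ρ a z + nuQ e sp ρ a' z := by
  rw [← nuQ_cD he a hz, ← nuQ_cD he a' hz, ← nuQ_add sp (h.qi he) (h'.qi he), ← nuQ_cD he _ hz]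
  congr 1
  funext b c s u
  unfold cD
  split_ifs <;> simp

theorem QID.add {D : S → Set X} {e : ℝ → X} {ρ : S → ℝ → ℂ} {a a' : S → S → X → X → ℂ}
    (he : ∀ b u, ρ b u ≠ 0 → e u ∈ D b) (h : QID D e ρ a) (h' : QID D e ρ a') :
    QID D e ρ (fun b c s u => a b c s u + a' b c s u) where
  one b c x hx := ((h.one b c x hx).add (h'.one b c x hx)).congr
    (Filter.Eventually.of_forall fun u => by simp only [Pi.add_apply]; ring)
  two b := ((h.two b).add (h'.two b)).congr (Filter.Eventually.of_forall fun s => by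
    simp only [Pi.add_apply]
    by_cases h0 : ρ b s = 0
    · rw [h0]; ring
    · have hx := he b s h0
      have : smr e ρ (fun b c s u => a b c s u + a' b c s u) b (e s) =
          smr e ρ a b (e s) + smr e ρ a' b (e s) := by
        unfold smr
        rw [← Finset.sum_add_distrib]
        refine Finset.sum_congr rfl fun c _ => ?_
        rw [← integral_add (h.one b c _ hx) (h'.one b c _ hx)]
        refine integral_congr_ae (Filter.Eventually.of_forall fun u => ?_)
        simp only []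
        ring
      rw [this]
      ring)

theorem QID.smul {D : S → Set X} {e : ℝ → X} {ρ : S → ℝ → ℂ} {a : S → S → X → X → ℂ}
    (h : QID D e ρ a) (x : ℂ) : QID D e ρ (fun b c s u => x * a b c s u) where
  one b c y hy := ((h.one b c y hy).const_mul x).congr
    (Filter.Eventually.of_forall fun u => by simp only []; ring)
  two b := ((h.two b).const_mul x).congr (Filter.Eventually.of_forall fun s => by
    simp only [smr_smul]; ring)

/-- **plateau parts of all pairs**, hypotheses on the domain -/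
theorem nuQ_chargeD {D : S → Set X} {e : ℝ → X} (sp : ι → S) {ρ : S → ℝ → ℂ} {q : S → ℂ}
    {ξ σ : S → X → ℂ} {xp xm : ℂ} {a : S → S → X → X → ℂ}
    (he : ∀ b u, ρ b u ≠ 0 → e u ∈ D b) (hQ : QID D e ρ a)
    (h1 : ∀ b, Integrable fun u => ρ b u * (q b * 1))
    (hb : ∀ b, Integrable fun u => ρ b u * (q b * be xp xm (ξ b (e u)) (σ b (e u))))
    (hs : ∀ b, Integrable fun u => ρ b u * (q b * σ b (e u))) {z : ι → X}
    (hz : ∀ i, z i ∈ D (sp i)) :
    nuQ e sp ρ a z =
    nuQ e sp ρ (fun b c s u => a b c s u - 2 * (q b * q c) * plat xp xm (ξ b s) (ξ c u)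
      (σ b s) (σ c u)) z + (xp - xm) / 2 * Qf e sp ρ q (fun _ _ => 1) z ^ 2 +
      2 * Qf e sp ρ q (fun b x => be xp xm (ξ b x) (σ b x)) z * Qf e sp ρ q σ z -
      (xp - xm) / 2 * Qf e sp ρ q σ z ^ 2 := by
  set J := (xp - xm) / 2 with hJ
  have k1 := QI.sq (e := e) (ρ := ρ) (f := fun b (_ : X) => q b * (1 : ℂ)) h1
  have k2 := QI.prod (e := e) (ρ := ρ) (f := fun b x => q b * be xp xm (ξ b x) (σ b x))
    (g := fun b x => q b * σ b x) hb hs
  have k3 := QI.sq (e := e) (ρ := ρ) (f := fun b x => q b * σ b x) hs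
  have k := (k1.smul (-(2 * J))).add ((k2.smul (-2)).add (k3.smul (2 * J)))
  have e1 : (fun (b c : S) (s u : X) => a b c s u - 2 * (q b * q c) * plat xp xm (ξ b s) (ξ c u)
      (σ b s) (σ c u)) =
      fun b c s u => a b c s u + ((-(2 * J)) * ((q b * 1) * (q c * 1)) +
        ((-2) * ((q b * be xp xm (ξ b s) (σ b s)) * (q c * σ c u) +
          (q b * σ b s) * (q c * be xp xm (ξ c u) (σ c u))) +
        (2 * J) * ((q b * σ b s) * (q c * σ c u)))) := by
    funext b c s u
    unfold plat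
    ring
  rw [e1, nuQ_addD sp he hQ k.qid hz,
    nuQ_add sp (k1.smul (-(2 * J))) ((k2.smul (-2)).add (k3.smul (2 * J))),
    nuQ_add sp (k2.smul (-2)) (k3.smul (2 * J)), nuQ_smul, nuQ_smul, nuQ_smul,
    nuQ_sq sp (f := fun b (_ : X) => q b * (1 : ℂ)) h1,
    nuQ_prod sp (f := fun b x => q b * be xp xm (ξ b x) (σ b x)) (g := fun b x => q b * σ b x) hb hs,
    nuQ_sq sp (f := fun b x => q b * σ b x) hs]
  unfold Qf
  ring

/-! ### superpositions of products -/

section rep

variable {Q : Type*} [MeasurableSpace Q] {μ : Measure Q} [SFinite μ]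

/-- **a kernel as a superposition of products**, on the domain -/
structure PRep (μ : Measure Q) (D : S → Set X) (e : ℝ → X) (ρ : S → ℝ → ℂ)
    (a : S → S → X → X → ℂ) (A B : Q → S → X → ℂ) (α β : Q → ℝ) (φ ψ : S → X → ℝ) : Prop where
  eq : ∀ b c x y, x ∈ D b → y ∈ D c → a b c x y = ∫ q, A q b x * B q c y ∂μ
  sym : ∀ b c x y, x ∈ D b → y ∈ D c → a b c x y = a c b y x
  mA : ∀ b x, x ∈ D b → AEStronglyMeasurable (fun q => A q b x) μ
  mB : ∀ b x, x ∈ D b → AEStronglyMeasurable (fun q => B q b x) μ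
  jA : ∀ b, AEStronglyMeasurable (fun p : Q × ℝ => ρ b p.2 * A p.1 b (e p.2)) (μ.prod volume)
  jB : ∀ b, AEStronglyMeasurable (fun p : Q × ℝ => ρ b p.2 * B p.1 b (e p.2)) (μ.prod volume)
  bA : ∀ q b x, x ∈ D b → ‖A q b x‖ ≤ α q * φ b x
  bB : ∀ q b x, x ∈ D b → ‖B q b x‖ ≤ β q * ψ b x
  ab : Integrable (fun q => α q * β q) μ
  a0 : ∀ q, 0 ≤ α q
  b0 : ∀ q, 0 ≤ β q
  iA : ∀ b, Integrable fun u => ‖ρ b u‖ * φ b (e u)
  iB : ∀ b, Integrable fun u => ‖ρ b u‖ * ψ b (e u)
  he : ∀ b u, ρ b u ≠ 0 → e u ∈ D b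

variable {D : S → Set X} {e : ℝ → X} {ρ : S → ℝ → ℂ} {a : S → S → X → X → ℂ}
  {A B : Q → S → X → ℂ} {α β : Q → ℝ} {φ ψ : S → X → ℝ}

/-- mean of a one body function -/
def mn (e : ℝ → X) (ρ : S → ℝ → ℂ) (g : S → X → ℂ) : ℂ := ∑ b, ∫ u, ρ b u * g b (e u)

theorem PRep.bρA (R : PRep μ D e ρ a A B α β φ ψ) (q : Q) (b : S) (u : ℝ) :
    ‖ρ b u * A q b (e u)‖ ≤ α q * (‖ρ b u‖ * φ b (e u)) := by
  by_cases h : ρ b u = 0
  · rw [h]; simp
  · rw [norm_mul]
    calc ‖ρ b u‖ * ‖A q b (e u)‖ ≤ ‖ρ b u‖ * (α q * φ b (e u)) :=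
          mul_le_mul_of_nonneg_left (R.bA q b _ (R.he b u h)) (norm_nonneg _)
      _ = _ := by ring

theorem PRep.bρB (R : PRep μ D e ρ a A B α β φ ψ) (q : Q) (b : S) (u : ℝ) :
    ‖ρ b u * B q b (e u)‖ ≤ β q * (‖ρ b u‖ * ψ b (e u)) := by
  by_cases h : ρ b u = 0
  · rw [h]; simp
  · rw [norm_mul]
    calc ‖ρ b u‖ * ‖B q b (e u)‖ ≤ ‖ρ b u‖ * (β q * ψ b (e u)) :=
          mul_le_mul_of_nonneg_left (R.bB q b _ (R.he b u h)) (norm_nonneg _)
      _ = _ := by ring

theorem mn_le {g : S → X → ℂ} {κ : ℝ} {χ : S → X → ℝ}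
    (hb : ∀ b u, ‖ρ b u * g b (e u)‖ ≤ κ * (‖ρ b u‖ * χ b (e u)))
    (hi : ∀ b, Integrable fun u => ‖ρ b u‖ * χ b (e u)) :
    ‖mn e ρ g‖ ≤ κ * ∑ b, ∫ u, ‖ρ b u‖ * χ b (e u) := by
  unfold mn
  rw [Finset.mul_sum]
  refine (norm_sum_le _ _).trans (Finset.sum_le_sum fun b _ => ?_)
  rw [← integral_const_mul]
  exact norm_integral_le_of_norm_le ((hi b).const_mul κ) (Filter.Eventually.of_forall (hb b))

theorem mn_meas {G : Q → S → X → ℂ}
    (hj : ∀ b, AEStronglyMeasurable (fun p : Q × ℝ => ρ b p.2 * G p.1 b (e p.2)) (μ.prod volume)) :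
    AEStronglyMeasurable (fun q => mn e ρ (G q)) μ := by
  unfold mn
  exact Finset.aestronglyMeasurable_fun_sum _ fun b _ => (hj b).integral_prod_right'

/-- smearing the second factor -/
theorem PRep.smr1 (R : PRep μ D e ρ a A B α β φ ψ) {b : S} {x : X} (hx : x ∈ D b) :
    Integrable (fun q => A q b x * mn e ρ (B q)) μ ∧
    smr e ρ a b x = ∫ q, A q b x * mn e ρ (B q) ∂μ := by
  have key : ∀ c, Integrable (fun p : Q × ℝ => A p.1 b x * (ρ c p.2 * B p.1 c (e p.2)))
      (μ.prod volume) := by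
    intro c
    have hm : Integrable (fun p : Q × ℝ => (α p.1 * β p.1) * (‖ρ c p.2‖ * ψ c (e p.2)))
        (μ.prod volume) := R.ab.mul_prod (R.iB c)
    refine (hm.const_mul (φ b x)).mono' ?_ (Filter.Eventually.of_forall fun p => ?_)
    · exact ((R.mA b x hx).comp_fst).mul (R.jB c)
    · rw [norm_mul]
      calc ‖A p.1 b x‖ * ‖ρ c p.2 * B p.1 c (e p.2)‖ ≤
            (α p.1 * φ b x) * (β p.1 * (‖ρ c p.2‖ * ψ c (e p.2))) :=
            mul_le_mul (R.bA _ _ _ hx) (R.bρB _ _ _) (norm_nonneg _)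
              ((norm_nonneg _).trans (R.bA _ _ _ hx))
        _ = _ := by ring
  have h1 : ∀ c, Integrable (fun q => A q b x * ∫ u, ρ c u * B q c (e u)) μ := by
    intro c
    refine (key c).integral_prod_left.congr (Filter.Eventually.of_forall fun q => ?_)
    simp only []
    rw [integral_const_mul]
  constructor
  · refine (integrable_finsetSum univ fun c _ => h1 c).congr
      (Filter.Eventually.of_forall fun q => ?_)
    simp only [mn]
    rw [Finset.mul_sum]
  · have h2 : ∀ c, ∫ u, a b c x (e u) * ρ c u =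
        ∫ q, (A q b x * (∫ u, ρ c u * B q c (e u))) ∂μ := by
      intro c
      have e1 : ∀ u, a b c x (e u) * ρ c u = ∫ q, A q b x * (ρ c u * B q c (e u)) ∂μ := by
        intro u
        by_cases h : ρ c u = 0
        · simp [h]
        · rw [R.eq b c x _ hx (R.he c u h), ← integral_mul_const]
          refine integral_congr_ae (Filter.Eventually.of_forall fun q => ?_)
          simp only []
          ring
      have e3 := integral_integral_swap (f := fun q u => A q b x * (ρ c u * B q c (e u))) (key c)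
      simp only [e1]
      rw [← e3]
      refine integral_congr_ae (Filter.Eventually.of_forall fun q => ?_)
      simp only []
      rw [integral_const_mul]
    unfold smr
    rw [Finset.sum_congr rfl fun c _ => h2 c, ← integral_finsetSum _ fun c _ => h1 c]
    refine integral_congr_ae (Filter.Eventually.of_forall fun q => ?_)
    simp only [mn]
    rw [Finset.mul_sum]

/-- smearing the first factor -/
theorem PRep.smr2 (R : PRep μ D e ρ a A B α β φ ψ) {b : S} {x : X} (hx : x ∈ D b) :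
    Integrable (fun q => mn e ρ (A q) * B q b x) μ ∧
    smr e ρ a b x = ∫ q, mn e ρ (A q) * B q b x ∂μ := by
  have R' : PRep μ D e ρ a B A β α ψ φ := by
    refine ⟨fun b c x y hx hy => ?_, R.sym, R.mB, R.mA, R.jB, R.jA, R.bB, R.bA, ?_, R.b0, R.a0,
      R.iB, R.iA, R.he⟩
    · rw [R.sym b c x y hx hy, R.eq c b y x hy hx]
      refine integral_congr_ae (Filter.Eventually.of_forall fun q => ?_)
      simp only []
      ring
    · refine R.ab.congr (Filter.Eventually.of_forall fun q => ?_)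
      simp only []
      ring
  obtain ⟨h1, h2⟩ := R'.smr1 hx
  constructor
  · refine h1.congr (Filter.Eventually.of_forall fun q => ?_)
    simp only []
    ring
  · rw [h2]
    refine integral_congr_ae (Filter.Eventually.of_forall fun q => ?_)
    simp only []
    ring

theorem PRep.dbl_eq (R : PRep μ D e ρ a A B α β φ ψ) :
    Integrable (fun q => mn e ρ (A q) * mn e ρ (B q)) μ ∧
    dbl e ρ a = ∫ q, mn e ρ (A q) * mn e ρ (B q) ∂μ := by
  set m := ∑ b, ∫ u, ‖ρ b u‖ * ψ b (e u) with hm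
  have hB : ∀ q, ‖mn e ρ (B q)‖ ≤ β q * m := fun q => mn_le (R.bρB q) R.iB
  have mB := mn_meas R.jB
  have key : ∀ b, Integrable (fun p : Q × ℝ => (ρ b p.2 * A p.1 b (e p.2)) * mn e ρ (B p.1))
      (μ.prod volume) := by
    intro b
    have h1 : Integrable (fun p : Q × ℝ => (α p.1 * β p.1) * (‖ρ b p.2‖ * φ b (e p.2)))
        (μ.prod volume) := R.ab.mul_prod (R.iA b)
    refine (h1.const_mul m).mono' ((R.jA b).mul mB.comp_fst)
      (Filter.Eventually.of_forall fun p => ?_)
    rw [norm_mul]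
    calc ‖ρ b p.2 * A p.1 b (e p.2)‖ * ‖mn e ρ (B p.1)‖ ≤
          (α p.1 * (‖ρ b p.2‖ * φ b (e p.2))) * (β p.1 * m) :=
          mul_le_mul (R.bρA _ _ _) (hB _) (norm_nonneg _)
            ((norm_nonneg _).trans (R.bρA _ _ _))
      _ = _ := by ring
  have h1 : ∀ b, Integrable (fun q => (∫ u, ρ b u * A q b (e u)) * mn e ρ (B q)) μ := by
    intro b
    refine (key b).integral_prod_left.congr (Filter.Eventually.of_forall fun q => ?_)
    simp only []
    rw [integral_mul_const]
  have e2 : ∀ q, mn e ρ (A q) * mn e ρ (B q) =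
      ∑ b, (∫ u, ρ b u * A q b (e u)) * mn e ρ (B q) := by
    intro q
    rw [← Finset.sum_mul]
    rfl
  constructor
  · exact (integrable_finsetSum univ fun b _ => h1 b).congr
      (Filter.Eventually.of_forall fun q => (e2 q).symm)
  · have h2 : ∀ b, ∫ s, ρ b s * smr e ρ a b (e s) =
        ∫ q, (∫ u, ρ b u * A q b (e u)) * mn e ρ (B q) ∂μ := by
      intro b
      have e1 : ∀ s, ρ b s * smr e ρ a b (e s) =
          ∫ q, (ρ b s * A q b (e s)) * mn e ρ (B q) ∂μ := by
        intro s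
        by_cases h : ρ b s = 0
        · simp [h]
        · rw [(R.smr1 (R.he b s h)).2, ← integral_const_mul]
          refine integral_congr_ae (Filter.Eventually.of_forall fun q => ?_)
          simp only []
          ring
      have e3 := integral_integral_swap
        (f := fun q u => (ρ b u * A q b (e u)) * mn e ρ (B q)) (key b)
      simp only [e1]
      rw [← e3]
      refine integral_congr_ae (Filter.Eventually.of_forall fun q => ?_)
      simp only []
      rw [integral_mul_const]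
    unfold dbl
    rw [Finset.sum_congr rfl fun b _ => h2 b, ← integral_finsetSum _ fun b _ => h1 b]
    exact integral_congr_ae (Filter.Eventually.of_forall fun q => (e2 q).symm)

/-- **the quadratic statistic as an integral of products of linear statistics** -/
theorem nuQ_int (R : PRep μ D e ρ a A B α β φ ψ) (sp : ι → S) {z : ι → X}
    (hz : ∀ i, z i ∈ D (sp i)) :
    Integrable (fun q => nuL e sp ρ (A q) z * nuL e sp ρ (B q) z) μ ∧
    nuQ e sp ρ a z = (1 / 2) * ∫ q, nuL e sp ρ (A q) z * nuL e sp ρ (B q) z ∂μ := by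
  have i0 : ∀ i j, Integrable (fun q => A q (sp i) (z i) * B q (sp j) (z j)) μ := by
    intro i j
    refine (R.ab.mul_const (φ (sp i) (z i) * ψ (sp j) (z j))).mono'
      ((R.mA _ _ (hz i)).mul (R.mB _ _ (hz j))) (Filter.Eventually.of_forall fun q => ?_)
    rw [norm_mul]
    calc ‖A q (sp i) (z i)‖ * ‖B q (sp j) (z j)‖ ≤
          (α q * φ (sp i) (z i)) * (β q * ψ (sp j) (z j)) :=
          mul_le_mul (R.bA _ _ _ (hz i)) (R.bB _ _ _ (hz j)) (norm_nonneg _)
            ((norm_nonneg _).trans (R.bA _ _ _ (hz i)))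
      _ = _ := by ring
  have i1 : Integrable (fun q => ∑ i, ∑ j, A q (sp i) (z i) * B q (sp j) (z j)) μ :=
    integrable_finsetSum _ fun i _ => integrable_finsetSum _ fun j _ => i0 i j
  have i2 : Integrable (fun q => ∑ i, A q (sp i) (z i) * mn e ρ (B q)) μ :=
    integrable_finsetSum _ fun i _ => (R.smr1 (hz i)).1
  have i3 : Integrable (fun q => ∑ i, mn e ρ (A q) * B q (sp i) (z i)) μ :=
    integrable_finsetSum _ fun i _ => (R.smr2 (hz i)).1
  have i4 := R.dbl_eq.1
  have ee : ∀ q, nuL e sp ρ (A q) z * nuL e sp ρ (B q) z =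
      (∑ i, ∑ j, A q (sp i) (z i) * B q (sp j) (z j)) - (∑ i, A q (sp i) (z i) * mn e ρ (B q)) -
        (∑ i, mn e ρ (A q) * B q (sp i) (z i)) + mn e ρ (A q) * mn e ρ (B q) := by
    intro q
    have e1 : nuL e sp ρ (A q) z = ∑ i, A q (sp i) (z i) - mn e ρ (A q) := rfl
    have e2 : nuL e sp ρ (B q) z = ∑ i, B q (sp i) (z i) - mn e ρ (B q) := rfl
    have e3 : ∑ i, ∑ j, A q (sp i) (z i) * B q (sp j) (z j) =
        (∑ i, A q (sp i) (z i)) * ∑ j, B q (sp j) (z j) := by
      rw [Finset.sum_mul_sum]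
    rw [e1, e2, e3, ← Finset.sum_mul, ← Finset.mul_sum]
    ring
  have I := ((i1.sub i2).sub i3).add i4
  have hI : Integrable (fun q => nuL e sp ρ (A q) z * nuL e sp ρ (B q) z) μ :=
    I.congr (Filter.Eventually.of_forall fun q => by
      simp only [Pi.add_apply, Pi.sub_apply]
      rw [ee])
  refine ⟨hI, ?_⟩
  have s1 : ∫ q, (∑ i, ∑ j, A q (sp i) (z i) * B q (sp j) (z j)) ∂μ =
      ∑ i, ∑ j, a (sp i) (sp j) (z i) (z j) := by
    rw [integral_finsetSum _ fun i _ => integrable_finsetSum _ fun j _ => i0 i j]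
    refine Finset.sum_congr rfl fun i _ => ?_
    rw [integral_finsetSum _ fun j _ => i0 i j]
    exact Finset.sum_congr rfl fun j _ => (R.eq _ _ _ _ (hz i) (hz j)).symm
  have s2 : ∫ q, (∑ i, A q (sp i) (z i) * mn e ρ (B q)) ∂μ = ∑ i, smr e ρ a (sp i) (z i) := by
    rw [integral_finsetSum _ fun i _ => (R.smr1 (hz i)).1]
    exact Finset.sum_congr rfl fun i _ => ((R.smr1 (hz i)).2).symm
  have s3 : ∫ q, (∑ i, mn e ρ (A q) * B q (sp i) (z i)) ∂μ = ∑ i, smr e ρ a (sp i) (z i) := by
    rw [integral_finsetSum _ fun i _ => (R.smr2 (hz i)).1]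
    exact Finset.sum_congr rfl fun i _ => ((R.smr2 (hz i)).2).symm
  have s4 := R.dbl_eq.2
  have s5 : ∫ q, nuL e sp ρ (A q) z * nuL e sp ρ (B q) z ∂μ =
      ∑ i, ∑ j, a (sp i) (sp j) (z i) (z j) - ∑ i, smr e ρ a (sp i) (z i) -
        ∑ i, smr e ρ a (sp i) (z i) + dbl e ρ a := by
    rw [integral_congr_ae (Filter.Eventually.of_forall ee)]
    have t1 := integral_add ((i1.sub i2).sub i3) i4
    have t2 := integral_sub (i1.sub i2) i3
    have t3 := integral_sub i1 i2
    simp only [Pi.sub_apply] at t1 t2 t3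
    rw [t1, t2, t3, s1, s2, s3, s4]
  rw [s5]
  unfold nuQ
  ring

/-- the kernels are integrable against the densities -/
theorem PRep.qid (R : PRep μ D e ρ a A B α β φ ψ)
    (hm : ∀ b c x, x ∈ D b → AEStronglyMeasurable (fun u => a b c x (e u) * ρ c u) volume) :
    QID D e ρ a where
  one b c x hx := by
    have hab : 0 ≤ ∫ q, α q * β q ∂μ := integral_nonneg fun q => mul_nonneg (R.a0 q) (R.b0 q)
    refine ((R.iB c).const_mul ((∫ q, α q * β q ∂μ) * φ b x)).mono' (hm b c x hx)
      (Filter.Eventually.of_forall fun u => ?_)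
    by_cases h : ρ c u = 0
    · simp [h]
    · rw [R.eq b c x _ hx (R.he c u h), norm_mul]
      have h1 : ‖∫ q, A q b x * B q c (e u) ∂μ‖ ≤ ∫ q, α q * β q * (φ b x * ψ c (e u)) ∂μ := by
        refine norm_integral_le_of_norm_le (R.ab.mul_const _)
          (Filter.Eventually.of_forall fun q => ?_)
        rw [norm_mul]
        calc ‖A q b x‖ * ‖B q c (e u)‖ ≤ (α q * φ b x) * (β q * ψ c (e u)) :=
              mul_le_mul (R.bA _ _ _ hx) (R.bB _ _ _ (R.he c u h)) (norm_nonneg _)
                ((norm_nonneg _).trans (R.bA _ _ _ hx))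
          _ = _ := by ring
      rw [integral_mul_const] at h1
      calc _ ≤ ((∫ q, α q * β q ∂μ) * (φ b x * ψ c (e u))) * ‖ρ c u‖ :=
            mul_le_mul_of_nonneg_right h1 (norm_nonneg _)
        _ = _ := by ring
  two b := by
    set m := ∑ b, ∫ u, ‖ρ b u‖ * ψ b (e u) with hm'
    have hB : ∀ q, ‖mn e ρ (B q)‖ ≤ β q * m := fun q => mn_le (R.bρB q) R.iB
    have mB := mn_meas R.jB
    have key : Integrable (fun p : Q × ℝ => (ρ b p.2 * A p.1 b (e p.2)) * mn e ρ (B p.1))
        (μ.prod volume) := by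
      have h1 : Integrable (fun p : Q × ℝ => (α p.1 * β p.1) * (‖ρ b p.2‖ * φ b (e p.2)))
          (μ.prod volume) := R.ab.mul_prod (R.iA b)
      refine (h1.const_mul m).mono' ((R.jA b).mul mB.comp_fst)
        (Filter.Eventually.of_forall fun p => ?_)
      rw [norm_mul]
      calc ‖ρ b p.2 * A p.1 b (e p.2)‖ * ‖mn e ρ (B p.1)‖ ≤
            (α p.1 * (‖ρ b p.2‖ * φ b (e p.2))) * (β p.1 * m) :=
            mul_le_mul (R.bρA _ _ _) (hB _) (norm_nonneg _)
              ((norm_nonneg _).trans (R.bρA _ _ _))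
        _ = _ := by ring
    refine key.integral_prod_right.congr (Filter.Eventually.of_forall fun s => ?_)
    simp only []
    by_cases h : ρ b s = 0
    · simp [h]
    · rw [(R.smr1 (R.he b s h)).2, ← integral_const_mul]
      refine integral_congr_ae (Filter.Eventually.of_forall fun q => ?_)
      simp only []
      ring

end rep

/-! ### the two channels -/

/-- statistics of the quanta: sum of the species -/
def nuP (e : ℝ → X) (sp : ι → S) (ρ : S → ℝ → ℂ) (A : S → Prop) (g : X → ℂ) (z : ι → X) : ℂ :=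
  nuL e sp ρ (fun b x => if A b then g x else 0) z

/-- statistics of the quanta: difference of the species -/
def nuM (e : ℝ → X) (sp : ι → S) (ρ : S → ℝ → ℂ) (A : S → Prop) (σ : S → ℂ) (g : X → ℂ)
    (z : ι → X) : ℂ := nuL e sp ρ (fun b x => if A b then σ b * g x else 0) z

/-- **the two channels** -/
theorem nuQ_chan {D : S → Set X} {e : ℝ → X} (sp : ι → S) {ρ : S → ℝ → ℂ}
    {a : S → S → X → X → ℂ} {A : S → Prop} {σ : S → ℂ} {kp km : X → X → ℂ}
    (he : ∀ b u, ρ b u ≠ 0 → e u ∈ D b)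
    (ha : ∀ b c x y, A b → A c → x ∈ D b → y ∈ D c →
      a b c x y = (1 / 2) * (kp x y + σ b * σ c * km x y))
    (hp : QID D e ρ fun b c x y => if A b ∧ A c then kp x y else 0)
    (hm : QID D e ρ fun b c x y => if A b ∧ A c then σ b * σ c * km x y else 0)
    {z : ι → X} (hz : ∀ i, z i ∈ D (sp i)) :
    nuQ e sp ρ (rA A a) z =
      (1 / 2) * nuQ e sp ρ (fun b c x y => if A b ∧ A c then kp x y else 0) z +
      (1 / 2) * nuQ e sp ρ (fun b c x y => if A b ∧ A c then σ b * σ c * km x y else 0) z := by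
  rw [← nuQ_smul, ← nuQ_smul, ← nuQ_addD sp he (hp.smul _) (hm.smul _) hz]
  refine (nuQ_cD he (rA A a) hz).symm.trans (Eq.trans ?_ (nuQ_cD he
    (fun b c x y => (1 / 2 : ℂ) * (if A b ∧ A c then kp x y else 0) +
      (1 / 2 : ℂ) * (if A b ∧ A c then σ b * σ c * km x y else 0)) hz))
  congr 1
  funext b c x y
  unfold cD rA
  by_cases h : x ∈ D b ∧ y ∈ D c
  · simp only [if_pos h]
    by_cases h' : A b ∧ A c
    · simp only [if_pos h', ha b c x y h'.1 h'.2 h.1 h.2]
      ring
    · simp only [if_neg h']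
      ring
  · simp only [if_neg h]

end NX

end PB

end
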