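import Pool.Agent.PB.ObKer
import Pool.Agent.PB.NormY
import Pool.Agent.PB.Sig
import Pool.Agent.PB.EAbs
import Pool.Agent.PB.I1E

/-!
# Plan B: the local parts of the pair kernels with an object, as one integral of products

Index `q = (((b', c'), side), s)`: the pair of kinds, side of the strip of the second particle,
height; measure `muO`.

* `aO`: the local part `lK` of the pairs of kinds with at least one object, `0` on pairs of quanta;
* `aO_int`: `aO b c z z' = ∫ q, A3 q b z * B3 q c z'`;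
* **`rep3`**: the instance of `NX.PRep`;
* `A3_tc`, `B3_tc`: the quanta kinds as test functions.
-/

set_option autoImplicit false
set_option linter.unusedSectionVars false
set_option linter.unusedVariables false

noncomputable section

open Complex MeasureTheory Set
open scoped Classical

namespace PBOb

open NUP1 NUP1.Bd NUP1S PBI PB

/-! ## the index space -/

/-- the index space -/
abbrev IxO : Type := Σ _ : (PBI.Kd × PBI.Kd) × Bool, ℝ

/-- the measure on the index space -/
def muO : Measure IxO := PBFunc.sig fun _ => volume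

instance : SFinite muO := by unfold muO; infer_instance

/-- pair with an object -/
def hasO (p : PBI.Kd × PBI.Kd) : Prop := ¬(p.1.2 = none ∧ p.2.2 = none)

/-- the edge of the strip of the second particle -/
def ed (i : (PBI.Kd × PBI.Kd) × Bool) : ℝ := if i.2 then hi i.1.2.2 else lo i.1.2.2

/-- the sign -/
def eds (i : (PBI.Kd × PBI.Kd) × Bool) : ℝ := if i.2 then -1 else 1

theorem ed_or (i : (PBI.Kd × PBI.Kd) × Bool) : ed i = lo i.1.2.2 ∨ ed i = hi i.1.2.2 := by
  unfold ed
  split_ifs
  · exact Or.inr rfl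
  · exact Or.inl rfl

theorem eds_or (i : (PBI.Kd × PBI.Kd) × Bool) : eds i = 1 ∨ eds i = -1 := by
  unfold eds
  split_ifs
  · exact Or.inr rfl
  · exact Or.inl rfl

/-- the local part of the pairs with an object -/
def aO (X : ℂ → ℂ) (xp xm : ℂ) (b c : PBI.Kd) (z w : ℂ) : ℂ :=
  if b.2 = none ∧ c.2 = none then 0 else lK X xp xm b c z w

theorem aO_symm (X : ℂ → ℂ) (xp xm : ℂ) (b c : PBI.Kd) (z w : ℂ) :
    aO X xp xm b c z w = aO X xp xm c b w z := by
  unfold aO
  by_cases h : b.2 = none ∧ c.2 = none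
  · rw [if_pos h, if_pos h.symm]
  · rw [if_neg h, if_neg fun h' => h h'.symm, lK_symm]

/-- the first factor -/
def A3 (X : ℂ → ℂ) (xp xm : ℂ) (q : IxO) (b : PBI.Kd) (z : ℂ) : ℂ :=
  if b = q.1.1.1 ∧ hasO q.1.1 then Af X xp xm q.1.1.1 q.1.1.2 (ed q.1) q.2 z else 0

/-- the second factor -/
def B3 (q : IxO) (c : PBI.Kd) (w : ℂ) : ℂ :=
  if c = q.1.1.2 ∧ hasO q.1.1 then Bf (eds q.1) (ed q.1) q.2 w else 0

/-- closed strips inside the strips of the heads -/
def DQ (b : PBI.Kd) : Set ℂ :=
  {z | lo b.2 + 1 / 50 * l ≤ z.re ∧ z.re ≤ hi b.2 - 1 / 50 * l}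

theorem DQ_sub (b : PBI.Kd) : DQ b ⊆ Str b.2 := by
  have hl := Bd.l_pos
  rintro z ⟨h1, h2⟩
  exact ⟨by linarith, by linarith⟩

/-! ## measurability -/

theorem measurable_lK' {X : ℂ → ℂ} (hX : Measurable X) (xp xm : ℂ) (b c : PBI.Kd)
    {α : Type*} [MeasurableSpace α] {f g : α → ℂ} (hf : Measurable f) (hg : Measurable g) :
    Measurable fun a => lK X xp xm b c (f a) (g a) := by
  have h := (measurable_lK hX xp xm b c).comp (hf.prodMk hg)
  have e : (fun p : ℂ × ℂ => lK X xp xm b c p.1 p.2) ∘ (fun a => (f a, g a)) =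
      fun a => lK X xp xm b c (f a) (g a) := by
    funext a
    simp only [Function.comp]
  rw [e] at h
  exact h

attribute [local irreducible] lK

theorem measurable_Af' {X : ℂ → ℂ} (hX : Measurable X) (xp xm : ℂ) (b c : PBI.Kd) (y : ℝ)
    {α : Type*} [MeasurableSpace α] {f : α → ℝ} {g : α → ℂ} (hf : Measurable f)
    (hg : Measurable g) : Measurable fun a => Af X xp xm b c y (f a) (g a) := by
  unfold Af
  refine measurable_lK' hX xp xm b c hg ?_
  unfold vl
  exact (measurable_const).add ((Complex.measurable_ofReal.comp hf).mul_const _)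

theorem measurable_Bf' (σ y : ℝ) {α : Type*} [MeasurableSpace α] {f : α → ℝ} {g : α → ℂ}
    (hf : Measurable f) (hg : Measurable g) : Measurable fun a => Bf σ y (f a) (g a) := by
  have h := (PBV.bE_measurable 10 σ (-y)).comp (hf.prodMk (hg.const_mul (-I)))
  have e : (fun q : ℝ × ℂ => PBV.bE 10 σ (-y) q.1 q.2) ∘ (fun a => (f a, -I * g a)) =
      fun a => Bf σ y (f a) (g a) := by
    funext a
    simp only [Function.comp, Bf]
  rw [e] at h
  exact h

/-- functions on the index space times a parameter -/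
theorem meas_IxO {β γ : Type*} [MeasurableSpace β] [MeasurableSpace γ] {f : IxO × β → γ}
    (h : ∀ i, Measurable fun p : ℝ × β => f (⟨i, p.1⟩, p.2)) : Measurable f := by
  intro s hs
  -- the preimage is a finite union over the pieces
  have e : f ⁻¹' s = ⋃ i, (fun p : ℝ × β => ((⟨i, p.1⟩, p.2) : IxO × β)) ''
      ((fun p : ℝ × β => f (⟨i, p.1⟩, p.2)) ⁻¹' s) := by
    ext ⟨⟨i, t⟩, b⟩
    simp only [mem_preimage, mem_iUnion, mem_image]
    constructor
    · intro hp
      exact ⟨i, (t, b), hp, rfl⟩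
    · rintro ⟨j, ⟨t', b'⟩, hp, he⟩
      have h1 : (⟨j, t'⟩ : IxO) = ⟨i, t⟩ := (Prod.ext_iff.1 he).1
      have h2 : b' = b := (Prod.ext_iff.1 he).2
      simp only at hp
      rw [h1, h2] at hp
      exact hp
  rw [e]
  refine MeasurableSet.iUnion fun i => ?_
  have h1 := PBFunc.emb_mk (X := fun _ : (PBI.Kd × PBI.Kd) × Bool => ℝ) i
  have h2 : MeasurableEmbedding (id : β → β) := MeasurableEmbedding.id
  have hemb := h1.prodMap h2
  exact hemb.measurableSet_image.2 (h i hs)

theorem measurable_A3 {X : ℂ → ℂ} (hX : Measurable X) (xp xm : ℂ) (b : PBI.Kd) :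
    Measurable fun p : IxO × ℂ => A3 X xp xm p.1 b p.2 := by
  refine meas_IxO fun i => ?_
  simp only [A3]
  by_cases h : b = i.1.1 ∧ hasO i.1
  · simp only [h, and_self, if_true]
    exact measurable_Af' hX xp xm _ _ _ measurable_fst measurable_snd
  · simp only [h, if_false]
    exact measurable_const

theorem measurable_B3 (c : PBI.Kd) : Measurable fun p : IxO × ℂ => B3 p.1 c p.2 := by
  refine meas_IxO fun i => ?_
  simp only [B3]
  by_cases h : c = i.1.2 ∧ hasO i.1
  · simp only [h, and_self, if_true]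
    exact measurable_Bf' _ _ measurable_fst measurable_snd
  · simp only [h, if_false]
    exact measurable_const

/-! ## bounds -/

/-- the size of the first factor -/
def alO (C : ℝ) (q : IxO) : ℝ := cL * C * Real.exp (-2 * |q.2|)

/-- the size of the second factor -/
def beO (a : ℝ) (q : IxO) : ℝ := PBV.cE 10 (1 / 50 * l) * Real.exp (a * |q.2|)

theorem cE_pos' : 0 < PBV.cE 10 (1 / 50 * l) := by
  have hl := Bd.l_pos
  refine PBV.cE_pos (by norm_num) (by positivity) ?_
  unfold l
  linarith [Real.pi_pos]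

theorem alO_nonneg {C : ℝ} (hC : 0 ≤ C) (q : IxO) : 0 ≤ alO C q := by
  have := cL_nonneg
  unfold alO
  positivity

theorem beO_nonneg (a : ℝ) (q : IxO) : 0 ≤ beO a q := by
  have := cE_pos'
  unfold beO
  positivity

theorem norm_A3_le {X : ℂ → ℂ} {xp xm : ℂ} {M : ℝ} (h : FX X xp xm M) (q : IxO)
    {b : PBI.Kd} {z : ℂ} (hz : z ∈ Str b.2) :
    ‖A3 X xp xm q b z‖ ≤ alO (‖xp - xm‖ + M) q * Real.exp (-2 * |z.im|) := by
  have hM := h.M_nonneg
  unfold A3
  by_cases hc : b = q.1.1.1 ∧ hasO q.1.1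
  · rw [if_pos hc]
    have hz' : z ∈ Str q.1.1.1.2 := by rw [← hc.1]; exact hz
    refine (norm_Af_le h (ed_or q.1) q.2 hz').trans (le_of_eq ?_)
    unfold alO
    ring
  · rw [if_neg hc, norm_zero]
    have := alO_nonneg (C := ‖xp - xm‖ + M) (by positivity) q
    positivity

theorem norm_B3_le {a : ℝ} (ha0 : 0 ≤ a) (ha : a ≤ 10) (q : IxO) {c : PBI.Kd} {z : ℂ}
    (hz : z ∈ DQ c) : ‖B3 q c z‖ ≤ beO a q * Real.exp (-a * |z.im|) := by
  have hl := Bd.l_pos
  have h0 := cE_pos'
  unfold B3
  by_cases h : c = q.1.1.2 ∧ hasO q.1.1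
  · rw [if_pos h]
    have hz' := hz
    rw [h.1] at hz'
    refine (norm_Bf_le (by positivity) (eds_or q.1) (ed_or q.1) q.2 hz'.1 hz'.2).trans ?_
    unfold beO
    rw [mul_assoc, ← Real.exp_add]
    refine mul_le_mul_of_nonneg_left (Real.exp_le_exp.2 ?_) h0.le
    have h1 : |z.im| ≤ |q.2| + |q.2 - z.im| := by
      have := abs_sub_abs_le_abs_sub z.im q.2
      rw [abs_sub_comm] at this
      linarith
    have h2 : a * |z.im| ≤ a * |q.2| + a * |q.2 - z.im| := by nlinarith
    have h3 : a * |q.2 - z.im| ≤ 10 * |q.2 - z.im| :=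
      mul_le_mul_of_nonneg_right ha (abs_nonneg _)
    linarith
  · rw [if_neg h, norm_zero]
    have := beO_nonneg a q
    positivity

/-! ## the representation -/

/-- the piece `(b, c)` of the index space -/
theorem aO_int {X : ℂ → ℂ} {xp xm : ℂ} {M : ℝ} (h : FX X xp xm M) {b c : PBI.Kd} {z w : ℂ}
    (hz : z ∈ Str b.2) (hw : w ∈ DQ c) :
    Integrable (fun q => A3 X xp xm q b z * B3 q c w) muO ∧
    aO X xp xm b c z w = ∫ q, A3 X xp xm q b z * B3 q c w ∂muO := by
  have hl := Bd.l_pos
  obtain ⟨k1, k2, k3⟩ := lK_decomp (c := c) h hz (by linarith [hw.1]) (by linarith [hw.2])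
  have e0 : ∀ i : (PBI.Kd × PBI.Kd) × Bool, i.1 ≠ (b, c) ∨ ¬ hasO i.1 →
      (fun s : ℝ => A3 X xp xm ⟨i, s⟩ b z * B3 ⟨i, s⟩ c w) = fun _ => 0 := by
    intro i hi
    funext s
    unfold A3 B3
    by_cases h1 : b = i.1.1 ∧ hasO i.1
    · by_cases h2 : c = i.1.2 ∧ hasO i.1
      · exfalso
        rcases hi with hi | hi
        · exact hi (Prod.ext h1.1.symm h2.1.symm)
        · exact hi h1.2
      · rw [if_neg h2, mul_zero]
    · rw [if_neg h1, zero_mul]
  have e1 : ∀ u : Bool, hasO (b, c) →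
      (fun s : ℝ => A3 X xp xm ⟨((b, c), u), s⟩ b z * B3 ⟨((b, c), u), s⟩ c w) =
      fun s => Af X xp xm b c (ed ((b, c), u)) s z * Bf (eds ((b, c), u)) (ed ((b, c), u)) s w := by
    intro u ho
    funext s
    unfold A3 B3
    rw [if_pos ⟨rfl, ho⟩, if_pos ⟨rfl, ho⟩]
  have hI : ∀ i : (PBI.Kd × PBI.Kd) × Bool,
      Integrable fun s : ℝ => A3 X xp xm ⟨i, s⟩ b z * B3 ⟨i, s⟩ c w := by
    rintro ⟨p, u⟩
    by_cases hp : p = (b, c)
    · subst hp
      by_cases ho : hasO (b, c)
      · rw [e1 u ho]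
        cases u
        · exact k2
        · exact k1
      · rw [e0 _ (Or.inr ho)]
        exact integrable_zero _ _ _
    · rw [e0 _ (Or.inl hp)]
      exact integrable_zero _ _ _
  refine ⟨PBFunc.integrable_sig.2 hI, ?_⟩
  unfold muO
  rw [PBFunc.integral_sig hI, Fintype.sum_prod_type, Finset.sum_eq_single (b, c)]
  · rw [Fintype.sum_bool]
    by_cases ho : hasO (b, c)
    · rw [e1 true ho, e1 false ho]
      unfold aO
      rw [if_neg ho, k3]
      rfl
    · rw [e0 _ (Or.inr ho), e0 _ (Or.inr ho)]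
      unfold aO
      have ho' : b.2 = none ∧ c.2 = none := not_not.1 ho
      rw [if_pos ho']
      simp
  · intro p _ hp
    refine Finset.sum_eq_zero fun u _ => ?_
    rw [e0 _ (Or.inl hp)]
    simp
  · intro hc
    exact absurd (Finset.mem_univ _) hc

/-- total mass of the representation -/
theorem ab_integrable {a : ℝ} (ha : a < 2) (C : ℝ) : Integrable (fun q => alO C q * beO a q) muO := by
  have h1 : Integrable (fun q : IxO => ((alO C q * beO a q : ℝ) : ℂ)) muO := by
    refine PBFunc.integrable_sig.2 fun i => ?_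
    have h2 : Integrable fun s : ℝ => Real.exp (-((2 - a) * |s|)) := by
      have := (PBV.int_exp_abs_shift (c := 2 - a) (by linarith) 0).1
      simpa using this
    have h3 := (h2.const_mul (cL * C * PBV.cE 10 (1 / 50 * l))).ofReal (𝕜 := ℂ)
    refine h3.congr (Filter.Eventually.of_forall fun s => ?_)
    have e : Real.exp (-((2 - a) * |s|)) = Real.exp (-2 * |s|) * Real.exp (a * |s|) := by
      rw [← Real.exp_add]
      congr 1
      ring
    have e2 : cL * C * PBV.cE 10 (1 / 50 * l) * Real.exp (-((2 - a) * |s|)) =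
        alO C ⟨i, s⟩ * beO a ⟨i, s⟩ := by
      unfold alO beO
      rw [e]
      ring
    exact congrArg Complex.ofReal e2
  have h4 := h1.re
  simpa using h4

/-- **the instance of `NX.PRep`**: pairs of kinds with an object -/
theorem rep3 {X : ℂ → ℂ} {xp xm : ℂ} {M : ℝ} (hX : Measurable X) (h : FX X xp xm M)
    {D : PBI.Kd → Set ℂ} (hD : ∀ b, D b ⊆ DQ b) {ρ : PBI.Kd → ℝ → ℂ} (hρ : ∀ b, Integrable (ρ b))
    (hρ0 : ∀ s k u, ρ (s, some k) u = 0) (hl : ∀ s u, vl l u ∈ D (s, none)) {a : ℝ}
    (ha0 : 0 ≤ a) (ha : a < 2) :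
    NX.PRep muO D (vl l) ρ (aO X xp xm) (A3 X xp xm) B3 (alO (‖xp - xm‖ + M)) (beO a)
      (fun _ z => Real.exp (-2 * |z.im|)) (fun _ z => Real.exp (-a * |z.im|)) := by
  have hM := h.M_nonneg
  have hvl : Measurable fun t : ℝ => vl l t := by
    unfold vl
    fun_prop
  have hbd : ∀ c : ℝ, 0 ≤ c → ∀ t : ℝ, Real.exp (-c * |(vl l t).im|) ≤ 1 := by
    intro c hc t
    rw [Real.exp_le_one_iff]
    nlinarith [abs_nonneg (vl l t).im]
  have hint : ∀ (b : PBI.Kd) (c : ℝ), 0 ≤ c →
      Integrable fun u => ‖ρ b u‖ * Real.exp (-c * |(vl l u).im|) := by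
    intro b c hc
    refine (hρ b).norm.mono' ?_ (Filter.Eventually.of_forall fun u => ?_)
    · refine (hρ b).1.norm.mul ?_
      have h1 : Measurable fun u : ℝ => Real.exp (-c * |(vl l u).im|) := by
        have h2 : Measurable fun u : ℝ => (vl l u).im := Complex.measurable_im.comp hvl
        exact Real.measurable_exp.comp ((h2.abs).const_mul _)
      exact h1.aestronglyMeasurable
    · rw [norm_mul, norm_norm, Real.norm_of_nonneg (Real.exp_pos _).le]
      exact mul_le_of_le_one_right (norm_nonneg _) (hbd c hc u)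
  refine ⟨?_, ?_, ?_, ?_, ?_, ?_, ?_, ?_, ?_, ?_, ?_, ?_, ?_, ?_⟩
  · intro b c x y hx hy
    exact (aO_int h (DQ_sub b (hD b hx)) (hD c hy)).2
  · intro b c x y _ _
    exact aO_symm X xp xm b c x y
  · intro b x _
    exact ((measurable_A3 hX xp xm b).comp
      (measurable_id.prodMk measurable_const)).aestronglyMeasurable
  · intro b x _
    exact ((measurable_B3 b).comp (measurable_id.prodMk measurable_const)).aestronglyMeasurable
  · intro b
    have h1 : Measurable fun p : IxO × ℝ => A3 X xp xm p.1 b (vl l p.2) :=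
      (measurable_A3 hX xp xm b).comp (measurable_fst.prodMk (hvl.comp measurable_snd))
    exact ((hρ b).1.comp_snd).mul h1.aestronglyMeasurable
  · intro b
    have h1 : Measurable fun p : IxO × ℝ => B3 p.1 b (vl l p.2) :=
      (measurable_B3 b).comp (measurable_fst.prodMk (hvl.comp measurable_snd))
    exact ((hρ b).1.comp_snd).mul h1.aestronglyMeasurable
  · intro q b x hx
    exact norm_A3_le h q (DQ_sub b (hD b hx))
  · intro q b x hx
    exact norm_B3_le ha0 (by linarith) q (hD b hx)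
  · exact ab_integrable ha _
  · exact fun q => alO_nonneg (by positivity) q
  · exact fun q => beO_nonneg a q
  · exact fun b => hint b 2 (by norm_num)
  · exact fun b => hint b a ha0
  · rintro ⟨s, k⟩ u hu
    cases k with
    | none => exact hl s u
    | some k => exact absurd (hρ0 s k u) hu

/-! ## the quanta kinds as test functions -/

theorem Sp_mem {w : ℂ} (hw : w ∈ PBE.Sp (-(l / 10)) (9 / 20 * l)) :
    l + I * w ∈ DQ (true, none) ∧ (l + I * w).im = w.re := by
  have hl := Bd.l_pos
  obtain ⟨h1, h2⟩ := hw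
  have e1 : (l + I * w : ℂ).re = l - w.im := by simp [sub_eq_add_neg]
  have e2 : (l + I * w : ℂ).im = w.re := by simp
  refine ⟨?_, e2⟩
  show lo none + 1 / 50 * l ≤ (l + I * w).re ∧ (l + I * w).re ≤ hi none - 1 / 50 * l
  rw [e1]
  simp only [lo, hi]
  constructor <;> linarith

theorem isOpen_Sp (a b : ℝ) : IsOpen (PBE.Sp a b) :=
  (isOpen_lt continuous_const continuous_im).inter (isOpen_lt continuous_im continuous_const)

/-- analytic in the first variable -/
theorem lK_diff' {X : ℂ → ℂ} (hX : DifferentiableOn ℂ X FS) (xp xm : ℂ) {b c : PBI.Kd} {z z' : ℂ}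
    (hz : z ∈ Str b.2) (hz' : z' ∈ Str c.2) :
    DifferentiableAt ℂ (fun z => lK X xp xm b c z z') z := by
  have e : (fun z => lK X xp xm b c z z') = lK X xp xm c b z' := funext fun z => lK_symm X xp xm b c z z'
  rw [e]
  exact lK_diff hX xp xm hz' hz

theorem ed_mem (i : (PBI.Kd × PBI.Kd) × Bool) (s : ℝ) : vl (ed i) s ∈ Str i.1.2.2 := by
  have hl := Bd.l_pos
  have hle : lo i.1.2.2 ≤ hi i.1.2.2 := by
    rcases i.1.2.2 with _ | (_ | _ | _) <;> simp only [lo, hi] <;> linarith
  have e1 : (vl (ed i) s).re = ed i := by simp [vl]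
  show lo i.1.2.2 ≤ (vl (ed i) s).re ∧ (vl (ed i) s).re ≤ hi i.1.2.2
  rw [e1]
  rcases ed_or i with h | h <;> rw [h]
  · exact ⟨le_rfl, hle⟩
  · exact ⟨hle, le_rfl⟩

/-- the first factor is analytic on the strips -/
theorem A3_diff {X : ℂ → ℂ} (hX : DifferentiableOn ℂ X FS) (xp xm : ℂ) (q : IxO) (b : PBI.Kd) {z : ℂ}
    (hz : z ∈ Str b.2) : DifferentiableAt ℂ (A3 X xp xm q b) z := by
  by_cases hc : b = q.1.1.1 ∧ hasO q.1.1
  · have e : A3 X xp xm q b = fun z => lK X xp xm q.1.1.1 q.1.1.2 z (vl (ed q.1) q.2) := by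
      funext z
      unfold A3
      rw [if_pos hc]
      rfl
    rw [e]
    exact lK_diff' hX xp xm (by rw [← hc.1]; exact hz) (ed_mem q.1 q.2)
  · have e : A3 X xp xm q b = fun _ => 0 := by
      funext z
      unfold A3
      rw [if_neg hc]
    rw [e]
    exact differentiableAt_const _

/-- the second factor is analytic inside the strips -/
theorem B3_diff (q : IxO) (c : PBI.Kd) {w : ℂ} (h1 : lo c.2 < w.re) (h2 : w.re < hi c.2) :
    DifferentiableAt ℂ (B3 q c) w := by
  by_cases hc : c = q.1.1.2 ∧ hasO q.1.1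
  · have e : B3 q c = fun w => PBV.bE 10 (eds q.1) (-(ed q.1)) q.2 (-I * w) := by
      funext z
      unfold B3
      rw [if_pos hc]
      rfl
    rw [e]
    have hw : -I * w ∈ PBV.So (-hi c.2) (-lo c.2) := by
      constructor
      · rw [(Bf_arg w).2]; linarith
      · rw [(Bf_arg w).2]; linarith
    have key := PBV.bE_differentiableOn (α := 10) (y₁ := -hi c.2) (y₂ := -lo c.2) (σ := eds q.1)
      (y := -(ed q.1)) (s := q.2) (by norm_num) (width_lt c.2) (by
        rcases ed_or q.1 with h | h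
        · right; rw [h, ← hc.1]
        · left; rw [h, ← hc.1])
    exact ((key _ hw).differentiableAt ((PBV.isOpen_So _ _).mem_nhds hw)).comp w (by fun_prop)
  · have e : B3 q c = fun _ => 0 := by
      funext z
      unfold B3
      rw [if_neg hc]
    rw [e]
    exact differentiableAt_const _

/-- the quanta kinds of the first factor are test functions -/
theorem A3_tc {X : ℂ → ℂ} {xp xm : ℂ} {M : ℝ} (h : FX X xp xm M) {a : ℝ} (ha : a ≤ 2) (q : IxO)
    (s : Bool) : PBE.TC (-(l / 10)) (9 / 20 * l) a (alO (‖xp - xm‖ + M) q)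
      (fun w => A3 X xp xm q (s, none) (l + I * w)) := by
  have hM := h.M_nonneg
  constructor
  · intro w hw
    obtain ⟨h1, -⟩ := Sp_mem hw
    have h2 : l + I * w ∈ Str (s, (none : Option O3)).2 := DQ_sub (true, none) h1
    have h3 := (A3_diff h.dif xp xm q (s, none) h2).comp w
      (show DifferentiableAt ℂ (fun w : ℂ => (l : ℂ) + I * w) w by fun_prop)
    exact h3.differentiableWithinAt
  · intro w hw
    obtain ⟨h1, h0⟩ := Sp_mem hw
    have h2 : l + I * w ∈ Str (s, (none : Option O3)).2 := DQ_sub (true, none) h1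
    have h3 := norm_A3_le h q (b := (s, none)) h2
    rw [h0] at h3
    refine h3.trans (mul_le_mul_of_nonneg_left (Real.exp_le_exp.2 ?_)
      (alO_nonneg (by positivity) q))
    nlinarith [abs_nonneg w.re]

/-- the quanta kinds of the second factor are test functions -/
theorem B3_tc {a : ℝ} (ha0 : 0 ≤ a) (ha : a ≤ 10) (q : IxO) (s : Bool) :
    PBE.TC (-(l / 10)) (9 / 20 * l) a (beO a q) (fun w => B3 q (s, none) (l + I * w)) := by
  have hl := Bd.l_pos
  constructor
  · intro w hw
    obtain ⟨h1, -⟩ := Sp_mem hw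
    have h3 := (B3_diff q (s, none) (w := l + I * w) (by
      have := h1.1
      simp only at this ⊢
      linarith) (by
      have := h1.2
      simp only at this ⊢
      linarith)).comp w
      (show DifferentiableAt ℂ (fun w : ℂ => (l : ℂ) + I * w) w by fun_prop)
    exact h3.differentiableWithinAt
  · intro w hw
    obtain ⟨h1, h0⟩ := Sp_mem hw
    have h2 : l + I * w ∈ DQ (s, none) := h1
    have h3 := norm_B3_le ha0 ha q h2
    rw [h0] at h3
    refine h3.trans (le_of_eq ?_)
    rw [neg_mul]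

end PBOb

end
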