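import Pool.Agent.PB.Num
import Pool.Agent.PB.ObRep

/-!
# Plan B: decay of the leg force on all kinds

* `fSd_dec`: `|fSd z| ≤ C e^{-2 |Im z|}` for `a ≤ Re z ≤ b`, `0 < a`, `b < 5 l`;
* **`lamK_dec`**: `|lamK z b w| ≤ C e^{-2 |Im w|}` for `w` in the strip of the kind, `|Re z| ≤ l / 2`,
  `|Im z| ≤ 1`, constant absolute; `lamK_dec'` with a rate `a ≤ 2`, `lamK_DQ` on `PBOb.DQ b`
  (the hypothesis of `pinO_VO`).
-/

set_option autoImplicit false
set_option linter.unusedSectionVars false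

noncomputable section

open MeasureTheory Set Filter Topology
open scoped Classical

namespace PBQ1

open NUMF PBForce Pool.Agent.PB NUP1S PBOb

lemma sin_cosh_le (z : ℂ) : |Real.sin z.re| * Real.cosh z.im ≤ ‖Complex.sin z‖ := by
  have h1 := Complex.abs_re_le_norm (Complex.sin z)
  rw [re_sin, abs_mul, abs_of_pos (Real.cosh_pos _)] at h1
  exact h1

lemma sin_exp_le (z : ℂ) : |Real.sin z.re| * Real.exp |z.im| / 2 ≤ ‖Complex.sin z‖ := by
  refine le_trans ?_ (sin_cosh_le z)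
  have h1 : Real.exp |z.im| / 2 ≤ Real.cosh z.im := by
    rw [← Real.cosh_abs, Real.cosh_eq]
    have := Real.exp_pos (-|z.im|)
    linarith
  rw [mul_div_assoc]
  exact mul_le_mul_of_nonneg_left h1 (abs_nonneg _)

/-- `cot` above the real axis -/
lemma ct_add_I {z : ℂ} (h : Real.sin z.re ≠ 0) (hz : 0 ≤ z.im) :
    ‖ct z + Complex.I‖ ≤ 2 / |Real.sin z.re| * Real.exp (-2 * |z.im|) := by
  have h0 : 0 < |Real.sin z.re| := abs_pos.2 h
  have hs := sin_exp_le z
  have hE := Real.exp_pos |z.im|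
  have hp : 0 < |Real.sin z.re| * Real.exp |z.im| / 2 := by positivity
  have hne : Complex.sin z ≠ 0 := by
    intro h1
    rw [h1, norm_zero] at hs
    linarith
  have e : ct z + Complex.I = Complex.exp (Complex.I * z) / Complex.sin z := by
    unfold ct
    rw [div_add' _ _ _ hne]
    congr 1
    rw [mul_comm Complex.I z, Complex.exp_mul_I]
    ring
  rw [e, norm_div, Complex.norm_exp]
  have r : (Complex.I * z).re = -z.im := by simp
  rw [r]
  calc Real.exp (-z.im) / ‖Complex.sin z‖ ≤ Real.exp (-z.im) / (|Real.sin z.re| * Real.exp |z.im| / 2) := by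
        gcongr
    _ = 2 / |Real.sin z.re| * (Real.exp (-z.im) / Real.exp |z.im|) := by
        field_simp
    _ = _ := by
        rw [← Real.exp_sub, abs_of_nonneg hz]
        congr 2
        ring

/-- `cot` below the real axis -/
lemma ct_sub_I {z : ℂ} (h : Real.sin z.re ≠ 0) (hz : z.im ≤ 0) :
    ‖ct z - Complex.I‖ ≤ 2 / |Real.sin z.re| * Real.exp (-2 * |z.im|) := by
  have h1 := ct_add_I (z := -z) (by rwa [Complex.neg_re, Real.sin_neg, neg_ne_zero])
    (by rw [Complex.neg_im]; linarith)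
  have e : ct (-z) + Complex.I = -(ct z - Complex.I) := by
    unfold ct
    rw [Complex.cos_neg, Complex.sin_neg, div_neg]
    ring
  rw [e, norm_neg, Complex.neg_re, Real.sin_neg, abs_neg, Complex.neg_im, abs_neg] at h1
  exact h1

/-- difference of two `cot` on the same height -/
lemma ct_sub_ct {z w : ℂ} (hz : Real.sin z.re ≠ 0) (hw : Real.sin w.re ≠ 0) (h : z.im = w.im) :
    ‖ct z - ct w‖ ≤ (2 / |Real.sin z.re| + 2 / |Real.sin w.re|) * Real.exp (-2 * |z.im|) := by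
  rw [add_mul]
  rcases le_total 0 z.im with h0 | h0
  · have h1 := ct_add_I hz h0
    have h2 := ct_add_I hw (by rwa [← h])
    rw [← h] at h2
    have e : ct z - ct w = (ct z + Complex.I) - (ct w + Complex.I) := by ring
    rw [e]
    exact (norm_sub_le _ _).trans (add_le_add h1 h2)
  · have h1 := ct_sub_I hz h0
    have h2 := ct_sub_I hw (by rwa [← h])
    rw [← h] at h2
    have e : ct z - ct w = (ct z - Complex.I) - (ct w - Complex.I) := by ring
    rw [e]
    exact (norm_sub_le _ _).trans (add_le_add h1 h2)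

lemma sin_window {a b : ℝ} (ha : 0 < a) (hb : b < 8 * l) (hab : a ≤ b) : ∃ c : ℝ, 0 < c ∧
    ∀ t : ℝ, a ≤ t → t ≤ b → c ≤ Real.sin t := by
  have h8 : 8 * l = Real.pi := by unfold l; ring
  refine ⟨min (Real.sin a) (Real.sin b), lt_min ?_ ?_, fun t h1 h2 => ?_⟩
  · exact Real.sin_pos_of_pos_of_lt_pi ha (by linarith)
  · exact Real.sin_pos_of_pos_of_lt_pi (by linarith) (by linarith)
  · have hconc := strictConcaveOn_sin_Icc.concaveOn
    exact hconc.min_le_of_mem_Icc ⟨ha.le, by linarith⟩ ⟨by linarith, by linarith⟩ ⟨h1, h2⟩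

/-- **decay of `fSd`** -/
lemma fSd_dec {a b : ℝ} (ha : 0 < a) (hb : b < 5 * l) (hab : a ≤ b) : ∃ C : ℝ, 0 < C ∧ ∀ z : ℂ, a ≤ z.re →
    z.re ≤ b → ‖fSd z‖ ≤ C * Real.exp (-2 * |z.im|) := by
  have hl := l_pos
  obtain ⟨c1, h1, H1⟩ := sin_window (a := a) (b := b) ha (by linarith) hab
  obtain ⟨c2, h2, H2⟩ := sin_window (a := a + 3 * l) (b := b + 3 * l) (by linarith) (by linarith) (by linarith)
  refine ⟨2 / c1 + 2 / c2, by positivity, fun z hz1 hz2 => ?_⟩
  have r : (z + 3 * l : ℂ).re = z.re + 3 * l := by simp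
  have i : (z + 3 * l : ℂ).im = z.im := by simp
  have s1 := H1 z.re hz1 hz2
  have s2 := H2 (z + 3 * l : ℂ).re (by rw [r]; linarith) (by rw [r]; linarith)
  have p1 : 0 < Real.sin z.re := lt_of_lt_of_le h1 s1
  have p2 : 0 < Real.sin (z + 3 * l : ℂ).re := lt_of_lt_of_le h2 s2
  unfold fSd
  refine (ct_sub_ct p1.ne' p2.ne' i.symm).trans ?_
  rw [abs_of_pos p1, abs_of_pos p2]
  gcongr

/-- decay of the leg force -/
lemma lamL_dec : ∃ C : ℝ, 0 < C ∧ ∀ z : ℂ, |z.re| ≤ l / 2 → |z.im| ≤ 1 → ∀ u : ℂ,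
    -(12 / 5) * l ≤ u.re → u.re ≤ 6 / 5 * l → ‖lamL z u‖ ≤ C * Real.exp (-2 * |u.im|) := by
  have hl := l_pos
  obtain ⟨C, hC, H⟩ := fSd_dec (a := 3 / 10 * l) (b := 49 / 10 * l) (by linarith) (by linarith) (by linarith)
  refine ⟨C * Real.exp 2, by positivity, fun z hz1 hz2 u h1 h2 => ?_⟩
  obtain ⟨a1, a2⟩ := abs_le.1 hz1
  have r : (z + 2 * l - u : ℂ).re = z.re + 2 * l - u.re := by simp
  have i : (z + 2 * l - u : ℂ).im = z.im - u.im := by simp
  have h := H (z + 2 * l - u) (by rw [r]; linarith) (by rw [r]; linarith)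
  unfold lamL
  rw [norm_mul, Complex.norm_I, one_mul]
  refine h.trans ?_
  rw [i, mul_assoc, ← Real.exp_add]
  refine mul_le_mul_of_nonneg_left (Real.exp_le_exp.2 ?_) hC.le
  have h3 : |u.im| ≤ |z.im - u.im| + |z.im| := by
    have := abs_add_le (u.im - z.im) z.im
    rw [sub_add_cancel, abs_sub_comm] at this
    exact this
  linarith

/-- **decay of the leg force, all kinds** -/
theorem lamK_dec : ∃ C : ℝ, 0 < C ∧ ∀ z : ℂ, |z.re| ≤ l / 2 → |z.im| ≤ 1 → ∀ (b : K4) (w : ℂ),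
    w ∈ Str b.2 → ‖lamK z b w‖ ≤ C * Real.exp (-2 * |w.im|) := by
  have hl := l_pos
  obtain ⟨C, hC, H⟩ := lamL_dec
  refine ⟨C + C, by positivity, fun z hz1 hz2 b w hw => ?_⟩
  obtain ⟨hw1, hw2⟩ := hw
  have hE := Real.exp_pos (-2 * |w.im|)
  have hL := H z hz1 hz2
  have r2 : (w - l : ℂ).re = w.re - l := by simp
  have i2 : (w - l : ℂ).im = w.im := by simp
  have hCE : 0 < C * Real.exp (-2 * |w.im|) := by positivity
  rw [add_mul]
  obtain ⟨σ, k⟩ := b
  rcases k with _ | (_ | _ | _)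
  · change 1 / 2 * l ≤ w.re at hw1
    change w.re ≤ 6 / 5 * l at hw2
    have := hL w (by linarith) (by linarith)
    change ‖lamL z w‖ ≤ _
    linarith
  · change -(13 / 10) * l ≤ w.re at hw1
    change w.re ≤ -(6 / 5) * l at hw2
    have := hL w (by linarith) (by linarith)
    change ‖lamL z w‖ ≤ _
    linarith
  · change -(7 / 5) * l ≤ w.re at hw1
    change w.re ≤ -(6 / 5) * l at hw2
    have h1 := hL w (by linarith) (by linarith)
    have h2 := hL (w - l) (by rw [r2]; linarith) (by rw [r2]; linarith)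
    rw [i2] at h2
    change ‖lamL z w + lamL z (w - l)‖ ≤ _
    exact (norm_add_le _ _).trans (add_le_add h1 h2)
  · change -(11 / 20) * l ≤ w.re at hw1
    change w.re ≤ -(9 / 20) * l at hw2
    have h1 := hL w (by linarith) (by linarith)
    have h2 := hL (w - l) (by rw [r2]; linarith) (by rw [r2]; linarith)
    rw [i2] at h2
    change ‖lamL z w + lamL z (w - l)‖ ≤ _
    exact (norm_add_le _ _).trans (add_le_add h1 h2)

/-- any rate `a ≤ 2` -/
theorem lamK_dec' : ∃ C : ℝ, 0 < C ∧ ∀ z : ℂ, |z.re| ≤ l / 2 → |z.im| ≤ 1 → ∀ a : ℝ, a ≤ 2 →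
    ∀ (b : K4) (w : ℂ), w ∈ Str b.2 → ‖lamK z b w‖ ≤ C * Real.exp (-a * |w.im|) := by
  obtain ⟨C, hC, H⟩ := lamK_dec
  refine ⟨C, hC, fun z hz1 hz2 a ha b w hw => (H z hz1 hz2 b w hw).trans ?_⟩
  refine mul_le_mul_of_nonneg_left (Real.exp_le_exp.2 ?_) hC.le
  have := abs_nonneg w.im
  nlinarith

/-- **the hypothesis of `pinO_VO`** -/
theorem lamK_DQ : ∃ C : ℝ, 0 < C ∧ ∀ z : ℂ, |z.re| ≤ l / 2 → |z.im| ≤ 1 → ∀ a : ℝ, a ≤ 2 →
    ∀ b : PBI.Kd, ∀ w ∈ DQ b, ‖lamK z b w‖ ≤ C * Real.exp (-a * |w.im|) := by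
  obtain ⟨C, hC, H⟩ := lamK_dec'
  exact ⟨C, hC, fun z hz1 hz2 a ha b w hw => H z hz1 hz2 a ha b w (DQ_sub b hw)⟩

end PBQ1

end
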