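import Pool.Agent.NUP1.Line

/-!
# Plan B: product decompositions of kernels which are analytic in the second variable

* `strip_cauchy`: for `y₁ < Im z < y₂`, `α (y₂ - y₁) < π`, `|f| ≤ M e^{β |Re z|}`, `β < α`:
  `f z = α/(2πi) ∫ (f (s + i y₁) / sinh (α (s + i y₁ - z)) - f (s + i y₂) / sinh (α (s + i y₂ - z))) ds`.
* `bE`: the one body function of the decomposition, exponentially localised at `s`.
* `decomp_point`, `prod_decomp`: `E (z, w) = ∑ ∫ a_s(z) b_s(w) ds`, pointwise and integrated against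
  two measures.
-/

set_option autoImplicit false

open Complex MeasureTheory Set Filter Topology

noncomputable section

namespace PBV

/-- the one body function `- σ α/(2πi) / sinh (α (s + i y - z))`; `σ = -1` on the lower, `1` on the upper line -/
def bE (α σ y s : ℝ) (z : ℂ) : ℂ := -σ * (α / (2 * Real.pi * I)) * (sinh (α * (s + y * I - z)))⁻¹

/-- strip -/
def St (y₁ y₂ : ℝ) : Set ℂ := {z | y₁ ≤ z.im ∧ z.im ≤ y₂}

/-- open strip -/
def So (y₁ y₂ : ℝ) : Set ℂ := {z | y₁ < z.im ∧ z.im < y₂}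

lemma So_sub_St (y₁ y₂ : ℝ) : So y₁ y₂ ⊆ St y₁ y₂ := fun _ h => ⟨h.1.le, h.2.le⟩

lemma St_mono {y₁ y₂ y₁' y₂' : ℝ} (h1 : y₁ ≤ y₁') (h2 : y₂' ≤ y₂) : St y₁' y₂' ⊆ St y₁ y₂ :=
  fun _ h => ⟨h1.trans h.1, h.2.trans h2⟩

lemma St_sub_So {y₁ y₂ y₁' y₂' : ℝ} (h1 : y₁ < y₁') (h2 : y₂' < y₂) : St y₁' y₂' ⊆ So y₁ y₂ :=
  fun _ h => ⟨h1.trans_le h.1, h.2.trans_lt h2⟩

lemma isOpen_So (y₁ y₂ : ℝ) : IsOpen (So y₁ y₂) :=
  (isOpen_lt continuous_const continuous_im).inter (isOpen_lt continuous_im continuous_const)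

theorem strip_cauchy {f : ℂ → ℂ} {y₁ y₂ α β M : ℝ} (hα : 0 < α)
    (hαy : α * (y₂ - y₁) < Real.pi) (hβ : β < α) (hc : ContinuousOn f (St y₁ y₂))
    (hf : DifferentiableOn ℂ f (So y₁ y₂))
    (hb : ∀ z ∈ St y₁ y₂, ‖f z‖ ≤ M * Real.exp (β * |z.re|)) {z : ℂ} (hz : z ∈ So y₁ y₂) :
    Integrable (fun s : ℝ => f (s + y₁ * I) * bE α (-1) y₁ s z) ∧
    Integrable (fun s : ℝ => f (s + y₂ * I) * bE α 1 y₂ s z) ∧
    f z = (∫ s : ℝ, f (s + y₁ * I) * bE α (-1) y₁ s z) + ∫ s : ℝ, f (s + y₂ * I) * bE α 1 y₂ s z := by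
  have hy : y₁ < y₂ := hz.1.trans hz.2
  have hM : 0 ≤ M := by
    have h1 := (norm_nonneg _).trans (hb z (So_sub_St _ _ hz))
    exact nonneg_of_mul_nonneg_left h1 (Real.exp_pos _)
  have hα0 : (α : ℂ) ≠ 0 := by exact_mod_cast hα.ne'
  set p : ℂ := I * α * z with hp
  have hpre : p.re = -(α * z.im) := by rw [hp]; simp [mul_assoc]
  have hpim : p.im = α * z.re := by rw [hp]; simp [mul_assoc]
  set H : ℂ → ℂ := fun u => f (-I * u / α) with hH
  have hmapre : ∀ u : ℂ, (-I * u / α).re = u.im / α := by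
    intro u
    rw [show (-I * u / α) = ((-I * u) / (α : ℂ)) from rfl, Complex.div_ofReal_re]
    simp
  have hmapim : ∀ u : ℂ, (-I * u / α).im = -u.re / α := by
    intro u
    rw [show (-I * u / α) = ((-I * u) / (α : ℂ)) from rfl, Complex.div_ofReal_im]
    simp
  have hab : -(α * y₂) ≤ -(α * y₁) := by nlinarith
  have hCS : MapsTo (fun u : ℂ => -I * u / α) (NUP1.CS (-(α * y₂)) (-(α * y₁))) (St y₁ y₂) := by
    intro u hu
    show y₁ ≤ (-I * u / α).im ∧ (-I * u / α).im ≤ y₂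
    rw [hmapim, le_div_iff₀ hα, div_le_iff₀ hα]
    constructor <;> linarith [hu.1, hu.2]
  have hOS : MapsTo (fun u : ℂ => -I * u / α) (NUP1.OS (-(α * y₂)) (-(α * y₁))) (So y₁ y₂) := by
    intro u hu
    show y₁ < (-I * u / α).im ∧ (-I * u / α).im < y₂
    rw [hmapim, lt_div_iff₀ hα, div_lt_iff₀ hα]
    constructor <;> linarith [hu.1, hu.2]
  have hHc : ContinuousOn H (NUP1.CS (-(α * y₂)) (-(α * y₁))) :=
    hc.comp (by fun_prop) hCS
  have hHd : DifferentiableOn ℂ H (NUP1.OS (-(α * y₂)) (-(α * y₁))) :=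
    hf.comp (by fun_prop) hOS
  have hpOS : p ∈ NUP1.OS (-(α * y₂)) (-(α * y₁)) := by
    constructor
    · rw [hpre]; nlinarith [hz.2]
    · rw [hpre]; nlinarith [hz.1]
  have key := NUP1.line_shift (a := -(α * y₂)) (b := -(α * y₁)) hab (by linarith) {p}
    (by intro q hq; rw [Finset.mem_singleton] at hq; rw [hq]; exact hpOS) (f := fun u => H u / sin (u - p))
    (H := H) hHc hHd (by intro u _ _; simp) (C := M * (4 * Real.exp |p.im|)) (δ := 1 - β / α) (t₀ := 1 + |p.im|)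
    (by rw [sub_pos, div_lt_one hα]; exact hβ) ?_
  · obtain ⟨j1, j2, j3⟩ := key
    have hres : NUP1.res {p} H p = f z := by
      unfold NUP1.res
      rw [hH]
      simp only [Finset.erase_singleton, Finset.prod_empty, div_one]
      congr 1
      rw [hp]
      field_simp
      rw [I_sq]
      ring
    rw [Finset.sum_singleton, hres] at j3
    -- the two lines
    have line : ∀ y : ℝ, ∀ s : ℝ,
        H (((-(α * y) : ℝ) : ℂ) + ((α * s : ℝ) : ℂ) * I) / sin (((-(α * y) : ℝ) : ℂ) + ((α * s : ℝ) : ℂ) * I - p)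
          = f (s + y * I) * (I * sinh (α * (s + y * I - z)))⁻¹ := by
      intro y s
      have e1 : -I * (((-(α * y) : ℝ) : ℂ) + ((α * s : ℝ) : ℂ) * I) / α = s + y * I := by
        push_cast
        field_simp
        linear_combination (-(s : ℂ)) * I_mul_I
      have e2 : ((-(α * y) : ℝ) : ℂ) + ((α * s : ℝ) : ℂ) * I - p = (α * (s + y * I - z)) * I := by
        rw [hp]; push_cast
        linear_combination (-(α * y : ℂ)) * I_mul_I
      rw [hH]
      simp only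
      rw [e1, e2, Complex.sin_mul_I, div_eq_mul_inv]
      congr 2
      ring
    have sc : ∀ y : ℝ,
        Integrable (fun t : ℝ => H (((-(α * y) : ℝ) : ℂ) + t * I) / sin (((-(α * y) : ℝ) : ℂ) + t * I - p)) →
        Integrable (fun s : ℝ => f (s + y * I) * (I * sinh (α * (s + y * I - z)))⁻¹) ∧
        (∫ t : ℝ, H (((-(α * y) : ℝ) : ℂ) + t * I) / sin (((-(α * y) : ℝ) : ℂ) + t * I - p)) =
          α * ∫ s : ℝ, f (s + y * I) * (I * sinh (α * (s + y * I - z)))⁻¹ := by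
      intro y hi
      have h1 := hi.comp_mul_left' hα.ne'
      have h2 := Measure.integral_comp_mul_left (fun t : ℝ => H (((-(α * y) : ℝ) : ℂ) + t * I) /
        sin (((-(α * y) : ℝ) : ℂ) + t * I - p)) α
      have h3 : (fun s : ℝ => H (((-(α * y) : ℝ) : ℂ) + ((α * s : ℝ) : ℂ) * I) /
          sin (((-(α * y) : ℝ) : ℂ) + ((α * s : ℝ) : ℂ) * I - p)) =
          fun s : ℝ => f (s + y * I) * (I * sinh (α * (s + y * I - z)))⁻¹ := funext (line y)
      rw [h3] at h1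
      rw [h3] at h2
      refine ⟨h1, ?_⟩
      rw [h2, abs_of_pos (inv_pos.2 hα)]
      simp only [real_smul, ofReal_inv]
      rw [mul_inv_cancel_left₀ hα0]
    have a1 := sc y₁ j2
    have a2 := sc y₂ j1
    have e0 : ∀ σ y : ℝ, (fun s : ℝ => f (s + y * I) * bE α σ y s z) = fun s : ℝ =>
        (-σ * α / (2 * Real.pi)) * (f (s + y * I) * (I * sinh (α * (s + y * I - z)))⁻¹) := by
      intro σ y
      funext s
      unfold bE
      have : (Real.pi : ℂ) ≠ 0 := by exact_mod_cast Real.pi_ne_zero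
      rw [mul_inv]
      field_simp
    refine ⟨?_, ?_, ?_⟩
    · rw [e0]; exact a1.1.const_mul _
    · rw [e0]; exact a2.1.const_mul _
    · rw [e0, e0, integral_const_mul, integral_const_mul]
      have hpi : (Real.pi : ℂ) ≠ 0 := by exact_mod_cast Real.pi_ne_zero
      rw [a1.2, a2.2] at j3
      have j4 : f z = (1 / (2 * Real.pi)) * (2 * Real.pi * f z) := by field_simp
      rw [j4, ← j3]
      push_cast
      ring
  · intro s t h1 h2 ht
    have h3 := hb (-I * ((s : ℂ) + t * I) / α) (by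
      have := hCS (x := (s : ℂ) + t * I) (by
        show -(α * y₂) ≤ ((s : ℂ) + t * I).re ∧ ((s : ℂ) + t * I).re ≤ -(α * y₁)
        rw [NUP1.vl_re]; exact ⟨h1, h2⟩)
      exact this)
    rw [hmapre, NUP1.vl_im, abs_div, abs_of_pos hα] at h3
    have h4 := NUP1.norm_inv_sin_sub_le (p := p) (u := (s : ℂ) + t * I) (by rwa [NUP1.vl_im])
    rw [NUP1.vl_im] at h4
    rw [norm_div, div_eq_mul_inv, ← norm_inv]
    calc ‖H ((s : ℂ) + t * I)‖ * ‖(sin ((s : ℂ) + t * I - p))⁻¹‖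
        ≤ (M * Real.exp (β * (|t| / α))) * (4 * Real.exp |p.im| * Real.exp (-1 * |t|)) := by
          gcongr
      _ = M * (4 * Real.exp |p.im|) * Real.exp (-(1 - β / α) * |t|) := by
          rw [show -(1 - β / α) * |t| = β * (|t| / α) + (-1 * |t|) by ring, Real.exp_add]
          ring

/-! ### bounds of the one body functions -/

lemma norm_sinh_sq (z : ℂ) : ‖sinh z‖ ^ 2 = Real.sinh z.re ^ 2 + Real.sin z.im ^ 2 := by
  have h1 := NUP1.norm_sin_sq (z * I)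
  rw [Complex.sin_mul_I, norm_mul, Complex.norm_I, mul_one] at h1
  rw [h1]
  simp only [mul_re, I_re, mul_zero, I_im, mul_one, zero_sub, mul_im, add_zero, Real.sin_neg]
  ring

lemma norm_inv_sinh_le {z : ℂ} {κ : ℝ} (h0 : 0 < κ) (hκ : κ ≤ |Real.sin z.im|) :
    ‖(sinh z)⁻¹‖ ≤ 2 / κ * Real.exp (-|z.re|) := by
  have h1 : κ * Real.cosh z.re ≤ ‖sinh z‖ := by
    refine abs_le_of_sq_le_sq' ?_ (norm_nonneg _) |>.2
    rw [norm_sinh_sq, mul_pow]
    have h2 : κ ^ 2 ≤ Real.sin z.im ^ 2 := by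
      rw [← sq_abs (Real.sin z.im)]
      exact pow_le_pow_left₀ h0.le hκ 2
    have h3 := Real.cosh_sq z.re
    have h4 := Real.sin_sq_le_one z.im
    have h5 := Real.one_le_cosh z.re
    have h6 : 0 ≤ Real.sinh z.re ^ 2 := sq_nonneg _
    have h7 : κ ^ 2 * Real.cosh z.re ^ 2 ≤ Real.sin z.im ^ 2 * Real.cosh z.re ^ 2 :=
      mul_le_mul_of_nonneg_right h2 (sq_nonneg _)
    rw [h3] at h7 ⊢
    nlinarith
  have h2 : Real.exp |z.re| / 2 ≤ Real.cosh z.re := by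
    rw [← Real.cosh_abs, Real.cosh_eq]
    have := Real.exp_pos (-|z.re|)
    linarith
  have h3 : κ * (Real.exp |z.re| / 2) ≤ ‖sinh z‖ := (mul_le_mul_of_nonneg_left h2 h0.le).trans h1
  have h4 : 0 < κ * (Real.exp |z.re| / 2) := by positivity
  rw [norm_inv, Real.exp_neg]
  refine (inv_anti₀ h4 h3).trans (le_of_eq ?_)
  field_simp

lemma sin_ge_of {a x : ℝ} (ha : 0 ≤ a) (h1 : a ≤ x) (h2 : x ≤ Real.pi - a) : Real.sin a ≤ Real.sin x := by
  rcases le_total x (Real.pi / 2) with h | h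
  · exact Real.sin_le_sin_of_le_of_le_pi_div_two (by linarith [Real.pi_pos]) h h1
  · rw [← Real.sin_pi_sub x]
    exact Real.sin_le_sin_of_le_of_le_pi_div_two (by linarith [Real.pi_pos]) (by linarith) (by linarith)

lemma sin_geW {α y₁ y₂ θ x y : ℝ} (hα : 0 < α) (hθ : 0 ≤ θ) (hαy : α * (y₂ - y₁) < Real.pi)
    (hx : y₁ + θ ≤ x ∧ x ≤ y₂ - θ) (hy : y = y₁ ∨ y = y₂) :
    Real.sin (α * θ) ≤ |Real.sin (α * (y - x))| := by
  have h0 : 0 ≤ α * θ := mul_nonneg hα.le hθ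
  rcases hy with rfl | rfl
  · rw [show α * (y - x) = -(α * (x - y)) by ring, Real.sin_neg, abs_neg]
    refine (sin_ge_of h0 ?_ ?_).trans (le_abs_self _)
    · nlinarith [hx.1]
    · nlinarith [hx.2]
  · refine (sin_ge_of h0 ?_ ?_).trans (le_abs_self _)
    · nlinarith [hx.2]
    · nlinarith [hx.1]

/-- the constant of the bound of `bE` -/
def cE (α θ : ℝ) : ℝ := α / (Real.pi * Real.sin (α * θ))

lemma sin_pos' {α θ : ℝ} (hα : 0 < α) (hθ : 0 < θ) (hαθ : α * θ < Real.pi) :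
    0 < Real.sin (α * θ) := Real.sin_pos_of_pos_of_lt_pi (mul_pos hα hθ) hαθ

lemma cE_pos {α θ : ℝ} (hα : 0 < α) (hθ : 0 < θ) (hαθ : α * θ < Real.pi) :
    0 < cE α θ := div_pos hα (mul_pos Real.pi_pos (sin_pos' hα hθ hαθ))

lemma bE_arg (α y s : ℝ) (z : ℂ) :
    ((α : ℂ) * (s + y * I - z)).re = α * (s - z.re) ∧ ((α : ℂ) * (s + y * I - z)).im = α * (y - z.im) := by
  constructor <;> simp

lemma theta_lt {α y₁ y₂ θ x : ℝ} (hα : 0 < α) (hθ : 0 < θ) (hαy : α * (y₂ - y₁) < Real.pi)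
    (hx : y₁ + θ ≤ x ∧ x ≤ y₂ - θ) : α * θ < Real.pi := by
  have h1 : θ ≤ y₂ - y₁ := by linarith [hx.1, hx.2]
  nlinarith

theorem norm_bE_le {α y₁ y₂ θ σ y s : ℝ} (hα : 0 < α) (hθ : 0 < θ) (hαy : α * (y₂ - y₁) < Real.pi)
    (hσ : σ = 1 ∨ σ = -1) (hy : y = y₁ ∨ y = y₂) {z : ℂ} (hz : z ∈ St (y₁ + θ) (y₂ - θ)) :
    ‖bE α σ y s z‖ ≤ cE α θ * Real.exp (-(α * |s - z.re|)) := by
  have h0 := sin_pos' hα hθ (theta_lt hα hθ hαy hz)
  have h1 := norm_inv_sinh_le (z := (α : ℂ) * (s + y * I - z)) h0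
    (by rw [(bE_arg α y s z).2]; exact sin_geW hα hθ.le hαy hz hy)
  rw [(bE_arg α y s z).1, abs_mul, abs_of_pos hα] at h1
  have h2 : ‖-(σ : ℂ) * (α / (2 * Real.pi * I))‖ = α / (2 * Real.pi) := by
    rw [norm_mul, norm_neg, norm_real, norm_div, norm_mul, norm_mul, Complex.norm_I, norm_real, norm_real]
    have : ‖σ‖ = 1 := by rcases hσ with rfl | rfl <;> simp
    rw [this, Real.norm_of_nonneg hα.le, Real.norm_of_nonneg Real.pi_pos.le]
    simp
  unfold bE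
  rw [norm_mul, h2]
  refine (mul_le_mul_of_nonneg_left h1 (by positivity)).trans (le_of_eq ?_)
  unfold cE
  field_simp

/-- localised at the centre, with weight `e^{a |s|}` -/
theorem norm_bE_le_center {α y₁ y₂ θ σ y s a : ℝ} (hα : 0 < α) (hθ : 0 < θ) (hαy : α * (y₂ - y₁) < Real.pi)
    (hσ : σ = 1 ∨ σ = -1) (hy : y = y₁ ∨ y = y₂) (ha : 0 ≤ a) (haα : a ≤ α) {z : ℂ}
    (hz : z ∈ St (y₁ + θ) (y₂ - θ)) :
    ‖bE α σ y s z‖ ≤ cE α θ * Real.exp (a * |s|) * Real.exp (-(a * |z.re|)) := by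
  refine (norm_bE_le hα hθ hαy hσ hy hz).trans ?_
  rw [mul_assoc, ← Real.exp_add]
  refine mul_le_mul_of_nonneg_left (Real.exp_le_exp.2 ?_) (cE_pos hα hθ (theta_lt hα hθ hαy hz)).le
  have h1 : |z.re| ≤ |s| + |s - z.re| := by
    have := abs_sub_abs_le_abs_sub z.re s
    rw [abs_sub_comm] at this
    linarith
  nlinarith [abs_nonneg (s - z.re)]

lemma sinh_ne {α y₁ y₂ y s : ℝ} (hα : 0 < α) (hαy : α * (y₂ - y₁) < Real.pi)
    (hy : y = y₁ ∨ y = y₂) {z : ℂ} (hz : z ∈ So y₁ y₂) : sinh (α * (s + y * I - z)) ≠ 0 := by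
  intro h
  have h1 := norm_sinh_sq ((α : ℂ) * (s + y * I - z))
  rw [h, norm_zero, (bE_arg α y s z).2] at h1
  obtain ⟨θ, hθ, hθ1, hθ2⟩ : ∃ θ : ℝ, 0 < θ ∧ y₁ + θ ≤ z.im ∧ z.im ≤ y₂ - θ :=
    ⟨min (z.im - y₁) (y₂ - z.im), lt_min (sub_pos.2 hz.1) (sub_pos.2 hz.2),
      by linarith [min_le_left (z.im - y₁) (y₂ - z.im)], by linarith [min_le_right (z.im - y₁) (y₂ - z.im)]⟩
  have h2 := sin_geW hα hθ.le hαy ⟨hθ1, hθ2⟩ hy
  have h3 := sin_pos' hα hθ (theta_lt hα hθ hαy ⟨hθ1, hθ2⟩)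
  have h4 : 0 < |Real.sin (α * (y - z.im))| := h3.trans_le h2
  have h5 : 0 < Real.sin (α * (y - z.im)) ^ 2 := by rw [← sq_abs]; positivity
  have h6 := sq_nonneg (Real.sinh ((α : ℂ) * (s + y * I - z)).re)
  nlinarith

theorem bE_differentiableOn {α y₁ y₂ σ y s : ℝ} (hα : 0 < α) (hαy : α * (y₂ - y₁) < Real.pi)
    (hy : y = y₁ ∨ y = y₂) : DifferentiableOn ℂ (bE α σ y s) (So y₁ y₂) := by
  unfold bE
  refine (differentiableOn_const _).mul (DifferentiableOn.inv (by fun_prop) fun z hz => ?_)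
  exact sinh_ne hα hαy hy hz

lemma bE_measurable (α σ y : ℝ) : Measurable fun q : ℝ × ℂ => bE α σ y q.1 q.2 := by
  unfold bE
  have h : Continuous fun q : ℝ × ℂ => sinh (α * ((q.1 : ℂ) + y * I - q.2)) := by fun_prop
  exact measurable_const.mul h.measurable.inv

lemma bE_measurable' (α σ y : ℝ) : Measurable fun q : ℂ × ℝ => bE α σ y q.2 q.1 := by
  unfold bE
  have h : Continuous fun q : ℂ × ℝ => sinh (α * ((q.2 : ℂ) + y * I - q.1)) := by fun_prop
  exact measurable_const.mul h.measurable.inv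

lemma exp_measurable (β : ℝ) : Measurable fun q : ℂ × ℝ => ((Real.exp (β * |q.2|) : ℝ) : ℂ) := by
  have h : Continuous fun q : ℂ × ℝ => ((Real.exp (β * |q.2|) : ℝ) : ℂ) := by fun_prop
  exact h.measurable

attribute [irreducible] bE

/-! ### the product decomposition -/

/-- the first factor of the decomposition -/
def aE (E : ℂ → ℂ → ℂ) (y s : ℝ) (z : ℂ) : ℂ := E z (s + y * I)

/-- pointwise product decomposition of a kernel which is analytic in the second variable -/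
theorem decomp_point {E : ℂ → ℂ → ℂ} {y₁ y₂ α β M : ℝ} (hα : 0 < α)
    (hαy : α * (y₂ - y₁) < Real.pi) (hβ : β < α) {z : ℂ} (hc : ContinuousOn (E z) (St y₁ y₂))
    (hf : DifferentiableOn ℂ (E z) (So y₁ y₂))
    (hb : ∀ w ∈ St y₁ y₂, ‖E z w‖ ≤ M * Real.exp (β * |w.re|)) {w : ℂ} (hw : w ∈ So y₁ y₂) :
    Integrable (fun s : ℝ => aE E y₁ s z * bE α (-1) y₁ s w) ∧
    Integrable (fun s : ℝ => aE E y₂ s z * bE α 1 y₂ s w) ∧
    E z w = (∫ s : ℝ, aE E y₁ s z * bE α (-1) y₁ s w) + ∫ s : ℝ, aE E y₂ s z * bE α 1 y₂ s w :=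
  strip_cauchy hα hαy hβ hc hf hb hw

lemma int_exp_abs_shift {c : ℝ} (hc : 0 < c) (x : ℝ) :
    Integrable (fun s : ℝ => Real.exp (-(c * |s - x|))) ∧ ∫ s : ℝ, Real.exp (-(c * |s - x|)) = 2 / c := by
  have h1 := (NUP1.integrable_exp_neg_abs hc).comp_sub_right x
  have e : (fun s : ℝ => Real.exp (-(c * |s - x|))) = fun s => Real.exp (-c * |s - x|) := by
    funext s; rw [neg_mul]
  rw [e]
  refine ⟨h1, ?_⟩
  rw [integral_sub_right_eq_self (fun s => Real.exp (-c * |s|)) x]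
  have h2 := integral_comp_abs (f := fun s => Real.exp (-c * s))
  rw [h2, integral_exp_mul_Ioi (by linarith)]
  simp
  ring

lemma exp_exp_le {α β : ℝ} (hβ : 0 ≤ β) (s x : ℝ) :
    Real.exp (β * |s|) * Real.exp (-(α * |s - x|)) ≤ Real.exp (β * |x|) * Real.exp (-((α - β) * |s - x|)) := by
  rw [← Real.exp_add, ← Real.exp_add]
  refine Real.exp_le_exp.2 ?_
  have h1 : |s| ≤ |x| + |s - x| := by
    have := abs_add_le x (s - x)
    rwa [add_sub_cancel] at this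
  nlinarith

/-- the weighted second factor is integrable on the product -/
lemma bE_integrable {y₁ y₂ θ α β : ℝ} (hθ : 0 < θ) (hα : 0 < α)
    (hαy : α * (y₂ - y₁) < Real.pi) (hβ0 : 0 ≤ β) (hβ : β < α) {ν : Measure ℂ} [SFinite ν]
    (hν : ∀ᵐ w ∂ν, w ∈ St (y₁ + θ) (y₂ - θ)) (hν' : Integrable (fun w : ℂ => Real.exp (β * |w.re|)) ν)
    {σ y : ℝ} (hσ : σ = 1 ∨ σ = -1) (hy : y = y₁ ∨ y = y₂) :
    Integrable (fun q : ℂ × ℝ => ((Real.exp (β * |q.2|) : ℝ) : ℂ) * bE α σ y q.2 q.1) (ν.prod volume) := by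
  have hm : Measurable (fun q : ℂ × ℝ => ((Real.exp (β * |q.2|) : ℝ) : ℂ) * bE α σ y q.2 q.1) :=
    (exp_measurable β).mul (bE_measurable' α σ y)
  have hpt : ∀ w : ℂ, w ∈ St (y₁ + θ) (y₂ - θ) → ∀ s : ℝ, ‖((Real.exp (β * |s|) : ℝ) : ℂ) * bE α σ y s w‖ ≤
      cE α θ * Real.exp (β * |w.re|) * Real.exp (-((α - β) * |s - w.re|)) := by
    intro w hw s
    have hc0 := cE_pos hα hθ (theta_lt hα hθ hαy hw)
    rw [norm_mul, norm_real, Real.norm_of_nonneg (Real.exp_pos _).le]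
    have h1 := norm_bE_le (s := s) hα hθ hαy hσ hy hw
    have h2 := exp_exp_le (α := α) hβ0 s w.re
    calc Real.exp (β * |s|) * ‖bE α σ y s w‖ ≤ Real.exp (β * |s|) * (cE α θ * Real.exp (-(α * |s - w.re|))) := by
          gcongr
      _ = cE α θ * (Real.exp (β * |s|) * Real.exp (-(α * |s - w.re|))) := by ring
      _ ≤ cE α θ * (Real.exp (β * |w.re|) * Real.exp (-((α - β) * |s - w.re|))) := by gcongr
      _ = _ := by ring
  have hint : ∀ w : ℂ, Integrable (fun s : ℝ => cE α θ * Real.exp (β * |w.re|) *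
      Real.exp (-((α - β) * |s - w.re|))) := fun w =>
    (int_exp_abs_shift (by linarith) w.re).1.const_mul _
  rw [integrable_prod_iff hm.aestronglyMeasurable]
  constructor
  · filter_upwards [hν] with w hw
    have h3 : Measurable fun s : ℝ => ((Real.exp (β * |s|) : ℝ) : ℂ) * bE α σ y s w :=
      hm.comp (measurable_const.prodMk measurable_id : Measurable fun s : ℝ => (w, s))
    exact (hint w).mono' h3.aestronglyMeasurable (Eventually.of_forall (hpt w hw))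
  · have h4 : StronglyMeasurable fun w : ℂ => ∫ s : ℝ, ‖((Real.exp (β * |s|) : ℝ) : ℂ) * bE α σ y s w‖ :=
      hm.norm.stronglyMeasurable.integral_prod_right'
    refine (hν'.const_mul (cE α θ * (2 / (α - β)))).mono' h4.aestronglyMeasurable ?_
    filter_upwards [hν] with w hw
    rw [Real.norm_of_nonneg (integral_nonneg fun _ => norm_nonneg _)]
    have h1 : ∫ s : ℝ, ‖((Real.exp (β * |s|) : ℝ) : ℂ) * bE α σ y s w‖ ≤ ∫ s : ℝ, cE α θ *
        Real.exp (β * |w.re|) * Real.exp (-((α - β) * |s - w.re|)) :=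
      integral_mono_of_nonneg (Eventually.of_forall fun _ => norm_nonneg _) (hint w)
        (Eventually.of_forall (hpt w hw))
    refine h1.trans (le_of_eq ?_)
    rw [integral_const_mul, (int_exp_abs_shift (by linarith) w.re).2]
    ring

/-- one line of the decomposition, integrated against two measures -/
lemma prod_side {E : ℂ → ℂ → ℂ} {y₁ y₂ θ α β : ℝ} {φ : ℂ → ℝ} {S : Set ℂ} (hθ : 0 < θ) (hα : 0 < α)
    (hαy : α * (y₂ - y₁) < Real.pi) (hy12 : y₁ ≤ y₂) (hβ0 : 0 ≤ β) (hβ : β < α)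
    (hb : ∀ z ∈ S, ∀ w ∈ St y₁ y₂, ‖E z w‖ ≤ φ z * Real.exp (β * |w.re|))
    {μ ν : Measure ℂ} [SFinite μ] [SFinite ν] (hμ : ∀ᵐ z ∂μ, z ∈ S)
    (hν : ∀ᵐ w ∂ν, w ∈ St (y₁ + θ) (y₂ - θ))
    (hφ : Integrable φ μ) (hν' : Integrable (fun w : ℂ => Real.exp (β * |w.re|)) ν)
    {σ y : ℝ} (hσ : σ = 1 ∨ σ = -1) (hy : y = y₁ ∨ y = y₂)
    (hm : Measurable fun q : ℂ × ℝ => aE E y q.2 q.1) :
    Integrable (fun z => ∫ w, ∫ s : ℝ, aE E y s z * bE α σ y s w ∂volume ∂ν) μ ∧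
      (∀ᵐ z ∂μ, Integrable (fun w => ∫ s : ℝ, aE E y s z * bE α σ y s w) ν) ∧
      ∫ z, ∫ w, ∫ s : ℝ, aE E y s z * bE α σ y s w ∂volume ∂ν ∂μ =
        ∫ s : ℝ, (∫ z, aE E y s z ∂μ) * ∫ w, bE α σ y s w ∂ν := by
  have hB := bE_integrable hθ hα hαy hβ0 hβ hν hν' hσ hy
  have ha : ∀ z ∈ S, ∀ s : ℝ, ‖aE E y s z‖ ≤ φ z * Real.exp (β * |s|) := by
    intro z hz s
    have hs : (s : ℂ) + y * I ∈ St y₁ y₂ := by
      have e : ((s : ℂ) + y * I).im = y := by simp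
      show y₁ ≤ ((s : ℂ) + y * I).im ∧ ((s : ℂ) + y * I).im ≤ y₂
      rw [e]
      rcases hy with rfl | rfl
      · exact ⟨le_rfl, hy12⟩
      · exact ⟨hy12, le_rfl⟩
    have := hb z hz _ hs
    have e : ((s : ℂ) + y * I).re = s := by simp
    rwa [e] at this
  -- fixed z
  have hz1 : ∀ z ∈ S, Integrable (fun q : ℂ × ℝ => aE E y q.2 z * bE α σ y q.2 q.1) (ν.prod volume) := by
    intro z hz
    refine (hB.norm.const_mul (φ z)).mono' ?_ (Eventually.of_forall fun q => ?_)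
    · have g1 : Measurable fun q : ℂ × ℝ => ((z, q.2) : ℂ × ℝ) := measurable_const.prodMk measurable_snd
      have g2 : Measurable fun q : ℂ × ℝ => aE E y q.2 z := hm.comp g1
      exact (g2.mul (bE_measurable' α σ y)).aestronglyMeasurable
    · rw [norm_mul, norm_mul, norm_real, Real.norm_of_nonneg (Real.exp_pos _).le, ← mul_assoc]
      exact mul_le_mul_of_nonneg_right (ha z hz q.2) (norm_nonneg _)
  have hz2 : ∀ z ∈ S, ∫ w, ∫ s : ℝ, aE E y s z * bE α σ y s w ∂volume ∂ν =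
      ∫ s : ℝ, aE E y s z * ∫ w, bE α σ y s w ∂ν := by
    intro z hz
    rw [integral_integral_swap (hz1 z hz)]
    refine integral_congr_ae (Eventually.of_forall fun s => ?_)
    exact integral_const_mul _ _
  have hBs : Integrable (fun s : ℝ => ((Real.exp (β * |s|) : ℝ) : ℂ) * ∫ w, bE α σ y s w ∂ν) := by
    have h1 := hB.integral_prod_right
    refine h1.congr (Eventually.of_forall fun s => ?_)
    exact integral_const_mul ((Real.exp (β * |s|) : ℝ) : ℂ) fun w => bE α σ y s w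
  have hBm : StronglyMeasurable fun s : ℝ => ∫ w, bE α σ y s w ∂ν :=
    (bE_measurable α σ y).stronglyMeasurable.integral_prod_right'
  have hBm' : Measurable fun q : ℂ × ℝ => ∫ w, bE α σ y q.2 w ∂ν := hBm.measurable.comp measurable_snd
  have hAB : Integrable (fun q : ℂ × ℝ => aE E y q.2 q.1 * ∫ w, bE α σ y q.2 w ∂ν) (μ.prod volume) := by
    have h1 := hφ.norm.mul_prod hBs.norm
    refine h1.mono' (hm.mul hBm').aestronglyMeasurable ?_
    have h2 : ∀ᵐ q : ℂ × ℝ ∂(μ.prod volume), q.1 ∈ S :=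
      Measure.quasiMeasurePreserving_fst.ae hμ
    filter_upwards [h2] with q hq
    rw [norm_mul, norm_mul, norm_real, Real.norm_of_nonneg (Real.exp_pos _).le, ← mul_assoc]
    refine mul_le_mul_of_nonneg_right ((ha q.1 hq q.2).trans ?_) (norm_nonneg _)
    exact mul_le_mul_of_nonneg_right (Real.le_norm_self _) (Real.exp_pos _).le
  have hz2' : ∀ᵐ z ∂μ, ∫ w, ∫ s : ℝ, aE E y s z * bE α σ y s w ∂volume ∂ν =
      ∫ s : ℝ, aE E y s z * ∫ w, bE α σ y s w ∂ν := by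
    filter_upwards [hμ] with z hz using hz2 z hz
  refine ⟨?_, ?_, ?_⟩
  · exact hAB.integral_prod_left.congr (by filter_upwards [hz2'] with z hz using hz.symm)
  · filter_upwards [hμ] with z hz
    exact (hz1 z hz).integral_prod_left
  · rw [integral_congr_ae hz2', integral_integral_swap hAB]
    refine integral_congr_ae (Eventually.of_forall fun s => ?_)
    exact integral_mul_const _ _

/-- **Product decomposition, integrated form.** -/
theorem prod_decomp {E : ℂ → ℂ → ℂ} {y₁ y₂ θ α β : ℝ} {φ : ℂ → ℝ} {S : Set ℂ} (hθ : 0 < θ) (hα : 0 < α)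
    (hαy : α * (y₂ - y₁) < Real.pi) (hy12 : y₁ ≤ y₂) (hβ0 : 0 ≤ β) (hβ : β < α)
    (hc : ∀ z ∈ S, ContinuousOn (E z) (St y₁ y₂))
    (hf : ∀ z ∈ S, DifferentiableOn ℂ (E z) (So y₁ y₂))
    (hb : ∀ z ∈ S, ∀ w ∈ St y₁ y₂, ‖E z w‖ ≤ φ z * Real.exp (β * |w.re|))
    (hm : ∀ y : ℝ, (y = y₁ ∨ y = y₂) → Measurable fun q : ℂ × ℝ => aE E y q.2 q.1)
    {μ ν : Measure ℂ} [SFinite μ] [SFinite ν] (hμ : ∀ᵐ z ∂μ, z ∈ S)
    (hν : ∀ᵐ w ∂ν, w ∈ St (y₁ + θ) (y₂ - θ))
    (hφ : Integrable φ μ) (hν' : Integrable (fun w : ℂ => Real.exp (β * |w.re|)) ν) :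
    ∫ z, ∫ w, E z w ∂ν ∂μ =
      (∫ s : ℝ, (∫ z, aE E y₁ s z ∂μ) * ∫ w, bE α (-1) y₁ s w ∂ν) +
        ∫ s : ℝ, (∫ z, aE E y₂ s z ∂μ) * ∫ w, bE α 1 y₂ s w ∂ν := by
  obtain ⟨a1, a2, a3⟩ := prod_side hθ hα hαy hy12 hβ0 hβ hb hμ hν hφ hν' (σ := -1) (Or.inr rfl) (Or.inl rfl)
    (hm y₁ (Or.inl rfl))
  obtain ⟨b1, b2, b3⟩ := prod_side hθ hα hαy hy12 hβ0 hβ hb hμ hν hφ hν' (σ := 1) (Or.inl rfl) (Or.inr rfl)
    (hm y₂ (Or.inr rfl))
  rw [← a3, ← b3, ← integral_add a1 b1]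
  refine integral_congr_ae ?_
  filter_upwards [hμ, a2, b2] with z hz h1 h2
  rw [← integral_add h1 h2]
  refine integral_congr_ae ?_
  filter_upwards [hν] with w hw
  exact (decomp_point hα hαy hβ (hc z hz) (hf z hz) (hb z hz)
    (St_sub_So (by linarith) (by linarith) hw)).2.2

end PBV

end
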