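import Pool.Agent.PB.F0W
import Pool.Agent.PB.NormX
import Pool.Agent.PB.Wave
import Pool.Agent.NURow.PinL

/-!
# Plan B: the pair kernels of the first Ward identity, all kinds

Kinds `b : Bool × Option O3` at heads `z`; `X : ℂ → ℂ` the field as a function of the position:
a quantum at `z` has the field `X z`, an object with head `z` the field `X (z + 2 l)`.

* `lz_split`: `lz = m0 cot (· + a0) + (cotangents which are regular on the strips)`;
* `aK`: the kernel `(X z1 - X z1') I lz (z - z')` with the removable singularity filled in;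
* `aK_eq`, `aK_symm`, `aK_diag`; analyticity in each variable;
* `norm_aK_loc`: `|aK - 2 q q' plat| ≤ C (|J| + M) e^{-2|t|} e^{-2|t'|}`.
-/

set_option autoImplicit false
set_option linter.unusedSectionVars false
set_option linter.unusedVariables false

noncomputable section

open Complex MeasureTheory Set

namespace PBOb

open NUP1 NUP1.Bd NUP1S PBI PB

/-! ## sums of cotangents as logarithmic derivatives -/

/-- sum of cotangents -/
def LL (L : List (ℝ × ℝ)) (z : ℂ) : ℂ := (L.map fun p => (p.2 : ℂ) * cot (z + p.1)).sum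

@[simp] theorem LL_nil (z : ℂ) : LL [] z = 0 := rfl

@[simp] theorem LL_cons (p : ℝ × ℝ) (L : List (ℝ × ℝ)) (z : ℂ) :
    LL (p :: L) z = (p.2 : ℂ) * cot (z + p.1) + LL L z := rfl

theorem LL_append (L L' : List (ℝ × ℝ)) (z : ℂ) : LL (L ++ L') z = LL L z + LL L' z := by
  unfold LL
  rw [List.map_append, List.sum_append]

/-- `g'/g = LL L` at `z` -/
def HL (g : ℂ → ℂ) (L : List (ℝ × ℝ)) (z : ℂ) : Prop := g z ≠ 0 ∧ HasDerivAt g (LL L z * g z) z

theorem HL.lg {g : ℂ → ℂ} {L : List (ℝ × ℝ)} {z : ℂ} (h : HL g L z) :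
    deriv g z / g z = LL L z := by
  rw [h.2.deriv, mul_div_cancel_right₀ _ h.1]

theorem HL.sin (s : ℝ) {z : ℂ} (h : z.im ≠ 0) : HL (fun z => Complex.sin (z + s)) [(s, 1)] z := by
  have h0 : Complex.sin (z + s) ≠ 0 := PB.sin_ne_im (by simpa using h)
  refine ⟨h0, ?_⟩
  have h1 : HasDerivAt (fun z : ℂ => z + s) 1 z := (hasDerivAt_id z).add_const _
  have h2 := (Complex.hasDerivAt_sin (z + s)).comp z h1
  refine h2.congr_deriv ?_
  simp only [LL_cons, LL_nil, Complex.cot]
  rw [ofReal_one, one_mul, add_zero, mul_one, div_mul_cancel₀ _ h0]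

theorem HL.mul {g g' : ℂ → ℂ} {L L' : List (ℝ × ℝ)} {z : ℂ} (h : HL g L z) (h' : HL g' L' z) :
    HL (fun z => g z * g' z) (L ++ L') z := by
  refine ⟨mul_ne_zero h.1 h'.1, (h.2.mul h'.2).congr_deriv ?_⟩
  rw [LL_append]
  ring

theorem HL.neg {g : ℂ → ℂ} {L : List (ℝ × ℝ)} {z : ℂ} (h : HL g L z) :
    HL (fun z => -g z) L z := by
  refine ⟨neg_ne_zero.2 h.1, h.2.neg.congr_deriv ?_⟩
  ring

/-- reversed multiplicities -/
def ng (L : List (ℝ × ℝ)) : List (ℝ × ℝ) := L.map fun p => (p.1, -p.2)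

theorem LL_ng (L : List (ℝ × ℝ)) (z : ℂ) : LL (ng L) z = -LL L z := by
  induction L with
  | nil => simp [ng]
  | cons p L ih =>
    have e : ng (p :: L) = (p.1, -p.2) :: ng L := rfl
    rw [e, LL_cons, LL_cons, ih]
    push_cast
    ring

theorem HL.inv {g : ℂ → ℂ} {L : List (ℝ × ℝ)} {z : ℂ} (h : HL g L z) :
    HL (fun z => (g z)⁻¹) (ng L) z := by
  refine ⟨inv_ne_zero h.1, (h.2.inv h.1).congr_deriv ?_⟩
  rw [LL_ng]
  have := h.1
  field_simp

theorem HL.of_eq {g g' : ℂ → ℂ} {L L' : List (ℝ × ℝ)} {z : ℂ} (h : HL g L z)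
    (e : ∀ z, g' z = g z) (e' : LL L z = LL L' z) : HL g' L' z := by
  have : g' = g := funext e
  subst this
  exact ⟨h.1, by rw [← e']; exact h.2⟩

theorem cos_eq (z : ℂ) : Complex.cos z = Complex.sin (z + (4 * l : ℝ)) := by
  unfold l
  rw [show (z + ((4 * (Real.pi / 8) : ℝ) : ℂ)) = z + Real.pi / 2 by push_cast; ring,
    Complex.sin_add_pi_div_two]

theorem HL_q {z : ℂ} (h : z.im ≠ 0) :
    HL q [(0, 2), (2 * l, 1), (-(2 * l), 1), (l, -1), (-l, -1)] z := by
  have h1 := ((((HL.sin 0 h).mul (HL.sin 0 h)).mul (HL.sin (2 * l) h)).mul (HL.sin (-(2 * l)) h)).neg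
  have h2 := ((HL.sin l h).mul (HL.sin (-l) h)).inv
  refine (h1.mul h2).of_eq (fun z => ?_) ?_
  · unfold q
    push_cast
    rw [add_zero, div_eq_mul_inv, ← sub_eq_add_neg, ← sub_eq_add_neg, sq]
  · simp only [LL_append, LL_ng, LL_cons, LL_nil]
    push_cast
    ring

theorem HL_q1 {z : ℂ} (h : z.im ≠ 0) : HL q1 [(0, 1), (l, 1), (-(2 * l), 1), (3 * l, 1)] z := by
  have h1 := (((HL.sin 0 h).mul (HL.sin l h)).mul (HL.sin (-(2 * l)) h)).mul (HL.sin (3 * l) h)
  refine h1.of_eq (fun z => ?_) ?_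
  · unfold q1
    push_cast
    rw [add_zero, ← sub_eq_add_neg]
  · simp only [LL_append, LL_cons, LL_nil]
    push_cast
    ring

theorem HL_q1n {z : ℂ} (h : z.im ≠ 0) :
    HL (fun z => q1 (-z)) [(0, 1), (-l, 1), (2 * l, 1), (-(3 * l), 1)] z := by
  have h1 := (((HL.sin 0 h).mul (HL.sin (-l) h)).mul (HL.sin (2 * l) h)).mul (HL.sin (-(3 * l)) h)
  refine h1.of_eq (fun z => ?_) ?_
  · unfold q1
    push_cast
    have e1 : sin (-z) = -sin (z + 0) := by rw [sin_neg, add_zero]
    have e2 : sin (-z + l) = -sin (z + -l) := by rw [← sin_neg]; congr 1; ring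
    have e3 : sin (-z - 2 * l) = -sin (z + 2 * l) := by rw [← sin_neg]; congr 1; ring
    have e4 : sin (-z + 3 * l) = -sin (z + -(3 * l)) := by rw [← sin_neg]; congr 1; ring
    rw [e1, e2, e3, e4]
    ring
  · simp only [LL_append, LL_cons, LL_nil]
    push_cast
    ring

theorem HL_q2 {z : ℂ} (h : z.im ≠ 0) :
    HL q2 ([(0, 1), (l, 1), (-(2 * l), 1), (3 * l, 1)] ++
      [(0, 1), (-l, 1), (2 * l, 1), (-(3 * l), 1)]) z := by
  refine ((HL_q1 h).mul (HL_q1n h)).of_eq (fun z => ?_) rfl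
  have e : q1 (-z) = q1 (z - l) := by
    unfold q1
    have e1 : sin (-z) = -sin (z - l + l) := by rw [← sin_neg]; congr 1; ring
    have e2 : sin (-z + l) = -sin (z - l) := by rw [← sin_neg]; congr 1; ring
    have e3 : sin (-z - 2 * l) = -sin (z - l + 3 * l) := by rw [← sin_neg]; congr 1; ring
    have e4 : sin (-z + 3 * l) = -sin (z - l - 2 * l) := by rw [← sin_neg]; congr 1; ring
    rw [e1, e2, e3, e4]
    ring
  unfold q2
  rw [e]

/-- the shifts of the displaced cross weight -/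
def zg (a : ℝ) : List (ℝ × ℝ) := [(a + 4 * l, 2), (a + 3 * l, -2), (a - 3 * l, -2)]

theorem HL_qg (a : ℝ) {z : ℂ} (h : z.im ≠ 0) : HL (fun z => qg (z + a)) (zg a) z := by
  have h1 := (HL.sin (a + 4 * l) h).mul (HL.sin (a + 4 * l) h)
  have h2 := (((HL.sin (a + 3 * l) h).mul (HL.sin (a + 3 * l) h)).mul
    ((HL.sin (a - 3 * l) h).mul (HL.sin (a - 3 * l) h))).inv
  refine (h1.mul h2).of_eq (fun z => ?_) ?_
  · unfold qg
    rw [cos_eq]
    have e1 : z + (a : ℂ) + ((4 * l : ℝ) : ℂ) = z + ((a + 4 * l : ℝ) : ℂ) := by push_cast; ring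
    have e2 : z + (a : ℂ) + 3 * l = z + ((a + 3 * l : ℝ) : ℂ) := by push_cast; ring
    have e3 : z + (a : ℂ) - 3 * l = z + ((a - 3 * l : ℝ) : ℂ) := by push_cast; ring
    rw [e1, e2, e3, div_eq_mul_inv, sq, sq, sq]
  · simp only [zg, LL_append, LL_ng, LL_cons, LL_nil]
    push_cast
    ring

theorem HL_qg0 {z : ℂ} (h : z.im ≠ 0) : HL qg (zg 0) z :=
  (HL_qg 0 h).of_eq (fun z => by rw [ofReal_zero, add_zero]) rfl

theorem HL_qgp {z : ℂ} (h : z.im ≠ 0) : HL (fun z => qg (z + l)) (zg l) z := HL_qg l h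

theorem HL_qgm {z : ℂ} (h : z.im ≠ 0) : HL (fun z => qg (z - l)) (zg (-l)) z :=
  (HL_qg (-l) h).of_eq (fun z => by rw [ofReal_neg, ← sub_eq_add_neg]) rfl

/-! ## the pair functions of all kinds -/

/-- displacement of the point where the field is taken -/
def shO : Ob → ℝ
  | .A => 0
  | .L => 2 * l
  | .S => 2 * l

/-- multiplicity of the zero at coinciding points of the field, same species -/
def mS : Ob → Ob → ℝ
  | .A, .A => 2
  | .A, .L => 1
  | .L, .A => 1
  | .L, .L => 2
  | .A, .S => 1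
  | .L, .S => 1
  | .S, .A => 1
  | .S, .L => 1
  | .S, .S => 2

/-- the same, different species -/
def mC : Ob → Ob → ℝ
  | .A, .A => 0
  | .A, .L => 0
  | .L, .A => 0
  | .L, .L => 0
  | .A, .S => -2
  | .L, .S => 0
  | .S, .A => -2
  | .S, .L => 0
  | .S, .S => 0

/-- the other cotangents, same species -/
def oS : Ob → Ob → List (ℝ × ℝ)
  | .A, .A => [(2 * l, 1), (-(2 * l), 1), (l, -1), (-l, -1)]
  | .A, .L => [(0, 2), (2 * l, 1), (l, -1), (-l, -1)]
  | .L, .A => [(0, 2), (-(2 * l), 1), (l, -1), (-l, -1)]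
  | .L, .L => [(2 * l, 1), (-(2 * l), 1), (l, -1), (-l, -1)]
  | .A, .S => [(0, 1), (l, 1), (3 * l, 1)]
  | .L, .S => [(l, 1), (-(2 * l), 1), (3 * l, 1)]
  | .S, .A => [(0, 1), (-l, 1), (-(3 * l), 1)]
  | .S, .L => [(-l, 1), (2 * l, 1), (-(3 * l), 1)]
  | .S, .S => [(l, 1), (-(2 * l), 1), (3 * l, 1), (-l, 1), (2 * l, 1), (-(3 * l), 1)]

/-- the other cotangents, different species -/
def oC : Ob → Ob → List (ℝ × ℝ)
  | .A, .S => [(4 * l, 2), (3 * l, -2), (-(3 * l), -2), (5 * l, 2), (4 * l, -2)]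
  | .L, .S => [(4 * l, 2), (3 * l, -2), (-(3 * l), -2), (5 * l, 2), (4 * l, -2), (-(2 * l), -2)]
  | .S, .A => [(4 * l, 2), (3 * l, -2), (-(3 * l), -2), (3 * l, 2), (-(4 * l), -2)]
  | .S, .L => [(4 * l, 2), (3 * l, -2), (-(3 * l), -2), (3 * l, 2), (2 * l, -2), (-(4 * l), -2)]
  | .S, .S => [(4 * l, 4), (3 * l, -4), (-(3 * l), -4), (5 * l, 2), (4 * l, -2), (-(2 * l), -2),
      (3 * l, 2), (2 * l, -2), (-(4 * l), -2)]
  | .A, .A => [(4 * l, 2), (3 * l, -2), (-(3 * l), -2)]
  | .A, .L => [(4 * l, 2), (3 * l, -2), (-(3 * l), -2)]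
  | .L, .A => [(4 * l, 2), (3 * l, -2), (-(3 * l), -2)]
  | .L, .L => [(4 * l, 2), (3 * l, -2), (-(3 * l), -2)]

/-- the multiplicity -/
def m0 (o o' : CO) : ℝ := if o.1 = o'.1 then mS o.2 o'.2 else mC o.2 o'.2

/-- the other cotangents -/
def oth (o o' : CO) : List (ℝ × ℝ) := if o.1 = o'.1 then oS o.2 o'.2 else oC o.2 o'.2

/-- all cotangents -/
def zs (o o' : CO) : List (ℝ × ℝ) := (shO o.2 - shO o'.2, m0 o o') :: oth o o'

theorem HL_pwz (k k' : Ob) {z : ℂ} (h : z.im ≠ 0) :
    HL (pwz k k') ((shO k - shO k', mS k k') :: oS k k') z := by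
  rcases k with _ | _ | _ <;> rcases k' with _ | _ | _
  · refine (HL_q h).of_eq (fun z => rfl) ?_
    simp only [LL_cons, LL_nil, shO, mS, oS, sub_self]
  · refine (HL_q h).of_eq (fun z => rfl) ?_
    simp only [LL_cons, LL_nil, shO, mS, oS, zero_sub]
    ring
  · refine (HL_q1 h).of_eq (fun z => rfl) ?_
    simp only [LL_cons, LL_nil, shO, mS, oS, zero_sub]
    ring
  · refine (HL_q h).of_eq (fun z => rfl) ?_
    simp only [LL_cons, LL_nil, shO, mS, oS, sub_zero]
    ring
  · refine (HL_q h).of_eq (fun z => rfl) ?_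
    simp only [LL_cons, LL_nil, shO, mS, oS, sub_self]
  · refine (HL_q1 h).of_eq (fun z => rfl) ?_
    simp only [LL_cons, LL_nil, shO, mS, oS, sub_self]
  · refine (HL_q1n h).of_eq (fun z => rfl) ?_
    simp only [LL_cons, LL_nil, shO, mS, oS, sub_zero]
    ring
  · refine (HL_q1n h).of_eq (fun z => rfl) ?_
    simp only [LL_cons, LL_nil, shO, mS, oS, sub_self]
  · refine (HL_q2 h).of_eq (fun z => rfl) ?_
    simp only [LL_append, LL_cons, LL_nil, shO, mS, oS, sub_self]
    push_cast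
    ring

theorem HL_cwz (k k' : Ob) {z : ℂ} (h : z.im ≠ 0) :
    HL (cwz k k') ((shO k - shO k', mC k k') :: oC k k') z := by
  have e0 : LL (zg 0) z = LL [(4 * l, 2), (3 * l, -2), (-(3 * l), -2)] z := by
    simp only [zg, LL_cons, LL_nil, zero_add, zero_sub]
  have e1 : LL (zg l) z = LL [(5 * l, 2), (4 * l, -2), (-(2 * l), -2)] z := by
    simp only [zg, LL_cons, LL_nil]
    rw [show l + 4 * l = 5 * l by ring, show l + 3 * l = 4 * l by ring,
      show l - 3 * l = -(2 * l) by ring]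
  have e2 : LL (zg (-l)) z = LL [(3 * l, 2), (2 * l, -2), (-(4 * l), -2)] z := by
    simp only [zg, LL_cons, LL_nil]
    rw [show -l + 4 * l = 3 * l by ring, show -l + 3 * l = 2 * l by ring,
      show -l - 3 * l = -(4 * l) by ring]
  rcases k with _ | _ | _ <;> rcases k' with _ | _ | _
  · refine (HL_qg0 h).of_eq (fun z => rfl) ?_
    rw [e0]
    simp only [LL_cons, LL_nil, shO, mC, oC, ofReal_zero, zero_mul, zero_add]
  · refine (HL_qg0 h).of_eq (fun z => rfl) ?_
    rw [e0]
    simp only [LL_cons, LL_nil, shO, mC, oC, ofReal_zero, zero_mul, zero_add]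
  · refine ((HL_qg0 h).mul (HL_qgp h)).of_eq (fun z => rfl) ?_
    rw [LL_append, e0, e1]
    simp only [LL_cons, LL_nil, shO, mC, oC, zero_sub]
    push_cast
    ring
  · refine (HL_qg0 h).of_eq (fun z => rfl) ?_
    rw [e0]
    simp only [LL_cons, LL_nil, shO, mC, oC, ofReal_zero, zero_mul, zero_add]
  · refine (HL_qg0 h).of_eq (fun z => rfl) ?_
    rw [e0]
    simp only [LL_cons, LL_nil, shO, mC, oC, ofReal_zero, zero_mul, zero_add]
  · refine ((HL_qg0 h).mul (HL_qgp h)).of_eq (fun z => rfl) ?_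
    rw [LL_append, e0, e1]
    simp only [LL_cons, LL_nil, shO, mC, oC, ofReal_zero, zero_mul, zero_add]
    push_cast
    ring
  · refine ((HL_qg0 h).mul (HL_qgm h)).of_eq (fun z => rfl) ?_
    rw [LL_append, e0, e2]
    simp only [LL_cons, LL_nil, shO, mC, oC, sub_zero]
    push_cast
    ring
  · refine ((HL_qg0 h).mul (HL_qgm h)).of_eq (fun z => rfl) ?_
    rw [LL_append, e0, e2]
    simp only [LL_cons, LL_nil, shO, mC, oC, ofReal_zero, zero_mul, zero_add]
    push_cast
    ring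
  · refine (((HL_qg0 h).mul (HL_qg0 h)).mul ((HL_qgp h).mul (HL_qgm h))).of_eq (fun z => rfl) ?_
    rw [LL_append, LL_append, LL_append, e0, e1, e2]
    simp only [LL_cons, LL_nil, shO, mC, oC, ofReal_zero, zero_mul, zero_add]
    push_cast
    ring

/-- **the logarithmic derivative of a pair function** -/
theorem lz_eq (o o' : CO) {z : ℂ} (h : z.im ≠ 0) : lz o o' z = LL (zs o o') z := by
  have key : HL (gz o o') (zs o o') z := by
    unfold zs m0 oth
    by_cases hc : o.1 = o'.1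
    · have e : gz o o' = pwz o.2 o'.2 := funext fun w => by unfold gz; rw [if_pos hc]
      rw [e, if_pos hc, if_pos hc]
      exact HL_pwz _ _ h
    · have e : gz o o' = cwz o.2 o'.2 := funext fun w => by unfold gz; rw [if_neg hc]
      rw [e, if_neg hc, if_neg hc]
      exact HL_cwz _ _ h
  exact key.lg

theorem lz_split (o o' : CO) {z : ℂ} (h : z.im ≠ 0) :
    lz o o' z = (m0 o o' : ℂ) * cot (z + (shO o.2 - shO o'.2 : ℝ)) + LL (oth o o') z := lz_eq o o' h

/-- sum of the multiplicities -/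
def sm (L : List (ℝ × ℝ)) : ℝ := (L.map fun p => p.2).sum

/-- total multiplicity = twice the product of the charges -/
theorem sm_zs (o o' : CO) : sm (zs o o') = 2 * (sc o * sc o') := by
  obtain ⟨c, k⟩ := o
  obtain ⟨c', k'⟩ := o'
  cases c <;> cases c' <;> cases k <;> cases k' <;>
    simp [sm, zs, m0, oth, mS, mC, oS, oC, sc, chg] <;> norm_num

theorem mS_symm (k k' : Ob) : mS k k' = mS k' k := by cases k <;> cases k' <;> rfl

theorem mC_symm (k k' : Ob) : mC k k' = mC k' k := by cases k <;> cases k' <;> rfl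

theorem m0_symm (o o' : CO) : m0 o o' = m0 o' o := by
  unfold m0
  by_cases h : o.1 = o'.1
  · rw [if_pos h, if_pos h.symm, mS_symm]
  · rw [if_neg h, if_neg (Ne.symm h), mC_symm]

theorem m0_self (o : CO) : m0 o o = 2 := by
  unfold m0
  rw [if_pos rfl]
  rcases o.2 with _ | _ | _ <;> rfl

/-! ## the regularised cotangent -/

/-- `w cot w` -/
def wc (w : ℂ) : ℂ := cos w / dslope Complex.sin 0 w

theorem dsin_ne {w : ℂ} (hw : |w.re| < Real.pi) : dslope Complex.sin 0 w ≠ 0 := by
  rcases eq_or_ne w 0 with rfl | h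
  · rw [dslope_same, Complex.deriv_sin, cos_zero]
    exact one_ne_zero
  · rw [dslope_of_ne _ h, slope_def_field, sin_zero, sub_zero, sub_zero]
    refine div_ne_zero ?_ h
    intro h0
    obtain ⟨k, hk⟩ := Complex.sin_eq_zero_iff.1 h0
    rw [hk] at hw
    simp only [mul_re, intCast_re, ofReal_re, intCast_im, ofReal_im, mul_zero, sub_zero] at hw
    rw [abs_mul, abs_of_pos Real.pi_pos] at hw
    have hp := Real.pi_pos
    have h1 : |(k : ℝ)| < 1 := by
      by_contra hc
      push Not at hc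
      nlinarith
    have h2 : k = 0 := by
      have : |k| < 1 := by exact_mod_cast h1
      exact Int.abs_lt_one_iff.1 this
    apply h
    rw [hk, h2]
    simp

theorem wc_zero : wc 0 = 1 := by
  unfold wc
  rw [dslope_same, Complex.deriv_sin, cos_zero, _root_.div_one]

theorem wc_of_ne {w : ℂ} (h : w ≠ 0) : wc w = w * cot w := by
  unfold wc
  rw [dslope_of_ne _ h, slope_def_field, sin_zero, sub_zero, sub_zero, Complex.cot]
  rw [div_div_eq_mul_div]
  ring

theorem wc_neg (w : ℂ) : wc (-w) = wc w := by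
  rcases eq_or_ne w 0 with rfl | h
  · rw [neg_zero]
  · rw [wc_of_ne h, wc_of_ne (neg_ne_zero.2 h), Complex.cot, Complex.cot, cos_neg, sin_neg]
    ring

theorem wc_diff {w : ℂ} (hw : |w.re| < Real.pi) : DifferentiableAt ℂ wc w := by
  have h1 : DifferentiableAt ℂ (dslope Complex.sin 0) w := by
    have h2 := (Complex.differentiableOn_dslope (s := univ) (c := (0 : ℂ))
      (f := Complex.sin) Filter.univ_mem).2 Complex.differentiable_sin.differentiableOn
    exact (h2 w (mem_univ _)).differentiableAt Filter.univ_mem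
  exact (Complex.differentiable_cos w).div h1 (dsin_ne hw)

/-- `(X u - X v) cot (u - v)` with the singularity at `u = v` removed -/
def rg (X : ℂ → ℂ) (u v : ℂ) : ℂ := dslope X u v * wc (u - v)

theorem rg_self (X : ℂ → ℂ) (u : ℂ) : rg X u u = deriv X u := by
  unfold rg
  rw [sub_self, wc_zero, dslope_same, mul_one]

theorem rg_of_ne (X : ℂ → ℂ) {u v : ℂ} (h : u ≠ v) : rg X u v = (X u - X v) * cot (u - v) := by
  unfold rg
  have h1 : u - v ≠ 0 := sub_ne_zero.2 h
  have h2 : v - u ≠ 0 := sub_ne_zero.2 h.symm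
  rw [wc_of_ne h1, dslope_of_ne _ h.symm, slope_def_field]
  have e : (X v - X u) / (v - u) * ((u - v) * cot (u - v)) = (X u - X v) * cot (u - v) := by
    field_simp
    ring
  exact e

theorem rg_symm (X : ℂ → ℂ) (u v : ℂ) : rg X u v = rg X v u := by
  rcases eq_or_ne u v with rfl | h
  · rfl
  · rw [rg_of_ne X h, rg_of_ne X h.symm, Complex.cot, Complex.cot,
      show v - u = -(u - v) by ring, cos_neg, sin_neg]
    ring

theorem rg_diff {X : ℂ → ℂ} {S : Set ℂ} (hS : IsOpen S) (hX : DifferentiableOn ℂ X S) {u : ℂ}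
    (hu : u ∈ S) {v : ℂ} (hv : v ∈ S) (h : |(u - v).re| < Real.pi) :
    DifferentiableAt ℂ (rg X u) v := by
  have h1 := (Complex.differentiableOn_dslope (hS.mem_nhds hu)).2 hX
  have h2 : DifferentiableAt ℂ (dslope X u) v := (h1 v hv).differentiableAt (hS.mem_nhds hv)
  have h3 : DifferentiableAt ℂ (fun v => wc (u - v)) v :=
    (wc_diff h).comp v ((differentiableAt_const u).sub differentiableAt_id)
  exact h2.mul h3

theorem measurable_wc : Measurable wc := by
  have h1 : Measurable (dslope Complex.sin 0) := by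
    have h2 := (Complex.differentiableOn_dslope (s := univ) (c := (0 : ℂ))
      (f := Complex.sin) Filter.univ_mem).2 Complex.differentiable_sin.differentiableOn
    exact (continuousOn_univ.1 h2.continuousOn).measurable
  exact Complex.continuous_cos.measurable.div h1

theorem measurable_rg {X : ℂ → ℂ} (hX : Measurable X) :
    Measurable fun p : ℂ × ℂ => rg X p.1 p.2 := by
  have e : (fun p : ℂ × ℂ => dslope X p.1 p.2) = fun p => if p.1 = p.2 then deriv X p.1 else
      (X p.2 - X p.1) / (p.2 - p.1) := by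
    funext p
    split_ifs with h
    · rw [h, dslope_same]
    · rw [dslope_of_ne _ (Ne.symm h), slope_def_field]
  unfold rg
  refine Measurable.mul ?_ (measurable_wc.comp (measurable_fst.sub measurable_snd))
  rw [e]
  refine Measurable.ite (measurableSet_eq_fun measurable_fst measurable_snd)
    ((measurable_deriv X).comp measurable_fst) ?_
  exact ((hX.comp measurable_snd).sub (hX.comp measurable_fst)).div
    (measurable_snd.sub measurable_fst)

/-! ## bounds of cotangents -/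

theorem norm_sin_sq' (w : ℂ) : ‖sin w‖ ^ 2 = Real.sin w.re ^ 2 + Real.sinh w.im ^ 2 :=
  NUP1.norm_sin_sq w

theorem norm_cos_sq' (w : ℂ) : ‖cos w‖ ^ 2 = Real.cos w.re ^ 2 + Real.sinh w.im ^ 2 := by
  have h := NUP1.norm_sin_sq (w + Real.pi / 2)
  rw [Complex.sin_add_pi_div_two] at h
  have e1 : (w + Real.pi / 2 : ℂ).re = w.re + Real.pi / 2 := by simp
  have e2 : (w + Real.pi / 2 : ℂ).im = w.im := by simp
  rw [e1, e2, Real.sin_add_pi_div_two] at h
  exact h

theorem norm_cot_le {w : ℂ} {δ : ℝ} (hδ : 0 < δ) (h : δ ≤ |Real.sin w.re|) :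
    ‖cot w‖ ≤ 1 / δ := by
  have h1 := norm_sin_sq' w
  have h2 := norm_cos_sq' w
  have h3 : δ ^ 2 ≤ Real.sin w.re ^ 2 := by
    rw [← sq_abs (Real.sin w.re)]
    exact pow_le_pow_left₀ hδ.le h 2
  have h4 := Real.sin_sq_add_cos_sq w.re
  have h5 := sq_nonneg (Real.sinh w.im)
  have hδ1 : δ ^ 2 ≤ 1 := by nlinarith [sq_nonneg (Real.cos w.re)]
  have hs : 0 < ‖sin w‖ ^ 2 := by rw [h1]; nlinarith [sq_nonneg δ, pow_pos hδ 2]
  have hs' : 0 < ‖sin w‖ := by
    rcases (norm_nonneg (sin w)).lt_or_eq with h | h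
    · exact h
    · rw [← h] at hs
      norm_num at hs
  have h6 : (δ * ‖cos w‖) ^ 2 ≤ ‖sin w‖ ^ 2 := by
    rw [mul_pow, h1, h2]
    have h7 : δ ^ 2 * Real.sinh w.im ^ 2 ≤ Real.sinh w.im ^ 2 := by nlinarith
    have h8 : δ ^ 2 * Real.cos w.re ^ 2 ≤ δ ^ 2 := by nlinarith [sq_nonneg (Real.sin w.re), pow_pos hδ 2]
    nlinarith
  have h7 : δ * ‖cos w‖ ≤ ‖sin w‖ := abs_le_of_sq_le_sq' h6 hs'.le |>.2
  rw [Complex.cot, norm_div, div_le_div_iff₀ hs' hδ, one_mul, mul_comm]
  exact h7

/-- exponentially close to the limits -/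
theorem norm_cot_far {w : ℂ} (h : 1 ≤ w.im) : ‖I * cot w - 1‖ ≤ 4 * Real.exp (-2 * w.im) := by
  have hE : ‖Complex.exp (-2 * I * w)‖ = Real.exp (2 * w.im) := by
    rw [Complex.norm_exp]
    congr 1
    simp
  have h1 : 4 ≤ Real.exp (2 * w.im) := by
    have h2 := Real.add_one_le_exp (2 * w.im)
    have h3 : Real.exp 2 ≤ Real.exp (2 * w.im) := Real.exp_le_exp.2 (by linarith)
    have h4 : (4 : ℝ) ≤ Real.exp 2 := by
      have h5 := Real.exp_one_gt_d9
      have h6 : Real.exp 2 = Real.exp 1 * Real.exp 1 := by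
        rw [← Real.exp_add]
        norm_num
      rw [h6]
      nlinarith
    linarith
  have hne : Complex.exp (-2 * I * w) - 1 ≠ 0 := by
    intro h0
    rw [sub_eq_zero.1 h0, norm_one] at hE
    linarith
  have key : I * cot w - 1 = 2 / (Complex.exp (-2 * I * w) - 1) := by
    have hs : sin w ≠ 0 := PB.sin_ne_im (by linarith)
    have e1 : Complex.exp (-2 * I * w) = Complex.exp (-I * w) * Complex.exp (-I * w) := by
      rw [← Complex.exp_add]; congr 1; ring
    have e2 : Complex.exp (I * w) * Complex.exp (-I * w) = 1 := by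
      rw [← Complex.exp_add]; simp
    have e3 : cos w = (Complex.exp (I * w) + Complex.exp (-I * w)) / 2 := by
      rw [Complex.cos]
      congr 3 <;> ring
    have e4 : sin w = (Complex.exp (-I * w) - Complex.exp (I * w)) * I / 2 := by
      rw [Complex.sin]
      congr 4 <;> ring
    rw [eq_div_iff hne, Complex.cot, sub_mul, mul_div_assoc', div_mul_eq_mul_div, one_mul,
      sub_eq_iff_eq_add, div_eq_iff hs, e3, e4, e1]
    linear_combination (I * Complex.exp (-I * w)) * e2
  have h2 : Real.exp (2 * w.im) / 2 ≤ ‖Complex.exp (-2 * I * w) - 1‖ := by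
    have h3 := norm_sub_norm_le (Complex.exp (-2 * I * w)) 1
    rw [hE, norm_one] at h3
    linarith
  have h0 := Real.exp_pos (2 * w.im)
  rw [key, norm_div, Complex.norm_ofNat, div_le_iff₀ (by linarith)]
  calc (2 : ℝ) = 4 * Real.exp (-2 * w.im) * (Real.exp (2 * w.im) / 2) := by
        rw [mul_div_assoc', mul_assoc, ← Real.exp_add]
        norm_num
    _ ≤ _ := mul_le_mul_of_nonneg_left h2 (by positivity)

theorem cot_neg' (w : ℂ) : cot (-w) = -cot w := by
  rw [Complex.cot, Complex.cot, cos_neg, sin_neg, div_neg]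

theorem norm_cot_far' {w : ℂ} (h : w.im ≤ -1) : ‖I * cot w + 1‖ ≤ 4 * Real.exp (2 * w.im) := by
  have h1 := norm_cot_far (w := -w) (by simpa using (by linarith : 1 ≤ -w.im))
  rw [cot_neg'] at h1
  have e : I * -cot w - 1 = -(I * cot w + 1) := by ring
  rw [e, norm_neg] at h1
  refine h1.trans (le_of_eq ?_)
  simp

/-- `w cot w` near the real axis -/
theorem norm_wc_le {w : ℂ} (h1 : |w.re| ≤ Real.pi / 2) (h2 : |w.im| ≤ 1) : ‖wc w‖ ≤ 4 := by
  rcases eq_or_ne w 0 with rfl | h
  · rw [wc_zero, norm_one]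
    norm_num
  · have hp := Real.pi_pos
    have hp4 := Real.pi_le_four
    have a1 : 2 / Real.pi * |w.re| ≤ |Real.sin w.re| := Real.mul_abs_le_abs_sin h1
    have a2 : |w.im| ≤ |Real.sinh w.im| := by
      rw [Real.abs_sinh]
      exact Real.self_le_sinh_iff.2 (abs_nonneg _)
    have b1 : (1 / 2 * |w.re|) ^ 2 ≤ Real.sin w.re ^ 2 := by
      rw [← sq_abs (Real.sin w.re)]
      refine pow_le_pow_left₀ (by positivity) (le_trans ?_ a1) 2
      refine mul_le_mul_of_nonneg_right ?_ (abs_nonneg _)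
      rw [div_le_div_iff₀ (by norm_num) hp]
      linarith
    have b2 : |w.im| ^ 2 ≤ Real.sinh w.im ^ 2 := by
      rw [← sq_abs (Real.sinh w.im)]
      exact pow_le_pow_left₀ (abs_nonneg _) a2 2
    have c1 : (1 / 2 * ‖w‖) ^ 2 ≤ ‖sin w‖ ^ 2 := by
      rw [norm_sin_sq', mul_pow, Complex.sq_norm, Complex.normSq_apply]
      rw [mul_pow, sq_abs] at b1
      rw [sq_abs] at b2
      nlinarith
    have c2 : 1 / 2 * ‖w‖ ≤ ‖sin w‖ := abs_le_of_sq_le_sq' c1 (norm_nonneg _) |>.2
    have c3 : ‖cos w‖ ≤ 2 := by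
      have d1 : ‖cos w‖ ≤ Real.cosh w.im := by
        have := norm_cos_sq' w
        have d2 := Real.cosh_sq w.im
        refine abs_le_of_sq_le_sq' ?_ (Real.cosh_pos _).le |>.2
        rw [this, d2]
        nlinarith [Real.sin_sq_add_cos_sq w.re, sq_nonneg (Real.sin w.re)]
      have d3 : Real.cosh w.im ≤ Real.cosh 1 := by
        rw [Real.cosh_le_cosh, abs_one]
        exact h2
      have d4 : Real.cosh 1 ≤ 2 := by
        rw [Real.cosh_eq]
        have := Real.exp_one_lt_d9
        have d5 : Real.exp (-1) ≤ 1 := Real.exp_le_one_iff.2 (by norm_num)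
        linarith
      linarith
    have hw : 0 < ‖w‖ := norm_pos_iff.2 h
    have hs : 0 < ‖sin w‖ := by linarith
    rw [wc_of_ne h, Complex.cot, norm_mul, norm_div, mul_div_assoc', div_le_iff₀ hs]
    nlinarith [norm_nonneg (cos w)]

/-! ## bounds of the sums of cotangents -/

/-- sum of the absolute multiplicities -/
def am (L : List (ℝ × ℝ)) : ℝ := (L.map fun p => |p.2|).sum

theorem am_nonneg (L : List (ℝ × ℝ)) : 0 ≤ am L := by
  unfold am
  refine List.sum_nonneg fun x hx => ?_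
  obtain ⟨p, -, rfl⟩ := List.mem_map.1 hx
  exact abs_nonneg _

theorem am_zs (o o' : CO) : am (zs o o') ≤ 26 := by
  obtain ⟨c, k⟩ := o
  obtain ⟨c', k'⟩ := o'
  cases c <;> cases c' <;> cases k <;> cases k' <;>
    simp [am, zs, m0, oth, mS, mC, oS, oC] <;> norm_num

theorem am_oth (o o' : CO) : am (oth o o') ≤ 26 := by
  have h := am_zs o o'
  have e : am (zs o o') = |m0 o o'| + am (oth o o') := rfl
  have := abs_nonneg (m0 o o')
  linarith

theorem abs_m0 (o o' : CO) : |m0 o o'| ≤ 2 := by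
  obtain ⟨c, k⟩ := o
  obtain ⟨c', k'⟩ := o'
  cases c <;> cases c' <;> cases k <;> cases k' <;> simp [m0, mS, mC]

theorem norm_LL_le {L : List (ℝ × ℝ)} {z : ℂ} {δ : ℝ} (hδ : 0 < δ)
    (h : ∀ p ∈ L, δ ≤ |Real.sin (z.re + p.1)|) : ‖LL L z‖ ≤ am L / δ := by
  induction L with
  | nil => simp [am]
  | cons p L ih =>
    have h1 : ‖cot (z + p.1)‖ ≤ 1 / δ := norm_cot_le hδ (by
      have := h p List.mem_cons_self
      simpa using this)
    have h2 := ih fun p' hp' => h p' (List.mem_cons_of_mem _ hp')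
    have e : am (p :: L) = |p.2| + am L := rfl
    rw [LL_cons, e]
    refine (norm_add_le _ _).trans ?_
    rw [norm_mul, norm_real, Real.norm_eq_abs, add_div]
    refine add_le_add ?_ h2
    rw [div_eq_mul_one_div]
    exact mul_le_mul_of_nonneg_left h1 (abs_nonneg _)

theorem LL_far {L : List (ℝ × ℝ)} {z : ℂ} (h : 1 ≤ z.im) :
    ‖I * LL L z - sm L‖ ≤ am L * (4 * Real.exp (-2 * z.im)) := by
  induction L with
  | nil => simp [am, sm]
  | cons p L ih =>
    have h1 := norm_cot_far (w := z + p.1) (by simpa using h)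
    have e2 : (z + (p.1 : ℂ)).im = z.im := by simp
    rw [e2] at h1
    have e : am (p :: L) = |p.2| + am L := rfl
    have e1 : sm (p :: L) = p.2 + sm L := rfl
    have e3 : I * LL (p :: L) z - (sm (p :: L) : ℝ) =
        (p.2 : ℂ) * (I * cot (z + p.1) - 1) + (I * LL L z - sm L) := by
      rw [LL_cons, e1]
      push_cast
      ring
    rw [e3, e, add_mul]
    refine (norm_add_le _ _).trans (add_le_add ?_ ih)
    rw [norm_mul, norm_real, Real.norm_eq_abs]
    exact mul_le_mul_of_nonneg_left h1 (abs_nonneg _)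

theorem LL_far' {L : List (ℝ × ℝ)} {z : ℂ} (h : z.im ≤ -1) :
    ‖I * LL L z + sm L‖ ≤ am L * (4 * Real.exp (2 * z.im)) := by
  induction L with
  | nil => simp [am, sm]
  | cons p L ih =>
    have h1 := norm_cot_far' (w := z + p.1) (by simpa using h)
    have e2 : (z + (p.1 : ℂ)).im = z.im := by simp
    rw [e2] at h1
    have e : am (p :: L) = |p.2| + am L := rfl
    have e1 : sm (p :: L) = p.2 + sm L := rfl
    have e3 : I * LL (p :: L) z + (sm (p :: L) : ℝ) =
        (p.2 : ℂ) * (I * cot (z + p.1) + 1) + (I * LL L z + sm L) := by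
      rw [LL_cons, e1]
      push_cast
      ring
    rw [e3, e, add_mul]
    refine (norm_add_le _ _).trans (add_le_add ?_ ih)
    rw [norm_mul, norm_real, Real.norm_eq_abs]
    exact mul_le_mul_of_nonneg_left h1 (abs_nonneg _)

theorem LL_diff {L : List (ℝ × ℝ)} {z : ℂ} (h : ∀ p ∈ L, Real.sin (z.re + p.1) ≠ 0) :
    DifferentiableAt ℂ (LL L) z := by
  induction L with
  | nil =>
    have : LL [] = fun _ => (0 : ℂ) := funext fun z => LL_nil z
    rw [this]
    exact differentiableAt_const _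
  | cons p L ih =>
    have h2 := ih fun p' hp' => h p' (List.mem_cons_of_mem _ hp')
    have h0 : sin (z + p.1) ≠ 0 := by
      intro h0
      have h3 := norm_sin_sq' (z + p.1)
      rw [h0, norm_zero] at h3
      have h4 : 0 < Real.sin (z + p.1).re ^ 2 := by
        have := h p List.mem_cons_self
        have e : (z + (p.1 : ℂ)).re = z.re + p.1 := by simp
        rw [e]
        positivity
      nlinarith [sq_nonneg (Real.sinh (z + (p.1 : ℂ)).im)]
    have h1 : DifferentiableAt ℂ (fun z : ℂ => cot (z + p.1)) z := by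
      have e : (fun z : ℂ => cot (z + p.1)) = fun z => cos (z + p.1) / sin (z + p.1) := rfl
      rw [e]
      exact DifferentiableAt.div (by fun_prop) (by fun_prop) h0
    have e : LL (p :: L) = fun z => (p.2 : ℂ) * cot (z + p.1) + LL L z := funext fun z => LL_cons p L z
    rw [e]
    exact (h1.const_mul _).add h2

theorem measurable_LL (L : List (ℝ × ℝ)) : Measurable (LL L) := by
  induction L with
  | nil =>
    have : LL [] = fun _ => (0 : ℂ) := funext fun z => LL_nil z
    rw [this]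
    exact measurable_const
  | cons p L ih =>
    have e : LL (p :: L) = fun z => (p.2 : ℂ) * (cos (z + p.1) / sin (z + p.1)) + LL L z :=
      funext fun z => LL_cons p L z
    rw [e]
    have h1 : Measurable fun z : ℂ => cos (z + p.1) := by fun_prop
    have h2 : Measurable fun z : ℂ => sin (z + p.1) := by fun_prop
    exact ((h1.div h2).const_mul _).add ih

/-! ## the strips of the heads -/

/-- left ends of the strips -/
def lo : Option O3 → ℝ
  | none => 1 / 2 * l
  | some .L => -(13 / 10) * l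
  | some .S => -(7 / 5) * l
  | some .T => -(11 / 20) * l

/-- right ends of the strips -/
def hi : Option O3 → ℝ
  | none => 6 / 5 * l
  | some .L => -(6 / 5) * l
  | some .S => -(6 / 5) * l
  | some .T => -(9 / 20) * l

/-- the strip of the heads of a kind -/
def Str (k : Option O3) : Set ℂ := {z | lo k ≤ z.re ∧ z.re ≤ hi k}

/-- the strip of the field -/
def Fst : Set ℂ := {u | 1 / 2 * l ≤ u.re ∧ u.re ≤ 31 / 20 * l}

/-- displacement of the field -/
def sh (k : Option O3) : ℝ := shO (ob4 k)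

theorem sh_none : sh none = 0 := rfl

theorem sh_some (k : O3) : sh (some k) = 2 * l := by cases k <;> rfl

/-- the point where the field of a kind is taken -/
def pf (k : Option O3) (z : ℂ) : ℂ := z + sh k

theorem pf_im (k : Option O3) (z : ℂ) : (pf k z).im = z.im := by simp [pf]

theorem pf_re (k : Option O3) (z : ℂ) : (pf k z).re = z.re + sh k := by simp [pf]

theorem pf_mem {k : Option O3} {z : ℂ} (h : z ∈ Str k) : pf k z ∈ Fst := by
  have hl := Bd.l_pos
  obtain ⟨h1, h2⟩ := h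
  show _ ≤ (pf k z).re ∧ (pf k z).re ≤ _
  rw [pf_re]
  rcases k with _ | (_ | _ | _) <;> simp only [lo, hi, sh, shO, ob4, ob3, Option.elim] at * <;>
    constructor <;> linarith

/-- away from the multiples of `π` -/
structure Awy (w : ℝ) : Prop where
  ge : 1 / 20 * l ≤ |w|
  le : |w| ≤ 159 / 20 * l

theorem Awy.mk' {w : ℝ} (h : (1 / 20 * l ≤ w ∧ w ≤ 159 / 20 * l) ∨
    (1 / 20 * l ≤ -w ∧ -w ≤ 159 / 20 * l)) : Awy w := by
  have hl := Bd.l_pos
  rcases h with h | h
  · exact ⟨by rw [abs_of_pos (by linarith [h.1])]; exact h.1,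
      by rw [abs_of_pos (by linarith [h.1])]; exact h.2⟩
  · exact ⟨by rw [abs_of_neg (by linarith [h.1])]; exact h.1,
      by rw [abs_of_neg (by linarith [h.1])]; exact h.2⟩

theorem oth_far {b c : Bool × Option O3} {z z' : ℂ} (hz : z ∈ Str b.2) (hz' : z' ∈ Str c.2) :
    ∀ p ∈ oth (co b) (co c), Awy ((z - z').re + p.1) := by
  have hl := Bd.l_pos
  obtain ⟨s, k⟩ := b
  obtain ⟨s', k'⟩ := c
  obtain ⟨h1, h2⟩ := hz
  obtain ⟨h3, h4⟩ := hz'
  rw [sub_re]
  generalize z.re = x at *
  generalize z'.re = y at *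
  unfold oth co
  by_cases hc : s = s'
  · simp only [hc, if_true]
    rcases k with _ | (_ | _ | _) <;> rcases k' with _ | (_ | _ | _) <;>
      simp only [lo, hi, ob4, ob3, Option.elim, oS] at * <;>
      simp only [List.mem_cons, List.not_mem_nil, or_false, forall_eq_or_imp, forall_eq] <;>
      (repeat' apply And.intro) <;> refine Awy.mk' ?_ <;>
      first
        | exact Or.inl ⟨by linarith, by linarith⟩
        | exact Or.inr ⟨by linarith, by linarith⟩
  · simp only [hc, if_false]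
    rcases k with _ | (_ | _ | _) <;> rcases k' with _ | (_ | _ | _) <;>
      simp only [lo, hi, ob4, ob3, Option.elim, oC] at * <;>
      simp only [List.mem_cons, List.not_mem_nil, or_false, forall_eq_or_imp, forall_eq] <;>
      (repeat' apply And.intro) <;> refine Awy.mk' ?_ <;>
      first
        | exact Or.inl ⟨by linarith, by linarith⟩
        | exact Or.inr ⟨by linarith, by linarith⟩

/-- the lower bound of the sines -/
def dl : ℝ := Real.sin (1 / 20 * l)

theorem dl_pos : 0 < dl := by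
  have hl := Bd.l_pos
  refine Real.sin_pos_of_pos_of_lt_pi (by positivity) ?_
  unfold l
  linarith [Real.pi_pos]

theorem Awy.sin_ge {w : ℝ} (h : Awy w) : dl ≤ |Real.sin w| := by
  have hl := Bd.l_pos
  have e : 159 / 20 * l = Real.pi - 1 / 20 * l := by
    unfold l
    ring
  have key := PBV.sin_ge_of (a := 1 / 20 * l) (x := |w|) (by positivity) h.ge (by rw [← e]; exact h.le)
  unfold dl
  rcases abs_cases w with ⟨h1, -⟩ | ⟨h1, -⟩
  · rw [h1] at key
    exact key.trans (le_abs_self _)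
  · rw [h1, Real.sin_neg] at key
    exact key.trans (neg_le_abs _)

theorem norm_oth_le {b c : Bool × Option O3} {z z' : ℂ} (hz : z ∈ Str b.2) (hz' : z' ∈ Str c.2) :
    ‖LL (oth (co b) (co c)) (z - z')‖ ≤ 26 / dl := by
  refine (norm_LL_le dl_pos fun p hp => (oth_far hz hz' p hp).sin_ge).trans ?_
  exact div_le_div_of_nonneg_right (am_oth _ _) dl_pos.le

theorem Awy.sin_ne {w : ℝ} (h : Awy w) : Real.sin w ≠ 0 := by
  intro h0
  have := h.sin_ge
  rw [h0, abs_zero] at this
  linarith [dl_pos]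

/-- **the strips contain the landed strips of the lines** -/
theorem mem_Str_P {k : Option O3} {x : ℝ} (h : x ∈ Set.Icc (NURow.loP k) (NURow.hiP k)) (t : ℝ) :
    vl x t ∈ Str k := by
  have hl := Bd.l_pos
  obtain ⟨h1, h2⟩ := h
  show lo k ≤ (vl x t).re ∧ (vl x t).re ≤ hi k
  have e : (vl x t).re = x := by simp [vl]
  rw [e]
  rcases k with _ | (_ | _ | _) <;> simp only [lo, hi, NURow.loP, NURow.hiP] at * <;>
    constructor <;> linarith

/-! ## the kernel -/

/-- **the pair kernel of the first Ward identity**, heads `z`, `z'` of the kinds `b`, `c` -/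
def aK (X : ℂ → ℂ) (b c : Bool × Option O3) (z z' : ℂ) : ℂ :=
  I * ((m0 (co b) (co c) : ℂ) * rg X (pf b.2 z) (pf c.2 z') +
    (X (pf b.2 z) - X (pf c.2 z')) * LL (oth (co b) (co c)) (z - z'))

theorem shift_eq (b c : Bool × Option O3) (z z' : ℂ) :
    z - z' + (shO (co b).2 - shO (co c).2 : ℝ) = pf b.2 z - pf c.2 z' := by
  unfold pf sh co
  push_cast
  ring

/-- **off the diagonal heights it is the logarithmic derivative** -/
theorem aK_eq (X : ℂ → ℂ) (b c : Bool × Option O3) {z z' : ℂ} (h : z.im ≠ z'.im) :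
    aK X b c z z' = (X (pf b.2 z) - X (pf c.2 z')) * (I * lz (co b) (co c) (z - z')) := by
  have h1 : (z - z').im ≠ 0 := by
    rw [sub_im]
    exact sub_ne_zero.2 h
  have h2 : pf b.2 z ≠ pf c.2 z' := fun e => h (by rw [← pf_im b.2 z, e, pf_im])
  unfold aK
  rw [lz_split _ _ h1, shift_eq, rg_of_ne X h2]
  ring

theorem oth_neg (o o' : CO) (z : ℂ) : LL (oth o o') z = -LL (oth o' o) (-z) := by
  obtain ⟨c, k⟩ := o
  obtain ⟨c', k'⟩ := o'
  have key : ∀ a b : ℝ, b = -a → cot (-z + b) = -cot (z + a) := by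
    rintro a b rfl
    rw [← cot_neg']
    congr 1
    push_cast
    ring
  have k1 := key l (-l) rfl
  have k2 := key (-l) l (neg_neg l).symm
  have k3 := key (2 * l) (-(2 * l)) rfl
  have k4 := key (-(2 * l)) (2 * l) (neg_neg _).symm
  have k5 := key (3 * l) (-(3 * l)) rfl
  have k6 := key (-(3 * l)) (3 * l) (neg_neg _).symm
  have k0 := key 0 0 neg_zero.symm
  have kp : ∀ a : ℝ, cot (z + (a + 8 * l : ℝ)) = cot (z + a) := by
    intro a
    have e : z + ((a + 8 * l : ℝ) : ℂ) = (z + a) + Real.pi := by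
      unfold l
      push_cast
      ring
    rw [e, Complex.cot, Complex.cot, Complex.cos_add_pi, Complex.sin_add_pi, neg_div_neg_eq]
  have k7 : cot (-z + (4 * l : ℝ)) = -cot (z + (4 * l : ℝ)) := by
    rw [key (-(4 * l)) (4 * l) (neg_neg _).symm, ← kp (-(4 * l))]
    congr 3
    ring_nf
  have k8 : cot (-z + (-(4 * l) : ℝ)) = -cot (z + (4 * l : ℝ)) := key (4 * l) _ rfl
  have k8' : cot (z + (-(4 * l) : ℝ)) = cot (z + (4 * l : ℝ)) := by
    rw [← kp (-(4 * l))]
    congr 3
    ring_nf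
  have k9 : cot (-z + (5 * l : ℝ)) = -cot (z + (3 * l : ℝ)) := by
    rw [key (-(5 * l)) (5 * l) (neg_neg _).symm, ← kp (-(5 * l))]
    congr 3
    ring_nf
  have k10 : cot (z + (5 * l : ℝ)) = cot (z + (-(3 * l) : ℝ)) := by
    rw [← kp (-(3 * l))]
    congr 3
    ring_nf
  unfold oth
  by_cases hc : c = c'
  · subst hc
    simp only [if_true]
    cases k <;> cases k' <;> simp only [oS, LL_cons, LL_nil, k0, k1, k2, k3, k4, k5, k6] <;> ring
  · have hc' : ¬ c' = c := fun h => hc h.symm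
    simp only [hc, hc', if_false]
    cases k <;> cases k' <;>
      simp only [oC, LL_cons, LL_nil, k0, k1, k2, k3, k4, k5, k6, k7, k8, k8', k9, k10] <;> ring

/-- **the kernel is symmetric** -/
theorem aK_symm (X : ℂ → ℂ) (b c : Bool × Option O3) (z z' : ℂ) :
    aK X b c z z' = aK X c b z' z := by
  unfold aK
  rw [m0_symm (co b), rg_symm, oth_neg (co b), show -(z - z') = z' - z by ring]
  ring

/-- **the diagonal** -/
theorem aK_self (X : ℂ → ℂ) (b : Bool × Option O3) (z : ℂ) :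
    aK X b b z z = 2 * (I * deriv X (pf b.2 z)) := by
  unfold aK
  rw [m0_self, rg_self, sub_self, zero_mul, add_zero]
  push_cast
  ring

/-- the open strip where the field is analytic -/
def FS : Set ℂ := {u | 2 / 5 * l < u.re ∧ u.re < 8 / 5 * l}

theorem isOpen_FS : IsOpen FS :=
  (isOpen_lt continuous_const continuous_re).inter (isOpen_lt continuous_re continuous_const)

theorem Fst_sub_FS : Fst ⊆ FS := by
  have hl := Bd.l_pos
  rintro u ⟨h1, h2⟩
  exact ⟨by linarith, by linarith⟩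

/-- **the field**: analytic, exponentially close to its limits -/
structure FX (X : ℂ → ℂ) (xp xm : ℂ) (M : ℝ) : Prop where
  dif : DifferentiableOn ℂ X FS
  der : ∀ u ∈ Fst, ‖deriv X u‖ ≤ M * Real.exp (-4 * |u.im|)
  xp' : ∀ u ∈ Fst, 0 ≤ u.im → ‖xp - X u‖ ≤ M * Real.exp (-4 * |u.im|)
  xm' : ∀ u ∈ Fst, u.im ≤ 0 → ‖xm - X u‖ ≤ M * Real.exp (-4 * |u.im|)

theorem re_sub_lt {u v : ℂ} (hu : u ∈ Fst) (hv : v ∈ Fst) : |(u - v).re| ≤ Real.pi / 2 := by
  have hl := Bd.l_pos
  have e : Real.pi = 8 * l := by unfold l; ring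
  rw [sub_re, e, abs_le]
  constructor <;> linarith [hu.1, hu.2, hv.1, hv.2]

/-- analytic in the second variable -/
theorem aK_diff {X : ℂ → ℂ} (hX : DifferentiableOn ℂ X FS) {b c : Bool × Option O3} {z z' : ℂ}
    (hz : z ∈ Str b.2) (hz' : z' ∈ Str c.2) : DifferentiableAt ℂ (aK X b c z) z' := by
  have hp := Real.pi_pos
  have hu := pf_mem hz
  have hv := pf_mem hz'
  have h0 : DifferentiableAt ℂ (fun z' : ℂ => pf c.2 z') z' := by
    unfold pf
    fun_prop
  have h1 : DifferentiableAt ℂ (fun z' : ℂ => rg X (pf b.2 z) (pf c.2 z')) z' :=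
    (rg_diff isOpen_FS hX (Fst_sub_FS hu) (Fst_sub_FS hv)
      (lt_of_le_of_lt (re_sub_lt hu hv) (by linarith))).comp z' h0
  have h2 : DifferentiableAt ℂ (fun z' : ℂ => X (pf c.2 z')) z' :=
    ((hX _ (Fst_sub_FS hv)).differentiableAt (isOpen_FS.mem_nhds (Fst_sub_FS hv))).comp z' h0
  have h3 : DifferentiableAt ℂ (fun z' : ℂ => LL (oth (co b) (co c)) (z - z')) z' := by
    have h4 := LL_diff (L := oth (co b) (co c)) (z := z - z')
      fun p hp => (oth_far hz hz' p hp).sin_ne
    exact h4.comp z' ((differentiableAt_const z).sub differentiableAt_id)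
  unfold aK
  exact ((h1.const_mul _).add (((differentiableAt_const _).sub h2).mul h3)).const_mul _

theorem measurable_rg' {X : ℂ → ℂ} (hX : Measurable X) {α : Type*} [MeasurableSpace α]
    {f g : α → ℂ} (hf : Measurable f) (hg : Measurable g) :
    Measurable fun a => rg X (f a) (g a) := by
  have h := (measurable_rg hX).comp (hf.prodMk hg)
  have e : (fun p : ℂ × ℂ => rg X p.1 p.2) ∘ (fun a => (f a, g a)) = fun a => rg X (f a) (g a) := by
    funext a
    simp only [Function.comp]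
  rw [e] at h
  exact h

theorem measurable_aK {X : ℂ → ℂ} (hX : Measurable X) (b c : Bool × Option O3) :
    Measurable fun p : ℂ × ℂ => aK X b c p.1 p.2 := by
  have h1 : Measurable fun p : ℂ × ℂ => pf b.2 p.1 := measurable_fst.add_const _
  have h2 : Measurable fun p : ℂ × ℂ => pf c.2 p.2 := measurable_snd.add_const _
  have h3 : Measurable fun p : ℂ × ℂ => rg X (pf b.2 p.1) (pf c.2 p.2) :=
    measurable_rg' hX h1 h2
  have h4 : Measurable fun p : ℂ × ℂ => X (pf b.2 p.1) - X (pf c.2 p.2) :=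
    (hX.comp h1).sub (hX.comp h2)
  have h5 : Measurable fun p : ℂ × ℂ => LL (oth (co b) (co c)) (p.1 - p.2) :=
    (measurable_LL _).comp (measurable_fst.sub measurable_snd)
  have h6 := ((h3.const_mul ((m0 (co b) (co c) : ℝ) : ℂ)).add (h4.mul h5)).const_mul I
  exact h6

/-! ## near bounds -/

section bounds
variable {X : ℂ → ℂ} {xp xm : ℂ} {M : ℝ}

theorem FX.M_nonneg (h : FX X xp xm M) : 0 ≤ M := by
  have hl := Bd.l_pos
  have h1 := (norm_nonneg _).trans (h.der (l : ℂ) ⟨by rw [ofReal_re]; linarith,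
    by rw [ofReal_re]; linarith⟩)
  exact nonneg_of_mul_nonneg_left h1 (Real.exp_pos _)

theorem exp_mid {a b c : ℝ} (hab : |a - b| ≤ 1) (hc : c ∈ Set.uIcc a b) :
    Real.exp (-4 * |c|) ≤ Real.exp 2 * (Real.exp (-2 * |a|) * Real.exp (-2 * |b|)) := by
  rw [← Real.exp_add, ← Real.exp_add]
  refine Real.exp_le_exp.2 ?_
  have h1 : |a - c| + |c - b| = |a - b| := by
    rcases Set.mem_uIcc.1 hc with ⟨h1, h2⟩ | ⟨h1, h2⟩
    · rw [abs_of_nonpos (by linarith), abs_of_nonpos (by linarith), abs_of_nonpos (by linarith)]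
      ring
    · rw [abs_of_nonneg (by linarith), abs_of_nonneg (by linarith), abs_of_nonneg (by linarith)]
      ring
  have h2 := abs_sub_abs_le_abs_sub a c
  have h3 := abs_sub_abs_le_abs_sub b c
  rw [abs_sub_comm b c] at h3
  linarith

/-- the divided difference of the field -/
theorem FX.dslope_le (h : FX X xp xm M) {u v : ℂ} (hu : u ∈ Fst) (hv : v ∈ Fst)
    (hd : |u.im - v.im| ≤ 1) : ‖dslope X u v‖ ≤
      M * (Real.exp 2 * (Real.exp (-2 * |u.im|) * Real.exp (-2 * |v.im|))) := by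
  have hM := h.M_nonneg
  rcases eq_or_ne v u with rfl | hne
  · rw [dslope_same]
    refine (h.der v hv).trans (mul_le_mul_of_nonneg_left (exp_mid (by simp) ?_) hM)
    exact Set.left_mem_uIcc
  · have hconv : Convex ℝ ({w : ℂ | 1 / 2 * l ≤ w.re ∧ w.re ≤ 31 / 20 * l} ∩
        {w : ℂ | w.im ∈ Set.uIcc u.im v.im}) := by
      refine Convex.inter ?_ ?_
      · have : {w : ℂ | 1 / 2 * l ≤ w.re ∧ w.re ≤ 31 / 20 * l} =
            Complex.reLm ⁻¹' (Set.Icc (1 / 2 * l) (31 / 20 * l)) := by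
          ext w
          simp
        rw [this]
        exact (convex_Icc _ _).linear_preimage _
      · have : {w : ℂ | w.im ∈ Set.uIcc u.im v.im} = Complex.imLm ⁻¹' (Set.uIcc u.im v.im) := by
          ext w
          simp
        rw [this]
        exact (convex_uIcc _ _).linear_preimage _
    have hu' : u ∈ ({w : ℂ | 1 / 2 * l ≤ w.re ∧ w.re ≤ 31 / 20 * l} ∩
        {w : ℂ | w.im ∈ Set.uIcc u.im v.im}) := ⟨hu, Set.left_mem_uIcc⟩
    have hv' : v ∈ ({w : ℂ | 1 / 2 * l ≤ w.re ∧ w.re ≤ 31 / 20 * l} ∩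
        {w : ℂ | w.im ∈ Set.uIcc u.im v.im}) := ⟨hv, Set.right_mem_uIcc⟩
    have key := hconv.norm_image_sub_le_of_norm_deriv_le (𝕜 := ℂ) (f := X)
      (C := M * (Real.exp 2 * (Real.exp (-2 * |u.im|) * Real.exp (-2 * |v.im|))))
      (fun w hw => (h.dif w (Fst_sub_FS hw.1)).differentiableAt
        (isOpen_FS.mem_nhds (Fst_sub_FS hw.1)))
      (fun w hw => (h.der w hw.1).trans
        (mul_le_mul_of_nonneg_left (exp_mid hd hw.2) hM))
      hu' hv'
    rw [dslope_of_ne _ hne, slope_def_field, norm_div, div_le_iff₀ (norm_pos_iff.2 (sub_ne_zero.2 hne))]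
    exact key

theorem FX.sub_le (h : FX X xp xm M) {u v : ℂ} (hu : u ∈ Fst) (hv : v ∈ Fst)
    (hd : |u.im - v.im| ≤ 1) : ‖X u - X v‖ ≤
      (‖xp - xm‖ + 2 * M) * (Real.exp 2 * (Real.exp (-2 * |u.im|) * Real.exp (-2 * |v.im|))) := by
  have hM := h.M_nonneg
  have hJ := norm_nonneg (xp - xm)
  set E := Real.exp 2 * (Real.exp (-2 * |u.im|) * Real.exp (-2 * |v.im|)) with hE
  have hE0 : 0 < E := by positivity
  have e1 : Real.exp (-4 * |u.im|) ≤ E := exp_mid hd Set.left_mem_uIcc
  have e2 : Real.exp (-4 * |v.im|) ≤ E := exp_mid hd Set.right_mem_uIcc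
  have m1 := mul_le_mul_of_nonneg_left e1 hM
  have m2 := mul_le_mul_of_nonneg_left e2 hM
  have m3 : 0 ≤ ‖xp - xm‖ * E := by positivity
  -- opposite signs
  have opp : (0 ≤ u.im ∧ v.im ≤ 0) ∨ (u.im ≤ 0 ∧ 0 ≤ v.im) → 1 ≤ E := by
    intro ho
    have h1 : |u.im| + |v.im| = |u.im - v.im| := by
      rcases ho with ⟨a, b⟩ | ⟨a, b⟩
      · rw [abs_of_nonneg a, abs_of_nonpos b, abs_of_nonneg (by linarith)]
        ring
      · rw [abs_of_nonpos a, abs_of_nonneg b, abs_of_nonpos (by linarith)]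
        ring
    rw [hE, ← Real.exp_add, ← Real.exp_add]
    refine Real.one_le_exp ?_
    linarith
  rcases le_total 0 u.im with a | a <;> rcases le_total 0 v.im with b | b
  · have e : X u - X v = (xp - X v) - (xp - X u) := by ring
    rw [e]
    refine (norm_sub_le _ _).trans ?_
    have := h.xp' u hu a
    have := h.xp' v hv b
    nlinarith
  · have e : X u - X v = (xm - X v) - (xp - X u) + (xp - xm) := by ring
    rw [e]
    refine (norm_add_le _ _).trans (le_trans (add_le_add_left (norm_sub_le _ _) _) ?_)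
    have := h.xp' u hu a
    have := h.xm' v hv b
    have h1 := mul_le_mul_of_nonneg_left (opp (Or.inl ⟨a, b⟩)) hJ
    nlinarith
  · have e : X u - X v = (xp - X v) - (xm - X u) - (xp - xm) := by ring
    rw [e]
    refine (norm_sub_le _ _).trans (le_trans (add_le_add_left (norm_sub_le _ _) _) ?_)
    have := h.xm' u hu a
    have := h.xp' v hv b
    have h1 := mul_le_mul_of_nonneg_left (opp (Or.inr ⟨a, b⟩)) hJ
    nlinarith
  · have e : X u - X v = (xm - X v) - (xm - X u) := by ring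
    rw [e]
    refine (norm_sub_le _ _).trans ?_
    have := h.xm' u hu a
    have := h.xm' v hv b
    nlinarith

/-- the constant of the near bound -/
def cN : ℝ := Real.exp 2 * (8 + 52 / dl)

theorem cN_nonneg : 0 ≤ cN := by
  have := dl_pos
  unfold cN
  positivity

/-- **near bound** -/
theorem norm_aK_near (h : FX X xp xm M) {b c : Bool × Option O3} {z z' : ℂ} (hz : z ∈ Str b.2)
    (hz' : z' ∈ Str c.2) (hd : |z.im - z'.im| ≤ 1) : ‖aK X b c z z'‖ ≤
      cN * (‖xp - xm‖ + M) * (Real.exp (-2 * |z.im|) * Real.exp (-2 * |z'.im|)) := by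
  have hM := h.M_nonneg
  have hJ := norm_nonneg (xp - xm)
  have hdl := dl_pos
  have hu := pf_mem hz
  have hv := pf_mem hz'
  have hd' : |(pf b.2 z).im - (pf c.2 z').im| ≤ 1 := by rwa [pf_im, pf_im]
  have h1 := h.dslope_le hu hv hd'
  have h2 := h.sub_le hu hv hd'
  rw [pf_im, pf_im] at h1 h2
  set F := Real.exp (-2 * |z.im|) * Real.exp (-2 * |z'.im|) with hF
  have hF0 : 0 < F := by positivity
  have h3 : ‖wc (pf b.2 z - pf c.2 z')‖ ≤ 4 :=
    norm_wc_le (re_sub_lt hu hv) (by rw [sub_im]; exact hd')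
  have h4 := norm_oth_le (b := b) (c := c) hz hz'
  have h5 := abs_m0 (co b) (co c)
  have he := Real.exp_pos 2
  unfold aK rg
  rw [norm_mul, norm_I, one_mul]
  refine (norm_add_le _ _).trans ?_
  rw [norm_mul, norm_mul, norm_mul, norm_real, Real.norm_eq_abs]
  have a1 : |m0 (co b) (co c)| * (‖dslope X (pf b.2 z) (pf c.2 z')‖ *
      ‖wc (pf b.2 z - pf c.2 z')‖) ≤ 2 * ((M * (Real.exp 2 * F)) * 4) := by
    apply mul_le_mul h5 _ (by positivity) (by norm_num)
    exact mul_le_mul h1 h3 (norm_nonneg _) (by positivity)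
  have a2 : ‖X (pf b.2 z) - X (pf c.2 z')‖ * ‖LL (oth (co b) (co c)) (z - z')‖ ≤
      ((‖xp - xm‖ + 2 * M) * (Real.exp 2 * F)) * (26 / dl) :=
    mul_le_mul h2 h4 (norm_nonneg _) (by positivity)
  refine (add_le_add a1 a2).trans ?_
  have e : cN * (‖xp - xm‖ + M) * F - (2 * ((M * (Real.exp 2 * F)) * 4) +
      ((‖xp - xm‖ + 2 * M) * (Real.exp 2 * F)) * (26 / dl)) =
      Real.exp 2 * F * (8 * ‖xp - xm‖ + 26 / dl * ‖xp - xm‖) := by
    unfold cN
    ring
  have : 0 ≤ Real.exp 2 * F * (8 * ‖xp - xm‖ + 26 / dl * ‖xp - xm‖) := by positivity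
  linarith

end bounds

/-! ## the local part of the kernel -/

/-- charge -/
def qb (b : Bool × Option O3) : ℂ := (sc (co b) : ℂ)

/-- the step at a position -/
def sgU (u : ℂ) : ℂ := NX.sgC (-I * (u - l))

theorem sgU_arg (u : ℂ) : (-I * (u - l)).re = u.im ∧ (-I * (u - l)).im = l - u.re := by
  constructor <;> simp

theorem sgU_im {u : ℂ} (hu : u ∈ FS) : |(-I * (u - l)).im| ≤ Real.pi / 8 := by
  have hl := Bd.l_pos
  rw [(sgU_arg u).2, abs_le]
  have e : Real.pi / 8 = l := rfl
  rw [e]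
  constructor <;> linarith [hu.1, hu.2]

theorem sgU_diff {u : ℂ} (hu : u ∈ FS) : DifferentiableAt ℂ sgU u := by
  have h1 := NX.differentiableAt_sgC (sgU_im hu)
  exact h1.comp u (by fun_prop)

theorem measurable_sgU : Measurable sgU := by
  unfold sgU NX.sgC
  have h1 : Measurable fun u : ℂ => Complex.exp (4 * (-I * (u - l))) + 1 := by fun_prop
  exact measurable_const.sub (measurable_const.div h1)

theorem FX.plt {X : ℂ → ℂ} {xp xm : ℂ} {M : ℝ} (h : FX X xp xm M) {u : ℂ} (hu : u ∈ Fst) :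
    NX.Plt xp xm M 2 (X u) (sgU u) u.im := by
  have key := NX.Plt.mk_sgC (xp := xp) (xm := xm) (M := M) (x := X u) (z := -I * (u - l))
    (sgU_im (Fst_sub_FS hu)) (by rw [(sgU_arg u).1]; exact h.xp' u hu)
    (by rw [(sgU_arg u).1]; exact h.xm' u hu)
  rw [(sgU_arg u).1] at key
  exact key

/-- the plateau part of the kernel -/
def pK (X : ℂ → ℂ) (xp xm : ℂ) (b c : Bool × Option O3) (z z' : ℂ) : ℂ :=
  2 * (qb b * qb c) * NX.plat xp xm (X (pf b.2 z)) (X (pf c.2 z')) (sgU (pf b.2 z)) (sgU (pf c.2 z'))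

/-- **the local part of the kernel** -/
def lK (X : ℂ → ℂ) (xp xm : ℂ) (b c : Bool × Option O3) (z z' : ℂ) : ℂ :=
  aK X b c z z' - pK X xp xm b c z z'

theorem lK_symm (X : ℂ → ℂ) (xp xm : ℂ) (b c : Bool × Option O3) (z z' : ℂ) :
    lK X xp xm b c z z' = lK X xp xm c b z' z := by
  unfold lK pK
  rw [aK_symm, NX.plat_symm, mul_comm (qb b)]

theorem abs_sc (o : CO) : 1 ≤ |sc o| ∧ |sc o| ≤ 2 := by
  obtain ⟨s, k⟩ := o
  cases s <;> cases k <;> simp [sc, chg]

/-- the constant of the local part -/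
def cL : ℝ := cN + 2 * (2 * 2) * (24 * (2 + 2) ^ 2 + 2 * 104)

theorem cL_nonneg : 0 ≤ cL := by
  have := cN_nonneg
  unfold cL
  positivity

/-- **the bound of the local part, all kinds** -/
theorem norm_lK_le {X : ℂ → ℂ} {xp xm : ℂ} {M : ℝ} (h : FX X xp xm M) {b c : Bool × Option O3}
    {z z' : ℂ} (hz : z ∈ Str b.2) (hz' : z' ∈ Str c.2) : ‖lK X xp xm b c z z'‖ ≤
      cL * (‖xp - xm‖ + M) * (Real.exp (-2 * |z.im|) * Real.exp (-2 * |z'.im|)) := by
  have hM := h.M_nonneg
  have hJ := norm_nonneg (xp - xm)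
  have hcN := cN_nonneg
  have p1 := h.plt (pf_mem hz)
  have p2 := h.plt (pf_mem hz')
  rw [pf_im] at p1 p2
  obtain ⟨q1, q2⟩ := abs_sc (co b)
  obtain ⟨q3, q4⟩ := abs_sc (co c)
  have hq : ‖2 * (qb b * qb c)‖ ≤ 2 * (2 * 2) := by
    unfold qb
    rw [norm_mul, norm_mul, norm_real, norm_real, Real.norm_eq_abs, Real.norm_eq_abs,
      Complex.norm_ofNat]
    exact mul_le_mul_of_nonneg_left (mul_le_mul q2 q4 (abs_nonneg _) (by norm_num)) (by norm_num)
  set F := Real.exp (-2 * |z.im|) * Real.exp (-2 * |z'.im|) with hF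
  have hF0 : 0 < F := by positivity
  have hG : 0 ≤ (‖xp - xm‖ + M) * F := by positivity
  unfold lK pK
  rcases le_or_gt |z.im - z'.im| 1 with hd | hd
  · have h1 := norm_aK_near h hz hz' hd
    have h2 := NX.norm_plat_near p1 p2 hd
    rw [← hF] at h1 h2
    refine (norm_sub_le _ _).trans ?_
    rw [norm_mul]
    have h3 := mul_le_mul hq h2 (norm_nonneg _) (by norm_num)
    refine (add_le_add h1 h3).trans ?_
    unfold cL
    nlinarith
  · -- far
    have hq0 : (sc (co b) * sc (co c) : ℝ) ≠ 0 := by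
      apply mul_ne_zero
      · intro h0
        rw [h0, abs_zero] at q1
        linarith
      · intro h0
        rw [h0, abs_zero] at q3
        linarith
    have hqc : 2 * (qb b * qb c) ≠ 0 := by
      unfold qb
      refine mul_ne_zero two_ne_zero ?_
      rw [← ofReal_mul]
      exact_mod_cast hq0
    have hne : z.im ≠ z'.im := by
      intro e
      rw [e, sub_self, abs_zero] at hd
      linarith
    have hne' : (z - z').im ≠ 0 := by
      rw [sub_im]
      exact sub_ne_zero.2 hne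
    obtain ⟨κ, hκ⟩ : ∃ κ : ℂ, κ = I * lz (co b) (co c) (z - z') / (2 * (qb b * qb c)) := ⟨_, rfl⟩
    have e1 : aK X b c z z' = 2 * (qb b * qb c) * ((X (pf b.2 z) - X (pf c.2 z')) * κ) := by
      have e0 : ∀ T x L : ℂ, T ≠ 0 → x * L = T * (x * (L / T)) := by
        intro T x L hT
        field_simp
      rw [aK_eq X b c hne, hκ]
      exact e0 _ _ _ hqc
    have hsm : ((sm (zs (co b) (co c)) : ℝ) : ℂ) = 2 * (qb b * qb c) := by
      rw [sm_zs]
      unfold qb
      push_cast
      ring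
    have ham := am_zs (co b) (co c)
    have hqn : 2 ≤ ‖2 * (qb b * qb c)‖ := by
      unfold qb
      rw [norm_mul, norm_mul, norm_real, norm_real, Real.norm_eq_abs, Real.norm_eq_abs,
        Complex.norm_ofNat]
      nlinarith
    have k1 : z'.im + 1 ≤ z.im → ‖κ - 1‖ ≤ 104 * Real.exp (-2 * |z.im - z'.im|) := by
      intro ht
      have h1 := LL_far (L := zs (co b) (co c)) (z := z - z') (by rw [sub_im]; linarith)
      rw [hsm, ← lz_eq _ _ hne', sub_im] at h1
      have e2 : κ - 1 = (I * lz (co b) (co c) (z - z') - 2 * (qb b * qb c)) / (2 * (qb b * qb c)) := by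
        rw [hκ, sub_div, div_self hqc]
      rw [e2, norm_div, div_le_iff₀ (by linarith), abs_of_nonneg (by linarith : 0 ≤ z.im - z'.im)]
      refine h1.trans ?_
      have h0 := Real.exp_pos (-2 * (z.im - z'.im))
      calc am (zs (co b) (co c)) * (4 * Real.exp (-2 * (z.im - z'.im)))
          ≤ 26 * (4 * Real.exp (-2 * (z.im - z'.im))) :=
            mul_le_mul_of_nonneg_right ham (by positivity)
        _ = 104 * Real.exp (-2 * (z.im - z'.im)) * 1 := by ring
        _ ≤ _ := mul_le_mul_of_nonneg_left (by linarith) (by positivity)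
    have k2 : z.im + 1 ≤ z'.im → ‖κ + 1‖ ≤ 104 * Real.exp (-2 * |z.im - z'.im|) := by
      intro ht
      have h1 := LL_far' (L := zs (co b) (co c)) (z := z - z') (by rw [sub_im]; linarith)
      rw [hsm, ← lz_eq _ _ hne', sub_im] at h1
      have e2 : κ + 1 = (I * lz (co b) (co c) (z - z') + 2 * (qb b * qb c)) / (2 * (qb b * qb c)) := by
        rw [hκ, add_div, div_self hqc]
      have e3 : -2 * |z.im - z'.im| = 2 * (z.im - z'.im) := by
        rw [abs_of_nonpos (by linarith)]
        ring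
      rw [e2, norm_div, div_le_iff₀ (by linarith), e3]
      refine h1.trans ?_
      have h0 := Real.exp_pos (2 * (z.im - z'.im))
      calc am (zs (co b) (co c)) * (4 * Real.exp (2 * (z.im - z'.im)))
          ≤ 26 * (4 * Real.exp (2 * (z.im - z'.im))) :=
            mul_le_mul_of_nonneg_right ham (by positivity)
        _ = 104 * Real.exp (2 * (z.im - z'.im)) * 1 := by ring
        _ ≤ _ := mul_le_mul_of_nonneg_left (by linarith) (by positivity)
    have key := NX.norm_loc (D := 0) p1 p2 (by norm_num) le_rfl k1 k2 (fun h3 => by linarith)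
    rw [← hF] at key
    rw [e1, ← mul_sub, norm_mul]
    refine (mul_le_mul hq key (norm_nonneg _) (by norm_num)).trans ?_
    unfold cL
    nlinarith

/-- analytic in the second variable -/
theorem lK_diff {X : ℂ → ℂ} (hX : DifferentiableOn ℂ X FS) (xp xm : ℂ) {b c : Bool × Option O3}
    {z z' : ℂ} (hz : z ∈ Str b.2) (hz' : z' ∈ Str c.2) :
    DifferentiableAt ℂ (lK X xp xm b c z) z' := by
  have hv := pf_mem hz'
  have h0 : DifferentiableAt ℂ (fun z' : ℂ => pf c.2 z') z' := by
    unfold pf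
    fun_prop
  have h1 : DifferentiableAt ℂ (fun z' : ℂ => X (pf c.2 z')) z' :=
    ((hX _ (Fst_sub_FS hv)).differentiableAt (isOpen_FS.mem_nhds (Fst_sub_FS hv))).comp z' h0
  have h2 : DifferentiableAt ℂ (fun z' : ℂ => sgU (pf c.2 z')) z' :=
    (sgU_diff (Fst_sub_FS hv)).comp z' h0
  have h3 : DifferentiableAt ℂ (pK X xp xm b c z) z' := by
    unfold pK NX.plat NX.be
    exact (((((differentiableAt_const _).add ((h2).const_mul _)).add
      ((((differentiableAt_const _).sub h1).add (h2.const_mul _)).mul_const _)).sub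
      ((h2.const_mul _).const_mul _)).const_mul _)
  exact (aK_diff hX hz hz').sub h3

theorem measurable_lK {X : ℂ → ℂ} (hX : Measurable X) (xp xm : ℂ) (b c : Bool × Option O3) :
    Measurable fun p : ℂ × ℂ => lK X xp xm b c p.1 p.2 := by
  have h1 : Measurable fun p : ℂ × ℂ => pf b.2 p.1 := measurable_fst.add_const _
  have h2 : Measurable fun p : ℂ × ℂ => pf c.2 p.2 := measurable_snd.add_const _
  have a1 : Measurable fun p : ℂ × ℂ => X (pf b.2 p.1) := hX.comp h1
  have a2 : Measurable fun p : ℂ × ℂ => X (pf c.2 p.2) := hX.comp h2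
  have s1 : Measurable fun p : ℂ × ℂ => sgU (pf b.2 p.1) := measurable_sgU.comp h1
  have s2 : Measurable fun p : ℂ × ℂ => sgU (pf c.2 p.2) := measurable_sgU.comp h2
  have h3 : Measurable fun p : ℂ × ℂ => pK X xp xm b c p.1 p.2 := by
    unfold pK NX.plat NX.be
    fun_prop
  exact (measurable_aK hX b c).sub h3

/-! ## product decomposition -/

/-- the first factor on the line `re = y` of the second variable -/
def Af (X : ℂ → ℂ) (xp xm : ℂ) (b c : Bool × Option O3) (y s : ℝ) (z : ℂ) : ℂ :=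
  lK X xp xm b c z (vl y s)

/-- the second factor -/
def Bf (σ y s : ℝ) (z' : ℂ) : ℂ := PBV.bE 10 σ (-y) s (-I * z')

theorem norm_Af_le {X : ℂ → ℂ} {xp xm : ℂ} {M : ℝ} (h : FX X xp xm M) {b c : Bool × Option O3}
    {y : ℝ} (hy : y = lo c.2 ∨ y = hi c.2) (s : ℝ) {z : ℂ} (hz : z ∈ Str b.2) :
    ‖Af X xp xm b c y s z‖ ≤
      cL * (‖xp - xm‖ + M) * (Real.exp (-2 * |z.im|) * Real.exp (-2 * |s|)) := by
  have hl := Bd.l_pos
  have hle : lo c.2 ≤ hi c.2 := by
    rcases c.2 with _ | (_ | _ | _) <;> simp only [lo, hi] <;> linarith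
  have e1 : (vl y s).re = y := by simp [vl]
  have e2 : (vl y s).im = s := by simp [vl]
  have hz' : vl y s ∈ Str c.2 := by
    show lo c.2 ≤ (vl y s).re ∧ (vl y s).re ≤ hi c.2
    rw [e1]
    rcases hy with rfl | rfl
    · exact ⟨le_rfl, hle⟩
    · exact ⟨hle, le_rfl⟩
  have := norm_lK_le h hz hz'
  rwa [e2] at this

theorem width_lt (k : Option O3) : 10 * (-lo k - -hi k) < Real.pi := by
  have hp := Real.pi_pos
  rcases k with _ | (_ | _ | _) <;> simp only [lo, hi, l] <;> linarith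

theorem Bf_arg (z' : ℂ) : (-I * z').re = z'.im ∧ (-I * z').im = -z'.re := by
  constructor <;> simp

/-- the second factor is localised at `s` -/
theorem norm_Bf_le {k : Option O3} {θ σ y : ℝ} (hθ : 0 < θ) (hσ : σ = 1 ∨ σ = -1)
    (hy : y = lo k ∨ y = hi k) (s : ℝ) {z' : ℂ} (h1 : lo k + θ ≤ z'.re) (h2 : z'.re ≤ hi k - θ) :
    ‖Bf σ y s z'‖ ≤ PBV.cE 10 θ * Real.exp (-(10 * |s - z'.im|)) := by
  have key := PBV.norm_bE_le (α := 10) (y₁ := -hi k) (y₂ := -lo k) (θ := θ) (σ := σ) (y := -y)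
    (s := s) (by norm_num) hθ (width_lt k) hσ (by
      rcases hy with rfl | rfl
      · exact Or.inr rfl
      · exact Or.inl rfl) (z := -I * z') ⟨by rw [(Bf_arg z').2]; linarith, by
        rw [(Bf_arg z').2]; linarith⟩
  rw [(Bf_arg z').1] at key
  exact key

/-- **product decomposition of the local part**, all kinds -/
theorem lK_decomp {X : ℂ → ℂ} {xp xm : ℂ} {M : ℝ} (h : FX X xp xm M) {b c : Bool × Option O3}
    {z z' : ℂ} (hz : z ∈ Str b.2) (h1 : lo c.2 < z'.re) (h2 : z'.re < hi c.2) :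
    Integrable (fun s : ℝ => Af X xp xm b c (hi c.2) s z * Bf (-1) (hi c.2) s z') ∧
    Integrable (fun s : ℝ => Af X xp xm b c (lo c.2) s z * Bf 1 (lo c.2) s z') ∧
    lK X xp xm b c z z' = (∫ s : ℝ, Af X xp xm b c (hi c.2) s z * Bf (-1) (hi c.2) s z') +
      ∫ s : ℝ, Af X xp xm b c (lo c.2) s z * Bf 1 (lo c.2) s z' := by
  have hM := h.M_nonneg
  have hJ := norm_nonneg (xp - xm)
  have hcL := cL_nonneg
  have hmem : ∀ w ∈ PBV.St (-hi c.2) (-lo c.2), I * w ∈ Str c.2 := by
    rintro w ⟨a, b⟩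
    show lo c.2 ≤ (I * w).re ∧ (I * w).re ≤ hi c.2
    have e : (I * w).re = -w.im := by simp
    rw [e]
    constructor <;> linarith
  have hdif : ∀ w ∈ PBV.St (-hi c.2) (-lo c.2),
      DifferentiableAt ℂ (fun w => lK X xp xm b c z (I * w)) w := fun w hw =>
    (lK_diff h.dif xp xm hz (hmem w hw)).comp w (by fun_prop)
  have key := PBV.strip_cauchy (f := fun w => lK X xp xm b c z (I * w)) (y₁ := -hi c.2)
    (y₂ := -lo c.2) (α := 10) (β := 0) (M := cL * (‖xp - xm‖ + M)) (by norm_num) (width_lt c.2)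
    (by norm_num) (fun w hw => (hdif w hw).continuousAt.continuousWithinAt)
    (fun w hw => (hdif w (PBV.So_sub_St _ _ hw)).differentiableWithinAt) (fun w hw => by
      refine (norm_lK_le h hz (hmem w hw)).trans ?_
      rw [zero_mul, Real.exp_zero, mul_one]
      refine mul_le_of_le_one_right (by positivity) ?_
      refine mul_le_one₀ (Real.exp_le_one_iff.2 ?_) (Real.exp_pos _).le (Real.exp_le_one_iff.2 ?_) <;>
        linarith [abs_nonneg z.im, abs_nonneg (I * w).im]) (z := -I * z')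
    ⟨by rw [(Bf_arg z').2]; linarith, by rw [(Bf_arg z').2]; linarith⟩
  have e0 : I * (-I * z') = z' := by
    linear_combination (-z') * I_mul_I
  have e1 : ∀ s y : ℝ, I * ((s : ℂ) + ((-y : ℝ) : ℂ) * I) = vl y s := by
    intro s y
    unfold vl
    push_cast
    linear_combination (-(y : ℂ)) * I_mul_I
  simp only [e0, e1] at key
  exact key

end PBOb

end
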