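import Pool.Agent.PB.RepF0
import Pool.Agent.PB.NormY
import Pool.Agent.PB.I1A

/-!
# Plan B: quadratic insertions of the straight lines as superpositions (helper15)

* `F0_int'`: Fubini, bounds depending on the word;
* `nuI ρ g`, `nuQI ρ a`: the centred linear statistic and the quadratic statistic as insertions;
* `SB`: one body functions bounded on the lines;
* **`F0_rep`**: `F0 (nuQI a) = (1/2) ∫ F0 (nuI (A q) * nuI (B q)) dμ(q)` for a kernel `NX.PRep`;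
* **`nuQI_charge`**: the plateau parts, total charge `0`.
-/

set_option autoImplicit false
set_option linter.unusedSectionVars false

noncomputable section

open Complex MeasureTheory Finset
open scoped Classical

namespace PBI

open NUP1 NUP1S NUP1.Bd NURow PB

variable {T : Type*} [MeasurableSpace T] {σ : Measure T}
variable {α : ℝ} {n n' : ℕ} {L : Lns} {Z : Stt}

/-- an insertion with a parameter is admissible on all words; bounds depend on the word -/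
def PAll (α : ℝ) (n n' : ℕ) (L : Lns) (σ : Measure T) (Ψ : T → Ins) : Prop :=
  AllW α n n' L fun c x => ∃ φ : T → ℝ, Integrable φ σ ∧ PIn σ φ c x Ψ

/-- **Fubini**, bounds depending on the word -/
theorem F0_int' [SFinite σ] {Ψ : T → Ins} (h1 : F0Ok α n n' L Z fun _ _ _ _ => 1)
    (h : PAll α n n' L σ Ψ) :
    Integrable (fun q => F0 α n n' L Z (Ψ q)) σ ∧
      F0 α n n' L Z (fun ι _ c z => ∫ q, Ψ q ι c z ∂σ) = ∫ q, F0 α n n' L Z (Ψ q) ∂σ := by
  have key := Sw_int (n := n) (n' := n') (σ := σ)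
    (f := fun q _ _ k k' => cw n n' k k' * Iz (cl n n' k k') (L.all α n n' k k') Z (Ψ q))
    (fun p p' k k' a b => by
      obtain ⟨φ, hφ, hΨ⟩ := h p p' k k' a b
      exact ((Iz_int (h1 p p' k k' a b) hΨ hφ).1).const_mul _)
  refine ⟨key.1, ?_⟩
  unfold F0
  rw [← key.2]
  refine Sw_congr fun p p' k k' a b => ?_
  obtain ⟨φ, hφ, hΨ⟩ := h p p' k k' a b
  rw [(Iz_int (h1 p p' k k' a b) hΨ hφ).2, integral_const_mul]

theorem F0Ok.int' [SFinite σ] {Ψ : T → Ins} (h1 : F0Ok α n n' L Z fun _ _ _ _ => 1)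
    (h : PAll α n n' L σ Ψ) : F0Ok α n n' L Z fun ι _ c z => ∫ q, Ψ q ι c z ∂σ := by
  intro p p' k k' a b
  obtain ⟨φ, hφ, hΨ⟩ := h p p' k k' a b
  exact (h1 p p' k k' a b).int hΨ hφ

/-! ## the statistics as insertions -/

/-- centred linear statistic, sea on the line `Re = l` -/
def nuI (ρ : Kd → ℝ → ℂ) (g : Kd → ℂ → ℂ) : Ins := fun _ _ c z => NX.nuL (vl l) c ρ g z

/-- quadratic statistic -/
def nuQI (ρ : Kd → ℝ → ℂ) (a : Kd → Kd → ℂ → ℂ → ℂ) : Ins := fun _ _ c z =>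
  NX.nuQ (vl l) c ρ a z

/-- mean of a one body function -/
def mnI (ρ : Kd → ℝ → ℂ) (g : Kd → ℂ → ℂ) : ℂ := NX.mn (vl l) ρ g

theorem nuI_eq (ρ : Kd → ℝ → ℂ) (g : Kd → ℂ → ℂ) (ι : Type) [Fintype ι] (c : ι → Kd)
    (z : ι → ℂ) : nuI ρ g ι c z = St (fun s k => g (s, k)) ι c z - mnI ρ g := rfl

/-- one body functions bounded on the lines of all words, and measurable -/
structure SB (α : ℝ) (n n' : ℕ) (L : Lns) (g : Kd → ℂ → ℂ) : Prop where
  m : ∀ b, Measurable (g b)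
  b : AllW α n n' L fun c x => ∃ C : ℝ, ∀ i, ∀ t : ℝ, ‖g (c i) (vl (x i) t)‖ ≤ C

theorem IzOk.bdd {ι : Type} [Fintype ι] {c : ι → Bool × Option O3} {x : ι → ℝ} {Ψ : Ins}
    (h : IzOk c x Z fun _ _ _ _ => 1)
    (hm : AEStronglyMeasurable (fun t : ι → ℝ => Ψ ι c (pos x t)) (Measure.pi fun _ => volume))
    {C : ℝ} (hC : ∀ t, ‖Ψ ι c (pos x t)‖ ≤ C) : IzOk c x Z Ψ := by
  unfold IzOk at *
  simp only [one_mul] at h
  exact h.bdd_mul hm (Filter.Eventually.of_forall hC)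

/-- an insertion is measurable and bounded on the lines of all words -/
def BI (α : ℝ) (n n' : ℕ) (L : Lns) (Ψ : Ins) : Prop :=
  AllW α n n' L fun {ι} _ c x =>
    AEStronglyMeasurable (fun t : ι → ℝ => Ψ ι c (pos x t)) (Measure.pi fun _ => volume) ∧
      ∃ C : ℝ, ∀ t : ι → ℝ, ‖Ψ ι c (pos x t)‖ ≤ C

theorem BI.ok {Ψ : Ins} (h : BI α n n' L Ψ) (h1 : F0Ok α n n' L Z fun _ _ _ _ => 1) :
    F0Ok α n n' L Z Ψ := by
  intro p p' k k' a b
  obtain ⟨hm, C, hC⟩ := h p p' k k' a b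
  exact (h1 p p' k k' a b).bdd hm hC

theorem BI.mul {Ψ Ψ' : Ins} (h : BI α n n' L Ψ) (h' : BI α n n' L Ψ') :
    BI α n n' L fun ι _ c z => Ψ ι c z * Ψ' ι c z := by
  intro p p' k k' a b
  obtain ⟨hm, C, hC⟩ := h p p' k k' a b
  obtain ⟨hm', C', hC'⟩ := h' p p' k k' a b
  refine ⟨hm.mul hm', C * C', fun t => ?_⟩
  rw [norm_mul]
  exact mul_le_mul (hC t) (hC' t) (norm_nonneg _) ((norm_nonneg _).trans (hC t))

theorem BI.add {Ψ Ψ' : Ins} (h : BI α n n' L Ψ) (h' : BI α n n' L Ψ') :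
    BI α n n' L fun ι _ c z => Ψ ι c z + Ψ' ι c z := by
  intro p p' k k' a b
  obtain ⟨hm, C, hC⟩ := h p p' k k' a b
  obtain ⟨hm', C', hC'⟩ := h' p p' k k' a b
  exact ⟨hm.add hm', C + C', fun t => (norm_add_le _ _).trans (add_le_add (hC t) (hC' t))⟩

theorem BI.const (r : ℂ) : BI α n n' L fun _ _ _ _ => r :=
  fun _ _ _ _ _ _ => ⟨aestronglyMeasurable_const, ‖r‖, fun _ => le_rfl⟩

theorem SB.st {g : Kd → ℂ → ℂ} (h : SB α n n' L g) : BI α n n' L (St fun s k => g (s, k)) := by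
  intro p p' k k' a b
  obtain ⟨C, hC⟩ := h.b p p' k k' a b
  refine ⟨?_, Fintype.card ((Fin (nA n k) ⊕ Fin p) ⊕ (Fin (nA n' k') ⊕ Fin p')) * C,
    fun t => ?_⟩
  · refine (Finset.measurable_fun_sum _ fun i _ => ?_).aestronglyMeasurable
    exact (h.m _).comp (measurable_pos _ i)
  · unfold St
    refine (norm_sum_le _ _).trans ?_
    refine (Finset.sum_le_sum fun i _ => hC i (t i)).trans (le_of_eq ?_)
    rw [Finset.sum_const, Finset.card_univ, nsmul_eq_mul]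

theorem SB.nu {g : Kd → ℂ → ℂ} {ρ : Kd → ℝ → ℂ} (h : SB α n n' L g) :
    BI α n n' L (nuI ρ g) := by
  have := h.st.add (BI.const (-(mnI ρ g)))
  intro p p' k k' a b
  obtain ⟨hm, C, hC⟩ := this p p' k k' a b
  have e : ∀ t : (Fin (nA n k) ⊕ Fin p) ⊕ (Fin (nA n' k') ⊕ Fin p') → ℝ,
      nuI ρ g _ (cl n n' k k') (pos (L.all α n n' k k') t) =
      St (fun s k => g (s, k)) _ (cl n n' k k') (pos (L.all α n n' k k') t) + -(mnI ρ g) := by
    intro t
    rw [nuI_eq, sub_eq_add_neg]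
  refine ⟨hm.congr (Filter.Eventually.of_forall fun t => (e t).symm), C, fun t => ?_⟩
  rw [e t]
  exact hC t

/-! ## kernels which are superpositions of products -/

section rep

variable {μ : Measure T} [SFinite μ] {D : Kd → Set ℂ} {ρ : Kd → ℝ → ℂ}
  {a : Kd → Kd → ℂ → ℂ → ℂ} {A B : T → Kd → ℂ → ℂ} {al be : T → ℝ} {φ ψ : Kd → ℂ → ℝ}

/-- the lines of all words lie in the domain and the weights are bounded there -/
structure InD (α : ℝ) (n n' : ℕ) (L : Lns) (D : Kd → Set ℂ) (φ ψ : Kd → ℂ → ℝ) : Prop where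
  d : AllW α n n' L fun c x => ∀ i, ∀ t : ℝ, vl (x i) t ∈ D (c i)
  f : AllW α n n' L fun c x => ∃ C : ℝ, ∀ i, ∀ t : ℝ, φ (c i) (vl (x i) t) ≤ C
  g : AllW α n n' L fun c x => ∃ C : ℝ, ∀ i, ∀ t : ℝ, ψ (c i) (vl (x i) t) ≤ C

theorem pin_nuI {A : T → Kd → ℂ → ℂ} {al : T → ℝ} {ι : Type} [Fintype ι]
    {c : ι → Bool × Option O3} {x : ι → ℝ} {C : ℝ} (mA : ∀ b, Measurable fun p : T × ℂ => A p.1 b p.2)
    (mm : AEStronglyMeasurable (fun q => mnI ρ (A q)) μ) {K : ℝ}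
    (hK : ∀ q, ‖mnI ρ (A q)‖ ≤ al q * K)
    (hb : ∀ q i, ∀ t : ℝ, ‖A q (c i) (vl (x i) t)‖ ≤ al q * C) :
    PIn μ (fun q => (Fintype.card ι * C + K) * al q) c x (fun q => nuI ρ (A q)) where
  me := by
    have h1 : AEStronglyMeasurable (fun p : T × (ι → ℝ) =>
        St (fun s k => A p.1 (s, k)) ι c (pos x p.2)) (μ.prod (Measure.pi fun _ => volume)) := by
      refine (Finset.measurable_fun_sum _ fun i _ => ?_).aestronglyMeasurable
      exact (mA _).comp (measurable_fst.prodMk ((measurable_pos x i).comp measurable_snd))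
    exact h1.sub mm.comp_fst
  bd q t := by
    rw [nuI_eq]
    refine (norm_sub_le _ _).trans ?_
    have h1 : ‖St (fun s k => A q (s, k)) ι c (pos x t)‖ ≤ Fintype.card ι * (al q * C) := by
      unfold St
      refine (norm_sum_le _ _).trans ?_
      refine (Finset.sum_le_sum fun i _ => hb q i (t i)).trans (le_of_eq ?_)
      rw [Finset.sum_const, Finset.card_univ, nsmul_eq_mul]
    calc _ ≤ Fintype.card ι * (al q * C) + al q * K := add_le_add h1 (hK q)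
      _ = _ := by ring

/-- **superposition at the level of the straight lines** -/
theorem F0_rep (R : NX.PRep μ D (vl l) ρ a A B al be φ ψ)
    (mA : ∀ b, Measurable fun p : T × ℂ => A p.1 b p.2)
    (mB : ∀ b, Measurable fun p : T × ℂ => B p.1 b p.2) (hD : InD α n n' L D φ ψ)
    (h1 : F0Ok α n n' L Z fun _ _ _ _ => 1) :
    Integrable (fun q => F0 α n n' L Z fun ι _ c z => nuI ρ (A q) ι c z * nuI ρ (B q) ι c z) μ ∧
    F0Ok α n n' L Z (nuQI ρ a) ∧
    F0 α n n' L Z (nuQI ρ a) =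
      (1 / 2) * ∫ q, (F0 α n n' L Z fun ι _ c z => nuI ρ (A q) ι c z * nuI ρ (B q) ι c z) ∂μ := by
  have hP : PAll α n n' L μ fun q ι _ c z => nuI ρ (A q) ι c z * nuI ρ (B q) ι c z := by
    intro p p' k k' i j
    obtain ⟨C, hC⟩ := hD.f p p' k k' i j
    obtain ⟨C', hC'⟩ := hD.g p p' k k' i j
    have hd := hD.d p p' k k' i j
    have P1 := pin_nuI (μ := μ) (ρ := ρ) (c := cl n n' k k') (x := L.all α n n' k k') (C := C)
      mA (NX.mn_meas R.jA) (fun q => NX.mn_le (R.bρA q) R.iA) fun q i t =>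
        (R.bA q _ _ (hd i t)).trans (mul_le_mul_of_nonneg_left (hC i t) (R.a0 q))
    have P2 := pin_nuI (μ := μ) (ρ := ρ) (c := cl n n' k k') (x := L.all α n n' k k') (C := C')
      mB (NX.mn_meas R.jB) (fun q => NX.mn_le (R.bρB q) R.iB) fun q i t =>
        (R.bB q _ _ (hd i t)).trans (mul_le_mul_of_nonneg_left (hC' i t) (R.b0 q))
    refine ⟨_, ?_, P1.mul P2⟩
    refine (R.ab.const_mul ((Fintype.card ((Fin (nA n k) ⊕ Fin p) ⊕ (Fin (nA n' k') ⊕ Fin p')) * C +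
      ∑ b, ∫ u, ‖ρ b u‖ * φ b (vl l u)) *
      (Fintype.card ((Fin (nA n k) ⊕ Fin p) ⊕ (Fin (nA n' k') ⊕ Fin p')) * C' +
        ∑ b, ∫ u, ‖ρ b u‖ * ψ b (vl l u)))).congr (Filter.Eventually.of_forall fun q => ?_)
    simp only []
    ring
  have h2 := F0_int' h1 hP
  have h3 : F0Ok α n n' L Z fun ι _ c z =>
      (1 / 2 : ℂ) * ∫ q, nuI ρ (A q) ι c z * nuI ρ (B q) ι c z ∂μ := (F0Ok.int' h1 hP).smul _
  have e : ∀ (p p' : ℕ) (k : Fin p → O3) (k' : Fin p' → O3), ∑ i, c3 (k' i) ≤ n' →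
      ∑ i, c3 (k i) ≤ n → ∀ t : (Fin (nA n k) ⊕ Fin p) ⊕ (Fin (nA n' k') ⊕ Fin p') → ℝ,
      nuQI ρ a _ (cl n n' k k') (pos (L.all α n n' k k') t) =
      (1 / 2) * ∫ q, nuI ρ (A q) _ (cl n n' k k') (pos (L.all α n n' k k') t) *
        nuI ρ (B q) _ (cl n n' k k') (pos (L.all α n n' k k') t) ∂μ := by
    intro p p' k k' i j t
    exact (NX.nuQ_int R _ fun m => hD.d p p' k k' i j m (t m)).2
  refine ⟨h2.1, fun p p' k k' i j => ?_, ?_⟩
  · refine (h3 p p' k k' i j).congr (Filter.Eventually.of_forall fun t => ?_)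
    simp only []
    rw [e p p' k k' i j t]
  · rw [← h2.2, ← F0_smul]
    exact F0_congr fun p p' k k' i j t => e p p' k k' i j t

end rep

/-! ## charges -/

section charge

variable {D : Kd → Set ℂ} {ρ : Kd → ℝ → ℂ} {a : Kd → Kd → ℂ → ℂ → ℂ}

/-- charge of a kind -/
def chK (b : Kd) : ℂ := (sc (co b) : ℂ)

/-- the local part of a kernel -/
def aLoc (xp xm : ℂ) (ξ sg : Kd → ℂ → ℂ) (a : Kd → Kd → ℂ → ℂ → ℂ) : Kd → Kd → ℂ → ℂ → ℂ :=
  fun b c s u => a b c s u - 2 * (chK b * chK c) * NX.plat xp xm (ξ b s) (ξ c u) (sg b s) (sg c u)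

/-- charge weighted localised field -/
def beK (xp xm : ℂ) (ξ sg : Kd → ℂ → ℂ) : Kd → ℂ → ℂ := fun b z =>
  chK b * NX.be xp xm (ξ b z) (sg b z)

/-- charge weighted step -/
def sgK (sg : Kd → ℂ → ℂ) : Kd → ℂ → ℂ := fun b z => chK b * sg b z

/-- **plateau parts**, total charge `0` -/
theorem nuQI_charge {xp xm : ℂ} {ξ sg : Kd → ℂ → ℂ} (he : ∀ b u, ρ b u ≠ 0 → vl l u ∈ D b)
    (hQ : NX.QID D (vl l) ρ a) (hρ : ∀ b, Integrable (ρ b))
    (hn : ∑ b, ∫ u, ρ b u * (chK b * 1) = 0)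
    (hb : ∀ b, Integrable fun u => ρ b u * beK xp xm ξ sg b (vl l u))
    (hs : ∀ b, Integrable fun u => ρ b u * sgK sg b (vl l u)) {ι : Type} [Fintype ι] {c : ι → Kd}
    (hc : ∑ i, sc (co (c i)) = 0) {z : ι → ℂ} (hz : ∀ i, z i ∈ D (c i)) :
    nuQI ρ a ι c z = nuQI ρ (aLoc xp xm ξ sg a) ι c z +
      2 * (nuI ρ (beK xp xm ξ sg) ι c z * nuI ρ (sgK sg) ι c z) -
      (xp - xm) / 2 * (nuI ρ (sgK sg) ι c z * nuI ρ (sgK sg) ι c z) := by
  have h := NX.nuQ_chargeD (e := vl l) c (q := chK) (ξ := ξ) (σ := sg) (xp := xp) (xm := xm) he hQ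
    (fun b => by
      have := (hρ b).mul_const (chK b * 1)
      exact this) hb hs hz
  have h0 : NX.Qf (vl l) c ρ chK (fun _ _ => 1) z = 0 := by
    unfold NX.Qf NX.nuL
    rw [hn, sub_zero]
    have e : ∑ i, chK (c i) * 1 = ((∑ i, sc (co (c i)) : ℝ) : ℂ) := by
      push_cast
      exact Finset.sum_congr rfl fun i _ => by unfold chK; ring
    rw [e, hc, ofReal_zero]
  unfold nuQI
  rw [h, h0]
  unfold nuI aLoc beK sgK NX.Qf
  ring

end charge

end PBI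

end
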