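import Pool.Agent.PB.Conf
import Pool.Agent.PB.TRsA
import Pool.Agent.PB.ObKer
import Pool.Agent.PB.RepE
import Pool.Agent.PB.CovW

/-!
# Plan B: the literal statistics on the configurations of all numbers of quanta (helper15)

On `CfN N` (77's `Conf`), curves `η n`, density `ρ` of each species on the line `A`:

* `hgt z = -I (z - l)`: the height of a position; `qD ε g`: the one body function of the quanta
  `ε s * g (height)`;
* `Vp ρ η g`: sum over the quanta on the curve of `g`, minus `2 ∫ ρ g`; `Vm η g`: the difference of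
  the species;
* `SN P η`: the step statistic of ALL constituents (heads, satellites, quanta), weights = charges;
* `pinN a`: `∑ exp (-a |height of the object|)`;
* `VLin` of `Vp`, `Vm`.
-/

set_option autoImplicit false
set_option linter.unusedSectionVars false

noncomputable section

open Complex MeasureTheory Finset

namespace PBF

open NUO NUP1 NUP1S NUP1S.Ab NUP1S.AbC NUGC NUCR
open PBI (Stt Kd)

/-- the height of a position -/
def hgt (z : ℂ) : ℂ := -I * (z - NUP1.l)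

theorem hgt_re (z : ℂ) : (hgt z).re = z.im := by simp [hgt]

theorem hgt_im (z : ℂ) : (hgt z).im = NUP1.l - z.re := by simp [hgt]

theorem hgt_line (u : ℝ) : hgt (vl NUP1.l u) = u := by
  unfold hgt vl
  linear_combination (-(u : ℂ)) * I_mul_I

/-- both species -/
def eP : Bool → ℂ := fun _ => 1

/-- difference of the species -/
def eM : Bool → ℂ := fun s => if s then 1 else -1

/-- one body function of the quanta -/
def qD (ε : Bool → ℂ) (g : ℂ → ℂ) : Stt := fun s k z =>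
  match k with
  | none => ε s * g (hgt z)
  | some _ => 0

/-- the step with charges -/
def sgD : Stt := fun s k z => PBOb.qb (s, k) * PBOb.sgU (PBOb.pf k z)

variable {N : ℕ}

/-- statistic of the quanta on the curve -/
def VQ (D : Stt) (η : ℕ → Crs) : CfN N → ℂ :=
  evN fun n r O a b x => stQ D (η n r O) a b x

/-- statistic of all constituents -/
def VA (D : Stt) (P : NUO.Par) (η : ℕ → Crs) : CfN N → ℂ := evN fun n => stA D P (η n)

/-- statistic of the objects and their satellites -/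
def VO (D : Stt) (P : NUO.Par) : CfN N → ℂ := evN fun _ _ O _ _ _ => stO D P O

/-- **plus channel** -/
def Vp (ρ : ℝ → ℂ) (η : ℕ → Crs) (g : ℂ → ℂ) : CfN N → ℂ := fun ω =>
  VQ (qD eP g) η ω - 2 * ∫ u : ℝ, ρ u * g u

/-- **minus channel** -/
def Vm (η : ℕ → Crs) (g : ℂ → ℂ) : CfN N → ℂ := VQ (qD eM g) η

/-- **the step** -/
def SN (P : NUO.Par) (η : ℕ → Crs) : CfN N → ℂ := VA sgD P η

/-- pinning -/
def pinN (a : ℝ) : CfN N → ℝ := fun ω => ∑ i, Real.exp (-(a * |ht (ω.2.2.1 i)|))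

theorem pinN_nonneg (a : ℝ) (ω : CfN N) : 0 ≤ pinN a ω :=
  Finset.sum_nonneg fun _ _ => (Real.exp_pos _).le

theorem VA_eq (D : Stt) (P : NUO.Par) (η : ℕ → Crs) (ω : CfN N) :
    VA D P η ω = VO D P ω + VQ D η ω := rfl

/-- the statistics of the quanta on the curve -/
theorem VQ_eq (D : Stt) (η : ℕ → Crs) (ω : CfN N) :
    VQ D η ω = ∑ i, D true none (NUO.pA (η ω.1 ω.2.1.1 ω.2.2.1) (ω.2.2.2.1 i)) +
      ∑ j, D false none (NUO.pA (η ω.1 ω.2.1.1 ω.2.2.1) (ω.2.2.2.2 j)) := rfl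

theorem Vp_eq (ρ : ℝ → ℂ) (η : ℕ → Crs) (g : ℂ → ℂ) (ω : CfN N) :
    Vp ρ η g ω = ∑ i, g (hgt (NUO.pA (η ω.1 ω.2.1.1 ω.2.2.1) (ω.2.2.2.1 i))) +
      ∑ j, g (hgt (NUO.pA (η ω.1 ω.2.1.1 ω.2.2.1) (ω.2.2.2.2 j))) -
      2 * ∫ u : ℝ, ρ u * g u := by
  unfold Vp
  rw [VQ_eq]
  simp only [qD, eP, one_mul]

theorem Vm_eq (η : ℕ → Crs) (g : ℂ → ℂ) (ω : CfN N) :
    Vm η g ω = ∑ i, g (hgt (NUO.pA (η ω.1 ω.2.1.1 ω.2.2.1) (ω.2.2.2.1 i))) -
      ∑ j, g (hgt (NUO.pA (η ω.1 ω.2.1.1 ω.2.2.1) (ω.2.2.2.2 j))) := by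
  unfold Vm
  rw [VQ_eq]
  simp only [qD, eM, if_true, Bool.false_eq_true, if_false, one_mul, neg_mul,
    Finset.sum_neg_distrib]
  ring

theorem VQ_qD_lin (ε : Bool → ℂ) (η : ℕ → Crs) (g h : ℂ → ℂ) (c : ℂ) (ω : CfN N) :
    VQ (qD ε fun z => c * g z + h z) η ω = c * VQ (qD ε g) η ω + VQ (qD ε h) η ω := by
  simp only [VQ_eq, qD]
  have e : ∀ {ι : Type} [Fintype ι] (s : Bool) (u : ι → ℂ),
      ∑ i, ε s * (c * g (u i) + h (u i)) = c * ∑ i, ε s * g (u i) + ∑ i, ε s * h (u i) := by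
    intro ι _ s u
    rw [Finset.mul_sum, ← Finset.sum_add_distrib]
    exact Finset.sum_congr rfl fun i _ => by ring
  rw [e true, e false]
  ring

/-- `ρ g` is integrable for the test functions -/
theorem int_rho {y₁ y₂ a M : ℝ} {g : ℂ → ℂ} {ρ : ℝ → ℂ} (hg : PBE.TC y₁ y₂ a M g) (ha : 0 < a)
    (h1 : y₁ < 0) (h2 : 0 < y₂) (hm : AEStronglyMeasurable ρ volume) {B : ℝ} (hB : ∀ u, ‖ρ u‖ ≤ B) :
    Integrable fun u : ℝ => ρ u * g u :=
  (hg.real ha h1 h2).1.bdd_mul hm (Filter.Eventually.of_forall hB)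

theorem Vp_lin {y₁ y₂ a : ℝ} {ρ : ℝ → ℂ} (η : ℕ → Crs) (ha : 0 < a) (h1 : y₁ < 0) (h2 : 0 < y₂)
    (hm : AEStronglyMeasurable ρ volume) {B : ℝ} (hB : ∀ u, ‖ρ u‖ ≤ B) :
    PBE.VLin y₁ y₂ a (Vp ρ η : (ℂ → ℂ) → CfN N → ℂ) := by
  intro M M' g h c ω hg hh
  have e : ∫ u : ℝ, ρ u * (c * g u + h u) = c * (∫ u : ℝ, ρ u * g u) + ∫ u : ℝ, ρ u * h u := by
    rw [← integral_const_mul, ← integral_add ((int_rho hg ha h1 h2 hm hB).const_mul c)
      (int_rho hh ha h1 h2 hm hB)]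
    refine integral_congr_ae (Filter.Eventually.of_forall fun u => ?_)
    simp only []
    ring
  unfold Vp
  rw [VQ_qD_lin, e]
  ring

theorem Vm_lin {y₁ y₂ a : ℝ} (η : ℕ → Crs) :
    PBE.VLin y₁ y₂ a (Vm η : (ℂ → ℂ) → CfN N → ℂ) := fun _ _ g h c ω _ _ => by
  unfold Vm
  exact VQ_qD_lin eM η g h c ω

end PBF

end
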