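import Pool.Agent.PB.RepM
import Pool.Agent.PB.StatN
import Pool.Agent.PB.EInst

/-!
# Plan B, I1: the values of the product representations are integrable (helper2)

* `meas_VQ_s`, `meas_Vp_s`, `meas_Vm_s`: joint measurability of the statistics of a jointly measurable
  family of test functions; `jVp`, `jVm`: the same on `CfN N × T` with respect to `(mN N).prod σ`;
* `sup_int`: `q ↦ F[V (A q) V (B q)]` is integrable, second moments only of measurable statistics;
* `i2_Vp`, `i2_Vm`: for `Vp`, `Vm` and any product representation; **`i2`, `i2'`**: the two channels.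
-/

set_option autoImplicit false
set_option linter.unusedSectionVars false

noncomputable section

open Complex MeasureTheory Finset Filter
open scoped ENNReal

namespace PBRep

open PBFunc PBE PBF NUGC
open NUO (Xo)

variable {T : Type*} [MeasurableSpace T] {N : ℕ} {η η' : ℕ → Crs}

/-! ### joint measurability -/

theorem meas_hgt : Measurable hgt := by
  unfold hgt
  fun_prop

/-- the one body functions of a jointly measurable family -/
theorem meas_qD {A : T → ℂ → ℂ} (hA : Measurable fun p : T × ℂ => A p.1 p.2) (ε : Bool → ℂ)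
    (s : Bool) (k : Option NUP1S.O3) : Measurable fun p : T × ℂ => qD ε (A p.1) s k p.2 := by
  cases k with
  | none =>
    exact (hA.comp (measurable_fst.prodMk (meas_hgt.comp measurable_snd))).const_mul (ε s)
  | some o => exact measurable_const

theorem meas_VQ_s {A : T → ℂ → ℂ} (hA : Measurable fun p : T × ℂ => A p.1 p.2) (ε : Bool → ℂ)
    (hc : ∀ n ≤ N, MCr (η n) (η' n)) :
    Measurable fun p : T × CfN N => VQ (qD ε (A p.1)) η p.2 :=
  evN_stQ_s (D := fun t => qD ε (A t)) (fun s k => meas_qD hA ε s k) hc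

/-- the mean of a jointly measurable family -/
theorem meas_mean {A : T → ℂ → ℂ} (hA : Measurable fun p : T × ℂ => A p.1 p.2) {ρ : ℝ → ℂ}
    (hρ : AEStronglyMeasurable ρ volume) : Measurable fun t : T => ∫ u : ℝ, ρ u * A t u := by
  have h1 : Measurable fun p : T × ℝ => hρ.mk ρ p.2 * A p.1 p.2 := by
    refine (hρ.stronglyMeasurable_mk.measurable.comp measurable_snd).mul
      (hA.comp (measurable_fst.prodMk (Complex.measurable_ofReal.comp measurable_snd)))
  have h2 := (h1.stronglyMeasurable.integral_prod_right' (ν := (volume : Measure ℝ))).measurable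
  refine (congrArg Measurable (funext fun t => ?_)).mpr h2
  refine integral_congr_ae ?_
  filter_upwards [hρ.ae_eq_mk] with u hu
  rw [hu]

theorem meas_Vp_s {A : T → ℂ → ℂ} (hA : Measurable fun p : T × ℂ => A p.1 p.2) {ρ : ℝ → ℂ}
    (hρ : AEStronglyMeasurable ρ volume) (hc : ∀ n ≤ N, MCr (η n) (η' n)) :
    Measurable fun p : T × CfN N => Vp ρ η (A p.1) p.2 := by
  unfold Vp
  exact (meas_VQ_s hA eP hc).sub (((meas_mean hA hρ).comp measurable_fst).const_mul 2)

theorem meas_Vm_s {A : T → ℂ → ℂ} (hA : Measurable fun p : T × ℂ => A p.1 p.2)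
    (hc : ∀ n ≤ N, MCr (η n) (η' n)) :
    Measurable fun p : T × CfN N => Vm η (A p.1) p.2 := meas_VQ_s hA eM hc

variable {σ : Measure T}

/-- joint measurability on `CfN N × T`, plus channel -/
theorem jVp {A : T → ℂ → ℂ} (hA : Measurable fun p : T × ℂ => A p.1 p.2) {ρ : ℝ → ℂ}
    (hρ : AEStronglyMeasurable ρ volume) (hc : ∀ n ≤ N, MCr (η n) (η' n)) :
    AEStronglyMeasurable (fun p : CfN N × T => Vp ρ η (A p.2) p.1) ((mN N).prod σ) := by
  have h := (meas_Vp_s (N := N) hA hρ hc).comp (measurable_swap (α := CfN N) (β := T))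
  exact ((congrArg Measurable (funext fun p => rfl)).mpr h).aestronglyMeasurable

/-- joint measurability on `CfN N × T`, minus channel -/
theorem jVm {A : T → ℂ → ℂ} (hA : Measurable fun p : T × ℂ => A p.1 p.2)
    (hc : ∀ n ≤ N, MCr (η n) (η' n)) :
    AEStronglyMeasurable (fun p : CfN N × T => Vm η (A p.2) p.1) ((mN N).prod σ) := by
  have h := (meas_Vm_s (N := N) hA hc).comp (measurable_swap (α := CfN N) (β := T))
  exact ((congrArg Measurable (funext fun p => rfl)).mpr h).aestronglyMeasurable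

theorem mVp {A : T → ℂ → ℂ} (hA : Measurable fun p : T × ℂ => A p.1 p.2) {ρ : ℝ → ℂ}
    (hρ : AEStronglyMeasurable ρ volume) (hc : ∀ n ≤ N, MCr (η n) (η' n)) (t : T) :
    Measurable (Vp ρ η (A t) : CfN N → ℂ) := by
  have h := meas_Vp_s (N := N) hA hρ hc
  have h1 : Measurable fun ω : CfN N => ((t, ω) : T × CfN N) :=
    measurable_const.prodMk measurable_id
  refine (congrArg Measurable (funext fun ω => ?_)).mpr (h.comp h1)
  rfl

theorem mVm {A : T → ℂ → ℂ} (hA : Measurable fun p : T × ℂ => A p.1 p.2)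
    (hc : ∀ n ≤ N, MCr (η n) (η' n)) (t : T) : Measurable (Vm η (A t) : CfN N → ℂ) := by
  have h := meas_Vm_s (N := N) hA hc
  have h1 : Measurable fun ω : CfN N => ((t, ω) : T × CfN N) :=
    measurable_const.prodMk measurable_id
  refine (congrArg Measurable (funext fun ω => ?_)).mpr (h.comp h1)
  rfl

/-! ### integrability in the parameter -/

section sup

variable {Ω : Type*} [MeasurableSpace Ω] {μ : Measure Ω} {y₁ y₂ a K : ℝ} {w : Ω → ℂ}
  {V : (ℂ → ℂ) → Ω → ℂ} {A B : T → ℂ → ℂ} {al be : T → ℝ}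

/-- **Fubini**: joint integrability, the second moments are only needed for measurable statistics -/
theorem sup_prod [SFinite μ] [SFinite σ] (hR : Rep y₁ y₂ a σ A B al be) (hy1 : y₁ < 0)
    (hy2 : 0 < y₂) (hw : AEStronglyMeasurable w μ) (hK : 0 ≤ K)
    (mA : ∀ q, AEStronglyMeasurable (V (A q)) μ) (mB : ∀ q, AEStronglyMeasurable (V (B q)) μ)
    (v2 : ∀ M h, TC y₁ y₂ a M h → AEStronglyMeasurable (V h) μ → M2 μ w K (V h) M)
    (jA : AEStronglyMeasurable (fun p : Ω × T => V (A p.2) p.1) (μ.prod σ))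
    (jB : AEStronglyMeasurable (fun p : Ω × T => V (B p.2) p.1) (μ.prod σ)) :
    Integrable (fun p : Ω × T => w p.1 * (V (A p.2) p.1 * V (B p.2) p.1)) (μ.prod σ) := by
  have jm : AEStronglyMeasurable (fun p : Ω × T => w p.1 * (V (A p.2) p.1 * V (B p.2) p.1))
      (μ.prod σ) := hw.comp_fst.mul (jA.mul jB)
  refine ⟨jm, ?_⟩
  unfold HasFiniteIntegral
  rw [lintegral_prod_symm _ jm.enorm]
  have key : ∀ s, ∫⁻ ω, ‖w ω * (V (A s) ω * V (B s) ω)‖ₑ ∂μ ≤
      ENNReal.ofReal (al s * be s * K) := by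
    intro s
    have h := (v2 _ _ (hR.tA s) (mA s)).mul' ((hR.tA s).nonneg hy1 hy2)
      ((hR.tB s).nonneg hy1 hy2) hK hw (mA s) (v2 _ _ (hR.tB s) (mB s))
    refine le_trans (le_of_eq ?_) h
    refine lintegral_congr fun ω => ?_
    rw [← ofReal_norm, norm_mul]
  refine lt_of_le_of_lt (lintegral_mono key) ?_
  have hi : Integrable (fun s => al s * be s * K) σ := hR.int.mul_const K
  exact hi.lintegral_lt_top

/-- **the values of a product representation are integrable** -/
theorem sup_int [SFinite μ] [SFinite σ] (hR : Rep y₁ y₂ a σ A B al be) (hy1 : y₁ < 0)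
    (hy2 : 0 < y₂) (hw : AEStronglyMeasurable w μ) (hK : 0 ≤ K)
    (mA : ∀ q, AEStronglyMeasurable (V (A q)) μ) (mB : ∀ q, AEStronglyMeasurable (V (B q)) μ)
    (v2 : ∀ M h, TC y₁ y₂ a M h → AEStronglyMeasurable (V h) μ → M2 μ w K (V h) M)
    (jA : AEStronglyMeasurable (fun p : Ω × T => V (A p.2) p.1) (μ.prod σ))
    (jB : AEStronglyMeasurable (fun p : Ω × T => V (B p.2) p.1) (μ.prod σ)) :
    Integrable (fun q => F μ w fun ω => V (A q) ω * V (B q) ω) σ :=
  (sup_prod hR hy1 hy2 hw hK mA mB v2 jA jB).integral_prod_right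

end sup

section inst

variable {y₁ y₂ a K : ℝ} {w : CfN N → ℂ} {A B : T → ℂ → ℂ} {al be : T → ℝ}

/-- plus channel, any product representation -/
theorem i2_Vp [SFinite σ] (hR : Rep y₁ y₂ a σ A B al be) (hy1 : y₁ < 0) (hy2 : 0 < y₂)
    (hA : Measurable fun p : T × ℂ => A p.1 p.2) (hB : Measurable fun p : T × ℂ => B p.1 p.2)
    {ρ : ℝ → ℂ} (hρ : AEStronglyMeasurable ρ volume) (hc : ∀ n ≤ N, MCr (η n) (η' n))
    (hw : AEStronglyMeasurable w (mN N)) (hK : 0 ≤ K)
    (v2 : ∀ M h, TC y₁ y₂ a M h → AEStronglyMeasurable (Vp ρ η h) (mN N) →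
      M2 (mN N) w K (Vp ρ η h) M) :
    Integrable (fun q => F (mN N) w fun ω => Vp ρ η (A q) ω * Vp ρ η (B q) ω) σ :=
  sup_int (V := Vp ρ η) hR hy1 hy2 hw hK (fun q => (mVp hA hρ hc q).aestronglyMeasurable)
    (fun q => (mVp hB hρ hc q).aestronglyMeasurable) v2 (jVp hA hρ hc) (jVp hB hρ hc)

/-- minus channel, any product representation -/
theorem i2_Vm [SFinite σ] (hR : Rep y₁ y₂ a σ A B al be) (hy1 : y₁ < 0) (hy2 : 0 < y₂)
    (hA : Measurable fun p : T × ℂ => A p.1 p.2) (hB : Measurable fun p : T × ℂ => B p.1 p.2)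
    (hc : ∀ n ≤ N, MCr (η n) (η' n)) (hw : AEStronglyMeasurable w (mN N)) (hK : 0 ≤ K)
    (v2 : ∀ M h, TC y₁ y₂ a M h → AEStronglyMeasurable (Vm η h) (mN N) →
      M2 (mN N) w K (Vm η h) M) :
    Integrable (fun q => F (mN N) w fun ω => Vm η (A q) ω * Vm η (B q) ω) σ :=
  sup_int (V := Vm η) hR hy1 hy2 hw hK (fun q => (mVm hA hc q).aestronglyMeasurable)
    (fun q => (mVm hB hc q).aestronglyMeasurable) v2 (jVm hA hc) (jVm hB hc)

end inst

/-! ### the two channels -/

section chan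

open PBEI (Apl Ami Bch Apl_measurable Ami_measurable Bch_measurable)
open PBV (wm)

variable {m : ℕ} (x : Fin m → ℂ) (i0 : Fin m) {y₁ y₂ a K : ℝ} {w : CfN N → ℂ}
  {al be : Bool × ℝ → ℝ}

/-- **plus channel** -/
theorem i2 (hR : Rep y₁ y₂ a wm (Apl x i0) Bch al be) (hy1 : y₁ < 0) (hy2 : 0 < y₂)
    {ρ : ℝ → ℂ} (hρ : AEStronglyMeasurable ρ volume) (hc : ∀ n ≤ N, MCr (η n) (η' n))
    (hw : AEStronglyMeasurable w (mN N)) (hK : 0 ≤ K)
    (v2 : ∀ M h, TC y₁ y₂ a M h → AEStronglyMeasurable (Vp ρ η h) (mN N) →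
      M2 (mN N) w K (Vp ρ η h) M) :
    Integrable (fun q => F (mN N) w fun ω => Vp ρ η (Apl x i0 q) ω * Vp ρ η (Bch q) ω) wm :=
  i2_Vp hR hy1 hy2 (Apl_measurable x i0) Bch_measurable hρ hc hw hK v2

/-- **minus channel** -/
theorem i2' (hR : Rep y₁ y₂ a wm (Ami x i0) Bch al be) (hy1 : y₁ < 0) (hy2 : 0 < y₂)
    (hc : ∀ n ≤ N, MCr (η n) (η' n)) (hw : AEStronglyMeasurable w (mN N)) (hK : 0 ≤ K)
    (v2 : ∀ M h, TC y₁ y₂ a M h → AEStronglyMeasurable (Vm η h) (mN N) →
      M2 (mN N) w K (Vm η h) M) :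
    Integrable (fun q => F (mN N) w fun ω => Vm η (Ami x i0 q) ω * Vm η (Bch q) ω) wm :=
  i2_Vm hR hy1 hy2 (Ami_measurable x i0) Bch_measurable hc hw hK v2

/-- joint measurability of the statistics of the first factors, plus channel -/
theorem jApl {ρ : ℝ → ℂ} (hρ : AEStronglyMeasurable ρ volume) (hc : ∀ n ≤ N, MCr (η n) (η' n)) :
    AEStronglyMeasurable (fun p : CfN N × (Bool × ℝ) => Vp ρ η (Apl x i0 p.2) p.1)
      ((mN N).prod wm) := jVp (Apl_measurable x i0) hρ hc

/-- joint measurability of the statistics of the second factors, plus channel -/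
theorem jBpl {ρ : ℝ → ℂ} (hρ : AEStronglyMeasurable ρ volume) (hc : ∀ n ≤ N, MCr (η n) (η' n)) :
    AEStronglyMeasurable (fun p : CfN N × (Bool × ℝ) => Vp ρ η (Bch p.2) p.1)
      ((mN N).prod wm) := jVp Bch_measurable hρ hc

/-- joint measurability of the statistics of the first factors, minus channel -/
theorem jAmi (hc : ∀ n ≤ N, MCr (η n) (η' n)) :
    AEStronglyMeasurable (fun p : CfN N × (Bool × ℝ) => Vm η (Ami x i0 p.2) p.1)
      ((mN N).prod wm) := jVm (Ami_measurable x i0) hc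

/-- joint measurability of the statistics of the second factors, minus channel -/
theorem jBmi (hc : ∀ n ≤ N, MCr (η n) (η' n)) :
    AEStronglyMeasurable (fun p : CfN N × (Bool × ℝ) => Vm η (Bch p.2) p.1)
      ((mN N).prod wm) := jVm Bch_measurable hc

end chan

end PBRep

end
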