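import Pool.Agent.PB.RepQ
import Pool.Agent.PB.ChnO2
import Pool.Agent.PB.LogZ

/-!
# Plan B, I1: the linear insertion of the first Ward identity (helper91)

`gl x i0 p b z = xiK x i0 b z * lamK p b z` (field times leg force, all kinds).

* `gH x i0 p h`: the same for a quantum as a function of its height; `gH_eq`: with the leg at
  `i τ` it is `(1 / m) rF x i0 h * h0T τ h`;
* **`adS_gl`**: `gl` is an admissible statistic; `gl_le`: all values `≤ C / m`;
* **`VC_gl`**: `VC (rhK x) P η gl = Vp ρ η gH + VO gl P`.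
-/

set_option autoImplicit false
set_option linter.unusedSectionVars false

noncomputable section

open Complex MeasureTheory Finset

namespace PBRep

open NUP1 hiding Kd
open NUO NUP1S NUGC PBF
open PBI (Stt Kd mnI)
open PBForce (Rws0 xiR rhoR kO)
open PBQ1 (xiK lamK lamL rhK fp hr fSd)

variable {m : ℕ}

/-- the linear insertion -/
def gl (x : Fin m → ℂ) (i0 : Fin m) (p : ℂ) : Kd → ℂ → ℂ := fun b z => xiK x i0 b z * lamK p b z

/-- the linear insertion on a quantum, as a function of the height -/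
def gH (x : Fin m → ℂ) (i0 : Fin m) (p h : ℂ) : ℂ :=
  xiR x i0 (NUP1.l + I * h) * lamL p (NUP1.l + I * h)

theorem gl_none (x : Fin m → ℂ) (i0 : Fin m) (p : ℂ) (s : Bool) (u : ℂ) :
    gl x i0 p (s, none) u = gH x i0 p (hgt u) := by
  have e : (NUP1.l : ℂ) + I * hgt u = u := by
    unfold hgt
    linear_combination (-(u - NUP1.l)) * I_mul_I
  unfold gH
  rw [e]
  rfl

/-- **the leg at `i τ`** -/
theorem gH_eq (x : Fin m → ℂ) (i0 : Fin m) (τ : ℝ) {h : ℂ} (hh : |h.im| < NUP1.l) :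
    gH x i0 (I * τ) h = ((m : ℂ))⁻¹ * (PBEI.rF x i0 h * PBEI.h0T τ h) := by
  have hm : (m : ℂ) ≠ 0 := by exact_mod_cast i0.pos.ne'
  have e1 : hr (I * (τ : ℂ)) = τ := by
    unfold PBQ1.hr
    linear_combination (-(τ : ℂ)) * I_mul_I
  have e2 : |(h - hr (I * (τ : ℂ))).im| < NUP1.l := by
    rw [e1, sub_im, ofReal_im, sub_zero]
    exact hh
  unfold gH
  rw [PBLZ.I_legL e2, e1]
  show xiR x i0 (NUMF.l + I * h) * PBEI.h00 (h - τ) =
    ((m : ℂ))⁻¹ * ((m : ℂ) * xiR x i0 (NUMF.l + I * h) * PBEI.h00 (h - τ))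
  field_simp

theorem lamL_meas (p : ℂ) : Measurable (lamL p) := by
  unfold PBQ1.lamL PBQ1.fSd PBQ1.ct
  fun_prop

theorem gl_meas (x : Fin m → ℂ) (i0 : Fin m) (p : ℂ) (b : Kd) : Measurable (gl x i0 p b) := by
  have h1 : Measurable (fp b) := by
    obtain ⟨s, k⟩ := b
    cases k
    · exact measurable_id
    · exact measurable_id.add_const _
  have h2 : Measurable (xiK x i0 b) := (PBEI.xiR_measurable x i0).comp h1
  have h3 : Measurable (lamK p b) := by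
    have l1 := lamL_meas p
    have l2 : Measurable fun z : ℂ => lamL p z + lamL p (z - NUP1.l) :=
      l1.add (l1.comp (measurable_id.sub_const _))
    obtain ⟨s, k⟩ := b
    rcases k with _ | k
    · exact l1
    · cases k
      · exact l1
      · exact l2
      · exact l2
  exact h2.mul h3

/-- the bound of the leg force where it is used -/
theorem exists_lam : ∃ C : ℝ, 0 < C ∧ ∀ p u : ℂ, |p.re| ≤ NUP1.l / 2 → -(12 / 5 * NUP1.l) ≤ u.re →
    u.re ≤ 21 / 20 * NUP1.l → ‖lamL p u‖ ≤ C := by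
  have hl := Bd.l_pos
  have hlM : NUMF.l = NUP1.l := rfl
  obtain ⟨C, hC, h⟩ := PBQ1.fSd_bound (a := 9 / 20 * NUP1.l) (b := 49 / 10 * NUP1.l) (by positivity)
    (by rw [hlM]; linarith)
  refine ⟨C + 1, by linarith, fun p u hp h1 h2 => ?_⟩
  obtain ⟨h3, h4⟩ := abs_le.1 hp
  unfold PBQ1.lamL
  rw [norm_mul, norm_I, one_mul, hlM]
  have e : (p + 2 * NUP1.l - u).re = p.re + 2 * NUP1.l - u.re := by simp
  refine (h _ ?_ ?_).trans (by linarith)
  · rw [e]; linarith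
  · rw [e]; linarith

/-- **all values of the linear insertion are `≤ C / m`** -/
theorem exists_gl : ∃ C : ℝ, 0 < C ∧ ∀ (m : ℕ) (x : Fin m → ℂ) (i0 : Fin m) (p : ℂ), Rws0 x →
    |p.re| ≤ NUP1.l / 2 →
    (∀ s (u : ℂ), 3 / 10 * NUP1.l ≤ u.re → u.re ≤ 21 / 20 * NUP1.l →
      ‖gl x i0 p (s, none) u‖ ≤ C / m) ∧
    (∀ s (k : O3) (u : ℂ), -(17 / 10 * NUP1.l) ≤ u.re → u.re ≤ -(3 / 10 * NUP1.l) →
      (k ≠ .L → -(7 / 5 * NUP1.l) ≤ u.re) → ‖gl x i0 p (s, some k) u‖ ≤ C / m) := by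
  have hl := Bd.l_pos
  have hlM : NUMF.l = NUP1.l := rfl
  obtain ⟨C1, hC1, h1⟩ := PBForce.xiR_le (b := 7 / 10 * NUP1.l) (by positivity) (by
    show 7 / 10 * NUP1.l < NUP1.l
    linarith)
  obtain ⟨C2, hC2, h2⟩ := exists_lam
  refine ⟨C1 * (2 * C2), by positivity, fun m x i0 p hx hp => ⟨fun s u a b => ?_,
    fun s k u a b c => ?_⟩⟩
  · have hm : (0 : ℝ) < m := by exact_mod_cast i0.pos
    show ‖xiR x i0 u * lamL p u‖ ≤ _
    rw [norm_mul]
    have k1 := h1 m x i0 hx u (by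
      have e : (u - NUP1.l : ℂ).re = u.re - NUP1.l := by
        rw [sub_re, ofReal_re]
      rw [e, abs_le]
      constructor <;> linarith)
    have k2 := h2 p u hp (by linarith) b
    calc ‖xiR x i0 u‖ * ‖lamL p u‖ ≤ C1 / m * C2 :=
          mul_le_mul k1 k2 (norm_nonneg _) (by positivity)
      _ ≤ C1 / m * (2 * C2) := mul_le_mul_of_nonneg_left (by linarith) (by positivity)
      _ = _ := by ring
  · have hm : (0 : ℝ) < m := by exact_mod_cast i0.pos
    have k1 := h1 m x i0 hx (u + 2 * NUP1.l) (by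
      have e : (u + 2 * NUP1.l - NUP1.l : ℂ).re = u.re + NUP1.l := by
        simp
        ring
      rw [e, abs_le]
      constructor <;> linarith)
    have hl1 : ‖lamL p u‖ ≤ C2 := h2 p u hp (by linarith) (by linarith)
    have key : ‖lamK p (s, some k) u‖ ≤ 2 * C2 := by
      have hS : k ≠ .L → ‖lamL p u + lamL p (u - NUP1.l)‖ ≤ 2 * C2 := by
        intro hk
        have e : (u - NUP1.l : ℂ).re = u.re - NUP1.l := by rw [sub_re, ofReal_re]
        have k3 := h2 p (u - NUP1.l) hp (by rw [e]; linarith [c hk]) (by rw [e]; linarith)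
        refine (norm_add_le _ _).trans ?_
        linarith
      cases k
      · show ‖lamL p u‖ ≤ _
        linarith
      · exact hS (by decide)
      · exact hS (by decide)
    show ‖xiR x i0 (u + 2 * NUP1.l) * lamK p (s, some k) u‖ ≤ _
    rw [norm_mul]
    calc ‖xiR x i0 (u + 2 * NUP1.l)‖ * ‖lamK p (s, some k) u‖ ≤ C1 / m * (2 * C2) :=
          mul_le_mul k1 key (norm_nonneg _) (by positivity)
      _ = _ := by ring

/-- **the linear insertion is an admissible statistic** -/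
theorem adS_gl' {P : NUO.Par} (j1 : 9 / 4 ≤ P.jL) (j2 : P.jL ≤ 27 / 10) (pe : 1 / 10 ≤ P.e)
    (pd : ∀ r, P.e + P.d r ≤ 3 / 8) {x0 δ : ℝ} (hx0 : 3 / 10 * NUP1.l ≤ x0) (hδ : δ ≤ 1 / 20)
    {x : Fin m → ℂ} (hx : Rws0 x) (i0 : Fin m) {p : ℂ} (hp : |p.re| ≤ NUP1.l / 2) :
    AdS P x0 δ (sK (gl x i0 p)) := by
  have hl := Bd.l_pos
  obtain ⟨C, hC, H⟩ := exists_gl
  obtain ⟨HA, HO⟩ := H m x i0 p hx hp
  have hδl : (1 + δ) * NUP1.l ≤ 21 / 20 * NUP1.l := mul_le_mul_of_nonneg_right (by linarith) hl.le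
  refine ⟨C / m, fun s k => gl_meas x i0 p (s, k), fun s u h1 h2 => ?_,
    fun s u h1 h2 => HA s u (by linarith) (by linarith), fun s u h1 => ?_, fun s u h1 => ?_,
    fun s r e u h1 h2 h3 => ?_⟩
  · have h3 := h2.trans hδl
    have d1 : DifferentiableAt ℂ (xiR x i0) u := PBForce.xiR_diff0 hx i0 (by
      have e : (u - NUP1.l : ℂ).re = u.re - NUP1.l := by
        rw [sub_re, ofReal_re]
      rw [e, abs_lt]
      constructor <;> linarith)
    have d2 : DifferentiableAt ℂ (lamL p) u := by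
      have e : (p + 2 * NUP1.l - u).re = p.re + 2 * NUP1.l - u.re := by simp
      obtain ⟨h5, h6⟩ := abs_le.1 hp
      have hpi : Real.pi = 8 * NUP1.l := PBQ1.pi8
      have n1 : Complex.sin (p + 2 * NUP1.l - u) ≠ 0 :=
        PBQ1.sin_ne_of_re (by rw [e]; linarith) (by rw [e, hpi]; linarith)
      have n2 : Complex.sin (p + 2 * NUP1.l - u + 3 * NUP1.l) ≠ 0 := by
        have e2 : (p + 2 * NUP1.l - u + 3 * NUP1.l).re = p.re + 2 * NUP1.l - u.re + 3 * NUP1.l := by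
          simp
        exact PBQ1.sin_ne_of_re (by rw [e2]; linarith) (by rw [e2, hpi]; linarith)
      unfold PBQ1.lamL PBQ1.fSd PBQ1.ct
      refine DifferentiableAt.const_mul (DifferentiableAt.sub ?_ ?_) I
      · exact DifferentiableAt.div (by fun_prop) (by fun_prop) n1
      · exact DifferentiableAt.div (by fun_prop) (by fun_prop) n2
    exact d1.mul d2
  · refine HO s .L u ?_ ?_ (fun h => absurd rfl h)
    · rw [h1]
      have := mul_le_mul_of_nonneg_right j2 hl.le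
      nlinarith
    · rw [h1]
      have := mul_le_mul_of_nonneg_right j1 hl.le
      nlinarith
  · exact HO s .T u (by linarith) (by linarith) (fun _ => by linarith)
  · have h6 : e ≤ 3 / 8 := h2.trans (pd r)
    have h7 : 1 / 10 ≤ e := pe.trans h1
    have h8 := mul_le_mul_of_nonneg_right h6 hl.le
    have h9 := mul_le_mul_of_nonneg_right h7 hl.le
    exact HO s .S u (by linarith) (by linarith) (fun _ => by linarith)

theorem adS_gl {P : NUO.Par} (hP : PBOb.ParO P) {x0 δ : ℝ} (hx0 : 3 / 10 * NUP1.l ≤ x0)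
    (hδ : δ ≤ 1 / 20) {x : Fin m → ℂ} (hx : Rws0 x) (i0 : Fin m) {p : ℂ} (hp : |p.re| ≤ NUP1.l / 2) :
    AdS P x0 δ (sK (gl x i0 p)) :=
  adS_gl' (by rw [hP.jL]) (by rw [hP.jL]; norm_num) (by linarith [hP.e1]) hP.e2 hx0 hδ hx i0 hp

/-- the mean of the linear insertion -/
theorem mnI_gl {ρ : Kd → ℝ → ℂ} {ρ0 : ℝ → ℂ} (h : RhoK ρ ρ0) (x : Fin m → ℂ) (i0 : Fin m)
    (p : ℂ) : mnI ρ (gl x i0 p) = 2 * ∫ u : ℝ, ρ0 u * gH x i0 p u := by
  unfold PBI.mnI PB.NX.mn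
  rw [sum_Kd (f := fun b => ∫ u, ρ b u * gl x i0 p b (vl NUP1.l u)) fun s k => by simp [h.o]]
  have e : ∀ s, ∫ u, ρ (s, none) u * gl x i0 p (s, none) (vl NUP1.l u) =
      ∫ u : ℝ, ρ0 u * gH x i0 p u := by
    intro s
    refine integral_congr_ae (Filter.Eventually.of_forall fun u => ?_)
    simp only []
    rw [h.q, gl_none, hgt_line]
  rw [e, e]
  ring

/-- **the split of the linear insertion** -/
theorem VC_gl {N : ℕ} {ρ : Kd → ℝ → ℂ} {ρ0 : ℝ → ℂ} (h : RhoK ρ ρ0) (P : NUO.Par) (η : ℕ → Crs)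
    (x : Fin m → ℂ) (i0 : Fin m) (p : ℂ) (ω : CfN N) : VC ρ P η (gl x i0 p) ω =
      Vp ρ0 η (gH x i0 p) ω + VO (sK (gl x i0 p)) P ω := by
  unfold VC
  rw [VA_eq, mnI_gl h]
  have e1 : VQ (sK (gl x i0 p)) η ω = VQ (qD eP (gH x i0 p)) η ω := by
    rw [VQ_eq, VQ_eq]
    simp only [sK, gl_none, qD, eP, one_mul]
  rw [e1]
  unfold Vp
  ring

/-- the curves stay in the strip of the field -/
theorem hgt_pA {δ : ℝ} (hδ : δ ≤ 1 / 20) {η η' : ℝ → ℝ} (hη : CrvR δ η η') (t : ℝ) :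
    |(hgt (NUO.pA η t)).im| < NUP1.l := by
  have hl := Bd.l_pos
  obtain ⟨h1, h2⟩ := pA_mem hη t
  have h3 : (1 + δ) * NUP1.l ≤ 21 / 20 * NUP1.l := mul_le_mul_of_nonneg_right (by linarith) hl.le
  rw [hgt_im, abs_lt]
  constructor <;> linarith

/-- the statistic of the quanta, leg at `i τ` -/
theorem Vp_gH {N : ℕ} {ρ0 : ℝ → ℂ} {δ : ℝ} (hδ : δ ≤ 1 / 20) {η η' : ℕ → Crs}
    (hη : ∀ n ≤ N, ∀ r ≤ n + n, ∀ O, CrvR δ (η n r O) (η' n r O)) (x : Fin m → ℂ) (i0 : Fin m)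
    (τ : ℝ) (ω : CfN N) :
    (m : ℂ) * Vp ρ0 η (gH x i0 (I * τ)) ω = Vp ρ0 η (PBEI.qF x i0 τ) ω := by
  have hl := Bd.l_pos
  have hm : (m : ℂ) ≠ 0 := by exact_mod_cast i0.pos.ne'
  have e0 : ∀ h : ℂ, |h.im| < NUP1.l → (m : ℂ) * gH x i0 (I * τ) h = PBEI.qF x i0 τ h := by
    intro h hh
    rw [gH_eq x i0 τ hh]
    unfold PBEI.qF
    rw [← mul_assoc, mul_inv_cancel₀ hm, one_mul]
  have hr : (ω.2.1.1 : ℕ) ≤ (ω.1 : ℕ) + (ω.1 : ℕ) := Nat.lt_succ_iff.1 ω.2.1.1.2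
  have hc := hη ω.1 (Nat.lt_succ_iff.1 ω.1.2) ω.2.1.1 hr ω.2.2.1
  rw [Vp_eq, Vp_eq, mul_sub, mul_add, Finset.mul_sum, Finset.mul_sum]
  have e1 : (m : ℂ) * (2 * ∫ u : ℝ, ρ0 u * gH x i0 (I * τ) u) =
      2 * ∫ u : ℝ, ρ0 u * PBEI.qF x i0 τ u := by
    rw [mul_left_comm, ← integral_const_mul]
    congr 1
    refine integral_congr_ae (Filter.Eventually.of_forall fun u => ?_)
    simp only []
    rw [← e0 u (by rw [ofReal_im, abs_zero]; exact hl)]
    ring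
  rw [e1]
  congr 2
  · exact Finset.sum_congr rfl fun i _ => e0 _ (hgt_pA hδ hc _)
  · exact Finset.sum_congr rfl fun i _ => e0 _ (hgt_pA hδ hc _)

theorem stO_smul {r : ℕ} (c : ℂ) (D : Bool → Option O3 → ℂ → ℂ) (P : NUO.Par) (O : Fin r → Xo) :
    stO (fun s k z => c * D s k z) P O = c * stO D P O := by
  unfold stO
  rw [Finset.mul_sum]
  refine Finset.sum_congr rfl fun i _ => ?_
  unfold obT
  cases kd (O i) <;> simp only [] <;> ring

theorem qF_meas (x : Fin m → ℂ) (i0 : Fin m) (τ : ℝ) : Measurable (PBEI.qF x i0 τ) := by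
  have h1 := PBEI.rF_measurable x i0
  have h2 : Measurable (PBEI.h0T τ) := by
    unfold PBEI.h0T PBEI.h00
    fun_prop
  exact h1.mul h2

/-- **the linear insertion is the statistic of `qF` plus a pinned observable** -/
theorem obs_gl {N : ℕ} {P : NUO.Par} {x0 δ a Mq : ℝ} {η η' : ℕ → Crs} {ρ : Kd → ℝ → ℂ}
    {ρ0 : ℝ → ℂ} (hG : GoodQ P x0) (hP : PBOb.ParO P) (hx0 : 13 / 25 * NUP1.l ≤ x0)
    (hm : ∀ r, Measurable (P.rad r)) (hc : ∀ n ≤ N, MCr (η n) (η' n)) (hδ : δ ≤ 1 / 20)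
    (hη : ∀ n ≤ N, ∀ r ≤ n + n, ∀ O, CrvR δ (η n r O) (η' n r O)) (hρ : RhoK ρ ρ0)
    (x : Fin m → ℂ) (i0 : Fin m) (τ : ℝ) (ha0 : 0 ≤ a) (ha : a ≤ 2) (hM : 0 ≤ Mq)
    (tc : PBE.TC (-(NUP1.l / 10)) (9 / 20 * NUP1.l) a Mq (PBEI.qF x i0 τ))
    (hb : ∀ b, ∀ z ∈ PBOb.DQ b, ‖(m : ℂ) * gl x i0 (I * τ) b z‖ ≤ Mq * Real.exp (-a * |z.im|)) :
    Obs (-(NUP1.l / 10)) (9 / 20 * NUP1.l) a (mN N) (Vp ρ0 η) (pinN a) 40
      (fun ω => (m : ℂ) * VC ρ P η (gl x i0 (I * τ)) ω) (PBEI.qF x i0 τ) Mq where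
  tc := tc
  m := (PBOb.meas_Vp hc (qF_meas x i0 τ)).aestronglyMeasurable
  O := by
    have key := PBOb.pinO_VO (N := N) hG hP hx0 hm (g := fun b z => (m : ℂ) * gl x i0 (I * τ) b z)
      (fun b => (gl_meas x i0 (I * τ) b).const_mul _) hM ha0 ha hb
    have e : (fun ω : CfN N => (m : ℂ) * VC ρ P η (gl x i0 (I * τ)) ω -
        Vp ρ0 η (PBEI.qF x i0 τ) ω) =
        VO (sK fun b z => (m : ℂ) * gl x i0 (I * τ) b z) P := by
      funext ω
      rw [VC_gl hρ, mul_add, Vp_gH hδ hη]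
      have e2 : (VO (sK fun b z => (m : ℂ) * gl x i0 (I * τ) b z) P ω : ℂ) =
          (m : ℂ) * VO (sK (gl x i0 (I * τ))) P ω := by
        exact stO_smul _ (sK (gl x i0 (I * τ))) P ω.2.2.1
      rw [e2]
      ring
    rw [e]
    exact key

/-- **the constants**: one constant for all numbers of rows, from the decay of the leg force -/
theorem exists_gl_dec {C2 : ℝ} (hC2 : 0 ≤ C2)
    (hL : ∀ z : ℂ, z.re = 0 → |z.im| ≤ 1 → ∀ (b : Kd), ∀ u ∈ PBOb.DQ b,
      ‖lamK z b u‖ ≤ C2 * Real.exp (-2 * |u.im|)) :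
    ∃ C : ℝ, 0 < C ∧ ∀ (m : ℕ) (x : Fin m → ℂ) (i0 : Fin m), Rws0 x → ∀ τ : ℝ, |τ| ≤ 1 →
      ∀ a : ℝ, 0 ≤ a → a ≤ 2 →
      PBE.TC (-(NUP1.l / 10)) (9 / 20 * NUP1.l) a C (PBEI.qF x i0 τ) ∧
      ∀ b, ∀ z ∈ PBOb.DQ b, ‖(m : ℂ) * gl x i0 (I * τ) b z‖ ≤ C * Real.exp (-a * |z.im|) := by
  have hl := Bd.l_pos
  obtain ⟨C1, hC1, h1⟩ := PBForce.xiR_le (b := 7 / 10 * NUP1.l) (by positivity) (by
    show 7 / 10 * NUP1.l < NUP1.l
    linarith)
  obtain ⟨C3, hC3, h3⟩ := PBEI.qF_TC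
  refine ⟨C3 * Real.exp 2 + C1 * C2 + 1, by positivity, fun m x i0 hx τ hτ a ha0 ha =>
    ⟨⟨(h3 m x i0 hx a ha0 ha τ).an, fun z hz => ?_⟩, fun b u hu => ?_⟩⟩
  · refine ((h3 m x i0 hx a ha0 ha τ).bd z hz).trans ?_
    refine mul_le_mul_of_nonneg_right ?_ (Real.exp_pos _).le
    have h4 : Real.exp (a * |τ|) ≤ Real.exp 2 := by
      refine Real.exp_le_exp.2 ?_
      have := mul_le_mul ha hτ (abs_nonneg τ) (by norm_num : (0 : ℝ) ≤ 2)
      linarith
    have h5 := mul_le_mul_of_nonneg_left h4 hC3.le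
    have h6 : 0 ≤ C1 * C2 := by positivity
    linarith
  · have hm : (0 : ℝ) < m := by exact_mod_cast i0.pos
    have k1 : ‖xiK x i0 b u‖ ≤ C1 / m := by
      refine h1 m x i0 hx _ ?_
      obtain ⟨s, k⟩ := b
      obtain ⟨h4, h5⟩ := hu
      rcases k with _ | k
      · show |(u - NUP1.l : ℂ).re| ≤ _
        rw [sub_re, ofReal_re]
        simp only [PBOb.lo, PBOb.hi] at h4 h5
        rw [abs_le]
        constructor <;> linarith
      · show |(u + 2 * NUP1.l - NUP1.l : ℂ).re| ≤ _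
        have e : (u + 2 * NUP1.l - NUP1.l : ℂ).re = u.re + NUP1.l := by
          simp
          ring
        rw [e, abs_le]
        cases k <;> simp only [PBOb.lo, PBOb.hi] at h4 h5 <;> constructor <;> linarith
    have k2 := hL (I * τ) (by simp) (by simpa using hτ) b u hu
    have k3 : Real.exp (-2 * |u.im|) ≤ Real.exp (-a * |u.im|) := by
      refine Real.exp_le_exp.2 ?_
      have := mul_le_mul_of_nonneg_right ha (abs_nonneg u.im)
      linarith
    unfold gl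
    rw [norm_mul, norm_mul, Complex.norm_natCast]
    calc (m : ℝ) * (‖xiK x i0 b u‖ * ‖lamK (I * τ) b u‖) ≤
          (m : ℝ) * (C1 / m * (C2 * Real.exp (-a * |u.im|))) := by
          refine mul_le_mul_of_nonneg_left ?_ hm.le
          exact mul_le_mul k1 (k2.trans (mul_le_mul_of_nonneg_left k3 hC2)) (norm_nonneg _)
            (by positivity)
      _ = C1 * C2 * Real.exp (-a * |u.im|) := by
          field_simp
      _ ≤ _ := by
          refine mul_le_mul_of_nonneg_right ?_ (Real.exp_pos _).le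
          have : 0 ≤ C3 * Real.exp 2 := by positivity
          linarith

end PBRep

end
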