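import Pool.Agent.PB.InsTwo
import Pool.Agent.PB.FNeq
import Pool.Agent.PB.ParZ

/-!
# Plan B: the transfer of products of statistics at the data of the dislocated function

* `clZ_of`: the class `ClZ` from `OneC` and `DecZ`; `clZ_ZL`: the class functions `ZL`;
* `insQ_of`: the data `InsQ` from `ParC`, curves `CurB ep`; `insQ_par0`: the landed curve;
* `ins_ZL`: products of statistics for `ZL`.
-/

set_option autoImplicit false
set_option linter.unusedSectionVars false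

noncomputable section

open Complex MeasureTheory Finset
open scoped ENNReal

namespace PBF

open NUO NUP1 NUCR NUP1S NUP1S.Ab NUP1S.AbC NUGC PBFunc PBC PBX
open PBI (Stt tw F0 fl)

variable {P : NUO.Par} {ep κ κ' x0 : ℝ} {Q : ℤ} {n n' : ℕ} {η η' : Crs}

/-- the class from the one body bounds and the decay -/
theorem clZ_of {Z : Stt} {B : OB} {E : Set ℝ} (h : OneC Z B P ep κ' x0 Q E)
    (hd : DecZ Z P x0 κ Q) (hep0 : 0 ≤ ep) : ClZ Z P x0 κ κ' (ep / 4) Q := by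
  have hl := Bd.l_pos
  exact ⟨h.meas, fun s u h1 h2 => h.dA s u h1 (h2.trans (by nlinarith)), hd, QOk.of_oneC h⟩

/-- **the class functions of the dislocated function** -/
theorem clZ_ZL {m : ℕ} {β : ℝ} (hP : ParC P) (hep0 : 0 < ep) (hep : ep ≤ 1 / 100) (hβ : 0 < β)
    (hβ' : β ≤ 4 / 3) {x : Fin m → ℂ} (hx : Rws x) {ex ex0 : List ℂ}
    (hex : ∀ w ∈ ex, |w.re| ≤ NUP1.l / 2) (hex0 : ∀ w ∈ ex0, |w.re| ≤ NUP1.l / 2) {z : ℂ}
    (h1 : -(9 / 10 * NUP1.l) ≤ z.re) (h2 : z.re < 37 / 10 * NUP1.l) :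
    ClZ (ZL β x ex ex0 z) P (3 / 5 * NUP1.l) (2 * β) (2 * β) (ep / 4) 0 := by
  have hl := Bd.l_pos
  refine clZ_of (oneC_ZL le_rfl (by linarith) hP hep0 hep hβ hβ' hx hex ex0 h1 h2) ?_ hep0.le
  have := decZ_ZL (β := β) hP hβ hβ' hx hex hex0 (z := z) (by linarith) h2
  rwa [Int.cast_zero]

/-- the data of the transfer -/
theorem insQ_of (hP : ParC P) (hρ : ∀ r, ∃ ρ0, 0 < ρ0 ∧ ∀ t, ρ0 ≤ P.rad r t) (hep0 : 0 < ep)
    (hep : ep ≤ 1 / 100) (hκ : 0 < κ) (hn : (n : ℤ) - n' = Q) (hc : MCr η η')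
    (hη : ∀ r ≤ n + n', ∀ O, CurB ep (η r O) (η' r O)) :
    InsQ P (3 / 5 * NUP1.l) κ κ' (ep / 4) Q n n' η η' := by
  have hl := Bd.l_pos
  have j2 := hP.j2
  exact ⟨hP.goodQ, by linarith, hP.rm, hρ, hκ, hn, by linarith, by linarith, by linarith, hc,
    fun r hr O => crvR_of hep0 hep (hη r hr O)⟩

/-- one curve for all configurations -/
theorem mcr_const {f f' : ℝ → ℝ} (hf : Measurable f) (hf' : Measurable f') :
    MCr (fun _ _ => f) (fun _ _ => f') :=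
  ⟨fun _ => hf.comp measurable_snd, fun _ => hf'.comp measurable_snd⟩

/-- **the landed parameters**, any sea, one admissible curve -/
theorem insQ_par0 [NUSea.Sea] (k : ℕ) (hep0 : 0 < ep) (hep : ep ≤ 1 / 100) (hκ : 0 < κ)
    (hn : (n : ℤ) - n' = Q) {f f' : ℝ → ℝ} (hf : CurB ep f f') :
    InsQ (NUSea.O.par0 k) (3 / 5 * NUP1.l) κ κ' (ep / 4) Q n n' (fun _ _ => f) (fun _ _ => f') := by
  have hcf : Continuous f := continuous_iff_continuousAt.2 fun t => (hf.hd t).continuousAt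
  exact insQ_of (parZ_parC k) (rad_low k) hep0 hep hκ hn
    (mcr_const hcf.measurable hf.hc.measurable) fun _ _ _ => hf

/-- **products of statistics at the class functions of the dislocated function** -/
theorem ins_ZL {m : ℕ} {β : ℝ} (hP : ParC P) (hρ : ∀ r, ∃ ρ0, 0 < ρ0 ∧ ∀ t, ρ0 ≤ P.rad r t)
    (hep0 : 0 < ep) (hep : ep ≤ 1 / 100) (hβ : 0 < β)
    (hβ' : β ≤ 4 / 3) {x : Fin m → ℂ} (hx : Rws x) {ex ex0 : List ℂ}
    (hex : ∀ w ∈ ex, |w.re| ≤ NUP1.l / 2) (hex0 : ∀ w ∈ ex0, |w.re| ≤ NUP1.l / 2) {z : ℂ}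
    (h1 : -(9 / 10 * NUP1.l) ≤ z.re) (h2 : z.re < 37 / 10 * NUP1.l) (hc : MCr η η')
    (hη : ∀ r ≤ n + n, ∀ O, CurB ep (η r O) (η' r O)) {L : List Stt}
    (hL : ∀ a ∈ L, AdS P (3 / 5 * NUP1.l) (ep / 4) a)
    (hf : FA (ZL β x ex ex0 z) P n n η η' (fun _ _ _ _ _ => 1) < ∞) :
    F0 (3 / 5 * NUP1.l) n n (fl P) (ZL β x ex ex0 z) (pSt L) =
        FF (ZL β x ex ex0 z) P n n η η' (pStA L P η) ∧
      PBI.F0Ok (3 / 5 * NUP1.l) n n (fl P) (ZL β x ex ex0 z) (pSt L) ∧ MIn (pStA L P η) ∧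
      FA (ZL β x ex ex0 z) P n n η η' (pStA L P η) < ∞ :=
  ins_listA (insQ_of (κ := 2 * β) (κ' := 2 * β) (Q := 0) hP hρ hep0 hep (by linarith) (by simp) hc hη)
    hL (clZ_ZL hP hep0 hep hβ hβ' hx hex hex0 h1 h2) hf

end PBF

end
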