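import Pool.Agent.PB.NzA
import Pool.Agent.NUP1.Mult

/-!
# Continuity and symmetry of the prefactor of the dislocated function (helper71)
-/

set_option autoImplicit false

noncomputable section

open Complex Filter Topology

namespace Pool.Agent.PB

open NUP1 (l lpos)
open NUP1.Grand (P)
open PBR (rh rh_neg rh_ne_zero continuousAt_rh differentiableAt_rh)

variable {m M : ℕ}

/-- the rows of one group are in a strip of width `5 l` -/
def Nar (x : Fin m → ℂ) : Prop := ∀ i j, |(x i - x j).re| < 5 * l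

/-- legs and rows at distance `< 5 l` -/
def NarZ (z : ℂ) (x : Fin m → ℂ) : Prop := ∀ i, |(z - x i).re| < 5 * l

theorem P_tendsto {E : Type*} {F : Filter E} {n : ℕ} {f : E → Fin n → Fin n → ℂ}
    {g : Fin n → Fin n → ℂ} (h : ∀ i j, Tendsto (fun e => f e i j) F (𝓝 (g i j))) :
    Tendsto (fun e => P (f e)) F (𝓝 (P g)) := by
  unfold NUP1.Grand.P
  refine tendsto_finsetProd _ fun a _ => tendsto_finsetProd _ fun b _ => ?_
  split_ifs
  · exact h a b
  · exact tendsto_const_nhds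

theorem P_ne {n : ℕ} {f : Fin n → Fin n → ℂ} (h : ∀ i j, f i j ≠ 0) : P f ≠ 0 := by
  unfold NUP1.Grand.P
  refine Finset.prod_ne_zero_iff.2 fun a _ => Finset.prod_ne_zero_iff.2 fun b _ => ?_
  split_ifs
  · exact h a b
  · exact one_ne_zero

theorem rh_tendsto {E : Type*} {F : Filter E} {w : E → ℂ} {w0 : ℂ} (h : Tendsto w F (𝓝 w0))
    (h0 : |w0.re| < 5 * l) : Tendsto (fun e => rh (w e)) F (𝓝 (rh w0)) :=
  (continuousAt_rh (by linarith [lpos])).tendsto.comp h

theorem sin_tendsto {E : Type*} {F : Filter E} {w : E → ℂ} {w0 : ℂ} (h : Tendsto w F (𝓝 w0)) :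
    Tendsto (fun e => sin (w e)) F (𝓝 (sin w0)) :=
  (Complex.continuous_sin.tendsto _).comp h

section
variable {E : Type*} {F : Filter E} {z : E → ℂ} {x : E → Fin m → ℂ} {y : E → Fin M → ℂ} {z0 : ℂ}
  {x0 : Fin m → ℂ} {y0 : Fin M → ℂ}

theorem Nu_tendsto (tz : Tendsto z F (𝓝 z0)) (tx : ∀ i, Tendsto (fun e => x e i) F (𝓝 (x0 i))) :
    Tendsto (fun e => Nu (z e) (x e)) F (𝓝 (Nu z0 x0)) := by
  unfold Nu Lp Fp
  refine Tendsto.mul (tendsto_finsetProd _ fun i _ => ?_) (P_tendsto fun i j => ?_)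
  · exact tendsto_const_nhds.mul ((sin_tendsto ((tz.sub (tx i)).add_const _)).mul
      (sin_tendsto ((tz.sub (tx i)).add_const _)))
  · exact ((sin_tendsto (((tx i).sub (tx j)).add_const _)).mul
      (sin_tendsto (((tx i).sub (tx j)).add_const _))).mul
      ((sin_tendsto (tendsto_const_nhds.sub ((tx i).sub (tx j)))).mul
      (sin_tendsto (tendsto_const_nhds.sub ((tx i).sub (tx j)))))

theorem D1_tendsto (tz : Tendsto z F (𝓝 z0)) (tx : ∀ i, Tendsto (fun e => x e i) F (𝓝 (x0 i)))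
    (hx : Nar x0) (hz : NarZ z0 x0) : Tendsto (fun e => D1 (z e) (x e)) F (𝓝 (D1 z0 x0)) := by
  unfold D1
  refine Tendsto.mul (P_tendsto fun i j => ?_) (tendsto_finsetProd _ fun i _ => ?_)
  · exact (rh_tendsto ((tx i).sub (tx j)) (hx i j)).pow 2
  · exact (rh_tendsto (tz.sub (tx i)) (hz i)).pow 2

theorem D2_tendsto (tx : ∀ i, Tendsto (fun e => x e i) F (𝓝 (x0 i)))
    (ty : ∀ i, Tendsto (fun e => y e i) F (𝓝 (y0 i))) (h : ∀ i j, |(x0 i - y0 j).re| < 5 * l) :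
    Tendsto (fun e => D2 (x e) (y e)) F (𝓝 (D2 x0 y0)) := by
  unfold D2
  exact tendsto_finsetProd _ fun i _ => tendsto_finsetProd _ fun j _ =>
    (rh_tendsto ((tx i).sub (ty j)) (h i j)).pow 2

theorem D1_ne {z : ℂ} {x : Fin m → ℂ} (hx : Nar x) (hz : NarZ z x) : D1 z x ≠ 0 := by
  unfold D1
  exact mul_ne_zero (P_ne fun i j => pow_ne_zero _ (rh_ne_zero (hx i j)))
    (Finset.prod_ne_zero_iff.2 fun i _ => pow_ne_zero _ (rh_ne_zero (hz i)))

theorem D2_ne {x : Fin m → ℂ} {y : Fin M → ℂ} (h : ∀ i j, |(x i - y j).re| < 5 * l) :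
    D2 x y ≠ 0 := by
  unfold D2
  exact Finset.prod_ne_zero_iff.2 fun i _ => Finset.prod_ne_zero_iff.2 fun j _ =>
    pow_ne_zero _ (rh_ne_zero (h i j))

theorem rh0_ne : rh 0 ≠ 0 := rh_ne_zero (by simpa using lpos)

/-- joint continuity of the prefactor -/
theorem Pf_tendsto (tz : Tendsto z F (𝓝 z0)) (tx : ∀ i, Tendsto (fun e => x e i) F (𝓝 (x0 i)))
    (ty : ∀ i, Tendsto (fun e => y e i) F (𝓝 (y0 i))) (hx : Nar x0) (hy : Nar y0)
    (hxy : ∀ i j, |(x0 i - y0 j).re| < 5 * l) (hzx : NarZ z0 x0) (hzy : NarZ z0 y0) :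
    Tendsto (fun e => Pf (z e) (x e) (y e)) F (𝓝 (Pf z0 x0 y0)) := by
  unfold Pf
  refine Tendsto.div (tendsto_const_nhds.mul ((Nu_tendsto tz tx).mul (Nu_tendsto tz ty)))
    ((((D1_tendsto tz tx hx hzx).mul (D1_tendsto tz ty hy hzy)).mul
      (D2_tendsto tx ty hxy)).mul tendsto_const_nhds) ?_
  exact mul_ne_zero (mul_ne_zero (mul_ne_zero (D1_ne hx hzx) (D1_ne hy hzy)) (D2_ne hxy)) rh0_ne

end

/-! ### analyticity in the legs -/

theorem Nu_diff (x : Fin m → ℂ) (z : ℂ) : DifferentiableAt ℂ (fun z => Nu z x) z := by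
  unfold Nu Lp
  fun_prop

theorem D1_diff {x : Fin m → ℂ} {z : ℂ} (hz : NarZ z x) : DifferentiableAt ℂ (fun z => D1 z x) z := by
  unfold D1
  refine DifferentiableAt.const_mul (DifferentiableAt.fun_finsetProd fun i _ => ?_) _
  refine DifferentiableAt.pow ?_ 2
  exact (differentiableAt_rh (by linarith [hz i, lpos])).comp z (differentiableAt_id.sub_const _)

theorem Pf_diff {x : Fin m → ℂ} {y : Fin M → ℂ} {z : ℂ} (hx : Nar x) (hy : Nar y)
    (hxy : ∀ i j, |(x i - y j).re| < 5 * l) (hzx : NarZ z x) (hzy : NarZ z y) :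
    DifferentiableAt ℂ (fun z => Pf z x y) z := by
  unfold Pf
  refine DifferentiableAt.div ((differentiableAt_const _).mul ((Nu_diff x z).mul (Nu_diff y z)))
    ((((D1_diff hzx).mul (D1_diff hzy)).mul_const _).mul_const _) ?_
  exact mul_ne_zero (mul_ne_zero (mul_ne_zero (D1_ne hx hzx) (D1_ne hy hzy)) (D2_ne hxy)) rh0_ne

/-! ### the order of the rows, both groups equal -/

/-- the square of a product over the pairs -/
theorem P_sq_perm {n : ℕ} {f : ℂ → ℂ} (hf : ∀ w, f (-w) = f w) (x : Fin n → ℂ)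
    (σ : Equiv.Perm (Fin n)) :
    (P fun i j => f (x (σ i) - x (σ j))) ^ 2 = (P fun i j => f (x i - x j)) ^ 2 := by
  have key : ∀ x : Fin n → ℂ, (P fun i j => f (x i - x j)) ^ 2 =
      ∏ i, ∏ j, if i = j then 1 else f (x i - x j) := by
    intro x
    rw [← NUP1.Mu.P_both, sq, ← NUP1.Mu.P_mul]
    refine NUP1.Mu.P_congr fun i j _ => ?_
    rw [← hf (x j - x i), neg_sub]
  rw [key fun i => x (σ i), key x]
  rw [← Equiv.prod_comp σ fun i => ∏ j, if i = j then 1 else f (x i - x j)]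
  refine Finset.prod_congr rfl fun i _ => ?_
  rw [← Equiv.prod_comp σ fun j => if σ i = j then 1 else f (x (σ i) - x j)]
  simp only [EmbeddingLike.apply_eq_iff_eq]

theorem P_pow {n : ℕ} (f : Fin n → Fin n → ℂ) (k : ℕ) : P (fun i j => f i j ^ k) = P f ^ k := by
  induction k with
  | zero =>
    simp [NUP1.Grand.P]
  | succ k ih =>
    simp only [pow_succ]
    rw [NUP1.Mu.P_mul, ih]

theorem Nu_sq_perm (z : ℂ) (x : Fin m → ℂ) (σ : Equiv.Perm (Fin m)) :
    Nu z (fun i => x (σ i)) ^ 2 = Nu z x ^ 2 := by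
  unfold Nu
  rw [mul_pow, mul_pow, P_sq_perm Fp_neg x σ, Equiv.prod_comp σ fun i => sin l * Lp z (x i)]

theorem D1_perm (z : ℂ) (x : Fin m → ℂ) (σ : Equiv.Perm (Fin m)) :
    D1 z (fun i => x (σ i)) = D1 z x := by
  unfold D1
  rw [P_pow, P_pow, P_sq_perm rh_neg x σ, Equiv.prod_comp σ fun i => rh (z - x i) ^ 2]

theorem D2_perm (x : Fin m → ℂ) (y : Fin M → ℂ) (σ : Equiv.Perm (Fin m)) (τ : Equiv.Perm (Fin M)) :
    D2 (fun i => x (σ i)) (fun i => y (τ i)) = D2 x y := by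
  unfold D2
  rw [Equiv.prod_comp σ fun i => ∏ j, rh (x i - y (τ j)) ^ 2]
  refine Finset.prod_congr rfl fun i _ => ?_
  rw [Equiv.prod_comp τ fun j => rh (x i - y j) ^ 2]

/-- the prefactor does not depend on the order of the rows (equal groups) -/
theorem Pf_perm (z : ℂ) (x : Fin m → ℂ) (σ : Equiv.Perm (Fin m)) :
    Pf z (fun i => x (σ i)) (fun i => x (σ i)) = Pf z x x := by
  unfold Pf
  rw [D1_perm, D2_perm, ← sq (Nu z fun i => x (σ i)), ← sq (Nu z x), Nu_sq_perm]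

end Pool.Agent.PB

end
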