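import Pool.Agent.PB.RepT
import Pool.Agent.PB.InsInst
import Pool.Agent.PB.CloseF
import Pool.Agent.PB.NzC
import Pool.Agent.PB.VInst
import Pool.Agent.PB.ZFamK

/-!
# Plan B: the data of the transfer at the dislocated function (helper89)

Rows `i s, 0^k`, legs at `i t`, cutoff `4 (1 - ep) / 3`, curves `crL e1 J (k + 1)`.

* `Pf_ne`: the prefactor does not vanish;
* `fin_ZL`: the functional is absolutely convergent for each number of quanta;
* **`trN_ZL`**: `PBRep.TrN`.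
-/

set_option autoImplicit false
set_option linter.unusedSectionVars false

noncomputable section

attribute [local instance] NUSea.seaP

open Complex MeasureTheory Finset Filter
open scoped ENNReal Classical

namespace PBI

open NUP1 hiding Kd
open NUO NUP1S NUP1S.Ab NUP1S.AbC PBF PBFunc PB
open PBR (rh rh_ne_zero)
open Pool.Agent.PB (Pf Nu Lp Fp D1_ne D2_ne rh0_ne P_ne Nar NarZ)

/-- the prefactor does not vanish -/
theorem Pf_ne {m : ℕ} {z : ℂ} {x : Fin m → ℂ} (hx : ∀ i, (x i).re = 0) (hz : z.re = 0) :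
    Pf z x x ≠ 0 := by
  have hl := Bd.l_pos
  have hpi : 8 * l = Real.pi := by
    unfold NUP1.l
    ring
  have hs : ∀ {w : ℂ}, 0 < w.re → w.re < 8 * l → Complex.sin w ≠ 0 := fun h1 h2 =>
    NUP1.Bd.sin_ne_zero_of_re (Real.sin_pos_of_pos_of_lt_pi h1 (by rw [← hpi]; exact h2)).ne'
  have h0 : Complex.sin (l : ℂ) ≠ 0 := hs (by simpa using hl) (by simp; linarith)
  have hnu : Nu z x ≠ 0 := by
    unfold Nu
    refine mul_ne_zero (Finset.prod_ne_zero_iff.2 fun i _ => mul_ne_zero h0 ?_) (P_ne fun i j => ?_)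
    · unfold Pool.Agent.PB.Lp
      refine mul_ne_zero (hs ?_ ?_) (hs ?_ ?_) <;> simp [hx, hz] <;> linarith
    · unfold Fp
      refine mul_ne_zero (mul_ne_zero (hs ?_ ?_) (hs ?_ ?_)) (mul_ne_zero (hs ?_ ?_) (hs ?_ ?_)) <;>
        simp [hx] <;> linarith
  have hN : Nar x := fun i j => by
    rw [sub_re, hx, hx, sub_self, abs_zero]
    linarith
  have hZ : NarZ z x := fun i => by
    rw [sub_re, hx, hz, sub_self, abs_zero]
    linarith
  unfold Pool.Agent.PB.Pf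
  refine div_ne_zero (mul_ne_zero (mul_ne_zero (pow_ne_zero _ (by norm_num)) h0)
    (mul_ne_zero hnu hnu)) ?_
  exact mul_ne_zero (mul_ne_zero (mul_ne_zero (D1_ne hN hZ) (D1_ne hN hZ)) (D2_ne hN)) rh0_ne

theorem mu1_eq (k : ℕ) (s : ℝ) : PBL.mu1 k (I * (s : ℂ)) = PBEI.rowS k s := rfl

theorem rowS_re (k : ℕ) (s : ℝ) (i : Fin (k + 1)) : (PBEI.rowS k s i).re = 0 := by
  unfold PBEI.rowS
  refine Fin.cases ?_ (fun j => ?_) i
  · simp
  · simp

/-- **absolute convergence, each number of quanta**, and the data of the transfer -/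
theorem trN_ZL : ∃ a0 : ℝ, 0 < a0 ∧ ∀ ep e1 J : ℝ, 0 < ep → ep ≤ 1 / 100 → 0 < e1 →
    e1 ≤ 1 / 100 → 0 ≤ J → Real.exp (-(2 * Real.pi * J)) + 3 * e1 + 3 * ep ≤ a0 →
    ∃ m0 : ℕ, ∀ k : ℕ, m0 ≤ k → ∀ s t : ℝ, |s| ≤ 1 → |t| ≤ 1 →
      PBRep.TrN (PBT.ZL (fun _ => Leg.cc (k + 1)) k (4 / 3 * (1 - ep)) (I * s) (I * t))
        (PBT.pL (k + 1)) (3 / 5 * NUP1.l) (2 * (4 / 3 * (1 - ep))) (2 * (4 / 3 * (1 - ep)))
        (ep / 4) (2 * (k + 1)) (fun _ => PBT.crL e1 J (k + 1)) (fun _ => PBT.crL' e1 J (k + 1)) := by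
  obtain ⟨a0, ha0, H⟩ := PBC.topM (δ := 1) one_pos
  refine ⟨a0, ha0, fun ep e1 J hep hep1 he he1 hJ hsm => ?_⟩
  obtain ⟨m1, H⟩ := H ep e1 J hep hep1 he he1 hJ hsm
  obtain ⟨mc, -, Hcur⟩ := PBF.curZ_crs he he1 hJ hep
  refine ⟨max m1 mc, fun k hk s t hs ht => ?_⟩
  have k1 : m1 ≤ k := (le_max_left _ _).trans hk
  have k2 : mc ≤ k + 1 := ((le_max_right _ _).trans hk).trans (Nat.le_succ k)
  have hl := Bd.l_pos
  have hlN : NUP1.l = NUMF.l := rfl
  have hre : ∀ r : ℝ, (I * (r : ℂ)).re = 0 := fun r => by simp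
  have him : ∀ r : ℝ, (I * (r : ℂ)).im = r := fun r => by simp
  have hlog : 0 ≤ Real.log ((k + 1 : ℕ) : ℝ) := Real.log_nonneg (by
    exact_mod_cast Nat.succ_le_succ (Nat.zero_le k))
  have key := H k k1 (I * s) (I * t) (by rw [hre, abs_zero, ← hlN]; positivity)
    (by rw [him]; linarith) (by rw [hre, ← hlN]; linarith) (by rw [hre, ← hlN]; linarith)
    (by rw [him]; linarith) (fun _ => Leg.cc (k + 1)) fun _ => PBV.nrm_cc _
  have hPf : Pf (I * (t : ℂ)) (PBL.mu1 k (I * (s : ℂ))) (PBL.mu1 k (I * (s : ℂ))) ≠ 0 :=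
    Pf_ne (fun i => by rw [mu1_eq]; exact rowS_re k s i) (hre t)
  have hP : NUGC.ParC (PBT.pL (k + 1)) := PBF.parZ_parC (k + 1)
  have hβ : (0 : ℝ) < 4 / 3 * (1 - ep) := by linarith
  refine ⟨fun n hn => ?_, ?_, fun n hn => ?_⟩
  · exact insQ_of (κ := 2 * (4 / 3 * (1 - ep))) hP (PBX.rad_low (k + 1)) hep hep1 (by linarith)
      (by simp) (mcr_const (curZ_cont e1 J (k + 1) (k + 1 : ℕ)).measurable
        (curZ_cont' e1 J (k + 1) (k + 1 : ℕ)).measurable) fun r _ O => Hcur (k + 1) k2 r O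
  · refine clZ_ZL (β := 4 / 3 * (1 - ep)) hP hep hep1 hβ (by linarith)
      (x := PBL.mu1 k (I * (s : ℂ))) (PBT.rws_mu1 k (by rw [hre, abs_zero]; positivity))
      (ex := [I, -I]) (ex0 := []) ?_ (by simp) (z := I * (t : ℂ)) (by rw [hre]; linarith)
      (by rw [hre]; linarith)
    intro w hw
    rw [List.mem_cons, List.mem_singleton] at hw
    rcases hw with rfl | rfl
    · rw [Complex.I_re, abs_zero]
      positivity
    · rw [Complex.neg_re, Complex.I_re, neg_zero, abs_zero]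
      positivity
  · have h1 : ENNReal.ofReal ‖Pf (I * (t : ℂ)) (PBL.mu1 k (I * (s : ℂ))) (PBL.mu1 k (I * (s : ℂ)))‖ *
        PBF.FE (PBT.ZL (fun _ => Leg.cc (k + 1)) k (4 / 3 * (1 - ep)) (I * s) (I * t))
          (PBT.pL (k + 1)) n n (PBT.crL e1 J (k + 1)) (PBT.crL' e1 J (k + 1))
          (fun _ _ _ _ _ => 1) < ∞ := by
      refine lt_of_le_of_lt ((mul_le_mul_right (Finset.single_le_sum (f := fun n => PBF.FE
        (PBT.ZL (fun _ => Leg.cc (k + 1)) k (4 / 3 * (1 - ep)) (I * s) (I * t))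
          (PBT.pL (k + 1)) n n (PBT.crL e1 J (k + 1)) (PBT.crL' e1 J (k + 1))
          (fun _ _ _ _ _ => 1)) (fun _ _ => zero_le)
          (Finset.mem_range.2 (Nat.lt_succ_of_le hn))) _).trans key) ENNReal.ofReal_lt_top
    have h2 : ENNReal.ofReal ‖Pf (I * (t : ℂ)) (PBL.mu1 k (I * (s : ℂ)))
        (PBL.mu1 k (I * (s : ℂ)))‖ ≠ 0 := by
      rw [Ne, ENNReal.ofReal_eq_zero, not_le]
      exact norm_pos_iff.2 hPf
    have h3 : PBF.FE (PBT.ZL (fun _ => Leg.cc (k + 1)) k (4 / 3 * (1 - ep)) (I * s) (I * t))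
          (PBT.pL (k + 1)) n n (PBT.crL e1 J (k + 1)) (PBT.crL' e1 J (k + 1))
          (fun _ _ _ _ _ => 1) ≠ ∞ := by
      intro h
      rw [h, ENNReal.mul_top h2] at h1
      exact lt_irrefl _ h1
    rw [PBF.FA_eq_FE]
    simp only [enorm_one]
    exact lt_top_iff_ne_top.2 h3

end PBI

end
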