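import Pool.Agent.PB.NzH

/-!
# The logarithmic derivatives of the prefactor (helper81)

`HLD f a x` : `f' = f a` at `x`.

* `rr w = rh' w / rh w`, `rr_eq` (explicit), `rr_neg`, `rr_shift`;
* `Pf_cons` : the row `ξ` split off, `Pf_legs` : the legs split off;
* **`Pf_row`** : `∂_ξ Pf z (ξ, mu) (ξ, mu) = Pf * (- gl (z - ξ) + ∑ j, gp (ξ - mu j))`;
* **`Pf_leg_D`** : `∂_z Pf z mu mu = Pf * ∑ i, gl (z - mu i)`;
* real directions: `Pf_row_I`, `Pf_leg_I`; `gp` odd, `gl w + gl (w + 3 l)`.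
-/

set_option autoImplicit false
set_option linter.unusedSectionVars false

noncomputable section

open Complex Filter Topology Set

namespace Pool.Agent.PB

open NUP1 (l lpos P_succ)
open NUP1.Grand (P)
open PBR (rh rh_neg rh_ne_zero continuousAt_rh differentiableAt_rh sk rh_mul)
open PBX (Rws)

variable {m M : ℕ}

/-! ### logarithmic derivatives without division -/

/-- `f' = f a` at `x` -/
def HLD (f : ℂ → ℂ) (a x : ℂ) : Prop := HasDerivAt f (f x * a) x

namespace HLD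

variable {f g : ℂ → ℂ} {a b x : ℂ}

theorem hasDerivAt (h : HLD f a x) : HasDerivAt f (f x * a) x := h

theorem congr_a (h : HLD f a x) (e : a = b) : HLD f b x := e ▸ h

theorem const (c x : ℂ) : HLD (fun _ => c) 0 x := by
  unfold HLD
  rw [mul_zero]
  exact hasDerivAt_const x c

theorem mul (h : HLD f a x) (h' : HLD g b x) : HLD (fun x => f x * g x) (a + b) x := by
  refine (HasDerivAt.mul h h').congr_deriv ?_
  ring

theorem const_mul (h : HLD f a x) (c : ℂ) : HLD (fun x => c * f x) a x :=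
  ((const c x).mul h).congr_a (zero_add a)

theorem mul_const (h : HLD f a x) (c : ℂ) : HLD (fun x => f x * c) a x :=
  (h.mul (const c x)).congr_a (add_zero a)

theorem pow (h : HLD f a x) (n : ℕ) : HLD (fun x => f x ^ n) (n * a) x := by
  refine (HasDerivAt.pow h n).congr_deriv ?_
  rcases n with _ | n
  · simp
  · show ((n + 1 : ℕ) : ℂ) * f x ^ n * (f x * a) = f x ^ (n + 1) * (((n + 1 : ℕ) : ℂ) * a)
    ring

theorem inv (h : HLD f a x) (h0 : f x ≠ 0) : HLD (fun x => (f x)⁻¹) (-a) x := by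
  refine (HasDerivAt.inv h h0).congr_deriv ?_
  field_simp

theorem div (h : HLD f a x) (h' : HLD g b x) (h0 : g x ≠ 0) :
    HLD (fun x => f x / g x) (a - b) x := by
  simp only [div_eq_mul_inv]
  exact (h.mul (h'.inv h0)).congr_a (by ring)

theorem prod {ι : Type*} {s : Finset ι} {F : ι → ℂ → ℂ} {A : ι → ℂ}
    (h : ∀ i ∈ s, HLD (F i) (A i) x) : HLD (fun x => ∏ i ∈ s, F i x) (∑ i ∈ s, A i) x := by
  classical
  induction s using Finset.induction_on with
  | empty => simpa using const 1 x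
  | insert i s hi ih =>
    have h1 := (h i (Finset.mem_insert_self i s)).mul
      (ih fun j hj => h j (Finset.mem_insert_of_mem hj))
    rw [Finset.sum_insert hi]
    refine HasDerivAt.congr_deriv (f := fun x => ∏ i ∈ insert i s, F i x) (HasDerivAt.congr_of_eventuallyEq h1 ?_) ?_
    · exact Eventually.of_forall fun y => Finset.prod_insert hi
    · show (F i x * ∏ i ∈ s, F i x) * _ = (∏ i ∈ insert i s, F i x) * _
      rw [Finset.prod_insert hi]

/-- composition with a function of derivative `c` -/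
theorem comp {u : ℂ → ℂ} {c : ℂ} (h : HLD f a (u x)) (hu : HasDerivAt u c x) :
    HLD (fun x => f (u x)) (a * c) x := by
  refine (HasDerivAt.comp (h₂ := f) (h := u) x h.hasDerivAt hu).congr_deriv ?_
  show f (u x) * a * c = f (u x) * (a * c)
  ring

theorem congr (h : HLD f a x) (e : ∀ᶠ y in 𝓝 x, g y = f y) : HLD g a x := by
  have h1 := HasDerivAt.congr_of_eventuallyEq h e
  refine h1.congr_deriv ?_
  rw [e.self_of_nhds]

/-- the sine -/
theorem sin {x : ℂ} (h : Complex.sin x ≠ 0) : HLD Complex.sin (cos x / Complex.sin x) x := by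
  refine (Complex.hasDerivAt_sin x).congr_deriv ?_
  field_simp

/-- derivative along a real direction -/
theorem real {x0 : ℂ} {s : ℝ} (h : HLD f a (x0 + I * s)) :
    HasDerivAt (fun s : ℝ => f (x0 + I * s)) (f (x0 + I * s) * (I * a)) s := by
  have h1 : HasDerivAt (fun w : ℂ => x0 + I * w) I (s : ℂ) := by
    simpa using ((hasDerivAt_id (s : ℂ)).const_mul I).const_add x0
  refine ((HasDerivAt.comp (h₂ := f) (h := fun w : ℂ => x0 + I * w) (s : ℂ) h.hasDerivAt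
    h1).comp_ofReal).congr_deriv ?_
  ring

end HLD

/-! ### the bulk factor -/

/-- the cotangent -/
def ct (w : ℂ) : ℂ := cos w / sin w

theorem ct_neg (w : ℂ) : ct (-w) = -ct w := by
  unfold ct
  rw [Complex.cos_neg, Complex.sin_neg, div_neg]

/-- `rh' / rh` -/
def rr (w : ℂ) : ℂ := deriv rh w / rh w

theorem rh_HLD {w : ℂ} (h : |w.re| < 5 * l) : HLD rh (rr w) w := by
  have hl := lpos
  have h0 := rh_ne_zero h
  refine (differentiableAt_rh (by linarith : |w.re| < 8 * l)).hasDerivAt.congr_deriv ?_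
  unfold rr
  field_simp

/-- logarithmic derivatives are unique -/
theorem HLD.unique {f : ℂ → ℂ} {a b x : ℂ} (h : HLD f a x) (h' : HLD f b x) (h0 : f x ≠ 0) :
    a = b := mul_left_cancel₀ h0 (HasDerivAt.unique h h')

theorem hneg (w : ℂ) : HasDerivAt (fun w : ℂ => -w) (-1) w := (hasDerivAt_id w).neg

theorem rr_neg {w : ℂ} (h : |w.re| < 5 * l) : rr (-w) = -rr w := by
  have h' : |(-w).re| < 5 * l := by rwa [neg_re, abs_neg]
  have h1 : HLD (fun w => rh (-w)) (rr (-w) * -1) w := (rh_HLD h').comp (hneg w)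
  have h2 : HLD rh (rr (-w) * -1) w := h1.congr (Eventually.of_forall fun y => (rh_neg y).symm)
  have := (rh_HLD h).unique h2 (rh_ne_zero h)
  rw [this]
  ring

/-- the functional equation -/
theorem rr_shift {w : ℂ} (h1 : |w.re| < 5 * l) (h2 : |w.re + 3 * l| < 5 * l) :
    rr w + rr (w + 3 * l) = -(ct (3 * l - w) + ct (2 * l - w)) := by
  have hl := lpos
  have h2' : |(w + 3 * (l : ℂ)).re| < 5 * l := by
    have e : (w + 3 * (l : ℂ)).re = w.re + 3 * l := by simp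
    rwa [e]
  have k1 := rh_ne_zero h1
  have k2 := rh_ne_zero h2'
  have hm : rh w * rh (w + 3 * l) = sin (3 * l - w) * sin (2 * l - w) :=
    rh_mul (by linarith) (by linarith)
  have s1 : sin (3 * (l : ℂ) - w) ≠ 0 := by
    intro h
    rw [h, zero_mul] at hm
    exact mul_ne_zero k1 k2 hm
  have s2 : sin (2 * (l : ℂ) - w) ≠ 0 := by
    intro h
    rw [h, mul_zero] at hm
    exact mul_ne_zero k1 k2 hm
  have d1 : HLD (fun w => rh w * rh (w + 3 * l)) (rr w + rr (w + 3 * l)) w := by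
    have := (rh_HLD h1).mul ((rh_HLD h2').comp (u := fun w => w + 3 * (l : ℂ))
      ((hasDerivAt_id w).add_const (3 * (l : ℂ))))
    exact this.congr_a (by rw [mul_one])
  have d2 : HLD (fun w => sin (3 * l - w) * sin (2 * l - w))
      (ct (3 * l - w) * -1 + ct (2 * l - w) * -1) w :=
    ((HLD.sin s1).comp (u := fun w => 3 * (l : ℂ) - w) ((hasDerivAt_id w).const_sub _)).mul
      ((HLD.sin s2).comp (u := fun w => 2 * (l : ℂ) - w) ((hasDerivAt_id w).const_sub _))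
  have hopen : ∀ᶠ y in 𝓝 w, rh y * rh (y + 3 * l) = sin (3 * l - y) * sin (2 * l - y) := by
    have o1 : IsOpen {y : ℂ | |y.re| < 8 * l ∧ |y.re + 3 * l| < 8 * l} := by
      have a1 : IsOpen {y : ℂ | |y.re| < 8 * l} := isOpen_lt (by fun_prop) continuous_const
      have a2 : IsOpen {y : ℂ | |y.re + 3 * l| < 8 * l} := isOpen_lt (by fun_prop) continuous_const
      exact a1.inter a2
    filter_upwards [o1.mem_nhds ⟨by linarith, by linarith⟩] with y hy
    exact rh_mul hy.1 hy.2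
  have d3 := d2.congr hopen
  have := d1.unique d3 (mul_ne_zero k1 k2)
  rw [this]
  ring

theorem sk_HLD {k : ℝ} {w : ℂ} (h : sk k w ≠ 0) : HLD (sk k) (-(ct ((k * l - w) / 3)) / 3) w := by
  have hu : HasDerivAt (fun w : ℂ => ((k : ℂ) * l - w) / 3) (-1 / 3) w :=
    ((hasDerivAt_id w).const_sub _).div_const 3
  have h1 : HLD (fun w => sin (((k : ℂ) * l - w) / 3)) (ct ((k * l - w) / 3) * (-1 / 3)) w :=
    (HLD.sin h).comp (u := fun w : ℂ => ((k : ℂ) * l - w) / 3) hu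
  exact h1.congr_a (by ring)

/-- the terms of `rr` -/
def ck (k : ℝ) (w : ℂ) : ℂ := ct ((k * l - w) / 3)

/-- **`rh' / rh` explicitly** -/
theorem rr_eq {w : ℂ} (h : |w.re| < 5 * l) : rr w =
    -(1 / 3) * (ck 5 w + ck 19 w + ck 11 w + ck 13 w + ck 6 w + ck 18 w + ck 12 w -
      (ck 9 w + ck 15 w + ck 8 w + ck 16 w)) := by
  have hl := lpos
  have hs : ∀ {k : ℝ}, 5 ≤ k → k ≤ 19 → sk k w ≠ 0 := fun {k} h1 h2 =>
    PBR.sk_ne h (PBR.far_int h1 (by linarith))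
  have hk : ∀ {k : ℝ}, 5 ≤ k → k ≤ 19 → HLD (sk k) (-(ct ((k * l - w) / 3)) / 3) w := fun h1 h2 =>
    sk_HLD (hs h1 h2)
  have hden := PBR.den_ne (by linarith : |w.re| < 8 * l)
  have hn : HLD (fun w => sk 5 w * sk 19 w * sk 11 w * sk 13 w * sk 6 w * sk 18 w * sk 12 w) _ w :=
    ((((((hk (k := 5) (by norm_num) (by norm_num)).mul (hk (k := 19) (by norm_num) (by norm_num))).mul
      (hk (k := 11) (by norm_num) (by norm_num))).mul (hk (k := 13) (by norm_num) (by norm_num))).mul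
      (hk (k := 6) (by norm_num) (by norm_num))).mul (hk (k := 18) (by norm_num) (by norm_num))).mul
      (hk (k := 12) (by norm_num) (by norm_num))
  have hd : HLD (fun w => sk 9 w * sk 15 w * sk 8 w * sk 16 w) _ w :=
    (((hk (k := 9) (by norm_num) (by norm_num)).mul (hk (k := 15) (by norm_num) (by norm_num))).mul
      (hk (k := 8) (by norm_num) (by norm_num))).mul (hk (k := 16) (by norm_num) (by norm_num))
  have h1 := ((hn.const_mul 4).div hd hden).congr (g := rh)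
    (Eventually.of_forall fun y => PBR.rh_prod y)
  have := (rh_HLD h).unique h1 (rh_ne_zero h)
  rw [this]
  unfold ck
  ring

/-! ### the factors of the prefactor -/

/-- a leg and a row -/
def Gl (w : ℂ) : ℂ := (sin (w + 2 * l) * sin (w + 3 * l)) ^ 2 / rh w ^ 4

/-- two rows -/
def Gp (w : ℂ) : ℂ := Fp w ^ 2 / rh w ^ 8

/-- logarithmic derivative of `Gl` -/
def gl (w : ℂ) : ℂ := 2 * (ct (w + 2 * l) + ct (w + 3 * l)) - 4 * rr w

/-- logarithmic derivative of `Gp` -/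
def gp (w : ℂ) : ℂ :=
  2 * (ct (w + 2 * l) + ct (w + 3 * l) - ct (3 * l - w) - ct (2 * l - w)) - 8 * rr w

theorem Gp_neg (w : ℂ) : Gp (-w) = Gp w := by
  unfold Gp
  rw [Fp_neg, rh_neg]

theorem gp_neg {w : ℂ} (h : |w.re| < 5 * l) : gp (-w) = -gp w := by
  unfold gp
  rw [rr_neg h, show -w + 2 * (l : ℂ) = 2 * l - w by ring,
    show -w + 3 * (l : ℂ) = 3 * l - w by ring, show 3 * (l : ℂ) - -w = w + 3 * l by ring,
    show 2 * (l : ℂ) - -w = w + 2 * l by ring]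
  ring

theorem eight_l : 8 * l = Real.pi := by unfold NUP1.l; ring

theorem sin_ne_re {w : ℂ} (h1 : 0 < w.re) (h2 : w.re < 8 * l) : sin w ≠ 0 :=
  NUP1.Bd.sin_ne_zero_of_re (Real.sin_pos_of_pos_of_lt_pi h1 (by rw [← eight_l]; exact h2)).ne'

theorem Gl_HLD {w : ℂ} (h1 : -(2 * l) < w.re) (h2 : w.re < 5 * l) : HLD Gl (gl w) w := by
  have hl := lpos
  have hw : |w.re| < 5 * l := abs_lt.2 ⟨by linarith, h2⟩
  have s2 : sin (w + 2 * (l : ℂ)) ≠ 0 := sin_ne_re (by simp; linarith) (by simp; linarith)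
  have s3 : sin (w + 3 * (l : ℂ)) ≠ 0 := sin_ne_re (by simp; linarith) (by simp; linarith)
  have h2' : HLD (fun w => sin (w + 2 * (l : ℂ))) (ct (w + 2 * l) * 1) w :=
    (HLD.sin s2).comp (u := fun w => w + 2 * (l : ℂ)) ((hasDerivAt_id w).add_const _)
  have h3' : HLD (fun w => sin (w + 3 * (l : ℂ))) (ct (w + 3 * l) * 1) w :=
    (HLD.sin s3).comp (u := fun w => w + 3 * (l : ℂ)) ((hasDerivAt_id w).add_const _)
  have h := ((h2'.mul h3').pow 2).div ((rh_HLD hw).pow 4) (pow_ne_zero _ (rh_ne_zero hw))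
  refine HLD.congr_a (f := Gl) h ?_
  unfold gl
  push_cast
  ring

theorem Gp_HLD {w : ℂ} (h : |w.re| < 2 * l) : HLD Gp (gp w) w := by
  have hl := lpos
  obtain ⟨h1, h2⟩ := abs_lt.1 h
  have hw : |w.re| < 5 * l := by linarith
  have s2 : sin (w + 2 * (l : ℂ)) ≠ 0 := sin_ne_re (by simp; linarith) (by simp; linarith)
  have s3 : sin (w + 3 * (l : ℂ)) ≠ 0 := sin_ne_re (by simp; linarith) (by simp; linarith)
  have t2 : sin (2 * (l : ℂ) - w) ≠ 0 := sin_ne_re (by simp; linarith) (by simp; linarith)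
  have t3 : sin (3 * (l : ℂ) - w) ≠ 0 := sin_ne_re (by simp; linarith) (by simp; linarith)
  have h2' : HLD (fun w => sin (w + 2 * (l : ℂ))) (ct (w + 2 * l) * 1) w :=
    (HLD.sin s2).comp (u := fun w => w + 2 * (l : ℂ)) ((hasDerivAt_id w).add_const _)
  have h3' : HLD (fun w => sin (w + 3 * (l : ℂ))) (ct (w + 3 * l) * 1) w :=
    (HLD.sin s3).comp (u := fun w => w + 3 * (l : ℂ)) ((hasDerivAt_id w).add_const _)
  have k2 : HLD (fun w => sin (2 * (l : ℂ) - w)) (ct (2 * l - w) * -1) w :=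
    (HLD.sin t2).comp (u := fun w => 2 * (l : ℂ) - w) ((hasDerivAt_id w).const_sub _)
  have k3 : HLD (fun w => sin (3 * (l : ℂ) - w)) (ct (3 * l - w) * -1) w :=
    (HLD.sin t3).comp (u := fun w => 3 * (l : ℂ) - w) ((hasDerivAt_id w).const_sub _)
  have h := (((h2'.mul h3').mul (k3.mul k2)).pow 2).div ((rh_HLD hw).pow 8)
    (pow_ne_zero _ (rh_ne_zero hw))
  refine HLD.congr_a (f := Gp) h ?_
  unfold gp
  push_cast
  ring

/-- **the row `ξ` split off** -/
theorem Pf_cons (z ξ : ℂ) (mu : Fin m → ℂ) :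
    Pf z (Fin.cons ξ mu : Fin (m + 1) → ℂ) (Fin.cons ξ mu : Fin (m + 1) → ℂ) =
      9 / 4 * sin l ^ 2 / rh 0 ^ 2 * (Gl (z - ξ) * ∏ j, Gp (ξ - mu j)) * Pf z mu mu := by
  have e1 : Nu z (Fin.cons ξ mu : Fin (m + 1) → ℂ) =
      sin l * Lp z ξ * (∏ j, Fp (ξ - mu j)) * Nu z mu := by
    unfold Nu
    rw [Fin.prod_univ_succ, P_succ]
    simp only [Fin.cons_zero, Fin.cons_succ]
    ring
  have e2 : D1 z (Fin.cons ξ mu : Fin (m + 1) → ℂ) =
      (∏ j, rh (ξ - mu j) ^ 2) * rh (z - ξ) ^ 2 * D1 z mu := by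
    unfold D1
    rw [Fin.prod_univ_succ, P_succ]
    simp only [Fin.cons_zero, Fin.cons_succ]
    ring
  have e3 : D2 (Fin.cons ξ mu : Fin (m + 1) → ℂ) (Fin.cons ξ mu : Fin (m + 1) → ℂ) =
      rh 0 ^ 2 * (∏ j, rh (ξ - mu j) ^ 2) * (∏ j, rh (ξ - mu j) ^ 2) * D2 mu mu := D2_leg mu mu
  have e4 : ∏ j, Gp (ξ - mu j) =
      (∏ j, Fp (ξ - mu j)) ^ 2 / (∏ j, rh (ξ - mu j) ^ 2) ^ 4 := by
    unfold Gp
    rw [Finset.prod_div_distrib, Finset.prod_pow, ← Finset.prod_pow]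
    congr 1
    rw [← Finset.prod_pow]
    exact Finset.prod_congr rfl fun j _ => by ring
  have e5 : Gl (z - ξ) = Lp z ξ ^ 2 / rh (z - ξ) ^ 4 := rfl
  rw [e4, e5]
  unfold Pf
  rw [e1, e2, e3]
  generalize (∏ j, Fp (ξ - mu j)) = A
  generalize (∏ j, rh (ξ - mu j) ^ 2) = B
  generalize Lp z ξ = C
  generalize rh (z - ξ) = D
  generalize Nu z mu = E
  generalize D1 z mu = F
  generalize D2 mu mu = G
  generalize rh 0 = H
  have e6 : ((3 : ℂ) / 2) ^ (m + 1 + (m + 1) + 1) = 9 / 4 * (3 / 2) ^ (m + m + 1) := by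
    rw [show m + 1 + (m + 1) + 1 = m + m + 1 + 2 by ring, pow_add]
    ring
  rw [e6, show B * D ^ 2 * F * (B * D ^ 2 * F) * (H ^ 2 * B * B * G) * H =
    H ^ 2 * (D ^ 4 * B ^ 4) * (F * F * G * H) by ring]
  simp only [div_eq_mul_inv, mul_inv]
  ring

/-- **`∂_ξ` of the prefactor** -/
theorem Pf_row {mu : Fin m → ℂ} (hmu : Rwo mu) {ξ z : ℂ} (h0 : |ξ.re| < 3 / 5 * l) (hz : z ∈ LS) :
    HLD (fun ξ => Pf z (Fin.cons ξ mu : Fin (m + 1) → ℂ) (Fin.cons ξ mu : Fin (m + 1) → ℂ))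
      (-gl (z - ξ) + ∑ j, gp (ξ - mu j)) ξ := by
  have hl := lpos
  obtain ⟨a1, a2⟩ := abs_lt.1 h0
  obtain ⟨z1, z2⟩ := hz
  have h1 : HLD (fun ξ => Gl (z - ξ)) (gl (z - ξ) * -1) ξ :=
    (Gl_HLD (by rw [sub_re]; linarith) (by rw [sub_re]; linarith)).comp (u := fun ξ => z - ξ)
      ((hasDerivAt_id ξ).const_sub z)
  have h2 : HLD (fun ξ => ∏ j, Gp (ξ - mu j)) (∑ j, gp (ξ - mu j) * 1) ξ :=
    HLD.prod fun j _ => (Gp_HLD (by
      obtain ⟨b1, b2⟩ := abs_lt.1 (hmu j)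
      rw [sub_re, abs_lt]
      constructor <;> linarith)).comp (u := fun ξ => ξ - mu j) ((hasDerivAt_id ξ).sub_const _)
  have h3 := ((h1.mul h2).const_mul (9 / 4 * sin l ^ 2 / rh 0 ^ 2)).mul_const (Pf z mu mu)
  refine (h3.congr (Eventually.of_forall fun y => Pf_cons z y mu)).congr_a ?_
  simp only [mul_one]
  ring

/-- the constant of `Pf_legs` -/
def Kf (mu : Fin m → ℂ) : ℂ := (3 / 2) ^ (m + m + 1) * sin l * (sin l ^ m) ^ 2 *
  (P fun i j => Fp (mu i - mu j)) ^ 2 /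
    ((P fun i j => rh (mu i - mu j) ^ 2) ^ 2 * D2 mu mu * rh 0)

/-- **the legs split off** -/
theorem Pf_legs (z : ℂ) (mu : Fin m → ℂ) : Pf z mu mu = Kf mu * ∏ i, Gl (z - mu i) := by
  have e1 : Nu z mu = sin l ^ m * (∏ i, Lp z (mu i)) * P fun i j => Fp (mu i - mu j) := by
    unfold Nu
    rw [Finset.prod_mul_distrib, Finset.prod_const, Finset.card_univ, Fintype.card_fin]
  have e4 : ∏ i, Gl (z - mu i) = (∏ i, Lp z (mu i)) ^ 2 / (∏ i, rh (z - mu i) ^ 2) ^ 2 := by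
    have : ∀ i, Gl (z - mu i) = Lp z (mu i) ^ 2 / (rh (z - mu i) ^ 2) ^ 2 := fun i => by
      unfold Gl Lp
      ring
    rw [Finset.prod_congr rfl fun i _ => this i, Finset.prod_div_distrib, Finset.prod_pow,
      Finset.prod_pow]
  unfold Pf Kf
  rw [e1, e4]
  unfold D1
  simp only [div_eq_mul_inv, mul_inv]
  ring

/-- **`∂_z` of the prefactor** -/
theorem Pf_leg_D {mu : Fin m → ℂ} (hmu : Rwo mu) {z : ℂ} (hz : z ∈ LS) :
    HLD (fun z => Pf z mu mu) (∑ i, gl (z - mu i)) z := by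
  have hl := lpos
  obtain ⟨z1, z2⟩ := hz
  have h2 : HLD (fun z => ∏ i, Gl (z - mu i)) (∑ i, gl (z - mu i) * 1) z :=
    HLD.prod fun i _ => (Gl_HLD (by
      obtain ⟨b1, b2⟩ := abs_lt.1 (hmu i)
      rw [sub_re]
      linarith) (by
      obtain ⟨b1, b2⟩ := abs_lt.1 (hmu i)
      rw [sub_re]
      linarith)).comp (u := fun z => z - mu i) ((hasDerivAt_id z).sub_const _)
  refine ((h2.const_mul (Kf mu)).congr (Eventually.of_forall fun y => Pf_legs y mu)).congr_a ?_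
  simp only [mul_one]

/-- the rows `0` and one row `ξ` -/
theorem Pf_xr {N : ℕ} {ξ z : ℂ} (h0 : |ξ.re| < 3 / 5 * l) (hz : z ∈ LS) :
    HLD (fun ξ => Pf z (xr N ξ) (xr N ξ)) (-gl (z - ξ) + N * gp ξ) ξ := by
  refine (Pf_row (Rwo_zero N) h0 hz).congr_a ?_
  simp

theorem Pf_xr_leg {N : ℕ} {ξ z : ℂ} (h0 : |ξ.re| < 3 / 5 * l) (hz : z ∈ LS) :
    HLD (fun z => Pf z (xr N ξ) (xr N ξ)) (gl (z - ξ) + N * gl z) z := by
  refine (Pf_leg_D (Rwo.cons h0 (Rwo_zero N)) hz).congr_a ?_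
  rw [Fin.sum_univ_succ]
  simp

/-- along `x0 + i s` -/
theorem Pf_xr_I {N : ℕ} {x0 z : ℂ} {s : ℝ} (h0 : |x0.re| < 3 / 5 * l) (hz : z ∈ LS) :
    HasDerivAt (fun s : ℝ => Pf z (xr N (x0 + I * s)) (xr N (x0 + I * s)))
      (Pf z (xr N (x0 + I * s)) (xr N (x0 + I * s)) *
        (I * (-gl (z - (x0 + I * s)) + N * gp (x0 + I * s)))) s :=
  HLD.real (f := fun ξ => Pf z (xr N ξ) (xr N ξ)) (Pf_xr (by rwa [re_add_I]) hz)

/-- along `z0 + i t` -/
theorem Pf_xr_leg_I {N : ℕ} {ξ z0 : ℂ} {t : ℝ} (h0 : |ξ.re| < 3 / 5 * l) (hz : z0 + I * t ∈ LS) :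
    HasDerivAt (fun t : ℝ => Pf (z0 + I * t) (xr N ξ) (xr N ξ))
      (Pf (z0 + I * t) (xr N ξ) (xr N ξ) * (I * (gl (z0 + I * t - ξ) + N * gl (z0 + I * t)))) t :=
  HLD.real (f := fun z => Pf z (xr N ξ) (xr N ξ)) (Pf_xr_leg h0 hz)

end Pool.Agent.PB

end
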