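import Pool.Agent.PB.ZLeg
import Pool.Agent.PB.UProps
import Pool.Agent.PB.PfD
import Pool.Agent.PB.StatN
import Pool.Agent.PB.EInst
import Pool.Agent.PB.ParZ

/-!
# Plan B, (Z) at the dislocated function (helper61)

Rows `i s, 0, …, 0` (`j + 1` rows), legs at `i t`, the landed curve, `2 (j + 1)` quanta.

* `gl_int`: `i gl (i τ - i h) = 2 ∫ P (t - h) dl (t - τ)` (logarithmic derivative of the prefactor);
* `Pf_ne`, `Pf_Mn`: the prefactor as the normaliser `c`, `c' = M c`;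
* `legH_L`: the hypotheses `LegH`;
* **`zleg`**: `F[V h0] + i ∂_z fx` and `F[V h0 V h0] + F[V g2] + ∂_z² fx` are at most
  `C j ^ (- 3/4 (1 - 4 e1) + ε)` (the hypothesis `hτ` of `PBEM.E2_of`), from `UB famL`.
-/

set_option autoImplicit false
set_option linter.unusedSectionVars false
set_option linter.unusedVariables false

noncomputable section

open Complex MeasureTheory Finset Filter Topology
open scoped ENNReal

namespace PBLg

open NUO NUP1S NUP1S.AbC NUGC NUCR PBF PBFunc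
open PBI (Stt)
open NUMF (l P)
open PBU (famL UB DN BC nu1)
open Pool.Agent.PB (Pf fx fN gl Gl Lp Fp Nu LS)
open PBL (mu1)

attribute [local instance] NUSea.seaP

/-! ### the prefactor -/

theorem Gl_QL (w : ℂ) : Gl w = QL w ^ 2 := by
  unfold Pool.Agent.PB.Gl QL
  show (Complex.sin (w + 2 * l) * Complex.sin (w + 3 * l)) ^ 2 / PBR.rh w ^ 4 = _
  rw [div_pow, ← pow_mul]

theorem Gl_ne {w : ℂ} (h : |w.re| < 2 * l) : Gl w ≠ 0 := by
  rw [Gl_QL]
  exact pow_ne_zero _ (QL_ne h)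

/-- **the logarithmic derivative of the prefactor is the mean** -/
theorem gl_int (h τ : ℝ) : I * gl (I * τ - h * I) = 2 * ∫ t : ℝ, (P (t - h) : ℂ) * dl (t - τ) := by
  have hl := NUMF.l_pos
  have hre : (I * (τ : ℂ) - h * I).re = 0 := by simp
  have hG := Gl_ne (w := I * (τ : ℂ) - h * I) (by rw [hre, abs_zero]; positivity)
  have d0 : HasDerivAt (fun τ : ℝ => I * (τ : ℂ) - h * I) I τ := by
    simpa using ((Complex.ofRealCLM.hasDerivAt (x := τ)).const_mul I).sub_const ((h : ℂ) * I)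
  have d1 : HasDerivAt Gl (Gl (I * τ - h * I) * gl (I * τ - h * I)) (I * τ - h * I) :=
    Pool.Agent.PB.Gl_HLD (by
      show -(2 * l) < _
      rw [hre]
      linarith) (by
      show _ < 5 * l
      rw [hre]
      linarith)
  have d2 := d1.comp_of_eq τ d0 rfl
  have d3 := (hasDerivAt_QLI h τ).pow 2
  have e : (Gl ∘ fun τ : ℝ => I * (τ : ℂ) - h * I) = (fun τ : ℝ => QL (I * τ - h * I)) ^ 2 := by
    funext τ
    simp only [Function.comp, Pi.pow_apply]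
    exact Gl_QL _
  rw [e] at d2
  have key := d2.unique d3
  rw [Gl_QL] at key hG
  have hQ : QL (I * τ - h * I) ≠ 0 := fun h0 => hG (by rw [h0]; simp)
  have k2 : QL (I * τ - h * I) ^ 2 * (I * gl (I * τ - h * I)) = QL (I * τ - h * I) ^ 2 *
      (2 * ∫ t : ℝ, (P (t - h) : ℂ) * dl (t - τ)) := by
    have e2 : QL (I * τ - h * I) ^ 2 * (I * gl (I * τ - h * I)) =
        QL (I * τ - h * I) ^ 2 * gl (I * τ - h * I) * I := by ring
    rw [e2, key]
    push_cast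
    ring
  exact mul_left_cancel₀ (pow_ne_zero 2 hQ) k2

theorem Lp_ne {z w : ℂ} (h : |(z - w).re| < 2 * l) : Lp z w ≠ 0 := by
  unfold Pool.Agent.PB.Lp
  exact mul_ne_zero (s2_ne h) (s3_ne h)

theorem Fp_ne {w : ℂ} (h : |w.re| < 2 * l) : Fp w ≠ 0 := by
  have hl := NUMF.l_pos
  obtain ⟨h1, h2⟩ := abs_lt.1 h
  have hl1 : NUP1.l = l := rfl
  unfold Pool.Agent.PB.Fp
  refine mul_ne_zero (mul_ne_zero (s2_ne h) (s3_ne h)) (mul_ne_zero (sin_strip ?_ ?_)
    (sin_strip ?_ ?_)) <;> rw [hl1] <;> simp <;> linarith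

theorem Pf_ne {m : ℕ} {X : Fin m → ℂ} {z : ℂ} (hX : ∀ i, (X i).re = 0) (hz : z.re = 0) :
    Pf z X X ≠ 0 := by
  have hl := NUMF.l_pos
  have hl1 : NUP1.l = l := rfl
  have h0 : ∀ i j, (X i - X j).re = 0 := fun i j => by rw [sub_re, hX, hX, sub_zero]
  have h1 : ∀ i, (z - X i).re = 0 := fun i => by rw [sub_re, hX, hz, sub_zero]
  have hN : Nu z X ≠ 0 := by
    unfold Pool.Agent.PB.Nu
    refine mul_ne_zero (Finset.prod_ne_zero_iff.2 fun i _ => mul_ne_zero ?_ (Lp_ne ?_))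
      (Pool.Agent.PB.P_ne fun i j => Fp_ne ?_)
    · rw [hl1]
      exact sin_strip (by simpa using hl) (by simp; linarith)
    · rw [h1, abs_zero]
      positivity
    · rw [h0, abs_zero]
      positivity
  have n1 : Pool.Agent.PB.Nar X := fun i j => by
    rw [h0, abs_zero, hl1]
    positivity
  have n2 : Pool.Agent.PB.NarZ z X := fun i => by
    rw [h1, abs_zero, hl1]
    positivity
  unfold Pool.Agent.PB.Pf
  refine div_ne_zero (mul_ne_zero (mul_ne_zero (pow_ne_zero _ (by norm_num)) ?_)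
    (mul_ne_zero hN hN)) (mul_ne_zero (mul_ne_zero (mul_ne_zero (Pool.Agent.PB.D1_ne n1 n2)
    (Pool.Agent.PB.D1_ne n1 n2)) (Pool.Agent.PB.D2_ne n1)) Pool.Agent.PB.rh0_ne)
  rw [hl1]
  exact sin_strip (by simpa using hl) (by simp; linarith)

/-! ### the density -/

/-- the density of the rows at the heights `h` -/
def rhS {m : ℕ} (h : Fin m → ℝ) (t : ℝ) : ℂ := ∑ i, (P (t - h i) : ℂ)

theorem dls_cont (τ : ℝ) : Continuous fun t : ℝ => dl (t - τ) := by
  have hl := NUMF.l_pos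
  have h := cont_dl (z := I * τ) (by simp; linarith) (by simp; linarith)
  have e : (fun t : ℝ => dl (t - τ)) = fun t : ℝ => dl (t + I * (I * τ)) := by
    funext t
    congr 1
    linear_combination (-(τ : ℂ)) * I_mul_I
  rw [e]
  exact h

theorem dls2_cont (τ : ℝ) : Continuous fun t : ℝ => dl2 (t - τ) := by
  have hl := NUMF.l_pos
  have h := cont_dl2 (z := I * τ) (by simp; linarith) (by simp; linarith)
  have e : (fun t : ℝ => dl2 (t - τ)) = fun t : ℝ => dl2 (t + I * (I * τ)) := by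
    funext t
    congr 1
    linear_combination (-(τ : ℂ)) * I_mul_I
  rw [e]
  exact h

/-- bounds on the real line -/
theorem dls_real : ∃ C : ℝ, 0 ≤ C ∧ ∀ τ t : ℝ, ‖dl (t - τ)‖ ≤ C ∧ ‖dl2 (t - τ)‖ ≤ C := by
  have hl := NUMF.l_pos
  obtain ⟨C, hC, hb⟩ := dl_bd (y1 := 0) (y2 := 0) (by linarith) (by linarith)
  refine ⟨C, hC, fun τ t => ?_⟩
  obtain ⟨h1, h2⟩ := hb ((t : ℂ) - τ) (by simp) (by simp)
  exact ⟨h1.trans (mul_le_of_le_one_right hC (exp_le_one _)),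
    h2.trans (mul_le_of_le_one_right hC (exp_le_one _))⟩

theorem Psh_int (h : ℝ) {f : ℝ → ℂ} {C : ℝ} (hf : Continuous f) (hC : ∀ t, ‖f t‖ ≤ C) :
    Integrable fun t : ℝ => (P (t - h) : ℂ) * f t :=
  (NUMF.P_integrable.comp_sub_right h).ofReal.mul_bdd (c := C) hf.aestronglyMeasurable
    (Eventually.of_forall hC)

variable {m : ℕ} {h : Fin m → ℝ}

theorem Mn_rhS (h : Fin m → ℝ) (τ : ℝ) :
    Mn (rhS h) τ = ∑ i, 2 * ∫ t : ℝ, (P (t - h i) : ℂ) * dl (t - τ) := by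
  obtain ⟨C, hC, hb⟩ := dls_real
  unfold Mn rhS
  rw [← Finset.mul_sum]
  congr 1
  rw [← integral_finsetSum _ fun i _ => Psh_int (h i) (dls_cont τ) fun t => (hb τ t).1]
  refine integral_congr_ae (Eventually.of_forall fun t => ?_)
  simp only []
  rw [Finset.sum_mul]

theorem Mn2_rhS (h : Fin m → ℝ) (τ : ℝ) :
    Mn2 (rhS h) τ = ∑ i, 2 * ∫ t : ℝ, (P (t - h i) : ℂ) * dl2 (t - τ) := by
  obtain ⟨C, hC, hb⟩ := dls_real
  unfold Mn2 rhS
  rw [← Finset.mul_sum]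
  congr 1
  rw [← integral_finsetSum _ fun i _ => Psh_int (h i) (dls2_cont τ) fun t => (hb τ t).2]
  refine integral_congr_ae (Eventually.of_forall fun t => ?_)
  simp only []
  rw [Finset.sum_mul]

theorem hasDerivAt_Mn (h : Fin m → ℝ) (τ : ℝ) : HasDerivAt (Mn (rhS h)) (-(Mn2 (rhS h) τ)) τ := by
  have e : Mn (rhS h) = fun τ : ℝ => ∑ i, 2 * ∫ t : ℝ, (P (t - h i) : ℂ) * dl (t - τ) :=
    funext (Mn_rhS h)
  rw [e, Mn2_rhS]
  refine (HasDerivAt.fun_sum fun i (_ : i ∈ Finset.univ) =>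
    (hasDerivAt_mean (h i) τ).const_mul 2).congr_deriv ?_
  rw [← Finset.sum_neg_distrib]
  refine Finset.sum_congr rfl fun i _ => ?_
  ring

/-- **the prefactor is the normaliser** -/
theorem Pf_Mn {X : Fin m → ℂ} (hX : ∀ i, X i = I * h i) (τ : ℝ) :
    HasDerivAt (fun τ : ℝ => Pf (I * τ) X X) (Mn (rhS h) τ * Pf (I * τ) X X) τ := by
  have hl := NUMF.l_pos
  have hl1 : NUP1.l = l := rfl
  have hz : (I * (τ : ℂ)).re = 0 := by simp
  have d0 : HasDerivAt (fun τ : ℝ => I * (τ : ℂ)) I τ := by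
    simpa using (Complex.ofRealCLM.hasDerivAt (x := τ)).const_mul I
  have d1 : HasDerivAt (fun z => Pf z X X) (Pf (I * τ) X X * ∑ i, gl (I * τ - X i)) (I * τ) :=
    Pool.Agent.PB.Pf_leg_D (fun i => by
      rw [hX, hl1]
      simp
      positivity) (by
      constructor
      · rw [hz, hl1]
        linarith
      · rw [hz, hl1]
        linarith)
  have d2 := d1.comp_of_eq τ d0 rfl
  refine d2.congr_deriv ?_
  rw [Mn_rhS]
  have e : ∀ i, 2 * ∫ t : ℝ, (P (t - h i) : ℂ) * dl (t - τ) = I * gl (I * τ - X i) := fun i => by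
    rw [← gl_int, hX, mul_comm I (h i : ℂ)]
  rw [Finset.sum_congr rfl fun i _ => e i, ← Finset.mul_sum]
  ring

/-! ### the statistics -/

theorem hgt_PBF (u : ℂ) : PBF.hgt u = hgt u := by
  rw [hgt_eq]
  unfold PBF.hgt
  rw [show (NUP1.l : ℂ) = l from rfl]
  ring

theorem Vp_vP {N : ℕ} (ρ : ℝ → ℂ) (η : ℕ → Crs) (g : ℂ → ℂ) :
    (Vp ρ η g : CfN N → ℂ) = evN fun n => vP ρ g (η n) := by
  funext x
  rw [Vp_eq]
  simp only [hgt_PBF]
  rfl

/-- the statistic depends on the test function in the strip only -/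
theorem Vp_congr {N : ℕ} {ρ : ℝ → ℂ} {η : ℕ → Crs} (hη : ∀ n r O t, |η n r O t| ≤ l / 2)
    {g g' : ℂ → ℂ} (h : ∀ z : ℂ, -l < z.im → z.im < 4 * l → g z = g' z) :
    (Vp ρ η g : CfN N → ℂ) = Vp ρ η g' := by
  have hl := NUMF.l_pos
  funext x
  rw [Vp_eq, Vp_eq]
  have e1 : ∀ t : ℝ, g (PBF.hgt (NUO.pA (η x.1 x.2.1.1 x.2.2.1) t)) =
      g' (PBF.hgt (NUO.pA (η x.1 x.2.1.1 x.2.2.1) t)) := fun t => by
    have h0 : (PBF.hgt (NUO.pA (η x.1 x.2.1.1 x.2.2.1) t)).im = η x.1 x.2.1.1 x.2.2.1 t := by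
      rw [hgt_PBF, hgt_im, pA_re]
      ring
    obtain ⟨h1, h2⟩ := abs_le.1 (hη x.1 x.2.1.1 x.2.2.1 t)
    exact h _ (by rw [h0]; linarith) (by rw [h0]; linarith)
  have e2 : (fun u : ℝ => ρ u * g u) = fun u : ℝ => ρ u * g' u := by
    funext u
    rw [h u (by simpa using hl) (by simpa using hl)]
  rw [e2, Finset.sum_congr rfl fun i _ => e1 _, Finset.sum_congr rfl fun i _ => e1 _]

theorem h0T_dl {τ : ℝ} {z : ℂ} (h1 : -l < z.im) (h2 : z.im < 4 * l) :
    PBEI.h0T τ z = dl (z - τ) := by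
  have e : (z - (τ : ℂ)).im = z.im := by simp
  unfold PBEI.h0T PBEI.h00
  rw [dl_eq (by rw [e]; exact h1) (by rw [e]; exact h2)]

theorem g2T_dl {τ : ℝ} {z : ℂ} (h1 : -l < z.im) (h2 : z.im < 4 * l) :
    PBEI.g2T τ z = dl2 (z - τ) := by
  have e : (z - (τ : ℂ)).im = z.im := by simp
  have hS : IsOpen {z : ℂ | -l < z.im ∧ z.im < 4 * l} :=
    (isOpen_lt continuous_const Complex.continuous_im).inter
      (isOpen_lt Complex.continuous_im continuous_const)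
  have e1 : PBEI.h0T τ =ᶠ[𝓝 z] fun z => dl (z - τ) := by
    filter_upwards [hS.mem_nhds ⟨h1, h2⟩] with w hw
    exact h0T_dl hw.1 hw.2
  unfold PBEI.g2T
  rw [e1.deriv_eq]
  have d := (hasDerivAt_dl (z := z - τ) (by rw [e]; exact h1) (by rw [e]; exact h2)).comp_of_eq z
    ((hasDerivAt_id z).sub_const (τ : ℂ)) rfl
  rw [mul_one] at d
  exact d.deriv

/-! ### the hypotheses -/

theorem lgF_eq (z : ℂ) : PBX.lgF z = lgK z := by
  funext a k u
  rcases k with _ | _ | _ | _ <;> rfl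

/-- the class functions without legs, rows `i s, 0, …, 0` -/
def ZS (ep : ℝ) (j : ℕ) (s : ℝ) : Stt := PBX.Z0 (4 / 3 * (1 - ep)) (mu1 j (I * s)) [I, -I] []

theorem ZS_eq (ep : ℝ) (j : ℕ) (s t : ℝ) : Zm (ZS ep j s) (lgK (I * t)) =
    PBX.ZL (4 / 3 * (1 - ep)) (mu1 j (I * s)) [I, -I] [] (I * t) := by
  rw [PBX.ZL_eq, lgF_eq]
  rfl

theorem measurable_ZS (ep : ℝ) (j : ℕ) (s : ℝ) (a : Bool) (k : Option O3) :
    Measurable (ZS ep j s a k) :=
  PBX.measurable_XX (PBX.measurable_gP _ _) (PBX.measurable_gP _ _) measurable_const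
    measurable_const k

/-- the heights of the rows -/
def hS (j : ℕ) (s : ℝ) : Fin (j + 1) → ℝ := Fin.cons s fun _ => 0

theorem mu1_hS (j : ℕ) (s : ℝ) (i : Fin (j + 1)) : mu1 j (I * s) i = I * hS j s i := by
  unfold PBL.mu1 hS
  refine Fin.cases ?_ (fun k => ?_) i
  · simp
  · simp

theorem ok_L {m : ℕ} (hm : 1 ≤ m) {s t : ℝ} (hs : |s| ≤ 1) (ht : |t| ≤ 1) :
    famL.ok m ((I * s, I * t) : ℂ × ℂ) := by
  have hl := NUMF.l_pos
  have hl1 : NUP1.l = l := rfl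
  have hlog : 0 ≤ Real.log m := Real.log_nonneg (by exact_mod_cast hm)
  have r1 : (I * (s : ℂ)).re = 0 := by simp
  have r2 : (I * (t : ℂ)).re = 0 := by simp
  have i1 : (I * (s : ℂ)).im = s := by simp
  have i2 : (I * (t : ℂ)).im = t := by simp
  refine ⟨?_, ?_, ?_, ?_, ?_⟩
  · show |(I * (s : ℂ)).re| ≤ NUP1.l / 10
    rw [r1, abs_zero, hl1]
    positivity
  · show |(I * (s : ℂ)).im| ≤ 2
    rw [i1]
    linarith
  · show -(9 / 10 * NUP1.l) ≤ (I * (t : ℂ)).re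
    rw [r2, hl1]
    linarith
  · show (I * (t : ℂ)).re < 37 / 10 * NUP1.l
    rw [r2, hl1]
    positivity
  · show |(I * (t : ℂ)).im| ≤ 3 / 20 * Real.log m + 2
    rw [i2]
    linarith

theorem FAN_FS {ep e1 J : ℝ} {m : ℕ} {i : ℂ × ℂ} (Ψ : Ins) :
    FAN (fun _ => famL.Z ep m i) (fun _ => NUSea.O.par0 m) (famL.top m) (fun _ => PBU.cr e1 J m)
      (fun _ => PBU.cr' e1 J m) (fun _ => famL.Pf m i) (fun _ => Ψ) =
    PBU.FS famL ep e1 J m i (fun _ => 1) fun r O a b x => ‖Ψ r O a b x‖ₑ := by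
  unfold FAN PBU.FS
  refine Finset.sum_congr rfl fun n _ => ?_
  rw [one_mul, ← FA_eq_FE]

theorem MCr_cr (e1 J : ℝ) (m : ℕ) : MCr (PBU.cr e1 J m) (PBU.cr' e1 J m) where
  m r := curZ_meas e1 J m m r
  m' r := curZ_meas' e1 J m m r

section main

variable {p : ℕ} {K ε ep e1 J : ℝ}

/-- **the hypotheses of `ZLeg`** -/
theorem legH_L (hU : UB famL ep e1 J p K ε) (hK : 1 ≤ K) (he : 0 < e1) (he1 : e1 ≤ 1 / 100)
    (hJ : 0 ≤ J) : ∀ᶠ j : ℕ in atTop, ∀ s : ℝ, |s| ≤ 1 →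
    LegH (ZS ep j s) (NUSea.O.par0 (j + 1)) (2 * (j + 1)) (fun _ => PBU.cr e1 J (j + 1))
      (fun _ => PBU.cr' e1 J (j + 1)) := by
  have hl := NUMF.l_pos
  obtain ⟨mc, -, Hcur⟩ := curZ_crs he he1 hJ one_pos
  obtain ⟨m0, H0⟩ := hU.mass hK
  filter_upwards [eventually_ge_atTop mc, eventually_ge_atTop m0] with j h1 h2 s hs
  refine ⟨parZ_goodP _, NUSea.O.rad0_meas _, measurable_ZS ep j s, fun _ => MCr_cr e1 J _,
    fun n r O t => ?_, fun n hn => ⟨0, ?_⟩⟩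
  · have h3 := (Hcur (j + 1) (by omega) r O).h1 t
    refine h3.trans ?_
    show 1 * l / 4 ≤ l / 2
    linarith
  · rw [ZS_eq, ofReal_zero]
    have h3 := H0 (j + 1) (by omega) (I * s, I * (0 : ℝ)) (ok_L (by omega) hs (by simp))
    have h4 := h3.trans_lt ENNReal.ofReal_lt_top
    unfold PBU.FS at h4
    rw [ENNReal.sum_lt_top] at h4
    have h5 := h4 n (Finset.mem_range.2 (by
      show n < 2 * (j + 1) + 1
      omega))
    rw [one_mul] at h5
    have hP : ‖famL.Pf (j + 1) ((I * s, I * (0 : ℝ)) : ℂ × ℂ)‖ₑ ≠ 0 := by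
      rw [enorm_ne_zero]
      refine Pf_ne (X := mu1 j (I * s)) (z := I * (0 : ℝ)) (fun i => ?_) (by simp)
      rw [mu1_hS]
      simp
    have h6 : FE (famL.Z ep (j + 1) ((I * s, I * (0 : ℝ)) : ℂ × ℂ)) (NUSea.O.par0 (j + 1)) n n
        (PBU.cr e1 J (j + 1)) (PBU.cr' e1 J (j + 1)) (fun _ _ _ _ _ => 1) < ∞ := by
      by_contra h7
      rw [not_lt, top_le_iff] at h7
      rw [h7, ENNReal.mul_top hP] at h5
      exact lt_irrefl _ h5
    rw [FA_eq_FE]
    simp only [enorm_one]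
    rw [ofReal_zero] at h6
    exact h6

/-! ### the densities and the test functions -/

theorem rhS_hS (j : ℕ) (s t : ℝ) : rhS (hS j s) t = (P (t - s) : ℂ) + j * (P t : ℂ) := by
  unfold rhS hS
  rw [Fin.sum_univ_succ]
  simp

/-- the density as the function `rhoR` of the rows -/
theorem rhoR_hS (j : ℕ) (s t : ℝ) : PBForce.rhoR (mu1 j (I * s)) (NUP1.vl NUP1.l t) =
    rhS (hS j s) t := by
  unfold PBForce.rhoR rhS
  refine Finset.sum_congr rfl fun i _ => ?_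
  rw [← PBForce.pc_I, mu1_hS]
  congr 1
  unfold NUP1.vl
  push_cast
  ring

theorem DN_rhS (j : ℕ) (s : ℝ) : DN 2 (j + 1) (rhS (hS j s)) := by
  have i1 : Integrable fun t : ℝ => P (t - s) := NUMF.P_integrable.comp_sub_right s
  have i2 : Integrable fun t : ℝ => P t := NUMF.P_integrable
  have p0 : ∀ t, 0 ≤ P t := fun t => (NUSea.P_pos t).le
  have m1 : ∫ t : ℝ, P t = 1 := NUSea.P_mass
  have m2 : ∫ t : ℝ, P (t - s) = 1 := by
    rw [integral_sub_right_eq_self (μ := volume) (fun t : ℝ => P t) s, m1]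
  constructor
  · unfold rhS
    exact integrable_finsetSum _ fun i _ =>
      (NUMF.P_integrable.comp_sub_right (hS j s i)).ofReal
  · have e : ∀ t : ℝ, ‖rhS (hS j s) t - ((j + 1 : ℕ) : ℝ) * NUSea.P t‖ ≤ P (t - s) + P t := by
      intro t
      have e1 : rhS (hS j s) t - ((j + 1 : ℕ) : ℝ) * NUSea.P t = ((P (t - s) - P t : ℝ) : ℂ) := by
        rw [rhS_hS, show NUSea.P t = P t from rfl]
        push_cast
        ring
      rw [e1, norm_real, Real.norm_eq_abs, abs_le]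
      constructor <;> linarith [p0 t, p0 (t - s)]
    have i3 : Integrable fun t : ℝ => rhS (hS j s) t - ((j + 1 : ℕ) : ℝ) * NUSea.P t := by
      have i4 : Integrable (rhS (hS j s)) := by
        unfold rhS
        exact integrable_finsetSum _ fun i _ =>
          (NUMF.P_integrable.comp_sub_right (hS j s i)).ofReal
      have i5 : Integrable fun t : ℝ => (((j + 1 : ℕ) : ℝ) : ℂ) * (P t : ℂ) :=
        i2.ofReal.const_mul _
      exact i4.sub i5
    calc ∫ t : ℝ, ‖rhS (hS j s) t - ((j + 1 : ℕ) : ℝ) * NUSea.P t‖ ≤ ∫ t : ℝ, (P (t - s) + P t) :=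
          integral_mono i3.norm (i1.add i2) e
      _ = 2 := by
          rw [integral_add i1 i2, m1, m2]
          norm_num

/-- the test functions of the legs on a strip -/
theorem BC_dls : ∃ M : ℝ, 0 < M ∧ ∀ τ : ℝ, BC (-(l / 2)) l M (fun z => dl (z - τ)) := by
  have hl := NUMF.l_pos
  obtain ⟨C, hC, hb⟩ := dl_bd (y1 := -(l / 2)) (y2 := l) (by linarith) (by linarith)
  refine ⟨C + 1, by linarith, fun τ => ⟨fun z hz => ?_, fun z hz => ?_⟩⟩
  · have e : (z - (τ : ℂ)).im = z.im := by simp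
    exact ((hasDerivAt_dl (z := z - τ) (by rw [e]; linarith [hz.1]) (by rw [e]; linarith [hz.2])
      ).differentiableAt.comp z (differentiableAt_id.sub_const (τ : ℂ))).differentiableWithinAt
  · have e : (z - (τ : ℂ)).im = z.im := by simp
    refine ((hb (z - τ) (by rw [e]; exact hz.1.le) (by rw [e]; exact hz.2.le)).1.trans
      (mul_le_of_le_one_right hC (exp_le_one _))).trans (by linarith)

theorem vP_nu1 (ρ : ℝ → ℂ) (e1 J : ℝ) (m : ℕ) (g : ℂ → ℂ) {r a b : ℕ} (O : Fin r → Xo)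
    (x : (Fin a → ℝ) × (Fin b → ℝ)) : vP ρ g (PBU.cr e1 J m) r O a b x =
      nu1 ρ (etaC e1 J m m) true g x + nu1 ρ (etaC e1 J m m) false g x := by
  unfold vP PBU.nu1
  simp only [if_true, Bool.false_eq_true, if_false]
  have e : ∀ t, hgt (NUO.pA (PBU.cr e1 J m r O) t) = PBU.hq (etaC e1 J m m) t := fun t =>
    (PBU.hq_pA (etaC e1 J m m) t).symm
  simp only [e]
  ring

/-! ### the functionals -/

theorem enorm_pI {r a b : ℕ} (O : Fin r → Xo) (x : (Fin a → ℝ) × (Fin b → ℝ)) :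
    ‖pI r O a b x‖ₑ = ENNReal.ofReal (∑ i, Real.exp (-(2 * |ht (O i)|))) := by
  unfold pI
  rw [← ofReal_norm, norm_real, Real.norm_of_nonneg (Finset.sum_nonneg fun i _ =>
    (Real.exp_pos _).le)]

/-- the pinned functionals of `ZLeg` -/
theorem FS_pI {ep e1 J : ℝ} {m : ℕ} {i : ℂ × ℂ} {D : ℝ≥0∞}
    (h : PBU.FS famL ep e1 J m i (fun _ => 1) (fun r O _ _ x =>
      ENNReal.ofReal (((r : ℝ) + 1) ^ 1 * ∑ j, Real.exp (-(2 * |ht (O j)|))) * 1) ≤ D) :
    FAN (fun _ => famL.Z ep m i) (fun _ => NUSea.O.par0 m) (famL.top m) (fun _ => PBU.cr e1 J m)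
      (fun _ => PBU.cr' e1 J m) (fun _ => famL.Pf m i) (fun _ => pI) ≤ D := by
  rw [FAN_FS]
  refine (PBU.FS_mono (fun _ => le_rfl) fun r O a b x => ?_).trans h
  rw [enorm_pI, mul_one]
  refine ENNReal.ofReal_le_ofReal ?_
  have h0 : 0 ≤ ∑ j, Real.exp (-(2 * |ht (O j)|)) := Finset.sum_nonneg fun i _ =>
    (Real.exp_pos _).le
  have h1 : (1 : ℝ) ≤ ((r : ℝ) + 1) ^ 1 := by
    have : (0 : ℝ) ≤ r := Nat.cast_nonneg r
    linarith
  exact le_mul_of_one_le_left h0 h1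

theorem FS_pI2 {ep e1 J : ℝ} {m : ℕ} {i : ℂ × ℂ} {D D' : ℝ} (hD : 0 ≤ D) (hD' : 0 ≤ D')
    (hZ : ∀ s k, Measurable (famL.Z ep m i s k)) (ρ : ℝ → ℂ) {g : ℂ → ℂ} (hg : Measurable g)
    (h : PBU.FS famL ep e1 J m i (fun _ => 1) (fun r O _ _ x =>
      ENNReal.ofReal (((r : ℝ) + 1) ^ 1 * ∑ j, Real.exp (-(2 * |ht (O j)|))) * 1) ≤
        ENNReal.ofReal D)
    (h' : PBU.FS famL ep e1 J m i (fun _ => 1) (fun r O _ _ x =>
      ENNReal.ofReal (((r : ℝ) + 1) ^ 0 * ∑ j, Real.exp (-(2 * |ht (O j)|))) *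
        (‖nu1 ρ (etaC e1 J m m) true g x‖ₑ + ‖nu1 ρ (etaC e1 J m m) false g x‖ₑ)) ≤
        ENNReal.ofReal D') :
    FAN (fun _ => famL.Z ep m i) (fun _ => NUSea.O.par0 m) (famL.top m) (fun _ => PBU.cr e1 J m)
      (fun _ => PBU.cr' e1 J m) (fun _ => famL.Pf m i) (fun _ => pI2 ρ g (PBU.cr e1 J m)) ≤
      ENNReal.ofReal (D + D') := by
  have hM : ∀ n ≤ famL.top m, MC (famL.Z ep m i) (NUSea.O.par0 m) (PBU.cr e1 J m)
      (PBU.cr' e1 J m) := fun n _ => MC.of (NUSea.O.rad0_meas _) hZ (MCr_cr e1 J m)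
  -- the two parts
  set A : Ins := fun r O a b x => pI r O a b x * ((1 + r : ℝ) : ℂ) with hA
  set B : Ins := fun r O a b x => pI r O a b x * ((‖vP ρ g (PBU.cr e1 J m) r O a b x‖ : ℝ) : ℂ)
    with hB
  have mA : MIn A := fun r a b => (MIn_pI r a b).mul measurable_const
  have mB : MIn B := fun r a b => (MIn_pI r a b).mul (Complex.measurable_ofReal.comp
    (MIn_vP (Pm := NUSea.O.par0 m) (NUSea.O.rad0_meas m) (MCr_cr e1 J m) ρ hg r a b).norm)
  have m2 : MIn (pI2 ρ g (PBU.cr e1 J m)) :=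
    MIn_pI2 (Pm := NUSea.O.par0 m) (NUSea.O.rad0_meas m) (MCr_cr e1 J m) ρ hg
  have e2 : ∀ (r : ℕ) (O : Fin r → Xo) (a b : ℕ) (x : (Fin a → ℝ) × (Fin b → ℝ)),
      pI2 ρ g (PBU.cr e1 J m) r O a b x = A r O a b x + B r O a b x := by
    intro r O a b x
    simp only [hA, hB]
    unfold pI2
    push_cast
    ring
  have key : FAN (fun _ => famL.Z ep m i) (fun _ => NUSea.O.par0 m) (famL.top m)
      (fun _ => PBU.cr e1 J m) (fun _ => PBU.cr' e1 J m) (fun _ => famL.Pf m i)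
      (fun _ => pI2 ρ g (PBU.cr e1 J m)) ≤
      FAN (fun _ => famL.Z ep m i) (fun _ => NUSea.O.par0 m) (famL.top m)
        (fun _ => PBU.cr e1 J m) (fun _ => PBU.cr' e1 J m) (fun _ => famL.Pf m i) (fun _ => A) +
      FAN (fun _ => famL.Z ep m i) (fun _ => NUSea.O.par0 m) (famL.top m)
        (fun _ => PBU.cr e1 J m) (fun _ => PBU.cr' e1 J m) (fun _ => famL.Pf m i) (fun _ => B) := by
    rw [FAN_eq hM fun n _ => m2, FAN_eq hM fun n _ => mA, FAN_eq hM fun n _ => mB]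
    set W : CfN (famL.top m) → ℂ := wN (fun _ => famL.Z ep m i) (fun _ => NUSea.O.par0 m)
      (famL.top m) (fun _ => PBU.cr e1 J m) (fun _ => PBU.cr' e1 J m) (fun _ => famL.Pf m i)
      with hW
    have mW : Measurable W := wN_meas hM
    have mEA : Measurable (evN (fun _ => A) : CfN (famL.top m) → ℂ) := evN_meas fun n _ => mA
    have hadd := lintegral_add_left (μ := mN (famL.top m))
      (f := fun x => ‖W x‖ₑ * ‖evN (fun _ => A) x‖ₑ) (mW.enorm.mul mEA.enorm)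
      fun x => ‖W x‖ₑ * ‖evN (fun _ => B) x‖ₑ
    refine le_trans (lintegral_mono fun x => ?_) (le_of_eq hadd)
    show _ ≤ ‖W x‖ₑ * ‖evN (fun _ => A) x‖ₑ + ‖W x‖ₑ * ‖evN (fun _ => B) x‖ₑ
    rw [← mul_add]
    refine mul_le_mul' le_rfl ?_
    have e3 : evN (fun _ => pI2 ρ g (PBU.cr e1 J m)) x = evN (fun _ => A) x +
        evN (fun _ => B) x := e2 _ _ _ _ _
    rw [e3]
    exact enorm_add_le _ _
  rw [ENNReal.ofReal_add hD hD']
  refine key.trans (add_le_add ?_ ?_)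
  · rw [FAN_FS]
    refine (PBU.FS_mono (fun _ => le_rfl) fun r O a b x => ?_).trans h
    simp only [hA]
    rw [enorm_mul, enorm_pI, mul_one, ← ofReal_norm (((1 + r : ℝ) : ℂ)), norm_real,
      Real.norm_of_nonneg (by positivity), ← ENNReal.ofReal_mul (Finset.sum_nonneg fun i _ =>
        (Real.exp_pos _).le)]
    refine ENNReal.ofReal_le_ofReal (le_of_eq ?_)
    ring
  · rw [FAN_FS]
    refine (PBU.FS_mono (fun _ => le_rfl) fun r O a b x => ?_).trans h'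
    simp only [hB]
    rw [enorm_mul, enorm_pI, pow_zero, one_mul]
    refine mul_le_mul' le_rfl ?_
    rw [vP_nu1, ← ofReal_norm ((_ : ℝ) : ℂ), norm_real, Real.norm_of_nonneg (norm_nonneg _),
      ofReal_norm]
    exact enorm_add_le _ _

/-- the weight of the dislocated function, rows `i s, 0, …, 0`, legs at `i t` -/
def wL (ep e1 J : ℝ) (j : ℕ) (s t : ℝ) : CfN (2 * (j + 1)) → ℂ :=
  wN (fun _ => PBX.ZL (4 / 3 * (1 - ep)) (mu1 j (I * s)) [I, -I] [] (I * t))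
    (fun _ => NUSea.O.par0 (j + 1)) (2 * (j + 1)) (fun _ => PBU.cr e1 J (j + 1))
    (fun _ => PBU.cr' e1 J (j + 1)) fun _ => Pf (I * t) (mu1 j (I * s)) (mu1 j (I * s))

/-- **(Z)**: the derivatives in the height of the legs, `hτ` of `PBEM.E2_of` -/
theorem zleg (hU : UB famL ep e1 J p K ε) (hp : 0 < p) (hK : 6 ≤ K) (hep : 0 < ep)
    (hep1 : ep ≤ 1 / 100) (he : 0 < e1) (he1 : e1 ≤ 1 / 100) (hJ : 0 ≤ J) {c : ℝ} (hc0 : 0 ≤ c)
    (hc : c + ε ≤ 3 / 4 * (1 - 4 * e1)) :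
    ∃ C : ℝ, 0 < C ∧ ∀ᶠ j : ℕ in atTop, ∀ s t : ℝ, |s| ≤ 1 → |t| ≤ 1 →
      ‖F (mN (2 * (j + 1))) (wL ep e1 J j s t)
          (Vp (rhS (hS j s)) (fun _ => PBU.cr e1 J (j + 1)) (PBEI.h0T t)) +
        I * deriv (fun z => fx j (I * s) z) (I * t)‖ ≤ C * (j : ℝ) ^ (-c) ∧
      ‖F (mN (2 * (j + 1))) (wL ep e1 J j s t) (fun ω =>
          Vp (rhS (hS j s)) (fun _ => PBU.cr e1 J (j + 1)) (PBEI.h0T t) ω *
            Vp (rhS (hS j s)) (fun _ => PBU.cr e1 J (j + 1)) (PBEI.h0T t) ω) +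
        F (mN (2 * (j + 1))) (wL ep e1 J j s t)
          (Vp (rhS (hS j s)) (fun _ => PBU.cr e1 J (j + 1)) (PBEI.g2T t)) -
        -deriv (deriv fun z => fx j (I * s) z) (I * t)‖ ≤ C * (j : ℝ) ^ (-c) := by
  have hl := NUMF.l_pos
  have hl1 : NUP1.l = l := rfl
  obtain ⟨C1, hC1, B1⟩ := leg_b1
  obtain ⟨C2, hC2, B2⟩ := leg_b2
  obtain ⟨M, hM, hBC⟩ := BC_dls
  obtain ⟨m0, H0⟩ := hU.pin hK (q := 2) (by norm_num) (by norm_num) 1 2 (-(l / 2)) l
    (by linarith) hl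
  obtain ⟨m1, H1⟩ := hU.pin hK (q := 2) (by norm_num) (by norm_num) 0 2 (-(l / 2)) l
    (by linarith) hl
  obtain ⟨mc, -, Hcur⟩ := curZ_crs he he1 hJ hep
  have hE := Real.exp_pos (2 : ℝ)
  refine ⟨(C1 + C2) * (3 * (1 + M) * Real.exp 2), by positivity, ?_⟩
  filter_upwards [legH_L hU (by linarith) he he1 hJ, eventually_ge_atTop m0, eventually_ge_atTop m1,
    eventually_ge_atTop mc, eventually_ge_atTop 1] with j hH j0 j1 j2 j3 s t hs ht
  have H := hH s hs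
  have hb : ∀ (n : ℕ) (r : ℕ) (O : Fin r → Xo) (u : ℝ),
      |(fun _ : ℕ => PBU.cr e1 J (j + 1)) n r O u| ≤ l / 2 := H.b
  -- the function
  set X : Fin (j + 1) → ℂ := mu1 j (I * s) with hX
  set cT : ℝ → ℂ := fun τ => Pf (I * τ) X X with hcT
  have hXs : ∀ i, X i = I * hS j s i := mu1_hS j s
  have hRws : PBX.Rws X := fun i => by
    rw [hXs, hl1]
    simp
    positivity
  have hc1 : ∀ τ : ℝ, HasDerivAt cT (Mn (rhS (hS j s)) τ * cT τ) τ := fun τ => Pf_Mn hXs τ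
  have hf : ∀ τ : ℝ, fx j (I * s) (I * τ) = T0 (ZS ep j s) (NUSea.O.par0 (j + 1)) (2 * (j + 1))
      (fun _ => PBU.cr e1 J (j + 1)) (fun _ => PBU.cr' e1 J (j + 1)) cT τ := by
    intro τ
    rw [H.T0_eq, ZS_eq]
    refine PBX.fN_FF (P := NUSea.O.par0 (j + 1)) (PBX.ParC_par0 (j + 1)) (PBX.rad_low (j + 1)) hep
      hep1 (by linarith) (by linarith) hRws (ex := [I, -I]) (ex0 := []) ?_ (by simp) ?_ ?_
      (η := fun _ => PBU.cr e1 J (j + 1)) (η' := fun _ => PBU.cr' e1 J (j + 1))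
      (fun n _ r _ => Eventually.of_forall fun O => Hcur (j + 1) (by omega) r O)
    · intro w hw
      rw [List.mem_cons, List.mem_singleton] at hw
      rcases hw with rfl | rfl
      · rw [Complex.I_re, abs_zero, hl1]
        positivity
      · rw [Complex.neg_re, Complex.I_re, neg_zero, abs_zero, hl1]
        positivity
    · rw [hl1]
      simp
      positivity
    · rw [hl1]
      simp
      positivity
  -- the derivatives
  have hS' : IsOpen {z : ℂ | |z.re| < 43 / 10 * NUP1.l} :=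
    isOpen_lt (continuous_abs.comp Complex.continuous_re) continuous_const
  have hd := Pool.Agent.PB.fx_diff j (x := I * s) (by simp; rw [hl1]; positivity)
  have hd' : DifferentiableOn ℂ (deriv (fx j (I * s))) {z : ℂ | |z.re| < 43 / 10 * NUP1.l} :=
    hd.deriv hS'
  have hmem : ∀ τ : ℝ, I * (τ : ℂ) ∈ {z : ℂ | |z.re| < 43 / 10 * NUP1.l} := fun τ => by
    show |(I * (τ : ℂ)).re| < 43 / 10 * NUP1.l
    rw [show (I * (τ : ℂ)).re = 0 by simp, abs_zero, hl1]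
    positivity
  have d0 : ∀ τ : ℝ, HasDerivAt (fun τ : ℝ => I * (τ : ℂ)) I τ := fun τ => by
    simpa using (Complex.ofRealCLM.hasDerivAt (x := τ)).const_mul I
  have f1 : ∀ τ : ℝ, I * deriv (fx j (I * s)) (I * τ) = T1 (ZS ep j s) (NUSea.O.par0 (j + 1))
      (2 * (j + 1)) (fun _ => PBU.cr e1 J (j + 1)) (fun _ => PBU.cr' e1 J (j + 1))
      (rhS (hS j s)) cT τ := by
    intro τ
    have a1 := ((hd.differentiableAt (hS'.mem_nhds (hmem τ))).hasDerivAt.comp_of_eq τ (d0 τ) rfl)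
    have a2 := H.d1 (hc1 τ)
    have e : (fx j (I * s) ∘ fun τ : ℝ => I * (τ : ℂ)) = T0 (ZS ep j s) (NUSea.O.par0 (j + 1))
        (2 * (j + 1)) (fun _ => PBU.cr e1 J (j + 1)) (fun _ => PBU.cr' e1 J (j + 1)) cT :=
      funext hf
    rw [e] at a1
    rw [← a1.unique a2, mul_comm]
  have f2 : -deriv (deriv (fx j (I * s))) (I * t) = T2 (ZS ep j s) (NUSea.O.par0 (j + 1))
      (2 * (j + 1)) (fun _ => PBU.cr e1 J (j + 1)) (fun _ => PBU.cr' e1 J (j + 1))
      (rhS (hS j s)) cT t := by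
    have a1 := ((hd'.differentiableAt (hS'.mem_nhds (hmem t))).hasDerivAt.comp_of_eq t (d0 t)
      rfl).const_mul I
    have a2 := H.d2 (hc1 t) (hasDerivAt_Mn (hS j s) t)
    have e : (fun τ : ℝ => I * (deriv (fx j (I * s)) ∘ fun τ : ℝ => I * (τ : ℂ)) τ) =
        T1 (ZS ep j s) (NUSea.O.par0 (j + 1)) (2 * (j + 1)) (fun _ => PBU.cr e1 J (j + 1))
          (fun _ => PBU.cr' e1 J (j + 1)) (rhS (hS j s)) cT := funext f1
    rw [e] at a1
    rw [← a1.unique a2]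
    linear_combination (-(deriv (deriv (fx j (I * s))) (I * t))) * I_mul_I
  -- the weight
  have hw : WT (ZS ep j s) (NUSea.O.par0 (j + 1)) (2 * (j + 1)) (fun _ => PBU.cr e1 J (j + 1))
      (fun _ => PBU.cr' e1 J (j + 1)) cT t = wL ep e1 J j s t := by
    unfold WT wL
    rw [ZS_eq]
  have v0 : (Vp (rhS (hS j s)) (fun _ => PBU.cr e1 J (j + 1)) (PBEI.h0T t) :
      CfN (2 * (j + 1)) → ℂ) = evN fun n => vP (rhS (hS j s)) (fun z => dl (z - t))
        ((fun _ => PBU.cr e1 J (j + 1)) n) := by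
    rw [← Vp_vP]
    exact Vp_congr hb fun z h1 h2 => h0T_dl h1 h2
  have v1 : (Vp (rhS (hS j s)) (fun _ => PBU.cr e1 J (j + 1)) (PBEI.g2T t) :
      CfN (2 * (j + 1)) → ℂ) = evN fun n => vP (rhS (hS j s)) (fun z => dl2 (z - t))
        ((fun _ => PBU.cr e1 J (j + 1)) n) := by
    rw [← Vp_vP]
    exact Vp_congr hb fun z h1 h2 => g2T_dl h1 h2
  -- the sizes
  have hok := ok_L (m := j + 1) (by omega) hs ht
  have hm0 : (0 : ℝ) < ((j + 1 : ℕ) : ℝ) := by positivity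
  set A : ℝ := ((j + 1 : ℕ) : ℝ) ^ (-(3 / 8 * 2 * (1 - 4 * e1))) * ((j + 1 : ℕ) : ℝ) ^ ε *
    Real.exp (2 * |t|) with hA
  have hA0 : 0 ≤ A := by positivity
  have hbd : famL.bd (j + 1) ((I * s, I * t) : ℂ × ℂ) = Real.exp (2 * |t|) := by
    show Real.exp (2 * |(I * (t : ℂ)).im|) = _
    rw [show (I * (t : ℂ)).im = t by simp]
  have G0 := H0 (j + 1) (by omega) (I * s, I * t) hok (rhS (hS j s)) (DN_rhS j s)
    (fun _ => M) (fun _ => hM) (fun _ _ _ z => dl (z - t)) (fun _ _ _ z => dl (z - t))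
    (fun _ _ _ => ⟨hBC t, hBC t⟩) ∅
  have G1 := H1 (j + 1) (by omega) (I * s, I * t) hok (rhS (hS j s)) (DN_rhS j s)
    (fun _ => M) (fun _ => hM) (fun _ _ _ z => dl (z - t)) (fun _ _ _ z => dl (z - t))
    (fun _ _ _ => ⟨hBC t, hBC t⟩) {⟨0, hp⟩}
  rw [hbd] at G0 G1
  simp only [Finset.prod_empty, Finset.prod_singleton] at G0 G1
  have z0 : 3 * ((1 : ℕ).factorial : ℝ) * ((j + 1 : ℕ) : ℝ) ^ (-(3 / 8 * 2 * (1 - 4 * e1))) * 1 *
      ((j + 1 : ℕ) : ℝ) ^ ε * Real.exp (2 * |t|) = 3 * A := by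
    rw [hA, Nat.factorial_one]
    push_cast
    ring
  have z1 : 3 * ((0 : ℕ).factorial : ℝ) * ((j + 1 : ℕ) : ℝ) ^ (-(3 / 8 * 2 * (1 - 4 * e1))) * M *
      ((j + 1 : ℕ) : ℝ) ^ ε * Real.exp (2 * |t|) = 3 * M * A := by
    rw [hA, Nat.factorial_zero]
    push_cast
    ring
  rw [z0] at G0
  rw [z1] at G1
  have hZm : ∀ a k, Measurable (famL.Z ep (j + 1) ((I * s, I * t) : ℂ × ℂ) a k) := fun a k =>
    PBX.measurable_ZL _ _ _ _ _ a k
  have Q1 := FS_pI G0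
  have Q2 := FS_pI2 (D := 3 * A) (D' := 3 * M * A) (by positivity) (by positivity) hZm
    (rhS (hS j s)) (measurable_dls t) G0 G1
  -- powers
  have hpow : A ≤ Real.exp 2 * (j : ℝ) ^ (-c) := by
    have hj : (1 : ℝ) ≤ j := by exact_mod_cast j3
    have hj1 : (1 : ℝ) ≤ ((j + 1 : ℕ) : ℝ) := by
      push_cast
      linarith
    have e1' : Real.exp (2 * |t|) ≤ Real.exp 2 := Real.exp_le_exp.2 (by linarith)
    have e2 : ((j + 1 : ℕ) : ℝ) ^ (-(3 / 8 * 2 * (1 - 4 * e1))) * ((j + 1 : ℕ) : ℝ) ^ ε ≤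
        (j : ℝ) ^ (-c) := by
      rw [← Real.rpow_add hm0]
      calc ((j + 1 : ℕ) : ℝ) ^ (-(3 / 8 * 2 * (1 - 4 * e1)) + ε) ≤ ((j + 1 : ℕ) : ℝ) ^ (-c) :=
            Real.rpow_le_rpow_of_exponent_le hj1 (by linarith)
        _ ≤ (j : ℝ) ^ (-c) := Real.rpow_le_rpow_of_nonpos (by linarith) (by
            push_cast
            linarith) (by linarith)
    rw [hA, mul_comm (Real.exp 2)]
    exact mul_le_mul e2 e1' (Real.exp_pos _).le (by positivity)
  have hjc : 0 ≤ (j : ℝ) ^ (-c) := by positivity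
  constructor
  · have k := B1 H (rhS (hS j s)) cT ht (d := 3 * A) (by positivity) (by
      rw [ZS_eq]
      exact Q1)
    rw [hw, ← f1 t] at k
    rw [v0]
    refine k.trans ?_
    calc C1 * (3 * A) ≤ C1 * (3 * (Real.exp 2 * (j : ℝ) ^ (-c))) := by gcongr
      _ ≤ (C1 + C2) * (3 * (1 + M) * Real.exp 2) * (j : ℝ) ^ (-c) := by
          have a1 : 0 ≤ Real.exp 2 * (j : ℝ) ^ (-c) := by positivity
          have a2 : C1 ≤ (C1 + C2) * (1 + M) := by nlinarith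
          calc C1 * (3 * (Real.exp 2 * (j : ℝ) ^ (-c))) =
              C1 * (3 * (Real.exp 2 * (j : ℝ) ^ (-c))) := rfl
            _ ≤ ((C1 + C2) * (1 + M)) * (3 * (Real.exp 2 * (j : ℝ) ^ (-c))) := by gcongr
            _ = _ := by ring
  · have k := B2 H (rhS (hS j s)) cT ht (d := 3 * A + 3 * M * A) (by positivity) (by
      rw [ZS_eq]
      exact Q2)
    rw [hw, ← f2] at k
    rw [v0, v1]
    refine k.trans ?_
    calc C2 * (3 * A + 3 * M * A) = C2 * (3 * (1 + M) * A) := by ring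
      _ ≤ C2 * (3 * (1 + M) * (Real.exp 2 * (j : ℝ) ^ (-c))) := by gcongr
      _ ≤ (C1 + C2) * (3 * (1 + M) * (Real.exp 2 * (j : ℝ) ^ (-c))) := by
          gcongr
          linarith
      _ = _ := by ring

end main

end PBLg

end
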