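import Pool.Agent.PB.RepF
import Pool.Agent.PB.RepZ
import Pool.Agent.PB.FFam0
import Pool.Agent.PB.RepL
import Pool.Agent.PB.RepJ
import Pool.Agent.PB.UInst
import Pool.Agent.PB.UXfin
import Pool.Agent.PB.LamDec
import Pool.Agent.PB.ZLegL

/-!
# Plan B: the first Ward identity of the dislocated function, final form (helper89)

* `mainL`: the form of helper72's `E2_of`, literally, with helper61's weight `wL`;
* `moL`: the moments `PBRep.Mo` of the family; `total_le`: the total insertion against `mainL`;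
* **`hD_fin`**: hypothesis `hD` of `PBEM.E2_of`, no hypothesis.
-/

set_option autoImplicit false
set_option linter.unusedSectionVars false
set_option linter.unusedVariables false
set_option maxHeartbeats 1000000

noncomputable section

attribute [local instance] NUSea.seaP

open Complex MeasureTheory Finset Filter
open scoped Classical

namespace PBI

open NUP1 hiding Kd
open NUO NUP1S NUP1S.Ab NUP1S.AbC PBF PBFunc PB PBRep
open PBForce (xiR rhoR Rws0)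
open PBV (wm)
open PBEI (Apl Ami Bch rF uF qF rowS)
open PBLg (wL rhS hS)
open Pool.Agent.PB (Pf fx)

/-- **the main term**: the form of `PBEM.E2_of` -/
def mainL (ep e1 J : ℝ) (j : ℕ) (s t : ℝ) : ℂ :=
  (∫ q, F (mN (2 * (j + 1))) (wL ep e1 J j s t) (fun ω =>
      Vp (rhS (hS j s)) (fun _ => PBU.cr e1 J (j + 1)) (Apl (rowS j s) 0 q) ω *
        Vp (rhS (hS j s)) (fun _ => PBU.cr e1 J (j + 1)) (Bch q) ω) ∂wm) +
    ((∫ q, F (mN (2 * (j + 1))) (wL ep e1 J j s t) (fun ω =>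
        Vm (fun _ => PBU.cr e1 J (j + 1)) (Ami (rowS j s) 0 q) ω *
          Vm (fun _ => PBU.cr e1 J (j + 1)) (Bch q) ω) ∂wm) +
      2 * F (mN (2 * (j + 1))) (wL ep e1 J j s t) (fun ω =>
        Vm (fun _ => PBU.cr e1 J (j + 1)) (uF (rowS j s) 0) ω *
          SN (NUSea.O.par0 (j + 1)) (fun _ => PBU.cr e1 J (j + 1)) ω) -
      ((PBV.rP j s : ℂ) - (PBV.rM j s : ℂ)) / 2 * F (mN (2 * (j + 1))) (wL ep e1 J j s t)
        (fun ω => SN (NUSea.O.par0 (j + 1)) (fun _ => PBU.cr e1 J (j + 1)) ω *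
          SN (NUSea.O.par0 (j + 1)) (fun _ => PBU.cr e1 J (j + 1)) ω)) +
    F (mN (2 * (j + 1))) (wL ep e1 J j s t)
      (Vp (rhS (hS j s)) (fun _ => PBU.cr e1 J (j + 1)) (qF (rowS j s) 0 t))

theorem measurable_pf (k : Option O3) : Measurable (PBOb.pf k) := by
  unfold PBOb.pf
  fun_prop

theorem measurable_sgD (s : Bool) (k : Option O3) : Measurable (sgD s k) := by
  unfold sgD
  exact (PBOb.measurable_sgU.comp (measurable_pf k)).const_mul _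

/-- the step is measurable -/
theorem meas_SN {N : ℕ} {P : NUO.Par} (hP : ∀ r, Measurable (P.rad r)) {η η' : ℕ → Crs}
    (hc : ∀ n ≤ N, MCr (η n) (η' n)) : Measurable (SN P η : CfN N → ℂ) := by
  have h1 := PBOb.meas_VO (N := N) (P := P) hP (g := fun b => sgD b.1 b.2) fun b =>
    measurable_sgD b.1 b.2
  have h2 := PBOb.meas_VQ (N := N) (η := η) (η' := η') hc (D := sgD) measurable_sgD
  exact h1.add h2

/-- **the moments of the family** -/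
theorem moL {ep e1 J ε a : ℝ} {Kc : ℝ} (hU : PBU.UB PBU.famL ep e1 J 2 Kc ε) (hK : 6 ≤ Kc)
    (ha0 : 0 ≤ a) (ha : a ≤ 8 / 3) : ∃ m0 : ℕ, ∀ j : ℕ, m0 ≤ j → ∀ s t : ℝ, |s| ≤ 1 → |t| ≤ 1 →
      AEStronglyMeasurable (wL ep e1 J j s t) (mN (2 * (j + 1))) →
      PBRep.Mo a (wL ep e1 J j s t) (rhS (hS j s)) (NUSea.O.par0 (j + 1))
        (fun _ => PBU.cr e1 J (j + 1)) (345600 * ((j + 1 : ℕ) : ℝ) ^ ε * Real.exp (2 * |t|))
        (PBUI.dl 720 e1 a ε (Real.exp (2 * |t|)) (j + 1)) := by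
  have hl := Bd.l_pos
  obtain ⟨n1, h1⟩ := PBUI.M2_all hU hK 2 (-(l / 10)) (9 / 20 * l) (by linarith) (by linarith)
  obtain ⟨n2, h2⟩ := PBUI.pins hU hK ha0 ha 2 (-(l / 10)) (9 / 20 * l) (by linarith) (by linarith)
  refine ⟨max n1 n2, fun j hj s t hs ht hw => ?_⟩
  have j1 : n1 ≤ j + 1 := ((le_max_left _ _).trans hj).trans (Nat.le_succ j)
  have j2 : n2 ≤ j + 1 := ((le_max_right _ _).trans hj).trans (Nat.le_succ j)
  have hok := PBLg.ok_L (m := j + 1) (Nat.le_add_left 1 j) hs ht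
  have hDN := PBLg.DN_rhS j s
  have hbd : PBU.famL.bd (j + 1) ((I * s, I * t) : ℂ × ℂ) = Real.exp (2 * |t|) := by
    show Real.exp (2 * |(I * (t : ℂ)).im|) = _
    simp
  have hb0 : 0 ≤ PBU.famL.bd (j + 1) ((I * s, I * t) : ℂ × ℂ) := by
    rw [hbd]
    positivity
  obtain ⟨k1, k2, k3, k4⟩ := h1 (j + 1) j1 _ hok hb0 _ hDN
  have k5 := h2 (j + 1) j2 _ hok hb0 _ hDN
  rw [hbd] at k1 k2 k3 k4 k5
  refine ⟨by positivity, hw, k5, k1, fun M h hh _ => ?_, fun M h hh _ => ?_, ?_, k4⟩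
  · have hM := hh.nonneg (by linarith) (by linarith)
    exact k2 M h hM (PBU.BC.of_TC hh ha0 hM)
  · have hM := hh.nonneg (by linarith) (by linarith)
    exact k3 M h hM (PBU.BC.of_TC hh ha0 hM)
  · exact (meas_SN (fun r => (PBF.parZ_parC (j + 1)).rm r)
      fun n _ => PBLg.MCr_cr e1 J (j + 1)).aestronglyMeasurable

/-- **the total insertion against the main term** -/
theorem total_le {c : ℝ} (hc : c ≤ 13 / 20) : ∃ a0 : ℝ, 0 < a0 ∧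
    ∀ ep e1 J : ℝ, 0 < ep → ep ≤ 1 / 100 → 0 < e1 → e1 ≤ 1 / 100 → 0 ≤ J →
    Real.exp (-(2 * Real.pi * J)) + 3 * e1 + 3 * ep ≤ a0 → ∃ C : ℝ, 0 < C ∧
    ∀ᶠ j : ℕ in atTop, ∀ s ∈ Set.Icc (0 : ℝ) 1, ∀ t ∈ Set.Icc (0 : ℝ) 1,
      ‖((j + 1 : ℝ) : ℂ) * F0T ep j s t - mainL ep e1 J j s t‖ ≤
        C * ((j + 1 : ℕ) : ℝ) ^ (-c) := by
  have hl := Bd.l_pos
  have hlN : NUP1.l = NUMF.l := rfl
  obtain ⟨a1, ha1, HT⟩ := trN_ZL
  obtain ⟨a2, ha2, HU⟩ := PBU.uxL 2 6 (1 / 40) (by norm_num)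
  obtain ⟨Kr, hKr, HR⟩ := PBRep.repI (a' := 19 / 10) (by norm_num) (by norm_num)
  obtain ⟨C1, hC1, HE⟩ := PBEI.rep_EF (a := 39 / 20) (a' := 19 / 10) (by norm_num) (by norm_num)
    (by norm_num)
  obtain ⟨C2, hC2, HL⟩ := PBQ1.lamK_DQ
  obtain ⟨Mq, hMq, HQ⟩ := exists_gl_dec hC2.le (fun z h1 h2 b u hu =>
    HL z (by rw [h1, abs_zero]; exact (half_pos NUMF.l_pos).le) h2 2 le_rfl b u hu)
  refine ⟨min a1 a2, lt_min ha1 ha2, fun ep e1 J hep hep1 he he1 hJ hsm => ?_⟩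
  obtain ⟨m1, HT⟩ := HT ep e1 J hep hep1 he he1 hJ (hsm.trans (min_le_left _ _))
  have hU := HU ep e1 J hep he hJ (hsm.trans (min_le_right _ _))
  obtain ⟨m2, HM⟩ := moL hU le_rfl (a := 19 / 10) (by norm_num) (by norm_num)
  refine ⟨Kr * (1 + Mq) * (720 * Real.exp 2), by positivity, ?_⟩
  filter_upwards [eventually_ge_atTop m1, eventually_ge_atTop m2] with j j1 j2 s hs t ht
  have hs1 : |s| ≤ 1 := abs_le.2 ⟨by linarith [hs.1], hs.2⟩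
  have ht1 : |t| ≤ 1 := abs_le.2 ⟨by linarith [ht.1], ht.2⟩
  have hx := PBEI.rowS_ok j hs1
  have hT := HT j j1 s t hs1 ht1
  have hP : NURow.ParP (PBT.pL (j + 1)) := parP_par0 (j + 1)
  have hPO : PBOb.ParO (PBT.pL (j + 1)) := PBOb.ParO.of hP
  have hPC : NUGC.ParC (PBT.pL (j + 1)) := PBF.parZ_parC (j + 1)
  have hL := ln_row (N := 2 * (j + 1)) hP (x0 := 3 / 5 * l) (by linarith) (by linarith) hx
  have hw : AEStronglyMeasurable (wL ep e1 J j s t) (mN (2 * (j + 1))) :=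
    (wN_meas hT.mc).aestronglyMeasurable
  have hM := HM j j2 s t hs1 ht1 hw
  have eρ : (fun u => rhoR (rowS j s) (vl l u)) = rhS (hS j s) := by
    funext u
    exact PBLg.rhoR_hS j s u
  have hc0 : ∀ n ≤ 2 * (j + 1), MCr (PBT.crL e1 J (j + 1)) (PBT.crL' e1 J (j + 1)) := fun n hn =>
    (hT.ins n hn).hc
  have hre : |(I * (t : ℂ)).re| ≤ l / 2 := by
    rw [show (I * (t : ℂ)).re = 0 by simp, abs_zero]
    positivity
  -- the linear insertion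
  have hadl : AdS (PBT.pL (j + 1)) (3 / 5 * l) (ep / 4)
      (sK fun b z => ((j + 1 : ℕ) : ℂ) * gl (rowS j s) 0 (I * t) b z) :=
    (adS_gl hPO (by linarith) (by linarith) hx 0 hre).cmul _
  obtain ⟨q1, q2⟩ := HQ (j + 1) (rowS j s) 0 hx t ht1 (19 / 10) (by norm_num) (by norm_num)
  have hobs := obs_gl (N := 2 * (j + 1)) (P := PBT.pL (j + 1)) (x0 := 3 / 5 * l) (δ := ep / 4)
    (a := 19 / 10) (Mq := Mq) (η := fun _ => PBT.crL e1 J (j + 1))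
    (η' := fun _ => PBT.crL' e1 J (j + 1)) hPC.goodQ hPO (by linarith) hPC.rm hc0
    (by linarith) (fun n hn r hr O => (hT.ins n hn).hη r hr O) hL.hρ (rowS j s) 0 t
    (by norm_num) (by norm_num) hMq.le q1 q2
  have evc : (VC (PBQ1.rhK (rowS j s)) (PBT.pL (j + 1)) (fun _ => PBT.crL e1 J (j + 1))
      fun b z => ((j + 1 : ℕ) : ℂ) * gl (rowS j s) 0 (I * t) b z : CfN (2 * (j + 1)) → ℂ) =
      fun ω => ((j + 1 : ℕ) : ℂ) * VC (PBQ1.rhK (rowS j s)) (PBT.pL (j + 1))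
        (fun _ => PBT.crL e1 J (j + 1)) (gl (rowS j s) 0 (I * t)) ω := by
    funext ω
    exact VC_smul _ _ _ ω
  rw [← evc] at hobs
  rw [eρ] at hL hobs
  -- integrability of the two channels
  obtain ⟨r1, r2, -⟩ := HE (j + 1) (rowS j s) 0 hx
  have y1 : -(NUMF.l / 10) < 0 := by rw [← hlN]; linarith
  have y2 : 0 < 9 / 20 * NUMF.l := by rw [← hlN]; linarith
  have hρm : AEStronglyMeasurable (rhS (hS j s)) volume := (PBLg.DN_rhS j s).1.1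
  have i1 := i2 (N := 2 * (j + 1)) (η := fun _ => PBT.crL e1 J (j + 1))
    (η' := fun _ => PBT.crL' e1 J (j + 1)) (rowS j s) 0 r1 y1 y2 hρm hc0 hw hM.K0 hM.vp
  have i1' := i2' (N := 2 * (j + 1)) (η := fun _ => PBT.crL e1 J (j + 1))
    (η' := fun _ => PBT.crL' e1 J (j + 1)) (rowS j s) 0 r2 y1 y2 hc0 hw hM.K0 hM.vm
  have key := HR (j + 1) (rowS j s) 0 hx _ (PBT.pL (j + 1)) (3 / 5 * l) _ _ _ (2 * (j + 1)) _ _
    (fun _ => Pf (I * t) (rowS j s) (rowS j s)) _ (PBQ1.rhK (rowS j s)) (rhS (hS j s))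
    (gl (rowS j s) 0 (I * t)) t Mq _ _ hT hL hM hadl hobs i1 i1'
  have e1' : ((j + 1 : ℝ) : ℂ) = ((j + 1 : ℕ) : ℂ) := by push_cast; ring
  have eP : PBEI.rP (rowS j s) 0 = (PBV.rP j s : ℂ) := PBEI.rP_rowS j s
  have eM : PBEI.rM (rowS j s) 0 = (PBV.rM j s : ℂ) := PBEI.rM_rowS j s
  rw [eP, eM] at key
  rw [e1']
  refine (key).trans ?_
  -- sizes
  have hm0 : (0 : ℝ) < ((j + 1 : ℕ) : ℝ) := by positivity
  have hm1 : (1 : ℝ) ≤ ((j + 1 : ℕ) : ℝ) := by exact_mod_cast Nat.succ_le_succ (Nat.zero_le j)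
  have hexp : Real.exp (2 * |t|) ≤ Real.exp 2 := Real.exp_le_exp.2 (by linarith)
  have hpow : ((j + 1 : ℕ) : ℝ) ^ (-(3 / 8 * (19 / 10) * (1 - 4 * e1))) *
      ((j + 1 : ℕ) : ℝ) ^ (1 / 40 : ℝ) ≤ ((j + 1 : ℕ) : ℝ) ^ (-c) := by
    rw [← Real.rpow_add hm0]
    refine Real.rpow_le_rpow_of_exponent_le hm1 ?_
    linarith
  have hdl : PBUI.dl 720 e1 (19 / 10) (1 / 40) (Real.exp (2 * |t|)) (j + 1) ≤
      720 * Real.exp 2 * ((j + 1 : ℕ) : ℝ) ^ (-c) := by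
    unfold PBUI.dl
    calc 720 * ((j + 1 : ℕ) : ℝ) ^ (-(3 / 8 * (19 / 10) * (1 - 4 * e1))) *
          ((j + 1 : ℕ) : ℝ) ^ (1 / 40 : ℝ) * Real.exp (2 * |t|) =
        720 * (((j + 1 : ℕ) : ℝ) ^ (-(3 / 8 * (19 / 10) * (1 - 4 * e1))) *
          ((j + 1 : ℕ) : ℝ) ^ (1 / 40 : ℝ)) * Real.exp (2 * |t|) := by ring
      _ ≤ 720 * ((j + 1 : ℕ) : ℝ) ^ (-c) * Real.exp 2 := by gcongr
      _ = _ := by ring
  have hK0 : 0 ≤ Kr * (1 + Mq) := by positivity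
  calc Kr * (1 + Mq) * PBUI.dl 720 e1 (19 / 10) (1 / 40) (Real.exp (2 * |t|)) (j + 1) ≤
      Kr * (1 + Mq) * (720 * Real.exp 2 * ((j + 1 : ℕ) : ℝ) ^ (-c)) :=
        mul_le_mul_of_nonneg_left hdl hK0
    _ = _ := by ring

/-- **hypothesis `hD` of `PBEM.E2_of`** -/
theorem hD_fin {c : ℝ} (hc0 : 0 ≤ c) (hc : c ≤ 13 / 20) : ∃ a0 : ℝ, 0 < a0 ∧
    ∀ ep e1 J : ℝ, 0 < ep → ep ≤ 1 / 100 → 0 < e1 → e1 ≤ 1 / 100 → 0 ≤ J →
    Real.exp (-(2 * Real.pi * J)) + 3 * e1 + 3 * ep ≤ a0 → ∃ C : ℝ, 0 < C ∧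
    ∀ᶠ j : ℕ in atTop, ∀ s ∈ Set.Icc (0 : ℝ) 1, ∀ t ∈ Set.Icc (0 : ℝ) 1, ∃ D : ℂ,
      HasDerivAt (fun s : ℝ => fx j (I * s) (I * t)) D s ∧
      ‖((j + 1 : ℝ) : ℂ) * D - mainL ep e1 J j s t‖ ≤ C * (j : ℝ) ^ (-c) := by
  obtain ⟨a1, ha1, H1⟩ := total_le hc
  obtain ⟨a2, ha2, H2⟩ := hD_all Pool.Agent.NUM3.stabProd ffamH (d := 1 / 4) (by norm_num)
  refine ⟨min a1 a2, lt_min ha1 ha2, fun ep e1 J hep hep1 he he1 hJ hsm => ?_⟩
  obtain ⟨C, hC, H1⟩ := H1 ep e1 J hep hep1 he he1 hJ (hsm.trans (min_le_left _ _))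
  have H := H2 ep hep hep1 e1 he he1 J hJ (hsm.trans (min_le_right _ _))
    (main := fun j s t => mainL ep e1 J j s t) (δa := fun j => C * ((j + 1 : ℕ) : ℝ) ^ (-c)) H1
  refine ⟨C + Real.exp 2, by positivity, ?_⟩
  filter_upwards [H, eventually_ge_atTop 1] with j h1 h2 s hs t ht
  obtain ⟨D, hD, hb⟩ := h1 s hs t ht
  refine ⟨D, hD, hb.trans ?_⟩
  have hm1 : (1 : ℝ) ≤ ((j + 1 : ℕ) : ℝ) := by exact_mod_cast Nat.succ_le_succ (Nat.zero_le j)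
  have hj0 : (0 : ℝ) < j := by exact_mod_cast h2
  have p1 : ((j + 1 : ℕ) : ℝ) ^ (-1 + 1 / 4 : ℝ) ≤ ((j + 1 : ℕ) : ℝ) ^ (-c) :=
    Real.rpow_le_rpow_of_exponent_le hm1 (by linarith)
  have p2 : ((j + 1 : ℕ) : ℝ) ^ (-c) ≤ (j : ℝ) ^ (-c) := by
    refine Real.rpow_le_rpow_of_nonpos hj0 ?_ (by linarith)
    push_cast
    linarith
  have hE := Real.exp_pos (2 : ℝ)
  calc C * ((j + 1 : ℕ) : ℝ) ^ (-c) + Real.exp 2 * ((j + 1 : ℕ) : ℝ) ^ (-1 + 1 / 4 : ℝ) ≤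
      C * (j : ℝ) ^ (-c) + Real.exp 2 * (j : ℝ) ^ (-c) := by
        have := p1.trans p2
        gcongr
    _ = _ := by ring

end PBI

end
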