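import Pool.Agent.PB.LevN
import Pool.Agent.PB.LevF

/-!
# Plan B: level two at the family, minus channel, in the form of `PBLX.levF`
-/

noncomputable section

namespace PBLX

/-- **the minus channel**, the hypothesis `h2` of `levF` -/
theorem levW_wm : LevW (WmS (19 / 10)) := by
  obtain ⟨a0, ha0, H⟩ := levN
  refine ⟨a0, ha0, fun ep e1 J hp => ?_⟩
  obtain ⟨C, hC, h⟩ := H ep e1 J hp
  exact ⟨C, zero_le_one.trans hC, h⟩

end PBLX

end
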