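import Pool.Agent.PB.LevF
import Pool.Agent.PB.LevPW
import Pool.Agent.PB.I1G
import Pool.Agent.PB.ZLegL
import Pool.Agent.PB.VInst2
import Pool.Agent.PB.LevNW
import Pool.Agent.PB.CloseF

/-!
# Plan B: `(E')` of the dislocated function (helper91)

* `closeE`: `PBV.E2 (1 / 2)` from the identities of both channels (levF), helper89's `hD_fin`,
  helper61's `zleg`, helper1's `meanDat`;
* **`e2_half`**: `PBV.E2 (1 / 2) (fun j z x => fx j x z)`, no hypothesis;
* **`funO_half`**: the function side `PBV.FunO (1 / 2)`, no hypothesis.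
-/

set_option autoImplicit false
set_option linter.unusedSectionVars false

noncomputable section

open Complex MeasureTheory Filter Topology Set

namespace PBLX

open NUO NUP1S NUP1S.Ab NUP1S.AbC NUGC PBF PBFunc PBU PBWP
open NUP1 hiding Kd
open PBEI (rowS y1 y2 Apl Ami Bch)
open PBV (wm)
open Pool.Agent.PB (fx)

attribute [local instance] NUSea.seaP

/-- **`(E')`** from the identities of the minus channel -/
theorem closeE (hW : LevW (WmS (19 / 10))) : PBV.E2 (1 / 2) (fun j z x => fx j x z) := by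
  obtain ⟨a1, ha1, H1⟩ := levF PBWP.levW_wp hW
  obtain ⟨a2, ha2, H2⟩ := PBI.hD_fin (c := 1 / 2) (by norm_num) (by norm_num)
  obtain ⟨a3, ha3, H3⟩ := uxL 2 6 (1 / 100) (by norm_num)
  obtain ⟨a0, h0⟩ : ∃ a0 : ℝ, a0 = min (min a1 a2) (min a3 (1 / 10)) := ⟨_, rfl⟩
  have ha0 : 0 < a0 := by
    rw [h0]
    exact lt_min (lt_min ha1 ha2) (lt_min ha3 (by norm_num))
  have e1' : a0 ≤ a1 := by rw [h0]; exact (min_le_left _ _).trans (min_le_left _ _)
  have e2' : a0 ≤ a2 := by rw [h0]; exact (min_le_left _ _).trans (min_le_right _ _)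
  have e3' : a0 ≤ a3 := by rw [h0]; exact (min_le_right _ _).trans (min_le_left _ _)
  have e4' : a0 ≤ 1 / 10 := by rw [h0]; exact (min_le_right _ _).trans (min_le_right _ _)
  -- the parameters
  obtain ⟨J, hJ0, hJ⟩ : ∃ J : ℝ, 0 ≤ J ∧ Real.exp (-(2 * Real.pi * J)) ≤ a0 / 10 := by
    have h1 : Tendsto (fun J : ℝ => Real.exp (-(2 * Real.pi * J))) atTop (𝓝 0) := by
      refine Real.tendsto_exp_atBot.comp ?_
      exact (tendsto_neg_atTop_atBot).comp (tendsto_id.const_mul_atTop (by positivity))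
    have h2 := h1.eventually (Iic_mem_nhds (show (0 : ℝ) < a0 / 10 by positivity))
    obtain ⟨J, h3, h4⟩ := (h2.and (eventually_ge_atTop (0 : ℝ))).exists
    exact ⟨J, h4, h3⟩
  have hp : SmallP a0 (a0 / 10) (a0 / 10) J :=
    ⟨by positivity, by linarith, by positivity, by linarith, hJ0, by linarith⟩
  obtain ⟨K, th, dp, C1, hC1, hL, hs⟩ := H1 _ _ _ (hp.mono e1')
  obtain ⟨C2, hC2, hD⟩ := H2 _ _ _ hp.ep0 hp.ep1 hp.e0 hp.e1' hp.J0 (hp.sm.trans e2')
  have hU : UB famL (a0 / 10) (a0 / 10) J 2 6 (1 / 100) :=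
    H3 _ _ _ hp.ep0 hp.e0 hp.J0 (hp.sm.trans e3')
  obtain ⟨C3, hC3, hZ⟩ := PBLg.zleg hU (by norm_num) le_rfl hp.ep0 hp.ep1 hp.e0 hp.e1' hp.J0
    (c := 1 / 2) (by norm_num) (by have := hp.e1'; linarith)
  obtain ⟨B, hB, hm⟩ := PBEI.meanDat
  have er : ∀ (j : ℕ) (s : ℝ), PBLg.rhS (PBLg.hS j s) = rh0 j s := fun j s =>
    (funext (PBLg.rhoR_hS j s)).symm
  refine PBEM.E2_of (a' := 19 / 10) (B := B) (C := C1 + C2 + C3) (by norm_num) (by norm_num)
    (Ω := fun j => CfN (2 * (j + 1))) (μ := fun j => mN (2 * (j + 1)))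
    (w := fun j s t => wS (a0 / 10) (a0 / 10) J j s t)
    (V := fun j s _ => Vp (rh0 j s) (eC (a0 / 10) J j))
    (Vm := fun j _ _ => Vm (eC (a0 / 10) J j))
    (S := fun j _ _ => SN (NUSea.O.par0 (j + 1)) (eC (a0 / 10) J j))
    (K := K) (th := th) (δp := dp) (δ0 := fun j => C2 * (j : ℝ) ^ (-(1 / 2 : ℝ)))
    (δ1 := fun j => C3 * (j : ℝ) ^ (-(1 / 2 : ℝ)))
    (mf := PBEI.mfL) (mf' := PBEI.mfL') (D0 := PBLeg.Dleg)
    (mp := fun _ => 8 * I / (3 * Real.pi)) (mm := fun _ => -(8 * I / (3 * Real.pi)))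
    (fun t ht => hm t (abs_le.2 ⟨by linarith [ht.1], ht.2⟩)) hL ?_ ?_ ?_
  · filter_upwards [hD] with j h s hs t ht
    obtain ⟨D, h1, h2⟩ := h s hs t ht
    refine ⟨D, h1, ?_⟩
    unfold PBI.mainL at h2
    rw [er] at h2
    exact h2
  · filter_upwards [hZ] with j h s hs t ht
    have h1 := h s t (abs_le.2 ⟨by linarith [hs.1], hs.2⟩) (abs_le.2 ⟨by linarith [ht.1], ht.2⟩)
    rw [er] at h1
    exact h1
  · filter_upwards [eventually_ge_atTop 1] with j hj
    obtain ⟨h1, h2⟩ := hs (1 / 2) (by norm_num) (by norm_num) j hj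
    have hx : (0 : ℝ) ≤ (j : ℝ) ^ (-(1 / 2 : ℝ)) := by positivity
    refine ⟨?_, ?_, ?_, ?_, ?_⟩
    · exact mul_le_mul_of_nonneg_right (by linarith) hx
    · exact h1.trans (mul_le_mul_of_nonneg_right (by linarith) hx)
    · exact h2.trans (mul_le_mul_of_nonneg_right (by linarith) hx)
    · exact mul_nonneg hC3.le hx
    · exact mul_le_mul_of_nonneg_right (by linarith) hx

/-- **`(E')` of the dislocated function** -/
theorem e2_half : PBV.E2 (1 / 2) (fun j z x => fx j x z) := closeE levW_wm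

/-- **the function side** -/
theorem funO_half : PBV.FunO (1 / 2) Pool.Agent.PB.f0
    fun j => PBV.bK Pool.Agent.PB.f0 j 0 := PBC.funO (by norm_num) (by norm_num) e2_half

end PBLX

end
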