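import Mathlib

/-!
# Ward identity of a gas on lines (plan B): integration by parts along a vector field

Particles `i : ι` at real heights `t i`, one body functions `h i` with logarithmic derivative
`κ i`, pair functions `w i j (t i - t j)` over the pairs of a relation `r`.  Vector field
`ξ i (t i)`, smooth kernels `a i j s t` with
`(ξ i s - ξ j t) * w' i j (s - t) = a i j s t * w i j (s - t)`.

* `integral_lineDeriv_zero`: the integral of a line derivative is zero;
* `Phi`, `dPhi`: the integrand and its partial derivatives, `hasLineDerivAt_Phi`;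
* `sum_dPhi`: `∑ ξ k ∂ k Phi = (∑ ξ κ + ∑ a) Phi`;
* **`ward`**: the Ward identity with an insertion.
-/

set_option autoImplicit false
set_option linter.unusedSectionVars false

noncomputable section

open MeasureTheory Finset
open scoped Classical

namespace PB

/-- the integral of a line derivative is zero -/
theorem integral_lineDeriv_zero {E : Type*} [NormedAddCommGroup E] [NormedSpace ℝ E]
    [MeasurableSpace E] [BorelSpace E] [FiniteDimensional ℝ E] {μ : Measure E}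
    [μ.IsAddHaarMeasure] {f f' : E → ℂ} {v : E} (hf : Integrable f μ) (hf' : Integrable f' μ)
    (h : ∀ x, HasLineDerivAt ℝ f (f' x) x v) : ∫ x, f' x ∂μ = 0 := by
  have key := integral_bilinear_hasLineDerivAt_right_eq_neg_left_of_integrable (μ := μ)
    (f := fun _ : E => (1 : ℂ)) (f' := fun _ => (0 : ℂ)) (g := f) (g' := f') (v := v)
    (B := ContinuousLinearMap.mul ℝ ℂ) (by simp) (by simpa using hf') (by simpa using hf)
    (fun x _ => by unfold HasLineDerivAt; exact hasDerivAt_const _ _) (fun x _ => h x)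
  simpa using key

variable {ι : Type*} [Fintype ι]

/-- the pairs -/
def prs (r : ι → ι → Prop) : Finset (ι × ι) := univ.filter fun p => r p.1 p.2

/-- the integrand -/
def Phi (r : ι → ι → Prop) (h : ι → ℝ → ℂ) (w : ι → ι → ℝ → ℂ) (t : ι → ℝ) : ℂ :=
  (∏ i, h i (t i)) * ∏ p ∈ prs r, w p.1 p.2 (t p.1 - t p.2)

/-- the integrand with the pair `p` differentiated -/
def PhiP (r : ι → ι → Prop) (h : ι → ℝ → ℂ) (w w' : ι → ι → ℝ → ℂ) (t : ι → ℝ) (p : ι × ι) : ℂ :=
  (∏ i, h i (t i)) * (w' p.1 p.2 (t p.1 - t p.2) *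
    ∏ q ∈ (prs r).erase p, w q.1 q.2 (t q.1 - t q.2))

/-- the partial derivative in the direction `k` -/
def dPhi (r : ι → ι → Prop) (h κ : ι → ℝ → ℂ) (w w' : ι → ι → ℝ → ℂ) (k : ι) (t : ι → ℝ) : ℂ :=
  κ k (t k) * Phi r h w t + ∑ p ∈ prs r,
    ((if p.1 = k then (1 : ℂ) else 0) - (if p.2 = k then (1 : ℂ) else 0)) * PhiP r h w w' t p

theorem hasDerivAt_coord (t : ι → ℝ) (k i : ι) :
    HasDerivAt (fun s : ℝ => (t + s • (Pi.single k (1 : ℝ) : ι → ℝ)) i)
      (if i = k then 1 else 0) 0 := by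
  have h : (fun s : ℝ => (t + s • (Pi.single k (1 : ℝ) : ι → ℝ)) i) =
      fun s : ℝ => t i + s * (if i = k then 1 else 0) := by
    funext s
    simp only [Pi.add_apply, Pi.smul_apply, smul_eq_mul, Pi.single_apply]
  rw [h]
  simpa using ((hasDerivAt_id (0 : ℝ)).mul_const (if i = k then (1 : ℝ) else 0)).const_add (t i)

theorem coord_zero (t : ι → ℝ) (k i : ι) :
    (t + (0 : ℝ) • (Pi.single k (1 : ℝ) : ι → ℝ)) i = t i := by simp

theorem hasLineDerivAt_one {h κ : ι → ℝ → ℂ} (hh : ∀ i t, HasDerivAt (h i) (κ i t * h i t) t)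
    (t : ι → ℝ) (k i : ι) :
    HasDerivAt (fun s : ℝ => h i ((t + s • (Pi.single k (1 : ℝ) : ι → ℝ)) i))
      ((if i = k then κ k (t k) else 0) * h i (t i)) 0 := by
  have h1 : HasDerivAt (fun s : ℝ => h i ((t + s • (Pi.single k (1 : ℝ) : ι → ℝ)) i))
      ((if i = k then (1 : ℝ) else 0) • (κ i (t i) * h i (t i))) 0 := by
    have := (hh i ((t + (0 : ℝ) • (Pi.single k (1 : ℝ) : ι → ℝ)) i)).scomp (0 : ℝ)
      (hasDerivAt_coord t k i)
    rw [coord_zero] at this
    exact this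
  by_cases hik : i = k
  · subst hik
    simpa only [if_true, one_smul] using h1
  · simpa only [if_neg hik, zero_smul, zero_mul] using h1

theorem hasLineDerivAt_two {w w' : ι → ι → ℝ → ℂ}
    (hw : ∀ i j u, HasDerivAt (w i j) (w' i j u) u) (t : ι → ℝ) (k : ι) (p : ι × ι) :
    HasDerivAt (fun s : ℝ => w p.1 p.2 ((t + s • (Pi.single k (1 : ℝ) : ι → ℝ)) p.1 -
      (t + s • (Pi.single k (1 : ℝ) : ι → ℝ)) p.2))
      (((if p.1 = k then (1 : ℂ) else 0) - (if p.2 = k then (1 : ℂ) else 0)) *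
        w' p.1 p.2 (t p.1 - t p.2)) 0 := by
  have h0 := (hasDerivAt_coord t k p.1).sub (hasDerivAt_coord t k p.2)
  have h1 : HasDerivAt (fun s : ℝ => w p.1 p.2 ((t + s • (Pi.single k (1 : ℝ) : ι → ℝ)) p.1 -
      (t + s • (Pi.single k (1 : ℝ) : ι → ℝ)) p.2))
      (((if p.1 = k then (1 : ℝ) else 0) - (if p.2 = k then 1 else 0)) •
        w' p.1 p.2 (t p.1 - t p.2)) 0 := by
    have := (hw p.1 p.2 ((t + (0 : ℝ) • (Pi.single k (1 : ℝ) : ι → ℝ)) p.1 -
      (t + (0 : ℝ) • (Pi.single k (1 : ℝ) : ι → ℝ)) p.2)).scomp (0 : ℝ) h0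
    rw [coord_zero, coord_zero] at this
    exact this
  have e : (((if p.1 = k then (1 : ℂ) else 0) - (if p.2 = k then (1 : ℂ) else 0)) *
        w' p.1 p.2 (t p.1 - t p.2)) = (((if p.1 = k then (1 : ℝ) else 0) -
        (if p.2 = k then 1 else 0)) • w' p.1 p.2 (t p.1 - t p.2)) := by
    rw [Complex.real_smul]
    congr 1
    split_ifs <;> simp
  rw [e]
  exact h1

theorem hasLineDerivAt_Phi {r : ι → ι → Prop} {h κ : ι → ℝ → ℂ} {w w' : ι → ι → ℝ → ℂ}
    (hh : ∀ i t, HasDerivAt (h i) (κ i t * h i t) t)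
    (hw : ∀ i j u, HasDerivAt (w i j) (w' i j u) u) (k : ι) (t : ι → ℝ) :
    HasLineDerivAt ℝ (Phi r h w) (dPhi r h κ w w' k t) t (Pi.single k 1) := by
  unfold HasLineDerivAt
  have h1 := HasDerivAt.fun_finsetProd (u := (univ : Finset ι)) (x := (0 : ℝ))
    (f := fun i s => h i ((t + s • (Pi.single k (1 : ℝ) : ι → ℝ)) i))
    (f' := fun i => (if i = k then κ k (t k) else 0) * h i (t i))
    (fun i _ => hasLineDerivAt_one hh t k i)
  have h2 := HasDerivAt.fun_finsetProd (u := prs r) (x := (0 : ℝ))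
    (f := fun p s => w p.1 p.2 ((t + s • (Pi.single k (1 : ℝ) : ι → ℝ)) p.1 -
      (t + s • (Pi.single k (1 : ℝ) : ι → ℝ)) p.2))
    (f' := fun p => ((if p.1 = k then (1 : ℂ) else 0) - (if p.2 = k then (1 : ℂ) else 0)) *
        w' p.1 p.2 (t p.1 - t p.2))
    (fun p _ => hasLineDerivAt_two hw t k p)
  have h3 := h1.mul h2
  simp only [coord_zero] at h3
  have hfin : HasDerivAt (fun s : ℝ => Phi r h w (t + s • (Pi.single k (1 : ℝ) : ι → ℝ))) _ 0 := h3
  refine hfin.congr_deriv ?_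
  unfold dPhi Phi PhiP
  have e1 : (∑ i, (∏ j ∈ univ.erase i, h j (t j)) •
      ((if i = k then κ k (t k) else 0) * h i (t i))) = κ k (t k) * ∏ i, h i (t i) := by
    rw [Finset.sum_eq_single k]
    · rw [if_pos rfl, smul_eq_mul, ← Finset.mul_prod_erase univ (fun i => h i (t i)) (mem_univ k)]
      ring
    · intro i _ hik
      simp [hik]
    · intro hk
      exact absurd (mem_univ k) hk
  rw [e1, Finset.mul_sum]
  congr 1
  · ring
  · refine Finset.sum_congr rfl fun p _ => ?_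
    rw [smul_eq_mul]
    ring

/-- **the sum of the partial derivatives along the field** -/
theorem sum_dPhi {r : ι → ι → Prop} {h κ : ι → ℝ → ℂ} {w w' : ι → ι → ℝ → ℂ} {ξ : ι → ℝ → ℂ}
    {a : ι → ι → ℝ → ℝ → ℂ}
    (ha : ∀ i j s t, (ξ i s - ξ j t) * w' i j (s - t) = a i j s t * w i j (s - t)) (t : ι → ℝ) :
    ∑ k, ξ k (t k) * dPhi r h κ w w' k t =
      ((∑ k, ξ k (t k) * κ k (t k)) + ∑ p ∈ prs r, a p.1 p.2 (t p.1) (t p.2)) * Phi r h w t := by
  unfold dPhi
  simp_rw [mul_add]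
  rw [Finset.sum_add_distrib, add_mul, Finset.sum_mul, Finset.sum_mul]
  congr 1
  · exact Finset.sum_congr rfl fun k _ => by ring
  · simp_rw [Finset.mul_sum]
    rw [Finset.sum_comm]
    refine Finset.sum_congr rfl fun p hp => ?_
    have e1 : ∑ k, ξ k (t k) * (((if p.1 = k then (1 : ℂ) else 0) -
        (if p.2 = k then (1 : ℂ) else 0)) * PhiP r h w w' t p) =
        (ξ p.1 (t p.1) - ξ p.2 (t p.2)) * PhiP r h w w' t p := by
      have : ∀ k, ξ k (t k) * (((if p.1 = k then (1 : ℂ) else 0) -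
        (if p.2 = k then (1 : ℂ) else 0)) * PhiP r h w w' t p) =
        (if p.1 = k then ξ k (t k) else 0) * PhiP r h w w' t p -
        (if p.2 = k then ξ k (t k) else 0) * PhiP r h w w' t p := by
        intro k
        split_ifs <;> ring
      simp_rw [this]
      rw [Finset.sum_sub_distrib, ← Finset.sum_mul, ← Finset.sum_mul, Finset.sum_ite_eq,
        Finset.sum_ite_eq]
      simp only [mem_univ, if_true]
      ring
    rw [e1]
    unfold PhiP Phi
    rw [← Finset.mul_prod_erase (prs r) (fun q => w q.1 q.2 (t q.1 - t q.2)) hp]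
    have := ha p.1 p.2 (t p.1) (t p.2)
    calc _ = (∏ i, h i (t i)) * (((ξ p.1 (t p.1) - ξ p.2 (t p.2)) * w' p.1 p.2 (t p.1 - t p.2)) *
          ∏ q ∈ (prs r).erase p, w q.1 q.2 (t q.1 - t q.2)) := by ring
      _ = _ := by rw [this]; ring

/-- **the Ward identity** with a bounded insertion `O` -/
theorem ward {r : ι → ι → Prop} {h κ : ι → ℝ → ℂ} {w w' : ι → ι → ℝ → ℂ} {ξ dξ : ι → ℝ → ℂ}
    {a : ι → ι → ℝ → ℝ → ℂ} {O : (ι → ℝ) → ℂ} {dO : ι → (ι → ℝ) → ℂ}
    (hh : ∀ i t, HasDerivAt (h i) (κ i t * h i t) t)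
    (hw : ∀ i j u, HasDerivAt (w i j) (w' i j u) u)
    (hξ : ∀ i t, HasDerivAt (ξ i) (dξ i t) t)
    (ha : ∀ i j s t, (ξ i s - ξ j t) * w' i j (s - t) = a i j s t * w i j (s - t))
    (hO : ∀ k t, HasLineDerivAt ℝ O (dO k t) t (Pi.single k 1))
    (h0 : ∀ k, Integrable (fun t : ι → ℝ => ξ k (t k) * (O t * Phi r h w t)))
    (h1 : ∀ k, Integrable (fun t : ι → ℝ => dξ k (t k) * (O t * Phi r h w t)))
    (h2 : ∀ k, Integrable (fun t : ι → ℝ => ξ k (t k) * (dO k t * Phi r h w t)))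
    (h3 : ∀ k, Integrable (fun t : ι → ℝ => ξ k (t k) * (O t * dPhi r h κ w w' k t))) :
    ∫ t : ι → ℝ, ((∑ k, (dξ k (t k) + ξ k (t k) * κ k (t k)) +
      ∑ p ∈ prs r, a p.1 p.2 (t p.1) (t p.2)) * O t + ∑ k, ξ k (t k) * dO k t) * Phi r h w t = 0 := by
  have key : ∀ k, ∫ t : ι → ℝ, (dξ k (t k) * (O t * Phi r h w t) +
      (ξ k (t k) * (dO k t * Phi r h w t) + ξ k (t k) * (O t * dPhi r h κ w w' k t))) = 0 := by
    intro k
    refine integral_lineDeriv_zero (f := fun t : ι → ℝ => ξ k (t k) * (O t * Phi r h w t))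
      (v := Pi.single k 1) (h0 k) ((h1 k).add ((h2 k).add (h3 k))) fun t => ?_
    have e1 : HasLineDerivAt ℝ (fun t : ι → ℝ => ξ k (t k)) (dξ k (t k)) t (Pi.single k 1) := by
      unfold HasLineDerivAt
      have := (hξ k ((t + (0 : ℝ) • (Pi.single k (1 : ℝ) : ι → ℝ)) k)).scomp (0 : ℝ)
        (hasDerivAt_coord t k k)
      rw [coord_zero, if_pos rfl, one_smul] at this
      exact this
    have e2 := hO k t
    have e3 := hasLineDerivAt_Phi (r := r) hh hw k t
    unfold HasLineDerivAt at e1 e2 e3 ⊢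
    have h4 : HasDerivAt (fun s : ℝ => ξ k ((t + s • (Pi.single k (1 : ℝ) : ι → ℝ)) k) *
        (O (t + s • (Pi.single k (1 : ℝ) : ι → ℝ)) *
          Phi r h w (t + s • (Pi.single k (1 : ℝ) : ι → ℝ)))) _ 0 := e1.mul (e2.mul e3)
    refine h4.congr_deriv ?_
    simp only [zero_smul, add_zero]
    ring
  have hs : ∫ t : ι → ℝ, ∑ k, (dξ k (t k) * (O t * Phi r h w t) +
      (ξ k (t k) * (dO k t * Phi r h w t) + ξ k (t k) * (O t * dPhi r h κ w w' k t))) = 0 := by
    have := integral_finsetSum (μ := (volume : Measure (ι → ℝ))) univ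
      (f := fun k t => dξ k (t k) * (O t * Phi r h w t) +
      (ξ k (t k) * (dO k t * Phi r h w t) + ξ k (t k) * (O t * dPhi r h κ w w' k t)))
      fun k _ => (h1 k).add ((h2 k).add (h3 k))
    rw [this]
    exact Finset.sum_eq_zero fun k _ => key k
  rw [← hs]
  refine integral_congr_ae (Filter.Eventually.of_forall fun t => ?_)
  simp only []
  have e := sum_dPhi (r := r) (h := h) (κ := κ) ha t
  have e' : ∑ k, ξ k (t k) * (O t * dPhi r h κ w w' k t) =
      O t * (((∑ k, ξ k (t k) * κ k (t k)) + ∑ p ∈ prs r, a p.1 p.2 (t p.1) (t p.2)) *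
        Phi r h w t) := by
    rw [← e, Finset.mul_sum]
    exact Finset.sum_congr rfl fun k _ => by ring
  simp_rw [Finset.sum_add_distrib]
  rw [e']
  have e2 : ∑ k, dξ k (t k) * (O t * Phi r h w t) = (∑ k, dξ k (t k)) * (O t * Phi r h w t) := by
    rw [Finset.sum_mul]
  have e3 : ∑ k, ξ k (t k) * (dO k t * Phi r h w t) = (∑ k, ξ k (t k) * dO k t) * Phi r h w t := by
    rw [Finset.sum_mul]
    exact Finset.sum_congr rfl fun k _ => by ring
  rw [e2, e3]
  ring

end PB

end
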