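import Pool.Agent.NUP1S.Gen
import Pool.Agent.PB.Parts

/-!
# The Ward identity of one class of objects on vertical lines (helper59)

`Fg o h (pos x t)` = the integrand of one class (`NUP1S/Gen`): objects `i` of species and kind
`o i` at the positions `z_i = x_i + i t_i`, one body functions `h_i`, pair functions `gz`.  Real
vector field `ξ_i(t_i)` on the heights:

`∫ Fg * (∑ i, (ξ_i' + I ξ_i L_i(z_i)) + I / 2 * ∑ i, ∑ j, (ξ_i(t_i) - ξ_j(t_j)) lz_ij(z_i - z_j)) = 0`

with `h_i' = L_i h_i` and `lz` = the logarithmic derivative of the pair function.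
-/

set_option autoImplicit false
set_option linter.unusedSectionVars false

noncomputable section

open Complex MeasureTheory
open scoped Classical

namespace PB

open NUP1 NUP1.Bd NUP1S

/-! ## the pair functions -/

/-- logarithmic derivative of a pair weight -/
def lz (o o' : CO) (z : ℂ) : ℂ := deriv (gz o o') z / gz o o' z

theorem sin_ne_im {z : ℂ} (h : z.im ≠ 0) : sin z ≠ 0 := by
  intro h0
  obtain ⟨k, hk⟩ := Complex.sin_eq_zero_iff.1 h0
  apply h
  rw [hk]
  simp

theorem cos_ne_im {z : ℂ} (h : z.im ≠ 0) : cos z ≠ 0 := by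
  intro h0
  obtain ⟨k, hk⟩ := Complex.cos_eq_zero_iff.1 h0
  apply h
  rw [hk]
  have : ((2 * (k : ℂ) + 1) * Real.pi / 2) = (((2 * (k : ℝ) + 1) * Real.pi / 2 : ℝ) : ℂ) := by
    push_cast
    ring
  rw [this, ofReal_im]

theorem q_ne {z : ℂ} (h : z.im ≠ 0) : q z ≠ 0 := by
  have e0 := sin_ne_im h
  have e1 : sin (z + 2 * l) ≠ 0 := sin_ne_im (by simpa using h)
  have e2 : sin (z - 2 * l) ≠ 0 := sin_ne_im (by simpa using h)
  have e3 : sin (z + l) ≠ 0 := sin_ne_im (by simpa using h)
  have e4 : sin (z - l) ≠ 0 := sin_ne_im (by simpa using h)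
  unfold q
  exact div_ne_zero (neg_ne_zero.2 (mul_ne_zero (mul_ne_zero (pow_ne_zero _ e0) e1) e2))
    (mul_ne_zero e3 e4)

theorem q1_ne {z : ℂ} (h : z.im ≠ 0) : q1 z ≠ 0 := by
  have e0 := sin_ne_im h
  have e1 : sin (z + l) ≠ 0 := sin_ne_im (by simpa using h)
  have e2 : sin (z - 2 * l) ≠ 0 := sin_ne_im (by simpa using h)
  have e3 : sin (z + 3 * l) ≠ 0 := sin_ne_im (by simpa using h)
  unfold q1
  exact mul_ne_zero (mul_ne_zero (mul_ne_zero e0 e1) e2) e3

theorem q2_ne {z : ℂ} (h : z.im ≠ 0) : q2 z ≠ 0 :=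
  mul_ne_zero (q1_ne h) (q1_ne (by simpa using h))

theorem qg_ne {z : ℂ} (h : z.im ≠ 0) : qg z ≠ 0 := by
  have e1 : sin (z + 3 * l) ≠ 0 := sin_ne_im (by simpa using h)
  have e2 : sin (z - 3 * l) ≠ 0 := sin_ne_im (by simpa using h)
  unfold qg
  exact div_ne_zero (pow_ne_zero _ (cos_ne_im h))
    (mul_ne_zero (pow_ne_zero _ e1) (pow_ne_zero _ e2))

theorem pwz_ne {z : ℂ} (h : z.im ≠ 0) (k k' : Ob) : pwz k k' z ≠ 0 := by
  have hn : (-z).im ≠ 0 := by simpa using h
  rcases k with _ | _ | _ <;> rcases k' with _ | _ | _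
  · exact q_ne h
  · exact q_ne h
  · exact q1_ne h
  · exact q_ne h
  · exact q_ne h
  · exact q1_ne h
  · exact q1_ne hn
  · exact q1_ne hn
  · exact q2_ne h

theorem cwz_ne {z : ℂ} (h : z.im ≠ 0) (k k' : Ob) : cwz k k' z ≠ 0 := by
  have hp : (z + l).im ≠ 0 := by simpa using h
  have hm : (z - l).im ≠ 0 := by simpa using h
  rcases k with _ | _ | _ <;> rcases k' with _ | _ | _
  · exact qg_ne h
  · exact qg_ne h
  · exact mul_ne_zero (qg_ne h) (qg_ne hp)
  · exact qg_ne h
  · exact qg_ne h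
  · exact mul_ne_zero (qg_ne h) (qg_ne hp)
  · exact mul_ne_zero (qg_ne h) (qg_ne hm)
  · exact mul_ne_zero (qg_ne h) (qg_ne hm)
  · exact mul_ne_zero (mul_ne_zero (qg_ne h) (qg_ne h)) (mul_ne_zero (qg_ne hp) (qg_ne hm))

/-- **no zeros off the real axis** -/
theorem gz_ne {o o' : CO} {z : ℂ} (h : z.im ≠ 0) : gz o o' z ≠ 0 := by
  unfold gz
  by_cases hc : o.1 = o'.1
  · rw [if_pos hc]
    exact pwz_ne h _ _
  · rw [if_neg hc]
    exact cwz_ne h _ _

/-- `lz` is antisymmetric -/
theorem lz_symm (o o' : CO) (z : ℂ) : lz o o' z = -lz o' o (-z) := by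
  have h : gz o o' = fun w => gz o' o (-w) := funext fun w => gz_symm o o' w
  unfold lz
  rw [h, deriv_comp_neg]
  simp only [neg_div]

theorem measurable_lz (o o' : CO) : Measurable (lz o o') :=
  (measurable_deriv _).div (measurable_gz _ _)

/-- the condition on the difference of the lines is open -/
theorem isOpen_Ok (o o' : CO) : IsOpen {d : ℝ | Ok o o' d} := by
  have h : {d : ℝ | Ok o o' d} = ⋂ s ∈ {s | s ∈ poles o o'}, {d : ℝ | Real.sin (d + s) ≠ 0} := by
    ext d
    simp [Ok]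
  rw [h]
  refine (List.finite_toSet (poles o o')).isOpen_biInter fun s _ => ?_
  exact isOpen_ne_fun (by fun_prop) continuous_const

/-- a compact interval of admissible differences -/
theorem Ok_nhds {o o' : CO} {d : ℝ} (h : Ok o o' d) :
    ∃ δ : ℝ, 0 < δ ∧ ∀ d' ∈ Set.Icc (d - δ) (d + δ), Ok o o' d' := by
  obtain ⟨ε, hε, hb⟩ := Metric.isOpen_iff.1 (isOpen_Ok o o') d h
  refine ⟨ε / 2, half_pos hε, fun d' hd' => hb ?_⟩
  rw [Metric.mem_ball, Real.dist_eq, abs_lt]
  obtain ⟨h1, h2⟩ := hd'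
  constructor <;> linarith

/-- **bound of the derivative of a pair weight on a line** -/
theorem bdd_dgz {o o' : CO} {d : ℝ} (h : Ok o o' d) :
    Bdd {d} (rt o o') (deriv (gz o o')) := by
  obtain ⟨δ, hδ, hO⟩ := Ok_nhds h
  obtain ⟨C, hC, hb⟩ := bdd_gz isCompact_Icc o o' hO
  refine ⟨C * Real.exp (|rt o o'| * δ) / δ, by positivity, fun z hz => ?_⟩
  rw [Set.mem_singleton_iff] at hz
  have hre : ∀ w : ℂ, w ∈ Metric.closedBall z δ → w.re ∈ Set.Icc (d - δ) (d + δ) := by
    intro w hw
    rw [Metric.mem_closedBall, dist_eq_norm] at hw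
    have h1 := (abs_re_le_norm (w - z)).trans hw
    rw [sub_re, hz, abs_le] at h1
    constructor <;> linarith [h1.1, h1.2]
  have hd : DiffContOnCl ℂ (gz o o') (Metric.ball z δ) := by
    refine DifferentiableOn.diffContOnCl_ball (U := Metric.closedBall z δ) ?_ subset_rfl
    exact fun w hw => (differentiableAt_gz o o' (hO _ (hre w hw))).differentiableWithinAt
  have hs : ∀ w ∈ Metric.sphere z δ,
      ‖gz o o' w‖ ≤ C * Real.exp (|rt o o'| * δ) * Real.exp (rt o o' * |z.im|) := by
    intro w hw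
    have hw' : w ∈ Metric.closedBall z δ := Metric.sphere_subset_closedBall hw
    refine (hb w (hre w hw')).trans ?_
    rw [mul_assoc, ← Real.exp_add]
    refine mul_le_mul_of_nonneg_left (Real.exp_le_exp.2 ?_) hC
    have h1 : |w.im - z.im| ≤ δ := by
      rw [Metric.mem_closedBall, dist_eq_norm] at hw'
      have := (abs_im_le_norm (w - z)).trans hw'
      rwa [sub_im] at this
    have h2 : |(|w.im| - |z.im|)| ≤ δ := (abs_abs_sub_abs_le_abs_sub _ _).trans h1
    have h3 : rt o o' * (|w.im| - |z.im|) ≤ |rt o o'| * δ :=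
      (le_abs_self _).trans (by rw [abs_mul]; exact mul_le_mul_of_nonneg_left h2 (abs_nonneg _))
    linarith
  refine (norm_deriv_le_of_forall_mem_sphere_norm_le hδ hd hs).trans (le_of_eq ?_)
  ring

/-! ## products over pairs -/

variable {ι : Type*} [Fintype ι]

theorem PU_mul (f g : ι → ι → ℂ) : PU (fun a b => f a b * g a b) = PU f * PU g := by
  unfold PU PR
  rw [← Finset.prod_mul_distrib]
  refine Finset.prod_congr rfl fun a _ => ?_
  rw [← Finset.prod_mul_distrib]
  refine Finset.prod_congr rfl fun b _ => ?_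
  split_ifs <;> simp

/-- the function which is `v` at one pair and `1` elsewhere -/
def e2 (a b : ι) (v : ℂ) (c d : ι) : ℂ := if (c = a ∧ d = b) ∨ (c = b ∧ d = a) then v else 1

theorem e2_symm (a b : ι) (v : ℂ) : e2 a b v = e2 b a v := by
  funext c d
  unfold e2
  by_cases h : (c = a ∧ d = b) ∨ (c = b ∧ d = a)
  · rw [if_pos h, if_pos h.symm]
  · rw [if_neg h, if_neg fun h' => h h'.symm]

theorem PU_e2_aux {a b : ι} (hab : er ι a b) (v : ℂ) : PU (e2 a b v) = v := by
  have hne : a ≠ b := by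
    rintro rfl
    exact (tour_er ι).irr _ hab
  have hba : ¬ er ι b a := ((tour_er ι).tot a b hne).1 hab
  unfold PU PR
  rw [Finset.prod_eq_single a, Finset.prod_eq_single b]
  · rw [if_pos hab]
    simp [e2]
  · intro d _ hd
    split_ifs
    · unfold e2
      rw [if_neg]
      rintro (⟨-, h⟩ | ⟨h, -⟩)
      · exact hd h
      · exact hne h
    · rfl
  · intro h
    exact absurd (Finset.mem_univ _) h
  · intro c _ hc
    refine Finset.prod_eq_one fun d _ => ?_
    split_ifs with h
    · unfold e2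
      rw [if_neg]
      rintro (⟨h1, -⟩ | ⟨h1, h2⟩)
      · exact hc h1
      · rw [h1, h2] at h
        exact hba h
    · rfl
  · intro h
    exact absurd (Finset.mem_univ _) h

theorem PU_e2 {a b : ι} (hab : a ≠ b) (v : ℂ) : PU (e2 a b v) = v := by
  by_cases h : er ι a b
  · exact PU_e2_aux h v
  · have h' : er ι b a := by
      by_contra h2
      exact h (((tour_er ι).tot a b hab).2 h2)
    rw [e2_symm]
    exact PU_e2_aux h' v

/-- bound of the integrand with general pair functions -/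
theorem gen_norm_le {o : ι → CO} (hn : ∑ i, sc (o i) = 0) {h : ι → ℂ → ℂ} {z : ι → ℂ}
    {f : ι → ι → ℂ} {C D κ : ℝ} (hC : 1 ≤ C)
    (hh : ∀ i, ‖h i (z i)‖ ≤ D * Real.exp (-(κ * |(z i).im|)))
    (hg : ∀ a b, a ≠ b → ‖f a b‖ ≤ C * Real.exp (rt (o a) (o b) * |(z a - z b).im|)) :
    ‖(∏ i, h i (z i)) * PU f‖ ≤ D ^ Fintype.card ι * C ^ (Fintype.card ι * Fintype.card ι) *
      ∏ i, Real.exp (-(κ * |(z i).im|)) := by
  rw [norm_mul, norm_prod]
  have e1 : ∏ i, ‖h i (z i)‖ ≤ D ^ Fintype.card ι * ∏ i, Real.exp (-(κ * |(z i).im|)) := by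
    refine (Finset.prod_le_prod (fun i _ => norm_nonneg _) fun i _ => hh i).trans (le_of_eq ?_)
    rw [Finset.prod_mul_distrib, Finset.prod_const, Finset.card_univ]
  have e2 := PU_norm_le f
    (fun a b => sc (o a) * sc (o b) * |(z a).im - (z b).im|)
    (fun a b => by rw [abs_sub_comm]; ring) (fun a => by simp) hC (fun a b hab => by
      refine (hg a b hab).trans (le_of_eq ?_)
      rw [sub_im]
      unfold rt
      ring_nf)
  have e3 := energy_nonpos (Finset.univ : Finset ι) (fun i => sc (o i)) (fun i => (z i).im) hn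
  have hC0 : 0 ≤ C := zero_le_one.trans hC
  calc _ ≤ (D ^ Fintype.card ι * ∏ i, Real.exp (-(κ * |(z i).im|))) *
        (C ^ (Fintype.card ι * Fintype.card ι) *
          Real.exp (∑ a, ∑ b, sc (o a) * sc (o b) * |(z a).im - (z b).im|)) :=
        mul_le_mul e1 e2 (norm_nonneg _)
          ((Finset.prod_nonneg fun i _ => norm_nonneg _).trans e1)
    _ = (D ^ Fintype.card ι * ∏ i, Real.exp (-(κ * |(z i).im|))) *
        C ^ (Fintype.card ι * Fintype.card ι) *
          Real.exp (∑ a, ∑ b, sc (o a) * sc (o b) * |(z a).im - (z b).im|) := by ring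
    _ ≤ (D ^ Fintype.card ι * ∏ i, Real.exp (-(κ * |(z i).im|))) *
        C ^ (Fintype.card ι * Fintype.card ι) := by
        refine mul_le_of_le_one_right ?_ (Real.exp_le_one_iff.2 e3)
        exact mul_nonneg ((Finset.prod_nonneg fun i _ => norm_nonneg _).trans e1)
          (pow_nonneg hC0 _)
    _ = _ := by ring

/-! ## the positions -/

theorem pos_update (x t : ι → ℝ) (i : ι) (s : ℝ) :
    pos x (t + s • Pi.single i (1 : ℝ)) = Function.update (pos x t) i (pos x t i + I * s) := by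
  funext j
  by_cases hj : j = i
  · subst hj
    rw [Function.update_self]
    unfold pos vl
    simp only [Pi.add_apply, Pi.smul_apply, Pi.single_eq_same, smul_eq_mul, mul_one]
    push_cast
    ring
  · rw [Function.update_of_ne hj]
    unfold pos vl
    simp [Pi.single_eq_of_ne hj]

/-- almost all configurations have different heights -/
theorem ae_ne : ∀ᵐ t : ι → ℝ ∂(Measure.pi fun _ => volume), ∀ a b, a ≠ b → t a ≠ t b := by
  rw [ae_all_iff]
  intro a
  rw [ae_all_iff]
  intro b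
  by_cases hab : a = b
  · exact Filter.Eventually.of_forall fun t h => absurd hab h
  · have h1 : ∀ᵐ t : ι → ℝ ∂(Measure.pi fun _ => volume), t ∉ {t : ι → ℝ | t a = t b} := by
      rw [← measure_eq_zero_iff_ae_notMem, ← volume_pi]
      let p : Submodule ℝ (ι → ℝ) :=
        LinearMap.ker ((LinearMap.proj a : (ι → ℝ) →ₗ[ℝ] ℝ) - LinearMap.proj b)
      have hp : p ≠ ⊤ := by
        intro h
        have h2 : (Pi.single a (1 : ℝ) : ι → ℝ) ∈ p := by
          rw [h]
          trivial
        have h3 : (Pi.single a (1 : ℝ) : ι → ℝ) a - (Pi.single a (1 : ℝ) : ι → ℝ) b = 0 := h2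
        rw [Pi.single_eq_same, Pi.single_eq_of_ne (Ne.symm hab)] at h3
        norm_num at h3
      have h4 : {t : ι → ℝ | t a = t b} = (p : Set (ι → ℝ)) := by
        ext t
        simp only [p, Set.mem_ofPred_eq, SetLike.mem_coe, LinearMap.mem_ker, LinearMap.sub_apply,
          LinearMap.proj_apply, sub_eq_zero]
      rw [h4]
      exact Measure.addHaar_submodule volume p hp
    filter_upwards [h1] with t ht _ h
    exact ht h

/-! ## the integrand as a gas on lines -/

/-- one body functions on the lines -/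
def hT (h : ι → ℂ → ℂ) (x : ι → ℝ) (i : ι) (t : ℝ) : ℂ := h i (vl (x i) t)

/-- pair functions on the lines -/
def wT (o : ι → CO) (x : ι → ℝ) (i j : ι) (u : ℝ) : ℂ := gz (o i) (o j) (vl (x i - x j) u)

/-- their derivatives -/
def wT' (o : ι → CO) (x : ι → ℝ) (i j : ι) (u : ℝ) : ℂ :=
  I * deriv (gz (o i) (o j)) (vl (x i - x j) u)

theorem pos_sub (x t : ι → ℝ) (a b : ι) :
    pos x t a - pos x t b = vl (x a - x b) (t a - t b) := by
  unfold pos vl
  push_cast
  ring

theorem PU_prs (f : ι → ι → ℂ) : PU f = ∏ p ∈ prs (er ι), f p.1 p.2 := by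
  unfold PU PR prs
  rw [Finset.prod_filter, ← Finset.univ_product_univ, Finset.prod_product]

/-- **the integrand of a class is a gas on lines** -/
theorem Fg_eq_Phi (o : ι → CO) (h : ι → ℂ → ℂ) (x t : ι → ℝ) :
    Fg o h (pos x t) = Phi (er ι) (hT h x) (wT o x) t := by
  unfold Fg Phi
  rw [PU_prs]
  congr 1
  exact Finset.prod_congr rfl fun p _ => by rw [pos_sub]; rfl

theorem Ok_self (o : CO) : Ok o o 0 := by
  obtain ⟨c, k⟩ := o
  have h1 : Real.sin l ≠ 0 := by
    have := abs_sin_pos (x := l) (by rw [abs_of_pos l_pos]; exact l_pos)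
      (by rw [abs_of_pos l_pos]; linarith [l_pos])
    exact abs_pos.1 this
  intro s hs
  unfold poles at hs
  rcases k with _ | _ | _
  · simp only [if_true, List.mem_cons, List.not_mem_nil, or_false] at hs
    rcases hs with rfl | rfl
    · rwa [zero_add]
    · rw [zero_add, Real.sin_neg]
      exact neg_ne_zero.2 h1
  · simp only [if_true, List.mem_cons, List.not_mem_nil, or_false] at hs
    rcases hs with rfl | rfl
    · rwa [zero_add]
    · rw [zero_add, Real.sin_neg]
      exact neg_ne_zero.2 h1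
  · simp only [if_true, List.not_mem_nil] at hs

theorem Ok_all {o : ι → CO} {x : ι → ℝ} (hg : ∀ a b, a ≠ b → Ok (o a) (o b) (x a - x b))
    (a b : ι) : Ok (o a) (o b) (x a - x b) := by
  by_cases hab : a = b
  · subst hab
    rw [sub_self]
    exact Ok_self _
  · exact hg a b hab

theorem hasDerivAt_vl (σ t : ℝ) : HasDerivAt (fun s : ℝ => vl σ s) I t := by
  unfold vl
  simpa using ((Complex.ofRealCLM.hasDerivAt (x := t)).mul_const I).const_add (σ : ℂ)

theorem hasDerivAt_wT {o : ι → CO} {x : ι → ℝ}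
    (hg : ∀ a b, a ≠ b → Ok (o a) (o b) (x a - x b)) (i j : ι) (u : ℝ) :
    HasDerivAt (wT o x i j) (wT' o x i j u) u := by
  have h1 : HasDerivAt (gz (o i) (o j)) (deriv (gz (o i) (o j)) (vl (x i - x j) u))
      (vl (x i - x j) u) := by
    refine (differentiableAt_gz _ _ ?_).hasDerivAt
    rw [re_vl]
    exact Ok_all hg i j
  have h2 := h1.comp u (hasDerivAt_vl (x i - x j) u)
  unfold wT wT'
  rw [mul_comm]
  exact h2

theorem hasDerivAt_hT {h L : ι → ℂ → ℂ} {x : ι → ℝ}
    (hL : ∀ i z, z.re = x i → HasDerivAt (h i) (L i z * h i z) z) (i : ι) (t : ℝ) :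
    HasDerivAt (hT h x i) ((I * L i (vl (x i) t)) * hT h x i t) t := by
  have h2 := (hL i (vl (x i) t) (by rw [re_vl])).comp t (hasDerivAt_vl (x i) t)
  refine h2.congr_deriv ?_
  unfold hT
  ring

/-! ## integrability -/

section integ

variable {o : ι → CO} {h L : ι → ℂ → ℂ} {x : ι → ℝ} {κ : ℝ}

/-- a bounded factor -/
theorem int_mul {ζ F : (ι → ℝ) → ℂ} {B : ℝ} (hF : Integrable F)
    (hζ : AEStronglyMeasurable ζ) (hB : ∀ t, ‖ζ t‖ ≤ B) : Integrable (fun t => ζ t * F t) :=
  hF.bdd_mul hζ (Filter.Eventually.of_forall hB)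

/-- **the integrand** -/
theorem int_Phi (hn : ∑ i, sc (o i) = 0) (hκ : 0 < κ) (hm : ∀ i, Measurable (h i))
    (hh : ∀ i, DecOn κ {x i} (h i)) (hg : ∀ a b, a ≠ b → Ok (o a) (o b) (x a - x b)) :
    Integrable (Phi (er ι) (hT h x) (wT o x)) := by
  have := integrable_Fg hn hκ hm hh hg
  simp_rw [Fg_eq_Phi] at this
  exact this

/-- the integrand with one pair differentiated -/
theorem PhiP_eq (t : ι → ℝ) (p : ι × ι) (hp : p ∈ prs (er ι)) :
    PhiP (er ι) (hT h x) (wT o x) (wT' o x) t p = (∏ i, h i (pos x t i)) *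
      PU fun a b => if (a, b) = p then wT' o x p.1 p.2 (t p.1 - t p.2) else
        wT o x a b (t a - t b) := by
  unfold PhiP
  rw [PU_prs, ← Finset.mul_prod_erase (prs (er ι)) _ hp]
  congr 2
  · rw [if_pos rfl]
  · refine Finset.prod_congr rfl fun q hq => ?_
    rw [if_neg (Finset.ne_of_mem_erase hq)]

theorem measurable_wT (i j : ι) : Measurable (wT o x i j) := by
  unfold wT
  refine (measurable_gz _ _).comp ?_
  unfold vl
  fun_prop

theorem measurable_wT' (i j : ι) : Measurable (wT' o x i j) := by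
  unfold wT'
  refine ((measurable_deriv _).comp ?_).const_mul I
  unfold vl
  fun_prop

theorem measurable_hT (hm : ∀ i, Measurable (h i)) (i : ι) : Measurable (hT h x i) := by
  unfold hT
  refine (hm i).comp ?_
  unfold vl
  fun_prop

theorem measurable_PhiP (hm : ∀ i, Measurable (h i)) (p : ι × ι) :
    Measurable fun t => PhiP (er ι) (hT h x) (wT o x) (wT' o x) t p := by
  unfold PhiP
  refine Measurable.mul ?_ (Measurable.mul ?_ ?_)
  · exact Finset.measurable_prod _ fun i _ => (measurable_hT hm i).comp (measurable_pi_apply i)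
  · exact (measurable_wT' p.1 p.2).comp
      ((measurable_pi_apply p.1).sub (measurable_pi_apply p.2))
  · exact Finset.measurable_prod _ fun q _ => (measurable_wT q.1 q.2).comp
      ((measurable_pi_apply q.1).sub (measurable_pi_apply q.2))

/-- **integrability with one pair differentiated** -/
theorem int_PhiP (hn : ∑ i, sc (o i) = 0) (hκ : 0 < κ) (hm : ∀ i, Measurable (h i))
    (hh : ∀ i, DecOn κ {x i} (h i)) (hg : ∀ a b, a ≠ b → Ok (o a) (o b) (x a - x b))
    (p : ι × ι) (hp : p ∈ prs (er ι)) :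
    Integrable fun t => PhiP (er ι) (hT h x) (wT o x) (wT' o x) t p := by
  have hpne : p.1 ≠ p.2 := by
    intro h0
    have : er ι p.1 p.2 := by simpa [prs] using hp
    rw [h0] at this
    exact (tour_er ι).irr _ this
  obtain ⟨D, hD, hh⟩ := DecOn.const h _ hh
  obtain ⟨C, hC, hg'⟩ := gz_const o (fun a b => {x a - x b}) (fun a b => isCompact_singleton)
    (fun a b hab d hd => by
      rw [Set.mem_singleton_iff] at hd
      rw [hd]
      exact hg a b hab)
  obtain ⟨C', hC', hd'⟩ := bdd_dgz (hg p.1 p.2 hpne)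
  have hC0 : 0 ≤ C := zero_le_one.trans hC
  refine ((integrable_prod_exp' (ι := ι) hκ).const_mul
    (D ^ Fintype.card ι * (C + C') ^ (Fintype.card ι * Fintype.card ι))).mono'
    (measurable_PhiP hm p).aestronglyMeasurable (Filter.Eventually.of_forall fun t => ?_)
  rw [PhiP_eq t p hp]
  have := gen_norm_le hn (h := h) (z := pos x t) (D := D) (κ := κ) (C := C + C')
    (f := fun a b => if (a, b) = p then wT' o x p.1 p.2 (t p.1 - t p.2) else
        wT o x a b (t a - t b)) (by linarith)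
    (fun i => hh i _ (by simp)) (fun a b hab => by
      split_ifs with he
      · subst he
        unfold wT'
        rw [norm_mul, norm_I, one_mul, pos_sub]
        refine (hd' _ (by rw [re_vl]; rfl)).trans ?_
        exact mul_le_mul_of_nonneg_right (by linarith) (Real.exp_pos _).le
      · unfold wT
        rw [pos_sub]
        refine (hg' a b hab _ (by rw [re_vl]; rfl)).trans ?_
        exact mul_le_mul_of_nonneg_right (by linarith) (Real.exp_pos _).le)
  simpa using this

/-- **integrability of the partial derivatives** -/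
theorem int_dPhi (hn : ∑ i, sc (o i) = 0) (hκ : 0 < κ) (hm : ∀ i, Measurable (h i))
    (hmL : ∀ i, Measurable (L i)) (hh : ∀ i, DecOn κ {x i} (h i))
    (hhL : ∀ i, DecOn κ {x i} (fun z => L i z * h i z))
    (hg : ∀ a b, a ≠ b → Ok (o a) (o b) (x a - x b)) (k : ι) :
    Integrable fun t => dPhi (er ι) (hT h x) (fun i t => I * L i (vl (x i) t)) (wT o x)
      (wT' o x) k t := by
  unfold dPhi
  refine Integrable.add ?_ (integrable_finsetSum _ fun p hp => ?_)
  · have h1 := int_Phi (h := Function.update h k fun z => L k z * h k z) (x := x) hn hκ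
      (fun i => by
        by_cases hi : i = k
        · subst hi
          rw [Function.update_self]
          exact (hmL i).mul (hm i)
        · rw [Function.update_of_ne hi]
          exact hm i)
      (fun i => by
        by_cases hi : i = k
        · subst hi
          rw [Function.update_self]
          exact hhL i
        · rw [Function.update_of_ne hi]
          exact hh i) hg
    refine (h1.const_mul I).congr (Filter.Eventually.of_forall fun t => ?_)
    simp only []
    unfold Phi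
    rw [← Finset.mul_prod_erase Finset.univ _ (Finset.mem_univ k),
      ← Finset.mul_prod_erase Finset.univ (fun i => hT h x i (t i)) (Finset.mem_univ k)]
    have e : ∏ i ∈ Finset.univ.erase k,
        hT (Function.update h k fun z => L k z * h k z) x i (t i) =
        ∏ i ∈ Finset.univ.erase k, hT h x i (t i) := by
      refine Finset.prod_congr rfl fun i hi => ?_
      unfold hT
      rw [Function.update_of_ne (Finset.ne_of_mem_erase hi)]
    rw [e]
    unfold hT
    rw [Function.update_self]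
    ring
  · exact (int_PhiP hn hκ hm hh hg p hp).const_mul _

end integ

/-! ## the Ward identity -/

/-- the sum of the partial derivatives at one configuration -/
theorem sum_dPhi_at {r : ι → ι → Prop} {h κ : ι → ℝ → ℂ} {w w' : ι → ι → ℝ → ℂ}
    {ξ : ι → ℝ → ℂ} {a : ι → ι → ℝ → ℝ → ℂ} (t : ι → ℝ)
    (ha : ∀ p ∈ prs r, (ξ p.1 (t p.1) - ξ p.2 (t p.2)) * w' p.1 p.2 (t p.1 - t p.2) =
      a p.1 p.2 (t p.1) (t p.2) * w p.1 p.2 (t p.1 - t p.2)) :
    ∑ k, ξ k (t k) * dPhi r h κ w w' k t =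
      ((∑ k, ξ k (t k) * κ k (t k)) + ∑ p ∈ prs r, a p.1 p.2 (t p.1) (t p.2)) * Phi r h w t := by
  unfold dPhi
  simp_rw [mul_add]
  rw [Finset.sum_add_distrib, add_mul, Finset.sum_mul, Finset.sum_mul]
  congr 1
  · exact Finset.sum_congr rfl fun k _ => by ring
  · simp_rw [Finset.mul_sum]
    rw [Finset.sum_comm]
    refine Finset.sum_congr rfl fun p hp => ?_
    have e1 : ∑ k, ξ k (t k) * (((if p.1 = k then (1 : ℂ) else 0) -
        (if p.2 = k then (1 : ℂ) else 0)) * PhiP r h w w' t p) =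
        (ξ p.1 (t p.1) - ξ p.2 (t p.2)) * PhiP r h w w' t p := by
      have : ∀ k, ξ k (t k) * (((if p.1 = k then (1 : ℂ) else 0) -
        (if p.2 = k then (1 : ℂ) else 0)) * PhiP r h w w' t p) =
        (if p.1 = k then ξ k (t k) else 0) * PhiP r h w w' t p -
        (if p.2 = k then ξ k (t k) else 0) * PhiP r h w w' t p := by
        intro k
        split_ifs <;> ring
      simp_rw [this]
      rw [Finset.sum_sub_distrib, ← Finset.sum_mul, ← Finset.sum_mul, Finset.sum_ite_eq,
        Finset.sum_ite_eq]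
      simp only [Finset.mem_univ, if_true]
      ring
    rw [e1]
    unfold PhiP Phi
    rw [← Finset.mul_prod_erase (prs r) (fun q => w q.1 q.2 (t q.1 - t q.2)) hp]
    have := ha p hp
    calc _ = (∏ i, h i (t i)) * (((ξ p.1 (t p.1) - ξ p.2 (t p.2)) * w' p.1 p.2 (t p.1 - t p.2)) *
          ∏ q ∈ (prs r).erase p, w q.1 q.2 (t q.1 - t q.2)) := by ring
      _ = _ := by rw [this]; ring

/-- the pair term off the diagonal: `a = (ξ - ξ) I lz` satisfies the hypothesis of `ward` -/
theorem pair_rel {o : ι → CO} {x : ι → ℝ} {i j : ι} {s t : ℝ} (hst : s ≠ t) {d c : ℂ}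
    (hc : c = d * (I * lz (o i) (o j) (vl (x i) s - vl (x j) t))) :
    d * wT' o x i j (s - t) = c * wT o x i j (s - t) := by
  have e : vl (x i) s - vl (x j) t = vl (x i - x j) (s - t) := by
    unfold vl
    push_cast
    ring
  have h0 : gz (o i) (o j) (vl (x i - x j) (s - t)) ≠ 0 := by
    refine gz_ne ?_
    rw [im_vl]
    exact sub_ne_zero.2 hst
  rw [hc, e]
  unfold wT wT' lz
  rw [mul_assoc, mul_assoc, div_mul_cancel₀ _ h0]

/-- **the Ward identity of a class**, all kinds of objects, insertion `O` -/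
theorem ward_Ig {o : ι → CO} (hn : ∑ i, sc (o i) = 0) {h L : ι → ℂ → ℂ} {x : ι → ℝ} {κ : ℝ}
    (hκ : 0 < κ) (hm : ∀ i, Measurable (h i)) (hmL : ∀ i, Measurable (L i))
    (hh : ∀ i, DecOn κ {x i} (h i)) (hhL : ∀ i, DecOn κ {x i} (fun z => L i z * h i z))
    (hL : ∀ i z, z.re = x i → HasDerivAt (h i) (L i z * h i z) z)
    (hg : ∀ a b, a ≠ b → Ok (o a) (o b) (x a - x b))
    {ξ dξ : ι → ℝ → ℂ} {B : ℝ} (hξ : ∀ i t, HasDerivAt (ξ i) (dξ i t) t)
    (hξB : ∀ i t, ‖ξ i t‖ ≤ B) (hdB : ∀ i t, ‖dξ i t‖ ≤ B)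
    {a : ι → ι → ℝ → ℝ → ℂ} (ha : ∀ i j s t, i ≠ j → s ≠ t → a i j s t =
      (ξ i s - ξ j t) * (I * lz (o i) (o j) (vl (x i) s - vl (x j) t)))
    {O : (ι → ℝ) → ℂ} {dO : ι → (ι → ℝ) → ℂ}
    (hO : ∀ k t, HasLineDerivAt ℝ O (dO k t) t (Pi.single k 1))
    (hOm : AEStronglyMeasurable O) (hdOm : ∀ k, AEStronglyMeasurable (dO k))
    {B' : ℝ} (hOB : ∀ t, ‖O t‖ ≤ B') (hdOB : ∀ k t, ‖dO k t‖ ≤ B') :
    ∫ t : ι → ℝ, ((∑ k, (dξ k (t k) + ξ k (t k) * (I * L k (pos x t k))) +
      ∑ p ∈ prs (er ι), a p.1 p.2 (t p.1) (t p.2)) * O t + ∑ k, ξ k (t k) * dO k t) *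
      Fg o h (pos x t) = 0 := by
  have mξ : ∀ i, Measurable (ξ i) := fun i =>
    (continuous_iff_continuousAt.2 fun t => (hξ i t).continuousAt).measurable
  have mdξ : ∀ i, Measurable (dξ i) := fun i => by
    have : dξ i = deriv (ξ i) := funext fun t => ((hξ i t).deriv).symm
    rw [this]
    exact measurable_deriv _
  have mξ' : ∀ k, AEStronglyMeasurable (fun t : ι → ℝ => ξ k (t k)) := fun k =>
    ((mξ k).comp (measurable_pi_apply k)).aestronglyMeasurable
  have mdξ' : ∀ k, AEStronglyMeasurable (fun t : ι → ℝ => dξ k (t k)) := fun k =>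
    ((mdξ k).comp (measurable_pi_apply k)).aestronglyMeasurable
  have iP := int_Phi hn hκ hm hh hg
  have iD := int_dPhi hn hκ hm hmL hh hhL hg
  have h0 : ∀ k, Integrable (fun t : ι → ℝ => ξ k (t k) * (O t * Phi (er ι) (hT h x) (wT o x) t)) :=
    fun k => int_mul (int_mul iP hOm hOB) (mξ' k) fun t => hξB k _
  have h1 : ∀ k, Integrable (fun t : ι → ℝ => dξ k (t k) * (O t * Phi (er ι) (hT h x) (wT o x) t)) :=
    fun k => int_mul (int_mul iP hOm hOB) (mdξ' k) fun t => hdB k _
  have h2 : ∀ k, Integrable (fun t : ι → ℝ => ξ k (t k) * (dO k t * Phi (er ι) (hT h x) (wT o x) t)) :=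
    fun k => int_mul (int_mul iP (hdOm k) (hdOB k)) (mξ' k) fun t => hξB k _
  have h3 : ∀ k, Integrable (fun t : ι → ℝ => ξ k (t k) * (O t * dPhi (er ι) (hT h x)
      (fun i t => I * L i (vl (x i) t)) (wT o x) (wT' o x) k t)) :=
    fun k => int_mul (int_mul (iD k) hOm hOB) (mξ' k) fun t => hξB k _
  have key : ∀ k, ∫ t : ι → ℝ, (dξ k (t k) * (O t * Phi (er ι) (hT h x) (wT o x) t) +
      (ξ k (t k) * (dO k t * Phi (er ι) (hT h x) (wT o x) t) + ξ k (t k) * (O t *
        dPhi (er ι) (hT h x) (fun i t => I * L i (vl (x i) t)) (wT o x) (wT' o x) k t))) = 0 := by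
    intro k
    refine integral_lineDeriv_zero
      (f := fun t : ι → ℝ => ξ k (t k) * (O t * Phi (er ι) (hT h x) (wT o x) t))
      (v := Pi.single k 1) (h0 k) ((h1 k).add ((h2 k).add (h3 k))) fun t => ?_
    have e1 : HasLineDerivAt ℝ (fun t : ι → ℝ => ξ k (t k)) (dξ k (t k)) t (Pi.single k 1) := by
      unfold HasLineDerivAt
      have := (hξ k ((t + (0 : ℝ) • (Pi.single k (1 : ℝ) : ι → ℝ)) k)).scomp (0 : ℝ)
        (hasDerivAt_coord t k k)
      rw [coord_zero, if_pos rfl, one_smul] at this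
      exact this
    have e2 := hO k t
    have e3 := hasLineDerivAt_Phi (r := er ι) (hasDerivAt_hT hL) (hasDerivAt_wT hg) k t
    unfold HasLineDerivAt at e1 e2 e3 ⊢
    have h4 : HasDerivAt (fun s : ℝ => ξ k ((t + s • (Pi.single k (1 : ℝ) : ι → ℝ)) k) *
        (O (t + s • (Pi.single k (1 : ℝ) : ι → ℝ)) *
          Phi (er ι) (hT h x) (wT o x) (t + s • (Pi.single k (1 : ℝ) : ι → ℝ)))) _ 0 :=
      e1.mul (e2.mul e3)
    refine h4.congr_deriv ?_
    simp only [zero_smul, add_zero]
    ring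
  have hs : ∫ t : ι → ℝ, ∑ k, (dξ k (t k) * (O t * Phi (er ι) (hT h x) (wT o x) t) +
      (ξ k (t k) * (dO k t * Phi (er ι) (hT h x) (wT o x) t) + ξ k (t k) * (O t *
        dPhi (er ι) (hT h x) (fun i t => I * L i (vl (x i) t)) (wT o x) (wT' o x) k t))) = 0 := by
    have := integral_finsetSum (μ := (volume : Measure (ι → ℝ))) Finset.univ
      (f := fun k t => dξ k (t k) * (O t * Phi (er ι) (hT h x) (wT o x) t) +
      (ξ k (t k) * (dO k t * Phi (er ι) (hT h x) (wT o x) t) + ξ k (t k) * (O t *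
        dPhi (er ι) (hT h x) (fun i t => I * L i (vl (x i) t)) (wT o x) (wT' o x) k t)))
      fun k _ => (h1 k).add ((h2 k).add (h3 k))
    rw [this]
    exact Finset.sum_eq_zero fun k _ => key k
  rw [← hs]
  have hae : ∀ᵐ t : ι → ℝ, ∀ a b, a ≠ b → t a ≠ t b := ae_ne
  refine integral_congr_ae (hae.mono fun t ht => ?_)
  simp only []
  have hne : ∀ p ∈ prs (er ι), p.1 ≠ p.2 := by
    intro p hp h0
    have : er ι p.1 p.2 := by simpa [prs] using hp
    rw [h0] at this
    exact (tour_er ι).irr _ this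
  have e := sum_dPhi_at (r := er ι) (h := hT h x) (κ := fun i t => I * L i (vl (x i) t))
    (w := wT o x) (w' := wT' o x) (ξ := ξ) (a := a) t fun p hp =>
      pair_rel (ht p.1 p.2 (hne p hp)) (ha p.1 p.2 _ _ (hne p hp) (ht p.1 p.2 (hne p hp)))
  have e' : ∑ k, ξ k (t k) * (O t * dPhi (er ι) (hT h x)
      (fun i t => I * L i (vl (x i) t)) (wT o x) (wT' o x) k t) =
      O t * (((∑ k, ξ k (t k) * (I * L k (vl (x k) (t k)))) +
        ∑ p ∈ prs (er ι), a p.1 p.2 (t p.1) (t p.2)) * Phi (er ι) (hT h x) (wT o x) t) := by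
    rw [← e, Finset.mul_sum]
    exact Finset.sum_congr rfl fun k _ => by ring
  simp_rw [Finset.sum_add_distrib]
  rw [e', Fg_eq_Phi]
  have e2 : ∑ k, dξ k (t k) * (O t * Phi (er ι) (hT h x) (wT o x) t) =
      (∑ k, dξ k (t k)) * (O t * Phi (er ι) (hT h x) (wT o x) t) := by
    rw [Finset.sum_mul]
  have e3 : ∑ k, ξ k (t k) * (dO k t * Phi (er ι) (hT h x) (wT o x) t) =
      (∑ k, ξ k (t k) * dO k t) * Phi (er ι) (hT h x) (wT o x) t := by
    rw [Finset.sum_mul]
    exact Finset.sum_congr rfl fun k _ => by ring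
  rw [e2, e3]
  unfold pos
  ring

end PB

end
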