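import Pool.Agent.PB.ForceO
import Pool.Agent.PB.WardIg
import Pool.Agent.NURow.One


/-!
# Plan B: the mean force on the objects; the convective term vanishes

Positions are absolute (the line `A` is `Re u = l`), `w` = head of an object, a string consists of
`w` and `w - l`.  Rows `x : Fin m → ℂ`, the same for both groups.

* `hasDerivAt_q`, `hasDerivAt_qg`, `hasDerivAt_q1`, **`I_lz_own`, `I_lz_cross`** : the kernels
  `I * lz` of an object with a quantum are `kO keX k`, `kO keY k` (sums over the constituents);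
* `hasDerivAt_RR`, `hasDerivAt_RR_row` : the row factor `NURow.RR c x x` in `u` and in a row;
* `mfO k w x` : force of the row `x` with its sea on an object; `mf_A`, `mf_L`, `mf_T`, `mf_S` :
  `- 2 π i`, `0`, `2 π i`, `4 π i` times the density at `w` resp. `w + 2 l`;
* `rhoR`, `xiR`, `krR`, `r1R`, `rowO` : density, field, row forces, row factor of an object;
* **`conv_zero`, `conv_form`, `conv_form0`, `Cv_zero`** : with the field `xiR x i0` of a row read at the same
  point the convective term is zero.
-/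

set_option autoImplicit false

noncomputable section

open MeasureTheory Set Filter Topology

namespace PBForce

open NUP1 NUP1.Bd NUP1S PB

/-! ### logarithmic derivatives of the pair functions -/

/-- a point off all the lines `j l` or off the real axis -/
def Gen (z : ℂ) : Prop := ∀ j : ℤ, Complex.sin (z + j * l) ≠ 0

lemma Gen.of_im {z : ℂ} (h : z.im ≠ 0) : Gen z := fun j => by
  refine PB.sin_ne_im ?_
  have e : (z + j * l : ℂ).im = z.im := by
    rw [Complex.add_im, show ((j : ℂ) * l : ℂ) = (((j : ℝ) * l : ℝ) : ℂ) by push_cast; ring,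
      Complex.ofReal_im, add_zero]
  rw [e]
  exact h

lemma Gen.shift {z : ℂ} (h : Gen z) (j : ℤ) : Gen (z + j * l) := fun i => by
  have := h (j + i)
  push_cast at this
  rw [show z + j * l + i * (l : ℂ) = z + (j + i) * l by ring]
  exact this

lemma Gen.cos {z : ℂ} (h : Gen z) : Complex.cos z ≠ 0 := by
  have := h 4
  have e : (((4 : ℤ) : ℂ) * (l : ℂ)) = Real.pi / 2 := by
    push_cast
    exact l4c
  rwa [e, Complex.sin_add_pi_div_two] at this

lemma hd_sin (z c : ℂ) : HasDerivAt (fun z : ℂ => Complex.sin (z + c)) (Complex.cos (z + c)) z := by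
  have := ((hasDerivAt_id z).add_const c).csin
  rwa [mul_one] at this

/-- `q' = q (- i keX)` -/
theorem hasDerivAt_q {z : ℂ} (h : Gen z) : HasDerivAt q (q z * (-Complex.I * keX z)) z := by
  have h0 := h 0
  have h1 := h 1
  have h1' := h (-1)
  have h2 := h 2
  have h2' := h (-2)
  push_cast at h0 h1 h1' h2 h2'
  rw [zero_mul, add_zero] at h0
  rw [one_mul] at h1
  rw [show z + -1 * (l : ℂ) = z - l by ring] at h1'
  rw [show z + -2 * (l : ℂ) = z - 2 * l by ring] at h2'
  have d0 : HasDerivAt (fun z : ℂ => Complex.sin z) (Complex.cos z) z := Complex.hasDerivAt_sin z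
  have d1 := hd_sin z l
  have d1' : HasDerivAt (fun z : ℂ => Complex.sin (z - l)) (Complex.cos (z - l)) z := by
    simpa [sub_eq_add_neg] using hd_sin z (-l)
  have d2 := hd_sin z (2 * l)
  have d2' : HasDerivAt (fun z : ℂ => Complex.sin (z - 2 * l)) (Complex.cos (z - 2 * l)) z := by
    simpa [sub_eq_add_neg] using hd_sin z (-(2 * l))
  have d := (((d0.pow 2).mul d2).mul d2').neg.div (d1.mul d1') (mul_ne_zero h1 h1')
  have hf : q = fun z : ℂ => -(Complex.sin z ^ 2 * Complex.sin (z + 2 * l) * Complex.sin (z - 2 * l)) /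
      (Complex.sin (z + l) * Complex.sin (z - l)) := rfl
  rw [hf]
  refine d.congr_deriv ?_
  unfold keX Complex.cot
  change _ = _ * (-Complex.I * (Complex.I * (2 * (Complex.cos z / Complex.sin z) +
    Complex.cos (z + 2 * l) / Complex.sin (z + 2 * l) + Complex.cos (z - 2 * l) / Complex.sin (z - 2 * l) -
    Complex.cos (z + l) / Complex.sin (z + l) - Complex.cos (z - l) / Complex.sin (z - l))))
  rw [show ∀ a : ℂ, -Complex.I * (Complex.I * a) = a from fun a => by
    rw [← mul_assoc, neg_mul, Complex.I_mul_I, neg_neg, one_mul]]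
  simp only [Pi.neg_apply, Pi.mul_apply, Pi.pow_apply]
  field_simp
  ring

/-- `qg' = qg (- i keY)` -/
theorem hasDerivAt_qg {z : ℂ} (h : Gen z) : HasDerivAt qg (qg z * (-Complex.I * keY z)) z := by
  have hc := h.cos
  have h3 := h 3
  have h3' := h (-3)
  push_cast at h3 h3'
  rw [show z + -3 * (l : ℂ) = z - 3 * l by ring] at h3'
  have d0 : HasDerivAt (fun z : ℂ => Complex.cos z) (-Complex.sin z) z := Complex.hasDerivAt_cos z
  have d3 := hd_sin z (3 * l)
  have d3' : HasDerivAt (fun z : ℂ => Complex.sin (z - 3 * l)) (Complex.cos (z - 3 * l)) z := by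
    simpa [sub_eq_add_neg] using hd_sin z (-(3 * l))
  have d := (d0.pow 2).div ((d3.pow 2).mul (d3'.pow 2))
    (mul_ne_zero (pow_ne_zero _ h3) (pow_ne_zero _ h3'))
  have hf : qg = fun z : ℂ => Complex.cos z ^ 2 /
      (Complex.sin (z + 3 * l) ^ 2 * Complex.sin (z - 3 * l) ^ 2) := rfl
  rw [hf]
  refine d.congr_deriv ?_
  unfold keY Complex.cot
  rw [Complex.tan_eq_sin_div_cos]
  change _ = _ * (-Complex.I * (Complex.I * (-2 * (Complex.sin z / Complex.cos z) -
    2 * (Complex.cos (z + 3 * l) / Complex.sin (z + 3 * l)) -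
    2 * (Complex.cos (z - 3 * l) / Complex.sin (z - 3 * l)))))
  rw [show ∀ a : ℂ, -Complex.I * (Complex.I * a) = a from fun a => by
    rw [← mul_assoc, neg_mul, Complex.I_mul_I, neg_neg, one_mul]]
  simp only [Pi.mul_apply, Pi.pow_apply]
  field_simp
  ring

lemma q_ne_gen {z : ℂ} (h : Gen z) : q z ≠ 0 := by
  have h0 := h 0
  have h1 := h 1
  have h1' := h (-1)
  have h2 := h 2
  have h2' := h (-2)
  push_cast at h0 h1 h1' h2 h2'
  rw [zero_mul, add_zero] at h0
  rw [one_mul] at h1
  rw [show z + -1 * (l : ℂ) = z - l by ring] at h1'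
  rw [show z + -2 * (l : ℂ) = z - 2 * l by ring] at h2'
  unfold q
  exact div_ne_zero (neg_ne_zero.2 (mul_ne_zero (mul_ne_zero (pow_ne_zero _ h0) h2) h2'))
    (mul_ne_zero h1 h1')

lemma qg_ne_gen {z : ℂ} (h : Gen z) : qg z ≠ 0 := by
  have h3 := h 3
  have h3' := h (-3)
  push_cast at h3 h3'
  rw [show z + -3 * (l : ℂ) = z - 3 * l by ring] at h3'
  unfold qg
  exact div_ne_zero (pow_ne_zero _ h.cos) (mul_ne_zero (pow_ne_zero _ h3) (pow_ne_zero _ h3'))

lemma gen_ev {z : ℂ} (h : Gen z) : ∀ᶠ y in 𝓝 z, Complex.sin y ≠ 0 ∧ Complex.sin (y - l) ≠ 0 ∧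
    Complex.sin (y + l) ≠ 0 ∧ Complex.sin (y - 2 * l) ≠ 0 := by
  have h0 := h 0
  have h1 := h 1
  have h1' := h (-1)
  have h2' := h (-2)
  push_cast at h0 h1 h1' h2'
  rw [zero_mul, add_zero] at h0
  rw [one_mul] at h1
  rw [show z + -1 * (l : ℂ) = z - l by ring] at h1'
  rw [show z + -2 * (l : ℂ) = z - 2 * l by ring] at h2'
  have c0 : ContinuousAt (fun y : ℂ => Complex.sin y) z := Complex.continuous_sin.continuousAt
  have c1 : ContinuousAt (fun y : ℂ => Complex.sin (y - l)) z := by fun_prop
  have c2 : ContinuousAt (fun y : ℂ => Complex.sin (y + l)) z := by fun_prop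
  have c3 : ContinuousAt (fun y : ℂ => Complex.sin (y - 2 * l)) z := by fun_prop
  filter_upwards [c0.eventually_ne h0, c1.eventually_ne h1', c2.eventually_ne h1,
    c3.eventually_ne h2'] with y a b c d
  exact ⟨a, b, c, d⟩

/-- quantum against string, own species -/
theorem hasDerivAt_q1 {z : ℂ} (h : Gen z) : HasDerivAt (fun z : ℂ => q1 (-z))
    (q1 (-z) * (-Complex.I * (keX z + keX (z - l)))) z := by
  have hs : Gen (z - l) := by
    have := h.shift (-1)
    push_cast at this
    rwa [show z + -1 * (l : ℂ) = z - l by ring] at this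
  have e : ∀ᶠ y in 𝓝 z, q1 (-y) = q y * q (y - l) := by
    filter_upwards [gen_ev h] with y hy
    obtain ⟨a, b, c, d⟩ := hy
    rw [q1_neg]
    unfold q1 q
    rw [show y - (l : ℂ) + l = y by ring, show y - (l : ℂ) - 2 * l = y - 3 * l by ring,
      show y - (l : ℂ) + 3 * l = y + 2 * l by ring, show y - (l : ℂ) + 2 * l = y + l by ring,
      show y - (l : ℂ) - l = y - 2 * l by ring]
    generalize Complex.sin y = A at *
    generalize Complex.sin (y - l) = B at *
    generalize Complex.sin (y + l) = C at *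
    generalize Complex.sin (y - 2 * l) = D at *
    generalize Complex.sin (y + 2 * l) = E at *
    generalize Complex.sin (y - 3 * l) = F at *
    field_simp
  have d1 := hasDerivAt_q h
  have d2 : HasDerivAt (fun y : ℂ => q (y - l)) (q (z - l) * (-Complex.I * keX (z - l))) z := by
    have := (hasDerivAt_q hs).comp z ((hasDerivAt_id z).sub_const (l : ℂ))
    rwa [mul_one] at this
  have d := d1.mul d2
  refine (d.congr_of_eventuallyEq ?_).congr_deriv ?_
  · filter_upwards [e] with y hy
    exact hy
  · have hz := e.self_of_nhds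
    rw [hz]
    ring

/-- `q1 (-z) = q z q (z - l)` at generic points -/
lemma q1_fac {z : ℂ} (h : Gen z) : q1 (-z) = q z * q (z - l) := by
  obtain ⟨a, b, c, d⟩ := (gen_ev h).self_of_nhds
  rw [q1_neg]
  unfold q1 q
  rw [show z - (l : ℂ) + l = z by ring, show z - (l : ℂ) - 2 * l = z - 3 * l by ring,
    show z - (l : ℂ) + 3 * l = z + 2 * l by ring, show z - (l : ℂ) + 2 * l = z + l by ring,
    show z - (l : ℂ) - l = z - 2 * l by ring]
  generalize Complex.sin z = A at *
  generalize Complex.sin (z - l) = B at *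
  generalize Complex.sin (z + l) = C at *
  generalize Complex.sin (z - 2 * l) = D at *
  generalize Complex.sin (z + 2 * l) = E at *
  generalize Complex.sin (z - 3 * l) = F at *
  field_simp

lemma Gen.sub {z : ℂ} (h : Gen z) : Gen (z - l) := by
  have := h.shift (-1)
  push_cast at this
  rwa [show z + -1 * (l : ℂ) = z - l by ring] at this

lemma I_div {f : ℂ} (hf : f ≠ 0) (D : ℂ) : Complex.I * (f * (-Complex.I * D) / f) = D := by
  rw [mul_div_assoc, mul_comm f, div_mul_cancel₀ _ hf]
  rw [← mul_assoc, mul_neg, Complex.I_mul_I, neg_neg, one_mul]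

/-- kernel of a kind: sum over its constituents -/
def kO (K : ℂ → ℂ) : Ob → ℂ → ℂ
  | .S, z => K z + K (z - l)
  | _, z => K z

/-- **kernels of an object with a quantum of the same species** -/
theorem I_lz_own (b : Bool) (k : Ob) {z : ℂ} (h : Gen z) :
    Complex.I * lz (b, k) (b, .A) z = kO keX k z := by
  unfold lz
  cases k with
  | A =>
    have e : gz (b, .A) (b, .A) = q := by
      funext y
      simp [gz, pwz]
    rw [e, (hasDerivAt_q h).deriv]
    exact I_div (q_ne_gen h) _
  | L =>
    have e : gz (b, .L) (b, .A) = q := by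
      funext y
      simp [gz, pwz]
    rw [e, (hasDerivAt_q h).deriv]
    exact I_div (q_ne_gen h) _
  | S =>
    have e : gz (b, .S) (b, .A) = fun y => q1 (-y) := by
      funext y
      simp [gz, pwz]
    have hne : q1 (-z) ≠ 0 := by
      rw [q1_fac h]
      exact mul_ne_zero (q_ne_gen h) (q_ne_gen h.sub)
    rw [e, (hasDerivAt_q1 h).deriv]
    exact I_div hne _

/-- **kernels of an object with a quantum of the other species** -/
theorem I_lz_cross (b : Bool) (k : Ob) {z : ℂ} (h : Gen z) :
    Complex.I * lz (b, k) (!b, .A) z = kO keY k z := by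
  unfold lz
  have hb : b ≠ !b := by cases b <;> decide
  cases k with
  | A =>
    have e : gz (b, .A) (!b, .A) = qg := by
      funext y
      simp [gz, cwz]
    rw [e, (hasDerivAt_qg h).deriv]
    exact I_div (qg_ne_gen h) _
  | L =>
    have e : gz (b, .L) (!b, .A) = qg := by
      funext y
      simp [gz, cwz]
    rw [e, (hasDerivAt_qg h).deriv]
    exact I_div (qg_ne_gen h) _
  | S =>
    have e : gz (b, .S) (!b, .A) = fun y => qg y * qg (y - l) := by
      funext y
      simp [gz, cwz]
    have d2 : HasDerivAt (fun y : ℂ => qg (y - l)) (qg (z - l) * (-Complex.I * keY (z - l))) z := by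
      have := (hasDerivAt_qg h.sub).comp z ((hasDerivAt_id z).sub_const (l : ℂ))
      rwa [mul_one] at this
    have d := (hasDerivAt_qg h).mul d2
    have e2 : deriv (fun y => qg y * qg (y - l)) z =
        (qg z * qg (z - l)) * (-Complex.I * (keY z + keY (z - l))) := by
      have := d.deriv
      rw [show (fun y => qg y * qg (y - l)) = qg * fun y => qg (y - l) from rfl, this]
      ring
    rw [e, e2]
    exact I_div (mul_ne_zero (qg_ne_gen h) (qg_ne_gen h.sub)) _

/-! ### the row factor -/

/-- the row factor of one row at `0` (both groups) -/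
def rwF (v : ℂ) : ℂ := 1 / Complex.sin v * (1 / Complex.sin (v - 2 * l)) * Complex.sin (v + 3 * l) ^ 2

theorem RR_eq (c : ℂ) {m : ℕ} (x : Fin m → ℂ) (u : ℂ) :
    NURow.RR c x x u = c * ∏ i, rwF (u - x i) := by
  unfold NURow.RR rwF
  rw [Finset.prod_mul_distrib, Finset.prod_mul_distrib, ← mul_assoc, ← mul_assoc]

/-- the row factor is regular and not zero -/
structure RowOk (v : ℂ) : Prop where
  a : Complex.sin v ≠ 0
  b : Complex.sin (v - 2 * l) ≠ 0
  c : Complex.sin (v + 3 * l) ≠ 0

lemma rwF_ne {v : ℂ} (h : RowOk v) : rwF v ≠ 0 := by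
  unfold rwF
  exact mul_ne_zero (mul_ne_zero (one_div_ne_zero h.a) (one_div_ne_zero h.b)) (pow_ne_zero _ h.c)

/-- `rwF' = rwF (- i rowD)` -/
theorem hasDerivAt_rwF {v : ℂ} (h : RowOk v) : HasDerivAt rwF
    (rwF v * (-Complex.I * rowD (v - l))) v := by
  have h0 := h.a
  have h2 := h.b
  have h3 := h.c
  have d0 : HasDerivAt (fun z : ℂ => Complex.sin z) (Complex.cos v) v := Complex.hasDerivAt_sin v
  have d2 : HasDerivAt (fun z : ℂ => Complex.sin (z - 2 * l)) (Complex.cos (v - 2 * l)) v := by
    simpa [sub_eq_add_neg] using hd_sin v (-(2 * l))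
  have d3 := hd_sin v (3 * l)
  have d := ((d0.inv h0).mul (d2.inv h2)).mul (d3.pow 2)
  have hf : rwF = fun z : ℂ => (Complex.sin z)⁻¹ * (Complex.sin (z - 2 * l))⁻¹ *
      Complex.sin (z + 3 * l) ^ 2 := by
    funext z
    unfold rwF
    rw [one_div, one_div]
  have ht : Complex.tan (v - l) = -Complex.cot (v + 3 * l) := by
    rw [cot_m, neg_neg]
    congr 1
    show v - l = v + 3 * l - 4 * l
    ring
  rw [hf]
  refine d.congr_deriv ?_
  unfold rowD
  change _ = _ * (-Complex.I * (Complex.I * (-2 * Complex.tan (v - l) - Complex.cot (v - l + l) -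
    Complex.cot (v - l - l))))
  rw [ht, show v - (l : ℂ) + l = v by ring, show v - (l : ℂ) - l = v - 2 * l by ring]
  unfold Complex.cot
  rw [show ∀ a : ℂ, -Complex.I * (Complex.I * a) = a from fun a => by
    rw [← mul_assoc, neg_mul, Complex.I_mul_I, neg_neg, one_mul]]
  simp only [Pi.mul_apply, Pi.pow_apply, Pi.inv_apply]
  clear d d0 d2 d3 hf ht h
  generalize Complex.sin v = A at *
  generalize Complex.sin (v - 2 * l) = B at *
  generalize Complex.sin (v + 3 * l) = C at *
  field_simp
  ring

/-- **logarithmic derivative of the row factor in the position** -/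
theorem hasDerivAt_RR (c : ℂ) {m : ℕ} (x : Fin m → ℂ) {u : ℂ} (h : ∀ i, RowOk (u - x i)) :
    HasDerivAt (NURow.RR c x x)
      (NURow.RR c x x u * (-Complex.I * ∑ i, rowD (u - l - x i))) u := by
  have hf : NURow.RR c x x = fun u => c * ∏ i, rwF (u - x i) := funext fun u => RR_eq c x u
  have hi : ∀ i ∈ Finset.univ, HasDerivAt (fun u : ℂ => rwF (u - x i))
      (rwF (u - x i) * (-Complex.I * rowD (u - x i - l))) u := by
    intro i _
    have := (hasDerivAt_rwF (h i)).comp u ((hasDerivAt_id u).sub_const (x i))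
    rwa [mul_one] at this
  have hd := (HasDerivAt.fun_finsetProd hi).const_mul c
  rw [hf]
  refine hd.congr_deriv ?_
  show c * _ = (c * ∏ i, rwF (u - x i)) * _
  rw [mul_assoc]
  congr 1
  rw [Finset.mul_sum, Finset.mul_sum]
  refine Finset.sum_congr rfl fun i hi' => ?_
  rw [← Finset.mul_prod_erase Finset.univ (fun i => rwF (u - x i)) hi', smul_eq_mul,
    show u - x i - (l : ℂ) = u - l - x i by ring]
  ring

/-- **derivative of the row factor in the height of one row** (the row moves as `x i + i η`) -/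
theorem hasDerivAt_RR_row (c : ℂ) {m : ℕ} (x : Fin m → ℂ) (i0 : Fin m) {u : ℂ}
    (h : RowOk (u - x i0)) :
    HasDerivAt (fun η : ℝ => NURow.RR c (Function.update x i0 (x i0 + η * Complex.I))
        (Function.update x i0 (x i0 + η * Complex.I)) u)
      (NURow.RR c x x u * -rowD (u - l - x i0)) 0 := by
  have hf : (fun η : ℝ => NURow.RR c (Function.update x i0 (x i0 + η * Complex.I))
        (Function.update x i0 (x i0 + η * Complex.I)) u) = fun η : ℝ =>
      rwF (u - (x i0 + η * Complex.I)) * (c * ∏ i ∈ Finset.univ.erase i0, rwF (u - x i)) := by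
    funext η
    rw [RR_eq, ← Finset.mul_prod_erase Finset.univ _ (Finset.mem_univ i0), Function.update_self]
    have : ∏ i ∈ Finset.univ.erase i0, rwF (u - Function.update x i0 (x i0 + η * Complex.I) i) =
        ∏ i ∈ Finset.univ.erase i0, rwF (u - x i) := by
      refine Finset.prod_congr rfl fun i hi => ?_
      rw [Function.update_of_ne (Finset.ne_of_mem_erase hi)]
    rw [this]
    ring
  have h1 : HasDerivAt (fun η : ℝ => u - (x i0 + η * Complex.I)) (-Complex.I) 0 := by
    have h2 : HasDerivAt (fun η : ℝ => (η : ℂ) * Complex.I) Complex.I 0 := by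
      have := (Complex.ofRealCLM.hasDerivAt (x := (0 : ℝ))).mul_const Complex.I
      simpa using this
    have := (h2.const_add (x i0)).const_sub u
    exact this
  have h3 : HasDerivAt rwF (rwF (u - x i0) * (-Complex.I * rowD (u - x i0 - l)))
      (u - (x i0 + ((0 : ℝ) : ℂ) * Complex.I)) := by
    rw [Complex.ofReal_zero, zero_mul, add_zero]
    exact hasDerivAt_rwF h
  have h4 := (h3.comp (0 : ℝ) h1).mul_const (c * ∏ i ∈ Finset.univ.erase i0, rwF (u - x i))
  rw [hf]
  refine h4.congr_deriv ?_
  rw [RR_eq, ← Finset.mul_prod_erase Finset.univ (fun i => rwF (u - x i)) (Finset.mem_univ i0),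
    show u - x i0 - (l : ℂ) = u - l - x i0 by ring]
  linear_combination (rwF (u - x i0) * rowD (u - l - x i0) *
    (c * ∏ i ∈ Finset.univ.erase i0, rwF (u - x i))) * Complex.I_mul_I

/-! ### the mean force on an object -/

/-- force of the row `x` with its sea on an object with head `w` -/
def mfO (k : Ob) (w x : ℂ) : ℂ := kO rowD k (w - l - x) +
  ∫ s : ℝ, pc (x - s * Complex.I) * (kO keX k (w - l - s * Complex.I) + kO keY k (w - l - s * Complex.I))

lemma sub_sub_l (w s : ℂ) : w - l - s - l = w - l - l - s := by ring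

/-- the force on an object is the sum of the forces on its quanta -/
theorem mfO_S {w x : ℂ} (h1 : Off (w - l).re) (h2 : Off (w - l - l).re) (hx : |x.re| < l) :
    mfO .S w x = forcx (w - l) x + forcx (w - l - l) x := by
  have i1 := (int_row (z := w - l) h1 hx).2.2
  have i2 := (int_row (z := w - l - l) h2 hx).2.2
  unfold mfO forcx kO
  simp only
  rw [show w - (l : ℂ) - x - l = w - l - l - x by ring]
  have e : ∫ s : ℝ, pc (x - s * Complex.I) * (keX (w - l - s * Complex.I) +
      keX (w - l - s * Complex.I - l) + (keY (w - l - s * Complex.I) +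
      keY (w - l - s * Complex.I - l))) =
      (∫ s : ℝ, pc (x - s * Complex.I) * (keX (w - l - s * Complex.I) + keY (w - l - s * Complex.I))) +
      ∫ s : ℝ, pc (x - s * Complex.I) * (keX (w - l - l - s * Complex.I) +
        keY (w - l - l - s * Complex.I)) := by
    rw [← integral_add i1 i2]
    refine integral_congr_ae (Eventually.of_forall fun s => ?_)
    simp only
    rw [sub_sub_l]
    ring
  rw [e]
  ring

theorem mfO_L (w x : ℂ) : mfO .L w x = forcx (w - l) x := rfl

theorem mfO_A (w x : ℂ) : mfO .A w x = forcx (w - l) x := rfl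

/-- integrability of the mean force -/
theorem int_mfO (k : Ob) {w x : ℂ} (h1 : Off (w - l).re) (h2 : k = .S → Off (w - l - l).re)
    (hx : |x.re| < l) :
    Integrable (fun s : ℝ => pc (x - s * Complex.I) * kO keX k (w - l - s * Complex.I)) ∧
    Integrable (fun s : ℝ => pc (x - s * Complex.I) * kO keY k (w - l - s * Complex.I)) ∧
    Integrable (fun s : ℝ => pc (x - s * Complex.I) *
      (kO keX k (w - l - s * Complex.I) + kO keY k (w - l - s * Complex.I))) := by
  obtain ⟨a1, a2, a3⟩ := int_row (z := w - l) h1 hx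
  have key : Integrable (fun s : ℝ => pc (x - s * Complex.I) * kO keX k (w - l - s * Complex.I)) ∧
    Integrable (fun s : ℝ => pc (x - s * Complex.I) * kO keY k (w - l - s * Complex.I)) := by
    cases k with
    | A => exact ⟨a1, a2⟩
    | L => exact ⟨a1, a2⟩
    | S =>
      obtain ⟨b1, b2, b3⟩ := int_row (z := w - l - l) (h2 rfl) hx
      constructor
      · refine (a1.add b1).congr (Eventually.of_forall fun s => ?_)
        simp only [Pi.add_apply, kO]
        rw [sub_sub_l]
        ring
      · refine (a2.add b2).congr (Eventually.of_forall fun s => ?_)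
        simp only [Pi.add_apply, kO]
        rw [sub_sub_l]
        ring
  refine ⟨key.1, key.2, (key.1.add key.2).congr (Eventually.of_forall fun s => ?_)⟩
  simp only [Pi.add_apply]
  ring

/-- **a quantum on L feels no force** -/
theorem mf_L {w x : ℂ} (h1 : -(2 * l) < w.re) (h2 : w.re < -l) (hx : |x.re| < l) :
    mfO .L w x = 0 := by
  rw [mfO_L]
  have r := (re_add_nat w).2.1
  refine forcx_23 ?_ ?_ hx
  · rw [show (w - l : ℂ).re = w.re - l from r]
    show -(3 * l) < w.re - l
    linarith
  · rw [show (w - l : ℂ).re = w.re - l from r]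
    show w.re - l < -(2 * l)
    linarith

/-- **a quantum between the rows and the line A** -/
theorem mf_A {w x : ℂ} (h1 : 0 < w.re) (h2 : w.re < l) (hx : |x.re| < l) (hne : w ≠ x) :
    mfO .A w x = -(2 * Real.pi * Complex.I) * pc (w - l - x) := by
  rw [mfO_A]
  have r := (re_add_nat w).2.1
  refine forcx_01 ?_ ?_ hx ?_
  · rw [show (w - l : ℂ).re = w.re - l from r]
    show -l < w.re - l
    linarith
  · rw [show (w - l : ℂ).re = w.re - l from r]
    show w.re - l < 0
    linarith
  · intro e
    apply hne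
    have e' : w - l - x = -l := e
    linear_combination e'

/-- **a string T (head between `- l` and `0`)** -/
theorem mf_T {w x : ℂ} (h1 : -l < w.re) (h2 : w.re < 0) (hx : |x.re| < l) (hne : w ≠ x) :
    mfO .S w x = 2 * Real.pi * Complex.I * pc (w + 2 * l - l - x) := by
  have r : (w - l : ℂ).re = w.re - l := (re_add_nat w).2.1
  have r2 : (w - l - l : ℂ).re = w.re - l - l := by
    have := (re_add_nat (w - l)).2.1
    rw [show (w - l - l : ℂ).re = (w - l : ℂ).re - l from this, r]
  have hl : 0 < l := NUMF.l_pos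
  rw [mfO_S ?_ ?_ hx, forcx_23 (z := w - l - l) ?_ ?_ hx, add_zero,
    forcx_12 (z := w - l) ?_ ?_ hx ?_]
  · congr 2
    show w - l + 2 * l - x = _
    ring
  · rw [r]
    show -(2 * l) < w.re - l
    linarith
  · rw [r]
    show w.re - l < -l
    linarith
  · intro e
    apply hne
    have e' : w - l - x = -l := e
    linear_combination e'
  · rw [r2]
    show -(3 * l) < w.re - l - l
    linarith
  · rw [r2]
    show w.re - l - l < -(2 * l)
    linarith
  · rw [r]
    refine ⟨?_, ?_, ?_, ?_, ?_⟩
    · show -(4 * l) < w.re - l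
      linarith
    · linarith
    · show w.re - l ≠ -l
      exact fun e => by linarith
    · show w.re - l ≠ -(2 * l)
      exact fun e => by linarith
    · show w.re - l ≠ -(3 * l)
      exact fun e => by linarith
  · rw [r2]
    refine ⟨?_, ?_, ?_, ?_, ?_⟩
    · show -(4 * l) < w.re - l - l
      linarith
    · linarith
    · show w.re - l - l ≠ -l
      exact fun e => by linarith
    · show w.re - l - l ≠ -(2 * l)
      exact fun e => by linarith
    · show w.re - l - l ≠ -(3 * l)
      exact fun e => by linarith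

/-- **a string S (head between `- 2 l` and `- l`)** -/
theorem mf_S {w x : ℂ} (h1 : -(2 * l) < w.re) (h2 : w.re < -l) (hx : |x.re| < l)
    (hne : w + 2 * l ≠ x) :
    mfO .S w x = 4 * Real.pi * Complex.I * pc (w + 2 * l - l - x) := by
  have r : (w - l : ℂ).re = w.re - l := (re_add_nat w).2.1
  have r2 : (w - l - l : ℂ).re = w.re - l - l := by
    have := (re_add_nat (w - l)).2.1
    rw [show (w - l - l : ℂ).re = (w - l : ℂ).re - l from this, r]
  have hl : 0 < l := NUMF.l_pos
  rw [mfO_S ?_ ?_ hx, forcx_23 (z := w - l) ?_ ?_ hx, zero_add,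
    forcx_34 (z := w - l - l) ?_ ?_ hx ?_]
  · congr 2
    show w - l - l + 3 * l - x = _
    ring
  · rw [r2]
    show -(4 * l) < w.re - l - l
    linarith
  · rw [r2]
    show w.re - l - l < -(3 * l)
    linarith
  · intro e
    apply hne
    have e' : w - l - l - x = -(4 * l) := e
    linear_combination e'
  · rw [r]
    show -(3 * l) < w.re - l
    linarith
  · rw [r]
    show w.re - l < -(2 * l)
    linarith
  · rw [r]
    refine ⟨?_, ?_, ?_, ?_, ?_⟩
    · show -(4 * l) < w.re - l
      linarith
    · linarith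
    · show w.re - l ≠ -l
      exact fun e => by linarith
    · show w.re - l ≠ -(2 * l)
      exact fun e => by linarith
    · show w.re - l ≠ -(3 * l)
      exact fun e => by linarith
  · rw [r2]
    refine ⟨?_, ?_, ?_, ?_, ?_⟩
    · show -(4 * l) < w.re - l - l
      linarith
    · linarith
    · show w.re - l - l ≠ -l
      exact fun e => by linarith
    · show w.re - l - l ≠ -(2 * l)
      exact fun e => by linarith
    · show w.re - l - l ≠ -(3 * l)
      exact fun e => by linarith

/-! ### several rows: the convective term vanishes -/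

variable {m : ℕ}

/-- density of the sea of the rows at the position `u` -/
def rhoR (x : Fin m → ℂ) (u : ℂ) : ℂ := ∑ i, pc (u - l - x i)

/-- the field of the row `i0` at the position `u` -/
def xiR (x : Fin m → ℂ) (i0 : Fin m) (u : ℂ) : ℂ := pc (u - l - x i0) / rhoR x u

lemma rhoR_I (x : Fin m → ℂ) (s : ℝ) : rhoR x (l + s * Complex.I) =
    ∑ i, pc (x i - s * Complex.I) := by
  unfold rhoR
  refine Finset.sum_congr rfl fun i _ => ?_
  rw [← pc_neg]
  congr 1
  ring

/-- admissible head of an object; `f` = the point where the force is read -/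
inductive HeadOk : Ob → ℂ → ℂ → ℂ → Prop
  | A {w : ℂ} : 0 < w.re → w.re < l → HeadOk .A w w (-(2 * Real.pi * Complex.I))
  | L {w : ℂ} : -(2 * l) < w.re → w.re < -l → HeadOk .L w (w + 2 * l) 0
  | T {w : ℂ} : -l < w.re → w.re < 0 → HeadOk .S w (w + 2 * l) (2 * Real.pi * Complex.I)
  | S {w : ℂ} : -(2 * l) < w.re → w.re < -l → HeadOk .S w (w + 2 * l) (4 * Real.pi * Complex.I)

/-- **all kinds at once**: force `= c ρ(f)` -/
theorem mf_head {k : Ob} {w f c x : ℂ} (h : HeadOk k w f c) (hx : |x.re| < l) (h1 : w ≠ x)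
    (h2 : w + 2 * l ≠ x) : mfO k w x = c * pc (f - l - x) := by
  cases h with
  | A a b => exact mf_A a b hx h1
  | L a b => rw [mf_L a b hx, zero_mul]
  | T a b => exact mf_T a b hx h1
  | S a b => exact mf_S a b hx h2

/-- **the convective term vanishes**: field of the row at the point `f` (`= w + 2 l` for an object,
`= w` for a quantum) -/
theorem conv_zero {k : Ob} {w f c : ℂ} {x : Fin m → ℂ} (i0 : Fin m) (h : HeadOk k w f c)
    (hx : ∀ i, |(x i).re| < l) (h1 : ∀ i, w ≠ x i) (h2 : ∀ i, w + 2 * l ≠ x i)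
    (hr : rhoR x f ≠ 0) :
    xiR x i0 f * ∑ i, mfO k w (x i) - mfO k w (x i0) = 0 := by
  have e : ∀ i, mfO k w (x i) = c * pc (f - l - x i) := fun i => mf_head h (hx i) (h1 i) (h2 i)
  have e2 : ∑ i, mfO k w (x i) = c * rhoR x f := by
    rw [Finset.sum_congr rfl fun i _ => e i, ← Finset.mul_sum]
    rfl
  rw [e2, e i0]
  unfold xiR
  field_simp
  ring

/-- the line condition of a head -/
lemma HeadOk.off {k : Ob} {w f c : ℂ} (h : HeadOk k w f c) : Off (w - l).re ∧
    (k = .S → Off (w - l - l).re) := by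
  have hl : 0 < l := NUMF.l_pos
  have r : (w - l : ℂ).re = w.re - l := (re_add_nat w).2.1
  have r2 : (w - l - l : ℂ).re = w.re - l - l := by
    have := (re_add_nat (w - l)).2.1
    rw [show (w - l - l : ℂ).re = (w - l : ℂ).re - l from this, r]
  rw [r, r2]
  have mk : ∀ y : ℝ, -(4 * l) < y → y < 0 → y ≠ -l → y ≠ -(2 * l) → y ≠ -(3 * l) → Off y :=
    fun y a b c d e => ⟨a, b, c, d, e⟩
  cases h with
  | A a b => exact ⟨mk _ (by linarith) (by linarith) (fun e => by linarith) (fun e => by linarith)
      (fun e => by linarith), fun e => by cases e⟩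
  | L a b => exact ⟨mk _ (by linarith) (by linarith) (fun e => by linarith) (fun e => by linarith)
      (fun e => by linarith), fun e => by cases e⟩
  | T a b => exact ⟨mk _ (by linarith) (by linarith) (fun e => by linarith) (fun e => by linarith)
      (fun e => by linarith), fun _ => mk _ (by linarith) (by linarith) (fun e => by linarith)
      (fun e => by linarith) (fun e => by linarith)⟩
  | S a b => exact ⟨mk _ (by linarith) (by linarith) (fun e => by linarith) (fun e => by linarith)
      (fun e => by linarith), fun _ => mk _ (by linarith) (by linarith) (fun e => by linarith)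
      (fun e => by linarith) (fun e => by linarith)⟩

/-- one species: the convective integral -/
lemma conv_int {K : ℝ → ℂ} {x : Fin m → ℂ} (i0 : Fin m) (ξ : ℂ)
    (hK : ∀ i, Integrable fun s : ℝ => pc (x i - s * Complex.I) * K s)
    (hr : ∀ s : ℝ, rhoR x (l + s * Complex.I) ≠ 0) :
    Integrable (fun s : ℝ => rhoR x (l + s * Complex.I) *
      ((ξ - xiR x i0 (l + s * Complex.I)) * K s)) ∧
    ∫ s : ℝ, rhoR x (l + s * Complex.I) * ((ξ - xiR x i0 (l + s * Complex.I)) * K s) =
      ξ * (∑ i, ∫ s : ℝ, pc (x i - s * Complex.I) * K s) - ∫ s : ℝ, pc (x i0 - s * Complex.I) * K s := by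
  have e : ∀ s : ℝ, rhoR x (l + s * Complex.I) * ((ξ - xiR x i0 (l + s * Complex.I)) * K s) =
      ξ * (∑ i, pc (x i - s * Complex.I) * K s) - pc (x i0 - s * Complex.I) * K s := by
    intro s
    have h1 : rhoR x (l + s * Complex.I) * xiR x i0 (l + s * Complex.I) =
        pc (x i0 - s * Complex.I) := by
      unfold xiR
      rw [mul_div_cancel₀ _ (hr s), ← pc_neg]
      congr 1
      ring
    rw [← Finset.sum_mul, ← rhoR_I]
    linear_combination (-K s) * h1
  simp_rw [e]
  have i1 : Integrable fun s : ℝ => ∑ i, pc (x i - s * Complex.I) * K s :=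
    integrable_finsetSum _ fun i _ => hK i
  refine ⟨(i1.const_mul ξ).sub (hK i0), ?_⟩
  rw [integral_sub (i1.const_mul ξ) (hK i0), integral_const_mul, integral_finsetSum _ fun i _ => hK i]

lemma lz_ae (b : Bool) (k : Ob) (w : ℂ) : ∀ᵐ s : ℝ,
    Complex.I * lz (b, k) (b, .A) (w - (l + s * Complex.I)) = kO keX k (w - l - s * Complex.I) ∧
    Complex.I * lz (b, k) (!b, .A) (w - (l + s * Complex.I)) = kO keY k (w - l - s * Complex.I) := by
  have hne : ∀ᵐ s : ℝ, s ≠ w.im := by
    have : ({w.im} : Set ℝ)ᶜ ∈ ae (volume : Measure ℝ) := by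
      rw [mem_ae_iff, compl_compl]
      exact measure_singleton _
    exact this
  filter_upwards [hne] with s hs
  have h1 : w - (l + s * Complex.I) = w - l - s * Complex.I := by ring
  have h2 : (w - l - s * Complex.I).im ≠ 0 := by
    have : (w - l - s * Complex.I).im = w.im - s := by simp
    rw [this]
    exact sub_ne_zero.2 hs.symm
  rw [h1]
  exact ⟨I_lz_own b k (Gen.of_im h2), I_lz_cross b k (Gen.of_im h2)⟩

/-- **the convective term in the form of the Ward identity**: kernels `I lz` of both species -/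
theorem conv_form (b : Bool) {k : Ob} {w f c : ℂ} {x : Fin m → ℂ} (i0 : Fin m)
    (h : HeadOk k w f c) (hx : ∀ i, |(x i).re| < l) (h1 : ∀ i, w ≠ x i)
    (h2 : ∀ i, w + 2 * l ≠ x i) (hf : rhoR x f ≠ 0)
    (hr : ∀ s : ℝ, rhoR x (l + s * Complex.I) ≠ 0) :
    Integrable (fun s : ℝ => rhoR x (l + s * Complex.I) * ((xiR x i0 f - xiR x i0 (l + s * Complex.I)) *
      (Complex.I * lz (b, k) (b, .A) (w - (l + s * Complex.I))))) ∧
    Integrable (fun s : ℝ => rhoR x (l + s * Complex.I) * ((xiR x i0 f - xiR x i0 (l + s * Complex.I)) *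
      (Complex.I * lz (b, k) (!b, .A) (w - (l + s * Complex.I))))) ∧
    xiR x i0 f * ∑ i, kO rowD k (w - l - x i) +
      ((∫ s : ℝ, rhoR x (l + s * Complex.I) * ((xiR x i0 f - xiR x i0 (l + s * Complex.I)) *
        (Complex.I * lz (b, k) (b, .A) (w - (l + s * Complex.I))))) +
      ∫ s : ℝ, rhoR x (l + s * Complex.I) * ((xiR x i0 f - xiR x i0 (l + s * Complex.I)) *
        (Complex.I * lz (b, k) (!b, .A) (w - (l + s * Complex.I))))) +
      -kO rowD k (w - l - x i0) = 0 := by
  obtain ⟨o1, o2⟩ := h.off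
  have hi := fun i => int_mfO k o1 o2 (hx i)
  obtain ⟨c1, d1⟩ := conv_int (K := fun s => kO keX k (w - l - s * Complex.I)) i0 (xiR x i0 f)
    (fun i => (hi i).1) hr
  obtain ⟨c2, d2⟩ := conv_int (K := fun s => kO keY k (w - l - s * Complex.I)) i0 (xiR x i0 f)
    (fun i => (hi i).2.1) hr
  have e1 : (fun s : ℝ => rhoR x (l + s * Complex.I) * ((xiR x i0 f - xiR x i0 (l + s * Complex.I)) *
      (Complex.I * lz (b, k) (b, .A) (w - (l + s * Complex.I))))) =ᵐ[volume]
      fun s : ℝ => rhoR x (l + s * Complex.I) * ((xiR x i0 f - xiR x i0 (l + s * Complex.I)) *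
      kO keX k (w - l - s * Complex.I)) := by
    filter_upwards [lz_ae b k w] with s hs
    rw [hs.1]
  have e2 : (fun s : ℝ => rhoR x (l + s * Complex.I) * ((xiR x i0 f - xiR x i0 (l + s * Complex.I)) *
      (Complex.I * lz (b, k) (!b, .A) (w - (l + s * Complex.I))))) =ᵐ[volume]
      fun s : ℝ => rhoR x (l + s * Complex.I) * ((xiR x i0 f - xiR x i0 (l + s * Complex.I)) *
      kO keY k (w - l - s * Complex.I)) := by
    filter_upwards [lz_ae b k w] with s hs
    rw [hs.2]
  refine ⟨c1.congr e1.symm, c2.congr e2.symm, ?_⟩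
  rw [integral_congr_ae e1, integral_congr_ae e2, d1, d2]
  have hz := conv_zero i0 h hx h1 h2 hf
  have hm : ∀ i, mfO k w (x i) = kO rowD k (w - l - x i) +
      ((∫ s : ℝ, pc (x i - s * Complex.I) * kO keX k (w - l - s * Complex.I)) +
      ∫ s : ℝ, pc (x i - s * Complex.I) * kO keY k (w - l - s * Complex.I)) := by
    intro i
    unfold mfO
    rw [← integral_add (hi i).1 (hi i).2.1]
    congr 1
    refine integral_congr_ae (Eventually.of_forall fun s => ?_)
    simp only
    ring
  rw [Finset.sum_congr rfl fun i _ => hm i, hm i0, Finset.sum_add_distrib,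
    Finset.sum_add_distrib] at hz
  linear_combination hz

/-! ### the density does not vanish -/

lemma cos_re' (z : ℂ) : (Complex.cos z).re = Real.cos z.re * Real.cosh z.im := by
  have h := Complex.cos_eq z
  rw [h]
  simp [← Complex.ofReal_cos, ← Complex.ofReal_cosh, ← Complex.ofReal_sin, ← Complex.ofReal_sinh]

/-- the density has positive real part in `|Re w| < l` -/
theorem pc_re_pos {w : ℂ} (hw : |w.re| < l) : 0 < (pc w).re := by
  have hb : |w.re| < NUMF.l := hw
  obtain ⟨hc, h0, hp⟩ := cos_b (abs_nonneg w.re) hb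
  have hw' : |(8 / 3 * w : ℂ).re| ≤ 8 / 3 * |w.re| := by
    rw [re_83, abs_mul, abs_of_pos (by norm_num : (0:ℝ) < 8 / 3)]
  obtain ⟨l1, l2⟩ := cos_low hc hp hw'
  rw [im_83] at l1 l2
  have hch : 1 ≤ Real.cosh (8 / 3 * w.im) := Real.one_le_cosh _
  have hD : 0 < 2 * Real.cos (8 / 3 * |w.re|) - 1 := by linarith
  have hpos := mul_pos hD (by linarith : 0 < Real.cosh (8 / 3 * w.im))
  set C := Complex.cos (8 / 3 * w) with hC
  have n1 : 2 * C - 1 ≠ 0 := norm_pos_iff.1 (by linarith)
  have n2 : 2 * C + 1 ≠ 0 := norm_pos_iff.1 (by linarith)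
  -- the real part of the cosine
  have hre : Real.cos (8 / 3 * |w.re|) ≤ C.re := by
    have h1 : C.re = Real.cos (8 / 3 * w.re) * Real.cosh (8 / 3 * w.im) := by
      rw [hC, cos_re', re_83, im_83]
    have h2 : Real.cos (8 / 3 * w.re) = Real.cos (8 / 3 * |w.re|) := by
      rw [← Real.cos_abs (8 / 3 * w.re), abs_mul, abs_of_pos (by norm_num : (0:ℝ) < 8 / 3)]
    rw [h1, h2]
    nlinarith
  have inv_re : ∀ z : ℂ, 0 < z.re → 0 < (z⁻¹).re := by
    intro z hz
    rw [Complex.inv_re]
    exact div_pos hz (Complex.normSq_pos.2 fun h => by rw [h] at hz; simp at hz)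
  have e : pc w = ((4 / (√3 * Real.pi) : ℝ) : ℂ) * ((2 * C - 1)⁻¹ + (2 * C + 1)⁻¹) := by
    have e0 : (2 * C - 1)⁻¹ + (2 * C + 1)⁻¹ = 4 * C / ((2 * C - 1) * (2 * C + 1)) := by
      field_simp
      ring
    unfold pc
    rw [pc_split, ← hC, e0]
    push_cast
    ring
  have r1 : 0 < (2 * C - 1).re := by
    have : (2 * C - 1).re = 2 * C.re - 1 := by simp
    rw [this]
    linarith
  have r2 : 0 < (2 * C + 1).re := by
    have : (2 * C + 1).re = 2 * C.re + 1 := by simp
    rw [this]
    linarith
  rw [e, Complex.re_ofReal_mul, Complex.add_re]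
  have := inv_re _ r1
  have := inv_re _ r2
  positivity

theorem rhoR_ne {x : Fin m → ℂ} (hm : 0 < m) {u : ℂ} (h : ∀ i, |(u - l - x i).re| < l) :
    rhoR x u ≠ 0 := by
  have hp : 0 < (rhoR x u).re := by
    unfold rhoR
    rw [Complex.re_sum]
    have : Nonempty (Fin m) := ⟨⟨0, hm⟩⟩
    exact Finset.sum_pos (fun i _ => pc_re_pos (h i)) Finset.univ_nonempty
  intro h0
  rw [h0] at hp
  simp at hp

/-- **rows on the imaginary axis**: no condition but the line of the head -/
theorem conv_form0 (b : Bool) {k : Ob} {w f c : ℂ} {x : Fin m → ℂ} (i0 : Fin m)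
    (h : HeadOk k w f c) (hx : ∀ i, (x i).re = 0) :
    Integrable (fun s : ℝ => rhoR x (l + s * Complex.I) * ((xiR x i0 f - xiR x i0 (l + s * Complex.I)) *
      (Complex.I * lz (b, k) (b, .A) (w - (l + s * Complex.I))))) ∧
    Integrable (fun s : ℝ => rhoR x (l + s * Complex.I) * ((xiR x i0 f - xiR x i0 (l + s * Complex.I)) *
      (Complex.I * lz (b, k) (!b, .A) (w - (l + s * Complex.I))))) ∧
    xiR x i0 f * ∑ i, kO rowD k (w - l - x i) +
      ((∫ s : ℝ, rhoR x (l + s * Complex.I) * ((xiR x i0 f - xiR x i0 (l + s * Complex.I)) *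
        (Complex.I * lz (b, k) (b, .A) (w - (l + s * Complex.I))))) +
      ∫ s : ℝ, rhoR x (l + s * Complex.I) * ((xiR x i0 f - xiR x i0 (l + s * Complex.I)) *
        (Complex.I * lz (b, k) (!b, .A) (w - (l + s * Complex.I))))) +
      -kO rowD k (w - l - x i0) = 0 := by
  have hl : 0 < l := NUMF.l_pos
  have hm : 0 < m := i0.pos
  have r3 : (w + 2 * l : ℂ).re = w.re + 2 * l := (re_add_nat w).2.2.1
  have rw1 : (w - l : ℂ).re = w.re - l := (re_add_nat w).2.1
  have r4 : (w + 2 * l - l : ℂ).re = w.re + 2 * l - l := by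
    have := (re_add_nat (w + 2 * l)).2.1
    rw [show (w + 2 * l - l : ℂ).re = (w + 2 * l : ℂ).re - l from this, r3]
  have ne_of : ∀ {a : ℂ}, a.re ≠ 0 → ∀ i, a ≠ x i := by
    intro a ha i e
    exact ha (by rw [e, hx i])
  refine conv_form b i0 h (fun i => by rw [hx i, abs_zero]; exact hl) ?_ ?_ ?_ ?_
  · cases h with
    | A a b => exact ne_of (by linarith)
    | L a b => exact ne_of (by linarith)
    | T a b => exact ne_of (by linarith)
    | S a b => exact ne_of (by linarith)
  · cases h with
    | A a b => exact ne_of (by rw [r3]; linarith)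
    | L a b => exact ne_of (by rw [r3]; linarith)
    | T a b => exact ne_of (by rw [r3]; linarith)
    | S a b => exact ne_of (by rw [r3]; linarith)
  · refine rhoR_ne hm fun i => ?_
    rw [Complex.sub_re, hx i, sub_zero, abs_lt]
    cases h with
    | A a b => rw [rw1]; constructor <;> linarith
    | L a b => rw [r4]; constructor <;> linarith
    | T a b => rw [r4]; constructor <;> linarith
    | S a b => rw [r4]; constructor <;> linarith
  · intro s
    refine rhoR_ne hm fun i => ?_
    rw [Complex.sub_re, hx i, sub_zero]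
    have : ((l : ℂ) + s * Complex.I - l).re = 0 := by simp
    rw [this, abs_zero]
    exact hl

/-! ### names for the Ward identity -/

/-- `i` times the logarithmic derivative of the row factor of an object in its position -/
def krR (k : Ob) (x : Fin m → ℂ) (w : ℂ) : ℂ := ∑ i, kO rowD k (w - l - x i)

/-- logarithmic derivative of the row factor of an object in the height of the row `i0` -/
def r1R (k : Ob) (x : Fin m → ℂ) (i0 : Fin m) (w : ℂ) : ℂ := -kO rowD k (w - l - x i0)

/-- row factor of an object -/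
def rowO (c : ℂ) (x : Fin m → ℂ) (k : Ob) (w : ℂ) : ℂ := one (NURow.RR c x x) k w

theorem hasDerivAt_rowO (c : ℂ) (x : Fin m → ℂ) (k : Ob) {w : ℂ} (h : ∀ i, RowOk (w - x i))
    (h' : k = .S → ∀ i, RowOk (w - l - x i)) :
    HasDerivAt (rowO c x k) (rowO c x k w * (-Complex.I * krR k x w)) w := by
  have d1 := hasDerivAt_RR c x h
  cases k with
  | A => exact d1
  | L => exact d1
  | S =>
    have d2 := (hasDerivAt_RR c x (h' rfl)).comp w ((hasDerivAt_id w).sub_const (l : ℂ))
    rw [mul_one] at d2
    refine (d1.mul d2).congr_deriv ?_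
    show NURow.RR c x x w * (-Complex.I * ∑ i, rowD (w - l - x i)) * NURow.RR c x x (w - l) +
      NURow.RR c x x w * (NURow.RR c x x (w - l) * (-Complex.I * ∑ i, rowD (w - l - l - x i))) =
      NURow.RR c x x w * NURow.RR c x x (w - l) *
        (-Complex.I * ∑ i, (rowD (w - l - x i) + rowD (w - l - x i - l)))
    rw [Finset.sum_add_distrib]
    have e : ∀ i, w - l - x i - (l : ℂ) = w - l - l - x i := fun i => by ring
    simp_rw [e]
    ring

theorem hasDerivAt_rowO_row (c : ℂ) (x : Fin m → ℂ) (i0 : Fin m) (k : Ob) {w : ℂ}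
    (h : RowOk (w - x i0)) (h' : k = .S → RowOk (w - l - x i0)) :
    HasDerivAt (fun η : ℝ => rowO c (Function.update x i0 (x i0 + η * Complex.I)) k w)
      (rowO c x k w * r1R k x i0 w) 0 := by
  have d1 := hasDerivAt_RR_row c x i0 h
  cases k with
  | A => exact d1
  | L => exact d1
  | S =>
    have d2 := hasDerivAt_RR_row c x i0 (h' rfl)
    refine (d1.mul d2).congr_deriv ?_
    have e0 : Function.update x i0 (x i0 + ((0 : ℝ) : ℂ) * Complex.I) = x := by
      rw [Complex.ofReal_zero, zero_mul, add_zero, Function.update_eq_self]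
    rw [e0]
    show NURow.RR c x x w * -rowD (w - l - x i0) * NURow.RR c x x (w - l) +
      NURow.RR c x x w * (NURow.RR c x x (w - l) * -rowD (w - l - l - x i0)) =
      NURow.RR c x x w * NURow.RR c x x (w - l) *
        -(rowD (w - l - x i0) + rowD (w - l - x i0 - l))
    rw [show w - l - x i0 - (l : ℂ) = w - l - l - x i0 by ring]
    ring

/-- **the convective term, final form** (`Cv = 0`) -/
theorem Cv_zero (b : Bool) {k : Ob} {w f c : ℂ} {x : Fin m → ℂ} (i0 : Fin m)
    (h : HeadOk k w f c) (hx : ∀ i, (x i).re = 0) :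
    xiR x i0 f * krR k x w +
      ((∫ s : ℝ, rhoR x (l + s * Complex.I) * ((xiR x i0 f - xiR x i0 (l + s * Complex.I)) *
        (Complex.I * lz (b, k) (b, .A) (w - (l + s * Complex.I))))) +
      ∫ s : ℝ, rhoR x (l + s * Complex.I) * ((xiR x i0 f - xiR x i0 (l + s * Complex.I)) *
        (Complex.I * lz (b, k) (!b, .A) (w - (l + s * Complex.I))))) + r1R k x i0 w = 0 :=
  (conv_form0 b i0 h hx).2.2

end PBForce
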