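import Pool.Agent.PB.TrG6
import Pool.Agent.PB.TRMean
import Pool.Agent.NUP1L.LegDefs

/-!
# Transfer (TR): the logarithm of the ratio of the one body functions

`w = 5l/4 + i τ`, `w' = 5l/4 + i τ'`, `z = zz w w'`, position `u = l + i t`.  `Dl w w' b t` is the
logarithm of minus the ratio regular / dislocated of the species `b`:
* `Dl_hd` : derivative `(Δ₊' ± Δ₋')/2`, analytic for `-l/4 < Im t < 11l/4`;
* `Dl_top`, `Dl_bot`, `Dl_lin` : limits `± sgb b i (w - w')` and bounds;
* `exp_Dl_true`, `exp_Dl_false`, `Dl_GM`;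
* **`rsp_Dl` : `rsp β b t = Dl b t`**, `β = be w w'`.
-/

set_option autoImplicit false

open MeasureTheory Set Filter Topology

namespace PBT3

open NUMF

noncomputable section

variable {ι : Type*} [Fintype ι]

/-- `∑ c log cos (a + i t)` -/
def SL (c a : ι → ℂ) (t : ℂ) : ℂ := ∑ j, c j * Complex.log (Complex.cos (a j + Complex.I * t))

lemma a1_re (a t : ℂ) : (a + Complex.I * t).re = a.re - t.im := by
  rw [Complex.add_re, Complex.I_mul_re]
  ring

lemma a1_im (a t : ℂ) : (a + Complex.I * t).im = a.im + t.re := by simp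

lemma SL_hd {c a : ι → ℂ} {t : ℂ} (h : ∀ j, |(a j).re - t.im| < Real.pi / 2) :
    HasDerivAt (SL c a) (-Complex.I * ∑ j, c j * Complex.tan (a j + Complex.I * t)) t := by
  have h1 : ∀ j, HasDerivAt (fun t : ℂ => Complex.log (Complex.cos (a j + Complex.I * t)))
      (-Complex.tan (a j + Complex.I * t) * Complex.I) t := by
    intro j
    have h2 : HasDerivAt (fun t : ℂ => a j + Complex.I * t) Complex.I t := by
      have := ((hasDerivAt_id t).const_mul Complex.I).const_add (a j)
      simpa using this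
    exact (hasDerivAt_lc (by rw [a1_re]; exact h j)).comp t h2
  have h3 := HasDerivAt.fun_sum (u := Finset.univ) fun j _ => (h1 j).const_mul (c j)
  refine h3.congr_deriv ?_
  rw [Finset.mul_sum]
  refine Finset.sum_congr rfl fun j _ => ?_
  ring

lemma SL_shift {c a : ι → ℂ} {t e : ℂ} (h0 : ∑ j, c j = 0) : SL c a t + e * ∑ j, c j * a j =
    ∑ j, c j * (Complex.log (Complex.cos (a j + Complex.I * t)) + e * (a j + Complex.I * t) +
      Real.log 2) := by
  have : ∀ j, c j * (Complex.log (Complex.cos (a j + Complex.I * t)) + e * (a j + Complex.I * t) +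
      Real.log 2) = c j * Complex.log (Complex.cos (a j + Complex.I * t)) + e * (c j * a j) +
        (e * Complex.I * t + Real.log 2) * c j := fun j => by ring
  simp only [this, Finset.sum_add_distrib, ← Finset.mul_sum, h0]
  unfold SL
  ring

lemma SL_sum {c : ι → ℂ} {v : ι → ℂ} {B : ℝ} (h : ∀ j, ‖v j‖ ≤ B) :
    ‖∑ j, c j * v j‖ ≤ (∑ j, ‖c j‖) * B := by
  rw [Finset.sum_mul]
  refine norm_sum_le_of_le _ fun j _ => ?_
  rw [norm_mul]
  exact mul_le_mul_of_nonneg_left (h j) (norm_nonneg _)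

lemma SL_top {c a : ι → ℂ} {t : ℂ} {b M : ℝ} (h0 : ∑ j, c j = 0) (hb0 : 0 ≤ b) (hb : b < Real.pi / 2)
    (h : ∀ j, |(a j).re - t.im| ≤ b) (hM : ∀ j, |(a j).im| ≤ M) (ht : 0 ≤ t.re) :
    ‖SL c a t + Complex.I * ∑ j, c j * a j‖ ≤ (∑ j, ‖c j‖) * (1 / Real.cos b * Real.exp (2 * (M - |t.re|))) := by
  have hcb : 0 < Real.cos b := Real.cos_pos_of_mem_Ioo ⟨by linarith [Real.pi_pos], hb⟩
  rw [SL_shift h0]
  refine SL_sum fun j => ?_
  refine (lc_le (by rw [a1_re]; exact h j) hb).trans ?_
  rw [a1_im]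
  refine mul_le_mul_of_nonneg_left (Real.exp_le_exp.2 ?_) (by positivity)
  rw [abs_of_nonneg ht]
  have := neg_abs_le (a j).im
  linarith [hM j]

lemma SL_bot {c a : ι → ℂ} {t : ℂ} {b M : ℝ} (h0 : ∑ j, c j = 0) (hb0 : 0 ≤ b) (hb : b < Real.pi / 2)
    (h : ∀ j, |(a j).re - t.im| ≤ b) (hM : ∀ j, |(a j).im| ≤ M) (ht : t.re ≤ 0) :
    ‖SL c a t + -Complex.I * ∑ j, c j * a j‖ ≤ (∑ j, ‖c j‖) * (1 / Real.cos b * Real.exp (2 * (M - |t.re|))) := by
  have hcb : 0 < Real.cos b := Real.cos_pos_of_mem_Ioo ⟨by linarith [Real.pi_pos], hb⟩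
  rw [SL_shift h0]
  refine SL_sum fun j => ?_
  rw [neg_mul, ← sub_eq_add_neg]
  refine (lc_le' (by rw [a1_re]; exact h j) hb).trans ?_
  rw [a1_im]
  refine mul_le_mul_of_nonneg_left (Real.exp_le_exp.2 ?_) (by positivity)
  rw [abs_of_nonpos ht]
  have := le_abs_self (a j).im
  linarith [hM j]

lemma SL_lin {c a : ι → ℂ} {t : ℂ} {b M : ℝ} (hb : b < Real.pi / 2)
    (h : ∀ j, |(a j).re - t.im| ≤ b) (hM : ∀ j, |(a j).im| ≤ M) (ht : |t.re| ≤ M) :
    ‖SL c a t‖ ≤ (∑ j, ‖c j‖) * (3 * (1 + M) + 1 / Real.cos b) := by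
  refine SL_sum fun j => ?_
  have h1 := lc_lin (v := a j + Complex.I * t) (by rw [a1_re]; exact h j) hb
  refine h1.trans ?_
  have h2 := Complex.norm_le_abs_re_add_abs_im (a j + Complex.I * t)
  rw [a1_re, a1_im] at h2
  have h3 := h j
  have h4 : |(a j).im + t.re| ≤ M + M := (abs_add_le _ _).trans (add_le_add (hM j) ht)
  have h5 : Real.log 2 ≤ 1 := by
    have := Real.log_two_lt_d9
    linarith
  have h6 := Real.pi_lt_d2
  have hM0 : 0 ≤ M := (abs_nonneg _).trans ht
  linarith

variable {w w' : ℂ}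

/-- coefficients of the logarithm of the ratio -/
def cD : Fin 10 → ℂ := ![-2, 2, 1, -1, 1, 1, -1, 1, -1, -1]

/-- positions of the logarithm of the ratio -/
def aD (w w' : ℂ) : Fin 10 → ℂ :=
  ![3 * l, 0, 3 * l - zz w w', -zz w w', 5 * l - w, 3 * l - w, 4 * l - w, l - w', 2 * l - w', -w']

/-- logarithm of minus the ratio, species `true` -/
def Ds (w w' : ℂ) (t : ℂ) : ℂ := SL cD (aD w w') t

/-- **logarithm of minus the ratio regular / dislocated** -/
def Dl (w w' : ℂ) (b : Bool) (t : ℂ) : ℂ := if b then Ds w w' t else Ds w' w t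

lemma G5.symm (h : G5 w w') : G5 w' w := ⟨h.h', h.h⟩

lemma zz_symm (w w' : ℂ) : zz w' w = zz w w' := by
  unfold zz
  rw [add_comm]

lemma MM_symm (w w' : ℂ) : MM w' w = MM w w' := max_comm _ _

lemma cD_sum : ∑ j, cD j = 0 := by
  simp [cD, Fin.sum_univ_succ]

lemma cD_sum1 (w w' : ℂ) : ∑ j, cD j * aD w w' j = w' - w := by
  simp [cD, aD, Fin.sum_univ_succ]
  ring

lemma aD_st (h : G5 w w') (j : Fin 10) : -(5 / 4 * l) ≤ (aD w w' j).re ∧ (aD w w' j).re ≤ 15 / 4 * l := by
  have hl := l_pos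
  have hz := zz_re w w'
  obtain ⟨h1, h2⟩ := h
  rw [h1, h2] at hz
  constructor <;> fin_cases j <;> simp [aD, hz, h1, h2] <;> linarith

lemma aD_im (w w' : ℂ) (j : Fin 10) : |(aD w w' j).im| ≤ MM w w' := by
  have h1 : |w.im| ≤ MM w w' := le_max_left _ _
  have h2 : |w'.im| ≤ MM w w' := le_max_right _ _
  have h0 := MM_nonneg w w'
  have hz := zz_im w w'
  have hz2 : |(zz w w').im| ≤ MM w w' := by
    rw [hz, abs_div, abs_neg, abs_two, div_le_iff₀ two_pos]
    exact (abs_add_le _ _).trans (by linarith)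
  fin_cases j <;> simp [aD] <;> assumption

lemma D_lt (h : G5 w w') (j : Fin 10) {t : ℂ} (ht : t ∈ St) : |(aD w w' j).re - t.im| < Real.pi / 2 := by
  have hl := l_pos
  obtain ⟨h1, h2⟩ := aD_st h j
  obtain ⟨h3, h4⟩ := ht
  rw [← four_l]
  exact abs_lt.2 ⟨by linarith, by linarith⟩

/-- distance to the boundary of the strip -/
def bD (y1 y2 : ℝ) : ℝ := 4 * l - min (y1 + l / 4) (11 / 4 * l - y2)

lemma bD_lt {y1 y2 : ℝ} (h1 : -(l / 4) < y1) (h2 : y2 < 11 / 4 * l) : bD y1 y2 < Real.pi / 2 := by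
  unfold bD
  rw [← four_l]
  have : 0 < min (y1 + l / 4) (11 / 4 * l - y2) := lt_min (by linarith) (by linarith)
  linarith

lemma bD_nonneg {y1 y2 : ℝ} (h12 : y1 ≤ y2) : 0 ≤ bD y1 y2 := by
  have hl := l_pos
  have h3 := min_le_left (y1 + l / 4) (11 / 4 * l - y2)
  have h4 := min_le_right (y1 + l / 4) (11 / 4 * l - y2)
  unfold bD
  linarith

lemma cos_bD {y1 y2 : ℝ} (h1 : -(l / 4) < y1) (h2 : y2 < 11 / 4 * l) (h12 : y1 ≤ y2) :
    0 < Real.cos (bD y1 y2) :=
  Real.cos_pos_of_mem_Ioo ⟨by linarith [Real.pi_pos, bD_nonneg h12], bD_lt h1 h2⟩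

lemma D_le (h : G5 w w') (j : Fin 10) {t : ℂ} {y1 y2 : ℝ} (ht1 : y1 ≤ t.im) (ht2 : t.im ≤ y2) :
    |(aD w w' j).re - t.im| ≤ bD y1 y2 := by
  have hl := l_pos
  obtain ⟨h1, h2⟩ := aD_st h j
  have h3 := min_le_left (y1 + l / 4) (11 / 4 * l - y2)
  have h4 := min_le_right (y1 + l / 4) (11 / 4 * l - y2)
  unfold bD
  exact abs_le.2 ⟨by linarith, by linarith⟩

lemma dP_symm (w w' t : ℂ) : dP w' w t = dP w w' t := by
  unfold dP
  rw [zz_symm]
  ring

lemma dM_symm (w w' t : ℂ) : dM w' w t = -dM w w' t := by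
  unfold dM pT
  ring

lemma Ds_hd (h : G5 w w') {t : ℂ} (ht : t ∈ St) :
    HasDerivAt (Ds w w') (1 / 2 * (dP w w' t + dM w w' t)) t := by
  refine (SL_hd fun j => D_lt h j ht).congr_deriv ?_
  simp only [Fin.sum_univ_succ, cD, aD]
  simp
  unfold dP dM eT pT
  rw [show (3 * l - 0 + Complex.I * t : ℂ) = 3 * l + Complex.I * t by ring,
    show (-0 + Complex.I * t : ℂ) = Complex.I * t by ring,
    show (3 * l - (w - 2 * l) + Complex.I * t : ℂ) = 5 * l - w + Complex.I * t by ring,
    show (-(w - 2 * l) + Complex.I * t : ℂ) = 2 * l - w + Complex.I * t by ring,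
    show (3 * l - (w - l) + Complex.I * t : ℂ) = 4 * l - w + Complex.I * t by ring,
    show (-(w - l) + Complex.I * t : ℂ) = l - w + Complex.I * t by ring,
    show (3 * l - (w' - 2 * l) + Complex.I * t : ℂ) = 5 * l - w' + Complex.I * t by ring,
    show (-(w' - 2 * l) + Complex.I * t : ℂ) = 2 * l - w' + Complex.I * t by ring,
    show (3 * l - (w' - l) + Complex.I * t : ℂ) = 4 * l - w' + Complex.I * t by ring,
    show (-(w' - l) + Complex.I * t : ℂ) = l - w' + Complex.I * t by ring]
  ring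

theorem Dl_hd (h : G5 w w') (b : Bool) {t : ℂ} (ht : t ∈ St) :
    HasDerivAt (Dl w w' b) (1 / 2 * (dP w w' t + sgb b * dM w w' t)) t := by
  cases b
  · have h1 : Dl w w' false = Ds w' w := by funext t; simp [Dl]
    rw [h1]
    refine (Ds_hd h.symm ht).congr_deriv ?_
    rw [dP_symm, dM_symm, sgb_false]
    ring
  · have h1 : Dl w w' true = Ds w w' := by funext t; simp [Dl]
    rw [h1]
    refine (Ds_hd h ht).congr_deriv ?_
    rw [sgb_true]
    ring

/-- the constant of the limits -/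
def CDl (y1 y2 : ℝ) : ℝ := (∑ j, ‖cD j‖) * (1 / Real.cos (bD y1 y2))

theorem Dl_top (h : G5 w w') (b : Bool) {y1 y2 : ℝ} (h1 : -(l / 4) < y1) (h2 : y2 < 11 / 4 * l) {t : ℂ}
    (ht1 : y1 ≤ t.im) (ht2 : t.im ≤ y2) (ht : 0 ≤ t.re) :
    ‖Dl w w' b t - sgb b * (Complex.I * (w - w'))‖ ≤ CDl y1 y2 * Real.exp (2 * (MM w w' - |t.re|)) := by
  unfold CDl
  rw [mul_assoc]
  cases b
  · have := SL_top (t := t) cD_sum (bD_nonneg (ht1.trans ht2)) (bD_lt h1 h2)
      (fun j => D_le h.symm j ht1 ht2) (aD_im w' w) ht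
    rw [cD_sum1, MM_symm] at this
    convert this using 2
    simp only [Dl, Ds, sgb_false, Bool.false_eq_true, if_false]
    ring
  · have := SL_top (t := t) cD_sum (bD_nonneg (ht1.trans ht2)) (bD_lt h1 h2)
      (fun j => D_le h j ht1 ht2) (aD_im w w') ht
    rw [cD_sum1] at this
    convert this using 2
    simp only [Dl, Ds, sgb_true, if_true]
    ring

theorem Dl_bot (h : G5 w w') (b : Bool) {y1 y2 : ℝ} (h1 : -(l / 4) < y1) (h2 : y2 < 11 / 4 * l) {t : ℂ}
    (ht1 : y1 ≤ t.im) (ht2 : t.im ≤ y2) (ht : t.re ≤ 0) :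
    ‖Dl w w' b t + sgb b * (Complex.I * (w - w'))‖ ≤ CDl y1 y2 * Real.exp (2 * (MM w w' - |t.re|)) := by
  unfold CDl
  rw [mul_assoc]
  cases b
  · have := SL_bot (t := t) cD_sum (bD_nonneg (ht1.trans ht2)) (bD_lt h1 h2)
      (fun j => D_le h.symm j ht1 ht2) (aD_im w' w) ht
    rw [cD_sum1, MM_symm] at this
    convert this using 2
    simp only [Dl, Ds, sgb_false, Bool.false_eq_true, if_false]
    ring
  · have := SL_bot (t := t) cD_sum (bD_nonneg (ht1.trans ht2)) (bD_lt h1 h2)
      (fun j => D_le h j ht1 ht2) (aD_im w w') ht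
    rw [cD_sum1] at this
    convert this using 2
    simp only [Dl, Ds, sgb_true, if_true]
    ring

/-- the constant of the linear bound -/
def CDn (y1 y2 : ℝ) : ℝ := (∑ j, ‖cD j‖) * (3 + 1 / Real.cos (bD y1 y2)) + 2

lemma dww (h : G5 w w') : ‖Complex.I * (w - w')‖ ≤ 2 * MM w w' := by
  have h1 : w - w' = ((w.im - w'.im : ℝ) : ℂ) * Complex.I := by
    apply Complex.ext
    · simp [h.h, h.h']
    · simp
  rw [h1, norm_mul, norm_mul, Complex.norm_I, mul_one, one_mul, Complex.norm_real, Real.norm_eq_abs]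
  have a1 : |w.im| ≤ MM w w' := le_max_left _ _
  have a2 : |w'.im| ≤ MM w w' := le_max_right _ _
  exact (abs_sub _ _).trans (by linarith)

theorem Dl_lin (h : G5 w w') (b : Bool) {y1 y2 : ℝ} (h1 : -(l / 4) < y1) (h2 : y2 < 11 / 4 * l) {t : ℂ}
    (ht1 : y1 ≤ t.im) (ht2 : t.im ≤ y2) : ‖Dl w w' b t‖ ≤ CDn y1 y2 * (1 + MM w w') := by
  have hc := cos_bD h1 h2 (ht1.trans ht2)
  have hM := MM_nonneg w w'
  obtain ⟨S, hS⟩ : ∃ S : ℝ, S = ∑ j, ‖cD j‖ := ⟨_, rfl⟩
  have hS0 : 0 ≤ S := by rw [hS]; positivity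
  have hi : 0 ≤ 1 / Real.cos (bD y1 y2) := by positivity
  have hd := dww h
  have hsg : ‖sgb b * (Complex.I * (w - w'))‖ ≤ 2 * MM w w' := by
    rw [norm_mul, sgb_norm, one_mul]
    exact hd
  rcases le_total |t.re| (MM w w') with ht | ht
  · have a1 : ‖Dl w w' b t‖ ≤ (∑ j, ‖cD j‖) * (3 * (1 + MM w w') + 1 / Real.cos (bD y1 y2)) := by
      cases b
      · have := SL_lin (c := cD) (a := aD w' w) (bD_lt h1 h2) (fun j => D_le h.symm j ht1 ht2) (aD_im w' w)
          (by rw [MM_symm]; exact ht)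
        rw [MM_symm] at this
        simpa [Dl, Ds] using this
      · have := SL_lin (c := cD) (a := aD w w') (bD_lt h1 h2) (fun j => D_le h j ht1 ht2) (aD_im w w') ht
        simpa [Dl, Ds] using this
    refine a1.trans ?_
    unfold CDn
    rw [← hS]
    nlinarith [mul_nonneg hS0 (mul_nonneg hi hM)]
  · have h3 : Real.exp (2 * (MM w w' - |t.re|)) ≤ 1 := Real.exp_le_one_iff.2 (by nlinarith)
    have h4 : CDl y1 y2 * Real.exp (2 * (MM w w' - |t.re|)) ≤ S * (1 / Real.cos (bD y1 y2)) := by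
      unfold CDl
      rw [← hS]
      exact mul_le_of_le_one_right (mul_nonneg hS0 hi) h3
    have h5 : 0 ≤ S * (1 / Real.cos (bD y1 y2)) := mul_nonneg hS0 hi
    unfold CDn
    rw [← hS]
    rcases le_total 0 t.re with h0 | h0
    · have a1 := (Dl_top h b h1 h2 ht1 ht2 h0).trans h4
      have a2 := norm_sub_norm_le (Dl w w' b t) (sgb b * (Complex.I * (w - w')))
      nlinarith [mul_nonneg h5 hM, mul_nonneg hS0 hM]
    · have a1 := (Dl_bot h b h1 h2 ht1 ht2 h0).trans h4
      have a2 := norm_sub_norm_le (Dl w w' b t) (-(sgb b * (Complex.I * (w - w'))))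
      rw [sub_neg_eq_add, norm_neg] at a2
      nlinarith [mul_nonneg h5 hM, mul_nonneg hS0 hM]


/-! ### limits on the real line, the response -/

lemma lim_of {f : ℝ → ℂ} {v : ℂ} {C M : ℝ} (h : ∀ t : ℝ, 0 ≤ t → ‖f t - v‖ ≤ C * Real.exp (2 * (M - t))) :
    Tendsto f atTop (𝓝 v) := by
  rw [tendsto_iff_norm_sub_tendsto_zero]
  have h1 : Tendsto (fun t : ℝ => C * Real.exp (2 * (M - t))) atTop (𝓝 0) := by
    have h2 : Tendsto (fun t : ℝ => 2 * (M - t)) atTop atBot := by
      refine Tendsto.const_mul_atBot two_pos ?_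
      exact tendsto_atBot_add_const_left _ M tendsto_neg_atTop_atBot
    have := (Real.tendsto_exp_atBot.comp h2).const_mul C
    rwa [mul_zero] at this
  refine squeeze_zero' (Eventually.of_forall fun _ => norm_nonneg _) ?_ h1
  filter_upwards [eventually_ge_atTop 0] with t ht
  exact h t ht

lemma Dl_lim (h : G5 w w') (b : Bool) :
    Tendsto (fun t : ℝ => Dl w w' b t) atTop (𝓝 (sgb b * (Complex.I * (w - w')))) := by
  have hl := l_pos
  refine lim_of (C := CDl 0 0) (M := MM w w') fun t ht => ?_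
  have := Dl_top h b (y1 := 0) (y2 := 0) (t := (t : ℂ)) (by linarith) (by linarith) (by simp) (by simp)
    (by simpa using ht)
  rwa [Complex.ofReal_re, abs_of_nonneg ht] at this

lemma Dl_lim_neg (h : G5 w w') (b : Bool) :
    Tendsto (fun t : ℝ => Dl w w' b ((-t : ℝ) : ℂ)) atTop (𝓝 (-(sgb b * (Complex.I * (w - w'))))) := by
  have hl := l_pos
  refine lim_of (C := CDl 0 0) (M := MM w w') fun t ht => ?_
  have := Dl_bot h b (y1 := 0) (y2 := 0) (t := ((-t : ℝ) : ℂ)) (by linarith) (by linarith) (by simp) (by simp)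
    (by simpa using ht)
  rw [Complex.ofReal_re, abs_neg, abs_of_nonneg ht] at this
  rwa [sub_neg_eq_add]

/-- **the field of the two species solves `rsp β = Δ`** -/
theorem rsp_Dl (h : G5 w w') (b : Bool) {t : ℂ} (ht : t ∈ St) :
    PB.rsp (be w w') b t = Dl w w' b t := by
  refine rsp_be h (fun b t ht => Dl_hd h b ht) ?_ ?_ b ht
  · have := (Dl_lim h true).add (Dl_lim h false)
    rw [sgb_true, sgb_false, neg_one_mul, one_mul, add_neg_cancel] at this
    exact this
  · have := ((Dl_lim h true).sub (Dl_lim h false)).add ((Dl_lim_neg h true).sub (Dl_lim_neg h false))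
    rw [sgb_true, sgb_false] at this
    have e : (1 * (Complex.I * (w - w')) - -1 * (Complex.I * (w - w')) +
      (-(1 * (Complex.I * (w - w'))) - -(-1 * (Complex.I * (w - w'))))) = 0 := by ring
    rw [e] at this
    exact this

/-! ### the exponential -/

lemma four_lC : (4 * l : ℂ) = Real.pi / 2 := by
  have := four_l
  have h2 : ((4 * l : ℝ) : ℂ) = ((Real.pi / 2 : ℝ) : ℂ) := by rw [this]
  push_cast at h2
  exact h2

lemma cos_sin (x : ℂ) : Complex.cos x = Complex.sin (4 * l - x) := by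
  rw [four_lC, Complex.sin_pi_div_two_sub]

lemma sin_four_add (x : ℂ) : Complex.sin (4 * l + x) = Complex.cos x := by
  rw [show 4 * (l : ℂ) + x = 4 * l - -x by ring, ← cos_sin, Complex.cos_neg]

/-- the terms of `Ds` -/
lemma Ds_eq (w w' t : ℂ) : Ds w w' t = -2 * Complex.log (Complex.cos (3 * l + Complex.I * t)) +
      2 * Complex.log (Complex.cos (0 + Complex.I * t)) +
      Complex.log (Complex.cos (3 * l - zz w w' + Complex.I * t)) -
      Complex.log (Complex.cos (-zz w w' + Complex.I * t)) +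
      Complex.log (Complex.cos (5 * l - w + Complex.I * t)) +
      Complex.log (Complex.cos (3 * l - w + Complex.I * t)) -
      Complex.log (Complex.cos (4 * l - w + Complex.I * t)) +
      Complex.log (Complex.cos (l - w' + Complex.I * t)) -
      Complex.log (Complex.cos (2 * l - w' + Complex.I * t)) -
      Complex.log (Complex.cos (-w' + Complex.I * t)) := by
  unfold Ds SL
  simp only [Fin.sum_univ_succ, cD, aD]
  simp
  ring

lemma cos_ne_D (h : G5 w w') {t : ℂ} (ht : t ∈ St) (j : Fin 10) :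
    Complex.cos (aD w w' j + Complex.I * t) ≠ 0 := cos_ne (by rw [a1_re]; exact D_lt h j ht)

open NUP1.Leg (Ck Dk) in
lemma exp_Ds (h : G5 w w') {t : ℂ} (ht : t ∈ St) : Complex.exp (Ds w w' t) =
    -(Complex.sin (l + Complex.I * t + 3 * l) ^ 2 / Complex.sin (l + Complex.I * t - 2 * l) ^ 2 *
      (Ck (w - (l + Complex.I * t)) * Dk (w' - (l + Complex.I * t))) *
      (Complex.sin (zz w w' - (l + Complex.I * t) + 2 * l) /
        Complex.sin (zz w w' - (l + Complex.I * t) - 3 * l))) := by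
  have n := cos_ne_D h ht
  have n0 := n 0
  have n1 := n 1
  have n2 := n 2
  have n3 := n 3
  have n4 := n 4
  have n5 := n 5
  have n6 := n 6
  have n7 := n 7
  have n8 := n 8
  have n9 := n 9
  change Complex.cos (3 * l + Complex.I * t) ≠ 0 at n0
  change Complex.cos (0 + Complex.I * t) ≠ 0 at n1
  change Complex.cos (3 * l - zz w w' + Complex.I * t) ≠ 0 at n2
  change Complex.cos (-zz w w' + Complex.I * t) ≠ 0 at n3
  change Complex.cos (5 * l - w + Complex.I * t) ≠ 0 at n4
  change Complex.cos (3 * l - w + Complex.I * t) ≠ 0 at n5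
  change Complex.cos (4 * l - w + Complex.I * t) ≠ 0 at n6
  change Complex.cos (l - w' + Complex.I * t) ≠ 0 at n7
  change Complex.cos (2 * l - w' + Complex.I * t) ≠ 0 at n8
  change Complex.cos (-w' + Complex.I * t) ≠ 0 at n9
  rw [Ds_eq, show ∀ a b c d e f g i j k : ℂ, -2 * a + 2 * b + c - d + e + f - g + i - j - k =
    -(a + a) + (b + b) + c - d + e + f - g + i - j - k from fun _ _ _ _ _ _ _ _ _ _ => by ring]
  simp only [Complex.exp_add, Complex.exp_sub, Complex.exp_neg]
  rw [Complex.exp_log n0, Complex.exp_log n1, Complex.exp_log n2, Complex.exp_log n3, Complex.exp_log n4,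
    Complex.exp_log n5, Complex.exp_log n6, Complex.exp_log n7, Complex.exp_log n8, Complex.exp_log n9]
  have f0 : Complex.sin (l + Complex.I * t - 2 * l) = -Complex.cos (3 * l + Complex.I * t) := by
    rw [cos_sin, ← Complex.sin_neg]
    congr 1
    ring
  have f1 : Complex.sin (l + Complex.I * t + 3 * l) = Complex.cos (0 + Complex.I * t) := by
    rw [zero_add, ← sin_four_add]
    congr 1
    ring
  have f2 : Complex.sin (zz w w' - (l + Complex.I * t) + 2 * l) =
      Complex.cos (3 * l - zz w w' + Complex.I * t) := by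
    rw [cos_sin]
    congr 1
    ring
  have f3 : Complex.sin (zz w w' - (l + Complex.I * t) - 3 * l) =
      -Complex.cos (-zz w w' + Complex.I * t) := by
    rw [← sin_four_add, ← Complex.sin_neg]
    congr 1
    ring
  have f4 : Complex.sin (w - (l + Complex.I * t)) = Complex.cos (5 * l - w + Complex.I * t) := by
    rw [cos_sin]
    congr 1
    ring
  have f5 : Complex.sin (w - (l + Complex.I * t) + 2 * l) = Complex.cos (3 * l - w + Complex.I * t) := by
    rw [cos_sin]
    congr 1
    ring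
  have f6 : Complex.sin (w - (l + Complex.I * t) + l) = Complex.cos (4 * l - w + Complex.I * t) := by
    rw [cos_sin]
    congr 1
    ring
  have f7 : Complex.cos (w' - (l + Complex.I * t)) = Complex.cos (l - w' + Complex.I * t) := by
    rw [← Complex.cos_neg]
    congr 1
    ring
  have f8 : Complex.sin (3 * l + (w' - (l + Complex.I * t))) = Complex.cos (2 * l - w' + Complex.I * t) := by
    rw [cos_sin]
    congr 1
    ring
  have f9 : Complex.sin (3 * l - (w' - (l + Complex.I * t))) = Complex.cos (-w' + Complex.I * t) := by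
    rw [← sin_four_add]
    congr 1
    ring
  have c1 : Ck (w - (l + Complex.I * t)) = Complex.cos (5 * l - w + Complex.I * t) *
      Complex.cos (3 * l - w + Complex.I * t) / Complex.cos (4 * l - w + Complex.I * t) := by
    rw [← f4, ← f5, ← f6]
    rfl
  have c2 : Dk (w' - (l + Complex.I * t)) = Complex.cos (l - w' + Complex.I * t) /
      (Complex.cos (-w' + Complex.I * t) * Complex.cos (2 * l - w' + Complex.I * t)) := by
    rw [← f7, ← f8, ← f9]
    rfl
  rw [f0, f1, f2, f3, c1, c2]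
  field_simp

open NUP1.Leg (Ck Dk) in
/-- **minus the ratio regular / dislocated, species `true`** -/
theorem exp_Dl_true (h : G5 w w') {t : ℂ} (ht : t ∈ St) : Complex.exp (Dl w w' true t) =
    -(Complex.sin (l + Complex.I * t + 3 * l) ^ 2 / Complex.sin (l + Complex.I * t - 2 * l) ^ 2 *
      (Ck (w - (l + Complex.I * t)) * Dk (w' - (l + Complex.I * t))) *
      (Complex.sin (zz w w' - (l + Complex.I * t) + 2 * l) /
        Complex.sin (zz w w' - (l + Complex.I * t) - 3 * l))) := by
  have e : Dl w w' true t = Ds w w' t := by simp [Dl]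
  rw [e]
  exact exp_Ds h ht

open NUP1.Leg (Ck Dk) in
/-- **minus the ratio regular / dislocated, species `false`** -/
theorem exp_Dl_false (h : G5 w w') {t : ℂ} (ht : t ∈ St) : Complex.exp (Dl w w' false t) =
    -(Complex.sin (l + Complex.I * t + 3 * l) ^ 2 / Complex.sin (l + Complex.I * t - 2 * l) ^ 2 *
      (Dk (w - (l + Complex.I * t)) * Ck (w' - (l + Complex.I * t))) *
      (Complex.sin (zz w w' - (l + Complex.I * t) + 2 * l) /
        Complex.sin (zz w w' - (l + Complex.I * t) - 3 * l))) := by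
  have e : Dl w w' false t = Ds w' w t := by simp [Dl]
  rw [e, exp_Ds h.symm ht, zz_symm, mul_comm (Ck _) (Dk _)]

/-! ### the sum over the species -/

lemma LS_cos (x : ℂ) : Complex.log (Complex.sin (4 * l - x)) = Complex.log (Complex.cos x) := by
  rw [← cos_sin]

lemma fS_cos (v x : ℂ) (h : v = 4 * l - x) : Pool.Agent.PB.fS v =
    Complex.log (Complex.cos x) - Complex.log (Complex.cos (x - 3 * l)) := by
  change Complex.log (Complex.sin v) - Complex.log (Complex.sin (v + 3 * l)) = _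
  rw [← LS_cos, ← LS_cos, h]
  congr 3
  ring

lemma LCD_cos (v x : ℂ) (h : v = 4 * l - x) : Pool.Agent.PB.LCD v =
    Complex.log (Complex.cos x) - Complex.log (Complex.cos (x - 3 * l)) -
    (Complex.log (Complex.cos (x - l)) - Complex.log (Complex.cos (x - 4 * l))) +
    (Complex.log (Complex.cos (x - 2 * l)) - Complex.log (Complex.cos (x - 5 * l))) := by
  unfold Pool.Agent.PB.LCD
  rw [fS_cos v x h, fS_cos (v + l) (x - l) (by rw [h]; ring), fS_cos (v + 2 * l) (x - 2 * l) (by rw [h]; ring),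
    show x - l - 3 * (l : ℂ) = x - 4 * l by ring, show x - 2 * (l : ℂ) - 3 * l = x - 5 * l by ring]

/-- **the sum over the species** at a complex height -/
theorem Dl_GMc (w w' t : ℂ) : Dl w w' true t + Dl w w' false t =
    -4 * Pool.Agent.PB.fS (l - t * Complex.I) + 2 * Pool.Agent.PB.fS (zz w w' + l - t * Complex.I) +
      (Pool.Agent.PB.LCD (w - l - t * Complex.I) + Pool.Agent.PB.LCD (w' - l - t * Complex.I)) := by
  have e1 : Dl w w' true t = Ds w w' t := by simp [Dl]
  have e2 : Dl w w' false t = Ds w' w t := by simp [Dl]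
  rw [e1, e2, Ds_eq, Ds_eq, zz_symm w w',
    fS_cos (l - t * Complex.I) (3 * l + Complex.I * t) (by ring),
    fS_cos (zz w w' + l - t * Complex.I) (3 * l - zz w w' + Complex.I * t) (by ring),
    LCD_cos (w - l - t * Complex.I) (5 * l - w + Complex.I * t) (by ring),
    LCD_cos (w' - l - t * Complex.I) (5 * l - w' + Complex.I * t) (by ring)]
  rw [show (3 * l + Complex.I * t - 3 * l : ℂ) = 0 + Complex.I * t by ring,
    show (3 * l - zz w w' + Complex.I * t - 3 * l : ℂ) = -zz w w' + Complex.I * t by ring,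
    show (5 * l - w + Complex.I * t - 3 * l : ℂ) = 2 * l - w + Complex.I * t by ring,
    show (5 * l - w + Complex.I * t - l : ℂ) = 4 * l - w + Complex.I * t by ring,
    show (5 * l - w + Complex.I * t - 4 * l : ℂ) = l - w + Complex.I * t by ring,
    show (5 * l - w + Complex.I * t - 2 * l : ℂ) = 3 * l - w + Complex.I * t by ring,
    show (5 * l - w + Complex.I * t - 5 * l : ℂ) = -w + Complex.I * t by ring,
    show (5 * l - w' + Complex.I * t - 3 * l : ℂ) = 2 * l - w' + Complex.I * t by ring,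
    show (5 * l - w' + Complex.I * t - l : ℂ) = 4 * l - w' + Complex.I * t by ring,
    show (5 * l - w' + Complex.I * t - 4 * l : ℂ) = l - w' + Complex.I * t by ring,
    show (5 * l - w' + Complex.I * t - 2 * l : ℂ) = 3 * l - w' + Complex.I * t by ring,
    show (5 * l - w' + Complex.I * t - 5 * l : ℂ) = -w' + Complex.I * t by ring]
  ring

/-- the sum over the species on the line is `PBTn.GM` -/
theorem Dl_GM (w w' : ℂ) (s : ℝ) : Dl w w' true s + Dl w w' false s = PBTn.GM (zz w w') w w' s :=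
  Dl_GMc w w' s

/-! ### the forces of the path -/

/-- the leg force is `h00 (t + i z)` of `PB/EInst` -/
lemma eT_h00 {r t : ℂ} (h1 : Complex.cos (3 * l - r + Complex.I * t) ≠ 0)
    (h2 : Complex.cos (-r + Complex.I * t) ≠ 0) : eT r t = Complex.I * Complex.cos l /
      (Complex.cosh (t + Complex.I * r) * Complex.sin (l - Complex.I * (t + Complex.I * r))) := by
  have e1 : Complex.cosh (t + Complex.I * r) = Complex.cos (-r + Complex.I * t) := by
    rw [← Complex.cos_mul_I, ← Complex.cos_neg]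
    rw [show (t + Complex.I * r) * Complex.I = -(r + -(Complex.I * t)) by
      linear_combination r * Complex.I_sq, neg_neg, ← Complex.cos_neg]
    congr 1
    ring
  have e2 : Complex.sin (l - Complex.I * (t + Complex.I * r)) = Complex.cos (3 * l - r + Complex.I * t) := by
    rw [cos_sin]
    congr 1
    linear_combination (-r) * Complex.I_sq
  have e3 : Complex.cos l = Complex.sin (3 * l) := by
    rw [cos_sin]
    congr 1
    ring
  have e4 : Complex.sin (3 * l) = Complex.sin (3 * l - r + Complex.I * t) * Complex.cos (-r + Complex.I * t) -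
      Complex.cos (3 * l - r + Complex.I * t) * Complex.sin (-r + Complex.I * t) := by
    rw [← Complex.sin_sub]
    congr 1
    ring
  unfold eT
  rw [e1, e2, e3, e4, Complex.tan_eq_sin_div_cos, Complex.tan_eq_sin_div_cos]
  field_simp

lemma z_cos (h : G5 w w') {t : ℂ} (ht : t ∈ St) :
    Complex.cos (3 * l - zz w w' + Complex.I * t) ≠ 0 ∧ Complex.cos (-zz w w' + Complex.I * t) ≠ 0 :=
  ⟨cos_ne_D h ht 2, cos_ne_D h ht 3⟩

lemma eT_leg (h : G5 w w') {t : ℂ} (ht : t ∈ St) : eT (zz w w') t = Complex.I * Complex.cos l /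
      (Complex.cosh (t + Complex.I * zz w w') * Complex.sin (l - Complex.I * (t + Complex.I * zz w w'))) :=
  eT_h00 (z_cos h ht).1 (z_cos h ht).2

/-- **`p` with the leg force** -/
theorem pI_leg (h : G5 w w') : pI w w' = ∑ b, ∫ t : ℝ, be w w' b t * (Complex.I * Complex.cos l /
      (Complex.cosh (t + Complex.I * zz w w') * Complex.sin (l - Complex.I * (t + Complex.I * zz w w')))) := by
  rw [pI_sum h.geo]
  refine Finset.sum_congr rfl fun b _ => ?_
  refine integral_congr_ae (Eventually.of_forall fun t => ?_)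
  simp only
  rw [eT_leg h (real_St t)]

/-- **`q` with the potential** -/
theorem qI_Dl (h : G5 w w') : qI w w' = ∑ b, ∫ t : ℝ, be w w' b t * deriv (Dl w w' b) t := by
  rw [qI_sum h.geo]
  refine Finset.sum_congr rfl fun b _ => ?_
  refine integral_congr_ae (Eventually.of_forall fun t => ?_)
  simp only
  rw [(Dl_hd h b (real_St t)).deriv]

lemma be_leg_int (h : G5 w w') (b : Bool) : Integrable fun t : ℝ => be w w' b t *
    (Complex.I * Complex.cos l /
      (Complex.cosh (t + Complex.I * zz w w') * Complex.sin (l - Complex.I * (t + Complex.I * zz w w')))) := by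
  refine (mul_eT_int h.geo (be_int h.geo b)).congr (Eventually.of_forall fun t => ?_)
  simp only
  rw [eT_leg h (real_St t)]

lemma be_Dl_int (h : G5 w w') (b : Bool) : Integrable fun t : ℝ => be w w' b t * deriv (Dl w w' b) t := by
  have hg := h.geo
  refine (((mul_dP_int hg (be_int hg b)).add ((mul_dM_int hg (be_int hg b)).const_mul (sgb b))).const_mul
    (1 / 2)).congr (Eventually.of_forall fun t => ?_)
  simp only [Pi.add_apply]
  rw [(Dl_hd h b (real_St t)).deriv]
  ring

end

end PBT3
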