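import Pool.Agent.PB.TRsD
import Pool.Agent.PB.TrG7
import Pool.Agent.PB.BsR

/-!
# Plan B, (TR), s-path: regular functional = functional of the family at `s = 1`

* `FF_congrZ`, `FA_congrZ`: the functionals depend on the one body functions at the quanta on the curve
  and at the objects only; `FF_sgn`, `FA_sgn`: signs `(-1) ^ quanta`;
* **`FF_WL`**: `FF (ZW ..) P n n = FF (expZ (ZLw ..) (DT w w') 1) P n n`, `FA_WL`: with moduli;
* `ZW_RZW`: `ZW m β ex ex0 w w' = RZW (R0 m β ex ex0) w w'`;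
* `DT_Dl`: `DT w w' b none (l + i t) = Dl w w' b t`.
-/

set_option autoImplicit false
set_option linter.unusedSectionVars false
set_option linter.unusedVariables false

noncomputable section

open Complex MeasureTheory Finset
open scoped ENNReal

namespace PBTs

open NUO NUP1 NUCR NUP1S NUP1S.Ab NUP1S.AbC NUGC PBF
open PBX (R0)
open PBT3 (zz)
open PBTD (DelQ DelB DelB' sb KA)

/-! ### congruence -/

section congr

variable {Z Z' : Bool → Option O3 → ℂ → ℂ} {P : NUO.Par} {n n' : ℕ} {η η' : Crs}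

theorem gK_congrZ {r : ℕ} {O : Fin r → Xo} {e e' : ℝ → ℝ}
    (h : ∀ s t, Z s none (NUO.pA e t) = Z' s none (NUO.pA e t)) {a b : ℕ}
    (x : (Fin a → ℝ) × (Fin b → ℝ)) :
    PBF.gK (gF Z P O) e e' a b x = PBF.gK (gF Z' P O) e e' a b x := by
  unfold PBF.gK Fc
  rw [Fintype.prod_sum_type, Fintype.prod_sum_type]
  have e1 : ∀ (s : Bool) (t : ℝ), hh p0 (gF Z P O) (crvC s NUP1.l (dA e) (dA e')) t =
      hh p0 (gF Z' P O) (crvC s NUP1.l (dA e) (dA e')) t := by
    intro s t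
    rw [hh_gF, hh_gF, h]
  simp only [cCt, Sum.elim_inl, Sum.elim_inr, e1]

theorem wK_congrZ {r : ℕ} {O : Fin r → Xo}
    (h : ∀ i, PBF.obK Z P.jL (ei P O i) (rr P O i) (O i) = PBF.obK Z' P.jL (ei P O i) (rr P O i) (O i)) :
    PBF.wK Z P O = PBF.wK Z' P O := by
  unfold PBF.wK
  rw [Finset.prod_congr rfl fun i _ => h i]

/-- **the functional depends on the values on the curve and at the objects** -/
theorem FF_congrZ (Ψ : Ins) (hq : ∀ r ≤ n + n', ∀ᵐ O ∂(Measure.pi fun _ : Fin r => nu),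
      ∀ s t, Z s none (NUO.pA (η r O) t) = Z' s none (NUO.pA (η r O) t))
    (ho : ∀ r (O : Fin r → Xo) i,
      PBF.obK Z P.jL (ei P O i) (rr P O i) (O i) = PBF.obK Z' P.jL (ei P O i) (rr P O i) (O i)) :
    PBF.FF Z P n n' η η' Ψ = PBF.FF Z' P n n' η η' Ψ := by
  unfold PBF.FF
  refine Finset.sum_congr rfl fun r hr => ?_
  congr 1
  have hr' : r ≤ n + n' := by
    have := Finset.mem_range.1 hr
    omega
  refine integral_congr_ae ?_
  filter_upwards [hq r hr'] with O hO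
  unfold PBF.trm
  split_ifs
  · rw [wK_congrZ (ho r O)]
    simp only [gK_congrZ hO]
  · rfl

theorem FA_congrZ (Ψ : Ins) (hq : ∀ r ≤ n + n', ∀ᵐ O ∂(Measure.pi fun _ : Fin r => nu),
      ∀ s t, Z s none (NUO.pA (η r O) t) = Z' s none (NUO.pA (η r O) t))
    (ho : ∀ r (O : Fin r → Xo) i,
      PBF.obK Z P.jL (ei P O i) (rr P O i) (O i) = PBF.obK Z' P.jL (ei P O i) (rr P O i) (O i)) :
    PBF.FA Z P n n' η η' Ψ = PBF.FA Z' P n n' η η' Ψ := by
  unfold PBF.FA
  refine Finset.sum_congr rfl fun r hr => ?_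
  congr 1
  have hr' : r ≤ n + n' := by
    have := Finset.mem_range.1 hr
    omega
  refine lintegral_congr_ae ?_
  filter_upwards [hq r hr'] with O hO
  unfold PBF.trA
  split_ifs
  · rw [wK_congrZ (ho r O)]
    simp only [gK_congrZ hO]
  · rfl

end congr

/-! ### signs -/

/-- the sign as a multiplicative insertion -/
def sgF : Bool → Option O3 → ℂ → ℂ := fun _ k _ => sgk k

theorem obF_sgF (jL e ρ : ℝ) (x : Xo) :
    obF sgF jL e ρ x = (-1) ^ (chg true x + chg false x) := by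
  unfold obF sgF chg sgk
  rcases hk : kd x with _ | _ | _ | _ | _ <;> simp only [] <;> cases sp x <;> norm_num

theorem quF_sgF (e : ℝ → ℝ) {a b : ℕ} (x : (Fin a → ℝ) × (Fin b → ℝ)) :
    quF sgF e x = (-1) ^ (a + b) := by
  unfold quF sgF sgk
  simp only [Finset.prod_const, Finset.card_univ, Fintype.card_fin]
  rw [pow_add]

section sgn

variable {Z : Bool → Option O3 → ℂ → ℂ} {P : NUO.Par} {n n' : ℕ} {η η' : Crs}

theorem Fa_sgF {r : ℕ} (O : Fin r → Xo) (a b : ℕ) (x : (Fin a → ℝ) × (Fin b → ℝ)) :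
    Fa sgF P η r O a b x = (-1) ^ (chgO O true + chgO O false + (a + b)) := by
  unfold Fa
  rw [quF_sgF]
  simp only [obF_sgF]
  rw [Finset.prod_pow_eq_pow_sum, ← pow_add, Finset.sum_add_distrib]
  rfl

theorem FF_sgn (Ψ : Ins) : PBF.FF (Zm Z sgF) P n n' η η' Ψ = (-1) ^ (n + n') * PBF.FF Z P n n' η η' Ψ := by
  unfold PBF.FF
  rw [Finset.mul_sum]
  refine Finset.sum_congr rfl fun r _ => ?_
  have e0 : ∀ O : Fin r → Xo, PBF.trm (Zm Z sgF) P n n' η η' Ψ r O =
      (-1) ^ (n + n') * PBF.trm Z P n n' η η' Ψ r O := by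
    intro O
    rw [trm_mul]
    unfold PBF.trm
    split_ifs with h
    · obtain ⟨h1, h2⟩ := h
      have e : ∀ x, Fa sgF P η r O (n - chgO O true) (n' - chgO O false) x = (-1) ^ (n + n') := by
        intro x
        rw [Fa_sgF]
        congr 1
        omega
      simp only [e]
      have e2 : ∀ x, PBF.gK (gF Z P O) (η r O) (η' r O) (n - chgO O true) (n' - chgO O false) x *
          ((-1) ^ (n + n') * Ψ r O (n - chgO O true) (n' - chgO O false) x) =
          (-1) ^ (n + n') * (PBF.gK (gF Z P O) (η r O) (η' r O) (n - chgO O true)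
            (n' - chgO O false) x * Ψ r O (n - chgO O true) (n' - chgO O false) x) :=
        fun x => by ring
      simp only [e2]
      rw [integral_const_mul]
      ring
    · rw [mul_zero]
  simp only [e0]
  rw [integral_const_mul]
  ring

theorem FA_sgn (Ψ : Ins) : PBF.FA (Zm Z sgF) P n n' η η' Ψ = PBF.FA Z P n n' η η' Ψ := by
  have hp : ∀ k : ℕ, ‖((-1 : ℂ)) ^ k‖ₑ = 1 := by
    intro k
    rw [← ofReal_norm, norm_pow, norm_neg, norm_one, one_pow, ENNReal.ofReal_one]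
  unfold PBF.FA
  refine Finset.sum_congr rfl fun r _ => ?_
  congr 1
  refine lintegral_congr fun O => ?_
  unfold PBF.trA
  split_ifs
  · rw [wK_mul]
    simp only [gK_mul, quF_sgF, obF_sgF]
    rw [Finset.prod_pow_eq_pow_sum]
    simp only [enorm_mul, hp, mul_one]
  · rfl

end sgn

/-! ### regular = family at `s = 1` -/

/-- a point of the curve -/
theorem at_A {e : ℝ → ℝ} {t : ℝ} (h : |e t| ≤ NUP1.l / 5) : At none (NUO.pA e t) := by
  have hl := lp
  obtain ⟨h1, h2⟩ := abs_le.1 h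
  show 3 / 5 * NUP1.l ≤ (vl (NUP1.l - e t) t).re ∧ (vl (NUP1.l - e t) t).re ≤ 6 / 5 * NUP1.l
  rw [vl_re]
  constructor <;> linarith

section WL

variable {w w' : ℂ} (hw : w.re = 5 / 4 * NUP1.l) (hw' : w'.re = 5 / 4 * NUP1.l)
include hw hw'

theorem ZW_pt (m : ℕ) (β : ℝ) (ex ex0 : List ℂ) (b : Bool) {k : Option O3} {u : ℂ} (hu : At k u) :
    ZW m β ex ex0 w w' b k u =
      Zm (expZ (ZLw m β ex ex0 w w') (DT w w') 1) sgF b k u := by
  rw [ZW_eq hw hw' m β ex ex0 b hu]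
  unfold Zm expZ sgF
  rw [one_mul]
  ring

theorem ZW_obK (m : ℕ) (β : ℝ) (ex ex0 : List ℂ) {jL e ρ : ℝ} (hO : OPar jL e ρ) (x : Xo) :
    PBF.obK (ZW m β ex ex0 w w') jL e ρ x =
      PBF.obK (Zm (expZ (ZLw m β ex ex0 w w') (DT w w') 1) sgF) jL e ρ x := by
  have H := fun b k u (hu : At k u) => ZW_pt hw hw' m β ex ex0 b hu
  have aL := at_L hO.j1 hO.j2 (ht x)
  have aT := at_T (ht x)
  have aS := at_S hO.e1 hO.e2 (ht x)
  have aSV := at_SV hO.e1 hO.e2 (ht x)
  have aV := at_V hO.e1 hO.e2 hO.r1 hO.r2 (ht x) (an x)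
  unfold PBF.obK
  rcases hk : kd x with _ | _ | _ | _ | _ <;> simp only []
  · rw [H _ _ _ aL.1]
  · rw [H _ _ _ aT.1]
  · rw [H _ _ _ aS.1]
  · rw [H _ _ _ aS.1, H _ _ _ aV.1]
  · rw [H _ _ _ aS.1, H _ _ _ aSV.1]

variable {P : NUO.Par} (hP : ParC P) {n n' : ℕ} {η η' : Crs}
include hP

/-- **regular functional = functional of the family at `s = 1`, with the sign** -/
theorem FF_WL' (m : ℕ) (β : ℝ) (ex ex0 : List ℂ)
    (hη : ∀ r ≤ n + n', ∀ᵐ O ∂(Measure.pi fun _ : Fin r => nu), ∀ t, |η r O t| ≤ NUP1.l / 5)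
    (Ψ : Ins) : PBF.FF (ZW m β ex ex0 w w') P n n' η η' Ψ =
      (-1) ^ (n + n') * PBF.FF (expZ (ZLw m β ex ex0 w w') (DT w w') 1) P n n' η η' Ψ := by
  rw [← FF_sgn]
  refine FF_congrZ Ψ (fun r hr => ?_) fun r O i => ZW_obK hw hw' m β ex ex0 (OPar.of hP O i) _
  filter_upwards [hη r hr] with O hO
  exact fun s t => ZW_pt hw hw' m β ex ex0 s (at_A (hO t))

/-- **regular functional = functional of the family at `s = 1`** -/
theorem FF_WL (m : ℕ) (β : ℝ) (ex ex0 : List ℂ)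
    (hη : ∀ r ≤ n + n, ∀ᵐ O ∂(Measure.pi fun _ : Fin r => nu), ∀ t, |η r O t| ≤ NUP1.l / 5)
    (Ψ : Ins) : PBF.FF (ZW m β ex ex0 w w') P n n η η' Ψ =
      PBF.FF (expZ (ZLw m β ex ex0 w w') (DT w w') 1) P n n η η' Ψ := by
  rw [FF_WL' hw hw' hP m β ex ex0 hη Ψ, Even.neg_one_pow ⟨n, rfl⟩, one_mul]

/-- the same with moduli -/
theorem FA_WL (m : ℕ) (β : ℝ) (ex ex0 : List ℂ)
    (hη : ∀ r ≤ n + n', ∀ᵐ O ∂(Measure.pi fun _ : Fin r => nu), ∀ t, |η r O t| ≤ NUP1.l / 5)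
    (Ψ : Ins) : PBF.FA (ZW m β ex ex0 w w') P n n' η η' Ψ =
      PBF.FA (expZ (ZLw m β ex ex0 w w') (DT w w') 1) P n n' η η' Ψ := by
  rw [← FA_sgn (Z := expZ (ZLw m β ex ex0 w w') (DT w w') 1)]
  refine FA_congrZ Ψ (fun r hr => ?_) fun r O i => ZW_obK hw hw' m β ex ex0 (OPar.of hP O i) _
  filter_upwards [hη r hr] with O hO
  exact fun s t => ZW_pt hw hw' m β ex ex0 s (at_A (hO t))

end WL

/-- **the class functions of PB/BsR** -/
theorem ZW_RZW (m : ℕ) (β : ℝ) (ex ex0 : List ℂ) (w w' : ℂ) :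
    PBR.RZW (R0 m β ex ex0) w w' = ZW m β ex ex0 w w' := by
  funext b
  cases b
  · exact (PBX.ryWW (R0 m β ex ex0) w w').symm
  · exact (PBX.rxWW (R0 m β ex ex0) w w').symm

/-! ### the logarithm on the line `Re u = l` -/

theorem DelQ_Ds (w w' t : ℂ) : DelQ w w' (zz w w') (NUP1.l + I * t) = PBT3.Ds w w' t := by
  have hcs := PBT3.cos_sin
  have e0 : Complex.cos (0 + I * t) = Complex.sin (3 * NUP1.l + (NUP1.l + I * t)) := by
    rw [zero_add, ← PBT3.sin_four_add]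
    congr 1
    show 4 * (NUP1.l : ℂ) + I * t = _
    ring
  have e1 : Complex.cos (-w' + I * t) = Complex.sin (3 * NUP1.l - w' + (NUP1.l + I * t)) := by
    rw [← PBT3.sin_four_add]
    congr 1
    show 4 * (NUP1.l : ℂ) + (-w' + I * t) = _
    ring
  have e : ∀ (x y : ℂ), x + y = 4 * NUP1.l → Complex.cos x = Complex.sin y := by
    intro x y h
    rw [hcs]
    congr 1
    show 4 * (NUP1.l : ℂ) - x = y
    rw [← h]
    ring
  rw [PBT3.Ds_eq]
  show DelQ w w' (zz w w') (NUP1.l + I * t) =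
    -2 * Complex.log (Complex.cos (3 * NUP1.l + I * t)) + 2 * Complex.log (Complex.cos (0 + I * t)) +
      Complex.log (Complex.cos (3 * NUP1.l - zz w w' + I * t)) -
      Complex.log (Complex.cos (-zz w w' + I * t)) +
      Complex.log (Complex.cos (5 * NUP1.l - w + I * t)) +
      Complex.log (Complex.cos (3 * NUP1.l - w + I * t)) -
      Complex.log (Complex.cos (4 * NUP1.l - w + I * t)) +
      Complex.log (Complex.cos (NUP1.l - w' + I * t)) -
      Complex.log (Complex.cos (2 * NUP1.l - w' + I * t)) -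
      Complex.log (Complex.cos (-w' + I * t))
  rw [e0, e1, e (3 * NUP1.l + I * t) (2 * NUP1.l - (NUP1.l + I * t)) (by ring),
    e (3 * NUP1.l - zz w w' + I * t) (zz w w' + 2 * NUP1.l - (NUP1.l + I * t)) (by ring),
    e (-zz w w' + I * t) (zz w w' + 5 * NUP1.l - (NUP1.l + I * t)) (by ring),
    e (5 * NUP1.l - w + I * t) (w - (NUP1.l + I * t)) (by ring),
    e (3 * NUP1.l - w + I * t) (w + 2 * NUP1.l - (NUP1.l + I * t)) (by ring),
    e (4 * NUP1.l - w + I * t) (w + NUP1.l - (NUP1.l + I * t)) (by ring),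
    e (NUP1.l - w' + I * t) (w' + 4 * NUP1.l - (NUP1.l + I * t)) (by ring),
    e (2 * NUP1.l - w' + I * t) (3 * NUP1.l + w' - (NUP1.l + I * t)) (by ring)]
  unfold PBTD.DelQ PBTD.thL PBTD.DzL Pool.Agent.PB.LSn
  rw [lN]
  ring

/-- **the logarithm of a quantum is the function `Dl` of PB/TrG7** -/
theorem DT_Dl (w w' : ℂ) (b : Bool) (t : ℂ) :
    DT w w' b none (NUP1.l + I * t) = PBT3.Dl w w' b t := by
  cases b
  · have h : PBT3.Dl w w' false t = PBT3.Ds w' w t := by simp [PBT3.Dl]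
    rw [h]
    exact DelQ_Ds w' w t
  · have h : PBT3.Dl w w' true t = PBT3.Ds w w' t := by simp [PBT3.Dl]
    rw [h]
    exact DelQ_Ds w w' t

end PBTs

end
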