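import Pool.Agent.PB.ConvC

/-!
# Plan B: the vector field of a row at a complex position

`ph z = Pc (z + i l/2) + Pc (z - i l/2)`: the sea of one pair of rows at `±l/2`;
`yq a z = Pc (z - a) / ph z`.  In the strip `|Im z| ≤ b < l/2`, `|Im a| ≤ l/2`, `|Re a| ≤ 1`:
`yq` is analytic, bounded, and within `C e^{-(32/3)|Re z|}` of `e^{±(8/3)a} / √3`.
-/

set_option autoImplicit false

open MeasureTheory Set Filter Topology

namespace Pool.Agent.PB

open NUMF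

noncomputable section

/-- closed form of `Pc` -/
lemma Pc_closed {z : ℂ} (hz : |z.im| < l) : Pc z = 16 / (√3 * Real.pi : ℝ) *
    (Complex.cosh (8 / 3 * z) / (4 * Complex.cosh (8 / 3 * z) ^ 2 - 1)) := by
  have n1 := den_ne hz (e := 1) norm_one
  have n2 := den_ne hz (e := -1) (by simp)
  rw [← sub_eq_add_neg] at n2
  have e1 : 4 * Complex.cosh (8 / 3 * z) ^ 2 - 1 =
      (2 * Complex.cosh (8 / 3 * z) - 1) * (2 * Complex.cosh (8 / 3 * z) + 1) := by ring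
  have h3 : ((√3 * Real.pi : ℝ) : ℂ) ≠ 0 :=
    Complex.ofReal_ne_zero.2 (mul_pos sq3_pos Real.pi_pos).ne'
  unfold Pc
  rw [e1, div_add_div _ _ n2 n1]
  have n3 := mul_ne_zero n2 n1
  rw [div_mul_div_comm, div_mul_div_comm, div_eq_div_iff (mul_ne_zero h3 n3) (mul_ne_zero h3 n3)]
  ring

/-- `4 cosh² x - 1 = e^{2x} (1 + q + q²)`, `q = e^{-2x}` -/
lemma cosh_q (x : ℂ) : Complex.cosh x = Complex.exp x * (1 + Complex.exp (-(2 * x))) / 2 := by
  rw [Complex.cosh, mul_add, ← Complex.exp_add]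
  congr 2
  · rw [mul_one]
  · congr 1; ring

lemma den_q (x : ℂ) : 4 * Complex.cosh x ^ 2 - 1 =
    Complex.exp (2 * x) * (1 + Complex.exp (-(2 * x)) + Complex.exp (-(2 * x)) ^ 2) := by
  have e1 : Complex.exp (2 * x) * Complex.exp (-(2 * x)) = 1 := by rw [← Complex.exp_add]; simp
  have e2 : Complex.exp x ^ 2 = Complex.exp (2 * x) := by rw [← Complex.exp_nat_mul]; norm_num
  rw [cosh_q]
  have e3 : 4 * (Complex.exp x * (1 + Complex.exp (-(2 * x))) / 2) ^ 2 =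
      Complex.exp x ^ 2 * (1 + Complex.exp (-(2 * x))) ^ 2 := by ring
  rw [e3, e2]
  linear_combination e1

/-- the sea of a pair of rows at `± l/2` -/
def ph (z : ℂ) : ℂ := Pc (z + (l / 2 : ℝ) * Complex.I) + Pc (z - (l / 2 : ℝ) * Complex.I)

lemma im_pm {z : ℂ} (hz : |z.im| < l / 2) (σ : ℝ) (hσ : |σ| ≤ 1) :
    |(z + (σ * (l / 2) : ℝ) * Complex.I).im| < l := by
  have hl := l_pos
  simp only [Complex.add_im, Complex.mul_im, Complex.ofReal_re, Complex.I_im, Complex.ofReal_im,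
    Complex.I_re, mul_one, mul_zero, add_zero]
  have h1 : |σ * (l / 2)| ≤ l / 2 := by
    rw [abs_mul, abs_of_pos (half_pos hl)]
    exact mul_le_of_le_one_left (half_pos hl).le hσ
  have h2 := abs_add_le z.im (σ * (l / 2))
  linarith

lemma norm_cosh_ge' (w : ℂ) : Real.cosh w.re * Real.cos w.im ≤ ‖Complex.cosh w‖ := by
  have h1 := Complex.abs_re_le_norm (Complex.cosh w)
  rw [re_cosh] at h1
  exact (le_abs_self _).trans h1

lemma cos_ge_half {θ : ℝ} (h : |θ| ≤ Real.pi / 3) : 1 / 2 ≤ Real.cos θ := by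
  have h1 := Real.cos_le_cos_of_nonneg_of_le_pi (abs_nonneg θ) (by have := Real.pi_pos; linarith) h
  rw [Real.cos_pi_div_three, Real.cos_abs] at h1
  exact h1

lemma cosh_triple (x : ℂ) : Complex.cosh (3 * x) = Complex.cosh x * (4 * Complex.cosh x ^ 2 - 3) := by
  rw [Complex.cosh_three_mul]
  ring

/-- closed form of `ph` -/
theorem ph_closed {z : ℂ} (hz : |z.im| < l / 2) :
    ph z = 8 / (Real.pi : ℂ) * (Complex.cosh (16 / 3 * z) / Complex.cosh (8 * z)) := by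
  have hl := l_pos
  have hpi := Real.pi_pos
  have z1 := im_pm hz 1 (by norm_num)
  have z2 := im_pm hz (-1) (by norm_num)
  have e1 : z + ((1 * (l / 2) : ℝ) : ℂ) * Complex.I = z + (l / 2 : ℝ) * Complex.I := by rw [one_mul]
  have e2 : z + ((-1 * (l / 2) : ℝ) : ℂ) * Complex.I = z - (l / 2 : ℝ) * Complex.I := by
    push_cast; ring
  rw [e1] at z1
  rw [e2] at z2
  unfold ph
  rw [Pc_closed z1, Pc_closed z2]
  have i3 : ((Real.pi / 6 : ℝ) : ℂ) = (Real.pi / 6 : ℂ) := by push_cast; rfl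
  have g1 : (8 / 3 : ℂ) * (z + (l / 2 : ℝ) * Complex.I) = 8 / 3 * z + Real.pi / 6 * Complex.I := by
    unfold l; push_cast; ring
  have g2 : (8 / 3 : ℂ) * (z - (l / 2 : ℝ) * Complex.I) = 8 / 3 * z - Real.pi / 6 * Complex.I := by
    unfold l; push_cast; ring
  have n1 : 4 * Complex.cosh (8 / 3 * (z + (l / 2 : ℝ) * Complex.I)) ^ 2 - 1 ≠ 0 := by
    have a1 := den_ne z1 (e := 1) norm_one
    have a2 := den_ne z1 (e := -1) (by simp)
    rw [← sub_eq_add_neg] at a2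
    have := mul_ne_zero a2 a1
    ring_nf at this ⊢
    exact this
  have n2 : 4 * Complex.cosh (8 / 3 * (z - (l / 2 : ℝ) * Complex.I)) ^ 2 - 1 ≠ 0 := by
    have a1 := den_ne z2 (e := 1) norm_one
    have a2 := den_ne z2 (e := -1) (by simp)
    rw [← sub_eq_add_neg] at a2
    have := mul_ne_zero a2 a1
    ring_nf at this ⊢
    exact this
  rw [g1] at n1 ⊢
  rw [g2] at n2 ⊢
  have g3 : (16 / 3 : ℂ) * z = 2 * (8 / 3 * z) := by ring
  have g4 : (8 : ℂ) * z = 3 * (8 / 3 * z) := by ring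
  rw [g3, g4]
  set x : ℂ := 8 / 3 * z with hx
  have n3 : Complex.cosh (3 * x) ≠ 0 := by
    refine cosh_ne ?_
    have : (3 * x).im = 8 * z.im := by
      rw [hx]
      have : (3 : ℂ) * (8 / 3 * z) = ((8 : ℝ) : ℂ) * z := by push_cast; ring
      rw [this, Complex.im_ofReal_mul]
    rw [this, abs_mul, abs_of_pos (by norm_num : (0:ℝ) < 8)]
    unfold l at hz
    linarith
  have hc6 := cos_pi_6
  have hs6 := sin_pi_6
  have k1 : Complex.cosh (x + Real.pi / 6 * Complex.I) =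
      Complex.cosh x * ((√3 : ℝ) / 2) + Complex.sinh x * (1 / 2) * Complex.I := by
    rw [Complex.cosh_add, Complex.cosh_mul_I, Complex.sinh_mul_I, hc6, hs6]
    ring
  have k2 : Complex.cosh (x - Real.pi / 6 * Complex.I) =
      Complex.cosh x * ((√3 : ℝ) / 2) - Complex.sinh x * (1 / 2) * Complex.I := by
    rw [Complex.cosh_sub, Complex.cosh_mul_I, Complex.sinh_mul_I, hc6, hs6]
    ring
  have hCS := Complex.cosh_sq x
  have h33 := csq3
  have hI := Complex.I_mul_I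
  have hC0 : Complex.cosh x ≠ 0 := by
    intro h0
    apply n3
    rw [cosh_triple, h0, zero_mul]
  rw [Complex.cosh_two_mul, cosh_triple] at *
  rw [k1] at n1 ⊢
  rw [k2] at n2 ⊢
  have hsp : ((√3 * Real.pi : ℝ) : ℂ) ≠ 0 :=
    Complex.ofReal_ne_zero.2 (mul_pos sq3_pos Real.pi_pos).ne'
  have hpic : (Real.pi : ℂ) ≠ 0 := Complex.ofReal_ne_zero.2 Real.pi_ne_zero
  have h30 : ((√3 : ℝ) : ℂ) ≠ 0 := Complex.ofReal_ne_zero.2 sq3_pos.ne'
  generalize Complex.cosh x = C at *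
  generalize Complex.sinh x = S at *
  push_cast at *
  generalize ((√3 : ℝ) : ℂ) = τ at *
  generalize (Real.pi : ℂ) = p at *
  have hn3 : 4 * C ^ 2 - 3 ≠ 0 := right_ne_zero_of_mul n3
  have hI2 : Complex.I ^ 2 = -1 := Complex.I_sq
  have f1 : 4 * (C * (τ / 2) + S * (1 / 2) * Complex.I) ^ 2 - 1 = 2 * C * (C + τ * S * Complex.I) := by
    linear_combination C ^ 2 * h33 + S ^ 2 * hI2 + hCS
  have f2 : 4 * (C * (τ / 2) - S * (1 / 2) * Complex.I) ^ 2 - 1 = 2 * C * (C - τ * S * Complex.I) := by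
    linear_combination C ^ 2 * h33 + S ^ 2 * hI2 + hCS
  have f3 : (C + τ * S * Complex.I) * (C - τ * S * Complex.I) = 4 * C ^ 2 - 3 := by
    linear_combination (-(S ^ 2 * Complex.I ^ 2)) * h33 - 3 * S ^ 2 * hI2 - 3 * hCS
  rw [f1] at n1 ⊢
  rw [f2] at n2 ⊢
  have m1 : C + τ * S * Complex.I ≠ 0 := right_ne_zero_of_mul n1
  have m2 : C - τ * S * Complex.I ≠ 0 := right_ne_zero_of_mul n2
  have f4 : (C * (τ / 2) + S * (1 / 2) * Complex.I) / (2 * C * (C + τ * S * Complex.I)) +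
      (C * (τ / 2) - S * (1 / 2) * Complex.I) / (2 * C * (C - τ * S * Complex.I)) =
      τ * (C ^ 2 + S ^ 2) / (2 * C * (4 * C ^ 2 - 3)) := by
    rw [← f3, div_add_div _ _ n1 n2, div_eq_div_iff (mul_ne_zero n1 n2)
      (mul_ne_zero (mul_ne_zero two_ne_zero hC0) (mul_ne_zero m1 m2))]
    linear_combination (-4 * C ^ 2 * S ^ 2 * (C + τ * S * Complex.I) * (C - τ * S * Complex.I) * τ) * hI2
  rw [← mul_add, f4]
  rw [div_mul_div_comm, div_mul_div_comm, div_eq_div_iff]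
  · ring
  · exact mul_ne_zero (mul_ne_zero h30 hpic) (mul_ne_zero (mul_ne_zero two_ne_zero hC0) hn3)
  · exact mul_ne_zero hpic n3


lemma ph_diff {z : ℂ} (hz : |z.im| < l / 2) : DifferentiableAt ℂ ph z := by
  have z1 := im_pm hz 1 (by norm_num)
  have z2 := im_pm hz (-1) (by norm_num)
  rw [one_mul] at z1
  have e2 : z + ((-1 * (l / 2) : ℝ) : ℂ) * Complex.I = z - (l / 2 : ℝ) * Complex.I := by
    push_cast; ring
  rw [e2] at z2
  have h1 : DifferentiableAt ℂ (fun z => Pc (z + (l / 2 : ℝ) * Complex.I)) z :=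
    DifferentiableAt.comp z (g := Pc) (f := fun z => z + (l / 2 : ℝ) * Complex.I) (Pc_diff z1) (by fun_prop)
  have h2 : DifferentiableAt ℂ (fun z => Pc (z - (l / 2 : ℝ) * Complex.I)) z :=
    DifferentiableAt.comp z (g := Pc) (f := fun z => z - (l / 2 : ℝ) * Complex.I) (Pc_diff z2) (by fun_prop)
  exact h1.add h2

lemma norm_exp_re (w : ℂ) : ‖Complex.exp w‖ = Real.exp w.re := Complex.norm_exp w

/-- lower bound of the base sea -/
lemma ph_ge {z : ℂ} (hz : |z.im| < l / 2) : 1 / Real.pi * Real.exp (-(8 / 3) * |z.re|) ≤ ‖ph z‖ := by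
  have hpi := Real.pi_pos
  rw [ph_closed hz, norm_mul, norm_div, norm_div, Complex.norm_ofNat, Complex.norm_real,
    Real.norm_eq_abs, abs_of_pos hpi]
  have r1 : (16 / 3 * z : ℂ).re = 16 / 3 * z.re := by
    have : (16 / 3 : ℂ) * z = ((16 / 3 : ℝ) : ℂ) * z := by push_cast; ring
    rw [this, Complex.re_ofReal_mul]
  have r2 : (16 / 3 * z : ℂ).im = 16 / 3 * z.im := by
    have : (16 / 3 : ℂ) * z = ((16 / 3 : ℝ) : ℂ) * z := by push_cast; ring
    rw [this, Complex.im_ofReal_mul]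
  have r3 : (8 * z : ℂ).re = 8 * z.re := by
    have : (8 : ℂ) * z = ((8 : ℝ) : ℂ) * z := by push_cast; ring
    rw [this, Complex.re_ofReal_mul]
  have h1 := norm_cosh_ge' (16 / 3 * z)
  rw [r1, r2] at h1
  have h2 : 1 / 2 ≤ Real.cos (16 / 3 * z.im) := by
    refine cos_ge_half ?_
    rw [abs_mul, abs_of_pos (by norm_num : (0:ℝ) < 16 / 3)]
    unfold l at hz
    linarith
  have h3 : Real.exp (16 / 3 * |z.re|) / 2 ≤ Real.cosh (16 / 3 * z.re) := by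
    rw [← Real.cosh_abs, abs_mul, abs_of_pos (by norm_num : (0:ℝ) < 16 / 3), Real.cosh_eq]
    have := Real.exp_pos (-(16 / 3 * |z.re|))
    linarith
  have h4 : ‖Complex.cosh (8 * z)‖ ≤ Real.exp (8 * |z.re|) := by
    refine (norm_cosh_le _).trans ?_
    rw [r3]
    exact cosh_le_exp (by rw [abs_mul, abs_of_pos (by norm_num : (0:ℝ) < 8)])
  have h5 : 0 < ‖Complex.cosh (8 * z)‖ := by
    refine norm_pos_iff.2 (cosh_ne ?_)
    have : (8 * z : ℂ).im = 8 * z.im := by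
      have : (8 : ℂ) * z = ((8 : ℝ) : ℂ) * z := by push_cast; ring
      rw [this, Complex.im_ofReal_mul]
    rw [this, abs_mul, abs_of_pos (by norm_num : (0:ℝ) < 8)]
    unfold l at hz
    linarith
  have h6 : Real.exp (16 / 3 * |z.re|) / 4 ≤ ‖Complex.cosh (16 / 3 * z)‖ := by
    have h7 := Real.cosh_pos (16 / 3 * z.re)
    have h8 : Real.cosh (16 / 3 * z.re) * (1 / 2) ≤ ‖Complex.cosh (16 / 3 * z)‖ :=
      (mul_le_mul_of_nonneg_left h2 h7.le).trans h1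
    linarith
  have h9 : Real.exp (-(8 / 3) * |z.re|) / 4 ≤ ‖Complex.cosh (16 / 3 * z)‖ / ‖Complex.cosh (8 * z)‖ := by
    rw [le_div_iff₀ h5]
    calc Real.exp (-(8 / 3) * |z.re|) / 4 * ‖Complex.cosh (8 * z)‖ ≤
        Real.exp (-(8 / 3) * |z.re|) / 4 * Real.exp (8 * |z.re|) := by gcongr
      _ = Real.exp (16 / 3 * |z.re|) / 4 := by
        rw [div_mul_eq_mul_div, ← Real.exp_add]
        congr 2
        ring
      _ ≤ _ := h6
  calc 1 / Real.pi * Real.exp (-(8 / 3) * |z.re|) ≤ 8 / Real.pi * (Real.exp (-(8 / 3) * |z.re|) / 4) := by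
        have := Real.exp_pos (-(8 / 3) * |z.re|)
        have h10 : 8 / Real.pi * (Real.exp (-(8 / 3) * |z.re|) / 4) =
          2 * (1 / Real.pi * Real.exp (-(8 / 3) * |z.re|)) := by ring
        rw [h10]
        have : 0 ≤ 1 / Real.pi * Real.exp (-(8 / 3) * |z.re|) := by positivity
        linarith
    _ ≤ _ := by gcongr

lemma ph_ne {z : ℂ} (hz : |z.im| < l / 2) : ph z ≠ 0 := by
  have h1 := ph_ge hz
  have h2 : 0 < 1 / Real.pi * Real.exp (-(8 / 3) * |z.re|) := by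
    have := Real.pi_pos
    positivity
  exact norm_pos_iff.1 (lt_of_lt_of_le h2 h1)

/-- the ratio of one row at `a` to the base sea -/
def yq (a z : ℂ) : ℂ := Pc (z - a) / ph z

lemma yq_diff {a z : ℂ} (hz : |z.im| < l / 2) (ha : |(z - a).im| < l) :
    DifferentiableAt ℂ (yq a) z := by
  have h1 : DifferentiableAt ℂ (fun z => Pc (z - a)) z :=
    DifferentiableAt.comp z (g := Pc) (f := fun z => z - a) (Pc_diff ha) (by fun_prop)
  exact h1.div (ph_diff hz) (ph_ne hz)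

/-- a row at `l/2` and a row at `-l/2` -/
lemma yq_pair {z : ℂ} (hz : |z.im| < l / 2) :
    yq ((l / 2 : ℝ) * Complex.I) z + yq (-((l / 2 : ℝ) * Complex.I)) z = 1 := by
  unfold yq
  rw [← add_div, sub_neg_eq_add, add_comm]
  exact div_self (ph_ne hz)

lemma one_add_q_ne {w : ℂ} (hw : Complex.cosh w ≠ 0) : 1 + Complex.exp (-(2 * w)) ≠ 0 := by
  intro h
  apply hw
  rw [cosh_q, h, mul_zero, zero_div]

/-- closed form with `q = e^{-(16/3) z}`, `q' = e^{-(16/3)(z-a)}`, `s = e^{(8/3) a}` -/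
lemma yq_eq {a z : ℂ} (hz : |z.im| < l / 2) (ha : |(z - a).im| < l) :
    (1 + Complex.exp (-(16 / 3 * (z - a))) + Complex.exp (-(16 / 3 * (z - a))) ^ 2) *
        (1 + Complex.exp (-(16 / 3 * z)) ^ 2) ≠ 0 ∧
    yq a z = Complex.exp (8 / 3 * a) / (√3 : ℝ) *
      ((1 + Complex.exp (-(16 / 3 * (z - a)))) * (1 + Complex.exp (-(16 / 3 * z)) ^ 3)) /
      ((1 + Complex.exp (-(16 / 3 * (z - a))) + Complex.exp (-(16 / 3 * (z - a))) ^ 2) *
        (1 + Complex.exp (-(16 / 3 * z)) ^ 2)) := by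
  have hpi := Real.pi_pos
  have i3 : (16 / 3 * z : ℂ).im = 16 / 3 * z.im := by
    have : (16 / 3 : ℂ) * z = ((16 / 3 : ℝ) : ℂ) * z := by push_cast; ring
    rw [this, Complex.im_ofReal_mul]
  have i8 : (8 * z : ℂ).im = 8 * z.im := by
    have : (8 : ℂ) * z = ((8 : ℝ) : ℂ) * z := by push_cast; ring
    rw [this, Complex.im_ofReal_mul]
  have c2 : Complex.cosh (16 / 3 * z) ≠ 0 := by
    refine cosh_ne ?_
    rw [i3, abs_mul, abs_of_pos (by norm_num : (0:ℝ) < 16 / 3)]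
    unfold l at hz
    linarith
  have c3 : Complex.cosh (8 * z) ≠ 0 := by
    refine cosh_ne ?_
    rw [i8, abs_mul, abs_of_pos (by norm_num : (0:ℝ) < 8)]
    unfold l at hz
    linarith
  have n1 : 4 * Complex.cosh (8 / 3 * (z - a)) ^ 2 - 1 ≠ 0 := by
    have a1 := den_ne ha (e := 1) norm_one
    have a2 := den_ne ha (e := -1) (by simp)
    rw [← sub_eq_add_neg] at a2
    have := mul_ne_zero a2 a1
    ring_nf at this ⊢
    exact this
  have q2 := cosh_q (16 / 3 * z)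
  have q3 := cosh_q (8 * z)
  have q1 := cosh_q (8 / 3 * (z - a))
  have d1 := den_q (8 / 3 * (z - a))
  have m2 := one_add_q_ne c2
  have m3 := one_add_q_ne c3
  set q := Complex.exp (-(16 / 3 * z)) with hq
  set q' := Complex.exp (-(16 / 3 * (z - a))) with hq'
  set s := Complex.exp (8 / 3 * a) with hs
  set Y := Complex.exp (8 / 3 * (z - a)) with hY
  have e1 : Complex.exp (-(2 * (8 / 3 * (z - a)))) = q' := by rw [hq']; congr 1; ring
  have e2 : Complex.exp (-(2 * (16 / 3 * z))) = q ^ 2 := by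
    rw [hq, ← Complex.exp_nat_mul]; congr 1; push_cast; ring
  have e3 : Complex.exp (-(2 * (8 * z))) = q ^ 3 := by
    rw [hq, ← Complex.exp_nat_mul]; congr 1; push_cast; ring
  have e4 : Complex.exp (2 * (8 / 3 * (z - a))) = Y ^ 2 := by
    rw [hY, ← Complex.exp_nat_mul]; congr 1
  have e5 : Complex.exp (16 / 3 * z) = (s * Y) ^ 2 := by
    rw [hs, hY, ← Complex.exp_add, ← Complex.exp_nat_mul]; congr 1; push_cast; ring
  have e6 : Complex.exp (8 * z) = (s * Y) ^ 3 := by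
    rw [hs, hY, ← Complex.exp_add, ← Complex.exp_nat_mul]; congr 1; push_cast; ring
  have s0 : s ≠ 0 := Complex.exp_ne_zero _
  have Y0 : Y ≠ 0 := Complex.exp_ne_zero _
  rw [e1] at q1 d1
  rw [e4] at d1
  rw [e2] at q2 m2
  rw [e5] at q2
  rw [e3] at q3 m3
  rw [e6] at q3
  rw [d1] at n1
  have m1 : 1 + q' + q' ^ 2 ≠ 0 := right_ne_zero_of_mul n1
  refine ⟨mul_ne_zero m1 m2, ?_⟩
  unfold yq
  rw [Pc_closed ha, ph_closed hz, d1, q1, q2, q3]
  have hpic : (Real.pi : ℂ) ≠ 0 := Complex.ofReal_ne_zero.2 Real.pi_ne_zero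
  have h30 : ((√3 : ℝ) : ℂ) ≠ 0 := Complex.ofReal_ne_zero.2 sq3_pos.ne'
  push_cast
  generalize ((√3 : ℝ) : ℂ) = τ at *
  generalize (Real.pi : ℂ) = p at *
  field_simp
  ring

lemma re_mul_real (c : ℝ) (z : ℂ) : ((c : ℂ) * z).re = c * z.re := Complex.re_ofReal_mul c z

lemma cosh163_ge {z : ℂ} (hz : |z.im| < l / 2) :
    Real.exp (16 / 3 * |z.re|) / 4 ≤ ‖Complex.cosh (16 / 3 * z)‖ := by
  have e : (16 / 3 : ℂ) * z = ((16 / 3 : ℝ) : ℂ) * z := by push_cast; ring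
  have r1 : (16 / 3 * z : ℂ).re = 16 / 3 * z.re := by rw [e, Complex.re_ofReal_mul]
  have r2 : (16 / 3 * z : ℂ).im = 16 / 3 * z.im := by rw [e, Complex.im_ofReal_mul]
  have h1 := norm_cosh_ge' (16 / 3 * z)
  rw [r1, r2] at h1
  have h2 : 1 / 2 ≤ Real.cos (16 / 3 * z.im) := by
    refine cos_ge_half ?_
    rw [abs_mul, abs_of_pos (by norm_num : (0:ℝ) < 16 / 3)]
    unfold l at hz
    linarith
  have h3 : Real.exp (16 / 3 * |z.re|) / 2 ≤ Real.cosh (16 / 3 * z.re) := by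
    rw [← Real.cosh_abs, abs_mul, abs_of_pos (by norm_num : (0:ℝ) < 16 / 3), Real.cosh_eq]
    have := Real.exp_pos (-(16 / 3 * |z.re|))
    linarith
  have h7 := Real.cosh_pos (16 / 3 * z.re)
  have h8 : Real.cosh (16 / 3 * z.re) * (1 / 2) ≤ ‖Complex.cosh (16 / 3 * z)‖ :=
    (mul_le_mul_of_nonneg_left h2 h7.le).trans h1
  linarith

lemma one_add_q2_ge {z : ℂ} (hz : |z.im| < l / 2) : 1 / 2 ≤ ‖1 + Complex.exp (-(16 / 3 * z)) ^ 2‖ := by
  have h1 := cosh163_ge hz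
  have e2 : Complex.exp (-(2 * (16 / 3 * z))) = Complex.exp (-(16 / 3 * z)) ^ 2 := by
    rw [← Complex.exp_nat_mul]; congr 1; push_cast; ring
  rw [cosh_q, e2, norm_div, norm_mul, norm_exp_re, Complex.norm_ofNat] at h1
  have e : (16 / 3 : ℂ) * z = ((16 / 3 : ℝ) : ℂ) * z := by push_cast; ring
  have r1 : (16 / 3 * z : ℂ).re = 16 / 3 * z.re := by rw [e, Complex.re_ofReal_mul]
  rw [r1] at h1
  have h2 : Real.exp (16 / 3 * z.re) ≤ Real.exp (16 / 3 * |z.re|) :=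
    Real.exp_le_exp.2 (by have := le_abs_self z.re; linarith)
  have h3 := Real.exp_pos (16 / 3 * z.re)
  have h4 : Real.exp (16 / 3 * z.re) * (1 / 2) ≤
      Real.exp (16 / 3 * z.re) * ‖1 + Complex.exp (-(16 / 3 * z)) ^ 2‖ := by linarith
  exact le_of_mul_le_mul_left h4 h3

lemma one_add_qq_ge {b : ℝ} (hb : b < l) {w : ℂ} (hw : |w.im| ≤ b) :
    kb b ^ 2 / 4 ≤ ‖1 + Complex.exp (-(16 / 3 * w)) + Complex.exp (-(16 / 3 * w)) ^ 2‖ := by
  have hb0 : 0 ≤ b := (abs_nonneg _).trans hw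
  have hw' : |w.im| < l := lt_of_le_of_lt hw hb
  have hk : 0 < kb b := kb_pos (by rw [abs_of_nonneg hb0]; exact hb)
  have hk2 := kb_le hb hw
  have d1 := den_ge hw' (e := 1) norm_one
  have d2 := den_ge hw' (e := -1) (by simp)
  rw [← sub_eq_add_neg] at d2
  have hc := Real.cosh_pos (8 / 3 * w.re)
  have d3 : kb b * Real.cosh (8 / 3 * w.re) ≤ ‖2 * Complex.cosh (8 / 3 * w) + 1‖ :=
    (mul_le_mul_of_nonneg_right hk2 hc.le).trans d1
  have d4 : kb b * Real.cosh (8 / 3 * w.re) ≤ ‖2 * Complex.cosh (8 / 3 * w) - 1‖ :=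
    (mul_le_mul_of_nonneg_right hk2 hc.le).trans d2
  have e1 := den_q (8 / 3 * w)
  have e2 : Complex.exp (-(2 * (8 / 3 * w))) = Complex.exp (-(16 / 3 * w)) := by congr 1; ring
  have e3 : (2 * (8 / 3 * w) : ℂ) = 16 / 3 * w := by ring
  rw [e2, e3] at e1
  have e4 : 4 * Complex.cosh (8 / 3 * w) ^ 2 - 1 =
      (2 * Complex.cosh (8 / 3 * w) - 1) * (2 * Complex.cosh (8 / 3 * w) + 1) := by ring
  rw [e4] at e1
  have e5 := congrArg norm e1
  rw [norm_mul, norm_mul, norm_exp_re] at e5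
  have e : (16 / 3 : ℂ) * w = ((16 / 3 : ℝ) : ℂ) * w := by push_cast; ring
  have r1 : (16 / 3 * w : ℂ).re = 16 / 3 * w.re := by rw [e, Complex.re_ofReal_mul]
  rw [r1] at e5
  have h1 : (kb b * Real.cosh (8 / 3 * w.re)) * (kb b * Real.cosh (8 / 3 * w.re)) ≤
      Real.exp (16 / 3 * w.re) * ‖1 + Complex.exp (-(16 / 3 * w)) + Complex.exp (-(16 / 3 * w)) ^ 2‖ := by
    rw [← e5]
    exact mul_le_mul d4 d3 (by positivity) (norm_nonneg _)
  have h2 : Real.exp (16 / 3 * w.re) / 4 ≤ Real.cosh (8 / 3 * w.re) * Real.cosh (8 / 3 * w.re) := by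
    have h3 : Real.exp (8 / 3 * w.re) / 2 ≤ Real.cosh (8 / 3 * w.re) := by
      rw [Real.cosh_eq]
      have := Real.exp_pos (-(8 / 3 * w.re))
      linarith
    have h4 : 0 ≤ Real.exp (8 / 3 * w.re) / 2 := by positivity
    calc Real.exp (16 / 3 * w.re) / 4 = Real.exp (8 / 3 * w.re) / 2 * (Real.exp (8 / 3 * w.re) / 2) := by
          rw [div_mul_div_comm, ← Real.exp_add]
          norm_num
          ring_nf
      _ ≤ _ := mul_le_mul h3 h3 h4 hc.le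
  have h5 := Real.exp_pos (16 / 3 * w.re)
  have h6 : Real.exp (16 / 3 * w.re) * (kb b ^ 2 / 4) ≤ Real.exp (16 / 3 * w.re) *
      ‖1 + Complex.exp (-(16 / 3 * w)) + Complex.exp (-(16 / 3 * w)) ^ 2‖ := by
    refine le_trans ?_ h1
    calc Real.exp (16 / 3 * w.re) * (kb b ^ 2 / 4) = kb b ^ 2 * (Real.exp (16 / 3 * w.re) / 4) := by ring
      _ ≤ kb b ^ 2 * (Real.cosh (8 / 3 * w.re) * Real.cosh (8 / 3 * w.re)) := by gcongr
      _ = _ := by ring
  exact le_of_mul_le_mul_left h6 h5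

lemma ph_neg {z : ℂ} : ph (-z) = ph z := by
  unfold ph
  rw [← Pc_neg (-z + _), ← Pc_neg (-z - _)]
  rw [show -(-z + ((l / 2 : ℝ) : ℂ) * Complex.I) = z - (l / 2 : ℝ) * Complex.I by ring,
    show -(-z - ((l / 2 : ℝ) : ℂ) * Complex.I) = z + (l / 2 : ℝ) * Complex.I by ring, add_comm]

lemma yq_neg (a z : ℂ) : yq (-a) (-z) = yq a z := by
  unfold yq
  rw [ph_neg, ← Pc_neg (-z - -a)]
  congr 2
  ring

lemma yq_right {b : ℝ} (hb : b < l) {a z : ℂ} (hre : |a.re| ≤ 1) (hz : |z.im| < l / 2)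
    (ha : |(z - a).im| ≤ b) (h0 : 0 ≤ z.re) :
    ‖yq a z - Complex.exp (8 / 3 * a) / (√3 : ℝ)‖ ≤
      Real.exp (8 / 3) * (2 * (1 + Real.exp (8 / 3) ^ 2 + Real.exp (8 / 3) ^ 4)) /
        (kb b ^ 2 / 4 * (1 / 2)) * Real.exp (-(32 / 3) * |z.re|) := by
  have hb0 : 0 ≤ b := (abs_nonneg _).trans ha
  have hk : 0 < kb b := kb_pos (by rw [abs_of_nonneg hb0]; exact hb)
  obtain ⟨hD, hy⟩ := yq_eq hz (lt_of_le_of_lt ha hb)
  have g1 := one_add_q2_ge hz
  have g2 := one_add_qq_ge hb ha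
  have hre' := abs_le.1 hre
  have e1 : (16 / 3 : ℂ) * z = ((16 / 3 : ℝ) : ℂ) * z := by push_cast; ring
  have r1 : (-(16 / 3 * z) : ℂ).re = -(16 / 3 * z.re) := by rw [Complex.neg_re, e1, Complex.re_ofReal_mul]
  have e2 : (8 / 3 : ℂ) * a = ((8 / 3 : ℝ) : ℂ) * a := by push_cast; ring
  have r2 : (8 / 3 * a : ℂ).re = 8 / 3 * a.re := by rw [e2, Complex.re_ofReal_mul]
  have hqn : ‖Complex.exp (-(16 / 3 * z))‖ = Real.exp (-(16 / 3 * z.re)) := by rw [norm_exp_re, r1]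
  have hq1 : ‖Complex.exp (-(16 / 3 * z))‖ ≤ 1 := by
    rw [hqn, Real.exp_le_one_iff]
    linarith
  have hq2 : ‖Complex.exp (-(16 / 3 * z))‖ ^ 2 = Real.exp (-(32 / 3) * |z.re|) := by
    rw [hqn, ← Real.exp_nat_mul, abs_of_nonneg h0]
    congr 1
    push_cast
    ring
  have hsn : ‖Complex.exp (8 / 3 * a)‖ ≤ Real.exp (8 / 3) := by
    rw [norm_exp_re, r2]
    exact Real.exp_le_exp.2 (by linarith [hre'.2])
  have hs1 : 1 ≤ Real.exp (8 / 3) := Real.one_le_exp (by norm_num)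
  have hq' : Complex.exp (-(16 / 3 * (z - a))) = Complex.exp (-(16 / 3 * z)) * Complex.exp (8 / 3 * a) ^ 2 := by
    rw [← Complex.exp_nat_mul, ← Complex.exp_add]
    congr 1
    push_cast
    ring
  have h3 : (1 : ℝ) ≤ √3 := by
    rw [show (1:ℝ) = √1 by rw [Real.sqrt_one]]
    exact Real.sqrt_le_sqrt (by norm_num)
  rw [hq'] at hD hy g2
  set q := Complex.exp (-(16 / 3 * z)) with hqd
  set s := Complex.exp (8 / 3 * a) with hsd
  set S := Real.exp (8 / 3) with hSd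
  have h30 : ((√3 : ℝ) : ℂ) ≠ 0 := Complex.ofReal_ne_zero.2 sq3_pos.ne'
  have hdiff : yq a z - s / (√3 : ℝ) = s / (√3 : ℝ) * (q ^ 2 *
      (q + q * s ^ 2 * q - s ^ 4 - 1 - q * s ^ 2 - (q * s ^ 2) ^ 2)) /
      ((1 + q * s ^ 2 + (q * s ^ 2) ^ 2) * (1 + q ^ 2)) := by
    rw [hy, eq_div_iff hD, sub_mul, div_mul_cancel₀ _ hD]
    ring
  rw [hdiff, norm_div, norm_mul, norm_mul, norm_div, norm_pow, hq2, norm_mul]
  have hden : kb b ^ 2 / 4 * (1 / 2) ≤ ‖1 + q * s ^ 2 + (q * s ^ 2) ^ 2‖ * ‖1 + q ^ 2‖ :=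
    mul_le_mul g2 g1 (by norm_num) (norm_nonneg _)
  have hden0 : 0 < kb b ^ 2 / 4 * (1 / 2) := by positivity
  have hs2 : ‖s‖ ^ 2 ≤ S ^ 2 := pow_le_pow_left₀ (norm_nonneg _) hsn 2
  have hs4 : ‖s‖ ^ 4 ≤ S ^ 4 := pow_le_pow_left₀ (norm_nonneg _) hsn 4
  have hqs : ‖q * s ^ 2‖ ≤ S ^ 2 := by
    rw [norm_mul, norm_pow]
    calc ‖q‖ * ‖s‖ ^ 2 ≤ 1 * S ^ 2 := mul_le_mul hq1 hs2 (by positivity) (by norm_num)
      _ = S ^ 2 := one_mul _
  have hnum : ‖q + q * s ^ 2 * q - s ^ 4 - 1 - q * s ^ 2 - (q * s ^ 2) ^ 2‖ ≤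
      2 * (1 + S ^ 2 + S ^ 4) := by
    have t1 : ‖q * s ^ 2 * q‖ ≤ S ^ 2 := by
      rw [norm_mul]
      calc ‖q * s ^ 2‖ * ‖q‖ ≤ S ^ 2 * 1 := mul_le_mul hqs hq1 (norm_nonneg _) (by positivity)
        _ = S ^ 2 := mul_one _
    have t2 : ‖s ^ 4‖ ≤ S ^ 4 := by rw [norm_pow]; exact hs4
    have t3 : ‖(q * s ^ 2) ^ 2‖ ≤ S ^ 4 := by
      rw [norm_pow]
      calc ‖q * s ^ 2‖ ^ 2 ≤ (S ^ 2) ^ 2 := pow_le_pow_left₀ (norm_nonneg _) hqs 2
        _ = S ^ 4 := by ring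
    calc ‖q + q * s ^ 2 * q - s ^ 4 - 1 - q * s ^ 2 - (q * s ^ 2) ^ 2‖ ≤
        ‖q + q * s ^ 2 * q - s ^ 4 - 1 - q * s ^ 2‖ + ‖(q * s ^ 2) ^ 2‖ := norm_sub_le _ _
      _ ≤ (‖q + q * s ^ 2 * q - s ^ 4 - 1‖ + ‖q * s ^ 2‖) + ‖(q * s ^ 2) ^ 2‖ := by
          gcongr; exact norm_sub_le _ _
      _ ≤ ((‖q + q * s ^ 2 * q - s ^ 4‖ + ‖(1 : ℂ)‖) + ‖q * s ^ 2‖) + ‖(q * s ^ 2) ^ 2‖ := by
          gcongr; exact norm_sub_le _ _
      _ ≤ (((‖q + q * s ^ 2 * q‖ + ‖s ^ 4‖) + ‖(1 : ℂ)‖) + ‖q * s ^ 2‖) + ‖(q * s ^ 2) ^ 2‖ := by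
          gcongr; exact norm_sub_le _ _
      _ ≤ ((((‖q‖ + ‖q * s ^ 2 * q‖) + ‖s ^ 4‖) + ‖(1 : ℂ)‖) + ‖q * s ^ 2‖) + ‖(q * s ^ 2) ^ 2‖ := by
          gcongr; exact norm_add_le _ _
      _ ≤ ((((1 + S ^ 2) + S ^ 4) + 1) + S ^ 2) + S ^ 4 := by
          rw [norm_one]
          gcongr
      _ = _ := by ring
  have hs3 : ‖s‖ / ‖((√3 : ℝ) : ℂ)‖ ≤ S := by
    rw [Complex.norm_real, Real.norm_eq_abs, abs_of_pos sq3_pos]
    refine (div_le_self (norm_nonneg _) h3).trans hsn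
  have hE := Real.exp_pos (-(32 / 3) * |z.re|)
  have hS0 : 0 < S := Real.exp_pos _
  calc ‖s‖ / ‖((√3 : ℝ) : ℂ)‖ * (Real.exp (-(32 / 3) * |z.re|) *
        ‖q + q * s ^ 2 * q - s ^ 4 - 1 - q * s ^ 2 - (q * s ^ 2) ^ 2‖) /
        (‖1 + q * s ^ 2 + (q * s ^ 2) ^ 2‖ * ‖1 + q ^ 2‖) ≤
      S * (Real.exp (-(32 / 3) * |z.re|) * (2 * (1 + S ^ 2 + S ^ 4))) / (kb b ^ 2 / 4 * (1 / 2)) := by
        gcongr
    _ = _ := by ring

end

end Pool.Agent.PB
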