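import Pool.Agent.PB.TRsD2
import Pool.Agent.PB.TRsP

/-!
# Plan B, (TR), s-path: the error of the regularised field

`E z = DT w w' b none (l + i z) - rsp (seaT n * fldT n q β) b z`, `β = be w w'`, `n = k - 1`,
`q = k⁻¹⁰`:

* `conv_holS`: convolution of a function analytic with exponential decay in a strip;
* `rsp_holS`: the response of `seaT n * fldT n q β` is analytic;
* **`E_bd`**: `E` is analytic and `‖E z‖ ≤ C (e^{8/3 M} / k) (1 + log k)` for `|Im z| < l / 10`.
-/

set_option autoImplicit false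
set_option linter.unusedSectionVars false

noncomputable section

open MeasureTheory Set Filter Topology

namespace PBTs

open NUMF (Pc l)
open PB (SeaF FldF mulF rsp cV cG)
open PBT3 (be be_le be_hd Cst Cst_nonneg MM MM_nonneg G5 St Dl rsp_Dl exp_split BB)

theorem lpos : 0 < NUMF.l := NUMF.l_pos

/-! ### convolutions -/

/-- **convolution with a kernel, analytic** -/
theorem conv_holS {b1 A c : ℝ} (hA0 : 0 ≤ A) (hc : 0 ≤ c) {f : ℂ → ℂ}
    (hd : ∀ z : ℂ, |z.im| < b1 → DifferentiableAt ℂ f z)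
    (hb : ∀ z : ℂ, |z.im| < b1 → ‖f z‖ ≤ A * Real.exp (-(c * |z.re|))) {K : ℝ → ℝ}
    (hK : Measurable K) (hi : Integrable fun u => |K u| * Real.exp (-(c * |u|))) {z0 : ℂ}
    (hz : |z0.im| < b1) :
    DifferentiableAt ℂ (fun z => ∫ u : ℝ, f (z - u) * (K u : ℂ)) z0 := by
  obtain ⟨R, hR⟩ : ∃ R : ℝ, R = (b1 - |z0.im|) / 2 := ⟨_, rfl⟩
  have hR0 : 0 < R := by
    rw [hR]
    linarith
  have hin : ∀ z ∈ Metric.ball z0 R, |z.im| < b1 ∧ |z.re| ≤ |z0.re| + R := by
    intro z hz
    rw [Metric.mem_ball, dist_eq_norm] at hz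
    have b2 := (Complex.abs_im_le_norm (z - z0)).trans hz.le
    have b3 := (Complex.abs_re_le_norm (z - z0)).trans hz.le
    rw [Complex.sub_im] at b2
    rw [Complex.sub_re] at b3
    have b4 := abs_sub_abs_le_abs_sub z.im z0.im
    have b5 := abs_sub_abs_le_abs_sub z.re z0.re
    constructor
    · have : R < b1 - |z0.im| := by rw [hR]; linarith
      linarith
    · linarith
  have him : ∀ (z : ℂ) (u : ℝ), (z - u).im = z.im := fun z u => by simp
  have hre : ∀ (z : ℂ) (u : ℝ), (z - u).re = z.re - u := fun z u => by simp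
  refine NURow.differentiableAt_integral hR0
    (b := fun u => A * Real.exp (c * (|z0.re| + R)) * (|K u| * Real.exp (-(c * |u|)))) ?_ ?_ ?_
    (hi.const_mul _)
  · intro z hz
    obtain ⟨c1, -⟩ := hin z hz
    refine AEStronglyMeasurable.mul ?_ (Complex.measurable_ofReal.comp hK).aestronglyMeasurable
    refine Continuous.aestronglyMeasurable (continuous_iff_continuousAt.2 fun u => ?_)
    have : ContinuousAt f (z - u) := (hd _ (by rw [him]; exact c1)).continuousAt
    exact ContinuousAt.comp (f := fun u : ℝ => z - u) this (by fun_prop)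
  · refine Eventually.of_forall fun u z hz => ?_
    obtain ⟨c1, -⟩ := hin z hz
    have h3 : DifferentiableAt ℂ f (z - u) := hd _ (by rw [him]; exact c1)
    have h4 : DifferentiableAt ℂ (fun z : ℂ => z - u) z := by fun_prop
    exact ((h3.comp z h4).mul_const _).differentiableWithinAt
  · refine Eventually.of_forall fun u z hz => ?_
    obtain ⟨c1, c3⟩ := hin z hz
    have h3 := hb (z - u) (by rw [him]; exact c1)
    rw [hre] at h3
    have h4 : Real.exp (-(c * |z.re - u|)) ≤
        Real.exp (c * (|z0.re| + R)) * Real.exp (-(c * |u|)) := by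
      rw [← Real.exp_add]
      refine Real.exp_le_exp.2 ?_
      have h5 := abs_sub_abs_le_abs_sub u z.re
      rw [abs_sub_comm] at h5
      have h6 := mul_le_mul_of_nonneg_left (by linarith : |u| ≤ |z.re - u| + (|z0.re| + R)) hc
      linarith
    rw [norm_mul, Complex.norm_real, Real.norm_eq_abs]
    calc ‖f (z - u)‖ * |K u|
        ≤ (A * (Real.exp (c * (|z0.re| + R)) * Real.exp (-(c * |u|)))) * |K u| :=
          mul_le_mul_of_nonneg_right (h3.trans (mul_le_mul_of_nonneg_left h4 hA0)) (abs_nonneg _)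
      _ = _ := by ring

theorem V_intS {c : ℝ} (hc : 0 ≤ c) : Integrable fun u => |NUMF.V u| * Real.exp (-(c * |u|)) := by
  refine NUMF.V_integral.1.abs.mul_bdd (c := 1) (by fun_prop) (Eventually.of_forall fun u => ?_)
  rw [Real.norm_eq_abs, abs_of_pos (Real.exp_pos _), Real.exp_le_one_iff]
  have := mul_nonneg hc (abs_nonneg u)
  linarith

theorem Kg_intS {c : ℝ} (hc : 0 < c) :
    Integrable fun u => |Pool.Agent.PB.Kg u| * Real.exp (-(c * |u|)) := by
  have h1 : Integrable fun u : ℝ => 9 * Real.exp (-c * |u|) := (NUMF.int_exp_abs hc).const_mul 9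
  refine h1.mono' ?_ (Eventually.of_forall fun u => ?_)
  · exact ((continuous_abs.comp PBT3.Kg_cont).mul (by fun_prop)).aestronglyMeasurable
  · rw [norm_mul, Real.norm_eq_abs, Real.norm_eq_abs, abs_abs, abs_of_pos (Real.exp_pos _), neg_mul]
    exact mul_le_mul_of_nonneg_right (PB.abs_Kg_le u) (Real.exp_pos _).le

/-- **the response is analytic** -/
theorem rsp_holS {b0 b1 A c : ℝ} (h01 : b0 < b1) (hA : 0 ≤ A) (hc : 0 < c) {β : Bool → ℂ → ℂ}
    (hd : ∀ b (z : ℂ), |z.im| < b1 → DifferentiableAt ℂ (β b) z)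
    (hb : ∀ b (z : ℂ), |z.im| < b1 → ‖β b z‖ ≤ A * Real.exp (-(c * |z.re|))) (b : Bool) {z : ℂ}
    (hz : |z.im| < b0) : DifferentiableAt ℂ (rsp β b) z := by
  have ho : IsOpen {z : ℂ | |z.im| < b1} :=
    isOpen_lt (continuous_abs.comp Complex.continuous_im) continuous_const
  have han : AnalyticOnNhd ℂ (β b) {z : ℂ | |z.im| < b1} :=
    DifferentiableOn.analyticOnNhd (fun z hz => (hd b z hz).differentiableWithinAt) ho
  have a1 : DifferentiableAt ℂ (cV (deriv (β b))) z := by
    refine conv_holS (b1 := b0) (A := A * Real.exp (c * ((b1 - b0) / 2)) / ((b1 - b0) / 2)) ?_ hc.le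
      (fun z hz => (han.deriv z (lt_trans hz h01)).differentiableAt)
      (fun z hz => PB.strip_deriv h01 hc.le hA (hd b) (hb b) hz.le) Pool.Agent.PB.V_meas
      (V_intS hc.le) hz
    have : 0 < (b1 - b0) / 2 := by linarith
    positivity
  have a2 : DifferentiableAt ℂ (cG fun z => β b z - β (!b) z) z := by
    refine conv_holS (b1 := b0) (A := 2 * A) (by positivity) hc.le
      (fun z hz => (hd b z (lt_trans hz h01)).sub (hd (!b) z (lt_trans hz h01)))
      (fun z hz => ?_) PBT3.Kg_cont.measurable (Kg_intS hc) hz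
    refine (norm_sub_le _ _).trans ?_
    have h1 := hb b z (lt_trans hz h01)
    have h2 := hb (!b) z (lt_trans hz h01)
    linarith
  exact (a1.add a2).neg

/-! ### the field -/

theorem measurable_BB {ι : Type*} [Fintype ι] (κ : ℝ) (c a : ι → ℂ) : Measurable (BB κ c a) := by
  unfold PBT3.BB
  refine Measurable.mul measurable_const (Finset.measurable_sum _ fun j _ => ?_)
  refine Measurable.const_mul (Complex.measurable_log.comp
    (Complex.continuous_cos.measurable.comp ?_)) _
  fun_prop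

theorem measurable_be (w w' : ℂ) (b : Bool) : Measurable (be w w' b) := by
  unfold PBT3.be
  exact ((measurable_BB _ _ _).add ((measurable_BB _ _ _).const_mul _)).const_mul _

theorem St_of {z : ℂ} (hz : |z.im| < l / 5) : z ∈ St := by
  have hl := lpos
  obtain ⟨h1, h2⟩ := abs_lt.1 hz
  exact ⟨by linarith, by linarith⟩

/-- the size of the field in the strip -/
theorem be_strip {w w' : ℂ} (h : G5 w w') (b : Bool) (z : ℂ) (hz : |z.im| < l / 5) :
    ‖be w w' b z‖ ≤ Cst (-(l / 5)) (l / 5) * Real.exp (8 / 3 * MM w w') *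
      Real.exp (-(8 / 3 * |z.re|)) := by
  have hl := lpos
  obtain ⟨h1, h2⟩ := abs_lt.1 hz
  have := be_le h b (y1 := -(l / 5)) (y2 := l / 5) (by linarith) (by linarith) h1.le h2.le
  rwa [exp_split, ← mul_assoc] at this

theorem be_diff {w w' : ℂ} (h : G5 w w') (b : Bool) (z : ℂ) (hz : |z.im| < l / 5) :
    DifferentiableAt ℂ (be w w' b) z := (be_hd h b (St_of hz)).differentiableAt

/-- the response of the regularised field is analytic -/
theorem rspT_hol {w w' : ℂ} (h : G5 w w') {n q : ℝ} (hn : 0 < n) (hq : 0 < q) (b : Bool) {z : ℂ}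
    (hz : |z.im| < l / 10) :
    DifferentiableAt ℂ (rsp (mulF (seaT n) (fldT n q (be w w'))) b) z := by
  have hl := lpos
  have hC := Cst_nonneg (y1 := -(l / 5)) (y2 := l / 5) (by linarith) (by linarith) (by linarith)
  have hS : SeaF (l / 5) (seaT n) := seaF_T (by linarith) (by linarith) hn
  have hX : FldF (l / 5) (fldT n q (be w w')) := by
    refine fldF_T (B := Cst (-(l / 5)) (l / 5) * Real.exp (8 / 3 * MM w w')) (by linarith)
      (by linarith) hn.le hq (by positivity) (be_diff h) fun b z hz => ?_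
    refine (be_strip h b z hz).trans (mul_le_of_le_one_right (by positivity) ?_)
    rw [Real.exp_le_one_iff]
    have := abs_nonneg z.re
    linarith
  obtain ⟨A, c, hA, hc, hb⟩ := PB.mulF_bd hS hX
  exact rsp_holS (b0 := l / 10) (b1 := l / 5) (by linarith) hA hc (PB.mulF_d hS hX) hb b hz

/-- **the error of the regularised field** -/
theorem E_bd : ∃ C : ℝ, 1 ≤ C ∧ ∃ k0 : ℕ, ∀ k : ℕ, k0 ≤ k → ∀ w w' : ℂ, G5 w w' → ∀ b : Bool,
    (∀ z : ℂ, |z.im| < l / 10 → DifferentiableAt ℂ (fun z => DT w w' b none (l + Complex.I * z) -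
      rsp (mulF (seaT ((k - 1 : ℕ) : ℝ)) (fldT ((k - 1 : ℕ) : ℝ) (((k : ℝ) ^ 10)⁻¹) (be w w'))) b z) z)
    ∧ ∀ z : ℂ, |z.im| < l / 10 → ‖DT w w' b none (l + Complex.I * z) -
      rsp (mulF (seaT ((k - 1 : ℕ) : ℝ)) (fldT ((k - 1 : ℕ) : ℝ) (((k : ℝ) ^ 10)⁻¹) (be w w'))) b z‖ ≤
        C * (Real.exp (8 / 3 * MM w w') / k) * (1 + Real.log k) := by
  have hl := lpos
  obtain ⟨C0, hC0, H⟩ := rsp_T (b0 := l / 10) (b1 := l / 5) (by linarith) (by linarith) (by linarith)
  have hC := Cst_nonneg (y1 := -(l / 5)) (y2 := l / 5) (by linarith) (by linarith) (by linarith)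
  refine ⟨10 * C0 * Cst (-(l / 5)) (l / 5) + 1, by
    have : 0 ≤ 10 * C0 * Cst (-(l / 5)) (l / 5) := by positivity
    linarith, 2, ?_⟩
  intro k hk w w' h b
  have hk2 : (2 : ℝ) ≤ k := by exact_mod_cast hk
  have hk0 : (0 : ℝ) < k := by linarith
  have e1 : ((k - 1 : ℕ) : ℝ) = k - 1 := by
    rw [Nat.cast_sub (by omega)]
    norm_num
  have hn : 0 < ((k - 1 : ℕ) : ℝ) := by
    rw [e1]
    linarith
  have hq : 0 < ((k : ℝ) ^ 10)⁻¹ := by positivity
  have hlog : 0 ≤ Real.log k := Real.log_nonneg (by linarith)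
  have hDT : ∀ z : ℂ, |z.im| < l / 10 → DT w w' b none (l + Complex.I * z) = rsp (be w w') b z := by
    intro z hz
    rw [rsp_Dl h b (St_of (by linarith))]
    exact DT_Dl w w' b z
  constructor
  · intro z hz
    have h1 : DifferentiableAt ℂ (rsp (be w w') b) z := by
      have hB : 0 ≤ Cst (-(l / 5)) (l / 5) * Real.exp (8 / 3 * MM w w') := by positivity
      exact rsp_holS (b0 := l / 10) (b1 := l / 5) (by linarith) hB (by norm_num : (0 : ℝ) < 8 / 3)
        (be_diff h) (be_strip h) b hz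
    have h2 : (fun z => DT w w' b none (l + Complex.I * z)) =ᶠ[𝓝 z] rsp (be w w') b :=
      (ev_strip hz).mono fun z hz => hDT z hz
    exact (h1.congr_of_eventuallyEq h2).sub (rspT_hol h hn hq b hz)
  · intro z hz
    rw [hDT z hz, norm_sub_rev]
    set M := MM w w' with hM
    have hB : 0 ≤ Cst (-(l / 5)) (l / 5) * Real.exp (8 / 3 * M) := by positivity
    have hL : 0 ≤ 33 / 8 * Real.log k := by positivity
    have hnq : ((k - 1 : ℕ) : ℝ) / ((k : ℝ) ^ 10)⁻¹ ≤ Real.exp (8 / 3 * (33 / 8 * Real.log k)) := by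
      have e2 : Real.exp (8 / 3 * (33 / 8 * Real.log k)) = (k : ℝ) ^ 11 := by
        rw [show 8 / 3 * (33 / 8 * Real.log k) = ((11 : ℕ) : ℝ) * Real.log k by
          push_cast
          ring, Real.exp_nat_mul, Real.exp_log hk0]
      rw [e2, div_inv_eq_mul, e1]
      have h3 : (0 : ℝ) ≤ (k : ℝ) ^ 10 := by positivity
      calc ((k : ℝ) - 1) * (k : ℝ) ^ 10 ≤ k * (k : ℝ) ^ 10 :=
            mul_le_mul_of_nonneg_right (by linarith) h3
        _ = (k : ℝ) ^ 11 := by ring
    have h4 := H _ _ (33 / 8 * Real.log k) _ hn hq hL hnq hB (be w w') (measurable_be w w')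
      (be_diff h) (be_strip h) b z hz.le
    refine h4.trans ?_
    have hq1 : ((k : ℝ) ^ 10)⁻¹ ≤ 1 := inv_le_one_of_one_le₀ (one_le_pow₀ (by linarith))
    have h5 : Cst (-(l / 5)) (l / 5) * Real.exp (8 / 3 * M) / ((k - 1 : ℕ) : ℝ) ≤
        2 * (Cst (-(l / 5)) (l / 5) * (Real.exp (8 / 3 * M) / k)) := by
      rw [e1, div_le_iff₀ (by linarith)]
      have h6 : 1 ≤ 2 / (k : ℝ) * (k - 1) := by
        rw [div_mul_eq_mul_div, le_div_iff₀ hk0]
        linarith
      calc Cst (-(l / 5)) (l / 5) * Real.exp (8 / 3 * M)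
          = Cst (-(l / 5)) (l / 5) * Real.exp (8 / 3 * M) * 1 := by ring
        _ ≤ Cst (-(l / 5)) (l / 5) * Real.exp (8 / 3 * M) * (2 / (k : ℝ) * (k - 1)) :=
            mul_le_mul_of_nonneg_left h6 hB
        _ = _ := by ring
    have h7 : 1 + 33 / 8 * Real.log k ≤ 5 * (1 + Real.log k) := by linarith
    have hX : 0 ≤ Real.exp (8 / 3 * M) / k := by positivity
    calc C0 * ((k : ℝ) ^ 10)⁻¹ * (Cst (-(l / 5)) (l / 5) * Real.exp (8 / 3 * M) / ((k - 1 : ℕ) : ℝ)) *
          (1 + 33 / 8 * Real.log k)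
        ≤ C0 * 1 * (2 * (Cst (-(l / 5)) (l / 5) * (Real.exp (8 / 3 * M) / k))) *
          (5 * (1 + Real.log k)) := by
          gcongr
      _ = 10 * C0 * Cst (-(l / 5)) (l / 5) * (Real.exp (8 / 3 * M) / k) * (1 + Real.log k) := by
          ring
      _ ≤ (10 * C0 * Cst (-(l / 5)) (l / 5) + 1) * (Real.exp (8 / 3 * M) / k) *
          (1 + Real.log k) := by
          gcongr
          linarith

end PBTs

end
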