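import Mathlib

/-!
# Plan B, transfer to the regular function: the abstract half

* `PBTR.ray`: `Φ' = O(δ)` on `[0, 1]` gives `Φ 1 = Φ 0 + O(δ)`; `PBTR.ray_gauss`: the same for
  `F s = Φ s * exp (s² q / 2 + s p)`;
* `PBTR.nearfar`: `∫ R_k` against `g k * ∫ K` when `R_k = g k K + O(k^{-c} w)` on a set which contains
  everything up to an `O(k^{-c})` part of the mass of the majorant;
* `PBTR.limit_ne`: a sequence `n k = g k C + O(k^{-c})`, `g k = g∞ + O(k^{-c})`, which is at least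
  `A k^{-a}`, `a < c`, infinitely often, has a nonzero limit and `‖n k‖ ≥ δ` for all large `k`.
-/

set_option autoImplicit false

open MeasureTheory Set Filter Topology

namespace PBTR

noncomputable section

/-! ## 1. Rays -/

theorem ray {E : Type*} [NormedAddCommGroup E] [NormedSpace ℝ E] {Φ Φ' : ℝ → E} {δ : ℝ}
    (h : ∀ s ∈ Icc (0 : ℝ) 1, HasDerivAt Φ (Φ' s) s) (h' : ∀ s ∈ Icc (0 : ℝ) 1, ‖Φ' s‖ ≤ δ) :
    ‖Φ 1 - Φ 0‖ ≤ δ := by
  have h1 := (convex_Icc (0 : ℝ) 1).norm_image_sub_le_of_norm_hasDerivWithin_le (f := Φ) (f' := Φ')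
    (C := δ) (fun s hs => (h s hs).hasDerivWithinAt) h' (left_mem_Icc.2 zero_le_one)
    (right_mem_Icc.2 zero_le_one)
  simpa using h1

/-- if `F' = (s q + p) F + O(δ)` then `F 1 = e^{q / 2 + p} F 0` up to
`δ e^{|q| / 2 + |p|}` times `|e^{q / 2 + p}|` -/
theorem ray_gauss {F F' : ℝ → ℂ} {p q : ℂ} {δ : ℝ}
    (h : ∀ s ∈ Icc (0 : ℝ) 1, HasDerivAt F (F' s) s)
    (h' : ∀ s ∈ Icc (0 : ℝ) 1, ‖F' s - ((s : ℂ) * q + p) * F s‖ ≤ δ) :
    ‖F 1 - Complex.exp (q / 2 + p) * F 0‖ ≤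
      ‖Complex.exp (q / 2 + p)‖ * (δ * Real.exp (‖q‖ / 2 + ‖p‖)) := by
  set w : ℝ → ℂ := fun s => Complex.exp (-((s : ℂ) ^ 2 * q / 2 + (s : ℂ) * p)) with hw
  have hwd : ∀ s : ℝ, HasDerivAt w (w s * -((s : ℂ) * q + p)) s := by
    intro s
    have h1 : HasDerivAt (fun s : ℝ => (s : ℂ)) 1 s := Complex.ofRealCLM.hasDerivAt
    have h2 : HasDerivAt (fun s : ℝ => -((s : ℂ) ^ 2 * q / 2 + (s : ℂ) * p)) (-((s : ℂ) * q + p)) s := by
      have h3 := ((((h1.fun_pow 2).mul_const q).div_const 2).fun_add (h1.mul_const p)).fun_neg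
      refine h3.congr_deriv ?_
      push_cast
      ring
    exact h2.cexp
  have hwn : ∀ s ∈ Icc (0 : ℝ) 1, ‖w s‖ ≤ Real.exp (‖q‖ / 2 + ‖p‖) := by
    intro s hs
    rw [hw]
    simp only
    rw [Complex.norm_exp]
    apply Real.exp_le_exp.2
    refine (Complex.re_le_norm _).trans ?_
    rw [norm_neg]
    refine (norm_add_le _ _).trans ?_
    rw [norm_div, norm_mul, norm_mul, norm_pow, Complex.norm_real, Real.norm_eq_abs,
      abs_of_nonneg hs.1, Complex.norm_ofNat]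
    have h1 : s ^ 2 ≤ 1 := by nlinarith [hs.1, hs.2]
    have h2 : s ^ 2 * ‖q‖ ≤ ‖q‖ := by nlinarith [norm_nonneg q]
    have h3 : s * ‖p‖ ≤ ‖p‖ := by nlinarith [norm_nonneg p, hs.2]
    linarith
  have h1 := ray (Φ := fun s => F s * w s) (Φ' := fun s => F' s * w s + F s * (w s * -((s : ℂ) * q + p)))
    (δ := δ * Real.exp (‖q‖ / 2 + ‖p‖)) (fun s hs => (h s hs).mul (hwd s)) (fun s hs => by
      have e : F' s * w s + F s * (w s * -((s : ℂ) * q + p)) =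
          (F' s - ((s : ℂ) * q + p) * F s) * w s := by ring
      rw [e, norm_mul]
      have h3 := h' s hs
      have h4 := hwn s hs
      have h0 : 0 ≤ δ := (norm_nonneg _).trans h3
      gcongr)
  have e1 : w 1 = (Complex.exp (q / 2 + p))⁻¹ := by
    rw [hw]
    simp only [Complex.ofReal_one]
    rw [← Complex.exp_neg]
    congr 1
    ring
  have e0 : w 0 = 1 := by
    rw [hw]
    simp
  have hne : Complex.exp (q / 2 + p) ≠ 0 := Complex.exp_ne_zero _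
  have e2 : F 1 - Complex.exp (q / 2 + p) * F 0 =
      Complex.exp (q / 2 + p) * (F 1 * w 1 - F 0 * w 0) := by
    rw [e1, e0]
    field_simp
  rw [e2, norm_mul]
  gcongr

/-! ## 2. Near and far -/

/-- **near and far**: `R` close to `g K` on `S`, both bounded by small integrals off `S` -/
theorem nearfar {Ω : Type*} [MeasurableSpace Ω] {μ : Measure Ω} {R K : Ω → ℂ} {v w : Ω → ℝ}
    {S : Set Ω} (hS : MeasurableSet S) {g : ℂ} {δ a b A B : ℝ} (hR : Integrable R μ)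
    (hK : Integrable K μ) (hv : Integrable v μ) (hw : Integrable w μ) (hv0 : ∀ x, 0 ≤ v x)
    (hw0 : ∀ x, 0 ≤ w x) (ha : 0 ≤ a) (hδ : 0 ≤ δ)
    (near : ∀ x ∈ S, ‖R x - g * K x‖ ≤ δ * v x) (far : ∀ x ∉ S, ‖R x‖ ≤ a * w x)
    (farK : ∀ x ∉ S, ‖K x‖ ≤ b * w x) (hA : ∫ x, v x ∂μ ≤ A) (hB : ∫ x in Sᶜ, w x ∂μ ≤ B)
    (hb : 0 ≤ b) :
    ‖∫ x, R x ∂μ - g * ∫ x, K x ∂μ‖ ≤ δ * A + (a + ‖g‖ * b) * B := by
  have hRK : Integrable (fun x => R x - g * K x) μ := hR.sub (hK.const_mul g)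
  have e : ∫ x, R x ∂μ - g * ∫ x, K x ∂μ = ∫ x, (R x - g * K x) ∂μ := by
    rw [integral_sub hR (hK.const_mul g), integral_const_mul]
  rw [e, ← integral_add_compl hS hRK]
  refine (norm_add_le _ _).trans (add_le_add ?_ ?_)
  · refine (norm_integral_le_integral_norm _).trans ?_
    have h1 : ∫ x in S, ‖R x - g * K x‖ ∂μ ≤ ∫ x in S, δ * v x ∂μ :=
      setIntegral_mono_on hRK.norm.integrableOn (hv.const_mul δ).integrableOn hS near
    refine h1.trans ?_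
    have h2 : ∫ x in S, δ * v x ∂μ ≤ ∫ x, δ * v x ∂μ :=
      setIntegral_le_integral (hv.const_mul δ) (Eventually.of_forall fun x => mul_nonneg hδ (hv0 x))
    refine h2.trans ?_
    rw [integral_const_mul]
    gcongr
  · refine (norm_integral_le_integral_norm _).trans ?_
    have h1 : ∫ x in Sᶜ, ‖R x - g * K x‖ ∂μ ≤ ∫ x in Sᶜ, (a + ‖g‖ * b) * w x ∂μ := by
      refine setIntegral_mono_on hRK.norm.integrableOn (hw.const_mul _).integrableOn hS.compl
        fun x hx => ?_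
      refine (norm_sub_le _ _).trans ?_
      rw [norm_mul]
      have h3 := far x hx
      have h4 := farK x hx
      have h5 : ‖g‖ * ‖K x‖ ≤ ‖g‖ * (b * w x) := by gcongr
      nlinarith
    refine h1.trans ?_
    rw [integral_const_mul]
    have : 0 ≤ a + ‖g‖ * b := by positivity
    gcongr

/-! ## 3. The end -/

/-- **nonzero limit** -/
theorem limit_ne {n g : ℕ → ℂ} {G C : ℂ} {c a A B : ℝ} (hc : 0 < c) (hac : a < c) (hA : 0 < A)
    (hn : ∀ᶠ k : ℕ in atTop, ‖n k - g k * C‖ ≤ B * (k : ℝ) ^ (-c))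
    (hg : ∀ᶠ k : ℕ in atTop, ‖g k - G‖ ≤ B * (k : ℝ) ^ (-c))
    (hlow : ∃ᶠ k : ℕ in atTop, A * (k : ℝ) ^ (-a) ≤ ‖n k‖) :
    G * C ≠ 0 ∧ Tendsto n atTop (𝓝 (G * C)) ∧ ∃ δ : ℝ, 0 < δ ∧ ∀ᶠ k : ℕ in atTop, δ ≤ ‖n k‖ := by
  have hcast : Tendsto (fun k : ℕ => (k : ℝ)) atTop atTop := tendsto_natCast_atTop_atTop
  have h0 : Tendsto (fun k : ℕ => (k : ℝ) ^ (-c)) atTop (𝓝 0) := (tendsto_rpow_neg_atTop hc).comp hcast
  have key : ∀ᶠ k : ℕ in atTop, ‖n k - G * C‖ ≤ B * (1 + ‖C‖) * (k : ℝ) ^ (-c) := by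
    filter_upwards [hn, hg] with k h1 h2
    have e : n k - G * C = (n k - g k * C) + (g k - G) * C := by ring
    rw [e]
    refine (norm_add_le _ _).trans ?_
    rw [norm_mul]
    have h3 : ‖g k - G‖ * ‖C‖ ≤ B * (k : ℝ) ^ (-c) * ‖C‖ := by gcongr
    nlinarith
  have hlim : Tendsto n atTop (𝓝 (G * C)) := by
    rw [tendsto_iff_norm_sub_tendsto_zero]
    have h1 : Tendsto (fun k : ℕ => B * (1 + ‖C‖) * (k : ℝ) ^ (-c)) atTop (𝓝 0) := by
      have := h0.const_mul (B * (1 + ‖C‖))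
      rwa [mul_zero] at this
    exact squeeze_zero' (Eventually.of_forall fun k => norm_nonneg _) key h1
  have hne : G * C ≠ 0 := by
    intro hz
    rw [hz] at key
    -- `A k ^ (-a) ≤ B' k ^ (-c)` infinitely often
    have h1 : Tendsto (fun k : ℕ => (k : ℝ) ^ (-(c - a))) atTop (𝓝 0) :=
      (tendsto_rpow_neg_atTop (by linarith)).comp hcast
    have h2 := h1.const_mul (B * (1 + ‖C‖))
    rw [mul_zero] at h2
    have h3 := (tendsto_order.1 h2).2 A hA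
    have h4 := hlow.and_eventually (key.and (h3.and (eventually_ge_atTop 1)))
    obtain ⟨k, hk1, hk2, hk3, hk4⟩ := h4.exists
    rw [sub_zero] at hk2
    have hk0 : (0 : ℝ) < k := by exact_mod_cast (by omega : 0 < k)
    have h5 : (k : ℝ) ^ (-c) = (k : ℝ) ^ (-(c - a)) * (k : ℝ) ^ (-a) := by
      rw [← Real.rpow_add hk0]
      congr 1
      ring
    have h6 : 0 < (k : ℝ) ^ (-a) := Real.rpow_pos_of_pos hk0 _
    rw [h5, ← mul_assoc] at hk2
    have h7 : B * (1 + ‖C‖) * (k : ℝ) ^ (-(c - a)) * (k : ℝ) ^ (-a) < A * (k : ℝ) ^ (-a) := by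
      gcongr
    linarith
  refine ⟨hne, hlim, ‖G * C‖ / 2, by positivity, ?_⟩
  have h1 := hlim.norm
  exact h1.eventually_const_le (by
    have : 0 < ‖G * C‖ := norm_pos_iff.2 hne
    linarith)

end

end PBTR
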