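import Pool.Agent.PB.Rec
import Pool.Agent.PB.TRab

/-!
# Plan B, transfer to the regular function: integration over the heights of the half quanta (helper60)

`mT τ = 2 |τ₁| + 2 |τ₂| + |τ₁ - τ₂| / 2`; near set `mT τ ≤ (3/8 + d) log k`.

* `harm_small`: on the near set the harmonics `g_j e^{(8/3) i j z}`, `j ≠ 0`, of the dislocated function
  are `≤ k^{-c'}` against `e^{-3 |τ₁| - 3 |τ₂|}`;
* `tr_sum`: `n k = g_0 ∫ K + O(k^{-c'})`, `c' > 3/8`.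
-/

set_option autoImplicit false

noncomputable section

open MeasureTheory Set Filter Topology Complex

namespace PBTR

open Pool.Agent.PB.Rec

/-- exponent of the majorant of the class `W W` -/
def mT (τ : ℝ × ℝ) : ℝ := 2 * |τ.1| + 2 * |τ.2| + |τ.1 - τ.2| / 2

/-- the height of the legs -/
def yT (τ : ℝ × ℝ) : ℝ := (τ.1 + τ.2) / 2

/-- position of the legs -/
def zT (x0 : ℝ) (τ : ℝ × ℝ) : ℂ := (x0 : ℂ) - I * (yT τ : ℝ)

/-- sum of the heights -/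
def sT (τ : ℝ × ℝ) : ℝ := |τ.1| + |τ.2|

lemma sT_nonneg (τ : ℝ × ℝ) : 0 ≤ sT τ := add_nonneg (abs_nonneg _) (abs_nonneg _)

lemma two_sT_le (τ : ℝ × ℝ) : 2 * sT τ ≤ mT τ := by
  unfold sT mT
  have := abs_nonneg (τ.1 - τ.2)
  linarith

lemma mT_le (τ : ℝ × ℝ) : mT τ ≤ 5 / 2 * sT τ := by
  unfold sT mT
  have := abs_sub τ.1 τ.2
  linarith

lemma mT_nonneg (τ : ℝ × ℝ) : 0 ≤ mT τ := by
  have := two_sT_le τ
  have := sT_nonneg τ
  linarith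

lemma yT_le (τ : ℝ × ℝ) : 2 * |yT τ| ≤ sT τ := by
  unfold yT sT
  rw [abs_div, abs_two]
  have := abs_add_le τ.1 τ.2
  linarith

lemma zT_re (x0 : ℝ) (τ : ℝ × ℝ) : (zT x0 τ).re = x0 := by simp [zT]

lemma zT_im (x0 : ℝ) (τ : ℝ × ℝ) : (zT x0 τ).im = -yT τ := by simp [zT]

lemma continuous_mT : Continuous mT := by unfold mT; fun_prop

lemma continuous_sT : Continuous sT := by unfold sT; fun_prop

/-- the near set -/
def nearS (a : ℝ) (k : ℕ) : Set (ℝ × ℝ) := {τ | mT τ ≤ a * Real.log k}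

lemma measurableSet_nearS (a : ℝ) (k : ℕ) : MeasurableSet (nearS a k) :=
  measurableSet_le continuous_mT.measurable measurable_const

/-! ### one harmonic -/

/-- modulus of a harmonic -/
lemma norm_harm (a : ℂ) (j : ℤ) (z : ℂ) :
    ‖a * exp (I * (8 / 3 : ℝ) * j * z)‖ = ‖a‖ * Real.exp (-(8 / 3 * j * z.im)) := by
  rw [norm_mul, norm_exp]
  congr 2
  have : I * ((8 / 3 : ℝ) : ℂ) * (j : ℂ) * z = I * (((8 / 3 * j : ℝ) : ℂ) * z) := by push_cast; ring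
  rw [this, I_mul_re, im_ofReal_mul]

/-- the coefficients from a sharp bound at height `y` -/
theorem coef_high (K : ℕ) : ∃ V : ℝ, 0 < V ∧ ∀ (f : ℂ → ℂ) (g : ℤ → ℂ) (t0 B r : ℝ), 0 ≤ t0 →
    (∀ t : ℝ, t0 ≤ |t| → |t| ≤ t0 + 1 → ‖f (I * t)‖ ≤ B) →
    (∀ t : ℝ, t0 ≤ |t| → |t| ≤ t0 + 1 → ‖f (I * t) - EL (8 / 3) K g (I * t)‖ ≤ r) →
    ∀ j ∈ Finset.Icc (-(K : ℤ)) K, ‖g j‖ ≤ V * (B + r) * Real.exp (-(8 / 3 * |(j : ℝ)| * t0)) := by
  obtain ⟨V, hV0, hV⟩ := EL_coef (w := 8 / 3) (by norm_num) K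
  refine ⟨V * Real.exp (8 / 3 * K), by positivity, fun f g t0 B r h0 hB hr j hj => ?_⟩
  have hBr : 0 ≤ B + r := by
    have h1 : |t0| = t0 := abs_of_nonneg h0
    have h2 := (norm_nonneg _).trans (hB t0 h1.ge (by rw [h1]; linarith))
    have h3 := (norm_nonneg _).trans (hr t0 h1.ge (by rw [h1]; linarith))
    linarith
  have key : ∀ s : ℝ, (∀ t ∈ Icc (0 : ℝ) 1, t0 ≤ |s + t| ∧ |s + t| ≤ t0 + 1) →
      ∀ i ∈ Finset.Icc (-(K : ℤ)) K, ‖g i‖ * Real.exp (-(8 / 3 * i * s)) ≤ V * (B + r) := by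
    intro s hs i hi
    have h1 := hV (fun k => g k * exp (I * (8 / 3 : ℝ) * k * (I * s))) (B + r) (fun t ht => ?_) i hi
    · rw [norm_harm] at h1
      simpa using h1
    · rw [← EL_add]
      have e : I * (t : ℂ) + I * (s : ℂ) = I * ((s + t : ℝ) : ℂ) := by push_cast; ring
      rw [e]
      have h2 := hB (s + t) (hs t ht).1 (hs t ht).2
      have h3 := hr (s + t) (hs t ht).1 (hs t ht).2
      have e2 : EL (8 / 3) K g (I * ((s + t : ℝ) : ℂ)) =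
          f (I * ((s + t : ℝ) : ℂ)) - (f (I * ((s + t : ℝ) : ℂ)) - EL (8 / 3) K g (I * ((s + t : ℝ) : ℂ))) := by
        ring
      rw [e2]
      exact (norm_sub_le _ _).trans (add_le_add h2 h3)
  have hKj : |(j : ℝ)| ≤ K := by
    rw [Finset.mem_Icc] at hj
    rw [abs_le]
    exact ⟨by exact_mod_cast hj.1, by exact_mod_cast hj.2⟩
  have fin : ∀ X : ℝ, ‖g j‖ * Real.exp X ≤ V * (B + r) → 8 / 3 * |(j : ℝ)| * t0 - 8 / 3 * K ≤ X →
      ‖g j‖ ≤ V * Real.exp (8 / 3 * K) * (B + r) * Real.exp (-(8 / 3 * |(j : ℝ)| * t0)) := by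
    intro X h1 h2
    have h3 : ‖g j‖ = ‖g j‖ * Real.exp X * Real.exp (-X) := by
      rw [mul_assoc, ← Real.exp_add, add_neg_cancel, Real.exp_zero, mul_one]
    rw [h3]
    calc ‖g j‖ * Real.exp X * Real.exp (-X) ≤ V * (B + r) * Real.exp (-X) := by gcongr
      _ ≤ V * (B + r) * Real.exp (8 / 3 * K + -(8 / 3 * |(j : ℝ)| * t0)) := by
          gcongr
          linarith
      _ = _ := by rw [Real.exp_add]; ring
  rcases le_total 0 j with hj0 | hj0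
  · -- sample at negative heights
    have h1 := key (-t0 - 1) (fun t ht => by
      have : -t0 - 1 + t ≤ 0 := by linarith [ht.2]
      rw [abs_of_nonpos this]
      exact ⟨by linarith [ht.2], by linarith [ht.1]⟩) j hj
    refine fin _ h1 ?_
    have hj' : (0 : ℝ) ≤ j := by exact_mod_cast hj0
    rw [abs_of_nonneg hj'] at hKj ⊢
    nlinarith
  · have h1 := key t0 (fun t ht => by
      have : 0 ≤ t0 + t := by linarith [ht.1]
      rw [abs_of_nonneg this]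
      exact ⟨by linarith [ht.1], by linarith [ht.2]⟩) j hj
    refine fin _ h1 ?_
    have hj' : (j : ℝ) ≤ 0 := by exact_mod_cast hj0
    rw [abs_of_nonpos hj'] at hKj ⊢
    have : (0 : ℝ) ≤ K := K.cast_nonneg
    nlinarith

/-! ### the harmonics on the near set -/

variable {K : ℕ} {g : ℕ → ℤ → ℂ} {f : ℕ → ℂ → ℂ} {x0 ρ c c1 c0 d A : ℝ}

lemma ev_log (C : ℝ) : ∀ᶠ k : ℕ in atTop, C ≤ Real.log k :=
  (Real.tendsto_log_atTop.comp tendsto_natCast_atTop_atTop).eventually_ge_atTop C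

lemma ev_one : ∀ᶠ k : ℕ in atTop, (1 : ℝ) ≤ k := tendsto_natCast_atTop_atTop.eventually_ge_atTop 1

lemma rpow_log {k : ℕ} (hk : (1 : ℝ) ≤ k) (x : ℝ) : (k : ℝ) ^ x = Real.exp (x * Real.log k) := by
  rw [Real.rpow_def_of_pos (by linarith), mul_comm]

lemma nearS_sT (hd' : d ≤ 1 / 20) {k : ℕ} (hL : 0 ≤ Real.log k) {τ : ℝ × ℝ}
    (h : τ ∈ nearS (3 / 8 + d) k) : sT τ ≤ 1 / 4 * Real.log k ∧
      |yT τ| ≤ (3 / 8 + d) / 4 * Real.log k ∧ |yT τ| ≤ 9 / 80 * Real.log k := by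
  have h1 := two_sT_le τ
  have h2 := yT_le τ
  have h3 : mT τ ≤ (3 / 8 + d) * Real.log k := h
  refine ⟨?_, ?_, ?_⟩ <;> nlinarith

/-- bounded zero coefficient (up to `k ^ e`) -/
theorem g0_le {e : ℝ} (he : 0 < e) (H5 : ∀ᶠ k : ℕ in atTop, ∀ z : ℂ, |z.re| ≤ ρ → |z.im| ≤ 9 / 80 * Real.log k →
      ‖f k z - EL (8 / 3) K (g k) z‖ ≤ (k : ℝ) ^ (-(1 : ℝ))) (hρ : 0 ≤ ρ)
    (H7 : ∀ᶠ k : ℕ in atTop, ∀ t : ℝ, |t| ≤ 9 / 80 * Real.log k →
      ‖f k (I * t)‖ ≤ (k : ℝ) ^ e * Real.exp (2 * |t|)) :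
    ∃ V : ℝ, 0 < V ∧ ∀ᶠ k : ℕ in atTop, ‖g k 0‖ ≤ V * (k : ℝ) ^ e := by
  obtain ⟨V, hV0, hV⟩ := coef_high K
  refine ⟨V * (Real.exp 2 + 1), by positivity, ?_⟩
  filter_upwards [H5, H7, ev_log (80 / 9), ev_one] with k h5 h7 hL hk
  have him : ∀ t : ℝ, (I * (t : ℂ)).im = t := fun t => by simp
  have hre : ∀ t : ℝ, (I * (t : ℂ)).re = 0 := fun t => by simp
  have hle : ∀ t : ℝ, |t| ≤ 0 + 1 → |t| ≤ 9 / 80 * Real.log k := fun t ht => by linarith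
  have h1 := hV (f k) (g k) 0 ((k : ℝ) ^ e * Real.exp 2) ((k : ℝ) ^ (-(1 : ℝ))) le_rfl
    (fun t _ ht => (h7 t (hle t ht)).trans (by
      have := Real.exp_le_exp.2 (show 2 * |t| ≤ 2 by linarith)
      gcongr))
    (fun t _ ht => h5 _ (by rw [hre, abs_zero]; exact hρ) (by rw [him]; exact hle t ht)) 0 (by simp)
  rw [mul_zero, neg_zero, Real.exp_zero, mul_one] at h1
  have h2 : (k : ℝ) ^ (-(1 : ℝ)) ≤ (k : ℝ) ^ e := Real.rpow_le_rpow_of_exponent_le hk (by linarith)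
  calc ‖g k 0‖ ≤ V * ((k : ℝ) ^ e * Real.exp 2 + (k : ℝ) ^ (-(1 : ℝ))) := h1
    _ ≤ V * ((k : ℝ) ^ e * Real.exp 2 + (k : ℝ) ^ e) := by gcongr
    _ = _ := by ring

/-- **the harmonics on the near set** -/
theorem harm_small {e : ℝ} (he : e ≤ 1 / 80) (hx : |x0| ≤ ρ) (hd' : d ≤ 1 / 20)
    (H5 : ∀ᶠ k : ℕ in atTop, ∀ z : ℂ, |z.re| ≤ ρ → |z.im| ≤ 9 / 80 * Real.log k →
      ‖f k z - EL (8 / 3) K (g k) z‖ ≤ (k : ℝ) ^ (-(1 : ℝ)))
    (H6 : ∀ᶠ k : ℕ in atTop, ∀ j ∈ Finset.Icc (-(K : ℤ)) K, j ≠ 0 → ‖g k j‖ ≤ (k : ℝ) ^ (-c))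
    (H7 : ∀ᶠ k : ℕ in atTop, ∀ t : ℝ, |t| ≤ 9 / 80 * Real.log k →
      ‖f k (I * t)‖ ≤ (k : ℝ) ^ e * Real.exp (2 * |t|)) :
    ∃ B : ℝ, 0 < B ∧ ∀ᶠ k : ℕ in atTop, ∀ τ ∈ nearS (3 / 8 + d) k,
      ‖f k (zT x0 τ) - g k 0‖ * Real.exp (-(3 * sT τ)) ≤
        B * (k : ℝ) ^ (-(min c (9 / 20))) := by
  obtain ⟨V, hV0, hV⟩ := coef_high K
  have hρ : 0 ≤ ρ := (abs_nonneg x0).trans hx
  refine ⟨1 + (2 * K + 1) * (1 + 2 * V * Real.exp (8 / 3 * K)), by positivity, ?_⟩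
  filter_upwards [H5, H6, H7, ev_log 80, ev_one] with k h5 h6 h7' hL hk
  have h7 : ∀ t : ℝ, |t| ≤ 9 / 80 * Real.log k →
      ‖f k (I * t)‖ ≤ (k : ℝ) ^ (1 / 80 : ℝ) * Real.exp (2 * |t|) := fun t ht => by
    refine (h7' t ht).trans ?_
    have := Real.rpow_le_rpow_of_exponent_le hk he
    gcongr
  intro τ hτ
  set L := Real.log k with hLdef
  have hL0 : 0 ≤ L := by linarith
  obtain ⟨hs, hy, hy'⟩ := nearS_sT hd' hL0 hτ
  have hs0 := sT_nonneg τ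
  have hys := yT_le τ
  set s := sT τ with hsdef
  set y := yT τ with hydef
  set m := min c (9 / 20) with hm
  have hmc : m ≤ c := min_le_left _ _
  have hm9 : m ≤ 9 / 20 := min_le_right _ _
  have him : ∀ t : ℝ, (I * (t : ℂ)).im = t := fun t => by simp
  have hre : ∀ t : ℝ, (I * (t : ℂ)).re = 0 := fun t => by simp
  have e1 : Real.exp (-(3 * s)) ≤ 1 := Real.exp_le_one_iff.2 (by linarith)
  -- the expansion
  have hz := h5 (zT x0 τ) (by rw [zT_re]; exact hx) (by rw [zT_im, abs_neg]; exact hy')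
  -- one harmonic
  have hone : ∀ j ∈ Finset.Icc (-(K : ℤ)) K, j ≠ 0 →
      ‖g k j * exp (I * (8 / 3 : ℝ) * j * zT x0 τ)‖ * Real.exp (-(3 * s)) ≤
        (1 + 2 * V * Real.exp (8 / 3 * K)) * (k : ℝ) ^ (-m) := by
    intro j hj hj0
    rw [norm_harm, zT_im, ← hydef]
    have hg := h6 j hj hj0
    have hkm : 0 < (k : ℝ) ^ (-m) := Real.rpow_pos_of_pos (by linarith) _
    have hVe : 0 ≤ 2 * V * Real.exp (8 / 3 * K) := by positivity
    have ha : -(8 / 3 * (j : ℝ) * -y) ≤ 8 / 3 * |(j : ℝ)| * |y| := by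
      have := le_abs_self ((j : ℝ) * y)
      rw [abs_mul] at this
      linarith
    have hb : Real.exp (-(8 / 3 * (j : ℝ) * -y)) * Real.exp (-(3 * s)) ≤
        Real.exp ((8 / 3 * |(j : ℝ)| - 6) * |y|) := by
      rw [← Real.exp_add]
      apply Real.exp_le_exp.2
      nlinarith
    rcases le_or_gt |j| 2 with h2 | h2
    · -- low harmonics
      have h3 : |(j : ℝ)| ≤ 2 := by exact_mod_cast h2
      have h4 : Real.exp ((8 / 3 * |(j : ℝ)| - 6) * |y|) ≤ 1 := by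
        apply Real.exp_le_one_iff.2
        have := abs_nonneg y
        nlinarith
      calc ‖g k j‖ * Real.exp (-(8 / 3 * (j : ℝ) * -y)) * Real.exp (-(3 * s)) =
            ‖g k j‖ * (Real.exp (-(8 / 3 * (j : ℝ) * -y)) * Real.exp (-(3 * s))) := by ring
        _ ≤ (k : ℝ) ^ (-c) * 1 := mul_le_mul hg (hb.trans h4) (by positivity) (by positivity)
        _ ≤ 1 * (k : ℝ) ^ (-m) := by
            rw [mul_one, one_mul]
            exact Real.rpow_le_rpow_of_exponent_le hk (by linarith)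
        _ ≤ _ := by gcongr; linarith
    · -- high harmonics
      have h3 : (3 : ℝ) ≤ |(j : ℝ)| := by
        have : (3 : ℤ) ≤ |j| := by omega
        exact_mod_cast this
      have hKj : |(j : ℝ)| ≤ K := by
        rw [Finset.mem_Icc] at hj
        rw [abs_le]
        exact ⟨by exact_mod_cast hj.1, by exact_mod_cast hj.2⟩
      have ht0 : 0 ≤ 9 / 80 * L - 1 := by linarith
      have hle : ∀ t : ℝ, |t| ≤ 9 / 80 * L - 1 + 1 → |t| ≤ 9 / 80 * L := fun t ht => by linarith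
      have h4 := hV (f k) (g k) (9 / 80 * L - 1) ((k : ℝ) ^ (1 / 80 : ℝ) * Real.exp (2 * (9 / 80 * L)))
        ((k : ℝ) ^ (-(1 : ℝ))) ht0
        (fun t _ ht => (h7 t (hle t ht)).trans (by
          have := Real.exp_le_exp.2 (show 2 * |t| ≤ 2 * (9 / 80 * L) by linarith [hle t ht])
          gcongr))
        (fun t _ ht => h5 _ (by rw [hre, abs_zero]; exact hρ) (by rw [him]; exact hle t ht)) j hj
      have h5' : (k : ℝ) ^ (-(1 : ℝ)) ≤ (k : ℝ) ^ (1 / 80 : ℝ) * Real.exp (2 * (9 / 80 * L)) := by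
        rw [rpow_log hk, rpow_log hk, ← Real.exp_add]
        apply Real.exp_le_exp.2
        linarith
      have h6' : (k : ℝ) ^ (1 / 80 : ℝ) * Real.exp (2 * (9 / 80 * L)) = Real.exp ((1 / 80 + 9 / 40) * L) := by
        rw [rpow_log hk, ← Real.exp_add]
        congr 1
        ring
      have h7' : ‖g k j‖ ≤ 2 * V * Real.exp ((1 / 80 + 9 / 40) * L +
          -(8 / 3 * |(j : ℝ)| * (9 / 80 * L - 1))) := by
        rw [Real.exp_add, ← h6']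
        refine h4.trans ?_
        have : 0 < Real.exp (-(8 / 3 * |(j : ℝ)| * (9 / 80 * L - 1))) := Real.exp_pos _
        have h8 : V * ((k : ℝ) ^ (1 / 80 : ℝ) * Real.exp (2 * (9 / 80 * L)) + (k : ℝ) ^ (-(1 : ℝ))) ≤
            2 * V * ((k : ℝ) ^ (1 / 80 : ℝ) * Real.exp (2 * (9 / 80 * L))) := by nlinarith
        calc _ ≤ 2 * V * ((k : ℝ) ^ (1 / 80 : ℝ) * Real.exp (2 * (9 / 80 * L))) *
            Real.exp (-(8 / 3 * |(j : ℝ)| * (9 / 80 * L - 1))) :=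
              mul_le_mul_of_nonneg_right h8 this.le
          _ = _ := by ring
      calc ‖g k j‖ * Real.exp (-(8 / 3 * (j : ℝ) * -y)) * Real.exp (-(3 * s)) =
            ‖g k j‖ * (Real.exp (-(8 / 3 * (j : ℝ) * -y)) * Real.exp (-(3 * s))) := by ring
        _ ≤ (2 * V * Real.exp ((1 / 80 + 9 / 40) * L + -(8 / 3 * |(j : ℝ)| * (9 / 80 * L - 1)))) *
            Real.exp ((8 / 3 * |(j : ℝ)| - 6) * |y|) :=
            mul_le_mul h7' hb (by positivity) (by positivity)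
        _ = 2 * V * Real.exp ((1 / 80 + 9 / 40) * L + -(8 / 3 * |(j : ℝ)| * (9 / 80 * L - 1)) +
            (8 / 3 * |(j : ℝ)| - 6) * |y|) := by rw [mul_assoc, ← Real.exp_add]
        _ ≤ 2 * V * Real.exp (8 / 3 * K + -m * L) := by
            refine mul_le_mul_of_nonneg_left (Real.exp_le_exp.2 ?_) (by positivity)
            have h9 : (8 / 3 * |(j : ℝ)| - 6) * |y| ≤ (8 / 3 * |(j : ℝ)| - 6) * (17 / 160 * L) := by
              have h10 : |y| ≤ 17 / 160 * L := by nlinarith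
              have h11 : 0 ≤ 8 / 3 * |(j : ℝ)| - 6 := by linarith
              exact mul_le_mul_of_nonneg_left h10 h11
            nlinarith
        _ = 2 * V * Real.exp (8 / 3 * K) * (k : ℝ) ^ (-m) := by
            rw [rpow_log hk, Real.exp_add]
            ring
        _ ≤ _ := by gcongr; linarith
  -- the sum
  have hsum : ‖EL (8 / 3) K (g k) (zT x0 τ) - g k 0‖ * Real.exp (-(3 * s)) ≤
      (2 * K + 1) * ((1 + 2 * V * Real.exp (8 / 3 * K)) * (k : ℝ) ^ (-m)) := by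
    have h0 : (0 : ℤ) ∈ Finset.Icc (-(K : ℤ)) K := by simp
    have e2 : EL (8 / 3) K (g k) (zT x0 τ) - g k 0 =
        ∑ j ∈ (Finset.Icc (-(K : ℤ)) K).erase 0, g k j * exp (I * (8 / 3 : ℝ) * j * zT x0 τ) := by
      unfold EL
      rw [← Finset.add_sum_erase _ _ h0]
      simp
    rw [e2]
    have hC : 0 ≤ (1 + 2 * V * Real.exp (8 / 3 * K)) * (k : ℝ) ^ (-m) := by
      have : 0 ≤ (k : ℝ) ^ (-m) := Real.rpow_nonneg (by linarith) _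
      positivity
    calc _ ≤ (∑ j ∈ (Finset.Icc (-(K : ℤ)) K).erase 0,
          ‖g k j * exp (I * (8 / 3 : ℝ) * j * zT x0 τ)‖) * Real.exp (-(3 * s)) := by
          gcongr
          exact norm_sum_le _ _
      _ = ∑ j ∈ (Finset.Icc (-(K : ℤ)) K).erase 0,
          ‖g k j * exp (I * (8 / 3 : ℝ) * j * zT x0 τ)‖ * Real.exp (-(3 * s)) := Finset.sum_mul _ _ _
      _ ≤ ∑ j ∈ (Finset.Icc (-(K : ℤ)) K).erase 0,
          (1 + 2 * V * Real.exp (8 / 3 * K)) * (k : ℝ) ^ (-m) := by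
          refine Finset.sum_le_sum fun j hj => ?_
          rw [Finset.mem_erase] at hj
          exact hone j hj.2 hj.1
      _ ≤ ∑ _j ∈ Finset.Icc (-(K : ℤ)) K, (1 + 2 * V * Real.exp (8 / 3 * K)) * (k : ℝ) ^ (-m) :=
          Finset.sum_le_sum_of_subset_of_nonneg (Finset.erase_subset _ _) fun _ _ _ => hC
      _ = _ := by
          rw [Finset.sum_const, nsmul_eq_mul, Int.card_Icc]
          have : ((K : ℤ) + 1 - -(K : ℤ)).toNat = 2 * K + 1 := by omega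
          rw [this]
          push_cast
          ring
  have hk1 : (k : ℝ) ^ (-(1 : ℝ)) ≤ (k : ℝ) ^ (-m) := Real.rpow_le_rpow_of_exponent_le hk (by linarith)
  have e3 : f k (zT x0 τ) - g k 0 = (f k (zT x0 τ) - EL (8 / 3) K (g k) (zT x0 τ)) +
      (EL (8 / 3) K (g k) (zT x0 τ) - g k 0) := by ring
  rw [e3]
  calc _ ≤ (‖f k (zT x0 τ) - EL (8 / 3) K (g k) (zT x0 τ)‖ +
        ‖EL (8 / 3) K (g k) (zT x0 τ) - g k 0‖) * Real.exp (-(3 * s)) := by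
        gcongr
        exact norm_add_le _ _
    _ = ‖f k (zT x0 τ) - EL (8 / 3) K (g k) (zT x0 τ)‖ * Real.exp (-(3 * s)) +
        ‖EL (8 / 3) K (g k) (zT x0 τ) - g k 0‖ * Real.exp (-(3 * s)) := by ring
    _ ≤ (k : ℝ) ^ (-m) * 1 + (2 * K + 1) * ((1 + 2 * V * Real.exp (8 / 3 * K)) * (k : ℝ) ^ (-m)) :=
        add_le_add (mul_le_mul (hz.trans hk1) e1 (by positivity)
          (Real.rpow_nonneg (by linarith) _)) hsum
    _ = _ := by ring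

/-! ### the integral -/

/-- the weight is integrable -/
lemma int_esT {θ : ℝ} (hθ : 0 < θ) : Integrable fun τ : ℝ × ℝ => Real.exp (-(θ * sT τ)) := by
  have h1 : Integrable fun y : ℝ => Real.exp (-(θ * |y|)) := by
    have h1 : IntegrableOn (fun y : ℝ => Real.exp (-(θ * |y|))) (Set.Ioi 0) := by
      refine (integrableOn_exp_mul_Ioi (a := -θ) (by linarith) 0).congr_fun ?_ measurableSet_Ioi
      intro y hy
      simp only
      rw [abs_of_pos hy, neg_mul]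
    have h2 : IntegrableOn (fun y : ℝ => Real.exp (-(θ * |y|))) (Set.Iic 0) := by
      refine (integrableOn_exp_mul_Iic (a := θ) hθ 0).congr_fun ?_ measurableSet_Iic
      intro y hy
      simp only
      rw [abs_of_nonpos hy]
      congr 1; ring
    have h3 := h2.union h1
    rwa [Set.Iic_union_Ioi, integrableOn_univ] at h3
  have := h1.mul_prod h1
  rw [← Measure.volume_eq_prod] at this
  refine this.congr (Eventually.of_forall fun τ => ?_)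
  show Real.exp (-(θ * |τ.1|)) * Real.exp (-(θ * |τ.2|)) = Real.exp (-(θ * sT τ))
  rw [← Real.exp_add, sT]
  congr 1
  ring

/-- **integration over the heights of the half quanta**, core form: `g0` = the zero coefficient -/
theorem tr_core {m B1 V0 : ℝ} {g0 : ℕ → ℂ} {n : ℕ → ℂ} {R : ℕ → ℝ × ℝ → ℂ} {k1 E : ℝ × ℝ → ℂ} {W : ℕ → Set (ℝ × ℝ)}
    (hd : 0 < d) (hd' : d ≤ 1 / 20) (hc0 : 3 / 8 < c0) (hc1 : 3 / 8 < c1)
    (hm : 3 / 8 < m) (hB1 : 0 ≤ B1) (hV0 : 0 ≤ V0) (hWm : ∀ k, MeasurableSet (W k))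
    (hWS : ∀ᶠ k : ℕ in atTop, nearS (3 / 8 + d) k ⊆ W k)
    (hRm : ∀ᶠ k : ℕ in atTop,
      AEStronglyMeasurable (fun τ => k1 τ * R k τ) (volume.restrict (W k)))
    (hKm : AEStronglyMeasurable (fun τ => k1 τ * E τ) volume)
    (H1 : ∀ᶠ k : ℕ in atTop, ‖n k - ∫ τ in W k, k1 τ * R k τ‖ ≤ (k : ℝ) ^ (-c0))
    (H2 : ∀ᶠ k : ℕ in atTop, ∀ τ ∈ W k,
      ‖k1 τ * R k τ‖ ≤ (k : ℝ) ^ (d / 8) * Real.exp (-(mT τ)))
    (H3 : ∀ᶠ k : ℕ in atTop, ∀ τ ∈ nearS (3 / 8 + d) k,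
      ‖k1 τ‖ * ‖R k τ - E τ * f k (zT x0 τ)‖ ≤ (k : ℝ) ^ (-c1))
    (H4 : ∀ τ, ‖k1 τ * E τ‖ ≤ A * Real.exp (-(3 * sT τ)))
    (Hh : ∀ᶠ k : ℕ in atTop, ∀ τ ∈ nearS (3 / 8 + d) k,
      ‖f k (zT x0 τ) - g0 k‖ * Real.exp (-(3 * sT τ)) ≤ B1 * (k : ℝ) ^ (-m))
    (Hg : ∀ᶠ k : ℕ in atTop, ‖g0 k‖ ≤ V0 * (k : ℝ) ^ (d / 8)) :
    ∃ c' : ℝ, 3 / 8 < c' ∧ ∃ B : ℝ, ∀ᶠ k : ℕ in atTop,
      ‖n k - g0 k * ∫ τ, k1 τ * E τ‖ ≤ B * (k : ℝ) ^ (-c') := by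
  have hA : 0 ≤ A := by
    have h1 := H4 (0, 0)
    have h2 : sT (0, 0) = 0 := by simp [sT]
    rw [h2, mul_zero, neg_zero, Real.exp_zero, mul_one] at h1
    exact (norm_nonneg _).trans h1
  -- the margin
  obtain ⟨m0, hm0, m1, m2, m3, m4, m5⟩ : ∃ m0 : ℝ, 0 < m0 ∧ m0 ≤ m - 3 / 8 ∧ m0 ≤ c1 - 3 / 8 ∧
      m0 ≤ c0 - 3 / 8 ∧ m0 ≤ d ∧ m0 ≤ 1 / 16 := by
    refine ⟨min (min (m - 3 / 8) (c1 - 3 / 8)) (min (c0 - 3 / 8) (min d (1 / 16))), ?_, ?_, ?_, ?_, ?_, ?_⟩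
    · refine lt_min (lt_min (by linarith) (by linarith)) (lt_min (by linarith) (lt_min hd (by norm_num)))
    · exact (min_le_left _ _).trans (min_le_left _ _)
    · exact (min_le_left _ _).trans (min_le_right _ _)
    · exact (min_le_right _ _).trans (min_le_left _ _)
    · exact (min_le_right _ _).trans ((min_le_right _ _).trans (min_le_left _ _))
    · exact (min_le_right _ _).trans ((min_le_right _ _).trans (min_le_right _ _))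
  have hmc : 3 / 8 + m0 ≤ m := by linarith
  -- integrals of the weights
  have hv := int_esT (θ := m0) hm0
  have hdq : 0 < d / 4 := by linarith
  have hw : Integrable fun τ : ℝ × ℝ => Real.exp (-(d / 4 * mT τ)) := by
    refine (int_esT hdq).mono' ?_ (Eventually.of_forall fun τ => ?_)
    · exact (Real.continuous_exp.comp (continuous_const.mul continuous_mT).neg).aestronglyMeasurable
    · rw [Real.norm_of_nonneg (Real.exp_pos _).le]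
      apply Real.exp_le_exp.2
      have h1 := two_sT_le τ
      have h2 := sT_nonneg τ
      nlinarith
  set IV : ℝ := ∫ τ : ℝ × ℝ, Real.exp (-(m0 * sT τ)) with hIV
  set IW : ℝ := ∫ τ : ℝ × ℝ, Real.exp (-(d / 4 * mT τ)) with hIW
  have hIV0 : 0 ≤ IV := integral_nonneg fun τ => (Real.exp_pos _).le
  have hIW0 : 0 ≤ IW := integral_nonneg fun τ => (Real.exp_pos _).le
  have hKi : Integrable fun τ => k1 τ * E τ := by
    refine ((int_esT (θ := 3) (by norm_num)).const_mul A).mono' hKm (Eventually.of_forall fun τ => ?_)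
    exact H4 τ
  refine ⟨3 / 8 + m0 / 2, by linarith, 1 + ((1 + A * B1) * IV + (1 + V0 * A) * IW), ?_⟩
  filter_upwards [hWS, hRm, H1, H2, H3, Hh, Hg, ev_log 0, ev_one] with k q1 q2 q3 q4 q5 q6 q7 hL hk
  set L := Real.log k with hLdef
  set RR : ℝ × ℝ → ℂ := (W k).indicator fun τ => k1 τ * R k τ with hRR
  have hkp : (0 : ℝ) < k := by linarith
  have hRRi : Integrable RR := by
    rw [hRR, integrable_indicator_iff (hWm k)]
    refine Integrable.mono' (g := fun τ => (k : ℝ) ^ (d / 8) * Real.exp (-(d / 4 * mT τ)))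
      ((hw.const_mul _).integrableOn) q2 ?_
    refine (ae_restrict_iff' (hWm k)).2 (Eventually.of_forall fun τ hτ => (q4 τ hτ).trans ?_)
    have h1 := mT_nonneg τ
    have h2 : Real.exp (-(mT τ)) ≤ Real.exp (-(d / 4 * mT τ)) := by
      apply Real.exp_le_exp.2
      nlinarith
    have h3 : 0 ≤ (k : ℝ) ^ (d / 8) := Real.rpow_nonneg hkp.le _
    exact mul_le_mul_of_nonneg_left h2 h3
  have hRRint : ∫ τ, RR τ = ∫ τ in W k, k1 τ * R k τ := by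
    rw [hRR, integral_indicator (hWm k)]
  -- near
  have near : ∀ τ ∈ nearS (3 / 8 + d) k, ‖RR τ - g0 k * (k1 τ * E τ)‖ ≤
      ((1 + A * B1) * (k : ℝ) ^ (-(3 / 8 + m0 / 2))) * Real.exp (-(m0 * sT τ)) := by
    intro τ hτ
    have h1 : RR τ = k1 τ * R k τ := by
      rw [hRR, Set.indicator_of_mem (q1 hτ)]
    have h2 : RR τ - g0 k * (k1 τ * E τ) = k1 τ * (R k τ - E τ * f k (zT x0 τ)) +
        (k1 τ * E τ) * (f k (zT x0 τ) - g0 k) := by rw [h1]; ring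
    have h3 := q5 τ hτ
    have h4 := q6 τ hτ
    have h5 : ‖k1 τ * E τ‖ * ‖f k (zT x0 τ) - g0 k‖ ≤ A * (B1 * (k : ℝ) ^ (-m)) := by
      calc _ ≤ A * Real.exp (-(3 * sT τ)) * ‖f k (zT x0 τ) - g0 k‖ := by
            gcongr
            exact H4 τ
        _ = A * (‖f k (zT x0 τ) - g0 k‖ * Real.exp (-(3 * sT τ))) := by ring
        _ ≤ _ := by gcongr
    have h6 : (k : ℝ) ^ (-c1) ≤ (k : ℝ) ^ (-(3 / 8 + m0)) :=
      Real.rpow_le_rpow_of_exponent_le hk (by linarith)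
    have h7 : (k : ℝ) ^ (-m) ≤ (k : ℝ) ^ (-(3 / 8 + m0)) :=
      Real.rpow_le_rpow_of_exponent_le hk (by linarith)
    have h10 : (k : ℝ) ^ (-(3 / 8 + m0)) ≤
        (k : ℝ) ^ (-(3 / 8 + m0 / 2)) * Real.exp (-(m0 * sT τ)) := by
      rw [rpow_log hk, rpow_log hk, ← Real.exp_add]
      apply Real.exp_le_exp.2
      have := (nearS_sT hd' hL hτ).1
      nlinarith
    rw [h2]
    calc _ ≤ ‖k1 τ * (R k τ - E τ * f k (zT x0 τ))‖ + ‖(k1 τ * E τ) * (f k (zT x0 τ) - g0 k)‖ :=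
          norm_add_le _ _
      _ = ‖k1 τ‖ * ‖R k τ - E τ * f k (zT x0 τ)‖ + ‖k1 τ * E τ‖ * ‖f k (zT x0 τ) - g0 k‖ := by
          rw [norm_mul, norm_mul (k1 τ * E τ)]
      _ ≤ (k : ℝ) ^ (-(3 / 8 + m0)) + A * (B1 * (k : ℝ) ^ (-(3 / 8 + m0))) := by
          refine add_le_add (h3.trans h6) (h5.trans ?_)
          gcongr
      _ = (1 + A * B1) * (k : ℝ) ^ (-(3 / 8 + m0)) := by ring
      _ ≤ (1 + A * B1) * ((k : ℝ) ^ (-(3 / 8 + m0 / 2)) * Real.exp (-(m0 * sT τ))) := by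
          gcongr
      _ = _ := by ring
  -- far
  have hout : ∀ τ ∉ nearS (3 / 8 + d) k, Real.exp (-(mT τ)) ≤
      (k : ℝ) ^ (-(3 / 8 + 7 / 8 * d)) * Real.exp (-(d / 4 * mT τ)) := by
    intro τ hτ
    have h1 : (3 / 8 + d) * L < mT τ := by
      by_contra hn
      push Not at hn
      exact hτ hn
    rw [rpow_log hk, ← Real.exp_add]
    apply Real.exp_le_exp.2
    have h2 : (1 - d / 4) * ((3 / 8 + d) * L) ≤ (1 - d / 4) * mT τ :=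
      mul_le_mul_of_nonneg_left h1.le (by linarith)
    have h3 : (3 / 8 + 7 / 8 * d) * L ≤ (1 - d / 4) * ((3 / 8 + d) * L) := by
      rw [← mul_assoc]
      refine mul_le_mul_of_nonneg_right ?_ hL
      nlinarith
    linarith
  have far : ∀ τ ∉ nearS (3 / 8 + d) k, ‖RR τ‖ ≤
      ((k : ℝ) ^ (d / 8) * (k : ℝ) ^ (-(3 / 8 + 7 / 8 * d))) * Real.exp (-(d / 4 * mT τ)) := by
    intro τ hτ
    by_cases hW : τ ∈ W k
    · rw [hRR, Set.indicator_of_mem hW]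
      refine (q4 τ hW).trans ?_
      rw [mul_assoc]
      exact mul_le_mul_of_nonneg_left (hout τ hτ) (Real.rpow_nonneg hkp.le _)
    · rw [hRR, Set.indicator_of_notMem hW, norm_zero]
      positivity
  have farK : ∀ τ ∉ nearS (3 / 8 + d) k, ‖k1 τ * E τ‖ ≤
      (A * (k : ℝ) ^ (-(3 / 8 + 7 / 8 * d))) * Real.exp (-(d / 4 * mT τ)) := by
    intro τ hτ
    refine (H4 τ).trans ?_
    rw [mul_assoc]
    refine mul_le_mul_of_nonneg_left (le_trans ?_ (hout τ hτ)) hA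
    apply Real.exp_le_exp.2
    have h1 := mT_le τ
    have h2 := sT_nonneg τ
    linarith
  have hfin := nearfar (μ := volume) (measurableSet_nearS (3 / 8 + d) k) (g := g0 k) hRRi hKi hv hw
    (fun τ => (Real.exp_pos _).le) (fun τ => (Real.exp_pos _).le)
    (by positivity) (by positivity) near far farK (A := IV) (B := IW) le_rfl
    (setIntegral_le_integral hw (Eventually.of_forall fun τ => (Real.exp_pos _).le)) (by positivity)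
  rw [hRRint] at hfin
  have p1 : (k : ℝ) ^ (-c0) ≤ (k : ℝ) ^ (-(3 / 8 + m0 / 2)) :=
    Real.rpow_le_rpow_of_exponent_le hk (by linarith)
  have p2 : (k : ℝ) ^ (d / 8) * (k : ℝ) ^ (-(3 / 8 + 7 / 8 * d)) ≤ (k : ℝ) ^ (-(3 / 8 + m0 / 2)) := by
    rw [← Real.rpow_add hkp]
    exact Real.rpow_le_rpow_of_exponent_le hk (by linarith)
  have p3 : ‖g0 k‖ * (A * (k : ℝ) ^ (-(3 / 8 + 7 / 8 * d))) ≤
      V0 * A * (k : ℝ) ^ (-(3 / 8 + m0 / 2)) := by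
    calc _ ≤ V0 * (k : ℝ) ^ (d / 8) * (A * (k : ℝ) ^ (-(3 / 8 + 7 / 8 * d))) := by gcongr
      _ = V0 * A * ((k : ℝ) ^ (d / 8) * (k : ℝ) ^ (-(3 / 8 + 7 / 8 * d))) := by ring
      _ ≤ _ := by gcongr
  have e1 : n k - g0 k * ∫ τ, k1 τ * E τ = (n k - ∫ τ in W k, k1 τ * R k τ) +
      ((∫ τ in W k, k1 τ * R k τ) - g0 k * ∫ τ, k1 τ * E τ) := by ring
  rw [e1]
  refine (norm_add_le _ _).trans ?_
  have p4 : ((k : ℝ) ^ (d / 8) * (k : ℝ) ^ (-(3 / 8 + 7 / 8 * d)) +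
      ‖g0 k‖ * (A * (k : ℝ) ^ (-(3 / 8 + 7 / 8 * d)))) * IW ≤
      (((k : ℝ) ^ (-(3 / 8 + m0 / 2)) + V0 * A * (k : ℝ) ^ (-(3 / 8 + m0 / 2)))) * IW := by
    gcongr
  calc _ ≤ (k : ℝ) ^ (-(3 / 8 + m0 / 2)) +
        ((1 + A * B1) * (k : ℝ) ^ (-(3 / 8 + m0 / 2)) * IV +
        (((k : ℝ) ^ (-(3 / 8 + m0 / 2)) + V0 * A * (k : ℝ) ^ (-(3 / 8 + m0 / 2)))) * IW) :=
        add_le_add (q3.trans p1) (hfin.trans (by gcongr))
    _ = _ := by ring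

/-- **integration over the heights of the half quanta** -/
theorem tr_sum {n : ℕ → ℂ} {R : ℕ → ℝ × ℝ → ℂ} {k1 E : ℝ × ℝ → ℂ} {W : ℕ → Set (ℝ × ℝ)}
    (hx : |x0| ≤ ρ) (hd : 0 < d) (hd' : d ≤ 1 / 20) (hc0 : 3 / 8 < c0) (hc1 : 3 / 8 < c1)
    (hc : 3 / 8 < c) (hWm : ∀ k, MeasurableSet (W k))
    (hWS : ∀ᶠ k : ℕ in atTop, nearS (3 / 8 + d) k ⊆ W k)
    (hRm : ∀ᶠ k : ℕ in atTop,
      AEStronglyMeasurable (fun τ => k1 τ * R k τ) (volume.restrict (W k)))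
    (hKm : AEStronglyMeasurable (fun τ => k1 τ * E τ) volume)
    (H1 : ∀ᶠ k : ℕ in atTop, ‖n k - ∫ τ in W k, k1 τ * R k τ‖ ≤ (k : ℝ) ^ (-c0))
    (H2 : ∀ᶠ k : ℕ in atTop, ∀ τ ∈ W k,
      ‖k1 τ * R k τ‖ ≤ (k : ℝ) ^ (d / 8) * Real.exp (-(mT τ)))
    (H3 : ∀ᶠ k : ℕ in atTop, ∀ τ ∈ nearS (3 / 8 + d) k,
      ‖k1 τ‖ * ‖R k τ - E τ * f k (zT x0 τ)‖ ≤ (k : ℝ) ^ (-c1))
    (H4 : ∀ τ, ‖k1 τ * E τ‖ ≤ A * Real.exp (-(3 * sT τ)))
    (H5 : ∀ᶠ k : ℕ in atTop, ∀ z : ℂ, |z.re| ≤ ρ → |z.im| ≤ 9 / 80 * Real.log k →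
      ‖f k z - EL (8 / 3) K (g k) z‖ ≤ (k : ℝ) ^ (-(1 : ℝ)))
    (H6 : ∀ᶠ k : ℕ in atTop, ∀ j ∈ Finset.Icc (-(K : ℤ)) K, j ≠ 0 → ‖g k j‖ ≤ (k : ℝ) ^ (-c))
    (H7 : ∀ᶠ k : ℕ in atTop, ∀ t : ℝ, |t| ≤ 9 / 80 * Real.log k →
      ‖f k (I * t)‖ ≤ (k : ℝ) ^ (d / 8) * Real.exp (2 * |t|)) :
    ∃ c' : ℝ, 3 / 8 < c' ∧ ∃ B : ℝ, ∀ᶠ k : ℕ in atTop,
      ‖n k - g k 0 * ∫ τ, k1 τ * E τ‖ ≤ B * (k : ℝ) ^ (-c') := by
  have hρ : 0 ≤ ρ := (abs_nonneg x0).trans hx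
  obtain ⟨B1, hB1, h8⟩ := harm_small (e := d / 8) (by linarith) hx hd' H5 H6 H7
  obtain ⟨V0, hV0, h9⟩ := g0_le (e := d / 8) (by linarith) H5 hρ H7
  exact tr_core (g0 := fun k => g k 0) hd hd' hc0 hc1 (lt_min hc (by norm_num)) hB1.le hV0.le hWm hWS hRm
    hKm H1 H2 H3 H4 h8 h9

/-- **the end**: the a priori bound gives the lower bound for every large `k` -/
theorem tr_end {n : ℕ → ℂ} {R : ℕ → ℝ × ℝ → ℂ} {k1 E : ℝ × ℝ → ℂ} {W : ℕ → Set (ℝ × ℝ)} {G : ℂ}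
    (hx : |x0| ≤ ρ) (hd : 0 < d) (hd' : d ≤ 1 / 20) (hc0 : 3 / 8 < c0) (hc1 : 3 / 8 < c1)
    (hc : 3 / 8 < c) (hWm : ∀ k, MeasurableSet (W k))
    (hWS : ∀ᶠ k : ℕ in atTop, nearS (3 / 8 + d) k ⊆ W k)
    (hRm : ∀ᶠ k : ℕ in atTop,
      AEStronglyMeasurable (fun τ => k1 τ * R k τ) (volume.restrict (W k)))
    (hKm : AEStronglyMeasurable (fun τ => k1 τ * E τ) volume)
    (H1 : ∀ᶠ k : ℕ in atTop, ‖n k - ∫ τ in W k, k1 τ * R k τ‖ ≤ (k : ℝ) ^ (-c0))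
    (H2 : ∀ᶠ k : ℕ in atTop, ∀ τ ∈ W k,
      ‖k1 τ * R k τ‖ ≤ (k : ℝ) ^ (d / 8) * Real.exp (-(mT τ)))
    (H3 : ∀ᶠ k : ℕ in atTop, ∀ τ ∈ nearS (3 / 8 + d) k,
      ‖k1 τ‖ * ‖R k τ - E τ * f k (zT x0 τ)‖ ≤ (k : ℝ) ^ (-c1))
    (H4 : ∀ τ, ‖k1 τ * E τ‖ ≤ A * Real.exp (-(3 * sT τ)))
    (H5 : ∀ᶠ k : ℕ in atTop, ∀ z : ℂ, |z.re| ≤ ρ → |z.im| ≤ 9 / 80 * Real.log k →
      ‖f k z - EL (8 / 3) K (g k) z‖ ≤ (k : ℝ) ^ (-(1 : ℝ)))
    (H6 : ∀ᶠ k : ℕ in atTop, ∀ j ∈ Finset.Icc (-(K : ℤ)) K, j ≠ 0 → ‖g k j‖ ≤ (k : ℝ) ^ (-c))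
    (H7 : ∀ᶠ k : ℕ in atTop, ∀ t : ℝ, |t| ≤ 9 / 80 * Real.log k →
      ‖f k (I * t)‖ ≤ (k : ℝ) ^ (d / 8) * Real.exp (2 * |t|))
    (H8 : ∃ B : ℝ, ∀ᶠ k : ℕ in atTop, ‖g k 0 - G‖ ≤ B * (k : ℝ) ^ (-c))
    (hlow : ∀ e : ℝ, 0 < e → ∃ a : ℝ, 0 < a ∧ ∃ᶠ k : ℕ in atTop, a * (k : ℝ) ^ (-(3 / 8 + e)) ≤ ‖n k‖) :
    G * (∫ τ, k1 τ * E τ) ≠ 0 ∧ Tendsto n atTop (𝓝 (G * ∫ τ, k1 τ * E τ)) ∧
      ∃ δ : ℝ, 0 < δ ∧ ∀ᶠ k : ℕ in atTop, δ ≤ ‖n k‖ := by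
  obtain ⟨c', hc', B, hB⟩ := tr_sum hx hd hd' hc0 hc1 hc hWm hWS hRm hKm H1 H2 H3 H4 H5 H6 H7
  obtain ⟨B', hB'⟩ := H8
  obtain ⟨cm, h1, h2, h3⟩ : ∃ cm : ℝ, 3 / 8 < cm ∧ cm ≤ c' ∧ cm ≤ c :=
    ⟨min c' c, lt_min hc' hc, min_le_left _ _, min_le_right _ _⟩
  obtain ⟨a, ha, hfreq⟩ := hlow ((cm - 3 / 8) / 2) (by linarith)
  refine limit_ne (g := fun k => g k 0) (c := cm) (a := 3 / 8 + (cm - 3 / 8) / 2) (A := a)
    (B := max |B| |B'|) (by linarith) (by linarith) ha ?_ ?_ hfreq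
  · filter_upwards [hB, ev_one] with k q1 hk
    refine q1.trans ?_
    have h4 : (k : ℝ) ^ (-c') ≤ (k : ℝ) ^ (-cm) := Real.rpow_le_rpow_of_exponent_le hk (by linarith)
    have h5 : 0 ≤ (k : ℝ) ^ (-c') := Real.rpow_nonneg (by linarith) _
    calc B * (k : ℝ) ^ (-c') ≤ |B| * (k : ℝ) ^ (-c') := mul_le_mul_of_nonneg_right (le_abs_self B) h5
      _ ≤ |B| * (k : ℝ) ^ (-cm) := mul_le_mul_of_nonneg_left h4 (abs_nonneg _)
      _ ≤ _ := mul_le_mul_of_nonneg_right (le_max_left _ _) (Real.rpow_nonneg (by linarith) _)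
  · filter_upwards [hB', ev_one] with k q1 hk
    refine q1.trans ?_
    have h4 : (k : ℝ) ^ (-c) ≤ (k : ℝ) ^ (-cm) := Real.rpow_le_rpow_of_exponent_le hk (by linarith)
    have h5 : 0 ≤ (k : ℝ) ^ (-c) := Real.rpow_nonneg (by linarith) _
    calc B' * (k : ℝ) ^ (-c) ≤ |B'| * (k : ℝ) ^ (-c) := mul_le_mul_of_nonneg_right (le_abs_self B') h5
      _ ≤ |B'| * (k : ℝ) ^ (-cm) := mul_le_mul_of_nonneg_left h4 (abs_nonneg _)
      _ ≤ _ := mul_le_mul_of_nonneg_right (le_max_right _ _) (Real.rpow_nonneg (by linarith) _)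

end PBTR
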