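import Pool.Agent.PB.TrG5
import Pool.Agent.PB.MFh
import Pool.Agent.NURow.Holo

/-!
# Transfer, Gaussian part (6): the fields of the two species in the strip

`w = 5l/4 + i τ`, `w' = 5l/4 + i τ'`, `be w w' b t = (β₊ ± β₋)/2` at complex heights:
* `be_hd`, `be_le`, `be_lin`, `be'_le`: analyticity and bounds for `-l/4 < Im t < 11l/4`;
* **`rsp_be : rsp β b t = Del b t`** in the strip; `rsp_top`, `rsp_bot`: the limits at infinity;
* `int_bM : ∫ β₋ = i (w - w')/2`;
* `pI_sum`, `qI_sum`: `p = ∑ ∫ β D_z'`, `q = ∑ ∫ β Δ'`.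
-/

set_option autoImplicit false

open MeasureTheory Set Filter Topology

namespace PBT3

open NUMF

noncomputable section

/-- half quanta at the height `5l/4` -/
structure G5 (w w' : ℂ) : Prop where
  h : w.re = 5 / 4 * l
  h' : w'.re = 5 / 4 * l

variable {w w' : ℂ}

lemma G5.geo (h : G5 w w') : Geo w w' := by
  have hl := l_pos
  obtain ⟨h1, h2⟩ := h
  constructor <;> linarith

/-- the sign of the species -/
def sgb (b : Bool) : ℂ := if b then 1 else -1

lemma sgb_true : sgb true = 1 := rfl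
lemma sgb_false : sgb false = -1 := rfl

lemma sgb_norm (b : Bool) : ‖sgb b‖ = 1 := by cases b <;> simp [sgb]

/-- the field of a species -/
def be (w w' : ℂ) (b : Bool) (t : ℂ) : ℂ :=
  1 / 2 * (BB (4 / 3 : ℝ) cP (aP w w') t + sgb b * BB (4 / 3 : ℝ) cM (aM w w') t)

/-- its derivative -/
def be' (w w' : ℂ) (b : Bool) (t : ℂ) : ℂ :=
  1 / 2 * (TT (4 / 3 : ℝ) cP (aP w w') t + sgb b * TT (4 / 3 : ℝ) cM (aM w w') t)

lemma aP_st (h : G5 w w') (j : Fin 8) : -(l / 4) ≤ (aP w w' j).re ∧ (aP w w' j).re ≤ 11 / 4 * l := by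
  have hl := l_pos
  have hz := zz_re w w'
  obtain ⟨h1, h2⟩ := h
  rw [h1, h2] at hz
  constructor <;> fin_cases j <;> simp [aP, hz, h1, h2] <;> linarith

lemma aM_st (h : G5 w w') (j : Fin 4) : -(l / 4) ≤ (aM w w' j).re ∧ (aM w w' j).re ≤ 11 / 4 * l := by
  have hl := l_pos
  obtain ⟨h1, h2⟩ := h
  constructor <;> fin_cases j <;> simp [aM, h1, h2] <;> linarith

lemma zz_im (w w' : ℂ) : (zz w w').im = -(w.im + w'.im) / 2 := by
  unfold zz
  have : (w + w') / 2 = ((1 / 2 : ℝ) : ℂ) * (w + w') := by push_cast; ring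
  rw [this, Complex.sub_im, Complex.im_ofReal_mul]
  simp
  ring

/-- the size of the heights -/
def MM (w w' : ℂ) : ℝ := max |w.im| |w'.im|

lemma MM_nonneg (w w' : ℂ) : 0 ≤ MM w w' := (abs_nonneg _).trans (le_max_left _ _)

lemma aP_im (w w' : ℂ) (j : Fin 8) : |(aP w w' j).im| ≤ MM w w' := by
  have h1 : |w.im| ≤ MM w w' := le_max_left _ _
  have h2 : |w'.im| ≤ MM w w' := le_max_right _ _
  have h0 := MM_nonneg w w'
  have hz := zz_im w w'
  have hz2 : |(zz w w').im| ≤ MM w w' := by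
    rw [hz, abs_div, abs_neg, abs_two, div_le_iff₀ two_pos]
    exact (abs_add_le _ _).trans (by linarith)
  fin_cases j <;> simp [aP] <;> assumption

lemma aM_im (w w' : ℂ) (j : Fin 4) : |(aM w w' j).im| ≤ MM w w' := by
  have h1 : |w.im| ≤ MM w w' := le_max_left _ _
  have h2 : |w'.im| ≤ MM w w' := le_max_right _ _
  fin_cases j <;> simp [aM] <;> assumption

lemma l3_eq : 4 / 3 * (3 * l) = Real.pi / 2 := by unfold l; ring

lemma st_lt {x y : ℝ} (hx : -(l / 4) ≤ x ∧ x ≤ 11 / 4 * l) (h1 : -(l / 4) < y) (h2 : y < 11 / 4 * l) :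
    |(4 / 3 : ℝ) * (x - y)| < Real.pi / 2 := by
  have hl := l_pos
  rw [abs_mul, abs_of_pos (by norm_num : (0:ℝ) < 4 / 3), ← l3_eq]
  have : |x - y| < 3 * l := abs_lt.2 ⟨by linarith [hx.1], by linarith [hx.2]⟩
  linarith

/-- distance to the boundary of the strip -/
def bst (y1 y2 : ℝ) : ℝ := 4 / 3 * (3 * l - min (y1 + l / 4) (11 / 4 * l - y2))

lemma bst_lt {y1 y2 : ℝ} (h1 : -(l / 4) < y1) (h2 : y2 < 11 / 4 * l) : bst y1 y2 < Real.pi / 2 := by
  unfold bst
  rw [← l3_eq]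
  have : 0 < min (y1 + l / 4) (11 / 4 * l - y2) := lt_min (by linarith) (by linarith)
  linarith

lemma st_le {x y y1 y2 : ℝ} (hx : -(l / 4) ≤ x ∧ x ≤ 11 / 4 * l) (h1 : y1 ≤ y) (h2 : y ≤ y2) :
    |(4 / 3 : ℝ) * (x - y)| ≤ bst y1 y2 := by
  have hl := l_pos
  unfold bst
  rw [abs_mul, abs_of_pos (by norm_num : (0:ℝ) < 4 / 3)]
  have h3 := min_le_left (y1 + l / 4) (11 / 4 * l - y2)
  have h4 := min_le_right (y1 + l / 4) (11 / 4 * l - y2)
  have : |x - y| ≤ 3 * l - min (y1 + l / 4) (11 / 4 * l - y2) :=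
    abs_le.2 ⟨by linarith [hx.1], by linarith [hx.2]⟩
  linarith

/-- the strip -/
def St : Set ℂ := {t | -(l / 4) < t.im ∧ t.im < 11 / 4 * l}

lemma St_open : IsOpen St :=
  (isOpen_lt continuous_const Complex.continuous_im).inter
    (isOpen_lt Complex.continuous_im continuous_const)

lemma St_preconn : IsPreconnected St := by
  have e : St = Complex.imLm ⁻¹' (Ioo (-(l / 4)) (11 / 4 * l)) := by
    ext z
    rfl
  rw [e]
  exact ((convex_Ioo _ _).linear_preimage _).isPreconnected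

theorem be_hd (h : G5 w w') (b : Bool) {t : ℂ} (ht : t ∈ St) :
    HasDerivAt (be w w' b) (be' w w' b t) t := by
  have h1 := BB_deriv (κ := 4 / 3) (c := cP) (a := aP w w') (t := t) fun j => st_lt (aP_st h j) ht.1 ht.2
  have h2 := BB_deriv (κ := 4 / 3) (c := cM) (a := aM w w') (t := t) fun j => st_lt (aM_st h j) ht.1 ht.2
  exact (h1.add (h2.const_mul (sgb b))).const_mul (1 / 2)

lemma deriv_be (h : G5 w w') (b : Bool) {t : ℂ} (ht : t ∈ St) : deriv (be w w' b) t = be' w w' b t :=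
  (be_hd h b ht).deriv

/-- the constant of the bounds -/
def Cst (y1 y2 : ℝ) : ℝ := ((∑ j, ‖cP j‖) + ∑ j, ‖cM j‖) / Real.cos (bst y1 y2)

lemma cos_bst {y1 y2 : ℝ} (h1 : -(l / 4) < y1) (h2 : y2 < 11 / 4 * l) (h12 : y1 ≤ y2) :
    0 < Real.cos (bst y1 y2) := by
  have hl := l_pos
  refine Real.cos_pos_of_mem_Ioo ⟨?_, bst_lt h1 h2⟩
  have h3 := min_le_left (y1 + l / 4) (11 / 4 * l - y2)
  have h4 := min_le_right (y1 + l / 4) (11 / 4 * l - y2)
  have : min (y1 + l / 4) (11 / 4 * l - y2) ≤ 3 / 2 * l := by linarith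
  have hp := Real.pi_pos
  unfold bst
  linarith

lemma Cst_nonneg {y1 y2 : ℝ} (h1 : -(l / 4) < y1) (h2 : y2 < 11 / 4 * l) (h12 : y1 ≤ y2) :
    0 ≤ Cst y1 y2 := by
  have := cos_bst h1 h2 h12
  unfold Cst
  positivity

lemma half_sum {u v : ℂ} {A B : ℝ} (b : Bool) (hu : ‖u‖ ≤ A) (hv : ‖v‖ ≤ B) :
    ‖(1 / 2 : ℂ) * (u + sgb b * v)‖ ≤ A + B := by
  have h1 : ‖(1 / 2 : ℂ)‖ = 1 / 2 := by simp
  have hA := (norm_nonneg _).trans hu
  have hB := (norm_nonneg _).trans hv
  rw [norm_mul, h1]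
  have h2 : ‖u + sgb b * v‖ ≤ A + B := by
    refine (norm_add_le _ _).trans ?_
    rw [norm_mul, sgb_norm, one_mul]
    exact add_le_add hu hv
  linarith

theorem be_le (h : G5 w w') (b : Bool) {y1 y2 : ℝ} (h1 : -(l / 4) < y1) (h2 : y2 < 11 / 4 * l) {t : ℂ}
    (ht1 : y1 ≤ t.im) (ht2 : t.im ≤ y2) :
    ‖be w w' b t‖ ≤ Cst y1 y2 * Real.exp (8 / 3 * (MM w w' - |t.re|)) := by
  have hc := cos_bst h1 h2 (ht1.trans ht2)
  have a1 := BB_le (κ := 4 / 3) (t := t) cP_sum (cP_sum1 w w') (by norm_num) (bst_lt h1 h2)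
    (fun j => st_le (aP_st h j) ht1 ht2) (aP_im w w')
  have a2 := BB_le (κ := 4 / 3) (t := t) cM_sum (cM_sum1 w w') (by norm_num) (bst_lt h1 h2)
    (fun j => st_le (aM_st h j) ht1 ht2) (aM_im w w')
  refine (half_sum b a1 a2).trans ?_
  rw [show (2 : ℝ) * (4 / 3) = 8 / 3 by norm_num, ← add_mul, ← mul_add, ← add_div]
  refine mul_le_mul_of_nonneg_right ?_ (Real.exp_pos _).le
  have hC := Cst_nonneg h1 h2 (ht1.trans ht2)
  unfold Cst at hC ⊢
  have hp : 1 / Real.pi ≤ 1 := by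
    rw [div_le_one Real.pi_pos]
    linarith [Real.pi_gt_three]
  exact mul_le_of_le_one_left hC hp

theorem be'_le (h : G5 w w') (b : Bool) {y1 y2 : ℝ} (h1 : -(l / 4) < y1) (h2 : y2 < 11 / 4 * l) {t : ℂ}
    (ht1 : y1 ≤ t.im) (ht2 : t.im ≤ y2) :
    ‖be' w w' b t‖ ≤ Cst y1 y2 * Real.exp (8 / 3 * (MM w w' - |t.re|)) := by
  have hc := cos_bst h1 h2 (ht1.trans ht2)
  have a1 := TT_le (κ := 4 / 3) (t := t) (by norm_num) cP_sum (bst_lt h1 h2)
    (fun j => st_le (aP_st h j) ht1 ht2) (aP_im w w')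
  have a2 := TT_le (κ := 4 / 3) (t := t) (by norm_num) cM_sum (bst_lt h1 h2)
    (fun j => st_le (aM_st h j) ht1 ht2) (aM_im w w')
  refine (half_sum b a1 a2).trans ?_
  rw [show (2 : ℝ) * (4 / 3) = 8 / 3 by norm_num, ← add_mul, ← mul_add, ← add_div]
  refine mul_le_mul_of_nonneg_right ?_ (Real.exp_pos _).le
  have hC := Cst_nonneg h1 h2 (ht1.trans ht2)
  unfold Cst at hC ⊢
  have hp : 8 / 3 / Real.pi ≤ 1 := by
    rw [div_le_one Real.pi_pos]
    linarith [Real.pi_gt_three]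
  exact mul_le_of_le_one_left hC hp

/-! ### the linear bound -/

lemma lc_lin {v : ℂ} {b : ℝ} (h : |v.re| ≤ b) (hb : b < Real.pi / 2) :
    ‖Complex.log (Complex.cos v)‖ ≤ ‖v‖ + Real.log 2 + 1 / Real.cos b := by
  have hb0 : 0 ≤ b := (abs_nonneg _).trans h
  have hcb : 0 < Real.cos b := Real.cos_pos_of_mem_Ioo ⟨by linarith [Real.pi_pos], hb⟩
  have hl2 : ‖((Real.log 2 : ℝ) : ℂ)‖ = Real.log 2 := by
    rw [Complex.norm_real, Real.norm_eq_abs, abs_of_nonneg (Real.log_nonneg (by norm_num))]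
  rcases le_total 0 v.im with hv | hv
  · have h1 := lc_le h hb
    have h2 : Real.exp (-2 * v.im) ≤ 1 := Real.exp_le_one_iff.2 (by linarith)
    have h3 : 1 / Real.cos b * Real.exp (-2 * v.im) ≤ 1 / Real.cos b :=
      mul_le_of_le_one_right (by positivity) h2
    have e : Complex.log (Complex.cos v) = (Complex.log (Complex.cos v) + Complex.I * v + Real.log 2) -
        Complex.I * v - Real.log 2 := by ring
    rw [e]
    have h4 := norm_sub_le (Complex.log (Complex.cos v) + Complex.I * v + Real.log 2 - Complex.I * v)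
      ((Real.log 2 : ℝ) : ℂ)
    have h5 := norm_sub_le (Complex.log (Complex.cos v) + Complex.I * v + Real.log 2) (Complex.I * v)
    rw [norm_mul, Complex.norm_I, one_mul] at h5
    rw [hl2] at h4
    linarith
  · have h1 := lc_le' h hb
    have h2 : Real.exp (2 * v.im) ≤ 1 := Real.exp_le_one_iff.2 (by linarith)
    have h3 : 1 / Real.cos b * Real.exp (2 * v.im) ≤ 1 / Real.cos b :=
      mul_le_of_le_one_right (by positivity) h2
    have e : Complex.log (Complex.cos v) = (Complex.log (Complex.cos v) - Complex.I * v + Real.log 2) +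
        Complex.I * v - Real.log 2 := by ring
    rw [e]
    have h4 := norm_sub_le (Complex.log (Complex.cos v) - Complex.I * v + Real.log 2 + Complex.I * v)
      ((Real.log 2 : ℝ) : ℂ)
    have h5 := norm_add_le (Complex.log (Complex.cos v) - Complex.I * v + Real.log 2) (Complex.I * v)
    rw [norm_mul, Complex.norm_I, one_mul] at h5
    rw [hl2] at h4
    linarith

lemma BB_lin {ι : Type*} [Fintype ι] {c a : ι → ℂ} {t : ℂ} {b M : ℝ} (hb : b < Real.pi / 2)
    (h : ∀ j, |(4 / 3 : ℝ) * ((a j).re - t.im)| ≤ b) (hM : ∀ j, |(a j).im| ≤ M) (ht : |t.re| ≤ M) :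
    ‖BB (4 / 3 : ℝ) c a t‖ ≤ (∑ j, ‖c j‖) * (4 * (1 + M) + 1 / Real.cos b) := by
  have hp := Real.pi_pos
  have e2 : ‖(Complex.I / (Real.pi : ℂ))‖ ≤ 1 := by
    rw [norm_div, Complex.norm_I, Complex.norm_real, Real.norm_eq_abs, abs_of_pos hp, div_le_one hp]
    linarith [Real.pi_gt_three]
  have e3 : ‖∑ j, c j * Complex.log (Complex.cos (((4 / 3 : ℝ) : ℂ) * (a j + Complex.I * t)))‖ ≤
      ∑ j, ‖c j‖ * (4 * (1 + M) + 1 / Real.cos b) := by
    refine norm_sum_le_of_le _ fun j _ => ?_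
    rw [norm_mul]
    refine mul_le_mul_of_nonneg_left ?_ (norm_nonneg _)
    have h1 := lc_lin (v := ((4 / 3 : ℝ) : ℂ) * (a j + Complex.I * t)) (by rw [arg_re]; exact h j) hb
    refine h1.trans ?_
    have h2 := Complex.norm_le_abs_re_add_abs_im (((4 / 3 : ℝ) : ℂ) * (a j + Complex.I * t))
    rw [arg_re, arg_im] at h2
    have h3 := h j
    have h4 : |(4 / 3 : ℝ) * ((a j).im + t.re)| ≤ 4 / 3 * (M + M) := by
      rw [abs_mul, abs_of_pos (by norm_num : (0:ℝ) < 4 / 3)]
      refine mul_le_mul_of_nonneg_left ?_ (by norm_num)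
      exact (abs_add_le _ _).trans (add_le_add (hM j) ht)
    have h5 : Real.log 2 ≤ 1 := by
      have := Real.log_two_lt_d9
      linarith
    have h6 := Real.pi_lt_d2
    have hM0 : 0 ≤ M := (abs_nonneg _).trans ht
    linarith
  rw [← Finset.sum_mul] at e3
  unfold BB
  rw [norm_mul]
  have h0 : 0 ≤ ‖∑ j, c j * Complex.log (Complex.cos (((4 / 3 : ℝ) : ℂ) * (a j + Complex.I * t)))‖ :=
    norm_nonneg _
  calc _ ≤ 1 * ‖∑ j, c j * Complex.log (Complex.cos (((4 / 3 : ℝ) : ℂ) * (a j + Complex.I * t)))‖ :=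
        mul_le_mul_of_nonneg_right e2 h0
    _ ≤ _ := by rw [one_mul]; exact e3

/-- the constant of the linear bound -/
def Clin (y1 y2 : ℝ) : ℝ := ((∑ j, ‖cP j‖) + ∑ j, ‖cM j‖) * (4 + 1 / Real.cos (bst y1 y2))

theorem be_lin (h : G5 w w') (b : Bool) {y1 y2 : ℝ} (h1 : -(l / 4) < y1) (h2 : y2 < 11 / 4 * l) {t : ℂ}
    (ht1 : y1 ≤ t.im) (ht2 : t.im ≤ y2) : ‖be w w' b t‖ ≤ Clin y1 y2 * (1 + MM w w') := by
  have hc := cos_bst h1 h2 (ht1.trans ht2)
  have hM := MM_nonneg w w'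
  obtain ⟨S, hS⟩ : ∃ S : ℝ, S = (∑ j, ‖cP j‖) + ∑ j, ‖cM j‖ := ⟨_, rfl⟩
  have hS0 : 0 ≤ S := by rw [hS]; positivity
  have hi : 0 ≤ 1 / Real.cos (bst y1 y2) := by positivity
  rcases le_total |t.re| (MM w w') with ht | ht
  · have a1 := BB_lin (c := cP) (bst_lt h1 h2) (fun j => st_le (aP_st h j) ht1 ht2) (aP_im w w') ht
    have a2 := BB_lin (c := cM) (bst_lt h1 h2) (fun j => st_le (aM_st h j) ht1 ht2) (aM_im w w') ht
    refine (half_sum b a1 a2).trans ?_
    unfold Clin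
    rw [← add_mul, ← hS]
    nlinarith [mul_nonneg hS0 (mul_nonneg hi hM)]
  · refine (be_le h b h1 h2 ht1 ht2).trans ?_
    have h3 : Real.exp (8 / 3 * (MM w w' - |t.re|)) ≤ 1 := Real.exp_le_one_iff.2 (by nlinarith)
    unfold Cst Clin
    rw [← hS]
    have h4 : S / Real.cos (bst y1 y2) = S * (1 / Real.cos (bst y1 y2)) := by ring
    rw [h4]
    have h5 : 0 ≤ S * (1 / Real.cos (bst y1 y2)) := mul_nonneg hS0 hi
    nlinarith [mul_nonneg hS0 (mul_nonneg hi hM), mul_nonneg hS0 hM]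

/-! ### the real line -/

lemma sgb_not (b : Bool) : sgb (!b) = -sgb b := by cases b <;> simp [sgb]

lemma be_real (h : Geo w w') (b : Bool) (t : ℝ) : be w w' b t = 1 / 2 * (bP w w' t + sgb b * bM w w' t) := by
  rw [bP_eq h, bM_eq h]
  rfl

lemma be'_real (h : Geo w w') (b : Bool) (t : ℝ) :
    be' w w' b t = 1 / 2 * (bP' w w' t + sgb b * bM' w w' t) := by
  rw [bP'_eq h, bM'_eq h]
  rfl

lemma real_St (t : ℝ) : (t : ℂ) ∈ St := by
  have := l_pos
  constructor
  · rw [Complex.ofReal_im]; linarith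
  · rw [Complex.ofReal_im]; linarith

/-- the plus response on the real line -/
def AP (w w' : ℂ) (t : ℝ) : ℂ := -∫ s, bP' w w' s * (V (t - s) : ℂ)

/-- the minus response on the real line -/
def AM (w w' : ℂ) (t : ℝ) : ℂ := -(∫ s, bM' w w' s * (V (t - s) : ℂ)) -
  2 * ∫ s, bM w w' s * (Pool.Agent.PB.Kg (t - s) : ℂ)

lemma mulV_int {m : ℝ → ℂ} (hm : Integrable m) (hi : Integrable (ift m)) (t : ℝ) :
    Integrable fun s => ift m s * (V (t - s) : ℂ) := by
  have hV : Integrable fun s => (V (t - s) : ℂ) := V_int.comp_sub_left t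
  refine hV.bdd_mul (c := (1 / (2 * Real.pi)) * ∫ k, ‖m k‖) hi.aestronglyMeasurable
    (Eventually.of_forall fun s => ?_)
  unfold ift
  have hp : 0 < 2 * Real.pi := by positivity
  rw [norm_mul, Complex.norm_real, Real.norm_eq_abs, abs_of_pos (by positivity : 0 < 1 / (2 * Real.pi))]
  refine mul_le_mul_of_nonneg_left ?_ (by positivity)
  refine norm_integral_le_of_norm_le hm.norm (Eventually.of_forall fun k => ?_)
  rw [norm_mul, norm_e, mul_one]

theorem rsp_real (h : Geo w w') (b : Bool) (t : ℝ) (hd : ∀ u : ℝ, deriv (be w w' b) u = be' w w' b u) :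
    PB.rsp (be w w') b t = 1 / 2 * (AP w w' t + sgb b * AM w w' t) := by
  have i1 : Integrable fun s => bP' w w' s * (V (t - s) : ℂ) :=
    mulV_int (es_int l3_pos cP_sum (aP_re h)) (bP'_int h) t
  have i2 : Integrable fun s => bM' w w' s * (V (t - s) : ℂ) :=
    mulV_int (es_int l3_pos cM_sum (aM_re h)) (bM'_int h) t
  have e1 : PB.cV (deriv (be w w' b)) t = 1 / 2 * ((∫ s, bP' w w' s * (V (t - s) : ℂ)) +
      sgb b * ∫ s, bM' w w' s * (V (t - s) : ℂ)) := by
    rw [PB.cV_real, ← integral_const_mul (sgb b), ← integral_add i1 (i2.const_mul _), ← integral_const_mul]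
    refine integral_congr_ae (Eventually.of_forall fun s => ?_)
    simp only
    rw [hd, be'_real h]
    ring
  have e2 : PB.cG (fun z => be w w' b z - be w w' (!b) z) t =
      sgb b * ∫ s, bM w w' s * (Pool.Agent.PB.Kg (t - s) : ℂ) := by
    rw [PB.cG_real, ← integral_const_mul]
    refine integral_congr_ae (Eventually.of_forall fun s => ?_)
    simp only
    rw [be_real h, be_real h, sgb_not]
    ring
  unfold PB.rsp AP AM
  rw [e1, e2]
  ring

/-! ### limits -/

lemma th_top (a : ℝ) : Tendsto (fun u : ℝ => Real.sinh (2 * u) / (Real.cosh (2 * u) + a)) atTop (𝓝 1) := by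
  have h1 : Tendsto (fun u : ℝ => Real.exp (-(2 * u))) atTop (𝓝 0) :=
    Real.tendsto_exp_neg_atTop_nhds_zero.comp (tendsto_id.const_mul_atTop two_pos)
  have h2 : ContinuousAt (fun y : ℝ => (1 - y ^ 2) / (1 + y ^ 2 + 2 * a * y)) 0 := by
    refine ContinuousAt.div (by fun_prop) (by fun_prop) (by simp)
  have h3 := h2.tendsto.comp h1
  simp only [ne_eq, OfNat.ofNat_ne_zero, not_false_eq_true, zero_pow, sub_zero, add_zero, mul_zero, div_one] at h3
  refine h3.congr fun u => ?_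
  simp only [Function.comp]
  rw [Real.sinh_eq, Real.cosh_eq]
  have e : Real.exp (2 * u) = (Real.exp (-(2 * u)))⁻¹ := by rw [← Real.exp_neg, neg_neg]
  have hy := Real.exp_pos (-(2 * u))
  rw [e]
  generalize Real.exp (-(2 * u)) = y at hy
  have : (y⁻¹ - y) / 2 / ((y⁻¹ + y) / 2 + a) = (y⁻¹ - y) / (y⁻¹ + y + 2 * a) := by
    have : (y⁻¹ + y) / 2 + a = (y⁻¹ + y + 2 * a) / 2 := by ring
    rw [this]
    rw [div_div_div_cancel_right₀ two_ne_zero]
  rw [this, ← mul_div_mul_left (y⁻¹ - y) (y⁻¹ + y + 2 * a) hy.ne']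
  congr 1
  · field_simp
  · field_simp

lemma Kg_top : Tendsto Pool.Agent.PB.Kg atTop (𝓝 (-2)) := by
  have h1 := ((th_top 1).const_mul 2).sub ((th_top r).const_mul 4)
  have e : (2 * 1 - 4 * 1 : ℝ) = -2 := by norm_num
  rw [e] at h1
  refine h1.congr fun u => ?_
  unfold Pool.Agent.PB.Kg
  ring

lemma Kg_odd (u : ℝ) : Pool.Agent.PB.Kg (-u) = -Pool.Agent.PB.Kg u := by
  unfold Pool.Agent.PB.Kg
  rw [mul_neg, Real.sinh_neg, Real.cosh_neg]
  ring

lemma Kg_bot : Tendsto Pool.Agent.PB.Kg atBot (𝓝 2) := by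
  have h1 := (Kg_top.comp tendsto_neg_atBot_atTop).neg
  rw [neg_neg] at h1
  refine h1.congr fun u => ?_
  simp only [Function.comp]
  rw [Kg_odd, neg_neg]

lemma conv_lim {f : ℝ → ℂ} {K : ℝ → ℝ} {B c : ℝ} {L : Filter ℝ} [L.IsCountablyGenerated]
    (hf : Integrable f) (hK : Continuous K)
    (hB : ∀ u, |K u| ≤ B) (hl : ∀ s : ℝ, Tendsto (fun t => K (t - s)) L (𝓝 c)) :
    Tendsto (fun t => ∫ s, f s * (K (t - s) : ℂ)) L (𝓝 (c * ∫ s, f s)) := by
  rw [← integral_const_mul]
  refine tendsto_integral_filter_of_dominated_convergence (fun s => ‖f s‖ * B) ?_ ?_ (hf.norm.mul_const B) ?_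
  · refine Eventually.of_forall fun t => hf.aestronglyMeasurable.mul ?_
    exact (Complex.continuous_ofReal.comp (hK.comp (by fun_prop))).aestronglyMeasurable
  · refine Eventually.of_forall fun t => Eventually.of_forall fun s => ?_
    rw [norm_mul, Complex.norm_real, Real.norm_eq_abs]
    exact mul_le_mul_of_nonneg_left (hB _) (norm_nonneg _)
  · refine Eventually.of_forall fun s => ?_
    have h1 := (Complex.continuous_ofReal.tendsto c).comp (hl s)
    have h2 := h1.const_mul (f s)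
    rw [mul_comm] at h2
    exact h2

lemma Kg_conv_top {f : ℝ → ℂ} (hf : Integrable f) :
    Tendsto (fun t => ∫ s, f s * (Pool.Agent.PB.Kg (t - s) : ℂ)) atTop (𝓝 (((-2 : ℝ) : ℂ) * ∫ s, f s)) :=
  conv_lim hf Kg_cont Kg_le fun s => Kg_top.comp (tendsto_atTop_add_const_right _ (-s) tendsto_id)

lemma Kg_conv_bot {f : ℝ → ℂ} (hf : Integrable f) :
    Tendsto (fun t => ∫ s, f s * (Pool.Agent.PB.Kg (t - s) : ℂ)) atBot (𝓝 (((2 : ℝ) : ℂ) * ∫ s, f s)) :=
  conv_lim hf Kg_cont Kg_le fun s => Kg_bot.comp (tendsto_atBot_add_const_right _ (-s) tendsto_id)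

lemma AP_lim (h : Geo w w') : Tendsto (AP w w') (cocompact ℝ) (𝓝 0) := convP_lim h

lemma AM_V_lim (h : Geo w w') :
    Tendsto (fun t => -∫ s, bM' w w' s * (V (t - s) : ℂ)) (cocompact ℝ) (𝓝 0) := by
  have hm := es_int l3_pos cM_sum (aM_re h)
  have e : (fun t => -∫ s, bM' w w' s * (V (t - s) : ℂ)) =
      ift (fun k => -(es (3 * l) cM (aM w w') k * (Uh k : ℂ))) := by
    funext t
    unfold bM'
    rw [conv_V hm, ift_neg]
  rw [e]
  exact ift_zero _

lemma AM_top (h : Geo w w') : Tendsto (AM w w') atTop (𝓝 (4 * ∫ s, bM w w' s)) := by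
  have h1 := (AM_V_lim h).mono_left atTop_le_cocompact
  have h2 := h1.sub ((Kg_conv_top (bM_int h)).const_mul 2)
  have e : (0 : ℂ) - 2 * (((-2 : ℝ) : ℂ) * ∫ s, bM w w' s) = 4 * ∫ s, bM w w' s := by push_cast; ring
  rw [e] at h2
  exact h2

lemma AM_bot (h : Geo w w') : Tendsto (AM w w') atBot (𝓝 (-(4 * ∫ s, bM w w' s))) := by
  have h1 := (AM_V_lim h).mono_left atBot_le_cocompact
  have h2 := h1.sub ((Kg_conv_bot (bM_int h)).const_mul 2)
  have e : (0 : ℂ) - 2 * (((2 : ℝ) : ℂ) * ∫ s, bM w w' s) = -(4 * ∫ s, bM w w' s) := by push_cast; ring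
  rw [e] at h2
  exact h2

/-- two functions with the same derivative differ by a constant -/
lemma diff_const {f g : ℝ → ℂ} {d : ℝ → ℂ} (hf : ∀ t, HasDerivAt f (d t) t) (hg : ∀ t, HasDerivAt g (d t) t)
    (s t : ℝ) : f s - g s = f t - g t := by
  have h1 : ∀ t, HasDerivAt (fun t => f t - g t) 0 t := fun t => by
    have := (hf t).sub (hg t)
    rwa [sub_self] at this
  exact is_const_of_deriv_eq_zero (fun t => (h1 t).differentiableAt) (fun t => (h1 t).deriv) s t

theorem AP_eq (h : Geo w w') {D : ℝ → ℂ} (hD : ∀ t : ℝ, HasDerivAt D (dP w w' t) t)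
    (hl : Tendsto D atTop (𝓝 0)) (t : ℝ) : AP w w' t = D t := by
  have h1 : ∀ s, AP w w' s - D s = AP w w' t - D t := fun s => diff_const (convP h) hD s t
  have h2 := ((AP_lim h).mono_left atTop_le_cocompact).sub hl
  have h3 : Tendsto (fun s => AP w w' s - D s) atTop (𝓝 (AP w w' t - D t)) := by
    simp_rw [h1]
    exact tendsto_const_nhds
  have h4 := tendsto_nhds_unique h2 h3
  rw [sub_zero] at h4
  exact sub_eq_zero.1 h4.symm

theorem AM_eq (h : Geo w w') {D : ℝ → ℂ} (hD : ∀ t : ℝ, HasDerivAt D (dM w w' t) t)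
    (hl : Tendsto (fun t => D t + D (-t)) atTop (𝓝 0)) (t : ℝ) : AM w w' t = D t := by
  have h1 : ∀ s, AM w w' s - D s = AM w w' t - D t := fun s => diff_const (convM h) hD s t
  have h2 := (AM_top h).add ((AM_bot h).comp tendsto_neg_atTop_atBot)
  rw [add_neg_cancel] at h2
  have h2' := h2.sub hl
  have h3 : Tendsto (fun s => AM w w' s + (AM w w' ∘ Neg.neg) s - (D s + D (-s))) atTop
      (𝓝 (2 * (AM w w' t - D t))) := by
    have : ∀ s, AM w w' s + (AM w w' ∘ Neg.neg) s - (D s + D (-s)) = 2 * (AM w w' t - D t) := by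
      intro s
      simp only [Function.comp]
      linear_combination h1 s + h1 (-s)
    simp_rw [this]
    exact tendsto_const_nhds
  have h4 := tendsto_nhds_unique h2' h3
  rw [sub_zero] at h4
  have h5 : AM w w' t - D t = 0 := by
    have := h4.symm
    simpa using this
  exact sub_eq_zero.1 h5


/-! ### the strip -/

/-- analytic in the strip with decay in closed substrips -/
structure Dec (f : ℂ → ℂ) : Prop where
  d : ∀ t ∈ St, DifferentiableAt ℂ f t
  b : ∀ y1 y2 : ℝ, -(l / 4) < y1 → y2 < 11 / 4 * l → ∃ A : ℝ, ∀ t : ℂ, y1 ≤ t.im → t.im ≤ y2 →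
    ‖f t‖ ≤ A * Real.exp (-(8 / 3 * |t.re|))

lemma conv_hol {f : ℂ → ℂ} (hf : Dec f) {K : ℝ → ℝ} (hK : Measurable K)
    (hi : Integrable fun u => |K u| * Real.exp (-(8 / 3 * |u|))) {z0 : ℂ} (hz : z0 ∈ St) :
    DifferentiableAt ℂ (fun z => ∫ u : ℝ, f (z - u) * (K u : ℂ)) z0 := by
  obtain ⟨h1, h2⟩ := hz
  obtain ⟨y1, hy1⟩ : ∃ y1 : ℝ, y1 = (z0.im - l / 4) / 2 := ⟨_, rfl⟩
  obtain ⟨y2, hy2⟩ : ∃ y2 : ℝ, y2 = (z0.im + 11 / 4 * l) / 2 := ⟨_, rfl⟩
  have a1 : -(l / 4) < y1 := by rw [hy1]; linarith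
  have a2 : y2 < 11 / 4 * l := by rw [hy2]; linarith
  obtain ⟨A, hA⟩ := hf.b y1 y2 a1 a2
  obtain ⟨R, hR⟩ : ∃ R : ℝ, R = min (z0.im - y1) (y2 - z0.im) := ⟨_, rfl⟩
  have hR0 : 0 < R := by
    rw [hR]
    exact lt_min (by rw [hy1]; linarith) (by rw [hy2]; linarith)
  have hin : ∀ z ∈ Metric.ball z0 R, y1 ≤ z.im ∧ z.im ≤ y2 ∧ |z.re| ≤ |z0.re| + R := by
    intro z hz
    rw [Metric.mem_ball, dist_eq_norm] at hz
    have b1 := (Complex.abs_im_le_norm (z - z0)).trans hz.le
    have b2 := (Complex.abs_re_le_norm (z - z0)).trans hz.le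
    rw [Complex.sub_im] at b1
    rw [Complex.sub_re] at b2
    have b3 := min_le_left (z0.im - y1) (y2 - z0.im)
    have b4 := min_le_right (z0.im - y1) (y2 - z0.im)
    rw [← hR] at b3 b4
    obtain ⟨b5, b6⟩ := abs_le.1 b1
    refine ⟨by linarith, by linarith, ?_⟩
    have := abs_sub_abs_le_abs_sub z.re z0.re
    linarith
  have him : ∀ (z : ℂ) (u : ℝ), (z - u).im = z.im := fun z u => by simp
  have hre : ∀ (z : ℂ) (u : ℝ), (z - u).re = z.re - u := fun z u => by simp
  have hA0 : 0 ≤ A := by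
    have := (norm_nonneg _).trans (hA z0 (by rw [hy1]; linarith) (by rw [hy2]; linarith))
    exact nonneg_of_mul_nonneg_left this (Real.exp_pos _)
  refine NURow.differentiableAt_integral hR0
    (b := fun u => A * Real.exp (8 / 3 * (|z0.re| + R)) * (|K u| * Real.exp (-(8 / 3 * |u|)))) ?_ ?_ ?_
    (hi.const_mul _)
  · intro z hz
    obtain ⟨c1, c2, -⟩ := hin z hz
    refine AEStronglyMeasurable.mul ?_ (Complex.measurable_ofReal.comp hK).aestronglyMeasurable
    refine Continuous.aestronglyMeasurable (continuous_iff_continuousAt.2 fun u => ?_)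
    have : ContinuousAt f (z - u) := (hf.d _ ⟨by rw [him]; linarith, by rw [him]; linarith⟩).continuousAt
    exact ContinuousAt.comp (f := fun u : ℝ => z - u) this (by fun_prop)
  · refine Eventually.of_forall fun u z hz => ?_
    obtain ⟨c1, c2, -⟩ := hin z hz
    have h3 : DifferentiableAt ℂ f (z - u) := hf.d _ ⟨by rw [him]; linarith, by rw [him]; linarith⟩
    have h4 : DifferentiableAt ℂ (fun z : ℂ => z - u) z := by fun_prop
    exact ((h3.comp z h4).mul_const _).differentiableWithinAt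
  · refine Eventually.of_forall fun u z hz => ?_
    obtain ⟨c1, c2, c3⟩ := hin z hz
    have h3 := hA (z - u) (by rw [him]; exact c1) (by rw [him]; exact c2)
    rw [hre] at h3
    have h4 : Real.exp (-(8 / 3 * |z.re - u|)) ≤
        Real.exp (8 / 3 * (|z0.re| + R)) * Real.exp (-(8 / 3 * |u|)) := by
      rw [← Real.exp_add]
      refine Real.exp_le_exp.2 ?_
      have := abs_sub_abs_le_abs_sub u z.re
      rw [abs_sub_comm] at this
      linarith
    rw [norm_mul, Complex.norm_real, Real.norm_eq_abs]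
    calc ‖f (z - u)‖ * |K u| ≤ (A * (Real.exp (8 / 3 * (|z0.re| + R)) * Real.exp (-(8 / 3 * |u|)))) * |K u| :=
          mul_le_mul_of_nonneg_right (h3.trans (mul_le_mul_of_nonneg_left h4 hA0)) (abs_nonneg _)
      _ = _ := by ring

lemma V_intE : Integrable fun u => |V u| * Real.exp (-(8 / 3 * |u|)) := by
  refine V_integral.1.abs.mul_bdd (c := 1) (by fun_prop) (Eventually.of_forall fun u => ?_)
  rw [Real.norm_eq_abs, abs_of_pos (Real.exp_pos _), Real.exp_le_one_iff]
  have := abs_nonneg u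
  linarith

lemma Kg_intE : Integrable fun u => |Pool.Agent.PB.Kg u| * Real.exp (-(8 / 3 * |u|)) := by
  have h1 : Integrable fun u : ℝ => 6 * Real.exp (-(8 / 3) * |u|) := (NUMF.int_exp_abs (by norm_num)).const_mul 6
  refine h1.mono' ?_ (Eventually.of_forall fun u => ?_)
  · exact ((continuous_abs.comp Kg_cont).mul (by fun_prop)).aestronglyMeasurable
  · rw [norm_mul, Real.norm_eq_abs, Real.norm_eq_abs, abs_abs, abs_of_pos (Real.exp_pos _), neg_mul]
    exact mul_le_mul_of_nonneg_right (Kg_le u) (Real.exp_pos _).le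

lemma rsp_hol {β : Bool → ℂ → ℂ} (b : Bool) (h1 : Dec (deriv (β b))) (h2 : Dec fun z => β b z - β (!b) z)
    {z : ℂ} (hz : z ∈ St) : DifferentiableAt ℂ (PB.rsp β b) z := by
  have a1 : DifferentiableAt ℂ (PB.cV (deriv (β b))) z := conv_hol h1 Pool.Agent.PB.V_meas V_intE hz
  have a2 : DifferentiableAt ℂ (PB.cG fun z => β b z - β (!b) z) z := conv_hol h2 Kg_cont.measurable Kg_intE hz
  exact (a1.add a2).neg

lemma exp_split (M x : ℝ) : Real.exp (8 / 3 * (M - |x|)) = Real.exp (8 / 3 * M) * Real.exp (-(8 / 3 * |x|)) := by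
  rw [← Real.exp_add]
  congr 1
  ring

lemma dec_be (h : G5 w w') (b : Bool) : Dec (be w w' b) where
  d t ht := (be_hd h b ht).differentiableAt
  b y1 y2 h1 h2 := ⟨Cst y1 y2 * Real.exp (8 / 3 * MM w w'), fun t ht1 ht2 => by
    have := be_le h b h1 h2 ht1 ht2
    rwa [exp_split, ← mul_assoc] at this⟩

lemma Dec.sub {f g : ℂ → ℂ} (hf : Dec f) (hg : Dec g) : Dec fun z => f z - g z where
  d t ht := (hf.d t ht).sub (hg.d t ht)
  b y1 y2 h1 h2 := by
    obtain ⟨A, hA⟩ := hf.b y1 y2 h1 h2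
    obtain ⟨B, hB⟩ := hg.b y1 y2 h1 h2
    refine ⟨A + B, fun t ht1 ht2 => (norm_sub_le _ _).trans ?_⟩
    rw [add_mul]
    exact add_le_add (hA t ht1 ht2) (hB t ht1 ht2)

lemma dec_dbe (h : G5 w w') (b : Bool) : Dec (deriv (be w w' b)) where
  d t ht := by
    have h1 : DifferentiableOn ℂ (be w w' b) St := fun t ht =>
      (be_hd h b ht).differentiableAt.differentiableWithinAt
    exact ((h1.analyticOnNhd St_open).deriv t ht).differentiableAt
  b y1 y2 h1 h2 := ⟨Cst y1 y2 * Real.exp (8 / 3 * MM w w'), fun t ht1 ht2 => by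
    have := be'_le h b h1 h2 ht1 ht2
    rw [exp_split, ← mul_assoc] at this
    rwa [deriv_be h b ⟨by linarith, by linarith⟩]⟩

lemma sgb_sq (b : Bool) : sgb b * sgb b = 1 := by cases b <;> simp [sgb]

/-- **the field of the two species solves `rsp β = Δ`** in the strip `-l/4 < Im t < 11l/4` -/
theorem rsp_be (h : G5 w w') {Del : Bool → ℂ → ℂ}
    (hD : ∀ b, ∀ t ∈ St, HasDerivAt (Del b) (1 / 2 * (dP w w' t + sgb b * dM w w' t)) t)
    (h1 : Tendsto (fun t : ℝ => Del true t + Del false t) atTop (𝓝 0))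
    (h2 : Tendsto (fun t : ℝ => (Del true t - Del false t) +
      (Del true ((-t : ℝ) : ℂ) - Del false ((-t : ℝ) : ℂ))) atTop (𝓝 0))
    (b : Bool) {t : ℂ} (ht : t ∈ St) : PB.rsp (be w w') b t = Del b t := by
  have hg := h.geo
  have hr : ∀ s : ℝ, PB.rsp (be w w') b s = Del b s := by
    intro s
    have d1 : ∀ t : ℝ, HasDerivAt (fun t : ℝ => Del true t + Del false t) (dP w w' t) t := by
      intro t
      have k1 := ((hD true t (real_St t)).add (hD false t (real_St t))).comp_ofReal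
      refine k1.congr_deriv ?_
      rw [sgb_true, sgb_false]
      ring
    have d2 : ∀ t : ℝ, HasDerivAt (fun t : ℝ => Del true t - Del false t) (dM w w' t) t := by
      intro t
      have k1 := ((hD true t (real_St t)).sub (hD false t (real_St t))).comp_ofReal
      refine k1.congr_deriv ?_
      rw [sgb_true, sgb_false]
      ring
    have e1 := AP_eq hg d1 h1 s
    have e2 := AM_eq hg d2 h2 s
    rw [rsp_real hg b s fun u => deriv_be h b (real_St u), e1, e2]
    cases b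
    · rw [sgb_false]; ring
    · rw [sgb_true]; ring
  have a1 : AnalyticOnNhd ℂ (PB.rsp (be w w') b) St :=
    DifferentiableOn.analyticOnNhd (fun z hz => (rsp_hol b (dec_dbe h b)
      ((dec_be h b).sub (dec_be h (!b))) hz).differentiableWithinAt) St_open
  have a2 : AnalyticOnNhd ℂ (Del b) St :=
    DifferentiableOn.analyticOnNhd (fun z hz => (hD b z hz).differentiableAt.differentiableWithinAt) St_open
  have h0 : ((0 : ℝ) : ℂ) ∈ St := real_St 0
  have hfr : ∃ᶠ z in 𝓝[≠] ((0 : ℝ) : ℂ), PB.rsp (be w w') b z = Del b z := by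
    have t1 : Tendsto (fun x : ℝ => (x : ℂ)) (𝓝[≠] 0) (𝓝[≠] ((0 : ℝ) : ℂ)) := by
      refine tendsto_nhdsWithin_iff.2 ⟨?_, ?_⟩
      · exact (Complex.continuous_ofReal.tendsto 0).mono_left nhdsWithin_le_nhds
      · filter_upwards [self_mem_nhdsWithin] with x hx
        simpa using hx
    exact t1.frequently (Eventually.frequently (Eventually.of_forall hr))
  exact a1.eqOn_of_preconnected_of_frequently_eq a2 St_preconn h0 hfr ht


/-! ### limits at infinity, the mass of the minus field -/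

lemma int_be_sub (h : Geo w w') (b : Bool) :
    ∫ t : ℝ, (be w w' b t - be w w' (!b) t) = sgb b * ∫ t, bM w w' t := by
  rw [← integral_const_mul]
  refine integral_congr_ae (Eventually.of_forall fun t => ?_)
  simp only
  rw [be_real h, be_real h, sgb_not]
  ring

theorem rsp_top (h : G5 w w') (b : Bool) :
    Tendsto (fun t : ℝ => PB.rsp (be w w') b t) atTop (𝓝 (2 * ∫ t : ℝ, (be w w' b t - be w w' (!b) t))) := by
  have hg := h.geo
  have e : (fun t : ℝ => PB.rsp (be w w') b t) = fun t : ℝ => 1 / 2 * (AP w w' t + sgb b * AM w w' t) :=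
    funext fun t => rsp_real hg b t fun u => deriv_be h b (real_St u)
  rw [e, int_be_sub hg]
  have h1 := (((AP_lim hg).mono_left atTop_le_cocompact).add ((AM_top hg).const_mul (sgb b))).const_mul (1 / 2)
  convert h1 using 2
  ring

theorem rsp_bot (h : G5 w w') (b : Bool) :
    Tendsto (fun t : ℝ => PB.rsp (be w w') b t) atBot (𝓝 (-(2 * ∫ t : ℝ, (be w w' b t - be w w' (!b) t)))) := by
  have hg := h.geo
  have e : (fun t : ℝ => PB.rsp (be w w') b t) = fun t : ℝ => 1 / 2 * (AP w w' t + sgb b * AM w w' t) :=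
    funext fun t => rsp_real hg b t fun u => deriv_be h b (real_St u)
  rw [e, int_be_sub hg]
  have h1 := (((AP_lim hg).mono_left atBot_le_cocompact).add ((AM_bot hg).const_mul (sgb b))).const_mul (1 / 2)
  convert h1 using 2
  ring

/-- second order limit of an exponential -/
lemma exp2_lim (a : ℂ) : Tendsto (fun k : ℝ => (Complex.exp (a * k) - 1 - a * k) / (k : ℂ) ^ 2) (𝓝[≠] 0)
    (𝓝 (a ^ 2 / 2)) := by
  have h1 : ∀ᶠ k : ℝ in 𝓝[≠] 0, ‖(Complex.exp (a * k) - 1 - a * k) / (k : ℂ) ^ 2 - a ^ 2 / 2‖ ≤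
      ‖a‖ ^ 3 * |k| := by
    have h2 : ∀ᶠ k : ℝ in 𝓝 0, ‖a * (k : ℂ)‖ < 1 := by
      have : ContinuousAt (fun k : ℝ => ‖a * (k : ℂ)‖) 0 := by fun_prop
      exact this.eventually_lt continuousAt_const (by simp)
    filter_upwards [nhdsWithin_le_nhds h2, self_mem_nhdsWithin] with k hk1 hk2
    have hk0 : (k : ℂ) ≠ 0 := Complex.ofReal_ne_zero.2 hk2
    have h3 := Complex.exp_bound (x := a * k) hk1.le (n := 3) (by norm_num)
    rw [Finset.sum_range_succ, Finset.sum_range_succ, Finset.sum_range_succ, Finset.sum_range_zero] at h3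
    simp only [pow_zero, Nat.factorial, Nat.cast_one, div_one, zero_add, pow_one, Nat.cast_ofNat, Nat.succ_eq_add_one,
      Nat.cast_mul, mul_one, Nat.reduceAdd] at h3
    have e : (Complex.exp (a * k) - 1 - a * k) / (k : ℂ) ^ 2 - a ^ 2 / 2 =
        (Complex.exp (a * k) - (1 + a * k + (a * k) ^ 2 / 2)) / (k : ℂ) ^ 2 := by
      field_simp
      ring
    rw [e, norm_div, norm_pow, Complex.norm_real, Real.norm_eq_abs]
    have hkp : 0 < |k| := abs_pos.2 hk2
    rw [div_le_iff₀ (by positivity)]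
    refine h3.trans ?_
    rw [norm_mul, Complex.norm_real, Real.norm_eq_abs]
    have : (4 : ℝ) * (6 * 3 : ℝ)⁻¹ ≤ 1 := by norm_num
    have h4 : 0 ≤ (‖a‖ * |k|) ^ 3 := by positivity
    calc _ ≤ (‖a‖ * |k|) ^ 3 * 1 := by
          refine mul_le_mul_of_nonneg_left ?_ h4
          norm_num
      _ = _ := by ring
  rw [tendsto_iff_norm_sub_tendsto_zero]
  have h5 : Tendsto (fun k : ℝ => ‖a‖ ^ 3 * |k|) (𝓝[≠] 0) (𝓝 0) := by
    have : ContinuousAt (fun k : ℝ => ‖a‖ ^ 3 * |k|) 0 := by fun_prop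
    have h6 := this.tendsto
    simp only [abs_zero, mul_zero] at h6
    exact h6.mono_left nhdsWithin_le_nhds
  exact squeeze_zero' (Eventually.of_forall fun _ => norm_nonneg _) h1 h5

lemma sinh_lim {α : ℝ} : Tendsto (fun k : ℝ => Real.sinh (α * k) / k) (𝓝[≠] 0) (𝓝 α) := by
  have h1 : HasDerivAt (fun k : ℝ => Real.sinh (α * k)) (Real.cosh (α * 0) * α) 0 := by
    have := ((hasDerivAt_id (0 : ℝ)).const_mul α).sinh
    simpa using this
  rw [mul_zero, Real.cosh_zero, one_mul, hasDerivAt_iff_tendsto_slope] at h1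
  refine h1.congr' ?_
  filter_upwards [self_mem_nhdsWithin] with k _
  rw [slope_def_field]
  simp

lemma es2_lim {ι : Type*} [Fintype ι] {α : ℝ} (hα : 0 < α) {c a : ι → ℂ} (h0 : ∑ j, c j = 0)
    (h1 : ∑ j, c j * a j = 0) :
    Tendsto (es2 α c a) (𝓝[≠] 0) (𝓝 ((∑ j, c j * (a j ^ 2 / 2)) / α)) := by
  have h2 : Tendsto (fun k : ℝ => (∑ j, c j * ((Complex.exp (a j * k) - 1 - a j * k) / (k : ℂ) ^ 2)) /
      ((Real.sinh (α * k) / k : ℝ) : ℂ)) (𝓝[≠] 0) (𝓝 ((∑ j, c j * (a j ^ 2 / 2)) / α)) := by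
    refine Tendsto.div (tendsto_finsetSum _ fun j _ => (exp2_lim (a j)).const_mul (c j)) ?_
      (Complex.ofReal_ne_zero.2 hα.ne')
    exact (Complex.continuous_ofReal.tendsto α).comp sinh_lim
  refine h2.congr' ?_
  filter_upwards [self_mem_nhdsWithin] with k hk
  have hk0 : (k : ℂ) ≠ 0 := Complex.ofReal_ne_zero.2 hk
  rw [es2_eq h0 h1]
  unfold js2
  rw [Finset.sum_div]
  refine Finset.sum_congr rfl fun j _ => ?_
  have hs : ((Real.sinh (α * k) : ℝ) : ℂ) ≠ 0 := by
    refine Complex.ofReal_ne_zero.2 ?_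
    rw [Ne, Real.sinh_eq_zero]
    exact mul_ne_zero hα.ne' hk
  push_cast at hs ⊢
  field_simp

/-- **the mass of `β₋`** -/
theorem int_bM (h : Geo w w') : ∫ t, bM w w' t = Complex.I * (w - w') / 2 := by
  have hi := bM_int h
  have h1 : Tendsto (fun k : ℝ => ∫ t, bM w w' t * Complex.exp ((k * t : ℝ) * Complex.I)) (𝓝[≠] 0)
      (𝓝 (∫ t, bM w w' t)) := by
    have h2 : Tendsto (fun k : ℝ => ∫ t, bM w w' t * Complex.exp ((k * t : ℝ) * Complex.I)) (𝓝 0)
        (𝓝 (∫ t, bM w w' t)) := by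
      refine tendsto_integral_filter_of_dominated_convergence (fun t => ‖bM w w' t‖) ?_ ?_ hi.norm ?_
      · exact Eventually.of_forall fun k => hi.aestronglyMeasurable.mul
          (Continuous.aestronglyMeasurable (by fun_prop))
      · refine Eventually.of_forall fun k => Eventually.of_forall fun t => ?_
        rw [norm_mul, exp_ke, mul_one]
      · refine Eventually.of_forall fun t => ?_
        have : ContinuousAt (fun k : ℝ => bM w w' t * Complex.exp ((k * t : ℝ) * Complex.I)) 0 := by fun_prop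
        have h3 := this.tendsto
        simpa using h3
    exact h2.mono_left nhdsWithin_le_nhds
  have h3 : Tendsto (fun k : ℝ => ∫ t, bM w w' t * Complex.exp ((k * t : ℝ) * Complex.I)) (𝓝[≠] 0)
      (𝓝 (-Complex.I * ((∑ j, cM j * (aM w w' j ^ 2 / 2)) / ((3 * l : ℝ) : ℂ)))) := by
    have h4 := es2_lim l3_pos cM_sum (cM_sum1 w w')
    have h5 : Tendsto (fun k : ℝ => -k) (𝓝[≠] 0) (𝓝[≠] 0) := by
      refine tendsto_nhdsWithin_iff.2 ⟨?_, ?_⟩
      · have := (continuous_neg (G := ℝ)).tendsto 0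
        rw [neg_zero] at this
        exact this.mono_left nhdsWithin_le_nhds
      · filter_upwards [self_mem_nhdsWithin] with k hk
        exact neg_ne_zero.2 hk
    refine ((h4.comp h5).const_mul (-Complex.I)).congr' ?_
    filter_upwards [self_mem_nhdsWithin] with k hk
    rw [bM_ft h hk]
    rfl
  rw [tendsto_nhds_unique h1 h3]
  have hl : (l : ℂ) ≠ 0 := Complex.ofReal_ne_zero.2 l_pos.ne'
  have e : ∑ j, cM j * (aM w w' j ^ 2 / 2) = 3 * l * (w' - w) / 2 := by
    rw [Fin.sum_univ_four]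
    change 1 / 2 * ((4 * l - w) ^ 2 / 2) + -1 / 2 * ((l - w) ^ 2 / 2) +
      -1 / 2 * ((4 * l - w') ^ 2 / 2) + 1 / 2 * ((l - w') ^ 2 / 2) = _
    ring
  rw [e]
  push_cast
  field_simp
  ring

/-! ### `p` and `q` as sums over the species -/

lemma be_int (h : Geo w w') (b : Bool) : Integrable fun t : ℝ => be w w' b t := by
  have h1 := ((bP_int h).add ((bM_int h).const_mul (sgb b))).const_mul (1 / 2 : ℂ)
  exact h1.congr (Eventually.of_forall fun t => (be_real h b t).symm)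

lemma ift_bdd {m : ℝ → ℂ} (hm : Integrable m) (s : ℝ) : ‖ift m s‖ ≤ (1 / (2 * Real.pi)) * ∫ k, ‖m k‖ := by
  unfold ift
  have hp : 0 < 2 * Real.pi := by positivity
  rw [norm_mul, Complex.norm_real, Real.norm_eq_abs, abs_of_pos (by positivity : 0 < 1 / (2 * Real.pi))]
  refine mul_le_mul_of_nonneg_left ?_ (by positivity)
  refine norm_integral_le_of_norm_le hm.norm (Eventually.of_forall fun k => ?_)
  rw [norm_mul, norm_e, mul_one]

lemma mul_ift_int {f m : ℝ → ℂ} (hf : Integrable f) (hm : Integrable m) : Integrable fun t => f t * ift m t := by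
  have hc : Continuous (ift m) := by
    unfold ift
    refine continuous_const.mul ?_
    refine continuous_of_dominated (bound := fun k => ‖m k‖) ?_ ?_ hm.norm ?_
    · exact fun t => (mul_e_int hm t).aestronglyMeasurable
    · refine fun t => Eventually.of_forall fun k => ?_
      rw [norm_mul, norm_e, mul_one]
    · exact Eventually.of_forall fun k => by fun_prop
  exact hf.mul_bdd (c := (1 / (2 * Real.pi)) * ∫ k, ‖m k‖) hc.aestronglyMeasurable
    (Eventually.of_forall fun t => ift_bdd hm t)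

lemma mul_dP_int (h : Geo w w') {f : ℝ → ℂ} (hf : Integrable f) : Integrable fun t : ℝ => f t * dP w w' t := by
  refine (mul_ift_int hf ((dPs_int h).const_mul (Complex.I * Real.pi))).congr
    (Eventually.of_forall fun t => ?_)
  simp only
  rw [(dPs_IF h t).2]

lemma mul_dM_int (h : Geo w w') {f : ℝ → ℂ} (hf : Integrable f) : Integrable fun t : ℝ => f t * dM w w' t := by
  refine (mul_ift_int hf ((dMs_int h).const_mul (Complex.I * Real.pi))).congr
    (Eventually.of_forall fun t => ?_)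
  simp only
  rw [(dMs_IF h t).2]

lemma mul_eT_int (h : Geo w w') {f : ℝ → ℂ} (hf : Integrable f) :
    Integrable fun t : ℝ => f t * eT (zz w w') t := by
  refine (mul_ift_int hf ((prz_int h).const_mul (Complex.I * Real.pi))).congr
    (Eventually.of_forall fun t => ?_)
  simp only
  rw [← eT_ift h]

theorem pI_sum (h : Geo w w') : pI w w' = ∑ b, ∫ t : ℝ, be w w' b t * eT (zz w w') t := by
  have i1 := mul_eT_int h (be_int h true)
  have i2 := mul_eT_int h (be_int h false)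
  rw [Fintype.sum_bool, ← integral_add i1 i2]
  unfold pI
  refine integral_congr_ae (Eventually.of_forall fun t => ?_)
  simp only
  rw [be_real h, be_real h, sgb_true, sgb_false]
  ring

theorem qI_sum (h : Geo w w') :
    qI w w' = ∑ b, ∫ t : ℝ, be w w' b t * (1 / 2 * (dP w w' t + sgb b * dM w w' t)) := by
  have j1 := mul_dP_int h (bP_int h)
  have j2 := mul_dM_int h (bM_int h)
  have i1 : ∀ b, Integrable fun t : ℝ => be w w' b t * (1 / 2 * (dP w w' t + sgb b * dM w w' t)) := by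
    intro b
    refine (((mul_dP_int h (be_int h b)).add ((mul_dM_int h (be_int h b)).const_mul (sgb b))).const_mul
      (1 / 2)).congr (Eventually.of_forall fun t => ?_)
    simp only [Pi.add_apply]
    ring
  rw [Fintype.sum_bool, ← integral_add (i1 true) (i1 false)]
  unfold qI
  rw [← integral_add j1 j2, ← integral_const_mul]
  refine integral_congr_ae (Eventually.of_forall fun t => ?_)
  simp only
  rw [be_real h, be_real h, sgb_true, sgb_false]
  ring


end

end PBT3
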