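import Pool.Agent.PB.TRsC
import Pool.Agent.PB.TrGR
import Pool.Agent.PB.TrG6
import Pool.Agent.PB.TRsum

/-!
# Plan B, (TR), (H3): the path theorem with the literal kernel, linear and quadratic term

* `pI_wt`, `gI_wt`: `pI (wt τ₁) (wt τ₂) = pF τ`, `pI + qI / 2 = gF τ`;
* **`h3T`**: from the derivative (hF), the derivative formula with error (hE), the log convex mass (hm), and
  the mass at the two ends (h0), (h1): `‖k1T τ‖ ‖F 1 - exp (gF τ) F 0‖ ≤ k^(-c1)` on the near set, every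
  `c1 + 3 e < 3/4`.
-/

set_option autoImplicit false

noncomputable section

open Filter Set Complex

namespace PBTs

open PBT3 (wt zt gF pF k1T pI qI G5 zz)

theorem g5_wt (τ : ℝ × ℝ) : G5 (wt τ.1) (wt τ.2) := ⟨PBT3.wt_re _, PBT3.wt_re _⟩

theorem pI_wt (τ : ℝ × ℝ) : pI (wt τ.1) (wt τ.2) = pF τ := PBT3.pI_eq (g5_wt τ).geo

theorem gI_wt (τ : ℝ × ℝ) : pI (wt τ.1) (wt τ.2) + qI (wt τ.1) (wt τ.2) / 2 = gF τ := by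
  have h := PBT3.gI_eq (g5_wt τ).geo
  have e : gF τ = pI (wt τ.1) (wt τ.2) + 1 / 2 * qI (wt τ.1) (wt τ.2) := h.symm
  rw [e]
  ring

/-- **(H3), the path theorem for the literal kernel and exponent** -/
theorem h3T {F F' : ℕ → ℝ × ℝ → ℝ → ℂ} {m : ℕ → ℝ × ℝ → ℝ → ℝ} {d c1 e : ℝ}
    (hd : d ≤ 1 / 10) (he : 0 ≤ e) (hc1 : c1 + 3 * e < 3 / 4)
    (hF : ∀ᶠ k : ℕ in atTop, ∀ τ ∈ PBTR.nearS (3 / 8 + d) k,
      ∀ s ∈ Icc (0 : ℝ) 1, HasDerivAt (F k τ) (F' k τ s) s)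
    (hE : ∀ᶠ k : ℕ in atTop, ∀ τ ∈ PBTR.nearS (3 / 8 + d) k,
      ∀ s ∈ Icc (0 : ℝ) 1,
        ‖F' k τ s - (s * qI (wt τ.1) (wt τ.2) + pI (wt τ.1) (wt τ.2)) * F k τ s‖ ≤
          (k : ℝ) ^ e * Er k (max |τ.1| |τ.2|) * m k τ s)
    (hm : ∀ᶠ k : ℕ in atTop, ∀ τ ∈ PBTR.nearS (3 / 8 + d) k,
      ∀ s ∈ Icc (0 : ℝ) 1, 0 ≤ m k τ s ∧ m k τ s ≤ (m k τ 0) ^ (1 - s) * (m k τ 1) ^ s)
    (h0 : ∀ᶠ k : ℕ in atTop, ∀ τ ∈ PBTR.nearS (3 / 8 + d) k,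
      m k τ 0 ≤ (k : ℝ) ^ e * Real.exp |τ.1 + τ.2|)
    (h1 : ∀ᶠ k : ℕ in atTop, ∀ τ ∈ PBTR.nearS (3 / 8 + d) k,
      ‖k1T τ‖ * m k τ 1 ≤ (k : ℝ) ^ e * Real.exp (-PBTR.mT τ)) :
    ∀ᶠ k : ℕ in atTop, ∀ τ ∈ PBTR.nearS (3 / 8 + d) k,
      ‖k1T τ‖ * ‖F k τ 1 - Complex.exp (gF τ) * F k τ 0‖ ≤ (k : ℝ) ^ (-c1) := by
  obtain ⟨A, hA, hk⟩ := PBT3.k1T_le
  obtain ⟨Cg, hCg, hg⟩ := PBT3.gF_re
  obtain ⟨Cp, hCp, hp⟩ := PBT3.pF_re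
  have key := h3m (k1 := k1T) (F := F) (F' := F') (p := fun τ => pI (wt τ.1) (wt τ.2))
    (q := fun τ => qI (wt τ.1) (wt τ.2)) (m := m) (A := A) (C := Cg + Cp) (d := d) (c1 := c1) (e := e)
    hd he hc1 hk
    (fun t => by
      show (pI (wt t.1) (wt t.2) + qI (wt t.1) (wt t.2) / 2).re ≤ _
      rw [gI_wt]
      have h1 := (abs_le.1 (hg t)).2
      linarith)
    (fun t => by
      show _ ≤ (pI (wt t.1) (wt t.2)).re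
      rw [pI_wt]
      have h1 := (abs_le.1 (hp t)).1
      linarith)
    hF hE hm h0 h1
  filter_upwards [key] with k hk' τ hτ
  have h := hk' τ hτ
  have e1 : pI (wt τ.1) (wt τ.2) + qI (wt τ.1) (wt τ.2) / 2 = gF τ := gI_wt τ
  simp only [e1] at h
  exact h

end PBTs
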