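import Pool.Agent.PB.TRsV
import Pool.Agent.PB.TRsG0
import Pool.Agent.PB.TRsGE
import Pool.Agent.PB.TRsH

/-!
# Plan B, (TR), s-path: the error of the mean statement, pointwise (G1), (G2)

Literal data of `PB/TRsV`.

* `Fv`: the force `lg + s (i D1) + ko`; `Fv_fac`: analytic, `≤ C (r + 1)` on `|Im z| < ep / 8`;
* **`G2`**: `E + X F` in the class `BC`;
* **`G1`**: `stO + ∑ b ∫ ρ X F - s q - p` is at most
  `C (1 + M)² e^{2 M} ∑ i, e^{-2 |ht (O i)|} + C Sz (1 + log k) (r + 1)`.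
-/

set_option autoImplicit false
set_option linter.unusedSectionVars false

noncomputable section

open Complex MeasureTheory Set Filter

namespace PBTV.GG

open NUO NUP1 NUP1S NUP1S.Ab NUGC PBU PBTs
open PBF (fMH LPo stO expZ)

variable [NUSea.Sea] {r : ℕ}

theorem g5v (τ : ℝ × ℝ) : PBT3.G5 (wa τ) (wb τ) := PBTs.g5_wt τ

theorem MM_v (τ : ℝ × ℝ) : PBT3.MM (wa τ) (wb τ) = Mv τ := by
  unfold PBT3.MM wa wb Mv
  rw [PBT3.wt_im, PBT3.wt_im]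

theorem zz_v (τ : ℝ × ℝ) : PBT3.zz (wa τ) (wb τ) = PBT3.zt τ := rfl

/-- the force -/
def Fv (ep : ℝ) (k : ℕ) (τ : ℝ × ℝ) (s : ℝ) (r : ℕ) (O : Fin r → Xo) (b : Bool) (z : ℂ) : ℂ :=
  lgv ep k τ b z + s * (I * D1v τ b (NUP1.l + I * z)) + kov k r O b z

theorem fMH_Fv (ep : ℝ) (k : ℕ) (τ : ℝ × ℝ) (s : ℝ) (r : ℕ) (O : Fin r → Xo) (b : Bool) (z : ℂ) :
    fMH s (Xv k τ) (D1v τ) (lgv ep k τ) (kov k) r O b z =
      Xv k τ b z * Fv ep k τ s r O b z := rfl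

theorem ep_l {ep : ℝ} (h1 : ep ≤ 1 / 100) : ep / 8 < NUP1.l / 20 := by
  have := Real.pi_gt_three
  unfold NUP1.l
  linarith

/-- the force of the objects -/
theorem kov_fac (k : ℕ) (O : Fin r → Xo) (b : Bool) {z : ℂ} (hz : |z.im| < NUP1.l / 20) :
    kov k r O b z = I * PBOR.kP (NUSea.O.par0 k) O b (NUP1.l + I * z) ∧
    DifferentiableAt ℂ (kov k r O b) z ∧ ‖kov k r O b z‖ ≤ r * (PBOR.CO + 4) := by
  have hl := Bd.l_pos
  have hP := PBOR.PO_par0 k O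
  have e : ∀ y : ℂ, |y.im| < NUP1.l / 20 →
      kov k r O b y = I * PBOR.kP (NUSea.O.par0 k) O b (NUP1.l + I * y) := by
    intro y hy
    obtain ⟨h1, h2⟩ := u_Ks hy
    unfold kov LPv
    rw [LPo_eq (PBX.ParC_par0 k) hP b h2 h1]
  obtain ⟨h1, h2⟩ := u_Ks hz
  refine ⟨e z hz, ?_, ?_⟩
  · have h3 : HasDerivAt (fun w : ℂ => (NUP1.l : ℂ) + I * w) I z := by
      simpa using ((hasDerivAt_id z).const_mul I).const_add (NUP1.l : ℂ)
    have h4 := ((PBOR.hasDerivAt_kP hP b h2).comp z h3).differentiableAt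
    refine (h4.const_mul I).congr_of_eventuallyEq ?_
    exact (ev_strip hz).mono fun y hy => e y hy
  · rw [e z hz, norm_mul, norm_I, one_mul]
    exact PBOR.kP_le hP b h2

/-- the parts of the force -/
theorem parts_fac {ep : ℝ} (h0 : 0 < ep) (h1 : ep ≤ 1 / 100) : ∃ C : ℝ, 1 ≤ C ∧
    ∀ (k : ℕ) (τ : ℝ × ℝ) (b : Bool) (z : ℂ), |z.im| < ep / 8 →
    (DifferentiableAt ℂ (fun z => PBEI.h00 (z - PBQ1.hr (PBT3.zt τ))) z ∧
      ‖PBEI.h00 (z - PBQ1.hr (PBT3.zt τ))‖ ≤ C) ∧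
    (DifferentiableAt ℂ (PBLZ.cutI (4 / 3 * (1 - ep)) (LX (k - 1))) z ∧
      ‖PBLZ.cutI (4 / 3 * (1 - ep)) (LX (k - 1)) z‖ ≤ C) ∧
    (I * D1v τ b (NUP1.l + I * z) = deriv (PBT3.Dl (wa τ) (wb τ) b) z ∧
      DifferentiableAt ℂ (fun z => I * D1v τ b (NUP1.l + I * z)) z ∧
      ‖I * D1v τ b (NUP1.l + I * z)‖ ≤ C) := by
  have hl := Bd.l_pos
  have hep := ep_l h1
  obtain ⟨C1, hC1, H1⟩ := h00_fac
  obtain ⟨C3, hC3, H3⟩ := D1_fac
  have hK := PBLZ.KL_pos (adm_ep h0 h1)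
  obtain ⟨C2, hC2⟩ : ∃ C2, C2 = PBLZ.KL (4 / 3 * (1 - ep)) (3 * NUP1.l / 2 + ep / 2) := ⟨_, rfl⟩
  rw [← hC2] at hK
  refine ⟨C1 + C2 + C3 + 1, by linarith, fun k τ b z hz => ?_⟩
  have hz' : |z.im| < NUP1.l / 20 := hz.trans hep
  have a1 := H1 (wa τ) (wb τ) (g5v τ) z hz'
  have a2 := cut_fac h0 h1 (k - 1) (z := z) (by linarith)
  have a3 := H3 (wa τ) (wb τ) (g5v τ) b z hz'
  rw [← hC2] at a2
  refine ⟨⟨a1.1, a1.2.trans (by linarith)⟩, ⟨a2.1, a2.2.trans (by linarith)⟩, a3.1, ?_, ?_⟩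
  · refine (Dl_deriv_diff (g5v τ) b hz').congr_of_eventuallyEq ?_
    exact (ev_strip hz').mono fun y hy => (H3 (wa τ) (wb τ) (g5v τ) b y hy).1
  · rw [norm_mul, norm_I, one_mul]
    exact a3.2.trans (by linarith)

theorem lgv_eq (ep : ℝ) (k : ℕ) (τ : ℝ × ℝ) (b : Bool) (z : ℂ) : lgv ep k τ b z =
    PBEI.h00 (z - PBQ1.hr (PBT3.zt τ)) + PBLZ.cutI (4 / 3 * (1 - ep)) (LX (k - 1)) z := rfl

/-- **the force**: analytic and bounded -/
theorem Fv_fac {ep : ℝ} (h0 : 0 < ep) (h1 : ep ≤ 1 / 100) : ∃ C : ℝ, 1 ≤ C ∧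
    ∀ (k : ℕ) (τ : ℝ × ℝ) (s : ℝ), s ∈ Icc (0 : ℝ) 1 → ∀ (r : ℕ) (O : Fin r → Xo) (b : Bool) (z : ℂ),
    |z.im| < ep / 8 → DifferentiableAt ℂ (Fv ep k τ s r O b) z ∧
      ‖Fv ep k τ s r O b z‖ ≤ C * (r + 1) := by
  have hl := Bd.l_pos
  have hep := ep_l h1
  obtain ⟨C, hC, H⟩ := parts_fac h0 h1
  have hCO := PBOR.CO_pos
  refine ⟨3 * C + (PBOR.CO + 4), by linarith, fun k τ s hs r O b z hz => ?_⟩
  have hz' : |z.im| < NUP1.l / 20 := hz.trans hep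
  obtain ⟨⟨d1, b1⟩, ⟨d2, b2⟩, -, d3, b3⟩ := H k τ b z hz
  obtain ⟨-, d4, b4⟩ := kov_fac k O b hz'
  constructor
  · exact ((d1.add d2).add (d3.const_mul (s : ℂ))).add d4
  · have hs' : ‖(s : ℂ) * (I * D1v τ b (NUP1.l + I * z))‖ ≤ C := by
      rw [norm_mul, norm_real, Real.norm_of_nonneg hs.1]
      calc s * ‖I * D1v τ b (NUP1.l + I * z)‖ ≤ 1 * C :=
            mul_le_mul hs.2 b3 (norm_nonneg _) zero_le_one
        _ = C := one_mul _
    have hr : (0 : ℝ) ≤ r := Nat.cast_nonneg r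
    unfold Fv
    rw [lgv_eq]
    have n1 := norm_add_le (PBEI.h00 (z - PBQ1.hr (PBT3.zt τ)) +
      PBLZ.cutI (4 / 3 * (1 - ep)) (LX (k - 1)) z + s * (I * D1v τ b (NUP1.l + I * z)))
      (kov k r O b z)
    have n2 := norm_add_le (PBEI.h00 (z - PBQ1.hr (PBT3.zt τ)) +
      PBLZ.cutI (4 / 3 * (1 - ep)) (LX (k - 1)) z) (s * (I * D1v τ b (NUP1.l + I * z)))
    have n3 := norm_add_le (PBEI.h00 (z - PBQ1.hr (PBT3.zt τ)))
      (PBLZ.cutI (4 / 3 * (1 - ep)) (LX (k - 1)) z)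
    nlinarith

theorem Szv_nonneg (k : ℕ) (τ : ℝ × ℝ) : 0 ≤ Szv k τ := by
  unfold Szv
  positivity

/-- the field -/
theorem Xv_fac : ∃ C : ℝ, 1 ≤ C ∧ ∀ k : ℕ, 2 ≤ k → ∀ (τ : ℝ × ℝ) (b : Bool) (z : ℂ),
    |z.im| < NUP1.l / 5 → DifferentiableAt ℂ (Xv k τ b) z ∧
    ‖Xv k τ b z‖ ≤ C * Szv k τ * mn (33 / 8 * Real.log k) z.re := by
  obtain ⟨C, hC, H⟩ := X_fac
  refine ⟨C, hC, fun k hk τ b z hz => ?_⟩
  have h := H k hk (wa τ) (wb τ) (g5v τ) b z hz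
  rw [MM_v] at h
  exact h

/-- **(G2)**: the test function of the error -/
theorem G2 {ep : ℝ} (h0 : 0 < ep) (h1 : ep ≤ 1 / 100) : ∃ C : ℝ, 1 ≤ C ∧ ∃ k0 : ℕ,
    ∀ k : ℕ, k0 ≤ k → ∀ (τ : ℝ × ℝ) (s : ℝ), s ∈ Icc (0 : ℝ) 1 → ∀ (r : ℕ) (O : Fin r → Xo)
    (b : Bool), BC (-(ep / 8)) (ep / 8) (C * Szv k τ * (1 + Real.log k) * (r + 1))
      (fun z => Ev k τ b z + fMH s (Xv k τ) (D1v τ) (lgv ep k τ) (kov k) r O b z) := by
  have hl := Bd.l_pos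
  have hep := ep_l h1
  obtain ⟨C1, hC1, k1, H1⟩ := E_bd
  obtain ⟨C2, hC2, H2⟩ := Fv_fac h0 h1
  obtain ⟨C3, hC3, H3⟩ := Xv_fac
  refine ⟨C1 + C2 * C3, by nlinarith, max k1 2, fun k hk τ s hs r O b => ?_⟩
  have hk1 : k1 ≤ k := (le_max_left _ _).trans hk
  have hk2 : 2 ≤ k := (le_max_right _ _).trans hk
  have hlog : 0 ≤ Real.log k := Real.log_nonneg (by exact_mod_cast (by omega : 1 ≤ k))
  have hS := Szv_nonneg k τ
  have hr : (0 : ℝ) ≤ r := Nat.cast_nonneg r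
  obtain ⟨e1, e2⟩ := H1 k hk1 (wa τ) (wb τ) (g5v τ) b
  rw [MM_v] at e2
  have hin : ∀ z ∈ PBE.Sp (-(ep / 8)) (ep / 8), |z.im| < ep / 8 := fun z hz => abs_lt.2 hz
  refine ⟨fun z hz => ?_, fun z hz => ?_⟩
  · have hz1 := hin z hz
    have d1 : DifferentiableAt ℂ (Ev k τ b) z := e1 z (by
      show |z.im| < NUP1.l / 10
      linarith)
    have d2 := (H3 k hk2 τ b z (by linarith)).1
    have d3 := (H2 k τ s hs r O b z hz1).1
    exact (d1.add (d2.mul d3)).differentiableWithinAt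
  · have hz1 := hin z hz
    have b1 : ‖Ev k τ b z‖ ≤ C1 * Szv k τ * (1 + Real.log k) := e2 z (by
      show |z.im| < NUP1.l / 10
      linarith)
    have b2 := (H3 k hk2 τ b z (by linarith)).2
    have b3 := (H2 k τ s hs r O b z hz1).2
    have b4 : ‖Xv k τ b z‖ ≤ C3 * Szv k τ :=
      b2.trans (mul_le_of_le_one_right (by positivity) (mn_le_one _ _))
    rw [fMH_Fv]
    refine (norm_add_le _ _).trans ?_
    rw [norm_mul]
    have b5 : ‖Xv k τ b z‖ * ‖Fv ep k τ s r O b z‖ ≤ C3 * Szv k τ * (C2 * (r + 1)) :=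
      mul_le_mul b4 b3 (norm_nonneg _) (by positivity)
    have p1 : C1 * Szv k τ * (1 + Real.log k) ≤ C1 * Szv k τ * (1 + Real.log k) * (r + 1) :=
      le_mul_of_one_le_right (by positivity) (by linarith)
    have p2 : C3 * Szv k τ * (C2 * (r + 1)) ≤ C2 * C3 * Szv k τ * (1 + Real.log k) * (r + 1) := by
      have p3 : 0 ≤ C2 * C3 * Szv k τ * (r + 1) := by positivity
      nlinarith [mul_nonneg p3 hlog]
    calc _ ≤ C1 * Szv k τ * (1 + Real.log k) * (r + 1) +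
          C2 * C3 * Szv k τ * (1 + Real.log k) * (r + 1) := by linarith
      _ = _ := by ring

/-- continuity on the line -/
theorem cont_line {f : ℂ → ℂ} {c : ℝ} (hc : 0 < c) (h : ∀ z : ℂ, |z.im| < c → DifferentiableAt ℂ f z) :
    Continuous fun t : ℝ => f t := by
  refine continuous_iff_continuousAt.2 fun t => ?_
  have h1 := (h (t : ℂ) (by rw [ofReal_im, abs_zero]; exact hc)).continuousAt
  exact ContinuousAt.comp (f := fun t : ℝ => (t : ℂ)) h1 Complex.continuous_ofReal.continuousAt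

/-- **(G1)**: the constant of the error -/
theorem G1 {ep : ℝ} (h0 : 0 < ep) (h1 : ep ≤ 1 / 100) : ∃ C : ℝ, 1 ≤ C ∧ ∃ k0 : ℕ,
    ∀ k : ℕ, k0 ≤ k → ∀ (τ : ℝ × ℝ) (s : ℝ), s ∈ Icc (0 : ℝ) 1 → ∀ (r : ℕ) (O : Fin r → Xo),
    ‖stO (Dv τ) (NUSea.O.par0 k) O +
        ∑ b, (∫ t : ℝ, rv k t * fMH s (Xv k τ) (D1v τ) (lgv ep k τ) (kov k) r O b t) -
        s * PBT3.qI (wa τ) (wb τ) - PBT3.pI (wa τ) (wb τ)‖ ≤
      C * (1 + Mv τ) ^ 2 * Real.exp (2 * Mv τ) * ∑ i, Real.exp (-(2 * |ht (O i)|)) +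
        C * Szv k τ * (1 + Real.log k) * (r + 1) := by
  have hl := Bd.l_pos
  have hep := ep_l h1
  have hep0 : 0 < ep / 8 := by positivity
  obtain ⟨C1, hC1, H1⟩ := resp_DT
  obtain ⟨C2, hC2, H2⟩ := Fv_fac h0 h1
  obtain ⟨C3, hC3, H3⟩ := Xv_fac
  obtain ⟨C4, hC4, H4⟩ := cut_mass h0 h1
  obtain ⟨C5, hC5, H5⟩ := parts_fac h0 h1
  obtain ⟨C6, hC6, H6⟩ := be_st5
  have hCO := PBOR.CO_pos
  refine ⟨C1 + 2 * C6 * C4 + 60 * C3 * C2, by
    have : 0 ≤ 2 * C6 * C4 := by positivity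
    nlinarith, 2, fun k hk τ s hs r O => ?_⟩
  have hk0 : (0 : ℝ) < k := by
    have : 0 < k := by omega
    exact_mod_cast this
  have hlog : 0 ≤ Real.log k := Real.log_nonneg (by exact_mod_cast (by omega : 1 ≤ k))
  have hS := Szv_nonneg k τ
  have hM0 : 0 ≤ Mv τ := (abs_nonneg _).trans (le_max_left _ _)
  have hr : (0 : ℝ) ≤ r := Nat.cast_nonneg r
  have hG := g5v τ
  have hg := hG.geo
  have hP := PBOR.PO_par0 k O
  have hn : 0 ≤ nk k := Nat.cast_nonneg _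
  have hq : 0 < qk k := by
    unfold qk
    positivity
  have hq1 : qk k ≤ 1 := by
    unfold qk
    refine inv_le_one_of_one_le₀ (one_le_pow₀ ?_)
    exact_mod_cast (by omega : 1 ≤ k)
  -- the functions on the line
  have re0 : ∀ t : ℝ, |((t : ℂ)).im| < ep / 8 := fun t => by
    rw [ofReal_im, abs_zero]
    exact hep0
  have re1 : ∀ t : ℝ, |((t : ℂ)).im| < NUP1.l / 20 := fun t => (re0 t).trans hep
  have re2 : ∀ t : ℝ, |((t : ℂ)).im| < NUP1.l / 5 := fun t => (re1 t).trans (by linarith)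
  have ib : ∀ b, Integrable fun t : ℝ => PBT3.be (wa τ) (wb τ) b t := fun b => PBT3.be_int hg b
  have jb : ∀ (b : Bool) (a : ℂ → ℂ) (K : ℝ), (∀ z : ℂ, |z.im| < ep / 8 → DifferentiableAt ℂ a z) →
      (∀ t : ℝ, ‖a t‖ ≤ K) → Integrable fun t : ℝ => PBT3.be (wa τ) (wb τ) b t * a t := by
    intro b a K ha hK
    exact (ib b).mul_bdd (c := K) (cont_line hep0 ha).aestronglyMeasurable
      (Eventually.of_forall hK)
  -- the field on the line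
  obtain ⟨L, hL⟩ : ∃ L, L = 33 / 8 * Real.log k := ⟨_, rfl⟩
  have hL0 : 0 ≤ L := by rw [hL]; positivity
  have hmn : Integrable (fun t : ℝ => mn L t) ∧ ∫ t : ℝ, mn L t ≤ 2 * Real.exp 1 * (1 + L) := by
    have h1 := int_mn hL0 0
    have e : (fun u : ℝ => mn L (0 - u)) = fun u : ℝ => mn L u := by
      funext u
      unfold mn
      rw [zero_sub, abs_neg]
    rwa [e] at h1
  have hXb : ∀ b (t : ℝ), ‖Xv k τ b t‖ ≤ C3 * Szv k τ * mn L t := by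
    intro b t
    have h := (H3 k hk τ b t (re2 t)).2
    rw [ofReal_re, ← hL] at h
    exact h
  have hXc : ∀ b, Continuous fun t : ℝ => Xv k τ b t := fun b =>
    cont_line (c := NUP1.l / 5) (by positivity) fun z hz => (H3 k hk τ b z hz).1
  have hXi : ∀ b, Integrable fun t : ℝ => Xv k τ b t := fun b =>
    (hmn.1.const_mul (C3 * Szv k τ)).mono' (hXc b).aestronglyMeasurable
      (Eventually.of_forall (hXb b))
  have hFc : ∀ b, Continuous fun t : ℝ => Fv ep k τ s r O b t := fun b =>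
    cont_line hep0 fun z hz => (H2 k τ s hs r O b z hz).1
  have hFb : ∀ b (t : ℝ), ‖Fv ep k τ s r O b t‖ ≤ C2 * (r + 1) := fun b t =>
    (H2 k τ s hs r O b t (re0 t)).2
  -- the splitting
  have split : ∀ b, ∫ t : ℝ, rv k t * fMH s (Xv k τ) (D1v τ) (lgv ep k τ) (kov k) r O b t =
      (∫ t : ℝ, PBT3.be (wa τ) (wb τ) b t * PBEI.h00 (t - PBQ1.hr (PBT3.zt τ))) +
      (∫ t : ℝ, PBT3.be (wa τ) (wb τ) b t * PBLZ.cutI (4 / 3 * (1 - ep)) (LX (k - 1)) t) +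
      s * (∫ t : ℝ, PBT3.be (wa τ) (wb τ) b t * deriv (PBT3.Dl (wa τ) (wb τ) b) t) +
      (∫ t : ℝ, PBT3.be (wa τ) (wb τ) b t *
        (I * PBOR.kP (NUSea.O.par0 k) O b (NUP1.l + I * t))) -
      qk k * ∫ t : ℝ, Xv k τ b t * Fv ep k τ s r O b t := by
    intro b
    have i1 := jb b (fun z => PBEI.h00 (z - PBQ1.hr (PBT3.zt τ))) C5
      (fun z hz => (H5 k τ b z hz).1.1) fun t => (H5 k τ b t (re0 t)).1.2
    have i2 := jb b (PBLZ.cutI (4 / 3 * (1 - ep)) (LX (k - 1))) C5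
      (fun z hz => (H5 k τ b z hz).2.1.1) fun t => (H5 k τ b t (re0 t)).2.1.2
    have i3 := jb b (fun z => I * D1v τ b (NUP1.l + I * z)) C5
      (fun z hz => (H5 k τ b z hz).2.2.2.1) fun t => (H5 k τ b t (re0 t)).2.2.2.2
    have i4 := jb b (kov k r O b) (r * (PBOR.CO + 4))
      (fun z hz => (kov_fac k O b (hz.trans hep)).2.1) fun t => (kov_fac k O b (re1 t)).2.2
    have i5 : Integrable fun t : ℝ => Xv k τ b t * Fv ep k τ s r O b t :=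
      (hXi b).mul_bdd (hFc b).aestronglyMeasurable (Eventually.of_forall (hFb b))
    have e1 : ∀ t : ℝ, rv k t * fMH s (Xv k τ) (D1v τ) (lgv ep k τ) (kov k) r O b t =
        (PBT3.be (wa τ) (wb τ) b t * PBEI.h00 (t - PBQ1.hr (PBT3.zt τ)) +
        PBT3.be (wa τ) (wb τ) b t * PBLZ.cutI (4 / 3 * (1 - ep)) (LX (k - 1)) t +
        s * (PBT3.be (wa τ) (wb τ) b t * (I * D1v τ b (NUP1.l + I * t))) +
        PBT3.be (wa τ) (wb τ) b t * kov k r O b t) -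
        qk k * (Xv k τ b t * Fv ep k τ s r O b t) := by
      intro t
      have h1 := mulF_T (b1 := NUP1.l / 5) (by positivity) (by
        show NUP1.l / 5 < NUP1.l
        linarith) hn hq (PBT3.be (wa τ) (wb τ)) b (re2 t)
      have h2 : rv k t * Xv k τ b t = PBT3.be (wa τ) (wb τ) b t - qk k * Xv k τ b t := by
        unfold PB.mulF at h1
        unfold rv Xv
        linear_combination h1
      rw [fMH_Fv, ← mul_assoc, h2, sub_mul]
      have h3 : Fv ep k τ s r O b t = PBEI.h00 (t - PBQ1.hr (PBT3.zt τ)) +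
        PBLZ.cutI (4 / 3 * (1 - ep)) (LX (k - 1)) t + s * (I * D1v τ b (NUP1.l + I * t)) +
        kov k r O b t := rfl
      rw [mul_assoc (qk k : ℂ)]
      congr 1
      rw [h3]
      ring
    simp only [e1]
    have j1 := i1.add i2
    have j2 := j1.add (i3.const_mul (s : ℂ))
    have j3 := j2.add i4
    have s1 := integral_sub j3 (i5.const_mul (qk k : ℂ))
    have s2 := integral_add j2 i4
    have s3 := integral_add j1 (i3.const_mul (s : ℂ))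
    have s4 := integral_add i1 i2
    simp only [Pi.add_apply] at s1 s2 s3 s4
    rw [s1, s2, s3, s4, integral_const_mul, integral_const_mul]
    have e3 : ∫ t : ℝ, PBT3.be (wa τ) (wb τ) b t * (I * D1v τ b (NUP1.l + I * t)) =
        ∫ t : ℝ, PBT3.be (wa τ) (wb τ) b t * deriv (PBT3.Dl (wa τ) (wb τ) b) t := by
      refine integral_congr_ae (Eventually.of_forall fun t => ?_)
      simp only
      rw [(H5 k τ b t (re0 t)).2.2.1]
    have e4 : ∫ t : ℝ, PBT3.be (wa τ) (wb τ) b t * kov k r O b t =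
        ∫ t : ℝ, PBT3.be (wa τ) (wb τ) b t *
          (I * PBOR.kP (NUSea.O.par0 k) O b (NUP1.l + I * t)) := by
      refine integral_congr_ae (Eventually.of_forall fun t => ?_)
      simp only
      rw [(kov_fac k O b (re1 t)).1]
    rw [e3, e4]
  -- legs
  have eP : PBT3.pI (wa τ) (wb τ) =
      ∑ b, ∫ t : ℝ, PBT3.be (wa τ) (wb τ) b t * PBEI.h00 (t - PBQ1.hr (PBT3.zt τ)) := by
    rw [PBT3.pI_leg hG]
    refine Finset.sum_congr rfl fun b _ => ?_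
    refine integral_congr_ae (Eventually.of_forall fun t => ?_)
    simp only [PBEI.h00, PBQ1.hr, zz_v, sub_neg_eq_add]
  have eQ := PBT3.qI_Dl hG
  -- the cutoff
  have hcut : ∀ b, ‖∫ t : ℝ, PBT3.be (wa τ) (wb τ) b t *
      PBLZ.cutI (4 / 3 * (1 - ep)) (LX (k - 1)) t‖ ≤ C6 * C4 * Szv k τ := by
    intro b
    obtain ⟨c1, c2⟩ := H4 (k - 1)
    have hb : ∀ t : ℝ, ‖PBT3.be (wa τ) (wb τ) b t *
        PBLZ.cutI (4 / 3 * (1 - ep)) (LX (k - 1)) t‖ ≤ C6 * Real.exp (8 / 3 * Mv τ) *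
        (Real.exp (-(8 / 3 * |t|)) * ‖PBLZ.cutI (4 / 3 * (1 - ep)) (LX (k - 1)) t‖) := by
      intro t
      have h := (H6 (wa τ) (wb τ) hG b t (re2 t)).2
      rw [ofReal_re, MM_v] at h
      rw [norm_mul, ← mul_assoc]
      exact mul_le_mul_of_nonneg_right h (norm_nonneg _)
    refine (norm_integral_le_of_norm_le (c1.const_mul _) (Eventually.of_forall hb)).trans ?_
    rw [integral_const_mul]
    have hE := Real.exp_pos (8 / 3 * Mv τ)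
    have hk' : (k : ℝ) ≤ ((k - 1 : ℕ) : ℝ) + 2 := by
      have : k ≤ k - 1 + 2 := by omega
      exact_mod_cast this
    have c3 : C4 / (((k - 1 : ℕ) : ℝ) + 2) ≤ C4 / k := div_le_div_of_nonneg_left hC4 hk0 hk'
    calc C6 * Real.exp (8 / 3 * Mv τ) * ∫ t : ℝ, (Real.exp (-(8 / 3 * |t|)) *
          ‖PBLZ.cutI (4 / 3 * (1 - ep)) (LX (k - 1)) t‖)
        ≤ C6 * Real.exp (8 / 3 * Mv τ) * (C4 / k) :=
          mul_le_mul_of_nonneg_left (c2.trans c3) (by positivity)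
      _ = C6 * C4 * Szv k τ := by
          unfold Szv
          ring
  -- the regularisation
  have hreg : ∀ b, ‖∫ t : ℝ, Xv k τ b t * Fv ep k τ s r O b t‖ ≤
      30 * C3 * C2 * Szv k τ * (1 + Real.log k) * (r + 1) := by
    intro b
    have hb : ∀ t : ℝ, ‖Xv k τ b t * Fv ep k τ s r O b t‖ ≤
        C3 * Szv k τ * (C2 * (r + 1)) * mn L t := by
      intro t
      rw [norm_mul]
      have h := mul_le_mul (hXb b t) (hFb b t) (norm_nonneg _)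
        (mul_nonneg (by positivity) (mn_nonneg L t))
      calc _ ≤ C3 * Szv k τ * mn L t * (C2 * (r + 1)) := h
        _ = _ := by ring
    refine (norm_integral_le_of_norm_le (hmn.1.const_mul _) (Eventually.of_forall hb)).trans ?_
    rw [integral_const_mul]
    have he : Real.exp 1 ≤ 3 := by
      have := Real.exp_one_lt_d9
      linarith
    have h2 : ∫ t : ℝ, mn L t ≤ 30 * (1 + Real.log k) := by
      refine hmn.2.trans ?_
      rw [hL]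
      nlinarith
    have hA : 0 ≤ C3 * Szv k τ * (C2 * (r + 1)) := by positivity
    calc C3 * Szv k τ * (C2 * (r + 1)) * ∫ t : ℝ, mn L t
        ≤ C3 * Szv k τ * (C2 * (r + 1)) * (30 * (1 + Real.log k)) :=
          mul_le_mul_of_nonneg_left h2 hA
      _ = _ := by ring
  -- the objects
  have hobj := H1 (wa τ) (wb τ) hG r (NUSea.O.par0 k) O hP
  rw [MM_v] at hobj
  have hpin := sum_min_pin (Mv τ) O
  simp only [split]
  rw [eP, eQ]
  obtain ⟨A1, hA1⟩ : ∃ A : Bool → ℂ, A = fun b => ∫ t : ℝ, PBT3.be (wa τ) (wb τ) b t *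
    PBEI.h00 (t - PBQ1.hr (PBT3.zt τ)) := ⟨_, rfl⟩
  obtain ⟨A2, hA2⟩ : ∃ A : Bool → ℂ, A = fun b => ∫ t : ℝ, PBT3.be (wa τ) (wb τ) b t *
    PBLZ.cutI (4 / 3 * (1 - ep)) (LX (k - 1)) t := ⟨_, rfl⟩
  obtain ⟨A3, hA3⟩ : ∃ A : Bool → ℂ, A = fun b => ∫ t : ℝ, PBT3.be (wa τ) (wb τ) b t *
    deriv (PBT3.Dl (wa τ) (wb τ) b) t := ⟨_, rfl⟩
  obtain ⟨A4, hA4⟩ : ∃ A : Bool → ℂ, A = fun b => ∫ t : ℝ, PBT3.be (wa τ) (wb τ) b t *
    (I * PBOR.kP (NUSea.O.par0 k) O b (NUP1.l + I * t)) := ⟨_, rfl⟩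
  obtain ⟨A5, hA5⟩ : ∃ A : Bool → ℂ, A = fun b => ∫ t : ℝ, Xv k τ b t * Fv ep k τ s r O b t :=
    ⟨_, rfl⟩
  have hcut' : ∀ b, ‖A2 b‖ ≤ C6 * C4 * Szv k τ := fun b => by rw [hA2]; exact hcut b
  have hreg' : ∀ b, ‖A5 b‖ ≤ 30 * C3 * C2 * Szv k τ * (1 + Real.log k) * (r + 1) := fun b => by
    rw [hA5]; exact hreg b
  have hobj' : ‖(∑ b, A4 b) + stO (Dv τ) (NUSea.O.par0 k) O‖ ≤ C1 * (1 + Mv τ) ^ 2 *
      ∑ i, min 1 (Real.exp (2 * (Mv τ - |ht (O i)|))) := by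
    rw [hA4]
    exact hobj
  have e : stO (Dv τ) (NUSea.O.par0 k) O + ∑ b, (A1 b + A2 b + s * A3 b + A4 b - qk k * A5 b) -
      s * ∑ b, A3 b - ∑ b, A1 b =
      ((∑ b, A4 b) + stO (Dv τ) (NUSea.O.par0 k) O) + (A2 true + A2 false) -
        qk k * (A5 true + A5 false) := by
    simp only [Fintype.sum_bool]
    ring
  have e' : stO (Dv τ) (NUSea.O.par0 k) O + ∑ b, ((∫ t : ℝ, PBT3.be (wa τ) (wb τ) b t *
      PBEI.h00 (t - PBQ1.hr (PBT3.zt τ))) +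
      (∫ t : ℝ, PBT3.be (wa τ) (wb τ) b t * PBLZ.cutI (4 / 3 * (1 - ep)) (LX (k - 1)) t) +
      s * (∫ t : ℝ, PBT3.be (wa τ) (wb τ) b t * deriv (PBT3.Dl (wa τ) (wb τ) b) t) +
      (∫ t : ℝ, PBT3.be (wa τ) (wb τ) b t *
        (I * PBOR.kP (NUSea.O.par0 k) O b (NUP1.l + I * t))) -
      qk k * ∫ t : ℝ, Xv k τ b t * Fv ep k τ s r O b t) -
      s * (∑ b, ∫ t : ℝ, PBT3.be (wa τ) (wb τ) b t * deriv (PBT3.Dl (wa τ) (wb τ) b) t) -
      (∑ b, ∫ t : ℝ, PBT3.be (wa τ) (wb τ) b t * PBEI.h00 (t - PBQ1.hr (PBT3.zt τ))) =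
      stO (Dv τ) (NUSea.O.par0 k) O + ∑ b, (A1 b + A2 b + s * A3 b + A4 b - qk k * A5 b) -
      s * ∑ b, A3 b - ∑ b, A1 b := by
    rw [hA1, hA2, hA3, hA4, hA5]
  rw [e', e]
  have n1 := norm_sub_le (((∑ b, A4 b) + stO (Dv τ) (NUSea.O.par0 k) O) + (A2 true + A2 false))
    (qk k * (A5 true + A5 false))
  have n2 := norm_add_le ((∑ b, A4 b) + stO (Dv τ) (NUSea.O.par0 k) O) (A2 true + A2 false)
  have n3 := norm_add_le (A2 true) (A2 false)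
  have n4 := norm_add_le (A5 true) (A5 false)
  have n5 : ‖(qk k : ℂ) * (A5 true + A5 false)‖ ≤ ‖A5 true + A5 false‖ := by
    rw [norm_mul, norm_real, Real.norm_of_nonneg hq.le]
    exact mul_le_of_le_one_left (norm_nonneg _) hq1
  have m1 := hcut' true
  have m2 := hcut' false
  have m3 := hreg' true
  have m4 := hreg' false
  obtain ⟨pn, hpn'⟩ : ∃ pn, pn = ∑ i, Real.exp (-(2 * |ht (O i)|)) := ⟨_, rfl⟩
  have hpn0 : 0 ≤ pn := by
    rw [hpn']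
    exact Finset.sum_nonneg fun i _ => (Real.exp_pos _).le
  rw [← hpn'] at hpin ⊢
  have hE := Real.exp_pos (2 * Mv τ)
  have m5 : C1 * (1 + Mv τ) ^ 2 * ∑ i, min 1 (Real.exp (2 * (Mv τ - |ht (O i)|))) ≤
      C1 * (1 + Mv τ) ^ 2 * Real.exp (2 * Mv τ) * pn := by
    rw [mul_assoc _ (Real.exp _)]
    exact mul_le_mul_of_nonneg_left hpin (by positivity)
  have m6 : C6 * C4 * Szv k τ ≤ C6 * C4 * Szv k τ * (1 + Real.log k) * (r + 1) := by
    have p1 : 0 ≤ C6 * C4 * Szv k τ := by positivity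
    rw [mul_assoc (C6 * C4 * Szv k τ)]
    refine le_mul_of_one_le_right p1 ?_
    nlinarith
  have m7 : C1 * (1 + Mv τ) ^ 2 * Real.exp (2 * Mv τ) * pn ≤
      (C1 + 2 * C6 * C4 + 60 * C3 * C2) * (1 + Mv τ) ^ 2 * Real.exp (2 * Mv τ) * pn := by
    have p1 : C1 ≤ C1 + 2 * C6 * C4 + 60 * C3 * C2 := by
      have q1 : 0 ≤ 2 * C6 * C4 := by positivity
      have q2 : 0 ≤ 60 * C3 * C2 := by positivity
      linarith
    gcongr
  have m8 : 0 ≤ C1 * Szv k τ * (1 + Real.log k) * (r + 1) := by positivity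
  nlinarith

end PBTV.GG

namespace PBTV

open GG
open NUO NUP1 NUP1S NUP1S.Ab NUGC PBU PBTs
open PBF (fMH LPo stO expZ)

variable [NUSea.Sea]

/-- **(G1) and (G2) together**, the hypothesis of the last layer -/
theorem G12 {ep : ℝ} (h0 : 0 < ep) (h1 : ep ≤ 1 / 100) : ∃ C : ℝ, 1 ≤ C ∧ ∃ k0 : ℕ,
    ∀ k : ℕ, k0 ≤ k → ∀ (τ : ℝ × ℝ) (s : ℝ), 0 ≤ s → s ≤ 1 →
    (∀ (r : ℕ) (O : Fin r → Xo), ‖stO (Dv τ) (NUSea.O.par0 k) O +
        ∑ b, (∫ t : ℝ, rv k t * fMH s (Xv k τ) (D1v τ) (lgv ep k τ) (kov k) r O b t) -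
        s * PBT3.qI (wa τ) (wb τ) - PBT3.pI (wa τ) (wb τ)‖ ≤
      C * (1 + Mv τ) ^ 2 * Real.exp (2 * Mv τ) * ∑ i, Real.exp (-(2 * |ht (O i)|)) +
        C * Szv k τ * (1 + Real.log k) * (r + 1)) ∧
    (∀ (r : ℕ) (O : Fin r → Xo) (b : Bool),
      BC (-(ep / 8)) (ep / 8) (C * Szv k τ * (1 + Real.log k) * (r + 1))
      (fun z => Ev k τ b z + fMH s (Xv k τ) (D1v τ) (lgv ep k τ) (kov k) r O b z)) := by
  obtain ⟨C1, hC1, k1, H1⟩ := G1 h0 h1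
  obtain ⟨C2, hC2, k2, H2⟩ := G2 h0 h1
  refine ⟨max C1 C2, hC1.trans (le_max_left _ _), max (max k1 k2) 1,
    fun k hk τ s hs0 hs1 => ⟨fun r O => ?_, fun r O b => ?_⟩⟩
  · have hk1 : k1 ≤ k := (le_max_left _ _).trans ((le_max_left _ _).trans hk)
    have hk3 : 1 ≤ k := (le_max_right _ _).trans hk
    have hlog : 0 ≤ Real.log k := Real.log_nonneg (by exact_mod_cast hk3)
    have hS := Szv_nonneg k τ
    have hM0 : 0 ≤ Mv τ := (abs_nonneg _).trans (le_max_left _ _)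
    have hpn0 : 0 ≤ ∑ i, Real.exp (-(2 * |ht (O i)|)) :=
      Finset.sum_nonneg fun i _ => (Real.exp_pos _).le
    refine (H1 k hk1 τ s ⟨hs0, hs1⟩ r O).trans ?_
    have hC := le_max_left C1 C2
    gcongr
  · have hk2 : k2 ≤ k := (le_max_right _ _).trans ((le_max_left _ _).trans hk)
    have hk3 : 1 ≤ k := (le_max_right _ _).trans hk
    have hlog : 0 ≤ Real.log k := Real.log_nonneg (by exact_mod_cast hk3)
    have hS := Szv_nonneg k τ
    refine (H2 k hk2 τ s ⟨hs0, hs1⟩ r O b).mono ?_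
    have hC := le_max_right C1 C2
    gcongr

end PBTV
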