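import Pool.Agent.PB.Wave

/-!
# Plan B: the product decomposition with ONE index measure, and the neutral split

* `wm`: measure on `Bool × ℝ` (the two Cauchy lines);
* `AE`, `BE`: the two families, `decomp_idx`: `E z w = ∫ AE q z * BE q w ∂wm`;
* `neutral_split`: `E s t = ∫ (A q s - m q d₀ s) * B q t + d₀ s * e t`, `e t = ψ t + κ d₀ t`.
-/

set_option autoImplicit false

open Complex MeasureTheory Set Filter Topology

noncomputable section

namespace PBV

/-- the index measure: two copies of the real line -/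
def wm : Measure (Bool × ℝ) := Measure.map (Prod.mk false) volume + Measure.map (Prod.mk true) volume

instance : SFinite wm := by unfold wm; infer_instance

lemma integrable_wm {F : Type*} [NormedAddCommGroup F] {f : Bool × ℝ → F} :
    Integrable f wm ↔ Integrable (fun s : ℝ => f (false, s)) ∧ Integrable (fun s : ℝ => f (true, s)) := by
  unfold wm
  rw [integrable_add_measure, (measurableEmbedding_prodMk_left false).integrable_map_iff,
    (measurableEmbedding_prodMk_left true).integrable_map_iff]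
  rfl

lemma integral_wm {F : Type*} [NormedAddCommGroup F] [NormedSpace ℝ F] {f : Bool × ℝ → F}
    (hf : Integrable f wm) :
    ∫ q, f q ∂wm = (∫ s : ℝ, f (false, s)) + ∫ s : ℝ, f (true, s) := by
  unfold wm at hf ⊢
  rw [integrable_add_measure] at hf
  rw [integral_add_measure hf.1 hf.2, (measurableEmbedding_prodMk_left false).integral_map,
    (measurableEmbedding_prodMk_left true).integral_map]

/-- the height of the line -/
def ly (y₁ y₂ : ℝ) (b : Bool) : ℝ := bif b then y₂ else y₁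

/-- the sign of the line -/
def ls (b : Bool) : ℝ := bif b then 1 else -1

/-- first family -/
def AE (E : ℂ → ℂ → ℂ) (y₁ y₂ : ℝ) (q : Bool × ℝ) (z : ℂ) : ℂ := E z (q.2 + ly y₁ y₂ q.1 * I)

/-- second family -/
def BE (α y₁ y₂ : ℝ) (q : Bool × ℝ) (w : ℂ) : ℂ := bE α (ls q.1) (ly y₁ y₂ q.1) q.2 w

lemma ly_or (y₁ y₂ : ℝ) (b : Bool) : ly y₁ y₂ b = y₁ ∨ ly y₁ y₂ b = y₂ := by
  cases b
  · exact Or.inl rfl
  · exact Or.inr rfl

lemma ls_or (b : Bool) : ls b = 1 ∨ ls b = -1 := by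
  cases b
  · exact Or.inr rfl
  · exact Or.inl rfl

lemma ly_mem {y₁ y₂ : ℝ} (h : y₁ ≤ y₂) (q : Bool × ℝ) : ((q.2 : ℂ) + ly y₁ y₂ q.1 * I) ∈ St y₁ y₂ := by
  have e : ((q.2 : ℂ) + ly y₁ y₂ q.1 * I).im = ly y₁ y₂ q.1 := by simp
  show y₁ ≤ ((q.2 : ℂ) + ly y₁ y₂ q.1 * I).im ∧ ((q.2 : ℂ) + ly y₁ y₂ q.1 * I).im ≤ y₂
  rw [e]
  rcases ly_or y₁ y₂ q.1 with h1 | h1 <;> rw [h1]
  · exact ⟨le_rfl, h⟩
  · exact ⟨h, le_rfl⟩

lemma ly_re (y₁ y₂ : ℝ) (q : Bool × ℝ) : ((q.2 : ℂ) + ly y₁ y₂ q.1 * I).re = q.2 := by simp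

/-- **product decomposition over one index measure** -/
theorem decomp_idx {E : ℂ → ℂ → ℂ} {y₁ y₂ α β M : ℝ} (hα : 0 < α)
    (hαy : α * (y₂ - y₁) < Real.pi) (hβ : β < α) {z : ℂ} (hc : ContinuousOn (E z) (St y₁ y₂))
    (hf : DifferentiableOn ℂ (E z) (So y₁ y₂))
    (hb : ∀ w ∈ St y₁ y₂, ‖E z w‖ ≤ M * Real.exp (β * |w.re|)) {w : ℂ} (hw : w ∈ So y₁ y₂) :
    Integrable (fun q => AE E y₁ y₂ q z * BE α y₁ y₂ q w) wm ∧
      E z w = ∫ q, AE E y₁ y₂ q z * BE α y₁ y₂ q w ∂wm := by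
  obtain ⟨h1, h2, h3⟩ := decomp_point hα hαy hβ hc hf hb hw
  have hi : Integrable (fun q => AE E y₁ y₂ q z * BE α y₁ y₂ q w) wm := integrable_wm.2 ⟨h1, h2⟩
  refine ⟨hi, ?_⟩
  rw [integral_wm hi]
  exact h3

lemma BE_measurable (α y₁ y₂ : ℝ) : Measurable fun p : (Bool × ℝ) × ℂ => BE α y₁ y₂ p.1 p.2 := by
  have h : Measurable fun p : Bool × (ℝ × ℂ) => bE α (ls p.1) (ly y₁ y₂ p.1) p.2.1 p.2.2 :=
    measurable_from_prod_countable_right fun b => bE_measurable α (ls b) (ly y₁ y₂ b)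
  exact h.comp (measurable_fst.fst.prodMk (measurable_fst.snd.prodMk measurable_snd))

lemma AE_measurable {E : ℂ → ℂ → ℂ} {y₁ y₂ : ℝ}
    (hm : ∀ y : ℝ, (y = y₁ ∨ y = y₂) → Measurable fun q : ℂ × ℝ => E q.1 (q.2 + y * I)) :
    Measurable fun p : (Bool × ℝ) × ℂ => AE E y₁ y₂ p.1 p.2 := by
  have h : Measurable fun p : Bool × (ℂ × ℝ) => E p.2.1 (p.2.2 + ly y₁ y₂ p.1 * I) :=
    measurable_from_prod_countable_right fun b => hm _ (ly_or y₁ y₂ b)
  exact h.comp (measurable_fst.fst.prodMk (measurable_snd.prodMk measurable_fst.snd))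

theorem norm_BE_le {α y₁ y₂ θ a : ℝ} (hα : 0 < α) (hθ : 0 < θ) (hαy : α * (y₂ - y₁) < Real.pi)
    (ha : 0 ≤ a) (haα : a ≤ α) {z : ℂ} (hz : z ∈ St (y₁ + θ) (y₂ - θ)) (q : Bool × ℝ) :
    ‖BE α y₁ y₂ q z‖ ≤ cE α θ * Real.exp (a * |q.2|) * Real.exp (-(a * |z.re|)) :=
  norm_bE_le_center hα hθ hαy (ls_or _) (ly_or _ _ _) ha haα hz

theorem BE_differentiableOn {α y₁ y₂ : ℝ} (hα : 0 < α) (hαy : α * (y₂ - y₁) < Real.pi) (q : Bool × ℝ) :
    DifferentiableOn ℂ (BE α y₁ y₂ q) (So y₁ y₂) :=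
  bE_differentiableOn hα hαy (ly_or _ _ _)

theorem norm_AE_le {E : ℂ → ℂ → ℂ} {y₁ y₂ M a a' : ℝ} (hy : y₁ ≤ y₂) (ha : 0 ≤ a) (ha' : 0 ≤ a') {z : ℂ}
    (hM : 0 ≤ M) (hb : ∀ w ∈ St y₁ y₂, ‖E z w‖ ≤ M * Real.exp (-((a + a') * max |z.re| |w.re|)))
    (q : Bool × ℝ) :
    ‖AE E y₁ y₂ q z‖ ≤ M * Real.exp (-(a * |q.2|)) * Real.exp (-(a' * |z.re|)) := by
  have h := hb _ (ly_mem hy q)
  rw [ly_re] at h
  refine h.trans ?_
  rw [mul_assoc, ← Real.exp_add]
  refine mul_le_mul_of_nonneg_left (Real.exp_le_exp.2 ?_) hM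
  have h1 := le_max_left |z.re| |q.2|
  have h2 := le_max_right |z.re| |q.2|
  nlinarith

lemma integrable_exp_wm {c : ℝ} (hc : 0 < c) : Integrable (fun q : Bool × ℝ => Real.exp (-(c * |q.2|))) wm := by
  have h := (int_exp_abs_shift hc 0).1
  simp only [sub_zero] at h
  exact integrable_wm.2 ⟨h, h⟩

lemma integral_exp_wm {c : ℝ} (hc : 0 < c) : ∫ q : Bool × ℝ, Real.exp (-(c * |q.2|)) ∂wm = 4 / c := by
  have h := (int_exp_abs_shift hc 0).2
  simp only [sub_zero] at h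
  rw [integral_wm (integrable_exp_wm hc), h]
  ring

/-! ### the neutral split -/

section Split

variable {Q : Type*} [MeasurableSpace Q] {μ : Measure Q} [SFinite μ]

/-- the smeared kernel: `e t = ∫ E s t ds = ∫ m q * B q t` -/
theorem smear_eq {A B : Q → ℝ → ℂ} {E : ℝ → ℝ → ℂ} {wa wb : Q → ℝ} {φ : ℝ → ℝ} {t : ℝ}
    (hAm : Measurable fun p : Q × ℝ => A p.1 p.2) (hBm : Measurable fun q => B q t)
    (hA : ∀ q s, ‖A q s‖ ≤ wa q * φ s) (hB : ∀ q, ‖B q t‖ ≤ wb q)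
    (hw : Integrable (fun q => wa q * wb q) μ) (hφ : Integrable φ)
    (hE : ∀ s, E s t = ∫ q, A q s * B q t ∂μ) :
    ∫ s, E s t = ∫ q, (∫ s, A q s) * B q t ∂μ := by
  have hI : Integrable (fun p : Q × ℝ => A p.1 p.2 * B p.1 t) (μ.prod volume) := by
    refine (hw.norm.mul_prod hφ.norm).mono' ?_ (Eventually.of_forall fun p => ?_)
    · exact (hAm.mul (hBm.comp measurable_fst)).aestronglyMeasurable
    · rw [norm_mul, norm_mul, Real.norm_eq_abs, Real.norm_eq_abs, Real.norm_eq_abs]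
      have h1 := hA p.1 p.2
      have h2 := hB p.1
      have h3 : ‖A p.1 p.2‖ ≤ |wa p.1| * |φ p.2| := by rw [← abs_mul]; exact h1.trans (le_abs_self _)
      have h4 : ‖B p.1 t‖ ≤ |wb p.1| := h2.trans (le_abs_self _)
      calc ‖A p.1 p.2‖ * ‖B p.1 t‖ ≤ (|wa p.1| * |φ p.2|) * |wb p.1| := by gcongr
        _ = _ := by ring
  simp only [hE]
  rw [← integral_integral_swap hI]
  refine integral_congr_ae (Eventually.of_forall fun q => ?_)
  exact integral_mul_const _ _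

/-- **the neutral split of a product decomposition** -/
theorem neutral_split {A B : Q → ℝ → ℂ} {E : ℝ → ℝ → ℂ} {d₀ : ℝ → ℂ} {s t : ℝ} {wa wb : Q → ℝ} {φ : ℝ → ℝ}
    (hAm : Measurable fun p : Q × ℝ => A p.1 p.2) (hBm : Measurable fun q => B q t)
    (hA : ∀ q s, ‖A q s‖ ≤ wa q * φ s) (hB : ∀ q, ‖B q t‖ ≤ wb q)
    (hw : Integrable (fun q => wa q * wb q) μ) (hφ : Integrable φ)
    (hE : ∀ s, E s t = ∫ q, A q s * B q t ∂μ) :
    Integrable (fun q => (A q s - (∫ s, A q s) * d₀ s) * B q t) μ ∧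
    E s t = (∫ q, (A q s - (∫ s, A q s) * d₀ s) * B q t ∂μ) + d₀ s * ∫ s, E s t := by
  have i1 : Integrable (fun q => A q s * B q t) μ := by
    refine (hw.norm.mul_const |φ s|).mono' ?_ (Eventually.of_forall fun q => ?_)
    · exact ((hAm.comp (measurable_id.prodMk measurable_const)).mul hBm).aestronglyMeasurable
    · rw [norm_mul, norm_mul, Real.norm_eq_abs, Real.norm_eq_abs]
      have h3 : ‖A q s‖ ≤ |wa q| * |φ s| := by rw [← abs_mul]; exact (hA q s).trans (le_abs_self _)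
      have h4 : ‖B q t‖ ≤ |wb q| := (hB q).trans (le_abs_self _)
      calc ‖A q s‖ * ‖B q t‖ ≤ (|wa q| * |φ s|) * |wb q| := by gcongr
        _ = _ := by ring
  have i2 : Integrable (fun q => (∫ s, A q s) * B q t) μ := by
    refine (hw.norm.mul_const (∫ s, |φ s|)).mono' ?_ (Eventually.of_forall fun q => ?_)
    · have h5 : StronglyMeasurable fun q => ∫ s, A q s := hAm.stronglyMeasurable.integral_prod_right'
      exact (h5.measurable.mul hBm).aestronglyMeasurable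
    · rw [norm_mul, norm_mul, Real.norm_eq_abs, Real.norm_eq_abs]
      have h3 : ‖∫ s, A q s‖ ≤ |wa q| * ∫ s, |φ s| := by
        rw [← integral_const_mul]
        refine norm_integral_le_of_norm_le (hφ.norm.const_mul _) (Eventually.of_forall fun s => ?_)
        rw [← abs_mul]
        exact (hA q s).trans (le_abs_self _)
      have h4 : ‖B q t‖ ≤ |wb q| := (hB q).trans (le_abs_self _)
      have h6 : 0 ≤ ∫ s, |φ s| := integral_nonneg fun _ => abs_nonneg _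
      calc ‖∫ s, A q s‖ * ‖B q t‖ ≤ (|wa q| * ∫ s, |φ s|) * |wb q| := by gcongr
        _ = _ := by ring
  have e : (fun q => (A q s - (∫ s, A q s) * d₀ s) * B q t) =
      fun q => A q s * B q t - d₀ s * ((∫ s, A q s) * B q t) := by
    funext q; ring
  rw [e]
  refine ⟨i1.sub (i2.const_mul _), ?_⟩
  rw [integral_sub i1 (i2.const_mul _), integral_const_mul, smear_eq hAm hBm hA hB hw hφ hE, hE s]
  ring

end Split

/-- the second split: `e = ψ + κ d₀`, `κ = ∫ e`, `ψ` neutral -/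
theorem split_two {e d₀ : ℝ → ℂ} (he : Integrable e) (hd : Integrable d₀) (h1 : ∫ t, d₀ t = 1) :
    ∫ t, (e t - (∫ t, e t) * d₀ t) = 0 := by
  rw [integral_sub he (hd.const_mul _), integral_const_mul, h1]
  ring

/-- the first factors are neutral -/
theorem split_one {a d₀ : ℝ → ℂ} (ha : Integrable a) (hd : Integrable d₀) (h1 : ∫ t, d₀ t = 1) :
    ∫ s, (a s - (∫ s, a s) * d₀ s) = 0 := split_two ha hd h1

end PBV

end
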