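import Pool.Agent.PB.QRepK
import Pool.Agent.PB.Wave2
import Pool.Agent.PB.NormY

/-!
# The quadratic statistic of a field as a superposition of products (helper55)

* `QI4`, `qm`: pairs of species and the two lines of the Cauchy formula;
* `QA`, `QB`: the two families of test functions; `QA_an`, `QB_an`, `QA_le`, `QB_le`;
* `prep_EL`: the representation of the local kernel `EL`;
* **`nuQ_field`**: `nuQ (aC X) = nuL (-2 ε X) nuL (ε tgh) + (1/2) ∫ nuL (QA q) nuL (QB q)`;
* `enorm_nuQ_field`: the bound by the moduli.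
-/

set_option autoImplicit false
set_option linter.unusedSectionVars false

noncomputable section

open Complex MeasureTheory Set Filter Topology
open scoped ENNReal

namespace PB

open NUMF (l)
open PBK Pool.Agent.PB PBV NX

/-- pairs of species, lines -/
abbrev QI4 : Type := (Bool × Bool) × (Bool × ℝ)

/-- the measure -/
def qm : Measure QI4 := Measure.sum fun p : Bool × Bool => Measure.map (Prod.mk p) wm

instance : SFinite qm := by unfold qm; infer_instance

lemma qm_eq : qm = ∑ p : Bool × Bool, Measure.map (Prod.mk p) wm := Measure.sum_fintype _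

lemma integrable_qm {f : QI4 → ℂ} : Integrable f qm ↔ ∀ p, Integrable (fun q => f (p, q)) wm := by
  rw [qm_eq, integrable_finsetSum_measure]
  simp only [Finset.mem_univ, true_implies]
  exact forall_congr' fun p => (measurableEmbedding_prodMk_left p).integrable_map_iff

lemma integrable_qm' {f : QI4 → ℝ} : Integrable f qm ↔ ∀ p, Integrable (fun q => f (p, q)) wm := by
  rw [qm_eq, integrable_finsetSum_measure]
  simp only [Finset.mem_univ, true_implies]
  exact forall_congr' fun p => (measurableEmbedding_prodMk_left p).integrable_map_iff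

lemma integral_qm {f : QI4 → ℂ} (hf : Integrable f qm) :
    ∫ q, f q ∂qm = ∑ p : Bool × Bool, ∫ q, f (p, q) ∂wm := by
  have h := hf
  rw [qm_eq, integrable_finsetSum_measure] at h
  rw [qm_eq, integral_finsetSum_measure h]
  exact Finset.sum_congr rfl fun p _ => (measurableEmbedding_prodMk_left p).integral_map _

lemma lintegral_qm (f : QI4 → ℝ≥0∞) :
    ∫⁻ q, f q ∂qm = ∑ p : Bool × Bool, ∫⁻ q, f (p, q) ∂wm := by
  rw [qm_eq, lintegral_finsetSum_measure]
  exact Finset.sum_congr rfl fun p _ => (measurableEmbedding_prodMk_left p).lintegral_map _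

lemma lintegral_wm (f : Bool × ℝ → ℝ≥0∞) :
    ∫⁻ q, f q ∂wm = (∫⁻ s : ℝ, f (false, s)) + ∫⁻ s : ℝ, f (true, s) := by
  unfold wm
  rw [lintegral_add_measure, (measurableEmbedding_prodMk_left false).lintegral_map,
    (measurableEmbedding_prodMk_left true).lintegral_map]

/-! ### the families -/

/-- first family -/
def QA (X : Bool → ℂ → ℂ) (y1 : ℝ) (q : QI4) (b : Bool) (z : ℂ) : ℂ :=
  if b = q.1.1 then AE (EL X q.1.1 q.1.2) (-y1) y1 q.2 z else 0

/-- second family -/
def QB (y1 : ℝ) (q : QI4) (c : Bool) (w : ℂ) : ℂ :=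
  if c = q.1.2 then BE 1 (-y1) y1 q.2 w else 0

/-- size of the first family -/
def qa (C S L : ℝ) (q : QI4) : ℝ := C * S * WL L q.2.2

lemma qa_nonneg {C S L : ℝ} (hC : 0 ≤ C) (hS : 0 ≤ S) (q : QI4) : 0 ≤ qa C S L q :=
  mul_nonneg (mul_nonneg hC hS) (WL_pos _ _).le

lemma QB_measurable (y1 : ℝ) (c : Bool) : Measurable fun p : QI4 × ℂ => QB y1 p.1 c p.2 := by
  unfold QB
  refine Measurable.ite ?_ ?_ measurable_const
  · have : Measurable fun p : QI4 × ℂ => p.1.1.2 := measurable_fst.fst.snd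
    exact (measurableSet_eq_fun measurable_const this)
  · exact (BE_measurable 1 (-y1) y1).comp (measurable_fst.snd.prodMk measurable_snd)

lemma EL_line_measurable {X : Bool → ℂ → ℂ} (hm : ∀ b, Measurable (X b)) (b c : Bool) (w : ℂ) :
    Measurable fun q : ℂ × ℝ => EL X b c q.1 ((q.2 : ℂ) + w) := by
  have h1 : Measurable fun q : ℂ × ℝ => ((q.2 : ℂ) + w) :=
    (Complex.measurable_ofReal.comp measurable_snd).add measurable_const
  have h2 : Measurable fun q : ℂ × ℝ => ((q.1, ((q.2 : ℂ) + w)) : ℂ × ℂ) :=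
    measurable_fst.prodMk h1
  have h3 := (EL_measurable hm b c).comp h2
  exact h3

lemma AE_EL_measurable {X : Bool → ℂ → ℂ} (hm : ∀ b, Measurable (X b)) (y1 : ℝ) (b c : Bool) :
    Measurable fun p : (Bool × ℝ) × ℂ => AE (EL X b c) (-y1) y1 p.1 p.2 :=
  AE_measurable (E := EL X b c) fun y _ => EL_line_measurable hm b c (y * I)

lemma QA_measurable {X : Bool → ℂ → ℂ} (hm : ∀ b, Measurable (X b)) (y1 : ℝ) (b : Bool) :
    Measurable fun p : QI4 × ℂ => QA X y1 p.1 b p.2 := by
  have h0 : Measurable fun p : (Bool × Bool) × ((Bool × ℝ) × ℂ) =>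
      (if b = p.1.1 then AE (EL X p.1.1 p.1.2) (-y1) y1 p.2.1 p.2.2 else 0) := by
    refine measurable_from_prod_countable_right fun bc => ?_
    by_cases hb : b = bc.1
    · have e : (fun y : (Bool × ℝ) × ℂ => (if b = ((bc, y) : (Bool × Bool) × ((Bool × ℝ) × ℂ)).1.1 then
          AE (EL X ((bc, y) : (Bool × Bool) × ((Bool × ℝ) × ℂ)).1.1
            ((bc, y) : (Bool × Bool) × ((Bool × ℝ) × ℂ)).1.2) (-y1) y1
            ((bc, y) : (Bool × Bool) × ((Bool × ℝ) × ℂ)).2.1
            ((bc, y) : (Bool × Bool) × ((Bool × ℝ) × ℂ)).2.2 else 0)) =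
          fun y => AE (EL X bc.1 bc.2) (-y1) y1 y.1 y.2 := by
        funext y
        exact if_pos hb
      rw [e]
      exact AE_EL_measurable hm y1 bc.1 bc.2
    · have e : (fun y : (Bool × ℝ) × ℂ => (if b = ((bc, y) : (Bool × Bool) × ((Bool × ℝ) × ℂ)).1.1 then
          AE (EL X ((bc, y) : (Bool × Bool) × ((Bool × ℝ) × ℂ)).1.1
            ((bc, y) : (Bool × Bool) × ((Bool × ℝ) × ℂ)).1.2) (-y1) y1
            ((bc, y) : (Bool × Bool) × ((Bool × ℝ) × ℂ)).2.1
            ((bc, y) : (Bool × Bool) × ((Bool × ℝ) × ℂ)).2.2 else 0)) = fun _ => 0 := by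
        funext y
        exact if_neg hb
      rw [e]
      exact measurable_const
  have h1 : Measurable fun p : QI4 × ℂ => ((p.1.1, (p.1.2, p.2)) :
      (Bool × Bool) × ((Bool × ℝ) × ℂ)) :=
    measurable_fst.fst.prodMk (measurable_fst.snd.prodMk measurable_snd)
  exact h0.comp h1

lemma ly_abs (y1 : ℝ) (h : 0 ≤ y1) (b : Bool) : |ly (-y1) y1 b| ≤ y1 := by
  unfold ly
  cases b
  · simp [abs_of_nonneg h]
  · simp [abs_of_nonneg h]

lemma im_line (y1 s : ℝ) (b : Bool) : ((s : ℂ) + ly (-y1) y1 b * I).im = ly (-y1) y1 b := by simp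

lemma re_line (y1 s : ℝ) (b : Bool) : ((s : ℂ) + ly (-y1) y1 b * I).re = s := by simp

/-- the data of the strips -/
structure YOk (y0 y1 b1 : ℝ) : Prop where
  h0 : 0 ≤ y0
  h01 : y0 < y1
  h1 : y1 < b1
  hl : 2 * b1 ≤ l

lemma YOk.pos {y0 y1 b1 : ℝ} (h : YOk y0 y1 b1) : 0 < y1 := h.h0.trans_lt h.h01

lemma YOk.pi {y0 y1 b1 : ℝ} (h : YOk y0 y1 b1) : (1 : ℝ) * (y1 - -y1) < Real.pi := by
  have h1 := h.h1
  have h2 := h.hl
  have h3 : l < Real.pi := by
    have := Real.pi_pos
    unfold l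
    linarith
  linarith

/-- **bound of the first family** -/
theorem QA_le {y0 y1 b1 : ℝ} (h : YOk y0 y1 b1) : ∃ C : ℝ, 0 ≤ C ∧ ∀ (S L : ℝ)
    (X : Bool → ℂ → ℂ), 0 ≤ S → XBd b1 S L X → ∀ (q : QI4) (b : Bool) (z : ℂ), |z.im| ≤ y1 →
      ‖QA X y1 q b z‖ ≤ qa C S L q := by
  obtain ⟨C, hC, h1⟩ := EL_le (b0 := y1) (b1 := b1) h.pos.le h.h1 (by
    have := h.h1; have := h.hl; linarith)
  refine ⟨C, hC, fun S L X hS hX q b z hz => ?_⟩
  unfold QA
  split_ifs
  · unfold AE qa
    have h2 := h1 S L X hS hX q.1.1 q.1.2 z (q.2.2 + ly (-y1) y1 q.2.1 * I) hz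
      (by rw [im_line]; exact ly_abs y1 h.pos.le _)
    rwa [re_line] at h2
  · rw [norm_zero]
    exact qa_nonneg hC hS q

/-- bound of the second family -/
theorem QB_le {y0 y1 b1 : ℝ} (h : YOk y0 y1 b1) (q : QI4) (c : Bool) {z : ℂ}
    (hz : |z.im| ≤ y0) : ‖QB y1 q c z‖ ≤ cE 1 (y1 - y0) := by
  have h01 := h.h01
  have hθ : 0 < y1 - y0 := by linarith
  have hp := h.pi
  have hsin : (1 : ℝ) * (y1 - y0) < Real.pi := by
    have := h.h0
    linarith
  unfold QB
  split_ifs
  · have h2 := norm_BE_le (α := 1) (y₁ := -y1) (y₂ := y1) (θ := y1 - y0) (a := 0) one_pos hθ hp le_rfl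
      zero_le_one (z := z) ⟨by have := (abs_le.1 hz).1; linarith, by
        have := (abs_le.1 hz).2; linarith⟩ q.2
    simpa using h2
  · rw [norm_zero]
    exact (cE_pos one_pos hθ hsin).le

/-- analyticity of the first family -/
theorem QA_diff {y0 y1 b1 S L : ℝ} (h : YOk y0 y1 b1) (hS : 0 ≤ S) {X : Bool → ℂ → ℂ}
    (hX : XBd b1 S L X) (q : QI4) (b : Bool) {z : ℂ} (hz : |z.im| < b1) :
    DifferentiableAt ℂ (QA X y1 q b) z := by
  unfold QA
  by_cases hb : b = q.1.1
  · simp only [hb, if_true]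
    unfold AE
    set w : ℂ := q.2.2 + ly (-y1) y1 q.2.1 * I with hw
    have hwi : |w.im| < b1 := by
      rw [hw, im_line]
      exact (ly_abs y1 h.pos.le _).trans_lt h.h1
    have h2 := EL_diff hX hS h.hl q.1.2 q.1.1 hwi hz
    refine h2.congr_of_eventuallyEq ?_
    have hne : {z : ℂ | |z.im| < b1} ∈ 𝓝 z := (Pool.Agent.PB.strip_open b1).mem_nhds hz
    filter_upwards [hne] with z' hz'
    refine EL_symm X q.1.1 q.1.2 ?_
    have h3 := h.hl
    rw [sub_im]
    have h4 := abs_sub z'.im w.im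
    have h5 : |z'.im| < b1 := hz'
    linarith
  · simp only [hb, if_false]
    exact differentiableAt_const _

/-- analyticity of the second family -/
theorem QB_diff {y0 y1 b1 : ℝ} (h : YOk y0 y1 b1) (q : QI4) (c : Bool) :
    DifferentiableOn ℂ (QB y1 q c) (So (-y1) y1) := by
  by_cases hb : c = q.1.2
  · have e : QB y1 q c = BE 1 (-y1) y1 q.2 := by
      funext w
      unfold QB
      rw [if_pos hb]
    rw [e]
    exact BE_differentiableOn one_pos h.pi q.2
  · have e : QB y1 q c = fun _ => 0 := by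
      funext w
      unfold QB
      rw [if_neg hb]
    rw [e]
    exact differentiableOn_const _

lemma integrable_WL_qm {L : ℝ} (hL : 0 ≤ L) (c : ℝ) :
    Integrable (fun q : QI4 => c * WL L q.2.2) qm := by
  rw [integrable_qm']
  intro p
  rw [integrable_wm]
  exact ⟨(WL_int hL).1.const_mul c, (WL_int hL).1.const_mul c⟩

/-- **the representation of the local kernel** -/
theorem prep_EL {y0 y1 b1 S L : ℝ} (h : YOk y0 y1 b1) (hS : 0 ≤ S) (hL : 0 ≤ L)
    {X : Bool → ℂ → ℂ} (hX : XBd b1 S L X) {C : ℝ} (hC : 0 ≤ C)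
    (hA : ∀ (q : QI4) (b : Bool) (z : ℂ), |z.im| ≤ y1 → ‖QA X y1 q b z‖ ≤ qa C S L q)
    (hE : ∀ (b c : Bool) (z w : ℂ), |z.im| ≤ y1 → |w.im| ≤ y1 → ‖EL X b c z w‖ ≤ C * S * WL L w.re)
    {ρ : ℂ → ℂ} (hρ : Integrable fun u : ℝ => ρ u) (hρm : Measurable fun u : ℝ => ρ u) :
    PRep qm (fun _ : Bool => {z : ℂ | |z.im| ≤ y0}) eR (rS ρ) (EL X) (QA X y1) (QB y1)
      (qa C S L) (fun _ => cE 1 (y1 - y0)) (fun _ _ => 1) (fun _ _ => 1) := by
  have h01 := h.h01
  have hp := h.pi
  have hθ : 0 < y1 - y0 := by linarith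
  have hsin : (1 : ℝ) * (y1 - y0) < Real.pi := by
    have := h.h0
    linarith
  have hy10 := h.pos
  have h1 := h.h1
  have h2 := h.hl
  refine ⟨?_, ?_, ?_, ?_, ?_, ?_, ?_, ?_, ?_, ?_, ?_, ?_, ?_, ?_⟩
  · intro b c x y hx hy
    have hx' : |x.im| ≤ y0 := hx
    have hy' : |y.im| ≤ y0 := hy
    have hd : ∀ w : ℂ, |w.im| < b1 → DifferentiableAt ℂ (fun w => EL X b c x w) w := fun w hw =>
      EL_diff hX hS h.hl b c (by linarith) hw
    obtain ⟨i1, i2⟩ := decomp_idx (E := EL X b c) (y₁ := -y1) (y₂ := y1) (α := 1) (β := 0)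
      (M := C * S) one_pos hp zero_lt_one (z := x)
      (fun w hw => (hd w (by
        have := hw.1; have := hw.2
        exact (abs_le.2 ⟨by linarith, by linarith⟩ : |w.im| ≤ y1).trans_lt h1)).continuousAt.continuousWithinAt)
      (fun w hw => (hd w (by
        have := hw.1; have := hw.2
        exact (abs_lt.2 ⟨by linarith, by linarith⟩ : |w.im| < y1).trans h1)).differentiableWithinAt)
      (fun w hw => by
        rw [zero_mul, Real.exp_zero, mul_one]
        refine (hE b c x w (by linarith) (abs_le.2 ⟨by have := hw.1; linarith, by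
          have := hw.2; linarith⟩)).trans ?_
        exact mul_le_of_le_one_right (mul_nonneg hC hS) (WL_le_one _ _))
      (w := y) ⟨by have := (abs_le.1 hy').1; linarith, by have := (abs_le.1 hy').2; linarith⟩
    have e1 : ∀ p : Bool × Bool, p ≠ (b, c) → (fun q => QA X y1 (p, q) b x * QB y1 (p, q) c y) =
        fun _ => 0 := by
      intro p hp
      funext q
      unfold QA QB
      simp only []
      by_cases hb : b = p.1
      · by_cases hc : c = p.2
        · exact absurd (Prod.ext hb.symm hc.symm) hp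
        · rw [if_neg hc, mul_zero]
      · rw [if_neg hb, zero_mul]
    have e2 : (fun q => QA X y1 ((b, c), q) b x * QB y1 ((b, c), q) c y) =
        fun q => AE (EL X b c) (-y1) y1 q x * BE 1 (-y1) y1 q y := by
      funext q
      unfold QA QB
      simp
    have i3 : Integrable (fun q => QA X y1 q b x * QB y1 q c y) qm := by
      rw [integrable_qm]
      intro p
      by_cases hpb : p = (b, c)
      · rw [hpb, e2]
        exact i1
      · rw [e1 p hpb]
        exact integrable_zero _ _ _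
    rw [integral_qm i3, Finset.sum_eq_single (b, c), e2, ← i2]
    · intro p _ hpb
      rw [e1 p hpb, integral_zero]
    · intro hn
      exact absurd (Finset.mem_univ _) hn
  · intro b c x y hx hy
    have hx' : |x.im| ≤ y0 := hx
    have hy' : |y.im| ≤ y0 := hy
    refine EL_symm X b c ?_
    rw [sub_im]
    have := abs_sub x.im y.im
    linarith
  · intro b x _
    exact ((QA_measurable hX.m y1 b).comp (measurable_id.prodMk measurable_const)).aestronglyMeasurable
  · intro b x _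
    exact ((QB_measurable y1 b).comp (measurable_id.prodMk measurable_const)).aestronglyMeasurable
  · intro b
    have hr : Measurable fun p : QI4 × ℝ => rS ρ b p.2 := hρm.comp measurable_snd
    refine (hr.mul ((QA_measurable hX.m y1 b).comp (measurable_fst.prodMk
      (Complex.measurable_ofReal.comp measurable_snd)))).aestronglyMeasurable
  · intro b
    have hr : Measurable fun p : QI4 × ℝ => rS ρ b p.2 := hρm.comp measurable_snd
    refine (hr.mul ((QB_measurable y1 b).comp (measurable_fst.prodMk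
      (Complex.measurable_ofReal.comp measurable_snd)))).aestronglyMeasurable
  · intro q b x hx
    rw [mul_one]
    exact hA q b x ((show |x.im| ≤ y0 from hx).trans h01.le)
  · intro q b x hx
    rw [mul_one]
    exact QB_le h q b hx
  · have := (integrable_WL_qm hL (C * S)).mul_const (cE 1 (y1 - y0))
    exact this
  · exact fun q => qa_nonneg hC hS q
  · exact fun _ => (cE_pos one_pos hθ hsin).le
  · intro b
    simp only [mul_one]
    exact hρ.norm
  · intro b
    simp only [mul_one]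
    exact hρ.norm
  · intro b u _
    show |(eR u).im| ≤ y0
    unfold eR
    simp [h.h0]

/-! ### the product part -/

/-- the field with the signs of the species -/
def fX (X : Bool → ℂ → ℂ) (b : Bool) (z : ℂ) : ℂ := -2 * eps b * X b z

/-- the plateau function with the signs of the species -/
def gT2 (b : Bool) (z : ℂ) : ℂ := eps b * tgh z

theorem norm_tgh_le {z : ℂ} (hz : |z.im| ≤ l) : ‖tgh z‖ ≤ 1 + 2 / NUMF.r := by
  have hr := NUMF.r_pos
  have hb : ∀ w : ℂ, |w.im| ≤ l → 0 ≤ w.re → ‖tgh w‖ ≤ 1 + 2 / NUMF.r := by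
    intro w hw h0
    have h1 := one_sub_tgh hw h0
    have h2 : Real.exp (-(4 * |w.re|)) ≤ 1 := Real.exp_le_one_iff.2 (by
      have := abs_nonneg w.re
      linarith)
    have h3 : 2 / NUMF.r * Real.exp (-(4 * |w.re|)) ≤ 2 / NUMF.r :=
      mul_le_of_le_one_right (by positivity) h2
    calc ‖tgh w‖ = ‖1 - (1 - tgh w)‖ := by ring_nf
      _ ≤ ‖(1 : ℂ)‖ + ‖1 - tgh w‖ := norm_sub_le _ _
      _ ≤ 1 + 2 / NUMF.r := by rw [norm_one]; linarith
  rcases le_total 0 z.re with h | h
  · exact hb z hz h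
  · have := hb (-z) (by rwa [neg_im, abs_neg]) (by rw [neg_re]; linarith)
    rwa [tgh_neg, norm_neg] at this

theorem aC_split (X : Bool → ℂ → ℂ) (b c : Bool) {z w : ℂ} (h : |(z - w).im| < l) :
    aC X b c z w = EL X b c z w + (fX X b z * gT2 c w + gT2 b z * fX X c w) := by
  rw [aC_EL X b c h]
  unfold fX gT2
  ring

/-- **the quadratic statistic of a field** -/
theorem nuQ_field {y0 y1 b1 S L : ℝ} (h : YOk y0 y1 b1) (hS : 0 ≤ S) (hL : 0 ≤ L)
    {X : Bool → ℂ → ℂ} (hX : XBd b1 S L X)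
    {ρ : ℂ → ℂ} (hρ : Integrable fun u : ℝ => ρ u) (hρm : Measurable fun u : ℝ => ρ u)
    {ι : Type} [Fintype ι] (sp : ι → Bool) {z : ι → ℂ} (hz : ∀ i, |(z i).im| ≤ y0) :
    Integrable (fun q => NX.nuL eR sp (rS ρ) (QA X y1 q) z * NX.nuL eR sp (rS ρ) (QB y1 q) z) qm ∧
    NX.nuQ eR sp (rS ρ) (aC X) z = NX.nuL eR sp (rS ρ) (fX X) z * NX.nuL eR sp (rS ρ) gT2 z +
      (1 / 2) * ∫ q, NX.nuL eR sp (rS ρ) (QA X y1 q) z * NX.nuL eR sp (rS ρ) (QB y1 q) z ∂qm := by
  obtain ⟨C, hC, hA⟩ := QA_le h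
  obtain ⟨C', hC', hE⟩ := EL_le (b0 := y1) (b1 := b1) h.pos.le h.h1 (by
    have := h.h1; have := h.hl; linarith)
  have h01 := h.h01
  have h1 := h.h1
  have h2 := h.hl
  have hCm : C ≤ max C C' := le_max_left _ _
  have hCm' : C' ≤ max C C' := le_max_right _ _
  have R := prep_EL h hS hL hX (C := max C C') (le_max_of_le_left hC)
    (fun q b z hz => (hA S L X hS hX q b z hz).trans (by
      unfold qa
      have := (WL_pos L q.2.2).le
      gcongr))
    (fun b c z w hz hw => (hE S L X hS hX b c z w hz hw).trans (by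
      have := (WL_pos L w.re).le
      gcongr)) hρ hρm
  obtain ⟨i1, i2⟩ := nuQ_int R sp (z := z) hz
  refine ⟨i1, ?_⟩
  set D : Bool → Set ℂ := fun _ : Bool => {z : ℂ | |z.im| ≤ y0} with hD
  have he : ∀ b u, rS ρ b u ≠ 0 → eR u ∈ D b := R.he
  have hm : ∀ b c x, x ∈ D b → AEStronglyMeasurable (fun u => EL X b c x (eR u) * rS ρ c u) volume := by
    intro b c x _
    have h3 : Measurable fun u : ℝ => EL X b c x (u : ℂ) := by
      have h4 := (EL_measurable hX.m b c).comp
        (measurable_const (a := x) |>.prodMk Complex.measurable_ofReal)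
      exact h4
    exact (h3.mul hρm).aestronglyMeasurable
  have q1 := R.qid hm
  have hfi : ∀ b, Integrable fun u => rS ρ b u * fX X b (eR u) := by
    intro b
    have h3 : Measurable fun u : ℝ => fX X b (u : ℂ) :=
      ((hX.m b).comp Complex.measurable_ofReal).const_mul _
    refine (hρ.norm.mul_const (2 * S)).mono' (hρm.mul h3).aestronglyMeasurable
      (Filter.Eventually.of_forall fun u => ?_)
    rw [norm_mul]
    refine mul_le_mul_of_nonneg_left ?_ (norm_nonneg _)
    unfold fX eR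
    rw [norm_mul, norm_mul, norm_eps, norm_neg]
    have h4 := hX.bd b (u : ℂ) (by simp; linarith [h.pos])
    have h5 := mul_le_of_le_one_right hS (WL_le_one L (u : ℂ).re)
    have h6 : ‖(2 : ℂ)‖ = 2 := by simp
    rw [h6]
    linarith
  have hgi : ∀ b, Integrable fun u => rS ρ b u * gT2 b (eR u) := by
    intro b
    have h3 : Measurable fun u : ℝ => gT2 b (u : ℂ) :=
      (tgh_measurable.comp Complex.measurable_ofReal).const_mul _
    refine (hρ.norm.mul_const (1 + 2 / NUMF.r)).mono' (hρm.mul h3).aestronglyMeasurable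
      (Filter.Eventually.of_forall fun u => ?_)
    rw [norm_mul]
    refine mul_le_mul_of_nonneg_left ?_ (norm_nonneg _)
    unfold gT2 eR
    rw [norm_mul, norm_eps, one_mul]
    exact norm_tgh_le (by simp; linarith [h.pos])
  have q2 : QID D eR (rS ρ) (fun b c s u => fX X b s * gT2 c u + gT2 b s * fX X c u) :=
    (QI.prod hfi hgi).qid
  have e1 : NX.nuQ eR sp (rS ρ) (aC X) z =
      NX.nuQ eR sp (rS ρ) (fun b c s u => EL X b c s u + (fX X b s * gT2 c u + gT2 b s * fX X c u)) z := by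
    rw [← nuQ_cD he _ hz, ← nuQ_cD he (fun b c s u => EL X b c s u + (fX X b s * gT2 c u + gT2 b s * fX X c u)) hz]
    congr 1
    funext b c x y
    unfold cD
    split_ifs with hxy
    · refine aC_split X b c ?_
      have hx : |x.im| ≤ y0 := hxy.1
      have hy : |y.im| ≤ y0 := hxy.2
      rw [sub_im]
      have := abs_sub x.im y.im
      linarith
    · rfl
  rw [e1, nuQ_addD sp he q1 q2 hz, nuQ_prod sp hfi hgi, i2]
  ring

/-- **bound by the moduli** -/
theorem enorm_nuQ_field {y0 y1 b1 S L : ℝ} (h : YOk y0 y1 b1) (hS : 0 ≤ S) (hL : 0 ≤ L)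
    {X : Bool → ℂ → ℂ} (hX : XBd b1 S L X)
    {ρ : ℂ → ℂ} (hρ : Integrable fun u : ℝ => ρ u) (hρm : Measurable fun u : ℝ => ρ u)
    {ι : Type} [Fintype ι] (sp : ι → Bool) {z : ι → ℂ} (hz : ∀ i, |(z i).im| ≤ y0) :
    ‖NX.nuQ eR sp (rS ρ) (aC X) z‖ₑ ≤ ‖NX.nuL eR sp (rS ρ) (fX X) z‖ₑ * ‖NX.nuL eR sp (rS ρ) gT2 z‖ₑ +
      ∫⁻ q, ‖NX.nuL eR sp (rS ρ) (QA X y1 q) z‖ₑ * ‖NX.nuL eR sp (rS ρ) (QB y1 q) z‖ₑ ∂qm := by
  obtain ⟨-, e⟩ := nuQ_field h hS hL hX hρ hρm sp hz
  rw [e]
  refine (enorm_add_le _ _).trans ?_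
  rw [enorm_mul, enorm_mul]
  refine add_le_add le_rfl ?_
  have h1 : ‖(1 / 2 : ℂ)‖ₑ ≤ 1 := by
    rw [← ofReal_norm]
    refine ENNReal.ofReal_le_one.2 ?_
    norm_num
  calc ‖(1 / 2 : ℂ)‖ₑ * ‖∫ q, NX.nuL eR sp (rS ρ) (QA X y1 q) z * NX.nuL eR sp (rS ρ) (QB y1 q) z ∂qm‖ₑ
      ≤ 1 * ∫⁻ q, ‖NX.nuL eR sp (rS ρ) (QA X y1 q) z * NX.nuL eR sp (rS ρ) (QB y1 q) z‖ₑ ∂qm :=
        mul_le_mul' h1 (enorm_integral_le_lintegral_enorm _)
    _ = _ := by
        rw [one_mul]
        refine lintegral_congr fun q => ?_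
        rw [enorm_mul]

end PB
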