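import Pool.Agent.PB.TRsB
import Pool.Agent.PB.CutEps
import Pool.Agent.PB.WardFF

/-!
# Plan B, (TR), s-path: regularity of the family `Z e^{s D}`

`DOk D D1 δ B`: the logarithms `D s none` of the quanta are analytic and bounded by `B` in the strip
`Ks δ`, with the derivative `D1`.
* `QOk.expZ`, `LogD.expZ`, `DecZ.expZ`, `ZOk.expZ`, `OneC.expZ`: the hypotheses of the class formula, of
  the curves, of the second Ward identity, of the bounds for `expZ Z D s` from those of `Z`;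
* `FA_expZ_le`: `FA (expZ Z D s) Ψ ≤ e^{|s| C} FA Z Ψ` for a bounded statistic, `FA_expZ_lt`.
-/

set_option autoImplicit false
set_option linter.unusedSectionVars false

noncomputable section

open Complex MeasureTheory Finset
open scoped ENNReal

namespace PBF

open NUO NUP1 NUCR NUP1S NUP1S.Ab NUP1S.AbC NUGC

variable {Z D : Bool → Option O3 → ℂ → ℂ} {P : NUO.Par} {δ κ κ' x0 : ℝ} {Q : ℤ}

theorem norm_exp_mul_le (s : ℂ) {d : ℂ} {B : ℝ} (h : ‖d‖ ≤ B) :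
    ‖Complex.exp (s * d)‖ ≤ Real.exp (‖s‖ * B) := by
  rw [norm_exp]
  refine Real.exp_le_exp.2 ((re_le_norm _).trans ?_)
  rw [norm_mul]
  exact mul_le_mul_of_nonneg_left h (norm_nonneg _)

theorem bdd_exp {K : Set ℝ} {r : ℝ} {f g : ℂ → ℂ} (hf : Bdd K r f) {B : ℝ}
    (hg : ∀ z : ℂ, z.re ∈ K → ‖g z‖ ≤ B) (s : ℂ) :
    Bdd K r fun z => f z * Complex.exp (s * g z) := by
  obtain ⟨C, hC, h⟩ := hf
  refine ⟨C * Real.exp (‖s‖ * B), by positivity, fun z hz => ?_⟩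
  rw [norm_mul]
  calc _ ≤ (C * Real.exp (r * |z.im|)) * Real.exp (‖s‖ * B) :=
        mul_le_mul (h z hz) (norm_exp_mul_le s (hg z hz)) (norm_nonneg _)
          ((norm_nonneg _).trans (h z hz))
    _ = _ := by ring

/-- the logarithms of the quanta are analytic and bounded in the strip -/
structure DOk (D : Bool → Option O3 → ℂ → ℂ) (D1 : Bool → ℂ → ℂ) (δ B : ℝ) : Prop where
  m : ∀ s, Measurable (D s none)
  m1 : ∀ s, Measurable (D1 s)
  d : ∀ s (u : ℂ), u.re ∈ Ks δ → HasDerivAt (D s none) (D1 s u) u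
  b : ∀ s (u : ℂ), u.re ∈ Ks δ → ‖D s none u‖ ≤ B
  b1 : ∀ s (u : ℂ), u.re ∈ Ks δ → ‖D1 s u‖ ≤ B

theorem QOk.expZ' (h : QOk Z δ κ Q) (hm : ∀ s, Measurable (D s none))
    (hd : ∀ s (u : ℂ), u.re ∈ Ks δ → DifferentiableAt ℂ (D s none) u) {B : ℝ}
    (hB : ∀ s (u : ℂ), u.re ∈ Ks δ → ‖D s none u‖ ≤ B) (t : ℂ) : QOk (expZ Z D t) δ κ Q where
  kpos := h.kpos
  m s := (h.m s).mul (Complex.measurable_exp.comp ((hm s).const_mul t))
  d s u hu := (h.d s u hu).mul ((hd s u hu).const_mul t).cexp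
  b s := bdd_exp (h.b s) (hB s) t

theorem QOk.expZ (h : QOk Z δ κ Q) {D1 : Bool → ℂ → ℂ} {B : ℝ} (hD : DOk D D1 δ B) (t : ℂ) :
    QOk (expZ Z D t) δ κ Q :=
  h.expZ' hD.m (fun s u hu => (hD.d s u hu).differentiableAt) hD.b t

/-- **log derivatives of the family** -/
theorem LogD.expZ {LZ : Bool → ℂ → ℂ} {LP : (r : ℕ) → (Fin r → Xo) → Bool → ℂ → ℂ}
    (h : LogD Z P δ LZ LP) {D1 : Bool → ℂ → ℂ} {B : ℝ} (hD : DOk D D1 δ B) (t : ℂ) :
    LogD (expZ Z D t) P δ (fun s z => LZ s z + t * D1 s z) LP where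
  dZ s z hz := by
    have h1 := (h.dZ s z hz).mul (((hD.d s z hz).const_mul t).cexp)
    refine h1.congr_deriv ?_
    unfold PBF.expZ
    ring
  mZ s := (h.mZ s).add ((hD.m1 s).const_mul t)
  bZ := by
    obtain ⟨A, hA⟩ := h.bZ
    refine ⟨A + ‖t‖ * B, fun s z hz => (norm_add_le _ _).trans (add_le_add (hA s z hz) ?_)⟩
    rw [norm_mul]
    exact mul_le_mul_of_nonneg_left (hD.b1 s z hz) (norm_nonneg _)
  dP := h.dP
  mP := h.mP
  bP := h.bP

/-- boundedness of the logarithms on the lines of the class formula -/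
structure DLn (D : Bool → Option O3 → ℂ → ℂ) (P : NUO.Par) (x0 : ℝ) : Prop where
  A : ∀ s, BdOn (Set.Icc x0 NUP1.l) (D s none)
  L : ∀ s, BdOn {(1 - P.jL) * NUP1.l} (D s (some .L))
  T : ∀ s, BdOn {-(1 / 2 * NUP1.l)} (D s (some .T))
  S : ∀ s r i, i < r → BdOn {lnO P r i .S} (D s (some .S))

theorem DecZ.expZ {q0 : ℝ} (h : PBC.DecZ Z P x0 κ q0) (hD : DLn D P x0) (t : ℂ) :
    PBC.DecZ (expZ Z D t) P x0 κ q0 where
  A s := (h.A s).exp (hD.A s) t
  L s := (h.L s).exp (hD.L s) t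
  T s := (h.T s).exp (hD.T s) t
  S s r i hi := (h.S s r i hi).exp (hD.S s r i hi) t

theorem ZOk.expZ (h : PBI.ZOk Z P x0 κ κ' δ) (hm : ∀ s k, Measurable (D s k))
    (hd : ∀ s, ∀ u : ℂ, x0 ≤ u.re → u.re ≤ NUP1.l → DifferentiableAt ℂ (D s none) u)
    (hL : DLn D P x0) (hd' : ∀ s (u : ℂ), u.re ∈ Ks δ → DifferentiableAt ℂ (D s none) u) {B : ℝ}
    (hB : ∀ s (u : ℂ), u.re ∈ Ks δ → ‖D s none u‖ ≤ B) (t : ℂ) :
    PBI.ZOk (expZ Z D t) P x0 κ κ' δ where
  m s k := (h.m s k).mul (Complex.measurable_exp.comp ((hm s k).const_mul t))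
  d s u h1 h2 := (h.d s u h1 h2).mul ((hd s u h1 h2).const_mul t).cexp
  dec := DecZ.expZ h.dec hL t
  q := h.q.expZ' (fun s => hm s none) hd' hB t

/-! ### one body data -/

/-- one body data with the moduli of the family -/
def OB.mulR (B : OB) (g : Bool → ℂ → ℝ) : OB where
  R a u := B.R a u * g a u
  φ := B.φ
  φ0 := B.φ0

/-- **bounds of the family by one body data**; `g` = modulus of the factor of a quantum -/
theorem OneC.expZ {B : OB} {ep : ℝ} {E : Set ℝ} (h : OneC Z B P ep κ x0 Q E)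
    (hm : ∀ s k, Measurable (D s k)) {g : Bool → ℂ → ℝ} (hg : ∀ s u, 0 ≤ g s u) (t : ℂ)
    (hL : ∀ s y, y ∉ E → ‖Complex.exp (t * D s (some .L) (posL P.jL y))‖ ≤ g s (posL P.jL y))
    (hT : ∀ s y, y ∉ E → ‖Complex.exp (t * D s (some .T) (posT y))‖ ≤
      g s (posT y) * g s (posT y - NUP1.l))
    (hS : ∀ s (O : ℕ) (e y : ℝ), y ∉ E → P.e ≤ e → e ≤ P.e + P.d O →
      ‖Complex.exp (t * D s (some .S) (posS e y))‖ ≤ g s (posS e y) * g s (posS e y - NUP1.l))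
    (hV : ∀ s (O : ℕ) (e : ℝ), P.e ≤ e → e ≤ P.e + P.d O → ∀ u : ℂ,
      |u.re - (1 - e) * NUP1.l| ≤ NUP1.l * P.d O / (8 * (O + 1)) →
      ‖Complex.exp (t * D s none u)‖ ≤ g s u)
    (hA : ∀ s (u : ℂ), u.re ∈ Ks (ep / 4) → ‖Complex.exp (t * D s none u)‖ ≤ g s u)
    (hd : ∀ s (u : ℂ), x0 ≤ u.re → u.re ≤ (1 + ep / 4) * NUP1.l →
      DifferentiableAt ℂ (D s none) u) {A : ℝ}
    (hb : ∀ s (u : ℂ), u.re ∈ Set.Icc x0 ((1 + ep / 4) * NUP1.l) → ‖D s none u‖ ≤ A) :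
    OneC (expZ Z D t) (OB.mulR B g) P ep κ x0 Q E where
  kpos := h.kpos
  nn a u := mul_nonneg (h.nn a u) (hg a u)
  nul := h.nul
  meas s k := (h.meas s k).mul (Complex.measurable_exp.comp ((hm s k).const_mul t))
  L s y hy := by
    show ‖Z s (some .L) _ * Complex.exp (t * D s (some .L) _)‖ ≤
      B.R s _ * g s _ * ‖B.φ _‖
    rw [norm_mul]
    calc _ ≤ (B.R s (posL P.jL y) * ‖B.φ (posL P.jL y)‖) * g s (posL P.jL y) :=
          mul_le_mul (h.L s y hy) (hL s y hy) (norm_nonneg _)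
            (mul_nonneg (h.nn _ _) (norm_nonneg _))
      _ = _ := by ring
  T s y hy := by
    show ‖Z s (some .T) _ * Complex.exp (t * D s (some .T) _)‖ ≤
      (B.R s _ * g s _ * (B.R s _ * g s _)) * ‖B.φ _ * B.φ _ - B.φ0 _‖
    rw [norm_mul]
    calc _ ≤ ((B.R s (posT y) * B.R s (posT y - NUP1.l)) *
            ‖B.φ (posT y) * B.φ (posT y - NUP1.l) - B.φ0 (posT y)‖) *
            (g s (posT y) * g s (posT y - NUP1.l)) :=
          mul_le_mul (h.T s y hy) (hT s y hy) (norm_nonneg _)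
            (mul_nonneg (mul_nonneg (h.nn _ _) (h.nn _ _)) (norm_nonneg _))
      _ = _ := by ring
  S s O e y hy h1 h2 := by
    show ‖Z s (some .S) _ * Complex.exp (t * D s (some .S) _)‖ ≤
      (B.R s _ * g s _ * (B.R s _ * g s _)) * ‖B.φ0 _‖
    rw [norm_mul]
    calc _ ≤ ((B.R s (posS e y) * B.R s (posS e y - NUP1.l)) * ‖B.φ0 (posS e y)‖) *
            (g s (posS e y) * g s (posS e y - NUP1.l)) :=
          mul_le_mul (h.S s O e y hy h1 h2) (hS s O e y hy h1 h2) (norm_nonneg _)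
            (mul_nonneg (mul_nonneg (h.nn _ _) (h.nn _ _)) (norm_nonneg _))
      _ = _ := by ring
  V s O e h1 h2 u hu := by
    show ‖Z s none u * Complex.exp (t * D s none u)‖ ≤ B.R s u * g s u * ‖B.φ u‖
    rw [norm_mul]
    calc _ ≤ (B.R s u * ‖B.φ u‖) * g s u :=
          mul_le_mul (h.V s O e h1 h2 u hu) (hV s O e h1 h2 u hu) (norm_nonneg _)
            (mul_nonneg (h.nn _ _) (norm_nonneg _))
      _ = _ := by ring
  A s u hu := by
    show ‖Z s none u * Complex.exp (t * D s none u)‖ ≤ B.R s u * g s u * ‖B.φ u‖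
    rw [norm_mul]
    calc _ ≤ (B.R s u * ‖B.φ u‖) * g s u :=
          mul_le_mul (h.A s u hu) (hA s u hu) (norm_nonneg _)
            (mul_nonneg (h.nn _ _) (norm_nonneg _))
      _ = _ := by ring
  x1 := h.x1
  dA s u h1 h2 := (h.dA s u h1 h2).mul ((hd s u h1 h2).const_mul t).cexp
  bA s := bdd_exp (h.bA s) (hb s) t

/-! ### the functional with moduli -/

variable {n n' : ℕ} {η η' : Crs} {r : ℕ}

theorem trA_expZ_le {C : ℝ} (t : ℂ) (Ψ : Ins) (O : Fin r → Xo)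
    (h : chgO O true ≤ n → chgO O false ≤ n' → ∀ x,
      ‖stA D P η r O (n - chgO O true) (n' - chgO O false) x‖ ≤ C) :
    trA (expZ Z D t) P n n' η η' Ψ r O ≤
      ENNReal.ofReal (Real.exp (‖t‖ * C)) * trA Z P n n' η η' Ψ r O := by
  rw [trA_expZ]
  unfold trA
  split_ifs with hc
  · have e : ∀ x, ‖gK (gF Z P O) (η r O) (η' r O) (n - chgO O true) (n' - chgO O false) x‖ₑ *
        ‖insE D P η t Ψ r O (n - chgO O true) (n' - chgO O false) x‖ₑ ≤
        ENNReal.ofReal (Real.exp (‖t‖ * C)) * (‖gK (gF Z P O) (η r O) (η' r O) (n - chgO O true)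
          (n' - chgO O false) x‖ₑ * ‖Ψ r O (n - chgO O true) (n' - chgO O false) x‖ₑ) := by
      intro x
      unfold insE
      rw [enorm_mul, ← mul_assoc, mul_comm (ENNReal.ofReal _), mul_assoc, mul_assoc]
      refine mul_le_mul' le_rfl ?_
      rw [mul_comm]
      refine mul_le_mul' le_rfl ?_
      rw [← ofReal_norm]
      exact ENNReal.ofReal_le_ofReal (norm_exp_mul_le t (h hc.1 hc.2 x))
    calc _ ≤ ‖wK Z P O‖ₑ * ((((n - chgO O true).factorial : ℝ≥0∞) *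
          (n' - chgO O false).factorial)⁻¹ * ∫⁻ x, ENNReal.ofReal (Real.exp (‖t‖ * C)) *
            (‖gK (gF Z P O) (η r O) (η' r O) (n - chgO O true) (n' - chgO O false) x‖ₑ *
              ‖Ψ r O (n - chgO O true) (n' - chgO O false) x‖ₑ)) := by
          exact mul_le_mul' le_rfl (mul_le_mul' le_rfl (lintegral_mono fun x => e x))
      _ = _ := by
          rw [lintegral_const_mul' _ _ ENNReal.ofReal_ne_top]
          ring
  · simp

/-- **the mass of the family**, bounded statistic -/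
theorem FA_expZ_le {C : ℝ} (t : ℂ) (Ψ : Ins) (h : ∀ r ≤ n + n', ∀ O : Fin r → Xo,
      chgO O true ≤ n → chgO O false ≤ n' → ∀ x,
      ‖stA D P η r O (n - chgO O true) (n' - chgO O false) x‖ ≤ C) :
    FA (expZ Z D t) P n n' η η' Ψ ≤
      ENNReal.ofReal (Real.exp (‖t‖ * C)) * FA Z P n n' η η' Ψ := by
  unfold FA
  rw [Finset.mul_sum]
  refine Finset.sum_le_sum fun r hr => ?_
  rw [← mul_assoc, mul_comm (ENNReal.ofReal _), mul_assoc]
  refine mul_le_mul' le_rfl ?_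
  rw [← lintegral_const_mul' _ _ ENNReal.ofReal_ne_top]
  exact lintegral_mono fun O => trA_expZ_le t Ψ O
    (h r (Nat.lt_succ_iff.1 (Finset.mem_range.1 hr)) O)

/-- the same from bounds of the logarithms on the curve and at the objects -/
theorem FA_expZ_le' {B : ℝ} (hB0 : 0 ≤ B)
    (hq : ∀ (r : ℕ) (O : Fin r → Xo) s x, ‖D s none (NUO.pA (η r O) x)‖ ≤ B)
    (ho : ∀ (r : ℕ) (O : Fin r → Xo) i, ‖obT D P.jL (ei P O i) (rr P O i) (O i)‖ ≤ B)
    (t : ℂ) (Ψ : Ins) : FA (expZ Z D t) P n n' η η' Ψ ≤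
      ENNReal.ofReal (Real.exp (‖t‖ * (B * (2 * (n + n'))))) * FA Z P n n' η η' Ψ := by
  refine FA_expZ_le t Ψ fun r hr O h1 h2 x => ?_
  refine (norm_stA_le (η := η) (fun s y => hq r O s y) (ho r O) _ _ x).trans
    (mul_le_mul_of_nonneg_left ?_ hB0)
  have e1 : (r : ℝ) ≤ n + n' := by exact_mod_cast hr
  have e2 : ((n - chgO O true : ℕ) : ℝ) ≤ n := by exact_mod_cast Nat.sub_le _ _
  have e3 : ((n' - chgO O false : ℕ) : ℝ) ≤ n' := by exact_mod_cast Nat.sub_le _ _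
  linarith

theorem FA_expZ_lt {B : ℝ} (hB0 : 0 ≤ B)
    (hq : ∀ (r : ℕ) (O : Fin r → Xo) s x, ‖D s none (NUO.pA (η r O) x)‖ ≤ B)
    (ho : ∀ (r : ℕ) (O : Fin r → Xo) i, ‖obT D P.jL (ei P O i) (rr P O i) (O i)‖ ≤ B)
    (t : ℂ) {Ψ : Ins} (h : FA Z P n n' η η' Ψ < ⊤) : FA (expZ Z D t) P n n' η η' Ψ < ⊤ :=
  (FA_expZ_le' hB0 hq ho t Ψ).trans_lt (ENNReal.mul_lt_top ENNReal.ofReal_lt_top h)

end PBF

end
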