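import Pool.Agent.NUP1S.Obw
import Pool.Agent.NUSea.Par0

/-!
# Plan B: the force of an object on the quanta

* `KL L z = ∑ m cot (z + a l)`, `(m, a) ∈ L`; `kl same type` the list of a pair (quantum, part);
* `kls s B z`: the logarithmic derivative of the factor of the parts `B` at a quantum of species `s`
  at the position `z`; `kls1` its derivative;
* one object `x`, parts `parts (9/4) e ρ x`, `1/4 ≤ e ≤ 3/10`, `0 ≤ ρ ≤ l/100`, any satellite angle,
  in the strip `InQ z` (`4/5 l ≤ Re z ≤ 7/5 l`): **`kls_lim`**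
  `‖I kls - 2 (chg s - chg (!s)) sgn (Im z - ht)‖ ≤ CO e^{-2|Im z - ht|}`, `kls_le`, `kls1_le`
  (the derivative decays), `hasDerivAt_parts`, `dA_kls` (coordinate `u = l + I w`);
* configuration: `kO P O i s z` the force of the object `i`, `kP P O s z` the sum;
  **`hasDerivAt_potC`**, `kO_lim`, `kO_le`, `kO1_le`, `kP_le` for `PO P O`; `PO_par0`.
-/

set_option autoImplicit false
set_option linter.unusedSectionVars false

noncomputable section

open Complex MeasureTheory Finset

namespace PBOR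

open NUP1 NUO NUP1S NUP1S.Ab

/-! ### sums of cotangents -/

/-- `∑ m cot (z + a l)` -/
def KL (L : List (ℤ × ℤ)) (z : ℂ) : ℂ := (L.map fun p => (p.1 : ℂ) * cot (z + p.2 * l)).sum

/-- `∏ sin (z + a l) ^ m` -/
def SP (L : List (ℤ × ℤ)) (z : ℂ) : ℂ := (L.map fun p => sin (z + p.2 * l) ^ p.1).prod

/-- no zero and no pole at `z` -/
def OkL (L : List (ℤ × ℤ)) (z : ℂ) : Prop := ∀ p ∈ L, sin (z + p.2 * l) ≠ 0

theorem hasDerivAt_sinpow (a m : ℤ) {z : ℂ} (h : sin (z + a * l) ≠ 0) :
    HasDerivAt (fun z : ℂ => sin (z + a * l) ^ m)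
      (sin (z + a * l) ^ m * ((m : ℂ) * cot (z + a * l))) z := by
  have h1 : HasDerivAt (fun z : ℂ => z + a * l) 1 z := (hasDerivAt_id z).add_const _
  have h2 := h1.csin
  have h3 := (hasDerivAt_zpow m (sin (z + a * l)) (Or.inl h)).comp z h2
  refine h3.congr_deriv ?_
  rw [cot_eq_cos_div_sin, zpow_sub_one₀ h]
  field_simp

theorem hasDerivAt_SP (L : List (ℤ × ℤ)) {z : ℂ} (h : OkL L z) :
    HasDerivAt (SP L) (SP L z * KL L z) z := by
  induction L with
  | nil =>
    unfold SP KL
    simp only [List.map_nil, List.prod_nil, List.sum_nil, mul_zero]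
    exact hasDerivAt_const _ _
  | cons p L ih =>
    have h1 := hasDerivAt_sinpow p.2 p.1 (h p List.mem_cons_self)
    have h2 := ih fun q hq => h q (List.mem_cons_of_mem _ hq)
    have h3 := h1.mul h2
    have e : SP (p :: L) = (fun z : ℂ => sin (z + p.2 * l) ^ p.1) * SP L := by
      funext z
      simp [SP]
    rw [e]
    refine h3.congr_deriv ?_
    simp only [KL, List.map_cons, List.sum_cons, Pi.mul_apply]
    ring

/-- the list of a pair (quantum, part): `same` = same species, `ty` = type of the part -/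
def kl : Bool → Bool → List (ℤ × ℤ)
  | true, false => [(2, 0), (1, 2), (1, -2), (-1, 1), (-1, -1)]
  | true, true => [(1, 0), (1, 1), (1, -2), (1, 3)]
  | false, false => [(2, 4), (-2, 3), (-2, -3)]
  | false, true => [(2, 4), (-2, 3), (-2, -3), (2, 5), (-2, 4), (-2, -2)]

theorem sin_4l (z : ℂ) : sin (z + 4 * l) = cos z := by
  have : (4 * l : ℂ) = Real.pi / 2 := by unfold NUP1.l; push_cast; ring
  rw [this, sin_add_pi_div_two]

theorem q_SP (z : ℂ) : q z = -1 * SP (kl true false) z := by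
  unfold q SP kl
  simp only [List.map_cons, List.map_nil, List.prod_cons, List.prod_nil]
  push_cast
  simp only [zero_mul, add_zero, neg_mul, one_mul, zpow_neg, zpow_one, mul_one]
  rw [show (2 : ℤ) = ((2 : ℕ) : ℤ) by norm_num, zpow_natCast]
  rw [← sub_eq_add_neg, ← sub_eq_add_neg]
  rw [neg_div, div_eq_mul_inv, mul_inv]
  ring

theorem q1_SP (z : ℂ) : q1 z = 1 * SP (kl true true) z := by
  unfold q1 SP kl
  simp only [List.map_cons, List.map_nil, List.prod_cons, List.prod_nil]
  push_cast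
  simp only [zero_mul, add_zero, neg_mul, one_mul, zpow_one, mul_one]
  rw [← sub_eq_add_neg]
  ring

theorem qg_SP (z : ℂ) : Bd.qg z = 1 * SP (kl false false) z := by
  unfold Bd.qg SP kl
  simp only [List.map_cons, List.map_nil, List.prod_cons, List.prod_nil]
  push_cast
  simp only [neg_mul, one_mul, zpow_neg, mul_one]
  rw [show (2 : ℤ) = ((2 : ℕ) : ℤ) by norm_num, zpow_natCast, zpow_natCast, zpow_natCast, sin_4l,
    ← sub_eq_add_neg, div_eq_mul_inv, mul_inv]

theorem qg2_SP (z : ℂ) : Bd.qg z * Bd.qg (z + l) = 1 * SP (kl false true) z := by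
  have e2 : SP (kl false false) (z + l) = SP [(2, 5), (-2, 4), (-2, -2)] z := by
    unfold SP kl
    simp only [List.map_cons, List.map_nil, List.prod_cons, List.prod_nil]
    push_cast
    rw [show z + l + 4 * l = z + 5 * l by ring, show z + l + 3 * l = z + 4 * l by ring,
      show z + l + -3 * l = z + -2 * l by ring]
  have e3 : SP (kl false true) z = SP (kl false false) z * SP [(2, 5), (-2, 4), (-2, -2)] z := by
    unfold SP kl
    rw [← List.prod_append, ← List.map_append]
    rfl
  rw [qg_SP, qg_SP, e2, e3]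
  ring

/-- the pair function of a quantum and a part is a product of sines -/
theorem pp_SP (s : Bool) (p : Part) : ∃ c : ℂ, c ≠ 0 ∧ ∀ z, pp (s, false, z) p =
    c * SP (kl (s == p.1) p.2.1) (z - p.2.2) := by
  obtain ⟨s', ty, w⟩ := p
  by_cases h : s = s'
  · subst h
    cases ty
    · refine ⟨-1, by norm_num, fun z => ?_⟩
      simp only [pp, if_pos, beq_self_eq_true, Kn.pz]
      exact q_SP _
    · refine ⟨1, by norm_num, fun z => ?_⟩
      simp only [pp, if_pos, beq_self_eq_true, Kn.pz]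
      exact q1_SP _
  · have hb : (s == s') = false := by simpa using h
    cases ty
    · refine ⟨1, by norm_num, fun z => ?_⟩
      simp only [pp, if_neg h, hb, Kn.cz]
      exact qg_SP _
    · refine ⟨1, by norm_num, fun z => ?_⟩
      simp only [pp, if_neg h, hb, Kn.cz]
      exact qg2_SP _

/-- logarithmic derivative of the pair function of a quantum of species `s` at `z` and a part -/
def kpt (s : Bool) (p : Part) (z : ℂ) : ℂ := KL (kl (s == p.1) p.2.1) (z - p.2.2)

/-- the quantum at `z` does not meet a zero or a pole of the part -/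
def OkK (s : Bool) (p : Part) (z : ℂ) : Prop := OkL (kl (s == p.1) p.2.1) (z - p.2.2)

theorem hasDerivAt_pp (s : Bool) (p : Part) {z : ℂ} (h : OkK s p z) :
    HasDerivAt (fun z => pp (s, false, z) p) (pp (s, false, z) p * kpt s p z) z := by
  obtain ⟨c, hc, he⟩ := pp_SP s p
  have h1 : HasDerivAt (fun z : ℂ => z - p.2.2) 1 z := (hasDerivAt_id z).sub_const _
  have h2 := ((hasDerivAt_SP _ h).comp z h1).const_mul c
  have e : (fun z => pp (s, false, z) p) = fun z => c * (SP (kl (s == p.1) p.2.1) ∘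
      fun z : ℂ => z - p.2.2) z := funext fun z => he z
  rw [e]
  refine h2.congr_deriv ?_
  rw [he z]
  unfold kpt
  ring

/-- logarithmic derivative of a list of parts -/
def kls (s : Bool) (B : List Part) (z : ℂ) : ℂ := (B.map fun p => kpt s p z).sum

theorem hasDerivAt_list (s : Bool) (B : List Part) {z : ℂ} (h : ∀ p ∈ B, OkK s p z) :
    HasDerivAt (fun z => ppC [(s, false, z)] B) (ppC [(s, false, z)] B * kls s B z) z := by
  simp_rw [ppC_single]
  induction B with
  | nil =>
    simp only [List.map_nil, List.prod_nil, kls, List.sum_nil, mul_zero]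
    exact hasDerivAt_const _ _
  | cons p B ih =>
    simp only [List.map_cons, List.prod_cons, kls, List.sum_cons]
    have h1 := hasDerivAt_pp s p (h p List.mem_cons_self)
    have h2 := ih fun q hq => h q (List.mem_cons_of_mem _ hq)
    refine (h1.mul h2).congr_deriv ?_
    unfold kls
    ring

variable {r : ℕ}

/-- the force of the object `i` on a quantum of species `s` at `z` (logarithmic derivative in `z`) -/
def kO (P : Par) (O : Fin r → Xo) (i : Fin r) (s : Bool) (z : ℂ) : ℂ := kls s (cons P O i) z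

/-- the force of all objects -/
def kP (P : Par) (O : Fin r → Xo) (s : Bool) (z : ℂ) : ℂ := ∑ i, kO P O i s z

/-- **logarithmic derivative of the potential of the objects** -/
theorem hasDerivAt_potC' (P : Par) (O : Fin r → Xo) (s : Bool) {z : ℂ}
    (h : ∀ i, ∀ p ∈ cons P O i, OkK s p z) :
    HasDerivAt (potC P O s) (kP P O s z * potC P O s z) z := by
  have h1 := HasDerivAt.fun_finsetProd (u := (univ : Finset (Fin r))) (x := z)
    (f := fun i z => ppC [(s, false, z)] (cons P O i))
    (f' := fun i => ppC [(s, false, z)] (cons P O i) * kO P O i s z)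
    (fun i _ => hasDerivAt_list s _ (h i))
  have e : potC P O s = fun z => ∏ i, ppC [(s, false, z)] (cons P O i) := rfl
  rw [e]
  refine h1.congr_deriv ?_
  unfold kP
  rw [Finset.sum_mul]
  refine Finset.sum_congr rfl fun i hi => ?_
  show _ = kO P O i s z * ∏ i, ppC [(s, false, z)] (cons P O i)
  rw [smul_eq_mul, ← Finset.mul_prod_erase univ (fun i => ppC [(s, false, z)] (cons P O i)) hi]
  ring

/-! ### bounds of the cotangent -/

/-- `|sin z|` from the real part -/
theorem norm_sin_ge {c : ℝ} {z : ℂ} (hc : 0 ≤ c) (h : c ≤ |Real.sin z.re|) :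
    c * Real.cosh z.im ≤ ‖sin z‖ := by
  have e : ‖sin z‖ ^ 2 = Real.sin z.re ^ 2 * Real.cosh z.im ^ 2 +
      Real.cos z.re ^ 2 * Real.sinh z.im ^ 2 := by
    rw [← Complex.normSq_eq_norm_sq]
    conv_lhs => rw [← Complex.re_add_im z]
    rw [Complex.sin_add_mul_I, ← ofReal_sin, ← ofReal_cos, ← ofReal_sinh, ← ofReal_cosh]
    have e2 : ((Real.sin z.re : ℝ) : ℂ) * ((Real.cosh z.im : ℝ) : ℂ) +
        ((Real.cos z.re : ℝ) : ℂ) * ((Real.sinh z.im : ℝ) : ℂ) * I =
        ((Real.sin z.re * Real.cosh z.im : ℝ) : ℂ) +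
        ((Real.cos z.re * Real.sinh z.im : ℝ) : ℂ) * I := by push_cast; ring
    rw [e2, Complex.normSq_add_mul_I]
    ring
  have hC := Real.cosh_pos z.im
  apply le_of_sq_le_sq _ (norm_nonneg _)
  rw [e, mul_pow]
  have h1 : c ^ 2 ≤ Real.sin z.re ^ 2 := by
    rw [← sq_abs (Real.sin z.re)]
    exact pow_le_pow_left₀ hc h 2
  nlinarith [sq_nonneg (Real.cos z.re * Real.sinh z.im), sq_nonneg (Real.cosh z.im)]

theorem cot_add_I {z : ℂ} (h : sin z ≠ 0) : cot z + I = exp (I * z) / sin z := by
  rw [cot_eq_cos_div_sin, mul_comm I z, exp_mul_I]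
  field_simp

theorem cot_sub_I {z : ℂ} (h : sin z ≠ 0) : cot z - I = exp (-(I * z)) / sin z := by
  rw [cot_eq_cos_div_sin, show -(I * z) = -z * I by ring, exp_mul_I, cos_neg, sin_neg]
  field_simp
  ring

theorem cosh_ge' (y : ℝ) : Real.exp |y| / 2 ≤ Real.cosh y := by
  rw [← Real.cosh_abs, Real.cosh_eq]
  have := Real.exp_pos (-|y|)
  linarith

/-- sign with `sg 0 = 1` -/
def sgn (y : ℝ) : ℝ := if 0 ≤ y then 1 else -1

theorem abs_sgn (y : ℝ) : |sgn y| = 1 := by unfold sgn; split_ifs <;> simp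

/-- `I cot z` against its limits -/
theorem I_cot_lim {c : ℝ} {z : ℂ} (hc : 0 < c) (h : c ≤ |Real.sin z.re|) :
    ‖I * cot z - (sgn z.im : ℂ)‖ ≤ 2 / c * Real.exp (-(2 * |z.im|)) := by
  have h1 := norm_sin_ge hc.le h
  have h2 := cosh_ge' z.im
  have h3 : c * (Real.exp |z.im| / 2) ≤ ‖sin z‖ := (mul_le_mul_of_nonneg_left h2 hc.le).trans h1
  have hpos : 0 < c * (Real.exp |z.im| / 2) := by positivity
  have h4 : sin z ≠ 0 := by
    intro h0
    rw [h0, norm_zero] at h3
    linarith
  have key : Real.exp (-|z.im|) / (c * (Real.exp |z.im| / 2)) =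
      2 / c * Real.exp (-(2 * |z.im|)) := by
    have e : Real.exp (-(2 * |z.im|)) = Real.exp (-|z.im|) / Real.exp |z.im| := by
      rw [← Real.exp_sub]; congr 1; ring
    rw [e]
    field_simp
  unfold sgn
  split_ifs with hy
  · have e : I * cot z - ((1 : ℝ) : ℂ) = I * (cot z + I) := by
      push_cast
      linear_combination -I_sq
    rw [e, cot_add_I h4, norm_mul, norm_I, one_mul, norm_div, Complex.norm_exp]
    have e2 : (I * z).re = -|z.im| := by
      rw [abs_of_nonneg hy]
      simp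
    rw [e2, ← key]
    exact div_le_div_of_nonneg_left (Real.exp_pos _).le hpos h3
  · have e : I * cot z - ((-1 : ℝ) : ℂ) = I * (cot z - I) := by
      push_cast
      linear_combination I_sq
    rw [e, cot_sub_I h4, norm_mul, norm_I, one_mul, norm_div, Complex.norm_exp]
    have e2 : (-(I * z)).re = -|z.im| := by
      rw [abs_of_neg (lt_of_not_ge hy)]
      simp
    rw [e2, ← key]
    exact div_le_div_of_nonneg_left (Real.exp_pos _).le hpos h3

/-! ### positions -/

/-- `sin (l / 30)` -/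
def c0 : ℝ := Real.sin (l / 30)

theorem c0_pos : 0 < c0 := by
  have hl := Bd.l_pos
  have hpi := Bd.pi_eq
  exact Real.sin_pos_of_pos_of_lt_pi (by linarith) (by linarith)

theorem abs_sin_ge {x : ℝ} (k : ℤ) (h1 : 8 * k * l + l / 30 ≤ x) (h2 : x ≤ 8 * (k + 1) * l - l / 30) :
    c0 ≤ |Real.sin x| := by
  have hl := Bd.l_pos
  have hpi := Bd.pi_eq
  have e : Real.sin (x - k * Real.pi) = (-1) ^ k * Real.sin x := by
    rw [Real.sin_sub_int_mul_pi]
  have e2 : |Real.sin (x - k * Real.pi)| = |Real.sin x| := by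
    rw [e, abs_mul, abs_zpow, abs_neg, abs_one, one_zpow, one_mul]
  rw [← e2]
  have hp : Real.pi = 8 * l := by rw [hpi]
  have a1 : l / 30 ≤ x - k * Real.pi := by
    rw [hp]; linarith
  have a2 : x - k * Real.pi ≤ Real.pi - l / 30 := by
    rw [hp]; linarith
  refine le_trans ?_ (le_abs_self _)
  unfold c0
  rcases le_total (x - k * Real.pi) (Real.pi / 2) with h | h
  · exact Real.sin_le_sin_of_le_of_le_pi_div_two (by linarith) h a1
  · rw [← Real.sin_pi_sub (x - k * Real.pi)]
    exact Real.sin_le_sin_of_le_of_le_pi_div_two (by linarith) (by linarith) (by linarith)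

/-- the strip of the quanta -/
def InQ (z : ℂ) : Prop := 4 / 5 * l ≤ z.re ∧ z.re ≤ 7 / 5 * l

/-- admissible real parts of the parts -/
def OkPos (p : Part) : Prop :=
  (p.2.1 = false ∧ (p.2.2.re = -(5 / 4 * l) ∨
    (7 / 10 * l - l / 100 ≤ p.2.2.re ∧ p.2.2.re ≤ 3 / 4 * l + l / 100))) ∨
  (p.2.1 = true ∧ (p.2.2.re = -(1 / 2 * l) ∨ (-(13 / 10 * l) ≤ p.2.2.re ∧ p.2.2.re ≤ -(5 / 4 * l))))

theorem re_shift (z w : ℂ) (a : ℤ) : (z - w + a * l).re = z.re - w.re + a * l := by
  have : ((a : ℂ) * (l : ℂ)) = ((a * l : ℝ) : ℂ) := by push_cast; rfl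
  rw [add_re, sub_re, this, ofReal_re]

theorem im_shift (z w : ℂ) (a : ℤ) : (z - w + a * l).im = z.im - w.im := by
  have : ((a : ℂ) * (l : ℂ)) = ((a * l : ℝ) : ℂ) := by push_cast; rfl
  rw [add_im, sub_im, this, ofReal_im, add_zero]

theorem pos_sin {s : Bool} {p : Part} (hp : OkPos p) {z : ℂ} (hz : InQ z) :
    ∀ x ∈ kl (s == p.1) p.2.1, c0 ≤ |Real.sin (z - p.2.2 + x.2 * l).re| := by
  obtain ⟨s', ty, w⟩ := p
  obtain ⟨z1, z2⟩ := hz
  have hl := Bd.l_pos
  intro x hx
  rw [re_shift]
  rcases hp with ⟨ht, hw⟩ | ⟨ht, hw⟩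
  · simp only at ht
    subst ht
    cases hs : (s == s')
    · rw [hs] at hx
      simp only [kl, List.mem_cons, List.not_mem_nil, or_false] at hx
      rcases hx with rfl | rfl | rfl
      · rcases hw with hw | ⟨hw1, hw2⟩
        · simp only at hw ⊢
          exact abs_sin_ge 0 (by push_cast; linarith) (by push_cast; linarith)
        · simp only at hw1 hw2 ⊢
          exact abs_sin_ge 0 (by push_cast; linarith) (by push_cast; linarith)
      · rcases hw with hw | ⟨hw1, hw2⟩
        · simp only at hw ⊢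
          exact abs_sin_ge 0 (by push_cast; linarith) (by push_cast; linarith)
        · simp only at hw1 hw2 ⊢
          exact abs_sin_ge 0 (by push_cast; linarith) (by push_cast; linarith)
      · rcases hw with hw | ⟨hw1, hw2⟩
        · simp only at hw ⊢
          exact abs_sin_ge (-1) (by push_cast; linarith) (by push_cast; linarith)
        · simp only at hw1 hw2 ⊢
          exact abs_sin_ge (-1) (by push_cast; linarith) (by push_cast; linarith)
    · rw [hs] at hx
      simp only [kl, List.mem_cons, List.not_mem_nil, or_false] at hx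
      rcases hx with rfl | rfl | rfl | rfl | rfl
      · rcases hw with hw | ⟨hw1, hw2⟩
        · simp only at hw ⊢
          exact abs_sin_ge 0 (by push_cast; linarith) (by push_cast; linarith)
        · simp only at hw1 hw2 ⊢
          exact abs_sin_ge 0 (by push_cast; linarith) (by push_cast; linarith)
      · rcases hw with hw | ⟨hw1, hw2⟩
        · simp only at hw ⊢
          exact abs_sin_ge 0 (by push_cast; linarith) (by push_cast; linarith)
        · simp only at hw1 hw2 ⊢
          exact abs_sin_ge 0 (by push_cast; linarith) (by push_cast; linarith)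
      · rcases hw with hw | ⟨hw1, hw2⟩
        · simp only at hw ⊢
          exact abs_sin_ge 0 (by push_cast; linarith) (by push_cast; linarith)
        · simp only at hw1 hw2 ⊢
          exact abs_sin_ge (-1) (by push_cast; linarith) (by push_cast; linarith)
      · rcases hw with hw | ⟨hw1, hw2⟩
        · simp only at hw ⊢
          exact abs_sin_ge 0 (by push_cast; linarith) (by push_cast; linarith)
        · simp only at hw1 hw2 ⊢
          exact abs_sin_ge 0 (by push_cast; linarith) (by push_cast; linarith)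
      · rcases hw with hw | ⟨hw1, hw2⟩
        · simp only at hw ⊢
          exact abs_sin_ge 0 (by push_cast; linarith) (by push_cast; linarith)
        · simp only at hw1 hw2 ⊢
          exact abs_sin_ge (-1) (by push_cast; linarith) (by push_cast; linarith)
  · simp only at ht
    subst ht
    cases hs : (s == s')
    · rw [hs] at hx
      simp only [kl, List.mem_cons, List.not_mem_nil, or_false] at hx
      rcases hx with rfl | rfl | rfl | rfl | rfl | rfl
      · rcases hw with hw | ⟨hw1, hw2⟩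
        · simp only at hw ⊢
          exact abs_sin_ge 0 (by push_cast; linarith) (by push_cast; linarith)
        · simp only at hw1 hw2 ⊢
          exact abs_sin_ge 0 (by push_cast; linarith) (by push_cast; linarith)
      · rcases hw with hw | ⟨hw1, hw2⟩
        · simp only at hw ⊢
          exact abs_sin_ge 0 (by push_cast; linarith) (by push_cast; linarith)
        · simp only at hw1 hw2 ⊢
          exact abs_sin_ge 0 (by push_cast; linarith) (by push_cast; linarith)
      · rcases hw with hw | ⟨hw1, hw2⟩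
        · simp only at hw ⊢
          exact abs_sin_ge (-1) (by push_cast; linarith) (by push_cast; linarith)
        · simp only at hw1 hw2 ⊢
          exact abs_sin_ge (-1) (by push_cast; linarith) (by push_cast; linarith)
      · rcases hw with hw | ⟨hw1, hw2⟩
        · simp only at hw ⊢
          exact abs_sin_ge 0 (by push_cast; linarith) (by push_cast; linarith)
        · simp only at hw1 hw2 ⊢
          exact abs_sin_ge 0 (by push_cast; linarith) (by push_cast; linarith)
      · rcases hw with hw | ⟨hw1, hw2⟩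
        · simp only at hw ⊢
          exact abs_sin_ge 0 (by push_cast; linarith) (by push_cast; linarith)
        · simp only at hw1 hw2 ⊢
          exact abs_sin_ge 0 (by push_cast; linarith) (by push_cast; linarith)
      · rcases hw with hw | ⟨hw1, hw2⟩
        · simp only at hw ⊢
          exact abs_sin_ge (-1) (by push_cast; linarith) (by push_cast; linarith)
        · simp only at hw1 hw2 ⊢
          exact abs_sin_ge 0 (by push_cast; linarith) (by push_cast; linarith)
    · rw [hs] at hx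
      simp only [kl, List.mem_cons, List.not_mem_nil, or_false] at hx
      rcases hx with rfl | rfl | rfl | rfl
      · rcases hw with hw | ⟨hw1, hw2⟩
        · simp only at hw ⊢
          exact abs_sin_ge 0 (by push_cast; linarith) (by push_cast; linarith)
        · simp only at hw1 hw2 ⊢
          exact abs_sin_ge 0 (by push_cast; linarith) (by push_cast; linarith)
      · rcases hw with hw | ⟨hw1, hw2⟩
        · simp only at hw ⊢
          exact abs_sin_ge 0 (by push_cast; linarith) (by push_cast; linarith)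
        · simp only at hw1 hw2 ⊢
          exact abs_sin_ge 0 (by push_cast; linarith) (by push_cast; linarith)
      · rcases hw with hw | ⟨hw1, hw2⟩
        · simp only at hw ⊢
          exact abs_sin_ge (-1) (by push_cast; linarith) (by push_cast; linarith)
        · simp only at hw1 hw2 ⊢
          exact abs_sin_ge 0 (by push_cast; linarith) (by push_cast; linarith)
      · rcases hw with hw | ⟨hw1, hw2⟩
        · simp only at hw ⊢
          exact abs_sin_ge 0 (by push_cast; linarith) (by push_cast; linarith)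
        · simp only at hw1 hw2 ⊢
          exact abs_sin_ge 0 (by push_cast; linarith) (by push_cast; linarith)

/-! ### limits of the logarithmic derivatives -/

/-- sum of the multiplicities -/
def sm (L : List (ℤ × ℤ)) : ℤ := (L.map Prod.fst).sum

/-- sum of the moduli of the multiplicities -/
def sa (L : List (ℤ × ℤ)) : ℝ := (L.map fun x => |(x.1 : ℝ)|).sum

theorem KL_lim (L : List (ℤ × ℤ)) {z : ℂ}
    (h : ∀ x ∈ L, c0 ≤ |Real.sin (z + x.2 * l).re|) :
    ‖I * KL L z - (sm L : ℂ) * (sgn z.im : ℂ)‖ ≤ sa L * (2 / c0 * Real.exp (-(2 * |z.im|))) := by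
  induction L with
  | nil => simp [KL, sm, sa]
  | cons x L ih =>
    have h1 := ih fun y hy => h y (List.mem_cons_of_mem _ hy)
    have h2 := I_cot_lim c0_pos (h x List.mem_cons_self)
    have h0 : (z + x.2 * l).im = z.im := by
      have : ((x.2 : ℂ) * (l : ℂ)) = ((x.2 * l : ℝ) : ℂ) := by push_cast; rfl
      rw [add_im, this, ofReal_im, add_zero]
    rw [h0] at h2
    have e : I * KL (x :: L) z - (sm (x :: L) : ℂ) * (sgn z.im : ℂ) =
        (x.1 : ℂ) * (I * cot (z + x.2 * l) - (sgn z.im : ℂ)) +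
        (I * KL L z - (sm L : ℂ) * (sgn z.im : ℂ)) := by
      simp only [KL, sm, List.map_cons, List.sum_cons, Int.cast_add]
      ring
    rw [e]
    refine (norm_add_le _ _).trans ?_
    rw [norm_mul, Complex.norm_intCast]
    simp only [sa, List.map_cons, List.sum_cons]
    rw [add_mul]
    exact add_le_add (mul_le_mul_of_nonneg_left h2 (abs_nonneg _)) h1

theorem sin_ne_of {w : ℂ} (h : c0 ≤ |Real.sin w.re|) : sin w ≠ 0 := by
  intro h0
  have h1 := norm_sin_ge c0_pos.le h
  rw [h0, norm_zero] at h1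
  have := mul_pos c0_pos (Real.cosh_pos w.im)
  linarith

theorem okK {s : Bool} {p : Part} (hp : OkPos p) {z : ℂ} (hz : InQ z) : OkK s p z :=
  fun x hx => sin_ne_of (pos_sin hp hz x hx)

/-- charge of a part seen by a quantum of species `s` (twice) -/
def cl (s : Bool) (p : Part) : ℤ := sm (kl (s == p.1) p.2.1)

theorem sa_le (b c : Bool) : sa (kl b c) ≤ 12 := by
  cases b <;> cases c <;> simp [sa, kl] <;> norm_num

theorem sa_nonneg (L : List (ℤ × ℤ)) : 0 ≤ sa L := by
  unfold sa
  exact List.sum_nonneg fun x hx => by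
    obtain ⟨y, _, rfl⟩ := List.mem_map.1 hx
    exact abs_nonneg _

theorem kpt_lim {s : Bool} {p : Part} (hp : OkPos p) {z : ℂ} (hz : InQ z) :
    ‖I * kpt s p z - (cl s p : ℂ) * (sgn (z.im - p.2.2.im) : ℂ)‖ ≤
      24 / c0 * Real.exp (-(2 * |z.im - p.2.2.im|)) := by
  have h := KL_lim (kl (s == p.1) p.2.1) (z := z - p.2.2) (pos_sin hp hz)
  rw [sub_im] at h
  refine h.trans ?_
  have h1 := sa_le (s == p.1) p.2.1
  have h2 := c0_pos
  calc sa (kl (s == p.1) p.2.1) * (2 / c0 * Real.exp (-(2 * |z.im - p.2.2.im|)))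
      ≤ 12 * (2 / c0 * Real.exp (-(2 * |z.im - p.2.2.im|))) :=
        mul_le_mul_of_nonneg_right h1 (by positivity)
    _ = _ := by ring

theorem cl_abs (s : Bool) (p : Part) : |(cl s p : ℝ)| ≤ 4 := by
  obtain ⟨s', ty, w⟩ := p
  unfold cl
  cases h : (s == s') <;> cases ty <;> simp [sm, kl] <;> norm_num

/-- the sign with respect to a near height -/
theorem sgn_near {y a b d : ℝ} (h : |a - b| ≤ d) :
    |sgn (y - a) - sgn (y - b)| ≤ 2 * Real.exp (2 * d) * Real.exp (-(2 * |y - b|)) := by
  by_cases hc : |y - b| ≤ d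
  · have h1 : |sgn (y - a) - sgn (y - b)| ≤ 2 := by
      have := abs_sgn (y - a)
      have := abs_sgn (y - b)
      have := abs_sub (sgn (y - a)) (sgn (y - b))
      linarith
    have h2 : 1 ≤ Real.exp (2 * d) * Real.exp (-(2 * |y - b|)) := by
      rw [← Real.exp_add]
      exact Real.one_le_exp (by linarith)
    nlinarith
  · rw [not_le] at hc
    have h0 : sgn (y - a) = sgn (y - b) := by
      obtain ⟨h1, h2⟩ := abs_le.1 h
      unfold sgn
      rcases lt_abs.1 hc with h3 | h3
      · rw [if_pos (by linarith), if_pos (by linarith [abs_nonneg (a - b)])]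
      · rw [if_neg (by linarith), if_neg (by linarith [abs_nonneg (a - b)])]
    rw [h0, sub_self, abs_zero]
    positivity

theorem exp_near {y a b d : ℝ} (h : |a - b| ≤ d) :
    Real.exp (-(2 * |y - a|)) ≤ Real.exp (2 * d) * Real.exp (-(2 * |y - b|)) := by
  rw [← Real.exp_add]
  apply Real.exp_le_exp.2
  have := abs_sub_le y a b
  linarith

/-- a part near the height `b` -/
theorem kpt_lim_near {s : Bool} {p : Part} (hp : OkPos p) {z : ℂ} (hz : InQ z) {b d : ℝ}
    (h : |p.2.2.im - b| ≤ d) :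
    ‖I * kpt s p z - (cl s p : ℂ) * (sgn (z.im - b) : ℂ)‖ ≤
      (24 / c0 + 8) * Real.exp (2 * d) * Real.exp (-(2 * |z.im - b|)) := by
  have h1 := kpt_lim (s := s) hp hz
  have h2 := sgn_near (y := z.im) h
  have h3 := exp_near (y := z.im) h
  have h4 := cl_abs s p
  have hc := c0_pos
  have e : I * kpt s p z - (cl s p : ℂ) * (sgn (z.im - b) : ℂ) =
      (I * kpt s p z - (cl s p : ℂ) * (sgn (z.im - p.2.2.im) : ℂ)) +
      (((cl s p : ℝ) * (sgn (z.im - p.2.2.im) - sgn (z.im - b)) : ℝ) : ℂ) := by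
    push_cast
    ring
  rw [e]
  refine (norm_add_le _ _).trans ?_
  rw [Complex.norm_real, Real.norm_eq_abs, abs_mul]
  have h5 : |(cl s p : ℝ)| * |sgn (z.im - p.2.2.im) - sgn (z.im - b)| ≤
      4 * (2 * Real.exp (2 * d) * Real.exp (-(2 * |z.im - b|))) :=
    mul_le_mul h4 h2 (abs_nonneg _) (by norm_num)
  have h6 : 24 / c0 * Real.exp (-(2 * |z.im - p.2.2.im|)) ≤
      24 / c0 * (Real.exp (2 * d) * Real.exp (-(2 * |z.im - b|))) :=
    mul_le_mul_of_nonneg_left h3 (by positivity)
  calc _ ≤ 24 / c0 * (Real.exp (2 * d) * Real.exp (-(2 * |z.im - b|))) +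
        4 * (2 * Real.exp (2 * d) * Real.exp (-(2 * |z.im - b|))) :=
        add_le_add (h1.trans h6) h5
    _ = _ := by ring

/-- a list of parts near the height `b` -/
theorem kls_lim_near {s : Bool} (B : List Part) {z : ℂ} (hz : InQ z) {b d : ℝ}
    (h : ∀ p ∈ B, OkPos p ∧ |p.2.2.im - b| ≤ d) :
    ‖I * kls s B z - (((B.map (cl s)).sum : ℤ) : ℂ) * (sgn (z.im - b) : ℂ)‖ ≤
      B.length * ((24 / c0 + 8) * Real.exp (2 * d) * Real.exp (-(2 * |z.im - b|))) := by
  induction B with
  | nil => simp [kls]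
  | cons p B ih =>
    have h1 := ih fun q hq => h q (List.mem_cons_of_mem _ hq)
    obtain ⟨hp, hd⟩ := h p List.mem_cons_self
    have h2 := kpt_lim_near (s := s) hp hz hd
    have e : I * kls s (p :: B) z - ((((p :: B).map (cl s)).sum : ℤ) : ℂ) * (sgn (z.im - b) : ℂ) =
        (I * kpt s p z - (cl s p : ℂ) * (sgn (z.im - b) : ℂ)) +
        (I * kls s B z - (((B.map (cl s)).sum : ℤ) : ℂ) * (sgn (z.im - b) : ℂ)) := by
      simp only [kls, List.map_cons, List.sum_cons, Int.cast_add]
      ring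
    rw [e]
    refine (norm_add_le _ _).trans ?_
    rw [List.length_cons, Nat.cast_add, Nat.cast_one, add_mul, one_mul, add_comm]
    exact add_le_add h1 h2

/-! ### one object -/

theorem vl_re (x t : ℝ) : (vl x t).re = x := by unfold vl; simp
theorem vl_im (x t : ℝ) : (vl x t).im = t := by unfold vl; simp

/-- the positions of the parts of one object -/
theorem parts_ok {e ρ : ℝ} (he : 1 / 4 ≤ e) (he' : e ≤ 3 / 10) (hρ : 0 ≤ ρ) (hρ' : ρ ≤ l / 100)
    (x : Xo) : ∀ p ∈ parts (9 / 4) e ρ x, OkPos p ∧ |p.2.2.im - ht x| ≤ l / 100 := by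
  have hl := Bd.l_pos
  have hr : (posS e (ht x)).re = -((1 + e) * l) := vl_re _ _
  have hi : (posS e (ht x)).im = ht x := vl_im _ _
  have hS : OkPos (sp x, true, posS e (ht x)) := by
    refine Or.inr ⟨rfl, Or.inr ⟨?_, ?_⟩⟩
    · simp only [hr]; nlinarith
    · simp only [hr]; nlinarith
  have hS2 : |(posS e (ht x)).im - ht x| ≤ l / 100 := by
    rw [hi, sub_self, abs_zero]; positivity
  have h2re : ((2 : ℂ) * (l : ℂ)).re = 2 * l := by simp
  have h2im : ((2 : ℂ) * (l : ℂ)).im = 0 := by simp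
  intro p hp
  unfold parts at hp
  cases hk : kd x <;> rw [hk] at hp <;>
    simp only [List.mem_cons, List.not_mem_nil, or_false] at hp
  · subst hp
    have h1 : (posL (9 / 4) (ht x)).re = (1 - 9 / 4) * l := vl_re _ _
    have h2 : (posL (9 / 4) (ht x)).im = ht x := vl_im _ _
    refine ⟨Or.inl ⟨rfl, Or.inl ?_⟩, ?_⟩
    · simp only [h1]; ring
    · simp only [h2, sub_self, abs_zero]; positivity
  · subst hp
    have h1 : (posT (ht x)).re = -(1 / 2 * l) := vl_re _ _
    have h2 : (posT (ht x)).im = ht x := vl_im _ _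
    refine ⟨Or.inr ⟨rfl, Or.inl h1⟩, ?_⟩
    simp only [h2, sub_self, abs_zero]; positivity
  · subst hp
    exact ⟨hS, hS2⟩
  · rcases hp with rfl | rfl
    · exact ⟨hS, hS2⟩
    · have hn : ‖(ρ : ℂ) * Complex.exp (2 * Real.pi * an x * I)‖ ≤ l / 100 := by
        rw [norm_mul, Complex.norm_real, Real.norm_eq_abs, abs_of_nonneg hρ]
        have : (2 * Real.pi * an x * I : ℂ) = ((2 * Real.pi * an x : ℝ) : ℂ) * I := by
          push_cast; ring
        rw [this, Complex.norm_exp_ofReal_mul_I, mul_one]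
        exact hρ'
      have h1 := (abs_le.1 ((Complex.abs_re_le_norm _).trans hn))
      have h2 := (Complex.abs_im_le_norm _).trans hn
      have e1 : (posV e ρ (ht x) (an x)).re = -((1 + e) * l) + 2 * l +
          ((ρ : ℂ) * Complex.exp (2 * Real.pi * an x * I)).re := by
        unfold posV; rw [add_re, add_re, hr, h2re]
      have e2 : (posV e ρ (ht x) (an x)).im = ht x +
          ((ρ : ℂ) * Complex.exp (2 * Real.pi * an x * I)).im := by
        unfold posV; rw [add_im, add_im, hi, h2im, add_zero]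
      refine ⟨Or.inl ⟨rfl, Or.inr ⟨?_, ?_⟩⟩, ?_⟩
      · simp only [e1]; nlinarith [h1.1]
      · simp only [e1]; nlinarith [h1.2]
      · simp only [e2]
        rw [add_sub_cancel_left]
        exact h2
  · have hv : OkPos (!sp x, false, posS e (ht x) + 2 * l) := by
      refine Or.inl ⟨rfl, Or.inr ⟨?_, ?_⟩⟩
      · simp only [add_re, hr, h2re]; nlinarith
      · simp only [add_re, hr, h2re]; nlinarith
    have hv2 : |(posS e (ht x) + 2 * l).im - ht x| ≤ l / 100 := by
      rw [add_im, hi, h2im, add_zero, sub_self, abs_zero]; positivity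
    rcases hp with rfl | rfl | rfl
    · exact ⟨hS, hS2⟩
    · exact ⟨hv, hv2⟩
    · exact ⟨hv, hv2⟩

theorem parts_cl (s : Bool) (jL e ρ : ℝ) (x : Xo) :
    ((parts jL e ρ x).map (cl s)).sum = 2 * ((chg s x : ℤ) - (chg (!s) x : ℤ)) := by
  obtain ⟨⟨sx, k⟩, t, a⟩ := x
  cases s <;> cases sx <;> cases k <;>
    simp [parts, cl, chg, kl, sm, sp]

theorem parts_len (jL e ρ : ℝ) (x : Xo) : (parts jL e ρ x).length ≤ 3 := by
  unfold parts
  cases kd x <;> simp

/-- constant of the force of an object -/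
def CO : ℝ := 3 * ((24 / c0 + 8) * Real.exp (2 * (l / 100)))

theorem CO_pos : 0 < CO := by
  have := c0_pos
  unfold CO
  positivity

/-- **the force of one object on a quantum of species `s`**, all kinds, all satellite angles -/
theorem kls_lim {e ρ : ℝ} (he : 1 / 4 ≤ e) (he' : e ≤ 3 / 10) (hρ : 0 ≤ ρ) (hρ' : ρ ≤ l / 100)
    (s : Bool) (x : Xo) {z : ℂ} (hz : InQ z) :
    ‖I * kls s (parts (9 / 4) e ρ x) z -
      2 * ((chg s x : ℂ) - (chg (!s) x : ℂ)) * (sgn (z.im - ht x) : ℂ)‖ ≤
      CO * Real.exp (-(2 * |z.im - ht x|)) := by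
  have h := kls_lim_near (s := s) (parts (9 / 4) e ρ x) hz (b := ht x) (d := l / 100)
    (parts_ok he he' hρ hρ' x)
  rw [parts_cl] at h
  push_cast at h
  refine h.trans ?_
  have h1 : (((parts (9 / 4) e ρ x).length : ℕ) : ℝ) ≤ 3 := by
    exact_mod_cast parts_len (9 / 4) e ρ x
  have hc := c0_pos
  calc _ ≤ 3 * ((24 / c0 + 8) * Real.exp (2 * (l / 100)) * Real.exp (-(2 * |z.im - ht x|))) :=
        mul_le_mul_of_nonneg_right h1 (by positivity)
    _ = _ := by unfold CO; ring

theorem chg_le (s : Bool) (x : Xo) : chg s x ≤ 2 := by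
  unfold chg
  cases kd x <;> dsimp only <;> split_ifs <;> norm_num

theorem chg_diff (s : Bool) (x : Xo) : ‖(chg s x : ℂ) - (chg (!s) x : ℂ)‖ ≤ 2 := by
  have h1 : (chg s x : ℝ) ≤ 2 := by exact_mod_cast chg_le s x
  have h2 : (chg (!s) x : ℝ) ≤ 2 := by exact_mod_cast chg_le (!s) x
  have h3 : (0 : ℝ) ≤ chg s x := Nat.cast_nonneg _
  have h4 : (0 : ℝ) ≤ chg (!s) x := Nat.cast_nonneg _
  have e : (chg s x : ℂ) - (chg (!s) x : ℂ) = (((chg s x : ℝ) - (chg (!s) x : ℝ) : ℝ) : ℂ) := by
    push_cast; rfl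
  rw [e, Complex.norm_real, Real.norm_eq_abs, abs_le]
  constructor <;> linarith

/-- bound of the force of one object -/
theorem kls_le {e ρ : ℝ} (he : 1 / 4 ≤ e) (he' : e ≤ 3 / 10) (hρ : 0 ≤ ρ) (hρ' : ρ ≤ l / 100)
    (s : Bool) (x : Xo) {z : ℂ} (hz : InQ z) :
    ‖kls s (parts (9 / 4) e ρ x) z‖ ≤ CO + 4 := by
  have h := kls_lim he he' hρ hρ' s x hz
  have h1 := chg_diff s x
  have h2 : ‖kls s (parts (9 / 4) e ρ x) z‖ = ‖I * kls s (parts (9 / 4) e ρ x) z‖ := by
    rw [norm_mul, norm_I, one_mul]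
  rw [h2]
  have h3 : ‖2 * ((chg s x : ℂ) - (chg (!s) x : ℂ)) * (sgn (z.im - ht x) : ℂ)‖ ≤ 4 := by
    rw [norm_mul, norm_mul, Complex.norm_real, Real.norm_eq_abs, abs_sgn]
    have : ‖(2 : ℂ)‖ = 2 := by simp
    rw [this]
    linarith
  have h4 : CO * Real.exp (-(2 * |z.im - ht x|)) ≤ CO * 1 :=
    mul_le_mul_of_nonneg_left (Real.exp_le_one_iff.2 (by
      have := abs_nonneg (z.im - ht x); linarith)) CO_pos.le
  have h5 := norm_le_norm_add_norm_sub' (I * kls s (parts (9 / 4) e ρ x) z)
    (2 * ((chg s x : ℂ) - (chg (!s) x : ℂ)) * (sgn (z.im - ht x) : ℂ))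
  linarith

/-! ### analyticity and the derivative of the force -/

/-- derivative of `KL` -/
def KL1 (L : List (ℤ × ℤ)) (z : ℂ) : ℂ := (L.map fun p => (p.1 : ℂ) * (-(1 / sin (z + p.2 * l) ^ 2))).sum

theorem hasDerivAt_cot {z : ℂ} (h : sin z ≠ 0) : HasDerivAt cot (-(1 / sin z ^ 2)) z := by
  have h1 := (hasDerivAt_cos z).div (hasDerivAt_sin z) h
  have e : (cot : ℂ → ℂ) = fun z => cos z / sin z := funext fun z => cot_eq_cos_div_sin z
  rw [e]
  refine h1.congr_deriv ?_
  have := sin_sq_add_cos_sq z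
  field_simp
  linear_combination -this

theorem hasDerivAt_KL (L : List (ℤ × ℤ)) {z : ℂ} (h : OkL L z) :
    HasDerivAt (KL L) (KL1 L z) z := by
  induction L with
  | nil =>
    have : KL [] = fun _ => 0 := by funext z; simp [KL]
    rw [this]
    simpa [KL1] using hasDerivAt_const z (0 : ℂ)
  | cons p L ih =>
    have h2 := ih fun q hq => h q (List.mem_cons_of_mem _ hq)
    have h0 : HasDerivAt (fun z : ℂ => z + p.2 * l) 1 z := (hasDerivAt_id z).add_const _
    have h1 := ((hasDerivAt_cot (h p List.mem_cons_self)).comp z h0).const_mul (p.1 : ℂ)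
    have e : KL (p :: L) = (fun z => (p.1 : ℂ) * (cot ∘ fun z : ℂ => z + p.2 * l) z) + KL L := by
      funext z
      simp [KL]
    rw [e]
    refine (h1.add h2).congr_deriv ?_
    simp [KL1]

theorem KL1_le (L : List (ℤ × ℤ)) {z : ℂ}
    (h : ∀ x ∈ L, c0 ≤ |Real.sin (z + x.2 * l).re|) :
    ‖KL1 L z‖ ≤ sa L * (4 / c0 ^ 2 * Real.exp (-(2 * |z.im|))) := by
  induction L with
  | nil => simp [KL1, sa]
  | cons x L ih =>
    have h1 := ih fun y hy => h y (List.mem_cons_of_mem _ hy)
    have h2 := norm_sin_ge c0_pos.le (h x List.mem_cons_self)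
    have h0 : (z + x.2 * l).im = z.im := by
      have : ((x.2 : ℂ) * (l : ℂ)) = ((x.2 * l : ℝ) : ℂ) := by push_cast; rfl
      rw [add_im, this, ofReal_im, add_zero]
    rw [h0] at h2
    have h3 := cosh_ge' z.im
    have hc := c0_pos
    have h4 : c0 * (Real.exp |z.im| / 2) ≤ ‖sin (z + x.2 * l)‖ :=
      (mul_le_mul_of_nonneg_left h3 hc.le).trans h2
    have hpos : 0 < c0 * (Real.exp |z.im| / 2) := by positivity
    have h5 : ‖-(1 / sin (z + x.2 * l) ^ 2)‖ ≤ 4 / c0 ^ 2 * Real.exp (-(2 * |z.im|)) := by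
      rw [norm_neg, norm_div, norm_one, norm_pow]
      have e1 : 4 / c0 ^ 2 * Real.exp (-(2 * |z.im|)) = 1 / (c0 * (Real.exp |z.im| / 2)) ^ 2 := by
        have : Real.exp (-(2 * |z.im|)) = 1 / Real.exp |z.im| ^ 2 := by
          rw [← Real.exp_nat_mul, one_div, ← Real.exp_neg]
          push_cast
          rfl
        rw [this]
        field_simp
        norm_num
      rw [e1]
      exact one_div_le_one_div_of_le (by positivity) (pow_le_pow_left₀ hpos.le h4 2)
    have e : KL1 (x :: L) z = (x.1 : ℂ) * (-(1 / sin (z + x.2 * l) ^ 2)) + KL1 L z := by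
      simp only [KL1, List.map_cons, List.sum_cons]
    rw [e]
    refine (norm_add_le _ _).trans ?_
    rw [norm_mul, Complex.norm_intCast]
    simp only [sa, List.map_cons, List.sum_cons]
    rw [add_mul]
    exact add_le_add (mul_le_mul_of_nonneg_left h5 (abs_nonneg _)) h1

/-- derivative of `kls` -/
def kls1 (s : Bool) (B : List Part) (z : ℂ) : ℂ :=
  (B.map fun p => KL1 (kl (s == p.1) p.2.1) (z - p.2.2)).sum

theorem hasDerivAt_kls (s : Bool) (B : List Part) {z : ℂ} (h : ∀ p ∈ B, OkK s p z) :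
    HasDerivAt (kls s B) (kls1 s B z) z := by
  induction B with
  | nil =>
    have : kls s [] = fun _ => 0 := by funext z; simp [kls]
    rw [this]
    simpa [kls1] using hasDerivAt_const z (0 : ℂ)
  | cons p B ih =>
    have h2 := ih fun q hq => h q (List.mem_cons_of_mem _ hq)
    have h0 : HasDerivAt (fun z : ℂ => z - p.2.2) 1 z := (hasDerivAt_id z).sub_const _
    have h1 := (hasDerivAt_KL _ (h p List.mem_cons_self)).comp z h0
    have e : kls s (p :: B) = (KL (kl (s == p.1) p.2.1) ∘ fun z : ℂ => z - p.2.2) + kls s B := by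
      funext z
      simp [kls, kpt]
    rw [e]
    refine (h1.add h2).congr_deriv ?_
    simp [kls1]

theorem kls1_le_near {s : Bool} (B : List Part) {z : ℂ} (hz : InQ z) {b d : ℝ}
    (h : ∀ p ∈ B, OkPos p ∧ |p.2.2.im - b| ≤ d) :
    ‖kls1 s B z‖ ≤ B.length * (48 / c0 ^ 2 * Real.exp (2 * d) * Real.exp (-(2 * |z.im - b|))) := by
  induction B with
  | nil => simp [kls1]
  | cons p B ih =>
    have h1 := ih fun q hq => h q (List.mem_cons_of_mem _ hq)
    obtain ⟨hp, hd⟩ := h p List.mem_cons_self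
    have h2 := KL1_le _ (pos_sin (s := s) hp hz)
    rw [sub_im] at h2
    have h3 := exp_near (y := z.im) hd
    have hc := c0_pos
    have h4 : ‖KL1 (kl (s == p.1) p.2.1) (z - p.2.2)‖ ≤
        48 / c0 ^ 2 * Real.exp (2 * d) * Real.exp (-(2 * |z.im - b|)) := by
      refine h2.trans ?_
      calc _ ≤ 12 * (4 / c0 ^ 2 * (Real.exp (2 * d) * Real.exp (-(2 * |z.im - b|)))) :=
            mul_le_mul (sa_le _ _) (mul_le_mul_of_nonneg_left h3 (by positivity))
              (by positivity) (by norm_num)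
        _ = _ := by ring
    have e : kls1 s (p :: B) z = KL1 (kl (s == p.1) p.2.1) (z - p.2.2) + kls1 s B z := by
      simp only [kls1, List.map_cons, List.sum_cons]
    rw [e]
    refine (norm_add_le _ _).trans ?_
    rw [List.length_cons, Nat.cast_add, Nat.cast_one, add_mul, one_mul, add_comm]
    exact add_le_add h1 h4

/-- constant of the derivative of the force of an object -/
def CO1 : ℝ := 3 * (48 / c0 ^ 2 * Real.exp (2 * (l / 100)))

theorem CO1_pos : 0 < CO1 := by
  have := c0_pos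
  unfold CO1
  positivity

/-- the force of one object is differentiable, its derivative decays from the object -/
theorem hasDerivAt_parts {e ρ : ℝ} (he : 1 / 4 ≤ e) (he' : e ≤ 3 / 10) (hρ : 0 ≤ ρ)
    (hρ' : ρ ≤ l / 100) (s : Bool) (x : Xo) {z : ℂ} (hz : InQ z) :
    HasDerivAt (kls s (parts (9 / 4) e ρ x)) (kls1 s (parts (9 / 4) e ρ x) z) z :=
  hasDerivAt_kls s _ fun p hp => okK (parts_ok he he' hρ hρ' x p hp).1 hz

theorem kls1_le {e ρ : ℝ} (he : 1 / 4 ≤ e) (he' : e ≤ 3 / 10) (hρ : 0 ≤ ρ)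
    (hρ' : ρ ≤ l / 100) (s : Bool) (x : Xo) {z : ℂ} (hz : InQ z) :
    ‖kls1 s (parts (9 / 4) e ρ x) z‖ ≤ CO1 * Real.exp (-(2 * |z.im - ht x|)) := by
  have h := kls1_le_near (s := s) (parts (9 / 4) e ρ x) hz (b := ht x) (d := l / 100)
    (parts_ok he he' hρ hρ' x)
  refine h.trans ?_
  have h1 : (((parts (9 / 4) e ρ x).length : ℕ) : ℝ) ≤ 3 := by
    exact_mod_cast parts_len (9 / 4) e ρ x
  have hc := c0_pos
  calc _ ≤ 3 * (48 / c0 ^ 2 * Real.exp (2 * (l / 100)) * Real.exp (-(2 * |z.im - ht x|))) :=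
        mul_le_mul_of_nonneg_right h1 (by positivity)
    _ = _ := by unfold CO1; ring

/-- the strip in the coordinate `u = l + I w` -/
theorem InQ_lI {w : ℂ} (h : w.im ∈ Set.Icc (-(2 / 5 * l)) (1 / 5 * l)) : InQ (l + I * w) := by
  have e : ((l : ℂ) + I * w).re = l - w.im := by simp [sub_eq_add_neg]
  obtain ⟨h1, h2⟩ := h
  constructor <;> rw [e] <;> linarith

theorem lI_im (w : ℂ) : ((l : ℂ) + I * w).im = w.re := by simp

/-- differentiability in the coordinate `u = l + I w` -/
theorem dA_kls {e ρ : ℝ} (he : 1 / 4 ≤ e) (he' : e ≤ 3 / 10) (hρ : 0 ≤ ρ)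
    (hρ' : ρ ≤ l / 100) (s : Bool) (x : Xo) {w : ℂ}
    (h : w.im ∈ Set.Icc (-(2 / 5 * l)) (1 / 5 * l)) :
    HasDerivAt (fun w : ℂ => kls s (parts (9 / 4) e ρ x) (l + I * w))
      (kls1 s (parts (9 / 4) e ρ x) (l + I * w) * I) w := by
  have h0 : HasDerivAt (fun w : ℂ => (l : ℂ) + I * w) I w := by
    simpa using ((hasDerivAt_id w).const_mul I).const_add (l : ℂ)
  exact (hasDerivAt_parts he he' hρ hρ' s x (InQ_lI h)).comp w h0

/-! ### the objects of a configuration -/

/-- the parameters of the objects of a configuration are admissible -/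
structure PO (P : Par) {r : ℕ} (O : Fin r → Xo) : Prop where
  jL : P.jL = 9 / 4
  e1 : ∀ i, 1 / 4 ≤ ei P O i
  e2 : ∀ i, ei P O i ≤ 3 / 10
  r1 : ∀ i, 0 ≤ rr P O i
  r2 : ∀ i, rr P O i ≤ l / 100

theorem cons_eq {P : Par} {O : Fin r → Xo} (h : PO P O) (i : Fin r) :
    cons P O i = parts (9 / 4) (ei P O i) (rr P O i) (O i) := by
  unfold NUO.cons
  rw [h.jL]

theorem cons_ok {P : Par} {O : Fin r → Xo} (h : PO P O) (i : Fin r) :
    ∀ p ∈ cons P O i, OkPos p ∧ |p.2.2.im - ht (O i)| ≤ l / 100 := by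
  rw [cons_eq h]
  exact parts_ok (h.e1 i) (h.e2 i) (h.r1 i) (h.r2 i) (O i)

/-- **logarithmic derivative of the potential of the objects** in the strip -/
theorem hasDerivAt_potC {P : Par} {O : Fin r → Xo} (h : PO P O) (s : Bool) {z : ℂ} (hz : InQ z) :
    HasDerivAt (potC P O s) (kP P O s z * potC P O s z) z :=
  hasDerivAt_potC' P O s fun i p hp => okK (cons_ok h i p hp).1 hz

/-- **limits of the force of the object `i`** -/
theorem kO_lim {P : Par} {O : Fin r → Xo} (h : PO P O) (i : Fin r) (s : Bool) {z : ℂ}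
    (hz : InQ z) :
    ‖I * kO P O i s z - 2 * ((chg s (O i) : ℂ) - (chg (!s) (O i) : ℂ)) *
      (sgn (z.im - ht (O i)) : ℂ)‖ ≤ CO * Real.exp (-(2 * |z.im - ht (O i)|)) := by
  unfold kO
  rw [cons_eq h]
  exact kls_lim (h.e1 i) (h.e2 i) (h.r1 i) (h.r2 i) s (O i) hz

theorem kO_le {P : Par} {O : Fin r → Xo} (h : PO P O) (i : Fin r) (s : Bool) {z : ℂ}
    (hz : InQ z) : ‖kO P O i s z‖ ≤ CO + 4 := by
  unfold kO
  rw [cons_eq h]
  exact kls_le (h.e1 i) (h.e2 i) (h.r1 i) (h.r2 i) s (O i) hz

/-- derivative of the force of the object `i` -/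
def kO1 (P : Par) (O : Fin r → Xo) (i : Fin r) (s : Bool) (z : ℂ) : ℂ := kls1 s (cons P O i) z

theorem hasDerivAt_kO {P : Par} {O : Fin r → Xo} (h : PO P O) (i : Fin r) (s : Bool) {z : ℂ}
    (hz : InQ z) : HasDerivAt (kO P O i s) (kO1 P O i s z) z :=
  hasDerivAt_kls s _ fun p hp => okK (cons_ok h i p hp).1 hz

theorem kO1_le {P : Par} {O : Fin r → Xo} (h : PO P O) (i : Fin r) (s : Bool) {z : ℂ}
    (hz : InQ z) : ‖kO1 P O i s z‖ ≤ CO1 * Real.exp (-(2 * |z.im - ht (O i)|)) := by
  unfold kO1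
  rw [cons_eq h]
  exact kls1_le (h.e1 i) (h.e2 i) (h.r1 i) (h.r2 i) s (O i) hz

theorem kP_le {P : Par} {O : Fin r → Xo} (h : PO P O) (s : Bool) {z : ℂ}
    (hz : InQ z) : ‖kP P O s z‖ ≤ r * (CO + 4) := by
  unfold kP
  refine (norm_sum_le _ _).trans ?_
  refine (Finset.sum_le_card_nsmul _ _ _ fun i _ => kO_le h i s hz).trans ?_
  rw [Finset.card_univ, Fintype.card_fin, nsmul_eq_mul]

theorem hasDerivAt_kP {P : Par} {O : Fin r → Xo} (h : PO P O) (s : Bool) {z : ℂ}
    (hz : InQ z) : HasDerivAt (kP P O s) (∑ i, kO1 P O i s z) z := by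
  have e : kP P O s = fun z => ∑ i, kO P O i s z := rfl
  rw [e]
  exact HasDerivAt.fun_sum fun i _ => hasDerivAt_kO h i s hz

/-- the parameters of the general sea -/
theorem PO_par0 [NUSea.Sea] (m : ℕ) (O : Fin r → Xo) : PO (NUSea.O.par0 m) O := by
  have hl := Bd.l_pos
  have hd := d0_pos r
  have hd' := d0_le r
  refine ⟨rfl, fun i => ?_, fun i => ?_, fun i => ?_, fun i => ?_⟩
  · unfold ei
    show 1 / 4 ≤ (1 / 4 : ℝ) + d0 r * (rk O i / r)
    have : 0 ≤ d0 r * ((rk O i : ℝ) / r) := by positivity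
    linarith
  · unfold ei
    show (1 / 4 : ℝ) + d0 r * (rk O i / r) ≤ 3 / 10
    have h1 : (rk O i : ℝ) / r ≤ 1 := by
      have h2 : rk O i ≤ r := by
        unfold rk
        refine (Finset.card_le_univ _).trans ?_
        simp
      have h3 : (rk O i : ℝ) ≤ r := by exact_mod_cast h2
      exact div_le_one_of_le₀ h3 (Nat.cast_nonneg r)
    have h0 : 0 ≤ (rk O i : ℝ) / r := by positivity
    nlinarith
  · exact (NUSea.O.rad0_pos m r _).le
  · have h1 := NUSea.O.rad0_le m r (ht (O i))
    refine h1.trans ?_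
    have h2 : NUP1.l * d0 r ≤ NUP1.l * (1 / 6144) := mul_le_mul_of_nonneg_left hd' hl.le
    have h5 : (0 : ℝ) ≤ r := Nat.cast_nonneg r
    rw [div_le_div_iff₀ (by positivity) (by norm_num)]
    nlinarith [mul_nonneg hl.le h5]

end PBOR

end
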