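import Pool.Agent.PB.TRsO
import Pool.Agent.PB.TRsP
import Pool.Agent.PB.TRsA
import Pool.Agent.PB.TrG6
import Pool.Agent.PB.ObRes

/-!
# Plan B, (TR): the response of the objects on the path, literal data

Fields `be w w' b` (`PB/TrG6`), kernels `kls`, `kP` (`PB/ObRes`), statistic `obT`, `stO` (`PB/TRsA`).

* `be_hM`: the fields at real heights;
* `limB w w' x`: limit of the statistic of the object `x` above it, `limB_eq`;
* **`resp_obj`**, **`resp_cfg`**, **`resp_stO`**: the response plus the statistic of the objects is at most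
  `(CRX (1 + M) + C') (1 + M) ∑ i, min 1 (e^{2 (M - |ht (O i)|)})`;
* `mass_obj`: replacing `be` by `seaT n * fldT n q be`;
* `bc_obj`: the test function `X b z * (I kP)`: analytic and bounded on the strip (the two fields of `BC`).
-/

set_option autoImplicit false
set_option linter.unusedSectionVars false

noncomputable section

open Complex MeasureTheory Set Filter

namespace PBTs

open NUO NUP1 NUP1S NUP1S.Ab PBOR PBT3 PBF

variable {r : ℕ} {w w' : ℂ}

theorem sg1_eq (x : ℝ) : sg1 x = sgn x := by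
  unfold sg1 sgn
  by_cases h : x < 0
  · rw [if_pos h, if_neg (not_le.2 h)]
  · rw [if_neg h, if_pos (not_lt.1 h)]

/-- constant of the fields on the real line -/
def CB : ℝ := max (Cst 0 0) 0 + max (Clin 0 0) 0

theorem CB_nonneg : 0 ≤ CB := add_nonneg (le_max_right _ _) (le_max_right _ _)

/-- **the fields on the real line** -/
theorem be_hM (h : G5 w w') (b : Bool) (t : ℝ) :
    ‖be w w' b t‖ ≤ CB * (1 + MM w w') * hM (MM w w') t := by
  have hl : 0 < NUMF.l := Bd.l_pos
  have hM0 := MM_nonneg w w'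
  have e1 : ((t : ℂ)).im = 0 := ofReal_im t
  have e2 : ((t : ℂ)).re = t := ofReal_re t
  have h1 := be_le h b (y1 := 0) (y2 := 0) (by linarith) (by linarith) (t := (t : ℂ))
    (by rw [e1]) (by rw [e1])
  have h2 := be_lin h b (y1 := 0) (y2 := 0) (by linarith) (by linarith) (t := (t : ℂ))
    (by rw [e1]) (by rw [e1])
  rw [e2] at h1
  have c1 : Cst 0 0 ≤ CB := (le_max_left _ _).trans (le_add_of_nonneg_right (le_max_right _ _))
  have c2 : Clin 0 0 ≤ CB := (le_max_left _ _).trans (le_add_of_nonneg_left (le_max_right _ _))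
  have hE := Real.exp_pos (8 / 3 * (MM w w' - |t|))
  unfold hM
  rcases le_total 1 (Real.exp (8 / 3 * (MM w w' - |t|))) with h3 | h3
  · rw [min_eq_left h3, mul_one]
    exact h2.trans (mul_le_mul_of_nonneg_right c2 (by linarith))
  · rw [min_eq_right h3]
    refine h1.trans (mul_le_mul_of_nonneg_right ?_ hE.le)
    have := CB_nonneg
    nlinarith

/-- limit of the statistic of the object `x` at heights `→ +∞` (minus it at `-∞`) -/
def limB (w w' : ℂ) (x : Xo) : ℂ :=
  2 * ∑ b, ((chg b x : ℂ) - (chg (!b) x : ℂ)) * ∫ t : ℝ, be w w' b t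

theorem limB_eq (h : G5 w w') (x : Xo) :
    limB w w' x = ((chg true x : ℂ) - (chg false x : ℂ)) * (I * (w - w')) := by
  have hg := h.geo
  have h1 := int_be_sub hg true
  rw [int_bM hg, sgb_true, one_mul, integral_sub (be_int hg true) (be_int hg (!true))] at h1
  unfold limB
  rw [Fintype.sum_bool]
  simp only [Bool.not_true, Bool.not_false] at h1 ⊢
  linear_combination (2 * ((chg true x : ℂ) - (chg false x : ℂ))) * h1

/-- the kernel of an object on the line `Re u = l` is continuous -/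
theorem cont_klsX {e ρ : ℝ} (he : 1 / 4 ≤ e) (he' : e ≤ 3 / 10) (hρ : 0 ≤ ρ) (hρ' : ρ ≤ l / 100)
    (b : Bool) (x : Xo) : Continuous fun t : ℝ => I * kls b (parts (9 / 4) e ρ x) (l + I * t) := by
  have hl := Bd.l_pos
  refine continuous_const.mul (continuous_iff_continuousAt.2 fun t => ?_)
  have h1 := (dA_kls he he' hρ hρ' b x (w := (t : ℂ)) (by
    rw [ofReal_im]
    constructor <;> linarith)).continuousAt
  exact ContinuousAt.comp (f := fun t : ℝ => (t : ℂ))
    (g := fun w : ℂ => kls b (parts (9 / 4) e ρ x) (l + I * w)) h1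
    Complex.continuous_ofReal.continuousAt

theorem inQ_real (t : ℝ) : InQ (l + I * t) := by
  have hl := Bd.l_pos
  refine InQ_lI ?_
  rw [ofReal_im]
  constructor <;> linarith

/-- constant of the response -/
def CRX : ℝ := 12 * CB * (PBOR.CO + 4 * 2)

/-- **the response of one object** -/
theorem resp_obj (h : G5 w w') {e ρ C' : ℝ} (he : 1 / 4 ≤ e) (he' : e ≤ 3 / 10) (hρ : 0 ≤ ρ)
    (hρ' : ρ ≤ l / 100) {x : Xo} {D : ℂ}
    (hD : ‖D - sg1 (ht x) * limB w w' x‖ ≤
      C' * (1 + MM w w') * min 1 (Real.exp (2 * (MM w w' - |ht x|)))) :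
    ‖(∑ b, ∫ t : ℝ, be w w' b t * (I * kls b (parts (9 / 4) e ρ x) (l + I * t))) + D‖ ≤
      (CRX * (1 + MM w w') + C') * (1 + MM w w') * min 1 (Real.exp (2 * (MM w w' - |ht x|))) := by
  have hg := h.geo
  refine (resp_le (β := fun b t => be w w' b t)
    (K := fun b t => I * kls b (parts (9 / 4) e ρ x) (l + I * t))
    (c := fun b => (chg b x : ℂ) - (chg (!b) x : ℂ)) (D := D) (t0 := ht x) (B := CB) (C := PBOR.CO)
    (c0 := 2) (C' := C') (MM_nonneg w w') CB_nonneg PBOR.CO_pos.le (fun b => chg_diff b x)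
    (fun b t => be_hM h b t) (fun b => (be_int hg b).aestronglyMeasurable)
    (fun b => (cont_klsX he he' hρ hρ' b x).aestronglyMeasurable) (fun b t => ?_) hD).trans
    (le_of_eq ?_)
  · have h1 := kls_lim he he' hρ hρ' b x (inQ_real t)
    have e1 : ((l : ℂ) + I * (t : ℂ)).im = t := by simp
    rw [e1] at h1
    rw [sg1_eq]
    exact h1
  · unfold CRX
    ring

/-- the integrand of one object is integrable -/
theorem int_obj (h : G5 w w') {e ρ : ℝ} (he : 1 / 4 ≤ e) (he' : e ≤ 3 / 10) (hρ : 0 ≤ ρ)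
    (hρ' : ρ ≤ l / 100) (b : Bool) (x : Xo) :
    Integrable fun t : ℝ => be w w' b t * (I * kls b (parts (9 / 4) e ρ x) (l + I * t)) := by
  have hg := h.geo
  refine (be_int hg b).mul_bdd (c := PBOR.CO + 4)
    (cont_klsX he he' hρ hρ' b x).aestronglyMeasurable (Eventually.of_forall fun t => ?_)
  rw [norm_mul, norm_I, one_mul]
  exact kls_le he he' hρ hρ' b x (inQ_real t)

/-- **the response of a configuration** -/
theorem resp_cfg (h : G5 w w') {P : NUO.Par} {O : Fin r → Xo} (hP : PO P O) {C' : ℝ} {D : Fin r → ℂ}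
    (hD : ∀ i, ‖D i - sg1 (ht (O i)) * limB w w' (O i)‖ ≤
      C' * (1 + MM w w') * min 1 (Real.exp (2 * (MM w w' - |ht (O i)|)))) :
    ‖(∑ b, ∫ t : ℝ, be w w' b t * (I * PBOR.kP P O b (l + I * t))) + ∑ i, D i‖ ≤
      (CRX * (1 + MM w w') + C') * (1 + MM w w') *
        ∑ i, min 1 (Real.exp (2 * (MM w w' - |ht (O i)|))) := by
  have e1 : ∀ b, ∫ t : ℝ, be w w' b t * (I * PBOR.kP P O b (l + I * t)) =
      ∑ i, ∫ t : ℝ, be w w' b t *
        (I * kls b (parts (9 / 4) (ei P O i) (rr P O i) (O i)) (l + I * t)) := by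
    intro b
    rw [← integral_finsetSum _ fun i _ => int_obj h (hP.e1 i) (hP.e2 i) (hP.r1 i) (hP.r2 i) b (O i)]
    refine integral_congr_ae (Eventually.of_forall fun t => ?_)
    simp only [PBOR.kP, PBOR.kO, cons_eq hP]
    rw [← Finset.mul_sum, ← Finset.mul_sum]
  simp only [e1]
  rw [Finset.sum_comm, ← Finset.sum_add_distrib, Finset.mul_sum]
  refine (norm_sum_le _ _).trans (Finset.sum_le_sum fun i _ => ?_)
  exact resp_obj h (hP.e1 i) (hP.e2 i) (hP.r1 i) (hP.r2 i) (hD i)

/-- the same with the statistic `stO` -/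
theorem resp_stO (h : G5 w w') {P : NUO.Par} {O : Fin r → Xo} (hP : PO P O) {C' : ℝ}
    {D : Bool → Option O3 → ℂ → ℂ}
    (hD : ∀ i, ‖obT D (9 / 4) (ei P O i) (rr P O i) (O i) - sg1 (ht (O i)) * limB w w' (O i)‖ ≤
      C' * (1 + MM w w') * min 1 (Real.exp (2 * (MM w w' - |ht (O i)|)))) :
    ‖(∑ b, ∫ t : ℝ, be w w' b t * (I * PBOR.kP P O b (l + I * t))) + stO D P O‖ ≤
      (CRX * (1 + MM w w') + C') * (1 + MM w w') *
        ∑ i, min 1 (Real.exp (2 * (MM w w' - |ht (O i)|))) := by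
  have e : stO D P O = ∑ i, obT D (9 / 4) (ei P O i) (rr P O i) (O i) := by
    unfold stO
    rw [hP.jL]
  rw [e]
  exact resp_cfg h hP hD

/-- pins -/
theorem min_le_pin (M t : ℝ) : min 1 (Real.exp (2 * (M - |t|))) ≤
    Real.exp (2 * M) * Real.exp (-(2 * |t|)) := by
  rw [← Real.exp_add]
  refine (min_le_right _ _).trans (le_of_eq ?_)
  congr 1
  ring

/-! ### the regularised field -/

/-- the mass of the objects with the regularised field -/
theorem mass_obj (h : G5 w w') {P : NUO.Par} {O : Fin r → Xo} (hP : PO P O) {b1 n q L B : ℝ}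
    (h0 : 0 < b1) (hb : b1 < l) (hn : 0 ≤ n) (hq : 0 < q) (hL : 0 ≤ L) (hB : 0 ≤ B)
    (hX : ∀ b (t : ℝ), ‖fldT n q (be w w') b t‖ ≤ B * mn L t)
    (hXm : ∀ b, AEStronglyMeasurable fun t : ℝ => fldT n q (be w w') b t) :
    ‖(∑ b, ∫ t : ℝ, seaT n t * (fldT n q (be w w') b t * (I * PBOR.kP P O b (l + I * t)))) -
      ∑ b, ∫ t : ℝ, be w w' b t * (I * PBOR.kP P O b (l + I * t))‖ ≤
      12 * q * B * (1 + L) * (r * (PBOR.CO + 4)) := by
  have hl : NUMF.l = l := rfl
  have hcont : ∀ b, Continuous fun t : ℝ => I * PBOR.kP P O b (l + I * t) := by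
    intro b
    have e : (fun t : ℝ => I * PBOR.kP P O b (l + I * t)) = fun t : ℝ => ∑ i,
        I * kls b (parts (9 / 4) (ei P O i) (rr P O i) (O i)) (l + I * t) := by
      funext t
      simp only [PBOR.kP, PBOR.kO, cons_eq hP]
      rw [← Finset.mul_sum]
    rw [e]
    exact continuous_finsetSum _ fun i _ => cont_klsX (hP.e1 i) (hP.e2 i) (hP.r1 i) (hP.r2 i) b (O i)
  have hK : ∀ b (t : ℝ), ‖I * PBOR.kP P O b (l + I * t)‖ ≤ r * (PBOR.CO + 4) := by
    intro b t
    rw [norm_mul, norm_I, one_mul]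
    exact PBOR.kP_le hP b (inQ_real t)
  have hmn : Integrable (fun t : ℝ => mn L t) ∧ ∫ t : ℝ, mn L t ≤ 2 * Real.exp 1 * (1 + L) := by
    have h1 := int_mn hL 0
    have e : (fun u : ℝ => mn L (0 - u)) = fun u : ℝ => mn L u := by
      funext u
      unfold mn
      rw [zero_sub, abs_neg]
    rwa [e] at h1
  have hr : (0 : ℝ) ≤ r * (PBOR.CO + 4) := by
    have := PBOR.CO_pos
    positivity
  have hXi : ∀ b, Integrable fun t : ℝ => fldT n q (be w w') b t := fun b =>
    (hmn.1.const_mul B).mono' (hXm b) (Eventually.of_forall (hX b))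
  have hdiff : ∀ b, (∫ t : ℝ, seaT n t * (fldT n q (be w w') b t * (I * PBOR.kP P O b (l + I * t)))) -
      ∫ t : ℝ, be w w' b t * (I * PBOR.kP P O b (l + I * t)) =
      -(q : ℂ) * ∫ t : ℝ, fldT n q (be w w') b t * (I * PBOR.kP P O b (l + I * t)) := by
    intro b
    have hg := h.geo
    have i1 : Integrable fun t : ℝ => be w w' b t * (I * PBOR.kP P O b (l + I * t)) :=
      (be_int hg b).mul_bdd (hcont b).aestronglyMeasurable (Eventually.of_forall (hK b))
    have i2 : Integrable fun t : ℝ => fldT n q (be w w') b t * (I * PBOR.kP P O b (l + I * t)) :=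
      (hXi b).mul_bdd (hcont b).aestronglyMeasurable (Eventually.of_forall (hK b))
    have e : ∀ t : ℝ, seaT n t * (fldT n q (be w w') b t * (I * PBOR.kP P O b (l + I * t))) =
        be w w' b t * (I * PBOR.kP P O b (l + I * t)) -
          (q : ℂ) * (fldT n q (be w w') b t * (I * PBOR.kP P O b (l + I * t))) := by
      intro t
      have h1 := mulF_T h0 hb hn hq (be w w') b (z := (t : ℂ)) (by simpa using h0)
      unfold PB.mulF at h1
      linear_combination (I * PBOR.kP P O b (l + I * t)) * h1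
    simp only [e]
    rw [integral_sub i1 (i2.const_mul _), integral_const_mul]
    ring
  rw [← Finset.sum_sub_distrib]
  simp only [hdiff]
  have hb' : ∀ b, ‖-(q : ℂ) * ∫ t : ℝ, fldT n q (be w w') b t * (I * PBOR.kP P O b (l + I * t))‖ ≤
      6 * q * B * (1 + L) * (r * (PBOR.CO + 4)) := by
    intro b
    rw [norm_mul, norm_neg, norm_real, Real.norm_of_nonneg hq.le]
    have h1 : ‖∫ t : ℝ, fldT n q (be w w') b t * (I * PBOR.kP P O b (l + I * t))‖ ≤
        ∫ t : ℝ, (B * (r * (PBOR.CO + 4))) * mn L t := by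
      refine norm_integral_le_of_norm_le (hmn.1.const_mul _) (Eventually.of_forall fun t => ?_)
      rw [norm_mul]
      calc _ ≤ (B * mn L t) * (r * (PBOR.CO + 4)) :=
            mul_le_mul (hX b t) (hK b t) (norm_nonneg _) (mul_nonneg hB (mn_nonneg _ _))
        _ = _ := by ring
    rw [integral_const_mul] at h1
    have he : Real.exp 1 ≤ 3 := by
      have := Real.exp_one_lt_d9
      linarith
    have h2 : ∫ t : ℝ, mn L t ≤ 6 * (1 + L) := by
      refine hmn.2.trans ?_
      nlinarith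
    calc q * ‖∫ t : ℝ, fldT n q (be w w') b t * (I * PBOR.kP P O b (l + I * t))‖
        ≤ q * (B * (r * (PBOR.CO + 4)) * (6 * (1 + L))) := by
          refine mul_le_mul_of_nonneg_left (h1.trans ?_) hq.le
          exact mul_le_mul_of_nonneg_left h2 (mul_nonneg hB hr)
      _ = _ := by ring
  rw [Fintype.sum_bool]
  refine (norm_add_le _ _).trans ?_
  have h1 := hb' true
  have h2 := hb' false
  linarith

/-- **the test function of the objects**: the two fields of the class `BC` -/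
theorem bc_obj {P : NUO.Par} {O : Fin r → Xo} (hP : PO P O) {X : Bool → ℂ → ℂ} {y B : ℝ}
    (hy' : y ≤ l / 5) (hX : ∀ b (z : ℂ), |z.im| < y → DifferentiableAt ℂ (X b) z)
    (hXB : ∀ b (z : ℂ), |z.im| < y → ‖X b z‖ ≤ B) (b : Bool) :
    DifferentiableOn ℂ (fun z => X b z * (I * PBOR.kP P O b (l + I * z))) {z | -y < z.im ∧ z.im < y} ∧
      ∀ z ∈ {z : ℂ | -y < z.im ∧ z.im < y},
        ‖X b z * (I * PBOR.kP P O b (l + I * z))‖ ≤ B * (r * (PBOR.CO + 4)) := by
  have hl := Bd.l_pos
  have hmem : ∀ z ∈ {z : ℂ | -y < z.im ∧ z.im < y},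
      |z.im| < y ∧ z.im ∈ Set.Icc (-(2 / 5 * l)) (1 / 5 * l) := by
    intro z hz
    obtain ⟨h1, h2⟩ := hz
    refine ⟨abs_lt.2 ⟨h1, h2⟩, ?_⟩
    constructor <;> linarith
  refine ⟨fun z hz => ?_, fun z hz => ?_⟩
  · obtain ⟨h1, h2⟩ := hmem z hz
    have h3 : HasDerivAt (fun w : ℂ => (l : ℂ) + I * w) I z := by
      simpa using ((hasDerivAt_id z).const_mul I).const_add (l : ℂ)
    have h4 := ((hasDerivAt_kP hP b (InQ_lI h2)).comp z h3).differentiableAt
    exact ((hX b z h1).mul ((differentiableAt_const I).mul h4)).differentiableWithinAt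
  · obtain ⟨h1, h2⟩ := hmem z hz
    rw [norm_mul, norm_mul, norm_I, one_mul]
    have h3 := PBOR.kP_le hP b (InQ_lI h2)
    exact mul_le_mul (hXB b z h1) h3 (norm_nonneg _) ((norm_nonneg _).trans (hXB b z h1))

end PBTs
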