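import Pool.Agent.PB.TRsD
import Pool.Agent.PB.TRsM
import Pool.Agent.PB.TRsX
import Pool.Agent.PB.TRsQ
import Pool.Agent.PB.LogP
import Pool.Agent.PB.LogZ
import Pool.Agent.PB.TrG7
import Pool.Agent.PB.TrGR
import Pool.Agent.PB.UBN
import Pool.Agent.PB.QRep

/-!
# Plan B, (TR): the literal data of the s-path (helper55)

Definitions only: half quanta `wt τ.1`, `wt τ.2`, legs at `zt τ`, `k - 1` rows at `0`, parameters and
curve of `k` rows, cutoffs `[I, -I]` and `[]`, density `(k - 1) P`, regularisation `k ^ (-10)`.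
-/

set_option autoImplicit false

noncomputable section

open Complex MeasureTheory Finset

namespace PBTV

open NUO NUP1 NUP1S NUP1S.Ab NUGC PBF PBU

variable [NUSea.Sea]

/-- the half quanta -/
def wa (τ : ℝ × ℝ) : ℂ := PBT3.wt τ.1

/-- the half quanta -/
def wb (τ : ℝ × ℝ) : ℂ := PBT3.wt τ.2

/-- the number of rows -/
def nk (k : ℕ) : ℝ := ((k - 1 : ℕ) : ℝ)

/-- the regularisation -/
def qk (k : ℕ) : ℝ := ((k : ℝ) ^ 10)⁻¹

/-- **the family at the dislocated end** -/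
def Zv (ep : ℝ) (k : ℕ) (τ : ℝ × ℝ) : Bool → Option O3 → ℂ → ℂ :=
  PBX.ZL (4 / 3 * (1 - ep)) (fun _ : Fin (k - 1) => (0 : ℂ)) [I, -I] [] (PBT3.zt τ)

/-- the logarithms of the ratio -/
def Dv (τ : ℝ × ℝ) : Bool → Option O3 → ℂ → ℂ := PBTs.DT (wa τ) (wb τ)

/-- derivative of `Dv b none` -/
def D1v (τ : ℝ × ℝ) (b : Bool) (u : ℂ) : ℂ := PBTD.DelB' (wa τ) (wb τ) (PBT3.zz (wa τ) (wb τ)) b u

/-- the density -/
def rv (k : ℕ) : ℂ → ℂ := PBTs.seaT (nk k)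

/-- the field -/
def Xv (k : ℕ) (τ : ℝ × ℝ) : Bool → ℂ → ℂ := PBTs.fldT (nk k) (qk k) (PBT3.be (wa τ) (wb τ))

/-- log derivative of the one body function -/
def LZv (ep : ℝ) (k : ℕ) (τ : ℝ × ℝ) : Bool → ℂ → ℂ := fun _ =>
  PBLZ.LZX (4 / 3 * (1 - ep)) (fun _ : Fin (k - 1) => (0 : ℂ)) [I, -I] (PBT3.zt τ)

/-- force of the legs and of the cutoff -/
def lgv (ep : ℝ) (k : ℕ) (τ : ℝ × ℝ) : Bool → ℂ → ℂ := fun _ z =>
  PBEI.h00 (z - PBQ1.hr (PBT3.zt τ)) +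
    PBLZ.cutI (4 / 3 * (1 - ep)) (List.ofFn (fun _ : Fin (k - 1) => (0 : ℂ)) ++ [I, -I]) z

/-- error of the regularisation -/
def Ev (k : ℕ) (τ : ℝ × ℝ) : Bool → ℂ → ℂ := fun b z =>
  Dv τ b none (NUP1.l + I * z) - PB.rsp (PB.mulF (rv k) (Xv k τ)) b z

/-- log derivative of the kernels of the objects -/
def LPv (k : ℕ) : (r : ℕ) → (Fin r → Xo) → Bool → ℂ → ℂ := LPo (NUSea.O.par0 k)

/-- force of the objects -/
def kov (k : ℕ) : (r : ℕ) → (Fin r → Xo) → Bool → ℂ → ℂ := fun r O b z =>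
  I * LPv k r O b (NUP1.l + I * z)

/-- mean of the statistic -/
def κv (k : ℕ) (τ : ℝ × ℝ) : ℂ := kap (Dv τ) (rv k)

/-- the larger height -/
def Mv (τ : ℝ × ℝ) : ℝ := max |τ.1| |τ.2|

/-- exponent of the near set -/
def mTv (τ : ℝ × ℝ) : ℝ := 2 * |τ.1| + 2 * |τ.2| + |τ.1 - τ.2| / 2

/-- size of the field -/
def Szv (k : ℕ) (τ : ℝ × ℝ) : ℝ := Real.exp (8 / 3 * Mv τ) / k

/-- near set -/
def okv (k : ℕ) (τ : ℝ × ℝ) : Prop := mTv τ ≤ 17 / 40 * Real.log k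

/-- normaliser -/
def Pv (k : ℕ) (τ : ℝ × ℝ) : ℂ :=
  Pool.Agent.PB.Pf (PBT3.zt τ) (fun _ : Fin (k - 1) => (0 : ℂ)) (fun _ : Fin (k - 1) => (0 : ℂ))

/-- **the family of the left end** -/
def famV : Fam (ℝ × ℝ) where
  Z ep m τ := Zv ep m τ
  Pf m τ := Pv m τ
  top m := 2 * (m - 1)
  ok := okv
  bd _ τ := Real.exp |τ.1 + τ.2|

/-- **the family of the right end**, with the kernel `k1T` -/
def famW : Fam (ℝ × ℝ) where
  Z ep m τ := expZ (Zv ep m τ) (Dv τ) 1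
  Pf m τ := PBT3.k1T τ * (Complex.exp (-κv m τ) * Pv m τ)
  top m := 2 * (m - 1)
  ok := okv
  bd _ τ := Real.exp (-mTv τ)

/-- **the normalised functional on the path** -/
def nFv (ep e1 J : ℝ) (k : ℕ) (τ : ℝ × ℝ) (s : ℝ) : ℂ :=
  nF (fun _ => Zv ep k τ) (fun _ => Dv τ) (fun _ => NUSea.O.par0 k) (2 * (k - 1))
    (fun _ => cr e1 J k) (fun _ => cr' e1 J k) (fun _ => Pv k τ) 1 (κv k τ) s

end PBTV

end
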