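import Pool.Agent.PB.UXmap
import Pool.Agent.PB.UXfin
import Pool.Agent.PB.TRsV

/-!
# Plan B, (TR): U1, U3, U4 of the left end of the `s`-path (helper79)

`famV` of `PB/TRsV` is `famT` at the index `(0, zt τ)`, with a shorter sum over the number of quanta:
* **`ux_famV : UX famV`**, `mc_famV`.
-/

set_option autoImplicit false
set_option linter.unusedSectionVars false

noncomputable section

open Complex MeasureTheory Finset
open scoped ENNReal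

namespace PBTV

open NUO NUP1 NUP1S NUP1S.Ab NUP1S.AbC NUGC PBF PBP PBU

theorem mu1_zero (k : ℕ) : PBL.mu1 k 0 = fun _ => 0 := by
  unfold PBL.mu1
  funext i
  refine Fin.cases ?_ (fun j => ?_) i <;> simp

theorem okv_im {k : ℕ} {τ : ℝ × ℝ} (h : okv k τ) :
    |(PBT3.zt τ).im| ≤ 17 / 160 * Real.log k := by
  rw [PBT3.zt_im]
  unfold okv mTv at h
  have h1 : |(-(τ.1 + τ.2) / 2 : ℝ)| ≤ (|τ.1| + |τ.2|) / 2 := by
    rw [abs_div, abs_neg, abs_two]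
    have := abs_add_le τ.1 τ.2
    linarith
  have := abs_nonneg (τ.1 - τ.2)
  linarith

attribute [local instance] NUSea.seaP

/-- **U1, U3, U4 of the left end of the path** -/
theorem ux_famV : UX famV := by
  refine UX.map (F := famT) uxT (fun _ τ => (0, PBT3.zt τ)) (C := 1) (C' := 1) zero_le_one
    (fun m τ => (Real.exp_pos _).le) 2 fun m hm τ hτ => ?_
  obtain ⟨k, rfl⟩ : ∃ k, m = k + 2 := ⟨m - 2, by omega⟩
  have hL : 0 ≤ Real.log ((k + 2 : ℕ) : ℝ) := Real.log_natCast_nonneg _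
  have hl := NUP1.l_pos
  refine ⟨⟨?_, ?_, ?_, ?_, ?_⟩, fun ep => ?_, ?_, ?_, ?_⟩
  · show |(0 : ℂ).re| ≤ NUP1.l / 10
    simp
    positivity
  · show |(0 : ℂ).im| ≤ 2
    simp
  · show -(9 / 10 * NUP1.l) ≤ (PBT3.zt τ).re
    rw [PBT3.zt_re]
    linarith
  · show (PBT3.zt τ).re < 37 / 10 * NUP1.l
    rw [PBT3.zt_re]
    linarith
  · have := okv_im hτ
    show |(PBT3.zt τ).im| ≤ 3 / 20 * Real.log ((k + 2 : ℕ) : ℝ) + 2
    linarith
  · show PBX.ZL _ (fun _ : Fin (k + 1) => (0 : ℂ)) _ _ _ = PBX.ZL _ (PBL.mu1 k 0) _ _ _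
    rw [mu1_zero]
  · show ‖Pool.Agent.PB.Pf _ (fun _ : Fin (k + 1) => (0 : ℂ)) fun _ : Fin (k + 1) => (0 : ℂ)‖ ≤
      1 * ‖Pool.Agent.PB.Pf _ (PBL.mu1 k 0) (PBL.mu1 k 0)‖
    rw [mu1_zero, one_mul]
  · show 2 * (k + 2 - 1) ≤ 2 * (k + 2)
    omega
  · show Real.exp (2 * |(PBT3.zt τ).im|) ≤ 1 * Real.exp |τ.1 + τ.2|
    rw [one_mul, PBT3.zt_im, Real.exp_le_exp, abs_div, abs_neg, abs_two]
    linarith

theorem mc_famV (ep e1 J : ℝ) (m : ℕ) (τ : ℝ × ℝ) :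
    MC (famV.Z ep m τ) (NUSea.O.par0 m) (cr e1 J m) (cr' e1 J m) :=
  MC.of (PBX.ParC_par0 m).rm (fun a k => PBX.measurable_ZL _ _ _ _ _ a k) (mcr_cr e1 J m)

end PBTV

end
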