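import Pool.Agent.PB.EAbs
import Pool.Agent.NUP.MF.Shift
import Mathlib.Analysis.Fourier.Inversion

/-!
# Plan B: the transform of a test function (helper90)

`TC y₁ y₂ a M g`: `g` analytic for `y₁ < Im z < y₂`, `|g z| ≤ M e^{-a |Re z|}` (`PB/EAbs`).
`tr g k = ∫ g t e^{-ikt} dt`:
* `tr_shift`: the same integral on the line `Im z = y`;
* **`tr_le`**: `|tr g k| ≤ M (2 / (a - |Im k|)) e^{y Re k}` for every `y₁ < y < y₂`, `|Im k| < a`;
* **`tr_diff`**: `tr g` is analytic for `|Im k| < a`;
* `tr_zero`: `tr g 0 = mass g`;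
* **`tr_inv`**: `g z = (2π)⁻¹ ∫ tr g k e^{ikz} dk` on the strip.
-/

set_option autoImplicit false

open MeasureTheory Complex Filter Topology
open scoped ENNReal FourierTransform

noncomputable section

namespace PBE

/-- the transform -/
def tr (g : ℂ → ℂ) (k : ℂ) : ℂ := ∫ t : ℝ, g t * cexp (-(I * k * t))

lemma norm_ek (k z : ℂ) : ‖cexp (-(I * k * z))‖ = Real.exp (k.re * z.im + k.im * z.re) := by
  rw [norm_exp]
  congr 1
  simp

lemma tr_zero (g : ℂ → ℂ) : tr g 0 = mass g := by
  unfold tr mass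
  simp

section

variable {y₁ y₂ a M : ℝ} {g : ℂ → ℂ}

lemma isOpen_Sp (y₁ y₂ : ℝ) : IsOpen (Sp y₁ y₂) :=
  (isOpen_lt continuous_const Complex.continuous_im).inter
    (isOpen_lt Complex.continuous_im continuous_const)

lemma TC.cont (hg : TC y₁ y₂ a M g) {y : ℝ} (h1 : y₁ < y) (h2 : y < y₂) :
    Continuous fun t : ℝ => g (t + y * I) := by
  rw [continuous_iff_continuousAt]
  intro t
  have hm : (t + y * I : ℂ) ∈ Sp y₁ y₂ := ⟨by simpa using h1, by simpa using h2⟩
  have := (hg.an.differentiableAt ((isOpen_Sp y₁ y₂).mem_nhds hm)).continuousAt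
  exact ContinuousAt.comp (f := fun t : ℝ => (t + y * I : ℂ)) this (by fun_prop)

lemma TC.bdl (hg : TC y₁ y₂ a M g) {y : ℝ} (h1 : y₁ < y) (h2 : y < y₂) (t : ℝ) :
    ‖g (t + y * I)‖ ≤ M * Real.exp (-(a * |t|)) := by
  have := hg.bd (t + y * I) ⟨by simpa using h1, by simpa using h2⟩
  simpa using this

lemma TC.norm_mul_ek (hg : TC y₁ y₂ a M g) {y : ℝ} (h1 : y₁ < y) (h2 : y < y₂) (hM : 0 ≤ M) (k : ℂ)
    (t : ℝ) : ‖g (t + y * I) * cexp (-(I * k * (t + y * I)))‖ ≤
      M * Real.exp (y * k.re) * Real.exp (-((a - |k.im|) * |t|)) := by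
  rw [norm_mul, norm_ek]
  have h3 := hg.bdl h1 h2 t
  have h4 : k.im * t ≤ |k.im| * |t| := by
    rw [← abs_mul]
    exact le_abs_self _
  calc ‖g (t + y * I)‖ * Real.exp (k.re * (t + y * I : ℂ).im + k.im * (t + y * I : ℂ).re)
      ≤ (M * Real.exp (-(a * |t|))) * Real.exp (y * k.re + |k.im| * |t|) := by
        refine mul_le_mul h3 (Real.exp_le_exp.2 ?_) (Real.exp_pos _).le (by positivity)
        simp
        linarith
    _ = _ := by
        rw [mul_assoc, mul_assoc, ← Real.exp_add, ← Real.exp_add]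
        congr 2
        ring

lemma TC.int_ek (hg : TC y₁ y₂ a M g) {y : ℝ} (h1 : y₁ < y) (h2 : y < y₂) (hM : 0 ≤ M) {k : ℂ}
    (hk : |k.im| < a) : Integrable fun t : ℝ => g (t + y * I) * cexp (-(I * k * (t + y * I))) := by
  have hi := (int_exp_abs (a := a - |k.im|) (by linarith)).1.const_mul (M * Real.exp (y * k.re))
  refine hi.mono' ?_ (Eventually.of_forall fun t => hg.norm_mul_ek h1 h2 hM k t)
  exact ((hg.cont h1 h2).mul (by fun_prop)).aestronglyMeasurable

/-- **the shift of the line** -/
theorem tr_shift (hg : TC y₁ y₂ a M g) (h1 : y₁ < 0) (h2 : 0 < y₂) {y : ℝ} (h3 : y₁ < y) (h4 : y < y₂)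
    {k : ℂ} (hk : |k.im| < a) :
    tr g k = ∫ t : ℝ, g (t + y * I) * cexp (-(I * k * (t + y * I))) := by
  have hM := hg.nonneg h1 h2
  have key : ∀ (u v : ℝ), y₁ < u → v < y₂ → u ≤ v →
      ∫ t : ℝ, g (t + u * I) * cexp (-(I * k * (t + u * I))) =
      ∫ t : ℝ, g (t + v * I) * cexp (-(I * k * (t + v * I))) := by
    intro u v hu hv huv
    set Φ : ℂ → ℂ := fun z => g (z + u * I) * cexp (-(I * k * (z + u * I))) with hΦ
    have hmem : ∀ z : ℂ, 0 ≤ z.im → z.im ≤ v - u → (z + u * I) ∈ Sp y₁ y₂ := by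
      intro z hz1 hz2
      constructor
      · simp
        linarith
      · simp
        linarith
    have hdiff : ∀ z : ℂ, 0 ≤ z.im → z.im ≤ v - u → DifferentiableAt ℂ Φ z := by
      intro z hz1 hz2
      have e1 : DifferentiableAt ℂ g (z + u * I) :=
        hg.an.differentiableAt ((isOpen_Sp y₁ y₂).mem_nhds (hmem z hz1 hz2))
      have e2 : DifferentiableAt ℂ (fun z => g (z + u * I)) z :=
        DifferentiableAt.comp (f := fun z : ℂ => z + u * I) z e1 (by fun_prop)
      exact e2.mul (by fun_prop)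
    have h5 := NUMF.hshift (Φ := Φ) (θ := v - u) (C := M * Real.exp ((|u| + |v|) * |k.re|))
      (κ := a - |k.im|) (by linarith) (by linarith)
      (fun z hz => (hdiff z hz.1 hz.2).continuousAt.continuousWithinAt)
      (fun z hz1 hz2 => hdiff z hz1.le hz2.le)
      (by
        intro z hz1 hz2 _
        have hm := hmem z hz1 hz2
        have e : z + u * I = ((z.re : ℝ) : ℂ) + ((z.im + u : ℝ) : ℂ) * I := by
          apply Complex.ext <;> simp
        have h6 := hg.norm_mul_ek (y := z.im + u) (by linarith) (by linarith) hM k z.re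
        rw [← e] at h6
        refine h6.trans ?_
        have h7 : (z.im + u) * k.re ≤ (|u| + |v|) * |k.re| := by
          refine (le_abs_self _).trans ?_
          rw [abs_mul]
          refine mul_le_mul_of_nonneg_right ?_ (abs_nonneg _)
          rw [abs_le]
          constructor
          · have := neg_abs_le u
            have := abs_nonneg v
            linarith
          · have := le_abs_self v
            have := abs_nonneg u
            linarith
        have h8 : M * Real.exp ((z.im + u) * k.re) ≤ M * Real.exp ((|u| + |v|) * |k.re|) :=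
          mul_le_mul_of_nonneg_left (Real.exp_le_exp.2 h7) hM
        refine (mul_le_mul_of_nonneg_right h8 (Real.exp_pos _).le).trans (le_of_eq ?_)
        congr 2
        ring)
    have h6 := h5.2.2
    simp only [hΦ] at h6
    rw [h6]
    refine integral_congr_ae (Eventually.of_forall fun t => ?_)
    simp only []
    have e : (t : ℂ) + ((v - u : ℝ) : ℂ) * I + u * I = t + v * I := by
      push_cast
      ring
    rw [e]
  have h0 : tr g k = ∫ t : ℝ, g (t + ((0 : ℝ) : ℂ) * I) * cexp (-(I * k * (t + ((0 : ℝ) : ℂ) * I))) := by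
    unfold tr
    refine integral_congr_ae (Eventually.of_forall fun t => ?_)
    simp
  rw [h0]
  rcases le_total 0 y with h | h
  · exact key 0 y h1 h4 h
  · exact (key y 0 h3 h2 h).symm

/-- **the bound of the transform** -/
theorem tr_le (hg : TC y₁ y₂ a M g) (h1 : y₁ < 0) (h2 : 0 < y₂) {y : ℝ} (h3 : y₁ < y) (h4 : y < y₂)
    {k : ℂ} (hk : |k.im| < a) :
    ‖tr g k‖ ≤ M * (2 / (a - |k.im|)) * Real.exp (y * k.re) := by
  have hM := hg.nonneg h1 h2
  rw [tr_shift hg h1 h2 h3 h4 hk]
  have hi := int_exp_abs (a := a - |k.im|) (by linarith)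
  refine (norm_integral_le_of_norm_le (hi.1.const_mul (M * Real.exp (y * k.re)))
    (Eventually.of_forall fun t => hg.norm_mul_ek h3 h4 hM k t)).trans (le_of_eq ?_)
  rw [integral_const_mul, hi.2]
  ring

/-- **the derivative of the transform** -/
theorem tr_hasDeriv (hg : TC y₁ y₂ a M g) (h1 : y₁ < 0) (h2 : 0 < y₂) {k : ℂ} (hk' : |k.im| < a) :
    HasDerivAt (tr g) (∫ t : ℝ, g t * (-(I * t) * cexp (-(I * k * t)))) k := by
  have hM := hg.nonneg h1 h2
  obtain ⟨d, hd⟩ : ∃ d : ℝ, d = (a - |k.im|) / 4 := ⟨_, rfl⟩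
  have hd0 : 0 < d := by rw [hd]; linarith
  have hcont : Continuous fun t : ℝ => g t := by
    have := hg.cont h1 h2
    simpa using this
  have hbd : ∀ t : ℝ, ‖g t‖ ≤ M * Real.exp (-(a * |t|)) := by
    intro t
    have := hg.bdl h1 h2 t
    simpa using this
  have key := hasDerivAt_integral_of_dominated_loc_of_deriv_le (μ := volume)
    (F := fun (k : ℂ) (t : ℝ) => g t * cexp (-(I * k * t)))
    (F' := fun (k : ℂ) (t : ℝ) => g t * (-(I * t) * cexp (-(I * k * t))))
    (x₀ := k) (bound := fun t => M / d * Real.exp (-(d * |t|))) (s := Metric.ball k d)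
    (Metric.ball_mem_nhds k hd0)
    (Eventually.of_forall fun k => (hcont.mul (by fun_prop)).aestronglyMeasurable)
    (by
      have := hg.int_ek h1 h2 hM hk'
      simpa using this)
    ((hcont.mul (by fun_prop)).aestronglyMeasurable)
    (Eventually.of_forall fun t q hq => by
      rw [norm_mul, norm_mul, norm_ek]
      have h5 : |q.im| ≤ |k.im| + d := by
        have h6 := (abs_im_le_norm (q - k)).trans (mem_ball_iff_norm.1 hq).le
        have h7 : q.im = k.im + (q - k).im := by simp
        rw [h7]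
        exact (abs_add_le _ _).trans (by linarith)
      have h8 : ‖-(I * (t : ℂ))‖ = |t| := by simp
      have h9 : |t| ≤ 1 / d * Real.exp (d * |t|) := by
        have := Real.add_one_le_exp (d * |t|)
        rw [one_div, inv_mul_eq_div, le_div_iff₀ hd0]
        linarith
      rw [h8]
      have h10 : q.im * t ≤ (|k.im| + d) * |t| := by
        refine (le_abs_self _).trans ?_
        rw [abs_mul]
        exact mul_le_mul_of_nonneg_right h5 (abs_nonneg _)
      calc ‖g t‖ * (|t| * Real.exp (q.re * (t : ℂ).im + q.im * (t : ℂ).re))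
          ≤ (M * Real.exp (-(a * |t|))) * ((1 / d * Real.exp (d * |t|)) *
            Real.exp ((|k.im| + d) * |t|)) := by
            refine mul_le_mul (hbd t) (mul_le_mul h9 (Real.exp_le_exp.2 ?_) (Real.exp_pos _).le
              (by positivity)) (by positivity) (by positivity)
            simpa using h10
        _ = M / d * Real.exp (-(a * |t|) + d * |t| + (|k.im| + d) * |t|) := by
            rw [Real.exp_add, Real.exp_add]
            ring
        _ ≤ M / d * Real.exp (-(d * |t|)) := by
            refine mul_le_mul_of_nonneg_left (Real.exp_le_exp.2 ?_) (by positivity)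
            have h11 : a = |k.im| + 4 * d := by rw [hd]; ring
            rw [h11]
            have := mul_nonneg hd0.le (abs_nonneg t)
            nlinarith)
    ((int_exp_abs hd0).1.const_mul _)
    (Eventually.of_forall fun t q _ => by
      have h5 : HasDerivAt (fun q : ℂ => cexp (-(I * q * t))) (cexp (-(I * q * t)) * (-(I * t))) q := by
        have h6 : HasDerivAt (fun q : ℂ => -(I * q * t)) (-(I * t)) q := by
          have h8 : HasDerivAt (fun q : ℂ => -(I * q * t)) (-(I * 1 * t)) q :=
            (((hasDerivAt_id q).const_mul I).mul_const (t : ℂ)).neg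
          rwa [mul_one] at h8
        exact h6.cexp
      have h7 := h5.const_mul (g t)
      rwa [mul_comm (cexp (-(I * q * t)))] at h7)
  exact key.2

/-- **the transform is analytic** -/
theorem tr_diff (hg : TC y₁ y₂ a M g) (h1 : y₁ < 0) (h2 : 0 < y₂) :
    DifferentiableOn ℂ (tr g) {k : ℂ | |k.im| < a} :=
  fun _ hk => (tr_hasDeriv hg h1 h2 hk).differentiableAt.differentiableWithinAt

/-- **inversion** -/
theorem tr_inv (hg : TC y₁ y₂ a M g) (ha : 0 < a) (h1 : y₁ < 0) (h2 : 0 < y₂) {z : ℂ}
    (hz : z ∈ Sp y₁ y₂) :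
    Integrable (fun k : ℝ => tr g k * cexp (I * k * z)) ∧
    g z = (2 * Real.pi : ℂ)⁻¹ * ∫ k : ℝ, tr g k * cexp (I * k * z) := by
  have hM := hg.nonneg h1 h2
  obtain ⟨y, hy⟩ : ∃ y : ℝ, y = z.im := ⟨_, rfl⟩
  obtain ⟨x, hx⟩ : ∃ x : ℝ, x = z.re := ⟨_, rfl⟩
  have h3 : y₁ < y := by rw [hy]; exact hz.1
  have h4 : y < y₂ := by rw [hy]; exact hz.2
  have ez : z = x + y * I := by
    rw [hx, hy]
    exact (re_add_im z).symm
  obtain ⟨d, hd⟩ : ∃ d : ℝ, d = min (y - y₁) (y₂ - y) / 2 := ⟨_, rfl⟩
  have hd0 : 0 < d := by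
    rw [hd]
    have : 0 < min (y - y₁) (y₂ - y) := lt_min (by linarith) (by linarith)
    linarith
  have hd1 : y₁ < y - d := by
    have := min_le_left (y - y₁) (y₂ - y)
    rw [hd]
    linarith
  have hd2 : y + d < y₂ := by
    have := min_le_right (y - y₁) (y₂ - y)
    rw [hd]
    linarith
  have hreal : ∀ k : ℝ, |((k : ℂ)).im| < a := fun k => by simpa using ha
  -- decay of the transform of the line `y`
  have hdec : ∀ k : ℝ, ‖tr g k‖ * Real.exp (-(y * k)) ≤ M * (2 / a) * Real.exp (-(d * |k|)) := by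
    intro k
    rcases le_total 0 k with hk | hk
    · have h5 := tr_le hg h1 h2 hd1 (by linarith) (hreal k)
      simp only [ofReal_im, abs_zero, sub_zero, ofReal_re] at h5
      calc ‖tr g k‖ * Real.exp (-(y * k)) ≤ (M * (2 / a) * Real.exp ((y - d) * k)) * Real.exp (-(y * k)) :=
            mul_le_mul_of_nonneg_right h5 (Real.exp_pos _).le
        _ = _ := by
            rw [mul_assoc, ← Real.exp_add, abs_of_nonneg hk]
            congr 2
            ring
    · have h5 := tr_le hg h1 h2 (by linarith) hd2 (hreal k)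
      simp only [ofReal_im, abs_zero, sub_zero, ofReal_re] at h5
      calc ‖tr g k‖ * Real.exp (-(y * k)) ≤ (M * (2 / a) * Real.exp ((y + d) * k)) * Real.exp (-(y * k)) :=
            mul_le_mul_of_nonneg_right h5 (Real.exp_pos _).le
        _ = _ := by
            rw [mul_assoc, ← Real.exp_add, abs_of_nonpos hk]
            congr 2
            ring
  have hctr : Continuous fun k : ℝ => tr g k := by
    rw [continuous_iff_continuousAt]
    intro k
    have hopen : IsOpen {k : ℂ | |k.im| < a} := isOpen_lt (by fun_prop) continuous_const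
    have h5 := ((tr_diff hg h1 h2).differentiableAt (hopen.mem_nhds (hreal k))).continuousAt
    exact ContinuousAt.comp (f := fun k : ℝ => (k : ℂ)) h5 (by fun_prop)
  have hek : ∀ k : ℝ, ‖cexp (I * k * z)‖ = Real.exp (-(y * k)) := by
    intro k
    rw [norm_exp]
    congr 1
    rw [ez]
    simp
    ring
  have hint : Integrable (fun k : ℝ => tr g k * cexp (I * k * z)) := by
    refine ((int_exp_abs hd0).1.const_mul (M * (2 / a))).mono'
      (hctr.mul (by fun_prop)).aestronglyMeasurable (Eventually.of_forall fun k => ?_)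
    rw [norm_mul, hek]
    exact hdec k
  refine ⟨hint, ?_⟩
  -- the Fourier transform of the line
  set G : ℝ → ℂ := fun t => g (t + y * I) with hG
  have hGc : Continuous G := hg.cont h3 h4
  have hGi : Integrable G := by
    refine ((int_exp_abs ha).1.const_mul M).mono' hGc.aestronglyMeasurable
      (Eventually.of_forall fun t => hg.bdl h3 h4 t)
  have hF : ∀ ξ : ℝ, 𝓕 G ξ = tr g ((2 * Real.pi * ξ : ℝ) : ℂ) * cexp (-(y * (2 * Real.pi * ξ : ℝ))) := by
    intro ξ
    rw [Real.fourier_eq']
    rw [tr_shift hg h1 h2 h3 h4 (hreal _), ← integral_mul_const]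
    refine integral_congr_ae (Eventually.of_forall fun t => ?_)
    simp only [hG, smul_eq_mul]
    have e5 : (inner ℝ t ξ : ℝ) = ξ * t := rfl
    rw [mul_assoc (g _), ← Complex.exp_add, mul_comm, e5]
    congr 2
    push_cast
    linear_combination ((2 * Real.pi * ξ * y : ℂ)) * I_sq
  have hFi : Integrable (𝓕 G) := by
    have e : 𝓕 G = fun ξ : ℝ => tr g ((2 * Real.pi * ξ : ℝ) : ℂ) * cexp (-(y * (2 * Real.pi * ξ : ℝ))) :=
      funext hF
    rw [e]
    have h5 : Integrable (fun k : ℝ => tr g k * cexp (-(y * k))) := by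
      refine ((int_exp_abs hd0).1.const_mul (M * (2 / a))).mono'
        (hctr.mul (by fun_prop)).aestronglyMeasurable (Eventually.of_forall fun k => ?_)
      rw [norm_mul, norm_exp]
      have e1 : (-((y : ℂ) * (k : ℂ))).re = -(y * k) := by simp
      rw [e1]
      exact hdec k
    exact h5.comp_mul_left' (by positivity)
  have hinv := hGi.fourierInv_fourier_eq hFi (v := x) hGc.continuousAt
  have e1 : G x = g z := by
    simp only [hG]
    rw [ez]
  rw [← e1, ← hinv, Real.fourierInv_eq']
  have e2 : ∀ ξ : ℝ, cexp ((↑(2 * Real.pi * inner ℝ ξ x) : ℂ) * I) • 𝓕 G ξ =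
      (fun k : ℝ => tr g k * cexp (I * k * z)) (2 * Real.pi * ξ) := by
    intro ξ
    simp only [smul_eq_mul]
    rw [hF ξ, mul_comm, mul_assoc, ← Complex.exp_add]
    congr 2
    rw [ez]
    simp only [RCLike.inner_apply, conj_trivial]
    push_cast
    linear_combination (-(2 * Real.pi * ξ * y : ℂ)) * I_sq
  have e3 : (∫ ξ : ℝ, cexp ((↑(2 * Real.pi * inner ℝ ξ x) : ℂ) * I) • 𝓕 G ξ) =
      ∫ ξ : ℝ, (fun k : ℝ => tr g k * cexp (I * k * z)) (2 * Real.pi * ξ) :=
    integral_congr_ae (Eventually.of_forall e2)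
  have e4 := Measure.integral_comp_mul_left (fun k : ℝ => tr g k * cexp (I * k * z)) (2 * Real.pi)
  rw [e3, e4, abs_of_pos (by positivity), real_smul]
  push_cast
  rfl

end

end PBE
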