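import Pool.Agent.PB.Dict
import Pool.Agent.PB.MFh
import Pool.Agent.PB.TrC

/-!
# Plan B: dictionary in the form of `PB.rsp` (response of a field, `PB/MFh`)

`β` in `PBE.TC (-b) b κ Mβ`, `κ ≥ 1/2`.
* `ft_tr`: `ft (rl g) q = PBE.tr g q`; `TC_Lim2`: `Lim` for `β` and for its derivative;
* **`dictR_C`, `dictR_m`**: `PB.rsp (fun _ => β) s t = g t` for real `t` implies
  `2 ∫ β h' = CV g h`, `2 ∫ β h0 = mV mf g`;
* **`dictR_Cm`, `dictR_Cs`**: `PB.rsp (fun s => if s then -β else β) false t = g t` implies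
  `2 ∫ β h' = CmV g h`, `2 ∫ β sg' = CsV sg' g`;
* **`dictR_sC`, `dictR_Css`**: the same with `g = sg`: `2 ∫ β h' = CsV sg' h`, `2 ∫ β sg' = CssV sg'`.
-/

set_option autoImplicit false

open MeasureTheory Set Filter Topology

namespace Pool.Agent.PB

open NUMF

noncomputable section

lemma ft_tr (g : ℂ → ℂ) (q : ℝ) : ft (rl g) q = PBE.tr g q := by
  unfold ft rl ek PBE.tr
  refine integral_congr_ae (Eventually.of_forall fun t => ?_)
  simp only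
  congr 2
  push_cast
  ring

/-- the two antisymmetric fields -/
def asym (β : ℂ → ℂ) (s : Bool) : ℂ → ℂ := fun z => if s then -β z else β z

section

variable {b κ Mβ : ℝ} {β : ℂ → ℂ}

/-- a test function and its derivative on the real line -/
theorem TC_Lim2 (hβ : PBE.TC (-b) b κ Mβ β) (hκ : 1 / 2 ≤ κ) (hb : 0 < b) :
    ∃ B, Lim (rl β) (rl (deriv β)) B 0 0 ∧ Lim (rl (deriv β)) (rl (deriv (deriv β))) B 0 0 := by
  have hM := hβ.nonneg (by linarith) hb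
  have l1 := TC_Lim hβ hκ (ρ := b / 2) (by linarith) (by linarith) (by linarith)
  have h2 := TC_derivTC hβ (by linarith) hM (ρ := b / 2) (by linarith)
  have l2 := TC_Lim h2 hκ (ρ := b / 4) (by linarith) (by linarith) (by linarith)
  exact ⟨_, l1.mono (le_max_left _ _), l2.mono (le_max_right _ _)⟩

lemma rsp_plus {g : ℂ → ℂ} {s : Bool} (he : ∀ t : ℝ, PB.rsp (fun _ => β) s t = g t) (t : ℝ) :
    ∫ u, rl (deriv β) u * (V (t - u) : ℂ) = -rl g t := by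
  have h1 := he t
  unfold PB.rsp at h1
  have h2 : PB.cG (fun w => β w - β w) t = 0 := by
    unfold PB.cG
    simp
  rw [h2, add_zero, PB.cV_real] at h1
  unfold rl
  rw [← h1]
  ring

lemma rsp_minus {g : ℝ → ℂ} (hi : Integrable (rl β))
    (he : ∀ t : ℝ, PB.rsp (asym β) false t = g t) (t : ℝ) :
    g t = -(∫ u, rl (deriv β) u * (V (t - u) : ℂ)) + 2 * ∫ u, rl β u * (Gs (t - u) : ℂ) := by
  have h1 := he t
  unfold PB.rsp at h1
  have e1 : asym β false = β := by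
    funext z
    simp [asym]
  have e2 : (fun w => asym β false w - asym β (!false) w) = fun w => 2 * β w := by
    funext z
    simp [asym]
    ring
  rw [e2, e1, PB.cV_real, PB.cG_real] at h1
  rw [← h1]
  have e3 : ∫ u : ℝ, 2 * β u * (Kg (t - u) : ℂ) = -(2 * ∫ u, rl β u * (Gs (t - u) : ℂ)) := by
    rw [← integral_const_mul, ← integral_neg]
    refine integral_congr_ae (Eventually.of_forall fun u => ?_)
    simp only [rl, Gs]
    push_cast
    ring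
  rw [e3]
  unfold rl
  ring

variable {y₁ y₂ a M M' θ : ℝ} {g h : ℂ → ℂ}

/-- **covariance, plus channel** -/
theorem dictR_C (hβ : PBE.TC (-b) b κ Mβ β) (hκ : 1 / 2 ≤ κ) (hb : 0 < b) (hh : PBE.TC y₁ y₂ a M h)
    (ha : 1 / 2 ≤ a) (hθ : 0 < θ) (h1 : y₁ < -θ) (h2 : θ < y₂) {s : Bool}
    (he : ∀ t : ℝ, PB.rsp (fun _ => β) s t = g t) :
    (Integrable fun t : ℝ => β t * deriv h (t : ℂ)) ∧
    2 * ∫ t : ℝ, β t * deriv h (t : ℂ) = CV g h := by
  obtain ⟨B, lβ, -⟩ := TC_Lim2 hβ hκ hb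
  have lh := TC_Lim hh ha hθ h1 h2
  have hi : Integrable fun t : ℝ => rl β t * deriv h (t : ℂ) :=
    (TC_int hβ (by linarith) (by linarith) hb).mul_bdd (c := _) lh.c.aestronglyMeasurable
      (Eventually.of_forall lh.b'')
  refine ⟨hi, ?_⟩
  have := dict_C hh (by linarith) hθ h1 h2 lβ (rsp_plus he) hi
  exact this

/-- **mean, plus channel** -/
theorem dictR_m {m m' D : ℝ → ℂ} {h0 : ℂ → ℂ} {B : ℝ} {mp mm : ℂ} (hm : MeanDat m m' D (rl h0) B mp mm)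
    (hβ : PBE.TC (-b) b κ Mβ β) (hκ : 1 / 2 ≤ κ) (hb : 0 < b) (hh : PBE.TC y₁ y₂ a M h0)
    (ha : 0 < a) (h1 : y₁ < 0) (h2 : 0 < y₂) {s : Bool}
    (he : ∀ t : ℝ, PB.rsp (fun _ => β) s t = g t) :
    (Integrable fun t : ℝ => β t * h0 (t : ℂ)) ∧
    2 * ∫ t : ℝ, β t * h0 (t : ℂ) = mV m g := by
  obtain ⟨B', lβ, -⟩ := TC_Lim2 hβ hκ hb
  have i0 := TC_int hh ha h1 h2
  refine ⟨?_, dict_m hm i0 (TC_cont hh h1 h2) lβ (rsp_plus he)⟩
  exact i0.bdd_mul (c := B') lβ.cont.aestronglyMeasurable (Eventually.of_forall lβ.b)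

/-- **covariance, minus channel** -/
theorem dictR_Cm (hβ : PBE.TC (-b) b κ Mβ β) (hκ : 1 / 2 ≤ κ) (hb : 0 < b) (hg : PBE.TC y₁ y₂ a M' g)
    (hh : PBE.TC y₁ y₂ a M h) (ha : 1 / 2 ≤ a) (hθ : 0 < θ) (h1 : y₁ < -θ) (h2 : θ < y₂)
    (he : ∀ t : ℝ, PB.rsp (asym β) false t = g t) :
    (Integrable fun t : ℝ => β t * deriv h (t : ℂ)) ∧
    2 * ∫ t : ℝ, β t * deriv h (t : ℂ) = CmV g h := by
  obtain ⟨B, lβ, lβ'⟩ := TC_Lim2 hβ hκ hb
  have lh := TC_Lim hh ha hθ h1 h2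
  have ib := TC_int hβ (by linarith) (by linarith) hb
  have hi : Integrable fun t : ℝ => rl β t * deriv h (t : ℂ) :=
    ib.mul_bdd (c := _) lh.c.aestronglyMeasurable (Eventually.of_forall lh.b'')
  exact ⟨hi, dict_Cm hg hh ha hθ h1 h2 lβ lβ' (rsp_minus (g := rl g) ib he)⟩

/-- **a test function and the smooth sign, minus channel** -/
theorem dictR_Cs (hβ : PBE.TC (-b) b κ Mβ β) (hκ : 1 / 2 ≤ κ) (hb : 0 < b) (hg : PBE.TC y₁ y₂ a M' g)
    (ha : 1 / 2 ≤ a) (hθ : 0 < θ) (h1 : y₁ < -θ) (h2 : θ < y₂)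
    (he : ∀ t : ℝ, PB.rsp (asym β) false t = g t) {sg' : ℝ → ℂ} (hs : Integrable sg') :
    2 * ∫ t : ℝ, β t * sg' t = CsV sg' g := by
  obtain ⟨B, lβ, lβ'⟩ := TC_Lim2 hβ hκ hb
  have ib := TC_int hβ (by linarith) (by linarith) hb
  exact dict_Cs hg ha hθ h1 h2 lβ lβ' (rsp_minus (g := rl g) ib he) hs

/-- **the smooth sign and a test function, minus channel** -/
theorem dictR_sC (hβ : PBE.TC (-b) b κ Mβ β) (hκ : 1 / 2 ≤ κ) (hb : 0 < b) (hh : PBE.TC y₁ y₂ a M h)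
    (ha : 1 / 2 ≤ a) (hθ : 0 < θ) (h1 : y₁ < -θ) (h2 : θ < y₂) {sg sg' : ℝ → ℂ}
    (hs : ∀ t, HasDerivAt sg (sg' t) t) (he : ∀ t : ℝ, PB.rsp (asym β) false t = sg t) :
    (Integrable fun t : ℝ => β t * deriv h (t : ℂ)) ∧
    2 * ∫ t : ℝ, β t * deriv h (t : ℂ) = CsV sg' h := by
  obtain ⟨B, lβ, lβ'⟩ := TC_Lim2 hβ hκ hb
  have lh := TC_Lim hh ha hθ h1 h2
  have ib := TC_int hβ (by linarith) (by linarith) hb
  have hi : Integrable fun t : ℝ => rl β t * deriv h (t : ℂ) :=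
    ib.mul_bdd (c := _) lh.c.aestronglyMeasurable (Eventually.of_forall lh.b'')
  exact ⟨hi, dict_sC hh ha hθ h1 h2 lβ lβ' hs (rsp_minus ib he)⟩

/-- **the smooth sign and itself, minus channel** -/
theorem dictR_Css (hβ : PBE.TC (-b) b κ Mβ β) (hκ : 1 / 2 ≤ κ) (hb : 0 < b) {sg sg' : ℝ → ℂ}
    (hs : ∀ t, HasDerivAt sg (sg' t) t) (hi : Integrable sg')
    (he : ∀ t : ℝ, PB.rsp (asym β) false t = sg t) :
    2 * ∫ t : ℝ, β t * sg' t = CssV sg' := by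
  obtain ⟨B, lβ, lβ'⟩ := TC_Lim2 hβ hκ hb
  have ib := TC_int hβ (by linarith) (by linarith) hb
  exact dict_Css lβ lβ' hs hi (rsp_minus ib he)

end

end

end Pool.Agent.PB
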