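import Pool.Agent.PB.EInst
import Pool.Agent.PB.Dict

/-!
# Plan B: the data of `VDat` and `(E')` at the true field, rows on the imaginary axis

* `XiA.lim`: a field is `Lim` on the real line; `lim_sg`, `lim_sg'`: the smooth sign `tanh 2t`;
* **`vdat`**: `VDat` at the field `rF x i0`, leg at height `τ`, one constant for all `m`, `x`, `i0`,
  `|τ| ≤ 1`, for every mean density `MeanDat`;
* **`E_field`**: `(E')` with one constant.
-/

set_option autoImplicit false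

open Complex Set Filter Topology MeasureTheory

noncomputable section

namespace PBEI

open NUMF (l r l_pos r_pos r_lt_one)
open PBForce (xiR xiP xiM Rws0 pc rhoR)
open PBV
open Pool.Agent.PB (Lim rl KC KmC MeasR MeanDat VDat Kw Kg TC_Lim mV CV CmV CsV CssV)

/-! ### fields and the smooth sign on the real line -/

lemma tendsto_exp_abs {c : ℝ} (hc : 0 < c) {F : Filter ℝ} (hF : Tendsto (fun t : ℝ => |t|) F atTop) :
    Tendsto (fun t : ℝ => Real.exp (-(c * |t|))) F (𝓝 0) :=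
  Real.tendsto_exp_atBot.comp (tendsto_neg_atTop_atBot.comp (hF.const_mul_atTop hc))

/-- a field on the real line -/
theorem XiA.lim {ξ : ℂ → ℂ} {b K c : ℝ} {xp xm : ℂ} (H : XiA ξ b K c xp xm) (hc : 1 / 2 ≤ c) :
    Lim (rl ξ) (fun t : ℝ => deriv ξ t) (K + ‖xp‖ + ‖xm‖) xp xm := by
  have hK := H.K0
  have hb0 := H.b0
  have him : ∀ t : ℝ, |(t : ℂ).im| ≤ b := fun t => by simpa using hb0.le
  have hre : ∀ t : ℝ, (t : ℂ).re = t := fun t => ofReal_re t
  have hE1 : ∀ t : ℝ, Real.exp (-(c * |t|)) ≤ 1 := fun t =>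
    Real.exp_le_one_iff.2 (by nlinarith [abs_nonneg t, H.c0])
  have hc0 : 0 < c := by linarith
  refine ⟨fun t => (H.an t (him t)).hasDerivAt.comp_ofReal, ?_, fun t => ?_, fun t => ?_, ?_, ?_⟩
  · have hS : IsOpen {x : ℂ | |x.im| < b} := isOpen_lt (continuous_abs.comp continuous_im) continuous_const
    have h1 : DifferentiableOn ℂ ξ {x : ℂ | |x.im| < b} := fun x hx => (H.an x (le_of_lt hx)).differentiableWithinAt
    have h2 : DifferentiableOn ℂ (deriv ξ) {x : ℂ | |x.im| < b} := h1.deriv hS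
    refine continuous_iff_continuousAt.2 fun t => ?_
    have h3 : ContinuousAt (deriv ξ) (t : ℂ) :=
      (h2.differentiableAt (hS.mem_nhds (by show |(t : ℂ).im| < b; simpa using hb0))).continuousAt
    exact ContinuousAt.comp (f := fun t : ℝ => (t : ℂ)) h3 continuous_ofReal.continuousAt
  · show ‖ξ t‖ ≤ _
    rcases le_total 0 t with h | h
    · have h1 := H.pp t (him t) (by rw [hre]; exact h)
      rw [hre] at h1
      have h2 : ‖ξ t‖ ≤ ‖ξ t - xp‖ + ‖xp‖ := by simpa using norm_add_le (ξ t - xp) xp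
      have h3 : K * Real.exp (-(c * |t|)) ≤ K * 1 := by gcongr; exact hE1 t
      linarith [norm_nonneg xm]
    · have h1 := H.pm t (him t) (by rw [hre]; exact h)
      rw [hre] at h1
      have h2 : ‖ξ t‖ ≤ ‖ξ t - xm‖ + ‖xm‖ := by simpa using norm_add_le (ξ t - xm) xm
      have h3 : K * Real.exp (-(c * |t|)) ≤ K * 1 := by gcongr; exact hE1 t
      linarith [norm_nonneg xp]
  · have h1 := H.db t (him t)
    rw [hre] at h1
    refine h1.trans ?_
    have h2 : Real.exp (-(c * |t|)) ≤ Real.exp (-(|t| / 2)) :=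
      Real.exp_le_exp.2 (by nlinarith [abs_nonneg t])
    have := norm_nonneg xp
    have := norm_nonneg xm
    gcongr
    linarith
  · rw [tendsto_iff_norm_sub_tendsto_zero]
    have h1 := (tendsto_exp_abs hc0 tendsto_abs_atTop_atTop).const_mul K
    rw [mul_zero] at h1
    refine squeeze_zero' (Eventually.of_forall fun _ => norm_nonneg _) ?_ h1
    filter_upwards [eventually_ge_atTop 0] with t ht
    have h2 := H.pp t (him t) (by rw [hre]; exact ht)
    rw [hre] at h2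
    exact h2
  · rw [tendsto_iff_norm_sub_tendsto_zero]
    have h1 := (tendsto_exp_abs hc0 tendsto_abs_atBot_atTop).const_mul K
    rw [mul_zero] at h1
    refine squeeze_zero' (Eventually.of_forall fun _ => norm_nonneg _) ?_ h1
    filter_upwards [eventually_le_atBot 0] with t ht
    have h2 := H.pm t (him t) (by rw [hre]; exact ht)
    rw [hre] at h2
    exact h2

/-- the smooth sign -/
def sg (t : ℝ) : ℂ := tgh t

/-- its derivative -/
def sg' (t : ℝ) : ℂ := 2 / cosh (2 * (t : ℂ)) ^ 2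

/-- second derivative -/
def sg'' (t : ℝ) : ℂ := -(8 * sinh (2 * (t : ℂ)) / cosh (2 * (t : ℂ)) ^ 3)

lemma sg_eq (t : ℝ) : sg t = ((Real.tanh (2 * t) : ℝ) : ℂ) := by
  unfold sg tgh
  rw [Real.tanh_eq_sinh_div_cosh]
  push_cast
  rfl

lemma cosh2_real (t : ℝ) : cosh (2 * (t : ℂ)) = ((Real.cosh (2 * t) : ℝ) : ℂ) := by push_cast; rfl
lemma sinh2_real (t : ℝ) : sinh (2 * (t : ℂ)) = ((Real.sinh (2 * t) : ℝ) : ℂ) := by push_cast; rfl

lemma cosh2_real_ne (t : ℝ) : cosh (2 * (t : ℂ)) ≠ 0 := by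
  rw [cosh2_real]; exact_mod_cast (Real.cosh_pos (2 * t)).ne'

lemma hasDerivAt_sg (t : ℝ) : HasDerivAt sg (sg' t) t := by
  have h0 := cosh2_real_ne t
  have hs : HasDerivAt (fun z : ℂ => sinh (2 * z)) (cosh (2 * (t : ℂ)) * 2) t := by
    have h1 : HasDerivAt (fun z : ℂ => 2 * z) 2 (t : ℂ) := by simpa using (hasDerivAt_id (t : ℂ)).const_mul 2
    exact h1.csinh
  have hc : HasDerivAt (fun z : ℂ => cosh (2 * z)) (sinh (2 * (t : ℂ)) * 2) t := by
    have h1 : HasDerivAt (fun z : ℂ => 2 * z) 2 (t : ℂ) := by simpa using (hasDerivAt_id (t : ℂ)).const_mul 2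
    exact h1.ccosh
  have h2 : HasDerivAt (fun z : ℂ => sinh (2 * z) / cosh (2 * z)) _ (t : ℂ) := hs.div hc h0
  have h3 : HasDerivAt (fun z : ℂ => sinh (2 * z) / cosh (2 * z)) (sg' t) (t : ℂ) := by
    refine h2.congr_deriv ?_
    unfold sg'
    congr 1
    have h4 := Complex.cosh_sq (2 * (t : ℂ))
    linear_combination 2 * h4
  exact h3.comp_ofReal

lemma hasDerivAt_sg' (t : ℝ) : HasDerivAt sg' (sg'' t) t := by
  have h0 := cosh2_real_ne t
  have hc : HasDerivAt (fun z : ℂ => cosh (2 * z)) (sinh (2 * (t : ℂ)) * 2) t := by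
    have h1 : HasDerivAt (fun z : ℂ => 2 * z) 2 (t : ℂ) := by simpa using (hasDerivAt_id (t : ℂ)).const_mul 2
    exact h1.ccosh
  have h1 : HasDerivAt (fun z : ℂ => cosh (2 * z) ^ 2) _ (t : ℂ) := hc.pow 2
  have h2 : HasDerivAt (fun z : ℂ => 2 / cosh (2 * z) ^ 2) _ (t : ℂ) :=
    (hasDerivAt_const (t : ℂ) (2 : ℂ)).div h1 (pow_ne_zero 2 h0)
  have h3 : HasDerivAt (fun z : ℂ => 2 / cosh (2 * z) ^ 2) (sg'' t) (t : ℂ) := by
    refine h2.congr_deriv ?_
    unfold sg''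
    field_simp
    ring
  exact h3.comp_ofReal

lemma exp_cosh2 (t : ℝ) : (Real.cosh (2 * t))⁻¹ ≤ 2 * Real.exp (-(2 * |t|)) := by
  have h1 := exp_le_cosh (2 * t)
  rw [abs_mul, abs_of_pos (two_pos : (0 : ℝ) < 2)] at h1
  have h2 := Real.exp_pos (2 * |t|)
  rw [Real.exp_neg, show 2 * (Real.exp (2 * |t|))⁻¹ = (Real.exp (2 * |t|) / 2)⁻¹ by rw [inv_div]; ring]
  exact inv_anti₀ (by positivity) h1

lemma cosh2_sq_le (t : ℝ) : (Real.cosh (2 * t))⁻¹ ^ 2 ≤ 4 * Real.exp (-(|t| / 2)) := by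
  have h1 := exp_cosh2 t
  have hc := Real.cosh_pos (2 * t)
  have h2 : (Real.cosh (2 * t))⁻¹ ^ 2 ≤ (2 * Real.exp (-(2 * |t|))) ^ 2 :=
    pow_le_pow_left₀ (by positivity) h1 2
  refine h2.trans ?_
  have h3 : (2 * Real.exp (-(2 * |t|))) ^ 2 = 4 * Real.exp (-(4 * |t|)) := by
    rw [mul_pow, ← Real.exp_nat_mul]; norm_num; ring_nf
  rw [h3]
  have h4 := abs_nonneg t
  gcongr
  linarith

lemma norm_sg (t : ℝ) : ‖sg t‖ ≤ 1 := by
  rw [sg_eq, norm_real, Real.norm_eq_abs, abs_le]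
  exact ⟨(Real.neg_one_lt_tanh _).le, (Real.tanh_lt_one _).le⟩

lemma norm_sg' (t : ℝ) : ‖sg' t‖ ≤ 8 * Real.exp (-(|t| / 2)) := by
  unfold sg'
  rw [cosh2_real, norm_div, norm_pow, norm_real, Real.norm_of_nonneg (Real.cosh_pos _).le]
  have h1 := cosh2_sq_le t
  have h2 : ‖(2 : ℂ)‖ = 2 := by simp
  rw [h2, div_eq_mul_inv, ← inv_pow]
  linarith

lemma norm_sg'' (t : ℝ) : ‖sg'' t‖ ≤ 32 * Real.exp (-(|t| / 2)) := by
  unfold sg''
  rw [cosh2_real, sinh2_real, norm_neg, norm_div, norm_mul, norm_pow, norm_real, norm_real,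
    Real.norm_of_nonneg (Real.cosh_pos _).le, Real.norm_eq_abs]
  have h1 := cosh2_sq_le t
  have hc := Real.cosh_pos (2 * t)
  have h2 : ‖(8 : ℂ)‖ = 8 := by simp
  have h3 : |Real.sinh (2 * t)| ≤ Real.cosh (2 * t) := by
    rw [abs_le]
    constructor
    · have := Real.exp_pos (2 * t)
      rw [Real.sinh_eq, Real.cosh_eq]; linarith
    · exact (Real.sinh_lt_cosh _).le
  rw [h2]
  calc 8 * |Real.sinh (2 * t)| / Real.cosh (2 * t) ^ 3 ≤ 8 * Real.cosh (2 * t) / Real.cosh (2 * t) ^ 3 := by gcongr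
    _ = 8 * (Real.cosh (2 * t))⁻¹ ^ 2 := by field_simp
    _ ≤ _ := by linarith

lemma sg_cont : Continuous sg := continuous_iff_continuousAt.2 fun t => (hasDerivAt_sg t).continuousAt
lemma sg'_cont : Continuous sg' := continuous_iff_continuousAt.2 fun t => (hasDerivAt_sg' t).continuousAt

lemma sg''_cont : Continuous sg'' := by
  unfold sg''
  refine Continuous.neg (Continuous.div (by fun_prop) (by fun_prop) fun t => pow_ne_zero 3 (cosh2_real_ne t))

lemma sg'_lim {F : Filter ℝ} (hF : Tendsto (fun t : ℝ => |t|) F atTop) : Tendsto sg' F (𝓝 0) := by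
  have h1 := (tendsto_exp_abs (c := 1 / 2) (by norm_num) hF).const_mul 8
  rw [mul_zero] at h1
  refine squeeze_zero_norm (fun t => ?_) h1
  refine (norm_sg' t).trans (le_of_eq ?_)
  congr 2; ring

theorem lim_sg : Lim sg sg' 32 1 (-1) where
  d := hasDerivAt_sg
  c := sg'_cont
  b t := (norm_sg t).trans (by norm_num)
  b' t := (norm_sg' t).trans (by have := Real.exp_pos (-(|t| / 2)); linarith)
  top := by
    have h : Tendsto (fun t : ℝ => ((Real.tanh (2 * t) : ℝ) : ℂ)) atTop (𝓝 ((1 : ℝ) : ℂ)) :=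
      (continuous_ofReal.tendsto 1).comp (tendsto_tanh_top.comp (tendsto_id.const_mul_atTop two_pos))
    rw [ofReal_one] at h
    exact h.congr fun t => (sg_eq t).symm
  bot := by
    have h : Tendsto (fun t : ℝ => ((Real.tanh (2 * t) : ℝ) : ℂ)) atBot (𝓝 ((-1 : ℝ) : ℂ)) :=
      (continuous_ofReal.tendsto (-1)).comp (tendsto_tanh_bot.comp (tendsto_id.const_mul_atBot two_pos))
    have e : ((-1 : ℝ) : ℂ) = -1 := by push_cast; rfl
    rw [e] at h
    exact h.congr fun t => (sg_eq t).symm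

theorem lim_sg' : Lim sg' sg'' 32 0 0 where
  d := hasDerivAt_sg'
  c := sg''_cont
  b t := (norm_sg' t).trans (by
    have h : Real.exp (-(|t| / 2)) ≤ 1 := Real.exp_le_one_iff.2 (by linarith [abs_nonneg t])
    linarith)
  b' := norm_sg''
  top := sg'_lim tendsto_abs_atTop_atTop
  bot := sg'_lim tendsto_abs_atBot_atTop

/-! ### the kernels on the real line -/

lemma ae_ne : ∀ᵐ p : ℝ × ℝ ∂(volume.prod volume), p.1 ≠ p.2 := by
  have hD : MeasurableSet {p : ℝ × ℝ | p.1 = p.2} := (isClosed_eq continuous_fst continuous_snd).measurableSet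
  have h : (volume.prod volume) {p : ℝ × ℝ | p.1 = p.2} = 0 := by
    rw [Measure.prod_apply hD]
    refine lintegral_eq_zero_of_ae_eq_zero (Eventually.of_forall fun x => ?_)
    have e : Prod.mk x ⁻¹' {p : ℝ × ℝ | p.1 = p.2} = {x} := by
      ext y; simp [eq_comm]
    show volume (Prod.mk x ⁻¹' {p : ℝ × ℝ | p.1 = p.2}) = 0
    rw [e]
    simp
  rw [ae_iff]
  simpa using h

lemma mem_real (t : ℝ) : (t : ℂ) ∈ PBE.Sp y1 y2 := by
  have hl := l_pos
  show y1 < (t : ℂ).im ∧ (t : ℂ).im < y2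
  rw [ofReal_im]
  constructor
  · show -(l / 10) < 0; linarith
  · show 0 < 9 / 20 * l; linarith

variable {m : ℕ}

theorem kp_field (x : Fin m → ℂ) (i0 : Fin m) (hx : Rws0 x) : ∀ᵐ p : ℝ × ℝ ∂(volume.prod volume),
    ∫ s, Apl x i0 s (p.1 : ℂ) * Bch s (p.2 : ℂ) ∂wm =
      1 / 4 * (rF x i0 p.1 - rF x i0 p.2) * KC (p.1 - p.2) := by
  have hl := l_pos
  filter_upwards [ae_ne] with p hp
  have h1 := (Apl_eq x i0 hx (mem_real p.1) (mem_real p.2)).2
  have h2 := Ep_eq (rF x i0) (rP x i0) (rM x i0) (z := (p.1 : ℂ)) (w := (p.2 : ℂ)) (by simpa using hl.le)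
    (by simpa using hl.le) (by simpa using hl.le) (by exact_mod_cast hp)
  have hu : p.1 - p.2 ≠ 0 := sub_ne_zero.2 hp
  have k1 := kf_real true hu
  have k2 := kf_real false hu
  simp only [if_true, Bool.false_eq_true, if_false] at k1 k2
  rw [← ofReal_sub, k1, k2] at h2
  rw [← h1]
  unfold KC
  rw [ofReal_add]
  linear_combination -(1 / 4) * h2

theorem km_field (x : Fin m → ℂ) (i0 : Fin m) (hx : Rws0 x) : ∀ᵐ p : ℝ × ℝ ∂(volume.prod volume),
    ∫ s, Ami x i0 s (p.1 : ℂ) * Bch s (p.2 : ℂ) ∂wm =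
      1 / 4 * (rF x i0 p.1 - rF x i0 p.2) * KmC (p.1 - p.2) -
        beC (rF x i0) (rP x i0) (rM x i0) p.1 * sg p.2 - sg p.1 * beC (rF x i0) (rP x i0) (rM x i0) p.2 -
        (rP x i0 - rM x i0) / 2 * (1 - sg p.1 * sg p.2) := by
  have hl := l_pos
  filter_upwards [ae_ne] with p hp
  have h1 := (Ami_eq x i0 hx (mem_real p.1) (mem_real p.2)).2
  have h2 := Em_eq (rF x i0) (rP x i0) (rM x i0) (z := (p.1 : ℂ)) (w := (p.2 : ℂ)) (by simpa using hl.le)
    (by simpa using hl.le) (by simpa using hl.le) (by exact_mod_cast hp)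
  have hu : p.1 - p.2 ≠ 0 := sub_ne_zero.2 hp
  have k1 := kf_real true hu
  have k2 := kf_real false hu
  simp only [if_true, Bool.false_eq_true, if_false] at k1 k2
  rw [← ofReal_sub, k1, k2] at h2
  rw [← h1]
  unfold KmC sg
  unfold Pl at h2
  rw [ofReal_sub (Kw (p.1 - p.2))]
  linear_combination -(1 / 4) * h2

/-! ### the data of the values -/

/-- the one body function of the plateau part -/
def uF (x : Fin m → ℂ) (i0 : Fin m) : ℂ → ℂ := beC (rF x i0) (rP x i0) (rM x i0)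

/-- the product of the field and the leg function -/
def qF (x : Fin m → ℂ) (i0 : Fin m) (τ : ℝ) (z : ℂ) : ℂ := rF x i0 z * h0T τ z

lemma h0T_real (τ t : ℝ) : h0T τ t = h00 ((t - τ : ℝ) : ℂ) := by
  unfold h0T; push_cast; rfl

/-- test function: the one body function of the plateau part, constant independent of the rows -/
theorem uF_TC : ∃ C : ℝ, 0 < C ∧ ∀ (m : ℕ) (x : Fin m → ℂ) (i0 : Fin m), Rws0 x → ∀ a : ℝ, a ≤ 4 →
    PBE.TC y1 y2 a C (uF x i0) := by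
  have hl := l_pos
  obtain ⟨K, hK, h⟩ := rF_XiA (b := 9 / 10 * l) (by linarith) (by linarith)
  have hr := r_pos
  refine ⟨K + 2 * K / r, by positivity, fun m x i0 hx a ha => ?_⟩
  obtain ⟨hXi, hP, hM⟩ := h m x i0 hx
  have hD : ‖rP x i0 - rM x i0‖ ≤ 2 * K := (norm_sub_le _ _).trans (by linarith)
  have h1 := beC_TC hXi (by norm_num) (by linarith : 9 / 10 * l ≤ l) (y₁ := y1) (y₂ := y2)
    (by show -(9 / 10 * l) ≤ -(l / 10); linarith) (by show 9 / 20 * l ≤ 9 / 10 * l; linarith) ha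
  refine h1.mono ?_
  gcongr

/-- the field is bounded on the strip -/
theorem rF_bdd : ∃ C : ℝ, 0 < C ∧ ∀ (m : ℕ) (x : Fin m → ℂ) (i0 : Fin m), Rws0 x →
    (∀ z : ℂ, |z.im| ≤ 9 / 10 * l → ‖rF x i0 z‖ ≤ C) ∧ ∀ z : ℂ, |z.im| ≤ 9 / 10 * l → DifferentiableAt ℂ (rF x i0) z := by
  have hl := l_pos
  obtain ⟨K, hK, h⟩ := rF_XiA (b := 9 / 10 * l) (by linarith) (by linarith)
  refine ⟨2 * K, by positivity, fun m x i0 hx => ?_⟩
  obtain ⟨hXi, hP, hM⟩ := h m x i0 hx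
  refine ⟨fun z hz => ?_, fun z hz => hXi.an z hz⟩
  have hE : Real.exp (-(32 / 3 * |z.re|)) ≤ 1 := Real.exp_le_one_iff.2 (by linarith [abs_nonneg z.re])
  rcases le_total 0 z.re with h0 | h0
  · have h1 := hXi.pp z hz h0
    have h2 : ‖rF x i0 z‖ ≤ ‖rF x i0 z - rP x i0‖ + ‖rP x i0‖ := by
      simpa using norm_add_le (rF x i0 z - rP x i0) (rP x i0)
    nlinarith
  · have h1 := hXi.pm z hz h0
    have h2 : ‖rF x i0 z‖ ≤ ‖rF x i0 z - rM x i0‖ + ‖rM x i0‖ := by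
      simpa using norm_add_le (rF x i0 z - rM x i0) (rM x i0)
    nlinarith

lemma im_of_mem {z : ℂ} (hz : z ∈ PBE.Sp y1 y2) : |z.im| ≤ 9 / 10 * l := by
  have hl := l_pos
  have h1 : -(l / 10) < z.im := hz.1
  have h2 : z.im < 9 / 20 * l := hz.2
  rw [abs_le]; constructor <;> linarith

/-- test function: the field times the leg function -/
theorem qF_TC : ∃ C : ℝ, 0 < C ∧ ∀ (m : ℕ) (x : Fin m → ℂ) (i0 : Fin m), Rws0 x → ∀ a : ℝ, 0 ≤ a → a ≤ 2 →
    ∀ τ : ℝ, PBE.TC y1 y2 a (C * Real.exp (a * |τ|)) (qF x i0 τ) := by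
  obtain ⟨K, hK, h⟩ := rF_bdd
  refine ⟨K * cL, by have := cL_pos; positivity, fun m x i0 hx a ha0 ha τ => ?_⟩
  obtain ⟨hb, hd⟩ := h m x i0 hx
  have h1 := TC_mul (h0_TC' ha0 ha τ) (h := rF x i0)
    (fun z hz => (hd z (im_of_mem hz)).differentiableWithinAt) (fun z hz => hb z (im_of_mem hz))
  rw [← mul_assoc] at h1
  exact h1

lemma MeasR_of {T : Type*} [MeasurableSpace T] {A : T → ℂ → ℂ} (hA : Measurable fun p : T × ℂ => A p.1 p.2) :
    MeasR A := by
  have h : Measurable fun p : T × ℝ => (p.1, (p.2 : ℂ)) :=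
    measurable_fst.prodMk (Complex.measurable_ofReal.comp measurable_snd)
  exact (hA.comp h).stronglyMeasurable

/-- constants: Cauchy bounds of a representation -/
abbrev aE (C a : ℝ) (q : Bool × ℝ) : ℝ := C * Real.exp (-(a * |q.2|))
abbrev bE' (C a' : ℝ) (q : Bool × ℝ) : ℝ := C * Real.exp (a' * |q.2|)

/-- **the data of the values at the true field**, one constant -/
theorem vdat {a a' : ℝ} (ha : 1 / 2 ≤ a') (haa : a' < a) (ha2 : a < 2) : ∃ C1 C : ℝ, 0 < C1 ∧ 32 ≤ C ∧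
    ∀ (m : ℕ) (x : Fin m → ℂ) (i0 : Fin m), Rws0 x → ∀ τ : ℝ, |τ| ≤ 1 →
    ∀ (mf mf' D : ℝ → ℂ) (B : ℝ) (mp mm : ℂ), MeanDat mf mf' D (rl (h0T τ)) B mp mm → ∀ b : ℝ, C ≤ b → B ≤ b →
      VDat y1 y2 a' (l / 20) wm wm (Apl x i0) Bch (aE C1 a) (bE' C1 a') (Ami x i0) Bch (aE C1 a) (bE' C1 a')
        (rF x i0) (uF x i0) (h0T τ) (g2T τ) (qF x i0 τ)
        (fun t : ℝ => deriv (rF x i0) t) (rl (deriv (uF x i0))) sg sg' sg'' mf mf' D b C C C C (rP x i0) (rM x i0)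
        mp mm ∧
      ∫ q, aE C1 a q * bE' C1 a' q ∂wm ≤ C ∧ ‖rP x i0‖ ≤ C ∧ ‖rM x i0‖ ≤ C := by
  have hl := l_pos
  have ha0 : 0 ≤ a' := by linarith
  have ha1 : 0 < a' := by linarith
  have hd : 0 < a - a' := by linarith
  obtain ⟨C1, hC1, h1⟩ := rep_EF ha0 haa ha2
  obtain ⟨C2, hC2, h2⟩ := rF_XiA (b := 9 / 10 * l) (by linarith) (by linarith)
  obtain ⟨C3, hC3, h3⟩ := uF_TC
  obtain ⟨C4, hC4, h4⟩ := qF_TC
  set E := Real.exp a' with hE
  have hE0 : 0 < E := Real.exp_pos _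
  have hcL := cL_pos
  set Cu := max C3 (C3 * Real.exp (a' * (l / 20)) / (l / 20)) with hCu
  have hCu0 : 0 < Cu := lt_of_lt_of_le hC3 (le_max_left _ _)
  set G := cL * E * Real.exp (a' * (3 / 10 * l)) / (3 / 10 * l) with hG
  have hG0 : 0 < G := by positivity
  set W := C1 ^ 2 * (4 / (a - a')) with hW
  have hW0 : 0 < W := by positivity
  have c1 : 0 < cL * E := by positivity
  have c2 : 0 < C4 * E := by positivity
  refine ⟨C1, 32 + W + 3 * C2 + Cu + cL * E + G + C4 * E, hC1, by linarith,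
    fun m x i0 hx τ hτ mf mf' D B mp mm hm b hb hB => ?_⟩
  set C := 32 + W + 3 * C2 + Cu + cL * E + G + C4 * E with hC
  obtain ⟨r1, r2, r3⟩ := h1 m x i0 hx
  obtain ⟨hXi, hP, hM⟩ := h2 m x i0 hx
  have hEτ : Real.exp (a' * |τ|) ≤ E := Real.exp_le_exp.2 (by nlinarith [abs_nonneg τ])
  have e1 : y1 = -(l / 10) := rfl
  have e2 : y2 = 9 / 20 * l := rfl
  have hu := h3 m x i0 hx a' (by linarith)
  have hy1 : y1 < 0 := by rw [e1]; linarith
  have hy2 : 0 < y2 := by rw [e2]; linarith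
  refine ⟨{
    ha := ha1
    hθ := by linarith
    h1 := by rw [e1]; linarith
    h2 := by rw [e2]; linarith
    hb := by linarith
    hR := r1
    hR' := r2
    mA := MeasR_of (Apl_measurable x i0)
    mB := MeasR_of Bch_measurable
    mA' := MeasR_of (Ami_measurable x i0)
    mB' := MeasR_of Bch_measurable
    kp := kp_field x i0 hx
    km := km_field x i0 hx
    lr := (XiA.lim hXi (by norm_num)).mono (by linarith)
    lu := (TC_Lim hu ha (by linarith : 0 < l / 20) (by rw [e1]; linarith) (by rw [e2]; linarith)).mono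
      (by rw [← hCu]; linarith)
    ls := lim_sg.mono (by linarith)
    ls' := lim_sg'.mono (by linarith)
    tu := hu.mono (by linarith [le_max_left C3 (C3 * Real.exp (a' * (l / 20)) / (l / 20))])
    hm := { hm with lim := hm.lim.mono hB }
    th0 := (h0_TC' ha0 (by linarith) τ).mono ?_
    tg2 := (g2_TC ha0 (by linarith) τ).mono ?_
    dg2 := fun t => ?_
    tq := (h4 m x i0 hx a' ha0 (by linarith) τ).mono ?_
    eq := fun t => rfl }, ?_, by linarith, by linarith⟩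
  · have : cL * Real.exp (a' * |τ|) ≤ cL * E := by gcongr
    linarith
  · have : cL * Real.exp (a' * |τ|) * Real.exp (a' * (3 / 10 * l)) / (3 / 10 * l) ≤ G := by
      rw [hG]; gcongr
    linarith
  · exact Pool.Agent.PB.TC_deriv (h0_TC' ha0 (by linarith) τ) hy1 hy2 t
  · have : C4 * Real.exp (a' * |τ|) ≤ C4 * E := by gcongr
    linarith
  · show ∫ q, (C1 * Real.exp (-(a * |q.2|))) * (C1 * Real.exp (a' * |q.2|)) ∂wm ≤ C
    rw [r3]
    linarith

/-- **`(E')` at the true field**: one constant `K` for all `m`, rows, `|τ| ≤ 1` -/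
theorem E_field {a' : ℝ} (ha : 1 / 2 ≤ a') (ha2 : a' < 2) (B : ℝ) : ∃ K : ℝ, 0 < K ∧
    ∀ (m : ℕ) (x : Fin m → ℂ) (i0 : Fin m), Rws0 x → ∀ τ : ℝ, |τ| ≤ 1 →
    ∀ (mf mf' D : ℝ → ℂ) (mp mm : ℂ), MeanDat mf mf' D (rl (h0T τ)) B mp mm →
    ∀ (f fη fτ fττ : ℂ) (G1 : (ℂ → ℂ) → ℂ) (G2 H2 : (ℂ → ℂ) → (ℂ → ℂ) → ℂ) (Hs : (ℂ → ℂ) → ℂ) (Hss : ℂ)
      (δ δ0 : ℝ), 0 ≤ δ →
      PBE.Lev2 y1 y2 a' f G1 G2 (mV mf) CV δ →
      PBE.Lev2m y1 y2 a' f H2 Hs Hss CmV (CsV sg') (CssV sg') δ →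
      PBE.Lin1 y1 y2 a' G1 → PBE.Lin2 y1 y2 a' G2 →
      Integrable (fun s => G2 (Apl x i0 s) (Bch s)) wm →
      Integrable (fun s => H2 (Ami x i0 s) (Bch s)) wm →
      ‖fη - ((∫ s, G2 (Apl x i0 s) (Bch s) ∂wm) +
        ((∫ s, H2 (Ami x i0 s) (Bch s) ∂wm) + 2 * Hs (uF x i0) - (rP x i0 - rM x i0) / 2 * Hss) +
          G1 (qF x i0 τ))‖ ≤ δ0 →
      ‖G1 (h0T τ) + fτ‖ ≤ δ → ‖G2 (h0T τ) (h0T τ) + G1 (g2T τ) - fττ‖ ≤ δ →
      ‖fη - (-((rP x i0 - rM x i0) / 8) * fττ - (rP x i0 + rM x i0) / 2 * fτ)‖ ≤ δ0 + K * δ := by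
  have hl := l_pos
  obtain ⟨C1, C, hC1, hC, h⟩ := vdat (a := (a' + 2) / 2) ha (by linarith) (by linarith)
  set b := max C B with hb
  have hbC : C ≤ b := le_max_left _ _
  have hb0 : 0 < b := by linarith
  have ha0 : 0 < a' := by linarith
  set n := 2 * (3 * l) with hn
  have hn0 : 0 < n := by positivity
  set F := 1 + 2 * C / (a' * n) with hF
  have hC0 : 0 < C := by linarith
  have hF0 : 0 < F := by positivity
  refine ⟨(3 + b * (2 / a')) * F ^ 2 * C + (C + 2 * C + C) + C * F + C + C * (1 + C), by positivity,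
    fun m x i0 hx τ hτ mf mf' D mp mm hm f fη fτ fττ G1 G2 H2 Hs Hss δ δ0 hδ hL hL' hG1 hG2 iG iH hI h1 h2 => ?_⟩
  obtain ⟨d, hint, hP, hM⟩ := h m x i0 hx τ hτ mf mf' D B mp mm hm b hbC (le_max_right _ _)
  have key := d.E_prime hδ hL hL' hG1 hG2 iG iH hI h1 h2
  refine key.trans ?_
  have hmass : ‖PBE.mass (h0T τ)‖ = n := by
    rw [mass_h0, norm_mul, norm_mul, norm_I, norm_real, Real.norm_of_nonneg hl.le]
    have : ‖(6 : ℂ)‖ = 6 := by simp
    rw [this, hn]; ring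
  rw [hmass]
  have hD : ‖rP x i0 - rM x i0‖ ≤ 2 * C := (norm_sub_le _ _).trans (by linarith)
  have hS : ‖(rP x i0 + rM x i0) / 2‖ ≤ C := by
    rw [norm_div]
    have h3 := norm_add_le (rP x i0) (rM x i0)
    have : ‖(2 : ℂ)‖ = 2 := by simp
    rw [this]; linarith
  have hD8 : ‖-((rP x i0 - rM x i0) / 8)‖ ≤ C := by
    rw [norm_neg, norm_div]
    have : ‖(8 : ℂ)‖ = 8 := by simp
    rw [this]; linarith
  have hIn0 : 0 ≤ ∫ q, aE C1 ((a' + 2) / 2) q * bE' C1 a' q ∂wm := integral_nonneg fun q => by positivity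
  have hM0 : (0 : ℝ) ≤ 1 + C := by linarith
  have hK1 : 0 ≤ (3 + b * (2 / a')) * F ^ 2 := by positivity
  gcongr
  · linarith

/-! ### the plateaus with one moved row -/

lemma sum_one_row (f : ℝ → ℝ) (x : Fin m → ℂ) (i0 : Fin m) {s : ℝ} (h0 : (x i0).im = s)
    (h : ∀ i, i ≠ i0 → (x i).im = 0) : ∑ i, f (x i).im = (m - 1) * f 0 + f s := by
  have hm : 1 ≤ m := Nat.one_le_of_lt i0.isLt
  have h1 : ∑ i ∈ Finset.univ.erase i0, f (x i).im = ∑ i ∈ Finset.univ.erase i0, f 0 :=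
    Finset.sum_congr rfl fun i hi => by rw [h i (Finset.ne_of_mem_erase hi)]
  rw [← Finset.sum_erase_add _ _ (Finset.mem_univ i0), h1, Finset.sum_const,
    Finset.card_erase_of_mem (Finset.mem_univ i0), Finset.card_univ, Fintype.card_fin, h0, nsmul_eq_mul,
    Nat.cast_sub hm, Nat.cast_one]

/-- the plateau at `+∞`, one moved row at height `s` -/
theorem rP_one (x : Fin m → ℂ) (i0 : Fin m) {s : ℝ} (h0 : (x i0).im = s) (h : ∀ i, i ≠ i0 → (x i).im = 0) :
    rP x i0 = ((m * Real.exp (8 / 3 * s) / ((m - 1) + Real.exp (8 / 3 * s)) : ℝ) : ℂ) := by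
  have h1 := sum_one_row (fun y => Real.exp (8 / 3 * y)) x i0 h0 h
  unfold rP xiP
  rw [h1, h0, mul_zero, Real.exp_zero, mul_one]
  congr 1; ring

/-- the plateau at `-∞`, one moved row at height `s` -/
theorem rM_one (x : Fin m → ℂ) (i0 : Fin m) {s : ℝ} (h0 : (x i0).im = s) (h : ∀ i, i ≠ i0 → (x i).im = 0) :
    rM x i0 = ((m * Real.exp (-(8 / 3 * s)) / ((m - 1) + Real.exp (-(8 / 3 * s))) : ℝ) : ℂ) := by
  have h1 := sum_one_row (fun y => Real.exp (-(8 / 3 * y))) x i0 h0 h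
  unfold rM xiM
  rw [h1, h0, mul_zero, neg_zero, Real.exp_zero, mul_one]
  congr 1; ring

end PBEI

end
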