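import Pool.Agent.PB.InvK
import Pool.Agent.PB.DictR
import Pool.Agent.PB.EInst2

/-!
# Plan B: the field of the smooth sign, minus channel

`BS k = cosh(2 l k) / (4 (2 cosh(l k) - 1) cosh(3 l k / 2)^2)`, `bS = fld BS`.
* `BS_TC`, **`bS_TC`**: `bS` is a test function of every strip `|Im z| < b`, `b < 2 l = π/4`, rate
  `κ < 8/3`;
* `tr_bS`, **`mass_bS`**: `∫ bS = 1/4`;
* **`rsp_bS`**: the response of the antisymmetric pair of fields `bS` is `tanh 2z`;
* `bS_neg`: `bS` is even;
* **`bS_sC`**, **`bS_Css`**: `2 ∫ bS h' = CsV sg' h`, `2 ∫ bS sg' = CssV sg'`.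
-/

set_option autoImplicit false

open MeasureTheory Complex Filter Topology Set

noncomputable section

namespace PBE

open NUMF

/-- transform of the field of the smooth sign -/
def BS (k : ℂ) : ℂ := Complex.cosh (2 * l * k) / (4 * (den k * ch3 k ^ 2))

/-- the field of the smooth sign -/
def bS (z : ℂ) : ℂ := fld BS z

lemma BS_neg (k : ℂ) : BS (-k) = BS k := by
  unfold BS
  rw [mul_neg, Complex.cosh_neg, den_neg, ch3_neg]

lemma BS_zero : BS 0 = 1 / 4 := by
  unfold BS den ch3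
  simp
  norm_num

section

variable {a : ℝ}

theorem diff_BS {k : ℂ} (hk : |k.im| < 8 / 3) : DifferentiableAt ℂ BS k := by
  unfold BS
  refine DifferentiableAt.div (by fun_prop) ((((diff_den k).mul ((diff_ch3 k).pow 2))).const_mul _) ?_
  exact mul_ne_zero (by norm_num) (mul_ne_zero (den_ne hk) (pow_ne_zero 2 (ch3_ne hk)))

lemma norm_cosh_le (w : ℂ) : ‖Complex.cosh w‖ ≤ Real.exp |w.re| := by
  have h : Complex.cosh w = (cexp w + cexp (-w)) / 2 := Complex.cosh.eq_1 w
  rw [h, norm_div, Complex.norm_ofNat]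
  have h1 : ‖cexp w + cexp (-w)‖ ≤ Real.exp |w.re| + Real.exp |w.re| := by
    refine (norm_add_le _ _).trans (add_le_add ?_ ?_)
    · rw [Complex.norm_exp]
      exact Real.exp_le_exp.2 (le_abs_self _)
    · rw [Complex.norm_exp, neg_re]
      exact Real.exp_le_exp.2 (neg_le_abs _)
  linarith

theorem BS_le (ha : 0 ≤ a) (ha' : a < 8 / 3) {k : ℂ} (hk : |k.im| ≤ a) :
    ‖BS k‖ ≤ 2 / (cD a * cC a ^ 2) * Real.exp (-(2 * l * |k.re|)) := by
  have hD := cD_pos ha ha'
  have hC := cC_pos ha ha'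
  have h1 := den_ge ha ha' hk
  have h2 := ch3_ge ha ha' hk
  have hl := l_pos'
  have hc1 := Real.cosh_pos (l * k.re)
  have hc2 := Real.cosh_pos (3 / 2 * l * k.re)
  have g1 := cosh_ge_exp (l * k.re)
  have g2 := cosh_ge_exp (3 / 2 * l * k.re)
  have e2 : |l * k.re| = l * |k.re| := by rw [abs_mul, abs_of_pos hl]
  have e3 : |3 / 2 * l * k.re| = 3 / 2 * (l * |k.re|) := by
    rw [abs_mul, abs_of_pos (by positivity : (0:ℝ) < 3 / 2 * l)]; ring
  rw [e2] at g1
  rw [e3] at g2
  have e4 : ((2 * l : ℂ) * k).re = 2 * l * k.re := by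
    have : (2 * l : ℂ) = ((2 * l : ℝ) : ℂ) := by push_cast; ring
    rw [this, re_ofReal_mul]
  have h3 : ‖Complex.cosh (2 * l * k)‖ ≤ Real.exp (2 * (l * |k.re|)) := by
    have := norm_cosh_le (2 * l * k)
    rw [e4] at this
    rw [abs_mul, abs_of_pos (by positivity : (0:ℝ) < 2 * l)] at this
    refine this.trans (le_of_eq ?_)
    rw [mul_assoc]
  have e5 : 2 * l * |k.re| = 2 * (l * |k.re|) := by ring
  rw [e5]
  set u := l * |k.re|
  have h5 : (cD a * (Real.exp u / 2)) * (cC a * (Real.exp (3 / 2 * u) / 2)) ^ 2 ≤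
      ‖den k‖ * ‖ch3 k‖ ^ 2 := by
    refine mul_le_mul ((mul_le_mul_of_nonneg_left g1 hD.le).trans h1) (pow_le_pow_left₀ (by positivity)
      ((mul_le_mul_of_nonneg_left g2 hC.le).trans h2) 2) (by positivity) (norm_nonneg _)
  have h6 : 0 < (cD a * (Real.exp u / 2)) * (cC a * (Real.exp (3 / 2 * u) / 2)) ^ 2 := by positivity
  unfold BS
  rw [norm_div]
  have e : ‖(4 * (den k * ch3 k ^ 2) : ℂ)‖ = 4 * (‖den k‖ * ‖ch3 k‖ ^ 2) := by simp
  rw [e]
  have e6 : Real.exp (4 * u) = Real.exp u * Real.exp (3 / 2 * u) ^ 2 := by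
    rw [← Real.exp_nat_mul, ← Real.exp_add]
    congr 1
    push_cast
    ring
  have e7 : Real.exp (2 * u) = Real.exp (4 * u) * Real.exp (-(2 * u)) := by
    rw [← Real.exp_add]
    congr 1
    ring
  rw [div_le_iff₀ (by linarith)]
  calc ‖Complex.cosh (2 * l * k)‖ ≤ Real.exp (2 * u) := h3
    _ = 2 / (cD a * cC a ^ 2) * Real.exp (-(2 * u)) *
        (4 * ((cD a * (Real.exp u / 2)) * (cC a * (Real.exp (3 / 2 * u) / 2)) ^ 2)) := by
        rw [e7, e6]
        field_simp
        ring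
    _ ≤ _ := by
        refine mul_le_mul_of_nonneg_left (by linarith) (by positivity)

theorem BS_TC (ha : 0 ≤ a) (ha' : a < 8 / 3) : TC (-a) a (2 * l) (2 / (cD a * cC a ^ 2)) BS where
  an := by
    intro k hk
    have hk' : |k.im| < a := abs_lt.2 hk
    exact (diff_BS (by linarith)).differentiableWithinAt
  bd := by
    intro k hk
    have hk' : |k.im| < a := abs_lt.2 hk
    exact BS_le ha ha' hk'.le

end

theorem bS_TC {κ b : ℝ} (hκ0 : 0 ≤ κ) (hκ : κ < 8 / 3) (hb : b < 2 * l) :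
    ∃ M : ℝ, 0 ≤ M ∧ TC (-b) b κ M bS := by
  obtain ⟨a, ha⟩ : ∃ a : ℝ, a = (κ + 8 / 3) / 2 := ⟨_, rfl⟩
  have h := fld_TC (BS_TC (a := a) (by linarith) (by linarith)) (by linarith) hκ0 (by linarith) hb
  have hD := cD_pos (a := a) (by linarith) (by linarith)
  have hC := cC_pos (a := a) (by linarith) (by linarith)
  have h2 : 0 < 2 * l - b := by linarith
  refine ⟨_, ?_, h⟩
  have := Real.pi_pos
  positivity

lemma tr_bS (k : ℝ) : tr bS k = BS k :=
  tr_fld (BS_TC (a := 1) (by norm_num) (by norm_num)) (by norm_num) (by have := l_pos'; positivity) k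

/-- **the integral of the field** -/
theorem mass_bS : mass bS = 1 / 4 := by
  have := tr_bS 0
  rw [ofReal_zero, tr_zero] at this
  rw [this, BS_zero]

/-- the field is even -/
lemma bS_neg (z : ℂ) : bS (-z) = bS z := by
  unfold bS fld
  congr 1
  have h := integral_neg_eq_self (fun k : ℝ => BS k * cexp (I * k * z)) volume
  rw [← h]
  refine integral_congr_ae (Eventually.of_forall fun k => ?_)
  simp only []
  push_cast
  rw [BS_neg]
  congr 2
  ring

lemma BS_conj (k : ℂ) : BS (starRingEnd ℂ k) = starRingEnd ℂ (BS k) := by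
  unfold BS den ch3
  simp only [map_div₀, map_mul, map_sub, map_pow, map_one, map_ofNat, ← Complex.cosh_conj, conj_ofReal]

/-- the field is real on the real line -/
lemma bS_conj (z : ℂ) : bS (starRingEnd ℂ z) = starRingEnd ℂ (bS z) := by
  unfold bS fld
  rw [map_mul, map_inv₀, map_mul, conj_ofReal, map_ofNat, ← integral_conj]
  congr 1
  have h := integral_neg_eq_self (fun k : ℝ => BS k * cexp (I * k * starRingEnd ℂ z)) volume
  rw [← h]
  refine integral_congr_ae (Eventually.of_forall fun k => ?_)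
  simp only []
  rw [map_mul, ← Complex.exp_conj, map_mul, map_mul, conj_I, conj_ofReal, ← BS_conj, conj_ofReal]
  push_cast
  rw [BS_neg]
  congr 2
  ring

lemma bS_im (t : ℝ) : (bS t).im = 0 := by
  have h := bS_conj t
  rw [conj_ofReal] at h
  exact Complex.conj_eq_iff_im.1 h.symm

/-- the sine integral -/
lemma sin_tgh {z : ℂ} (hz : |z.im| < 2 * l) :
    ∫ k in Ioi (0:ℝ), Complex.sin (k * z) / (2 * Complex.sinh (2 * l * k)) = PBV.tgh z := by
  have hz2 : |(2 * I * z).re| < Real.pi / 2 := by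
    have e : (2 * I * z).re = -(2 * z.im) := by simp
    rw [e, abs_neg, abs_mul, abs_of_pos (by norm_num : (0:ℝ) < 2)]
    unfold l at hz
    linarith
  have h1 := tan_eq hz2
  set f : ℝ → ℂ := fun k => Complex.sin (k * z) / (2 * Complex.sinh (2 * l * k)) with hf
  have h2 : ∫ k in Ioi (0:ℝ), f (2 * k) = (2:ℝ)⁻¹ • ∫ k in Ioi (0:ℝ), f k := by
    have := integral_comp_mul_left_Ioi f (0:ℝ) (by norm_num : (0:ℝ) < 2)
    rwa [mul_zero] at this
  have h3 : ∀ k : ℝ, f (2 * k) = -(I / 2) * tk (2 * I * z) k := by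
    intro k
    simp only [hf]
    unfold tk sk
    have e1 : (2 * (l : ℂ) * ((2 * k : ℝ) : ℂ)) = ((Real.pi / 2 * k : ℝ) : ℂ) := by
      unfold l
      push_cast
      ring
    have e2 : 2 * I * z * k = (((2 * k : ℝ) : ℂ) * z) * I := by
      push_cast
      ring
    rw [e1, e2, Complex.sinh_mul_I, ofReal_sinh]
    have e3 : -(I / 2) * (Complex.sin (((2 * k : ℝ) : ℂ) * z) * I / Complex.sinh ((Real.pi / 2 * k : ℝ) : ℂ)) =
        -(I * I) * (Complex.sin (((2 * k : ℝ) : ℂ) * z) / (2 * Complex.sinh ((Real.pi / 2 * k : ℝ) : ℂ))) := by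
      field_simp
    rw [e3, I_mul_I]
    ring
  rw [integral_congr_ae (Eventually.of_forall h3), integral_const_mul, h1] at h2
  have h4 : ∫ k in Ioi (0:ℝ), f k = -I * Complex.tan (2 * I * z) := by
    rw [Complex.real_smul] at h2
    push_cast at h2
    linear_combination (-2) * h2
  rw [h4]
  have e4 : 2 * I * z = (2 * z) * I := by ring
  rw [e4, Complex.tan_mul_I, Complex.tanh_eq_sinh_div_cosh]
  unfold PBV.tgh
  linear_combination (-(Complex.sinh (2 * z) / Complex.cosh (2 * z))) * I_mul_I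

/-- **the response of the field is the smooth sign** -/
theorem rsp_bS {z : ℂ} (hz : |z.im| < 2 * l) (s : Bool) :
    PB.rsp (fun s => sg2 bS s) s z = sg2 PBV.tgh s z := by
  have h := rsp_fld_minus (BS_TC (a := 1) (by norm_num) (by norm_num)) (by norm_num) hz s
  have h2 : (fun s => sg2 bS s) = fun s => sg2 (fld BS) s := rfl
  rw [h2, h]
  have e : (∫ k in Ioi (0:ℝ), -I * sM k * (BS k * cexp (I * k * z) - BS (-k) * cexp (-(I * k * z)))) =
      PBV.tgh z := by
    rw [← sin_tgh hz]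
    refine setIntegral_congr_fun measurableSet_Ioi fun k hk => ?_
    have hk' : 0 < k := hk
    have h3 := sh4_ne hk'
    have h4 : ch3 k ≠ 0 := ch3_ne (by simp)
    have h5 : den k ≠ 0 := den_ne (by simp)
    rw [BS_neg, sM_eq hk']
    have e1 : cexp (I * k * z) - cexp (-(I * k * z)) = 2 * I * Complex.sin (k * z) := by
      have e2 : I * k * z = (k * z) * I := by ring
      have e3 : -(I * k * z) = -((k * z)) * I := by ring
      rw [e3, e2, Complex.exp_mul_I, Complex.exp_mul_I, Complex.cos_neg, Complex.sin_neg]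
      ring
    have e4 : sh4 k = 2 * Complex.sinh (2 * l * k) * Complex.cosh (2 * l * k) := by
      unfold sh4
      rw [← Complex.sinh_two_mul]
      congr 1
      ring
    rw [e4] at h3
    have h6 : Complex.sinh (2 * l * k) ≠ 0 := fun h0 => h3 (by rw [h0]; ring)
    have h7 : Complex.cosh (2 * l * k) ≠ 0 := fun h0 => h3 (by rw [h0]; ring)
    have e5 : -I * (2 * ch3 k ^ 2 * den k / sh4 k) * (BS k * cexp (I * k * z) - BS k * cexp (-(I * k * z))) =
        -I * (2 * ch3 k ^ 2 * den k / sh4 k) * BS k * (cexp (I * k * z) - cexp (-(I * k * z))) := by ring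
    rw [e5, e1, e4]
    unfold BS
    field_simp
    rw [I_sq]
    ring
  cases s
  · simp only [sg2, Bool.false_eq_true, if_false]
    exact e
  · simp only [sg2, if_true]
    rw [e]

section

open Pool.Agent.PB (asym CsV CssV dictR_sC dictR_Css)

/-- the response on the real line, in the form of the dictionary -/
lemma rsp_bS_real (t : ℝ) : PB.rsp (asym bS) false t = PBEI.sg t := by
  exact rsp_bS (z := (t : ℂ)) (by rw [ofReal_im, abs_zero]; have := l_pos'; positivity) false

/-- **the smooth sign and a test function** -/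
theorem bS_sC {y₁ y₂ a M θ : ℝ} {h : ℂ → ℂ} (hh : TC y₁ y₂ a M h) (ha : 1 / 2 ≤ a) (hθ : 0 < θ)
    (h1 : y₁ < -θ) (h2 : θ < y₂) :
    (Integrable fun t : ℝ => bS t * deriv h (t : ℂ)) ∧
    2 * ∫ t : ℝ, bS t * deriv h (t : ℂ) = CsV PBEI.sg' h := by
  have hl := l_pos'
  obtain ⟨M', -, hM⟩ := bS_TC (κ := 1) (b := l) (by norm_num) (by norm_num) (by linarith)
  exact dictR_sC hM (by norm_num) hl hh ha hθ h1 h2 PBEI.hasDerivAt_sg rsp_bS_real

/-- **the smooth sign and itself** -/
theorem bS_Css : 2 * ∫ t : ℝ, bS t * PBEI.sg' t = CssV PBEI.sg' := by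
  have hl := l_pos'
  obtain ⟨M', -, hM⟩ := bS_TC (κ := 1) (b := l) (by norm_num) (by norm_num) (by linarith)
  refine dictR_Css hM (by norm_num) hl PBEI.hasDerivAt_sg ?_ rsp_bS_real
  exact PBEI.lim_sg.int'

end

end PBE

end
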