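import Pool.Agent.PB.FwdK
import Pool.Agent.PB.InvS

/-!
# Plan B: the regularised quotient `X = β / (ρ + 1)` (helper76)

`SeaL b c0 N ρ`: `ρ` analytic, `c0 N e^{-(8/3)|Re z|} ≤ Re ρ z` for `|Im z| < b`;
`XS ρ s β z = β z / (ρ (z + s) + 1)` (centre `s`; the field itself is `XS ρ s β (z - s)`),
`thX c0 N (κ - κ₁) s = max 1 c0⁻¹ N^{-(3/8)(κ - κ₁)} e^{(κ-κ₁)|s|}`.
* `XS_TC`: for `β` in `TC (-b) b κ M` the quotient is in `TC (-b) b κ₁ (thX M)`;
* **`fldx_plus`**, **`fldx_minus`**, **`fldx_step`**: the fields of a test function (both channels)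
  and of the step: `rsp (mulF ρ X) = g - e`, `e` in `TC (-b') b' κ₂` of size `thX M` (minus channel:
  and a multiple `4 mass X`, of size `thX M`, of the step); `fwd_step`: the response of any
  antisymmetric pair;
* `int_rXD`, `int_XD_le`, **`sumD_plus`**, **`sumD_minus`**: `∑ ∫ ρ X f' = 2 ∫ β f' - 2 ∫ X f'`;
  `XD_TC`: `X f'` is a test function; `tgh_TC`: so is the derivative of the step;
* **`seaL_rows`**: the sea of rows on the imaginary axis.
-/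

set_option autoImplicit false

open MeasureTheory Complex Filter Topology Set

noncomputable section

namespace PBE

/-- a sea with its lower bound -/
structure SeaL (b c0 N : ℝ) (ρ : ℂ → ℂ) : Prop where
  c0p : 0 < c0
  Np : 0 < N
  d : ∀ z : ℂ, |z.im| < b → DifferentiableAt ℂ ρ z
  low : ∀ z : ℂ, |z.im| < b → c0 * N * Real.exp (-(8 / 3 * |z.re|)) ≤ (ρ z).re

lemma SeaL.mono {b b' c0 N : ℝ} {ρ : ℂ → ℂ} (h : SeaL b c0 N ρ) (hb : b' ≤ b) : SeaL b' c0 N ρ where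
  c0p := h.c0p
  Np := h.Np
  d z hz := h.d z (hz.trans_le hb)
  low z hz := h.low z (hz.trans_le hb)

/-- the quotient, centre `s` -/
def XS (ρ : ℂ → ℂ) (s : ℝ) (β : ℂ → ℂ) (z : ℂ) : ℂ := β z / (ρ (z + s) + 1)

/-- the size of the quotient -/
def thX (c0 N d s : ℝ) : ℝ := max 1 c0⁻¹ * N ^ (-(3 / 8 * d)) * Real.exp (d * |s|)

lemma thX_nonneg {c0 N d s : ℝ} (hN : 0 < N) : 0 ≤ thX c0 N d s := by
  unfold thX
  have : 0 ≤ max 1 c0⁻¹ := zero_le_one.trans (le_max_left _ _)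
  positivity

lemma rpow_le_one_add {x p : ℝ} (hx : 0 ≤ x) (hp0 : 0 ≤ p) (hp1 : p ≤ 1) : x ^ p ≤ 1 + x := by
  rcases le_total x 1 with h | h
  · have := Real.rpow_le_one hx h hp0
    linarith
  · have := Real.rpow_le_rpow_of_exponent_le h hp1
    rw [Real.rpow_one] at this
    linarith

lemma quot_wt {c0 N κ κ₁ : ℝ} (hc : 0 < c0) (hN : 0 < N) (h1 : κ₁ ≤ κ) (h2 : κ - κ₁ ≤ 8 / 3)
    (t s : ℝ) :
    Real.exp (-(κ * |t|)) ≤ thX c0 N (κ - κ₁) s * Real.exp (-(κ₁ * |t|)) *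
      (1 + c0 * N * Real.exp (-(8 / 3 * |t + s|))) := by
  obtain ⟨d, hd⟩ : ∃ d : ℝ, d = κ - κ₁ := ⟨_, rfl⟩
  rw [← hd] at h2 ⊢
  have hd0 : 0 ≤ d := by rw [hd]; linarith
  obtain ⟨p, hp⟩ : ∃ p : ℝ, p = 3 / 8 * d := ⟨_, rfl⟩
  have hp0 : 0 ≤ p := by rw [hp]; linarith
  have hp1 : p ≤ 1 := by rw [hp]; linarith
  obtain ⟨y, hy⟩ : ∃ y : ℝ, y = Real.exp (-(8 / 3 * |t + s|)) := ⟨_, rfl⟩
  have hy0 : 0 < y := by rw [hy]; positivity
  have h3 : (N * y) ^ p ≤ 1 + N * y := rpow_le_one_add (by positivity) hp0 hp1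
  have h4 : 1 + N * y ≤ max 1 c0⁻¹ * (1 + c0 * N * y) := by
    have e1 : (1 : ℝ) ≤ max 1 c0⁻¹ := le_max_left _ _
    have e2 : c0⁻¹ ≤ max 1 c0⁻¹ := le_max_right _ _
    have e3 : N * y = c0⁻¹ * (c0 * N * y) := by field_simp
    have e4 : c0⁻¹ * (c0 * N * y) ≤ max 1 c0⁻¹ * (c0 * N * y) :=
      mul_le_mul_of_nonneg_right e2 (by positivity)
    rw [mul_add, mul_one]
    linarith
  have h5 : (N * y) ^ p = N ^ p * Real.exp (-(d * |t + s|)) := by
    rw [Real.mul_rpow hN.le hy0.le, hy, ← Real.exp_mul]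
    congr 2
    rw [hp]
    ring
  have h6 : Real.exp (-(d * |t|)) ≤ Real.exp (d * |s|) * Real.exp (-(d * |t + s|)) := by
    rw [← Real.exp_add]
    refine Real.exp_le_exp.2 ?_
    have h7 : |t + s| ≤ |t| + |s| := abs_add_le t s
    nlinarith
  have h8 : N ^ (-p) * N ^ p = 1 := by
    rw [← Real.rpow_add hN, neg_add_cancel, Real.rpow_zero]
  have hNp : 0 < N ^ (-p) := Real.rpow_pos_of_pos hN _
  unfold thX
  rw [← hy, ← hp]
  calc Real.exp (-(κ * |t|)) = Real.exp (-(κ₁ * |t|)) * Real.exp (-(d * |t|)) := by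
        rw [← Real.exp_add, hd]
        congr 1
        ring
    _ ≤ Real.exp (-(κ₁ * |t|)) * (Real.exp (d * |s|) * Real.exp (-(d * |t + s|))) :=
        mul_le_mul_of_nonneg_left h6 (Real.exp_pos _).le
    _ = Real.exp (-(κ₁ * |t|)) * Real.exp (d * |s|) * N ^ (-p) * (N ^ p * Real.exp (-(d * |t + s|))) := by
        linear_combination (-(Real.exp (-(κ₁ * |t|)) * Real.exp (d * |s|) *
          Real.exp (-(d * |t + s|)))) * h8
    _ ≤ Real.exp (-(κ₁ * |t|)) * Real.exp (d * |s|) * N ^ (-p) *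
          (max 1 c0⁻¹ * (1 + c0 * N * y)) := by
        refine mul_le_mul_of_nonneg_left ?_ (by positivity)
        rw [← h5]
        exact h3.trans h4
    _ = _ := by ring

section

variable {b c0 N κ κ₁ M : ℝ} {ρ β : ℂ → ℂ}

lemma shift_im (z : ℂ) (s : ℝ) : (z + s).im = z.im := by simp

lemma shift_re (z : ℂ) (s : ℝ) : (z + s).re = z.re + s := by simp

lemma SeaL.one_ge (h : SeaL b c0 N ρ) {z : ℂ} (hz : |z.im| < b) :
    1 + c0 * N * Real.exp (-(8 / 3 * |z.re|)) ≤ ‖ρ z + 1‖ := by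
  have h1 := h.low z hz
  have h2 := Complex.re_le_norm (ρ z + 1)
  rw [add_re, one_re] at h2
  linarith

lemma SeaL.ne (h : SeaL b c0 N ρ) {z : ℂ} (hz : |z.im| < b) : ρ z + 1 ≠ 0 := by
  have h1 := h.one_ge hz
  have h2 : 0 < 1 + c0 * N * Real.exp (-(8 / 3 * |z.re|)) := by
    have := h.c0p
    have := h.Np
    positivity
  exact norm_pos_iff.1 (h2.trans_le h1)

/-- **the quotient is a test function** -/
theorem XS_TC (h : SeaL b c0 N ρ) (hβ : TC (-b) b κ M β) (hM : 0 ≤ M) (h1 : κ₁ ≤ κ)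
    (h2 : κ - κ₁ ≤ 8 / 3) (s : ℝ) : TC (-b) b κ₁ (thX c0 N (κ - κ₁) s * M) (XS ρ s β) where
  an z hz := by
    have hz' : |(z + s).im| < b := by rw [shift_im]; exact abs_lt.2 hz
    have hd : DifferentiableAt ℂ (fun z : ℂ => ρ (z + s) + 1) z := by
      have h3 : DifferentiableAt ℂ (fun z : ℂ => ρ (z + s)) z :=
        DifferentiableAt.comp (f := fun z : ℂ => z + (s : ℂ)) z (h.d _ hz') (by fun_prop)
      exact h3.add_const _
    exact ((hβ.dAt hz).div hd (h.ne hz')).differentiableWithinAt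
  bd z hz := by
    have hz' : |(z + s).im| < b := by rw [shift_im]; exact abs_lt.2 hz
    have h3 := h.one_ge hz'
    rw [shift_re] at h3
    have h4 : 0 < 1 + c0 * N * Real.exp (-(8 / 3 * |z.re + s|)) := by
      have := h.c0p
      have := h.Np
      positivity
    unfold XS
    rw [norm_div, div_le_iff₀ (h4.trans_le h3)]
    have ht := thX_nonneg (c0 := c0) (d := κ - κ₁) (s := s) h.Np
    calc ‖β z‖ ≤ M * Real.exp (-(κ * |z.re|)) := hβ.bd z hz
      _ ≤ M * (thX c0 N (κ - κ₁) s * Real.exp (-(κ₁ * |z.re|)) *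
          (1 + c0 * N * Real.exp (-(8 / 3 * |z.re + s|)))) :=
          mul_le_mul_of_nonneg_left (quot_wt h.c0p h.Np h1 h2 _ _) hM
      _ = thX c0 N (κ - κ₁) s * M * Real.exp (-(κ₁ * |z.re|)) *
          (1 + c0 * N * Real.exp (-(8 / 3 * |z.re + s|))) := by ring
      _ ≤ thX c0 N (κ - κ₁) s * M * Real.exp (-(κ₁ * |z.re|)) * ‖ρ (z + s) + 1‖ :=
          mul_le_mul_of_nonneg_left h3 (by positivity)

/-- the field times the density -/
lemma XS_mul (h : SeaL b c0 N ρ) (s : ℝ) {z : ℂ} (hz : |z.im| < b) :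
    XS ρ s β z * ρ (z + s) = β z - XS ρ s β z := by
  have hz' : |(z + s).im| < b := by rw [shift_im]; exact hz
  have := h.ne hz'
  unfold XS
  field_simp
  ring

lemma sub_s_im (z : ℂ) (s : ℝ) : (z - s).im = z.im := by simp

/-- a field as in the Ward identity -/
lemma TC.fldF {X : ℂ → ℂ} (hX : TC (-b) b κ M X) (hκ : 0 ≤ κ) (hM : 0 ≤ M) (q : Bool → ℂ)
    (hq : ∀ t, ‖q t‖ ≤ 1) (s : ℝ) : PB.FldF b (fun t z => q t * X (z - s)) where
  d t z hz := by
    have hz' : z - s ∈ Sp (-b) b := by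
      refine abs_lt.1 ?_
      rw [sub_s_im]
      exact hz
    have h3 : DifferentiableAt ℂ (fun z : ℂ => X (z - s)) z :=
      DifferentiableAt.comp (f := fun z : ℂ => z - (s : ℂ)) z (hX.dAt hz') (by fun_prop)
    exact h3.const_mul _
  bd := ⟨M, hM, fun t z hz => by
    have hz' : z - s ∈ Sp (-b) b := by
      refine abs_lt.1 ?_
      rw [sub_s_im]
      exact hz
    rw [norm_mul]
    calc ‖q t‖ * ‖X (z - s)‖ ≤ 1 * (M * Real.exp (-(κ * |(z - s).re|))) :=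
          mul_le_mul (hq t) (hX.bd _ hz') (norm_nonneg _) zero_le_one
      _ ≤ M := by
          rw [one_mul]
          refine mul_le_of_le_one_right hM (Real.exp_le_one_iff.2 ?_)
          have := mul_nonneg hκ (abs_nonneg (z - s).re)
          linarith⟩

end

/-! ### the plus channel -/

section plus

variable {y₁ y₂ a b b' κ κ₁ κ₂ : ℝ}

/-- **the field of a test function, plus channel** -/
theorem fldx_plus (ha : a < 8 / 3) (h0 : 0 ≤ κ₂) (h1 : κ₂ < κ₁) (h2 : κ₁ ≤ κ) (h3 : κ < a)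
    (h4 : κ₁ < 2) (hb' : 0 < b') (hb : b' < b) (hb1 : y₁ < -b) (hb2 : b < y₂) :
    ∃ C : ℝ, 0 ≤ C ∧ ∀ M g, TC y₁ y₂ a M g → mass g = 0 → ∃ β : ℂ → ℂ, TC (-b) b κ (C * M) β ∧
      (∀ z : ℂ, |z.im| < b → ∀ s : Bool, PB.rsp (fun _ => β) s z = g z) ∧
      ∀ (c0 N : ℝ) (ρ : ℂ → ℂ), SeaL b c0 N ρ → ∀ s : ℝ,
        TC (-b) b κ₁ (thX c0 N (κ - κ₁) s * (C * M)) (XS ρ s β) ∧
        PB.FldF b (fun _ z => XS ρ s β (z - s)) ∧
        ∃ e : ℂ → ℂ, TC (-b') b' κ₂ (thX c0 N (κ - κ₁) s * (C * M)) e ∧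
          ∀ z : ℂ, |z.im| < b' → ∀ t : Bool,
            PB.rsp (PB.mulF ρ fun _ z => XS ρ s β (z - s)) t z = g (z - s) - e (z - s) := by
  have hb0 : 0 < b := hb'.trans hb
  obtain ⟨C1, hC1, H1⟩ := inv_plus ha (by linarith : 0 ≤ κ) h3 hb0 hb1 hb2
  obtain ⟨C2, hC2, H2⟩ := fwd_plus (κ := κ₁) (b := b) h4 h0 h1 hb' hb
  refine ⟨C1 + C2 * C1, by positivity, fun M g hg hm => ?_⟩
  have hM : 0 ≤ M := hg.nonneg (by linarith) (by linarith)
  obtain ⟨β, tβ, rβ, -⟩ := H1 M g hg hm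
  have hCC : C1 * M ≤ (C1 + C2 * C1) * M := by
    have := mul_nonneg (mul_nonneg hC2 hC1) hM
    linarith
  refine ⟨β, tβ.mono hCC, rβ, fun c0 N ρ hρ s => ?_⟩
  have ht := thX_nonneg (c0 := c0) (d := κ - κ₁) (s := s) hρ.Np
  have tX := XS_TC hρ tβ (by positivity) h2 (by linarith) s
  have tX' := XS_TC hρ (tβ.mono hCC) (by positivity) h2 (by linarith) s
  have hF := tX.fldF (by linarith) (by positivity) (fun _ => 1) (fun _ => by simp) s
  simp only [one_mul] at hF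
  refine ⟨tX', hF, ?_⟩
  obtain ⟨e, te, re⟩ := H2 _ _ tX
  refine ⟨e, te.mono ?_, fun z hz t => ?_⟩
  · have h5 : 0 ≤ thX c0 N (κ - κ₁) s * (C1 * M) := by positivity
    have : C2 * (thX c0 N (κ - κ₁) s * (C1 * M)) = thX c0 N (κ - κ₁) s * (C2 * C1 * M) := by ring
    rw [this]
    refine mul_le_mul_of_nonneg_left ?_ ht
    have := mul_nonneg hC1 hM
    linarith
  · have hzb : |z.im| < b := hz.trans hb
    have hzs : |(z - s).im| < b := by rwa [sub_s_im]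
    have hzs' : |(z - s).im| < b' := by rwa [sub_s_im]
    have e1 : PB.rsp (PB.mulF ρ fun _ z => XS ρ s β (z - s)) t z =
        PB.rsp (fun _ w => (fun v => β v - XS ρ s β v) (w - s)) t z := by
      refine rsp_congr (fun t w hw => ?_) hzb t
      have hws : |(w - s).im| < b := by rwa [sub_s_im]
      have := XS_mul (β := β) hρ s hws
      rw [sub_add_cancel] at this
      exact this
    rw [e1, rsp_shift (fun _ v => β v - XS ρ s β v) s t z,
      rsp_sub (X := fun _ => β) (Y := fun _ => XS ρ s β) (b := b) (κ := κ₁) (M := C1 * M)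
        (M' := thX c0 N (κ - κ₁) s * (C1 * M)) (fun _ => ?_) (fun _ => tX) (by linarith) hzs t,
      rβ _ hzs t, re _ hzs' t]
    exact { an := tβ.an, bd := fun w hw => (tβ.bd w hw).trans (mul_le_mul_of_nonneg_left
      (Real.exp_le_exp.2 (neg_le_neg (mul_le_mul_of_nonneg_right h2 (abs_nonneg _))))
        (by positivity)) }

end plus

/-! ### the minus channel -/

/-- a test function of the larger rate -/
lemma TC.rt {b κ κ₁ M : ℝ} {g : ℂ → ℂ} (h : TC (-b) b κ M g) (hM : 0 ≤ M) (hκ : κ₁ ≤ κ) :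
    TC (-b) b κ₁ M g where
  an := h.an
  bd w hw := (h.bd w hw).trans (mul_le_mul_of_nonneg_left
    (Real.exp_le_exp.2 (neg_le_neg (mul_le_mul_of_nonneg_right hκ (abs_nonneg _)))) hM)

lemma TC.sg2 {b κ M : ℝ} {g : ℂ → ℂ} (h : TC (-b) b κ M g) (s : Bool) : TC (-b) b κ M (sg2 g s) := by
  cases s
  · exact ⟨h.an, h.bd⟩
  · refine ⟨h.an.neg, fun z hz => ?_⟩
    have := h.bd z hz
    rwa [← norm_neg] at this

section minus

variable {b b' κ κ₁ κ₂ : ℝ}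

/-- **the response of any antisymmetric pair of test functions** -/
theorem fwd_step (h0 : 0 ≤ κ₂) (h1 : κ₂ < κ₁) (h4 : κ₁ < 2) (hb' : 0 < b') (hb : b' < b)
    (hb2 : b < 2 * NUMF.l) :
    ∃ C : ℝ, 0 ≤ C ∧ ∀ M X, TC (-b) b κ₁ M X → ‖mass X‖ ≤ C * M ∧
      ∃ e : ℂ → ℂ, TC (-b') b' κ₂ (C * M) e ∧ ∀ z : ℂ, |z.im| < b' → ∀ t : Bool,
        PB.rsp (fun s => sg2 X s) t z = sg2 (fun w => e w + 4 * mass X * PBV.tgh w) t z := by
  have hb0 : 0 < b := hb'.trans hb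
  have hκ1 : 0 < κ₁ := by linarith
  obtain ⟨CS, hCS, tS⟩ := bS_TC hκ1.le (by linarith : κ₁ < 8 / 3) hb2
  obtain ⟨C2, hC2, H2⟩ := fwd_minus (κ := κ₁) (b := b) h4 h0 h1 hb' hb
  have hCm : 0 ≤ 2 / κ₁ := by positivity
  refine ⟨2 / κ₁ + C2 * (4 * (2 / κ₁) * CS + 1), by positivity, fun M X hX => ?_⟩
  have hM : 0 ≤ M := hX.nonneg (by linarith) hb0
  have hm : ‖mass X‖ ≤ M * (2 / κ₁) := (hX.real hκ1 (by linarith) hb0).2
  refine ⟨hm.trans ?_, ?_⟩
  · have : 0 ≤ C2 * (4 * (2 / κ₁) * CS + 1) * M := by positivity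
    linarith
  obtain ⟨c, hc⟩ : ∃ c : ℂ, c = -(4 * mass X) := ⟨_, rfl⟩
  have hcn : ‖c‖ ≤ 4 * (M * (2 / κ₁)) := by
    rw [hc, norm_neg, norm_mul]
    have : ‖(4 : ℂ)‖ = 4 := by simp
    rw [this]
    linarith
  have tY := tS.comb hX c
  have mY : mass (fun z => c * bS z + X z) = 0 := by
    rw [mass_comb tS hX hκ1 (by linarith) hb0, mass_bS, hc]
    ring
  have hYb : ‖c‖ * CS + M ≤ (4 * (2 / κ₁) * CS + 1) * M := by
    have := mul_le_mul_of_nonneg_right hcn hCS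
    linarith
  obtain ⟨e, te, re⟩ := H2 _ _ (tY.mono hYb) mY
  refine ⟨e, te.mono ?_, fun z hz t => ?_⟩
  · have : 0 ≤ 2 / κ₁ * M := by positivity
    have : C2 * ((4 * (2 / κ₁) * CS + 1) * M) = C2 * (4 * (2 / κ₁) * CS + 1) * M := by ring
    linarith
  · have hzb : |z.im| < b := hz.trans hb
    have e1 : PB.rsp (fun s => sg2 X s) t z =
        PB.rsp (fun s w => sg2 (fun z => c * bS z + X z) s w - c * sg2 bS s w) t z := by
      refine rsp_congr (b := b) (fun s w _ => ?_) hzb t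
      unfold sg2
      cases s <;> simp
    have tcS : ∀ s, TC (-b) b κ₁ (‖c‖ * CS) (fun w => c * sg2 bS s w) := fun s =>
      { an := ((tS.sg2 s).an).const_mul c
        bd := fun w hw => by
          rw [norm_mul, mul_assoc]
          exact mul_le_mul_of_nonneg_left ((tS.sg2 s).bd w hw) (norm_nonneg _) }
    rw [e1, rsp_sub (X := fun s => sg2 (fun z => c * bS z + X z) s)
      (Y := fun s w => c * sg2 bS s w) (fun s => tY.sg2 s) tcS hκ1 hzb t, re z hz t,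
      rsp_smul (fun s => sg2 bS s) c t z, rsp_bS (hzb.trans hb2) t, hc]
    unfold sg2
    cases t
    · simp
    · simp
      ring

/-- the fields of the minus channel: from a pair of fields with response `(g, -g)` -/
theorem fldx_sg2 (h0 : 0 ≤ κ₂) (h1 : κ₂ < κ₁) (h2 : κ₁ ≤ κ) (hκ : κ - κ₁ ≤ 8 / 3) (h4 : κ₁ < 2)
    (hb' : 0 < b') (hb : b' < b) (hb2 : b < 2 * NUMF.l) :
    ∃ C : ℝ, 0 ≤ C ∧ ∀ M g β, TC (-b) b κ M β →
      (∀ z : ℂ, |z.im| < b → ∀ s : Bool, PB.rsp (fun s => sg2 β s) s z = sg2 g s z) →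
      ∀ (c0 N : ℝ) (ρ : ℂ → ℂ), SeaL b c0 N ρ → ∀ s : ℝ,
        TC (-b) b κ₁ (thX c0 N (κ - κ₁) s * M) (XS ρ s β) ∧
        ‖mass (XS ρ s β)‖ ≤ C * (thX c0 N (κ - κ₁) s * M) ∧
        PB.FldF b (fun t z => sg2 (XS ρ s β) t (z - s)) ∧
        ∃ e : ℂ → ℂ, TC (-b') b' κ₂ (C * (thX c0 N (κ - κ₁) s * M)) e ∧
          ∀ z : ℂ, |z.im| < b' → ∀ t : Bool,
            PB.rsp (PB.mulF ρ fun t z => sg2 (XS ρ s β) t (z - s)) t z =
              sg2 (fun w => g w - e w - 4 * mass (XS ρ s β) * PBV.tgh w) t (z - s) := by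
  have hb0 : 0 < b := hb'.trans hb
  have hκ1 : 0 < κ₁ := by linarith
  obtain ⟨C2, hC2, H2⟩ := fwd_step h0 h1 h4 hb' hb hb2
  refine ⟨C2, hC2, fun M g β tβ rβ c0 N ρ hρ s => ?_⟩
  have hM : 0 ≤ M := tβ.nonneg (by linarith) hb0
  have ht := thX_nonneg (c0 := c0) (d := κ - κ₁) (s := s) hρ.Np
  have tX := XS_TC hρ tβ hM h2 hκ s
  obtain ⟨hm, e, te, re⟩ := H2 _ _ tX
  have hF := tX.fldF (by linarith) (by positivity) (fun t => if t then -1 else 1)
    (fun t => by cases t <;> simp) s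
  have hF' : (fun t z => (if t then -1 else 1 : ℂ) * XS ρ s β (z - s)) =
      fun t z => sg2 (XS ρ s β) t (z - s) := by
    funext t z
    unfold sg2
    cases t <;> simp
  rw [hF'] at hF
  refine ⟨tX, hm, hF, e, te, fun z hz t => ?_⟩
  have hzb : |z.im| < b := hz.trans hb
  have hzs : |(z - s).im| < b := by rwa [sub_s_im]
  have hzs' : |(z - s).im| < b' := by rwa [sub_s_im]
  have e1 : PB.rsp (PB.mulF ρ fun t z => sg2 (XS ρ s β) t (z - s)) t z =
      PB.rsp (fun t w => (fun t v => sg2 β t v - sg2 (XS ρ s β) t v) t (w - s)) t z := by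
    refine rsp_congr (b := b) (fun t w hw => ?_) hzb t
    have hws : |(w - s).im| < b := by rwa [sub_s_im]
    have h5 := XS_mul (β := β) hρ s hws
    rw [sub_add_cancel] at h5
    unfold PB.mulF sg2
    cases t
    · simpa using h5
    · simp only [if_true]
      linear_combination -h5
  rw [e1, rsp_shift (fun t v => sg2 β t v - sg2 (XS ρ s β) t v) s t z,
    rsp_sub (X := fun t => sg2 β t) (Y := fun t => sg2 (XS ρ s β) t)
      (fun t => (tβ.rt hM h2).sg2 t) (fun t => tX.sg2 t) hκ1 hzs t, rβ _ hzs t, re _ hzs' t]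
  unfold sg2
  cases t <;> simp <;> ring

/-- **the field of a test function, minus channel** -/
theorem fldx_minus {y₁ y₂ a : ℝ} (ha : a < 8 / 3) (h0 : 0 ≤ κ₂) (h1 : κ₂ < κ₁) (h2 : κ₁ ≤ κ)
    (h3 : κ < a) (h4 : κ₁ < 2) (hb' : 0 < b') (hb : b' < b) (hb1 : y₁ < -b) (hb2 : b < y₂)
    (hb3 : b < 2 * NUMF.l) :
    ∃ C : ℝ, 0 ≤ C ∧ ∀ M g, TC y₁ y₂ a M g → ∃ β : ℂ → ℂ, TC (-b) b κ (C * M) β ∧
      (∀ z : ℂ, |z.im| < b → ∀ s : Bool, PB.rsp (fun s => sg2 β s) s z = sg2 g s z) ∧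
      ∀ (c0 N : ℝ) (ρ : ℂ → ℂ), SeaL b c0 N ρ → ∀ s : ℝ,
        TC (-b) b κ₁ (thX c0 N (κ - κ₁) s * (C * M)) (XS ρ s β) ∧
        ‖mass (XS ρ s β)‖ ≤ thX c0 N (κ - κ₁) s * (C * M) ∧
        PB.FldF b (fun t z => sg2 (XS ρ s β) t (z - s)) ∧
        ∃ e : ℂ → ℂ, TC (-b') b' κ₂ (thX c0 N (κ - κ₁) s * (C * M)) e ∧
          ∀ z : ℂ, |z.im| < b' → ∀ t : Bool,
            PB.rsp (PB.mulF ρ fun t z => sg2 (XS ρ s β) t (z - s)) t z =
              sg2 (fun w => g w - e w - 4 * mass (XS ρ s β) * PBV.tgh w) t (z - s) := by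
  have hb0 : 0 < b := hb'.trans hb
  obtain ⟨C1, hC1, H1⟩ := inv_minus ha (by linarith : 0 ≤ κ) h3 hb0 hb1 hb2
  obtain ⟨C2, hC2, H2⟩ := fldx_sg2 h0 h1 h2 (by linarith : κ - κ₁ ≤ 8 / 3) h4 hb' hb hb3
  refine ⟨C1 + C2 * C1, by positivity, fun M g hg => ?_⟩
  have hM : 0 ≤ M := hg.nonneg (by linarith) (by linarith)
  obtain ⟨β, tβ, rβ, -⟩ := H1 M g hg
  have hC2' := mul_nonneg (mul_nonneg hC2 hC1) hM
  have hC1' := mul_nonneg hC1 hM
  have hCC : C1 * M ≤ (C1 + C2 * C1) * M := by linarith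
  refine ⟨β, tβ.mono hCC, rβ, fun c0 N ρ hρ s => ?_⟩
  have ht := thX_nonneg (c0 := c0) (d := κ - κ₁) (s := s) hρ.Np
  obtain ⟨tX, hm, hF, e, te, re⟩ := H2 _ g β tβ rβ c0 N ρ hρ s
  have h5 : C2 * (thX c0 N (κ - κ₁) s * (C1 * M)) ≤ thX c0 N (κ - κ₁) s * ((C1 + C2 * C1) * M) := by
    have : C2 * (thX c0 N (κ - κ₁) s * (C1 * M)) = thX c0 N (κ - κ₁) s * (C2 * C1 * M) := by ring
    rw [this]
    exact mul_le_mul_of_nonneg_left (by linarith) ht
  exact ⟨tX.mono (mul_le_mul_of_nonneg_left hCC ht), hm.trans h5, hF, e, te.mono h5, re⟩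

/-- **the field of the step** -/
theorem fldx_step (h0 : 0 ≤ κ₂) (h1 : κ₂ < κ₁) (h2 : κ₁ ≤ κ) (h3 : κ < 8 / 3) (h4 : κ₁ < 2)
    (hb' : 0 < b') (hb : b' < b) (hb3 : b < 2 * NUMF.l) :
    ∃ C : ℝ, 0 ≤ C ∧ TC (-b) b κ C bS ∧
      ∀ (c0 N : ℝ) (ρ : ℂ → ℂ), SeaL b c0 N ρ → ∀ s : ℝ,
        TC (-b) b κ₁ (thX c0 N (κ - κ₁) s * C) (XS ρ s bS) ∧
        ‖mass (XS ρ s bS)‖ ≤ thX c0 N (κ - κ₁) s * C ∧
        PB.FldF b (fun t z => sg2 (XS ρ s bS) t (z - s)) ∧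
        ∃ e : ℂ → ℂ, TC (-b') b' κ₂ (thX c0 N (κ - κ₁) s * C) e ∧
          ∀ z : ℂ, |z.im| < b' → ∀ t : Bool,
            PB.rsp (PB.mulF ρ fun t z => sg2 (XS ρ s bS) t (z - s)) t z =
              sg2 (fun w => PBV.tgh w - e w - 4 * mass (XS ρ s bS) * PBV.tgh w) t (z - s) := by
  have hb0 : 0 < b := hb'.trans hb
  obtain ⟨C1, hC1, tS⟩ := bS_TC (by linarith : 0 ≤ κ) h3 hb3
  obtain ⟨C2, hC2, H2⟩ := fldx_sg2 h0 h1 h2 (by linarith : κ - κ₁ ≤ 8 / 3) h4 hb' hb hb3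
  have hC2' := mul_nonneg hC2 hC1
  have hCC : C1 ≤ C1 + C2 * C1 := by linarith
  refine ⟨C1 + C2 * C1, by positivity, tS.mono hCC, fun c0 N ρ hρ s => ?_⟩
  have ht := thX_nonneg (c0 := c0) (d := κ - κ₁) (s := s) hρ.Np
  obtain ⟨tX, hm, hF, e, te, re⟩ := H2 _ PBV.tgh bS tS (fun z hz s => rsp_bS (hz.trans hb3) s)
    c0 N ρ hρ s
  have h5 : C2 * (thX c0 N (κ - κ₁) s * C1) ≤ thX c0 N (κ - κ₁) s * (C1 + C2 * C1) := by
    have : C2 * (thX c0 N (κ - κ₁) s * C1) = thX c0 N (κ - κ₁) s * (C2 * C1) := by ring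
    rw [this]
    exact mul_le_mul_of_nonneg_left (by linarith) ht
  exact ⟨tX.mono (mul_le_mul_of_nonneg_left hCC ht), hm.trans h5, hF, e, te.mono h5, re⟩

end minus

/-! ### the derivative terms -/

section dterm

variable {b c0 N κ κ₁ M : ℝ} {ρ β : ℂ → ℂ}

lemma TC.cont_sh {X : ℂ → ℂ} (hX : TC (-b) b κ M X) (hb : 0 < b) (s : ℝ) :
    Continuous fun u : ℝ => X ((u : ℂ) - s) := by
  rw [continuous_iff_continuousAt]
  intro u
  have hu : (u : ℂ) - s ∈ Sp (-b) b := by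
    have e : ((u : ℂ) - s).im = 0 := by simp
    show -b < _ ∧ _ < b
    rw [e]
    exact ⟨by linarith, hb⟩
  exact ContinuousAt.comp (f := fun u : ℝ => (u : ℂ) - s) (hX.dAt hu).continuousAt
    (by fun_prop)

lemma TC.int_sh {X : ℂ → ℂ} (hX : TC (-b) b κ M X) (hκ : 0 < κ) (hb : 0 < b) (s : ℝ) :
    Integrable fun u : ℝ => X ((u : ℂ) - s) := by
  have h := (hX.real hκ (by linarith) hb).1.comp_sub_right s
  refine h.congr (Eventually.of_forall fun u => ?_)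
  simp only [ofReal_sub]

/-- the derivative term of one species -/
theorem int_rXD (h : SeaL b c0 N ρ) (hb : 0 < b) (hβ : TC (-b) b κ M β) (hM : 0 ≤ M)
    (hκ1 : 0 < κ₁) (h1 : κ₁ ≤ κ) (h2 : κ - κ₁ ≤ 8 / 3) (s : ℝ) {f : ℝ → ℂ} {B : ℝ}
    (hf : Continuous f) (hB : ∀ u, ‖f u‖ ≤ B) :
    (Integrable fun u : ℝ => β (u - s) * f u) ∧ (Integrable fun u : ℝ => XS ρ s β (u - s) * f u) ∧
    ∫ u : ℝ, ρ u * (XS ρ s β (u - s) * f u) =
      (∫ u : ℝ, β (u - s) * f u) - ∫ u : ℝ, XS ρ s β (u - s) * f u := by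
  have tX := XS_TC h hβ hM h1 h2 s
  have i1 : Integrable fun u : ℝ => β (u - s) * f u :=
    (hβ.int_sh (by linarith) hb s).mul_bdd (c := B) hf.aestronglyMeasurable
      (Eventually.of_forall hB)
  have i2 : Integrable fun u : ℝ => XS ρ s β (u - s) * f u :=
    (tX.int_sh hκ1 hb s).mul_bdd (c := B) hf.aestronglyMeasurable (Eventually.of_forall hB)
  refine ⟨i1, i2, ?_⟩
  rw [← integral_sub i1 i2]
  refine integral_congr_ae (Eventually.of_forall fun u => ?_)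
  have hu : |((u : ℂ) - s).im| < b := by
    have e : ((u : ℂ) - s).im = 0 := by simp
    rw [e, abs_zero]
    exact hb
  have h5 := XS_mul (β := β) h s hu
  rw [sub_add_cancel] at h5
  simp only
  linear_combination (f u) * h5

/-- the size of the small derivative term -/
theorem int_XD_le {X : ℂ → ℂ} (hX : TC (-b) b κ₁ M X) (hb : 0 < b) (hκ1 : 0 < κ₁) (hM : 0 ≤ M)
    (s : ℝ) {f : ℝ → ℂ} {B : ℝ} (hB : ∀ u, ‖f u‖ ≤ B) :
    ‖∫ u : ℝ, X (u - s) * f u‖ ≤ M * (2 / κ₁) * B := by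
  have hB0 : 0 ≤ B := (norm_nonneg _).trans (hB 0)
  have h1 : Integrable fun u : ℝ => M * Real.exp (-(κ₁ * |u - s|)) * B :=
    (((int_exp_abs hκ1).1.comp_sub_right s).const_mul M).mul_const B
  refine (norm_integral_le_of_norm_le h1 (Eventually.of_forall fun u => ?_)).trans (le_of_eq ?_)
  · rw [norm_mul]
    have hu : (u : ℂ) - s ∈ Sp (-b) b := by
      have e : ((u : ℂ) - s).im = 0 := by simp
      show -b < _ ∧ _ < b
      rw [e]
      exact ⟨by linarith, hb⟩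
    have h3 := hX.bd _ hu
    have e : ((u : ℂ) - s).re = u - s := by simp
    rw [e] at h3
    exact mul_le_mul h3 (hB u) (norm_nonneg _) (by positivity)
  · rw [integral_mul_const, integral_const_mul]
    congr 2
    have := integral_sub_right_eq_self (fun u : ℝ => Real.exp (-(κ₁ * |u|))) (μ := volume) s
    rw [this, (int_exp_abs hκ1).2]

/-- **the derivative term, plus channel** -/
theorem sumD_plus (h : SeaL b c0 N ρ) (hb : 0 < b) (hβ : TC (-b) b κ M β) (hM : 0 ≤ M)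
    (hκ1 : 0 < κ₁) (h1 : κ₁ ≤ κ) (h2 : κ - κ₁ ≤ 8 / 3) (s : ℝ) {f : ℂ → ℂ} {B : ℝ}
    (hf : Continuous fun u : ℝ => deriv f u) (hB : ∀ u : ℝ, ‖deriv f u‖ ≤ B) :
    ∑ _t : Bool, ∫ u : ℝ, ρ u * (XS ρ s β (u - s) * deriv f u) =
      2 * (∫ u : ℝ, β (u - s) * deriv f u) - 2 * ∫ u : ℝ, XS ρ s β (u - s) * deriv f u := by
  rw [Fintype.sum_bool, (int_rXD h hb hβ hM hκ1 h1 h2 s hf hB).2.2]
  ring

lemma deriv_sg2 (f : ℂ → ℂ) (t : Bool) (z : ℂ) : deriv (sg2 f t) z = sg2 (deriv f) t z := by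
  unfold sg2
  cases t
  · simp
  · simp only [if_true]
    exact deriv.fun_neg

/-- **the derivative term, minus channel** -/
theorem sumD_minus (h : SeaL b c0 N ρ) (hb : 0 < b) (hβ : TC (-b) b κ M β) (hM : 0 ≤ M)
    (hκ1 : 0 < κ₁) (h1 : κ₁ ≤ κ) (h2 : κ - κ₁ ≤ 8 / 3) (s : ℝ) {f : ℂ → ℂ} {B : ℝ}
    (hf : Continuous fun u : ℝ => deriv f u) (hB : ∀ u : ℝ, ‖deriv f u‖ ≤ B) :
    ∑ t : Bool, ∫ u : ℝ, ρ u * (sg2 (XS ρ s β) t (u - s) * deriv (sg2 f t) u) =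
      2 * (∫ u : ℝ, β (u - s) * deriv f u) - 2 * ∫ u : ℝ, XS ρ s β (u - s) * deriv f u := by
  rw [← sumD_plus h hb hβ hM hκ1 h1 h2 s hf hB]
  refine Finset.sum_congr rfl fun t _ => ?_
  refine integral_congr_ae (Eventually.of_forall fun u => ?_)
  simp only [deriv_sg2]
  unfold sg2
  cases t <;> simp

/-- the product of a field and the derivative of a test function -/
theorem XD_TC {X f : ℂ → ℂ} {y₁ y₂ a M' r : ℝ} (hX : TC (-b) b κ₁ M X) (hM : 0 ≤ M)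
    (hf : TC y₁ y₂ a M' f) (ha : 0 ≤ a) (hM' : 0 ≤ M') (hr : 0 < r) (h1 : y₁ + r ≤ -b)
    (h2 : b ≤ y₂ - r) :
    TC (-b) b (κ₁ + a) (M * (M' * Real.exp (a * r) / r)) (fun z => X z * deriv f z) := by
  have hd := Pool.Agent.PB.TC_derivTC hf ha hM' hr
  have hs : ∀ z, z ∈ Sp (-b) b → z ∈ Sp (y₁ + r) (y₂ - r) := fun z hz =>
    ⟨lt_of_le_of_lt h1 hz.1, lt_of_lt_of_le hz.2 h2⟩
  refine ⟨hX.an.mul (hd.an.mono hs), fun z hz => ?_⟩
  rw [norm_mul]
  calc ‖X z‖ * ‖deriv f z‖ ≤ (M * Real.exp (-(κ₁ * |z.re|))) *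
        (M' * Real.exp (a * r) / r * Real.exp (-(a * |z.re|))) :=
        mul_le_mul (hX.bd z hz) (hd.bd z (hs z hz)) (norm_nonneg _) (by positivity)
    _ = M * (M' * Real.exp (a * r) / r) * (Real.exp (-(κ₁ * |z.re|)) * Real.exp (-(a * |z.re|))) := by
        ring
    _ = _ := by
        rw [← Real.exp_add]
        congr 2
        ring

/-- the derivative of the step is a test function -/
theorem tgh_TC (hb : 0 < b) (hb2 : b < 2 * NUMF.l) :
    TC (-b) b 4 (8 / Real.cos (2 * b) ^ 2) (deriv PBV.tgh) ∧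
      ∀ z : ℂ, |z.im| < b → HasDerivAt PBV.tgh (2 / Complex.cosh (2 * z) ^ 2) z := by
  have hl : 2 * NUMF.l = Real.pi / 4 := by unfold NUMF.l; ring
  have hpi := Real.pi_pos
  have hcb : 0 < Real.cos (2 * b) := Real.cos_pos_of_mem_Ioo ⟨by linarith, by linarith⟩
  have hlow : ∀ z : ℂ, |z.im| < b → Real.cos (2 * b) * (Real.exp (2 * |z.re|) / 2) ≤
      ‖Complex.cosh (2 * z)‖ := by
    intro z hz
    have h1 : (Complex.cosh (2 * z)).re = Real.cosh (2 * z.re) * Real.cos (2 * z.im) := by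
      have e : (2 * z : ℂ) = ((2 * z.re : ℝ) : ℂ) + ((2 * z.im : ℝ) : ℂ) * I := by
        apply Complex.ext <;> simp
      rw [e, Complex.cosh_add, Complex.cosh_mul_I, Complex.sinh_mul_I, ← ofReal_cosh, ← ofReal_cos,
        ← ofReal_sinh, ← ofReal_sin]
      simp only [add_re, mul_re, ofReal_re, ofReal_im, I_re, I_im, mul_im, mul_zero, sub_zero,
        mul_one, zero_mul, add_zero, sub_self]
    have h2 := Complex.re_le_norm (Complex.cosh (2 * z))
    rw [h1] at h2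
    refine le_trans ?_ h2
    have h3 : Real.cos (2 * b) ≤ Real.cos (2 * z.im) := by
      rw [← Real.cos_abs (2 * z.im), abs_mul, abs_two]
      exact Real.cos_le_cos_of_nonneg_of_le_pi (by positivity) (by linarith) (by linarith)
    have h4 : Real.exp (2 * |z.re|) / 2 ≤ Real.cosh (2 * z.re) := by
      rw [← Real.cosh_abs, abs_mul, abs_two, Real.cosh_eq]
      have := Real.exp_pos (-(2 * |z.re|))
      linarith
    rw [mul_comm]
    exact mul_le_mul h4 h3 hcb.le (Real.cosh_pos _).le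
  have hne : ∀ z : ℂ, |z.im| < b → Complex.cosh (2 * z) ≠ 0 := fun z hz =>
    norm_pos_iff.1 (lt_of_lt_of_le (by positivity) (hlow z hz))
  have hder : ∀ z : ℂ, |z.im| < b → HasDerivAt PBV.tgh (2 / Complex.cosh (2 * z) ^ 2) z := by
    intro z hz
    have hc := hne z hz
    have d1 : HasDerivAt (fun z : ℂ => 2 * z) 2 z := by
      simpa using (hasDerivAt_id z).const_mul 2
    have d2 := (d1.csinh).div d1.ccosh hc
    refine d2.congr_deriv ?_
    have h5 := Complex.cosh_sq (2 * z)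
    congr 1
    linear_combination 2 * h5
  refine ⟨⟨fun z hz => ?_, fun z hz => ?_⟩, hder⟩
  · have hz' : |z.im| < b := abs_lt.2 hz
    have ho : IsOpen {z : ℂ | |z.im| < b} := isOpen_lt (by fun_prop) continuous_const
    have hdf : DifferentiableOn ℂ PBV.tgh {z : ℂ | |z.im| < b} := fun w hw =>
      (hder w hw).differentiableAt.differentiableWithinAt
    exact ((hdf.deriv ho).differentiableAt (ho.mem_nhds hz')).differentiableWithinAt
  · have hz' : |z.im| < b := abs_lt.2 hz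
    rw [(hder z hz').deriv, norm_div, norm_pow]
    have h5 := hlow z hz'
    have h6 : 0 < Real.cos (2 * b) * (Real.exp (2 * |z.re|) / 2) := by positivity
    have n2 : ‖(2 : ℂ)‖ = 2 := by simp
    rw [n2, div_le_iff₀ (by have := h6.trans_le h5; positivity)]
    have h7 := pow_le_pow_left₀ h6.le h5 2
    calc (2 : ℝ) = 8 / Real.cos (2 * b) ^ 2 * Real.exp (-(4 * |z.re|)) *
          (Real.cos (2 * b) * (Real.exp (2 * |z.re|) / 2)) ^ 2 := by
          have e : Real.exp (2 * |z.re|) ^ 2 = Real.exp (4 * |z.re|) := by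
            rw [← Real.exp_nat_mul]
            congr 1
            push_cast
            ring
          have e2 : Real.exp (-(4 * |z.re|)) * Real.exp (4 * |z.re|) = 1 := by
            rw [← Real.exp_add, neg_add_cancel, Real.exp_zero]
          rw [mul_pow, div_pow, e]
          field_simp
          linear_combination (-8 : ℝ) * e2
      _ ≤ _ := mul_le_mul_of_nonneg_left h7 (by positivity)

end dterm

/-! ### the sea of rows -/

/-- **the sea of `m` rows on the imaginary axis** -/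
theorem seaL_rows {b : ℝ} (hb0 : 0 ≤ b) (hb : b < NUP1.l) : ∃ c0 : ℝ, 0 < c0 ∧
    ∀ (m : ℕ) (x : Fin m → ℂ), 0 < m → PBForce.Rws0 x →
      SeaL b c0 m (fun z => PBForce.rhoR x (NUP1.l + I * z)) ∧
      PB.SeaF b (fun z => PBForce.rhoR x (NUP1.l + I * z)) := by
  obtain ⟨c, hc, hlow⟩ := PBForce.rhoR_low hb0 hb
  obtain ⟨A, hA, hup⟩ := PBForce.rhoR_up hb0 hb
  refine ⟨c, hc, fun m x hm hx => ?_⟩
  have e1 : ∀ z : ℂ, ((NUP1.l : ℂ) + I * z - NUP1.l).re = -z.im := fun z => by simp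
  have e2 : ∀ z : ℂ, ((NUP1.l : ℂ) + I * z).im = z.re := fun z => by simp
  have hd : ∀ z : ℂ, |z.im| < b →
      DifferentiableAt ℂ (fun z => PBForce.rhoR x (NUP1.l + I * z)) z := by
    intro z hz
    refine DifferentiableAt.comp (f := fun z : ℂ => (NUP1.l : ℂ) + I * z) z
      (PBForce.rhoR_diff fun i => ?_) (by fun_prop)
    rw [PBForce.row_re hx, e1, abs_neg]
    exact hz.trans hb
  have hne : ∀ z : ℂ, |z.im| < b → PBForce.rhoR x (NUP1.l + I * z) ≠ 0 := by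
    intro z hz
    refine PBForce.rhoR_ne hm fun i => ?_
    rw [PBForce.row_re hx, e1, abs_neg]
    exact hz.trans hb
  have hm' : (0 : ℝ) < m := by exact_mod_cast hm
  refine ⟨⟨hc, hm', hd, fun z hz => ?_⟩, ⟨hd, hne, A * m, 8 / 3, by positivity, by norm_num,
    fun z hz => ?_⟩⟩
  · have := hlow m x hx (NUP1.l + I * z) (by rw [e1, abs_neg]; exact hz.le)
    rwa [e2] at this
  · have := hup m x hx (NUP1.l + I * z) (by rw [e1, abs_neg]; exact hz.le)
    rwa [e2] at this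

end PBE
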