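import Mathlib

/-!
# Plan B, (TR): the response of an object on the path

`h M t = min 1 (e^{(8/3) (M - |t|)})` = size of the fields, `t0` = height of an object.

* `ker_le`: `‖K t - 2 c sgn (t - t0)‖ ≤ C e^{-2 |t - t0|}` gives
  `‖K t + 2 c sgn t0‖ ≤ (C + 4 ‖c‖) min 1 (e^{2 (|t| - |t0|)})`;
* `int_le`: `∫ min 1 (e^{(8/3) (M - |t|)}) min 1 (e^{2 (|t| - |t0|)}) ≤ 6 (1 + M) min 1 (e^{2 (M - |t0|)})`;
* **`resp_le`**: `‖∑ b, ∫ β b K b + D‖ ≤ (12 B (C + 4 c) (1 + M) + C') (1 + M) min 1 (e^{2 (M - |t0|)})`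
  if `‖β b t‖ ≤ B (1 + M) h M t`, `‖D - sgn t0 (2 ∑ b, c b ∫ β b)‖ ≤ C' (1 + M) min 1 (e^{2 (M - |t0|)})`.
-/

set_option autoImplicit false

noncomputable section

open MeasureTheory Set Filter

namespace PBTs

/-- sign, `1` at `0` -/
def sg1 (x : ℝ) : ℝ := if x < 0 then -1 else 1

theorem abs_sg1 (x : ℝ) : |sg1 x| = 1 := by
  unfold sg1
  split_ifs <;> simp

theorem sg1_neg {x : ℝ} (h : x < 0) : sg1 x = -1 := if_pos h

theorem sg1_nonneg {x : ℝ} (h : 0 ≤ x) : sg1 x = 1 := if_neg (not_lt.2 h)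

theorem measurable_sg1 : Measurable sg1 :=
  Measurable.ite (measurableSet_lt measurable_id measurable_const) measurable_const measurable_const

/-- **the kernel of an object against its limit on the side of the origin** -/
theorem ker_le {K : ℂ} {c : ℂ} {C t t0 : ℝ} (hC : 0 ≤ C)
    (h : ‖K - 2 * c * sg1 (t - t0)‖ ≤ C * Real.exp (-(2 * |t - t0|))) :
    ‖K + 2 * c * sg1 t0‖ ≤ (C + 4 * ‖c‖) * min 1 (Real.exp (2 * (|t| - |t0|))) := by
  have hc := norm_nonneg c
  have hle : ‖K - 2 * c * sg1 (t - t0)‖ ≤ C := by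
    refine h.trans ?_
    have : Real.exp (-(2 * |t - t0|)) ≤ 1 := by
      rw [Real.exp_le_one_iff]
      have := abs_nonneg (t - t0)
      linarith
    nlinarith
  by_cases hs : sg1 (t - t0) = -sg1 t0
  · -- between the origin and the object
    have e : K + 2 * c * sg1 t0 = K - 2 * c * sg1 (t - t0) := by
      rw [hs]
      push_cast
      ring
    rw [e]
    have h1 : Real.exp (-(2 * |t - t0|)) ≤ Real.exp (2 * (|t| - |t0|)) := by
      rw [Real.exp_le_exp]
      have := abs_sub_abs_le_abs_sub t0 t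
      rw [abs_sub_comm t0 t] at this
      linarith
    have h2 : Real.exp (-(2 * |t - t0|)) ≤ 1 := by
      rw [Real.exp_le_one_iff]
      have := abs_nonneg (t - t0)
      linarith
    refine h.trans ?_
    have h3 := le_min h2 h1
    have h4 : 0 ≤ min 1 (Real.exp (2 * (|t| - |t0|))) := le_min zero_le_one (Real.exp_pos _).le
    nlinarith
  · -- beyond the object
    have h1 : |t0| ≤ |t| := by
      rcases lt_or_ge (t - t0) 0 with h2 | h2
      · rcases lt_or_ge t0 0 with h3 | h3
        · rw [abs_of_neg h3, abs_of_neg (by linarith)]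
          linarith
        · rw [sg1_neg h2, sg1_nonneg h3] at hs
          exact absurd rfl hs
      · rcases lt_or_ge t0 0 with h3 | h3
        · rw [sg1_nonneg h2, sg1_neg h3] at hs
          exact absurd (by norm_num) hs
        · rw [abs_of_nonneg h3, abs_of_nonneg (by linarith)]
          linarith
    have h2 : min 1 (Real.exp (2 * (|t| - |t0|))) = 1 :=
      min_eq_left (Real.one_le_exp (by linarith))
    rw [h2, mul_one]
    have e : K + 2 * c * sg1 t0 = (K - 2 * c * sg1 (t - t0)) + (2 * c * sg1 (t - t0) + 2 * c * sg1 t0) := by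
      ring
    rw [e]
    refine (norm_add_le _ _).trans (add_le_add hle ?_)
    have e2 : ∀ x : ℝ, ‖(2 : ℂ) * c * (sg1 x : ℂ)‖ = 2 * ‖c‖ := by
      intro x
      rw [norm_mul, norm_mul, Complex.norm_real, Real.norm_eq_abs, abs_sg1]
      simp
    refine (norm_add_le _ _).trans ?_
    rw [e2, e2]
    linarith

/-! ### the integral -/

/-- `e^{-a |t|}` is integrable, integral `2 / a` -/
theorem int_ea {a : ℝ} (ha : 0 < a) : Integrable (fun t : ℝ => Real.exp (-(a * |t|))) ∧
    ∫ t : ℝ, Real.exp (-(a * |t|)) = 2 / a := by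
  constructor
  · rw [← integrableOn_univ, ← Set.Iic_union_Ioi (a := (0 : ℝ)), integrableOn_union]
    constructor
    · refine (integrableOn_exp_mul_Iic ha 0).congr_fun (fun x hx => ?_) measurableSet_Iic
      rw [abs_of_nonpos hx]
      ring_nf
    · refine (integrableOn_exp_mul_Ioi (a := -a) (by linarith) 0).congr_fun
        (fun x hx => ?_) measurableSet_Ioi
      have hx' : 0 < x := hx
      simp only [abs_of_pos hx', neg_mul]
  · have := integral_comp_abs (f := fun t : ℝ => Real.exp (-(a * t)))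
    rw [this]
    have h1 := integral_exp_mul_Ioi (by linarith : -a < 0) 0
    simp only [neg_mul] at h1
    rw [h1]
    simp
    ring

/-- the same, shifted centre -/
theorem int_ea_sh {a : ℝ} (ha : 0 < a) (x : ℝ) : Integrable (fun t : ℝ => Real.exp (-(a * |t - x|))) ∧
    ∫ t : ℝ, Real.exp (-(a * |t - x|)) = 2 / a :=
  ⟨(int_ea ha).1.comp_sub_right x, by
    rw [integral_sub_right_eq_self (fun t : ℝ => Real.exp (-(a * |t|))) x]
    exact (int_ea ha).2⟩

/-- size of the fields -/
def hM (M t : ℝ) : ℝ := min 1 (Real.exp (8 / 3 * (M - |t|)))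

theorem hM_nonneg (M t : ℝ) : 0 ≤ hM M t := le_min zero_le_one (Real.exp_pos _).le

theorem hM_le_one (M t : ℝ) : hM M t ≤ 1 := min_le_left _ _

theorem continuous_hM (M : ℝ) : Continuous (hM M) := by
  unfold hM
  fun_prop

/-- first majorant -/
theorem hM_le_ind {M : ℝ} (t : ℝ) : hM M t ≤ (Icc (-M) M).indicator (fun _ => (1 : ℝ)) t +
    (Real.exp (-(8 / 3 * |t - M|)) + Real.exp (-(8 / 3 * |t - -M|))) := by
  have e1 := Real.exp_pos (-(8 / 3 * |t - M|))
  have e2 := Real.exp_pos (-(8 / 3 * |t - -M|))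
  by_cases h : t ∈ Icc (-M) M
  · rw [indicator_of_mem h]
    linarith [hM_le_one M t]
  · rw [indicator_of_notMem h, zero_add]
    have h1 : hM M t ≤ Real.exp (8 / 3 * (M - |t|)) := min_le_right _ _
    rcases le_total 0 t with h0 | h0
    · have h2 : M < t := by
        by_contra h3
        exact h ⟨by linarith, not_lt.1 h3⟩
      rw [abs_of_nonneg h0] at h1
      rw [abs_of_pos (by linarith : 0 < t - M)]
      rw [abs_of_pos (by linarith : 0 < t - M)] at e1
      have e : 8 / 3 * (M - t) = -(8 / 3 * (t - M)) := by ring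
      rw [e] at h1
      linarith
    · have h2 : t < -M := by
        by_contra h3
        exact h ⟨not_lt.1 h3, by linarith⟩
      rw [abs_of_nonpos h0] at h1
      rw [abs_of_neg (by linarith : t - -M < 0)]
      rw [abs_of_neg (by linarith : t - -M < 0)] at e2
      have e : 8 / 3 * (M - -t) = -(8 / 3 * -(t - -M)) := by ring
      rw [e] at h1
      linarith

theorem integrable_maj {M : ℝ} : Integrable fun t => (Icc (-M) M).indicator (fun _ => (1 : ℝ)) t +
    (Real.exp (-(8 / 3 * |t - M|)) + Real.exp (-(8 / 3 * |t - -M|))) := by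
  refine Integrable.add ?_ ((int_ea_sh (by norm_num) M).1.add (int_ea_sh (by norm_num) (-M)).1)
  exact (integrable_indicator_iff measurableSet_Icc).2 (integrableOn_const (by simp))

theorem integrable_hM (M : ℝ) : Integrable (hM M) :=
  (integrable_maj (M := M)).mono' (continuous_hM M).aestronglyMeasurable
    (Eventually.of_forall fun t => by
      rw [Real.norm_of_nonneg (hM_nonneg M t)]
      exact hM_le_ind t)

theorem int_hM_le {M : ℝ} (h : 0 ≤ M) : ∫ t, hM M t ≤ 2 * (1 + M) := by
  refine (integral_mono (integrable_hM M) integrable_maj fun t => hM_le_ind t).trans ?_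
  have i1 : Integrable fun t => (Icc (-M) M).indicator (fun _ => (1 : ℝ)) t :=
    (integrable_indicator_iff measurableSet_Icc).2 (integrableOn_const (by simp))
  have i2 := int_ea_sh (a := 8 / 3) (by norm_num) M
  have i3 := int_ea_sh (a := 8 / 3) (by norm_num) (-M)
  have i23 : Integrable fun t : ℝ =>
      Real.exp (-(8 / 3 * |t - M|)) + Real.exp (-(8 / 3 * |t - -M|)) := i2.1.add i3.1
  rw [integral_add i1 i23, integral_add i2.1 i3.1, i2.2, i3.2,
    integral_indicator measurableSet_Icc]
  simp only [integral_const, smul_eq_mul, mul_one, measureReal_restrict_apply MeasurableSet.univ,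
    univ_inter, Real.volume_real_Icc_of_le (by linarith : -M ≤ M)]
  linarith

/-- second majorant -/
theorem hM_mul_le {M : ℝ} (t : ℝ) : hM M t * Real.exp (2 * |t|) ≤ Real.exp (2 * M) *
    (Real.exp (-(2 / 3 * |t - M|)) + Real.exp (-(2 / 3 * |t - -M|))) := by
  have key : hM M t * Real.exp (2 * |t|) ≤ Real.exp (2 * M) * Real.exp (-(2 / 3 * |(|t| - M)|)) := by
    rcases le_total |t| M with h | h
    · have h1 : hM M t * Real.exp (2 * |t|) ≤ 1 * Real.exp (2 * |t|) :=
        mul_le_mul_of_nonneg_right (hM_le_one M t) (Real.exp_pos _).le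
      refine h1.trans ?_
      rw [one_mul, ← Real.exp_add, Real.exp_le_exp, abs_of_nonpos (by linarith : |t| - M ≤ 0)]
      linarith
    · have h1 : hM M t * Real.exp (2 * |t|) ≤ Real.exp (8 / 3 * (M - |t|)) * Real.exp (2 * |t|) :=
        mul_le_mul_of_nonneg_right (min_le_right _ _) (Real.exp_pos _).le
      refine h1.trans ?_
      rw [← Real.exp_add, ← Real.exp_add, Real.exp_le_exp, abs_of_nonneg (by linarith : 0 ≤ |t| - M)]
      linarith
  refine key.trans (mul_le_mul_of_nonneg_left ?_ (Real.exp_pos _).le)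
  have e1 := Real.exp_pos (-(2 / 3 * |t - M|))
  have e2 := Real.exp_pos (-(2 / 3 * |t - -M|))
  rcases le_total 0 t with h0 | h0
  · rw [abs_of_nonneg h0]
    linarith
  · rw [abs_of_nonpos h0]
    have e : |-t - M| = |t - -M| := by
      rw [← abs_neg]
      congr 1
      ring
    rw [e]
    linarith

/-- `min 1 (e^{2 (|t| - |t0|)})` -/
def mN (t t0 : ℝ) : ℝ := min 1 (Real.exp (2 * (|t| - |t0|)))

theorem mN_nonneg (t t0 : ℝ) : 0 ≤ mN t t0 := le_min zero_le_one (Real.exp_pos _).le

theorem continuous_mN (t0 : ℝ) : Continuous fun t => mN t t0 := by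
  unfold mN
  fun_prop

theorem integrable_hM_mN (M t0 : ℝ) : Integrable fun t => hM M t * mN t t0 :=
  (integrable_hM M).mono' ((continuous_hM M).mul (continuous_mN t0)).aestronglyMeasurable
    (Eventually.of_forall fun t => by
      rw [Real.norm_of_nonneg (mul_nonneg (hM_nonneg M t) (mN_nonneg t t0))]
      exact mul_le_of_le_one_right (hM_nonneg M t) (min_le_left _ _))

/-- **the integral** -/
theorem int_le {M : ℝ} (h : 0 ≤ M) (t0 : ℝ) : ∫ t, hM M t * mN t t0 ≤
    6 * (1 + M) * min 1 (Real.exp (2 * (M - |t0|))) := by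
  have b1 : ∫ t, hM M t * mN t t0 ≤ 6 * (1 + M) := by
    refine (integral_mono (integrable_hM_mN M t0) (integrable_hM M) fun t =>
      mul_le_of_le_one_right (hM_nonneg M t) (min_le_left _ _)).trans ((int_hM_le h).trans ?_)
    linarith
  have b2 : ∫ t, hM M t * mN t t0 ≤ 6 * Real.exp (2 * (M - |t0|)) := by
    have i2 := int_ea_sh (a := 2 / 3) (by norm_num) M
    have i3 := int_ea_sh (a := 2 / 3) (by norm_num) (-M)
    have hle : ∀ t, hM M t * mN t t0 ≤ Real.exp (-(2 * |t0|)) * (Real.exp (2 * M) *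
        (Real.exp (-(2 / 3 * |t - M|)) + Real.exp (-(2 / 3 * |t - -M|)))) := by
      intro t
      have h1 : hM M t * mN t t0 ≤ hM M t * (Real.exp (-(2 * |t0|)) * Real.exp (2 * |t|)) := by
        refine mul_le_mul_of_nonneg_left ((min_le_right _ _).trans (le_of_eq ?_)) (hM_nonneg M t)
        rw [← Real.exp_add]
        congr 1
        ring
      refine h1.trans ?_
      have h2 := mul_le_mul_of_nonneg_left (hM_mul_le (M := M) t) (Real.exp_pos (-(2 * |t0|))).le
      linarith
    refine (integral_mono (integrable_hM_mN M t0)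
      (((i2.1.add i3.1).const_mul _).const_mul _) hle).trans ?_
    have e0 : ∫ t : ℝ, Real.exp (-(2 * |t0|)) * (Real.exp (2 * M) *
        (Real.exp (-(2 / 3 * |t - M|)) + Real.exp (-(2 / 3 * |t - -M|)))) =
        Real.exp (-(2 * |t0|)) * (Real.exp (2 * M) * (2 / (2 / 3) + 2 / (2 / 3))) := by
      rw [integral_const_mul, integral_const_mul, integral_add i2.1 i3.1, i2.2, i3.2]
    show ∫ t : ℝ, Real.exp (-(2 * |t0|)) * (Real.exp (2 * M) *
        (Real.exp (-(2 / 3 * |t - M|)) + Real.exp (-(2 / 3 * |t - -M|)))) ≤ _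
    rw [e0, show 2 * (M - |t0|) = -(2 * |t0|) + 2 * M by ring, Real.exp_add]
    nlinarith [Real.exp_pos (-(2 * |t0|)), Real.exp_pos (2 * M),
      mul_pos (Real.exp_pos (-(2 * |t0|))) (Real.exp_pos (2 * M))]
  rcases le_total 1 (Real.exp (2 * (M - |t0|))) with h1 | h1
  · rw [min_eq_left h1, mul_one]
    exact b1
  · rw [min_eq_right h1]
    refine b2.trans ?_
    nlinarith [Real.exp_pos (2 * (M - |t0|))]

/-! ### the response -/

/-- **the response of an object**: fields `β b` of size `B (1 + M) h M`, kernels `K b` with the limits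
`± 2 c b` on the two sides of the object, `D` = statistic of the object with the limits
`± 2 ∑ b, c b ∫ β b` -/
theorem resp_le {β K : Bool → ℝ → ℂ} {c : Bool → ℂ} {D : ℂ} {M t0 B C c0 C' : ℝ} (hM0 : 0 ≤ M)
    (hB : 0 ≤ B) (hC : 0 ≤ C) (hc : ∀ b, ‖c b‖ ≤ c0)
    (hβ : ∀ b t, ‖β b t‖ ≤ B * (1 + M) * hM M t) (hβm : ∀ b, AEStronglyMeasurable (β b))
    (hKm : ∀ b, AEStronglyMeasurable (K b))
    (hK : ∀ b t, ‖K b t - 2 * c b * sg1 (t - t0)‖ ≤ C * Real.exp (-(2 * |t - t0|)))
    (hD : ‖D - sg1 t0 * (2 * ∑ b, c b * ∫ t, β b t)‖ ≤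
      C' * (1 + M) * min 1 (Real.exp (2 * (M - |t0|)))) :
    ‖(∑ b, ∫ t, β b t * K b t) + D‖ ≤
      (12 * B * (C + 4 * c0) * (1 + M) + C') * (1 + M) * min 1 (Real.exp (2 * (M - |t0|))) := by
  have hc0 : 0 ≤ c0 := (norm_nonneg _).trans (hc true)
  have hβi : ∀ b, Integrable (β b) := fun b =>
    ((integrable_hM M).const_mul (B * (1 + M))).mono' (hβm b) (Eventually.of_forall (hβ b))
  set L : Bool → ℝ → ℂ := fun b t => K b t + 2 * c b * sg1 t0 with hL
  have hLle : ∀ b t, ‖L b t‖ ≤ (C + 4 * c0) * mN t t0 := by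
    intro b t
    refine (ker_le hC (hK b t)).trans ?_
    exact mul_le_mul_of_nonneg_right (by linarith [hc b]) (mN_nonneg t t0)
  have hLm : ∀ b, AEStronglyMeasurable (L b) := fun b => (hKm b).add aestronglyMeasurable_const
  have hprod : ∀ b t, ‖β b t * L b t‖ ≤ B * (1 + M) * (C + 4 * c0) * (hM M t * mN t t0) := by
    intro b t
    rw [norm_mul]
    have := mul_le_mul (hβ b t) (hLle b t) (norm_nonneg _)
      (mul_nonneg (mul_nonneg hB (by linarith)) (hM_nonneg M t))
    refine this.trans (le_of_eq ?_)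
    ring
  have hLi : ∀ b, Integrable fun t => β b t * L b t := fun b =>
    ((integrable_hM_mN M t0).const_mul (B * (1 + M) * (C + 4 * c0))).mono' ((hβm b).mul (hLm b))
      (Eventually.of_forall (hprod b))
  have hint : ∀ b, ‖∫ t, β b t * L b t‖ ≤
      6 * B * (C + 4 * c0) * (1 + M) * (1 + M) * min 1 (Real.exp (2 * (M - |t0|))) := by
    intro b
    have h1 := norm_integral_le_of_norm_le
      ((integrable_hM_mN M t0).const_mul (B * (1 + M) * (C + 4 * c0)))
      (Eventually.of_forall (hprod b))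
    rw [integral_const_mul] at h1
    refine h1.trans ?_
    have h2 := int_le hM0 t0
    have h3 : 0 ≤ B * (1 + M) * (C + 4 * c0) := by positivity
    refine (mul_le_mul_of_nonneg_left h2 h3).trans (le_of_eq ?_)
    ring
  have e1 : ∀ b, ∫ t, β b t * K b t = (∫ t, β b t * L b t) - sg1 t0 * (2 * (c b * ∫ t, β b t)) := by
    intro b
    have e : ∀ t, β b t * K b t = β b t * L b t - (sg1 t0 * (2 * c b)) * β b t := by
      intro t
      simp only [hL]
      ring
    simp only [e]
    rw [integral_sub (hLi b) ((hβi b).const_mul _), integral_const_mul]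
    ring
  have e2 : (∑ b, ∫ t, β b t * K b t) + D = (∑ b, ∫ t, β b t * L b t) +
      (D - sg1 t0 * (2 * ∑ b, c b * ∫ t, β b t)) := by
    simp only [e1]
    rw [Finset.sum_sub_distrib, ← Finset.mul_sum, ← Finset.mul_sum]
    ring
  rw [e2]
  refine (norm_add_le _ _).trans ?_
  have h4 : ‖∑ b, ∫ t, β b t * L b t‖ ≤
      12 * B * (C + 4 * c0) * (1 + M) * (1 + M) * min 1 (Real.exp (2 * (M - |t0|))) := by
    rw [Fintype.sum_bool]
    refine (norm_add_le _ _).trans ?_
    have h5 := hint true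
    have h6 := hint false
    linarith
  refine (add_le_add h4 hD).trans (le_of_eq ?_)
  ring

end PBTs
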