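import Pool.Agent.PB.ObRes
import Pool.Agent.PB.TRsO

/-!
# Plan B: the response of an object to a field

* `kap B β = ∑ b, ∫ β b t (I kls b B (l + I t)) dt`: the response of the parts `B` to the field `β`;
* **`kap_lim`**: one object `x`, `‖β b t‖ ≤ M e^{-a|t|}`, `0 < a < 2`:
  `‖kap + 2 sgn (ht x) ∑ b, (chg b x - chg (!b) x) ∫ β b‖ ≤ M CK a e^{-a |ht x|}`;
* `kap_le`: `‖kap‖ ≤ (CO + 4) ∑ b, ∫ ‖β b‖`; `kap_sub`;
* configuration: `kapO P O i β`; `kP_dAt`, `kP_lI_le`: the force in the coordinate `u = l + I z`.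
-/

set_option autoImplicit false
set_option linter.unusedSectionVars false

noncomputable section

open Complex MeasureTheory Finset

namespace PBOR

open NUP1 NUO NUP1S NUP1S.Ab

/-- the response of the parts `B` to the field `β` on the real line -/
def kap (B : List Part) (β : Bool → ℝ → ℂ) : ℂ :=
  ∑ b, ∫ t : ℝ, β b t * (I * kls b B ((l : ℂ) + I * t))

theorem InQ_real (t : ℝ) : InQ ((l : ℂ) + I * t) := by
  have hl := Bd.l_pos
  refine InQ_lI ⟨?_, ?_⟩
  · rw [ofReal_im]; linarith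
  · rw [ofReal_im]; linarith

theorem lI_real_im (t : ℝ) : ((l : ℂ) + I * t).im = t := by simp

section one

variable {e ρ : ℝ} (he : 1 / 4 ≤ e) (he' : e ≤ 3 / 10) (hρ : 0 ≤ ρ) (hρ' : ρ ≤ l / 100)
include he he' hρ hρ'

theorem cont_kls (b : Bool) (x : Xo) :
    Continuous fun t : ℝ => kls b (parts (9 / 4) e ρ x) ((l : ℂ) + I * t) := by
  refine continuous_iff_continuousAt.2 fun t => ?_
  have h1 : ContinuousAt (kls b (parts (9 / 4) e ρ x)) ((l : ℂ) + I * t) :=
    (hasDerivAt_parts he he' hρ hρ' b x (InQ_real t)).continuousAt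
  exact ContinuousAt.comp (f := fun t : ℝ => (l : ℂ) + I * t) h1 (by fun_prop)

theorem kls_real_le (b : Bool) (x : Xo) (t : ℝ) :
    ‖I * kls b (parts (9 / 4) e ρ x) ((l : ℂ) + I * t)‖ ≤ CO + 4 := by
  rw [norm_mul, norm_I, one_mul]
  exact kls_le he he' hρ hρ' b x (InQ_real t)

theorem int_kls {β : ℝ → ℂ} (hβ : Integrable β) (b : Bool) (x : Xo) :
    Integrable fun t : ℝ => β t * (I * kls b (parts (9 / 4) e ρ x) ((l : ℂ) + I * t)) :=
  hβ.mul_bdd (c := CO + 4) ((cont_kls he he' hρ hρ' b x).const_mul I |>.aestronglyMeasurable)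
    (Filter.Eventually.of_forall fun t => kls_real_le he he' hρ hρ' b x t)

theorem kap_le {β : Bool → ℝ → ℂ} (hβ : ∀ b, Integrable (β b)) (x : Xo) :
    ‖kap (parts (9 / 4) e ρ x) β‖ ≤ (CO + 4) * ∑ b, ∫ t : ℝ, ‖β b t‖ := by
  unfold kap
  rw [Finset.mul_sum]
  refine (norm_sum_le _ _).trans (Finset.sum_le_sum fun b _ => ?_)
  rw [← integral_const_mul]
  refine norm_integral_le_of_norm_le ((hβ b).norm.const_mul _)
    (Filter.Eventually.of_forall fun t => ?_)
  rw [norm_mul, mul_comm]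
  exact mul_le_mul_of_nonneg_right (kls_real_le he he' hρ hρ' b x t) (norm_nonneg _)

theorem kap_sub {β γ : Bool → ℝ → ℂ} (hβ : ∀ b, Integrable (β b)) (hγ : ∀ b, Integrable (γ b))
    (x : Xo) : kap (parts (9 / 4) e ρ x) (fun b t => β b t - γ b t) =
      kap (parts (9 / 4) e ρ x) β - kap (parts (9 / 4) e ρ x) γ := by
  unfold kap
  rw [← Finset.sum_sub_distrib]
  refine Finset.sum_congr rfl fun b _ => ?_
  rw [← integral_sub (int_kls he he' hρ hρ' (hβ b) b x) (int_kls he he' hρ hρ' (hγ b) b x)]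
  refine integral_congr_ae (Filter.Eventually.of_forall fun t => ?_)
  simp only []
  ring

/-- the kernel against its limit on the side of the origin -/
theorem ker_o (b : Bool) (x : Xo) (t : ℝ) :
    ‖I * kls b (parts (9 / 4) e ρ x) ((l : ℂ) + I * t) +
      2 * ((chg b x : ℂ) - (chg (!b) x : ℂ)) * (sgn (ht x) : ℂ)‖ ≤
      CO * Real.exp (-(2 * |t - ht x|)) + if |ht x| ≤ |t| then 8 else 0 := by
  have h := kls_lim he he' hρ hρ' b x (InQ_real t)
  rw [lI_real_im] at h
  have hd := chg_diff b x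
  have e1 : I * kls b (parts (9 / 4) e ρ x) ((l : ℂ) + I * t) +
      2 * ((chg b x : ℂ) - (chg (!b) x : ℂ)) * (sgn (ht x) : ℂ) =
      (I * kls b (parts (9 / 4) e ρ x) ((l : ℂ) + I * t) -
        2 * ((chg b x : ℂ) - (chg (!b) x : ℂ)) * (sgn (t - ht x) : ℂ)) +
      2 * ((chg b x : ℂ) - (chg (!b) x : ℂ)) * ((sgn (t - ht x) + sgn (ht x) : ℝ) : ℂ) := by
    push_cast
    ring
  rw [e1]
  refine (norm_add_le _ _).trans (add_le_add h ?_)
  split_ifs with hc
  · rw [norm_mul, norm_mul, Complex.norm_real, Real.norm_eq_abs]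
    have h1 : |sgn (t - ht x) + sgn (ht x)| ≤ 2 := by
      have := abs_add_le (sgn (t - ht x)) (sgn (ht x))
      rw [abs_sgn, abs_sgn] at this
      linarith
    have h2 : ‖(2 : ℂ)‖ = 2 := by simp
    rw [h2]
    nlinarith [norm_nonneg ((chg b x : ℂ) - (chg (!b) x : ℂ)), abs_nonneg (sgn (t - ht x) + sgn (ht x))]
  · rw [not_le] at hc
    have h0 : sgn (t - ht x) + sgn (ht x) = 0 := by
      unfold sgn
      rcases le_or_gt 0 (ht x) with h3 | h3
      · rw [abs_of_nonneg h3] at hc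
        have := le_abs_self t
        rw [if_neg (by linarith), if_pos h3]
        ring
      · rw [abs_of_neg h3] at hc
        have := neg_abs_le t
        rw [if_pos (by linarith), if_neg (by linarith)]
        ring
    rw [h0]
    simp

/-- constant of the response -/
def CK (a : ℝ) : ℝ := 2 * (CO * (2 / (2 - a)) + 32 / a)

omit he he' hρ hρ' in
theorem CK_nonneg {a : ℝ} (ha : 0 < a) (ha2 : a < 2) : 0 ≤ CK a := by
  have := CO_pos
  have : 0 < 2 - a := by linarith
  unfold CK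
  positivity

omit he he' hρ hρ' in
theorem exp_far {a t x : ℝ} (ha : 0 < a) (h : |x| ≤ |t|) : Real.exp (-(a * |t|)) ≤
    Real.exp (-(a * |x|)) * (Real.exp (-(a * |t - x|)) + Real.exp (-(a * |t - -x|))) := by
  rw [mul_add, ← Real.exp_add, ← Real.exp_add]
  have h1 : |t| = |x| + |t - x| ∨ |t| = |x| + |t - -x| := by
    rcases abs_cases t with ⟨h2, h3⟩ | ⟨h2, h3⟩ <;> rcases abs_cases x with ⟨h4, h5⟩ | ⟨h4, h5⟩
    · left; rw [h2, h4, abs_of_nonneg (by linarith)]; ring
    · right; rw [h2, h4, abs_of_nonneg (by linarith)]; ring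
    · right; rw [h2, h4, abs_of_nonpos (by linarith)]; ring
    · left; rw [h2, h4, abs_of_nonpos (by linarith)]; ring
  have p1 := Real.exp_pos (-(a * |x|) + -(a * |t - x|))
  have p2 := Real.exp_pos (-(a * |x|) + -(a * |t - -x|))
  rcases h1 with h1 | h1
  · have e : -(a * |t|) = -(a * |x|) + -(a * |t - x|) := by rw [h1]; ring
    rw [e]
    linarith
  · have e : -(a * |t|) = -(a * |x|) + -(a * |t - -x|) := by rw [h1]; ring
    rw [e]
    linarith

/-- **the response of an object** -/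
theorem kap_lim {a M : ℝ} (ha : 0 < a) (ha2 : a < 2) (hM : 0 ≤ M) {β : Bool → ℝ → ℂ}
    (hm : ∀ b, AEStronglyMeasurable (β b)) (hβ : ∀ b t, ‖β b t‖ ≤ M * Real.exp (-(a * |t|)))
    (x : Xo) :
    ‖kap (parts (9 / 4) e ρ x) β +
      2 * (sgn (ht x) : ℂ) * ∑ b, ((chg b x : ℂ) - (chg (!b) x : ℂ)) * ∫ t : ℝ, β b t‖ ≤
      M * CK a * Real.exp (-(a * |ht x|)) := by
  have hCO := CO_pos
  have hi : ∀ b, Integrable (β b) := fun b =>
    ((PBTs.int_ea ha).1.const_mul M).mono' (hm b) (Filter.Eventually.of_forall (hβ b))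
  have e1 : kap (parts (9 / 4) e ρ x) β +
      2 * (sgn (ht x) : ℂ) * ∑ b, ((chg b x : ℂ) - (chg (!b) x : ℂ)) * ∫ t : ℝ, β b t =
      ∑ b, ∫ t : ℝ, β b t * (I * kls b (parts (9 / 4) e ρ x) ((l : ℂ) + I * t) +
        2 * ((chg b x : ℂ) - (chg (!b) x : ℂ)) * (sgn (ht x) : ℂ)) := by
    unfold kap
    rw [Finset.mul_sum, ← Finset.sum_add_distrib]
    refine Finset.sum_congr rfl fun b _ => ?_
    have e2 : (fun t : ℝ => β b t * (I * kls b (parts (9 / 4) e ρ x) ((l : ℂ) + I * t) +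
        2 * ((chg b x : ℂ) - (chg (!b) x : ℂ)) * (sgn (ht x) : ℂ))) = fun t : ℝ =>
        β b t * (I * kls b (parts (9 / 4) e ρ x) ((l : ℂ) + I * t)) +
        β b t * (2 * ((chg b x : ℂ) - (chg (!b) x : ℂ)) * (sgn (ht x) : ℂ)) := by
      funext t
      ring
    rw [e2, integral_add (int_kls he he' hρ hρ' (hi b) b x) ((hi b).mul_const _),
      integral_mul_const]
    ring
  rw [e1]
  set E := Real.exp (-(a * |ht x|)) with hE
  have hE0 : 0 < E := Real.exp_pos _
  have key : ∀ b, ‖∫ t : ℝ, β b t * (I * kls b (parts (9 / 4) e ρ x) ((l : ℂ) + I * t) +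
        2 * ((chg b x : ℂ) - (chg (!b) x : ℂ)) * (sgn (ht x) : ℂ))‖ ≤
      M * E * (CO * (2 / (2 - a)) + 32 / a) := by
    intro b
    have i1 := PBTs.int_ea_sh (a := 2 - a) (by linarith) (ht x)
    have i2 := PBTs.int_ea_sh ha (ht x)
    have i3 := PBTs.int_ea_sh ha (-ht x)
    have hb : ∀ t : ℝ, ‖β b t * (I * kls b (parts (9 / 4) e ρ x) ((l : ℂ) + I * t) +
        2 * ((chg b x : ℂ) - (chg (!b) x : ℂ)) * (sgn (ht x) : ℂ))‖ ≤
        M * E * (CO * Real.exp (-((2 - a) * |t - ht x|)) +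
          8 * (Real.exp (-(a * |t - ht x|)) + Real.exp (-(a * |t - -ht x|)))) := by
      intro t
      rw [norm_mul]
      have h1 := hβ b t
      have h2 := ker_o he he' hρ hρ' b x t
      have h0 : 0 ≤ CO * Real.exp (-(2 * |t - ht x|)) + if |ht x| ≤ |t| then (8 : ℝ) else 0 := by
        split_ifs <;> positivity
      refine (mul_le_mul h1 h2 (norm_nonneg _) (by positivity)).trans ?_
      have h3 : Real.exp (-(a * |t|)) * Real.exp (-(2 * |t - ht x|)) ≤
          E * Real.exp (-((2 - a) * |t - ht x|)) := by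
        rw [hE, ← Real.exp_add, ← Real.exp_add, Real.exp_le_exp]
        have := abs_sub_abs_le_abs_sub (ht x) t
        rw [abs_sub_comm] at this
        nlinarith
      have h4 : Real.exp (-(a * |t|)) * (if |ht x| ≤ |t| then (8 : ℝ) else 0) ≤
          E * (8 * (Real.exp (-(a * |t - ht x|)) + Real.exp (-(a * |t - -ht x|)))) := by
        split_ifs with hc
        · have := exp_far ha hc
          rw [← hE] at this
          linarith
        · rw [mul_zero]
          positivity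
      calc _ = M * (CO * (Real.exp (-(a * |t|)) * Real.exp (-(2 * |t - ht x|))) +
            Real.exp (-(a * |t|)) * (if |ht x| ≤ |t| then (8 : ℝ) else 0)) := by ring
        _ ≤ M * (CO * (E * Real.exp (-((2 - a) * |t - ht x|))) +
            E * (8 * (Real.exp (-(a * |t - ht x|)) + Real.exp (-(a * |t - -ht x|))))) := by
            gcongr
        _ = _ := by ring
    have hI : Integrable fun t : ℝ => M * E * (CO * Real.exp (-((2 - a) * |t - ht x|)) +
          8 * (Real.exp (-(a * |t - ht x|)) + Real.exp (-(a * |t - -ht x|)))) :=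
      ((i1.1.const_mul CO).add ((i2.1.add i3.1).const_mul 8)).const_mul _
    refine (norm_integral_le_of_norm_le hI (Filter.Eventually.of_forall hb)).trans (le_of_eq ?_)
    have i4 : Integrable fun t : ℝ => 8 * (Real.exp (-(a * |t - ht x|)) +
        Real.exp (-(a * |t - -ht x|))) := (i2.1.add i3.1).const_mul 8
    rw [integral_const_mul, integral_add (i1.1.const_mul CO) i4,
      integral_const_mul, integral_const_mul, integral_add i2.1 i3.1, i1.2, i2.2, i3.2]
    ring
  refine (norm_sum_le _ _).trans ((Finset.sum_le_sum fun b _ => key b).trans (le_of_eq ?_))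
  rw [Finset.sum_const, Finset.card_univ, Fintype.card_bool, nsmul_eq_mul]
  unfold CK
  push_cast
  ring

end one

/-! ### the objects of a configuration -/

variable {r : ℕ}

/-- the response of the object `i` -/
def kapO (P : Par) (O : Fin r → Xo) (i : Fin r) (β : Bool → ℝ → ℂ) : ℂ := kap (cons P O i) β

theorem kapO_eq (P : Par) (O : Fin r → Xo) (i : Fin r) (β : Bool → ℝ → ℂ) :
    kapO P O i β = ∑ b, ∫ t : ℝ, β b t * (I * kO P O i b ((l : ℂ) + I * t)) := rfl

theorem kapO_le {P : Par} {O : Fin r → Xo} (h : PO P O) {β : Bool → ℝ → ℂ}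
    (hβ : ∀ b, Integrable (β b)) (i : Fin r) :
    ‖kapO P O i β‖ ≤ (CO + 4) * ∑ b, ∫ t : ℝ, ‖β b t‖ := by
  unfold kapO
  rw [cons_eq h]
  exact kap_le (h.e1 i) (h.e2 i) (h.r1 i) (h.r2 i) hβ (O i)

theorem kapO_sub {P : Par} {O : Fin r → Xo} (h : PO P O) {β γ : Bool → ℝ → ℂ}
    (hβ : ∀ b, Integrable (β b)) (hγ : ∀ b, Integrable (γ b)) (i : Fin r) :
    kapO P O i (fun b t => β b t - γ b t) = kapO P O i β - kapO P O i γ := by
  unfold kapO
  rw [cons_eq h]
  exact kap_sub (h.e1 i) (h.e2 i) (h.r1 i) (h.r2 i) hβ hγ (O i)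

theorem kapO_lim {P : Par} {O : Fin r → Xo} (h : PO P O) {a M : ℝ} (ha : 0 < a) (ha2 : a < 2)
    (hM : 0 ≤ M) {β : Bool → ℝ → ℂ} (hm : ∀ b, AEStronglyMeasurable (β b))
    (hβ : ∀ b t, ‖β b t‖ ≤ M * Real.exp (-(a * |t|))) (i : Fin r) :
    ‖kapO P O i β + 2 * (sgn (ht (O i)) : ℂ) *
      ∑ b, ((chg b (O i) : ℂ) - (chg (!b) (O i) : ℂ)) * ∫ t : ℝ, β b t‖ ≤
      M * CK a * Real.exp (-(a * |ht (O i)|)) := by
  unfold kapO
  rw [cons_eq h]
  exact kap_lim (h.e1 i) (h.e2 i) (h.r1 i) (h.r2 i) ha ha2 hM hm hβ (O i)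

/-- the mean of the force of the objects against a field -/
theorem sum_kapO {P : Par} {O : Fin r → Xo} (h : PO P O) {β : Bool → ℝ → ℂ}
    (hβ : ∀ b, Integrable (β b)) :
    ∑ b, ∫ t : ℝ, β b t * (I * kP P O b ((l : ℂ) + I * t)) = ∑ i, kapO P O i β := by
  simp only [kapO_eq]
  rw [Finset.sum_comm]
  refine Finset.sum_congr rfl fun b _ => ?_
  rw [← integral_finsetSum]
  · refine integral_congr_ae (Filter.Eventually.of_forall fun t => ?_)
    simp only [kP]
    rw [Finset.mul_sum, Finset.mul_sum]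
  · intro i _
    have := int_kls (h.e1 i) (h.e2 i) (h.r1 i) (h.r2 i) (hβ b) b (O i)
    rw [← cons_eq h i] at this
    exact this

/-- the force in the coordinate `u = l + I z` -/
theorem kP_dAt {P : Par} {O : Fin r → Xo} (h : PO P O) (s : Bool) {z : ℂ}
    (hz : |z.im| ≤ l / 5) : DifferentiableAt ℂ (fun z => kP P O s ((l : ℂ) + I * z)) z := by
  have hl := Bd.l_pos
  have hz' : InQ ((l : ℂ) + I * z) := by
    obtain ⟨h1, h2⟩ := abs_le.1 hz
    exact InQ_lI ⟨by linarith, by linarith⟩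
  have h0 : HasDerivAt (fun w : ℂ => (l : ℂ) + I * w) I z := by
    simpa using ((hasDerivAt_id z).const_mul I).const_add (l : ℂ)
  exact ((hasDerivAt_kP h s hz').comp z h0).differentiableAt

theorem kP_lI_le {P : Par} {O : Fin r → Xo} (h : PO P O) (s : Bool) {z : ℂ}
    (hz : |z.im| ≤ l / 5) : ‖kP P O s ((l : ℂ) + I * z)‖ ≤ r * (CO + 4) := by
  have hl := Bd.l_pos
  obtain ⟨h1, h2⟩ := abs_le.1 hz
  exact kP_le h s (InQ_lI ⟨by linarith, by linarith⟩)

end PBOR

end
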