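import Pool.Agent.PB.QRep
import Pool.Agent.PB.UBN
import Pool.Agent.PB.RepM
import Pool.Agent.PB.TRsM
import Pool.Agent.PB.ParZ

/-!
# The quadratic statistic of a field under the functionals with moduli (helper55)

* `MIs_Vst`: the linear statistics are jointly measurable in a parameter of the test function;
* `enorm_Qst_le`: `|Qst X| ≤ |V (-2 ε X)| |V (ε tgh)| + ∫ |V (QA q)| |V (QB q)|`;
* `UB.quad`: `∫ |w| |Qst X| ≤ C S (1 + L) m^ε bd` for every field `XBd b1 S L X`.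
-/

set_option autoImplicit false
set_option linter.unusedSectionVars false

noncomputable section

open Complex MeasureTheory Finset
open scoped ENNReal

namespace PBU

open NUO NUP1 NUP1S NUP1S.Ab NUP1S.AbC NUGC PBFunc PBF PBP

/-- the linear statistics with a parameter -/
theorem MIs_Vst {T : Type*} [MeasurableSpace T] {η η' : Crs} (hc : MCr η η') {ρ : ℂ → ℂ}
    (hρ : Measurable fun u : ℝ => ρ u) {g : T → Bool → ℂ → ℂ}
    (hg : ∀ b, Measurable fun p : T × ℂ => g p.1 b p.2) :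
    MIs fun (t : T) r O a b x => Vst η ρ (g t) r O a b x := by
  intro r a b
  unfold Vst PB.NX.nuL
  refine Measurable.sub (Finset.measurable_sum _ fun k _ => ?_) (Finset.measurable_sum _ fun s _ => ?_)
  · exact (hg (spQ a b k)).comp (measurable_fst.prodMk ((meas_zq hc r k).comp measurable_snd))
  · have h1 : Measurable fun p : T × ℝ => PB.rS ρ s p.2 * g p.1 s (PB.eR p.2) := by
      unfold PB.rS PB.eR
      exact (hρ.comp measurable_snd).mul ((hg s).comp (measurable_fst.prodMk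
        (Complex.measurable_ofReal.comp measurable_snd)))
    have h2 := (h1.stronglyMeasurable.integral_prod_right' (ν := (volume : Measure ℝ))).measurable
    exact h2.comp measurable_fst

theorem MIn_Vst {η η' : Crs} (hc : MCr η η') {ρ : ℂ → ℂ}
    (hρ : Measurable fun u : ℝ => ρ u) {g : Bool → ℂ → ℂ} (hg : ∀ b, Measurable (g b)) :
    MIn (Vst η ρ g) :=
  (MIs_Vst (T := Unit) (g := fun _ => g) hc hρ (fun b => (hg b).comp measurable_snd)).at ()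

/-- **the quadratic statistic pointwise** -/
theorem enorm_Qst_le {η : Crs} {y0 y1 b1 S L : ℝ} (h : PB.YOk y0 y1 b1) (hS : 0 ≤ S) (hL : 0 ≤ L)
    {X : Bool → ℂ → ℂ} (hX : PB.XBd b1 S L X) {ρ : ℂ → ℂ} (hρ : Integrable fun u : ℝ => ρ u)
    (hρm : Measurable fun u : ℝ => ρ u) (hη : ∀ r O t, |η r O t| ≤ y0) (r : ℕ) (O : Fin r → Xo)
    (a b : ℕ) (x : (Fin a → ℝ) × (Fin b → ℝ)) :
    ‖Qst η ρ X r O a b x‖ₑ ≤ ‖Vst η ρ (PB.fX X) r O a b x‖ₑ * ‖Vst η ρ PB.gT2 r O a b x‖ₑ +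
      ∫⁻ q, ‖Vst η ρ (PB.QA X y1 q) r O a b x‖ₑ * ‖Vst η ρ (PB.QB y1 q) r O a b x‖ₑ ∂PB.qm := by
  unfold Qst Vst
  exact PB.enorm_nuQ_field h hS hL hX hρ hρm (spQ a b) (z := zq η r O x) (fun k => by
    unfold zq
    rw [zc_im]
    exact hη r O _)

variable [NUSea.Sea]

/-- the fixed curve is measurable -/
theorem mcr_cr' (e1 J : ℝ) (m : ℕ) : MCr (cr e1 J m) (cr' e1 J m) where
  m r := PBF.curZ_meas e1 J m m r
  m' r := PBF.curZ_meas' e1 J m m r

variable {ι : Type} {F : Fam ι} {ep e1 J : ℝ} {m : ℕ} {i : ι} {p : ℕ} {K ε : ℝ}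

theorem L1_enorm {Ω : Type*} [MeasurableSpace Ω] {μ : Measure Ω} {w A : Ω → ℂ} {a : ℝ}
    (h : L1 μ w A a) : ∫⁻ x, ‖w x‖ₑ * ‖A x‖ₑ ∂μ ≤ ENNReal.ofReal a := by
  refine le_trans (le_of_eq ?_) h
  refine lintegral_congr fun x => ?_
  rw [ENNReal.ofReal_mul (norm_nonneg _), ofReal_norm, ofReal_norm]

/-- products of two statistics -/
theorem UB.two (h : UB F ep e1 J p K ε) (hp : 2 ≤ p) (hK : 1 ≤ K) (C0 y₁ y₂ : ℝ) (h1 : y₁ < 0)
    (h2 : 0 < y₂) :
    ∃ m0 : ℕ, ∀ m ≥ m0, ∀ i : ι, F.ok m i →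
    MC (F.Z ep m i) (NUSea.O.par0 m) (cr e1 J m) (cr' e1 J m) →
    ∀ ρ : ℂ → ℂ, DN C0 m (fun t : ℝ => ρ t) → Measurable (fun u : ℝ => ρ u) →
    ∀ (M M' : ℝ), 0 < M → 0 < M' → ∀ g g' : Bool → ℂ → ℂ, (∀ b, Measurable (g b)) →
    (∀ b, Measurable (g' b)) → (∀ s, BC y₁ y₂ M (g s)) → (∀ s, BC y₁ y₂ M' (g' s)) →
      ∫⁻ x, ‖wF F ep e1 J m i x‖ₑ * (‖evN (fun _ => Vst (cr e1 J m) ρ g) x‖ₑ *
        ‖evN (fun _ => Vst (cr e1 J m) ρ g') x‖ₑ) ∂(mN (F.top m)) ≤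
      ENNReal.ofReal (M * M' * ((m : ℝ) ^ ε * F.bd m i)) := by
  obtain ⟨m0, h0⟩ := UB.l1 h C0 y₁ y₂ h1 h2
  refine ⟨m0, fun m hm i hi hMC ρ hρ hρm M M' hM hM' g g' mg mg' hg hg' => ?_⟩
  have h3 := h0 m hm i hi hMC ρ hρ 2 hp ![M, M'] (by
      intro j
      fin_cases j
      · exact hM
      · exact hM')
    (fun _ _ j => (![g, g'] : Fin 2 → Bool → ℂ → ℂ) j) (by
      intro r O j s
      fin_cases j
      · exact hg s
      · exact hg' s)
    1 zero_le_one (fun _ _ => 1) (OW.one hK m)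
    (fun _ r O a b x => Vst (cr e1 J m) ρ g r O a b x * Vst (cr e1 J m) ρ g' r O a b x)
    (fun n _ => by
      have a1 := MIn_Vst (mcr_cr' e1 J m) hρm mg
      have a2 := MIn_Vst (mcr_cr' e1 J m) hρm mg'
      exact fun r a b => (a1 r a b).mul (a2 r a b))
    (fun n _ r O a b x => by
      rw [one_mul, Fin.prod_univ_two, norm_mul, Vst_eq, Vst_eq]
      exact le_rfl)
  have h4 := L1_enorm h3
  rw [Fin.prod_univ_two, one_mul] at h4
  refine le_trans (le_of_eq ?_) h4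
  refine lintegral_congr fun x => ?_
  rw [← enorm_mul]
  rfl

theorem BC_fX {y0 y1 b1 S L : ℝ} (h : PB.YOk y0 y1 b1) (hS : 0 ≤ S) {X : Bool → ℂ → ℂ}
    (hX : PB.XBd b1 S L X) (b : Bool) : BC (-y0) y0 (2 * S) (PB.fX X b) where
  an z hz := by
    have h1 : |z.im| < b1 := (abs_lt.2 ⟨hz.1, hz.2⟩).trans (h.h01.trans h.h1)
    unfold PB.fX
    exact ((hX.d b z h1).const_mul _).differentiableWithinAt
  bd z hz := by
    have h1 : |z.im| < b1 := (abs_lt.2 ⟨hz.1, hz.2⟩).trans (h.h01.trans h.h1)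
    have h2 := hX.bd b z h1
    have h3 := mul_le_of_le_one_right hS (PB.WL_le_one L z.re)
    unfold PB.fX
    rw [norm_mul, norm_mul, norm_neg, PB.norm_eps]
    have h4 : ‖(2 : ℂ)‖ = 2 := by simp
    rw [h4]
    linarith

theorem BC_gT2 {y0 : ℝ} (h : y0 ≤ NUMF.l) (b : Bool) :
    BC (-y0) y0 (1 + 2 / NUMF.r) (PB.gT2 b) where
  an z hz := by
    have h1 : |z.im| ≤ NUMF.l := (abs_lt.2 ⟨hz.1, hz.2⟩).le.trans h
    unfold PB.gT2
    exact ((PBV.tgh_diff h1).const_mul _).differentiableWithinAt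
  bd z hz := by
    have h1 : |z.im| ≤ NUMF.l := (abs_lt.2 ⟨hz.1, hz.2⟩).le.trans h
    unfold PB.gT2
    rw [norm_mul, PB.norm_eps, one_mul]
    exact PB.norm_tgh_le h1

/-- **the quadratic term** -/
theorem UB.quad (h : UB F ep e1 J p K ε) (hp : 2 ≤ p) (hK : 1 ≤ K) (C0 : ℝ) {y0 y1 b1 : ℝ}
    (hY : PB.YOk y0 y1 b1) (hy0 : 0 < y0) :
    ∃ C : ℝ, 0 < C ∧ ∃ m0 : ℕ, ∀ m ≥ m0, ∀ i : ι, F.ok m i →
    MC (F.Z ep m i) (NUSea.O.par0 m) (cr e1 J m) (cr' e1 J m) →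
    (∀ t, |etaC e1 J m m t| ≤ y0) → 0 ≤ F.bd m i →
    ∀ ρ : ℂ → ℂ, DN C0 m (fun t : ℝ => ρ t) → Measurable (fun u : ℝ => ρ u) →
    ∀ (S L : ℝ) (X : Bool → ℂ → ℂ), 0 < S → 0 ≤ L → PB.XBd b1 S L X →
      ∫⁻ x, ‖wF F ep e1 J m i x‖ₑ * ‖evN (fun _ => Qst (cr e1 J m) ρ X) x‖ₑ ∂(mN (F.top m)) ≤
      ENNReal.ofReal (C * S * (1 + L) * ((m : ℝ) ^ ε * F.bd m i)) := by
  obtain ⟨C1, hC1, hA⟩ := PB.QA_le hY
  obtain ⟨m0, h0⟩ := UB.two h hp hK C0 (-y0) y0 (by linarith) hy0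
  have hr := NUMF.r_pos
  set cB := PBV.cE 1 (y1 - y0) with hcB
  have hθ : 0 < y1 - y0 := by linarith [hY.h01]
  have hcB0 : 0 < cB := by
    refine PBV.cE_pos one_pos hθ ?_
    have := hY.pi
    have := hY.h0
    linarith
  set g1 := 1 + 2 / NUMF.r with hg1
  have hg10 : 0 < g1 := by positivity
  refine ⟨2 * g1 + 32 * (C1 + 1) * cB, by positivity, m0,
    fun m hm i hi hMC hη hbd ρ hρ hρm S L X hS hL hX => ?_⟩
  set T := (m : ℝ) ^ ε * F.bd m i with hT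
  have hT0 : 0 ≤ T := mul_nonneg (Real.rpow_nonneg (Nat.cast_nonneg m) _) hbd
  have hmc := mcr_cr' e1 J m
  have hl : y0 ≤ NUMF.l := by
    have h1 := hY.h01
    have h2 := hY.h1
    have h3 := hY.hl
    have h4 := hY.h0
    linarith
  have hXm := hX.m
  have mf : ∀ b, Measurable (PB.fX X b) := fun b => by
    unfold PB.fX
    exact (hXm b).const_mul _
  have mg : ∀ b, Measurable (PB.gT2 b) := fun b => by
    unfold PB.gT2
    exact PBV.tgh_measurable.const_mul _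
  have mw : Measurable (wF F ep e1 J m i) := wN_meas fun _ _ => hMC
  -- the superposition
  have mA : Measurable fun p : PB.QI4 × CfN (F.top m) =>
      evN (fun _ => Vst (cr e1 J m) ρ (PB.QA X y1 p.1)) p.2 :=
    evN_meas_s (Ψ := fun q _ => Vst (cr e1 J m) ρ (PB.QA X y1 q)) fun _ _ =>
      MIs_Vst hmc hρm fun b => PB.QA_measurable hXm y1 b
  have mB : Measurable fun p : PB.QI4 × CfN (F.top m) =>
      evN (fun _ => Vst (cr e1 J m) ρ (PB.QB y1 p.1)) p.2 :=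
    evN_meas_s (Ψ := fun q _ => Vst (cr e1 J m) ρ (PB.QB y1 q)) fun _ _ =>
      MIs_Vst hmc hρm fun b => PB.QB_measurable y1 b
  have key : ∀ x : CfN (F.top m), ‖evN (fun _ => Qst (cr e1 J m) ρ X) x‖ₑ ≤
      ‖evN (fun _ => Vst (cr e1 J m) ρ (PB.fX X)) x‖ₑ * ‖evN (fun _ => Vst (cr e1 J m) ρ PB.gT2) x‖ₑ +
      ∫⁻ q, ‖evN (fun _ => Vst (cr e1 J m) ρ (PB.QA X y1 q)) x‖ₑ *
        ‖evN (fun _ => Vst (cr e1 J m) ρ (PB.QB y1 q)) x‖ₑ ∂PB.qm := fun x =>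
    enorm_Qst_le hY hS.le hL hX hρ.1 hρm (fun _ _ t => hη t) _ _ _ _ _
  have t1 := h0 m hm i hi hMC ρ hρ hρm (2 * S) g1 (by positivity) hg10 (PB.fX X) PB.gT2 mf mg
    (fun s => BC_fX hY hS.le hX s) (fun s => BC_gT2 hl s)
  have t2 : ∀ q : PB.QI4, ∫⁻ x, ‖wF F ep e1 J m i x‖ₑ *
      (‖evN (fun _ => Vst (cr e1 J m) ρ (PB.QA X y1 q)) x‖ₑ *
        ‖evN (fun _ => Vst (cr e1 J m) ρ (PB.QB y1 q)) x‖ₑ) ∂(mN (F.top m)) ≤
      ENNReal.ofReal ((C1 + 1) * S * cB * T) * ENNReal.ofReal (PB.WL L q.2.2) := by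
    intro q
    have hW := PB.WL_pos L q.2.2
    have mQA : ∀ b, Measurable (PB.QA X y1 q b) := fun b =>
      (PB.QA_measurable hXm y1 b).comp (measurable_const.prodMk measurable_id)
    have mQB : ∀ b, Measurable (PB.QB y1 q b) := fun b =>
      (PB.QB_measurable y1 b).comp (measurable_const.prodMk measurable_id)
    refine (h0 m hm i hi hMC ρ hρ hρm ((C1 + 1) * S * PB.WL L q.2.2) cB (by positivity) hcB0
      (PB.QA X y1 q) (PB.QB y1 q) mQA mQB (fun s => ?_) (fun s => ?_)).trans (le_of_eq ?_)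
    · refine ⟨fun z hz => ?_, fun z hz => ?_⟩
      · have h1 : |z.im| < b1 := (abs_lt.2 ⟨hz.1, hz.2⟩).trans (hY.h01.trans hY.h1)
        exact (PB.QA_diff hY hS.le hX q s h1).differentiableWithinAt
      · have h1 : |z.im| ≤ y1 := (abs_lt.2 ⟨hz.1, hz.2⟩).le.trans hY.h01.le
        refine (hA S L X hS.le hX q s z h1).trans ?_
        unfold PB.qa
        have : C1 ≤ C1 + 1 := by linarith
        gcongr
    · refine ⟨(PB.QB_diff hY q s).mono fun z hz => ?_, fun z hz => ?_⟩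
      · exact ⟨by linarith [hz.1, hY.h01], by linarith [hz.2, hY.h01]⟩
      · exact PB.QB_le hY q s (abs_lt.2 ⟨hz.1, hz.2⟩).le
    · rw [← ENNReal.ofReal_mul (by positivity)]
      congr 1
      ring
  have hWi := PB.WL_int hL
  have t0 : ∫⁻ s : ℝ, ENNReal.ofReal (PB.WL L s) = ENNReal.ofReal (2 * L + 4) := by
    rw [← ofReal_integral_eq_lintegral_ofReal hWi.1
        (Filter.Eventually.of_forall fun x => (PB.WL_pos L x).le), hWi.2]
  have t3 : ∫⁻ q : PB.QI4, ENNReal.ofReal (PB.WL L q.2.2) ∂PB.qm =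
      8 * ENNReal.ofReal (2 * L + 4) := by
    rw [PB.lintegral_qm]
    have e1 : ∫⁻ q : Bool × ℝ, ENNReal.ofReal (PB.WL L q.2) ∂PBV.wm =
        2 * ENNReal.ofReal (2 * L + 4) := by
      rw [PB.lintegral_wm, t0]
      exact (two_mul _).symm
    simp only [e1]
    rw [Finset.sum_const, Finset.card_univ, Fintype.card_prod, Fintype.card_bool, nsmul_eq_mul,
      ← mul_assoc]
    norm_num
  calc ∫⁻ x, ‖wF F ep e1 J m i x‖ₑ * ‖evN (fun _ => Qst (cr e1 J m) ρ X) x‖ₑ ∂(mN (F.top m))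
      ≤ ∫⁻ x, (‖wF F ep e1 J m i x‖ₑ * (‖evN (fun _ => Vst (cr e1 J m) ρ (PB.fX X)) x‖ₑ *
          ‖evN (fun _ => Vst (cr e1 J m) ρ PB.gT2) x‖ₑ) +
        ∫⁻ q, ‖wF F ep e1 J m i x‖ₑ * (‖evN (fun _ => Vst (cr e1 J m) ρ (PB.QA X y1 q)) x‖ₑ *
        ‖evN (fun _ => Vst (cr e1 J m) ρ (PB.QB y1 q)) x‖ₑ) ∂PB.qm) ∂(mN (F.top m)) := by
        refine lintegral_mono fun x => ?_
        rw [lintegral_const_mul']
        · rw [← mul_add]
          exact mul_le_mul' le_rfl (key x)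
        · exact enorm_ne_top
    _ = ∫⁻ x, ‖wF F ep e1 J m i x‖ₑ * (‖evN (fun _ => Vst (cr e1 J m) ρ (PB.fX X)) x‖ₑ *
          ‖evN (fun _ => Vst (cr e1 J m) ρ PB.gT2) x‖ₑ) ∂(mN (F.top m)) +
        ∫⁻ x, ∫⁻ q, ‖wF F ep e1 J m i x‖ₑ *
          (‖evN (fun _ => Vst (cr e1 J m) ρ (PB.QA X y1 q)) x‖ₑ *
          ‖evN (fun _ => Vst (cr e1 J m) ρ (PB.QB y1 q)) x‖ₑ) ∂PB.qm ∂(mN (F.top m)) := by
        refine lintegral_add_left (mw.enorm.mul ?_) _
        exact (evN_meas fun _ _ => MIn_Vst hmc hρm mf).enorm.mul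
          (evN_meas fun _ _ => MIn_Vst hmc hρm mg).enorm
    _ ≤ ENNReal.ofReal (2 * S * g1 * T) + ENNReal.ofReal ((C1 + 1) * S * cB * T) *
          (8 * ENNReal.ofReal (2 * L + 4)) := by
        refine add_le_add t1 ?_
        rw [lintegral_lintegral_swap]
        · calc ∫⁻ q, ∫⁻ x, ‖wF F ep e1 J m i x‖ₑ *
                (‖evN (fun _ => Vst (cr e1 J m) ρ (PB.QA X y1 q)) x‖ₑ *
                ‖evN (fun _ => Vst (cr e1 J m) ρ (PB.QB y1 q)) x‖ₑ) ∂(mN (F.top m)) ∂PB.qm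
              ≤ ∫⁻ q, ENNReal.ofReal ((C1 + 1) * S * cB * T) * ENNReal.ofReal (PB.WL L q.2.2) ∂PB.qm :=
                lintegral_mono t2
            _ = _ := by
                rw [lintegral_const_mul' _ _ ENNReal.ofReal_ne_top, t3]
        · refine Measurable.aemeasurable ?_
          have mA' := (mA.comp (measurable_snd.prodMk measurable_fst :
            Measurable fun p : CfN (F.top m) × PB.QI4 => (p.2, p.1))).enorm
          have mB' := (mB.comp (measurable_snd.prodMk measurable_fst :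
            Measurable fun p : CfN (F.top m) × PB.QI4 => (p.2, p.1))).enorm
          exact (mw.comp measurable_fst).enorm.mul (mA'.mul mB')
    _ ≤ ENNReal.ofReal ((2 * g1 + 32 * (C1 + 1) * cB) * S * (1 + L) * T) := by
        have e8 : (8 : ℝ≥0∞) = ENNReal.ofReal 8 := by norm_num
        rw [e8, ← ENNReal.ofReal_mul (by norm_num), ← ENNReal.ofReal_mul (by positivity),
          ← ENNReal.ofReal_add (by positivity) (by positivity)]
        refine ENNReal.ofReal_le_ofReal ?_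
        have h1 : 0 ≤ 2 * g1 * S * T * L := by positivity
        have h2 : 0 ≤ (C1 + 1) * S * cB * T * L := by positivity
        nlinarith

end PBU

end
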