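import Pool.Agent.PB.TRsD2
import Pool.Agent.PB.TRsQ

/-!
# Plan B, (TR), s-path: the data of the path for `D = DT w w'`

`M ≥ |Im w|, |Im w'|`; one constant `C`:
* `DT_le`: `‖DT w w' b k u‖ ≤ C (1 + M)` on the windows; `obT_le`: the same for an object;
* **`DT_DOk`**: `DOk (DT w w') (DelB' w w' (zz w w')) δ (C (1 + M))`, `δ ≤ 1/5`; `DT_DLn`;
* **`DT_PathD`**: `PathD` with the bound `C (1 + M)` for measurable one body functions, parameters
  `ParC`, measurable curves `|η| ≤ l / 5`.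
-/

set_option autoImplicit false
set_option linter.unusedSectionVars false
set_option linter.unusedVariables false

noncomputable section

open Complex MeasureTheory Finset
open scoped ENNReal

namespace PBTs

open NUO NUP1 NUCR NUP1S NUP1S.Ab NUP1S.AbC NUGC PBF
open PBT3 (zz)
open PBTD (DelQ DelB DelQ' DelB' sb KA ct)

/-! ### bounds -/

theorem norm_dch (x : Xo) : ‖dch x‖ ≤ 2 := by
  unfold dch chg
  rcases hk : kd x with _ | _ | _ | _ | _ <;> simp only [] <;> cases sp x <;> norm_num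

/-- modulus of an object -/
theorem obT_le : ∃ C : ℝ, 0 ≤ C ∧ ∀ (w w' : ℂ) (M : ℝ), w.re = 5 / 4 * NUP1.l →
    w'.re = 5 / 4 * NUP1.l → |w.im| ≤ M → |w'.im| ≤ M → ∀ (jL e ρ : ℝ) (x : Xo), OPar jL e ρ →
      ‖obT (DT w w') jL e ρ x‖ ≤ C * (1 + M) := by
  obtain ⟨C, hC, h⟩ := obT_lim
  refine ⟨C + 4, by positivity, ?_⟩
  intro w w' M hw hw' iw iw' jL e ρ x hO
  have hM : 0 ≤ M := (abs_nonneg _).trans iw
  have h1 := h w w' M hw hw' iw iw' jL e ρ x hO
  have h2 : C * (1 + M) * min 1 (Real.exp (2 * (M - |ht x|))) ≤ C * (1 + M) :=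
    mul_le_of_le_one_right (by positivity) (min_le_left _ _)
  have h3 : ‖(sg1 (ht x) : ℂ) * (dch x * (I * (w - w')))‖ ≤ 2 * (2 * M) := by
    rw [norm_mul, norm_mul, norm_sg1, one_mul]
    exact mul_le_mul (norm_dch x) (lim_le hw hw' iw iw') (norm_nonneg _) (by norm_num)
  have h4 := norm_sub_norm_le (obT (DT w w') jL e ρ x) ((sg1 (ht x) : ℂ) * (dch x * (I * (w - w'))))
  nlinarith

/-- all kinds, on the windows -/
theorem DT_le : ∃ C : ℝ, 0 ≤ C ∧ ∀ (w w' : ℂ) (M : ℝ), w.re = 5 / 4 * NUP1.l →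
    w'.re = 5 / 4 * NUP1.l → |w.im| ≤ M → |w'.im| ≤ M → ∀ (b : Bool) (k : Option O3) (u : ℂ), At k u →
      ‖DT w w' b k u‖ ≤ C * (1 + M) := by
  obtain ⟨C, hC, h⟩ := DT_lim
  refine ⟨C + 4, by positivity, ?_⟩
  intro w w' M hw hw' iw iw' b k u hu
  have hM : 0 ≤ M := (abs_nonneg _).trans iw
  have h1 := h w w' M hw hw' iw iw' b k u u.im hu (Or.inl rfl)
  have h2 : C * (1 + M) * min 1 (Real.exp (2 * (M - |u.im|))) ≤ C * (1 + M) :=
    mul_le_of_le_one_right (by positivity) (min_le_left _ _)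
  have hk : ‖((ch k : ℝ) : ℂ)‖ ≤ 2 := by
    rw [Complex.norm_real]
    rcases k with _ | k
    · simp [ch]
    · cases k <;> simp [ch]
  have h3 : ‖(sg1 u.im : ℂ) * (ch k * (sb b * (I * (w - w'))))‖ ≤ 2 * (2 * M) := by
    rw [norm_mul, norm_mul, norm_mul, norm_sg1, norm_sb, one_mul, one_mul]
    exact mul_le_mul hk (lim_le hw hw' iw iw') (norm_nonneg _) (by norm_num)
  have h4 := norm_sub_norm_le (DT w w' b k u) ((sg1 u.im : ℂ) * (ch k * (sb b * (I * (w - w')))))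
  nlinarith

/-! ### the quanta -/

theorem measurable_DelQ' (w w' z : ℂ) : Measurable (DelQ' w w' z) := by
  have h : Measurable ct := by
    unfold PBTD.ct
    exact Complex.continuous_cos.measurable.div Complex.continuous_sin.measurable
  have h1 : ∀ c : ℂ, Measurable fun u : ℂ => ct (c - u) := fun c =>
    h.comp (measurable_const.sub measurable_id)
  have h2 : ∀ c : ℂ, Measurable fun u : ℂ => ct (c + u) := fun c =>
    h.comp (measurable_const.add measurable_id)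
  unfold PBTD.DelQ'
  exact (((((h2 _).add (h1 _)).const_mul 2).add (((h1 _).neg.sub (h1 _)).add (h1 _))).add
    (((h1 _).neg.sub (h2 _)).add (h1 _))).sub ((h1 _).neg.add (h1 _))

theorem measurable_DelB' (w w' z : ℂ) (b : Bool) : Measurable (DelB' w w' z b) := by
  unfold PBTD.DelB'
  cases b
  · exact measurable_DelQ' w' w z
  · exact measurable_DelQ' w w' z

theorem Ks_At {δ : ℝ} (hδ : δ ≤ 1 / 5) {u : ℂ} (hu : u.re ∈ Ks δ) : At none u := by
  have hl := lp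
  obtain ⟨h1, h2⟩ := hu
  show 3 / 5 * NUP1.l ≤ u.re ∧ u.re ≤ 6 / 5 * NUP1.l
  constructor
  · linarith
  · nlinarith

/-- **the logarithms of the quanta are analytic and bounded in the strip** -/
theorem DT_DOk : ∃ C : ℝ, 0 ≤ C ∧ ∀ (w w' : ℂ) (M : ℝ), w.re = 5 / 4 * NUP1.l →
    w'.re = 5 / 4 * NUP1.l → |w.im| ≤ M → |w'.im| ≤ M → ∀ δ : ℝ, δ ≤ 1 / 5 →
      DOk (DT w w') (DelB' w w' (zz w w')) δ (C * (1 + M)) := by
  obtain ⟨C, hC, h⟩ := DelB_all
  refine ⟨C, hC, ?_⟩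
  intro w w' M hw hw' iw iw' δ hδ
  have hM : 0 ≤ M := (abs_nonneg _).trans iw
  have H := fun b u (hu : u.re ∈ Ks δ) =>
    h w w' M hw hw' iw iw' b u (KA_none hw hw' (Ks_At hδ hu))
  refine ⟨fun s => measurable_DT w w' s none, measurable_DelB' w w' _, ?_, ?_, ?_⟩
  · intro s u hu
    rw [DT_none]
    exact (H s u hu).1
  · intro s u hu
    rw [DT_none]
    exact (H s u hu).2.2.1
  · intro s u hu
    exact (H s u hu).2.1.trans (by nlinarith)

/-- boundedness on the lines of the class formula -/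
theorem DT_DLn {w w' : ℂ} (hw : w.re = 5 / 4 * NUP1.l) (hw' : w'.re = 5 / 4 * NUP1.l)
    {P : NUO.Par} (hP : ParC P) {x0 : ℝ} (hx : 3 / 5 * NUP1.l ≤ x0) : DLn (DT w w') P x0 := by
  have hl := lp
  obtain ⟨C, hC, h⟩ := DT_le
  have H := fun b k u hu => h w w' (max |w.im| |w'.im|) hw hw' (le_max_left _ _) (le_max_right _ _)
    b k u hu
  refine ⟨fun s => ⟨_, fun z hz => H s none z ?_⟩, fun s => ⟨_, fun z hz => H s (some .L) z ?_⟩,
    fun s => ⟨_, fun z hz => H s (some .T) z ?_⟩,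
    fun s r i hi => ⟨_, fun z hz => H s (some .S) z ?_⟩⟩
  · obtain ⟨h1, h2⟩ := hz
    show 3 / 5 * NUP1.l ≤ z.re ∧ z.re ≤ 6 / 5 * NUP1.l
    constructor <;> linarith
  · have hz' : z.re = (1 - P.jL) * NUP1.l := hz
    have j1 := hP.j1
    have j2 := hP.j2
    show -(17 / 10 * NUP1.l) ≤ z.re ∧ z.re ≤ -(5 / 4 * NUP1.l)
    rw [hz']
    constructor <;> nlinarith
  · exact hz
  · have hz' : z.re = -((1 + (P.e + P.d r * ((i : ℝ) / r))) * NUP1.l) := hz
    have e1 := hP.e1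
    have e2 := hP.e2 r
    have d0 := hP.d0 r
    have hr : (0 : ℝ) < r := by exact_mod_cast (Nat.zero_le i).trans_lt hi
    have g1 : (i : ℝ) / r ≤ 1 := (div_le_one hr).2 (by exact_mod_cast hi.le)
    have g2 : 0 ≤ (i : ℝ) / r := by positivity
    have g3 : 0 ≤ P.d r * ((i : ℝ) / r) := by positivity
    have g4 : P.d r * ((i : ℝ) / r) ≤ P.d r := mul_le_of_le_one_right d0.le g1
    show -(13 / 10 * NUP1.l) ≤ z.re ∧ z.re ≤ -(11 / 10 * NUP1.l)
    rw [hz']
    constructor <;> nlinarith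

/-! ### the data of the path -/

/-- **the data of the path** -/
theorem DT_PathD : ∃ C : ℝ, 0 ≤ C ∧ ∀ (w w' : ℂ) (M : ℝ), w.re = 5 / 4 * NUP1.l →
    w'.re = 5 / 4 * NUP1.l → |w.im| ≤ M → |w'.im| ≤ M →
    ∀ (Z : ℕ → Bool → Option O3 → ℂ → ℂ) (P : ℕ → NUO.Par) (N : ℕ) (η η' : ℕ → Crs),
      (∀ n ≤ N, ∀ s k, Measurable (Z n s k)) → (∀ n ≤ N, ParC (P n)) → (∀ n ≤ N, MCr (η n) (η' n)) →
      (∀ n ≤ N, ∀ (r : ℕ) (O : Fin r → Xo) t, |η n r O t| ≤ NUP1.l / 5) →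
      PathD Z (fun _ => DT w w') P N η η' (C * (1 + M)) := by
  obtain ⟨C1, hC1, h1⟩ := obT_le
  obtain ⟨C2, hC2, h2⟩ := DT_le
  refine ⟨C1 + C2, by positivity, ?_⟩
  intro w w' M hw hw' iw iw' Z P N η η' hZ hP hc hη
  have hM : 0 ≤ M := (abs_nonneg _).trans iw
  have hM1 : 0 ≤ 1 + M := by linarith
  refine ⟨fun n hn => (hP n hn).rm, hZ, fun n hn s k => measurable_DT w w' s k, hc,
    by positivity, ?_, ?_⟩
  · intro n hn r O s t
    refine (h2 w w' M hw hw' iw iw' s none _ (at_A (hη n hn r O t))).trans ?_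
    nlinarith
  · intro n hn r O i
    refine (h1 w w' M hw hw' iw iw' _ _ _ _ (OPar.of (hP n hn) O i)).trans ?_
    nlinarith

end PBTs

end
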