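import Pool.Agent.PB.TRsV
import Pool.Agent.PB.TRsGE
import Pool.Agent.PB.TRsD3
import Pool.Agent.PB.InsInst
import Pool.Agent.PB.LPoK
import Pool.Agent.PB.QRepU

/-!
# Plan B, (TR): the hypotheses of the mean statement on the literal data (helper39)

For the literal data of `PB/TRsV` (helper55):

* `clZ_v`: the class of the family `Zv`; `dok_v`: the logarithms; `logD_v`: the log derivative;
* `sea_v`, `fld_v`: density and field; `eL_v`: the splitting of the force;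
* **`mean_v`**: `MeanH`, every `τ`, every complex `s`, for `k` large;
* **`path_v`**: `PathD` with the bound `C (1 + Mv τ)`, one constant `C`;
* **`wi_v`**: integrability of the family `famV` from `UB famV`.
-/

set_option autoImplicit false
set_option linter.unusedSectionVars false

noncomputable section

open Complex MeasureTheory Finset
open scoped ENNReal

namespace PBTV

open NUO NUP1 NUP1S NUP1S.Ab NUP1S.AbC NUGC PBF PBU PBFunc

variable [NUSea.Sea]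

theorem wa_re (τ : ℝ × ℝ) : (wa τ).re = 5 / 4 * NUP1.l := PBT3.wt_re _

theorem wb_re (τ : ℝ × ℝ) : (wb τ).re = 5 / 4 * NUP1.l := PBT3.wt_re _

theorem g5_v (τ : ℝ × ℝ) : PBT3.G5 (wa τ) (wb τ) := ⟨wa_re τ, wb_re τ⟩

theorem wa_im (τ : ℝ × ℝ) : |(wa τ).im| ≤ Mv τ := by
  unfold wa Mv
  rw [PBT3.wt_im]
  exact le_max_left _ _

theorem wb_im (τ : ℝ × ℝ) : |(wb τ).im| ≤ Mv τ := by
  unfold wb Mv
  rw [PBT3.wt_im]
  exact le_max_right _ _

theorem Mv_nonneg (τ : ℝ × ℝ) : 0 ≤ Mv τ := (abs_nonneg _).trans (le_max_left _ _)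

theorem zt_re' (τ : ℝ × ℝ) : (PBT3.zt τ).re = -(NUP1.l / 4) := PBT3.zt_re τ

theorem rws_v (m : ℕ) : PBX.Rws fun _ : Fin m => (0 : ℂ) := fun i => by
  have hl := Bd.l_pos
  rw [zero_re, abs_zero]
  positivity

theorem cutP_v (w : ℂ) (hw : w ∈ [I, -I]) : w.re = 0 := by
  rw [List.mem_cons, List.mem_singleton] at hw
  rcases hw with rfl | rfl
  · exact I_re
  · rw [neg_re, I_re, neg_zero]

variable {ep : ℝ}

/-- **the class of the family** -/
theorem clZ_v (hep : 0 < ep) (hep1 : ep ≤ 1 / 100) (k : ℕ) (τ : ℝ × ℝ) :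
    ClZ (Zv ep k τ) (NUSea.O.par0 k) (3 / 5 * NUP1.l) (2 * (4 / 3 * (1 - ep)))
      (2 * (4 / 3 * (1 - ep))) (ep / 4) 0 := by
  have hl := Bd.l_pos
  refine clZ_ZL (parZ_parC k) hep hep1 (by linarith) (by linarith) (rws_v _) (fun w hw => ?_)
    (fun w hw => absurd hw List.not_mem_nil) ?_ ?_
  · rw [cutP_v w hw, abs_zero]
    positivity
  · rw [zt_re']
    linarith
  · rw [zt_re']
    linarith

/-- the logarithms of the ratio -/
theorem dok_v : ∃ C : ℝ, 0 ≤ C ∧ ∀ (τ : ℝ × ℝ) (δ : ℝ), δ ≤ 1 / 5 →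
    DOk (Dv τ) (D1v τ) δ (C * (1 + Mv τ)) := by
  obtain ⟨C, hC, h⟩ := PBTs.DT_DOk
  exact ⟨C, hC, fun τ δ hδ => h (wa τ) (wb τ) (Mv τ) (wa_re τ) (wb_re τ) (wa_im τ) (wb_im τ) δ hδ⟩

theorem lzok_v (hep : 0 < ep) (hep1 : ep ≤ 1 / 100) {k : ℕ} (hk : 2 ≤ k) (τ : ℝ × ℝ) :
    PBLZ.LZOk (4 / 3 * (1 - ep)) (3 * NUP1.l / 2 + ep / 2) (ep / 4) 0
      (fun _ : Fin (k - 1) => (0 : ℂ)) [I, -I] (PBT3.zt τ) := by
  have hl := Bd.l_pos
  refine PBLZ.lzOk_std hep hep1 (by omega) (fun _ => zero_re) (fun w hw => cutP_v w hw) ?_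
  rw [zt_re', abs_neg, abs_of_nonneg (by linarith)]
  linarith

/-- **the logarithmic derivative of the family** -/
theorem logD_v (hep : 0 < ep) (hep1 : ep ≤ 1 / 100) {k : ℕ} (hk : 2 ≤ k) (τ : ℝ × ℝ) :
    LogD (Zv ep k τ) (NUSea.O.par0 k) (ep / 4) (LZv ep k τ) (LPv k) := by
  have h := lzok_v hep hep1 hk τ
  refine logD_of (parZ_parC k) (by linarith) (fun s z hz => ?_) (fun s => ?_) ?_
  · exact PBLZ.hasDerivAt_XX h (Leg.cc (k - 1)) (PBX.gP (4 / 3) [])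
      (fun w => PBX.Lg (PBT3.zt τ) (PBT3.zt τ) w * PBX.Lg (PBT3.zt τ) (PBT3.zt τ) (w - NUP1.l)) hz
  · exact PBLZ.LZX_meas _ _ _ _
  · obtain ⟨B, hB⟩ := PBLZ.LZX_bd h
    exact ⟨B, fun _ z hz => hB z hz⟩

theorem nk_pos {k : ℕ} (hk : 2 ≤ k) : 0 < nk k := by
  unfold nk
  have : 0 < k - 1 := by omega
  exact_mod_cast this

theorem qk_pos {k : ℕ} (hk : 2 ≤ k) : 0 < qk k := by
  unfold qk
  have : (0 : ℝ) < k := by
    have : 0 < k := by omega
    exact_mod_cast this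
  positivity

/-- the density -/
theorem sea_v {k : ℕ} (hk : 2 ≤ k) : PB.SeaF (NUP1.l / 5) (rv k) := by
  have hl := Bd.l_pos
  exact PBTs.seaF_T (by linarith) (by
    show NUP1.l / 5 < NUP1.l
    linarith) (nk_pos hk)

/-- the field -/
theorem fld_v {k : ℕ} (hk : 2 ≤ k) (τ : ℝ × ℝ) : PB.FldF (NUP1.l / 5) (Xv k τ) := by
  have hl : 0 < NUMF.l := NUMF.l_pos
  have h := g5_v τ
  have hC := PBT3.Cst_nonneg (y1 := -(NUMF.l / 5)) (y2 := NUMF.l / 5) (by linarith) (by linarith)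
    (by linarith)
  refine PBTs.fldF_T (B := PBT3.Cst (-(NUMF.l / 5)) (NUMF.l / 5) *
    Real.exp (8 / 3 * PBT3.MM (wa τ) (wb τ))) (by
    show 0 < NUMF.l / 5
    linarith) (by
    show NUMF.l / 5 < NUMF.l
    linarith) (nk_pos hk).le (qk_pos hk) (by positivity) (PBTs.be_diff h) fun b z hz => ?_
  refine (PBTs.be_strip h b z hz).trans (mul_le_of_le_one_right (by positivity) ?_)
  rw [Real.exp_le_one_iff]
  have := abs_nonneg z.re
  linarith

/-- the rows of the density -/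
theorem rhoH_v (k : ℕ) : PBLZ.rhoH (fun _ : Fin (k - 1) => (0 : ℂ)) = rv k := by
  funext z
  unfold PBLZ.rhoH rv PBTs.seaT nk PBQ1.hr
  simp

/-- **the splitting of the force** -/
theorem eL_v (ep : ℝ) (k : ℕ) (τ : ℝ × ℝ) (b : Bool) {z : ℂ} (hz : |z.im| < NUP1.l / 5) :
    I * LZv ep k τ b (NUP1.l + I * z) - PB.cV (deriv (rv k)) z = lgv ep k τ b z := by
  have hl := Bd.l_pos
  obtain ⟨z1, z2⟩ := abs_lt.1 hz
  have h1 : ∀ i : Fin (k - 1), |(z - PBQ1.hr ((fun _ : Fin (k - 1) => (0 : ℂ)) i)).im| < NUP1.l := by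
    intro i
    have e : (z - PBQ1.hr (0 : ℂ)).im = z.im := by simp [PBQ1.hr]
    show |(z - PBQ1.hr (0 : ℂ)).im| < NUP1.l
    rw [e]
    linarith
  have h2 : |(z - PBQ1.hr (PBT3.zt τ)).im| < NUP1.l := by
    rw [sub_im, PBQ1.hr_im, zt_re', abs_lt]
    constructor <;> linarith
  have key := PBLZ.I_LZX (x := fun _ : Fin (k - 1) => (0 : ℂ)) (p := PBT3.zt τ)
    (4 / 3 * (1 - ep)) [I, -I] h1 h2
  unfold LZv lgv
  rw [key, rhoH_v]
  ring

/-- the response of the regularised field is integrable against the density -/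
theorem iE_v {k : ℕ} (hk : 2 ≤ k) (τ : ℝ × ℝ) (b : Bool) :
    Integrable fun t : ℝ => rv k t * Ev k τ b t := by
  have hl := Bd.l_pos
  have hL := PB.int_line (sea_v hk) (fld_v hk τ) (by linarith) b
  have h1 : Integrable fun t : ℝ => rv k t * PB.cV (deriv (PB.mulF (rv k) (Xv k τ) b)) t +
      rv k t * PB.cG (fun w => PB.mulF (rv k) (Xv k τ) b w - PB.mulF (rv k) (Xv k τ) (!b) w) t :=
    hL.2.1.add hL.2.2.1
  obtain ⟨C, -, h⟩ := PBTs.DT_le
  have H := fun s : ℝ => h (wa τ) (wb τ) (Mv τ) (wa_re τ) (wb_re τ) (wa_im τ) (wb_im τ) b none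
    (NUP1.l + I * s) (by
      show 3 / 5 * NUP1.l ≤ _ ∧ _ ≤ 6 / 5 * NUP1.l
      simp
      constructor <;> linarith)
  have hm : Measurable fun s : ℝ => PBTs.DT (wa τ) (wb τ) b none (NUP1.l + I * s) :=
    (PBTs.measurable_DT (wa τ) (wb τ) b none).comp (by fun_prop)
  have h2 : Integrable fun s : ℝ => (NUMF.P s : ℂ) * PBTs.DT (wa τ) (wb τ) b none (NUP1.l + I * s) :=
    NUMF.P_integrable.ofReal.mul_bdd hm.aestronglyMeasurable (Filter.Eventually.of_forall H)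
  refine ((h2.const_mul ((nk k : ℝ) : ℂ)).add h1).congr (Filter.Eventually.of_forall fun t => ?_)
  simp only [Pi.add_apply]
  unfold Ev PB.rsp Dv
  have e : rv k (t : ℂ) = nk k * (NUMF.P t : ℂ) := by
    unfold rv PBTs.seaT
    rw [NUMF.Pc_ofReal]
  rw [e]
  ring

variable {e1 J : ℝ}

/-- **the hypotheses of the mean statement** -/
theorem mean_v (hep : 0 < ep) (hep1 : ep ≤ 1 / 100) (he : 0 < e1) (he1 : e1 ≤ 1 / 100)
    (hJ : 0 ≤ J) : ∃ k0 : ℕ, 2 ≤ k0 ∧ ∀ k ≥ k0, ∀ (τ : ℝ × ℝ) (s : ℂ),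
      MeanH (Zv ep k τ) (Dv τ) (NUSea.O.par0 k) (cr e1 J k) (cr' e1 J k) s (ep / 4)
        (2 * (4 / 3 * (1 - ep))) (NUP1.l / 5) (rv k) (Xv k τ) (LZv ep k τ) (D1v τ) (Ev k τ)
        (lgv ep k τ) (LPv k) (kov k) := by
  have hl := Bd.l_pos
  obtain ⟨m0, -, hc⟩ := curZ_crs he he1 hJ hep
  obtain ⟨C, hC, hD⟩ := dok_v
  refine ⟨max m0 2, le_max_right _ _, fun k hk τ s => ?_⟩
  have k0 : m0 ≤ k := (le_max_left _ _).trans hk
  have k2 : 2 ≤ k := (le_max_right _ _).trans hk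
  have hDk := hD τ (ep / 4) (by linarith)
  exact {
    hQ := (clZ_v hep hep1 k τ).q.expZ hDk s
    hP := (parZ_parC k).goodQ.toGoodP
    h0 := by linarith
    h1 := by linarith
    hj := by
      have := (parZ_parC k).j2
      linarith
    crv := fun r O => crvR_of hep hep1 (hc k k0 r O)
    hL := (logD_v hep hep1 k2 τ).expZ hDk s
    b0 := by linarith
    bl := by linarith
    sea := sea_v k2
    fld := fld_v k2 τ
    eR := fun b z _ => by
      unfold Ev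
      ring
    eL := fun b z hz => eL_v ep k τ b hz
    eP := fun r O b z _ => rfl
    iE := fun b => iE_v k2 τ b
    mP := fun r b => PBWP.meas_LPo2 _ r ((parZ_parC k).rm r) b }

/-- **the data of the path** -/
theorem path_v : ∃ C : ℝ, 0 ≤ C ∧ ∀ ep e1 J : ℝ, 0 < ep → ep ≤ 1 / 100 → 0 < e1 → e1 ≤ 1 / 100 →
    0 ≤ J → ∃ k0 : ℕ, ∀ k ≥ k0, ∀ τ : ℝ × ℝ,
      PathD (fun _ => Zv ep k τ) (fun _ => Dv τ) (fun _ => NUSea.O.par0 k) (2 * (k - 1))
        (fun _ => cr e1 J k) (fun _ => cr' e1 J k) (C * (1 + Mv τ)) := by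
  have hl := Bd.l_pos
  obtain ⟨C, hC, h⟩ := PBTs.DT_PathD
  refine ⟨C, hC, fun ep e1 J hep hep1 he he1 hJ => ?_⟩
  obtain ⟨m0, -, hc⟩ := curZ_crs he he1 hJ hep
  refine ⟨m0, fun k hk τ => ?_⟩
  refine h (wa τ) (wb τ) (Mv τ) (wa_re τ) (wb_re τ) (wa_im τ) (wb_im τ) _ _ _ _ _
    (fun n _ s j => PBX.measurable_ZL _ _ _ _ _ s j) (fun n _ => parZ_parC k)
    (fun n _ => mcr_cr' e1 J k) fun n _ r O t => ?_
  have h1 := (hc k hk r O).h1 t
  show |etaC e1 J k k t| ≤ NUP1.l / 5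
  refine h1.trans ?_
  nlinarith

/-- measurability of the family -/
theorem mc_v (ep e1 J : ℝ) (k : ℕ) (τ : ℝ × ℝ) :
    MC (famV.Z ep k τ) (NUSea.O.par0 k) (cr e1 J k) (cr' e1 J k) :=
  MC.of (parZ_parC k).rm (fun a j => PBX.measurable_ZL _ _ _ _ _ a j) (mcr_cr' e1 J k)

/-- **integrability of the family** -/
theorem wi_v {p : ℕ} {K ε : ℝ} (h : UB famV ep e1 J p K ε) (hK : 1 ≤ K) :
    ∃ k0 : ℕ, ∀ k ≥ k0, ∀ τ : ℝ × ℝ, okv k τ →
      WI (mN (2 * (k - 1))) (wN (fun _ => Zv ep k τ) (fun _ => NUSea.O.par0 k) (2 * (k - 1))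
        (fun _ => cr e1 J k) (fun _ => cr' e1 J k) (fun _ => Pv k τ)) (fun _ => 1) := by
  obtain ⟨k0, h0⟩ := UB.mass h hK
  refine ⟨k0, fun k hk τ ho => ?_⟩
  have key := WI_wF (F := famV) (i := τ) (e1 := e1) (J := J) (ep := ep) (m := k)
    (mc_v ep e1 J k τ) (Ψ := fun _ _ _ _ _ _ => 1) (fun n _ => MIn.one)
    (φ := fun _ _ _ _ _ => 1) (fun n _ r O a b x => by simp)
    ((h0 k hk τ ho).trans_lt ENNReal.ofReal_lt_top)
  exact key

end PBTV

end
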