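import Pool.Agent.PB.Two

/-!
# Plan B, final deduction (docs nu34/91W, nu34/41g, nu34/47d)

`PBF.fin_ward`: a family `Φ N` of functions, analytic on `|Re x| < ρ`, `|Im x| < Y`, with the
exact fusion `Φ N 0 = G (N+1)`, `Φ N l = G N`, the Ward bound `Φ N ' = O(N^{-b₁})`, `b₁ < b`, on every
`|Re x| ≤ r < l`, the crude bound `O(N^K)` on `|Re x| < ρ` (`ρ > l`), and the a priori bound
`G N ≥ A N^{-a}` for infinitely many `N`, with `a < b - 1`: then `G` converges to a positive limit.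
`PBF.fin_ward2`: same with steps `N - 2 → N`.
`PBF.fin_norm`: the same for values in a Banach space (complex parameters).
-/

set_option linter.unusedSectionVars false
set_option linter.unusedVariables false

open Set Filter Topology

noncomputable section

namespace PBF

variable {E : Type*} [NormedAddCommGroup E]

/-! ## 1. Sequences -/

/-- `x^{-c} - (x+1)^{-c} ≥ c (x+1)^{-(1+c)}` -/
lemma rpow_diff {x c : ℝ} (hx : 0 < x) (hc : 0 < c) :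
    c * (x + 1) ^ (-(1 + c)) ≤ x ^ (-c) - (x + 1) ^ (-c) := by
  have hx1 : 0 < x + 1 := by linarith
  have hu : 0 < x / (x + 1) := div_pos hx hx1
  have h1 : 1 + c * (1 - x / (x + 1)) ≤ (x / (x + 1)) ^ (-c) := by
    rw [Real.rpow_def_of_pos hu]
    have h2 := Real.add_one_le_exp (Real.log (x / (x + 1)) * -c)
    have h3 := Real.log_le_sub_one_of_pos hu
    nlinarith
  have h4 : (x / (x + 1)) ^ (-c) = x ^ (-c) / (x + 1) ^ (-c) :=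
    Real.div_rpow hx.le hx1.le _
  have h5 : 0 < (x + 1) ^ (-c) := Real.rpow_pos_of_pos hx1 _
  have h6 : 1 - x / (x + 1) = (x + 1)⁻¹ := by
    field_simp
    ring
  rw [h4, h6, le_div_iff₀ h5] at h1
  have h7 : (x + 1) ^ (-(1 + c)) = (x + 1)⁻¹ * (x + 1) ^ (-c) := by
    rw [neg_add, Real.rpow_add hx1, Real.rpow_neg_one]
  rw [h7]
  nlinarith

/-- `x^{-(1+c)} ≤ K (x^{-c} - (x+1)^{-c})` for `x ≥ 1` -/
lemma rpow_diff' {x c : ℝ} (hx : 1 ≤ x) (hc : 0 < c) :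
    x ^ (-(1 + c)) ≤ (2 ^ (1 + c) / c) * (x ^ (-c) - (x + 1) ^ (-c)) := by
  have hx0 : 0 < x := by linarith
  have h1 := rpow_diff hx0 hc
  have h2 : (2 * x) ^ (-(1 + c)) ≤ (x + 1) ^ (-(1 + c)) := by
    apply Real.rpow_le_rpow_of_nonpos (by linarith) (by linarith) (by linarith)
  rw [Real.mul_rpow (by norm_num) hx0.le] at h2
  have h3 : (2 : ℝ) ^ (-(1 + c)) * 2 ^ (1 + c) = 1 := by
    rw [← Real.rpow_add (by norm_num)]
    simp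
  have h4 : (0 : ℝ) < 2 ^ (1 + c) := Real.rpow_pos_of_pos (by norm_num) _
  have h5 : x ^ (-(1 + c)) = 2 ^ (1 + c) * (2 ^ (-(1 + c)) * x ^ (-(1 + c))) := by
    rw [← mul_assoc, mul_comm ((2 : ℝ) ^ (1 + c)), h3, one_mul]
  rw [h5]
  calc 2 ^ (1 + c) * (2 ^ (-(1 + c)) * x ^ (-(1 + c)))
      ≤ 2 ^ (1 + c) * (x + 1) ^ (-(1 + c)) := mul_le_mul_of_nonneg_left h2 h4.le
    _ = (2 ^ (1 + c) / c) * (c * (x + 1) ^ (-(1 + c))) := by field_simp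
    _ ≤ _ := mul_le_mul_of_nonneg_left h1 (div_pos h4 hc).le

/-- summable steps: convergence with rate -/
theorem tendsto_of_step [CompleteSpace E] {G : ℕ → E} {C c : ℝ} (hc : 0 < c)
    (hstep : ∀ᶠ N : ℕ in atTop, ‖G (N + 1) - G N‖ ≤ C * (N : ℝ) ^ (-(1 + c))) :
    ∃ L : E, Tendsto G atTop (𝓝 L) ∧
      ∃ C' : ℝ, 0 ≤ C' ∧ ∀ᶠ N : ℕ in atTop, ‖G N - L‖ ≤ C' * (N : ℝ) ^ (-c) := by
  set K : ℝ := |C| * (2 ^ (1 + c) / c) with hK
  have hK0 : 0 ≤ K := mul_nonneg (abs_nonneg _)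
    (div_nonneg (Real.rpow_nonneg (by norm_num) _) hc.le)
  have hev : ∀ᶠ N : ℕ in atTop, ‖G (N + 1) - G N‖ ≤
      K * (N : ℝ) ^ (-c) - K * ((N + 1 : ℕ) : ℝ) ^ (-c) := by
    filter_upwards [hstep, eventually_ge_atTop 1] with N h1 h2
    have h3 : (1 : ℝ) ≤ (N : ℝ) := by exact_mod_cast h2
    have h4 := rpow_diff' h3 hc
    have h5 : 0 ≤ (N : ℝ) ^ (-(1 + c)) := Real.rpow_nonneg (by linarith) _
    push_cast
    calc ‖G (N + 1) - G N‖ ≤ C * (N : ℝ) ^ (-(1 + c)) := h1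
      _ ≤ |C| * (N : ℝ) ^ (-(1 + c)) := mul_le_mul_of_nonneg_right (le_abs_self C) h5
      _ ≤ |C| * ((2 ^ (1 + c) / c) * ((N : ℝ) ^ (-c) - ((N : ℝ) + 1) ^ (-c))) :=
          mul_le_mul_of_nonneg_left h4 (abs_nonneg C)
      _ = _ := by simp only [hK]; ring
  obtain ⟨N₀, hN₀⟩ := eventually_atTop.1 hev
  have hle : ∀ N ≥ N₀, ∀ j : ℕ, ‖G (N + j) - G N‖ ≤
      K * (N : ℝ) ^ (-c) - K * ((N + j : ℕ) : ℝ) ^ (-c) := by
    intro N hN j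
    induction j with
    | zero => simp
    | succ j ih =>
      have h1 := hN₀ (N + j) (by omega)
      have h2 : G (N + (j + 1)) - G N = (G (N + j + 1) - G (N + j)) + (G (N + j) - G N) := by
        rw [← add_assoc]; abel
      rw [h2]
      have h3 : ((N + (j + 1) : ℕ) : ℝ) = ((N + j + 1 : ℕ) : ℝ) := by push_cast; ring
      rw [h3]
      calc ‖(G (N + j + 1) - G (N + j)) + (G (N + j) - G N)‖
          ≤ ‖G (N + j + 1) - G (N + j)‖ + ‖G (N + j) - G N‖ := norm_add_le _ _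
        _ ≤ _ := by linarith
  have hlim0 : Tendsto (fun N : ℕ => K * (N : ℝ) ^ (-c)) atTop (𝓝 0) := by
    have h1 : Tendsto (fun N : ℕ => (N : ℝ) ^ (-c)) atTop (𝓝 0) :=
      (tendsto_rpow_neg_atTop hc).comp tendsto_natCast_atTop_atTop
    simpa using h1.const_mul K
  have hcau : CauchySeq G := by
    rw [Metric.cauchySeq_iff']
    intro ε hε
    have h1 := (hlim0.eventually (gt_mem_nhds hε)).and (eventually_ge_atTop N₀)
    obtain ⟨N, hN1, hN2⟩ := h1.exists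
    refine ⟨N, fun m hm => ?_⟩
    obtain ⟨j, rfl⟩ := Nat.exists_eq_add_of_le hm
    rw [dist_eq_norm]
    have h2 := hle N hN2 j
    have h3 : 0 ≤ K * ((N + j : ℕ) : ℝ) ^ (-c) :=
      mul_nonneg hK0 (Real.rpow_nonneg (Nat.cast_nonneg _) _)
    linarith
  obtain ⟨L, hL⟩ := cauchySeq_tendsto_of_complete hcau
  refine ⟨L, hL, K, hK0, ?_⟩
  filter_upwards [eventually_ge_atTop N₀] with N hN
  have h1 : Tendsto (fun j : ℕ => ‖G (N + j) - G N‖) atTop (𝓝 ‖L - G N‖) := by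
    have h2 : Tendsto (fun j : ℕ => G (N + j)) atTop (𝓝 L) := by
      have h3 : Tendsto (fun j : ℕ => N + j) atTop atTop :=
        tendsto_atTop_mono (fun j => Nat.le_add_left j N) tendsto_id
      exact hL.comp h3
    exact (h2.sub_const _).norm
  rw [norm_sub_rev]
  refine le_of_tendsto h1 (Eventually.of_forall fun j => ?_)
  have h2 := hle N hN j
  have h3 : 0 ≤ K * ((N + j : ℕ) : ℝ) ^ (-c) :=
    mul_nonneg hK0 (Real.rpow_nonneg (Nat.cast_nonneg _) _)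
  linarith

/-- **Banach space values.** Steps `O(N^{-(1+c)})`, a priori `‖G N‖ ≥ A N^{-a}` for infinitely
many `N`, `a < c`: the limit is not `0`. -/
theorem fin_norm [CompleteSpace E] {G : ℕ → E} {C c a A : ℝ} (hc : 0 < c) (hac : a < c)
    (hA : 0 < A)
    (hstep : ∀ᶠ N : ℕ in atTop, ‖G (N + 1) - G N‖ ≤ C * (N : ℝ) ^ (-(1 + c)))
    (hlow : ∃ᶠ N : ℕ in atTop, A * (N : ℝ) ^ (-a) ≤ ‖G N‖) :
    ∃ L : E, L ≠ 0 ∧ Tendsto G atTop (𝓝 L) ∧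
      ∃ C' : ℝ, ∀ᶠ N : ℕ in atTop, ‖G N - L‖ ≤ C' * (N : ℝ) ^ (-c) := by
  obtain ⟨L, hL, C', hC'0, hC'⟩ := tendsto_of_step hc hstep
  refine ⟨L, ?_, hL, C', hC'⟩
  rintro rfl
  have h1 : Tendsto (fun N : ℕ => (N : ℝ) ^ (c - a)) atTop atTop :=
    (tendsto_rpow_atTop (by linarith)).comp tendsto_natCast_atTop_atTop
  have h2 : ∀ᶠ N : ℕ in atTop, C' / A < (N : ℝ) ^ (c - a) := h1.eventually_gt_atTop _
  obtain ⟨N, hN, h3, h4, h5⟩ :=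
    (hlow.and_eventually (hC'.and (h2.and (eventually_ge_atTop 1)))).exists
  have hN0 : (0 : ℝ) < N := by
    have : (1 : ℝ) ≤ (N : ℝ) := by exact_mod_cast h5
    linarith
  rw [sub_zero] at h3
  have h6 : A * (N : ℝ) ^ (-a) ≤ C' * (N : ℝ) ^ (-c) := hN.trans h3
  have h7 : (N : ℝ) ^ (-a) = (N : ℝ) ^ (c - a) * (N : ℝ) ^ (-c) := by
    rw [← Real.rpow_add hN0]; ring_nf
  have h8 : 0 < (N : ℝ) ^ (-c) := Real.rpow_pos_of_pos hN0 _
  rw [h7, ← mul_assoc] at h6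
  have h9 : A * (N : ℝ) ^ (c - a) ≤ C' := le_of_mul_le_mul_right h6 h8
  rw [div_lt_iff₀ hA] at h4
  linarith

/-- **Real values**: the limit is positive, `G N ≥ c₀` from some `N` on. -/
theorem fin_real {G : ℕ → ℝ} {C c a A : ℝ} (hc : 0 < c) (hac : a < c) (hA : 0 < A)
    (hstep : ∀ᶠ N : ℕ in atTop, |G (N + 1) - G N| ≤ C * (N : ℝ) ^ (-(1 + c)))
    (hlow : ∃ᶠ N : ℕ in atTop, A * (N : ℝ) ^ (-a) ≤ G N) :
    ∃ L : ℝ, 0 < L ∧ Tendsto G atTop (𝓝 L) ∧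
      (∃ C' : ℝ, ∀ᶠ N : ℕ in atTop, |G N - L| ≤ C' * (N : ℝ) ^ (-c)) ∧
      ∀ᶠ N : ℕ in atTop, L / 2 ≤ G N := by
  obtain ⟨L, hL0, hL, C', hC'⟩ := fin_norm (G := G) hc hac hA hstep
    (hlow.mono fun N hN => hN.trans (le_abs_self _))
  have hLnn : 0 ≤ L := by
    by_contra hcon
    push Not at hcon
    have h1 : ∀ᶠ N : ℕ in atTop, G N < 0 := hL.eventually (gt_mem_nhds hcon)
    obtain ⟨N, hN, h2⟩ := (hlow.and_eventually h1).exists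
    have h3 : 0 ≤ A * (N : ℝ) ^ (-a) := mul_nonneg hA.le (Real.rpow_nonneg (Nat.cast_nonneg _) _)
    linarith
  have hLpos : 0 < L := lt_of_le_of_ne hLnn (Ne.symm hL0)
  refine ⟨L, hLpos, hL, ⟨C', hC'⟩, ?_⟩
  exact (hL.eventually (lt_mem_nhds (by linarith : L / 2 < L))).mono fun N hN => hN.le

/-- one `N` in every window `[M, w M]` is enough for the frequently form -/
lemma frequently_of_window {P : ℕ → Prop} {w M₀ : ℕ} (h : ∀ M ≥ M₀, ∃ N, M ≤ N ∧ N ≤ w * M ∧ P N) :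
    ∃ᶠ N : ℕ in atTop, P N := by
  rw [frequently_atTop]
  intro M
  obtain ⟨N, h1, _, h3⟩ := h (max M M₀) (le_max_right _ _)
  exact ⟨N, (le_max_left _ _).trans h1, h3⟩

/-! ## 2. Fusion and Ward bound -/

variable [NormedSpace ℂ E]

/-- **Fusion + Ward ⟹ small steps** (no a priori bound). -/
theorem step_of_ward {G : ℕ → E} {Φ : ℕ → ℂ → E} {l ρ Y b K : ℝ}
    (hl : 0 < l) (hlρ : l < ρ) (hY : 0 < Y)
    (h0 : ∀ᶠ N : ℕ in atTop, Φ N 0 = G (N + 1))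
    (h1 : ∀ᶠ N : ℕ in atTop, Φ N (l : ℂ) = G N)
    (han : ∀ᶠ N : ℕ in atTop, DifferentiableOn ℂ (Φ N) {x | |x.re| < ρ ∧ |x.im| < Y})
    (hcr : ∃ C : ℝ, ∀ᶠ N : ℕ in atTop, ∀ x : ℂ, |x.re| < ρ → |x.im| < Y →
      ‖Φ N x‖ ≤ C * (N : ℝ) ^ K)
    (hw : ∀ r < l, ∀ b₁ < b, ∃ C : ℝ, ∀ᶠ N : ℕ in atTop, ∀ x : ℂ, |x.re| ≤ r → |x.im| < Y →
      ‖deriv (Φ N) x‖ ≤ C * (N : ℝ) ^ (-b₁)) {b' : ℝ} (hb : b' < b) :
    ∃ C : ℝ, ∀ᶠ N : ℕ in atTop, ‖G (N + 1) - G N‖ ≤ C * (N : ℝ) ^ (-b') := by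
  have hn : ∀ᶠ N : ℕ in atTop, (1 : ℝ) ≤ (N : ℝ) := by
    filter_upwards [eventually_ge_atTop 1] with N hN
    exact_mod_cast hN
  obtain ⟨C, hC⟩ := PBT.pinch (F := atTop) (n := fun N : ℕ => (N : ℝ)) hn hl hlρ hY han hcr hw hb
  refine ⟨C, ?_⟩
  filter_upwards [hC, h0, h1] with N e1 e2 e3
  rw [← e2, ← e3, norm_sub_rev]
  exact e1

/-- **Final deduction, step `N → N + 1`.** -/
theorem fin_ward {G : ℕ → ℝ} {Φ : ℕ → ℂ → ℂ} {l ρ Y b K a A : ℝ}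
    (hl : 0 < l) (hlρ : l < ρ) (hY : 0 < Y)
    (h0 : ∀ᶠ N : ℕ in atTop, Φ N 0 = (G (N + 1) : ℂ))
    (h1 : ∀ᶠ N : ℕ in atTop, Φ N (l : ℂ) = (G N : ℂ))
    (han : ∀ᶠ N : ℕ in atTop, DifferentiableOn ℂ (Φ N) {x | |x.re| < ρ ∧ |x.im| < Y})
    (hcr : ∃ C : ℝ, ∀ᶠ N : ℕ in atTop, ∀ x : ℂ, |x.re| < ρ → |x.im| < Y →
      ‖Φ N x‖ ≤ C * (N : ℝ) ^ K)
    (hw : ∀ r < l, ∀ b₁ < b, ∃ C : ℝ, ∀ᶠ N : ℕ in atTop, ∀ x : ℂ, |x.re| ≤ r → |x.im| < Y →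
      ‖deriv (Φ N) x‖ ≤ C * (N : ℝ) ^ (-b₁))
    (hb1 : 1 < b) (hab : a < b - 1) (hA : 0 < A)
    (hlow : ∃ᶠ N : ℕ in atTop, A * (N : ℝ) ^ (-a) ≤ G N) :
    ∃ L : ℝ, 0 < L ∧ Tendsto G atTop (𝓝 L) ∧
      (∀ c < b - 1, ∃ C' : ℝ, ∀ᶠ N : ℕ in atTop, |G N - L| ≤ C' * (N : ℝ) ^ (-c)) ∧
      ∀ᶠ N : ℕ in atTop, L / 2 ≤ G N := by
  have key : ∀ c, 0 < c → c < b - 1 → a < c → ∃ L : ℝ, 0 < L ∧ Tendsto G atTop (𝓝 L) ∧
      (∃ C' : ℝ, ∀ᶠ N : ℕ in atTop, |G N - L| ≤ C' * (N : ℝ) ^ (-c)) ∧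
      ∀ᶠ N : ℕ in atTop, L / 2 ≤ G N := by
    intro c hc0 hcb hac
    obtain ⟨C, hC⟩ := step_of_ward (G := fun N => (G N : ℂ)) hl hlρ hY h0 h1 han hcr hw
      (b' := 1 + c) (by linarith)
    have hC' : ∀ᶠ N : ℕ in atTop, |G (N + 1) - G N| ≤ C * (N : ℝ) ^ (-(1 + c)) := by
      filter_upwards [hC] with N hN
      rw [← Complex.ofReal_sub, Complex.norm_real, Real.norm_eq_abs] at hN
      exact hN
    exact fin_real hc0 hac hA hC' hlow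
  obtain ⟨c₀, hc₀1, hc₀2⟩ := exists_between (show max 0 a < b - 1 from max_lt (by linarith) hab)
  have hc₀0 : 0 < c₀ := lt_of_le_of_lt (le_max_left _ _) hc₀1
  have hc₀a : a < c₀ := lt_of_le_of_lt (le_max_right _ _) hc₀1
  obtain ⟨L, hLpos, hL, -, hLev⟩ := key c₀ hc₀0 hc₀2 hc₀a
  refine ⟨L, hLpos, hL, ?_, hLev⟩
  intro c hc
  obtain ⟨L', -, hL', ⟨C', hC'⟩, -⟩ := key (max c c₀) (lt_of_lt_of_le hc₀0 (le_max_right _ _))
    (max_lt hc hc₀2) (lt_of_lt_of_le hc₀a (le_max_right _ _))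
  have hLL : L' = L := tendsto_nhds_unique hL' hL
  subst hLL
  refine ⟨|C'|, ?_⟩
  filter_upwards [hC', eventually_ge_atTop 1] with N h1 h2
  have h3 : (1 : ℝ) ≤ (N : ℝ) := by exact_mod_cast h2
  have h4 : (N : ℝ) ^ (-(max c c₀)) ≤ (N : ℝ) ^ (-c) :=
    Real.rpow_le_rpow_of_exponent_le h3 (by linarith [le_max_left c c₀])
  have h5 : 0 ≤ (N : ℝ) ^ (-(max c c₀)) := Real.rpow_nonneg (by linarith) _
  calc |G N - L'| ≤ C' * (N : ℝ) ^ (-(max c c₀)) := h1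
    _ ≤ |C'| * (N : ℝ) ^ (-(max c c₀)) := mul_le_mul_of_nonneg_right (le_abs_self _) h5
    _ ≤ |C'| * (N : ℝ) ^ (-c) := mul_le_mul_of_nonneg_left h4 (abs_nonneg _)

/-- **Final deduction, step `N - 2 → N`** (47d, 85: `f 0` and `f (3l)`): only the numbers
`G (N+2) - G N` are needed. The a priori bound in every window of both parities. -/
theorem fin_step2 {G : ℕ → ℝ} {C c a A : ℝ} (hc : 0 < c) (hac : a < c) (hA : 0 < A)
    (hstep : ∀ᶠ N : ℕ in atTop, |G (N + 2) - G N| ≤ C * (N : ℝ) ^ (-(1 + c))) (p : ℕ)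
    (hlow : ∃ᶠ k : ℕ in atTop, A * ((2 * k + p : ℕ) : ℝ) ^ (-a) ≤ G (2 * k + p)) (ha : 0 ≤ a) :
    ∃ L : ℝ, 0 < L ∧ Tendsto (fun k : ℕ => G (2 * k + p)) atTop (𝓝 L) ∧
      ∀ᶠ k : ℕ in atTop, L / 2 ≤ G (2 * k + p) := by
  have htop : Tendsto (fun k : ℕ => 2 * k + p) atTop atTop :=
    tendsto_atTop_mono (fun k => by show k ≤ 2 * k + p; omega) tendsto_id
  have hs : ∀ᶠ k : ℕ in atTop, |G (2 * (k + 1) + p) - G (2 * k + p)| ≤
      |C| * (k : ℝ) ^ (-(1 + c)) := by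
    filter_upwards [htop.eventually hstep, eventually_ge_atTop 1] with k h1 h2
    have h3 : (1 : ℝ) ≤ (k : ℝ) := by exact_mod_cast h2
    have h4 : (k : ℝ) ≤ ((2 * k + p : ℕ) : ℝ) := by
      exact_mod_cast (by omega : k ≤ 2 * k + p)
    have h5 : (((2 * k + p : ℕ) : ℝ)) ^ (-(1 + c)) ≤ (k : ℝ) ^ (-(1 + c)) :=
      Real.rpow_le_rpow_of_nonpos (by linarith) h4 (by linarith)
    have h6 : 0 ≤ (((2 * k + p : ℕ) : ℝ)) ^ (-(1 + c)) := Real.rpow_nonneg (Nat.cast_nonneg _) _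
    have h7 : 2 * (k + 1) + p = 2 * k + p + 2 := by ring
    rw [h7]
    calc |G (2 * k + p + 2) - G (2 * k + p)| ≤ C * ((2 * k + p : ℕ) : ℝ) ^ (-(1 + c)) := h1
      _ ≤ |C| * ((2 * k + p : ℕ) : ℝ) ^ (-(1 + c)) :=
          mul_le_mul_of_nonneg_right (le_abs_self _) h6
      _ ≤ _ := mul_le_mul_of_nonneg_left h5 (abs_nonneg _)
  have hl : ∃ᶠ k : ℕ in atTop, (A * (2 + p : ℝ) ^ (-a)) * (k : ℝ) ^ (-a) ≤ G (2 * k + p) := by
    refine (hlow.and_eventually (eventually_ge_atTop 1)).mono ?_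
    rintro k ⟨h1, h2⟩
    have h3 : (1 : ℝ) ≤ (k : ℝ) := by exact_mod_cast h2
    refine le_trans ?_ h1
    rw [mul_assoc, ← Real.mul_rpow (by positivity) (by positivity)]
    apply mul_le_mul_of_nonneg_left _ hA.le
    apply Real.rpow_le_rpow_of_nonpos
    · push_cast; positivity
    · push_cast
      have hp : (0 : ℝ) ≤ (p : ℝ) := Nat.cast_nonneg _
      nlinarith
    · linarith
  obtain ⟨L, hLpos, hL, -, hLev⟩ := fin_real (G := fun k => G (2 * k + p)) hc hac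
    (mul_pos hA (Real.rpow_pos_of_pos (by positivity) _)) hs hl
  exact ⟨L, hLpos, hL, hLev⟩

/-! ## 3. Transfer of the a priori bound between two geometries -/

/-- the a priori bound passes to a sequence at distance `O(N^{-c})`, `a < c` -/
theorem low_transfer {G H : ℕ → ℝ} {C c a A : ℝ} (hac : a < c) (hA : 0 < A)
    (hGH : ∀ᶠ N : ℕ in atTop, |G N - H N| ≤ C * (N : ℝ) ^ (-c))
    (hlow : ∃ᶠ N : ℕ in atTop, A * (N : ℝ) ^ (-a) ≤ H N) :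
    ∃ᶠ N : ℕ in atTop, A / 2 * (N : ℝ) ^ (-a) ≤ G N := by
  have h1 : Tendsto (fun N : ℕ => (N : ℝ) ^ (c - a)) atTop atTop :=
    (tendsto_rpow_atTop (by linarith)).comp tendsto_natCast_atTop_atTop
  have h2 : ∀ᶠ N : ℕ in atTop, 2 * |C| / A < (N : ℝ) ^ (c - a) := h1.eventually_gt_atTop _
  refine (hlow.and_eventually (hGH.and (h2.and (eventually_ge_atTop 1)))).mono ?_
  rintro N ⟨h3, h4, h5, h6⟩
  have hN0 : (0 : ℝ) < N := by
    have : (1 : ℝ) ≤ (N : ℝ) := by exact_mod_cast h6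
    linarith
  have h8 : 0 < (N : ℝ) ^ (-c) := Real.rpow_pos_of_pos hN0 _
  have h7 : (N : ℝ) ^ (-a) = (N : ℝ) ^ (c - a) * (N : ℝ) ^ (-c) := by
    rw [← Real.rpow_add hN0]; ring_nf
  rw [div_lt_iff₀ hA] at h5
  have h9 : |C| * (N : ℝ) ^ (-c) ≤ A / 2 * (N : ℝ) ^ (-a) := by
    rw [h7, ← mul_assoc]
    apply mul_le_mul_of_nonneg_right _ h8.le
    linarith
  have h10 : C * (N : ℝ) ^ (-c) ≤ |C| * (N : ℝ) ^ (-c) :=
    mul_le_mul_of_nonneg_right (le_abs_self C) h8.le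
  have h11 := (abs_le.1 h4).1
  linarith

/-- a chain of at most `B N` steps, each `O(N^{-(1+c)})` -/
theorem chain_le {f : ℕ → ℕ → ℝ} {J : ℕ → ℕ} {C c B : ℝ}
    (hJ : ∀ᶠ N : ℕ in atTop, (J N : ℝ) ≤ B * N)
    (hf : ∀ᶠ N : ℕ in atTop, ∀ j < J N, |f N (j + 1) - f N j| ≤ C * (N : ℝ) ^ (-(1 + c))) :
    ∀ᶠ N : ℕ in atTop, |f N (J N) - f N 0| ≤ |C| * B * (N : ℝ) ^ (-c) := by
  filter_upwards [hJ, hf, eventually_ge_atTop 1] with N h1 h2 h3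
  have hN0 : (0 : ℝ) < N := by
    have : (1 : ℝ) ≤ (N : ℝ) := by exact_mod_cast h3
    linarith
  have h4 : ∀ j ≤ J N, |f N j - f N 0| ≤ j * (|C| * (N : ℝ) ^ (-(1 + c))) := by
    intro j
    induction j with
    | zero => intro _; simp
    | succ j ih =>
      intro hj
      have e1 := ih (by omega)
      have e2 := h2 j (by omega)
      have e3 : C * (N : ℝ) ^ (-(1 + c)) ≤ |C| * (N : ℝ) ^ (-(1 + c)) :=
        mul_le_mul_of_nonneg_right (le_abs_self C) (Real.rpow_nonneg hN0.le _)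
      have e4 : |f N (j + 1) - f N 0| ≤ |f N (j + 1) - f N j| + |f N j - f N 0| := by
        have := abs_add_le (f N (j + 1) - f N j) (f N j - f N 0)
        rwa [sub_add_sub_cancel] at this
      push_cast
      linarith
  have h5 := h4 (J N) le_rfl
  have h6 : (N : ℝ) ^ (-c) = N * (N : ℝ) ^ (-(1 + c)) := by
    have e : (N : ℝ) ^ (-c) = (N : ℝ) ^ ((1 : ℝ) + -(1 + c)) := by ring_nf
    rw [e, Real.rpow_add hN0, Real.rpow_one]
  rw [h6]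
  calc |f N (J N) - f N 0| ≤ (J N : ℝ) * (|C| * (N : ℝ) ^ (-(1 + c))) := h5
    _ ≤ (B * N) * (|C| * (N : ℝ) ^ (-(1 + c))) :=
        mul_le_mul_of_nonneg_right h1 (mul_nonneg (abs_nonneg _) (Real.rpow_nonneg hN0.le _))
    _ = _ := by ring

end PBF
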