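import Pool.Agent.PB.FunH

/-!
# Plan B, function side: what (TR) and the end need (helper12)

`FunO c f g`: `g j` = the zero coefficient of `f j`:
* `|g (j + 1) - g j| ≤ C j^{-(1+c)}`;
* `|f j z - g j| ≤ j^{-c (1 - |Im z|/Hj) + ε} e^{2|Im z|}`, `Hj = (9/80) log j = (3/10) T`, for
  `|Re z| ≤ 3l + ρ`, `|Im z| ≤ Hj`, every `ρ < (3/5) l`, `ε > 0`, eventually.

`FunH.out`: from the conclusions of the chain (decay of the coefficients with `k ≠ 0`, steps of the zero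
coefficient), for one large `K`.
-/

set_option autoImplicit false

noncomputable section

open Complex MeasureTheory Set Filter Topology
open Pool.Agent.PB.Rec (EL EL_coef EL_add ReR seg)

namespace PBV

/-- the output of the function side -/
structure FunO (c : ℝ) (f : ℕ → ℂ → ℂ) (g : ℕ → ℂ) : Prop where
  step : ∃ C' : ℝ, ∀ᶠ j : ℕ in atTop, ‖g (j + 1) - g j‖ ≤ C' * (j : ℝ) ^ (-(1 + c))
  val : ∀ ρ : ℝ, 0 ≤ ρ → ρ < σL → ∀ ε : ℝ, 0 < ε → ∀ᶠ j : ℕ in atTop, ∀ z : ℂ, |z.re| ≤ aL + ρ →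
    |z.im| ≤ 9 / 80 * Real.log j → ‖f j z - g j‖ ≤
      (j : ℝ) ^ (-(c * (1 - |z.im| / (9 / 80 * Real.log j))) + ε) * Real.exp (2 * |z.im|)

variable {C : ℝ} {f : ℕ → ℂ → ℂ} {Psi : ℕ → ℂ → ℂ → ℂ}

/-- the coefficients of `f (j + 1)` and of `Psi j (., 0)` nearly agree -/
theorem FunH.bK_aK (h : FunH C f Psi) {e : ℝ} (he : 0 ≤ e) : ∃ K0 : ℕ, ∀ K ≥ K0, ∀ᶠ j : ℕ in atTop,
    ∀ k ∈ Finset.Icc (-(K : ℤ)) K, ‖bK f (j + 1) k - aK Psi j 0 k‖ ≤ (j : ℝ) ^ (-e) := by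
  obtain ⟨K1, hK1⟩ := h.kf (e + 1) (ρ := 0) le_rfl σL_pos
  obtain ⟨K2, hK2⟩ := h.kp (e + 1) (ρ := 0) le_rfl σL_pos
  refine ⟨max K1 K2, fun K hK => ?_⟩
  obtain ⟨V, hV0, hV⟩ := EL_coef (w := 8 / 3) (by norm_num) K
  filter_upwards [(tendsto_add_atTop_nat 1).eventually (hK1 K (le_of_max_le_left hK)),
    hK2 K (le_of_max_le_right hK), h.p0, eventually_ge_atTop 1, log_ev (Real.log (2 * V))]
    with j h1 h2 h3 h4 h5 k hk
  have hj0 : (0 : ℝ) < j := by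
    have : 0 < j := by omega
    exact_mod_cast this
  have hj1 : (1 : ℝ) ≤ j := by exact_mod_cast h4
  have hV2 : 2 * V ≤ j := (Real.log_le_log_iff (by positivity) hj0).1 h5
  have h0 : (0 : ℂ) ∈ seg 0 := ⟨0, ⟨le_rfl, zero_le_one⟩, by simp⟩
  have hmono : ((j + 1 : ℕ) : ℝ) ^ (-(e + 1)) ≤ (j : ℝ) ^ (-(e + 1)) := by
    refine Real.rpow_le_rpow_of_nonpos (by linarith) ?_ (by linarith)
    push_cast
    linarith
  have h6 := hV (fun k => bK f (j + 1) k - aK Psi j 0 k) (2 * (j : ℝ) ^ (-(e + 1))) (fun t ht => by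
    have hz : |(I * (t : ℂ)).re| ≤ aL + 0 ∧ |(I * (t : ℂ)).im| ≤ 2 := by
      constructor
      · have := aL_pos
        simpa using this.le
      · simp only [mul_im, I_re, ofReal_im, mul_zero, I_im, ofReal_re, one_mul, zero_add]
        rw [abs_of_nonneg ht.1]
        linarith [ht.2]
    have e1 := (h1 _ hz.1 hz.2).trans hmono
    have e2 := h2 0 h0 _ hz.1 hz.2
    rw [h3] at e2
    rw [Pool.Agent.PB.Rec.EL_sub]
    have e3 : EL (8 / 3) K (bK f (j + 1)) (I * t) - EL (8 / 3) K (aK Psi j 0) (I * t) =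
        (f (j + 1) (I * t) - EL (8 / 3) K (aK Psi j 0) (I * t)) -
        (f (j + 1) (I * t) - EL (8 / 3) K (bK f (j + 1)) (I * t)) := by ring
    rw [e3]
    exact (norm_sub_le _ _).trans (by linarith)) k hk
  refine h6.trans ?_
  have e4 : (j : ℝ) ^ (-e) = (j : ℝ) ^ (-(e + 1)) * j := by
    rw [show -e = -(e + 1) + 1 by ring, Real.rpow_add hj0, Real.rpow_one]
  rw [e4]
  have : 0 ≤ (j : ℝ) ^ (-(e + 1)) := by positivity
  nlinarith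

/-- **output of the function side** -/
theorem FunH.out (h : FunH C f Psi) {c : ℝ} (hc : 0 ≤ c) :
    (∃ K0 : ℕ, ∀ K ≥ K0, (∃ C' : ℝ, ∀ᶠ j : ℕ in atTop, ∀ k ∈ Finset.Icc (-(K : ℤ)) K, k ≠ 0 →
      ‖bK f j k‖ ≤ C' * (j : ℝ) ^ (-c)) ∧
      ∃ C' : ℝ, ∀ᶠ j : ℕ in atTop, ‖bK f (j + 1) 0 - bK f j 0‖ ≤ C' * (j : ℝ) ^ (-(1 + c))) →
    FunO c f (fun j => bK f j 0) := by
  rintro ⟨K0, hK0⟩
  refine ⟨(hK0 K0 le_rfl).2, fun ρ hρ hρσ ε hε => ?_⟩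
  have hx1 : (9 / 80 : ℝ) ≤ (1 - 1 / 5) * (2 * σL / Real.pi) := by
    rw [two_σL]
    norm_num
  obtain ⟨K1, hK1⟩ := value_tall (a := aL) (σ := σL) (ρ := ρ) (y₀ := 1) (b₀ := 0) (ε₀ := 1 / 5)
    (x₁ := 9 / 80) (c := c) C hρ hρσ σL_lt le_rfl
    σL_pos zero_le_one (by norm_num) (by norm_num) (by norm_num) hx1 hc
  obtain ⟨C', hC'⟩ := (hK0 (max K0 K1) (le_max_left _ _)).1
  exact hK1 (max K0 K1) (le_max_right _ _) C' f h.ff h.uf hC' ε hε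

end PBV
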