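import Pool.Agent.PB.TRsum
import Pool.Agent.PB.FunO
import Pool.Agent.PB.Fin

/-!
# Plan B, transfer to the regular function: the form with phases (helper60)

* `tr_phase`: `tr_sum` for a real function `r k * W0 k` which is `u k` times the integral over the heights
  of the half quanta, `‖u k‖ = b` (the phase may depend on `k`): the conclusion is the Prop `TRP` of the top
  level, `r k W0 k = u' k (κ G) + O(k^{-c'})`, `‖u' k‖ = 1`, `c' > 3/8`.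
* **`tr_fun`**: the same with helper12's output `FunO c f g` of the function side (`f j`: `j` rows,
  `k = j + 1`) as the only input on the dislocated function.
-/

set_option autoImplicit false

noncomputable section

open MeasureTheory Set Filter Topology Complex

namespace PBTR

open Pool.Agent.PB.Rec

/-- a slightly smaller exponent absorbs a constant -/
lemma absorb {B c c' : ℝ} (h : c' < c) :
    ∀ᶠ k : ℕ in atTop, B * (k : ℝ) ^ (-c) ≤ (k : ℝ) ^ (-c') := by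
  have h3 : Tendsto (fun k : ℕ => (k : ℝ) ^ (c - c')) atTop atTop :=
    (tendsto_rpow_atTop (by linarith)).comp tendsto_natCast_atTop_atTop
  filter_upwards [h3.eventually_ge_atTop B, ev_one] with k q1 hk
  have hk0 : (0 : ℝ) < k := by linarith
  have e1 : (k : ℝ) ^ (-c') = (k : ℝ) ^ (c - c') * (k : ℝ) ^ (-c) := by
    rw [← Real.rpow_add hk0]
    congr 1
    ring
  rw [e1]
  exact mul_le_mul_of_nonneg_right q1 (Real.rpow_nonneg hk0.le _)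

/-- division by the phase -/
lemma div_phase {b c0 : ℝ} {Y : ℕ → ℂ} {I u : ℕ → ℂ} (hb : 0 < b) (hu : ∀ᶠ k : ℕ in atTop, ‖u k‖ = b)
    (hc0 : 3 / 8 < c0) (H1 : ∀ᶠ k : ℕ in atTop, ‖Y k - u k * I k‖ ≤ (k : ℝ) ^ (-c0)) :
    ∃ c0' : ℝ, 3 / 8 < c0' ∧ ∀ᶠ k : ℕ in atTop, ‖Y k / u k - I k‖ ≤ (k : ℝ) ^ (-c0') := by
  obtain ⟨c0', h1, h2⟩ : ∃ c0' : ℝ, 3 / 8 < c0' ∧ c0' < c0 := exists_between hc0
  refine ⟨c0', h1, ?_⟩
  filter_upwards [H1, hu, absorb (B := 1 / b) h2] with k q1 q2 q3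
  have hu0 : u k ≠ 0 := by
    intro h
    rw [h, norm_zero] at q2
    linarith
  have e1 : Y k / u k - I k = (Y k - u k * I k) / u k := by
    field_simp
  rw [e1, norm_div, q2]
  refine le_trans ?_ q3
  rw [one_div_mul_eq_div]
  exact div_le_div_of_nonneg_right q1 hb.le

/-- back to the function with the phase -/
lemma phase_core {b c c' B B' : ℝ} {Y : ℕ → ℂ} {u g0 : ℕ → ℂ} {J G : ℂ} (hb : 0 < b)
    (hu : ∀ᶠ k : ℕ in atTop, ‖u k‖ = b) (hc : 3 / 8 < c) (hc' : 3 / 8 < c')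
    (hB : ∀ᶠ k : ℕ in atTop, ‖Y k / u k - g0 k * J‖ ≤ B * (k : ℝ) ^ (-c'))
    (hB' : ∀ᶠ k : ℕ in atTop, ‖g0 k - G‖ ≤ B' * (k : ℝ) ^ (-c)) :
    ∃ (c' C : ℝ) (κ : ℂ) (u' : ℕ → ℂ), 3 / 8 < c' ∧ (∀ᶠ k : ℕ in atTop, ‖u' k‖ = 1) ∧
      ∀ᶠ k : ℕ in atTop, ‖Y k - u' k * (κ * G)‖ ≤ C * (k : ℝ) ^ (-c') := by
  have hb' : (b : ℂ) ≠ 0 := by exact_mod_cast hb.ne'
  have hbn : ‖(b : ℂ)‖ = b := by rw [norm_real, Real.norm_of_nonneg hb.le]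
  obtain ⟨cm, h4, h5, h6⟩ : ∃ cm : ℝ, 3 / 8 < cm ∧ cm ≤ c' ∧ cm ≤ c :=
    ⟨min c' c, lt_min hc' hc, min_le_left _ _, min_le_right _ _⟩
  refine ⟨cm, b * (|B| + |B'| * ‖J‖), b * J, fun k => u k / b, h4, ?_, ?_⟩
  · filter_upwards [hu] with k q1
    rw [norm_div, q1, hbn, div_self hb.ne']
  · filter_upwards [hB, hB', hu, ev_one] with k q1 q2 q3 hk
    have hk0 : (0 : ℝ) < k := by linarith
    have hu0 : u k ≠ 0 := by
      intro h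
      rw [h, norm_zero] at q3
      linarith
    have m1 : (k : ℝ) ^ (-c') ≤ (k : ℝ) ^ (-cm) := Real.rpow_le_rpow_of_exponent_le hk (by linarith)
    have m2 : (k : ℝ) ^ (-c) ≤ (k : ℝ) ^ (-cm) := Real.rpow_le_rpow_of_exponent_le hk (by linarith)
    have p1 : 0 ≤ (k : ℝ) ^ (-c') := Real.rpow_nonneg hk0.le _
    have p2 : 0 ≤ (k : ℝ) ^ (-c) := Real.rpow_nonneg hk0.le _
    have e1 : Y k - u k / b * (b * J * G) =
        u k * ((Y k / u k - g0 k * J) + (g0 k - G) * J) := by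
      field_simp
      ring
    rw [e1, norm_mul, q3]
    have s1 : ‖Y k / u k - g0 k * J‖ ≤ |B| * (k : ℝ) ^ (-cm) :=
      q1.trans ((mul_le_mul_of_nonneg_right (le_abs_self B) p1).trans
        (mul_le_mul_of_nonneg_left m1 (abs_nonneg B)))
    have s2 : ‖(g0 k - G) * J‖ ≤ |B'| * ‖J‖ * (k : ℝ) ^ (-cm) := by
      rw [norm_mul]
      calc ‖g0 k - G‖ * ‖J‖ ≤ (|B'| * (k : ℝ) ^ (-cm)) * ‖J‖ := by
            refine mul_le_mul_of_nonneg_right ?_ (norm_nonneg _)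
            exact q2.trans ((mul_le_mul_of_nonneg_right (le_abs_self B') p2).trans
              (mul_le_mul_of_nonneg_left m2 (abs_nonneg B')))
        _ = _ := by ring
    calc b * ‖(Y k / u k - g0 k * J) + (g0 k - G) * J‖
        ≤ b * (|B| * (k : ℝ) ^ (-cm) + |B'| * ‖J‖ * (k : ℝ) ^ (-cm)) :=
          mul_le_mul_of_nonneg_left ((norm_add_le _ _).trans (add_le_add s1 s2)) hb.le
      _ = _ := by ring

/-- **(TR) with phases** -/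
theorem tr_phase {K : ℕ} {g : ℕ → ℤ → ℂ} {f : ℕ → ℂ → ℂ} {x0 ρ c c1 c0 d A b : ℝ}
    {r W0 : ℕ → ℝ} {u : ℕ → ℂ} {R : ℕ → ℝ × ℝ → ℂ} {k1 E : ℝ × ℝ → ℂ} {W : ℕ → Set (ℝ × ℝ)} {G : ℂ}
    (hb : 0 < b) (hu : ∀ᶠ k : ℕ in atTop, ‖u k‖ = b)
    (hx : |x0| ≤ ρ) (hd : 0 < d) (hd' : d ≤ 1 / 20) (hc0 : 3 / 8 < c0) (hc1 : 3 / 8 < c1)
    (hc : 3 / 8 < c) (hWm : ∀ k, MeasurableSet (W k))
    (hWS : ∀ᶠ k : ℕ in atTop, nearS (3 / 8 + d) k ⊆ W k)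
    (hRm : ∀ᶠ k : ℕ in atTop,
      AEStronglyMeasurable (fun τ => k1 τ * R k τ) (volume.restrict (W k)))
    (hKm : AEStronglyMeasurable (fun τ => k1 τ * E τ) volume)
    (H1 : ∀ᶠ k : ℕ in atTop, ‖((r k * W0 k : ℝ) : ℂ) - u k * ∫ τ in W k, k1 τ * R k τ‖ ≤
      (k : ℝ) ^ (-c0))
    (H2 : ∀ᶠ k : ℕ in atTop, ∀ τ ∈ W k,
      ‖k1 τ * R k τ‖ ≤ (k : ℝ) ^ (d / 8) * Real.exp (-(mT τ)))
    (H3 : ∀ᶠ k : ℕ in atTop, ∀ τ ∈ nearS (3 / 8 + d) k,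
      ‖k1 τ‖ * ‖R k τ - E τ * f k (zT x0 τ)‖ ≤ (k : ℝ) ^ (-c1))
    (H4 : ∀ τ, ‖k1 τ * E τ‖ ≤ A * Real.exp (-(3 * sT τ)))
    (H5 : ∀ᶠ k : ℕ in atTop, ∀ z : ℂ, |z.re| ≤ ρ → |z.im| ≤ 9 / 80 * Real.log k →
      ‖f k z - EL (8 / 3) K (g k) z‖ ≤ (k : ℝ) ^ (-(1 : ℝ)))
    (H6 : ∀ᶠ k : ℕ in atTop, ∀ j ∈ Finset.Icc (-(K : ℤ)) K, j ≠ 0 → ‖g k j‖ ≤ (k : ℝ) ^ (-c))
    (H7 : ∀ᶠ k : ℕ in atTop, ∀ t : ℝ, |t| ≤ 9 / 80 * Real.log k →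
      ‖f k (I * t)‖ ≤ (k : ℝ) ^ (d / 8) * Real.exp (2 * |t|))
    (H8 : ∃ B : ℝ, ∀ᶠ k : ℕ in atTop, ‖g k 0 - G‖ ≤ B * (k : ℝ) ^ (-c)) :
    ∃ (c' C : ℝ) (κ : ℂ) (u' : ℕ → ℂ), 3 / 8 < c' ∧ (∀ᶠ k : ℕ in atTop, ‖u' k‖ = 1) ∧
      ∀ᶠ k : ℕ in atTop, ‖((r k * W0 k : ℝ) : ℂ) - u' k * (κ * G)‖ ≤ C * (k : ℝ) ^ (-c') := by
  obtain ⟨c0', h1, H1'⟩ := div_phase hb hu hc0 H1
  obtain ⟨c', hc', B, hB⟩ := tr_sum hx hd hd' h1 hc1 hc hWm hWS hRm hKm H1' H2 H3 H4 H5 H6 H7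
  obtain ⟨B', hB'⟩ := H8
  exact phase_core hb hu hc hc' hB hB'

/-- the harmonics on the near set, from `FunO` -/
theorem harm_fun {x0 c d : ℝ} {f : ℕ → ℂ → ℂ} {g : ℕ → ℂ} (hF : PBV.FunO c f g) (hc : 3 / 8 < c)
    (hx : |x0| ≤ PBV.aL) (hd' : d ≤ 1 / 20) :
    ∃ m : ℝ, 3 / 8 < m ∧ ∃ B : ℝ, 0 ≤ B ∧ ∀ᶠ k : ℕ in atTop, ∀ τ ∈ nearS (3 / 8 + d) k,
      ‖f (k - 1) (zT x0 τ) - g (k - 1)‖ * Real.exp (-(3 * sT τ)) ≤ B * (k : ℝ) ^ (-m) := by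
  obtain ⟨c2, h21, h22, h23⟩ : ∃ c2 : ℝ, 3 / 8 < c2 ∧ c2 ≤ c ∧ c2 ≤ 9 / 20 :=
    ⟨min c (9 / 20), lt_min hc (by norm_num), min_le_left _ _, min_le_right _ _⟩
  set ε : ℝ := (c2 - 3 / 8) / 2 with hε
  have hε0 : 0 < ε := by rw [hε]; linarith
  have hv := hF.val 0 le_rfl PBV.σL_pos ε hε0
  have ht : Tendsto (fun k : ℕ => k - 1) atTop atTop := tendsto_sub_atTop_nat 1
  refine ⟨c2 - ε, by rw [hε]; linarith, Real.exp (c2 - ε), (Real.exp_pos _).le, ?_⟩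
  filter_upwards [ht.eventually hv, ev_log 20, eventually_ge_atTop 3] with k h1 hL hk3
  intro τ hτ
  set L := Real.log k with hLdef
  have hL0 : 0 ≤ L := by linarith
  have hk : (1 : ℝ) ≤ k := by
    have : 1 ≤ k := by omega
    exact_mod_cast this
  have hk0 : (0 : ℝ) < k := by linarith
  obtain ⟨hs, hy, hy'⟩ := nearS_sT hd' hL0 hτ
  have hys := yT_le τ
  set y := |yT τ| with hydef
  have hy0 : 0 ≤ y := abs_nonneg _
  -- the logarithm of `k - 1`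
  have hj : ((k - 1 : ℕ) : ℝ) = k - 1 := by
    rw [Nat.cast_sub (by omega)]
    norm_num
  have hk3' : (3 : ℝ) ≤ k := by exact_mod_cast hk3
  have hj0 : (0 : ℝ) < ((k - 1 : ℕ) : ℝ) := by rw [hj]; linarith
  set L' := Real.log ((k - 1 : ℕ) : ℝ) with hL'def
  have hLL : L - 1 ≤ L' := by
    have e1 : L - 1 = Real.log (k / Real.exp 1) := by
      rw [Real.log_div hk0.ne' (Real.exp_pos 1).ne', Real.log_exp]
    rw [e1, hL'def, hj]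
    apply Real.log_le_log (by positivity)
    rw [div_le_iff₀ (Real.exp_pos 1)]
    have := Real.add_one_le_exp (1 : ℝ)
    nlinarith
  have hL'L : L' ≤ L := by
    rw [hL'def, hj]
    exact Real.log_le_log (by linarith) (by linarith)
  have hL'0 : 0 < L' := by linarith
  have hyL : y ≤ 9 / 80 * L' := by nlinarith
  have h2 := h1 (zT x0 τ) (by rw [zT_re, add_zero]; exact hx) (by rw [zT_im, abs_neg]; exact hyL)
  rw [zT_im, abs_neg, ← hydef] at h2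
  set q : ℝ := 1 - y / (9 / 80 * L') with hq
  have hq0 : 0 ≤ q := by
    rw [hq, sub_nonneg, div_le_one (by positivity)]
    exact hyL
  have hje : ∀ x : ℝ, ((k - 1 : ℕ) : ℝ) ^ x = Real.exp (x * L') := by
    intro x
    rw [Real.rpow_def_of_pos hj0, mul_comm]
  have e3 : q * L' = L' - 80 / 9 * y := by
    rw [hq]
    field_simp
  calc ‖f (k - 1) (zT x0 τ) - g (k - 1)‖ * Real.exp (-(3 * sT τ))
      ≤ (((k - 1 : ℕ) : ℝ) ^ (-(c * q) + ε) * Real.exp (2 * y)) * Real.exp (-(3 * sT τ)) :=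
        mul_le_mul_of_nonneg_right h2 (Real.exp_pos _).le
    _ = Real.exp ((-(c * q) + ε) * L' + 2 * y + -(3 * sT τ)) := by
        rw [hje, ← Real.exp_add, ← Real.exp_add]
    _ ≤ Real.exp ((c2 - ε) + -(c2 - ε) * L) := by
        apply Real.exp_le_exp.2
        have p1 : c2 * (q * L') ≤ c * (q * L') :=
          mul_le_mul_of_nonneg_right h22 (mul_nonneg hq0 hL'0.le)
        have p2 : c2 * (80 / 9 * y) ≤ 9 / 20 * (80 / 9 * y) :=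
          mul_le_mul_of_nonneg_right h23 (by positivity)
        have p3 : (c2 - ε) * (L - 1) ≤ (c2 - ε) * L' :=
          mul_le_mul_of_nonneg_left hLL (by rw [hε]; linarith)
        rw [e3] at p1
        have p4 : (-(c * q) + ε) * L' = -(c * (q * L')) + ε * L' := by ring
        rw [p4, e3]
        nlinarith
    _ = Real.exp (c2 - ε) * (k : ℝ) ^ (-(c2 - ε)) := by
        rw [rpow_log hk, Real.exp_add]

/-- a bound at `k - 1` -/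
lemma shift_one {c B : ℝ} (hc : 0 < c) (hB : 0 ≤ B) {g : ℕ → ℂ} {G : ℂ}
    (h : ∀ᶠ j : ℕ in atTop, ‖g j - G‖ ≤ B * (j : ℝ) ^ (-c)) :
    ∀ᶠ k : ℕ in atTop, ‖g (k - 1) - G‖ ≤ (B * 2 ^ c) * (k : ℝ) ^ (-c) := by
  have ht : Tendsto (fun k : ℕ => k - 1) atTop atTop := tendsto_sub_atTop_nat 1
  filter_upwards [ht.eventually h, eventually_ge_atTop 2] with k h1 hk
  refine h1.trans ?_
  have hk2 : (2 : ℝ) ≤ k := by exact_mod_cast hk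
  have hj : ((k - 1 : ℕ) : ℝ) = k - 1 := by
    rw [Nat.cast_sub (by omega)]
    norm_num
  rw [mul_assoc]
  refine mul_le_mul_of_nonneg_left ?_ hB
  calc ((k - 1 : ℕ) : ℝ) ^ (-c) ≤ ((k : ℝ) / 2) ^ (-c) :=
        Real.rpow_le_rpow_of_nonpos (by linarith) (by rw [hj]; linarith) (by linarith)
    _ = 2 ^ c * (k : ℝ) ^ (-c) := by
        rw [Real.div_rpow (by linarith) (by norm_num), Real.rpow_neg (by norm_num : (0 : ℝ) ≤ 2)]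
        field_simp

/-- **(TR) with the output of the function side** -/
theorem tr_fun {f : ℕ → ℂ → ℂ} {g : ℕ → ℂ} {x0 c c1 c0 d A b : ℝ}
    {r W0 : ℕ → ℝ} {u : ℕ → ℂ} {R : ℕ → ℝ × ℝ → ℂ} {k1 E : ℝ × ℝ → ℂ} {W : ℕ → Set (ℝ × ℝ)}
    (hF : PBV.FunO c f g) (hc : 3 / 8 < c) (hx : |x0| ≤ PBV.aL)
    (hb : 0 < b) (hu : ∀ᶠ k : ℕ in atTop, ‖u k‖ = b)
    (hd : 0 < d) (hd' : d ≤ 1 / 20) (hc0 : 3 / 8 < c0) (hc1 : 3 / 8 < c1)
    (hWm : ∀ k, MeasurableSet (W k))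
    (hWS : ∀ᶠ k : ℕ in atTop, nearS (3 / 8 + d) k ⊆ W k)
    (hRm : ∀ᶠ k : ℕ in atTop,
      AEStronglyMeasurable (fun τ => k1 τ * R k τ) (volume.restrict (W k)))
    (hKm : AEStronglyMeasurable (fun τ => k1 τ * E τ) volume)
    (H1 : ∀ᶠ k : ℕ in atTop, ‖((r k * W0 k : ℝ) : ℂ) - u k * ∫ τ in W k, k1 τ * R k τ‖ ≤
      (k : ℝ) ^ (-c0))
    (H2 : ∀ᶠ k : ℕ in atTop, ∀ τ ∈ W k,
      ‖k1 τ * R k τ‖ ≤ (k : ℝ) ^ (d / 8) * Real.exp (-(mT τ)))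
    (H3 : ∀ᶠ k : ℕ in atTop, ∀ τ ∈ nearS (3 / 8 + d) k,
      ‖k1 τ‖ * ‖R k τ - E τ * f (k - 1) (zT x0 τ)‖ ≤ (k : ℝ) ^ (-c1))
    (H4 : ∀ τ, ‖k1 τ * E τ‖ ≤ A * Real.exp (-(3 * sT τ))) :
    ∃ G : ℂ, Tendsto g atTop (𝓝 G) ∧
      ∃ (c' C : ℝ) (κ : ℂ) (u' : ℕ → ℂ), 3 / 8 < c' ∧ (∀ᶠ k : ℕ in atTop, ‖u' k‖ = 1) ∧
        ∀ᶠ k : ℕ in atTop, ‖((r k * W0 k : ℝ) : ℂ) - u' k * (κ * G)‖ ≤ C * (k : ℝ) ^ (-c') := by
  have hcp : 0 < c := by linarith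
  obtain ⟨C', hstep⟩ := hF.step
  obtain ⟨G, hG, C2, hC2, hrate⟩ := PBF.tendsto_of_step hcp hstep
  refine ⟨G, hG, ?_⟩
  obtain ⟨c0', h1, H1'⟩ := div_phase hb hu hc0 H1
  obtain ⟨m, hm, B1, hB1, Hh⟩ := harm_fun hF hc hx hd'
  have hr1 := shift_one hcp hC2 hrate
  -- the zero coefficient is bounded
  have Hg : ∀ᶠ k : ℕ in atTop, ‖g (k - 1)‖ ≤ (‖G‖ + 1) * (k : ℝ) ^ (d / 8) := by
    have ht : Tendsto (fun k : ℕ => k - 1) atTop atTop := tendsto_sub_atTop_nat 1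
    filter_upwards [(hG.comp ht).norm.eventually (ge_mem_nhds (show ‖G‖ < ‖G‖ + 1 by linarith)),
      ev_one] with k q1 hk
    have q2 : ‖g (k - 1)‖ ≤ ‖G‖ + 1 := q1
    have q3 : 1 ≤ (k : ℝ) ^ (d / 8) := Real.one_le_rpow hk (by linarith)
    have : 0 ≤ ‖G‖ := norm_nonneg _
    nlinarith
  obtain ⟨c', hc', B, hB⟩ := tr_core (g0 := fun k => g (k - 1)) (f := fun k => f (k - 1))
    hd hd' h1 hc1 hm hB1 (by positivity) hWm hWS hRm hKm H1' H2 H3 H4 Hh Hg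
  exact phase_core hb hu hc hc' hB hr1

end PBTR
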