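import Pool.Agent.PB.TRRat
import Pool.Agent.PB.TRPh
import Pool.Agent.PB.Main
import Pool.Agent.PB.FunI

/-!
# (TR), top level: the Prop `TRP nrm` of `PB/Main` from the three literal inputs

`S k τ` = the sum over `n` of the functionals of the class W W at the heights `τ` (rows `0^(k-1)`, ends
`0`); `KK S k τ` = the integrand of the regular function over the bulk term; `Rk S k τ` = the same with
the prefactor of the dislocated function over the mean field.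

* `KK_eq`: `KK S k τ = u0 * (k1T τ * Rk S k τ)` (from `PB/TRRat`);
* **`trP_of`**: class decomposition (H1), bound on the window (H2), s-path (H3), function side `FunO`
  give `TRP nrm`.
-/

set_option autoImplicit false

noncomputable section

open Complex MeasureTheory Set Filter Topology

namespace PBTRF

open NUP1 (l)
open NUP1.Leg (kap Dk Bp)
open PBR (rh)
open Pool.Agent.PB (Pf f0)
open PBT3 (wt zt gF k1T)
open PBTRat (EM)
open PBTR (mT sT zT nearS)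

/-- prefactor of the regular function over the bulk term, `k - 1` rows -/
def nr (k : ℕ) : ℂ := (2 : ℂ) ^ (2 * k * (2 * k - 1)) *
  (sin l * (Bp 0 0 (fun _ : Fin (k - 1) => (0 : ℂ)) * Bp 0 0 (fun _ : Fin (k - 1) => (0 : ℂ)))) /
    ((Pool.Agent.NUF.bulk k : ℝ) : ℂ)

/-- the integrand of the regular function, class W W -/
def KK (S : ℕ → ℝ × ℝ → ℂ) (k : ℕ) (τ : ℝ × ℝ) : ℂ :=
  nr k * (2 * Real.pi : ℂ)⁻¹ ^ 2 * (PBX.kf0 (k - 1) (wt τ.1) * PBX.kf0 (k - 1) (wt τ.2) *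
    Dk (wt τ.1 - wt τ.2)) * S k τ

/-- the class W W with the prefactor of the dislocated function over the mean field -/
def Rk (S : ℕ → ℝ × ℝ → ℂ) (k : ℕ) (τ : ℝ × ℝ) : ℂ :=
  Pf (zt τ) (fun _ : Fin (k - 1) => (0 : ℂ)) (fun _ : Fin (k - 1) => (0 : ℂ)) *
    (EM (zt τ) (wt τ.1) (wt τ.2))⁻¹ ^ (k - 1) * S k τ

/-- the constant -/
def u0 : ℂ := (2 * Real.pi : ℂ)⁻¹ ^ 2 * (3 / 2 / rh 0)

theorem u0_ne : u0 ≠ 0 := by
  unfold u0
  have h1 : (2 * Real.pi : ℂ) ≠ 0 := by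
    have := Real.pi_pos.ne'
    exact_mod_cast mul_ne_zero two_ne_zero this
  exact mul_ne_zero (pow_ne_zero _ (inv_ne_zero h1)) (div_ne_zero (by norm_num) PBTRat.rh0_ne)

theorem KK_eq (S : ℕ → ℝ × ℝ → ℂ) {k : ℕ} (hk : 1 ≤ k) (τ : ℝ × ℝ) :
    KK S k τ = u0 * (k1T τ * Rk S k τ) := by
  obtain ⟨m, rfl⟩ : ∃ m, k = m + 1 := ⟨k - 1, by omega⟩
  have h := PBTRat.ratio_wt τ m
  have hn : nr (m + 1) = (2 : ℂ) ^ (2 * (m + 1) * (2 * (m + 1) - 1)) *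
      (sin l * (Bp 0 0 (fun _ : Fin m => (0 : ℂ)) * Bp 0 0 (fun _ : Fin m => (0 : ℂ)))) /
        ((Pool.Agent.NUF.bulk (m + 1) : ℝ) : ℂ) := rfl
  have hK : KK S (m + 1) τ = nr (m + 1) * (2 * Real.pi : ℂ)⁻¹ ^ 2 * (PBX.kf0 m (wt τ.1) *
      PBX.kf0 m (wt τ.2) * Dk (wt τ.1 - wt τ.2)) * S (m + 1) τ := rfl
  have hR : Rk S (m + 1) τ = Pf (zt τ) (fun _ : Fin m => (0 : ℂ)) (fun _ : Fin m => (0 : ℂ)) *
      (EM (zt τ) (wt τ.1) (wt τ.2))⁻¹ ^ m * S (m + 1) τ := rfl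
  rw [hK, hR, hn]
  unfold u0
  linear_combination ((2 * Real.pi : ℂ)⁻¹ ^ 2 * S (m + 1) τ) * h

theorem zt_zT (τ : ℝ × ℝ) : zt τ = zT (-(l / 4)) τ := by
  refine Complex.ext ?_ ?_
  · rw [PBT3.zt_re, PBTR.zT_re]
  · rw [PBT3.zt_im, PBTR.zT_im]
    unfold PBTR.yT
    ring

/-- **(TR)** -/
theorem trP_of {S : ℕ → ℝ × ℝ → ℂ} {g : ℕ → ℂ} {c c1 c0 d : ℝ} {u : ℕ → ℂ}
    {V : ℕ → Set (ℝ × ℝ)} (hF : PBV.FunO c f0 g) (hc : 3 / 8 < c)
    (hu : ∀ᶠ k : ℕ in atTop, ‖u k‖ = 1) (hd : 0 < d) (hd' : d ≤ 1 / 20) (hc0 : 3 / 8 < c0)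
    (hc1 : 3 / 8 < c1) (hVm : ∀ k, MeasurableSet (V k))
    (hVS : ∀ᶠ k : ℕ in atTop, nearS (3 / 8 + d) k ⊆ V k)
    (hm : ∀ᶠ k : ℕ in atTop, AEStronglyMeasurable (KK S k) (volume.restrict (V k)))
    (H1 : ∀ᶠ k : ℕ in atTop, ‖((PBM.nrm k * PBM.W0r k : ℝ) : ℂ) - u k * ∫ τ in V k, KK S k τ‖ ≤
      (k : ℝ) ^ (-c0))
    (H2 : ∀ᶠ k : ℕ in atTop, ∀ τ ∈ V k, ‖KK S k τ‖ ≤ (k : ℝ) ^ (d / 9) * Real.exp (-(mT τ)))
    (H3 : ∀ᶠ k : ℕ in atTop, ∀ τ ∈ nearS (3 / 8 + d) k,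
      ‖k1T τ‖ * ‖Rk S k τ - Complex.exp (gF τ) * f0 (k - 1) (zt τ)‖ ≤ (k : ℝ) ^ (-c1)) :
    PBM.TRP PBM.nrm := by
  have hl := PBR.l_pos'
  obtain ⟨A, hA, H4⟩ := PBT3.k1_exp_le
  have hb : 0 < ‖u0‖ := norm_pos_iff.2 u0_ne
  have habs : ∀ᶠ k : ℕ in atTop, ‖u0‖⁻¹ * (k : ℝ) ^ (d / 9) ≤ (k : ℝ) ^ (d / 8) := by
    have h3 : Tendsto (fun k : ℕ => (k : ℝ) ^ (d / 8 - d / 9)) atTop atTop :=
      (tendsto_rpow_atTop (by linarith)).comp tendsto_natCast_atTop_atTop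
    filter_upwards [h3.eventually_ge_atTop ‖u0‖⁻¹, eventually_ge_atTop 1] with k q1 hk
    have hk0 : (0 : ℝ) < k := by exact_mod_cast hk
    have e1 : (k : ℝ) ^ (d / 8) = (k : ℝ) ^ (d / 8 - d / 9) * (k : ℝ) ^ (d / 9) := by
      rw [← Real.rpow_add hk0]
      congr 1
      ring
    rw [e1]
    exact mul_le_mul_of_nonneg_right q1 (Real.rpow_nonneg hk0.le _)
  obtain ⟨G, -, c', C, κ, u', h1, h2, h3⟩ := PBTR.tr_fun (f := f0) (g := g) (x0 := -(l / 4)) (c := c)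
    (c1 := c1) (c0 := c0) (d := d) (A := A) (b := ‖u0‖) (r := PBM.nrm) (W0 := PBM.W0r)
    (u := fun k => u k * u0) (R := Rk S) (k1 := k1T) (E := fun τ => Complex.exp (gF τ)) (W := V)
    hF hc (by
      rw [abs_neg, abs_of_pos (by positivity), PBV.aL_eq]
      linarith) hb (by
      filter_upwards [hu] with k hk
      rw [norm_mul, hk, one_mul]) hd hd' hc0 hc1 hVm hVS (by
      filter_upwards [hm, eventually_ge_atTop 1] with k h5 h6
      have e : (fun τ => k1T τ * Rk S k τ) = fun τ => u0⁻¹ * KK S k τ := by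
        funext τ
        rw [KK_eq S h6, ← mul_assoc, inv_mul_cancel₀ u0_ne, one_mul]
      rw [e]
      exact h5.const_mul _)
    (PBT3.continuous_k1T.mul PBT3.continuous_exp_gF).aestronglyMeasurable (by
      filter_upwards [H1, eventually_ge_atTop 1] with k h5 h6
      have e : u k * ∫ τ in V k, KK S k τ = u k * u0 * ∫ τ in V k, k1T τ * Rk S k τ := by
        have e2 : ∀ τ, KK S k τ = u0 * (k1T τ * Rk S k τ) := fun τ => KK_eq S h6 τ
        simp only [e2]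
        rw [integral_const_mul, mul_assoc]
      rw [← e]
      exact h5) (by
      filter_upwards [H2, habs, eventually_ge_atTop 1] with k h5 h6 h7 τ hτ
      have h8 := h5 τ hτ
      rw [KK_eq S h7, norm_mul] at h8
      have h9 : ‖k1T τ * Rk S k τ‖ ≤ ‖u0‖⁻¹ * ((k : ℝ) ^ (d / 9) * Real.exp (-(mT τ))) := by
        rw [inv_mul_eq_div, le_div_iff₀ hb]
        linarith
      refine h9.trans ?_
      rw [← mul_assoc]
      exact mul_le_mul_of_nonneg_right h6 (Real.exp_pos _).le) (by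
      filter_upwards [H3] with k h5 τ hτ
      rw [← zt_zT]
      exact h5 τ hτ) H4
  exact ⟨c', C, κ, G, u', h1, h2, h3⟩

end PBTRF

end
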