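import Pool.Agent.PB.TopR0
import Pool.Agent.PB.TRFin
import Pool.Agent.PB.H12

/-!
# (H2) of (TR), literally

`SR0 ep e1 J k τ`: the sum over `n ≤ 2 (k - 1)` of the functionals of the class `W W` at rows `0^(k-1)`,
cutoffs `[I, -I]`, `[]`, curve `etaC`; **`h2_SR0`**: the integrand `KK` is at most `k^e exp (- mT τ)` on
the window `|τ₁|, |τ₂| ≤ 3/8 log k`, for every `e > 0`, `ep`, `e1`, `exp (-2πJ)` small.
-/

set_option autoImplicit false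

noncomputable section

open Complex MeasureTheory Finset Filter

namespace PBTRF

open NUGC PBO PBF PBR PBX PBI
open NUO NUP1 NURow
open NUP1.Leg (kap Dk Bp)
open PBT3 (wt zt gF k1T)
open PBTR (mT sT zT nearS winW)

attribute [local instance] NUSea.seaP

/-- the sum over the number of quanta, class `W W` -/
def SR0 (ep e1 J : ℝ) (k : ℕ) (τ : ℝ × ℝ) : ℂ :=
  ∑ n ∈ range (2 * (k - 1) + 1), FF (RZW (R0 (k - 1) (beC ep) [I, -I] []) (wt τ.1) (wt τ.2))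
    (NUSea.O.par0 k) n n (fun _ _ => etaC e1 J k k) (fun _ _ => etaC' e1 J k k) (fun _ _ _ _ _ => 1)

theorem wt_vl (τ : ℝ) : wt τ = vl (5 / 4 * l) τ := by
  unfold PBT3.wt vl
  ring

theorem nr_eq (k : ℕ) : nr k = nrR k := rfl

theorem KK_SR0 (ep e1 J : ℝ) (k : ℕ) (τ : ℝ × ℝ) : KK (SR0 ep e1 J) k τ =
    (nrR k * (2 * Real.pi : ℂ)⁻¹ ^ 2) * kR k τ * SR0 ep e1 J k τ := by
  unfold KK kR
  rw [nr_eq, wt_vl, wt_vl]

/-- **(H2)** -/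
theorem h2_SR0 {e : ℝ} (he : 0 < e) : ∃ κ0 : ℝ, 0 < κ0 ∧ κ0 ≤ 1 / 100 ∧
    ∀ ep : ℝ, 0 < ep → ep ≤ κ0 → ∀ e1 : ℝ, 0 < e1 → e1 ≤ κ0 → ∀ J : ℝ, 0 ≤ J →
    Real.exp (-(2 * Real.pi * J)) ≤ κ0 →
    ∀ᶠ k : ℕ in atTop, ∀ τ ∈ winW (3 / 8) k,
      ‖KK (SR0 ep e1 J) k τ‖ ≤ (k : ℝ) ^ e * Real.exp (-(mT τ)) := by
  obtain ⟨κ0, hκ, hκ1, H⟩ := topR0_val he
  refine ⟨κ0, hκ, hκ1, fun ep hep hep1 e1 he1 he11 J hJ hJ1 => ?_⟩
  have hn : ∀ k, 1 ≤ k → ‖nrR k * (2 * Real.pi : ℂ)⁻¹ ^ 2‖ * Real.exp ((k : ℝ) ^ 2 * PBVR.EMF0) ≤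
      (Real.sin l)⁻¹ * ‖(2 * Real.pi : ℂ)⁻¹ ^ 2‖ := by
    intro k hk
    rw [norm_mul, mul_right_comm, norm_nrR hk]
  obtain ⟨k0, hk0, H⟩ := H ep hep hep1 e1 he1 he11 J hJ hJ1 _ _ hn
  filter_upwards [eventually_ge_atTop k0] with k hk τ hτ
  obtain ⟨-, H⟩ := H k hk
  have h1k : 1 ≤ k := by omega
  have hL : 0 ≤ Real.log k := Real.log_nonneg (by exact_mod_cast h1k)
  have hTW : 3 / 8 * Real.log k ≤ TW ep e1 k := by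
    have h : TW ep e1 k = (1 + 2 * e1 + 2 * ep) * (3 / 8 * Real.log k) := rfl
    rw [h]
    nlinarith [mul_nonneg he1.le hL, mul_nonneg hep.le hL]
  have key := H τ (hτ.1.trans hTW) (hτ.2.trans hTW) (2 * (k - 1)) (by omega)
  rw [KK_SR0]
  unfold SR0
  rw [wt_vl, wt_vl]
  exact key

end PBTRF

end
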