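import Pool.Agent.PB.FDef

/-!
# Plan B: Hölder inequality for the functional with moduli (helper7)

* `trE`, `FE`: the functional with moduli with a nonnegative insertion (`FA = FE ‖Ψ‖ₑ`);
* `ME`: measurability of an insertion (inner and outer);
* **`FE_holder`**: `FE (φ ψ) ≤ (FE φ^p)^(1/p) (FE ψ^q)^(1/q)`;
* `pw p Ψ = ‖Ψ‖^p` as insertion; **`FA_holder`**;
* `FA_pin`: the form used for pinned objects: `FA Ψ^p ≤ A`, `FA Φ^q ≤ B` give `FA (Ψ Φ) ≤ A^(1/p) B^(1/q)`.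
-/

set_option autoImplicit false
set_option linter.unusedSectionVars false

noncomputable section

open Complex MeasureTheory Finset
open scoped ENNReal

namespace PBF

open NUO NUP1 NUP1S NUP1S.Ab NUP1S.AbC NUGC NUCR

/-- Hölder with a weight -/
theorem holder_w {α : Type*} [MeasurableSpace α] {μ : Measure α} {p q : ℝ} (hpq : p.HolderConjugate q)
    {w f g : α → ℝ≥0∞} (hw : AEMeasurable w μ) (hf : AEMeasurable f μ) (hg : AEMeasurable g μ) :
    ∫⁻ x, w x * (f x * g x) ∂μ ≤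
      (∫⁻ x, w x * f x ^ p ∂μ) ^ (1 / p) * (∫⁻ x, w x * g x ^ q ∂μ) ^ (1 / q) := by
  have hp := hpq.pos
  have hq := hpq.symm.pos
  have hsum : 1 / p + 1 / q = 1 := by
    have := hpq.inv_add_inv_eq_one
    rwa [← one_div, ← one_div] at this
  have h := ENNReal.lintegral_mul_le_Lp_mul_Lq μ hpq
    (f := fun x => w x ^ (1 / p) * f x) (g := fun x => w x ^ (1 / q) * g x)
    ((hw.pow_const _).mul hf) ((hw.pow_const _).mul hg)
  have e0 : ∀ x, w x * (f x * g x) = (w x ^ (1 / p) * f x) * (w x ^ (1 / q) * g x) := by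
    intro x
    have : w x = w x ^ (1 / p) * w x ^ (1 / q) := by
      rw [← ENNReal.rpow_add_of_nonneg _ _ (by positivity) (by positivity), hsum, ENNReal.rpow_one]
    calc w x * (f x * g x) = (w x ^ (1 / p) * w x ^ (1 / q)) * (f x * g x) := by rw [← this]
      _ = _ := by ring
  have e1 : ∀ x, (w x ^ (1 / p) * f x) ^ p = w x * f x ^ p := by
    intro x
    rw [ENNReal.mul_rpow_of_nonneg _ _ hp.le, ← ENNReal.rpow_mul, one_div_mul_cancel hp.ne',
      ENNReal.rpow_one]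
  have e2 : ∀ x, (w x ^ (1 / q) * g x) ^ q = w x * g x ^ q := by
    intro x
    rw [ENNReal.mul_rpow_of_nonneg _ _ hq.le, ← ENNReal.rpow_mul, one_div_mul_cancel hq.ne',
      ENNReal.rpow_one]
  simp only [Pi.mul_apply, e1, e2] at h
  simp only [e0]
  exact h

/-- a constant distributes over the two factors -/
theorem const_split {p q : ℝ} (hpq : p.HolderConjugate q) (c A B : ℝ≥0∞) :
    c * (A ^ (1 / p) * B ^ (1 / q)) = (c * A) ^ (1 / p) * (c * B) ^ (1 / q) := by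
  have hp := hpq.pos
  have hq := hpq.symm.pos
  have hsum : 1 / p + 1 / q = 1 := by
    have := hpq.inv_add_inv_eq_one
    rwa [← one_div, ← one_div] at this
  rw [ENNReal.mul_rpow_of_nonneg _ _ (by positivity : 0 ≤ 1 / p),
    ENNReal.mul_rpow_of_nonneg _ _ (by positivity : 0 ≤ 1 / q)]
  have : c = c ^ (1 / p) * c ^ (1 / q) := by
    rw [← ENNReal.rpow_add_of_nonneg _ _ (by positivity) (by positivity), hsum, ENNReal.rpow_one]
  calc c * (A ^ (1 / p) * B ^ (1 / q)) = (c ^ (1 / p) * c ^ (1 / q)) * (A ^ (1 / p) * B ^ (1 / q)) := by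
        rw [← this]
    _ = _ := by ring

variable (Z : Bool → Option O3 → ℂ → ℂ) (P : NUO.Par) (n n' : ℕ) (η η' : Crs)

/-- nonnegative insertions -/
abbrev InsE : Type := (r : ℕ) → (Fin r → Xo) → (a b : ℕ) → (Fin a → ℝ) × (Fin b → ℝ) → ℝ≥0∞

/-- the modulus of the term of a configuration, nonnegative insertion -/
def trE (φ : InsE) (r : ℕ) (O : Fin r → Xo) : ℝ≥0∞ :=
  if chgO O true ≤ n ∧ chgO O false ≤ n' then
    ‖wK Z P O‖ₑ * ((((n - chgO O true).factorial : ℝ≥0∞) * (n' - chgO O false).factorial)⁻¹ *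
      ∫⁻ x, ‖gK (gF Z P O) (η r O) (η' r O) (n - chgO O true) (n' - chgO O false) x‖ₑ *
        φ r O (n - chgO O true) (n' - chgO O false) x)
  else 0

/-- the functional with moduli, nonnegative insertion -/
def FE (φ : InsE) : ℝ≥0∞ :=
  ∑ r ∈ range (n + n' + 1), ((r.factorial : ℕ) : ℝ≥0∞)⁻¹ *
    ∫⁻ O : Fin r → Xo, trE Z P n n' η η' φ r O ∂(Measure.pi fun _ => nu)

/-- the integrand of the quanta is measurable for every configuration -/
def MG : Prop := ∀ (r : ℕ) (O : Fin r → Xo), AEMeasurable fun x =>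
  ‖gK (gF Z P O) (η r O) (η' r O) (n - chgO O true) (n' - chgO O false) x‖ₑ

/-- measurability of a nonnegative insertion in the quanta -/
def MI (φ : InsE) : Prop := ∀ (r : ℕ) (O : Fin r → Xo), AEMeasurable fun x =>
  φ r O (n - chgO O true) (n' - chgO O false) x

/-- measurability of the terms -/
def MO (φ : InsE) : Prop := ∀ r : ℕ,
  AEMeasurable (fun O : Fin r → Xo => trE Z P n n' η η' φ r O) (Measure.pi fun _ => nu)

variable {Z P n n' η η'}

theorem FA_eq_FE (Ψ : Ins) :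
    FA Z P n n' η η' Ψ = FE Z P n n' η η' (fun r O a b x => ‖Ψ r O a b x‖ₑ) := rfl

theorem FE_mono {φ ψ : InsE} (h : ∀ r O a b x, φ r O a b x ≤ ψ r O a b x) :
    FE Z P n n' η η' φ ≤ FE Z P n n' η η' ψ := by
  unfold FE
  refine Finset.sum_le_sum fun r _ => mul_le_mul' le_rfl (lintegral_mono fun O => ?_)
  unfold trE
  split_ifs
  · refine mul_le_mul' le_rfl (mul_le_mul' le_rfl (lintegral_mono fun x => ?_))
    exact mul_le_mul' le_rfl (h _ _ _ _ _)
  · exact le_rfl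

theorem trE_holder {p q : ℝ} (hpq : p.HolderConjugate q) (hG : MG Z P n n' η η') {φ ψ : InsE}
    (hφ : MI n n' φ) (hψ : MI n n' ψ) (r : ℕ) (O : Fin r → Xo) :
    trE Z P n n' η η' (fun r O a b x => φ r O a b x * ψ r O a b x) r O ≤
      trE Z P n n' η η' (fun r O a b x => φ r O a b x ^ p) r O ^ (1 / p) *
        trE Z P n n' η η' (fun r O a b x => ψ r O a b x ^ q) r O ^ (1 / q) := by
  have hp := hpq.pos
  have hq := hpq.symm.pos
  unfold trE
  split_ifs with hc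
  · rw [← const_split hpq, ← const_split hpq]
    exact mul_le_mul' le_rfl (mul_le_mul' le_rfl (holder_w hpq (hG r O) (hφ r O) (hψ r O)))
  · exact zero_le

/-- **Hölder** -/
theorem FE_holder {p q : ℝ} (hpq : p.HolderConjugate q) (hG : MG Z P n n' η η') {φ ψ : InsE}
    (hφ : MI n n' φ) (hψ : MI n n' ψ)
    (hφo : MO Z P n n' η η' (fun r O a b x => φ r O a b x ^ p))
    (hψo : MO Z P n n' η η' (fun r O a b x => ψ r O a b x ^ q)) :
    FE Z P n n' η η' (fun r O a b x => φ r O a b x * ψ r O a b x) ≤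
      FE Z P n n' η η' (fun r O a b x => φ r O a b x ^ p) ^ (1 / p) *
        FE Z P n n' η η' (fun r O a b x => ψ r O a b x ^ q) ^ (1 / q) := by
  have hp := hpq.pos
  have hq := hpq.symm.pos
  have h1 : ∀ r : ℕ, ((r.factorial : ℕ) : ℝ≥0∞)⁻¹ *
      ∫⁻ O : Fin r → Xo, trE Z P n n' η η' (fun r O a b x => φ r O a b x * ψ r O a b x) r O
        ∂(Measure.pi fun _ => nu) ≤
      (((r.factorial : ℕ) : ℝ≥0∞)⁻¹ * ∫⁻ O : Fin r → Xo,
        trE Z P n n' η η' (fun r O a b x => φ r O a b x ^ p) r O ∂(Measure.pi fun _ => nu)) ^ (1 / p) *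
      (((r.factorial : ℕ) : ℝ≥0∞)⁻¹ * ∫⁻ O : Fin r → Xo,
        trE Z P n n' η η' (fun r O a b x => ψ r O a b x ^ q) r O ∂(Measure.pi fun _ => nu)) ^ (1 / q) := by
    intro r
    rw [← const_split hpq]
    refine mul_le_mul' le_rfl ((lintegral_mono fun O => trE_holder hpq hG hφ hψ r O).trans ?_)
    have h2 := ENNReal.lintegral_mul_le_Lp_mul_Lq (Measure.pi fun _ : Fin r => nu) hpq
      ((hφo r).pow_const (1 / p)) ((hψo r).pow_const (1 / q))
    simp only [Pi.mul_apply, ← ENNReal.rpow_mul, one_div_mul_cancel hp.ne',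
      one_div_mul_cancel hq.ne', ENNReal.rpow_one] at h2
    exact h2
  unfold FE
  refine (Finset.sum_le_sum fun r _ => h1 r).trans ?_
  have h3 := ENNReal.inner_le_Lp_mul_Lq (range (n + n' + 1))
    (fun r => (((r.factorial : ℕ) : ℝ≥0∞)⁻¹ * ∫⁻ O : Fin r → Xo,
        trE Z P n n' η η' (fun r O a b x => φ r O a b x ^ p) r O ∂(Measure.pi fun _ => nu)) ^ (1 / p))
    (fun r => (((r.factorial : ℕ) : ℝ≥0∞)⁻¹ * ∫⁻ O : Fin r → Xo,
        trE Z P n n' η η' (fun r O a b x => ψ r O a b x ^ q) r O ∂(Measure.pi fun _ => nu)) ^ (1 / q))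
    hpq
  simp only [← ENNReal.rpow_mul, one_div_mul_cancel hp.ne', one_div_mul_cancel hq.ne',
    ENNReal.rpow_one] at h3
  exact h3

/-- the power of the modulus as an insertion -/
def pw (p : ℝ) (Ψ : Ins) : Ins := fun r O a b x => ((‖Ψ r O a b x‖ ^ p : ℝ) : ℂ)

theorem enorm_pw {p : ℝ} (hp : 0 ≤ p) (Ψ : Ins) (r : ℕ) (O : Fin r → Xo) (a b : ℕ)
    (x : (Fin a → ℝ) × (Fin b → ℝ)) : ‖pw p Ψ r O a b x‖ₑ = ‖Ψ r O a b x‖ₑ ^ p := by
  unfold pw
  rw [← ofReal_norm, norm_real, Real.norm_of_nonneg (by positivity), ← ofReal_norm,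
    ENNReal.ofReal_rpow_of_nonneg (norm_nonneg _) hp]

/-- **Hölder for the functional with moduli** -/
theorem FA_holder {p q : ℝ} (hpq : p.HolderConjugate q) (hG : MG Z P n n' η η') {Ψ Φ : Ins}
    (hφ : MI n n' (fun r O a b x => ‖Ψ r O a b x‖ₑ)) (hψ : MI n n' (fun r O a b x => ‖Φ r O a b x‖ₑ))
    (hφo : ∀ r : ℕ, AEMeasurable (fun O : Fin r → Xo => trA Z P n n' η η' (pw p Ψ) r O)
      (Measure.pi fun _ => nu))
    (hψo : ∀ r : ℕ, AEMeasurable (fun O : Fin r → Xo => trA Z P n n' η η' (pw q Φ) r O)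
      (Measure.pi fun _ => nu)) :
    FA Z P n n' η η' (fun r O a b x => Ψ r O a b x * Φ r O a b x) ≤
      FA Z P n n' η η' (pw p Ψ) ^ (1 / p) * FA Z P n n' η η' (pw q Φ) ^ (1 / q) := by
  have hp := hpq.pos
  have hq := hpq.symm.pos
  have e1 : (fun (r : ℕ) (O : Fin r → Xo) (a b : ℕ) (x : (Fin a → ℝ) × (Fin b → ℝ)) =>
      ‖pw p Ψ r O a b x‖ₑ) = fun r O a b x => ‖Ψ r O a b x‖ₑ ^ p := by
    funext r O a b x
    exact enorm_pw hp.le Ψ r O a b x
  have e2 : (fun (r : ℕ) (O : Fin r → Xo) (a b : ℕ) (x : (Fin a → ℝ) × (Fin b → ℝ)) =>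
      ‖pw q Φ r O a b x‖ₑ) = fun r O a b x => ‖Φ r O a b x‖ₑ ^ q := by
    funext r O a b x
    exact enorm_pw hq.le Φ r O a b x
  have e3 : (fun (r : ℕ) (O : Fin r → Xo) (a b : ℕ) (x : (Fin a → ℝ) × (Fin b → ℝ)) =>
      ‖Ψ r O a b x * Φ r O a b x‖ₑ) = fun r O a b x => ‖Ψ r O a b x‖ₑ * ‖Φ r O a b x‖ₑ := by
    funext r O a b x
    exact enorm_mul _ _
  rw [FA_eq_FE, FA_eq_FE, FA_eq_FE, e1, e2, e3]
  refine FE_holder hpq hG hφ hψ ?_ ?_
  · rw [← e1]
    exact hφo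
  · rw [← e2]
    exact hψo

end PBF

end
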