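import Pool.Agent.PB.TRsD2
import Pool.Agent.PB.HolU

/-!
# Plan B, (TR), s-path: the functional with moduli and nonnegative insertions

* `FE_congrN`: `FE` depends on the moduli of the one body functions on the curve and of the objects;
* **`FE_WL`**: `FE (RZW (R0 ..) w w') φ = FE (expZ (ZLw ..) (DT w w') 1) φ`.
-/

set_option autoImplicit false
set_option linter.unusedSectionVars false
set_option linter.unusedVariables false

noncomputable section

open Complex MeasureTheory Finset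
open scoped ENNReal

namespace PBTs

open NUO NUP1 NUCR NUP1S NUP1S.Ab NUP1S.AbC NUGC PBF
open PBX (R0)

section congr

variable {Z Z' : Bool → Option O3 → ℂ → ℂ} {P : NUO.Par} {n n' : ℕ} {η η' : Crs}

theorem gK_congrN {r : ℕ} {O : Fin r → Xo} {e e' : ℝ → ℝ}
    (h : ∀ s t, ‖Z s none (NUO.pA e t)‖ = ‖Z' s none (NUO.pA e t)‖) {a b : ℕ}
    (x : (Fin a → ℝ) × (Fin b → ℝ)) :
    ‖PBF.gK (gF Z P O) e e' a b x‖ₑ = ‖PBF.gK (gF Z' P O) e e' a b x‖ₑ := by
  rw [← ofReal_norm, ← ofReal_norm]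
  congr 1
  unfold PBF.gK Fc
  rw [Fintype.prod_sum_type, Fintype.prod_sum_type]
  have e1 : ∀ (s : Bool) (t : ℝ), ‖hh p0 (gF Z P O) (crvC s NUP1.l (dA e) (dA e')) t‖ =
      ‖hh p0 (gF Z' P O) (crvC s NUP1.l (dA e) (dA e')) t‖ := by
    intro s t
    rw [hh_gF, hh_gF]
    simp only [norm_mul]
    rw [h]
  simp only [norm_mul, norm_prod, cCt, Sum.elim_inl, Sum.elim_inr, e1]

theorem wK_congrN {r : ℕ} {O : Fin r → Xo}
    (h : ∀ i, ‖PBF.obK Z P.jL (ei P O i) (rr P O i) (O i)‖ =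
      ‖PBF.obK Z' P.jL (ei P O i) (rr P O i) (O i)‖) :
    ‖PBF.wK Z P O‖ₑ = ‖PBF.wK Z' P O‖ₑ := by
  rw [← ofReal_norm, ← ofReal_norm]
  congr 1
  unfold PBF.wK
  rw [norm_mul, norm_mul, norm_prod, norm_prod, Finset.prod_congr rfl fun i _ => h i]

/-- **the functional with moduli depends on moduli** -/
theorem FE_congrN (φ : InsE) (hq : ∀ r ≤ n + n', ∀ᵐ O ∂(Measure.pi fun _ : Fin r => nu),
      ∀ s t, ‖Z s none (NUO.pA (η r O) t)‖ = ‖Z' s none (NUO.pA (η r O) t)‖)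
    (ho : ∀ r (O : Fin r → Xo) i, ‖PBF.obK Z P.jL (ei P O i) (rr P O i) (O i)‖ =
      ‖PBF.obK Z' P.jL (ei P O i) (rr P O i) (O i)‖) :
    PBF.FE Z P n n' η η' φ = PBF.FE Z' P n n' η η' φ := by
  unfold PBF.FE
  refine Finset.sum_congr rfl fun r hr => ?_
  congr 1
  have hr' : r ≤ n + n' := by
    have := Finset.mem_range.1 hr
    omega
  refine lintegral_congr_ae ?_
  filter_upwards [hq r hr'] with O hO
  unfold PBF.trE
  split_ifs
  · rw [wK_congrN (ho r O)]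
    simp only [gK_congrN hO]
  · rfl

end congr

theorem norm_sgk (k : Option O3) : ‖sgk k‖ = 1 := by
  rcases k with _ | k
  · simp [sgk]
  · cases k <;> simp [sgk]

section WL

variable {w w' : ℂ} (hw : w.re = 5 / 4 * NUP1.l) (hw' : w'.re = 5 / 4 * NUP1.l)
include hw hw'

theorem norm_ZW_pt (m : ℕ) (β : ℝ) (ex ex0 : List ℂ) (b : Bool) {k : Option O3} {u : ℂ}
    (hu : At k u) : ‖ZW m β ex ex0 w w' b k u‖ =
      ‖expZ (ZLw m β ex ex0 w w') (DT w w') 1 b k u‖ := by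
  rw [ZW_pt hw hw' m β ex ex0 b hu]
  unfold Zm sgF
  rw [norm_mul, norm_sgk, mul_one]

theorem norm_ZW_obK (m : ℕ) (β : ℝ) (ex ex0 : List ℂ) {jL e ρ : ℝ} (hO : OPar jL e ρ) (x : Xo) :
    ‖PBF.obK (ZW m β ex ex0 w w') jL e ρ x‖ =
      ‖PBF.obK (expZ (ZLw m β ex ex0 w w') (DT w w') 1) jL e ρ x‖ := by
  rw [ZW_obK hw hw' m β ex ex0 hO x, obK_mul, norm_mul, obF_sgF, norm_pow, norm_neg, norm_one,
    one_pow, mul_one]

variable {P : NUO.Par} (hP : ParC P) {n n' : ℕ} {η η' : Crs}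
include hP

/-- **nonnegative insertions** -/
theorem FE_WL (m : ℕ) (β : ℝ) (ex ex0 : List ℂ)
    (hη : ∀ r ≤ n + n', ∀ᵐ O ∂(Measure.pi fun _ : Fin r => nu), ∀ t, |η r O t| ≤ NUP1.l / 5)
    (φ : InsE) : PBF.FE (PBR.RZW (R0 m β ex ex0) w w') P n n' η η' φ =
      PBF.FE (expZ (ZLw m β ex ex0 w w') (DT w w') 1) P n n' η η' φ := by
  rw [ZW_RZW]
  refine FE_congrN φ (fun r hr => ?_) fun r O i =>
    norm_ZW_obK hw hw' m β ex ex0 (OPar.of hP O i) _
  filter_upwards [hη r hr] with O hO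
  exact fun s t => norm_ZW_pt hw hw' m β ex ex0 s (at_A (hO t))

end WL

end PBTs

end
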