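import Pool.Agent.PB.UXR
import Pool.Agent.PB.StatU

/-!
# Plan B: the bounds `UX` of the regular main class at fixed half quanta, unconditional

* `statU0 : StatU`; **`ux_famR0 : UX (famR nrR)`**.
-/

set_option autoImplicit false

noncomputable section

namespace PBI

open PBU

/-- products of linear statistics are admissible -/
theorem statU0 [NUSea.Sea] : StatU := fun _ he he1 _ hJ C0 y₁ y₂ h1 h2 k _ _ hCg hε =>
  PBZ.statU he he1 hJ C0 y₁ y₂ h1 h2 k hCg hε

attribute [local instance] NUSea.seaP

/-- **U1, U3, U4 of the regular main class at fixed half quanta** -/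
theorem ux_famR0 : UX (famR nrR) := ux_famR_nr statU0

/-- the same with any normaliser of the right size -/
theorem ux_famR_of {nr : ℕ → ℂ} {Cn : ℝ}
    (hn : ∀ k, 1 ≤ k → ‖nr k‖ * Real.exp ((k : ℝ) ^ 2 * PBVR.EMF0) ≤ Cn) : UX (famR nr) :=
  ux_famR statU0 hn

end PBI

end
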