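import Pool.Agent.PB.TRsV
import Pool.Agent.PB.TRsD3
import Pool.Agent.PB.TRsD4
import Pool.Agent.PB.UXRF
import Pool.Agent.PB.TRH2
import Pool.Agent.PB.TRMean

/-!
# (TR), right end of the s-path: the bounds `UX` of the family `famW`

* `kap_v`: `exp (-κv k τ) = (EM (zt τ) (wt τ.1) (wt τ.2))⁻¹ ^ (k - 1)`;
* `Pf_famW`: the normaliser of `famW` is a constant times the normaliser of `famR nrR`;
* `FE_famW`: the functionals with moduli are those of the class `W W`;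
* **`ux_famW : UX famW`**.
-/

set_option autoImplicit false
set_option linter.unusedSectionVars false

noncomputable section

open Complex MeasureTheory Finset Filter
open scoped ENNReal

namespace PBTW

open NUGC PBO PBF PBR PBX PBU PBI PBTV
open NUO NUP1 NUP1S NUP1S.Ab NUP1S.AbC
open PBT3 (wt zt zz k1T wt_re)
open PBTs (seaT DT DT_le DT_Dl measurable_DT FE_WL)

/-- the logarithm of the ratio is integrable against the sea -/
theorem int_P_DT {w w' : ℂ} (hw : w.re = 5 / 4 * NUP1.l) (hw' : w'.re = 5 / 4 * NUP1.l) (b : Bool) :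
    Integrable fun s : ℝ => (NUMF.P s : ℂ) * DT w w' b none (NUP1.l + I * s) := by
  have hl := NUP1.l_pos
  obtain ⟨C, -, h⟩ := DT_le
  have H := fun s : ℝ => h w w' (max |w.im| |w'.im|) hw hw' (le_max_left _ _) (le_max_right _ _) b
    none (NUP1.l + I * s) (by
      show 3 / 5 * NUP1.l ≤ _ ∧ _ ≤ 6 / 5 * NUP1.l
      simp
      constructor <;> linarith)
  have hm : Measurable fun s : ℝ => DT w w' b none (NUP1.l + I * s) :=
    (measurable_DT w w' b none).comp (by fun_prop)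
  exact NUMF.P_integrable.ofReal.mul_bdd hm.aestronglyMeasurable (Eventually.of_forall H)

/-- **the mean of the statistic of the quanta** -/
theorem kap_v (k : ℕ) (τ : ℝ × ℝ) :
    Complex.exp (-κv k τ) = (PBTRat.EM (zt τ) (wt τ.1) (wt τ.2))⁻¹ ^ (k - 1) := by
  have hl := NUP1.l_pos
  have h1 := wt_re τ.1
  have h2 := wt_re τ.2
  have hz : (zt τ).re = -(NUP1.l / 4) := PBT3.zt_re τ
  have key := PBTn.mean_pow (z := zt τ) (w := wt τ.1) (w' := wt τ.2)
    (by rw [hz]; show -NUP1.l < _; linarith) (by rw [hz]; show _ < 4 * NUP1.l; linarith)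
    (by rw [h1]; show NUP1.l < 5 / 4 * NUP1.l; linarith)
    (by rw [h1]; show 5 / 4 * NUP1.l < 4 * NUP1.l; linarith)
    (by rw [h2]; show NUP1.l < 5 / 4 * NUP1.l; linarith)
    (by rw [h2]; show 5 / 4 * NUP1.l < 4 * NUP1.l; linarith)
    (D := fun b u => DT (wt τ.1) (wt τ.2) b none u) (fun s => by
      have e1 := DT_Dl (wt τ.1) (wt τ.2) true (s : ℂ)
      have e2 := DT_Dl (wt τ.1) (wt τ.2) false (s : ℂ)
      exact (congrArg₂ (· + ·) e1 e2).trans (PBT3.Dl_GM (wt τ.1) (wt τ.2) s))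
    (fun a => int_P_DT h1 h2 a) (k - 1)
  refine Eq.trans ?_ (key.trans rfl)
  congr 2
  unfold κv PBF.kap
  refine Finset.sum_congr rfl fun b _ => integral_congr_ae (Eventually.of_forall fun t => ?_)
  simp only
  unfold rv nk seaT
  rw [NUMF.Pc_ofReal]
  push_cast
  rfl

/-- the constant between the two normalisers -/
def cW : ℂ := PBTRF.u0⁻¹ * (2 * Real.pi : ℂ)⁻¹ ^ 2

/-- **the normaliser of `famW`** -/
theorem Pf_famW {k : ℕ} (hk : 1 ≤ k) (τ : ℝ × ℝ) :
    famW.Pf k τ = (famR fun k => cW * nrR k).Pf k τ := by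
  have h := PBTRF.KK_eq (fun _ _ => 1) hk τ
  have h1 : PBTRF.KK (fun _ _ => 1) k τ = nrR k * (2 * Real.pi : ℂ)⁻¹ ^ 2 * kR k τ * 1 := by
    unfold PBTRF.KK kR
    rw [PBTRF.nr_eq, PBTRF.wt_vl, PBTRF.wt_vl]
  have h2 : PBTRF.Rk (fun _ _ => 1) k τ = Complex.exp (-κv k τ) * Pv k τ := by
    rw [kap_v]
    unfold PBTRF.Rk Pv
    ring
  rw [h1, h2] at h
  show k1T τ * (Complex.exp (-κv k τ) * Pv k τ) = cW * nrR k * kR k τ
  unfold cW
  have h3 := PBTRF.u0_ne
  have h4 : PBTRF.u0⁻¹ * (PBTRF.u0 * (k1T τ * (Complex.exp (-κv k τ) * Pv k τ))) =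
      k1T τ * (Complex.exp (-κv k τ) * Pv k τ) := by
    rw [← mul_assoc, inv_mul_cancel₀ h3, one_mul]
  rw [← h4, ← h]
  ring

attribute [local instance] NUSea.seaP

/-- **the functionals with moduli** -/
theorem FE_famW (ep e1 J : ℝ) (m : ℕ) (τ : ℝ × ℝ) (n : ℕ) (hc : ∀ t, |etaC e1 J m m t| ≤ NUP1.l / 5)
    (φ : InsE) :
    FE (famW.Z ep m τ) (NUSea.O.par0 m) n n (cr e1 J m) (cr' e1 J m) φ =
      FE (RZW (R0 (m - 1) (beC ep) [I, -I] []) (vl (5 / 4 * l) τ.1) (vl (5 / 4 * l) τ.2))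
        (NUSea.O.par0 m) n n (cr e1 J m) (cr' e1 J m) φ := by
  rw [← PBTRF.wt_vl, ← PBTRF.wt_vl]
  exact (FE_WL (wt_re τ.1) (wt_re τ.2) (ParC_par0 m) (m - 1) (beC ep) [I, -I] []
    (fun r _ => Eventually.of_forall fun O t => hc t) φ).symm

/-- the size of the normaliser -/
theorem norm_cW {k : ℕ} (hk : 1 ≤ k) :
    ‖cW * nrR k‖ * Real.exp ((k : ℝ) ^ 2 * PBVR.EMF0) = ‖cW‖ * (Real.sin l)⁻¹ := by
  rw [norm_mul, mul_assoc, norm_nrR hk]

/-- **U1, U3, U4 of the right end of (TR)** -/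
theorem ux_famW : UX famW := by
  have hl := NUP1.l_pos
  intro p K ε hε
  obtain ⟨a0, ha0, h0⟩ := ux_famR_of (nr := fun k => cW * nrR k) (fun k hk => (norm_cW hk).le) p K ε hε
  refine ⟨min a0 (3 / 100), lt_min ha0 (by norm_num), fun ep e1 J hep he1 hJ hsm => ?_⟩
  have hexpJ := Real.exp_pos (-(2 * Real.pi * J))
  have hs1 := hsm.trans (min_le_left _ _)
  have hs2 := hsm.trans (min_le_right _ _)
  have h0 := h0 ep e1 J hep he1 hJ hs1
  obtain ⟨mc, hmc, Hc⟩ := curOKC (ep := 1 / 100) he1 (by linarith) hJ (by norm_num)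
  intro C0 y₁ y₂ hy1 hy2
  obtain ⟨m0, h0⟩ := h0 C0 y₁ y₂ hy1 hy2
  refine ⟨max m0 mc, fun m hm τ hτ ρ hρ B hB w hw g g' hg => ?_⟩
  have m1 : m0 ≤ m := (le_max_left _ _).trans hm
  have m2 : mc ≤ m := (le_max_right _ _).trans hm
  have hm1 : 1 ≤ m := hmc.trans m2
  have hmp : (0 : ℝ) < m := by exact_mod_cast hm1
  have hL : 0 ≤ Real.log m := Real.log_nonneg (by exact_mod_cast hm1)
  have hc : ∀ t, |etaC e1 J m m t| ≤ NUP1.l / 5 := fun t =>
    ((Hc m m2 m (by linarith)).h1 t).trans (by linarith)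
  have hok : (famR fun k => cW * nrR k).ok m τ := by
    have h : 2 * |τ.1| + 2 * |τ.2| + |τ.1 - τ.2| / 2 ≤ 17 / 40 * Real.log m := hτ
    have h1 := abs_nonneg τ.1
    have h2 := abs_nonneg τ.2
    have h3 := abs_nonneg (τ.1 - τ.2)
    constructor <;> linarith
  refine le_trans ?_ (h0 m m1 τ hok ρ hρ B hB w hw g g' hg)
  rw [FS_eq, FS_eq, Pf_famW hm1]
  refine mul_le_mul' le_rfl ?_
  refine (Finset.sum_congr rfl fun n _ => FE_famW ep e1 J m τ n hc _).trans_le ?_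
  exact Finset.sum_le_sum_of_subset (Finset.range_subset_range.2 (by
    show 2 * (m - 1) + 1 ≤ 2 * m + 1
    omega))

end PBTW

end
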