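import Pool.Agent.PB.TRsF
import Pool.Agent.PB.TRsN
import Pool.Agent.PB.TRsG
import Pool.Agent.PB.TRsL
import Pool.Agent.PB.TRsR

/-!
# Plan B, (TR): (H3) between the two ends of the s-path, no hypothesis (helper55)
-/

set_option autoImplicit false

noncomputable section

open Complex MeasureTheory Finset Filter
open scoped ENNReal

namespace PBTV

open NUO NUP1 NUP1S NUP1S.Ab NUGC PBF PBU PBTs

attribute [local instance] NUSea.seaP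

/-- the data of the mean statement and of the path, all parameters -/
theorem mpp_w (ep e1 J : ℝ) (hep : 0 < ep) (hep1 : ep ≤ 1 / 100) (he1 : 0 < e1)
    (he11 : e1 ≤ 1 / 100) (hJ : 0 ≤ J) : MeanP ep e1 J ∧ PathP ep e1 J := by
  obtain ⟨C, -, hp⟩ := path_v
  obtain ⟨k1, -, h1⟩ := mean_v hep hep1 he1 he11 hJ
  obtain ⟨k2, h2⟩ := hp ep e1 J hep hep1 he1 he11 hJ
  exact ⟨⟨k1, fun k hk τ s => ⟨_, h1 k hk τ s⟩⟩, k2, fun k hk τ _ => ⟨_, h2 k hk τ⟩⟩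

/-- the pointwise bounds of the error -/
theorem gp_w {ep : ℝ} (h0 : 0 < ep) (h1 : ep ≤ 1 / 100) : ∃ C : ℝ, 1 ≤ C ∧ ∃ k0 : ℕ, ∀ k ≥ k0,
    ∀ τ : ℝ × ℝ, okv k τ → ∀ s : ℝ, 0 ≤ s → s ≤ 1 → G1P ep C k τ s ∧ G2P ep C k τ s := by
  obtain ⟨C, hC, k0, h⟩ := G12 h0 h1
  exact ⟨C, hC, k0, fun k hk τ _ s h0 h1 => h k hk τ s h0 h1⟩

/-- **(H3) between the two ends of the s-path** -/
theorem h3_all {c1 : ℝ} (hc1 : c1 < 3 / 4) :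
    ∃ a0 : ℝ, 0 < a0 ∧ ∀ ep e1 J : ℝ, 0 < ep → ep ≤ 1 / 100 → 0 < e1 → e1 ≤ 1 / 100 → 0 ≤ J →
      Real.exp (-(2 * Real.pi * J)) + 3 * e1 + 3 * ep ≤ a0 →
      ∀ᶠ k : ℕ in atTop, ∀ τ : ℝ × ℝ, okv k τ →
        ‖PBT3.k1T τ‖ * ‖nFv ep e1 J k τ 1 - Complex.exp (PBT3.gF τ) * nFv ep e1 J k τ 0‖ ≤
          (k : ℝ) ^ (-c1) :=
  h3_v ux_famV PBTW.ux_famW mpp_w (fun _ h0 h1 => gp_w h0 h1) hc1

end PBTV

end
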