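import Pool.Agent.PB.TRFin3
import Pool.Agent.PB.TRsZ

/-!
# (TR), top level, no hypothesis

* **`trP_all`**: `FunO c f0 g`, `3 / 8 < c` give `TRP nrm`; (H3) from `PBTV.h3_all`.
-/

set_option autoImplicit false

noncomputable section

open Complex MeasureTheory Set Filter Topology
open scoped ENNReal

namespace PBTRF

open NUP1 (l)
open PBF (FAN CfN wN mN)
open Pool.Agent.PB (f0)
open PBT3 (gF k1T)
open PBTR (nearS winW)
open PBU (cr cr' FS UX UB)
open PBTV (Zv nFv okv famV)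

attribute [local instance] NUSea.seaP

/-- **(TR)** -/
theorem trP_all {g : ℕ → ℂ} {c : ℝ} (hF : PBV.FunO c f0 g) (hc : 3 / 8 < c) :
    PBM.TRP PBM.nrm := by
  obtain ⟨ep0, hep0, -, h1⟩ := h1_SR0 (c0 := 13 / 32) (by norm_num)
  obtain ⟨κ0, hκ, hκ1, h2⟩ := h2_SR0 (e := 1 / 180) (by norm_num)
  obtain ⟨a1, ha1, h3⟩ := PBTV.h3_all (c1 := 1 / 2) (by norm_num)
  obtain ⟨a2, ha2, h4⟩ := PI_ev PBTV.ux_famV
  obtain ⟨a, ha⟩ : ∃ a, a = min (min ep0 κ0) (min a1 a2) := ⟨_, rfl⟩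
  have ha0 : 0 < a := by rw [ha]; exact lt_min (lt_min hep0 hκ) (lt_min ha1 ha2)
  have q1 : a ≤ ep0 := by rw [ha]; exact (min_le_left _ _).trans (min_le_left _ _)
  have q2 : a ≤ κ0 := by rw [ha]; exact (min_le_left _ _).trans (min_le_right _ _)
  have q3 : a ≤ a1 := by rw [ha]; exact (min_le_right _ _).trans (min_le_left _ _)
  have q4 : a ≤ a2 := by rw [ha]; exact (min_le_right _ _).trans (min_le_right _ _)
  obtain ⟨ep, J, he, he', hJ, hs⟩ := PBU.exists_small ha0
  have hexp := Real.exp_pos (-(2 * Real.pi * J))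
  have he1 : ep ≤ 1 / 100 := he'.trans (q2.trans hκ1)
  have h1 := h1 ep he (he'.trans q1) ep he he1 J hJ
  have hm := hm_SR0 (e1 := ep) (J := J) he he1 he he1 hJ
  have h2 := h2 ep he (he'.trans q2) ep he (he'.trans q2) J hJ (by linarith)
  have h3 := h3_of (e1 := ep) he he1 he he1 hJ (h4 ep ep J he he hJ (hs.trans q4))
    (h3 ep ep J he he1 he he1 hJ (hs.trans q3))
  refine trP_of (S := SR0 ep ep J) (V := fun k => winW (3 / 8) k) (d := 1 / 20) (c0 := 13 / 32)
    (c1 := 1 / 2) (u := PBM.ph) hF hc (Eventually.of_forall PBM.norm_ph) (by norm_num) le_rfl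
    (by norm_num) (by norm_num) (fun k => PBTR.measurableSet_winW _ _)
    (Eventually.of_forall fun k => PBTR.nearS_sub_win le_rfl k) ?_ h1 ?_ h3
  · filter_upwards [hm] with k hk
    exact hk.restrict
  · filter_upwards [h2] with k hk τ hτ
    have e : (1 / 20 : ℝ) / 9 = 1 / 180 := by norm_num
    rw [e]
    exact hk τ hτ

end PBTRF

end
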