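import Pool.Agent.PB.Close0
import Pool.Agent.PB.CloseE
import Pool.Agent.PB.TRFin5

/-!
# Plan B closed (helper26, helper85)

* `trp` : the transfer `TRP nrm`, no hypothesis;
* `w0_low` : the physical two-point function of the circumference ring;
* `hLow61` : `HLow (61 / 48)`.
-/

set_option autoImplicit false

noncomputable section

open Filter Topology

namespace PBC

/-- **(TR)** -/
theorem trp : PBM.TRP PBM.nrm := PBTRF.trP_all PBLX.funO_half (by norm_num)

/-- the physical two-point function, lower bound -/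
theorem w0_low : ∀ ε : ℝ, 0 < ε → ∃ A : ℝ, 0 < A ∧
    ∀ᶠ k : ℕ in atTop, A * (k : ℝ) ^ (-(5 / 24) - ε) ≤ PBM.W0r k := w0_T trp

/-- **`HLow (61 / 48)`** -/
theorem hLow61 : HexObs.BAR.HLow (61 / 48) := hLow_T trp

end PBC

end
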