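import Pool.Agent.PB.TRFin3
import Pool.Agent.PB.TRsG

/-!
# (TR), top level: the pointwise bounds of the error

* `gP_v`: `GP` from `PBTV.G12`;
* **`trP_w`**: `FunO` and `MPP` give `TRP nrm`.
-/

set_option autoImplicit false

noncomputable section

namespace PBTRF

open PBTV (okv)

attribute [local instance] NUSea.seaP

theorem gP_v : GP := fun _ep h0 h1 => by
  obtain ⟨C, hC, k0, h⟩ := PBTV.G12 h0 h1
  exact ⟨C, hC, k0, fun k hk τ _ s h0 h1 => h k hk τ s h0 h1⟩

/-- **(TR)** from the data of the mean statement -/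
theorem trP_w {g : ℕ → ℂ} {c : ℝ} (hF : PBV.FunO c Pool.Agent.PB.f0 g) (hc : 3 / 8 < c)
    (hM : MPP) : PBM.TRP PBM.nrm := trP_v hF hc hM gP_v

end PBTRF
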