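import Pool.Agent.PB.CloseF
import Pool.Agent.PB.CloseA
import Pool.Agent.PB.CloseN
import Pool.Agent.PB.TRFin4
import Pool.Agent.GLow.LinkW
import Pool.Agent.GLD.WalksMain
import Pool.Agent.NUGC.LegAll

/-!
# Plan B: the conclusion from the last open inputs (helper26, helper85)

* `trp_E` : `(E')` and the mean field of the path give `TRP nrm`;
* `w0_T` : the lower bound of the physical two-point function;
* `hLow_T` : `HLow (61 / 48)`.
-/

set_option autoImplicit false

noncomputable section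

open Filter Topology
open Pool.Agent.PB (f0 fx)

namespace PBC

/-- the transfer -/
theorem trp_E (hE : PBV.E2 (1 / 2) fun j z x => fx j x z) (hMP : PBTRF.MPP) :
    PBM.TRP PBM.nrm :=
  PBTRF.trP_w (funO (by norm_num) (by norm_num) hE) (by norm_num) hMP

/-- the lower bound of the physical two-point function -/
theorem w0_T (hT : PBM.TRP PBM.nrm) : ∀ ε : ℝ, 0 < ε → ∃ A : ℝ, 0 < A ∧
    ∀ᶠ k : ℕ in atTop, A * (k : ℝ) ^ (-(5 / 24) - ε) ≤ PBM.W0r k :=
  PBM.w0_low aprP nrmP hT

/-- **the lower bound of the number of walks, exponent `61 / 48`** -/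
theorem hLow_T (hT : PBM.TRP PBM.nrm) : HexObs.BAR.HLow (61 / 48) := by
  refine HexObs.GLow.hLow_of_WLow Pool.Agent.GLD.walks NUGC.hUp ?_
  refine HexObs.GLow.wLow_of_all fun ε hε => ?_
  obtain ⟨A, hA, h⟩ := w0_T hT ε hε
  obtain ⟨m0, hm0⟩ := eventually_atTop.1 h
  refine ⟨A, m0, hA, fun k hk h1 => ?_⟩
  have := hm0 k hk
  rwa [PBM.W0r_eq h1] at this

end PBC

end
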