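import Pool.Agent.GLow.LinkG
import Pool.Agent.PB.Main

/-!
# Plan B: from the lower bound of the physical two-point function to half plane walks and the exponent gamma

`W0Low` is the conclusion of `PBM.w0_low`.
-/

set_option autoImplicit false

noncomputable section

open Finset Filter Topology

namespace PBC

open HexObs

/-- the lower bound of the physical two-point function (conclusion of `PBM.w0_low`) -/
def W0Low : Prop := ∀ ε : ℝ, 0 < ε → ∃ A : ℝ, 0 < A ∧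
  ∀ᶠ k : ℕ in atTop, A * (k : ℝ) ^ (-(5 / 24) - ε) ≤ PBM.W0r k

theorem wLow_of (h : W0Low) : GLow.WLow := by
  refine GLow.wLow_of_all fun ε hε => ?_
  obtain ⟨A, hA, h1⟩ := h ε hε
  obtain ⟨m0, h2⟩ := eventually_atTop.1 h1
  refine ⟨A, m0, hA, fun k hk h3 => ?_⟩
  have h4 := h2 k hk
  rwa [PBM.W0r_eq h3] at h4

/-- **half plane walks from below** -/
theorem hLow_of (h : W0Low) : BAR.HLow (61 / 48) := GLow.hLow_48 (wLow_of h)

/-- **the exponent gamma, both sides** -/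
theorem gamma_of (h : W0Low) : ∀ ε : ℝ, 0 < ε → ∃ C : ℝ, 0 < C ∧ ∀ n : ℕ, 1 ≤ n →
    C⁻¹ * (n : ℝ) ^ (43 / 32 - ε) ≤ ∑ k ∈ range (n + 1), (aB k : ℝ) / muB ^ k ∧
    ∑ k ∈ range (n + 1), (aB k : ℝ) / muB ^ k ≤ C * (n : ℝ) ^ (43 / 32 + ε) :=
  GLow.gamma_of_WLow (wLow_of h)

end PBC

end
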