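import Pool.Agent.PB.ClsWd

/-!
# Plan B: bounds of the weights of families of objects, any total charge

`co a` = type of a constituent, `lch A` = signed charge of a list of constituents; `ppC_le`,
`wCx_le`: bounds of the pair weights and of the weight of a family by the neutral energy
inequality, total charge `q0`.
-/

set_option autoImplicit false
set_option linter.unusedSectionVars false

noncomputable section

open Complex MeasureTheory Finset
open scoped Real ENNReal

namespace PBC

open NUP1 NUO NUP1S NUP1S.Mg NUP1S.Ab NUP1S.AbG NUP1S.AbC NURow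
open NUP1.Bd (wt Ob)

/-- type of a constituent -/
def co (a : Part) : CO := (a.1, if a.2.1 then .S else .A)

theorem pp_co (a b : Part) : pp a b = gz (co a) (co b) (a.2.2 - b.2.2) := by
  obtain ⟨s, t, z⟩ := a
  obtain ⟨s', t', z'⟩ := b
  rw [gz_pp]
  cases t <;> cases t' <;> rfl

theorem abs_sc_co (a : Part) : |sc (co a)| ≤ 2 := by
  obtain ⟨s, t, z⟩ := a
  cases s <;> cases t <;> simp [co, sc, Bd.chg]

/-- signed charge of a list of constituents -/
def lch (A : List Part) : ℝ := (A.map fun a => sc (co a)).sum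

theorem lch_cons (a : Part) (A : List Part) : lch (a :: A) = sc (co a) + lch A := by
  unfold lch
  rw [List.map_cons, List.sum_cons]

theorem ppC_single_le {C T : ℝ} (hC : 0 ≤ C) (a : Part) : ∀ B : List Part,
    (∀ b ∈ B, ‖pp a b‖ ≤ C * Real.exp (2 * (sc (co a) * sc (co b)) * T)) →
    ‖ppC [a] B‖ ≤ C ^ B.length * Real.exp (2 * (sc (co a) * lch B) * T)
  | [], _ => by
      rw [ppC_nil_right]
      simp [lch]
  | b :: B, h => by
      have h1 := ppC_single_le hC a B fun b' hb' => h b' (List.mem_cons_of_mem _ hb')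
      have h2 := h b List.mem_cons_self
      rw [ppC_single] at h1 ⊢
      rw [List.map_cons, List.prod_cons, norm_mul, lch_cons, List.length_cons]
      refine (mul_le_mul h2 h1 (norm_nonneg _)
        (mul_nonneg hC (Real.exp_pos _).le)).trans (le_of_eq ?_)
      rw [mul_mul_mul_comm, ← Real.exp_add, pow_succ']
      congr 2
      ring

theorem ppC_le {C T : ℝ} (hC : 0 ≤ C) : ∀ A B : List Part,
    (∀ a ∈ A, ∀ b ∈ B, ‖pp a b‖ ≤ C * Real.exp (2 * (sc (co a) * sc (co b)) * T)) →
    ‖ppC A B‖ ≤ C ^ (A.length * B.length) * Real.exp (2 * (lch A * lch B) * T)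
  | [], B, _ => by
      rw [ppC_nil]
      simp [lch]
  | a :: A, B, h => by
      have h1 := ppC_le hC A B fun a' ha' => h a' (List.mem_cons_of_mem _ ha')
      have h2 := ppC_single_le hC a B (h a List.mem_cons_self)
      rw [ppC_cons, norm_mul, lch_cons, List.length_cons]
      refine (mul_le_mul h2 h1 (norm_nonneg _)
        (mul_nonneg (pow_nonneg hC _) (Real.exp_pos _).le)).trans (le_of_eq ?_)
      rw [mul_mul_mul_comm, ← Real.exp_add, ← pow_add]
      congr 2
      · ring
      · ring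

/-- change of the difference of the heights -/
theorem pp_shift {C T : ℝ} (hC : 0 ≤ C) {a b : Part} (h : ‖gz (co a) (co b) (a.2.2 - b.2.2)‖ ≤
    C * Real.exp (rt (co a) (co b) * |(a.2.2 - b.2.2).im|))
    (hT : |(|(a.2.2 - b.2.2).im|) - T| ≤ 1) :
    ‖pp a b‖ ≤ C * Real.exp 8 * Real.exp (2 * (sc (co a) * sc (co b)) * T) := by
  rw [pp_co, mul_assoc, ← Real.exp_add]
  refine h.trans (mul_le_mul_of_nonneg_left (Real.exp_le_exp.2 ?_) hC)
  unfold rt
  set x := |(a.2.2 - b.2.2).im| with hx
  have h1 : |sc (co a) * sc (co b)| ≤ 4 := by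
    rw [abs_mul]
    have h2 := abs_sc_co a
    have h3 := abs_sc_co b
    calc _ ≤ (2 : ℝ) * 2 := mul_le_mul h2 h3 (abs_nonneg _) (by norm_num)
      _ = 4 := by norm_num
  have h4 : sc (co a) * sc (co b) * (x - T) ≤ 4 := by
    calc _ ≤ |sc (co a) * sc (co b) * (x - T)| := le_abs_self _
      _ = |sc (co a) * sc (co b)| * |x - T| := abs_mul _ _
      _ ≤ 4 * 1 := mul_le_mul h1 hT (abs_nonneg _) (by norm_num)
      _ = 4 := by norm_num
  nlinarith

variable {ι : Type*} [Fintype ι]

/-- energy inequality, any index type, any total charge -/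
theorem energy_le (c y : ι → ℝ) :
    ∑ i, ∑ j, c i * c j * |y i - y j| ≤ 2 * (∑ i, c i) * ∑ i, c i * |y i| := by
  classical
  obtain ⟨T, hT⟩ : ∃ T, T = ∑ i, c i := ⟨_, rfl⟩
  have := NUP1.Bd.energy_nonpos (Finset.univ : Finset (Option ι))
    (fun o => o.elim (-T) c) (fun o => o.elim 0 y) (by
      rw [Fintype.sum_option]
      simp [hT])
  rw [Fintype.sum_option] at this
  simp only [Fintype.sum_option, Option.elim_none, Option.elim_some, sub_zero, zero_sub, abs_neg,
    Finset.sum_add_distrib, abs_zero, mul_zero, zero_add] at this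
  have e1 : ∑ i, -T * c i * |y i| = -(T * ∑ i, c i * |y i|) := by
    rw [Finset.mul_sum, ← Finset.sum_neg_distrib]
    exact Finset.sum_congr rfl fun i _ => by ring
  have e2 : ∑ i, c i * -T * |y i| = -(T * ∑ i, c i * |y i|) := by
    rw [Finset.mul_sum, ← Finset.sum_neg_distrib]
    exact Finset.sum_congr rfl fun i _ => by ring
  rw [e1, e2] at this
  rw [← hT]
  linarith

/-- **bound of the weight of a family** -/
theorem wCx_le {o : ι → ℂ} {c : ι → List Part} {t : ι → ℝ} {C D κ q0 : ℝ} (hC : 1 ≤ C)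
    (hq : ∑ i, lch (c i) = q0)
    (ho : ∀ i, ‖o i‖ ≤ D * Real.exp (-((κ + 2 * q0 * lch (c i)) * |t i|)))
    (hc : ∀ i j, i ≠ j → ‖ppC (c i) (c j)‖ ≤
      C * Real.exp (2 * (lch (c i) * lch (c j)) * |t i - t j|)) :
    ‖wCx o c‖ ≤ D ^ Fintype.card ι * C ^ (Fintype.card ι * Fintype.card ι) *
      ∏ i, Real.exp (-(κ * |t i|)) := by
  unfold wCx
  rw [norm_mul, norm_prod]
  have e1 : ∏ i, ‖o i‖ ≤
      D ^ Fintype.card ι * ∏ i, Real.exp (-((κ + 2 * q0 * lch (c i)) * |t i|)) := by
    refine (Finset.prod_le_prod (fun i _ => norm_nonneg _) fun i _ => ho i).trans (le_of_eq ?_)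
    rw [Finset.prod_mul_distrib, Finset.prod_const, Finset.card_univ]
  have e2 := PU_norm_le (fun a b => ppC (c a) (c b))
    (fun a b => lch (c a) * lch (c b) * |t a - t b|)
    (fun a b => by rw [abs_sub_comm]; ring) (fun a => by simp) hC (fun a b hab => by
      refine (hc a b hab).trans (le_of_eq ?_)
      ring_nf)
  have e3 := energy_le (fun i => lch (c i)) t
  have hC0 : 0 ≤ C := zero_le_one.trans hC
  have hD0 : 0 ≤ D ^ Fintype.card ι * ∏ i, Real.exp (-((κ + 2 * q0 * lch (c i)) * |t i|)) :=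
    (Finset.prod_nonneg fun i _ => norm_nonneg _).trans e1
  have e4 : (∏ i, Real.exp (-((κ + 2 * q0 * lch (c i)) * |t i|))) *
      Real.exp (∑ a, ∑ b, lch (c a) * lch (c b) * |t a - t b|) ≤
      ∏ i, Real.exp (-(κ * |t i|)) := by
    rw [← Real.exp_sum, ← Real.exp_sum, ← Real.exp_add]
    refine Real.exp_le_exp.2 ?_
    rw [hq] at e3
    have e5 : ∑ i, -((κ + 2 * q0 * lch (c i)) * |t i|) =
        ∑ i, -(κ * |t i|) - 2 * q0 * ∑ i, lch (c i) * |t i| := by
      rw [Finset.mul_sum, ← Finset.sum_sub_distrib]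
      exact Finset.sum_congr rfl fun i _ => by ring
    rw [e5]
    linarith
  have hD1 : 0 ≤ D ^ Fintype.card ι := by
    by_contra hneg
    have h1 : 0 < ∏ i, Real.exp (-((κ + 2 * q0 * lch (c i)) * |t i|)) :=
      Finset.prod_pos fun i _ => Real.exp_pos _
    exact absurd hD0 (not_le.2 (mul_neg_of_neg_of_pos (not_le.1 hneg) h1))
  calc _ ≤ (D ^ Fintype.card ι * ∏ i, Real.exp (-((κ + 2 * q0 * lch (c i)) * |t i|))) *
        (C ^ (Fintype.card ι * Fintype.card ι) *
          Real.exp (∑ a, ∑ b, lch (c a) * lch (c b) * |t a - t b|)) :=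
        mul_le_mul e1 e2 (norm_nonneg _) hD0
    _ = D ^ Fintype.card ι * C ^ (Fintype.card ι * Fintype.card ι) *
        ((∏ i, Real.exp (-((κ + 2 * q0 * lch (c i)) * |t i|))) *
          Real.exp (∑ a, ∑ b, lch (c a) * lch (c b) * |t a - t b|)) := by ring
    _ ≤ _ := mul_le_mul_of_nonneg_left e4 (mul_nonneg hD1 (pow_nonneg hC0 _))

/-! ## quanta added to a family -/

/-- the family with `a` quanta X and `b` quanta Y at `z`, `z'` -/
def cA {ι : Type*} (c : ι → List Part) {a b : ℕ} (z : Fin a ⊕ Fin b → ℂ) :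
    ι ⊕ (Fin a ⊕ Fin b) → List Part :=
  Sum.elim c (Sum.elim (fun j => [(true, false, z (Sum.inl j))])
    fun j => [(false, false, z (Sum.inr j))])

/-- one body weights of the family with quanta -/
def oA {ι : Type*} (o : ι → ℂ) (G : Bool → ℂ → ℂ) {a b : ℕ} (z : Fin a ⊕ Fin b → ℂ) :
    ι ⊕ (Fin a ⊕ Fin b) → ℂ :=
  Sum.elim o (Sum.elim (fun j => G true (z (Sum.inl j))) fun j => G false (z (Sum.inr j)))

theorem ppC_pair_symm (c : ι → List Part) (a b : ι) : ppC (c a) (c b) = ppC (c b) (c a) :=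
  ppC_symm _ _

/-- **the weight of the family with quanta** -/
theorem wCx_quanta (o : ι → ℂ) (c : ι → List Part) (G : Bool → ℂ → ℂ) {a b : ℕ}
    (z : Fin a ⊕ Fin b → ℂ) : wCx (oA o G z) (cA c z) =
      wCx o c * Fg (oo (fun _ : Fin a => Ob.A) (fun _ : Fin b => Ob.A))
        (Sum.elim (fun _ => fun u => G true u * potG c true u)
          (fun _ => fun u => G false u * potG c false u)) z := by
  unfold wCx Fg
  rw [PU_sum fun x y => ppC_symm _ _, Fintype.prod_sum_type, Fintype.prod_sum_type,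
    Fintype.prod_sum_type]
  have e1 : (∏ x : ι, ∏ y : Fin a ⊕ Fin b, ppC (cA c z (Sum.inl x)) (cA c z (Sum.inr y))) =
      (∏ j : Fin a, potG c true (z (Sum.inl j))) * ∏ j : Fin b, potG c false (z (Sum.inr j)) := by
    rw [Finset.prod_comm, Fintype.prod_sum_type]
    congr 1
    · refine Finset.prod_congr rfl fun j _ => ?_
      unfold potG
      exact Finset.prod_congr rfl fun i _ => ppC_symm _ _
    · refine Finset.prod_congr rfl fun j _ => ?_
      unfold potG
      exact Finset.prod_congr rfl fun i _ => ppC_symm _ _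
  have e2 : (PU fun x y : Fin a ⊕ Fin b => ppC (cA c z (Sum.inr x)) (cA c z (Sum.inr y))) =
      PU fun x y => gz (oo (fun _ : Fin a => Ob.A) (fun _ : Fin b => Ob.A) x)
        (oo (fun _ : Fin a => Ob.A) (fun _ : Fin b => Ob.A) y) (z x - z y) := by
    refine PU_congr fun x y => ?_
    rcases x with x | x <;> rcases y with y | y <;>
    · simp only [cA, Sum.elim_inr, Sum.elim_inl, oo]
      rw [ppC_single]
      simp only [List.map_cons, List.map_nil, List.prod_cons, List.prod_nil, mul_one]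
      exact pp_co _ _
  rw [e1, e2]
  simp only [oA, cA, Sum.elim_inl, Sum.elim_inr, Finset.prod_mul_distrib]
  ring

/-- **bound of the weight times the gas** -/
theorem wCx_gas_le {o : ι → ℂ} {c : ι → List Part} {t : ι → ℝ} {G : Bool → ℂ → ℂ} {y : ℝ}
    {a b : ℕ} {C D κ q0 : ℝ} (hκ : 0 < κ) (hC : 1 ≤ C) (hq : (∑ i, lch (c i)) + (a - b) = q0)
    (ho : ∀ i, ‖o i‖ ≤ D * Real.exp (-((κ + 2 * q0 * lch (c i)) * |t i|)))
    (hG : ∀ s : Bool, ∀ u : ℂ, u.re = y → ‖G s u‖ ≤
      D * Real.exp (-((κ + 2 * q0 * sc (s, Ob.A)) * |u.im|)))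
    (hc : ∀ i j, i ≠ j → ‖ppC (c i) (c j)‖ ≤
      C * Real.exp (2 * (lch (c i) * lch (c j)) * |t i - t j|))
    (hcA : ∀ i, ∀ s : Bool, ∀ u : ℂ, u.re = y → ‖ppC (c i) [(s, false, u)]‖ ≤
      C * Real.exp (2 * (lch (c i) * sc (s, Ob.A)) * |t i - u.im|))
    (hAA : ∀ s s' : Bool, ∀ u : ℂ, u.re = 0 → ‖gz (s, Ob.A) (s', Ob.A) u‖ ≤
      C * Real.exp (rt (s, Ob.A) (s', Ob.A) * |u.im|)) :
    ‖wCx o c * gas a b y (fun z => G true z * potG c true z)
      (fun z => G false z * potG c false z)‖ ≤
      D ^ (Fintype.card ι + (a + b)) *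
        C ^ ((Fintype.card ι + (a + b)) * (Fintype.card ι + (a + b))) *
        (∏ i, Real.exp (-(κ * |t i|))) *
        ∫ u : Fin a ⊕ Fin b → ℝ, ∏ i, Real.exp (-(κ * |u i|)) ∂(Measure.pi fun _ => volume) := by
  set Dc := D ^ (Fintype.card ι + (a + b)) *
        C ^ ((Fintype.card ι + (a + b)) * (Fintype.card ι + (a + b))) *
        (∏ i, Real.exp (-(κ * |t i|))) with hDc
  have key : ∀ u : Fin a ⊕ Fin b → ℝ, ‖wCx o c * Fg (oo (fun _ : Fin a => Ob.A)
      (fun _ : Fin b => Ob.A)) (Sum.elim (fun _ => fun u => G true u * potG c true u)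
          (fun _ => fun u => G false u * potG c false u)) (pos (fun _ => y) u)‖ ≤
      Dc * ∏ i, Real.exp (-(κ * |u i|)) := by
    intro u
    rw [← wCx_quanta]
    have hl1 : ∀ s : Bool, ∀ z : ℂ, lch [(s, false, z)] = sc (s, Ob.A) := by
      intro s z
      unfold lch co
      simp
    have h1 := wCx_le (ι := ι ⊕ (Fin a ⊕ Fin b)) (o := oA o G (pos (fun _ => y) u))
      (c := cA c (pos (fun _ => y) u)) (t := Sum.elim t u) (C := C) (D := D) (κ := κ) (q0 := q0)
      hC ?_ ?_ ?_
    · refine h1.trans (le_of_eq ?_)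
      rw [Fintype.prod_sum_type, Fintype.card_sum, Fintype.card_sum, Fintype.card_fin,
        Fintype.card_fin, hDc]
      simp only [Sum.elim_inl, Sum.elim_inr]
      ring
    · rw [← hq, Fintype.sum_sum_type, Fintype.sum_sum_type]
      congr 1
      simp only [cA, Sum.elim_inl, Sum.elim_inr, hl1]
      simp [sc, Bd.chg]
      ring
    · rintro (i | i | i)
      · exact ho i
      · show ‖G true (pos (fun _ => y) u (Sum.inl i))‖ ≤ D * Real.exp (-((κ + 2 * q0 *
          lch [(true, false, pos (fun _ => y) u (Sum.inl i))]) * |u (Sum.inl i)|))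
        rw [hl1]
        have := hG true (pos (fun _ => y) u (Sum.inl i)) (by simp)
        simpa using this
      · show ‖G false (pos (fun _ => y) u (Sum.inr i))‖ ≤ D * Real.exp (-((κ + 2 * q0 *
          lch [(false, false, pos (fun _ => y) u (Sum.inr i))]) * |u (Sum.inr i)|))
        rw [hl1]
        have := hG false (pos (fun _ => y) u (Sum.inr i)) (by simp)
        simpa using this
    · have hA : ∀ (s s' : Bool) (i j : Fin a ⊕ Fin b), ‖ppC [(s, false, pos (fun _ => y) u i)]
          [(s', false, pos (fun _ => y) u j)]‖ ≤ C * Real.exp (2 *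
          (lch [(s, false, pos (fun _ => y) u i)] * lch [(s', false, pos (fun _ => y) u j)]) *
            |u i - u j|) := by
        intro s s' i j
        rw [ppC_single]
        simp only [List.map_cons, List.map_nil, List.prod_cons, List.prod_nil, mul_one]
        rw [pp_co, hl1, hl1]
        have h2 := hAA s s' (pos (fun _ => y) u i - pos (fun _ => y) u j) (by
          rw [sub_re, pos_re, pos_re, sub_self])
        rw [sub_im, pos_im, pos_im] at h2
        exact h2
      have hB : ∀ (s : Bool) (i : ι) (j : Fin a ⊕ Fin b), ‖ppC (c i)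
          [(s, false, pos (fun _ => y) u j)]‖ ≤ C * Real.exp (2 *
          (lch (c i) * lch [(s, false, pos (fun _ => y) u j)]) * |t i - u j|) := by
        intro s i j
        rw [hl1]
        have := hcA i s (pos (fun _ => y) u j) (by simp)
        rw [pos_im] at this
        exact this
      have hB' : ∀ (s : Bool) (i : ι) (j : Fin a ⊕ Fin b), ‖ppC
          [(s, false, pos (fun _ => y) u j)] (c i)‖ ≤ C * Real.exp (2 *
          (lch [(s, false, pos (fun _ => y) u j)] * lch (c i)) * |u j - t i|) := by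
        intro s i j
        rw [ppC_symm, mul_comm (lch [_]) (lch _), abs_sub_comm]
        exact hB s i j
      rintro (i | i | i) (j | j | j) hij
      · exact hc i j fun h => hij (congrArg _ h)
      · exact hB true i (Sum.inl j)
      · exact hB false i (Sum.inr j)
      · exact hB' true j (Sum.inl i)
      · exact hA true true (Sum.inl i) (Sum.inl j)
      · exact hA true false (Sum.inl i) (Sum.inr j)
      · exact hB' false j (Sum.inr i)
      · exact hA false true (Sum.inr i) (Sum.inl j)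
      · exact hA false false (Sum.inr i) (Sum.inr j)
  have hint := (integrable_prod_exp' (ι := Fin a ⊕ Fin b) hκ).const_mul Dc
  unfold gas Ig
  rw [mul_left_comm, norm_mul, ← integral_const_mul]
  have h3 := norm_integral_le_of_norm_le hint (Filter.Eventually.of_forall key)
  rw [MeasureTheory.integral_const_mul (r := Dc)] at h3
  have h4 : ‖(((a.factorial : ℕ) : ℂ)⁻¹ * ((b.factorial : ℕ) : ℂ)⁻¹ * ((2 * Real.pi : ℂ)⁻¹ ^ a *
    (2 * Real.pi : ℂ)⁻¹ ^ b))‖ ≤ 1 := by
    have hf : ∀ q : ℕ, ‖((q.factorial : ℕ) : ℂ)⁻¹‖ ≤ 1 := by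
      intro q
      rw [norm_inv, Complex.norm_natCast]
      exact inv_le_one_of_one_le₀ (by exact_mod_cast q.factorial_pos)
    have hp : ‖(2 * Real.pi : ℂ)⁻¹‖ ≤ 1 := by
      rw [norm_inv, norm_mul, norm_real, Real.norm_of_nonneg Real.pi_pos.le]
      refine inv_le_one_of_one_le₀ ?_
      have := Real.pi_gt_three
      norm_num
      linarith
    rw [norm_mul, norm_mul, norm_mul, norm_pow, norm_pow]
    refine mul_le_one₀ (mul_le_one₀ (hf _) (norm_nonneg _) (hf _)) (by positivity) ?_
    exact mul_le_one₀ (pow_le_one₀ (norm_nonneg _) hp) (by positivity)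
      (pow_le_one₀ (norm_nonneg _) hp)
  exact (mul_le_mul h4 h3 (norm_nonneg _) zero_le_one).trans (le_of_eq (one_mul _))

end PBC

end
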