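import Pool.Agent.PB.ClsCrv
import Pool.Agent.NUO.MeasGas

/-!
# Plan B, module Cls: measurability of the terms of the functional

* `MCr`, `MIn`: jointly measurable curves, insertions;
* `measurable_wK`, `measurable_gK`, `measurable_trm`, `measurable_trA`;
* `good_of`: the fields of `Good` from finiteness of `FA`;
* `measurable_trm_s`, `measurable_trA_s`: the same for insertions with a parameter.
-/

set_option autoImplicit false
set_option linter.unusedSectionVars false

noncomputable section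

open Complex MeasureTheory Finset
open scoped ENNReal

namespace PBF

open NUO NUP1 NUCR NUP1S NUP1S.Ab NUP1S.AbC NUGC

/-- the curves are jointly measurable in the configuration and the parameter -/
structure MCr (η η' : Crs) : Prop where
  m : ∀ r, Measurable fun p : (Fin r → Xo) × ℝ => η r p.1 p.2
  m' : ∀ r, Measurable fun p : (Fin r → Xo) × ℝ => η' r p.1 p.2

/-- measurable insertions -/
def MIn (Ψ : Ins) : Prop := ∀ r a b,
  Measurable fun p : (Fin r → Xo) × ((Fin a → ℝ) × (Fin b → ℝ)) => Ψ r p.1 a b p.2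

theorem MIn.one : MIn fun _ _ _ _ _ => 1 := fun _ _ _ => measurable_const

theorem MIn.const (c : ℂ) : MIn fun _ _ _ _ _ => c := fun _ _ _ => measurable_const

theorem MIn.mul {Ψ Ψ' : Ins} (h : MIn Ψ) (h' : MIn Ψ') : MIn (Ψ * Ψ') := fun r a b =>
  (h r a b).mul (h' r a b)

theorem MIn.add {Ψ Ψ' : Ins} (h : MIn Ψ) (h' : MIn Ψ') : MIn (Ψ + Ψ') := fun r a b =>
  (h r a b).add (h' r a b)

section meas

variable {r : ℕ} {P : NUO.Par} (hP : Measurable (P.rad r)) {Z : Bool → Option O3 → ℂ → ℂ}
  (hZ : ∀ s k, Measurable (Z s k))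

theorem measurable_obK' {Y : Type*} [MeasurableSpace Y] {Z : Bool → Option O3 → ℂ → ℂ}
    (hZ : ∀ s k, Measurable (Z s k)) (jL e : ℝ) (k : Bool × Kind)
    {t a ρ : Y → ℝ} (ht : Measurable t) (ha : Measurable a) (hρ : Measurable ρ) :
    Measurable fun y => obK Z jL e (ρ y) (k, (t y, a y)) := by
  obtain ⟨s, k⟩ := k
  have hS : Measurable fun y => posS e (t y) := NUO.measurable_vl ht _
  have hS' : Measurable fun y => posS e (t y) + 2 * l := hS.add_const _
  have hV := measurable_posV ht ha hρ e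
  have hL : Measurable fun y => posL jL (t y) := NUO.measurable_vl ht _
  have hT : Measurable fun y => posT (t y) := NUO.measurable_vl ht _
  have h2 : Measurable fun y => Complex.exp (2 * Real.pi * (a y : ℂ) * I) := by fun_prop
  have h3 : Measurable fun y => (ρ y : ℂ) := by fun_prop
  cases k
  · exact ((hZ s (some .L)).comp hL).const_mul _
  · exact ((hZ s (some .T)).comp hT).const_mul _
  · exact ((hZ s (some .S)).comp hS).const_mul _
  · exact (((hZ s (some .S)).comp hS).mul ((h3.mul h2).neg.mul (((hZ (!s) none).comp hV).mul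
      ((NUO.measurable_cz false true).comp (hV.sub hS))))).const_mul _
  · exact (((hZ s (some .S)).comp hS).mul (((((hZ (!s) none).comp hS').mul_const _).pow_const
      2).const_mul _)).const_mul _

include hP hZ in
theorem measurable_obK (i : Fin r) :
    Measurable fun O : Fin r → Xo => obK Z P.jL (ei P O i) (rr P O i) (O i) := by
  refine measurable_config' fun K => ?_
  have ht : Measurable fun y : Fin r → ℝ × ℝ => (y i).1 :=
    measurable_fst.comp (measurable_pi_apply i)
  have ha : Measurable fun y : Fin r → ℝ × ℝ => (y i).2 :=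
    measurable_snd.comp (measurable_pi_apply i)
  exact measurable_obK' hZ P.jL (ei P (fun i => (K i, ((0 : ℝ), (0 : ℝ)))) i) (K i) ht ha
    (hP.comp ht)

include hP in
theorem measurable_pairC (i j : Fin r) :
    Measurable fun O : Fin r → Xo => ppC (cons P O i) (cons P O j) := by
  refine measurable_config' fun K => ?_
  obtain ⟨L, hL, h⟩ := exists_evl_cons (Y := Unit) P hP K i
  obtain ⟨M, hM, h'⟩ := exists_evl_cons (Y := Unit) P hP K j
  have h1 := (measurable_ppC_evl hL hM).comp
    (measurable_id.prodMk (measurable_const : Measurable fun _ : Fin r → ℝ × ℝ => ()))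
  refine (congrArg Measurable (funext fun y => ?_)).mpr h1
  simp only [Function.comp]
  rw [← h, ← h']
  rfl

include hP hZ in
theorem measurable_wK : Measurable fun O : Fin r → Xo => wK Z P O := by
  unfold wK
  exact (Finset.measurable_prod _ fun i _ => measurable_obK hP hZ i).mul
    (measurable_PU (fun i j (O : Fin r → Xo) => ppC (cons P O i) (cons P O j))
      fun i j => measurable_pairC hP i j)

theorem measurable_pA {Y : Type*} [MeasurableSpace Y] {η : Y × ℝ → ℝ} (h : Measurable η) :
    Measurable fun p : Y × ℝ => NUO.pA (fun t => η (p.1, t)) p.2 := by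
  unfold NUO.pA vl
  fun_prop

/-- species of the quanta -/
def sS (a b : ℕ) : Fin a ⊕ Fin b → Bool := Sum.elim (fun _ => true) fun _ => false

/-- weight of a quantum on the curve -/
def hq (Z : Bool → Option O3 → ℂ → ℂ) (P : NUO.Par) (O : Fin r → Xo) (s : Bool) (η η' : ℝ → ℝ)
    (t : ℝ) : ℂ :=
  (2 * Real.pi : ℂ)⁻¹ * (1 + dA η' t) * (Z s none (NUO.pA η t) * potC P O s (NUO.pA η t))

theorem gK_eq (Z : Bool → Option O3 → ℂ → ℂ) (P : NUO.Par) (O : Fin r → Xo) (η η' : ℝ → ℝ)
    {a b : ℕ} (x : (Fin a → ℝ) × (Fin b → ℝ)) :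
    gK (gF Z P O) η η' a b x = (∏ i, hq Z P O (sS a b i) η η' (Sum.elim x.1 x.2 i)) *
      PU fun i j => PP (sS a b i) (sS a b j)
        (NUO.pA η (Sum.elim x.1 x.2 i) - NUO.pA η (Sum.elim x.1 x.2 j)) := by
  unfold gK Fc
  have e1 : ∀ i : Fin a ⊕ Fin b, hh p0 (gF Z P O) (cCt a b (crvC true NUP1.l (dA η) (dA η'))
      (crvC false NUP1.l (dA η) (dA η')) i) (Sum.elim x.1 x.2 i) =
      hq Z P O (sS a b i) η η' (Sum.elim x.1 x.2 i) := by
    rintro (i | i)
    · exact hh_gF Z P O true η η' _
    · exact hh_gF Z P O false η η' _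
  have e2 : (fun i j : Fin a ⊕ Fin b => pwc (cCt a b (crvC true NUP1.l (dA η) (dA η'))
      (crvC false NUP1.l (dA η) (dA η')) i) (cCt a b (crvC true NUP1.l (dA η) (dA η'))
      (crvC false NUP1.l (dA η) (dA η')) j) (Sum.elim x.1 x.2 i) (Sum.elim x.1 x.2 j)) =
      fun i j => PP (sS a b i) (sS a b j)
        (NUO.pA η (Sum.elim x.1 x.2 i) - NUO.pA η (Sum.elim x.1 x.2 j)) := by
    funext i j
    rw [← pA_crv, ← pA_crv]
    rcases i with i | i <;> rcases j with j | j <;> rfl
  rw [e2]
  congr 1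
  exact Finset.prod_congr rfl fun i _ => e1 i

include hP hZ in
theorem measurable_hq {η η' : (Fin r → Xo) → ℝ → ℝ}
    (hη : Measurable fun p : (Fin r → Xo) × ℝ => η p.1 p.2)
    (hη' : Measurable fun p : (Fin r → Xo) × ℝ => η' p.1 p.2) (s : Bool) :
    Measurable fun p : (Fin r → Xo) × ℝ => hq Z P p.1 s (η p.1) (η' p.1) p.2 := by
  have hpos : Measurable fun p : (Fin r → Xo) × ℝ => NUO.pA (η p.1) p.2 := by
    unfold NUO.pA vl
    fun_prop
  have h1 : Measurable fun p : (Fin r → Xo) × ℝ => (1 + dA (η' p.1) p.2 : ℂ) := by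
    unfold dA
    fun_prop
  have h2 : Measurable fun p : (Fin r → Xo) × ℝ => (p.1, NUO.pA (η p.1) p.2) :=
    measurable_fst.prodMk hpos
  have h3 := (NUO.measurable_potC P hP s).comp h2
  have h4 := (hZ s none).comp hpos
  refine (congrArg Measurable (funext fun p => ?_)).mpr ((h1.const_mul (2 * Real.pi : ℂ)⁻¹).mul
    (h4.mul h3))
  rfl

include hP hZ in
theorem measurable_gK {η η' : (Fin r → Xo) → ℝ → ℝ}
    (hη : Measurable fun p : (Fin r → Xo) × ℝ => η p.1 p.2)
    (hη' : Measurable fun p : (Fin r → Xo) × ℝ => η' p.1 p.2) (a b : ℕ) :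
    Measurable fun p : (Fin r → Xo) × ((Fin a → ℝ) × (Fin b → ℝ)) =>
      gK (gF Z P p.1) (η p.1) (η' p.1) a b p.2 := by
  have hpos : Measurable fun p : (Fin r → Xo) × ℝ => NUO.pA (η p.1) p.2 := by
    unfold NUO.pA vl
    fun_prop
  have hel : ∀ i : Fin a ⊕ Fin b, Measurable fun p : (Fin r → Xo) × ((Fin a → ℝ) × (Fin b → ℝ)) =>
      ((p.1, Sum.elim p.2.1 p.2.2 i) : (Fin r → Xo) × ℝ) := by
    rintro (i | i)
    · exact measurable_fst.prodMk ((measurable_pi_apply i).comp (measurable_fst.comp measurable_snd))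
    · exact measurable_fst.prodMk ((measurable_pi_apply i).comp (measurable_snd.comp measurable_snd))
  have hpi : ∀ i : Fin a ⊕ Fin b, Measurable fun p : (Fin r → Xo) × ((Fin a → ℝ) × (Fin b → ℝ)) =>
      NUO.pA (η p.1) (Sum.elim p.2.1 p.2.2 i) := fun i => hpos.comp (hel i)
  have hh1 := measurable_hq hP hZ hη hη'
  have k1 : ∀ i : Fin a ⊕ Fin b, Measurable fun p : (Fin r → Xo) × ((Fin a → ℝ) × (Fin b → ℝ)) =>
      hq Z P p.1 (sS a b i) (η p.1) (η' p.1) (Sum.elim p.2.1 p.2.2 i) := by
    intro i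
    have h3 := (hh1 (sS a b i)).comp (hel i)
    refine (congrArg Measurable (funext fun p => ?_)).mpr h3
    rfl
  have k2 : ∀ i j : Fin a ⊕ Fin b,
      Measurable fun p : (Fin r → Xo) × ((Fin a → ℝ) × (Fin b → ℝ)) => PP (sS a b i) (sS a b j)
        (NUO.pA (η p.1) (Sum.elim p.2.1 p.2.2 i) - NUO.pA (η p.1) (Sum.elim p.2.1 p.2.2 j)) := by
    intro i j
    have h3 := (measurable_PP (sS a b i) (sS a b j)).comp ((hpi i).sub (hpi j))
    refine (congrArg Measurable (funext fun p => ?_)).mpr h3
    rfl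
  have k3 := measurable_PU (fun i j (p : (Fin r → Xo) × ((Fin a → ℝ) × (Fin b → ℝ))) =>
      PP (sS a b i) (sS a b j)
        (NUO.pA (η p.1) (Sum.elim p.2.1 p.2.2 i) - NUO.pA (η p.1) (Sum.elim p.2.1 p.2.2 j))) k2
  have k4 := Finset.measurable_prod (Finset.univ (α := Fin a ⊕ Fin b)) fun i _ => k1 i
  refine (congrArg Measurable (funext fun p => ?_)).mpr (k4.mul k3)
  rw [gK_eq]
  rfl

end meas

section terms

variable {P : NUO.Par} (hP : ∀ r, Measurable (P.rad r)) {Z : Bool → Option O3 → ℂ → ℂ}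
  (hZ : ∀ s k, Measurable (Z s k)) {η η' : Crs} (hc : MCr η η') {Ψ : Ins} (hΨ : MIn Ψ) (n n' : ℕ)

include hP hZ hc hΨ

/-- the integrand of the quanta -/
theorem measurable_inner (r a b : ℕ) :
    Measurable fun p : (Fin r → Xo) × ((Fin a → ℝ) × (Fin b → ℝ)) =>
      gK (gF Z P p.1) (η r p.1) (η' r p.1) a b p.2 * Ψ r p.1 a b p.2 :=
  (measurable_gK (hP r) hZ (hc.m r) (hc.m' r) a b).mul (hΨ r a b)

theorem measurable_trm (r : ℕ) : Measurable fun O : Fin r → Xo => trm Z P n n' η η' Ψ r O := by
  refine measurable_config' fun K => ?_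
  have hK : Measurable fun x : Fin r → ℝ × ℝ => (fun i => (K i, x i) : Fin r → Xo) := by
    refine measurable_pi_lambda _ fun i => ?_
    exact measurable_const.prodMk (measurable_pi_apply i)
  have hW := (measurable_wK (hP r) hZ).comp hK
  have hg := fun a b => (((measurable_inner hP hZ hc hΨ r a b).stronglyMeasurable.integral_prod_right'
    (ν := (volume : Measure ((Fin a → ℝ) × (Fin b → ℝ))))).measurable).comp hK
  set q := chgO (fun i => (K i, ((0 : ℝ), (0 : ℝ)))) true with hq
  set q' := chgO (fun i => (K i, ((0 : ℝ), (0 : ℝ)))) false with hq'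
  have e : (fun x : Fin r → ℝ × ℝ => trm Z P n n' η η' Ψ r fun i => (K i, x i)) = fun x =>
      if q ≤ n ∧ q' ≤ n' then wK Z P (fun i => (K i, x i)) *
        ((((n - q).factorial : ℂ) * (n' - q').factorial)⁻¹ *
        ∫ y : (Fin (n - q) → ℝ) × (Fin (n' - q') → ℝ),
          gK (gF Z P fun i => (K i, x i)) (η r fun i => (K i, x i)) (η' r fun i => (K i, x i))
            (n - q) (n' - q') y * Ψ r (fun i => (K i, x i)) (n - q) (n' - q') y) else 0 := rfl
  rw [e]
  by_cases h : q ≤ n ∧ q' ≤ n'
  · simp only [if_pos h]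
    exact hW.mul ((hg _ _).const_mul _)
  · simp only [if_neg h]
    exact measurable_const

theorem measurable_trA (r : ℕ) : Measurable fun O : Fin r → Xo => trA Z P n n' η η' Ψ r O := by
  refine measurable_config' fun K => ?_
  have hK : Measurable fun x : Fin r → ℝ × ℝ => (fun i => (K i, x i) : Fin r → Xo) := by
    refine measurable_pi_lambda _ fun i => ?_
    exact measurable_const.prodMk (measurable_pi_apply i)
  have hW := (measurable_wK (hP r) hZ).enorm.comp hK
  have hg := fun a b => (Measurable.lintegral_prod_right'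
    (ν := (volume : Measure ((Fin a → ℝ) × (Fin b → ℝ))))
    (((measurable_gK (hP r) hZ (hc.m r) (hc.m' r) a b).enorm).mul (hΨ r a b).enorm)).comp hK
  set q := chgO (fun i => (K i, ((0 : ℝ), (0 : ℝ)))) true with hq
  set q' := chgO (fun i => (K i, ((0 : ℝ), (0 : ℝ)))) false with hq'
  have e : (fun x : Fin r → ℝ × ℝ => trA Z P n n' η η' Ψ r fun i => (K i, x i)) = fun x =>
      if q ≤ n ∧ q' ≤ n' then ‖wK Z P (fun i => (K i, x i))‖ₑ *
        ((((n - q).factorial : ℝ≥0∞) * (n' - q').factorial)⁻¹ *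
        ∫⁻ y : (Fin (n - q) → ℝ) × (Fin (n' - q') → ℝ),
          ‖gK (gF Z P fun i => (K i, x i)) (η r fun i => (K i, x i)) (η' r fun i => (K i, x i))
            (n - q) (n' - q') y‖ₑ * ‖Ψ r (fun i => (K i, x i)) (n - q) (n' - q') y‖ₑ) else 0 := rfl
  rw [e]
  by_cases h : q ≤ n ∧ q' ≤ n'
  · simp only [if_pos h]
    exact hW.mul ((hg _ _).const_mul _)
  · simp only [if_neg h]
    exact measurable_const

/-- **admissible insertions from finiteness** -/
theorem good_of (hf : FA Z P n n' η η' Ψ < ∞) : Good Z P n n' η η' Ψ where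
  mi r O := ((measurable_inner hP hZ hc hΨ r _ _).comp (measurable_const.prodMk
    measurable_id)).aestronglyMeasurable
  mo r := (measurable_trm hP hZ hc hΨ n n' r).aestronglyMeasurable
  fin := hf
  ma r := (measurable_trA hP hZ hc hΨ n n' r).aemeasurable

end terms

/-! ### with a parameter -/

section param

variable {P : NUO.Par} (hP : ∀ r, Measurable (P.rad r)) {Z : Bool → Option O3 → ℂ → ℂ}
  (hZ : ∀ s k, Measurable (Z s k)) {η η' : Crs} (hc : MCr η η') {S : Type*} [MeasurableSpace S]
  {Ψ : S → Ins} (hΨ : ∀ r a b, Measurable fun p : S × ((Fin r → Xo) × ((Fin a → ℝ) × (Fin b → ℝ))) =>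
    Ψ p.1 r p.2.1 a b p.2.2) (n n' : ℕ)

include hP hZ hc hΨ

/-- the integrand of the quanta, with a parameter -/
theorem measurable_inner_s (r a b : ℕ) :
    Measurable fun q : (S × (Fin r → Xo)) × ((Fin a → ℝ) × (Fin b → ℝ)) =>
      gK (gF Z P q.1.2) (η r q.1.2) (η' r q.1.2) a b q.2 * Ψ q.1.1 r q.1.2 a b q.2 := by
  have p1 : Measurable fun q : (S × (Fin r → Xo)) × ((Fin a → ℝ) × (Fin b → ℝ)) => (q.1.2, q.2) :=
    measurable_fst.snd.prodMk measurable_snd
  have p2 : Measurable fun q : (S × (Fin r → Xo)) × ((Fin a → ℝ) × (Fin b → ℝ)) =>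
      (q.1.1, (q.1.2, q.2)) := measurable_fst.fst.prodMk p1
  have h1 := (measurable_gK (hP r) hZ (hc.m r) (hc.m' r) a b).comp p1
  have h2 := (hΨ r a b).comp p2
  refine (congrArg Measurable (funext fun p => ?_)).mpr (h1.mul h2)
  rfl

theorem measurable_innA_s (r a b : ℕ) :
    Measurable fun q : (S × (Fin r → Xo)) × ((Fin a → ℝ) × (Fin b → ℝ)) =>
      ‖gK (gF Z P q.1.2) (η r q.1.2) (η' r q.1.2) a b q.2‖ₑ * ‖Ψ q.1.1 r q.1.2 a b q.2‖ₑ := by
  refine (congrArg Measurable (funext fun p => ?_)).mpr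
    (measurable_inner_s hP hZ hc hΨ r a b).enorm
  exact (enorm_mul _ _).symm

theorem measurable_trm_s (r : ℕ) :
    Measurable fun p : S × (Fin r → Xo) => trm Z P n n' η η' (Ψ p.1) r p.2 := by
  have key : Measurable fun p : (Fin r → Xo) × S => trm Z P n n' η η' (Ψ p.2) r p.1 := by
    refine measurable_config fun K => ?_
    have hK : Measurable fun x : (Fin r → ℝ × ℝ) × S =>
        ((x.2, fun i => (K i, x.1 i)) : S × (Fin r → Xo)) := by
      refine measurable_snd.prodMk (measurable_pi_lambda _ fun i => ?_)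
      exact measurable_const.prodMk ((measurable_pi_apply i).comp measurable_fst)
    have hW := ((measurable_wK (hP r) hZ).comp measurable_snd).comp hK
    have hg := fun a b => (((measurable_inner_s hP hZ hc hΨ r a
      b).stronglyMeasurable.integral_prod_right'
      (ν := (volume : Measure ((Fin a → ℝ) × (Fin b → ℝ))))).measurable).comp hK
    set q := chgO (fun i => (K i, ((0 : ℝ), (0 : ℝ)))) true with hq
    set q' := chgO (fun i => (K i, ((0 : ℝ), (0 : ℝ)))) false with hq'
    have e : (fun x : (Fin r → ℝ × ℝ) × S => trm Z P n n' η η' (Ψ x.2) r fun i => (K i, x.1 i)) =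
        fun x =>
        if q ≤ n ∧ q' ≤ n' then wK Z P (fun i => (K i, x.1 i)) *
          ((((n - q).factorial : ℂ) * (n' - q').factorial)⁻¹ *
          ∫ y : (Fin (n - q) → ℝ) × (Fin (n' - q') → ℝ),
            gK (gF Z P fun i => (K i, x.1 i)) (η r fun i => (K i, x.1 i))
              (η' r fun i => (K i, x.1 i)) (n - q) (n' - q') y *
                Ψ x.2 r (fun i => (K i, x.1 i)) (n - q) (n' - q') y) else 0 := rfl
    show Measurable fun x : (Fin r → ℝ × ℝ) × S => trm Z P n n' η η' (Ψ x.2) r fun i => (K i, x.1 i)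
    rw [e]
    by_cases h : q ≤ n ∧ q' ≤ n'
    · simp only [if_pos h]
      exact hW.mul ((hg _ _).const_mul _)
    · simp only [if_neg h]
      exact measurable_const
  have h2 := key.comp (measurable_swap (α := S) (β := Fin r → Xo))
  refine (congrArg Measurable (funext fun p => ?_)).mpr h2
  rfl

theorem measurable_trA_s (r : ℕ) :
    Measurable fun p : S × (Fin r → Xo) => trA Z P n n' η η' (Ψ p.1) r p.2 := by
  have key : Measurable fun p : (Fin r → Xo) × S => trA Z P n n' η η' (Ψ p.2) r p.1 := by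
    refine measurable_config fun K => ?_
    have hK : Measurable fun x : (Fin r → ℝ × ℝ) × S =>
        ((x.2, fun i => (K i, x.1 i)) : S × (Fin r → Xo)) := by
      refine measurable_snd.prodMk (measurable_pi_lambda _ fun i => ?_)
      exact measurable_const.prodMk ((measurable_pi_apply i).comp measurable_fst)
    have hW := (((measurable_wK (hP r) hZ).enorm).comp measurable_snd).comp hK
    have hg := fun a b => (Measurable.lintegral_prod_right'
      (ν := (volume : Measure ((Fin a → ℝ) × (Fin b → ℝ))))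
      (measurable_innA_s hP hZ hc hΨ r a b)).comp hK
    set q := chgO (fun i => (K i, ((0 : ℝ), (0 : ℝ)))) true with hq
    set q' := chgO (fun i => (K i, ((0 : ℝ), (0 : ℝ)))) false with hq'
    have e : (fun x : (Fin r → ℝ × ℝ) × S => trA Z P n n' η η' (Ψ x.2) r fun i => (K i, x.1 i)) =
        fun x =>
        if q ≤ n ∧ q' ≤ n' then ‖wK Z P (fun i => (K i, x.1 i))‖ₑ *
          ((((n - q).factorial : ℝ≥0∞) * (n' - q').factorial)⁻¹ *
          ∫⁻ y : (Fin (n - q) → ℝ) × (Fin (n' - q') → ℝ),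
            ‖gK (gF Z P fun i => (K i, x.1 i)) (η r fun i => (K i, x.1 i))
              (η' r fun i => (K i, x.1 i)) (n - q) (n' - q') y‖ₑ *
                ‖Ψ x.2 r (fun i => (K i, x.1 i)) (n - q) (n' - q') y‖ₑ) else 0 := rfl
    show Measurable fun x : (Fin r → ℝ × ℝ) × S => trA Z P n n' η η' (Ψ x.2) r fun i => (K i, x.1 i)
    rw [e]
    by_cases h : q ≤ n ∧ q' ≤ n'
    · simp only [if_pos h]
      exact hW.mul ((hg _ _).const_mul _)
    · simp only [if_neg h]
      exact measurable_const
  have h2 := key.comp (measurable_swap (α := S) (β := Fin r → Xo))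
  refine (congrArg Measurable (funext fun p => ?_)).mpr h2
  rfl

end param

end PBF

end
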