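import Pool.Agent.NUP1S.AbsH
import Pool.Agent.PB.FDef

/-!
# Plan B: the exact class formula, one word

Complex form of `NUP1S.WordC`: the weight of a configuration of objects is a complex number
(`PBF.obK`, `wCx`), and the gas of the quanta on `Re u = x0` in the field of the objects of one word is
the sum over the satellites of the integrals over the angles of the complex weight times the gas on
`Re u = l` (`word_eq`).
-/

set_option autoImplicit false
set_option linter.unusedSectionVars false

noncomputable section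

open Complex MeasureTheory Finset
open scoped Real ENNReal

namespace PBC

open NUP1 NUO NUP1S NUP1S.Mg NUP1S.Ab NUP1S.AbG NUP1S.AbC NURow
open NUP1.Bd (wt Ob)
open PBF (obK wK)

/-! ## complex weights -/

variable {ι : Type*} [Fintype ι] [DecidableEq ι]

/-- **one body weights** -/
theorem obK_eq (Z : Bool → Option O3 → ℂ → ℂ) {o : ι → CO} {z : ι → ℂ} {ρ : ι → ℝ}
    {G : Bool → ℂ → ℂ} {τ : ι → Fin 3} {θ : ι → ℝ} {P : NUO.Par} {r : ℕ} {k : ι → O3}
    {n : ι → ℕ} {t : ι → ℝ} {i : ι} {s : Bool} (hG : G (!s) = Z (!s) none)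
    (hτ : τ i ≠ 0 → k i = .S) (ho : o i = (s, ob3 (k i)))
    (hz : z i = vl (lnO P r (n i) (k i)) (t i)) :
    wt (ob3 (k i)) * (Z s (some (k i)) (z i) * om0 o z ρ G τ θ i) =
      obK Z P.jL (P.e + P.d r * ((n i : ℝ) / r)) (ρ i) ((s, kdO (k i) (τ i)), (t i, θ i)) := by
  unfold om0
  rw [ho, hz]
  rcases hk : k i with _ | _ | _
  · have h0 : τ i = 0 := by
      by_contra h
      have := hτ h
      rw [hk] at this
      exact O3.noConfusion this
    rw [h0, if_pos rfl, mul_one]
    rfl
  · rcases fin3_cases (τ i) with h | h | h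
    · rw [h, if_pos rfl, mul_one]
      rfl
    · rw [h, if_neg (by decide), if_pos rfl, cM_eq, cM_eq, hG]
      have e2 : ∀ w : ℂ, gz (!s, .A) (s, ob3 .S) w = Kn.cz false true w := by
        intro w
        unfold gz
        rw [if_neg (by cases s <;> decide)]
        rfl
      have e3 : ∀ w : ℂ, gz (!(s, ob3 O3.S).1, Ob.A) (s, ob3 .S) w = Kn.cz false true w := e2
      rw [e3, zero_add]
      rfl
    · rw [h, if_neg (by decide), if_neg (by decide), hG]
      rfl
  · have h0 : τ i = 0 := by
      by_contra h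
      have := hτ h
      rw [hk] at this
      exact O3.noConfusion this
    rw [h0, if_pos rfl, mul_one]
    rfl

/-- complex weight of a family of objects: one body weights `o`, constituents `c` -/
def wCx {ι : Type*} [Fintype ι] (o : ι → ℂ) (c : ι → List Part) : ℂ :=
  (∏ i, o i) * PU fun i j => ppC (c i) (c j)

theorem norm_wCx {ι : Type*} [Fintype ι] (o : ι → ℂ) (c : ι → List Part) :
    ‖wCx o c‖ = WW (fun i => ‖o i‖) c := by
  unfold wCx WW
  rw [norm_mul, norm_prod]

theorem wCx_equiv {ι ι' : Type*} [Fintype ι] [Fintype ι'] (e : ι ≃ ι') (o : ι' → ℂ)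
    (c : ι' → List Part) : wCx (fun i => o (e i)) (fun i => c (e i)) = wCx o c := by
  unfold wCx
  rw [e.prod_comp o, PU_equiv e (f := fun i j => ppC (c i) (c j)) fun a b => ppC_symm _ _]

section word
variable {p p' : ℕ}

/-- complex weight of a word with satellites -/
theorem wCx_word {P : NUO.Par} (Z : Bool → Option O3 → ℂ → ℂ) {k : Fin p → O3}
    {k' : Fin p' → O3} {τ : Fin p ⊕ Fin p' → Fin 3} (hτ : ∀ i, τ i ≠ 0 → actO k k' i)
    (t θ : Fin p ⊕ Fin p' → ℝ) :
    (∏ i, wt (ob3 (k i))) * (∏ i, wt (ob3 (k' i))) *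
      (Fg (o3 k k') (h3 (Z true) (Z false) k k') (zO P k k' t) *
      SWf (o3 k k') (zO P k k' t) (fun i => P.rad (p + p') (t i)) (fun s => Z s none) τ θ) =
    wCx (fun i => obK Z P.jL (elO P i) (P.rad (p + p') (t i)) (OO k k' τ t θ i))
      (fun i => parts P.jL (elO P i) (P.rad (p + p') (t i)) (OO k k' τ t θ i)) := by
  have hc : (fun i => parts P.jL (elO P i) (P.rad (p + p') (t i)) (OO k k' τ t θ i)) =
      cc (o3 k k') (zO P k k' t) (fun i => P.rad (p + p') (t i)) τ θ := by
    rw [OO_eq]
    exact cW_eq hτ t θ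
  rw [weight_eq, hc]
  unfold wCx
  rw [← mul_assoc]
  congr 1
  have e1 : (∏ i, wt (ob3 (k i))) * (∏ i, wt (ob3 (k' i))) =
      ∏ i, wt (ob3 (Sum.elim k k' i)) := by
    rw [Fintype.prod_sum_type]
    rfl
  rw [e1, ← Finset.prod_mul_distrib]
  refine Finset.prod_congr rfl fun i _ => ?_
  rw [OO_eq]
  have e2 : h3 (Z true) (Z false) k k' i (zO P k k' t i) =
      Z (isl i) (some (Sum.elim k k' i)) (zO P k k' t i) := by
    rcases i with i | i <;> rfl
  rw [e2]
  refine obK_eq Z (n := rkS) (t := t) (s := isl i) rfl (fun hi => ?_) ?_ ?_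
  · rcases i with i | i <;> exact hτ _ hi
  · rcases i with i | i <;> rfl
  · rcases i with i | i <;> rfl

/-- **One word, one vector of heights: exact formula.** -/
theorem word_eq {P : NUO.Par} {x0 : ℝ} (h : GoodQ P x0) {Z : Bool → Option O3 → ℂ → ℂ}
    {κ : ℝ} (hκ : 0 < κ) {n n' : ℕ} {q0 : ℤ} (hq : (n : ℤ) - n' = q0)
    (hm : ∀ s, Measurable (Z s none))
    (hd : ∀ s, ∀ u : ℂ, x0 ≤ u.re → u.re ≤ l → DifferentiableAt ℂ (Z s none) u)
    (hb : ∀ s, DecOn (κ + 2 * (sg s * q0 : ℤ)) (Set.Icc x0 l) (Z s none))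
    {k : Fin p → O3} {k' : Fin p' → O3} (hk : ∑ i, c3 (k i) ≤ n) (hk' : ∑ i, c3 (k' i) ≤ n')
    (t : Fin p ⊕ Fin p' → ℝ) :
    ((∏ i, wt (ob3 (k i))) * (∏ i, wt (ob3 (k' i)))) *
      (Fg (o3 k k') (h3 (Z true) (Z false) k k')
          (pos (Sum.elim (lX P p p' k k') (lY P p p' k k')) t) *
        gas (nA n k) (nA n' k') x0
          (fld (o3 k k') (pos (Sum.elim (lX P p p' k k') (lY P p p' k k')) t) (true, .A)
            (Z true none))
          (fld (o3 k k') (pos (Sum.elim (lX P p p' k k') (lY P p p' k k')) t) (false, .A)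
            (Z false none))) =
    ∑ τ : Fin p ⊕ Fin p' → Fin 3,
      if (∀ i, τ i ≠ 0 → actO k k' i) ∧ nsat (o3 k k') true τ ≤ nA n k ∧
        nsat (o3 k k') false τ ≤ nA n' k' then
        ∫ θ : Fin p ⊕ Fin p' → ℝ,
          wCx (fun i => obK Z P.jL (elO P i) (P.rad (p + p') (t i)) (OO k k' τ t θ i))
            (fun i => parts P.jL (elO P i) (P.rad (p + p') (t i)) (OO k k' τ t θ i)) *
          gas (nA n k - nsat (o3 k k') true τ) (nA n' k' - nsat (o3 k k') false τ) l
            (fun z => Z true none z * potG (fun i => parts P.jL (elO P i)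
              (P.rad (p + p') (t i)) (OO k k' τ t θ i)) true z)
            (fun z => Z false none z * potG (fun i => parts P.jL (elO P i)
              (P.rad (p + p') (t i)) (OO k k' τ t θ i)) false z)
          ∂(Measure.pi fun _ => volume.restrict (Set.Ioc (0 : ℝ) 1))
      else 0 := by
  have hH := host_Q h k k' t
  have ex := hH.exact_q hκ q0 (G := fun s => Z s none) hm hd hb (nA n k) (nA n' k')
    (neutral_Q hk hk' hq)
  have e0 : gas (nA n k) (nA n' k') x0 (fld (o3 k k') (zO P k k' t) (true, .A) (Z true none))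
      (fld (o3 k k') (zO P k k' t) (false, .A) (Z false none)) =
      gas (nA n k) (nA n' k') x0 (Hf0 (o3 k k') (zO P k k' t) (fun s => Z s none) true)
        (Hf0 (o3 k k') (zO P k k' t) (fun s => Z s none) false) := rfl
  show (∏ i, wt (ob3 (k i))) * (∏ i, wt (ob3 (k' i))) *
      (Fg (o3 k k') (h3 (Z true) (Z false) k k') (zO P k k' t) *
        gas (nA n k) (nA n' k') x0 (fld (o3 k k') (zO P k k' t) (true, .A) (Z true none))
          (fld (o3 k k') (zO P k k' t) (false, .A) (Z false none))) = _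
  have ex' : gas (nA n k) (nA n' k') x0
      (Hf0 (o3 k k') (zO P k k' t) (fun s => Z s none) true)
      (Hf0 (o3 k k') (zO P k k' t) (fun s => Z s none) false) = _ := ex
  rw [e0, ex', Finset.mul_sum, Finset.mul_sum]
  refine Finset.sum_congr rfl fun τ _ => ?_
  by_cases hc : (∀ i, τ i ≠ 0 → actO k k' i) ∧ nsat (o3 k k') true τ ≤ nA n k ∧
      nsat (o3 k k') false τ ≤ nA n' k'
  · rw [if_pos hc, if_pos hc, ← integral_const_mul, ← integral_const_mul]
    refine integral_congr_ae (Filter.Eventually.of_forall fun θ => ?_)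
    have hcW : cc (o3 k k') (zO P k k' t) (fun i => P.rad (p + p') (t i)) τ θ =
        fun i => parts P.jL (elO P i) (P.rad (p + p') (t i)) (OO k k' τ t θ i) := by
      rw [OO_eq]
      exact (cW_eq hc.1 t θ).symm
    have hf : ∀ s, Hfs (o3 k k') (zO P k k' t) (fun i => P.rad (p + p') (t i))
        (fun s => Z s none) τ θ s =
        fun z => Z s none z *
          potG (fun i => parts P.jL (elO P i) (P.rad (p + p') (t i)) (OO k k' τ t θ i)) s z := by
      intro s
      funext z
      rw [field_eq, hcW]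
    have hw := wCx_word (P := P) Z hc.1 t θ
    have hf1 := hf true
    have hf2 := hf false
    beta_reduce
    rw [← hw, ← hf1, ← hf2]
    ring_nf
    rfl
  · rw [if_neg hc, if_neg hc, mul_zero, mul_zero]

end word

end PBC

end
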