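import Pool.Agent.PB.UProps
import Pool.Agent.PB.ClsMeas

/-!
# Plan B: measurability of curves, statistics, insertions

* `MCr.of_fun`, `MCr.cr`: curves that do not depend on the configuration, the curve of `UProps`;
* `MIn.obj`, `MIn.obs`, `MIn.sumM`, `MIn.prodM`, `MIn.powM`, `MIn.subM`, `MIn.negM`, `MIn.cmulM`, `MIn.compM`:
  insertions of the objects, sums over the objects, operations;
* `MIn.quX`, `MIn.quY`, `MIn.hq`, `MIn.nu1`: sums over the quanta of one species, statistics;
* `MInS`: the same with a parameter.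
-/

set_option autoImplicit false
set_option linter.unusedSectionVars false

noncomputable section

open Complex MeasureTheory Finset
open scoped ENNReal

namespace PBF

open NUO NUP1 NUCR NUP1S NUP1S.Ab NUP1S.AbC NUGC

/-! ### curves -/

theorem MCr.of_fun {η η' : ℝ → ℝ} (h : Measurable η) (h' : Measurable η') :
    MCr (fun _ _ => η) fun _ _ => η' where
  m _ := h.comp measurable_snd
  m' _ := h'.comp measurable_snd

/-- the curve of `UProps` -/
theorem MCr.cr [NUSea.Sea] (e1 J : ℝ) (m : ℕ) : MCr (PBU.cr e1 J m) (PBU.cr' e1 J m) :=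
  MCr.of_fun (etaC_contDiff e1 J m m 1).continuous.measurable (etaC'_cont e1 J m m).measurable

/-! ### insertions with a parameter -/

variable {S : Type*} [MeasurableSpace S]

/-- measurable insertions with a parameter -/
def MInS (Ψ : S → Ins) : Prop := ∀ r a b,
  Measurable fun p : S × ((Fin r → Xo) × ((Fin a → ℝ) × (Fin b → ℝ))) => Ψ p.1 r p.2.1 a b p.2.2

theorem MInS.of_MIn {Ψ : Ins} (h : MIn Ψ) : MInS (fun _ : S => Ψ) := fun r a b =>
  (h r a b).comp measurable_snd

theorem MInS.apply {Ψ : S → Ins} (h : MInS Ψ) (s : S) : MIn (Ψ s) := fun r a b =>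
  (h r a b).comp (measurable_const.prodMk measurable_id)

theorem MInS.mul {Ψ Ψ' : S → Ins} (h : MInS Ψ) (h' : MInS Ψ') :
    MInS fun s r O a b x => Ψ s r O a b x * Ψ' s r O a b x := fun r a b => (h r a b).mul (h' r a b)

theorem MInS.add {Ψ Ψ' : S → Ins} (h : MInS Ψ) (h' : MInS Ψ') :
    MInS fun s r O a b x => Ψ s r O a b x + Ψ' s r O a b x := fun r a b => (h r a b).add (h' r a b)

theorem MInS.sub {Ψ Ψ' : S → Ins} (h : MInS Ψ) (h' : MInS Ψ') :
    MInS fun s r O a b x => Ψ s r O a b x - Ψ' s r O a b x := fun r a b => (h r a b).sub (h' r a b)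

theorem MInS.par {c : S → ℂ} (h : Measurable c) : MInS fun s _ _ _ _ _ => c s := fun _ _ _ =>
  h.comp measurable_fst

theorem MInS.comp {T : Type*} [MeasurableSpace T] {Ψ : S → Ins} (h : MInS Ψ) {f : T → S}
    (hf : Measurable f) : MInS fun t => Ψ (f t) := fun r a b =>
  (h r a b).comp ((hf.comp measurable_fst).prodMk measurable_snd)

/-! ### insertions -/

theorem MIn.subM {Ψ Ψ' : Ins} (h : MIn Ψ) (h' : MIn Ψ') : MIn (Ψ - Ψ') := fun r a b =>
  (h r a b).sub (h' r a b)

theorem MIn.negM {Ψ : Ins} (h : MIn Ψ) : MIn (-Ψ) := fun r a b => (h r a b).neg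

theorem MIn.cmulM (c : ℂ) {Ψ : Ins} (h : MIn Ψ) : MIn fun r O a b x => c * Ψ r O a b x :=
  fun r a b => (h r a b).const_mul c

theorem MIn.powM {Ψ : Ins} (h : MIn Ψ) (n : ℕ) : MIn (Ψ ^ n) := fun r a b => (h r a b).pow_const n

theorem MIn.sumM {ι : Type*} (s : Finset ι) {Ψ : ι → Ins} (h : ∀ i ∈ s, MIn (Ψ i)) :
    MIn fun r O a b x => ∑ i ∈ s, Ψ i r O a b x := fun r a b =>
  Finset.measurable_sum s fun i hi => h i hi r a b

theorem MIn.prodM {ι : Type*} (s : Finset ι) {Ψ : ι → Ins} (h : ∀ i ∈ s, MIn (Ψ i)) :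
    MIn fun r O a b x => ∏ i ∈ s, Ψ i r O a b x := fun r a b =>
  Finset.measurable_prod s fun i hi => h i hi r a b

theorem MIn.compM {Ψ : Ins} (h : MIn Ψ) {f : ℂ → ℂ} (hf : Measurable f) :
    MIn fun r O a b x => f (Ψ r O a b x) := fun r a b => hf.comp (h r a b)

theorem MIn.normM {Ψ : Ins} (h : MIn Ψ) : MIn fun r O a b x => (‖Ψ r O a b x‖ : ℂ) := fun r a b =>
  Complex.measurable_ofReal.comp (h r a b).norm

/-- insertions of the objects -/
theorem MIn.obj {w : (r : ℕ) → (Fin r → Xo) → ℂ} (h : ∀ r, Measurable (w r)) :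
    MIn fun r O _ _ _ => w r O := fun r _ _ => (h r).comp measurable_fst

/-- real insertions of the objects -/
theorem MIn.objR {w : (r : ℕ) → (Fin r → Xo) → ℝ} (h : ∀ r, Measurable (w r)) :
    MIn fun r O _ _ _ => (w r O : ℂ) :=
  MIn.obj fun r => Complex.measurable_ofReal.comp (h r)

/-- sums over the objects -/
theorem MIn.obs {w : Xo → ℂ} (h : Measurable w) : MIn fun _ O _ _ _ => ∑ i, w (O i) :=
  MIn.obj fun _ => Finset.measurable_sum _ fun i _ => h.comp (measurable_pi_apply i)

/-- products over the objects -/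
theorem MIn.obp {w : Xo → ℂ} (h : Measurable w) : MIn fun _ O _ _ _ => ∏ i, w (O i) :=
  MIn.obj fun _ => Finset.measurable_prod _ fun i _ => h.comp (measurable_pi_apply i)

theorem measurable_ht : Measurable ht := measurable_fst.comp measurable_snd

theorem measurable_an : Measurable an := measurable_snd.comp measurable_snd

/-- pins: functions of the heights -/
theorem MIn.pin {w : ℝ → ℂ} (h : Measurable w) : MIn fun _ O _ _ _ => ∑ i, w (ht (O i)) :=
  MIn.obs (h.comp measurable_ht)

/-- sums over the quanta X: functions of the parameter and of the height on the curve -/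
theorem MIn.quX {η η' : Crs} (hc : MCr η η') {g : ℝ × ℝ → ℂ} (hg : Measurable g) :
    MIn fun r O _ _ x => ∑ i, g (x.1 i, η r O (x.1 i)) := by
  intro r a b
  refine Finset.measurable_sum _ fun i _ => hg.comp ?_
  have h1 : Measurable fun p : (Fin r → Xo) × ((Fin a → ℝ) × (Fin b → ℝ)) => p.2.1 i :=
    (measurable_pi_apply i).comp (measurable_fst.comp measurable_snd)
  exact h1.prodMk ((hc.m r).comp (measurable_fst.prodMk h1))

/-- sums over the quanta Y -/
theorem MIn.quY {η η' : Crs} (hc : MCr η η') {g : ℝ × ℝ → ℂ} (hg : Measurable g) :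
    MIn fun r O _ _ x => ∑ i, g (x.2 i, η r O (x.2 i)) := by
  intro r a b
  refine Finset.measurable_sum _ fun i _ => hg.comp ?_
  have h1 : Measurable fun p : (Fin r → Xo) × ((Fin a → ℝ) × (Fin b → ℝ)) => p.2.2 i :=
    (measurable_pi_apply i).comp (measurable_snd.comp measurable_snd)
  exact h1.prodMk ((hc.m r).comp (measurable_fst.prodMk h1))

theorem measurable_hqp : Measurable fun p : ℝ × ℝ => (p.1 : ℂ) + dA (fun _ => p.2) p.1 := by
  unfold dA
  fun_prop

theorem hq_eq (η : ℝ → ℝ) (t : ℝ) : PBU.hq η t = (t : ℂ) + dA (fun _ => η t) t := rfl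

/-- **statistics of one species** -/
theorem MIn.nu1 {ρ : ℝ → ℂ} {η η' : Crs} (hc : MCr η η') (s : Bool) {g : ℂ → ℂ}
    (hg : Measurable g) : MIn fun r O _ _ x => PBU.nu1 ρ (η r O) s g x := by
  have hX := MIn.quX hc (hg.comp measurable_hqp)
  have hY := MIn.quY hc (hg.comp measurable_hqp)
  intro r a b
  unfold PBU.nu1
  refine Measurable.sub ?_ measurable_const
  cases s
  · simp only [Bool.false_eq_true, if_false]
    exact hY r a b
  · simp only [if_true]
    exact hX r a b

/-- statistics of both species -/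
theorem MIn.nu2 {ρ : ℝ → ℂ} {η η' : Crs} (hc : MCr η η') {g g' : ℂ → ℂ}
    (hg : Measurable g) (hg' : Measurable g') :
    MIn fun r O _ _ x => PBU.nu1 ρ (η r O) true g x + PBU.nu1 ρ (η r O) false g' x :=
  fun r a b => (MIn.nu1 hc true hg r a b).add (MIn.nu1 hc false hg' r a b)

/-- products of statistics -/
theorem MIn.nuP {ρ : ℝ → ℂ} {η η' : Crs} (hc : MCr η η') {ι : Type*} (t : Finset ι)
    {s : ι → Bool} {g : ι → ℂ → ℂ} (hg : ∀ i ∈ t, Measurable (g i)) :
    MIn fun r O _ _ x => ∏ i ∈ t, PBU.nu1 ρ (η r O) (s i) (g i) x :=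
  MIn.prodM t fun i hi => MIn.nu1 hc (s i) (hg i hi)

/-- statistics with a parameter (for Fubini) -/
theorem MInS.nu1 {ρ : S → ℝ → ℂ} {η η' : Crs} (hc : MCr η η') (s : Bool) {g : S → ℂ → ℂ}
    (hg : Measurable fun p : S × ℂ => g p.1 p.2)
    (hm : Measurable fun u : S => ∫ t : ℝ, ρ u t * g u t) :
    MInS fun u r O _ _ x => PBU.nu1 (ρ u) (η r O) s (g u) x := by
  intro r a b
  unfold PBU.nu1
  refine Measurable.sub ?_ (hm.comp measurable_fst)
  cases s
  · simp only [Bool.false_eq_true, if_false]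
    refine Finset.measurable_sum _ fun i _ => ?_
    have h1 : Measurable fun p : S × ((Fin r → Xo) × ((Fin a → ℝ) × (Fin b → ℝ))) => p.2.2.2 i :=
      (measurable_pi_apply i).comp
        (measurable_snd.comp (measurable_snd.comp measurable_snd))
    have h2 : Measurable fun p : S × ((Fin r → Xo) × ((Fin a → ℝ) × (Fin b → ℝ))) =>
        (p.2.2.2 i, η r p.2.1 (p.2.2.2 i)) :=
      h1.prodMk ((hc.m r).comp ((measurable_fst.comp measurable_snd).prodMk h1))
    exact hg.comp (measurable_fst.prodMk (measurable_hqp.comp h2))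
  · simp only [if_true]
    refine Finset.measurable_sum _ fun i _ => ?_
    have h1 : Measurable fun p : S × ((Fin r → Xo) × ((Fin a → ℝ) × (Fin b → ℝ))) => p.2.2.1 i :=
      (measurable_pi_apply i).comp
        (measurable_fst.comp (measurable_snd.comp measurable_snd))
    have h2 : Measurable fun p : S × ((Fin r → Xo) × ((Fin a → ℝ) × (Fin b → ℝ))) =>
        (p.2.2.1 i, η r p.2.1 (p.2.2.1 i)) :=
      h1.prodMk ((hc.m r).comp ((measurable_fst.comp measurable_snd).prodMk h1))
    exact hg.comp (measurable_fst.prodMk (measurable_hqp.comp h2))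

end PBF

end
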