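import Pool.Agent.PB.MFxiC
import Pool.Agent.NUP.MF.StripD

/-!
# Plan B: `V * Pc(. - a) = vc(. - a)` for rows at complex positions, `|Im a| < l`
-/

set_option autoImplicit false

open MeasureTheory Set Filter Topology

namespace Pool.Agent.PB

open NUMF

noncomputable section

lemma strip_open (b : ℝ) : IsOpen {w : ℂ | |w.im| < b} :=
  isOpen_lt (continuous_abs.comp Complex.continuous_im) continuous_const

lemma strip_preconn (b : ℝ) : IsPreconnected {w : ℂ | |w.im| < b} := by
  have e : {w : ℂ | |w.im| < b} = Complex.imLm ⁻¹' (Ioo (-b) b) := by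
    ext z
    simp [abs_lt]
  rw [e]
  exact ((convex_Ioo _ _).linear_preimage _).isPreconnected

lemma Pc_line_cont {w : ℂ} (hw : |w.im| < l) : Continuous fun u : ℝ => Pc (w - u) := by
  have hc : ContinuousOn Pc {w : ℂ | |w.im| < l} := fun w hw => (Pc_diff hw).continuousAt.continuousWithinAt
  refine hc.comp_continuous (by fun_prop) fun u => ?_
  simpa using hw

lemma dPc_line_cont {w : ℂ} (hw : |w.im| < l) : Continuous fun u : ℝ => deriv Pc (w - u) := by
  have hc : ContinuousOn (deriv Pc) {w : ℂ | |w.im| < l} := fun w hw =>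
    (Pc_analyticAt hw).deriv.continuousAt.continuousWithinAt
  refine hc.comp_continuous (by fun_prop) fun u => ?_
  simpa using hw

/-- `Pc` and its derivative are bounded in every closed strip -/
lemma Pc_bdd {b : ℝ} (hb0 : 0 ≤ b) (hb : b < l) : ∃ C : ℝ, 0 ≤ C ∧ ∀ z : ℂ, |z.im| ≤ b →
    ‖Pc z‖ ≤ C * Real.exp (-(8 / 3) * |z.re|) ∧ ‖deriv Pc z‖ ≤ C * Real.exp (-(8 / 3) * |z.re|) := by
  obtain ⟨C0, h0, H0⟩ := Pc_deriv_exp hb0 hb 0
  obtain ⟨C1, h1, H1⟩ := Pc_deriv_exp hb0 hb 1
  refine ⟨max C0 C1, h0.trans (le_max_left _ _), fun z hz => ⟨?_, ?_⟩⟩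
  · have := H0 z hz
    rw [iteratedDeriv_zero] at this
    exact this.trans (mul_le_mul_of_nonneg_right (le_max_left _ _) (Real.exp_pos _).le)
  · have := H1 z hz
    rw [iteratedDeriv_one] at this
    exact this.trans (mul_le_mul_of_nonneg_right (le_max_right _ _) (Real.exp_pos _).le)

/-- the convolution is analytic in the strip, with derivative the convolution of the derivative -/
theorem hasDerivAt_convV {z : ℂ} (hz : |z.im| < l) :
    Integrable (fun u : ℝ => Pc (z - u) * (V u : ℂ)) ∧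
    Integrable (fun u : ℝ => deriv Pc (z - u) * (V u : ℂ)) ∧
    HasDerivAt (fun z : ℂ => ∫ u : ℝ, Pc (z - u) * (V u : ℂ))
      (∫ u : ℝ, deriv Pc (z - u) * (V u : ℂ)) z := by
  have hV : Integrable fun u => (V u : ℂ) := V_integral.1.ofReal
  set b := (|z.im| + l) / 2 with hb
  have hb0 : 0 ≤ b := by have := abs_nonneg z.im; have := l_pos; rw [hb]; linarith
  have hbl : b < l := by rw [hb]; linarith
  have hzb : |z.im| < b := by rw [hb]; linarith
  obtain ⟨C, hC0, hC⟩ := Pc_bdd hb0 hbl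
  have hC1 : ∀ w : ℂ, |w.im| ≤ b → ∀ u : ℝ, ‖Pc (w - u)‖ ≤ C ∧ ‖deriv Pc (w - u)‖ ≤ C := by
    intro w hw u
    obtain ⟨k1, k2⟩ := hC (w - u) (by simpa using hw)
    have k3 : Real.exp (-(8 / 3) * |(w - (u:ℂ)).re|) ≤ 1 := by
      rw [Real.exp_le_one_iff]
      have := abs_nonneg (w - (u:ℂ)).re
      linarith
    exact ⟨k1.trans (mul_le_of_le_one_right hC0 k3), k2.trans (mul_le_of_le_one_right hC0 k3)⟩
  have hsn : {w : ℂ | |w.im| < b} ∈ 𝓝 z := (strip_open b).mem_nhds hzb
  have i1 : Integrable (fun u : ℝ => Pc (z - u) * (V u : ℂ)) :=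
    hV.bdd_mul (Pc_line_cont hz).aestronglyMeasurable (Eventually.of_forall fun u => (hC1 z hzb.le u).1)
  have i2 : Integrable (fun u : ℝ => deriv Pc (z - u) * (V u : ℂ)) :=
    hV.bdd_mul (dPc_line_cont hz).aestronglyMeasurable (Eventually.of_forall fun u => (hC1 z hzb.le u).2)
  refine ⟨i1, i2, ?_⟩
  have key := hasDerivAt_integral_of_dominated_loc_of_deriv_le (μ := volume) (𝕜 := ℂ)
    (s := {w : ℂ | |w.im| < b})
    (F := fun w u => Pc (w - (u:ℝ)) * (V u : ℂ)) (F' := fun w u => deriv Pc (w - (u:ℝ)) * (V u : ℂ))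
    (x₀ := z) (bound := fun u : ℝ => C * ‖(V u : ℂ)‖) hsn ?_ i1
    ((dPc_line_cont hz).aestronglyMeasurable.mul hV.aestronglyMeasurable) ?_ (hV.norm.const_mul C) ?_
  · exact key.2
  · filter_upwards [hsn] with w hw
    exact (Pc_line_cont (lt_trans hw hbl)).aestronglyMeasurable.mul hV.aestronglyMeasurable
  · refine Eventually.of_forall fun u w hw => ?_
    rw [norm_mul]
    exact mul_le_mul_of_nonneg_right (hC1 w (le_of_lt hw) u).2 (norm_nonneg _)
  · refine Eventually.of_forall fun u w hw => ?_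
    have hw' : |w.im| < b := hw
    have h1 : HasDerivAt Pc (deriv Pc (w - u)) (w - u) :=
      (Pc_diff (by simpa using hw'.trans hbl)).hasDerivAt
    have h2 := h1.comp w ((hasDerivAt_id w).sub_const (u : ℂ))
    rw [mul_one] at h2
    exact h2.mul_const _

/-- **analytic continuation of `P * V = v`** -/
theorem conv_Vc {z : ℂ} (hz : |z.im| < l) : ∫ u : ℝ, Pc (z - u) * (V u : ℂ) = vc z := by
  have a1 : AnalyticOnNhd ℂ (fun z => ∫ u : ℝ, Pc (z - u) * (V u : ℂ)) {w : ℂ | |w.im| < l} :=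
    DifferentiableOn.analyticOnNhd
      (fun w hw => (hasDerivAt_convV hw).2.2.differentiableAt.differentiableWithinAt) (strip_open l)
  have a2 : AnalyticOnNhd ℂ vc {w : ℂ | |w.im| < l} :=
    DifferentiableOn.analyticOnNhd (fun w hw => (vc_diff hw).differentiableWithinAt) (strip_open l)
  have h0 : (0:ℂ) ∈ {w : ℂ | |w.im| < l} := by simpa using l_pos
  have hfr : ∃ᶠ w in 𝓝[≠] (0:ℂ), (∫ u : ℝ, Pc (w - u) * (V u : ℂ)) = vc w := by
    have t1 : Tendsto (fun x : ℝ => (x : ℂ)) (𝓝[≠] 0) (𝓝[≠] 0) := by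
      refine tendsto_nhdsWithin_iff.2 ⟨?_, ?_⟩
      · have := Complex.continuous_ofReal.tendsto 0
        rw [Complex.ofReal_zero] at this
        exact this.mono_left nhdsWithin_le_nhds
      · filter_upwards [self_mem_nhdsWithin] with x hx
        simpa using hx
    refine t1.frequently ?_
    refine Eventually.frequently (Eventually.of_forall fun x => ?_)
    rw [vc_ofReal, ← (conv_V x).2, ← integral_complex_ofReal,
      ← integral_sub_left_eq_self (fun u : ℝ => Pc ((x : ℂ) - u) * (V u : ℂ)) volume x]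
    refine integral_congr_ae (Eventually.of_forall fun u => ?_)
    simp only
    push_cast
    rw [sub_sub_cancel, Pc_ofReal]
  exact a1.eqOn_of_preconnected_of_frequently_eq a2 (strip_preconn l) h0 hfr hz

/-- the row at position `a`: potential `vc (t - a)`, density `Pc (s - a)` -/
theorem conv_Vc_row {a : ℂ} (ha : |a.im| < l) (t : ℝ) :
    Integrable (fun s : ℝ => Pc (s - a) * (V (t - s) : ℂ)) ∧
    ∫ s : ℝ, Pc (s - a) * (V (t - s) : ℂ) = vc (t - a) := by
  have hz : |((t : ℂ) - a).im| < l := by simpa using ha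
  have h1 := (hasDerivAt_convV hz).1
  have e : ∀ s : ℝ, Pc (s - a) * (V (t - s) : ℂ) =
      (fun u : ℝ => Pc ((t : ℂ) - a - u) * (V u : ℂ)) (t - s) := by
    intro s
    simp only
    push_cast
    congr 2
    ring
  constructor
  · refine (h1.comp_sub_left t).congr (Eventually.of_forall fun s => ?_)
    exact (e s).symm
  · simp_rw [e]
    rw [integral_sub_left_eq_self (fun u : ℝ => Pc ((t : ℂ) - a - u) * (V u : ℂ)) volume t]
    exact conv_Vc hz

/-- the force of the row -/
theorem conv_dVc_row {a : ℂ} (ha : |a.im| < l) (t : ℝ) :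
    Integrable (fun s : ℝ => deriv Pc (s - a) * (V (t - s) : ℂ)) ∧
    ∫ s : ℝ, deriv Pc (s - a) * (V (t - s) : ℂ) = deriv vc (t - a) := by
  have hz : |((t : ℂ) - a).im| < l := by simpa using ha
  have h1 := (hasDerivAt_convV hz).2.1
  have h2 := (hasDerivAt_convV hz).2.2
  have e : ∀ s : ℝ, deriv Pc (s - a) * (V (t - s) : ℂ) =
      (fun u : ℝ => deriv Pc ((t : ℂ) - a - u) * (V u : ℂ)) (t - s) := by
    intro s
    simp only
    push_cast
    congr 2
    ring
  constructor
  · refine (h1.comp_sub_left t).congr (Eventually.of_forall fun s => ?_)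
    exact (e s).symm
  · simp_rw [e]
    rw [integral_sub_left_eq_self (fun u : ℝ => deriv Pc ((t : ℂ) - a - u) * (V u : ℂ)) volume t]
    rw [← h2.deriv]
    refine Filter.EventuallyEq.deriv_eq ?_
    filter_upwards [(strip_open l).mem_nhds hz] with w hw
    exact conv_Vc hw

end

end Pool.Agent.PB
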