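import Mathlib

/-!
# Plan B: the Ward identity of one class (helper13)

* `int_der`: the integral over `ℝ^ι` of the derivative in one coordinate is zero;
* `ward`: `∫ ∑_j (ξ_j' Φ + ξ_j ∂_j Φ) = 0`; `ward_param`: with parameters `ω : Ω`;
* `PhiG a k S`: product of one body factors `a` and of pair factors `k` over a finite set `S` of ordered
  pairs; logarithmic derivatives `A`, `K` (`a' = A a`, `k' = K k` at EVERY point: at a double zero of `k`
  the value of `K` is arbitrary);
* `ward_pair`, `ward_pair_param`: `∫ Φ (∑_j (ξ_j' + ξ_j A_j) + ∑_p (ξ_{p.1} - ξ_{p.2}) K_p) = 0`;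
* `PhiH`, `ward_pairH`, `ward_pairH_param`: the same with pair factors `k p s u` of two variables (curves),
  logarithmic derivatives `K1` in `s`, `K2` in `u`;
* `int_der_paramL`: the moved coordinates in the second factor of a product.
-/

set_option autoImplicit false

noncomputable section

open MeasureTheory Finset

namespace PBW

variable {ι : Type*} [Fintype ι] [DecidableEq ι]
variable {W : Type*} [NormedAddCommGroup W] [NormedSpace ℝ W]

/-! ### The divergence theorem on `ℝ^ι` -/

omit [Fintype ι] in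
/-- derivative in one coordinate as a derivative along a line -/
theorem hasLine {F : (ι → ℝ) → W} {F' : W} {t : ι → ℝ} {j : ι}
    (h : HasDerivAt (fun s => F (Function.update t j s)) F' (t j)) :
    HasLineDerivAt ℝ F F' t (Pi.single j 1) := by
  unfold HasLineDerivAt
  have e : (fun s : ℝ => F (t + s • Pi.single j 1)) =
      fun s : ℝ => (fun s => F (Function.update t j s)) (t j + s) := by
    funext s
    congr 1
    funext i
    by_cases hi : i = j
    · subst hi
      simp
    · simp [hi]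
  rw [e]
  exact HasDerivAt.comp_const_add (t j) 0 (by rwa [add_zero])

/-- **The integral of a derivative is zero.** -/
theorem int_der {F F' : (ι → ℝ) → W} (j : ι)
    (h : ∀ t, HasDerivAt (fun s => F (Function.update t j s)) (F' t) (t j))
    (hF : Integrable F) (hF' : Integrable F') : ∫ t, F' t = 0 := by
  have key := integral_bilinear_hasLineDerivAt_right_eq_neg_left_of_integrable
    (μ := (volume : Measure (ι → ℝ))) (f := fun _ : ι → ℝ => (1 : ℝ)) (f' := fun _ => (0 : ℝ))
    (g := F) (g' := F') (v := Pi.single j 1) (B := ContinuousLinearMap.lsmul ℝ ℝ)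
    (by simp) (by simpa using hF') (by simpa using hF)
    (fun x _ => by
      unfold HasLineDerivAt
      exact hasDerivAt_const _ _) (fun x _ => hasLine (h x))
  simpa using key

/-- **Ward identity**: the divergence of `ξ_j Φ`. -/
theorem ward {Φ : (ι → ℝ) → ℂ} {D : ι → (ι → ℝ) → ℂ} {ξ ξ' : ι → ℝ → ℂ}
    (hD : ∀ j t, HasDerivAt (fun s => Φ (Function.update t j s)) (D j t) (t j))
    (hξ : ∀ j s, HasDerivAt (ξ j) (ξ' j s) s)
    (h1 : ∀ j, Integrable fun t : ι → ℝ => ξ j (t j) * Φ t)
    (h2 : ∀ j, Integrable fun t : ι → ℝ => ξ' j (t j) * Φ t + ξ j (t j) * D j t) :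
    ∫ t : ι → ℝ, ∑ j, (ξ' j (t j) * Φ t + ξ j (t j) * D j t) = 0 := by
  rw [integral_finsetSum _ fun j _ => h2 j]
  refine sum_eq_zero fun j _ => int_der (F := fun t => ξ j (t j) * Φ t) j (fun t => ?_) (h1 j) (h2 j)
  have e : (fun s : ℝ => ξ j (Function.update t j s j) * Φ (Function.update t j s)) =
      fun s => ξ j s * Φ (Function.update t j s) := by
    funext s
    rw [Function.update_self]
  rw [e]
  have := (hξ j (t j)).mul (hD j t)
  rwa [Function.update_eq_self] at this

section param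

variable {Ω : Type*} [MeasurableSpace Ω] {μ : Measure Ω} [SFinite μ]

/-- `int_der` with parameters. -/
theorem int_der_param {F F' : (ι → ℝ) × Ω → W} (j : ι)
    (h : ∀ t ω, HasDerivAt (fun s => F (Function.update t j s, ω)) (F' (t, ω)) (t j))
    (hF : Integrable F (volume.prod μ)) (hF' : Integrable F' (volume.prod μ)) :
    ∫ x, F' x ∂(volume.prod μ) = 0 := by
  rw [integral_prod_symm _ hF']
  have h1 : ∀ᵐ ω ∂μ, ∫ t, F' (t, ω) = 0 := by
    filter_upwards [hF.prod_left_ae, hF'.prod_left_ae] with ω a1 a2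
    exact int_der j (fun t => h t ω) a1 a2
  rw [integral_congr_ae h1, integral_zero]

/-- **Ward identity with parameters.** -/
theorem ward_param {Φ : (ι → ℝ) × Ω → ℂ} {D : ι → (ι → ℝ) × Ω → ℂ} {ξ ξ' : ι → ℝ → ℂ}
    (hD : ∀ j t ω, HasDerivAt (fun s => Φ (Function.update t j s, ω)) (D j (t, ω)) (t j))
    (hξ : ∀ j s, HasDerivAt (ξ j) (ξ' j s) s)
    (h1 : ∀ j, Integrable (fun x : (ι → ℝ) × Ω => ξ j (x.1 j) * Φ x) (volume.prod μ))
    (h2 : ∀ j, Integrable (fun x : (ι → ℝ) × Ω => ξ' j (x.1 j) * Φ x + ξ j (x.1 j) * D j x)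
      (volume.prod μ)) :
    ∫ x : (ι → ℝ) × Ω, ∑ j, (ξ' j (x.1 j) * Φ x + ξ j (x.1 j) * D j x) ∂(volume.prod μ) = 0 := by
  rw [integral_finsetSum _ fun j _ => h2 j]
  refine sum_eq_zero fun j _ => int_der_param (F := fun x => ξ j (x.1 j) * Φ x) j
    (fun t ω => ?_) (h1 j) (h2 j)
  have e : (fun s : ℝ => ξ j (Function.update t j s j) * Φ (Function.update t j s, ω)) =
      fun s => ξ j s * Φ (Function.update t j s, ω) := by
    funext s
    rw [Function.update_self]
  show HasDerivAt (fun s : ℝ => ξ j (Function.update t j s j) * Φ (Function.update t j s, ω)) _ _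
  rw [e]
  have := (hξ j (t j)).mul (hD j t ω)
  rwa [Function.update_eq_self] at this

/-- `int_der_param`, the coordinates in the second factor. -/
theorem int_der_paramL {F F' : Ω × (ι → ℝ) → W} (j : ι)
    (h : ∀ ω t, HasDerivAt (fun s => F (ω, Function.update t j s)) (F' (ω, t)) (t j))
    (hF : Integrable F (μ.prod volume)) (hF' : Integrable F' (μ.prod volume)) :
    ∫ x, F' x ∂(μ.prod volume) = 0 := by
  rw [integral_prod _ hF']
  have h1 : ∀ᵐ ω ∂μ, ∫ t, F' (ω, t) = 0 := by
    filter_upwards [hF.prod_right_ae, hF'.prod_right_ae] with ω a1 a2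
    exact int_der j (fun t => h ω t) a1 a2
  rw [integral_congr_ae h1, integral_zero]

end param

/-! ### Products of one body factors and of pair factors -/

/-- The weight: one body factors `a i`, pair factors `k p` for the pairs of `S`. -/
def PhiG (a : ι → ℝ → ℂ) (k : ι × ι → ℝ → ℂ) (S : Finset (ι × ι)) (t : ι → ℝ) : ℂ :=
  (∏ i, a i (t i)) * ∏ p ∈ S, k p (t p.1 - t p.2)

/-- A kernel with a double zero at `0` (its logarithmic derivative is `2 / s + ..` there). -/
theorem ld_zero {k K : ℝ → ℂ} (h : ∀ s, s ≠ 0 → HasDerivAt k (K s * k s) s) (h0 : k 0 = 0)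
    (h1 : HasDerivAt k 0 0) (s : ℝ) : HasDerivAt k (K s * k s) s := by
  by_cases hs : s = 0
  · subst hs
    rw [h0, mul_zero]
    exact h1
  · exact h s hs

/-- the sign of the coordinate `j` in the difference of the pair `p` -/
def sg (j : ι) (p : ι × ι) : ℂ := (if p.1 = j then 1 else 0) - if p.2 = j then 1 else 0

/-- the logarithmic derivative of `PhiG` in the coordinate `j` -/
def LD (A : ι → ℝ → ℂ) (K : ι × ι → ℝ → ℂ) (S : Finset (ι × ι)) (j : ι) (t : ι → ℝ) : ℂ :=
  A j (t j) + ∑ p ∈ S, sg j p * K p (t p.1 - t p.2)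

/-- product rule for logarithmic derivatives -/
theorem prod_ld {κ : Type*} [DecidableEq κ] (S : Finset κ) {f : κ → ℝ → ℂ} {L : κ → ℂ} {s : ℝ}
    (h : ∀ i ∈ S, HasDerivAt (f i) (L i * f i s) s) :
    HasDerivAt (fun u => ∏ i ∈ S, f i u) ((∑ i ∈ S, L i) * ∏ i ∈ S, f i s) s := by
  induction S using Finset.induction_on with
  | empty =>
    simp only [prod_empty, sum_empty, zero_mul]
    exact hasDerivAt_const _ _
  | insert x S hx ih =>
    have h1 := h x (mem_insert_self _ _)
    have h2 := ih fun i hi => h i (mem_insert_of_mem hi)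
    have e : (fun u => ∏ i ∈ insert x S, f i u) = fun u => f x u * ∏ i ∈ S, f i u := by
      funext u
      exact prod_insert hx
    rw [e, sum_insert hx, prod_insert hx]
    refine (h1.mul h2).congr_deriv ?_
    ring

theorem PhiG_ld {a A : ι → ℝ → ℂ} {k K : ι × ι → ℝ → ℂ} {S : Finset (ι × ι)}
    (ha : ∀ i s, HasDerivAt (a i) (A i s * a i s) s)
    (hk : ∀ p ∈ S, ∀ s, HasDerivAt (k p) (K p s * k p s) s) (j : ι) (t : ι → ℝ) :
    HasDerivAt (fun s => PhiG a k S (Function.update t j s)) (LD A K S j t * PhiG a k S t) (t j) := by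
  have u1 : Function.update t j (t j) = t := Function.update_eq_self _ _
  have h1 : HasDerivAt (fun s => ∏ i, a i (Function.update t j s i))
      ((∑ i, if i = j then A j (t j) else 0) * ∏ i, a i (t i)) (t j) := by
    have := prod_ld (s := t j) univ (f := fun i s => a i (Function.update t j s i))
      (L := fun i => if i = j then A j (t j) else 0) (fun i _ => by
        by_cases hi : i = j
        · subst hi
          have e : (fun s : ℝ => a i (Function.update t i s i)) = a i := by
            funext s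
            rw [Function.update_self]
          rw [e, if_pos rfl, u1]
          exact ha i (t i)
        · have e : (fun s : ℝ => a i (Function.update t j s i)) = fun _ => a i (t i) := by
            funext s
            rw [Function.update_of_ne hi]
          rw [e, if_neg hi, zero_mul]
          exact hasDerivAt_const _ _)
    rwa [u1] at this
  have h2 : HasDerivAt (fun s => ∏ p ∈ S, k p (Function.update t j s p.1 - Function.update t j s p.2))
      ((∑ p ∈ S, sg j p * K p (t p.1 - t p.2)) * ∏ p ∈ S, k p (t p.1 - t p.2)) (t j) := by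
    have := prod_ld (s := t j) S
      (f := fun p s => k p (Function.update t j s p.1 - Function.update t j s p.2))
      (L := fun p => sg j p * K p (t p.1 - t p.2)) (fun p hp => by
        have d1 : HasDerivAt (fun s : ℝ => Function.update t j s p.1)
            (if p.1 = j then (1 : ℝ) else 0) (t j) := by
          by_cases hi : p.1 = j
          · have e : (fun s : ℝ => Function.update t j s p.1) = fun s => s := by
              funext s
              rw [hi, Function.update_self]
            rw [e, if_pos hi]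
            exact hasDerivAt_id _
          · have e : (fun s : ℝ => Function.update t j s p.1) = fun _ => t p.1 := by
              funext s
              rw [Function.update_of_ne hi]
            rw [e, if_neg hi]
            exact hasDerivAt_const _ _
        have d2 : HasDerivAt (fun s : ℝ => Function.update t j s p.2)
            (if p.2 = j then (1 : ℝ) else 0) (t j) := by
          by_cases hi : p.2 = j
          · have e : (fun s : ℝ => Function.update t j s p.2) = fun s => s := by
              funext s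
              rw [hi, Function.update_self]
            rw [e, if_pos hi]
            exact hasDerivAt_id _
          · have e : (fun s : ℝ => Function.update t j s p.2) = fun _ => t p.2 := by
              funext s
              rw [Function.update_of_ne hi]
            rw [e, if_neg hi]
            exact hasDerivAt_const _ _
        have d3 := d1.sub d2
        have h0 := hk p hp (t p.1 - t p.2)
        have e0 : Function.update t j (t j) p.1 - Function.update t j (t j) p.2 = t p.1 - t p.2 := by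
          rw [u1]
        rw [← e0] at h0
        have d4 := HasDerivAt.scomp (t j) h0 d3
        rw [e0] at d4
        refine HasDerivAt.congr_deriv d4 ?_
        rw [u1]
        unfold sg
        rw [Complex.real_smul]
        split_ifs <;> push_cast <;> ring)
    rwa [u1] at this
  have e : (fun s => PhiG a k S (Function.update t j s)) = fun s =>
      (∏ i, a i (Function.update t j s i)) *
        ∏ p ∈ S, k p (Function.update t j s p.1 - Function.update t j s p.2) := rfl
  rw [e]
  refine (h1.mul h2).congr_deriv ?_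
  rw [u1, sum_ite_eq' univ j, if_pos (mem_univ j)]
  unfold LD PhiG
  ring

/-- the insertion of the Ward identity -/
def insW (A ξ ξ' : ι → ℝ → ℂ) (K : ι × ι → ℝ → ℂ) (S : Finset (ι × ι)) (t : ι → ℝ) : ℂ :=
  (∑ j, (ξ' j (t j) + ξ j (t j) * A j (t j))) +
    ∑ p ∈ S, (ξ p.1 (t p.1) - ξ p.2 (t p.2)) * K p (t p.1 - t p.2)

theorem sum_sg (ξ : ι → ℝ → ℂ) (K : ι × ι → ℝ → ℂ) (S : Finset (ι × ι)) (t : ι → ℝ) :
    ∑ j, ξ j (t j) * ∑ p ∈ S, sg j p * K p (t p.1 - t p.2) =
      ∑ p ∈ S, (ξ p.1 (t p.1) - ξ p.2 (t p.2)) * K p (t p.1 - t p.2) := by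
  simp only [mul_sum]
  rw [sum_comm]
  refine sum_congr rfl fun p _ => ?_
  have e : ∀ j, ξ j (t j) * (sg j p * K p (t p.1 - t p.2)) =
      (if p.1 = j then ξ j (t j) * K p (t p.1 - t p.2) else 0) -
        if p.2 = j then ξ j (t j) * K p (t p.1 - t p.2) else 0 := by
    intro j
    unfold sg
    by_cases h1 : p.1 = j
    · by_cases h2 : p.2 = j
      · simp [h1, h2]
      · simp [h1, h2]
    · by_cases h2 : p.2 = j
      · simp [h1, h2]
      · simp [h1, h2]
  simp only [e, sum_sub_distrib, sum_ite_eq, mem_univ, if_true]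
  ring

theorem ins_eq (a A ξ ξ' : ι → ℝ → ℂ) (k K : ι × ι → ℝ → ℂ) (S : Finset (ι × ι)) (t : ι → ℝ) :
    ∑ j, (ξ' j (t j) * PhiG a k S t + ξ j (t j) * (LD A K S j t * PhiG a k S t)) =
      insW A ξ ξ' K S t * PhiG a k S t := by
  have e : ∀ j, ξ' j (t j) * PhiG a k S t + ξ j (t j) * (LD A K S j t * PhiG a k S t) =
      (ξ' j (t j) + ξ j (t j) * A j (t j) +
        ξ j (t j) * ∑ p ∈ S, sg j p * K p (t p.1 - t p.2)) * PhiG a k S t := by
    intro j
    unfold LD
    ring
  rw [sum_congr rfl fun j _ => e j, ← sum_mul, sum_add_distrib, sum_sg]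
  rfl

/-- **Ward identity for a product weight.** -/
theorem ward_pair {a A ξ ξ' : ι → ℝ → ℂ} {k K : ι × ι → ℝ → ℂ} {S : Finset (ι × ι)}
    (ha : ∀ i s, HasDerivAt (a i) (A i s * a i s) s)
    (hk : ∀ p ∈ S, ∀ s, HasDerivAt (k p) (K p s * k p s) s)
    (hξ : ∀ j s, HasDerivAt (ξ j) (ξ' j s) s)
    (h1 : ∀ j, Integrable fun t : ι → ℝ => ξ j (t j) * PhiG a k S t)
    (h2 : ∀ j, Integrable fun t : ι → ℝ =>
      ξ' j (t j) * PhiG a k S t + ξ j (t j) * (LD A K S j t * PhiG a k S t)) :
    ∫ t : ι → ℝ, insW A ξ ξ' K S t * PhiG a k S t = 0 := by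
  rw [← ward (D := fun j t => LD A K S j t * PhiG a k S t) (fun j t => PhiG_ld ha hk j t) hξ h1 h2]
  exact integral_congr_ae (Filter.Eventually.of_forall fun t => (ins_eq a A ξ ξ' k K S t).symm)

section param

variable {Ω : Type*} [MeasurableSpace Ω] {μ : Measure Ω} [SFinite μ]

/-- **Ward identity for a product weight, with parameters** (all factors may depend on `ω`; `c ω` = the
factor of the parameters alone may be put into one of the `a i`, or into `μ`). -/
theorem ward_pair_param {a A : Ω → ι → ℝ → ℂ} {ξ ξ' : ι → ℝ → ℂ} {k K : Ω → ι × ι → ℝ → ℂ}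
    {c : Ω → ℂ} {S : Finset (ι × ι)}
    (ha : ∀ ω i s, HasDerivAt (a ω i) (A ω i s * a ω i s) s)
    (hk : ∀ ω, ∀ p ∈ S, ∀ s, HasDerivAt (k ω p) (K ω p s * k ω p s) s)
    (hξ : ∀ j s, HasDerivAt (ξ j) (ξ' j s) s)
    (h1 : ∀ j, Integrable (fun x : (ι → ℝ) × Ω => ξ j (x.1 j) * (c x.2 * PhiG (a x.2) (k x.2) S x.1))
      (volume.prod μ))
    (h2 : ∀ j, Integrable (fun x : (ι → ℝ) × Ω =>
      ξ' j (x.1 j) * (c x.2 * PhiG (a x.2) (k x.2) S x.1) +
        ξ j (x.1 j) * (LD (A x.2) (K x.2) S j x.1 * (c x.2 * PhiG (a x.2) (k x.2) S x.1)))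
      (volume.prod μ)) :
    ∫ x : (ι → ℝ) × Ω, insW (A x.2) ξ ξ' (K x.2) S x.1 * (c x.2 * PhiG (a x.2) (k x.2) S x.1)
      ∂(volume.prod μ) = 0 := by
  have key := ward_param (μ := μ) (Φ := fun x : (ι → ℝ) × Ω => c x.2 * PhiG (a x.2) (k x.2) S x.1)
    (D := fun j x => LD (A x.2) (K x.2) S j x.1 * (c x.2 * PhiG (a x.2) (k x.2) S x.1))
    (fun j t ω => ((PhiG_ld (ha ω) (hk ω) j t).const_mul (c ω)).congr_deriv (by ring)) hξ h1 h2
  rw [← key]
  refine integral_congr_ae (Filter.Eventually.of_forall fun x => ?_)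
  have e := ins_eq (a x.2) (A x.2) ξ ξ' (k x.2) (K x.2) S x.1
  show insW (A x.2) ξ ξ' (K x.2) S x.1 * (c x.2 * PhiG (a x.2) (k x.2) S x.1) = _
  have e2 : insW (A x.2) ξ ξ' (K x.2) S x.1 * (c x.2 * PhiG (a x.2) (k x.2) S x.1) =
      c x.2 * (insW (A x.2) ξ ξ' (K x.2) S x.1 * PhiG (a x.2) (k x.2) S x.1) := by ring
  rw [e2, ← e, mul_sum]
  refine sum_congr rfl fun j _ => ?_
  ring

end param

/-! ### Pair factors of two variables -/

/-- The weight with pair factors `k p s u`. -/
def PhiH (a : ι → ℝ → ℂ) (k : ι × ι → ℝ → ℝ → ℂ) (S : Finset (ι × ι)) (t : ι → ℝ) : ℂ :=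
  (∏ i, a i (t i)) * ∏ p ∈ S, k p (t p.1) (t p.2)

/-- the logarithmic derivative of `PhiH` in the coordinate `j` -/
def LDH (A : ι → ℝ → ℂ) (K1 K2 : ι × ι → ℝ → ℝ → ℂ) (S : Finset (ι × ι)) (j : ι) (t : ι → ℝ) : ℂ :=
  A j (t j) + ∑ p ∈ S, ((if p.1 = j then K1 p (t p.1) (t p.2) else 0) +
    if p.2 = j then K2 p (t p.1) (t p.2) else 0)

theorem PhiH_ld {a A : ι → ℝ → ℂ} {k K1 K2 : ι × ι → ℝ → ℝ → ℂ} {S : Finset (ι × ι)}
    (ha : ∀ i s, HasDerivAt (a i) (A i s * a i s) s) (hS : ∀ p ∈ S, p.1 ≠ p.2)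
    (hk1 : ∀ p ∈ S, ∀ s u, HasDerivAt (fun s => k p s u) (K1 p s u * k p s u) s)
    (hk2 : ∀ p ∈ S, ∀ s u, HasDerivAt (fun u => k p s u) (K2 p s u * k p s u) u)
    (j : ι) (t : ι → ℝ) :
    HasDerivAt (fun s => PhiH a k S (Function.update t j s)) (LDH A K1 K2 S j t * PhiH a k S t)
      (t j) := by
  have u1 : Function.update t j (t j) = t := Function.update_eq_self _ _
  have h1 : HasDerivAt (fun s => ∏ i, a i (Function.update t j s i))
      ((∑ i, if i = j then A j (t j) else 0) * ∏ i, a i (t i)) (t j) := by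
    have := prod_ld (s := t j) univ (f := fun i s => a i (Function.update t j s i))
      (L := fun i => if i = j then A j (t j) else 0) (fun i _ => by
        by_cases hi : i = j
        · subst hi
          have e : (fun s : ℝ => a i (Function.update t i s i)) = a i := by
            funext s
            rw [Function.update_self]
          rw [e, if_pos rfl, u1]
          exact ha i (t i)
        · have e : (fun s : ℝ => a i (Function.update t j s i)) = fun _ => a i (t i) := by
            funext s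
            rw [Function.update_of_ne hi]
          rw [e, if_neg hi, zero_mul]
          exact hasDerivAt_const _ _)
    rwa [u1] at this
  have h2 : HasDerivAt (fun s => ∏ p ∈ S, k p (Function.update t j s p.1) (Function.update t j s p.2))
      ((∑ p ∈ S, ((if p.1 = j then K1 p (t p.1) (t p.2) else 0) +
        if p.2 = j then K2 p (t p.1) (t p.2) else 0)) * ∏ p ∈ S, k p (t p.1) (t p.2)) (t j) := by
    have := prod_ld (s := t j) S
      (f := fun p s => k p (Function.update t j s p.1) (Function.update t j s p.2))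
      (L := fun p => (if p.1 = j then K1 p (t p.1) (t p.2) else 0) +
        if p.2 = j then K2 p (t p.1) (t p.2) else 0) (fun p hp => by
        by_cases h1 : p.1 = j
        · have h2 : p.2 ≠ j := fun e => hS p hp (h1.trans e.symm)
          have e : (fun s : ℝ => k p (Function.update t j s p.1) (Function.update t j s p.2)) =
              fun s => k p s (t p.2) := by
            funext s
            rw [h1, Function.update_self, Function.update_of_ne h2]
          rw [e, if_pos h1, if_neg h2, add_zero, u1, ← h1]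
          exact hk1 p hp _ _
        · by_cases h2 : p.2 = j
          · have e : (fun s : ℝ => k p (Function.update t j s p.1) (Function.update t j s p.2)) =
                fun s => k p (t p.1) s := by
              funext s
              rw [h2, Function.update_self, Function.update_of_ne h1]
            rw [e, if_neg h1, if_pos h2, zero_add, u1, ← h2]
            exact hk2 p hp _ _
          · have e : (fun s : ℝ => k p (Function.update t j s p.1) (Function.update t j s p.2)) =
                fun _ => k p (t p.1) (t p.2) := by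
              funext s
              rw [Function.update_of_ne h1, Function.update_of_ne h2]
            rw [e, if_neg h1, if_neg h2, add_zero, zero_mul]
            exact hasDerivAt_const _ _)
    rwa [u1] at this
  have e : (fun s => PhiH a k S (Function.update t j s)) = fun s =>
      (∏ i, a i (Function.update t j s i)) *
        ∏ p ∈ S, k p (Function.update t j s p.1) (Function.update t j s p.2) := rfl
  rw [e]
  refine (h1.mul h2).congr_deriv ?_
  rw [u1, sum_ite_eq' univ j, if_pos (mem_univ j)]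
  unfold LDH PhiH
  ring

/-- the insertion of the Ward identity on curves -/
def insH (A ξ ξ' : ι → ℝ → ℂ) (K1 K2 : ι × ι → ℝ → ℝ → ℂ) (S : Finset (ι × ι)) (t : ι → ℝ) : ℂ :=
  (∑ j, (ξ' j (t j) + ξ j (t j) * A j (t j))) +
    ∑ p ∈ S, (ξ p.1 (t p.1) * K1 p (t p.1) (t p.2) + ξ p.2 (t p.2) * K2 p (t p.1) (t p.2))

theorem insH_eq (a A ξ ξ' : ι → ℝ → ℂ) (k K1 K2 : ι × ι → ℝ → ℝ → ℂ) (S : Finset (ι × ι))
    (t : ι → ℝ) :
    ∑ j, (ξ' j (t j) * PhiH a k S t + ξ j (t j) * (LDH A K1 K2 S j t * PhiH a k S t)) =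
      insH A ξ ξ' K1 K2 S t * PhiH a k S t := by
  have e : ∀ j, ξ' j (t j) * PhiH a k S t + ξ j (t j) * (LDH A K1 K2 S j t * PhiH a k S t) =
      (ξ' j (t j) + ξ j (t j) * A j (t j) +
        ξ j (t j) * ∑ p ∈ S, ((if p.1 = j then K1 p (t p.1) (t p.2) else 0) +
    if p.2 = j then K2 p (t p.1) (t p.2) else 0)) * PhiH a k S t := by
    intro j
    unfold LDH
    ring
  have e2 : ∑ j, ξ j (t j) * ∑ p ∈ S, ((if p.1 = j then K1 p (t p.1) (t p.2) else 0) +
      if p.2 = j then K2 p (t p.1) (t p.2) else 0) =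
      ∑ p ∈ S, (ξ p.1 (t p.1) * K1 p (t p.1) (t p.2) + ξ p.2 (t p.2) * K2 p (t p.1) (t p.2)) := by
    simp only [mul_sum]
    rw [sum_comm]
    refine sum_congr rfl fun p _ => ?_
    simp only [mul_add, mul_ite, mul_zero, sum_add_distrib, sum_ite_eq, mem_univ, if_true]
  rw [sum_congr rfl fun j _ => e j, ← sum_mul, sum_add_distrib, e2]
  rfl

/-- **Ward identity for a product weight on curves.** -/
theorem ward_pairH {a A ξ ξ' : ι → ℝ → ℂ} {k K1 K2 : ι × ι → ℝ → ℝ → ℂ} {S : Finset (ι × ι)}
    (ha : ∀ i s, HasDerivAt (a i) (A i s * a i s) s) (hS : ∀ p ∈ S, p.1 ≠ p.2)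
    (hk1 : ∀ p ∈ S, ∀ s u, HasDerivAt (fun s => k p s u) (K1 p s u * k p s u) s)
    (hk2 : ∀ p ∈ S, ∀ s u, HasDerivAt (fun u => k p s u) (K2 p s u * k p s u) u)
    (hξ : ∀ j s, HasDerivAt (ξ j) (ξ' j s) s)
    (h1 : ∀ j, Integrable fun t : ι → ℝ => ξ j (t j) * PhiH a k S t)
    (h2 : ∀ j, Integrable fun t : ι → ℝ =>
      ξ' j (t j) * PhiH a k S t + ξ j (t j) * (LDH A K1 K2 S j t * PhiH a k S t)) :
    ∫ t : ι → ℝ, insH A ξ ξ' K1 K2 S t * PhiH a k S t = 0 := by
  rw [← ward (D := fun j t => LDH A K1 K2 S j t * PhiH a k S t)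
    (fun j t => PhiH_ld ha hS hk1 hk2 j t) hξ h1 h2]
  exact integral_congr_ae
    (Filter.Eventually.of_forall fun t => (insH_eq a A ξ ξ' k K1 K2 S t).symm)

section param

variable {Ω : Type*} [MeasurableSpace Ω] {μ : Measure Ω} [SFinite μ]

/-- **Ward identity for a product weight on curves, with parameters.** -/
theorem ward_pairH_param {a A : Ω → ι → ℝ → ℂ} {ξ ξ' : ι → ℝ → ℂ}
    {k K1 K2 : Ω → ι × ι → ℝ → ℝ → ℂ} {c : Ω → ℂ} {S : Finset (ι × ι)}
    (ha : ∀ ω i s, HasDerivAt (a ω i) (A ω i s * a ω i s) s) (hS : ∀ p ∈ S, p.1 ≠ p.2)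
    (hk1 : ∀ ω, ∀ p ∈ S, ∀ s u, HasDerivAt (fun s => k ω p s u) (K1 ω p s u * k ω p s u) s)
    (hk2 : ∀ ω, ∀ p ∈ S, ∀ s u, HasDerivAt (fun u => k ω p s u) (K2 ω p s u * k ω p s u) u)
    (hξ : ∀ j s, HasDerivAt (ξ j) (ξ' j s) s)
    (h1 : ∀ j, Integrable (fun x : (ι → ℝ) × Ω => ξ j (x.1 j) * (c x.2 * PhiH (a x.2) (k x.2) S x.1))
      (volume.prod μ))
    (h2 : ∀ j, Integrable (fun x : (ι → ℝ) × Ω =>
      ξ' j (x.1 j) * (c x.2 * PhiH (a x.2) (k x.2) S x.1) +
        ξ j (x.1 j) * (LDH (A x.2) (K1 x.2) (K2 x.2) S j x.1 *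
          (c x.2 * PhiH (a x.2) (k x.2) S x.1))) (volume.prod μ)) :
    ∫ x : (ι → ℝ) × Ω, insH (A x.2) ξ ξ' (K1 x.2) (K2 x.2) S x.1 *
      (c x.2 * PhiH (a x.2) (k x.2) S x.1) ∂(volume.prod μ) = 0 := by
  have key := ward_param (μ := μ) (Φ := fun x : (ι → ℝ) × Ω => c x.2 * PhiH (a x.2) (k x.2) S x.1)
    (D := fun j x => LDH (A x.2) (K1 x.2) (K2 x.2) S j x.1 * (c x.2 * PhiH (a x.2) (k x.2) S x.1))
    (fun j t ω => ((PhiH_ld (ha ω) hS (hk1 ω) (hk2 ω) j t).const_mul (c ω)).congr_deriv (by ring))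
    hξ h1 h2
  rw [← key]
  refine integral_congr_ae (Filter.Eventually.of_forall fun x => ?_)
  have e := insH_eq (a x.2) (A x.2) ξ ξ' (k x.2) (K1 x.2) (K2 x.2) S x.1
  show insH (A x.2) ξ ξ' (K1 x.2) (K2 x.2) S x.1 * (c x.2 * PhiH (a x.2) (k x.2) S x.1) = _
  have e2 : insH (A x.2) ξ ξ' (K1 x.2) (K2 x.2) S x.1 * (c x.2 * PhiH (a x.2) (k x.2) S x.1) =
      c x.2 * (insH (A x.2) ξ ξ' (K1 x.2) (K2 x.2) S x.1 * PhiH (a x.2) (k x.2) S x.1) := by ring
  rw [e2, ← e, mul_sum]
  refine sum_congr rfl fun j _ => ?_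
  ring

end param

end PBW

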