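import Pool.Agent.PB.GasWard
import Pool.Agent.PB.Ward

/-!
# The Ward identity of a gas on curves, in the form of statistics (plan B)

Particles `i : ι` at real parameters `t i`; `J i` = the complex derivative of the position along the
curve of the particle `i`; one body functions `h i` (derivative `κ i * J i * h i`), pair functions
`w i j s u` of two parameters (derivatives `J i s * w'`, `-J j u * w'`); vector field `X i` with
derivative `J i * dX i`; all of `κ`, `w'`, `dX`, `dO` are derivatives in the COMPLEX position.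

* `PhiC`: the weight with all the Jacobians; `dPhiC` its derivatives in the complex position;
* **`wardC`**: `∫ ((∑ (dX + X κ) + ∑_{pairs} a) O + ∑ X dO) PhiC = 0`;
* **`gasWardC`**: `∫ ((-nuL g + nuQ a + ∑ X lam) O + ∑ X dO) PhiC = 0` (`gasAlg`).
-/

set_option autoImplicit false
set_option linter.unusedSectionVars false

noncomputable section

open MeasureTheory Finset
open scoped Classical

namespace PB

variable {ι S : Type*} [Fintype ι] [Fintype S]

/-- the weight on curves without the Jacobians -/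
def PhiN (r : ι → ι → Prop) (h : ι → ℝ → ℂ) (w : ι → ι → ℝ → ℝ → ℂ) (t : ι → ℝ) : ℂ :=
  (∏ i, h i (t i)) * ∏ p ∈ prs r, w p.1 p.2 (t p.1) (t p.2)

/-- the weight on curves -/
def PhiC (r : ι → ι → Prop) (J h : ι → ℝ → ℂ) (w : ι → ι → ℝ → ℝ → ℂ) (t : ι → ℝ) : ℂ :=
  (∏ i, J i (t i)) * PhiN r h w t

/-- the weight without the Jacobians, the pair `p` differentiated -/
def PhiNP (r : ι → ι → Prop) (h : ι → ℝ → ℂ) (w w' : ι → ι → ℝ → ℝ → ℂ) (t : ι → ℝ) (p : ι × ι) :
    ℂ :=
  (∏ i, h i (t i)) * (w' p.1 p.2 (t p.1) (t p.2) *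
    ∏ q ∈ (prs r).erase p, w q.1 q.2 (t q.1) (t q.2))

/-- derivative of the weight without the Jacobians in the complex position `k` -/
def dPhiN (r : ι → ι → Prop) (h κ : ι → ℝ → ℂ) (w w' : ι → ι → ℝ → ℝ → ℂ) (k : ι) (t : ι → ℝ) :
    ℂ :=
  κ k (t k) * PhiN r h w t + ∑ p ∈ prs r,
    ((if p.1 = k then (1 : ℂ) else 0) - (if p.2 = k then (1 : ℂ) else 0)) * PhiNP r h w w' t p

/-- derivative of the weight in the complex position `k` -/
def dPhiC (r : ι → ι → Prop) (J h κ : ι → ℝ → ℂ) (w w' : ι → ι → ℝ → ℝ → ℂ) (k : ι) (t : ι → ℝ) :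
    ℂ :=
  (∏ i, J i (t i)) * dPhiN r h κ w w' k t

theorem hasDerivAt_PhiN {r : ι → ι → Prop} (hr : ∀ i, ¬ r i i) {J h κ : ι → ℝ → ℂ}
    {w w' : ι → ι → ℝ → ℝ → ℂ}
    (hh : ∀ i s, HasDerivAt (h i) (κ i s * J i s * h i s) s)
    (hw1 : ∀ i j s u, HasDerivAt (fun s => w i j s u) (J i s * w' i j s u) s)
    (hw2 : ∀ i j s u, HasDerivAt (fun u => w i j s u) (-(J j u) * w' i j s u) u)
    (k : ι) (t : ι → ℝ) :
    HasDerivAt (fun s => PhiN r h w (Function.update t k s)) (J k (t k) * dPhiN r h κ w w' k t)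
      (t k) := by
  have u1 : Function.update t k (t k) = t := Function.update_eq_self _ _
  have h1 := HasDerivAt.fun_finsetProd (u := (univ : Finset ι)) (x := t k)
    (f := fun i s => h i (Function.update t k s i))
    (f' := fun i => (if i = k then κ k (t k) * J k (t k) else 0) * h i (t i))
    (fun i _ => by
      by_cases hi : i = k
      · subst hi
        have e : (fun s : ℝ => h i (Function.update t i s i)) = h i := by
          funext s
          rw [Function.update_self]
        rw [e, if_pos rfl]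
        exact hh i (t i)
      · have e : (fun s : ℝ => h i (Function.update t k s i)) = fun _ => h i (t i) := by
          funext s
          rw [Function.update_of_ne hi]
        rw [e, if_neg hi, zero_mul]
        exact hasDerivAt_const _ _)
  have h2 := HasDerivAt.fun_finsetProd (u := prs r) (x := t k)
    (f := fun p s => w p.1 p.2 (Function.update t k s p.1) (Function.update t k s p.2))
    (f' := fun p => ((if p.1 = k then (1 : ℂ) else 0) - (if p.2 = k then (1 : ℂ) else 0)) *
        (J k (t k) * w' p.1 p.2 (t p.1) (t p.2)))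
    (fun p hp => by
      have hne : p.1 ≠ p.2 := by
        intro h0
        have h3 : r p.1 p.2 := by simpa [prs] using hp
        rw [h0] at h3
        exact hr _ h3
      by_cases hp1 : p.1 = k
      · have hp2 : p.2 ≠ k := fun e => hne (hp1.trans e.symm)
        have e : (fun s : ℝ => w p.1 p.2 (Function.update t k s p.1) (Function.update t k s p.2)) =
            fun s => w p.1 p.2 s (t p.2) := by
          funext s
          rw [hp1, Function.update_self, Function.update_of_ne hp2]
        rw [e, if_pos hp1, if_neg hp2, sub_zero, one_mul, ← hp1]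
        exact hw1 p.1 p.2 _ _
      · by_cases hp2 : p.2 = k
        · have e : (fun s : ℝ => w p.1 p.2 (Function.update t k s p.1)
              (Function.update t k s p.2)) = fun s => w p.1 p.2 (t p.1) s := by
            funext s
            rw [hp2, Function.update_self, Function.update_of_ne hp1]
          rw [e, if_neg hp1, if_pos hp2, zero_sub, neg_one_mul, ← neg_mul, ← hp2]
          exact hw2 p.1 p.2 _ _
        · have e : (fun s : ℝ => w p.1 p.2 (Function.update t k s p.1)
              (Function.update t k s p.2)) = fun _ => w p.1 p.2 (t p.1) (t p.2) := by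
            funext s
            rw [Function.update_of_ne hp1, Function.update_of_ne hp2]
          rw [e, if_neg hp1, if_neg hp2, sub_zero, zero_mul]
          exact hasDerivAt_const _ _)
  have h3 := h1.mul h2
  simp only [u1] at h3
  have hfin : HasDerivAt (fun s : ℝ => PhiN r h w (Function.update t k s)) _ (t k) := h3
  refine hfin.congr_deriv ?_
  unfold dPhiN PhiN PhiNP
  have e1 : (∑ i, (∏ j ∈ univ.erase i, h j (t j)) •
      ((if i = k then κ k (t k) * J k (t k) else 0) * h i (t i))) =
      κ k (t k) * J k (t k) * ∏ i, h i (t i) := by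
    rw [Finset.sum_eq_single k]
    · rw [if_pos rfl, smul_eq_mul, ← Finset.mul_prod_erase univ (fun i => h i (t i)) (mem_univ k)]
      ring
    · intro i _ hik
      simp [hik]
    · intro hk
      exact absurd (mem_univ k) hk
  rw [e1, Finset.mul_sum, mul_add, Finset.mul_sum]
  congr 1
  · ring
  · refine Finset.sum_congr rfl fun p _ => ?_
    rw [smul_eq_mul]
    ring

/-- **the sum of the derivatives along the field** -/
theorem sum_dPhiN {r : ι → ι → Prop} {h κ : ι → ℝ → ℂ} {w w' : ι → ι → ℝ → ℝ → ℂ}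
    {X : ι → ℝ → ℂ} {a : ι → ι → ℝ → ℝ → ℂ}
    (ha : ∀ i j s t, (X i s - X j t) * w' i j s t = a i j s t * w i j s t) (t : ι → ℝ) :
    ∑ k, X k (t k) * dPhiN r h κ w w' k t =
      ((∑ k, X k (t k) * κ k (t k)) + ∑ p ∈ prs r, a p.1 p.2 (t p.1) (t p.2)) *
        PhiN r h w t := by
  unfold dPhiN
  simp_rw [mul_add]
  rw [Finset.sum_add_distrib, add_mul, Finset.sum_mul, Finset.sum_mul]
  congr 1
  · exact Finset.sum_congr rfl fun k _ => by ring
  · simp_rw [Finset.mul_sum]
    rw [Finset.sum_comm]
    refine Finset.sum_congr rfl fun p hp => ?_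
    have e1 : ∑ k, X k (t k) * (((if p.1 = k then (1 : ℂ) else 0) -
        (if p.2 = k then (1 : ℂ) else 0)) * PhiNP r h w w' t p) =
        (X p.1 (t p.1) - X p.2 (t p.2)) * PhiNP r h w w' t p := by
      have : ∀ k, X k (t k) * (((if p.1 = k then (1 : ℂ) else 0) -
        (if p.2 = k then (1 : ℂ) else 0)) * PhiNP r h w w' t p) =
        (if p.1 = k then X k (t k) else 0) * PhiNP r h w w' t p -
        (if p.2 = k then X k (t k) else 0) * PhiNP r h w w' t p := by
        intro k
        split_ifs <;> ring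
      simp_rw [this]
      rw [Finset.sum_sub_distrib, ← Finset.sum_mul, ← Finset.sum_mul, Finset.sum_ite_eq,
        Finset.sum_ite_eq]
      simp only [mem_univ, if_true]
      ring
    rw [e1]
    unfold PhiNP PhiN
    rw [← Finset.mul_prod_erase (prs r) (fun q => w q.1 q.2 (t q.1) (t q.2)) hp]
    have := ha p.1 p.2 (t p.1) (t p.2)
    calc _ = (∏ i, h i (t i)) * (((X p.1 (t p.1) - X p.2 (t p.2)) *
          w' p.1 p.2 (t p.1) (t p.2)) *
          ∏ q ∈ (prs r).erase p, w q.1 q.2 (t q.1) (t q.2)) := by ring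
      _ = _ := by rw [this]; ring

/-- **the Ward identity on curves** with an insertion `O` -/
theorem wardC {r : ι → ι → Prop} (hr : ∀ i, ¬ r i i) {J h κ X dX : ι → ℝ → ℂ}
    {w w' a : ι → ι → ℝ → ℝ → ℂ} {O : (ι → ℝ) → ℂ} {dO : ι → (ι → ℝ) → ℂ}
    (hh : ∀ i s, HasDerivAt (h i) (κ i s * J i s * h i s) s)
    (hw1 : ∀ i j s u, HasDerivAt (fun s => w i j s u) (J i s * w' i j s u) s)
    (hw2 : ∀ i j s u, HasDerivAt (fun u => w i j s u) (-(J j u) * w' i j s u) u)
    (hX : ∀ i s, HasDerivAt (X i) (J i s * dX i s) s)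
    (ha : ∀ i j s t, (X i s - X j t) * w' i j s t = a i j s t * w i j s t)
    (hO : ∀ k t, HasDerivAt (fun s => O (Function.update t k s)) (J k (t k) * dO k t) (t k))
    (h0 : ∀ k, Integrable (fun t : ι → ℝ => (∏ i ∈ univ.erase k, J i (t i)) *
      (X k (t k) * (O t * PhiN r h w t))))
    (h1 : ∀ k, Integrable (fun t : ι → ℝ => dX k (t k) * (O t * PhiC r J h w t)))
    (h2 : ∀ k, Integrable (fun t : ι → ℝ => X k (t k) * (dO k t * PhiC r J h w t)))
    (h3 : ∀ k, Integrable (fun t : ι → ℝ => X k (t k) * (O t * dPhiC r J h κ w w' k t))) :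
    ∫ t : ι → ℝ, ((∑ k, (dX k (t k) + X k (t k) * κ k (t k)) +
      ∑ p ∈ prs r, a p.1 p.2 (t p.1) (t p.2)) * O t + ∑ k, X k (t k) * dO k t) *
      PhiC r J h w t = 0 := by
  have key : ∀ k, ∫ t : ι → ℝ, (dX k (t k) * (O t * PhiC r J h w t) +
      (X k (t k) * (dO k t * PhiC r J h w t) +
        X k (t k) * (O t * dPhiC r J h κ w w' k t))) = 0 := by
    intro k
    refine PBW.int_der (F := fun t : ι → ℝ => (∏ i ∈ univ.erase k, J i (t i)) *
      (X k (t k) * (O t * PhiN r h w t))) k (fun t => ?_) (h0 k)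
      ((h1 k).add ((h2 k).add (h3 k)))
    have u1 : Function.update t k (t k) = t := Function.update_eq_self _ _
    have e0 : (fun s : ℝ => (∏ i ∈ univ.erase k, J i (Function.update t k s i)) *
        (X k (Function.update t k s k) * (O (Function.update t k s) *
          PhiN r h w (Function.update t k s)))) = fun s => (∏ i ∈ univ.erase k, J i (t i)) *
        (X k s * (O (Function.update t k s) * PhiN r h w (Function.update t k s))) := by
      funext s
      rw [Function.update_self]
      congr 1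
      refine Finset.prod_congr rfl fun i hi => ?_
      rw [Function.update_of_ne (Finset.ne_of_mem_erase hi)]
    rw [e0]
    have h4 := ((hX k (t k)).mul ((hO k t).mul (hasDerivAt_PhiN hr hh hw1 hw2 k t))).const_mul
      (∏ i ∈ univ.erase k, J i (t i))
    refine HasDerivAt.congr_deriv h4 ?_
    rw [u1]
    unfold PhiC dPhiC
    rw [← Finset.mul_prod_erase univ (fun i => J i (t i)) (mem_univ k)]
    simp only [Pi.mul_apply, u1]
    ring
  have hs : ∫ t : ι → ℝ, ∑ k, (dX k (t k) * (O t * PhiC r J h w t) +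
      (X k (t k) * (dO k t * PhiC r J h w t) +
        X k (t k) * (O t * dPhiC r J h κ w w' k t))) = 0 := by
    have := integral_finsetSum (μ := (volume : Measure (ι → ℝ))) univ
      (f := fun k t => dX k (t k) * (O t * PhiC r J h w t) +
      (X k (t k) * (dO k t * PhiC r J h w t) + X k (t k) * (O t * dPhiC r J h κ w w' k t)))
      fun k _ => (h1 k).add ((h2 k).add (h3 k))
    rw [this]
    exact Finset.sum_eq_zero fun k _ => key k
  rw [← hs]
  refine integral_congr_ae (Filter.Eventually.of_forall fun t => ?_)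
  simp only []
  have e := sum_dPhiN (r := r) (h := h) (κ := κ) ha t
  have e' : ∑ k, X k (t k) * (O t * dPhiC r J h κ w w' k t) =
      O t * (((∑ k, X k (t k) * κ k (t k)) + ∑ p ∈ prs r, a p.1 p.2 (t p.1) (t p.2)) *
        PhiC r J h w t) := by
    have e2 : ∑ k, X k (t k) * (O t * dPhiC r J h κ w w' k t) =
        (O t * ∏ i, J i (t i)) * ∑ k, X k (t k) * dPhiN r h κ w w' k t := by
      rw [Finset.mul_sum]
      refine Finset.sum_congr rfl fun k _ => ?_
      unfold dPhiC
      ring
    rw [e2, e]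
    unfold PhiC
    ring
  simp_rw [Finset.sum_add_distrib]
  rw [e', ← Finset.sum_mul]
  have e3 : ∑ k, X k (t k) * (dO k t * PhiC r J h w t) =
      (∑ k, X k (t k) * dO k t) * PhiC r J h w t := by
    rw [Finset.sum_mul]
    exact Finset.sum_congr rfl fun k _ => by ring
  rw [e3]
  ring

/-- **the Ward identity of the gas on curves**, insertion `O` -/
theorem gasWardC {r : ι → ι → Prop} (hr : Tourn r) (sp : ι → S) {ρ X dX κr g : S → ℝ → ℂ}
    {lam : ι → ℝ → ℂ} {a : S → S → ℝ → ℝ → ℂ} {J : S → ℝ → ℂ} {h : ι → ℝ → ℂ}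
    {w w' : ι → ι → ℝ → ℝ → ℂ} {O : (ι → ℝ) → ℂ} {dO : ι → (ι → ℝ) → ℂ}
    (has : ∀ b c s t, a b c s t = a c b t s) (had : ∀ b t, a b b t t = 2 * dX b t)
    (hg : ∀ b s, g b s = -(X b s * κr b s + smr ρ a b s))
    (hI1 : ∀ b, Integrable fun s => ρ b s * (X b s * κr b s))
    (hI2 : ∀ b, Integrable fun s => ρ b s * smr ρ a b s)
    (hE : ∑ b, (∫ s, ρ b s * (X b s * κr b s)) + (1 / 2) * dbl ρ a = 0)
    (hh : ∀ i t, HasDerivAt (h i) ((κr (sp i) t + lam i t) * J (sp i) t * h i t) t)
    (hw1 : ∀ i j s u, HasDerivAt (fun s => w i j s u) (J (sp i) s * w' i j s u) s)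
    (hw2 : ∀ i j s u, HasDerivAt (fun u => w i j s u) (-(J (sp j) u) * w' i j s u) u)
    (hX : ∀ b t, HasDerivAt (X b) (J b t * dX b t) t)
    (ha : ∀ i j s t, (X (sp i) s - X (sp j) t) * w' i j s t =
      a (sp i) (sp j) s t * w i j s t)
    (hO : ∀ k t, HasDerivAt (fun s => O (Function.update t k s)) (J (sp k) (t k) * dO k t) (t k))
    (h0 : ∀ k, Integrable (fun t : ι → ℝ => (∏ i ∈ univ.erase k, J (sp i) (t i)) *
      (X (sp k) (t k) * (O t * PhiN r h w t))))
    (h1 : ∀ k, Integrable (fun t : ι → ℝ => dX (sp k) (t k) *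
      (O t * PhiC r (fun i => J (sp i)) h w t)))
    (h2 : ∀ k, Integrable (fun t : ι → ℝ => X (sp k) (t k) *
      (dO k t * PhiC r (fun i => J (sp i)) h w t)))
    (h3 : ∀ k, Integrable (fun t : ι → ℝ => X (sp k) (t k) *
      (O t * dPhiC r (fun i => J (sp i)) h (fun i t => κr (sp i) t + lam i t) w w' k t))) :
    ∫ t : ι → ℝ, ((-nuL sp ρ g t + nuQ sp ρ a t + ∑ k, X (sp k) (t k) * lam k (t k)) * O t +
      ∑ k, X (sp k) (t k) * dO k t) * PhiC r (fun i => J (sp i)) h w t = 0 := by
  have key := wardC (r := r) hr.irr (J := fun i => J (sp i)) (h := h)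
    (κ := fun i t => κr (sp i) t + lam i t) (w := w) (w' := w')
    (X := fun i => X (sp i)) (dX := fun i => dX (sp i))
    (a := fun i j => a (sp i) (sp j)) (O := O) (dO := dO) hh hw1 hw2 (fun i => hX (sp i)) ha hO
    h0 h1 h2 h3
  rw [← key]
  refine integral_congr_ae (Filter.Eventually.of_forall fun t => ?_)
  simp only []
  rw [gasAlg hr sp has had hg hI1 hI2 hE t]

end PB

end
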