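import Pool.Agent.PB.LevI
import Pool.Agent.PB.FldX

/-!
# The cutoff force at the family of the dislocated function (plan B, I2), both channels

`cutJ ep j s = cutI (4/3 (1 - ep)) (rows (I s, 0, .., 0) and ± I)`:
* `cutJ_an`, `cutJ_le`: analytic for `- ep / 2 < Im z`, bounded by a constant of `ep`;
* `cutJ_real`: super exponentially small on the real line for `|t| < (3/8) log j`;
* **`rho_cutJ`**: `‖∫ ρ X cut‖ ≤ C thX M` for `X = β / (ρ + 1)`.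
-/

set_option autoImplicit false
set_option linter.unusedSectionVars false

noncomputable section

open Complex MeasureTheory Finset Filter Topology

namespace PBWP

open NUP1 PBFunc PBF

/-- the cutoff force of the family -/
def cutJ (ep : ℝ) (j : ℕ) (s : ℝ) : ℂ → ℂ :=
  PBLZ.cutI (4 / 3 * (1 - ep)) (List.ofFn (PBEI.rowS j s) ++ [I, -I])

/-- the bound -/
def KJ (ep : ℝ) : ℝ := PBLZ.KL (4 / 3 * (1 - ep)) (3 * NUP1.l / 2 + ep / 2)

/-- the rate -/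
def kJ (ep : ℝ) : ℝ := PBLZ.κ0 (4 / 3 * (1 - ep)) (3 * NUP1.l / 2 + ep / 2) / 2 *
  Real.exp (-(2 * (4 / 3 * (1 - ep)) * 1))

section

variable {ep : ℝ} (h0 : 0 < ep) (h1 : ep ≤ 1 / 100)

include h0 h1

theorem adm_J : Adm (4 / 3 * (1 - ep)) (3 * NUP1.l / 2 + ep / 2) :=
  NUP1.adm h0 (by linarith) (by linarith) le_rfl

theorem KJ_pos : 0 < KJ ep := PBLZ.KL_pos (adm_J h0 h1)

theorem kJ_pos : 0 < kJ ep := by
  have := PBLZ.κ0_pos (adm_J h0 h1)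
  unfold kJ
  positivity

omit h0 h1 in
theorem rowS_re0 (j : ℕ) (s : ℝ) (i : Fin (j + 1)) :
    (PBEI.rowS j s i).re = 0 ∧ |(PBEI.rowS j s i).im| ≤ |s| := by
  by_cases h : i = 0
  · rw [h, PBEI.rowS_zero]
    simp
  · rw [PBEI.rowS_ne j s h]
    simp

omit h0 h1 in
theorem ptsJ (j : ℕ) (s : ℝ) : ∀ x ∈ List.ofFn (PBEI.rowS j s) ++ [I, -I],
    |x.re| ≤ 0 ∧ |x.im| ≤ max |s| 1 := by
  intro x hx
  rcases List.mem_append.1 hx with h | h
  · obtain ⟨i, rfl⟩ := (List.mem_ofFn' _ _).1 h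
    obtain ⟨h2, h3⟩ := rowS_re0 j s i
    exact ⟨by rw [h2, abs_zero], h3.trans (le_max_left _ _)⟩
  · simp only [List.mem_cons, List.not_mem_nil, or_false] at h
    rcases h with rfl | rfl
    · simp
    · simp

theorem cutJ_an (j : ℕ) (s : ℝ) {z : ℂ} (hz : -(ep / 2) < z.im) (hz' : z.im < NUP1.l) :
    DifferentiableAt ℂ (cutJ ep j s) z := by
  have hl := Bd.l_pos
  have h := PBLZ.cutI_diff (r := 0) (adm_J h0 h1) (X := List.ofFn (PBEI.rowS j s) ++ [I, -I])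
    (by simp) (fun x hx => (ptsJ j s x hx).1)
  refine h.differentiableAt ((PBLZ.strip_open _ _).mem_nhds ⟨?_, ?_⟩)
  · linarith
  · linarith

theorem cutJ_le (j : ℕ) (s : ℝ) {z : ℂ} (hz : -(ep / 2) ≤ z.im) (hz' : z.im ≤ NUP1.l) :
    ‖cutJ ep j s z‖ ≤ KJ ep := by
  have hl := Bd.l_pos
  exact PBLZ.cutI_bd' (r := 0) (adm_J h0 h1) (by simp) (fun x hx => (ptsJ j s x hx).1)
    (by linarith) (by linarith)

theorem cutJ_real (j : ℕ) {s : ℝ} (hs : |s| ≤ 1) (t : ℝ) : ‖cutJ ep j s t‖ ≤ KJ ep *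
    Real.exp (-(kJ ep * (((j + 1 : ℕ) : ℝ) * Real.exp (-(2 * (4 / 3 * (1 - ep))) * |t|)))) := by
  have hl := Bd.l_pos
  have h := PBLZ.cutI_bd (r := 0) (h := 1) (adm_J h0 h1)
    (X := List.ofFn (PBEI.rowS j s) ++ [I, -I]) (by simp) (fun x hx => (ptsJ j s x hx).1)
    (fun x hx => (ptsJ j s x hx).2.trans (by rw [max_eq_right hs])) (z := (t : ℂ))
    (by rw [ofReal_im]; linarith) (by rw [ofReal_im]; linarith)
  refine h.trans (mul_le_mul_of_nonneg_left (Real.exp_le_exp.2 ?_) (KJ_pos h0 h1).le)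
  rw [ofReal_re]
  have h2 : (((j + 1 : ℕ) : ℝ)) ≤ ((List.ofFn (PBEI.rowS j s) ++ [I, -I]).length : ℝ) := by
    have : (List.ofFn (PBEI.rowS j s) ++ [I, -I]).length = j + 3 := by simp
    rw [this]
    push_cast
    linarith
  have h3 := mul_le_mul_of_nonneg_right h2 (Real.exp_pos (-(2 * (4 / 3 * (1 - ep))) * |t|)).le
  have h4 := mul_le_mul_of_nonneg_left h3 (kJ_pos h0 h1).le
  unfold kJ at h4 ⊢
  linarith

/-- decay against the cutoff force -/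
theorem int_cutJ {b κ κ₁ M : ℝ} {β : ℂ → ℂ} (hβ : PBE.TC (-b) b κ M β) (hb : 0 < b)
    (hκ1 : 0 < κ₁) (hκ : κ₁ < κ) (j : ℕ) {s : ℝ} (hs : |s| ≤ 1) :
    ‖∫ t : ℝ, β t * cutJ ep j s t‖ ≤
      (KJ ep * (2 / κ₁) * ((κ - κ₁) / (2 * (4 / 3 * (1 - ep))) / kJ ep) ^
        ((κ - κ₁) / (2 * (4 / 3 * (1 - ep))))) *
      (((j + 1 : ℕ) : ℝ) ^ (-(3 / 8 * (κ - κ₁))) * M) := by
  have hM := hβ.nonneg (by linarith) hb
  have hβ0 : 0 < 4 / 3 * (1 - ep) := by linarith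
  have hj : (0 : ℝ) < ((j + 1 : ℕ) : ℝ) := by positivity
  have hj1 : (1 : ℝ) ≤ ((j + 1 : ℕ) : ℝ) := by
    push_cast
    linarith [Nat.cast_nonneg (α := ℝ) j]
  obtain ⟨Ck, hCk⟩ : ∃ Ck : ℝ, Ck = ((κ - κ₁) / (2 * (4 / 3 * (1 - ep))) / kJ ep) ^
        ((κ - κ₁) / (2 * (4 / 3 * (1 - ep)))) := ⟨_, rfl⟩
  have hk := kJ_pos h0 h1
  have hC0 : 0 ≤ Ck := by
    rw [hCk]
    have : 0 < κ - κ₁ := by linarith
    positivity
  rw [← hCk]
  have hb1 : ∀ t : ℝ, ‖β t * cutJ ep j s t‖ ≤ KJ ep * Ck *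
      (((j + 1 : ℕ) : ℝ) ^ (-(3 / 8 * (κ - κ₁))) * M) * Real.exp (-(κ₁ * |t|)) := by
    intro t
    have h2 := Pool.Agent.PB.TC_bd hβ (by linarith) hb t
    have h3 := cutJ_real h0 h1 j hs t
    have h4 := PBLZ.cut_exp (a := κ - κ₁) (k := kJ ep) (m := ((j + 1 : ℕ) : ℝ)) (t := t) hβ0
      (by linarith) hk hj
    rw [← hCk] at h4
    have h5 : ((j + 1 : ℕ) : ℝ) ^ (-((κ - κ₁) / (2 * (4 / 3 * (1 - ep))))) ≤
        ((j + 1 : ℕ) : ℝ) ^ (-(3 / 8 * (κ - κ₁))) := by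
      refine Real.rpow_le_rpow_of_exponent_le hj1 (neg_le_neg ?_)
      rw [le_div_iff₀ (by linarith)]
      have : 0 ≤ (κ - κ₁) * ep := mul_nonneg (by linarith) h0.le
      nlinarith
    have h6 : Real.exp (-(κ * |t|)) = Real.exp (-(κ₁ * |t|)) * Real.exp (-((κ - κ₁) * |t|)) := by
      rw [← Real.exp_add]
      congr 1
      ring
    have hK := KJ_pos h0 h1
    rw [norm_mul]
    calc ‖β t‖ * ‖cutJ ep j s t‖ ≤ (M * Real.exp (-(κ * |t|))) * (KJ ep *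
          Real.exp (-(kJ ep * (((j + 1 : ℕ) : ℝ) * Real.exp (-(2 * (4 / 3 * (1 - ep))) * |t|))))) :=
          mul_le_mul h2 h3 (norm_nonneg _) (by positivity)
      _ = KJ ep * M * Real.exp (-(κ₁ * |t|)) * (Real.exp (-((κ - κ₁) * |t|)) *
          Real.exp (-(kJ ep * (((j + 1 : ℕ) : ℝ) * Real.exp (-(2 * (4 / 3 * (1 - ep))) * |t|))))) := by
          rw [h6]
          ring
      _ ≤ KJ ep * M * Real.exp (-(κ₁ * |t|)) * (Ck *
          ((j + 1 : ℕ) : ℝ) ^ (-((κ - κ₁) / (2 * (4 / 3 * (1 - ep)))))) :=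
          mul_le_mul_of_nonneg_left h4 (by positivity)
      _ ≤ KJ ep * M * Real.exp (-(κ₁ * |t|)) * (Ck *
          ((j + 1 : ℕ) : ℝ) ^ (-(3 / 8 * (κ - κ₁)))) :=
          mul_le_mul_of_nonneg_left (mul_le_mul_of_nonneg_left h5 hC0) (by positivity)
      _ = _ := by ring
  have hi := ((PBE.int_exp_abs hκ1).1.const_mul (KJ ep * Ck *
      (((j + 1 : ℕ) : ℝ) ^ (-(3 / 8 * (κ - κ₁))) * M)))
  refine (norm_integral_le_of_norm_le hi (Eventually.of_forall hb1)).trans (le_of_eq ?_)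
  rw [integral_const_mul, (PBE.int_exp_abs hκ1).2]
  ring

/-- **the mean of the cutoff force against the field times the density** -/
theorem rho_cutJ {b c0 κ κ₁ : ℝ} (hb : 0 < b) (hκ1 : 0 < κ₁) (hκ : κ₁ < κ)
    (hκ8 : κ - κ₁ ≤ 8 / 3) :
    ∃ C : ℝ, 0 ≤ C ∧ ∀ (j : ℕ) (s : ℝ), |s| ≤ 1 → ∀ (ρ : ℂ → ℂ),
      PBE.SeaL b c0 ((j + 1 : ℕ) : ℝ) ρ → ∀ (M : ℝ) (β : ℂ → ℂ), PBE.TC (-b) b κ M β →
      ‖∫ t : ℝ, ρ t * (PBE.XS ρ 0 β t * cutJ ep j s t)‖ ≤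
        C * (PBE.thX c0 ((j + 1 : ℕ) : ℝ) (κ - κ₁) 0 * M) := by
  obtain ⟨C1, hC1⟩ : ∃ C1 : ℝ, C1 = KJ ep * (2 / κ₁) *
      ((κ - κ₁) / (2 * (4 / 3 * (1 - ep))) / kJ ep) ^
        ((κ - κ₁) / (2 * (4 / 3 * (1 - ep)))) := ⟨_, rfl⟩
  have hK := KJ_pos h0 h1
  have hk := kJ_pos h0 h1
  have hC10 : 0 ≤ C1 := by
    rw [hC1]
    have : 0 < κ - κ₁ := by linarith
    have : 0 < 4 / 3 * (1 - ep) := by linarith
    positivity
  refine ⟨C1 + KJ ep * (2 / κ₁), by positivity, fun j s hs ρ hρ M β hβ => ?_⟩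
  have hl := Bd.l_pos
  have hM := hβ.nonneg (by linarith) hb
  obtain ⟨th, hth⟩ : ∃ th : ℝ, th = PBE.thX c0 ((j + 1 : ℕ) : ℝ) (κ - κ₁) 0 := ⟨_, rfl⟩
  have tX := PBE.XS_TC hρ hβ hM hκ.le hκ8 0
  rw [← hth] at tX
  have hth0 : 0 ≤ th := hth ▸ PBE.thX_nonneg hρ.Np
  have hle : ((j + 1 : ℕ) : ℝ) ^ (-(3 / 8 * (κ - κ₁))) ≤ th := by
    rw [hth]
    unfold PBE.thX
    rw [abs_zero, mul_zero, Real.exp_zero, mul_one]
    exact le_mul_of_one_le_left (Real.rpow_nonneg (by positivity) _) (le_max_left _ _)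
  have hcm : AEStronglyMeasurable (fun t : ℝ => cutJ ep j s t) volume := by
    have hc : Continuous fun t : ℝ => cutJ ep j s t := continuous_iff_continuousAt.2 fun t =>
      (cutJ_an h0 h1 j s (z := (t : ℂ)) (by rw [ofReal_im]; linarith)
        (by rw [ofReal_im]; exact hl)).continuousAt.comp Complex.continuous_ofReal.continuousAt
    exact hc.aestronglyMeasurable
  have hcb : ∀ t : ℝ, ‖cutJ ep j s t‖ ≤ KJ ep := fun t =>
    cutJ_le h0 h1 j s (by rw [ofReal_im]; linarith) (by rw [ofReal_im]; exact hl.le)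
  have iβ := int_mul_bdd hβ hb (by linarith) hcm hcb
  have iX := int_mul_bdd tX hb hκ1 hcm hcb
  have e : ∫ t : ℝ, ρ t * (PBE.XS ρ 0 β t * cutJ ep j s t) =
      (∫ t : ℝ, β t * cutJ ep j s t) - ∫ t : ℝ, PBE.XS ρ 0 β t * cutJ ep j s t := by
    rw [← integral_sub iβ iX]
    refine integral_congr_ae (Eventually.of_forall fun t => ?_)
    have h5 := PBE.XS_mul (β := β) hρ 0 (z := (t : ℂ)) (by simpa using hb)
    simp only [ofReal_zero, add_zero] at h5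
    simp only
    linear_combination (cutJ ep j s t) * h5
  rw [e, ← hth]
  refine (norm_sub_le _ _).trans ?_
  have h6 := int_cutJ h0 h1 hβ hb hκ1 hκ j hs
  rw [← hC1] at h6
  have h7 : ‖∫ t : ℝ, PBE.XS ρ 0 β t * cutJ ep j s t‖ ≤ th * M * (2 / κ₁) * KJ ep := by
    have := PBE.int_XD_le tX hb hκ1 (by positivity) 0 (f := fun t : ℝ => cutJ ep j s t) hcb
    simpa using this
  have h8 : C1 * (((j + 1 : ℕ) : ℝ) ^ (-(3 / 8 * (κ - κ₁))) * M) ≤ C1 * (th * M) :=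
    mul_le_mul_of_nonneg_left (mul_le_mul_of_nonneg_right hle hM) hC10
  calc _ ≤ C1 * (th * M) + th * M * (2 / κ₁) * KJ ep := add_le_add (h6.trans h8) h7
    _ = _ := by ring

end

end PBWP

end
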