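import Pool.Agent.PB.CutEps
import Pool.Agent.PB.ClsFX

/-!
# Plan B: the cut term of the first Ward identity at the rows data (helper69)

* `ZcOk`: what is needed of the replaced factors `Zc`; `ZcOk.zok`: the hypotheses of the class
  formula for `Zc`;
* `F0D_sum_le`: `‖Pf * ∑_{n ∈ S} F0D_n Z Zc‖ <= B / E` when `∑ ‖Pf‖ FA (Z + ε Zc) <= B` on `|ε| = E`;
* `zok_X`: the rows data `XX`;
* `cut_le`: the same at the rows data, with `Zcut = Zc` on the final lines.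
-/

set_option autoImplicit false
set_option linter.unusedSectionVars false

noncomputable section

open Complex MeasureTheory Finset
open scoped ENNReal Classical

namespace PBI

open NUP1 NUP1S NUP1.Bd NURow PB
open NUO (posT Ks)

variable {Z Zc : Stt} {P : NUO.Par} {x0 κ κ' δ C D : ℝ}

/-- what is needed of the replaced factors -/
structure ZcOk (Z Zc : Stt) (P : NUO.Par) (x0 κ δ C D : ℝ) : Prop where
  m : ∀ s k, Measurable (Zc s k)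
  a : ∀ s, ∀ u : ℂ, x0 ≤ u.re → u.re ≤ (1 + δ) * l → DifferentiableAt ℂ (Zc s none) u
  bA : ∀ s, ∀ u : ℂ, x0 ≤ u.re → u.re ≤ (1 + δ) * l → ‖Zc s none u‖ ≤ C * ‖Z s none u‖
  bL : ∀ s, ∀ u : ℂ, u.re = (1 - P.jL) * l → ‖Zc s (some .L) u‖ ≤ C * ‖Z s (some .L) u‖
  bS : ∀ s r i, i < r → ∀ u : ℂ, u.re = NUP1S.lnO P r i .S →
    ‖Zc s (some .S) u‖ ≤ C * ‖Z s (some .S) u‖
  bT : ∀ s t, ‖Zc s (some .T) (posT t)‖ ≤ D * Real.exp (-(κ * |t|))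

theorem decOn_smul_le {κ C : ℝ} (hC : 0 ≤ C) {K : Set ℝ} {f g : ℂ → ℂ} (hf : DecOn κ K f)
    (h : ∀ u : ℂ, u.re ∈ K → ‖g u‖ ≤ C * ‖f u‖) : DecOn κ K g := by
  obtain ⟨D, hD⟩ := hf
  refine ⟨C * D, fun z hz => (h z hz).trans ?_⟩
  rw [mul_assoc]
  exact mul_le_mul_of_nonneg_left (hD z hz) hC

/-- **the hypotheses of the class formula for the replaced factors** -/
theorem ZcOk.zok (hC : 0 ≤ C) (hx0 : x0 ≤ 19 / 20 * l) (hδ : 0 ≤ δ) (hZ : ZOk Z P x0 κ κ' δ)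
    (h : ZcOk Z Zc P x0 κ δ C D) : ZOk Zc P x0 κ κ' δ where
  m := h.m
  d s u h1 h2 := h.a s u h1 (h2.trans (by nlinarith [Bd.l_pos]))
  dec := by
    have e0 : ∀ o : CO, κ + 2 * (((0 : ℤ)) : ℝ) * sc o = κ := fun o => by simp
    refine ⟨fun s => decOn_smul_le hC (hZ.dec.A s) fun u hu => h.bA s u hu.1
      (hu.2.trans (by nlinarith [Bd.l_pos])),
      fun s => decOn_smul_le hC (hZ.dec.L s) fun u hu => h.bL s u hu, fun s => ⟨D, fun u hu => ?_⟩,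
      fun s r i hi => decOn_smul_le hC (hZ.dec.S s r i hi) fun u hu => h.bS s r i hi u hu⟩
    rw [e0]
    have hu' : u = posT u.im := by
      unfold NUO.posT vl
      rw [Set.mem_singleton_iff] at hu
      rw [← hu, re_add_im]
    have := h.bT s u.im
    rwa [← hu'] at this
  q := by
    have hsub : ∀ u : ℂ, u.re ∈ Ks δ → x0 ≤ u.re ∧ u.re ≤ (1 + δ) * l := fun u hu =>
      ⟨hx0.trans hu.1, hu.2⟩
    refine ⟨hZ.q.kpos, fun s => h.m s none, fun s u hu => h.a s u (hsub u hu).1 (hsub u hu).2,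
      fun s => ?_⟩
    obtain ⟨B, hB, hb⟩ := hZ.q.b s
    refine ⟨C * B, mul_nonneg hC hB, fun u hu => (h.bA s u (hsub u hu).1 (hsub u hu).2).trans ?_⟩
    rw [mul_assoc]
    exact mul_le_mul_of_nonneg_left (hb u hu) hC

/-! ## the sum over the numbers of quanta -/

theorem F0D_sum_cauchy {L : Lns} {α κ : ℝ} (hκ : 0 < κ) {S : Finset ℕ}
    (hok : ∀ n ∈ S, AllW α n n L fun c x => LnOk c x)
    (hm : ∀ s k, Measurable (Z s k)) (hmc : ∀ s k, Measurable (Zc s k))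
    (hZ : ∀ n ∈ S, ∃ D : ℝ, AllW α n n L fun c x => ZBd c x κ D Z)
    (hZc : ∀ n ∈ S, ∃ D : ℝ, AllW α n n L fun c x => ZBd c x κ D Zc) {E B : ℝ} (hE : 0 < E)
    (hB : ∀ ε : ℂ, ‖ε‖ = E → ‖∑ n ∈ S, F0 α n n L (Zep Z Zc ε) fun _ _ _ _ => 1‖ ≤ B) :
    ‖∑ n ∈ S, F0D α n n L Z Zc‖ ≤ B / E := by
  have h0 : ∀ ε : ℂ, HasDerivAt (fun ε : ℂ => ∑ n ∈ S, F0 α n n L (Zep Z Zc ε) fun _ _ _ _ => 1)
      (∑ n ∈ S, F0D α n n L (Zep Z Zc ε) Zc) ε := fun ε => by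
    refine HasDerivAt.fun_sum fun n hn => ?_
    obtain ⟨D, hD⟩ := hZ n hn
    obtain ⟨D', hD'⟩ := hZc n hn
    exact hasDerivAt_eps hκ (hok n hn) hm hmc hD hD' ε
  have h1 := (h0 0).deriv
  simp only [Zep_zero] at h1
  rw [← h1]
  have hd : Differentiable ℂ fun ε : ℂ => ∑ n ∈ S, F0 α n n L (Zep Z Zc ε) fun _ _ _ _ => 1 :=
    fun ε => (h0 ε).differentiableAt
  exact Complex.norm_deriv_le_of_forall_mem_sphere_norm_le hE hd.diffContOnCl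
    fun ε hε => hB ε (by rwa [mem_sphere_zero_iff_norm] at hε)

/-- **the cut term, summed over the numbers of quanta** -/
theorem F0D_sum_le {S : Finset ℕ} {Pf : ℂ} {η η' : PBF.Crs} (h : GoodQ P x0) (hx0 : x0 ≤ l)
    (hP : ∀ r, Measurable (P.rad r)) (hκ : 0 < κ)
    (hρ : ∀ r, ∃ ρ0, 0 < ρ0 ∧ ∀ t, ρ0 ≤ P.rad r t) (hZ : ZOk Z P x0 κ κ' δ)
    (hZc : ZOk Zc P x0 κ κ' δ) (hδ0 : 0 ≤ δ) (hδ : δ ≤ 1 / 20) (hj : P.jL + δ < 3)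
    (hη : ∀ r, ∀ᵐ O ∂(Measure.pi fun _ : Fin r => NUO.nu), NUO.CrvR δ (η r O) (η' r O))
    {E B : ℝ} (hE : 0 < E) (hB0 : 0 ≤ B)
    (hB : ∀ ε : ℂ, ‖ε‖ = E → ∑ n ∈ S, ‖Pf‖ₑ *
      PBF.FA (Zep Z Zc ε) P n n η η' (fun _ _ _ _ _ => 1) ≤ ENNReal.ofReal B) :
    ‖Pf * ∑ n ∈ S, F0D x0 n n (Lfin P) Z Zc‖ ≤ B / E := by
  rcases eq_or_ne Pf 0 with h0 | h0
  · rw [h0, zero_mul, norm_zero]
    positivity
  have hPf : 0 < ‖Pf‖ := norm_pos_iff.2 h0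
  have key : ‖∑ n ∈ S, F0D x0 n n (Lfin P) Z Zc‖ ≤ (B / ‖Pf‖) / E := by
    refine F0D_sum_cauchy hκ (fun n _ => lnOk_fin h n n) hZ.m hZc.m
      (fun n _ => ZBd_fin hx0 hZ.dec n) (fun n _ => ZBd_fin hx0 hZc.dec n) hE fun ε hε => ?_
    have e1 : ∀ n ∈ S, F0 x0 n n (Lfin P) (Zep Z Zc ε) (fun _ _ _ _ => 1) =
        PBF.FF (Zep Z Zc ε) P n n η η' (fun _ _ _ _ _ => 1) := fun n _ =>
      F0_FF h hx0 hP hκ hρ (hZ.ep hZc ε) hδ0 hδ hj fun r _ => hη r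
    rw [Finset.sum_congr rfl e1, le_div_iff₀ hPf, mul_comm, ← norm_mul, Finset.mul_sum]
    have h2 : ‖∑ n ∈ S, Pf * PBF.FF (Zep Z Zc ε) P n n η η' (fun _ _ _ _ _ => 1)‖ₑ ≤
        ENNReal.ofReal B := by
      refine (enorm_sum_le _ _).trans (le_trans (Finset.sum_le_sum fun n _ => ?_) (hB ε hε))
      rw [enorm_mul]
      exact mul_le_mul' le_rfl (PBF.FF_le _)
    rw [← ofReal_norm] at h2
    exact (ENNReal.ofReal_le_ofReal_iff hB0).1 h2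
  rw [norm_mul]
  calc ‖Pf‖ * ‖∑ n ∈ S, F0D x0 n n (Lfin P) Z Zc‖ ≤ ‖Pf‖ * ((B / ‖Pf‖) / E) := by gcongr
    _ = B / E := by field_simp

/-! ## the rows data -/

section rows

open NUO NUGC PBF PBX PBC NUP1S.AbC

variable {m : ℕ} {c : Bool → ℂ} {β : ℝ} {rw : Bool → Fin m → ℂ} {s1 s2 : Bool → ℂ → ℂ}

/-- the hypotheses of the class formula at the rows data -/
theorem zok_X (hP : ParC P) {δ : ℝ} (hδ : δ ≤ 1 / 20) (hβ : 0 < β) (hβ' : β ≤ 4 / 3)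
    (hr : ∀ a, Rws (rw a)) {ex ex0 : Bool → List ℂ} (hex : ∀ a, ∀ w ∈ ex a, |w.re| ≤ l / 2)
    (hex0 : ∀ a, ∀ w ∈ ex0 a, |w.re| ≤ l / 2) (h : ∀ a, SpecQ a 0 (s1 a) (s2 a))
    (hA : ∀ a, SpecAt (3 / 5 * l) a 0 (s1 a)) :
    ZOk (fun a => XX (c a) β (rw a) (rw !a) (gP β (ex a)) (gP (4 / 3) (ex0 a)) (s1 a) (s2 a)) P
      (3 / 5 * l) (2 * β) (2 * β) δ where
  m a k := measurable_XX (measurable_gP _ _) (measurable_gP _ _) (h a).m1 (h a).m2 k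
  d a u h1 h2 := diffAt_GX hβ hβ' (hr a) (GOk.gP hβ hβ' (hex a)) (h a) (Or.inl ⟨h1, h2⟩)
  dec := decZ_X hP hβ hβ' hr (fun a => GOk.gP hβ hβ' (hex a))
    (fun a => GOk.gP (by norm_num) le_rfl (hex0 a)) (by simpa using h)
  q := qok_X (q := 0) hδ hβ hβ' hr hex (fun a => (h a).m1) (by simpa using hA)

/-- **the cut term at the rows data**: `Zd = Zc` on the final lines -/
theorem cut_le (hP : ParC P) (hρ : ∀ r, ∃ ρ0, 0 < ρ0 ∧ ∀ t, ρ0 ≤ P.rad r t) {δ : ℝ} (hδ0 : 0 ≤ δ)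
    (hδ : δ ≤ 1 / 20) (hβ : 0 < β) (hβ' : β ≤ 4 / 3) (hr : ∀ a, Rws (rw a))
    {ex ex0 : Bool → List ℂ} (hex : ∀ a, ∀ w ∈ ex a, |w.re| ≤ l / 2)
    (hex0 : ∀ a, ∀ w ∈ ex0 a, |w.re| ≤ l / 2) (h : ∀ a, SpecQ a 0 (s1 a) (s2 a))
    (hA : ∀ a, SpecAt (3 / 5 * l) a 0 (s1 a)) {Zd Zc : Stt} {C D : ℝ} (hC : 0 ≤ C)
    (hZc : ZcOk (fun a => XX (c a) β (rw a) (rw !a) (gP β (ex a)) (gP (4 / 3) (ex0 a)) (s1 a)
      (s2 a)) Zc P (3 / 5 * l) (2 * β) δ C D) {S : Finset ℕ}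
    (hd : ∀ n ∈ S, AllW (3 / 5 * l) n n (Lfin P) fun c x => ∀ i, ∀ t : ℝ,
      Zd (c i).1 (c i).2 (vl (x i) t) = Zc (c i).1 (c i).2 (vl (x i) t)) {Pf : ℂ}
    {η η' : Crs} (hη : ∀ r, ∀ᵐ O ∂(Measure.pi fun _ : Fin r => nu), CrvR δ (η r O) (η' r O))
    {E B : ℝ} (hE : 0 < E) (hB0 : 0 ≤ B)
    (hB : ∀ ε : ℂ, ‖ε‖ = E → ∑ n ∈ S, ‖Pf‖ₑ *
      FA (Zep (fun a => XX (c a) β (rw a) (rw !a) (gP β (ex a)) (gP (4 / 3) (ex0 a)) (s1 a)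
        (s2 a)) Zc ε) P n n η η' (fun _ _ _ _ _ => 1) ≤ ENNReal.ofReal B) :
    ‖Pf * ∑ n ∈ S, F0D (3 / 5 * l) n n (Lfin P) (fun a => XX (c a) β (rw a) (rw !a)
      (gP β (ex a)) (gP (4 / 3) (ex0 a)) (s1 a) (s2 a)) Zd‖ ≤ B / E := by
  have hl := Bd.l_pos
  have hZ := zok_X (c := c) hP hδ hβ hβ' hr hex hex0 h hA
  rw [Finset.sum_congr rfl fun n hn => F0D_congr (hd n hn)]
  exact F0D_sum_le hP.goodQ (by linarith) hP.rm (by linarith : (0 : ℝ) < 2 * β) hρ hZ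
    (hZc.zok hC (by linarith) hδ0 hZ) hδ0 hδ (by linarith [hP.j2]) hη hE hB0 hB

end rows

end PBI

end
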