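import Pool.Agent.PB.CutBd
import Pool.Agent.PB.CutZ

/-!
# Plan B: the cut term of the first Ward identity is small

**`cutFin`**: rows `x, 0, …, 0` (`k + 1` rows), legs at `z`; `Zc` the replaced one body functions (product
form), relative bounds `CutZ` (`E` times the bound at most `δ₀ ≤ 1 / (k + 1)`), one body bounds of the
perturbed data: `‖Pf ∑ n ∈ S, F0D n Z Zd‖ ≤ (k + 1) ^ δ exp (2 |Im z|) / E`.
-/

set_option autoImplicit false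
set_option linter.unusedSectionVars false

noncomputable section

open Complex MeasureTheory Finset
open scoped ENNReal

namespace PBT

open NUO NUP1 NUP1S NUP1S.Ab NUP1S.AbC NUGC PBF PBI
open PBX (obX XX Lg gP Rws oneC_Lg obX_nn)
open PBL (mu1)
open PBP (gT)
open PotH (crH oneEH)

attribute [local instance] NUSea.seaP

/-- **the cut term**: Cauchy's estimate with the radius `E` -/
theorem cutFin (hS : NUStabP.StabProd) {K Ca : ℝ} (hCa : 0 ≤ Ca) (hG : GasOf K Ca) :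
    ∃ K' : ℝ, ∀ C c : ℝ, 0 < C → 0 < c → ∀ δ : ℝ, 0 < δ → ∃ a0 : ℝ, 0 < a0 ∧
    ∀ ep : ℝ, 0 < ep → ep ≤ 1 / 100 → ∀ e1 : ℝ, 0 < e1 → e1 ≤ 1 / 100 → ∀ J : ℝ, 0 ≤ J →
    Real.exp (-(2 * Real.pi * J)) + 3 * e1 + 3 * ep ≤ a0 →
    ∃ m0 : ℕ, ∀ k : ℕ, m0 ≤ k → ∀ x z : ℂ, |x.re| ≤ NUMF.l / 10 → |x.im| ≤ 2 →
      -(9 / 10 * NUMF.l) ≤ z.re → z.re < 37 / 10 * NUMF.l →
      |z.im| ≤ 3 / 20 * Real.log (k + 1 : ℕ) + 2 → ∀ cc : Bool → ℂ,
      (∀ a, ‖cc a‖ = 2 * Real.cos NUP1.l) →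
      ∀ (Zd Zc : Stt) (δ₀ E cz : ℝ) (Mz M : ℝ → ℝ) (Cz D : ℝ) (S : Finset ℕ),
      0 ≤ δ₀ → δ₀ ≤ 1 / ((k + 1 : ℕ) : ℝ) → 0 < E → 0 ≤ Cz →
      PBC.CutZ (ZL cc k (4 / 3 * (1 - ep)) x z) Zc (obL k (4 / 3 * (1 - ep)) x z) (pL (k + 1)) ep
        (2 * (4 / 3 * (1 - ep))) (3 / 5 * NUP1.l) 0 (Set.range fun i => (mu1 k x i).im) cz Mz →
      E * cz ≤ δ₀ → (∀ t, E * Mz t ≤ M t) →
      OneB C c K' ep e1 J (k + 1) (PBC.obE (obL k (4 / 3 * (1 - ep)) x z) δ₀ M) →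
      ZcOk (ZL cc k (4 / 3 * (1 - ep)) x z) Zc (pL (k + 1)) (3 / 5 * NUP1.l)
        (2 * (4 / 3 * (1 - ep))) (ep / 4) Cz D →
      S ⊆ range (2 * (k + 1) + 1) →
      (∀ n ∈ S, AllW (3 / 5 * NUP1.l) n n (Lfin (pL (k + 1))) fun c x => ∀ i, ∀ t : ℝ,
        Zd (c i).1 (c i).2 (vl (x i) t) = Zc (c i).1 (c i).2 (vl (x i) t)) →
      ‖Pool.Agent.PB.Pf z (mu1 k x) (mu1 k x) * ∑ n ∈ S, F0D (3 / 5 * NUP1.l) n n
        (Lfin (pL (k + 1))) (ZL cc k (4 / 3 * (1 - ep)) x z) Zd‖ ≤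
        ((k + 1 : ℕ) : ℝ) ^ δ * Real.exp (2 * |z.im|) / E := by
  obtain ⟨K', HT⟩ := cutSup hS hCa hG
  refine ⟨K', fun C c hC hc δ hδ => ?_⟩
  obtain ⟨a0, ha0, HT⟩ := HT C c hC hc δ hδ
  refine ⟨a0, ha0, fun ep hep hep1 e1 he he1 J hJ hsm => ?_⟩
  obtain ⟨mt, HT⟩ := HT ep hep hep1 e1 he he1 J hJ hsm
  obtain ⟨mc, -, Hcur⟩ := curZ_crs he he1 hJ hep
  refine ⟨max mt mc, fun k hk x z hx hx' z1 z2 z3 cc hcc Zd Zc δ₀ E cz Mz M Cz D S h0 h1 hE hCz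
    hcut hcz hMz hact hzc hSs hd => ?_⟩
  have k1 : mt ≤ k := (le_max_left _ _).trans hk
  have k2 : mc ≤ k + 1 := ((le_max_right _ _).trans hk).trans (Nat.le_succ k)
  have hl := NUMF.l_pos
  have hlN : NUP1.l = NUMF.l := rfl
  have hmp : (0 : ℝ) < ((k + 1 : ℕ) : ℝ) := by positivity
  have hr : Rws (mu1 k x) := rws_mu1 k (by rw [hlN]; linarith)
  have hI : ∀ w ∈ [I, -I], |w.re| ≤ NUP1.l / 2 := by
    intro w hw
    rw [List.mem_cons, List.mem_singleton] at hw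
    rcases hw with rfl | rfl
    · rw [Complex.I_re, abs_zero, hlN]; positivity
    · rw [Complex.neg_re, Complex.I_re, neg_zero, abs_zero, hlN]; positivity
  have hone : OneC (ZL cc k (4 / 3 * (1 - ep)) x z) (obL k (4 / 3 * (1 - ep)) x z) (pL (k + 1)) ep
      (2 * (4 / 3 * (1 - ep))) (3 / 5 * NUP1.l) 0 (Set.range fun i => (mu1 k x i).im) :=
    oneC_Lg le_rfl (by rw [hlN]; linarith) (parZ_parC (k + 1)) hep hep1 (by linarith) (by linarith)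
      hr hI [] hcc (by rw [hlN]; exact z1) (by rw [hlN]; exact z2)
  have hcr : ∀ (r : ℕ) (O : Fin r → Xo), CrvR (ep / 4) (crL e1 J (k + 1) r O)
      (crL' e1 J (k + 1) r O) := fun r O => PBF.crvR_of hep hep1 (Hcur (k + 1) k2 r O)
  refine cut_le (m := k + 1) (c := cc) (β := 4 / 3 * (1 - ep)) (rw := fun _ => mu1 k x)
    (s1 := fun _ => Lg z z) (s2 := fun _ w => Lg z z w * Lg z z (w - NUP1.l)) (ex := fun _ => [I, -I])
    (ex0 := fun _ => []) (P := pL (k + 1)) (parZ_parC (k + 1)) (fun r => PBC.parZ_low (k + 1) r)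
    (δ := ep / 4) (by linarith) (by linarith) (by linarith) (by linarith) (fun _ => hr)
    (fun _ => hI) (fun _ w hw => absurd hw List.not_mem_nil)
    (fun a => PBX.Lg_SpecQ a (by rw [hlN]; linarith) (by rw [hlN]; exact z2))
    (fun a => by
      have := PBX.Lg_SpecAt (z := z) (x0 := 3 / 5 * NUP1.l) le_rfl a (by rw [hlN]; exact z1)
        (by rw [hlN]; exact z2)
      simpa using this) hCz hzc hd
    (fun r => Filter.Eventually.of_forall fun O => hcr r O) hE (by positivity) ?_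
  intro ε hε
  have hone2 := PBC.OneC.eps hone hcut (by rw [(parZ_fields (k + 1)).2.1]; norm_num) (ε := ε) h0
    (by rw [hε]; exact hcz) (M' := M) (fun t => by rw [hε]; exact hMz t)
  have key := HT k k1 x z hx hx' z1 z2 z3 (Zep (ZL cc k (4 / 3 * (1 - ep)) x z) Zc ε) δ₀ M
    (2 * (4 / 3 * (1 - ep))) (3 / 5 * NUP1.l) 0 (Set.range fun i => (mu1 k x i).im) h0 h1 hone2 hact
  refine le_trans ?_ key
  rw [Finset.mul_sum]
  calc ∑ n ∈ S, ‖Pool.Agent.PB.Pf z (mu1 k x) (mu1 k x)‖ₑ *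
        FA (Zep (ZL cc k (4 / 3 * (1 - ep)) x z) Zc ε) (pL (k + 1)) n n (crL e1 J (k + 1))
          (crL' e1 J (k + 1)) (fun _ _ _ _ _ => 1)
      = ∑ n ∈ S, ENNReal.ofReal ‖Pool.Agent.PB.Pf z (mu1 k x) (mu1 k x)‖ *
        FE (Zep (ZL cc k (4 / 3 * (1 - ep)) x z) Zc ε) (pL (k + 1)) n n (crL e1 J (k + 1))
          (crL' e1 J (k + 1)) (fun _ _ _ _ _ => 1) := by
        refine Finset.sum_congr rfl fun n _ => ?_
        rw [FA_eq_FE, ofReal_norm]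
        simp only [enorm_one]
    _ ≤ _ := Finset.sum_le_sum_of_subset hSs

end PBT

end
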