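import Pool.Agent.PotH.CutB
import Pool.Agent.PB.EAbs

/-!
# The force of the cutoff near the line of the quanta

`W ~ 0^K ++ ex` (`PotH.RwI n0 hh m K W ex`), `β = (4/3)(1 - ep)`, `|Re u - l| ≤ ep / 4`:

* **`exists_cutF`**: `phi β W u ≠ 0`, `‖phi' / phi‖ ≤ C exp (- c m e^{-2 β |Im u|})`;
* `cutF β W z = i phi' / phi (l + i z)`; `cutF_BC`, **`cutF_int`**:
  `∫ e^{-(8/3)|t|} ‖cutF t‖ dt ≤ C / m`.
-/

set_option autoImplicit false
set_option linter.unusedSectionVars false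

noncomputable section

open Complex MeasureTheory Set Filter Topology

namespace PBTs

open NUP1 PotH

/-- the force of the cutoff at `u = l + i z` -/
def cutF (β : ℝ) (W : List ℂ) (z : ℂ) : ℂ :=
  I * (deriv (phi β W) ((l : ℂ) + I * z) / phi β W ((l : ℂ) + I * z))

theorem one_sub_exp_ge {x : ℝ} (hx : 0 ≤ x) : min 1 x / 2 ≤ 1 - Real.exp (-x) := by
  rcases le_total x 1 with h | h
  · rw [min_eq_right h]
    have h1 := Real.quadratic_le_exp_of_nonneg hx
    have h2 : Real.exp (-x) ≤ (1 + x + x ^ 2 / 2)⁻¹ := by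
      rw [Real.exp_neg]
      exact inv_anti₀ (by positivity) h1
    have h3 : (1 + x + x ^ 2 / 2)⁻¹ ≤ 1 - x / 2 := by
      rw [inv_le_iff_one_le_mul₀ (by positivity)]
      nlinarith [pow_nonneg hx 3, mul_nonneg hx (sub_nonneg.2 h)]
    linarith
  · rw [min_eq_left h]
    have h1 : Real.exp (-x) ≤ Real.exp (-1) := Real.exp_le_exp.2 (by linarith)
    have h2 : Real.exp (-1) ≤ 1 / 2 := by
      rw [Real.exp_neg]
      have := Real.add_one_le_exp (1 : ℝ)
      rw [inv_le_comm₀ (Real.exp_pos _) (by norm_num)]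
      linarith
    linarith

/-- Cauchy estimate on a ball -/
theorem cauchy_ball {f : ℂ → ℂ} {u : ℂ} {r A : ℝ} (hr : 0 < r)
    (hd : ∀ w : ℂ, ‖w - u‖ ≤ r → DifferentiableAt ℂ f w) (hA : ∀ w : ℂ, ‖w - u‖ ≤ r → ‖f w‖ ≤ A) :
    ‖deriv f u‖ ≤ A / r := by
  have h1 : DiffContOnCl ℂ f (Metric.ball u r) := by
    refine DifferentiableOn.diffContOnCl_ball (U := Metric.closedBall u r) ?_ subset_rfl
    intro w hw
    rw [Metric.mem_closedBall, dist_eq_norm] at hw
    exact (hd w hw).differentiableWithinAt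
  refine Complex.norm_deriv_le_of_forall_mem_sphere_norm_le hr h1 fun w hw => hA w ?_
  rw [Metric.mem_sphere, dist_eq_norm] at hw
  exact hw.le

theorem exists_cutF {ep : ℝ} (h0 : 0 < ep) (h1 : ep ≤ 1 / 100) (n0 : ℕ) {hh : ℝ} (hhh : 0 ≤ hh) :
    ∃ c C : ℝ, 0 < c ∧ 1 ≤ C ∧ ∃ m0 : ℕ, 1 ≤ m0 ∧ ∀ m ≥ m0, ∀ (K : ℕ) (W ex : List ℂ),
      RwI n0 hh m K W ex → ∀ u : ℂ, |u.re - l| ≤ ep / 4 →
      phi (4 / 3 * (1 - ep)) W u ≠ 0 ∧ DifferentiableAt ℂ (phi (4 / 3 * (1 - ep)) W) u ∧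
      ‖deriv (phi (4 / 3 * (1 - ep)) W) u / phi (4 / 3 * (1 - ep)) W u‖ ≤
        C * Real.exp (-(c * (m * Real.exp (-(8 / 3 * (1 - ep)) * |u.im|)))) := by
  obtain ⟨c, C, hc, hC, m0, hm0, H⟩ := exists_cutW h0 h1 n0 hhh
  obtain ⟨β, hβ⟩ : ∃ β : ℝ, β = 4 / 3 * (1 - ep) := ⟨_, rfl⟩
  have hβ0 : 0 < β := by rw [hβ]; nlinarith
  have hβ1 : β ≤ 4 / 3 := by rw [hβ]; nlinarith
  obtain ⟨p, hp⟩ : ∃ p : ℝ, p = 8 / 3 * (1 - ep) := ⟨_, rfl⟩
  have hp0 : 0 < p := by rw [hp]; nlinarith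
  have hp1 : p ≤ 8 / 3 := by rw [hp]; nlinarith
  rw [← hβ, ← hp] at H ⊢
  obtain ⟨θ, hθ⟩ : ∃ θ : ℝ, θ = Real.exp (-(p * (ep / 4))) := ⟨_, rfl⟩
  have hθ0 : 0 < θ := by rw [hθ]; exact Real.exp_pos _
  have hθ1 : θ ≤ 1 := by
    rw [hθ, Real.exp_le_one_iff]
    have : 0 ≤ p * (ep / 4) := by positivity
    linarith
  -- the constants
  obtain ⟨A1, hA1⟩ : ∃ A1 : ℝ, A1 = 8 * (C / θ) / (ep * c) * Real.exp (c * θ / c) := ⟨_, rfl⟩
  have hA1' : 0 ≤ A1 := by rw [hA1]; positivity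
  refine ⟨c * θ, A1 + 8 / ep + 1, by positivity, by
    have : 0 ≤ 8 / ep := by positivity
    linarith, m0, hm0, ?_⟩
  intro m hm K W ex hW u hu
  obtain ⟨u1, u2⟩ := abs_le.1 hu
  have hmp : (0 : ℝ) < m := by
    have : 0 < m := lt_of_lt_of_le (by omega) (hm0.trans hm)
    exact_mod_cast this
  obtain ⟨E, hE⟩ : ∃ E : ℝ, E = Real.exp (-p * |u.im|) := ⟨_, rfl⟩
  have hE0 : 0 < E := by rw [hE]; exact Real.exp_pos _
  -- the ball
  have hball : ∀ w : ℂ, ‖w - u‖ ≤ ep / 4 → l - 1 / 100 ≤ w.re ∧ w.re ≤ l + ep / 2 ∧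
      Real.exp (-p * |w.im|) ≤ E / θ ∧ θ * E ≤ Real.exp (-p * |w.im|) := by
    intro w hw
    have k1 := (Complex.abs_re_le_norm (w - u)).trans hw
    have k2 := (Complex.abs_im_le_norm (w - u)).trans hw
    rw [Complex.sub_re] at k1
    rw [Complex.sub_im] at k2
    obtain ⟨k3, k4⟩ := abs_le.1 k1
    have k5 : |u.im| - |w.im| ≤ ep / 4 := by
      have := abs_sub_abs_le_abs_sub u.im w.im
      rw [abs_sub_comm] at this
      linarith
    have k6 : |w.im| - |u.im| ≤ ep / 4 := (abs_sub_abs_le_abs_sub w.im u.im).trans k2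
    refine ⟨by linarith, by linarith, ?_, ?_⟩
    · rw [le_div_iff₀ hθ0, hθ, hE, ← Real.exp_add]
      refine Real.exp_le_exp.2 ?_
      nlinarith
    · rw [hθ, hE, ← Real.exp_add]
      refine Real.exp_le_exp.2 ?_
      nlinarith
  have hphi : ∀ w : ℂ, phi β W w = 1 - prW β K ex w := fun w => phi_perm_K hW.perm w
  -- differentiability
  have hdP : ∀ w : ℂ, ‖w - u‖ ≤ ep / 4 → DifferentiableAt ℂ (prW β K ex) w := by
    intro w hw
    obtain ⟨w1, w2, -, -⟩ := hball w hw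
    have h3 : |w.re + l / 2| ≤ 9 / 5 * l := by
      have := wide_of h0 h1 (x := 0) (u := w) (by
        rw [Complex.zero_re, abs_zero]
        exact div_nonneg l_pos.le (by norm_num)) w1 w2
      rwa [sub_zero] at this
    exact ((diff_psi_wide hβ0 hβ1 h3).pow K).mul
      (diff_prod_wide hβ0 hβ1 fun x hx => wide_of h0 h1 (hW.pt x hx).1 w1 w2)
  have hdφ : ∀ w : ℂ, ‖w - u‖ ≤ ep / 4 → DifferentiableAt ℂ (phi β W) w := by
    intro w hw
    have e : phi β W = fun w => 1 - prW β K ex w := funext hphi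
    rw [e]
    exact (differentiableAt_const _).sub (hdP w hw)
  have hu0 : ‖u - u‖ ≤ ep / 4 := by
    rw [sub_self, norm_zero]
    positivity
  obtain ⟨v1, v2, -, -⟩ := hball u hu0
  have hval := H m hm K W ex hW u v1 v2
  rw [← hE] at hval
  -- lower bound
  obtain ⟨x, hx⟩ : ∃ x : ℝ, x = c * (m * E) := ⟨_, rfl⟩
  have hx0 : 0 < x := by rw [hx]; positivity
  have hlow : min 1 x / 2 ≤ ‖phi β W u‖ := by
    have k1 := one_sub_exp_ge hx0.le
    have k2 : ‖(1 : ℂ)‖ - ‖prW β K ex u‖ ≤ ‖1 - prW β K ex u‖ := norm_sub_norm_le _ _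
    rw [hphi u]
    rw [norm_one] at k2
    have k3 := hval.1
    rw [← hx] at k3
    linarith
  have hmin : 0 < min 1 x := lt_min one_pos hx0
  have hne : phi β W u ≠ 0 := norm_pos_iff.1 (lt_of_lt_of_le (by linarith) hlow)
  refine ⟨hne, hdφ u hu0, ?_⟩
  -- derivative
  have hd1 : ‖deriv (phi β W) u‖ ≤ C * (m * (E / θ)) / (ep / 4) := by
    refine cauchy_ball (by positivity) hdφ fun w hw => ?_
    obtain ⟨w1, w2, w3, -⟩ := hball w hw
    refine (H m hm K W ex hW w w1 w2).2.trans ?_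
    gcongr
  have hd2 : ‖deriv (phi β W) u‖ ≤ Real.exp (-(c * (m * (θ * E)))) / (ep / 4) := by
    have e : deriv (phi β W) u = -deriv (prW β K ex) u := by
      have e1 : phi β W = fun w => 1 - prW β K ex w := funext hphi
      rw [e1, deriv_const_sub]
    rw [e, norm_neg]
    refine cauchy_ball (by positivity) hdP fun w hw => ?_
    obtain ⟨w1, w2, -, w3⟩ := hball w hw
    refine (H m hm K W ex hW w w1 w2).1.trans (Real.exp_le_exp.2 ?_)
    have : c * (m * (θ * E)) ≤ c * (m * Real.exp (-p * |w.im|)) := by gcongr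
    linarith
  rw [norm_div, ← hE]
  have hX : c * θ * (m * E) = θ * x := by rw [hx]; ring
  rw [hX]
  have hexp0 : 0 < Real.exp (-(θ * x)) := Real.exp_pos _
  have h8 : 0 ≤ 8 / ep := by positivity
  rcases le_total x 1 with h | h
  · rw [min_eq_right h] at hlow
    have k1 : ‖deriv (phi β W) u‖ / ‖phi β W u‖ ≤ (C * (m * (E / θ)) / (ep / 4)) / (x / 2) :=
      div_le_div₀ (by positivity) hd1 (by positivity) hlow
    have k2 : (C * (m * (E / θ)) / (ep / 4)) / (x / 2) = 8 * (C / θ) / (ep * c) := by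
      rw [hx]
      field_simp
      norm_num
    have k3 : 1 ≤ Real.exp (c * θ / c) * Real.exp (-(θ * x)) := by
      rw [← Real.exp_add]
      refine Real.one_le_exp ?_
      have e3 : c * θ / c = θ := by field_simp
      rw [e3]
      nlinarith
    have k4 : 8 * (C / θ) / (ep * c) ≤ A1 * Real.exp (-(θ * x)) := by
      rw [hA1, mul_assoc]
      exact le_mul_of_one_le_right (by positivity) k3
    calc ‖deriv (phi β W) u‖ / ‖phi β W u‖ ≤ A1 * Real.exp (-(θ * x)) := by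
          rw [← k2] at k4
          exact k1.trans k4
      _ ≤ (A1 + 8 / ep + 1) * Real.exp (-(θ * x)) :=
          mul_le_mul_of_nonneg_right (by linarith) hexp0.le
  · rw [min_eq_left h] at hlow
    have e4 : c * (m * (θ * E)) = θ * x := by rw [hx]; ring
    rw [e4] at hd2
    have k1 : ‖deriv (phi β W) u‖ / ‖phi β W u‖ ≤
        (Real.exp (-(θ * x)) / (ep / 4)) / (1 / 2) :=
      div_le_div₀ (by positivity) hd2 (by norm_num) hlow
    have k2 : (Real.exp (-(θ * x)) / (ep / 4)) / (1 / 2) = 8 / ep * Real.exp (-(θ * x)) := by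
      field_simp
      norm_num
    rw [k2] at k1
    exact k1.trans (mul_le_mul_of_nonneg_right (by linarith) hexp0.le)

lemma uT_re (z : ℂ) : ((l : ℂ) + I * z).re - l = -z.im := by simp

lemma uT_im (z : ℂ) : ((l : ℂ) + I * z).im = z.re := by simp

/-- **the force of the cutoff**: bounded, analytic, small integral -/
theorem exists_cutB {ep : ℝ} (h0 : 0 < ep) (h1 : ep ≤ 1 / 100) (n0 : ℕ) {hh : ℝ} (hhh : 0 ≤ hh) :
    ∃ C : ℝ, 1 ≤ C ∧ ∃ m0 : ℕ, 1 ≤ m0 ∧ ∀ m ≥ m0, ∀ (K : ℕ) (W ex : List ℂ),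
      RwI n0 hh m K W ex →
      (∀ z : ℂ, |z.im| ≤ ep / 4 → phi (4 / 3 * (1 - ep)) W ((l : ℂ) + I * z) ≠ 0 ∧
        HasDerivAt (fun z => phi (4 / 3 * (1 - ep)) W ((l : ℂ) + I * z))
          (phi (4 / 3 * (1 - ep)) W ((l : ℂ) + I * z) * cutF (4 / 3 * (1 - ep)) W z) z ∧
        ‖cutF (4 / 3 * (1 - ep)) W z‖ ≤ C ∧
        ‖cutF (4 / 3 * (1 - ep)) W z‖ ≤ C / m * Real.exp (8 / 3 * (1 - ep) * |z.re|)) ∧
      DifferentiableOn ℂ (cutF (4 / 3 * (1 - ep)) W) (PBE.Sp (-(ep / 4)) (ep / 4)) ∧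
      ∫ t : ℝ, Real.exp (-(8 / 3 * |t|)) * ‖cutF (4 / 3 * (1 - ep)) W t‖ ≤ C / m := by
  obtain ⟨c, C, hc, hC, m0, hm0, H⟩ := exists_cutF h0 h1 n0 hhh
  obtain ⟨p, hp⟩ : ∃ p : ℝ, p = 8 / 3 * (1 - ep) := ⟨_, rfl⟩
  have hp0 : 0 < p := by rw [hp]; nlinarith
  have hp1 : p ≤ 8 / 3 := by rw [hp]; nlinarith
  obtain ⟨β, hβ⟩ : ∃ β : ℝ, β = 4 / 3 * (1 - ep) := ⟨_, rfl⟩
  rw [← hβ, ← hp] at H ⊢
  have hcC : 0 ≤ C / c := by positivity
  refine ⟨C + C / c + C / c * (3 / (4 * ep)), by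
    have : 0 ≤ C / c * (3 / (4 * ep)) := by positivity
    linarith, m0, hm0, ?_⟩
  intro m hm K W ex hW
  have hmp : (0 : ℝ) < m := by
    have : 0 < m := lt_of_lt_of_le (by omega) (hm0.trans hm)
    exact_mod_cast this
  have hmain : ∀ z : ℂ, |z.im| ≤ ep / 4 → phi β W ((l : ℂ) + I * z) ≠ 0 ∧
      DifferentiableAt ℂ (phi β W) ((l : ℂ) + I * z) ∧
      ‖cutF β W z‖ ≤ C * Real.exp (-(c * (m * Real.exp (-p * |z.re|)))) := by
    intro z hz
    obtain ⟨k1, k2, k3⟩ := H m hm K W ex hW ((l : ℂ) + I * z) (by rwa [uT_re, abs_neg])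
    rw [uT_im] at k3
    refine ⟨k1, k2, ?_⟩
    unfold cutF
    rw [norm_mul, Complex.norm_I, one_mul]
    exact k3
  have hsmall : ∀ z : ℂ, |z.im| ≤ ep / 4 → ‖cutF β W z‖ ≤ C / c / m * Real.exp (p * |z.re|) := by
    intro z hz
    obtain ⟨-, -, k3⟩ := hmain z hz
    obtain ⟨y, hy⟩ : ∃ y : ℝ, y = c * (m * Real.exp (-p * |z.re|)) := ⟨_, rfl⟩
    have hy0 : 0 < y := by rw [hy]; positivity
    rw [← hy] at k3
    have k4 : Real.exp (-y) ≤ 1 / y := by
      rw [Real.exp_neg, ← one_div]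
      refine one_div_le_one_div_of_le hy0 ?_
      have := Real.add_one_le_exp y
      linarith
    refine k3.trans ((mul_le_mul_of_nonneg_left k4 (by linarith)).trans (le_of_eq ?_))
    rw [hy, neg_mul, Real.exp_neg]
    field_simp
  refine ⟨fun z hz => ?_, ?_, ?_⟩
  · obtain ⟨k1, k2, k3⟩ := hmain z hz
    refine ⟨k1, ?_, ?_, ?_⟩
    · have h3 : HasDerivAt (fun z : ℂ => (l : ℂ) + I * z) I z := by
        simpa using ((hasDerivAt_id z).const_mul I).const_add (l : ℂ)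
      have h4 := k2.hasDerivAt.comp z h3
      refine h4.congr_deriv ?_
      unfold cutF
      field_simp
    · refine k3.trans ((mul_le_of_le_one_right (by linarith) ?_).trans ?_)
      · rw [Real.exp_le_one_iff]
        have : 0 ≤ c * (m * Real.exp (-p * |z.re|)) := by positivity
        linarith
      · have : 0 ≤ C / c * (3 / (4 * ep)) := by positivity
        linarith
    · refine (hsmall z hz).trans ?_
      have : 0 ≤ C / c * (3 / (4 * ep)) := by positivity
      have h5 : C / c / m ≤ (C + C / c + C / c * (3 / (4 * ep))) / m := by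
        refine div_le_div_of_nonneg_right ?_ hmp.le
        linarith
      exact mul_le_mul_of_nonneg_right h5 (Real.exp_pos _).le
  · have hop : IsOpen {u : ℂ | |u.re - l| < ep / 4} :=
      isOpen_lt (continuous_abs.comp (Complex.continuous_re.sub continuous_const)) continuous_const
    have hdo : DifferentiableOn ℂ (phi β W) {u : ℂ | |u.re - l| < ep / 4} := by
      intro u hu
      have hu' : |u.re - l| < ep / 4 := hu
      exact ((H m hm K W ex hW u hu'.le).2.1).differentiableWithinAt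
    have hmem : ∀ z ∈ PBE.Sp (-(ep / 4)) (ep / 4), ((l : ℂ) + I * z) ∈
        {u : ℂ | |u.re - l| < ep / 4} := by
      intro z hz
      show |((l : ℂ) + I * z).re - l| < ep / 4
      rw [uT_re, abs_neg, abs_lt]
      exact hz
    intro z hz
    have hz' := hmem z hz
    have h5 : |z.im| ≤ ep / 4 := (abs_lt.2 hz).le
    have h6 : DifferentiableAt ℂ (fun z : ℂ => (l : ℂ) + I * z) z := by fun_prop
    have h7 : DifferentiableAt ℂ (deriv (phi β W)) ((l : ℂ) + I * z) :=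
      ((hdo.deriv hop) _ hz').differentiableAt (hop.mem_nhds hz')
    have h8 : DifferentiableAt ℂ (fun z => deriv (phi β W) ((l : ℂ) + I * z)) z :=
      DifferentiableAt.comp (g := deriv (phi β W)) z h7 h6
    have h9 : DifferentiableAt ℂ (fun z => phi β W ((l : ℂ) + I * z)) z :=
      DifferentiableAt.comp (g := phi β W) z (hmain z h5).2.1 h6
    exact ((h8.div h9 (hmain z h5).1).const_mul I).differentiableWithinAt
  · have hk : ∀ t : ℝ, Real.exp (-(8 / 3 * |t|)) * ‖cutF β W t‖ ≤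
        C / c / m * Real.exp (-(8 / 3 * ep) * |t|) := by
      intro t
      have k1 := hsmall (t : ℂ) (by
        rw [Complex.ofReal_im, abs_zero]
        positivity)
      rw [Complex.ofReal_re] at k1
      calc Real.exp (-(8 / 3 * |t|)) * ‖cutF β W t‖
          ≤ Real.exp (-(8 / 3 * |t|)) * (C / c / m * Real.exp (p * |t|)) :=
            mul_le_mul_of_nonneg_left k1 (Real.exp_pos _).le
        _ = C / c / m * (Real.exp (-(8 / 3 * |t|)) * Real.exp (p * |t|)) := by ring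
        _ = _ := by
            rw [← Real.exp_add, hp]
            congr 2
            ring
    have hi : Integrable fun t : ℝ => Real.exp (-(8 / 3 * ep) * |t|) := by
      have := (PBE.int_exp_abs (a := 8 / 3 * ep) (by positivity)).1
      simpa only [neg_mul] using this
    have hv : ∫ t : ℝ, Real.exp (-(8 / 3 * ep) * |t|) = 3 / (4 * ep) := by
      have e := integral_comp_abs (f := fun u : ℝ => Real.exp (-(8 / 3 * ep) * u))
      have e2 : ∫ u in Ioi (0 : ℝ), Real.exp (-(8 / 3 * ep) * u) = 3 / (8 * ep) := by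
        have h := integral_exp_mul_Ioi (a := -(8 / 3 * ep)) (by
          have : 0 < 8 / 3 * ep := by positivity
          linarith) 0
        simp only [mul_zero, Real.exp_zero] at h
        rw [h]
        field_simp
      rw [e, e2]
      field_simp
      norm_num
    have k2 : ∫ t : ℝ, Real.exp (-(8 / 3 * |t|)) * ‖cutF β W t‖ ≤
        ∫ t : ℝ, C / c / m * Real.exp (-(8 / 3 * ep) * |t|) := by
      refine integral_mono_of_nonneg (Eventually.of_forall fun t => ?_) (hi.const_mul _)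
        (Eventually.of_forall hk)
      exact mul_nonneg (Real.exp_pos _).le (norm_nonneg _)
    refine k2.trans ?_
    rw [integral_const_mul, hv]
    have h5 : C / c / m * (3 / (4 * ep)) = C / c * (3 / (4 * ep)) / m := by ring
    rw [h5]
    refine div_le_div_of_nonneg_right ?_ hmp.le
    linarith

end PBTs

end
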