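import Pool.Agent.PotH.CutI
import Pool.Agent.PB.DomL

/-!
# Plan B: the cutoff of the dislocated function is admissible

Rows `mu1 k x` (one row at `x`, `k` rows at `0`) and the points `± i`, parameter `m`,
`k + 1 ≤ m ≤ k + 3`: **`exists_cutL`**.
-/

set_option autoImplicit false
set_option linter.unusedSectionVars false

noncomputable section

open Complex

namespace PBL

theorem perm_mu1 (k : ℕ) (x : ℂ) : (List.ofFn (mu1 k x) ++ [I, -I]).Perm
    (List.replicate k 0 ++ [x, I, -I]) := by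
  rw [ofFn_mu1, List.cons_append]
  have h : List.replicate k (0 : ℂ) ++ [x, I, -I] =
      List.replicate k 0 ++ x :: [I, -I] := rfl
  rw [h]
  exact List.perm_middle.symm

theorem rwI_mu1 {m k : ℕ} (h1 : k + 1 ≤ m) (h2 : m ≤ k + 3) {x : ℂ} (hx : |x.re| ≤ NUP1.l / 5)
    (hx1 : |x.im| ≤ 2) : PotH.RwI 3 2 m k (List.ofFn (mu1 k x) ++ [I, -I]) [x, I, -I] where
  perm := perm_mu1 k x
  len := by simp
  pt := by
    intro y hy
    have hl := NUP1.l_pos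
    simp only [List.mem_cons, List.not_mem_nil, or_false] at hy
    rcases hy with rfl | rfl | rfl
    · exact ⟨hx, hx1⟩
    · simp only [Complex.I_re, abs_zero, Complex.I_im, abs_one]
      exact ⟨by positivity, by norm_num⟩
    · simp only [Complex.neg_re, Complex.I_re, neg_zero, abs_zero, Complex.neg_im, Complex.I_im,
        abs_neg, abs_one]
      exact ⟨by positivity, by norm_num⟩
  up := by omega
  dn := h2

/-- **the cutoff of the dislocated function is admissible**, parameter `m = k + 1, .., k + 3` -/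
theorem exists_cutL [NUSea.Sea] {ep e1 : ℝ} (hep : 0 < ep) (hep1 : ep ≤ 1 / 100) (he : 0 < e1)
    (he1 : e1 ≤ 1 / 100) (Cc : ℝ) : ∃ C0 : ℝ, 1 ≤ C0 ∧ ∃ m0 : ℕ, 1 ≤ m0 ∧ ∀ m : ℕ, m0 ≤ m →
    ∃ Bc Bc' : ℝ → ℝ, ∀ (k : ℕ) (x : ℂ), k + 1 ≤ m → m ≤ k + 3 → |x.re| ≤ NUP1.l / 5 →
      |x.im| ≤ 2 → ∀ η η1 : ℝ → ℝ, PotH.CrvP e1 Cc m η η1 →
      PotH.CutR ep C0 ((1 - e1) * NUO.Tb (Real.log m)) m (fun t =>
        ‖NUP1.phi (4 / 3 * (1 - ep)) (List.ofFn (mu1 k x) ++ [I, -I]) (NUO.pA η t)‖) Bc Bc' := by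
  obtain ⟨C0, hC0, m0, hm0, H⟩ := PotH.exists_cutR hep hep1 he he1 Cc 3 (hh := 2) (by norm_num)
  refine ⟨C0, hC0, m0, hm0, fun m hm => ?_⟩
  obtain ⟨Bc, Bc', H⟩ := H m hm
  exact ⟨Bc, Bc', fun k x h1 h2 hx hx1 η η1 hcv =>
    H k _ _ (rwI_mu1 h1 h2 hx hx1) η η1 hcv⟩

end PBL

end
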