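import Mathlib.Combinatorics.SimpleGraph.Basic
import Mathlib.Combinatorics.SimpleGraph.DeleteEdges
import Mathlib.Data.ZMod.Basic
import Mathlib.Data.Set.Card
import Mathlib.Analysis.SpecialFunctions.Pow.Real
import Mathlib.Topology.Algebra.InfiniteSum.Real

/-!
# Self-avoiding walks on the honeycomb cylinder: the public definitions

The honeycomb lattice wrapped on a cylinder of circumference `N`: the vertex `(j, r, false)` (white) in the column `j`
and the row `r` (modulo `N`) has the three black neighbours `(j, r, true)`, `(j - 1, r, true)`, `(j, r - 1, true)`.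
-/

set_option autoImplicit false

namespace Pool.Agent.CylSaw

/-- Vertices: column, row modulo `N`, colour (`false` = white, `true` = black). -/
abbrev V (N : ℕ) : Type := ℤ × ZMod N × Bool

/-- `u` is white, `v` is black, and they are neighbours. -/
def WB {N : ℕ} (u v : V N) : Prop :=
  u.2.2 = false ∧ v.2.2 = true ∧
    ((v.1 = u.1 ∧ v.2.1 = u.2.1) ∨ (v.1 = u.1 - 1 ∧ v.2.1 = u.2.1) ∨ (v.1 = u.1 ∧ v.2.1 = u.2.1 - 1))

/-- The honeycomb cylinder with `N` rows. -/
def cyl (N : ℕ) : SimpleGraph (V N) where
  Adj u v := WB u v ∨ WB v u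
  symm := ⟨fun _ _ h => h.symm⟩
  loopless := ⟨fun u h => by
    rcases h with h | h <;> exact absurd (h.1.symm.trans h.2.1) (by decide)⟩

/-- The edge of the row `r` between the columns `-1` and `0`. -/
def cut {N : ℕ} (r : ZMod N) : Sym2 (V N) := s((-1, r, true), (0, r, false))

/-- The self-avoiding walks with `n` steps on the cylinder with `2 k` rows from the white end of the cut edge of the
row `0` to the white end of the cut edge of the antipodal row `k` that use neither of the two cut edges. -/
def saws (k n : ℕ) : Set (Fin (n + 1) → V (2 * k)) :=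
  {w | Function.Injective w ∧ w 0 = (0, 0, false) ∧ w (Fin.last n) = (0, (k : ZMod (2 * k)), false) ∧
    ∀ i : Fin n, ((cyl (2 * k)).deleteEdges {cut 0, cut (k : ZMod (2 * k))}).Adj (w i.castSucc) (w i.succ)}

/-- The critical fugacity of the honeycomb lattice (Nienhuis; Duminil-Copin and Smirnov). -/
noncomputable def zc : ℝ := 1 / √(2 + √2)

end Pool.Agent.CylSaw
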