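import Pool.Agent.PB.CylDef
import Pool.Agent.GLD.W0

/-!
# The cylinder graph and the words of the cylinder (helper69): geometry

`ps N` sends a vertex of the plane lattice to its vertex on the cylinder with `N` rows.
-/

set_option autoImplicit false

namespace Pool.Agent.CylSaw

open HexObs HexObs.LP
open Pool.Agent.NUF.Cyl (Nm Cy ri nmN tr ri_tr ri_A ri_B nmN_tr nm_eq)

/-- the column. -/
def co (v : Pt) : ℤ := (v.1 - v.2 + 1) / 3

/-- the vertex of the cylinder. -/
def ps (N : ℕ) (v : Pt) : V N := (co v, ((ri v : ℤ) : ZMod N), decide ((v.1 - v.2) % 3 = 0))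

theorem vt_iff (v : Pt) : Vt v ↔ (v.1 - v.2) % 3 ≠ 1 := by
  unfold Vt HexObs.cl
  rw [not_iff_not]
  have h := ZMod.intCast_eq_intCast_iff (v.1 - v.2) 1 3
  rw [Int.cast_one] at h
  rw [h]
  unfold Int.ModEq
  constructor
  · intro h1
    simpa using h1
  · intro h1
    simpa using h1

theorem co_A (j r : ℤ) : co (_root_.EXL.A j r) = j := by
  simp only [co, _root_.EXL.A]
  omega

theorem co_B (j r : ℤ) : co (_root_.EXL.B j r) = j := by
  simp only [co, _root_.EXL.B]
  omega

theorem ps_A (N : ℕ) (j r : ℤ) : ps N (_root_.EXL.A j r) = (j, (r : ZMod N), false) := by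
  unfold ps
  rw [co_A, ri_A]
  refine Prod.ext rfl (Prod.ext rfl ?_)
  simp only [_root_.EXL.A, decide_eq_false_iff_not]
  omega

theorem ps_B (N : ℕ) (j r : ℤ) : ps N (_root_.EXL.B j r) = (j, (r : ZMod N), true) := by
  unfold ps
  rw [co_B, ri_B]
  refine Prod.ext rfl (Prod.ext rfl ?_)
  simp only [_root_.EXL.B, decide_eq_true_eq]
  omega

theorem vt_cases {v : Pt} (h : Vt v) : v = _root_.EXL.A (co v) (ri v) ∨ v = _root_.EXL.B (co v) (ri v) := by
  rw [vt_iff] at h
  have h1 : (v.1 - v.2) % 3 = 2 ∨ (v.1 - v.2) % 3 = 0 := by omega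
  rcases h1 with h1 | h1
  · left
    simp only [co, ri, _root_.EXL.A, Prod.ext_iff]
    constructor <;> omega
  · right
    simp only [co, ri, _root_.EXL.B, Prod.ext_iff]
    constructor <;> omega

theorem tr_A (t j r : ℤ) : tr t (_root_.EXL.A j r) = _root_.EXL.A j (r + t) := by
  simp only [tr, _root_.EXL.A, Prod.mk.injEq]
  constructor <;> ring

theorem tr_B (t j r : ℤ) : tr t (_root_.EXL.B j r) = _root_.EXL.B j (r + t) := by
  simp only [tr, _root_.EXL.B, Prod.mk.injEq]
  constructor <;> ring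

variable {N : ℕ} (hN : 1 ≤ N)

theorem ps_tr (t : ℤ) (v : Pt) : ps N (tr (N * t) v) = ps N v := by
  unfold ps
  refine Prod.ext ?_ (Prod.ext ?_ ?_)
  · simp only [co, tr]
    congr 1
    ring
  · show ((ri (tr (N * t) v) : ℤ) : ZMod N) = _
    rw [ri_tr]
    push_cast
    rw [ZMod.natCast_self]
    ring
  · have e : (tr (N * t) v).1 - (tr (N * t) v).2 = v.1 - v.2 := by
      simp only [tr]
      ring
    simp only [e]

theorem ps_nm (v : Pt) : ps N ((Cy N hN).nm v) = ps N v := by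
  rw [nm_eq]
  unfold nmN
  rw [show -((N : ℤ) * (ri v / N)) = N * (-(ri v / N)) by ring]
  exact ps_tr _ _

/-- vertices with the same image have the same representative. -/
theorem nm_of_ps {v w : Pt} (hv : Vt v) (hw : Vt w) (h : ps N v = ps N w) :
    (Cy N hN).nm v = (Cy N hN).nm w := by
  have e1 : co v = co w := congrArg Prod.fst h
  have e2 : ((ri v : ℤ) : ZMod N) = ((ri w : ℤ) : ZMod N) := congrArg (fun p : V N => p.2.1) h
  have e3 : decide ((v.1 - v.2) % 3 = 0) = decide ((w.1 - w.2) % 3 = 0) := congrArg (fun p : V N => p.2.2) h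
  have e4 : (N : ℤ) ∣ ri v - ri w := by
    rw [← ZMod.intCast_zmod_eq_zero_iff_dvd]
    push_cast
    rw [e2, sub_self]
  obtain ⟨t, ht⟩ := e4
  have key : v = tr (N * t) w := by
    rcases vt_cases hv with h1 | h1 <;> rcases vt_cases hw with h2 | h2
    · rw [h2, tr_A]
      rw [h1, e1]
      congr 1
      linarith
    · exfalso
      rw [h1, h2] at e3
      simp [_root_.EXL.A, _root_.EXL.B] at e3
      omega
    · exfalso
      rw [h1, h2] at e3
      simp [_root_.EXL.A, _root_.EXL.B] at e3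
      omega
    · rw [h2, tr_B]
      rw [h1, e1]
      congr 1
      linarith
  rw [nm_eq, nm_eq, key]
  exact nmN_tr N hN t w

/-! ### neighbours -/

theorem dir_A {d : Pt} (hd : d ∈ dirs) {j r : ℤ} (h : Vt (_root_.EXL.A j r + d)) :
    d = (1, 0) ∨ d = (-1, 1) ∨ d = (0, -1) := by
  rw [vt_iff] at h
  simp only [dirs, Finset.mem_insert, Finset.mem_singleton] at hd
  simp only [_root_.EXL.A, Prod.fst_add, Prod.snd_add] at h
  rcases hd with rfl | rfl | rfl | rfl | rfl | rfl
  · exact Or.inl rfl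
  · exfalso; simp only at h; omega
  · exact Or.inr (Or.inl rfl)
  · exfalso; simp only at h; omega
  · exact Or.inr (Or.inr rfl)
  · exfalso; simp only at h; omega

theorem dir_B {d : Pt} (hd : d ∈ dirs) {j r : ℤ} (h : Vt (_root_.EXL.B j r + d)) :
    d = (-1, 0) ∨ d = (1, -1) ∨ d = (0, 1) := by
  rw [vt_iff] at h
  simp only [dirs, Finset.mem_insert, Finset.mem_singleton] at hd
  simp only [_root_.EXL.B, Prod.fst_add, Prod.snd_add] at h
  rcases hd with rfl | rfl | rfl | rfl | rfl | rfl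
  · exfalso; simp only at h; omega
  · exact Or.inr (Or.inr rfl)
  · exfalso; simp only at h; omega
  · exact Or.inl rfl
  · exfalso; simp only at h; omega
  · exact Or.inr (Or.inl rfl)

theorem A_1 (j r : ℤ) : _root_.EXL.A j r + (1, 0) = _root_.EXL.B j r := by
  simp [_root_.EXL.A, _root_.EXL.B]

theorem A_2 (j r : ℤ) : _root_.EXL.A j r + (-1, 1) = _root_.EXL.B (j - 1) r := by
  simp only [_root_.EXL.A, _root_.EXL.B, Prod.mk_add_mk, Prod.mk.injEq]
  constructor <;> omega

theorem A_3 (j r : ℤ) : _root_.EXL.A j r + (0, -1) = _root_.EXL.B j (r - 1) := by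
  simp only [_root_.EXL.A, _root_.EXL.B, Prod.mk_add_mk, Prod.mk.injEq]
  constructor <;> omega

theorem B_1 (j r : ℤ) : _root_.EXL.B j r + (-1, 0) = _root_.EXL.A j r := by
  simp only [_root_.EXL.A, _root_.EXL.B, Prod.mk_add_mk, Prod.mk.injEq]
  constructor <;> omega

theorem B_2 (j r : ℤ) : _root_.EXL.B j r + (1, -1) = _root_.EXL.A (j + 1) r := by
  simp only [_root_.EXL.A, _root_.EXL.B, Prod.mk_add_mk, Prod.mk.injEq]
  constructor <;> omega

theorem B_3 (j r : ℤ) : _root_.EXL.B j r + (0, 1) = _root_.EXL.A j (r + 1) := by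
  simp only [_root_.EXL.A, _root_.EXL.B, Prod.mk_add_mk, Prod.mk.injEq]
  constructor <;> omega

/-- a step is an edge of the cylinder. -/
theorem adj_step (N : ℕ) {v d : Pt} (h : De (v, d)) : (cyl N).Adj (ps N v) (ps N (v + d)) := by
  obtain ⟨h1, h2, h3⟩ := h
  simp only at h1 h2 h3
  rcases vt_cases h2 with hv | hv
  · rw [hv] at h3 ⊢
    left
    rcases dir_A h1 h3 with rfl | rfl | rfl
    · rw [A_1, ps_A, ps_B]
      exact ⟨rfl, rfl, Or.inl ⟨rfl, rfl⟩⟩
    · rw [A_2, ps_A, ps_B]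
      exact ⟨rfl, rfl, Or.inr (Or.inl ⟨rfl, rfl⟩)⟩
    · rw [A_3, ps_A, ps_B]
      refine ⟨rfl, rfl, Or.inr (Or.inr ⟨rfl, ?_⟩)⟩
      simp only
      push_cast
      ring
  · rw [hv] at h3 ⊢
    right
    rcases dir_B h1 h3 with rfl | rfl | rfl
    · rw [B_1, ps_A, ps_B]
      exact ⟨rfl, rfl, Or.inl ⟨rfl, rfl⟩⟩
    · rw [B_2, ps_A, ps_B]
      refine ⟨rfl, rfl, Or.inr (Or.inl ⟨?_, rfl⟩)⟩
      simp only
      ring
    · rw [B_3, ps_A, ps_B]
      refine ⟨rfl, rfl, Or.inr (Or.inr ⟨rfl, ?_⟩)⟩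
      simp only
      push_cast
      ring

theorem Vt_A' (j r : ℤ) : Vt (_root_.EXL.A j r) := Pool.Agent.NUN.Vt_A j r

theorem Vt_B' (j r : ℤ) : Vt (_root_.EXL.B j r) := Pool.Agent.NUN.Vt_B j r

/-- every edge of the cylinder is a step. -/
theorem adj_lift (N : ℕ) {v : Pt} (hv : Vt v) {y : V N} (h : (cyl N).Adj (ps N v) y) :
    ∃ d, De (v, d) ∧ y = ps N (v + d) := by
  obtain ⟨y1, y2, y3⟩ := y
  have dv : ∀ d : Pt, d ∈ dirs → ∀ w : Pt, v + d = w → Vt w → De (v, d) := fun d hd w e hw =>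
    ⟨hd, hv, by show Vt (v + d); rw [e]; exact hw⟩
  rcases vt_cases hv with e | e
  · rw [e] at h
    rw [ps_A] at h
    rcases h with h | h
    · obtain ⟨-, h2, h3⟩ := h
      simp only at h2 h3
      subst h2
      rcases h3 with ⟨rfl, rfl⟩ | ⟨rfl, rfl⟩ | ⟨rfl, rfl⟩
      · have e1 : v + (1, 0) = _root_.EXL.B (co v) (ri v) := by
          conv_lhs => rw [e]
          exact A_1 _ _
        refine ⟨(1, 0), dv _ (by decide) _ e1 (Vt_B' _ _), ?_⟩
        rw [e1, ps_B]
      · have e1 : v + (-1, 1) = _root_.EXL.B (co v - 1) (ri v) := by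
          conv_lhs => rw [e]
          exact A_2 _ _
        refine ⟨(-1, 1), dv _ (by decide) _ e1 (Vt_B' _ _), ?_⟩
        rw [e1, ps_B]
      · have e1 : v + (0, -1) = _root_.EXL.B (co v) (ri v - 1) := by
          conv_lhs => rw [e]
          exact A_3 _ _
        refine ⟨(0, -1), dv _ (by decide) _ e1 (Vt_B' _ _), ?_⟩
        rw [e1, ps_B]
        push_cast
        rfl
    · exact absurd h.2.1 (by simp)
  · rw [e] at h
    rw [ps_B] at h
    rcases h with h | h
    · exact absurd h.1 (by simp)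
    · obtain ⟨h1, -, h3⟩ := h
      simp only at h1 h3
      subst h1
      rcases h3 with ⟨h3, h4⟩ | ⟨h3, h4⟩ | ⟨h3, h4⟩
      · have e1 : v + (-1, 0) = _root_.EXL.A (co v) (ri v) := by
          conv_lhs => rw [e]
          exact B_1 _ _
        refine ⟨(-1, 0), dv _ (by decide) _ e1 (Vt_A' _ _), ?_⟩
        rw [e1, ps_A, h3, h4]
      · have e1 : v + (1, -1) = _root_.EXL.A (co v + 1) (ri v) := by
          conv_lhs => rw [e]
          exact B_2 _ _
        refine ⟨(1, -1), dv _ (by decide) _ e1 (Vt_A' _ _), ?_⟩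
        rw [e1, ps_A, h4, h3, sub_add_cancel]
      · have e1 : v + (0, 1) = _root_.EXL.A (co v) (ri v + 1) := by
          conv_lhs => rw [e]
          exact B_3 _ _
        refine ⟨(0, 1), dv _ (by decide) _ e1 (Vt_A' _ _), ?_⟩
        rw [e1, ps_A, h3]
        push_cast
        rw [h4, sub_add_cancel]

/-- the neighbours are distinct. -/
theorem dir_inj (h2 : 2 ≤ N) {v d d' : Pt} (h : De (v, d)) (h' : De (v, d'))
    (e : ps N (v + d) = ps N (v + d')) : d = d' := by
  obtain ⟨a1, a2, a3⟩ := h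
  obtain ⟨b1, -, b3⟩ := h'
  simp only at a1 a2 a3 b1 b3
  have : Fact (1 < N) := ⟨h2⟩
  have n1 : ∀ r : ZMod N, r ≠ r - 1 := by
    intro r hr
    have : (1 : ZMod N) = 0 := by linear_combination (-1 : ZMod N) * (hr.symm)
    exact one_ne_zero this
  rcases vt_cases a2 with hv | hv
  · rw [hv] at a3 b3 e
    rcases dir_A a1 a3 with rfl | rfl | rfl <;> rcases dir_A b1 b3 with rfl | rfl | rfl <;>
      first
      | rfl
      | (exfalso
         simp only [A_1, A_2, A_3, ps_B, Prod.mk.injEq, and_true, true_and, Int.cast_sub, Int.cast_one] at e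
         first
         | omega
         | exact n1 _ e
         | exact n1 _ e.symm)
  · rw [hv] at a3 b3 e
    have n2 : ∀ r : ZMod N, r ≠ r + 1 := by
      intro r hr
      have : (1 : ZMod N) = 0 := by linear_combination (-1 : ZMod N) * hr
      exact one_ne_zero this
    rcases dir_B a1 a3 with rfl | rfl | rfl <;> rcases dir_B b1 b3 with rfl | rfl | rfl <;>
      first
      | rfl
      | (exfalso
         simp only [B_1, B_2, B_3, ps_A, Prod.mk.injEq, and_true, true_and, Int.cast_add, Int.cast_one] at e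
         first
         | omega
         | exact n2 _ e
         | exact n2 _ e.symm)

theorem turn_ne' : ∀ d ∈ dirs, ∀ b : Bool, turn b d ≠ -d := by
  decide

theorem turn_cases' : ∀ d0 ∈ dirs, ∀ d ∈ dirs, cl d = -cl d0 → d = -d0 ∨ ∃ b : Bool, d = turn b d0 := by
  decide

/-- the continuation of a step is a turn or the step back. -/
theorem step_cases {u d0 d : Pt} (h0 : De (u, d0)) (h : De (u + d0, d)) : d = -d0 ∨ ∃ b : Bool, d = turn b d0 := by
  obtain ⟨a1, a2, a3⟩ := h0
  obtain ⟨b1, b2, b3⟩ := h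
  refine turn_cases' d0 a1 d b1 ?_
  simp only at a1 a2 a3 b1 b2 b3
  unfold Vt at a2 b2 b3
  rw [cl_add] at b2 b3
  rw [cl_add] at b3
  have key : ∀ a c e : ZMod 3, a ≠ 1 → c ≠ 0 → e ≠ 0 → a + c ≠ 1 → a + c + e ≠ 1 → e = -c := by decide
  exact key _ _ _ a2 (cl_dir_ne a1) (cl_dir_ne b1) b2 b3

theorem de_back {u d0 : Pt} (h0 : De (u, d0)) : De (u + d0, -d0) := by
  obtain ⟨a1, a2, a3⟩ := h0
  refine ⟨?_, a3, ?_⟩
  · have key : ∀ d ∈ dirs, -d ∈ dirs := by decide
    exact key d0 a1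
  · show Vt (u + d0 + -d0)
    rw [add_neg_cancel_right]
    exact a2

end Pool.Agent.CylSaw
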