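/-
PB/DetGram (helper76): the pure matrix lemma of BUp.
For `Gam` positive definite, `|det (Gam + int U V^T)|^2` is at most
`det (Gam + int U U^T) * det (Gam + int V V^T)`, and each of the two is at most
`det Gam * exp (tr (Gam^-1 int U U^T))`.
-/
import Mathlib

namespace PB
namespace DetGram

open Matrix MeasureTheory
open scoped MatrixOrder

variable {n : ℕ}

/-- `det H ≤ exp (tr H - n)` for a positive semidefinite matrix. -/
theorem det_le_exp {H : Matrix (Fin n) (Fin n) ℝ} (hH : H.PosSemidef) :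
    H.det ≤ Real.exp (H.trace - n) := by
  rw [hH.1.det_eq_prod_eigenvalues, hH.1.trace_eq_sum_eigenvalues]
  have h1 : ∏ i, hH.1.eigenvalues i ≤ ∏ i, Real.exp (hH.1.eigenvalues i - 1) := by
    apply Finset.prod_le_prod
    · intro i _; exact hH.eigenvalues_nonneg i
    · intro i _
      have := Real.add_one_le_exp (hH.1.eigenvalues i - 1)
      linarith
  rw [← Real.exp_sum, Finset.sum_sub_distrib] at h1
  simpa using h1

/-- a symmetric invertible square root. -/
theorem exists_root {G : Matrix (Fin n) (Fin n) ℝ} (hG : G.PosDef) :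
    ∃ S : Matrix (Fin n) (Fin n) ℝ, IsUnit S.det ∧ Sᴴ = S ∧ S * S = G := by
  refine ⟨CFC.sqrt G, ?_, ?_, ?_⟩
  · have h1 : (CFC.sqrt G).det * (CFC.sqrt G).det = G.det := by
      rw [← det_mul, CFC.sqrt_mul_sqrt_self G hG.posSemidef.nonneg]
    have h2 := hG.det_pos
    rw [isUnit_iff_ne_zero]
    intro h
    rw [h] at h1
    simp at h1
    linarith
  · exact (CFC.sqrt_nonneg G).posSemidef.1
  · exact CFC.sqrt_mul_sqrt_self G hG.posSemidef.nonneg

/-- congruence by the inverse root: data used below. -/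
theorem exists_cong {G : Matrix (Fin n) (Fin n) ℝ} (hG : G.PosDef)
    (X : Matrix (Fin n) (Fin n) ℝ) (hX : X.PosSemidef) :
    ∃ Y : Matrix (Fin n) (Fin n) ℝ, Y.PosSemidef ∧ Y.trace = (G⁻¹ * X).trace ∧
      X.det = G.det * Y.det := by
  obtain ⟨S, hS, hSt, hSS⟩ := exists_root hG
  have hSi : (S⁻¹)ᴴ = S⁻¹ := by rw [conjTranspose_nonsing_inv, hSt]
  refine ⟨(S⁻¹)ᴴ * X * S⁻¹, hX.conjTranspose_mul_mul_same _, ?_, ?_⟩
  · rw [hSi, trace_mul_comm, ← Matrix.mul_assoc, ← Matrix.mul_inv_rev, hSS]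
  · rw [hSi, det_mul, det_mul, ← hSS, det_mul, det_nonsing_inv, Ring.inverse_eq_inv']
    have hS0 : S.det ≠ 0 := hS.ne_zero
    field_simp

/-- **(*)** `det X ≤ det G * exp (tr (G⁻¹ X) - n)`. -/
theorem det_le_mul_exp {G X : Matrix (Fin n) (Fin n) ℝ} (hG : G.PosDef) (hX : X.PosSemidef) :
    X.det ≤ G.det * Real.exp ((G⁻¹ * X).trace - n) := by
  obtain ⟨Y, hY, hYt, hYd⟩ := exists_cong hG X hX
  rw [hYd, ← hYt]
  exact mul_le_mul_of_nonneg_left (det_le_exp hY) hG.det_pos.le

theorem trace_inv_mul_nonneg {G X : Matrix (Fin n) (Fin n) ℝ} (hG : G.PosDef)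
    (hX : X.PosSemidef) : 0 ≤ (G⁻¹ * X).trace := by
  obtain ⟨Y, hY, hYt, -⟩ := exists_cong hG X hX
  rw [← hYt]
  exact hY.trace_nonneg

/-- (ii) `det (G + Q) ≤ det G * exp (tr (G⁻¹ Q))`. -/
theorem det_add_le {G Q : Matrix (Fin n) (Fin n) ℝ} (hG : G.PosDef) (hQ : Q.PosSemidef) :
    (G + Q).det ≤ G.det * Real.exp ((G⁻¹ * Q).trace) := by
  have h := det_le_mul_exp hG (hG.posSemidef.add hQ)
  have hu : IsUnit G.det := isUnit_iff_ne_zero.2 hG.det_pos.ne'
  have e : (G⁻¹ * (G + Q)).trace - n = (G⁻¹ * Q).trace := by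
    rw [Matrix.mul_add, Matrix.trace_add, Matrix.nonsing_inv_mul _ hu, Matrix.trace_one]
    simp
  rwa [e] at h

/-- Schur complement: `det W ^ 2 ≤ det A * det B` for a positive semidefinite block matrix. -/
theorem det_sq_le {A B W : Matrix (Fin n) (Fin n) ℝ} (hA : A.PosDef) (hB : B.PosDef)
    (hM : (fromBlocks A W Wᴴ B).PosSemidef) : W.det ^ 2 ≤ A.det * B.det := by
  have hAd := hA.det_pos
  have huA : IsUnit A.det := isUnit_iff_ne_zero.2 hAd.ne'
  have huB : IsUnit B.det := isUnit_iff_ne_zero.2 hB.det_pos.ne'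
  let : Invertible A := invertibleOfIsUnitDet A huA
  have hP : (B - Wᴴ * A⁻¹ * W).PosSemidef := (hA.fromBlocks₁₁ W B).1 hM
  have hX : (Wᴴ * A⁻¹ * W).PosSemidef := hA.inv.posSemidef.conjTranspose_mul_mul_same W
  have h1 := det_le_mul_exp hB hX
  have h2 := trace_inv_mul_nonneg hB hP
  have h3 : (B⁻¹ * (Wᴴ * A⁻¹ * W)).trace - n ≤ 0 := by
    rw [Matrix.mul_sub, Matrix.trace_sub, Matrix.nonsing_inv_mul _ huB, Matrix.trace_one,
      Fintype.card_fin] at h2
    linarith
  have h4 : (Wᴴ * A⁻¹ * W).det ≤ B.det := by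
    refine h1.trans ?_
    have : Real.exp ((B⁻¹ * (Wᴴ * A⁻¹ * W)).trace - n) ≤ 1 := Real.exp_le_one_iff.2 h3
    nlinarith [hB.det_pos]
  have h5 : (Wᴴ * A⁻¹ * W).det = W.det ^ 2 / A.det := by
    rw [det_mul, det_mul, det_conjTranspose, det_nonsing_inv, Ring.inverse_eq_inv']
    simp
    field_simp
  rw [h5, div_le_iff₀ hAd] at h4
  linarith

/-- (i) the Gram form of (det). -/
theorem det_add_sq_le {G Qa Qb W : Matrix (Fin n) (Fin n) ℝ} (hG : G.PosDef)
    (ha : Qa.PosSemidef) (hb : Qb.PosSemidef)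
    (hM : (fromBlocks Qa W Wᴴ Qb).PosSemidef) :
    (G + W).det ^ 2 ≤ (G + Qa).det * (G + Qb).det := by
  refine det_sq_le (hG.add_posSemidef ha) (hG.add_posSemidef hb) ?_
  have h1 : (fromBlocks G G G G).PosSemidef := by
    have h := hG.posSemidef.submatrix (Sum.elim id id : Fin n ⊕ Fin n → Fin n)
    have e : G.submatrix (Sum.elim id id : Fin n ⊕ Fin n → Fin n) (Sum.elim id id) =
        fromBlocks G G G G := by
      ext (i | i) (j | j) <;> rfl
    rwa [e] at h
  have h2 := h1.add hM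
  rw [fromBlocks_add] at h2
  rwa [conjTranspose_add, hG.1]

theorem det_add_abs_le {G Qa Qb W : Matrix (Fin n) (Fin n) ℝ} (hG : G.PosDef)
    (ha : Qa.PosSemidef) (hb : Qb.PosSemidef)
    (hM : (fromBlocks Qa W Wᴴ Qb).PosSemidef) :
    |(G + W).det| ≤ G.det * Real.exp ((1 / 2) * ((G⁻¹ * Qa).trace + (G⁻¹ * Qb).trace)) := by
  have h1 := det_add_sq_le hG ha hb hM
  have h2 := det_add_le hG ha
  have h3 := det_add_le hG hb
  have hd := hG.det_pos
  have h4 : 0 ≤ (G + Qb).det := (hG.posSemidef.add hb).det_nonneg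
  have h5 : (G + Qa).det * (G + Qb).det ≤
      (G.det * Real.exp ((G⁻¹ * Qa).trace)) * (G.det * Real.exp ((G⁻¹ * Qb).trace)) :=
    mul_le_mul h2 h3 h4 (by positivity)
  have h6 : (G.det * Real.exp ((G⁻¹ * Qa).trace)) * (G.det * Real.exp ((G⁻¹ * Qb).trace)) =
      (G.det * Real.exp ((1 / 2) * ((G⁻¹ * Qa).trace + (G⁻¹ * Qb).trace))) ^ 2 := by
    have e : Real.exp ((1 / 2) * ((G⁻¹ * Qa).trace + (G⁻¹ * Qb).trace)) ^ 2 =
        Real.exp ((G⁻¹ * Qa).trace) * Real.exp ((G⁻¹ * Qb).trace) := by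
      rw [← Real.exp_nat_mul, ← Real.exp_add]
      congr 1
      push_cast
      ring
    rw [mul_pow, e]
    ring
  have h7 := (h1.trans h5).trans_eq h6
  exact abs_le_of_sq_le_sq h7 (by positivity)

section Integral

variable {Om : Type*} [MeasurableSpace Om]

/-- the Gram block matrix of an integral is positive semidefinite. -/
theorem gram_posSemidef (mu : Measure Om) {m : Type*} [Fintype m] [DecidableEq m]
    (F : m → Om → ℝ) (hF : ∀ i j, Integrable (fun w => F i w * F j w) mu) :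
    (Matrix.of fun i j => ∫ w, F i w * F j w ∂mu).PosSemidef := by
  refine Matrix.PosSemidef.of_dotProduct_mulVec_nonneg ?_ ?_
  · ext i j
    simp only [conjTranspose_apply, of_apply, star_trivial]
    exact integral_congr_ae (Filter.Eventually.of_forall fun w => mul_comm _ _)
  · intro x
    have e : star x ⬝ᵥ ((Matrix.of fun i j => ∫ w, F i w * F j w ∂mu) *ᵥ x) =
        ∫ w, (∑ i, x i * F i w) ^ 2 ∂mu := by
      have e1 : ∀ w, (∑ i, x i * F i w) ^ 2 = ∑ i, ∑ j, x i * x j * (F i w * F j w) := by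
        intro w
        rw [sq, Finset.sum_mul_sum]
        refine Finset.sum_congr rfl fun i _ => Finset.sum_congr rfl fun j _ => ?_
        ring
      simp_rw [e1]
      rw [integral_finsetSum _ (fun i _ => integrable_finsetSum _ fun j _ =>
        (hF i j).const_mul _)]
      simp only [dotProduct, mulVec, of_apply, Pi.star_apply, star_trivial, Finset.mul_sum]
      refine Finset.sum_congr rfl fun i _ => ?_
      rw [integral_finsetSum _ (fun j _ => (hF i j).const_mul _)]
      refine Finset.sum_congr rfl fun j _ => ?_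
      rw [integral_const_mul]
      ring
    rw [e]
    exact integral_nonneg fun w => sq_nonneg _

/-- **det_gram** (helper30's interface). -/
theorem det_gram (mu : Measure Om)
    {Gam : Matrix (Fin n) (Fin n) ℝ} (hG : Gam.PosDef) (U V : Fin n → Om → ℝ)
    (hUU : ∀ i j, Integrable (fun w => U i w * U j w) mu)
    (hVV : ∀ i j, Integrable (fun w => V i w * V j w) mu)
    (hUV : ∀ i j, Integrable (fun w => U i w * V j w) mu) :
    |(Gam + Matrix.of fun i j => ∫ w, U i w * V j w ∂mu).det| ≤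
      Gam.det * Real.exp ((1 / 2) *
        (∫ w, ∑ i, ∑ j, Gam⁻¹ i j * (U i w * U j w) ∂mu +
          ∫ w, ∑ i, ∑ j, Gam⁻¹ i j * (V i w * V j w) ∂mu)) := by
  have key : ∀ (F : Fin n → Om → ℝ) (hF : ∀ i j, Integrable (fun w => F i w * F j w) mu),
      (Gam⁻¹ * Matrix.of fun i j => ∫ w, F i w * F j w ∂mu).trace =
        ∫ w, ∑ i, ∑ j, Gam⁻¹ i j * (F i w * F j w) ∂mu := by
    intro F hF
    rw [integral_finsetSum _ (fun i _ => integrable_finsetSum _ fun j _ =>
        (hF i j).const_mul _)]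
    simp only [Matrix.trace, Matrix.diag, Matrix.mul_apply, of_apply]
    refine Finset.sum_congr rfl fun i _ => ?_
    rw [integral_finsetSum _ (fun j _ => (hF i j).const_mul _)]
    refine Finset.sum_congr rfl fun j _ => ?_
    rw [integral_const_mul]
    congr 1
    exact integral_congr_ae (Filter.Eventually.of_forall fun w => mul_comm _ _)
  have hM : (fromBlocks (Matrix.of fun i j => ∫ w, U i w * U j w ∂mu)
      (Matrix.of fun i j => ∫ w, U i w * V j w ∂mu)
      (Matrix.of fun i j => ∫ w, U i w * V j w ∂mu)ᴴ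
      (Matrix.of fun i j => ∫ w, V i w * V j w ∂mu)).PosSemidef := by
    have h := gram_posSemidef mu (m := Fin n ⊕ Fin n) (Sum.elim U V) (by
      rintro (i | i) (j | j)
      · exact hUU i j
      · exact hUV i j
      · exact (hUV j i).congr (Filter.Eventually.of_forall fun w => mul_comm _ _)
      · exact hVV i j)
    convert h using 1
    ext (i | i) (j | j)
    · rfl
    · rfl
    · simp only [fromBlocks_apply₂₁, conjTranspose_apply, of_apply, star_trivial, Sum.elim_inr,
        Sum.elim_inl]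
      exact integral_congr_ae (Filter.Eventually.of_forall fun w => mul_comm _ _)
    · rfl
  have h := det_add_abs_le hG (gram_posSemidef mu U hUU) (gram_posSemidef mu V hVV) hM
  rwa [key U hUU, key V hVV] at h

end Integral

end DetGram
end PB
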