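import Pool.Agent.PB.ExMix2
import Pool.Agent.NURow.Holo

/-!
# Plan B: the state sum `DZ` is holomorphic in the rows and the spectators

Rows with real parts in `(-3 l / 5, 3 l / 5)` (`Rwr r`, `r < 3 l / 5`): uniform bounds `DZ_ub`,
joint continuity `DZ_tendsto'`, holomorphy `DZ_hol` (along analytic curves of rows and spectators),
`DZ_Lg_hol` (legs), `DZ_update_hol`, `DZ_cons_hol` (one row position moved in both groups), joint
continuity of the derivative `tendsto_deriv_joint`.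
-/

set_option autoImplicit false
set_option linter.unusedSectionVars false
set_option linter.unusedVariables false

noncomputable section

open Complex MeasureTheory Filter Topology Metric

namespace NUP1.N

open Bd

/-- **The contour side is holomorphic in a parameter.** -/
theorem Z3_hol {α β : ℝ} (h1 : l < α - β) (h2 : α - β < 3 * l) {n n' : ℕ} {D κ κ' : ℝ}
    {GX GY : ℂ → ℂ → ℂ} {θ0 : ℂ}
    (mX : ∀ᶠ θ in 𝓝 θ0, Measurable (GX θ)) (mY : ∀ᶠ θ in 𝓝 θ0, Measurable (GY θ))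
    (eX : ∀ᶠ θ in 𝓝 θ0, ∀ z : ℂ, (z.re = α ∨ z.re = β ∨ z.re = β + l) →
      DifferentiableAt ℂ (fun θ => GX θ z) θ)
    (eY : ∀ᶠ θ in 𝓝 θ0, ∀ z : ℂ, (z.re = α ∨ z.re = β ∨ z.re = β + l) →
      DifferentiableAt ℂ (fun θ => GY θ z) θ)
    (dX : ∀ᶠ θ in 𝓝 θ0, ∀ z : ℂ, (z.re = α ∨ z.re = β ∨ z.re = β + l) →
      ‖GX θ z‖ ≤ D * Real.exp (-(κ * |z.im|)))
    (dY : ∀ᶠ θ in 𝓝 θ0, ∀ z : ℂ, (z.re = α ∨ z.re = β ∨ z.re = β + l) →
      ‖GY θ z‖ ≤ D * Real.exp (-(κ' * |z.im|)))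
    (c1 : 0 < κ + 2 * ((n' : ℝ) - n)) (c2 : 0 < κ' - 2 * ((n' : ℝ) - n)) :
    DifferentiableAt ℂ (fun θ => Z3 α β n n' (GX θ) (GY θ)) θ0 := by
  obtain ⟨C, hC, hp, hq⟩ := pw_bounds h1 h2
  obtain ⟨R, hR, hB⟩ := Metric.eventually_nhds_iff_ball.1
    ((mX.and mY).and ((eX.and eY).and (dX.and dY)))
  -- the condition
  have hS : ∀ θ ∈ ball θ0 R, Spec n n' α β D (κ + 2 * ((n' : ℝ) - n))
      (κ' - 2 * ((n' : ℝ) - n)) 0 (GX θ) (GY θ) := by
    intro θ hθ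
    obtain ⟨-, -, hX, hY⟩ := hB θ hθ
    have h := Spec.fam (n := n) (n' := n') (α := α) (β := β) (D := D) (κ := κ) (κ' := κ')
      (N := 0) (fun _ => 0) (fun _ => 0) (fun _ => 0) (fun _ => 0) (d0 := (n' : ℝ) - n)
      (by simp) (GX := GX θ) (GY := GY θ) (by simpa using hX) (by simpa using hY)
    simpa using h
  -- differentiability of the one body functions
  have done : ∀ {G : ℂ → ℂ → ℂ}, (∀ θ ∈ ball θ0 R, ∀ z : ℂ,
      (z.re = α ∨ z.re = β ∨ z.re = β + l) → DifferentiableAt ℂ (fun θ => G θ z) θ) →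
      ∀ θ ∈ ball θ0 R, ∀ (k : Ob) (t : ℝ),
      DifferentiableAt ℂ (fun θ => oneL α β (G θ) k t) θ := by
    intro G hG θ hθ k t
    cases k
    · exact hG θ hθ _ (Or.inl (by rw [pt_re]; rfl))
    · exact hG θ hθ _ (Or.inr (Or.inl (by rw [pt_re]; rfl)))
    · refine (hG θ hθ _ (Or.inr (Or.inr (by rw [pt_re]; rfl)))).mul
        (hG θ hθ _ (Or.inr (Or.inl ?_)))
      rw [sub_re, pt_re]
      simp [rl]
  have df : ∀ {G : ℂ → ℂ → ℂ}, (∀ θ ∈ ball θ0 R, ∀ z : ℂ,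
      (z.re = α ∨ z.re = β ∨ z.re = β + l) → DifferentiableAt ℂ (fun θ => G θ z) θ) →
      ∀ θ ∈ ball θ0 R, ∀ {r : ℕ} (k : Fin r → Ob) (t : Fin r → ℝ),
      DifferentiableAt ℂ (fun θ => Grand.f (pw α β) k (oneL α β (G θ)) t) θ := by
    intro G hG θ hθ r k t
    unfold Grand.f
    exact (DifferentiableAt.fun_finsetProd fun i _ => done hG θ hθ (k i) (t i)).mul_const _
  have main : ∀ {r r' : ℕ} (k : Fin r → Ob) (k' : Fin r' → Ob), ∑ i, chg (k i) = n →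
      ∑ i, chg (k' i) = n' → DifferentiableAt ℂ (fun θ => ∫ p, F2 α β (GX θ) (GY θ) k k' p
        ∂((Measure.pi fun _ => volume).prod (Measure.pi fun _ => volume))) θ0 := by
    intro r r' k k' hk hk'
    refine NURow.differentiableAt_integral hR
      (b := fun p => Real.exp 0 * Mj C D (κ + 2 * ((n' : ℝ) - n)) (κ' - 2 * ((n' : ℝ) - n)) k k' p)
      ?_ ?_ ?_ ?_
    · intro θ hθ
      obtain ⟨⟨me, me'⟩, -⟩ := hB θ hθ
      refine Measurable.aestronglyMeasurable ?_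
      unfold F2
      exact (((measurable_f (measurable_oneL α β me) k).comp measurable_fst).mul
        ((measurable_f (measurable_oneL α β me') k').comp measurable_snd)).mul
        (measurable_X2 α β k k')
    · refine Eventually.of_forall fun p θ hθ => DifferentiableAt.differentiableWithinAt ?_
      unfold F2
      exact ((df (fun θ hθ => (hB θ hθ).2.1.1) θ hθ k p.1).mul
        (df (fun θ hθ => (hB θ hθ).2.1.2) θ hθ k' p.2)).mul_const _
    · exact Eventually.of_forall fun p θ hθ => F2_le_spec hC hp hq (hS θ hθ) k k' hk hk' p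
    · exact (Mj_integrable C D c1 c2 k k').const_mul _
  unfold Z3
  refine DifferentiableAt.fun_sum fun r' _ => DifferentiableAt.const_mul ?_ _
  refine DifferentiableAt.fun_sum fun k' _ => ?_
  by_cases hk' : ∑ i, chg (k' i) = n'
  · simp only [if_pos hk']
    refine DifferentiableAt.const_mul ?_ _
    refine DifferentiableAt.fun_sum fun r _ => DifferentiableAt.const_mul ?_ _
    refine DifferentiableAt.fun_sum fun k _ => ?_
    by_cases hk : ∑ i, chg (k i) = n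
    · simp only [if_pos hk]
      exact (main k k' hk hk').const_mul _
    · simp only [if_neg hk]
      exact differentiableAt_const _
  · simp only [if_neg hk']
    exact differentiableAt_const _

/-- uniform bound of the contour side under uniform decay -/
theorem Z3_ub {α β : ℝ} (h1 : l < α - β) (h2 : α - β < 3 * l) (n n' : ℕ) (D κ κ' : ℝ)
    (c1 : 0 < κ + 2 * ((n' : ℝ) - n)) (c2 : 0 < κ' - 2 * ((n' : ℝ) - n)) :
    ∃ K : ℝ, 0 ≤ K ∧ ∀ GX GY : ℂ → ℂ,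
      (∀ z : ℂ, (z.re = α ∨ z.re = β ∨ z.re = β + l) → ‖GX z‖ ≤ D * Real.exp (-(κ * |z.im|))) →
      (∀ z : ℂ, (z.re = α ∨ z.re = β ∨ z.re = β + l) → ‖GY z‖ ≤ D * Real.exp (-(κ' * |z.im|))) →
      ‖Z3 α β n n' GX GY‖ ≤ K := by
  obtain ⟨K, hK, h⟩ := Z3_le_gen h1 h2 n n' D c1 c2
  refine ⟨K, hK, fun GX GY hX hY => ?_⟩
  have h3 := Spec.fam (n := n) (n' := n') (α := α) (β := β) (D := D) (κ := κ) (κ' := κ')
    (N := 0) (fun _ => 0) (fun _ => 0) (fun _ => 0) (fun _ => 0) (d0 := (n' : ℝ) - n)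
    (by simp) (GX := GX) (GY := GY) (by simpa using hX) (by simpa using hY)
  have h4 := h GX GY 0 (by simpa using h3)
  simpa using h4

end NUP1.N

namespace PBX

open NUP1 NUP1S NUP1.Bd NURow
open NUP1.N (Z3 Gr0)
open NUP1.Leg (hr)

/-! ## derivatives of families of holomorphic functions -/

/-- **Derivatives converge** along bounded pointwise convergent families of holomorphic
functions. -/
theorem tendsto_deriv_joint {E : Type*} {F : Filter E} [F.IsCountablyGenerated]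
    {f : E → ℂ → ℂ} {f0 : ℂ → ℂ} {θ : E → ℂ} {θ0 : ℂ} {R B : ℝ} (hR : 0 < R)
    (hθ : Tendsto θ F (𝓝 θ0)) (hd : ∀ᶠ e in F, DifferentiableOn ℂ (f e) (ball θ0 R))
    (hd0 : DifferentiableOn ℂ f0 (ball θ0 R)) (hb : ∀ᶠ e in F, ∀ z ∈ ball θ0 R, ‖f e z‖ ≤ B)
    (ht : ∀ z ∈ ball θ0 R, Tendsto (fun e => f e z) F (𝓝 (f0 z))) :
    Tendsto (fun e => deriv (f e) (θ e)) F (𝓝 (deriv f0 θ0)) := by
  have hR2 : 0 < R / 2 := by positivity
  have hR4 : 0 < R / 4 := by positivity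
  have hsub : closedBall θ0 (R / 2) ⊆ ball θ0 R := by
    intro w hw
    rw [mem_closedBall] at hw
    rw [mem_ball]
    linarith
  have key : ∀ {g : ℂ → ℂ}, DifferentiableOn ℂ g (ball θ0 R) → ∀ w ∈ ball θ0 (R / 2),
      (2 * Real.pi * I : ℂ)⁻¹ • (∮ z in C(θ0, R / 2), ((z - w) ^ 2)⁻¹ • g z) = deriv g w :=
    fun hg w hw => two_pi_I_inv_smul_circleIntegral_sub_sq_inv_smul_of_differentiable
      isOpen_ball hsub hg hw
  have hev : ∀ᶠ e in F, θ e ∈ ball θ0 (R / 4) := hθ.eventually (ball_mem_nhds θ0 hR4)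
  rw [← key hd0 θ0 (mem_ball_self hR2)]
  have h1 : Tendsto (fun e => (2 * Real.pi * I : ℂ)⁻¹ •
      (∮ z in C(θ0, R / 2), ((z - θ e) ^ 2)⁻¹ • f e z)) F
      (𝓝 ((2 * Real.pi * I : ℂ)⁻¹ • (∮ z in C(θ0, R / 2), ((z - θ0) ^ 2)⁻¹ • f0 z))) := by
    refine Tendsto.const_smul ?_ _
    unfold circleIntegral
    have hB : ∀ᶠ e in F, ∀ z ∈ sphere θ0 (R / 2), ‖((z - θ e) ^ 2)⁻¹ • f e z‖ ≤
        ((R / 4) ^ 2)⁻¹ * B := by
      filter_upwards [hev, hb] with e he hbe z hz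
      have hz2 : z ∈ ball θ0 R := hsub (sphere_subset_closedBall hz)
      have hB0 : 0 ≤ B := (norm_nonneg _).trans (hbe z hz2)
      have h3 : R / 4 ≤ ‖z - θ e‖ := by
        rw [mem_ball, dist_eq_norm] at he
        rw [mem_sphere, dist_eq_norm] at hz
        have h4 : ‖z - θ0‖ ≤ ‖z - θ e‖ + ‖θ e - θ0‖ := by
          have := norm_add_le (z - θ e) (θ e - θ0)
          rwa [sub_add_sub_cancel] at this
        linarith
      rw [norm_smul, norm_inv, norm_pow]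
      refine mul_le_mul (inv_anti₀ (by positivity) (pow_le_pow_left₀ hR4.le h3 2)) (hbe z hz2)
        (norm_nonneg _) (by positivity)
    refine intervalIntegral.tendsto_integral_filter_of_dominated_convergence
      (fun _ => |R / 2| * (((R / 4) ^ 2)⁻¹ * B)) ?_ ?_ ?_ ?_
    · filter_upwards [hd, hev] with e hde he
      refine ContinuousOn.aestronglyMeasurable ?_ measurableSet_uIoc
      have hne : ∀ t : ℝ, circleMap θ0 (R / 2) t - θ e ≠ 0 := by
        intro t h0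
        have h5 : circleMap θ0 (R / 2) t ∈ sphere θ0 (R / 2) := circleMap_mem_sphere _ hR2.le t
        rw [sub_eq_zero] at h0
        rw [h0, mem_sphere] at h5
        rw [mem_ball] at he
        linarith
      have hc1 : Continuous fun t => circleMap θ0 (R / 2) t := continuous_circleMap _ _
      have hc2 : Continuous fun t => deriv (circleMap θ0 (R / 2)) t := by
        simp only [deriv_circleMap]
        fun_prop
      have hc3 : Continuous fun t => ((circleMap θ0 (R / 2) t - θ e) ^ 2)⁻¹ :=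
        ((hc1.sub continuous_const).pow 2).inv₀ fun t => pow_ne_zero 2 (hne t)
      have hc4 : Continuous fun t => f e (circleMap θ0 (R / 2) t) :=
        hde.continuousOn.comp_continuous hc1 fun t =>
          hsub (sphere_subset_closedBall (circleMap_mem_sphere _ hR2.le t))
      exact (hc2.smul (hc3.smul hc4)).continuousOn
    · filter_upwards [hB] with e he
      refine Eventually.of_forall fun t _ => ?_
      rw [norm_smul]
      refine mul_le_mul (le_of_eq ?_) (he _ (circleMap_mem_sphere _ hR2.le t)) (norm_nonneg _)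
        (abs_nonneg _)
      simp [deriv_circleMap]
    · exact intervalIntegrable_const
    · refine Eventually.of_forall fun t _ => Tendsto.const_smul ?_ _
      have h5 : circleMap θ0 (R / 2) t ∈ sphere θ0 (R / 2) := circleMap_mem_sphere _ hR2.le t
      have h6 : (circleMap θ0 (R / 2) t - θ0) ^ 2 ≠ 0 := by
        refine pow_ne_zero 2 fun h0 => ?_
        rw [sub_eq_zero] at h0
        rw [h0, mem_sphere, dist_self] at h5
        linarith
      exact (((tendsto_const_nhds.sub hθ).pow 2).inv₀ h6).smul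
        (ht _ (hsub (sphere_subset_closedBall h5)))
  refine h1.congr' ?_
  filter_upwards [hd, hev] with e hde he
  exact key hde _ (ball_subset_ball (by linarith) he)

/-! ## rows in a slightly larger strip -/

variable {m : ℕ}

/-- rows with real parts in `[-r, r]` -/
def Rwr (r : ℝ) (x : Fin m → ℂ) : Prop := ∀ i, |(x i).re| ≤ r

theorem Rws.rwr {x : Fin m → ℂ} (hx : Rws x) : Rwr (l / 2) x := hx

theorem Rwr.mono {r r' : ℝ} {x : Fin m → ℂ} (hx : Rwr r x) (h : r ≤ r') : Rwr r' x :=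
  fun i => (hx i).trans h

theorem K3_cases {d : ℝ} (h : d ∈ K3) : d = 3 / 5 * l ∨ d = -(17 / 10 * l) ∨ d = -(7 / 10 * l) := by
  simp only [K3, Set.mem_insert_iff, Set.mem_singleton_iff] at h
  rcases h with h | h | h
  · exact Or.inl h
  · exact Or.inr (Or.inl h)
  · exact Or.inr (Or.inr (by rw [h]; ring))

theorem NPr_K3r {r : ℝ} (hr : r < 3 / 5 * l) : NPr r K3 := by
  have hl := Bd.l_pos
  intro d hd e he
  obtain ⟨h3, h4⟩ := abs_le.1 he
  rcases K3_cases hd with rfl | rfl | rfl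
  · exact NP_pos (by linarith) (by linarith)
  · exact NP_neg (by linarith) (by linarith)
  · exact NP_neg (by linarith) (by linarith)

theorem NQr_K3r {β r : ℝ} (hβ : 0 < β) (hβ' : β ≤ 4 / 3) (hr : r < 3 / 5 * l) : NQr β r K3 := by
  have hl := Bd.l_pos
  refine NQr_strip hβ hβ' fun d hd => ?_
  rcases K3_cases hd with rfl | rfl | rfl <;> constructor <;> linarith

/-- uniform bound of the one body function on the three lines -/
theorem GX_ubr {E : Type*} {S : Set E} {β r R : ℝ} (hβ : 0 < β) (hβ' : β ≤ 4 / 3)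
    (hr : r < 3 / 5 * l) (c : ℂ) {x y : E → Fin m → ℂ} {g : ℂ → ℂ} (hg : GOk β g)
    (hx : ∀ e ∈ S, Rwr r (x e)) (hy : ∀ e ∈ S, Rwr r (y e)) (bx : ∀ e ∈ S, ∀ i, |(x e i).im| ≤ R)
    (by' : ∀ e ∈ S, ∀ i, |(y e i).im| ≤ R) {s : E → ℂ → ℂ} {D : ℝ} (hD : 0 ≤ D)
    (hs : ∀ e ∈ S, ∀ z : ℂ, z.re ∈ K3 → ‖s e z‖ ≤ D) :
    ∃ C : ℝ, 0 ≤ C ∧ ∀ e ∈ S, ∀ z : ℂ, z.re ∈ K3 →
      ‖GX c β (x e) (y e) g (s e) z‖ ≤ C * Real.exp (-(2 * β) * |z.im|) := by
  have ib : ∀ {x : E → Fin m → ℂ}, (∀ e ∈ S, Rwr r (x e)) → (∀ e ∈ S, ∀ i, |(x e i).im| ≤ R) →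
      ∀ i, InBox S r R fun e => x e i := fun h1 h2 i e he => ⟨h1 e he i, h2 e he i⟩
  obtain ⟨C1, hC1, h1⟩ := ub_RR (Θ := E) (S := S) c (ib hx bx) (ib hy by') isCompact_K3
    (NPr_K3r hr)
  have nq : NQr β r K3 := NQr_K3r hβ hβ' hr
  obtain ⟨C2, hC2, h2⟩ := ub_phi (Θ := E) (S := S) hβ (ib hx bx) isCompact_K3 nq
  obtain ⟨C3, hC3, h3⟩ := ub_prod_psi (Θ := E) (S := S) hβ (ib hx bx) isCompact_K3 nq
  obtain ⟨C4, hC4, h4⟩ := hg.bd
  refine ⟨C1 * (C2 + C3 * C4) * D, by positivity, fun e he z hz => ?_⟩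
  have a1 := h1 e he z hz
  have a2 := h2 e he z hz
  have a3 := h3 e he z hz
  have a4 := h4 z (K3_KK hz)
  have a5 := hs e he z hz
  simp only [zero_mul, Real.exp_zero, mul_one] at a1 a3
  have ep : ph β (x e) g z = phi β (List.ofFn (x e)) z +
      (∏ i, psi β (z - x e i)) * (1 - g z) := by
    rw [phi_ofFn]
    unfold ph
    ring
  have a6 : ‖ph β (x e) g z‖ ≤ (C2 + C3 * C4) * Real.exp (-(2 * β) * |z.im|) := by
    rw [ep, add_mul]
    refine (norm_add_le _ _).trans (add_le_add a2 ?_)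
    rw [norm_mul, mul_assoc]
    exact mul_le_mul a3 a4 (norm_nonneg _) hC3
  unfold GX
  rw [norm_mul, norm_mul]
  calc _ ≤ C1 * ((C2 + C3 * C4) * Real.exp (-(2 * β) * |z.im|)) * D :=
        mul_le_mul (mul_le_mul a1 a6 (norm_nonneg _) hC1) a5 (norm_nonneg _) (by positivity)
    _ = _ := by ring

/-- the one body function is holomorphic in rows and spectators -/
theorem GX_hol {β : ℝ} (hβ : 0 < β) (hβ' : β ≤ 4 / 3) (c : ℂ) (g : ℂ → ℂ)
    {x y : ℂ → Fin m → ℂ} {s : ℂ → ℂ → ℂ} {θ0 z : ℂ} {r : ℝ} (hr : r < 3 / 5 * l)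
    (hx : Rwr r (x θ0)) (dx : ∀ i, DifferentiableAt ℂ (fun θ => x θ i) θ0)
    (dy : ∀ i, DifferentiableAt ℂ (fun θ => y θ i) θ0) (hz : z.re ∈ K3)
    (ds : DifferentiableAt ℂ (fun θ => s θ z) θ0) :
    DifferentiableAt ℂ (fun θ => GX c β (x θ) (y θ) g (s θ) z) θ0 := by
  have h1 : DifferentiableAt ℂ (fun θ => RR c (x θ) (y θ) z) θ0 :=
    diff_RR (u := fun _ => z) c dx dy (differentiableAt_const z) fun i => by
      rw [sub_re]
      exact NPr_K3r hr _ hz _ (hx i)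
  have h2 : DifferentiableAt ℂ (fun θ => ph β (x θ) g z) θ0 := by
    unfold ph
    refine DifferentiableAt.const_sub (DifferentiableAt.mul_const ?_ _) _
    refine DifferentiableAt.fun_finsetProd fun i _ => ?_
    refine DifferentiableAt.comp (g := psi β) (f := fun θ => z - x θ i) θ0
      (diff_psi' ?_) ((differentiableAt_const z).sub (dx i))
    rw [sub_re]
    exact NQr_K3r hβ hβ' hr _ hz _ (hx i)
  exact (h1.mul h2).mul ds

/-- **Uniform bound of the state sum.** -/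
theorem DZ_ub (m : ℕ) {r R D : ℝ} (hr : r < 3 / 5 * l) (hD : 0 ≤ D) (c c' : ℂ) (n : ℕ) :
    ∃ C : ℝ, 0 ≤ C ∧ ∀ (x y : Fin m → ℂ) (s t : ℂ → ℂ), Rwr r x → Rwr r y →
      (∀ i, |(x i).im| ≤ R) → (∀ i, |(y i).im| ≤ R) →
      (∀ z : ℂ, z.re ∈ K3 → ‖s z‖ ≤ D ∧ ‖t z‖ ≤ D) → ‖DZ c c' s t x y n‖ ≤ C := by
  have hl := Bd.l_pos
  set E := (Fin m → ℂ) × (Fin m → ℂ) × (ℂ → ℂ) × (ℂ → ℂ)
  set S : Set E := {e | Rwr r e.1 ∧ Rwr r e.2.1 ∧ (∀ i, |(e.1 i).im| ≤ R) ∧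
    (∀ i, |(e.2.1 i).im| ≤ R) ∧ ∀ z : ℂ, z.re ∈ K3 → ‖e.2.2.1 z‖ ≤ D ∧ ‖e.2.2.2 z‖ ≤ D} with hS
  obtain ⟨C1, hC1, b1⟩ := GX_ubr (E := E) (S := S) (R := R) (β := 4 / 3) (by norm_num) le_rfl hr c
    (x := fun e => e.1) (y := fun e => e.2.1) (s := fun e => e.2.2.1) (GOk.one _)
    (fun e he => he.1) (fun e he => he.2.1) (fun e he => he.2.2.1) (fun e he => he.2.2.2.1) hD
    (fun e he z hz => (he.2.2.2.2 z hz).1)
  obtain ⟨C2, hC2, b2⟩ := GX_ubr (E := E) (S := S) (R := R) (β := 4 / 3) (by norm_num) le_rfl hr c'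
    (x := fun e => e.2.1) (y := fun e => e.1) (s := fun e => e.2.2.2) (GOk.one _)
    (fun e he => he.2.1) (fun e he => he.1) (fun e he => he.2.2.2.1) (fun e he => he.2.2.1) hD
    (fun e he z hz => (he.2.2.2.2 z hz).2)
  obtain ⟨K, hK, h⟩ := NUP1.N.Z3_ub (α := 3 / 5 * l) (β := -(17 / 10 * l)) (by linarith)
    (by linarith) n n (max C1 C2) (2 * (4 / 3)) (2 * (4 / 3)) (by norm_num) (by norm_num)
  refine ⟨K, hK, fun x y s t hx hy bx by' hst => ?_⟩
  have he : ((x, y, s, t) : E) ∈ S := ⟨hx, hy, bx, by', hst⟩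
  refine h _ _ (fun z hz => ?_) (fun z hz => ?_)
  · have := b1 _ he z (mem_K3 hz)
    rw [← neg_mul]
    exact this.trans (mul_le_mul_of_nonneg_right (le_max_left _ _) (Real.exp_pos _).le)
  · have := b2 _ he z (mem_K3 hz)
    rw [← neg_mul]
    exact this.trans (mul_le_mul_of_nonneg_right (le_max_right _ _) (Real.exp_pos _).le)

/-- convergent rows have bounded heights -/
theorem im_ev {E : Type*} {F : Filter E} {x y : E → Fin m → ℂ} {x0 y0 : Fin m → ℂ}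
    (tx : ∀ i, Tendsto (fun e => x e i) F (𝓝 (x0 i)))
    (ty : ∀ i, Tendsto (fun e => y e i) F (𝓝 (y0 i))) :
    ∀ᶠ e in F, (∀ i, |(x e i).im| ≤ ∑ j, |(x0 j).im| + ∑ j, |(y0 j).im| + 1) ∧
      ∀ i, |(y e i).im| ≤ ∑ j, |(x0 j).im| + ∑ j, |(y0 j).im| + 1 := by
  have key : ∀ {x : E → Fin m → ℂ} {x0 : Fin m → ℂ},
      (∀ i, Tendsto (fun e => x e i) F (𝓝 (x0 i))) →
      ∀ᶠ e in F, ∀ i, |(x e i).im| ≤ ∑ j, |(x0 j).im| + 1 := by
    intro x x0 tx
    refine eventually_all.2 fun i => ?_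
    have h1 : Tendsto (fun e => |(x e i).im|) F (𝓝 |(x0 i).im|) :=
      ((Complex.continuous_im.tendsto _).comp (tx i)).abs
    have h2 := im_le x0 i
    exact (h1.eventually_le_const (u := ∑ j, |(x0 j).im| + 1) (by linarith)).mono fun e h => h
  have p1 := Finset.sum_nonneg fun j (_ : j ∈ (Finset.univ : Finset (Fin m))) =>
    abs_nonneg (x0 j).im
  have p2 := Finset.sum_nonneg fun j (_ : j ∈ (Finset.univ : Finset (Fin m))) =>
    abs_nonneg (y0 j).im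
  filter_upwards [key tx, key ty] with e h1 h2
  exact ⟨fun i => (h1 i).trans (by linarith), fun i => (h2 i).trans (by linarith)⟩

theorem GX_tendstor {E : Type*} {F : Filter E} {β r : ℝ} (hβ : 0 < β) (hβ' : β ≤ 4 / 3) (c : ℂ)
    {x y : E → Fin m → ℂ} {x0 y0 : Fin m → ℂ} (g : ℂ → ℂ) (hr : r < 3 / 5 * l)
    (hx0 : Rwr r x0) (tx : ∀ i, Tendsto (fun e => x e i) F (𝓝 (x0 i)))
    (ty : ∀ i, Tendsto (fun e => y e i) F (𝓝 (y0 i))) {s : E → ℂ → ℂ} {s0 : ℂ → ℂ} {z : ℂ}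
    (hz : z.re ∈ K3) (ts : Tendsto (fun e => s e z) F (𝓝 (s0 z))) :
    Tendsto (fun e => GX c β (x e) (y e) g (s e) z) F (𝓝 (GX c β x0 y0 g s0 z)) := by
  have np : ∀ i, NP (z - x0 i).re := fun i => by
    rw [sub_re]
    exact NPr_K3r hr _ hz _ (hx0 i)
  have t1 : ∀ i, Tendsto (fun e => 1 / sin (z - x e i)) F (𝓝 (1 / sin (z - x0 i))) := fun i =>
    tendsto_const_nhds.div ((Complex.continuous_sin.tendsto _).comp
      (tendsto_const_nhds.sub (tx i))) (Bd.sin_ne_zero_of_re (np i).1)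
  have t2 : ∀ i, Tendsto (fun e => 1 / sin (z - x e i - 2 * l)) F
      (𝓝 (1 / sin (z - x0 i - 2 * l))) := fun i =>
    tendsto_const_nhds.div ((Complex.continuous_sin.tendsto _).comp
      ((tendsto_const_nhds.sub (tx i)).sub_const _)) (Bd.sin_ne_zero_of_re (by
        have := (np i).2
        simpa using this))
  have t3 : ∀ i, Tendsto (fun e => sin (z - y e i + 3 * l) ^ 2) F
      (𝓝 (sin (z - y0 i + 3 * l) ^ 2)) := fun i =>
    ((Complex.continuous_sin.tendsto _).comp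
      ((tendsto_const_nhds.sub (ty i)).add_const _)).pow 2
  have t4 : ∀ i, Tendsto (fun e => psi β (z - x e i)) F (𝓝 (psi β (z - x0 i))) := fun i =>
    ((diff_psi' (by
      rw [sub_re]
      exact NQr_K3r hβ hβ' hr _ hz _ (hx0 i))).continuousAt.tendsto).comp
      (tendsto_const_nhds.sub (tx i))
  unfold GX RR ph
  exact ((((tendsto_const_nhds.mul (tendsto_finsetProd _ fun i _ => t1 i)).mul
    (tendsto_finsetProd _ fun i _ => t2 i)).mul (tendsto_finsetProd _ fun i _ => t3 i)).mul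
      (tendsto_const_nhds.sub ((tendsto_finsetProd _ fun i _ => t4 i).mul_const _))).mul ts

/-- **Joint continuity** for rows in the larger strip. -/
theorem DZ_tendsto' {E : Type*} {F : Filter E} [F.IsCountablyGenerated] {r : ℝ}
    (hr : r < 3 / 5 * l) (c c' : ℂ) {x y : E → Fin m → ℂ} {x0 y0 : Fin m → ℂ}
    (hx : ∀ᶠ e in F, Rwr r (x e) ∧ Rwr r (y e)) (hx0 : Rwr r x0) (hy0 : Rwr r y0)
    (tx : ∀ i, Tendsto (fun e => x e i) F (𝓝 (x0 i)))
    (ty : ∀ i, Tendsto (fun e => y e i) F (𝓝 (y0 i))) {s t : E → ℂ → ℂ} {s0 t0 : ℂ → ℂ} {D : ℝ}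
    (hD : 0 ≤ D)
    (hs : ∀ᶠ e in F, Measurable (s e) ∧ Measurable (t e) ∧ ∀ z : ℂ, z.re ∈ K3 →
      ‖s e z‖ ≤ D ∧ ‖t e z‖ ≤ D)
    (ts : ∀ z : ℂ, z.re ∈ K3 → Tendsto (fun e => s e z) F (𝓝 (s0 z)))
    (tt : ∀ z : ℂ, z.re ∈ K3 → Tendsto (fun e => t e z) F (𝓝 (t0 z))) (n : ℕ) :
    Tendsto (fun e => DZ c c' (s e) (t e) (x e) (y e) n) F (𝓝 (DZ c c' s0 t0 x0 y0 n)) := by
  have hl := Bd.l_pos
  set R : ℝ := ∑ j, |(x0 j).im| + ∑ j, |(y0 j).im| + 1 with hR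
  have bd := im_ev tx ty
  set S : Set E := {e | (Rwr r (x e) ∧ Rwr r (y e)) ∧ ((∀ i, |(x e i).im| ≤ R) ∧
    ∀ i, |(y e i).im| ≤ R) ∧ (Measurable (s e) ∧ Measurable (t e) ∧ ∀ z : ℂ, z.re ∈ K3 →
      ‖s e z‖ ≤ D ∧ ‖t e z‖ ≤ D)} with hS
  have hSF : ∀ᶠ e in F, e ∈ S := hx.and (bd.and hs)
  obtain ⟨C1, hC1, b1⟩ := GX_ubr (S := S) (R := R) (β := 4 / 3) (by norm_num) le_rfl hr c
    (x := x) (y := y) (s := s) (GOk.one _) (fun e he => he.1.1) (fun e he => he.1.2)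
    (fun e he => he.2.1.1) (fun e he => he.2.1.2) hD (fun e he z hz => (he.2.2.2.2 z hz).1)
  obtain ⟨C2, hC2, b2⟩ := GX_ubr (S := S) (R := R) (β := 4 / 3) (by norm_num) le_rfl hr c'
    (x := y) (y := x) (s := t) (GOk.one _) (fun e he => he.1.2) (fun e he => he.1.1)
    (fun e he => he.2.1.2) (fun e he => he.2.1.1) hD (fun e he z hz => (he.2.2.2.2 z hz).2)
  refine NUP1.N.Z3_tendsto (D := max C1 C2) (κ := 2 * (4 / 3)) (κ' := 2 * (4 / 3)) (by linarith)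
    (by linarith) (hSF.mono fun e he => measurable_GX c _ _ _ measurable_const he.2.2.1)
    (hSF.mono fun e he => measurable_GX c' _ _ _ measurable_const he.2.2.2.1)
    (fun z hz => GX_tendstor (by norm_num) le_rfl c _ hr hx0 tx ty (mem_K3 hz) (ts z (mem_K3 hz)))
    (fun z hz => GX_tendstor (by norm_num) le_rfl c' _ hr hy0 ty tx (mem_K3 hz)
      (tt z (mem_K3 hz)))
    (hSF.mono fun e he z hz => ?_) (hSF.mono fun e he z hz => ?_)
    (by norm_num) (by norm_num)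
  · have := b1 e he z (mem_K3 hz)
    rw [← neg_mul]
    exact this.trans (mul_le_mul_of_nonneg_right (le_max_left _ _) (Real.exp_pos _).le)
  · have := b2 e he z (mem_K3 hz)
    rw [← neg_mul]
    exact this.trans (mul_le_mul_of_nonneg_right (le_max_right _ _) (Real.exp_pos _).le)

/-- a strip slightly larger than the rows -/
theorem exists_strip {x y : Fin m → ℂ} (hx : ∀ i, |(x i).re| < 3 / 5 * l)
    (hy : ∀ i, |(y i).re| < 3 / 5 * l) :
    ∃ r : ℝ, r < 3 / 5 * l ∧ (∀ i, |(x i).re| < r) ∧ ∀ i, |(y i).re| < r := by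
  have h1 : ∀ {x : Fin m → ℂ}, (∀ i, |(x i).re| < 3 / 5 * l) →
      ∀ᶠ r in 𝓝[<] (3 / 5 * l), ∀ i, |(x i).re| < r := fun hx =>
    eventually_all.2 fun i => (eventually_gt_nhds (hx i)).filter_mono nhdsWithin_le_nhds
  have h2 : ∀ᶠ r in 𝓝[<] (3 / 5 * l), r < 3 / 5 * l := self_mem_nhdsWithin
  obtain ⟨r, hr⟩ := (h2.and ((h1 hx).and (h1 hy))).exists
  exact ⟨r, hr.1, hr.2.1, hr.2.2⟩

/-- rows near `θ0` stay in the strip -/
theorem re_ev {E : Type*} {F : Filter E} {x : E → Fin m → ℂ} {x0 : Fin m → ℂ} {r : ℝ}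
    (tx : ∀ i, Tendsto (fun e => x e i) F (𝓝 (x0 i))) (h : ∀ i, |(x0 i).re| < r) :
    ∀ᶠ e in F, Rwr r (x e) := by
  refine eventually_all.2 fun i => ?_
  have h1 : Tendsto (fun e => |(x e i).re|) F (𝓝 |(x0 i).re|) :=
    ((Complex.continuous_re.tendsto _).comp (tx i)).abs
  exact h1.eventually_le_const (h i)

/-- **The state sum is holomorphic along analytic curves of rows and spectators.** -/
theorem DZ_hol (c c' : ℂ) {x y : ℂ → Fin m → ℂ} {s t : ℂ → ℂ → ℂ} {θ0 : ℂ} {D : ℝ} (hD : 0 ≤ D)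
    (hx : ∀ i, |(x θ0 i).re| < 3 / 5 * l) (hy : ∀ i, |(y θ0 i).re| < 3 / 5 * l)
    (dx : ∀ᶠ θ in 𝓝 θ0, ∀ i, DifferentiableAt ℂ (fun θ => x θ i) θ)
    (dy : ∀ᶠ θ in 𝓝 θ0, ∀ i, DifferentiableAt ℂ (fun θ => y θ i) θ)
    (hs : ∀ᶠ θ in 𝓝 θ0, Measurable (s θ) ∧ Measurable (t θ) ∧ ∀ z : ℂ, z.re ∈ K3 →
      ‖s θ z‖ ≤ D ∧ ‖t θ z‖ ≤ D)
    (ds : ∀ᶠ θ in 𝓝 θ0, ∀ z : ℂ, z.re ∈ K3 → DifferentiableAt ℂ (fun θ => s θ z) θ ∧
      DifferentiableAt ℂ (fun θ => t θ z) θ) (n : ℕ) :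
    DifferentiableAt ℂ (fun θ => DZ c c' (s θ) (t θ) (x θ) (y θ) n) θ0 := by
  have hl := Bd.l_pos
  obtain ⟨r, hr, rx, ry⟩ := exists_strip hx hy
  have tx : ∀ i, Tendsto (fun θ => x θ i) (𝓝 θ0) (𝓝 (x θ0 i)) := fun i =>
    (dx.self_of_nhds i).continuousAt
  have ty : ∀ i, Tendsto (fun θ => y θ i) (𝓝 θ0) (𝓝 (y θ0 i)) := fun i =>
    (dy.self_of_nhds i).continuousAt
  set R : ℝ := ∑ j, |(x θ0 j).im| + ∑ j, |(y θ0 j).im| + 1 with hR
  set S : Set ℂ := {e | (Rwr r (x e) ∧ Rwr r (y e)) ∧ ((∀ i, |(x e i).im| ≤ R) ∧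
    ∀ i, |(y e i).im| ≤ R) ∧ (Measurable (s e) ∧ Measurable (t e) ∧ ∀ z : ℂ, z.re ∈ K3 →
      ‖s e z‖ ≤ D ∧ ‖t e z‖ ≤ D)} with hS
  have hSF : ∀ᶠ e in 𝓝 θ0, e ∈ S :=
    ((re_ev tx rx).and (re_ev ty ry)).and ((im_ev tx ty).and hs)
  obtain ⟨C1, hC1, b1⟩ := GX_ubr (S := S) (R := R) (β := 4 / 3) (by norm_num) le_rfl hr c
    (x := x) (y := y) (s := s) (GOk.one _) (fun e he => he.1.1) (fun e he => he.1.2)
    (fun e he => he.2.1.1) (fun e he => he.2.1.2) hD (fun e he z hz => (he.2.2.2.2 z hz).1)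
  obtain ⟨C2, hC2, b2⟩ := GX_ubr (S := S) (R := R) (β := 4 / 3) (by norm_num) le_rfl hr c'
    (x := y) (y := x) (s := t) (GOk.one _) (fun e he => he.1.2) (fun e he => he.1.1)
    (fun e he => he.2.1.2) (fun e he => he.2.1.1) hD (fun e he z hz => (he.2.2.2.2 z hz).2)
  refine NUP1.N.Z3_hol (D := max C1 C2) (κ := 2 * (4 / 3)) (κ' := 2 * (4 / 3)) (by linarith)
    (by linarith) (hSF.mono fun e he => measurable_GX c _ _ _ measurable_const he.2.2.1)
    (hSF.mono fun e he => measurable_GX c' _ _ _ measurable_const he.2.2.2.1)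
    ?_ ?_ (hSF.mono fun e he z hz => ?_) (hSF.mono fun e he z hz => ?_)
    (by norm_num) (by norm_num)
  · filter_upwards [hSF, dx, dy, ds] with e he hdx hdy hds z hz
    exact GX_hol (by norm_num) le_rfl c _ hr he.1.1 hdx hdy (mem_K3 hz) (hds z (mem_K3 hz)).1
  · filter_upwards [hSF, dx, dy, ds] with e he hdx hdy hds z hz
    exact GX_hol (by norm_num) le_rfl c' _ hr he.1.2 hdy hdx (mem_K3 hz) (hds z (mem_K3 hz)).2
  · have := b1 e he z (mem_K3 hz)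
    rw [← neg_mul]
    exact this.trans (mul_le_mul_of_nonneg_right (le_max_left _ _) (Real.exp_pos _).le)
  · have := b2 e he z (mem_K3 hz)
    rw [← neg_mul]
    exact this.trans (mul_le_mul_of_nonneg_right (le_max_right _ _) (Real.exp_pos _).le)

/-! ## the legs -/

theorem cosh_le_shift (a b : ℝ) : Real.cosh a ≤ Real.exp |a - b| * Real.cosh b := by
  have h1 : Real.exp a ≤ Real.exp |a - b| * Real.exp b := by
    rw [← Real.exp_add]
    refine Real.exp_le_exp.2 ?_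
    have := le_abs_self (a - b)
    linarith
  have h2 : Real.exp (-a) ≤ Real.exp |a - b| * Real.exp (-b) := by
    rw [← Real.exp_add]
    refine Real.exp_le_exp.2 ?_
    have := neg_abs_le (a - b)
    linarith
  rw [Real.cosh_eq, Real.cosh_eq]
  linarith

theorem Lg_le {p q u : ℂ} (h : Real.sin (p.re - u.re + 2 * l) ≠ 0) : ‖Lg p q u‖ ≤
    Real.exp |q.im - p.im| / |Real.sin (p.re - u.re + 2 * l)| := by
  have h1 := norm_sin_sub_le (q - u) (3 * l)
  have h2 := le_norm_sin_add (p - u) (2 * l)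
  have e1 : (q - u).im - (p - u).im = q.im - p.im := by simp
  have h3 := cosh_le_shift (q - u).im (p - u).im
  rw [e1] at h3
  have hs : 0 < |Real.sin (p.re - u.re + 2 * l)| := abs_pos.2 h
  have hc := Real.cosh_pos (p - u).im
  rw [sub_re] at h2
  have e2 : sin (q - u - 3 * l) = sin (q - u - ((3 * l : ℝ) : ℂ)) := by push_cast; rfl
  have e3 : sin (p - u + 2 * l) = sin (p - u + ((2 * l : ℝ) : ℂ)) := by push_cast; rfl
  unfold Lg
  rw [norm_div, e2, e3]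
  have hpos : 0 < |Real.sin (p.re - u.re + 2 * l)| * Real.cosh (p - u).im := mul_pos hs hc
  refine (div_le_div₀ (by positivity) (h1.trans h3) hpos h2).trans (le_of_eq ?_)
  field_simp

/-- **Uniform bound of the legs** on the three lines -/
theorem Lg_ub {a b : ℝ} (ha : -(7 / 5 * l) < a) (hb : b < 43 / 10 * l) :
    ∃ δ : ℝ, 0 < δ ∧ ∀ p q u : ℂ, a ≤ p.re → p.re ≤ b → u.re ∈ K3 →
      ‖Lg p q u‖ ≤ Real.exp |q.im - p.im| / δ := by
  have hl := Bd.l_pos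
  have hpi := Bd.pi_eq
  by_cases hab : a ≤ b
  · obtain ⟨x0, hx0, hmin⟩ := (isCompact_Icc (a := a + 7 / 5 * l)
      (b := b + 37 / 10 * l)).exists_isMinOn ⟨a + 7 / 5 * l, Set.left_mem_Icc.2 (by linarith)⟩
      Real.continuous_sin.continuousOn
    have hpos : 0 < Real.sin x0 :=
      Real.sin_pos_of_pos_of_lt_pi (by linarith [hx0.1]) (by linarith [hx0.2])
    refine ⟨Real.sin x0, hpos, fun p q u h1 h2 hu => ?_⟩
    have hm : Real.sin x0 ≤ Real.sin (p.re - u.re + 2 * l) := by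
      refine hmin ?_
      rcases K3_cases hu with h | h | h <;> rw [h] <;> constructor <;> linarith
    have hs : 0 < Real.sin (p.re - u.re + 2 * l) := hpos.trans_le hm
    refine (Lg_le hs.ne').trans ?_
    rw [abs_of_pos hs]
    exact div_le_div_of_nonneg_left (Real.exp_pos _).le hpos hm
  · exact ⟨1, one_pos, fun p q u h1 h2 _ => absurd (h1.trans h2) hab⟩

/-- legs converge -/
theorem Lg_tendsto {E : Type*} {F : Filter E} {p q : E → ℂ} {p0 q0 u : ℂ}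
    (tp : Tendsto p F (𝓝 p0)) (tq : Tendsto q F (𝓝 q0)) (h1 : -(7 / 5 * l) < p0.re)
    (h2 : p0.re < 43 / 10 * l) (hu : u.re ∈ K3) :
    Tendsto (fun e => Lg (p e) (q e) u) F (𝓝 (Lg p0 q0 u)) := by
  have hl := Bd.l_pos
  have hd : sin (p0 - u + 2 * l) ≠ 0 := by
    refine Lg_den (sin_ne_pos ?_ ?_) <;>
      rcases K3_cases hu with h | h | h <;> rw [h] <;> linarith
  unfold Lg
  exact (((Complex.continuous_sin.tendsto _).comp ((tq.sub_const u).sub_const _))).div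
    ((Complex.continuous_sin.tendsto _).comp ((tp.sub_const u).add_const _)) hd

/-- legs near a point are bounded -/
theorem Lg_ev {E : Type*} {F : Filter E} {p q : E → ℂ} {p0 q0 : ℂ} (tp : Tendsto p F (𝓝 p0))
    (tq : Tendsto q F (𝓝 q0)) (h1 : -(7 / 5 * l) < p0.re) (h2 : p0.re < 43 / 10 * l) :
    ∃ D : ℝ, 0 ≤ D ∧ ∀ᶠ e in F, ∀ z : ℂ, z.re ∈ K3 → ‖Lg (p e) (q e) z‖ ≤ D := by
  obtain ⟨a, ha1, ha2⟩ := exists_between h1
  obtain ⟨b, hb1, hb2⟩ := exists_between h2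
  obtain ⟨δ, hδ, h⟩ := Lg_ub ha1 hb2
  refine ⟨Real.exp (|q0.im - p0.im| + 1) / δ, by positivity, ?_⟩
  have t1 := (Complex.continuous_re.tendsto _).comp tp
  have t2 : Tendsto (fun e => |(q e).im - (p e).im|) F (𝓝 |q0.im - p0.im|) :=
    (((Complex.continuous_im.tendsto _).comp tq).sub
      ((Complex.continuous_im.tendsto _).comp tp)).abs
  filter_upwards [t1.eventually_const_le ha2, t1.eventually_le_const hb1,
    t2.eventually_le_const (u := |q0.im - p0.im| + 1) (by linarith)] with e e1 e2 e3 z hz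
  refine (h _ _ _ e1 e2 hz).trans ?_
  gcongr

theorem Lg_hol {p q : ℂ → ℂ} {θ0 u : ℂ} (dp : DifferentiableAt ℂ p θ0)
    (dq : DifferentiableAt ℂ q θ0) (h1 : -(7 / 5 * l) < (p θ0).re)
    (h2 : (p θ0).re < 43 / 10 * l) (hu : u.re ∈ K3) :
    DifferentiableAt ℂ (fun θ => Lg (p θ) (q θ) u) θ0 := by
  have hl := Bd.l_pos
  have hd : sin (p θ0 - u + 2 * l) ≠ 0 := by
    refine Lg_den (sin_ne_pos ?_ ?_) <;>
      rcases K3_cases hu with h | h | h <;> rw [h] <;> linarith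
  unfold Lg
  exact (((dq.sub_const u).sub_const _).csin).div (((dp.sub_const u).add_const _).csin) hd

/-- strips of the legs -/
def LgR (p : ℂ) : Prop := -(7 / 5 * l) < p.re ∧ p.re < 43 / 10 * l

theorem LgR.ev {E : Type*} {F : Filter E} {p : E → ℂ} {p0 : ℂ} (tp : Tendsto p F (𝓝 p0))
    (h : LgR p0) : ∀ᶠ e in F, LgR (p e) := by
  have t1 := (Complex.continuous_re.tendsto _).comp tp
  exact (t1.eventually_const_lt h.1).and (t1.eventually_lt_const h.2)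

/-- **Holomorphy with legs** (rows in the strip of width `6 l / 5`, equal rows allowed). -/
theorem DZ_Lg_hol (c c' : ℂ) {p q : ℂ → ℂ} {x y : ℂ → Fin m → ℂ} {θ0 : ℂ}
    (hx : ∀ i, |(x θ0 i).re| < 3 / 5 * l) (hy : ∀ i, |(y θ0 i).re| < 3 / 5 * l)
    (dx : ∀ᶠ θ in 𝓝 θ0, ∀ i, DifferentiableAt ℂ (fun θ => x θ i) θ)
    (dy : ∀ᶠ θ in 𝓝 θ0, ∀ i, DifferentiableAt ℂ (fun θ => y θ i) θ)
    (dp : ∀ᶠ θ in 𝓝 θ0, DifferentiableAt ℂ p θ) (dq : ∀ᶠ θ in 𝓝 θ0, DifferentiableAt ℂ q θ)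
    (hp : LgR (p θ0)) (hq : LgR (q θ0)) (n : ℕ) :
    DifferentiableAt ℂ (fun θ => DZ c c' (Lg (p θ) (q θ)) (Lg (q θ) (p θ)) (x θ) (y θ) n) θ0 := by
  have tp : Tendsto p (𝓝 θ0) (𝓝 (p θ0)) := dp.self_of_nhds.continuousAt
  have tq : Tendsto q (𝓝 θ0) (𝓝 (q θ0)) := dq.self_of_nhds.continuousAt
  obtain ⟨D1, hD1, b1⟩ := Lg_ev tp tq hp.1 hp.2
  obtain ⟨D2, hD2, b2⟩ := Lg_ev tq tp hq.1 hq.2
  refine DZ_hol c c' (s := fun θ => Lg (p θ) (q θ)) (t := fun θ => Lg (q θ) (p θ))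
    (D := max D1 D2) (le_max_of_le_left hD1) hx hy dx dy ?_ ?_ n
  · filter_upwards [b1, b2] with θ h1 h2
    exact ⟨Lg_meas _ _, Lg_meas _ _, fun z hz => ⟨(h1 z hz).trans (le_max_left _ _),
      (h2 z hz).trans (le_max_right _ _)⟩⟩
  · filter_upwards [dp, dq, LgR.ev tp hp, LgR.ev tq hq] with θ h1 h2 h3 h4 z hz
    exact ⟨Lg_hol h1 h2 h3.1 h3.2 hz, Lg_hol h2 h1 h4.1 h4.2 hz⟩

/-- **Joint continuity with legs.** -/
theorem DZ_Lg_tendsto {E : Type*} {F : Filter E} [F.IsCountablyGenerated] (c c' : ℂ)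
    {p q : E → ℂ} {p0 q0 : ℂ} {x y : E → Fin m → ℂ} {x0 y0 : Fin m → ℂ}
    (hx0 : ∀ i, |(x0 i).re| < 3 / 5 * l) (hy0 : ∀ i, |(y0 i).re| < 3 / 5 * l)
    (tx : ∀ i, Tendsto (fun e => x e i) F (𝓝 (x0 i)))
    (ty : ∀ i, Tendsto (fun e => y e i) F (𝓝 (y0 i))) (tp : Tendsto p F (𝓝 p0))
    (tq : Tendsto q F (𝓝 q0)) (hp : LgR p0) (hq : LgR q0) (n : ℕ) :
    Tendsto (fun e => DZ c c' (Lg (p e) (q e)) (Lg (q e) (p e)) (x e) (y e) n) F
      (𝓝 (DZ c c' (Lg p0 q0) (Lg q0 p0) x0 y0 n)) := by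
  obtain ⟨D1, hD1, b1⟩ := Lg_ev tp tq hp.1 hp.2
  obtain ⟨D2, hD2, b2⟩ := Lg_ev tq tp hq.1 hq.2
  obtain ⟨r, hr, rx, ry⟩ := exists_strip hx0 hy0
  refine DZ_tendsto' (D := max D1 D2) hr c c' ((re_ev tx rx).and (re_ev ty ry))
    (fun i => (rx i).le) (fun i => (ry i).le) tx ty (le_max_of_le_left hD1) ?_
    (fun z hz => Lg_tendsto tp tq hp.1 hp.2 hz) (fun z hz => Lg_tendsto tq tp hq.1 hq.2 hz) n
  filter_upwards [b1, b2] with θ h1 h2
  exact ⟨Lg_meas _ _, Lg_meas _ _, fun z hz => ⟨(h1 z hz).trans (le_max_left _ _),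
      (h2 z hz).trans (le_max_right _ _)⟩⟩

/-- **Uniform bound with legs.** -/
theorem DZ_Lg_ub (m : ℕ) {r R H a b : ℝ} (hr : r < 3 / 5 * l) (ha : -(7 / 5 * l) < a)
    (hb : b < 43 / 10 * l) (c c' : ℂ) (n : ℕ) :
    ∃ C : ℝ, 0 ≤ C ∧ ∀ (x y : Fin m → ℂ) (p q : ℂ), Rwr r x → Rwr r y →
      (∀ i, |(x i).im| ≤ R) → (∀ i, |(y i).im| ≤ R) → a ≤ p.re → p.re ≤ b → a ≤ q.re →
      q.re ≤ b → |p.im - q.im| ≤ H → ‖DZ c c' (Lg p q) (Lg q p) x y n‖ ≤ C := by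
  obtain ⟨δ, hδ, h⟩ := Lg_ub ha hb
  obtain ⟨C, hC, h'⟩ := DZ_ub m (R := R) (D := Real.exp H / δ) hr (by positivity) c c' n
  refine ⟨C, hC, fun x y p q h1 h2 h3 h4 h5 h6 h7 h8 h9 =>
    h' x y _ _ h1 h2 h3 h4 fun z hz => ⟨?_, ?_⟩⟩
  · refine (h p q z h5 h6 hz).trans ?_
    rw [abs_sub_comm] at h9
    gcongr
  · refine (h q p z h7 h8 hz).trans ?_
    gcongr

/-! ## one row position moved in both groups -/

/-- (H1) the legs moved -/
theorem DZ_leg_hol (c c' : ℂ) {x y : Fin m → ℂ} (hx : Rws x) (hy : Rws y) {z0 : ℂ}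
    (h1 : -(7 / 5 * l) < z0.re) (h2 : z0.re < 43 / 10 * l) (n : ℕ) :
    DifferentiableAt ℂ (fun z => DZ c c' (Lg z z) (Lg z z) x y n) z0 := by
  have hl := Bd.l_pos
  have hs : ∀ {x : Fin m → ℂ}, Rws x → ∀ i, |(x i).re| < 3 / 5 * l := fun hx i =>
    (hx i).trans_lt (by linarith)
  exact DZ_Lg_hol c c' (p := fun z => z) (q := fun z => z) (x := fun _ => x) (y := fun _ => y)
    (hs hx) (hs hy) (Eventually.of_forall fun _ _ => differentiableAt_const _)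
    (Eventually.of_forall fun _ _ => differentiableAt_const _)
    (Eventually.of_forall fun _ => differentiableAt_id)
    (Eventually.of_forall fun _ => differentiableAt_id) ⟨h1, h2⟩ ⟨h1, h2⟩ n

theorem update_re {x : Fin m → ℂ} {i : Fin m} {ξ : ℂ}
    (hx : ∀ k, k ≠ i → |(x k).re| < 3 / 5 * l) (h0 : |ξ.re| < 3 / 5 * l) (k : Fin m) :
    |(Function.update x i ξ k).re| < 3 / 5 * l := by
  by_cases h : k = i
  · subst h
    rwa [Function.update_self]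
  · rw [Function.update_of_ne h]
    exact hx k h

theorem update_diff (x : Fin m → ℂ) (i k : Fin m) (ξ : ℂ) :
    DifferentiableAt ℂ (fun ξ => Function.update x i ξ k) ξ := by
  by_cases h : k = i
  · subst h
    simp only [Function.update_self]
    exact differentiableAt_id
  · simp only [Function.update_of_ne h]
    exact differentiableAt_const _

/-- (H2) one row position moved in both groups, general legs -/
theorem DZ_update_hol (c c' : ℂ) {p q : ℂ} {x y : Fin m → ℂ} {i j : Fin m} {ξ0 : ℂ}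
    (hx : ∀ k, k ≠ i → |(x k).re| < 3 / 5 * l) (hy : ∀ k, k ≠ j → |(y k).re| < 3 / 5 * l)
    (h0 : |ξ0.re| < 3 / 5 * l) (hp : LgR p) (hq : LgR q) (n : ℕ) :
    DifferentiableAt ℂ (fun ξ => DZ c c' (Lg p q) (Lg q p) (Function.update x i ξ)
      (Function.update y j ξ) n) ξ0 :=
  DZ_Lg_hol c c' (p := fun _ => p) (q := fun _ => q) (x := fun ξ => Function.update x i ξ)
    (y := fun ξ => Function.update y j ξ) (update_re hx h0) (update_re hy h0)
    (Eventually.of_forall fun _ _ => update_diff _ _ _ _)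
    (Eventually.of_forall fun _ _ => update_diff _ _ _ _)
    (Eventually.of_forall fun _ => differentiableAt_const _)
    (Eventually.of_forall fun _ => differentiableAt_const _) hp hq n

/-- (H2) one row position moved in one group only -/
theorem DZ_update_hol_left (c c' : ℂ) {p q : ℂ} {x y : Fin m → ℂ} {i : Fin m} {ξ0 : ℂ}
    (hx : ∀ k, k ≠ i → |(x k).re| < 3 / 5 * l) (hy : ∀ k, |(y k).re| < 3 / 5 * l)
    (h0 : |ξ0.re| < 3 / 5 * l) (hp : LgR p) (hq : LgR q) (n : ℕ) :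
    DifferentiableAt ℂ (fun ξ => DZ c c' (Lg p q) (Lg q p) (Function.update x i ξ) y n) ξ0 :=
  DZ_Lg_hol c c' (p := fun _ => p) (q := fun _ => q) (x := fun ξ => Function.update x i ξ)
    (y := fun _ => y) (update_re hx h0) hy
    (Eventually.of_forall fun _ _ => update_diff _ _ _ _)
    (Eventually.of_forall fun _ _ => differentiableAt_const _)
    (Eventually.of_forall fun _ => differentiableAt_const _)
    (Eventually.of_forall fun _ => differentiableAt_const _) hp hq n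

theorem cons_re {x : Fin m → ℂ} {ξ : ℂ} {r : ℝ} (hx : ∀ k, |(x k).re| < r)
    (h0 : |ξ.re| < r) (k : Fin (m + 1)) :
    |((Fin.cons ξ x : Fin (m + 1) → ℂ) k).re| < r := by
  refine Fin.cases ?_ (fun i => ?_) k
  · simpa using h0
  · simpa using hx i

theorem cons_tendsto {E : Type*} {F : Filter E} {ξ : E → ℂ} {ξ0 : ℂ} {x : E → Fin m → ℂ}
    {x0 : Fin m → ℂ} (tξ : Tendsto ξ F (𝓝 ξ0)) (tx : ∀ i, Tendsto (fun e => x e i) F (𝓝 (x0 i)))
    (k : Fin (m + 1)) : Tendsto (fun e => (Fin.cons (ξ e) (x e) : Fin (m + 1) → ℂ) k) F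
      (𝓝 ((Fin.cons ξ0 x0 : Fin (m + 1) → ℂ) k)) := by
  refine Fin.cases ?_ (fun i => ?_) k
  · simpa using tξ
  · simpa using tx i

theorem cons_diff (x : Fin m → ℂ) (k : Fin (m + 1)) (ξ : ℂ) :
    DifferentiableAt ℂ (fun ξ => (Fin.cons ξ x : Fin (m + 1) → ℂ) k) ξ := by
  refine Fin.cases ?_ (fun i => ?_) k
  · simp only [Fin.cons_zero]
    exact differentiableAt_id
  · simp only [Fin.cons_succ]
    exact differentiableAt_const _

/-- (H2) the first row moved in both groups -/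
theorem DZ_cons_hol (c c' : ℂ) {p q : ℂ} {x y : Fin m → ℂ} {ξ0 : ℂ}
    (hx : ∀ k, |(x k).re| < 3 / 5 * l) (hy : ∀ k, |(y k).re| < 3 / 5 * l)
    (h0 : |ξ0.re| < 3 / 5 * l) (hp : LgR p) (hq : LgR q) (n : ℕ) :
    DifferentiableAt ℂ (fun ξ => DZ (m := m + 1) c c' (Lg p q) (Lg q p) (Fin.cons ξ x)
      (Fin.cons ξ y) n) ξ0 :=
  DZ_Lg_hol (m := m + 1) c c' (p := fun _ => p) (q := fun _ => q) (x := fun ξ => Fin.cons ξ x)
    (y := fun ξ => Fin.cons ξ y) (cons_re hx h0) (cons_re hy h0)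
    (Eventually.of_forall fun _ _ => cons_diff _ _ _)
    (Eventually.of_forall fun _ _ => cons_diff _ _ _)
    (Eventually.of_forall fun _ => differentiableAt_const _)
    (Eventually.of_forall fun _ => differentiableAt_const _) hp hq n

/-- **The derivative of a jointly continuous family of holomorphic functions is jointly
continuous.** -/
theorem continuousAt_deriv {E : Type*} [TopologicalSpace E] [FirstCountableTopology E]
    {f : E → ℂ → ℂ} {e0 : E} {θ0 : ℂ}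
    (hc : ∀ᶠ v : E × ℂ in 𝓝 (e0, θ0), ContinuousAt (fun v : E × ℂ => f v.1 v.2) v)
    (hd : ∀ᶠ v : E × ℂ in 𝓝 (e0, θ0), DifferentiableAt ℂ (f v.1) v.2) :
    ContinuousAt (fun v : E × ℂ => deriv (f v.1) v.2) (e0, θ0) := by
  have hb : ∀ᶠ v : E × ℂ in 𝓝 (e0, θ0), ‖f v.1 v.2‖ ≤ ‖f e0 θ0‖ + 1 :=
    (hc.self_of_nhds.norm).eventually_le_const (by simp)
  have hall := hc.and (hd.and hb)
  rw [nhds_prod_eq, eventually_prod_iff] at hall
  obtain ⟨P, hP, Q, hQ, hPQ⟩ := hall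
  obtain ⟨R, hR, hQR⟩ := Metric.eventually_nhds_iff_ball.1 hQ
  have hP' : ∀ᶠ v : E × ℂ in 𝓝 (e0, θ0), P v.1 := by
    rw [nhds_prod_eq]
    exact hP.prod_inl _
  have hP0 : P e0 := hP.self_of_nhds
  refine tendsto_deriv_joint (f := fun v : E × ℂ => f v.1) (f0 := f e0)
    (θ := fun v : E × ℂ => v.2) (B := ‖f e0 θ0‖ + 1) hR
    (continuous_snd.tendsto (e0, θ0)) ?_ ?_ ?_ ?_
  · filter_upwards [hP'] with v hv z hz
    exact (hPQ hv (hQR z hz)).2.1.differentiableWithinAt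
  · intro z hz
    exact (hPQ hP0 (hQR z hz)).2.1.differentiableWithinAt
  · filter_upwards [hP'] with v hv z hz
    exact (hPQ hv (hQR z hz)).2.2
  · intro z hz
    have h1 : Tendsto (fun v : E × ℂ => f v.1 v.2) (𝓝 (e0, z)) (𝓝 (f e0 z)) :=
      (hPQ hP0 (hQR z hz)).1
    have h2 : Tendsto (fun v : E × ℂ => (v.1, z)) (𝓝 (e0, θ0)) (𝓝 (e0, z)) :=
      (continuous_fst.prodMk continuous_const).tendsto (e0, θ0)
    exact h1.comp h2

/-- the derivative along the imaginary direction -/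
theorem hasDerivAt_im {f : ℂ → ℂ} {x0 : ℂ} {η : ℝ} (h : DifferentiableAt ℂ f (x0 + η * I)) :
    HasDerivAt (fun η : ℝ => f (x0 + η * I)) (deriv f (x0 + η * I) * I) η := by
  have h1 : HasDerivAt (fun w : ℂ => x0 + w * I) I (η : ℂ) := by
    simpa using ((hasDerivAt_id (η : ℂ)).mul_const I).const_add x0
  exact (h.hasDerivAt.comp (η : ℂ) h1).comp_ofReal

/-! ## joint continuity of the derivatives -/

/-- the region of rows and legs -/
def VR (m : ℕ) : Set ((Fin m → ℂ) × (Fin m → ℂ) × ℂ × ℂ) :=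
  {v | (∀ i, |(v.1 i).re| < 3 / 5 * l) ∧ (∀ i, |(v.2.1 i).re| < 3 / 5 * l) ∧ LgR v.2.2.1 ∧
    LgR v.2.2.2}

theorem isOpen_VR (m : ℕ) : IsOpen (VR m) := by
  have h1 : IsOpen {v : (Fin m → ℂ) × (Fin m → ℂ) × ℂ × ℂ | ∀ i, |(v.1 i).re| < 3 / 5 * l} := by
    have e : {v : (Fin m → ℂ) × (Fin m → ℂ) × ℂ × ℂ | ∀ i, |(v.1 i).re| < 3 / 5 * l} =
        ⋂ i, {v | |(v.1 i).re| < 3 / 5 * l} := by
      ext v
      simp
    rw [e]
    exact isOpen_iInter_of_finite fun i => isOpen_lt (by fun_prop) continuous_const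
  have h2 : IsOpen {v : (Fin m → ℂ) × (Fin m → ℂ) × ℂ × ℂ | ∀ i, |(v.2.1 i).re| < 3 / 5 * l} := by
    have e : {v : (Fin m → ℂ) × (Fin m → ℂ) × ℂ × ℂ | ∀ i, |(v.2.1 i).re| < 3 / 5 * l} =
        ⋂ i, {v | |(v.2.1 i).re| < 3 / 5 * l} := by
      ext v
      simp
    rw [e]
    exact isOpen_iInter_of_finite fun i => isOpen_lt (by fun_prop) continuous_const
  have h3 : ∀ {g : (Fin m → ℂ) × (Fin m → ℂ) × ℂ × ℂ → ℂ}, Continuous g →
      IsOpen {v | LgR (g v)} := fun hg =>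
    (isOpen_lt continuous_const (Complex.continuous_re.comp hg)).inter
      (isOpen_lt (Complex.continuous_re.comp hg) continuous_const)
  exact h1.inter (h2.inter ((h3 (by fun_prop)).inter (h3 (by fun_prop))))

/-- the state sum with legs as a function of all parameters -/
def DL (c c' : ℂ) (n : ℕ) (v : (Fin m → ℂ) × (Fin m → ℂ) × ℂ × ℂ) : ℂ :=
  DZ c c' (Lg v.2.2.1 v.2.2.2) (Lg v.2.2.2 v.2.2.1) v.1 v.2.1 n

/-- **joint continuity** -/
theorem DL_cont (c c' : ℂ) (n : ℕ) {v0 : (Fin m → ℂ) × (Fin m → ℂ) × ℂ × ℂ} (h : v0 ∈ VR m) :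
    ContinuousAt (DL c c' n) v0 := by
  obtain ⟨h1, h2, h3, h4⟩ := h
  have t : ∀ {g : (Fin m → ℂ) × (Fin m → ℂ) × ℂ × ℂ → ℂ}, Continuous g →
      Tendsto g (𝓝 v0) (𝓝 (g v0)) := fun hg => hg.tendsto v0
  exact DZ_Lg_tendsto c c' (F := 𝓝 v0) h1 h2 (fun i => t (by fun_prop)) (fun i => t (by fun_prop))
    (t (by fun_prop)) (t (by fun_prop)) h3 h4 n

/-- **holomorphy along analytic curves** -/
theorem DL_hol (c c' : ℂ) (n : ℕ) {γ : ℂ → (Fin m → ℂ) × (Fin m → ℂ) × ℂ × ℂ} {θ0 : ℂ}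
    (hγ : ∀ᶠ θ in 𝓝 θ0, DifferentiableAt ℂ γ θ) (h : γ θ0 ∈ VR m) :
    DifferentiableAt ℂ (fun θ => DL c c' n (γ θ)) θ0 := by
  obtain ⟨h1, h2, h3, h4⟩ := h
  exact DZ_Lg_hol c c' h1 h2 (hγ.mono fun θ hθ i => differentiableAt_pi.1 hθ.fst i)
    (hγ.mono fun θ hθ i => differentiableAt_pi.1 hθ.snd.fst i)
    (hγ.mono fun θ hθ => hθ.snd.snd.fst) (hγ.mono fun θ hθ => hθ.snd.snd.snd) h3 h4 n

/-- **Joint continuity of the derivative** along a family of analytic curves. -/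
theorem DL_deriv_cont {E : Type*} [TopologicalSpace E] [FirstCountableTopology E] (c c' : ℂ)
    (n : ℕ) {γ : E → ℂ → (Fin m → ℂ) × (Fin m → ℂ) × ℂ × ℂ} {e0 : E} {θ0 : ℂ}
    (hc : ∀ᶠ w : E × ℂ in 𝓝 (e0, θ0), ContinuousAt (fun w : E × ℂ => γ w.1 w.2) w)
    (hd : ∀ᶠ w : E × ℂ in 𝓝 (e0, θ0), ∀ᶠ θ in 𝓝 w.2, DifferentiableAt ℂ (γ w.1) θ)
    (h : γ e0 θ0 ∈ VR m) :
    ContinuousAt (fun w : E × ℂ => deriv (fun θ => DL c c' n (γ w.1 θ)) w.2) (e0, θ0) := by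
  have h1 : ∀ᶠ w : E × ℂ in 𝓝 (e0, θ0), γ w.1 w.2 ∈ VR m :=
    hc.self_of_nhds.eventually ((isOpen_VR m).mem_nhds h)
  refine continuousAt_deriv (f := fun e θ => DL c c' n (γ e θ)) ?_ ?_
  · filter_upwards [hc, h1] with w h2 h3
    exact ContinuousAt.comp (g := DL c c' n) (f := fun w : E × ℂ => γ w.1 w.2)
      (DL_cont c c' n h3) h2
  · filter_upwards [hd, h1] with w h2 h3
    exact DL_hol c c' n h2 h3

/-- (H3) the derivative in the row moved in both groups is jointly continuous in the row, the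
other rows and the legs -/
theorem DZ_cons_deriv_cont (c c' : ℂ) (n : ℕ) {v0 : (Fin m → ℂ) × (Fin m → ℂ) × ℂ × ℂ} {ξ0 : ℂ}
    (h : v0 ∈ VR m) (h0 : |ξ0.re| < 3 / 5 * l) :
    ContinuousAt (fun w : ((Fin m → ℂ) × (Fin m → ℂ) × ℂ × ℂ) × ℂ =>
      deriv (fun ξ => DZ (m := m + 1) c c' (Lg w.1.2.2.1 w.1.2.2.2) (Lg w.1.2.2.2 w.1.2.2.1)
        (Fin.cons ξ w.1.1) (Fin.cons ξ w.1.2.1) n) w.2) (v0, ξ0) := by
  have hmem : ((Fin.cons ξ0 v0.1, Fin.cons ξ0 v0.2.1, v0.2.2.1, v0.2.2.2) :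
      (Fin (m + 1) → ℂ) × (Fin (m + 1) → ℂ) × ℂ × ℂ) ∈ VR (m + 1) :=
    ⟨cons_re h.1 h0, cons_re h.2.1 h0, h.2.2.1, h.2.2.2⟩
  have key := DL_deriv_cont (m := m + 1) (E := (Fin m → ℂ) × (Fin m → ℂ) × ℂ × ℂ) c c' n
    (γ := fun v ξ => (Fin.cons ξ v.1, Fin.cons ξ v.2.1, v.2.2.1, v.2.2.2)) (e0 := v0) (θ0 := ξ0)
    (Eventually.of_forall fun w => ?_) (Eventually.of_forall fun w => Eventually.of_forall
      fun ξ => ?_) hmem
  · exact key
  · have t : ∀ {g : ((Fin m → ℂ) × (Fin m → ℂ) × ℂ × ℂ) × ℂ → Fin m → ℂ}, Continuous g →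
        Continuous fun w : ((Fin m → ℂ) × (Fin m → ℂ) × ℂ × ℂ) × ℂ =>
          (Fin.cons w.2 (g w) : Fin (m + 1) → ℂ) := by
      intro g hg
      refine continuous_pi fun k => ?_
      refine Fin.cases ?_ (fun i => ?_) k
      · simpa using continuous_snd
      · simp only [Fin.cons_succ]
        exact (continuous_apply i).comp hg
    exact ((t (by fun_prop)).prodMk ((t (by fun_prop)).prodMk (by fun_prop))).continuousAt
  · refine DifferentiableAt.prodMk (differentiableAt_pi.2 fun k => cons_diff _ _ _)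
      (DifferentiableAt.prodMk (differentiableAt_pi.2 fun k => cons_diff _ _ _)
        (differentiableAt_const _))

/-- (H3) continuity of the derivative along `x0 + i η` -/
theorem DZ_cons_im_deriv (c c' : ℂ) {p q : ℂ} {x y : Fin m → ℂ} {x0 : ℂ}
    (hx : ∀ k, |(x k).re| < 3 / 5 * l) (hy : ∀ k, |(y k).re| < 3 / 5 * l)
    (h0 : |x0.re| < 3 / 5 * l) (hp : LgR p) (hq : LgR q) (n : ℕ) :
    ∃ f' : ℝ → ℂ, Continuous f' ∧ ∀ η : ℝ, HasDerivAt (fun η : ℝ =>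
      DZ (m := m + 1) c c' (Lg p q) (Lg q p) (Fin.cons (x0 + η * I) x) (Fin.cons (x0 + η * I) y) n)
        (f' η) η := by
  have hre : ∀ η : ℝ, (x0 + η * I).re = x0.re := fun η => by simp
  set f : ℂ → ℂ := fun ξ => DZ (m := m + 1) c c' (Lg p q) (Lg q p) (Fin.cons ξ x)
    (Fin.cons ξ y) n with hf
  refine ⟨fun η => deriv f (x0 + η * I) * I, ?_, fun η => hasDerivAt_im (f := f)
    (DZ_cons_hol c c' hx hy (by rw [hre]; exact h0) hp hq n)⟩
  refine Continuous.mul ?_ continuous_const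
  refine continuous_iff_continuousAt.2 fun η => ?_
  have h1 := DZ_cons_deriv_cont c c' n (v0 := (x, y, p, q)) (ξ0 := x0 + η * I)
    ⟨hx, hy, hp, hq⟩ (by rw [hre]; exact h0)
  have h2 : Continuous fun η : ℝ => (((x, y, p, q) : (Fin m → ℂ) × (Fin m → ℂ) × ℂ × ℂ),
      x0 + η * I) := by fun_prop
  exact ContinuousAt.comp (f := fun η : ℝ =>
    (((x, y, p, q) : (Fin m → ℂ) × (Fin m → ℂ) × ℂ × ℂ), x0 + η * I)) h1 h2.continuousAt

end PBX

end
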