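import Pool.Agent.PB.EAbs

/-!
# Plan B: the assembly of `(E')` with TWO RATES of decay (helper90)

As `PB/EAbs` (helper77), but the second Ward identity is asked with two rates `a0 ≤ a`: for a general
neutral `g = O(e^{-a |Re z|})` the field `β / ρ` is `N^{-1} e^{(8/3 - a) |t|}`, so the error is
`δ = N^{-(3/8) a + ε}`, and only the NEUTRAL FIRST factor of a product needs the rate `a` close to `2`;
the second factor only needs a small rate `a0`.  For `a_s(z) = a(z, s + iy)`, `|a| ≤ C e^{-2 max}`, and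
`b_s = O(e^{-α |s - Re z|})` the norms are `al s = C e^{-(2 - a) |s|}`, `al0 s = C e^{-(2 - a0) |s|}`,
`be s = C e^{a |s|}`, `be0 s = C e^{a0 |s|}`: `al * be0` and `al0 * be` are integrable for `a + a0 < 2`.

* `TC.rate`; `Rep2`, `Lev22`, `Lev22m`: product representation, level two, with two rates;
* `cov_pair2`, `plus_int2`, `minus_int2`;
* **`E_prime2`**.
-/

set_option autoImplicit false

open MeasureTheory Complex Filter Topology
open scoped ENNReal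

noncomputable section

namespace PBE

section rates

variable {y₁ y₂ a a0 M : ℝ} {g : ℂ → ℂ}

/-- a smaller rate -/
lemma TC.rate (hg : TC y₁ y₂ a M g) (h1 : y₁ < 0) (h2 : 0 < y₂) (h : a0 ≤ a) : TC y₁ y₂ a0 M g where
  an := hg.an
  bd z hz := by
    refine (hg.bd z hz).trans (mul_le_mul_of_nonneg_left (Real.exp_le_exp.2 ?_) (hg.nonneg h1 h2))
    have := mul_le_mul_of_nonneg_right h (abs_nonneg z.re)
    linarith

end rates

/-- product representation with two rates -/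
structure Rep2 {T : Type*} [MeasurableSpace T] (y₁ y₂ a a0 : ℝ) (σ : Measure T) (A B : T → ℂ → ℂ)
    (al be al0 be0 : T → ℝ) : Prop where
  tA : ∀ s, TC y₁ y₂ a (al s) (A s)
  tB : ∀ s, TC y₁ y₂ a (be s) (B s)
  tA0 : ∀ s, TC y₁ y₂ a0 (al0 s) (A s)
  tB0 : ∀ s, TC y₁ y₂ a0 (be0 s) (B s)
  int : Integrable (fun s => al s * be0 s) σ
  int0 : Integrable (fun s => al0 s * be s) σ

/-- **level two, plus channel**: the neutral first factor has the rate `a`, the second one `a0` -/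
structure Lev22 (y₁ y₂ a a0 : ℝ) (f : ℂ) (G1 : (ℂ → ℂ) → ℂ) (G2 : (ℂ → ℂ) → (ℂ → ℂ) → ℂ)
    (m : (ℂ → ℂ) → ℂ) (C : (ℂ → ℂ) → (ℂ → ℂ) → ℂ) (δ : ℝ) : Prop where
  mean : ∀ M g, TC y₁ y₂ a M g → mass g = 0 → ‖G1 g - m g * f‖ ≤ M * δ
  cov : ∀ M M' g h, TC y₁ y₂ a M g → mass g = 0 → TC y₁ y₂ a0 M' h →
    ‖G2 g h - (m g * G1 h + C g h * f)‖ ≤ M * M' * δ

/-- **level two, minus channel** -/
structure Lev22m (y₁ y₂ a a0 : ℝ) (f : ℂ) (H2 : (ℂ → ℂ) → (ℂ → ℂ) → ℂ) (Hs : (ℂ → ℂ) → ℂ) (Hss : ℂ)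
    (C : (ℂ → ℂ) → (ℂ → ℂ) → ℂ) (Cs : (ℂ → ℂ) → ℂ) (Css : ℂ) (δ : ℝ) : Prop where
  cov : ∀ M M' g h, TC y₁ y₂ a M g → TC y₁ y₂ a0 M' h → ‖H2 g h - C g h * f‖ ≤ M * M' * δ
  covs : ∀ M g, TC y₁ y₂ a M g → ‖Hs g - Cs g * f‖ ≤ M * δ
  covss : ‖Hss - Css * f‖ ≤ δ

section main

variable {y₁ y₂ a a0 : ℝ}

/-- **one product of test functions, two rates** -/
theorem cov_pair2 {f : ℂ} {G1 m : (ℂ → ℂ) → ℂ} {G2 C : (ℂ → ℂ) → (ℂ → ℂ) → ℂ}
    {δ K M M' N N' M0 : ℝ} {g h h0 : ℂ → ℂ} (hL : Lev22 y₁ y₂ a a0 f G1 G2 m C δ)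
    (hG2 : Lin2 y₁ y₂ a G2) (hm : Lin1 y₁ y₂ a m) (hC : Lin2 y₁ y₂ a C)
    (hK : ∀ M g, TC y₁ y₂ a0 M g → ‖m g‖ ≤ K * M) (hm0 : m h0 = 0)
    (hg : TC y₁ y₂ a M g) (hk : TC y₁ y₂ a M' h) (hgN : TC y₁ y₂ a0 N g) (hkN : TC y₁ y₂ a0 N' h)
    (hh : TC y₁ y₂ a M0 h0) (hA : mass h0 ≠ 0)
    (ha0 : 0 < a0) (ha : a0 ≤ a) (h1 : y₁ < 0) (h2 : 0 < y₂) (hδ : 0 ≤ δ) (hK0 : 0 ≤ K) :
    ‖G2 g h - ((mass g / mass h0) * (mass h / mass h0) * G2 h0 h0 +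
      ((mass g / mass h0) * m h + (mass h / mass h0) * m g) * G1 h0 +
      (C g h - (mass g / mass h0) * (mass h / mass h0) * C h0 h0 + m g * m h) * f)‖ ≤
      (3 + K) * (1 + 2 * M0 / (a0 * ‖mass h0‖)) ^ 2 * (M * N' + N * M') * δ := by
  have hapos : 0 < a := lt_of_lt_of_le ha0 ha
  have hh0 := hh.rate h1 h2 ha
  have n1 := ntr_TC hg hh hapos h1 h2
  have n2 := ntr_TC hk hh hapos h1 h2
  have n3 := ntr_TC hgN hh0 ha0 h1 h2
  have n4 := ntr_TC hkN hh0 ha0 h1 h2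
  have z1 := mass_ntr hg hh hapos h1 h2 hA
  have z2 := mass_ntr hk hh hapos h1 h2 hA
  have mg : m g = m (ntr h0 g) := by rw [hm.split hg hh hapos h1 h2, hm0]; ring
  have mh : m h = m (ntr h0 h) := by rw [hm.split hk hh hapos h1 h2, hm0]; ring
  have M_nn := hg.nonneg h1 h2
  have M'_nn := hk.nonneg h1 h2
  have N_nn := hgN.nonneg h1 h2
  have N'_nn := hkN.nonneg h1 h2
  have M0_nn := hh.nonneg h1 h2
  have hA' : 0 < ‖mass h0‖ := norm_pos_iff.2 hA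
  set κ := 1 + 2 * M0 / (a0 * ‖mass h0‖) with hκ
  have hκ1 : 2 * M0 / (a0 * ‖mass h0‖) ≤ κ := by rw [hκ]; linarith
  have hκ0 : 0 ≤ κ := by rw [hκ]; positivity
  have hκa : 1 + 2 * M0 / (a * ‖mass h0‖) ≤ κ := by
    rw [hκ]
    gcongr
  -- neutral parts with the rate `a`
  have n1' := n1.mono (mul_le_mul_of_nonneg_left hκa M_nn)
  have n2' := n2.mono (mul_le_mul_of_nonneg_left hκa M'_nn)
  have c1 := hL.cov _ _ _ _ n2' z2 hh0
  have c2 := hL.cov _ _ _ _ n1' z1 hh0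
  have c3 := hL.cov _ _ _ _ n1' z1 n4
  have c4 := hL.mean _ _ n2' z2
  have c5 := hK _ _ n3
  have al1 : ‖mass g / mass h0‖ * M0 ≤ N * κ := by
    rw [norm_div]
    calc ‖mass g‖ / ‖mass h0‖ * M0 ≤ N * (2 / a0) / ‖mass h0‖ * M0 := by
          gcongr
          exact (hgN.real ha0 h1 h2).2
      _ = N * (2 * M0 / (a0 * ‖mass h0‖)) := by field_simp
      _ ≤ N * κ := mul_le_mul_of_nonneg_left hκ1 N_nn
  have al2 : ‖mass h / mass h0‖ * M0 ≤ N' * κ := by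
    rw [norm_div]
    calc ‖mass h‖ / ‖mass h0‖ * M0 ≤ N' * (2 / a0) / ‖mass h0‖ * M0 := by
          gcongr
          exact (hkN.real ha0 h1 h2).2
      _ = N' * (2 * M0 / (a0 * ‖mass h0‖)) := by field_simp
      _ ≤ N' * κ := mul_le_mul_of_nonneg_left hκ1 N'_nn
  rw [hG2.split2 hg hh hk hapos h1 h2, hC.split2 hg hh hk hapos h1 h2, mg, mh]
  set α := mass g / mass h0
  set β := mass h / mass h0
  set ng := ntr h0 g
  set nh := ntr h0 h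
  have e : α * β * G2 h0 h0 + α * G2 nh h0 + β * G2 ng h0 + G2 ng nh -
      (α * β * G2 h0 h0 + (α * m nh + β * m ng) * G1 h0 +
        (α * β * C h0 h0 + α * C nh h0 + β * C ng h0 + C ng nh - α * β * C h0 h0 +
          m ng * m nh) * f) =
      α * (G2 nh h0 - (m nh * G1 h0 + C nh h0 * f)) +
      β * (G2 ng h0 - (m ng * G1 h0 + C ng h0 * f)) +
      (G2 ng nh - (m ng * G1 nh + C ng nh * f)) + m ng * (G1 nh - m nh * f) := by ring
  rw [e]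
  have b1 : ‖α * (G2 nh h0 - (m nh * G1 h0 + C nh h0 * f))‖ ≤ κ ^ 2 * (N * M') * δ := by
    rw [norm_mul]
    calc ‖α‖ * ‖G2 nh h0 - (m nh * G1 h0 + C nh h0 * f)‖ ≤ ‖α‖ * (M' * κ * M0 * δ) :=
          mul_le_mul_of_nonneg_left c1 (norm_nonneg _)
      _ = (‖α‖ * M0) * (M' * κ * δ) := by ring
      _ ≤ (N * κ) * (M' * κ * δ) := mul_le_mul_of_nonneg_right al1 (by positivity)
      _ = _ := by ring
  have b2 : ‖β * (G2 ng h0 - (m ng * G1 h0 + C ng h0 * f))‖ ≤ κ ^ 2 * (M * N') * δ := by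
    rw [norm_mul]
    calc ‖β‖ * ‖G2 ng h0 - (m ng * G1 h0 + C ng h0 * f)‖ ≤ ‖β‖ * (M * κ * M0 * δ) :=
          mul_le_mul_of_nonneg_left c2 (norm_nonneg _)
      _ = (‖β‖ * M0) * (M * κ * δ) := by ring
      _ ≤ (N' * κ) * (M * κ * δ) := mul_le_mul_of_nonneg_right al2 (by positivity)
      _ = _ := by ring
  have b3 : ‖G2 ng nh - (m ng * G1 nh + C ng nh * f)‖ ≤ κ ^ 2 * (M * N') * δ :=
    c3.trans (le_of_eq (by ring))
  have b4 : ‖m ng * (G1 nh - m nh * f)‖ ≤ K * (κ ^ 2 * (N * M') * δ) := by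
    rw [norm_mul]
    calc ‖m ng‖ * ‖G1 nh - m nh * f‖ ≤ (K * (N * κ)) * (M' * κ * δ) :=
          mul_le_mul c5 c4 (norm_nonneg _) (by positivity)
      _ = _ := by ring
  calc ‖α * (G2 nh h0 - (m nh * G1 h0 + C nh h0 * f)) +
      β * (G2 ng h0 - (m ng * G1 h0 + C ng h0 * f)) +
      (G2 ng nh - (m ng * G1 nh + C ng nh * f)) + m ng * (G1 nh - m nh * f)‖
      ≤ κ ^ 2 * (N * M') * δ + κ ^ 2 * (M * N') * δ + κ ^ 2 * (M * N') * δ +
        K * (κ ^ 2 * (N * M') * δ) :=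
        (norm_add_le _ _).trans (add_le_add ((norm_add_le _ _).trans (add_le_add
          ((norm_add_le _ _).trans (add_le_add b1 b2)) b3)) b4)
    _ ≤ _ := by
        have p1 : 0 ≤ κ ^ 2 * (N * M') * δ := by positivity
        have p2 : 0 ≤ κ ^ 2 * (M * N') * δ := by positivity
        have p3 : 0 ≤ K * (κ ^ 2 * (M * N') * δ) := by positivity
        nlinarith [p1, p2, p3]

end main

section asm

variable {y₁ y₂ a a0 : ℝ} {T T' : Type*} [MeasurableSpace T] [MeasurableSpace T'] {σ : Measure T}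
  {σ' : Measure T'}

/-- **the plus channel, integrated, two rates** -/
theorem plus_int2 {f : ℂ} {G1 m : (ℂ → ℂ) → ℂ} {G2 C : (ℂ → ℂ) → (ℂ → ℂ) → ℂ} {δ K M0 : ℝ}
    {h0 : ℂ → ℂ} {A B : T → ℂ → ℂ} {al be al0 be0 : T → ℝ}
    (hR : Rep2 y₁ y₂ a a0 σ A B al be al0 be0)
    (hL : Lev22 y₁ y₂ a a0 f G1 G2 m C δ) (hG2 : Lin2 y₁ y₂ a G2)
    (hm : Lin1 y₁ y₂ a m) (hC : Lin2 y₁ y₂ a C)
    (hK : ∀ M g, TC y₁ y₂ a0 M g → ‖m g‖ ≤ K * M) (hm0 : m h0 = 0)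
    (hh : TC y₁ y₂ a M0 h0) (hA : mass h0 ≠ 0)
    (ha0 : 0 < a0) (ha : a0 ≤ a) (h1 : y₁ < 0) (h2 : 0 < y₂) (hδ : 0 ≤ δ) (hK0 : 0 ≤ K)
    (iG : Integrable (fun s => G2 (A s) (B s)) σ)
    (i2 : Integrable (fun s => mass (A s) * mass (B s)) σ)
    (i1 : Integrable (fun s => mass (A s) * m (B s) + mass (B s) * m (A s)) σ)
    (iC : Integrable (fun s => C (A s) (B s)) σ)
    (im : Integrable (fun s => m (A s) * m (B s)) σ) {K2 : ℂ}
    (hK2 : ∫ s, mass (A s) * mass (B s) ∂σ = K2 * mass h0 ^ 2) :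
    ‖(∫ s, G2 (A s) (B s) ∂σ) - (K2 * G2 h0 h0 +
      ((∫ s, (mass (A s) * m (B s) + mass (B s) * m (A s)) ∂σ) / mass h0) * G1 h0 +
      ((∫ s, C (A s) (B s) ∂σ) - K2 * C h0 h0 + ∫ s, m (A s) * m (B s) ∂σ) * f)‖ ≤
      (3 + K) * (1 + 2 * M0 / (a0 * ‖mass h0‖)) ^ 2 *
        ((∫ s, al s * be0 s ∂σ) + ∫ s, al0 s * be s ∂σ) * δ := by
  set P2 : T → ℂ := fun s => (mass (A s) / mass h0) * (mass (B s) / mass h0) with hP2
  set P1 : T → ℂ := fun s => (mass (A s) / mass h0) * m (B s) + (mass (B s) / mass h0) * m (A s)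
    with hP1
  set P0 : T → ℂ := fun s => C (A s) (B s) -
    (mass (A s) / mass h0) * (mass (B s) / mass h0) * C h0 h0 + m (A s) * m (B s) with hP0
  have e2 : P2 = fun s => (mass h0 ^ 2)⁻¹ * (mass (A s) * mass (B s)) := by
    funext s
    simp only [hP2]
    field_simp
  have e1 : P1 = fun s => (mass h0)⁻¹ * (mass (A s) * m (B s) + mass (B s) * m (A s)) := by
    funext s
    simp only [hP1]
    field_simp
  have I2 : Integrable P2 σ := by rw [e2]; exact i2.const_mul _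
  have I1 : Integrable P1 σ := by rw [e1]; exact i1.const_mul _
  have I0' : Integrable (fun s => C (A s) (B s) - P2 s * C h0 h0) σ := iC.sub (I2.mul_const _)
  have I0 : Integrable P0 σ := I0'.add im
  have v2 : ∫ s, P2 s ∂σ = K2 := by
    rw [e2, integral_const_mul, hK2]
    field_simp
  have v1 : ∫ s, P1 s ∂σ =
      (∫ s, (mass (A s) * m (B s) + mass (B s) * m (A s)) ∂σ) / mass h0 := by
    rw [e1, integral_const_mul]
    field_simp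
  have v0 : ∫ s, P0 s ∂σ = (∫ s, C (A s) (B s) ∂σ) - K2 * C h0 h0 +
      ∫ s, m (A s) * m (B s) ∂σ := by
    have : P0 = fun s => (C (A s) (B s) - P2 s * C h0 h0) + m (A s) * m (B s) := rfl
    rw [this, integral_add I0' im, integral_sub iC (I2.mul_const _), integral_mul_const, v2]
  have j2 : Integrable (fun s => P2 s * G2 h0 h0) σ := I2.mul_const _
  have j1 : Integrable (fun s => P1 s * G1 h0) σ := I1.mul_const _
  have j0 : Integrable (fun s => P0 s * f) σ := I0.mul_const _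
  have j21 : Integrable (fun s => P2 s * G2 h0 h0 + P1 s * G1 h0) σ := j2.add j1
  have j210 : Integrable (fun s => P2 s * G2 h0 h0 + P1 s * G1 h0 + P0 s * f) σ := j21.add j0
  rw [← v2, ← v1]
  have v0' : (∫ s, C (A s) (B s) ∂σ) - (∫ s, P2 s ∂σ) * C h0 h0 +
      ∫ s, m (A s) * m (B s) ∂σ = ∫ s, P0 s ∂σ := by rw [v0, v2]
  rw [v0', ← integral_mul_const, ← integral_mul_const, ← integral_mul_const,
    ← integral_add j2 j1, ← integral_add j21 j0, ← integral_sub iG j210]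
  have hb : Integrable (fun s => (3 + K) * (1 + 2 * M0 / (a0 * ‖mass h0‖)) ^ 2 *
      (al s * be0 s + al0 s * be s) * δ) σ := ((hR.int.add hR.int0).const_mul _).mul_const _
  refine (norm_integral_le_of_norm_le hb (Eventually.of_forall fun s => ?_)).trans
    (le_of_eq ?_)
  · exact cov_pair2 hL hG2 hm hC hK hm0 (hR.tA s) (hR.tB s) (hR.tA0 s) (hR.tB0 s) hh hA ha0 ha h1 h2
      hδ hK0
  · rw [integral_mul_const, integral_const_mul, integral_add hR.int hR.int0]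

/-- **the minus channel, integrated, two rates** -/
theorem minus_int2 {f : ℂ} {H2 C : (ℂ → ℂ) → (ℂ → ℂ) → ℂ} {Hs Cs : (ℂ → ℂ) → ℂ} {Hss Css : ℂ}
    {δ : ℝ} {A B : T → ℂ → ℂ} {al be al0 be0 : T → ℝ} (hR : Rep2 y₁ y₂ a a0 σ A B al be al0 be0)
    (hL : Lev22m y₁ y₂ a a0 f H2 Hs Hss C Cs Css δ)
    (iH : Integrable (fun s => H2 (A s) (B s)) σ) (iC : Integrable (fun s => C (A s) (B s)) σ)
    {u : ℂ → ℂ} {Mu : ℝ} (hu : TC y₁ y₂ a Mu u) (J : ℂ) :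
    ‖((∫ s, H2 (A s) (B s) ∂σ) + 2 * Hs u - J / 2 * Hss) -
      ((∫ s, C (A s) (B s) ∂σ) + 2 * Cs u - J / 2 * Css) * f‖ ≤
      ((∫ s, al s * be0 s ∂σ) + 2 * Mu + ‖J‖ / 2) * δ := by
  have e : ((∫ s, H2 (A s) (B s) ∂σ) + 2 * Hs u - J / 2 * Hss) -
      ((∫ s, C (A s) (B s) ∂σ) + 2 * Cs u - J / 2 * Css) * f =
      ((∫ s, H2 (A s) (B s) ∂σ) - (∫ s, C (A s) (B s) ∂σ) * f) + 2 * (Hs u - Cs u * f) -
        J / 2 * (Hss - Css * f) := by ring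
  rw [e]
  have b1 : ‖(∫ s, H2 (A s) (B s) ∂σ) - (∫ s, C (A s) (B s) ∂σ) * f‖ ≤
      (∫ s, al s * be0 s ∂σ) * δ := by
    rw [← integral_mul_const, ← integral_sub iH (iC.mul_const _), ← integral_mul_const]
    refine norm_integral_le_of_norm_le (hR.int.mul_const _) (Eventually.of_forall fun s => ?_)
    exact hL.cov _ _ _ _ (hR.tA s) (hR.tB0 s)
  have b2 : ‖2 * (Hs u - Cs u * f)‖ ≤ 2 * (Mu * δ) := by
    rw [norm_mul]
    have : ‖(2 : ℂ)‖ = 2 := by simp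
    rw [this]
    exact mul_le_mul_of_nonneg_left (hL.covs _ _ hu) (by norm_num)
  have b3 : ‖J / 2 * (Hss - Css * f)‖ ≤ ‖J‖ / 2 * δ := by
    rw [norm_mul, norm_div]
    have : ‖(2 : ℂ)‖ = 2 := by simp
    rw [this]
    exact mul_le_mul_of_nonneg_left hL.covss (by positivity)
  calc ‖((∫ s, H2 (A s) (B s) ∂σ) - (∫ s, C (A s) (B s) ∂σ) * f) + 2 * (Hs u - Cs u * f) -
        J / 2 * (Hss - Css * f)‖ ≤ (∫ s, al s * be0 s ∂σ) * δ + 2 * (Mu * δ) + ‖J‖ / 2 * δ :=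
        (norm_sub_le _ _).trans (add_le_add ((norm_add_le _ _).trans (add_le_add b1 b2)) b3)
    _ = _ := by ring

/-- **`(E')` with two rates**.  Same reading as `E_prime`. -/
theorem E_prime2 {f fη fτ fττ : ℂ} {G1 m : (ℂ → ℂ) → ℂ} {G2 C H2 Cm : (ℂ → ℂ) → (ℂ → ℂ) → ℂ}
    {Hs Cs : (ℂ → ℂ) → ℂ} {Hss Css J : ℂ} {δ δ0 K M0 M2 Mq Mu : ℝ}
    {h0 g2 q u : ℂ → ℂ} {A B : T → ℂ → ℂ} {al be al0 be0 : T → ℝ} {A' B' : T' → ℂ → ℂ}
    {al' be' al0' be0' : T' → ℝ}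
    (ha0 : 0 < a0) (ha : a0 ≤ a) (h1 : y₁ < 0) (h2 : 0 < y₂) (hδ : 0 ≤ δ) (hK0 : 0 ≤ K)
    -- the product representations of the two kernels
    (hR : Rep2 y₁ y₂ a a0 σ A B al be al0 be0) (hR' : Rep2 y₁ y₂ a a0 σ' A' B' al' be' al0' be0')
    -- level two
    (hL : Lev22 y₁ y₂ a a0 f G1 G2 m C δ) (hL' : Lev22m y₁ y₂ a a0 f H2 Hs Hss Cm Cs Css δ)
    (hG1 : Lin1 y₁ y₂ a G1) (hG2 : Lin2 y₁ y₂ a G2) (hm : Lin1 y₁ y₂ a m) (hC : Lin2 y₁ y₂ a C)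
    (hK : ∀ M g, TC y₁ y₂ a0 M g → ‖m g‖ ≤ K * M) (hm0 : m h0 = 0)
    -- test functions of the legs and of the field
    (hh : TC y₁ y₂ a M0 h0) (hA : mass h0 ≠ 0) (hg2 : TC y₁ y₂ a M2 g2) (hg20 : mass g2 = 0)
    (hq : TC y₁ y₂ a Mq q) (hu : TC y₁ y₂ a Mu u)
    -- integrability
    (iG : Integrable (fun s => G2 (A s) (B s)) σ)
    (i2 : Integrable (fun s => mass (A s) * mass (B s)) σ)
    (i1 : Integrable (fun s => mass (A s) * m (B s) + mass (B s) * m (A s)) σ)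
    (iC : Integrable (fun s => C (A s) (B s)) σ)
    (im : Integrable (fun s => m (A s) * m (B s)) σ)
    (iH : Integrable (fun s => H2 (A' s) (B' s)) σ')
    (iC' : Integrable (fun s => Cm (A' s) (B' s)) σ')
    -- the first Ward identity
    (hI : ‖fη - ((∫ s, G2 (A s) (B s) ∂σ) +
      ((∫ s, H2 (A' s) (B' s) ∂σ') + 2 * Hs u - J / 2 * Hss) + G1 q)‖ ≤ δ0)
    -- the derivatives in the height of the legs
    (hτ : ‖G1 h0 + fτ‖ ≤ δ) (hττ : ‖G2 h0 h0 + G1 g2 - fττ‖ ≤ δ)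
    -- the values
    {K2 L : ℂ} (hK2 : ∫ s, mass (A s) * mass (B s) ∂σ = K2 * mass h0 ^ 2)
    (hK1 : (∫ s, (mass (A s) * m (B s) + mass (B s) * m (A s)) ∂σ) + mass q = L * mass h0)
    (hV : (∫ s, C (A s) (B s) ∂σ) + (∫ s, m (A s) * m (B s) ∂σ) + m q -
      K2 * (C h0 h0 + m g2) + ((∫ s, Cm (A' s) (B' s) ∂σ') + 2 * Cs u - J / 2 * Css) = 0) :
    ‖fη - (K2 * fττ - L * fτ)‖ ≤ δ0 +
      ((3 + K) * (1 + 2 * M0 / (a0 * ‖mass h0‖)) ^ 2 *
          ((∫ s, al s * be0 s ∂σ) + ∫ s, al0 s * be s ∂σ) +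
        ((∫ s, al' s * be0' s ∂σ') + 2 * Mu + ‖J‖ / 2) +
        Mq * (1 + 2 * M0 / (a * ‖mass h0‖)) + ‖L‖ + ‖K2‖ * (1 + M2)) * δ := by
  have hapos : 0 < a := lt_of_lt_of_le ha0 ha
  have hp := plus_int2 hR hL hG2 hm hC hK hm0 hh hA ha0 ha h1 h2 hδ hK0 iG i2 i1 iC im hK2
  have hn := minus_int2 hR' hL' iH iC' hu J
  have nq := ntr_TC hq hh hapos h1 h2
  have zq := mass_ntr hq hh hapos h1 h2 hA
  have hLn : ‖G1 q - ((mass q / mass h0) * G1 h0 + m q * f)‖ ≤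
      Mq * (1 + 2 * M0 / (a * ‖mass h0‖)) * δ := by
    rw [hG1.split hq hh hapos h1 h2, hm.split hq hh hapos h1 h2, hm0]
    have := hL.mean _ _ nq zq
    calc _ = ‖G1 (ntr h0 q) - m (ntr h0 q) * f‖ := by
          congr 1
          ring
      _ ≤ _ := this
  have hX2 : ‖G2 h0 h0 - (fττ - m g2 * f)‖ ≤ (1 + M2) * δ := by
    have h3 := hL.mean _ _ hg2 hg20
    have e : G2 h0 h0 - (fττ - m g2 * f) = (G2 h0 h0 + G1 g2 - fττ) - (G1 g2 - m g2 * f) := by ring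
    rw [e]
    refine (norm_sub_le _ _).trans ?_
    linarith
  have key := PBFunc.E_asm (f := f) (fη := fη) (fτ := fτ) (fττ := fττ) (X1 := G1 h0)
    (X2 := G2 h0 h0) (G := m g2) hI hp hn hLn hτ hX2 (by linear_combination hV)
  have hL' : (∫ s, (mass (A s) * m (B s) + mass (B s) * m (A s)) ∂σ) / mass h0 +
      mass q / mass h0 = L := by
    rw [← add_div, hK1]
    field_simp
  rw [hL'] at key
  refine key.trans (le_of_eq ?_)
  ring

end asm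

end PBE
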