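import Pool.Agent.PB.Fin

/-!
# Plan B: the end, two geometries

Mixtures of rows `0^a (l/2)^b (-l/2)^b'`, `b' = b` or `b = b' + 1`. One row more changes `g` by
`O(|mu|^{-(1+c)})` (section 6 (R) of nu34/PB): all mixtures have the same limit `g_oo`
(`PBE.mix_limit`). With the transfers `W1 k = κ g(mu1 k) + O(k^{-c})` (rows `± l/2`, `k` odd, a
priori bound) and `W2 k = κ g(mu2 k) + O(k^{-c})` (rows `0`, link), the same `κ`: both functions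
converge to the same positive limit (`PBE.end_two`).
-/

set_option linter.unusedSectionVars false
set_option linter.unusedVariables false

open Set Filter Topology

noncomputable section

namespace PBE

open PBF

variable {E : Type*} [NormedAddCommGroup E]

/-- number of rows of a mixture -/
def sz (m : ℕ × ℕ × ℕ) : ℕ := m.1 + m.2.1 + m.2.2

/-- admissible mixtures -/
def Adm (m : ℕ × ℕ × ℕ) : Prop := m.2.1 = m.2.2 ∨ m.2.1 = m.2.2 + 1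

/-- **The steps**: one row `0` more; one row `± l/2` more, from `b = b'` to `b = b' + 1` and from
`b = b' + 1` to `b = b'`. -/
structure Steps (g : ℕ × ℕ × ℕ → E) (C c : ℝ) (N₀ : ℕ) : Prop where
  zero : ∀ m : ℕ × ℕ × ℕ, Adm m → N₀ ≤ sz m →
    ‖g (m.1 + 1, m.2.1, m.2.2) - g m‖ ≤ C * (sz m : ℝ) ^ (-(1 + c))
  plus : ∀ a b : ℕ, N₀ ≤ sz (a, b, b) →
    ‖g (a, b + 1, b) - g (a, b, b)‖ ≤ C * (sz (a, b, b) : ℝ) ^ (-(1 + c))
  minus : ∀ a b : ℕ, N₀ ≤ sz (a, b + 1, b) →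
    ‖g (a, b + 1, b + 1) - g (a, b + 1, b)‖ ≤ C * (sz (a, b + 1, b) : ℝ) ^ (-(1 + c))

lemma rpow_half {x y e : ℝ} (hx : 0 < x) (hxy : x ≤ 2 * y) (he : 0 ≤ e) :
    y ^ (-e) ≤ 2 ^ e * x ^ (-e) := by
  have hy : 0 < y := by linarith
  have h1 : (2 * y) ^ (-e) ≤ x ^ (-e) := Real.rpow_le_rpow_of_nonpos hx hxy (by linarith)
  rw [Real.mul_rpow (by norm_num) hy.le] at h1
  have h2 : (2 : ℝ) ^ e * 2 ^ (-e) = 1 := by
    rw [← Real.rpow_add (by norm_num)]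
    simp
  have h3 : (0 : ℝ) < 2 ^ e := Real.rpow_pos_of_pos (by norm_num) _
  calc y ^ (-e) = 2 ^ e * (2 ^ (-e) * y ^ (-e)) := by rw [← mul_assoc, h2, one_mul]
    _ ≤ 2 ^ e * x ^ (-e) := mul_le_mul_of_nonneg_left h1 h3.le

/-- one pair `(l/2, -l/2)` replaced by two rows `0` -/
lemma exch {g : ℕ × ℕ × ℕ → E} {C c : ℝ} {N₀ : ℕ} (h : Steps g C c N₀) (hC : 0 ≤ C) (hc : 0 < c)
    {a b : ℕ} (hN : N₀ + 4 ≤ sz (a, b + 1, b + 1)) :
    ‖g (a, b + 1, b + 1) - g (a + 2, b, b)‖ ≤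
      4 * (C * (2 ^ (1 + c) * (sz (a, b + 1, b + 1) : ℝ) ^ (-(1 + c)))) := by
  simp only [sz] at hN
  set n : ℕ := a + (b + 1) + (b + 1) with hn
  have hn4 : 4 ≤ n := by omega
  have hnR : (4 : ℝ) ≤ (n : ℝ) := by exact_mod_cast hn4
  have key : ∀ y : ℕ, n ≤ 2 * y → C * (y : ℝ) ^ (-(1 + c)) ≤
      C * (2 ^ (1 + c) * (n : ℝ) ^ (-(1 + c))) := by
    intro y hy
    apply mul_le_mul_of_nonneg_left _ hC
    apply rpow_half (by linarith) _ (by linarith)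
    exact_mod_cast hy
  have h1 := (h.minus a b (by simp only [sz]; omega)).trans (key _ (by simp only [sz]; omega))
  have h2 := (h.plus a b (by simp only [sz]; omega)).trans (key _ (by simp only [sz]; omega))
  have h3 := (h.zero (a, b, b) (Or.inl rfl) (by simp only [sz]; omega)).trans
    (key _ (by simp only [sz]; omega))
  have h4 := (h.zero (a + 1, b, b) (Or.inl rfl) (by simp only [sz]; omega)).trans
    (key _ (by simp only [sz]; omega))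
  simp only at h3 h4
  have e : g (a, b + 1, b + 1) - g (a + 2, b, b) =
      (g (a, b + 1, b + 1) - g (a, b + 1, b)) + (g (a, b + 1, b) - g (a, b, b)) -
      (g (a + 1, b, b) - g (a, b, b)) - (g (a + 1 + 1, b, b) - g (a + 1, b, b)) := by
    have e0 : a + 2 = a + 1 + 1 := by ring
    rw [e0]
    abel
  rw [e]
  have hs : sz (a, b + 1, b + 1) = n := rfl
  rw [hs]
  calc _ ≤ ‖(g (a, b + 1, b + 1) - g (a, b + 1, b)) + (g (a, b + 1, b) - g (a, b, b)) -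
        (g (a + 1, b, b) - g (a, b, b))‖ + ‖g (a + 1 + 1, b, b) - g (a + 1, b, b)‖ :=
        norm_sub_le _ _
    _ ≤ (‖(g (a, b + 1, b + 1) - g (a, b + 1, b)) + (g (a, b + 1, b) - g (a, b, b))‖ +
        ‖g (a + 1, b, b) - g (a, b, b)‖) + ‖g (a + 1 + 1, b, b) - g (a + 1, b, b)‖ :=
        add_le_add_left (norm_sub_le _ _) _
    _ ≤ ((‖g (a, b + 1, b + 1) - g (a, b + 1, b)‖ + ‖g (a, b + 1, b) - g (a, b, b)‖) +
        ‖g (a + 1, b, b) - g (a, b, b)‖) + ‖g (a + 1 + 1, b, b) - g (a + 1, b, b)‖ :=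
        add_le_add_left (add_le_add_left (norm_add_le _ _) _) _
    _ ≤ _ := by linarith

/-- from a balanced mixture to rows `0` only -/
lemma to_zero {g : ℕ × ℕ × ℕ → E} {C c : ℝ} {N₀ : ℕ} (h : Steps g C c N₀) (hC : 0 ≤ C) (hc : 0 < c)
    {n : ℕ} (hN : N₀ + 4 ≤ n) : ∀ b a : ℕ, a + 2 * b = n →
    ‖g (a, b, b) - g (n, 0, 0)‖ ≤ b * (4 * (C * (2 ^ (1 + c) * (n : ℝ) ^ (-(1 + c))))) := by
  intro b
  induction b with
  | zero =>
    intro a ha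
    have : a = n := by omega
    subst this
    simp
  | succ b ih =>
    intro a ha
    have h1 := ih (a + 2) (by omega)
    have hs : sz (a, b + 1, b + 1) = n := by simp only [sz]; omega
    have h2 := exch h hC hc (a := a) (b := b) (by rw [hs]; exact hN)
    rw [hs] at h2
    have e : g (a, b + 1, b + 1) - g (n, 0, 0) =
        (g (a, b + 1, b + 1) - g (a + 2, b, b)) + (g (a + 2, b, b) - g (n, 0, 0)) := by abel
    rw [e]
    push_cast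
    calc _ ≤ ‖g (a, b + 1, b + 1) - g (a + 2, b, b)‖ + ‖g (a + 2, b, b) - g (n, 0, 0)‖ :=
          norm_add_le _ _
      _ ≤ _ := by linarith

/-- **All mixtures have the same limit.** -/
theorem mix_limit [CompleteSpace E] {g : ℕ × ℕ × ℕ → E} {C c : ℝ} {N₀ : ℕ} (h : Steps g C c N₀)
    (hc : 0 < c) : ∃ (L : E) (C' : ℝ) (N₁ : ℕ), 0 ≤ C' ∧ ∀ m : ℕ × ℕ × ℕ, Adm m → N₁ ≤ sz m →
      ‖g m - L‖ ≤ C' * (sz m : ℝ) ^ (-c) := by
  -- the constant is nonnegative, without loss of generality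
  have h' : Steps g |C| c N₀ := by
    have hle : ∀ y : ℕ, C * (y : ℝ) ^ (-(1 + c)) ≤ |C| * (y : ℝ) ^ (-(1 + c)) := fun y =>
      mul_le_mul_of_nonneg_right (le_abs_self C) (Real.rpow_nonneg (Nat.cast_nonneg _) _)
    exact ⟨fun m hm hN => (h.zero m hm hN).trans (hle _), fun a b hN => (h.plus a b hN).trans (hle _),
      fun a b hN => (h.minus a b hN).trans (hle _)⟩
  have hC : 0 ≤ |C| := abs_nonneg C
  -- rows `0` only
  have hst : ∀ᶠ N : ℕ in atTop, ‖g (N + 1, 0, 0) - g (N, 0, 0)‖ ≤ |C| * (N : ℝ) ^ (-(1 + c)) := by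
    filter_upwards [eventually_ge_atTop N₀] with N hN
    have := h'.zero (N, 0, 0) (Or.inl rfl) (by simp only [sz]; omega)
    simpa [sz] using this
  obtain ⟨L, hL, C₁, hC₁, hrate⟩ := tendsto_of_step (G := fun N => g (N, 0, 0)) hc hst
  obtain ⟨N₂, hN₂⟩ := eventually_atTop.1 hrate
  refine ⟨L, C₁ + 2 * (|C| * 2 ^ (1 + c)) + (C₁ + 2 * (|C| * 2 ^ (1 + c))) * 2 ^ c +
    |C| * 2 ^ (1 + c), N₀ + N₂ + 8, by positivity, ?_⟩
  -- balanced mixtures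
  have hbal : ∀ a b : ℕ, N₀ + N₂ + 4 ≤ a + 2 * b → ‖g (a, b, b) - L‖ ≤
      (C₁ + 2 * (|C| * 2 ^ (1 + c))) * ((a + 2 * b : ℕ) : ℝ) ^ (-c) := by
    intro a b hab
    set n : ℕ := a + 2 * b with hn
    have hn4 : 4 ≤ n := by omega
    have hn0 : (0 : ℝ) < n := by
      have : (4 : ℝ) ≤ n := by exact_mod_cast hn4
      linarith
    have e1 := to_zero h' hC hc (n := n) (by omega) b a hn.symm
    have e2 := hN₂ n (by omega)
    have e3 : (n : ℝ) * (n : ℝ) ^ (-(1 + c)) = (n : ℝ) ^ (-c) := by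
      have e : (n : ℝ) ^ (-c) = (n : ℝ) ^ ((1 : ℝ) + -(1 + c)) := by ring_nf
      rw [e, Real.rpow_add hn0, Real.rpow_one]
    have e4 : (b : ℝ) * (4 * (|C| * (2 ^ (1 + c) * (n : ℝ) ^ (-(1 + c))))) ≤
        2 * (|C| * 2 ^ (1 + c)) * (n : ℝ) ^ (-c) := by
      rw [← e3]
      have e5 : 2 * (b : ℝ) ≤ n := by exact_mod_cast (by omega : 2 * b ≤ n)
      have e6 : 0 ≤ |C| * 2 ^ (1 + c) * (n : ℝ) ^ (-(1 + c)) := by positivity
      nlinarith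
    have e7 : g (a, b, b) - L = (g (a, b, b) - g (n, 0, 0)) + (g (n, 0, 0) - L) := by abel
    rw [e7]
    calc _ ≤ ‖g (a, b, b) - g (n, 0, 0)‖ + ‖g (n, 0, 0) - L‖ := norm_add_le _ _
      _ ≤ _ := by linarith
  intro m hm hN
  obtain ⟨a, b, b'⟩ := m
  simp only [sz] at hN
  have hn0 : (0 : ℝ) < ((a + b + b' : ℕ) : ℝ) := by
    have : 0 < a + b + b' := by omega
    exact_mod_cast this
  have hpos : 0 ≤ ((a + b + b' : ℕ) : ℝ) ^ (-c) := Real.rpow_nonneg hn0.le _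
  rcases hm with hm | hm
  · simp only at hm
    subst hm
    have e1 := hbal a b (by omega)
    have e2 : a + 2 * b = a + b + b := by ring
    rw [e2] at e1
    have e3 : sz (a, b, b) = a + b + b := rfl
    rw [e3]
    refine e1.trans (mul_le_mul_of_nonneg_right ?_ hpos)
    have : 0 ≤ (C₁ + 2 * (|C| * 2 ^ (1 + c))) * 2 ^ c + |C| * 2 ^ (1 + c) := by positivity
    linarith
  · simp only at hm
    subst hm
    have e1 := hbal a b' (by omega)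
    have e2 := h'.plus a b' (by simp only [sz]; omega)
    have e3 : sz (a, b' + 1, b') = a + (b' + 1) + b' := rfl
    rw [e3]
    set n : ℕ := a + (b' + 1) + b' with hn
    have e4 : ((a + 2 * b' : ℕ) : ℝ) ^ (-c) ≤ 2 ^ c * (n : ℝ) ^ (-c) := by
      apply rpow_half hn0 _ hc.le
      exact_mod_cast (by omega : n ≤ 2 * (a + 2 * b'))
    have e5 : (sz (a, b', b') : ℝ) ^ (-(1 + c)) ≤ 2 ^ (1 + c) * (n : ℝ) ^ (-(1 + c)) := by
      apply rpow_half hn0 _ (by linarith)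
      have : n ≤ 2 * sz (a, b', b') := by simp only [sz]; omega
      exact_mod_cast this
    have e6 : (n : ℝ) ^ (-(1 + c)) ≤ (n : ℝ) ^ (-c) := by
      apply Real.rpow_le_rpow_of_exponent_le _ (by linarith)
      exact_mod_cast (by omega : 1 ≤ n)
    have e7 : g (a, b' + 1, b') - L = (g (a, b' + 1, b') - g (a, b', b')) + (g (a, b', b') - L) := by
      abel
    rw [e7]
    have hp2 : (0 : ℝ) ≤ 2 ^ (1 + c) := by positivity
    have hp3 : (0 : ℝ) ≤ 2 ^ c := by positivity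
    have hnn : 0 ≤ (n : ℝ) ^ (-(1 + c)) := Real.rpow_nonneg hn0.le _
    have f1 : ‖g (a, b' + 1, b') - g (a, b', b')‖ ≤ |C| * 2 ^ (1 + c) * (n : ℝ) ^ (-c) := by
      refine e2.trans ?_
      calc |C| * (sz (a, b', b') : ℝ) ^ (-(1 + c)) ≤ |C| * (2 ^ (1 + c) * (n : ℝ) ^ (-(1 + c))) :=
            mul_le_mul_of_nonneg_left e5 hC
        _ ≤ |C| * (2 ^ (1 + c) * (n : ℝ) ^ (-c)) :=
            mul_le_mul_of_nonneg_left (mul_le_mul_of_nonneg_left e6 hp2) hC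
        _ = _ := by ring
    have f2 : ‖g (a, b', b') - L‖ ≤ (C₁ + 2 * (|C| * 2 ^ (1 + c))) * 2 ^ c * (n : ℝ) ^ (-c) := by
      refine e1.trans ?_
      calc _ ≤ (C₁ + 2 * (|C| * 2 ^ (1 + c))) * (2 ^ c * (n : ℝ) ^ (-c)) :=
            mul_le_mul_of_nonneg_left e4 (by positivity)
        _ = _ := by ring
    have f3 : 0 ≤ (C₁ + 2 * (|C| * 2 ^ (1 + c))) * (n : ℝ) ^ (-c) := by positivity
    calc _ ≤ ‖g (a, b' + 1, b') - g (a, b', b')‖ + ‖g (a, b', b') - L‖ := norm_add_le _ _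
      _ ≤ |C| * 2 ^ (1 + c) * (n : ℝ) ^ (-c) +
          (C₁ + 2 * (|C| * 2 ^ (1 + c))) * 2 ^ c * (n : ℝ) ^ (-c) := add_le_add f1 f2
      _ ≤ _ := by nlinarith

/-! ## The two geometries -/

/-- transfer: `W k = κ g (mu k) + O(k^{-c})` gives `W k = κ L + O(k^{-c})` -/
theorem trans_limit {F : Filter ℕ} (hF : F ≤ atTop) {g : ℕ × ℕ × ℕ → ℂ} {L κ : ℂ} {C' c : ℝ} {N₁ : ℕ}
    (hc : 0 < c) (hC' : 0 ≤ C')
    (hg : ∀ m : ℕ × ℕ × ℕ, Adm m → N₁ ≤ sz m → ‖g m - L‖ ≤ C' * (sz m : ℝ) ^ (-c))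
    {mu : ℕ → ℕ × ℕ × ℕ} (hadm : ∀ᶠ k in F, Adm (mu k)) (hsz : ∀ᶠ k in F, k ≤ 2 * sz (mu k))
    {W : ℕ → ℂ} (hW : ∃ C : ℝ, ∀ᶠ k in F, ‖W k - κ * g (mu k)‖ ≤ C * (k : ℝ) ^ (-c)) :
    ∃ C : ℝ, ∀ᶠ k in F, ‖W k - κ * L‖ ≤ C * (k : ℝ) ^ (-c) := by
  obtain ⟨C, hC⟩ := hW
  refine ⟨|C| + ‖κ‖ * (C' * 2 ^ c), ?_⟩
  have h1 : ∀ᶠ k in F, 2 * N₁ + 1 ≤ k := hF (eventually_ge_atTop _)
  filter_upwards [hC, hadm, hsz, h1] with k e1 e2 e3 e4
  have hk0 : (0 : ℝ) < k := by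
    have : 0 < k := by omega
    exact_mod_cast this
  have e5 := hg (mu k) e2 (by omega)
  have e6 : (sz (mu k) : ℝ) ^ (-c) ≤ 2 ^ c * (k : ℝ) ^ (-c) := by
    apply rpow_half hk0 _ hc.le
    exact_mod_cast e3
  have hp : 0 ≤ (k : ℝ) ^ (-c) := Real.rpow_nonneg hk0.le _
  have e7 : W k - κ * L = (W k - κ * g (mu k)) + κ * (g (mu k) - L) := by ring
  rw [e7]
  calc _ ≤ ‖W k - κ * g (mu k)‖ + ‖κ * (g (mu k) - L)‖ := norm_add_le _ _
    _ ≤ |C| * (k : ℝ) ^ (-c) + ‖κ‖ * (C' * (2 ^ c * (k : ℝ) ^ (-c))) := by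
        rw [norm_mul]
        apply add_le_add
        · exact e1.trans (mul_le_mul_of_nonneg_right (le_abs_self C) hp)
        · apply mul_le_mul_of_nonneg_left _ (norm_nonneg _)
          exact e5.trans (mul_le_mul_of_nonneg_left e6 hC')
    _ = _ := by ring

/-- **The end.** `W1` (rows `± l/2`, along the filter `F1`, e.g. odd `k`) and `W2` (rows `0`, along
`F2`) are real, both are `κ g + O(k^{-c})` with the same `κ`, and `W1 k ≥ A k^{-a}` infinitely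
often, `a < c`. Then there is `L > 0` with `W1 → L`, `W2 → L`, at the rate `k^{-c}`. -/
theorem end_two {g : ℕ × ℕ × ℕ → ℂ} {C₀ c : ℝ} {N₀ : ℕ} (h : Steps g C₀ c N₀) (hc : 0 < c)
    {F1 F2 : Filter ℕ} (hF1 : F1 ≤ atTop) (hF2 : F2 ≤ atTop) [F2.NeBot] {κ : ℂ}
    {mu1 mu2 : ℕ → ℕ × ℕ × ℕ} (ha1 : ∀ᶠ k in F1, Adm (mu1 k)) (ha2 : ∀ᶠ k in F2, Adm (mu2 k))
    (hs1 : ∀ᶠ k in F1, k ≤ 2 * sz (mu1 k)) (hs2 : ∀ᶠ k in F2, k ≤ 2 * sz (mu2 k))
    {W1 W2 : ℕ → ℝ}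
    (h1 : ∃ C : ℝ, ∀ᶠ k in F1, ‖(W1 k : ℂ) - κ * g (mu1 k)‖ ≤ C * (k : ℝ) ^ (-c))
    (h2 : ∃ C : ℝ, ∀ᶠ k in F2, ‖(W2 k : ℂ) - κ * g (mu2 k)‖ ≤ C * (k : ℝ) ^ (-c))
    {a A : ℝ} (hac : a < c) (hA : 0 < A) (hlow : ∃ᶠ k : ℕ in F1, A * (k : ℝ) ^ (-a) ≤ W1 k) :
    ∃ L : ℝ, 0 < L ∧ Tendsto W1 F1 (𝓝 L) ∧ Tendsto W2 F2 (𝓝 L) ∧
      (∃ C : ℝ, ∀ᶠ k in F1, |W1 k - L| ≤ C * (k : ℝ) ^ (-c)) ∧
      (∃ C : ℝ, ∀ᶠ k in F2, |W2 k - L| ≤ C * (k : ℝ) ^ (-c)) ∧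
      (∀ᶠ k in F1, L / 2 ≤ W1 k) ∧ ∀ᶠ k in F2, L / 2 ≤ W2 k := by
  obtain ⟨g₀, C', N₁, hC', hg⟩ := mix_limit h hc
  obtain ⟨C₁, hC₁⟩ := trans_limit hF1 hc hC' hg ha1 hs1 h1
  obtain ⟨C₂, hC₂⟩ := trans_limit hF2 hc hC' hg ha2 hs2 h2
  have hz : ∀ {F : Filter ℕ}, F ≤ atTop → ∀ C : ℝ, Tendsto (fun k : ℕ => C * (k : ℝ) ^ (-c)) F (𝓝 0) := by
    intro F hF C
    have e : Tendsto (fun N : ℕ => (N : ℝ) ^ (-c)) atTop (𝓝 0) :=
      (tendsto_rpow_neg_atTop hc).comp tendsto_natCast_atTop_atTop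
    have := (e.mono_left hF).const_mul C
    simpa using this
  -- the limit is the real number `(κ g₀).re`
  set L : ℝ := (κ * g₀).re with hL
  have hre : ∀ (x : ℝ) (B : ℝ), ‖(x : ℂ) - κ * g₀‖ ≤ B → |x - L| ≤ B := by
    intro x B hB
    have := Complex.abs_re_le_norm ((x : ℂ) - κ * g₀)
    simp only [Complex.sub_re, Complex.ofReal_re] at this
    exact this.trans hB
  have hW1 : ∀ᶠ k in F1, |W1 k - L| ≤ C₁ * (k : ℝ) ^ (-c) := hC₁.mono fun k hk => hre _ _ hk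
  have hW2 : ∀ᶠ k in F2, |W2 k - L| ≤ C₂ * (k : ℝ) ^ (-c) := hC₂.mono fun k hk => hre _ _ hk
  have ht : ∀ {F : Filter ℕ} (hF : F ≤ atTop) {W : ℕ → ℝ} {C : ℝ},
      (∀ᶠ k in F, |W k - L| ≤ C * (k : ℝ) ^ (-c)) → Tendsto W F (𝓝 L) := by
    intro F hF W C hW
    rw [tendsto_iff_norm_sub_tendsto_zero]
    exact squeeze_zero' (Eventually.of_forall fun k => norm_nonneg _) hW (hz hF C)
  have ht1 := ht hF1 hW1
  have ht2 := ht hF2 hW2
  -- positivity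
  have hpos : 0 < L := by
    by_contra hcon
    push Not at hcon
    have e1 : Tendsto (fun N : ℕ => (N : ℝ) ^ (c - a)) atTop atTop :=
      (tendsto_rpow_atTop (by linarith)).comp tendsto_natCast_atTop_atTop
    have e2 : ∀ᶠ k : ℕ in F1, |C₁| / A < (k : ℝ) ^ (c - a) := hF1 (e1.eventually_gt_atTop _)
    have e3 : ∀ᶠ k in F1, 1 ≤ k := hF1 (eventually_ge_atTop 1)
    obtain ⟨k, f1, f2, f3, f4⟩ := (hlow.and_eventually (hW1.and (e2.and e3))).exists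
    have hk0 : (0 : ℝ) < k := by
      have : (1 : ℝ) ≤ (k : ℝ) := by exact_mod_cast f4
      linarith
    have hp : 0 < (k : ℝ) ^ (-c) := Real.rpow_pos_of_pos hk0 _
    have e4 : (k : ℝ) ^ (-a) = (k : ℝ) ^ (c - a) * (k : ℝ) ^ (-c) := by
      rw [← Real.rpow_add hk0]; ring_nf
    have e5 : A * (k : ℝ) ^ (-a) ≤ |C₁| * (k : ℝ) ^ (-c) := by
      have g1 := (abs_le.1 f2).2
      have g2 : C₁ * (k : ℝ) ^ (-c) ≤ |C₁| * (k : ℝ) ^ (-c) :=
        mul_le_mul_of_nonneg_right (le_abs_self _) hp.le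
      linarith
    rw [e4, ← mul_assoc] at e5
    have e6 : A * (k : ℝ) ^ (c - a) ≤ |C₁| := le_of_mul_le_mul_right e5 hp
    rw [div_lt_iff₀ hA] at f3
    linarith
  refine ⟨L, hpos, ht1, ht2, ⟨C₁, hW1⟩, ⟨C₂, hW2⟩, ?_, ?_⟩
  · exact (ht1.eventually (lt_mem_nhds (by linarith : L / 2 < L))).mono fun N hN => hN.le
  · exact (ht2.eventually (lt_mem_nhds (by linarith : L / 2 < L))).mono fun N hN => hN.le

end PBE
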