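import Pool.Agent.PB.Fin

/-!
# Plan B, end of the argument in one geometry (rows at `0`)

`X k` is the normaliser (`2^{2k(2k-1)} B(0^{2k})^2 / bulk`), `W0 k` the physical two point function,
`g k` the value of the normalised function (`g_0 (0^{k-1})`), `κ` the constant of (TR), any complex
number.

* `PBE.end_lim`: (TR) with error `k^{-c}`, `g k -> G` with rate `k^{-c}`, a priori bound `k^{-a}`,
  `a < c`, for infinitely many `k`: the real sequence converges to `Re (κ G) > 0`, with rate;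
* `PBE.end_one`: with the two sided bound `k^{5/24 ± ε}` of the normaliser and the a priori bound
  `k^{-7/12-ε}`, `c > 3/8`: `W0 k >= A k^{-5/24-ε}` for EVERY large `k`, and `X k * W0 k` has a
  positive limit.
-/

set_option linter.unusedSectionVars false
set_option linter.unusedVariables false

open Set Filter Topology

noncomputable section

namespace PBE

/-- a constant times `k^{-c}` is eventually below `δ * k^{-a}`, `a < c` -/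
lemma ev_small {C δ a c : ℝ} (hac : a < c) (hδ : 0 < δ) :
    ∀ᶠ k : ℕ in atTop, C * (k : ℝ) ^ (-c) ≤ δ * (k : ℝ) ^ (-a) := by
  have h1 : Tendsto (fun N : ℕ => (N : ℝ) ^ (c - a)) atTop atTop :=
    (tendsto_rpow_atTop (by linarith)).comp tendsto_natCast_atTop_atTop
  have h2 : ∀ᶠ N : ℕ in atTop, C / δ ≤ (N : ℝ) ^ (c - a) := h1.eventually_ge_atTop _
  filter_upwards [h2, eventually_ge_atTop 1] with N h3 h4
  have hN0 : (0 : ℝ) < N := by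
    have : (1 : ℝ) ≤ (N : ℝ) := by exact_mod_cast h4
    linarith
  have h8 : 0 < (N : ℝ) ^ (-c) := Real.rpow_pos_of_pos hN0 _
  have h7 : (N : ℝ) ^ (-a) = (N : ℝ) ^ (c - a) * (N : ℝ) ^ (-c) := by
    rw [← Real.rpow_add hN0]; ring_nf
  rw [div_le_iff₀ hδ] at h3
  rw [h7, ← mul_assoc]
  exact mul_le_mul_of_nonneg_right (by linarith) h8.le

/-- **the limit.** -/
theorem end_lim {Y : ℕ → ℝ} {g : ℕ → ℂ} {κ G : ℂ} {c a A C C' : ℝ} (hc : 0 < c) (hac : a < c)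
    (hA : 0 < A)
    (hg : ∀ᶠ k : ℕ in atTop, ‖g k - G‖ ≤ C * (k : ℝ) ^ (-c))
    (hTR : ∀ᶠ k : ℕ in atTop, ‖(Y k : ℂ) - κ * g k‖ ≤ C' * (k : ℝ) ^ (-c))
    (hlow : ∃ᶠ k : ℕ in atTop, A * (k : ℝ) ^ (-a) ≤ Y k) :
    ∃ L : ℝ, 0 < L ∧ (L : ℂ) = κ * G ∧ Tendsto Y atTop (𝓝 L) ∧
      (∃ B : ℝ, 0 ≤ B ∧ ∀ᶠ k : ℕ in atTop, |Y k - L| ≤ B * (k : ℝ) ^ (-c)) ∧
      ∀ᶠ k : ℕ in atTop, L / 2 ≤ Y k := by
  have hlim0 : Tendsto (fun N : ℕ => (N : ℝ) ^ (-c)) atTop (𝓝 0) :=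
    (tendsto_rpow_neg_atTop hc).comp tendsto_natCast_atTop_atTop
  have hZ : ∀ᶠ k : ℕ in atTop, ‖(Y k : ℂ) - κ * G‖ ≤ (|C'| + ‖κ‖ * |C|) * (k : ℝ) ^ (-c) := by
    filter_upwards [hg, hTR, eventually_ge_atTop 1] with k h1 h2 h3
    have h4 : 0 ≤ (k : ℝ) ^ (-c) := Real.rpow_nonneg (Nat.cast_nonneg _) _
    have e : (Y k : ℂ) - κ * G = ((Y k : ℂ) - κ * g k) + κ * (g k - G) := by ring
    rw [e]
    refine (norm_add_le _ _).trans ?_
    rw [norm_mul, add_mul]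
    refine add_le_add (h2.trans (mul_le_mul_of_nonneg_right (le_abs_self _) h4)) ?_
    rw [mul_assoc]
    exact mul_le_mul_of_nonneg_left (h1.trans (mul_le_mul_of_nonneg_right (le_abs_self _) h4))
      (norm_nonneg _)
  have hB0 : 0 ≤ |C'| + ‖κ‖ * |C| := by positivity
  have hY : Tendsto (fun k => (Y k : ℂ)) atTop (𝓝 (κ * G)) := by
    rw [tendsto_iff_norm_sub_tendsto_zero]
    refine squeeze_zero' (Eventually.of_forall fun _ => norm_nonneg _) hZ ?_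
    simpa using hlim0.const_mul (|C'| + ‖κ‖ * |C|)
  obtain ⟨L, hL⟩ : ∃ L : ℝ, L = (κ * G).re := ⟨_, rfl⟩
  have hre : Tendsto Y atTop (𝓝 L) := by
    have h1 := (Complex.continuous_re.tendsto (κ * G)).comp hY
    rw [hL]
    exact h1
  have him : (κ * G).im = 0 := by
    have h1 := (Complex.continuous_im.tendsto (κ * G)).comp hY
    have h2 : Tendsto (Complex.im ∘ fun k => (Y k : ℂ)) atTop (𝓝 0) := by
      have e : (Complex.im ∘ fun k => (Y k : ℂ)) = fun _ => (0 : ℝ) := by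
        funext k
        simp
      rw [e]
      exact tendsto_const_nhds
    exact tendsto_nhds_unique h1 h2
  have hLc : (L : ℂ) = κ * G := by
    apply Complex.ext
    · rw [Complex.ofReal_re, hL]
    · rw [Complex.ofReal_im, him]
  have hrate : ∀ᶠ k : ℕ in atTop, |Y k - L| ≤ (|C'| + ‖κ‖ * |C|) * (k : ℝ) ^ (-c) := by
    filter_upwards [hZ] with k h1
    rw [← hLc, ← Complex.ofReal_sub, Complex.norm_real, Real.norm_eq_abs] at h1
    exact h1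
  have hLpos : 0 < L := by
    by_contra hcon
    push Not at hcon
    obtain ⟨k, h1, h2, h3, h4⟩ := (hlow.and_eventually (hrate.and
      ((ev_small (C := |C'| + ‖κ‖ * |C|) hac (half_pos hA)).and (eventually_ge_atTop 1)))).exists
    have hk : (0 : ℝ) < k := by
      have : (1 : ℝ) ≤ (k : ℝ) := by exact_mod_cast h4
      linarith
    have h5 : 0 < (k : ℝ) ^ (-a) := Real.rpow_pos_of_pos hk _
    have h6 := (abs_le.1 h2).2
    nlinarith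
  refine ⟨L, hLpos, hLc, hre, ⟨_, hB0, hrate⟩, ?_⟩
  exact (hre.eventually (lt_mem_nhds (by linarith : L / 2 < L))).mono fun N hN => hN.le

/-- **End of plan B, one geometry.** `hX` two sided bound of the normaliser, `hap` a priori bound,
`hg` output of the recursion, `hTR` transfer (constant `κ` not specified). -/
theorem end_one {W0 X : ℕ → ℝ} {g : ℕ → ℂ} {κ G : ℂ} {c : ℝ} (hc : 3 / 8 < c)
    (hXl : ∀ ε : ℝ, 0 < ε → ∃ A : ℝ, 0 < A ∧ ∀ᶠ k : ℕ in atTop, A * (k : ℝ) ^ (5 / 24 - ε) ≤ X k)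
    (hXu : ∀ ε : ℝ, 0 < ε → ∃ A : ℝ, ∀ᶠ k : ℕ in atTop, X k ≤ A * (k : ℝ) ^ (5 / 24 + ε))
    (hg : ∃ C : ℝ, ∀ᶠ k : ℕ in atTop, ‖g k - G‖ ≤ C * (k : ℝ) ^ (-c))
    (hTR : ∃ C : ℝ, ∀ᶠ k : ℕ in atTop, ‖((X k * W0 k : ℝ) : ℂ) - κ * g k‖ ≤ C * (k : ℝ) ^ (-c))
    (hap : ∀ ε : ℝ, 0 < ε → ∃ A : ℝ, 0 < A ∧ ∃ᶠ k : ℕ in atTop,
      A * (k : ℝ) ^ (-(7 / 12) - ε) ≤ W0 k) :
    (∃ L : ℝ, 0 < L ∧ (L : ℂ) = κ * G ∧ Tendsto (fun k => X k * W0 k) atTop (𝓝 L) ∧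
      (∃ B : ℝ, 0 ≤ B ∧ ∀ᶠ k : ℕ in atTop, |X k * W0 k - L| ≤ B * (k : ℝ) ^ (-c))) ∧
    ∀ ε : ℝ, 0 < ε → ∃ A : ℝ, 0 < A ∧ ∀ᶠ k : ℕ in atTop, A * (k : ℝ) ^ (-(5 / 24) - ε) ≤ W0 k := by
  obtain ⟨Cg, hg⟩ := hg
  obtain ⟨CT, hTR⟩ := hTR
  have hε : 0 < (c - 3 / 8) / 4 := by linarith
  obtain ⟨A1, hA1, h1⟩ := hXl _ hε
  obtain ⟨A2, hA2, h2⟩ := hap _ hε
  have hlow : ∃ᶠ k : ℕ in atTop, A1 * A2 * (k : ℝ) ^ (-(3 / 8 + (c - 3 / 8) / 2)) ≤ X k * W0 k := by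
    refine (h2.and_eventually (h1.and (eventually_ge_atTop 1))).mono ?_
    rintro k ⟨e1, e2, e3⟩
    have hk : (0 : ℝ) < k := by
      have : (1 : ℝ) ≤ (k : ℝ) := by exact_mod_cast e3
      linarith
    have p1 : 0 < (k : ℝ) ^ (5 / 24 - (c - 3 / 8) / 4) := Real.rpow_pos_of_pos hk _
    have p2 : 0 < (k : ℝ) ^ (-(7 / 12) - (c - 3 / 8) / 4) := Real.rpow_pos_of_pos hk _
    have e4 : (k : ℝ) ^ (-(3 / 8 + (c - 3 / 8) / 2)) =
        (k : ℝ) ^ (5 / 24 - (c - 3 / 8) / 4) * (k : ℝ) ^ (-(7 / 12) - (c - 3 / 8) / 4) := by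
      rw [← Real.rpow_add hk]
      ring_nf
    calc A1 * A2 * (k : ℝ) ^ (-(3 / 8 + (c - 3 / 8) / 2)) =
          (A1 * (k : ℝ) ^ (5 / 24 - (c - 3 / 8) / 4)) *
            (A2 * (k : ℝ) ^ (-(7 / 12) - (c - 3 / 8) / 4)) := by
          rw [e4]; ring
      _ ≤ X k * W0 k := mul_le_mul e2 e1 (by positivity) (le_trans (by positivity) e2)
  obtain ⟨L, hL, hLc, hlim, hB, hhalf⟩ := end_lim (Y := fun k => X k * W0 k) (by linarith)
    (by linarith : 3 / 8 + (c - 3 / 8) / 2 < c) (mul_pos hA1 hA2) hg hTR hlow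
  refine ⟨⟨L, hL, hLc, hlim, hB⟩, fun ε h0 => ?_⟩
  obtain ⟨A, hA⟩ := hXu ε h0
  obtain ⟨A0, hA0, h3⟩ := hXl ε h0
  refine ⟨L / 2 / (|A| + 1), by positivity, ?_⟩
  filter_upwards [hA, h3, hhalf, eventually_ge_atTop 1] with k e1 e2 e3 e4
  have hk : (0 : ℝ) < k := by
    have : (1 : ℝ) ≤ (k : ℝ) := by exact_mod_cast e4
    linarith
  have p1 : 0 < (k : ℝ) ^ (5 / 24 + ε) := Real.rpow_pos_of_pos hk _
  have p2 : 0 < (k : ℝ) ^ (5 / 24 - ε) := Real.rpow_pos_of_pos hk _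
  have p3 : (k : ℝ) ^ (-(5 / 24) - ε) * (k : ℝ) ^ (5 / 24 + ε) = 1 := by
    rw [← Real.rpow_add hk]
    have : (-(5 / 24) - ε + (5 / 24 + ε) : ℝ) = 0 := by ring
    rw [this, Real.rpow_zero]
  have hX0 : 0 < X k := lt_of_lt_of_le (by positivity) e2
  have hX1 : X k ≤ (|A| + 1) * (k : ℝ) ^ (5 / 24 + ε) :=
    e1.trans (mul_le_mul_of_nonneg_right (by have := le_abs_self A; linarith) p1.le)
  have hW : 0 < W0 k := by
    by_contra hcon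
    push Not at hcon
    have : X k * W0 k ≤ 0 := mul_nonpos_of_nonneg_of_nonpos hX0.le hcon
    linarith
  have h5 : L / 2 ≤ (|A| + 1) * (k : ℝ) ^ (5 / 24 + ε) * W0 k :=
    e3.trans (mul_le_mul_of_nonneg_right hX1 hW.le)
  have hA1' : 0 < |A| + 1 := by positivity
  rw [div_mul_eq_mul_div, div_le_iff₀ hA1']
  have p4 : 0 < (k : ℝ) ^ (-(5 / 24) - ε) := Real.rpow_pos_of_pos hk _
  calc L / 2 * (k : ℝ) ^ (-(5 / 24) - ε) ≤
        ((|A| + 1) * (k : ℝ) ^ (5 / 24 + ε) * W0 k) * (k : ℝ) ^ (-(5 / 24) - ε) :=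
        mul_le_mul_of_nonneg_right h5 p4.le
    _ = W0 k * (|A| + 1) * ((k : ℝ) ^ (-(5 / 24) - ε) * (k : ℝ) ^ (5 / 24 + ε)) := by ring
    _ = W0 k * (|A| + 1) := by rw [p3, mul_one]

end PBE
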