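import Pool.Agent.NURow.Data3
import Pool.Agent.NUP1L.GenRow

/-!
# Plan B: stage 2 for mixed rows at arbitrary heights

`x`, `y` : rows of the two groups (`Rws`: real parts in `[-l / 2, l / 2]`, arbitrary, possibly equal
heights);
`ph β x g u = 1 - (∏ i, psi β (u - x i)) * g u` : cutoff with a correction `g` (`GOk`);
`s1`, `s2` : analytic spectators of quanta and strings (`NURow.SpecQ`).

`dataX` : the one body functions `XX` satisfy `DataQ`; `stageX` : the straight line class formula.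
-/

set_option autoImplicit false
set_option linter.unusedSectionVars false

noncomputable section

open Complex MeasureTheory

namespace PBX

open NUP1 NUP1S NUP1.Bd NURow
open NUP1.N (Z3 Gr0)

variable {m : ℕ}

/-- rows with real parts in `[-l / 2, l / 2]` -/
def Rws (x : Fin m → ℂ) : Prop := ∀ i, |(x i).re| ≤ l / 2

/-- the cutoff of the rows `x` with a correction `g` -/
def ph (β : ℝ) (x : Fin m → ℂ) (g : ℂ → ℂ) (u : ℂ) : ℂ := 1 - (∏ i, psi β (u - x i)) * g u

/-- all real parts which occur -/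
def KK : Set ℝ := Set.Icc (-(23 / 10 * l)) l

/-- corrections of the cutoff -/
structure GOk (β : ℝ) (g : ℂ → ℂ) : Prop where
  meas : Measurable g
  bd : Bdd KK (-(2 * β)) (fun z => 1 - g z)
  diff : ∀ z : ℂ, z.re ∈ KK → DifferentiableAt ℂ g z

theorem GOk.one (β : ℝ) : GOk β (fun _ => 1) where
  meas := measurable_const
  bd := ⟨0, le_rfl, fun z _ => by simp⟩
  diff _ _ := differentiableAt_const 1

theorem isCompact_KK : IsCompact KK := isCompact_Icc

theorem K1_KK {x : ℝ} (h : x ∈ K1) : x ∈ KK := by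
  have hl := Bd.l_pos
  rcases h with ⟨h1, h2⟩ | ⟨h1, h2⟩ <;> constructor <;> linarith

theorem K2_KK {x : ℝ} (h : x ∈ K2) : x ∈ KK := by
  have hl := Bd.l_pos
  obtain ⟨h1, h2⟩ := h
  constructor <;> linarith

theorem K2_KK' {x : ℝ} (h : x ∈ K2) : x - l ∈ KK := by
  have hl := Bd.l_pos
  obtain ⟨h1, h2⟩ := h
  constructor <;> linarith

theorem Rws.abs {x : Fin m → ℂ} (hx : Rws x) (i : Fin m) : |(x i).re| ≤ l / 2 := hx i

theorem Rws.of_half {x : Fin m → ℂ} (h : ∀ i, (x i).re = l / 2 ∨ (x i).re = -(l / 2)) :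
    Rws x := by
  have hl := Bd.l_pos
  intro i
  rcases h i with h | h
  · rw [h, abs_of_pos (by linarith)]
  · rw [h, abs_neg, abs_of_pos (by linarith)]

theorem box {x : Fin m → ℂ} (hx : Rws x) {ρ : ℝ} (h : ∀ i, |(x i).im| ≤ ρ) (i : Fin m) :
    InBox (Set.univ : Set Unit) (l / 2) ρ (fun _ => x i) := fun _ _ => ⟨hx.abs i, h i⟩

theorem im_le (x : Fin m → ℂ) (i : Fin m) : |(x i).im| ≤ ∑ j, |(x j).im| :=
  Finset.single_le_sum (f := fun j => |(x j).im|) (fun _ _ => abs_nonneg _) (Finset.mem_univ i)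

/-! ## the row factor -/

section rows

variable {c : ℂ} {x y : Fin m → ℂ}

theorem bdd_RR (c : ℂ) (hx : Rws x) (hy : Rws y) {K : Set ℝ} (hK : IsCompact K)
    (h : NPr (l / 2) K) : Bdd K 0 (RR c x y) := by
  have h0 : ∀ i, |(x i).im| ≤ ∑ j, |(x j).im| + ∑ j, |(y j).im| := fun i =>
    (im_le x i).trans (le_add_of_nonneg_right (Finset.sum_nonneg fun _ _ => abs_nonneg _))
  have h1 : ∀ i, |(y i).im| ≤ ∑ j, |(x j).im| + ∑ j, |(y j).im| := fun i =>
    (im_le y i).trans (le_add_of_nonneg_left (Finset.sum_nonneg fun _ _ => abs_nonneg _))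
  exact (ub_RR (Θ := Unit) (S := Set.univ) (x := fun _ => x) (y := fun _ => y) c
    (fun i => box hx h0 i) (fun i => box hy h1 i) hK h).bdd (Set.mem_univ ())

theorem NPr_K1 : NPr (l / 2) K1 := by
  have hl := Bd.l_pos
  intro d hd e he
  obtain ⟨h3, h4⟩ := abs_le.1 he
  rcases hd with ⟨h1, h2⟩ | ⟨h1, h2⟩
  · exact NP_pos (by linarith) (by linarith)
  · exact NP_neg (by linarith) (by linarith)

theorem NPr_S : NPr (l / 2) (Set.Icc (-(13 / 10 * l)) (-(7 / 10 * l))) := by
  have hl := Bd.l_pos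
  refine NPr_neg fun d hd => ?_
  obtain ⟨h1, h2⟩ := hd
  constructor <;> linarith

theorem NPr_K2' : NPr (l / 2) ((fun d => d + -l) '' K2) := by
  have hl := Bd.l_pos
  refine NPr_neg fun d hd => ?_
  obtain ⟨e, ⟨h1, h2⟩, rfl⟩ := hd
  constructor <;> linarith

theorem diffAt_RR (c : ℂ) {K : Set ℝ} (h : NPr (l / 2) K) (hx : Rws x) {z : ℂ} (hz : z.re ∈ K) :
    DifferentiableAt ℂ (RR c x y) z := by
  have := diff_RR (m := m) (x := fun _ => x) (y := fun _ => y) (u := fun s => s) (s₀ := z) c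
    (fun i => differentiableAt_const _) (fun i => differentiableAt_const _) differentiableAt_id
    (fun i => by
      rw [sub_re]
      exact h _ hz _ (hx.abs i))
  exact this

theorem shiftK2 {f : ℂ → ℂ} {s : ℝ} (h : Bdd ((fun d => d + -l) '' K2) s f) :
    Bdd K2 s fun w => f (w - l) := bdd_shift_l h

theorem RR_shift_bdd (c : ℂ) (hx : Rws x) (hy : Rws y) : Bdd K2 0 fun w => RR c x y (w - l) :=
  shiftK2 (bdd_RR c hx hy (isCompact_K2.image (by fun_prop)) NPr_K2')

theorem RR_shift_diff (c : ℂ) (hx : Rws x) {w : ℂ} (hw : w.re ∈ K2) :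
    DifferentiableAt ℂ (fun w => RR c x y (w - l)) w := by
  refine (diffAt_RR (y := y) c NPr_K2' hx (z := w - l) ?_).comp w
    (differentiableAt_id.sub_const _)
  refine ⟨w.re, hw, ?_⟩
  simp [sub_eq_add_neg]

/-- growth of the row factor in the whole strip -/
theorem Gr_RR (c : ℂ) (α β : ℝ) (x y : Fin m → ℂ) : Gr α β 0 (RR c x y) := by
  have h1 : Gr α β (∑ _i : Fin m, (-1 : ℝ)) (fun z => ∏ i : Fin m, 1 / sin (z - x i)) :=
    Gr.finProd (fun i z => 1 / sin (z - x i)) (fun _ => -1) fun i => by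
      have := Gr.inv_sin (α := α) (β := β) (x i)
      simpa only [one_div] using this
  have h2 : Gr α β (∑ _i : Fin m, (-1 : ℝ)) (fun z => ∏ i : Fin m, 1 / sin (z - x i - 2 * l)) :=
    Gr.finProd (fun i z => 1 / sin (z - x i - 2 * l)) (fun _ => -1) fun i => by
      have := Gr.inv_sin (α := α) (β := β) (x i + 2 * l)
      simpa only [one_div, sub_sub] using this
  have h3 : Gr α β (∑ _i : Fin m, (2 : ℝ)) (fun z => ∏ i : Fin m, sin (z - y i + 3 * l) ^ 2) :=
    Gr.finProd (fun i z => sin (z - y i + 3 * l) ^ 2) (fun _ => 2) fun i => by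
      have h := Gr.sin (α := α) (β := β) (y i - 3 * l)
      have h' := h.mul h
      have e : (fun z => sin (z - (y i - 3 * l)) * sin (z - (y i - 3 * l))) =
          fun z => sin (z - y i + 3 * l) ^ 2 := by
        funext z
        rw [pow_two, show z - (y i - 3 * l) = z - y i + 3 * l by ring]
      rw [e] at h'
      exact h'.mono (by norm_num)
  have h4 := (((Gr.const (α := α) (β := β) c).mul h1).mul h2).mul h3
  refine h4.mono (le_of_eq ?_)
  simp only [Finset.sum_const, Finset.card_univ, Fintype.card_fin, nsmul_eq_mul]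
  ring

end rows

/-! ## the cutoff -/

section cut

variable {β : ℝ} {x : Fin m → ℂ} {g : ℂ → ℂ}

theorem NQr_KK (hβ : 0 < β) (hβ' : β ≤ 4 / 3) : NQr β (l / 2) KK := by
  have hl := Bd.l_pos
  refine NQr_strip hβ hβ' fun d hd => ?_
  obtain ⟨h1, h2⟩ := hd
  constructor <;> linarith

theorem NQ_KK (hβ : 0 < β) (hβ' : β ≤ 4 / 3) (hx : Rws x) {z : ℂ} (hz : z.re ∈ KK) (i : Fin m) :
    NQ β (z - x i).re := by
  rw [sub_re]
  exact NQr_KK hβ hβ' _ hz _ (hx.abs i)

theorem bdd_prod (hβ : 0 < β) (hβ' : β ≤ 4 / 3) (hx : Rws x) :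
    Bdd KK 0 (fun z => ∏ i, psi β (z - x i)) :=
  (ub_prod_psi (Θ := Unit) (S := Set.univ) (W := fun _ => x) hβ (fun i => box hx (im_le x) i)
    isCompact_KK (NQr_KK hβ hβ')).bdd (Set.mem_univ ())

theorem bdd_ph (hβ : 0 < β) (hβ' : β ≤ 4 / 3) (hx : Rws x) (hg : GOk β g) :
    Bdd KK (-(2 * β)) (ph β x g) := by
  have h1 := (ub_phi (Θ := Unit) (S := Set.univ) (W := fun _ => x) hβ
    (fun i => box hx (im_le x) i) isCompact_KK (NQr_KK hβ hβ')).bdd (Set.mem_univ ())
  have h2 := ((bdd_prod hβ hβ' hx).mul hg.bd).rate (s' := -(2 * β)) (by ring)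
  obtain ⟨C, hC, h1⟩ := h1
  obtain ⟨D, hD, h2⟩ := h2
  refine ⟨C + D, by positivity, fun z hz => ?_⟩
  have e : ph β x g z = phi β (List.ofFn x) z + (∏ i, psi β (z - x i)) * (1 - g z) := by
    rw [phi_ofFn]
    unfold ph
    ring
  rw [e, add_mul]
  exact (norm_add_le _ _).trans (add_le_add (h1 z hz) (h2 z hz))

theorem diffAt_ph (hβ : 0 < β) (hβ' : β ≤ 4 / 3) (hx : Rws x) (hg : GOk β g) {z : ℂ}
    (hz : z.re ∈ KK) : DifferentiableAt ℂ (ph β x g) z := by
  have d1 := DifferentiableAt.fun_finsetProd (𝕜 := ℂ) (u := Finset.univ)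
    (f := fun (i : Fin m) s => psi β (s - x i)) (x := z) (fun i _ =>
      (diff_psi' (NQ_KK hβ hβ' hx hz i)).comp z (differentiableAt_id.sub_const _))
  exact (d1.mul (hg.diff z hz)).const_sub 1

theorem measurable_ph (β : ℝ) (x : Fin m → ℂ) (hg : Measurable g) : Measurable (ph β x g) := by
  unfold ph
  refine measurable_const.sub (Measurable.mul ?_ hg)
  exact Finset.measurable_prod _ fun i _ => (measurable_psi0 β).comp (measurable_id.sub_const _)

end cut

/-! ## the strings T -/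

section strT

variable {c : ℂ} {x y : Fin m → ℂ} {β β' : ℝ} {g g0 : ℂ → ℂ} {w : ℂ}

/-- the zeros of the rows at real part `- l / 2` -/
def Pm (x : Fin m → ℂ) (w : ℂ) : ℂ := ∏ i, if (x i).re = -(l / 2) then sin (w - x i) else 1

/-- row factor without the poles at real part `- l / 2` -/
def Rg (c : ℂ) (x y : Fin m → ℂ) (w : ℂ) : ℂ :=
  c * (∏ i, if (x i).re = -(l / 2) then 1 else 1 / sin (w - x i)) *
    (∏ i, 1 / sin (w - x i - 2 * l)) * ∏ j, sin (w - y j + 3 * l) ^ 2

/-- `(1 - ph w) / Pm w` -/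
def Am (β : ℝ) (x : Fin m → ℂ) (g : ℂ → ℂ) (w : ℂ) : ℂ :=
  (∏ i, if (x i).re = -(l / 2) then qs β (w - x i) else psi β (w - x i)) * g w

/-- `(1 - ph (w - l)) / Pm w` -/
def Cm (β : ℝ) (x : Fin m → ℂ) (g : ℂ → ℂ) (w : ℂ) : ℂ :=
  (∏ i, if (x i).re = -(l / 2) then -qs β (-(w - x i)) else psi β (w - l - x i)) * g (w - l)

theorem RR_Pm (hs : ∀ i, (x i).re = -(l / 2) → sin (w - x i) ≠ 0) :
    RR c x y w * Pm x w = Rg c x y w := by
  unfold RR Pm Rg
  have e : (∏ i, 1 / sin (w - x i)) * (∏ i, if (x i).re = -(l / 2) then sin (w - x i) else 1) =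
      ∏ i, if (x i).re = -(l / 2) then 1 else 1 / sin (w - x i) := by
    rw [← Finset.prod_mul_distrib]
    refine Finset.prod_congr rfl fun i _ => ?_
    split_ifs with h
    · exact one_div_mul_cancel (hs i h)
    · rw [mul_one]
  rw [← e]
  ring

theorem Am_mul (hq : ∀ i, NQ β (w - x i).re)
    (hs : ∀ i, (x i).re = -(l / 2) → sin (w - x i) ≠ 0) :
    Am β x g w * Pm x w = 1 - ph β x g w := by
  unfold Am Pm ph
  have e : (∏ i, if (x i).re = -(l / 2) then qs β (w - x i) else psi β (w - x i)) *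
      (∏ i, if (x i).re = -(l / 2) then sin (w - x i) else 1) = ∏ i, psi β (w - x i) := by
    rw [← Finset.prod_mul_distrib]
    refine Finset.prod_congr rfl fun i _ => ?_
    split_ifs with h
    · exact qs_mul (hq i) (hs i h)
    · rw [mul_one]
  rw [← e]
  ring

theorem Cm_mul (hq : ∀ i, (x i).re = -(l / 2) → NQ β (-(w - x i)).re)
    (hs : ∀ i, (x i).re = -(l / 2) → sin (w - x i) ≠ 0) :
    Cm β x g w * Pm x w = 1 - ph β x g (w - l) := by
  unfold Cm Pm ph
  have e : (∏ i, if (x i).re = -(l / 2) then -qs β (-(w - x i)) else psi β (w - l - x i)) *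
      (∏ i, if (x i).re = -(l / 2) then sin (w - x i) else 1) =
      ∏ i, psi β (w - l - x i) := by
    rw [← Finset.prod_mul_distrib]
    refine Finset.prod_congr rfl fun i _ => ?_
    split_ifs with h
    · rw [show w - l - x i = w - x i - l by ring, psi_refl, ← qs_mul (hq i h)
        (by rw [Complex.sin_neg]; exact neg_ne_zero.2 (hs i h)), Complex.sin_neg]
      ring
    · rw [mul_one]
  rw [← e]
  ring

/-- the one body function of the strings T, without the poles at real part `- l / 2` -/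
def TT (c : ℂ) (β β' : ℝ) (x y : Fin m → ℂ) (g g0 : ℂ → ℂ) (w : ℂ) : ℂ :=
  Rg c x y w * RR c x y (w - l) * (Am β' x g0 w - Am β x g w - ph β x g w * Cm β x g w)

theorem TT_eq (hq : ∀ i, NQ β (w - x i).re) (hq' : ∀ i, NQ β' (w - x i).re)
    (hq'' : ∀ i, (x i).re = -(l / 2) → NQ β (-(w - x i)).re)
    (hs : ∀ i, (x i).re = -(l / 2) → sin (w - x i) ≠ 0) :
    TT c β β' x y g g0 w = RR c x y w * RR c x y (w - l) *
      (ph β x g w * ph β x g (w - l) - ph β' x g0 w) := by
  have e1 := Am_mul (g := g) hq hs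
  have e2 := Am_mul (g := g0) hq' hs
  have e3 := Cm_mul (g := g) hq'' hs
  have e4 := RR_Pm (c := c) (y := y) hs
  unfold TT
  rw [← e4]
  have f1 : ph β x g w = 1 - Am β x g w * Pm x w := by rw [e1]; ring
  have f2 : ph β' x g0 w = 1 - Am β' x g0 w * Pm x w := by rw [e2]; ring
  have f3 : ph β x g (w - l) = 1 - Cm β x g w * Pm x w := by rw [e3]; ring
  rw [f2, f3, f1]
  ring

/-- real parts of `w - x i` for strings -/
theorem K2_sub_re (hx : Rws x) (hw : w.re ∈ K2) (i : Fin m) :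
    -(18 / 10 * l) ≤ (w - x i).re ∧ (w - x i).re ≤ 0 := by
  have hl := Bd.l_pos
  obtain ⟨h1, h2⟩ := hw
  obtain ⟨h3, h4⟩ := abs_le.1 (hx i)
  rw [sub_re]
  constructor <;> linarith

theorem sin_or (hx : Rws x) (hw : w.re ∈ K2) (i : Fin m) : w - x i = 0 ∨ sin (w - x i) ≠ 0 := by
  have hl := Bd.l_pos
  have hpi := Bd.pi_eq
  obtain ⟨h1, h2⟩ := K2_sub_re hx hw i
  by_cases h0 : w - x i = 0
  · exact Or.inl h0
  · exact Or.inr (NUP1.sin_ne (by linarith) (by linarith) h0)

theorem sin_pos_row (hx : Rws x) (hw : w.re ∈ K2) {i : Fin m} (h : ¬ (x i).re = -(l / 2)) :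
    sin (w - x i) ≠ 0 := by
  have hl := Bd.l_pos
  obtain ⟨h3, h4⟩ := abs_le.1 (hx i)
  have h' : -(l / 2) < (x i).re := lt_of_le_of_ne h3 (Ne.symm h)
  refine Bd.sin_ne_zero_of_re ?_
  obtain ⟨h1, h2⟩ := hw
  rw [sub_re]
  exact sin_ne_neg (by linarith) (by linarith)

theorem sin_row2 (hx : Rws x) (hw : w.re ∈ K2) (i : Fin m) : sin (w - x i - 2 * l) ≠ 0 := by
  have hl := Bd.l_pos
  obtain ⟨h1, h2⟩ := K2_sub_re hx hw i
  have e : (w - x i - 2 * l).re = (w - x i).re - 2 * l := by simp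
  refine Bd.sin_ne_zero_of_re ?_
  rw [e]
  exact sin_ne_neg (by linarith) (by linarith)

theorem NQ_neg (hβ : 0 < β) (hβ' : β ≤ 4 / 3) (hx : Rws x) (hw : w.re ∈ K2) (i : Fin m)
    (h : (x i).re = -(l / 2)) : NQ β (-(w - x i)).re := by
  have hl := Bd.l_pos
  obtain ⟨h1, h2⟩ := hw
  rw [neg_re, sub_re, h]
  exact NQ_strip hβ hβ' (by linarith) (by linarith)

theorem diffAt_TT (c : ℂ) (hβ : 0 < β) (hβ1 : β ≤ 4 / 3) (hβ' : 0 < β') (hβ1' : β' ≤ 4 / 3)
    (hx : Rws x) (hg : GOk β g) (hg0 : GOk β' g0) (hw : w.re ∈ K2) :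
    DifferentiableAt ℂ (TT c β β' x y g g0) w := by
  have hK := K2_KK hw
  have hK' : (w - l).re ∈ KK := by
    have := K2_KK' hw
    simpa using this
  have hR : DifferentiableAt ℂ (Rg c x y) w := by
    unfold Rg
    refine (((differentiableAt_const c).mul ?_).mul ?_).mul ?_
    · refine DifferentiableAt.fun_finsetProd fun i _ => ?_
      split_ifs with h
      · exact differentiableAt_const _
      · have hs := sin_pos_row hx hw h
        fun_prop (disch := exact hs)
    · refine DifferentiableAt.fun_finsetProd fun i _ => ?_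
      have hs := sin_row2 hx hw i
      fun_prop (disch := exact hs)
    · refine DifferentiableAt.fun_finsetProd fun i _ => ?_
      fun_prop
  have hA : ∀ {b : ℝ} {k : ℂ → ℂ}, 0 < b → b ≤ 4 / 3 → GOk b k →
      DifferentiableAt ℂ (Am b x k) w := by
    intro b k h0 h1 hk
    unfold Am
    refine DifferentiableAt.mul ?_ (hk.diff w hK)
    refine DifferentiableAt.fun_finsetProd fun i _ => ?_
    split_ifs with h
    · exact (differentiableAt_qs (NQ_KK h0 h1 hx hK i) (sin_or hx hw i)).comp w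
        (differentiableAt_id.sub_const _)
    · exact (diff_psi' (NQ_KK h0 h1 hx hK i)).comp w (differentiableAt_id.sub_const _)
  have hC : DifferentiableAt ℂ (Cm β x g) w := by
    unfold Cm
    refine DifferentiableAt.mul ?_ ((hg.diff (w - l) hK').comp w
      (differentiableAt_id.sub_const _))
    refine DifferentiableAt.fun_finsetProd fun i _ => ?_
    split_ifs with h
    · refine ((differentiableAt_qs (NQ_neg hβ hβ1 hx hw i h) ?_).comp w
        ((differentiableAt_id.sub_const _).neg)).neg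
      rcases sin_or hx hw i with h0 | h0
      · left
        rw [h0, neg_zero]
      · right
        rw [Complex.sin_neg]
        exact neg_ne_zero.2 h0
    · exact (diff_psi' (z := w - l - x i) (NQ_KK hβ hβ1 hx hK' i)).comp w
        ((differentiableAt_id.sub_const _).sub_const _)
  unfold TT
  exact (hR.mul (RR_shift_diff c hx hw)).mul (((hA hβ' hβ1' hg0).sub (hA hβ hβ1 hg)).sub
    ((diffAt_ph hβ hβ1 hx hg hK).mul hC))

theorem measurable_Rg (c : ℂ) (x y : Fin m → ℂ) : Measurable (Rg c x y) := by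
  unfold Rg
  refine Measurable.mul (Measurable.mul (measurable_const.mul ?_) ?_) ?_
  · refine Finset.measurable_prod _ fun i _ => ?_
    split_ifs
    · exact measurable_const
    · fun_prop
  · exact Finset.measurable_prod _ fun i _ => by fun_prop
  · exact Finset.measurable_prod _ fun i _ => by fun_prop

theorem measurable_TT (c : ℂ) (β β' : ℝ) (x y : Fin m → ℂ) (hg : Measurable g)
    (hg0 : Measurable g0) : Measurable (TT c β β' x y g g0) := by
  have hA : ∀ {b : ℝ} {k : ℂ → ℂ}, Measurable k → Measurable (Am b x k) := by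
    intro b k hk
    unfold Am
    refine Measurable.mul (Finset.measurable_prod _ fun i _ => ?_) hk
    split_ifs
    · exact (measurable_qs b).comp (measurable_id.sub_const _)
    · exact (measurable_psi0 b).comp (measurable_id.sub_const _)
  have hC : Measurable (Cm β x g) := by
    unfold Cm
    refine Measurable.mul (Finset.measurable_prod _ fun i _ => ?_)
      (hg.comp (measurable_id.sub_const _))
    split_ifs
    · exact ((measurable_qs β).comp (measurable_id.sub_const _).neg).neg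
    · exact (measurable_psi0 β).comp ((measurable_id.sub_const _).sub_const _)
  unfold TT
  exact ((measurable_Rg c x y).mul ((measurable_RR c x y).comp (measurable_id.sub_const _))).mul
    (((hA hg0).sub (hA hg)).sub ((measurable_ph β x hg).mul hC))

/-- a continuous function with a bound far from the real axis is bounded -/
theorem bdd_glueR {K : Set ℝ} (hK : IsCompact K) {f : ℂ → ℂ} {s R : ℝ}
    (hc : ∀ z : ℂ, z.re ∈ K → ContinuousAt f z)
    (h : ∃ C : ℝ, 0 ≤ C ∧ ∀ z : ℂ, z.re ∈ K → R ≤ |z.im| → ‖f z‖ ≤ C * Real.exp (s * |z.im|)) :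
    Bdd K s f := by
  obtain ⟨C, hC, h⟩ := h
  have hS : IsCompact ((fun p : ℝ × ℝ => (p.1 + p.2 * I : ℂ)) '' (K ×ˢ Set.Icc (-R) R)) :=
    (hK.prod isCompact_Icc).image (by fun_prop)
  obtain ⟨B, hB⟩ := hS.exists_bound_of_continuousOn (f := f) (by
    rintro _ ⟨p, hp, rfl⟩
    exact (hc _ (by simpa using hp.1)).continuousWithinAt)
  refine ⟨C + |B| * Real.exp (|s| * |R|), by positivity, fun z hz => ?_⟩
  rcases le_or_gt R |z.im| with hi | hi
  · refine (h z hz hi).trans (mul_le_mul_of_nonneg_right ?_ (Real.exp_pos _).le)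
    have : 0 ≤ |B| * Real.exp (|s| * |R|) := by positivity
    linarith
  · have h1 : ‖f z‖ ≤ B := by
      refine hB z ⟨(z.re, z.im), ⟨hz, ?_⟩, re_add_im z⟩
      rw [Set.mem_Icc]
      constructor <;> linarith [(abs_lt.1 hi).1, (abs_lt.1 hi).2]
    have h2 : 1 ≤ Real.exp (|s| * |R|) * Real.exp (s * |z.im|) := by
      rw [← Real.exp_add, Real.one_le_exp_iff]
      have h3 : abs (s * |z.im|) ≤ |s| * |R| := by
        rw [abs_mul, abs_abs]
        exact mul_le_mul_of_nonneg_left (hi.le.trans (le_abs_self R)) (abs_nonneg _)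
      have := (abs_le.1 h3).1
      linarith
    have h4 : B ≤ |B| * (Real.exp (|s| * |R|) * Real.exp (s * |z.im|)) :=
      (le_abs_self B).trans (le_mul_of_one_le_right (abs_nonneg _) h2)
    have h5 : 0 ≤ C * Real.exp (s * |z.im|) := by positivity
    rw [add_mul, mul_assoc]
    linarith

/-- **The strings T decay on strips containing the rows `- l / 2`.** -/
theorem bdd_TT (c : ℂ) (hβ : 0 < β) (hββ' : β ≤ β') (hβ1' : β' ≤ 4 / 3)
    (hx : Rws x) (hy : Rws y) (hg : GOk β g) (hg0 : GOk β' g0) :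
    Bdd K2 (-(2 * β)) (TT c β β' x y g g0) := by
  have hβ' : 0 < β' := hβ.trans_le hββ'
  have hβ1 : β ≤ 4 / 3 := hββ'.trans hβ1'
  have hl := Bd.l_pos
  obtain ⟨C1, R1, hC1, g1⟩ := Gr_RR c l (-(23 / 10 * l)) x y
  obtain ⟨C2, hC2, g2⟩ := RR_shift_bdd c hx hy
  obtain ⟨C3, hC3, g3⟩ := bdd_ph hβ hβ1 hx hg
  obtain ⟨C4, hC4, g4⟩ := bdd_ph hβ' hβ1' hx hg0
  refine bdd_glueR (R := max R1 (1 + ∑ j, |(x j).im|)) isCompact_K2
    (fun z hz => (diffAt_TT c hβ hβ1 hβ' hβ1' hx hg hg0 hz).continuousAt)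
    ⟨C1 * C2 * (C3 * C3 + C4), by positivity, fun z hz hi => ?_⟩
  have hK := K2_KK hz
  have hK' : (z - l).re ∈ KK := by
    have := K2_KK' hz
    simpa using this
  have hi1 := (le_max_left _ _).trans hi
  have hi2 := (le_max_right _ _).trans hi
  have hs : ∀ i, (x i).re = -(l / 2) → sin (z - x i) ≠ 0 := by
    intro i _
    refine NUP1.sin_ne_im ?_
    rw [sub_im]
    intro h0
    have h1 : z.im = (x i).im := by linarith
    have h2 := im_le x i
    rw [h1] at hi2
    linarith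
  rw [TT_eq (fun i => NQ_KK hβ hβ1 hx hK i) (fun i => NQ_KK hβ' hβ1' hx hK i)
    (fun i h => NQ_neg hβ hβ1 hx hz i h) hs, norm_mul, norm_mul]
  have a1 : ‖RR c x y z‖ ≤ C1 := by
    have := g1 z hK.1 hK.2 hi1
    simpa using this
  have a2 : ‖RR c x y (z - l)‖ ≤ C2 := by
    have := g2 z hz
    simpa using this
  have a3 := g3 z hK
  have a4 := g3 (z - l) hK'
  have a5 := g4 z hK
  have e1 : (z - (l : ℂ)).im = z.im := by simp
  rw [e1] at a4
  have b1 : Real.exp (-(2 * β) * |z.im|) ≤ 1 := by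
    rw [Real.exp_le_one_iff]
    have := abs_nonneg z.im
    nlinarith
  have b2 : Real.exp (-(2 * β') * |z.im|) ≤ Real.exp (-(2 * β) * |z.im|) := by
    refine Real.exp_le_exp.2 ?_
    have := abs_nonneg z.im
    nlinarith
  have hE := (Real.exp_pos (-(2 * β) * |z.im|)).le
  have a6 : ‖ph β x g z * ph β x g (z - l) - ph β' x g0 z‖ ≤
      (C3 * C3 + C4) * Real.exp (-(2 * β) * |z.im|) := by
    refine (norm_sub_le _ _).trans ?_
    rw [norm_mul, add_mul]
    refine add_le_add ?_ ?_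
    · calc ‖ph β x g z‖ * ‖ph β x g (z - l)‖ ≤
          (C3 * Real.exp (-(2 * β) * |z.im|)) * (C3 * 1) :=
            mul_le_mul a3 (a4.trans (mul_le_mul_of_nonneg_left b1 hC3)) (norm_nonneg _)
              (by positivity)
        _ = _ := by ring
    · exact a5.trans (mul_le_mul_of_nonneg_left b2 hC4)
  calc _ ≤ C1 * C2 * ((C3 * C3 + C4) * Real.exp (-(2 * β) * |z.im|)) :=
        mul_le_mul (mul_le_mul a1 a2 (norm_nonneg _) hC1) a6 (norm_nonneg _) (by positivity)
    _ = _ := by ring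

end strT

/-! ## the data of stage 2 -/

section data

variable {c : ℂ} {x y : Fin m → ℂ} {β : ℝ} {g g0 s1 s2 : ℂ → ℂ} {b : Bool} {Q : ℝ}

/-- one body functions of the four kinds -/
def XX (c : ℂ) (β : ℝ) (x y : Fin m → ℂ) (g g0 s1 s2 : ℂ → ℂ) : Option O3 → ℂ → ℂ
  | none, u => RR c x y u * ph β x g u * s1 u
  | some .L, u => RR c x y u * ph β x g u * s1 u
  | some .S, w => RR c x y w * RR c x y (w - l) * ph (4 / 3) x g0 w * s2 w
  | some .T, w => TT c β (4 / 3) x y g g0 w * s2 w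

/-- one body function of the contour identity -/
def GX (c : ℂ) (β : ℝ) (x y : Fin m → ℂ) (g s1 : ℂ → ℂ) (u : ℂ) : ℂ :=
  RR c x y u * ph β x g u * s1 u

theorem bdd_GX (hβ : 0 < β) (hβ' : β ≤ 4 / 3) (hx : Rws x) (hy : Rws y) (hg : GOk β g)
    (h : SpecQ b Q s1 s2) : Bdd K1 (-(2 * β) + -(2 * Q * sc (b, .A))) (GX c β x y g s1) := by
  have h1 := bdd_RR c hx hy isCompact_K1 NPr_K1
  have h2 : Bdd K1 (-(2 * β)) (ph β x g) := Bdd.mono_set (bdd_ph hβ hβ' hx hg) fun x hx => K1_KK hx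
  exact ((h1.mul h2).mul h.b1).rate (by ring)

theorem diffAt_GX (hβ : 0 < β) (hβ' : β ≤ 4 / 3) (hx : Rws x) (hg : GOk β g)
    (h : SpecQ b Q s1 s2) {z : ℂ} (hz : z.re ∈ K1) :
    DifferentiableAt ℂ (GX c β x y g s1) z :=
  ((diffAt_RR c NPr_K1 hx hz).mul (diffAt_ph hβ hβ' hx hg (K1_KK hz))).mul (h.d1 z hz)

theorem bdd_SX (hx : Rws x) (hy : Rws y) (hg0 : GOk (4 / 3) g0) (h : SpecQ b Q s1 s2) :
    Bdd (Set.Icc (-(13 / 10 * l)) (-(7 / 10 * l))) (-(2 * (4 / 3)) + -(2 * Q * sc (b, .S)))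
      (fun w => RR c x y w * RR c x y (w - l) * ph (4 / 3) x g0 w * s2 w) := by
  have h1 := bdd_RR c hx hy isCompact_Icc NPr_S
  have h2 : Bdd (Set.Icc (-(13 / 10 * l)) (-(7 / 10 * l))) 0 (fun w => RR c x y (w - l)) :=
    Bdd.mono_set (RR_shift_bdd c hx hy) fun x hx => K2_sub hx
  have h3 : Bdd (Set.Icc (-(13 / 10 * l)) (-(7 / 10 * l))) (-(2 * (4 / 3))) (ph (4 / 3) x g0) :=
    Bdd.mono_set (bdd_ph (by norm_num) le_rfl hx hg0) fun x hx => K2_KK (K2_sub hx)
  exact (((h1.mul h2).mul h3).mul (Bdd.mono_set h.b2 fun x hx => K2_sub hx)).rate (by ring)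

theorem diffAt_SX (hx : Rws x) (hg0 : GOk (4 / 3) g0) (h : SpecQ b Q s1 s2) {z : ℂ}
    (hz : z.re ∈ Set.Icc (-(13 / 10 * l)) (-(7 / 10 * l))) :
    DifferentiableAt ℂ (fun w => RR c x y w * RR c x y (w - l) * ph (4 / 3) x g0 w * s2 w) z :=
  (((diffAt_RR c NPr_S hx hz).mul (RR_shift_diff c hx (K2_sub hz))).mul
    (diffAt_ph (by norm_num) le_rfl hx hg0 (K2_KK (K2_sub hz)))).mul (h.d2 z (K2_sub hz))

theorem measurable_XX (hg : Measurable g) (hg0 : Measurable g0) (hm1 : Measurable s1)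
    (hm2 : Measurable s2) (k : Option O3) : Measurable (XX c β x y g g0 s1 s2 k) := by
  have h1 := measurable_RR c x y
  have h2 := measurable_ph β x hg
  have h3 := measurable_ph (4 / 3) x hg0
  have h4 := measurable_TT c β (4 / 3) x y hg hg0
  rcases k with _ | k
  · exact (h1.mul h2).mul hm1
  · cases k
    · exact (h1.mul h2).mul hm1
    · exact ((h1.mul (h1.comp (measurable_id.sub_const _))).mul h3).mul hm2
    · exact h4.mul hm2

theorem GX_mul (hβ : 0 < β) (hβ' : β ≤ 4 / 3) (hx : Rws x) (h : SpecQ b Q s1 s2) {w : ℂ}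
    (hw : w.re = -(7 / 10 * l)) : GX c β x y g s1 w * GX c β x y g s1 (w - l) =
      XX c β x y g g0 s1 s2 (some .S) w + XX c β x y g g0 s1 s2 (some .T) w := by
  have hl := Bd.l_pos
  have hK : w.re ∈ K2 := by
    rw [hw]
    exact ⟨by linarith, by linarith⟩
  have hs : ∀ i, (x i).re = -(l / 2) → sin (w - x i) ≠ 0 := by
    intro i hi
    refine Bd.sin_ne_zero_of_re ?_
    rw [sub_re, hi, hw]
    exact sin_ne_neg (by linarith) (by linarith)
  show _ = RR c x y w * RR c x y (w - l) * ph (4 / 3) x g0 w * s2 w +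
    TT c β (4 / 3) x y g g0 w * s2 w
  rw [TT_eq (fun i => NQ_KK hβ hβ' hx (K2_KK hK) i)
    (fun i => NQ_KK (by norm_num) le_rfl hx (K2_KK hK) i)
    (fun i hi => NQ_neg hβ hβ' hx hK i hi) hs, h.mul w hw]
  unfold GX
  ring

/-- **The data of stage 2.** -/
theorem dataX (hβ : 0 < β) (hβ' : β ≤ 4 / 3) (hx : Rws x) (hy : Rws y) (hg : GOk β g)
    (hg0 : GOk (4 / 3) g0) (h : SpecQ b Q s1 s2) :
    DataQ b (3 / 5 * l) (-(17 / 10 * l)) (-(17 / 10 * l)) (-(5 / 4 * l)) (-(13 / 10 * l))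
      (-(7 / 10 * l)) (-(7 / 10 * l)) (-(l / 2)) (2 * β) Q (GX c β x y g s1)
      (XX c β x y g g0 s1 s2) where
  meas := measurable_XX hg.meas hg0.meas h.m1 h.m2
  dec k := by
    have hl := Bd.l_pos
    rcases k with _ | k
    · refine DecOn_of (Bdd.mono_set (bdd_GX hβ hβ' hx hy hg h) ?_)
        (by simp only [sc4, ob4, Option.elim]; linarith)
      rintro x ⟨h1, h2⟩
      have h1 : 3 / 5 * l ≤ x := h1
      have h2 : x ≤ 3 / 5 * l := h2
      exact Or.inl ⟨h1, by linarith⟩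
    · cases k
      · refine DecOn_of (Bdd.mono_set (bdd_GX hβ hβ' hx hy hg h) ?_)
          (by simp only [sc4, ob4, ob3, Option.elim]; exact le_of_eq (by cases b <;> simp [sc, chg] <;> ring))
        rintro x ⟨h1, h2⟩
        exact Or.inr ⟨h1, h2⟩
      · exact DecOn_of (bdd_SX hx hy hg0 h) (by simp only [sc4, ob4, ob3, Option.elim]; linarith)
      · refine DecOn_of (Bdd.mono_set
          ((bdd_TT c hβ hβ' le_rfl hx hy hg hg0).mul h.b2) ?_)
          (by simp only [sc4, ob4, ob3, Option.elim]; linarith)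
        rintro x ⟨h1, h2⟩
        exact K2_subT ⟨h1, h2⟩
  cont k := by
    intro z hz
    refine ContinuousAt.continuousWithinAt ?_
    cases k
    · exact (diffAt_GX hβ hβ' hx hg h (Or.inr ⟨hz.1, hz.2⟩)).continuousAt
    · exact (diffAt_SX hx hg0 h ⟨hz.1, hz.2⟩).continuousAt
    · exact ((diffAt_TT c hβ hβ' (by norm_num) le_rfl hx hg hg0 (K2_subT ⟨hz.1, hz.2⟩)).mul
        (h.d2 z (K2_subT ⟨hz.1, hz.2⟩))).continuousAt
  diff k := by
    intro z hz
    refine DifferentiableAt.differentiableWithinAt ?_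
    cases k
    · exact diffAt_GX hβ hβ' hx hg h (Or.inr ⟨hz.1.le, hz.2.le⟩)
    · exact diffAt_SX hx hg0 h ⟨hz.1.le, hz.2.le⟩
    · exact (diffAt_TT c hβ hβ' (by norm_num) le_rfl hx hg hg0 (K2_subT ⟨hz.1.le, hz.2.le⟩)).mul
        (h.d2 z (K2_subT ⟨hz.1.le, hz.2.le⟩))
  split k t := by
    have e : ∀ a, one4L (3 / 5 * l) (-(17 / 10 * l)) (XX c β x y g g0 s1 s2) a t =
        XX c β x y g g0 s1 s2 a (pt (3 / 5 * l) (-(17 / 10 * l)) (ob4 a) t) := fun _ => rfl
    unfold oneL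
    cases k
    · have : (Finset.univ.filter fun a => ob4 a = Ob.A) = {none} := by decide
      rw [this, Finset.sum_singleton, e]
      rfl
    · have : (Finset.univ.filter fun a => ob4 a = Ob.L) = {some .L} := by decide
      rw [this, Finset.sum_singleton, e]
      rfl
    · have : (Finset.univ.filter fun a => ob4 a = Ob.S) = {some .S, some .T} := by decide
      rw [this, Finset.sum_pair (by decide), e, e]
      have hw : (pt (3 / 5 * l) (-(17 / 10 * l)) .S t).re = -(7 / 10 * l) := by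
        show (vl (-(17 / 10 * l) + l) t).re = _
        rw [re_vl]
        ring
      exact GX_mul hβ hβ' hx h hw

variable {c' : ℂ} {x' y' : Fin m → ℂ} {g' g0' t1 t2 : ℂ → ℂ}

/-- **Stage 2 for rows at arbitrary heights**: the gas of quanta and strings on the start lines as
the sum over the objects on their final lines. -/
theorem stageX (hβ : 0 < β) (hβ' : β ≤ 4 / 3) (hx : Rws x) (hy : Rws y) (hg : GOk β g)
    (hg0 : GOk (4 / 3) g0) (hh : GOk β g') (hh0 : GOk (4 / 3) g0') (n n' : ℕ)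
    (hX : SpecQ true ((n : ℝ) - n') s1 s2) (hY : SpecQ false ((n : ℝ) - n') t1 t2)
    (lnX : ∀ p p' : ℕ, (Fin p → O3) → (Fin p' → O3) → Fin p → ℝ)
    (lnY : ∀ p p' : ℕ, (Fin p → O3) → (Fin p' → O3) → Fin p' → ℝ)
    (hlX : ∀ p p' k k' i, lnX p p' k k' i ∈ Set.Icc
      (lo4 (3 / 5 * l) (-(17 / 10 * l)) (-(13 / 10 * l)) (-(7 / 10 * l)) (some (k i)))
      (lo4 (3 / 5 * l) (-(5 / 4 * l)) (-(7 / 10 * l)) (-(l / 2)) (some (k i))))
    (hlY : ∀ p p' k k' i, lnY p p' k k' i ∈ Set.Icc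
      (lo4 (3 / 5 * l) (-(17 / 10 * l)) (-(13 / 10 * l)) (-(7 / 10 * l)) (some (k' i)))
      (lo4 (3 / 5 * l) (-(5 / 4 * l)) (-(7 / 10 * l)) (-(l / 2)) (some (k' i)))) :
    Z3 (3 / 5 * l) (-(17 / 10 * l)) n n' (GX c β x y g s1) (GX c' β y x g' t1) =
      ZobjQ (XX c β x y g g0 s1 s2) (XX c' β y x g' g0' t1 t2) (3 / 5 * l) n n' lnX lnY := by
  have hl := Bd.l_pos
  refine stage2Z stripsH ⟨le_rfl, by linarith⟩ ⟨by linarith, by linarith⟩
    ⟨by linarith, by linarith⟩ (κ := 2 * β) (by linarith) n n' (dataX hβ hβ' hx hy hg hg0 hX)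
    (dataX hβ hβ' hy hx hh hh0 hY) lnX lnY hlX hlY

end data

end PBX

end
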