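import Pool.Agent.PB.ExMix
import Pool.Agent.NUP1L.RowB
import Pool.Agent.NUP1L.Assem2
import Pool.Agent.NUP1L.Z3Lim

/-!
# Plan B: state sums with analytic spectators, rows at arbitrary (also equal) heights

`DS c c' s t x y n` : state sum with `n` quanta in each group, one body functions
`hr c x y u * s u` (group X) and `hr c' y x v * t v` (group Y); `DZ` : its value at rows which may
coincide, defined by the contour integral.  `DZ_eq` : generic heights; `DZ_GX` : any cutoff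
(`β`, `g`); `DZ_tendsto` : joint continuity in the rows and the spectators; `DZ_cls` : the class
formula on straight lines.
-/

set_option autoImplicit false
set_option linter.unusedSectionVars false
set_option linter.unusedVariables false

noncomputable section

open Complex MeasureTheory Filter Topology

namespace PBX

open NUP1 NUP1S NUP1.Bd NURow
open NUP1.N (Z3 Gr0)
open NUP1.Leg (hr)

variable {m : ℕ}

/-- state sum with `n` quanta in each group and spectators `s`, `t` -/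
def DS (c c' : ℂ) (s t : ℂ → ℂ) (x y : Fin m → ℂ) (n : ℕ) : ℂ :=
  ∑ a ∈ St m n, ∑ b ∈ St m n, sta x (fun u => hr c x y u * s u) a *
    sta y (fun v => hr c' y x v * t v) b * crq x y a b

/-- spectators: analytic and bounded in the strip of the contour identity -/
structure SpA (s : ℂ → ℂ) : Prop where
  meas : Measurable s
  diff : ∀ z : ℂ, -(17 / 10 * l) ≤ z.re → z.re ≤ 3 / 5 * l → DifferentiableAt ℂ s z
  gr : Gr (3 / 5 * l) (-(17 / 10 * l)) 0 s

theorem GX_eq (c : ℂ) (β : ℝ) (x y : Fin m → ℂ) (g s : ℂ → ℂ) :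
    GX c β x y g s = Gr0 (fun u => hr c x y u * (ph β x g u * s u)) x := by
  funext u
  unfold GX Gr0 RR hr
  ring

theorem ph_row (β : ℝ) (x : Fin m → ℂ) (g : ℂ → ℂ) (i : Fin m) : ph β x g (x i) = 1 := by
  unfold ph
  rw [Finset.prod_eq_zero (Finset.mem_univ i) (by simp)]
  ring

theorem ph_row_sub (β : ℝ) (x : Fin m → ℂ) (g : ℂ → ℂ) (i : Fin m) :
    ph β x g (x i - l) = 1 := by
  unfold ph
  rw [Finset.prod_eq_zero (Finset.mem_univ i) (by
    rw [show x i - l - x i = -(l : ℂ) by ring, psi_neg_l])]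
  ring

theorem meas_hr (c : ℂ) (x y : Fin m → ℂ) : Measurable (hr c x y) := by
  unfold hr
  refine Measurable.mul (measurable_const.mul ?_) ?_
  · exact Finset.measurable_prod _ fun i _ => by fun_prop
  · exact Finset.measurable_prod _ fun i _ => by fun_prop

theorem diff_hr (c : ℂ) {x y : Fin m → ℂ} (hx : Rws x) {z : ℂ} (h1 : -(17 / 10 * l) ≤ z.re)
    (h2 : z.re ≤ 3 / 5 * l) : DifferentiableAt ℂ (hr c x y) z := by
  have hl := Bd.l_pos
  unfold hr
  refine ((differentiableAt_const c).mul ?_).mul ?_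
  · refine DifferentiableAt.fun_finsetProd fun i _ => ?_
    have hs : sin (z - x i - 2 * l) ≠ 0 := by
      refine Bd.sin_ne_zero_of_re ?_
      have e : (z - x i - 2 * l).re = z.re - (x i).re - 2 * l := by simp
      obtain ⟨h3, h4⟩ := abs_le.1 (hx i)
      rw [e]
      exact sin_ne_neg (by linarith) (by linarith)
    fun_prop (disch := exact hs)
  · refine DifferentiableAt.fun_finsetProd fun i _ => ?_
    fun_prop

theorem Gr_hr (c : ℂ) (α β : ℝ) (x y : Fin m → ℂ) : Gr α β m (hr c x y) := by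
  have h2 : Gr α β (∑ _i : Fin m, (-1 : ℝ)) (fun z => ∏ i : Fin m, 1 / sin (z - x i - 2 * l)) :=
    Gr.finProd (fun i z => 1 / sin (z - x i - 2 * l)) (fun _ => -1) fun i => by
      have := Gr.inv_sin (α := α) (β := β) (x i + 2 * l)
      simpa only [one_div, sub_sub] using this
  have h3 : Gr α β (∑ _i : Fin m, (2 : ℝ)) (fun z => ∏ i : Fin m, sin (z - y i + 3 * l) ^ 2) :=
    Gr.finProd (fun i z => sin (z - y i + 3 * l) ^ 2) (fun _ => 2) fun i => by
      have h := Gr.sin (α := α) (β := β) (y i - 3 * l)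
      have h' := h.mul h
      have e : (fun z => sin (z - (y i - 3 * l)) * sin (z - (y i - 3 * l))) =
          fun z => sin (z - y i + 3 * l) ^ 2 := by
        funext z
        rw [pow_two, show z - (y i - 3 * l) = z - y i + 3 * l by ring]
      rw [e] at h'
      exact h'.mono (by norm_num)
  have h4 := ((Gr.const (α := α) (β := β) c).mul h2).mul h3
  refine h4.mono (le_of_eq ?_)
  simp only [Finset.sum_const, Finset.card_univ, Fintype.card_fin, nsmul_eq_mul]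
  ring

/-- **The state sum as a contour integral**, any cutoff. -/
theorem DS_Z3 {c c' : ℂ} {s t g g' : ℂ → ℂ} {x y : Fin m → ℂ} {β : ℝ} (hβ : 0 < β)
    (hβ' : β ≤ 4 / 3) (ix : ∀ i j, i ≠ j → (x i).im ≠ (x j).im)
    (iy : ∀ i j, i ≠ j → (y i).im ≠ (y j).im) (hx : Rws x) (hy : Rws y) (hg : GOk β g)
    (hg' : GOk β g') (hs : SpA s) (ht : SpA t) (n : ℕ) :
    DS c c' s t x y n = Z3 (3 / 5 * l) (-(17 / 10 * l)) n n (GX c β x y g s)
      (GX c' β y x g' t) := by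
  have hl := Bd.l_pos
  have hw : NUP1.N.Wd (3 / 5 * l) (-(17 / 10 * l)) := ⟨by linarith, by linarith⟩
  have kk : ∀ {z : ℂ}, -(17 / 10 * l) ≤ z.re → z.re ≤ 3 / 5 * l → z.re ∈ KK := fun h1 h2 =>
    ⟨by linarith, by linarith⟩
  have key : ∀ {c : ℂ} {s g : ℂ → ℂ} {x y : Fin m → ℂ}, Rws x → GOk β g → SpA s →
      (∀ z : ℂ, -(17 / 10 * l) ≤ z.re → z.re ≤ 3 / 5 * l →
        DifferentiableAt ℂ (fun u => hr c x y u * (ph β x g u * s u)) z) ∧
      Measurable (fun u => hr c x y u * (ph β x g u * s u)) ∧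
      Gr (3 / 5 * l) (-(17 / 10 * l)) (-(2 * β - m))
        (fun u => hr c x y u * (ph β x g u * s u)) := by
    intro c s g x y hx hg hs
    refine ⟨fun z h1 h2 => (diff_hr c hx h1 h2).mul
      ((diffAt_ph hβ hβ' hx hg (kk h1 h2)).mul (hs.diff z h1 h2)),
      (meas_hr c x y).mul ((measurable_ph β x hg.meas).mul hs.meas), ?_⟩
    have h1 : Gr (3 / 5 * l) (-(17 / 10 * l)) (-(2 * β)) (ph β x g) := by
      obtain ⟨C, hC, h⟩ := bdd_ph hβ hβ' hx hg
      exact ⟨C, 0, hC, fun z h1 h2 _ => h z (kk h1 h2)⟩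
    exact ((Gr_hr c _ _ x y).mul (h1.mul hs.gr)).mono (le_of_eq (by ring))
  obtain ⟨d1, m1, g1⟩ := key (c := c) (y := y) hx hg hs
  obtain ⟨d2, m2, g2⟩ := key (c := c') (y := x) hy hg' ht
  have rx : ∀ {x : Fin m → ℂ}, Rws x → ∀ i, -(17 / 10 * l) + l < (x i).re ∧
      (x i).re < 3 / 5 * l := by
    intro x hx i
    obtain ⟨h3, h4⟩ := abs_le.1 (hx i)
    constructor <;> linarith
  rw [GX_eq, GX_eq, ← NUP1.N.assemG hw ix iy (rx hx) (rx hy) d1 d2 m1 m2 g1 g2 n n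
    (by ring_nf; linarith) (by ring_nf; linarith)]
  unfold DS
  refine Finset.sum_congr rfl fun a _ => Finset.sum_congr rfl fun b _ => ?_
  rw [NUP1.N.sta_congr' (x := x) (h := fun u => hr c x y u * s u)
      (k := fun u => hr c x y u * (ph β x g u * s u)) (fun i => by rw [ph_row, one_mul])
      (fun i => by rw [ph_row_sub, one_mul]) a,
    NUP1.N.sta_congr' (x := y) (h := fun u => hr c' y x u * t u)
      (k := fun u => hr c' y x u * (ph β y g' u * t u)) (fun i => by rw [ph_row, one_mul])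
      (fun i => by rw [ph_row_sub, one_mul]) b]

/-! ### limits -/

/-- the three lines of the contour identity -/
def K3 : Set ℝ := {3 / 5 * l, -(17 / 10 * l), -(17 / 10 * l) + l}

theorem isCompact_K3 : IsCompact K3 := by
  unfold K3
  exact ((Set.finite_singleton _).insert _ |>.insert _).isCompact

theorem mem_K3 {r : ℝ} (h : r = 3 / 5 * l ∨ r = -(17 / 10 * l) ∨ r = -(17 / 10 * l) + l) :
    r ∈ K3 := by
  simpa only [K3, Set.mem_insert_iff, Set.mem_singleton_iff] using h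

theorem K3_KK {r : ℝ} (h : r ∈ K3) : r ∈ KK := by
  have hl := Bd.l_pos
  simp only [K3, Set.mem_insert_iff, Set.mem_singleton_iff] at h
  rcases h with rfl | rfl | rfl <;> constructor <;> linarith

theorem NPr_K3 : NPr (l / 2) K3 := by
  have hl := Bd.l_pos
  intro d hd e he
  obtain ⟨h3, h4⟩ := abs_le.1 he
  simp only [K3, Set.mem_insert_iff, Set.mem_singleton_iff] at hd
  rcases hd with rfl | rfl | rfl
  · exact NP_pos (by linarith) (by linarith)
  · exact NP_neg (by linarith) (by linarith)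
  · exact NP_neg (by linarith) (by linarith)

/-- uniform bound of the one body function on the three lines -/
theorem GX_ub {E : Type*} {S : Set E} {β R : ℝ} (hβ : 0 < β) (hβ' : β ≤ 4 / 3) (c : ℂ)
    {x y : E → Fin m → ℂ} {g : ℂ → ℂ} (hg : GOk β g)
    (hx : ∀ e ∈ S, Rws (x e)) (hy : ∀ e ∈ S, Rws (y e)) (bx : ∀ e ∈ S, ∀ i, |(x e i).im| ≤ R)
    (by' : ∀ e ∈ S, ∀ i, |(y e i).im| ≤ R) {s : E → ℂ → ℂ} {D : ℝ} (hD : 0 ≤ D)
    (hs : ∀ e ∈ S, ∀ z : ℂ, z.re ∈ K3 → ‖s e z‖ ≤ D) :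
    ∃ C : ℝ, 0 ≤ C ∧ ∀ e ∈ S, ∀ z : ℂ, z.re ∈ K3 →
      ‖GX c β (x e) (y e) g (s e) z‖ ≤ C * Real.exp (-(2 * β) * |z.im|) := by
  have ib : ∀ {x : E → Fin m → ℂ}, (∀ e ∈ S, Rws (x e)) → (∀ e ∈ S, ∀ i, |(x e i).im| ≤ R) →
      ∀ i, InBox S (l / 2) R fun e => x e i := fun h1 h2 i e he => ⟨(h1 e he).abs i, h2 e he i⟩
  obtain ⟨C1, hC1, h1⟩ := ub_RR (Θ := E) (S := S) c (ib hx bx) (ib hy by') isCompact_K3 NPr_K3
  have nq : NQr β (l / 2) K3 := fun d hd => NQr_KK hβ hβ' d (K3_KK hd)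
  obtain ⟨C2, hC2, h2⟩ := ub_phi (Θ := E) (S := S) hβ (ib hx bx) isCompact_K3 nq
  obtain ⟨C3, hC3, h3⟩ := ub_prod_psi (Θ := E) (S := S) hβ (ib hx bx) isCompact_K3 nq
  obtain ⟨C4, hC4, h4⟩ := hg.bd
  refine ⟨C1 * (C2 + C3 * C4) * D, by positivity, fun e he z hz => ?_⟩
  have a1 := h1 e he z hz
  have a2 := h2 e he z hz
  have a3 := h3 e he z hz
  have a4 := h4 z (K3_KK hz)
  have a5 := hs e he z hz
  simp only [zero_mul, Real.exp_zero, mul_one] at a1 a3
  have ep : ph β (x e) g z = phi β (List.ofFn (x e)) z +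
      (∏ i, psi β (z - x e i)) * (1 - g z) := by
    rw [phi_ofFn]
    unfold ph
    ring
  have a6 : ‖ph β (x e) g z‖ ≤ (C2 + C3 * C4) * Real.exp (-(2 * β) * |z.im|) := by
    rw [ep, add_mul]
    refine (norm_add_le _ _).trans (add_le_add a2 ?_)
    rw [norm_mul, mul_assoc]
    exact mul_le_mul a3 a4 (norm_nonneg _) hC3
  unfold GX
  rw [norm_mul, norm_mul]
  calc _ ≤ C1 * ((C2 + C3 * C4) * Real.exp (-(2 * β) * |z.im|)) * D :=
        mul_le_mul (mul_le_mul a1 a6 (norm_nonneg _) hC1) a5 (norm_nonneg _) (by positivity)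
    _ = _ := by ring

theorem GX_tendsto {E : Type*} {F : Filter E} {β : ℝ} (hβ : 0 < β) (hβ' : β ≤ 4 / 3) (c : ℂ)
    {x y : E → Fin m → ℂ} {x0 y0 : Fin m → ℂ} (g : ℂ → ℂ) (hx0 : Rws x0)
    (tx : ∀ i, Tendsto (fun e => x e i) F (𝓝 (x0 i)))
    (ty : ∀ i, Tendsto (fun e => y e i) F (𝓝 (y0 i))) {s : E → ℂ → ℂ} {s0 : ℂ → ℂ} {z : ℂ}
    (hz : z.re ∈ K3) (ts : Tendsto (fun e => s e z) F (𝓝 (s0 z))) :
    Tendsto (fun e => GX c β (x e) (y e) g (s e) z) F (𝓝 (GX c β x0 y0 g s0 z)) := by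
  have np : ∀ i, NP (z - x0 i).re := fun i => by
    rw [sub_re]
    exact NPr_K3 _ hz _ (hx0.abs i)
  have t1 : ∀ i, Tendsto (fun e => 1 / sin (z - x e i)) F (𝓝 (1 / sin (z - x0 i))) := fun i =>
    tendsto_const_nhds.div ((Complex.continuous_sin.tendsto _).comp
      (tendsto_const_nhds.sub (tx i))) (Bd.sin_ne_zero_of_re (np i).1)
  have t2 : ∀ i, Tendsto (fun e => 1 / sin (z - x e i - 2 * l)) F
      (𝓝 (1 / sin (z - x0 i - 2 * l))) := fun i =>
    tendsto_const_nhds.div ((Complex.continuous_sin.tendsto _).comp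
      ((tendsto_const_nhds.sub (tx i)).sub_const _)) (Bd.sin_ne_zero_of_re (by
        have := (np i).2
        simpa using this))
  have t3 : ∀ i, Tendsto (fun e => sin (z - y e i + 3 * l) ^ 2) F
      (𝓝 (sin (z - y0 i + 3 * l) ^ 2)) := fun i =>
    ((Complex.continuous_sin.tendsto _).comp
      ((tendsto_const_nhds.sub (ty i)).add_const _)).pow 2
  have t4 : ∀ i, Tendsto (fun e => psi β (z - x e i)) F (𝓝 (psi β (z - x0 i))) := fun i =>
    ((diff_psi' (NQ_KK hβ hβ' hx0 (K3_KK hz) i)).continuousAt.tendsto).comp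
      (tendsto_const_nhds.sub (tx i))
  unfold GX RR ph
  exact ((((tendsto_const_nhds.mul (tendsto_finsetProd _ fun i _ => t1 i)).mul
    (tendsto_finsetProd _ fun i _ => t2 i)).mul (tendsto_finsetProd _ fun i _ => t3 i)).mul
      (tendsto_const_nhds.sub ((tendsto_finsetProd _ fun i _ => t4 i).mul_const _))).mul ts

theorem measurable_GX (c : ℂ) (β : ℝ) (x y : Fin m → ℂ) {g s : ℂ → ℂ} (hg : Measurable g)
    (hs : Measurable s) : Measurable (GX c β x y g s) :=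
  ((measurable_RR c x y).mul (measurable_ph β x hg)).mul hs

/-- **Joint continuity of the contour integral** in the rows and the spectators. -/
theorem Z3_tendsto_rows {E : Type*} {F : Filter E} [F.IsCountablyGenerated] {β R : ℝ}
    (hβ : 0 < β) (hβ' : β ≤ 4 / 3) (c c' : ℂ) {x y : E → Fin m → ℂ} {x0 y0 : Fin m → ℂ}
    {g g' : ℂ → ℂ} (hg : GOk β g) (hg' : GOk β g')
    (hx : ∀ᶠ e in F, Rws (x e) ∧ Rws (y e) ∧ (∀ i, |(x e i).im| ≤ R) ∧ ∀ i, |(y e i).im| ≤ R)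
    (hx0 : Rws x0) (hy0 : Rws y0) (tx : ∀ i, Tendsto (fun e => x e i) F (𝓝 (x0 i)))
    (ty : ∀ i, Tendsto (fun e => y e i) F (𝓝 (y0 i))) {s t : E → ℂ → ℂ} {s0 t0 : ℂ → ℂ} {D : ℝ}
    (hD : 0 ≤ D)
    (hs : ∀ᶠ e in F, Measurable (s e) ∧ Measurable (t e) ∧ ∀ z : ℂ, z.re ∈ K3 →
      ‖s e z‖ ≤ D ∧ ‖t e z‖ ≤ D)
    (ts : ∀ z : ℂ, z.re ∈ K3 → Tendsto (fun e => s e z) F (𝓝 (s0 z)))
    (tt : ∀ z : ℂ, z.re ∈ K3 → Tendsto (fun e => t e z) F (𝓝 (t0 z))) (n : ℕ) :
    Tendsto (fun e => Z3 (3 / 5 * l) (-(17 / 10 * l)) n n (GX c β (x e) (y e) g (s e))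
      (GX c' β (y e) (x e) g' (t e))) F
      (𝓝 (Z3 (3 / 5 * l) (-(17 / 10 * l)) n n (GX c β x0 y0 g s0) (GX c' β y0 x0 g' t0))) := by
  have hl := Bd.l_pos
  set S : Set E := {e | (Rws (x e) ∧ Rws (y e) ∧ (∀ i, |(x e i).im| ≤ R) ∧
    ∀ i, |(y e i).im| ≤ R) ∧ (Measurable (s e) ∧ Measurable (t e) ∧ ∀ z : ℂ, z.re ∈ K3 →
      ‖s e z‖ ≤ D ∧ ‖t e z‖ ≤ D)} with hS
  have hSF : ∀ᶠ e in F, e ∈ S := hx.and hs
  obtain ⟨C1, hC1, b1⟩ := GX_ub (S := S) (R := R) hβ hβ' c (x := x) (y := y) (s := s) hg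
    (fun e he => he.1.1) (fun e he => he.1.2.1) (fun e he => he.1.2.2.1)
    (fun e he => he.1.2.2.2) hD (fun e he z hz => (he.2.2.2 z hz).1)
  obtain ⟨C2, hC2, b2⟩ := GX_ub (S := S) (R := R) hβ hβ' c' (x := y) (y := x) (s := t) hg'
    (fun e he => he.1.2.1) (fun e he => he.1.1) (fun e he => he.1.2.2.2)
    (fun e he => he.1.2.2.1) hD (fun e he z hz => (he.2.2.2 z hz).2)
  refine NUP1.N.Z3_tendsto (D := max C1 C2) (κ := 2 * β) (κ' := 2 * β) (by linarith)
    (by linarith) (hSF.mono fun e he => measurable_GX c β _ _ hg.meas he.2.1)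
    (hSF.mono fun e he => measurable_GX c' β _ _ hg'.meas he.2.2.1)
    (fun z hz => GX_tendsto hβ hβ' c g hx0 tx ty (mem_K3 hz) (ts z (mem_K3 hz)))
    (fun z hz => GX_tendsto hβ hβ' c' g' hy0 ty tx (mem_K3 hz) (tt z (mem_K3 hz)))
    (hSF.mono fun e he z hz => ?_) (hSF.mono fun e he z hz => ?_)
    (by ring_nf; linarith) (by ring_nf; linarith)
  · have := b1 e he z (mem_K3 hz)
    rw [← neg_mul]
    exact this.trans (mul_le_mul_of_nonneg_right (le_max_left _ _) (Real.exp_pos _).le)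
  · have := b2 e he z (mem_K3 hz)
    rw [← neg_mul]
    exact this.trans (mul_le_mul_of_nonneg_right (le_max_right _ _) (Real.exp_pos _).le)

/-- rows pulled apart -/
def pull (x : Fin m → ℂ) (e : ℝ) (i : Fin m) : ℂ := x i + ((e * (i : ℝ) : ℝ) : ℂ) * I

theorem pull_re (x : Fin m → ℂ) (e : ℝ) (i : Fin m) : (pull x e i).re = (x i).re := by
  simp [pull]

theorem pull_im (x : Fin m → ℂ) (e : ℝ) (i : Fin m) : (pull x e i).im = (x i).im + e * i := by
  simp [pull]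

theorem pull_Rws {x : Fin m → ℂ} (hx : Rws x) (e : ℝ) : Rws (pull x e) := fun i => by
  rw [pull_re]
  exact hx i

theorem pull_tendsto (x : Fin m → ℂ) (i : Fin m) :
    Tendsto (fun e => pull x e i) (𝓝[>] 0) (𝓝 (x i)) := by
  have h : Continuous fun e => pull x e i := by
    unfold pull
    fun_prop
  have h2 := (h.tendsto 0).mono_left (nhdsWithin_le_nhds (s := Set.Ioi (0 : ℝ)))
  have e : pull x 0 i = x i := by simp [pull]
  rwa [e] at h2

theorem pull_im_le (x : Fin m → ℂ) {e : ℝ} (h0 : 0 ≤ e) (h1 : e ≤ 1) (i : Fin m) :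
    |(pull x e i).im| ≤ ∑ j, |(x j).im| + m := by
  rw [pull_im]
  refine (abs_add_le _ _).trans (add_le_add (im_le x i) ?_)
  rw [abs_mul, abs_of_nonneg h0, Nat.abs_cast]
  have h2 : ((i : ℕ) : ℝ) ≤ m := by exact_mod_cast i.isLt.le
  have h3 : (0 : ℝ) ≤ ((i : ℕ) : ℝ) := Nat.cast_nonneg _
  nlinarith

/-- for small `e` the heights are different -/
theorem pull_ne (x : Fin m → ℂ) : ∀ᶠ e in 𝓝[>] (0 : ℝ),
    ∀ i j, i ≠ j → (pull x e i).im ≠ (pull x e j).im := by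
  refine eventually_all.2 fun i => eventually_all.2 fun j => ?_
  by_cases hij : i = j
  · exact Eventually.of_forall fun e h => absurd hij h
  by_cases h0 : (x i).im = (x j).im
  · have hpos : ∀ᶠ e : ℝ in 𝓝[>] 0, 0 < e := self_mem_nhdsWithin
    refine hpos.mono fun e he _ h => ?_
    rw [pull_im, pull_im, h0, add_right_inj] at h
    have := mul_left_cancel₀ he.ne' h
    exact hij (Fin.ext (by exact_mod_cast this))
  · have t1 : Tendsto (fun e => (pull x e i).im - (pull x e j).im) (𝓝[>] 0)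
        (𝓝 ((x i).im - (x j).im)) :=
      ((Complex.continuous_im.tendsto _).comp (pull_tendsto x i)).sub
        ((Complex.continuous_im.tendsto _).comp (pull_tendsto x j))
    have h1 : (x i).im - (x j).im ≠ 0 := sub_ne_zero.2 h0
    refine (t1.eventually_ne h1).mono fun e he _ h => he ?_
    rw [h, sub_self]

theorem SpA.bd {s : ℂ → ℂ} (hs : SpA s) : ∃ D : ℝ, 0 ≤ D ∧ ∀ z : ℂ, z.re ∈ K3 → ‖s z‖ ≤ D := by
  have hl := Bd.l_pos
  obtain ⟨C, R, hC, h⟩ := hs.gr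
  have r : ∀ {z : ℂ}, z.re ∈ K3 → -(17 / 10 * l) ≤ z.re ∧ z.re ≤ 3 / 5 * l := by
    intro z hz
    simp only [K3, Set.mem_insert_iff, Set.mem_singleton_iff] at hz
    rcases hz with h | h | h <;> rw [h] <;> constructor <;> linarith
  obtain ⟨D, hD, h'⟩ := bdd_glueR (R := R) (s := 0) isCompact_K3
    (fun z hz => (hs.diff z (r hz).1 (r hz).2).continuousAt)
    ⟨C, hC, fun z hz hi => h z (r hz).1 (r hz).2 hi⟩
  exact ⟨D, hD, fun z hz => by simpa using h' z hz⟩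

/-- **The state sum at arbitrary rows.** -/
def DZ (c c' : ℂ) (s t : ℂ → ℂ) (x y : Fin m → ℂ) (n : ℕ) : ℂ :=
  Z3 (3 / 5 * l) (-(17 / 10 * l)) n n (GX c (4 / 3) x y (fun _ => 1) s)
    (GX c' (4 / 3) y x (fun _ => 1) t)

section DZ

variable {c c' : ℂ} {s t : ℂ → ℂ} {x y : Fin m → ℂ}

/-- generic heights: the state sum -/
theorem DZ_eq (ix : ∀ i j, i ≠ j → (x i).im ≠ (x j).im)
    (iy : ∀ i j, i ≠ j → (y i).im ≠ (y j).im) (hx : Rws x) (hy : Rws y) (hs : SpA s) (ht : SpA t)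
    (n : ℕ) : DZ c c' s t x y n = DS c c' s t x y n :=
  (DS_Z3 (by norm_num) le_rfl ix iy hx hy (GOk.one _) (GOk.one _) hs ht n).symm

/-- the limit of the state sums of the rows pulled apart, as a contour integral with any cutoff -/
theorem pull_lim {β : ℝ} (hβ : 0 < β) (hβ' : β ≤ 4 / 3) {g g' : ℂ → ℂ} (hx : Rws x) (hy : Rws y)
    (hg : GOk β g) (hg' : GOk β g') (hs : SpA s) (ht : SpA t) (n : ℕ) :
    Tendsto (fun e => DS c c' s t (pull x e) (pull y e) n) (𝓝[>] 0)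
      (𝓝 (Z3 (3 / 5 * l) (-(17 / 10 * l)) n n (GX c β x y g s) (GX c' β y x g' t))) := by
  obtain ⟨D1, hD1, h1⟩ := hs.bd
  obtain ⟨D2, hD2, h2⟩ := ht.bd
  have hpos : ∀ᶠ e : ℝ in 𝓝[>] 0, 0 < e := self_mem_nhdsWithin
  have hle : ∀ᶠ e : ℝ in 𝓝[>] 0, e ≤ 1 := nhdsWithin_le_nhds (eventually_le_nhds one_pos)
  have key := Z3_tendsto_rows (F := 𝓝[>] (0 : ℝ)) (R := ∑ j, |(x j).im| + ∑ j, |(y j).im| + m)
    hβ hβ' c c' (x := pull x) (y := pull y) (x0 := x) (y0 := y) hg hg'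
    (by
      filter_upwards [hpos, hle] with e h0 h1
      refine ⟨pull_Rws hx e, pull_Rws hy e, fun i => (pull_im_le x h0.le h1 i).trans ?_,
        fun i => (pull_im_le y h0.le h1 i).trans ?_⟩
      · have := Finset.sum_nonneg fun j (_ : j ∈ (Finset.univ : Finset (Fin m))) =>
          abs_nonneg (y j).im
        linarith
      · have := Finset.sum_nonneg fun j (_ : j ∈ (Finset.univ : Finset (Fin m))) =>
          abs_nonneg (x j).im
        linarith)
    hx hy (pull_tendsto x) (pull_tendsto y) (s := fun _ => s) (t := fun _ => t) (s0 := s)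
    (t0 := t) (D := max D1 D2) (le_max_of_le_left hD1)
    (Eventually.of_forall fun e => ⟨hs.meas, ht.meas, fun z hz =>
      ⟨(h1 z hz).trans (le_max_left _ _), (h2 z hz).trans (le_max_right _ _)⟩⟩)
    (fun z _ => tendsto_const_nhds) (fun z _ => tendsto_const_nhds) n
  refine key.congr' ?_
  filter_upwards [pull_ne x, pull_ne y] with e ex ey
  exact (DS_Z3 hβ hβ' ex ey (pull_Rws hx e) (pull_Rws hy e) hg hg' hs ht n).symm

/-- **The value does not depend on the cutoff.** -/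
theorem DZ_GX {β : ℝ} (hβ : 0 < β) (hβ' : β ≤ 4 / 3) {g g' : ℂ → ℂ} (hx : Rws x) (hy : Rws y)
    (hg : GOk β g) (hg' : GOk β g') (hs : SpA s) (ht : SpA t) (n : ℕ) :
    DZ c c' s t x y n =
      Z3 (3 / 5 * l) (-(17 / 10 * l)) n n (GX c β x y g s) (GX c' β y x g' t) :=
  tendsto_nhds_unique (pull_lim (by norm_num) le_rfl hx hy (GOk.one _) (GOk.one _) hs ht n)
    (pull_lim hβ hβ' hx hy hg hg' hs ht n)

/-- **Joint continuity in the rows and the spectators.** -/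
theorem DZ_tendsto {E : Type*} {F : Filter E} [F.IsCountablyGenerated] {R : ℝ} (c c' : ℂ)
    {x y : E → Fin m → ℂ} {x0 y0 : Fin m → ℂ}
    (hx : ∀ᶠ e in F, Rws (x e) ∧ Rws (y e) ∧ (∀ i, |(x e i).im| ≤ R) ∧ ∀ i, |(y e i).im| ≤ R)
    (hx0 : Rws x0) (hy0 : Rws y0) (tx : ∀ i, Tendsto (fun e => x e i) F (𝓝 (x0 i)))
    (ty : ∀ i, Tendsto (fun e => y e i) F (𝓝 (y0 i))) {s t : E → ℂ → ℂ} {s0 t0 : ℂ → ℂ} {D : ℝ}
    (hD : 0 ≤ D)
    (hs : ∀ᶠ e in F, Measurable (s e) ∧ Measurable (t e) ∧ ∀ z : ℂ, z.re ∈ K3 →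
      ‖s e z‖ ≤ D ∧ ‖t e z‖ ≤ D)
    (ts : ∀ z : ℂ, z.re ∈ K3 → Tendsto (fun e => s e z) F (𝓝 (s0 z)))
    (tt : ∀ z : ℂ, z.re ∈ K3 → Tendsto (fun e => t e z) F (𝓝 (t0 z))) (n : ℕ) :
    Tendsto (fun e => DZ c c' (s e) (t e) (x e) (y e) n) F (𝓝 (DZ c c' s0 t0 x0 y0 n)) :=
  Z3_tendsto_rows (by norm_num) le_rfl c c' (GOk.one _) (GOk.one _) hx hx0 hy0 tx ty hD hs ts tt n

/-- **The class formula on straight lines**, any cutoffs `g` (quanta) and `g0` (strings). -/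
theorem DZ_cls {β : ℝ} (hβ : 0 < β) (hβ' : β ≤ 4 / 3) (hx : Rws x) (hy : Rws y)
    {g g' g0 g0' s2 t2 : ℂ → ℂ} (hg : GOk β g) (hg' : GOk β g') (hg0 : GOk (4 / 3) g0)
    (hg0' : GOk (4 / 3) g0') (hs : SpA s) (ht : SpA t) (hs2 : SpecQ true 0 s s2)
    (ht2 : SpecQ false 0 t t2) (n : ℕ)
    (lnX : ∀ p p' : ℕ, (Fin p → O3) → (Fin p' → O3) → Fin p → ℝ)
    (lnY : ∀ p p' : ℕ, (Fin p → O3) → (Fin p' → O3) → Fin p' → ℝ)
    (hlX : ∀ p p' k k' i, lnX p p' k k' i ∈ Set.Icc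
      (lo4 (3 / 5 * l) (-(17 / 10 * l)) (-(13 / 10 * l)) (-(7 / 10 * l)) (some (k i)))
      (lo4 (3 / 5 * l) (-(5 / 4 * l)) (-(7 / 10 * l)) (-(l / 2)) (some (k i))))
    (hlY : ∀ p p' k k' i, lnY p p' k k' i ∈ Set.Icc
      (lo4 (3 / 5 * l) (-(17 / 10 * l)) (-(13 / 10 * l)) (-(7 / 10 * l)) (some (k' i)))
      (lo4 (3 / 5 * l) (-(5 / 4 * l)) (-(7 / 10 * l)) (-(l / 2)) (some (k' i)))) :
    DZ c c' s t x y n =
      ZobjQ (XX c β x y g g0 s s2) (XX c' β y x g' g0' t t2) (3 / 5 * l) n n lnX lnY := by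
  rw [DZ_GX hβ hβ' hx hy hg hg' hs ht n]
  exact stageX hβ hβ' hx hy hg hg0 hg' hg0' n n (by simpa using hs2) (by simpa using ht2)
    lnX lnY hlX hlY

end DZ

/-! ### the legs -/

/-- the factor of the two one body legs on a quantum of X; `p`, `q` exchanged on Y -/
def Lg (p q u : ℂ) : ℂ := sin (q - u - 3 * l) / sin (p - u + 2 * l)

theorem Lg_meas (p q : ℂ) : Measurable (Lg p q) := by
  unfold Lg
  fun_prop

theorem Lg_den {p u : ℂ} (h : Real.sin (p.re - u.re + 2 * l) ≠ 0) : sin (p - u + 2 * l) ≠ 0 := by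
  refine Bd.sin_ne_zero_of_re ?_
  have e : (p - u + 2 * l).re = p.re - u.re + 2 * l := by simp
  rw [e]
  exact h

theorem Lg_diff {p q u : ℂ} (h : Real.sin (p.re - u.re + 2 * l) ≠ 0) :
    DifferentiableAt ℂ (Lg p q) u := by
  have := Lg_den h
  unfold Lg
  fun_prop (disch := exact this)

theorem Lg_gr (α β : ℝ) (p q : ℂ) : Gr α β 0 (Lg p q) := by
  have h1 := Gr.sin (α := α) (β := β) (q - 3 * l)
  have h2 := Gr.inv_sin (α := α) (β := β) (p + 2 * l)
  refine ((h1.mul h2).mono (κ' := 0) (by norm_num)).congr 0 fun z _ _ _ => ?_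
  unfold Lg
  rw [show q - z - 3 * l = -(z - (q - 3 * l)) by ring,
    show p - z + 2 * l = -(z - (p + 2 * l)) by ring, Complex.sin_neg, Complex.sin_neg,
    neg_div_neg_eq, div_eq_mul_inv]

/-- the legs are spectators of the contour identity for `- 7 l / 5 < Re p < 43 l / 10` -/
theorem Lg_SpA {p q : ℂ} (h1 : -(7 / 5 * l) < p.re) (h2 : p.re < 43 / 10 * l) : SpA (Lg p q) where
  meas := Lg_meas p q
  diff z h3 h4 := Lg_diff (by
    have hl := Bd.l_pos
    exact sin_ne_pos (by linarith) (by linarith))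
  gr := Lg_gr _ _ p q

theorem Bdd_of_Gr {K : Set ℝ} (hK : IsCompact K) {α β s : ℝ} (hs : ∀ r ∈ K, β ≤ r ∧ r ≤ α)
    {f : ℂ → ℂ} (hf : Gr α β s f) (hc : ∀ z : ℂ, z.re ∈ K → ContinuousAt f z) : Bdd K s f := by
  obtain ⟨C, R, hC, h⟩ := hf
  exact bdd_glueR hK hc ⟨C, hC, fun z hz hi => h z (hs _ hz).1 (hs _ hz).2 hi⟩

/-- the legs as spectators of the class formula for `- l < Re p < 37 l / 10` -/
theorem Lg_SpecQ (b : Bool) {p q : ℂ} (h1 : -l < p.re) (h2 : p.re < 37 / 10 * l) :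
    SpecQ b 0 (Lg p q) (fun w => Lg p q w * Lg p q (w - l)) := by
  have hl := Bd.l_pos
  have d1 : ∀ z : ℂ, z.re ∈ K1 → DifferentiableAt ℂ (Lg p q) z := by
    intro z hz
    refine Lg_diff ?_
    rcases hz with ⟨h3, h4⟩ | ⟨h3, h4⟩
    · exact sin_ne_pos (by linarith) (by linarith)
    · exact sin_ne_pos (by linarith) (by linarith)
  have d2 : ∀ z : ℂ, z.re ∈ K2 →
      DifferentiableAt ℂ (fun w => Lg p q w * Lg p q (w - l)) z := by
    intro z hz
    obtain ⟨h3, h4⟩ := hz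
    refine (Lg_diff (sin_ne_pos (by linarith) (by linarith))).mul
      ((Lg_diff (u := z - l) ?_).comp z (differentiableAt_id.sub_const _))
    have e : (z - (l : ℂ)).re = z.re - l := by simp
    rw [e]
    exact sin_ne_pos (by linarith) (by linarith)
  have g0 : Gr l (-(23 / 10 * l)) 0 (Lg p q) := Lg_gr _ _ p q
  have b1 : Bdd K1 0 (Lg p q) := Bdd_of_Gr isCompact_K1 (fun r hr => K1_KK hr) g0
    fun z hz => (d1 z hz).continuousAt
  have g2 : Gr l (-(13 / 10 * l)) 0 (fun w => Lg p q w * Lg p q (w - l)) := by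
    have h3 : Gr l (-(13 / 10 * l)) 0 (Lg p q) := Lg_gr _ _ p q
    have h4 : Gr l (-(13 / 10 * l)) 0 (fun w => Lg p q (w - l)) := by
      obtain ⟨C, R, hC, h⟩ := Lg_gr l (-(23 / 10 * l)) p q
      refine ⟨C, R, hC, fun z h5 h6 h7 => ?_⟩
      have e1 : (z - (l : ℂ)).re = z.re - l := by simp
      have e2 : (z - (l : ℂ)).im = z.im := by simp
      have := h (z - l) (by rw [e1]; linarith) (by rw [e1]; linarith) (by rw [e2]; exact h7)
      rwa [e2] at this
    exact (h3.mul h4).mono (by norm_num)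
  have b2 : Bdd K2 0 (fun w => Lg p q w * Lg p q (w - l)) :=
    Bdd_of_Gr isCompact_K2 (fun r hr => ⟨hr.1, hr.2.trans (by linarith)⟩) g2
      fun z hz => (d2 z hz).continuousAt
  refine ⟨Lg_meas p q, (Lg_meas p q).mul ((Lg_meas p q).comp (measurable_id.sub_const _)),
    ?_, ?_, d1, d2, fun z _ => rfl⟩
  · simpa using b1
  · simpa using b2

end PBX

end
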