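import Pool.Agent.NURow.StageQ
import Pool.Agent.PB.WardIg

/-!
# Plan B: the functional of the straight lines (helper91)

`F0 Z α n n' lnX lnY Ψ` = the sum over all words of objects of the joint integral over the heights of
all quanta and objects of `Ψ * weight`; `Ψ` = a function of the species, kinds and positions.

* `F0_one`: `F0 .. 1` is the sum `ZobjQ` of stage 2;
* `F0_mul`: a factor `1 + ε a` on every one body function is the insertion `∏ (1 + ε a)`;
* `hasDerivAt_F0`: its derivative at `ε = 0` is the insertion of the linear statistic `St a`.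
-/

set_option autoImplicit false
set_option linter.unusedSectionVars false

noncomputable section

open Complex MeasureTheory Finset

namespace PBI

open NUP1 NUP1S NUP1.Bd NURow

/-! ## an abstract derivative -/

section abs

variable {Ω ι : Type*} [MeasurableSpace Ω] {μ : Measure Ω} [Fintype ι] [DecidableEq ι]

theorem norm_prod_one_add_le {a : ι → ℂ} {C : ℝ} (hC : 0 ≤ C) (ha : ∀ i, ‖a i‖ ≤ C) {ε : ℂ}
    (hε : ‖ε‖ ≤ 1) (s : Finset ι) : ‖∏ i ∈ s, (1 + ε * a i)‖ ≤ (1 + C) ^ Fintype.card ι := by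
  rw [norm_prod]
  calc _ ≤ ∏ _i ∈ s, (1 + C) := by
        refine Finset.prod_le_prod (fun i _ => norm_nonneg _) fun i _ => ?_
        refine (norm_add_le _ _).trans ?_
        rw [norm_one, norm_mul]
        have := mul_le_mul hε (ha i) (norm_nonneg _) zero_le_one
        linarith
    _ = (1 + C) ^ s.card := by rw [Finset.prod_const]
    _ ≤ _ := pow_le_pow_right₀ (by linarith) (Finset.card_le_univ s)

/-- derivative of an integral with the factor `∏ (1 + ε a i)` -/
theorem hasDerivAt_int {g : Ω → ℂ} {a : ι → Ω → ℂ} {C : ℝ} (hC : 0 ≤ C) (hg : Integrable g μ)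
    (ha : ∀ i, AEStronglyMeasurable (a i) μ) (hb : ∀ i ω, ‖a i ω‖ ≤ C) :
    HasDerivAt (fun ε : ℂ => ∫ ω, g ω * ∏ i, (1 + ε * a i ω) ∂μ)
      (∫ ω, g ω * ∑ i, a i ω ∂μ) 0 := by
  have key := hasDerivAt_integral_of_dominated_loc_of_deriv_le (μ := μ) (𝕜 := ℂ)
    (F := fun ε ω => g ω * ∏ i, (1 + ε * a i ω))
    (F' := fun ε ω => g ω * ∑ i, (∏ j ∈ univ.erase i, (1 + ε * a j ω)) * a i ω)
    (x₀ := 0) (s := Metric.ball 0 1)
    (bound := fun ω => ‖g ω‖ * (Fintype.card ι * ((1 + C) ^ Fintype.card ι * C)))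
    (Metric.ball_mem_nhds _ one_pos) ?_ ?_ ?_ ?_ ?_ ?_
  · have h2 := key.2
    refine h2.congr_deriv ?_
    refine integral_congr_ae (Filter.Eventually.of_forall fun ω => ?_)
    simp
  · refine Filter.Eventually.of_forall fun ε => hg.1.mul ?_
    exact Finset.aestronglyMeasurable_fun_prod _ fun i _ =>
      aestronglyMeasurable_const.add ((ha i).const_mul ε)
  · simpa using hg
  · refine hg.1.mul ?_
    refine Finset.aestronglyMeasurable_fun_sum _ fun i _ => ?_
    refine AEStronglyMeasurable.mul ?_ (ha i)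
    exact Finset.aestronglyMeasurable_fun_prod _ fun i _ =>
      aestronglyMeasurable_const.add ((ha i).const_mul 0)
  · refine Filter.Eventually.of_forall fun ω ε hε => ?_
    rw [norm_mul]
    refine mul_le_mul_of_nonneg_left ?_ (norm_nonneg _)
    have hε' : ‖ε‖ ≤ 1 := by
      rw [Metric.mem_ball, dist_zero_right] at hε
      exact hε.le
    refine (norm_sum_le _ _).trans ?_
    calc _ ≤ ∑ _i : ι, ((1 + C) ^ Fintype.card ι * C) := by
          refine Finset.sum_le_sum fun i _ => ?_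
          rw [norm_mul]
          exact mul_le_mul (norm_prod_one_add_le hC (fun i => hb i ω) hε' _) (hb i ω)
            (norm_nonneg _) (by positivity)
      _ = _ := by rw [Finset.sum_const, Finset.card_univ, nsmul_eq_mul]
  · exact hg.norm.mul_const _
  · refine Filter.Eventually.of_forall fun ω ε _ => ?_
    have h1 := HasDerivAt.fun_finsetProd (u := (univ : Finset ι)) (x := ε)
      (f := fun i ε => 1 + ε * a i ω) (f' := fun i => a i ω)
      (fun i _ => by simpa using ((hasDerivAt_id ε).mul_const (a i ω)).const_add 1)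
    simpa only [smul_eq_mul] using h1.const_mul (g ω)

end abs

/-! ## classes -/

/-- one body data, linear statistics: species, kind, position -/
abbrev Stt := Bool → Option O3 → ℂ → ℂ

/-- species and type -/
def co (c : Bool × Option O3) : CO := (c.1, ob4 c.2)

/-- an insertion: a function of the species, kinds and positions of a finite family -/
abbrev Ins := ∀ (ι : Type) [Fintype ι], (ι → Bool × Option O3) → (ι → ℂ) → ℂ

/-- the linear statistic -/
def St (a : Stt) : Ins := fun _ _ c z => ∑ i, a (c i).1 (c i).2 (z i)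

/-- multiplication of the one body functions by `1 + ε a` -/
def tw (Z a : Stt) (ε : ℂ) : Stt := fun s k z => Z s k z * (1 + ε * a s k z)

@[simp] theorem tw_zero (Z a : Stt) : tw Z a 0 = Z := by
  funext s k z
  simp [tw]

section one

variable {ι : Type} [Fintype ι]

/-- the integrand of a class -/
def Fz (c : ι → Bool × Option O3) (Z : Stt) (z : ι → ℂ) : ℂ :=
  Fg (fun i => co (c i)) (fun i => Z (c i).1 (c i).2) z

theorem Fz_tw (c : ι → Bool × Option O3) (Z a : Stt) (ε : ℂ) (z : ι → ℂ) :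
    Fz c (tw Z a ε) z = Fz c Z z * ∏ i, (1 + ε * a (c i).1 (c i).2 (z i)) := by
  unfold Fz Fg tw
  rw [Finset.prod_mul_distrib]
  ring

/-- the integral of a class with an insertion -/
def Iz (c : ι → Bool × Option O3) (x : ι → ℝ) (Z : Stt) (Ψ : Ins) : ℂ :=
  ∫ t : ι → ℝ, Ψ ι c (pos x t) * Fz c Z (pos x t) ∂(Measure.pi fun _ => volume)

/-- integrability with the insertion -/
def IzOk (c : ι → Bool × Option O3) (x : ι → ℝ) (Z : Stt) (Ψ : Ins) : Prop :=
  Integrable (fun t : ι → ℝ => Ψ ι c (pos x t) * Fz c Z (pos x t)) (Measure.pi fun _ => volume)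

/-- a statistic which is bounded on the lines of the class -/
def StOk (c : ι → Bool × Option O3) (x : ι → ℝ) (C : ℝ) (a : Stt) : Prop :=
  (∀ s k, Measurable (a s k)) ∧ ∀ i, ∀ t : ℝ, ‖a (c i).1 (c i).2 (vl (x i) t)‖ ≤ C

theorem StOk.meas {c : ι → Bool × Option O3} {x : ι → ℝ} {C : ℝ} {a : Stt} (h : StOk c x C a)
    (i : ι) : Measurable fun t : ι → ℝ => a (c i).1 (c i).2 (pos x t i) :=
  (h.1 _ _).comp (measurable_pos x i)

theorem hasDerivAt_Iz [DecidableEq ι] {c : ι → Bool × Option O3} {x : ι → ℝ} {Z a : Stt} {Ψ : Ins} {C : ℝ}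
    (hC : 0 ≤ C) (h : IzOk c x Z Ψ) (ha : StOk c x C a) :
    HasDerivAt (fun ε : ℂ => Iz c x (tw Z a ε) Ψ) (Iz c x Z fun ι _ c z => Ψ ι c z * St a ι c z)
      0 := by
  have key := hasDerivAt_int (μ := Measure.pi fun _ : ι => (volume : Measure ℝ)) hC h
    (a := fun i t => a (c i).1 (c i).2 (pos x t i)) (fun i => (ha.meas i).aestronglyMeasurable)
    (fun i t => ha.2 i _)
  refine (key.congr_deriv ?_).congr_of_eventuallyEq (Filter.Eventually.of_forall fun ε => ?_)
  · unfold Iz St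
    refine integral_congr_ae (Filter.Eventually.of_forall fun t => ?_)
    simp only []
    ring
  · unfold Iz
    refine integral_congr_ae (Filter.Eventually.of_forall fun t => ?_)
    simp only []
    rw [Fz_tw]
    ring

theorem IzOk.mul_St {c : ι → Bool × Option O3} {x : ι → ℝ} {Z a : Stt} {Ψ : Ins} {C : ℝ}
    (h : IzOk c x Z Ψ) (ha : StOk c x C a) :
    IzOk c x Z fun ι _ c z => Ψ ι c z * St a ι c z := by
  unfold IzOk at *
  have h1 : Integrable (fun t : ι → ℝ => (∑ i, a (c i).1 (c i).2 (pos x t i)) *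
      (Ψ ι c (pos x t) * Fz c Z (pos x t))) (Measure.pi fun _ => volume) := by
    refine h.bdd_mul (c := Fintype.card ι * C) ?_ (Filter.Eventually.of_forall fun t => ?_)
    · exact (Finset.measurable_fun_sum _ fun i _ => ha.meas i).aestronglyMeasurable
    · refine (norm_sum_le _ _).trans ?_
      calc _ ≤ ∑ _i : ι, C := Finset.sum_le_sum fun i _ => ha.2 i _
        _ = _ := by rw [Finset.sum_const, Finset.card_univ, nsmul_eq_mul]
  refine h1.congr (Filter.Eventually.of_forall fun t => ?_)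
  simp only [St]
  ring

theorem IzOk.tw {c : ι → Bool × Option O3} {x : ι → ℝ} {Z a : Stt} {Ψ : Ins} {C : ℝ}
    (hC : 0 ≤ C) (h : IzOk c x Z Ψ) (ha : StOk c x C a) (ε : ℂ) : IzOk c x (tw Z a ε) Ψ := by
  unfold IzOk at *
  have h1 : Integrable (fun t : ι → ℝ => (∏ i, (1 + ε * a (c i).1 (c i).2 (pos x t i))) *
      (Ψ ι c (pos x t) * Fz c Z (pos x t))) (Measure.pi fun _ => volume) := by
    refine h.bdd_mul (c := (1 + ‖ε‖ * C) ^ Fintype.card ι) ?_
      (Filter.Eventually.of_forall fun t => ?_)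
    · exact (Finset.measurable_fun_prod _ fun i _ =>
        ((ha.meas i).const_mul ε).const_add 1).aestronglyMeasurable
    · rw [norm_prod]
      calc _ ≤ ∏ _i : ι, (1 + ‖ε‖ * C) := by
            refine Finset.prod_le_prod (fun i _ => norm_nonneg _) fun i _ => ?_
            refine (norm_add_le _ _).trans ?_
            rw [norm_one, norm_mul]
            have := mul_le_mul_of_nonneg_left (ha.2 i (t i)) (norm_nonneg ε)
            exact add_le_add le_rfl this
        _ = _ := by rw [Finset.prod_const, Finset.card_univ]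
  refine h1.congr (Filter.Eventually.of_forall fun t => ?_)
  simp only [Fz_tw]
  ring

end one

/-! ## the sum over the words -/

/-- species and kinds of a word with `a`, `a'` quanta on A -/
def ck (a a' : ℕ) {p p' : ℕ} (k : Fin p → O3) (k' : Fin p' → O3) :
    (Fin a ⊕ Fin p) ⊕ (Fin a' ⊕ Fin p') → Bool × Option O3 :=
  Sum.elim (fun i => (true, kA a k i)) (fun i => (false, kA a' k' i))

/-- the lines -/
def lA (α : ℝ) (a a' : ℕ) {p p' : ℕ} (x : Fin p → ℝ) (x' : Fin p' → ℝ) :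
    (Fin a ⊕ Fin p) ⊕ (Fin a' ⊕ Fin p') → ℝ :=
  Sum.elim (Sum.elim (fun _ => α) x) (Sum.elim (fun _ => α) x')

/-- the weight of a word -/
def cw (n n' : ℕ) {p p' : ℕ} (k : Fin p → O3) (k' : Fin p' → O3) : ℂ :=
  (((nA n' k').factorial : ℕ) : ℂ)⁻¹ * ((∏ i, wt (ob4 (kA (nA n' k') k' i))) *
    ((((nA n k).factorial : ℕ) : ℂ)⁻¹ * (∏ i, wt (ob4 (kA (nA n k) k i)))))

/-- sum over the words -/
def Sw (n n' : ℕ) (f : ∀ p p' : ℕ, (Fin p → O3) → (Fin p' → O3) → ℂ) : ℂ :=
  ∑ p' ∈ Finset.range (n' + 1), ∑ p ∈ Finset.range (n + 1),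
    ((p'.factorial : ℕ) : ℂ)⁻¹ * ((p.factorial : ℕ) : ℂ)⁻¹ *
    ∑ k' : Fin p' → O3, ∑ k : Fin p → O3,
      if ∑ i, c3 (k' i) ≤ n' ∧ ∑ i, c3 (k i) ≤ n then f p p' k k' else 0

theorem Sw_congr {n n' : ℕ} {f g : ∀ p p' : ℕ, (Fin p → O3) → (Fin p' → O3) → ℂ}
    (h : ∀ p p' (k : Fin p → O3) (k' : Fin p' → O3), ∑ i, c3 (k' i) ≤ n' → ∑ i, c3 (k i) ≤ n →
      f p p' k k' = g p p' k k') : Sw n n' f = Sw n n' g := by
  unfold Sw
  refine Finset.sum_congr rfl fun p' _ => Finset.sum_congr rfl fun p _ => ?_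
  congr 1
  refine Finset.sum_congr rfl fun k' _ => Finset.sum_congr rfl fun k _ => ?_
  split_ifs with hc
  · exact h p p' k k' hc.1 hc.2
  · rfl

theorem Sw_add {n n' : ℕ} (f g : ∀ p p' : ℕ, (Fin p → O3) → (Fin p' → O3) → ℂ) :
    Sw n n' (fun p p' k k' => f p p' k k' + g p p' k k') = Sw n n' f + Sw n n' g := by
  unfold Sw
  rw [← Finset.sum_add_distrib]
  refine Finset.sum_congr rfl fun p' _ => ?_
  rw [← Finset.sum_add_distrib]
  refine Finset.sum_congr rfl fun p _ => ?_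
  rw [← mul_add]
  congr 1
  rw [← Finset.sum_add_distrib]
  refine Finset.sum_congr rfl fun k' _ => ?_
  rw [← Finset.sum_add_distrib]
  refine Finset.sum_congr rfl fun k _ => ?_
  split_ifs <;> simp

theorem Sw_smul {n n' : ℕ} (c : ℂ) (f : ∀ p p' : ℕ, (Fin p → O3) → (Fin p' → O3) → ℂ) :
    Sw n n' (fun p p' k k' => c * f p p' k k') = c * Sw n n' f := by
  unfold Sw
  simp only [Finset.mul_sum, mul_ite, mul_zero]
  refine Finset.sum_congr rfl fun p' _ => Finset.sum_congr rfl fun p _ =>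
    Finset.sum_congr rfl fun k' _ => Finset.sum_congr rfl fun k _ => ?_
  split_ifs
  · ring
  · rfl

theorem Sw_zero {n n' : ℕ} {f : ∀ p p' : ℕ, (Fin p → O3) → (Fin p' → O3) → ℂ}
    (h : ∀ p p' (k : Fin p → O3) (k' : Fin p' → O3), ∑ i, c3 (k' i) ≤ n' → ∑ i, c3 (k i) ≤ n →
      f p p' k k' = 0) : Sw n n' f = 0 := by
  rw [Sw_congr (g := fun _ _ _ _ => 0) h]
  unfold Sw
  simp

theorem hasDerivAt_Sw {𝕜 : Type*} [NontriviallyNormedField 𝕜] [NormedAlgebra 𝕜 ℂ] {n n' : ℕ}
    {f : 𝕜 → ∀ p p' : ℕ, (Fin p → O3) → (Fin p' → O3) → ℂ}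
    {g : ∀ p p' : ℕ, (Fin p → O3) → (Fin p' → O3) → ℂ} {e0 : 𝕜}
    (h : ∀ p p' (k : Fin p → O3) (k' : Fin p' → O3), ∑ i, c3 (k' i) ≤ n' → ∑ i, c3 (k i) ≤ n →
      HasDerivAt (fun e => f e p p' k k') (g p p' k k') e0) :
    HasDerivAt (fun e => Sw n n' (f e)) (Sw n n' g) e0 := by
  unfold Sw
  refine HasDerivAt.fun_sum fun p' _ => HasDerivAt.fun_sum fun p _ => ?_
  refine HasDerivAt.const_mul _ (HasDerivAt.fun_sum fun k' _ => HasDerivAt.fun_sum fun k _ => ?_)
  by_cases hc : ∑ i, c3 (k' i) ≤ n' ∧ ∑ i, c3 (k i) ≤ n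
  · simp only [if_pos hc]
    exact h p p' k k' hc.1 hc.2
  · simp only [if_neg hc]
    exact hasDerivAt_const _ _

/-- the lines of the objects of all words -/
structure Lns where
  X : ∀ p p' : ℕ, (Fin p → O3) → (Fin p' → O3) → Fin p → ℝ
  Y : ∀ p p' : ℕ, (Fin p → O3) → (Fin p' → O3) → Fin p' → ℝ

/-- all lines of a word -/
def Lns.all (L : Lns) (α : ℝ) (n n' : ℕ) {p p' : ℕ} (k : Fin p → O3) (k' : Fin p' → O3) :
    (Fin (nA n k) ⊕ Fin p) ⊕ (Fin (nA n' k') ⊕ Fin p') → ℝ :=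
  lA α (nA n k) (nA n' k') (L.X p p' k k') (L.Y p p' k k')

/-- species and kinds of a word -/
def cl (n n' : ℕ) {p p' : ℕ} (k : Fin p → O3) (k' : Fin p' → O3) :
    (Fin (nA n k) ⊕ Fin p) ⊕ (Fin (nA n' k') ⊕ Fin p') → Bool × Option O3 :=
  ck (nA n k) (nA n' k') k k'

/-- **the functional of the straight lines** -/
def F0 (α : ℝ) (n n' : ℕ) (L : Lns) (Z : Stt) (Ψ : Ins) : ℂ :=
  Sw n n' fun _ _ k k' => cw n n' k k' * Iz (cl n n' k k') (L.all α n n' k k') Z Ψ

/-- a property of all words -/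
def AllW (α : ℝ) (n n' : ℕ) (L : Lns)
    (P : ∀ {ι : Type} [Fintype ι], (ι → Bool × Option O3) → (ι → ℝ) → Prop) : Prop :=
  ∀ p p' (k : Fin p → O3) (k' : Fin p' → O3), ∑ i, c3 (k' i) ≤ n' → ∑ i, c3 (k i) ≤ n →
    P (cl n n' k k') (L.all α n n' k k')

/-- integrability of all words with the insertion -/
def F0Ok (α : ℝ) (n n' : ℕ) (L : Lns) (Z : Stt) (Ψ : Ins) : Prop :=
  AllW α n n' L fun c x => IzOk c x Z Ψ

/-- the statistic is bounded on the lines -/
def SOk (α : ℝ) (n n' : ℕ) (L : Lns) (a : Stt) : Prop :=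
  ∃ C : ℝ, 0 ≤ C ∧ AllW α n n' L fun c x => StOk c x C a

section F0
variable {α : ℝ} {n n' : ℕ} {L : Lns} {Z a : Stt} {Ψ Ψ' : Ins}

theorem F0_add (h : F0Ok α n n' L Z Ψ) (h' : F0Ok α n n' L Z Ψ') :
    F0 α n n' L Z (fun ι _ c z => Ψ ι c z + Ψ' ι c z) = F0 α n n' L Z Ψ + F0 α n n' L Z Ψ' := by
  unfold F0
  rw [← Sw_add]
  refine Sw_congr fun p p' k k' h1 h2 => ?_
  rw [← mul_add]
  congr 1
  unfold Iz
  rw [← integral_add (h p p' k k' h1 h2) (h' p p' k k' h1 h2)]
  refine integral_congr_ae (Filter.Eventually.of_forall fun t => ?_)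
  simp only []
  ring

theorem F0_smul (c : ℂ) :
    F0 α n n' L Z (fun ι _ c' z => c * Ψ ι c' z) = c * F0 α n n' L Z Ψ := by
  unfold F0
  rw [← Sw_smul]
  refine Sw_congr fun p p' k k' h1 h2 => ?_
  have : Iz (cl n n' k k') (L.all α n n' k k') Z (fun ι _ c' z => c * Ψ ι c' z) =
      c * Iz (cl n n' k k') (L.all α n n' k k') Z Ψ := by
    unfold Iz
    rw [← integral_const_mul]
    refine integral_congr_ae (Filter.Eventually.of_forall fun t => ?_)
    simp only []
    ring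
  rw [this]
  ring

theorem F0Ok.add (h : F0Ok α n n' L Z Ψ) (h' : F0Ok α n n' L Z Ψ') :
    F0Ok α n n' L Z (fun ι _ c z => Ψ ι c z + Ψ' ι c z) := by
  intro p p' k k' h1 h2
  refine ((h p p' k k' h1 h2).add (h' p p' k k' h1 h2)).congr
    (Filter.Eventually.of_forall fun t => ?_)
  simp only [Pi.add_apply]
  ring

theorem F0Ok.smul (h : F0Ok α n n' L Z Ψ) (c : ℂ) :
    F0Ok α n n' L Z (fun ι _ c' z => c * Ψ ι c' z) := by
  intro p p' k k' h1 h2
  refine ((h p p' k k' h1 h2).const_mul c).congr (Filter.Eventually.of_forall fun t => ?_)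
  simp only []
  ring

theorem F0Ok.mul_St (h : F0Ok α n n' L Z Ψ) (ha : SOk α n n' L a) :
    F0Ok α n n' L Z (fun ι _ c z => Ψ ι c z * St a ι c z) := by
  obtain ⟨C, hC, ha⟩ := ha
  exact fun p p' k k' h1 h2 => (h p p' k k' h1 h2).mul_St (ha p p' k k' h1 h2)

theorem F0Ok.tw (h : F0Ok α n n' L Z Ψ) (ha : SOk α n n' L a) (ε : ℂ) :
    F0Ok α n n' L (tw Z a ε) Ψ := by
  obtain ⟨C, hC, ha⟩ := ha
  exact fun p p' k k' h1 h2 => (h p p' k k' h1 h2).tw hC (ha p p' k k' h1 h2) ε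

/-- **the derivative at `ε = 0` is the insertion of the linear statistic** -/
theorem hasDerivAt_F0 (h : F0Ok α n n' L Z Ψ) (ha : SOk α n n' L a) :
    HasDerivAt (fun ε : ℂ => F0 α n n' L (PBI.tw Z a ε) Ψ)
      (F0 α n n' L Z fun ι _ c z => Ψ ι c z * St a ι c z) 0 := by
  obtain ⟨C, hC, ha⟩ := ha
  unfold F0
  exact hasDerivAt_Sw fun p p' k k' h1 h2 =>
    (hasDerivAt_Iz hC (h p p' k k' h1 h2) (ha p p' k k' h1 h2)).const_mul _

end F0

/-! ## the insertion `1` -/

theorem Fz_ck (a a' : ℕ) {p p' : ℕ} (k : Fin p → O3) (k' : Fin p' → O3) (Z : Stt)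
    (z : (Fin a ⊕ Fin p) ⊕ (Fin a' ⊕ Fin p') → ℂ) :
    Fz (ck a a' k k') Z z = Fg (oo (fun i => ob4 (kA a k i)) (fun i => ob4 (kA a' k' i)))
      (Sum.elim (fun i => Z true (kA a k i)) (fun i => Z false (kA a' k' i))) z := by
  have e1 : (fun i => co (ck a a' k k' i)) =
      oo (fun i => ob4 (kA a k i)) (fun i => ob4 (kA a' k' i)) := by
    funext i
    rcases i with i | i <;> rfl
  have e2 : (fun i => Z (ck a a' k k' i).1 (ck a a' k k' i).2) =
      Sum.elim (fun i => Z true (kA a k i)) (fun i => Z false (kA a' k' i)) := by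
    funext i
    rcases i with i | i <;> rfl
  unfold Fz
  rw [e1, e2]

/-- **the insertion `1`: the sum of stage 2** -/
theorem F0_one {α : ℝ} {n n' : ℕ} {L : Lns} {Z : Stt}
    (h : F0Ok α n n' L Z fun _ _ _ _ => 1) :
    F0 α n n' L Z (fun _ _ _ _ => 1) = ZobjQ (Z true) (Z false) α n n' L.X L.Y := by
  unfold F0 ZobjQ Sw
  refine Finset.sum_congr rfl fun p' _ => Finset.sum_congr rfl fun p _ => ?_
  congr 1
  refine Finset.sum_congr rfl fun k' _ => Finset.sum_congr rfl fun k _ => ?_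
  split_ifs with hc
  · have h1 := h p p' k k' hc.1 hc.2
    unfold IzOk cl Lns.all lA at h1
    simp only [one_mul, Fz_ck] at h1
    unfold Iz cl Lns.all lA
    simp only [one_mul, Fz_ck]
    have h2 := Ig_canon (Z true) (Z false) α _ _ k k' _ _ h1
    unfold Ig at h2
    rw [h2]
    unfold cw termQ gas Ig
    rw [prod_wt_kA, prod_wt_kA, ← integral_const_mul, ← integral_const_mul]
    refine integral_congr_ae (Filter.Eventually.of_forall fun t => ?_)
    simp only [wt]
    ring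
  · rfl

end PBI

end
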