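import Mathlib

/-!
# Plan B: the scalar sequence lemma

If `g (j + 2) (1 + θ / j) ≤ g j + C j ^ (-(1 + c))` and `2 c < θ` then `g j = O(j ^ (-c))`.
-/

set_option autoImplicit false

open Filter

namespace Pool.Agent.PB.Rec

theorem rpow_shift {x c : ℝ} (hx : 0 < x) (hc : 0 ≤ c) :
    x ^ (-c) * (1 - 2 * c / x) ≤ (x + 2) ^ (-c) := by
  have h1 : x + 2 = x * (1 + 2 / x) := by field_simp
  have h2 : 0 < 1 + 2 / x := by positivity
  rw [h1, Real.mul_rpow hx.le h2.le]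
  refine mul_le_mul_of_nonneg_left ?_ (Real.rpow_nonneg hx.le _)
  rw [Real.rpow_def_of_pos h2]
  have h3 : Real.log (1 + 2 / x) ≤ 2 / x := by
    have := Real.log_le_sub_one_of_pos h2
    linarith
  have h4 : 1 - 2 * c / x ≤ Real.exp (-(2 / x) * c) := by
    have h5 := Real.add_one_le_exp (-(2 / x) * c)
    have h6 : -(2 / x) * c + 1 = 1 - 2 * c / x := by ring
    linarith
  refine h4.trans (Real.exp_le_exp.2 ?_)
  nlinarith [mul_le_mul_of_nonneg_right h3 hc]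

/-- one step -/
theorem seq_step {g g' θ c C B x : ℝ} (hx : 0 < x) (hc : 0 ≤ c) (hθ : 2 * c < θ) (hB : 0 ≤ B)
    (hx1 : 2 * c * θ / x ≤ (θ - 2 * c) / 2) (hBC : C ≤ B * ((θ - 2 * c) / 2))
    (h : g' * (1 + θ / x) ≤ g + C * x ^ (-(1 + c))) (hg : g ≤ B * x ^ (-c)) :
    g' ≤ B * (x + 2) ^ (-c) := by
  have hθ0 : 0 < θ := by linarith
  have h0 : 0 < 1 + θ / x := by positivity
  have hp : 0 < x ^ (-c) := Real.rpow_pos_of_pos hx _
  have h1 : x ^ (-(1 + c)) = x ^ (-c) / x := by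
    rw [show -(1 + c) = -c + -1 by ring, Real.rpow_add hx, Real.rpow_neg_one]
    rfl
  have h2 := rpow_shift hx hc
  -- `(B + C / x) ≤ B (1 + θ / x) (1 - 2 c / x)`
  have h3 : B + C / x ≤ B * ((1 + θ / x) * (1 - 2 * c / x)) := by
    have e : B * ((1 + θ / x) * (1 - 2 * c / x)) = B + B * ((θ - 2 * c) - 2 * c * θ / x) / x := by
      field_simp
      ring
    rw [e]
    have h5 : C ≤ B * ((θ - 2 * c) - 2 * c * θ / x) := by
      refine hBC.trans (mul_le_mul_of_nonneg_left ?_ hB)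
      linarith
    have := div_le_div_of_nonneg_right h5 hx.le
    linarith
  have h6 : g' * (1 + θ / x) ≤ (B * (x + 2) ^ (-c)) * (1 + θ / x) := by
    calc g' * (1 + θ / x) ≤ g + C * x ^ (-(1 + c)) := h
      _ ≤ B * x ^ (-c) + C * (x ^ (-c) / x) := by rw [h1]; linarith
      _ = x ^ (-c) * (B + C / x) := by ring
      _ ≤ x ^ (-c) * (B * ((1 + θ / x) * (1 - 2 * c / x))) := mul_le_mul_of_nonneg_left h3 hp.le
      _ = (B * (x ^ (-c) * (1 - 2 * c / x))) * (1 + θ / x) := by ring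
      _ ≤ _ := by
        refine mul_le_mul_of_nonneg_right ?_ h0.le
        exact mul_le_mul_of_nonneg_left h2 hB
  exact le_of_mul_le_mul_right h6 h0

/-- **The scalar sequence lemma.** -/
theorem seq_small {g : ℕ → ℝ} {θ c C : ℝ} (hc : 0 ≤ c) (hθ : 2 * c < θ) (_hg : ∀ j, 0 ≤ g j)
    (h : ∀ᶠ j : ℕ in atTop, g (j + 2) * (1 + θ / j) ≤ g j + C * (j : ℝ) ^ (-(1 + c))) :
    ∃ B : ℝ, ∀ᶠ j : ℕ in atTop, g j ≤ B * (j : ℝ) ^ (-c) := by
  have hd : 0 < (θ - 2 * c) / 2 := by linarith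
  have hlim : Tendsto (fun j : ℕ => 2 * c * θ / (j : ℝ)) atTop (nhds 0) :=
    tendsto_const_div_atTop_nhds_zero_nat _
  have h1 : ∀ᶠ j : ℕ in atTop, 2 * c * θ / (j : ℝ) ≤ (θ - 2 * c) / 2 := hlim.eventually_le_const hd
  obtain ⟨J, hJ⟩ := eventually_atTop.1 ((h.and h1).and (eventually_ge_atTop 1))
  set B : ℝ := max (max (g J * (J : ℝ) ^ c) (g (J + 1) * ((J + 1 : ℕ) : ℝ) ^ c))
    (|C| / ((θ - 2 * c) / 2)) with hB
  have hB2 : |C| / ((θ - 2 * c) / 2) ≤ B := le_max_right _ _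
  have hB0 : 0 ≤ B := le_trans (by positivity) hB2
  have hBC : C ≤ B * ((θ - 2 * c) / 2) := by
    rw [div_le_iff₀ hd] at hB2
    exact (le_abs_self C).trans hB2
  have base : ∀ i : ℕ, 1 ≤ i → g i * (i : ℝ) ^ c ≤ B → g i ≤ B * (i : ℝ) ^ (-c) := by
    intro i hi hh
    have hi0 : (0 : ℝ) < i := by exact_mod_cast hi
    have hp : (0 : ℝ) < (i : ℝ) ^ c := Real.rpow_pos_of_pos hi0 _
    rw [Real.rpow_neg hi0.le, ← div_eq_mul_inv, le_div_iff₀ hp]
    exact hh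
  have hJ1 : 1 ≤ J := (hJ J le_rfl).2
  have key : ∀ n : ℕ, g (J + n) ≤ B * ((J + n : ℕ) : ℝ) ^ (-c) ∧
      g (J + n + 1) ≤ B * ((J + n + 1 : ℕ) : ℝ) ^ (-c) := by
    intro n
    induction n with
    | zero =>
      refine ⟨?_, ?_⟩
      · exact base (J + 0) (by omega) (by
          rw [Nat.add_zero]
          exact (le_max_left _ _).trans (le_max_left _ _))
      · exact base (J + 0 + 1) (by omega) (by
          rw [Nat.add_zero]
          exact (le_max_right _ _).trans (le_max_left _ _))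
    | succ n ih =>
      refine ⟨by rw [← Nat.add_assoc]; exact ih.2, ?_⟩
      obtain ⟨⟨a1, a2⟩, a3⟩ := hJ (J + n) (by omega)
      have hx : (0 : ℝ) < ((J + n : ℕ) : ℝ) := by exact_mod_cast a3
      have := seq_step hx hc hθ hB0 a2 hBC a1 ih.1
      have e : ((J + (n + 1) + 1 : ℕ) : ℝ) = ((J + n : ℕ) : ℝ) + 2 := by
        push_cast
        ring
      rw [e, show J + (n + 1) + 1 = J + n + 2 by ring]
      exact this
  refine ⟨B, eventually_atTop.2 ⟨J, fun j hj => ?_⟩⟩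
  obtain ⟨n, rfl⟩ := Nat.exists_eq_add_of_le hj
  exact (key n).1

end Pool.Agent.PB.Rec
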