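import Pool.Agent.PB.Rec2
import Pool.Agent.PB.SeqL

/-!
# The recursion by the legs without a bound of the zero mode: the chain (helper31, plan B)

See `PB/Rec2`.  `rec_chain2`: as `Rec.rec_chain` with the first order identity in place of the small
dependence on `x`; also the coefficients with `k ≠ 0` are small.  `rec_end2`: the end (`Rec.rec_fin`).
-/

set_option autoImplicit false

noncomputable section

open Complex Filter Topology Set

namespace Pool.Agent.PB.Rec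

/-! ### the operator `EE` -/

theorem EE_sub (w α : ℝ) (β : ℂ) (q : ℝ) (y0 : ℂ) (a b : ℤ → ℂ) (k : ℤ) :
    EE w α β q y0 (fun m => a m - b m) k = EE w α β q y0 a k - EE w α β q y0 b k := by
  unfold EE
  ring

/-- bound of the multipliers -/
def LL (w α : ℝ) (β : ℂ) (K : ℕ) : ℝ := |α| * |w| * ((K : ℝ) + 2) ^ 2 + ‖β‖ * ((K : ℝ) + 2)

theorem LL_nonneg (w α : ℝ) (β : ℂ) (K : ℕ) : 0 ≤ LL w α β K := by
  unfold LL
  positivity

theorem lam_le {w α : ℝ} {β : ℂ} {K : ℕ} {k : ℤ} (hk : |(k : ℝ)| ≤ (K : ℝ) + 2) :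
    ‖lam w α β k‖ ≤ LL w α β K ∧ ‖lam' w α β k‖ ≤ LL w α β K := by
  have hk' : ‖(k : ℂ)‖ ≤ (K : ℝ) + 2 := by
    rw [Complex.norm_intCast]
    exact hk
  have e1 : ‖(α : ℂ) * w * (k : ℂ) ^ 2‖ ≤ |α| * |w| * ((K : ℝ) + 2) ^ 2 := by
    rw [norm_mul, norm_mul, norm_real, norm_real, Real.norm_eq_abs, Real.norm_eq_abs, norm_pow]
    gcongr
  have e2 : ‖I * β * (k : ℂ)‖ ≤ ‖β‖ * ((K : ℝ) + 2) := by
    rw [norm_mul, norm_mul, norm_I, one_mul]
    gcongr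
  unfold lam lam' LL
  constructor
  · refine (norm_add_le _ _).trans (add_le_add ?_ e2)
    rw [norm_neg]
    exact e1
  · refine (norm_sub_le _ _).trans (add_le_add ?_ e2)
    rw [norm_neg]
    exact e1

theorem EE_le {w α : ℝ} {β : ℂ} {q : ℝ} (hq : 0 ≤ q) {y0 : ℂ} (hy : ‖y0‖ = 1) {a : ℤ → ℂ} {K : ℕ} {k : ℤ}
    {A : ℝ} (hk : k ∈ Finset.Icc (-((K + 1 : ℕ) : ℤ)) ((K + 1 : ℕ) : ℤ))
    (h0 : k ≠ 0 → ‖a k‖ ≤ A) (h1 : k + 1 ≠ 0 → ‖a (k + 1)‖ ≤ A) (h2 : k - 1 ≠ 0 → ‖a (k - 1)‖ ≤ A)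
    (hA : 0 ≤ A) :
    ‖EE w α β q y0 a k‖ ≤ 4 * LL w α β K * q * A := by
  have hLL := LL_nonneg w α β K
  rw [Finset.mem_Icc] at hk
  push_cast at hk
  have hkr1 : (-((K : ℝ) + 1)) ≤ (k : ℝ) := by exact_mod_cast (by omega : -((K : ℤ) + 1) ≤ k)
  have hkr2 : (k : ℝ) ≤ (K : ℝ) + 1 := by exact_mod_cast hk.2
  have c0 : |(k : ℝ)| ≤ (K : ℝ) + 2 := by rw [abs_le]; constructor <;> linarith
  have c1 : |((k + 1 : ℤ) : ℝ)| ≤ (K : ℝ) + 2 := by push_cast; rw [abs_le]; constructor <;> linarith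
  have c2 : |((k - 1 : ℤ) : ℝ)| ≤ (K : ℝ) + 2 := by push_cast; rw [abs_le]; constructor <;> linarith
  have hy' : ‖y0⁻¹‖ = 1 := by rw [norm_inv, hy, inv_one]
  have lam0 : lam w α β 0 = 0 := by simp [lam]
  have lam0' : lam' w α β 0 = 0 := by simp [lam']
  have t0 : ‖(q : ℂ) * (lam w α β k * y0⁻¹ + lam' w α β k * y0) * a k‖ ≤ 2 * LL w α β K * q * A := by
    by_cases hk0 : k = 0
    · rw [hk0, lam0, lam0']
      simp only [zero_mul, add_zero, mul_zero, norm_zero]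
      positivity
    · have g : ‖lam w α β k * y0⁻¹ + lam' w α β k * y0‖ ≤ 2 * LL w α β K := by
        refine (norm_add_le _ _).trans ?_
        rw [norm_mul, norm_mul, hy, hy', mul_one, mul_one]
        linarith [(lam_le (w := w) (α := α) (β := β) c0).1, (lam_le (w := w) (α := α) (β := β) c0).2]
      rw [norm_mul, norm_mul, norm_real, Real.norm_eq_abs, abs_of_nonneg hq]
      calc q * ‖lam w α β k * y0⁻¹ + lam' w α β k * y0‖ * ‖a k‖ ≤ q * (2 * LL w α β K) * A := by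
            have := h0 hk0
            gcongr
        _ = _ := by ring
  have t1 : ‖lam w α β (k + 1) * a (k + 1)‖ ≤ LL w α β K * A := by
    by_cases hk0 : k + 1 = 0
    · rw [hk0, lam0, zero_mul, norm_zero]
      positivity
    · rw [norm_mul]
      exact mul_le_mul (lam_le c1).1 (h1 hk0) (norm_nonneg _) hLL
  have t2 : ‖lam' w α β (k - 1) * a (k - 1)‖ ≤ LL w α β K * A := by
    by_cases hk0 : k - 1 = 0
    · rw [hk0, lam0', zero_mul, norm_zero]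
      positivity
    · rw [norm_mul]
      exact mul_le_mul (lam_le c2).2 (h2 hk0) (norm_nonneg _) hLL
  unfold EE
  refine (norm_sub_le _ _).trans ?_
  rw [norm_neg]
  have t3 : ‖(q : ℂ) * (lam w α β (k + 1) * a (k + 1) + lam' w α β (k - 1) * a (k - 1))‖ ≤
      2 * LL w α β K * q * A := by
    rw [norm_mul, norm_real, Real.norm_eq_abs, abs_of_nonneg hq]
    calc q * ‖lam w α β (k + 1) * a (k + 1) + lam' w α β (k - 1) * a (k - 1)‖
        ≤ q * (LL w α β K * A + LL w α β K * A) := by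
          refine mul_le_mul_of_nonneg_left ((norm_add_le _ _).trans (add_le_add t1 t2)) hq
      _ = _ := by ring
  linarith

theorem norm_y0 {w : ℝ} {x0 : ℂ} (h : x0.im = 0) : ‖exp (I * w * x0)‖ = 1 := by
  have := exp_seg (w := w) h 0
  simpa using this

theorem norm_neg_one_zpow (k : ℤ) : ‖((-1 : ℂ)) ^ k‖ = 1 := by
  rw [norm_zpow, norm_neg, norm_one, one_zpow]

theorem sq_neg_one (k : ℤ) : ((-1 : ℂ)) ^ k * (-1) ^ k = 1 := by
  rw [← mul_zpow]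
  norm_num

/-! ### the chain -/

/-- the one step relation in the coefficients `B j` (zero outside `|k| ≤ K`) -/
theorem two_step {w α κ c e0 C4 C5 : ℝ} {β : ℂ} (hκ : 0 ≤ κ) (hc : 0 ≤ c) (he : 0 ≤ e0) (hce : c + e0 ≤ 1)
    (hC4 : 0 ≤ C4) (hC5 : 0 ≤ C5) (K : ℕ) {B : ℕ → ℤ → ℂ} {y : ℕ → ℂ} (hy : ∀ j, ‖y j‖ = 1)
    (hy1 : ∀ j, κ * (y j + y (j + 1)) = 2) (hy2 : ∀ j, κ * ((y j)⁻¹ + (y (j + 1))⁻¹) = 2) {j : ℕ} (hj : 1 ≤ j)
    (h : ∀ i ∈ ({j, j + 1} : Set ℕ), ∀ k ∈ Finset.Icc (-((K + 1 : ℕ) : ℤ)) ((K + 1 : ℕ) : ℤ),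
      ‖B i k - (-1) ^ k * (B (i + 1) k + EE w α β (κ / i) (y i) (B (i + 1)) k)‖ ≤ C4 * (i : ℝ) ^ (-(1 + c)))
    (hB : ∀ k, ‖B (j + 2) k‖ ≤ C5 * (j : ℝ) ^ e0) {k : ℤ} (hk : k ∈ Finset.Icc (-(K : ℤ)) K) :
    ‖B j k - B (j + 2) k * (1 + 4 * α * w * k ^ 2 / j)‖ ≤
      (2 * C4 + 4 * LL w α β K * κ * (C4 + 4 * LL w α β K * κ * C5) + 4 * LL w α β K * κ * C5) *
        (j : ℝ) ^ (-(1 + c)) := by
  have hLL := LL_nonneg w α β K
  have hj1 : (1 : ℝ) ≤ (j : ℝ) := by exact_mod_cast hj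
  have hj0 : (0 : ℝ) < (j : ℝ) := by linarith
  set Λ : ℝ := LL w α β K with hΛ
  have hp : 0 ≤ (j : ℝ) ^ (-(1 + c)) := Real.rpow_nonneg hj0.le _
  have hmono : ((j + 1 : ℕ) : ℝ) ^ (-(1 + c)) ≤ (j : ℝ) ^ (-(1 + c)) := by
    refine Real.rpow_le_rpow_of_nonpos hj0 ?_ (by linarith)
    push_cast
    linarith
  have hK1 : k ∈ Finset.Icc (-((K + 1 : ℕ) : ℤ)) ((K + 1 : ℕ) : ℤ) := by
    rw [Finset.mem_Icc] at hk ⊢
    push_cast
    omega
  have hKp : k + 1 ∈ Finset.Icc (-((K + 1 : ℕ) : ℤ)) ((K + 1 : ℕ) : ℤ) := by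
    rw [Finset.mem_Icc] at hk ⊢
    push_cast
    omega
  have hKm : k - 1 ∈ Finset.Icc (-((K + 1 : ℕ) : ℤ)) ((K + 1 : ℕ) : ℤ) := by
    rw [Finset.mem_Icc] at hk ⊢
    push_cast
    omega
  have hq1 : 0 ≤ κ / ((j + 1 : ℕ) : ℝ) := by positivity
  have hq : 0 ≤ κ / (j : ℝ) := by positivity
  have hqle : κ / ((j + 1 : ℕ) : ℝ) ≤ κ / (j : ℝ) := by
    push_cast
    gcongr
    linarith
  have hA5 : 0 ≤ C5 * (j : ℝ) ^ e0 := mul_nonneg hC5 (Real.rpow_nonneg hj0.le _)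
  -- powers of j
  have pw1 : (j : ℝ)⁻¹ * (j : ℝ) ^ e0 = (j : ℝ) ^ (e0 - 1) := by
    rw [← Real.rpow_neg_one, ← Real.rpow_add hj0]
    congr 1
    ring
  have pw2 : (j : ℝ) ^ (-(1 + c)) ≤ (j : ℝ) ^ (e0 - 1) :=
    Real.rpow_le_rpow_of_exponent_le hj1 (by linarith)
  have pw3 : (j : ℝ)⁻¹ * (j : ℝ) ^ (e0 - 1) ≤ (j : ℝ) ^ (-(1 + c)) := by
    rw [← Real.rpow_neg_one, ← Real.rpow_add hj0]
    exact Real.rpow_le_rpow_of_exponent_le hj1 (by linarith)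
  have pw0 : 0 ≤ (j : ℝ) ^ (e0 - 1) := Real.rpow_nonneg hj0.le _
  -- crude relation between j + 1 and j + 2
  have hcr : ∀ m ∈ Finset.Icc (-((K + 1 : ℕ) : ℤ)) ((K + 1 : ℕ) : ℤ),
      ‖B (j + 1) m - (-1) ^ m * B (j + 2) m‖ ≤ (C4 + 4 * Λ * κ * C5) * (j : ℝ) ^ (e0 - 1) := by
    intro m hm
    have e1 := h (j + 1) (by simp) m hm
    have e2 : ‖EE w α β (κ / ((j + 1 : ℕ) : ℝ)) (y (j + 1)) (B (j + 2)) m‖ ≤
        4 * Λ * (κ / ((j + 1 : ℕ) : ℝ)) * (C5 * (j : ℝ) ^ e0) :=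
      EE_le hq1 (hy _) hm (fun _ => hB _) (fun _ => hB _) (fun _ => hB _) hA5
    have e3 : B (j + 1) m - (-1) ^ m * B (j + 2) m =
        (B (j + 1) m - (-1) ^ m * (B (j + 1 + 1) m + EE w α β (κ / ((j + 1 : ℕ) : ℝ)) (y (j + 1)) (B (j + 1 + 1)) m)) +
          (-1) ^ m * EE w α β (κ / ((j + 1 : ℕ) : ℝ)) (y (j + 1)) (B (j + 2)) m := by
      rw [show j + 1 + 1 = j + 2 by ring]
      ring
    rw [e3]
    refine (norm_add_le _ _).trans ?_
    rw [norm_mul, norm_neg_one_zpow, one_mul]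
    have e4 : C4 * ((j + 1 : ℕ) : ℝ) ^ (-(1 + c)) ≤ C4 * (j : ℝ) ^ (e0 - 1) :=
      mul_le_mul_of_nonneg_left (hmono.trans pw2) hC4
    have e5 : 4 * Λ * (κ / ((j + 1 : ℕ) : ℝ)) * (C5 * (j : ℝ) ^ e0) ≤ 4 * Λ * κ * C5 * (j : ℝ) ^ (e0 - 1) := by
      rw [← pw1]
      calc 4 * Λ * (κ / ((j + 1 : ℕ) : ℝ)) * (C5 * (j : ℝ) ^ e0) ≤ 4 * Λ * (κ / (j : ℝ)) * (C5 * (j : ℝ) ^ e0) := by
            gcongr
        _ = _ := by
            rw [div_eq_mul_inv]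
            ring
    rw [add_mul]
    linarith [e1.trans e4, e2.trans e5]
  -- EE at step j applied to B (j + 1)
  have hEE : ‖EE w α β (κ / (j : ℝ)) (y j) (fun m => B (j + 1) m - (-1) ^ m * B (j + 2) m) k‖ ≤
      4 * Λ * κ * (C4 + 4 * Λ * κ * C5) * (j : ℝ) ^ (-(1 + c)) := by
    have e1 := EE_le (w := w) (α := α) (β := β) hq (hy j)
      (a := fun m => B (j + 1) m - (-1) ^ m * B (j + 2) m) (K := K) hK1
      (fun _ => hcr k hK1) (fun _ => hcr _ hKp) (fun _ => hcr _ hKm)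
      (by positivity : 0 ≤ (C4 + 4 * Λ * κ * C5) * (j : ℝ) ^ (e0 - 1))
    refine e1.trans ?_
    have e2 : 4 * LL w α β K * (κ / (j : ℝ)) * ((C4 + 4 * Λ * κ * C5) * (j : ℝ) ^ (e0 - 1)) =
        4 * Λ * κ * (C4 + 4 * Λ * κ * C5) * ((j : ℝ)⁻¹ * (j : ℝ) ^ (e0 - 1)) := by
      rw [div_eq_mul_inv]
      ring
    rw [e2]
    exact mul_le_mul_of_nonneg_left pw3 (by positivity)
  rw [EE_sub] at hEE
  -- difference of κ / j and κ / (j + 1)
  have hdq : ‖EE w α β (κ / ((j + 1 : ℕ) : ℝ)) (y (j + 1)) (B (j + 2)) k -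
      EE w α β (κ / (j : ℝ)) (y (j + 1)) (B (j + 2)) k‖ ≤ 4 * Λ * κ * C5 * (j : ℝ) ^ (-(1 + c)) := by
    have e1 : EE w α β (κ / ((j + 1 : ℕ) : ℝ)) (y (j + 1)) (B (j + 2)) k -
        EE w α β (κ / (j : ℝ)) (y (j + 1)) (B (j + 2)) k =
        -EE w α β (κ / (j : ℝ) - κ / ((j + 1 : ℕ) : ℝ)) (y (j + 1)) (B (j + 2)) k := by
      unfold EE
      push_cast
      ring
    rw [e1, norm_neg]
    have hd0 : 0 ≤ κ / (j : ℝ) - κ / ((j + 1 : ℕ) : ℝ) := by linarith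
    have e2 := EE_le (w := w) (α := α) (β := β) hd0 (hy (j + 1)) (a := B (j + 2)) (K := K) hK1
      (fun _ => hB k) (fun _ => hB (k + 1)) (fun _ => hB (k - 1)) hA5
    refine e2.trans ?_
    have e3 : κ / (j : ℝ) - κ / ((j + 1 : ℕ) : ℝ) ≤ κ * ((j : ℝ)⁻¹ * (j : ℝ)⁻¹) := by
      push_cast
      have : κ / (j : ℝ) - κ / ((j : ℝ) + 1) = κ * ((j : ℝ)⁻¹ * ((j : ℝ) + 1)⁻¹) := by
        field_simp
        ring
      rw [this]
      gcongr
      linarith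
    calc 4 * LL w α β K * (κ / (j : ℝ) - κ / ((j + 1 : ℕ) : ℝ)) * (C5 * (j : ℝ) ^ e0)
        ≤ 4 * LL w α β K * (κ * ((j : ℝ)⁻¹ * (j : ℝ)⁻¹)) * (C5 * (j : ℝ) ^ e0) := by gcongr
      _ = 4 * Λ * κ * C5 * ((j : ℝ)⁻¹ * ((j : ℝ)⁻¹ * (j : ℝ) ^ e0)) := by ring
      _ ≤ 4 * Λ * κ * C5 * (j : ℝ) ^ (-(1 + c)) := by
          rw [pw1]
          exact mul_le_mul_of_nonneg_left pw3 (by positivity)
  -- the sum
  have e1 := h j (by simp) k hK1
  have e2 := h (j + 1) (by simp) k hK1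
  rw [show j + 1 + 1 = j + 2 by ring] at e2
  have e2' := e2.trans (mul_le_mul_of_nonneg_left hmono hC4)
  have p1 : ((-1 : ℂ)) ^ (k + 1) = -(-1) ^ k := by
    rw [zpow_add₀ (by norm_num), zpow_one]
    ring
  have p2 : ((-1 : ℂ)) ^ (k - 1) = -(-1) ^ k := by
    rw [zpow_sub₀ (by norm_num), zpow_one]
    ring
  have key : B (j + 2) k * (1 + 4 * α * w * k ^ 2 / j) =
      (-1) ^ k * ((-1) ^ k * (B (j + 2) k + EE w α β (κ / (j : ℝ)) (y (j + 1)) (B (j + 2)) k) +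
        EE w α β (κ / (j : ℝ)) (y j) (fun m => (-1) ^ m * B (j + 2) m) k) := by
    have hs := sq_neg_one k
    have hjc : (j : ℂ) ≠ 0 := by exact_mod_cast hj0.ne'
    have g1 := hy1 j
    have g2 := hy2 j
    have e3 : (-1) ^ k * ((-1) ^ k * (B (j + 2) k + EE w α β (κ / (j : ℝ)) (y (j + 1)) (B (j + 2)) k) +
        EE w α β (κ / (j : ℝ)) (y j) (fun m => (-1) ^ m * B (j + 2) m) k) =
        ((-1) ^ k * (-1) ^ k) * (B (j + 2) k * (1 - (1 / j) * (lam w α β k * (κ * ((y j)⁻¹ + (y (j + 1))⁻¹)) +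
          lam' w α β k * (κ * (y j + y (j + 1)))))) := by
      unfold EE
      beta_reduce
      rw [p1, p2]
      push_cast
      generalize (y j)⁻¹ = u1
      generalize (y (j + 1))⁻¹ = u2
      simp only [div_eq_mul_inv]
      ring
    rw [e3, hs, g1, g2, one_mul]
    unfold lam lam'
    field_simp
    ring
  rw [key]
  have e4 : B j k - (-1) ^ k * ((-1) ^ k * (B (j + 2) k + EE w α β (κ / (j : ℝ)) (y (j + 1)) (B (j + 2)) k) +
        EE w α β (κ / (j : ℝ)) (y j) (fun m => (-1) ^ m * B (j + 2) m) k) =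
      (B j k - (-1) ^ k * (B (j + 1) k + EE w α β (κ / (j : ℝ)) (y j) (B (j + 1)) k)) +
      (-1) ^ k * ((B (j + 1) k - (-1) ^ k * (B (j + 2) k +
        EE w α β (κ / ((j + 1 : ℕ) : ℝ)) (y (j + 1)) (B (j + 2)) k)) +
        (EE w α β (κ / (j : ℝ)) (y j) (B (j + 1)) k -
          EE w α β (κ / (j : ℝ)) (y j) (fun m => (-1) ^ m * B (j + 2) m) k) +
        (-1) ^ k * (EE w α β (κ / ((j + 1 : ℕ) : ℝ)) (y (j + 1)) (B (j + 2)) k -
          EE w α β (κ / (j : ℝ)) (y (j + 1)) (B (j + 2)) k)) := by ring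
  rw [e4]
  refine (norm_add_le _ _).trans ?_
  rw [norm_mul, norm_neg_one_zpow, one_mul]
  have e5 := (norm_add_le ((B (j + 1) k - (-1) ^ k * (B (j + 2) k +
        EE w α β (κ / ((j + 1 : ℕ) : ℝ)) (y (j + 1)) (B (j + 2)) k)) +
        (EE w α β (κ / (j : ℝ)) (y j) (B (j + 1)) k -
          EE w α β (κ / (j : ℝ)) (y j) (fun m => (-1) ^ m * B (j + 2) m) k))
        ((-1) ^ k * (EE w α β (κ / ((j + 1 : ℕ) : ℝ)) (y (j + 1)) (B (j + 2)) k -
          EE w α β (κ / (j : ℝ)) (y (j + 1)) (B (j + 2)) k))).trans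
    (add_le_add (norm_add_le _ _) le_rfl)
  rw [norm_mul, norm_neg_one_zpow, one_mul] at e5
  linarith

/-- **The chain, first order identity in place of flatness in the row.** -/
theorem rec_chain2 {w L R X c e0 κ α C : ℝ} {β : ℂ} (hw : 0 < w) (hL : w * L = Real.pi) (hX : 0 ≤ X)
    (hR : |L| + X < R) (hκ : 0 ≤ κ) (hc : 0 ≤ c) (he : 0 ≤ e0) (hce : c + e0 ≤ 1) (hα : c < 2 * α * w) (K : ℕ)
    {n : ℕ → ℂ → ℂ} {Psi : ℕ → ℂ → ℂ → ℂ} {x0 : ℕ → ℂ} {b : ℕ → ℤ → ℂ} {a : ℕ → ℂ → ℤ → ℂ}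
    (hx0 : ∀ j, |(x0 j).re| ≤ X ∧ (x0 j).im = 0)
    (hy1 : ∀ j, κ * (exp (I * w * x0 j) + exp (I * w * x0 (j + 1))) = 2)
    (hy2 : ∀ j, κ * ((exp (I * w * x0 j))⁻¹ + (exp (I * w * x0 (j + 1)))⁻¹) = 2)
    (hdf : ∀ᶠ j : ℕ in atTop, ∀ x ∈ seg (x0 j), DifferentiableOn ℂ (fun z => Psi j z x) (Bx R))
    (ha : ∀ᶠ j : ℕ in atTop, ∀ x ∈ seg (x0 j), ∀ z ∈ Bx R,
      ‖Psi j z x - EL w K (a j x) z‖ ≤ C * (j : ℝ) ^ (-(1 + c)))
    (hb : ∀ᶠ j : ℕ in atTop, ∀ z ∈ Bx R, ‖n j z - EL w K (b j) z‖ ≤ C * (j : ℝ) ^ (-(1 + c)))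
    (hA : ∀ᶠ j : ℕ in atTop, ∀ x ∈ seg (x0 j), ∀ t ∈ Icc (0 : ℝ) 1, ‖Psi j (I * t) x‖ ≤ C * (j : ℝ) ^ e0)
    (hE : ∀ᶠ j : ℕ in atTop, ∀ s ∈ Icc (0 : ℝ) 1, ∀ t ∈ Icc (0 : ℝ) 1, ∃ D : ℂ,
      HasDerivAt (fun s : ℝ => Psi j (I * t) (x0 j + I * s)) D s ∧
      ‖D - (κ / j : ℝ) * Op α β (fun z => Psi j z (x0 j + I * s)) (exp (I * w * (x0 j + I * s))) (I * t)‖ ≤
        C * (j : ℝ) ^ (-(1 + c)))
    (h0 : ∀ᶠ j : ℕ in atTop, ∀ z ∈ Bx R, Psi j z (x0 j) = n (j + 1) z)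
    (h1 : ∀ᶠ j : ℕ in atTop, ∀ x ∈ seg (x0 j), Psi j (x + L) x = n j x) :
    ∃ C' : ℝ, (∀ᶠ j : ℕ in atTop, ∀ k ∈ Finset.Icc (-(K : ℤ)) K,
        ‖(-1) ^ k * b (j + 1) k - b j k‖ ≤ C' * (j : ℝ) ^ (-(1 + c))) ∧
      (∀ᶠ j : ℕ in atTop, ∀ k ∈ Finset.Icc (-(K : ℤ)) K, k ≠ 0 → ‖b j k‖ ≤ C' * (j : ℝ) ^ (-c)) ∧
      ∀ᶠ j : ℕ in atTop, ∀ z ∈ Bx R, ‖n j z - b j 0‖ ≤ C' * (j : ℝ) ^ (-c) := by
  obtain ⟨V, hV0, hV⟩ := EL_coef hw K
  obtain ⟨D1, hD10, hD1⟩ := rec_mode hw hL hX hR K α β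
  have hLR : |L| < R := by linarith
  have hR0 : 0 < R := (abs_nonneg _).trans_lt hLR
  have hIt : ∀ t ∈ Icc (0 : ℝ) 1, I * (t : ℂ) ∈ Bx R := by
    intro t ht
    refine ⟨by simpa using hR0, ?_⟩
    simp only [mul_im, I_re, ofReal_im, mul_zero, I_im, ofReal_re, one_mul, zero_add]
    rw [abs_of_nonneg ht.1]
    linarith [ht.2]
  set Λ : ℝ := LL w α β K with hΛ
  have hLL : 0 ≤ Λ := LL_nonneg w α β K
  set Cp : ℝ := |C| with hCp
  have hCp0 : 0 ≤ Cp := abs_nonneg _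
  set B : ℕ → ℤ → ℂ := fun j => tr K (b j) with hB
  set y : ℕ → ℂ := fun j => exp (I * w * x0 j) with hy
  have hyn : ∀ j, ‖y j‖ = 1 := fun j => norm_y0 (hx0 j).2
  -- constants
  set CA : ℝ := 2 * V * Cp with hCA
  have hCA0 : 0 ≤ CA := by positivity
  set C4 : ℝ := D1 * (2 * Cp + κ ^ 2 * CA) + (1 + 4 * Λ * κ) * CA with hC4
  have hC40 : 0 ≤ C4 := by positivity
  -- all j large
  have hall : ∀ᶠ j : ℕ in atTop, (∀ k, ‖B (j + 1) k‖ ≤ 2 * CA * (j : ℝ) ^ e0) ∧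
      ∀ k ∈ Finset.Icc (-((K + 1 : ℕ) : ℤ)) ((K + 1 : ℕ) : ℤ),
      ‖B j k - (-1) ^ k * (B (j + 1) k + EE w α β (κ / j) (y j) (B (j + 1)) k)‖ ≤
        C4 * (j : ℝ) ^ (-(1 + c)) := by
    filter_upwards [hdf, ha, hb, (tendsto_add_atTop_nat 1).eventually hb, hA, hE, h0, h1,
      eventually_ge_atTop 1, eventually_ge_atTop (⌈κ⌉₊)] with j hdfj haj hbj hbj1 hAj hEj h0j h1j hj hjκ
    have hj1 : (1 : ℝ) ≤ (j : ℝ) := by exact_mod_cast hj
    have hj0 : (0 : ℝ) < (j : ℝ) := by linarith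
    have hκj : κ ≤ (j : ℝ) := (Nat.le_ceil κ).trans (by exact_mod_cast hjκ)
    have hp : 0 ≤ (j : ℝ) ^ (-(1 + c)) := Real.rpow_nonneg hj0.le _
    have hpe : 0 ≤ (j : ℝ) ^ e0 := Real.rpow_nonneg hj0.le _
    have hpe1 : 1 ≤ (j : ℝ) ^ e0 := Real.one_le_rpow hj1 he
    have hple : (j : ℝ) ^ (-(1 + c)) ≤ 1 := Real.rpow_le_one_of_one_le_of_nonpos hj1 (by linarith)
    have hCj : C * (j : ℝ) ^ (-(1 + c)) ≤ Cp * (j : ℝ) ^ (-(1 + c)) :=
      mul_le_mul_of_nonneg_right (le_abs_self C) hp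
    have hCe : C * (j : ℝ) ^ e0 ≤ Cp * (j : ℝ) ^ e0 := mul_le_mul_of_nonneg_right (le_abs_self C) hpe
    have hmono : ((j + 1 : ℕ) : ℝ) ^ (-(1 + c)) ≤ (j : ℝ) ^ (-(1 + c)) := by
      refine Real.rpow_le_rpow_of_nonpos hj0 ?_ (by linarith)
      push_cast
      linarith
    have hCj1 : C * ((j + 1 : ℕ) : ℝ) ^ (-(1 + c)) ≤ Cp * (j : ℝ) ^ (-(1 + c)) :=
      (mul_le_mul_of_nonneg_right (le_abs_self C) (Real.rpow_nonneg (Nat.cast_nonneg _) _)).trans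
        (mul_le_mul_of_nonneg_left hmono hCp0)
    have hmem0 : x0 j ∈ seg (x0 j) := ⟨0, ⟨le_rfl, zero_le_one⟩, by simp⟩
    -- size of the coefficients
    have hcoef : ∀ x ∈ seg (x0 j), ∀ k ∈ Finset.Icc (-(K : ℤ)) K, ‖a j x k‖ ≤ CA * (j : ℝ) ^ e0 := by
      intro x hx k hk
      have e1 : ‖a j x k‖ ≤ V * (Cp * (j : ℝ) ^ e0 + Cp * (j : ℝ) ^ (-(1 + c))) := by
        refine hV _ _ (fun t ht => ?_) k hk
        have f1 := (haj x hx _ (hIt t ht)).trans hCj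
        have f2 := (hAj x hx t ht).trans hCe
        have e : EL w K (a j x) (I * t) = Psi j (I * t) x - (Psi j (I * t) x - EL w K (a j x) (I * t)) := by ring
        rw [e]
        exact (norm_sub_le _ _).trans (add_le_add f2 f1)
      refine e1.trans ?_
      have : Cp * (j : ℝ) ^ (-(1 + c)) ≤ Cp * (j : ℝ) ^ e0 := mul_le_mul_of_nonneg_left (hple.trans hpe1) hCp0
      rw [hCA]
      nlinarith [mul_le_mul_of_nonneg_left this hV0.le]
    -- two expansions of n (j + 1)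
    have hab : ∀ k ∈ Finset.Icc (-(K : ℤ)) K, ‖b (j + 1) k - a j (x0 j) k‖ ≤ CA * (j : ℝ) ^ (-(1 + c)) := by
      intro k hk
      have e1 : ‖b (j + 1) k - a j (x0 j) k‖ ≤ V * (Cp * (j : ℝ) ^ (-(1 + c)) + Cp * (j : ℝ) ^ (-(1 + c))) := by
        refine hV (fun k => b (j + 1) k - a j (x0 j) k) _ (fun t ht => ?_) k hk
        rw [EL_sub]
        have f1 := (haj _ hmem0 _ (hIt t ht)).trans hCj
        have f2 := (hbj1 _ (hIt t ht)).trans hCj1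
        rw [h0j _ (hIt t ht)] at f1
        have e : EL w K (b (j + 1)) (I * t) - EL w K (a j (x0 j)) (I * t) =
            (n (j + 1) (I * t) - EL w K (a j (x0 j)) (I * t)) -
              (n (j + 1) (I * t) - EL w K (b (j + 1)) (I * t)) := by ring
        rw [e]
        exact (norm_sub_le _ _).trans (add_le_add f1 f2)
      refine e1.trans (le_of_eq ?_)
      rw [hCA]
      ring
    have hbig : ∀ k, ‖B (j + 1) k‖ ≤ 2 * CA * (j : ℝ) ^ e0 := by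
      intro k
      by_cases hk : k ∈ Finset.Icc (-(K : ℤ)) K
      · have e1 : B (j + 1) k = b (j + 1) k := tr_mem hk
        rw [e1]
        have e2 := hab k hk
        have e3 := hcoef _ hmem0 k hk
        have e4 := norm_add_le (b (j + 1) k - a j (x0 j) k) (a j (x0 j) k)
        rw [sub_add_cancel] at e4
        have e5 : CA * (j : ℝ) ^ (-(1 + c)) ≤ CA * (j : ℝ) ^ e0 := mul_le_mul_of_nonneg_left (hple.trans hpe1) hCA0
        linarith
      · have e1 : B (j + 1) k = 0 := tr_not hk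
        rw [e1, norm_zero]
        positivity
    refine ⟨hbig, ?_⟩
    -- the step
    have hq0 : 0 ≤ κ / (j : ℝ) := by positivity
    have hq1 : κ / (j : ℝ) ≤ 1 := by
      rw [div_le_one hj0]
      exact hκj
    have hstep := hD1 (Psi j) (n j) (x0 j) (b j) (a j) (κ / j) (Cp * (j : ℝ) ^ (-(1 + c)))
      (Cp * (j : ℝ) ^ (-(1 + c))) (CA * (j : ℝ) ^ e0) (hx0 j).1 (hx0 j).2 hq0 hq1 hdfj
      (fun x hx z hz => (haj x hx z hz).trans hCj) (fun z hz => (hbj z hz).trans hCj) hcoef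
      (fun s hs t ht => by
        obtain ⟨D, hD, hDle⟩ := hEj s hs t ht
        exact ⟨D, hD, hDle.trans hCj⟩) h1j
    intro k hk
    have e1 := hstep k hk
    set a0 : ℤ → ℂ := tr K (a j (x0 j)) with ha0
    have hdiff : ∀ m, ‖B (j + 1) m - a0 m‖ ≤ CA * (j : ℝ) ^ (-(1 + c)) := by
      intro m
      by_cases hm : m ∈ Finset.Icc (-(K : ℤ)) K
      · have f1 : B (j + 1) m = b (j + 1) m := tr_mem hm
        have f2 : a0 m = a j (x0 j) m := tr_mem hm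
        rw [f1, f2]
        exact hab m hm
      · have f1 : B (j + 1) m = 0 := tr_not hm
        have f2 : a0 m = 0 := tr_not hm
        rw [f1, f2, sub_zero, norm_zero]
        positivity
    have e2 : ‖EE w α β (κ / j) (y j) (B (j + 1)) k - EE w α β (κ / j) (y j) a0 k‖ ≤
        4 * Λ * κ * CA * (j : ℝ) ^ (-(1 + c)) := by
      rw [← EE_sub]
      have hA0 : 0 ≤ CA * (j : ℝ) ^ (-(1 + c)) := mul_nonneg hCA0 hp
      refine (EE_le hq0 (hyn j) hk (fun _ => hdiff k) (fun _ => hdiff (k + 1)) (fun _ => hdiff (k - 1)) hA0).trans ?_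
      have : κ / (j : ℝ) ≤ κ := div_le_self hκ hj1
      calc 4 * LL w α β K * (κ / (j : ℝ)) * (CA * (j : ℝ) ^ (-(1 + c)))
          ≤ 4 * LL w α β K * κ * (CA * (j : ℝ) ^ (-(1 + c))) := by gcongr
        _ = _ := by ring
    have e3 : B j k - (-1) ^ k * (B (j + 1) k + EE w α β (κ / j) (y j) (B (j + 1)) k) =
        (tr K (b j) k - (-1) ^ k * (a0 k + EE w α β (κ / j) (y j) a0 k)) -
          (-1) ^ k * ((B (j + 1) k - a0 k) +
            (EE w α β (κ / j) (y j) (B (j + 1)) k - EE w α β (κ / j) (y j) a0 k)) := by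
      simp only [hB]
      ring
    rw [e3]
    refine (norm_sub_le _ _).trans ?_
    rw [norm_mul, norm_neg_one_zpow, one_mul]
    have e4 : (κ / (j : ℝ)) ^ 2 * (CA * (j : ℝ) ^ e0) ≤ κ ^ 2 * CA * (j : ℝ) ^ (-(1 + c)) := by
      have g1 : (κ / (j : ℝ)) ^ 2 * (CA * (j : ℝ) ^ e0) = κ ^ 2 * CA * ((j : ℝ) ^ (-2 : ℝ) * (j : ℝ) ^ e0) := by
        have : (j : ℝ) ^ (-2 : ℝ) = ((j : ℝ) ^ 2)⁻¹ := by
          rw [Real.rpow_neg hj0.le]
          norm_cast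
        rw [this, div_pow]
        field_simp
      rw [g1, ← Real.rpow_add hj0]
      exact mul_le_mul_of_nonneg_left (Real.rpow_le_rpow_of_exponent_le hj1 (by linarith)) (by positivity)
    have e5 := norm_add_le (B (j + 1) k - a0 k)
      (EE w α β (κ / j) (y j) (B (j + 1)) k - EE w α β (κ / j) (y j) a0 k)
    have e6 := hdiff k
    have e7 : D1 * (Cp * (j : ℝ) ^ (-(1 + c)) + Cp * (j : ℝ) ^ (-(1 + c)) + (κ / (j : ℝ)) ^ 2 * (CA * (j : ℝ) ^ e0)) ≤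
        D1 * (2 * Cp + κ ^ 2 * CA) * (j : ℝ) ^ (-(1 + c)) := by
      rw [mul_assoc D1]
      refine mul_le_mul_of_nonneg_left ?_ hD10.le
      linarith
    have e8 := e1.trans e7
    rw [hC4]
    nlinarith
  -- two steps
  have htwo : ∀ᶠ j : ℕ in atTop, ∀ k ∈ Finset.Icc (-(K : ℤ)) K,
      ‖B j k - B (j + 2) k * (1 + 4 * α * w * k ^ 2 / j)‖ ≤
      (2 * C4 + 4 * Λ * κ * (C4 + 4 * Λ * κ * (4 * CA)) + 4 * Λ * κ * (4 * CA)) * (j : ℝ) ^ (-(1 + c)) := by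
    filter_upwards [hall, (tendsto_add_atTop_nat 1).eventually hall, eventually_ge_atTop 1]
      with j hj hj1 hj3 k hk
    have hj1' : (1 : ℝ) ≤ (j : ℝ) := by exact_mod_cast hj3
    refine two_step hκ hc he hce hC40 (by positivity) K hyn hy1 hy2 hj3 ?_ ?_ hk
    · intro i hi
      rcases hi with rfl | hi
      · exact hj.2
      · rw [Set.mem_singleton_iff] at hi
        subst hi
        exact hj1.2
    · intro m
      have e1 := hj1.1 m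
      refine e1.trans ?_
      have e2 : ((j + 1 : ℕ) : ℝ) ^ e0 ≤ 2 * (j : ℝ) ^ e0 := by
        calc ((j + 1 : ℕ) : ℝ) ^ e0 ≤ (2 * (j : ℝ)) ^ e0 := by
              refine Real.rpow_le_rpow (Nat.cast_nonneg _) ?_ he
              push_cast
              linarith
          _ = 2 ^ e0 * (j : ℝ) ^ e0 := Real.mul_rpow (by norm_num) (by linarith)
          _ ≤ 2 ^ (1 : ℝ) * (j : ℝ) ^ e0 := by
              refine mul_le_mul_of_nonneg_right ?_ (Real.rpow_nonneg (by linarith) _)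
              exact Real.rpow_le_rpow_of_exponent_le (by norm_num) (by linarith)
          _ = _ := by rw [Real.rpow_one]
      calc 2 * CA * ((j + 1 : ℕ) : ℝ) ^ e0 ≤ 2 * CA * (2 * (j : ℝ) ^ e0) := by gcongr
        _ = 4 * CA * (j : ℝ) ^ e0 := by ring
  set C6 : ℝ := 2 * C4 + 4 * Λ * κ * (C4 + 4 * Λ * κ * (4 * CA)) + 4 * Λ * κ * (4 * CA) with hC6
  -- decay of the coefficients with k ≠ 0
  have hdec : ∀ k ∈ Finset.Icc (-(K : ℤ)) K, k ≠ 0 → ∃ D : ℝ, ∀ᶠ j : ℕ in atTop, ‖B j k‖ ≤ D * (j : ℝ) ^ (-c) := by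
    intro k hk hk0
    refine seq_small (g := fun j => ‖B j k‖) (θ := 4 * (α * w)) (C := C6) hc (by linarith) (fun j => norm_nonneg _) ?_
    filter_upwards [htwo, eventually_ge_atTop 1] with j hj hj1
    have hj0 : (0 : ℝ) < (j : ℝ) := by
      have : (1 : ℝ) ≤ (j : ℝ) := by exact_mod_cast hj1
      linarith
    have e1 := hj k hk
    have hk2 : (1 : ℝ) ≤ (k : ℝ) ^ 2 := by
      have : (1 : ℤ) ≤ k ^ 2 := by
        have := sq_nonneg k
        have h3 : k ^ 2 ≠ 0 := pow_ne_zero 2 hk0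
        omega
      exact_mod_cast this
    have hαw : 0 ≤ α * w := by
      have : 0 ≤ 2 * α * w := hc.trans hα.le
      linarith
    have e2 : (1 : ℂ) + 4 * α * w * k ^ 2 / j = ((1 + 4 * (α * w) * (k : ℝ) ^ 2 / j : ℝ) : ℂ) := by
      push_cast
      ring
    have e3 : ‖(1 : ℂ) + 4 * α * w * k ^ 2 / j‖ = 1 + 4 * (α * w) * (k : ℝ) ^ 2 / j := by
      rw [e2, norm_real, Real.norm_eq_abs, abs_of_nonneg (by positivity)]
    have e4 : 1 + 4 * (α * w) / j ≤ 1 + 4 * (α * w) * (k : ℝ) ^ 2 / j := by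
      have : 4 * (α * w) ≤ 4 * (α * w) * (k : ℝ) ^ 2 := by nlinarith
      gcongr
    have e5 := norm_sub_le (B j k) (B j k - B (j + 2) k * (1 + 4 * α * w * k ^ 2 / j))
    rw [sub_sub_cancel, norm_mul, e3] at e5
    have e6 : ‖B (j + 2) k‖ * (1 + 4 * (α * w) / j) ≤ ‖B (j + 2) k‖ * (1 + 4 * (α * w) * (k : ℝ) ^ 2 / j) :=
      mul_le_mul_of_nonneg_left e4 (norm_nonneg _)
    linarith
  -- one constant for all k
  have hdecU : ∃ D : ℝ, 0 ≤ D ∧ ∀ᶠ j : ℕ in atTop, ∀ k, k ≠ 0 → ‖B j k‖ ≤ D * (j : ℝ) ^ (-c) := by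
    choose! D hD using hdec
    refine ⟨∑ k ∈ Finset.Icc (-(K : ℤ)) K, |D k|, Finset.sum_nonneg fun _ _ => abs_nonneg _, ?_⟩
    have h3 : ∀ᶠ j : ℕ in atTop, ∀ k ∈ Finset.Icc (-(K : ℤ)) K, k ≠ 0 → ‖B j k‖ ≤ D k * (j : ℝ) ^ (-c) := by
      rw [Filter.eventually_all_finset]
      intro k hk
      by_cases hk0 : k = 0
      · exact Eventually.of_forall fun j h => absurd hk0 h
      · filter_upwards [hD k hk hk0] with j hj _
        exact hj
    filter_upwards [h3] with j hj k hk0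
    have hp : 0 ≤ (j : ℝ) ^ (-c) := Real.rpow_nonneg (Nat.cast_nonneg _) _
    by_cases hk : k ∈ Finset.Icc (-(K : ℤ)) K
    · refine (hj k hk hk0).trans (mul_le_mul_of_nonneg_right ?_ hp)
      exact (le_abs_self _).trans (Finset.single_le_sum (f := fun k => |D k|) (fun _ _ => abs_nonneg _) hk)
    · have e1 : B j k = 0 := tr_not hk
      rw [e1, norm_zero]
      exact mul_nonneg (Finset.sum_nonneg fun _ _ => abs_nonneg _) hp
  obtain ⟨D, hD0, hD⟩ := hdecU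
  set E : ℝ := (2 * K + 1) * Real.exp (|w| * K * 2) with hEdef
  have hE0 : 0 < E := by positivity
  have hpc : ∀ j : ℕ, 1 ≤ j → (j : ℝ)⁻¹ * (j : ℝ) ^ (-c) = (j : ℝ) ^ (-(1 + c)) := by
    intro j hj
    have hj0 : (0 : ℝ) < (j : ℝ) := by exact_mod_cast hj
    rw [← Real.rpow_neg_one, ← Real.rpow_add hj0]
    congr 1
    ring
  refine ⟨(C4 + 4 * Λ * κ * D) + D + (Cp + E * D), ?_, ?_, ?_⟩
  · filter_upwards [hall, (tendsto_add_atTop_nat 1).eventually hD, eventually_ge_atTop 1] with j hj hDj hj1 k hk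
    have hj1' : (1 : ℝ) ≤ (j : ℝ) := by exact_mod_cast hj1
    have hj0 : (0 : ℝ) < (j : ℝ) := by linarith
    have hp : 0 ≤ (j : ℝ) ^ (-(1 + c)) := Real.rpow_nonneg hj0.le _
    have hpc0 : 0 ≤ (j : ℝ) ^ (-c) := Real.rpow_nonneg hj0.le _
    have hK1 : k ∈ Finset.Icc (-((K + 1 : ℕ) : ℤ)) ((K + 1 : ℕ) : ℤ) := by
      rw [Finset.mem_Icc] at hk ⊢
      push_cast
      omega
    have e1 := hj.2 k hK1
    have hmono : ((j + 1 : ℕ) : ℝ) ^ (-c) ≤ (j : ℝ) ^ (-c) := by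
      refine Real.rpow_le_rpow_of_nonpos hj0 ?_ (by linarith)
      push_cast
      linarith
    have hDj' : ∀ m, m ≠ 0 → ‖B (j + 1) m‖ ≤ D * (j : ℝ) ^ (-c) := fun m hm =>
      (hDj m hm).trans (mul_le_mul_of_nonneg_left hmono hD0)
    have e2 : ‖EE w α β (κ / j) (y j) (B (j + 1)) k‖ ≤ 4 * Λ * κ * D * (j : ℝ) ^ (-(1 + c)) := by
      refine (EE_le (by positivity) (hyn j) hK1 (hDj' k) (hDj' (k + 1)) (hDj' (k - 1))
        (mul_nonneg hD0 hpc0)).trans (le_of_eq ?_)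
      rw [← hpc j hj1, div_eq_mul_inv]
      ring
    have e3 : B j k = b j k := tr_mem hk
    have e4 : B (j + 1) k = b (j + 1) k := tr_mem hk
    have e5 : (-1) ^ k * b (j + 1) k - b j k =
        -(B j k - (-1) ^ k * (B (j + 1) k + EE w α β (κ / j) (y j) (B (j + 1)) k)) -
          (-1) ^ k * EE w α β (κ / j) (y j) (B (j + 1)) k := by
      rw [e3, e4]
      ring
    rw [e5]
    refine (norm_sub_le _ _).trans ?_
    rw [norm_neg, norm_mul, norm_neg_one_zpow, one_mul]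
    have : 0 ≤ (D + (Cp + E * D)) * (j : ℝ) ^ (-(1 + c)) := by positivity
    linarith
  · filter_upwards [hD, eventually_ge_atTop 1] with j hj hj1 k hk hk0
    have e1 : B j k = b j k := tr_mem hk
    have e2 := hj k hk0
    rw [e1] at e2
    have hpc0 : 0 ≤ (j : ℝ) ^ (-c) := Real.rpow_nonneg (Nat.cast_nonneg _) _
    have : 0 ≤ (C4 + 4 * Λ * κ * D + (Cp + E * D)) * (j : ℝ) ^ (-c) := by positivity
    linarith
  · filter_upwards [hD, hb, eventually_ge_atTop 1] with j hj hbj hj1 z hz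
    have hj1' : (1 : ℝ) ≤ (j : ℝ) := by exact_mod_cast hj1
    have hj0 : (0 : ℝ) < (j : ℝ) := by linarith
    have hpc0 : 0 ≤ (j : ℝ) ^ (-c) := Real.rpow_nonneg hj0.le _
    have e1 : ‖EL w K (fun k => if k = 0 then 0 else b j k) z‖ ≤ E * (D * (j : ℝ) ^ (-c)) := by
      refine (EL_le (a := fun k => if k = 0 then 0 else b j k) (A := D * (j : ℝ) ^ (-c)) (fun k hk => ?_) z).trans ?_
      · split_ifs with h
        · rw [norm_zero]
          positivity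
        · have f1 : B j k = b j k := tr_mem hk
          rw [← f1]
          exact hj k h
      · rw [hEdef]
        have : |z.im| ≤ 2 := hz.2.le
        gcongr
    have e2 : EL w K (b j) z = b j 0 + EL w K (fun k => if k = 0 then 0 else b j k) z := by
      unfold EL
      rw [← Finset.add_sum_erase _ _ (show (0 : ℤ) ∈ Finset.Icc (-(K : ℤ)) K by simp),
        ← Finset.add_sum_erase _ _ (show (0 : ℤ) ∈ Finset.Icc (-(K : ℤ)) K by simp)]
      simp only [Int.cast_zero, mul_zero, zero_mul, exp_zero, mul_one, if_true, zero_add]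
      congr 1
      refine Finset.sum_congr rfl fun k hk => ?_
      rw [if_neg (Finset.ne_of_mem_erase hk)]
    have e3 := hbj z hz
    have e4 : n j z - b j 0 = (n j z - EL w K (b j) z) + EL w K (fun k => if k = 0 then 0 else b j k) z := by
      rw [e2]
      ring
    rw [e4]
    refine (norm_add_le _ _).trans ?_
    have e5 : C * (j : ℝ) ^ (-(1 + c)) ≤ Cp * (j : ℝ) ^ (-c) := by
      refine mul_le_mul (le_abs_self C) (Real.rpow_le_rpow_of_exponent_le hj1' (by linarith))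
        (Real.rpow_nonneg hj0.le _) hCp0
    have : 0 ≤ (C4 + 4 * Λ * κ * D + D) * (j : ℝ) ^ (-c) := by positivity
    linarith

end Pool.Agent.PB.Rec
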