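import Pool.Agent.PB.FDGlue
import Pool.Agent.PB.Nz
import Pool.Agent.PB.Rec2F

/-!
# Plan B: the hypotheses of the function side for `f0`, `fx` (helper71)

* `f0_FD`, `fx_FD`: 12's `FD (3 l) σ 1 0 C N` of `f0 N`, `fx N x` from the crude bound (U0) alone;
* `hasDeriv_f0`, `hasDeriv_fx`: holomorphy in the leg;
* `chain_h0`, `chain_h1`, `chain_w`: the structural hypotheses of `Rec.rec_chain2` for
  `n j = f0 j`, `Psi j z x = fx j x z`, `x0 j = 0`, `L = 3 l`, `w = 8/3`, `κ = 1`.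
-/

set_option autoImplicit false

noncomputable section

open Complex Filter Topology Set

namespace Pool.Agent.PB

open NUP1 (l lpos)

theorem isOpen_re (r : ℝ) : IsOpen {z : ℂ | |z.re| < r} :=
  isOpen_lt (continuous_abs.comp continuous_re) continuous_const

theorem diffAt_re {f : ℂ → ℂ} {r : ℝ} (h : DifferentiableOn ℂ f {z | |z.re| < r}) {z : ℂ}
    (hz : |z.re| < r) : DifferentiableAt ℂ f z :=
  h.differentiableAt ((isOpen_re r).mem_nhds hz)

/-- **`FD` of the rows `0`** -/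
theorem f0_FD {σ C : ℝ} (hσ : σ < 13 / 10 * l) {N : ℕ}
    (hb : ∀ z : ℂ, |z.re| ≤ 3 * l + σ → |z.im| ≤ 2 * σ / Real.pi * Real.log N + 1 →
      ‖f0 N z‖ ≤ (N : ℝ) ^ C) :
    PBV.FD (3 * l) σ 1 0 C N (f0 N) := by
  obtain ⟨Q, hQ, hz⟩ := f0_zeros N
  exact PBV.FD_zero (r := 43 / 10 * l) (r' := 13 / 10 * l) (by linarith) hσ
    (fun z h => diffAt_re (f0_diff N) h) (fun z h => diffAt_re hQ h)
    (fun z _ => by have := hz z; push_cast; exact this) hb

/-- **`FD` of the rows `x, 0, .., 0`** -/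
theorem fx_FD {σ C : ℝ} (hσ : σ < 13 / 10 * l) {N : ℕ} (hN : 1 ≤ N) {x : ℂ} (hx : x.re = 0)
    (hx1 : |x.im| ≤ 1)
    (hb : ∀ z : ℂ, |z.re| ≤ 3 * l + σ → |z.im| ≤ 2 * σ / Real.pi * Real.log N + 1 →
      ‖fx N x z‖ ≤ (N : ℝ) ^ C) :
    PBV.FD (3 * l) σ 1 0 C N (fx N x) := by
  have hxl : |x.re| ≤ l / 2 := by rw [hx, abs_zero]; linarith [lpos]
  obtain ⟨Q, hQ, hz⟩ := fx_zeros N hxl
  exact PBV.FD_cons hN (r := 43 / 10 * l) (r' := 13 / 10 * l) hx hx1 (by linarith) hσ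
    (fun z h => diffAt_re (fx_diff N hxl) h) (fun z h => diffAt_re hQ h)
    (fun z _ => by have := hz z; push_cast; exact this) hb

/-! ### the structural hypotheses of the chain -/

theorem chain_w : (8 / 3 : ℝ) * (3 * l) = Real.pi := by rw [NUP1.pi_eq]; ring

theorem chain_w' : Real.pi / (3 * l) = 8 / 3 := by
  rw [← chain_w]
  field_simp [lpos.ne']

theorem seg_re {x : ℂ} (h : x ∈ Rec.seg 0) : x.re = 0 ∧ |x.im| ≤ 1 := by
  obtain ⟨t, ht, rfl⟩ := h
  refine ⟨by simp, ?_⟩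
  simp only [zero_add, mul_im, I_re, ofReal_im, mul_zero, I_im, ofReal_re, one_mul]
  rw [abs_of_nonneg ht.1]
  exact ht.2

theorem chain_hdf {R : ℝ} (hR : R ≤ 43 / 10 * l) (j : ℕ) {x : ℂ} (hx : x ∈ Rec.seg 0) :
    DifferentiableOn ℂ (fun z => fx j x z) (Rec.Bx R) := by
  have h := seg_re hx
  exact (fx_diff j (by rw [h.1, abs_zero]; linarith [lpos])).mono fun z hz => lt_of_lt_of_le hz.1 hR

theorem chain_h0 (j : ℕ) (z : ℂ) : fx j 0 z = f0 (j + 1) z := fx_zero j z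

theorem chain_h1 (j : ℕ) {x : ℂ} (hx : x ∈ Rec.seg 0) : fx j x (x + (3 * l : ℝ)) = f0 j x := by
  have h := seg_re hx
  have h2 := fx_leg j (x := x) (by rw [h.1, abs_zero]; linarith [lpos])
  push_cast
  exact h2

end Pool.Agent.PB

end
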