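import Pool.Agent.PB.Num
import Pool.Agent.PB.ObKer

/-!
# Plan B: bounds and measurability of the row and leg forces on the strips of the kinds

* `rowD_ct`; `kO_rowD_bd`: the row forces are bounded on the strips `PBOb.Str`, rows at `Re x = 0`;
* `krK_bd` (`m C`), `r1K_bd` (`C`), `lamK_bd` (`C`, `|Re z| ≤ l / 2`), constants absolute;
* measurability of `krK`, `r1K`, `xiK`, `lamK`.
-/

set_option autoImplicit false
set_option linter.unusedSectionVars false

noncomputable section

open MeasureTheory Set Filter Topology Finset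
open scoped Classical

namespace PBQ1

open NUMF PBForce Pool.Agent.PB NUP1S PBOb

variable {m : ℕ}

lemma ct_neg' (z : ℂ) : ct (-z) = -ct z := by
  unfold ct
  rw [Complex.cos_neg, Complex.sin_neg, div_neg]

/-- windows without poles of `cot` -/
def Gd (a b : ℝ) : Prop := (0 < a ∧ b < 8 * l) ∨ (-(8 * l) < a ∧ b < 0)

lemma ct_gd {a b : ℝ} (h : Gd a b) : ∃ C : ℝ, 0 ≤ C ∧ ∀ z : ℂ, a ≤ z.re → z.re ≤ b →
    ‖ct z‖ ≤ C := by
  rcases h with ⟨h1, h2⟩ | ⟨h1, h2⟩
  · exact ct_bound h1 h2
  · obtain ⟨C, hC, H⟩ := ct_bound (a := -b) (b := -a) (by linarith) (by linarith)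
    refine ⟨C, hC, fun z ha hb => ?_⟩
    have := H (-z) (by rw [Complex.neg_re]; linarith) (by rw [Complex.neg_re]; linarith)
    rwa [ct_neg', norm_neg] at this

lemma rowD_ct (z : ℂ) : rowD z = Complex.I * (2 * ct (z + 4 * l) - ct (z + l) - ct (z - l)) := by
  unfold rowD
  have h : ct (z + 4 * l) = -Complex.tan z := by
    have := cot_m (z + 4 * l)
    unfold Complex.cot at this
    unfold ct
    rw [this]
    congr 2
    ring
  rw [h]
  unfold ct Complex.cot
  ring

lemma rowD_gd {a b : ℝ} (h1 : Gd (a + 4 * l) (b + 4 * l)) (h2 : Gd (a + l) (b + l))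
    (h3 : Gd (a - l) (b - l)) : ∃ C : ℝ, 0 ≤ C ∧ ∀ z : ℂ, a ≤ z.re → z.re ≤ b →
    ‖rowD z‖ ≤ C := by
  obtain ⟨C1, p1, H1⟩ := ct_gd h1
  obtain ⟨C2, p2, H2⟩ := ct_gd h2
  obtain ⟨C3, p3, H3⟩ := ct_gd h3
  refine ⟨2 * C1 + C2 + C3, by positivity, fun z ha hb => ?_⟩
  have r1 : (z + 4 * l : ℂ).re = z.re + 4 * l := by simp
  have r2 : (z + l : ℂ).re = z.re + l := by simp
  have r3 : (z - l : ℂ).re = z.re - l := by simp
  rw [rowD_ct, norm_mul, Complex.norm_I, one_mul]
  have n1 := H1 (z + 4 * l) (by rw [r1]; linarith) (by rw [r1]; linarith)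
  have n2 := H2 (z + l) (by rw [r2]; linarith) (by rw [r2]; linarith)
  have n3 := H3 (z - l) (by rw [r3]; linarith) (by rw [r3]; linarith)
  calc ‖2 * ct (z + 4 * l) - ct (z + l) - ct (z - l)‖ ≤
        ‖2 * ct (z + 4 * l)‖ + ‖ct (z + l)‖ + ‖ct (z - l)‖ :=
        (norm_sub_le _ _).trans (add_le_add (norm_sub_le _ _) le_rfl)
    _ ≤ 2 * C1 + C2 + C3 := by
        rw [norm_mul, Complex.norm_ofNat]
        linarith

lemma kO_A (K : ℂ → ℂ) (z : ℂ) : kO K .A z = K z := rfl
lemma kO_L (K : ℂ → ℂ) (z : ℂ) : kO K .L z = K z := rfl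
lemma kO_S (K : ℂ → ℂ) (z : ℂ) : kO K .S z = K z + K (z - l) := rfl

/-- **bound of the row forces on the strips** -/
theorem kO_rowD_bd : ∃ C : ℝ, 0 ≤ C ∧ ∀ (k : Option O3) (w x : ℂ), w ∈ Str k → x.re = 0 →
    ‖kO rowD (ob4 k) (w - l - x)‖ ≤ C := by
  have hl := l_pos
  obtain ⟨A1, a1, HA⟩ := rowD_gd (a := -(1 / 2) * l) (b := 1 / 5 * l)
    (Or.inl ⟨by linarith, by linarith⟩) (Or.inl ⟨by linarith, by linarith⟩)
    (Or.inr ⟨by linarith, by linarith⟩)
  obtain ⟨B1, b1, HB⟩ := rowD_gd (a := -(12 / 5) * l) (b := -(11 / 5) * l)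
    (Or.inl ⟨by linarith, by linarith⟩) (Or.inr ⟨by linarith, by linarith⟩)
    (Or.inr ⟨by linarith, by linarith⟩)
  obtain ⟨B2, b2, HB2⟩ := rowD_gd (a := -(17 / 5) * l) (b := -(16 / 5) * l)
    (Or.inl ⟨by linarith, by linarith⟩) (Or.inr ⟨by linarith, by linarith⟩)
    (Or.inr ⟨by linarith, by linarith⟩)
  obtain ⟨T1, t1, HT⟩ := rowD_gd (a := -(31 / 20) * l) (b := -(29 / 20) * l)
    (Or.inl ⟨by linarith, by linarith⟩) (Or.inr ⟨by linarith, by linarith⟩)
    (Or.inr ⟨by linarith, by linarith⟩)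
  obtain ⟨T2, t2, HT2⟩ := rowD_gd (a := -(51 / 20) * l) (b := -(49 / 20) * l)
    (Or.inl ⟨by linarith, by linarith⟩) (Or.inr ⟨by linarith, by linarith⟩)
    (Or.inr ⟨by linarith, by linarith⟩)
  refine ⟨A1 + (B1 + B2) + (T1 + T2), by positivity, fun k w x hw hx => ?_⟩
  obtain ⟨hw1, hw2⟩ := hw
  have r1 : (w - l - x : ℂ).re = w.re - l := by simp [hx]
  have r2 : (w - l - x - l : ℂ).re = w.re - l - l := by simp [hx]
  rcases k with _ | (_ | _ | _)
  · change 1 / 2 * l ≤ w.re at hw1
    change w.re ≤ 6 / 5 * l at hw2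
    have := HA (w - l - x) (by rw [r1]; linarith) (by rw [r1]; linarith)
    change ‖rowD (w - l - x)‖ ≤ _
    linarith
  · change -(13 / 10) * l ≤ w.re at hw1
    change w.re ≤ -(6 / 5) * l at hw2
    have := HB (w - l - x) (by rw [r1]; linarith) (by rw [r1]; linarith)
    change ‖rowD (w - l - x)‖ ≤ _
    linarith
  · change -(7 / 5) * l ≤ w.re at hw1
    change w.re ≤ -(6 / 5) * l at hw2
    have h1 := HB (w - l - x) (by rw [r1]; linarith) (by rw [r1]; linarith)
    have h2 := HB2 (w - l - x - l) (by rw [r2]; linarith) (by rw [r2]; linarith)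
    change ‖rowD (w - l - x) + rowD (w - l - x - l)‖ ≤ _
    refine (norm_add_le _ _).trans ?_
    linarith
  · change -(11 / 20) * l ≤ w.re at hw1
    change w.re ≤ -(9 / 20) * l at hw2
    have h1 := HT (w - l - x) (by rw [r1]; linarith) (by rw [r1]; linarith)
    have h2 := HT2 (w - l - x - l) (by rw [r2]; linarith) (by rw [r2]; linarith)
    change ‖rowD (w - l - x) + rowD (w - l - x - l)‖ ≤ _
    refine (norm_add_le _ _).trans ?_
    linarith

/-- **bounds of the row forces**: constant absolute -/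
theorem row_bd : ∃ C : ℝ, 0 ≤ C ∧ ∀ (m : ℕ) (x : Fin m → ℂ), (∀ i, (x i).re = 0) →
    ∀ (b : K4) (w : ℂ), w ∈ Str b.2 → ‖krK x b w‖ ≤ m * C ∧ ∀ i0, ‖r1K x i0 b w‖ ≤ C := by
  obtain ⟨C, hC, H⟩ := kO_rowD_bd
  refine ⟨C, hC, fun m x hx b w hw => ⟨?_, fun i0 => ?_⟩⟩
  · unfold krK krR
    refine (norm_sum_le _ _).trans ?_
    calc ∑ i, ‖kO rowD (ob4 b.2) (w - l - x i)‖ ≤ ∑ _i : Fin m, C :=
          Finset.sum_le_sum fun i _ => H b.2 w (x i) hw (hx i)
      _ = m * C := by simp
  · unfold r1K r1R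
    rw [norm_neg]
    exact H b.2 w (x i0) hw (hx i0)

/-- **bound of the leg force** -/
theorem leg_bd : ∃ C : ℝ, 0 ≤ C ∧ ∀ (z : ℂ), |z.re| ≤ l / 2 → ∀ (b : K4) (w : ℂ), w ∈ Str b.2 →
    ‖lamK z b w‖ ≤ C := by
  have hl := l_pos
  obtain ⟨C, hC, H⟩ := fSd_bound (a := 3 / 10 * l) (b := 49 / 10 * l) (by linarith) (by linarith)
  refine ⟨C + C, by positivity, fun z hz b w hw => ?_⟩
  obtain ⟨hw1, hw2⟩ := hw
  have hz' := abs_le.1 hz
  have hL : ∀ u : ℂ, -(12 / 5) * l ≤ u.re → u.re ≤ 6 / 5 * l → ‖lamL z u‖ ≤ C := by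
    intro u h1 h2
    unfold lamL
    rw [norm_mul, Complex.norm_I, one_mul]
    have r : (z + 2 * l - u : ℂ).re = z.re + 2 * l - u.re := by simp
    exact H _ (by rw [r]; linarith) (by rw [r]; linarith)
  have r2 : (w - l : ℂ).re = w.re - l := by simp
  obtain ⟨σ, k⟩ := b
  rcases k with _ | (_ | _ | _)
  · change 1 / 2 * l ≤ w.re at hw1
    change w.re ≤ 6 / 5 * l at hw2
    have := hL w (by linarith) (by linarith)
    change ‖lamL z w‖ ≤ _
    linarith
  · change -(13 / 10) * l ≤ w.re at hw1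
    change w.re ≤ -(6 / 5) * l at hw2
    have := hL w (by linarith) (by linarith)
    change ‖lamL z w‖ ≤ _
    linarith
  · change -(7 / 5) * l ≤ w.re at hw1
    change w.re ≤ -(6 / 5) * l at hw2
    have h1 := hL w (by linarith) (by linarith)
    have h2 := hL (w - l) (by rw [r2]; linarith) (by rw [r2]; linarith)
    change ‖lamL z w + lamL z (w - l)‖ ≤ _
    exact (norm_add_le _ _).trans (add_le_add h1 h2)
  · change -(11 / 20) * l ≤ w.re at hw1
    change w.re ≤ -(9 / 20) * l at hw2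
    have h1 := hL w (by linarith) (by linarith)
    have h2 := hL (w - l) (by rw [r2]; linarith) (by rw [r2]; linarith)
    change ‖lamL z w + lamL z (w - l)‖ ≤ _
    exact (norm_add_le _ _).trans (add_le_add h1 h2)

/-! ### measurability -/

lemma measurable_ct : Measurable ct := by
  unfold ct
  exact Complex.measurable_cos.div Complex.measurable_sin

lemma measurable_rowD : Measurable rowD := by
  have e : rowD = fun z => Complex.I * (2 * ct (z + 4 * l) - ct (z + l) - ct (z - l)) :=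
    funext rowD_ct
  rw [e]
  have h := measurable_ct
  exact measurable_const.mul (((measurable_const.mul (h.comp (measurable_id.add_const _))).sub
    (h.comp (measurable_id.add_const _))).sub (h.comp (measurable_id.sub_const _)))

lemma measurable_kO {K : ℂ → ℂ} (hK : Measurable K) (k : NUP1.Bd.Ob) : Measurable (kO K k) := by
  cases k with
  | A => exact hK
  | L => exact hK
  | S => exact hK.add (hK.comp (measurable_id.sub_const _))

lemma measurable_krK (x : Fin m → ℂ) (b : K4) : Measurable (krK x b) := by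
  unfold krK krR
  exact Finset.measurable_fun_sum _ fun i _ =>
    (measurable_kO measurable_rowD _).comp ((measurable_id.sub_const _).sub_const _)

lemma measurable_r1K (x : Fin m → ℂ) (i0 : Fin m) (b : K4) : Measurable (r1K x i0 b) := by
  unfold r1K r1R
  exact ((measurable_kO measurable_rowD _).comp
    ((measurable_id.sub_const _).sub_const _)).neg

lemma measurable_pc : Measurable pc := by
  unfold pc
  fun_prop

lemma measurable_rhoR (x : Fin m → ℂ) : Measurable (rhoR x) := by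
  unfold rhoR
  exact Finset.measurable_fun_sum _ fun i _ =>
    measurable_pc.comp ((measurable_id.sub_const _).sub_const _)

lemma measurable_xiR (x : Fin m → ℂ) (i0 : Fin m) : Measurable (xiR x i0) := by
  unfold xiR
  exact (measurable_pc.comp ((measurable_id.sub_const _).sub_const _)).div (measurable_rhoR x)

lemma measurable_xiK (x : Fin m → ℂ) (i0 : Fin m) (b : K4) : Measurable (xiK x i0 b) := by
  unfold xiK
  refine (measurable_xiR x i0).comp ?_
  obtain ⟨σ, k⟩ := b
  cases k with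
  | none => exact measurable_id
  | some k => exact measurable_id.add_const _

lemma measurable_lamL (z : ℂ) : Measurable (lamL z) := by
  unfold lamL fSd
  have h := measurable_ct
  exact measurable_const.mul ((h.comp (measurable_id.const_sub _)).sub
    (h.comp ((measurable_id.const_sub _).add_const _)))

lemma measurable_lamK (z : ℂ) (b : K4) : Measurable (lamK z b) :=
  measurable_kO (measurable_lamL z) _

end PBQ1

end
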