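import Pool.Agent.PB.ObKer
import Pool.Agent.PB.EInst

/-!
# Plan B: the field of a row is an admissible field of the Ward identities (helper48)

`fx_xiR` : there is an absolute constant `C` such that for every `m`, every family `x` of rows on
the imaginary axis (`|Im x i| ≤ 1`) and every row `i0` the field `u ↦ m * xiR x i0 u` has
`PBOb.FX` with the limits `rP x i0`, `rM x i0` and the constant `C`, and
`‖rP x i0 - rM x i0‖ ≤ C`, `‖rP x i0‖ ≤ C`, `‖rM x i0‖ ≤ C`, `‖m * xiR x i0 u‖ ≤ C` on `Fst`.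
-/

set_option autoImplicit false

noncomputable section

open Complex

namespace PBRep

open NUP1 PBForce PBEI PBOb

/-- the field of a row as a function of the position, times the number of rows -/
def Xf {m : ℕ} (x : Fin m → ℂ) (i0 : Fin m) (u : ℂ) : ℂ := m * xiR x i0 u

lemma Xf_rF {m : ℕ} (x : Fin m → ℂ) (i0 : Fin m) (w : ℂ) :
    Xf x i0 (l + I * w) = rF x i0 w := rfl

lemma Fst_re {u : ℂ} (hu : u ∈ Fst) : |(u - l).re| ≤ 11 / 20 * l := by
  have hl := NUMF.l_pos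
  have e : l = NUMF.l := rfl
  obtain ⟨h1, h2⟩ := hu
  rw [sub_re, ofReal_re, abs_le]
  constructor <;> linarith

lemma FS_re {u : ℂ} (hu : u ∈ FS) : |(u - l).re| < l := by
  have hl := NUMF.l_pos
  have e : l = NUMF.l := rfl
  obtain ⟨h1, h2⟩ := hu
  rw [sub_re, ofReal_re, abs_lt]
  constructor <;> linarith

/-- **the field of a row** -/
theorem fx_xiR : ∃ C : ℝ, 0 < C ∧ ∀ (m : ℕ) (x : Fin m → ℂ) (i0 : Fin m), Rws0 x →
    FX (fun u => m * xiR x i0 u) (rP x i0) (rM x i0) C ∧ ‖rP x i0 - rM x i0‖ ≤ C ∧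
      ‖rP x i0‖ ≤ C ∧ ‖rM x i0‖ ≤ C ∧ ∀ u ∈ Fst, ‖(m : ℂ) * xiR x i0 u‖ ≤ C := by
  have hl : 0 < l := NUMF.l_pos
  have hb0 : (0 : ℝ) ≤ 11 / 20 * l := by positivity
  have hb : 11 / 20 * l < l := by linarith
  obtain ⟨C1, hC1, h1⟩ := xiR_right hb0 hb
  obtain ⟨C2, hC2, h2⟩ := xiR_left hb0 hb
  obtain ⟨C3, hC3, h3⟩ := xiR_deriv hb0 hb
  obtain ⟨C4, hC4, h4⟩ := xiR_le hb0 hb
  refine ⟨C1 + C2 + C3 + C4 + 2 * Real.exp (16 / 3), by positivity, fun m x i0 hx => ?_⟩
  have hm : (0 : ℝ) < m := by exact_mod_cast i0.pos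
  have hmC : ‖(m : ℂ)‖ = m := by simp
  have hE := Real.exp_pos (16 / 3 : ℝ)
  have hee : ∀ t : ℝ, Real.exp (-(32 / 3 * |t|)) ≤ Real.exp (-4 * |t|) := fun t =>
    Real.exp_le_exp.2 (by have := abs_nonneg t; linarith)
  have hsc : ∀ {c a : ℝ} {t : ℝ}, 0 < c → a ≤ c / m * Real.exp (-(32 / 3 * |t|)) →
      m * a ≤ c * Real.exp (-4 * |t|) := by
    intro c a t hc h
    calc (m : ℝ) * a ≤ m * (c / m * Real.exp (-(32 / 3 * |t|))) := by gcongr
      _ = c * Real.exp (-(32 / 3 * |t|)) := by field_simp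
      _ ≤ _ := mul_le_mul_of_nonneg_left (hee t) hc.le
  have hP : ‖rP x i0‖ ≤ Real.exp (16 / 3) := by
    unfold rP
    rw [norm_real, Real.norm_eq_abs, abs_of_nonneg (by have := xiP_nonneg x i0; positivity)]
    have := xiP_le hx i0
    calc (m : ℝ) * xiP x i0 ≤ m * (Real.exp (16 / 3) / m) := by gcongr
      _ = _ := by field_simp
  have hM : ‖rM x i0‖ ≤ Real.exp (16 / 3) := by
    unfold rM
    rw [norm_real, Real.norm_eq_abs, abs_of_nonneg (by have := xiM_nonneg x i0; positivity)]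
    have := xiM_le hx i0
    calc (m : ℝ) * xiM x i0 ≤ m * (Real.exp (16 / 3) / m) := by gcongr
      _ = _ := by field_simp
  refine ⟨⟨fun u hu => ?_, fun u hu => ?_, fun u hu h0 => ?_, fun u hu h0 => ?_⟩, ?_, by linarith,
    by linarith, fun u hu => ?_⟩
  · exact ((xiR_diff0 hx i0 (FS_re hu)).const_mul _).differentiableWithinAt
  · have h5 : DifferentiableAt ℂ (xiR x i0) u := xiR_diff0 hx i0 (FS_re (Fst_sub_FS hu))
    rw [deriv_const_mul _ h5, norm_mul, hmC]
    refine (hsc hC3 (h3 m x i0 hx u (Fst_re hu))).trans ?_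
    gcongr
    linarith
  · have e : rP x i0 - m * xiR x i0 u = -(m * (xiR x i0 u - xiP x i0)) := by
      unfold rP
      push_cast
      ring
    rw [e, norm_neg, norm_mul, hmC]
    refine (hsc hC1 (h1 m x i0 hx u (Fst_re hu) h0)).trans ?_
    gcongr
    linarith
  · have e : rM x i0 - m * xiR x i0 u = -(m * (xiR x i0 u - xiM x i0)) := by
      unfold rM
      push_cast
      ring
    rw [e, norm_neg, norm_mul, hmC]
    refine (hsc hC2 (h2 m x i0 hx u (Fst_re hu) h0)).trans ?_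
    gcongr
    linarith
  · exact (norm_sub_le _ _).trans (by linarith)
  · rw [norm_mul, hmC]
    have h6 := h4 m x i0 hx u (Fst_re hu)
    calc (m : ℝ) * ‖xiR x i0 u‖ ≤ m * (C4 / m) := by gcongr
      _ = C4 := by field_simp
      _ ≤ _ := by linarith

/-- the field is measurable -/
theorem Xf_meas {m : ℕ} (x : Fin m → ℂ) (i0 : Fin m) : Measurable (fun u => (m : ℂ) * xiR x i0 u) := by
  unfold xiR rhoR pc
  fun_prop

end PBRep
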