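import Pool.Agent.NURow.Pcut

/-!
# Plan B, far end: the cutoff transported with the edges

`phiW b M w u = 1 - Psi_b(u)^M ∏ i, psi_b (u - w i)`: the cutoff with `M` pairs of points at `± l / 2`
and the points `w i` (`|re| ≤ l / 2`, `|im| ≤ 2`).

The logarithm of `psi` has only odd exponentials:
`psi' / psi (z) = - 8 i b cos (b l) X + O (X ^ 3)`, `X = exp (i (2 b z + b l))`, `im z → ∞`.
-/

set_option autoImplicit false
set_option linter.unusedSectionVars false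

open Complex

noncomputable section

namespace PBFar

open NUP1 NURow

/-- the angle of `psi` -/
def th (b : ℝ) (z : ℂ) : ℂ := 2 * b * z + b * l

/-- derivative of `psi` -/
def psiD (b : ℝ) (z : ℂ) : ℂ :=
  -(4 * b * cos (b * l) * sin (th b z)) / (cos (th b z) + cos (b * l)) ^ 2

theorem hasDerivAt_psi {b : ℝ} {z : ℂ} (h : cos (th b z) + cos (b * l) ≠ 0) :
    HasDerivAt (psi b) (psiD b z) z := by
  have h0 : HasDerivAt (fun z : ℂ => th b z) (2 * b) z := by
    unfold th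
    have := ((hasDerivAt_id z).const_mul (2 * b : ℂ)).add_const (b * l : ℂ)
    simpa using this
  have h1 := h0.ccos
  have h2 := (h1.sub_const (cos (b * l : ℂ))).div (h1.add_const (cos (b * l : ℂ))) h
  have e : psi b = fun z => (cos (th b z) - cos (b * l)) / (cos (th b z) + cos (b * l)) := rfl
  rw [e]
  refine h2.congr_deriv ?_
  unfold psiD
  rw [div_eq_div_iff (pow_ne_zero 2 h) (pow_ne_zero 2 h)]
  ring

/-! ### bounds in a wide strip -/

section
variable {b s : ℝ} {z : ℂ}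

/-- conditions on the wide strip `|re z + l / 2| ≤ s` -/
structure Wide (b s : ℝ) : Prop where
  b1 : 1 ≤ b
  b2 : b ≤ 4 / 3
  s0 : 0 ≤ s
  s1 : b * (s + l / 2) < Real.pi / 2

/-- the constant -/
def kw (b s : ℝ) : ℝ := Real.cos (b * (s + l / 2))

theorem Wide.kpos (h : Wide b s) : 0 < kw b s :=
  Real.cos_pos_of_mem_Ioo ⟨by
    have h1 := h.b1
    have h2 := h.s0
    have h3 := l_pos
    have : 0 ≤ b * (s + l / 2) := by positivity
    linarith [Real.pi_pos], h.s1⟩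

theorem kw_le_one (b s : ℝ) : kw b s ≤ 1 := Real.cos_le_one _

theorem norm_cos_ge {ζ : ℂ} {c : ℝ} (hc0 : 0 ≤ c) (hc : c ≤ Real.pi / 2) (h : |ζ.re| ≤ c) :
    Real.cos c * Real.cosh ζ.im ≤ ‖cos ζ‖ := by
  have e : (cos ζ).re = Real.cos ζ.re * Real.cosh ζ.im := by
    rw [Complex.cos_eq ζ, ← ofReal_cos, ← ofReal_cosh, ← ofReal_sin, ← ofReal_sinh]
    simp [Complex.cos_ofReal_re, Complex.cosh_ofReal_re]
  have h1 : Real.cos c ≤ Real.cos ζ.re := by
    rw [← Real.cos_abs ζ.re]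
    exact Real.cos_le_cos_of_nonneg_of_le_pi (abs_nonneg _) (by linarith [Real.pi_pos]) h
  calc _ ≤ Real.cos ζ.re * Real.cosh ζ.im := mul_le_mul_of_nonneg_right h1 (Real.cosh_pos _).le
    _ = (cos ζ).re := e.symm
    _ ≤ _ := re_le_norm _

theorem den_ge (h : Wide b s) (hz : |z.re + l / 2| ≤ s) :
    kw b s ^ 2 * (Real.exp (2 * b * |z.im|) / 2) ≤ ‖cos (th b z) + cos (b * l)‖ := by
  have hb1 := h.b1
  have hl := l_pos
  have hs0 := h.s0
  have hk := h.kpos
  have e : cos (th b z) + cos (b * l) =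
      2 * cos ((th b z + b * l) / 2) * cos ((th b z - b * l) / 2) := Complex.cos_add_cos _ _
  have hc0 : 0 ≤ b * (s + l / 2) := by positivity
  have habs := abs_le.1 hz
  have r1 : |((th b z + b * l) / 2 : ℂ).re| ≤ b * (s + l / 2) := by
    have : ((th b z + b * l) / 2 : ℂ).re = b * (z.re + l / 2) + b * l / 2 := by
      unfold th; simp; ring
    rw [this, abs_le]
    constructor <;> nlinarith [habs.1, habs.2]
  have r2 : |((th b z - b * l) / 2 : ℂ).re| ≤ b * (s + l / 2) := by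
    have : ((th b z - b * l) / 2 : ℂ).re = b * (z.re + l / 2) - b * l / 2 := by
      unfold th; simp; ring
    rw [this, abs_le]
    constructor <;> nlinarith [habs.1, habs.2]
  have i1 : ((th b z + b * l) / 2 : ℂ).im = b * z.im := by unfold th; simp; ring
  have i2 : ((th b z - b * l) / 2 : ℂ).im = b * z.im := by unfold th; simp; ring
  have n1 := norm_cos_ge hc0 h.s1.le r1
  have n2 := norm_cos_ge hc0 h.s1.le r2
  rw [i1] at n1
  rw [i2] at n2
  have hch : Real.exp (2 * b * |z.im|) / 4 ≤ Real.cosh (b * z.im) ^ 2 := by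
    have h1 := cosh_ge (b * z.im)
    have h2 : |b * z.im| = b * |z.im| := by rw [abs_mul, abs_of_pos (by linarith)]
    rw [h2] at h1
    have h3 : Real.exp (2 * b * |z.im|) = Real.exp (b * |z.im|) ^ 2 := by
      rw [← Real.exp_nat_mul]; congr 1; push_cast; ring
    have h4 := Real.exp_pos (b * |z.im|)
    rw [h3]
    nlinarith
  rw [e, norm_mul, norm_mul, Complex.norm_two]
  have h5 : kw b s * Real.cosh (b * z.im) * (kw b s * Real.cosh (b * z.im)) ≤
      ‖cos ((th b z + b * l) / 2)‖ * ‖cos ((th b z - b * l) / 2)‖ := by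
    have hc := Real.cosh_pos (b * z.im)
    exact mul_le_mul n1 n2 (by positivity) (norm_nonneg _)
  have hk2 := sq_nonneg (kw b s)
  nlinarith [mul_le_mul_of_nonneg_left hch hk2]

theorem den_ne' (h : Wide b s) (hz : |z.re + l / 2| ≤ s) : cos (th b z) + cos (b * l) ≠ 0 := by
  intro h0
  have h1 := den_ge h hz
  rw [h0, norm_zero] at h1
  have := h.kpos
  have : 0 < kw b s ^ 2 * (Real.exp (2 * b * |z.im|) / 2) := by positivity
  linarith

theorem norm_cos_bl (b : ℝ) : ‖cos (b * l : ℂ)‖ ≤ 1 := by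
  rw [← ofReal_mul, ← ofReal_cos, Complex.norm_real]
  exact Real.abs_cos_le_one _

/-- `‖1 - psi‖ ≤ (4 / κ ^ 2) exp (-2 b |t|)` in the wide strip -/
theorem one_sub_psi_le (h : Wide b s) (hz : |z.re + l / 2| ≤ s) :
    ‖1 - psi b z‖ ≤ 4 / kw b s ^ 2 * Real.exp (-(2 * b * |z.im|)) := by
  have hd := den_ne' h hz
  have hk := h.kpos
  have e : 1 - psi b z = 2 * cos (b * l) / (cos (th b z) + cos (b * l)) := by
    unfold psi
    rw [eq_div_iff hd]
    have e1 : (cos (2 * ↑b * z + ↑b * ↑l) : ℂ) = cos (th b z) := rfl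
    rw [e1, sub_mul, div_mul_cancel₀ _ hd]
    ring
  have hn : ‖(2 : ℂ) * cos (b * l)‖ ≤ 2 := by
    rw [norm_mul, Complex.norm_two]
    linarith [norm_cos_bl b]
  have hpos : 0 < kw b s ^ 2 * (Real.exp (2 * b * |z.im|) / 2) := by positivity
  rw [e, norm_div]
  refine (div_le_div₀ (by norm_num) hn hpos (den_ge h hz)).trans (le_of_eq ?_)
  rw [Real.exp_neg]
  field_simp
  norm_num

/-- `‖psi'‖ ≤ (16 b / κ ^ 4) exp (-2 b |t|)` in the wide strip -/
theorem psiD_le (h : Wide b s) (hz : |z.re + l / 2| ≤ s) :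
    ‖psiD b z‖ ≤ 16 * b / kw b s ^ 4 * Real.exp (-(2 * b * |z.im|)) := by
  have hk := h.kpos
  have hb := h.b1
  have hb0 : 0 < b := by linarith
  have him : |(th b z).im| = 2 * b * |z.im| := by
    have : (th b z).im = 2 * b * z.im := by unfold th; simp
    rw [this, abs_mul, abs_of_pos (by linarith)]
  have hsin : ‖sin (th b z)‖ ≤ Real.exp (2 * b * |z.im|) := by
    have h1 := norm_cos_le (th b z - Real.pi / 2)
    rw [Complex.cos_sub_pi_div_two] at h1
    have e1 : (th b z - Real.pi / 2 : ℂ).im = (th b z).im := by simp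
    rw [e1] at h1
    refine h1.trans ((cosh_le_exp _).trans ?_)
    rw [him]
  have hnum : ‖-(4 * b * cos (b * l) * sin (th b z) : ℂ)‖ ≤ 4 * b * Real.exp (2 * b * |z.im|) := by
    rw [norm_neg, norm_mul, norm_mul, norm_mul, Complex.norm_real, Real.norm_of_nonneg hb0.le]
    have h4 : ‖(4 : ℂ)‖ = 4 := by norm_num
    rw [h4]
    have h1 := norm_cos_bl b
    have h2 : 4 * b * ‖cos (b * l : ℂ)‖ ≤ 4 * b := by nlinarith
    exact mul_le_mul h2 hsin (norm_nonneg _) (by positivity)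
  have hden : (kw b s ^ 2 * (Real.exp (2 * b * |z.im|) / 2)) ^ 2 ≤
      ‖(cos (th b z) + cos (b * l)) ^ 2‖ := by
    rw [norm_pow]
    exact pow_le_pow_left₀ (by positivity) (den_ge h hz) 2
  unfold psiD
  rw [norm_div]
  have hpos : 0 < (kw b s ^ 2 * (Real.exp (2 * b * |z.im|) / 2)) ^ 2 := by positivity
  refine (div_le_div₀ (by positivity) hnum hpos hden).trans (le_of_eq ?_)
  rw [Real.exp_neg]
  field_simp
  norm_num

end

/-! ### the expansion of the logarithmic derivative -/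

/-- `exp (i (2 b z + b l))` -/
def Xe (b : ℝ) (z : ℂ) : ℂ := exp (I * th b z)

theorem norm_Xe (b : ℝ) (z : ℂ) : ‖Xe b z‖ = Real.exp (-(2 * b * z.im)) := by
  unfold Xe
  rw [Complex.norm_exp]
  congr 1
  unfold th
  simp

theorem Xe_sub (b : ℝ) (z w : ℂ) : Xe b (z - w) = Xe b z * exp (-(2 * b * w * I)) := by
  unfold Xe th
  rw [← Complex.exp_add]
  congr 1
  ring

theorem cos_X (b : ℝ) (z : ℂ) : 2 * Xe b z * cos (th b z) = Xe b z ^ 2 + 1 := by
  have h : Xe b z * exp (-(I * th b z)) = 1 := by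
    unfold Xe
    rw [← Complex.exp_add, add_neg_cancel, Complex.exp_zero]
  have h2 : cos (th b z) = (Xe b z + exp (-(I * th b z))) / 2 := by
    unfold Xe
    rw [Complex.cos]
    congr 2
    · congr 1; ring
    · congr 1; ring
  rw [h2]
  linear_combination h

theorem sin_X (b : ℝ) (z : ℂ) : 2 * Xe b z * sin (th b z) = -I * (Xe b z ^ 2 - 1) := by
  have h : Xe b z * exp (-(I * th b z)) = 1 := by
    unfold Xe
    rw [← Complex.exp_add, add_neg_cancel, Complex.exp_zero]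
  have h2 : sin (th b z) = (exp (-(I * th b z)) - Xe b z) * I / 2 := by
    unfold Xe
    rw [Complex.sin]
    congr 3
    · congr 1; ring
    · congr 1; ring
  rw [h2]
  linear_combination I * h

/-- the numerator and the denominator -/
theorem psi_X {b : ℝ} {z : ℂ} (h : cos (th b z) + cos (b * l) ≠ 0) :
    psi b z * (Xe b z ^ 2 + 1 + 2 * cos (b * l) * Xe b z) = Xe b z ^ 2 + 1 - 2 * cos (b * l) * Xe b z := by
  have h1 := cos_X b z
  have e : psi b z * (cos (th b z) + cos (b * l)) = cos (th b z) - cos (b * l) := by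
    unfold psi
    have e1 : (cos (2 * ↑b * z + ↑b * ↑l) : ℂ) = cos (th b z) := rfl
    rw [e1]
    exact div_mul_cancel₀ _ h
  linear_combination (2 * Xe b z) * e - psi b z * h1 + h1

theorem psiD_X {b : ℝ} {z : ℂ} (h : cos (th b z) + cos (b * l) ≠ 0) :
    psiD b z * (Xe b z ^ 2 + 1 + 2 * cos (b * l) * Xe b z) ^ 2 =
      8 * I * b * cos (b * l) * Xe b z * (Xe b z ^ 2 - 1) := by
  have h1 := cos_X b z
  have h2 := sin_X b z
  have e : psiD b z * (cos (th b z) + cos (b * l)) ^ 2 = -(4 * b * cos (b * l) * sin (th b z)) := by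
    unfold psiD
    exact div_mul_cancel₀ _ (pow_ne_zero 2 h)
  have e2 : Xe b z ^ 2 + 1 + 2 * cos (b * l) * Xe b z = 2 * Xe b z * (cos (th b z) + cos (b * l)) := by
    linear_combination -h1
  rw [e2, mul_pow, mul_left_comm, e]
  linear_combination (-(8 * b * cos (b * l) * Xe b z)) * h2

/-- `exp (± i (2 b z + b l))` -/
def Xs (σ b : ℝ) (z : ℂ) : ℂ := exp (σ * (I * th b z))

theorem norm_Xs {σ : ℝ} (b : ℝ) (z : ℂ) : ‖Xs σ b z‖ = Real.exp (-(2 * b * (σ * z.im))) := by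
  unfold Xs
  rw [Complex.norm_exp]
  congr 1
  unfold th
  simp
  ring

theorem Xs_sub (σ b : ℝ) (z w : ℂ) : Xs σ b (z - w) = Xs σ b z * exp (-(2 * b * σ * w * I)) := by
  unfold Xs th
  rw [← Complex.exp_add]
  congr 1
  ring

theorem psi_refl (b : ℝ) (z : ℂ) : psi b (-z - l) = psi b z := by
  unfold psi
  rw [show (2 * b * (-z - l) + b * l : ℂ) = -(2 * b * z + b * l) by ring, Complex.cos_neg]

theorem psiD_refl (b : ℝ) (z : ℂ) : psiD b (-z - l) = -psiD b z := by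
  unfold psiD
  rw [show th b (-z - l) = -th b z by unfold th; ring, Complex.cos_neg, Complex.sin_neg]
  ring

theorem exp_two_le : Real.exp (-2) ≤ 0.14 := by
  have h := Real.exp_one_gt_d9
  have h1 : Real.exp 2 = Real.exp 1 ^ 2 := by rw [← Real.exp_nat_mul]; norm_num
  rw [Real.exp_neg, inv_le_comm₀ (Real.exp_pos _) (by norm_num), h1]
  nlinarith

theorem expand_up {b s : ℝ} {z : ℂ} (h : Wide b s) (hz : |z.re + l / 2| ≤ s) (ht : 1 ≤ z.im) :
    ‖psiD b z + 8 * I * b * cos (b * l) * Xe b z * psi b z‖ ≤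
      200 * Real.exp (-(6 * b * z.im)) * ‖psi b z‖ := by
  have hb1 := h.b1
  have hb2 := h.b2
  have hd := den_ne' h hz
  have h1 := psi_X hd
  have h2 := psiD_X hd
  have hX : ‖Xe b z‖ = Real.exp (-(2 * b * z.im)) := norm_Xe b z
  have hX1 : ‖Xe b z‖ ≤ 0.14 := by
    rw [hX]
    refine le_trans (Real.exp_le_exp.2 ?_) exp_two_le
    nlinarith
  have hX3 : ‖Xe b z‖ ^ 3 = Real.exp (-(6 * b * z.im)) := by
    rw [hX, ← Real.exp_nat_mul]
    congr 1
    push_cast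
    ring
  have hc := norm_cos_bl b
  generalize hXX : Xe b z = X at *
  generalize hcc : cos (b * l : ℂ) = c at *
  have hX0 := norm_nonneg X
  have hc0 := norm_nonneg c
  -- lower bounds of numerator and denominator
  have hsm : ∀ (ε : ℂ), ‖ε‖ = 1 → (1 / 2 : ℝ) ≤ ‖X ^ 2 + 1 + ε * (2 * c * X)‖ := by
    intro ε hε
    have e1 : ‖(1 : ℂ)‖ ≤ ‖X ^ 2 + 1 + ε * (2 * c * X)‖ + ‖X ^ 2 + ε * (2 * c * X)‖ := by
      have := norm_sub_le (X ^ 2 + 1 + ε * (2 * c * X)) (X ^ 2 + ε * (2 * c * X))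
      rwa [show X ^ 2 + 1 + ε * (2 * c * X) - (X ^ 2 + ε * (2 * c * X)) = 1 by ring] at this
    have e2 : ‖X ^ 2 + ε * (2 * c * X)‖ ≤ ‖X‖ ^ 2 + 2 * ‖X‖ := by
      refine (norm_add_le _ _).trans ?_
      rw [norm_pow, norm_mul, hε, one_mul, norm_mul, norm_mul, Complex.norm_two]
      nlinarith
    rw [norm_one] at e1
    nlinarith
  have hN : (1 / 2 : ℝ) ≤ ‖X ^ 2 + 1 - 2 * c * X‖ := by
    have := hsm (-1) (by simp)
    rwa [show X ^ 2 + 1 + -1 * (2 * c * X) = X ^ 2 + 1 - 2 * c * X by ring] at this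
  have hD : (1 / 2 : ℝ) ≤ ‖X ^ 2 + 1 + 2 * c * X‖ := by
    have := hsm 1 (by simp)
    rwa [one_mul] at this
  set D := X ^ 2 + 1 + 2 * c * X with hDd
  set N := X ^ 2 + 1 - 2 * c * X with hNd
  have key : (psiD b z + 8 * I * b * c * X * psi b z) * D ^ 2 =
      8 * I * b * c * X ^ 3 * (X ^ 2 + 3 - 4 * c ^ 2) := by
    have : (psiD b z + 8 * I * b * c * X * psi b z) * D ^ 2 =
        psiD b z * D ^ 2 + 8 * I * b * c * X * (psi b z * D) * D := by ring
    rw [this, h2, h1, hDd]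
    ring
  have kn := congrArg norm key
  rw [norm_mul, norm_pow] at kn
  have hrhs : ‖8 * I * b * c * X ^ 3 * (X ^ 2 + 3 - 4 * c ^ 2)‖ ≤ 80 * ‖X‖ ^ 3 := by
    rw [norm_mul, norm_mul, norm_mul, norm_mul, norm_mul, Complex.norm_I, Complex.norm_real,
      Real.norm_of_nonneg (by linarith : (0 : ℝ) ≤ b), norm_pow]
    have h8 : ‖(8 : ℂ)‖ = 8 := by norm_num
    have h7 : ‖X ^ 2 + 3 - 4 * c ^ 2‖ ≤ 7.02 := by
      refine (norm_sub_le _ _).trans ?_
      have a1 : ‖X ^ 2 + 3‖ ≤ 3.02 := by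
        refine (norm_add_le _ _).trans ?_
        rw [norm_pow]
        have : ‖(3 : ℂ)‖ = 3 := by norm_num
        rw [this]
        nlinarith
      have a2 : ‖4 * c ^ 2‖ ≤ 4 := by
        rw [norm_mul, norm_pow]
        have : ‖(4 : ℂ)‖ = 4 := by norm_num
        rw [this]
        nlinarith
      linarith
    rw [h8]
    have h6 : 8 * 1 * b * ‖c‖ ≤ 32 / 3 := by nlinarith
    have hX30 : 0 ≤ ‖X‖ ^ 3 := by positivity
    calc 8 * 1 * b * ‖c‖ * ‖X‖ ^ 3 * ‖X ^ 2 + 3 - 4 * c ^ 2‖ ≤ 32 / 3 * ‖X‖ ^ 3 * 7.02 := by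
          refine mul_le_mul (mul_le_mul_of_nonneg_right h6 hX30) h7 (norm_nonneg _) (by positivity)
      _ ≤ 80 * ‖X‖ ^ 3 := by nlinarith
  have hND : ‖psi b z‖ * ‖D‖ = ‖N‖ := by rw [← norm_mul, h1]
  rw [← hX3]
  have hDpos : 0 < ‖D‖ := by linarith
  have hDsq : 0 < ‖D‖ ^ 2 := by positivity
  have e5 : ‖psiD b z + 8 * I * b * c * X * psi b z‖ ≤ 80 * ‖X‖ ^ 3 / ‖D‖ ^ 2 := by
    rw [le_div_iff₀ hDsq, kn]
    exact hrhs
  refine e5.trans ?_
  rw [div_le_iff₀ hDsq]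
  have e6 : 200 * ‖X‖ ^ 3 * ‖psi b z‖ * ‖D‖ ^ 2 = 200 * ‖X‖ ^ 3 * (‖N‖ * ‖D‖) := by
    rw [← hND]; ring
  rw [e6]
  have e7 : (2 / 5 : ℝ) ≤ ‖N‖ * ‖D‖ := by
    have hN' : (0.65 : ℝ) ≤ ‖N‖ := by
      have e1 : ‖(1 : ℂ)‖ ≤ ‖N‖ + ‖X ^ 2 - 2 * c * X‖ := by
        have := norm_sub_le N (X ^ 2 - 2 * c * X)
        rwa [show N - (X ^ 2 - 2 * c * X) = 1 by rw [hNd]; ring] at this
      have e2 : ‖X ^ 2 - 2 * c * X‖ ≤ ‖X‖ ^ 2 + 2 * ‖X‖ := by
        refine (norm_sub_le _ _).trans ?_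
        rw [norm_pow, norm_mul, norm_mul, Complex.norm_two]
        nlinarith
      rw [norm_one] at e1
      nlinarith
    have hD' : (0.65 : ℝ) ≤ ‖D‖ := by
      have e1 : ‖(1 : ℂ)‖ ≤ ‖D‖ + ‖X ^ 2 + 2 * c * X‖ := by
        have := norm_sub_le D (X ^ 2 + 2 * c * X)
        rwa [show D - (X ^ 2 + 2 * c * X) = 1 by rw [hDd]; ring] at this
      have e2 : ‖X ^ 2 + 2 * c * X‖ ≤ ‖X‖ ^ 2 + 2 * ‖X‖ := by
        refine (norm_add_le _ _).trans ?_
        rw [norm_pow, norm_mul, norm_mul, Complex.norm_two]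
        nlinarith
      rw [norm_one] at e1
      nlinarith
    nlinarith
  have hX30 : 0 ≤ ‖X‖ ^ 3 := by positivity
  nlinarith [mul_le_mul_of_nonneg_left e7 (by positivity : (0 : ℝ) ≤ 200 * ‖X‖ ^ 3)]

/-- **the expansion of `psi' / psi` at both ends** -/
theorem expand {b s σ : ℝ} {z : ℂ} (h : Wide b s) (hz : |z.re + l / 2| ≤ s) (hσ : σ = 1 ∨ σ = -1)
    (ht : 1 ≤ σ * z.im) :
    ‖psiD b z + σ * (8 * I * b * cos (b * l)) * Xs σ b z * psi b z‖ ≤
      200 * Real.exp (-(6 * b * (σ * z.im))) * ‖psi b z‖ := by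
  rcases hσ with rfl | rfl
  · have := expand_up h hz (by simpa using ht)
    have e : Xs 1 b z = Xe b z := by unfold Xs Xe; simp
    rw [e]
    simpa using this
  · have h1 : (-z - l : ℂ).re + l / 2 = -(z.re + l / 2) := by simp; ring
    have h2 : (-z - l : ℂ).im = -z.im := by simp
    have := expand_up (z := -z - l) h (by rw [h1, abs_neg]; exact hz) (by rw [h2]; linarith)
    rw [psi_refl, psiD_refl, h2] at this
    have e : Xe b (-z - l) = Xs (-1) b z := by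
      unfold Xs Xe
      rw [show th b (-z - l) = -th b z by unfold th; ring]
      congr 1
      push_cast
      ring
    rw [e] at this
    have e2 : ‖psiD b z + ((-1 : ℝ) : ℂ) * (8 * I * b * cos (b * l)) * Xs (-1) b z * psi b z‖ =
        ‖-psiD b z + 8 * I * b * cos (b * l) * Xs (-1) b z * psi b z‖ := by
      rw [← norm_neg]
      congr 1
      push_cast
      ring
    rw [e2]
    refine this.trans (le_of_eq ?_)
    congr 3
    ring

/-! ### the cutoff with `M` pairs and the points `w` -/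

open Finset

section cutoff

variable {ι : Type*} [Fintype ι] [DecidableEq ι]

/-- product over the points `w` -/
def prd (b : ℝ) (w : ι → ℂ) (u : ℂ) : ℂ := ∏ i, psi b (u - w i)

/-- `- ∑ a i ∂_{w i}` of the product -/
def prd1 (b : ℝ) (a w : ι → ℂ) (u : ℂ) : ℂ :=
  ∑ i, a i * psiD b (u - w i) * ∏ j ∈ univ.erase i, psi b (u - w j)

/-- derivative of `Psi` -/
def PsiD (b : ℝ) (u : ℂ) : ℂ :=
  psiD b (u - l / 2) * psi b (u + l / 2) + psi b (u - l / 2) * psiD b (u + l / 2)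

/-- the sea: `M` pairs of points at `± l / 2` and `a` points at `0` -/
def Bk (b : ℝ) (M a : ℕ) (u : ℂ) : ℂ := Psi b u ^ M * psi b u ^ a

/-- derivative of `Bk` -/
def BkD (b : ℝ) (M a : ℕ) (u : ℂ) : ℂ :=
  M * Psi b u ^ (M - 1) * PsiD b u * psi b u ^ a + Psi b u ^ M * (a * psi b u ^ (a - 1) * psiD b u)

/-- **the cutoff** with `M` pairs of points at `± l / 2`, `a` points at `0` and the points `w` -/
def phiW (b : ℝ) (M a : ℕ) (w : ι → ℂ) (u : ℂ) : ℂ := 1 - Bk b M a u * prd b w u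

/-- `(∂_η + ξ ∂_t) phiW` for points `w` with velocities `v` -/
def Dph (b : ℝ) (M a : ℕ) (w v : ι → ℂ) (ξ u : ℂ) : ℂ :=
  Bk b M a u * prd1 b (fun i => v i - I * ξ) w u - I * ξ * BkD b M a u * prd b w u

/-- the points -/
structure Pts (w : ι → ℂ) : Prop where
  re : ∀ i, |(w i).re| ≤ l / 2
  im : ∀ i, |(w i).im| ≤ 2

/-- `exp (- 2 b σ w i)`: value of the exponential at a point -/
def Ep (σ b : ℝ) (w : ℂ) : ℂ := exp (-(2 * b * σ * w * I))

/-- **the transport condition at both ends** up to an error `δ`: `ξe 1`, `ξe (-1)` = the two limits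
of the field -/
structure Tr (b : ℝ) (M a : ℕ) (w v : ι → ℂ) (ξ : ℝ → ℂ) (ξe : ℝ → ℂ) (C0 δ : ℝ) : Prop where
  pts : Pts w
  vel : ∀ i, ‖v i‖ ≤ C0
  cond : ∀ σ : ℝ, (σ = 1 ∨ σ = -1) → ‖∑ i, v i * Ep σ b (w i) -
    I * ξe σ * (2 * M * cos (b * l) + a + ∑ i, Ep σ b (w i))‖ ≤ δ
  lim : ∀ σ : ℝ, (σ = 1 ∨ σ = -1) → ‖ξe σ‖ ≤ C0 / (M + a)
  dec : ∀ σ : ℝ, (σ = 1 ∨ σ = -1) → ∀ t : ℝ, 0 ≤ σ * t →
    ‖ξ t - ξe σ‖ ≤ C0 / (M + a) * Real.exp (-(16 / 3 * (σ * t)))

theorem norm_Ep {σ b : ℝ} (hb : 0 ≤ b) (hσ : σ = 1 ∨ σ = -1) {w : ℂ} (hw : |w.im| ≤ 2) :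
    ‖Ep σ b w‖ ≤ Real.exp (4 * b) := by
  unfold Ep
  rw [Complex.norm_exp]
  refine Real.exp_le_exp.2 ?_
  have e : (-(2 * b * σ * w * I) : ℂ).re = 2 * b * (σ * w.im) := by
    simp
    ring
  rw [e]
  have : σ * w.im ≤ 2 := by
    obtain ⟨h1, h2⟩ := abs_le.1 hw
    rcases hσ with rfl | rfl <;> linarith
  nlinarith

/-- the standing hypotheses: `1 ≤ b ≤ 4 / 3`, strip `|re u + l / 2| ≤ s` with `2 b s < π / 2` -/
structure Hyp (b s : ℝ) : Prop where
  b1 : 1 ≤ b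
  b2 : b ≤ 4 / 3
  s0 : 0 ≤ s
  s1 : 2 * b * s < Real.pi / 2

theorem Hyp.adm {b s : ℝ} (h : Hyp b s) : Adm b s where
  pos := by linarith [h.b1]
  snn := h.s0
  sl := h.s1
  bl := by
    have h1 := h.b2
    have := Real.pi_pos
    unfold l
    nlinarith

theorem Hyp.h2 {b s : ℝ} (h : Hyp b s) : 2 * b * l < Real.pi / 2 := by
  have h1 := h.b2
  have := Real.pi_pos
  unfold l
  nlinarith

theorem Hyp.wide {b s : ℝ} (h : Hyp b s) : Wide b (s + l / 2) where
  b1 := h.b1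
  b2 := h.b2
  s0 := by have := h.s0; have := l_pos; positivity
  s1 := by
    have h1 := h.b2
    have h3 := h.s1
    have h4 := Real.pi_pos
    unfold l
    nlinarith

theorem re_pt {b s : ℝ} (_h : Hyp b s) {u w : ℂ} (hu : |u.re + l / 2| ≤ s) (hw : |w.re| ≤ l / 2) :
    |(u - w).re + l / 2| ≤ s + l / 2 := by
  obtain ⟨h1, h2⟩ := abs_le.1 hu
  obtain ⟨h3, h4⟩ := abs_le.1 hw
  rw [sub_re, abs_le]
  constructor <;> linarith

/-- the constant of the unpaired points -/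
def Kp (b s : ℝ) : ℝ := 4 / kw b (s + l / 2) ^ 2 * Real.exp (4 * b)

theorem Kp_pos {b s : ℝ} (h : Hyp b s) : 0 < Kp b s := by
  have := h.wide.kpos
  unfold Kp
  positivity

theorem psi_le {b s : ℝ} (h : Hyp b s) {u w : ℂ} (hu : |u.re + l / 2| ≤ s) (hw : |w.re| ≤ l / 2)
    (hi : |w.im| ≤ 2) :
    ‖psi b (u - w)‖ ≤ Real.exp (Kp b s * Real.exp (-(2 * b * |u.im|))) := by
  have h1 := one_sub_psi_le h.wide (re_pt h hu hw)
  have hb := h.b1
  have hk := h.wide.kpos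
  have h2 : Real.exp (-(2 * b * |(u - w).im|)) ≤ Real.exp (4 * b) * Real.exp (-(2 * b * |u.im|)) := by
    rw [← Real.exp_add]
    refine Real.exp_le_exp.2 ?_
    have h3 : |u.im| - |w.im| ≤ |(u - w).im| := by rw [sub_im]; exact abs_sub_abs_le_abs_sub _ _
    nlinarith
  have h3 : ‖psi b (u - w)‖ ≤ 1 + ‖1 - psi b (u - w)‖ := by
    have := norm_sub_le (1 : ℂ) (1 - psi b (u - w))
    rwa [sub_sub_cancel, norm_one] at this
  have h4 : ‖1 - psi b (u - w)‖ ≤ Kp b s * Real.exp (-(2 * b * |u.im|)) := by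
    have h0 : 0 ≤ 4 / kw b (s + l / 2) ^ 2 := by positivity
    refine h1.trans ((mul_le_mul_of_nonneg_left h2 h0).trans (le_of_eq ?_))
    unfold Kp
    ring
  refine h3.trans ?_
  have := Real.add_one_le_exp (Kp b s * Real.exp (-(2 * b * |u.im|)))
  linarith

theorem prod_le {b s : ℝ} (h : Hyp b s) {u : ℂ} (hu : |u.re + l / 2| ≤ s) {w : ι → ℂ}
    (hw : Pts w) (S : Finset ι) :
    ‖∏ i ∈ S, psi b (u - w i)‖ ≤
      Real.exp (Fintype.card ι * (Kp b s * Real.exp (-(2 * b * |u.im|)))) := by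
  rw [norm_prod]
  have hK := Kp_pos h
  calc _ ≤ ∏ _i ∈ S, Real.exp (Kp b s * Real.exp (-(2 * b * |u.im|))) :=
        prod_le_prod (fun _ _ => norm_nonneg _) fun i _ => psi_le h hu (hw.re i) (hw.im i)
    _ = Real.exp (S.card * (Kp b s * Real.exp (-(2 * b * |u.im|)))) := by
        rw [prod_const, ← Real.exp_nat_mul]
    _ ≤ _ := by
        have h0 : 0 ≤ Kp b s * Real.exp (-(2 * b * |u.im|)) := (mul_pos hK (Real.exp_pos _)).le
        refine Real.exp_le_exp.2 (mul_le_mul_of_nonneg_right ?_ h0)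
        exact_mod_cast card_le_univ S

/-- the rate of the sea -/
def c1 (b s : ℝ) : ℝ := cl b * kap b s / 2

theorem c1_pos {b s : ℝ} (h : Hyp b s) : 0 < c1 b s := by
  have h1 := h.adm.cl_pos
  have h2 := h.adm.kap_pos
  unfold c1
  positivity

theorem Bk_le {b s : ℝ} (h : Hyp b s) {u : ℂ} (hu : |u.re + l / 2| ≤ s) (M a : ℕ) :
    ‖Bk b M a u‖ ≤ Real.exp (-(c1 b s * ((M + a : ℝ) * Real.exp (-(2 * b * |u.im|))))) := by
  have h1 := norm_Psi_pow h.h2 h.adm hu M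
  have h2 := norm_psi h.adm hu
  rw [neg_mul] at h1 h2
  have hk := h.adm.kap_pos
  have hc := c2_pos h.h2 h.adm
  have hc1 := cl_le_one b
  have he := Real.exp_pos (-(2 * b * |u.im|))
  have h1' : ‖Psi b u ^ M‖ ≤ Real.exp (-(c1 b s * (M * Real.exp (-(2 * b * |u.im|))))) := by
    refine h1.trans (Real.exp_le_exp.2 (neg_le_neg (mul_le_mul_of_nonneg_right ?_ (by positivity))))
    unfold c1
    nlinarith
  have h2' : ‖psi b u ^ a‖ ≤ Real.exp (-(c1 b s * (a * Real.exp (-(2 * b * |u.im|))))) := by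
    rw [norm_pow]
    refine (pow_le_pow_left₀ (norm_nonneg _) h2 a).trans (le_of_eq ?_)
    rw [← Real.exp_nat_mul]
    congr 1
    unfold c1
    ring
  unfold Bk
  rw [norm_mul]
  refine (mul_le_mul h1' h2' (norm_nonneg _) (Real.exp_pos _).le).trans (le_of_eq ?_)
  rw [← Real.exp_add]
  congr 1
  ring

/-- the whole product -/
theorem Pi_le {b s : ℝ} (h : Hyp b s) {u : ℂ} (hu : |u.re + l / 2| ≤ s) {w : ι → ℂ} (hw : Pts w)
    {M a : ℕ} (hM : 2 * Fintype.card ι * Kp b s ≤ c1 b s * (M + a : ℝ)) :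
    ‖Bk b M a u * prd b w u‖ ≤
      Real.exp (-(c1 b s / 2 * ((M + a : ℝ) * Real.exp (-(2 * b * |u.im|))))) := by
  rw [norm_mul]
  have h1 := Bk_le h hu M a
  have h2 := prod_le h hu hw univ
  refine (mul_le_mul h1 h2 (norm_nonneg _) (Real.exp_pos _).le).trans ?_
  rw [← Real.exp_add]
  refine Real.exp_le_exp.2 ?_
  have he := Real.exp_pos (-(2 * b * |u.im|))
  nlinarith

/-! ### the far region -/

theorem Pts.imu {w : ι → ℂ} (hw : Pts w) {σ : ℝ} (hσ : σ = 1 ∨ σ = -1) {u : ℂ} (i : ι) :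
    σ * u.im - 2 ≤ σ * (u - w i).im := by
  obtain ⟨h1, h2⟩ := abs_le.1 (hw.im i)
  rw [sub_im]
  rcases hσ with rfl | rfl <;> linarith

/-- the remainder of the logarithmic derivative, multiplied by `psi` -/
def Rm (b σ : ℝ) (z : ℂ) : ℂ := psiD b z + σ * (8 * I * b * cos (b * l)) * Xs σ b z * psi b z

theorem psiD_eq (b σ : ℝ) (u w : ℂ) : psiD b (u - w) =
    -(σ * (8 * I * b * cos (b * l)) * Xs σ b u) * Ep σ b w * psi b (u - w) + Rm b σ (u - w) := by
  unfold Rm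
  rw [Xs_sub]
  unfold Ep
  ring

theorem prd1_far {b s : ℝ} (h : Hyp b s) {u : ℂ} (hu : |u.re + l / 2| ≤ s) {w : ι → ℂ}
    (hw : Pts w) {σ : ℝ} (hσ : σ = 1 ∨ σ = -1) (ht : 3 ≤ σ * u.im) (a : ι → ℂ) {A : ℝ}
    (hA : ∀ i, ‖a i‖ ≤ A) :
    ‖prd1 b a w u + σ * (8 * I * b * cos (b * l)) * Xs σ b u * (∑ i, a i * Ep σ b (w i)) *
      prd b w u‖ ≤
      Fintype.card ι * A * (200 * (Real.exp (12 * b) * Real.exp (-(6 * b * (σ * u.im))))) *
        ‖prd b w u‖ := by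
  have hb := h.b1
  have e : prd1 b a w u + σ * (8 * I * b * cos (b * l)) * Xs σ b u * (∑ i, a i * Ep σ b (w i)) *
      prd b w u = ∑ i, a i * Rm b σ (u - w i) * ∏ j ∈ univ.erase i, psi b (u - w j) := by
    unfold prd1
    rw [mul_assoc (σ * (8 * I * b * cos (b * l)) * Xs σ b u : ℂ), Finset.sum_mul, Finset.mul_sum,
      ← Finset.sum_add_distrib]
    refine Finset.sum_congr rfl fun i _ => ?_
    have e1 : prd b w u = psi b (u - w i) * ∏ j ∈ univ.erase i, psi b (u - w j) :=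
      (Finset.mul_prod_erase univ (fun j => psi b (u - w j)) (mem_univ i)).symm
    rw [psiD_eq b σ u (w i), e1]
    ring
  rw [e]
  refine (norm_sum_le _ _).trans ?_
  have hone : ∀ i ∈ (univ : Finset ι), ‖a i * Rm b σ (u - w i) * ∏ j ∈ univ.erase i, psi b (u - w j)‖ ≤
      A * (200 * (Real.exp (12 * b) * Real.exp (-(6 * b * (σ * u.im))))) * ‖prd b w u‖ := by
    intro i _
    have e1 : prd b w u = psi b (u - w i) * ∏ j ∈ univ.erase i, psi b (u - w j) :=
      (Finset.mul_prod_erase univ (fun j => psi b (u - w j)) (mem_univ i)).symm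
    have him := hw.imu hσ (u := u) i
    have h1 := expand h.wide (re_pt h hu (hw.re i)) hσ (z := u - w i) (by linarith)
    have h2 : Real.exp (-(6 * b * (σ * (u - w i).im))) ≤
        Real.exp (12 * b) * Real.exp (-(6 * b * (σ * u.im))) := by
      rw [← Real.exp_add]
      refine Real.exp_le_exp.2 ?_
      nlinarith
    have h3 : ‖Rm b σ (u - w i)‖ ≤
        200 * (Real.exp (12 * b) * Real.exp (-(6 * b * (σ * u.im)))) * ‖psi b (u - w i)‖ := by
      refine h1.trans (mul_le_mul_of_nonneg_right ?_ (norm_nonneg _))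
      linarith
    have hA0 : 0 ≤ A := (norm_nonneg _).trans (hA i)
    rw [norm_mul, norm_mul, e1, norm_mul]
    calc ‖a i‖ * ‖Rm b σ (u - w i)‖ * ‖∏ j ∈ univ.erase i, psi b (u - w j)‖ ≤
        A * (200 * (Real.exp (12 * b) * Real.exp (-(6 * b * (σ * u.im)))) * ‖psi b (u - w i)‖) *
          ‖∏ j ∈ univ.erase i, psi b (u - w j)‖ :=
          mul_le_mul_of_nonneg_right (mul_le_mul (hA i) h3 (norm_nonneg _) hA0) (norm_nonneg _)
      _ = _ := by ring
  refine (Finset.sum_le_sum hone).trans (le_of_eq ?_)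
  rw [Finset.sum_const, card_univ, nsmul_eq_mul]
  ring

theorem half_pt {σ b : ℝ} (hσ : σ = 1 ∨ σ = -1) :
    Ep σ b ((l : ℂ) / 2) + Ep σ b (-((l : ℂ) / 2)) = 2 * cos (b * l) := by
  unfold Ep
  rcases hσ with rfl | rfl
  · rw [Complex.cos]
    push_cast
    rw [mul_div_cancel₀ _ (two_ne_zero' ℂ), add_comm]
    congr 1
    · congr 1; ring
    · congr 1; ring
  · rw [Complex.cos]
    push_cast
    rw [mul_div_cancel₀ _ (two_ne_zero' ℂ)]
    congr 1
    · congr 1; ring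
    · congr 1; ring

theorem PsiD_far {b s : ℝ} (h : Hyp b s) {u : ℂ} (hu : |u.re + l / 2| ≤ s) {σ : ℝ}
    (hσ : σ = 1 ∨ σ = -1) (ht : 3 ≤ σ * u.im) :
    ‖PsiD b u + σ * (8 * I * b * cos (b * l)) * Xs σ b u * (2 * cos (b * l)) * Psi b u‖ ≤
      400 * Real.exp (-(6 * b * (σ * u.im))) * ‖Psi b u‖ := by
  have hl := l_pos
  have hp : |((l : ℂ) / 2).re| ≤ l / 2 := by
    rw [show ((l : ℂ) / 2).re = l / 2 by simp, abs_of_pos (by positivity)]
  have hm : |(-((l : ℂ) / 2)).re| ≤ l / 2 := by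
    rw [neg_re, abs_neg]; exact hp
  have ip : (u - (l : ℂ) / 2).im = u.im := by simp
  have im : (u - -((l : ℂ) / 2)).im = u.im := by simp
  have h1 := expand h.wide (re_pt h hu hp) hσ (z := u - (l : ℂ) / 2) (by rw [ip]; linarith)
  have h2 := expand h.wide (re_pt h hu hm) hσ (z := u - -((l : ℂ) / 2)) (by rw [im]; linarith)
  rw [ip] at h1
  rw [im] at h2
  have k1 : ‖Rm b σ (u - (l : ℂ) / 2)‖ ≤
      200 * Real.exp (-(6 * b * (σ * u.im))) * ‖psi b (u - (l : ℂ) / 2)‖ := h1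
  have k2 : ‖Rm b σ (u - -((l : ℂ) / 2))‖ ≤
      200 * Real.exp (-(6 * b * (σ * u.im))) * ‖psi b (u - -((l : ℂ) / 2))‖ := h2
  have e3 : (u + (l : ℂ) / 2) = u - -((l : ℂ) / 2) := by ring
  have e : PsiD b u + σ * (8 * I * b * cos (b * l)) * Xs σ b u * (2 * cos (b * l)) * Psi b u =
      Rm b σ (u - (l : ℂ) / 2) * psi b (u - -((l : ℂ) / 2)) +
        psi b (u - (l : ℂ) / 2) * Rm b σ (u - -((l : ℂ) / 2)) := by
    unfold PsiD Psi
    rw [e3, ← half_pt (σ := σ) (b := b) hσ, psiD_eq b σ u ((l : ℂ) / 2), psiD_eq b σ u (-((l : ℂ) / 2))]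
    ring
  rw [e]
  refine (norm_add_le _ _).trans ?_
  rw [norm_mul, norm_mul]
  have e4 : ‖Psi b u‖ = ‖psi b (u - (l : ℂ) / 2)‖ * ‖psi b (u - -((l : ℂ) / 2))‖ := by
    unfold Psi
    rw [e3, norm_mul]
  rw [e4]
  have m1 := mul_le_mul_of_nonneg_right k1 (norm_nonneg (psi b (u - -((l : ℂ) / 2))))
  have m2 := mul_le_mul_of_nonneg_left k2 (norm_nonneg (psi b (u - (l : ℂ) / 2)))
  linarith

theorem psiD_far0 {b s : ℝ} (h : Hyp b s) {u : ℂ} (hu : |u.re + l / 2| ≤ s) {σ : ℝ}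
    (hσ : σ = 1 ∨ σ = -1) (ht : 3 ≤ σ * u.im) :
    ‖psiD b u + σ * (8 * I * b * cos (b * l)) * Xs σ b u * psi b u‖ ≤
      200 * Real.exp (-(6 * b * (σ * u.im))) * ‖psi b u‖ := by
  have hl := l_pos
  exact expand h.wide (hu.trans (by linarith)) hσ (by linarith)

theorem pow_pred {x : ℂ} {n : ℕ} : (n : ℂ) * x ^ (n - 1) * x = n * x ^ n := by
  rcases n with _ | n
  · simp
  · rw [Nat.add_sub_cancel, pow_succ]; ring

theorem norm_pow_pred {x : ℂ} {n : ℕ} : (n : ℝ) * ‖x‖ ^ (n - 1) * ‖x‖ = n * ‖x‖ ^ n := by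
  rcases n with _ | n
  · simp
  · rw [Nat.add_sub_cancel, pow_succ]; ring

theorem BkD_far {b s : ℝ} (h : Hyp b s) {u : ℂ} (hu : |u.re + l / 2| ≤ s) {σ : ℝ}
    (hσ : σ = 1 ∨ σ = -1) (ht : 3 ≤ σ * u.im) (M a : ℕ) :
    ‖BkD b M a u + σ * (8 * I * b * cos (b * l)) * Xs σ b u * (2 * M * cos (b * l) + a) *
      Bk b M a u‖ ≤ 400 * (M + a : ℝ) * Real.exp (-(6 * b * (σ * u.im))) * ‖Bk b M a u‖ := by
  have h1 := PsiD_far h hu hσ ht
  have h2 := psiD_far0 h hu hσ ht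
  set X := σ * (8 * I * b * cos (b * l)) * Xs σ b u with hX
  set R1 := PsiD b u + X * (2 * cos (b * l)) * Psi b u with hR1
  set R2 := psiD b u + X * psi b u with hR2
  have e : BkD b M a u + X * (2 * M * cos (b * l) + a) * Bk b M a u =
      M * Psi b u ^ (M - 1) * R1 * psi b u ^ a + Psi b u ^ M * (a * psi b u ^ (a - 1) * R2) := by
    unfold BkD Bk
    rw [hR1, hR2]
    have p1 := pow_pred (x := Psi b u) (n := M)
    have p2 := pow_pred (x := psi b u) (n := a)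
    linear_combination (-(X * (2 * cos (b * l)) * psi b u ^ a)) * p1 - (X * Psi b u ^ M) * p2
  rw [e]
  refine (norm_add_le _ _).trans ?_
  have n1 : ‖(M : ℂ) * Psi b u ^ (M - 1) * R1 * psi b u ^ a‖ ≤
      400 * M * Real.exp (-(6 * b * (σ * u.im))) * ‖Bk b M a u‖ := by
    unfold Bk
    rw [norm_mul, norm_mul, norm_mul, Complex.norm_natCast, norm_pow (Psi b u), norm_mul,
      norm_pow (Psi b u)]
    have q := norm_pow_pred (x := Psi b u) (n := M)
    have g : (M : ℝ) * ‖Psi b u‖ ^ (M - 1) * ‖R1‖ ≤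
        (M : ℝ) * ‖Psi b u‖ ^ (M - 1) * (400 * Real.exp (-(6 * b * (σ * u.im))) * ‖Psi b u‖) :=
      mul_le_mul_of_nonneg_left h1 (by positivity)
    have g2 := mul_le_mul_of_nonneg_right g (norm_nonneg (psi b u ^ a))
    refine g2.trans (le_of_eq ?_)
    linear_combination (400 * Real.exp (-(6 * b * (σ * u.im))) * ‖psi b u ^ a‖) * q
  have n2 : ‖Psi b u ^ M * (a * psi b u ^ (a - 1) * R2)‖ ≤
      200 * a * Real.exp (-(6 * b * (σ * u.im))) * ‖Bk b M a u‖ := by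
    unfold Bk
    rw [norm_mul, norm_mul, norm_mul, Complex.norm_natCast, norm_pow (psi b u), norm_mul,
      norm_pow (psi b u)]
    have q := norm_pow_pred (x := psi b u) (n := a)
    have g : (a : ℝ) * ‖psi b u‖ ^ (a - 1) * ‖R2‖ ≤
        (a : ℝ) * ‖psi b u‖ ^ (a - 1) * (200 * Real.exp (-(6 * b * (σ * u.im))) * ‖psi b u‖) :=
      mul_le_mul_of_nonneg_left h2 (by positivity)
    have g2 := mul_le_mul_of_nonneg_left g (norm_nonneg (Psi b u ^ M))
    refine g2.trans (le_of_eq ?_)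
    linear_combination (200 * Real.exp (-(6 * b * (σ * u.im))) * ‖Psi b u ^ M‖) * q
  have h0 : 0 ≤ Real.exp (-(6 * b * (σ * u.im))) * ‖Bk b M a u‖ := by positivity
  have h3 : (0 : ℝ) ≤ a := Nat.cast_nonneg a
  nlinarith

/-- `(∂_η + ξ ∂_t)` of the whole product at a far point, relative to the product -/
theorem Dph_far {b s : ℝ} (h : Hyp b s) {u : ℂ} (hu : |u.re + l / 2| ≤ s) {σ : ℝ}
    (hσ : σ = 1 ∨ σ = -1) (ht : 3 ≤ σ * u.im) {M a : ℕ} (hMa : 1 ≤ M + a) {w v : ι → ℂ}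
    {ξ ξe : ℝ → ℂ} {C0 δ : ℝ} (T : Tr b M a w v ξ ξe C0 δ) :
    ‖Dph b M a w v (ξ u.im) u‖ ≤
      ((C0 * (11 * (2 + Fintype.card ι * Real.exp (4 * b)) + 200 * Real.exp (12 * b) *
        Fintype.card ι * 3 + 800)) * Real.exp (-(6 * b * (σ * u.im))) +
        11 * δ * Real.exp (-(2 * b * (σ * u.im)))) * ‖Bk b M a u * prd b w u‖ := by
  have hb := h.b1
  have hb2 := h.b2
  have hn : (1 : ℝ) ≤ M + a := by exact_mod_cast hMa
  set n : ℝ := M + a with hnd
  have hn0 : 0 < n := by linarith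
  have hC0 : 0 ≤ C0 := by
    have := (norm_nonneg _).trans (T.lim σ hσ)
    rw [le_div_iff₀ hn0, zero_mul] at this
    exact this
  have hl := T.lim σ hσ
  have hd := T.dec σ hσ u.im (by linarith)
  have hlim : ‖ξe σ‖ ≤ C0 / n := hl
  have hdec : ‖ξ u.im - ξe σ‖ ≤ C0 / n * Real.exp (-(16 / 3 * (σ * u.im))) := hd
  have hξ : ‖ξ u.im‖ ≤ 2 * C0 / n := by
    have e1 : Real.exp (-(16 / 3 * (σ * u.im))) ≤ 1 := Real.exp_le_one_iff.2 (by linarith)
    have e2 : ‖ξ u.im‖ ≤ ‖ξ u.im - ξe σ‖ + ‖ξe σ‖ := by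
      have := norm_add_le (ξ u.im - ξe σ) (ξe σ)
      rwa [sub_add_cancel] at this
    have e3 : C0 / n * Real.exp (-(16 / 3 * (σ * u.im))) ≤ C0 / n * 1 :=
      mul_le_mul_of_nonneg_left e1 (by positivity)
    have e4 : 2 * C0 / n = C0 / n * 1 + C0 / n := by ring
    linarith
  have hξ1 : 2 * C0 / n ≤ 2 * C0 := div_le_self (by linarith) hn
  -- the two remainders
  have hA : ∀ i, ‖v i - I * ξ u.im‖ ≤ 3 * C0 := fun i => by
    refine (norm_sub_le _ _).trans ?_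
    rw [norm_mul, Complex.norm_I, one_mul]
    linarith [T.vel i]
  have r1 := prd1_far h hu T.pts hσ ht (fun i => v i - I * ξ u.im) hA
  have r2 := BkD_far h hu hσ ht M a
  set X := σ * (8 * I * b * cos (b * l)) * Xs σ b u with hX
  set R1 := prd1 b (fun i => v i - I * ξ u.im) w u +
    X * (∑ i, (v i - I * ξ u.im) * Ep σ b (w i)) * prd b w u with hR1
  set R2 := BkD b M a u + X * (2 * M * cos (b * l) + a) * Bk b M a u with hR2
  set S : ℂ := 2 * M * cos (b * l) + a + ∑ i, Ep σ b (w i) with hS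
  set Δ : ℂ := ∑ i, v i * Ep σ b (w i) - I * ξe σ * S with hΔ
  have hΔn : ‖Δ‖ ≤ δ := T.cond σ hσ
  have key : Dph b M a w v (ξ u.im) u =
      -(X * (I * (ξe σ - ξ u.im) * S)) * (Bk b M a u * prd b w u) + Bk b M a u * R1 -
        I * ξ u.im * R2 * prd b w u - X * Δ * (Bk b M a u * prd b w u) := by
    have c2 : ∑ i, (v i - I * ξ u.im) * Ep σ b (w i) =
        Δ + I * ξe σ * S - I * ξ u.im * ∑ i, Ep σ b (w i) := by
      rw [hΔ, Finset.mul_sum, sub_add_cancel, ← Finset.sum_sub_distrib]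
      refine Finset.sum_congr rfl fun i _ => ?_
      ring
    unfold Dph
    rw [hR1, hR2, c2, hS]
    ring
  have hXn : ‖X‖ ≤ 11 * Real.exp (-(2 * b * (σ * u.im))) := by
    rw [hX, norm_mul, norm_Xs, norm_mul]
    have e1 : ‖((σ : ℝ) : ℂ)‖ = 1 := by
      rcases hσ with rfl | rfl <;> simp
    have e2 : ‖(8 * I * b * cos (b * l) : ℂ)‖ ≤ 11 := by
      rw [norm_mul, norm_mul, norm_mul, Complex.norm_I, Complex.norm_real,
        Real.norm_of_nonneg (by linarith : (0 : ℝ) ≤ b)]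
      have h8 : ‖(8 : ℂ)‖ = 8 := by norm_num
      rw [h8]
      have := norm_cos_bl b
      nlinarith [norm_nonneg (cos (b * l : ℂ))]
    rw [e1, one_mul]
    exact mul_le_mul_of_nonneg_right e2 (Real.exp_pos _).le
  have hSn : ‖S‖ ≤ n * (2 + Fintype.card ι * Real.exp (4 * b)) := by
    have e1 : ‖(2 * M * cos (b * l) : ℂ)‖ ≤ 2 * M := by
      rw [norm_mul, norm_mul, Complex.norm_two, Complex.norm_natCast]
      have := norm_cos_bl b
      have hM0 : (0 : ℝ) ≤ M := Nat.cast_nonneg M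
      nlinarith
    have e2 : ‖∑ i, Ep σ b (w i)‖ ≤ Fintype.card ι * Real.exp (4 * b) := by
      refine (norm_sum_le _ _).trans ((Finset.sum_le_sum fun i _ =>
        norm_Ep (by linarith) hσ (T.pts.im i)).trans (le_of_eq ?_))
      rw [Finset.sum_const, card_univ, nsmul_eq_mul]
    have e3 : ‖(a : ℂ)‖ = a := Complex.norm_natCast a
    have e4 : ‖S‖ ≤ 2 * M + a + Fintype.card ι * Real.exp (4 * b) := by
      rw [hS]
      refine (norm_add_le _ _).trans (add_le_add ((norm_add_le _ _).trans ?_) e2)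
      rw [e3]
      linarith
    have ha0 : (0 : ℝ) ≤ a := Nat.cast_nonneg a
    have hce : 0 ≤ Fintype.card ι * Real.exp (4 * b) := by positivity
    nlinarith
  set P := Bk b M a u * prd b w u with hP
  set t := σ * u.im with htd
  have t1 : ‖-(X * (I * (ξe σ - ξ u.im) * S)) * P‖ ≤
      C0 * (11 * (2 + Fintype.card ι * Real.exp (4 * b))) * Real.exp (-(6 * b * t)) * ‖P‖ := by
    rw [norm_mul (-(X * (I * (ξe σ - ξ u.im) * S))) P, norm_neg,
      norm_mul X (I * (ξe σ - ξ u.im) * S), norm_mul (I * (ξe σ - ξ u.im)) S,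
      norm_mul I (ξe σ - ξ u.im), Complex.norm_I, one_mul, norm_sub_rev (ξe σ)]
    have e1 : ‖X‖ * (‖ξ u.im - ξe σ‖ * ‖S‖) ≤ (11 * Real.exp (-(2 * b * t))) *
        ((C0 / n * Real.exp (-(16 / 3 * t))) * (n * (2 + Fintype.card ι * Real.exp (4 * b)))) :=
      mul_le_mul hXn (mul_le_mul hdec hSn (norm_nonneg _) (by positivity))
        (by positivity) (by positivity)
    have e2 : (11 * Real.exp (-(2 * b * t))) *
        ((C0 / n * Real.exp (-(16 / 3 * t))) * (n * (2 + Fintype.card ι * Real.exp (4 * b)))) =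
        C0 * (11 * (2 + Fintype.card ι * Real.exp (4 * b))) *
          (Real.exp (-(2 * b * t)) * Real.exp (-(16 / 3 * t))) := by
      field_simp
    have e3 : Real.exp (-(2 * b * t)) * Real.exp (-(16 / 3 * t)) ≤ Real.exp (-(6 * b * t)) := by
      rw [← Real.exp_add]
      refine Real.exp_le_exp.2 ?_
      nlinarith
    refine mul_le_mul_of_nonneg_right (e1.trans (e2.le.trans ?_)) (norm_nonneg _)
    exact mul_le_mul_of_nonneg_left e3 (by positivity)
  have t2 : ‖Bk b M a u * R1‖ ≤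
      C0 * (200 * Real.exp (12 * b) * Fintype.card ι * 3) * Real.exp (-(6 * b * t)) * ‖P‖ := by
    rw [norm_mul]
    refine (mul_le_mul_of_nonneg_left r1 (norm_nonneg _)).trans (le_of_eq ?_)
    rw [hP, norm_mul]
    ring
  have t3 : ‖I * ξ u.im * R2 * prd b w u‖ ≤ C0 * 800 * Real.exp (-(6 * b * t)) * ‖P‖ := by
    rw [norm_mul, norm_mul, norm_mul, Complex.norm_I, one_mul]
    have e1 : ‖ξ u.im‖ * ‖R2‖ ≤ (2 * C0 / n) *
        (400 * n * Real.exp (-(6 * b * t)) * ‖Bk b M a u‖) :=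
      mul_le_mul hξ r2 (norm_nonneg _) (by positivity)
    refine (mul_le_mul_of_nonneg_right e1 (norm_nonneg _)).trans (le_of_eq ?_)
    rw [hP, norm_mul]
    field_simp
    ring
  have t4 : ‖X * Δ * P‖ ≤ 11 * δ * Real.exp (-(2 * b * t)) * ‖P‖ := by
    rw [norm_mul (X * Δ) P, norm_mul X Δ]
    refine mul_le_mul_of_nonneg_right ((mul_le_mul hXn hΔn (norm_nonneg _) (by positivity)).trans
      (le_of_eq ?_)) (norm_nonneg _)
    ring
  rw [key]
  refine (norm_sub_le _ _).trans ((add_le_add ((norm_sub_le _ _).trans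
    (add_le_add ((norm_add_le _ _).trans (add_le_add t1 t2)) t3)) t4).trans (le_of_eq ?_))
  ring

end cutoff

end PBFar

end
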