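import Pool.Agent.PB.Far

/-!
# Plan B, far end: bounds of the cutoff and of its transported derivative

`n = M + a`, `y = n exp (-2 b |im u|)`, strip `|re u + l / 2| ≤ s`, `2 b s < π / 2`:
* `phi_ge`, `phi_le` : `c min 1 y ≤ ‖phi‖ ≤ C min 1 y`;
* `Dph_crude` : `‖Dph‖ ≤ C exp (-2 b |im u|) exp (- c y)` for all velocities;
* `FAR` : under the transport condition with error `δ`, `‖Dph‖ ≤ (C n ^ (-3) + C δ n ^ (-1)) ‖phi‖`.
-/

set_option autoImplicit false
set_option linter.unusedSectionVars false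

open Complex Finset

noncomputable section

namespace PBFar

open NUP1 NURow

section
variable {ι : Type*} [Fintype ι] [DecidableEq ι]

/-! ### elementary -/

theorem cube_exp {x : ℝ} (hx : 0 ≤ x) : x ^ 3 * Real.exp (-x) ≤ 6 * (1 - Real.exp (-x)) := by
  have h1 : x ^ 3 / 6 + 1 ≤ Real.exp x := by
    have := Real.sum_le_exp_of_nonneg hx 4
    simp only [Finset.sum_range_succ, Finset.sum_range_zero] at this
    norm_num [Nat.factorial] at this
    nlinarith [sq_nonneg x]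
  have h2 := Real.exp_pos (-x)
  have h3 : Real.exp x * Real.exp (-x) = 1 := by rw [← Real.exp_add, add_neg_cancel, Real.exp_zero]
  nlinarith [mul_le_mul_of_nonneg_right h1 h2.le]

theorem one_sub_exp_ge {x : ℝ} (hx : 0 ≤ x) : min 1 x / 2 ≤ 1 - Real.exp (-x) := by
  rcases le_total x 1 with h | h
  · rw [min_eq_right h]
    have h1 := Real.quadratic_le_exp_of_nonneg hx
    have h2 := Real.exp_pos (-x)
    have h3 : Real.exp x * Real.exp (-x) = 1 := by
      rw [← Real.exp_add, add_neg_cancel, Real.exp_zero]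
    have h4 : 1 ≤ (1 + x + x ^ 2 / 2) * (1 - x / 2) := by nlinarith [mul_nonneg hx hx, sq_nonneg (x * (1 - x)), mul_nonneg hx (mul_nonneg hx (sub_nonneg.2 h))]
    have h5 : 1 ≤ Real.exp x * (1 - x / 2) :=
      h4.trans (mul_le_mul_of_nonneg_right h1 (by linarith))
    have h6 : Real.exp (-x) * 1 ≤ Real.exp (-x) * (Real.exp x * (1 - x / 2)) :=
      mul_le_mul_of_nonneg_left h5 h2.le
    rw [mul_one, ← mul_assoc, mul_comm (Real.exp (-x)), h3, one_mul] at h6
    linarith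
  · rw [min_eq_left h]
    have h1 : Real.exp (-x) ≤ Real.exp (-1) := Real.exp_le_exp.2 (by linarith)
    have h2 := Real.exp_neg_one_lt_d9
    norm_num at h2 ⊢
    linarith

/-- the parameter `y` -/
def yy (b : ℝ) (n : ℝ) (t : ℝ) : ℝ := n * Real.exp (-(2 * b * |t|))

/-! ### lower bound -/

theorem phiW_ge {b s : ℝ} (h : Hyp b s) {u : ℂ} (hu : |u.re + l / 2| ≤ s) {w : ι → ℂ} (hw : Pts w)
    {M a : ℕ} (hM : 2 * Fintype.card ι * Kp b s ≤ c1 b s * (M + a : ℝ)) :
    1 - Real.exp (-(c1 b s / 2 * yy b (M + a) u.im)) ≤ ‖phiW b M a w u‖ := by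
  have h1 := Pi_le h hu hw hM
  have h2 := norm_sub_norm_le (1 : ℂ) (Bk b M a u * prd b w u)
  rw [norm_one] at h2
  unfold phiW yy
  linarith

/-! ### upper bound -/

theorem one_sub_mul_le {x y : ℂ} {A B : ℝ} (hx : ‖1 - x‖ ≤ Real.exp A - 1)
    (hy : ‖1 - y‖ ≤ Real.exp B - 1) : ‖1 - x * y‖ ≤ Real.exp (A + B) - 1 := by
  have e : 1 - x * y = (1 - x) + (1 - y) - (1 - x) * (1 - y) := by ring
  rw [e]
  refine (norm_sub_le _ _).trans ?_
  rw [norm_mul]
  have h1 := norm_add_le (1 - x) (1 - y)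
  have h2 := mul_le_mul hx hy (norm_nonneg _) ((norm_nonneg _).trans hx)
  rw [Real.exp_add]
  nlinarith

theorem one_sub_pow_le {x : ℂ} {A : ℝ} (hx : ‖1 - x‖ ≤ Real.exp A - 1) (n : ℕ) :
    ‖1 - x ^ n‖ ≤ Real.exp (n * A) - 1 := by
  induction n with
  | zero => simp
  | succ n ih =>
    rw [pow_succ]
    have := one_sub_mul_le ih hx
    rwa [show ((n + 1 : ℕ) : ℝ) * A = n * A + A by push_cast; ring]

theorem one_sub_prod_le {f : ι → ℂ} {A : ℝ} (hf : ∀ i, ‖1 - f i‖ ≤ Real.exp A - 1)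
    (S : Finset ι) : ‖1 - ∏ i ∈ S, f i‖ ≤ Real.exp (S.card * A) - 1 := by
  classical
  induction S using Finset.induction_on with
  | empty => simp
  | insert i S hi ih =>
    rw [Finset.prod_insert hi, Finset.card_insert_of_notMem hi]
    have := one_sub_mul_le (hf i) ih
    rwa [show ((S.card + 1 : ℕ) : ℝ) * A = A + S.card * A by push_cast; ring]

theorem one_sub_psi_le' {b s : ℝ} (h : Hyp b s) {u w : ℂ} (hu : |u.re + l / 2| ≤ s)
    (hw : |w.re| ≤ l / 2) (hi : |w.im| ≤ 2) :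
    ‖1 - psi b (u - w)‖ ≤ Kp b s * Real.exp (-(2 * b * |u.im|)) := by
  have h1 := one_sub_psi_le h.wide (re_pt h hu hw)
  have hb := h.b1
  have hk := h.wide.kpos
  have h2 : Real.exp (-(2 * b * |(u - w).im|)) ≤ Real.exp (4 * b) * Real.exp (-(2 * b * |u.im|)) := by
    rw [← Real.exp_add]
    refine Real.exp_le_exp.2 ?_
    have h3 : |u.im| - |w.im| ≤ |(u - w).im| := by rw [sub_im]; exact abs_sub_abs_le_abs_sub _ _
    nlinarith
  have h0 : 0 ≤ 4 / kw b (s + l / 2) ^ 2 := by positivity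
  refine h1.trans ((mul_le_mul_of_nonneg_left h2 h0).trans (le_of_eq ?_))
  unfold Kp
  ring

theorem le_exp_sub {x A : ℝ} (h : x ≤ A) : x ≤ Real.exp A - 1 := by
  have := Real.add_one_le_exp A
  linarith

theorem phiW_le_exp {b s : ℝ} (h : Hyp b s) {u : ℂ} (hu : |u.re + l / 2| ≤ s) {w : ι → ℂ}
    (hw : Pts w) (M a : ℕ) :
    ‖phiW b M a w u‖ ≤ Real.exp (Kp b s * ((2 * M + a + Fintype.card ι) *
      Real.exp (-(2 * b * |u.im|)))) - 1 := by
  have hl := l_pos
  have hp : |((l : ℂ) / 2).re| ≤ l / 2 := by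
    rw [show ((l : ℂ) / 2).re = l / 2 by simp, abs_of_pos (by positivity)]
  have hm : |(-((l : ℂ) / 2)).re| ≤ l / 2 := by
    rw [neg_re, abs_neg]; exact hp
  have ip : |((l : ℂ) / 2).im| ≤ 2 := by simp
  have im : |(-((l : ℂ) / 2)).im| ≤ 2 := by simp
  have h1 := one_sub_psi_le' h hu hp ip
  have h2 := one_sub_psi_le' h hu hm im
  have h3 := one_sub_psi_le' h hu (w := 0) (by simp; positivity) (by simp)
  rw [sub_neg_eq_add] at h2
  rw [sub_zero] at h3
  have g1 := one_sub_pow_le (one_sub_mul_le (le_exp_sub h1) (le_exp_sub h2)) M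
  have g2 := one_sub_pow_le (le_exp_sub h3) a
  have g3 := one_sub_prod_le (f := fun i => psi b (u - w i))
    (fun i => le_exp_sub (one_sub_psi_le' h hu (hw.re i) (hw.im i))) univ
  have g4 := one_sub_mul_le (one_sub_mul_le g1 g2) g3
  unfold phiW Bk Psi prd
  refine g4.trans (le_of_eq ?_)
  rw [card_univ]
  congr 2
  ring

/-- constant of `phi_le` -/
def CK (b s : ℝ) (k : ℕ) : ℝ := Kp b s * (2 + k) * Real.exp (Kp b s * (2 + k)) + 2

theorem CK_pos {b s : ℝ} (h : Hyp b s) (k : ℕ) : 0 < CK b s k := by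
  have := Kp_pos h
  unfold CK
  positivity

theorem phiW_le {b s : ℝ} (h : Hyp b s) {u : ℂ} (hu : |u.re + l / 2| ≤ s) {w : ι → ℂ} (hw : Pts w)
    {M a : ℕ} (hMa : 1 ≤ M + a) (hM : 2 * Fintype.card ι * Kp b s ≤ c1 b s * (M + a : ℝ)) :
    ‖phiW b M a w u‖ ≤ CK b s (Fintype.card ι) * min 1 (yy b (M + a) u.im) := by
  have hK := Kp_pos h
  have hc := c1_pos h
  have hn : (1 : ℝ) ≤ M + a := by exact_mod_cast hMa
  set E := Real.exp (-(2 * b * |u.im|)) with hE
  have hE0 : 0 < E := Real.exp_pos _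
  have hy0 : 0 ≤ yy b (M + a) u.im := by unfold yy; positivity
  set k := Fintype.card ι
  rcases le_total (yy b (M + a) u.im) 1 with hy | hy
  · rw [min_eq_right hy]
    refine (phiW_le_exp h hu hw M a).trans ?_
    have e1 : Kp b s * ((2 * M + a + k) * E) ≤ Kp b s * (2 + k) * yy b (M + a) u.im := by
      have h2 : ((2 * M + a + k : ℝ)) ≤ (2 + k) * (M + a) := by
        have := Nat.cast_nonneg (α := ℝ) k
        have := Nat.cast_nonneg (α := ℝ) a
        nlinarith
      unfold yy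
      rw [← hE]
      have := mul_le_mul_of_nonneg_left (mul_le_mul_of_nonneg_right h2 hE0.le) hK.le
      linarith
    have e2 : Real.exp (Kp b s * ((2 * M + a + k) * E)) - 1 ≤
        Real.exp (Kp b s * (2 + k) * yy b (M + a) u.im) - 1 := by
      have := Real.exp_le_exp.2 e1
      linarith
    refine e2.trans ?_
    set z := Kp b s * (2 + k) * yy b (M + a) u.im with hz
    have hz0 : 0 ≤ z := by positivity
    have e3 : Real.exp z - 1 ≤ z * Real.exp z := by
      have h1 := Real.add_one_le_exp (-z)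
      have h2 := Real.exp_pos z
      have h3 : Real.exp (-z) * Real.exp z = 1 := by
        rw [← Real.exp_add, neg_add_cancel, Real.exp_zero]
      nlinarith
    have e4 : z ≤ Kp b s * (2 + k) := by
      rw [hz]
      exact mul_le_of_le_one_right (by positivity) hy
    have e5 : z * Real.exp z ≤ z * Real.exp (Kp b s * (2 + k)) :=
      mul_le_mul_of_nonneg_left (Real.exp_le_exp.2 e4) hz0
    have e6 : z * Real.exp (Kp b s * (2 + k)) =
        Kp b s * (2 + k) * Real.exp (Kp b s * (2 + k)) * yy b (M + a) u.im := by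
      rw [hz]; ring
    unfold CK
    nlinarith
  · rw [min_eq_left hy, mul_one]
    have h1 := Pi_le h hu hw hM
    have h2 : Real.exp (-(c1 b s / 2 * ((M + a : ℝ) * Real.exp (-(2 * b * |u.im|))))) ≤ 1 :=
      Real.exp_le_one_iff.2 (by have : 0 ≤ c1 b s / 2 * ((M + a : ℝ) * Real.exp (-(2 * b * |u.im|))) := by positivity
                                linarith)
    have h3 : ‖phiW b M a w u‖ ≤ 2 := by
      unfold phiW
      refine (norm_sub_le _ _).trans ?_
      rw [norm_one]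
      linarith
    refine h3.trans ?_
    unfold CK
    have : 0 ≤ Kp b s * (2 + k) * Real.exp (Kp b s * (2 + k)) := by positivity
    linarith

theorem phiW_ge_min {b s : ℝ} (h : Hyp b s) {u : ℂ} (hu : |u.re + l / 2| ≤ s) {w : ι → ℂ}
    (hw : Pts w) {M a : ℕ} (hM : 2 * Fintype.card ι * Kp b s ≤ c1 b s * (M + a : ℝ)) :
    min 1 (c1 b s / 2) / 2 * min 1 (yy b (M + a) u.im) ≤ ‖phiW b M a w u‖ := by
  have hc := c1_pos h
  have hy0 : 0 ≤ yy b (M + a) u.im := by unfold yy; positivity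
  refine le_trans ?_ (phiW_ge h hu hw hM)
  refine le_trans ?_ (one_sub_exp_ge (by positivity))
  have h1 : min 1 (c1 b s / 2) * min 1 (yy b (M + a) u.im) ≤
      min 1 (c1 b s / 2 * yy b (M + a) u.im) := by
    have hm0 : 0 < min 1 (c1 b s / 2) := lt_min one_pos (by positivity)
    refine le_min ?_ ?_
    · exact mul_le_one₀ (min_le_left _ _) (le_min zero_le_one hy0) (min_le_left _ _)
    · exact mul_le_mul (min_le_right _ _) (min_le_right _ _) (le_min zero_le_one hy0) (by positivity)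
  linarith


/-! ### derivative bounds at all heights -/

/-- constant of `psiD` -/
def Kd (b s : ℝ) : ℝ := 16 * b / kw b (s + l / 2) ^ 4 * Real.exp (4 * b)

theorem Kd_pos {b s : ℝ} (h : Hyp b s) : 0 < Kd b s := by
  have h1 := h.b1
  have h2 := h.wide.kpos
  unfold Kd
  positivity

theorem psiD_le' {b s : ℝ} (h : Hyp b s) {u w : ℂ} (hu : |u.re + l / 2| ≤ s)
    (hw : |w.re| ≤ l / 2) (hi : |w.im| ≤ 2) :
    ‖psiD b (u - w)‖ ≤ Kd b s * Real.exp (-(2 * b * |u.im|)) := by
  have h1 := psiD_le h.wide (re_pt h hu hw)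
  have hb := h.b1
  have hk := h.wide.kpos
  have h2 : Real.exp (-(2 * b * |(u - w).im|)) ≤ Real.exp (4 * b) * Real.exp (-(2 * b * |u.im|)) := by
    rw [← Real.exp_add]
    refine Real.exp_le_exp.2 ?_
    have h3 : |u.im| - |w.im| ≤ |(u - w).im| := by rw [sub_im]; exact abs_sub_abs_le_abs_sub _ _
    nlinarith
  have h0 : 0 ≤ 16 * b / kw b (s + l / 2) ^ 4 := by positivity
  refine h1.trans ((mul_le_mul_of_nonneg_left h2 h0).trans (le_of_eq ?_))
  unfold Kd
  ring

theorem E_le_one {b t : ℝ} (hb : 0 ≤ b) : Real.exp (-(2 * b * |t|)) ≤ 1 :=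
  Real.exp_le_one_iff.2 (by have := mul_nonneg (mul_nonneg two_pos.le hb) (abs_nonneg t); linarith)

theorem prod_le' {b s : ℝ} (h : Hyp b s) {u : ℂ} (hu : |u.re + l / 2| ≤ s) {w : ι → ℂ}
    (hw : Pts w) (S : Finset ι) :
    ‖∏ i ∈ S, psi b (u - w i)‖ ≤ Real.exp (Fintype.card ι * Kp b s) := by
  refine (prod_le h hu hw S).trans (Real.exp_le_exp.2 ?_)
  have hK := Kp_pos h
  have hE := E_le_one (b := b) (t := u.im) (by linarith [h.b1])
  exact mul_le_mul_of_nonneg_left (mul_le_of_le_one_right hK.le hE) (Nat.cast_nonneg _)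

theorem prd1_le {b s : ℝ} (h : Hyp b s) {u : ℂ} (hu : |u.re + l / 2| ≤ s) {w : ι → ℂ}
    (hw : Pts w) (a : ι → ℂ) {A : ℝ} (hA : ∀ i, ‖a i‖ ≤ A) :
    ‖prd1 b a w u‖ ≤ Fintype.card ι * (A * (Kd b s * Real.exp (-(2 * b * |u.im|))) *
      Real.exp (Fintype.card ι * Kp b s)) := by
  have hK := Kd_pos h
  unfold prd1
  refine (norm_sum_le _ _).trans ?_
  have hone : ∀ i ∈ (univ : Finset ι), ‖a i * psiD b (u - w i) * ∏ j ∈ univ.erase i, psi b (u - w j)‖ ≤
      A * (Kd b s * Real.exp (-(2 * b * |u.im|))) * Real.exp (Fintype.card ι * Kp b s) := by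
    intro i _
    have hA0 : 0 ≤ A := (norm_nonneg _).trans (hA i)
    rw [norm_mul, norm_mul]
    exact mul_le_mul (mul_le_mul (hA i) (psiD_le' h hu (hw.re i) (hw.im i)) (norm_nonneg _) hA0)
      (prod_le' h hu hw _) (norm_nonneg _) (by positivity)
  refine (Finset.sum_le_sum hone).trans (le_of_eq ?_)
  rw [Finset.sum_const, card_univ, nsmul_eq_mul]

theorem norm_psi_pow' {b s : ℝ} (h : Hyp b s) {u : ℂ} (hu : |u.re + l / 2| ≤ s) (M : ℕ) :
    ‖psi b u ^ M‖ ≤ Real.exp (-(c1 b s * (M * Real.exp (-(2 * b * |u.im|))))) := by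
  have h2 := norm_psi h.adm hu
  rw [neg_mul] at h2
  rw [norm_pow]
  refine (pow_le_pow_left₀ (norm_nonneg _) h2 M).trans (le_of_eq ?_)
  rw [← Real.exp_nat_mul]
  congr 1
  unfold c1
  ring

theorem norm_Psi_pow' {b s : ℝ} (h : Hyp b s) {u : ℂ} (hu : |u.re + l / 2| ≤ s) (M : ℕ) :
    ‖Psi b u ^ M‖ ≤ Real.exp (-(c1 b s * (M * Real.exp (-(2 * b * |u.im|))))) := by
  have h1 := norm_Psi_pow h.h2 h.adm hu M
  rw [neg_mul] at h1
  have hk := h.adm.kap_pos
  have hc := c2_pos h.h2 h.adm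
  have hc1 := cl_le_one b
  have he := Real.exp_pos (-(2 * b * |u.im|))
  refine h1.trans (Real.exp_le_exp.2 (neg_le_neg (mul_le_mul_of_nonneg_right ?_ (by positivity))))
  unfold c1
  nlinarith

theorem PsiD_le {b s : ℝ} (h : Hyp b s) {u : ℂ} (hu : |u.re + l / 2| ≤ s) :
    ‖PsiD b u‖ ≤ 2 * (Kd b s * Real.exp (Kp b s)) * Real.exp (-(2 * b * |u.im|)) := by
  have hl := l_pos
  have hp : |((l : ℂ) / 2).re| ≤ l / 2 := by
    rw [show ((l : ℂ) / 2).re = l / 2 by simp, abs_of_pos (by positivity)]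
  have hm : |(-((l : ℂ) / 2)).re| ≤ l / 2 := by
    rw [neg_re, abs_neg]; exact hp
  have ip : |((l : ℂ) / 2).im| ≤ 2 := by simp
  have im : |(-((l : ℂ) / 2)).im| ≤ 2 := by simp
  have hK := Kp_pos h
  have hE := E_le_one (b := b) (t := u.im) (by linarith [h.b1])
  have hx : Real.exp (Kp b s * Real.exp (-(2 * b * |u.im|))) ≤ Real.exp (Kp b s) :=
    Real.exp_le_exp.2 (mul_le_of_le_one_right hK.le hE)
  have a1 := psiD_le' h hu hp ip
  have a2 := psiD_le' h hu hm im
  have a3 := (psi_le h hu hp ip).trans hx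
  have a4 := (psi_le h hu hm im).trans hx
  rw [sub_neg_eq_add] at a2 a4
  unfold PsiD
  refine (norm_add_le _ _).trans ?_
  rw [norm_mul, norm_mul]
  have hKd := Kd_pos h
  have b1 := mul_le_mul a1 a4 (norm_nonneg _) (by positivity)
  have b2 := mul_le_mul a3 a2 (norm_nonneg _) (Real.exp_pos _).le
  linarith

/-- the derivative of the sea -/
theorem BkD_le {b s : ℝ} (h : Hyp b s) {u : ℂ} (hu : |u.re + l / 2| ≤ s) (M a : ℕ) :
    ‖BkD b M a u‖ ≤ (M + a : ℝ) * (2 * (Kd b s * Real.exp (Kp b s)) * Real.exp (c1 b s)) *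
      Real.exp (-(2 * b * |u.im|)) * Real.exp (-(c1 b s * yy b (M + a) u.im)) := by
  have hc := c1_pos h
  have hK := Kp_pos h
  have hKd := Kd_pos h
  have hE := E_le_one (b := b) (t := u.im) (by linarith [h.b1])
  set E := Real.exp (-(2 * b * |u.im|)) with hEd
  have hE0 : 0 < E := Real.exp_pos _
  have e1 : 1 ≤ Real.exp (Kp b s) := Real.one_le_exp hK.le
  have pr : ∀ k : ℕ, Real.exp (-(c1 b s * ((k - 1 : ℕ) * E))) ≤
      Real.exp (c1 b s) * Real.exp (-(c1 b s * (k * E))) := by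
    intro k
    rw [← Real.exp_add]
    refine Real.exp_le_exp.2 ?_
    rcases k with _ | k
    · simp; exact hc.le
    · rw [Nat.add_sub_cancel]
      push_cast
      nlinarith [mul_le_mul_of_nonneg_left hE hc.le]
  unfold BkD
  refine (norm_add_le _ _).trans ?_
  have t1 : ‖(M : ℂ) * Psi b u ^ (M - 1) * PsiD b u * psi b u ^ a‖ ≤
      M * (2 * (Kd b s * Real.exp (Kp b s)) * Real.exp (c1 b s)) * E *
        (Real.exp (-(c1 b s * (M * E))) * Real.exp (-(c1 b s * (a * E)))) := by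
    rw [norm_mul, norm_mul, norm_mul, Complex.norm_natCast]
    have g1 := (norm_Psi_pow' h hu (M - 1)).trans (pr M)
    have g2 := PsiD_le h hu
    have g3 := norm_psi_pow' h hu a
    have g4 := mul_le_mul (mul_le_mul g1 g2 (norm_nonneg _) (by positivity)) g3 (norm_nonneg _)
      (by positivity)
    have g5 := mul_le_mul_of_nonneg_left g4 (Nat.cast_nonneg (α := ℝ) M)
    refine le_trans (le_of_eq (by ring)) (g5.trans (le_of_eq (by ring)))
  have t2 : ‖Psi b u ^ M * (a * psi b u ^ (a - 1) * psiD b u)‖ ≤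
      a * (2 * (Kd b s * Real.exp (Kp b s)) * Real.exp (c1 b s)) * E *
        (Real.exp (-(c1 b s * (M * E))) * Real.exp (-(c1 b s * (a * E)))) := by
    rw [norm_mul, norm_mul, norm_mul, Complex.norm_natCast]
    have g1 := (norm_psi_pow' h hu (a - 1)).trans (pr a)
    have g2 : ‖psiD b u‖ ≤ 2 * (Kd b s * Real.exp (Kp b s)) * E := by
      have := psiD_le' h hu (w := 0) (by have := l_pos; simp; positivity) (by simp)
      rw [sub_zero] at this
      refine this.trans (mul_le_mul_of_nonneg_right ?_ hE0.le)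
      nlinarith
    have g3 := norm_Psi_pow' h hu M
    have g4 := mul_le_mul g3 (mul_le_mul g1 g2 (norm_nonneg _) (by positivity)) (by positivity)
      (by positivity)
    have g5 := mul_le_mul_of_nonneg_left g4 (Nat.cast_nonneg (α := ℝ) a)
    refine le_trans (le_of_eq (by ring)) (g5.trans (le_of_eq (by ring)))
  refine (add_le_add t1 t2).trans (le_of_eq ?_)
  have e2 : Real.exp (-(c1 b s * (M * E))) * Real.exp (-(c1 b s * (a * E))) =
      Real.exp (-(c1 b s * yy b (M + a) u.im)) := by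
    rw [← Real.exp_add]
    congr 1
    unfold yy
    rw [← hEd]
    ring
  rw [e2]
  ring

/-- constant of `Dph_crude` -/
def Cc (b s C0 : ℝ) (k : ℕ) : ℝ :=
  C0 * (k * (3 * (Kd b s * Real.exp (k * Kp b s))) +
    2 * (2 * (Kd b s * Real.exp (Kp b s)) * Real.exp (c1 b s)) * Real.exp (k * Kp b s))

/-- **crude bound**, no transport condition -/
theorem Dph_crude {b s : ℝ} (h : Hyp b s) {u : ℂ} (hu : |u.re + l / 2| ≤ s) {M a : ℕ}
    (hMa : 1 ≤ M + a) {w v : ι → ℂ} (hw : Pts w) {ξ : ℂ} {C0 : ℝ} (hv : ∀ i, ‖v i‖ ≤ C0)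
    (hC0 : 0 ≤ C0) (hξ : ‖ξ‖ ≤ 2 * C0 / (M + a)) :
    ‖Dph b M a w v ξ u‖ ≤ Cc b s C0 (Fintype.card ι) * Real.exp (-(2 * b * |u.im|)) *
      Real.exp (-(c1 b s * yy b (M + a) u.im)) := by
  have hc := c1_pos h
  have hK := Kp_pos h
  have hKd := Kd_pos h
  have hn : (1 : ℝ) ≤ M + a := by exact_mod_cast hMa
  have hn0 : (0 : ℝ) < M + a := by linarith
  have hξ1 : ‖ξ‖ ≤ 2 * C0 := hξ.trans (div_le_self (by linarith) hn)
  have hA : ∀ i, ‖v i - I * ξ‖ ≤ 3 * C0 := fun i => by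
    refine (norm_sub_le _ _).trans ?_
    rw [norm_mul, Complex.norm_I, one_mul]
    linarith [hv i]
  have r1 := prd1_le h hu hw (fun i => v i - I * ξ) hA
  have r2 := BkD_le h hu M a
  have r3 := Bk_le h hu M a
  have r4 := prod_le' h hu hw univ
  set E := Real.exp (-(2 * b * |u.im|)) with hEd
  have hE0 : 0 < E := Real.exp_pos _
  have e0 : Real.exp (-(c1 b s * ((M + a : ℝ) * E))) = Real.exp (-(c1 b s * yy b (M + a) u.im)) := by
    unfold yy; rw [← hEd]
  rw [e0] at r3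
  set Y := Real.exp (-(c1 b s * yy b (M + a) u.im)) with hY
  have hY0 : 0 < Y := Real.exp_pos _
  set k := Fintype.card ι with hk
  unfold Dph
  refine (norm_sub_le _ _).trans ?_
  have t1 : ‖Bk b M a u * prd1 b (fun i => v i - I * ξ) w u‖ ≤
      Y * (k * (3 * C0 * (Kd b s * E) * Real.exp (k * Kp b s))) := by
    rw [norm_mul]
    exact mul_le_mul r3 r1 (norm_nonneg _) hY0.le
  have t2 : ‖I * ξ * BkD b M a u * prd b w u‖ ≤
      2 * C0 * ((2 * (Kd b s * Real.exp (Kp b s)) * Real.exp (c1 b s)) * E * Y) *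
        Real.exp (k * Kp b s) := by
    rw [norm_mul, norm_mul, norm_mul, Complex.norm_I, one_mul]
    have g1 : ‖ξ‖ * ‖BkD b M a u‖ ≤ 2 * C0 / (M + a) *
        ((M + a : ℝ) * (2 * (Kd b s * Real.exp (Kp b s)) * Real.exp (c1 b s)) * E * Y) :=
      mul_le_mul hξ r2 (norm_nonneg _) (by positivity)
    have g2 : 2 * C0 / (M + a : ℝ) *
        ((M + a : ℝ) * (2 * (Kd b s * Real.exp (Kp b s)) * Real.exp (c1 b s)) * E * Y) =
        2 * C0 * ((2 * (Kd b s * Real.exp (Kp b s)) * Real.exp (c1 b s)) * E * Y) := by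
      field_simp
    rw [g2] at g1
    exact mul_le_mul g1 r4 (norm_nonneg _) (by positivity)
  refine (add_le_add t1 t2).trans (le_of_eq ?_)
  unfold Cc
  ring

/-! ### the far end theorem -/

/-- constant of `FAR` -/
def CF (b s C0 : ℝ) (k : ℕ) : ℝ :=
  6 * (2 / c1 b s) ^ 3 * (C0 * (11 * (2 + k * Real.exp (4 * b)) + 200 * Real.exp (12 * b) *
    k * 3 + 800) + Cc b s C0 k * Real.exp (18 * b))

theorem FAR {b s : ℝ} (h : Hyp b s) {u : ℂ} (hu : |u.re + l / 2| ≤ s) {M a : ℕ}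
    (hMa : 1 ≤ M + a) {w v : ι → ℂ} {ξ ξe : ℝ → ℂ} {C0 δ : ℝ} (T : Tr b M a w v ξ ξe C0 δ)
    (hM : 2 * Fintype.card ι * Kp b s ≤ c1 b s * (M + a : ℝ)) :
    ‖Dph b M a w v (ξ u.im) u‖ ≤
      (CF b s C0 (Fintype.card ι) / (M + a : ℝ) ^ 3 + 22 / c1 b s * δ / (M + a : ℝ)) *
        ‖phiW b M a w u‖ := by
  have hδ : 0 ≤ δ := (norm_nonneg _).trans (T.cond 1 (Or.inl rfl))
  have hb := h.b1
  have hc := c1_pos h
  have hKd := Kd_pos h
  have hn : (1 : ℝ) ≤ M + a := by exact_mod_cast hMa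
  have hn0 : (0 : ℝ) < M + a := by linarith
  have hC0 : 0 ≤ C0 := by
    have := (norm_nonneg _).trans (T.lim 1 (Or.inl rfl))
    rw [le_div_iff₀ hn0, zero_mul] at this
    exact this
  set k := Fintype.card ι with hk
  set E := Real.exp (-(2 * b * |u.im|)) with hEd
  have hE0 : 0 < E := Real.exp_pos _
  set y := yy b (M + a) u.im with hy
  have hyE : y = (M + a : ℝ) * E := by rw [hy, hEd]; rfl
  have hy0 : 0 ≤ y := by rw [hyE]; positivity
  have hE3 : E ^ 3 = y ^ 3 / (M + a : ℝ) ^ 3 := by rw [hyE]; field_simp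
  set C1 := C0 * (11 * (2 + k * Real.exp (4 * b)) + 200 * Real.exp (12 * b) * k * 3 + 800) with hC1
  have hC1' : 0 ≤ C1 := by positivity
  set C2 := Cc b s C0 k with hC2
  have hC2' : 0 ≤ C2 := by rw [hC2]; unfold Cc; have := Kp_pos h; positivity
  have hx : 0 ≤ c1 b s / 2 * y := by positivity
  -- the common form
  have main : ‖Dph b M a w v (ξ u.im) u‖ ≤
      (C1 + C2 * Real.exp (18 * b)) * (y ^ 3 / (M + a : ℝ) ^ 3 * Real.exp (-(c1 b s / 2 * y))) +
        11 * δ / (M + a : ℝ) * (y * Real.exp (-(c1 b s / 2 * y))) := by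
    rcases le_total 3 |u.im| with ht | ht
    · -- far
      obtain ⟨σ, hσ, hσu⟩ : ∃ σ : ℝ, (σ = 1 ∨ σ = -1) ∧ σ * u.im = |u.im| := by
        rcases le_total 0 u.im with h0 | h0
        · exact ⟨1, Or.inl rfl, by rw [one_mul, abs_of_nonneg h0]⟩
        · exact ⟨-1, Or.inr rfl, by rw [abs_of_nonpos h0]; ring⟩
      have h1 := Dph_far h hu hσ (by rw [hσu]; exact ht) hMa T
      rw [hσu, ← hk, ← hC1] at h1
      have h2 := Pi_le h hu T.pts hM
      have e1 : Real.exp (-(6 * b * |u.im|)) = E ^ 3 := by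
        rw [hEd, ← Real.exp_nat_mul]; congr 1; push_cast; ring
      have e2 : c1 b s / 2 * ((M + a : ℝ) * Real.exp (-(2 * b * |u.im|))) = c1 b s / 2 * y := by
        rw [hyE]
      rw [e2] at h2
      rw [e1] at h1
      rw [← hEd] at h1
      refine h1.trans ((mul_le_mul_of_nonneg_left h2 (by positivity)).trans ?_)
      rw [← hE3]
      have : 0 ≤ C2 * Real.exp (18 * b) * (E ^ 3 * Real.exp (-(c1 b s / 2 * y))) := by positivity
      have e3 : 11 * δ / (M + a : ℝ) * (y * Real.exp (-(c1 b s / 2 * y))) =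
          11 * δ * E * Real.exp (-(c1 b s / 2 * y)) := by rw [hyE]; field_simp
      rw [e3]
      linarith
    · -- near
      have hξ : ‖ξ u.im‖ ≤ 2 * C0 / (M + a) := by
        obtain ⟨σ, hσ, hσu⟩ : ∃ σ : ℝ, (σ = 1 ∨ σ = -1) ∧ 0 ≤ σ * u.im := by
          rcases le_total 0 u.im with h0 | h0
          · exact ⟨1, Or.inl rfl, by rw [one_mul]; exact h0⟩
          · exact ⟨-1, Or.inr rfl, by linarith⟩
        have hl := T.lim σ hσ
        have hd := T.dec σ hσ u.im hσu
        have e1 : Real.exp (-(16 / 3 * (σ * u.im))) ≤ 1 := Real.exp_le_one_iff.2 (by linarith)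
        have e2 : ‖ξ u.im‖ ≤ ‖ξ u.im - ξe σ‖ + ‖ξe σ‖ := by
          have := norm_add_le (ξ u.im - ξe σ) (ξe σ)
          rwa [sub_add_cancel] at this
        have e3 : C0 / (M + a : ℝ) * Real.exp (-(16 / 3 * (σ * u.im))) ≤ C0 / (M + a) * 1 :=
          mul_le_mul_of_nonneg_left e1 (by positivity)
        have e4 : 2 * C0 / (M + a : ℝ) = C0 / (M + a) * 1 + C0 / (M + a) := by ring
        linarith
      have h1 := Dph_crude h hu hMa T.pts T.vel hC0 hξ
      rw [← hEd, ← hy, ← hk, ← hC2] at h1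
      have e1 : Real.exp (-(6 * b)) ≤ E := by
        rw [hEd]
        refine Real.exp_le_exp.2 ?_
        nlinarith
      have hE1 : E ≤ 1 := E_le_one (by linarith)
      have e2 : E ≤ Real.exp (18 * b) * E ^ 3 := by
        have g1 : 1 ≤ Real.exp (6 * b) * E := by
          have := mul_le_mul_of_nonneg_left e1 (Real.exp_pos (6 * b)).le
          rwa [← Real.exp_add, add_neg_cancel, Real.exp_zero] at this
        have g2 : Real.exp (18 * b) = Real.exp (6 * b) ^ 3 := by
          rw [← Real.exp_nat_mul]; congr 1; push_cast; ring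
        have g3 : (1 : ℝ) ≤ (Real.exp (6 * b) * E) ^ 3 := one_le_pow₀ g1
        rw [g2, ← mul_pow]
        linarith
      have e3 : Real.exp (-(c1 b s * y)) ≤ Real.exp (-(c1 b s / 2 * y)) :=
        Real.exp_le_exp.2 (by nlinarith [mul_nonneg hc.le hy0])
      refine h1.trans ?_
      rw [← hE3]
      calc C2 * E * Real.exp (-(c1 b s * y)) ≤
          C2 * (Real.exp (18 * b) * E ^ 3) * Real.exp (-(c1 b s / 2 * y)) :=
            mul_le_mul (mul_le_mul_of_nonneg_left e2 hC2') e3 (Real.exp_pos _).le (by positivity)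
        _ ≤ (C1 + C2 * Real.exp (18 * b)) * (E ^ 3 * Real.exp (-(c1 b s / 2 * y))) +
            11 * δ / (M + a : ℝ) * (y * Real.exp (-(c1 b s / 2 * y))) := by
            have : 0 ≤ C1 * (E ^ 3 * Real.exp (-(c1 b s / 2 * y))) := by positivity
            have : 0 ≤ 11 * δ / (M + a : ℝ) * (y * Real.exp (-(c1 b s / 2 * y))) := by positivity
            linarith
  have hg := phiW_ge h hu T.pts hM
  rw [← hy] at hg
  have hcube := cube_exp hx
  have e4 : y ^ 3 * Real.exp (-(c1 b s / 2 * y)) ≤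
      (2 / c1 b s) ^ 3 * (6 * ‖phiW b M a w u‖) := by
    have e5 : y ^ 3 = (2 / c1 b s) ^ 3 * (c1 b s / 2 * y) ^ 3 := by field_simp
    rw [e5, mul_assoc]
    exact mul_le_mul_of_nonneg_left (hcube.trans (by linarith)) (by positivity)
  have e7 : y * Real.exp (-(c1 b s / 2 * y)) ≤ 2 / c1 b s * ‖phiW b M a w u‖ := by
    have f1 : c1 b s / 2 * y * Real.exp (-(c1 b s / 2 * y)) ≤ 1 - Real.exp (-(c1 b s / 2 * y)) := by
      have := Real.add_one_le_exp (c1 b s / 2 * y)
      have h2 := Real.exp_pos (-(c1 b s / 2 * y))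
      have h3 : Real.exp (c1 b s / 2 * y) * Real.exp (-(c1 b s / 2 * y)) = 1 := by
        rw [← Real.exp_add, add_neg_cancel, Real.exp_zero]
      nlinarith [mul_le_mul_of_nonneg_right this h2.le]
    have f2 : y * Real.exp (-(c1 b s / 2 * y)) =
        2 / c1 b s * (c1 b s / 2 * y * Real.exp (-(c1 b s / 2 * y))) := by field_simp
    rw [f2]
    exact mul_le_mul_of_nonneg_left (f1.trans hg) (by positivity)
  refine main.trans ?_
  have e6 : (CF b s C0 k / (M + a : ℝ) ^ 3 + 22 / c1 b s * δ / (M + a : ℝ)) * ‖phiW b M a w u‖ =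
      (C1 + C2 * Real.exp (18 * b)) * ((2 / c1 b s) ^ 3 * (6 * ‖phiW b M a w u‖) / (M + a : ℝ) ^ 3) +
        11 * δ / (M + a : ℝ) * (2 / c1 b s * ‖phiW b M a w u‖) := by
    unfold CF
    ring
  rw [e6]
  refine add_le_add (mul_le_mul_of_nonneg_left ?_ (by positivity))
    (mul_le_mul_of_nonneg_left e7 (by positivity))
  rw [div_mul_eq_mul_div]
  exact div_le_div_of_nonneg_right e4 (by positivity)

/-- without the transport condition: one power of `n` only -/
theorem FAR0 {b s : ℝ} (h : Hyp b s) {u : ℂ} (hu : |u.re + l / 2| ≤ s) {M a : ℕ}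
    (hMa : 1 ≤ M + a) {w v : ι → ℂ} (hw : Pts w) {ξ : ℂ} {C0 : ℝ} (hv : ∀ i, ‖v i‖ ≤ C0)
    (hC0 : 0 ≤ C0) (hξ : ‖ξ‖ ≤ 2 * C0 / (M + a))
    (hM : 2 * Fintype.card ι * Kp b s ≤ c1 b s * (M + a : ℝ)) :
    ‖Dph b M a w v ξ u‖ ≤
      Cc b s C0 (Fintype.card ι) * (2 / c1 b s) / (M + a : ℝ) * ‖phiW b M a w u‖ := by
  have hc := c1_pos h
  have hKd := Kd_pos h
  have hK := Kp_pos h
  have hn : (1 : ℝ) ≤ M + a := by exact_mod_cast hMa
  have hn0 : (0 : ℝ) < M + a := by linarith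
  have h1 := Dph_crude h hu hMa hw hv hC0 hξ
  have hg := phiW_ge h hu hw hM
  have hCc : 0 ≤ Cc b s C0 (Fintype.card ι) := by unfold Cc; positivity
  set y := yy b (M + a) u.im with hy
  have hyE : y = (M + a : ℝ) * Real.exp (-(2 * b * |u.im|)) := by rw [hy]; rfl
  have hy0 : 0 ≤ y := by rw [hyE]; positivity
  have hE : Real.exp (-(2 * b * |u.im|)) = y / (M + a) := by rw [hyE]; field_simp
  -- `y e^{-c y} ≤ (2 / c) (1 - e^{-c y / 2})`
  have key : y * Real.exp (-(c1 b s * y)) ≤ 2 / c1 b s * (1 - Real.exp (-(c1 b s / 2 * y))) := by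
    set x := c1 b s / 2 * y with hx
    have hx0 : 0 ≤ x := by positivity
    have e1 : Real.exp (-(c1 b s * y)) = Real.exp (-x) * Real.exp (-x) := by
      rw [← Real.exp_add]; congr 1; rw [hx]; ring
    have e2 : y = 2 / c1 b s * x := by rw [hx]; field_simp
    have e3 : x * Real.exp (-x) ≤ 1 - Real.exp (-x) := by
      have := Real.add_one_le_exp x
      have h2 := Real.exp_pos (-x)
      have h3 : Real.exp x * Real.exp (-x) = 1 := by
        rw [← Real.exp_add, add_neg_cancel, Real.exp_zero]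
      nlinarith [mul_le_mul_of_nonneg_right this h2.le]
    have h2 : Real.exp (-x) ≤ 1 := Real.exp_le_one_iff.2 (by linarith)
    have h3 := Real.exp_pos (-x)
    have e4 : x * Real.exp (-x) * Real.exp (-x) ≤ 1 - Real.exp (-x) := by
      have : x * Real.exp (-x) * Real.exp (-x) ≤ x * Real.exp (-x) * 1 :=
        mul_le_mul_of_nonneg_left h2 (by positivity)
      linarith
    rw [e1]
    have e5 : y * (Real.exp (-x) * Real.exp (-x)) = 2 / c1 b s * (x * Real.exp (-x) * Real.exp (-x)) := by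
      rw [e2]; ring
    rw [e5]
    exact mul_le_mul_of_nonneg_left e4 (by positivity)
  refine h1.trans ?_
  rw [hE]
  have e6 : Cc b s C0 (Fintype.card ι) * (y / (M + a : ℝ)) * Real.exp (-(c1 b s * y)) =
      Cc b s C0 (Fintype.card ι) / (M + a : ℝ) * (y * Real.exp (-(c1 b s * y))) := by ring
  rw [e6]
  have e7 : Cc b s C0 (Fintype.card ι) * (2 / c1 b s) / (M + a : ℝ) * ‖phiW b M a w u‖ =
      Cc b s C0 (Fintype.card ι) / (M + a : ℝ) * (2 / c1 b s * ‖phiW b M a w u‖) := by ring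
  rw [e7]
  refine mul_le_mul_of_nonneg_left (key.trans ?_) (by positivity)
  exact mul_le_mul_of_nonneg_left hg (by positivity)

end

end PBFar

end
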