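import Pool.Agent.PB.Far2

/-!
# Plan B, far end: derivative along a path, the velocities of the two extra points, lists

* `hasDerivAt_phiW` : `Dph` is the derivative of `phiW` when the points `w i` move with velocities
  `v i` and `u` moves with velocity `I ξ` (height with velocity `ξ`);
* `vE` : velocities of the extra points `I`, `-I`; `tr_ext` : with them the transport condition `Tr`
  holds for every `b`;
* `phi_list` : `phiW` is `NUP1.phi b W`;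
* `far_rows0` : rows `x :: 0 ^ a` and the moving points `I`, `-I`.
-/

set_option autoImplicit false
set_option linter.unusedSectionVars false

open Complex Finset

noncomputable section

namespace PBFar

open NUP1 NURow

section
variable {ι : Type*} [Fintype ι] [DecidableEq ι]

/-! ### derivative along a path -/

theorem hasDerivAt_prd {b : ℝ} {w : ℝ → ι → ℂ} {v : ι → ℂ} {u : ℝ → ℂ} {u' : ℂ} {τ : ℝ}
    (hw : ∀ i, HasDerivAt (fun τ => w τ i) (v i) τ) (hu : HasDerivAt u u' τ)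
    (hd : ∀ i, cos (th b (u τ - w τ i)) + cos (b * l) ≠ 0) :
    HasDerivAt (fun τ => prd b (w τ) (u τ)) (prd1 b (fun i => u' - v i) (w τ) (u τ)) τ := by
  have h1 : ∀ i ∈ (univ : Finset ι), HasDerivAt (fun τ => psi b (u τ - w τ i))
      (psiD b (u τ - w τ i) * (u' - v i)) τ := fun i _ =>
    (hasDerivAt_psi (hd i)).comp_of_eq τ (hu.sub (hw i)) rfl
  have h2 := HasDerivAt.fun_finsetProd h1
  unfold prd
  refine h2.congr_deriv ?_
  unfold prd1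
  refine Finset.sum_congr rfl fun i _ => ?_
  rw [smul_eq_mul]
  ring

theorem hasDerivAt_Psi' {b : ℝ} {u : ℂ} (h1 : cos (th b (u - l / 2)) + cos (b * l) ≠ 0)
    (h2 : cos (th b (u + l / 2)) + cos (b * l) ≠ 0) : HasDerivAt (Psi b) (PsiD b u) u := by
  have e : Psi b = fun u => psi b (u - l / 2) * psi b (u + l / 2) := rfl
  rw [e]
  have a1 := (hasDerivAt_psi h1).comp u ((hasDerivAt_id u).sub_const ((l : ℂ) / 2))
  have a2 := (hasDerivAt_psi h2).comp u ((hasDerivAt_id u).add_const ((l : ℂ) / 2))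
  refine (a1.mul a2).congr_deriv ?_
  unfold PsiD
  simp

theorem hasDerivAt_Bk {b : ℝ} {u : ℂ} (h1 : cos (th b (u - l / 2)) + cos (b * l) ≠ 0)
    (h2 : cos (th b (u + l / 2)) + cos (b * l) ≠ 0) (h3 : cos (th b u) + cos (b * l) ≠ 0)
    (M a : ℕ) : HasDerivAt (Bk b M a) (BkD b M a u) u := by
  have e : Bk b M a = fun u => Psi b u ^ M * psi b u ^ a := rfl
  rw [e]
  refine (((hasDerivAt_Psi' h1 h2).fun_pow M).mul ((hasDerivAt_psi h3).fun_pow a)).congr_deriv ?_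
  unfold BkD
  ring

/-- **`Dph` is the derivative along the motion** -/
theorem hasDerivAt_phiW {b s : ℝ} (h : Hyp b s) {M a : ℕ} {w : ℝ → ι → ℂ} {v : ι → ℂ} {u : ℝ → ℂ}
    {ξ : ℂ} {τ : ℝ} (hw : ∀ i, HasDerivAt (fun τ => w τ i) (v i) τ)
    (hu : HasDerivAt u (I * ξ) τ) (hs : |(u τ).re + l / 2| ≤ s) (hp : ∀ i, |(w τ i).re| ≤ l / 2) :
    HasDerivAt (fun τ => phiW b M a (w τ) (u τ)) (Dph b M a (w τ) v ξ (u τ)) τ := by
  have hl := l_pos
  have hpp : |((l : ℂ) / 2).re| ≤ l / 2 := by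
    rw [show ((l : ℂ) / 2).re = l / 2 by simp, abs_of_pos (by positivity)]
  have hmm : |(-((l : ℂ) / 2)).re| ≤ l / 2 := by
    rw [neg_re, abs_neg]; exact hpp
  have d1 := den_ne' h.wide (re_pt h hs hpp)
  have d2 := den_ne' h.wide (re_pt h hs hmm)
  rw [sub_neg_eq_add] at d2
  have d3 := den_ne' h.wide (z := u τ) (hs.trans (by linarith))
  have h1 := hasDerivAt_prd (b := b) hw hu fun i => den_ne' h.wide (re_pt h hs (hp i))
  have h2 := (hasDerivAt_Bk d1 d2 d3 M a).comp_of_eq τ hu rfl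
  have h3 := (h2.mul h1).const_sub 1
  unfold phiW
  refine h3.congr_deriv ?_
  unfold Dph
  have e : prd1 b (fun i => I * ξ - v i) (w τ) (u τ) = -prd1 b (fun i => v i - I * ξ) (w τ) (u τ) := by
    unfold prd1
    rw [← Finset.sum_neg_distrib]
    refine Finset.sum_congr rfl fun i _ => ?_
    ring
  have e2 : (Bk b M a ∘ u) τ = Bk b M a (u τ) := rfl
  rw [e, e2]
  ring

theorem prd1_add (b : ℝ) (a a' w : ι → ℂ) (u : ℂ) :
    prd1 b (fun i => a i + a' i) w u = prd1 b a w u + prd1 b a' w u := by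
  unfold prd1
  rw [← Finset.sum_add_distrib]
  refine Finset.sum_congr rfl fun i _ => ?_
  ring

theorem prd1_smul (b : ℝ) (c : ℂ) (a w : ι → ℂ) (u : ℂ) :
    prd1 b (fun i => c * a i) w u = c * prd1 b a w u := by
  unfold prd1
  rw [Finset.mul_sum]
  refine Finset.sum_congr rfl fun i _ => ?_
  ring

/-- `Dph = ∂_η + ξ ∂_t` -/
theorem Dph_lin (b : ℝ) (M a : ℕ) (w v : ι → ℂ) (ξ u : ℂ) :
    Dph b M a w v ξ u = Dph b M a w v 0 u + ξ * Dph b M a w (fun _ => 0) 1 u := by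
  have e1 : prd1 b (fun i => v i - I * ξ) w u = prd1 b v w u + ξ * prd1 b (fun _ => -I) w u := by
    rw [← prd1_smul, ← prd1_add]
    congr 1
    funext i
    ring
  unfold Dph
  simp only [mul_zero, sub_zero, zero_mul, mul_one, zero_sub]
  rw [e1]
  ring

/-! ### the velocities of the extra points -/

theorem Ep_I {σ : ℝ} (b : ℝ) : Ep σ b I = exp (2 * b * σ) := by
  unfold Ep
  congr 1
  linear_combination (-(2 * b * σ : ℂ)) * I_mul_I

theorem Ep_nI {σ : ℝ} (b : ℝ) : Ep σ b (-I) = exp (-(2 * b * σ)) := by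
  unfold Ep
  congr 1
  linear_combination (2 * b * σ : ℂ) * I_mul_I

/-- right hand side of the equation for the velocities of the extra points -/
def RE (b : ℝ) (M a : ℕ) (w v : ι → ℂ) (ξe : ℝ → ℂ) (σ : ℝ) : ℂ :=
  I * ξe σ * (2 * M * cos (b * l) + a + (∑ i, Ep σ b (w i) + (exp (2 * b) + exp (-(2 * b))))) -
    ∑ i, v i * Ep σ b (w i)

/-- **velocities of the extra points `I`, `-I`** -/
def vE (b : ℝ) (M a : ℕ) (w v : ι → ℂ) (ξe : ℝ → ℂ) : Fin 2 → ℂ :=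
  ![(exp (2 * b) * RE b M a w v ξe 1 - exp (-(2 * b)) * RE b M a w v ξe (-1)) /
      (exp (4 * b) - exp (-(4 * b))),
    (exp (2 * b) * RE b M a w v ξe (-1) - exp (-(2 * b)) * RE b M a w v ξe 1) /
      (exp (4 * b) - exp (-(4 * b)))]

/-- the extra points -/
def wE : Fin 2 → ℂ := ![I, -I]

theorem det_ge {b : ℝ} (hb : 1 ≤ b) : 1 ≤ Real.exp (4 * b) - Real.exp (-(4 * b)) := by
  have h1 : 4 * b + 1 ≤ Real.exp (4 * b) := Real.add_one_le_exp _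
  have h2 : Real.exp (-(4 * b)) ≤ 1 := Real.exp_le_one_iff.2 (by linarith)
  linarith

theorem det_eq (b : ℝ) : (exp (4 * b) - exp (-(4 * b)) : ℂ) =
    ((Real.exp (4 * b) - Real.exp (-(4 * b)) : ℝ) : ℂ) := by push_cast; rfl

theorem det_ne {b : ℝ} (hb : 1 ≤ b) : (exp (4 * b) - exp (-(4 * b)) : ℂ) ≠ 0 := by
  rw [det_eq]
  exact ofReal_ne_zero.2 (by linarith [det_ge hb])

theorem vE_cond {b : ℝ} (hb : 1 ≤ b) (M a : ℕ) (w v : ι → ℂ) (ξe : ℝ → ℂ) {σ : ℝ}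
    (hσ : σ = 1 ∨ σ = -1) : ∑ i, vE b M a w v ξe i * Ep σ b (wE i) = RE b M a w v ξe σ := by
  have hd := det_ne hb
  have e4 : (exp (4 * b) : ℂ) = exp (2 * b) * exp (2 * b) := by
    rw [← Complex.exp_add]; congr 1; ring
  have e4' : (exp (-(4 * b)) : ℂ) = exp (-(2 * b)) * exp (-(2 * b)) := by
    rw [← Complex.exp_add]; congr 1; ring
  unfold vE wE
  rw [Fin.sum_univ_two]
  simp only [Matrix.cons_val_zero, Matrix.cons_val_one]
  rw [Ep_I, Ep_nI]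
  rcases hσ with rfl | rfl
  · simp only [ofReal_one, mul_one]
    rw [div_mul_eq_mul_div, div_mul_eq_mul_div, ← add_div, div_eq_iff hd, e4, e4']
    ring
  · simp only [ofReal_neg, ofReal_one, mul_neg, mul_one, neg_neg]
    rw [div_mul_eq_mul_div, div_mul_eq_mul_div, ← add_div, div_eq_iff hd, e4, e4']
    ring

/-- constant of `norm_RE_le` -/
def CR (b C0 : ℝ) (k : ℕ) : ℝ := C0 * (2 + (k + 2) * Real.exp (4 * b)) + k * (C0 * Real.exp (4 * b))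

theorem norm_RE_le {b : ℝ} (hb : 1 ≤ b) {M a : ℕ} (hMa : 1 ≤ M + a) {w v : ι → ℂ} (hw : Pts w)
    {C0 : ℝ} (hv : ∀ i, ‖v i‖ ≤ C0) {ξe : ℝ → ℂ} {σ : ℝ} (hσ : σ = 1 ∨ σ = -1)
    (hξ : ‖ξe σ‖ ≤ C0 / (M + a)) : ‖RE b M a w v ξe σ‖ ≤ CR b C0 (Fintype.card ι) := by
  have hn : (1 : ℝ) ≤ M + a := by exact_mod_cast hMa
  have hn0 : (0 : ℝ) < M + a := by linarith
  have hC0 : 0 ≤ C0 := by
    have := (norm_nonneg _).trans hξ
    rw [le_div_iff₀ hn0, zero_mul] at this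
    exact this
  have h4 : Real.exp (2 * b) ≤ Real.exp (4 * b) := Real.exp_le_exp.2 (by linarith)
  have h4' : Real.exp (-(2 * b)) ≤ Real.exp (4 * b) := Real.exp_le_exp.2 (by linarith)
  have h1e : (1 : ℝ) ≤ Real.exp (4 * b) := Real.one_le_exp (by linarith)
  have n2 : ‖(exp (2 * b) : ℂ)‖ = Real.exp (2 * b) := by rw [Complex.norm_exp]; simp
  have n2' : ‖(exp (-(2 * b)) : ℂ)‖ = Real.exp (-(2 * b)) := by rw [Complex.norm_exp]; simp
  set k := Fintype.card ι with hk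
  have e1 : ‖(2 * M * cos (b * l) : ℂ)‖ ≤ 2 * M := by
    rw [norm_mul, norm_mul, Complex.norm_two, Complex.norm_natCast]
    have := norm_cos_bl b
    have hM0 : (0 : ℝ) ≤ M := Nat.cast_nonneg M
    nlinarith
  have e2 : ‖∑ i, Ep σ b (w i)‖ ≤ k * Real.exp (4 * b) := by
    refine (norm_sum_le _ _).trans ((Finset.sum_le_sum fun i _ =>
      norm_Ep (by linarith) hσ (hw.im i)).trans (le_of_eq ?_))
    rw [Finset.sum_const, card_univ, nsmul_eq_mul]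
  have e3 : ‖(a : ℂ)‖ = a := Complex.norm_natCast a
  have e4 : ‖(2 * M * cos (b * l) + a + (∑ i, Ep σ b (w i) + (exp (2 * b) + exp (-(2 * b)))) : ℂ)‖ ≤
      2 * M + a + (k * Real.exp (4 * b) + (Real.exp (4 * b) + Real.exp (4 * b))) := by
    refine (norm_add_le _ _).trans (add_le_add ((norm_add_le _ _).trans (add_le_add e1 e3.le))
      ((norm_add_le _ _).trans (add_le_add e2 ((norm_add_le _ _).trans ?_))))
    rw [n2, n2']
    exact add_le_add h4 h4'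
  have e5 : ‖∑ i, v i * Ep σ b (w i)‖ ≤ k * (C0 * Real.exp (4 * b)) := by
    refine (norm_sum_le _ _).trans ((Finset.sum_le_sum (g := fun _ => C0 * Real.exp (4 * b))
      fun i _ => ?_).trans (le_of_eq ?_))
    · rw [norm_mul]
      exact mul_le_mul (hv i) (norm_Ep (by linarith) hσ (hw.im i)) (norm_nonneg _) hC0
    · rw [Finset.sum_const, card_univ, nsmul_eq_mul]
  have hk0 : (0 : ℝ) ≤ k := Nat.cast_nonneg k
  have ha0 : (0 : ℝ) ≤ a := Nat.cast_nonneg a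
  unfold RE
  refine (norm_sub_le _ _).trans ?_
  have e6 : ‖I * ξe σ * (2 * M * cos (b * l) + a + (∑ i, Ep σ b (w i) + (exp (2 * b) + exp (-(2 * b)))) : ℂ)‖ ≤
      C0 * (2 + (k + 2) * Real.exp (4 * b)) := by
    rw [norm_mul, norm_mul, Complex.norm_I, one_mul]
    refine (mul_le_mul hξ e4 (norm_nonneg _) (by positivity)).trans ?_
    have e7 : 2 * M + a + (k * Real.exp (4 * b) + (Real.exp (4 * b) + Real.exp (4 * b))) ≤
        (M + a : ℝ) * (2 + (k + 2) * Real.exp (4 * b)) := by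
      have : 0 ≤ (k + 2) * Real.exp (4 * b) := by positivity
      nlinarith
    have e8 := mul_le_mul_of_nonneg_left e7 (by positivity : 0 ≤ C0 / (M + a : ℝ))
    refine e8.trans (le_of_eq ?_)
    field_simp
  unfold CR
  exact add_le_add e6 e5

theorem norm_vE_le {b : ℝ} (hb : 1 ≤ b) {M a : ℕ} (hMa : 1 ≤ M + a) {w v : ι → ℂ} (hw : Pts w)
    {C0 : ℝ} (hv : ∀ i, ‖v i‖ ≤ C0) {ξe : ℝ → ℂ}
    (hξ : ∀ σ : ℝ, (σ = 1 ∨ σ = -1) → ‖ξe σ‖ ≤ C0 / (M + a)) (i : Fin 2) :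
    ‖vE b M a w v ξe i‖ ≤ 2 * Real.exp (2 * b) * CR b C0 (Fintype.card ι) := by
  have h1 := norm_RE_le hb hMa hw hv (Or.inl rfl) (hξ 1 (Or.inl rfl))
  have h2 := norm_RE_le hb hMa hw hv (Or.inr rfl) (hξ (-1) (Or.inr rfl))
  set R1 := RE b M a w v ξe 1
  set R2 := RE b M a w v ξe (-1)
  set CC := CR b C0 (Fintype.card ι)
  have n2 : ‖(exp (2 * b) : ℂ)‖ = Real.exp (2 * b) := by rw [Complex.norm_exp]; simp
  have n2' : ‖(exp (-(2 * b)) : ℂ)‖ ≤ Real.exp (2 * b) := by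
    rw [Complex.norm_exp]
    refine Real.exp_le_exp.2 ?_
    simp
    linarith
  have hdet : 1 ≤ ‖(exp (4 * b) - exp (-(4 * b)) : ℂ)‖ := by
    rw [det_eq, Complex.norm_real]
    exact (det_ge hb).trans (le_abs_self _)
  have hCC : 0 ≤ CC := (norm_nonneg _).trans h1
  have key : ∀ X Y : ℂ, ‖X‖ ≤ CC → ‖Y‖ ≤ CC →
      ‖(exp (2 * b) * X - exp (-(2 * b)) * Y) / (exp (4 * b) - exp (-(4 * b)) : ℂ)‖ ≤
        2 * Real.exp (2 * b) * CC := by
    intro X Y hX hY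
    rw [norm_div]
    refine (div_le_self (norm_nonneg _) hdet).trans ((norm_sub_le _ _).trans ?_)
    rw [norm_mul, norm_mul, n2]
    have a1 := mul_le_mul_of_nonneg_left hX (Real.exp_pos (2 * b)).le
    have a2 := mul_le_mul n2' hY (norm_nonneg _) (Real.exp_pos (2 * b)).le
    linarith
  fin_cases i
  · exact key _ _ h1 h2
  · exact key _ _ h2 h1

theorem Pts.ext {w : ι → ℂ} (hw : Pts w) : Pts (Sum.elim w wE) where
  re := by
    have := l_pos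
    rintro (i | i)
    · exact hw.re i
    · fin_cases i <;> simp [wE] <;> positivity
  im := by
    rintro (i | i)
    · exact hw.im i
    · fin_cases i <;> simp [wE]

/-- constant of `tr_ext` -/
def CT (b C0 : ℝ) (k : ℕ) : ℝ := C0 + 2 * Real.exp (2 * b) * CR b C0 k

/-- **the transport condition holds with the extra points** -/
theorem tr_ext {b : ℝ} (hb : 1 ≤ b) {M a : ℕ} (hMa : 1 ≤ M + a) {w v : ι → ℂ} (hw : Pts w)
    {C0 : ℝ} (hv : ∀ i, ‖v i‖ ≤ C0) {ξ ξe : ℝ → ℂ}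
    (hξ : ∀ σ : ℝ, (σ = 1 ∨ σ = -1) → ‖ξe σ‖ ≤ C0 / (M + a))
    (hd : ∀ σ : ℝ, (σ = 1 ∨ σ = -1) → ∀ t : ℝ, 0 ≤ σ * t →
      ‖ξ t - ξe σ‖ ≤ C0 / (M + a) * Real.exp (-(16 / 3 * (σ * t)))) :
    Tr b M a (Sum.elim w wE) (Sum.elim v (vE b M a w v ξe)) ξ ξe (CT b C0 (Fintype.card ι)) 0 := by
  have hn : (1 : ℝ) ≤ M + a := by exact_mod_cast hMa
  have hn0 : (0 : ℝ) < M + a := by linarith
  have hC0 : 0 ≤ C0 := by
    have := (norm_nonneg _).trans (hξ 1 (Or.inl rfl))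
    rw [le_div_iff₀ hn0, zero_mul] at this
    exact this
  have hCR : 0 ≤ CR b C0 (Fintype.card ι) := by unfold CR; positivity
  have hCT : C0 ≤ CT b C0 (Fintype.card ι) := by
    unfold CT
    have : 0 ≤ 2 * Real.exp (2 * b) * CR b C0 (Fintype.card ι) := by positivity
    linarith
  have hdiv : C0 / (M + a : ℝ) ≤ CT b C0 (Fintype.card ι) / (M + a : ℝ) :=
    div_le_div_of_nonneg_right hCT hn0.le
  refine ⟨hw.ext, ?_, ?_, fun σ hσ => (hξ σ hσ).trans hdiv, fun σ hσ t ht => (hd σ hσ t ht).trans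
    (mul_le_mul_of_nonneg_right hdiv (Real.exp_pos _).le)⟩
  · rintro (i | i)
    · exact (hv i).trans hCT
    · refine (norm_vE_le hb hMa hw hv hξ i).trans ?_
      unfold CT
      linarith
  · intro σ hσ
    rw [norm_le_zero_iff, sub_eq_zero, Fintype.sum_sum_type, Fintype.sum_sum_type]
    simp only [Sum.elim_inl, Sum.elim_inr]
    rw [vE_cond hb M a w v ξe hσ]
    have e : ∑ i, Ep σ b (wE i) = exp (2 * b) + exp (-(2 * b)) := by
      unfold wE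
      rw [Fin.sum_univ_two]
      simp only [Matrix.cons_val_zero, Matrix.cons_val_one]
      rw [Ep_I, Ep_nI]
      rcases hσ with rfl | rfl
      · simp
      · simp [add_comm]
    rw [e]
    unfold RE
    ring


/-! ### lists -/

/-- **`phiW` is the cutoff of a list** -/
theorem phi_list {W : List ℂ} {M a : ℕ} {w : ι → ℂ}
    (h : (W : Multiset ℂ) = Multiset.replicate M ((l : ℂ) / 2) + Multiset.replicate M (-((l : ℂ) / 2)) +
      Multiset.replicate a 0 + (univ : Finset ι).val.map w) (b : ℝ) (u : ℂ) :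
    NUP1.phi b W u = phiW b M a w u := by
  have h1 := congrArg (fun s : Multiset ℂ => (s.map fun x => psi b (u - x)).prod) h
  simp only [Multiset.map_coe, Multiset.prod_coe, Multiset.map_add, Multiset.prod_add,
    Multiset.map_replicate, Multiset.prod_replicate, Multiset.map_map, sub_neg_eq_add, sub_zero] at h1
  unfold NUP1.phi phiW Bk Psi prd
  rw [h1, mul_pow]
  rfl

end

/-! ### rows at `0` -/

/-- the list of the cutoff: one row at `x`, `a` rows at `0`, the extra points -/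
def W0 (a : ℕ) (x : ℂ) (e : Fin 2 → ℂ) : List ℂ := (x :: List.replicate a 0) ++ [e 0, e 1]

theorem phi_W0 (b : ℝ) (a : ℕ) (x : ℂ) (e : Fin 2 → ℂ) (u : ℂ) :
    NUP1.phi b (W0 a x e) u = phiW b 0 a (Sum.elim (fun _ : Fin 1 => x) e) u := by
  unfold NUP1.phi phiW Bk prd W0
  rw [List.map_append, List.prod_append, List.map_cons, List.prod_cons, List.map_replicate,
    List.prod_replicate, Fintype.prod_sum_type, Fin.prod_univ_one, Fin.prod_univ_two]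
  simp only [List.map_cons, List.map_nil, List.prod_cons, List.prod_nil, Sum.elim_inl, Sum.elim_inr,
    sub_zero, pow_zero, mul_one, one_mul]
  ring

/-- rows only -/
theorem phi_R0 (b : ℝ) (a : ℕ) (x : ℂ) (u : ℂ) :
    NUP1.phi b (x :: List.replicate a 0) u = phiW b 0 a (fun _ : Fin 1 => x) u := by
  unfold NUP1.phi phiW Bk prd
  rw [List.map_cons, List.prod_cons, List.map_replicate, List.prod_replicate, Fin.prod_univ_one]
  simp only [sub_zero, pow_zero, one_mul]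
  ring

theorem phi_list0 (b : ℝ) {W : List ℂ} {a : ℕ} {L : List ℂ} (hW : W.Perm (List.replicate a 0 ++ L))
    (u : ℂ) : NUP1.phi b W u = phiW b 0 a L.get u := by
  refine phi_list ?_ b u
  have h1 : (W : Multiset ℂ) = ((List.replicate a (0 : ℂ) ++ L : List ℂ) : Multiset ℂ) :=
    Multiset.coe_eq_coe.2 hW
  have h2 : ((univ : Finset (Fin L.length)).val.map L.get) = (L : Multiset ℂ) := by
    have h3 : (univ : Finset (Fin L.length)).val = ((List.finRange L.length : List _) : Multiset _) := rfl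
    rw [h3, Multiset.map_coe, List.map_get_finRange]
  rw [h1, h2]
  simp only [Multiset.replicate_zero, zero_add]
  rw [← Multiset.coe_add, Multiset.coe_replicate]

/-! ### the final statements for rows at `0` -/

/-- `n ≥ n0` in all theorems -/
def n0 (b s : ℝ) (k : ℕ) : ℝ := max 1 (2 * k * Kp b s / c1 b s)

theorem n0_spec {b s : ℝ} (h : Hyp b s) {k a : ℕ} (ha : n0 b s k ≤ a) :
    1 ≤ 0 + a ∧ 2 * (k : ℝ) * Kp b s ≤ c1 b s * (((0 : ℕ) : ℝ) + a) := by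
  have hc := c1_pos h
  have h1 : (1 : ℝ) ≤ a := (le_max_left _ _).trans ha
  have h2 : 2 * k * Kp b s / c1 b s ≤ a := (le_max_right _ _).trans ha
  refine ⟨?_, ?_⟩
  · rw [zero_add]; exact_mod_cast h1
  · rw [div_le_iff₀ hc] at h2
    push_cast
    linarith

/-- one moving row at `x` -/
theorem pts_one {x : ℂ} (hx : |x.re| ≤ l / 2) (hx' : |x.im| ≤ 2) : Pts (fun _ : Fin 1 => x) :=
  ⟨fun _ => hx, fun _ => hx'⟩

theorem pts_list {L : List ℂ} (hL : ∀ x ∈ L, |x.re| ≤ l / 2 ∧ |x.im| ≤ 2) : Pts L.get :=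
  ⟨fun i => (hL _ (L.get_mem i)).1, fun i => (hL _ (L.get_mem i)).2⟩

theorem CK_mono {b s : ℝ} (h : Hyp b s) {k k' : ℕ} (hk : k ≤ k') : CK b s k ≤ CK b s k' := by
  have hK := Kp_pos h
  have h1 : (k : ℝ) ≤ k' := by exact_mod_cast hk
  unfold CK
  have h2 : Kp b s * (2 + k) ≤ Kp b s * (2 + k') := mul_le_mul_of_nonneg_left (by linarith) hK.le
  have h3 := Real.exp_le_exp.2 h2
  have h4 := mul_le_mul h2 h3 (Real.exp_pos _).le (by positivity)
  linarith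

theorem n0_mono {b s : ℝ} (h : Hyp b s) {k k' : ℕ} (hk : k ≤ k') : n0 b s k ≤ n0 b s k' := by
  have hK := Kp_pos h
  have hc := c1_pos h
  have h1 : (k : ℝ) ≤ k' := by exact_mod_cast hk
  unfold n0
  refine max_le_max le_rfl (div_le_div_of_nonneg_right ?_ hc.le)
  exact mul_le_mul_of_nonneg_right (by linarith) hK.le

/-- upper bound, `a` rows at `0` and a list `L` of at most `k` points -/
theorem phi_le_list {b s : ℝ} (h : Hyp b s) {a k : ℕ} (ha : n0 b s k ≤ a) {W L : List ℂ}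
    (hk : L.length ≤ k) (hL : ∀ x ∈ L, |x.re| ≤ l / 2 ∧ |x.im| ≤ 2)
    (hW : W.Perm (List.replicate a 0 ++ L)) {u : ℂ} (hu : |u.re + l / 2| ≤ s) :
    ‖NUP1.phi b W u‖ ≤ CK b s k * min 1 (a * Real.exp (-(2 * b * |u.im|))) := by
  obtain ⟨h1, h2⟩ := n0_spec h ((n0_mono h hk).trans ha)
  have := phiW_le h hu (pts_list hL) (M := 0) (a := a) h1 (by simpa using h2)
  rw [phi_list0 b hW]
  unfold yy at this
  rw [Fintype.card_fin] at this
  simp only [CharP.cast_eq_zero, zero_add] at this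
  exact this.trans (mul_le_mul_of_nonneg_right (CK_mono h hk) (le_min zero_le_one (by positivity)))

/-- lower bound, `a` rows at `0` and a list `L` of at most `k` points -/
theorem phi_ge_list {b s : ℝ} (h : Hyp b s) {a k : ℕ} (ha : n0 b s k ≤ a) {W L : List ℂ}
    (hk : L.length ≤ k) (hL : ∀ x ∈ L, |x.re| ≤ l / 2 ∧ |x.im| ≤ 2)
    (hW : W.Perm (List.replicate a 0 ++ L)) {u : ℂ} (hu : |u.re + l / 2| ≤ s) :
    min 1 (c1 b s / 2) / 2 * min 1 (a * Real.exp (-(2 * b * |u.im|))) ≤ ‖NUP1.phi b W u‖ := by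
  obtain ⟨h1, h2⟩ := n0_spec h ((n0_mono h hk).trans ha)
  have := phiW_ge_min h hu (pts_list hL) (M := 0) (a := a) (by simpa using h2)
  rw [phi_list0 b hW]
  unfold yy at this
  simpa using this

/-- **upper bound of the cutoff**, rows `x :: 0 ^ a` and `± I` -/
theorem phi_le {b s : ℝ} (h : Hyp b s) {a : ℕ} (ha : n0 b s 3 ≤ a) {x u : ℂ} (hx : |x.re| ≤ l / 2)
    (hx' : |x.im| ≤ 2) (hu : |u.re + l / 2| ≤ s) :
    ‖NUP1.phi b (W0 a x wE) u‖ ≤ CK b s 3 * min 1 (a * Real.exp (-(2 * b * |u.im|))) := by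
  obtain ⟨h1, h2⟩ := n0_spec h ha
  have := phiW_le h hu (pts_one hx hx').ext (M := 0) (a := a) h1 (by simpa using h2)
  rw [phi_W0]
  unfold yy at this
  simpa using this

/-- **lower bound of the cutoff**, rows `x :: 0 ^ a` and `± I` -/
theorem phi_ge {b s : ℝ} (h : Hyp b s) {a : ℕ} (ha : n0 b s 3 ≤ a) {x u : ℂ} (hx : |x.re| ≤ l / 2)
    (hx' : |x.im| ≤ 2) (hu : |u.re + l / 2| ≤ s) :
    min 1 (c1 b s / 2) / 2 * min 1 (a * Real.exp (-(2 * b * |u.im|))) ≤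
      ‖NUP1.phi b (W0 a x wE) u‖ := by
  obtain ⟨h1, h2⟩ := n0_spec h ha
  have := phiW_ge_min h hu (pts_one hx hx').ext (M := 0) (a := a) (by simpa using h2)
  rw [phi_W0]
  unfold yy at this
  simpa using this

/-- rows only -/
theorem phi_le_R {b s : ℝ} (h : Hyp b s) {a : ℕ} (ha : n0 b s 1 ≤ a) {x u : ℂ} (hx : |x.re| ≤ l / 2)
    (hx' : |x.im| ≤ 2) (hu : |u.re + l / 2| ≤ s) :
    ‖NUP1.phi b (x :: List.replicate a 0) u‖ ≤
      CK b s 1 * min 1 (a * Real.exp (-(2 * b * |u.im|))) := by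
  obtain ⟨h1, h2⟩ := n0_spec h ha
  have := phiW_le h hu (pts_one hx hx') (M := 0) (a := a) h1 (by simpa using h2)
  rw [phi_R0]
  unfold yy at this
  simpa using this

/-- rows only -/
theorem phi_ge_R {b s : ℝ} (h : Hyp b s) {a : ℕ} (ha : n0 b s 1 ≤ a) {x u : ℂ} (hx : |x.re| ≤ l / 2)
    (hx' : |x.im| ≤ 2) (hu : |u.re + l / 2| ≤ s) :
    min 1 (c1 b s / 2) / 2 * min 1 (a * Real.exp (-(2 * b * |u.im|))) ≤
      ‖NUP1.phi b (x :: List.replicate a 0) u‖ := by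
  obtain ⟨h1, h2⟩ := n0_spec h ha
  have := phiW_ge_min h hu (pts_one hx hx') (M := 0) (a := a) (by simpa using h2)
  rw [phi_R0]
  unfold yy at this
  simpa using this

/-- velocities of `± I` for the row at `x` with velocity `v` and the limits `ξe` of the field -/
def vI (b : ℝ) (a : ℕ) (x v : ℂ) (ξe : ℝ → ℂ) : Fin 2 → ℂ :=
  vE b 0 a (fun _ : Fin 1 => x) (fun _ => v) ξe

/-- `(∂_η + ξ ∂_t) phi_b` for the moving list `W0 a x (± I)`, at `u` -/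
def DW (b : ℝ) (a : ℕ) (x v : ℂ) (ξe : ℝ → ℂ) (ξ u : ℂ) : ℂ :=
  Dph b 0 a (Sum.elim (fun _ : Fin 1 => x) wE) (Sum.elim (fun _ => v) (vI b a x v ξe)) ξ u

/-- `(∂_η + ξ ∂_t) phi_b` for the rows only, at `u` -/
def DR (b : ℝ) (a : ℕ) (x v ξ u : ℂ) : ℂ :=
  Dph b 0 a (fun _ : Fin 1 => x) (fun _ => v) ξ u

/-- derivative along a path, moving list with the extra points -/
theorem hasDerivAt_W {b s : ℝ} (h : Hyp b s) {a : ℕ} {x v : ℂ} (hx : |x.re| ≤ l / 2)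
    {ξe : ℝ → ℂ} {X : ℝ → ℂ} {e : ℝ → Fin 2 → ℂ} {u : ℝ → ℂ} {ξ : ℂ} {τ : ℝ}
    (hX : HasDerivAt X v τ) (hXτ : X τ = x)
    (he : ∀ i, HasDerivAt (fun τ => e τ i) (vI b a x v ξe i) τ) (heτ : e τ = wE)
    (hu : HasDerivAt u (I * ξ) τ) (hs : |(u τ).re + l / 2| ≤ s) :
    HasDerivAt (fun τ => NUP1.phi b (W0 a (X τ) (e τ)) (u τ)) (DW b a x v ξe ξ (u τ)) τ := by
  have hl := l_pos
  have h1 := hasDerivAt_phiW h (M := 0) (a := a)
    (w := fun τ => Sum.elim (fun _ : Fin 1 => X τ) (e τ))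
    (v := Sum.elim (fun _ => v) (vI b a x v ξe)) (u := u) (ξ := ξ) (τ := τ) (by
      rintro (i | i)
      · exact hX
      · exact he i) hu hs (by
      rintro (i | i)
      · simp only [Sum.elim_inl]; rw [hXτ]; exact hx
      · simp only [Sum.elim_inr]; rw [heτ]
        fin_cases i <;> simp [wE] <;> positivity)
  have e1 : (fun τ => NUP1.phi b (W0 a (X τ) (e τ)) (u τ)) =
      fun τ => phiW b 0 a (Sum.elim (fun _ : Fin 1 => X τ) (e τ)) (u τ) := by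
    funext τ
    exact phi_W0 b a (X τ) (e τ) (u τ)
  rw [e1]
  unfold DW
  rw [← heτ, ← hXτ]
  rw [← hXτ] at h1
  exact h1

/-- derivative along a path, rows only -/
theorem hasDerivAt_R {b s : ℝ} (h : Hyp b s) {a : ℕ} {x v : ℂ} (hx : |x.re| ≤ l / 2)
    {X : ℝ → ℂ} {u : ℝ → ℂ} {ξ : ℂ} {τ : ℝ} (hX : HasDerivAt X v τ) (hXτ : X τ = x)
    (hu : HasDerivAt u (I * ξ) τ) (hs : |(u τ).re + l / 2| ≤ s) :
    HasDerivAt (fun τ => NUP1.phi b (X τ :: List.replicate a 0) (u τ)) (DR b a x v ξ (u τ)) τ := by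
  have h1 := hasDerivAt_phiW h (M := 0) (a := a) (w := fun τ => (fun _ : Fin 1 => X τ))
    (v := fun _ => v) (u := u) (ξ := ξ) (τ := τ) (fun _ => hX) hu hs
    (fun _ => by rw [hXτ]; exact hx)
  have e1 : (fun τ => NUP1.phi b (X τ :: List.replicate a 0) (u τ)) =
      fun τ => phiW b 0 a (fun _ : Fin 1 => X τ) (u τ) := by
    funext τ
    exact phi_R0 b a (X τ) (u τ)
  rw [e1]
  unfold DR
  rw [← hXτ]
  exact h1

/-- the field: limits `ξe` and decay, `a` rows -/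
structure Fl (a : ℕ) (C0 : ℝ) (ξ ξe : ℝ → ℂ) : Prop where
  lim : ∀ σ : ℝ, (σ = 1 ∨ σ = -1) → ‖ξe σ‖ ≤ C0 / a
  dec : ∀ σ : ℝ, (σ = 1 ∨ σ = -1) → ∀ t : ℝ, 0 ≤ σ * t →
    ‖ξ t - ξe σ‖ ≤ C0 / a * Real.exp (-(16 / 3 * (σ * t)))

theorem Fl.norm_le {a : ℕ} {C0 : ℝ} {ξ ξe : ℝ → ℂ} (hF : Fl a C0 ξ ξe) (t : ℝ) :
    ‖ξ t‖ ≤ 2 * C0 / a := by
  obtain ⟨σ, hσ, hσt⟩ : ∃ σ : ℝ, (σ = 1 ∨ σ = -1) ∧ 0 ≤ σ * t := by
    rcases le_total 0 t with h0 | h0
    · exact ⟨1, Or.inl rfl, by rw [one_mul]; exact h0⟩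
    · exact ⟨-1, Or.inr rfl, by linarith⟩
  have h1 := hF.lim σ hσ
  have h2 := hF.dec σ hσ t hσt
  have h3 : 0 ≤ C0 / a := (norm_nonneg _).trans h1
  have e1 : Real.exp (-(16 / 3 * (σ * t))) ≤ 1 := Real.exp_le_one_iff.2 (by linarith)
  have e2 : ‖ξ t‖ ≤ ‖ξ t - ξe σ‖ + ‖ξe σ‖ := by
    have := norm_add_le (ξ t - ξe σ) (ξe σ)
    rwa [sub_add_cancel] at this
  have e3 : C0 / (a : ℝ) * Real.exp (-(16 / 3 * (σ * t))) ≤ C0 / a * 1 :=
    mul_le_mul_of_nonneg_left e1 h3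
  have e4 : 2 * C0 / (a : ℝ) = C0 / a * 1 + C0 / a := by ring
  linarith

/-- constant of `far_W` -/
def CW (b s C0 : ℝ) : ℝ := CF b s (CT b C0 1) 3

theorem trW {b s : ℝ} (h : Hyp b s) {a : ℕ} (ha : 1 ≤ 0 + a) {x v : ℂ} (hx : |x.re| ≤ l / 2)
    (hx' : |x.im| ≤ 2) {C0 : ℝ} (hv : ‖v‖ ≤ C0) {ξ ξe : ℝ → ℂ} (hF : Fl a C0 ξ ξe) :
    Tr b 0 a (Sum.elim (fun _ : Fin 1 => x) wE) (Sum.elim (fun _ => v) (vI b a x v ξe)) ξ ξe
      (CT b C0 1) 0 := by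
  have := tr_ext h.b1 ha (pts_one hx hx') (v := fun _ : Fin 1 => v) (fun _ => hv)
    (ξ := ξ) (ξe := ξe) (C0 := C0) (by simpa using hF.lim) (by simpa using hF.dec)
  unfold vI
  simpa using this

/-- **(FAR)**: `|(∂_η + ξ ∂_t) phi| ≤ C a ^ (-3) |phi|` for the moving list `W0 a x (± I)` -/
theorem far_W {b s : ℝ} (h : Hyp b s) {a : ℕ} (ha : n0 b s 3 ≤ a) {x v : ℂ} (hx : |x.re| ≤ l / 2)
    (hx' : |x.im| ≤ 2) {C0 : ℝ} (hv : ‖v‖ ≤ C0) {ξ ξe : ℝ → ℂ} (hF : Fl a C0 ξ ξe) {u : ℂ}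
    (hu : |u.re + l / 2| ≤ s) :
    ‖DW b a x v ξe (ξ u.im) u‖ ≤ CW b s C0 / (a : ℝ) ^ 3 * ‖NUP1.phi b (W0 a x wE) u‖ := by
  obtain ⟨h1, h2⟩ := n0_spec h ha
  have := FAR h hu h1 (trW h h1 hx hx' hv hF) (by simpa using h2)
  rw [phi_W0]
  unfold DW CW
  simpa using this

/-- far part in terms of the product `1 - phi` -/
theorem far_W_prod {b s : ℝ} (h : Hyp b s) {a : ℕ} (ha : 1 ≤ a) {x v : ℂ} (hx : |x.re| ≤ l / 2)
    (hx' : |x.im| ≤ 2) {C0 : ℝ} (hv : ‖v‖ ≤ C0) {ξ ξe : ℝ → ℂ} (hF : Fl a C0 ξ ξe) {u : ℂ}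
    (hu : |u.re + l / 2| ≤ s) (ht : 3 ≤ |u.im|) :
    ‖DW b a x v ξe (ξ u.im) u‖ ≤
      (CT b C0 1 * (11 * (2 + 3 * Real.exp (4 * b)) + 200 * Real.exp (12 * b) * 3 * 3 + 800)) *
        Real.exp (-(6 * b * |u.im|)) * ‖1 - NUP1.phi b (W0 a x wE) u‖ := by
  have h1 : 1 ≤ 0 + a := by rwa [zero_add]
  obtain ⟨σ, hσ, hσu⟩ : ∃ σ : ℝ, (σ = 1 ∨ σ = -1) ∧ σ * u.im = |u.im| := by
    rcases le_total 0 u.im with h0 | h0
    · exact ⟨1, Or.inl rfl, by rw [one_mul, abs_of_nonneg h0]⟩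
    · exact ⟨-1, Or.inr rfl, by rw [abs_of_nonpos h0]; ring⟩
  have := Dph_far h hu hσ (by rw [hσu]; exact ht) h1 (trW h h1 hx hx' hv hF)
  rw [hσu] at this
  rw [phi_W0]
  unfold DW
  unfold phiW
  rw [sub_sub_cancel]
  simpa using this

theorem trR {b : ℝ} {a : ℕ} {x v : ℂ} (hx : |x.re| ≤ l / 2)
    (hx' : |x.im| ≤ 2) {C0 δ : ℝ} (hv : ‖v‖ ≤ C0) {ξ ξe : ℝ → ℂ} (hF : Fl a C0 ξ ξe)
    (hδ : ∀ σ : ℝ, (σ = 1 ∨ σ = -1) → ‖v * Ep σ b x - I * ξe σ * (a + Ep σ b x)‖ ≤ δ) :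
    Tr b 0 a (fun _ : Fin 1 => x) (fun _ => v) ξ ξe C0 δ :=
  ⟨pts_one hx hx', fun _ => hv, fun σ hσ => by simpa using hδ σ hσ,
    fun σ hσ => by simpa using hF.lim σ hσ, fun σ hσ t ht => by simpa using hF.dec σ hσ t ht⟩

/-- rows only, far part in terms of the product `1 - phi`; `δ` = error of the transport condition -/
theorem far_R_prod {b s : ℝ} (h : Hyp b s) {a : ℕ} (ha : 1 ≤ a) {x v : ℂ} (hx : |x.re| ≤ l / 2)
    (hx' : |x.im| ≤ 2) {C0 δ : ℝ} (hv : ‖v‖ ≤ C0) {ξ ξe : ℝ → ℂ} (hF : Fl a C0 ξ ξe)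
    (hδ : ∀ σ : ℝ, (σ = 1 ∨ σ = -1) → ‖v * Ep σ b x - I * ξe σ * (a + Ep σ b x)‖ ≤ δ) {u : ℂ}
    (hu : |u.re + l / 2| ≤ s) (ht : 3 ≤ |u.im|) :
    ‖DR b a x v (ξ u.im) u‖ ≤
      ((C0 * (11 * (2 + Real.exp (4 * b)) + 200 * Real.exp (12 * b) * 3 + 800)) *
        Real.exp (-(6 * b * |u.im|)) + 11 * δ * Real.exp (-(2 * b * |u.im|))) *
        ‖1 - NUP1.phi b (x :: List.replicate a 0) u‖ := by
  have h1 : 1 ≤ 0 + a := by rwa [zero_add]
  obtain ⟨σ, hσ, hσu⟩ : ∃ σ : ℝ, (σ = 1 ∨ σ = -1) ∧ σ * u.im = |u.im| := by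
    rcases le_total 0 u.im with h0 | h0
    · exact ⟨1, Or.inl rfl, by rw [one_mul, abs_of_nonneg h0]⟩
    · exact ⟨-1, Or.inr rfl, by rw [abs_of_nonpos h0]; ring⟩
  have := Dph_far h hu hσ (by rw [hσu]; exact ht) h1 (trR (b := b) hx hx' hv hF hδ)
  rw [hσu] at this
  rw [phi_R0]
  unfold DR
  unfold phiW
  rw [sub_sub_cancel]
  simpa using this

/-- rows only, error `δ` of the transport condition -/
theorem far_R_tr {b s : ℝ} (h : Hyp b s) {a : ℕ} (ha : n0 b s 1 ≤ a) {x v : ℂ} (hx : |x.re| ≤ l / 2)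
    (hx' : |x.im| ≤ 2) {C0 δ : ℝ} (hv : ‖v‖ ≤ C0) {ξ ξe : ℝ → ℂ} (hF : Fl a C0 ξ ξe)
    (hδ : ∀ σ : ℝ, (σ = 1 ∨ σ = -1) → ‖v * Ep σ b x - I * ξe σ * (a + Ep σ b x)‖ ≤ δ) {u : ℂ}
    (hu : |u.re + l / 2| ≤ s) :
    ‖DR b a x v (ξ u.im) u‖ ≤ (CF b s C0 1 / (a : ℝ) ^ 3 + 22 / c1 b s * δ / a) *
      ‖NUP1.phi b (x :: List.replicate a 0) u‖ := by
  obtain ⟨h1, h2⟩ := n0_spec h ha
  have := FAR h hu h1 (trR hx hx' hv hF hδ) (by simpa using h2)
  rw [phi_R0]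
  unfold DR
  simpa using this

/-- **the error of the transport condition of the rows** `i η :: 0 ^ a` for the field
`P (z - η) / ((a + 1) P (z))`, `b = 4 / 3` -/
theorem delta_rows (a : ℕ) {η σ : ℝ} (hη : |η| ≤ 1) (hσ : σ = 1 ∨ σ = -1) :
    ‖I * Ep σ (4 / 3) (I * η) - I * (exp (8 / 3 * σ * η) / (a + 1)) * (a + Ep σ (4 / 3) (I * η))‖ ≤
      2 * Real.exp 6 / (a + 1) := by
  have e1 : Ep σ (4 / 3) (I * η) = exp (8 / 3 * σ * η) := by
    unfold Ep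
    congr 1
    push_cast
    linear_combination (-(8 / 3 * σ * η : ℂ)) * I_mul_I
  rw [e1]
  have hn : ((a : ℂ) + 1) ≠ 0 := Nat.cast_add_one_ne_zero a
  set E : ℂ := exp (8 / 3 * σ * η) with hE
  have e2 : I * E - I * (E / (a + 1)) * (a + E) = I * E * (1 - E) / (a + 1) := by
    field_simp
    ring
  have hEn : ‖E‖ ≤ Real.exp (8 / 3) := by
    rw [hE, Complex.norm_exp]
    refine Real.exp_le_exp.2 ?_
    have e3 : (8 / 3 * σ * η : ℂ).re = 8 / 3 * (σ * η) := by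
      rw [show (8 / 3 * σ * η : ℂ) = ((8 / 3 * (σ * η) : ℝ) : ℂ) by push_cast; ring, ofReal_re]
    rw [e3]
    obtain ⟨h1, h2⟩ := abs_le.1 hη
    rcases hσ with rfl | rfl <;> linarith
  have hna : ‖((a : ℂ) + 1)‖ = (a : ℝ) + 1 := by
    rw [show ((a : ℂ) + 1) = (((a : ℝ) + 1 : ℝ) : ℂ) by push_cast; ring, Complex.norm_real,
      Real.norm_of_nonneg (by positivity)]
  rw [e2, norm_div, hna, norm_mul, norm_mul, Complex.norm_I, one_mul]
  refine div_le_div_of_nonneg_right ?_ (by positivity)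
  have h1E : ‖1 - E‖ ≤ 1 + Real.exp (8 / 3) := by
    refine (norm_sub_le _ _).trans ?_
    rw [norm_one]
    linarith
  have h1 : (1 : ℝ) ≤ Real.exp (8 / 3) := Real.one_le_exp (by norm_num)
  have h2 : Real.exp (8 / 3) * Real.exp (8 / 3) ≤ Real.exp 6 := by
    rw [← Real.exp_add]
    exact Real.exp_le_exp.2 (by norm_num)
  have h3 := mul_le_mul hEn h1E (norm_nonneg _) (Real.exp_pos _).le
  nlinarith

theorem norm_vI_le {b s : ℝ} (h : Hyp b s) {a : ℕ} (ha : n0 b s 3 ≤ a) {x v : ℂ}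
    (hx : |x.re| ≤ l / 2) (hx' : |x.im| ≤ 2) {C0 : ℝ} (hv : ‖v‖ ≤ C0) {ξ ξe : ℝ → ℂ}
    (hF : Fl a C0 ξ ξe) (i : Fin 2) : ‖vI b a x v ξe i‖ ≤ CT b C0 1 := by
  simpa using (trW h (n0_spec h ha).1 hx hx' hv hF).vel (Sum.inr i)

/-- constant of `far_R` -/
def CR0 (b s C0 : ℝ) : ℝ := Cc b s C0 1 * (2 / c1 b s)

/-- rows only: `|(∂_η + ξ ∂_t) phi| ≤ C a ^ (-1) |phi|`, no transport condition -/
theorem far_R {b s : ℝ} (h : Hyp b s) {a : ℕ} (ha : n0 b s 1 ≤ a) {x v : ℂ} (hx : |x.re| ≤ l / 2)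
    (hx' : |x.im| ≤ 2) {C0 : ℝ} (hv : ‖v‖ ≤ C0) {ξ : ℂ} (hξ : ‖ξ‖ ≤ 2 * C0 / a) {u : ℂ}
    (hu : |u.re + l / 2| ≤ s) :
    ‖DR b a x v ξ u‖ ≤ CR0 b s C0 / (a : ℝ) * ‖NUP1.phi b (x :: List.replicate a 0) u‖ := by
  obtain ⟨h1, h2⟩ := n0_spec h ha
  have := FAR0 h hu h1 (pts_one hx hx') (v := fun _ : Fin 1 => v) (fun _ => hv)
    ((norm_nonneg _).trans hv) (ξ := ξ) (by simpa using hξ) (by simpa using h2)
  rw [phi_R0]
  unfold DR CR0
  simpa using this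

/-- the cut of `St`: `phi_b (w) phi_b (w - l) - phi_{4/3} (w)` -/
def cutT (b : ℝ) (a : ℕ) (x : ℂ) (e : Fin 2 → ℂ) (w : ℂ) : ℂ :=
  NUP1.phi b (W0 a x e) w * NUP1.phi b (W0 a x e) (w - l) - NUP1.phi (4 / 3) (x :: List.replicate a 0) w

/-- `(∂_η + ξ ∂_t)` of the cut of `St` -/
def DT (b : ℝ) (a : ℕ) (x v : ℂ) (ξe : ℝ → ℂ) (ξ w : ℂ) : ℂ :=
  DW b a x v ξe ξ w * NUP1.phi b (W0 a x wE) (w - l) +
    NUP1.phi b (W0 a x wE) w * DW b a x v ξe ξ (w - l) - DR (4 / 3) a x v ξ w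

theorem hasDerivAt_T {b s s' : ℝ} (h : Hyp b s) (h' : Hyp (4 / 3) s') {a : ℕ} {x v : ℂ}
    (hx : |x.re| ≤ l / 2) {ξe : ℝ → ℂ} {X : ℝ → ℂ} {e : ℝ → Fin 2 → ℂ} {u : ℝ → ℂ} {ξ : ℂ} {τ : ℝ}
    (hX : HasDerivAt X v τ) (hXτ : X τ = x)
    (he : ∀ i, HasDerivAt (fun τ => e τ i) (vI b a x v ξe i) τ) (heτ : e τ = wE)
    (hu : HasDerivAt u (I * ξ) τ) (hs : |(u τ).re + l / 2| ≤ s) (hs1 : |(u τ - l).re + l / 2| ≤ s)
    (hs' : |(u τ).re + l / 2| ≤ s') :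
    HasDerivAt (fun τ => cutT b a (X τ) (e τ) (u τ)) (DT b a x v ξe ξ (u τ)) τ := by
  have h1 := hasDerivAt_W h hx hX hXτ he heτ hu hs
  have h2 := hasDerivAt_W h hx hX hXτ he heτ (hu.sub_const (l : ℂ)) hs1
  have h3 := hasDerivAt_R h' (a := a) hx hX hXτ hu hs'
  unfold cutT DT
  refine ((h1.mul h2).sub h3).congr_deriv ?_
  rw [hXτ, heτ]

/-- far end of `St` -/
theorem far_T {b s s' : ℝ} (h : Hyp b s) (h' : Hyp (4 / 3) s') {a : ℕ} (ha : n0 b s 3 ≤ a)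
    (ha' : n0 (4 / 3) s' 1 ≤ a) {x v : ℂ} (hx : |x.re| ≤ l / 2) (hx' : |x.im| ≤ 2) {C0 : ℝ}
    (hv : ‖v‖ ≤ C0) {ξ ξe : ℝ → ℂ} (hF : Fl a C0 ξ ξe) {w : ℂ}
    (hw : |w.re + l / 2| ≤ s) (hw1 : |(w - l).re + l / 2| ≤ s) (hw' : |w.re + l / 2| ≤ s') :
    ‖DT b a x v ξe (ξ w.im) w‖ ≤
      (2 * CW b s C0 * CK b s 3 ^ 2 + CR0 (4 / 3) s' C0 * CK (4 / 3) s' 1) / a *
        (min 1 (a * Real.exp (-(2 * b * |w.im|))) ^ 2 + min 1 (a * Real.exp (-(8 / 3 * |w.im|)))) := by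
  have hn : (1 : ℝ) ≤ a := by exact_mod_cast (by simpa using (n0_spec h ha).1)
  have hn0 : (0 : ℝ) < a := by linarith
  have hC0 : 0 ≤ C0 := (norm_nonneg _).trans hv
  have him : (w - l).im = w.im := by simp
  have a1 := far_W h ha hx hx' hv hF hw
  have a2 := far_W h ha hx hx' hv hF hw1
  rw [him] at a2
  have a3 := far_R h' ha' hx hx' hv (hF.norm_le w.im) hw'
  have p1 := phi_le h ha hx hx' hw
  have p2 := phi_le h ha hx hx' hw1
  rw [him] at p2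
  have p3 := phi_le_R h' ha' hx hx' hw'
  rw [show 2 * (4 / 3 : ℝ) * |w.im| = 8 / 3 * |w.im| by ring] at p3
  set m := min 1 (a * Real.exp (-(2 * b * |w.im|))) with hm
  set m' := min 1 (a * Real.exp (-(8 / 3 * |w.im|))) with hm'
  have hm0 : 0 ≤ m := le_min zero_le_one (by positivity)
  have hm0' : 0 ≤ m' := le_min zero_le_one (by positivity)
  have hK := Kp_pos h
  have hK' := Kp_pos h'
  have hKd := Kd_pos h
  have hKd' := Kd_pos h'
  have hc := c1_pos h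
  have hc' := c1_pos h'
  have hCT : 0 ≤ CT b C0 1 := by unfold CT CR; positivity
  have hCW : 0 ≤ CW b s C0 := by unfold CW CF Cc; positivity
  have hCR : 0 ≤ CR0 (4 / 3) s' C0 := by unfold CR0 Cc; positivity
  have hCK := (CK_pos h 3).le
  have hCK' := (CK_pos h' 1).le
  have hdiv : CW b s C0 / (a : ℝ) ^ 3 ≤ CW b s C0 / a := by
    refine div_le_div_of_nonneg_left hCW hn0 ?_
    calc (a : ℝ) = a ^ 1 := (pow_one _).symm
      _ ≤ a ^ 3 := pow_le_pow_right₀ hn (by norm_num)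
  unfold DT
  refine (norm_sub_le _ _).trans ((add_le_add (norm_add_le _ _) le_rfl).trans ?_)
  rw [norm_mul, norm_mul]
  have q1 : ‖DW b a x v ξe (ξ w.im) w‖ * ‖NUP1.phi b (W0 a x wE) (w - l)‖ ≤
      CW b s C0 / a * (CK b s 3 * m) * (CK b s 3 * m) := by
    refine mul_le_mul (a1.trans (mul_le_mul hdiv p1 (norm_nonneg _) (by positivity))) p2
      (norm_nonneg _) (by positivity)
  have q2 : ‖NUP1.phi b (W0 a x wE) w‖ * ‖DW b a x v ξe (ξ w.im) (w - l)‖ ≤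
      (CK b s 3 * m) * (CW b s C0 / a * (CK b s 3 * m)) := by
    refine mul_le_mul p1 (a2.trans (mul_le_mul hdiv p2 (norm_nonneg _) (by positivity)))
      (norm_nonneg _) (by positivity)
  have q3 : ‖DR (4 / 3) a x v (ξ w.im) w‖ ≤ CR0 (4 / 3) s' C0 / a * (CK (4 / 3) s' 1 * m') :=
    a3.trans (mul_le_mul_of_nonneg_left p3 (by positivity))
  have e1 : (2 * CW b s C0 * CK b s 3 ^ 2 + CR0 (4 / 3) s' C0 * CK (4 / 3) s' 1) / a * (m ^ 2 + m') =
      (CW b s C0 / a * (CK b s 3 * m) * (CK b s 3 * m) +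
        (CK b s 3 * m) * (CW b s C0 / a * (CK b s 3 * m)) +
        CR0 (4 / 3) s' C0 / a * (CK (4 / 3) s' 1 * m')) +
      ((2 * CW b s C0 * CK b s 3 ^ 2) / a * m' + (CR0 (4 / 3) s' C0 * CK (4 / 3) s' 1) / a * m ^ 2) := by
    ring
  have e2 : 0 ≤ (2 * CW b s C0 * CK b s 3 ^ 2) / a * m' +
      (CR0 (4 / 3) s' C0 * CK (4 / 3) s' 1) / a * m ^ 2 := by positivity
  rw [e1]
  linarith

end PBFar

end
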