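import Pool.Agent.NUP1.Cutoff

/-!
# Plan B, far end: the derivative of the exact cutoff is a difference of cutoffs

`psi β` = the cutoff kernel of `NUP1.Cutoff`, `x = exp (-2 β |t|)`.  The outward derivative of the
cutoff `1 - psi ^ a` is, up to a factor `1 + O(x)`, equal to `2 β a` times the difference
`psi ^ a (1 - psi)` of the cutoffs with exponents `a` and `a + 1`, which is at most
`(C / a) min 1 (a x)`.  The sum over the classes does not depend on the exponent, so the outward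
translation of the cutoff costs `O(1 / a)`.  `FarKer`: what is used of a cutoff kernel, closed under
products (`FarKer.mul`) and translations by rows of bounded height (`farKer_psi`).
-/

set_option autoImplicit false

open Complex

noncomputable section

namespace Pool.Agent.PB

open NUP1

/-! ### pointwise inequalities -/

/-- `y exp (-c y) ≤ max 1 (1 / c) min 1 y` -/
lemma mul_exp_le {c y : ℝ} (hc : 0 < c) (hy : 0 ≤ y) :
    y * Real.exp (-(c * y)) ≤ (1 + 1 / c) * min 1 y := by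
  have h1 : Real.exp (-(c * y)) ≤ 1 := Real.exp_le_one_iff.2 (by
    have := mul_nonneg hc.le hy
    linarith)
  have h2 : 0 < Real.exp (-(c * y)) := Real.exp_pos _
  have hc' : 0 < 1 / c := by positivity
  rcases le_total 1 y with h | h
  · rw [min_eq_left h]
    have h3 := Real.add_one_le_exp (c * y)
    have h4 : Real.exp (c * y) * Real.exp (-(c * y)) = 1 := by
      rw [← Real.exp_add]; simp
    have h5 : c * y * Real.exp (-(c * y)) ≤ 1 := by nlinarith
    have h6 : y * Real.exp (-(c * y)) ≤ 1 / c := by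
      rw [le_div_iff₀ hc]
      linarith
    linarith
  · rw [min_eq_right h]
    nlinarith

/-- `y ^ 2 exp (-c y) ≤ C min 1 y` -/
lemma sq_mul_exp_le {c y : ℝ} (hc : 0 < c) (hy : 0 ≤ y) :
    y ^ 2 * Real.exp (-(c * y)) ≤ (1 + 2 / c) ^ 2 * min 1 y := by
  have h := mul_exp_le (c := c / 2) (y := y) (by positivity) hy
  have hm0 : 0 ≤ min 1 y := le_min zero_le_one hy
  have hm1 : min 1 y ≤ 1 := min_le_left _ _
  have e : Real.exp (-(c * y)) = Real.exp (-(c / 2 * y)) * Real.exp (-(c / 2 * y)) := by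
    rw [← Real.exp_add]
    ring_nf
  have e2 : (1 + 1 / (c / 2)) = 1 + 2 / c := by
    field_simp
  rw [e2] at h
  have h0 : 0 ≤ y * Real.exp (-(c / 2 * y)) := mul_nonneg hy (Real.exp_pos _).le
  calc y ^ 2 * Real.exp (-(c * y)) = (y * Real.exp (-(c / 2 * y))) ^ 2 := by rw [e]; ring
    _ ≤ ((1 + 2 / c) * min 1 y) ^ 2 := by gcongr
    _ = (1 + 2 / c) ^ 2 * (min 1 y * min 1 y) := by ring
    _ ≤ (1 + 2 / c) ^ 2 * (min 1 y * 1) := by gcongr
    _ = _ := by rw [mul_one]

/-- values `p` of a cutoff kernel and `p'` of its derivative at one point; `s = ± 1` the end, `x` the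
distance to the vacuum value `1` -/
structure FarPt (β c C : ℝ) (s x : ℝ) (p p' : ℂ) : Prop where
  nn : 0 ≤ x
  le1 : x ≤ 1
  norm_le : ‖p‖ ≤ Real.exp (-(c * x))
  sub_le : ‖1 - p‖ ≤ C * x
  der_le : ‖p' + 2 * β * I * s * (1 - p)‖ ≤ C * x ^ 2

section
variable {β c C s x : ℝ} {p p' q q' : ℂ}

lemma FarPt.norm_pow_le (h : FarPt β c C s x p p') (a : ℕ) : ‖p ^ a‖ ≤ Real.exp (-(c * (a * x))) := by
  rw [norm_pow]
  calc ‖p‖ ^ a ≤ Real.exp (-(c * x)) ^ a := pow_le_pow_left₀ (norm_nonneg _) h.norm_le a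
    _ = _ := by
      rw [← Real.exp_nat_mul]
      ring_nf

/-- **The difference of two consecutive cutoffs.** -/
theorem FarPt.diff_le (h : FarPt β c C s x p p') (hc : 0 < c) (hC : 0 ≤ C) {a : ℕ} (ha : 1 ≤ a) :
    ‖p ^ a * (1 - p)‖ ≤ C * (1 + 1 / c) / a * min 1 (a * x) := by
  have ha' : (0 : ℝ) < a := by exact_mod_cast ha
  have hx := h.nn
  have h1 := h.norm_pow_le a
  have h2 := mul_exp_le hc (mul_nonneg ha'.le hx)
  rw [norm_mul]
  calc ‖p ^ a‖ * ‖1 - p‖ ≤ Real.exp (-(c * (a * x))) * (C * x) :=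
        mul_le_mul h1 h.sub_le (norm_nonneg _) (Real.exp_pos _).le
    _ = C / a * (a * x * Real.exp (-(c * (a * x)))) := by
        field_simp
    _ ≤ C / a * ((1 + 1 / c) * min 1 (a * x)) := by gcongr
    _ = _ := by ring

/-- **The derivative of the cutoff `1 - p ^ a` against the difference of two cutoffs.** -/
theorem FarPt.deriv_le (h : FarPt β c C s x p p') (hc : 0 < c) (hC : 0 ≤ C) (hβ : 0 ≤ β)
    (hs : |s| ≤ 1) {a : ℕ} (ha : 1 ≤ a) :
    ‖a * p ^ (a - 1) * p' + 2 * β * I * s * a * (p ^ a * (1 - p))‖ ≤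
      (C + 2 * β * C ^ 2) * Real.exp c * (1 + 2 / c) ^ 2 / a * min 1 (a * x) := by
  have ha' : (0 : ℝ) < a := by exact_mod_cast ha
  have hx := h.nn
  have hx1 := h.le1
  obtain ⟨b, rfl⟩ : ∃ b, a = b + 1 := ⟨a - 1, by omega⟩
  have e : ((b + 1 : ℕ) : ℂ) * p ^ (b + 1 - 1) * p' +
      2 * β * I * s * ((b + 1 : ℕ) : ℂ) * (p ^ (b + 1) * (1 - p)) =
      ((b + 1 : ℕ) : ℂ) * p ^ b * ((p' + 2 * β * I * s * (1 - p)) -
        2 * β * I * s * (1 - p) * (1 - p)) := by
    rw [Nat.add_sub_cancel, pow_succ]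
    ring
  have hn : ‖(p' + 2 * β * I * s * (1 - p)) - 2 * β * I * s * (1 - p) * (1 - p)‖ ≤
      (C + 2 * β * C ^ 2) * x ^ 2 := by
    refine (norm_sub_le _ _).trans ?_
    have h3 : ‖2 * β * I * s * (1 - p) * (1 - p)‖ ≤ 2 * β * C ^ 2 * x ^ 2 := by
      have e3 : ‖(2 * β * I * s : ℂ)‖ = 2 * β * |s| := by
        rw [norm_mul, norm_mul, norm_mul, norm_I, norm_real, norm_real, Real.norm_eq_abs,
          Real.norm_eq_abs, abs_of_nonneg hβ]
        simp
      rw [norm_mul, norm_mul, e3]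
      have h4 := h.sub_le
      calc 2 * β * |s| * ‖1 - p‖ * ‖1 - p‖ ≤ 2 * β * 1 * (C * x) * (C * x) := by gcongr
        _ = _ := by ring
    have := h.der_le
    linarith
  have hp : ‖p ^ b‖ ≤ Real.exp c * Real.exp (-(c * (((b + 1 : ℕ) : ℝ) * x))) := by
    refine (h.norm_pow_le b).trans ?_
    rw [← Real.exp_add]
    refine Real.exp_le_exp.2 ?_
    push_cast
    nlinarith [mul_nonneg hc.le (sub_nonneg.2 hx1)]
  have h2 := sq_mul_exp_le hc (mul_nonneg ha'.le hx)
  have hK : 0 ≤ (C + 2 * β * C ^ 2) * Real.exp c := by positivity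
  rw [e, norm_mul, norm_mul, Complex.norm_natCast]
  calc ((b + 1 : ℕ) : ℝ) * ‖p ^ b‖ * _ ≤ ((b + 1 : ℕ) : ℝ) *
        (Real.exp c * Real.exp (-(c * (((b + 1 : ℕ) : ℝ) * x)))) * ((C + 2 * β * C ^ 2) * x ^ 2) := by
        gcongr
    _ = (C + 2 * β * C ^ 2) * Real.exp c / ((b + 1 : ℕ) : ℝ) *
        ((((b + 1 : ℕ) : ℝ) * x) ^ 2 * Real.exp (-(c * (((b + 1 : ℕ) : ℝ) * x)))) := by
        field_simp
    _ ≤ (C + 2 * β * C ^ 2) * Real.exp c / ((b + 1 : ℕ) : ℝ) *
        ((1 + 2 / c) ^ 2 * min 1 (((b + 1 : ℕ) : ℝ) * x)) := by gcongr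
    _ = _ := by ring

/-- product of two kernels -/
theorem FarPt.mul {c₂ C₂ : ℝ} (h : FarPt β c C s x p p') (h₂ : FarPt β c₂ C₂ s x q q') (hc : 0 ≤ c)
    (hc₂ : 0 ≤ c₂) (hC : 0 ≤ C) (hC₂ : 0 ≤ C₂) (hβ : 0 ≤ β) (hs : |s| ≤ 1) :
    FarPt β (c + c₂) (C + C₂ + 2 * β * (C * C₂)) s x (p * q) (p' * q + p * q') := by
  have hx := h.nn
  have hp1 : ‖p‖ ≤ 1 := h.norm_le.trans (Real.exp_le_one_iff.2 (by
    have := mul_nonneg hc hx
    linarith))
  have hq1 : ‖q‖ ≤ 1 := h₂.norm_le.trans (Real.exp_le_one_iff.2 (by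
    have := mul_nonneg hc₂ hx
    linarith))
  have e3 : ‖(2 * β * I * s : ℂ)‖ ≤ 2 * β := by
    rw [norm_mul, norm_mul, norm_mul, norm_I, norm_real, norm_real, Real.norm_eq_abs,
      Real.norm_eq_abs, abs_of_nonneg hβ]
    simp only [Complex.norm_ofNat, mul_one]
    nlinarith
  refine ⟨hx, h.le1, ?_, ?_, ?_⟩
  · rw [norm_mul, add_mul, neg_add, Real.exp_add]
    exact mul_le_mul h.norm_le h₂.norm_le (norm_nonneg _) (Real.exp_pos _).le
  · have e : 1 - p * q = (1 - p) + p * (1 - q) := by ring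
    rw [e]
    refine (norm_add_le _ _).trans ?_
    rw [norm_mul]
    have h1 := h.sub_le
    have h2 := h₂.sub_le
    have h3 : ‖p‖ * ‖1 - q‖ ≤ 1 * (C₂ * x) := mul_le_mul hp1 h2 (norm_nonneg _) zero_le_one
    have h4 : 0 ≤ 2 * β * (C * C₂) * x := by positivity
    nlinarith
  · have e : p' * q + p * q' + 2 * β * I * s * (1 - p * q) =
        (p' + 2 * β * I * s * (1 - p)) * q + p * (q' + 2 * β * I * s * (1 - q)) +
          2 * β * I * s * ((1 - p) * (1 - q)) := by ring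
    rw [e]
    refine (norm_add₃_le).trans ?_
    rw [norm_mul, norm_mul p, norm_mul (2 * β * I * s : ℂ), norm_mul (1 - p)]
    have h1 : ‖p' + 2 * β * I * s * (1 - p)‖ * ‖q‖ ≤ C * x ^ 2 * 1 :=
      mul_le_mul h.der_le hq1 (norm_nonneg _) (by positivity)
    have h2 : ‖p‖ * ‖q' + 2 * β * I * s * (1 - q)‖ ≤ 1 * (C₂ * x ^ 2) :=
      mul_le_mul hp1 h₂.der_le (norm_nonneg _) zero_le_one
    have h3 : ‖(2 * β * I * s : ℂ)‖ * (‖1 - p‖ * ‖1 - q‖) ≤ 2 * β * (C * x * (C₂ * x)) :=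
      mul_le_mul e3 (mul_le_mul h.sub_le h₂.sub_le (norm_nonneg _) (by positivity))
        (by positivity) (by positivity)
    nlinarith

/-- the derivative -/
theorem FarPt.norm_der_le (h : FarPt β c C s x p p') (hC : 0 ≤ C) (hβ : 0 ≤ β) (hs : |s| ≤ 1) :
    ‖p'‖ ≤ C * (1 + 2 * β) * x := by
  have hx := h.nn
  have hx1 := h.le1
  have e3 : ‖(2 * β * I * s : ℂ)‖ ≤ 2 * β := by
    rw [norm_mul, norm_mul, norm_mul, norm_I, norm_real, norm_real, Real.norm_eq_abs,
      Real.norm_eq_abs, abs_of_nonneg hβ]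
    simp only [Complex.norm_ofNat, mul_one]
    nlinarith
  have e : p' = (p' + 2 * β * I * s * (1 - p)) - 2 * β * I * s * (1 - p) := by ring
  rw [e]
  refine (norm_sub_le _ _).trans ?_
  rw [norm_mul (2 * β * I * s : ℂ)]
  have h1 := h.der_le
  have h2 : ‖(2 * β * I * s : ℂ)‖ * ‖1 - p‖ ≤ 2 * β * (C * x) :=
    mul_le_mul e3 h.sub_le (norm_nonneg _) (by positivity)
  have h3 : C * x ^ 2 ≤ C * x := by
    have : x ^ 2 ≤ x := by nlinarith
    exact mul_le_mul_of_nonneg_left this hC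
  linarith

/-- **The difference of two consecutive cutoffs, with a further kernel.** -/
theorem FarPt.diff_le' {c₂ C₂ : ℝ} (h : FarPt β c C s x p p') (h₂ : FarPt β c₂ C₂ s x q q')
    (hc : 0 < c) (hc₂ : 0 ≤ c₂) (hC : 0 ≤ C) {a : ℕ} (ha : 1 ≤ a) :
    ‖p ^ a * q * (1 - p)‖ ≤ C * (1 + 1 / c) / a * min 1 (a * x) := by
  have hx := h.nn
  have hq1 : ‖q‖ ≤ 1 := h₂.norm_le.trans (Real.exp_le_one_iff.2 (by
    have := mul_nonneg hc₂ hx
    linarith))
  have e : p ^ a * q * (1 - p) = p ^ a * (1 - p) * q := by ring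
  rw [e, norm_mul]
  exact (mul_le_of_le_one_right (norm_nonneg _) hq1).trans (h.diff_le hc hC ha)

/-- **The derivative of the cutoff `1 - p ^ a q` against the difference of two cutoffs.** -/
theorem FarPt.deriv_le' {c₂ C₂ : ℝ} (h : FarPt β c C s x p p') (h₂ : FarPt β c₂ C₂ s x q q')
    (hc : 0 < c) (hc₂ : 0 ≤ c₂) (hC : 0 ≤ C) (hC₂ : 0 ≤ C₂) (hβ : 0 ≤ β) (hs : |s| ≤ 1) {a : ℕ}
    (ha : 1 ≤ a) :
    ‖(a * p ^ (a - 1) * p' * q + p ^ a * q') + 2 * β * I * s * a * (p ^ a * q * (1 - p))‖ ≤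
      ((C + 2 * β * C ^ 2) * Real.exp c * (1 + 2 / c) ^ 2 + C₂ * (1 + 2 * β) * (1 + 1 / c)) / a *
        min 1 (a * x) := by
  have ha' : (0 : ℝ) < a := by exact_mod_cast ha
  have hx := h.nn
  have hq1 : ‖q‖ ≤ 1 := h₂.norm_le.trans (Real.exp_le_one_iff.2 (by
    have := mul_nonneg hc₂ hx
    linarith))
  have e : (a * p ^ (a - 1) * p' * q + p ^ a * q') + 2 * β * I * s * a * (p ^ a * q * (1 - p)) =
      (a * p ^ (a - 1) * p' + 2 * β * I * s * a * (p ^ a * (1 - p))) * q + p ^ a * q' := by ring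
  rw [e]
  refine (norm_add_le _ _).trans ?_
  rw [norm_mul, norm_mul (p ^ a)]
  have h1 := (mul_le_of_le_one_right (norm_nonneg _) hq1).trans (h.deriv_le hc hC hβ hs ha)
  have h2 : ‖p ^ a‖ * ‖q'‖ ≤ Real.exp (-(c * (a * x))) * (C₂ * (1 + 2 * β) * x) :=
    mul_le_mul (h.norm_pow_le a) (h₂.norm_der_le hC₂ hβ hs) (norm_nonneg _) (Real.exp_pos _).le
  have h3 := mul_exp_le hc (mul_nonneg ha'.le hx)
  have h4 : Real.exp (-(c * (a * x))) * (C₂ * (1 + 2 * β) * x) ≤
      C₂ * (1 + 2 * β) * (1 + 1 / c) / a * min 1 (a * x) := by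
    calc Real.exp (-(c * (a * x))) * (C₂ * (1 + 2 * β) * x) =
        C₂ * (1 + 2 * β) / a * (a * x * Real.exp (-(c * (a * x)))) := by field_simp
      _ ≤ C₂ * (1 + 2 * β) / a * ((1 + 1 / c) * min 1 (a * x)) := by gcongr
      _ = _ := by ring
  calc _ ≤ (C + 2 * β * C ^ 2) * Real.exp c * (1 + 2 / c) ^ 2 / a * min 1 (a * x) +
        C₂ * (1 + 2 * β) * (1 + 1 / c) / a * min 1 (a * x) := add_le_add h1 (h2.trans h4)
    _ = _ := by ring

end

/-! ### the kernel `psi` -/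

/-- the derivative of `psi β` -/
def psiD (β : ℝ) (z : ℂ) : ℂ :=
  -(4 * β * cos (β * l) * sin (2 * β * z + β * l)) / (cos (2 * β * z + β * l) + cos (β * l)) ^ 2

section
variable {β s₀ s : ℝ} {z : ℂ}

theorem hasDerivAt_psi (h : Adm β s₀) (hz : |z.re + l / 2| ≤ s₀) :
    HasDerivAt (psi β) (psiD β z) z := by
  have hd := den_ne h hz
  have h0 : HasDerivAt (fun z : ℂ => 2 * β * z + β * l) (2 * β) z := by
    simpa using ((hasDerivAt_id z).const_mul (2 * β : ℂ)).add_const (β * l : ℂ)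
  have h1 : HasDerivAt (fun z : ℂ => cos (2 * β * z + β * l))
      (-sin (2 * β * z + β * l) * (2 * β)) z := h0.ccos
  have h2 := (h1.sub_const (cos (β * l : ℂ))).div (h1.add_const (cos (β * l : ℂ))) hd
  refine h2.congr_deriv ?_
  unfold psiD
  congr 1
  ring

lemma one_sub_psi_eq (h : Adm β s₀) (hz : |z.re + l / 2| ≤ s₀) :
    1 - psi β z = 2 * cos (β * l) / (cos (2 * β * z + β * l) + cos (β * l)) := by
  have hd := den_ne h hz
  unfold psi
  rw [eq_div_iff hd, sub_mul, div_mul_cancel₀ _ hd]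
  ring

lemma norm_den_ge (h : Adm β s₀) (hz : |z.re + l / 2| ≤ s₀) :
    kap β s₀ / 2 * Real.exp (2 * β * |z.im|) ≤ ‖cos (2 * β * z + β * l) + cos (β * l)‖ := by
  refine le_trans ?_ ((den_re h hz).trans (re_le_norm _))
  have h1 := cosh_ge (2 * β * z.im)
  rw [abs_arg h] at h1
  have := mul_le_mul_of_nonneg_left h1 h.kap_pos.le
  linarith [h.cl_pos]

/-- **`psi` as a cutoff kernel.** -/
theorem farPt_psi (h : Adm β s₀) (hz : |z.re + l / 2| ≤ s₀)
    (hs : (s = 1 ∧ 0 ≤ z.im) ∨ (s = -1 ∧ z.im ≤ 0)) :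
    FarPt β (cl β * kap β s₀ / 2) (4 / kap β s₀ + 32 * β / kap β s₀ ^ 2) s
      (Real.exp (-(2 * β) * |z.im|)) (psi β z) (psiD β z) := by
  have hβ := h.pos
  have hk := h.kap_pos
  have hc := h.cl_pos
  have hx1 : Real.exp (-(2 * β) * |z.im|) ≤ 1 := Real.exp_le_one_iff.2 (by
    have := mul_nonneg hβ.le (abs_nonneg z.im)
    linarith)
  have hn1 := norm_one_sub_psi h hz
  have hd := den_ne h hz
  have hdn := norm_den_ge h hz
  refine ⟨(Real.exp_pos _).le, hx1, ?_, ?_, ?_⟩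
  · have := norm_psi h hz
    exact this
  · have h1 : 0 ≤ 32 * β / kap β s₀ ^ 2 * Real.exp (-(2 * β) * |z.im|) := by positivity
    rw [add_mul]
    linarith
  · obtain ⟨D, hD⟩ : ∃ D, D = cos (2 * β * z + β * l) + cos (β * l) := ⟨_, rfl⟩
    have hD0 : D ≠ 0 := hD ▸ hd
    have e : psiD β z + 2 * β * I * s * (1 - psi β z) =
        -(2 * β * (1 - psi β z)) * ((sin (2 * β * z + β * l) - I * s * D) / D) := by
      rw [one_sub_psi_eq h hz]
      unfold psiD
      rw [← hD]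
      field_simp
      ring
    have hnum : ‖sin (2 * β * z + β * l) - I * s * D‖ ≤ 2 := by
      have hcl : ‖cos (β * l : ℂ)‖ ≤ 1 := by
        rw [← ofReal_mul, ← ofReal_cos, norm_real, Real.norm_eq_abs]
        exact Real.abs_cos_le_one _
      have hI2 := Complex.I_mul_I
      rcases hs with ⟨rfl, h0⟩ | ⟨rfl, h0⟩
      · have e1 : sin (2 * β * z + β * l) - I * (1 : ℝ) * D =
            -(I * cexp ((2 * β * z + β * l) * I)) - I * cos (β * l) := by
          rw [hD, Complex.exp_mul_I]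
          push_cast
          linear_combination (sin (2 * β * z + β * l)) * hI2
        rw [e1]
        refine (norm_sub_le _ _).trans ?_
        rw [norm_neg, norm_mul, norm_mul, norm_I, one_mul, one_mul]
        have h2 : ‖cexp ((2 * β * z + β * l) * I)‖ ≤ 1 := by
          rw [Complex.norm_exp]
          refine Real.exp_le_one_iff.2 ?_
          have : ((2 * β * z + β * l) * I : ℂ).re = -(2 * β * z.im) := by simp
          rw [this]
          have := mul_nonneg hβ.le h0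
          linarith
        linarith
      · have e1 : sin (2 * β * z + β * l) - I * (-1 : ℝ) * D =
            I * cexp (-(2 * β * z + β * l) * I) + I * cos (β * l) := by
          rw [hD, Complex.exp_mul_I, Complex.cos_neg, Complex.sin_neg]
          push_cast
          linear_combination (sin (2 * β * z + β * l)) * hI2
        rw [e1]
        refine (norm_add_le _ _).trans ?_
        rw [norm_mul, norm_mul, norm_I, one_mul, one_mul]
        have h2 : ‖cexp (-(2 * β * z + β * l) * I)‖ ≤ 1 := by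
          rw [Complex.norm_exp]
          refine Real.exp_le_one_iff.2 ?_
          have : (-(2 * β * z + β * l) * I : ℂ).re = 2 * β * z.im := by simp
          rw [this]
          nlinarith
        linarith
    have hdn' : kap β s₀ / 2 * Real.exp (2 * β * |z.im|) ≤ ‖D‖ := hD ▸ hdn
    have hpos : 0 < kap β s₀ / 2 * Real.exp (2 * β * |z.im|) := by positivity
    have hq : ‖(sin (2 * β * z + β * l) - I * s * D) / D‖ ≤
        4 / kap β s₀ * Real.exp (-(2 * β) * |z.im|) := by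
      rw [norm_div]
      refine (div_le_div₀ (by norm_num) hnum hpos hdn').trans (le_of_eq ?_)
      rw [neg_mul, Real.exp_neg]
      field_simp
      norm_num
    rw [e, norm_mul, norm_neg, norm_mul]
    have e3 : ‖(2 * β : ℂ)‖ = 2 * β := by
      rw [norm_mul, norm_real, Real.norm_eq_abs, abs_of_pos hβ]
      simp
    rw [e3]
    calc 2 * β * ‖1 - psi β z‖ * _ ≤ 2 * β * (4 / kap β s₀ * Real.exp (-(2 * β) * |z.im|)) *
          (4 / kap β s₀ * Real.exp (-(2 * β) * |z.im|)) := by gcongr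
      _ = 32 * β / kap β s₀ ^ 2 * Real.exp (-(2 * β) * |z.im|) ^ 2 := by ring
      _ ≤ _ := by
        have : 0 ≤ 4 / kap β s₀ * Real.exp (-(2 * β) * |z.im|) ^ 2 := by positivity
        rw [add_mul]
        linarith

end

/-! ### rows of bounded height -/

/-- change of the point of reference -/
theorem FarPt.shift {β c C r s s' x y : ℝ} {p p' : ℂ} (h : FarPt β c C s y p p') (hβ : 0 ≤ β)
    (hc : 0 ≤ c) (hC : 0 ≤ C) (hr : 0 ≤ r) (hs : |s| ≤ 1) (hs' : |s'| ≤ 1) (hx0 : 0 ≤ x)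
    (hx1 : x ≤ 1) (h1 : y ≤ Real.exp (2 * β * r) * x) (h2 : x ≤ Real.exp (2 * β * r) * y)
    (h3 : s' ≠ s → Real.exp (-(2 * β * r)) ≤ x) :
    FarPt β (Real.exp (-(2 * β * r)) * c) ((1 + 4 * β) * Real.exp (2 * β * r) ^ 2 * C) s' x p p' := by
  have hE : 1 ≤ Real.exp (2 * β * r) := Real.one_le_exp (by positivity)
  have hy0 := h.nn
  have hy1 := h.le1
  have hEE : Real.exp (2 * β * r) * Real.exp (-(2 * β * r)) = 1 := by
    rw [← Real.exp_add]; simp
  have hE' := Real.exp_pos (-(2 * β * r))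
  obtain ⟨E, hEd⟩ : ∃ E, E = Real.exp (2 * β * r) := ⟨_, rfl⟩
  rw [← hEd] at hE h1 h2 hEE ⊢
  have e3 : ∀ {a : ℝ}, |a| ≤ 1 → ‖(2 * β * I * a : ℂ)‖ ≤ 2 * β := by
    intro a ha
    rw [norm_mul, norm_mul, norm_mul, norm_I, norm_real, norm_real, Real.norm_eq_abs,
      Real.norm_eq_abs, abs_of_nonneg hβ]
    simp only [Complex.norm_ofNat, mul_one]
    nlinarith
  refine ⟨hx0, hx1, ?_, ?_, ?_⟩
  · refine h.norm_le.trans (Real.exp_le_exp.2 ?_)
    have h4 : Real.exp (-(2 * β * r)) * x ≤ y := by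
      have := mul_le_mul_of_nonneg_left h2 hE'.le
      rw [← mul_assoc, mul_comm _ E, hEE, one_mul] at this
      exact this
    nlinarith
  · refine h.sub_le.trans ?_
    have h4 : C * y ≤ C * (E * x) := mul_le_mul_of_nonneg_left h1 hC
    have h5 : C * (E * x) ≤ (1 + 4 * β) * E ^ 2 * C * x := by
      have h6 : E ≤ (1 + 4 * β) * E ^ 2 := by nlinarith [mul_nonneg hβ (sq_nonneg E)]
      have h7 := mul_le_mul_of_nonneg_right h6 (mul_nonneg hC hx0)
      linarith
    exact h4.trans h5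
  · by_cases hss : s' = s
    · rw [hss]
      refine h.der_le.trans ?_
      have h4 : y ^ 2 ≤ (E * x) ^ 2 := pow_le_pow_left₀ hy0 h1 2
      calc C * y ^ 2 ≤ C * (E * x) ^ 2 := mul_le_mul_of_nonneg_left h4 hC
        _ = 1 * (E ^ 2 * C * x ^ 2) := by ring
        _ ≤ (1 + 4 * β) * (E ^ 2 * C * x ^ 2) := by
          refine mul_le_mul_of_nonneg_right (by linarith) (by positivity)
        _ = _ := by ring
    · have h5 := h3 hss
      have h6 : 1 ≤ E * x := by
        have := mul_le_mul_of_nonneg_left h5 (by linarith : (0 : ℝ) ≤ E)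
        rwa [hEE] at this
      have h7 : 1 ≤ (E * x) ^ 2 := one_le_pow₀ h6
      have e : p' + 2 * β * I * s' * (1 - p) =
          (p' + 2 * β * I * s * (1 - p)) + (2 * β * I * s' - 2 * β * I * s) * (1 - p) := by ring
      rw [e]
      refine (norm_add_le _ _).trans ?_
      rw [norm_mul (2 * β * I * s' - 2 * β * I * s : ℂ)]
      have h8 : ‖(2 * β * I * s' - 2 * β * I * s : ℂ)‖ ≤ 4 * β := by
        refine (norm_sub_le _ _).trans ?_
        linarith [e3 hs, e3 hs']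
      have h9 : ‖1 - p‖ ≤ C := h.sub_le.trans (by nlinarith)
      have h10 : ‖p' + 2 * β * I * s * (1 - p)‖ ≤ C := h.der_le.trans (by
        have : y ^ 2 ≤ 1 := by nlinarith
        nlinarith)
      have h11 : ‖(2 * β * I * s' - 2 * β * I * s : ℂ)‖ * ‖1 - p‖ ≤ 4 * β * C :=
        mul_le_mul h8 h9 (norm_nonneg _) (by positivity)
      calc _ ≤ C + 4 * β * C := add_le_add h10 h11
        _ = (1 + 4 * β) * C * 1 := by ring
        _ ≤ (1 + 4 * β) * C * (E * x) ^ 2 := mul_le_mul_of_nonneg_left h7 (by positivity)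
        _ = _ := by ring

/-- the sign of the end -/
def sg (t : ℝ) : ℝ := if 0 ≤ t then 1 else -1

lemma abs_sg (t : ℝ) : |sg t| ≤ 1 := by
  unfold sg
  split_ifs <;> simp

lemma sg_cases (t : ℝ) : (sg t = 1 ∧ 0 ≤ t) ∨ (sg t = -1 ∧ t ≤ 0) := by
  unfold sg
  split_ifs with h
  · exact Or.inl ⟨rfl, h⟩
  · exact Or.inr ⟨rfl, (not_le.1 h).le⟩

/-- constants of the kernel of a row of height at most `r` -/
def rowc (β s₀ r : ℝ) : ℝ := Real.exp (-(2 * β * r)) * (cl β * kap β s₀ / 2)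

/-- constants of the kernel of a row of height at most `r` -/
def rowC (β s₀ r : ℝ) : ℝ :=
  (1 + 4 * β) * Real.exp (2 * β * r) ^ 2 * (4 / kap β s₀ + 32 * β / kap β s₀ ^ 2)

/-- **The kernel of a row of height at most `r`.** -/
theorem farPt_row {β s₀ r : ℝ} (h : Adm β s₀) (hr : 0 ≤ r) {u x₀ : ℂ} (hx : |x₀.im| ≤ r)
    (hu : |(u - x₀).re + l / 2| ≤ s₀) :
    FarPt β (rowc β s₀ r) (rowC β s₀ r) (sg u.im) (Real.exp (-(2 * β) * |u.im|))
      (psi β (u - x₀)) (psiD β (u - x₀)) := by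
  have hβ := h.pos
  have hk := h.kap_pos
  have hc := h.cl_pos
  have h0 := farPt_psi h hu (sg_cases (u - x₀).im)
  have him : (u - x₀).im = u.im - x₀.im := sub_im u x₀
  have hd1 : |u.im| ≤ |(u - x₀).im| + r := by
    have h1 := abs_sub_abs_le_abs_sub u.im x₀.im
    rw [him]
    linarith
  have hd2 : |(u - x₀).im| ≤ |u.im| + r := by
    have h1 := abs_sub u.im x₀.im
    rw [him]
    linarith
  refine h0.shift hβ.le (by positivity) (by positivity) hr (abs_sg _) (abs_sg _)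
    (Real.exp_pos _).le (Real.exp_le_one_iff.2 ?_) ?_ ?_ ?_
  · have := mul_nonneg hβ.le (abs_nonneg u.im)
    linarith
  · rw [← Real.exp_add]
    refine Real.exp_le_exp.2 ?_
    nlinarith
  · rw [← Real.exp_add]
    refine Real.exp_le_exp.2 ?_
    nlinarith
  · intro hne
    refine Real.exp_le_exp.2 ?_
    have h5 : |u.im| ≤ r := by
      by_contra hcon
      rw [not_le] at hcon
      apply hne
      obtain ⟨a1, a2⟩ := abs_le.1 hx
      unfold sg
      rcases le_total 0 u.im with h6 | h6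
      · rw [abs_of_nonneg h6] at hcon
        rw [if_pos h6, if_pos]
        rw [him]
        linarith
      · rw [abs_of_nonpos h6] at hcon
        rw [if_neg (by linarith), if_neg]
        rw [him]
        linarith
    nlinarith

theorem rowc_pos {β s₀ : ℝ} (h : Adm β s₀) (r : ℝ) : 0 < rowc β s₀ r := by
  have := h.kap_pos
  have := h.cl_pos
  unfold rowc
  positivity

theorem rowC_pos {β s₀ : ℝ} (h : Adm β s₀) (r : ℝ) : 0 < rowC β s₀ r := by
  have := h.kap_pos
  have := h.pos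
  unfold rowC
  positivity

end Pool.Agent.PB

end
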