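import Pool.Agent.PB.Far3
import Pool.Agent.PB.FieldR

/-!
# Plan B, far end: the field of the moved row, rows `0`

Rows `x = Fin.cons (η I) 0 : Fin (a + 1) → ℂ`, moved row `0`, field `xiR x 0`:
* `fl_xiR` : the field on any line `re = r`, `|r - l| ≤ b < l`, is a field `Fl` with the limits `xe`;
* `exact_rows` : the transport condition of the rows is exact for `b = 4 / 3`;
* `far_R0` : hence `|(∂_η + ξ ∂_t) phi_{4/3}| ≤ C a ^ (-3) |phi_{4/3}|`, rows only.
-/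

set_option autoImplicit false

open Complex Finset

noncomputable section

namespace PBFar

open NUP1 NURow PBForce

/-- the rows: `η I` and `a` rows at `0` -/
def rwx (a : ℕ) (η : ℝ) : Fin (a + 1) → ℂ := Fin.cons ((η : ℂ) * I) (fun _ : Fin a => 0)

theorem rwx_zero (a : ℕ) (η : ℝ) : rwx a η 0 = η * I := rfl

theorem rwx_succ (a : ℕ) (η : ℝ) (i : Fin a) : rwx a η i.succ = 0 := rfl

theorem ofFn_rwx (a : ℕ) (η : ℝ) : List.ofFn (rwx a η) = ((η : ℂ) * I) :: List.replicate a 0 := by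
  rw [List.ofFn_succ, rwx_zero]
  congr 1
  simp only [rwx_succ]
  exact List.ofFn_const a 0

theorem rws_rwx (a : ℕ) {η : ℝ} (hη : |η| ≤ 1) : Rws0 (rwx a η) where
  re := by
    refine Fin.cases ?_ ?_
    · rw [rwx_zero]; simp
    · intro i; rw [rwx_succ]; simp
  im := by
    refine Fin.cases ?_ ?_
    · rw [rwx_zero]; simpa using hη
    · intro i; rw [rwx_succ]; simp

/-- the limits of the field -/
def xe (a : ℕ) (η σ : ℝ) : ℂ := ((Real.exp (8 / 3 * (σ * η)) / (a + Real.exp (8 / 3 * (σ * η))) : ℝ) : ℂ)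

theorem sum_rwx (a : ℕ) (η : ℝ) (f : ℝ → ℝ) : ∑ i, f (rwx a η i).im = a * f 0 + f η := by
  rw [Fin.sum_univ_succ, rwx_zero]
  simp only [rwx_succ]
  rw [Finset.sum_const, card_univ, Fintype.card_fin, nsmul_eq_mul]
  simp
  ring

theorem xe_one (a : ℕ) (η : ℝ) : (xiP (rwx a η) 0 : ℂ) = xe a η 1 := by
  unfold xiP xe
  rw [sum_rwx a η fun y => Real.exp (8 / 3 * y), rwx_zero]
  congr 1
  simp

theorem xe_neg (a : ℕ) (η : ℝ) : (xiM (rwx a η) 0 : ℂ) = xe a η (-1) := by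
  unfold xiM xe
  rw [sum_rwx a η fun y => Real.exp (-(8 / 3 * y)), rwx_zero]
  congr 1
  simp

/-- **the field on a line** -/
theorem fl_xiR {b : ℝ} (hb0 : 0 ≤ b) (hb : b < l) : ∃ C0 : ℝ, 1 ≤ C0 ∧ ∀ a : ℕ, 1 ≤ a →
    ∀ η : ℝ, |η| ≤ 1 → ∀ r : ℝ, |r - l| ≤ b →
      Fl a C0 (fun t => xiR (rwx a η) 0 (vl r t)) (xe a η) := by
  obtain ⟨C1, hC1, h1⟩ := xiR_right hb0 hb
  obtain ⟨C2, hC2, h2⟩ := xiR_left hb0 hb
  set C := max 1 (max (Real.exp (16 / 3)) (max C1 C2)) with hC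
  have c0 : 1 ≤ C := le_max_left _ _
  have c1 : Real.exp (16 / 3) ≤ C := (le_max_left _ _).trans (le_max_right _ _)
  have c2 : C1 ≤ C := (le_max_left _ _).trans ((le_max_right _ _).trans (le_max_right _ _))
  have c3 : C2 ≤ C := (le_max_right _ _).trans ((le_max_right _ _).trans (le_max_right _ _))
  refine ⟨C, c0, fun a ha η hη r hr => ?_⟩
  have hx := rws_rwx a hη
  have ha0 : (0 : ℝ) < a := by exact_mod_cast ha
  have hcast : ((a + 1 : ℕ) : ℝ) = a + 1 := by push_cast; ring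
  have hdiv : ∀ {K : ℝ}, 0 ≤ K → K ≤ C → K / ((a + 1 : ℕ) : ℝ) ≤ C / a := by
    intro K hK0 hK
    rw [hcast]
    exact div_le_div₀ (by linarith) hK ha0 (by linarith)
  have hre : ∀ t : ℝ, |(vl r t - l).re| ≤ b := by
    intro t
    have : (vl r t - l).re = r - l := by unfold vl; simp
    rw [this]
    exact hr
  have him : ∀ t : ℝ, (vl r t).im = t := fun t => by unfold vl; simp
  have he : ∀ t : ℝ, Real.exp (-(32 / 3 * |t|)) ≤ Real.exp (-(16 / 3 * |t|)) := fun t =>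
    Real.exp_le_exp.2 (by linarith [abs_nonneg t])
  refine ⟨?_, ?_⟩
  · intro σ hσ
    rcases hσ with rfl | rfl
    · rw [← xe_one, Complex.norm_real, Real.norm_of_nonneg (xiP_nonneg _ _)]
      exact (xiP_le hx 0).trans (hdiv (Real.exp_pos _).le c1)
    · rw [← xe_neg, Complex.norm_real, Real.norm_of_nonneg (xiM_nonneg _ _)]
      exact (xiM_le hx 0).trans (hdiv (Real.exp_pos _).le c1)
  · intro σ hσ t ht
    rcases hσ with rfl | rfl
    · rw [one_mul] at ht ⊢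
      have := h1 (a + 1) (rwx a η) 0 hx (vl r t) (hre t) (by rw [him]; exact ht)
      rw [him] at this
      rw [← xe_one]
      refine this.trans ?_
      have e1 := he t
      rw [abs_of_nonneg ht] at e1 ⊢
      exact mul_le_mul (hdiv hC1.le c2) e1 (Real.exp_pos _).le (by positivity)
    · have ht' : t ≤ 0 := by linarith
      have := h2 (a + 1) (rwx a η) 0 hx (vl r t) (hre t) (by rw [him]; exact ht')
      rw [him] at this
      rw [← xe_neg]
      refine this.trans ?_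
      have e1 := he t
      rw [abs_of_nonpos ht'] at e1 ⊢
      rw [show (-1 : ℝ) * t = -t by ring]
      exact mul_le_mul (hdiv hC2.le c3) e1 (Real.exp_pos _).le (by positivity)

theorem Ep_row (η σ : ℝ) : Ep σ (4 / 3) ((η : ℂ) * I) = ((Real.exp (8 / 3 * (σ * η)) : ℝ) : ℂ) := by
  unfold Ep
  rw [Complex.ofReal_exp]
  congr 1
  push_cast
  linear_combination (-(8 / 3 * σ * η : ℂ)) * I_mul_I

/-- **the transport condition of the rows is exact**, `b = 4 / 3` -/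
theorem exact_rows (a : ℕ) (η σ : ℝ) : I * Ep σ (4 / 3) ((η : ℂ) * I) -
    I * xe a η σ * (a + Ep σ (4 / 3) ((η : ℂ) * I)) = 0 := by
  rw [Ep_row]
  unfold xe
  set E := Real.exp (8 / 3 * (σ * η)) with hE
  have hE0 : 0 < E := Real.exp_pos _
  have hn : ((a : ℂ) + (E : ℂ)) ≠ 0 := by
    have : (0 : ℝ) < a + E := by positivity
    exact_mod_cast this.ne'
  push_cast
  field_simp
  ring

theorem re_row (η : ℝ) : |((η : ℂ) * I).re| ≤ l / 2 := by
  have := l_pos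
  simp
  positivity

theorem im_row {η : ℝ} (hη : |η| ≤ 1) : |((η : ℂ) * I).im| ≤ 2 := by
  simp
  linarith

/-- **far end of the rows' cutoff `phi_{4/3}`** -/
theorem far_R0 {s : ℝ} (h : Hyp (4 / 3) s) {a : ℕ} (ha : n0 (4 / 3) s 1 ≤ a) {η : ℝ} (hη : |η| ≤ 1)
    {C0 : ℝ} (hC0 : 1 ≤ C0) {ξ : ℝ → ℂ} (hF : Fl a C0 ξ (xe a η)) {u : ℂ} (hu : |u.re + l / 2| ≤ s) :
    ‖DR (4 / 3) a ((η : ℂ) * I) I (ξ u.im) u‖ ≤ CF (4 / 3) s C0 1 / (a : ℝ) ^ 3 *
      ‖NUP1.phi (4 / 3) (((η : ℂ) * I) :: List.replicate a 0) u‖ := by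
  have := far_R_tr h ha (re_row η) (im_row hη) (v := I) (by rw [Complex.norm_I]; exact hC0) hF
    (δ := 0) (fun σ _ => by rw [exact_rows, norm_zero]) hu
  simpa using this

/-- the same with the product kept, `|t| ≥ 3` -/
theorem far_R0_prod {s : ℝ} (h : Hyp (4 / 3) s) {a : ℕ} (ha : 1 ≤ a) {η : ℝ} (hη : |η| ≤ 1)
    {C0 : ℝ} (hC0 : 1 ≤ C0) {ξ : ℝ → ℂ} (hF : Fl a C0 ξ (xe a η)) {u : ℂ} (hu : |u.re + l / 2| ≤ s)
    (ht : 3 ≤ |u.im|) :
    ‖DR (4 / 3) a ((η : ℂ) * I) I (ξ u.im) u‖ ≤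
      (C0 * (11 * (2 + Real.exp (4 * (4 / 3))) + 200 * Real.exp (12 * (4 / 3)) * 3 + 800)) *
        Real.exp (-(8 * |u.im|)) *
        ‖1 - NUP1.phi (4 / 3) (((η : ℂ) * I) :: List.replicate a 0) u‖ := by
  have := far_R_prod h ha (re_row η) (im_row hη) (v := I) (by rw [Complex.norm_I]; exact hC0) hF
    (δ := 0) (fun σ _ => by rw [exact_rows, norm_zero]) hu ht
  rw [show 6 * (4 / 3 : ℝ) = 8 by norm_num, mul_zero, zero_mul, add_zero] at this
  exact this

end PBFar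

end
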