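import Pool.Agent.PB.FarTr

/-!
# Plan B, far end: the transported cutoff, final form

`phT β L x₁ Ξ η u = 1 - (∏_{x ∈ L} psi (u - x)) psi (u - (x₁ + i η)) (1 - a₊ sgm₊ - a₋ sgm₋)`:
admissible cutoff (`= 1` at the rows and at the rows `- l`) of the fixed rows `L` and the moving row
`x₁ + i η`.  `Ξ s η` = primitive of the translation `ξ s η` of the end `s`.  With the coefficients
`cfa` the cutoff moves with the ends of the sea: `phT_transport`.
-/

set_option autoImplicit false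

open Complex

noncomputable section

namespace Pool.Agent.PB

open NUP1

/-- sum of the coefficients of the fixed rows -/
def cofL (β s : ℝ) (L : List ℂ) : ℂ := (L.map (cof β s)).sum

/-- the transported coefficient of the end `s` -/
def cfa (β s : ℝ) (L : List ℂ) (x₁ : ℂ) (Ξ : ℝ → ℂ) (η : ℝ) : ℂ :=
  (cofL β s L + cof β s x₁) * cexp (2 * β * s * Ξ η) - cofL β s L - cof β s (x₁ + I * η)

/-- the kernel of all the rows -/
def prL (β : ℝ) (L : List ℂ) (u : ℂ) : ℂ := (L.map fun x => psi β (u - x)).prod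

/-- the correction factor -/
def corr (β : ℝ) (L : List ℂ) (x₁ : ℂ) (Ξ : ℝ → ℝ → ℂ) (η : ℝ) (u : ℂ) : ℂ :=
  1 - cfa β 1 L x₁ (Ξ 1) η * sgm β 1 u - cfa β (-1) L x₁ (Ξ (-1)) η * sgm β (-1) u

/-- **the transported cutoff** -/
def phT (β : ℝ) (L : List ℂ) (x₁ : ℂ) (Ξ : ℝ → ℝ → ℂ) (η : ℝ) (u : ℂ) : ℂ :=
  1 - prL β L u * psi β (u - (x₁ + I * η)) * corr β L x₁ Ξ η u

/-! ### values at the rows -/

theorem phT_row {β : ℝ} {L : List ℂ} {x₁ : ℂ} {Ξ : ℝ → ℝ → ℂ} {η : ℝ} {x : ℂ} (hx : x ∈ L) :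
    phT β L x₁ Ξ η x = 1 ∧ phT β L x₁ Ξ η (x - l) = 1 := by
  have h1 : prL β L x = 0 := List.prod_eq_zero (List.mem_map.2 ⟨x, hx, by simp⟩)
  have h2 : prL β L (x - l) = 0 := List.prod_eq_zero (List.mem_map.2 ⟨x, hx, by
    rw [show x - l - x = -(l : ℂ) by ring, psi_neg_l]⟩)
  unfold phT
  rw [h1, h2]
  constructor <;> ring

theorem phT_row₁ {β : ℝ} {L : List ℂ} {x₁ : ℂ} {Ξ : ℝ → ℝ → ℂ} {η : ℝ} :
    phT β L x₁ Ξ η (x₁ + I * η) = 1 ∧ phT β L x₁ Ξ η (x₁ + I * η - l) = 1 := by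
  unfold phT
  constructor
  · rw [sub_self, psi_zero]; ring
  · rw [show x₁ + I * η - l - (x₁ + I * η) = -(l : ℂ) by ring, psi_neg_l]; ring

/-! ### the product of the fixed rows -/

section
variable {β s₀ r : ℝ} {u : ℂ} {L : List ℂ}

theorem prL_far (h : Adm β s₀) (hr : 0 ≤ r) (hL : ∀ x ∈ L, |x.im| ≤ r)
    (hu : ∀ x ∈ L, |(u - x).re + l / 2| ≤ s₀) :
    ∃ b' : ℂ, HasDerivAt (prL β L) b' u ∧
      FarProd β (rowc β s₀ r) (prC β s₀ r) (sg u.im) (Real.exp (-(2 * β) * |u.im|))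
        (Ep β (sg u.im) u) L.length (cofL β (sg u.im) L) (prL β L u) b' := by
  have hC := (prC_pos h r).le
  induction L with
  | nil =>
    refine ⟨0, ?_, ?_⟩
    · have e : prL β [] = fun _ => (1 : ℂ) := by
        funext v
        simp [prL]
      rw [e]
      exact hasDerivAt_const _ _
    · have e1 : cofL β (sg u.im) [] = 0 := by simp [cofL]
      have e2 : prL β [] u = 1 := by simp [prL]
      rw [e1, e2]
      exact FarProd.one
  | cons x L ih =>
    obtain ⟨b', h1, h2⟩ := ih (fun y hy => hL y (by simp [hy])) fun y hy => hu y (by simp [hy])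
    have hx := hu x (by simp)
    have g1 : HasDerivAt (fun v => psi β (v - x)) (psiD β (u - x)) u := by
      have := (hasDerivAt_psi h hx).comp_sub_const u x
      simpa using this
    have g2 := farProd_row h hr (hL x (by simp)) hx
    have e : prL β (x :: L) = fun v => psi β (v - x) * prL β L v := by
      funext v
      simp [prL]
    refine ⟨psiD β (u - x) * prL β L u + psi β (u - x) * b', ?_, ?_⟩
    · rw [e]
      exact g1.mul h1
    · have g3 := g2.mul h2 hC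
      have e1 : cofL β (sg u.im) (x :: L) = cof β (sg u.im) x + cofL β (sg u.im) L := by
        simp [cofL]
      have e2 : (x :: L).length = 1 + L.length := by
        rw [List.length_cons]; ring
      rw [e1, e2, congrFun e u]
      exact g3

theorem norm_one_sub_prL (h : Adm β s₀) (hr : 0 ≤ r) (hL : ∀ x ∈ L, |x.im| ≤ r)
    (hu : ∀ x ∈ L, |(u - x).re + l / 2| ≤ s₀) :
    ‖1 - prL β L u‖ ≤ rowC β s₀ r * (L.length * Real.exp (-(2 * β) * |u.im|)) := by
  induction L with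
  | nil => simp [prL]
  | cons x L ih =>
    have h1 := ih (fun y hy => hL y (by simp [hy])) fun y hy => hu y (by simp [hy])
    have h2 := farPt_row h hr (hL x (by simp)) (hu x (by simp))
    have e : 1 - prL β (x :: L) u = (1 - psi β (u - x)) + psi β (u - x) * (1 - prL β L u) := by
      simp [prL]; ring
    have h3 : ‖psi β (u - x)‖ ≤ 1 := norm_psi_le_one h (hu x (by simp))
    have h4 := rowC_pos h r
    rw [e]
    refine (norm_add_le _ _).trans ?_
    rw [norm_mul, List.length_cons]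
    have h5 : ‖psi β (u - x)‖ * ‖1 - prL β L u‖ ≤
        1 * (rowC β s₀ r * (L.length * Real.exp (-(2 * β) * |u.im|))) :=
      mul_le_mul h3 h1 (norm_nonneg _) zero_le_one
    have h6 := h2.sub_le
    push_cast
    linarith

end

/-! ### the coefficients -/

lemma cof_add (β s : ℝ) (x₁ : ℂ) (η : ℝ) :
    cof β s (x₁ + I * η) = cof β s x₁ * cexp (2 * β * s * η) := by
  unfold cof
  rw [mul_assoc (4 * cos (β * l : ℂ)), ← Complex.exp_add]
  congr 2
  linear_combination (-(2 * β * s * η)) * Complex.I_mul_I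

/-- derivative of the coefficient -/
theorem hasDerivAt_cfa (β s : ℝ) (L : List ℂ) (x₁ : ℂ) {Ξ : ℝ → ℂ} {ξs : ℂ} {η : ℝ}
    (hΞ : HasDerivAt Ξ ξs η) :
    HasDerivAt (fun η => cfa β s L x₁ Ξ η)
      (2 * β * s * (ξs * (cofL β s L + cof β s (x₁ + I * η) + cfa β s L x₁ Ξ η) -
        cof β s (x₁ + I * η))) η := by
  have h1 : HasDerivAt (fun η : ℝ => cexp (2 * β * s * Ξ η))
      (cexp (2 * β * s * Ξ η) * (2 * β * s * ξs)) η := by
    exact (hΞ.const_mul (2 * β * s : ℂ)).cexp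
  have h2 : HasDerivAt (fun η : ℝ => cof β s (x₁ + I * η))
      (cof β s (x₁ + I * η) * (2 * β * s)) η := by
    have e : (fun η : ℝ => cof β s (x₁ + I * η)) = fun η : ℝ => cof β s x₁ * cexp (2 * β * s * η) :=
      funext fun η => cof_add β s x₁ η
    rw [e, cof_add]
    have h3 : HasDerivAt (fun η : ℝ => cexp (2 * β * s * η)) (cexp (2 * β * s * η) * (2 * β * s)) η := by
      have := ((hasDerivAt_id η).ofReal_comp.const_mul (2 * β * s : ℂ)).cexp
      simpa using this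
    refine (h3.const_mul _).congr_deriv ?_
    ring
  have h3 := ((h1.const_mul (cofL β s L + cof β s x₁)).sub_const (cofL β s L)).sub h2
  refine h3.congr_deriv ?_
  unfold cfa
  ring

lemma norm_exp_sub_one_le' (y : ℂ) : ‖cexp y - 1‖ ≤ ‖y‖ * Real.exp ‖y‖ := by
  have h := Complex.norm_exp_sub_sum_le_norm_mul_exp y 1
  simpa using h

/-- bound of the coefficient -/
theorem norm_cfa_le {β s₀ s r K C : ℝ} (h : Adm β s₀) (hs : |s| ≤ 1) {L : List ℂ} {x₁ : ℂ}
    (hC : 0 ≤ C) (hK : 0 ≤ K) (hn : 1 ≤ L.length) (hL : ‖cofL β s L‖ ≤ C * L.length)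
    {Ξ : ℝ → ℂ} {η : ℝ} (hx : |x₁.im| ≤ r) (hx' : |(x₁ + I * η).im| ≤ r)
    (hΞ : ‖Ξ η‖ ≤ K / L.length) :
    ‖cfa β s L x₁ Ξ η‖ ≤ (C + 4 * Real.exp (2 * β * r)) * (2 * β * K * Real.exp (2 * β * K)) +
      8 * Real.exp (2 * β * r) := by
  have hβ := h.pos
  have hn0 : (1 : ℝ) ≤ L.length := by exact_mod_cast hn
  have hn' : (0 : ℝ) < L.length := by linarith
  obtain ⟨n, hnd⟩ : ∃ n : ℝ, n = L.length := ⟨_, rfl⟩
  rw [← hnd] at hn0 hn' hL hΞ
  have c1 := norm_cof_le h hs hx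
  have c2 := norm_cof_le h hs hx'
  obtain ⟨G, hG⟩ : ∃ G, G = Real.exp (2 * β * r) := ⟨_, rfl⟩
  rw [← hG] at c1 c2 ⊢
  have hG0 : 0 ≤ G := hG ▸ (Real.exp_pos _).le
  have e : cfa β s L x₁ Ξ η = (cofL β s L + cof β s x₁) * (cexp (2 * β * s * Ξ η) - 1) +
      (cof β s x₁ - cof β s (x₁ + I * η)) := by
    unfold cfa
    ring
  have h1 : ‖cexp (2 * β * s * Ξ η) - 1‖ ≤ 2 * β * K / n * Real.exp (2 * β * K) := by
    refine (norm_exp_sub_one_le' _).trans ?_
    have h3 : ‖2 * β * s * Ξ η‖ ≤ 2 * β * K / n := by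
      have hs2 : ‖(2 * β * s : ℂ)‖ ≤ 2 * β := by
        rw [norm_mul, norm_mul, norm_real, norm_real, Real.norm_eq_abs, Real.norm_eq_abs,
          abs_of_pos hβ]
        simp only [Complex.norm_ofNat]
        nlinarith
      rw [norm_mul]
      calc ‖(2 * β * s : ℂ)‖ * ‖Ξ η‖ ≤ 2 * β * (K / n) := by gcongr
        _ = _ := by ring
    have h4 : 2 * β * K / n ≤ 2 * β * K := div_le_self (by positivity) hn0
    calc _ ≤ 2 * β * K / n * Real.exp (2 * β * K) := by
          gcongr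
          exact h3.trans h4
      _ = _ := rfl
  rw [e]
  refine (norm_add_le _ _).trans ?_
  rw [norm_mul]
  have h5 : ‖cofL β s L + cof β s x₁‖ ≤ (C + 4 * G) * n := by
    refine (norm_add_le _ _).trans ?_
    have : 4 * G * 1 ≤ 4 * G * n := mul_le_mul_of_nonneg_left hn0 (by positivity)
    linarith
  have h6 : ‖cofL β s L + cof β s x₁‖ * ‖cexp (2 * β * s * Ξ η) - 1‖ ≤
      (C + 4 * G) * (2 * β * K * Real.exp (2 * β * K)) := by
    calc _ ≤ (C + 4 * G) * n * (2 * β * K / n * Real.exp (2 * β * K)) := by gcongr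
      _ = _ := by field_simp
  have h7 : ‖cof β s x₁ - cof β s (x₁ + I * η)‖ ≤ 8 * G := by
    refine (norm_sub_le _ _).trans ?_
    linarith
  linarith

/-! ### the transport estimate -/

/-- the correction factor at the end `s` in the form of `corr_le` -/
theorem corr_eq (β : ℝ) (L : List ℂ) (x₁ : ℂ) (Ξ : ℝ → ℝ → ℂ) (η : ℝ) (u : ℂ) {s : ℝ}
    (hs : s = 1 ∨ s = -1) : corr β L x₁ Ξ η u =
      1 - cfa β s L x₁ (Ξ s) η * sgm β s u - cfa β (-s) L x₁ (Ξ (-s)) η * sgm β (-s) u := by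
  rcases hs with rfl | rfl
  · rfl
  · rw [neg_neg]
    unfold corr
    ring

/-- constant bounding all the coefficients and their derivatives -/
def KA (β s₀ r K : ℝ) : ℝ :=
  K + (prC β s₀ r + 4 * Real.exp (2 * β * r)) * (2 * β * K * Real.exp (2 * β * K)) +
    8 * Real.exp (2 * β * r)

/-- constant -/
def KB (β s₀ r K : ℝ) : ℝ :=
  KA β s₀ r K + 2 * β * (K * (prC β s₀ r + 4 * Real.exp (2 * β * r) + KA β s₀ r K) +
    4 * Real.exp (2 * β * r))

/-- constant -/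
def KCf (β s₀ r K : ℝ) : ℝ := (8 + 40 * β) * KB β s₀ r K

/-- the final constant -/
def KT (β s₀ r K : ℝ) : ℝ :=
  (prC β s₀ r * (1 + KCf β s₀ r K) + KCf β s₀ r K + KCf β s₀ r K * (2 * prC β s₀ r *
    (1 + KCf β s₀ r K) + KCf β s₀ r K) + 2 * β * prC β s₀ r * KCf β s₀ r K +
      4 * β * KCf β s₀ r K ^ 2 * prC β s₀ r +
        2 * β * KCf β s₀ r K * (2 * prC β s₀ r + KCf β s₀ r K)) * (1 + 2 / rowc β s₀ r) ^ 2

/-- hypotheses on the rows, the point and the translations of the two ends -/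
structure TrData (β s₀ r K : ℝ) (L : List ℂ) (x₁ : ℂ) (Ξ : ℝ → ℝ → ℂ) (ξs : ℝ → ℂ) (η : ℝ)
    (u : ℂ) : Prop where
  adm : Adm β s₀
  r0 : 0 ≤ r
  K0 : 0 ≤ K
  len : 1 ≤ L.length
  hL : ∀ x ∈ L, |x.im| ≤ r
  h1 : |x₁.im| ≤ r
  h1' : |(x₁ + I * η).im| ≤ r
  hu : |u.re + l / 2| ≤ s₀
  huL : ∀ x ∈ L, |(u - x).re + l / 2| ≤ s₀
  hu1 : |(u - (x₁ + I * η)).re + l / 2| ≤ s₀
  der : ∀ s : ℝ, s = 1 ∨ s = -1 → HasDerivAt (Ξ s) (ξs s) η
  Xle : ∀ s : ℝ, s = 1 ∨ s = -1 → ‖Ξ s η‖ ≤ K / L.length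
  xle : ∀ s : ℝ, s = 1 ∨ s = -1 → ‖ξs s‖ ≤ K / L.length

section
variable {β s₀ r K : ℝ} {L : List ℂ} {x₁ : ℂ} {Ξ : ℝ → ℝ → ℂ} {ξs : ℝ → ℂ} {η : ℝ} {u : ℂ}

theorem norm_cofL_le (h : Adm β s₀) (hL : ∀ x ∈ L, |x.im| ≤ r) {s : ℝ}
    (hs : |s| ≤ 1) : ‖cofL β s L‖ ≤ prC β s₀ r * L.length := by
  induction L with
  | nil => simp [cofL]
  | cons x L ih =>
    have h1 := ih fun y hy => hL y (by simp [hy])
    have h2 := norm_cof_le h hs (hL x (by simp))
    have h3 : 4 * Real.exp (2 * β * r) ≤ prC β s₀ r := by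
      have := h.kap_pos
      have := h.pos
      have := rowC_pos h r
      unfold prC
      have : 0 ≤ (rowC β s₀ r + 2 * β * (4 * Real.exp (2 * β * r) ^ 2 *
        (2 + Real.exp (2 * β * r)) / kap β s₀) +
        8 * β * Real.exp (2 * β * r) * rowC β s₀ r) * Real.exp (rowc β s₀ r) := by positivity
      linarith
    have e : cofL β s (x :: L) = cof β s x + cofL β s L := by simp [cofL]
    rw [e, List.length_cons]
    refine (norm_add_le _ _).trans ?_
    push_cast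
    linarith

lemma TrData.G_le (T : TrData β s₀ r K L x₁ Ξ ξs η u) : 4 * Real.exp (2 * β * r) ≤ prC β s₀ r := by
  have h := T.adm
  have := h.kap_pos
  have := h.pos
  have := rowC_pos h r
  unfold prC
  have : 0 ≤ (rowC β s₀ r + 2 * β * (4 * Real.exp (2 * β * r) ^ 2 *
    (2 + Real.exp (2 * β * r)) / kap β s₀) +
    8 * β * Real.exp (2 * β * r) * rowC β s₀ r) * Real.exp (rowc β s₀ r) := by positivity
  linarith

theorem TrData.cfa_le (T : TrData β s₀ r K L x₁ Ξ ξs η u) {s : ℝ} (hs : s = 1 ∨ s = -1) :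
    ‖cfa β s L x₁ (Ξ s) η‖ ≤ KA β s₀ r K := by
  have hs' : |s| ≤ 1 := by rcases hs with rfl | rfl <;> simp
  have h1 := norm_cfa_le T.adm hs' (prC_pos T.adm r).le T.K0 T.len
    (norm_cofL_le T.adm T.hL hs') T.h1 T.h1' (T.Xle s hs)
  unfold KA
  linarith [T.K0]

/-- the derivative of the coefficient -/
def cfa' (β s : ℝ) (L : List ℂ) (x₁ : ℂ) (Ξ : ℝ → ℝ → ℂ) (ξs : ℝ → ℂ) (η : ℝ) : ℂ :=
  2 * β * s * (ξs s * (cofL β s L + cof β s (x₁ + I * η) + cfa β s L x₁ (Ξ s) η) -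
    cof β s (x₁ + I * η))

theorem TrData.KA0 (T : TrData β s₀ r K L x₁ Ξ ξs η u) : 0 ≤ KA β s₀ r K := by
  have := T.K0
  have := T.adm.pos
  have := prC_pos T.adm r
  unfold KA
  positivity

theorem TrData.cfa'_le (T : TrData β s₀ r K L x₁ Ξ ξs η u) {s : ℝ} (hs : s = 1 ∨ s = -1) :
    ‖cfa' β s L x₁ Ξ ξs η‖ ≤ KB β s₀ r K := by
  have hs' : |s| ≤ 1 := by rcases hs with rfl | rfl <;> simp
  have hβ := T.adm.pos
  have hK := T.K0
  have hC := prC_pos T.adm r
  have hA := T.KA0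
  have hn0 : (1 : ℝ) ≤ L.length := by exact_mod_cast T.len
  have hn' : (0 : ℝ) < L.length := by linarith
  have c0 := norm_cofL_le T.adm T.hL hs'
  have c1 := norm_cof_le T.adm hs' T.h1'
  have c2 := T.cfa_le hs
  have hs2 : ‖(2 * β * s : ℂ)‖ ≤ 2 * β := by
    rw [norm_mul, norm_mul, norm_real, norm_real, Real.norm_eq_abs, Real.norm_eq_abs,
      abs_of_pos hβ]
    simp only [Complex.norm_ofNat]
    nlinarith
  obtain ⟨n, hnd⟩ : ∃ n : ℝ, n = L.length := ⟨_, rfl⟩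
  have hx := T.xle s hs
  rw [← hnd] at hn0 hn' c0 hx
  obtain ⟨G, hG⟩ : ∃ G, G = Real.exp (2 * β * r) := ⟨_, rfl⟩
  rw [← hG] at c1
  have hG0 : 0 ≤ G := hG ▸ (Real.exp_pos _).le
  have d1 : ‖cofL β s L + cof β s (x₁ + I * η) + cfa β s L x₁ (Ξ s) η‖ ≤
      (prC β s₀ r + 4 * G + KA β s₀ r K) * n := by
    refine norm_add₃_le.trans ?_
    have e1 : 4 * G * 1 ≤ 4 * G * n := mul_le_mul_of_nonneg_left hn0 (by positivity)
    have e2 : KA β s₀ r K * 1 ≤ KA β s₀ r K * n := mul_le_mul_of_nonneg_left hn0 hA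
    linarith
  have hxn : ‖ξs s‖ ≤ K / n := hx
  have d2 : ‖ξs s * (cofL β s L + cof β s (x₁ + I * η) + cfa β s L x₁ (Ξ s) η)‖ ≤
      K * (prC β s₀ r + 4 * G + KA β s₀ r K) := by
    rw [norm_mul]
    calc _ ≤ K / n * ((prC β s₀ r + 4 * G + KA β s₀ r K) * n) := by gcongr
      _ = _ := by field_simp
  unfold cfa'
  rw [norm_mul]
  have d3 : ‖ξs s * (cofL β s L + cof β s (x₁ + I * η) + cfa β s L x₁ (Ξ s) η) -
      cof β s (x₁ + I * η)‖ ≤ K * (prC β s₀ r + 4 * G + KA β s₀ r K) + 4 * G :=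
    (norm_sub_le _ _).trans (add_le_add d2 c1)
  calc _ ≤ 2 * β * (K * (prC β s₀ r + 4 * G + KA β s₀ r K) + 4 * G) := by gcongr
    _ ≤ _ := by
      unfold KB
      rw [← hG]
      linarith

/-- **The transported cutoff moves with the ends of the sea.** -/
theorem phT_transport (T : TrData β s₀ r K L x₁ Ξ ξs η u) :
    ∃ Dη Dt : ℂ, HasDerivAt (fun η => phT β L x₁ Ξ η u) Dη η ∧
      HasDerivAt (fun t : ℝ => phT β L x₁ Ξ η (u.re + t * I)) Dt u.im ∧
      ∀ ξ : ℂ, ‖ξ‖ ≤ K / L.length →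
        ‖ξ - ξs (sg u.im)‖ ≤ K / L.length * Real.exp (-(2 * β) * |u.im|) →
        ‖Dη + ξ * Dt‖ ≤ KT β s₀ r K / L.length ^ 2 *
          min 1 (L.length * Real.exp (-(2 * β) * |u.im|)) := by
  have h := T.adm
  have hβ := h.pos
  have hsg := sg_cases u.im
  have hs1 : sg u.im = 1 ∨ sg u.im = -1 := hsg.imp And.left And.left
  have hs1' : -sg u.im = 1 ∨ -sg u.im = -1 := by
    rcases hs1 with e | e
    · right; rw [e]
    · left; rw [e]; norm_num
  obtain ⟨b', hb, hbF⟩ := prL_far h T.r0 T.hL T.huL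
  have hqF := farProd_row h T.r0 T.h1' T.hu1
  obtain ⟨s, hs⟩ : ∃ s, s = sg u.im := ⟨_, rfl⟩
  rw [← hs] at hsg hs1 hs1' hbF hqF
  have hq : HasDerivAt (psi β) (psiD β (u - (x₁ + I * η))) (u - (x₁ + I * η)) :=
    hasDerivAt_psi h T.hu1
  have hue : ((u.re : ℂ) + (u.im : ℝ) * I) = u := re_add_im u
  -- `η` derivatives
  have e1 : HasDerivAt (fun η : ℝ => psi β (u - (x₁ + I * η)))
      (-(I * psiD β (u - (x₁ + I * η)))) η := by
    have g0 : HasDerivAt (fun η : ℝ => u - (x₁ + I * η)) (-I) η := by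
      have := (((hasDerivAt_id η).ofReal_comp.const_mul I).const_add x₁).const_sub u
      simpa using this
    have g1 := HasDerivAt.comp η hq g0
    refine g1.congr_deriv ?_
    ring
  have e2 : HasDerivAt (fun η : ℝ => corr β L x₁ Ξ η u)
      (-(cfa' β s L x₁ Ξ ξs η * sgm β s u) - cfa' β (-s) L x₁ Ξ ξs η * sgm β (-s) u) η := by
    have g1 := (hasDerivAt_cfa β s L x₁ (T.der s hs1)).mul_const (sgm β s u)
    have g2 := (hasDerivAt_cfa β (-s) L x₁ (T.der (-s) hs1')).mul_const (sgm β (-s) u)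
    have g3 := (g1.const_sub 1).sub g2
    have g4 : (fun η : ℝ => corr β L x₁ Ξ η u) = fun η : ℝ =>
        1 - cfa β s L x₁ (Ξ s) η * sgm β s u - cfa β (-s) L x₁ (Ξ (-s)) η * sgm β (-s) u :=
      funext fun η => corr_eq β L x₁ Ξ η u hs1
    rw [g4]
    exact g3
  have e3 : HasDerivAt (fun η => phT β L x₁ Ξ η u)
      (-(prL β L u * (-(I * psiD β (u - (x₁ + I * η))) * corr β L x₁ Ξ η u +
        psi β (u - (x₁ + I * η)) * (-(cfa' β s L x₁ Ξ ξs η * sgm β s u) -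
          cfa' β (-s) L x₁ Ξ ξs η * sgm β (-s) u)))) η := by
    have g1 := ((e1.const_mul (prL β L u)).mul e2).const_sub 1
    refine g1.congr_deriv ?_
    ring
  -- `t` derivatives
  have v0 : HasDerivAt (fun t : ℝ => (u.re : ℂ) + t * I) I u.im := by
    have := (((hasDerivAt_id u.im).ofReal_comp).mul_const I).const_add (u.re : ℂ)
    simpa using this
  have v1 : HasDerivAt (fun t : ℝ => prL β L ((u.re : ℂ) + t * I)) (b' * I) u.im := by
    have hb2 : HasDerivAt (prL β L) b' ((u.re : ℂ) + (u.im : ℝ) * I) := by rw [hue]; exact hb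
    exact HasDerivAt.comp u.im hb2 v0
  have v2 : HasDerivAt (fun t : ℝ => psi β ((u.re : ℂ) + t * I - (x₁ + I * η)))
      (psiD β (u - (x₁ + I * η)) * I) u.im := by
    have hq2 : HasDerivAt (psi β) (psiD β (u - (x₁ + I * η)))
        ((u.re : ℂ) + (u.im : ℝ) * I - (x₁ + I * η)) := by rw [hue]; exact hq
    exact HasDerivAt.comp u.im hq2 (v0.sub_const (x₁ + I * η))
  have v3 : HasDerivAt (fun t : ℝ => corr β L x₁ Ξ η ((u.re : ℂ) + t * I))
      ((-(cfa β s L x₁ (Ξ s) η * sgmD β s u) - cfa β (-s) L x₁ (Ξ (-s)) η * sgmD β (-s) u) * I)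
      u.im := by
    have g1 := (hasDerivAt_sgm h T.hu hs1).const_mul (cfa β s L x₁ (Ξ s) η)
    have g2 := (hasDerivAt_sgm h T.hu hs1').const_mul (cfa β (-s) L x₁ (Ξ (-s)) η)
    have g3 := (g1.const_sub 1).sub g2
    have g4 : corr β L x₁ Ξ η = fun u : ℂ =>
        1 - cfa β s L x₁ (Ξ s) η * sgm β s u - cfa β (-s) L x₁ (Ξ (-s)) η * sgm β (-s) u :=
      funext fun v => corr_eq β L x₁ Ξ η v hs1
    have g5 : HasDerivAt (corr β L x₁ Ξ η)
        (-(cfa β s L x₁ (Ξ s) η * sgmD β s u) - cfa β (-s) L x₁ (Ξ (-s)) η * sgmD β (-s) u)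
        ((u.re : ℂ) + (u.im : ℝ) * I) := by
      rw [hue, g4]
      exact g3
    exact HasDerivAt.comp u.im g5 v0
  have v4 : HasDerivAt (fun t : ℝ => phT β L x₁ Ξ η ((u.re : ℂ) + t * I))
      (-(I * b' * psi β (u - (x₁ + I * η)) * corr β L x₁ Ξ η u +
        prL β L u * (I * psiD β (u - (x₁ + I * η))) * corr β L x₁ Ξ η u +
        prL β L u * psi β (u - (x₁ + I * η)) * (I * (-(cfa β s L x₁ (Ξ s) η * sgmD β s u) -
          cfa β (-s) L x₁ (Ξ (-s)) η * sgmD β (-s) u)))) u.im := by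
    have g1 := ((v1.mul v2).mul v3).const_sub 1
    refine g1.congr_deriv ?_
    simp only [Pi.mul_apply]
    rw [hue]
    ring
  refine ⟨_, _, e3, v4, fun ξ hξ hξs => ?_⟩
  have hA := T.KA0
  have hAB : KA β s₀ r K ≤ KB β s₀ r K := by
    have := T.K0
    have := prC_pos h r
    unfold KB
    have : 0 ≤ 2 * β * (K * (prC β s₀ r + 4 * Real.exp (2 * β * r) + KA β s₀ r K) +
      4 * Real.exp (2 * β * r)) := by positivity
    linarith
  have hB : 0 ≤ KB β s₀ r K := hA.trans hAB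
  have hKA : K ≤ KA β s₀ r K := by
    have := T.K0
    have := prC_pos h r
    unfold KA
    have : 0 ≤ (prC β s₀ r + 4 * Real.exp (2 * β * r)) * (2 * β * K * Real.exp (2 * β * K)) +
      8 * Real.exp (2 * β * r) := by positivity
    linarith
  have hBC : 8 * KB β s₀ r K ≤ KCf β s₀ r K ∧ 40 * β * KB β s₀ r K ≤ KCf β s₀ r K := by
    unfold KCf
    have : 0 ≤ β * KB β s₀ r K := by positivity
    constructor <;> linarith
  obtain ⟨q1, q2, q3⟩ := corr_le h T.hu hsg hB ((T.cfa_le hs1).trans hAB)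
    ((T.cfa_le hs1').trans hAB) (T.cfa'_le hs1) (T.cfa'_le hs1')
  have hx0 : 0 ≤ Real.exp (-(2 * β) * |u.im|) := (Real.exp_pos _).le
  have hx1 : Real.exp (-(2 * β) * |u.im|) ≤ 1 := Real.exp_le_one_iff.2 (by
    have := mul_nonneg hβ.le (abs_nonneg u.im)
    linarith)
  have hn0 : (1 : ℝ) ≤ L.length := by exact_mod_cast T.len
  have hn' : (0 : ℝ) < L.length := by linarith
  rw [← corr_eq β L x₁ Ξ η u hs1] at q1
  have hKCf : 0 ≤ KCf β s₀ r K := by linarith [hBC.1]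
  have fin := far_core (ξ := ξ) (ξs := ξs s) (a := cfa β s L x₁ (Ξ s) η)
    (a' := cfa' β s L x₁ Ξ ξs η) hbF hqF (rowc_pos h r) (prC_pos h r).le hKCf hβ.le T.len
    (hs ▸ abs_sg _) hx0 hx1 (Ep_norm' hsg).le
    (q1.trans (by
      refine mul_le_mul_of_nonneg_right ?_ hx0
      linarith [hBC.1]))
    (q2.trans (mul_le_mul_of_nonneg_right hBC.2 (by positivity)))
    (q3.trans (mul_le_mul_of_nonneg_right hBC.1 (by positivity)))
    (by linarith [T.cfa_le hs1, hBC.1])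
    (hξ.trans (by
      refine div_le_div_of_nonneg_right ?_ hn'.le
      linarith [hBC.1]))
    ((hs ▸ hξs).trans (by
      refine mul_le_mul_of_nonneg_right (div_le_div_of_nonneg_right ?_ hn'.le) hx0
      linarith [hBC.1])) rfl
  have e5 : ∀ a b : ℂ, -a + ξ * -b = -(a + ξ * b) := fun a b => by ring
  rw [e5, norm_neg]
  exact fin

/-- **The cutoff is `1` up to `exp (-c n x)`.** -/
theorem TrData.norm_phT_sub_one (T : TrData β s₀ r K L x₁ Ξ ξs η u) :
    ‖phT β L x₁ Ξ η u - 1‖ ≤ (1 + 2 * KA β s₀ r K) *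
      Real.exp (-(rowc β s₀ r * (L.length * Real.exp (-(2 * β) * |u.im|)))) := by
  have h := T.adm
  have hsg := sg_cases u.im
  have hs1 : sg u.im = 1 ∨ sg u.im = -1 := hsg.imp And.left And.left
  have hs1' : -sg u.im = 1 ∨ -sg u.im = -1 := by
    rcases hs1 with e | e
    · right; rw [e]
    · left; rw [e]; norm_num
  obtain ⟨b', hb, hbF⟩ := prL_far h T.r0 T.hL T.huL
  have hA := T.KA0
  obtain ⟨q1, -, -⟩ := corr_le (a' := 0) (a₂' := 0) h T.hu hsg hA (T.cfa_le hs1)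
    (T.cfa_le hs1') (by simpa using hA) (by simpa using hA)
  rw [← corr_eq β L x₁ Ξ η u hs1] at q1
  have hx1 : Real.exp (-(2 * β) * |u.im|) ≤ 1 := Real.exp_le_one_iff.2 (by
    have := mul_nonneg h.pos.le (abs_nonneg u.im)
    linarith)
  have hR : ‖corr β L x₁ Ξ η u‖ ≤ 1 + 2 * KA β s₀ r K := by
    have e : corr β L x₁ Ξ η u = 1 + (corr β L x₁ Ξ η u - 1) := by ring
    rw [e]
    refine (norm_add_le _ _).trans ?_
    rw [norm_one]
    nlinarith
  have e : phT β L x₁ Ξ η u - 1 =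
      -(prL β L u * psi β (u - (x₁ + I * η)) * corr β L x₁ Ξ η u) := by
    unfold phT; ring
  have hp := norm_psi_le_one h T.hu1
  rw [e, norm_neg, norm_mul, norm_mul]
  calc ‖prL β L u‖ * _ * _ ≤
        Real.exp (-(rowc β s₀ r * (L.length * Real.exp (-(2 * β) * |u.im|)))) * 1 *
          (1 + 2 * KA β s₀ r K) := by
        have := hbF.norm_le
        gcongr
    _ = _ := by ring

/-- **The cutoff is small beyond the ends.** -/
theorem TrData.norm_phT_le (T : TrData β s₀ r K L x₁ Ξ ξs η u) :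
    ‖phT β L x₁ Ξ η u‖ ≤ (2 + 2 * KA β s₀ r K + 2 * rowC β s₀ r) *
      min 1 (L.length * Real.exp (-(2 * β) * |u.im|)) := by
  have h := T.adm
  have hsg := sg_cases u.im
  have hs1 : sg u.im = 1 ∨ sg u.im = -1 := hsg.imp And.left And.left
  have hs1' : -sg u.im = 1 ∨ -sg u.im = -1 := by
    rcases hs1 with e | e
    · right; rw [e]
    · left; rw [e]; norm_num
  have hA := T.KA0
  have hC := (rowC_pos h r).le
  obtain ⟨q1, -, -⟩ := corr_le (a' := 0) (a₂' := 0) h T.hu hsg hA (T.cfa_le hs1)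
    (T.cfa_le hs1') (by simpa using hA) (by simpa using hA)
  rw [← corr_eq β L x₁ Ξ η u hs1] at q1
  obtain ⟨x, hx⟩ : ∃ x, x = Real.exp (-(2 * β) * |u.im|) := ⟨_, rfl⟩
  have hx0 : 0 ≤ x := hx ▸ (Real.exp_pos _).le
  have hx1 : x ≤ 1 := hx ▸ Real.exp_le_one_iff.2 (by
    have := mul_nonneg h.pos.le (abs_nonneg u.im)
    linarith)
  have hn0 : (1 : ℝ) ≤ L.length := by exact_mod_cast T.len
  rcases le_total 1 (L.length * Real.exp (-(2 * β) * |u.im|)) with hc | hc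
  · rw [min_eq_left hc, mul_one]
    have h1 := T.norm_phT_sub_one
    have h2 : Real.exp (-(rowc β s₀ r * (L.length * Real.exp (-(2 * β) * |u.im|)))) ≤ 1 :=
      Real.exp_le_one_iff.2 (by
        have := rowc_pos h r
        have : 0 ≤ rowc β s₀ r * (L.length * Real.exp (-(2 * β) * |u.im|)) := by positivity
        linarith)
    have e : phT β L x₁ Ξ η u = 1 + (phT β L x₁ Ξ η u - 1) := by ring
    rw [e]
    refine (norm_add_le _ _).trans ?_
    rw [norm_one]
    have h3 : (1 + 2 * KA β s₀ r K) *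
        Real.exp (-(rowc β s₀ r * (L.length * Real.exp (-(2 * β) * |u.im|)))) ≤
        (1 + 2 * KA β s₀ r K) * 1 := by gcongr
    linarith
  · rw [min_eq_right hc]
    have h1 := norm_one_sub_prL h T.r0 T.hL T.huL
    have h2 := (farPt_row h T.r0 T.h1' T.hu1).sub_le
    have h3 : ‖prL β L u‖ ≤ 1 := by
      obtain ⟨b', hb, hbF⟩ := prL_far h T.r0 T.hL T.huL
      refine hbF.norm_le.trans (Real.exp_le_one_iff.2 ?_)
      have := rowc_pos h r
      have : 0 ≤ rowc β s₀ r * (L.length * Real.exp (-(2 * β) * |u.im|)) := by positivity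
      linarith
    have h4 := norm_psi_le_one h T.hu1
    have e : phT β L x₁ Ξ η u = (1 - prL β L u) + prL β L u * (1 - psi β (u - (x₁ + I * η))) +
        prL β L u * psi β (u - (x₁ + I * η)) * (-(corr β L x₁ Ξ η u - 1)) := by
      unfold phT; ring
    rw [e]
    refine norm_add₃_le.trans ?_
    rw [norm_mul, norm_mul, norm_mul, norm_neg]
    rw [← hx] at h1 h2 q1 ⊢
    have i1 : ‖prL β L u‖ * ‖1 - psi β (u - (x₁ + I * η))‖ ≤ 1 * (rowC β s₀ r * x) :=
      mul_le_mul h3 h2 (norm_nonneg _) zero_le_one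
    have i2 : ‖prL β L u‖ * ‖psi β (u - (x₁ + I * η))‖ * ‖corr β L x₁ Ξ η u - 1‖ ≤
        1 * 1 * (2 * KA β s₀ r K * x) := by gcongr
    have i3 : x ≤ L.length * x := by nlinarith
    have i4 : (rowC β s₀ r + 2 * KA β s₀ r K) * x ≤
        (rowC β s₀ r + 2 * KA β s₀ r K) * (L.length * x) :=
      mul_le_mul_of_nonneg_left i3 (by positivity)
    have i5 : 0 ≤ L.length * x := by positivity
    linarith

/-- the cutoff is differentiable -/
theorem TrData.differentiableAt_phT (T : TrData β s₀ r K L x₁ Ξ ξs η u) :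
    DifferentiableAt ℂ (phT β L x₁ Ξ η) u := by
  have h := T.adm
  obtain ⟨b', hb, -⟩ := prL_far h T.r0 T.hL T.huL
  have hq : DifferentiableAt ℂ (fun v => psi β (v - (x₁ + I * η))) u := by
    have h3 := differentiableAt_psi (z := u - (x₁ + I * η)) h T.hu1
    exact h3.comp u (differentiableAt_id.sub_const _)
  have h1 := (hasDerivAt_sgm h T.hu (Or.inl rfl)).differentiableAt
  have h2 := (hasDerivAt_sgm h T.hu (Or.inr rfl)).differentiableAt
  exact DifferentiableAt.const_sub ((hb.differentiableAt.mul hq).mul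
    (((differentiableAt_const _).sub (h1.const_mul _)).sub (h2.const_mul _))) 1

end

end Pool.Agent.PB

end
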