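import Pool.Agent.PB.FarCut

/-!
# Plan B, far end: the transported cutoff

`Ep β s u = exp (i s (2 β u + β l))`, `s = ± 1`: the vacuum wave of the end `s`
(`|Ep| = exp (-2 β |t|)` there).  `sgm β s u = Ep / (1 + Ep) ^ 3`: equal to `Ep` at its own end up to
`x ^ 2`, and `O(x ^ 2)` at the other one.  The cutoff `1 - φ = (fixed rows) (moving row)
(1 - a₊ sgm₊ - a₋ sgm₋)` with the coefficients `a` of `cofA` satisfies
`|(∂_η + ξ ∂_t) φ| ≤ (K / n ^ 2) min 1 (n x)` for every `ξ` with `|ξ - ξ_s| ≤ (K / n) x`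
(`far_core`, `far_transport`).
-/

set_option autoImplicit false

open Complex

noncomputable section

namespace Pool.Agent.PB

open NUP1

/-! ### products of row kernels -/

/-- a product `b` of `n` row kernels and its derivative `b'` at a point of the end `s`; `A` = sum of
the coefficients of the vacuum wave `E` -/
structure FarProd (β c C s x : ℝ) (E : ℂ) (n : ℕ) (A b b' : ℂ) : Prop where
  norm_le : ‖b‖ ≤ Real.exp (-(c * (n * x)))
  der_le : ‖I * b' - 2 * β * s * E * A * b‖ ≤ C * n * x ^ 2 * Real.exp (-(c * (n * x)))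
  coef_le : ‖A‖ ≤ C * n

section
variable {β c C K s x : ℝ} {E A b b' A₁ q q' : ℂ} {n m : ℕ}

theorem FarProd.one : FarProd β c C s x E 0 0 1 0 := by
  refine ⟨?_, ?_, ?_⟩ <;> simp

theorem FarProd.mul (hb : FarProd β c C s x E n A b b') (hq : FarProd β c C s x E m A₁ q q')
    (hC : 0 ≤ C) : FarProd β c C s x E (n + m) (A + A₁) (b * q) (b' * q + b * q') := by
  have e : Real.exp (-(c * (((n + m : ℕ) : ℝ) * x))) =
      Real.exp (-(c * (n * x))) * Real.exp (-(c * (m * x))) := by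
    rw [← Real.exp_add]
    push_cast
    ring_nf
  have h1 := Real.exp_pos (-(c * (n * x)))
  have h2 := Real.exp_pos (-(c * (m * x)))
  refine ⟨?_, ?_, ?_⟩
  · rw [norm_mul, e]
    exact mul_le_mul hb.norm_le hq.norm_le (norm_nonneg _) h1.le
  · have e2 : I * (b' * q + b * q') - 2 * β * s * E * (A + A₁) * (b * q) =
        (I * b' - 2 * β * s * E * A * b) * q + b * (I * q' - 2 * β * s * E * A₁ * q) := by ring
    rw [e2]
    refine (norm_add_le _ _).trans ?_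
    rw [norm_mul, norm_mul b, e]
    have h3 : ‖I * b' - 2 * β * s * E * A * b‖ * ‖q‖ ≤
        C * n * x ^ 2 * Real.exp (-(c * (n * x))) * Real.exp (-(c * (m * x))) :=
      mul_le_mul hb.der_le hq.norm_le (norm_nonneg _) (by positivity)
    have h4 : ‖b‖ * ‖I * q' - 2 * β * s * E * A₁ * q‖ ≤
        Real.exp (-(c * (n * x))) * (C * m * x ^ 2 * Real.exp (-(c * (m * x)))) :=
      mul_le_mul hb.norm_le hq.der_le (norm_nonneg _) h1.le
    push_cast
    calc _ ≤ _ := add_le_add h3 h4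
      _ = _ := by ring
  · refine (norm_add_le _ _).trans ?_
    push_cast
    linarith [hb.coef_le, hq.coef_le]

theorem FarProd.pow (hb : FarProd β c C s x E n A b b') (hC : 0 ≤ C) :
    ∀ k : ℕ, FarProd β c C s x E (n * k) (k * A) (b ^ k) (k * b ^ (k - 1) * b')
  | 0 => by simpa using (FarProd.one (β := β) (c := c) (C := C) (s := s) (x := x) (E := E))
  | k + 1 => by
    have h := (FarProd.pow hb hC k).mul hb hC
    have e1 : n * (k + 1) = n * k + n := by ring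
    have e2 : ((k + 1 : ℕ) : ℂ) * A = k * A + A := by push_cast; ring
    have e3 : b ^ (k + 1) = b ^ k * b := pow_succ b k
    have e4 : ((k + 1 : ℕ) : ℂ) * b ^ (k + 1 - 1) * b' = k * b ^ (k - 1) * b' * b + b ^ k * b' := by
      rw [Nat.add_sub_cancel]
      rcases k with _ | k
      · simp
      · rw [Nat.add_sub_cancel, pow_succ]
        push_cast
        ring
    rw [e1, e2, e3, e4]
    exact h

/-- **The transport estimate, pointwise.** `b` = fixed rows, `q` = the moving row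
(`∂_η q = - I q'`), `R` = correction (`Rη` its `η` derivative) -/
theorem far_core {R R' Rη a a' ξ ξs : ℂ} (hb : FarProd β c C s x E n A b b')
    (hq : FarProd β c C s x E 1 A₁ q q') (hc : 0 < c) (hC : 0 ≤ C) (hK : 0 ≤ K) (hβ : 0 ≤ β)
    (hn : 1 ≤ n) (hs : |s| ≤ 1) (hx : 0 ≤ x) (hx1 : x ≤ 1) (hE : ‖E‖ ≤ x)
    (hR : ‖R - 1‖ ≤ K * x) (hR' : ‖I * R' - 2 * β * s * a * E‖ ≤ K * x ^ 2)
    (hRη : ‖Rη + a' * E‖ ≤ K * x ^ 2) (ha : ‖a‖ ≤ K) (hξ : ‖ξ‖ ≤ K / n)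
    (hξs : ‖ξ - ξs‖ ≤ K / n * x) (hode : a' = 2 * β * s * (ξs * (A + A₁ + a) - A₁)) :
    ‖b * (-(I * q') * R + q * Rη) + ξ * (I * b' * q * R + b * (I * q') * R + b * q * (I * R'))‖ ≤
      (C * (1 + K) + K + K * (2 * C * (1 + K) + K) + 2 * β * C * K + 4 * β * K ^ 2 * C +
        2 * β * K * (2 * C + K)) * (1 + 2 / c) ^ 2 / n ^ 2 * min 1 (n * x) := by
  have hn0 : (1 : ℝ) ≤ n := by exact_mod_cast hn
  have hn' : (0 : ℝ) < n := by linarith
  obtain ⟨W, hW⟩ : ∃ W, W = Real.exp (-(c * (n * x))) := ⟨_, rfl⟩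
  have hW0 : 0 < W := hW ▸ Real.exp_pos _
  have hb1 : ‖b‖ ≤ W := hW ▸ hb.norm_le
  have hb2 : ‖I * b' - 2 * β * s * E * A * b‖ ≤ C * n * x ^ 2 * W := hW ▸ hb.der_le
  have hexp1 : Real.exp (-(c * (((1 : ℕ) : ℝ) * x))) ≤ 1 := Real.exp_le_one_iff.2 (by
    have := mul_nonneg hc.le hx
    push_cast
    linarith)
  have hq1 : ‖q‖ ≤ 1 := hq.norm_le.trans hexp1
  have hq2 : ‖I * q' - 2 * β * s * E * A₁ * q‖ ≤ C * x ^ 2 := by
    refine hq.der_le.trans ?_
    have : 0 ≤ C * x ^ 2 := by positivity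
    push_cast
    rw [mul_one] at *
    push_cast at hexp1
    calc C * x ^ 2 * Real.exp (-(c * (1 * x))) ≤ C * x ^ 2 * 1 := by gcongr
      _ = C * x ^ 2 := mul_one _
  have hA : ‖A‖ ≤ C * n := hb.coef_le
  have hA1 : ‖A₁‖ ≤ C := by
    have := hq.coef_le
    push_cast at this
    linarith
  have hRn : ‖R‖ ≤ 1 + K := by
    have e : R = 1 + (R - 1) := by ring
    rw [e]
    refine (norm_add_le _ _).trans ?_
    rw [norm_one]
    nlinarith
  have hs2 : ‖(2 * β * s : ℂ)‖ ≤ 2 * β := by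
    rw [norm_mul, norm_mul, norm_real, norm_real, Real.norm_eq_abs, Real.norm_eq_abs,
      abs_of_nonneg hβ]
    simp only [Complex.norm_ofNat]
    nlinarith
  have hξn := hξ
  have hξsn := hξs
  have key : b * (-(I * q') * R + q * Rη) +
      ξ * (I * b' * q * R + b * (I * q') * R + b * q * (I * R')) =
      -(b * R * (I * q' - 2 * β * s * E * A₁ * q)) + b * q * (Rη + a' * E) +
      ξ * ((I * b' - 2 * β * s * E * A * b) * q * R +
        b * (I * q' - 2 * β * s * E * A₁ * q) * R + b * q * (I * R' - 2 * β * s * a * E)) +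
      E * b * q * (-(2 * β * s * A₁ * (R - 1)) + ξ * (2 * β * s * (A + A₁) * (R - 1)) +
        2 * β * s * (ξ - ξs) * (A + A₁ + a)) := by
    rw [hode]
    ring
  rw [key]
  have t1 : ‖-(b * R * (I * q' - 2 * β * s * E * A₁ * q))‖ ≤ C * (1 + K) * (x ^ 2 * W) := by
    rw [norm_neg, norm_mul, norm_mul]
    calc ‖b‖ * ‖R‖ * _ ≤ W * (1 + K) * (C * x ^ 2) := by gcongr
      _ = _ := by ring
  have t2 : ‖b * q * (Rη + a' * E)‖ ≤ K * (x ^ 2 * W) := by
    rw [norm_mul, norm_mul]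
    calc ‖b‖ * ‖q‖ * _ ≤ W * 1 * (K * x ^ 2) := by gcongr
      _ = _ := by ring
  have t3 : ‖ξ * ((I * b' - 2 * β * s * E * A * b) * q * R +
        b * (I * q' - 2 * β * s * E * A₁ * q) * R + b * q * (I * R' - 2 * β * s * a * E))‖ ≤
      K * (2 * C * (1 + K) + K) * (x ^ 2 * W) := by
    rw [norm_mul]
    have i1 : ‖(I * b' - 2 * β * s * E * A * b) * q * R‖ ≤ C * n * x ^ 2 * W * 1 * (1 + K) := by
      rw [norm_mul, norm_mul]
      gcongr
    have i2 : ‖b * (I * q' - 2 * β * s * E * A₁ * q) * R‖ ≤ W * (C * x ^ 2) * (1 + K) := by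
      rw [norm_mul, norm_mul]
      gcongr
    have i3 : ‖b * q * (I * R' - 2 * β * s * a * E)‖ ≤ W * 1 * (K * x ^ 2) := by
      rw [norm_mul, norm_mul]
      gcongr
    have i4 : ‖(I * b' - 2 * β * s * E * A * b) * q * R +
        b * (I * q' - 2 * β * s * E * A₁ * q) * R + b * q * (I * R' - 2 * β * s * a * E)‖ ≤
        (2 * C * (1 + K) + K) * n * (x ^ 2 * W) := by
      refine norm_add₃_le.trans ?_
      have i5 : W * (C * x ^ 2) * (1 + K) ≤ C * (1 + K) * n * (x ^ 2 * W) := by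
        have : C * (1 + K) * (x ^ 2 * W) * 1 ≤ C * (1 + K) * (x ^ 2 * W) * n :=
          mul_le_mul_of_nonneg_left hn0 (by positivity)
        linarith
      have i6 : W * 1 * (K * x ^ 2) ≤ K * n * (x ^ 2 * W) := by
        have : K * (x ^ 2 * W) * 1 ≤ K * (x ^ 2 * W) * n :=
          mul_le_mul_of_nonneg_left hn0 (by positivity)
        linarith
      linarith
    calc ‖(ξ : ℂ)‖ * _ ≤ K / n * ((2 * C * (1 + K) + K) * n * (x ^ 2 * W)) := by gcongr
      _ = _ := by field_simp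
  have t4 : ‖E * b * q * (-(2 * β * s * A₁ * (R - 1)) + ξ * (2 * β * s * (A + A₁) * (R - 1)) +
        2 * β * s * (ξ - ξs) * (A + A₁ + a))‖ ≤
      (2 * β * C * K + 4 * β * K ^ 2 * C + 2 * β * K * (2 * C + K)) * (x ^ 2 * W) := by
    rw [norm_mul, norm_mul, norm_mul]
    have j1 : ‖-(2 * β * s * A₁ * (R - 1))‖ ≤ 2 * β * C * (K * x) := by
      rw [norm_neg, norm_mul, norm_mul (2 * β * s : ℂ)]
      gcongr
    have j2 : ‖ξ * (2 * β * s * (A + A₁) * (R - 1))‖ ≤ 4 * β * K ^ 2 * C * x := by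
      rw [norm_mul, norm_mul, norm_mul (2 * β * s : ℂ)]
      have j3 : ‖A + A₁‖ ≤ 2 * C * n := by
        refine (norm_add_le _ _).trans ?_
        have : C * 1 ≤ C * n := mul_le_mul_of_nonneg_left hn0 hC
        linarith
      calc ‖(ξ : ℂ)‖ * (‖(2 * β * s : ℂ)‖ * ‖A + A₁‖ * ‖R - 1‖) ≤
            K / n * (2 * β * (2 * C * n) * (K * x)) := by gcongr
        _ = _ := by
          field_simp
          ring
    have j4 : ‖2 * β * s * (ξ - ξs) * (A + A₁ + a)‖ ≤ 2 * β * K * (2 * C + K) * x := by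
      rw [norm_mul, norm_mul (2 * β * s : ℂ)]
      have j3 : ‖A + A₁ + a‖ ≤ (2 * C + K) * n := by
        refine norm_add₃_le.trans ?_
        have h1 : C * 1 ≤ C * n := mul_le_mul_of_nonneg_left hn0 hC
        have h2 : K * 1 ≤ K * n := mul_le_mul_of_nonneg_left hn0 hK
        linarith
      calc ‖(2 * β * s : ℂ)‖ * ‖(ξ : ℂ) - ξs‖ * ‖A + A₁ + a‖ ≤
            2 * β * (K / n * x) * ((2 * C + K) * n) := by gcongr
        _ = _ := by
          field_simp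
    have j5 : ‖-(2 * β * s * A₁ * (R - 1)) + ξ * (2 * β * s * (A + A₁) * (R - 1)) +
        2 * β * s * (ξ - ξs) * (A + A₁ + a)‖ ≤
        (2 * β * C * K + 4 * β * K ^ 2 * C + 2 * β * K * (2 * C + K)) * x := by
      refine norm_add₃_le.trans ?_
      linarith
    calc ‖E‖ * ‖b‖ * ‖q‖ * _ ≤ x * W * 1 *
          ((2 * β * C * K + 4 * β * K ^ 2 * C + 2 * β * K * (2 * C + K)) * x) := by gcongr
      _ = _ := by ring
  have hfin : x ^ 2 * W ≤ (1 + 2 / c) ^ 2 / n ^ 2 * min 1 (n * x) := by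
    have h2 := sq_mul_exp_le hc (mul_nonneg hn'.le hx)
    rw [← hW] at h2
    calc x ^ 2 * W = ((n * x) ^ 2 * W) / n ^ 2 := by field_simp
      _ ≤ ((1 + 2 / c) ^ 2 * min 1 (n * x)) / n ^ 2 := by gcongr
      _ = _ := by ring
  refine (norm_add_le _ _).trans ?_
  refine (add_le_add (norm_add_le _ _) le_rfl).trans ?_
  refine (add_le_add (add_le_add (norm_add_le _ _) le_rfl) le_rfl).trans ?_
  have hKt : 0 ≤ C * (1 + K) + K + K * (2 * C * (1 + K) + K) + 2 * β * C * K + 4 * β * K ^ 2 * C +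
        2 * β * K * (2 * C + K) := by positivity
  calc _ ≤ C * (1 + K) * (x ^ 2 * W) + K * (x ^ 2 * W) +
        K * (2 * C * (1 + K) + K) * (x ^ 2 * W) +
        (2 * β * C * K + 4 * β * K ^ 2 * C + 2 * β * K * (2 * C + K)) * (x ^ 2 * W) :=
        add_le_add (add_le_add (add_le_add t1 t2) t3) t4
    _ = (C * (1 + K) + K + K * (2 * C * (1 + K) + K) + 2 * β * C * K + 4 * β * K ^ 2 * C +
        2 * β * K * (2 * C + K)) * (x ^ 2 * W) := by ring
    _ ≤ _ := mul_le_mul_of_nonneg_left hfin hKt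
    _ = _ := by ring

end

/-! ### the vacuum wave of one end -/

/-- the vacuum wave of the end `s` -/
def Ep (β s : ℝ) (u : ℂ) : ℂ := cexp (I * s * (2 * β * u + β * l))

/-- the correction at the end `s` -/
def sgm (β s : ℝ) (u : ℂ) : ℂ := Ep β s u / (1 + Ep β s u) ^ 3

/-- its derivative -/
def sgmD (β s : ℝ) (u : ℂ) : ℂ :=
  2 * β * I * s * (Ep β s u * (1 - 2 * Ep β s u) / (1 + Ep β s u) ^ 4)

section
variable {β s₀ s : ℝ} {u : ℂ}

lemma Ep_norm (β s : ℝ) (u : ℂ) : ‖Ep β s u‖ = Real.exp (-(2 * β * (s * u.im))) := by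
  unfold Ep
  rw [Complex.norm_exp]
  congr 1
  simp
  ring

lemma s_im {s t : ℝ} (hs : (s = 1 ∧ 0 ≤ t) ∨ (s = -1 ∧ t ≤ 0)) : s * t = |t| := by
  rcases hs with ⟨rfl, h⟩ | ⟨rfl, h⟩
  · rw [abs_of_nonneg h, one_mul]
  · rw [abs_of_nonpos h]; ring

lemma Ep_norm' (hs : (s = 1 ∧ 0 ≤ u.im) ∨ (s = -1 ∧ u.im ≤ 0)) :
    ‖Ep β s u‖ = Real.exp (-(2 * β) * |u.im|) := by
  rw [Ep_norm, s_im hs]
  ring_nf

lemma Ep_mul_neg (β s : ℝ) (u : ℂ) : Ep β s u * Ep β (-s) u = 1 := by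
  unfold Ep
  rw [← Complex.exp_add]
  have : I * (s : ℂ) * (2 * β * u + β * l) + I * ((-s : ℝ) : ℂ) * (2 * β * u + β * l) = 0 := by
    push_cast; ring
  rw [this, Complex.exp_zero]

lemma Ep_re_nonneg (h : Adm β s₀) (hu : |u.re + l / 2| ≤ s₀) (hs : s = 1 ∨ s = -1) :
    0 ≤ (Ep β s u).re := by
  unfold Ep
  rw [Complex.exp_re]
  have hβ := h.pos
  have e : (I * s * (2 * β * u + β * l) : ℂ).im = s * (2 * β * (u.re + l / 2)) := by
    simp
    left
    ring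
  rw [e]
  have h1 : |2 * β * (u.re + l / 2)| ≤ Real.pi / 2 := by
    rw [abs_mul, abs_of_pos (by linarith : 0 < 2 * β)]
    have := mul_le_mul_of_nonneg_left hu (by linarith : (0 : ℝ) ≤ 2 * β)
    linarith [h.sl]
  have h2 : |s * (2 * β * (u.re + l / 2))| ≤ Real.pi / 2 := by
    rw [abs_mul]
    rcases hs with rfl | rfl <;> simpa using h1
  obtain ⟨h3, h4⟩ := abs_le.1 h2
  exact mul_nonneg (Real.exp_pos _).le (Real.cos_nonneg_of_mem_Icc ⟨by linarith, h4⟩)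

lemma one_le_norm {E : ℂ} (h : 0 ≤ E.re) : 1 ≤ ‖1 + E‖ := by
  refine le_trans ?_ (re_le_norm _)
  rw [add_re, one_re]
  linarith

lemma hasDerivAt_Ep (β s : ℝ) (u : ℂ) : HasDerivAt (Ep β s) (2 * β * I * s * Ep β s u) u := by
  have h0 : HasDerivAt (fun u : ℂ => I * s * (2 * β * u + β * l)) (I * s * (2 * β)) u := by
    have := (((hasDerivAt_id u).const_mul (2 * β : ℂ)).add_const (β * l : ℂ)).const_mul (I * s : ℂ)
    simpa using this
  refine h0.cexp.congr_deriv ?_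
  unfold Ep
  ring

theorem hasDerivAt_sgm (h : Adm β s₀) (hu : |u.re + l / 2| ≤ s₀) (hs : s = 1 ∨ s = -1) :
    HasDerivAt (sgm β s) (sgmD β s u) u := by
  have hE := hasDerivAt_Ep β s u
  have hne : 1 + Ep β s u ≠ 0 := by
    have := one_le_norm (Ep_re_nonneg h hu hs)
    intro h0
    rw [h0, norm_zero] at this
    linarith
  have h1 := hE.fun_div ((hE.const_add 1).fun_pow 3) (pow_ne_zero 3 hne)
  refine (h1.congr_deriv ?_)
  unfold sgmD
  push_cast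
  field_simp
  ring

/-! algebra in `E` -/

lemma sgm_own {E : ℂ} (h : 0 ≤ E.re) (h1 : ‖E‖ ≤ 1) : ‖E / (1 + E) ^ 3 - E‖ ≤ 7 * ‖E‖ ^ 2 := by
  have hn := one_le_norm h
  have hne : 1 + E ≠ 0 := by
    intro h0
    rw [h0, norm_zero] at hn
    linarith
  have e : E / (1 + E) ^ 3 - E = -(E ^ 2 * (3 + 3 * E + E ^ 2)) / (1 + E) ^ 3 := by
    field_simp
    ring
  rw [e, norm_div, norm_neg, norm_mul, norm_pow, norm_pow]
  have h3 : ‖3 + 3 * E + E ^ 2‖ ≤ 7 := by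
    refine norm_add₃_le.trans ?_
    rw [norm_mul, norm_pow, Complex.norm_ofNat]
    have := norm_nonneg E
    nlinarith
  have h4 : 1 ≤ ‖1 + E‖ ^ 3 := one_le_pow₀ hn
  rw [div_le_iff₀ (by linarith)]
  calc ‖E‖ ^ 2 * ‖3 + 3 * E + E ^ 2‖ ≤ ‖E‖ ^ 2 * 7 := by gcongr
    _ = 7 * ‖E‖ ^ 2 * 1 := by ring
    _ ≤ _ := by gcongr

lemma sgm_own_le {E : ℂ} (h : 0 ≤ E.re) : ‖E / (1 + E) ^ 3‖ ≤ ‖E‖ := by
  have h4 : 1 ≤ ‖1 + E‖ ^ 3 := one_le_pow₀ (one_le_norm h)
  rw [norm_div, norm_pow]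
  exact div_le_self (norm_nonneg _) h4

lemma sgm_other {E F : ℂ} (h : 0 ≤ E.re) (hEF : E * F = 1) :
    F / (1 + F) ^ 3 = E ^ 2 / (1 + E) ^ 3 ∧ F * (1 - 2 * F) / (1 + F) ^ 4 =
      E ^ 2 * (E - 2) / (1 + E) ^ 4 := by
  have hE0 : E ≠ 0 := left_ne_zero_of_mul_eq_one hEF
  have hF : F = E⁻¹ := eq_inv_of_mul_eq_one_right hEF
  have hn := one_le_norm h
  have hne : 1 + E ≠ 0 := by
    intro h0
    rw [h0, norm_zero] at hn
    linarith
  have hne2 : 1 + E⁻¹ ≠ 0 := by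
    intro h0
    apply hne
    have : E * (1 + E⁻¹) = 0 := by rw [h0, mul_zero]
    rw [mul_add, mul_one, mul_inv_cancel₀ hE0] at this
    linear_combination this
  have e1 : 1 + E⁻¹ = (1 + E) / E := by
    field_simp
    ring
  subst hF
  rw [e1]
  constructor
  · field_simp
    try ring
  · field_simp
    try ring

lemma sgmD_own {E : ℂ} (h : 0 ≤ E.re) (h1 : ‖E‖ ≤ 1) :
    ‖E * (1 - 2 * E) / (1 + E) ^ 4 - E‖ ≤ 17 * ‖E‖ ^ 2 := by
  have hn := one_le_norm h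
  have hne : 1 + E ≠ 0 := by
    intro h0
    rw [h0, norm_zero] at hn
    linarith
  have e : E * (1 - 2 * E) / (1 + E) ^ 4 - E =
      -(E ^ 2 * (6 + 6 * E + (4 * E ^ 2 + E ^ 3))) / (1 + E) ^ 4 := by
    field_simp
    ring
  rw [e, norm_div, norm_neg, norm_mul, norm_pow, norm_pow]
  have hE0 := norm_nonneg E
  have hE2 : ‖E‖ ^ 2 ≤ 1 := by nlinarith
  have hE3 : ‖E‖ ^ 3 ≤ 1 := pow_le_one₀ hE0 h1
  have h3 : ‖6 + 6 * E + (4 * E ^ 2 + E ^ 3)‖ ≤ 17 := by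
    refine norm_add₃_le.trans ?_
    have h5 : ‖4 * E ^ 2 + E ^ 3‖ ≤ 5 := by
      refine (norm_add_le _ _).trans ?_
      rw [norm_mul, norm_pow, norm_pow, Complex.norm_ofNat]
      linarith
    rw [norm_mul, Complex.norm_ofNat]
    linarith
  have h4 : 1 ≤ ‖1 + E‖ ^ 4 := one_le_pow₀ hn
  rw [div_le_iff₀ (by linarith)]
  calc ‖E‖ ^ 2 * ‖6 + 6 * E + (4 * E ^ 2 + E ^ 3)‖ ≤ ‖E‖ ^ 2 * 17 := by gcongr
    _ = 17 * ‖E‖ ^ 2 * 1 := by ring
    _ ≤ _ := by gcongr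

lemma other_le {E : ℂ} (h : 0 ≤ E.re) (h1 : ‖E‖ ≤ 1) :
    ‖E ^ 2 / (1 + E) ^ 3‖ ≤ ‖E‖ ^ 2 ∧ ‖E ^ 2 * (E - 2) / (1 + E) ^ 4‖ ≤ 3 * ‖E‖ ^ 2 := by
  have hn := one_le_norm h
  have h4 : 1 ≤ ‖1 + E‖ ^ 3 := one_le_pow₀ hn
  have h5 : 1 ≤ ‖1 + E‖ ^ 4 := one_le_pow₀ hn
  constructor
  · rw [norm_div, norm_pow, norm_pow]
    exact div_le_self (by positivity) h4
  · rw [norm_div, norm_mul, norm_pow, norm_pow]
    have h6 : ‖E - 2‖ ≤ 3 := by
      refine (norm_sub_le _ _).trans ?_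
      rw [Complex.norm_ofNat]
      linarith
    refine (div_le_self (by positivity) h5).trans ?_
    calc ‖E‖ ^ 2 * ‖E - 2‖ ≤ ‖E‖ ^ 2 * 3 := by gcongr
      _ = _ := by ring

/-- the correction factor: coefficients `a` (end `s`) and `a₂` (end `-s`) -/
theorem corr_le (h : Adm β s₀) (hu : |u.re + l / 2| ≤ s₀)
    (hs : (s = 1 ∧ 0 ≤ u.im) ∨ (s = -1 ∧ u.im ≤ 0)) {K : ℝ} {a a₂ a' a₂' : ℂ} (hK : 0 ≤ K)
    (ha : ‖a‖ ≤ K) (ha₂ : ‖a₂‖ ≤ K) (ha' : ‖a'‖ ≤ K) (ha₂' : ‖a₂'‖ ≤ K) :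
    ‖(1 - a * sgm β s u - a₂ * sgm β (-s) u) - 1‖ ≤ 2 * K * Real.exp (-(2 * β) * |u.im|) ∧
    ‖I * (-(a * sgmD β s u) - a₂ * sgmD β (-s) u) - 2 * β * s * a * Ep β s u‖ ≤
      40 * β * K * Real.exp (-(2 * β) * |u.im|) ^ 2 ∧
    ‖(-(a' * sgm β s u) - a₂' * sgm β (-s) u) + a' * Ep β s u‖ ≤
      8 * K * Real.exp (-(2 * β) * |u.im|) ^ 2 := by
  have hβ := h.pos
  have hs1 : s = 1 ∨ s = -1 := hs.imp And.left And.left
  have hx := Ep_norm' (β := β) hs
  have hx1 : ‖Ep β s u‖ ≤ 1 := by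
    rw [hx]
    refine Real.exp_le_one_iff.2 ?_
    have := mul_nonneg hβ.le (abs_nonneg u.im)
    linarith
  have hre := Ep_re_nonneg h hu hs1
  have hEF := Ep_mul_neg β s u
  obtain ⟨o1, o2⟩ := sgm_other hre hEF
  obtain ⟨n1, n2⟩ := other_le hre hx1
  have m1 := sgm_own hre hx1
  have m2 := sgm_own_le hre
  have m3 := sgmD_own hre hx1
  have hss : |s| = 1 := by rcases hs1 with rfl | rfl <;> simp
  rw [← hx]
  obtain ⟨E, hE⟩ : ∃ E, E = Ep β s u := ⟨_, rfl⟩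
  obtain ⟨F, hF⟩ : ∃ F, F = Ep β (-s) u := ⟨_, rfl⟩
  unfold sgm sgmD
  rw [← hE] at hx1 hre hEF o1 o2 n1 n2 m1 m2 m3 ⊢
  rw [← hF] at hEF o1 o2 ⊢
  rw [o1, o2]
  have hE0 := norm_nonneg E
  have hsq : ‖E‖ ^ 2 ≤ ‖E‖ := by nlinarith
  refine ⟨?_, ?_, ?_⟩
  · have e : 1 - a * (E / (1 + E) ^ 3) - a₂ * (E ^ 2 / (1 + E) ^ 3) - 1 =
        -(a * (E / (1 + E) ^ 3)) - a₂ * (E ^ 2 / (1 + E) ^ 3) := by ring
    rw [e]
    refine (norm_sub_le _ _).trans ?_
    rw [norm_neg, norm_mul, norm_mul]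
    have h1 : ‖a‖ * ‖E / (1 + E) ^ 3‖ ≤ K * ‖E‖ := by gcongr
    have h2 : ‖a₂‖ * ‖E ^ 2 / (1 + E) ^ 3‖ ≤ K * ‖E‖ ^ 2 := by gcongr
    have h3 : K * ‖E‖ ^ 2 ≤ K * ‖E‖ := by gcongr
    linarith
  · have e : I * (-(a * (2 * β * I * s * (E * (1 - 2 * E) / (1 + E) ^ 4))) -
          a₂ * (2 * β * I * ((-s : ℝ) : ℂ) * (E ^ 2 * (E - 2) / (1 + E) ^ 4))) -
        2 * β * s * a * E = 2 * β * s * (a * (E * (1 - 2 * E) / (1 + E) ^ 4 - E)) -
          2 * β * s * (a₂ * (E ^ 2 * (E - 2) / (1 + E) ^ 4)) := by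
      push_cast
      linear_combination (-(a * (2 * β * s * (E * (1 - 2 * E) / (1 + E) ^ 4))) +
          a₂ * (2 * β * s * (E ^ 2 * (E - 2) / (1 + E) ^ 4))) * Complex.I_mul_I
    rw [e]
    refine (norm_sub_le _ _).trans ?_
    have hs2 : ‖(2 * β * s : ℂ)‖ = 2 * β := by
      rw [norm_mul, norm_mul, norm_real, norm_real, Real.norm_eq_abs, Real.norm_eq_abs,
        abs_of_pos hβ, hss]
      simp
    rw [norm_mul, norm_mul (2 * β * s : ℂ), norm_mul a, norm_mul a₂, hs2]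
    have h1 : 2 * β * (‖a‖ * ‖E * (1 - 2 * E) / (1 + E) ^ 4 - E‖) ≤ 2 * β * (K * (17 * ‖E‖ ^ 2)) := by
      gcongr
    have h2 : 2 * β * (‖a₂‖ * ‖E ^ 2 * (E - 2) / (1 + E) ^ 4‖) ≤ 2 * β * (K * (3 * ‖E‖ ^ 2)) := by
      gcongr
    calc _ ≤ _ := add_le_add h1 h2
      _ = _ := by ring
  · have e : -(a' * (E / (1 + E) ^ 3)) - a₂' * (E ^ 2 / (1 + E) ^ 3) + a' * E =
        -(a' * (E / (1 + E) ^ 3 - E)) - a₂' * (E ^ 2 / (1 + E) ^ 3) := by ring
    rw [e]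
    refine (norm_sub_le _ _).trans ?_
    rw [norm_neg, norm_mul, norm_mul]
    have h1 : ‖a'‖ * ‖E / (1 + E) ^ 3 - E‖ ≤ K * (7 * ‖E‖ ^ 2) := by gcongr
    have h2 : ‖a₂'‖ * ‖E ^ 2 / (1 + E) ^ 3‖ ≤ K * ‖E‖ ^ 2 := by gcongr
    linarith

end

/-! ### the kernel of one row -/

/-- coefficient of the vacuum wave in the kernel of the row `x₀` -/
def cof (β s : ℝ) (x₀ : ℂ) : ℂ := 4 * cos (β * l) * cexp (-(2 * β * I * s * x₀))

/-- constant of the kernel of a row of height at most `r` -/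
def prC (β s₀ r : ℝ) : ℝ :=
  (rowC β s₀ r + 2 * β * (4 * Real.exp (2 * β * r) ^ 2 * (2 + Real.exp (2 * β * r)) / kap β s₀) +
    8 * β * Real.exp (2 * β * r) * rowC β s₀ r) * Real.exp (rowc β s₀ r) + 4 * Real.exp (2 * β * r)

theorem prC_pos {β s₀ : ℝ} (h : Adm β s₀) (r : ℝ) : 0 < prC β s₀ r := by
  have := h.kap_pos
  have := h.pos
  have := rowC_pos h r
  unfold prC
  positivity

lemma norm_cof_le {β s₀ s r : ℝ} (h : Adm β s₀) (hs : |s| ≤ 1) {x₀ : ℂ} (hx : |x₀.im| ≤ r) :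
    ‖cof β s x₀‖ ≤ 4 * Real.exp (2 * β * r) := by
  have hβ := h.pos
  unfold cof
  have h1 : ‖cos (β * l : ℂ)‖ ≤ 1 := by
    rw [← ofReal_mul, ← ofReal_cos, norm_real, Real.norm_eq_abs]
    exact Real.abs_cos_le_one _
  have h2 : ‖cexp (-(2 * β * I * s * x₀))‖ ≤ Real.exp (2 * β * r) := by
    rw [Complex.norm_exp]
    refine Real.exp_le_exp.2 ?_
    have e : (-(2 * β * I * s * x₀) : ℂ).re = 2 * β * (s * x₀.im) := by
      simp
      ring
    rw [e]
    refine mul_le_mul_of_nonneg_left ?_ (by linarith)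
    refine (le_abs_self _).trans ?_
    rw [abs_mul]
    calc |s| * |x₀.im| ≤ 1 * r := mul_le_mul hs hx (abs_nonneg _) zero_le_one
      _ = r := one_mul r
  rw [norm_mul, norm_mul, Complex.norm_ofNat]
  calc 4 * ‖cos (β * l : ℂ)‖ * _ ≤ 4 * 1 * Real.exp (2 * β * r) := by gcongr
    _ = _ := by ring

/-- **The kernel of a row as a product of one kernel.** -/
theorem farProd_row {β s₀ r : ℝ} (h : Adm β s₀) (hr : 0 ≤ r) {u x₀ : ℂ} (hx : |x₀.im| ≤ r)
    (hu : |(u - x₀).re + l / 2| ≤ s₀) :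
    FarProd β (rowc β s₀ r) (prC β s₀ r) (sg u.im) (Real.exp (-(2 * β) * |u.im|))
      (Ep β (sg u.im) u) 1 (cof β (sg u.im) x₀) (psi β (u - x₀)) (psiD β (u - x₀)) := by
  have hβ := h.pos
  have hk := h.kap_pos
  have hP := farPt_row h hr hx hu
  have hC := rowC_pos h r
  have hc := rowc_pos h r
  have hsg := sg_cases u.im
  have hsa := abs_sg u.im
  have hE := Ep_norm' (β := β) hsg
  have hcof := norm_cof_le h hsa hx
  obtain ⟨s, hs⟩ : ∃ s, s = sg u.im := ⟨_, rfl⟩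
  obtain ⟨x, hxd⟩ : ∃ x, x = Real.exp (-(2 * β) * |u.im|) := ⟨_, rfl⟩
  obtain ⟨G, hG⟩ : ∃ G, G = Real.exp (2 * β * r) := ⟨_, rfl⟩
  rw [← hs] at hP hsg hsa hE hcof ⊢
  rw [← hxd] at hP hE ⊢
  rw [← hG] at hcof
  have hx0 := hP.nn
  have hx1 := hP.le1
  have hG1 : 1 ≤ G := hG ▸ Real.one_le_exp (by positivity)
  have hs1 : s = 1 ∨ s = -1 := hsg.imp And.left And.left
  -- the wave seen from the row
  obtain ⟨w, hw⟩ : ∃ w, w = Ep β s (u - x₀) := ⟨_, rfl⟩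
  have hw0 : w ≠ 0 := by
    rw [hw]
    exact Complex.exp_ne_zero _
  have hAE : cof β s x₀ * Ep β s u = 4 * cos (β * l) * w := by
    rw [hw]
    unfold cof Ep
    rw [mul_assoc, ← Complex.exp_add]
    congr 2
    ring
  have hwn : ‖w‖ = Real.exp (-(2 * β * (s * (u - x₀).im))) := hw ▸ Ep_norm β s (u - x₀)
  have hwG : ‖w‖ ≤ G * x := by
    rw [hwn, hG, hxd, ← Real.exp_add]
    refine Real.exp_le_exp.2 ?_
    have h1 := s_im hsg
    have h2 : s * x₀.im ≤ r := by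
      refine (le_abs_self _).trans ?_
      rw [abs_mul]
      calc |s| * |x₀.im| ≤ 1 * r := mul_le_mul hsa hx (abs_nonneg _) zero_le_one
        _ = r := one_mul r
    have h3 : s * (u - x₀).im = |u.im| - s * x₀.im := by
      rw [sub_im, mul_sub, h1]
    rw [h3]
    nlinarith
  have hcosw : 2 * w * cos (2 * β * (u - x₀) + β * l) = 1 + w ^ 2 := by
    have e1 : w * cexp (-(I * s * (2 * β * (u - x₀) + β * l))) = 1 := by
      rw [hw]
      unfold Ep
      rw [← Complex.exp_add, add_neg_cancel, Complex.exp_zero]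
    have e2 : 2 * cos (2 * β * (u - x₀) + β * l) =
        w + cexp (-(I * s * (2 * β * (u - x₀) + β * l))) := by
      rw [hw]
      unfold Ep
      rw [Complex.two_cos]
      rcases hs1 with rfl | rfl
      · congr 2 <;> (push_cast; ring)
      · rw [add_comm]
        congr 2 <;> (push_cast; ring)
    linear_combination w * e2 + e1
  have hden := norm_den_ge h hu
  have hdne := den_ne h hu
  obtain ⟨D, hD⟩ : ∃ D, D = cos (2 * β * (u - x₀) + β * l) + cos (β * l) := ⟨_, rfl⟩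
  rw [← hD] at hden hdne
  have hQ : 1 + 2 * cos (β * l) * w + w ^ 2 = 2 * w * D := by
    rw [hD]
    linear_combination -hcosw
  have hQn : kap β s₀ ≤ ‖2 * w * D‖ := by
    rw [norm_mul, norm_mul, Complex.norm_ofNat]
    have h1 : 1 ≤ ‖w‖ * Real.exp (2 * β * |(u - x₀).im|) := by
      rw [hwn, ← Real.exp_add]
      refine Real.one_le_exp ?_
      have h2 : s * (u - x₀).im ≤ |(u - x₀).im| := by
        rcases hs1 with rfl | rfl
        · rw [one_mul]; exact le_abs_self _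
        · rw [neg_one_mul]; exact neg_le_abs _
      nlinarith
    calc kap β s₀ = kap β s₀ * 1 := (mul_one _).symm
      _ ≤ kap β s₀ * (‖w‖ * Real.exp (2 * β * |(u - x₀).im|)) := by gcongr
      _ = 2 * ‖w‖ * (kap β s₀ / 2 * Real.exp (2 * β * |(u - x₀).im|)) := by ring
      _ ≤ 2 * ‖w‖ * ‖D‖ := by gcongr
  have hsub : 1 - psi β (u - x₀) - 4 * cos (β * l) * w =
      -(4 * cos (β * l) * w * (2 * cos (β * l) * w + w ^ 2)) / (2 * w * D) := by
    have e1 : 1 - psi β (u - x₀) = 2 * cos (β * l) / D := by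
      rw [hD]
      exact one_sub_psi_eq h hu
    rw [e1]
    have h2 : (2 * w * D) ≠ 0 := mul_ne_zero (mul_ne_zero two_ne_zero hw0) hdne
    rw [eq_div_iff h2, sub_mul]
    have e3 : 2 * cos (β * l) / D * (2 * w * D) = 4 * cos (β * l) * w := by
      field_simp
      ring
    rw [e3, ← hQ]
    ring
  have hcl : ‖cos (β * l : ℂ)‖ ≤ 1 := by
    rw [← ofReal_mul, ← ofReal_cos, norm_real, Real.norm_eq_abs]
    exact Real.abs_cos_le_one _
  have hsubn : ‖1 - psi β (u - x₀) - 4 * cos (β * l) * w‖ ≤ 4 * G ^ 2 * (2 + G) / kap β s₀ * x ^ 2 := by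
    rw [hsub, norm_div, norm_neg]
    have h1 : ‖4 * cos (β * l) * w * (2 * cos (β * l) * w + w ^ 2)‖ ≤ 4 * (G * x) * ((2 + G) * (G * x)) := by
      have hGx : G * x ≤ G := by nlinarith
      have h2 : ‖2 * cos (β * l) * w + w ^ 2‖ ≤ (2 + G) * (G * x) := by
        refine (norm_add_le _ _).trans ?_
        rw [norm_mul, norm_mul, norm_pow, Complex.norm_ofNat]
        have h3 : 2 * ‖cos (β * l : ℂ)‖ * ‖w‖ ≤ 2 * 1 * (G * x) := by gcongr
        have h4 : ‖w‖ ^ 2 ≤ G * (G * x) := by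
          rw [sq]
          exact mul_le_mul (hwG.trans hGx) hwG (norm_nonneg _) (by linarith)
        linarith
      rw [norm_mul, norm_mul, norm_mul, Complex.norm_ofNat]
      calc 4 * ‖cos (β * l : ℂ)‖ * ‖w‖ * _ ≤ 4 * 1 * (G * x) * ((2 + G) * (G * x)) := by gcongr
        _ = _ := by ring
    calc _ ≤ 4 * (G * x) * ((2 + G) * (G * x)) / kap β s₀ := by
          gcongr
      _ = _ := by ring
  have hexp : 1 ≤ Real.exp (rowc β s₀ r) * Real.exp (-(rowc β s₀ r * (((1 : ℕ) : ℝ) * x))) := by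
    rw [← Real.exp_add]
    refine Real.one_le_exp ?_
    push_cast
    nlinarith
  have hs2 : ‖(2 * β * s : ℂ)‖ ≤ 2 * β := by
    rw [norm_mul, norm_mul, norm_real, norm_real, Real.norm_eq_abs, Real.norm_eq_abs,
      abs_of_pos hβ]
    simp only [Complex.norm_ofNat]
    nlinarith
  refine ⟨?_, ?_, ?_⟩
  · push_cast
    rw [one_mul]
    exact hP.norm_le
  · have e : I * psiD β (u - x₀) - 2 * β * s * Ep β s u * cof β s x₀ * psi β (u - x₀) =
        I * (psiD β (u - x₀) + 2 * β * I * s * (1 - psi β (u - x₀))) +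
          2 * β * s * (1 - psi β (u - x₀) - 4 * cos (β * l) * w) +
          2 * β * s * (cof β s x₀ * Ep β s u) * (1 - psi β (u - x₀)) := by
      rw [hAE]
      linear_combination (-(2 * β * s * (1 - psi β (u - x₀)))) * Complex.I_mul_I +
        (-(2 * β * s * psi β (u - x₀))) * hAE
    rw [e]
    have k1 : ‖I * (psiD β (u - x₀) + 2 * β * I * s * (1 - psi β (u - x₀)))‖ ≤ rowC β s₀ r * x ^ 2 := by
      rw [norm_mul, norm_I, one_mul]
      exact hP.der_le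
    have k2 : ‖2 * β * s * (1 - psi β (u - x₀) - 4 * cos (β * l) * w)‖ ≤
        2 * β * (4 * G ^ 2 * (2 + G) / kap β s₀ * x ^ 2) := by
      rw [norm_mul]
      gcongr
    have k3 : ‖2 * β * s * (cof β s x₀ * Ep β s u) * (1 - psi β (u - x₀))‖ ≤
        2 * β * (4 * G * x) * (rowC β s₀ r * x) := by
      rw [norm_mul, norm_mul, norm_mul (cof β s x₀), hE]
      have := hP.sub_le
      gcongr
    refine norm_add₃_le.trans ((add_le_add (add_le_add k1 k2) k3).trans ?_)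
    have hA : 0 ≤ (rowC β s₀ r + 2 * β * (4 * G ^ 2 * (2 + G) / kap β s₀) +
        8 * β * G * rowC β s₀ r) * x ^ 2 := by positivity
    have hG0 : 0 ≤ 4 * G * x ^ 2 * Real.exp (-(rowc β s₀ r * (((1 : ℕ) : ℝ) * x))) := by positivity
    calc _ = (rowC β s₀ r + 2 * β * (4 * G ^ 2 * (2 + G) / kap β s₀) +
        8 * β * G * rowC β s₀ r) * x ^ 2 * 1 := by ring
      _ ≤ (rowC β s₀ r + 2 * β * (4 * G ^ 2 * (2 + G) / kap β s₀) +
        8 * β * G * rowC β s₀ r) * x ^ 2 *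
          (Real.exp (rowc β s₀ r) * Real.exp (-(rowc β s₀ r * (((1 : ℕ) : ℝ) * x)))) :=
          mul_le_mul_of_nonneg_left hexp hA
      _ ≤ _ := by
        unfold prC
        rw [← hG]
        push_cast at hG0 ⊢
        linarith
  · refine hcof.trans ?_
    unfold prC
    rw [← hG]
    push_cast
    have : 0 ≤ (rowC β s₀ r + 2 * β * (4 * G ^ 2 * (2 + G) / kap β s₀) +
        8 * β * G * rowC β s₀ r) * Real.exp (rowc β s₀ r) := by positivity
    linarith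

end Pool.Agent.PB

end
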