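import Pool.Agent.PB.Field

/-!
# Plan B: the field of a row in a sea of rows at `± l/2` with finitely many extra rows

`rh z = M ph z + ∑ ε_i Pc (z - a_i)`, `xif a z = Pc (z - a) / rh z`:
* `xif_norm`, `xif_right`, `xif_left` : bound `C/M` and plateaus with error `(C/M) e^{-(32/3)|Re z|}`
  in `|Im z| ≤ b < l/2`;
* `xif_dat`, `xif_identity` : the mean field identity `ψ' ξ + ∫ (ξ t - ξ s) K ρ = vc' (t - a)`.
-/

set_option autoImplicit false

open MeasureTheory Set Filter Topology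

namespace Pool.Agent.PB

open NUMF

noncomputable section

/-- constant of the plateau estimate -/
def Ky (b : ℝ) : ℝ := Real.exp (8 / 3) * (2 * (1 + Real.exp (8 / 3) ^ 2 + Real.exp (8 / 3) ^ 4)) /
        (kb b ^ 2 / 4 * (1 / 2))

lemma Ky_pos {b : ℝ} (hb0 : 0 ≤ b) (hb : b < l) : 0 < Ky b := by
  have hk : 0 < kb b := kb_pos (by rw [abs_of_nonneg hb0]; exact hb)
  unfold Ky
  positivity

lemma yq_left {b : ℝ} (hb : b < l) {a z : ℂ} (hre : |a.re| ≤ 1) (hz : |z.im| < l / 2)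
    (ha : |(z - a).im| ≤ b) (h0 : z.re ≤ 0) :
    ‖yq a z - Complex.exp (-(8 / 3 * a)) / (√3 : ℝ)‖ ≤ Ky b * Real.exp (-(32 / 3) * |z.re|) := by
  have h := yq_right hb (a := -a) (z := -z) (by rw [Complex.neg_re, abs_neg]; exact hre)
    (by rw [Complex.neg_im, abs_neg]; exact hz)
    (by
      have : -z - -a = -(z - a) := by ring
      rw [this, Complex.neg_im, abs_neg]
      exact ha) (by rw [Complex.neg_re]; linarith)
  rw [yq_neg, Complex.neg_re, abs_neg, mul_neg] at h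
  exact h

lemma norm_pl {a : ℂ} (ha : |a.re| ≤ 1) : ‖Complex.exp (8 / 3 * a) / (√3 : ℝ)‖ ≤ Real.exp (8 / 3) ∧
    ‖Complex.exp (-(8 / 3 * a)) / (√3 : ℝ)‖ ≤ Real.exp (8 / 3) := by
  have h3 : (1 : ℝ) ≤ √3 := by
    rw [show (1:ℝ) = √1 by rw [Real.sqrt_one]]
    exact Real.sqrt_le_sqrt (by norm_num)
  have ha' := abs_le.1 ha
  have e2 : (8 / 3 : ℂ) * a = ((8 / 3 : ℝ) : ℂ) * a := by push_cast; ring
  have r2 : (8 / 3 * a : ℂ).re = 8 / 3 * a.re := by rw [e2, Complex.re_ofReal_mul]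
  constructor
  · rw [norm_div, Complex.norm_real, Real.norm_eq_abs, abs_of_pos sq3_pos, norm_exp_re, r2]
    refine (div_le_self (Real.exp_pos _).le h3).trans (Real.exp_le_exp.2 (by linarith [ha'.2]))
  · rw [norm_div, Complex.norm_real, Real.norm_eq_abs, abs_of_pos sq3_pos, norm_exp_re, Complex.neg_re, r2]
    refine (div_le_self (Real.exp_pos _).le h3).trans (Real.exp_le_exp.2 (by linarith [ha'.1]))

/-- bound of `yq` -/
def Kq (b : ℝ) : ℝ := Ky (b + l / 2) + Real.exp (8 / 3)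

lemma Kq_pos {b : ℝ} (hb0 : 0 ≤ b) (hb : b < l / 2) : 1 ≤ Kq b := by
  have h1 := Ky_pos (b := b + l / 2) (by have := l_pos; linarith) (by linarith)
  have h2 : 1 ≤ Real.exp (8 / 3) := Real.one_le_exp (by norm_num)
  unfold Kq
  linarith

lemma im_sub_le {b : ℝ} {a z : ℂ} (hz : |z.im| ≤ b) (ha : |a.im| ≤ l / 2) : |(z - a).im| ≤ b + l / 2 := by
  rw [Complex.sub_im]
  exact (abs_sub _ _).trans (add_le_add hz ha)

lemma yq_norm {b : ℝ} (hb : b < l / 2) {a z : ℂ} (hre : |a.re| ≤ 1) (him : |a.im| ≤ l / 2)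
    (hz : |z.im| ≤ b) : ‖yq a z‖ ≤ Kq b := by
  have hb0 : 0 ≤ b := (abs_nonneg _).trans hz
  have hc : b + l / 2 < l := by linarith
  have hK := Ky_pos (b := b + l / 2) (by have := l_pos; linarith) hc
  have hE : Real.exp (-(32 / 3) * |z.re|) ≤ 1 := by
    rw [Real.exp_le_one_iff]
    have := abs_nonneg z.re
    linarith
  obtain ⟨p1, p2⟩ := norm_pl hre
  rcases le_total 0 z.re with h0 | h0
  · have h1 := yq_right hc hre (lt_of_le_of_lt hz hb) (im_sub_le hz him) h0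
    have h1' : ‖yq a z - Complex.exp (8 / 3 * a) / (√3 : ℝ)‖ ≤ Ky (b + l / 2) :=
      h1.trans (mul_le_of_le_one_right hK.le hE)
    have h2 := norm_le_norm_sub_add (yq a z) (Complex.exp (8 / 3 * a) / (√3 : ℝ))
    unfold Kq
    linarith
  · have h1 := yq_left hc hre (lt_of_le_of_lt hz hb) (im_sub_le hz him) h0
    have h1' : ‖yq a z - Complex.exp (-(8 / 3 * a)) / (√3 : ℝ)‖ ≤ Ky (b + l / 2) :=
      h1.trans (mul_le_of_le_one_right hK.le hE)
    have h2 := norm_le_norm_sub_add (yq a z) (Complex.exp (-(8 / 3 * a)) / (√3 : ℝ))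
    unfold Kq
    linarith

variable {ι : Type*}

/-- the density of the sea, `M` pairs of rows at `± l/2` and the extra rows `a i` with weights `ε i` -/
def rh (M : ℝ) (S : Finset ι) (ε a : ι → ℂ) (z : ℂ) : ℂ := M * ph z + ∑ i ∈ S, ε i * Pc (z - a i)

/-- the density relative to `ph` -/
def dn (M : ℝ) (S : Finset ι) (ε a : ι → ℂ) (z : ℂ) : ℂ := M + ∑ i ∈ S, ε i * yq (a i) z

/-- the limits of `dn` -/
def dnr (M : ℝ) (S : Finset ι) (ε a : ι → ℂ) : ℂ :=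
  M + ∑ i ∈ S, ε i * (Complex.exp (8 / 3 * a i) / (√3 : ℝ))

def dnl (M : ℝ) (S : Finset ι) (ε a : ι → ℂ) : ℂ :=
  M + ∑ i ∈ S, ε i * (Complex.exp (-(8 / 3 * a i)) / (√3 : ℝ))

/-- the field of a row at `a0` -/
def xif (M : ℝ) (S : Finset ι) (ε a : ι → ℂ) (a0 z : ℂ) : ℂ := Pc (z - a0) / rh M S ε a z

lemma rh_eq {M : ℝ} {S : Finset ι} {ε a : ι → ℂ} {z : ℂ} (hz : |z.im| < l / 2) :
    rh M S ε a z = ph z * dn M S ε a z := by
  have hn := ph_ne hz
  unfold rh dn yq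
  rw [mul_add, Finset.mul_sum, mul_comm]
  congr 1
  refine Finset.sum_congr rfl fun i _ => ?_
  field_simp

lemma xif_eq {M : ℝ} {S : Finset ι} {ε a : ι → ℂ} {a0 z : ℂ} (hz : |z.im| < l / 2) :
    xif M S ε a a0 z = yq a0 z / dn M S ε a z := by
  unfold xif yq
  rw [rh_eq hz, div_div]

/-- hypotheses on the extra rows -/
structure Ext (b M : ℝ) (S : Finset ι) (ε a : ι → ℂ) (E : ℝ) : Prop where
  b0 : 0 ≤ b
  bl : b < l / 2
  re : ∀ i ∈ S, |(a i).re| ≤ 1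
  im : ∀ i ∈ S, |(a i).im| ≤ l / 2
  sum : ∑ i ∈ S, ‖ε i‖ ≤ E
  M0 : 0 < M
  ME : 2 * Kq b * E ≤ M

variable {b M E : ℝ} {S : Finset ι} {ε a : ι → ℂ}

lemma Ext.E0 (H : Ext b M S ε a E) : 0 ≤ E := (Finset.sum_nonneg fun _ _ => norm_nonneg _).trans H.sum

lemma sum_near {f : ι → ℂ} {K : ℝ} (hK : 0 ≤ K) (hf : ∀ i ∈ S, ‖f i‖ ≤ K) (hs : ∑ i ∈ S, ‖ε i‖ ≤ E) :
    ‖∑ i ∈ S, ε i * f i‖ ≤ E * K := by
  calc ‖∑ i ∈ S, ε i * f i‖ ≤ ∑ i ∈ S, ‖ε i * f i‖ := norm_sum_le _ _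
    _ ≤ ∑ i ∈ S, ‖ε i‖ * K := by
        refine Finset.sum_le_sum fun i hi => ?_
        rw [norm_mul]
        exact mul_le_mul_of_nonneg_left (hf i hi) (norm_nonneg _)
    _ = (∑ i ∈ S, ‖ε i‖) * K := by rw [Finset.sum_mul]
    _ ≤ E * K := mul_le_mul_of_nonneg_right hs hK

lemma half_of_near {M x : ℝ} {s : ℂ} (_hM : 0 < M) (h1 : ‖s‖ ≤ x) (h2 : 2 * x ≤ M) : M / 2 ≤ ‖(M : ℂ) + s‖ := by
  have h3 : ‖(M : ℂ)‖ = M := by rw [Complex.norm_real, Real.norm_eq_abs, abs_of_pos _hM]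
  have h4 := norm_sub_le_norm_add (M : ℂ) s
  rw [h3] at h4
  linarith

lemma dn_ge (H : Ext b M S ε a E) {z : ℂ} (hz : |z.im| ≤ b) : M / 2 ≤ ‖dn M S ε a z‖ := by
  have hK := Kq_pos H.b0 H.bl
  refine half_of_near H.M0 (sum_near (K := Kq b) (by linarith) (fun i hi =>
    yq_norm H.bl (H.re i hi) (H.im i hi) hz) H.sum) ?_
  have := H.ME
  linarith

lemma dnr_ge (H : Ext b M S ε a E) : M / 2 ≤ ‖dnr M S ε a‖ := by
  have hK := Kq_pos H.b0 H.bl
  have hK2 := Ky_pos (b := b + l / 2) (by have := l_pos; have := H.b0; linarith) (by have := H.bl; linarith)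
  refine half_of_near H.M0 (sum_near (K := Kq b) (by linarith) (fun i hi => ?_) H.sum) ?_
  · refine (norm_pl (H.re i hi)).1.trans ?_
    unfold Kq
    linarith
  · have := H.ME
    linarith

lemma dnl_ge (H : Ext b M S ε a E) : M / 2 ≤ ‖dnl M S ε a‖ := by
  have hK := Kq_pos H.b0 H.bl
  have hK2 := Ky_pos (b := b + l / 2) (by have := l_pos; have := H.b0; linarith) (by have := H.bl; linarith)
  refine half_of_near H.M0 (sum_near (K := Kq b) (by linarith) (fun i hi => ?_) H.sum) ?_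
  · refine (norm_pl (H.re i hi)).2.trans ?_
    unfold Kq
    linarith
  · have := H.ME
    linarith

lemma dn_ne (H : Ext b M S ε a E) {z : ℂ} (hz : |z.im| ≤ b) : dn M S ε a z ≠ 0 := by
  have h1 := dn_ge H hz
  have h2 := H.M0
  exact norm_pos_iff.1 (by linarith)

lemma rh_ne (H : Ext b M S ε a E) {z : ℂ} (hz : |z.im| ≤ b) : rh M S ε a z ≠ 0 := by
  rw [rh_eq (lt_of_le_of_lt hz H.bl)]
  exact mul_ne_zero (ph_ne (lt_of_le_of_lt hz H.bl)) (dn_ne H hz)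

/-- the field is `O(1/M)` -/
theorem xif_norm (H : Ext b M S ε a E) {a0 z : ℂ} (hre : |a0.re| ≤ 1) (him : |a0.im| ≤ l / 2)
    (hz : |z.im| ≤ b) : ‖xif M S ε a a0 z‖ ≤ 2 * Kq b / M := by
  have h1 := dn_ge H hz
  have h2 := yq_norm H.bl hre him hz
  have hM := H.M0
  have hK := Kq_pos H.b0 H.bl
  rw [xif_eq (lt_of_le_of_lt hz H.bl), norm_div, div_le_div_iff₀ (by linarith) hM]
  calc ‖yq a0 z‖ * M ≤ Kq b * M := mul_le_mul_of_nonneg_right h2 hM.le
    _ = 2 * Kq b * (M / 2) := by ring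
    _ ≤ _ := mul_le_mul_of_nonneg_left h1 (by linarith)

lemma ratio_diff {y p D D1 : ℂ} {e K : ℝ} (hM : 0 < M) (he : 0 ≤ e) (hK : 0 ≤ K) (hE : 0 ≤ E)
    (hy : ‖y - p‖ ≤ K * e) (hp : ‖p‖ ≤ K) (hD : M / 2 ≤ ‖D‖) (hD1 : M / 2 ≤ ‖D1‖)
    (hDD : ‖D - D1‖ ≤ E * (K * e)) (hME : 2 * K * E ≤ M) : ‖y / D - p / D1‖ ≤ 4 * K / M * e := by
  have hD0 : D ≠ 0 := norm_pos_iff.1 (by linarith)
  have hD10 : D1 ≠ 0 := norm_pos_iff.1 (by linarith)
  have hK0 : 0 ≤ K := hK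
  have e1 : y / D - p / D1 = (y - p) / D - p * (D - D1) / (D * D1) := by
    field_simp
    ring
  rw [e1]
  have t1 : ‖(y - p) / D‖ ≤ 2 * K / M * e := by
    rw [norm_div, div_le_iff₀ (by linarith)]
    calc ‖y - p‖ ≤ K * e := hy
      _ = 2 * K / M * e * (M / 2) := by field_simp
      _ ≤ _ := mul_le_mul_of_nonneg_left hD (by positivity)
  have t2 : ‖p * (D - D1) / (D * D1)‖ ≤ 2 * K / M * e := by
    rw [norm_div, norm_mul, norm_mul, div_le_iff₀ (mul_pos (by linarith) (by linarith))]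
    have h1 : M / 2 * (M / 2) ≤ ‖D‖ * ‖D1‖ := mul_le_mul hD hD1 (by linarith) (norm_nonneg _)
    calc ‖p‖ * ‖D - D1‖ ≤ K * (E * (K * e)) := mul_le_mul hp hDD (norm_nonneg _) hK
      _ = (2 * K * E) * (K * e / 2) := by ring
      _ ≤ M * (K * e / 2) := mul_le_mul_of_nonneg_right hME (by positivity)
      _ = 2 * K / M * e * (M / 2 * (M / 2)) := by field_simp
      _ ≤ _ := mul_le_mul_of_nonneg_left h1 (by positivity)
  calc _ ≤ _ := norm_sub_le _ _
    _ ≤ 2 * K / M * e + 2 * K / M * e := add_le_add t1 t2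
    _ = _ := by ring

/-- the right plateau -/
theorem xif_right (H : Ext b M S ε a E) {a0 z : ℂ} (hre : |a0.re| ≤ 1) (him : |a0.im| ≤ l / 2)
    (hz : |z.im| ≤ b) (h0 : 0 ≤ z.re) :
    ‖xif M S ε a a0 z - Complex.exp (8 / 3 * a0) / (√3 : ℝ) / dnr M S ε a‖ ≤
      4 * Kq b / M * Real.exp (-(32 / 3) * |z.re|) := by
  have hK := Kq_pos H.b0 H.bl
  have hl := l_pos
  have hc : b + l / 2 < l := by have := H.bl; linarith
  have hK2 := Ky_pos (b := b + l / 2) (by have := H.b0; linarith) hc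
  have hKK : Ky (b + l / 2) ≤ Kq b := by
    unfold Kq
    have := Real.exp_pos (8 / 3)
    linarith
  have hKe : Real.exp (8 / 3) ≤ Kq b := by unfold Kq; linarith
  have hz' := lt_of_le_of_lt hz H.bl
  have hE := Real.exp_pos (-(32 / 3) * |z.re|)
  rw [xif_eq hz']
  have hy : ∀ a : ℂ, |a.re| ≤ 1 → |a.im| ≤ l / 2 →
      ‖yq a z - Complex.exp (8 / 3 * a) / (√3 : ℝ)‖ ≤ Kq b * Real.exp (-(32 / 3) * |z.re|) := by
    intro a h1 h2
    exact (yq_right hc h1 hz' (im_sub_le hz h2) h0).trans (mul_le_mul_of_nonneg_right hKK hE.le)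
  refine ratio_diff H.M0 hE.le (by linarith) H.E0 (hy a0 hre him) ((norm_pl hre).1.trans hKe)
    (dn_ge H hz) (dnr_ge H) ?_ H.ME
  have e1 : dn M S ε a z - dnr M S ε a =
      ∑ i ∈ S, ε i * (yq (a i) z - Complex.exp (8 / 3 * a i) / (√3 : ℝ)) := by
    unfold dn dnr
    rw [add_sub_add_left_eq_sub, ← Finset.sum_sub_distrib]
    refine Finset.sum_congr rfl fun i _ => ?_
    ring
  rw [e1]
  exact sum_near (by positivity) (fun i hi => hy _ (H.re i hi) (H.im i hi)) H.sum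

/-- the left plateau -/
theorem xif_left (H : Ext b M S ε a E) {a0 z : ℂ} (hre : |a0.re| ≤ 1) (him : |a0.im| ≤ l / 2)
    (hz : |z.im| ≤ b) (h0 : z.re ≤ 0) :
    ‖xif M S ε a a0 z - Complex.exp (-(8 / 3 * a0)) / (√3 : ℝ) / dnl M S ε a‖ ≤
      4 * Kq b / M * Real.exp (-(32 / 3) * |z.re|) := by
  have hK := Kq_pos H.b0 H.bl
  have hl := l_pos
  have hc : b + l / 2 < l := by have := H.bl; linarith
  have hK2 := Ky_pos (b := b + l / 2) (by have := H.b0; linarith) hc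
  have hKK : Ky (b + l / 2) ≤ Kq b := by
    unfold Kq
    have := Real.exp_pos (8 / 3)
    linarith
  have hKe : Real.exp (8 / 3) ≤ Kq b := by unfold Kq; linarith
  have hz' := lt_of_le_of_lt hz H.bl
  have hE := Real.exp_pos (-(32 / 3) * |z.re|)
  rw [xif_eq hz']
  have hy : ∀ a : ℂ, |a.re| ≤ 1 → |a.im| ≤ l / 2 →
      ‖yq a z - Complex.exp (-(8 / 3 * a)) / (√3 : ℝ)‖ ≤ Kq b * Real.exp (-(32 / 3) * |z.re|) := by
    intro a h1 h2
    exact (yq_left hc h1 hz' (im_sub_le hz h2) h0).trans (mul_le_mul_of_nonneg_right hKK hE.le)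
  refine ratio_diff H.M0 hE.le (by linarith) H.E0 (hy a0 hre him) ((norm_pl hre).2.trans hKe)
    (dn_ge H hz) (dnl_ge H) ?_ H.ME
  have e1 : dn M S ε a z - dnl M S ε a =
      ∑ i ∈ S, ε i * (yq (a i) z - Complex.exp (-(8 / 3 * a i)) / (√3 : ℝ)) := by
    unfold dn dnl
    rw [add_sub_add_left_eq_sub, ← Finset.sum_sub_distrib]
    refine Finset.sum_congr rfl fun i _ => ?_
    ring
  rw [e1]
  exact sum_near (by positivity) (fun i hi => hy _ (H.re i hi) (H.im i hi)) H.sum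

lemma rh_diff {z : ℂ} (hz : |z.im| < l / 2) (him : ∀ i ∈ S, |(a i).im| ≤ l / 2) :
    DifferentiableAt ℂ (rh M S ε a) z := by
  unfold rh
  refine ((ph_diff hz).const_mul _).add (DifferentiableAt.fun_sum fun i hi => ?_)
  have h1 : |(z - a i).im| < l := by
    have := im_sub_le (le_refl |z.im|) (him i hi)
    linarith
  exact (DifferentiableAt.comp z (g := Pc) (f := fun z => z - a i) (Pc_diff h1) (by fun_prop)).const_mul _

/-- the field is analytic -/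
theorem xif_diff (H : Ext b M S ε a E) {a0 z : ℂ} (him : |a0.im| ≤ l / 2) (hz : |z.im| ≤ b) :
    DifferentiableAt ℂ (xif M S ε a a0) z := by
  have hz' := lt_of_le_of_lt hz H.bl
  have h1 : |(z - a0).im| < l := by
    have := im_sub_le (le_refl |z.im|) him
    linarith
  exact (DifferentiableAt.comp z (g := Pc) (f := fun z => z - a0) (Pc_diff h1) (by fun_prop)).div
    (rh_diff hz' H.im) (rh_ne H hz)

end

end Pool.Agent.PB
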