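import Pool.Agent.PB.Field2

/-!
# Plan B: the sea and the field on the real line, mean field identity, derivatives

* `xif_dat` : the sea `rh` and the row `Pc (. - a0)` form a `XiDatC`;
* `xif_identity` : `ψ' ξ + ∫ (ξ t - ξ s) K (t - s) ρ s ds = vc' (t - a0)`;
* `xif_const` : the constant term;
* `xif_iter` : all derivatives of the field are `(C/M) e^{-(32/3)|Re z|}` in smaller strips.
-/

set_option autoImplicit false

open MeasureTheory Set Filter Topology

namespace Pool.Agent.PB

open NUMF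

noncomputable section

/-- one row on the real line -/
lemma row_line {a : ℂ} (ha : |a.im| < l) : ∃ C : ℝ, 0 ≤ C ∧
    (∀ t : ℝ, ‖Pc (t - a)‖ ≤ C) ∧ (∀ t : ℝ, ‖deriv Pc (t - a)‖ ≤ C) ∧
    (∀ t : ℝ, HasDerivAt (fun t : ℝ => Pc (t - a)) (deriv Pc (t - a)) t) ∧
    (Continuous fun t : ℝ => deriv Pc (t - a)) ∧
    Integrable (fun t : ℝ => Pc (t - a)) ∧ Integrable (fun t : ℝ => deriv Pc (t - a)) := by
  obtain ⟨C, hC0, hC⟩ := Pc_bdd (abs_nonneg a.im) ha
  have him : ∀ t : ℝ, |((t : ℂ) - a).im| = |a.im| := fun t => by simp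
  have hre : ∀ t : ℝ, ((t : ℂ) - a).re = t - a.re := fun t => by simp
  have h1 : ∀ t : ℝ, ‖Pc (t - a)‖ ≤ C * Real.exp (-(8 / 3) * |t - a.re|) := fun t => by
    have := (hC ((t : ℂ) - a) (him t).le).1
    rwa [hre] at this
  have h2 : ∀ t : ℝ, ‖deriv Pc (t - a)‖ ≤ C * Real.exp (-(8 / 3) * |t - a.re|) := fun t => by
    have := (hC ((t : ℂ) - a) (him t).le).2
    rwa [hre] at this
  have h3 : ∀ t : ℝ, Real.exp (-(8 / 3) * |t - a.re|) ≤ 1 := fun t => by
    rw [Real.exp_le_one_iff]
    have := abs_nonneg (t - a.re)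
    linarith
  have hd : ∀ t : ℝ, HasDerivAt (fun t : ℝ => Pc (t - a)) (deriv Pc (t - a)) t := by
    intro t
    have k1 : HasDerivAt Pc (deriv Pc ((t : ℂ) - a)) ((t : ℂ) - a) :=
      (Pc_diff (by rw [him]; exact ha)).hasDerivAt
    have k2 : HasDerivAt (fun z : ℂ => Pc (z - a)) (deriv Pc ((t : ℂ) - a)) (t : ℂ) := by
      have := k1.comp (t : ℂ) ((hasDerivAt_id (t : ℂ)).sub_const a)
      rwa [mul_one] at this
    exact k2.comp_ofReal
  have hc : Continuous fun t : ℝ => deriv Pc (t - a) := by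
    have hc : ContinuousOn (deriv Pc) {w : ℂ | |w.im| < l} := fun w hw =>
      (Pc_analyticAt hw).deriv.continuousAt.continuousWithinAt
    refine hc.comp_continuous (by fun_prop) fun t => ?_
    simpa using ha
  have hc0 : Continuous fun t : ℝ => Pc (t - a) := continuous_iff_continuousAt.2 fun t => (hd t).continuousAt
  have hi : Integrable fun t : ℝ => C * Real.exp (-(8 / 3) * |t - a.re|) :=
    ((int_exp_abs (b := 8 / 3) (by norm_num)).comp_sub_right a.re).const_mul C
  exact ⟨C, hC0, fun t => (h1 t).trans (mul_le_of_le_one_right hC0 (h3 t)),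
    fun t => (h2 t).trans (mul_le_of_le_one_right hC0 (h3 t)), hd, hc,
    hi.mono' hc0.aestronglyMeasurable (Eventually.of_forall h1),
    hi.mono' hc.aestronglyMeasurable (Eventually.of_forall h2)⟩

variable {ι : Type*} {b M E : ℝ} {S : Finset ι} {ε a : ι → ℂ}

/-- the base rows as rows `(·) - a` -/
def rp : ℂ := (l / 2 : ℝ) * Complex.I

lemma rp_im : |rp.im| < l ∧ |(-rp).im| < l := by
  have hl := l_pos
  have h : rp.im = l / 2 := by unfold rp; simp
  rw [Complex.neg_im, abs_neg, h, abs_of_pos (by linarith)]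
  exact ⟨by linarith, by linarith⟩

/-- derivative of the sea -/
def rhd (M : ℝ) (S : Finset ι) (ε a : ι → ℂ) (z : ℂ) : ℂ :=
  M * (deriv Pc (z - -rp) + deriv Pc (z - rp)) + ∑ i ∈ S, ε i * deriv Pc (z - a i)

/-- the force of the rows -/
def force (M : ℝ) (S : Finset ι) (ε a : ι → ℂ) (z : ℂ) : ℂ :=
  M * (deriv vc (z - -rp) + deriv vc (z - rp)) + ∑ i ∈ S, ε i * deriv vc (z - a i)

lemma rh_line (t : ℂ) : rh M S ε a t = M * (Pc (t - -rp) + Pc (t - rp)) + ∑ i ∈ S, ε i * Pc (t - a i) := by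
  unfold rh ph rp
  rw [sub_neg_eq_add]

lemma sum_bdd {f : ι → ℝ → ℂ} (S : Finset ι) (h : ∀ i ∈ S, ∃ C : ℝ, 0 ≤ C ∧ ∀ t, ‖f i t‖ ≤ C) :
    ∃ C : ℝ, 0 ≤ C ∧ ∀ t, ‖∑ i ∈ S, ε i * f i t‖ ≤ C := by
  classical
  induction S using Finset.induction_on with
  | empty => exact ⟨0, le_rfl, fun t => by simp⟩
  | insert i S hi ih =>
    obtain ⟨C1, h1, H1⟩ := ih fun j hj => h j (Finset.mem_insert_of_mem hj)
    obtain ⟨C2, h2, H2⟩ := h i (Finset.mem_insert_self _ _)
    refine ⟨‖ε i‖ * C2 + C1, by positivity, fun t => ?_⟩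
    rw [Finset.sum_insert hi]
    refine (norm_add_le _ _).trans (add_le_add ?_ (H1 t))
    rw [norm_mul]
    exact mul_le_mul_of_nonneg_left (H2 t) (norm_nonneg _)

/-- the sea and the row form a datum of the mean field identities -/
theorem xif_dat (H : Ext b M S ε a E) {a0 : ℂ} (h0 : |a0.im| ≤ l / 2) : ∃ B : ℝ,
    XiDatC (fun t : ℝ => rh M S ε a t) (fun t : ℝ => rhd M S ε a t) (fun t : ℝ => Pc (t - a0))
      (fun t : ℝ => deriv Pc (t - a0)) B := by
  have hl := l_pos
  have him : ∀ i ∈ S, |(a i).im| < l := fun i hi => by have := H.im i hi; linarith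
  obtain ⟨Cp, hp0, p1, p2, p3, p4, p5, p6⟩ := row_line rp_im.1
  obtain ⟨Cm, hm0, m1, m2, m3, m4, m5, m6⟩ := row_line rp_im.2
  obtain ⟨C0, h00, q1, q2, q3, q4, q5, q6⟩ := row_line (a := a0) (by linarith)
  obtain ⟨D1, hD1, H1⟩ := sum_bdd (ε := ε) (f := fun i t => Pc (t - a i)) S fun i hi => by
    obtain ⟨C, hC, k1, -⟩ := row_line (him i hi)
    exact ⟨C, hC, k1⟩
  obtain ⟨D2, hD2, H2⟩ := sum_bdd (ε := ε) (f := fun i t => deriv Pc (t - a i)) S fun i hi => by
    obtain ⟨C, hC, -, k1, -⟩ := row_line (him i hi)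
    exact ⟨C, hC, k1⟩
  have hM : ‖(M : ℂ)‖ = M := by rw [Complex.norm_real, Real.norm_eq_abs, abs_of_pos H.M0]
  have hM0 := H.M0
  have e0 : (fun t : ℝ => rh M S ε a t) =
      fun t : ℝ => M * (Pc (t - -rp) + Pc (t - rp)) + ∑ i ∈ S, ε i * Pc (t - a i) := by
    funext t
    exact rh_line _
  refine ⟨max (max (M * (Cm + Cp) + D1) (M * (Cm + Cp) + D2)) C0, ?_⟩
  refine ⟨?_, q3, ?_, q4, ?_, ?_, ?_, ?_, ?_, ?_, ?_, q5, q6⟩
  · intro t
    rw [e0]
    exact (((m3 t).add (p3 t)).const_mul (M : ℂ)).add (HasDerivAt.fun_sum fun i hi => by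
      obtain ⟨C, hC, -, -, k3, -⟩ := row_line (him i hi)
      exact (k3 t).const_mul (ε i))
  · have : (fun t : ℝ => rhd M S ε a t) = fun t : ℝ => M * (deriv Pc (t - -rp) + deriv Pc (t - rp)) +
        ∑ i ∈ S, ε i * deriv Pc (t - a i) := rfl
    rw [this]
    refine (continuous_const.mul (m4.add p4)).add (continuous_finsetSum _ fun i hi => ?_)
    obtain ⟨C, hC, -, -, -, k4, -⟩ := row_line (him i hi)
    exact continuous_const.mul k4
  · intro s
    show ‖rh M S ε a s‖ ≤ _
    rw [rh_line]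
    refine le_trans ?_ ((le_max_left _ _).trans (le_max_left _ _))
    refine (norm_add_le _ _).trans (add_le_add ?_ (H1 s))
    rw [norm_mul, hM]
    exact mul_le_mul_of_nonneg_left ((norm_add_le _ _).trans (add_le_add (m1 s) (p1 s))) hM0.le
  · intro s
    refine le_trans ?_ ((le_max_right _ _).trans (le_max_left _ _))
    unfold rhd
    refine (norm_add_le _ _).trans (add_le_add ?_ (H2 s))
    rw [norm_mul, hM]
    exact mul_le_mul_of_nonneg_left ((norm_add_le _ _).trans (add_le_add (m2 s) (p2 s))) hM0.le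
  · intro s
    exact (q1 s).trans (le_max_right _ _)
  · intro s
    exact (q2 s).trans (le_max_right _ _)
  · intro s
    exact rh_ne H (by simpa using H.b0)
  · rw [e0]
    refine ((m5.add p5).const_mul (M : ℂ)).add (integrable_finsetSum _ fun i hi => ?_)
    obtain ⟨C, hC, -, -, -, -, k5, -⟩ := row_line (him i hi)
    exact k5.const_mul (ε i)
  · have : (fun t : ℝ => rhd M S ε a t) = fun t : ℝ => M * (deriv Pc (t - -rp) + deriv Pc (t - rp)) +
        ∑ i ∈ S, ε i * deriv Pc (t - a i) := rfl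
    rw [this]
    refine ((m6.add p6).const_mul (M : ℂ)).add (integrable_finsetSum _ fun i hi => ?_)
    obtain ⟨C, hC, -, -, -, -, -, k6⟩ := row_line (him i hi)
    exact k6.const_mul (ε i)

/-- the force of the sea is the force of the rows -/
theorem conv_rhd (H : Ext b M S ε a E) (t : ℝ) :
    ∫ s : ℝ, rhd M S ε a s * (V (t - s) : ℂ) = force M S ε a t := by
  have hl := l_pos
  have him : ∀ i ∈ S, |(a i).im| < l := fun i hi => by have := H.im i hi; linarith
  obtain ⟨i1, e1⟩ := conv_dVc_row rp_im.2 t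
  obtain ⟨i2, e2⟩ := conv_dVc_row rp_im.1 t
  have e0 : (fun s : ℝ => rhd M S ε a s * (V (t - s) : ℂ)) = fun s : ℝ =>
      M * (deriv Pc (s - -rp) * (V (t - s) : ℂ) + deriv Pc (s - rp) * (V (t - s) : ℂ)) +
        ∑ i ∈ S, ε i * (deriv Pc (s - a i) * (V (t - s) : ℂ)) := by
    funext s
    unfold rhd
    rw [add_mul, Finset.sum_mul]
    congr 1
    · ring
    · refine Finset.sum_congr rfl fun i _ => ?_
      ring
  have i3 : ∀ i ∈ S, Integrable fun s : ℝ => ε i * (deriv Pc (s - a i) * (V (t - s) : ℂ)) := fun i hi =>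
    (conv_dVc_row (him i hi) t).1.const_mul (ε i)
  have i12 : Integrable fun s : ℝ => (M : ℂ) * (deriv Pc (s - -rp) * (V (t - s) : ℂ) +
      deriv Pc (s - rp) * (V (t - s) : ℂ)) := (i1.add i2).const_mul _
  rw [e0, integral_add i12 (integrable_finsetSum _ i3), integral_const_mul,
    integral_add i1 i2, e1, e2, integral_finsetSum _ i3]
  unfold force
  congr 1
  refine Finset.sum_congr rfl fun i hi => ?_
  rw [integral_const_mul, (conv_dVc_row (him i hi) t).2]

/-- **the mean field identity of the moved row** -/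
theorem xif_identity (H : Ext b M S ε a E) {a0 : ℂ} (h0 : |a0.im| ≤ l / 2) (t : ℝ) :
    Integrable (fun s : ℝ => (xif M S ε a a0 t - xif M S ε a a0 s) * KC (t - s) * rh M S ε a s) ∧
    force M S ε a t * xif M S ε a a0 t +
      ∫ s : ℝ, (xif M S ε a a0 t - xif M S ε a a0 s) * KC (t - s) * rh M S ε a s =
      deriv vc (t - a0) := by
  obtain ⟨B, D⟩ := xif_dat H h0
  obtain ⟨k1, k2⟩ := mf_xiC D t
  refine ⟨k1, ?_⟩
  have hl := l_pos
  rw [conv_rhd H t, (conv_dVc_row (a := a0) (by linarith) t).2] at k2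
  exact k2

/-- the constant term of the Ward identity -/
theorem xif_const (H : Ext b M S ε a E) {a0 : ℂ} (h0 : |a0.im| ≤ l / 2) :
    2 * (∫ t : ℝ, Pc (t - a0) * force M S ε a t) +
      ∫ t : ℝ, rh M S ε a t *
        ∫ s : ℝ, (xif M S ε a a0 t - xif M S ε a a0 s) * KC (t - s) * rh M S ε a s = 0 := by
  obtain ⟨B, D⟩ := xif_dat H h0
  have k := mf_constC D
  simp_rw [conv_rhd H] at k
  exact k

/-! ### derivatives -/

/-- Cauchy estimates for a function with two plateaus -/
theorem plateau_iter {f : ℂ → ℂ} {b b' κ A : ℝ} {p m : ℂ} (hb' : 0 ≤ b') (hb : b' < b) (hκ : 0 ≤ κ)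
    (hA : 0 ≤ A) (hd : ∀ z : ℂ, |z.im| ≤ b → DifferentiableAt ℂ f z)
    (hr : ∀ z : ℂ, |z.im| ≤ b → 0 ≤ z.re → ‖f z - p‖ ≤ A * Real.exp (-κ * |z.re|))
    (hm : ∀ z : ℂ, |z.im| ≤ b → z.re ≤ 0 → ‖f z - m‖ ≤ A * Real.exp (-κ * |z.re|))
    {n : ℕ} (hn : n ≠ 0) {z : ℂ} (hz : |z.im| ≤ b') :
    ‖iteratedDeriv n f z‖ ≤ n.factorial * (3 * A * Real.exp (κ * (b - b')) * Real.exp (-κ * |z.re|)) /
      (b - b') ^ n := by
  have hδ : 0 < b - b' := by linarith
  set δ := b - b' with hδd
  have hpm : ‖p - m‖ ≤ 2 * A := by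
    have h1 := hr 0 (by simpa using (by linarith : 0 ≤ b)) (by simp)
    have h2 := hm 0 (by simpa using (by linarith : 0 ≤ b)) (by simp)
    simp only [Complex.zero_re, abs_zero, mul_zero, Real.exp_zero, mul_one] at h1 h2
    have h3 : p - m = (f 0 - m) - (f 0 - p) := by ring
    rw [h3]
    exact (norm_sub_le _ _).trans (by linarith)
  -- one side
  have key : ∀ c c' : ℂ, ‖c - c'‖ ≤ 2 * A →
      (∀ w ∈ Metric.sphere z δ, ‖f w - c‖ ≤ A * Real.exp (-κ * |w.re|) ∨
        (‖f w - c'‖ ≤ A * Real.exp (-κ * |w.re|) ∧ |z.re| ≤ δ)) →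
      ‖iteratedDeriv n f z‖ ≤ n.factorial * (3 * A * Real.exp (κ * δ) * Real.exp (-κ * |z.re|)) /
        δ ^ n := by
    intro c c' hcc hw
    have him : ∀ w ∈ Metric.closedBall z δ, |w.im| ≤ b := by
      intro w hw
      have h1 : |w.im - z.im| ≤ δ := by
        have h2 := Complex.abs_im_le_norm (w - z)
        rw [Complex.sub_im] at h2
        exact h2.trans (by simpa [dist_eq_norm] using hw)
      have h3 : |w.im| ≤ |w.im - z.im| + |z.im| := by
        have := abs_add_le (w.im - z.im) z.im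
        simpa using this
      linarith
    have hdiff : DiffContOnCl ℂ (fun w => f w - c) (Metric.ball z δ) := by
      have hd' : DifferentiableOn ℂ (fun w => f w - c) (closure (Metric.ball z δ)) := by
        rw [closure_ball z hδ.ne']
        intro w hw
        exact ((hd w (him w hw)).sub_const c).differentiableWithinAt
      exact hd'.diffContOnCl
    have hbd : ∀ w ∈ Metric.sphere z δ, ‖f w - c‖ ≤
        3 * A * Real.exp (κ * δ) * Real.exp (-κ * |z.re|) := by
      intro w hws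
      have h1 : |w.re - z.re| ≤ δ := by
        have h2 := Complex.abs_re_le_norm (w - z)
        rw [Complex.sub_re] at h2
        exact h2.trans (by
          have : dist w z = δ := hws
          rw [← dist_eq_norm, this])
      have h3 : |z.re| - δ ≤ |w.re| := by
        have := abs_sub_abs_le_abs_sub z.re w.re
        rw [abs_sub_comm] at h1
        linarith
      have h4 : Real.exp (-κ * |w.re|) ≤ Real.exp (κ * δ) * Real.exp (-κ * |z.re|) := by
        rw [← Real.exp_add]
        refine Real.exp_le_exp.2 ?_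
        nlinarith
      rcases hw w hws with h5 | ⟨h5, h6⟩
      · have h7 : 0 ≤ Real.exp (κ * δ) * Real.exp (-κ * |z.re|) := by positivity
        calc ‖f w - c‖ ≤ A * Real.exp (-κ * |w.re|) := h5
          _ ≤ A * (Real.exp (κ * δ) * Real.exp (-κ * |z.re|)) := mul_le_mul_of_nonneg_left h4 hA
          _ ≤ 3 * (A * (Real.exp (κ * δ) * Real.exp (-κ * |z.re|))) := by
              have : 0 ≤ A * (Real.exp (κ * δ) * Real.exp (-κ * |z.re|)) := by positivity
              linarith
          _ = _ := by ring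
      · have h7 : 1 ≤ Real.exp (κ * δ) * Real.exp (-κ * |z.re|) := by
          rw [← Real.exp_add]
          refine Real.one_le_exp ?_
          nlinarith
        have h8 : Real.exp (-κ * |w.re|) ≤ 1 := by
          rw [Real.exp_le_one_iff]
          have := abs_nonneg w.re
          nlinarith
        have h9 : f w - c = (f w - c') - (c - c') := by ring
        calc ‖f w - c‖ ≤ ‖f w - c'‖ + ‖c - c'‖ := by rw [h9]; exact norm_sub_le _ _
          _ ≤ A * 1 + 2 * A := add_le_add (h5.trans (mul_le_mul_of_nonneg_left h8 hA)) hcc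
          _ = 3 * A * 1 := by ring
          _ ≤ 3 * A * (Real.exp (κ * δ) * Real.exp (-κ * |z.re|)) :=
              mul_le_mul_of_nonneg_left h7 (by positivity)
          _ = _ := by ring
    have h := Complex.norm_iteratedDeriv_le_of_forall_mem_sphere_norm_le n hδ hdiff hbd
    have e : iteratedDeriv n (fun w => f w - c) z = iteratedDeriv n f z := by
      obtain ⟨k, rfl⟩ := Nat.exists_eq_succ_of_ne_zero hn
      rw [iteratedDeriv_succ', iteratedDeriv_succ']
      congr 1
      funext w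
      exact deriv_sub_const c
    rw [e] at h
    exact h
  have hre : ∀ w ∈ Metric.sphere z δ, |w.re - z.re| ≤ δ := by
    intro w hws
    have h2 := Complex.abs_re_le_norm (w - z)
    rw [Complex.sub_re] at h2
    exact h2.trans (by
      have : dist w z = δ := hws
      rw [← dist_eq_norm, this])
  have him' : ∀ w ∈ Metric.sphere z δ, |w.im| ≤ b := by
    intro w hws
    have h1 : |w.im - z.im| ≤ δ := by
      have h2 := Complex.abs_im_le_norm (w - z)
      rw [Complex.sub_im] at h2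
      exact h2.trans (by
        have : dist w z = δ := hws
        rw [← dist_eq_norm, this])
    have h3 : |w.im| ≤ |w.im - z.im| + |z.im| := by
      have := abs_add_le (w.im - z.im) z.im
      simpa using this
    linarith
  rcases le_total 0 z.re with h0 | h0
  · refine key p m hpm fun w hw => ?_
    have h1 := abs_le.1 (hre w hw)
    rcases le_total 0 w.re with h2 | h2
    · exact Or.inl (hr w (him' w hw) h2)
    · refine Or.inr ⟨hm w (him' w hw) h2, ?_⟩
      rw [abs_of_nonneg h0]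
      linarith
  · refine key m p (by rw [norm_sub_rev]; exact hpm) fun w hw => ?_
    have h1 := abs_le.1 (hre w hw)
    rcases le_total w.re 0 with h2 | h2
    · exact Or.inl (hm w (him' w hw) h2)
    · refine Or.inr ⟨hr w (him' w hw) h2, ?_⟩
      rw [abs_of_nonpos h0]
      linarith

/-- all derivatives of the field -/
theorem xif_iter (H : Ext b M S ε a E) {a0 : ℂ} (hre : |a0.re| ≤ 1) (him : |a0.im| ≤ l / 2)
    {b' : ℝ} (hb0 : 0 ≤ b') (hb' : b' < b) {n : ℕ} (hn : n ≠ 0) {z : ℂ} (hz : |z.im| ≤ b') :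
    ‖iteratedDeriv n (xif M S ε a a0) z‖ ≤
      n.factorial * (12 * Kq b * Real.exp (32 / 3 * (b - b'))) / (b - b') ^ n / M *
        Real.exp (-(32 / 3) * |z.re|) := by
  have hK := Kq_pos H.b0 H.bl
  have hM := H.M0
  have h := plateau_iter (f := xif M S ε a a0) (κ := 32 / 3) (A := 4 * Kq b / M) hb0 hb' (by norm_num)
    (by positivity) (fun z hz => xif_diff H him hz) (fun z hz h0 => xif_right H hre him hz h0)
    (fun z hz h0 => xif_left H hre him hz h0) hn hz
  refine h.trans (le_of_eq ?_)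
  have : b - b' ≠ 0 := by linarith
  field_simp
  ring

end

end Pool.Agent.PB
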