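import Mathlib

/-!
# Plan B: periodic up to `δ` on a long rectangle implies flat

If `f` is analytic near `x0 ≤ Re z ≤ x0 + a`, `|Im z| ≤ T`, bounded by `M` there, and
`‖f (x0 + a + i y) - f (x0 + i y)‖ ≤ δ`, then for `z, z'` at distance `≥ r` of the vertical sides and
`|Im| ≤ Y ≤ T - a`

  `‖f z - f z'‖ ≤ ‖sin (π (z - z') / a)‖ * (16 M exp (-2 π (T - Y) / a) + δ T / (a sin² (π r / a)))`.

The proof is the exact representation by the kernel `cot`.
-/

open Complex MeasureTheory Set intervalIntegral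

namespace Pool.Agent.PB

/-- The cotangent of period `a`. -/
noncomputable def ctp (a : ℝ) (u : ℂ) : ℂ := cos (Real.pi * u / a) / sin (Real.pi * u / a)

theorem ctp_add {a : ℝ} (ha : 0 < a) (u : ℂ) : ctp a (u + a) = ctp a u := by
  have ha' : (a : ℂ) ≠ 0 := by exact_mod_cast ha.ne'
  have : (Real.pi : ℂ) * (u + a) / a = Real.pi * u / a + Real.pi := by field_simp
  rw [ctp, ctp, this, cos_add_pi, sin_add_pi, neg_div_neg_eq]

theorem norm_sin_sq (z : ℂ) : ‖sin z‖ ^ 2 = Real.sin z.re ^ 2 + Real.sinh z.im ^ 2 := by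
  have h : sin z = ((Real.sin z.re * Real.cosh z.im : ℝ) : ℂ) + ((Real.cos z.re * Real.sinh z.im : ℝ) : ℂ) * I := by
    conv_lhs => rw [← re_add_im z]
    rw [Complex.sin_add_mul_I]; push_cast; ring
  rw [h, ← Complex.normSq_eq_norm_sq, Complex.normSq_add_mul_I]
  have h1 := Real.cosh_sq z.im
  have h2 := Real.sin_sq_add_cos_sq z.re
  nlinarith [h1, h2]

theorem norm_sin_ge_im {z : ℂ} (h : 1 ≤ |z.im|) : Real.exp |z.im| / 4 ≤ ‖sin z‖ := by
  have h0 : Real.sinh z.im ^ 2 ≤ ‖sin z‖ ^ 2 := by rw [norm_sin_sq]; nlinarith [sq_nonneg (Real.sin z.re)]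
  have h1 : |Real.sinh z.im| ≤ ‖sin z‖ := by
    have := Real.sqrt_le_sqrt h0
    rwa [Real.sqrt_sq_eq_abs, Real.sqrt_sq (norm_nonneg _)] at this
  have h2 : |Real.sinh z.im| = Real.sinh |z.im| := by
    rcases le_total 0 z.im with h | h
    · rw [abs_of_nonneg h, abs_of_nonneg (Real.sinh_nonneg_iff.2 h)]
    · rw [abs_of_nonpos h, Real.sinh_neg, abs_of_nonpos (Real.sinh_nonpos_iff.2 h)]
  rw [h2, Real.sinh_eq] at h1
  have h3 : Real.exp (-|z.im|) ≤ Real.exp |z.im| / 2 := by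
    have e1 : Real.exp (-|z.im|) ≤ Real.exp (-1) := Real.exp_le_exp.2 (by linarith)
    have e2 : Real.exp 1 ≤ Real.exp |z.im| := Real.exp_le_exp.2 h
    have e3 : (2 : ℝ) ≤ Real.exp 1 := by linarith [Real.add_one_le_exp (1 : ℝ)]
    have e4 : Real.exp (-1) ≤ 1 := by
      rw [Real.exp_le_one_iff]; norm_num
    linarith
  linarith

theorem norm_sin_ge_re (z : ℂ) : |Real.sin z.re| ≤ ‖sin z‖ := by
  have h0 : Real.sin z.re ^ 2 ≤ ‖sin z‖ ^ 2 := by rw [norm_sin_sq]; nlinarith [sq_nonneg (Real.sinh z.im)]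
  have := Real.sqrt_le_sqrt h0
  rwa [Real.sqrt_sq_eq_abs, Real.sqrt_sq (norm_nonneg _)] at this

/-- Difference of two cotangents. -/
theorem ct_sub (a : ℝ) (z z' w : ℂ) (h : sin (Real.pi * (w - z) / a) ≠ 0) (h' : sin (Real.pi * (w - z') / a) ≠ 0) :
    ctp a (w - z) - ctp a (w - z') = sin (Real.pi * (z - z') / a) / (sin (Real.pi * (w - z) / a) * sin (Real.pi * (w - z') / a)) := by
  have e : (Real.pi : ℂ) * (z - z') / a = Real.pi * (w - z') / a - Real.pi * (w - z) / a := by ring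
  rw [ctp, ctp, e, sin_sub, div_sub_div _ _ h h']
  ring

/-- Mean of the cotangent on a horizontal line above the axis. -/
theorem int_ct_up {a : ℝ} (ha : 0 < a) (x0 η : ℝ) (z : ℂ) (hη : z.im < η) :
    ∫ x in x0..(x0 + a), ctp a ((x : ℂ) + η * I - z) = -(I * a) := by
  have ha' : (a : ℂ) ≠ 0 := by exact_mod_cast ha.ne'
  have hpi : (Real.pi : ℂ) ≠ 0 := by exact_mod_cast Real.pi_ne_zero
  set q : ℝ → ℂ := fun x => exp (2 * Real.pi * I * ((x : ℂ) + η * I - z) / a) with hq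
  have hqn : ∀ x, ‖q x‖ < 1 := by
    intro x
    rw [hq, norm_exp, Real.exp_lt_one_iff]
    have : (2 * Real.pi * I * ((x : ℂ) + η * I - z) / a).re = -(2 * Real.pi * (η - z.im) / a) := by
      rw [Complex.div_ofReal_re]
      simp [Complex.mul_re, Complex.mul_im]
      ring
    rw [this]
    have : 0 < 2 * Real.pi * (η - z.im) / a := by
      have := Real.pi_pos
      have := sub_pos.2 hη
      positivity
    linarith
  have h1q : ∀ x, 1 - q x ≠ 0 := by
    intro x h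
    have := hqn x
    have e : q x = 1 := by linear_combination -h
    rw [e, norm_one] at this
    exact lt_irrefl _ this
  have hform : ∀ x : ℝ, ctp a ((x : ℂ) + η * I - z) = -I - 2 * I * (q x / (1 - q x)) := by
    intro x
    set u : ℂ := Real.pi * ((x : ℂ) + η * I - z) / a with hu
    have hqu : q x = exp (I * u) ^ 2 := by
      rw [hq, ← Complex.exp_nat_mul]; congr 1; rw [hu]; push_cast; ring
    have hE : exp (I * u) ≠ 0 := exp_ne_zero _
    have hs : sin u = (exp (-(I * u)) - exp (I * u)) * I / 2 := by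
      rw [Complex.sin]; congr 3 <;> ring_nf
    have hc : cos u = (exp (I * u) + exp (-(I * u))) / 2 := by
      rw [Complex.cos]; congr 2 <;> ring_nf
    have hneg : exp (-(I * u)) = (exp (I * u))⁻¹ := exp_neg _
    have hne := h1q x
    rw [hqu] at hne ⊢
    show cos u / sin u = _
    rw [hs, hc, hneg]
    have hne2 : (exp (I * u))⁻¹ - exp (I * u) ≠ 0 := by
      intro h
      apply hne
      have := congrArg (· * exp (I * u)) h
      simp only [sub_mul, zero_mul] at this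
      rw [inv_mul_cancel₀ hE] at this
      linear_combination this
    have hI : I ≠ 0 := I_ne_zero
    have hI2 : I ^ 2 = -1 := I_sq
    rw [div_eq_iff (by
      intro h
      rcases div_eq_zero_iff.1 h with h | h
      · rcases mul_eq_zero.1 h with h | h
        · exact hne2 h
        · exact hI h
      · norm_num at h)]
    field_simp
    ring_nf
    rw [hI2]; ring
  have hder : ∀ x : ℝ, HasDerivAt (fun x : ℝ => log (1 - q x)) (-(2 * Real.pi * I / a) * (q x / (1 - q x))) x := by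
    intro x
    have h1 : HasDerivAt q (q x * (2 * Real.pi * I / a)) x := by
      have h0 : HasDerivAt (fun x : ℝ => 2 * Real.pi * I * ((x : ℂ) + η * I - z) / a) (2 * Real.pi * I / a) x := by
        have := ((((hasDerivAt_id (x : ℂ)).comp_ofReal).add_const (η * I)).sub_const z).const_mul (2 * Real.pi * I)
        have := this.div_const (a : ℂ)
        simpa using this
      exact h0.cexp
    have h2 : HasDerivAt (fun x : ℝ => 1 - q x) (-(q x * (2 * Real.pi * I / a))) x := by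
      simpa using h1.const_sub 1
    have h3 : 1 - q x ∈ slitPlane := by
      left
      have : (q x).re ≤ ‖q x‖ := re_le_norm _
      have := hqn x
      simp only [sub_re, one_re]; linarith
    have h4 := h2.clog_real h3
    convert h4 using 1
    ring
  have hcont : Continuous fun x => q x / (1 - q x) := by
    have hqc : Continuous q := by rw [hq]; fun_prop
    exact hqc.div (continuous_const.sub hqc) h1q
  have hI1 : ∫ x in x0..(x0 + a), -(2 * Real.pi * I / a) * (q x / (1 - q x)) = log (1 - q (x0 + a)) - log (1 - q x0) :=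
    integral_eq_sub_of_hasDerivAt (fun x _ => hder x) ((continuous_const.mul hcont).intervalIntegrable _ _)
  have hper : q (x0 + a) = q x0 := by
    rw [hq]
    simp only
    have : 2 * Real.pi * I * (((x0 + a : ℝ) : ℂ) + η * I - z) / a = 2 * Real.pi * I * ((x0 : ℂ) + η * I - z) / a + 2 * Real.pi * I := by
      push_cast; field_simp; ring
    rw [this, exp_add, exp_two_pi_mul_I, mul_one]
  rw [hper, sub_self, intervalIntegral.integral_const_mul] at hI1
  have hz : ∫ x in x0..(x0 + a), (q x / (1 - q x)) = 0 := by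
    rcases mul_eq_zero.1 hI1 with h | h
    · exfalso
      rw [neg_eq_zero, div_eq_zero_iff] at h
      rcases h with h | h
      · exact (mul_ne_zero (mul_ne_zero two_ne_zero hpi) I_ne_zero) h
      · exact ha' h
    · exact h
  simp_rw [hform]
  have hs : ∫ x in x0..(x0 + a), (-I - 2 * I * (q x / (1 - q x))) =
      (∫ x in x0..(x0 + a), (-I : ℂ)) - ∫ x in x0..(x0 + a), 2 * I * (q x / (1 - q x)) :=
    intervalIntegral.integral_sub (continuous_const.intervalIntegrable _ _)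
      ((continuous_const.mul hcont).intervalIntegrable _ _)
  rw [hs, intervalIntegral.integral_const_mul, hz, intervalIntegral.integral_const, real_smul]
  push_cast
  ring

theorem ctp_neg (a : ℝ) (u : ℂ) : ctp a (-u) = -ctp a u := by
  rw [ctp, ctp, show (Real.pi : ℂ) * -u / a = -(Real.pi * u / a) by ring, cos_neg, sin_neg, div_neg]

/-- Mean of the cotangent on a horizontal line below. -/
theorem int_ct_down {a : ℝ} (ha : 0 < a) (x0 η : ℝ) (z : ℂ) (hη : η < z.im) :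
    ∫ x in x0..(x0 + a), ctp a ((x : ℂ) + η * I - z) = I * a := by
  have h := int_ct_up ha (-(x0 + a)) (-η) (-z) (by simpa using hη)
  have h2 := intervalIntegral.integral_comp_neg (a := x0) (b := x0 + a) (fun x : ℝ => ctp a ((x : ℂ) + (-η : ℝ) * I - -z))
  have e1 : (fun x : ℝ => ctp a (((-x : ℝ) : ℂ) + (-η : ℝ) * I - -z)) = fun x : ℝ => -ctp a ((x : ℂ) + η * I - z) := by
    funext x
    rw [← ctp_neg]; congr 1; push_cast; ring
  rw [e1, intervalIntegral.integral_neg] at h2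
  have e2 : -(x0 + a) + a = -x0 := by ring
  rw [e2] at h
  rw [h] at h2
  linear_combination -h2

/-- The boundary integral of a rectangle. -/
noncomputable def bd (x0 a T : ℝ) (g : ℂ → ℂ) : ℂ :=
  (∫ x in x0..(x0 + a), g ((x : ℂ) + (-T : ℝ) * I)) - (∫ x in x0..(x0 + a), g ((x : ℂ) + T * I)) +
    I * (∫ y in (-T)..T, g (((x0 + a : ℝ) : ℂ) + y * I)) - I * ∫ y in (-T)..T, g ((x0 : ℂ) + y * I)

/-- The closed rectangle. -/
def Rc (x0 a T : ℝ) : Set ℂ := Icc x0 (x0 + a) ×ℂ Icc (-T) T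

theorem sin_ne_zero {a : ℝ} (ha : 0 < a) {u : ℂ} (hu : u ≠ 0) (h : |u.re| < a) : sin (Real.pi * u / a) ≠ 0 := by
  have ha' : (a : ℂ) ≠ 0 := by exact_mod_cast ha.ne'
  have hpi : (Real.pi : ℂ) ≠ 0 := by exact_mod_cast Real.pi_ne_zero
  intro hs
  obtain ⟨k, hk⟩ := Complex.sin_eq_zero_iff.1 hs
  have h1 : u = k * a := by
    field_simp at hk
    linear_combination hk
  have h2 : u.re = k * a := by rw [h1]; simp
  rw [h2, abs_mul, abs_of_pos ha] at h
  have h3 : |(k : ℝ)| < 1 := by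
    by_contra hc
    push Not at hc
    nlinarith
  have h4 : k = 0 := by
    have : |k| < 1 := by exact_mod_cast h3
    exact Int.abs_lt_one_iff.1 this
  rw [h4] at h1
  exact hu (by simpa using h1)

/-- `∮ cot = 2 i a`. -/
theorem bd_ctp {x0 a T : ℝ} (ha : 0 < a) {z : ℂ} (hz : z.im ∈ Ioo (-T) T) :
    bd x0 a T (fun w => ctp a (w - z)) = 2 * I * a := by
  have h1 := int_ct_down ha x0 (-T) z hz.1
  have h2 := int_ct_up ha x0 T z hz.2
  have h3 : (fun y : ℝ => ctp a (((x0 + a : ℝ) : ℂ) + y * I - z)) = fun y : ℝ => ctp a ((x0 : ℂ) + y * I - z) := by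
    funext y
    rw [← ctp_add ha ((x0 : ℂ) + y * I - z)]; congr 1; push_cast; ring
  rw [bd, h1, h2, h3]
  ring

/-- The four sides are integrable. -/
structure BI (x0 a T : ℝ) (g : ℂ → ℂ) : Prop where
  h1 : IntervalIntegrable (fun x : ℝ => g ((x : ℂ) + (-T : ℝ) * I)) volume x0 (x0 + a)
  h2 : IntervalIntegrable (fun x : ℝ => g ((x : ℂ) + T * I)) volume x0 (x0 + a)
  h3 : IntervalIntegrable (fun y : ℝ => g (((x0 + a : ℝ) : ℂ) + y * I)) volume (-T) T
  h4 : IntervalIntegrable (fun y : ℝ => g ((x0 : ℂ) + y * I)) volume (-T) T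

/-- The boundary. -/
def Bd (x0 a T : ℝ) : Set ℂ := {w | w ∈ Rc x0 a T ∧ (w.re = x0 ∨ w.re = x0 + a ∨ w.im = -T ∨ w.im = T)}

theorem BI.of {x0 a T : ℝ} (ha : 0 < a) (hT : 0 < T) {g : ℂ → ℂ} (h : ContinuousOn g (Bd x0 a T)) : BI x0 a T g := by
  have hu1 : uIcc x0 (x0 + a) = Icc x0 (x0 + a) := uIcc_of_le (by linarith)
  have hu2 : uIcc (-T) T = Icc (-T) T := uIcc_of_le (by linarith)
  refine ⟨ContinuousOn.intervalIntegrable ?_, ContinuousOn.intervalIntegrable ?_, ContinuousOn.intervalIntegrable ?_,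
    ContinuousOn.intervalIntegrable ?_⟩
  · rw [hu1]
    refine h.comp (by fun_prop) fun x hx => ⟨⟨?_, ?_⟩, ?_⟩
    · simpa using hx
    · simpa using hT.le
    · right; right; left; simp
  · rw [hu1]
    refine h.comp (by fun_prop) fun x hx => ⟨⟨?_, ?_⟩, ?_⟩
    · simpa using hx
    · simpa using hT.le
    · right; right; right; simp
  · rw [hu2]
    refine h.comp (by fun_prop) fun y hy => ⟨⟨?_, ?_⟩, ?_⟩
    · simpa using ha.le
    · simpa using hy
    · right; left; simp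
  · rw [hu2]
    refine h.comp (by fun_prop) fun y hy => ⟨⟨?_, ?_⟩, ?_⟩
    · simpa using ha.le
    · simpa using hy
    · left; simp

theorem bd_sub {x0 a T : ℝ} {g h : ℂ → ℂ} (hg : BI x0 a T g) (hh : BI x0 a T h) :
    bd x0 a T (fun w => g w - h w) = bd x0 a T g - bd x0 a T h := by
  simp only [bd]
  rw [intervalIntegral.integral_sub hg.h1 hh.h1, intervalIntegral.integral_sub hg.h2 hh.h2,
    intervalIntegral.integral_sub hg.h3 hh.h3, intervalIntegral.integral_sub hg.h4 hh.h4]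
  ring

theorem bd_mul {x0 a T : ℝ} (c : ℂ) (g : ℂ → ℂ) : bd x0 a T (fun w => c * g w) = c * bd x0 a T g := by
  simp only [bd, intervalIntegral.integral_const_mul]
  ring

theorem bd_congr {x0 a T : ℝ} (ha : 0 < a) (hT : 0 < T) {g h : ℂ → ℂ} (e : ∀ w ∈ Bd x0 a T, g w = h w) :
    bd x0 a T g = bd x0 a T h := by
  have hu1 : uIcc x0 (x0 + a) = Icc x0 (x0 + a) := uIcc_of_le (by linarith)
  have hu2 : uIcc (-T) T = Icc (-T) T := uIcc_of_le (by linarith)
  have e1 : (∫ x in x0..(x0 + a), g ((x : ℂ) + (-T : ℝ) * I)) = ∫ x in x0..(x0 + a), h ((x : ℂ) + (-T : ℝ) * I) := by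
    refine integral_congr fun x hx => e _ ⟨⟨?_, ?_⟩, ?_⟩
    · rw [hu1] at hx; simpa using hx
    · simpa using hT.le
    · right; right; left; simp
  have e2 : (∫ x in x0..(x0 + a), g ((x : ℂ) + T * I)) = ∫ x in x0..(x0 + a), h ((x : ℂ) + T * I) := by
    refine integral_congr fun x hx => e _ ⟨⟨?_, ?_⟩, ?_⟩
    · rw [hu1] at hx; simpa using hx
    · simpa using hT.le
    · right; right; right; simp
  have e3 : (∫ y in (-T)..T, g (((x0 + a : ℝ) : ℂ) + y * I)) = ∫ y in (-T)..T, h (((x0 + a : ℝ) : ℂ) + y * I) := by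
    refine integral_congr fun y hy => e _ ⟨⟨?_, ?_⟩, ?_⟩
    · simpa using ha.le
    · rw [hu2] at hy; simpa using hy
    · right; left; simp
  have e4 : (∫ y in (-T)..T, g ((x0 : ℂ) + y * I)) = ∫ y in (-T)..T, h ((x0 : ℂ) + y * I) := by
    refine integral_congr fun y hy => e _ ⟨⟨?_, ?_⟩, ?_⟩
    · simpa using ha.le
    · rw [hu2] at hy; simpa using hy
    · left; simp
  rw [bd, bd, e1, e2, e3, e4]

theorem bd_zero {x0 a T : ℝ} (ha : 0 < a) (hT : 0 < T) {g : ℂ → ℂ} (h : DifferentiableOn ℂ g (Rc x0 a T)) :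
    bd x0 a T g = 0 := by
  have := Complex.integral_boundary_rect_eq_zero_of_differentiableOn g ⟨x0, -T⟩ ⟨x0 + a, T⟩ (by
    simp only
    rw [uIcc_of_le (by linarith : x0 ≤ x0 + a), uIcc_of_le (by linarith : -T ≤ T)]
    exact h)
  rw [bd]
  simpa [smul_eq_mul] using this

/-- The dslope of the sine. -/
theorem sinSl {a : ℝ} (ha : 0 < a) : ∃ S : ℂ → ℂ, Differentiable ℂ S ∧ (∀ u, sin (Real.pi * u / a) = u * S u) ∧
    ∀ u : ℂ, |u.re| < a → S u ≠ 0 := by
  have ha' : (a : ℂ) ≠ 0 := by exact_mod_cast ha.ne'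
  have hpi : (Real.pi : ℂ) ≠ 0 := by exact_mod_cast Real.pi_ne_zero
  set s : ℂ → ℂ := fun u => sin (Real.pi * u / a) with hs
  have hd : Differentiable ℂ s := by rw [hs]; fun_prop
  have h0 : s 0 = 0 := by simp [hs]
  have hder : deriv s 0 = Real.pi / a := by
    have h1 : HasDerivAt (fun u : ℂ => Real.pi * u / a) (Real.pi / a) 0 := by
      simpa using ((hasDerivAt_id (0 : ℂ)).const_mul (Real.pi : ℂ)).div_const (a : ℂ)
    have h2 := h1.csin
    rw [h2.deriv]; simp
  refine ⟨dslope s 0, ?_, fun u => ?_, fun u hu => ?_⟩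
  · rw [← differentiableOn_univ] at hd ⊢
    exact (Complex.differentiableOn_dslope Filter.univ_mem).2 hd
  · have := sub_smul_dslope s 0 u
    simp only [smul_eq_mul, sub_zero, h0] at this
    exact this.symm
  · rcases eq_or_ne u 0 with h | h
    · rw [h, dslope_same, hder]
      exact div_ne_zero hpi ha'
    · have := sub_smul_dslope s 0 u
      simp only [smul_eq_mul, sub_zero, h0] at this
      intro hc
      rw [hc, mul_zero] at this
      exact sin_ne_zero ha h hu this.symm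

/-- The exact representation. -/
theorem bd_rep {x0 a T : ℝ} (ha : 0 < a) (hT : 0 < T) {f : ℂ → ℂ} (hf : DifferentiableOn ℂ f (Rc x0 a T)) {z : ℂ}
    (hx : z.re ∈ Ioo x0 (x0 + a)) (hy : z.im ∈ Ioo (-T) T) :
    bd x0 a T (fun w => (f w - f z) * ctp a (w - z)) = 0 := by
  obtain ⟨S, hS, hSe, hS0⟩ := sinSl ha
  have hn : Rc x0 a T ∈ nhds z := by
    rw [Rc, mem_nhds_iff]
    refine ⟨Ioo x0 (x0 + a) ×ℂ Ioo (-T) T, ?_, isOpen_Ioo.reProdIm isOpen_Ioo, ⟨hx, hy⟩⟩
    exact fun w hw => ⟨Ioo_subset_Icc_self hw.1, Ioo_subset_Icc_self hw.2⟩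
  have hre : ∀ w ∈ Rc x0 a T, |(w - z).re| < a := by
    intro w hw
    have h1 := hw.1
    simp only [mem_preimage, mem_Icc] at h1
    rw [sub_re, abs_lt]
    constructor <;> linarith [hx.1, hx.2, h1.1, h1.2]
  have hd : DifferentiableOn ℂ (fun w => dslope f z w * cos (Real.pi * (w - z) / a) / S (w - z)) (Rc x0 a T) := by
    refine DifferentiableOn.div (DifferentiableOn.mul ((Complex.differentiableOn_dslope hn).2 hf) ?_) ?_ fun w hw => hS0 _ (hre w hw)
    · exact (by fun_prop : Differentiable ℂ fun w : ℂ => cos (Real.pi * (w - z) / a)).differentiableOn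
    · exact (hS.comp (differentiable_id.sub_const z)).differentiableOn
  rw [← bd_zero ha hT hd]
  refine bd_congr ha hT fun w hw => ?_
  have hne : w - z ≠ 0 := by
    intro h
    have h' : w = z := by linear_combination h
    rw [h'] at hw
    rcases hw.2 with h | h | h | h
    · exact absurd h hx.1.ne'
    · exact absurd h hx.2.ne
    · exact absurd h hy.1.ne'
    · exact absurd h hy.2.ne
  have h1 : f w - f z = (w - z) * dslope f z w := by
    have := sub_smul_dslope f z w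
    rw [smul_eq_mul] at this
    exact this.symm
  have h2 : S (w - z) ≠ 0 := hS0 _ (hre w hw.1)
  rw [ctp, hSe, h1]
  field_simp

theorem Bd_ne {x0 a T : ℝ} {z w : ℂ} (hx : z.re ∈ Ioo x0 (x0 + a)) (hy : z.im ∈ Ioo (-T) T) (hw : w ∈ Bd x0 a T) : w - z ≠ 0 := by
  intro h
  have h' : w = z := by linear_combination h
  rw [h'] at hw
  rcases hw.2 with h | h | h | h
  · exact absurd h hx.1.ne'
  · exact absurd h hx.2.ne
  · exact absurd h hy.1.ne'
  · exact absurd h hy.2.ne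

theorem Bd_re {x0 a T : ℝ} {z w : ℂ} (hx : z.re ∈ Ioo x0 (x0 + a)) (hw : w ∈ Bd x0 a T) : |(w - z).re| < a := by
  have h1 := hw.1.1
  simp only [mem_preimage, mem_Icc] at h1
  rw [sub_re, abs_lt]
  constructor <;> linarith [hx.1, hx.2, h1.1, h1.2]

/-- Continuity of the kernel on the boundary. -/
theorem ct_cont {x0 a T : ℝ} (ha : 0 < a) {z : ℂ} (hx : z.re ∈ Ioo x0 (x0 + a)) (hy : z.im ∈ Ioo (-T) T) :
    ContinuousOn (fun w => ctp a (w - z)) (Bd x0 a T) := by
  refine ContinuousOn.div (by fun_prop) (by fun_prop) fun w hw => ?_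
  exact sin_ne_zero ha (Bd_ne hx hy hw) (Bd_re hx hw)

/-- **The difference formula.** -/
theorem bd_diff {x0 a T : ℝ} (ha : 0 < a) (hT : 0 < T) {f : ℂ → ℂ} (hf : DifferentiableOn ℂ f (Rc x0 a T)) {z z' : ℂ}
    (hx : z.re ∈ Ioo x0 (x0 + a)) (hy : z.im ∈ Ioo (-T) T) (hx' : z'.re ∈ Ioo x0 (x0 + a)) (hy' : z'.im ∈ Ioo (-T) T) :
    bd x0 a T (fun w => f w * (ctp a (w - z) - ctp a (w - z'))) = 2 * I * a * (f z - f z') := by
  have hfc : ContinuousOn f (Bd x0 a T) := hf.continuousOn.mono fun w hw => hw.1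
  have c1 := ct_cont (x0 := x0) (T := T) ha hx hy
  have c2 := ct_cont (x0 := x0) (T := T) ha hx' hy'
  have r1 := bd_rep ha hT hf hx hy
  have r2 := bd_rep ha hT hf hx' hy'
  have b1 : BI x0 a T (fun w => (f w - f z) * ctp a (w - z)) := BI.of ha hT ((hfc.sub continuousOn_const).mul c1)
  have b2 : BI x0 a T (fun w => (f w - f z') * ctp a (w - z')) := BI.of ha hT ((hfc.sub continuousOn_const).mul c2)
  have b3 : BI x0 a T (fun w => f w * (ctp a (w - z) - ctp a (w - z'))) := BI.of ha hT (hfc.mul (c1.sub c2))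
  have b4 : BI x0 a T (fun w => f z * ctp a (w - z) - f z' * ctp a (w - z')) :=
    BI.of ha hT ((continuousOn_const.mul c1).sub (continuousOn_const.mul c2))
  have b5 : BI x0 a T (fun w => f z * ctp a (w - z)) := BI.of ha hT (continuousOn_const.mul c1)
  have b6 : BI x0 a T (fun w => f z' * ctp a (w - z')) := BI.of ha hT (continuousOn_const.mul c2)
  have e1 : bd x0 a T (fun w => (f w - f z) * ctp a (w - z) - (f w - f z') * ctp a (w - z')) = 0 := by
    rw [bd_sub b1 b2, r1, r2, sub_zero]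
  have e2 : bd x0 a T (fun w => f w * (ctp a (w - z) - ctp a (w - z')) - (f z * ctp a (w - z) - f z' * ctp a (w - z'))) = 0 := by
    rw [← e1]; congr 1; funext w; ring
  rw [bd_sub b3 b4, bd_sub b5 b6, bd_mul, bd_mul, bd_ctp ha hy, bd_ctp ha hy'] at e2
  linear_combination e2

/-- **Periodic up to `δ` on a long rectangle implies flat.** -/
theorem flat {x0 a T Y r M δ : ℝ} (ha : 0 < a) (hr : 0 < r) (hra : r ≤ a / 2) (hY : 0 ≤ Y) (hT : Y + a ≤ T) {f : ℂ → ℂ}
    (hf : DifferentiableOn ℂ f (Rc x0 a T)) (hM : ∀ w ∈ Rc x0 a T, ‖f w‖ ≤ M)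
    (hδ : ∀ y ∈ Icc (-T) T, ‖f (((x0 + a : ℝ) : ℂ) + y * I) - f ((x0 : ℂ) + y * I)‖ ≤ δ) {z z' : ℂ}
    (hx : z.re ∈ Icc (x0 + r) (x0 + a - r)) (hy : |z.im| ≤ Y) (hx' : z'.re ∈ Icc (x0 + r) (x0 + a - r)) (hy' : |z'.im| ≤ Y) :
    ‖f z - f z'‖ ≤ ‖sin (Real.pi * (z - z') / a)‖ *
      (16 * M * Real.exp (-(2 * Real.pi * (T - Y) / a)) + δ * T / (a * Real.sin (Real.pi * r / a) ^ 2)) := by
  have hT0 : 0 < T := by linarith
  have hpi := Real.pi_pos
  have h1 : z.re ∈ Ioo x0 (x0 + a) := ⟨by linarith [hx.1], by linarith [hx.2]⟩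
  have h1' : z'.re ∈ Ioo x0 (x0 + a) := ⟨by linarith [hx'.1], by linarith [hx'.2]⟩
  have h2 : z.im ∈ Ioo (-T) T := ⟨by linarith [(abs_le.1 hy).1], by linarith [(abs_le.1 hy).2]⟩
  have h2' : z'.im ∈ Ioo (-T) T := ⟨by linarith [(abs_le.1 hy').1], by linarith [(abs_le.1 hy').2]⟩
  have hrep := bd_diff ha hT0 hf h1 h2 h1' h2'
  set N : ℝ := ‖sin (Real.pi * (z - z') / a)‖ with hN
  have hN0 : 0 ≤ N := norm_nonneg _
  have hM0 : 0 ≤ M := (norm_nonneg _).trans (hM ((x0 : ℂ)) ⟨by simpa using ha.le, by simpa using hT0.le⟩)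
  have hδ0 : 0 ≤ δ := (norm_nonneg _).trans (hδ 0 ⟨by linarith, by linarith⟩)
  -- lower bound of the sine on the horizontal sides
  have hor : ∀ u : ℂ, |u.im| ≤ Y → ∀ w : ℂ, |w.im| = T → Real.exp (Real.pi * (T - Y) / a) / 4 ≤ ‖sin (Real.pi * (w - u) / a)‖ := by
    intro u hu w hw
    have e : (Real.pi * (w - u) / a).im = Real.pi * (w.im - u.im) / a := by
      rw [Complex.div_ofReal_im]; simp [Complex.mul_im]
    have h3 : T - Y ≤ |w.im - u.im| := by
      have := abs_sub_abs_le_abs_sub w.im u.im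
      rw [hw] at this; linarith
    have h4 : |(Real.pi * (w - u) / a).im| = Real.pi * |w.im - u.im| / a := by
      rw [e, abs_div, abs_mul, abs_of_pos hpi, abs_of_pos ha]
    have h5 : Real.pi * (T - Y) / a ≤ |(Real.pi * (w - u) / a).im| := by
      rw [h4]; gcongr
    have h6 : 1 ≤ Real.pi * (T - Y) / a := by
      rw [le_div_iff₀ ha]
      nlinarith [Real.pi_gt_three]
    refine le_trans ?_ (norm_sin_ge_im (h6.trans h5))
    gcongr
  -- lower bound on the left side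
  have ver : ∀ u : ℂ, u.re ∈ Icc (x0 + r) (x0 + a - r) → ∀ y : ℝ, Real.sin (Real.pi * r / a) ≤ ‖sin (Real.pi * ((x0 : ℂ) + y * I - u) / a)‖ := by
    intro u hu y
    refine le_trans ?_ (norm_sin_ge_re _)
    have e : (Real.pi * ((x0 : ℂ) + y * I - u) / a).re = -(Real.pi * (u.re - x0) / a) := by
      rw [Complex.div_ofReal_re]; simp [Complex.mul_re]; ring
    rw [e, Real.sin_neg, abs_neg]
    set v : ℝ := Real.pi * (u.re - x0) / a with hv
    have hv1 : Real.pi * r / a ≤ v := by rw [hv]; gcongr; linarith [hu.1]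
    have hv2 : v ≤ Real.pi - Real.pi * r / a := by
      rw [hv, div_le_iff₀ ha, sub_mul, div_mul_cancel₀ _ ha.ne']
      nlinarith [hu.2]
    have hr2 : Real.pi * r / a ≤ Real.pi / 2 := by
      rw [div_le_div_iff₀ ha two_pos]; nlinarith
    have hr0 : 0 < Real.pi * r / a := by positivity
    have hs0 : 0 ≤ Real.sin v := Real.sin_nonneg_of_nonneg_of_le_pi (hr0.le.trans hv1) (by linarith)
    rw [abs_of_nonneg hs0]
    rcases le_total v (Real.pi / 2) with h | h
    · exact Real.sin_le_sin_of_le_of_le_pi_div_two (by linarith) h hv1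
    · rw [← Real.sin_pi_sub v]
      exact Real.sin_le_sin_of_le_of_le_pi_div_two (by linarith) (by linarith) (by linarith)
  have hs : 0 < Real.sin (Real.pi * r / a) := by
    refine Real.sin_pos_of_pos_of_lt_pi (by positivity) ?_
    rw [div_lt_iff₀ ha]; nlinarith
  set sr : ℝ := Real.sin (Real.pi * r / a) with hsr
  set E : ℝ := Real.exp (Real.pi * (T - Y) / a) with hE
  have hE0 : 0 < E := Real.exp_pos _
  -- the kernel
  have ker : ∀ w : ℂ, w - z ≠ 0 → |(w - z).re| < a → w - z' ≠ 0 → |(w - z').re| < a →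
      ‖ctp a (w - z) - ctp a (w - z')‖ = N / (‖sin (Real.pi * (w - z) / a)‖ * ‖sin (Real.pi * (w - z') / a)‖) := by
    intro w a1 a2 a3 a4
    rw [ct_sub a z z' w (sin_ne_zero ha a1 a2) (sin_ne_zero ha a3 a4), norm_div, norm_mul]
  have kh : ∀ w ∈ Rc x0 a T, |w.im| = T → ‖ctp a (w - z) - ctp a (w - z')‖ ≤ N * (16 / E ^ 2) := by
    intro w hw hwT
    have hb : w ∈ Bd x0 a T := by
      refine ⟨hw, ?_⟩
      rcases abs_eq hT0.le |>.1 hwT with h | h
      · right; right; right; exact h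
      · right; right; left; exact h
    rw [ker w (Bd_ne h1 h2 hb) (Bd_re h1 hb) (Bd_ne h1' h2' hb) (Bd_re h1' hb)]
    have g1 := hor z hy w hwT
    have g2 := hor z' hy' w hwT
    have : E / 4 * (E / 4) ≤ ‖sin (Real.pi * (w - z) / a)‖ * ‖sin (Real.pi * (w - z') / a)‖ := by gcongr
    calc N / (‖sin (Real.pi * (w - z) / a)‖ * ‖sin (Real.pi * (w - z') / a)‖) ≤ N / (E / 4 * (E / 4)) := by gcongr
      _ = N * (16 / E ^ 2) := by field_simp; ring
  have kv : ∀ y ∈ Icc (-T) T, ‖ctp a ((x0 : ℂ) + y * I - z) - ctp a ((x0 : ℂ) + y * I - z')‖ ≤ N * (1 / sr ^ 2) := by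
    intro y hy0
    have hb : ((x0 : ℂ) + y * I) ∈ Bd x0 a T := ⟨⟨by simpa using ha.le, by simpa using hy0⟩, by left; simp⟩
    rw [ker _ (Bd_ne h1 h2 hb) (Bd_re h1 hb) (Bd_ne h1' h2' hb) (Bd_re h1' hb)]
    have g1 := ver z hx y
    have g2 := ver z' hx' y
    have : sr * sr ≤ ‖sin (Real.pi * ((x0 : ℂ) + y * I - z) / a)‖ * ‖sin (Real.pi * ((x0 : ℂ) + y * I - z') / a)‖ := by gcongr
    calc N / (‖sin (Real.pi * ((x0 : ℂ) + y * I - z) / a)‖ * ‖sin (Real.pi * ((x0 : ℂ) + y * I - z') / a)‖) ≤ N / (sr * sr) := by gcongr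
      _ = N * (1 / sr ^ 2) := by field_simp
  -- the four sides
  have s1 : ‖∫ x in x0..(x0 + a), f ((x : ℂ) + (-T : ℝ) * I) * (ctp a ((x : ℂ) + (-T : ℝ) * I - z) - ctp a ((x : ℂ) + (-T : ℝ) * I - z'))‖ ≤
      M * (N * (16 / E ^ 2)) * a := by
    have := intervalIntegral.norm_integral_le_of_norm_le_const (a := x0) (b := x0 + a) (C := M * (N * (16 / E ^ 2)))
      (f := fun x : ℝ => f ((x : ℂ) + (-T : ℝ) * I) * (ctp a ((x : ℂ) + (-T : ℝ) * I - z) - ctp a ((x : ℂ) + (-T : ℝ) * I - z'))) (by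
        intro x hx0
        rw [uIoc_of_le (by linarith)] at hx0
        have hm : ((x : ℂ) + (-T : ℝ) * I) ∈ Rc x0 a T := ⟨by simpa using ⟨hx0.1.le, hx0.2⟩, by simpa using hT0.le⟩
        rw [norm_mul]
        exact mul_le_mul (hM _ hm) (kh _ hm (by simp [abs_of_pos hT0])) (norm_nonneg _) hM0)
    simpa [abs_of_pos ha] using this
  have s2 : ‖∫ x in x0..(x0 + a), f ((x : ℂ) + T * I) * (ctp a ((x : ℂ) + T * I - z) - ctp a ((x : ℂ) + T * I - z'))‖ ≤
      M * (N * (16 / E ^ 2)) * a := by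
    have := intervalIntegral.norm_integral_le_of_norm_le_const (a := x0) (b := x0 + a) (C := M * (N * (16 / E ^ 2)))
      (f := fun x : ℝ => f ((x : ℂ) + T * I) * (ctp a ((x : ℂ) + T * I - z) - ctp a ((x : ℂ) + T * I - z'))) (by
        intro x hx0
        rw [uIoc_of_le (by linarith)] at hx0
        have hm : ((x : ℂ) + T * I) ∈ Rc x0 a T := ⟨by simpa using ⟨hx0.1.le, hx0.2⟩, by simpa using hT0.le⟩
        rw [norm_mul]
        exact mul_le_mul (hM _ hm) (kh _ hm (by simp [abs_of_pos hT0])) (norm_nonneg _) hM0)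
    simpa [abs_of_pos ha] using this
  have hfc : ContinuousOn f (Bd x0 a T) := hf.continuousOn.mono fun w hw => hw.1
  have b3 : BI x0 a T (fun w => f w * (ctp a (w - z) - ctp a (w - z'))) :=
    BI.of ha hT0 (hfc.mul ((ct_cont ha h1 h2).sub (ct_cont ha h1' h2')))
  have s3 : ‖(∫ y in (-T)..T, f (((x0 + a : ℝ) : ℂ) + y * I) * (ctp a (((x0 + a : ℝ) : ℂ) + y * I - z) - ctp a (((x0 + a : ℝ) : ℂ) + y * I - z'))) -
      ∫ y in (-T)..T, f ((x0 : ℂ) + y * I) * (ctp a ((x0 : ℂ) + y * I - z) - ctp a ((x0 : ℂ) + y * I - z'))‖ ≤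
      δ * (N * (1 / sr ^ 2)) * (2 * T) := by
    rw [← intervalIntegral.integral_sub b3.h3 b3.h4]
    have := intervalIntegral.norm_integral_le_of_norm_le_const (a := -T) (b := T) (C := δ * (N * (1 / sr ^ 2)))
      (f := fun y : ℝ => f (((x0 + a : ℝ) : ℂ) + y * I) * (ctp a (((x0 + a : ℝ) : ℂ) + y * I - z) - ctp a (((x0 + a : ℝ) : ℂ) + y * I - z')) -
        f ((x0 : ℂ) + y * I) * (ctp a ((x0 : ℂ) + y * I - z) - ctp a ((x0 : ℂ) + y * I - z'))) (by
        intro y hy0
        rw [uIoc_of_le (by linarith)] at hy0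
        have p1 : ctp a (((x0 + a : ℝ) : ℂ) + y * I - z) = ctp a ((x0 : ℂ) + y * I - z) := by
          rw [← ctp_add ha ((x0 : ℂ) + y * I - z)]; congr 1; push_cast; ring
        have p2 : ctp a (((x0 + a : ℝ) : ℂ) + y * I - z') = ctp a ((x0 : ℂ) + y * I - z') := by
          rw [← ctp_add ha ((x0 : ℂ) + y * I - z')]; congr 1; push_cast; ring
        have hy1 : y ∈ Icc (-T) T := ⟨hy0.1.le, hy0.2⟩
        rw [p1, p2, ← sub_mul, norm_mul]
        exact mul_le_mul (hδ y hy1) (kv y hy1) (norm_nonneg _) hδ0)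
    refine this.trans_eq ?_
    rw [show T - -T = 2 * T by ring, abs_of_pos (by linarith)]
  have tot : ‖bd x0 a T (fun w => f w * (ctp a (w - z) - ctp a (w - z')))‖ ≤
      M * (N * (16 / E ^ 2)) * a + M * (N * (16 / E ^ 2)) * a + δ * (N * (1 / sr ^ 2)) * (2 * T) := by
    rw [bd, add_sub_assoc, ← mul_sub]
    refine (norm_add_le _ _).trans ?_
    refine add_le_add ((norm_sub_le _ _).trans (add_le_add s1 s2)) ?_
    rw [norm_mul, norm_I, one_mul]
    exact s3
  rw [hrep, norm_mul] at tot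
  have hn : ‖(2 * I * a : ℂ)‖ = 2 * a := by
    rw [norm_mul, norm_mul, norm_I, Complex.norm_real, Real.norm_of_nonneg ha.le]; simp
  rw [hn] at tot
  have hEE : Real.exp (-(2 * Real.pi * (T - Y) / a)) = 1 / E ^ 2 := by
    rw [hE, ← Real.exp_nat_mul, one_div, ← Real.exp_neg]; congr 1; push_cast; ring
  rw [hEE]
  have hfin : 2 * a * ‖f z - f z'‖ ≤ 2 * a * (N * (16 * M * (1 / E ^ 2) + δ * T / (a * sr ^ 2))) := by
    refine tot.trans_eq ?_
    field_simp
    ring
  exact le_of_mul_le_mul_left hfin (by positivity)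

/-- Derivative form. -/
theorem flat_deriv {x0 a T Y r M δ : ℝ} (ha : 0 < a) (hr : 0 < r) (hra : r < a / 2) (hY : 0 < Y) (hT : Y + a ≤ T) {f : ℂ → ℂ}
    (hf : DifferentiableOn ℂ f (Rc x0 a T)) (hM : ∀ w ∈ Rc x0 a T, ‖f w‖ ≤ M)
    (hδ : ∀ y ∈ Icc (-T) T, ‖f (((x0 + a : ℝ) : ℂ) + y * I) - f ((x0 : ℂ) + y * I)‖ ≤ δ) {z : ℂ}
    (hx : z.re ∈ Ioo (x0 + r) (x0 + a - r)) (hy : |z.im| < Y) :
    ‖deriv f z‖ ≤ Real.pi / a *
      (16 * M * Real.exp (-(2 * Real.pi * (T - Y) / a)) + δ * T / (a * Real.sin (Real.pi * r / a) ^ 2)) := by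
  set K : ℝ := 16 * M * Real.exp (-(2 * Real.pi * (T - Y) / a)) + δ * T / (a * Real.sin (Real.pi * r / a) ^ 2) with hK
  have hn : Rc x0 a T ∈ nhds z := by
    rw [Rc, mem_nhds_iff]
    refine ⟨Ioo x0 (x0 + a) ×ℂ Ioo (-T) T, ?_, isOpen_Ioo.reProdIm isOpen_Ioo, ⟨⟨?_, ?_⟩, ⟨?_, ?_⟩⟩⟩
    · exact fun w hw => ⟨Ioo_subset_Icc_self hw.1, Ioo_subset_Icc_self hw.2⟩
    · linarith [hx.1]
    · linarith [hx.2]
    · linarith [(abs_lt.1 hy).1]
    · linarith [(abs_lt.1 hy).2]
  have hd : HasDerivAt f (deriv f z) z := (hf.differentiableAt hn).hasDerivAt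
  have ha' : (a : ℂ) ≠ 0 := by exact_mod_cast ha.ne'
  have hs : HasDerivAt (fun w : ℂ => sin (Real.pi * (w - z) / a)) (Real.pi / a) z := by
    have h1 : HasDerivAt (fun w : ℂ => Real.pi * (w - z) / a) (Real.pi / a) z := by
      simpa using (((hasDerivAt_id z).sub_const z).const_mul (Real.pi : ℂ)).div_const (a : ℂ)
    have h2 := h1.csin
    simpa using h2
  have t1 := hd.tendsto_slope.norm
  have t2 := (hs.tendsto_slope.norm).mul_const K
  have hpa : ‖(Real.pi / a : ℂ)‖ = Real.pi / a := by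
    rw [norm_div, Complex.norm_real, Complex.norm_real, Real.norm_of_nonneg Real.pi_pos.le, Real.norm_of_nonneg ha.le]
  rw [hpa] at t2
  refine le_of_tendsto_of_tendsto t1 t2 ?_
  have hop : {w : ℂ | w.re ∈ Ioo (x0 + r) (x0 + a - r) ∧ |w.im| < Y} ∈ nhds z := by
    refine IsOpen.mem_nhds ?_ ⟨hx, hy⟩
    refine IsOpen.inter ?_ ?_
    · exact (isOpen_Ioo).preimage Complex.continuous_re
    · exact isOpen_lt (continuous_abs.comp Complex.continuous_im) continuous_const
  filter_upwards [nhdsWithin_le_nhds hop, self_mem_nhdsWithin] with w hw hwz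
  have hw0 : w - z ≠ 0 := sub_ne_zero.2 hwz
  have h1 := flat ha hr hra.le hY.le hT hf hM hδ (z := w) (z' := z) (Ioo_subset_Icc_self hw.1) hw.2.le (Ioo_subset_Icc_self hx) hy.le
  rw [slope_def_field, slope_def_field, norm_div, norm_div, sub_self, mul_zero, zero_div, Complex.sin_zero, sub_zero, div_mul_eq_mul_div]
  gcongr

/-- Second derivative (Cauchy on a circle of radius `r`). -/
theorem flat_deriv2 {x0 a T Y r M δ : ℝ} (ha : 0 < a) (hr : 0 < r) (hra : 2 * r < a / 2) (hT : Y + a ≤ T) {f : ℂ → ℂ}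
    (hf : DifferentiableOn ℂ f (Rc x0 a T)) (hM : ∀ w ∈ Rc x0 a T, ‖f w‖ ≤ M)
    (hδ : ∀ y ∈ Icc (-T) T, ‖f (((x0 + a : ℝ) : ℂ) + y * I) - f ((x0 : ℂ) + y * I)‖ ≤ δ) {z : ℂ}
    (hx : z.re ∈ Ioo (x0 + 2 * r) (x0 + a - 2 * r)) (hy : |z.im| + r < Y) :
    ‖deriv (deriv f) z‖ ≤ Real.pi / a *
      (16 * M * Real.exp (-(2 * Real.pi * (T - Y) / a)) + δ * T / (a * Real.sin (Real.pi * r / a) ^ 2)) / r := by
  have hY : 0 < Y := by linarith [abs_nonneg z.im]
  have hsub : ∀ w ∈ Metric.closedBall z r, w.re ∈ Ioo (x0 + r) (x0 + a - r) ∧ |w.im| < Y := by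
    intro w hw
    rw [Metric.mem_closedBall, dist_eq_norm] at hw
    have h1 : |w.re - z.re| ≤ r := by simpa using (abs_re_le_norm (w - z)).trans hw
    have h2 : |w.im - z.im| ≤ r := by simpa using (abs_im_le_norm (w - z)).trans hw
    rw [abs_le] at h1
    refine ⟨⟨by linarith [hx.1], by linarith [hx.2]⟩, ?_⟩
    have h3 : |w.im| ≤ |w.im - z.im| + |z.im| := by
      have := abs_add_le (w.im - z.im) z.im
      simpa using this
    linarith
  have hO : IsOpen (Ioo x0 (x0 + a) ×ℂ Ioo (-T) T) := isOpen_Ioo.reProdIm isOpen_Ioo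
  have hfO : DifferentiableOn ℂ f (Ioo x0 (x0 + a) ×ℂ Ioo (-T) T) :=
    hf.mono fun w hw => ⟨Ioo_subset_Icc_self hw.1, Ioo_subset_Icc_self hw.2⟩
  have hdO : DifferentiableOn ℂ (deriv f) (Ioo x0 (x0 + a) ×ℂ Ioo (-T) T) := hfO.deriv hO
  have hcl : DiffContOnCl ℂ (deriv f) (Metric.ball z r) := by
    refine DifferentiableOn.diffContOnCl ?_
    rw [closure_ball z hr.ne']
    refine hdO.mono fun w hw => ?_
    have h := hsub w hw
    exact ⟨⟨by linarith [h.1.1], by linarith [h.1.2]⟩, ⟨by linarith [(abs_lt.1 h.2).1], by linarith [(abs_lt.1 h.2).2]⟩⟩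
  refine Complex.norm_deriv_le_of_forall_mem_sphere_norm_le hr hcl fun w hw => ?_
  have h := hsub w (Metric.sphere_subset_closedBall hw)
  exact flat_deriv ha hr (by linarith) hY hT hf hM hδ h.1 h.2

end Pool.Agent.PB
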