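import Pool.Agent.NUP.MF.Cont

/-!
# Plan B: the complex mean force of one row pair with its sea, at every offset

`z = - y + i t` is the position of a quantum relative to the line `A` of the quanta (`y` its offset).
* `rowD`: logarithmic derivative in `t` of the factor of one row at `0` (both groups);
* `keX`, `keY`: logarithmic derivatives in `t` of the own and of the cross pair function;
* `forc z = rowD z + ∫ P (keX + keY) (z - i s) ds`: the force of the row together with its sea;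
* `pc z = P (- i z)`: the density of the sea at complex heights.

**`forc_01`, `forc_12`, `forc_23`, `forc_34`**: `forc z` is `- 2 π i pc z`, `2 π i pc (z + 2 l)`, `0`,
`4 π i pc (z + 3 l)` for the offset in `(0, l)`, `(l, 2 l)`, `(2 l, 3 l)`, `(3 l, 4 l)`.
-/

set_option autoImplicit false

noncomputable section

open MeasureTheory Set Filter Topology

namespace PBForce

open NUMF

/-! ### the density at complex heights -/

/-- the density of the sea at the complex height `- i z` -/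
def pc (z : ℂ) : ℂ := 16 / (√3 * Real.pi) * (Complex.cos (8 / 3 * z) /
  (4 * Complex.cos (8 / 3 * z) ^ 2 - 1))

theorem pc_I (t : ℝ) : pc (t * Complex.I) = (P t : ℂ) := by
  unfold pc P ch
  rw [show (8 / 3 * (t * Complex.I) : ℂ) = ((8 / 3 * t : ℝ) : ℂ) * Complex.I by push_cast; ring,
    Complex.cos_mul_I]
  push_cast
  ring

theorem pc_neg (z : ℂ) : pc (-z) = pc z := by
  unfold pc
  rw [mul_neg, Complex.cos_neg]

/-- the integrand of the smeared tangent -/
def tP (w : ℂ) (k : ℝ) : ℂ := tk w k / ((2 * ck1 k - 1 : ℝ) : ℂ)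

lemma tP_integrable {w : ℂ} (hw : |w.re| < Real.pi / 2) : IntegrableOn (tP w) (Ioi 0) := by
  have h1 := tk_integrable hw
  refine Integrable.mono h1 ?_ ?_
  · have h2 : Measurable ck1 := by unfold ck1; fun_prop
    have h3 := tk_meas w
    have h4 : Measurable (tP w) := by
      unfold tP
      exact h3.div (Complex.measurable_ofReal.comp (by fun_prop))
    exact h4.aestronglyMeasurable
  · refine Eventually.of_forall fun k => ?_
    unfold tP
    have hd := den_k k
    have hc := ck1_ge k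
    rw [norm_div, Complex.norm_real, Real.norm_eq_abs, abs_of_pos hd]
    exact div_le_self (norm_nonneg _) (by linarith)

lemma sinh_sub_I (w : ℂ) (s k : ℝ) : Complex.sinh ((w - s * Complex.I) * k) =
    Complex.sinh (w * k) * (Real.cos (k * s) : ℂ) -
      Complex.I * Complex.cosh (w * k) * (Real.sin (k * s) : ℂ) := by
  rw [show (w - s * Complex.I) * (k : ℂ) = w * k - ((k * s : ℝ) : ℂ) * Complex.I by push_cast; ring,
    Complex.sinh_sub, Complex.cosh_mul_I, Complex.sinh_mul_I, Complex.ofReal_cos,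
    Complex.ofReal_sin]
  ring

lemma re_sub_I (w : ℂ) (s : ℝ) : (w - s * Complex.I).re = w.re := by simp

/-- **smeared tangent** -/
theorem conv_tan {w : ℂ} (hw : |w.re| < Real.pi / 2) :
    Integrable (fun s : ℝ => (P s : ℂ) * Complex.tan (w - s * Complex.I)) ∧
    ∫ s : ℝ, (P s : ℂ) * Complex.tan (w - s * Complex.I) = ∫ k in Ioi (0:ℝ), tP w k := by
  set ν : Measure ℝ := volume.restrict (Ioi (0:ℝ)) with hν
  have hPw : Integrable fun s : ℝ => P s * (‖w‖ + |s|) := by
    refine P_integrable_mul (A := ‖w‖ + 1) (c := 1) (by norm_num)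
      (by fun_prop) ?_
    intro s
    have h1 : |s| ≤ Real.exp (1 * |s|) := by
      have := Real.add_one_le_exp |s|
      rw [one_mul]; linarith
    have h2 : 1 ≤ Real.exp (1 * |s|) := Real.one_le_exp (by positivity)
    have h3 := norm_nonneg w
    rw [abs_of_nonneg (by positivity)]
    nlinarith
  have hprod : Integrable (fun p : ℝ × ℝ => (P p.1 : ℂ) * tk (w - p.1 * Complex.I) p.2)
      (volume.prod ν) := by
    have h1 : Integrable (fun p : ℝ × ℝ => (P p.1 * (‖w‖ + |p.1|)) * dom |w.re| p.2)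
        (volume.prod ν) := hPw.mul_prod (dom_integrable hw)
    refine h1.mono' ?_ ?_
    · have h2 := sk_meas
      have h3 : Measurable P := P_cont.measurable
      unfold tk
      exact Measurable.aestronglyMeasurable (by fun_prop)
    · have h4 : ∀ᵐ p : ℝ × ℝ ∂(volume.prod ν), 0 < p.2 := by
        have h5 : ∀ᵐ k : ℝ ∂ν, 0 < k := ae_restrict_mem measurableSet_Ioi
        exact (Measure.quasiMeasurePreserving_snd).ae h5
      filter_upwards [h4] with p hp
      rw [norm_mul, Complex.norm_real, Real.norm_eq_abs, abs_of_pos (P_pos _)]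
      have h6 := tk_le (z := w - p.1 * Complex.I) (b := |w.re|) (by rw [re_sub_I]) hp
      have h7 : ‖w - p.1 * Complex.I‖ ≤ ‖w‖ + |p.1| := by
        refine (norm_sub_le _ _).trans ?_
        rw [norm_mul, Complex.norm_real, Complex.norm_I, mul_one, Real.norm_eq_abs]
      have h8 := dom_nonneg |w.re| hp
      have h9 := (P_pos p.1).le
      calc P p.1 * ‖tk (w - p.1 * Complex.I) p.2‖ ≤ P p.1 * (‖w - p.1 * Complex.I‖ * dom |w.re| p.2) := by
            gcongr
        _ ≤ P p.1 * ((‖w‖ + |p.1|) * dom |w.re| p.2) := by gcongr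
        _ = _ := by ring
  have hin : ∀ s : ℝ, ∫ k in Ioi (0:ℝ), (P s : ℂ) * tk (w - s * Complex.I) k =
      (P s : ℂ) * Complex.tan (w - s * Complex.I) := by
    intro s
    rw [integral_const_mul, tan_eq (by rw [re_sub_I]; exact hw)]
  constructor
  · have h1 := hprod.integral_prod_left
    refine h1.congr (Eventually.of_forall fun s => ?_)
    exact hin s
  · have h1 := integral_integral_swap (f := fun s k => (P s : ℂ) * tk (w - s * Complex.I) k) hprod
    simp_rw [← hin]
    rw [h1]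
    refine setIntegral_congr_fun measurableSet_Ioi fun k hk => ?_
    obtain ⟨i1, e1⟩ := P_forward k
    obtain ⟨i2, e2⟩ := P_sin k
    have h2 : ∀ s : ℝ, (P s : ℂ) * tk (w - s * Complex.I) k =
        (Complex.sinh (w * k) / (sk k : ℂ)) * ((P s * Real.cos (k * s) : ℝ) : ℂ) -
        (Complex.I * Complex.cosh (w * k) / (sk k : ℂ)) * ((P s * Real.sin (k * s) : ℝ) : ℂ) := by
      intro s
      unfold tk
      rw [sinh_sub_I]
      push_cast
      ring
    simp_rw [h2]
    rw [integral_sub (i1.ofReal.const_mul _) (i2.ofReal.const_mul _), integral_const_mul,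
      integral_const_mul, integral_complex_ofReal, integral_complex_ofReal, e1, e2]
    unfold tP tk
    push_cast
    ring

/-! ### inversion of the symbol at complex heights -/

lemma four_l : 4 * l = Real.pi / 2 := by unfold l; ring

lemma inv_symbol (w : ℂ) (k : ℝ) (hk : 0 < k) :
    Complex.cosh (w * ((4 / 3 * k : ℝ) : ℂ)) / ((2 * ck1 (4 / 3 * k) - 1 : ℝ) : ℂ) =
      1 / 2 * ((tk (4 / 3 * (w + 2 * l)) k + tk (4 / 3 * (w + l)) k) -
        (tk (4 / 3 * (w - l)) k + tk (4 / 3 * (w - 2 * l)) k)) := by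
  have hs := sk_pos hk
  have hd := den_k (4 / 3 * k)
  have hs' : (sk k : ℂ) ≠ 0 := by exact_mod_cast hs.ne'
  have hd' : ((2 * ck1 (4 / 3 * k) - 1 : ℝ) : ℂ) ≠ 0 := by exact_mod_cast hd.ne'
  -- sinh (3 x) = 2 sinh x cosh ... : with `a = l k / 3 * 2`, `sk k = sinh (3 (2 a))`
  set a : ℂ := ((2 / 3 * (l * k) : ℝ) : ℂ) with ha
  have e1 : ((2 * ck1 (4 / 3 * k) - 1 : ℝ) : ℂ) = 2 * Complex.cosh (2 * a) - 1 := by
    rw [ha]
    unfold ck1
    push_cast
    congr 3
    ring
  have e2 : (sk k : ℂ) = Complex.sinh (6 * a) := by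
    rw [ha, sk_four]
    push_cast
    congr 1
    ring
  have e3 : ∀ c : ℂ, tk (4 / 3 * (w + c * l)) k = Complex.sinh (w * (4 / 3 * k) + 2 * c * a) /
      Complex.sinh (6 * a) := by
    intro c
    unfold tk
    rw [e2, ha]
    push_cast
    congr 2
    ring
  have f1 := e3 2
  have f2 := e3 1
  have f3 := e3 (-1)
  have f4 := e3 (-2)
  rw [show (4 / 3 * (w + (-1 : ℂ) * l) : ℂ) = 4 / 3 * (w - l) by ring] at f3
  rw [show (4 / 3 * (w + (-2 : ℂ) * l) : ℂ) = 4 / 3 * (w - 2 * l) by ring] at f4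
  rw [one_mul] at f2
  rw [f1, f2, f3, f4, e1]
  rw [e1] at hd'
  rw [e2] at hs'
  have g1 : Complex.sinh (w * (4 / 3 * k) + 2 * 2 * a) - Complex.sinh (w * (4 / 3 * k) + 2 * (-2) * a) =
      2 * Complex.cosh (w * (4 / 3 * k)) * Complex.sinh (4 * a) := by
    rw [show w * (4 / 3 * (k : ℂ)) + 2 * 2 * a = w * (4 / 3 * k) + 4 * a by ring,
      show w * (4 / 3 * (k : ℂ)) + 2 * (-2) * a = w * (4 / 3 * k) - 4 * a by ring,
      Complex.sinh_add, Complex.sinh_sub]
    ring
  have g2 : Complex.sinh (w * (4 / 3 * k) + 2 * 1 * a) - Complex.sinh (w * (4 / 3 * k) + 2 * (-1) * a) =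
      2 * Complex.cosh (w * (4 / 3 * k)) * Complex.sinh (2 * a) := by
    rw [show w * (4 / 3 * (k : ℂ)) + 2 * 1 * a = w * (4 / 3 * k) + 2 * a by ring,
      show w * (4 / 3 * (k : ℂ)) + 2 * (-1) * a = w * (4 / 3 * k) - 2 * a by ring,
      Complex.sinh_add, Complex.sinh_sub]
    ring
  -- sinh 6a = (sinh 4a + sinh 2a) (2 cosh 2a - 1)
  have g3 : Complex.sinh (6 * a) = (Complex.sinh (4 * a) + Complex.sinh (2 * a)) *
      (2 * Complex.cosh (2 * a) - 1) := by
    have h1 := Complex.sinh_three_mul (2 * a)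
    have h2 := Complex.sinh_two_mul (2 * a)
    have h3 := Complex.cosh_sq (2 * a)
    rw [show (6 : ℂ) * a = 3 * (2 * a) by ring, show (4 : ℂ) * a = 2 * (2 * a) by ring, h1, h2]
    linear_combination (-4 * Complex.sinh (2 * a)) * h3
  push_cast
  rw [div_eq_iff hd']
  have g4 : Complex.sinh (w * (4 / 3 * k) + 2 * 2 * a) / Complex.sinh (6 * a) +
      Complex.sinh (w * (4 / 3 * k) + 2 * 1 * a) / Complex.sinh (6 * a) -
      (Complex.sinh (w * (4 / 3 * k) + 2 * (-1) * a) / Complex.sinh (6 * a) +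
        Complex.sinh (w * (4 / 3 * k) + 2 * (-2) * a) / Complex.sinh (6 * a)) =
      (2 * Complex.cosh (w * (4 / 3 * k)) * (Complex.sinh (4 * a) + Complex.sinh (2 * a))) /
        Complex.sinh (6 * a) := by
    rw [mul_add, ← g1, ← g2]
    ring
  rw [g4]
  have h5 : Complex.sinh (4 * a) + Complex.sinh (2 * a) ≠ 0 := by
    intro h
    rw [g3, h, zero_mul] at hs'
    exact hs' rfl
  rw [g3]
  field_simp

lemma cos_ne_of {z : ℂ} (hz : |z.re| < Real.pi / 2) : Complex.cos z ≠ 0 :=
  Complex.slitPlane_ne_zero (cos_slit hz)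

lemma tan_sub_tan {A B : ℂ} (hA : Complex.cos A ≠ 0) (hB : Complex.cos B ≠ 0) :
    Complex.tan A - Complex.tan B = Complex.sin (A - B) / (Complex.cos A * Complex.cos B) := by
  rw [Complex.tan_eq_sin_div_cos, Complex.tan_eq_sin_div_cos, Complex.sin_sub]
  field_simp
  

lemma cos_pi_six : Complex.cos (Real.pi / 6) = √3 / 2 := by
  rw [show (Real.pi / 6 : ℂ) = ((Real.pi / 6 : ℝ) : ℂ) by push_cast; rfl, ← Complex.ofReal_cos,
    Real.cos_pi_div_six]
  push_cast
  rfl

lemma sin_pi_six : Complex.sin (Real.pi / 6) = 1 / 2 := by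
  rw [show (Real.pi / 6 : ℂ) = ((Real.pi / 6 : ℝ) : ℂ) by push_cast; rfl, ← Complex.ofReal_sin,
    Real.sin_pi_div_six]
  push_cast
  rfl

lemma cos_pi_three : Complex.cos (Real.pi / 3) = 1 / 2 := by
  rw [show (Real.pi / 3 : ℂ) = ((Real.pi / 3 : ℝ) : ℂ) by push_cast; rfl, ← Complex.ofReal_cos,
    Real.cos_pi_div_three]
  push_cast
  rfl

lemma sin_pi_three : Complex.sin (Real.pi / 3) = √3 / 2 := by
  rw [show (Real.pi / 3 : ℂ) = ((Real.pi / 3 : ℝ) : ℂ) by push_cast; rfl, ← Complex.ofReal_sin,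
    Real.sin_pi_div_three]
  push_cast
  rfl

lemma sq3c : (√3 : ℂ) ^ 2 = 3 := by
  rw [← Complex.ofReal_pow, Real.sq_sqrt (by norm_num)]
  norm_num

lemma cos_dbl (w : ℂ) : Complex.cos (8 / 3 * w) = 2 * Complex.cos (4 / 3 * w) ^ 2 - 1 := by
  rw [show (8 / 3 * w : ℂ) = 2 * (4 / 3 * w) by ring, Complex.cos_two_mul]

lemma cos_prod_6 (w : ℂ) : Complex.cos (4 / 3 * w + Real.pi / 6) *
    Complex.cos (4 / 3 * w - Real.pi / 6) = (Complex.cos (8 / 3 * w) + 1 / 2) / 2 := by
  have h := Complex.sin_sq (4 / 3 * w)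
  rw [Complex.cos_add, Complex.cos_sub, cos_pi_six, sin_pi_six, cos_dbl]
  have h3 := sq3c
  linear_combination (Complex.cos (4 / 3 * w) ^ 2 / 4) * h3 - h / 4

lemma cos_prod_3 (w : ℂ) : Complex.cos (4 / 3 * w + Real.pi / 3) *
    Complex.cos (4 / 3 * w - Real.pi / 3) = (Complex.cos (8 / 3 * w) - 1 / 2) / 2 := by
  have h := Complex.sin_sq (4 / 3 * w)
  rw [Complex.cos_add, Complex.cos_sub, cos_pi_three, sin_pi_three, cos_dbl]
  have h3 := sq3c
  linear_combination (-Complex.sin (4 / 3 * w) ^ 2 / 4) * h3 - 3 / 4 * h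

lemma sixth : (4 / 3 * l : ℝ) = Real.pi / 6 := by unfold l; ring

lemma re_mul' (a : ℝ) (w : ℂ) : ((a : ℂ) * w).re = a * w.re := by simp

lemma den_ne {w : ℂ} (hw : |w.re| < l) : 4 * Complex.cos (8 / 3 * w) ^ 2 - 1 ≠ 0 := by
  have hl := l_pos
  have h := abs_lt.1 hw
  have hpi : Real.pi = 8 * l := by unfold l; ring
  have c1 : Complex.cos (4 / 3 * w + Real.pi / 6) ≠ 0 := by
    refine cos_ne_of ?_
    have : (4 / 3 * w + Real.pi / 6 : ℂ).re = 4 / 3 * w.re + Real.pi / 6 := by
      rw [Complex.add_re, show (4 / 3 : ℂ) = ((4 / 3 : ℝ) : ℂ) by push_cast; rfl, re_mul',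
        show (Real.pi / 6 : ℂ) = ((Real.pi / 6 : ℝ) : ℂ) by push_cast; rfl, Complex.ofReal_re]
    rw [this, abs_lt, hpi]
    constructor <;> linarith
  have c2 : Complex.cos (4 / 3 * w - Real.pi / 6) ≠ 0 := by
    refine cos_ne_of ?_
    have : (4 / 3 * w - Real.pi / 6 : ℂ).re = 4 / 3 * w.re - Real.pi / 6 := by
      rw [Complex.sub_re, show (4 / 3 : ℂ) = ((4 / 3 : ℝ) : ℂ) by push_cast; rfl, re_mul',
        show (Real.pi / 6 : ℂ) = ((Real.pi / 6 : ℝ) : ℂ) by push_cast; rfl, Complex.ofReal_re]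
    rw [this, abs_lt, hpi]
    constructor <;> linarith
  have c3 : Complex.cos (4 / 3 * w + Real.pi / 3) ≠ 0 := by
    refine cos_ne_of ?_
    have : (4 / 3 * w + Real.pi / 3 : ℂ).re = 4 / 3 * w.re + Real.pi / 3 := by
      rw [Complex.add_re, show (4 / 3 : ℂ) = ((4 / 3 : ℝ) : ℂ) by push_cast; rfl, re_mul',
        show (Real.pi / 3 : ℂ) = ((Real.pi / 3 : ℝ) : ℂ) by push_cast; rfl, Complex.ofReal_re]
    rw [this, abs_lt, hpi]
    constructor <;> linarith
  have c4 : Complex.cos (4 / 3 * w - Real.pi / 3) ≠ 0 := by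
    refine cos_ne_of ?_
    have : (4 / 3 * w - Real.pi / 3 : ℂ).re = 4 / 3 * w.re - Real.pi / 3 := by
      rw [Complex.sub_re, show (4 / 3 : ℂ) = ((4 / 3 : ℝ) : ℂ) by push_cast; rfl, re_mul',
        show (Real.pi / 3 : ℂ) = ((Real.pi / 3 : ℝ) : ℂ) by push_cast; rfl, Complex.ofReal_re]
    rw [this, abs_lt, hpi]
    constructor <;> linarith
  have p1 : Complex.cos (4 / 3 * w + Real.pi / 6) * Complex.cos (4 / 3 * w - Real.pi / 6) =
      (Complex.cos (8 / 3 * w) + 1 / 2) / 2 := cos_prod_6 w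
  have p2 : Complex.cos (4 / 3 * w + Real.pi / 3) * Complex.cos (4 / 3 * w - Real.pi / 3) =
      (Complex.cos (8 / 3 * w) - 1 / 2) / 2 := cos_prod_3 w
  have h1 : Complex.cos (8 / 3 * w) + 1 / 2 ≠ 0 := by
    intro h0
    exact mul_ne_zero c1 c2 (by rw [p1, h0, zero_div])
  have h2 : Complex.cos (8 / 3 * w) - 1 / 2 ≠ 0 := by
    intro h0
    exact mul_ne_zero c3 c4 (by rw [p2, h0, zero_div])
  intro h0
  exact mul_ne_zero h1 h2 (by linear_combination h0 / 4)


lemma re_43 (w : ℂ) (c : ℝ) : (4 / 3 * (w + c * l) : ℂ).re = 4 / 3 * (w.re + c * l) := by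
  rw [show (4 / 3 : ℂ) = ((4 / 3 : ℝ) : ℂ) by push_cast; rfl, re_mul', Complex.add_re,
    ← Complex.ofReal_mul, Complex.ofReal_re]

lemma bd_43 {w : ℂ} (hw : |w.re| < l) {c : ℝ} (hc : |c| ≤ 2) :
    |(4 / 3 * (w + c * l) : ℂ).re| < Real.pi / 2 := by
  have hl := l_pos
  have h := abs_lt.1 hw
  have h2 := abs_le.1 hc
  rw [re_43, ← four_l, abs_lt]
  constructor <;> nlinarith

lemma l43 : (4 / 3 * (l : ℂ)) = Real.pi / 6 := by
  have := congrArg (fun x : ℝ => (x : ℂ)) sixth
  push_cast at this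
  exact this

/-- **inversion of the symbol at complex heights** -/
theorem pc_inv {w : ℂ} (hw : |w.re| < l) :
    IntegrableOn (fun k : ℝ => Complex.cosh (w * k) / ((2 * ck1 k - 1 : ℝ) : ℂ)) (Ioi 0) ∧
    ∫ k in Ioi (0:ℝ), Complex.cosh (w * k) / ((2 * ck1 k - 1 : ℝ) : ℂ) = Real.pi * pc w := by
  have b2 := bd_43 hw (c := 2) (by norm_num)
  have b1 := bd_43 hw (c := 1) (by norm_num)
  have b1' := bd_43 hw (c := -1) (by norm_num)
  have b2' := bd_43 hw (c := -2) (by norm_num)
  have r2 : (4 / 3 * (w + ((2 : ℝ) : ℂ) * l) : ℂ) = 4 / 3 * (w + 2 * l) := by push_cast; ring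
  have r1 : (4 / 3 * (w + ((1 : ℝ) : ℂ) * l) : ℂ) = 4 / 3 * (w + l) := by push_cast; ring
  have r1' : (4 / 3 * (w + ((-1 : ℝ) : ℂ) * l) : ℂ) = 4 / 3 * (w - l) := by push_cast; ring
  have r2' : (4 / 3 * (w + ((-2 : ℝ) : ℂ) * l) : ℂ) = 4 / 3 * (w - 2 * l) := by push_cast; ring
  rw [r2] at b2
  rw [r1] at b1
  rw [r1'] at b1'
  rw [r2'] at b2'
  have i2 := tk_integrable b2
  have i1 := tk_integrable b1
  have i1' := tk_integrable b1'
  have i2' := tk_integrable b2'
  set F : ℝ → ℂ := fun k => Complex.cosh (w * k) / ((2 * ck1 k - 1 : ℝ) : ℂ) with hF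
  have hG : ∀ k ∈ Ioi (0:ℝ), F (4 / 3 * k) = 1 / 2 * ((tk (4 / 3 * (w + 2 * l)) k + tk (4 / 3 * (w + l)) k) -
      (tk (4 / 3 * (w - l)) k + tk (4 / 3 * (w - 2 * l)) k)) := fun k hk => inv_symbol w k hk
  have iG : IntegrableOn (fun k => F (4 / 3 * k)) (Ioi 0) :=
    IntegrableOn.congr_fun (((i2.add i1).sub (i1'.add i2')).const_mul (1 / 2))
      (fun k hk => (hG k hk).symm) measurableSet_Ioi
  have iF : IntegrableOn F (Ioi 0) := by
    have h := (integrableOn_Ioi_comp_mul_left_iff F 0 (by norm_num : (0:ℝ) < 4 / 3)).1 iG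
    rwa [mul_zero] at h
  refine ⟨iF, ?_⟩
  have e1 := integral_comp_mul_left_Ioi F 0 (by norm_num : (0:ℝ) < 4 / 3)
  rw [mul_zero] at e1
  have e2 : ∫ k in Ioi (0:ℝ), F (4 / 3 * k) = 1 / 2 * ((Complex.tan (4 / 3 * (w + 2 * l)) +
      Complex.tan (4 / 3 * (w + l))) - (Complex.tan (4 / 3 * (w - l)) +
      Complex.tan (4 / 3 * (w - 2 * l)))) := by
    have j := integral_sub (i2.add i1) (i1'.add i2')
    have j1 := integral_add i2 i1
    have j2 := integral_add i1' i2'
    simp only [Pi.add_apply] at j j1 j2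
    rw [setIntegral_congr_fun measurableSet_Ioi hG, integral_const_mul, j, j1, j2,
      tan_eq b2, tan_eq b1, tan_eq b1', tan_eq b2']
  rw [e2] at e1
  have e3 : ∫ k in Ioi (0:ℝ), F k = 4 / 3 * (1 / 2 * ((Complex.tan (4 / 3 * (w + 2 * l)) +
      Complex.tan (4 / 3 * (w + l))) - (Complex.tan (4 / 3 * (w - l)) +
      Complex.tan (4 / 3 * (w - 2 * l))))) := by
    rw [e1, Complex.real_smul]
    push_cast
    ring
  rw [e3]
  -- the closed form
  have s2 : (4 / 3 * (w + 2 * l) : ℂ) = 4 / 3 * w + Real.pi / 3 := by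
    linear_combination 2 * l43
  have s1 : (4 / 3 * (w + l) : ℂ) = 4 / 3 * w + Real.pi / 6 := by
    linear_combination l43
  have s1' : (4 / 3 * (w - l) : ℂ) = 4 / 3 * w - Real.pi / 6 := by
    linear_combination -l43
  have s2' : (4 / 3 * (w - 2 * l) : ℂ) = 4 / 3 * w - Real.pi / 3 := by
    linear_combination -2 * l43
  have c2 := cos_ne_of b2
  have c1 := cos_ne_of b1
  have c1' := cos_ne_of b1'
  have c2' := cos_ne_of b2'
  rw [s2] at c2 ⊢
  rw [s1] at c1 ⊢
  rw [s1'] at c1' ⊢
  rw [s2'] at c2' ⊢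
  have t2 := tan_sub_tan c2 c2'
  have t1 := tan_sub_tan c1 c1'
  rw [cos_prod_3, show (4 / 3 * w + Real.pi / 3 - (4 / 3 * w - Real.pi / 3) : ℂ) = 2 * (Real.pi / 3) by ring,
    Complex.sin_two_mul, cos_pi_three, sin_pi_three] at t2
  rw [cos_prod_6, show (4 / 3 * w + Real.pi / 6 - (4 / 3 * w - Real.pi / 6) : ℂ) = 2 * (Real.pi / 6) by ring,
    Complex.sin_two_mul, cos_pi_six, sin_pi_six] at t1
  have hd := den_ne hw
  have hd2 : Complex.cos (8 / 3 * w) - 1 / 2 ≠ 0 := by
    intro h0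
    apply hd
    linear_combination (4 * Complex.cos (8 / 3 * w) + 2) * h0
  have hd1 : Complex.cos (8 / 3 * w) + 1 / 2 ≠ 0 := by
    intro h0
    apply hd
    linear_combination (4 * Complex.cos (8 / 3 * w) - 2) * h0
  have h4 : (4 / 3 * (1 / 2 * (Complex.tan (4 / 3 * w + Real.pi / 3) + Complex.tan (4 / 3 * w + Real.pi / 6) -
      (Complex.tan (4 / 3 * w - Real.pi / 6) + Complex.tan (4 / 3 * w - Real.pi / 3)))) : ℂ) =
      2 / 3 * ((Complex.tan (4 / 3 * w + Real.pi / 3) - Complex.tan (4 / 3 * w - Real.pi / 3)) +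
        (Complex.tan (4 / 3 * w + Real.pi / 6) - Complex.tan (4 / 3 * w - Real.pi / 6))) := by ring
  rw [h4, t2, t1]
  unfold pc
  have h3 := sq3c
  have h3' : (√3 : ℂ) ≠ 0 := by
    intro h0
    rw [h0] at h3
    norm_num at h3
  have hpi : (Real.pi : ℂ) ≠ 0 := by exact_mod_cast Real.pi_ne_zero
  have hx : ∀ x : ℂ, x - 1 / 2 ≠ 0 → x + 1 / 2 ≠ 0 → 4 * x ^ 2 - 1 ≠ 0 →
      2 / 3 * (2 * (√3 / 2) * (1 / 2) / ((x - 1 / 2) / 2) + 2 * (1 / 2) * (√3 / 2) / ((x + 1 / 2) / 2)) =
      (Real.pi : ℂ) * (16 / (√3 * Real.pi) * (x / (4 * x ^ 2 - 1))) := by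
    intro x h5 h6 h7
    have h5' : 2 * x - 1 ≠ 0 := by
      intro h; apply h5; linear_combination h / 2
    have h6' : 2 * x + 1 ≠ 0 := by
      intro h; apply h6; linear_combination h / 2
    have e5 : (x - 1 / 2) / 2 = (2 * x - 1) / 4 := by ring
    have e6 : (x + 1 / 2) / 2 = (2 * x + 1) / 4 := by ring
    have e7 : 4 * x ^ 2 - 1 = (2 * x - 1) * (2 * x + 1) := by ring
    rw [e5, e6, e7]
    field_simp
    linear_combination (16 * x) * h3
  exact hx _ hd2 hd1 hd

/-! ### the mean force -/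

/-- logarithmic derivative in the height of the factor of one row at `0` (both groups) -/
def rowD (z : ℂ) : ℂ := Complex.I * (-2 * Complex.tan z - Complex.cot (z + l) - Complex.cot (z - l))

/-- logarithmic derivative in the height of the own pair function -/
def keX (z : ℂ) : ℂ := Complex.I * (2 * Complex.cot z + Complex.cot (z + 2 * l) +
  Complex.cot (z - 2 * l) - Complex.cot (z + l) - Complex.cot (z - l))

/-- logarithmic derivative in the height of the cross pair function -/
def keY (z : ℂ) : ℂ := Complex.I * (-2 * Complex.tan z - 2 * Complex.cot (z + 3 * l) -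
  2 * Complex.cot (z - 3 * l))

/-- **the mean force**: one row at `0` with its sea, on a quantum at the position `z` -/
def forc (z : ℂ) : ℂ := rowD z + ∫ s : ℝ, (P s : ℂ) * (keX (z - s * Complex.I) + keY (z - s * Complex.I))

lemma l4c : (4 * l : ℂ) = Real.pi / 2 := by
  have := congrArg (fun x : ℝ => (x : ℂ)) four_l
  push_cast at this
  exact this

lemma cot_p (w : ℂ) : Complex.cot w = -Complex.tan (w + 4 * l) := by
  rw [l4c, Complex.tan_eq_sin_div_cos, Complex.sin_add_pi_div_two, Complex.cos_add_pi_div_two]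
  unfold Complex.cot
  rw [div_neg, neg_neg]

lemma cot_m (w : ℂ) : Complex.cot w = -Complex.tan (w - 4 * l) := by
  rw [l4c, Complex.tan_eq_sin_div_cos, Complex.sin_sub_pi_div_two, Complex.cos_sub_pi_div_two]
  unfold Complex.cot
  rw [neg_div, neg_neg]

/-- one term: coefficients of the row and of the pair functions, shift -/
abbrev Tm : Type := ℂ × ℂ × ℝ

/-- the integrand of a term -/
def itg (z : ℂ) (k : ℝ) (x : Tm) : ℂ :=
  (x.1 * ((2 * ck1 k - 1 : ℝ) : ℂ) + x.2.1) * tP (z + x.2.2 * l) k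

lemma shift_re (z : ℂ) (j : ℝ) : (z + j * l : ℂ).re = z.re + j * l := by
  rw [Complex.add_re, ← Complex.ofReal_mul, Complex.ofReal_re]

/-- **sums of shifted tangents** -/
theorem comb (z : ℂ) : ∀ L : List Tm, (∀ x ∈ L, |z.re + x.2.2 * l| < Real.pi / 2) →
    Integrable (fun s : ℝ => (P s : ℂ) * (L.map fun x : Tm =>
      x.2.1 * Complex.tan (z - s * Complex.I + x.2.2 * l)).sum) ∧
    IntegrableOn (fun k : ℝ => (L.map (itg z k)).sum) (Ioi 0) ∧
    (L.map fun x : Tm => x.1 * Complex.tan (z + x.2.2 * l)).sum +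
      ∫ s : ℝ, (P s : ℂ) * (L.map fun x : Tm =>
        x.2.1 * Complex.tan (z - s * Complex.I + x.2.2 * l)).sum =
      ∫ k in Ioi (0:ℝ), (L.map (itg z k)).sum := by
  intro L
  induction L with
  | nil => intro _; simp
  | cons x L ih =>
    intro h
    obtain ⟨h1, h2, h3⟩ := ih fun y hy => h y (List.mem_cons_of_mem _ hy)
    have hx : |(z + x.2.2 * l : ℂ).re| < Real.pi / 2 := by
      rw [shift_re]
      exact h x List.mem_cons_self
    obtain ⟨c1, c2⟩ := conv_tan hx
    have c3 := tP_integrable hx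
    have c4 := tk_integrable hx
    have c5 := tan_eq hx
    have e1 : ∀ s : ℝ, (P s : ℂ) * ((x :: L).map fun x : Tm =>
        x.2.1 * Complex.tan (z - s * Complex.I + x.2.2 * l)).sum =
        x.2.1 * ((P s : ℂ) * Complex.tan (z + x.2.2 * l - s * Complex.I)) +
        (P s : ℂ) * (L.map fun x : Tm =>
          x.2.1 * Complex.tan (z - s * Complex.I + x.2.2 * l)).sum := by
      intro s
      rw [List.map_cons, List.sum_cons,
        show z + x.2.2 * l - s * Complex.I = z - s * Complex.I + x.2.2 * l by ring]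
      ring
    have e2 : ∀ k : ℝ, ((x :: L).map (itg z k)).sum =
        (x.1 * tk (z + x.2.2 * l) k + x.2.1 * tP (z + x.2.2 * l) k) + (L.map (itg z k)).sum := by
      intro k
      have hd : ((2 * ck1 k - 1 : ℝ) : ℂ) ≠ 0 := by exact_mod_cast (den_k k).ne'
      rw [List.map_cons, List.sum_cons]
      congr 1
      unfold itg tP
      field_simp
    have i1 : Integrable (fun s : ℝ => x.2.1 * ((P s : ℂ) * Complex.tan (z + x.2.2 * l - s * Complex.I))) :=
      c1.const_mul _
    have i2 : IntegrableOn (fun k : ℝ => x.1 * tk (z + x.2.2 * l) k + x.2.1 * tP (z + x.2.2 * l) k)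
        (Ioi 0) := (c4.const_mul _).add (c3.const_mul _)
    simp_rw [e1, e2]
    refine ⟨i1.add h1, i2.add h2, ?_⟩
    have j1 := integral_add i1 h1
    have j2 := integral_add i2 h2
    have j3 := integral_add (c4.const_mul x.1) (c3.const_mul x.2.1)
    rw [j1, j2, j3, integral_const_mul, integral_const_mul, integral_const_mul, c2, c5, ← h3,
      List.map_cons, List.sum_cons]
    ring

/-- the pointwise algebra: `u = z k`, `v = l k` -/
lemma itg_eq (z : ℂ) (k : ℝ) (x : Tm) : itg z k x =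
    (x.1 * (2 * Complex.cosh (l * k) - 1) + x.2.1) *
      Complex.sinh (z * k + x.2.2 * (l * k)) / (Complex.sinh (4 * (l * k)) *
        (2 * Complex.cosh (l * k) - 1)) := by
  have hd : ((2 * ck1 k - 1 : ℝ) : ℂ) = 2 * Complex.cosh (l * k) - 1 := by
    unfold ck1
    push_cast
    rfl
  have hs : (sk k : ℂ) = Complex.sinh (4 * (l * k)) := by
    rw [sk_four]
    push_cast
    rfl
  unfold itg tP tk
  rw [hd, hs, show (z + x.2.2 * l) * (k : ℂ) = z * k + x.2.2 * (l * k) by ring, div_div,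
    mul_div_assoc]

lemma cancel_aux {a b c C : ℂ} (hb : b ≠ 0) (hc : c ≠ 0) : C * (a * b) / (b * c) = C * (a / c) := by
  field_simp

/-- **evaluation**: a family of terms whose symbol is `C cosh ((z + m l) k)` -/
theorem eval (z : ℂ) (L : List Tm) (h : ∀ x ∈ L, |z.re + x.2.2 * l| < Real.pi / 2) (C : ℂ) (m : ℝ)
    (hm : |z.re + m * l| < l)
    (hid : ∀ u v : ℂ, (L.map fun x : Tm => (x.1 * (2 * Complex.cosh v - 1) + x.2.1) *
      Complex.sinh (u + x.2.2 * v)).sum = C * (Complex.cosh (u + m * v) * Complex.sinh (4 * v))) :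
    (L.map fun x : Tm => x.1 * Complex.tan (z + x.2.2 * l)).sum +
      ∫ s : ℝ, (P s : ℂ) * (L.map fun x : Tm =>
        x.2.1 * Complex.tan (z - s * Complex.I + x.2.2 * l)).sum = C * (Real.pi * pc (z + m * l)) := by
  obtain ⟨-, -, h3⟩ := comb z L h
  obtain ⟨i1, e1⟩ := pc_inv (w := z + m * l) (by rw [shift_re]; exact hm)
  rw [h3, ← e1, ← integral_const_mul]
  refine setIntegral_congr_fun measurableSet_Ioi fun k hk => ?_
  have hk' : 0 < k := hk
  have hs : Complex.sinh (4 * (l * k)) ≠ 0 := by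
    have h4 := sk_four k
    have h5 := sk_pos hk'
    rw [h4] at h5
    have h6 : (Real.sinh (4 * (l * k)) : ℂ) ≠ 0 := by exact_mod_cast h5.ne'
    push_cast at h6
    exact h6
  have hd : (2 * Complex.cosh (l * k) - 1 : ℂ) ≠ 0 := by
    have h5 := den_k k
    have h6 : ((2 * ck1 k - 1 : ℝ) : ℂ) ≠ 0 := by exact_mod_cast h5.ne'
    unfold ck1 at h6
    push_cast at h6
    exact h6
  have e2 : (L.map (itg z k)).sum = (L.map fun x : Tm => (x.1 * (2 * Complex.cosh (l * k) - 1) + x.2.1) *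
      Complex.sinh (z * k + x.2.2 * (l * k))).sum / (Complex.sinh (4 * (l * k)) *
        (2 * Complex.cosh (l * k) - 1)) := by
    rw [div_eq_mul_inv, ← List.sum_map_mul_right]
    congr 1
    refine List.map_congr_left fun x _ => ?_
    rw [itg_eq z k x, div_eq_mul_inv]
  have e3 : ((2 * ck1 k - 1 : ℝ) : ℂ) = 2 * Complex.cosh (l * k) - 1 := by
    unfold ck1
    push_cast
    rfl
  show (L.map (itg z k)).sum = _
  rw [e2, hid, e3, show (z + m * l) * (k : ℂ) = z * k + m * (l * k) by ring]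
  exact cancel_aux hs hd

/-! ### the four intervals of offsets -/

lemma shx (u v : ℂ) (j : ℤ) : Complex.sinh (u + j * v) =
    (Complex.exp u * Complex.exp v ^ j - (Complex.exp u * Complex.exp v ^ j)⁻¹) / 2 := by
  rw [Complex.sinh, Complex.exp_neg, Complex.exp_add, Complex.exp_int_mul]

lemma chx (u v : ℂ) (j : ℤ) : Complex.cosh (u + j * v) =
    (Complex.exp u * Complex.exp v ^ j + (Complex.exp u * Complex.exp v ^ j)⁻¹) / 2 := by
  rw [Complex.cosh, Complex.exp_neg, Complex.exp_add, Complex.exp_int_mul]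

lemma ch1x (v : ℂ) : Complex.cosh v = (Complex.exp v + (Complex.exp v)⁻¹) / 2 := by
  rw [Complex.cosh, Complex.exp_neg]

lemma sh4x (v : ℂ) : Complex.sinh (4 * v) = (Complex.exp v ^ 4 - (Complex.exp v ^ 4)⁻¹) / 2 := by
  rw [Complex.sinh, Complex.exp_neg, show (4 : ℂ) * v = ((4 : ℕ) : ℂ) * v by norm_num,
    Complex.exp_nat_mul]

/-- terms for the offset in `(0, l)` -/
def L01 : List Tm := [(-2, -2, 0), (1, 1, -3), (1, 1, 3), (0, -2, 4), (0, -1, -2), (0, -1, 2),
  (0, 2, -1), (0, 2, 1)]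

/-- terms for the offset in `(l, 2 l)` -/
def L12 : List Tm := [(-2, -2, 0), (1, 1, 5), (1, 1, 3), (0, -2, 4), (0, -1, -2), (0, -1, 2),
  (0, 2, -1), (0, 2, 1)]

/-- terms for the offset in `(2 l, 3 l)` -/
def L23 : List Tm := [(-2, -2, 0), (1, 1, 5), (1, 1, 3), (0, -2, 4), (0, -1, 6), (0, -1, 2),
  (0, 2, -1), (0, 2, 1)]

/-- terms for the offset in `(3 l, 4 l)` -/
def L34 : List Tm := [(-2, -2, 0), (1, 1, 5), (1, 1, 3), (0, -2, 4), (0, -1, 6), (0, -1, 2),
  (0, 2, 7), (0, 2, 1)]

lemma id01 (u v : ℂ) : (L01.map fun x : Tm => (x.1 * (2 * Complex.cosh v - 1) + x.2.1) *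
    Complex.sinh (u + x.2.2 * v)).sum = -2 * (Complex.cosh (u + (0 : ℝ) * v) * Complex.sinh (4 * v)) := by
  unfold L01
  simp only [List.map_cons, List.map_nil, List.sum_cons, List.sum_nil]
  have hx : Complex.exp v ≠ 0 := Complex.exp_ne_zero v
  have hy : Complex.exp u ≠ 0 := Complex.exp_ne_zero u
  have s0 := shx u v 0
  have s3 := shx u v 3
  have s3' := shx u v (-3)
  have s4 := shx u v 4
  have s2 := shx u v 2
  have s2' := shx u v (-2)
  have s1 := shx u v 1
  have s1' := shx u v (-1)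
  have c0 := chx u v 0
  push_cast at s0 s3 s3' s4 s2 s2' s1 s1' c0 ⊢
  rw [s0, s3, s3', s4, s2, s2', s1, s1', c0, ch1x, sh4x]
  generalize Complex.exp v = x at *
  generalize Complex.exp u = y at *
  field_simp
  ring

lemma id12 (u v : ℂ) : (L12.map fun x : Tm => (x.1 * (2 * Complex.cosh v - 1) + x.2.1) *
    Complex.sinh (u + x.2.2 * v)).sum = 2 * (Complex.cosh (u + (2 : ℝ) * v) * Complex.sinh (4 * v)) := by
  unfold L12
  simp only [List.map_cons, List.map_nil, List.sum_cons, List.sum_nil]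
  have hx : Complex.exp v ≠ 0 := Complex.exp_ne_zero v
  have hy : Complex.exp u ≠ 0 := Complex.exp_ne_zero u
  have s0 := shx u v 0
  have s5 := shx u v 5
  have s3 := shx u v 3
  have s4 := shx u v 4
  have s2 := shx u v 2
  have s2' := shx u v (-2)
  have s1 := shx u v 1
  have s1' := shx u v (-1)
  have c2 := chx u v 2
  push_cast at s0 s5 s3 s4 s2 s2' s1 s1' c2 ⊢
  rw [s0, s5, s3, s4, s2, s2', s1, s1', c2, ch1x, sh4x]
  generalize Complex.exp v = x at *
  generalize Complex.exp u = y at *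
  field_simp
  ring

lemma id23 (u v : ℂ) : (L23.map fun x : Tm => (x.1 * (2 * Complex.cosh v - 1) + x.2.1) *
    Complex.sinh (u + x.2.2 * v)).sum = 0 * (Complex.cosh (u + (2 : ℝ) * v) * Complex.sinh (4 * v)) := by
  unfold L23
  simp only [List.map_cons, List.map_nil, List.sum_cons, List.sum_nil]
  have hx : Complex.exp v ≠ 0 := Complex.exp_ne_zero v
  have hy : Complex.exp u ≠ 0 := Complex.exp_ne_zero u
  have s0 := shx u v 0
  have s5 := shx u v 5
  have s3 := shx u v 3
  have s4 := shx u v 4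
  have s2 := shx u v 2
  have s6 := shx u v 6
  have s1 := shx u v 1
  have s1' := shx u v (-1)
  push_cast at s0 s5 s3 s4 s2 s6 s1 s1' ⊢
  rw [s0, s5, s3, s4, s2, s6, s1, s1', ch1x, zero_mul]
  generalize Complex.exp v = x at *
  generalize Complex.exp u = y at *
  field_simp
  ring

lemma id34 (u v : ℂ) : (L34.map fun x : Tm => (x.1 * (2 * Complex.cosh v - 1) + x.2.1) *
    Complex.sinh (u + x.2.2 * v)).sum = 4 * (Complex.cosh (u + (3 : ℝ) * v) * Complex.sinh (4 * v)) := by
  unfold L34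
  simp only [List.map_cons, List.map_nil, List.sum_cons, List.sum_nil]
  have hx : Complex.exp v ≠ 0 := Complex.exp_ne_zero v
  have hy : Complex.exp u ≠ 0 := Complex.exp_ne_zero u
  have s0 := shx u v 0
  have s5 := shx u v 5
  have s3 := shx u v 3
  have s4 := shx u v 4
  have s2 := shx u v 2
  have s6 := shx u v 6
  have s1 := shx u v 1
  have s7 := shx u v 7
  have c3 := chx u v 3
  push_cast at s0 s5 s3 s4 s2 s6 s1 s7 c3 ⊢
  rw [s0, s5, s3, s4, s2, s6, s1, s7, c3, ch1x, sh4x]
  generalize Complex.exp v = x at *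
  generalize Complex.exp u = y at *
  field_simp
  ring

lemma forc_of {z : ℂ} {L : List Tm}
    (hr : rowD z = Complex.I * (L.map fun x : Tm => x.1 * Complex.tan (z + x.2.2 * l)).sum)
    (hk : ∀ w : ℂ, keX w + keY w =
      Complex.I * (L.map fun x : Tm => x.2.1 * Complex.tan (w + x.2.2 * l)).sum) :
    forc z = Complex.I * ((L.map fun x : Tm => x.1 * Complex.tan (z + x.2.2 * l)).sum +
      ∫ s : ℝ, (P s : ℂ) * (L.map fun x : Tm =>
        x.2.1 * Complex.tan (z - s * Complex.I + x.2.2 * l)).sum) := by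
  unfold forc
  simp_rw [hk]
  rw [hr, mul_add, ← integral_const_mul]
  congr 2
  funext s
  ring

lemma cot_tan (w : ℂ) (j : ℝ) : Complex.cot (w + j * l) = -Complex.tan (w + ((j + 4 : ℝ) : ℂ) * l) ∧
    Complex.cot (w + j * l) = -Complex.tan (w + ((j - 4 : ℝ) : ℂ) * l) := by
  constructor
  · rw [cot_p]
    congr 2
    push_cast
    ring
  · rw [cot_m]
    congr 2
    push_cast
    ring

/-- **offset in `(0, l)`** -/
theorem forc_01 {z : ℂ} (h1 : -l < z.re) (h2 : z.re < 0) :
    forc z = -(2 * Real.pi * Complex.I) * pc z := by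
  have hl := l_pos
  have cp := fun (w : ℂ) (j : ℝ) => (cot_tan w j).1
  have cm := fun (w : ℂ) (j : ℝ) => (cot_tan w j).2
  have hr : rowD z = Complex.I * (L01.map fun x : Tm => x.1 * Complex.tan (z + x.2.2 * l)).sum := by
    unfold L01 rowD
    simp only [List.map_cons, List.map_nil, List.sum_cons, List.sum_nil]
    have a1 := cm z 1
    have a2 := cp z (-1)
    push_cast at a1 a2 ⊢
    rw [show z + 1 * (l : ℂ) = z + l by ring] at a1
    rw [show z + -1 * (l : ℂ) = z - l by ring] at a2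
    rw [a1, a2]
    ring_nf
  have hk : ∀ w : ℂ, keX w + keY w =
      Complex.I * (L01.map fun x : Tm => x.2.1 * Complex.tan (w + x.2.2 * l)).sum := by
    intro w
    unfold L01 keX keY
    simp only [List.map_cons, List.map_nil, List.sum_cons, List.sum_nil]
    have a0 := cp w 0
    have a1 := cm w 1
    have a1' := cp w (-1)
    have a2 := cm w 2
    have a2' := cp w (-2)
    have a3 := cm w 3
    have a3' := cp w (-3)
    push_cast at a0 a1 a1' a2 a2' a3 a3' ⊢
    rw [show w + 0 * (l : ℂ) = w by ring] at a0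
    rw [show w + 1 * (l : ℂ) = w + l by ring] at a1
    rw [show w + -1 * (l : ℂ) = w - l by ring] at a1'
    rw [show w + -2 * (l : ℂ) = w - 2 * l by ring] at a2'
    rw [show w + -3 * (l : ℂ) = w - 3 * l by ring] at a3'
    rw [a0, a1, a1', a2, a2', a3, a3']
    ring_nf
  rw [forc_of hr hk, eval z L01 ?_ (-2) 0 ?_ id01]
  · push_cast
    rw [zero_mul, add_zero]
    ring
  · intro x hx
    unfold L01 at hx
    rw [← four_l, abs_lt]
    simp only [List.mem_cons, List.not_mem_nil, or_false] at hx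
    rcases hx with rfl | rfl | rfl | rfl | rfl | rfl | rfl | rfl <;> constructor <;> simp only <;>
      linarith
  · rw [abs_lt]
    constructor <;> linarith

/-- **offset in `(l, 2 l)`** -/
theorem forc_12 {z : ℂ} (h1 : -(2 * l) < z.re) (h2 : z.re < -l) :
    forc z = 2 * Real.pi * Complex.I * pc (z + 2 * l) := by
  have hl := l_pos
  have cp := fun (w : ℂ) (j : ℝ) => (cot_tan w j).1
  have cm := fun (w : ℂ) (j : ℝ) => (cot_tan w j).2
  have hr : rowD z = Complex.I * (L12.map fun x : Tm => x.1 * Complex.tan (z + x.2.2 * l)).sum := by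
    unfold L12 rowD
    simp only [List.map_cons, List.map_nil, List.sum_cons, List.sum_nil]
    have a1 := cp z 1
    have a2 := cp z (-1)
    push_cast at a1 a2 ⊢
    rw [show z + 1 * (l : ℂ) = z + l by ring] at a1
    rw [show z + -1 * (l : ℂ) = z - l by ring] at a2
    rw [a1, a2]
    ring_nf
  have hk : ∀ w : ℂ, keX w + keY w =
      Complex.I * (L12.map fun x : Tm => x.2.1 * Complex.tan (w + x.2.2 * l)).sum := by
    intro w
    unfold L12 keX keY
    simp only [List.map_cons, List.map_nil, List.sum_cons, List.sum_nil]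
    have a0 := cp w 0
    have a1 := cp w 1
    have a1' := cp w (-1)
    have a2 := cm w 2
    have a2' := cp w (-2)
    have a3 := cm w 3
    have a3' := cp w (-3)
    push_cast at a0 a1 a1' a2 a2' a3 a3' ⊢
    rw [show w + 0 * (l : ℂ) = w by ring] at a0
    rw [show w + 1 * (l : ℂ) = w + l by ring] at a1
    rw [show w + -1 * (l : ℂ) = w - l by ring] at a1'
    rw [show w + -2 * (l : ℂ) = w - 2 * l by ring] at a2'
    rw [show w + -3 * (l : ℂ) = w - 3 * l by ring] at a3'
    rw [a0, a1, a1', a2, a2', a3, a3']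
    ring_nf
  rw [forc_of hr hk, eval z L12 ?_ (2) 2 ?_ id12]
  · push_cast
    ring
  · intro x hx
    unfold L12 at hx
    rw [← four_l, abs_lt]
    simp only [List.mem_cons, List.not_mem_nil, or_false] at hx
    rcases hx with rfl | rfl | rfl | rfl | rfl | rfl | rfl | rfl <;> constructor <;> simp only <;>
      linarith
  · rw [abs_lt]
    constructor <;> linarith

/-- **offset in `(2 l, 3 l)`** -/
theorem forc_23 {z : ℂ} (h1 : -(3 * l) < z.re) (h2 : z.re < -(2 * l)) :
    forc z = 0 := by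
  have hl := l_pos
  have cp := fun (w : ℂ) (j : ℝ) => (cot_tan w j).1
  have cm := fun (w : ℂ) (j : ℝ) => (cot_tan w j).2
  have hr : rowD z = Complex.I * (L23.map fun x : Tm => x.1 * Complex.tan (z + x.2.2 * l)).sum := by
    unfold L23 rowD
    simp only [List.map_cons, List.map_nil, List.sum_cons, List.sum_nil]
    have a1 := cp z 1
    have a2 := cp z (-1)
    push_cast at a1 a2 ⊢
    rw [show z + 1 * (l : ℂ) = z + l by ring] at a1
    rw [show z + -1 * (l : ℂ) = z - l by ring] at a2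
    rw [a1, a2]
    ring_nf
  have hk : ∀ w : ℂ, keX w + keY w =
      Complex.I * (L23.map fun x : Tm => x.2.1 * Complex.tan (w + x.2.2 * l)).sum := by
    intro w
    unfold L23 keX keY
    simp only [List.map_cons, List.map_nil, List.sum_cons, List.sum_nil]
    have a0 := cp w 0
    have a1 := cp w 1
    have a1' := cp w (-1)
    have a2 := cp w 2
    have a2' := cp w (-2)
    have a3 := cm w 3
    have a3' := cp w (-3)
    push_cast at a0 a1 a1' a2 a2' a3 a3' ⊢
    rw [show w + 0 * (l : ℂ) = w by ring] at a0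
    rw [show w + 1 * (l : ℂ) = w + l by ring] at a1
    rw [show w + -1 * (l : ℂ) = w - l by ring] at a1'
    rw [show w + -2 * (l : ℂ) = w - 2 * l by ring] at a2'
    rw [show w + -3 * (l : ℂ) = w - 3 * l by ring] at a3'
    rw [a0, a1, a1', a2, a2', a3, a3']
    ring_nf
  rw [forc_of hr hk, eval z L23 ?_ (0) 2 ?_ id23]
  · push_cast
    ring
  · intro x hx
    unfold L23 at hx
    rw [← four_l, abs_lt]
    simp only [List.mem_cons, List.not_mem_nil, or_false] at hx
    rcases hx with rfl | rfl | rfl | rfl | rfl | rfl | rfl | rfl <;> constructor <;> simp only <;>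
      linarith
  · rw [abs_lt]
    constructor <;> linarith

/-- **offset in `(3 l, 4 l)`** -/
theorem forc_34 {z : ℂ} (h1 : -(4 * l) < z.re) (h2 : z.re < -(3 * l)) :
    forc z = 4 * Real.pi * Complex.I * pc (z + 3 * l) := by
  have hl := l_pos
  have cp := fun (w : ℂ) (j : ℝ) => (cot_tan w j).1
  have cm := fun (w : ℂ) (j : ℝ) => (cot_tan w j).2
  have hr : rowD z = Complex.I * (L34.map fun x : Tm => x.1 * Complex.tan (z + x.2.2 * l)).sum := by
    unfold L34 rowD
    simp only [List.map_cons, List.map_nil, List.sum_cons, List.sum_nil]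
    have a1 := cp z 1
    have a2 := cp z (-1)
    push_cast at a1 a2 ⊢
    rw [show z + 1 * (l : ℂ) = z + l by ring] at a1
    rw [show z + -1 * (l : ℂ) = z - l by ring] at a2
    rw [a1, a2]
    ring_nf
  have hk : ∀ w : ℂ, keX w + keY w =
      Complex.I * (L34.map fun x : Tm => x.2.1 * Complex.tan (w + x.2.2 * l)).sum := by
    intro w
    unfold L34 keX keY
    simp only [List.map_cons, List.map_nil, List.sum_cons, List.sum_nil]
    have a0 := cp w 0
    have a1 := cp w 1
    have a1' := cp w (-1)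
    have a2 := cp w 2
    have a2' := cp w (-2)
    have a3 := cp w 3
    have a3' := cp w (-3)
    push_cast at a0 a1 a1' a2 a2' a3 a3' ⊢
    rw [show w + 0 * (l : ℂ) = w by ring] at a0
    rw [show w + 1 * (l : ℂ) = w + l by ring] at a1
    rw [show w + -1 * (l : ℂ) = w - l by ring] at a1'
    rw [show w + -2 * (l : ℂ) = w - 2 * l by ring] at a2'
    rw [show w + -3 * (l : ℂ) = w - 3 * l by ring] at a3'
    rw [a0, a1, a1', a2, a2', a3, a3']
    ring_nf
  rw [forc_of hr hk, eval z L34 ?_ (4) 3 ?_ id34]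
  · push_cast
    ring
  · intro x hx
    unfold L34 at hx
    rw [← four_l, abs_lt]
    simp only [List.mem_cons, List.not_mem_nil, or_false] at hx
    rcases hx with rfl | rfl | rfl | rfl | rfl | rfl | rfl | rfl <;> constructor <;> simp only <;>
      linarith
  · rw [abs_lt]
    constructor <;> linarith

end PBForce
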