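import Pool.Agent.PB.Force
import Pool.Agent.NURow.Holo

/-!
# Plan B: the mean force of a row with a complex position

`x` = a row (complex), `z` = position of a quantum relative to the line `A` (absolute position
minus `l`).  `forcx z x = rowD (z - x) + ∫ pc (x - s i) (keX + keY) (z - s i) ds`: the force of the
row `x` together with its sea on the quantum.

* `pc_le`, `pc_le_P` : bounds of the density at complex heights, `pc_diff` : it is holomorphic;
* `conv_diff` : `x ↦ ∫ pc (x - s i) K s ds` is holomorphic for `|Re x| < l`, the integrand is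
  integrable, as soon as `P K` is integrable;
* `int_row` : the kernels are integrable against the density of a complex row;
* **`forcx_01`, `forcx_12`, `forcx_23`, `forcx_34`** : for `|Re x| < l` and the offset `- Re z` in
  `(0, l)`, `(l, 2 l)`, `(2 l, 3 l)`, `(3 l, 4 l)` the force is `- 2 π i pc (z - x)`,
  `2 π i pc (z + 2 l - x)`, `0`, `4 π i pc (z + 3 l - x)`, off the one pole.
-/

set_option autoImplicit false

noncomputable section

open MeasureTheory Set Filter Topology Metric

namespace PBForce

open NUMF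

/-! ### bounds of the density at complex heights -/

lemma norm_cos_le (w : ℂ) : ‖Complex.cos w‖ ≤ Real.cosh w.im := by
  unfold Complex.cos
  have e1 : ‖Complex.exp (w * Complex.I)‖ = Real.exp (-w.im) := by
    rw [Complex.norm_exp]
    simp
  have e2 : ‖Complex.exp (-w * Complex.I)‖ = Real.exp w.im := by
    rw [Complex.norm_exp]
    simp
  rw [norm_div, Real.cosh_eq]
  have h := norm_add_le (Complex.exp (w * Complex.I)) (Complex.exp (-w * Complex.I))
  rw [e1, e2] at h
  have e3 : ‖(2 : ℂ)‖ = 2 := by simp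
  rw [e3]
  linarith

/-- `|2 cos w ∓ 1| ≥ (2 cos a - 1) cosh (Im w)` in a strip -/
lemma cos_low {a : ℝ} (_ha : 1 / 2 < Real.cos a) (hap : a ≤ Real.pi) {w : ℂ} (hw : |w.re| ≤ a) :
    (2 * Real.cos a - 1) * Real.cosh w.im ≤ ‖2 * Complex.cos w - 1‖ ∧
      (2 * Real.cos a - 1) * Real.cosh w.im ≤ ‖2 * Complex.cos w + 1‖ := by
  have hc : Real.cos a ≤ Real.cos w.re := by
    rw [← Real.cos_abs w.re]
    exact Real.cos_le_cos_of_nonneg_of_le_pi (abs_nonneg _) hap hw
  have h1 : (Complex.cos w).re = Real.cos w.re * Real.cosh w.im := by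
    have h := Complex.cos_eq w
    rw [h]
    simp [← Complex.ofReal_cos, ← Complex.ofReal_cosh, ← Complex.ofReal_sin, ← Complex.ofReal_sinh]
  have h2 := Real.one_le_cosh w.im
  have e1 : (2 * Complex.cos w - 1).re = 2 * (Real.cos w.re * Real.cosh w.im) - 1 := by
    rw [Complex.sub_re, Complex.one_re, ← h1]
    simp
  have e2 : (2 * Complex.cos w + 1).re = 2 * (Real.cos w.re * Real.cosh w.im) + 1 := by
    rw [Complex.add_re, Complex.one_re, ← h1]
    simp
  constructor
  · refine le_trans ?_ (Complex.re_le_norm _)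
    rw [e1]
    nlinarith
  · refine le_trans ?_ (Complex.re_le_norm _)
    rw [e2]
    nlinarith

lemma pc_split (w : ℂ) : 4 * Complex.cos (8 / 3 * w) ^ 2 - 1 =
    (2 * Complex.cos (8 / 3 * w) - 1) * (2 * Complex.cos (8 / 3 * w) + 1) := by ring

lemma re_83 (w : ℂ) : (8 / 3 * w : ℂ).re = 8 / 3 * w.re := by
  rw [show (8 / 3 : ℂ) = ((8 / 3 : ℝ) : ℂ) by push_cast; rfl, re_mul']

lemma im_83 (w : ℂ) : (8 / 3 * w : ℂ).im = 8 / 3 * w.im := by
  rw [show (8 / 3 : ℂ) = ((8 / 3 : ℝ) : ℂ) by push_cast; rfl]
  simp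

lemma l83 : 8 / 3 * l = Real.pi / 3 := by unfold l; ring

/-- the cosine of a strip strictly inside `|Re w| < l` -/
lemma cos_b {b : ℝ} (hb0 : 0 ≤ b) (hb : b < l) : 1 / 2 < Real.cos (8 / 3 * b) ∧ 0 ≤ 8 / 3 * b ∧
    8 / 3 * b ≤ Real.pi := by
  have h := l83
  have hp := Real.pi_pos
  refine ⟨?_, by positivity, by linarith⟩
  rw [← Real.cos_pi_div_three]
  exact Real.cos_lt_cos_of_nonneg_of_le_pi (by positivity) (by linarith) (by linarith)

/-- **upper bound of the density** -/
lemma pc_le {b : ℝ} (hb0 : 0 ≤ b) (hb : b < l) {w : ℂ} (hw : |w.re| ≤ b) :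
    ‖pc w‖ ≤ 16 / (√3 * Real.pi) / (2 * Real.cos (8 / 3 * b) - 1) ^ 2 / Real.cosh (8 / 3 * w.im) := by
  obtain ⟨hc, h0, hp⟩ := cos_b hb0 hb
  have hw' : |(8 / 3 * w : ℂ).re| ≤ 8 / 3 * b := by
    rw [re_83, abs_mul, abs_of_pos (by norm_num : (0:ℝ) < 8 / 3)]
    linarith
  obtain ⟨l1, l2⟩ := cos_low hc hp hw'
  rw [im_83] at l1 l2
  have hch : 0 < Real.cosh (8 / 3 * w.im) := Real.cosh_pos _
  set D := 2 * Real.cos (8 / 3 * b) - 1 with hD
  have hD0 : 0 < D := by rw [hD]; linarith
  have hcos : ‖Complex.cos (8 / 3 * w)‖ ≤ Real.cosh (8 / 3 * w.im) := by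
    have := norm_cos_le (8 / 3 * w)
    rwa [im_83] at this
  have hK : 0 < 16 / (√3 * Real.pi) := by positivity
  have e1 : ‖(16 / (√3 * Real.pi) : ℂ)‖ = 16 / (√3 * Real.pi) := by
    rw [show (16 / (√3 * Real.pi) : ℂ) = ((16 / (√3 * Real.pi) : ℝ) : ℂ) by push_cast; rfl,
      Complex.norm_real, Real.norm_eq_abs, abs_of_pos hK]
  have e2 : ‖pc w‖ = 16 / (√3 * Real.pi) * (‖Complex.cos (8 / 3 * w)‖ /
      (‖2 * Complex.cos (8 / 3 * w) - 1‖ * ‖2 * Complex.cos (8 / 3 * w) + 1‖)) := by
    unfold pc
    rw [pc_split, norm_mul, e1, norm_div, norm_mul]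
  rw [e2]
  have hm : (D * Real.cosh (8 / 3 * w.im)) * (D * Real.cosh (8 / 3 * w.im)) ≤
      ‖2 * Complex.cos (8 / 3 * w) - 1‖ * ‖2 * Complex.cos (8 / 3 * w) + 1‖ :=
    mul_le_mul l1 l2 (by positivity) (norm_nonneg _)
  have h3 : ‖Complex.cos (8 / 3 * w)‖ /
      (‖2 * Complex.cos (8 / 3 * w) - 1‖ * ‖2 * Complex.cos (8 / 3 * w) + 1‖) ≤
      Real.cosh (8 / 3 * w.im) / ((D * Real.cosh (8 / 3 * w.im)) * (D * Real.cosh (8 / 3 * w.im))) :=
    div_le_div₀ hch.le hcos (by positivity) hm
  calc _ ≤ 16 / (√3 * Real.pi) * (Real.cosh (8 / 3 * w.im) /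
        ((D * Real.cosh (8 / 3 * w.im)) * (D * Real.cosh (8 / 3 * w.im)))) := by gcongr
    _ = _ := by field_simp

lemma cosh_shift (x y : ℝ) : Real.cosh (x + y) ≤ Real.cosh x * Real.exp |y| := by
  have h1 : Real.cosh x * Real.exp |y| = (Real.exp (x + |y|) + Real.exp (-x + |y|)) / 2 := by
    rw [Real.cosh_eq, Real.exp_add, Real.exp_add]
    ring
  rw [h1, Real.cosh_eq]
  have h2 : Real.exp (x + y) ≤ Real.exp (x + |y|) := Real.exp_le_exp.2 (by linarith [le_abs_self y])
  have h3 : Real.exp (-(x + y)) ≤ Real.exp (-x + |y|) :=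
    Real.exp_le_exp.2 (by linarith [neg_abs_le y])
  linarith

lemma P_low (s : ℝ) : 16 / (√3 * Real.pi) / 4 / Real.cosh (8 / 3 * s) ≤ P s := by
  have h1 := Real.one_le_cosh (8 / 3 * s)
  have hK : 0 < 16 / (√3 * Real.pi) := by positivity
  have h3 : 0 < 4 * Real.cosh (8 / 3 * s) ^ 2 - 1 := by nlinarith
  unfold P ch
  rw [div_div, div_eq_mul_one_div]
  refine mul_le_mul_of_nonneg_left ?_ hK.le
  rw [div_le_div_iff₀ (by positivity) h3]
  nlinarith

/-- the density at complex heights is dominated by the density -/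
lemma pc_le_P {b M : ℝ} (hb0 : 0 ≤ b) (hb : b < l) : ∃ C : ℝ, 0 < C ∧
    ∀ x : ℂ, |x.re| ≤ b → |x.im| ≤ M → ∀ s : ℝ, ‖pc (x - s * Complex.I)‖ ≤ C * P s := by
  have hK : 0 < 16 / (√3 * Real.pi) := by positivity
  obtain ⟨hc, -, -⟩ := cos_b hb0 hb
  have hD : 0 < 2 * Real.cos (8 / 3 * b) - 1 := by linarith
  refine ⟨4 / (2 * Real.cos (8 / 3 * b) - 1) ^ 2 * Real.exp (8 / 3 * M), by positivity,
    fun x hx hM s => ?_⟩
  have h1 := pc_le hb0 hb (w := x - s * Complex.I) (by rw [re_sub_I]; exact hx)
  refine h1.trans ?_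
  have him : (x - s * Complex.I).im = x.im - s := by simp
  rw [him]
  have h2 := cosh_shift (8 / 3 * (x.im - s)) (-(8 / 3 * x.im))
  rw [show 8 / 3 * (x.im - s) + -(8 / 3 * x.im) = -(8 / 3 * s) by ring, Real.cosh_neg, abs_neg,
    abs_mul, abs_of_pos (by norm_num : (0:ℝ) < 8 / 3)] at h2
  have h3 : Real.exp (8 / 3 * |x.im|) ≤ Real.exp (8 / 3 * M) := Real.exp_le_exp.2 (by linarith)
  have h4 := P_low s
  have h5 := Real.cosh_pos (8 / 3 * (x.im - s))
  have h6 := Real.cosh_pos (8 / 3 * s)
  have h7 : 1 / Real.cosh (8 / 3 * (x.im - s)) ≤ Real.exp (8 / 3 * M) / Real.cosh (8 / 3 * s) := by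
    rw [div_le_div_iff₀ h5 h6, one_mul]
    calc _ ≤ _ := h2
      _ ≤ Real.cosh (8 / 3 * (x.im - s)) * Real.exp (8 / 3 * M) := by gcongr
      _ = _ := by ring
  calc 16 / (√3 * Real.pi) / (2 * Real.cos (8 / 3 * b) - 1) ^ 2 / Real.cosh (8 / 3 * (x.im - s))
      = 16 / (√3 * Real.pi) / (2 * Real.cos (8 / 3 * b) - 1) ^ 2 *
        (1 / Real.cosh (8 / 3 * (x.im - s))) := by ring
    _ ≤ 16 / (√3 * Real.pi) / (2 * Real.cos (8 / 3 * b) - 1) ^ 2 *
        (Real.exp (8 / 3 * M) / Real.cosh (8 / 3 * s)) := by gcongr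
    _ = 4 / (2 * Real.cos (8 / 3 * b) - 1) ^ 2 * Real.exp (8 / 3 * M) *
        (16 / (√3 * Real.pi) / 4 / Real.cosh (8 / 3 * s)) := by ring
    _ ≤ _ := by gcongr

lemma pc_meas : Measurable pc := by
  unfold pc
  fun_prop

lemma pc_diff {w : ℂ} (hw : |w.re| < l) : DifferentiableAt ℂ pc w := by
  unfold pc
  have h := den_ne hw
  have hc : DifferentiableAt ℂ (fun z : ℂ => Complex.cos (8 / 3 * z)) w :=
    Complex.differentiable_cos.differentiableAt.comp w (differentiableAt_id.const_mul _)
  exact (hc.div (((hc.pow 2).const_mul 4).sub_const 1) h).const_mul _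

/-- **convolutions with the density are holomorphic in the position of the row** -/
theorem conv_diff {K : ℝ → ℂ} (hK : Integrable fun s : ℝ => (P s : ℂ) * K s) {x0 : ℂ}
    (h : |x0.re| < l) : DifferentiableAt ℂ (fun x : ℂ => ∫ s : ℝ, pc (x - s * Complex.I) * K s) x0 ∧
      Integrable (fun s : ℝ => pc (x0 - s * Complex.I) * K s) := by
  have hKm : AEStronglyMeasurable K volume := by
    have h1 : Measurable fun s : ℝ => ((P s : ℂ))⁻¹ :=
      (Complex.measurable_ofReal.comp P_cont.measurable).inv
    refine (h1.aestronglyMeasurable.mul hK.aestronglyMeasurable).congr (Eventually.of_forall fun s => ?_)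
    have h2 : (P s : ℂ) ≠ 0 := by exact_mod_cast (P_pos s).ne'
    show (P s : ℂ)⁻¹ * ((P s : ℂ) * K s) = K s
    field_simp
  have hm : ∀ x : ℂ, AEStronglyMeasurable (fun s : ℝ => pc (x - s * Complex.I) * K s) volume := by
    intro x
    have h1 : Measurable fun s : ℝ => pc (x - s * Complex.I) := pc_meas.comp (by fun_prop)
    exact h1.aestronglyMeasurable.mul hKm
  set R := (l - |x0.re|) / 2 with hR
  have hR0 : 0 < R := by rw [hR]; linarith
  obtain ⟨C, hC, hb⟩ := pc_le_P (b := |x0.re| + R) (M := |x0.im| + R) (by positivity)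
    (by rw [hR]; linarith)
  have hball : ∀ x ∈ ball x0 R, |x.re| ≤ |x0.re| + R ∧ |x.im| ≤ |x0.im| + R := by
    intro x hx
    rw [mem_ball, dist_eq_norm] at hx
    have h1 := Complex.abs_re_le_norm (x - x0)
    have h2 := Complex.abs_im_le_norm (x - x0)
    rw [Complex.sub_re] at h1
    rw [Complex.sub_im] at h2
    have h3 := abs_sub_abs_le_abs_sub x.re x0.re
    have h4 := abs_sub_abs_le_abs_sub x.im x0.im
    constructor <;> linarith
  have hbd : ∀ x ∈ ball x0 R, ∀ s : ℝ, ‖pc (x - s * Complex.I) * K s‖ ≤ C * ‖(P s : ℂ) * K s‖ := by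
    intro x hx s
    obtain ⟨h1, h2⟩ := hball x hx
    rw [norm_mul, norm_mul, Complex.norm_real, Real.norm_eq_abs, abs_of_pos (P_pos s), ← mul_assoc]
    exact mul_le_mul_of_nonneg_right (hb x h1 h2 s) (norm_nonneg _)
  constructor
  · refine NURow.differentiableAt_integral hR0 (b := fun s => C * ‖(P s : ℂ) * K s‖)
      (fun x _ => hm x) (Eventually.of_forall fun s => ?_)
      (Eventually.of_forall fun s x hx => hbd x hx s) (hK.norm.const_mul C)
    intro x hx
    obtain ⟨h1, -⟩ := hball x hx
    have h3 : |(x - s * Complex.I).re| < l := by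
      rw [re_sub_I]
      have : R < l - |x0.re| := by rw [hR]; linarith
      linarith
    have h4 := (pc_diff h3).comp x ((differentiableAt_id).sub_const (s * Complex.I))
    exact (h4.mul_const (K s)).differentiableWithinAt
  · refine Integrable.mono' (hK.norm.const_mul C) (hm x0) (Eventually.of_forall fun s => ?_)
    exact hbd x0 (mem_ball_self hR0) s

/-! ### continuation in the position of the row -/

/-- equality on the imaginary axis extends to the strip, off one point -/
lemma ext_id {B R : ℂ → ℂ} {x0 : ℂ} (hB : ∀ x : ℂ, |x.re| < l → DifferentiableAt ℂ B x)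
    (hR : ∀ x : ℂ, |x.re| < l → x ≠ x0 → DifferentiableAt ℂ R x)
    (h : ∀ t : ℝ, B (t * Complex.I) = R (t * Complex.I)) :
    ∀ x : ℂ, |x.re| < l → x ≠ x0 → B x = R x := by
  have hl := l_pos
  have hconv : Convex ℝ {x : ℂ | |x.re| < l} := by
    have : {x : ℂ | |x.re| < l} = Complex.reLm ⁻¹' (Ioo (-l) l) := by
      ext x
      simp [abs_lt]
    rw [this]
    exact (convex_Ioo _ _).linear_preimage _
  have hopen : IsOpen {x : ℂ | |x.re| < l} :=
    isOpen_lt (continuous_abs.comp Complex.continuous_re) continuous_const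
  -- a half plane `σ (Im x - Im x0) > 0`
  have half : ∀ σ : ℝ, (σ = 1 ∨ σ = -1) → ∀ x : ℂ, |x.re| < l → 0 < σ * (x.im - x0.im) →
      B x = R x := by
    intro σ hσ
    set U : Set ℂ := {x : ℂ | |x.re| < l} ∩ {x : ℂ | 0 < σ * (x.im - x0.im)} with hU
    have hUo : IsOpen U := by
      refine hopen.inter (isOpen_lt continuous_const ?_)
      exact continuous_const.mul (Complex.continuous_im.sub continuous_const)
    have hUc : Convex ℝ U := by
      refine hconv.inter ?_
      have : {x : ℂ | 0 < σ * (x.im - x0.im)} = Complex.imLm ⁻¹' {y : ℝ | 0 < σ * (y - x0.im)} := rfl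
      rw [this]
      refine Convex.linear_preimage ?_ _
      rcases hσ with rfl | rfl
      · have : {y : ℝ | 0 < 1 * (y - x0.im)} = Ioi x0.im := by
          ext y; simp
        rw [this]
        exact convex_Ioi _
      · have : {y : ℝ | 0 < -1 * (y - x0.im)} = Iio x0.im := by
          ext y; simp
        rw [this]
        exact convex_Iio _
    have hne : ∀ x ∈ U, x ≠ x0 := by
      rintro x ⟨-, hx⟩ rfl
      simp at hx
    have hBa : AnalyticOnNhd ℂ B U := by
      refine DifferentiableOn.analyticOnNhd (fun x hx => (hB x hx.1).differentiableWithinAt) hUo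
    have hRa : AnalyticOnNhd ℂ R U := by
      refine DifferentiableOn.analyticOnNhd
        (fun x hx => (hR x hx.1 (hne x hx)).differentiableWithinAt) hUo
    -- a point of the imaginary axis
    set t1 : ℝ := x0.im + σ with ht1
    have hσ2 : σ * σ = 1 := by rcases hσ with rfl | rfl <;> norm_num
    have hp : ((t1 : ℂ) * Complex.I) ∈ U := by
      constructor
      · show |((t1 : ℂ) * Complex.I).re| < l
        simp [hl]
      · show 0 < σ * (((t1 : ℂ) * Complex.I).im - x0.im)
        have : ((t1 : ℂ) * Complex.I).im = t1 := by simp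
        rw [this, ht1, add_sub_cancel_left, hσ2]
        exact one_pos
    have hfr : ∃ᶠ x in 𝓝[≠] ((t1 : ℂ) * Complex.I), B x = R x := by
      have hcont : Tendsto (fun t : ℝ => (t : ℂ) * Complex.I) (𝓝[≠] t1)
          (𝓝[≠] ((t1 : ℂ) * Complex.I)) := by
        refine tendsto_nhdsWithin_iff.2 ⟨?_, ?_⟩
        · have : Continuous fun t : ℝ => (t : ℂ) * Complex.I := by fun_prop
          exact (this.tendsto t1).mono_left nhdsWithin_le_nhds
        · filter_upwards [self_mem_nhdsWithin] with t ht
          intro he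
          apply ht
          have := mul_right_cancel₀ Complex.I_ne_zero he
          exact_mod_cast this
      exact hcont.frequently ((Eventually.of_forall h).frequently)
    have hall := hBa.eqOn_of_preconnected_of_frequently_eq hRa hUc.isPreconnected hp hfr
    intro x hx1 hx2
    exact hall ⟨hx1, hx2⟩
  intro x hx hxne
  rcases lt_trichotomy x.im x0.im with hlt | heq | hgt
  · exact half (-1) (Or.inr rfl) x hx (by linarith)
  · -- limit from above
    have hc1 : ContinuousAt B x := (hB x hx).continuousAt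
    have hc2 : ContinuousAt R x := (hR x hx hxne).continuousAt
    have hs : Tendsto (fun t : ℝ => x + t * Complex.I) (𝓝[>] 0) (𝓝 x) := by
      have h1 : Continuous fun t : ℝ => x + t * Complex.I := by fun_prop
      have h2 := h1.tendsto 0
      simp only [Complex.ofReal_zero, zero_mul, add_zero] at h2
      exact h2.mono_left nhdsWithin_le_nhds
    have e1 := hc1.tendsto.comp hs
    have e2 := hc2.tendsto.comp hs
    refine tendsto_nhds_unique e1 (e2.congr' ?_)
    filter_upwards [self_mem_nhdsWithin] with t ht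
    have ht' : 0 < t := ht
    refine (half 1 (Or.inl rfl) _ ?_ ?_).symm
    · simpa using hx
    · simp [heq, ht']
  · exact half 1 (Or.inl rfl) x hx (by linarith)

/-- force of one row `x` (complex) together with its sea on a quantum at `z` -/
def forcx (z x : ℂ) : ℂ := rowD (z - x) +
  ∫ s : ℝ, pc (x - s * Complex.I) * (keX (z - s * Complex.I) + keY (z - s * Complex.I))

/-- the convolution for a row on the imaginary axis -/
lemma conv_shift (K : ℂ → ℂ) (z : ℂ) (t : ℝ) :
    ∫ s : ℝ, pc (t * Complex.I - s * Complex.I) * K (z - s * Complex.I) =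
      ∫ s : ℝ, (P s : ℂ) * K (z - t * Complex.I - s * Complex.I) := by
  have h1 := integral_add_right_eq_self (μ := (volume : Measure ℝ))
    (fun s : ℝ => pc (t * Complex.I - s * Complex.I) * K (z - s * Complex.I)) t
  rw [← h1]
  refine integral_congr_ae (Eventually.of_forall fun s => ?_)
  show pc (t * Complex.I - ((s + t : ℝ) : ℂ) * Complex.I) * K (z - ((s + t : ℝ) : ℂ) * Complex.I) = _
  have e1 : (t : ℂ) * Complex.I - ((s + t : ℝ) : ℂ) * Complex.I = -(s * Complex.I) := by
    push_cast; ring
  have e2 : z - ((s + t : ℝ) : ℂ) * Complex.I = z - t * Complex.I - s * Complex.I := by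
    push_cast; ring
  rw [e1, e2, pc_neg, pc_I]

/-- a force at an imaginary row -/
lemma forcx_I (z : ℂ) (t : ℝ) : forcx z (t * Complex.I) = forc (z - t * Complex.I) := by
  unfold forcx forc
  rw [conv_shift (fun w => keX w + keY w)]

/-- differentiability of the tangent and of the cotangent -/
lemma rowD_diff {w : ℂ} (h0 : Complex.cos w ≠ 0) (h1 : Complex.sin (w + l) ≠ 0)
    (h2 : Complex.sin (w - l) ≠ 0) : DifferentiableAt ℂ rowD w := by
  unfold rowD Complex.cot
  have t1 : DifferentiableAt ℂ Complex.tan w := Complex.differentiableAt_tan.2 h0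
  have s1 : DifferentiableAt ℂ (fun z : ℂ => Complex.cos (z + l) / Complex.sin (z + l)) w :=
    (Complex.differentiable_cos.differentiableAt.comp w (differentiableAt_id.add_const _)).div
      (Complex.differentiable_sin.differentiableAt.comp w (differentiableAt_id.add_const _)) h1
  have s2 : DifferentiableAt ℂ (fun z : ℂ => Complex.cos (z - l) / Complex.sin (z - l)) w :=
    (Complex.differentiable_cos.differentiableAt.comp w (differentiableAt_id.sub_const _)).div
      (Complex.differentiable_sin.differentiableAt.comp w (differentiableAt_id.sub_const _)) h2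
  exact (((t1.const_mul _).sub s1).sub s2).const_mul _

/-! ### zeros of the denominators -/

lemma sin_ne_of {w : ℂ} (h1 : -(8 * l) < w.re) (h2 : w.re < 8 * l) (h3 : w ≠ 0) :
    Complex.sin w ≠ 0 := by
  intro h
  obtain ⟨k, hk⟩ := Complex.sin_eq_zero_iff.1 h
  have hl := l_pos
  have hpi : Real.pi = 8 * l := by unfold l; ring
  have hre : w.re = k * Real.pi := by
    rw [hk]
    simp
  rw [hpi] at hre
  have k1 : (k : ℝ) < 1 := by
    by_contra hc
    push Not at hc
    nlinarith
  have k2 : (-1 : ℝ) < k := by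
    by_contra hc
    push Not at hc
    nlinarith
  have k1' : k < 1 := by exact_mod_cast k1
  have k2' : -1 < k := by exact_mod_cast k2
  have : k = 0 := by omega
  rw [this] at hk
  apply h3
  rw [hk]
  simp

lemma cos_ne_p {w : ℂ} (h1 : -(12 * l) < w.re) (h2 : w.re < 4 * l) (h3 : w ≠ -(4 * l)) :
    Complex.cos w ≠ 0 := by
  have e : Complex.cos w = Complex.sin (w + 4 * l) := by
    rw [l4c, Complex.sin_add_pi_div_two]
  rw [e]
  have hre : (w + 4 * l : ℂ).re = w.re + 4 * l := by
    have := shift_re w 4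
    push_cast at this
    exact this
  refine sin_ne_of (by rw [hre]; linarith) (by rw [hre]; linarith) ?_
  intro h
  exact h3 (by linear_combination h)

/-- the poles of the density -/
lemma den_zero {w : ℂ} (h : 4 * Complex.cos (8 / 3 * w) ^ 2 - 1 = 0) :
    ∃ k : ℤ, w = (3 * k + 1) * l ∨ w = (3 * k - 1) * l := by
  have hpi : (Real.pi : ℂ) = 8 * l := by linear_combination (-2 : ℂ) * l4c
  have h1 : Complex.cos (16 / 3 * w) = Complex.cos (2 * (Real.pi / 3)) := by
    rw [show (16 / 3 * w : ℂ) = 2 * (8 / 3 * w) by ring, Complex.cos_two_mul, Complex.cos_two_mul,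
      cos_pi_three]
    linear_combination h / 2
  obtain ⟨k, hk⟩ := Complex.cos_eq_cos_iff.1 h1
  rcases hk with hk | hk
  · refine ⟨-k, Or.inl ?_⟩
    rw [hpi] at hk
    push_cast
    linear_combination (-3 / 16 : ℂ) * hk
  · refine ⟨k, Or.inr ?_⟩
    rw [hpi] at hk
    linear_combination (3 / 16 : ℂ) * hk

lemma den_ne' {w : ℂ} (h1 : -(2 * l) < w.re) (h2 : w.re < 2 * l) (h3 : w ≠ l) (h4 : w ≠ -l) :
    4 * Complex.cos (8 / 3 * w) ^ 2 - 1 ≠ 0 := by
  intro h
  have hl := l_pos
  obtain ⟨k, hk | hk⟩ := den_zero h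
  · have hre : w.re = (3 * k + 1) * l := by
      rw [hk, show ((3 * k + 1) * l : ℂ) = (((3 * k + 1) * l : ℝ) : ℂ) by push_cast; ring,
        Complex.ofReal_re]
    have k1 : (k : ℝ) < 1 := by
      by_contra hc
      push Not at hc
      nlinarith
    have k2 : (-1 : ℝ) < k := by
      by_contra hc
      push Not at hc
      nlinarith
    have k1' : k < 1 := by exact_mod_cast k1
    have k2' : -1 < k := by exact_mod_cast k2
    have : k = 0 := by omega
    rw [this] at hk
    apply h3
    rw [hk]
    push_cast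
    ring
  · have hre : w.re = (3 * k - 1) * l := by
      rw [hk, show ((3 * k - 1) * l : ℂ) = (((3 * k - 1) * l : ℝ) : ℂ) by push_cast; ring,
        Complex.ofReal_re]
    have k1 : (k : ℝ) < 1 := by
      by_contra hc
      push Not at hc
      nlinarith
    have k2 : (-1 : ℝ) < k := by
      by_contra hc
      push Not at hc
      nlinarith
    have k1' : k < 1 := by exact_mod_cast k1
    have k2' : -1 < k := by exact_mod_cast k2
    have : k = 0 := by omega
    rw [this] at hk
    apply h4
    rw [hk]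
    push_cast
    ring

lemma pc_diff' {w : ℂ} (h : 4 * Complex.cos (8 / 3 * w) ^ 2 - 1 ≠ 0) : DifferentiableAt ℂ pc w := by
  unfold pc
  have hc : DifferentiableAt ℂ (fun z : ℂ => Complex.cos (8 / 3 * z)) w :=
    Complex.differentiable_cos.differentiableAt.comp w (differentiableAt_id.const_mul _)
  exact (hc.div (((hc.pow 2).const_mul 4).sub_const 1) h).const_mul _

/-! ### integrability of the kernels -/

lemma tan_le {w : ℂ} (h : Real.cos w.re ≠ 0) : ‖Complex.tan w‖ ≤ 1 / |Real.cos w.re| := by
  have hc := Complex.cos_eq w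
  have hs := Complex.sin_eq w
  have e1 : ‖Complex.cos w‖ ^ 2 = Real.cos w.re ^ 2 * Real.cosh w.im ^ 2 +
      Real.sin w.re ^ 2 * Real.sinh w.im ^ 2 := by
    rw [Complex.sq_norm, Complex.normSq_apply, hc]
    simp [← Complex.ofReal_cos, ← Complex.ofReal_cosh, ← Complex.ofReal_sin, ← Complex.ofReal_sinh]
    ring
  have e2 : ‖Complex.sin w‖ ^ 2 = Real.sin w.re ^ 2 * Real.cosh w.im ^ 2 +
      Real.cos w.re ^ 2 * Real.sinh w.im ^ 2 := by
    rw [Complex.sq_norm, Complex.normSq_apply, hs]
    simp [← Complex.ofReal_cos, ← Complex.ofReal_cosh, ← Complex.ofReal_sin, ← Complex.ofReal_sinh]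
    ring
  have h1 := Real.sin_sq_add_cos_sq w.re
  have h2 := Real.cosh_sq w.im
  have h3 : 0 < Real.cos w.re ^ 2 := by positivity
  have h4 : 0 < ‖Complex.cos w‖ := by
    have : 0 < ‖Complex.cos w‖ ^ 2 := by
      rw [e1, h2]
      have := sq_nonneg (Real.sinh w.im)
      have := sq_nonneg (Real.sin w.re * Real.sinh w.im)
      nlinarith
    rcases (norm_nonneg (Complex.cos w)).lt_or_eq with h0 | h0
    · exact h0
    · rw [← h0] at this
      norm_num at this
  have h5 : |Real.cos w.re| * ‖Complex.sin w‖ ≤ ‖Complex.cos w‖ := by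
    refine le_of_sq_le_sq ?_ h4.le
    rw [mul_pow, sq_abs, e1, e2, h2]
    have a1 := sq_nonneg (Real.sinh w.im)
    have a2 := sq_nonneg (Real.cos w.re)
    have a3 := sq_nonneg (Real.sin w.re)
    nlinarith [mul_nonneg a2 a2, mul_nonneg a2 a1, mul_nonneg a3 a1]
  rw [Complex.tan_eq_sin_div_cos, norm_div, div_le_div_iff₀ h4 (abs_pos.2 h), one_mul, mul_comm]
  exact h5

lemma tan_meas : Measurable Complex.tan := by
  have : Complex.tan = fun w => Complex.sin w / Complex.cos w := by
    funext w
    exact Complex.tan_eq_sin_div_cos w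
  rw [this]
  fun_prop

lemma int_tan {w : ℂ} (h : Real.cos w.re ≠ 0) :
    Integrable fun s : ℝ => (P s : ℂ) * Complex.tan (w - s * Complex.I) := by
  have hP : Integrable fun s : ℝ => (P s : ℂ) := P_integrable.ofReal
  refine hP.mul_bdd (c := 1 / |Real.cos w.re|) ?_ (Eventually.of_forall fun s => ?_)
  · exact (tan_meas.comp (by fun_prop : Measurable fun s : ℝ => w - s * Complex.I)).aestronglyMeasurable
  · have := tan_le (w := w - s * Complex.I) (by rw [re_sub_I]; exact h)
    rwa [re_sub_I] at this

lemma int_cot {w : ℂ} (h : Real.sin w.re ≠ 0) :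
    Integrable fun s : ℝ => (P s : ℂ) * Complex.cot (w - s * Complex.I) := by
  have e : ∀ s : ℝ, (P s : ℂ) * Complex.cot (w - s * Complex.I) =
      -((P s : ℂ) * Complex.tan (w + 4 * l - s * Complex.I)) := by
    intro s
    rw [cot_p, show w - s * Complex.I + 4 * l = w + 4 * l - s * Complex.I by ring]
    ring
  simp_rw [e]
  refine (int_tan ?_).neg
  have hre : (w + 4 * l : ℂ).re = w.re + Real.pi / 2 := by
    have := shift_re w 4
    push_cast at this
    rw [this, four_l]
  rw [hre, Real.cos_add_pi_div_two]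
  exact neg_ne_zero.2 h

/-- an offset off the singular lines -/
structure Off (y : ℝ) : Prop where
  lo : -(4 * l) < y
  hi : y < 0
  n1 : y ≠ -l
  n2 : y ≠ -(2 * l)
  n3 : y ≠ -(3 * l)

lemma rsin_ne {y : ℝ} (h1 : -(8 * l) < y) (h2 : y < 8 * l) (h3 : y ≠ 0) : Real.sin y ≠ 0 := by
  have h := sin_ne_of (w := (y : ℂ)) (by simpa using h1) (by simpa using h2)
    (by exact_mod_cast h3)
  rw [← Complex.ofReal_sin] at h
  exact_mod_cast h

lemma int_cot' {z : ℂ} {j : ℝ} (h1 : -(8 * l) < z.re + j * l) (h2 : z.re + j * l < 8 * l)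
    (h3 : z.re + j * l ≠ 0) :
    Integrable fun s : ℝ => (P s : ℂ) * Complex.cot (z - s * Complex.I + j * l) := by
  have e : ∀ s : ℝ, z - s * Complex.I + j * l = z + j * l - s * Complex.I := fun s => by ring
  simp_rw [e]
  refine int_cot ?_
  rw [shift_re]
  exact rsin_ne h1 h2 h3

theorem int_keX {z : ℂ} (h : Off z.re) :
    Integrable fun s : ℝ => (P s : ℂ) * keX (z - s * Complex.I) := by
  have hl := l_pos
  have h0 := h.lo
  have h1 := h.hi
  have n0 := int_cot' (z := z) (j := 0) (by linarith) (by linarith) (by linarith)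
  have p2 := int_cot' (z := z) (j := 2) (by linarith) (by linarith)
    (fun e => h.n2 (by linarith))
  have m2 := int_cot' (z := z) (j := -2) (by linarith) (by linarith) (by linarith)
  have p1 := int_cot' (z := z) (j := 1) (by linarith) (by linarith)
    (fun e => h.n1 (by linarith))
  have m1 := int_cot' (z := z) (j := -1) (by linarith) (by linarith) (by linarith)
  refine (((((n0.const_mul 2).add p2).add m2).sub p1).sub m1 |>.const_mul Complex.I).congr
    (Eventually.of_forall fun s => ?_)
  simp only [Pi.add_apply, Pi.sub_apply]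
  unfold keX
  push_cast
  rw [show z - s * Complex.I + 0 * (l : ℂ) = z - s * Complex.I by ring,
    show z - s * Complex.I + -2 * (l : ℂ) = z - s * Complex.I - 2 * l by ring,
    show z - s * Complex.I + 1 * (l : ℂ) = z - s * Complex.I + l by ring,
    show z - s * Complex.I + -1 * (l : ℂ) = z - s * Complex.I - l by ring]
  ring

theorem int_keY {z : ℂ} (h : Off z.re) :
    Integrable fun s : ℝ => (P s : ℂ) * keY (z - s * Complex.I) := by
  have hl := l_pos
  have h0 := h.lo
  have h1 := h.hi
  have hc : Real.cos z.re ≠ 0 := by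
    have := rsin_ne (y := z.re + 4 * l) (by linarith) (by linarith) (by linarith)
    rwa [four_l, Real.sin_add_pi_div_two] at this
  have t0 := int_tan (w := z) hc
  have p3 := int_cot' (z := z) (j := 3) (by linarith) (by linarith)
    (fun e => h.n3 (by linarith))
  have m3 := int_cot' (z := z) (j := -3) (by linarith) (by linarith) (by linarith)
  refine ((((t0.const_mul (-2)).sub (p3.const_mul 2)).sub (m3.const_mul 2)).const_mul
    Complex.I).congr (Eventually.of_forall fun s => ?_)
  simp only [Pi.sub_apply]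
  unfold keY
  push_cast
  rw [show z - s * Complex.I + -3 * (l : ℂ) = z - s * Complex.I - 3 * l by ring]
  ring

lemma int_ke {z : ℂ} (h : Off z.re) : Integrable fun s : ℝ => (P s : ℂ) *
    (keX (z - s * Complex.I) + keY (z - s * Complex.I)) := by
  refine ((int_keX h).add (int_keY h)).congr (Eventually.of_forall fun s => ?_)
  simp only [Pi.add_apply]
  ring

/-- the three kernels against the density of a complex row -/
theorem int_row {z x : ℂ} (h : Off z.re) (hx : |x.re| < l) :
    Integrable (fun s : ℝ => pc (x - s * Complex.I) * keX (z - s * Complex.I)) ∧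
    Integrable (fun s : ℝ => pc (x - s * Complex.I) * keY (z - s * Complex.I)) ∧
    Integrable (fun s : ℝ => pc (x - s * Complex.I) *
      (keX (z - s * Complex.I) + keY (z - s * Complex.I))) :=
  ⟨(conv_diff (int_keX h) hx).2, (conv_diff (int_keY h) hx).2, (conv_diff (int_ke h) hx).2⟩

/-! ### the four intervals -/

/-- the principle: equality of the closed form on the imaginary axis -/
lemma forcx_of {z x0 : ℂ} (h : Off z.re) {R : ℂ → ℂ}
    (hR : ∀ x : ℂ, |x.re| < l → x ≠ x0 → DifferentiableAt ℂ R x ∧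
      DifferentiableAt ℂ (fun x => rowD (z - x)) x)
    (he : ∀ t : ℝ, forc (z - t * Complex.I) = R (t * Complex.I)) :
    ∀ x : ℂ, |x.re| < l → x ≠ x0 → forcx z x = R x := by
  intro x hx hne
  have h1 := ext_id (B := fun x : ℂ => ∫ s : ℝ, pc (x - s * Complex.I) *
      (keX (z - s * Complex.I) + keY (z - s * Complex.I))) (R := fun x => R x - rowD (z - x))
    (x0 := x0) (fun x hx => (conv_diff (int_ke h) hx).1)
    (fun x hx hn => (hR x hx hn).1.sub (hR x hx hn).2) (fun t => by
      have e1 := forcx_I z t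
      unfold forcx at e1
      rw [he] at e1
      rw [← e1]
      ring) x hx hne
  unfold forcx
  have h2 : ∫ s : ℝ, pc (x - s * Complex.I) *
      (keX (z - s * Complex.I) + keY (z - s * Complex.I)) = R x - rowD (z - x) := h1
  rw [h2]
  ring

lemma re_sub_mul_I (z : ℂ) (t : ℝ) : (z - t * Complex.I).re = z.re := by simp

lemma rowD_diff' {z x : ℂ} (h : DifferentiableAt ℂ rowD (z - x)) :
    DifferentiableAt ℂ (fun x => rowD (z - x)) x := by
  have h1 : DifferentiableAt ℂ (fun x : ℂ => z - x) x := (differentiableAt_id).const_sub z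
  exact h.comp x h1

lemma pc_diff_sub {a x : ℂ} (h : 4 * Complex.cos (8 / 3 * (a - x)) ^ 2 - 1 ≠ 0) :
    DifferentiableAt ℂ (fun x => pc (a - x)) x := by
  have h1 : DifferentiableAt ℂ (fun x : ℂ => a - x) x := (differentiableAt_id).const_sub a
  exact (pc_diff' h).comp x h1

lemma re_add_nat (w : ℂ) : (w + l).re = w.re + l ∧ (w - l).re = w.re - l ∧
    (w + 2 * l).re = w.re + 2 * l ∧ (w + 3 * l).re = w.re + 3 * l := by
  have a1 := shift_re w 1
  have a2 := shift_re w (-1)
  have a3 := shift_re w 2
  have a4 := shift_re w 3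
  push_cast at a1 a2 a3 a4
  refine ⟨?_, ?_, a3, a4⟩
  · rw [one_mul, one_mul] at a1
    exact a1
  · rw [show w + -1 * (l : ℂ) = w - l by ring] at a2
    rw [a2]
    ring

/-- **offset in `(0, l)`, complex row** -/
theorem forcx_01 {z x : ℂ} (h1 : -l < z.re) (h2 : z.re < 0) (hx : |x.re| < l)
    (hne : z - x ≠ -l) : forcx z x = -(2 * Real.pi * Complex.I) * pc (z - x) := by
  have hl := l_pos
  refine forcx_of (x0 := z + l) (R := fun x => -(2 * Real.pi * Complex.I) * pc (z - x))
    ⟨by linarith, h2, by linarith, by linarith, by linarith⟩ (fun x hx hn => ?_) (fun t => ?_)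
    x hx (fun e => hne (by rw [e]; ring))
  · have hx' := abs_lt.1 hx
    have hre : (z - x).re = z.re - x.re := Complex.sub_re z x
    have hn' : z - x ≠ -l := fun e => hn (by linear_combination -e)
    obtain ⟨r1, r2, -, -⟩ := re_add_nat (z - x)
    constructor
    · refine (pc_diff_sub (den_ne' ?_ ?_ ?_ hn')).const_mul _
      · rw [hre]; linarith
      · rw [hre]; linarith
      · intro e
        have := congrArg Complex.re e
        rw [hre, Complex.ofReal_re] at this
        linarith
    · refine rowD_diff' (rowD_diff ?_ ?_ ?_)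
      · refine cos_ne_of ?_
        rw [hre, abs_lt, ← four_l]
        constructor <;> linarith
      · refine sin_ne_of ?_ ?_ (fun e => hn' (by linear_combination e))
        · rw [r1, hre]; linarith
        · rw [r1, hre]; linarith
      · refine sin_ne_of ?_ ?_ ?_
        · rw [r2, hre]; linarith
        · rw [r2, hre]; linarith
        · intro e
          have := congrArg Complex.re e
          rw [r2, hre, Complex.zero_re] at this
          linarith
  · exact forc_01 (z := z - t * Complex.I) (by rw [re_sub_mul_I]; exact h1)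
      (by rw [re_sub_mul_I]; exact h2)

/-- **offset in `(l, 2 l)`, complex row** -/
theorem forcx_12 {z x : ℂ} (h1 : -(2 * l) < z.re) (h2 : z.re < -l) (hx : |x.re| < l)
    (hne : z - x ≠ -l) : forcx z x = 2 * Real.pi * Complex.I * pc (z + 2 * l - x) := by
  have hl := l_pos
  refine forcx_of (x0 := z + l) (R := fun x => 2 * Real.pi * Complex.I * pc (z + 2 * l - x))
    ⟨by linarith, by linarith, by linarith, by linarith, by linarith⟩ (fun x hx hn => ?_)
    (fun t => ?_) x hx (fun e => hne (by rw [e]; ring))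
  · have hx' := abs_lt.1 hx
    have hre : (z - x).re = z.re - x.re := Complex.sub_re z x
    have hn' : z - x ≠ -l := fun e => hn (by linear_combination -e)
    obtain ⟨r1, r2, r3, -⟩ := re_add_nat (z - x)
    have e3 : z + 2 * l - x = z - x + 2 * l := by ring
    constructor
    · refine (pc_diff_sub (den_ne' ?_ ?_ ?_ ?_)).const_mul _
      · rw [e3, r3, hre]; linarith
      · rw [e3, r3, hre]; linarith
      · intro e
        apply hn'
        linear_combination e
      · intro e
        have := congrArg Complex.re e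
        rw [e3, r3, hre, Complex.neg_re, Complex.ofReal_re] at this
        linarith
    · refine rowD_diff' (rowD_diff ?_ ?_ ?_)
      · refine cos_ne_of ?_
        rw [hre, abs_lt, ← four_l]
        constructor <;> linarith
      · refine sin_ne_of ?_ ?_ (fun e => hn' (by linear_combination e))
        · rw [r1, hre]; linarith
        · rw [r1, hre]; linarith
      · refine sin_ne_of ?_ ?_ ?_
        · rw [r2, hre]; linarith
        · rw [r2, hre]; linarith
        · intro e
          have := congrArg Complex.re e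
          rw [r2, hre, Complex.zero_re] at this
          linarith
  · have := forc_12 (z := z - t * Complex.I) (by rw [re_sub_mul_I]; exact h1)
      (by rw [re_sub_mul_I]; exact h2)
    rw [this]
    congr 2
    ring

/-- **offset in `(2 l, 3 l)`, complex row** -/
theorem forcx_23 {z x : ℂ} (h1 : -(3 * l) < z.re) (h2 : z.re < -(2 * l)) (hx : |x.re| < l) :
    forcx z x = 0 := by
  have hl := l_pos
  refine forcx_of (x0 := ((2 * l : ℝ) : ℂ)) (R := fun _ => 0)
    ⟨by linarith, by linarith, by linarith, by linarith, by linarith⟩ (fun x hx _ => ?_)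
    (fun t => ?_) x hx (fun e => ?_)
  · have hx' := abs_lt.1 hx
    have hre : (z - x).re = z.re - x.re := Complex.sub_re z x
    obtain ⟨r1, r2, -, -⟩ := re_add_nat (z - x)
    refine ⟨differentiableAt_const _, rowD_diff' (rowD_diff ?_ ?_ ?_)⟩
    · refine cos_ne_of ?_
      rw [hre, abs_lt, ← four_l]
      constructor <;> linarith
    · refine sin_ne_of ?_ ?_ ?_
      · rw [r1, hre]; linarith
      · rw [r1, hre]; linarith
      · intro e
        have := congrArg Complex.re e
        rw [r1, hre, Complex.zero_re] at this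
        linarith
    · refine sin_ne_of ?_ ?_ ?_
      · rw [r2, hre]; linarith
      · rw [r2, hre]; linarith
      · intro e
        have := congrArg Complex.re e
        rw [r2, hre, Complex.zero_re] at this
        linarith
  · exact forc_23 (z := z - t * Complex.I) (by rw [re_sub_mul_I]; exact h1)
      (by rw [re_sub_mul_I]; exact h2)
  · rw [e, Complex.ofReal_re, abs_of_pos (by positivity)] at hx
    linarith

/-- **offset in `(3 l, 4 l)`, complex row** -/
theorem forcx_34 {z x : ℂ} (h1 : -(4 * l) < z.re) (h2 : z.re < -(3 * l)) (hx : |x.re| < l)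
    (hne : z - x ≠ -(4 * l)) : forcx z x = 4 * Real.pi * Complex.I * pc (z + 3 * l - x) := by
  have hl := l_pos
  refine forcx_of (x0 := z + 4 * l) (R := fun x => 4 * Real.pi * Complex.I * pc (z + 3 * l - x))
    ⟨by linarith, by linarith, by linarith, by linarith, by linarith⟩ (fun x hx hn => ?_)
    (fun t => ?_) x hx (fun e => hne (by rw [e]; ring))
  · have hx' := abs_lt.1 hx
    have hre : (z - x).re = z.re - x.re := Complex.sub_re z x
    have hn' : z - x ≠ -(4 * l) := fun e => hn (by linear_combination -e)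
    obtain ⟨r1, r2, -, r4⟩ := re_add_nat (z - x)
    have e3 : z + 3 * l - x = z - x + 3 * l := by ring
    constructor
    · refine (pc_diff_sub (den_ne' ?_ ?_ ?_ ?_)).const_mul _
      · rw [e3, r4, hre]; linarith
      · rw [e3, r4, hre]; linarith
      · intro e
        have := congrArg Complex.re e
        rw [e3, r4, hre, Complex.ofReal_re] at this
        linarith
      · intro e
        apply hn'
        linear_combination e
    · refine rowD_diff' (rowD_diff ?_ ?_ ?_)
      · refine cos_ne_p ?_ ?_ hn'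
        · rw [hre]; linarith
        · rw [hre]; linarith
      · refine sin_ne_of ?_ ?_ ?_
        · rw [r1, hre]; linarith
        · rw [r1, hre]; linarith
        · intro e
          have := congrArg Complex.re e
          rw [r1, hre, Complex.zero_re] at this
          linarith
      · refine sin_ne_of ?_ ?_ ?_
        · rw [r2, hre]; linarith
        · rw [r2, hre]; linarith
        · intro e
          have := congrArg Complex.re e
          rw [r2, hre, Complex.zero_re] at this
          linarith
  · have := forc_34 (z := z - t * Complex.I) (by rw [re_sub_mul_I]; exact h1)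
      (by rw [re_sub_mul_I]; exact h2)
    rw [this]
    congr 2
    ring

end PBForce
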