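import Pool.Agent.PB.Rho
import Pool.Agent.NUP.MF.Fourier

/-!
# The two Frullani integrals of the transfer (TR)

`F1 a = (1/2) ∫_R (1 - cosh (a k))/(k sinh (π k/2)) dk`, `exp (F1 a) = cos a` (`|Re a| < π/2`),
`F2 a = (1/2) ∫_R (1 - cosh (a k))/(k sinh (π k/2) (2 cosh (l k) - 1)) dk`,
`exp (F2 a) = rh a / rh 0` (`|Re a| < 5l`), `rh` = `PBR.rh`.

Proof of the second: `sinh 12y = sinh 4y (2 cosh 8y + 1)` and
`(2 cosh y - 1)(2c7 + 2c6 - 2c4 - 2c3 + 2c1 + 1) = 2c8 + 1` (`cn = cosh (n y)`), so `F2` is a sum of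
integrals `NUMF.neg_log_cos` at `(w + c)/3`, `c` multiple of `l`: the product formula `PBR.rh_prod`
factor by factor.
-/

set_option autoImplicit false

open MeasureTheory Set Filter Topology

namespace PBFr

noncomputable section

open NUMF hiding l

open NUP1 (l)

/-- integrand of the shifted integral, `c` real: period `24 l` -/
def sh (c : ℝ) (w : ℂ) (k : ℝ) : ℂ :=
  (Complex.cosh (c * k) - Complex.cosh ((w + c) * k)) / ((k * sk (3 * k) : ℝ) : ℂ)

theorem sh_eq (c : ℝ) (w : ℂ) (k : ℝ) :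
    sh c w k = -3 * (ck ((w + c) / 3) (3 * k) - ck (c / 3 : ℂ) (3 * k)) := by
  unfold sh ck
  have e1 : (w + c) / 3 * ((3 * k : ℝ) : ℂ) = (w + c) * k := by push_cast; ring
  have e2 : (c : ℂ) / 3 * ((3 * k : ℝ) : ℂ) = c * k := by push_cast; ring
  have e3 : ((3 * k * sk (3 * k) : ℝ) : ℂ) = 3 * ((k * sk (3 * k) : ℝ) : ℂ) := by push_cast; ring
  rw [e1, e2, e3]
  rcases eq_or_ne ((k * sk (3 * k) : ℝ) : ℂ) 0 with h | h
  · rw [h]; simp
  · field_simp
    ring

theorem re_div3 (z : ℂ) : (z / 3).re = z.re / 3 := by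
  rw [show z / 3 = z / ((3 : ℝ) : ℂ) by push_cast; rfl, Complex.div_ofReal_re]

theorem sh_int {c : ℝ} {w : ℂ} (h1 : |w.re + c| < 12 * l) (h2 : |c| < 12 * l) :
    IntegrableOn (sh c w) (Ioi 0) ∧
    Complex.exp (∫ k in Ioi (0:ℝ), sh c w k) = Complex.cos ((w + c) / 3) / Complex.cos (c / 3) := by
  have hl : 12 * l / 3 = Real.pi / 2 := by unfold l; ring
  have z1 : |((w + c) / 3).re| < Real.pi / 2 := by
    rw [re_div3, Complex.add_re, Complex.ofReal_re, abs_div, ← hl, abs_of_pos (show (0:ℝ) < 3 by norm_num)]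
    exact div_lt_div_of_pos_right h1 (by norm_num)
  have z2 : |((c : ℂ) / 3).re| < Real.pi / 2 := by
    rw [re_div3, Complex.ofReal_re, abs_div, ← hl, abs_of_pos (show (0:ℝ) < 3 by norm_num)]
    exact div_lt_div_of_pos_right h2 (by norm_num)
  have i1 := ck_integrable z1
  have i2 := ck_integrable z2
  have j1 : IntegrableOn (fun k : ℝ => ck ((w + c) / 3) (3 * k)) (Ioi 0) := by
    rw [integrableOn_Ioi_comp_mul_left_iff _ 0 (show (0:ℝ) < 3 by norm_num), mul_zero]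
    exact i1
  have j2 : IntegrableOn (fun k : ℝ => ck ((c : ℂ) / 3) (3 * k)) (Ioi 0) := by
    rw [integrableOn_Ioi_comp_mul_left_iff _ 0 (show (0:ℝ) < 3 by norm_num), mul_zero]
    exact i2
  have e : sh c w = fun k => -3 * (ck ((w + c) / 3) (3 * k) - ck (c / 3 : ℂ) (3 * k)) :=
    funext (sh_eq c w)
  rw [e]
  refine ⟨(j1.sub j2).const_mul _, ?_⟩
  rw [integral_const_mul, integral_sub j1 j2,
    integral_comp_mul_left_Ioi (ck ((w + c) / 3)) 0 (show (0:ℝ) < 3 by norm_num),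
    integral_comp_mul_left_Ioi (ck ((c : ℂ) / 3)) 0 (show (0:ℝ) < 3 by norm_num), mul_zero,
    neg_log_cos z1, neg_log_cos z2]
  have n1 : Complex.cos ((w + c) / 3) ≠ 0 := Complex.slitPlane_ne_zero (cos_slit z1)
  have n2 : Complex.cos ((c : ℂ) / 3) ≠ 0 := Complex.slitPlane_ne_zero (cos_slit z2)
  have e2 : -3 * ((3:ℝ)⁻¹ • -Complex.log (Complex.cos ((w + c) / 3)) -
      (3:ℝ)⁻¹ • -Complex.log (Complex.cos ((c : ℂ) / 3))) =
      Complex.log (Complex.cos ((w + c) / 3)) - Complex.log (Complex.cos ((c : ℂ) / 3)) := by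
    rw [Complex.real_smul, Complex.real_smul]
    push_cast
    ring
  rw [e2, Complex.exp_sub, Complex.exp_log n1, Complex.exp_log n2]

/-! ### hyperbolic identities -/

theorem cosh_as (a b : ℝ) : Real.cosh (a + b) + Real.cosh (a - b) = 2 * Real.cosh a * Real.cosh b := by
  rw [Real.cosh_add, Real.cosh_sub]; ring

theorem hyp1 (y : ℝ) : (2 * Real.cosh y - 1) * (2 * Real.cosh (7 * y) + 2 * Real.cosh (6 * y) -
    2 * Real.cosh (4 * y) - 2 * Real.cosh (3 * y) + 2 * Real.cosh y + 1) = 2 * Real.cosh (8 * y) + 1 := by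
  have h7 := cosh_as (7 * y) y
  have h6 := cosh_as (6 * y) y
  have h4 := cosh_as (4 * y) y
  have h3 := cosh_as (3 * y) y
  have h1 := cosh_as y y
  rw [show 7 * y + y = 8 * y by ring, show 7 * y - y = 6 * y by ring] at h7
  rw [show 6 * y + y = 7 * y by ring, show 6 * y - y = 5 * y by ring] at h6
  rw [show 4 * y + y = 5 * y by ring, show 4 * y - y = 3 * y by ring] at h4
  rw [show 3 * y + y = 4 * y by ring, show 3 * y - y = 2 * y by ring] at h3
  rw [show y + y = 2 * y by ring, show y - y = 0 by ring, Real.cosh_zero] at h1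
  linear_combination -2 * h7 - 2 * h6 + 2 * h4 + 2 * h3 - 2 * h1

theorem hyp2 (y : ℝ) : Real.sinh (12 * y) = Real.sinh (4 * y) * (2 * Real.cosh (8 * y) + 1) := by
  rw [show 12 * y = 3 * (4 * y) by ring, show 8 * y = 2 * (4 * y) by ring, Real.sinh_three_mul,
    Real.cosh_two_mul, Real.cosh_sq]
  ring

theorem two_cosh_pos (y : ℝ) : 0 < 2 * Real.cosh y - 1 := by
  have := Real.one_le_cosh y
  linarith

theorem hyp3 {y : ℝ} (hy : 0 < y) : (2 * Real.cosh (7 * y) + 2 * Real.cosh (6 * y) -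
    2 * Real.cosh (4 * y) - 2 * Real.cosh (3 * y) + 2 * Real.cosh y + 1) / Real.sinh (12 * y) =
    1 / (Real.sinh (4 * y) * (2 * Real.cosh y - 1)) := by
  have s4 : 0 < Real.sinh (4 * y) := Real.sinh_pos_iff.2 (by positivity)
  have s12 : 0 < Real.sinh (12 * y) := Real.sinh_pos_iff.2 (by positivity)
  have c1 := two_cosh_pos y
  rw [div_eq_div_iff s12.ne' (mul_pos s4 c1).ne', hyp2, ← hyp1 y]
  ring

/-- integrand of `F2` -/
def g2 (w : ℂ) (k : ℝ) : ℂ :=
  (1 - Complex.cosh (w * k)) / ((k * sk k * (2 * Real.cosh (l * k) - 1) : ℝ) : ℂ)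

theorem pair (c : ℝ) (w : ℂ) (k : ℝ) : sh c w k + sh (-c) w k =
    2 * ((Real.cosh (c * k) : ℝ) : ℂ) * (1 - Complex.cosh (w * k)) / ((k * sk (3 * k) : ℝ) : ℂ) := by
  unfold sh
  have e1 : (w + c) * k = w * k + c * k := by ring
  have e2 : (w + ((-c : ℝ) : ℂ)) * k = w * k - c * k := by push_cast; ring
  have e3 : ((-c : ℝ) : ℂ) * k = -(c * k) := by push_cast; ring
  rw [← add_div, e1, e2, e3, Complex.cosh_neg, Complex.cosh_add, Complex.cosh_sub]
  push_cast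
  congr 1
  ring

theorem single (w : ℂ) (k : ℝ) : sh 0 w k =
    (1 - Complex.cosh (w * k)) / ((k * sk (3 * k) : ℝ) : ℂ) := by
  unfold sh
  simp

theorem g2_eq (w : ℂ) {k : ℝ} (hk : 0 < k) : g2 w k =
    (((sh (7 * l) w k + sh (-(7 * l)) w k) + (sh l w k + sh (-l) w k)) +
    (sh (6 * l) w k + sh (-(6 * l)) w k) + sh 0 w k) -
    ((sh (3 * l) w k + sh (-(3 * l)) w k) + (sh (4 * l) w k + sh (-(4 * l)) w k)) := by
  rw [pair, pair, pair, pair, pair, single]
  have hl : 0 < l := PBR.l_pos'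
  have hy : 0 < l * k := mul_pos hl hk
  have h := hyp3 hy
  have e12 : sk (3 * k) = Real.sinh (12 * (l * k)) := by
    unfold sk NUP1.l; congr 1; ring
  have e4 : sk k = Real.sinh (4 * (l * k)) := by
    unfold sk NUP1.l; congr 1; ring
  have s4 : 0 < Real.sinh (4 * (l * k)) := Real.sinh_pos_iff.2 (by positivity)
  have s12 : 0 < Real.sinh (12 * (l * k)) := Real.sinh_pos_iff.2 (by positivity)
  have c1 := two_cosh_pos (l * k)
  unfold g2
  rw [e12, e4]
  have hc : (1 : ℂ) / ((k * Real.sinh (4 * (l * k)) * (2 * Real.cosh (l * k) - 1) : ℝ) : ℂ) =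
      ((2 * Real.cosh (7 * (l * k)) + 2 * Real.cosh (6 * (l * k)) - 2 * Real.cosh (4 * (l * k)) -
      2 * Real.cosh (3 * (l * k)) + 2 * Real.cosh (l * k) + 1 : ℝ) : ℂ) /
      ((k * Real.sinh (12 * (l * k)) : ℝ) : ℂ) := by
    rw [← Complex.ofReal_one, ← Complex.ofReal_div, ← Complex.ofReal_div]
    congr 1
    rw [mul_assoc, mul_comm k (_ * _), ← div_div, ← h, div_div, mul_comm k]
  have e7 : 7 * l * k = 7 * (l * k) := by ring
  have e6 : 6 * l * k = 6 * (l * k) := by ring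
  have e3 : 3 * l * k = 3 * (l * k) := by ring
  have e4' : 4 * l * k = 4 * (l * k) := by ring
  rw [e7, e6, e3, e4', div_eq_mul_one_div (1 - Complex.cosh (w * k)), hc]
  push_cast
  ring

theorem cos_sk (m : ℝ) (w : ℂ) : Complex.cos ((w + ((m * l : ℝ) : ℂ)) / 3) = PBR.sk (12 - m) w := by
  unfold PBR.sk
  rw [← Complex.sin_pi_div_two_sub]
  congr 1
  unfold l
  push_cast
  ring

theorem sh_int' (m : ℝ) {w : ℂ} (hw : |w.re| < 5 * l) (hm : |m| ≤ 7) :
    IntegrableOn (sh (m * l) w) (Ioi 0) ∧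
    Complex.exp (∫ k in Ioi (0:ℝ), sh (m * l) w k) = PBR.sk (12 - m) w / PBR.sk (12 - m) 0 := by
  have hl : 0 < l := PBR.l_pos'
  have h2 : |m * l| ≤ 7 * l := by
    rw [abs_mul, abs_of_pos hl]
    exact mul_le_mul_of_nonneg_right hm hl.le
  have h3 : |w.re + m * l| < 12 * l := by
    have := abs_add_le w.re (m * l)
    linarith
  have h := sh_int (c := m * l) (w := w) h3 (by linarith)
  refine ⟨h.1, ?_⟩
  rw [h.2, cos_sk]
  congr 1
  rw [← cos_sk m 0, zero_add]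

theorem G2_int {w : ℂ} (hw : |w.re| < 5 * l) : IntegrableOn (g2 w) (Ioi 0) := by
  have a7 := (sh_int' 7 hw (by norm_num)).1
  have b7 := (sh_int' (-7) hw (by norm_num)).1
  have a1 := (sh_int' 1 hw (by norm_num)).1
  have b1 := (sh_int' (-1) hw (by norm_num)).1
  have a6 := (sh_int' 6 hw (by norm_num)).1
  have b6 := (sh_int' (-6) hw (by norm_num)).1
  have a0 := (sh_int' 0 hw (by norm_num)).1
  have a3 := (sh_int' 3 hw (by norm_num)).1
  have b3 := (sh_int' (-3) hw (by norm_num)).1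
  have a4 := (sh_int' 4 hw (by norm_num)).1
  have b4 := (sh_int' (-4) hw (by norm_num)).1
  rw [neg_mul] at b7 b1 b6 b3 b4
  rw [one_mul] at a1 b1
  rw [zero_mul] at a0
  refine (((((a7.add b7).add (a1.add b1)).add (a6.add b6)).add a0).sub
    ((a3.add b3).add (a4.add b4))).congr ?_
  filter_upwards [ae_restrict_mem measurableSet_Ioi] with k hk
  rw [g2_eq w hk]
  rfl

theorem G2_exp {w : ℂ} (hw : |w.re| < 5 * l) :
    Complex.exp (∫ k in Ioi (0:ℝ), g2 w k) = PBR.rh w / PBR.rh 0 := by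
  obtain ⟨a7, x7⟩ := sh_int' 7 hw (by norm_num)
  obtain ⟨b7, y7⟩ := sh_int' (-7) hw (by norm_num)
  obtain ⟨a1, x1⟩ := sh_int' 1 hw (by norm_num)
  obtain ⟨b1, y1⟩ := sh_int' (-1) hw (by norm_num)
  obtain ⟨a6, x6⟩ := sh_int' 6 hw (by norm_num)
  obtain ⟨b6, y6⟩ := sh_int' (-6) hw (by norm_num)
  obtain ⟨a0, x0⟩ := sh_int' 0 hw (by norm_num)
  obtain ⟨a3, x3⟩ := sh_int' 3 hw (by norm_num)
  obtain ⟨b3, y3⟩ := sh_int' (-3) hw (by norm_num)
  obtain ⟨a4, x4⟩ := sh_int' 4 hw (by norm_num)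
  obtain ⟨b4, y4⟩ := sh_int' (-4) hw (by norm_num)
  rw [neg_mul] at b7 b1 b6 b3 b4 y7 y1 y6 y3 y4
  rw [one_mul] at a1 b1 x1 y1
  rw [zero_mul] at a0 x0
  have e : ∫ k in Ioi (0:ℝ), g2 w k = ∫ k in Ioi (0:ℝ),
      (((((sh (7 * l) w + sh (-(7 * l)) w) + (sh l w + sh (-l) w)) +
      (sh (6 * l) w + sh (-(6 * l)) w)) + sh 0 w) -
      ((sh (3 * l) w + sh (-(3 * l)) w) + (sh (4 * l) w + sh (-(4 * l)) w))) k := by
    refine setIntegral_congr_fun measurableSet_Ioi fun k hk => ?_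
    rw [g2_eq w hk]
    rfl
  rw [e, integral_sub' ((((a7.add b7).add (a1.add b1)).add (a6.add b6)).add a0)
      ((a3.add b3).add (a4.add b4)),
    integral_add' (((a7.add b7).add (a1.add b1)).add (a6.add b6)) a0,
    integral_add' ((a7.add b7).add (a1.add b1)) (a6.add b6),
    integral_add' (a7.add b7) (a1.add b1), integral_add' a7 b7, integral_add' a1 b1,
    integral_add' a6 b6, integral_add' (a3.add b3) (a4.add b4), integral_add' a3 b3,
    integral_add' a4 b4]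
  simp only [Complex.exp_add, Complex.exp_sub]
  rw [x7, y7, x1, y1, x6, y6, x0, x3, y3, x4, y4, PBR.rh_prod, PBR.rh_prod]
  norm_num
  ring

/-! ### the full line -/

theorem even_int {f : ℝ → ℂ} (he : ∀ k, f (-k) = f k) (hf : IntegrableOn f (Ioi 0)) :
    Integrable f ∧ ∫ k : ℝ, f k = 2 * ∫ k in Ioi (0:ℝ), f k := by
  have h1 : IntegrableOn f (Iic 0) := by
    have hg : IntegrableOn (fun k => f (-k)) (Ioi 0) := by simpa only [he] using hf
    rw [← integrableOn_Ici_iff_integrableOn_Ioi] at hg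
    have := hg.comp_neg
    simpa using this
  have h2 : ∫ k in Iic (0:ℝ), f k = ∫ k in Ioi (0:ℝ), f k := by
    have := integral_comp_neg_Iic (0:ℝ) f
    simp only [he, neg_zero] at this
    exact this
  refine ⟨?_, ?_⟩
  · rw [← integrableOn_univ, ← Iic_union_Ioi (a := (0 : ℝ))]
    exact h1.union hf
  · rw [← intervalIntegral.integral_Iic_add_Ioi h1 hf, h2]
    ring

theorem sk_neg (k : ℝ) : sk (-k) = -sk k := by
  unfold sk
  rw [mul_neg, Real.sinh_neg]

/-- `(1/2) ∫_R (1 - cosh (a k))/(k sinh (π k/2)) dk` -/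
def F1 (a : ℂ) : ℂ := 1 / 2 * ∫ k : ℝ, (1 - Complex.cosh (a * k)) / ((k * Real.sinh (Real.pi / 2 * k) : ℝ) : ℂ)

/-- `(1/2) ∫_R (1 - cosh (a k))/(k sinh (π k/2) (2 cosh (l k) - 1)) dk` -/
def F2 (a : ℂ) : ℂ := 1 / 2 * ∫ k : ℝ, (1 - Complex.cosh (a * k)) /
  ((k * Real.sinh (Real.pi / 2 * k) * (2 * Real.cosh (l * k) - 1) : ℝ) : ℂ)

theorem F1_all {a : ℂ} (ha : |a.re| < Real.pi / 2) :
    Integrable (fun k : ℝ => (1 - Complex.cosh (a * k)) / ((k * Real.sinh (Real.pi / 2 * k) : ℝ) : ℂ)) ∧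
    F1 a = Complex.log (Complex.cos a) := by
  have he : ∀ k : ℝ, (fun k : ℝ => (1 - Complex.cosh (a * k)) / ((k * Real.sinh (Real.pi / 2 * k) : ℝ) : ℂ)) (-k) =
      (fun k : ℝ => (1 - Complex.cosh (a * k)) / ((k * Real.sinh (Real.pi / 2 * k) : ℝ) : ℂ)) k := by
    intro k
    simp only
    rw [show a * ((-k : ℝ) : ℂ) = -(a * k) by push_cast; ring, Complex.cosh_neg, mul_neg, Real.sinh_neg,
      neg_mul_neg]
  have e : ∀ k : ℝ, (1 - Complex.cosh (a * k)) / ((k * Real.sinh (Real.pi / 2 * k) : ℝ) : ℂ) = -ck a k := by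
    intro k
    unfold ck sk
    rw [← neg_div, neg_sub]
  have hf : IntegrableOn (fun k : ℝ => (1 - Complex.cosh (a * k)) /
      ((k * Real.sinh (Real.pi / 2 * k) : ℝ) : ℂ)) (Ioi 0) := by
    simp_rw [e]
    exact (ck_integrable ha).neg
  obtain ⟨h1, h2⟩ := even_int he hf
  refine ⟨h1, ?_⟩
  unfold F1
  rw [h2]
  simp_rw [e]
  rw [integral_neg, neg_log_cos ha]
  ring

theorem F1_int {a : ℂ} (ha : |a.re| < Real.pi / 2) :
    Integrable fun k : ℝ => (1 - Complex.cosh (a * k)) / ((k * Real.sinh (Real.pi / 2 * k) : ℝ) : ℂ) :=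
  (F1_all ha).1

/-- `F1 a = log (cos a)` -/
theorem F1_eq {a : ℂ} (ha : |a.re| < Real.pi / 2) : F1 a = Complex.log (Complex.cos a) :=
  (F1_all ha).2

/-- **first closed form** -/
theorem F1_exp {a : ℂ} (ha : |a.re| < Real.pi / 2) : Complex.exp (F1 a) = Complex.cos a := by
  rw [F1_eq ha, Complex.exp_log (Complex.slitPlane_ne_zero (cos_slit ha))]

theorem F2_all {a : ℂ} (ha : |a.re| < 5 * l) :
    Integrable (fun k : ℝ => (1 - Complex.cosh (a * k)) /
      ((k * Real.sinh (Real.pi / 2 * k) * (2 * Real.cosh (l * k) - 1) : ℝ) : ℂ)) ∧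
    F2 a = ∫ k in Ioi (0:ℝ), g2 a k := by
  have he : ∀ k : ℝ, g2 a (-k) = g2 a k := by
    intro k
    unfold g2
    rw [show a * ((-k : ℝ) : ℂ) = -(a * k) by push_cast; ring, Complex.cosh_neg, sk_neg,
      neg_mul_neg, mul_neg, Real.cosh_neg]
  obtain ⟨h1, h2⟩ := even_int he (G2_int ha)
  refine ⟨h1, ?_⟩
  have h3 : F2 a = 1 / 2 * ∫ k : ℝ, g2 a k := rfl
  rw [h3, h2]
  ring

theorem F2_int {a : ℂ} (ha : |a.re| < 5 * l) : Integrable fun k : ℝ => (1 - Complex.cosh (a * k)) /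
      ((k * Real.sinh (Real.pi / 2 * k) * (2 * Real.cosh (l * k) - 1) : ℝ) : ℂ) :=
  (F2_all ha).1

/-- **second closed form** -/
theorem F2_exp {a : ℂ} (ha : |a.re| < 5 * l) : Complex.exp (F2 a) = PBR.rh a / PBR.rh 0 := by
  rw [(F2_all ha).2, G2_exp ha]

/-- on the half line -/
theorem F1_half {a : ℂ} (ha : |a.re| < Real.pi / 2) :
    F1 a = ∫ k in Ioi (0:ℝ), (1 - Complex.cosh (a * k)) / ((k * Real.sinh (Real.pi / 2 * k) : ℝ) : ℂ) := by
  rw [F1_eq ha, ← neg_eq_iff_eq_neg.2 (neg_log_cos ha), ← integral_neg]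
  refine setIntegral_congr_fun measurableSet_Ioi fun k _ => ?_
  unfold ck sk
  rw [← neg_div, neg_sub]

theorem F2_half {a : ℂ} (ha : |a.re| < 5 * l) :
    F2 a = ∫ k in Ioi (0:ℝ), (1 - Complex.cosh (a * k)) /
      ((k * Real.sinh (Real.pi / 2 * k) * (2 * Real.cosh (l * k) - 1) : ℝ) : ℂ) :=
  (F2_all ha).2

theorem F1_zero : F1 0 = 0 := by unfold F1; simp

theorem F2_zero : F2 0 = 0 := by unfold F2; simp

theorem F1_neg (a : ℂ) : F1 (-a) = F1 a := by unfold F1; simp [Complex.cosh_neg]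

theorem F2_neg (a : ℂ) : F2 (-a) = F2 a := by unfold F2; simp [Complex.cosh_neg]

end

end PBFr
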