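import Pool.Agent.PB.FtTC

/-!
# Plan B: inversion, Parseval, convolution with `V`

* `ft_inv`: inversion; **`parseval`**: `∫ f h = (1/2π) ∫ ft f q ft h (-q) dq`;
* `ft_conv`: transform of `V * f`;
* **`form_of_conv`**: if `V * b = c g` (`b`, `g` integrable) and `h` a test function then
  `∫ h b = c FU Up h g`.
-/

set_option autoImplicit false

open MeasureTheory Set Filter Topology FourierTransform

namespace Pool.Agent.PB

open NUMF

noncomputable section

lemma fourier_eq_ft (f : ℝ → ℂ) (ξ : ℝ) : 𝓕 f ξ = ft f (2 * Real.pi * ξ) := by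
  rw [Real.fourier_real_eq_integral_exp_smul]
  unfold ft ek
  refine integral_congr_ae (Eventually.of_forall fun v => ?_)
  simp only [smul_eq_mul]
  rw [mul_comm]
  congr 3
  push_cast
  ring

/-- inversion -/
theorem ft_inv {f : ℝ → ℂ} (hi : Integrable f) (hc : Continuous f) (hF : Integrable (ft f)) (t : ℝ) :
    f t = 1 / (2 * Real.pi : ℝ) * ∫ q, ft f q * ek (-q) t := by
  have hpi := Real.pi_pos
  have hFi : Integrable (𝓕 f) := by
    have h1 : 𝓕 f = fun ξ => ft f (2 * Real.pi * ξ) := funext (fourier_eq_ft f)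
    rw [h1]
    exact hF.comp_mul_left' (by positivity)
  have hinv := hi.fourierInv_fourier_eq hFi hc.continuousAt (v := t)
  rw [Real.fourierInv_eq'] at hinv
  simp_rw [fourier_eq_ft] at hinv
  rw [← hinv]
  have e : ∀ v : ℝ, Complex.exp (((2 * Real.pi * inner ℝ v t : ℝ) : ℂ) * Complex.I) • ft f (2 * Real.pi * v) =
      (fun q => ft f q * ek (-q) t) (2 * Real.pi * v) := by
    intro v
    simp only [RCLike.inner_apply, conj_trivial, smul_eq_mul]
    unfold ek
    rw [mul_comm]
    congr 3
    push_cast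
    ring
  simp_rw [e]
  rw [Measure.integral_comp_mul_left (fun q => ft f q * ek (-q) t) (2 * Real.pi)]
  rw [abs_of_pos (by positivity), Complex.real_smul]
  push_cast
  field_simp

/-- **Parseval** -/
theorem parseval {f h : ℝ → ℂ} (hi : Integrable f) (hc : Continuous f) (hF : Integrable (ft f))
    (hh : Integrable h) : ∫ t, f t * h t = 1 / (2 * Real.pi : ℝ) * ∫ q, ft f q * ft h (-q) := by
  have h1 : Integrable (fun p : ℝ × ℝ => ft f p.2 * h p.1 * ek (-p.2) p.1) (volume.prod volume) := by
    have h2 : Integrable (fun p : ℝ × ℝ => h p.1 * ft f p.2) (volume.prod volume) := hh.mul_prod hF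
    have h3 : Integrable (fun p : ℝ × ℝ => ft f p.2 * h p.1) (volume.prod volume) :=
      h2.congr (Eventually.of_forall fun p => mul_comm _ _)
    have hE : Continuous fun p : ℝ × ℝ => ek (-p.2) p.1 :=
      ek_cont.comp ((continuous_snd.neg).prodMk continuous_fst)
    exact h3.mul_bdd (c := 1) hE.aestronglyMeasurable (Eventually.of_forall fun p => (norm_ek _ _).le)
  have e1 : ∀ t, f t * h t = 1 / (2 * Real.pi : ℝ) * ∫ q, ft f q * h t * ek (-q) t := by
    intro t
    have h2 := ft_inv hi hc hF t
    calc f t * h t = (1 / (2 * Real.pi : ℝ) * ∫ q, ft f q * ek (-q) t) * h t := by rw [← h2]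
      _ = _ := by
        rw [mul_assoc, ← integral_mul_const]
        congr 1
        refine integral_congr_ae (Eventually.of_forall fun q => ?_)
        simp only
        ring
  simp_rw [e1]
  rw [integral_const_mul, integral_integral_swap h1]
  congr 1
  refine integral_congr_ae (Eventually.of_forall fun q => ?_)
  simp only
  unfold ft
  rw [← integral_const_mul]
  refine integral_congr_ae (Eventually.of_forall fun t => ?_)
  simp only
  ring

/-- transform of the convolution with `V` -/
lemma ft_conv {b : ℝ → ℂ} (hb : Integrable b) (q : ℝ) :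
    ft (fun t => ∫ s, b s * (V (t - s) : ℂ)) q = ft b q * ft VC q := by
  have hi : Integrable (fun p : ℝ × ℝ => b p.2 * ek q p.2 * (VC (p.1 - p.2) * ek q (p.1 - p.2)))
      (volume.prod volume) :=
    (mul_ek_int hb q).convolution_integrand (ContinuousLinearMap.mul ℝ ℂ) (mul_ek_int VC_int q)
  unfold ft
  have e1 : ∀ t, (∫ s, b s * (V (t - s) : ℂ)) * ek q t =
      ∫ s, b s * ek q s * (VC (t - s) * ek q (t - s)) := by
    intro t
    rw [← integral_mul_const]
    refine integral_congr_ae (Eventually.of_forall fun s => ?_)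
    simp only
    rw [show ek q t = ek q s * ek q (t - s) by rw [← ek_add]; congr 1; ring]
    unfold VC
    ring
  simp_rw [e1]
  rw [integral_integral_swap hi, ← integral_mul_const]
  refine integral_congr_ae (Eventually.of_forall fun s => ?_)
  simp only
  rw [integral_const_mul]
  congr 1
  exact integral_sub_right_eq_self (fun w => VC w * ek q w) s

lemma ft_const_mul (c : ℂ) (g : ℝ → ℂ) (q : ℝ) : ft (fun t => c * g t) q = c * ft g q := by
  unfold ft
  rw [← integral_const_mul]
  refine integral_congr_ae (Eventually.of_forall fun t => ?_)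
  simp only
  ring

/-- the transform of a test function is integrable -/
lemma ft_TC_int {y₁ y₂ a M θ : ℝ} {g : ℂ → ℂ} (hg : PBE.TC y₁ y₂ a M g) (ha : 0 < a) (hθ : 0 < θ)
    (h1 : y₁ < -θ) (h2 : θ < y₂) : Integrable (ft (rl g)) :=
  ((PBE.int_exp_abs hθ).1.const_mul (M * (2 / a))).mono'
    (ft_cont (TC_int hg ha (by linarith) (by linarith))).aestronglyMeasurable
    (Eventually.of_forall fun q => ft_TC_le hg ha hθ h1 h2 q)

/-- **the form from a solution of `V * b = c g`** -/
theorem form_of_conv {y₁ y₂ a M θ : ℝ} {h : ℂ → ℂ} {b g : ℝ → ℂ} {c : ℂ} (hh : PBE.TC y₁ y₂ a M h)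
    (ha : 0 < a) (hθ : 0 < θ) (h1 : y₁ < -θ) (h2 : θ < y₂) (hb : Integrable b)
    (he : ∀ t, ∫ s, b s * (V (t - s) : ℂ) = c * g t) :
    ∫ t, rl h t * b t = c * FU Up (rl h) g := by
  rw [parseval (TC_int hh ha (by linarith) (by linarith)) (TC_cont hh (by linarith) (by linarith))
    (ft_TC_int hh ha hθ h1 h2) hb]
  unfold FU
  have e0 : ∫ q, ft (rl h) q * ft b (-q) = c * ∫ q, ft (rl h) q * ft g (-q) / (Up q : ℂ) := by
    rw [← integral_const_mul]
    refine integral_congr_ae ?_
    filter_upwards [ae_ne_zero] with q hq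
    have hq' : -q ≠ 0 := neg_ne_zero.2 hq
    have e1 := ft_conv hb (-q)
    have e2 : ft (fun t => ∫ s, b s * (V (t - s) : ℂ)) (-q) = c * ft g (-q) := by
      rw [← ft_const_mul]
      have : (fun t => ∫ s, b s * (V (t - s) : ℂ)) = fun t => c * g t := funext he
      rw [this]
    rw [e2, ft_V hq', Up_even] at e1
    have hU : (Up q : ℂ) ≠ 0 := Complex.ofReal_ne_zero.2 (Up_ne hq)
    have e3 : ft b (-q) = c * ft g (-q) / (Up q : ℂ) := by
      rw [e1]
      field_simp
    rw [e3]
    ring
  rw [e0]
  ring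

end

end Pool.Agent.PB
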