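import Pool.Agent.PB.TraceR
import Pool.Agent.PB.EAbs
import Pool.Agent.NUP.MF.Shift

/-!
# Plan B: transforms of test functions, the covariance forms on test functions

`PBE.TC y₁ y₂ a M g` (test functions, `PB/EAbs`), `rl g` = restriction to the real line.

* **`ft_TC_le`**: `‖ft (rl g) q‖ ≤ M (2 / a) e^{-θ |q|}` for `θ < min (-y₁) y₂`;
* `SymU U c`: even measurable symbol with `‖1 / U q‖ ≤ c (1 + |q|)`; `symU_Up`, `symU_Um`;
* `FU U g h = (1/2π) ∫ ft g q ft h (-q) / U q dq`; `FU_int`, `FU_lin`, `FU_symm`, `FU_bd`;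
* `FU_joint`: joint integrability over a product representation `PBE.Rep`;
* `rep_H1`, `wt_prod`: the product representation against bounded weights.
-/

set_option autoImplicit false

open MeasureTheory Set Filter Topology

namespace Pool.Agent.PB

open NUMF

noncomputable section

set_option linter.unusedSectionVars false

/-- restriction to the real line -/
def rl (g : ℂ → ℂ) : ℝ → ℂ := fun t => g (t : ℂ)

section ftc

variable {y₁ y₂ a M M' : ℝ} {g h k : ℂ → ℂ}

lemma TC_refl (hg : PBE.TC y₁ y₂ a M g) : PBE.TC (-y₂) (-y₁) a M (fun z => g (-z)) where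
  an := by
    refine hg.an.comp differentiable_neg.differentiableOn fun z hz => ?_
    have h1 : -y₂ < z.im ∧ z.im < -y₁ := hz
    exact ⟨by rw [Complex.neg_im]; linarith [h1.2], by rw [Complex.neg_im]; linarith [h1.1]⟩
  bd z hz := by
    have h1 : -y₂ < z.im ∧ z.im < -y₁ := hz
    have := hg.bd (-z) ⟨by rw [Complex.neg_im]; linarith [h1.2], by rw [Complex.neg_im]; linarith [h1.1]⟩
    rwa [Complex.neg_re, abs_neg] at this

lemma ft_TC_neg (hg : PBE.TC y₁ y₂ a M g) (ha : 0 < a) {θ : ℝ} (hθ : 0 ≤ θ) (h1 : y₁ < 0)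
    (h2 : θ < y₂) {q : ℝ} (hq : q ≤ 0) : ‖ft (rl g) q‖ ≤ M * (2 / a) * Real.exp (θ * q) := by
  have hM := hg.nonneg h1 (hθ.trans_lt h2)
  set Φ : ℂ → ℂ := fun z => g z * Complex.exp (-(q * z) * Complex.I) with hΦ
  have hn : ∀ z : ℂ, ‖Complex.exp (-(q * z) * Complex.I)‖ = Real.exp (q * z.im) := by
    intro z
    rw [Complex.norm_exp]
    congr 1
    simp
  have hmem : ∀ z : ℂ, 0 ≤ z.im → z.im ≤ θ → z ∈ PBE.Sp y₁ y₂ := fun z a1 a2 =>
    ⟨by linarith, by linarith⟩
  have hop : IsOpen (PBE.Sp y₁ y₂) := (isOpen_lt continuous_const Complex.continuous_im).inter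
    (isOpen_lt Complex.continuous_im continuous_const)
  have hgd : ∀ z : ℂ, 0 ≤ z.im → z.im ≤ θ → DifferentiableAt ℂ g z := fun z a1 a2 =>
    hg.an.differentiableAt (hop.mem_nhds (hmem z a1 a2))
  have hed : Differentiable ℂ fun z : ℂ => Complex.exp (-(q * z) * Complex.I) := by fun_prop
  have hb : ∀ z : ℂ, 0 ≤ z.im → z.im ≤ θ → ‖Φ z‖ ≤ M * Real.exp (-a * |z.re|) * Real.exp (q * z.im) := by
    intro z a1 a2
    simp only [hΦ]
    rw [norm_mul, hn]
    refine mul_le_mul_of_nonneg_right ?_ (Real.exp_pos _).le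
    have := hg.bd z (hmem z a1 a2)
    rwa [neg_mul]
  have hs := hshift (Φ := Φ) (C := M) (κ := a) hθ ha
    (fun z hz => ((hgd z hz.1 hz.2).mul (hed z)).continuousAt.continuousWithinAt)
    (fun z a1 a2 => (hgd z a1.le a2.le).mul (hed z))
    (fun z a1 a2 _ => by
      refine (hb z a1 a2).trans ?_
      have h3 : Real.exp (q * z.im) ≤ 1 := Real.exp_le_one_iff.2 (mul_nonpos_of_nonpos_of_nonneg hq a1)
      have h4 : 0 ≤ M * Real.exp (-a * |z.re|) := by positivity
      nlinarith)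
  have e : ft (rl g) q = ∫ s : ℝ, Φ s := by
    unfold ft rl ek
    refine integral_congr_ae (Eventually.of_forall fun t => ?_)
    simp only [hΦ]
    push_cast
    rfl
  rw [e, hs.2.2]
  have hE := (PBE.int_exp_abs ha).1
  have hE2 : Integrable fun t : ℝ => M * Real.exp (θ * q) * Real.exp (-(a * |t|)) := hE.const_mul _
  refine (norm_integral_le_of_norm_le hE2 (Eventually.of_forall fun s => ?_)).trans (le_of_eq ?_)
  · have h5 := hb (s + θ * Complex.I) (by simpa using hθ) (by simp)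
    have h6 : (↑s + ↑θ * Complex.I : ℂ).re = s := by simp
    have h7 : (↑s + ↑θ * Complex.I : ℂ).im = θ := by simp
    rw [h6, h7] at h5
    refine h5.trans (le_of_eq ?_)
    rw [neg_mul, mul_comm q θ]
    ring
  · rw [integral_const_mul, (PBE.int_exp_abs ha).2]
    ring

lemma ft_refl (q : ℝ) : ft (rl (fun z => g (-z))) (-q) = ft (rl g) q := by
  unfold ft rl
  rw [← integral_neg_eq_self]
  refine integral_congr_ae (Eventually.of_forall fun t => ?_)
  simp only
  rw [ek_neg, neg_neg]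
  push_cast
  rw [neg_neg]

/-- **decay of the transform of a test function** -/
theorem ft_TC_le (hg : PBE.TC y₁ y₂ a M g) (ha : 0 < a) {θ : ℝ} (hθ : 0 < θ) (h1 : y₁ < -θ)
    (h2 : θ < y₂) (q : ℝ) : ‖ft (rl g) q‖ ≤ M * (2 / a) * Real.exp (-(θ * |q|)) := by
  rcases le_total q 0 with h | h
  · have := ft_TC_neg hg ha hθ.le (by linarith) h2 h
    rw [abs_of_nonpos h]
    rwa [mul_neg, neg_neg]
  · have := ft_TC_neg (TC_refl hg) ha hθ.le (by linarith) (by linarith) (q := -q) (by linarith)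
    rw [ft_refl] at this
    rw [abs_of_nonneg h]
    rwa [mul_neg] at this

lemma TC_int (hg : PBE.TC y₁ y₂ a M g) (ha : 0 < a) (h1 : y₁ < 0) (h2 : 0 < y₂) :
    Integrable (rl g) := (hg.real ha h1 h2).1

lemma TC_cont (hg : PBE.TC y₁ y₂ a M g) (h1 : y₁ < 0) (h2 : 0 < y₂) : Continuous (rl g) := by
  rw [continuous_iff_continuousAt]
  intro t
  have ho : IsOpen (PBE.Sp y₁ y₂) :=
    (isOpen_lt continuous_const Complex.continuous_im).inter
      (isOpen_lt Complex.continuous_im continuous_const)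
  have := (hg.an.differentiableAt (x := (t : ℂ))
    (ho.mem_nhds ⟨by simpa using h1, by simpa using h2⟩)).continuousAt
  exact this.comp Complex.continuous_ofReal.continuousAt

lemma TC_bd (hg : PBE.TC y₁ y₂ a M g) (h1 : y₁ < 0) (h2 : 0 < y₂) (t : ℝ) :
    ‖rl g t‖ ≤ M * Real.exp (-(a * |t|)) := by
  have := hg.bd (t : ℂ) ⟨by simpa using h1, by simpa using h2⟩
  simpa [rl] using this

end ftc

/-! ### symbols -/

/-- even symbol, bounded below -/
structure SymU (U : ℝ → ℝ) (c : ℝ) : Prop where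
  m : Measurable U
  ev : ∀ q, U (-q) = U q
  inv : ∀ q, ‖((U q : ℝ) : ℂ)⁻¹‖ ≤ c * (1 + |q|)

lemma Up_ge {q : ℝ} (hq : 0 < q) : 1 / (1 + q) ≤ Up q := by
  have hpi := Real.pi_pos
  have hpi3 := Real.pi_gt_three
  have e0 : Up q = kUp q / q := rfl
  rw [e0, kUp_eq hq, div_le_div_iff₀ (by positivity) hq, one_mul]
  set y := Real.pi * q / 8 with hy
  have hy0 : 0 < y := by positivity
  have hs : 0 < Real.sinh (4 * y) := Real.sinh_pos_iff.2 (by positivity)
  have hc := Real.cosh_pos (1 / 2 * y)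
  set x := Real.exp (-(3 * y)) with hx
  have hx0 : 0 < x := Real.exp_pos _
  have hx1 : x < 1 := by
    have := Real.exp_lt_exp.2 (show -(3 * y) < 0 by linarith)
    rwa [Real.exp_zero] at this
  have hx2 : x * (1 + 3 * y) ≤ 1 := by
    have h1 := Real.add_one_le_exp (3 * y)
    have h2 : x * Real.exp (3 * y) = 1 := by
      rw [hx, ← Real.exp_add]
      simp
    calc x * (1 + 3 * y) ≤ x * Real.exp (3 * y) := mul_le_mul_of_nonneg_left (by linarith) hx0.le
      _ = 1 := h2
  have h1 : Real.exp (3 / 2 * y) * (1 - x) / 2 = Real.sinh (3 / 2 * y) := by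
    rw [Real.sinh_eq, hx, mul_sub, mul_one, ← Real.exp_add]
    congr 3
    ring
  have h2 : Real.exp (3 / 2 * y) / 2 ≤ Real.cosh (3 / 2 * y) := by
    rw [Real.cosh_eq]
    have := Real.exp_pos (-(3 / 2 * y))
    linarith
  have h3 : Real.cosh (1 / 2 * y) ≤ Real.exp (1 / 2 * y) := cosh_le_exp (by
    rw [abs_of_pos (by positivity)])
  have h4 : Real.sinh (4 * y) ≤ Real.exp (4 * y) * (3 * (1 - x)) / 2 := by
    have k1 : 1 - x ^ 3 ≤ 3 * (1 - x) := by nlinarith [sq_nonneg (1 - x), mul_pos hx0 hx0]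
    have k2 : Real.exp (4 * y) * x ^ 3 ≤ Real.exp (-(4 * y)) := by
      rw [hx, ← Real.exp_nat_mul, ← Real.exp_add]
      refine Real.exp_le_exp.2 ?_
      push_cast
      linarith
    have k3 := Real.exp_pos (4 * y)
    have k4 : Real.exp (4 * y) * (1 - x ^ 3) ≤ Real.exp (4 * y) * (3 * (1 - x)) := by gcongr
    rw [Real.sinh_eq]
    nlinarith
  set E := Real.exp (3 / 2 * y) with hE
  have hE0 : 0 < E := Real.exp_pos _
  have h5 : Real.exp (4 * y) * Real.exp (1 / 2 * y) = E ^ 3 := by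
    rw [hE, ← Real.exp_nat_mul, ← Real.exp_add]
    congr 1
    push_cast
    ring
  have h6 : Real.sinh (4 * y) * Real.cosh (1 / 2 * y) ≤ E ^ 3 * (3 * (1 - x)) / 2 := by
    rw [← h5]
    have : 0 < 1 - x := by linarith
    calc Real.sinh (4 * y) * Real.cosh (1 / 2 * y) ≤
        (Real.exp (4 * y) * (3 * (1 - x)) / 2) * Real.exp (1 / 2 * y) := by gcongr
      _ = _ := by ring
  have h7 : E ^ 3 * (1 - x) ^ 2 / 8 ≤ Real.sinh (3 / 2 * y) ^ 2 * Real.cosh (3 / 2 * y) := by
    rw [← h1]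
    have : 0 < 1 - x := by linarith
    calc E ^ 3 * (1 - x) ^ 2 / 8 = (E * (1 - x) / 2) ^ 2 * (E / 2) := by ring
      _ ≤ _ := by gcongr
  have h8 : q * (Real.sinh (4 * y) * Real.cosh (1 / 2 * y)) ≤
      4 * Real.pi * (Real.sinh (3 / 2 * y) ^ 2 * Real.cosh (3 / 2 * y)) * (1 + q) := by
    have p1 : 0 < 1 - x := by linarith
    have a1 : 3 * y ≤ (1 + 3 * y) * (1 - x) := by nlinarith
    have a2 : q * 3 ≤ Real.pi * (1 - x) * (1 + q) := by
      have b1 : 1 + 3 * y ≤ (Real.pi ^ 2 / 8) * (1 + q) := by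
        rw [hy]
        nlinarith
      have b2 : 3 * y ≤ (Real.pi ^ 2 / 8) * (1 + q) * (1 - x) :=
        a1.trans (mul_le_mul_of_nonneg_right b1 p1.le)
      rw [hy] at b2
      have b3 : Real.pi * (q * 3) ≤ Real.pi * (Real.pi * (1 - x) * (1 + q)) := by nlinarith
      exact le_of_mul_le_mul_left b3 hpi
    calc q * (Real.sinh (4 * y) * Real.cosh (1 / 2 * y)) ≤ q * (E ^ 3 * (3 * (1 - x)) / 2) := by gcongr
      _ = (q * 3) * (E ^ 3 * (1 - x) / 2) := by ring
      _ ≤ (Real.pi * (1 - x) * (1 + q)) * (E ^ 3 * (1 - x) / 2) := by gcongr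
      _ = 4 * Real.pi * (E ^ 3 * (1 - x) ^ 2 / 8) * (1 + q) := by ring
      _ ≤ _ := by gcongr
  rw [mul_div_assoc', div_mul_eq_mul_div, le_div_iff₀ (by positivity)]
  exact h8

theorem symU_Up : SymU Up 1 where
  m := by
    unfold Up kUp
    fun_prop
  ev := Up_even
  inv q := by
    have key : ∀ q : ℝ, 0 < q → ‖((Up q : ℝ) : ℂ)⁻¹‖ ≤ 1 * (1 + |q|) := by
      intro q hq
      have h1 := Up_ge hq
      have h2 : 0 < Up q := lt_of_lt_of_le (by positivity) h1
      rw [norm_inv, Complex.norm_real, Real.norm_eq_abs, abs_of_pos hq, abs_of_pos h2, one_mul]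
      rw [inv_le_comm₀ h2 (by positivity), ← one_div]
      exact h1
    rcases lt_trichotomy q 0 with h | h | h
    · have := key (-q) (by linarith)
      rwa [Up_even, abs_neg] at this
    · subst h
      simp [Up, kUp]
    · exact key q h

theorem symU_Um : SymU Um 2 where
  m := Um_meas
  ev := Um_even
  inv q := by
    have key : ∀ q : ℝ, 0 < q → ‖((Um q : ℝ) : ℂ)⁻¹‖ ≤ 2 * (1 + |q|) := by
      intro q hq
      have h1 := q2Um_ge hq
      have h2 : 0 < Um q := Um_pos' hq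
      rw [norm_inv, Complex.norm_real, Real.norm_eq_abs, abs_of_pos hq, abs_of_pos h2]
      rw [inv_le_iff_one_le_mul₀ h2]
      have h3 : q ^ 2 * Um q ≤ (1 + q) ^ 2 * Um q := by
        refine mul_le_mul_of_nonneg_right ?_ h2.le
        nlinarith
      have h4 : (1 + q) * 1 ≤ (1 + q) * (2 * (1 + q) * Um q) := by nlinarith
      exact le_of_mul_le_mul_left h4 (by positivity)
    rcases lt_trichotomy q 0 with h | h | h
    · have := key (-q) (by linarith)
      rwa [Um_even, abs_neg] at this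
    · subst h
      simp [Um, kUm]
    · exact key q h

/-- the form with symbol `1 / U` -/
def FU (U : ℝ → ℝ) (g h : ℝ → ℂ) : ℂ := 1 / (2 * Real.pi : ℝ) * ∫ q, ft g q * ft h (-q) / (U q : ℂ)

lemma Cp_eq_FU (g h : ℝ → ℂ) : Cp g h = FU Up g h := rfl
lemma Cm_eq_FU (g h : ℝ → ℂ) : Cm g h = FU Um g h := rfl

section form

variable {U : ℝ → ℝ} {c y₁ y₂ a M M' M'' θ : ℝ} {g h k : ℂ → ℂ}

lemma one_add_le (hθ : 0 < θ) (q : ℝ) : 1 + |q| ≤ (1 + 1 / θ) * Real.exp (θ * |q|) := by
  have h1 := Real.add_one_le_exp (θ * |q|)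
  have h2 : |q| ≤ 1 / θ * Real.exp (θ * |q|) := by
    rw [one_div, inv_mul_eq_div, le_div_iff₀ hθ]
    linarith
  have h3 : 1 ≤ Real.exp (θ * |q|) := Real.one_le_exp (by positivity)
  linarith

lemma SymU.c_nonneg (hU : SymU U c) : 0 ≤ c := by
  have := (norm_nonneg _).trans (hU.inv 0)
  simpa using this

lemma FU_pt (hU : SymU U c) (hg : PBE.TC y₁ y₂ a M g) (hh : PBE.TC y₁ y₂ a M' h) (ha : 0 < a)
    (hθ : 0 < θ) (h1 : y₁ < -θ) (h2 : θ < y₂) (q : ℝ) :
    ‖ft (rl g) q * ft (rl h) (-q) / (U q : ℂ)‖ ≤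
      (M * M') * ((2 / a) ^ 2 * c * (1 + 1 / θ) * Real.exp (-(θ * |q|))) := by
  have hM := hg.nonneg (by linarith) (by linarith)
  have hM' := hh.nonneg (by linarith) (by linarith)
  have hc := hU.c_nonneg
  have b1 := ft_TC_le hg ha hθ h1 h2 q
  have b2 := ft_TC_le hh ha hθ h1 h2 (-q)
  rw [abs_neg] at b2
  have b3 := hU.inv q
  have b4 := one_add_le hθ q
  rw [div_eq_mul_inv, norm_mul, norm_mul]
  have he : Real.exp (-(θ * |q|)) * Real.exp (θ * |q|) = 1 := by
    rw [← Real.exp_add]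
    simp
  set E := Real.exp (-(θ * |q|)) with hE
  have hE0 : 0 < E := Real.exp_pos _
  calc ‖ft (rl g) q‖ * ‖ft (rl h) (-q)‖ * ‖((U q : ℝ) : ℂ)⁻¹‖ ≤
      (M * (2 / a) * E) * (M' * (2 / a) * E) * (c * ((1 + 1 / θ) * Real.exp (θ * |q|))) := by
        have : c * (1 + |q|) ≤ c * ((1 + 1 / θ) * Real.exp (θ * |q|)) := by gcongr
        have := b3.trans this
        gcongr
    _ = (M * M') * ((2 / a) ^ 2 * c * (1 + 1 / θ) * E * (E * Real.exp (θ * |q|))) := by ring
    _ = _ := by rw [he, mul_one]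

lemma FU_int (hU : SymU U c) (hg : PBE.TC y₁ y₂ a M g) (hh : PBE.TC y₁ y₂ a M' h) (ha : 0 < a)
    (hθ : 0 < θ) (h1 : y₁ < -θ) (h2 : θ < y₂) :
    Integrable fun q => ft (rl g) q * ft (rl h) (-q) / (U q : ℂ) := by
  have hm := hU.m
  have i1 := (PBE.int_exp_abs hθ).1
  have i2 := (i1.const_mul ((2 / a) ^ 2 * c * (1 + 1 / θ))).const_mul (M * M')
  refine i2.mono' ?_ (Eventually.of_forall fun q => ?_)
  · refine AEStronglyMeasurable.div₀ ?_ ?_
    · exact ((ft_cont (TC_int hg ha (by linarith) (by linarith))).mul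
        ((ft_cont (TC_int hh ha (by linarith) (by linarith))).comp continuous_neg)).aestronglyMeasurable
    · exact (Measurable.aestronglyMeasurable (by fun_prop))
  · exact FU_pt hU hg hh ha hθ h1 h2 q

lemma ft_comb (hg : Integrable (rl g)) (hh : Integrable (rl h)) (c : ℂ) (q : ℝ) :
    ft (rl (fun z => c * g z + h z)) q = c * ft (rl g) q + ft (rl h) q := by
  unfold ft
  rw [← integral_const_mul, ← integral_add ((mul_ek_int hg q).const_mul c) (mul_ek_int hh q)]
  refine integral_congr_ae (Eventually.of_forall fun t => ?_)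
  simp only [rl]
  ring

lemma FU_symm (hU : SymU U c) (g h : ℝ → ℂ) : FU U g h = FU U h g := by
  unfold FU
  congr 1
  rw [← integral_neg_eq_self]
  refine integral_congr_ae (Eventually.of_forall fun q => ?_)
  simp only
  rw [hU.ev, neg_neg, mul_comm]

/-- **the form is bilinear and symmetric on test functions** -/
theorem FU_lin2 (hU : SymU U c) (ha : 0 < a) (hθ : 0 < θ) (h1 : y₁ < -θ) (h2 : θ < y₂) (d : ℂ) :
    PBE.Lin2 y₁ y₂ a (fun g h => d * FU U (rl g) (rl h)) where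
  lin M M' M'' g h k c hg hh hk := by
    have i1 := FU_int hU hg hk ha hθ h1 h2
    have i2 := FU_int hU hh hk ha hθ h1 h2
    have e : FU U (rl (fun z => c * g z + h z)) (rl k) = c * FU U (rl g) (rl k) + FU U (rl h) (rl k) := by
      unfold FU
      have e2 : ∀ q, ft (rl (fun z => c * g z + h z)) q * ft (rl k) (-q) / (U q : ℂ) =
          c * (ft (rl g) q * ft (rl k) (-q) / (U q : ℂ)) + ft (rl h) q * ft (rl k) (-q) / (U q : ℂ) := by
        intro q
        rw [ft_comb (TC_int hg ha (by linarith) (by linarith)) (TC_int hh ha (by linarith) (by linarith))]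
        ring
      simp_rw [e2]
      rw [integral_add (i1.const_mul c) i2, integral_const_mul]
      ring
    simp only [e]
    ring
  symm M M' g h _ _ := by
    rw [FU_symm hU]

end form

/-! ### product representations -/

section rep

variable {T : Type*} [MeasurableSpace T] {σm : Measure T} [SFinite σm] {A B : T → ℂ → ℂ}
  {al be : T → ℝ} {y₁ y₂ a c θ : ℝ} {U : ℝ → ℝ}

/-- joint measurability on the real line -/
def MeasR (A : T → ℂ → ℂ) : Prop := StronglyMeasurable fun p : T × ℝ => A p.1 (p.2 : ℂ)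

lemma ft_meas (mA : MeasR A) : StronglyMeasurable fun p : T × ℝ => ft (rl (A p.1)) p.2 := by
  unfold ft rl
  have h1 : StronglyMeasurable fun p : (T × ℝ) × ℝ => A p.1.1 (p.2 : ℂ) * ek p.1.2 p.2 := by
    have m1 : StronglyMeasurable fun p : (T × ℝ) × ℝ => A p.1.1 (p.2 : ℂ) :=
      StronglyMeasurable.comp_measurable (g := fun p : (T × ℝ) × ℝ => (p.1.1, p.2)) mA (by fun_prop)
    have m2 : StronglyMeasurable fun p : (T × ℝ) × ℝ => ek p.1.2 p.2 :=
      ek_cont.stronglyMeasurable.comp_measurable (by fun_prop : Measurable fun p : (T × ℝ) × ℝ => (p.1.2, p.2))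
    exact m1.mul m2
  exact h1.integral_prod_right

theorem FU_joint (hU : SymU U c) (hR : PBE.Rep y₁ y₂ a σm A B al be) (mA : MeasR A) (mB : MeasR B)
    (ha : 0 < a) (hθ : 0 < θ) (h1 : y₁ < -θ) (h2 : θ < y₂) :
    Integrable (fun p : T × ℝ => ft (rl (A p.1)) p.2 * ft (rl (B p.1)) (-p.2) / (U p.2 : ℂ))
      (σm.prod volume) := by
  have hm := hU.m
  have i1 := (PBE.int_exp_abs hθ).1
  have i2 := hR.int.mul_prod (i1.const_mul ((2 / a) ^ 2 * c * (1 + 1 / θ)))
  refine i2.mono' ?_ (Eventually.of_forall fun p => ?_)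
  · refine AEStronglyMeasurable.div₀ ?_ ?_
    · have m1 := ft_meas mB
      have m2 : StronglyMeasurable fun p : T × ℝ => ft (rl (B p.1)) (-p.2) :=
        m1.comp_measurable (by fun_prop : Measurable fun p : T × ℝ => (p.1, -p.2))
      exact ((ft_meas mA).mul m2).aestronglyMeasurable
    · exact (Measurable.aestronglyMeasurable (by fun_prop))
  · exact FU_pt hU (hR.tA p.1) (hR.tB p.1) ha hθ h1 h2 p.2

theorem rep_H1 (hR : PBE.Rep y₁ y₂ a σm A B al be) (mA : MeasR A) (mB : MeasR B)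
    (ha : 0 < a) (h1 : y₁ < 0) (h2 : 0 < y₂) :
    Integrable (fun p : T × (ℝ × ℝ) => rl (A p.1) p.2.1 * rl (B p.1) p.2.2)
      (σm.prod (volume.prod volume)) := by
  have i1 := (PBE.int_exp_abs ha).1
  have i2 := hR.int.mul_prod (i1.mul_prod i1)
  refine i2.mono' ?_ (Eventually.of_forall fun p => ?_)
  · have m1 : StronglyMeasurable fun p : T × (ℝ × ℝ) => A p.1 (p.2.1 : ℂ) :=
      StronglyMeasurable.comp_measurable (g := fun p : T × (ℝ × ℝ) => (p.1, p.2.1)) mA (by fun_prop)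
    have m2 : StronglyMeasurable fun p : T × (ℝ × ℝ) => B p.1 (p.2.2 : ℂ) :=
      StronglyMeasurable.comp_measurable (g := fun p : T × (ℝ × ℝ) => (p.1, p.2.2)) mB (by fun_prop)
    exact (m1.mul m2).aestronglyMeasurable
  · have b1 := TC_bd (hR.tA p.1) h1 h2 p.2.1
    have b2 := TC_bd (hR.tB p.1) h1 h2 p.2.2
    rw [norm_mul]
    calc ‖rl (A p.1) p.2.1‖ * ‖rl (B p.1) p.2.2‖ ≤
        (al p.1 * Real.exp (-(a * |p.2.1|))) * (be p.1 * Real.exp (-(a * |p.2.2|))) :=
          mul_le_mul b1 b2 (norm_nonneg _) ((norm_nonneg _).trans b1)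
      _ = _ := by ring

/-- **the product representation against bounded weights** -/
theorem wt_prod {Af Bf : T → ℝ → ℂ}
    (H1 : Integrable (fun p : T × (ℝ × ℝ) => Af p.1 p.2.1 * Bf p.1 p.2.2)
      (σm.prod (volume.prod volume))) {E : ℝ → ℝ → ℂ}
    (hrep : ∀ᵐ p : ℝ × ℝ ∂(volume.prod volume), ∫ s, Af s p.1 * Bf s p.2 ∂σm = E p.1 p.2)
    {m n : ℝ → ℂ} {C : ℝ} (hm : Continuous m) (hn : Continuous n) (bm : ∀ t, ‖m t‖ ≤ C)
    (bn : ∀ t, ‖n t‖ ≤ C) :
    Integrable (fun s => (∫ t, Af s t * m t) * ∫ t, Bf s t * n t) σm ∧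
    ∫ s, (∫ t, Af s t * m t) * (∫ t, Bf s t * n t) ∂σm = ∫ t, m t * ∫ s, E t s * n s := by
  have hc : Continuous fun p : ℝ × ℝ => m p.1 * n p.2 := by fun_prop
  have H2 : Integrable (fun p : T × (ℝ × ℝ) => Af p.1 p.2.1 * Bf p.1 p.2.2 * (m p.2.1 * n p.2.2))
      (σm.prod (volume.prod volume)) := by
    refine H1.mul_bdd (c := C * C) (hc.aestronglyMeasurable.comp_snd)
      (Eventually.of_forall fun p => ?_)
    rw [norm_mul]
    exact mul_le_mul (bm _) (bn _) (norm_nonneg _) ((norm_nonneg _).trans (bm 0))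
  have e1 : ∀ s, (∫ t, Af s t * m t) * (∫ t, Bf s t * n t) =
      ∫ p : ℝ × ℝ, Af s p.1 * Bf s p.2 * (m p.1 * n p.2) ∂(volume.prod volume) := by
    intro s
    rw [← integral_prod_mul]
    refine integral_congr_ae (Eventually.of_forall fun p => ?_)
    simp only
    ring
  have hL := H2.integral_prod_left
  refine ⟨hL.congr (Eventually.of_forall fun s => (e1 s).symm), ?_⟩
  simp_rw [e1]
  rw [integral_integral_swap H2]
  have e2 : ∫ p : ℝ × ℝ, (∫ s, Af s p.1 * Bf s p.2 * (m p.1 * n p.2) ∂σm) ∂(volume.prod volume) =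
      ∫ p : ℝ × ℝ, E p.1 p.2 * (m p.1 * n p.2) ∂(volume.prod volume) := by
    refine integral_congr_ae ?_
    filter_upwards [hrep] with p hp
    rw [integral_mul_const, hp]
  rw [e2, integral_prod]
  · refine integral_congr_ae (Eventually.of_forall fun t => ?_)
    simp only
    rw [← integral_const_mul]
    refine integral_congr_ae (Eventually.of_forall fun s => ?_)
    simp only
    ring
  have h3 := H2.integral_prod_right
  refine h3.congr ?_
  filter_upwards [hrep] with p hp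
  rw [integral_mul_const, hp]

end rep

end

end Pool.Agent.PB
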