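import Pool.Agent.PB.FDGlue

/-!
# Plan B, function side at rows 0: the hypotheses and the K-terms (helper12)

`f j` = the normalised function with `j` rows at `0`, `Psi j z x` = the same with one more row at `x`
(in both groups); `aL = 3 l = 3π/8`, `σL = (3/5) l`, `3/20 log j = (2σL/π) log j`.

* `FunH C f Psi`: zeros at the rows and crude bound (`FD`), (A1), (U1);
* `bK j k`, `aK j x k`: the coefficients; **`FunH.kf`**, **`FunH.kp`**: the K-terms on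
  `|Re z| ≤ 3l + ρ`, `|Im z| ≤ 2`, errors `j^{-e}` (any `e`), for every `K ≥ K₀(C, e)`;
  `FunH.cf`, `FunH.cp`: the coefficients are `≤ j^ε`.
-/

set_option autoImplicit false

noncomputable section

open Complex MeasureTheory Set Filter Topology
open Pool.Agent.PB.Rec (EL EL_coef EL_add ReR seg)

namespace PBV

/-- `3 l` -/
def aL : ℝ := 3 * Real.pi / 8

/-- `(3/5) l` -/
def σL : ℝ := 3 * Real.pi / 40

theorem aL_pos : 0 < aL := by unfold aL; positivity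

theorem σL_pos : 0 < σL := by unfold σL; positivity

theorem σL_lt : σL < aL := by
  unfold σL aL
  have := Real.pi_pos
  linarith

theorem pi_div_aL : Real.pi / aL = 8 / 3 := by
  unfold aL
  have := Real.pi_ne_zero
  field_simp

theorem two_σL : 2 * σL / Real.pi = 3 / 20 := by
  unfold σL
  have := Real.pi_ne_zero
  field_simp
  norm_num

/-- the hypotheses of the function side, rows 0 -/
structure FunH (C : ℝ) (f : ℕ → ℂ → ℂ) (Psi : ℕ → ℂ → ℂ → ℂ) : Prop where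
  ff : ∀ᶠ j : ℕ in atTop, FD aL σL 1 0 C j (f j)
  fp : ∀ᶠ j : ℕ in atTop, ∀ x ∈ seg 0, FD aL σL 1 0 C j (fun z => Psi j z x)
  p0 : ∀ᶠ j : ℕ in atTop, ∀ z, Psi j z 0 = f (j + 1) z
  a1 : ∀ᶠ j : ℕ in atTop, ∀ x ∈ seg 0, Psi j (x + aL) x = f j x
  uf : ∀ ε : ℝ, 0 < ε → ∀ᶠ j : ℕ in atTop, ∀ z : ℂ, z.re = 0 →
    |z.im| ≤ 9 / 80 * Real.log j + 1 → ‖f j z‖ ≤ (j : ℝ) ^ ε * Real.exp (2 * |z.im|)
  up : ∀ ε : ℝ, 0 < ε → ∀ᶠ j : ℕ in atTop, ∀ x ∈ seg 0, ∀ t ∈ Icc (0 : ℝ) 1,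
    ‖Psi j (I * t) x‖ ≤ (j : ℝ) ^ ε

/-- the coefficients of `f j` -/
def bK (f : ℕ → ℂ → ℂ) (j : ℕ) (k : ℤ) : ℂ := kc aL σL (1 / 5) j (f j) k

/-- the coefficients of `Psi j (., x)` -/
def aK (Psi : ℕ → ℂ → ℂ → ℂ) (j : ℕ) (x : ℂ) (k : ℤ) : ℂ := kc aL σL (1 / 5) j (fun z => Psi j z x) k

variable {C : ℝ} {f : ℕ → ℂ → ℂ} {Psi : ℕ → ℂ → ℂ → ℂ}

/-- K-terms of functions with `FD`, rows 0 -/
theorem kL (C e : ℝ) {ρ : ℝ} (hρ : 0 ≤ ρ) (hρσ : ρ < σL) :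
    ∃ K0 : ℕ, ∀ K ≥ K0, ∃ V : ℝ, 0 < V ∧ ∀ᶠ j : ℕ in atTop, ∀ f : ℂ → ℂ, FD aL σL 1 0 C j f →
      (∀ z : ℂ, |z.re| ≤ aL + ρ → |z.im| ≤ 3 / 25 * Real.log j + 1 →
        ‖f z - EL (8 / 3) K (kc aL σL (1 / 5) j f) z‖ ≤ (j : ℝ) ^ (-e)) ∧
      ∀ S : ℝ, (∀ t ∈ Icc (0 : ℝ) 1, ‖f (I * t)‖ ≤ S) →
        ∀ k ∈ Finset.Icc (-(K : ℤ)) K, ‖kc aL σL (1 / 5) j f k‖ ≤ V * (S + (j : ℝ) ^ (-e)) := by
  obtain ⟨K0, hK0⟩ := kterm (a := aL) (σ := σL) (ρ := ρ) (y₀ := 1) (b₀ := 0) (ε := 1 / 5) C e hρ hρσ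
    σL_lt le_rfl σL_pos zero_le_one (by norm_num) (by norm_num)
  refine ⟨K0, fun K hK => ?_⟩
  obtain ⟨N0, hN0⟩ := hK0 K hK
  obtain ⟨V, hV0, hV⟩ := cf_le1 aL_pos K
  rw [pi_div_aL] at hV
  refine ⟨V, hV0, ?_⟩
  filter_upwards [eventually_ge_atTop N0, eventually_ge_atTop 1] with j hj hj1 f hf
  have hL : 0 ≤ Real.log j := Real.log_nonneg (by exact_mod_cast hj1)
  have h1 : ∀ z : ℂ, |z.re| ≤ aL + ρ → |z.im| ≤ 3 / 25 * Real.log j + 1 →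
      ‖f z - EL (8 / 3) K (kc aL σL (1 / 5) j f) z‖ ≤ (j : ℝ) ^ (-e) := by
    intro z hz hzi
    have := hN0 j hj f hf z hz (by rw [two_σL]; linarith)
    rwa [pi_div_aL] at this
  refine ⟨h1, fun S hS k hk => hV f _ S _ hS (fun t ht => h1 _ ?_ ?_) k hk⟩
  · have := aL_pos
    simpa using (show 0 ≤ aL + ρ by linarith)
  · simp only [mul_im, I_re, ofReal_im, mul_zero, I_im, ofReal_re, one_mul, zero_add]
    rw [abs_of_nonneg ht.1]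
    linarith [ht.2]

theorem log_ev (M : ℝ) : ∀ᶠ j : ℕ in atTop, M ≤ Real.log j :=
  (Real.tendsto_log_atTop.comp tendsto_natCast_atTop_atTop).eventually_ge_atTop M

/-- **K-terms of `f`** -/
theorem FunH.kf (h : FunH C f Psi) (e : ℝ) {ρ : ℝ} (hρ : 0 ≤ ρ) (hρσ : ρ < σL) :
    ∃ K0 : ℕ, ∀ K ≥ K0, ∀ᶠ j : ℕ in atTop, ∀ z : ℂ, |z.re| ≤ aL + ρ → |z.im| ≤ 2 →
      ‖f j z - EL (8 / 3) K (bK f j) z‖ ≤ (j : ℝ) ^ (-e) := by
  obtain ⟨K0, hK0⟩ := kL C e hρ hρσ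
  refine ⟨K0, fun K hK => ?_⟩
  obtain ⟨V, -, hV⟩ := hK0 K hK
  filter_upwards [hV, h.ff, log_ev (25 / 3)] with j h1 h2 h3 z hz hzi
  exact (h1 _ h2).1 z hz (by linarith)

/-- **K-terms of `Psi (., x)`** -/
theorem FunH.kp (h : FunH C f Psi) (e : ℝ) {ρ : ℝ} (hρ : 0 ≤ ρ) (hρσ : ρ < σL) :
    ∃ K0 : ℕ, ∀ K ≥ K0, ∀ᶠ j : ℕ in atTop, ∀ x ∈ seg 0, ∀ z : ℂ, |z.re| ≤ aL + ρ → |z.im| ≤ 2 →
      ‖Psi j z x - EL (8 / 3) K (aK Psi j x) z‖ ≤ (j : ℝ) ^ (-e) := by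
  obtain ⟨K0, hK0⟩ := kL C e hρ hρσ
  refine ⟨K0, fun K hK => ?_⟩
  obtain ⟨V, -, hV⟩ := hK0 K hK
  filter_upwards [hV, h.fp, log_ev (25 / 3)] with j h1 h2 h3 x hx z hz hzi
  exact (h1 _ (h2 x hx)).1 z hz (by linarith)

/-- small coefficients: one bound for `f` and `Psi` -/
theorem FunH.coef (h : FunH C f Psi) : ∃ K0 : ℕ, ∀ K ≥ K0, ∀ ε : ℝ, 0 < ε →
    ∀ᶠ j : ℕ in atTop, (∀ k ∈ Finset.Icc (-(K : ℤ)) K, ‖bK f j k‖ ≤ (j : ℝ) ^ ε) ∧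
      ∀ x ∈ seg 0, ∀ k ∈ Finset.Icc (-(K : ℤ)) K, ‖aK Psi j x k‖ ≤ (j : ℝ) ^ ε := by
  obtain ⟨K0, hK0⟩ := kL C 1 (ρ := 0) le_rfl σL_pos
  refine ⟨K0, fun K hK ε hε => ?_⟩
  obtain ⟨V, hV0, hV⟩ := hK0 K hK
  have hB1 : 1 ≤ V * (Real.exp 2 + 1) + 1 := by
    have : 0 ≤ V * (Real.exp 2 + 1) := by positivity
    linarith
  filter_upwards [hV, h.ff, h.fp, h.uf (ε / 2) (by positivity), h.up (ε / 2) (by positivity),
    log_ev (Real.log (V * (Real.exp 2 + 1) + 1) / (ε / 2)), eventually_ge_atTop 2]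
    with j h1 h2 h3 h4 h5 h6 h7
  have hj0 : (0 : ℝ) < j := by
    have : 0 < j := by omega
    exact_mod_cast this
  have hj1 : (1 : ℝ) ≤ j := by
    have : 1 ≤ j := by omega
    exact_mod_cast this
  have hL0 : 0 ≤ Real.log j := Real.log_nonneg hj1
  have hP : 1 ≤ (j : ℝ) ^ (ε / 2) := Real.one_le_rpow hj1 (by positivity)
  have hjm : (j : ℝ) ^ (-(1 : ℝ)) ≤ 1 := Real.rpow_le_one_of_one_le_of_nonpos hj1 (by norm_num)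
  have hB : V * (Real.exp 2 + 1) ≤ (j : ℝ) ^ (ε / 2) := by
    rw [Real.rpow_def_of_pos hj0]
    rw [div_le_iff₀ (by positivity)] at h6
    calc V * (Real.exp 2 + 1) ≤ V * (Real.exp 2 + 1) + 1 := by linarith
      _ = Real.exp (Real.log (V * (Real.exp 2 + 1) + 1)) := (Real.exp_log (by linarith)).symm
      _ ≤ _ := Real.exp_le_exp.2 h6
  have fin : ∀ S : ℝ, S ≤ (j : ℝ) ^ (ε / 2) * Real.exp 2 → V * (S + (j : ℝ) ^ (-(1 : ℝ))) ≤ (j : ℝ) ^ ε := by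
    intro S hS
    have e1 : S + (j : ℝ) ^ (-(1 : ℝ)) ≤ (j : ℝ) ^ (ε / 2) * (Real.exp 2 + 1) := by linarith
    calc V * (S + (j : ℝ) ^ (-(1 : ℝ))) ≤ V * ((j : ℝ) ^ (ε / 2) * (Real.exp 2 + 1)) := by gcongr
      _ = (V * (Real.exp 2 + 1)) * (j : ℝ) ^ (ε / 2) := by ring
      _ ≤ (j : ℝ) ^ (ε / 2) * (j : ℝ) ^ (ε / 2) := by gcongr
      _ = (j : ℝ) ^ ε := by rw [← Real.rpow_add hj0, add_halves]
  constructor
  · intro k hk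
    refine ((h1 _ h2).2 ((j : ℝ) ^ (ε / 2) * Real.exp 2) ?_ k hk).trans (fin _ le_rfl)
    intro t ht
    refine (h4 _ (by simp) ?_).trans ?_
    · simp only [mul_im, I_re, ofReal_im, mul_zero, I_im, ofReal_re, one_mul, zero_add]
      rw [abs_of_nonneg ht.1]
      linarith [ht.2]
    · simp only [mul_im, I_re, ofReal_im, mul_zero, I_im, ofReal_re, one_mul, zero_add]
      rw [abs_of_nonneg ht.1]
      have : 2 * t ≤ 2 := by linarith [ht.2]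
      gcongr
  · intro x hx k hk
    refine ((h1 _ (h3 x hx)).2 ((j : ℝ) ^ (ε / 2)) (h5 x hx) k hk).trans (fin _ ?_)
    have : 1 ≤ Real.exp 2 := Real.one_le_exp (by norm_num)
    nlinarith

end PBV
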