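import Pool.Agent.PB.FunO
import Pool.Agent.PB.Rec2F

/-!
# Plan B: the function side at rows 0, closed (helper12)

Inputs: `FunH C f Psi` (zeros at the rows, crude bound, (A1), (U1)) and (E'), `EPr c Psi`:
`d/ds Psi j (i t) (i s) = (1/j) ((1/8)(y⁻¹ - y) d_z² - (i/2)(y⁻¹ + y) d_z) Psi j (., i s) (i t) + O(j^{-(1+c)})`,
`y = e^{i(8/3)(i s)} = e^{-(8/3)s}`, `s, t ∈ [0,1]`, `c < 2/3`.

Output **`funS`**: `FunO c f (bK f . 0)`; `bK f j 0` = the zero coefficient (explicit).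
-/

set_option autoImplicit false

noncomputable section

open Complex MeasureTheory Set Filter Topology
open Pool.Agent.PB.Rec (EL EL_coef EL_add ReR seg Bx Op rec_chain2)

namespace PBV

/-- (E') at rows 0 -/
def EPr (c : ℝ) (Psi : ℕ → ℂ → ℂ → ℂ) : Prop :=
  ∃ C' : ℝ, ∀ᶠ j : ℕ in atTop, ∀ s ∈ Icc (0 : ℝ) 1, ∀ t ∈ Icc (0 : ℝ) 1, ∃ D : ℂ,
    HasDerivAt (fun s : ℝ => Psi j (I * t) (I * s)) D s ∧
    ‖D - (1 / j : ℝ) * Op (1 / 8) (-(I / 2)) (fun z => Psi j z (I * s))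
      (exp (I * (8 / 3 : ℝ) * (I * s))) (I * t)‖ ≤ C' * (j : ℝ) ^ (-(1 + c))

theorem mem_seg0 {x : ℂ} (hx : x ∈ seg 0) : x.re = 0 ∧ 0 ≤ x.im ∧ x.im ≤ 1 := by
  obtain ⟨t, ht, rfl⟩ := hx
  simp [ht.1, ht.2]

/-- **the function side, rows 0** -/
theorem funS {C c : ℝ} {f : ℕ → ℂ → ℂ} {Psi : ℕ → ℂ → ℂ → ℂ} (h : FunH C f Psi) (hc : 0 ≤ c)
    (hc1 : c < 2 / 3) (hE : EPr c Psi) : FunO c f (fun j => bK f j 0) := by
  have hpi := Real.pi_pos
  obtain ⟨C1, hE⟩ := hE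
  apply h.out hc
  set ρ : ℝ := σL / 2 with hρ
  have hρ0 : 0 < ρ := by
    have := σL_pos
    positivity
  have hρ1 : ρ < σL := by
    have := σL_pos
    linarith
  obtain ⟨K1, hK1⟩ := h.kf (1 + c) hρ0.le hρ1
  obtain ⟨K2, hK2⟩ := h.kp (1 + c) hρ0.le hρ1
  refine ⟨max K1 K2, fun K hK => ?_⟩
  have hk1 := hK1 K (le_of_max_le_left hK)
  have hk2 := hK2 K (le_of_max_le_right hK)
  set C2 : ℝ := max C1 1 with hC2
  have hC21 : 1 ≤ C2 := le_max_right _ _
  have hC2' : C1 ≤ C2 := le_max_left _ _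
  have key := rec_chain2 (w := 8 / 3) (L := aL) (R := aL + ρ) (X := 0) (c := c) (e0 := 1 / 3) (κ := 1)
    (α := 1 / 8) (C := C2) (β := -(I / 2)) (by norm_num) (by unfold aL; ring) le_rfl
    (by rw [abs_of_pos aL_pos]; linarith) zero_le_one hc (by norm_num) (by linarith)
    (by linarith) K (n := f) (Psi := Psi) (x0 := fun _ => 0) (b := bK f) (a := aK Psi)
    (fun j => by simp) (fun j => by norm_num) (fun j => by norm_num) ?_ ?_ ?_ ?_ ?_ ?_ ?_
  · obtain ⟨C', h1, h2, -⟩ := key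
    refine ⟨⟨C', h2⟩, C', ?_⟩
    filter_upwards [h1] with j hj
    have := hj 0 (by simp)
    simpa using this
  · -- differentiability
    filter_upwards [h.fp, log_ev (20 / 3)] with j hj hL x hx z hz
    refine ((hj x hx).df z ?_ ?_).differentiableWithinAt
    · linarith [hz.1]
    · rw [two_σL]
      linarith [hz.2]
  · -- K-terms of Psi
    filter_upwards [hk2] with j hj x hx z hz
    refine (hj x hx z hz.1.le hz.2.le).trans ?_
    have : 0 ≤ (j : ℝ) ^ (-(1 + c)) := by positivity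
    nlinarith
  · filter_upwards [hk1] with j hj z hz
    refine (hj z hz.1.le hz.2.le).trans ?_
    have : 0 ≤ (j : ℝ) ^ (-(1 + c)) := by positivity
    nlinarith
  · filter_upwards [h.up (1 / 3) (by norm_num)] with j hj x hx t ht
    refine (hj x hx t ht).trans ?_
    have : 0 ≤ (j : ℝ) ^ (1 / 3 : ℝ) := by positivity
    nlinarith
  · filter_upwards [hE] with j hj s hs t ht
    obtain ⟨D, h1, h2⟩ := hj s hs t ht
    refine ⟨D, by simpa using h1, ?_⟩
    simp only [zero_add]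
    refine h2.trans ?_
    have : 0 ≤ (j : ℝ) ^ (-(1 + c)) := by positivity
    gcongr
  · filter_upwards [h.p0] with j hj z _
    exact hj z
  · filter_upwards [h.a1] with j hj x hx
    exact hj x hx

end PBV
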