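import Mathlib

/-!
# Plan B, the functional step (docs nu34/89, nu34/PB_SD)

Abstract setting: a measure space `Ω` of configurations (all classes together), a complex weight
`w`, observables `A : Ω → ℂ`.  The only size input is, for one observable at a time,

  `OB μ w A lam M : ∫⁻ ‖w‖ exp (lam ‖A‖) ≤ M`,

which follows from REAL potentials (`OB.of_real`).

* `OB.mom`, `OB.mom2` : moments;
* `hasDerivAt_F` : `z ↦ ∫ w e^{z B} K` is differentiable, derivative `∫ w e^{z B} (B K)`;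
* `cauchy_step` : from the level one identity on a disc
  `‖∫ w e^{zB} K - (m + c z) ∫ w e^{zB}‖ ≤ δ` (`‖z‖ ≤ r`) to
  `‖∫ w (B K) - m ∫ w B - c ∫ w‖ ≤ δ / r`;
* `cov_nn`, `cov_nz`, `cov_gen` : the three cases neutral x neutral, neutral x zero mode, and the
  general case by bilinearity (zero mode x zero mode is a separate hypothesis);
* `int_version` : the integrated version for a quadratic statistic `∫ a_s b_s dσ(s)`.
-/

set_option autoImplicit false

open MeasureTheory Complex Filter Topology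
open scoped ENNReal

noncomputable section

namespace PBFunc

variable {Ω : Type*} [MeasurableSpace Ω] {μ : Measure Ω}

/-- exponential bound of one observable -/
def OB (μ : Measure Ω) (w A : Ω → ℂ) (lam M : ℝ) : Prop :=
  ∫⁻ ω, ENNReal.ofReal (‖w ω‖ * Real.exp (lam * ‖A ω‖)) ∂μ ≤ ENNReal.ofReal M

/-! ## 1. Elementary -/

lemma pow_le_exp {x lam : ℝ} (hx : 0 ≤ x) (hl : 0 < lam) (p : ℕ) :
    x ^ p ≤ (p.factorial : ℝ) / lam ^ p * Real.exp (lam * x) := by
  have h1 : (lam * x) ^ p / (p.factorial : ℝ) ≤ Real.exp (lam * x) :=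
    Real.pow_div_factorial_le_exp _ (by positivity) p
  have hp : (0 : ℝ) < (p.factorial : ℝ) := by exact_mod_cast p.factorial_pos
  have hlp : 0 < lam ^ p := by positivity
  rw [div_le_iff₀ hp, mul_pow] at h1
  rw [div_mul_eq_mul_div, le_div_iff₀ hlp]
  nlinarith

lemma exp_norm_le {x y lam : ℝ} (hl : 0 ≤ lam) :
    Real.exp (lam * ‖(⟨x, y⟩ : ℂ)‖) ≤
      (1 / 2) * (Real.exp (2 * lam * x) + Real.exp (-(2 * lam * x))
        + Real.exp (2 * lam * y) + Real.exp (-(2 * lam * y))) := by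
  have h0 : ‖(⟨x, y⟩ : ℂ)‖ ≤ |x| + |y| := by
    simpa using Complex.norm_le_abs_re_add_abs_im (⟨x, y⟩ : ℂ)
  have h1 : Real.exp (lam * ‖(⟨x, y⟩ : ℂ)‖) ≤ Real.exp (lam * |x|) * Real.exp (lam * |y|) := by
    rw [← Real.exp_add]
    apply Real.exp_le_exp.2
    nlinarith
  have h2 : Real.exp (lam * |x|) * Real.exp (lam * |y|) ≤
      (1 / 2) * (Real.exp (2 * lam * |x|) + Real.exp (2 * lam * |y|)) := by
    have e1 : Real.exp (2 * lam * |x|) = Real.exp (lam * |x|) ^ 2 := by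
      rw [← Real.exp_nat_mul]; congr 1; push_cast; ring
    have e2 : Real.exp (2 * lam * |y|) = Real.exp (lam * |y|) ^ 2 := by
      rw [← Real.exp_nat_mul]; congr 1; push_cast; ring
    rw [e1, e2]
    nlinarith [sq_nonneg (Real.exp (lam * |x|) - Real.exp (lam * |y|))]
  have h3 : ∀ t : ℝ, Real.exp (2 * lam * |t|) ≤ Real.exp (2 * lam * t) + Real.exp (-(2 * lam * t)) := by
    intro t
    rcases abs_cases t with ⟨h, _⟩ | ⟨h, _⟩
    · rw [h]; nlinarith [Real.exp_pos (-(2 * lam * t))]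
    · rw [h]
      have : 2 * lam * -t = -(2 * lam * t) := by ring
      rw [this]; nlinarith [Real.exp_pos (2 * lam * t)]
  have h4 := h3 x
  have h5 := h3 y
  linarith

/-- `OB` from real potentials: real and imaginary part, both signs -/
lemma OB.of_real {w A : Ω → ℂ} {lam M : ℝ} (hl : 0 ≤ lam) (hM : 0 ≤ M)
    (hw : AEStronglyMeasurable w μ) (hA : AEStronglyMeasurable A μ)
    (h1 : ∫⁻ ω, ENNReal.ofReal (‖w ω‖ * Real.exp (2 * lam * (A ω).re)) ∂μ ≤ ENNReal.ofReal M)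
    (h2 : ∫⁻ ω, ENNReal.ofReal (‖w ω‖ * Real.exp (-(2 * lam * (A ω).re))) ∂μ ≤ ENNReal.ofReal M)
    (h3 : ∫⁻ ω, ENNReal.ofReal (‖w ω‖ * Real.exp (2 * lam * (A ω).im)) ∂μ ≤ ENNReal.ofReal M)
    (h4 : ∫⁻ ω, ENNReal.ofReal (‖w ω‖ * Real.exp (-(2 * lam * (A ω).im))) ∂μ ≤ ENNReal.ofReal M) :
    OB μ w A lam (2 * M) := by
  have hwm : AEMeasurable (fun ω => ‖w ω‖) μ := hw.norm.aemeasurable
  have hAr : AEMeasurable (fun ω => (A ω).re) μ := Complex.measurable_re.comp_aemeasurable hA.aemeasurable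
  have hAi : AEMeasurable (fun ω => (A ω).im) μ := Complex.measurable_im.comp_aemeasurable hA.aemeasurable
  have key : ∀ ω, ENNReal.ofReal (‖w ω‖ * Real.exp (lam * ‖A ω‖)) ≤
      ENNReal.ofReal (1 / 2) * (ENNReal.ofReal (‖w ω‖ * Real.exp (2 * lam * (A ω).re)) +
        ENNReal.ofReal (‖w ω‖ * Real.exp (-(2 * lam * (A ω).re))) +
        ENNReal.ofReal (‖w ω‖ * Real.exp (2 * lam * (A ω).im)) +
        ENNReal.ofReal (‖w ω‖ * Real.exp (-(2 * lam * (A ω).im)))) := by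
    intro ω
    rw [← ENNReal.ofReal_add (by positivity) (by positivity),
      ← ENNReal.ofReal_add (by positivity) (by positivity),
      ← ENNReal.ofReal_add (by positivity) (by positivity), ← ENNReal.ofReal_mul (by norm_num)]
    apply ENNReal.ofReal_le_ofReal
    have h := exp_norm_le (x := (A ω).re) (y := (A ω).im) hl
    have e : (⟨(A ω).re, (A ω).im⟩ : ℂ) = A ω := rfl
    rw [e] at h
    calc ‖w ω‖ * Real.exp (lam * ‖A ω‖) ≤ ‖w ω‖ * _ := mul_le_mul_of_nonneg_left h (norm_nonneg _)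
      _ = _ := by ring
  unfold OB
  have m1 : AEMeasurable (fun ω => ENNReal.ofReal (‖w ω‖ * Real.exp (2 * lam * (A ω).re))) μ :=
    (hwm.mul (Real.measurable_exp.comp_aemeasurable (hAr.const_mul _))).ennreal_ofReal
  have m2 : AEMeasurable (fun ω => ENNReal.ofReal (‖w ω‖ * Real.exp (-(2 * lam * (A ω).re)))) μ :=
    (hwm.mul (Real.measurable_exp.comp_aemeasurable (hAr.const_mul _).neg)).ennreal_ofReal
  have m3 : AEMeasurable (fun ω => ENNReal.ofReal (‖w ω‖ * Real.exp (2 * lam * (A ω).im))) μ :=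
    (hwm.mul (Real.measurable_exp.comp_aemeasurable (hAi.const_mul _))).ennreal_ofReal
  calc ∫⁻ ω, ENNReal.ofReal (‖w ω‖ * Real.exp (lam * ‖A ω‖)) ∂μ
      ≤ ∫⁻ ω, ENNReal.ofReal (1 / 2) * (ENNReal.ofReal (‖w ω‖ * Real.exp (2 * lam * (A ω).re)) +
        ENNReal.ofReal (‖w ω‖ * Real.exp (-(2 * lam * (A ω).re))) +
        ENNReal.ofReal (‖w ω‖ * Real.exp (2 * lam * (A ω).im)) +
        ENNReal.ofReal (‖w ω‖ * Real.exp (-(2 * lam * (A ω).im)))) ∂μ := lintegral_mono key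
    _ = ENNReal.ofReal (1 / 2) * ∫⁻ ω, (ENNReal.ofReal (‖w ω‖ * Real.exp (2 * lam * (A ω).re)) +
        ENNReal.ofReal (‖w ω‖ * Real.exp (-(2 * lam * (A ω).re))) +
        ENNReal.ofReal (‖w ω‖ * Real.exp (2 * lam * (A ω).im)) +
        ENNReal.ofReal (‖w ω‖ * Real.exp (-(2 * lam * (A ω).im)))) ∂μ := by
          rw [lintegral_const_mul' _ _ ENNReal.ofReal_ne_top]
    _ ≤ ENNReal.ofReal (1 / 2) * (ENNReal.ofReal M + ENNReal.ofReal M + ENNReal.ofReal M +
          ENNReal.ofReal M) := by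
          gcongr
          rw [lintegral_add_left' (by fun_prop), lintegral_add_left' (by fun_prop),
            lintegral_add_left' (by fun_prop)]
          gcongr
    _ = ENNReal.ofReal (2 * M) := by
          rw [← ENNReal.ofReal_add hM hM, ← ENNReal.ofReal_add (by linarith) hM,
            ← ENNReal.ofReal_add (by linarith) hM, ← ENNReal.ofReal_mul (by norm_num)]
          congr 1; ring

lemma OB.mono {w A : Ω → ℂ} {lam lam' M M' : ℝ} (h : OB μ w A lam M) (hl : lam' ≤ lam)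
    (hM : M ≤ M') : OB μ w A lam' M' := by
  unfold OB at *
  refine le_trans (lintegral_mono fun ω => ?_) (h.trans (ENNReal.ofReal_le_ofReal hM))
  apply ENNReal.ofReal_le_ofReal
  gcongr

/-- moments -/
lemma OB.mom {w A : Ω → ℂ} {lam M : ℝ} (h : OB μ w A lam M) (hl : 0 < lam) (p : ℕ) :
    ∫⁻ ω, ENNReal.ofReal (‖w ω‖ * ‖A ω‖ ^ p) ∂μ ≤
      ENNReal.ofReal ((p.factorial : ℝ) / lam ^ p * M) := by
  have hc : 0 ≤ (p.factorial : ℝ) / lam ^ p := by positivity
  calc ∫⁻ ω, ENNReal.ofReal (‖w ω‖ * ‖A ω‖ ^ p) ∂μ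
      ≤ ∫⁻ ω, ENNReal.ofReal ((p.factorial : ℝ) / lam ^ p) *
          ENNReal.ofReal (‖w ω‖ * Real.exp (lam * ‖A ω‖)) ∂μ := by
        refine lintegral_mono fun ω => ?_
        rw [← ENNReal.ofReal_mul hc]
        apply ENNReal.ofReal_le_ofReal
        have := pow_le_exp (norm_nonneg (A ω)) hl p
        calc ‖w ω‖ * ‖A ω‖ ^ p ≤ ‖w ω‖ * _ := mul_le_mul_of_nonneg_left this (norm_nonneg _)
          _ = _ := by ring
    _ = ENNReal.ofReal ((p.factorial : ℝ) / lam ^ p) *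
          ∫⁻ ω, ENNReal.ofReal (‖w ω‖ * Real.exp (lam * ‖A ω‖)) ∂μ :=
        lintegral_const_mul' _ _ ENNReal.ofReal_ne_top
    _ ≤ ENNReal.ofReal ((p.factorial : ℝ) / lam ^ p) * ENNReal.ofReal M := by
        gcongr
        exact h
    _ = _ := by rw [← ENNReal.ofReal_mul hc]

/-! ## 2. The functional `F` -/

/-- `F[O] = ∫ w O` -/
def F (μ : Measure Ω) (w O : Ω → ℂ) : ℂ := ∫ ω, w ω * O ω ∂μ

lemma norm_F_le {w O : Ω → ℂ} {M : ℝ} (hM : 0 ≤ M)
    (h : ∫⁻ ω, ENNReal.ofReal (‖w ω‖ * ‖O ω‖) ∂μ ≤ ENNReal.ofReal M) : ‖F μ w O‖ ≤ M := by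
  unfold F
  refine (norm_integral_le_lintegral_norm _).trans ?_
  refine ENNReal.toReal_le_of_le_ofReal hM ?_
  simpa only [norm_mul] using h

/-- integrable with respect to the weight -/
def WI (μ : Measure Ω) (w O : Ω → ℂ) : Prop := Integrable (fun ω => w ω * O ω) μ

lemma WI.of_le {w O : Ω → ℂ} {M : ℝ} (hw : AEStronglyMeasurable w μ)
    (hO : AEStronglyMeasurable O μ)
    (h : ∫⁻ ω, ENNReal.ofReal (‖w ω‖ * ‖O ω‖) ∂μ ≤ ENNReal.ofReal M) : WI μ w O := by
  refine ⟨hw.mul hO, ?_⟩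
  rw [hasFiniteIntegral_iff_norm]
  simp only [norm_mul]
  exact lt_of_le_of_lt h ENNReal.ofReal_lt_top

lemma F_add {w O P : Ω → ℂ} (hO : WI μ w O) (hP : WI μ w P) :
    F μ w (fun ω => O ω + P ω) = F μ w O + F μ w P := by
  unfold F
  rw [← integral_add hO hP]
  congr 1
  funext ω
  ring

lemma F_sub {w O P : Ω → ℂ} (hO : WI μ w O) (hP : WI μ w P) :
    F μ w (fun ω => O ω - P ω) = F μ w O - F μ w P := by
  unfold F
  rw [← integral_sub hO hP]
  congr 1
  funext ω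
  ring

lemma F_smul (w O : Ω → ℂ) (c : ℂ) : F μ w (fun ω => c * O ω) = c * F μ w O := by
  unfold F
  rw [← integral_const_mul]
  congr 1
  funext ω
  ring

lemma WI.add {w O P : Ω → ℂ} (hO : WI μ w O) (hP : WI μ w P) :
    WI μ w (fun ω => O ω + P ω) := by
  have : (fun ω => w ω * (O ω + P ω)) = fun ω => w ω * O ω + w ω * P ω := by
    funext ω; ring
  unfold WI
  rw [this]
  exact Integrable.add hO hP

lemma WI.smul {w O : Ω → ℂ} (hO : WI μ w O) (c : ℂ) : WI μ w (fun ω => c * O ω) := by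
  have : (fun ω => w ω * (c * O ω)) = fun ω => c * (w ω * O ω) := by
    funext ω; ring
  unfold WI
  rw [this]
  exact Integrable.const_mul hO c

/-! ## 3. Level one to level two, insertion form

`A = ν(g)` with `g` neutral, Ward identity with insertion `O ∈ {1, B}`:
`F[A O] = F[(m + S) O] + F[D O]`, `D 1 = 0`, `D B = c + S'`. -/

/-- mean: `F[A] = m F[1] + O(δ)` -/
theorem mean_of_ward {w A S : Ω → ℂ} {m : ℂ} {δ : ℝ} (hδ : 0 ≤ δ)
    (hw1 : WI μ w (fun _ => 1)) (hS : WI μ w S)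
    (hWard : F μ w A = F μ w (fun ω => m + S ω))
    (hSb : ∫⁻ ω, ENNReal.ofReal (‖w ω‖ * ‖S ω‖) ∂μ ≤ ENNReal.ofReal δ) :
    ‖F μ w A - m * F μ w (fun _ => 1)‖ ≤ δ := by
  have h1 : F μ w (fun ω => m + S ω) = m * F μ w (fun _ => 1) + F μ w S := by
    have := F_add (hw1.smul m) hS
    simp only [mul_one] at this
    rw [this]
    have h2 := F_smul (μ := μ) w (fun _ => 1) m
    simp only [mul_one] at h2
    rw [h2]
  rw [hWard, h1, add_sub_cancel_left]
  exact norm_F_le hδ hSb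

/-- covariance: `F[A B] = m F[B] + c F[1] + O(δ₁ + δ₂)` -/
theorem cov_of_ward {w A B S S' : Ω → ℂ} {m c : ℂ} {δ₁ δ₂ : ℝ} (hδ₁ : 0 ≤ δ₁) (hδ₂ : 0 ≤ δ₂)
    (hw1 : WI μ w (fun _ => 1)) (hB : WI μ w B) (hSB : WI μ w (fun ω => S ω * B ω))
    (hS' : WI μ w S')
    (hWard : F μ w (fun ω => A ω * B ω) = F μ w (fun ω => (m + S ω) * B ω) +
      F μ w (fun ω => c + S' ω))
    (h1 : ∫⁻ ω, ENNReal.ofReal (‖w ω‖ * ‖S ω * B ω‖) ∂μ ≤ ENNReal.ofReal δ₁)
    (h2 : ∫⁻ ω, ENNReal.ofReal (‖w ω‖ * ‖S' ω‖) ∂μ ≤ ENNReal.ofReal δ₂) :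
    ‖F μ w (fun ω => A ω * B ω) - (m * F μ w B + c * F μ w (fun _ => 1))‖ ≤ δ₁ + δ₂ := by
  have e1 : F μ w (fun ω => (m + S ω) * B ω) = m * F μ w B + F μ w (fun ω => S ω * B ω) := by
    rw [← F_smul, ← F_add (hB.smul m) hSB]
    congr 1
    funext ω
    ring
  have e2 : F μ w (fun ω => c + S' ω) = c * F μ w (fun _ => 1) + F μ w S' := by
    have := F_add (hw1.smul c) hS'
    simp only [mul_one] at this
    rw [this]
    have h3 := F_smul (μ := μ) w (fun _ => 1) c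
    simp only [mul_one] at h3
    rw [h3]
  rw [hWard, e1, e2]
  have : m * F μ w B + F μ w (fun ω => S ω * B ω) + (c * F μ w (fun _ => 1) + F μ w S') -
      (m * F μ w B + c * F μ w (fun _ => 1)) = F μ w (fun ω => S ω * B ω) + F μ w S' := by ring
  rw [this]
  exact (norm_add_le _ _).trans (add_le_add (norm_F_le hδ₁ h1) (norm_F_le hδ₂ h2))

/-! ## 4. Level one to level two, exponential form (Cauchy) -/

/-- `z ↦ ∫ w e^{zB} K` is differentiable for `‖z‖ < r'` -/
theorem hasDerivAt_F {w B K : Ω → ℂ} {r' : ℝ} (_hr : 0 < r')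
    (hw : AEStronglyMeasurable w μ) (hB : AEStronglyMeasurable B μ)
    (hK : AEStronglyMeasurable K μ)
    (hI : Integrable (fun ω => ‖w ω‖ * Real.exp (r' * ‖B ω‖) * ‖K ω‖) μ)
    {z : ℂ} (hz : ‖z‖ < r') :
    HasDerivAt (fun z => F μ w (fun ω => Complex.exp (z * B ω) * K ω))
      (F μ w (fun ω => Complex.exp (z * B ω) * (B ω * K ω))) z := by
  unfold F
  -- radius
  obtain ⟨ρ, hρ1, hρ2⟩ := exists_between hz
  have hρ0 : 0 < ρ := lt_of_le_of_lt (norm_nonneg _) hρ1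
  set η := r' - ρ with hη
  have hη0 : 0 < η := by linarith
  have hexp : AEStronglyMeasurable (fun ω => Complex.exp (z * B ω)) μ :=
    Complex.continuous_exp.comp_aestronglyMeasurable (hB.const_mul z)
  have hmeas : ∀ z : ℂ, AEStronglyMeasurable (fun ω => w ω * (Complex.exp (z * B ω) * K ω)) μ :=
    fun z => hw.mul ((Complex.continuous_exp.comp_aestronglyMeasurable (hB.const_mul z)).mul hK)
  have key := hasDerivAt_integral_of_dominated_loc_of_deriv_le (μ := μ)
    (F := fun (z : ℂ) ω => w ω * (Complex.exp (z * B ω) * K ω))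
    (F' := fun (z : ℂ) ω => w ω * (Complex.exp (z * B ω) * (B ω * K ω)))
    (x₀ := z) (s := Metric.ball z (ρ - ‖z‖))
    (bound := fun ω => (1 / η) * (‖w ω‖ * Real.exp (r' * ‖B ω‖) * ‖K ω‖))
    (Metric.ball_mem_nhds _ (by linarith))
    (Eventually.of_forall fun z => hmeas z) ?_ ?_ ?_ (hI.const_mul _) ?_
  · exact key.2
  · refine hI.mono' (hmeas z) (Eventually.of_forall fun ω => ?_)
    rw [norm_mul, norm_mul, Complex.norm_exp]
    have h1 : (z * B ω).re ≤ r' * ‖B ω‖ := by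
      calc (z * B ω).re ≤ ‖z * B ω‖ := Complex.re_le_norm _
        _ = ‖z‖ * ‖B ω‖ := norm_mul _ _
        _ ≤ r' * ‖B ω‖ := by gcongr
    calc ‖w ω‖ * (Real.exp (z * B ω).re * ‖K ω‖) ≤ ‖w ω‖ * (Real.exp (r' * ‖B ω‖) * ‖K ω‖) := by
          gcongr
      _ = _ := by ring
  · exact hw.mul (hexp.mul (hB.mul hK))
  · refine Eventually.of_forall fun ω z' hz' => ?_
    have hz'' : ‖z'‖ ≤ ρ := by
      have h1 : ‖z' - z‖ < ρ - ‖z‖ := by simpa [dist_eq_norm] using hz'
      have h2 : ‖z'‖ ≤ ‖z' - z‖ + ‖z‖ := by simpa using norm_add_le (z' - z) z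
      linarith
    rw [norm_mul, norm_mul, norm_mul, Complex.norm_exp]
    have h1 : (z' * B ω).re ≤ ρ * ‖B ω‖ := by
      calc (z' * B ω).re ≤ ‖z' * B ω‖ := Complex.re_le_norm _
        _ = ‖z'‖ * ‖B ω‖ := norm_mul _ _
        _ ≤ ρ * ‖B ω‖ := by gcongr
    have h2 : ‖B ω‖ ≤ (1 / η) * Real.exp (η * ‖B ω‖) := by
      have := Real.add_one_le_exp (η * ‖B ω‖)
      rw [one_div, ← div_eq_inv_mul, le_div_iff₀ hη0]
      nlinarith
    calc ‖w ω‖ * (Real.exp (z' * B ω).re * (‖B ω‖ * ‖K ω‖))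
        ≤ ‖w ω‖ * (Real.exp (ρ * ‖B ω‖) * (((1 / η) * Real.exp (η * ‖B ω‖)) * ‖K ω‖)) := by
          gcongr
      _ = (1 / η) * (‖w ω‖ * (Real.exp (ρ * ‖B ω‖) * Real.exp (η * ‖B ω‖)) * ‖K ω‖) := by ring
      _ = _ := by
          rw [← Real.exp_add]
          congr 3
          rw [hη]
          ring_nf
  · refine Eventually.of_forall fun ω z' _ => ?_
    have h1 : HasDerivAt (fun z : ℂ => Complex.exp (z * B ω)) (Complex.exp (z' * B ω) * B ω) z' := by
      have := (hasDerivAt_id z').mul_const (B ω)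
      simpa using this.cexp
    have h2 := (h1.mul_const (K ω)).const_mul (w ω)
    refine h2.congr_deriv ?_
    ring

/-- **Cauchy step** -/
theorem cauchy_step {w B K : Ω → ℂ} {m c : ℂ} {r r' δ : ℝ} (hr : 0 < r) (hrr : r < r')
    (hw : AEStronglyMeasurable w μ) (hB : AEStronglyMeasurable B μ)
    (hK : AEStronglyMeasurable K μ)
    (hI : Integrable (fun ω => ‖w ω‖ * Real.exp (r' * ‖B ω‖) * ‖K ω‖) μ)
    (hI1 : Integrable (fun ω => ‖w ω‖ * Real.exp (r' * ‖B ω‖)) μ)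
    (hL1 : ∀ z : ℂ, ‖z‖ ≤ r →
      ‖F μ w (fun ω => Complex.exp (z * B ω) * K ω) -
        (m + c * z) * F μ w (fun ω => Complex.exp (z * B ω))‖ ≤ δ) :
    ‖F μ w (fun ω => B ω * K ω) - (m * F μ w B + c * F μ w (fun _ => 1))‖ ≤ δ / r := by
  have hr' : 0 < r' := hr.trans hrr
  have hI1' : Integrable (fun ω => ‖w ω‖ * Real.exp (r' * ‖B ω‖) * ‖(fun _ => (1 : ℂ)) ω‖) μ := by
    simpa using hI1
  have hd1 : ∀ z : ℂ, ‖z‖ < r' → HasDerivAt
      (fun z => F μ w (fun ω => Complex.exp (z * B ω) * K ω) -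
        (m + c * z) * F μ w (fun ω => Complex.exp (z * B ω)))
      (F μ w (fun ω => Complex.exp (z * B ω) * (B ω * K ω)) -
        (c * F μ w (fun ω => Complex.exp (z * B ω)) +
          (m + c * z) * F μ w (fun ω => Complex.exp (z * B ω) * B ω))) z := by
    intro z hz
    have h1 := hasDerivAt_F hr' hw hB hK hI hz
    have h2 := hasDerivAt_F (K := fun _ => 1) hr' hw hB aestronglyMeasurable_const hI1' hz
    simp only [mul_one] at h2
    have h3 : HasDerivAt (fun z : ℂ => m + c * z) c z := by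
      simpa using ((hasDerivAt_id z).const_mul c).const_add m
    exact h1.sub (h3.mul h2)
  have hdc : DiffContOnCl ℂ (fun z => F μ w (fun ω => Complex.exp (z * B ω) * K ω) -
        (m + c * z) * F μ w (fun ω => Complex.exp (z * B ω))) (Metric.ball 0 r) := by
    apply DifferentiableOn.diffContOnCl
    intro z hz
    have hz' : ‖z‖ ≤ r := by
      have := Metric.closure_ball_subset_closedBall hz
      simpa using this
    exact (hd1 z (lt_of_le_of_lt hz' hrr)).differentiableAt.differentiableWithinAt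
  have hC := Complex.norm_deriv_le_of_forall_mem_sphere_norm_le hr hdc
    (fun z hz => hL1 z (by simpa using (le_of_eq (by simpa using hz : ‖z‖ = r))))
  have h0 := (hd1 0 (by simpa using hr')).deriv
  rw [h0] at hC
  simp only [zero_mul, Complex.exp_zero, one_mul, mul_zero, add_zero] at hC
  have : F μ w (fun ω => B ω * K ω) - (m * F μ w B + c * F μ w (fun _ => 1)) =
      F μ w (fun ω => B ω * K ω) - (c * F μ w (fun _ => 1) + m * F μ w (fun ω => B ω)) := by
    ring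
  rw [this]
  exact hC

/-! ## 5. Neutral directions and the zero mode -/

/-- `F[A B] = (a b + c) F[1] + O(δ)` -/
def CovIs (μ : Measure Ω) (w A B : Ω → ℂ) (a b c : ℂ) (δ : ℝ) : Prop :=
  ‖F μ w (fun ω => A ω * B ω) - (a * b + c) * F μ w (fun _ => 1)‖ ≤ δ

/-- `F[A] = a F[1] + O(δ)` -/
def MeanIs (μ : Measure Ω) (w A : Ω → ℂ) (a : ℂ) (δ : ℝ) : Prop :=
  ‖F μ w A - a * F μ w (fun _ => 1)‖ ≤ δ

/-- neutral `A` (Ward identity) against any `B` whose mean is known -/
theorem CovIs.of_neutral {w A B : Ω → ℂ} {a b c : ℂ} {δ δ' : ℝ}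
    (h : ‖F μ w (fun ω => A ω * B ω) - (a * F μ w B + c * F μ w (fun _ => 1))‖ ≤ δ)
    (hB : MeanIs μ w B b δ') : CovIs μ w A B a b c (δ + ‖a‖ * δ') := by
  unfold CovIs MeanIs at *
  have e : F μ w (fun ω => A ω * B ω) - (a * b + c) * F μ w (fun _ => 1) =
      (F μ w (fun ω => A ω * B ω) - (a * F μ w B + c * F μ w (fun _ => 1))) +
        a * (F μ w B - b * F μ w (fun _ => 1)) := by ring
  rw [e]
  refine (norm_add_le _ _).trans (add_le_add h ?_)
  rw [norm_mul]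
  exact mul_le_mul_of_nonneg_left hB (norm_nonneg _)

theorem CovIs.symm {w A B : Ω → ℂ} {a b c : ℂ} {δ : ℝ} (h : CovIs μ w A B a b c δ) :
    CovIs μ w B A b a c δ := by
  unfold CovIs at *
  have e : (fun ω => B ω * A ω) = fun ω => A ω * B ω := by funext ω; ring
  rw [e, mul_comm b a]
  exact h

/-- **the general pair**: `A = α Z + N`, `B = β Z + N'`, from the four cases -/
theorem CovIs.gen {w Z N N' : Ω → ℂ} {α β z n n' czz czn czn' cnn : ℂ} {δzz δzn δzn' δnn : ℝ}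
    (iZZ : WI μ w (fun ω => Z ω * Z ω)) (iZN' : WI μ w (fun ω => Z ω * N' ω))
    (iNZ : WI μ w (fun ω => N ω * Z ω)) (iNN : WI μ w (fun ω => N ω * N' ω))
    (hzz : CovIs μ w Z Z z z czz δzz) (hzn' : CovIs μ w Z N' z n' czn' δzn')
    (hnz : CovIs μ w N Z n z czn δzn) (hnn : CovIs μ w N N' n n' cnn δnn) :
    CovIs μ w (fun ω => α * Z ω + N ω) (fun ω => β * Z ω + N' ω) (α * z + n) (β * z + n')
      (α * β * czz + α * czn' + β * czn + cnn)
      (‖α‖ * ‖β‖ * δzz + ‖α‖ * δzn' + ‖β‖ * δzn + δnn) := by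
  unfold CovIs at *
  have e : F μ w (fun ω => (α * Z ω + N ω) * (β * Z ω + N' ω)) =
      (α * β) * F μ w (fun ω => Z ω * Z ω) + α * F μ w (fun ω => Z ω * N' ω) +
        β * F μ w (fun ω => N ω * Z ω) + F μ w (fun ω => N ω * N' ω) := by
    rw [← F_smul, ← F_smul, ← F_smul,
      ← F_add (iZZ.smul _) (iZN'.smul _), ← F_add ((iZZ.smul _).add (iZN'.smul _)) (iNZ.smul _),
      ← F_add (((iZZ.smul _).add (iZN'.smul _)).add (iNZ.smul _)) iNN]
    congr 1
    funext ω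
    ring
  rw [e]
  have e2 : (α * β) * F μ w (fun ω => Z ω * Z ω) + α * F μ w (fun ω => Z ω * N' ω) +
        β * F μ w (fun ω => N ω * Z ω) + F μ w (fun ω => N ω * N' ω) -
      ((α * z + n) * (β * z + n') + (α * β * czz + α * czn' + β * czn + cnn)) *
        F μ w (fun _ => 1) =
      (α * β) * (F μ w (fun ω => Z ω * Z ω) - (z * z + czz) * F μ w (fun _ => 1)) +
      α * (F μ w (fun ω => Z ω * N' ω) - (z * n' + czn') * F μ w (fun _ => 1)) +
      β * (F μ w (fun ω => N ω * Z ω) - (n * z + czn) * F μ w (fun _ => 1)) +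
      (F μ w (fun ω => N ω * N' ω) - (n * n' + cnn) * F μ w (fun _ => 1)) := by ring
  rw [e2]
  refine (norm_add_le _ _).trans (add_le_add ?_ hnn)
  refine (norm_add_le _ _).trans (add_le_add ?_ ?_)
  · refine (norm_add_le _ _).trans (add_le_add ?_ ?_)
    · rw [norm_mul, norm_mul]
      exact mul_le_mul_of_nonneg_left hzz (by positivity)
    · rw [norm_mul]
      exact mul_le_mul_of_nonneg_left hzn' (norm_nonneg _)
  · rw [norm_mul]
    exact mul_le_mul_of_nonneg_left hnz (norm_nonneg _)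

/-- zero mode squared from the leg position: `F[Z²] + F[L] = G''`, `L` neutral with known mean -/
theorem CovIs.zz {w Z L : Ω → ℂ} {l G2 : ℂ} {δ δ' : ℝ}
    (h : F μ w (fun ω => Z ω * Z ω) + F μ w L = G2) (hG : ‖G2‖ ≤ δ) (hL : MeanIs μ w L l δ') :
    CovIs μ w Z Z 0 0 (-l) (δ + δ') := by
  unfold CovIs MeanIs at *
  have e : F μ w (fun ω => Z ω * Z ω) - (0 * 0 + -l) * F μ w (fun _ => 1) =
      G2 - (F μ w L - l * F μ w (fun _ => 1)) := by
    rw [← h]; ring
  rw [e]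
  exact (norm_sub_le _ _).trans (add_le_add hG hL)

/-! ## 6. Quadratic statistics as superpositions of products -/

variable {S : Type*} [MeasurableSpace S] {σ : Measure S}

/-- Fubini -/
theorem F_int {w : Ω → ℂ} {a : S → Ω → ℂ} [SFinite μ] [SFinite σ]
    (hI : Integrable (fun p : Ω × S => w p.1 * a p.2 p.1) (μ.prod σ)) :
    F μ w (fun ω => ∫ s, a s ω ∂σ) = ∫ s, F μ w (a s) ∂σ := by
  unfold F
  have e : (fun ω => w ω * ∫ s, a s ω ∂σ) = fun ω => ∫ s, w ω * a s ω ∂σ := by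
    funext ω
    rw [integral_const_mul]
  rw [e]
  exact integral_integral_swap (f := fun ω s => w ω * a s ω) hI

/-- **integrated version** -/
theorem quad_int {w : Ω → ℂ} {a b : S → Ω → ℂ} {C : S → ℂ} {ε : S → ℝ} [SFinite μ] [SFinite σ]
    (hI : Integrable (fun p : Ω × S => w p.1 * (a p.2 p.1 * b p.2 p.1)) (μ.prod σ))
    (hC : Integrable C σ) (hε : Integrable ε σ)
    (h : ∀ᵐ s ∂σ, ‖F μ w (fun ω => a s ω * b s ω) - C s * F μ w (fun _ => 1)‖ ≤ ε s) :
    ‖F μ w (fun ω => ∫ s, a s ω * b s ω ∂σ) - (∫ s, C s ∂σ) * F μ w (fun _ => 1)‖ ≤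
      ∫ s, ε s ∂σ := by
  have hF : Integrable (fun s => F μ w (fun ω => a s ω * b s ω)) σ := by
    have := hI.integral_prod_right
    exact this
  rw [F_int (a := fun s ω => a s ω * b s ω) hI, ← integral_mul_const,
    ← integral_sub hF (hC.mul_const _)]
  exact norm_integral_le_of_norm_le hε h

/-- **the level zero identity with the value of the quadratic statistic inserted** -/
theorem level_zero {w A Q : Ω → ℂ} {m κ C : ℂ} {δ₀ ε : ℝ}
    (hWard : ‖F μ w A - (m * F μ w (fun _ => 1) + κ * F μ w Q)‖ ≤ δ₀)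
    (hQ : ‖F μ w Q - C * F μ w (fun _ => 1)‖ ≤ ε) :
    ‖F μ w A - (m + κ * C) * F μ w (fun _ => 1)‖ ≤ δ₀ + ‖κ‖ * ε := by
  have e : F μ w A - (m + κ * C) * F μ w (fun _ => 1) =
      (F μ w A - (m * F μ w (fun _ => 1) + κ * F μ w Q)) +
        κ * (F μ w Q - C * F μ w (fun _ => 1)) := by ring
  rw [e]
  refine (norm_add_le _ _).trans (add_le_add hWard ?_)
  rw [norm_mul]
  exact mul_le_mul_of_nonneg_left hQ (norm_nonneg _)

/-! ## 7. A potential of size `O(1)` along the path `s A`, `0 ≤ s ≤ 1` -/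

/-- **exponential step**: the level one identity along `s A` gives `F[e^A] = e^{m + c/2} (F[1] + O(δ))` -/
theorem exp_step {w A : Ω → ℂ} {m c : ℂ} {δ E r' : ℝ} (hr : 1 < r')
    (hw : AEStronglyMeasurable w μ) (hA : AEStronglyMeasurable A μ)
    (hI : Integrable (fun ω => ‖w ω‖ * Real.exp (r' * ‖A ω‖)) μ)
    (hE : ∀ s : ℝ, s ∈ Set.Icc (0 : ℝ) 1 → ‖Complex.exp (-(m * s + c * s ^ 2 / 2))‖ ≤ E)
    (hL : ∀ s : ℝ, s ∈ Set.Icc (0 : ℝ) 1 →
      ‖F μ w (fun ω => A ω * Complex.exp (s * A ω)) -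
        (m + c * s) * F μ w (fun ω => Complex.exp (s * A ω))‖ ≤ δ) :
    ‖F μ w (fun ω => Complex.exp (A ω)) * Complex.exp (-(m + c / 2)) - F μ w (fun _ => 1)‖ ≤
      E * δ := by
  have hI' : Integrable (fun ω => ‖w ω‖ * Real.exp (r' * ‖A ω‖) * ‖(fun _ => (1 : ℂ)) ω‖) μ := by
    simpa using hI
  set f : ℝ → ℂ := fun s => F μ w (fun ω => Complex.exp (s * A ω)) *
    Complex.exp (-(m * s + c * s ^ 2 / 2)) with hf
  have hd : ∀ s : ℝ, s ∈ Set.Icc (0 : ℝ) 1 → HasDerivAt f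
      ((F μ w (fun ω => A ω * Complex.exp (s * A ω)) -
        (m + c * s) * F μ w (fun ω => Complex.exp (s * A ω))) *
        Complex.exp (-(m * s + c * s ^ 2 / 2))) s := by
    intro s hs
    have hs' : ‖(s : ℂ)‖ < r' := by
      rw [Complex.norm_real, Real.norm_of_nonneg hs.1]
      exact lt_of_le_of_lt hs.2 hr
    have h1 := hasDerivAt_F (K := fun _ => 1) (by linarith : (0 : ℝ) < r') hw hA
      aestronglyMeasurable_const hI' hs'
    simp only [mul_one] at h1
    have h1' : HasDerivAt (fun s : ℝ => F μ w (fun ω => Complex.exp (s * A ω)))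
        (F μ w (fun ω => Complex.exp (s * A ω) * A ω)) s := h1.comp_ofReal
    have h2 : HasDerivAt (fun s : ℝ => Complex.exp (-(m * s + c * s ^ 2 / 2)))
        (Complex.exp (-(m * s + c * s ^ 2 / 2)) * (-(m + c * s))) s := by
      have h3 : HasDerivAt (fun s : ℝ => (s : ℂ)) 1 s := Complex.ofRealCLM.hasDerivAt
      have h4 : HasDerivAt (fun s : ℝ => -(m * (s : ℂ) + c * (s : ℂ) ^ 2 / 2)) (-(m + c * s)) s := by
        have h5 := ((h3.const_mul m).add (((h3.pow 2).const_mul c).div_const 2)).neg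
        refine h5.congr_deriv ?_
        push_cast
        ring
      exact h4.cexp
    have h6 := h1'.mul h2
    refine h6.congr_deriv ?_
    have e : (fun ω => Complex.exp ((s : ℂ) * A ω) * A ω) = fun ω => A ω * Complex.exp (s * A ω) := by
      funext ω; ring
    rw [e]
    ring
  have hb : ∀ s : ℝ, s ∈ Set.Icc (0 : ℝ) 1 → ‖(F μ w (fun ω => A ω * Complex.exp (s * A ω)) -
        (m + c * s) * F μ w (fun ω => Complex.exp (s * A ω))) *
        Complex.exp (-(m * s + c * s ^ 2 / 2))‖ ≤ E * δ := by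
    intro s hs
    rw [norm_mul, mul_comm]
    have h0 : 0 ≤ E := (norm_nonneg _).trans (hE s hs)
    exact mul_le_mul (hE s hs) (hL s hs) (norm_nonneg _) h0
  have key := norm_image_sub_le_of_norm_deriv_le_segment_01' (f := f) (C := E * δ)
    (fun s hs => (hd s hs).hasDerivWithinAt) (fun s hs => hb s (Set.Ico_subset_Icc_self hs))
  have e1 : f 1 = F μ w (fun ω => Complex.exp (A ω)) * Complex.exp (-(m + c / 2)) := by
    simp [hf]
  have e0 : f 0 = F μ w (fun _ => 1) := by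
    simp [hf]
  rw [e1, e0] at key
  exact key

/-- the difference of two bounded potentials: `A` replaced by `A` on the weight `w e^B` -/
theorem F_exp (w A B : Ω → ℂ) : F μ (fun ω => w ω * Complex.exp (B ω)) A =
    F μ w (fun ω => Complex.exp (B ω) * A ω) := by
  unfold F
  congr 1
  funext ω
  ring

end PBFunc
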