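import Pool.Agent.PB.Func

/-!
# Plan B: covariances with the zero mode direction kept exact, and the assembly of `(E')`

`F μ w O = ∫ w O` (`PB.Func`), `f = F[1]`.  `Z` is the zero mode observable (`ν_+(g0)`), neutral
observables `N` satisfy the second Ward identity
`F[N O] = n F[O] + c(N, O) F[1] + error` for `O ∈ {1, Z, N'}`.

* **`cov_exact`** : `A = α Z + N`, `B = β Z + N'`:
  `F[A B] = α β F[Z Z] + (α n' + β n) F[Z] + (α c' + β c + n n' + cnn) F[1] + error`;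
* **`int_exact`** : superposition over a parameter `s` (`H = ∫ A_s B_s dσ(s)`);
* `lin_exact` : `F[κ Z + N] = κ F[Z] + n F[1] + error`;
* **`E_asm`** : the assembly
  `|f_η - (P2 f_ττ - (P1 + L1) f_τ)| ≤ δ0 + δ1 + δ2 + δ3 + |P1 + L1| δ4 + |P2| δ5`.
-/

set_option autoImplicit false

open MeasureTheory Complex Filter Topology
open scoped ENNReal

noncomputable section

namespace PBFunc

variable {Ω : Type*} [MeasurableSpace Ω] {μ : Measure Ω}

/-- **covariance with the zero mode kept exact** -/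
theorem cov_exact {w Z N N' : Ω → ℂ} {α β n n' c c' cnn : ℂ} {d1 d2 d3 d4 : ℝ}
    (iZZ : WI μ w (fun ω => Z ω * Z ω)) (iNZ : WI μ w (fun ω => N ω * Z ω))
    (iN'Z : WI μ w (fun ω => N' ω * Z ω)) (iNN : WI μ w (fun ω => N ω * N' ω))
    (h1 : ‖F μ w (fun ω => N' ω * Z ω) - (n' * F μ w Z + c' * F μ w (fun _ => 1))‖ ≤ d1)
    (h2 : ‖F μ w (fun ω => N ω * Z ω) - (n * F μ w Z + c * F μ w (fun _ => 1))‖ ≤ d2)
    (h3 : ‖F μ w (fun ω => N ω * N' ω) - (n * F μ w N' + cnn * F μ w (fun _ => 1))‖ ≤ d3)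
    (h4 : ‖F μ w N' - n' * F μ w (fun _ => 1)‖ ≤ d4) :
    ‖F μ w (fun ω => (α * Z ω + N ω) * (β * Z ω + N' ω)) -
      (α * β * F μ w (fun ω => Z ω * Z ω) + (α * n' + β * n) * F μ w Z +
        (α * c' + β * c + n * n' + cnn) * F μ w (fun _ => 1))‖ ≤
      ‖α‖ * d1 + ‖β‖ * d2 + d3 + ‖n‖ * d4 := by
  have e : F μ w (fun ω => (α * Z ω + N ω) * (β * Z ω + N' ω)) =
      (α * β) * F μ w (fun ω => Z ω * Z ω) + α * F μ w (fun ω => N' ω * Z ω) +
        β * F μ w (fun ω => N ω * Z ω) + F μ w (fun ω => N ω * N' ω) := by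
    rw [← F_smul, ← F_smul, ← F_smul,
      ← F_add (iZZ.smul _) (iN'Z.smul _), ← F_add ((iZZ.smul _).add (iN'Z.smul _)) (iNZ.smul _),
      ← F_add (((iZZ.smul _).add (iN'Z.smul _)).add (iNZ.smul _)) iNN]
    congr 1
    funext ω
    ring
  rw [e]
  set f := F μ w (fun _ => (1 : ℂ))
  set zz := F μ w (fun ω => Z ω * Z ω)
  set a1 := F μ w (fun ω => N' ω * Z ω)
  set a2 := F μ w (fun ω => N ω * Z ω)
  set a3 := F μ w (fun ω => N ω * N' ω)
  have e2 : (α * β) * zz + α * a1 + β * a2 + a3 -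
      (α * β * zz + (α * n' + β * n) * F μ w Z + (α * c' + β * c + n * n' + cnn) * f) =
      α * (a1 - (n' * F μ w Z + c' * f)) + β * (a2 - (n * F μ w Z + c * f)) +
        (a3 - (n * F μ w N' + cnn * f)) + n * (F μ w N' - n' * f) := by ring
  rw [e2]
  refine (norm_add_le _ _).trans (add_le_add ((norm_add_le _ _).trans (add_le_add
    ((norm_add_le _ _).trans (add_le_add ?_ ?_)) h3)) ?_)
  · rw [norm_mul]
    exact mul_le_mul_of_nonneg_left h1 (norm_nonneg _)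
  · rw [norm_mul]
    exact mul_le_mul_of_nonneg_left h2 (norm_nonneg _)
  · rw [norm_mul]
    exact mul_le_mul_of_nonneg_left h4 (norm_nonneg _)

/-- linear statistic `κ Z + N` -/
theorem lin_exact {w Z N : Ω → ℂ} {κ n : ℂ} {d : ℝ} (iZ : WI μ w Z) (iN : WI μ w N)
    (h : ‖F μ w N - n * F μ w (fun _ => 1)‖ ≤ d) :
    ‖F μ w (fun ω => κ * Z ω + N ω) - (κ * F μ w Z + n * F μ w (fun _ => 1))‖ ≤ d := by
  rw [F_add (iZ.smul κ) iN, F_smul]
  have e : κ * F μ w Z + F μ w N - (κ * F μ w Z + n * F μ w (fun _ => 1)) =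
      F μ w N - n * F μ w (fun _ => 1) := by ring
  rw [e]
  exact h

variable {S : Type*} [MeasurableSpace S] {σ : Measure S}

/-- **superposition** -/
theorem int_exact {w : Ω → ℂ} {a b : S → Ω → ℂ} {P2 P1 P0 : S → ℂ} {X2 X1 : ℂ} {ε : S → ℝ}
    [SFinite μ] [SFinite σ]
    (hI : Integrable (fun p : Ω × S => w p.1 * (a p.2 p.1 * b p.2 p.1)) (μ.prod σ))
    (h2 : Integrable P2 σ) (h1 : Integrable P1 σ) (h0 : Integrable P0 σ) (hε : Integrable ε σ)
    (h : ∀ᵐ s ∂σ, ‖F μ w (fun ω => a s ω * b s ω) -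
      (P2 s * X2 + P1 s * X1 + P0 s * F μ w (fun _ => 1))‖ ≤ ε s) :
    ‖F μ w (fun ω => ∫ s, a s ω * b s ω ∂σ) -
      ((∫ s, P2 s ∂σ) * X2 + (∫ s, P1 s ∂σ) * X1 + (∫ s, P0 s ∂σ) * F μ w (fun _ => 1))‖ ≤
      ∫ s, ε s ∂σ := by
  have hF : Integrable (fun s => F μ w (fun ω => a s ω * b s ω)) σ := hI.integral_prod_right
  have j2 : Integrable (fun s => P2 s * X2) σ := h2.mul_const _
  have j1 : Integrable (fun s => P1 s * X1) σ := h1.mul_const _
  have j0 : Integrable (fun s => P0 s * F μ w (fun _ => 1)) σ := h0.mul_const _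
  have j21 : Integrable (fun s => P2 s * X2 + P1 s * X1) σ := j2.add j1
  have j210 : Integrable (fun s => P2 s * X2 + P1 s * X1 + P0 s * F μ w (fun _ => 1)) σ :=
    j21.add j0
  rw [F_int (a := fun s ω => a s ω * b s ω) hI, ← integral_mul_const, ← integral_mul_const,
    ← integral_mul_const, ← integral_add j2 j1, ← integral_add j21 j0, ← integral_sub hF j210]
  exact norm_integral_le_of_norm_le hε h

/-- **assembly of `(E')`** : `Qp`, `Qm` the two quadratic statistics, `Ln` the linear one,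
`X1 = F[Z]`, `X2 = F[Z Z]`, `G` the mean of the second derivative of the leg function -/
theorem E_asm {f fη fτ fττ X1 X2 Qp Qm Ln P2 P1 P0 M0 L1 L0 G : ℂ} {δ0 δ1 δ2 δ3 δ4 δ5 : ℝ}
    (hI : ‖fη - (Qp + Qm + Ln)‖ ≤ δ0) (hQp : ‖Qp - (P2 * X2 + P1 * X1 + P0 * f)‖ ≤ δ1)
    (hQm : ‖Qm - M0 * f‖ ≤ δ2) (hL : ‖Ln - (L1 * X1 + L0 * f)‖ ≤ δ3)
    (hX1 : ‖X1 + fτ‖ ≤ δ4) (hX2 : ‖X2 - (fττ - G * f)‖ ≤ δ5)
    (hc : P0 + M0 + L0 - P2 * G = 0) :
    ‖fη - (P2 * fττ - (P1 + L1) * fτ)‖ ≤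
      δ0 + δ1 + δ2 + δ3 + ‖P1 + L1‖ * δ4 + ‖P2‖ * δ5 := by
  have e : fη - (P2 * fττ - (P1 + L1) * fτ) =
      (fη - (Qp + Qm + Ln)) + (Qp - (P2 * X2 + P1 * X1 + P0 * f)) + (Qm - M0 * f) +
        (Ln - (L1 * X1 + L0 * f)) + (P1 + L1) * (X1 + fτ) + P2 * (X2 - (fττ - G * f)) := by
    linear_combination f * hc
  rw [e]
  refine (norm_add_le _ _).trans (add_le_add ((norm_add_le _ _).trans (add_le_add
    ((norm_add_le _ _).trans (add_le_add ((norm_add_le _ _).trans (add_le_add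
      ((norm_add_le _ _).trans (add_le_add hI hQp)) hQm)) hL)) ?_)) ?_)
  · rw [norm_mul]
    exact mul_le_mul_of_nonneg_left hX1 (norm_nonneg _)
  · rw [norm_mul]
    exact mul_le_mul_of_nonneg_left hX2 (norm_nonneg _)

/-- the same, three quadratic pieces in the minus channel etc. are summed with this -/
theorem add_err {x y a b : ℂ} {δ ε : ℝ} (h : ‖x - a‖ ≤ δ) (h' : ‖y - b‖ ≤ ε) :
    ‖(x + y) - (a + b)‖ ≤ δ + ε := by
  have e : (x + y) - (a + b) = (x - a) + (y - b) := by ring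
  rw [e]
  exact (norm_add_le _ _).trans (add_le_add h h')

theorem mul_err {x a : ℂ} {δ : ℝ} (c : ℂ) (h : ‖x - a‖ ≤ δ) : ‖c * x - c * a‖ ≤ ‖c‖ * δ := by
  rw [← mul_sub, norm_mul]
  exact mul_le_mul_of_nonneg_left h (norm_nonneg _)

/-! ### Moments -/

/-- three factors: `|F|[|A B C|] ≤ a b c K` from fourth moments normalised by the sizes -/
theorem three_le {w A B C : Ω → ℂ} {a b c K : ℝ} (ha : 0 < a) (hb : 0 < b) (hc : 0 < c)
    (hw : AEStronglyMeasurable w μ) (hA : AEStronglyMeasurable A μ)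
    (hB : AEStronglyMeasurable B μ)
    (h1 : ∫⁻ ω, ENNReal.ofReal (‖w ω‖ * ‖A ω‖ ^ 3) ∂μ ≤ ENNReal.ofReal (a ^ 3 * K))
    (h2 : ∫⁻ ω, ENNReal.ofReal (‖w ω‖ * ‖B ω‖ ^ 3) ∂μ ≤ ENNReal.ofReal (b ^ 3 * K))
    (h3 : ∫⁻ ω, ENNReal.ofReal (‖w ω‖ * ‖C ω‖ ^ 3) ∂μ ≤ ENNReal.ofReal (c ^ 3 * K)) :
    ∫⁻ ω, ENNReal.ofReal (‖w ω‖ * (‖A ω‖ * ‖B ω‖ * ‖C ω‖)) ∂μ ≤
      ENNReal.ofReal (a * b * c * K) := by
  have key : ∀ ω, ENNReal.ofReal (‖w ω‖ * (‖A ω‖ * ‖B ω‖ * ‖C ω‖)) ≤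
      ENNReal.ofReal (a * b * c / (3 * a ^ 3)) * ENNReal.ofReal (‖w ω‖ * ‖A ω‖ ^ 3) +
      ENNReal.ofReal (a * b * c / (3 * b ^ 3)) * ENNReal.ofReal (‖w ω‖ * ‖B ω‖ ^ 3) +
      ENNReal.ofReal (a * b * c / (3 * c ^ 3)) * ENNReal.ofReal (‖w ω‖ * ‖C ω‖ ^ 3) := by
    intro ω
    rw [← ENNReal.ofReal_mul (by positivity), ← ENNReal.ofReal_mul (by positivity),
      ← ENNReal.ofReal_mul (by positivity), ← ENNReal.ofReal_add (by positivity) (by positivity),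
      ← ENNReal.ofReal_add (by positivity) (by positivity)]
    apply ENNReal.ofReal_le_ofReal
    set x := ‖A ω‖ / a with hx
    set y := ‖B ω‖ / b with hy
    set z := ‖C ω‖ / c with hz
    have x0 : 0 ≤ x := by positivity
    have y0 : 0 ≤ y := by positivity
    have z0 : 0 ≤ z := by positivity
    have eA : ‖A ω‖ = a * x := by rw [hx]; field_simp
    have eB : ‖B ω‖ = b * y := by rw [hy]; field_simp
    have eC : ‖C ω‖ = c * z := by rw [hz]; field_simp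
    rw [eA, eB, eC]
    have am : x * y * z ≤ (x ^ 3 + y ^ 3 + z ^ 3) / 3 := by
      nlinarith [mul_nonneg (add_nonneg (add_nonneg x0 y0) z0)
        (add_nonneg (add_nonneg (sq_nonneg (x - y)) (sq_nonneg (y - z))) (sq_nonneg (x - z)))]
    have e1 : a * b * c / (3 * a ^ 3) * (‖w ω‖ * (a * x) ^ 3) +
        a * b * c / (3 * b ^ 3) * (‖w ω‖ * (b * y) ^ 3) +
        a * b * c / (3 * c ^ 3) * (‖w ω‖ * (c * z) ^ 3) =
        ‖w ω‖ * (a * b * c) * ((x ^ 3 + y ^ 3 + z ^ 3) / 3) := by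
      field_simp
    rw [e1]
    calc ‖w ω‖ * (a * x * (b * y) * (c * z)) = ‖w ω‖ * (a * b * c) * (x * y * z) := by ring
      _ ≤ _ := mul_le_mul_of_nonneg_left am (by positivity)
  have mw : AEMeasurable (fun ω => ‖w ω‖) μ := hw.norm.aemeasurable
  have mA : AEMeasurable (fun ω => ‖A ω‖) μ := hA.norm.aemeasurable
  have mB : AEMeasurable (fun ω => ‖B ω‖) μ := hB.norm.aemeasurable
  have m1 : AEMeasurable (fun ω => ENNReal.ofReal (a * b * c / (3 * a ^ 3)) *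
      ENNReal.ofReal (‖w ω‖ * ‖A ω‖ ^ 3)) μ :=
    ((mw.mul (mA.pow_const 3)).ennreal_ofReal).const_mul _
  have m2 : AEMeasurable (fun ω => ENNReal.ofReal (a * b * c / (3 * b ^ 3)) *
      ENNReal.ofReal (‖w ω‖ * ‖B ω‖ ^ 3)) μ :=
    ((mw.mul (mB.pow_const 3)).ennreal_ofReal).const_mul _
  have m12 : AEMeasurable (fun ω => ENNReal.ofReal (a * b * c / (3 * a ^ 3)) *
      ENNReal.ofReal (‖w ω‖ * ‖A ω‖ ^ 3) + ENNReal.ofReal (a * b * c / (3 * b ^ 3)) *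
      ENNReal.ofReal (‖w ω‖ * ‖B ω‖ ^ 3)) μ := m1.add m2
  refine (lintegral_mono key).trans ?_
  rw [lintegral_add_left' m12, lintegral_add_left' m1,
    lintegral_const_mul' _ _ ENNReal.ofReal_ne_top, lintegral_const_mul' _ _ ENNReal.ofReal_ne_top,
    lintegral_const_mul' _ _ ENNReal.ofReal_ne_top]
  calc ENNReal.ofReal (a * b * c / (3 * a ^ 3)) * ∫⁻ ω, ENNReal.ofReal (‖w ω‖ * ‖A ω‖ ^ 3) ∂μ +
        ENNReal.ofReal (a * b * c / (3 * b ^ 3)) * ∫⁻ ω, ENNReal.ofReal (‖w ω‖ * ‖B ω‖ ^ 3) ∂μ +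
        ENNReal.ofReal (a * b * c / (3 * c ^ 3)) * ∫⁻ ω, ENNReal.ofReal (‖w ω‖ * ‖C ω‖ ^ 3) ∂μ
      ≤ ENNReal.ofReal (a * b * c / (3 * a ^ 3)) * ENNReal.ofReal (a ^ 3 * K) +
        ENNReal.ofReal (a * b * c / (3 * b ^ 3)) * ENNReal.ofReal (b ^ 3 * K) +
        ENNReal.ofReal (a * b * c / (3 * c ^ 3)) * ENNReal.ofReal (c ^ 3 * K) := by
        gcongr
    _ = ENNReal.ofReal (a * b * c * K) := by
        rw [← ENNReal.ofReal_mul (by positivity), ← ENNReal.ofReal_mul (by positivity),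
          ← ENNReal.ofReal_mul (by positivity)]
        have e1 : a * b * c / (3 * a ^ 3) * (a ^ 3 * K) = a * b * c * K / 3 := by field_simp
        have e2 : a * b * c / (3 * b ^ 3) * (b ^ 3 * K) = a * b * c * K / 3 := by field_simp
        have e3 : a * b * c / (3 * c ^ 3) * (c ^ 3 * K) = a * b * c * K / 3 := by field_simp
        rw [e1, e2, e3]
        by_cases hK : 0 ≤ K
        · rw [← ENNReal.ofReal_add (by positivity) (by positivity),
            ← ENNReal.ofReal_add (by positivity) (by positivity)]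
          congr 1
          ring
        · have hK' : a * b * c * K ≤ 0 := by
            have : 0 < a * b * c := by positivity
            nlinarith [mul_pos this (by linarith : 0 < -K)]
          rw [ENNReal.ofReal_of_nonpos (by linarith : a * b * c * K / 3 ≤ 0),
            ENNReal.ofReal_of_nonpos hK']
          simp

end PBFunc
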