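import Pool.Agent.PB.InvK

/-!
# Plan B: the response of a test function is a test function (helper90)

* `fwd_plus`: `rsp (fun _ => X) s z = e z`, `e` a test function with a slightly smaller rate;
* `fwd_minus`: the same for `sg2 X` if `∫ X = 0`;
* `rsp_sub`, `rsp_smul`: linearity of `rsp` on test functions.
-/

set_option autoImplicit false

open MeasureTheory Complex Filter Topology Set

noncomputable section

namespace PBE

open NUMF

section bounds

variable {a : ℝ}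

/-- a bound from far away -/
lemma bdd_far {f : ℂ → ℂ} {C1 η : ℝ} (hη : 0 ≤ η)
    (hc : ∀ k : ℂ, |k.im| ≤ a → ContinuousAt f k)
    (h1 : ∀ k : ℂ, |k.im| ≤ a → 1 ≤ |k.re| → ‖f k‖ ≤ C1 * Real.exp (η * |k.re|)) :
    ∃ C : ℝ, 0 ≤ C ∧ ∀ k : ℂ, |k.im| ≤ a → ‖f k‖ ≤ C * Real.exp (η * |k.re|) := by
  have hK : IsCompact (Set.Icc (-1 : ℝ) 1 ×ℂ Set.Icc (-a) a) := isCompact_Icc.reProdIm isCompact_Icc
  have hcont : ContinuousOn f (Set.Icc (-1 : ℝ) 1 ×ℂ Set.Icc (-a) a) := by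
    intro k hk
    have h1 : |k.im| ≤ a := abs_le.2 (by
      have := hk.2
      simpa using this)
    exact (hc k h1).continuousWithinAt
  obtain ⟨C0, hC0⟩ := hK.exists_bound_of_continuousOn hcont
  refine ⟨|C0| + |C1|, by positivity, fun k hk => ?_⟩
  have he : 1 ≤ Real.exp (η * |k.re|) := Real.one_le_exp (by positivity)
  rcases lt_or_ge |k.re| 1 with h | h
  · have hm : k ∈ Set.Icc (-1 : ℝ) 1 ×ℂ Set.Icc (-a) a := by
      rw [mem_reProdIm]
      exact ⟨abs_le.1 h.le, abs_le.1 hk⟩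
    have h2 := hC0 k hm
    have h3 := le_abs_self C0
    have h4 : |C0| + |C1| ≤ (|C0| + |C1|) * Real.exp (η * |k.re|) :=
      le_mul_of_one_le_right (by positivity) he
    have := abs_nonneg C1
    linarith
  · refine (h1 k hk h).trans (mul_le_mul_of_nonneg_right ?_ (Real.exp_pos _).le)
    have := abs_nonneg C0
    have := le_abs_self C1
    linarith

lemma im4l_lt {k : ℂ} (hk : |k.im| < 2) : |(4 * (l : ℂ) * k).im| < Real.pi := by
  have e : (4 * (l : ℂ) * k).im = 4 * l * k.im := by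
    have e : 4 * (l : ℂ) = ((4 * l : ℝ) : ℂ) := by push_cast; ring
    rw [e, im_ofReal_mul]
  rw [e, abs_mul, abs_of_pos (by have := l_pos'; positivity : (0:ℝ) < 4 * l)]
  unfold l
  have := Real.pi_pos
  have := abs_nonneg k.im
  nlinarith

/-- the plus kernel on the transform side: `- 4 π i sinh² (3y/2) (2c - 1) / sinh 4y` -/
def MP (k : ℂ) : ℂ := -(9 / 4 * Real.pi * l * I) *
  (k * PB.dsh (3 / 2 * l * k) ^ 2 * den k / PB.dsh (4 * l * k))

/-- the minus kernel times `k`: `- 4 π i k cosh² (3y/2) (2c - 1) / sinh 4y` -/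
def MM (k : ℂ) : ℂ := -(Real.pi / l * I) * (ch3 k ^ 2 * den k / PB.dsh (4 * l * k))

lemma diff_dsh4 (k : ℂ) : DifferentiableAt ℂ (fun k : ℂ => PB.dsh (4 * l * k)) k :=
  DifferentiableAt.comp (g := PB.dsh) (f := fun k : ℂ => 4 * (l : ℂ) * k) k (diff_dsh _) (by fun_prop)

lemma diff_dsh3 (k : ℂ) : DifferentiableAt ℂ (fun k : ℂ => PB.dsh (3 / 2 * l * k)) k :=
  DifferentiableAt.comp (g := PB.dsh) (f := fun k : ℂ => 3 / 2 * (l : ℂ) * k) k (diff_dsh _)
    (by fun_prop)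

theorem diff_MP {k : ℂ} (hk : |k.im| < 2) : DifferentiableAt ℂ MP k := by
  unfold MP
  exact (((differentiableAt_id.mul ((diff_dsh3 k).pow 2)).mul (diff_den k)).div (diff_dsh4 k)
    (dsh_ne' (im4l_lt hk))).const_mul _

theorem diff_MM {k : ℂ} (hk : |k.im| < 2) : DifferentiableAt ℂ MM k := by
  unfold MM
  exact ((((diff_ch3 k).pow 2).mul (diff_den k)).div (diff_dsh4 k)
    (dsh_ne' (im4l_lt hk))).const_mul _

lemma lk_ne {k : ℂ} (h0 : k ≠ 0) : (4 * l * k : ℂ) ≠ 0 ∧ (3 / 2 * l * k : ℂ) ≠ 0 := by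
  have hl : (l : ℂ) ≠ 0 := Complex.ofReal_ne_zero.2 l_pos'.ne'
  exact ⟨mul_ne_zero (mul_ne_zero (by norm_num) hl) h0,
    mul_ne_zero (mul_ne_zero (by norm_num) hl) h0⟩

lemma sh4_ne' {k : ℂ} (hk : |k.im| < 2) (h0 : k ≠ 0) : sh4 k ≠ 0 := by
  have h3 := dsh_ne' (im4l_lt hk)
  rw [dsh_of_ne (lk_ne h0).1] at h3
  intro e
  apply h3
  unfold sh4 at e
  rw [e, zero_div]

lemma MP_eq {k : ℂ} (hk : |k.im| < 2) (h0 : k ≠ 0) :
    MP k = -(4 * Real.pi * I) * (sh3 k ^ 2 * den k / sh4 k) := by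
  have hl : (l : ℂ) ≠ 0 := Complex.ofReal_ne_zero.2 l_pos'.ne'
  have h1 := (lk_ne h0).1
  have h2 := (lk_ne h0).2
  have h6 := sh4_ne' hk h0
  unfold MP
  rw [dsh_of_ne h1, dsh_of_ne h2]
  have e1 : Complex.sinh (4 * l * k) = sh4 k := rfl
  have e2 : Complex.sinh (3 / 2 * l * k) = sh3 k := rfl
  rw [e1, e2]
  field_simp
  ring

lemma MM_eq {k : ℂ} (hk : |k.im| < 2) (h0 : k ≠ 0) :
    MM k = -(4 * Real.pi * I) * (k * (ch3 k ^ 2 * den k / sh4 k)) := by
  have hl : (l : ℂ) ≠ 0 := Complex.ofReal_ne_zero.2 l_pos'.ne'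
  have h1 := (lk_ne h0).1
  have h6 := sh4_ne' hk h0
  unfold MM
  rw [dsh_of_ne h1]
  have e1 : Complex.sinh (4 * l * k) = sh4 k := rfl
  rw [e1]
  field_simp

lemma sh4_ge {k : ℂ} (hk1 : 1 ≤ |k.re|) :
    Real.cosh (4 * l * k.re) ≤ (1 + 1 / (4 * l)) * ‖sh4 k‖ := by
  have hl := l_pos'
  have h1 : |Real.sinh (4 * l * k.re)| ≤ ‖sh4 k‖ := by
    have := norm_sinh_ge (4 * l * k)
    rwa [re_4l] at this
  have h2 : 4 * l ≤ |Real.sinh (4 * l * k.re)| := by
    rw [Real.abs_sinh, abs_mul, abs_of_pos (by positivity : (0:ℝ) < 4 * l)]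
    have h3 : 4 * l ≤ 4 * l * |k.re| := by
      have := mul_le_mul_of_nonneg_left hk1 (by positivity : (0:ℝ) ≤ 4 * l)
      linarith
    exact h3.trans (Real.self_le_sinh_iff.2 (by positivity))
  have h4 : Real.cosh (4 * l * k.re) ≤ 1 + |Real.sinh (4 * l * k.re)| := by
    rw [← Real.cosh_abs, Real.abs_sinh]
    have h5 := Real.cosh_sub_sinh |4 * l * k.re|
    have h6 : Real.exp (-|4 * l * k.re|) ≤ 1 := by
      rw [Real.exp_le_one_iff]
      have := abs_nonneg (4 * l * k.re)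
      linarith
    linarith
  have h7 : 1 ≤ 1 / (4 * l) * |Real.sinh (4 * l * k.re)| := by
    rw [div_mul_eq_mul_div, le_div_iff₀ (by positivity)]
    linarith
  calc Real.cosh (4 * l * k.re) ≤ 1 + |Real.sinh (4 * l * k.re)| := h4
    _ ≤ (1 + 1 / (4 * l)) * |Real.sinh (4 * l * k.re)| := by linarith
    _ ≤ _ := mul_le_mul_of_nonneg_left h1 (by positivity)

lemma den_up (k : ℂ) : ‖den k‖ ≤ 3 * Real.cosh (l * k.re) := by
  unfold den
  have h1 := NUMF.norm_cosh_le (l * k)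
  rw [re_lk] at h1
  have h2 := Real.one_le_cosh (l * k.re)
  refine (norm_sub_le _ _).trans ?_
  rw [norm_mul, norm_one]
  have : ‖(2 : ℂ)‖ = 2 := by simp
  rw [this]
  linarith

lemma ch3_up (k : ℂ) : ‖ch3 k‖ ≤ Real.cosh (3 / 2 * l * k.re) := by
  unfold ch3
  have h1 := NUMF.norm_cosh_le (3 / 2 * l * k)
  rwa [re_32] at h1

lemma sh3_up (k : ℂ) : ‖sh3 k‖ ≤ Real.cosh (3 / 2 * l * k.re) := by
  unfold sh3
  have h1 := PB.norm_sinh_le (3 / 2 * l * k)
  rwa [re_32] at h1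

lemma cosh_prod (x : ℝ) : Real.cosh (l * x) * Real.cosh (3 / 2 * l * x) ^ 2 ≤
    2 * Real.cosh (4 * l * x) := by
  have hl := l_pos'
  have h1 := cosh_ge_exp (4 * l * x)
  have h2 := cosh_le_exp' (l * x)
  have h3 := cosh_le_exp' (3 / 2 * l * x)
  have e1 : |4 * l * x| = 4 * (l * |x|) := by
    rw [abs_mul, abs_of_pos (by positivity : (0:ℝ) < 4 * l)]; ring
  have e2 : |l * x| = l * |x| := by rw [abs_mul, abs_of_pos hl]
  have e3 : |3 / 2 * l * x| = 3 / 2 * (l * |x|) := by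
    rw [abs_mul, abs_of_pos (by positivity : (0:ℝ) < 3 / 2 * l)]; ring
  rw [e1] at h1
  rw [e2] at h2
  rw [e3] at h3
  set u := l * |x|
  have h4 : Real.cosh (3 / 2 * l * x) ^ 2 ≤ Real.exp (3 / 2 * u) ^ 2 :=
    pow_le_pow_left₀ (Real.cosh_pos _).le h3 2
  have h5 : Real.cosh (l * x) * Real.cosh (3 / 2 * l * x) ^ 2 ≤
      Real.exp u * Real.exp (3 / 2 * u) ^ 2 :=
    mul_le_mul h2 h4 (by positivity) (Real.exp_pos _).le
  have e5 : Real.exp u * Real.exp (3 / 2 * u) ^ 2 = Real.exp (4 * u) := by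
    rw [← Real.exp_nat_mul, ← Real.exp_add]
    congr 1
    push_cast
    ring
  rw [e5] at h5
  linarith

theorem MP_le (ha' : a < 2) {η : ℝ} (hη : 0 < η) :
    ∃ C : ℝ, 0 ≤ C ∧ ∀ k : ℂ, |k.im| ≤ a → ‖MP k‖ ≤ C * Real.exp (η * |k.re|) := by
  have hl := l_pos'
  have hpi := Real.pi_pos
  refine bdd_far (C1 := 4 * Real.pi * (6 * (1 + 1 / (4 * l)))) hη.le
    (fun k hk => (diff_MP (hk.trans_lt ha')).continuousAt) (fun k hk h => ?_)
  have hk0 : k ≠ 0 := by
    intro e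
    rw [e] at h
    simp at h
    linarith
  have he : 1 ≤ Real.exp (η * |k.re|) := Real.one_le_exp (by positivity)
  have hs := norm_pos_iff.2 (sh4_ne' (hk.trans_lt ha') hk0)
  rw [MP_eq (hk.trans_lt ha') hk0, norm_mul, norm_div, norm_mul, norm_pow]
  have e : ‖(-(4 * Real.pi * I) : ℂ)‖ = 4 * Real.pi := by
    simp [abs_of_pos Real.pi_pos]
  rw [e]
  have h1 := sh3_up k
  have h2 := den_up k
  have h3 := sh4_ge h
  have h4 := cosh_prod k.re
  have h5 : ‖sh3 k‖ ^ 2 * ‖den k‖ ≤ 6 * (1 + 1 / (4 * l)) * ‖sh4 k‖ := by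
    calc ‖sh3 k‖ ^ 2 * ‖den k‖ ≤ Real.cosh (3 / 2 * l * k.re) ^ 2 * (3 * Real.cosh (l * k.re)) :=
          mul_le_mul (pow_le_pow_left₀ (norm_nonneg _) h1 2) h2 (norm_nonneg _) (by positivity)
      _ = 3 * (Real.cosh (l * k.re) * Real.cosh (3 / 2 * l * k.re) ^ 2) := by ring
      _ ≤ 3 * (2 * Real.cosh (4 * l * k.re)) := by linarith
      _ ≤ 3 * (2 * ((1 + 1 / (4 * l)) * ‖sh4 k‖)) := by linarith
      _ = _ := by ring
  have h6 : ‖sh3 k‖ ^ 2 * ‖den k‖ / ‖sh4 k‖ ≤ 6 * (1 + 1 / (4 * l)) := by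
    rw [div_le_iff₀ hs]
    exact h5
  calc 4 * Real.pi * (‖sh3 k‖ ^ 2 * ‖den k‖ / ‖sh4 k‖) ≤ 4 * Real.pi * (6 * (1 + 1 / (4 * l))) :=
        mul_le_mul_of_nonneg_left h6 (by positivity)
    _ ≤ _ := le_mul_of_one_le_right (by positivity) he

theorem MM_le (ha : 0 ≤ a) (ha' : a < 2) {η : ℝ} (hη : 0 < η) :
    ∃ C : ℝ, 0 ≤ C ∧ ∀ k : ℂ, |k.im| ≤ a → ‖MM k‖ ≤ C * Real.exp (η * |k.re|) := by
  have hl := l_pos'
  have hpi := Real.pi_pos
  refine bdd_far (C1 := 4 * Real.pi * ((1 / η + a) * (6 * (1 + 1 / (4 * l))))) hη.le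
    (fun k hk => (diff_MM (hk.trans_lt ha')).continuousAt) (fun k hk h => ?_)
  have hk0 : k ≠ 0 := by
    intro e
    rw [e] at h
    simp at h
    linarith
  have he : 1 ≤ Real.exp (η * |k.re|) := Real.one_le_exp (by positivity)
  have hs := norm_pos_iff.2 (sh4_ne' (hk.trans_lt ha') hk0)
  rw [MM_eq (hk.trans_lt ha') hk0, norm_mul, norm_mul, norm_div, norm_mul, norm_pow]
  have e : ‖(-(4 * Real.pi * I) : ℂ)‖ = 4 * Real.pi := by
    simp [abs_of_pos Real.pi_pos]
  rw [e]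
  have h1 := ch3_up k
  have h2 := den_up k
  have h3 := sh4_ge h
  have h4 := cosh_prod k.re
  have h5 : ‖ch3 k‖ ^ 2 * ‖den k‖ ≤ 6 * (1 + 1 / (4 * l)) * ‖sh4 k‖ := by
    calc ‖ch3 k‖ ^ 2 * ‖den k‖ ≤ Real.cosh (3 / 2 * l * k.re) ^ 2 * (3 * Real.cosh (l * k.re)) :=
          mul_le_mul (pow_le_pow_left₀ (norm_nonneg _) h1 2) h2 (norm_nonneg _) (by positivity)
      _ = 3 * (Real.cosh (l * k.re) * Real.cosh (3 / 2 * l * k.re) ^ 2) := by ring
      _ ≤ 3 * (2 * Real.cosh (4 * l * k.re)) := by linarith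
      _ ≤ 3 * (2 * ((1 + 1 / (4 * l)) * ‖sh4 k‖)) := by linarith
      _ = _ := by ring
  have h6 : ‖ch3 k‖ ^ 2 * ‖den k‖ / ‖sh4 k‖ ≤ 6 * (1 + 1 / (4 * l)) := by
    rw [div_le_iff₀ hs]
    exact h5
  have h8 : ‖k‖ ≤ (1 / η + a) * Real.exp (η * |k.re|) := by
    have h9 : ‖k‖ ≤ |k.re| + |k.im| := Complex.norm_le_abs_re_add_abs_im k
    have h10 : |k.re| ≤ 1 / η * Real.exp (η * |k.re|) := by
      have := Real.add_one_le_exp (η * |k.re|)
      rw [one_div, inv_mul_eq_div, le_div_iff₀ hη]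
      linarith
    nlinarith
  calc 4 * Real.pi * (‖k‖ * (‖ch3 k‖ ^ 2 * ‖den k‖ / ‖sh4 k‖))
      ≤ 4 * Real.pi * (((1 / η + a) * Real.exp (η * |k.re|)) * (6 * (1 + 1 / (4 * l)))) := by
        refine mul_le_mul_of_nonneg_left ?_ (by positivity)
        exact mul_le_mul h8 h6 (by positivity) (by positivity)
    _ = _ := by ring

end bounds

section fwd

variable {b κ : ℝ}

/-- a test function is the field of its transform -/
lemma fld_tr {y₁ y₂ a M : ℝ} {g : ℂ → ℂ} (hg : TC y₁ y₂ a M g) (ha : 0 < a) (h1 : y₁ < 0)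
    (h2 : 0 < y₂) {z : ℂ} (hz : z ∈ Sp y₁ y₂) : fld (tr g) z = g z :=
  (tr_inv hg ha h1 h2 hz).2.symm

/-- the response depends on the germs only -/
lemma rsp_congr {X Y : Bool → ℂ → ℂ} {b : ℝ} (h : ∀ s (z : ℂ), |z.im| < b → X s z = Y s z) {z : ℂ}
    (hz : |z.im| < b) (s : Bool) : PB.rsp X s z = PB.rsp Y s z := by
  have hopen : IsOpen {k : ℂ | |k.im| < b} := isOpen_lt (by fun_prop) continuous_const
  have hd : ∀ s (w : ℂ), |w.im| < b → deriv (X s) w = deriv (Y s) w := by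
    intro s w hw
    refine Filter.EventuallyEq.deriv_eq ?_
    filter_upwards [hopen.mem_nhds hw] with v hv
    exact h s v hv
  have him : ∀ u : ℝ, |(z - (u : ℂ)).im| < b := fun u => by simpa using hz
  unfold PB.rsp PB.cV PB.cG
  congr 2
  · exact integral_congr_ae (Eventually.of_forall fun u => by simp only [hd s _ (him u)])
  · exact integral_congr_ae (Eventually.of_forall fun u => by
      simp only [h s _ (him u), h (!s) _ (him u)])

/-- bound of `dslope (tr g) 0` in a strip -/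
lemma dsl_strip {y₁ y₂ a a₁ y0 : ℝ} (h1 : y₁ < 0) (h2 : 0 < y₂) (ha10 : 0 < a₁)
    (ha1 : a₁ < a) (hy0 : 0 ≤ y0) (hy1 : y₁ < -y0) (hy2 : y0 < y₂) :
    ∃ C : ℝ, 0 ≤ C ∧ ∀ M g, TC y₁ y₂ a M g → mass g = 0 →
      DifferentiableOn ℂ (dslope (tr g) 0) {k : ℂ | |k.im| < a} ∧
      (∀ k : ℂ, k ≠ 0 → dslope (tr g) 0 k = tr g k / k) ∧
      ∀ k : ℂ, |k.im| ≤ a₁ → ‖dslope (tr g) 0 k‖ ≤ C * M * Real.exp (-(y0 * |k.re|)) := by
  have haa : 0 < a - a₁ := by linarith
  set C2 := 2 * (2 / (a - a₁)) / a₁ * Real.exp (y0 * a₁) with hC2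
  have hC20 : 0 ≤ C2 := by positivity
  refine ⟨C2, hC20, fun M g hg hm => ?_⟩
  have hM := hg.nonneg h1 h2
  have htr0 : tr g 0 = 0 := by rw [tr_zero, hm]
  have hopen : IsOpen {k : ℂ | |k.im| < a} := isOpen_lt (by fun_prop) continuous_const
  have hds : DifferentiableOn ℂ (dslope (tr g) 0) {k : ℂ | |k.im| < a} :=
    (Complex.differentiableOn_dslope (hopen.mem_nhds (by simp; linarith))).2 (tr_diff hg h1 h2)
  have hslope : ∀ k : ℂ, k ≠ 0 → dslope (tr g) 0 k = tr g k / k := by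
    intro k hk
    rw [dslope_of_ne _ hk, slope_def_field, htr0, sub_zero, sub_zero]
  refine ⟨hds, hslope, fun k hk => ?_⟩
  rcases lt_or_ge ‖k‖ a₁ with h | h
  · have h3 : ‖dslope (tr g) 0 k‖ ≤ (M * (2 / (a - a₁))) / a₁ := by
      refine Complex.norm_dslope_le_div_of_mapsTo_ball
        ((tr_diff hg h1 h2).mono ?_) ?_ (by simpa using h)
      · intro w hw
        have h4 : ‖w‖ < a₁ := by simpa using hw
        have h5 := abs_im_le_norm w
        show |w.im| < a
        linarith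
      · intro w hw
        have h4 : ‖w‖ < a₁ := by simpa using hw
        have h5 := abs_im_le_norm w
        rw [htr0, mem_closedBall_zero_iff]
        have h6 := tr_strip hg h1 h2 ha1 hy1 hy2 (k := w) (by linarith)
        refine h6.trans (mul_le_of_le_one_right (by positivity) ?_)
        rw [Real.exp_le_one_iff]
        have := mul_nonneg hy0 (abs_nonneg w.re)
        linarith
    have h7 : 1 ≤ Real.exp (y0 * a₁) * Real.exp (-(y0 * |k.re|)) := by
      rw [← Real.exp_add]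
      refine Real.one_le_exp ?_
      have h8 := abs_re_le_norm k
      nlinarith
    calc ‖dslope (tr g) 0 k‖ ≤ (M * (2 / (a - a₁))) / a₁ := h3
      _ ≤ 2 * ((M * (2 / (a - a₁))) / a₁) * 1 := by
          have : 0 ≤ (M * (2 / (a - a₁))) / a₁ := by positivity
          linarith
      _ ≤ 2 * ((M * (2 / (a - a₁))) / a₁) * (Real.exp (y0 * a₁) * Real.exp (-(y0 * |k.re|))) :=
          mul_le_mul_of_nonneg_left h7 (by positivity)
      _ = _ := by rw [hC2]; ring
  · have hk0 : k ≠ 0 := by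
      intro e
      rw [e, norm_zero] at h
      linarith
    rw [hslope k hk0, norm_div]
    have h6 := tr_strip hg h1 h2 ha1 hy1 hy2 hk
    have hkn : 0 < ‖k‖ := by linarith
    have h7 : 1 ≤ Real.exp (y0 * a₁) := Real.one_le_exp (by positivity)
    calc ‖tr g k‖ / ‖k‖ ≤ (M * (2 / (a - a₁)) * Real.exp (-(y0 * |k.re|))) / a₁ :=
          div_le_div₀ (by positivity) h6 ha10 h
      _ = (1 * 1) * ((M * (2 / (a - a₁)) * Real.exp (-(y0 * |k.re|))) / a₁) := by ring
      _ ≤ (2 * Real.exp (y0 * a₁)) * ((M * (2 / (a - a₁)) * Real.exp (-(y0 * |k.re|))) / a₁) := by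
          refine mul_le_mul_of_nonneg_right ?_ (by positivity)
          exact mul_le_mul (by norm_num) h7 (by norm_num) (by norm_num)
      _ = _ := by rw [hC2]; ring

/-- **the response of a test function, plus channel** -/
theorem fwd_plus {κ' b' : ℝ} (hκ2 : κ < 2) (hκ0 : 0 ≤ κ') (hκ : κ' < κ) (hb' : 0 < b')
    (hb : b' < b) :
    ∃ C : ℝ, 0 ≤ C ∧ ∀ M X, TC (-b) b κ M X → ∃ e : ℂ → ℂ, TC (-b') b' κ' (C * M) e ∧
      ∀ z : ℂ, |z.im| < b' → ∀ s : Bool, PB.rsp (fun _ => X) s z = e z := by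
  have h1 : -b < 0 := by linarith
  have h2 : 0 < b := by linarith
  obtain ⟨y0, hy0⟩ : ∃ y0 : ℝ, y0 = (2 * b + b') / 3 := ⟨_, rfl⟩
  obtain ⟨b₁, hb₁⟩ : ∃ b₁ : ℝ, b₁ = (b + 2 * b') / 3 := ⟨_, rfl⟩
  obtain ⟨η, hη⟩ : ∃ η : ℝ, η = y0 - b₁ := ⟨_, rfl⟩
  have hη0 : 0 < η := by linarith
  obtain ⟨a₁, ha₁⟩ : ∃ a₁ : ℝ, a₁ = (κ' + κ) / 2 := ⟨_, rfl⟩
  have hκ1 : κ' < a₁ := by linarith
  have ha1 : a₁ < κ := by linarith
  have ha10 : 0 < a₁ := by linarith
  have haa : 0 < κ - a₁ := by linarith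
  have hbb : 0 < b₁ - b' := by linarith
  obtain ⟨CW, hCW0, hCW⟩ := MP_le (a := a₁) (by linarith) hη0
  have hpi := Real.pi_pos
  refine ⟨CW * (2 / (κ - a₁)) * (2 / (b₁ - b')) / (2 * Real.pi), by positivity, fun M X hX => ?_⟩
  have hM := hX.nonneg h1 h2
  -- the transform
  have hTr : TC (-a₁) a₁ y0 (2 / (κ - a₁) * M) (tr X) := by
    constructor
    · exact (tr_diff hX h1 h2).mono fun k hk => by
        have : |k.im| < a₁ := abs_lt.2 hk
        show |k.im| < κ
        linarith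
    · intro k hk
      have := tr_strip hX h1 h2 ha1 (y0 := y0) (by linarith) (by linarith) (abs_lt.2 hk).le
      refine this.trans (le_of_eq ?_)
      ring
  set B : ℂ → ℂ := fun k => MP k * tr X k with hB
  have hTC : TC (-a₁) a₁ b₁ (CW * (2 / (κ - a₁)) * M) B := by
    constructor
    · intro k hk
      have hk' : |k.im| < a₁ := abs_lt.2 hk
      have hopen : IsOpen (Sp (-a₁) a₁) := isOpen_Sp _ _
      exact ((diff_MP (by linarith)).mul
        (hTr.an.differentiableAt (hopen.mem_nhds hk))).differentiableWithinAt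
    · intro k hk
      have hk' : |k.im| < a₁ := abs_lt.2 hk
      have h5 := hCW k hk'.le
      have h6 := hTr.bd k hk
      simp only [hB]
      rw [norm_mul]
      calc ‖MP k‖ * ‖tr X k‖ ≤ (CW * Real.exp (η * |k.re|)) *
            (2 / (κ - a₁) * M * Real.exp (-(y0 * |k.re|))) :=
            mul_le_mul h5 h6 (norm_nonneg _) (by positivity)
        _ = CW * (2 / (κ - a₁)) * M * (Real.exp (η * |k.re|) * Real.exp (-(y0 * |k.re|))) := by ring
        _ = _ := by
            rw [← Real.exp_add]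
            congr 2
            rw [hη]
            ring
  refine ⟨fld B, ?_, fun z hz s => ?_⟩
  · have := fld_TC hTC ha10 hκ0 hκ1 (b' := b') (by linarith)
    refine this.mono (le_of_eq ?_)
    ring
  · have hzy : |z.im| < y0 := by linarith
    have e1 : PB.rsp (fun _ => X) s z = PB.rsp (fun _ => fld (tr X)) s z :=
      rsp_congr (b := b) (fun s w hw => (fld_tr hX (by linarith) h1 h2 (abs_lt.1 hw)).symm)
        (by linarith) s
    rw [e1, rsp_fld_plus hTr ha10 hzy s]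
    have hi := (int_kB hTC ha10 (z := z) (by linarith)).1
    unfold fld
    rw [split_half hi, ← integral_const_mul]
    refine setIntegral_congr_fun measurableSet_Ioi fun k hk => ?_
    have hk' : 0 < k := hk
    have hkc : (k : ℂ) ≠ 0 := Complex.ofReal_ne_zero.2 hk'.ne'
    have hs4 := sh4_ne hk'
    have hpi := pi_ne
    have e2 : cexp (I * ((-k : ℝ) : ℂ) * z) = cexp (-(I * k * z)) := by
      congr 1
      push_cast
      ring
    simp only [hB]
    rw [e2]
    push_cast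
    rw [MP_eq (by simp) hkc, MP_eq (by simp) (neg_ne_zero.2 hkc), sh4_neg, sh3_neg, den_neg, sP_eq hk']
    field_simp
    ring

/-- **the response of a test function, minus channel** -/
theorem fwd_minus {κ' b' : ℝ} (hκ2 : κ < 2) (hκ0 : 0 ≤ κ') (hκ : κ' < κ) (hb' : 0 < b')
    (hb : b' < b) :
    ∃ C : ℝ, 0 ≤ C ∧ ∀ M X, TC (-b) b κ M X → mass X = 0 → ∃ e : ℂ → ℂ,
      TC (-b') b' κ' (C * M) e ∧
      ∀ z : ℂ, |z.im| < b' → ∀ s : Bool, PB.rsp (fun s => sg2 X s) s z = sg2 e s z := by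
  have h1 : -b < 0 := by linarith
  have h2 : 0 < b := by linarith
  obtain ⟨y0, hy0⟩ : ∃ y0 : ℝ, y0 = (2 * b + b') / 3 := ⟨_, rfl⟩
  obtain ⟨b₁, hb₁⟩ : ∃ b₁ : ℝ, b₁ = (b + 2 * b') / 3 := ⟨_, rfl⟩
  obtain ⟨η, hη⟩ : ∃ η : ℝ, η = y0 - b₁ := ⟨_, rfl⟩
  have hη0 : 0 < η := by linarith
  obtain ⟨a₁, ha₁⟩ : ∃ a₁ : ℝ, a₁ = (κ' + κ) / 2 := ⟨_, rfl⟩
  have hκ1 : κ' < a₁ := by linarith
  have ha1 : a₁ < κ := by linarith
  have ha10 : 0 < a₁ := by linarith
  have haa : 0 < κ - a₁ := by linarith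
  have hbb : 0 < b₁ - b' := by linarith
  obtain ⟨CW, hCW0, hCW⟩ := MM_le (a := a₁) ha10.le (by linarith) hη0
  obtain ⟨CD, hCD0, hCD⟩ := dsl_strip h1 h2 ha10 ha1 (by linarith : 0 ≤ y0) (by linarith)
    (by linarith)
  have hpi := Real.pi_pos
  refine ⟨CW * CD * (2 / (b₁ - b')) / (2 * Real.pi), by positivity, fun M X hX hm => ?_⟩
  have hM := hX.nonneg h1 h2
  obtain ⟨hds, hslope, hbd⟩ := hCD M X hX hm
  have hTr : TC (-a₁) a₁ y0 (2 / (κ - a₁) * M) (tr X) := by
    constructor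
    · exact (tr_diff hX h1 h2).mono fun k hk => by
        have : |k.im| < a₁ := abs_lt.2 hk
        show |k.im| < κ
        linarith
    · intro k hk
      have := tr_strip hX h1 h2 ha1 (y0 := y0) (by linarith) (by linarith) (abs_lt.2 hk).le
      refine this.trans (le_of_eq ?_)
      ring
  have hopen : IsOpen {k : ℂ | |k.im| < κ} := isOpen_lt (by fun_prop) continuous_const
  set B : ℂ → ℂ := fun k => MM k * dslope (tr X) 0 k with hB
  have hTC : TC (-a₁) a₁ b₁ (CW * CD * M) B := by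
    constructor
    · intro k hk
      have hk' : |k.im| < a₁ := abs_lt.2 hk
      exact ((diff_MM (by linarith)).mul
        (hds.differentiableAt (hopen.mem_nhds (by
          show |k.im| < κ
          linarith)))).differentiableWithinAt
    · intro k hk
      have hk' : |k.im| < a₁ := abs_lt.2 hk
      have h5 := hCW k hk'.le
      have h6 := hbd k hk'.le
      simp only [hB]
      rw [norm_mul]
      calc ‖MM k‖ * ‖dslope (tr X) 0 k‖ ≤ (CW * Real.exp (η * |k.re|)) *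
            (CD * M * Real.exp (-(y0 * |k.re|))) :=
            mul_le_mul h5 h6 (norm_nonneg _) (by positivity)
        _ = CW * CD * M * (Real.exp (η * |k.re|) * Real.exp (-(y0 * |k.re|))) := by ring
        _ = _ := by
            rw [← Real.exp_add]
            congr 2
            rw [hη]
            ring
  refine ⟨fld B, ?_, fun z hz s => ?_⟩
  · have := fld_TC hTC ha10 hκ0 hκ1 (b' := b') (by linarith)
    refine this.mono (le_of_eq ?_)
    ring
  · have hzy : |z.im| < y0 := by linarith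
    have e1 : PB.rsp (fun s => sg2 X s) s z = PB.rsp (fun s => sg2 (fld (tr X)) s) s z :=
      rsp_congr (b := b) (fun s w hw => by
        unfold sg2
        rw [fld_tr hX (by linarith) h1 h2 (abs_lt.1 hw)]) (by linarith) s
    rw [e1, rsp_fld_minus hTr ha10 hzy s]
    have hi := (int_kB hTC ha10 (z := z) (by linarith)).1
    have e4 : ∫ k in Ioi (0:ℝ), -I * sM k * (tr X k * cexp (I * k * z) -
        tr X (-k) * cexp (-(I * k * z))) = fld B z := by
      unfold fld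
      rw [split_half hi, ← integral_const_mul]
      refine setIntegral_congr_fun measurableSet_Ioi fun k hk => ?_
      have hk' : 0 < k := hk
      have hkc : (k : ℂ) ≠ 0 := Complex.ofReal_ne_zero.2 hk'.ne'
      have hs4 := sh4_ne hk'
      have hpi := pi_ne
      have e2 : cexp (I * ((-k : ℝ) : ℂ) * z) = cexp (-(I * k * z)) := by
        congr 1
        push_cast
        ring
      simp only [hB]
      rw [e2]
      push_cast
      rw [hslope _ hkc, hslope _ (neg_ne_zero.2 hkc), MM_eq (by simp) hkc,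
        MM_eq (by simp) (neg_ne_zero.2 hkc), sh4_neg, ch3_neg, den_neg, sM_eq hk']
      field_simp
      ring
    cases s
    · exact e4
    · exact congrArg Neg.neg e4

end fwd

section lin

variable {b κ : ℝ}

lemma TC.dAt {y₁ y₂ a M : ℝ} {g : ℂ → ℂ} (hg : TC y₁ y₂ a M g) {z : ℂ} (hz : z ∈ Sp y₁ y₂) :
    DifferentiableAt ℂ g z := hg.an.differentiableAt ((isOpen_Sp y₁ y₂).mem_nhds hz)

lemma sub_im_lt {z : ℂ} (hz : |z.im| < b) (u : ℝ) : |(z - (u : ℂ)).im| < b := by simpa using hz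

lemma int_dV {M : ℝ} {X : ℂ → ℂ} (hX : TC (-b) b κ M X) (hκ : 0 ≤ κ) {z : ℂ} (hz : |z.im| < b) :
    Integrable fun u : ℝ => deriv X (z - u) * (V u : ℂ) := by
  have hb : 0 < b := lt_of_le_of_lt (abs_nonneg _) hz
  have hM := hX.nonneg (by linarith) hb
  have hd : ∀ w : ℂ, |w.im| < b → DifferentiableAt ℂ X w := fun w hw => hX.dAt (abs_lt.1 hw)
  have hbd : ∀ w : ℂ, |w.im| < b → ‖X w‖ ≤ M * Real.exp (-(κ * |w.re|)) :=
    fun w hw => hX.bd w (abs_lt.1 hw)
  set D := M * Real.exp (κ * ((b - |z.im|) / 2)) / ((b - |z.im|) / 2) with hD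
  have hbz : 0 < b - |z.im| := by linarith
  have hD0 : 0 ≤ D := by positivity
  have h1 : ∀ u : ℝ, ‖deriv X (z - u)‖ ≤ D := by
    intro u
    have h2 := PB.strip_deriv (b0 := |z.im|) hz hκ hM hd hbd (z := z - u) (by simp)
    refine h2.trans (mul_le_of_le_one_right hD0 ?_)
    rw [Real.exp_le_one_iff]
    have := mul_nonneg hκ (abs_nonneg (z - (u : ℂ)).re)
    linarith
  have hc : Continuous fun u : ℝ => deriv X (z - u) := by
    rw [continuous_iff_continuousAt]
    intro u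
    have h3 : DifferentiableOn ℂ X {w : ℂ | |w.im| < b} := fun w hw => (hd w hw).differentiableWithinAt
    have hopen : IsOpen {k : ℂ | |k.im| < b} := isOpen_lt (by fun_prop) continuous_const
    have h4 := ((h3.deriv hopen).differentiableAt (hopen.mem_nhds (sub_im_lt hz u))).continuousAt
    exact ContinuousAt.comp (f := fun u : ℝ => z - (u : ℂ)) h4 (by fun_prop)
  have hV : Integrable fun u => (V u : ℂ) := V_integral.1.ofReal
  refine (hV.norm.const_mul D).mono' (hc.aestronglyMeasurable.mul hV.aestronglyMeasurable)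
    (Eventually.of_forall fun u => ?_)
  rw [norm_mul]
  exact mul_le_mul_of_nonneg_right (h1 u) (norm_nonneg _)

lemma int_XG {M : ℝ} {X : ℂ → ℂ} (hX : TC (-b) b κ M X) (hκ : 0 < κ) {z : ℂ} (hz : |z.im| < b) :
    Integrable fun u : ℝ => X (z - u) * (Pool.Agent.PB.Kg u : ℂ) := by
  obtain ⟨i1, -⟩ := conv_exp hX hκ hz 0
  have e : (fun u : ℝ => X (z - u) * cexp (I * ((0 : ℝ) : ℂ) * u)) = fun u : ℝ => X (z - u) := by
    funext u
    simp
  rw [e] at i1
  refine (i1.norm.const_mul 9).mono' (i1.aestronglyMeasurable.mul PB.Kg_meas.aestronglyMeasurable)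
    (Eventually.of_forall fun u => ?_)
  rw [norm_mul, Complex.norm_real, Real.norm_eq_abs]
  have := PB.abs_Kg_le u
  have := norm_nonneg (X (z - u))
  nlinarith

/-- **linearity of the response** -/
theorem rsp_sub {X Y : Bool → ℂ → ℂ} {M M' : ℝ} (hX : ∀ s, TC (-b) b κ M (X s))
    (hY : ∀ s, TC (-b) b κ M' (Y s)) (hκ : 0 < κ) {z : ℂ} (hz : |z.im| < b) (s : Bool) :
    PB.rsp (fun s w => X s w - Y s w) s z = PB.rsp X s z - PB.rsp Y s z := by
  have e1 : PB.cV (deriv fun w => X s w - Y s w) z = PB.cV (deriv (X s)) z - PB.cV (deriv (Y s)) z := by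
    unfold PB.cV
    rw [← integral_sub (int_dV (hX s) hκ.le hz) (int_dV (hY s) hκ.le hz)]
    refine integral_congr_ae (Eventually.of_forall fun u => ?_)
    simp only []
    rw [deriv_fun_sub ((hX s).dAt (abs_lt.1 (sub_im_lt hz u)))
      ((hY s).dAt (abs_lt.1 (sub_im_lt hz u)))]
    ring
  have e2 : PB.cG (fun w => (X s w - Y s w) - (X (!s) w - Y (!s) w)) z =
      PB.cG (fun w => X s w - X (!s) w) z - PB.cG (fun w => Y s w - Y (!s) w) z := by
    have i1 : Integrable fun u : ℝ => (X s (z - u) - X (!s) (z - u)) *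
        (Pool.Agent.PB.Kg u : ℂ) := by
      refine ((int_XG (hX s) hκ hz).sub (int_XG (hX (!s)) hκ hz)).congr
        (Eventually.of_forall fun u => ?_)
      simp only [Pi.sub_apply]
      ring
    have i2 : Integrable fun u : ℝ => (Y s (z - u) - Y (!s) (z - u)) *
        (Pool.Agent.PB.Kg u : ℂ) := by
      refine ((int_XG (hY s) hκ hz).sub (int_XG (hY (!s)) hκ hz)).congr
        (Eventually.of_forall fun u => ?_)
      simp only [Pi.sub_apply]
      ring
    unfold PB.cG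
    rw [← integral_sub i1 i2]
    refine integral_congr_ae (Eventually.of_forall fun u => ?_)
    simp only []
    ring
  unfold PB.rsp
  rw [e1, e2]
  ring

/-- scalars -/
theorem rsp_smul (X : Bool → ℂ → ℂ) (c : ℂ) (s : Bool) (z : ℂ) :
    PB.rsp (fun s w => c * X s w) s z = c * PB.rsp X s z := by
  have e1 : PB.cV (deriv fun w => c * X s w) z = c * PB.cV (deriv (X s)) z := by
    unfold PB.cV
    rw [← integral_const_mul]
    refine integral_congr_ae (Eventually.of_forall fun u => ?_)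
    simp only []
    rw [deriv_const_mul_field]
    ring
  have e2 : PB.cG (fun w => c * X s w - c * X (!s) w) z = c * PB.cG (fun w => X s w - X (!s) w) z := by
    unfold PB.cG
    rw [← integral_const_mul]
    refine integral_congr_ae (Eventually.of_forall fun u => ?_)
    simp only []
    ring
  unfold PB.rsp
  rw [e1, e2]
  ring

/-- translations -/
theorem rsp_shift (X : Bool → ℂ → ℂ) (c : ℂ) (s : Bool) (z : ℂ) :
    PB.rsp (fun s w => X s (w - c)) s z = PB.rsp X s (z - c) := by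
  have e1 : PB.cV (deriv fun w => X s (w - c)) z = PB.cV (deriv (X s)) (z - c) := by
    unfold PB.cV
    refine integral_congr_ae (Eventually.of_forall fun u => ?_)
    simp only []
    rw [deriv_comp_sub_const]
    congr 2
    ring
  have e2 : PB.cG (fun w => X s (w - c) - X (!s) (w - c)) z =
      PB.cG (fun w => X s w - X (!s) w) (z - c) := by
    unfold PB.cG
    refine integral_congr_ae (Eventually.of_forall fun u => ?_)
    simp only []
    rw [sub_right_comm]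
  unfold PB.rsp
  rw [e1, e2]

end lin

end PBE
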