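import Mathlib

/-!
# Two constants theorems with explicit exponents

* `PBT.three_circles`: the three circles theorem, values in a normed space, any centre;
* `PBT.rect_two_sides`: a rectangle, `≤ δ` on the two vertical sides, crude bound `M` on the two
  horizontal sides, height `h`: the loss is `(M/δ) ^ (cos (α (x-m)) cosh (α y) / (cos (α w/2) cosh (α h)))`;
* `PBT.rect_one_side`: `≤ δ` only on one vertical side (`δ^(1-t) M^t` and the same loss);
* `PBT.pinch`: a family `Φ N`, derivative `O(N^{-b₁})`, `b₁ < b`, on every `|Re x| ≤ r`, `r < l`,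
  crude bound `O(N^K)` up to `|Re x| < ρ`, `ρ > l` (both for `|Im x| < Y` only): then
  `‖Φ N l - Φ N 0‖ = O(N^{-b'})` for every `b' < b`.
-/

set_option linter.unusedSectionVars false
set_option linter.unusedVariables false

open Complex Set Metric Filter Topology

noncomputable section

namespace PBT

variable {E : Type*} [NormedAddCommGroup E] [NormedSpace ℂ E]

/-! ## 1. Three circles -/

theorem three_circles {f : ℂ → E} {c : ℂ} {r R : ℝ} (hr : 0 < r) (hrR : r < R)
    (hf : DiffContOnCl ℂ f (ball c R)) {A B : ℝ}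
    (hA : ∀ z : ℂ, ‖z - c‖ = r → ‖f z‖ ≤ A) (hB : ∀ z : ℂ, ‖z - c‖ = R → ‖f z‖ ≤ B) {z : ℂ}
    (h1 : r ≤ ‖z - c‖) (h2 : ‖z - c‖ ≤ R) :
    ‖f z‖ ≤ A ^ (1 - Real.log (‖z - c‖ / r) / Real.log (R / r)) *
      B ^ (Real.log (‖z - c‖ / r) / Real.log (R / r)) := by
  have hR : 0 < R := hr.trans hrR
  have hz0 : 0 < ‖z - c‖ := lt_of_lt_of_le hr h1
  have hzne : z - c ≠ 0 := norm_pos_iff.1 hz0
  set g : ℂ → E := fun w => f (c + Complex.exp w) with hg
  have hlog : Real.log r < Real.log R := Real.log_lt_log hr hrR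
  have hexp : ∀ w : ℂ, ‖(c + Complex.exp w) - c‖ = Real.exp w.re := by
    intro w
    rw [add_sub_cancel_left, Complex.norm_exp]
  have hmaps : MapsTo (fun w : ℂ => c + Complex.exp w)
      (HadamardThreeLines.verticalStrip (Real.log r) (Real.log R)) (ball c R) := by
    intro w hw
    rw [mem_ball, dist_eq_norm, hexp w]
    have : w.re < Real.log R := hw.2
    calc Real.exp w.re < Real.exp (Real.log R) := Real.exp_lt_exp.2 this
      _ = R := Real.exp_log hR
  have hgd : DiffContOnCl ℂ g (HadamardThreeLines.verticalStrip (Real.log r) (Real.log R)) := by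
    have hd : Differentiable ℂ (fun w : ℂ => c + Complex.exp w) :=
      (differentiable_const c).add Complex.differentiable_exp
    exact hf.comp hd.diffContOnCl hmaps
  have hcont : ContinuousOn f (closedBall c R) := by
    have := hf.2
    rwa [closure_ball c hR.ne'] at this
  have hbdd : BddAbove ((norm ∘ g) ''
      HadamardThreeLines.verticalClosedStrip (Real.log r) (Real.log R)) := by
    obtain ⟨C, hC⟩ := (isCompact_closedBall c R).exists_bound_of_continuousOn hcont
    refine ⟨C, ?_⟩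
    rintro _ ⟨w, hw, rfl⟩
    refine hC _ ?_
    rw [mem_closedBall, dist_eq_norm, hexp w]
    have : w.re ≤ Real.log R := hw.2
    calc Real.exp w.re ≤ Real.exp (Real.log R) := Real.exp_le_exp.2 this
      _ = R := Real.exp_log hR
  have hw : (Complex.log (z - c)).re = Real.log ‖z - c‖ := Complex.log_re _
  have hmem : Complex.log (z - c) ∈
      HadamardThreeLines.verticalClosedStrip (Real.log r) (Real.log R) := by
    refine ⟨?_, ?_⟩
    · rw [hw]; exact Real.log_le_log hr h1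
    · rw [hw]; exact Real.log_le_log hz0 h2
  have hmain := HadamardThreeLines.norm_le_interp_of_mem_verticalClosedStrip' (f := g)
    (a := A) (b := B) hlog hmem hgd hbdd
    (by
      intro w hw'
      refine hA _ ?_
      rw [hexp w]
      have : w.re = Real.log r := hw'
      rw [this, Real.exp_log hr])
    (by
      intro w hw'
      refine hB _ ?_
      rw [hexp w]
      have : w.re = Real.log R := hw'
      rw [this, Real.exp_log hR])
  have hgz : g (Complex.log (z - c)) = f z := by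
    simp only [hg]
    rw [Complex.exp_log hzne, add_sub_cancel]
  rw [hgz, hw] at hmain
  rw [Real.log_div hz0.ne' hr.ne', Real.log_div hR.ne' hr.ne']
  exact hmain

/-! ## 2. Rectangles -/

/-- The open rectangle `a < Re z < b`, `|Im z - y₀| < h`. -/
def Rect (a b y₀ h : ℝ) : Set ℂ := {z | (a < z.re ∧ z.re < b) ∧ |z.im - y₀| < h}

lemma isOpen_Rect (a b y₀ h : ℝ) : IsOpen (Rect a b y₀ h) := by
  refine IsOpen.inter (IsOpen.inter ?_ ?_) ?_
  · exact isOpen_lt continuous_const Complex.continuous_re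
  · exact isOpen_lt Complex.continuous_re continuous_const
  · exact isOpen_lt (continuous_abs.comp (Complex.continuous_im.sub continuous_const))
      continuous_const

lemma isBounded_Rect (a b y₀ h : ℝ) : Bornology.IsBounded (Rect a b y₀ h) := by
  refine (Metric.isBounded_iff_subset_closedBall (0 : ℂ)).2
    ⟨(|a| + |b|) + (|y₀| + h), fun z hz => ?_⟩
  rw [mem_closedBall, dist_zero_right]
  have h1 : |z.re| ≤ |a| + |b| := by
    rw [abs_le]
    constructor
    · have := hz.1.1; have := neg_abs_le a; have := abs_nonneg b; linarith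
    · have := hz.1.2; have := le_abs_self b; have := abs_nonneg a; linarith
  have h2 : |z.im| ≤ |y₀| + h := by
    have := abs_add_le (z.im - y₀) y₀
    rw [sub_add_cancel] at this
    linarith [hz.2]
  exact (Complex.norm_le_abs_re_add_abs_im z).trans (add_le_add h1 h2)

lemma closure_Rect_subset (a b y₀ h : ℝ) :
    closure (Rect a b y₀ h) ⊆ {z | (a ≤ z.re ∧ z.re ≤ b) ∧ |z.im - y₀| ≤ h} := by
  refine closure_minimal ?_ ?_
  · intro z hz
    exact ⟨⟨hz.1.1.le, hz.1.2.le⟩, hz.2.le⟩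
  · refine IsClosed.inter (IsClosed.inter ?_ ?_) ?_
    · exact isClosed_le continuous_const Complex.continuous_re
    · exact isClosed_le Complex.continuous_re continuous_const
    · exact isClosed_le (continuous_abs.comp (Complex.continuous_im.sub continuous_const))
        continuous_const

lemma subset_closure_Rect {a b y₀ h : ℝ} (hab : a < b) (hh : 0 < h) :
    {z : ℂ | (a ≤ z.re ∧ z.re ≤ b) ∧ |z.im - y₀| ≤ h} ⊆ closure (Rect a b y₀ h) := by
  intro z hz
  -- the point `z` is the limit of points on the segment towards the centre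
  set m : ℂ := ⟨(a + b) / 2, y₀⟩ with hm
  have hlim : Tendsto (fun t : ℝ => z + (t : ℂ) * (m - z)) (𝓝[>] 0) (𝓝 z) := by
    have h0 : Tendsto (fun t : ℝ => z + (t : ℂ) * (m - z)) (𝓝 0) (𝓝 (z + ((0 : ℝ) : ℂ) * (m - z))) :=
      (continuous_const.add ((Complex.continuous_ofReal).mul continuous_const)).tendsto 0
    simp only [Complex.ofReal_zero, zero_mul, add_zero] at h0
    exact h0.mono_left nhdsWithin_le_nhds
  refine mem_closure_of_tendsto hlim ?_
  have hI : Ioo (0 : ℝ) 1 ∈ 𝓝[>] (0 : ℝ) := Ioo_mem_nhdsGT one_pos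
  filter_upwards [hI] with t ht
  have ht0 : 0 < t := ht.1
  have ht1 : t < 1 := ht.2
  have hre : (z + (t : ℂ) * (m - z)).re = (1 - t) * z.re + t * ((a + b) / 2) := by
    simp [hm, Complex.add_re, Complex.mul_re]
    ring
  have him : (z + (t : ℂ) * (m - z)).im - y₀ = (1 - t) * (z.im - y₀) := by
    simp [hm, Complex.add_im, Complex.mul_im]
    ring
  obtain ⟨⟨h1, h2⟩, h3⟩ := hz
  refine ⟨⟨?_, ?_⟩, ?_⟩
  · rw [hre]
    nlinarith
  · rw [hre]
    nlinarith
  · rw [him, abs_mul, abs_of_pos (by linarith : (0 : ℝ) < 1 - t)]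
    have := abs_nonneg (z.im - y₀)
    nlinarith

/-- maximum principle on a rectangle: sides only -/
theorem rect_max {f : ℂ → E} {a b y₀ h C : ℝ} (hab : a < b) (hh : 0 < h)
    (hf : DiffContOnCl ℂ f (Rect a b y₀ h))
    (hv : ∀ z : ℂ, (z.re = a ∨ z.re = b) → |z.im - y₀| ≤ h → ‖f z‖ ≤ C)
    (hH : ∀ z : ℂ, (a ≤ z.re ∧ z.re ≤ b) → |z.im - y₀| = h → ‖f z‖ ≤ C) {z : ℂ}
    (hz : (a ≤ z.re ∧ z.re ≤ b) ∧ |z.im - y₀| ≤ h) : ‖f z‖ ≤ C := by
  refine Complex.norm_le_of_forall_mem_frontier_norm_le (isBounded_Rect a b y₀ h) hf ?_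
    (subset_closure_Rect hab hh hz)
  intro w hw
  rw [(isOpen_Rect a b y₀ h).frontier_eq] at hw
  obtain ⟨hw1, hw2⟩ := hw
  have hw3 := closure_Rect_subset a b y₀ h hw1
  by_cases h1 : |w.im - y₀| = h
  · exact hH w hw3.1 h1
  · refine hv w ?_ hw3.2
    by_contra hcon
    push Not at hcon
    apply hw2
    exact ⟨⟨lt_of_le_of_ne hw3.1.1 (Ne.symm hcon.1), lt_of_le_of_ne hw3.1.2 hcon.2⟩,
      lt_of_le_of_ne hw3.2 h1⟩

/-- real part of `cos` of a complex number -/
lemma re_cos (x y : ℝ) : (Complex.cos (x + y * I)).re = Real.cos x * Real.cosh y := by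
  rw [Complex.cos_add_mul_I]
  simp [← Complex.ofReal_cos, ← Complex.ofReal_cosh, ← Complex.ofReal_sin, ← Complex.ofReal_sinh]

lemma re_cos_mul (α m y₀ : ℝ) (z : ℂ) :
    (Complex.cos ((α : ℂ) * (z - (m + y₀ * I)))).re =
      Real.cos (α * (z.re - m)) * Real.cosh (α * (z.im - y₀)) := by
  have : (α : ℂ) * (z - (m + y₀ * I)) =
      ((α * (z.re - m) : ℝ) : ℂ) + ((α * (z.im - y₀) : ℝ) : ℂ) * I := by
    apply Complex.ext <;> simp
  rw [this, re_cos]

/-- **Rectangle, two good sides.** -/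
theorem rect_two_sides {f : ℂ → E} {a b y₀ h α δ M : ℝ} (hab : a < b) (hh : 0 < h)
    (hα : 0 < α) (hαw : α * (b - a) < Real.pi) (hδ : 0 < δ) (hδM : δ ≤ M)
    (hf : DiffContOnCl ℂ f (Rect a b y₀ h))
    (hv : ∀ z : ℂ, (z.re = a ∨ z.re = b) → |z.im - y₀| ≤ h → ‖f z‖ ≤ δ)
    (hH : ∀ z : ℂ, (a ≤ z.re ∧ z.re ≤ b) → |z.im - y₀| = h → ‖f z‖ ≤ M) {z : ℂ}
    (hz : (a ≤ z.re ∧ z.re ≤ b) ∧ |z.im - y₀| ≤ h) :
    ‖f z‖ ≤ δ * (M / δ) ^ (Real.cos (α * (z.re - (a + b) / 2)) * Real.cosh (α * (z.im - y₀)) /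
      (Real.cos (α * (b - a) / 2) * Real.cosh (α * h))) := by
  have hM : 0 < M := lt_of_lt_of_le hδ hδM
  set m : ℝ := (a + b) / 2 with hm
  have hcw : 0 < Real.cos (α * (b - a) / 2) := by
    apply Real.cos_pos_of_mem_Ioo
    constructor
    · have : 0 < α * (b - a) := mul_pos hα (by linarith)
      linarith [Real.pi_pos]
    · linarith
  have hD : 0 < Real.cos (α * (b - a) / 2) * Real.cosh (α * h) := mul_pos hcw (Real.cosh_pos _)
  have hL : 0 ≤ Real.log (M / δ) := Real.log_nonneg ((one_le_div hδ).2 hδM)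
  set A : ℝ := Real.log (M / δ) / (Real.cos (α * (b - a) / 2) * Real.cosh (α * h)) with hA
  have hA0 : 0 ≤ A := div_nonneg hL hD.le
  set W : ℂ → ℂ := fun z => Complex.exp (-(A : ℂ) * Complex.cos ((α : ℂ) * (z - (m + y₀ * I))))
    with hW
  have hWn : ∀ z, ‖W z‖ = Real.exp (-(A * (Real.cos (α * (z.re - m)) *
      Real.cosh (α * (z.im - y₀))))) := by
    intro z
    simp only [hW]
    rw [Complex.norm_exp]
    congr 1
    have h1 : (-(A : ℂ) * Complex.cos ((α : ℂ) * (z - (m + y₀ * I)))).re =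
        -A * (Complex.cos ((α : ℂ) * (z - (m + y₀ * I)))).re := by
      rw [← Complex.ofReal_neg, Complex.re_ofReal_mul]
    rw [h1, re_cos_mul]
    ring
  have hWd : Differentiable ℂ W := by
    intro z
    simp only [hW]
    fun_prop
  have hFd : DiffContOnCl ℂ (fun z => W z • f z) (Rect a b y₀ h) :=
    hWd.diffContOnCl.smul hf
  -- the cosine is at least its value on the vertical sides
  have hcos : ∀ x : ℝ, a ≤ x → x ≤ b →
      Real.cos (α * (b - a) / 2) ≤ Real.cos (α * (x - m)) := by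
    intro x hx1 hx2
    rw [← Real.cos_abs (α * (x - m))]
    apply Real.cos_le_cos_of_nonneg_of_le_pi (abs_nonneg _)
    · have : 0 < α * (b - a) := mul_pos hα (by linarith)
      linarith [Real.pi_pos]
    · rw [abs_mul, abs_of_pos hα]
      have : |x - m| ≤ (b - a) / 2 := by
        rw [abs_le]
        constructor <;> simp only [hm] <;> linarith
      nlinarith
  have hmax : ‖W z • f z‖ ≤ δ := by
    refine rect_max hab hh hFd ?_ ?_ hz
    · intro w hw hw2
      rw [norm_smul, hWn w]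
      have hx : a ≤ w.re ∧ w.re ≤ b := by
        rcases hw with hw | hw
        · rw [hw]; exact ⟨le_refl _, hab.le⟩
        · rw [hw]; exact ⟨hab.le, le_refl _⟩
      have h0 : 0 ≤ Real.cos (α * (w.re - m)) := hcw.le.trans (hcos _ hx.1 hx.2)
      have h1 : Real.exp (-(A * (Real.cos (α * (w.re - m)) *
          Real.cosh (α * (w.im - y₀))))) ≤ 1 := by
        rw [Real.exp_le_one_iff]
        have := mul_nonneg hA0 (mul_nonneg h0 (Real.cosh_pos (α * (w.im - y₀))).le)
        linarith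
      calc _ ≤ 1 * δ := mul_le_mul h1 (hv w hw hw2) (norm_nonneg _) zero_le_one
        _ = δ := one_mul δ
    · intro w hw hw2
      rw [norm_smul, hWn w]
      have hch : Real.cosh (α * (w.im - y₀)) = Real.cosh (α * h) := by
        rw [← Real.cosh_abs (α * (w.im - y₀)), abs_mul, hw2, abs_of_pos hα]
      rw [hch]
      have h1 : Real.log (M / δ) ≤ A * (Real.cos (α * (w.re - m)) * Real.cosh (α * h)) := by
        have h2 : A * (Real.cos (α * (b - a) / 2) * Real.cosh (α * h)) = Real.log (M / δ) := by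
          simp only [hA]
          exact div_mul_cancel₀ _ hD.ne'
        rw [← h2]
        apply mul_le_mul_of_nonneg_left _ hA0
        exact mul_le_mul_of_nonneg_right (hcos _ hw.1 hw.2) (Real.cosh_pos _).le
      calc Real.exp (-(A * (Real.cos (α * (w.re - m)) * Real.cosh (α * h)))) * ‖f w‖
          ≤ Real.exp (-Real.log (M / δ)) * M := by
            apply mul_le_mul _ (hH w hw hw2) (norm_nonneg _) (Real.exp_pos _).le
            exact Real.exp_le_exp.2 (by linarith)
        _ = δ := by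
            rw [Real.exp_neg, Real.exp_log (div_pos hM hδ)]
            field_simp
  rw [norm_smul, hWn z] at hmax
  have hfin : ‖f z‖ ≤ δ * Real.exp (A * (Real.cos (α * (z.re - m)) *
      Real.cosh (α * (z.im - y₀)))) := by
    have h2 : 0 < Real.exp (A * (Real.cos (α * (z.re - m)) * Real.cosh (α * (z.im - y₀)))) :=
      Real.exp_pos _
    calc ‖f z‖ = (Real.exp (-(A * (Real.cos (α * (z.re - m)) *
            Real.cosh (α * (z.im - y₀))))) * ‖f z‖) *
          Real.exp (A * (Real.cos (α * (z.re - m)) * Real.cosh (α * (z.im - y₀)))) := by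
          rw [Real.exp_neg]
          field_simp
      _ ≤ _ := mul_le_mul_of_nonneg_right hmax h2.le
  have hpow : Real.exp (A * (Real.cos (α * (z.re - m)) * Real.cosh (α * (z.im - y₀)))) =
      (M / δ) ^ (Real.cos (α * (z.re - m)) * Real.cosh (α * (z.im - y₀)) /
      (Real.cos (α * (b - a) / 2) * Real.cosh (α * h))) := by
    rw [Real.rpow_def_of_pos (div_pos hM hδ)]
    congr 1
    simp only [hA]
    ring
  rw [hpow] at hfin
  exact hfin

/-- **Rectangle, one good side**: `≤ δ` on `Re z = a`, `≤ M` on the three other sides. -/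
theorem rect_one_side {f : ℂ → E} {a b y₀ h α δ M : ℝ} (hab : a < b) (hh : 0 < h)
    (hα : 0 < α) (hαw : α * (b - a) < Real.pi) (hδ : 0 < δ) (hδM : δ ≤ M)
    (hf : DiffContOnCl ℂ f (Rect a b y₀ h))
    (ha : ∀ z : ℂ, z.re = a → |z.im - y₀| ≤ h → ‖f z‖ ≤ δ)
    (hM' : ∀ z : ℂ, (a ≤ z.re ∧ z.re ≤ b) → |z.im - y₀| ≤ h → ‖f z‖ ≤ M) {z : ℂ}
    (hz : (a ≤ z.re ∧ z.re ≤ b) ∧ |z.im - y₀| ≤ h) :
    ‖f z‖ ≤ δ * (M / δ) ^ ((z.re - a) / (b - a) +
      Real.cos (α * (z.re - (a + b) / 2)) * Real.cosh (α * (z.im - y₀)) /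
      (Real.cos (α * (b - a) / 2) * Real.cosh (α * h))) := by
  have hM : 0 < M := lt_of_lt_of_le hδ hδM
  have hba : 0 < b - a := by linarith
  have hMδ : 0 < M / δ := div_pos hM hδ
  have hL : 0 ≤ Real.log (M / δ) := Real.log_nonneg ((one_le_div hδ).2 hδM)
  set lam : ℝ := Real.log (M / δ) / (b - a) with hlam
  have hlam0 : 0 ≤ lam := div_nonneg hL hba.le
  set W : ℂ → ℂ := fun z => Complex.exp (-(lam : ℂ) * (z - a)) with hW
  have hWn : ∀ z, ‖W z‖ = Real.exp (-(lam * (z.re - a))) := by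
    intro z
    simp only [hW]
    rw [Complex.norm_exp]
    congr 1
    simp
  have hWd : Differentiable ℂ W := by
    intro z
    simp only [hW]
    fun_prop
  have hFd : DiffContOnCl ℂ (fun z => W z • f z) (Rect a b y₀ h) :=
    hWd.diffContOnCl.smul hf
  have hlb : lam * (b - a) = Real.log (M / δ) := by
    simp only [hlam]
    exact div_mul_cancel₀ _ hba.ne'
  have key := rect_two_sides (f := fun z => W z • f z) (δ := δ) (M := M) hab hh hα hαw hδ hδM hFd
    (by
      intro w hw hw2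
      rw [norm_smul, hWn w]
      rcases hw with hw | hw
      · rw [hw, sub_self, mul_zero, neg_zero, Real.exp_zero, one_mul]
        exact ha w hw hw2
      · rw [hw, hlb, Real.exp_neg, Real.exp_log hMδ]
        have := hM' w ⟨by rw [hw]; exact hab.le, hw.le⟩ hw2
        calc (M / δ)⁻¹ * ‖f w‖ ≤ (M / δ)⁻¹ * M :=
              mul_le_mul_of_nonneg_left this (inv_pos.2 hMδ).le
          _ = δ := by field_simp)
    (by
      intro w hw hw2
      rw [norm_smul, hWn w]
      have h1 : Real.exp (-(lam * (w.re - a))) ≤ 1 := by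
        rw [Real.exp_le_one_iff]
        have := mul_nonneg hlam0 (by linarith [hw.1] : 0 ≤ w.re - a)
        linarith
      calc _ ≤ 1 * M := mul_le_mul h1 (hM' w hw hw2.le) (norm_nonneg _) zero_le_one
        _ = M := one_mul M) hz
  rw [norm_smul, hWn z] at key
  have hexp : Real.exp (lam * (z.re - a)) = (M / δ) ^ ((z.re - a) / (b - a)) := by
    rw [Real.rpow_def_of_pos hMδ]
    congr 1
    simp only [hlam]
    ring
  have hpos : 0 < Real.exp (lam * (z.re - a)) := Real.exp_pos _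
  calc ‖f z‖ = Real.exp (lam * (z.re - a)) * (Real.exp (-(lam * (z.re - a))) * ‖f z‖) := by
        rw [Real.exp_neg]
        field_simp
    _ ≤ Real.exp (lam * (z.re - a)) * _ := mul_le_mul_of_nonneg_left key hpos.le
    _ = _ := by
        rw [hexp, Real.rpow_add hMδ]
        ring

/-- **Two good sides and height `≥ C log log`**: if
`log (M/δ) ≤ cos (α w/2) cosh (α h)` then nothing but a factor `e` is lost on the middle line. -/
theorem rect_two_sides_e {f : ℂ → E} {a b y₀ h α δ M : ℝ} (hab : a < b) (hh : 0 < h)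
    (hα : 0 < α) (hαw : α * (b - a) < Real.pi) (hδ : 0 < δ) (hδM : δ ≤ M)
    (hhM : Real.log (M / δ) ≤ Real.cos (α * (b - a) / 2) * Real.cosh (α * h))
    (hf : DiffContOnCl ℂ f (Rect a b y₀ h))
    (hv : ∀ z : ℂ, (z.re = a ∨ z.re = b) → |z.im - y₀| ≤ h → ‖f z‖ ≤ δ)
    (hH : ∀ z : ℂ, (a ≤ z.re ∧ z.re ≤ b) → |z.im - y₀| = h → ‖f z‖ ≤ M) {z : ℂ}
    (hz : a ≤ z.re ∧ z.re ≤ b) (hz2 : z.im = y₀) :
    ‖f z‖ ≤ Real.exp 1 * δ := by
  have hM : 0 < M := lt_of_lt_of_le hδ hδM
  have hMδ : 0 < M / δ := div_pos hM hδ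
  have hL : 0 ≤ Real.log (M / δ) := Real.log_nonneg ((one_le_div hδ).2 hδM)
  have hcw : 0 < Real.cos (α * (b - a) / 2) := by
    apply Real.cos_pos_of_mem_Ioo
    constructor
    · have : 0 < α * (b - a) := mul_pos hα (by linarith)
      linarith [Real.pi_pos]
    · linarith
  have hD : 0 < Real.cos (α * (b - a) / 2) * Real.cosh (α * h) := mul_pos hcw (Real.cosh_pos _)
  have key := rect_two_sides hab hh hα hαw hδ hδM hf hv hH
    (z := z) ⟨hz, by rw [hz2, sub_self, abs_zero]; exact hh.le⟩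
  refine key.trans ?_
  rw [mul_comm]
  apply mul_le_mul_of_nonneg_right _ hδ.le
  rw [Real.rpow_def_of_pos hMδ]
  apply Real.exp_le_exp.2
  rw [hz2, sub_self, mul_zero, Real.cosh_zero, mul_one, mul_div_assoc']
  rw [div_le_one hD]
  calc Real.log (M / δ) * Real.cos (α * (z.re - (a + b) / 2)) ≤ Real.log (M / δ) * 1 :=
        mul_le_mul_of_nonneg_left (Real.cos_le_one _) hL
    _ ≤ _ := by rw [mul_one]; exact hhM

/-! ## 3. The pinch -/

/-- mean value inequality in the rectangle, starting at `0` -/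
lemma norm_sub_zero_le {f : ℂ → E} {r Y C : ℝ} (hr : 0 ≤ r) (hY : 0 < Y)
    (hd : ∀ x : ℂ, |x.re| ≤ r → |x.im| < Y → DifferentiableAt ℂ f x)
    (hC : ∀ x : ℂ, |x.re| ≤ r → |x.im| < Y → ‖deriv f x‖ ≤ C) {x : ℂ}
    (hx : |x.re| ≤ r) (hx2 : |x.im| < Y) : ‖f x - f 0‖ ≤ C * ‖x‖ := by
  have hconv : Convex ℝ {x : ℂ | |x.re| ≤ r ∧ |x.im| < Y} := by
    intro x hx y hy a b ha hb hab
    obtain ⟨hx1, hx2⟩ := hx
    obtain ⟨hy1, hy2⟩ := hy
    rw [abs_le] at hx1 hy1
    rw [abs_lt] at hx2 hy2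
    constructor
    · simp only [Complex.add_re, Complex.smul_re, smul_eq_mul]
      rw [abs_le]
      constructor <;> nlinarith
    · simp only [Complex.add_im, Complex.smul_im, smul_eq_mul]
      rw [abs_lt]
      rcases eq_or_lt_of_le ha with ha' | ha'
      · have hb1 : b = 1 := by rw [← ha', zero_add] at hab; exact hab
        rw [← ha', hb1]; constructor <;> nlinarith
      · constructor <;> nlinarith
  have h := hconv.norm_image_sub_le_of_norm_deriv_le (f := f) (C := C) (x := 0) (y := x)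
    (fun z hz => hd z hz.1 hz.2) (fun z hz => hC z hz.1 hz.2)
    (by simp [hr, hY]) ⟨hx, hx2⟩
  simpa using h

/-- **The pinch.** `Φ i`, `i → F`, size parameter `n i ≥ 1`. Derivative `O(n^{-b₁})` for all
`b₁ < b` on `|Re x| ≤ r`, for every `r < l`; crude bound `O(n^K)` on `|Re x| < ρ`, `ρ > l`;
everything only for `|Im x| < Y`. Then the difference `Φ i l - Φ i 0` is `O(n^{-b'})`,
for every `b' < b`. -/
theorem pinch {ι : Type*} {F : Filter ι} {n : ι → ℝ} (hn : ∀ᶠ i in F, 1 ≤ n i)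
    {Φ : ι → ℂ → E} {l ρ Y b K : ℝ} (hl : 0 < l) (hlρ : l < ρ) (hY : 0 < Y)
    (han : ∀ᶠ i in F, DifferentiableOn ℂ (Φ i) {x | |x.re| < ρ ∧ |x.im| < Y})
    (hcr : ∃ C : ℝ, ∀ᶠ i in F, ∀ x : ℂ, |x.re| < ρ → |x.im| < Y → ‖Φ i x‖ ≤ C * n i ^ K)
    (hw : ∀ r < l, ∀ b₁ < b, ∃ C : ℝ, ∀ᶠ i in F, ∀ x : ℂ, |x.re| ≤ r → |x.im| < Y →
      ‖deriv (Φ i) x‖ ≤ C * n i ^ (-b₁)) {b' : ℝ} (hb : b' < b) :
    ∃ C : ℝ, ∀ᶠ i in F, ‖Φ i (l : ℂ) - Φ i 0‖ ≤ C * n i ^ (-b') := by
  obtain ⟨b₁, hb1, hb2⟩ := exists_between hb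
  -- the geometry
  set s : ℝ := min (Y / 4) (l / 2) with hs
  set κ : ℝ := min (Y / 4) ((ρ - l) / 2) with hκ
  have hs0 : 0 < s := lt_min (by linarith) (by linarith)
  have hκ0 : 0 < κ := lt_min (by linarith) (by linarith)
  have hsY : s ≤ Y / 4 := min_le_left _ _
  have hsl : s ≤ l / 2 := min_le_right _ _
  have hκY : κ ≤ Y / 4 := min_le_left _ _
  have hκρ : κ ≤ (ρ - l) / 2 := min_le_right _ _
  set c : ℝ := l - s with hc
  set R : ℝ := s + κ with hR
  have hsR : s < R := by simp only [hR]; linarith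
  have hR0 : 0 < R := hs0.trans hsR
  -- the exponent tends to `0`
  have hcontθ : Tendsto (fun η : ℝ => b₁ - Real.log (s / (s - η)) / Real.log (R / (s - η)) *
      (b₁ + K)) (𝓝[>] 0) (𝓝 b₁) := by
    have h0 : ContinuousAt (fun η : ℝ => b₁ - Real.log (s / (s - η)) / Real.log (R / (s - η)) *
        (b₁ + K)) 0 := by
      have e1 : s - 0 ≠ 0 := by rw [sub_zero]; exact hs0.ne'
      have e2 : s / (s - 0) ≠ 0 := div_ne_zero hs0.ne' e1
      have e3 : R / (s - 0) ≠ 0 := div_ne_zero hR0.ne' e1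
      have e4 : Real.log (R / (s - 0)) ≠ 0 := by
        rw [sub_zero]
        exact (Real.log_pos ((one_lt_div hs0).2 hsR)).ne'
      have c1 : ContinuousAt (fun η : ℝ => s - η) 0 := continuousAt_const.sub continuousAt_id
      have c2 : ContinuousAt (fun η : ℝ => Real.log (s / (s - η))) 0 :=
        (continuousAt_const.div c1 e1).log e2
      have c3 : ContinuousAt (fun η : ℝ => Real.log (R / (s - η))) 0 :=
        (continuousAt_const.div c1 e1).log e3
      exact continuousAt_const.sub ((c2.div c3 e4).mul continuousAt_const)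
    have h1 := h0.tendsto
    simp only [sub_zero, div_self hs0.ne', Real.log_one, zero_div, zero_mul] at h1
    exact h1.mono_left nhdsWithin_le_nhds
  have hev : ∀ᶠ η : ℝ in 𝓝[>] 0, b' < b₁ - Real.log (s / (s - η)) / Real.log (R / (s - η)) *
      (b₁ + K) := hcontθ.eventually (lt_mem_nhds hb1)
  have hev2 : ∀ᶠ η : ℝ in 𝓝[>] 0, η ∈ Ioo (0 : ℝ) s := Ioo_mem_nhdsGT hs0
  obtain ⟨η, hη1, hη0, hηs⟩ := (hev.and hev2).exists
  set θ : ℝ := Real.log (s / (s - η)) / Real.log (R / (s - η)) with hθ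
  have hr0 : 0 < s - η := by linarith
  have hθ0 : 0 ≤ θ := by
    apply div_nonneg
    · exact Real.log_nonneg ((one_le_div hr0).2 (by linarith))
    · exact Real.log_nonneg ((one_le_div hr0).2 (by linarith))
  have hθ1 : θ ≤ 1 := by
    apply div_le_one_of_le₀
    · exact Real.log_le_log (div_pos hs0 hr0) (div_le_div_of_nonneg_right hsR.le hr0.le)
    · exact Real.log_nonneg ((one_le_div hr0).2 (by linarith))
  obtain ⟨C₁, hC₁⟩ := hw (l - η) (by linarith) b₁ hb2
  obtain ⟨C₂, hC₂⟩ := hcr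
  have hlη : 0 ≤ l - η := by linarith
  refine ⟨((|C₁| + 1) * (l + Y)) ^ (1 - θ) * (2 * (|C₂| + 1)) ^ θ, ?_⟩
  filter_upwards [hn, han, hC₁, hC₂] with i hn1 hd h1 h2
  have hn0 : 0 < n i := by linarith
  have hopen : IsOpen {x : ℂ | |x.re| < ρ ∧ |x.im| < Y} :=
    (isOpen_lt (continuous_abs.comp Complex.continuous_re) continuous_const).inter
      (isOpen_lt (continuous_abs.comp Complex.continuous_im) continuous_const)
  have hdat : ∀ x : ℂ, |x.re| < ρ → |x.im| < Y → DifferentiableAt ℂ (Φ i) x :=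
    fun x hx hx2 => hd.differentiableAt (hopen.mem_nhds ⟨hx, hx2⟩)
  -- closed disc inside the open rectangle
  have hin : ∀ x : ℂ, ‖x - (c : ℂ)‖ ≤ R → |x.re| < ρ ∧ |x.im| < Y := by
    intro x hx
    have e1 : |x.re - c| ≤ R := by
      have := Complex.abs_re_le_norm (x - (c : ℂ))
      simp only [Complex.sub_re, Complex.ofReal_re] at this
      exact this.trans hx
    have e2 : |x.im| ≤ R := by
      have := Complex.abs_im_le_norm (x - (c : ℂ))
      simp only [Complex.sub_im, Complex.ofReal_im, sub_zero] at this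
      exact this.trans hx
    rw [abs_le] at e1
    refine ⟨?_, lt_of_le_of_lt e2 (by simp only [hR]; linarith)⟩
    rw [abs_lt]
    simp only [hc, hR] at e1
    constructor <;> linarith [e1.1, e1.2]
  have hfd : DiffContOnCl ℂ (fun x => Φ i x - Φ i 0) (ball (c : ℂ) R) := by
    apply DifferentiableOn.diffContOnCl
    rw [closure_ball _ hR0.ne']
    intro x hx
    rw [mem_closedBall, dist_eq_norm] at hx
    have := hin x hx
    exact ((hdat x this.1 this.2).sub (differentiableAt_const _)).differentiableWithinAt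
  have hone : (1 : ℝ) ≤ |C₁| + 1 := by linarith [abs_nonneg C₁]
  have hA : ∀ z : ℂ, ‖z - (c : ℂ)‖ = s - η → ‖Φ i z - Φ i 0‖ ≤
      ((|C₁| + 1) * (l + Y)) * n i ^ (-b₁) := by
    intro z hz
    have e1 : |z.re - c| ≤ s - η := by
      have := Complex.abs_re_le_norm (z - (c : ℂ))
      simp only [Complex.sub_re, Complex.ofReal_re] at this
      exact this.trans hz.le
    have e2 : |z.im| ≤ s - η := by
      have := Complex.abs_im_le_norm (z - (c : ℂ))
      simp only [Complex.sub_im, Complex.ofReal_im, sub_zero] at this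
      exact this.trans hz.le
    have e3 : |z.re| ≤ l - η := by
      rw [abs_le] at e1 ⊢
      simp only [hc] at e1
      constructor <;> linarith [e1.1, e1.2]
    have e4 : |z.im| < Y := by linarith
    have hmv := norm_sub_zero_le (f := Φ i) (r := l - η) (Y := Y)
      (C := (|C₁| + 1) * n i ^ (-b₁)) hlη hY
      (fun x hx hx2 => hdat x (by linarith) hx2)
      (fun x hx hx2 => (h1 x hx hx2).trans (by
        apply mul_le_mul_of_nonneg_right _ (Real.rpow_nonneg hn0.le _)
        linarith [le_abs_self C₁])) e3 e4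
    refine hmv.trans ?_
    have hzn : ‖z‖ ≤ l + Y := by
      have := Complex.norm_le_abs_re_add_abs_im z
      linarith
    calc (|C₁| + 1) * n i ^ (-b₁) * ‖z‖ ≤ (|C₁| + 1) * n i ^ (-b₁) * (l + Y) := by
          apply mul_le_mul_of_nonneg_left hzn
          exact mul_nonneg (by linarith) (Real.rpow_nonneg hn0.le _)
      _ = _ := by ring
  have hB : ∀ z : ℂ, ‖z - (c : ℂ)‖ = R → ‖Φ i z - Φ i 0‖ ≤ (2 * (|C₂| + 1)) * n i ^ K := by
    intro z hz
    have e1 := hin z hz.le
    have e2 := h2 z e1.1 e1.2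
    have e3 := h2 0 (by simp; linarith) (by simpa using hY)
    have e4 : C₂ * n i ^ K ≤ (|C₂| + 1) * n i ^ K := by
      apply mul_le_mul_of_nonneg_right _ (Real.rpow_nonneg hn0.le _)
      linarith [le_abs_self C₂]
    calc ‖Φ i z - Φ i 0‖ ≤ ‖Φ i z‖ + ‖Φ i 0‖ := norm_sub_le _ _
      _ ≤ _ := by linarith
  have hlc : ‖(l : ℂ) - (c : ℂ)‖ = s := by
    rw [← Complex.ofReal_sub, Complex.norm_real, Real.norm_eq_abs]
    simp only [hc]
    rw [sub_sub_cancel, abs_of_pos hs0]
  have h3 := three_circles (f := fun x => Φ i x - Φ i 0) (c := (c : ℂ)) (r := s - η) (R := R)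
    hr0 (by linarith) hfd hA hB (z := (l : ℂ)) (by rw [hlc]; linarith) (by rw [hlc]; exact hsR.le)
  rw [hlc, ← hθ] at h3
  refine h3.trans ?_
  have hq1 : 0 ≤ (|C₁| + 1) * (l + Y) := mul_nonneg (by linarith) (by linarith)
  have hq2 : 0 ≤ 2 * (|C₂| + 1) := by linarith [abs_nonneg C₂]
  rw [Real.mul_rpow hq1 (Real.rpow_nonneg hn0.le _), Real.mul_rpow hq2 (Real.rpow_nonneg hn0.le _),
    ← Real.rpow_mul hn0.le, ← Real.rpow_mul hn0.le]
  have hcomb : n i ^ (-b₁ * (1 - θ)) * n i ^ (K * θ) ≤ n i ^ (-b') := by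
    rw [← Real.rpow_add hn0]
    apply Real.rpow_le_rpow_of_exponent_le hn1
    have : b' < b₁ - θ * (b₁ + K) := hη1
    nlinarith
  calc ((|C₁| + 1) * (l + Y)) ^ (1 - θ) * n i ^ (-b₁ * (1 - θ)) *
        ((2 * (|C₂| + 1)) ^ θ * n i ^ (K * θ))
      = (((|C₁| + 1) * (l + Y)) ^ (1 - θ) * (2 * (|C₂| + 1)) ^ θ) *
        (n i ^ (-b₁ * (1 - θ)) * n i ^ (K * θ)) := by ring
    _ ≤ _ := mul_le_mul_of_nonneg_left hcomb
        (mul_nonneg (Real.rpow_nonneg hq1 _) (Real.rpow_nonneg hq2 _))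

end PBT
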