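import Mathlib
import Pool.Agent.PB.Two

/-!
# The legs at the trivial ends: even functions, three lines, two constants

`F N` is even and analytic on the strip `|Re z| ≤ a`; on the line `Re z = a` it is polynomially bounded and, for
`|Im z| ≤ log log N`, close to the number `v N`.  Then it is close to `v N` on the whole segment `[-a, a]`.
-/

set_option autoImplicit false

open Complex Set Filter Topology

namespace Pool.Agent.PB.Gap

/-- strip -/
def St (a : ℝ) : Set ℂ := re ⁻¹' Ioo (-a) a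

/-- **Three lines for an even function.** -/
theorem even_strip {F : ℂ → ℂ} {a M : ℝ} (ha : 0 < a) (hF : DiffContOnCl ℂ F (St a))
    (hev : ∀ z, F (-z) = F z)
    (hgr : ∃ A B : ℝ, ∀ z : ℂ, |z.re| ≤ a → ‖F z‖ ≤ A * Real.exp (B * |z.im|))
    (hM : ∀ y : ℝ, ‖F (a + y * I)‖ ≤ M) {z : ℂ} (hz : |z.re| ≤ a) : ‖F z‖ ≤ M := by
  obtain ⟨A, B, hAB⟩ := hgr
  have hb : ∀ w : ℂ, w.re = a → ‖F w‖ ≤ M := by
    intro w hw
    have : w = (a : ℂ) + (w.im : ℂ) * I := by
      apply Complex.ext <;> simp [hw]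
    rw [this]
    exact hM _
  have hpi := Real.pi_pos
  refine PhragmenLindelof.vertical_strip (a := -a) (b := a) hF
    ⟨Real.pi / (a - -a) / 2, ?_, |B| / (Real.pi / (a - -a) / 2), ?_⟩ ?_ hb (abs_le.1 hz).1 (abs_le.1 hz).2
  · have : 0 < Real.pi / (a - -a) := by
      apply div_pos hpi
      linarith
    linarith
  · have hc : 0 < Real.pi / (a - -a) / 2 := by
      apply div_pos (div_pos hpi (by linarith)) two_pos
    refine Asymptotics.IsBigO.of_bound |A| ?_
    refine Filter.Eventually.filter_mono inf_le_right ?_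
    rw [Filter.eventually_principal]
    intro w hw
    have h1 : |w.re| ≤ a := by
      rw [abs_le]
      exact ⟨hw.1.le, hw.2.le⟩
    refine (hAB w h1).trans ?_
    rw [Real.norm_eq_abs, abs_of_pos (Real.exp_pos _)]
    have h2 : B * |w.im| ≤ |B| / (Real.pi / (a - -a) / 2) * Real.exp (Real.pi / (a - -a) / 2 * |w.im|) := by
      set c : ℝ := Real.pi / (a - -a) / 2
      have h3 : c * |w.im| ≤ Real.exp (c * |w.im|) := by
        have := Real.add_one_le_exp (c * |w.im|)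
        linarith
      calc B * |w.im| ≤ |B| * |w.im| := mul_le_mul_of_nonneg_right (le_abs_self B) (abs_nonneg _)
        _ = |B| / c * (c * |w.im|) := by
            field_simp
        _ ≤ |B| / c * Real.exp (c * |w.im|) := mul_le_mul_of_nonneg_left h3 (div_nonneg (abs_nonneg _) hc.le)
    exact mul_le_mul (le_abs_self A) (Real.exp_le_exp.2 h2) (Real.exp_pos _).le (abs_nonneg _)
  · intro w hw
    rw [← hev w]
    apply hb
    rw [neg_re, hw]
    ring

/-- `log log N → ∞` beats `log`: the height `log log N` is enough -/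
lemma height {a K : ℝ} (ha : 0 < a) (ha4 : a < Real.pi / 4) :
    ∀ᶠ N : ℕ in atTop, 0 < Real.log (Real.log N) ∧ K * Real.log N ≤
      Real.cos (Real.pi / (4 * a) * (a - -a) / 2) * Real.cosh (Real.pi / (4 * a) * Real.log (Real.log N)) := by
  have hpi := Real.pi_pos
  have e1 : Real.pi / (4 * a) * (a - -a) / 2 = Real.pi / 4 := by
    field_simp
    ring
  have hal : 1 < Real.pi / (4 * a) := by
    rw [lt_div_iff₀ (by positivity)]
    linarith
  have hlN : Tendsto (fun N : ℕ => Real.log (N : ℝ)) atTop atTop :=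
    Real.tendsto_log_atTop.comp tendsto_natCast_atTop_atTop
  have hll : Tendsto (fun N : ℕ => Real.log (Real.log (N : ℝ))) atTop atTop :=
    Real.tendsto_log_atTop.comp hlN
  have hc : 0 < Real.cos (Real.pi / 4) := by
    rw [Real.cos_pi_div_four]
    positivity
  obtain ⟨t, ht⟩ : ∃ t, t = Real.pi / (4 * a) - 1 := ⟨_, rfl⟩
  have ht0 : 0 < t := by
    rw [ht]
    linarith
  have hpw : Tendsto (fun N : ℕ => Real.log (N : ℝ) ^ t) atTop atTop :=
    (tendsto_rpow_atTop ht0).comp hlN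
  filter_upwards [hlN.eventually_gt_atTop 1, hll.eventually_gt_atTop 0,
    hpw.eventually_ge_atTop (2 * K / Real.cos (Real.pi / 4))] with N h1 h2 h3
  refine ⟨h2, ?_⟩
  have hL : 0 < Real.log (N : ℝ) := by linarith
  have e2 : Real.exp (Real.pi / (4 * a) * Real.log (Real.log N)) = Real.log N ^ t * Real.log N := by
    rw [mul_comm, ← Real.rpow_def_of_pos hL, ← Real.rpow_add_one hL.ne', ht]
    congr 1
    ring
  have e3 : Real.log N ^ t * Real.log N / 2 ≤ Real.cosh (Real.pi / (4 * a) * Real.log (Real.log N)) := by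
    rw [Real.cosh_eq, e2]
    have := (Real.exp_pos (-(Real.pi / (4 * a) * Real.log (Real.log N)))).le
    linarith
  rw [e1]
  rw [div_le_iff₀ hc] at h3
  calc K * Real.log N = 2 * K * Real.log N / 2 := by ring
    _ ≤ Real.log N ^ t * Real.cos (Real.pi / 4) * Real.log N / 2 := by
        gcongr
    _ = Real.cos (Real.pi / 4) * (Real.log N ^ t * Real.log N / 2) := by ring
    _ ≤ _ := mul_le_mul_of_nonneg_left e3 hc.le

/-- **The gap.**  `F N` even, analytic in `|Re z| < a` (`a < π/4`), of exponential growth, `≤ N^K` on `Re z = a`,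
and `≤ δ N` close to `v N` there for `|Im z| ≤ log log N`: then `e δ N` close to `v N` on `[-a, a]`. -/
theorem gap {a : ℝ} (ha : 0 < a) (ha4 : a < Real.pi / 4) {F : ℕ → ℂ → ℂ} {v : ℕ → ℂ} {δ : ℕ → ℝ} {K P : ℝ}
    (hF : ∀ᶠ N in atTop, DiffContOnCl ℂ (F N) (St a))
    (hev : ∀ᶠ N in atTop, ∀ z, F N (-z) = F N z)
    (hgr : ∀ᶠ N in atTop, ∃ A B : ℝ, ∀ z : ℂ, |z.re| ≤ a → ‖F N z‖ ≤ A * Real.exp (B * |z.im|))
    (hM : ∀ᶠ N : ℕ in atTop, ∀ y : ℝ, ‖F N (a + y * I)‖ ≤ (N : ℝ) ^ K)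
    (hv : ∀ᶠ N : ℕ in atTop, ‖v N‖ ≤ (N : ℝ) ^ K)
    (hδ0 : ∀ᶠ N : ℕ in atTop, (N : ℝ) ^ (-P) ≤ δ N) (hδ1 : ∀ᶠ N : ℕ in atTop, δ N ≤ 1)
    (hf : ∀ᶠ N : ℕ in atTop, ∀ y : ℝ, |y| ≤ Real.log (Real.log N) → ‖F N (a + y * I) - v N‖ ≤ δ N) :
    ∀ᶠ N : ℕ in atTop, ∀ x : ℝ, |x| ≤ a → ‖F N x - v N‖ ≤ Real.exp 1 * δ N := by
  have hpi := Real.pi_pos
  filter_upwards [hF, hev, hgr, hM, hv, hδ0, hδ1, hf, height (K := |K| + 1 + P) ha ha4,
    eventually_ge_atTop 2] with N hF hev hgr hM hv hδ0 hδ1 hf ⟨hh, hcosh⟩ hN2 x hx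
  have hN2' : (2 : ℝ) ≤ N := by exact_mod_cast hN2
  have hN0 : (0 : ℝ) < N := by linarith
  have hN1 : (1 : ℝ) ≤ N := by linarith
  have hδp : 0 < δ N := lt_of_lt_of_le (Real.rpow_pos_of_pos hN0 _) hδ0
  obtain ⟨M, hMdef⟩ : ∃ M : ℝ, M = (N : ℝ) ^ (|K| + 1) := ⟨_, rfl⟩
  have hKM : (N : ℝ) ^ K + (N : ℝ) ^ K ≤ M := by
    rw [hMdef, Real.rpow_add hN0, Real.rpow_one]
    have h1 : (N : ℝ) ^ K ≤ (N : ℝ) ^ |K| := Real.rpow_le_rpow_of_exponent_le hN1 (le_abs_self K)
    have h2 : 0 ≤ (N : ℝ) ^ |K| := Real.rpow_nonneg hN0.le _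
    nlinarith
  have hM1 : 1 ≤ M := by
    rw [hMdef]
    apply Real.one_le_rpow hN1
    positivity
  have hδM : δ N ≤ M := hδ1.trans hM1
  have hstr : ∀ z : ℂ, |z.re| ≤ a → ‖F N z - v N‖ ≤ M := by
    intro z hz
    calc ‖F N z - v N‖ ≤ ‖F N z‖ + ‖v N‖ := norm_sub_le _ _
      _ ≤ (N : ℝ) ^ K + (N : ℝ) ^ K := add_le_add (even_strip ha hF hev hgr hM hz) hv
      _ ≤ M := hKM
  have hab : -a < a := by linarith
  have hα : 0 < Real.pi / (4 * a) := by positivity
  have hαw : Real.pi / (4 * a) * (a - -a) < Real.pi := by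
    have : Real.pi / (4 * a) * (a - -a) = Real.pi / 2 := by
      field_simp
      ring
    rw [this]
    linarith
  have hlog : Real.log (M / δ N) ≤
      Real.cos (Real.pi / (4 * a) * (a - -a) / 2) * Real.cosh (Real.pi / (4 * a) * Real.log (Real.log N)) := by
    refine le_trans ?_ hcosh
    have hlN : 0 ≤ Real.log N := Real.log_nonneg hN1
    have h1 : M / δ N ≤ (N : ℝ) ^ (|K| + 1 + P) := by
      rw [div_le_iff₀ hδp]
      calc M = (N : ℝ) ^ (|K| + 1 + P) * (N : ℝ) ^ (-P) := by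
            rw [← Real.rpow_add hN0, hMdef]
            congr 1
            ring
        _ ≤ (N : ℝ) ^ (|K| + 1 + P) * δ N := mul_le_mul_of_nonneg_left hδ0 (Real.rpow_nonneg hN0.le _)
    calc Real.log (M / δ N) ≤ Real.log ((N : ℝ) ^ (|K| + 1 + P)) :=
          Real.log_le_log (div_pos (by linarith) hδp) h1
      _ = (|K| + 1 + P) * Real.log N := Real.log_rpow hN0 _
  have hsub : PBT.Rect (-a) a 0 (Real.log (Real.log N)) ⊆ St a := fun z hz => ⟨hz.1.1, hz.1.2⟩
  have key := PBT.rect_two_sides_e (f := fun z => F N z - v N) (y₀ := 0) (h := Real.log (Real.log N)) hab hh hα hαw hδp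
    hδM hlog ((hF.mono hsub).sub_const _) ?_ ?_ (z := (x : ℂ)) ⟨by simpa using (abs_le.1 hx).1, by simpa using (abs_le.1 hx).2⟩
    (by simp)
  · exact key
  · intro z hz hz2
    rw [sub_zero] at hz2
    rcases hz with hz | hz
    · have h1 : F N z = F N (-z) := (hev z).symm
      have h2 : -z = (a : ℂ) + ((-z.im : ℝ) : ℂ) * I := by
        apply Complex.ext <;> simp [hz]
      show ‖F N z - v N‖ ≤ _
      rw [h1, h2]
      exact hf _ (by rwa [abs_neg])
    · have h2 : z = (a : ℂ) + ((z.im : ℝ) : ℂ) * I := by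
        apply Complex.ext <;> simp [hz]
      show ‖F N z - v N‖ ≤ _
      rw [h2]
      exact hf _ hz2
  · intro z hz hz2
    exact hstr z (abs_le.2 hz)

end Pool.Agent.PB.Gap
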