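import Pool.Agent.PB.Parts

/-!
# The Ward identity of a gas in the form of statistics (plan B, second Ward identity)

Particles `i : ι` of species `sp i : S` at heights `t i`; densities `ρ b`; vector field `ξ b`;
smooth kernels `a b c s t = (ξ b s - ξ c t) k_bc (s - t)`, `a b b t t = 2 ξ_b'(t)`; the logarithmic
derivative of the one body function of the particle `i` is `κr (sp i) + lam i` (`κr`: rows).

* `nuL`: linear statistic `∑ g (t i) - ∑ b, ∫ ρ b g b`;
* `nuQ`: quadratic statistic `½ ∬ a dν dν` (diagonal included);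
* `gasAlg`: `∑ (ξ' + ξ κ) + ∑_{pairs} a = - nuL g + nuQ a + ∑ ξ lam` with
  `g b = - (ξ b κr b + ∑ c, ∫ a b c · u ρ c u)`, from the equilibrium of the density;
* **`gasWard`**: `∫ ((- nuL g + nuQ a + ∑ ξ lam) O + D_ξ O) Phi = 0`;
* `nuL_mul`: `∑ ξ lam = ∑ b ∫ ρ ξ lam + nuL (ξ lam)`.
-/

set_option autoImplicit false
set_option linter.unusedSectionVars false

noncomputable section

open MeasureTheory Finset
open scoped Classical

namespace PB

variable {ι S : Type*} [Fintype ι] [Fintype S]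

/-- linear statistic -/
def nuL (sp : ι → S) (ρ g : S → ℝ → ℂ) (t : ι → ℝ) : ℂ :=
  ∑ i, g (sp i) (t i) - ∑ b, ∫ u, ρ b u * g b u

/-- the kernel smeared with the density -/
def smr (ρ : S → ℝ → ℂ) (a : S → S → ℝ → ℝ → ℂ) (b : S) (s : ℝ) : ℂ :=
  ∑ c, ∫ u, a b c s u * ρ c u

/-- the double integral of the kernel -/
def dbl (ρ : S → ℝ → ℂ) (a : S → S → ℝ → ℝ → ℂ) : ℂ :=
  ∑ b, ∫ s, ρ b s * smr ρ a b s

/-- quadratic statistic -/
def nuQ (sp : ι → S) (ρ : S → ℝ → ℂ) (a : S → S → ℝ → ℝ → ℂ) (t : ι → ℝ) : ℂ :=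
  (1 / 2) * ∑ i, ∑ j, a (sp i) (sp j) (t i) (t j) - ∑ i, smr ρ a (sp i) (t i) +
    (1 / 2) * dbl ρ a

/-- a strict comparison of all pairs -/
structure Tourn (r : ι → ι → Prop) : Prop where
  irr : ∀ i, ¬ r i i
  tot : ∀ i j, i ≠ j → (r i j ↔ ¬ r j i)

/-- the sum over all ordered pairs is the diagonal plus twice the sum over the pairs -/
theorem sum_pairs {r : ι → ι → Prop} (hr : Tourn r) (f : ι → ι → ℂ) (hf : ∀ i j, f i j = f j i) :
    ∑ i, ∑ j, f i j = ∑ i, f i i + 2 * ∑ p ∈ prs r, f p.1 p.2 := by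
  have e0 : ∑ p ∈ prs r, f p.1 p.2 = ∑ i, ∑ j, if r i j then f i j else 0 := by
    unfold prs
    rw [Finset.sum_filter, ← Finset.univ_product_univ, Finset.sum_product]
  have e1 : ∑ i, ∑ j, (if r i j then f i j else 0) = ∑ i, ∑ j, if r j i then f i j else 0 := by
    rw [Finset.sum_comm]
    exact Finset.sum_congr rfl fun i _ => Finset.sum_congr rfl fun j _ => by rw [hf]
  have e2 : ∀ i, ∑ j, f i j = f i i + (∑ j, (if r i j then f i j else 0) +
      ∑ j, if r j i then f i j else 0) := by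
    intro i
    have : ∀ j, f i j = (if j = i then f i i else 0) + ((if r i j then f i j else 0) +
        if r j i then f i j else 0) := by
      intro j
      by_cases h : j = i
      · subst h
        simp [hr.irr]
      · have h1 := hr.tot i j (Ne.symm h)
        by_cases h2 : r i j
        · have h3 : ¬ r j i := h1.1 h2
          simp [h, h2, h3]
        · have h3 : r j i := by
            by_contra h4
            exact h2 (h1.2 h4)
          simp [h, h2, h3]
    calc ∑ j, f i j = ∑ j, ((if j = i then f i i else 0) + ((if r i j then f i j else 0) +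
        if r j i then f i j else 0)) := Finset.sum_congr rfl fun j _ => this j
      _ = _ := by
        rw [Finset.sum_add_distrib, Finset.sum_add_distrib, Finset.sum_ite_eq' univ i]
        simp
  rw [Finset.sum_congr rfl fun i _ => e2 i, Finset.sum_add_distrib, Finset.sum_add_distrib, ← e1,
    e0]
  ring

/-- **the algebra of the Ward identity** -/
theorem gasAlg {r : ι → ι → Prop} (hr : Tourn r) (sp : ι → S) {ρ ξ dξ κr g : S → ℝ → ℂ}
    {lam : ι → ℝ → ℂ} {a : S → S → ℝ → ℝ → ℂ} (has : ∀ b c s t, a b c s t = a c b t s)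
    (had : ∀ b t, a b b t t = 2 * dξ b t)
    (hg : ∀ b s, g b s = -(ξ b s * κr b s + smr ρ a b s))
    (hI1 : ∀ b, Integrable fun s => ρ b s * (ξ b s * κr b s))
    (hI2 : ∀ b, Integrable fun s => ρ b s * smr ρ a b s)
    (hE : ∑ b, (∫ s, ρ b s * (ξ b s * κr b s)) + (1 / 2) * dbl ρ a = 0) (t : ι → ℝ) :
    (∑ k, (dξ (sp k) (t k) + ξ (sp k) (t k) * (κr (sp k) (t k) + lam k (t k)))) +
      ∑ p ∈ prs r, a (sp p.1) (sp p.2) (t p.1) (t p.2) =
    -nuL sp ρ g t + nuQ sp ρ a t + ∑ k, ξ (sp k) (t k) * lam k (t k) := by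
  have h1 := sum_pairs hr (fun i j => a (sp i) (sp j) (t i) (t j)) fun i j => has _ _ _ _
  simp only [had] at h1
  have h2 : ∑ b, ∫ u, ρ b u * g b u =
      -(∑ b, (∫ s, ρ b s * (ξ b s * κr b s)) + dbl ρ a) := by
    unfold dbl
    rw [← Finset.sum_add_distrib, ← Finset.sum_neg_distrib]
    refine Finset.sum_congr rfl fun b _ => ?_
    rw [← integral_add (hI1 b) (hI2 b), ← integral_neg]
    refine integral_congr_ae (Filter.Eventually.of_forall fun s => ?_)
    simp only []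
    rw [hg]
    ring
  have h3 : ∑ k, g (sp k) (t k) = -(∑ k, ξ (sp k) (t k) * κr (sp k) (t k)) -
      ∑ k, smr ρ a (sp k) (t k) := by
    rw [← Finset.sum_neg_distrib, ← Finset.sum_sub_distrib]
    exact Finset.sum_congr rfl fun k _ => by rw [hg]; ring
  have h4 : ∑ k, (dξ (sp k) (t k) + ξ (sp k) (t k) * (κr (sp k) (t k) + lam k (t k))) =
      ∑ k, dξ (sp k) (t k) + ∑ k, ξ (sp k) (t k) * κr (sp k) (t k) +
        ∑ k, ξ (sp k) (t k) * lam k (t k) := by
    rw [← Finset.sum_add_distrib, ← Finset.sum_add_distrib]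
    exact Finset.sum_congr rfl fun k _ => by ring
  unfold nuL nuQ
  rw [h2, h3, h4, h1]
  rw [← Finset.mul_sum]
  linear_combination hE

/-- `∑ ξ lam` for a force `lam b` which depends on the species only -/
theorem nuL_eq (sp : ι → S) (ρ f : S → ℝ → ℂ) (t : ι → ℝ) :
    ∑ k, f (sp k) (t k) = ∑ b, (∫ u, ρ b u * f b u) + nuL sp ρ f t := by
  unfold nuL
  ring

/-- **the Ward identity of the gas**, insertion `O` -/
theorem gasWard {r : ι → ι → Prop} (hr : Tourn r) (sp : ι → S) {ρ ξ dξ κr g : S → ℝ → ℂ}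
    {lam : ι → ℝ → ℂ} {a : S → S → ℝ → ℝ → ℂ} {h : ι → ℝ → ℂ} {w w' : ι → ι → ℝ → ℂ}
    {O : (ι → ℝ) → ℂ} {dO : ι → (ι → ℝ) → ℂ}
    (has : ∀ b c s t, a b c s t = a c b t s) (had : ∀ b t, a b b t t = 2 * dξ b t)
    (hg : ∀ b s, g b s = -(ξ b s * κr b s + smr ρ a b s))
    (hI1 : ∀ b, Integrable fun s => ρ b s * (ξ b s * κr b s))
    (hI2 : ∀ b, Integrable fun s => ρ b s * smr ρ a b s)
    (hE : ∑ b, (∫ s, ρ b s * (ξ b s * κr b s)) + (1 / 2) * dbl ρ a = 0)
    (hh : ∀ i t, HasDerivAt (h i) ((κr (sp i) t + lam i t) * h i t) t)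
    (hw : ∀ i j u, HasDerivAt (w i j) (w' i j u) u)
    (hξ : ∀ b t, HasDerivAt (ξ b) (dξ b t) t)
    (ha : ∀ i j s t, (ξ (sp i) s - ξ (sp j) t) * w' i j (s - t) =
      a (sp i) (sp j) s t * w i j (s - t))
    (hO : ∀ k t, HasLineDerivAt ℝ O (dO k t) t (Pi.single k 1))
    (h0 : ∀ k, Integrable (fun t : ι → ℝ => ξ (sp k) (t k) * (O t * Phi r h w t)))
    (h1 : ∀ k, Integrable (fun t : ι → ℝ => dξ (sp k) (t k) * (O t * Phi r h w t)))
    (h2 : ∀ k, Integrable (fun t : ι → ℝ => ξ (sp k) (t k) * (dO k t * Phi r h w t)))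
    (h3 : ∀ k, Integrable (fun t : ι → ℝ => ξ (sp k) (t k) *
      (O t * dPhi r h (fun i t => κr (sp i) t + lam i t) w w' k t))) :
    ∫ t : ι → ℝ, ((-nuL sp ρ g t + nuQ sp ρ a t + ∑ k, ξ (sp k) (t k) * lam k (t k)) * O t +
      ∑ k, ξ (sp k) (t k) * dO k t) * Phi r h w t = 0 := by
  have key := ward (r := r) (h := h) (κ := fun i t => κr (sp i) t + lam i t) (w := w) (w' := w')
    (ξ := fun i => ξ (sp i)) (dξ := fun i => dξ (sp i))
    (a := fun i j => a (sp i) (sp j)) (O := O) (dO := dO) hh hw (fun i => hξ (sp i)) ha hO h0 h1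
    h2 h3
  rw [← key]
  refine integral_congr_ae (Filter.Eventually.of_forall fun t => ?_)
  simp only []
  rw [gasAlg hr sp has had hg hI1 hI2 hE t]

end PB

end
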