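import Pool.Agent.PB.UXfin
import Pool.Agent.PB.VInst
import Pool.Agent.PB.LogZ
import Pool.Agent.NUSea.Bridge
import Pool.Agent.PB.FldX
import Pool.Agent.PB.Mom4L

/-!
# Plan B: the family of the second Ward identity (helper91)

Rows `rowS j s` (one row at `i s`, `j` rows at `0`), legs at `i t`, `m = j + 1`.

* `ZF`, `rhS`, `eC`, `eC'`, `cF`: one body functions, density, curves, prefactor; `wS` the weight
  (`wS_eq`: it is the weight of helper79's family `famL`);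
* `dn_rows`: the density of the rows is admissible; `seaL_rhS`, `seaF_rhS`;
* `Kj`, `dj`: sizes of the moments, independent of `s`, `t`;
* **`mbdS`**, **`mom4S`**: the moments of the family, all `s`, `t` in `[0, 1]`, large `j`;
* `SmallP a0 ep e1 J`: the conditions on the parameters.
-/

set_option autoImplicit false
set_option linter.unusedSectionVars false

noncomputable section

open Complex MeasureTheory Filter Topology Set
open scoped ENNReal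

namespace PBLX

open NUO NUP1S NUP1S.Ab NUP1S.AbC NUGC PBF PBFunc PBU
open NUP1 hiding Kd
open PBEI (rowS rowS_zero rowS_ne rowS_ok)
open PBQ1 (hr)

attribute [local instance] NUSea.seaP

/-- the one body functions -/
abbrev ZF (ep : ℝ) (j : ℕ) (s t : ℝ) : Bool → Option O3 → ℂ → ℂ :=
  PBX.ZL (4 / 3 * (1 - ep)) (rowS j s) [I, -I] [] (I * t)

/-- the density of the rows -/
abbrev rhS (j : ℕ) (s : ℝ) : ℂ → ℂ := fun z => PBForce.rhoR (rowS j s) (NUP1.l + I * z)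

/-- the curves -/
abbrev eC (e1 J : ℝ) (j : ℕ) : ℕ → Crs := fun _ => cr e1 J (j + 1)

/-- their slopes -/
abbrev eC' (e1 J : ℝ) (j : ℕ) : ℕ → Crs := fun _ => cr' e1 J (j + 1)

/-- the prefactor -/
abbrev cF (j : ℕ) (s t : ℝ) : ℕ → ℂ := fun _ => Pool.Agent.PB.Pf (I * t) (rowS j s) (rowS j s)

/-- the parameters of the objects -/
abbrev pS (j : ℕ) : ℕ → NUO.Par := fun _ => NUSea.O.par0 (j + 1)

/-- **the weight of the family** -/
abbrev wS (ep e1 J : ℝ) (j : ℕ) (s t : ℝ) : CfN (2 * (j + 1)) → ℂ :=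
  wN (fun _ => ZF ep j s t) (pS j) (2 * (j + 1)) (eC e1 J j) (eC' e1 J j) (cF j s t)

theorem wS_eq (ep e1 J : ℝ) (j : ℕ) (s t : ℝ) :
    wS ep e1 J j s t = wF famL ep e1 J (j + 1) (I * s, I * t) := rfl

/-- the conditions on the parameters -/
structure SmallP (a0 ep e1 J : ℝ) : Prop where
  ep0 : 0 < ep
  ep1 : ep ≤ 1 / 100
  e0 : 0 < e1
  e1' : e1 ≤ 1 / 100
  J0 : 0 ≤ J
  sm : Real.exp (-(2 * Real.pi * J)) + 3 * e1 + 3 * ep ≤ a0

theorem SmallP.mono {a0 a1 ep e1 J : ℝ} (h : SmallP a0 ep e1 J) (ha : a0 ≤ a1) :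
    SmallP a1 ep e1 J := ⟨h.ep0, h.ep1, h.e0, h.e1', h.J0, h.sm.trans ha⟩

/-! ### the density -/

theorem hr_rowS_zero (j : ℕ) (s : ℝ) : hr (rowS j s 0) = s := by
  rw [rowS_zero]
  unfold PBQ1.hr
  linear_combination (-(s : ℂ)) * I_mul_I

theorem hr_rowS_succ (j : ℕ) (s : ℝ) (i : Fin j) : hr (rowS j s i.succ) = 0 := by
  rw [rowS_ne j s (Fin.succ_ne_zero i)]
  unfold PBQ1.hr
  ring

theorem im_rowS {b : ℝ} (j : ℕ) (s : ℝ) {z : ℂ} (hz : |z.im| < b) (i : Fin (j + 1)) :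
    |(z - hr (rowS j s i)).im| < b := by
  refine Fin.cases ?_ (fun i => ?_) i
  · rw [hr_rowS_zero, sub_im, ofReal_im, sub_zero]
    exact hz
  · rw [hr_rowS_succ, sub_zero]
    exact hz

/-- the density is the one of `LogZ` -/
theorem rhS_eq (j : ℕ) (s : ℝ) {z : ℂ} (hz : |z.im| < NUP1.l) :
    rhS j s z = PBLZ.rhoH (rowS j s) z := PBLZ.rhoH_eq (im_rowS j s hz)

theorem rhS_real (j : ℕ) (s t : ℝ) :
    rhS j s t = ((NUMF.P (t - s) + j * NUMF.P t : ℝ) : ℂ) := by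
  rw [rhS_eq j s (by simpa using NUP1.Bd.l_pos)]
  unfold PBLZ.rhoH
  rw [Fin.sum_univ_succ, hr_rowS_zero]
  simp only [hr_rowS_succ, sub_zero, Finset.sum_const, Finset.card_univ, Fintype.card_fin,
    nsmul_eq_mul]
  rw [← ofReal_sub, NUMF.Pc_ofReal, NUMF.Pc_ofReal]
  push_cast
  rfl

theorem rhS_integrable (j : ℕ) (s : ℝ) : Integrable fun t : ℝ => rhS j s t := by
  have hP : Integrable NUMF.P := NUMF.P_integrable
  have h1 : Integrable fun t : ℝ => NUMF.P (t - s) + j * NUMF.P t :=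
    (hP.comp_sub_right s).add (hP.const_mul _)
  refine (h1.ofReal (𝕜 := ℂ)).congr (Eventually.of_forall fun t => ?_)
  exact (rhS_real j s t).symm

/-- **the density of the rows is admissible** -/
theorem dn_rows : ∃ C0 : ℝ, 0 ≤ C0 ∧ ∀ (j : ℕ) (s : ℝ), DN C0 (j + 1) fun t : ℝ => rhS j s t := by
  have hP : Integrable NUMF.P := NUMF.P_integrable
  refine ⟨(∫ t, |NUMF.P t|) + ∫ t, |NUMF.P t|, add_nonneg
    (integral_nonneg fun _ => abs_nonneg _) (integral_nonneg fun _ => abs_nonneg _),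
    fun j s => ⟨rhS_integrable j s, ?_⟩⟩
  have e1 : ∫ t, |NUMF.P (t - s)| = ∫ t, |NUMF.P t| :=
    integral_sub_right_eq_self (fun t => |NUMF.P t|) s
  have hP' : Integrable fun t => |NUMF.P (t - s)| := (hP.comp_sub_right s).abs
  have e2 : ∫ t, (|NUMF.P (t - s)| + |NUMF.P t|) = (∫ t, |NUMF.P t|) + ∫ t, |NUMF.P t| := by
    rw [integral_add hP' hP.abs, e1]
  rw [← e2]
  refine integral_mono_of_nonneg (Eventually.of_forall fun _ => norm_nonneg _)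
    (hP'.add hP.abs) (Eventually.of_forall fun t => ?_)
  have e3 : rhS j s t - (((j + 1 : ℕ) : ℝ) : ℂ) * ((NUSea.P t : ℝ) : ℂ) =
      ((NUMF.P (t - s) - NUMF.P t : ℝ) : ℂ) := by
    rw [rhS_real, show NUSea.P t = NUMF.P t from rfl]
    push_cast
    ring
  simp only []
  rw [e3, Complex.norm_real, Real.norm_eq_abs]
  exact abs_sub _ _

/-- the lower bound of the density, one constant -/
theorem seaL_rhS {b : ℝ} (hb0 : 0 ≤ b) (hb : b < NUP1.l) : ∃ c0 : ℝ, 0 < c0 ∧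
    ∀ (j : ℕ) (s : ℝ), |s| ≤ 1 → PBE.SeaL b c0 ((j + 1 : ℕ) : ℝ) (rhS j s) ∧
      PB.SeaF b (rhS j s) := by
  obtain ⟨c0, h0, h⟩ := PBE.seaL_rows hb0 hb
  exact ⟨c0, h0, fun j s hs => h (j + 1) (rowS j s) (Nat.succ_pos j) (rowS_ok j hs)⟩

/-! ### the moments -/

/-- the constant of the second moments -/
def Kj (ε : ℝ) (j : ℕ) : ℝ := 6 * (((j : ℝ) + 1) ^ ε * Real.exp 2)

/-- the size of the pins -/
def dj (ε e1 q : ℝ) (j : ℕ) : ℝ :=
  3 * ((j : ℝ) + 1) ^ (-(3 / 8 * q * (1 - 4 * e1))) * (((j : ℝ) + 1) ^ ε * Real.exp 2)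

theorem Kj_pos (ε : ℝ) (j : ℕ) : 0 < Kj ε j := by unfold Kj; positivity

theorem dj_pos (ε e1 q : ℝ) (j : ℕ) : 0 < dj ε e1 q j := by unfold dj; positivity

theorem MBd.mono {N : ℕ} {Z : ℕ → Bool → Option O3 → ℂ → ℂ} {P : ℕ → NUO.Par} {η η' : ℕ → Crs}
    {c : ℕ → ℂ} {ρ : ℂ → ℂ} {y₁ y₂ K K' q dp dp' : ℝ} (h : MBd N Z P η η' c ρ y₁ y₂ K q dp)
    (hK0 : 0 ≤ K) (hK : K ≤ K') (hd : dp ≤ dp') : MBd N Z P η η' c ρ y₁ y₂ K' q dp' where
  one := M2.mono h.one zero_le_one le_rfl hK hK0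
  vy M g hM hg hm := M2.mono (h.vy M g hM hg hm) hM le_rfl hK hK0
  pin := L1.mono h.pin hd
  pinv M g hM hg hm := L1.mono (h.pinv M g hM hg hm) (mul_le_mul_of_nonneg_left hd hM)

/-- the index is admissible -/
theorem ok_famL (j : ℕ) {s t : ℝ} (hs : s ∈ Icc (0 : ℝ) 1) (ht : t ∈ Icc (0 : ℝ) 1) :
    famL.ok (j + 1) (I * s, I * t) := by
  have hl := NUP1.Bd.l_pos
  have hlog : 0 ≤ Real.log ((j + 1 : ℕ) : ℝ) := Real.log_natCast_nonneg _
  refine ⟨?_, ?_, ?_, ?_, ?_⟩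
  · simp only [mul_re, I_re, ofReal_re, I_im, ofReal_im]
    rw [zero_mul, mul_zero, sub_zero, abs_zero]
    positivity
  · simp only [mul_im, I_re, ofReal_re, I_im, ofReal_im]
    rw [zero_mul, one_mul, zero_add, abs_of_nonneg hs.1]
    linarith [hs.2]
  · simp only [mul_re, I_re, ofReal_re, I_im, ofReal_im]
    linarith
  · simp only [mul_re, I_re, ofReal_re, I_im, ofReal_im]
    linarith
  · simp only [mul_im, I_re, ofReal_re, I_im, ofReal_im]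
    rw [zero_mul, one_mul, zero_add, abs_of_nonneg ht.1]
    linarith [ht.2]

/-- **the moments of the family** -/
theorem mbdS {q ε : ℝ} (hq0 : 0 ≤ q) (hq : q ≤ 8 / 3) (hε : 0 < ε) :
    ∃ a0 : ℝ, 0 < a0 ∧ ∀ ep e1 J : ℝ, SmallP a0 ep e1 J → ∀ y₁ y₂ : ℝ, y₁ < 0 → 0 < y₂ →
    ∀ᶠ j : ℕ in atTop, ∀ s ∈ Icc (0 : ℝ) 1, ∀ t ∈ Icc (0 : ℝ) 1,
      MBd (2 * (j + 1)) (fun _ => ZF ep j s t) (pS j) (eC e1 J j) (eC' e1 J j) (cF j s t)
        (rhS j s) y₁ y₂ (Kj ε j) q (dj ε e1 q j) := by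
  obtain ⟨a0, ha0, H⟩ := uxL 2 6 ε hε
  obtain ⟨C0, -, hC0⟩ := dn_rows
  refine ⟨a0, ha0, fun ep e1 J hp y₁ y₂ h1 h2 => ?_⟩
  have hUB : UB famL ep e1 J 2 6 ε := H ep e1 J hp.ep0 hp.e0 hp.J0 hp.sm
  obtain ⟨m0, hm0⟩ := hUB.mbd le_rfl le_rfl hq0 hq C0 y₁ y₂ h1 h2
  filter_upwards [eventually_ge_atTop m0] with j hj s hs t ht
  have key := hm0 (j + 1) (by omega) (I * s, I * t) (ok_famL j hs ht)
    (mc_famL ep e1 J (j + 1) _) (rhS j s) (hC0 j s)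
  have hb : famL.bd (j + 1) (I * (s : ℂ), I * (t : ℂ)) ≤ Real.exp 2 := by
    show Real.exp (2 * |(I * (t : ℂ)).im|) ≤ _
    simp only [mul_im, I_re, ofReal_re, I_im, ofReal_im]
    rw [zero_mul, one_mul, zero_add, abs_of_nonneg ht.1, Real.exp_le_exp]
    linarith [ht.2]
  have hb0 : 0 ≤ famL.bd (j + 1) (I * (s : ℂ), I * (t : ℂ)) := (Real.exp_pos _).le
  have hj1 : (0 : ℝ) < ((j + 1 : ℕ) : ℝ) := by positivity
  have ec : ((j + 1 : ℕ) : ℝ) = (j : ℝ) + 1 := by push_cast; rfl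
  refine MBd.mono key (by positivity) ?_ ?_
  · unfold Kj
    rw [← ec]
    gcongr
  · unfold dj
    rw [← ec]
    gcongr

/-- the density is measurable on the real line -/
theorem rhS_meas (j : ℕ) {s : ℝ} (hs : |s| ≤ 1) : Measurable fun u : ℝ => rhS j s u := by
  have hl := NUP1.Bd.l_pos
  obtain ⟨c0, -, h⟩ := seaL_rhS (b := NUP1.l / 2) (by positivity) (by linarith)
  have hF := (h j s hs).2
  have hc : Continuous fun u : ℝ => rhS j s u := continuous_iff_continuousAt.2 fun u =>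
    (hF.d _ (by simpa using hl)).continuousAt.comp Complex.continuous_ofReal.continuousAt
  exact hc.measurable

/-- **products of four statistics at the family** -/
theorem mom4S {ε : ℝ} (hε : 0 < ε) :
    ∃ a0 : ℝ, 0 < a0 ∧ ∀ ep e1 J : ℝ, SmallP a0 ep e1 J → ∀ y₁ y₂ : ℝ, y₁ < 0 → 0 < y₂ →
    ∀ᶠ j : ℕ in atTop, ∀ s ∈ Icc (0 : ℝ) 1, ∀ t ∈ Icc (0 : ℝ) 1,
      PBQM.Mom4 (mN (2 * (j + 1))) (wS ep e1 J j s t)
        (PBQM.VN (2 * (j + 1)) (eC e1 J j) (rhS j s)) y₁ y₂ (Kj ε j) := by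
  obtain ⟨a0, ha0, H⟩ := mom4L hε
  obtain ⟨C0, -, hC0⟩ := dn_rows
  refine ⟨a0, ha0, fun ep e1 J hp y₁ y₂ h1 h2 => ?_⟩
  obtain ⟨m0, hm0⟩ := H ep e1 J hp.ep0 hp.e0 hp.e1' hp.J0 hp.sm C0 y₁ y₂ h1 h2
  filter_upwards [eventually_ge_atTop m0] with j hj s hs t ht
  have key := hm0 (j + 1) (by omega) (I * s, I * t) (ok_famL j hs ht) (rhS j s)
    (rhS_meas j (abs_le.2 ⟨by linarith [hs.1], hs.2⟩)) (hC0 j s)
  have hb : famL.bd (j + 1) (I * (s : ℂ), I * (t : ℂ)) ≤ Real.exp 2 := by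
    show Real.exp (2 * |(I * (t : ℂ)).im|) ≤ _
    simp only [mul_im, I_re, ofReal_re, I_im, ofReal_im]
    rw [zero_mul, one_mul, zero_add, abs_of_nonneg ht.1, Real.exp_le_exp]
    linarith [ht.2]
  have hb0 : 0 ≤ famL.bd (j + 1) (I * (s : ℂ), I * (t : ℂ)) := (Real.exp_pos _).le
  have ec : ((j + 1 : ℕ) : ℝ) = (j : ℝ) + 1 := by push_cast; rfl
  intro M g hM hg
  refine (key M g hM hg).trans (ENNReal.ofReal_le_ofReal
    (mul_le_mul_of_nonneg_left ?_ (Finset.prod_nonneg fun j _ => hM j)))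
  unfold Kj
  rw [ec]
  have h5 : ((j : ℝ) + 1) ^ ε * famL.bd (j + 1) (I * (s : ℂ), I * (t : ℂ)) ≤
      ((j : ℝ) + 1) ^ ε * Real.exp 2 := mul_le_mul_of_nonneg_left hb (by positivity)
  have h6 : 0 ≤ ((j : ℝ) + 1) ^ ε * Real.exp 2 := by positivity
  linarith

end PBLX

end
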