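import Pool.Agent.PB.QMomC
import Pool.Agent.PB.WPlus

/-!
# Second moment of the quadratic statistic, in the form of the fibres (plan B, I2), both channels

* `xiA_TC`: a decaying analytic function is a field with zero plateaus;
* **`qy_fib`**: `M2` of `Qy` for every field in `PBE.TC (-b) b κ₁ Θ` from `FibN` and `PBQM.Mom4`.
-/

set_option autoImplicit false
set_option linter.unusedSectionVars false

noncomputable section

open Complex MeasureTheory Finset Filter Topology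

namespace PBWP

open NUO NUP1 NUCR NUP1S NUP1S.Ab NUP1S.AbC NUGC PBFunc PBF

/-- a decaying analytic function is a field with zero plateaus -/
theorem xiA_TC {b b₂ κ M : ℝ} {X : ℂ → ℂ} (hX : PBE.TC (-b) b κ M X) (hb : b₂ < b) (h0 : 0 < b₂)
    (hκ : 0 ≤ κ) (hM : 0 ≤ M) :
    PBV.XiA X b₂ (M * (1 + Real.exp (κ * ((b - b₂) / 2)) / ((b - b₂) / 2))) κ 0 0 := by
  have hs : ∀ z : ℂ, |z.im| ≤ (b + b₂) / 2 → z ∈ PBE.Sp (-b) b := fun z hz => by
    obtain ⟨h1, h2⟩ := abs_le.1 hz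
    exact ⟨by linarith, by linarith⟩
  have h := PBV.XiA.of_plateau (ξ := X) (b := b₂) (b' := (b + b₂) / 2) (K := M) (c := κ)
    (xp := 0) (xm := 0) h0 (by linarith) hM hκ
    (fun z hz => hX.an.differentiableAt ((Pool.Agent.PB.isOpen_Sp _ _).mem_nhds (hs z hz)))
    (fun z hz _ => by rw [sub_zero]; exact hX.bd z (hs z hz))
    (fun z hz _ => by rw [sub_zero]; exact hX.bd z (hs z hz))
  have e : (b + b₂) / 2 - b₂ = (b - b₂) / 2 := by ring
  rw [e, sub_zero, norm_zero, add_zero] at h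
  exact h

/-- **second moment of the quadratic statistic** -/
theorem qy_fib {b κ₁ y₁ y₂ : ℝ} (hb : b ≤ NUP1.l / 4) (hκ0 : 0 < κ₁) (hκ1 : κ₁ ≤ 1)
    (h1 : -b < y₁) (h1' : y₁ < 0) (h2' : 0 < y₂) (h2 : y₂ < b) :
    ∃ C : ℝ, 0 ≤ C ∧ ∀ {N : ℕ} {Z : ℕ → Bool → Option O3 → ℂ → ℂ} {P : ℕ → NUO.Par}
      {η η' : ℕ → Crs} {c : ℕ → ℂ} {δ b0 b1 : ℝ} {κf : ℕ → ℝ} {LZ : ℕ → Bool → ℂ → ℂ}
      {LP : ℕ → (r : ℕ) → (Fin r → Xo) → Bool → ℂ → ℂ} {ρ : ℂ → ℂ} {K : ℝ}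
      (_ : FibN N Z P η η' δ 0 b0 b1 κf LZ LP ρ) (_ : b0 < -y₁) (_ : b0 < y₂) (_ : 0 ≤ K)
      (_ : PBQM.Mom4 (mN N) (wN Z P N η η' c) (PBQM.VN N η ρ) y₁ y₂ K) {Θ : ℝ}
      {X : Bool → ℂ → ℂ}, (∀ s, PBE.TC (-b) b κ₁ Θ (X s)) →
      M2 (mN N) (wN Z P N η η' c) K (evN fun n => Qy 0 (η n) ρ X) (C * Θ) := by
  have hl := Bd.l_pos
  have hlM : (NUMF.l : ℝ) = NUP1.l := rfl
  have hpi := Real.pi_gt_three
  have hl1 : NUP1.l ≤ 1 := by
    unfold NUP1.l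
    linarith [Real.pi_le_four]
  obtain ⟨C, hC, H⟩ := PBQM.exists_qy (Y := 2 * b) (α := 1)
    (θ := (b - max (-y₁) y₂) / 4) (by rw [hlM]; linarith)
  obtain ⟨M0, hM0⟩ : ∃ M0 : ℝ, M0 = max (-y₁) y₂ := ⟨_, rfl⟩
  rw [← hM0] at H
  have hm1 : -y₁ ≤ M0 := hM0 ▸ le_max_left _ _
  have hm2 : y₂ ≤ M0 := hM0 ▸ le_max_right _ _
  have hmb : M0 < b := by
    rw [hM0]
    exact max_lt (by linarith) h2
  obtain ⟨θ, hθ⟩ : ∃ θ : ℝ, θ = (b - M0) / 4 := ⟨_, rfl⟩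
  rw [← hθ] at H
  have hθ0 : 0 < θ := by rw [hθ]; linarith
  obtain ⟨b₂, hb₂⟩ : ∃ b₂ : ℝ, b₂ = (b + M0) / 2 := ⟨_, rfl⟩
  have hbb : b₂ < b := by rw [hb₂]; linarith
  have hb20 : 0 < b₂ := by rw [hb₂]; linarith
  have hθb : M0 + θ < b₂ := by rw [hθ, hb₂]; linarith
  have G : PBV.Geo y₁ y₂ (y₁ - θ) (y₂ + θ) θ 1 b₂ (2 * b) :=
    ⟨hθ0, by linarith, by linarith, one_pos, by linarith, by
      rw [abs_lt]; constructor <;> linarith, by rw [abs_lt]; constructor <;> linarith,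
      by rw [hlM]; linarith, by rw [hlM]; linarith, by linarith, by linarith⟩
  refine ⟨C * (1 + Real.exp (κ₁ * ((b - b₂) / 2)) / ((b - b₂) / 2)) / κ₁, by
    have : 0 < (b - b₂) / 2 := by linarith
    positivity, ?_⟩
  intro N Z P η η' c δ b0 b1 κf LZ LP ρ K hF hb01 hb02 hK h4 Θ X hX
  have hΘ : 0 ≤ Θ := (hX true).nonneg (by linarith) (by linarith)
  have hr : ∀ t : ℝ, |((t : ℂ)).im| < b1 := fun t => by simpa using hF.b1p
  have c1 : Continuous fun t : ℝ => ρ t := continuous_iff_continuousAt.2 fun t =>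
    (hF.sea.d _ (hr t)).continuousAt.comp Complex.continuous_ofReal.continuousAt
  have i1 : Integrable fun t : ℝ => ρ t := by
    have h := int_rho hF.sea hF.b1p (f := fun _ => (1 : ℂ)) (B := 1)
      (fun z _ => differentiableAt_const _) (fun t => by simp)
    simpa using h
  have key := H G h1' h2' (by rw [hlM]; linarith)
    (fun s => xiA_TC (hX s) hbb hb20 hκ0.le hΘ) hκ0 hκ1 (N := N)
    (w := wN Z P N η η' c) (η := η) (η' := η') (ρ := ρ) (K := K)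
    (wN_meas hF.mZ).aestronglyMeasurable hK hF.mc
    (fun n hn r O t => by
      have h5 := hF.hs n hn r O t
      rw [sub_zero, abs_le] at h5
      exact ⟨by linarith, by linarith⟩) i1 c1.measurable h4
  refine key.mono ?_ (le_of_eq ?_) le_rfl hK
  · have : 0 < (b - b₂) / 2 := by linarith
    positivity
  · ring

end PBWP

end
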