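import Pool.Agent.PB.WMinA
import Pool.Agent.PB.UBN
import Pool.Agent.PB.FldX

/-!
# Plan B: the minus channel of level two (`LevD.wm`, `LevD.ws`)

* `tgh_eq`: the step of `PB/WaveE` is the step of `PB/NormX` in the strip; `dk_TC`, `dk_step`;
* `mass_zero`: the field of a test function has no mass;
* `m2_V`, `l1_pV`: moments of the statistics from `PBU.MBd`;
* `Pp_min`, `Pp_step`: the response of the objects is pinned;
* `wm_core`: one field; **`wm_of`**: `WMi` of every test function and of the step.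
-/

set_option autoImplicit false
set_option linter.unusedSectionVars false

noncomputable section

open Complex MeasureTheory Finset
open scoped ENNReal

namespace PBWM

open NUO NUP1 NUCR NUP1S NUP1S.Ab NUP1S.AbC NUGC PBFunc PBF PBWP PBOR
open Pool.Agent.PB (CmV CsV CssV)
open PBE (TC SeaL XS thX sg2 mass bS)
open PBU (BC MBd)

variable [NUSea.Sea]

/-! ### moments -/

section gen

variable {Ω : Type*} [MeasurableSpace Ω] {μ : Measure Ω} {w A B : Ω → ℂ} {K a b : ℝ}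

theorem m2_add (ha : 0 ≤ a) (hb : 0 ≤ b) (hK : 0 ≤ K) (hw : AEStronglyMeasurable w μ)
    (hA : AEStronglyMeasurable A μ) (h : M2 μ w K A a) (h' : M2 μ w K B b) :
    M2 μ w K (fun ω => A ω + B ω) (a + b) := by
  refine PBU.M2.of_pos fun M' hM' => ?_
  obtain ⟨e, he⟩ : ∃ e : ℝ, e = (M' - (a + b)) / 2 := ⟨_, rfl⟩
  have he0 : 0 < e := by rw [he]; linarith
  have h1 : M2 μ w K A (a + e) := h.mono ha (by linarith) le_rfl hK
  have h2 : M2 μ w K B (b + e) := h'.mono hb (by linarith) le_rfl hK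
  have h3 := h1.add (by linarith) (by linarith) hw hA h2
  have : a + e + (b + e) = M' := by rw [he]; ring
  rwa [this] at h3

theorem m2_c (h : M2 μ w K (fun _ => 1) 1) (c : ℂ) : M2 μ w K (fun _ => c) ‖c‖ := by
  have := h.smul c
  simpa using this

theorem m2_le_c {c : ℝ} (h : M2 μ w K B b) (hle : ∀ ω, ‖A ω‖ ≤ c * ‖B ω‖) :
    M2 μ w K A (c * b) := by
  unfold M2 at *
  calc ∫⁻ ω, ENNReal.ofReal (‖w ω‖ * ‖A ω‖ ^ 2) ∂μ ≤
      ∫⁻ ω, ENNReal.ofReal (c ^ 2) * ENNReal.ofReal (‖w ω‖ * ‖B ω‖ ^ 2) ∂μ := by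
        refine lintegral_mono fun ω => ?_
        simp only []
        rw [← ENNReal.ofReal_mul (by positivity)]
        apply ENNReal.ofReal_le_ofReal
        have h1 : ‖A ω‖ ^ 2 ≤ (c * ‖B ω‖) ^ 2 := pow_le_pow_left₀ (norm_nonneg _) (hle ω) 2
        have h2 := mul_le_mul_of_nonneg_left h1 (norm_nonneg (w ω))
        refine h2.trans (le_of_eq ?_)
        ring
    _ = ENNReal.ofReal (c ^ 2) * ∫⁻ ω, ENNReal.ofReal (‖w ω‖ * ‖B ω‖ ^ 2) ∂μ :=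
        lintegral_const_mul' _ _ ENNReal.ofReal_ne_top
    _ ≤ ENNReal.ofReal (c ^ 2) * ENNReal.ofReal (b ^ 2 * K) := mul_le_mul' le_rfl h
    _ = _ := by
        rw [← ENNReal.ofReal_mul (by positivity)]
        congr 1
        ring

theorem l1_le_c {c : ℝ} (hc : 0 ≤ c) (h : L1 μ w B b) (hle : ∀ ω, ‖A ω‖ ≤ c * ‖B ω‖) :
    L1 μ w A (c * b) := by
  unfold L1 at *
  calc ∫⁻ ω, ENNReal.ofReal (‖w ω‖ * ‖A ω‖) ∂μ ≤
      ∫⁻ ω, ENNReal.ofReal c * ENNReal.ofReal (‖w ω‖ * ‖B ω‖) ∂μ := by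
        refine lintegral_mono fun ω => ?_
        simp only []
        rw [← ENNReal.ofReal_mul hc]
        apply ENNReal.ofReal_le_ofReal
        have h2 := mul_le_mul_of_nonneg_left (hle ω) (norm_nonneg (w ω))
        refine h2.trans (le_of_eq ?_)
        ring
    _ = ENNReal.ofReal c * ∫⁻ ω, ENNReal.ofReal (‖w ω‖ * ‖B ω‖) ∂μ :=
        lintegral_const_mul' _ _ ENNReal.ofReal_ne_top
    _ ≤ ENNReal.ofReal c * ENNReal.ofReal b := mul_le_mul' le_rfl h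
    _ = _ := (ENNReal.ofReal_mul hc).symm

theorem wmi_mono {y₁ y₂ a K K' θ θ' δp δp' M : ℝ} {V : (ℂ → ℂ) → Ω → ℂ} {S Y : Ω → ℂ}
    {C : (ℂ → ℂ) → ℂ} {Cs : ℂ} {D : (ℂ → ℂ) → Ω → ℂ} {Ds Q P : Ω → ℂ}
    (h : PBE.WMi y₁ y₂ a μ w K θ δp M V S Y C Cs D Ds Q P) (h1 : y₁ < 0) (h2 : 0 < y₂)
    (hM : 0 ≤ M) (hK0 : 0 ≤ K) (hK : K ≤ K') (hθ0 : 0 ≤ θ) (hθ : θ ≤ θ') (hδ : δp ≤ δp') :
    PBE.WMi y₁ y₂ a μ w K' θ' δp' M V S Y C Cs D Ds Q P where
  two := h.two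
  step := h.step
  mQ := h.mQ
  mP := h.mP
  q2 := h.q2.mono (by positivity) (by gcongr) hK hK0
  mD := h.mD
  mDs := h.mDs
  d2 M' k hk := by
    have := hk.nonneg h1 h2
    exact (h.d2 M' k hk).mono (by positivity) (by gcongr) hK hK0
  ds2 := h.ds2.mono (by positivity) (by gcongr) hK hK0
  p2 M' k hk := by
    have := hk.nonneg h1 h2
    exact (h.p2 M' k hk).mono (by gcongr)
  ps := h.ps.mono (by gcongr)

end gen

/-! ### the two steps -/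

theorem tgh_eq {z : ℂ} (hz : |z.im| ≤ Real.pi / 8) : PBV.tgh z = PB.NX.sgC z := by
  have h0 := PB.NX.exp_re_nonneg hz
  have h1 : Complex.exp (4 * z) + 1 ≠ 0 := by
    intro h
    have := congrArg Complex.re h
    rw [add_re, one_re, zero_re] at this
    linarith
  have e1 : Complex.exp (4 * z) = Complex.exp (2 * z) * Complex.exp (2 * z) := by
    rw [← Complex.exp_add]
    congr 1
    ring
  have h2 := Complex.exp_ne_zero (2 * z)
  unfold PBV.tgh PB.NX.sgC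
  rw [Complex.sinh, Complex.cosh, Complex.exp_neg]
  rw [e1] at h1 ⊢
  generalize Complex.exp (2 * z) = E at h1 h2 ⊢
  have h3 : E ^ 2 + 1 ≠ 0 := by rwa [pow_two]
  have e5 : E + E⁻¹ = (E ^ 2 + 1) / E := by field_simp
  have e6 : E - E⁻¹ = (E ^ 2 - 1) / E := by field_simp
  rw [e5, e6, ← pow_two]
  field_simp
  ring

theorem deriv_sgC {z : ℂ} (hz : |z.im| < Real.pi / 8) :
    deriv PB.NX.sgC z = deriv PBV.tgh z := by
  refine Filter.EventuallyEq.deriv_eq ?_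
  have ho : IsOpen {w : ℂ | |w.im| < Real.pi / 8} :=
    isOpen_lt (by fun_prop) continuous_const
  filter_upwards [ho.mem_nhds hz] with w hw
  exact (tgh_eq (le_of_lt hw)).symm

/-- the derivative of the step -/
theorem dk_step {b : ℝ} (hb : 0 < b) (hbl : b < NUP1.l) : ∃ D : ℝ, 0 ≤ D ∧
    ∀ z : ℂ, |z.im| < b → DifferentiableAt ℂ (deriv PB.NX.sgC) z ∧
      ‖deriv PB.NX.sgC z‖ ≤ D := by
  have hl : Real.pi / 8 = NUP1.l := rfl
  have hl2 : NUMF.l = NUP1.l := rfl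
  have hl0 := Bd.l_pos
  obtain ⟨h1, -⟩ := PBE.tgh_TC hb (by rw [hl2]; linarith : b < 2 * NUMF.l)
  have hD : 0 ≤ 8 / Real.cos (2 * b) ^ 2 := by positivity
  refine ⟨_, hD, fun z hz => ?_⟩
  have hz' := abs_lt.1 hz
  have h2 : DifferentiableAt ℂ (deriv PBV.tgh) z := h1.dAt ⟨by linarith, by linarith⟩
  have h3 := h1.bd z ⟨by linarith, by linarith⟩
  have hzl : |z.im| < Real.pi / 8 := by rw [hl]; linarith
  refine ⟨?_, ?_⟩
  · refine h2.congr_of_eventuallyEq ?_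
    have ho : IsOpen {w : ℂ | |w.im| < Real.pi / 8} :=
      isOpen_lt (by fun_prop) continuous_const
    filter_upwards [ho.mem_nhds hzl] with w hw
    exact deriv_sgC hw
  · rw [deriv_sgC hzl]
    refine h3.trans (mul_le_of_le_one_right hD (Real.exp_le_one_iff.2 ?_))
    have := abs_nonneg z.re
    linarith

/-- the derivative of a test function -/
theorem dk_TC {y₁ y₂ a M b r : ℝ} {k : ℂ → ℂ} (hk : TC y₁ y₂ a M k) (ha : 0 ≤ a) (hM : 0 ≤ M)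
    (hr : 0 < r) (h1 : y₁ + r ≤ -b) (h2 : b ≤ y₂ - r) {z : ℂ} (hz : |z.im| < b) :
    DifferentiableAt ℂ (deriv k) z ∧ ‖deriv k z‖ ≤ M * (Real.exp (a * r) / r) := by
  have hd := Pool.Agent.PB.TC_derivTC hk ha hM hr
  have hz' := abs_lt.1 hz
  have hm : z ∈ PBE.Sp (y₁ + r) (y₂ - r) := ⟨by linarith, by linarith⟩
  refine ⟨hd.dAt hm, (hd.bd z hm).trans ?_⟩
  have h3 : Real.exp (-(a * |z.re|)) ≤ 1 := Real.exp_le_one_iff.2 (by
    have := mul_nonneg ha (abs_nonneg z.re)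
    linarith)
  have h4 : 0 ≤ M * Real.exp (a * r) / r := by positivity
  calc M * Real.exp (a * r) / r * Real.exp (-(a * |z.re|)) ≤ M * Real.exp (a * r) / r * 1 :=
        mul_le_mul_of_nonneg_left h3 h4
    _ = _ := by ring

/-- **the field of a test function has no mass** -/
theorem mass_zero {y₁ y₂ a b κ B M : ℝ} {β g : ℂ → ℂ} (hβ : TC (-b) b κ B β) (hκ0 : 0 < κ)
    (hκ : κ < 2) (hb : 0 < b) (hb2 : b < 2 * NUMF.l) (hg : TC y₁ y₂ a M g) (ha : 0 < a)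
    (h1 : y₁ < 0) (h2 : 0 < y₂)
    (he : ∀ z : ℂ, |z.im| < b → ∀ s : Bool, PB.rsp (fun s => sg2 β s) s z = sg2 g s z) :
    mass β = 0 := by
  obtain ⟨C, hC, H⟩ := PBE.fwd_step (κ₂ := κ / 2) (κ₁ := κ) (b := b) (b' := b / 2) (by linarith)
    (by linarith) hκ (by linarith) (by linarith) hb2
  obtain ⟨-, e, te, re⟩ := H B β hβ
  have hM := hg.nonneg h1 h2
  have hB := hβ.nonneg (by linarith) hb
  obtain ⟨c, hc⟩ : ∃ c : ℝ, c = min 4 (min a (κ / 2)) := ⟨_, rfl⟩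
  have hc0 : 0 < c := by
    rw [hc]
    exact lt_min (by norm_num) (lt_min ha (by linarith))
  have hc1 : c ≤ 4 := by rw [hc]; exact min_le_left _ _
  have hc2 : c ≤ a := by rw [hc]; exact (min_le_right _ _).trans (min_le_left _ _)
  have hc3 : c ≤ κ / 2 := by rw [hc]; exact (min_le_right _ _).trans (min_le_right _ _)
  have key : ∀ t : ℝ, 0 ≤ t → ‖4 * mass β‖ ≤ (8 * ‖mass β‖ + M + C * B) *
      Real.exp (-(c * t)) := by
    intro t ht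
    have hz : |((t : ℝ) : ℂ).im| < b / 2 := by rw [ofReal_im, abs_zero]; linarith
    have r1 := re t hz false
    rw [he t (by rw [ofReal_im, abs_zero]; exact hb) false] at r1
    have r2 : g t = e t + 4 * mass β * PBV.tgh t := r1
    have e1 : 4 * mass β = 4 * mass β * (1 - PBV.tgh t) + (g t - e t) := by
      rw [r2]; ring
    have n1 : ‖1 - PBV.tgh (t : ℂ)‖ ≤ 2 * Real.exp (-(c * t)) := by
      have hp := Real.pi_pos
      rw [tgh_eq (by rw [ofReal_im, abs_zero]; positivity)]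
      have := PB.NX.norm_one_sub_sgC (z := (t : ℂ)) (by rw [ofReal_im, abs_zero]; positivity)
        (by rw [ofReal_re]; exact ht)
      rw [ofReal_re, abs_of_nonneg ht] at this
      refine this.trans (mul_le_mul_of_nonneg_left (Real.exp_le_exp.2 ?_) (by norm_num))
      nlinarith
    have n2 : ‖g t‖ ≤ M * Real.exp (-(c * t)) := by
      have := hg.bd (t : ℂ) ⟨by simpa using h1, by simpa using h2⟩
      rw [ofReal_re, abs_of_nonneg ht] at this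
      refine this.trans (mul_le_mul_of_nonneg_left (Real.exp_le_exp.2 ?_) hM)
      nlinarith
    have n3 : ‖e t‖ ≤ C * B * Real.exp (-(c * t)) := by
      have := te.bd (t : ℂ) ⟨by simp; linarith, by simp; linarith⟩
      rw [ofReal_re, abs_of_nonneg ht] at this
      refine this.trans (mul_le_mul_of_nonneg_left (Real.exp_le_exp.2 ?_) (by positivity))
      nlinarith
    rw [e1]
    refine (norm_add_le _ _).trans ?_
    have n4 : ‖4 * mass β * (1 - PBV.tgh (t : ℂ))‖ ≤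
        8 * ‖mass β‖ * Real.exp (-(c * t)) := by
      rw [norm_mul, norm_mul]
      have : ‖(4 : ℂ)‖ = 4 := by simp
      rw [this]
      have := mul_le_mul_of_nonneg_left n1 (by positivity : 0 ≤ 4 * ‖mass β‖)
      linarith
    have n5 := norm_sub_le (g (t : ℂ)) (e t)
    calc _ ≤ 8 * ‖mass β‖ * Real.exp (-(c * t)) + (M * Real.exp (-(c * t)) +
          C * B * Real.exp (-(c * t))) := by linarith
      _ = _ := by ring
  have hlim : Filter.Tendsto (fun t : ℝ => (8 * ‖mass β‖ + M + C * B) * Real.exp (-(c * t)))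
      Filter.atTop (nhds 0) := by
    have h3 : Filter.Tendsto (fun t : ℝ => Real.exp (-(c * t))) Filter.atTop (nhds 0) := by
      refine Real.tendsto_exp_neg_atTop_nhds_zero.comp ?_
      exact Filter.tendsto_id.const_mul_atTop hc0
    simpa using h3.const_mul (8 * ‖mass β‖ + M + C * B)
  have h4 : ‖4 * mass β‖ ≤ 0 := ge_of_tendsto hlim
    (Filter.eventually_atTop.2 ⟨0, fun t ht => key t ht⟩)
  have h5 : 4 * mass β = 0 := norm_le_zero_iff.1 h4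
  simpa using h5

/-! ### the statistics -/

theorem bc_mul {b1 G : ℝ} {f : ℂ → ℂ} (hd : ∀ z : ℂ, |z.im| < b1 → DifferentiableAt ℂ f z)
    (hb : ∀ z : ℂ, |z.im| < b1 → ‖f z‖ ≤ G) {ε : ℂ} (hε : ‖ε‖ ≤ 1) :
    BC (-b1) b1 G fun z => ε * f z where
  an z hz := ((hd z (abs_lt.2 hz)).const_mul _).differentiableWithinAt
  bd z hz := by
    rw [norm_mul]
    have h1 := hb z (abs_lt.2 hz)
    have h2 := mul_le_mul hε h1 (norm_nonneg _) zero_le_one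
    linarith

theorem sg2_eq (f : ℂ → ℂ) (s : Bool) (z : ℂ) : sg2 f s z = -eM s * f z := by
  unfold sg2 eM
  cases s <;> simp

theorem sg2_fun (f : ℂ → ℂ) (s : Bool) : sg2 f s = fun z => -eM s * f z :=
  funext fun z => sg2_eq f s z

theorem norm_sg2 (f : ℂ → ℂ) (s : Bool) (z : ℂ) : ‖sg2 f s z‖ = ‖f z‖ := by
  rw [sg2_eq, norm_mul, norm_neg, norm_eM, one_mul]

theorem bc_sg2 {b1 G : ℝ} {f : ℂ → ℂ} (hd : ∀ z : ℂ, |z.im| < b1 → DifferentiableAt ℂ f z)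
    (hb : ∀ z : ℂ, |z.im| < b1 → ‖f z‖ ≤ G) (s : Bool) : BC (-b1) b1 G (sg2 f s) := by
  rw [sg2_fun]
  exact bc_mul hd hb (by rw [norm_neg, norm_eM])

theorem bc_eM {b1 G : ℝ} {f : ℂ → ℂ} (hd : ∀ z : ℂ, |z.im| < b1 → DifferentiableAt ℂ f z)
    (hb : ∀ z : ℂ, |z.im| < b1 → ‖f z‖ ≤ G) (s : Bool) : BC (-b1) b1 G fun z => eM s * f z :=
  bc_mul hd hb (norm_eM s).le

theorem bd_TC {y₁ y₂ a M b1 : ℝ} {g : ℂ → ℂ} (hg : TC y₁ y₂ a M g) (ha : 0 ≤ a) (hM : 0 ≤ M)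
    (h1 : y₁ ≤ -b1) (h2 : b1 ≤ y₂) {z : ℂ} (hz : |z.im| < b1) : ‖g z‖ ≤ M := by
  have hz' := abs_lt.1 hz
  refine (hg.bd z ⟨by linarith, by linarith⟩).trans (mul_le_of_le_one_right hM
    (Real.exp_le_one_iff.2 ?_))
  have := mul_nonneg ha (abs_nonneg z.re)
  linarith

variable {N : ℕ} {Z : ℕ → Bool → Option O3 → ℂ → ℂ} {P : NUO.Par} {η η' : ℕ → Crs}
  {c : ℕ → ℂ} {δ b0 b1 : ℝ} {kk : ℕ → ℝ} {LZ : ℕ → Bool → ℂ → ℂ}
  {LP : (r : ℕ) → (Fin r → Xo) → Bool → ℂ → ℂ} {ρ : ℂ → ℂ} {K q dp : ℝ}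

theorem norm_evN_mul (Ψ : ℕ → Ins) (ω : CfN N) :
    ‖evN (fun n r O a b x => ((r : ℂ) + 1) * Ψ n r O a b x) ω‖ =
      ((ω.2.1.1 : ℕ) + 1) * ‖evN Ψ ω‖ := by
  show ‖(((ω.2.1.1 : ℕ) : ℂ) + 1) * _‖ = _
  rw [norm_mul, PBU.norm_cn]
  rfl

theorem mVy (h : FibN N Z (fun _ => P) η η' δ 0 b0 b1 kk LZ (fun _ => LP) ρ)
    {g : Bool → ℂ → ℂ} {G : ℝ} (hg : ∀ s, BC (-b1) b1 G (g s)) :
    ∀ n ≤ N, MIn (Vy 0 (η n) ρ g) := fun n hn =>
  MIn.vy (h.mc n hn) (h.hs n hn) h.b01 ρ fun s _ hz =>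
    ((hg s).an.differentiableAt ((Pool.Agent.PB.isOpen_Sp _ _).mem_nhds (abs_lt.1 hz)))

/-- second moment of a statistic -/
theorem m2_V (h : FibN N Z (fun _ => P) η η' δ 0 b0 b1 kk LZ (fun _ => LP) ρ)
    (Bd : MBd N Z (fun _ => P) η η' c ρ (-b1) b1 K q dp) {g : Bool → ℂ → ℂ} {G : ℝ}
    (hG : 0 ≤ G) (hg : ∀ s, BC (-b1) b1 G (g s)) :
    M2 (mN N) (wN Z (fun _ => P) N η η' c) K (evN fun n => Vy 0 (η n) ρ g) G := by
  have h1 := Bd.vy G (fun _ _ => g) hG (fun _ _ s => hg s) (mVy h hg)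
  refine h1.le fun ω => ?_
  rw [norm_evN_mul (fun n => Vy 0 (η n) ρ g) ω]
  have := norm_nonneg (evN (fun n => Vy 0 (η n) ρ g) ω)
  nlinarith [Nat.cast_nonneg (α := ℝ) (ω.2.1.1 : ℕ)]

theorem m2_one (Bd : MBd N Z (fun _ => P) η η' c ρ (-b1) b1 K q dp) :
    M2 (mN N) (wN Z (fun _ => P) N η η' c) K (fun _ => 1) 1 := by
  refine Bd.one.le fun ω => ?_
  show _ ≤ ‖(((ω.2.1.1 : ℕ) : ℂ) + 1)‖
  rw [PBU.norm_cn, norm_one]
  have := Nat.cast_nonneg (α := ℝ) (ω.2.1.1 : ℕ)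
  linarith

/-- a function of the objects at most linear in their number -/
theorem m2_r (Bd : MBd N Z (fun _ => P) η η' c ρ (-b1) b1 K q dp) {A : CfN N → ℂ} {C : ℝ}
    (hC : 0 ≤ C) (hA : ∀ ω : CfN N, ‖A ω‖ ≤ C * (ω.2.1.1 : ℕ)) :
    M2 (mN N) (wN Z (fun _ => P) N η η' c) K A C := by
  have h1 := m2_le_c (A := A) Bd.one fun ω => by
    show _ ≤ C * ‖(((ω.2.1.1 : ℕ) : ℂ) + 1)‖
    rw [PBU.norm_cn]
    have h2 := hA ω
    have : C * ((ω.2.1.1 : ℕ) : ℝ) ≤ C * (((ω.2.1.1 : ℕ) : ℝ) + 1) :=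
      mul_le_mul_of_nonneg_left (by linarith) hC
    linarith
  rwa [mul_one] at h1

theorem norm_pin (ω : CfN N) (r0 : ℝ) :
    ‖evN (fun _ r O a b x => ((r : ℂ) + 1) * PBU.pinI r0 r O a b x) ω‖ =
      ((ω.2.1.1 : ℕ) + 1) * pinR r0 ω.2.2.1 := by
  show ‖(((ω.2.1.1 : ℕ) : ℂ) + 1) * _‖ = _
  rw [norm_mul, PBU.norm_cn, PBU.norm_pinI]
  rfl

/-- pinned term against a statistic -/
theorem l1_pV (h : FibN N Z (fun _ => P) η η' δ 0 b0 b1 kk LZ (fun _ => LP) ρ)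
    (Bd : MBd N Z (fun _ => P) η η' c ρ (-b1) b1 K q dp) {g : Bool → ℂ → ℂ} {G : ℝ}
    (hG : 0 ≤ G) (hg : ∀ s, BC (-b1) b1 G (g s)) {A : CfN N → ℂ} {C : ℝ} (hC : 0 ≤ C)
    (hA : ∀ ω : CfN N, ‖A ω‖ ≤ C * pinR q ω.2.2.1) :
    L1 (mN N) (wN Z (fun _ => P) N η η' c)
      (fun ω => A ω * evN (fun n => Vy 0 (η n) ρ g) ω) (C * (G * dp)) := by
  have h1 := Bd.pinv G (fun _ _ => g) hG (fun _ _ s => hg s) (mVy h hg)
  refine l1_le_c hC h1 fun ω => ?_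
  have e : evN (fun n r O a b x =>
      (((r : ℂ) + 1) * PBU.pinI q r O a b x) * Vy 0 (η n) ρ g r O a b x) ω =
      evN (fun _ r O a b x => ((r : ℂ) + 1) * PBU.pinI q r O a b x) ω *
        evN (fun n => Vy 0 (η n) ρ g) ω := rfl
  rw [e, norm_mul, norm_mul, norm_pin]
  have h2 := hA ω
  have h3 := pinR_nonneg q ω.2.2.1
  have h4 := norm_nonneg (evN (fun n => Vy 0 (η n) ρ g) ω)
  have h5 : 0 ≤ ((ω.2.1.1 : ℕ) : ℝ) := Nat.cast_nonneg _
  calc ‖A ω‖ * ‖evN (fun n => Vy 0 (η n) ρ g) ω‖ ≤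
        C * pinR q ω.2.2.1 * ‖evN (fun n => Vy 0 (η n) ρ g) ω‖ :=
        mul_le_mul_of_nonneg_right h2 h4
    _ = C * (1 * pinR q ω.2.2.1 * ‖evN (fun n => Vy 0 (η n) ρ g) ω‖) := by ring
    _ ≤ _ := by
        gcongr
        linarith

/-- pinned term against a function of the objects -/
theorem l1_pO (Bd : MBd N Z (fun _ => P) η η' c ρ (-b1) b1 K q dp) {A B : CfN N → ℂ} {C D : ℝ}
    (hC : 0 ≤ C) (hD : 0 ≤ D) (hA : ∀ ω : CfN N, ‖A ω‖ ≤ C * pinR q ω.2.2.1)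
    (hB : ∀ ω : CfN N, ‖B ω‖ ≤ D * (ω.2.1.1 : ℕ)) :
    L1 (mN N) (wN Z (fun _ => P) N η η' c) (fun ω => A ω * B ω) (C * D * dp) := by
  refine l1_le_c (by positivity) Bd.pin fun ω => ?_
  rw [norm_mul, norm_pin]
  have h2 := hA ω
  have h3 := pinR_nonneg q ω.2.2.1
  have h5 : 0 ≤ ((ω.2.1.1 : ℕ) : ℝ) := Nat.cast_nonneg _
  calc ‖A ω‖ * ‖B ω‖ ≤ C * pinR q ω.2.2.1 * (D * (ω.2.1.1 : ℕ)) :=
        mul_le_mul h2 (hB ω) (norm_nonneg _) (by positivity)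
    _ = C * D * (((ω.2.1.1 : ℕ) : ℝ) * pinR q ω.2.2.1) := by ring
    _ ≤ _ := by
        gcongr
        linarith

/-! ### the response of the objects -/

/-- the forces of the objects in the two forms -/
abbrev OkLP (P : NUO.Par) (LP : (r : ℕ) → (Fin r → Xo) → Bool → ℂ → ℂ) : Prop :=
  ∀ (r : ℕ) (O : Fin r → Xo) (s : Bool) (t : ℝ),
    LP r O s ((NUP1.l : ℂ) + I * t) = kP P O s ((NUP1.l : ℂ) + I * t)

theorem Pp_eq (hPO : ∀ (r : ℕ) (O : Fin r → Xo), PO P O) (hLP : OkLP P LP)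
    {β : Bool → ℂ → ℂ} (hi : ∀ s, Integrable fun t : ℝ => β s t) (r : ℕ) (O : Fin r → Xo)
    (a b : ℕ) (x : (Fin a → ℝ) × (Fin b → ℝ)) :
    Pp LP β r O a b x = ∑ i, kapO P O i fun s (t : ℝ) => β s t := by
  unfold Pp PBWP.obF
  simp only [hLP r O]
  exact sum_kapO (hPO r O) hi

section resp

variable {b κ B : ℝ} {β0 : ℂ → ℂ}

theorem int_sg2 (hβ : TC (-b) b κ B β0) (hκ0 : 0 < κ) (hb : 0 < b) (s : Bool) :
    Integrable fun t : ℝ => sg2 β0 s t := by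
  have h1 := (hβ.real hκ0 (by linarith) hb).1
  have e : (fun t : ℝ => sg2 β0 s t) = fun t : ℝ => -eM s * β0 t :=
    funext fun t => sg2_eq β0 s t
  rw [e]
  exact h1.const_mul _

theorem sg2_real_le (hβ : TC (-b) b κ B β0) (hb : 0 < b) (s : Bool) (t : ℝ) :
    ‖sg2 β0 s t‖ ≤ B * Real.exp (-(κ * |t|)) := by
  rw [norm_sg2]
  have := hβ.bd (t : ℂ) ⟨by simpa using hb, by simpa using hb⟩
  simpa using this

/-- **the response of the objects to the field of a test function is pinned** -/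
theorem Pp_min (hPO : ∀ (r : ℕ) (O : Fin r → Xo), PO P O) (hLP : OkLP P LP)
    (hβ : TC (-b) b κ B β0) (hκ0 : 0 < κ) (hκ2 : κ < 2) (hb : 0 < b) (hm : mass β0 = 0)
    (hq : q ≤ κ) (r : ℕ) (O : Fin r → Xo) (a b' : ℕ) (x : (Fin a → ℝ) × (Fin b' → ℝ)) :
    ‖Pp LP (sg2 β0) r O a b' x‖ ≤ B * CK κ * pinR q O := by
  have hB := hβ.nonneg (by linarith) hb
  rw [Pp_eq hPO hLP (int_sg2 hβ hκ0 hb)]
  refine (kapO_pin (hPO r O) hκ0 hκ2 hB
    (fun s => (int_sg2 hβ hκ0 hb s).aestronglyMeasurable) (sg2_real_le hβ hb)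
    (fun x => ?_)).trans (mul_le_mul_of_nonneg_left (pinR_mono hq O)
      (mul_nonneg hB (CK_nonneg hκ0 hκ2)))
  refine Finset.sum_eq_zero fun s _ => ?_
  have e : (∫ t : ℝ, sg2 β0 s t) = 0 := by
    have e1 : (fun t : ℝ => sg2 β0 s t) = fun t : ℝ => -eM s * β0 t :=
      funext fun t => sg2_eq β0 s t
    rw [e1, integral_const_mul]
    unfold mass at hm
    rw [hm, mul_zero]
  rw [e, mul_zero]

/-- **the response of the objects to the field of the step, with their own step statistic** -/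
theorem Pp_step (hPO : ∀ (r : ℕ) (O : Fin r → Xo), PO P O) (hLP : OkLP P LP)
    (hβ : TC (-b) b κ B bS) (hκ0 : 0 < κ) (hκ2 : κ < 2) (hb : 0 < b) (hq : q ≤ κ)
    (r : ℕ) (O : Fin r → Xo) (a b' : ℕ) (x : (Fin a → ℝ) × (Fin b' → ℝ)) :
    ‖Pp LP (sg2 bS) r O a b' x + -stO sgD P O‖ ≤ (PBOR.CS + B * CK κ) * pinR q O := by
  have hB := hβ.nonneg (by linarith) hb
  have hi : ∀ s, Integrable fun t : ℝ => eM s * bS t := fun s =>
    (hβ.real hκ0 (by linarith) hb).1.const_mul _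
  have h1 := stepO (hPO r O) (β := fun s (t : ℝ) => eM s * bS t) hκ0 hκ2 hB
    (fun s => (hi s).aestronglyMeasurable) (fun s t => by
      rw [norm_mul, norm_eM, one_mul, ← norm_sg2 bS s]
      exact sg2_real_le hβ hb s t) (fun s => by
      rw [integral_const_mul]
      have := PBE.mass_bS
      unfold mass at this
      rw [this])
  have e : Pp LP (sg2 bS) r O a b' x =
      -∑ i, kapO P O i fun s (t : ℝ) => eM s * bS t := by
    rw [Pp_eq hPO hLP (int_sg2 hβ hκ0 hb), ← Finset.sum_neg_distrib]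
    refine Finset.sum_congr rfl fun i _ => ?_
    rw [kapO_eq, kapO_eq, ← Finset.sum_neg_distrib]
    refine Finset.sum_congr rfl fun s _ => ?_
    rw [← integral_neg]
    refine integral_congr_ae (Filter.Eventually.of_forall fun t => ?_)
    simp only [sg2_eq]
    ring
  have e2 : Pp LP (sg2 bS) r O a b' x + -stO sgD P O =
      -(stO sgD P O + ∑ i, kapO P O i fun s (t : ℝ) => eM s * bS t) := by
    rw [e]; ring
  rw [e2, norm_neg]
  exact h1.trans (mul_le_mul_of_nonneg_left (pinR_mono hq O)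
    (add_nonneg PBOR.CS_pos.le (mul_nonneg hB (CK_nonneg hκ0 hκ2))))

end resp

/-! ### the derivative term -/

theorem cont_real {b1 : ℝ} {f : ℂ → ℂ} (hb1 : 0 < b1)
    (hd : ∀ z : ℂ, |z.im| < b1 → DifferentiableAt ℂ f z) : Continuous fun t : ℝ => f t := by
  rw [continuous_iff_continuousAt]
  intro t
  have h1 := (hd (t : ℂ) (by rw [ofReal_im, abs_zero]; exact hb1)).continuousAt
  exact ContinuousAt.comp (f := fun t : ℝ => (t : ℂ)) h1 continuous_ofReal.continuousAt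

theorem eM_sg2 (f : ℂ → ℂ) (s : Bool) (z w : ℂ) : sg2 f s z * (eM s * w) = -(f z * w) := by
  unfold sg2 eM
  cases s <;> simp

section dterm

variable {b c0 Nr κ κ₁ B D : ℝ} {β0 k : ℂ → ℂ}

theorem dh_const (hsea : SeaL b c0 Nr ρ) (hb : 0 < b) (hβ : TC (-b) b κ B β0) (hB : 0 ≤ B)
    (hκ1 : 0 < κ₁) (h1 : κ₁ ≤ κ) (h2 : κ - κ₁ ≤ 8 / 3)
    (hk : ∀ z : ℂ, |z.im| < b → DifferentiableAt ℂ (deriv k) z ∧ ‖deriv k z‖ ≤ D) :
    ‖(∑ s, ∫ u : ℝ, ρ u * (sg2 (XS ρ 0 β0) s u * (eM s * deriv k u))) -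
      -(2 * ∫ t : ℝ, β0 t * deriv k t)‖ ≤
      4 / κ₁ * (thX c0 Nr (κ - κ₁) 0 * B) * D := by
  have hf : Continuous fun u : ℝ => deriv k u := cont_real hb fun z hz => (hk z hz).1
  have hD : ∀ u : ℝ, ‖deriv k u‖ ≤ D := fun u =>
    (hk u (by rw [ofReal_im, abs_zero]; exact hb)).2
  have tX := PBE.XS_TC hsea hβ hB h1 h2 0
  have hT : 0 ≤ thX c0 Nr (κ - κ₁) 0 * B := mul_nonneg (PBE.thX_nonneg hsea.Np) hB
  have e1 := (PBE.int_rXD hsea hb hβ hB hκ1 h1 h2 0 hf hD).2.2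
  have e2 := PBE.int_XD_le tX hb hκ1 hT 0 hD
  simp only [ofReal_zero, sub_zero] at e1 e2
  have e3 : ∀ s : Bool, ∫ u : ℝ, ρ u * (sg2 (XS ρ 0 β0) s u * (eM s * deriv k u)) =
      -((∫ u : ℝ, β0 u * deriv k u) - ∫ u : ℝ, XS ρ 0 β0 u * deriv k u) := by
    intro s
    rw [← e1, ← integral_neg]
    refine integral_congr_ae (Filter.Eventually.of_forall fun u => ?_)
    simp only [eM_sg2]
    ring
  rw [Fintype.sum_bool, e3, e3]
  have e4 : -((∫ u : ℝ, β0 u * deriv k u) - ∫ u : ℝ, XS ρ 0 β0 u * deriv k u) +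
      -((∫ u : ℝ, β0 u * deriv k u) - ∫ u : ℝ, XS ρ 0 β0 u * deriv k u) -
      -(2 * ∫ t : ℝ, β0 t * deriv k t) = 2 * ∫ u : ℝ, XS ρ 0 β0 u * deriv k u := by ring
  rw [e4, norm_mul]
  have n2 : ‖(2 : ℂ)‖ = 2 := by simp
  rw [n2]
  calc 2 * ‖∫ u : ℝ, XS ρ 0 β0 u * deriv k u‖ ≤
        2 * (thX c0 Nr (κ - κ₁) 0 * B * (2 / κ₁) * D) :=
        mul_le_mul_of_nonneg_left e2 (by norm_num)
    _ = _ := by ring

/-- **second moment of the derivative term** -/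
theorem m2_D (h : FibN N Z (fun _ => P) η η' δ 0 b0 b1 kk LZ (fun _ => LP) ρ)
    (Bd : MBd N Z (fun _ => P) η η' c ρ (-b1) b1 K q dp) (hK : 0 ≤ K)
    (hsea : SeaL b c0 Nr ρ) (hb1 : b1 ≤ b) (hβ : TC (-b) b κ B β0)
    (hB : 0 ≤ B) (hκ1 : 0 < κ₁) (h1 : κ₁ ≤ κ) (h2 : κ - κ₁ ≤ 8 / 3) (hD : 0 ≤ D)
    (hk : ∀ z : ℂ, |z.im| < b → DifferentiableAt ℂ (deriv k) z ∧ ‖deriv k z‖ ≤ D) :
    M2 (mN N) (wN Z (fun _ => P) N η η' c) K
      (Dh η ρ (sg2 (XS ρ 0 β0)) k (-(2 * ∫ t : ℝ, β0 t * deriv k t)))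
      ((1 + 4 / κ₁) * (thX c0 Nr (κ - κ₁) 0 * B) * D) := by
  have hb : 0 < b := h.b1p.trans_le hb1
  have mw : AEStronglyMeasurable (wN Z (fun _ => P) N η η' c) (mN N) :=
    (wN_meas h.mZ).aestronglyMeasurable
  have tX := PBE.XS_TC hsea hβ hB h1 h2 0
  have hT : 0 ≤ thX c0 Nr (κ - κ₁) 0 * B := mul_nonneg (PBE.thX_nonneg hsea.Np) hB
  have hbc : ∀ s, BC (-b1) b1 (thX c0 Nr (κ - κ₁) 0 * B * D)
      fun z => sg2 (XS ρ 0 β0) s z * (eM s * deriv k z) := by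
    intro s
    have e : (fun z => sg2 (XS ρ 0 β0) s z * (eM s * deriv k z)) =
        fun z => (-1 : ℂ) * (XS ρ 0 β0 z * deriv k z) := by
      funext z
      rw [eM_sg2]
      ring
    rw [e]
    refine bc_mul (fun z hz => ?_) (fun z hz => ?_) (by simp)
    · have hz' := abs_lt.1 (hz.trans_le hb1)
      exact (tX.dAt hz').mul (hk z (hz.trans_le hb1)).1
    · rw [norm_mul]
      exact mul_le_mul (bd_TC tX hκ1.le hT le_rfl le_rfl (hz.trans_le hb1))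
        (hk z (hz.trans_le hb1)).2 (norm_nonneg _) hT
  have a1 := m2_V h Bd (mul_nonneg hT hD) hbc
  have m1 : AEStronglyMeasurable (evN fun n => Vy 0 (η n) ρ
      fun s z => sg2 (XS ρ 0 β0) s z * (eM s * deriv k z) : CfN N → ℂ) (mN N) :=
    (evN_meas (mVy h hbc)).aestronglyMeasurable
  have a2 := m2_c (m2_one Bd) ((∑ s, ∫ u : ℝ, ρ u * (sg2 (XS ρ 0 β0) s u *
    (eM s * deriv k u))) - -(2 * ∫ t : ℝ, β0 t * deriv k t))
  have a3 := a2.mono (norm_nonneg _) (dh_const hsea hb hβ hB hκ1 h1 h2 hk) le_rfl hK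
  have a4 := m2_add (mul_nonneg hT hD) (by positivity) hK mw m1 a1 a3
  have e : thX c0 Nr (κ - κ₁) 0 * B * D + 4 / κ₁ * (thX c0 Nr (κ - κ₁) 0 * B) * D =
      (1 + 4 / κ₁) * (thX c0 Nr (κ - κ₁) 0 * B) * D := by ring
  rw [e] at a4
  exact a4

end dterm

/-! ### one field -/

theorem int_rho_bd {ρ : ℂ → ℂ} {b1 G : ℝ} (hs : PB.SeaF b1 ρ) (hb1 : 0 < b1) {f : ℂ → ℂ}
    (hd : ∀ z : ℂ, |z.im| < b1 → DifferentiableAt ℂ f z)
    (hb : ∀ z : ℂ, |z.im| < b1 → ‖f z‖ ≤ G) : Integrable fun t : ℝ => ρ t * f t := by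
  obtain ⟨A, c, hA, hc, hbd⟩ := hs.bd
  have h0 : ∀ t : ℝ, |(t : ℂ).im| < b1 := fun t => by rw [ofReal_im, abs_zero]; exact hb1
  have h1 : Integrable fun t : ℝ => ρ t := by
    refine ((PBE.int_exp_abs hc).1.const_mul A).mono'
      (cont_real hb1 hs.d).aestronglyMeasurable (Filter.Eventually.of_forall fun t => ?_)
    have := hbd (t : ℂ) (h0 t)
    rwa [ofReal_re] at this
  exact h1.mul_bdd (c := G) (cont_real hb1 hd).aestronglyMeasurable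
    (Filter.Eventually.of_forall fun t => hb _ (h0 t))

theorem tgh_dAt {b1 : ℝ} (hb1 : 0 < b1) (hbl : b1 ≤ NUP1.l) {z : ℂ} (hz : |z.im| < b1) :
    DifferentiableAt ℂ PBV.tgh z := by
  have hl2 : NUMF.l = NUP1.l := rfl
  have hl0 := Bd.l_pos
  exact ((PBE.tgh_TC hb1 (by rw [hl2]; linarith : b1 < 2 * NUMF.l)).2 z hz).differentiableAt

theorem tgh_le {b1 : ℝ} (hbl : b1 ≤ NUP1.l) {z : ℂ} (hz : |z.im| < b1) :
    ‖PBV.tgh z‖ ≤ 3 := by
  have hl : Real.pi / 8 = NUP1.l := rfl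
  have h1 : |z.im| ≤ Real.pi / 8 := by rw [hl]; linarith
  rw [tgh_eq h1]
  exact sgC_le h1

/-- the response of the field -/
abbrev eX (e0 : ℂ → ℂ) (m : ℂ) : Bool → ℂ → ℂ := sg2 fun z => e0 z + 4 * m * PBV.tgh z

section core

variable {b b' c0 Nr κ κ₁ κ₂ B G : ℝ} {β0 g0 e0 h0 : ℂ → ℂ} {cut : Bool → ℂ → ℂ}

/-- **the data of a field, minus channel** -/
theorem wm_fdw (h : FibN N Z (fun _ => P) η η' δ 0 b0 b1 kk LZ (fun _ => LP) ρ)
    (hPO : ∀ (r : ℕ) (O : Fin r → Xo), PO P O) (hLP : OkLP P LP) (hsea : SeaL b c0 Nr ρ)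
    (hb1 : b1 ≤ b') (hbb : b' ≤ b) (hb1l : b1 ≤ NUP1.l) (hβ : TC (-b) b κ B β0) (hB : 0 ≤ B)
    (hκ1 : 0 < κ₁) (hκ2 : 0 ≤ κ₂) (h1 : κ₁ ≤ κ) (h2 : κ - κ₁ ≤ 8 / 3)
    (te : TC (-b') b' κ₂ (thX c0 Nr (κ - κ₁) 0 * B) e0)
    (re : ∀ z : ℂ, |z.im| < b' → ∀ t : Bool,
      PB.rsp (PB.mulF ρ (sg2 (XS ρ 0 β0))) t z =
        sg2 (fun w => g0 w - e0 w - 4 * mass (XS ρ 0 β0) * PBV.tgh w) t z)
    (gd : ∀ z : ℂ, |z.im| < b1 → DifferentiableAt ℂ g0 z)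
    (gb : ∀ z : ℂ, |z.im| < b1 → ‖g0 z‖ ≤ G)
    (hd0 : ∀ z : ℂ, |z.im| < b1 → DifferentiableAt ℂ h0 z) {M0 : ℝ}
    (hb0 : ∀ z : ℂ, |z.im| < b1 → ‖h0 z‖ ≤ M0)
    (hl : ∀ n ≤ N, ∀ r O s (t : ℝ), I * LZ n s (NUP1.l + I * zy 0 (η n r O) t) -
      PB.cV (deriv ρ) (zy 0 (η n r O) t) = h0 (zy 0 (η n r O) t) + cut s (zy 0 (η n r O) t)) :
    FdW N η b1 LZ (fun _ => LP) ρ (sg2 β0) (sg2 (XS ρ 0 β0)) (sg2 g0)
      (eX e0 (mass (XS ρ 0 β0))) (fun _ => h0) cut := by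
  have hb1p := h.b1p
  have hb'p : 0 < b' := hb1p.trans_le hb1
  have hbp : 0 < b := hb'p.trans_le hbb
  have hκ : 0 < κ := by linarith
  have tX := PBE.XS_TC hsea hβ hB h1 h2 0
  have hT : 0 ≤ thX c0 Nr (κ - κ₁) 0 * B := mul_nonneg (PBE.thX_nonneg hsea.Np) hB
  have h0t : ∀ t : ℝ, |(t : ℂ).im| < b1 := fun t => by rw [ofReal_im, abs_zero]; exact hb1p
  have ed : ∀ z : ℂ, |z.im| < b1 → DifferentiableAt ℂ
      (fun z => e0 z + 4 * mass (XS ρ 0 β0) * PBV.tgh z) z := fun z hz =>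
    (te.dAt (abs_lt.1 (hz.trans_le hb1))).add ((tgh_dAt hb1p hb1l hz).const_mul _)
  have eb : ∀ z : ℂ, |z.im| < b1 → ‖e0 z + 4 * mass (XS ρ 0 β0) * PBV.tgh z‖ ≤
      thX c0 Nr (κ - κ₁) 0 * B + ‖4 * mass (XS ρ 0 β0)‖ * 3 := fun z hz => by
    refine (norm_add_le _ _).trans (add_le_add (bd_TC te hκ2 hT le_rfl le_rfl
      (hz.trans_le hb1)) ?_)
    rw [norm_mul]
    exact mul_le_mul_of_nonneg_left (tgh_le hb1l hz) (norm_nonneg _)
  have dsg : ∀ (f : ℂ → ℂ), (∀ z : ℂ, |z.im| < b1 → DifferentiableAt ℂ f z) → ∀ (s : Bool)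
      (z : ℂ), |z.im| < b1 → DifferentiableAt ℂ (sg2 f s) z := fun f hf s z hz => by
    rw [sg2_fun]
    exact (hf z hz).const_mul _
  have irho : ∀ (f : ℂ → ℂ) (G : ℝ), (∀ z : ℂ, |z.im| < b1 → DifferentiableAt ℂ f z) →
      (∀ z : ℂ, |z.im| < b1 → ‖f z‖ ≤ G) → ∀ s : Bool,
      Integrable fun t : ℝ => ρ t * sg2 f s t := fun f G hf hG s =>
    int_rho_bd h.sea hb1p (dsg f hf s) fun z hz => by rw [norm_sg2]; exact hG z hz
  have iF : ∀ s : Bool, (Integrable fun t : ℝ => sg2 β0 s t) ∧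
      Integrable fun t : ℝ => sg2 (XS ρ 0 β0) s t := fun s =>
    ⟨int_sg2 hβ hκ hbp s, int_sg2 tX hκ1 hbp s⟩
  have iL : ∀ {f : ℝ → ℂ}, Integrable f → Integrable fun t : ℝ => f t * h0 t := fun hf =>
    hf.mul_bdd (c := M0) (cont_real hb1p hd0).aestronglyMeasurable
      (Filter.Eventually.of_forall fun t => hb0 _ (h0t t))
  have iO : ∀ {f : ℝ → ℂ}, Integrable f → ∀ (r : ℕ) (O : Fin r → Xo) (s : Bool),
      Integrable fun t : ℝ => f t * PBWP.obF LP r O s t := by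
    intro f hf r O s
    have hl0 := Bd.l_pos
    have e1 : (fun t : ℝ => PBWP.obF LP r O s t) =
        fun t : ℝ => I * kP P O s ((NUP1.l : ℂ) + I * t) := by
      funext t
      show I * LP r O s ((NUP1.l : ℂ) + I * t) = _
      rw [hLP]
    have hc : Continuous fun t : ℝ => I * kP P O s ((NUP1.l : ℂ) + I * t) := by
      refine continuous_const.mul ?_
      rw [continuous_iff_continuousAt]
      intro t
      have h3 := (kP_dAt (hPO r O) s (z := (t : ℂ)) (by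
        rw [ofReal_im, abs_zero]; positivity)).continuousAt
      exact ContinuousAt.comp (f := fun t : ℝ => (t : ℂ)) h3
        continuous_ofReal.continuousAt
    refine hf.mul_bdd (c := r * (PBOR.CO + 4)) (by rw [e1]; exact hc.aestronglyMeasurable)
      (Filter.Eventually.of_forall fun t => ?_)
    have e2 : PBWP.obF LP r O s t = I * kP P O s ((NUP1.l : ℂ) + I * t) := congrFun e1 t
    rw [e2, norm_mul, norm_I, one_mul]
    exact kP_lI_le (hPO r O) s (by rw [ofReal_im, abs_zero]; positivity)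
  exact
    { fX :=
        { d := fun s z hz => by
            rw [sg2_fun]
            exact (tX.dAt (abs_lt.1 (hz.trans_le (hb1.trans hbb)))).const_mul _
          bd := ⟨_, hT, fun s z hz => by
            rw [norm_sg2]
            exact bd_TC tX hκ1.le hT le_rfl le_rfl (hz.trans_le (hb1.trans hbb))⟩ }
      rs := fun s z hz => by
        rw [re z (hz.trans_le hb1) s]
        simp only [eX, sg2_eq]
        ring
      gd := fun s z hz => dsg g0 gd s z hz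
      ed := fun s z hz => dsg _ ed s z hz
      ig := irho g0 G gd gb
      ie := irho _ _ ed eb
      mβ := fun s => by
        have : Continuous fun t : ℝ => sg2 β0 s t := cont_real hbp fun z hz => by
          rw [sg2_fun]
          exact (hβ.dAt (abs_lt.1 hz)).const_mul _
        exact this.measurable
      hβ := fun s t => by
        have h3 := PBE.XS_mul (β := β0) hsea 0 (z := (t : ℂ)) (by
          rw [ofReal_im, abs_zero]; exact hbp)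
        rw [ofReal_zero, add_zero] at h3
        rw [sg2_eq, sg2_eq]
        linear_combination (-eM s) * h3
      hl := hl
      i1 := fun s => iL (iF s).1
      i2 := fun s => iL (iF s).2
      i3 := fun n _ r O s => iO (iF s).1 r O s
      i4 := fun n _ r O s => iO (iF s).2 r O s }

theorem mB_zero (β0 h0 : ℂ → ℂ) : mB (sg2 β0) (fun _ => h0) = 0 := by
  unfold mB
  rw [Fintype.sum_bool]
  have e : ∀ s : Bool, (∫ t : ℝ, sg2 β0 s t * h0 t) = -eM s * ∫ t : ℝ, β0 t * h0 t := by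
    intro s
    rw [← integral_const_mul]
    refine integral_congr_ae (Filter.Eventually.of_forall fun t => ?_)
    simp only [sg2_eq]
    ring
  rw [e, e]
  simp [eM]

end core

/-! ### the identity of one field -/

theorem mbd_strip {P' : ℕ → NUO.Par} {Y₁ Y₂ b1 : ℝ} (h : MBd N Z P' η η' c ρ Y₁ Y₂ K q dp)
    (h1 : -b1 ≤ Y₁) (h2 : Y₂ ≤ b1) : MBd N Z P' η η' c ρ (-b1) b1 K q dp where
  one := h.one
  vy M g hM hg mg := h.vy M g hM (fun r O s =>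
    ⟨(hg r O s).an.mono fun _ hz => ⟨lt_of_le_of_lt h1 hz.1, lt_of_lt_of_le hz.2 h2⟩,
      fun z hz => (hg r O s).bd z ⟨lt_of_le_of_lt h1 hz.1, lt_of_lt_of_le hz.2 h2⟩⟩) mg
  pin := h.pin
  pinv M g hM hg mg := h.pinv M g hM (fun r O s =>
    ⟨(hg r O s).an.mono fun _ hz => ⟨lt_of_le_of_lt h1 hz.1, lt_of_lt_of_le hz.2 h2⟩,
      fun z hz => (hg r O s).bd z ⟨lt_of_le_of_lt h1 hz.1, lt_of_lt_of_le hz.2 h2⟩⟩) mg

theorem pinR_le (hq : 0 ≤ q) {r : ℕ} (O : Fin r → Xo) : pinR q O ≤ r := by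
  unfold pinR
  refine (Finset.sum_le_card_nsmul _ _ 1 fun i _ => Real.exp_le_one_iff.2 ?_).trans (le_of_eq ?_)
  · have := mul_nonneg hq (abs_nonneg (ht (O i)))
    linarith
  · rw [Finset.card_univ, Fintype.card_fin, nsmul_eq_mul, mul_one]

section one

variable {y₁ y₂ a b b' c0 Nr κ κ₁ κ₂ M C1 CA CQ G r0 Ds : ℝ} {β0 g0 e0 h0 : ℂ → ℂ}
  {cut : Bool → ℂ → ℂ}

/-- **one field** -/
theorem wm_core (h : FibN N Z (fun _ => P) η η' δ 0 b0 b1 kk LZ (fun _ => LP) ρ)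
    (Bd : MBd N Z (fun _ => P) η η' c ρ (-b1) b1 K q dp) (hK : 0 ≤ K) (hdp : 0 ≤ dp)
    (hq0 : 0 ≤ q) (hPO : ∀ (r : ℕ) (O : Fin r → Xo), PO P O) (hLP : OkLP P LP)
    (hrad : ∀ r, Measurable (P.rad r)) (hsea : SeaL b c0 Nr ρ)
    (hb1 : b1 ≤ b') (hbb : b' ≤ b) (hbl : b ≤ NUP1.l) (ha : 0 ≤ a) (hr : 0 < r0)
    (hr1 : y₁ + r0 ≤ -b) (hr2 : b ≤ y₂ - r0) (hM : 0 ≤ M) (hC1 : 0 ≤ C1)
    (hβ : TC (-b) b κ (C1 * M) β0) (hκ1 : 0 < κ₁) (hκ2 : 0 ≤ κ₂) (h1 : κ₁ ≤ κ)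
    (h2 : κ - κ₁ ≤ 8 / 3)
    (te : TC (-b') b' κ₂ (thX c0 Nr (κ - κ₁) 0 * (C1 * M)) e0)
    (re : ∀ z : ℂ, |z.im| < b' → ∀ t : Bool,
      PB.rsp (PB.mulF ρ (sg2 (XS ρ 0 β0))) t z =
        sg2 (fun w => g0 w - e0 w - 4 * mass (XS ρ 0 β0) * PBV.tgh w) t z)
    (gd : ∀ z : ℂ, |z.im| < b1 → DifferentiableAt ℂ g0 z)
    (gb : ∀ z : ℂ, |z.im| < b1 → ‖g0 z‖ ≤ G) (hG : 0 ≤ G)
    (hd0 : ∀ z : ℂ, |z.im| < b1 → DifferentiableAt ℂ h0 z) {M0 : ℝ}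
    (hb0 : ∀ z : ℂ, |z.im| < b1 → ‖h0 z‖ ≤ M0)
    (hl : ∀ n ≤ N, ∀ r O s (t : ℝ), I * LZ n s (NUP1.l + I * zy 0 (η n r O) t) -
      PB.cV (deriv ρ) (zy 0 (η n r O) t) = h0 (zy 0 (η n r O) t) + cut s (zy 0 (η n r O) t))
    (hCQ : 0 ≤ CQ) (hQ : M2 (mN N) (wN Z (fun _ => P) N η η' c) K
      (evN fun n => Qp (η n) ρ (sg2 (XS ρ 0 β0)) (eX e0 (mass (XS ρ 0 β0))) (fun _ => h0) cut LP)
      (CQ * (thX c0 Nr (κ - κ₁) 0 * (C1 * M))))
    {yo : (r : ℕ) → (Fin r → Xo) → ℂ} (myo : MIn fun r O _ _ _ => yo r O)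
    (hyo : ∀ (r : ℕ) (O : Fin r → Xo), ‖yo r O‖ ≤ PBOR.CS * r) (hCA : 0 ≤ CA)
    (hpy : ∀ (r : ℕ) (O : Fin r → Xo) (a b : ℕ) (x : (Fin a → ℝ) × (Fin b → ℝ)),
      ‖Pp LP (sg2 β0) r O a b x + yo r O‖ ≤ CA * M * pinR q O)
    (hDs : 0 ≤ Ds) (hds : ∀ z : ℂ, |z.im| < b → DifferentiableAt ℂ (deriv PB.NX.sgC) z ∧
      ‖deriv PB.NX.sgC z‖ ≤ Ds) :
    ∃ (D : (ℂ → ℂ) → CfN N → ℂ) (Dt Q P' : CfN N → ℂ),
      PBE.WMi y₁ y₂ a (mN N) (wN Z (fun _ => P) N η η' c) ((3 + PBOR.CS) ^ 2 * K)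
        (thX c0 Nr (κ - κ₁) 0 * (C1 * (CQ + (1 + 4 / κ₁) * (Real.exp (a * r0) / r0 + Ds))))
        (CA * (3 + PBOR.CS) * dp) M (Vm η) (SN P η)
        (fun ω => -(evN (fun n => Vy 0 (η n) ρ (sg2 g0)) ω +
          evN (fun _ r O _ _ _ => yo r O) ω))
        (fun k => 2 * ∫ t : ℝ, β0 t * deriv k t) (2 * ∫ t : ℝ, β0 t * deriv PB.NX.sgC t)
        D Dt Q P' := by
  have hb1p := h.b1p
  have hb1b : b1 ≤ b := hb1.trans hbb
  have hbp : 0 < b := hb1p.trans_le hb1b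
  have hb1l : b1 ≤ NUP1.l := hb1b.trans hbl
  have hpl : Real.pi / 8 = NUP1.l := rfl
  have hCS := PBOR.CS_pos
  have hth : 0 ≤ thX c0 Nr (κ - κ₁) 0 := PBE.thX_nonneg hsea.Np
  obtain ⟨th, eth⟩ : ∃ th : ℝ, th = thX c0 Nr (κ - κ₁) 0 := ⟨_, rfl⟩
  obtain ⟨E, hE⟩ : ∃ E : ℝ, E = Real.exp (a * r0) / r0 := ⟨_, rfl⟩
  have hE0 : 0 ≤ E := by rw [hE]; positivity
  have hB : 0 ≤ C1 * M := mul_nonneg hC1 hM
  have w := wm_fdw h hPO hLP hsea hb1 hbb hb1l hβ hB hκ1 hκ2 h1 h2 te re gd gb hd0 hb0 hl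
  have hy1 : y₁ ≤ -b1 := by linarith
  have hy2 : b1 ≤ y₂ := by linarith
  have hy1' : y₁ < 0 := by linarith
  have hy2' : 0 < y₂ := by linarith
  set μ := mN N with hμ
  set ww := wN Z (fun _ => P) N η η' c with hww
  have mw : AEStronglyMeasurable ww μ := (wN_meas h.mZ).aestronglyMeasurable
  obtain ⟨L, hL⟩ : ∃ L : ℝ, L = 3 + PBOR.CS := ⟨_, rfl⟩
  have hL3 : 3 ≤ L := by rw [hL]; linarith
  rw [← hL, ← hE, ← eth]
  rw [← eth] at te hth hQ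
  have hK' : 0 ≤ L ^ 2 * K := by positivity
  have hKK : K ≤ L ^ 2 * K := by
    have : 1 ≤ L ^ 2 := by nlinarith
    nlinarith
  have lift : ∀ {A : CfN N → ℂ} {α β : ℝ}, M2 μ ww K A α → 0 ≤ α → α ≤ β →
      M2 μ ww (L ^ 2 * K) A β := fun hA h0 hle => hA.mono h0 hle hKK hK
  have hk0 : 0 < 1 + 4 / κ₁ := by positivity
  obtain ⟨T, eT⟩ : ∃ T : ℝ, T = th * (C1 * (CQ + (1 + 4 / κ₁) * (E + Ds))) := ⟨_, rfl⟩
  have hT : 0 ≤ T := by rw [eT]; positivity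
  rw [← eT]
  -- the statistics
  have sd : ∀ z : ℂ, |z.im| < b1 → DifferentiableAt ℂ PB.NX.sgC z := fun z hz =>
    PB.NX.differentiableAt_sgC (by rw [hpl]; linarith)
  have sb : ∀ z : ℂ, |z.im| < b1 → ‖PB.NX.sgC z‖ ≤ 3 := fun z hz =>
    sgC_le (by rw [hpl]; linarith)
  have one := m2_one Bd
  have g2 := m2_V h Bd hG (bc_sg2 gd gb)
  have hV : ∀ M' k, TC y₁ y₂ a M' k → ∀ s, BC (-b1) b1 M' fun z => eM s * k z :=
    fun M' k hk => bc_eM (fun z hz => TC_dAt hk hy1 hy2 hz)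
      fun z hz => bd_TC hk ha (hk.nonneg hy1' hy2') hy1 hy2 hz
  have v2m : ∀ M' k, TC y₁ y₂ a M' k → M2 μ ww K (Vm η k) M' := fun M' k hk => by
    rw [Vm_evN ρ]
    exact m2_V h Bd (hk.nonneg hy1' hy2') (hV M' k hk)
  have ed : ∀ z : ℂ, |z.im| < b1 → DifferentiableAt ℂ
      (fun z => e0 z + 4 * mass (XS ρ 0 β0) * PBV.tgh z) z := fun z hz =>
    (te.dAt (abs_lt.1 (hz.trans_le hb1))).add ((tgh_dAt hb1p hb1l hz).const_mul _)
  have eb : ∀ z : ℂ, |z.im| < b1 → ‖e0 z + 4 * mass (XS ρ 0 β0) * PBV.tgh z‖ ≤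
      th * (C1 * M) + ‖4 * mass (XS ρ 0 β0)‖ * 3 := fun z hz => by
    refine (norm_add_le _ _).trans (add_le_add (bd_TC te hκ2 (mul_nonneg hth hB) le_rfl le_rfl
      (hz.trans_le hb1)) ?_)
    rw [norm_mul]
    exact mul_le_mul_of_nonneg_left (tgh_le hb1l hz) (norm_nonneg _)
  have he0 : 0 ≤ th * (C1 * M) + ‖4 * mass (XS ρ 0 β0)‖ * 3 := by positivity
  have e2 := m2_V h Bd he0 (bc_sg2 ed eb)
  -- the objects
  obtain ⟨YO, hYO⟩ : ∃ YO : CfN N → ℂ, YO = evN fun _ r O _ _ _ => yo r O := ⟨_, rfl⟩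
  have mYO : AEStronglyMeasurable YO μ := by
    rw [hYO]
    exact (evN_meas fun n _ => myo).aestronglyMeasurable
  have bYO : ∀ ω : CfN N, ‖YO ω‖ ≤ PBOR.CS * (ω.2.1.1 : ℕ) := fun ω => by
    rw [hYO]
    exact hyo ω.2.1.1 ω.2.2.1
  have y4 := m2_r Bd hCS.le bYO
  have bP : ∀ ω : CfN N, ‖evN (fun _ => Pp LP (sg2 β0)) ω + YO ω‖ ≤
      CA * M * pinR q ω.2.2.1 := fun ω => by
    rw [hYO]
    exact hpy ω.2.1.1 ω.2.2.1 ω.2.1.2.1 ω.2.1.2.2 ω.2.2.2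
  have hCM : 0 ≤ CA * M := mul_nonneg hCA hM
  have p3 : M2 μ ww K (evN fun _ => Pp LP (sg2 β0)) (CA * M + PBOR.CS) := by
    refine m2_r Bd (by positivity) fun ω => ?_
    have e : evN (fun _ => Pp LP (sg2 β0)) ω =
        (evN (fun _ => Pp LP (sg2 β0)) ω + YO ω) - YO ω := by ring
    rw [e]
    have a1 := bP ω
    have a2 := bYO ω
    have a3 := mul_le_mul_of_nonneg_left (pinR_le hq0 ω.2.2.1) hCM
    refine (norm_sub_le _ _).trans ?_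
    linarith
  -- the step
  have mVO : AEStronglyMeasurable (VO sgD P : CfN N → ℂ) μ :=
    (evN_meas fun n _ => MIn_stO hrad mS_sgD).aestronglyMeasurable
  have bVO : ∀ ω : CfN N, ‖VO sgD P ω‖ ≤ PBOR.CS * (ω.2.1.1 : ℕ) := fun ω =>
    stO_sg_le (hPO _ _)
  have bcS := bc_eM sd sb
  have mVs : AEStronglyMeasurable (evN fun n => Vy 0 (η n) ρ fun s z => eM s * PB.NX.sgC z :
      CfN N → ℂ) μ := (evN_meas (mVy h bcS)).aestronglyMeasurable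
  have eS : (SN P η : CfN N → ℂ) = fun ω =>
      evN (fun n => Vy 0 (η n) ρ fun s z => eM s * PB.NX.sgC z) ω + VO sgD P ω := by
    funext ω
    rw [SN_eq, Vm_evN ρ]
  have s2 : M2 μ ww (L ^ 2 * K) (SN P η) 1 := by
    refine PBU.M2.rescale ?_
    rw [eS, mul_one, hL]
    exact m2_add (by norm_num) hCS.le hK mw mVs (m2_V h Bd (by norm_num) bcS) (m2_r Bd hCS.le bVO)
  -- the derivative terms
  have d2 : ∀ M' k, TC y₁ y₂ a M' k → M2 μ ww (L ^ 2 * K)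
      (Dh η ρ (sg2 (XS ρ 0 β0)) k (-(2 * ∫ t : ℝ, β0 t * deriv k t))) (M * M' * T) := by
    intro M' k hk
    have hM' := hk.nonneg hy1' hy2'
    have a1 := m2_D h Bd hK hsea hb1b hβ hB hκ1 h1 h2 (D := M' * E) (by positivity)
      (fun z hz => by rw [hE]; exact dk_TC hk ha hM' hr hr1 hr2 hz)
    rw [← eth] at a1
    refine lift a1 (by positivity) ?_
    rw [eT]
    have a2 : 0 ≤ th * C1 * M * M' * (CQ + (1 + 4 / κ₁) * Ds) := by positivity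
    linarith
  have ds2 : M2 μ ww (L ^ 2 * K) (Dh η ρ (sg2 (XS ρ 0 β0)) PB.NX.sgC
      (-(2 * ∫ t : ℝ, β0 t * deriv PB.NX.sgC t))) (M * T) := by
    have a1 := m2_D h Bd hK hsea hb1b hβ hB hκ1 h1 h2 hDs hds
    rw [← eth] at a1
    refine lift a1 (by positivity) ?_
    rw [eT]
    have a2 : 0 ≤ th * C1 * M * (CQ + (1 + 4 / κ₁) * E) := by positivity
    linarith
  have q2 : M2 μ ww (L ^ 2 * K) (evN fun n => Qp (η n) ρ (sg2 (XS ρ 0 β0))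
      (eX e0 (mass (XS ρ 0 β0))) (fun _ => h0) cut LP) (M * T) := by
    refine lift hQ (by positivity) ?_
    rw [eT]
    have a2 : 0 ≤ th * C1 * M * ((1 + 4 / κ₁) * (E + Ds)) := by positivity
    linarith
  -- the pinned terms
  have p2 : ∀ M' k, TC y₁ y₂ a M' k → L1 μ ww (fun ω =>
      (evN (fun _ => Pp LP (sg2 β0)) ω + YO ω) * Vm η k ω) (M * M' * (CA * L * dp)) := by
    intro M' k hk
    have hM' := hk.nonneg hy1' hy2'
    rw [Vm_evN ρ]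
    refine (l1_pV h Bd hM' (hV M' k hk) hCM bP).mono ?_
    have a2 : 0 ≤ CA * M * (M' * dp) * (L - 1) := by
      have : 0 ≤ L - 1 := by linarith
      positivity
    linarith
  have ps : L1 μ ww (fun ω => (evN (fun _ => Pp LP (sg2 β0)) ω + YO ω) * SN P η ω)
      (M * (CA * L * dp)) := by
    have a1 := l1_pV h Bd (by norm_num : (0:ℝ) ≤ 3) bcS hCM bP
    have a2 := l1_pO Bd hCM hCS.le bP bVO
    have mA : AEStronglyMeasurable (fun ω => evN (fun _ => Pp LP (sg2 β0)) ω + YO ω) μ :=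
      ((evN_meas fun n hn => w.mP h hn).aestronglyMeasurable).add mYO
    have a3 := a1.add (by positivity) (by positivity) (mA.mul mVs) mw a2
    have e : (fun ω => (evN (fun _ => Pp LP (sg2 β0)) ω + YO ω) * SN P η ω) = fun ω =>
        (evN (fun _ => Pp LP (sg2 β0)) ω + YO ω) *
          evN (fun n => Vy 0 (η n) ρ fun s z => eM s * PB.NX.sgC z) ω +
        (evN (fun _ => Pp LP (sg2 β0)) ω + YO ω) * VO sgD P ω := by
      rw [eS]
      funext ω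
      ring
    rw [e]
    refine a3.mono (le_of_eq ?_)
    rw [hL]
    ring
  have key := wmi_gen (y₁ := y₁) (y₂ := y₂) (a := a) (M := M) (θ := T)
    (δp := CA * L * dp) h w (mB_zero β0 h0) hy1 hy2 hb1l ha hrad (YO := YO) mYO hK' hG he0
    (by positivity : 0 ≤ CA * M + PBOR.CS) hCS.le hM hT (lift one zero_le_one le_rfl)
    (lift g2 hG le_rfl) (lift e2 he0 le_rfl) q2 (lift p3 (by positivity) le_rfl)
    (lift y4 hCS.le le_rfl) (fun M' k hk => lift (v2m M' k hk) (hk.nonneg hy1' hy2') le_rfl)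
    s2 (C := fun k => -(2 * ∫ t : ℝ, β0 t * deriv k t)) d2 ds2 p2 ps
  refine ⟨_, _, _, _, key.neg.congr ?_ ?_ ?_⟩
  · rw [hYO]
  · intro M' k _
    exact neg_neg _
  · exact neg_neg _

end one

/-! ### all test functions and the step -/

theorem vy_neg (η0 : Crs) (ρ f : ℂ → ℂ) (r : ℕ) (O : Fin r → Xo) (a b : ℕ)
    (x : (Fin a → ℝ) × (Fin b → ℝ)) : Vy 0 η0 ρ (sg2 f) r O a b x =
    -Vy 0 η0 ρ (fun s z => eM s * f z) r O a b x := by
  have e : ∀ s : Bool, (∫ u : ℝ, ρ u * sg2 f s u) = -∫ u : ℝ, ρ u * (eM s * f u) := by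
    intro s
    rw [← integral_neg]
    refine integral_congr_ae (Filter.Eventually.of_forall fun u => ?_)
    simp only [sg2_eq]
    ring
  unfold Vy PB.NX.nuL PB.rS PB.eR
  simp only [e]
  simp only [sg2_eq, neg_mul, Finset.sum_neg_distrib]
  ring

theorem dsg_real (t : ℝ) : deriv PB.NX.sgC (t : ℂ) = PBEI.sg' t := by
  have hp := Real.pi_pos
  have hl2 : NUMF.l = NUP1.l := rfl
  have hl0 := Bd.l_pos
  rw [deriv_sgC (by rw [ofReal_im, abs_zero]; positivity)]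
  have h1 := (PBE.tgh_TC hl0 (by rw [hl2]; linarith : NUP1.l < 2 * NUMF.l)).2 (t : ℂ)
    (by rw [ofReal_im, abs_zero]; exact hl0)
  rw [h1.deriv]
  rfl

/-- the response of the objects, `0` for the test functions -/
theorem MIn_zero : MIn fun _ _ _ _ _ => (0 : ℂ) := fun _ _ _ => measurable_const

/-- **level two, minus channel**: every test function and the step -/
theorem wm_of {y₁ y₂ a κ κ₁ κ₂ b b' q CQ : ℝ} (ha : 1 / 2 ≤ a) (ha2 : a < 8 / 3)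
    (hκ2 : 0 ≤ κ₂) (hκ12 : κ₂ < κ₁) (hκ1 : κ₁ ≤ κ) (hκ : κ < a) (hκh : 1 / 2 ≤ κ)
    (hκu : κ < 2) (hb' : 0 < b') (hb : b' < b) (hb1 : y₁ < -b) (hb2 : b < y₂)
    (hbl : b < NUP1.l) (hq0 : 0 ≤ q) (hq : q ≤ κ) (hCQ : 0 ≤ CQ) :
    ∃ C : ℝ, 1 ≤ C ∧ ∀ {N : ℕ} {Z : ℕ → Bool → Option O3 → ℂ → ℂ} {P : NUO.Par}
      {η η' : ℕ → Crs} {c : ℕ → ℂ} {δ b0 b1 Y₁ Y₂ : ℝ} {kk : ℕ → ℝ} {LZ : ℕ → Bool → ℂ → ℂ}
      {LP : (r : ℕ) → (Fin r → Xo) → Bool → ℂ → ℂ} {ρ : ℂ → ℂ} {c0 Nr : ℝ} {h0 : ℂ → ℂ}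
      {cut : Bool → ℂ → ℂ} {M0 K dp : ℝ}
      (_ : FibN N Z (fun _ => P) η η' δ 0 b0 b1 kk LZ (fun _ => LP) ρ) (_ : b1 ≤ b')
      (_ : SeaL b c0 Nr ρ) (_ : ∀ (r : ℕ) (O : Fin r → Xo), PO P O) (_ : OkLP P LP)
      (_ : ∀ r, Measurable (P.rad r)) (_ : ∀ z : ℂ, |z.im| < b1 → DifferentiableAt ℂ h0 z)
      (_ : ∀ z : ℂ, |z.im| < b1 → ‖h0 z‖ ≤ M0)
      (_ : ∀ n ≤ N, ∀ r O s (t : ℝ), I * LZ n s (NUP1.l + I * zy 0 (η n r O) t) -
        PB.cV (deriv ρ) (zy 0 (η n r O) t) = h0 (zy 0 (η n r O) t) + cut s (zy 0 (η n r O) t))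
      (_ : ∀ M β e, 0 ≤ M → TC (-b) b κ M β →
        TC (-b') b' κ₂ (thX c0 Nr (κ - κ₁) 0 * M) e →
        M2 (mN N) (wN Z (fun _ => P) N η η' c) K (evN fun n => Qp (η n) ρ (sg2 (XS ρ 0 β))
          (sg2 fun z => e z + 4 * mass (XS ρ 0 β) * PBV.tgh z) (fun _ => h0) cut LP)
          (CQ * (thX c0 Nr (κ - κ₁) 0 * M)))
      (_ : 0 ≤ K) (_ : 0 ≤ dp) (_ : MBd N Z (fun _ => P) η η' c ρ Y₁ Y₂ K q dp)
      (_ : -b1 ≤ Y₁) (_ : Y₂ ≤ b1) (K' θ' δ' : ℝ) (_ : C * K ≤ K')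
      (_ : C * thX c0 Nr (κ - κ₁) 0 ≤ θ') (_ : C * dp ≤ δ'),
      (∀ M g, TC y₁ y₂ a M g → ∃ (D : (ℂ → ℂ) → CfN N → ℂ) (Dt Q P' : CfN N → ℂ),
        PBE.WMi y₁ y₂ a (mN N) (wN Z (fun _ => P) N η η' c) K' θ' δ' M (Vm η) (SN P η)
          (Vm η g) (CmV g) (CsV PBEI.sg' g) D Dt Q P') ∧
      ∃ (C' : (ℂ → ℂ) → ℂ) (D : (ℂ → ℂ) → CfN N → ℂ) (Dt Q P' : CfN N → ℂ),
        PBE.WMi y₁ y₂ a (mN N) (wN Z (fun _ => P) N η η' c) K' θ' δ' 1 (Vm η) (SN P η)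
          (SN P η) C' (CssV PBEI.sg') D Dt Q P' := by
  have hl2 : NUMF.l = NUP1.l := rfl
  have hpl : Real.pi / 8 = NUP1.l := rfl
  have hl0 := Bd.l_pos
  have hCS := PBOR.CS_pos
  have hb0 : 0 < b := hb'.trans hb
  have h1 : y₁ < 0 := by linarith
  have h2 : 0 < y₂ := by linarith
  have ha0 : 0 ≤ a := by linarith
  have hκ10 : 0 < κ₁ := by linarith
  have hκ0 : 0 < κ := by linarith
  have hCK := CK_nonneg hκ0 hκu
  have hb3 : b < 2 * NUMF.l := by rw [hl2]; linarith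
  obtain ⟨C1, hC1, H1⟩ := PBE.fldx_minus (y₁ := y₁) (y₂ := y₂) ha2 hκ2 hκ12 hκ1 hκ
    (by linarith : κ₁ < 2) hb' hb hb1 hb2 hb3
  obtain ⟨C2, hC2, tS, H2⟩ := PBE.fldx_step hκ2 hκ12 hκ1 (by linarith : κ < 8 / 3)
    (by linarith : κ₁ < 2) hb' hb hb3
  obtain ⟨Ds, hDs, hds⟩ := dk_step hb0 hbl
  obtain ⟨r0, hr0⟩ : ∃ r0 : ℝ, r0 = min (-b - y₁) (y₂ - b) := ⟨_, rfl⟩
  have hr : 0 < r0 := by
    rw [hr0]
    exact lt_min (by linarith) (by linarith)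
  have hr1 : y₁ + r0 ≤ -b := by
    have := min_le_left (-b - y₁) (y₂ - b)
    linarith
  have hr2 : b ≤ y₂ - r0 := by
    have := min_le_right (-b - y₁) (y₂ - b)
    linarith
  obtain ⟨L, hL⟩ : ∃ L : ℝ, L = 3 + PBOR.CS := ⟨_, rfl⟩
  have hL3 : 3 ≤ L := by rw [hL]; linarith
  obtain ⟨E, hE⟩ : ∃ E : ℝ, E = CQ + (1 + 4 / κ₁) * (Real.exp (a * r0) / r0 + Ds) := ⟨_, rfl⟩
  have hE0 : 0 ≤ E := by rw [hE]; positivity
  obtain ⟨A1, hA1⟩ : ∃ A1 : ℝ, A1 = C1 * CK κ := ⟨_, rfl⟩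
  obtain ⟨A2, hA2⟩ : ∃ A2 : ℝ, A2 = PBOR.CS + C2 * CK κ := ⟨_, rfl⟩
  have hA10 : 0 ≤ A1 := by rw [hA1]; positivity
  have hA20 : 0 ≤ A2 := by rw [hA2]; positivity
  refine ⟨L ^ 2 + (C1 + C2) * E + (A1 + A2) * L, ?_, ?_⟩
  · have : 0 ≤ (C1 + C2) * E + (A1 + A2) * L := by positivity
    nlinarith
  intro N Z P η η' c δ b0 b1 Y₁ Y₂ kk LZ LP ρ c0 Nr h0 cut M0 K dp hF hb1' hsea hPO hLP hrad hd0
    hb0' hl hQ hK hdp hMB hY1 hY2 K' θ' δ' hK' hθ' hδ'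
  have Bd := mbd_strip hMB hY1 hY2
  have hb1p := hF.b1p
  have hth : 0 ≤ thX c0 Nr (κ - κ₁) 0 := PBE.thX_nonneg hsea.Np
  have z1 : 0 ≤ C1 * E := by positivity
  have z2 : 0 ≤ C2 * E := by positivity
  have z3 : 0 ≤ A1 * L := by positivity
  have z4 : 0 ≤ A2 * L := by positivity
  have kK : L ^ 2 * K ≤ K' := by
    refine le_trans (mul_le_mul_of_nonneg_right ?_ hK) hK'
    linarith
  have kt : ∀ Cj : ℝ, Cj * E ≤ (C1 + C2) * E →
      thX c0 Nr (κ - κ₁) 0 * (Cj * E) ≤ θ' := fun Cj hj => by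
    refine le_trans ?_ hθ'
    rw [mul_comm]
    refine mul_le_mul_of_nonneg_right ?_ hth
    have : 0 ≤ L ^ 2 := by positivity
    linarith
  have kd : ∀ Aj : ℝ, Aj * L ≤ (A1 + A2) * L → Aj * L * dp ≤ δ' := fun Aj hj => by
    refine le_trans (mul_le_mul_of_nonneg_right ?_ hdp) hδ'
    have : 0 ≤ L ^ 2 := by positivity
    linarith
  refine ⟨fun M g hg => ?_, ?_⟩
  · have hM : 0 ≤ M := hg.nonneg h1 h2
    obtain ⟨β, tβ, rβ, HX⟩ := H1 M g hg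
    obtain ⟨-, -, -, e, te, re⟩ := HX c0 Nr ρ hsea 0
    simp only [ofReal_zero, sub_zero] at re
    have hm0 : mass β = 0 := mass_zero tβ hκ0 hκu hb0 hb3 hg (by linarith) h1 h2 rβ
    have hpy : ∀ (r : ℕ) (O : Fin r → Xo) (a b : ℕ) (x : (Fin a → ℝ) × (Fin b → ℝ)),
        ‖Pp LP (sg2 β) r O a b x + 0‖ ≤ A1 * M * pinR q O := fun r O a b x => by
      rw [add_zero]
      refine (Pp_min hPO hLP tβ hκ0 hκu hb0 hm0 hq r O a b x).trans (le_of_eq ?_)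
      rw [hA1]
      ring
    obtain ⟨D, Dt, Q, P', key⟩ := wm_core (yo := fun _ _ => 0) hF Bd hK hdp hq0 hPO hLP hrad
      hsea hb1' hb.le hbl.le ha0 hr hr1 hr2 hM hC1 tβ hκ10 hκ2 hκ1 (by linarith) te re
      (fun z hz => TC_dAt hg (by linarith) (by linarith) hz)
      (fun z hz => bd_TC hg ha0 hM (by linarith) (by linarith) hz) hM hd0 hb0' hl hCQ
      (hQ _ β e (mul_nonneg hC1 hM) tβ te) MIn_zero (fun r O => by
        rw [norm_zero]; positivity) hA10 hpy hDs hds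
    refine ⟨D, Dt, Q, P', ?_⟩
    rw [← hL, ← hE] at key
    have key2 := wmi_mono key h1 h2 hM (by positivity) kK (by positivity) (kt C1 (by linarith))
      (kd A1 (by linarith))
    refine key2.congr ?_ ?_ ?_
    · funext ω
      rw [Vm_evN ρ]
      show -(Vy 0 (η ω.1) ρ (sg2 g) _ _ _ _ _ + 0) = _
      rw [vy_neg, add_zero, neg_neg]
      rfl
    · intro M' k hk
      exact (Pool.Agent.PB.dictR_Cm tβ hκh hb0 hg hk ha hb0 hb1 hb2
        (fun t => rβ (t : ℂ) (by rw [ofReal_im, abs_zero]; exact hb0) false)).2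
    · have h5 := Pool.Agent.PB.dictR_Cs tβ hκh hb0 hg ha hb0 hb1 hb2
        (fun t => rβ (t : ℂ) (by rw [ofReal_im, abs_zero]; exact hb0) false) PBEI.lim_sg.int'
      simp only [dsg_real]
      exact h5
  · obtain ⟨-, -, -, e, te, re⟩ := H2 c0 Nr ρ hsea 0
    simp only [ofReal_zero, sub_zero] at re
    have tS' : TC (-b) b κ (C2 * 1) bS := by rwa [mul_one]
    have te' : TC (-b') b' κ₂ (thX c0 Nr (κ - κ₁) 0 * (C2 * 1)) e := by rwa [mul_one]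
    have re' : ∀ z : ℂ, |z.im| < b' → ∀ t : Bool,
        PB.rsp (PB.mulF ρ (sg2 (XS ρ 0 bS))) t z =
          sg2 (fun w => PB.NX.sgC w - e w - 4 * mass (XS ρ 0 bS) * PBV.tgh w) t z := by
      intro z hz t
      have h6 := re z hz t
      have h7 := tgh_eq (z := z) (by rw [hpl]; linarith)
      rw [sg2_eq] at h6 ⊢
      simp only [h7] at h6 ⊢
      exact h6
    have hpy : ∀ (r : ℕ) (O : Fin r → Xo) (a b : ℕ) (x : (Fin a → ℝ) × (Fin b → ℝ)),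
        ‖Pp LP (sg2 bS) r O a b x + -stO sgD P O‖ ≤ A2 * 1 * pinR q O := fun r O a b x => by
      rw [mul_one, hA2]
      exact Pp_step hPO hLP tS hκ0 hκu hb0 hq r O a b x
    obtain ⟨D, Dt, Q, P', key⟩ := wm_core (yo := fun _ O => -stO sgD P O) hF Bd hK hdp hq0 hPO
      hLP hrad hsea hb1' hb.le hbl.le ha0 hr hr1 hr2 zero_le_one hC2 tS' hκ10 hκ2 hκ1
      (by linarith) te' re' (fun z hz => PB.NX.differentiableAt_sgC (by rw [hpl]; linarith))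
      (fun z hz => sgC_le (by rw [hpl]; linarith)) (by norm_num) hd0 hb0' hl hCQ
      (hQ _ bS e (mul_nonneg hC2 zero_le_one) tS' te')
      (fun r a b => (MIn_stO hrad mS_sgD r a b).neg) (fun r O => by
        rw [norm_neg]; exact stO_sg_le (hPO r O)) hA20 hpy hDs hds
    refine ⟨fun k => 2 * ∫ t : ℝ, bS t * deriv k t, D, Dt, Q, P', ?_⟩
    rw [← hL, ← hE] at key
    have key2 := wmi_mono key h1 h2 zero_le_one (by positivity) kK (by positivity)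
      (kt C2 (by linarith)) (kd A2 (by linarith))
    refine key2.congr ?_ (fun _ _ _ => rfl) ?_
    · funext ω
      rw [SN_eq, Vm_evN ρ]
      show -(Vy 0 (η ω.1) ρ (sg2 PB.NX.sgC) _ _ _ _ _ + -stO sgD P _) = _
      rw [vy_neg, neg_add, neg_neg, neg_neg]
      rfl
    · simp only [dsg_real]
      exact PBE.bS_Css

end PBWM

end
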