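import Pool.Agent.NUQ.Hank

/-!
# PB/HankUp (helper69): the Hankel determinant from above, without loss

`(HA m).det <= C * m^(5/48) * bulk m` (the lower bound is `Pool.Agent.NUQ.HA_ge`).

* `Sl_le`: the local mass `int MP_n^2 w / (1 + x^2) <= 1` (exact recursion);
* `det_mul_le`: `det A * det B <= exp (tr (A B) - n)` for positive semidefinite matrices;
* `tr_le`: the trace as a double integral with the square of the kernel, `CD`: Christoffel, Darboux;
* `trace_le`: the mean of the logarithm of the weight from above.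
-/

set_option autoImplicit false

open MeasureTheory Filter Topology Set Finset Matrix
open scoped Real Polynomial

namespace PBHank

open Pool.Agent.NUQ



/-! ## the local mass -/

/-- the functional with the Lorentz factor -/
noncomputable def Lr (q : ℝ[X]) : ℝ := ∫ x : ℝ, q.eval x * wt x * (1 + x ^ 2)⁻¹

theorem lor_le (x : ℝ) : (1 + x ^ 2)⁻¹ ≤ 1 := inv_le_one_of_one_le₀ (by nlinarith [sq_nonneg x])

theorem lor_pos (x : ℝ) : 0 < (1 + x ^ 2)⁻¹ := by positivity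

theorem int_Lr (q : ℝ[X]) : Integrable fun x : ℝ => q.eval x * wt x * (1 + x ^ 2)⁻¹ := by
  refine (integrable_poly_wt q).mul_bdd (c := 1) ?_ ?_
  · exact (Continuous.inv₀ (by fun_prop) fun x => by positivity :
      Continuous fun x : ℝ => (1 + x ^ 2)⁻¹).aestronglyMeasurable
  · exact Eventually.of_forall fun x => by
      rw [Real.norm_of_nonneg (lor_pos x).le]
      exact lor_le x

theorem Lr_add (p q : ℝ[X]) : Lr (p + q) = Lr p + Lr q := by
  unfold Lr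
  rw [← integral_add (int_Lr p) (int_Lr q)]
  refine integral_congr_ae (Eventually.of_forall fun x => ?_)
  simp only [Polynomial.eval_add]
  ring

theorem Lr_C_mul (c : ℝ) (q : ℝ[X]) : Lr (Polynomial.C c * q) = c * Lr q := by
  unfold Lr
  rw [← integral_const_mul]
  refine integral_congr_ae (Eventually.of_forall fun x => ?_)
  simp only [Polynomial.eval_mul, Polynomial.eval_C]
  ring

theorem Lr_X2 (q : ℝ[X]) : Lr (Polynomial.X ^ 2 * q) = (∫ x : ℝ, q.eval x * wt x) - Lr q := by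
  unfold Lr
  rw [← integral_sub (integrable_poly_wt q) (int_Lr q)]
  refine integral_congr_ae (Eventually.of_forall fun x => ?_)
  simp only [Polynomial.eval_mul, Polynomial.eval_pow, Polynomial.eval_X]
  have : (1 + x ^ 2) ≠ 0 := by positivity
  field_simp
  ring

/-- the local mass of the polynomial of degree `n` -/
noncomputable def Sl (n : ℕ) : ℝ := Lr (MP n * MP n)

noncomputable def Tl (n : ℕ) : ℝ := Lr (Polynomial.X * (MP n * MP (n + 1)))

theorem Sl_nonneg (n : ℕ) : 0 ≤ Sl n := by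
  unfold Sl Lr
  refine integral_nonneg fun x => ?_
  rw [Polynomial.eval_mul]
  have h1 := wt_nonneg x
  have h2 := lor_pos x
  have h3 := mul_self_nonneg ((MP n).eval x)
  positivity

theorem nrm_int (n : ℕ) : ∫ x : ℝ, (MP n * MP n).eval x * wt x = 1 / 2 * ((n : ℝ) + 1) := by
  rw [int_orth n n (by rw [Nat.even_add])]
  simp

theorem Tl_succ (n : ℕ) : Tl (n + 1) = 1 - 2 / ((n : ℝ) + 2) * Sl (n + 1) - Tl n := by
  have e : Polynomial.X * (MP (n + 1) * MP (n + 1 + 1))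
      = Polynomial.C (2 / ((n : ℝ) + 2)) * (Polynomial.X ^ 2 * (MP (n + 1) * MP (n + 1)))
        + Polynomial.C (-1) * (Polynomial.X * (MP n * MP (n + 1))) := by
    rw [show n + 1 + 1 = n + 2 by ring, MP_add_two]
    simp only [Polynomial.C_neg, Polynomial.C_1]
    ring
  unfold Tl
  rw [e, Lr_add, Lr_C_mul, Lr_C_mul, Lr_X2, nrm_int]
  have h : (n : ℝ) + 2 ≠ 0 := by positivity
  unfold Sl
  push_cast
  field_simp
  ring

theorem Sl_succ (n : ℕ) : Sl (n + 2) = (2 / ((n : ℝ) + 2)) ^ 2 * (1 / 2 * ((n : ℝ) + 2) - Sl (n + 1))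
    - 4 / ((n : ℝ) + 2) * Tl n + Sl n := by
  have e : MP (n + 2) * MP (n + 2)
      = Polynomial.C ((2 / ((n : ℝ) + 2)) ^ 2) * (Polynomial.X ^ 2 * (MP (n + 1) * MP (n + 1)))
        + (Polynomial.C (-(4 / ((n : ℝ) + 2))) * (Polynomial.X * (MP n * MP (n + 1)))
        + MP n * MP n) := by
    rw [MP_add_two]
    have e1 : (Polynomial.C ((2 / ((n : ℝ) + 2)) ^ 2) : ℝ[X])
        = Polynomial.C (2 / ((n : ℝ) + 2)) * Polynomial.C (2 / ((n : ℝ) + 2)) := by
      rw [← Polynomial.C_mul, sq]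
    have e2 : (Polynomial.C (-(4 / ((n : ℝ) + 2))) : ℝ[X])
        = -(2 * Polynomial.C (2 / ((n : ℝ) + 2))) := by
      have e3 : (2 : ℝ[X]) = Polynomial.C 2 := rfl
      rw [Polynomial.C_neg, e3, ← Polynomial.C_mul]
      congr 2
      ring
    rw [e1, e2]
    ring
  unfold Sl Tl
  rw [e, Lr_add, Lr_C_mul, Lr_add, Lr_C_mul, Lr_X2, nrm_int]
  push_cast
  ring

theorem Sl_rec (n : ℕ) : Tl n = ((n : ℝ) + 1) / ((n : ℝ) + 2) * Sl (n + 1) ∧
    Sl n / ((n : ℝ) + 1) ^ 2 + Sl (n + 1) / ((n : ℝ) + 2) ^ 2 = 1 / (((n : ℝ) + 1) * ((n : ℝ) + 2)) := by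
  induction n with
  | zero =>
    have h0 : ∫ x : ℝ, (MP 0 * MP 0).eval x * wt x = 1 / 2 := by
      rw [nrm_int]; norm_num
    have hT : Tl 0 = 2 * (1 / 2 - Sl 0) := by
      have e : Polynomial.X * (MP 0 * MP (0 + 1))
          = Polynomial.C 2 * (Polynomial.X ^ 2 * (MP 0 * MP 0)) := by
        rw [zero_add, MP_one, MP_zero]
        ring
      unfold Tl
      rw [e, Lr_C_mul, Lr_X2, h0]
      rfl
    have hS : Sl 1 = 4 * (1 / 2 - Sl 0) := by
      have e : MP 1 * MP 1 = Polynomial.C 4 * (Polynomial.X ^ 2 * (MP 0 * MP 0)) := by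
        rw [MP_one, MP_zero]
        have e4 : (Polynomial.C 4 : ℝ[X]) = Polynomial.C 2 * Polynomial.C 2 := by
          rw [← Polynomial.C_mul]
          norm_num
        rw [e4]
        ring
      unfold Sl
      rw [e, Lr_C_mul, Lr_X2, h0]
    constructor
    · rw [hT, zero_add, hS]
      norm_num
      try ring
    · rw [zero_add, hS]
      norm_num
      try ring
  | succ n ih =>
    obtain ⟨i1, i2⟩ := ih
    have h1 : (n : ℝ) + 1 ≠ 0 := by positivity
    have h2 : (n : ℝ) + 2 ≠ 0 := by positivity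
    have h3 : (n : ℝ) + 3 ≠ 0 := by positivity
    have hS0 : Sl n = ((n : ℝ) + 1) / ((n : ℝ) + 2)
        - ((n : ℝ) + 1) ^ 2 * Sl (n + 1) / ((n : ℝ) + 2) ^ 2 := by
      have h4 : Sl n / ((n : ℝ) + 1) ^ 2 = 1 / (((n : ℝ) + 1) * ((n : ℝ) + 2))
          - Sl (n + 1) / ((n : ℝ) + 2) ^ 2 := by linarith
      rw [div_eq_iff (by positivity)] at h4
      rw [h4]
      field_simp
    have hS2 : Sl (n + 2) = ((n : ℝ) + 3) / ((n : ℝ) + 2)
        - ((n : ℝ) + 3) ^ 2 * Sl (n + 1) / ((n : ℝ) + 2) ^ 2 := by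
      rw [Sl_succ, i1, hS0]
      field_simp
      ring
    have hT1 : Tl (n + 1) = 1 - ((n : ℝ) + 3) / ((n : ℝ) + 2) * Sl (n + 1) := by
      rw [Tl_succ, i1]
      field_simp
      ring
    have e2 : n + 1 + 1 = n + 2 := by ring
    have c1 : (((n + 1 : ℕ) : ℝ) + 1) = (n : ℝ) + 2 := by push_cast; ring
    have c2 : (((n + 1 : ℕ) : ℝ) + 2) = (n : ℝ) + 3 := by push_cast; ring
    rw [e2, c1, c2]
    constructor
    · rw [hT1, hS2]
      field_simp
    · rw [hS2]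
      field_simp
      ring

/-- **the local mass is at most one** -/
theorem Sl_le (n : ℕ) : Sl n ≤ 1 := by
  have h := (Sl_rec n).2
  have h1 := Sl_nonneg (n + 1)
  have h2 : 0 ≤ Sl (n + 1) / ((n : ℝ) + 2) ^ 2 := by positivity
  have h3 : Sl n / ((n : ℝ) + 1) ^ 2 ≤ 1 / (((n : ℝ) + 1) * ((n : ℝ) + 2)) := by linarith
  rw [div_le_iff₀ (by positivity)] at h3
  refine h3.trans ?_
  rw [div_mul_eq_mul_div, div_le_one (by positivity)]
  nlinarith [Nat.cast_nonneg (α := ℝ) n]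



section psd

variable {n : ℕ}

/-- determinant against trace for a positive semidefinite matrix -/
theorem det_le_exp {C : Matrix (Fin n) (Fin n) ℝ} (hC : C.PosSemidef) :
    C.det ≤ Real.exp (C.trace - n) := by
  have h1 := hC.isHermitian.det_eq_prod_eigenvalues
  have h2 := hC.isHermitian.trace_eq_sum_eigenvalues
  simp only [RCLike.ofReal_real_eq_id, id_eq] at h1 h2
  rw [h1, h2]
  have h3 : (∑ i, hC.isHermitian.eigenvalues i) - (n : ℝ)
      = ∑ i, (hC.isHermitian.eigenvalues i - 1) := by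
    rw [Finset.sum_sub_distrib]
    simp
  rw [h3, Real.exp_sum]
  refine Finset.prod_le_prod (fun i _ => hC.eigenvalues_nonneg i) fun i _ => ?_
  have := Real.add_one_le_exp (hC.isHermitian.eigenvalues i - 1)
  linarith

/-- two positive semidefinite matrices -/
theorem det_mul_le {A B : Matrix (Fin n) (Fin n) ℝ} (hA : A.PosSemidef) (hB : B.PosSemidef) :
    A.det * B.det ≤ Real.exp ((A * B).trace - n) := by
  obtain ⟨X, hX⟩ : ∃ X : Matrix (Fin n) (Fin n) ℝ, A = Xᴴ * X := by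
    open scoped MatrixOrder Matrix.Norms.L2Operator in
    obtain ⟨X, hX⟩ := CStarAlgebra.nonneg_iff_eq_star_mul_self.1 hA.nonneg
    exact ⟨X, hX⟩
  have hC : (X * B * Xᴴ).PosSemidef := hB.mul_mul_conjTranspose_same X
  have h1 := det_le_exp hC
  have h2 : (X * B * Xᴴ).det = A.det * B.det := by
    rw [Matrix.det_mul, Matrix.det_mul, hX, Matrix.det_mul]
    ring
  have h3 : (X * B * Xᴴ).trace = (A * B).trace := by
    rw [hX, Matrix.mul_assoc Xᴴ, Matrix.trace_mul_comm Xᴴ]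
  rw [h2, h3] at h1
  exact h1

end psd



section gen

variable {α : Type*} [MeasurableSpace α] {n : ℕ}

theorem int_mul_b {μ : Measure α} {f a : α → ℝ} (hf : Integrable f μ) {C : ℝ}
    (ha : AEStronglyMeasurable a μ) (hC : ∀ x, |a x| ≤ C) : Integrable (fun x => f x * a x) μ :=
  hf.mul_bdd (c := C) ha (Eventually.of_forall fun x => by simpa using hC x)

theorem int_abd {μ : Measure α} {A B D : α → ℝ} (hA : Integrable A μ) (hB : Integrable B μ)
    (hD : Integrable D μ) : ∫ p, (A p + B p - 2 * D p) ∂μ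
      = (∫ p, A p ∂μ) + (∫ p, B p ∂μ) - 2 * ∫ p, D p ∂μ := by
  have h1 : ∫ p, (A p + B p - 2 * D p) ∂μ = (∫ p, (A p + B p) ∂μ) - ∫ p, 2 * D p ∂μ :=
    integral_sub (hA.add hB) (hD.const_mul 2)
  have h2 : ∫ p, (A p + B p) ∂μ = (∫ p, A p ∂μ) + ∫ p, B p ∂μ := integral_add hA hB
  rw [h1, h2, integral_const_mul]

/-- the product of two Gram matrices as a double integral -/
theorem tr_prod (μ : Measure α) [SFinite μ] (v : Fin n → α → ℝ) (a b : α → ℝ) (C : ℝ)
    (hv : ∀ i j, Integrable (fun x => v i x * v j x) μ)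
    (ha : AEStronglyMeasurable a μ) (hb : AEStronglyMeasurable b μ)
    (haC : ∀ x, |a x| ≤ C) (hbC : ∀ x, |b x| ≤ C) :
    Integrable (fun p : α × α => (∑ i, v i p.1 * v i p.2) ^ 2 * (a p.1 * b p.2)) (μ.prod μ) ∧
    ∑ i, ∑ j, (∫ x, v i x * v j x * a x ∂μ) * (∫ x, v i x * v j x * b x ∂μ)
      = ∫ p : α × α, (∑ i, v i p.1 * v i p.2) ^ 2 * (a p.1 * b p.2) ∂(μ.prod μ) := by
  have h1 : ∀ p : α × α, (∑ i, v i p.1 * v i p.2) ^ 2 * (a p.1 * b p.2)
      = ∑ i, ∑ j, (v i p.1 * v j p.1 * a p.1) * (v i p.2 * v j p.2 * b p.2) := by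
    intro p
    rw [sq, Finset.sum_mul_sum, Finset.sum_mul]
    refine Finset.sum_congr rfl fun i _ => ?_
    rw [Finset.sum_mul]
    exact Finset.sum_congr rfl fun j _ => by ring
  have h2 : ∀ i j, Integrable (fun p : α × α => (v i p.1 * v j p.1 * a p.1) *
      (v i p.2 * v j p.2 * b p.2)) (μ.prod μ) := fun i j =>
    (int_mul_b (hv i j) ha haC).mul_prod (int_mul_b (hv i j) hb hbC)
  simp only [h1]
  refine ⟨integrable_finsetSum _ fun i _ => integrable_finsetSum _ fun j _ => h2 i j, ?_⟩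
  rw [integral_finsetSum _ fun i _ => integrable_finsetSum _ fun j _ => h2 i j]
  refine Finset.sum_congr rfl fun i _ => ?_
  rw [integral_finsetSum _ fun j _ => h2 i j]
  refine Finset.sum_congr rfl fun j _ => ?_
  exact (integral_prod_mul (fun x => v i x * v j x * a x) fun x => v i x * v j x * b x).symm

/-- **the trace against a majorant of the kernel** -/
theorem tr_le (μ : Measure α) [SFinite μ] (v : Fin n → α → ℝ) (e f : α → ℝ) (C : ℝ)
    (hv : ∀ i j, Integrable (fun x => v i x * v j x) μ)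
    (he : AEStronglyMeasurable e μ) (hf : AEStronglyMeasurable f μ)
    (heC : ∀ x, |e x| ≤ C) (hfC : ∀ x, |f x| ≤ C)
    (horth : ∀ i j, ∫ x, v i x * v j x ∂μ = if i = j then 1 else 0)
    (g : α × α → ℝ) (hg : Integrable g (μ.prod μ))
    (hle : ∀ p : α × α, (∑ i, v i p.1 * v i p.2) ^ 2 *
      (e p.1 * f p.2 + f p.1 * e p.2 - 2) ≤ g p) :
    ((Matrix.of fun i j => ∫ x, v i x * v j x * e x ∂μ) *
      (Matrix.of fun i j => ∫ x, v i x * v j x * f x ∂μ)).trace - n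
      ≤ 1 / 2 * ∫ p, g p ∂(μ.prod μ) := by
  obtain ⟨i1, h1⟩ := tr_prod μ v e f C hv he hf heC hfC
  obtain ⟨i2, h2⟩ := tr_prod μ v f e C hv hf he hfC heC
  obtain ⟨i3, h3⟩ := tr_prod μ v (fun _ => 1) (fun _ => 1) 1 hv aestronglyMeasurable_const
    aestronglyMeasurable_const (fun _ => by simp) fun _ => by simp
  have t1 : ((Matrix.of fun i j => ∫ x, v i x * v j x * e x ∂μ) *
      (Matrix.of fun i j => ∫ x, v i x * v j x * f x ∂μ)).trace
      = ∑ i, ∑ j, (∫ x, v i x * v j x * e x ∂μ) * (∫ x, v i x * v j x * f x ∂μ) := by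
    rw [Matrix.trace]
    refine Finset.sum_congr rfl fun i _ => ?_
    rw [Matrix.diag_apply, Matrix.mul_apply]
    refine Finset.sum_congr rfl fun j _ => ?_
    simp only [Matrix.of_apply]
    congr 2
    funext x
    ring
  have t2 : ∑ i, ∑ j, (∫ x, v i x * v j x * e x ∂μ) * (∫ x, v i x * v j x * f x ∂μ)
      = ∑ i, ∑ j, (∫ x, v i x * v j x * f x ∂μ) * (∫ x, v i x * v j x * e x ∂μ) :=
    Finset.sum_congr rfl fun i _ => Finset.sum_congr rfl fun j _ => mul_comm _ _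
  have t3 : ∑ i, ∑ j, (∫ x, v i x * v j x * 1 ∂μ) * (∫ x, v i x * v j x * 1 ∂μ) = (n : ℝ) := by
    simp only [mul_one, horth]
    simp
  rw [t3] at h3
  rw [t1]
  have h4 : 2 * (∑ i, ∑ j, (∫ x, v i x * v j x * e x ∂μ) * (∫ x, v i x * v j x * f x ∂μ) - n)
      = ∫ p : α × α, ((∑ i, v i p.1 * v i p.2) ^ 2 * (e p.1 * f p.2)
        + (∑ i, v i p.1 * v i p.2) ^ 2 * (f p.1 * e p.2)
        - 2 * ((∑ i, v i p.1 * v i p.2) ^ 2 * (1 * 1))) ∂(μ.prod μ) := by
    rw [int_abd i1 i2 i3, ← h3, ← h1, ← h2, ← t2]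
    ring
  have h5 : ∫ p : α × α, ((∑ i, v i p.1 * v i p.2) ^ 2 * (e p.1 * f p.2)
        + (∑ i, v i p.1 * v i p.2) ^ 2 * (f p.1 * e p.2)
        - 2 * ((∑ i, v i p.1 * v i p.2) ^ 2 * (1 * 1))) ∂(μ.prod μ)
      ≤ ∫ p, g p ∂(μ.prod μ) := by
    refine integral_mono ((i1.add i2).sub (i3.const_mul 2)) hg fun p => ?_
    refine le_trans (le_of_eq ?_) (hle p)
    ring
  linarith

end gen

/-! ## Christoffel and Darboux -/

theorem CD (n : ℕ) (x y : ℝ) :
    (x - y) * ∑ k ∈ range (n + 1), (MP k).eval x * (MP k).eval y / (1 / 2 * ((k : ℝ) + 1))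
      = (MP (n + 1)).eval x * (MP n).eval y - (MP n).eval x * (MP (n + 1)).eval y := by
  induction n with
  | zero =>
    simp [MP_zero, MP_one]
    ring
  | succ n ih =>
    rw [Finset.sum_range_succ, mul_add, ih, show n + 1 + 1 = n + 2 by ring, MP_add_two]
    simp only [Polynomial.eval_sub, Polynomial.eval_mul, Polynomial.eval_C, Polynomial.eval_X]
    have h : (n : ℝ) + 2 ≠ 0 := by positivity
    have h' : (n : ℝ) + 1 + 1 ≠ 0 := by positivity
    push_cast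
    field_simp
    ring

/-- the even kernel -/
theorem even_ker (m : ℕ) (x y : ℝ) :
    2 * ∑ i ∈ range m, (MP (2 * i)).eval x * (MP (2 * i)).eval y / (1 / 2 * (((2 * i : ℕ) : ℝ) + 1))
      = (∑ k ∈ range (2 * m), (MP k).eval x * (MP k).eval y / (1 / 2 * ((k : ℝ) + 1)))
        + ∑ k ∈ range (2 * m), (MP k).eval (-x) * (MP k).eval y / (1 / 2 * ((k : ℝ) + 1)) := by
  rw [sum_even_odd m fun k => (MP k).eval x * (MP k).eval y / (1 / 2 * ((k : ℝ) + 1)),
    sum_even_odd m fun k => (MP k).eval (-x) * (MP k).eval y / (1 / 2 * ((k : ℝ) + 1)),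
    ← Finset.sum_add_distrib, Finset.mul_sum]
  refine Finset.sum_congr rfl fun i _ => ?_
  rw [MP_parity, MP_parity, Even.neg_one_pow (even_two_mul i), Odd.neg_one_pow (odd_two_mul_add_one i)]
  ring




theorem abs_sinh_le (t : ℝ) : |Real.sinh t| ≤ |t| * Real.cosh t := by
  have h := sinh_le_mul_cosh (abs_nonneg t)
  rw [Real.cosh_abs] at h
  rcases abs_choice t with h1 | h1
  · rw [h1] at h ⊢
    have h2 : 0 ≤ t := by rw [← h1]; exact abs_nonneg t
    rw [abs_of_nonneg (Real.sinh_nonneg_iff.2 h2)]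
    exact h
  · rw [h1, Real.sinh_neg] at h
    rw [h1]
    have h2 : t ≤ 0 := by have := abs_nonneg t; linarith
    rw [abs_of_nonpos (Real.sinh_nonpos_iff.2 h2)]
    exact h

theorem abs_sinh_le_cosh (t : ℝ) : |Real.sinh t| ≤ Real.cosh t := by
  rw [abs_le]
  constructor
  · have := Real.cosh_add_sinh t
    have h := Real.exp_pos t
    linarith
  · exact (Real.sinh_lt_cosh t).le

theorem cosh_sub_le (a b : ℝ) :
    |Real.cosh a - Real.cosh b| ≤ |a - b| / 2 * (Real.cosh a + Real.cosh b) := by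
  have e1 : Real.cosh a = Real.cosh ((a + b) / 2) * Real.cosh ((a - b) / 2)
      + Real.sinh ((a + b) / 2) * Real.sinh ((a - b) / 2) := by
    rw [← Real.cosh_add]; congr 1; ring
  have e2 : Real.cosh b = Real.cosh ((a + b) / 2) * Real.cosh ((a - b) / 2)
      - Real.sinh ((a + b) / 2) * Real.sinh ((a - b) / 2) := by
    rw [← Real.cosh_sub]; congr 1; ring
  have e3 : Real.cosh a - Real.cosh b = 2 * (Real.sinh ((a + b) / 2) * Real.sinh ((a - b) / 2)) := by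
    rw [e1, e2]; ring
  have e4 : Real.cosh a + Real.cosh b = 2 * (Real.cosh ((a + b) / 2) * Real.cosh ((a - b) / 2)) := by
    rw [e1, e2]; ring
  rw [e3, e4, abs_mul, abs_mul, abs_two]
  have h1 := abs_sinh_le_cosh ((a + b) / 2)
  have h2 := abs_sinh_le ((a - b) / 2)
  have h3 : |(a - b) / 2| = |a - b| / 2 := by rw [abs_div, abs_two]
  rw [h3] at h2
  calc 2 * (|Real.sinh ((a + b) / 2)| * |Real.sinh ((a - b) / 2)|)
      ≤ 2 * (Real.cosh ((a + b) / 2) * (|a - b| / 2 * Real.cosh ((a - b) / 2))) := by gcongr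
    _ = _ := by ring

theorem cosh_ge_sq (z : ℝ) : 1 + z ^ 2 / 2 ≤ Real.cosh z := by
  have h1 : Real.cosh z = 1 + 2 * Real.sinh (z / 2) ^ 2 := by
    have h2 := Real.cosh_two_mul (z / 2)
    have e : 2 * (z / 2) = z := by ring
    rw [e] at h2
    rw [h2, Real.cosh_sq]
    ring
  have h3 : (z / 2) ^ 2 ≤ Real.sinh (z / 2) ^ 2 := by
    rw [sq_le_sq]
    have h4 : |z / 2| ≤ Real.sinh |z / 2| := Real.self_le_sinh_iff.2 (abs_nonneg _)
    refine h4.trans (le_of_eq ?_)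
    rcases le_total 0 (z / 2) with h | h
    · rw [abs_of_nonneg h, abs_of_nonneg (Real.sinh_nonneg_iff.2 h)]
    · rw [abs_of_nonpos h, abs_of_nonpos (Real.sinh_nonpos_iff.2 h), Real.sinh_neg]
  rw [h1]
  nlinarith

/-- the bump -/
noncomputable def hb (x : ℝ) : ℝ := 1 / (2 * Real.cosh (2 * π / 3 * x))

theorem hb_pos (x : ℝ) : 0 < hb x := by
  unfold hb
  have := Real.cosh_pos (2 * π / 3 * x)
  positivity

theorem hb_neg (x : ℝ) : hb (-x) = hb x := by
  unfold hb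
  rw [mul_neg, Real.cosh_neg]

theorem hb_le (x : ℝ) : hb x * (1 + x ^ 2) ≤ 1 / 2 := by
  unfold hb
  have h1 := cosh_ge_sq (2 * π / 3 * x)
  have hp := Real.pi_gt_three
  have h2 : 2 * x ^ 2 ≤ (2 * π / 3 * x) ^ 2 / 2 := by
    have h3 : (2 * π / 3 * x) ^ 2 / 2 = 2 * (π ^ 2 / 9) * x ^ 2 := by ring
    rw [h3]
    have h4 : 1 ≤ π ^ 2 / 9 := by
      rw [le_div_iff₀ (by norm_num)]
      nlinarith
    nlinarith [sq_nonneg x]
  have h5 : 1 + x ^ 2 ≤ Real.cosh (2 * π / 3 * x) := by nlinarith [sq_nonneg x]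
  have h6 := Real.cosh_pos (2 * π / 3 * x)
  rw [one_div_mul_eq_div, div_le_iff₀ (by positivity)]
  linarith

theorem hb_sub (x y : ℝ) : |hb x - hb y| ≤ π / 3 * |x - y| * (hb x + hb y) := by
  unfold hb
  have hx := Real.cosh_pos (2 * π / 3 * x)
  have hy := Real.cosh_pos (2 * π / 3 * y)
  have hp := Real.pi_pos
  have h1 := cosh_sub_le (2 * π / 3 * y) (2 * π / 3 * x)
  have e1 : |2 * π / 3 * y - 2 * π / 3 * x| = 2 * π / 3 * |x - y| := by
    have : 2 * π / 3 * y - 2 * π / 3 * x = -(2 * π / 3 * (x - y)) := by ring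
    rw [this, abs_neg, abs_mul, abs_of_pos (by positivity)]
  rw [e1] at h1
  have e2 : 1 / (2 * Real.cosh (2 * π / 3 * x)) - 1 / (2 * Real.cosh (2 * π / 3 * y))
      = (Real.cosh (2 * π / 3 * y) - Real.cosh (2 * π / 3 * x)) /
        (2 * (Real.cosh (2 * π / 3 * x) * Real.cosh (2 * π / 3 * y))) := by
    field_simp
  have e3 : 1 / (2 * Real.cosh (2 * π / 3 * x)) + 1 / (2 * Real.cosh (2 * π / 3 * y))
      = (Real.cosh (2 * π / 3 * y) + Real.cosh (2 * π / 3 * x)) /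
        (2 * (Real.cosh (2 * π / 3 * x) * Real.cosh (2 * π / 3 * y))) := by
    field_simp
  have hd : 0 < 2 * (Real.cosh (2 * π / 3 * x) * Real.cosh (2 * π / 3 * y)) := by positivity
  rw [e2, e3, abs_div, abs_of_pos hd, div_le_iff₀ hd]
  calc |Real.cosh (2 * π / 3 * y) - Real.cosh (2 * π / 3 * x)|
      ≤ 2 * π / 3 * |x - y| / 2 * (Real.cosh (2 * π / 3 * y) + Real.cosh (2 * π / 3 * x)) := h1
    _ = _ := by
      field_simp

/-- **the difference quotient** -/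
theorem hb_quot (x y : ℝ) : (hb x - hb y) ^ 2 * ((1 + x ^ 2) * (1 + y ^ 2)) ≤ 5 * (x - y) ^ 2 := by
  obtain ⟨a, ha⟩ : ∃ a, a = hb x := ⟨_, rfl⟩
  obtain ⟨b, hb'⟩ : ∃ b, b = hb y := ⟨_, rfl⟩
  have ha0 : 0 < a := by rw [ha]; exact hb_pos x
  have hb0 : 0 < b := by rw [hb']; exact hb_pos y
  have h1 := hb_sub x y
  have ha1 := hb_le x
  have hb1 := hb_le y
  rw [← ha] at h1 ha1 ⊢
  rw [← hb'] at h1 hb1 ⊢
  have hp := Real.pi_pos
  have hp2 : π ^ 2 / 9 ≤ 3 / 2 := by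
    have := Real.pi_lt_d2
    rw [div_le_iff₀ (by norm_num)]
    nlinarith
  obtain ⟨t, ht⟩ : ∃ t, t = x - y := ⟨_, rfl⟩
  rw [← ht] at h1 ⊢
  have h2 : (a - b) ^ 2 ≤ 3 / 2 * t ^ 2 * (a + b) ^ 2 := by
    have h3 : |a - b| ^ 2 ≤ (π / 3 * |t| * (a + b)) ^ 2 := by gcongr
    rw [sq_abs] at h3
    have h4 : (π / 3 * |t| * (a + b)) ^ 2 = π ^ 2 / 9 * t ^ 2 * (a + b) ^ 2 := by
      rw [mul_pow, mul_pow, sq_abs]; ring
    rw [h4] at h3
    refine h3.trans ?_
    gcongr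
  have h3 : (a - b) ^ 2 ≤ (a + b) ^ 2 := by nlinarith [mul_pos ha0 hb0]
  have h4 : (1 + t ^ 2) * (a - b) ^ 2 ≤ 5 / 2 * t ^ 2 * (a + b) ^ 2 := by
    nlinarith [mul_le_mul_of_nonneg_left h3 (sq_nonneg t)]
  have h5 : (a + b) ^ 2 ≤ 2 * (a ^ 2 + b ^ 2) := by nlinarith [sq_nonneg (a - b)]
  have h6 : 1 + y ^ 2 ≤ 2 * (1 + x ^ 2) * (1 + t ^ 2) := by
    rw [ht]
    nlinarith [sq_nonneg (2 * x - y), mul_nonneg (sq_nonneg x) (sq_nonneg (x - y))]
  have h7 : 1 + x ^ 2 ≤ 2 * (1 + y ^ 2) * (1 + t ^ 2) := by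
    rw [ht]
    nlinarith [sq_nonneg (2 * y - x), mul_nonneg (sq_nonneg y) (sq_nonneg (x - y))]
  have hx1 : 0 < 1 + x ^ 2 := by positivity
  have hy1 : 0 < 1 + y ^ 2 := by positivity
  have ht1 : 0 < 1 + t ^ 2 := by positivity
  have h8 : a ^ 2 * ((1 + x ^ 2) * (1 + y ^ 2)) ≤ 1 / 2 * (1 + t ^ 2) := by
    have h9 : (a * (1 + x ^ 2)) ^ 2 ≤ (1 / 2) ^ 2 := by gcongr
    calc a ^ 2 * ((1 + x ^ 2) * (1 + y ^ 2))
        ≤ a ^ 2 * ((1 + x ^ 2) * (2 * (1 + x ^ 2) * (1 + t ^ 2))) := by gcongr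
      _ = 2 * (a * (1 + x ^ 2)) ^ 2 * (1 + t ^ 2) := by ring
      _ ≤ 2 * (1 / 2) ^ 2 * (1 + t ^ 2) := by gcongr
      _ = _ := by ring
  have h10 : b ^ 2 * ((1 + x ^ 2) * (1 + y ^ 2)) ≤ 1 / 2 * (1 + t ^ 2) := by
    have h9 : (b * (1 + y ^ 2)) ^ 2 ≤ (1 / 2) ^ 2 := by gcongr
    calc b ^ 2 * ((1 + x ^ 2) * (1 + y ^ 2))
        ≤ b ^ 2 * ((2 * (1 + y ^ 2) * (1 + t ^ 2)) * (1 + y ^ 2)) := by gcongr
      _ = 2 * (b * (1 + y ^ 2)) ^ 2 * (1 + t ^ 2) := by ring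
      _ ≤ 2 * (1 / 2) ^ 2 * (1 + t ^ 2) := by gcongr
      _ = _ := by ring
  have h11 : (1 + t ^ 2) * ((a - b) ^ 2 * ((1 + x ^ 2) * (1 + y ^ 2)))
      ≤ (1 + t ^ 2) * (5 * t ^ 2) := by
    calc (1 + t ^ 2) * ((a - b) ^ 2 * ((1 + x ^ 2) * (1 + y ^ 2)))
        = ((1 + t ^ 2) * (a - b) ^ 2) * ((1 + x ^ 2) * (1 + y ^ 2)) := by ring
      _ ≤ (5 / 2 * t ^ 2 * (a + b) ^ 2) * ((1 + x ^ 2) * (1 + y ^ 2)) := by gcongr
      _ ≤ (5 / 2 * t ^ 2 * (2 * (a ^ 2 + b ^ 2))) * ((1 + x ^ 2) * (1 + y ^ 2)) := by gcongr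
      _ = 5 * t ^ 2 * (a ^ 2 * ((1 + x ^ 2) * (1 + y ^ 2)) + b ^ 2 * ((1 + x ^ 2) * (1 + y ^ 2))) := by
        ring
      _ ≤ 5 * t ^ 2 * (1 / 2 * (1 + t ^ 2) + 1 / 2 * (1 + t ^ 2)) := by gcongr
      _ = _ := by ring
  exact le_of_mul_le_mul_left h11 ht1

theorem Gf_neg (x : ℝ) : Gf (-x) = Gf x := by
  unfold Gf
  rw [mul_neg, Real.cosh_neg]

theorem exp_quot (x y : ℝ) :
    (Real.exp (Gf x) * Real.exp (-Gf y) + Real.exp (-Gf x) * Real.exp (Gf y) - 2) *
      ((1 + x ^ 2) * (1 + y ^ 2)) ≤ 5 * (x - y) ^ 2 := by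
  obtain ⟨e, he⟩ : ∃ e, e = Real.exp (Gf x) := ⟨_, rfl⟩
  obtain ⟨f, hf⟩ : ∃ f, f = Real.exp (Gf y) := ⟨_, rfl⟩
  have he1 : 1 ≤ e := by rw [he]; exact Real.one_le_exp (Gf_nonneg x)
  have hf1 : 1 ≤ f := by rw [hf]; exact Real.one_le_exp (Gf_nonneg y)
  rw [Real.exp_neg, Real.exp_neg, ← he, ← hf]
  have h1 : e * f⁻¹ + e⁻¹ * f - 2 = (e - f) ^ 2 / (e * f) := by
    have : e ≠ 0 := by positivity
    have : f ≠ 0 := by positivity
    field_simp
    ring
  have h2 : (e - f) ^ 2 / (e * f) ≤ (e - f) ^ 2 := by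
    refine div_le_self (sq_nonneg _) ?_
    nlinarith
  have h3 : e - f = hb x - hb y := by
    rw [he, hf, exp_Gf, exp_Gf]
    unfold hb
    ring
  rw [h1]
  refine le_trans ?_ (hb_quot x y)
  rw [← h3]
  gcongr


/-! ## the determinant -/

/-- orthonormal even functions -/
noncomputable def vv (i : ℕ) (x : ℝ) : ℝ :=
  (MP (2 * i)).eval x * √(wt x) / √(1 / 2 * (((2 * i : ℕ) : ℝ) + 1))

theorem vv_mul (i j : ℕ) (x : ℝ) : vv i x * vv j x
    = (MP (2 * i) * MP (2 * j)).eval x * wt x /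
      (√(1 / 2 * (((2 * i : ℕ) : ℝ) + 1)) * √(1 / 2 * (((2 * j : ℕ) : ℝ) + 1))) := by
  unfold vv
  rw [Polynomial.eval_mul]
  have h1 : √(wt x) * √(wt x) = wt x := Real.mul_self_sqrt (wt_nonneg x)
  rw [div_mul_div_comm]
  congr 1
  linear_combination ((MP (2 * i)).eval x * (MP (2 * j)).eval x) * h1

theorem vv_int (i j : ℕ) : Integrable fun x => vv i x * vv j x := by
  simp only [vv_mul]
  exact (integrable_poly_wt _).div_const _

theorem vv_orth {m : ℕ} (i j : Fin m) : ∫ x, vv i x * vv j x = if i = j then 1 else 0 := by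
  have hpos : ∀ i : ℕ, (0 : ℝ) < 1 / 2 * (((2 * i : ℕ) : ℝ) + 1) := fun i => by positivity
  simp only [vv_mul]
  rw [integral_div, int_orth _ _ (by rw [Nat.even_iff]; omega)]
  by_cases hij : i = j
  · subst hij
    rw [if_pos rfl, if_pos rfl, Real.mul_self_sqrt (hpos i).le]
    exact div_self (hpos i).ne'
  · have : ¬ (2 * (i : ℕ) = 2 * (j : ℕ)) := by
      intro h0; exact hij (Fin.ext (by omega))
    rw [if_neg this, if_neg hij, zero_div]

theorem vv_ker (m : ℕ) (x y : ℝ) : (∑ i : Fin m, vv i x * vv i y) ^ 2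
    = (∑ i ∈ range m, (MP (2 * i)).eval x * (MP (2 * i)).eval y /
      (1 / 2 * (((2 * i : ℕ) : ℝ) + 1))) ^ 2 * (wt x * wt y) := by
  have h1 : ∑ i : Fin m, vv i x * vv i y = (∑ i ∈ range m, (MP (2 * i)).eval x *
      (MP (2 * i)).eval y / (1 / 2 * (((2 * i : ℕ) : ℝ) + 1))) * (√(wt x) * √(wt y)) := by
    rw [Finset.sum_range, Finset.sum_mul]
    refine Finset.sum_congr rfl fun i _ => ?_
    unfold vv
    have h2 : √(1 / 2 * (((2 * (i : ℕ) : ℕ) : ℝ) + 1)) * √(1 / 2 * (((2 * (i : ℕ) : ℕ) : ℝ) + 1))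
        = 1 / 2 * (((2 * (i : ℕ) : ℕ) : ℝ) + 1) := Real.mul_self_sqrt (by positivity)
    rw [div_mul_div_comm, h2]
    ring
  rw [h1, mul_pow, mul_pow, Real.sq_sqrt (wt_nonneg x), Real.sq_sqrt (wt_nonneg y)]

/-- the local density -/
noncomputable def ul (n : ℕ) (x : ℝ) : ℝ := (MP n * MP n).eval x * wt x * (1 + x ^ 2)⁻¹

theorem ul_int (n : ℕ) : Integrable (ul n) := int_Lr _

theorem ul_nonneg (n : ℕ) (x : ℝ) : 0 ≤ ul n x := by
  unfold ul
  rw [Polynomial.eval_mul]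
  have h1 := wt_nonneg x
  have h2 := lor_pos x
  have h3 := mul_self_nonneg ((MP n).eval x)
  positivity

/-- **the kernel bound** -/
theorem ker_le (n : ℕ) (x y : ℝ) (E : ℝ) (hE : E = Real.exp (Gf x) * Real.exp (-Gf y) +
    Real.exp (-Gf x) * Real.exp (Gf y) - 2) :
    (∑ i : Fin (n + 1), vv i x * vv i y) ^ 2 * E
      ≤ 10 * (ul (2 * n + 2) x * ul (2 * n + 1) y + ul (2 * n + 1) x * ul (2 * n + 2) y) := by
  have hx1 : 0 < 1 + x ^ 2 := by positivity
  have hy1 : 0 < 1 + y ^ 2 := by positivity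
  have b1 : E * ((1 + x ^ 2) * (1 + y ^ 2)) ≤ 5 * (x - y) ^ 2 := by
    rw [hE]; exact exp_quot x y
  have b2 : E * ((1 + x ^ 2) * (1 + y ^ 2)) ≤ 5 * (-x - y) ^ 2 := by
    have := exp_quot (-x) y
    rw [Gf_neg, neg_sq] at this
    rw [hE]; exact this
  have k1 := even_ker (n + 1) x y
  have c1 := CD (2 * n + 1) x y
  have c2 := CD (2 * n + 1) (-x) y
  have e2 : 2 * n + 1 + 1 = 2 * (n + 1) := by ring
  rw [e2] at c1 c2
  rw [MP_parity, MP_parity, Even.neg_one_pow (even_two_mul _),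
    Odd.neg_one_pow (odd_two_mul_add_one n)] at c2
  have e3 : 2 * n + 2 = 2 * (n + 1) := by ring
  rw [vv_ker, e3]
  unfold ul
  simp only [Polynomial.eval_mul]
  obtain ⟨K, hK⟩ : ∃ K, K = ∑ i ∈ range (n + 1), (MP (2 * i)).eval x *
      (MP (2 * i)).eval y / (1 / 2 * (((2 * i : ℕ) : ℝ) + 1)) := ⟨_, rfl⟩
  obtain ⟨F, hF⟩ : ∃ F, F = ∑ k ∈ range (2 * (n + 1)), (MP k).eval x * (MP k).eval y /
      (1 / 2 * ((k : ℝ) + 1)) := ⟨_, rfl⟩
  obtain ⟨F', hF'⟩ : ∃ F, F = ∑ k ∈ range (2 * (n + 1)), (MP k).eval (-x) * (MP k).eval y /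
      (1 / 2 * ((k : ℝ) + 1)) := ⟨_, rfl⟩
  rw [← hK, ← hF, ← hF'] at k1
  rw [← hF] at c1
  rw [← hF'] at c2
  rw [← hK]
  obtain ⟨a, ha⟩ : ∃ a, a = (MP (2 * (n + 1))).eval x := ⟨_, rfl⟩
  obtain ⟨b, hb⟩ : ∃ b, b = (MP (2 * (n + 1))).eval y := ⟨_, rfl⟩
  obtain ⟨c, hc⟩ : ∃ c, c = (MP (2 * n + 1)).eval x := ⟨_, rfl⟩
  obtain ⟨d, hd⟩ : ∃ d, d = (MP (2 * n + 1)).eval y := ⟨_, rfl⟩
  rw [← ha, ← hb, ← hc, ← hd] at c1 c2 ⊢
  have hw1 := wt_nonneg x
  have hw2 := wt_nonneg y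
  obtain ⟨Q, hQ⟩ : ∃ Q, Q = (1 + x ^ 2) * (1 + y ^ 2) := ⟨_, rfl⟩
  have hQ0 : 0 < Q := by rw [hQ]; positivity
  rw [← hQ] at b1 b2
  -- the main inequality without weights
  have m1 : K ^ 2 * (E * Q) ≤ 10 * (a ^ 2 * d ^ 2 + c ^ 2 * b ^ 2) := by
    have hK2 : K ^ 2 ≤ 1 / 2 * (F ^ 2 + F' ^ 2) := by
      have : K = (F + F') / 2 := by linarith
      rw [this]
      nlinarith [sq_nonneg (F - F')]
    have n1 : F ^ 2 * (E * Q) ≤ 5 * (a * d - c * b) ^ 2 := by
      calc F ^ 2 * (E * Q) ≤ F ^ 2 * (5 * (x - y) ^ 2) := by gcongr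
        _ = 5 * ((x - y) * F) ^ 2 := by ring
        _ = _ := by rw [c1]
    have n2 : F' ^ 2 * (E * Q) ≤ 5 * (1 * a * d - -1 * c * b) ^ 2 := by
      calc F' ^ 2 * (E * Q) ≤ F' ^ 2 * (5 * (-x - y) ^ 2) := by gcongr
        _ = 5 * ((-x - y) * F') ^ 2 := by ring
        _ = _ := by rw [c2]
    have hE0 : 0 ≤ E := by
      rw [hE, ← Real.exp_add, ← Real.exp_add]
      have h1 := Real.add_one_le_exp (Gf x + -Gf y)
      have h2 := Real.add_one_le_exp (-Gf x + Gf y)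
      linarith
    have hEQ : 0 ≤ E * Q := by positivity
    nlinarith [mul_le_mul_of_nonneg_right hK2 hEQ, sq_nonneg (a * d - c * b),
      sq_nonneg (a * d + c * b)]
  have m2 : K ^ 2 * (wt x * wt y) * E
      = K ^ 2 * (E * Q) * (wt x * wt y * ((1 + x ^ 2)⁻¹ * (1 + y ^ 2)⁻¹)) := by
    rw [hQ]
    field_simp
  rw [m2]
  calc K ^ 2 * (E * Q) * (wt x * wt y * ((1 + x ^ 2)⁻¹ * (1 + y ^ 2)⁻¹))
      ≤ 10 * (a ^ 2 * d ^ 2 + c ^ 2 * b ^ 2) * (wt x * wt y * ((1 + x ^ 2)⁻¹ * (1 + y ^ 2)⁻¹)) := by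
        gcongr
    _ = _ := by ring


theorem gram_psd {m : ℕ} {G : ℝ → ℝ} {C : ℝ} (hG : Measurable G) (hC : ∀ x, |G x| ≤ C) :
    (Matrix.of fun i j : Fin m => ∫ x, vv i x * vv j x * Real.exp (G x)).PosSemidef := by
  have hE : ∀ x, |Real.exp (G x)| ≤ Real.exp C := fun x => by
    rw [Real.abs_exp]
    exact Real.exp_le_exp.2 ((le_abs_self _).trans (hC x))
  have hint : ∀ i j : ℕ, Integrable fun x => vv i x * vv j x * Real.exp (G x) := fun i j =>
    int_mul_b (vv_int i j) (Real.measurable_exp.comp hG).aestronglyMeasurable hE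
  refine Matrix.PosSemidef.of_dotProduct_mulVec_nonneg ?_ fun z => ?_
  · ext i j
    simp only [Matrix.conjTranspose_apply, Matrix.of_apply, star_trivial]
    congr 1
    funext x
    ring
  · have h1 : star z ⬝ᵥ ((Matrix.of fun i j : Fin m => ∫ x, vv i x * vv j x * Real.exp (G x)) *ᵥ z)
        = ∫ x, (∑ i, z i * vv i x) ^ 2 * Real.exp (G x) := by
      have h2 : ∀ x, (∑ i : Fin m, z i * vv i x) ^ 2 * Real.exp (G x)
          = ∑ i : Fin m, ∑ j : Fin m, z i * z j * (vv i x * vv j x * Real.exp (G x)) := by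
        intro x
        rw [sq, Finset.sum_mul_sum, Finset.sum_mul]
        refine Finset.sum_congr rfl fun i _ => ?_
        rw [Finset.sum_mul]
        exact Finset.sum_congr rfl fun j _ => by ring
      have h3 : ∀ i j : Fin m, Integrable fun x =>
          z i * z j * (vv (i : ℕ) x * vv (j : ℕ) x * Real.exp (G x)) := fun i j =>
        (hint i j).const_mul _
      simp only [h2]
      rw [integral_finsetSum _ fun i _ => integrable_finsetSum _ fun j _ => h3 i j]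
      simp only [dotProduct, Matrix.mulVec, star_trivial, Matrix.of_apply]
      refine Finset.sum_congr rfl fun i _ => ?_
      rw [integral_finsetSum _ fun j _ => h3 i j, Finset.mul_sum]
      refine Finset.sum_congr rfl fun j _ => ?_
      rw [integral_const_mul]
      ring
    rw [h1]
    exact integral_nonneg fun x => by positivity

theorem fm_eq (m : ℕ) (x : ℝ) : ∑ i : Fin m, vv i x ^ 2 = fm m x := by
  unfold fm
  rw [Finset.sum_range]
  refine Finset.sum_congr rfl fun i _ => ?_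
  rw [sq, vv_mul, Real.mul_self_sqrt (by positivity)]

theorem abs_Gf_le (x : ℝ) : |Gf x| ≤ 1 := by
  rw [abs_of_nonneg (Gf_nonneg x)]; exact Gf_le x

/-- **the determinant against the mean of the logarithm** -/
theorem det_le (n : ℕ) :
    (Matrix.of fun i j : Fin (n + 1) => ∫ x, vv i x * vv j x * Real.exp (Gf x)).det
      ≤ Real.exp ((∫ x, fm (n + 1) x * Gf x) + 10) := by
  have hA := gram_psd (m := n + 1) measurable_Gf abs_Gf_le
  have hB := gram_psd (m := n + 1) (G := fun x => -Gf x) measurable_Gf.neg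
    (fun x => by rw [abs_neg]; exact abs_Gf_le x)
  have hE : ∀ G : ℝ → ℝ, (∀ x, |G x| ≤ 1) → ∀ x, |Real.exp (G x)| ≤ Real.exp 1 := fun G hG x => by
    rw [Real.abs_exp]
    exact Real.exp_le_exp.2 ((le_abs_self _).trans (hG x))
  have hprod := det_mul_le hA hB
  have hgi : ∀ a b : ℕ, Integrable (fun p : ℝ × ℝ => ul a p.1 * ul b p.2) (volume.prod volume) :=
    fun a b => (ul_int a).mul_prod (ul_int b)
  have htr := tr_le (volume : Measure ℝ) (fun i : Fin (n + 1) => vv i) (fun x => Real.exp (Gf x))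
    (fun x => Real.exp (-Gf x)) (Real.exp 1) (fun i j => vv_int i j)
    (Real.measurable_exp.comp measurable_Gf).aestronglyMeasurable
    (Real.measurable_exp.comp measurable_Gf.neg).aestronglyMeasurable
    (hE _ abs_Gf_le) (hE _ fun x => by rw [abs_neg]; exact abs_Gf_le x)
    (fun i j => vv_orth i j)
    (fun p => 10 * (ul (2 * n + 2) p.1 * ul (2 * n + 1) p.2 +
      ul (2 * n + 1) p.1 * ul (2 * n + 2) p.2))
    (((hgi _ _).add (hgi _ _)).const_mul 10)
    (fun p => ker_le n p.1 p.2 _ rfl)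
  have hg : ∫ p : ℝ × ℝ, 10 * (ul (2 * n + 2) p.1 * ul (2 * n + 1) p.2 +
      ul (2 * n + 1) p.1 * ul (2 * n + 2) p.2) ∂(volume.prod volume)
      = 20 * (Sl (2 * n + 2) * Sl (2 * n + 1)) := by
    have h1 : ∫ p : ℝ × ℝ, (ul (2 * n + 2) p.1 * ul (2 * n + 1) p.2 +
        ul (2 * n + 1) p.1 * ul (2 * n + 2) p.2) ∂(volume.prod volume)
        = (∫ p : ℝ × ℝ, ul (2 * n + 2) p.1 * ul (2 * n + 1) p.2 ∂(volume.prod volume)) +
          ∫ p : ℝ × ℝ, ul (2 * n + 1) p.1 * ul (2 * n + 2) p.2 ∂(volume.prod volume) :=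
      integral_add (hgi _ _) (hgi _ _)
    have h2 : ∀ a, ∫ x, ul a x = Sl a := fun a => rfl
    rw [integral_const_mul, h1, integral_prod_mul, integral_prod_mul, h2, h2]
    ring
  rw [hg] at htr
  have hS : Sl (2 * n + 2) * Sl (2 * n + 1) ≤ 1 * 1 :=
    mul_le_mul (Sl_le _) (Sl_le _) (Sl_nonneg _) (by norm_num)
  have hexp := exp_trace_le_det (volume : Measure ℝ) (fun i : Fin (n + 1) => vv i)
    (fun x => -Gf x) 1 (fun i j => vv_int i j) measurable_Gf.neg.aestronglyMeasurable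
    (fun x => by rw [abs_neg]; exact abs_Gf_le x) (fun i j => vv_orth i j)
  have hT : ∫ x, (∑ i : Fin (n + 1), vv i x ^ 2) * -Gf x = -∫ x, fm (n + 1) x * Gf x := by
    rw [← integral_neg]
    congr 1
    funext x
    rw [fm_eq]
    ring
  rw [hT] at hexp
  obtain ⟨A, hAe⟩ : ∃ A, A = (Matrix.of fun i j : Fin (n + 1) =>
    ∫ x, vv i x * vv j x * Real.exp (Gf x)).det := ⟨_, rfl⟩
  obtain ⟨B, hBe⟩ : ∃ B, B = (Matrix.of fun i j : Fin (n + 1) =>
    ∫ x, vv i x * vv j x * Real.exp (-Gf x)).det := ⟨_, rfl⟩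
  obtain ⟨T, hTe⟩ : ∃ T, T = ∫ x, fm (n + 1) x * Gf x := ⟨_, rfl⟩
  rw [← hAe, ← hBe] at hprod
  rw [← hBe, ← hTe] at hexp
  rw [← hAe, ← hTe]
  have hB0 : 0 < B := lt_of_lt_of_le (Real.exp_pos _) hexp
  have h1 : A * B ≤ Real.exp 10 := hprod.trans (Real.exp_le_exp.2 (by linarith))
  rcases le_or_gt A 0 with h | h
  · exact h.trans (Real.exp_pos _).le
  · have h2 : A * Real.exp (-T) ≤ Real.exp 10 := le_trans (by gcongr) h1
    have h3 : A = A * Real.exp (-T) * Real.exp T := by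
      rw [mul_assoc, ← Real.exp_add]
      simp
    rw [h3, add_comm, Real.exp_add]
    gcongr


/-! ## the mean of the logarithm from above -/

theorem int_inv_sin {c : ℝ} (h0 : 0 ≤ c) (h1 : c < 1) :
    ∫ x in (0 : ℝ)..π, (1 - c * Real.sin x ^ 2)⁻¹ = π / √(1 - c) := by
  have hp := Real.pi_pos
  obtain ⟨r, hr⟩ : ∃ r, r = √(1 - c) := ⟨_, rfl⟩
  have hr0 : 0 < r := by rw [hr]; exact Real.sqrt_pos.2 (by linarith)
  have hr2 : r ^ 2 = 1 - c := by rw [hr]; exact Real.sq_sqrt (by linarith)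
  rw [← hr]
  have hlt : ∀ x : ℝ, 0 < 1 - c * Real.sin x ^ 2 := fun x => by
    have h4 : Real.sin x ^ 2 ≤ 1 := Real.sin_sq_le_one x
    have h5 : 0 ≤ Real.sin x ^ 2 := sq_nonneg _
    nlinarith
  have hcont : Continuous fun x : ℝ => (1 - c * Real.sin x ^ 2)⁻¹ :=
    Continuous.inv₀ (by fun_prop) fun x => (hlt x).ne'
  have hper : Function.Periodic (fun x : ℝ => (1 - c * Real.sin x ^ 2)⁻¹) π := fun x => by
    simp only [Real.sin_add_pi, neg_sq]
  have h2 := hper.intervalIntegral_add_eq 0 (-(π / 2))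
  have e1 : -(π / 2) + π = π / 2 := by ring
  rw [zero_add, e1] at h2
  rw [h2]
  have h3 := intervalIntegral.integral_eq_sub_of_hasDerivAt_of_tendsto
    (f := fun x : ℝ => 1 / r * Real.arctan (r * Real.tan x))
    (f' := fun x : ℝ => (1 - c * Real.sin x ^ 2)⁻¹) (a := -(π / 2)) (b := π / 2)
    (fa := 1 / r * -(π / 2)) (fb := 1 / r * (π / 2)) (by linarith) ?_
    (hcont.intervalIntegrable _ _) ?_ ?_
  · rw [h3]
    field_simp
    ring
  · intro x hx
    have hc : 0 < Real.cos x := Real.cos_pos_of_mem_Ioo hx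
    have h4 := (Real.hasDerivAt_tan hc.ne').const_mul r
    have h5 := (h4.arctan).const_mul (1 / r)
    have e2 : 1 / r * (1 / (1 + (r * Real.tan x) ^ 2) * (r * (1 / Real.cos x ^ 2)))
        = (1 - c * Real.sin x ^ 2)⁻¹ := by
      have h6 := hlt x
      have h7 : 1 - c * Real.sin x ^ 2 = Real.cos x ^ 2 + r ^ 2 * Real.sin x ^ 2 := by
        rw [hr2]
        have := Real.sin_sq_add_cos_sq x
        linarith
      rw [h7, Real.tan_eq_sin_div_cos]
      have h8 : 0 < Real.cos x ^ 2 + r ^ 2 * Real.sin x ^ 2 := by positivity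
      field_simp
    rw [e2] at h5
    exact h5
  · have h4 : Tendsto (fun x : ℝ => r * Real.tan x) (𝓝[>] (-(π / 2))) atBot :=
      Real.tendsto_tan_neg_pi_div_two.const_mul_atBot hr0
    exact ((Real.tendsto_arctan_atBot.comp h4).mono_right nhdsWithin_le_nhds).const_mul _
  · have h4 : Tendsto (fun x : ℝ => r * Real.tan x) (𝓝[<] (π / 2)) atTop :=
      Real.tendsto_tan_pi_div_two.const_mul_atTop hr0
    exact ((Real.tendsto_arctan_atTop.comp h4).mono_right nhdsWithin_le_nhds).const_mul _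

theorem sum_Lg_le (N : ℕ) {z : ℝ} (h0 : 0 < z) (h1 : z ≤ 1) :
    ∑ n ∈ range N, Lg n z ≤ 1 / √z := by
  have hp := Real.pi_pos
  have h2 : ∑ n ∈ range N, π * Lg n (1 - (1 - z))
      = ∫ x in (0 : ℝ)..π, ∑ n ∈ range N, Wf n ((1 - z) * Real.sin x ^ 2) := by
    rw [intervalIntegral.integral_finsetSum]
    · exact Finset.sum_congr rfl fun n _ => (int_Wf n (1 - z)).symm
    · intro n _
      exact ((continuous_Wf n).comp (by fun_prop)).intervalIntegrable _ _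
  have hlt : ∀ x : ℝ, (1 - z) * Real.sin x ^ 2 < 1 := fun x => by
    have h4 : Real.sin x ^ 2 ≤ 1 := Real.sin_sq_le_one x
    have h5 : 0 ≤ Real.sin x ^ 2 := sq_nonneg _
    nlinarith
  have h3 : ∫ x in (0 : ℝ)..π, ∑ n ∈ range N, Wf n ((1 - z) * Real.sin x ^ 2)
      ≤ ∫ x in (0 : ℝ)..π, (1 - (1 - z) * Real.sin x ^ 2)⁻¹ := by
    refine intervalIntegral.integral_mono_on hp.le ?_ ?_ fun x _ => ?_
    · exact (continuous_finsetSum _ fun n _ =>
        (continuous_Wf n).comp (by fun_prop)).intervalIntegrable _ _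
    · refine Continuous.intervalIntegrable (Continuous.inv₀ (by fun_prop) fun x => ?_) _ _
      have := hlt x
      linarith
    · have h4 := sum_Wf N ((1 - z) * Real.sin x ^ 2)
      have h5 : 0 < 1 - (1 - z) * Real.sin x ^ 2 := by have := hlt x; linarith
      have h6 : |(Polynomial.Chebyshev.T ℝ (N : ℤ)).eval (2 * ((1 - z) * Real.sin x ^ 2) - 1)| ≤ 1 := by
        refine Polynomial.Chebyshev.abs_eval_T_real_le_one _ ?_
        have h7 : 0 ≤ (1 - z) * Real.sin x ^ 2 := mul_nonneg (by linarith) (sq_nonneg _)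
        rw [abs_le]; constructor <;> linarith
      have h8 := (abs_le.1 h6).1
      rw [inv_eq_one_div, le_div_iff₀ h5]
      nlinarith
  rw [int_inv_sin (by linarith) (by linarith), ← h2, ← Finset.mul_sum, sub_sub_cancel] at h3
  have h4 : π * ∑ n ∈ range N, Lg n z ≤ π * (1 / √z) := by
    refine h3.trans (le_of_eq ?_)
    ring
  exact le_of_mul_le_mul_left h4 hp

/-- the trace function from above -/
theorem cm_le (m : ℕ) {u : ℝ} (hu : 0 < u) : cm m u ≤ 1 / (2 * Real.tanh (u / 2)) := by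
  have ht : 0 < Real.tanh (u / 2) := by
    rw [Real.tanh_eq_sinh_div_cosh]
    have h1 : 0 < Real.sinh (u / 2) := Real.sinh_pos_iff.2 (by linarith)
    have h2 := Real.cosh_pos (u / 2)
    positivity
  have h := sum_Lg_le (2 * m) (z := Real.tanh (u / 2) ^ 2) (by positivity) (tanh_sq_lt_one _).le
  rw [Real.sqrt_sq ht.le] at h
  unfold cm
  calc 1 / 2 * ∑ n ∈ range (2 * m), Lg n (Real.tanh (u / 2) ^ 2)
      ≤ 1 / 2 * (1 / Real.tanh (u / 2)) := by gcongr
    _ = _ := by ring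


theorem sinh_mul_le {l x : ℝ} (hl : 0 ≤ l) (hl1 : l ≤ 1) (hx : 0 ≤ x) :
    Real.sinh (l * x) ≤ l * Real.sinh x := by
  have hmono : MonotoneOn (fun x : ℝ => l * Real.sinh x - Real.sinh (l * x)) (Ici 0) := by
    refine monotoneOn_of_deriv_nonneg (convex_Ici 0) (by fun_prop) (by fun_prop) fun x hx => ?_
    rw [interior_Ici] at hx
    have hx0 : (0 : ℝ) < x := hx
    have h1 : HasDerivAt (fun x : ℝ => l * Real.sinh x - Real.sinh (l * x))
        (l * Real.cosh x - Real.cosh (l * x) * (l * 1)) x :=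
      ((Real.hasDerivAt_sinh x).const_mul l).sub (((hasDerivAt_id x).const_mul l).sinh)
    rw [h1.deriv]
    have h2 : Real.cosh (l * x) ≤ Real.cosh x := by
      rw [Real.cosh_le_cosh, abs_of_nonneg (by positivity), abs_of_nonneg hx0.le]
      nlinarith
    nlinarith
  have h := hmono (show (0 : ℝ) ∈ Set.Ici 0 from Set.self_mem_Ici) (show x ∈ Set.Ici (0 : ℝ) from hx) hx
  simp only [mul_zero, Real.sinh_zero, sub_zero] at h
  linarith

theorem kf_le {φ η : ℝ} (h0 : 0 ≤ φ) (hφ : φ ≤ π / 2) (hη : 0 < η) :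
    kf φ η ≤ φ / π * (Real.cosh (π / 2 * η))⁻¹ := by
  have hp := Real.pi_pos
  unfold kf
  have h1 : Real.sinh (φ * η) ≤ (φ / (π / 2)) * Real.sinh (π / 2 * η) := by
    have h2 := sinh_mul_le (l := φ / (π / 2)) (x := π / 2 * η) (by positivity)
      (by rw [div_le_one (by positivity)]; exact hφ) (by positivity)
    have e : φ / (π / 2) * (π / 2 * η) = φ * η := by field_simp
    rwa [e] at h2
  have h3 : Real.sinh (π * η) = 2 * Real.sinh (π / 2 * η) * Real.cosh (π / 2 * η) := by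
    rw [← Real.sinh_two_mul]
    congr 1
    ring
  have h4 : 0 < Real.sinh (π / 2 * η) := Real.sinh_pos_iff.2 (by positivity)
  have h5 := Real.cosh_pos (π / 2 * η)
  rw [h3, div_le_iff₀ (by positivity)]
  calc Real.sinh (φ * η) ≤ (φ / (π / 2)) * Real.sinh (π / 2 * η) := h1
    _ = φ / π * (Real.cosh (π / 2 * η))⁻¹ *
        (2 * Real.sinh (π / 2 * η) * Real.cosh (π / 2 * η)) := by
      field_simp

theorem int_sech : IntegrableOn (fun η : ℝ => (Real.cosh (π / 2 * η))⁻¹) (Ioi 0) ∧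
    ∫ η in Ioi (0 : ℝ), (Real.cosh (π / 2 * η))⁻¹ ≤ 4 / π := by
  have hp := Real.pi_pos
  have hexp : IntegrableOn (fun η : ℝ => 2 * Real.exp (-(π / 2) * η)) (Ioi 0) :=
    (integrableOn_exp_mul_Ioi (by linarith : -(π / 2) < 0) 0).const_mul 2
  have hle : ∀ η : ℝ, (Real.cosh (π / 2 * η))⁻¹ ≤ 2 * Real.exp (-(π / 2) * η) := by
    intro η
    rw [inv_le_comm₀ (Real.cosh_pos _) (by positivity)]
    rw [Real.cosh_eq]
    have h1 : (2 * Real.exp (-(π / 2) * η))⁻¹ = Real.exp (π / 2 * η) / 2 := by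
      rw [mul_inv, ← Real.exp_neg]
      have : -(-(π / 2) * η) = π / 2 * η := by ring
      rw [this]
      ring
    rw [h1]
    have := Real.exp_pos (-(π / 2 * η))
    linarith
  have hc : Continuous fun η : ℝ => (Real.cosh (π / 2 * η))⁻¹ :=
    Continuous.inv₀ (by fun_prop) fun x => (Real.cosh_pos _).ne'
  have hI : IntegrableOn (fun η : ℝ => (Real.cosh (π / 2 * η))⁻¹) (Ioi 0) :=
    hexp.mono' hc.aestronglyMeasurable (Eventually.of_forall fun η => by
      rw [Real.norm_of_nonneg (inv_nonneg.2 (Real.cosh_pos _).le)]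
      exact hle η)
  refine ⟨hI, ?_⟩
  refine (integral_mono hI hexp hle).trans ?_
  rw [integral_const_mul, integral_exp_mul_Ioi (by linarith : -(π / 2) < 0) 0]
  refine le_of_eq ?_
  rw [mul_zero, Real.exp_zero]
  field_simp
  ring

theorem int_sech2 (m : ℕ) :
    IntegrableOn (fun η : ℝ => (1 - Real.tanh (π * η / 3) ^ 2) * cm m (2 * π / 3 * η))
      (Ioi 0) ∧
    ∫ η in Ioi (0 : ℝ), (1 - Real.tanh (π * η / 3) ^ 2) * cm m (2 * π / 3 * η)
      = 3 / π * ∫ a in (0 : ℝ)..1, (1 / 2 * ∑ n ∈ range (2 * m), Lg n (a ^ 2)) := by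
  obtain ⟨q, hq⟩ : ∃ q : ℝ → ℝ, q = fun a => 1 / 2 * ∑ n ∈ range (2 * m), Lg n (a ^ 2) :=
    ⟨_, rfl⟩
  have hqc : Continuous q := by
    rw [hq]
    exact continuous_const.mul (continuous_finsetSum _ fun n _ => (continuous_Lg n).comp (by fun_prop))
  have hp := Real.pi_pos
  have hder : ∀ η : ℝ, HasDerivAt (fun η : ℝ => 3 / π * ∫ a in (0 : ℝ)..(Real.tanh (π * η / 3)), q a)
      ((1 - Real.tanh (π * η / 3) ^ 2) * cm m (2 * π / 3 * η)) η := by
    intro η
    have h1 : HasDerivAt (fun y : ℝ => π * y / 3) (π / 3) η := by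
      have := ((hasDerivAt_id η).const_mul π).div_const 3
      simpa using this
    have h2 := (Pool.Agent.NUQ.hasDerivAt_tanh (π * η / 3)).comp η h1
    have h3 : HasDerivAt (fun y : ℝ => ∫ a in (0 : ℝ)..y, q a) (q (Real.tanh (π * η / 3)))
        (Real.tanh (π * η / 3)) :=
      intervalIntegral.integral_hasDerivAt_right (hqc.intervalIntegrable _ _)
        (hqc.stronglyMeasurableAtFilter _ _) hqc.continuousAt
    have h4 := (h3.comp η h2).const_mul (3 / π)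
    have e : 3 / π * (q (Real.tanh (π * η / 3)) * ((1 - Real.tanh (π * η / 3) ^ 2) * (π / 3)))
        = (1 - Real.tanh (π * η / 3) ^ 2) * cm m (2 * π / 3 * η) := by
      have e2 : 2 * π / 3 * η / 2 = π * η / 3 := by ring
      simp only [hq, cm, e2]
      field_simp
    rw [e] at h4
    exact h4
  have hlim : Tendsto (fun η : ℝ => 3 / π * ∫ a in (0 : ℝ)..(Real.tanh (π * η / 3)), q a) atTop
      (𝓝 (3 / π * ∫ a in (0 : ℝ)..1, q a)) := by
    refine Tendsto.const_mul _ ?_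
    have h1 : Tendsto (fun η : ℝ => Real.tanh (π * η / 3)) atTop (𝓝 1) := by
      refine tendsto_tanh.comp ?_
      have h2 : (fun η : ℝ => π * η / 3) = fun η : ℝ => π / 3 * η := by funext η; ring
      rw [h2]
      exact tendsto_id.const_mul_atTop (by positivity)
    have h2 : Continuous (fun y : ℝ => ∫ a in (0 : ℝ)..y, q a) :=
      intervalIntegral.continuous_primitive (fun a b => hqc.intervalIntegrable a b) 0
    exact (h2.tendsto 1).comp h1
  have hnn : ∀ η ∈ Ioi (0 : ℝ), 0 ≤ (1 - Real.tanh (π * η / 3) ^ 2) * cm m (2 * π / 3 * η) :=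
    fun η _ => mul_nonneg (by have := tanh_sq_lt_one (π * η / 3); linarith) (cm_nonneg m _)
  have hint := integrableOn_Ioi_deriv_of_nonneg' (fun x _ => hder x) hnn hlim
  refine ⟨hint, ?_⟩
  have h5 := integral_Ioi_of_hasDerivAt_of_tendsto' (fun x _ => hder x) hint hlim
  rw [h5, hq]
  simp

theorem sum_int (m : ℕ) : ∫ a in (0 : ℝ)..1, (1 / 2 * ∑ n ∈ range (2 * m), Lg n (a ^ 2))
    = 1 / 2 * ∑ n ∈ range (2 * m), 1 / (2 * (n : ℝ) + 1) := by
  have hL : ∀ n, Continuous (fun a : ℝ => Lg n (a ^ 2)) := fun n =>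
    (continuous_Lg n).comp (by fun_prop)
  have h2 : ∀ n, ∫ a in (0 : ℝ)..1, Lg n (a ^ 2) = 1 / (2 * (n : ℝ) + 1) := by
    intro n
    have h3 : ∫ a in (-1 : ℝ)..1, Lg n (a ^ 2)
        = (∫ a in (-1 : ℝ)..0, Lg n (a ^ 2)) + ∫ a in (0 : ℝ)..1, Lg n (a ^ 2) :=
      (intervalIntegral.integral_add_adjacent_intervals ((hL n).intervalIntegrable _ _)
        ((hL n).intervalIntegrable _ _)).symm
    have h4 : ∫ a in (-1 : ℝ)..0, Lg n (a ^ 2) = ∫ a in (0 : ℝ)..1, Lg n (a ^ 2) := by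
      have h5 := intervalIntegral.integral_comp_neg (a := (0 : ℝ)) (b := 1)
        (fun a : ℝ => Lg n (a ^ 2))
      simp only [neg_zero, even_two, Even.neg_pow] at h5
      exact h5.symm
    rw [int_Lg, h4] at h3
    have h6 : (2 : ℝ) * (1 / (2 * (n : ℝ) + 1)) = 2 * ∫ a in (0 : ℝ)..1, Lg n (a ^ 2) := by
      rw [mul_one_div, h3]
      ring
    linarith
  rw [intervalIntegral.integral_const_mul, intervalIntegral.integral_finsetSum fun n _ =>
    (hL n).intervalIntegrable _ _]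
  simp only [h2]

/-- one angle, from above -/
theorem trace_phi_le {φ : ℝ} (h0 : 0 ≤ φ) (hφ1 : φ ≤ π / 2) (m : ℕ) :
    ∫ x : ℝ, fm m x * gf φ x
      ≤ 3 * φ / π ^ 2 * (∑ n ∈ range (2 * m), 1 / (2 * (n : ℝ) + 1) + 4 / 3) := by
  have hp := Real.pi_pos
  have hφ' : |φ| < π := by rw [abs_of_nonneg h0]; linarith
  have hk := integrable_kf hφ'
  have hf := integrable_fm m
  have hprod : Integrable (fun p : ℝ × ℝ => fm m p.1 * kf φ p.2)
      (volume.prod (volume.restrict (Ioi 0))) := hf.mul_prod hk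
  have hF : Integrable (fun p : ℝ × ℝ => fm m p.1 * kf φ p.2 * Real.cos (2 * π / 3 * p.2 * p.1))
      (volume.prod (volume.restrict (Ioi 0))) := by
    refine hprod.mul_bdd (c := 1) ?_ ?_
    · exact (by fun_prop : Continuous fun p : ℝ × ℝ =>
        Real.cos (2 * π / 3 * p.2 * p.1)).aestronglyMeasurable
    · exact Eventually.of_forall fun p => by
        simpa using Real.abs_cos_le_one (2 * π / 3 * p.2 * p.1)
  have h1 : ∫ x : ℝ, fm m x * gf φ x = 2 * ∫ x : ℝ, ∫ η in Ioi (0 : ℝ),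
      fm m x * kf φ η * Real.cos (2 * π / 3 * η * x) := by
    rw [← integral_const_mul]
    refine integral_congr_ae (Eventually.of_forall fun x => ?_)
    simp only
    rw [gf_eq hφ' x]
    have h2 : ∫ η in Ioi (0 : ℝ), fm m x * kf φ η * Real.cos (2 * π / 3 * η * x)
        = fm m x * ∫ η in Ioi (0 : ℝ), kf φ η * Real.cos (2 * π / 3 * η * x) := by
      rw [← integral_const_mul]
      refine integral_congr_ae (Eventually.of_forall fun η => ?_)
      simp only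
      ring
    rw [h2]; ring
  have h2 : ∫ x : ℝ, ∫ η in Ioi (0 : ℝ), fm m x * kf φ η * Real.cos (2 * π / 3 * η * x)
      = ∫ η in Ioi (0 : ℝ), ∫ x : ℝ, fm m x * kf φ η * Real.cos (2 * π / 3 * η * x) :=
    integral_integral_swap hF
  have h3 : ∀ η : ℝ, ∫ x : ℝ, fm m x * kf φ η * Real.cos (2 * π / 3 * η * x)
      = kf φ η * cm m (2 * π / 3 * η) := by
    intro η
    rw [cm, ← int_fm_cos, ← integral_const_mul]
    refine integral_congr_ae (Eventually.of_forall fun x => ?_)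
    simp only
    ring
  have h4 : IntegrableOn (fun η : ℝ => kf φ η * cm m (2 * π / 3 * η)) (Ioi 0) := by
    have h5 := hF.integral_prod_right
    refine Integrable.congr h5 (Eventually.of_forall fun η => ?_)
    exact h3 η
  rw [h1, h2]
  simp only [h3]
  obtain ⟨h5, h6⟩ := int_sech2 m
  obtain ⟨s1, s2⟩ := int_sech
  have h7 : ∫ η in Ioi (0 : ℝ), kf φ η * cm m (2 * π / 3 * η)
      ≤ ∫ η in Ioi (0 : ℝ), φ / π * ((1 - Real.tanh (π * η / 3) ^ 2) * cm m (2 * π / 3 * η)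
        + 1 / 2 * (Real.cosh (π / 2 * η))⁻¹) := by
    refine setIntegral_mono_on h4 ((h5.add (s1.const_mul (1 / 2))).const_mul _) measurableSet_Ioi
      fun η hη => ?_
    have hη0 : (0 : ℝ) < η := hη
    have h8 := kf_le h0 hφ1 hη0
    have h9 := cm_nonneg m (2 * π / 3 * η)
    have h10 := cm_le m (u := 2 * π / 3 * η) (by positivity)
    have e2 : 2 * π / 3 * η / 2 = π * η / 3 := by ring
    rw [e2] at h10
    obtain ⟨a, ha⟩ : ∃ a, a = Real.tanh (π * η / 3) := ⟨_, rfl⟩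
    have ha0 : 0 < a := by
      rw [ha, Real.tanh_eq_sinh_div_cosh]
      have h1 : 0 < Real.sinh (π * η / 3) := Real.sinh_pos_iff.2 (by positivity)
      have h2 := Real.cosh_pos (π * η / 3)
      positivity
    have ha1 : a ^ 2 < 1 := by rw [ha]; exact tanh_sq_lt_one _
    have ha2 : a < 1 := by nlinarith
    rw [← ha] at h10 ⊢
    obtain ⟨c, hc⟩ : ∃ c, c = cm m (2 * π / 3 * η) := ⟨_, rfl⟩
    obtain ⟨s, hs⟩ : ∃ s, s = (Real.cosh (π / 2 * η))⁻¹ := ⟨_, rfl⟩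
    have hs0 : 0 < s := by rw [hs]; exact inv_pos.2 (Real.cosh_pos _)
    have hs1 : s ≤ 1 := by rw [hs]; exact inv_le_one_of_one_le₀ (Real.one_le_cosh _)
    rw [← hc] at h9 h10 ⊢
    rw [← hs] at h8 ⊢
    have h11 : a ^ 2 * c ≤ 1 / 2 := by
      calc a ^ 2 * c ≤ a ^ 2 * (1 / (2 * a)) := by gcongr
        _ = 1 / 2 * a := by field_simp
        _ ≤ _ := by linarith
    have h12 : s * c ≤ (1 - a ^ 2) * c + 1 / 2 * s := by
      have h13 : s * (a ^ 2 * c) ≤ s * (1 / 2) := mul_le_mul_of_nonneg_left h11 hs0.le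
      have h14 : s * ((1 - a ^ 2) * c) ≤ 1 * ((1 - a ^ 2) * c) :=
        mul_le_mul_of_nonneg_right hs1 (mul_nonneg (by linarith) h9)
      nlinarith
    calc kf φ η * c ≤ φ / π * s * c := mul_le_mul_of_nonneg_right h8 h9
      _ = φ / π * (s * c) := by ring
      _ ≤ _ := mul_le_mul_of_nonneg_left h12 (by positivity)
  have h15 : ∫ η in Ioi (0 : ℝ), ((1 - Real.tanh (π * η / 3) ^ 2) * cm m (2 * π / 3 * η)
        + 1 / 2 * (Real.cosh (π / 2 * η))⁻¹)
      = (∫ η in Ioi (0 : ℝ), (1 - Real.tanh (π * η / 3) ^ 2) * cm m (2 * π / 3 * η))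
        + ∫ η in Ioi (0 : ℝ), 1 / 2 * (Real.cosh (π / 2 * η))⁻¹ :=
    integral_add h5 (s1.const_mul (1 / 2))
  rw [integral_const_mul, h15, integral_const_mul, h6, sum_int] at h7
  calc 2 * ∫ η in Ioi (0 : ℝ), kf φ η * cm m (2 * π / 3 * η)
      ≤ 2 * (φ / π * (3 / π * (1 / 2 * ∑ n ∈ range (2 * m), 1 / (2 * (n : ℝ) + 1)) +
        1 / 2 * (4 / π))) := by
        refine mul_le_mul_of_nonneg_left (h7.trans ?_) (by norm_num)
        gcongr
    _ = _ := by
        field_simp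


/-- **The upper bound of the trace.** -/
theorem trace_le (m : ℕ) : ∫ x : ℝ, fm m x * Gf x
    ≤ 5 / 24 * (∑ n ∈ range (2 * m), 1 / (2 * (n : ℝ) + 1) + 4 / 3) := by
  have hp := Real.pi_pos
  have hle : π / 3 ≤ π / 2 := by linarith
  set μ : Measure ℝ := volume.restrict (Ioc (π / 3) (π / 2)) with hμ
  have hgm : Measurable (fun p : ℝ × ℝ => gf p.2 p.1) := by
    unfold gf
    refine Measurable.div (by fun_prop) ?_
    refine Measurable.add (by fun_prop) ?_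
    exact (Real.continuous_cosh.comp (by fun_prop)).measurable
  have h0 : Integrable (fun p : ℝ × ℝ => fm m p.1 * 1) (volume.prod μ) :=
    (integrable_fm m).mul_prod (integrable_const (1 : ℝ))
  have hF : Integrable (fun p : ℝ × ℝ => fm m p.1 * gf p.2 p.1) (volume.prod μ) := by
    have h00 : Integrable (fun p : ℝ × ℝ => fm m p.1) (volume.prod μ) := by simpa using h0
    refine h00.mul_bdd (c := 1) hgm.aestronglyMeasurable ?_
    have hae : ∀ᵐ p : ℝ × ℝ ∂(volume.prod μ), p.2 ∈ Ioc (π / 3) (π / 2) := by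
      have h1 : ∀ᵐ y ∂μ, y ∈ Ioc (π / 3) (π / 2) := ae_restrict_mem measurableSet_Ioc
      exact Measure.quasiMeasurePreserving_snd.ae h1
    filter_upwards [hae] with p hp2
    have h1 : 0 ≤ Real.cos p.2 := Real.cos_nonneg_of_mem_Icc ⟨by linarith [hp2.1], hp2.2⟩
    have h2 := Real.one_le_cosh (2 * π / 3 * p.1)
    have h3 : |Real.sin p.2| ≤ 1 := Real.abs_sin_le_one _
    unfold gf
    rw [norm_div, Real.norm_eq_abs, Real.norm_of_nonneg (by linarith),
      div_le_one (by linarith)]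
    linarith
  have h1 : ∫ x : ℝ, fm m x * Gf x = ∫ x : ℝ, ∫ φ, fm m x * gf φ x ∂μ := by
    refine integral_congr_ae (Eventually.of_forall fun x => ?_)
    simp only
    rw [Gf_eq, intervalIntegral.integral_of_le hle, ← integral_const_mul]
  have h2 : ∫ x : ℝ, ∫ φ, fm m x * gf φ x ∂μ = ∫ φ, (∫ x : ℝ, fm m x * gf φ x) ∂μ :=
    integral_integral_swap hF
  rw [h1, h2]
  obtain ⟨S, hS⟩ : ∃ S : ℝ, S = ∑ n ∈ range (2 * m), 1 / (2 * (n : ℝ) + 1) + 4 / 3 := ⟨_, rfl⟩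
  rw [← hS]
  have h3 : ∫ φ, (∫ x : ℝ, fm m x * gf φ x) ∂μ ≤ ∫ φ, 3 * φ / π ^ 2 * S ∂μ := by
    have h4 : Integrable (fun φ : ℝ => ∫ x : ℝ, fm m x * gf φ x) μ := hF.integral_prod_right
    refine integral_mono_ae h4 ?_ ?_
    · have : Continuous (fun φ : ℝ => 3 * φ / π ^ 2 * S) := by fun_prop
      exact (this.integrableOn_Icc (a := π / 3) (b := π / 2)).mono_set Ioc_subset_Icc_self
    · have h5 : ∀ᵐ y ∂μ, y ∈ Ioc (π / 3) (π / 2) := ae_restrict_mem measurableSet_Ioc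
      filter_upwards [h5] with φ hφ
      rw [hS]
      exact trace_phi_le (by linarith [hφ.1]) hφ.2 m
  refine h3.trans (le_of_eq ?_)
  rw [hμ, ← intervalIntegral.integral_of_le hle]
  have h4 : ∫ φ in (π / 3)..(π / 2), 3 * φ / π ^ 2 * S
      = 3 * S / π ^ 2 * ∫ φ in (π / 3)..(π / 2), φ := by
    rw [← intervalIntegral.integral_const_mul]
    congr 1; funext φ; ring
  rw [h4, integral_id]
  field_simp
  ring

/-! ## the Hankel determinant -/

theorem Gr_le (n : ℕ) : (Gr (n + 1)).det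
    ≤ (∏ i : Fin (n + 1), (1 / 2 * (((2 * (i : ℕ) : ℕ) : ℝ) + 1))) *
      Real.exp (5 / 24 * (∑ k ∈ range (2 * (n + 1)), 1 / (2 * (k : ℝ) + 1) + 4 / 3) + 10) := by
  have hpos : ∀ i : Fin (n + 1), (0 : ℝ) < 1 / 2 * (((2 * (i : ℕ) : ℕ) : ℝ) + 1) :=
    fun i => by positivity
  have h1 := det_le n
  have h3 : (Matrix.of fun i j : Fin (n + 1) => ∫ x : ℝ, vv i x * vv j x * Real.exp (Gf x))
      = Matrix.diagonal (fun i : Fin (n + 1) => 1 / √(1 / 2 * (((2 * (i : ℕ) : ℕ) : ℝ) + 1))) *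
        Gr (n + 1) *
        Matrix.diagonal (fun i : Fin (n + 1) => 1 / √(1 / 2 * (((2 * (i : ℕ) : ℕ) : ℝ) + 1))) := by
    ext i j
    rw [Matrix.mul_diagonal, Matrix.diagonal_mul]
    simp only [Gr, Matrix.of_apply]
    rw [← integral_const_mul, ← integral_mul_const]
    congr 1
    funext x
    rw [vv_mul, Polynomial.eval_mul]
    field_simp
  rw [h3, Matrix.det_mul, Matrix.det_mul, Matrix.det_diagonal] at h1
  have h4 : (∏ i : Fin (n + 1), 1 / √(1 / 2 * (((2 * (i : ℕ) : ℕ) : ℝ) + 1))) * (Gr (n + 1)).det *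
      (∏ i : Fin (n + 1), 1 / √(1 / 2 * (((2 * (i : ℕ) : ℕ) : ℝ) + 1)))
      = (Gr (n + 1)).det / ∏ i : Fin (n + 1), (1 / 2 * (((2 * (i : ℕ) : ℕ) : ℝ) + 1)) := by
    have h5 : (∏ i : Fin (n + 1), 1 / √(1 / 2 * (((2 * (i : ℕ) : ℕ) : ℝ) + 1))) *
        (∏ i : Fin (n + 1), 1 / √(1 / 2 * (((2 * (i : ℕ) : ℕ) : ℝ) + 1)))
        = 1 / ∏ i : Fin (n + 1), (1 / 2 * (((2 * (i : ℕ) : ℕ) : ℝ) + 1)) := by
      have h6 : ∀ h : Fin (n + 1) → ℝ, (∀ i, 0 < h i) →
          (∏ i, 1 / √(h i)) * (∏ i, 1 / √(h i)) = 1 / ∏ i, h i := by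
        intro h hh
        rw [← Finset.prod_mul_distrib, one_div, ← Finset.prod_inv_distrib]
        refine Finset.prod_congr rfl fun i _ => ?_
        rw [div_mul_div_comm, one_mul, Real.mul_self_sqrt (hh i).le, one_div]
      exact h6 _ hpos
    calc _ = (Gr (n + 1)).det * ((∏ i : Fin (n + 1), 1 / √(1 / 2 * (((2 * (i : ℕ) : ℕ) : ℝ) + 1))) *
        (∏ i : Fin (n + 1), 1 / √(1 / 2 * (((2 * (i : ℕ) : ℕ) : ℝ) + 1)))) := by ring
      _ = _ := by rw [h5]; ring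
  rw [h4] at h1
  have hP : 0 < ∏ i : Fin (n + 1), (1 / 2 * (((2 * (i : ℕ) : ℕ) : ℝ) + 1)) :=
    Finset.prod_pos fun i _ => hpos i
  rw [div_le_iff₀ hP] at h1
  refine h1.trans ?_
  rw [mul_comm]
  have h6 := trace_le (n + 1)
  gcongr

/-- **the upper bound of the Hankel determinant** -/
theorem HA_le (n : ℕ) : (HA (n + 1)).det ≤ bulk (n + 1) *
    Real.exp (5 / 24 * (∑ k ∈ range (2 * (n + 1)), 1 / (2 * (k : ℝ) + 1) + 4 / 3) + 10) := by
  have h1 := Gr_le n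
  rw [det_Gr] at h1
  obtain ⟨K, hK⟩ : ∃ K : ℝ, K = (Cm (n + 1)).det := ⟨_, rfl⟩
  obtain ⟨Ex, hEx⟩ : ∃ Ex : ℝ, Ex = Real.exp (5 / 24 *
    (∑ k ∈ range (2 * (n + 1)), 1 / (2 * (k : ℝ) + 1) + 4 / 3) + 10) := ⟨_, rfl⟩
  rw [← hK, ← hEx] at h1
  rw [← hEx]
  have hKpos : 0 < K := by
    rw [hK, det_Cm]
    exact Finset.prod_pos fun i _ => by positivity
  rw [det_HA]
  have h2 : (MoM (n + 1)).det ≤
      (∏ i : Fin (n + 1), (1 / 2 * (((2 * (i : ℕ) : ℕ) : ℝ) + 1))) * Ex / K ^ 2 := by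
    rw [le_div_iff₀ (by positivity)]
    linarith
  have h3 : bulk (n + 1) = (∏ i : Fin (n + 1), (16 / 9 * (8 / 3) ^ (4 * (i : ℕ)) : ℝ)) *
      ((∏ i : Fin (n + 1), (1 / 2 * (((2 * (i : ℕ) : ℕ) : ℝ) + 1))) / K ^ 2) := by
    rw [hK, det_Cm, ← Finset.prod_pow, ← Finset.prod_div_distrib, ← Finset.prod_mul_distrib]
    unfold bulk
    refine Finset.prod_congr rfl fun i _ => ?_
    rw [Nat.factorial_succ]
    have h4 : ((8 : ℝ) / 3) ^ (4 * (i : ℕ)) = (4 / 3) ^ (4 * (i : ℕ)) * (2 ^ (2 * (i : ℕ))) ^ 2 := by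
      rw [← pow_mul, show 2 * (i : ℕ) * 2 = 4 * (i : ℕ) by ring, ← mul_pow]
      norm_num
    rw [h4]
    push_cast
    field_simp
    ring
  calc (∏ i : Fin (n + 1), (16 / 9 * (8 / 3) ^ (4 * (i : ℕ)) : ℝ)) * (MoM (n + 1)).det
      ≤ (∏ i : Fin (n + 1), (16 / 9 * (8 / 3) ^ (4 * (i : ℕ)) : ℝ)) *
      ((∏ i : Fin (n + 1), (1 / 2 * (((2 * (i : ℕ) : ℕ) : ℝ) + 1))) * Ex / K ^ 2) := by
        refine mul_le_mul_of_nonneg_left h2 ?_
        exact Finset.prod_nonneg fun i _ => by positivity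
    _ = bulk (n + 1) * Ex := by
        rw [h3]; ring

end PBHank
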