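import Pool.Agent.PB.Rec

/-!
# The recursion by the legs, mode by mode (helper23; idea: helper45)

`n z` = normalised function of the legs at `z`, `Psi z x` = the same with one more row at `x`
(`Rec.lean`). Here the dependence on the height of the row is not neglected: the Ward identity is used
in the form

`d_eta Psi = (α₀ (e^{-iwx} - e^{iwx}) d_z² - i β (e^{-iwx} + e^{iwx}) d_z) Psi / Z + O(δ)`,
`x = x₀ + i eta`, `Z` = sum of `cos (w x')` over the rows,

and read in the modes `exp (i w k z)`. In two steps the couplings of neighbouring modes cancel, so the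
coefficients with `k ≠ 0` decay like `Z ^ (-2 w α₀)`, and the coefficient with `k = 0` converges.
-/

set_option autoImplicit false

noncomputable section

open Complex Filter Topology Set

namespace Pool.Agent.PB.Heat

open Pool.Agent.PB.Rec

/-! ## 1. Extraction of the coefficients -/

theorem EL_scale (w h : ℝ) (K : ℕ) (a : ℤ → ℂ) (t : ℝ) :
    EL (w * h) K a (I * t) = EL w K a (I * (h * t : ℝ)) := by
  unfold EL
  refine Finset.sum_congr rfl fun k _ => ?_
  congr 2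
  push_cast
  ring

/-- a linear functional on the values at finitely many points of `i [0, h]` gives the coefficient -/
theorem exists_lam {w h : ℝ} (hw : 0 < w) (hh : 0 < h) (K : ℕ) :
    ∃ (s : Fin (2 * K + 1) → ℝ) (lam : ℤ → Fin (2 * K + 1) → ℂ), (∀ j, s j ∈ Icc (0 : ℝ) h) ∧
      ∀ (a : ℤ → ℂ), ∀ k ∈ Finset.Icc (-(K : ℤ)) K, ∑ j, lam k j * EL w K a (I * s j) = a k := by
  classical
  set s : Fin (2 * K + 1) → ℝ := fun j => h * ((j : ℝ) / (2 * K + 1)) with hs
  let F : ((Finset.Icc (-(K : ℤ)) K) → ℂ) →ₗ[ℂ] (Fin (2 * K + 1) → ℂ) :=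
    { toFun := fun c j => EL w K (fun k => if hk : k ∈ Finset.Icc (-(K : ℤ)) K then c ⟨k, hk⟩ else 0)
        (I * s j)
      map_add' := by
        intro c d
        funext j
        simp only [EL, Pi.add_apply]
        rw [← Finset.sum_add_distrib]
        refine Finset.sum_congr rfl fun k hk => ?_
        simp only [hk, dif_pos]
        ring
      map_smul' := by
        intro r c
        funext j
        simp only [EL, Pi.smul_apply, smul_eq_mul, RingHom.id_apply]
        rw [Finset.mul_sum]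
        refine Finset.sum_congr rfl fun k hk => ?_
        simp only [hk, dif_pos]
        ring }
  have hker : LinearMap.ker F = ⊥ := by
    rw [LinearMap.ker_eq_bot']
    intro c hc
    have h1 := EL_inj (w := w * h) (mul_pos hw hh) K
      (a := fun k => if hk : k ∈ Finset.Icc (-(K : ℤ)) K then c ⟨k, hk⟩ else 0)
      (fun j => by
        have := congrFun hc j
        rw [EL_scale]
        exact this)
    funext ⟨k, hk⟩
    have h2 := h1 k hk
    simp only [hk, dif_pos] at h2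
    exact h2
  obtain ⟨G, hG⟩ := F.exists_leftInverse_of_injective hker
  refine ⟨s, fun k j => if hk : k ∈ Finset.Icc (-(K : ℤ)) K then
    G (fun i => if j = i then 1 else 0) ⟨k, hk⟩ else 0, ?_, ?_⟩
  · intro j
    have hK : (0 : ℝ) < 2 * K + 1 := by positivity
    refine ⟨by positivity, ?_⟩
    have h1 : (j : ℝ) / (2 * K + 1) ≤ 1 := by
      rw [div_le_one hK]
      have : ((j : ℕ) : ℝ) ≤ 2 * K := by exact_mod_cast Nat.lt_succ_iff.1 j.2
      linarith
    calc h * ((j : ℝ) / (2 * K + 1)) ≤ h * 1 := mul_le_mul_of_nonneg_left h1 hh.le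
      _ = h := mul_one h
  · intro a k hk
    simp only [hk, dif_pos]
    set c : (Finset.Icc (-(K : ℤ)) K) → ℂ := fun k => a k with hc
    have e1 : ∀ j, F c j = EL w K a (I * s j) := by
      intro j
      show EL w K _ _ = _
      unfold EL
      refine Finset.sum_congr rfl fun k hk => ?_
      simp only [hk, dif_pos, hc]
    have e2 : G (F c) = c := by
      have := LinearMap.congr_fun hG c
      simpa using this
    have e3 := congrFun e2 ⟨k, hk⟩
    rw [LinearMap.pi_apply_eq_sum_univ G (F c)] at e3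
    rw [Finset.sum_apply] at e3
    simp only [Pi.smul_apply, smul_eq_mul, hc] at e3
    rw [← e3]
    refine Finset.sum_congr rfl fun j _ => ?_
    rw [← e1 j]
    ring

/-! ## 2. Derivatives of exponential sums -/

theorem EL_hasDerivAt (w : ℝ) (K : ℕ) (a : ℤ → ℂ) (z : ℂ) :
    HasDerivAt (EL w K a) (EL w K (fun k => I * w * k * a k) z) z := by
  unfold EL
  have h1 : ∀ k ∈ Finset.Icc (-(K : ℤ)) K, HasDerivAt (fun z => a k * exp (I * w * k * z))
      (I * w * k * a k * exp (I * w * k * z)) z := by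
    intro k _
    have h2 : HasDerivAt (fun z : ℂ => I * w * k * z) (I * w * k) z := by
      simpa using (hasDerivAt_id z).const_mul (I * w * k)
    have h3 := (h2.cexp).const_mul (a k)
    have e : I * w * k * a k * exp (I * w * k * z) = a k * (exp (I * w * k * z) * (I * w * k)) := by ring
    rw [e]
    exact h3
  have := HasDerivAt.fun_sum h1
  exact this

theorem EL_deriv (w : ℝ) (K : ℕ) (a : ℤ → ℂ) : deriv (EL w K a) = EL w K (fun k => I * w * k * a k) :=
  funext fun z => (EL_hasDerivAt w K a z).deriv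

theorem EL_differentiable (w : ℝ) (K : ℕ) (a : ℤ → ℂ) : Differentiable ℂ (EL w K a) :=
  fun z => (EL_hasDerivAt w K a z).differentiableAt

/-- the open rectangle -/
def ReO (R : ℝ) : Set ℂ := {z | |z.re| < R ∧ |z.im| < 1}

theorem ReO_isOpen (R : ℝ) : IsOpen (ReO R) := by
  have h1 : IsOpen {z : ℂ | |z.re| < R} := isOpen_lt (by fun_prop) continuous_const
  have h2 : IsOpen {z : ℂ | |z.im| < 1} := isOpen_lt (by fun_prop) continuous_const
  exact h1.inter h2

/-- Cauchy estimates for two derivatives at the points of `i [0, 1/2]` -/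
theorem cauchy2 {R : ℝ} (hR : 0 < R) : ∃ C : ℝ, 0 < C ∧ ∀ (f : ℂ → ℂ) (ε : ℝ),
    DifferentiableOn ℂ f (ReO R) → (∀ z ∈ ReO R, ‖f z‖ ≤ ε) →
    ∀ s ∈ Icc (0 : ℝ) (1 / 2), ‖deriv f (I * s)‖ ≤ C * ε ∧ ‖deriv (deriv f) (I * s)‖ ≤ C * ε := by
  set r : ℝ := min (1 / 5) (R / 5) with hr
  have hr0 : 0 < r := lt_min (by norm_num) (by positivity)
  have hr1 : r ≤ 1 / 5 := min_le_left _ _
  have hr2 : r ≤ R / 5 := min_le_right _ _
  refine ⟨1 / r + 1 / r ^ 2, by positivity, ?_⟩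
  intro f ε hf hε s hs
  have hball : ∀ z : ℂ, ‖z - I * s‖ ≤ 2 * r → z ∈ ReO R := by
    intro z hz
    have h1 := (abs_re_le_norm (z - I * s)).trans hz
    have h2 := (abs_im_le_norm (z - I * s)).trans hz
    have e1 : (z - I * s).re = z.re := by simp
    have e2 : (z - I * s).im = z.im - s := by simp
    rw [e1] at h1
    rw [e2] at h2
    constructor
    · linarith
    · have h3 : |z.im| ≤ |z.im - s| + |s| := by
        have := abs_add_le (z.im - s) s
        simpa using this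
      rw [abs_of_nonneg hs.1] at h3
      linarith [hs.2]
  have hε0 : 0 ≤ ε := (norm_nonneg _).trans (hε (I * s) (hball _ (by simp; positivity)))
  have hd1 : ∀ z : ℂ, ‖z - I * s‖ ≤ r → ‖deriv f z‖ ≤ ε / r := by
    intro z hz
    refine norm_deriv_le_of_forall_mem_sphere_norm_le hr0 ?_ ?_
    · refine (hf.mono ?_).diffContOnCl
      intro y hy
      rw [closure_ball _ hr0.ne'] at hy
      rw [Metric.mem_closedBall, dist_eq_norm] at hy
      refine hball y ?_
      calc ‖y - I * s‖ = ‖(y - z) + (z - I * s)‖ := by ring_nf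
        _ ≤ ‖y - z‖ + ‖z - I * s‖ := norm_add_le _ _
        _ ≤ 2 * r := by linarith
    · intro y hy
      rw [mem_sphere_iff_norm] at hy
      refine hε y (hball y ?_)
      calc ‖y - I * s‖ = ‖(y - z) + (z - I * s)‖ := by ring_nf
        _ ≤ ‖y - z‖ + ‖z - I * s‖ := norm_add_le _ _
        _ ≤ 2 * r := by linarith
  have hdf : DifferentiableOn ℂ (deriv f) (ReO R) := hf.deriv (ReO_isOpen R)
  have hd2 : ‖deriv (deriv f) (I * s)‖ ≤ ε / r / r := by
    refine norm_deriv_le_of_forall_mem_sphere_norm_le hr0 ?_ ?_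
    · refine (hdf.mono ?_).diffContOnCl
      intro y hy
      rw [closure_ball _ hr0.ne'] at hy
      rw [Metric.mem_closedBall, dist_eq_norm] at hy
      exact hball y (by linarith)
    · intro y hy
      rw [mem_sphere_iff_norm] at hy
      exact hd1 y hy.le
  have e1 : ε / r ≤ (1 / r + 1 / r ^ 2) * ε := by
    have : 0 ≤ 1 / r ^ 2 * ε := by positivity
    calc ε / r = 1 / r * ε := by ring
      _ ≤ (1 / r + 1 / r ^ 2) * ε := by nlinarith
  have e2 : ε / r / r ≤ (1 / r + 1 / r ^ 2) * ε := by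
    have : 0 ≤ 1 / r * ε := by positivity
    calc ε / r / r = 1 / r ^ 2 * ε := by field_simp
      _ ≤ (1 / r + 1 / r ^ 2) * ε := by nlinarith
  exact ⟨(hd1 _ (by simp [hr0.le])).trans e1, hd2.trans e2⟩

/-! ## 3. Bookkeeping of the modes -/

/-- truncation -/
def tr (K : ℕ) (a : ℤ → ℂ) (k : ℤ) : ℂ := if k ∈ Finset.Icc (-(K : ℤ)) K then a k else 0

theorem tr_of_mem {K : ℕ} (a : ℤ → ℂ) {k : ℤ} (hk : k ∈ Finset.Icc (-(K : ℤ)) K) : tr K a k = a k := if_pos hk

theorem tr_of_notMem {K : ℕ} (a : ℤ → ℂ) {k : ℤ} (hk : k ∉ Finset.Icc (-(K : ℤ)) K) : tr K a k = 0 := if_neg hk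

theorem tr_norm_le {K : ℕ} {a : ℤ → ℂ} {A : ℝ} (hA : 0 ≤ A) (h : ∀ k ∈ Finset.Icc (-(K : ℤ)) K, ‖a k‖ ≤ A)
    (k : ℤ) : ‖tr K a k‖ ≤ A := by
  unfold tr
  split_ifs with hk
  · exact h k hk
  · simpa using hA

/-- a sum over a larger interval of a function which vanishes outside -/
theorem sum_shift {K M : ℕ} {F : ℤ → ℂ} (hF : ∀ k, k ∉ Finset.Icc (-(K : ℤ)) K → F k = 0) {c : ℤ}
    (hM : ∀ k ∈ Finset.Icc (-(K : ℤ)) K, k - c ∈ Finset.Icc (-(M : ℤ)) M) :
    ∑ k ∈ Finset.Icc (-(M : ℤ)) M, F (k + c) = ∑ k ∈ Finset.Icc (-(K : ℤ)) K, F k := by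
  have e1 : ∑' k, F k = ∑ k ∈ Finset.Icc (-(K : ℤ)) K, F k := tsum_eq_sum fun k hk => hF k hk
  have e2 : ∑' k, F (k + c) = ∑ k ∈ Finset.Icc (-(M : ℤ)) M, F (k + c) := by
    refine tsum_eq_sum fun k hk => hF _ fun h => hk ?_
    have := hM _ h
    simpa using this
  rw [← e1, ← e2]
  exact (Equiv.addRight c).tsum_eq F

/-- coefficient of the coupling to the lower mode -/
def pk (κ β : ℝ) (k : ℤ) : ℂ := ((-κ * k ^ 2 + β * k : ℝ) : ℂ)

/-- coefficient of the coupling to the upper mode -/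
def qk (κ β : ℝ) (k : ℤ) : ℂ := ((κ * k ^ 2 + β * k : ℝ) : ℂ)

theorem pk_zero (κ β : ℝ) : pk κ β 0 = 0 := by simp [pk]
theorem qk_zero (κ β : ℝ) : qk κ β 0 = 0 := by simp [qk]

/-- diagonal coefficient for a row at `x` -/
def dk (w κ β : ℝ) (x : ℝ) (k : ℤ) : ℂ := qk κ β k * exp (I * w * x) - pk κ β k * exp (-(I * w * x))

/-- the transfer matrix: row at `x`, sea `Z` -/
def Mk (w κ β : ℝ) (K : ℕ) (x Z : ℝ) (a : ℤ → ℂ) (k : ℤ) : ℂ :=
  tr K a k * (1 + dk w κ β x k / Z) - pk κ β (k + 1) / Z * tr K a (k + 1) + qk κ β (k - 1) / Z * tr K a (k - 1)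

/-- the exponent integrated from `x₀` to `x` -/
def Ek (w κ β : ℝ) (x0 : ℝ) (x : ℂ) (k : ℤ) : ℂ :=
  pk κ β k * (exp (-(I * w * x)) - exp (-(I * w * x0))) - qk κ β k * (exp (I * w * x) - exp (I * w * x0))

/-- **The algebraic identity of one step.** -/
theorem mode_identity {w L : ℝ} (hL : w * L = Real.pi) (κ β : ℝ) (K : ℕ) (x0 Z : ℝ) (hZ : Z ≠ 0) (a : ℤ → ℂ)
    (x : ℂ) :
    EL w K (fun k => a k * (1 + Ek w κ β x0 x k / Z)) (x + L) =
      EL w (K + 1) (fun k => (-1) ^ k * Mk w κ β K x0 Z a k) x := by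
  have hZ' : (Z : ℂ) ≠ 0 := by exact_mod_cast hZ
  set S := Finset.Icc (-(K : ℤ)) K with hS
  -- left side: three sums
  have hl : EL w K (fun k => a k * (1 + Ek w κ β x0 x k / Z)) (x + L) =
      ∑ k ∈ S, (-1) ^ k * tr K a k * (1 + dk w κ β x0 k / Z) * exp (I * w * k * x) +
      ∑ k ∈ S, (-1) ^ k * tr K a k * (pk κ β k / Z) * exp (I * w * (k - 1) * x) -
      ∑ k ∈ S, (-1) ^ k * tr K a k * (qk κ β k / Z) * exp (I * w * (k + 1) * x) := by
    unfold EL
    rw [← Finset.sum_add_distrib, ← Finset.sum_sub_distrib]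
    refine Finset.sum_congr rfl fun k hk => ?_
    rw [tr_of_mem a hk]
    have e1 : exp (I * w * k * (x + L)) = (-1) ^ k * exp (I * w * k * x) := by
      rw [mul_add, exp_add, exp_L hL]
      ring
    have e2 : exp (I * w * (k - 1) * x) = exp (I * w * k * x) * exp (-(I * w * x)) := by
      rw [← exp_add]
      congr 1
      ring
    have e3 : exp (I * w * (k + 1) * x) = exp (I * w * k * x) * exp (I * w * x) := by
      rw [← exp_add]
      congr 1
      ring
    rw [e1, e2, e3]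
    unfold Ek dk
    field_simp
    ring
  have hr : EL w (K + 1) (fun k => (-1) ^ k * Mk w κ β K x0 Z a k) x =
      ∑ k ∈ Finset.Icc (-((K + 1 : ℕ) : ℤ)) (K + 1 : ℕ), (-1) ^ k * tr K a k * (1 + dk w κ β x0 k / Z) * exp (I * w * k * x) +
      ∑ k ∈ Finset.Icc (-((K + 1 : ℕ) : ℤ)) (K + 1 : ℕ), (-1) ^ (k + 1) * tr K a (k + 1) * (pk κ β (k + 1) / Z) * exp (I * w * k * x) -
      ∑ k ∈ Finset.Icc (-((K + 1 : ℕ) : ℤ)) (K + 1 : ℕ), (-1) ^ (k - 1) * tr K a (k - 1) * (qk κ β (k - 1) / Z) * exp (I * w * k * x) := by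
    unfold EL
    rw [← Finset.sum_add_distrib, ← Finset.sum_sub_distrib]
    refine Finset.sum_congr rfl fun k hk => ?_
    have e1 : ((-1 : ℂ)) ^ (k + 1) = -(-1) ^ k := by
      rw [zpow_add₀ (by norm_num), zpow_one]
      ring
    have e2 : ((-1 : ℂ)) ^ (k - 1) = -(-1) ^ k := by
      rw [zpow_sub₀ (by norm_num), zpow_one]
      ring
    rw [e1, e2]
    unfold Mk
    ring
  have hv : ∀ k, k ∉ S → tr K a k = 0 := fun k hk => tr_of_notMem a hk
  have s0 := sum_shift (K := K) (M := K + 1) (c := 0)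
    (F := fun k => (-1) ^ k * tr K a k * (1 + dk w κ β x0 k / Z) * exp (I * w * k * x))
    (fun k hk => by simp only [hv k hk, mul_zero, zero_mul])
    (fun k hk => by rw [Finset.mem_Icc] at *; push_cast; constructor <;> omega)
  have s1 := sum_shift (K := K) (M := K + 1) (c := 1)
    (F := fun k => (-1) ^ k * tr K a k * (pk κ β k / Z) * exp (I * w * (k - 1) * x))
    (fun k hk => by simp only [hv k hk, mul_zero, zero_mul])
    (fun k hk => by rw [Finset.mem_Icc] at *; push_cast; constructor <;> omega)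
  have s2 := sum_shift (K := K) (M := K + 1) (c := -1)
    (F := fun k => (-1) ^ k * tr K a k * (qk κ β k / Z) * exp (I * w * (k + 1) * x))
    (fun k hk => by simp only [hv k hk, mul_zero, zero_mul])
    (fun k hk => by rw [Finset.mem_Icc] at *; push_cast; constructor <;> omega)
  rw [hl, hr]
  congr 1
  · congr 1
    · rw [← s0]
      exact Finset.sum_congr rfl fun k _ => by simp
    · rw [← s1]
      refine Finset.sum_congr rfl fun k _ => ?_
      have : (((k + 1 : ℤ) : ℂ) - 1) = k := by push_cast; ring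
      simp only [this]
  · rw [← s2]
    refine Finset.sum_congr rfl fun k _ => ?_
    have : (((k + -1 : ℤ) : ℂ) + 1) = k := by push_cast; ring
    simp only [this]
    rfl

/-! ## 4. One step -/

/-- the differential operator of the Ward identity -/
def ward (w κ β Z : ℝ) (x : ℂ) (f : ℂ → ℂ) (z : ℂ) : ℂ :=
  (κ / w * (exp (-(I * w * x)) - exp (I * w * x)) * deriv (deriv f) z -
    I * β * (exp (-(I * w * x)) + exp (I * w * x)) * deriv f z) / Z

/-- the generator in the mode `k` -/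
def Gk (w κ β Z : ℝ) (x : ℂ) (k : ℤ) : ℂ :=
  w * (pk κ β k * exp (-(I * w * x)) + qk κ β k * exp (I * w * x)) / Z

theorem ward_EL {w : ℝ} (hw : 0 < w) (κ β Z : ℝ) (x : ℂ) (K : ℕ) (a : ℤ → ℂ) (z : ℂ) :
    ward w κ β Z x (EL w K a) z = EL w K (fun k => Gk w κ β Z x k * a k) z := by
  have hw' : (w : ℂ) ≠ 0 := by exact_mod_cast hw.ne'
  unfold ward
  rw [EL_deriv, EL_deriv]
  unfold EL
  rw [Finset.mul_sum, Finset.mul_sum, ← Finset.sum_sub_distrib, Finset.sum_div]
  refine Finset.sum_congr rfl fun k _ => ?_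
  unfold Gk pk qk
  push_cast
  obtain ⟨c, hc⟩ : ∃ c : ℂ, (κ : ℂ) = c * w := ⟨κ / w, by field_simp⟩
  have hc' : c * (w : ℂ) / w = c := by field_simp
  rw [hc, hc']
  linear_combination ((c * w ^ 2 * k ^ 2 * (exp (-(I * w * x)) - exp (I * w * x)) -
    β * w * k * (exp (-(I * w * x)) + exp (I * w * x))) * a k * exp (I * w * k * z) / Z) * I_sq

theorem seg_mem {x0 : ℝ} {x : ℂ} (hx : x ∈ seg x0) : x.re = x0 ∧ 0 ≤ x.im ∧ x.im ≤ 1 := by
  obtain ⟨t, ht, rfl⟩ := hx
  simp [ht.1, ht.2]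

theorem exp_le1 {w x0 : ℝ} (hw : 0 < w) {x : ℂ} (hx : x ∈ seg x0) : ‖exp (I * w * x)‖ ≤ 1 := by
  rw [norm_exp]
  have h := seg_mem hx
  have : (I * (w : ℂ) * x).re = -(w * x.im) := by
    have : I * (w : ℂ) * x = I * ((w : ℝ) * x) := by ring
    rw [this, I_mul_re, im_ofReal_mul]
  rw [this, Real.exp_le_one_iff]
  have := mul_nonneg hw.le h.2.1
  linarith

theorem exp_le2 {w x0 : ℝ} (hw : 0 < w) {x : ℂ} (hx : x ∈ seg x0) : ‖exp (-(I * w * x))‖ ≤ Real.exp w := by
  rw [norm_exp]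
  have h := seg_mem hx
  have : (-(I * (w : ℂ) * x)).re = w * x.im := by
    have : I * (w : ℂ) * x = I * ((w : ℝ) * x) := by ring
    rw [neg_re, this, I_mul_re, im_ofReal_mul]
    ring
  rw [this, Real.exp_le_exp]
  nlinarith [h.2.2]

/-- the bound of the coefficients -/
def cB (κ β : ℝ) (K : ℕ) : ℝ := |κ| * (K + 1) ^ 2 + |β| * (K + 1)

theorem cB_nonneg (κ β : ℝ) (K : ℕ) : 0 ≤ cB κ β K := by unfold cB; positivity

theorem abs_le_of_mem {K : ℕ} {k : ℤ} (hk : k ∈ Finset.Icc (-(K : ℤ)) K) : |(k : ℝ)| ≤ K := by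
  rw [Finset.mem_Icc] at hk
  rw [abs_le]
  exact ⟨by exact_mod_cast hk.1, by exact_mod_cast hk.2⟩

theorem pk_le (κ β : ℝ) {K : ℕ} {k : ℤ} (hk : |(k : ℝ)| ≤ K + 1) : ‖pk κ β k‖ ≤ cB κ β K := by
  unfold pk cB
  rw [norm_real, Real.norm_eq_abs]
  refine (abs_add_le _ _).trans ?_
  rw [abs_mul, abs_neg, abs_mul, abs_pow]
  gcongr

theorem qk_le (κ β : ℝ) {K : ℕ} {k : ℤ} (hk : |(k : ℝ)| ≤ K + 1) : ‖qk κ β k‖ ≤ cB κ β K := by
  unfold qk cB
  rw [norm_real, Real.norm_eq_abs]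
  refine (abs_add_le _ _).trans ?_
  rw [abs_mul, abs_mul, abs_pow]
  gcongr

theorem Gk_le {w κ β Z x0 : ℝ} (hw : 0 < w) (hZ : 1 ≤ Z) {x : ℂ} (hx : x ∈ seg x0) {K : ℕ} {k : ℤ}
    (hk : |(k : ℝ)| ≤ K + 1) : ‖Gk w κ β Z x k‖ ≤ w * (cB κ β K * (Real.exp w + 1)) / Z := by
  unfold Gk
  have hZ0 : 0 < Z := by linarith
  rw [norm_div, norm_mul, norm_real, norm_real, Real.norm_eq_abs, Real.norm_eq_abs, abs_of_pos hw, abs_of_pos hZ0]
  have h1 : ‖pk κ β k * exp (-(I * w * x)) + qk κ β k * exp (I * w * x)‖ ≤ cB κ β K * (Real.exp w + 1) := by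
    refine (norm_add_le _ _).trans ?_
    rw [norm_mul, norm_mul, mul_add]
    have := cB_nonneg κ β K
    exact add_le_add (mul_le_mul (pk_le κ β hk) (exp_le2 hw hx) (norm_nonneg _) this)
      (mul_le_mul (qk_le κ β hk) (exp_le1 hw hx) (norm_nonneg _) this)
  gcongr

theorem Ek_le {w κ β x0 : ℝ} (hw : 0 < w) {x : ℂ} (hx : x ∈ seg x0) {K : ℕ} {k : ℤ}
    (hk : |(k : ℝ)| ≤ K + 1) : ‖Ek w κ β x0 x k‖ ≤ 2 * (cB κ β K * (Real.exp w + 1)) := by
  unfold Ek
  have hx0 : (x0 : ℂ) ∈ seg x0 := ⟨0, ⟨le_rfl, zero_le_one⟩, by simp⟩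
  have hB := cB_nonneg κ β K
  have h1 : ‖pk κ β k * (exp (-(I * w * x)) - exp (-(I * w * x0)))‖ ≤ cB κ β K * (Real.exp w + Real.exp w) := by
    rw [norm_mul]
    exact mul_le_mul (pk_le κ β hk) ((norm_sub_le _ _).trans (add_le_add (exp_le2 hw hx) (exp_le2 hw hx0)))
      (norm_nonneg _) hB
  have h2 : ‖qk κ β k * (exp (I * w * x) - exp (I * w * x0))‖ ≤ cB κ β K * (1 + 1) := by
    rw [norm_mul]
    exact mul_le_mul (qk_le κ β hk) ((norm_sub_le _ _).trans (add_le_add (exp_le1 hw hx) (exp_le1 hw hx0)))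
      (norm_nonneg _) hB
  refine (norm_sub_le _ _).trans ((add_le_add h1 h2).trans (le_of_eq ?_))
  ring

theorem Ek_hasDerivAt (w κ β x0 : ℝ) (x : ℂ) (k : ℤ) :
    HasDerivAt (fun x => Ek w κ β x0 x k) (-(I * (w * (pk κ β k * exp (-(I * w * x)) + qk κ β k * exp (I * w * x))))) x := by
  unfold Ek
  have h2 : HasDerivAt (fun x : ℂ => I * w * x) (I * w) x := by
    simpa using (hasDerivAt_id x).const_mul (I * (w : ℂ))
  have h1 : HasDerivAt (fun x : ℂ => -(I * w * x)) (-(I * w)) x := h2.fun_neg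
  have h3 := ((h1.cexp.sub_const (exp (-(I * w * x0)))).const_mul (pk κ β k)).sub
    ((h2.cexp.sub_const (exp (I * w * x0))).const_mul (qk κ β k))
  have e : -(I * (w * (pk κ β k * exp (-(I * w * x)) + qk κ β k * exp (I * w * x)))) =
      pk κ β k * (exp (-(I * w * x)) * -(I * w)) - qk κ β k * (exp (I * w * x) * (I * w)) := by ring
  rw [e]
  exact h3

/-- the operator on a small function -/
theorem ward_small {w κ β R : ℝ} (hw : 0 < w) (hR : 0 < R) : ∃ C : ℝ, 0 < C ∧ ∀ (Z : ℝ) (x0 : ℝ) (x : ℂ) (f : ℂ → ℂ)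
    (K : ℕ) (a : ℤ → ℂ) (ε : ℝ), 1 ≤ Z → x ∈ seg x0 → DifferentiableOn ℂ f (ReO R) →
    (∀ z ∈ ReO R, ‖f z - EL w K a z‖ ≤ ε) → ∀ s ∈ Icc (0 : ℝ) (1 / 2),
    ‖ward w κ β Z x f (I * s) - ward w κ β Z x (EL w K a) (I * s)‖ ≤ C * ε := by
  obtain ⟨C, hC0, hC⟩ := cauchy2 hR
  refine ⟨(|κ| / w + |β|) * (Real.exp w + 1) * C + 1, by positivity, ?_⟩
  intro Z x0 x f K a ε hZ hx hf hε s hs
  set g : ℂ → ℂ := fun z => f z - EL w K a z with hg
  have hgd : DifferentiableOn ℂ g (ReO R) := hf.sub (EL_differentiable w K a).differentiableOn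
  obtain ⟨c1, c2⟩ := hC g ε hgd hε s hs
  have hs0 : (I * (s : ℂ)) ∈ ReO R := by
    constructor
    · simpa using hR
    · simp only [mul_im, I_re, ofReal_im, mul_zero, I_im, ofReal_re, one_mul, zero_add]
      rw [abs_of_nonneg hs.1]
      linarith [hs.2]
  have hopen := ReO_isOpen R
  have d1 : ∀ z ∈ ReO R, deriv f z = deriv g z + deriv (EL w K a) z := by
    intro z hz
    have h1 : DifferentiableAt ℂ g z := hgd.differentiableAt (hopen.mem_nhds hz)
    have h2 := (EL_differentiable w K a) z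
    have h3 : f = fun z => g z + EL w K a z := by
      funext z
      simp [hg]
    conv_lhs => rw [h3]
    exact deriv_fun_add h1 h2
  have d2 : deriv (deriv f) (I * s) = deriv (deriv g) (I * s) + deriv (deriv (EL w K a)) (I * s) := by
    have h1 : deriv f =ᶠ[𝓝 (I * (s : ℂ))] fun z => deriv g z + deriv (EL w K a) z := by
      filter_upwards [hopen.mem_nhds hs0] with z hz
      exact d1 z hz
    rw [h1.deriv_eq]
    have h2 : DifferentiableAt ℂ (deriv g) (I * s) := (hgd.deriv hopen).differentiableAt (hopen.mem_nhds hs0)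
    have h3 : DifferentiableAt ℂ (deriv (EL w K a)) (I * s) := by
      rw [EL_deriv]
      exact EL_differentiable w K _ _
    exact deriv_fun_add h2 h3
  have hZ0 : 0 < Z := by linarith
  have hε0 : 0 ≤ ε := (norm_nonneg _).trans (hε _ hs0)
  have e : ward w κ β Z x f (I * s) - ward w κ β Z x (EL w K a) (I * s) =
      (κ / w * (exp (-(I * w * x)) - exp (I * w * x)) * deriv (deriv g) (I * s) -
        I * β * (exp (-(I * w * x)) + exp (I * w * x)) * deriv g (I * s)) / Z := by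
    unfold ward
    rw [d2, d1 _ hs0]
    ring
  rw [e, norm_div, norm_real, Real.norm_eq_abs, abs_of_pos hZ0, div_le_iff₀ hZ0]
  have n1 : ‖exp (-(I * w * x)) - exp (I * w * x)‖ ≤ Real.exp w + 1 :=
    (norm_sub_le _ _).trans (add_le_add (exp_le2 hw hx) (exp_le1 hw hx))
  have n2 : ‖exp (-(I * w * x)) + exp (I * w * x)‖ ≤ Real.exp w + 1 :=
    (norm_add_le _ _).trans (add_le_add (exp_le2 hw hx) (exp_le1 hw hx))
  have n3 : ‖(κ : ℂ) / w‖ = |κ| / w := by
    rw [norm_div, norm_real, norm_real, Real.norm_eq_abs, Real.norm_eq_abs, abs_of_pos hw]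
  have n4 : ‖I * (β : ℂ)‖ = |β| := by rw [norm_mul, norm_I, one_mul, norm_real, Real.norm_eq_abs]
  calc _ ≤ ‖(κ : ℂ) / w * (exp (-(I * w * x)) - exp (I * w * x)) * deriv (deriv g) (I * s)‖ +
        ‖I * β * (exp (-(I * w * x)) + exp (I * w * x)) * deriv g (I * s)‖ := norm_sub_le _ _
    _ ≤ |κ| / w * (Real.exp w + 1) * (C * ε) + |β| * (Real.exp w + 1) * (C * ε) := by
        rw [norm_mul, norm_mul, n3, norm_mul, norm_mul, n4]
        gcongr
    _ = ((|κ| / w + |β|) * (Real.exp w + 1) * C) * ε * 1 := by ring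
    _ ≤ ((|κ| / w + |β|) * (Real.exp w + 1) * C + 1) * ε * Z := by
        gcongr
        linarith

theorem I_mem {R : ℝ} (hR : 0 < R) {s : ℝ} (hs : s ∈ Icc (0 : ℝ) (1 / 2)) :
    I * (s : ℂ) ∈ ReR R := by
  constructor
  · simpa using hR.le
  · simp only [mul_im, I_re, ofReal_im, mul_zero, I_im, ofReal_re, one_mul, zero_add]
    rw [abs_of_nonneg hs.1]
    linarith [hs.2]

/-- **One step.** `x0` = the row, `Z` = the sea. -/
theorem heat_step {w L R X : ℝ} (hw : 0 < w) (hL : w * L = Real.pi) (hX : 0 ≤ X) (hR : |L| + X ≤ R) (κ β : ℝ)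
    (K : ℕ) : ∃ C : ℝ, 0 < C ∧ ∀ (Psi : ℂ → ℂ → ℂ) (m : ℂ → ℂ) (x0 Z : ℝ) (b : ℤ → ℂ) (a : ℂ → ℤ → ℂ)
      (ε δ A : ℝ), |x0| ≤ X → 1 ≤ Z →
      (∀ x ∈ seg x0, DifferentiableOn ℂ (fun z => Psi z x) (ReO R)) →
      (∀ x ∈ seg x0, ∀ z ∈ ReR R, ‖Psi z x - EL w K (a x) z‖ ≤ ε) →
      (∀ z ∈ ReR R, ‖m z - EL w K b z‖ ≤ ε) →
      (∀ x ∈ seg x0, ∀ s ∈ Icc (0 : ℝ) (1 / 2), ‖Psi (I * s) x‖ ≤ A) →
      (∀ x ∈ seg x0, ∀ s ∈ Icc (0 : ℝ) (1 / 2), DifferentiableAt ℂ (Psi (I * s)) x) →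
      (∀ x ∈ seg x0, ∀ s ∈ Icc (0 : ℝ) (1 / 2),
        ‖I * deriv (Psi (I * s)) x - ward w κ β Z x (fun z => Psi z x) (I * s)‖ ≤ δ) →
      (∀ x ∈ seg x0, Psi (x + L) x = m x) →
      ∀ k ∈ Finset.Icc (-(K : ℤ)) K, ‖(-1) ^ k * Mk w κ β K x0 Z (a x0) k - b k‖ ≤ C * (ε + δ + A / Z ^ 2) := by
  have hLpos : 0 < |L| := by
    rw [abs_pos]
    rintro rfl
    rw [mul_zero] at hL
    exact Real.pi_pos.ne hL
  have hR0 : 0 < R := by linarith
  obtain ⟨s, lam, hs, hlam⟩ := exists_lam (w := w) (h := 1 / 2) hw (by norm_num) K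
  obtain ⟨Cw, hCw0, hCw⟩ := ward_small (κ := κ) (β := β) hw hR0
  obtain ⟨V, hV0, hV⟩ := EL_coef hw (K + 1)
  set Λ : ℝ := ∑ k ∈ Finset.Icc (-(K : ℤ)) K, ∑ j, ‖lam k j‖ with hΛ
  have hΛ0 : 0 ≤ Λ := Finset.sum_nonneg fun k _ => Finset.sum_nonneg fun j _ => norm_nonneg _
  have hΛk : ∀ k ∈ Finset.Icc (-(K : ℤ)) K, ∑ j, ‖lam k j‖ ≤ Λ := fun k hk =>
    Finset.single_le_sum (f := fun k => ∑ j, ‖lam k j‖)
      (fun k _ => Finset.sum_nonneg fun j _ => norm_nonneg _) hk
  have hsum : ∀ k ∈ Finset.Icc (-(K : ℤ)) K, ∀ (f : Fin (2 * K + 1) → ℂ) (B : ℝ), 0 ≤ B → (∀ j, ‖f j‖ ≤ B) →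
      ‖∑ j, lam k j * f j‖ ≤ Λ * B := by
    intro k hk f B hB0 hB
    refine (norm_sum_le _ _).trans ?_
    calc _ ≤ ∑ j, ‖lam k j‖ * B := Finset.sum_le_sum fun j _ => by
          rw [norm_mul]
          exact mul_le_mul_of_nonneg_left (hB j) (norm_nonneg _)
      _ = (∑ j, ‖lam k j‖) * B := by rw [Finset.sum_mul]
      _ ≤ Λ * B := mul_le_mul_of_nonneg_right (hΛk k hk) hB0
  set G0 : ℝ := w * (cB κ β K * (Real.exp w + 1)) with hG0
  have hG00 : 0 ≤ G0 := by have := cB_nonneg κ β K; positivity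
  set E0 : ℝ := 2 * (cB κ β K * (Real.exp w + 1)) with hE0
  have hE00 : 0 ≤ E0 := by have := cB_nonneg κ β K; positivity
  set Ew : ℝ := (2 * K + 1) * Real.exp (|w| * K * 1) with hEw
  have hEw0 : 0 < Ew := by positivity
  set D1 : ℝ := Λ * (1 + Cw) + G0 * Λ with hD1
  have hD10 : 0 ≤ D1 := by positivity
  set D2 : ℝ := G0 * (G0 * Λ + D1) + D1 with hD2
  have hD20 : 0 ≤ D2 := by positivity
  set D3 : ℝ := Λ + D2 + Λ * (1 + E0) with hD3
  have hD30 : 0 ≤ D3 := by positivity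
  refine ⟨V * (Ew * D3 + 2) + 1, by positivity, ?_⟩
  intro Psi m x0 Z b a ε δ A hx0 hZ han ha hb hA hdx hW hrel
  have hmem0 : (x0 : ℂ) ∈ seg x0 := ⟨0, ⟨le_rfl, zero_le_one⟩, by simp⟩
  have hZ0 : 0 < Z := by linarith
  have hs0 : (0 : ℝ) ∈ Icc (0 : ℝ) (1 / 2) := ⟨le_rfl, by norm_num⟩
  have hε : 0 ≤ ε := (norm_nonneg _).trans (hb _ (I_mem hR0 hs0))
  have hδ : 0 ≤ δ := (norm_nonneg _).trans (hW _ hmem0 0 hs0)
  have hA0 : 0 ≤ A := (norm_nonneg _).trans (hA _ hmem0 0 hs0)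
  set T : ℝ := ε + δ + A / Z ^ 2 with hT
  have hT0 : 0 ≤ T := by positivity
  have hεT : ε ≤ T := by have : 0 ≤ A / Z ^ 2 := by positivity
                         linarith
  have hedT : ε + δ ≤ T := by have : 0 ≤ A / Z ^ 2 := by positivity
                              linarith
  -- smooth coefficients
  set at' : ℤ → ℂ → ℂ := fun k x => ∑ j, lam k j * Psi (I * s j) x with hat
  have h1 : ∀ x ∈ seg x0, ∀ k ∈ Finset.Icc (-(K : ℤ)) K, ‖at' k x - a x k‖ ≤ Λ * ε := by
    intro x hx k hk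
    have e : at' k x - a x k = ∑ j, lam k j * (Psi (I * s j) x - EL w K (a x) (I * s j)) := by
      rw [← hlam (a x) k hk, hat]
      simp only [mul_sub]
      rw [Finset.sum_sub_distrib]
    rw [e]
    exact hsum k hk _ _ hε fun j => ha x hx _ (I_mem hR0 (hs j))
  have h2 : ∀ x ∈ seg x0, ∀ k ∈ Finset.Icc (-(K : ℤ)) K, ‖at' k x‖ ≤ Λ * A := fun x hx k hk =>
    hsum k hk _ _ hA0 fun j => hA x hx _ (hs j)
  have hdat : ∀ x ∈ seg x0, ∀ k, HasDerivAt (at' k) (∑ j, lam k j * deriv (Psi (I * s j)) x) x := by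
    intro x hx k
    have h3 : ∀ j ∈ (Finset.univ : Finset (Fin (2 * K + 1))), HasDerivAt (fun x => lam k j * Psi (I * s j) x)
        (lam k j * deriv (Psi (I * s j)) x) x := fun j _ => (hdx x hx _ (hs j)).hasDerivAt.const_mul _
    exact HasDerivAt.fun_sum h3
  -- the equation
  have h3 : ∀ x ∈ seg x0, ∀ k ∈ Finset.Icc (-(K : ℤ)) K,
      ‖I * deriv (at' k) x - Gk w κ β Z x k * at' k x‖ ≤ D1 * (ε + δ) := by
    intro x hx k hk
    have e1 : I * deriv (at' k) x - Gk w κ β Z x k * a x k =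
        ∑ j, lam k j * (I * deriv (Psi (I * s j)) x - ward w κ β Z x (EL w K (a x)) (I * s j)) := by
      rw [(hdat x hx k).deriv]
      have e2 : Gk w κ β Z x k * a x k = ∑ j, lam k j * ward w κ β Z x (EL w K (a x)) (I * s j) := by
        rw [← hlam (fun k => Gk w κ β Z x k * a x k) k hk]
        refine Finset.sum_congr rfl fun j _ => ?_
        rw [ward_EL hw]
      rw [e2, Finset.mul_sum, ← Finset.sum_sub_distrib]
      exact Finset.sum_congr rfl fun j _ => by ring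
    have e3 : ‖I * deriv (at' k) x - Gk w κ β Z x k * a x k‖ ≤ Λ * (δ + Cw * ε) := by
      rw [e1]
      refine hsum k hk _ _ (by positivity) fun j => ?_
      have f1 := hW x hx _ (hs j)
      have f2 := hCw Z x0 x (fun z => Psi z x) K (a x) ε hZ hx (han x hx)
        (fun z hz => ha x hx z ⟨hz.1.le, hz.2.le⟩) _ (hs j)
      have e : I * deriv (Psi (I * s j)) x - ward w κ β Z x (EL w K (a x)) (I * s j) =
          (I * deriv (Psi (I * s j)) x - ward w κ β Z x (fun z => Psi z x) (I * s j)) +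
          (ward w κ β Z x (fun z => Psi z x) (I * s j) - ward w κ β Z x (EL w K (a x)) (I * s j)) := by ring
      rw [e]
      exact (norm_add_le _ _).trans (add_le_add f1 f2)
    have e4 : ‖Gk w κ β Z x k * (at' k x - a x k)‖ ≤ G0 * (Λ * ε) := by
      rw [norm_mul]
      refine mul_le_mul ?_ (h1 x hx k hk) (norm_nonneg _) hG00
      refine (Gk_le hw hZ hx (K := K) ((abs_le_of_mem hk).trans (by linarith))).trans ?_
      exact div_le_self hG00 hZ
    have e : I * deriv (at' k) x - Gk w κ β Z x k * at' k x =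
        (I * deriv (at' k) x - Gk w κ β Z x k * a x k) - Gk w κ β Z x k * (at' k x - a x k) := by ring
    rw [e]
    refine (norm_sub_le _ _).trans ((add_le_add e3 e4).trans ?_)
    have g1 : D1 * (ε + δ) - (Λ * (δ + Cw * ε) + G0 * (Λ * ε)) = Λ * ε + Λ * Cw * δ + G0 * Λ * δ := by
      rw [hD1]
      ring
    have g2 : 0 ≤ Λ * ε + Λ * Cw * δ + G0 * Λ * δ := by positivity
    linarith
  -- small variation
  have h4 : ∀ x ∈ seg x0, ∀ k ∈ Finset.Icc (-(K : ℤ)) K,
      ‖at' k x - at' k x0‖ ≤ G0 / Z * (Λ * A) + D1 * (ε + δ) := by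
    intro x hx k hk
    refine seg_diff (fun y hy => (hdat y hy k).differentiableAt) (fun y hy => ?_) hx
    have f1 := h3 y hy k hk
    have f2 : ‖Gk w κ β Z y k * at' k y‖ ≤ G0 / Z * (Λ * A) := by
      rw [norm_mul]
      exact mul_le_mul (Gk_le hw hZ hy (K := K) ((abs_le_of_mem hk).trans (by linarith))) (h2 y hy k hk)
        (norm_nonneg _) (by positivity)
    have e : ‖deriv (at' k) y‖ = ‖(I * deriv (at' k) y - Gk w κ β Z y k * at' k y) + Gk w κ β Z y k * at' k y‖ := by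
      rw [sub_add_cancel, norm_mul, norm_I, one_mul]
    rw [e]
    refine (norm_add_le _ _).trans ?_
    linarith
  -- first order
  have h5 : ∀ x ∈ seg x0, ∀ k ∈ Finset.Icc (-(K : ℤ)) K,
      ‖at' k x - at' k x0 * (1 + Ek w κ β x0 x k / Z)‖ ≤ D2 * T := by
    intro x hx k hk
    set y : ℂ → ℂ := fun x => at' k x - at' k x0 * (1 + Ek w κ β x0 x k / Z) with hy
    have hyd : ∀ u ∈ seg x0, HasDerivAt y ((∑ j, lam k j * deriv (Psi (I * s j)) u) -
        at' k x0 * (-(I * (w * (pk κ β k * exp (-(I * w * u)) + qk κ β k * exp (I * w * u)))) / Z)) u := by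
      intro u hu
      have f1 := ((Ek_hasDerivAt w κ β x0 u k).div_const (Z : ℂ)).const_add 1
      exact (hdat u hu k).sub (f1.const_mul (at' k x0))
    have hyb : ∀ u ∈ seg x0, ‖deriv y u‖ ≤ D2 * T := by
      intro u hu
      have f1 := h3 u hu k hk
      have f2 := h4 u hu k hk
      have f3 := Gk_le (κ := κ) (β := β) hw hZ hu (K := K) ((abs_le_of_mem hk).trans (by linarith))
      have e : I * deriv y u = (I * deriv (at' k) u - Gk w κ β Z u k * at' k u) +
          Gk w κ β Z u k * (at' k u - at' k x0) := by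
        rw [(hyd u hu).deriv, (hdat u hu k).deriv]
        unfold Gk
        linear_combination (at' k x0 * (w * (pk κ β k * exp (-(I * w * u)) + qk κ β k * exp (I * w * u))) / Z) * I_sq
      have e' : ‖deriv y u‖ = ‖I * deriv y u‖ := by rw [norm_mul, norm_I, one_mul]
      rw [e', e]
      refine (norm_add_le _ _).trans ?_
      rw [norm_mul]
      have f4 : ‖Gk w κ β Z u k‖ * ‖at' k u - at' k x0‖ ≤ G0 / Z * (G0 / Z * (Λ * A) + D1 * (ε + δ)) :=
        mul_le_mul f3 f2 (norm_nonneg _) (by positivity)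
      have f5 : G0 / Z * (G0 / Z * (Λ * A) + D1 * (ε + δ)) ≤ G0 * (G0 * Λ) * (A / Z ^ 2) + G0 * D1 * (ε + δ) := by
        have g1 : G0 / Z * (G0 / Z * (Λ * A)) = G0 * (G0 * Λ) * (A / Z ^ 2) := by
          field_simp
        have g2 : G0 / Z ≤ G0 := div_le_self hG00 hZ
        rw [mul_add, g1]
        have : G0 / Z * (D1 * (ε + δ)) ≤ G0 * (D1 * (ε + δ)) :=
          mul_le_mul_of_nonneg_right g2 (by positivity)
        linarith
      have f6 : G0 * (G0 * Λ) * (A / Z ^ 2) ≤ G0 * (G0 * Λ) * T :=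
        mul_le_mul_of_nonneg_left (by rw [hT]; linarith) (by positivity)
      have f7 : G0 * D1 * (ε + δ) ≤ G0 * D1 * T := mul_le_mul_of_nonneg_left hedT (by positivity)
      have f8 : D1 * (ε + δ) ≤ D1 * T := mul_le_mul_of_nonneg_left hedT hD10
      have : D2 * T = D1 * T + (G0 * (G0 * Λ) * T + G0 * D1 * T) := by rw [hD2]; ring
      rw [this]
      linarith
    have f9 := seg_diff (fun u hu => (hyd u hu).differentiableAt) hyb hx
    have f10 : y x0 = 0 := by
      simp [hy, Ek]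
    rw [f10, sub_zero] at f9
    exact f9
  -- coefficients
  have h6 : ∀ x ∈ seg x0, ∀ k ∈ Finset.Icc (-(K : ℤ)) K,
      ‖a x k - a x0 k * (1 + Ek w κ β x0 x k / Z)‖ ≤ D3 * T := by
    intro x hx k hk
    have f1 := h5 x hx k hk
    have f2 := h1 x hx k hk
    have f3 := h1 x0 hmem0 k hk
    have f4 : ‖(1 + Ek w κ β x0 x k / Z : ℂ)‖ ≤ 1 + E0 := by
      refine (norm_add_le _ _).trans ?_
      rw [norm_one, norm_div, norm_real, Real.norm_eq_abs, abs_of_pos hZ0]
      have := Ek_le (κ := κ) (β := β) hw hx (K := K) (k := k) ((abs_le_of_mem hk).trans (by linarith))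
      have h7 : ‖Ek w κ β x0 x k‖ / Z ≤ ‖Ek w κ β x0 x k‖ := div_le_self (norm_nonneg _) hZ
      linarith
    have e : a x k - a x0 k * (1 + Ek w κ β x0 x k / Z) = -(at' k x - a x k) +
        (at' k x - at' k x0 * (1 + Ek w κ β x0 x k / Z)) + (at' k x0 - a x0 k) * (1 + Ek w κ β x0 x k / Z) := by ring
    rw [e]
    refine (norm_add_le _ _).trans ((add_le_add (norm_add_le _ _) le_rfl).trans ?_)
    rw [norm_neg, norm_mul]
    have f5 : ‖at' k x0 - a x0 k‖ * ‖(1 + Ek w κ β x0 x k / Z : ℂ)‖ ≤ Λ * ε * (1 + E0) :=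
      mul_le_mul f3 f4 (norm_nonneg _) (by positivity)
    have f6 : Λ * ε ≤ Λ * T := mul_le_mul_of_nonneg_left hεT hΛ0
    have f7 : Λ * ε * (1 + E0) ≤ Λ * T * (1 + E0) := mul_le_mul_of_nonneg_right f6 (by positivity)
    have : D3 * T = Λ * T + D2 * T + Λ * T * (1 + E0) := by rw [hD3]; ring
    rw [this]
    linarith
  -- comparison at x + L
  set c : ℤ → ℂ := fun k => (-1) ^ k * Mk w κ β K x0 Z (a x0) k - tr K b k with hc
  have h7 : ∀ t ∈ Icc (0 : ℝ) 1, ‖EL w (K + 1) (fun k => c k * exp (I * w * k * x0)) (I * t)‖ ≤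
      (Ew * D3 + 2) * T := by
    intro t ht
    set x : ℂ := x0 + I * t with hx
    have hxs : x ∈ seg x0 := ⟨t, ht, rfl⟩
    have hxre : x.re = x0 := (seg_mem hxs).1
    have hxim : |x.im| ≤ 1 := by
      rw [abs_of_nonneg (seg_mem hxs).2.1]
      exact (seg_mem hxs).2.2
    have hzR : x + L ∈ ReR R := by
      constructor
      · rw [add_re, hxre, ofReal_re]
        exact (abs_add_le _ _).trans (by linarith)
      · rw [add_im, ofReal_im, add_zero]
        exact hxim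
    have hxR : x ∈ ReR R := by
      constructor
      · rw [hxre]
        linarith
      · exact hxim
    have e1 := ha x hxs _ hzR
    have e2 := hb x hxR
    have e3 : ‖EL w K (fun k => a x k - a x0 k * (1 + Ek w κ β x0 x k / Z)) (x + L)‖ ≤ Ew * (D3 * T) := by
      have := EL_le (w := w) (h6 x hxs) (x + L)
      refine this.trans ?_
      rw [hEw]
      have hzi : |(x + L).im| ≤ 1 := hzR.2
      gcongr
    rw [EL_sub w K (a x) (fun k => a x0 k * (1 + Ek w κ β x0 x k / Z)), mode_identity hL κ β K x0 Z hZ0.ne'] at e3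
    have e4 : EL w K b x = EL w (K + 1) (tr K b) x := by
      unfold EL
      have := sum_shift (K := K) (M := K + 1) (c := 0) (F := fun k => tr K b k * exp (I * w * k * x))
        (fun k hk => by simp only [tr_of_notMem b hk, zero_mul])
        (fun k hk => by rw [Finset.mem_Icc] at *; push_cast; constructor <;> omega)
      simp only [add_zero] at this
      push_cast at this ⊢
      rw [this]
      exact Finset.sum_congr rfl fun k hk => by rw [tr_of_mem b hk]
    have e5 : EL w (K + 1) (fun k => c k * exp (I * w * k * x0)) (I * t) =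
        EL w (K + 1) (fun k => (-1) ^ k * Mk w κ β K x0 Z (a x0) k) x - EL w K b x := by
      rw [← EL_add, add_comm (I * (t : ℂ)) x0, ← hx, hc, EL_sub, e4]
    rw [e5]
    have e : EL w (K + 1) (fun k => (-1) ^ k * Mk w κ β K x0 Z (a x0) k) x - EL w K b x =
        -(EL w K (a x) (x + L) - EL w (K + 1) (fun k => (-1) ^ k * Mk w κ β K x0 Z (a x0) k) x) -
          (Psi (x + L) x - EL w K (a x) (x + L)) + (m x - EL w K b x) := by
      rw [hrel x hxs]
      ring
    rw [e]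
    refine (norm_add_le _ _).trans ((add_le_add (norm_sub_le _ _) le_rfl).trans ?_)
    rw [norm_neg]
    have : (Ew * D3 + 2) * T = Ew * (D3 * T) + T + T := by ring
    rw [this]
    linarith
  have h8 := hV _ _ h7
  intro k hk
  have hk' : k ∈ Finset.Icc (-((K + 1 : ℕ) : ℤ)) ((K + 1 : ℕ) : ℤ) := by
    rw [Finset.mem_Icc] at *
    push_cast
    constructor <;> omega
  have h9 := h8 k hk'
  have h10 : ‖exp (I * w * k * x0)‖ = 1 := by
    rw [norm_exp]
    have : (I * (w : ℂ) * k * x0).re = 0 := by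
      have e : I * (w : ℂ) * (k : ℂ) * x0 = I * ((w * k * x0 : ℝ) : ℂ) := by push_cast; ring
      rw [e, I_mul_re, ofReal_im, neg_zero]
    rw [this, Real.exp_zero]
  rw [norm_mul, h10, mul_one, hc] at h9
  simp only [tr_of_mem b hk] at h9
  refine h9.trans ?_
  have g1 : (V * (Ew * D3 + 2) + 1) * T = V * ((Ew * D3 + 2) * T) + T := by ring
  rw [g1]
  linarith

end Pool.Agent.PB.Heat

end
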