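import Pool.Agent.PB.DisHol

/-!
# Jointly continuous, separately holomorphic functions of two variables (helper81)

`Hol2 W f` : `f : ℂ → ℂ → ℂ` is jointly continuous and holomorphic in each variable at the points of
`W`.  For `W` open:

* `Hol2.D1`, `Hol2.D2` : the derivatives `∂₁ f`, `∂₂ f` are `Hol2` again (Cauchy);
* `Hol2.strict`, `Hol2.diff`, `Hol2.contDiff` : `f` is strictly differentiable, of class `C^n`;
* `Hol2.comm` : `∂₁ ∂₂ f = ∂₂ ∂₁ f`;
* `Hol2.bd` : bounds of `f` and of its derivatives on compact sets.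
-/

set_option autoImplicit false

noncomputable section

open Complex MeasureTheory Filter Topology Metric Set

namespace PBH

/-- jointly continuous, separately holomorphic -/
structure Hol2 (W : Set (ℂ × ℂ)) (f : ℂ → ℂ → ℂ) : Prop where
  cont : ∀ p ∈ W, ContinuousAt (fun p : ℂ × ℂ => f p.1 p.2) p
  d1 : ∀ p ∈ W, DifferentiableAt ℂ (fun x => f x p.2) p.1
  d2 : ∀ p ∈ W, DifferentiableAt ℂ (f p.1) p.2

variable {W : Set (ℂ × ℂ)} {f : ℂ → ℂ → ℂ}

theorem Hol2.mono {W' : Set (ℂ × ℂ)} (h : Hol2 W f) (hW : W' ⊆ W) : Hol2 W' f :=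
  ⟨fun p hp => h.cont p (hW hp), fun p hp => h.d1 p (hW hp), fun p hp => h.d2 p (hW hp)⟩

theorem Hol2.swap (h : Hol2 W f) : Hol2 (Prod.swap ⁻¹' W) (fun z x => f x z) where
  cont p hp := by
    have h1 := h.cont _ hp
    exact ContinuousAt.comp (g := fun p : ℂ × ℂ => f p.1 p.2) (f := Prod.swap) h1
      continuous_swap.continuousAt
  d1 p hp := h.d2 _ hp
  d2 p hp := h.d1 _ hp

/-- a box in an open set -/
theorem exists_box (hW : IsOpen W) {p : ℂ × ℂ} (hp : p ∈ W) :
    ∃ R : ℝ, 0 < R ∧ closedBall p.1 R ×ˢ closedBall p.2 R ⊆ W := by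
  obtain ⟨R, hR, h⟩ := Metric.nhds_basis_closedBall.mem_iff.1 (hW.mem_nhds hp)
  refine ⟨R, hR, ?_⟩
  rw [closedBall_prod_same]
  exact h

/-- **the derivative in the second variable** -/
theorem Hol2.D2 (hW : IsOpen W) (h : Hol2 W f) : Hol2 W (fun x z => deriv (f x) z) where
  cont p hp := by
    have hW' : ∀ᶠ v : ℂ × ℂ in 𝓝 (p.1, p.2), v ∈ W := hW.mem_nhds hp
    exact PBX.continuousAt_deriv (f := f) (e0 := p.1) (θ0 := p.2)
      (hW'.mono fun v hv => h.cont v hv) (hW'.mono fun v hv => h.d2 v hv)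
  d2 p hp := by
    have hO : IsOpen {z | (p.1, z) ∈ W} := hW.preimage (by fun_prop)
    have hd : DifferentiableOn ℂ (f p.1) {z | (p.1, z) ∈ W} := fun z hz =>
      (h.d2 (p.1, z) hz).differentiableWithinAt
    exact (hd.deriv hO).differentiableAt (hO.mem_nhds hp)
  d1 p hp := by
    obtain ⟨R, hR, hB⟩ := exists_box hW hp
    set c := p.2 with hc
    have hR2 : 0 < R / 2 := by positivity
    have hcomp : IsCompact (closedBall p.1 R ×ˢ closedBall p.2 R) :=
      (isCompact_closedBall _ _).prod (isCompact_closedBall _ _)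
    obtain ⟨B, hBd⟩ := hcomp.exists_bound_of_continuousOn (f := fun p : ℂ × ℂ => f p.1 p.2)
      (fun q hq => (h.cont q (hB hq)).continuousWithinAt)
    have hsub : closedBall c (R / 2) ⊆ ball c R := by
      intro w hw
      rw [mem_closedBall] at hw
      rw [mem_ball]
      linarith
    have hmem : ∀ x ∈ ball p.1 R, ∀ z ∈ closedBall c (R / 2), (x, z) ∈ W := fun x hx z hz =>
      hB ⟨ball_subset_closedBall hx, ball_subset_closedBall (hsub hz)⟩
    have key : ∀ x ∈ ball p.1 R, (2 * Real.pi * I : ℂ)⁻¹ •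
        (∮ z in C(c, R / 2), ((z - c) ^ 2)⁻¹ • f x z) = deriv (f x) c := fun x hx =>
      two_pi_I_inv_smul_circleIntegral_sub_sq_inv_smul_of_differentiable isOpen_ball hsub
        (fun z hz => (h.d2 (x, z) (hB ⟨ball_subset_closedBall hx,
          ball_subset_closedBall hz⟩)).differentiableWithinAt) (mem_ball_self hR2)
    have hint : DifferentiableAt ℂ (fun x => ∮ z in C(c, R / 2), ((z - c) ^ 2)⁻¹ • f x z) p.1 := by
      unfold circleIntegral
      simp only [intervalIntegral.integral_of_le Real.two_pi_pos.le]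
      refine NURow.differentiableAt_integral hR (b := fun _ => |R / 2| * (((R / 2) ^ 2)⁻¹ * B))
        ?_ ?_ ?_ ?_
      · intro x hx
        have hc1 : Continuous fun t => circleMap c (R / 2) t := continuous_circleMap _ _
        have hc2 : Continuous fun t => deriv (circleMap c (R / 2)) t := by
          simp only [deriv_circleMap]
          fun_prop
        have hne : ∀ t : ℝ, circleMap c (R / 2) t - c ≠ 0 := by
          intro t h0
          have h5 : circleMap c (R / 2) t ∈ sphere c (R / 2) := circleMap_mem_sphere _ hR2.le t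
          rw [sub_eq_zero] at h0
          rw [h0, mem_sphere, dist_self] at h5
          linarith
        have hc3 : Continuous fun t => ((circleMap c (R / 2) t - c) ^ 2)⁻¹ :=
          ((hc1.sub continuous_const).pow 2).inv₀ fun t => pow_ne_zero 2 (hne t)
        have hc4 : Continuous fun t => f x (circleMap c (R / 2) t) :=
          continuous_iff_continuousAt.2 fun t => ContinuousAt.comp (g := f x)
            (f := fun t => circleMap c (R / 2) t)
            (h.d2 (x, _) (hmem x hx _ (sphere_subset_closedBall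
              (circleMap_mem_sphere _ hR2.le t)))).continuousAt hc1.continuousAt
        exact (hc2.smul (hc3.smul hc4)).aestronglyMeasurable
      · refine Eventually.of_forall fun t x hx => ?_
        have h8 : DifferentiableAt ℂ (fun x => f x (circleMap c (R / 2) t)) x :=
          h.d1 (x, _) (hmem x hx _ (sphere_subset_closedBall (circleMap_mem_sphere c hR2.le t)))
        have h9 : DifferentiableAt ℂ (fun x => deriv (circleMap c (R / 2)) t *
            (((circleMap c (R / 2) t - c) ^ 2)⁻¹ * f x (circleMap c (R / 2) t))) x :=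
          (h8.const_mul _).const_mul _
        exact h9.differentiableWithinAt
      · refine Eventually.of_forall fun t x hx => ?_
        have h5 : circleMap c (R / 2) t ∈ sphere c (R / 2) := circleMap_mem_sphere _ hR2.le t
        have h6 := hBd (x, circleMap c (R / 2) t) ⟨ball_subset_closedBall hx,
          ball_subset_closedBall (hsub (sphere_subset_closedBall h5))⟩
        rw [norm_smul, norm_smul, norm_inv, norm_pow]
        rw [mem_sphere, dist_eq_norm] at h5
        rw [h5]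
        have h7 : ‖deriv (circleMap c (R / 2)) t‖ = |R / 2| := by simp [deriv_circleMap]
        rw [h7]
        have : 0 ≤ ((R / 2) ^ 2)⁻¹ := by positivity
        gcongr
      · exact integrable_const _
    refine (hint.const_smul (2 * Real.pi * I : ℂ)⁻¹).congr_of_eventuallyEq ?_
    filter_upwards [ball_mem_nhds p.1 hR] with x hx
    exact (key x hx).symm

/-- **the derivative in the first variable** -/
theorem Hol2.D1 (hW : IsOpen W) (h : Hol2 W f) : Hol2 W (fun x z => deriv (fun x => f x z) x) := by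
  have h1 := (h.swap.D2 (hW.preimage continuous_swap)).swap
  exact h1

/-- **strict differentiability** -/
theorem Hol2.strict (hW : IsOpen W) (h : Hol2 W f) {p : ℂ × ℂ} (hp : p ∈ W) :
    HasStrictFDerivAt (fun p : ℂ × ℂ => f p.1 p.2)
      ((ContinuousLinearMap.toSpanSingleton ℂ (deriv (fun x => f x p.2) p.1)).coprod
        (ContinuousLinearMap.toSpanSingleton ℂ (deriv (f p.1) p.2))) p := by
  have hW' : ∀ᶠ v : ℂ × ℂ in 𝓝 p, v ∈ W := hW.mem_nhds hp
  have h1 := (h.D1 hW).cont p hp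
  have h2 := (h.D2 hW).cont p hp
  have L : Continuous fun c : ℂ => ContinuousLinearMap.toSpanSingleton ℂ c :=
    (ContinuousLinearMap.toSpanSingletonLE ℂ ℂ ℂ).toLinearMap.continuous_of_finiteDimensional
  exact hasStrictFDerivAt_uncurry_coprod (𝕜 := ℂ) (u := p) (f := f)
    (f₁ := fun x z => ContinuousLinearMap.toSpanSingleton ℂ (deriv (fun x => f x z) x))
    (f₂ := fun x z => ContinuousLinearMap.toSpanSingleton ℂ (deriv (f x) z))
    (hW'.mono fun v hv => (h.d1 v hv).hasDerivAt.hasFDerivAt)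
    (hW'.mono fun v hv => (h.d2 v hv).hasDerivAt.hasFDerivAt)
    (L.continuousAt.comp h1) (L.continuousAt.comp h2)

theorem Hol2.diff (hW : IsOpen W) (h : Hol2 W f) {p : ℂ × ℂ} (hp : p ∈ W) :
    DifferentiableAt ℂ (fun p : ℂ × ℂ => f p.1 p.2) p := (h.strict hW hp).hasFDerivAt.differentiableAt

theorem Hol2.fderiv_eq (hW : IsOpen W) (h : Hol2 W f) {p : ℂ × ℂ} (hp : p ∈ W) :
    fderiv ℂ (fun p : ℂ × ℂ => f p.1 p.2) p =
      deriv (fun x => f x p.2) p.1 • ContinuousLinearMap.fst ℂ ℂ ℂ +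
        deriv (f p.1) p.2 • ContinuousLinearMap.snd ℂ ℂ ℂ := by
  rw [(h.strict hW hp).hasFDerivAt.fderiv]
  ext
  · simp
  · simp

theorem Hol2.contDiff (hW : IsOpen W) (n : ℕ) : ∀ {f : ℂ → ℂ → ℂ}, Hol2 W f →
    ContDiffOn ℂ n (fun p : ℂ × ℂ => f p.1 p.2) W := by
  induction n with
  | zero =>
    intro f h
    rw [Nat.cast_zero, contDiffOn_zero]
    exact fun p hp => (h.cont p hp).continuousWithinAt
  | succ n ih =>
    intro f h
    rw [Nat.cast_succ, contDiffOn_succ_iff_fderiv_of_isOpen hW]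
    refine ⟨fun p hp => (h.diff hW hp).differentiableWithinAt, by simp, ?_⟩
    have h1 := ih (h.D1 hW)
    have h2 := ih (h.D2 hW)
    refine ((h1.smul contDiffOn_const).add (h2.smul contDiffOn_const)).congr fun p hp =>
      h.fderiv_eq hW hp

theorem Hol2.contDiffAt (hW : IsOpen W) (h : Hol2 W f) (n : ℕ) {p : ℂ × ℂ} (hp : p ∈ W) :
    ContDiffAt ℂ n (fun p : ℂ × ℂ => f p.1 p.2) p := (h.contDiff hW n).contDiffAt (hW.mem_nhds hp)

/-- **the mixed derivatives agree** -/
theorem Hol2.comm (hW : IsOpen W) (h : Hol2 W f) {p : ℂ × ℂ} (hp : p ∈ W) :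
    deriv (fun x => deriv (f x) p.2) p.1 = deriv (fun z => deriv (fun x => f x z) p.1) p.2 := by
  have hC := h.contDiffAt hW 2 hp
  have hs := hC.isSymmSndFDerivAt (by simp)
  have h2 := h.D2 hW
  have h1 := h.D1 hW
  have hW' : ∀ᶠ v : ℂ × ℂ in 𝓝 p, v ∈ W := hW.mem_nhds hp
  have hdd : DifferentiableAt ℂ (fderiv ℂ (fun p : ℂ × ℂ => f p.1 p.2)) p := by
    have := hC.fderiv_right (m := 1) (by norm_num)
    exact this.differentiableAt (by norm_num)
  have e2 : (fun q : ℂ × ℂ => deriv (f q.1) q.2) =ᶠ[𝓝 p]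
      fun q => fderiv ℂ (fun p : ℂ × ℂ => f p.1 p.2) q (0, 1) := by
    filter_upwards [hW'] with q hq
    rw [h.fderiv_eq hW hq]
    simp
  have e1 : (fun q : ℂ × ℂ => deriv (fun x => f x q.2) q.1) =ᶠ[𝓝 p]
      fun q => fderiv ℂ (fun p : ℂ × ℂ => f p.1 p.2) q (1, 0) := by
    filter_upwards [hW'] with q hq
    rw [h.fderiv_eq hW hq]
    simp
  have a2 : deriv (fun x => deriv (f x) p.2) p.1 =
      fderiv ℂ (fun q : ℂ × ℂ => deriv (f q.1) q.2) p (1, 0) := by
    rw [h2.fderiv_eq hW hp]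
    simp
  have a1 : deriv (fun z => deriv (fun x => f x z) p.1) p.2 =
      fderiv ℂ (fun q : ℂ × ℂ => deriv (fun x => f x q.2) q.1) p (0, 1) := by
    rw [h1.fderiv_eq hW hp]
    simp
  have k : ∀ v : ℂ × ℂ, fderiv ℂ (fun q => fderiv ℂ (fun p : ℂ × ℂ => f p.1 p.2) q v) p =
      (fderiv ℂ (fderiv ℂ (fun p : ℂ × ℂ => f p.1 p.2)) p).flip v := by
    intro v
    have := (hdd.hasFDerivAt.clm_apply (hasFDerivAt_const v p)).fderiv
    rw [this]
    simp
  rw [a1, a2, e2.fderiv_eq, e1.fderiv_eq, k, k]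
  simpa using hs (1, 0) (0, 1)

/-! ### algebra -/

theorem Hol2.const (c : ℂ) : Hol2 W (fun _ _ => c) :=
  ⟨fun _ _ => continuousAt_const, fun _ _ => differentiableAt_const _,
    fun _ _ => differentiableAt_const _⟩

theorem Hol2.add {g : ℂ → ℂ → ℂ} (h : Hol2 W f) (hg : Hol2 W g) :
    Hol2 W (fun x z => f x z + g x z) :=
  ⟨fun p hp => (h.cont p hp).add (hg.cont p hp), fun p hp => (h.d1 p hp).add (hg.d1 p hp),
    fun p hp => (h.d2 p hp).add (hg.d2 p hp)⟩

theorem Hol2.sub {g : ℂ → ℂ → ℂ} (h : Hol2 W f) (hg : Hol2 W g) :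
    Hol2 W (fun x z => f x z - g x z) :=
  ⟨fun p hp => (h.cont p hp).sub (hg.cont p hp), fun p hp => (h.d1 p hp).sub (hg.d1 p hp),
    fun p hp => (h.d2 p hp).sub (hg.d2 p hp)⟩

theorem Hol2.mul {g : ℂ → ℂ → ℂ} (h : Hol2 W f) (hg : Hol2 W g) :
    Hol2 W (fun x z => f x z * g x z) :=
  ⟨fun p hp => (h.cont p hp).mul (hg.cont p hp), fun p hp => (h.d1 p hp).mul (hg.d1 p hp),
    fun p hp => (h.d2 p hp).mul (hg.d2 p hp)⟩

theorem Hol2.div {g : ℂ → ℂ → ℂ} (h : Hol2 W f) (hg : Hol2 W g) (h0 : ∀ p ∈ W, g p.1 p.2 ≠ 0) :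
    Hol2 W (fun x z => f x z / g x z) :=
  ⟨fun p hp => (h.cont p hp).div (hg.cont p hp) (h0 p hp),
    fun p hp => (h.d1 p hp).div (hg.d1 p hp) (h0 p hp),
    fun p hp => (h.d2 p hp).div (hg.d2 p hp) (h0 p hp)⟩

theorem Hol2.sum {ι : Type*} {s : Finset ι} {F : ι → ℂ → ℂ → ℂ} (h : ∀ i ∈ s, Hol2 W (F i)) :
    Hol2 W (fun x z => ∑ i ∈ s, F i x z) :=
  ⟨fun p hp => tendsto_finsetSum _ fun i hi => (h i hi).cont p hp,
    fun p hp => DifferentiableAt.fun_sum fun i hi => (h i hi).d1 p hp,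
    fun p hp => DifferentiableAt.fun_sum fun i hi => (h i hi).d2 p hp⟩

theorem Hol2.congr {g : ℂ → ℂ → ℂ} (hW : IsOpen W) (h : Hol2 W f)
    (he : ∀ p ∈ W, f p.1 p.2 = g p.1 p.2) : Hol2 W g := by
  have hW' : ∀ p ∈ W, ∀ᶠ v : ℂ × ℂ in 𝓝 (p.1, p.2), v ∈ W := fun p hp => hW.mem_nhds hp
  refine ⟨fun p hp => ?_, fun p hp => ?_, fun p hp => ?_⟩
  · exact (h.cont p hp).congr ((hW' p hp).mono fun v hv => he v hv)
  · refine (h.d1 p hp).congr_of_eventuallyEq ?_
    have h1 : ∀ᶠ x in 𝓝 p.1, (x, p.2) ∈ W :=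
      (hW.preimage (f := fun x : ℂ => (x, p.2)) (by fun_prop)).mem_nhds hp
    exact h1.mono fun x hx => (he _ hx).symm
  · refine (h.d2 p hp).congr_of_eventuallyEq ?_
    have h1 : ∀ᶠ z in 𝓝 p.2, (p.1, z) ∈ W :=
      (hW.preimage (f := fun z : ℂ => (p.1, z)) (by fun_prop)).mem_nhds hp
    exact h1.mono fun z hz => (he _ hz).symm

/-- **bounds on compact sets** -/
theorem Hol2.bd (h : Hol2 W f) {K : Set (ℂ × ℂ)} (hK : IsCompact K) (hKW : K ⊆ W) :
    ∃ C : ℝ, 0 ≤ C ∧ ∀ p ∈ K, ‖f p.1 p.2‖ ≤ C := by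
  obtain ⟨C, hC⟩ := hK.exists_bound_of_continuousOn (f := fun p : ℂ × ℂ => f p.1 p.2)
    fun p hp => (h.cont p (hKW hp)).continuousWithinAt
  exact ⟨max C 0, le_max_right _ _, fun p hp => (hC p hp).trans (le_max_left _ _)⟩

/-- Cauchy bounds of the derivative in the first variable -/
theorem Hol2.bd1 (h : Hol2 W f) {p : ℂ × ℂ} {R C : ℝ} (hR : 0 < R)
    (hb : ∀ x ∈ closedBall p.1 R, (x, p.2) ∈ W) (hC : ∀ x ∈ sphere p.1 R, ‖f x p.2‖ ≤ C) :
    ‖deriv (fun x => f x p.2) p.1‖ ≤ C / R := by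
  refine norm_deriv_le_of_forall_mem_sphere_norm_le hR ?_ hC
  refine ⟨fun x hx => (h.d1 (x, p.2) (hb x (ball_subset_closedBall hx))).differentiableWithinAt, ?_⟩
  rw [closure_ball _ hR.ne']
  exact fun x hx => (h.d1 (x, p.2) (hb x hx)).continuousAt.continuousWithinAt

/-- Cauchy bounds of the derivative in the second variable -/
theorem Hol2.bd2 (h : Hol2 W f) {p : ℂ × ℂ} {R C : ℝ} (hR : 0 < R)
    (hb : ∀ z ∈ closedBall p.2 R, (p.1, z) ∈ W) (hC : ∀ z ∈ sphere p.2 R, ‖f p.1 z‖ ≤ C) :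
    ‖deriv (f p.1) p.2‖ ≤ C / R := by
  refine norm_deriv_le_of_forall_mem_sphere_norm_le hR ?_ hC
  refine ⟨fun z hz => (h.d2 (p.1, z) (hb z (ball_subset_closedBall hz))).differentiableWithinAt, ?_⟩
  rw [closure_ball _ hR.ne']
  exact fun z hz => (h.d2 (p.1, z) (hb z hz)).continuousAt.continuousWithinAt

/-! ### real directions -/

/-- derivative along `x0 + i s` -/
theorem Hol2.im1 (h : Hol2 W f) {x0 z : ℂ} {s : ℝ} (hp : (x0 + s * I, z) ∈ W) :
    HasDerivAt (fun s : ℝ => f (x0 + s * I) z) (deriv (fun x => f x z) (x0 + s * I) * I) s :=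
  PBX.hasDerivAt_im (f := fun x => f x z) (h.d1 _ hp)

/-- derivative along `z0 + i t` -/
theorem Hol2.im2 (h : Hol2 W f) {x z0 : ℂ} {t : ℝ} (hp : (x, z0 + t * I) ∈ W) :
    HasDerivAt (fun t : ℝ => f x (z0 + t * I)) (deriv (f x) (z0 + t * I) * I) t :=
  PBX.hasDerivAt_im (f := f x) (h.d2 _ hp)

end PBH

end
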