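import Pool.Agent.PB.ZRow
import Pool.Agent.PB.ZFamK
import Pool.Agent.PB.Num
import Pool.Agent.PB.RepT
import Pool.Agent.PB.CutFin

/-!
# Plan B: the first Ward identity of the dislocated function, assembly (helper89)

Rows `i s, 0^k` (both groups), legs at `z0`; `m = k + 1`.

* `Zk c b k z0 s`: the one body functions, `Zk_ZL`: they are 67's `PBT.ZL`;
* **`fx_D`**: `∂_s fx k (i s) z0 = F0N (Pf) (nuQI aK + nuI (Ξ λ)) + cut`;
* **`hD_of`**: 72's hypothesis `hD` from the total insertion (15) and the cut (50).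
-/

set_option autoImplicit false
set_option linter.unusedSectionVars false
set_option linter.unusedVariables false

noncomputable section

open Complex MeasureTheory Finset
open scoped Classical

namespace PBI

open NUP1 hiding Kd
open NUP1S NUP1.Bd NURow PB PBZF PBRep PBQ1 PBForce
open PBX (Lg)
open Pool.Agent.PB (Pf fx)

/-- the rows as a path: the derivative -/
theorem rwx_deriv (k : ℕ) (s : ℝ) (i : Fin (k + 1)) :
    HasDerivAt (fun η : ℝ => PBZF.rwx k (η : ℂ) i) (vv 0 i) s := by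
  unfold PBZF.rwx vv
  refine Fin.cases ?_ (fun j => ?_) i
  · simp only [Fin.cons_zero, if_true]
    have h1 : HasDerivAt (fun η : ℝ => (η : ℂ)) 1 s := Complex.ofRealCLM.hasDerivAt
    simpa using h1.mul_const I
  · simp only [Fin.cons_succ]
    rw [if_neg (Fin.succ_ne_zero j)]
    exact hasDerivAt_const _ _

theorem rwx_re (k : ℕ) (s : ℝ) (i : Fin (k + 1)) : (PBZF.rwx k (s : ℂ) i).re = 0 := by
  unfold PBZF.rwx
  refine Fin.cases ?_ (fun j => ?_) i
  · simp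
  · simp

/-- the linear insertion -/
def glK (z0 : ℂ) {m : ℕ} (x : Fin m → ℂ) (i0 : Fin m) : Kd → ℂ → ℂ := fun b z =>
  xiK x i0 b z * lamK z0 b z

variable {k : ℕ} {s b : ℝ} {z0 : ℂ} {P : NUO.Par} {v : Fin 2 → ℂ}

/-- **the exact derivative**, cut term in 17's form -/
theorem fx_D (hP : NUGC.ParC P) (hb : 0 < b) (hb' : b ≤ 4 / 3) (hz : Lz z0)
    (hF : ∀ n ∈ range (2 * (k + 1) + 1), ∃ B, FFam (3 / 5 * l) n (fl P) B
      (xiK (PBZF.rwx k s) 0) (fun b w => deriv (xiR (PBZF.rwx k s) 0) (fp b w))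
      (PBOb.aK (xiR (PBZF.rwx k s) 0)) (rhK (PBZF.rwx k s)) (krK (PBZF.rwx k s))
      (r1K (PBZF.rwx k s) 0) (lamK z0)) :
    HasDerivAt (fun η : ℝ => fx k ((η : ℂ) * I) z0)
      (F0N (ZR (fun _ => Leg.cc (k + 1)) b k z0 s v s) P (3 / 5 * l) (2 * (k + 1))
          (fun _ => Pf z0 (PBZF.rwx k s) (PBZF.rwx k s))
          (fun ι _ c z => nuQI (rhK (PBZF.rwx k s)) (PBOb.aK (xiR (PBZF.rwx k s) 0)) ι c z +
            nuI (rhK (PBZF.rwx k s)) (glK z0 (PBZF.rwx k s) 0) ι c z) +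
        Pf z0 (PBZF.rwx k s) (PBZF.rwx k s) * ∑ n ∈ range (2 * (k + 1) + 1),
          F0D (3 / 5 * l) n n (fl P) (ZR (fun _ => Leg.cc (k + 1)) b k z0 s v s)
            (Zcut (ZR (fun _ => Leg.cc (k + 1)) b k z0 s v s)
              (ZdR (fun _ => Leg.cc (k + 1)) b k z0 s v s)
              (ZpR (fun _ => Leg.cc (k + 1)) b k z0 s v)
              (xiK (PBZF.rwx k s) 0) (krK (PBZF.rwx k s)) (r1K (PBZF.rwx k s) 0) (lamK z0))) s := by
  have hl := Bd.l_pos
  have hnum := Num (m := k + 1) (y := fun η : ℝ => PBZF.rwx k (η : ℂ)) (t := s) (z := z0) 0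
    (rwx_deriv k s) (rwx_re k s)
    (by
      have h1 := hz.1
      have e : NUMF.l = NUP1.l := rfl
      rw [e]
      linarith)
    (by
      have h1 := hz.2
      have e : NUMF.l = NUP1.l := rfl
      rw [e]
      linarith)
  have hN : -(Pf z0 (PBZF.rwx k s) (PBZF.rwx k s) * (PBQ1.C0 (PBZF.rwx k s) 0 + C1v z0 (PBZF.rwx k s) 0)) +
      Pf z0 (PBZF.rwx k s) (PBZF.rwx k s) *
        (PBI.C0 (rhK (PBZF.rwx k s)) (r1K (PBZF.rwx k s) 0) +
          C1 (rhK (PBZF.rwx k s)) (xiK (PBZF.rwx k s) 0) (lamK z0)) = 0 := by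
    have e1 : PBI.C0 (rhK (PBZF.rwx k s)) (r1K (PBZF.rwx k s) 0) = PBQ1.C0 (PBZF.rwx k s) 0 :=
      PBQ1.C0_eq
    have e2 : C1 (rhK (PBZF.rwx k s)) (xiK (PBZF.rwx k s) 0) (lamK z0) =
      C1v z0 (PBZF.rwx k s) 0 := rfl
    rw [e1, e2]
    ring
  have key := fx_I1 (a := k) (v := v) hP hb hb' hz hF hnum hN
  refine key.congr_deriv ?_
  rw [Finset.sum_add_distrib, mul_add]
  congr 1
  unfold F0N
  rw [Finset.mul_sum]
  rfl

/-- **72's `hD`** for one value of the rows and the legs -/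
theorem hD_one {m A B X : ℂ} {f : ℝ → ℂ} {d1 d2 : ℝ} (h : HasDerivAt f (A + B) s)
    (hA : ‖m * A - X‖ ≤ d1) (hB : ‖B‖ ≤ d2) :
    ∃ D : ℂ, HasDerivAt f D s ∧ ‖m * D - X‖ ≤ d1 + ‖m‖ * d2 := by
  refine ⟨A + B, h, ?_⟩
  have e : m * (A + B) - X = (m * A - X) + m * B := by ring
  rw [e]
  refine (norm_add_le _ _).trans (add_le_add hA ?_)
  rw [norm_mul]
  exact mul_le_mul_of_nonneg_left hB (norm_nonneg _)

end PBI

end
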