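import Pool.Agent.PB.ForceK
import Pool.Agent.PB.Field3
import Pool.Agent.PB.NormY
import Pool.Agent.PB.F0

/-!
# Plan B: the first Ward identity in normal form, instances of the mean field identities

Kinds `b : Bool × Option O3`, positions (heads) `w : ℂ`, sea of rows `x : Fin m → ℂ` on the line `A`
(`vl l`), field `xiR x i0` of the moved row, read at `w + sh k` (`sh none = 0`, `sh (some _) = 2 l`).

* `keX_I`, `keY_I`, `rowD_I`, `pc_Im`: the kernels at `I z`;
* `rowDat`: the sea and the moved row as a datum of `mf_xiC`, `mf_constC`;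
* `Cv_line`: the convective term on the line `A`;
* `KerH`: what is used of the kernel; `Cv_zeroK`, `hI1`, `hI2`, `hE`;
* **`normal_form`**.
-/

set_option autoImplicit false
set_option linter.unusedSectionVars false

noncomputable section

open MeasureTheory Set Filter Topology Finset
open scoped Classical

namespace PBQ1

section kernels

open NUMF PBForce Pool.Agent.PB

/-! ### the kernels on the line -/

/-- `cot (a + b) + cot (a - b)` -/
lemma cot_pair {a b : ℂ} (h1 : Complex.sin (a + b) ≠ 0) (h2 : Complex.sin (a - b) ≠ 0) :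
    Complex.cot (a + b) + Complex.cot (a - b) =
      2 * Complex.sin (2 * a) / (Complex.cos (2 * b) - Complex.cos (2 * a)) := by
  have e1 : Complex.cos (2 * b) - Complex.cos (2 * a) =
      2 * (Complex.sin (a + b) * Complex.sin (a - b)) := by
    rw [Complex.sin_add, Complex.sin_sub, Complex.cos_two_mul, Complex.cos_two_mul]
    have h := Complex.sin_sq_add_cos_sq a
    have h' := Complex.sin_sq_add_cos_sq b
    linear_combination (-2 * Complex.cos b ^ 2) * h + (2 * Complex.cos a ^ 2) * h'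
  have e2 : Complex.sin (2 * a) = Complex.sin (a + b) * Complex.cos (a - b) +
      Complex.cos (a + b) * Complex.sin (a - b) := by
    rw [← Complex.sin_add]
    congr 1
    ring
  rw [e1, e2]
  unfold Complex.cot
  field_simp
  ring

lemma cos2l : Complex.cos (2 * (l : ℂ)) = (NUMF.r : ℂ) := by
  have e : (2 * (l : ℂ)) = ((Real.pi / 4 : ℝ) : ℂ) := by
    unfold l
    push_cast
    ring
  rw [e, ← Complex.ofReal_cos, NUMF.r_eq]

lemma cos4l : Complex.cos (2 * (2 * (l : ℂ))) = 0 := by
  have e : (2 * (2 * (l : ℂ))) = Real.pi / 2 := by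
    unfold l
    push_cast
    ring
  rw [e, Complex.cos_pi_div_two]

lemma cos6l : Complex.cos (2 * (3 * (l : ℂ))) = -(NUMF.r : ℂ) := by
  have e : (2 * (3 * (l : ℂ))) = Real.pi - 2 * l := by
    unfold l
    push_cast
    ring
  rw [e, Complex.cos_pi_sub, cos2l]

/-- `sin` off the real zeros -/
lemma sin_ne_of_re {z : ℂ} (h1 : 0 < z.re) (h2 : z.re < Real.pi) : Complex.sin z ≠ 0 := by
  intro h
  rw [Complex.sin_eq_zero_iff] at h
  obtain ⟨k, hk⟩ := h
  have hre : z.re = k * Real.pi := by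
    rw [hk]
    simp
  have hpi := Real.pi_pos
  rw [hre] at h1 h2
  have k1 : (0 : ℝ) < k := by
    by_contra hc
    push Not at hc
    nlinarith
  have k2 : (k : ℝ) < 1 := by
    by_contra hc
    push Not at hc
    nlinarith
  have k1' : 0 < k := by exact_mod_cast k1
  have k2' : k < 1 := by exact_mod_cast k2
  omega

lemma tan_two {u : ℂ} (h : Complex.cosh u ≠ 0) : Complex.sinh u / Complex.cosh u =
    Complex.sinh (2 * u) / (Complex.cosh (2 * u) + 1) := by
  have e : Complex.cosh (2 * u) + 1 = 2 * Complex.cosh u ^ 2 := by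
    rw [Complex.cosh_two_mul]
    have := Complex.cosh_sq_sub_sinh_sq u
    linear_combination (-1 : ℂ) * this
  have h2 : Complex.cosh (2 * u) + 1 ≠ 0 := by
    rw [e]
    exact mul_ne_zero two_ne_zero (pow_ne_zero _ h)
  rw [div_eq_div_iff h h2, e, Complex.sinh_two_mul]
  ring

/-- the row force at `I w` -/
theorem rowD_I {w : ℂ} (h : |w.im| < l) : rowD (Complex.I * w) = deriv NUMF.vc w := by
  have hlM : |w.im| < NUMF.l := h
  rw [(NUMF.hasDerivAt_vc hlM).deriv]
  have hl : 0 < l := NUMF.l_pos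
  have h' := abs_lt.1 h
  have hpi : Real.pi = 8 * l := by unfold l; ring
  have r1 : (Complex.I * w + l).re = -w.im + l := by simp
  have r2 : (Complex.I * w - l).re = -w.im - l := by simp
  have n1 : Complex.sin (Complex.I * w + l) ≠ 0 :=
    sin_ne_of_re (by rw [r1]; linarith) (by rw [r1, hpi]; linarith)
  have n2 : Complex.sin (Complex.I * w - l) ≠ 0 := by
    have := sin_ne_of_re (z := -(Complex.I * w - l)) (by rw [Complex.neg_re, r2]; linarith)
      (by rw [Complex.neg_re, r2, hpi]; linarith)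
    rwa [Complex.sin_neg, neg_ne_zero] at this
  have nc : Complex.cosh w ≠ 0 := by
    rw [← Complex.cos_mul_I]
    have e : Complex.cos (w * Complex.I) = Complex.sin (w * Complex.I + Real.pi / 2) := by
      rw [Complex.sin_add_pi_div_two]
    rw [e]
    have r3 : (w * Complex.I + Real.pi / 2).re = -w.im + Real.pi / 2 := by
      have : ((Real.pi : ℂ) / 2) = ((Real.pi / 2 : ℝ) : ℂ) := by push_cast; ring
      rw [this]
      simp
    exact sin_ne_of_re (by rw [r3, hpi]; linarith) (by rw [r3, hpi]; linarith)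
  have e1 := cot_pair n1 n2
  have e2 : Complex.tan (Complex.I * w) = Complex.sinh w / Complex.cosh w * Complex.I := by
    rw [mul_comm, Complex.tan_eq_sin_div_cos, Complex.sin_mul_I, Complex.cos_mul_I]
    ring
  have e3 : Complex.sin (2 * (Complex.I * w)) = Complex.sinh (2 * w) * Complex.I := by
    rw [← Complex.sin_mul_I]
    congr 1
    ring
  have e4 : Complex.cos (2 * (Complex.I * w)) = Complex.cosh (2 * w) := by
    rw [← Complex.cos_mul_I]
    congr 1
    ring
  rw [e3, e4, cos2l] at e1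
  unfold rowD
  have e5 : Complex.I * (-2 * Complex.tan (Complex.I * w) - Complex.cot (Complex.I * w + l) -
      Complex.cot (Complex.I * w - l)) = Complex.I * (-2 * Complex.tan (Complex.I * w)) -
      Complex.I * (Complex.cot (Complex.I * w + l) + Complex.cot (Complex.I * w - l)) := by ring
  rw [e5, e1, e2, tan_two nc]
  have e6 : (NUMF.r : ℂ) - Complex.cosh (2 * w) = -(Complex.cosh (2 * w) - NUMF.r) := by ring
  rw [e6, div_neg]
  linear_combination (-2 * (Complex.sinh (2 * w) / (Complex.cosh (2 * w) + 1)) +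
    2 * (Complex.sinh (2 * w) / (Complex.cosh (2 * w) - NUMF.r))) * Complex.I_mul_I

lemma im_uI (u a : ℝ) (hu : u ≠ 0) : ((u : ℂ) * Complex.I + a).im ≠ 0 := by simpa using hu

/-- the own kernel on the line -/
theorem keX_I {u : ℝ} (hu : u ≠ 0) : keX (u * Complex.I) = (Kw u : ℂ) := by
  have s : ∀ a : ℝ, Complex.sin ((u : ℂ) * Complex.I + a) ≠ 0 := fun a =>
    PB.sin_ne_im (im_uI u a hu)
  have s' : ∀ a : ℝ, Complex.sin ((u : ℂ) * Complex.I - a) ≠ 0 := fun a => by
    have := s (-a)
    push_cast at this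
    rwa [← sub_eq_add_neg] at this
  have p1 := cot_pair (s l) (s' l)
  have p2 := cot_pair (a := u * Complex.I) (b := 2 * l) (by have := s (2 * l); push_cast at this; exact this)
    (by have := s' (2 * l); push_cast at this; exact this)
  have e3 : Complex.sin (2 * ((u : ℂ) * Complex.I)) = Complex.sinh (2 * u) * Complex.I := by
    rw [← Complex.sin_mul_I]
    congr 1
    ring
  have e4 : Complex.cos (2 * ((u : ℂ) * Complex.I)) = Complex.cosh (2 * u) := by
    rw [← Complex.cos_mul_I]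
    congr 1
    ring
  rw [e3, e4, cos2l] at p1
  rw [e3, e4, cos4l] at p2
  have s0 : Complex.sinh (u : ℂ) ≠ 0 := by
    have := s 0
    rw [Complex.ofReal_zero, add_zero, Complex.sin_mul_I] at this
    exact left_ne_zero_of_mul this
  have p0 : Complex.cot ((u : ℂ) * Complex.I) = -(Complex.sinh (2 * u) /
      (Complex.cosh (2 * u) - 1)) * Complex.I := by
    unfold Complex.cot
    rw [Complex.cos_mul_I, Complex.sin_mul_I]
    have e : Complex.cosh (2 * (u : ℂ)) - 1 = 2 * Complex.sinh u ^ 2 := by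
      rw [Complex.cosh_two_mul]
      have := Complex.cosh_sq_sub_sinh_sq (u : ℂ)
      linear_combination this
    rw [e, Complex.sinh_two_mul, div_eq_iff (mul_ne_zero s0 Complex.I_ne_zero)]
    field_simp
    rw [Complex.I_sq]
    ring
  unfold keX Kw
  have e5 : Complex.I * (2 * Complex.cot ((u : ℂ) * Complex.I) +
      Complex.cot ((u : ℂ) * Complex.I + 2 * l) + Complex.cot ((u : ℂ) * Complex.I - 2 * l) -
      Complex.cot ((u : ℂ) * Complex.I + l) - Complex.cot ((u : ℂ) * Complex.I - l)) =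
      Complex.I * (2 * Complex.cot ((u : ℂ) * Complex.I)) +
      Complex.I * (Complex.cot ((u : ℂ) * Complex.I + 2 * l) +
        Complex.cot ((u : ℂ) * Complex.I - 2 * l)) -
      Complex.I * (Complex.cot ((u : ℂ) * Complex.I + l) +
        Complex.cot ((u : ℂ) * Complex.I - l)) := by ring
  rw [e5, p1, p2, p0]
  push_cast
  have e6 : (NUMF.r : ℂ) - Complex.cosh (2 * u) = -(Complex.cosh (2 * u) - NUMF.r) := by ring
  have e7 : (0 : ℂ) - Complex.cosh (2 * u) = -Complex.cosh (2 * u) := by ring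
  rw [e6, e7, div_neg, div_neg]
  linear_combination (-2 * (Complex.sinh (2 * u) / (Complex.cosh (2 * u) - 1)) -
    2 * (Complex.sinh (2 * u) / (Complex.cosh (2 * u))) +
    2 * (Complex.sinh (2 * u) / (Complex.cosh (2 * u) - NUMF.r))) * Complex.I_mul_I

/-- the cross kernel on the line -/
theorem keY_I {u : ℝ} (hu : u ≠ 0) : keY (u * Complex.I) = (Kg u : ℂ) := by
  have s : ∀ a : ℝ, Complex.sin ((u : ℂ) * Complex.I + a) ≠ 0 := fun a =>
    PB.sin_ne_im (im_uI u a hu)
  have s' : ∀ a : ℝ, Complex.sin ((u : ℂ) * Complex.I - a) ≠ 0 := fun a => by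
    have := s (-a)
    push_cast at this
    rwa [← sub_eq_add_neg] at this
  have p1 := cot_pair (a := u * Complex.I) (b := 3 * l) (by have := s (3 * l); push_cast at this; exact this)
    (by have := s' (3 * l); push_cast at this; exact this)
  have e3 : Complex.sin (2 * ((u : ℂ) * Complex.I)) = Complex.sinh (2 * u) * Complex.I := by
    rw [← Complex.sin_mul_I]
    congr 1
    ring
  have e4 : Complex.cos (2 * ((u : ℂ) * Complex.I)) = Complex.cosh (2 * u) := by
    rw [← Complex.cos_mul_I]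
    congr 1
    ring
  rw [e3, e4, cos6l] at p1
  have nc : Complex.cosh (u : ℂ) ≠ 0 := by
    rw [← Complex.ofReal_cosh]
    exact Complex.ofReal_ne_zero.2 (Real.cosh_pos u).ne'
  have p0 : Complex.tan ((u : ℂ) * Complex.I) = Complex.sinh u / Complex.cosh u * Complex.I := by
    rw [Complex.tan_eq_sin_div_cos, Complex.sin_mul_I, Complex.cos_mul_I]
    ring
  unfold keY Kg
  have e5 : Complex.I * (-2 * Complex.tan ((u : ℂ) * Complex.I) -
      2 * Complex.cot ((u : ℂ) * Complex.I + 3 * l) -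
      2 * Complex.cot ((u : ℂ) * Complex.I - 3 * l)) =
      Complex.I * (-2 * Complex.tan ((u : ℂ) * Complex.I)) -
      2 * Complex.I * (Complex.cot ((u : ℂ) * Complex.I + 3 * l) +
        Complex.cot ((u : ℂ) * Complex.I - 3 * l)) := by ring
  rw [e5, p1, p0, tan_two nc]
  push_cast
  have e6 : -(NUMF.r : ℂ) - Complex.cosh (2 * u) = -(Complex.cosh (2 * u) + NUMF.r) := by ring
  rw [e6, div_neg]
  linear_combination (-2 * (Complex.sinh (2 * u) / (Complex.cosh (2 * u) + 1)) +
    4 * (Complex.sinh (2 * u) / (Complex.cosh (2 * u) + NUMF.r))) * Complex.I_mul_I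

/-- the density at `I z` -/
theorem pc_Im {z : ℂ} (hz : |z.im| < l) : pc (Complex.I * z) = Pc z := by
  rw [Pc_closed hz]
  unfold pc
  have e : Complex.cos (8 / 3 * (Complex.I * z)) = Complex.cosh (8 / 3 * z) := by
    rw [← Complex.cos_mul_I]
    congr 1
    ring
  rw [e]
  push_cast
  ring

end kernels

/-! ### the sea of the rows on the line `A` -/

section line

open NUMF PBForce Pool.Agent.PB

variable {m : ℕ}

/-- the position of a row as a height -/
def hr (x : ℂ) : ℂ := -(Complex.I * x)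

lemma I_hr (x : ℂ) : Complex.I * hr x = x := by
  unfold hr
  linear_combination (-x) * Complex.I_mul_I

lemma hr_im (x : ℂ) : (hr x).im = -x.re := by
  unfold hr
  simp

lemma hr_abs {x : ℂ} (h : |x.re| < l) : |(hr x).im| < l := by
  rw [hr_im, abs_neg]
  exact h

lemma line_eq (t : ℝ) (x : ℂ) : (l : ℂ) + t * Complex.I - l - x = Complex.I * (t - hr x) := by
  rw [mul_sub, I_hr]
  ring

lemma sub_im {x : ℂ} (h : |x.re| < l) (t : ℝ) : |((t : ℂ) - hr x).im| < l := by
  have : ((t : ℂ) - hr x).im = x.re := by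
    rw [Complex.sub_im, hr_im]
    simp
  rw [this]
  exact h

/-- density of the sea on the line -/
def ro (x : Fin m → ℂ) (t : ℝ) : ℂ := ∑ i, Pc (t - hr (x i))

/-- its derivative -/
def ro' (x : Fin m → ℂ) (t : ℝ) : ℂ := ∑ i, deriv Pc (t - hr (x i))

/-- force of the rows on the line -/
def frc (x : Fin m → ℂ) (t : ℝ) : ℂ := ∑ i, deriv vc (t - hr (x i))

lemma rhoR_line {x : Fin m → ℂ} (hx : ∀ i, |(x i).re| < l) (t : ℝ) :
    rhoR x (l + t * Complex.I) = ro x t := by
  unfold rhoR ro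
  refine Finset.sum_congr rfl fun i _ => ?_
  have e := line_eq t (x i)
  rw [← pc_Im (sub_im (hx i) t), ← e]
  rfl

lemma xiR_line {x : Fin m → ℂ} (i0 : Fin m) (hx : ∀ i, |(x i).re| < l) (t : ℝ) :
    xiR x i0 (l + t * Complex.I) = Pc (t - hr (x i0)) / ro x t := by
  unfold xiR
  have h1 := rhoR_line hx t
  have e := line_eq t (x i0)
  have h2 : pc ((l : ℂ) + t * Complex.I - l - x i0) = Pc (t - hr (x i0)) := by
    rw [e, pc_Im (sub_im (hx i0) t)]
  rw [← h1, ← h2]
  rfl

lemma krR_line {x : Fin m → ℂ} (hx : ∀ i, |(x i).re| < l) (t : ℝ) :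
    krR .A x (l + t * Complex.I) = frc x t := by
  unfold krR frc
  refine Finset.sum_congr rfl fun i _ => ?_
  have e := line_eq t (x i)
  rw [← rowD_I (sub_im (hx i) t), ← e]
  rfl

lemma r1R_line {x : Fin m → ℂ} (i0 : Fin m) (hx : ∀ i, |(x i).re| < l) (t : ℝ) :
    r1R .A x i0 (l + t * Complex.I) = -deriv vc (t - hr (x i0)) := by
  unfold r1R
  have e := line_eq t (x i0)
  rw [← rowD_I (sub_im (hx i0) t), ← e]
  rfl

/-- the sea and the moved row form a datum of the mean field identities -/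
theorem rowDat {x : Fin m → ℂ} (i0 : Fin m) (hx : ∀ i, |(x i).re| < l)
    (hne : ∀ t : ℝ, ro x t ≠ 0) : ∃ B : ℝ,
    XiDatC (ro x) (ro' x) (fun t : ℝ => Pc (t - hr (x i0)))
      (fun t : ℝ => deriv Pc (t - hr (x i0))) B := by
  have him : ∀ i, |(hr (x i)).im| < l := fun i => hr_abs (hx i)
  choose C hC c1 c2 c3 c4 c5 c6 using fun i => row_line (him i)
  refine ⟨∑ i, C i, ?_⟩
  have hle : ∀ i, C i ≤ ∑ i, C i := fun i =>
    Finset.single_le_sum (f := C) (fun j _ => hC j) (Finset.mem_univ i)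
  refine ⟨fun t => HasDerivAt.fun_sum fun i _ => c3 i t, c3 i0, ?_, c4 i0, ?_, ?_, ?_, ?_, hne,
    ?_, ?_, c5 i0, c6 i0⟩
  · exact continuous_finsetSum _ fun i _ => c4 i
  · exact fun s => (norm_sum_le _ _).trans (Finset.sum_le_sum fun i _ => c1 i s)
  · exact fun s => (norm_sum_le _ _).trans (Finset.sum_le_sum fun i _ => c2 i s)
  · exact fun s => (c1 i0 s).trans (hle i0)
  · exact fun s => (c2 i0 s).trans (hle i0)
  · exact integrable_finsetSum _ fun i _ => c5 i
  · exact integrable_finsetSum _ fun i _ => c6 i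

lemma conv_ro' {x : Fin m → ℂ} (hx : ∀ i, |(x i).re| < l) (t : ℝ) :
    ∫ s : ℝ, ro' x s * (V (t - s) : ℂ) = frc x t := by
  have h := fun i => conv_dVc_row (a := hr (x i)) (hr_abs (hx i)) t
  unfold ro' frc
  simp only [Finset.sum_mul]
  rw [integral_finsetSum _ fun i _ => (h i).1]
  exact Finset.sum_congr rfl fun i _ => (h i).2

lemma abs_Kg_le (u : ℝ) : |Kg u| ≤ 6 := by
  have hc := Real.cosh_pos (2 * u)
  have h1 : |Real.sinh (2 * u)| ≤ Real.cosh (2 * u) := by
    rw [abs_le]
    constructor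
    · have := Real.sinh_add_cosh (2 * u)
      have := Real.exp_pos (2 * u)
      linarith
    · have := Real.cosh_sub_sinh (2 * u)
      have := Real.exp_pos (-(2 * u))
      linarith
  have hr := r_pos
  unfold Kg
  refine (abs_sub _ _).trans ?_
  rw [abs_div, abs_div, abs_mul, abs_mul, abs_of_pos (by linarith : 0 < Real.cosh (2 * u) + 1),
    abs_of_pos (by linarith : 0 < Real.cosh (2 * u) + r), abs_two,
    abs_of_pos (by norm_num : (0 : ℝ) < 4)]
  have e1 : 2 * |Real.sinh (2 * u)| / (Real.cosh (2 * u) + 1) ≤ 2 := by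
    rw [div_le_iff₀ (by linarith)]
    linarith
  have e2 : 4 * |Real.sinh (2 * u)| / (Real.cosh (2 * u) + r) ≤ 4 := by
    rw [div_le_iff₀ (by linarith)]
    linarith
  linarith

lemma Kg_meas : Measurable Kg := by
  unfold Kg
  fun_prop

/-- the two kernels on the line, separately integrable -/
theorem line_int {ρ ρ' ρ1 ρ1' : ℝ → ℂ} {B : ℝ} (D : XiDatC ρ ρ' ρ1 ρ1' B) (t : ℝ) :
    Integrable (fun s => ρ s * ((ρ1 t / ρ t - ρ1 s / ρ s) * (Kw (t - s) : ℂ))) ∧
    Integrable (fun s => ρ s * ((ρ1 t / ρ t - ρ1 s / ρ s) * (Kg (t - s) : ℂ))) ∧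
    (∫ s, ρ s * ((ρ1 t / ρ t - ρ1 s / ρ s) * (Kw (t - s) : ℂ))) +
      (∫ s, ρ s * ((ρ1 t / ρ t - ρ1 s / ρ s) * (Kg (t - s) : ℂ))) =
      ∫ s, (ρ1 t / ρ t - ρ1 s / ρ s) * KC (t - s) * ρ s := by
  have i0 := (mf_xiC D t).1
  have i2 : Integrable (fun s => ρ s * ((ρ1 t / ρ t - ρ1 s / ρ s) * (Kg (t - s) : ℂ))) := by
    have h1 : Integrable fun s => (ρ1 t / ρ t) * ρ s - ρ1 s := (D.i0.const_mul _).sub D.i1
    have h2 : Integrable fun s => (Kg (t - s) : ℂ) * ((ρ1 t / ρ t) * ρ s - ρ1 s) := by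
      refine h1.bdd_mul (c := 6) ?_ (Eventually.of_forall fun s => ?_)
      · exact (Complex.measurable_ofReal.comp (Kg_meas.comp
          (measurable_const.sub measurable_id))).aestronglyMeasurable
      · rw [Complex.norm_real, Real.norm_eq_abs]
        exact abs_Kg_le _
    refine h2.congr (Eventually.of_forall fun s => ?_)
    have := D.ne s
    simp only []
    field_simp
  have i1 : Integrable (fun s => ρ s * ((ρ1 t / ρ t - ρ1 s / ρ s) * (Kw (t - s) : ℂ))) := by
    refine (i0.sub i2).congr (Eventually.of_forall fun s => ?_)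
    simp only [Pi.sub_apply, KC]
    push_cast
    ring
  refine ⟨i1, i2, ?_⟩
  rw [← integral_add i1 i2]
  refine integral_congr_ae (Eventually.of_forall fun s => ?_)
  simp only [KC]
  push_cast
  ring

end line

/-! ### the convective term on the line `A` -/

section conv

open NUP1 NUP1S NUP1.Bd NURow PB PBI PBForce Pool.Agent.PB

variable {m : ℕ}

lemma ln_ne (t : ℝ) : ∀ᵐ s : ℝ, s ≠ t := by
  have : ({t} : Set ℝ)ᶜ ∈ ae (volume : Measure ℝ) := by
    rw [mem_ae_iff, compl_compl]
    exact measure_singleton _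
  exact this

/-- **the convective term on the line `A`** -/
theorem Cv_line (b : Bool) {x : Fin m → ℂ} (i0 : Fin m) (hx : ∀ i, |(x i).re| < l)
    (hne : ∀ t : ℝ, ro x t ≠ 0) (t : ℝ) :
    Integrable (fun s : ℝ => rhoR x (l + s * Complex.I) * ((xiR x i0 (l + t * Complex.I) -
      xiR x i0 (l + s * Complex.I)) * (Complex.I * lz (b, .A) (b, .A)
        ((l + t * Complex.I) - (l + s * Complex.I))))) ∧
    Integrable (fun s : ℝ => rhoR x (l + s * Complex.I) * ((xiR x i0 (l + t * Complex.I) -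
      xiR x i0 (l + s * Complex.I)) * (Complex.I * lz (b, .A) (!b, .A)
        ((l + t * Complex.I) - (l + s * Complex.I))))) ∧
    xiR x i0 (l + t * Complex.I) * krR .A x (l + t * Complex.I) +
      ((∫ s : ℝ, rhoR x (l + s * Complex.I) * ((xiR x i0 (l + t * Complex.I) -
        xiR x i0 (l + s * Complex.I)) * (Complex.I * lz (b, .A) (b, .A)
          ((l + t * Complex.I) - (l + s * Complex.I))))) +
      ∫ s : ℝ, rhoR x (l + s * Complex.I) * ((xiR x i0 (l + t * Complex.I) -
        xiR x i0 (l + s * Complex.I)) * (Complex.I * lz (b, .A) (!b, .A)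
          ((l + t * Complex.I) - (l + s * Complex.I))))) +
      r1R .A x i0 (l + t * Complex.I) = 0 := by
  obtain ⟨B, D⟩ := rowDat i0 hx hne
  obtain ⟨j1, j2, j3⟩ := line_int D t
  have him : (l + t * Complex.I : ℂ) - l = t * Complex.I := by ring
  have e1 : (fun s : ℝ => rhoR x (l + s * Complex.I) * ((xiR x i0 (l + t * Complex.I) -
      xiR x i0 (l + s * Complex.I)) * (Complex.I * lz (b, .A) (b, .A)
        ((l + t * Complex.I) - (l + s * Complex.I))))) =ᵐ[volume]
      fun s => ro x s * ((NUMF.Pc (t - hr (x i0)) / ro x t - NUMF.Pc (s - hr (x i0)) / ro x s) *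
        (Kw (t - s) : ℂ)) := by
    filter_upwards [lz_ae b .A (l + t * Complex.I), ln_ne t] with s hs hst
    have h1 := xiR_line i0 hx t
    have h2 := xiR_line i0 hx s
    have h3 := rhoR_line hx s
    rw [hs.1]
    have e : (l : ℂ) + t * Complex.I - l - s * Complex.I = ((t - s : ℝ) : ℂ) * Complex.I := by
      push_cast
      ring
    have e5 : kO keX .A ((l : ℂ) + t * Complex.I - l - s * Complex.I) = (Kw (t - s) : ℂ) := by
      rw [e]
      exact keX_I (sub_ne_zero.2 (Ne.symm hst))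
    rw [e5]
    change rhoR x (NUMF.l + s * Complex.I) * ((xiR x i0 (NUMF.l + t * Complex.I) -
      xiR x i0 (NUMF.l + s * Complex.I)) * _) = _
    rw [h1, h2, h3]
  have e2 : (fun s : ℝ => rhoR x (l + s * Complex.I) * ((xiR x i0 (l + t * Complex.I) -
      xiR x i0 (l + s * Complex.I)) * (Complex.I * lz (b, .A) (!b, .A)
        ((l + t * Complex.I) - (l + s * Complex.I))))) =ᵐ[volume]
      fun s => ro x s * ((NUMF.Pc (t - hr (x i0)) / ro x t - NUMF.Pc (s - hr (x i0)) / ro x s) *
        (Kg (t - s) : ℂ)) := by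
    filter_upwards [lz_ae b .A (l + t * Complex.I), ln_ne t] with s hs hst
    have h1 := xiR_line i0 hx t
    have h2 := xiR_line i0 hx s
    have h3 := rhoR_line hx s
    rw [hs.2]
    have e : (l : ℂ) + t * Complex.I - l - s * Complex.I = ((t - s : ℝ) : ℂ) * Complex.I := by
      push_cast
      ring
    have e5 : kO keY .A ((l : ℂ) + t * Complex.I - l - s * Complex.I) = (Kg (t - s) : ℂ) := by
      rw [e]
      exact keY_I (sub_ne_zero.2 (Ne.symm hst))
    rw [e5]
    change rhoR x (NUMF.l + s * Complex.I) * ((xiR x i0 (NUMF.l + t * Complex.I) -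
      xiR x i0 (NUMF.l + s * Complex.I)) * _) = _
    rw [h1, h2, h3]
  refine ⟨j1.congr e1.symm, j2.congr e2.symm, ?_⟩
  rw [integral_congr_ae e1, integral_congr_ae e2, j3]
  have k1 := (mf_xiC D t).2
  rw [conv_ro' hx t, (conv_dVc_row (hr_abs (hx i0)) t).2] at k1
  have h1 := xiR_line i0 hx t
  have h2 := krR_line hx t
  have h3 := r1R_line i0 hx t
  change xiR x i0 (NUMF.l + t * Complex.I) * krR .A x (NUMF.l + t * Complex.I) + _ +
    r1R .A x i0 (NUMF.l + t * Complex.I) = 0
  rw [h1, h2, h3]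
  linear_combination k1

/-! ### kinds -/

/-- species and kind -/
abbrev K4 := Bool × Option O3

/-- the point at which the field is read -/
def fp (b : K4) (w : ℂ) : ℂ := b.2.elim w fun _ => w + 2 * l

/-- density of the kinds: only the quanta have a sea -/
def rhK (x : Fin m → ℂ) (b : K4) (s : ℝ) : ℂ := b.2.elim (rhoR x (vl l s)) fun _ => 0

/-- the field of the kinds -/
def xiK (x : Fin m → ℂ) (i0 : Fin m) (b : K4) (w : ℂ) : ℂ := xiR x i0 (fp b w)

/-- the row force on the kinds -/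
def krK (x : Fin m → ℂ) (b : K4) (w : ℂ) : ℂ := krR (ob4 b.2) x w

/-- derivative of the row factor of the kinds in the height of the row `i0` -/
def r1K (x : Fin m → ℂ) (i0 : Fin m) (b : K4) (w : ℂ) : ℂ := r1R (ob4 b.2) x i0 w

/-- admissible heads -/
def Adm (b : K4) (w : ℂ) : Prop := (b.2 = none ∧ w.re = l) ∨ ∃ c, HeadOk (ob4 b.2) w (fp b w) c

/-- what is used of the kernel, on the domain `D` -/
structure KerH (x : Fin m → ℂ) (i0 : Fin m) (D : K4 → Set ℂ) (dxi : K4 → ℂ → ℂ)
    (a : K4 → K4 → ℂ → ℂ → ℂ) : Prop where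
  eq : ∀ b c z z', z ∈ D b → z' ∈ D c → z.im ≠ z'.im → a b c z z' =
    (xiK x i0 b z - xiK x i0 c z') * (Complex.I * lz (co b) (co c) (z - z'))
  symm : ∀ b c z z', z ∈ D b → z' ∈ D c → a b c z z' = a c b z' z
  diag : ∀ b z, z ∈ D b → a b b z z = 2 * dxi b z
  line : ∀ s t, vl l t ∈ D (s, none)
  adm : ∀ b z, z ∈ D b → Adm b z

lemma sum_K4 {f : K4 → ℂ} (h : ∀ s k, f (s, some k) = 0) (b : Bool) :
    ∑ c, f c = f (b, none) + f (!b, none) := by
  rw [Fintype.sum_prod_type]
  simp only [Fintype.sum_bool, Fintype.sum_option, h, Finset.sum_const_zero, add_zero]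
  cases b <;> simp [add_comm]

lemma rhK_none (x : Fin m → ℂ) (s : Bool) (t : ℝ) : rhK x (s, none) t = rhoR x (vl l t) := rfl

lemma rhK_some (x : Fin m → ℂ) (s : Bool) (k : O3) (t : ℝ) : rhK x (s, some k) t = 0 := rfl

lemma rhK_mem {x : Fin m → ℂ} {i0 : Fin m} {D : K4 → Set ℂ} {dxi : K4 → ℂ → ℂ}
    {a : K4 → K4 → ℂ → ℂ → ℂ} (H : KerH x i0 D dxi a) (b : K4) (u : ℝ) (h : rhK x b u ≠ 0) :
    vl l u ∈ D b := by
  obtain ⟨s, k⟩ := b
  cases k with
  | none => exact H.line s u
  | some k => exact absurd (rhK_some x s k u) h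

variable {x : Fin m → ℂ} {i0 : Fin m} {D : K4 → Set ℂ} {dxi : K4 → ℂ → ℂ}
    {a : K4 → K4 → ℂ → ℂ → ℂ}

/-- the kernel against the sea -/
lemma ker_ae (H : KerH x i0 D dxi a) {b : K4} {z : ℂ} (hz : z ∈ D b) (s : Bool) :
    (fun u : ℝ => a b (s, none) z (vl l u) * rhK x (s, none) u) =ᵐ[volume] fun u : ℝ =>
      rhoR x (l + u * Complex.I) * ((xiR x i0 (fp b z) - xiR x i0 (l + u * Complex.I)) *
        (Complex.I * lz (co b) (s, .A) (z - (l + u * Complex.I)))) := by
  filter_upwards [ln_ne z.im] with u hu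
  have him : (vl l u).im = u := by simp [vl]
  rw [H.eq b (s, none) z (vl l u) hz (H.line s u) (by rw [him]; exact hu.symm), mul_comm]
  rfl

lemma hx_line (hx : ∀ i, (x i).re = 0) : ∀ i, |(x i).re| < l := fun i => by
  rw [hx i, abs_zero]
  exact NUMF.l_pos

lemma ro_ne (i0 : Fin m) (hx : ∀ i, (x i).re = 0) (t : ℝ) : ro x t ≠ 0 := by
  have h := rhoR_line (hx_line hx) t
  rw [← h]
  refine rhoR_ne i0.pos fun i => ?_
  have e : ((NUMF.l : ℂ) + t * Complex.I - l - x i).re = 0 := by
    have : (NUMF.l : ℂ) = l := rfl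
    rw [this, show (l : ℂ) + t * Complex.I - l - x i = t * Complex.I - x i by ring]
    simp [hx i]
  rw [e, abs_zero]
  exact NUMF.l_pos

/-- both species: the kernel against the sea, integrability and the convective identity -/
theorem conv_K (H : KerH x i0 D dxi a) (hx : ∀ i, (x i).re = 0) {b : K4} {z : ℂ} (hz : z ∈ D b) :
    (∀ c, Integrable fun u : ℝ => a b c z (vl l u) * rhK x c u) ∧
    NX.Cv (vl l) (rhK x) (xiK x i0) (krK x) (r1K x i0) a b z = 0 := by
  have e1 := ker_ae H hz b.1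
  have e2 := ker_ae H hz (!b.1)
  have hsum : NX.smr (vl l) (rhK x) a b z =
      (∫ u : ℝ, a b (b.1, none) z (vl l u) * rhK x (b.1, none) u) +
        ∫ u : ℝ, a b (!b.1, none) z (vl l u) * rhK x (!b.1, none) u := by
    unfold NX.smr
    refine sum_K4 (f := fun c => ∫ u : ℝ, a b c z (vl l u) * rhK x c u) (fun s k => ?_) b.1
    simp [rhK_some]
  have main : Integrable (fun u : ℝ =>
      rhoR x (l + u * Complex.I) * ((xiR x i0 (fp b z) - xiR x i0 (l + u * Complex.I)) *
        (Complex.I * lz (co b) (b.1, .A) (z - (l + u * Complex.I))))) ∧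
      Integrable (fun u : ℝ =>
      rhoR x (l + u * Complex.I) * ((xiR x i0 (fp b z) - xiR x i0 (l + u * Complex.I)) *
        (Complex.I * lz (co b) (!b.1, .A) (z - (l + u * Complex.I))))) ∧
      xiR x i0 (fp b z) * krR (ob4 b.2) x z + ((∫ u : ℝ,
      rhoR x (l + u * Complex.I) * ((xiR x i0 (fp b z) - xiR x i0 (l + u * Complex.I)) *
        (Complex.I * lz (co b) (b.1, .A) (z - (l + u * Complex.I))))) + ∫ u : ℝ,
      rhoR x (l + u * Complex.I) * ((xiR x i0 (fp b z) - xiR x i0 (l + u * Complex.I)) *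
        (Complex.I * lz (co b) (!b.1, .A) (z - (l + u * Complex.I))))) +
      r1R (ob4 b.2) x i0 z = 0 := by
    rcases H.adm b z hz with ⟨hb, hre⟩ | ⟨c, hc⟩
    · obtain ⟨s, k⟩ := b
      simp only at hb
      subst hb
      have ez : z = (l : ℂ) + z.im * Complex.I := by
        rw [← hre]
        exact (Complex.re_add_im z).symm
      have hL := Cv_line s i0 (hx_line hx) (ro_ne i0 hx) z.im
      rw [← ez] at hL
      exact hL
    · exact conv_form0 b.1 i0 hc hx
  obtain ⟨m1, m2, m3⟩ := main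
  constructor
  · intro c
    obtain ⟨s, k⟩ := c
    cases k with
    | some k => simp [rhK_some]
    | none =>
      by_cases hs : s = b.1
      · subst hs
        exact m1.congr e1.symm
      · have hs' : s = !b.1 := by
          cases h1 : s <;> cases h2 : b.1 <;> simp_all
        subst hs'
        exact m2.congr e2.symm
  · unfold NX.Cv
    rw [hsum, integral_congr_ae e1, integral_congr_ae e2]
    exact m3

/-! ### the constant terms -/

/-- integrability of the one body means on the line -/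
theorem line_one (i0 : Fin m) (hx : ∀ i, (x i).re = 0) :
    Integrable (fun t : ℝ => rhoR x (vl l t) * (xiR x i0 (vl l t) * krR .A x (vl l t))) ∧
    Integrable (fun t : ℝ => rhoR x (vl l t) * r1R .A x i0 (vl l t)) := by
  have hl := hx_line hx
  have hne := ro_ne i0 hx
  obtain ⟨B, D⟩ := rowDat i0 hl hne
  obtain ⟨p1, -⟩ := conv_symmC (a := ro x) (b := fun t : ℝ => deriv NUMF.Pc (t - hr (x i0)))
    D.cont0 D.i1' D.b0
  obtain ⟨p2, -⟩ := conv_symmC (a := fun t : ℝ => NUMF.Pc (t - hr (x i0))) (b := ro' x)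
    D.cont1 D.i0' D.b1
  constructor
  · refine p2.integral_prod_left.congr (Eventually.of_forall fun t => ?_)
    simp only []
    rw [integral_const_mul, conv_ro' hl t]
    have h1 := xiR_line i0 hl t
    have h2 := krR_line hl t
    have h3 := rhoR_line hl t
    change _ = rhoR x (NUMF.l + t * Complex.I) * (xiR x i0 (NUMF.l + t * Complex.I) *
      krR .A x (NUMF.l + t * Complex.I))
    rw [h1, h2, h3]
    have := hne t
    field_simp
  · refine p1.neg.integral_prod_left.congr (Eventually.of_forall fun t => ?_)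
    simp only [Pi.neg_apply]
    rw [integral_neg, integral_const_mul, (conv_dVc_row (hr_abs (hl i0)) t).2]
    have h2 := r1R_line i0 hl t
    have h3 := rhoR_line hl t
    change _ = rhoR x (NUMF.l + t * Complex.I) * r1R .A x i0 (NUMF.l + t * Complex.I)
    rw [h2, h3]
    ring

theorem hI1 (i0 : Fin m) (hx : ∀ i, (x i).re = 0) (b : K4) :
    Integrable fun s => rhK x b s * (xiK x i0 b (vl l s) * krK x b (vl l s)) := by
  obtain ⟨s, k⟩ := b
  cases k with
  | some k => simp [rhK_some]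
  | none => exact (line_one i0 hx).1

theorem hI1' (i0 : Fin m) (hx : ∀ i, (x i).re = 0) (b : K4) :
    Integrable fun s => rhK x b s * r1K x i0 b (vl l s) := by
  obtain ⟨s, k⟩ := b
  cases k with
  | some k => simp [rhK_some]
  | none => exact (line_one i0 hx).2

/-- the smeared kernel on the line -/
lemma smr_line (H : KerH x i0 D dxi a) (hx : ∀ i, (x i).re = 0) (b : K4) (s : ℝ) :
    rhK x b s * NX.smr (vl l) (rhK x) a b (vl l s) =
      -(rhK x b s * (xiK x i0 b (vl l s) * krK x b (vl l s))) -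
        rhK x b s * r1K x i0 b (vl l s) := by
  obtain ⟨σ, k⟩ := b
  cases k with
  | some k => simp [rhK_some]
  | none =>
    have h := (conv_K H hx (H.line σ s)).2
    unfold NX.Cv at h
    linear_combination (rhK x (σ, none) s) * h

theorem hI2 (H : KerH x i0 D dxi a) (hx : ∀ i, (x i).re = 0) (b : K4) :
    Integrable fun s => rhK x b s * NX.smr (vl l) (rhK x) a b (vl l s) := by
  simp only [smr_line H hx]
  exact (hI1 i0 hx b).neg.sub (hI1' i0 hx b)

/-- integrability of the kernel against the sea -/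
theorem qidK (H : KerH x i0 D dxi a) (hx : ∀ i, (x i).re = 0) : NX.QID D (vl l) (rhK x) a :=
  ⟨fun b c z hz => (conv_K H hx hz).1 c, fun b => hI2 H hx b⟩

/-- **the constant term of the Ward identity vanishes** -/
theorem hE (H : KerH x i0 D dxi a) (hx : ∀ i, (x i).re = 0) :
    ∑ b, (∫ s, rhK x b s * (xiK x i0 b (vl l s) * krK x b (vl l s))) +
      (1 / 2) * NX.dbl (vl l) (rhK x) a = 0 := by
  have hl := hx_line hx
  have hne := ro_ne i0 hx
  obtain ⟨B, D'⟩ := rowDat i0 hl hne
  have k0 := mf_constC D'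
  have e0 : ∀ t : ℝ, ∫ s : ℝ, ro' x s * (NUMF.V (t - s) : ℂ) = frc x t := conv_ro' hl
  simp only [e0] at k0
  have s1 : ∀ t : ℝ, rhoR x (vl l t) = ro x t := rhoR_line hl
  have s2 : ∀ t : ℝ, xiR x i0 (vl l t) = NUMF.Pc (t - hr (x i0)) / ro x t := xiR_line i0 hl
  have s3 : ∀ t : ℝ, krR .A x (vl l t) = frc x t := krR_line hl
  have s4 : ∀ t : ℝ, r1R .A x i0 (vl l t) = -deriv NUMF.vc (t - hr (x i0)) := r1R_line i0 hl
  have f1 : ∀ σ : Bool, ∫ s, rhK x (σ, none) s * (xiK x i0 (σ, none) (vl l s) *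
      krK x (σ, none) (vl l s)) = ∫ t : ℝ, NUMF.Pc (t - hr (x i0)) * frc x t := by
    intro σ
    refine integral_congr_ae (Eventually.of_forall fun t => ?_)
    change rhoR x (vl l t) * (xiR x i0 (vl l t) * krR .A x (vl l t)) = _
    rw [s1, s2, s3]
    have := hne t
    field_simp
  have f2 : ∀ σ : Bool, ∫ s, rhK x (σ, none) s * NX.smr (vl l) (rhK x) a (σ, none) (vl l s) =
      ∫ t : ℝ, ro x t * ∫ s : ℝ, (NUMF.Pc (t - hr (x i0)) / ro x t -
        NUMF.Pc (s - hr (x i0)) / ro x s) * KC (t - s) * ro x s := by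
    intro σ
    refine integral_congr_ae (Eventually.of_forall fun t => ?_)
    have h := smr_line H hx (σ, none) t
    have k1 := (mf_xiC D' t).2
    rw [e0 t, (conv_dVc_row (hr_abs (hl i0)) t).2] at k1
    simp only []
    rw [h]
    change -(rhoR x (vl l t) * (xiR x i0 (vl l t) * krR .A x (vl l t))) -
      rhoR x (vl l t) * r1R .A x i0 (vl l t) = _
    rw [s1, s2, s3, s4]
    linear_combination (-ro x t) * k1
  have g1 : ∑ b : K4, (∫ s, rhK x b s * (xiK x i0 b (vl l s) * krK x b (vl l s))) =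
      2 * ∫ t : ℝ, NUMF.Pc (t - hr (x i0)) * frc x t := by
    rw [sum_K4 (f := fun b : K4 => ∫ s, rhK x b s * (xiK x i0 b (vl l s) * krK x b (vl l s)))
      (fun s k => by simp [rhK_some]) true, f1, f1]
    ring
  have g2 : NX.dbl (vl l) (rhK x) a = 2 * ∫ t : ℝ, ro x t * ∫ s : ℝ,
      (NUMF.Pc (t - hr (x i0)) / ro x t - NUMF.Pc (s - hr (x i0)) / ro x s) * KC (t - s) *
        ro x s := by
    unfold NX.dbl
    rw [sum_K4 (f := fun b : K4 => ∫ s, rhK x b s * NX.smr (vl l) (rhK x) a b (vl l s))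
      (fun s k => by simp [rhK_some]) true, f2, f2]
    ring
  rw [g1, g2]
  linear_combination k0

/-- the constant of the identity -/
def C0 (x : Fin m → ℂ) (i0 : Fin m) : ℂ := 2 * ∫ s : ℝ, rhoR x (vl l s) * r1R .A x i0 (vl l s)

lemma C0_eq : ∑ b : K4, (∫ s, rhK x b s * r1K x i0 b (vl l s)) = C0 x i0 := by
  rw [sum_K4 (f := fun b : K4 => ∫ s, rhK x b s * r1K x i0 b (vl l s))
    (fun s k => by simp [rhK_some]) true]
  have : ∀ σ : Bool, ∫ s, rhK x (σ, none) s * r1K x i0 (σ, none) (vl l s) =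
      ∫ s : ℝ, rhoR x (vl l s) * r1R .A x i0 (vl l s) := fun σ => rfl
  rw [this, this]
  unfold C0
  ring

lemma C0_line (hx : ∀ i, (x i).re = 0) :
    C0 x i0 = -(2 * ∫ s : ℝ, ro x s * deriv NUMF.vc (s - hr (x i0))) := by
  have hl := hx_line hx
  unfold C0
  have s1 : ∀ t : ℝ, rhoR x (vl l t) = ro x t := rhoR_line hl
  have s4 : ∀ t : ℝ, r1R .A x i0 (vl l t) = -deriv NUMF.vc (t - hr (x i0)) := r1R_line i0 hl
  simp only [s1, s4, mul_neg, integral_neg]

/-! ### the normal form -/

/-- **the first Ward identity, pointwise, for all kinds** -/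
theorem normal_form {ι : Type*} [Fintype ι] {r : ι → ι → Prop} (hr : Tourn r)
    (H : KerH x i0 D dxi a) (hx : ∀ i, (x i).re = 0) (sp : ι → K4) {z : ι → ℂ}
    (hz : ∀ i, z i ∈ D (sp i)) (lam : ι → ℂ) :
    (∑ k, (r1K x i0 (sp k) (z k) + (dxi (sp k) (z k) + xiK x i0 (sp k) (z k) *
      (krK x (sp k) (z k) + lam k)))) + ∑ p ∈ prs r, a (sp p.1) (sp p.2) (z p.1) (z p.2) =
    C0 x i0 + NX.nuQ (vl l) sp (rhK x) a z + ∑ k, xiK x i0 (sp k) (z k) * lam k := by
  have he := rhK_mem H
  have q := qidK H hx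
  have hs : ∀ b c s t, NX.cD D a b c s t = NX.cD D a c b t s := by
    intro b c s t
    unfold NX.cD
    by_cases h : s ∈ D b ∧ t ∈ D c
    · rw [if_pos h, if_pos h.symm, H.symm b c s t h.1 h.2]
    · rw [if_neg h, if_neg (fun h' => h h'.symm)]
  have e2 : NX.dbl (vl l) (rhK x) (NX.cD D a) = NX.dbl (vl l) (rhK x) a := by
    unfold NX.dbl
    simp only [NX.mul_smr_cD he]
  have cv : ∀ b w, w ∈ D b →
      NX.Cv (vl l) (rhK x) (xiK x i0) (krK x) (r1K x i0) (NX.cD D a) b w = 0 := by
    intro b w hw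
    have h := (conv_K H hx hw).2
    unfold NX.Cv at h ⊢
    rw [NX.smr_cD he a hw]
    exact h
  have key := NX.normI1 hr (vl l) sp (ρ := rhK x) (ξ := xiK x i0) (dξ := dxi) (κr := krK x)
    (r1 := r1K x i0) (lam := fun k _ => lam k) (a := NX.cD D a) hs (hI1 i0 hx)
    (fun b => by simp only [NX.mul_smr_cD he]; exact hI2 H hx b)
    (by rw [e2]; exact hE H hx)
    (fun b s => by
      by_cases h0 : rhK x b s = 0
      · rw [h0, zero_mul]
      · rw [cv b _ (he b s h0), mul_zero]) z
  rw [NX.nuQ_cD he a hz, C0_eq] at key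
  have p1 : ∑ p ∈ prs r, NX.cD D a (sp p.1) (sp p.2) (z p.1) (z p.2) =
      ∑ p ∈ prs r, a (sp p.1) (sp p.2) (z p.1) (z p.2) := by
    refine Finset.sum_congr rfl fun p _ => ?_
    unfold NX.cD
    rw [if_pos ⟨hz _, hz _⟩]
  have p2 : ∑ k, NX.Cv (vl l) (rhK x) (xiK x i0) (krK x) (r1K x i0) (NX.cD D a) (sp k) (z k) =
      0 := Finset.sum_eq_zero fun k _ => cv _ _ (hz k)
  have p3 : ∑ k, (dxi (sp k) (z k) - (1 / 2) * NX.cD D a (sp k) (sp k) (z k) (z k)) = 0 := by
    refine Finset.sum_eq_zero fun k _ => ?_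
    unfold NX.cD
    rw [if_pos ⟨hz k, hz k⟩, H.diag _ _ (hz k)]
    ring
  rw [p1, p2, p3] at key
  rw [key]
  ring

end conv

end PBQ1

end
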