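import Pool.Agent.PB.Conf
import Pool.Agent.PB.FGood
import Pool.Agent.PB.F0Ln
import Pool.Agent.PB.ClsFF

/-!
# Plan B: linear statistics inside the functional on the curves

* `cst`, `csA`: the constituents (species, kind, position) of an object, of a configuration: heads,
  satellites as quanta, quanta on the curve;
* `StF a P η`: the linear statistic of the one body function `a`; `Fa_eq`: `Fa g` is the product;
* `MIn.StF`, `MIn.Fa`: measurability;
* `hasDerivAt_FF`: the derivative at `ε = 0` of `FF (tw Z a ε) Ψ` is `FF Z (Ψ * StF a)`.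
-/

set_option autoImplicit false
set_option linter.unusedSectionVars false

noncomputable section

open Complex MeasureTheory Finset
open scoped ENNReal

namespace PBF

open NUO NUP1 NUCR NUP1S NUP1S.Ab NUP1S.AbC NUGC PBFunc
open PBI (Stt tw)

/-! ### products of `1 + ε a` over a list -/

/-- product of `1 + ε a` -/
def lp (L : List ℂ) (ε : ℂ) : ℂ := (L.map fun a => 1 + ε * a).prod

/-- its derivative -/
def dlp : List ℂ → ℂ → ℂ
  | [], _ => 0
  | a :: L, ε => a * lp L ε + (1 + ε * a) * dlp L ε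

theorem lp_nil (ε : ℂ) : lp [] ε = 1 := rfl

theorem lp_cons (a : ℂ) (L : List ℂ) (ε : ℂ) : lp (a :: L) ε = (1 + ε * a) * lp L ε := by
  simp [lp]

theorem lp_zero (L : List ℂ) : lp L 0 = 1 := by
  induction L with
  | nil => rfl
  | cons a L ih => rw [lp_cons, ih, zero_mul, add_zero, one_mul]

theorem hasDerivAt_lp (L : List ℂ) (ε : ℂ) : HasDerivAt (lp L) (dlp L ε) ε := by
  induction L with
  | nil => exact hasDerivAt_const _ _
  | cons a L ih =>
    have h1 : HasDerivAt (fun ε : ℂ => 1 + ε * a) a ε := by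
      simpa using ((hasDerivAt_id ε).mul_const a).const_add 1
    have h2 := h1.mul ih
    refine (h2.congr_of_eventuallyEq (Filter.Eventually.of_forall fun e => lp_cons a L e))

theorem dlp_zero (L : List ℂ) : dlp L 0 = L.sum := by
  induction L with
  | nil => rfl
  | cons a L ih =>
    show a * lp L 0 + (1 + 0 * a) * dlp L 0 = _
    rw [lp_zero, ih, List.sum_cons]
    ring

theorem norm_one_add_le {a ε : ℂ} {C : ℝ} (h : ‖a‖ ≤ C) (hε : ‖ε‖ ≤ 1) : ‖1 + ε * a‖ ≤ 1 + C := by
  refine (norm_add_le _ _).trans ?_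
  rw [norm_one, norm_mul]
  have := mul_le_mul hε h (norm_nonneg _) zero_le_one
  linarith

theorem norm_lp_le {L : List ℂ} {C : ℝ} (hC : 0 ≤ C) (h : ∀ a ∈ L, ‖a‖ ≤ C) {ε : ℂ}
    (hε : ‖ε‖ ≤ 1) : ‖lp L ε‖ ≤ (1 + C) ^ L.length := by
  induction L with
  | nil => simp [lp]
  | cons a L ih =>
    rw [lp_cons, norm_mul, List.length_cons, pow_succ']
    exact mul_le_mul (norm_one_add_le (h a List.mem_cons_self) hε)
      (ih fun b hb => h b (List.mem_cons_of_mem _ hb)) (norm_nonneg _) (by positivity)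

theorem norm_dlp_le {L : List ℂ} {C : ℝ} (hC : 0 ≤ C) (h : ∀ a ∈ L, ‖a‖ ≤ C) {ε : ℂ}
    (hε : ‖ε‖ ≤ 1) : ‖dlp L ε‖ ≤ L.length * (C * (1 + C) ^ L.length) := by
  induction L with
  | nil => simp [dlp]
  | cons a L ih =>
    have h1 := h a List.mem_cons_self
    have h2 := ih fun b hb => h b (List.mem_cons_of_mem _ hb)
    have h3 := norm_lp_le hC (fun b hb => h b (List.mem_cons_of_mem _ hb)) (L := L) hε
    show ‖a * lp L ε + (1 + ε * a) * dlp L ε‖ ≤ _
    refine (norm_add_le _ _).trans ?_
    rw [norm_mul, norm_mul, List.length_cons]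
    have h4 : ‖a‖ * ‖lp L ε‖ ≤ C * (1 + C) ^ (L.length + 1) := by
      refine mul_le_mul h1 (h3.trans ?_) (norm_nonneg _) hC
      exact pow_le_pow_right₀ (by linarith) (Nat.le_succ _)
    have h5 : ‖1 + ε * a‖ * ‖dlp L ε‖ ≤ (1 + C) * (L.length * (C * (1 + C) ^ L.length)) :=
      mul_le_mul (norm_one_add_le h1 hε) h2 (norm_nonneg _) (by linarith)
    have h6 : (1 + C) * (L.length * (C * (1 + C) ^ L.length)) =
        L.length * (C * (1 + C) ^ (L.length + 1)) := by ring
    push_cast
    linarith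

/-- **derivative of the abstract functional** -/
theorem hasDerivAt_Flist {Ω : Type*} [MeasurableSpace Ω] {μ : Measure Ω} {w O : Ω → ℂ}
    (hI : WI μ w O) {L : Ω → List ℂ} {N : ℕ} {C : ℝ} (hC : 0 ≤ C) (hN : ∀ ω, (L ω).length ≤ N)
    (hL : ∀ ω, ∀ a ∈ L ω, ‖a‖ ≤ C) (hm : ∀ ε : ℂ, AEStronglyMeasurable (fun ω => lp (L ω) ε) μ)
    (hs : AEStronglyMeasurable (fun ω => (L ω).sum) μ) :
    HasDerivAt (fun ε => F μ w fun ω => O ω * lp (L ω) ε) (F μ w fun ω => O ω * (L ω).sum) 0 := by
  unfold WI at hI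
  have key := hasDerivAt_integral_of_dominated_loc_of_deriv_le (μ := μ) (𝕜 := ℂ)
    (F := fun ε ω => (w ω * O ω) * lp (L ω) ε)
    (F' := fun ε ω => (w ω * O ω) * dlp (L ω) ε)
    (x₀ := 0) (s := Metric.ball 0 1)
    (bound := fun ω => ‖w ω * O ω‖ * (N * (C * (1 + C) ^ N)))
    (Metric.ball_mem_nhds _ one_pos) (Filter.Eventually.of_forall fun ε => hI.1.mul (hm ε))
    (by simpa only [lp_zero, mul_one] using hI)
    (by
      simp only [dlp_zero]
      exact hI.1.mul hs) ?_ (hI.norm.mul_const _) ?_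
  · have h2 := key.2
    refine (h2.congr_deriv ?_).congr_of_eventuallyEq (Filter.Eventually.of_forall fun ε => ?_)
    · unfold F
      refine integral_congr_ae (Filter.Eventually.of_forall fun ω => ?_)
      simp only [dlp_zero]
      ring
    · unfold F
      refine integral_congr_ae (Filter.Eventually.of_forall fun ω => ?_)
      simp only []
      ring
  · refine Filter.Eventually.of_forall fun ω ε hε => ?_
    rw [norm_mul]
    refine mul_le_mul_of_nonneg_left ?_ (norm_nonneg _)
    have hε' : ‖ε‖ ≤ 1 := by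
      rw [Metric.mem_ball, dist_zero_right] at hε
      exact hε.le
    refine (norm_dlp_le hC (hL ω) hε').trans ?_
    have h1 : ((L ω).length : ℝ) ≤ N := by exact_mod_cast hN ω
    have h2 : (1 + C) ^ (L ω).length ≤ (1 + C) ^ N := pow_le_pow_right₀ (by linarith) (hN ω)
    exact mul_le_mul h1 (mul_le_mul_of_nonneg_left h2 hC) (by positivity) (by positivity)
  · refine Filter.Eventually.of_forall fun ω ε _ => ?_
    exact (hasDerivAt_lp (L ω) ε).const_mul _

/-! ### constituents -/

/-- a constituent: species, kind, position -/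
abbrev Cst : Type := (Bool × Option O3) × ℂ

/-- value of a one body function at a constituent -/
def ap (a : Stt) (c : Cst) : ℂ := a c.1.1 c.1.2 c.2

/-- the constituents of an object -/
def cst (jL e ρ : ℝ) (x : Xo) : List Cst :=
  match kd x with
  | .L => [((sp x, some .L), posL jL (ht x))]
  | .St => [((sp x, some .T), posT (ht x))]
  | .S => [((sp x, some .S), posS e (ht x))]
  | .Sv => [((sp x, some .S), posS e (ht x)), ((!sp x, none), posV e ρ (ht x) (an x))]
  | .Svv => [((sp x, some .S), posS e (ht x)), ((!sp x, none), posS e (ht x) + 2 * l),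
      ((!sp x, none), posS e (ht x) + 2 * l)]

theorem cst_length (jL e ρ : ℝ) (x : Xo) : (cst jL e ρ x).length ≤ 3 := by
  unfold cst
  rcases kd x with _ | _ | _ | _ | _ <;> simp

variable {r a b : ℕ}

/-- the constituents of a configuration -/
def csA (P : NUO.Par) (η : ℝ → ℝ) (O : Fin r → Xo) (x : (Fin a → ℝ) × (Fin b → ℝ)) : List Cst :=
  (List.ofFn fun i => cst P.jL (ei P O i) (rr P O i) (O i)).flatten ++
    ((List.ofFn fun i => (((true, none), NUO.pA η (x.1 i)) : Cst)) ++
      List.ofFn fun j => (((false, none), NUO.pA η (x.2 j)) : Cst))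

theorem csA_length (P : NUO.Par) (η : ℝ → ℝ) (O : Fin r → Xo) (x : (Fin a → ℝ) × (Fin b → ℝ)) :
    (csA P η O x).length ≤ 3 * r + (a + b) := by
  unfold csA
  rw [List.length_append, List.length_append, List.length_ofFn, List.length_ofFn,
    List.length_flatten, List.map_ofFn, List.sum_ofFn]
  refine Nat.add_le_add_right ?_ _
  calc _ ≤ ∑ _i : Fin r, 3 := Finset.sum_le_sum fun i _ => cst_length _ _ _ _
    _ = _ := by
      rw [Finset.sum_const, Finset.card_univ, Fintype.card_fin, smul_eq_mul, mul_comm]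

theorem obF_eq (g : Stt) (jL e ρ : ℝ) (x : Xo) : obF g jL e ρ x = ((cst jL e ρ x).map (ap g)).prod := by
  unfold obF cst
  rcases kd x with _ | _ | _ | _ | _ <;> simp [ap, sq]

/-- **the product over the constituents** -/
theorem Fa_eq (g : Stt) (P : NUO.Par) (η : Crs) (O : Fin r → Xo) (x : (Fin a → ℝ) × (Fin b → ℝ)) :
    Fa g P η r O a b x = ((csA P (η r O) O x).map (ap g)).prod := by
  unfold Fa csA quF
  rw [List.map_append, List.prod_append, List.map_append, List.prod_append, List.map_ofFn,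
    List.map_ofFn, List.prod_ofFn, List.prod_ofFn, List.map_flatten, List.prod_flatten,
    List.map_map, List.map_ofFn, List.prod_ofFn]
  simp only [obF_eq]
  rfl

/-- **the linear statistic** of a configuration -/
def StF (s : Stt) (P : NUO.Par) (η : Crs) : Ins := fun r O _ _ x =>
  ((csA P (η r O) O x).map (ap s)).sum

/-- the statistic of an object -/
def obSt (s : Stt) (jL e ρ : ℝ) (x : Xo) : ℂ := ((cst jL e ρ x).map (ap s)).sum

theorem StF_eq (s : Stt) (P : NUO.Par) (η : Crs) (O : Fin r → Xo)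
    (x : (Fin a → ℝ) × (Fin b → ℝ)) :
    StF s P η r O a b x = (∑ i, obSt s P.jL (ei P O i) (rr P O i) (O i)) +
      ((∑ i, s true none (NUO.pA (η r O) (x.1 i))) +
        ∑ j, s false none (NUO.pA (η r O) (x.2 j))) := by
  unfold StF csA obSt
  rw [List.map_append, List.sum_append, List.map_append, List.sum_append, List.map_ofFn,
    List.map_ofFn, List.sum_ofFn, List.sum_ofFn, List.map_flatten, List.sum_flatten,
    List.map_map, List.map_ofFn, List.sum_ofFn]
  rfl

theorem Fa_tw (s : Stt) (ε : ℂ) (P : NUO.Par) (η : Crs) (O : Fin r → Xo)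
    (x : (Fin a → ℝ) × (Fin b → ℝ)) :
    Fa (fun c k z => 1 + ε * s c k z) P η r O a b x = lp ((csA P (η r O) O x).map (ap s)) ε := by
  rw [Fa_eq]
  unfold lp
  rw [List.map_map]
  rfl

/-! ### measurability -/

theorem measurable_obSt' {Y : Type*} [MeasurableSpace Y] {s : Stt}
    (hs : ∀ c k, Measurable (s c k)) (jL e : ℝ) (k : Bool × Kind)
    {t α ρ : Y → ℝ} (ht : Measurable t) (ha : Measurable α) (hρ : Measurable ρ) :
    Measurable fun y => obSt s jL e (ρ y) (k, (t y, α y)) := by
  obtain ⟨c, k⟩ := k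
  have hS : Measurable fun y => posS e (t y) := NUO.measurable_vl ht _
  have hS' : Measurable fun y => posS e (t y) + 2 * l := hS.add_const _
  have hV := measurable_posV ht ha hρ e
  have hL : Measurable fun y => posL jL (t y) := NUO.measurable_vl ht _
  have hT : Measurable fun y => posT (t y) := NUO.measurable_vl ht _
  have m0 : Measurable fun _ : Y => (0 : ℂ) := measurable_const
  cases k
  · exact ((hs c (some .L)).comp hL).add m0
  · exact ((hs c (some .T)).comp hT).add m0
  · exact ((hs c (some .S)).comp hS).add m0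
  · exact ((hs c (some .S)).comp hS).add (((hs (!c) none).comp hV).add m0)
  · exact ((hs c (some .S)).comp hS).add
      (((hs (!c) none).comp hS').add (((hs (!c) none).comp hS').add m0))

theorem measurable_obF' {Y : Type*} [MeasurableSpace Y] {s : Stt}
    (hs : ∀ c k, Measurable (s c k)) (jL e : ℝ) (k : Bool × Kind)
    {t α ρ : Y → ℝ} (ht : Measurable t) (ha : Measurable α) (hρ : Measurable ρ) :
    Measurable fun y => obF s jL e (ρ y) (k, (t y, α y)) := by
  obtain ⟨c, k⟩ := k
  have hS : Measurable fun y => posS e (t y) := NUO.measurable_vl ht _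
  have hS' : Measurable fun y => posS e (t y) + 2 * l := hS.add_const _
  have hV := measurable_posV ht ha hρ e
  have hL : Measurable fun y => posL jL (t y) := NUO.measurable_vl ht _
  have hT : Measurable fun y => posT (t y) := NUO.measurable_vl ht _
  cases k
  · exact (hs c (some .L)).comp hL
  · exact (hs c (some .T)).comp hT
  · exact (hs c (some .S)).comp hS
  · exact ((hs c (some .S)).comp hS).mul ((hs (!c) none).comp hV)
  · exact ((hs c (some .S)).comp hS).mul (((hs (!c) none).comp hS').pow_const 2)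

section meas

variable {P : NUO.Par} (hP : ∀ r, Measurable (P.rad r)) {s : Stt}
  (hs : ∀ c k, Measurable (s c k)) {η η' : Crs} (hc : MCr η η')

include hP hs

theorem measurable_obSt (i : Fin r) :
    Measurable fun O : Fin r → Xo => obSt s P.jL (ei P O i) (rr P O i) (O i) := by
  refine measurable_config' fun K => ?_
  have ht : Measurable fun y : Fin r → ℝ × ℝ => (y i).1 :=
    measurable_fst.comp (measurable_pi_apply i)
  have ha : Measurable fun y : Fin r → ℝ × ℝ => (y i).2 :=
    measurable_snd.comp (measurable_pi_apply i)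
  exact measurable_obSt' hs P.jL (ei P (fun i => (K i, ((0 : ℝ), (0 : ℝ)))) i) (K i) ht ha
    ((hP r).comp ht)

theorem measurable_obFr (i : Fin r) :
    Measurable fun O : Fin r → Xo => obF s P.jL (ei P O i) (rr P O i) (O i) := by
  refine measurable_config' fun K => ?_
  have ht : Measurable fun y : Fin r → ℝ × ℝ => (y i).1 :=
    measurable_fst.comp (measurable_pi_apply i)
  have ha : Measurable fun y : Fin r → ℝ × ℝ => (y i).2 :=
    measurable_snd.comp (measurable_pi_apply i)
  exact measurable_obF' hs P.jL (ei P (fun i => (K i, ((0 : ℝ), (0 : ℝ)))) i) (K i) ht ha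
    ((hP r).comp ht)

include hc

theorem measurable_qs (c : Bool) : Measurable fun p : (Fin r → Xo) × ℝ =>
    s c none (NUO.pA (η r p.1) p.2) := by
  have h0 := hc.m r
  have hpos : Measurable fun p : (Fin r → Xo) × ℝ => NUO.pA (η r p.1) p.2 := by
    unfold NUO.pA vl
    fun_prop
  exact (hs c none).comp hpos

theorem MIn.StF : MIn (PBF.StF s P η) := by
  intro r a b
  have h1 : Measurable fun p : (Fin r → Xo) × ((Fin a → ℝ) × (Fin b → ℝ)) =>
      ∑ i, obSt s P.jL (ei P p.1 i) (rr P p.1 i) (p.1 i) :=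
    (Finset.measurable_fun_sum _ fun i _ => measurable_obSt hP hs i).comp measurable_fst
  have h2 : Measurable fun p : (Fin r → Xo) × ((Fin a → ℝ) × (Fin b → ℝ)) =>
      ∑ i, s true none (NUO.pA (η r p.1) (p.2.1 i)) := by
    refine Finset.measurable_fun_sum _ fun i _ => ?_
    have e1 : Measurable fun p : (Fin r → Xo) × ((Fin a → ℝ) × (Fin b → ℝ)) =>
        (p.1, p.2.1 i) := measurable_fst.prodMk
      ((measurable_pi_apply i).comp (measurable_fst.comp measurable_snd))
    refine (congrArg Measurable (funext fun p => ?_)).mpr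
      ((measurable_qs (r := r) hP hs hc true).comp e1)
    rfl
  have h3 : Measurable fun p : (Fin r → Xo) × ((Fin a → ℝ) × (Fin b → ℝ)) =>
      ∑ i, s false none (NUO.pA (η r p.1) (p.2.2 i)) := by
    refine Finset.measurable_fun_sum _ fun i _ => ?_
    have e1 : Measurable fun p : (Fin r → Xo) × ((Fin a → ℝ) × (Fin b → ℝ)) =>
        (p.1, p.2.2 i) := measurable_fst.prodMk
      ((measurable_pi_apply i).comp (measurable_snd.comp measurable_snd))
    refine (congrArg Measurable (funext fun p => ?_)).mpr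
      ((measurable_qs (r := r) hP hs hc false).comp e1)
    rfl
  simp only [StF_eq]
  exact h1.add (h2.add h3)

theorem MIn.Fa : MIn (PBF.Fa s P η) := by
  intro r a b
  have h1 : Measurable fun p : (Fin r → Xo) × ((Fin a → ℝ) × (Fin b → ℝ)) =>
      ∏ i, obF s P.jL (ei P p.1 i) (rr P p.1 i) (p.1 i) :=
    (Finset.measurable_fun_prod _ fun i _ => measurable_obFr hP hs i).comp measurable_fst
  have h2 : Measurable fun p : (Fin r → Xo) × ((Fin a → ℝ) × (Fin b → ℝ)) =>
      ∏ i, s true none (NUO.pA (η r p.1) (p.2.1 i)) := by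
    refine Finset.measurable_fun_prod _ fun i _ => ?_
    have e1 : Measurable fun p : (Fin r → Xo) × ((Fin a → ℝ) × (Fin b → ℝ)) =>
        (p.1, p.2.1 i) := measurable_fst.prodMk
      ((measurable_pi_apply i).comp (measurable_fst.comp measurable_snd))
    refine (congrArg Measurable (funext fun p => ?_)).mpr
      ((measurable_qs (r := r) hP hs hc true).comp e1)
    rfl
  have h3 : Measurable fun p : (Fin r → Xo) × ((Fin a → ℝ) × (Fin b → ℝ)) =>
      ∏ i, s false none (NUO.pA (η r p.1) (p.2.2 i)) := by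
    refine Finset.measurable_fun_prod _ fun i _ => ?_
    have e1 : Measurable fun p : (Fin r → Xo) × ((Fin a → ℝ) × (Fin b → ℝ)) =>
        (p.1, p.2.2 i) := measurable_fst.prodMk
      ((measurable_pi_apply i).comp (measurable_snd.comp measurable_snd))
    refine (congrArg Measurable (funext fun p => ?_)).mpr
      ((measurable_qs (r := r) hP hs hc false).comp e1)
    rfl
  exact h1.mul (h2.mul h3)

end meas

/-! ### bounded statistics -/

/-- the one body function is bounded by `C` at all constituents of the configurations with at most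
`N` objects -/
def CBd (s : Stt) (P : NUO.Par) (η : Crs) (N : ℕ) (C : ℝ) : Prop :=
  ∀ r ≤ N, ∀ (O : Fin r → Xo) (a b : ℕ) (x : (Fin a → ℝ) × (Fin b → ℝ)),
    ∀ c ∈ csA P (η r O) O x, ‖ap s c‖ ≤ C

section deriv

variable {Z s : Stt} {P : NUO.Par} {n n' : ℕ} {η η' : Crs} {Ψ : Ins} {C : ℝ}

/-- finiteness with a bounded factor -/
theorem FA_mul_lt (hM : MC Z P η η') (hΨ : MIn Ψ) (hf : FA Z P n n' η η' Ψ < ∞) {Φ : Ins}
    (hΦ : MIn Φ) {K : ℝ} (hK : ∀ r ≤ n + n', ∀ (O : Fin r → Xo) (a b : ℕ), a ≤ n → b ≤ n' →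
      ∀ (x : (Fin a → ℝ) × (Fin b → ℝ)), ‖Φ r O a b x‖ ≤ K) :
    FA Z P n n' η η' (fun r O a b x => Ψ r O a b x * Φ r O a b x) < ∞ := by
  have hm : MIn (fun r O a b x => Ψ r O a b x * Φ r O a b x) := fun r a b => (hΨ r a b).mul (hΦ r a b)
  rw [FA_eq hM hm]
  rw [FA_eq hM hΨ] at hf
  refine lt_of_le_of_lt (b := ENNReal.ofReal K *
    ∫⁻ c, ‖wC Z P n n' η η' c‖ₑ * ‖ev Ψ c‖ₑ ∂(mC n n')) ?_ (ENNReal.mul_lt_top
      ENNReal.ofReal_lt_top hf)
  rw [← lintegral_const_mul' _ _ ENNReal.ofReal_ne_top]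
  refine lintegral_mono fun c => ?_
  have h1 : ‖ev (n := n) (n' := n') (fun r O a b x => Ψ r O a b x * Φ r O a b x) c‖ₑ =
      ‖ev Ψ c‖ₑ * ‖ev Φ c‖ₑ := enorm_mul _ _
  have h2 : ‖ev Φ c‖ₑ ≤ ENNReal.ofReal K := by
    rw [← ofReal_norm]
    refine ENNReal.ofReal_le_ofReal (hK _ ?_ _ _ _ ?_ ?_ _)
    · have := c.1.1.2
      omega
    · have := c.1.2.1.2
      omega
    · have := c.1.2.2.2
      omega
  rw [h1]
  calc ‖wC Z P n n' η η' c‖ₑ * (‖ev Ψ c‖ₑ * ‖ev Φ c‖ₑ)
      = ‖ev Φ c‖ₑ * (‖wC Z P n n' η η' c‖ₑ * ‖ev Ψ c‖ₑ) := by ring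
    _ ≤ _ := mul_le_mul' h2 le_rfl

theorem norm_Fa_tw_le (hC : 0 ≤ C) (hB : CBd s P η (n + n') C) {ε : ℂ} (hε : ‖ε‖ ≤ 1)
    {r : ℕ} (hr : r ≤ n + n') (O : Fin r → Xo) {a b : ℕ} (ha : a ≤ n) (hb : b ≤ n')
    (x : (Fin a → ℝ) × (Fin b → ℝ)) :
    ‖Fa (fun c k z => 1 + ε * s c k z) P η r O a b x‖ ≤ (1 + C) ^ (4 * (n + n')) := by
  rw [Fa_tw]
  refine (norm_lp_le hC (fun z hz => ?_) hε).trans (pow_le_pow_right₀ (by linarith) ?_)
  · rw [List.mem_map] at hz
    obtain ⟨c, hc, rfl⟩ := hz
    exact hB r hr O a b x c hc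
  · rw [List.length_map]
    have := csA_length P (η r O) O x
    omega

theorem norm_StF_le (hB : CBd s P η (n + n') C)
    {r : ℕ} (hr : r ≤ n + n') (O : Fin r → Xo) {a b : ℕ} (ha : a ≤ n) (hb : b ≤ n')
    (x : (Fin a → ℝ) × (Fin b → ℝ)) (hC : 0 ≤ C) :
    ‖StF s P η r O a b x‖ ≤ (4 * (n + n') : ℕ) * C := by
  unfold StF
  have key : ∀ L : List ℂ, (∀ z ∈ L, ‖z‖ ≤ C) → ‖L.sum‖ ≤ L.length * C := by
    intro L
    induction L with
    | nil => simp
    | cons z L ih =>
      intro h
      rw [List.sum_cons, List.length_cons]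
      refine (norm_add_le _ _).trans ?_
      have h1 := h z List.mem_cons_self
      have h2 := ih fun b hb => h b (List.mem_cons_of_mem _ hb)
      push_cast
      linarith
  refine (key _ fun z hz => ?_).trans (mul_le_mul_of_nonneg_right ?_ hC)
  · rw [List.mem_map] at hz
    obtain ⟨c, hc, rfl⟩ := hz
    exact hB r hr O a b x c hc
  · rw [List.length_map]
    have := csA_length P (η r O) O x
    exact_mod_cast this.trans (by omega)

/-- **the derivative at `ε = 0` is the insertion of the statistic** -/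
theorem hasDerivAt_FF (hP : ∀ r, Measurable (P.rad r)) (hZ : ∀ s k, Measurable (Z s k))
    (hc : MCr η η') (hΨ : MIn Ψ) (hf : FA Z P n n' η η' Ψ < ∞) (hs : ∀ c k, Measurable (s c k))
    (hC : 0 ≤ C) (hB : CBd s P η (n + n') C) :
    HasDerivAt (fun ε : ℂ => FF (tw Z s ε) P n n' η η' Ψ)
      (FF Z P n n' η η' fun r O a b x => Ψ r O a b x * StF s P η r O a b x) 0 := by
  have hM := MC.of hP hZ hc
  have hI := WI_of hM hΨ hf
  have key := hasDerivAt_Flist (μ := mC n n') (w := wC Z P n n' η η') (O := ev Ψ) hI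
    (L := fun c => (csA P (η c.1.1 c.2.1) c.2.1 c.2.2).map (ap s)) (N := 4 * (n + n')) (C := C) hC
    (fun c => by
      rw [List.length_map]
      have h1 := csA_length P (η c.1.1 c.2.1) c.2.1 c.2.2
      have h2 := c.1.1.2
      have h3 := c.1.2.1.2
      have h4 := c.1.2.2.2
      omega)
    (fun c z hz => by
      rw [List.mem_map] at hz
      obtain ⟨d, hd, rfl⟩ := hz
      have h2 := c.1.1.2
      exact hB _ (by omega) _ _ _ _ d hd)
    (fun ε => by
      have h1 : MIn (Fa (fun c k z => 1 + ε * s c k z) P η) :=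
        MIn.Fa hP (fun c k => ((hs c k).const_mul ε).const_add 1) hc
      refine (congrArg (fun f => AEStronglyMeasurable f (mC n n')) (funext fun c => ?_)).mpr
        h1.ev.aestronglyMeasurable
      exact (Fa_tw s ε P η c.2.1 c.2.2).symm)
    ((MIn.StF hP hs hc).ev.aestronglyMeasurable)
  have hmS : MIn fun r O a b x => Ψ r O a b x * StF s P η r O a b x := fun r a b =>
    (hΨ r a b).mul (MIn.StF hP hs hc r a b)
  have hfS := FA_mul_lt hM hΨ hf (MIn.StF hP hs hc)
    (fun r hr O a b ha hb x => norm_StF_le hB hr O ha hb x hC)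
  refine (key.congr_deriv ?_).congr_of_eventuallyEq ?_
  · rw [FF_eq hM hmS hfS]
    rfl
  · have hball : Metric.ball (0 : ℂ) 1 ∈ nhds (0 : ℂ) := Metric.ball_mem_nhds _ one_pos
    filter_upwards [hball] with ε hε
    have hε' : ‖ε‖ ≤ 1 := by
      rw [Metric.mem_ball, dist_zero_right] at hε
      exact hε.le
    have h1 : MIn (Fa (fun c k z => 1 + ε * s c k z) P η) :=
      MIn.Fa hP (fun c k => ((hs c k).const_mul ε).const_add 1) hc
    have hm : MIn fun r O a b x => Ψ r O a b x *
        Fa (fun c k z => 1 + ε * s c k z) P η r O a b x := fun r a b => (hΨ r a b).mul (h1 r a b)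
    have hf1 := FA_mul_lt hM hΨ hf h1
      (fun r hr O a b ha hb x => norm_Fa_tw_le hC hB hε' hr O ha hb x)
    have e1 : FF (tw Z s ε) P n n' η η' Ψ = FF Z P n n' η η' fun r O a b x =>
        Ψ r O a b x * Fa (fun c k z => 1 + ε * s c k z) P η r O a b x := by
      have := FF_mul Z (fun c k z => 1 + ε * s c k z) P n n' η η' Ψ
      refine Eq.trans ?_ (this.trans ?_)
      · rfl
      · congr 1
        funext r O a b x
        ring
    rw [e1, FF_eq hM hm hf1]
    unfold F
    refine integral_congr_ae (Filter.Eventually.of_forall fun c => ?_)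
    show wC Z P n n' η η' c * (Ψ _ _ _ _ _ * Fa (fun c k z => 1 + ε * s c k z) P η _ _ _ _ _) =
      wC Z P n n' η η' c * (ev Ψ c * lp ((csA P (η c.1.1 c.2.1) c.2.1 c.2.2).map (ap s)) ε)
    rw [Fa_tw]
    rfl

end deriv

end PBF

end
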