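import Pool.Agent.PB.InvT
import Pool.Agent.PB.MFh

/-!
# Plan B: convolutions of an inverse transform with the kernels of the gas (helper76)

* `Vh k = ∫ V u cos (k u) du`, `Vh_pos`: its value; **`cV_iT`**;
* `Kg_four`: `Kg u = -2 ∫_{k>0} mm k sin (u k) dk`, `mm k = (2 cosh (l k) - 1) / sinh (π k / 2)`;
* **`cG_iT`**: `cG (iT B) z = i ∫_{k>0} mm k (B k e^{ikz} - B (-k) e^{-ikz}) dk`.
-/

set_option autoImplicit false

open MeasureTheory Complex Filter Topology Set
open scoped ENNReal FourierTransform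

noncomputable section

namespace PBE.G76

open NUMF PB Pool.Agent.PB PBE

/-- the transform of the potential -/
def Vh (k : ℝ) : ℝ := ∫ u : ℝ, V u * Real.cos (k * u)

lemma Vh_neg (k : ℝ) : Vh (-k) = Vh k := by
  unfold Vh
  refine integral_congr_ae (Eventually.of_forall fun u => ?_)
  simp only [neg_mul, Real.cos_neg]

lemma Vh_pos {k : ℝ} (hk : 0 < k) :
    Vh k = 2 * Real.pi * ((ck1 k - 1) * (2 * ck1 k - 1) * (2 * ck1 k + 1) ^ 2 / (k * sk k)) :=
  (V_forward hk).2

lemma tr_V (k : ℝ) : ∫ u : ℝ, (V u : ℂ) * cexp (-(I * k * u)) = (Vh k : ℂ) := by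
  have hV : Integrable fun u => (V u : ℂ) := V_integral.1.ofReal
  have hi : ∀ k : ℝ, Integrable fun u : ℝ => (V u : ℂ) * cexp (-(I * k * u)) := by
    intro k
    refine hV.mul_bdd (c := 1) (Continuous.aestronglyMeasurable (by fun_prop))
      (Eventually.of_forall fun u => ?_)
    rw [norm_exp]
    simp
  have e1 : ∫ u : ℝ, (V u : ℂ) * cexp (-(I * k * u)) = ∫ u : ℝ, (V u : ℂ) * cexp (I * k * u) := by
    rw [← integral_neg_eq_self (fun u : ℝ => (V u : ℂ) * cexp (-(I * k * u)))]
    refine integral_congr_ae (Eventually.of_forall fun u => ?_)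
    simp only
    rw [V_even]
    congr 2
    push_cast
    ring
  have i2 : Integrable fun u : ℝ => (V u : ℂ) * cexp (I * k * u) := by
    have := hi (-k)
    refine this.congr (Eventually.of_forall fun u => ?_)
    simp only
    congr 2
    push_cast
    ring
  have e2 : ((2 : ℂ)) * ∫ u : ℝ, (V u : ℂ) * cexp (-(I * k * u)) = 2 * (Vh k : ℂ) := by
    rw [two_mul]
    nth_rewrite 2 [e1]
    rw [← integral_add (hi k) i2]
    unfold Vh
    rw [← integral_complex_ofReal, ← integral_const_mul]
    refine integral_congr_ae (Eventually.of_forall fun u => ?_)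
    simp only
    push_cast
    rw [Complex.cos]
    rw [show (-(I * k * u) : ℂ) = -(k * u) * I by ring, show (I * k * u : ℂ) = (k * u) * I by ring]
    ring
  exact mul_left_cancel₀ two_ne_zero e2

section

variable {a y K : ℝ} {B : ℂ → ℂ}

/-- **convolution with the total potential** -/
theorem cV_iT (hB : BC a y K B) (ha : 0 < a) {z : ℂ} (hz : |z.im| < y) :
    Integrable (fun k : ℝ => B k * (Vh k : ℂ) * cexp (I * k * z)) ∧
    cV (iT B) z = (2 * Real.pi : ℂ)⁻¹ * ∫ k : ℝ, B k * (Vh k : ℂ) * cexp (I * k * z) := by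
  have hi := hB.int_ei0 ha hz
  have hV : Integrable fun u => (V u : ℂ) := V_integral.1.ofReal
  have hp : Integrable (fun p : ℝ × ℝ => (V p.1 : ℂ) * (B p.2 * cexp (I * p.2 * z)))
      (volume.prod volume) := hV.mul_prod hi
  have hq : Integrable (fun p : ℝ × ℝ => ((V p.1 : ℂ) * (B p.2 * cexp (I * p.2 * z))) *
      cexp (-(I * p.2 * p.1))) (volume.prod volume) := by
    refine hp.mul_bdd (c := 1) (Continuous.aestronglyMeasurable (by fun_prop))
      (Eventually.of_forall fun p => ?_)
    rw [norm_exp]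
    simp
  have e1 : ∀ u : ℝ, iT B (z - u) * (V u : ℂ) = (2 * Real.pi : ℂ)⁻¹ *
      ∫ k : ℝ, ((V u : ℂ) * (B k * cexp (I * k * z))) * cexp (-(I * k * u)) := by
    intro u
    unfold iT
    rw [mul_assoc, ← integral_mul_const]
    congr 1
    refine integral_congr_ae (Eventually.of_forall fun k => ?_)
    simp only
    rw [mul_assoc (V u : ℂ), mul_assoc (B k) (cexp _) (cexp _), ← Complex.exp_add, mul_comm (V u : ℂ)]
    congr 3
    ring
  have e3 : ∀ k : ℝ, ∫ u : ℝ, ((V u : ℂ) * (B k * cexp (I * k * z))) * cexp (-(I * k * u)) =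
      B k * (Vh k : ℂ) * cexp (I * k * z) := by
    intro k
    have e2 : B k * (Vh k : ℂ) * cexp (I * k * z) =
        (B k * cexp (I * k * z)) * ∫ u : ℝ, (V u : ℂ) * cexp (-(I * k * u)) := by
      rw [tr_V k]
      ring
    rw [e2, ← integral_const_mul]
    refine integral_congr_ae (Eventually.of_forall fun u => ?_)
    simp only
    ring
  constructor
  · have h := hq.integral_prod_right
    simp only at h
    simp_rw [e3] at h
    exact h
  · unfold cV
    simp_rw [e1]
    rw [integral_const_mul, integral_integral_swap hq]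
    simp_rw [e3]

end

/-! ### the cross kernel -/

/-- imaginary part of the tangent -/
lemma im_tan (x y : ℝ) : (Complex.tan (x + y * I)).im =
    Real.sinh (2 * y) / (Real.cosh (2 * y) + Real.cos (2 * x)) := by
  rw [Complex.tan, Complex.sin_add_mul_I, Complex.cos_add_mul_I]
  have e1 : (Complex.sin x * Complex.cosh y + Complex.cos x * Complex.sinh y * I : ℂ) =
      ((Real.sin x * Real.cosh y : ℝ) : ℂ) + ((Real.cos x * Real.sinh y : ℝ) : ℂ) * I := by
    push_cast
    ring
  have e2 : (Complex.cos x * Complex.cosh y - Complex.sin x * Complex.sinh y * I : ℂ) =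
      ((Real.cos x * Real.cosh y : ℝ) : ℂ) + ((-(Real.sin x * Real.sinh y) : ℝ) : ℂ) * I := by
    push_cast
    ring
  rw [e1, e2, Complex.div_im, Complex.normSq_add_mul_I]
  simp only [add_re, ofReal_re, mul_re, I_re, mul_zero, ofReal_im, I_im, mul_one, sub_self,
    add_zero, add_im, mul_im, zero_add]
  have e3 : Real.sinh (2 * y) = 2 * Real.sinh y * Real.cosh y := Real.sinh_two_mul y
  have e4 : Real.cosh (2 * y) = Real.cosh y ^ 2 + Real.sinh y ^ 2 := Real.cosh_two_mul y
  have e5 : Real.cos (2 * x) = Real.cos x ^ 2 - Real.sin x ^ 2 := Real.cos_two_mul' x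
  have e6 := Real.sin_sq_add_cos_sq x
  have e7 := Real.cosh_sq y
  have e8 : (Real.cos x * Real.cosh y) ^ 2 + (-(Real.sin x * Real.sinh y)) ^ 2 =
      (Real.cosh (2 * y) + Real.cos (2 * x)) / 2 := by
    rw [e4, e5]
    have e9 : Real.sin x ^ 2 = 1 - Real.cos x ^ 2 := by linarith
    rw [mul_pow, neg_sq, mul_pow, e7, e9]
    ring
  rw [e8, e3, ← sub_div]
  have e10 : Real.cos x * Real.sinh y * (Real.cos x * Real.cosh y) -
      Real.sin x * Real.cosh y * -(Real.sin x * Real.sinh y) = Real.sinh y * Real.cosh y := by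
    linear_combination (Real.sinh y * Real.cosh y) * e6
  rw [e10, div_div_eq_mul_div]
  ring

/-- the integrand of the imaginary part -/
lemma im_tk (x y : ℝ) (k : ℝ) : (tk (x + y * I) k).im = Real.cosh (x * k) * Real.sin (y * k) / sk k := by
  unfold tk
  rw [Complex.div_ofReal_im]
  congr 1
  have : ((x + y * I) * k : ℂ) = ((x * k : ℝ) : ℂ) + ((y * k : ℝ) : ℂ) * I := by
    push_cast
    ring
  rw [this, Complex.sinh_add, Complex.sinh_mul_I, Complex.cosh_mul_I, ← ofReal_sinh, ← ofReal_cosh,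
    ← ofReal_sin, ← ofReal_cos]
  simp only [add_im, mul_im, mul_re, ofReal_re, ofReal_im, I_re, I_im]
  ring

lemma tan_four {x : ℝ} (hx : |x| < Real.pi / 2) (u : ℝ) :
    IntegrableOn (fun k => Real.cosh (x * k) * Real.sin (u * k) / sk k) (Ioi 0) ∧
    ∫ k in Ioi (0 : ℝ), Real.cosh (x * k) * Real.sin (u * k) / sk k =
      Real.sinh (2 * u) / (Real.cosh (2 * u) + Real.cos (2 * x)) := by
  have hre : |((x : ℂ) + u * I).re| < Real.pi / 2 := by simpa using hx
  have hi := tk_integrable hre
  have h1 := hi.im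
  simp only [RCLike.im_eq_complex_im, im_tk] at h1
  refine ⟨h1, ?_⟩
  have h2 := congrArg Complex.im (tan_eq hre)
  rw [im_tan] at h2
  rw [← h2]
  have h3 := integral_im (μ := volume.restrict (Ioi (0 : ℝ))) hi
  simp only [RCLike.im_eq_complex_im, im_tk] at h3
  exact h3

/-- the multiplier of the cross kernel -/
def mm (k : ℝ) : ℝ := (2 * ck1 k - 1) / sk k

lemma mm_meas : Measurable mm := by
  unfold mm ck1
  have := sk_meas
  fun_prop

lemma mm_nonneg {k : ℝ} (hk : 0 < k) : 0 ≤ mm k := by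
  unfold mm
  have h1 := sk_pos hk
  have h2 : 1 ≤ ck1 k := Real.one_le_cosh _
  exact div_nonneg (by linarith) h1.le

/-- **the cross kernel as an integral over the frequencies** -/
theorem Kg_four (u : ℝ) : IntegrableOn (fun k => mm k * Real.sin (u * k)) (Ioi 0) ∧
    Kg u = -2 * ∫ k in Ioi (0 : ℝ), mm k * Real.sin (u * k) := by
  have hl := l_pos
  have hl2 : |l| < Real.pi / 2 := by
    rw [abs_of_pos hl]
    unfold l
    have := Real.pi_pos
    linarith
  obtain ⟨i0, e0⟩ := tan_four (x := 0) (by rw [abs_zero]; positivity) u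
  obtain ⟨i1, e1⟩ := tan_four (x := l) hl2 u
  have hm : ∀ k, mm k * Real.sin (u * k) = 2 * (Real.cosh (l * k) * Real.sin (u * k) / sk k) -
      Real.cosh (0 * k) * Real.sin (u * k) / sk k := by
    intro k
    unfold mm ck1
    rw [zero_mul, Real.cosh_zero]
    ring
  constructor
  · refine IntegrableOn.congr_fun ?_ (fun k _ => (hm k).symm) measurableSet_Ioi
    exact (i1.const_mul 2).sub i0
  · simp_rw [hm]
    rw [integral_sub (i1.const_mul 2) i0, integral_const_mul, e0, e1]
    have : Real.cos (2 * l) = r := by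
      rw [r_eq]
      unfold l
      congr 1
      ring
    rw [this, mul_zero, Real.cos_zero]
    unfold Kg
    ring

section

variable {a y K : ℝ} {B : ℂ → ℂ}

/-- the transform on the line of `z` -/
theorem iT_line (hB : BC a y K B) (ha : 0 < a) {z : ℂ} (hz : |z.im| < y) (k : ℝ) :
    Integrable (fun u : ℝ => iT B (z - u) * cexp (I * k * u)) ∧
    ∫ u : ℝ, iT B (z - u) * cexp (I * k * u) = cexp (I * k * z) * B k := by
  obtain ⟨b, hb1, hb2⟩ := exists_between hz
  have hb0 : 0 < b := (abs_nonneg _).trans_lt hb1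
  have hT := iT_TC hB (κ := a / 2) (by positivity) (by linarith) hb2
  have hz' := abs_lt.1 hb1
  have hk : |((k : ℂ)).im| < a / 2 := by
    rw [ofReal_im, abs_zero]
    positivity
  have hM := hT.nonneg (by linarith) hb0
  have hi := hT.int_ek (y := z.im) hz'.1 hz'.2 hM hk
  have he : ∀ u : ℝ, iT B (z - u) * cexp (I * k * u) = cexp (I * k * z) *
      (fun s : ℝ => iT B (s + z.im * I) * cexp (-(I * k * (s + z.im * I)))) (z.re - u) := by
    intro u
    have e1 : z - u = ((z.re - u : ℝ) : ℂ) + z.im * I := sub_ln z u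
    simp only
    rw [← e1, mul_left_comm, ← Complex.exp_add]
    congr 2
    ring
  constructor
  · simp_rw [he]
    exact (hi.comp_sub_left z.re).const_mul _
  · simp_rw [he]
    rw [integral_const_mul, integral_sub_left_eq_self
      (fun s : ℝ => iT B (s + z.im * I) * cexp (-(I * k * (s + z.im * I)))) volume z.re,
      ← tr_shift hT (by linarith) hb0 hz'.1 hz'.2 hk, tr_iT hB (hb0.trans hb2) (by simpa using ha)]

lemma sin_cexp (k u : ℝ) : ((Real.sin (u * k) : ℝ) : ℂ) =
    (cexp (I * k * u) - cexp (I * ((-k : ℝ) : ℂ) * u)) / (2 * I) := by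
  rw [Complex.ofReal_sin, Complex.sin]
  have h2 : (2 * I : ℂ) ≠ 0 := mul_ne_zero two_ne_zero I_ne_zero
  rw [eq_div_iff h2]
  push_cast
  rw [show (-(u * k) * I : ℂ) = I * -k * u by ring, show ((u * k) * I : ℂ) = I * k * u by ring]
  linear_combination (cexp (I * -k * u) - cexp (I * k * u)) * I_sq

theorem iT_sin (hB : BC a y K B) (ha : 0 < a) {z : ℂ} (hz : |z.im| < y) (k : ℝ) :
    ∫ u : ℝ, iT B (z - u) * ((Real.sin (u * k) : ℝ) : ℂ) =
      (B k * cexp (I * k * z) - B ((-k : ℝ) : ℂ) * cexp (I * ((-k : ℝ) : ℂ) * z)) / (2 * I) := by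
  obtain ⟨i1, e1⟩ := iT_line hB ha hz k
  obtain ⟨i2, e2⟩ := iT_line hB ha hz (-k)
  have he : ∀ u : ℝ, iT B (z - u) * ((Real.sin (u * k) : ℝ) : ℂ) =
      (iT B (z - u) * cexp (I * k * u) - iT B (z - u) * cexp (I * ((-k : ℝ) : ℂ) * u)) / (2 * I) := by
    intro u
    rw [sin_cexp]
    ring
  simp_rw [he]
  rw [integral_div, integral_sub i1 i2, e1, e2]
  ring

/-- **convolution with the cross kernel** -/
theorem cG_iT (hB : BC a y K B) (ha : 0 < a) {z : ℂ} (hz : |z.im| < y) :
    IntegrableOn (fun k : ℝ => (mm k : ℂ) *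
      (B k * cexp (I * k * z) - B ((-k : ℝ) : ℂ) * cexp (I * ((-k : ℝ) : ℂ) * z))) (Ioi 0) ∧
    cG (iT B) z = I * ∫ k in Ioi (0 : ℝ), (mm k : ℂ) *
      (B k * cexp (I * k * z) - B ((-k : ℝ) : ℂ) * cexp (I * ((-k : ℝ) : ℂ) * z)) := by
  -- the function of `u`
  obtain ⟨b, hb1, hb2⟩ := exists_between hz
  have hb0 : 0 < b := (abs_nonneg _).trans_lt hb1
  have hK := hB.nonneg ha
  obtain ⟨C0, hC0⟩ : ∃ C0 : ℝ, C0 = K * ((2 * Real.pi)⁻¹ * (2 / (y - b))) := ⟨_, rfl⟩
  have hC00 : 0 ≤ C0 := by
    rw [hC0]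
    have : 0 ≤ 2 / (y - b) := div_nonneg zero_le_two (by linarith)
    positivity
  have hle : ∀ u : ℝ, ‖iT B (z - u)‖ ≤ C0 * Real.exp (-(a / 2 * |z.re - u|)) := by
    intro u
    have h := iT_le hB (κ := a / 2) (by positivity) (by linarith) hb2 (z := z - u)
      (by simpa using hb1.le)
    rw [← hC0] at h
    simpa using h
  have hcont : Continuous fun u : ℝ => iT B (z - u) := by
    rw [continuous_iff_continuousAt]
    intro u
    have := (iT_deriv hB ha (z := z - u) (by simpa using hz)).continuousAt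
    exact ContinuousAt.comp (f := fun u : ℝ => z - u) this (by fun_prop)
  have hi1 : Integrable fun u : ℝ => iT B (z - u) * (u : ℂ) := by
    have hd : (0 : ℝ) < a / 4 := by positivity
    have hI := (int_exp_abs hd).1.const_mul (C0 * ((|z.re| + 1 / (a / 4))))
    have hI2 := hI.comp_sub_left z.re
    refine hI2.mono' (hcont.mul (by fun_prop)).aestronglyMeasurable
      (Eventually.of_forall fun u => ?_)
    rw [norm_mul, Complex.norm_real, Real.norm_eq_abs]
    have h2 : |u| ≤ (|z.re| + 1 / (a / 4)) * Real.exp (a / 4 * |z.re - u|) := by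
      have h3 : |u| ≤ |z.re| + |z.re - u| := by
        have := abs_sub_abs_le_abs_sub u z.re
        rw [abs_sub_comm] at this
        linarith
      have h4 : |z.re - u| ≤ 1 / (a / 4) * Real.exp (a / 4 * |z.re - u|) := by
        have := Real.add_one_le_exp (a / 4 * |z.re - u|)
        rw [one_div, inv_mul_eq_div, le_div_iff₀ hd]
        linarith
      have h5 : (1 : ℝ) ≤ Real.exp (a / 4 * |z.re - u|) := Real.one_le_exp (by positivity)
      have h6 : |z.re| ≤ |z.re| * Real.exp (a / 4 * |z.re - u|) :=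
        le_mul_of_one_le_right (abs_nonneg _) h5
      linarith
    calc ‖iT B (z - u)‖ * |u| ≤ (C0 * Real.exp (-(a / 2 * |z.re - u|))) *
          ((|z.re| + 1 / (a / 4)) * Real.exp (a / 4 * |z.re - u|)) :=
          mul_le_mul (hle u) h2 (abs_nonneg _) (by positivity)
      _ = C0 * (|z.re| + 1 / (a / 4)) * (Real.exp (-(a / 2 * |z.re - u|)) *
          Real.exp (a / 4 * |z.re - u|)) := by ring
      _ = _ := by
          rw [← Real.exp_add]
          congr 2
          ring
  -- the function of `k`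
  have hi2 : IntegrableOn (fun k : ℝ => ((mm k * k : ℝ) : ℂ)) (Ioi 0) := by
    have hl := l_pos
    have hl2 : l < Real.pi / 2 := by
      unfold l
      have := Real.pi_pos
      linarith
    have hm := mm_meas
    refine Integrable.mono' ((dom_integrable hl2).const_mul 2) (by fun_prop) ?_
    filter_upwards [ae_restrict_mem measurableSet_Ioi] with k hk
    have hk' : 0 < k := hk
    have hs := sk_pos hk'
    rw [Complex.norm_real, Real.norm_eq_abs, abs_of_nonneg (mul_nonneg (mm_nonneg hk') hk'.le)]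
    unfold mm dom ck1
    have h1 : Real.cosh (l * k) ≤ Real.exp (l * k) := by
      refine cosh_le_exp ?_
      rw [abs_of_nonneg (by positivity)]
    rw [div_mul_eq_mul_div, mul_div_assoc, ← mul_assoc]
    refine mul_le_mul_of_nonneg_right (by linarith) (by positivity)
  have hprod := Integrable.mul_prod (μ := volume) (ν := volume.restrict (Ioi (0 : ℝ))) hi1 hi2
  have hm := mm_meas
  have hf : Integrable (fun p : ℝ × ℝ => iT B (z - p.1) * ((mm p.2 * Real.sin (p.1 * p.2) : ℝ) : ℂ))
      (volume.prod (volume.restrict (Ioi (0 : ℝ)))) := by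
    refine hprod.mono ?_ ?_
    · refine AEStronglyMeasurable.mul ?_ ?_
      · exact (hcont.comp continuous_fst).aestronglyMeasurable
      · exact Measurable.aestronglyMeasurable (by fun_prop)
    · have hae : ∀ᵐ p : ℝ × ℝ ∂(volume.prod (volume.restrict (Ioi (0 : ℝ)))), p.2 ∈ Ioi (0 : ℝ) := by
        exact Measure.quasiMeasurePreserving_snd.ae (ae_restrict_mem measurableSet_Ioi)
      filter_upwards [hae] with p hp
      have hp' : 0 < p.2 := hp
      rw [norm_mul, norm_mul, norm_mul, Complex.norm_real, Complex.norm_real, Complex.norm_real,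
        Real.norm_eq_abs, Real.norm_eq_abs, Real.norm_eq_abs, mul_assoc]
      refine mul_le_mul_of_nonneg_left ?_ (norm_nonneg _)
      rw [abs_mul, abs_mul]
      have h1 : |Real.sin (p.1 * p.2)| ≤ |p.1| * |p.2| := by
        rw [← abs_mul]
        exact Real.abs_sin_le_abs
      calc |mm p.2| * |Real.sin (p.1 * p.2)| ≤ |mm p.2| * (|p.1| * |p.2|) :=
            mul_le_mul_of_nonneg_left h1 (abs_nonneg _)
        _ = _ := by ring
  have e1 : ∀ u : ℝ, iT B (z - u) * (Kg u : ℂ) = -2 *
      ∫ k in Ioi (0 : ℝ), iT B (z - u) * ((mm k * Real.sin (u * k) : ℝ) : ℂ) := by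
    intro u
    rw [integral_const_mul, integral_complex_ofReal, (Kg_four u).2]
    push_cast
    ring
  have e2 : ∀ k : ℝ, ∫ u : ℝ, iT B (z - u) * ((mm k * Real.sin (u * k) : ℝ) : ℂ) =
      (2 * I)⁻¹ * ((mm k : ℂ) *
        (B k * cexp (I * k * z) - B ((-k : ℝ) : ℂ) * cexp (I * ((-k : ℝ) : ℂ) * z))) := by
    intro k
    have e3 : ∀ u : ℝ, iT B (z - u) * ((mm k * Real.sin (u * k) : ℝ) : ℂ) =
        (mm k : ℂ) * (iT B (z - u) * ((Real.sin (u * k) : ℝ) : ℂ)) := by
      intro u
      push_cast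
      ring
    simp_rw [e3]
    rw [integral_const_mul, iT_sin hB ha hz k]
    ring
  have h2 : (2 * I : ℂ) ≠ 0 := mul_ne_zero two_ne_zero I_ne_zero
  constructor
  · have h := hf.integral_prod_right
    simp only at h
    simp_rw [e2] at h
    have h3 := h.const_mul (2 * I)
    refine h3.congr (Eventually.of_forall fun k => ?_)
    simp only
    rw [mul_inv_cancel_left₀ h2]
  · unfold cG
    simp_rw [e1]
    rw [integral_const_mul, integral_integral_swap hf]
    simp_rw [e2]
    rw [integral_const_mul, ← mul_assoc]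
    congr 1
    rw [mul_inv, Complex.inv_I]
    ring

end

end PBE.G76
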