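import Pool.Agent.PB.InvM

/-!
# Plan B: the field of a test function (helper90)

`fld B z = (2π)⁻¹ ∫ B k e^{ikz} dk` for `B` analytic in `|Im k| < a`, `‖B k‖ ≤ K e^{-b |Re k|}`
(that is `TC (-a) a b K B`):
* **`fld_TC`**: `fld B` is a test function of the strip `|Im z| < b'`, rate `κ < a`;
* `tr_fld`: its transform is `B`;
* `deriv_fld`: the derivative;
* `cV_fld`, `cG_fld`: the convolutions with `V` and `Kg`;
* **`inv_plus`, `inv_minus`**: the fields of test functions.
-/

set_option autoImplicit false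

open MeasureTheory Complex Filter Topology Set

noncomputable section

namespace PBE

open NUMF

/-- the inverse transform -/
def fld (B : ℂ → ℂ) (z : ℂ) : ℂ := (2 * Real.pi : ℂ)⁻¹ * ∫ k : ℝ, B k * cexp (I * k * z)

lemma fld_eq (B : ℂ → ℂ) (z : ℂ) : fld B z = (2 * Real.pi : ℂ)⁻¹ * tr B (-z) := by
  unfold fld tr
  congr 1
  refine integral_congr_ae (Eventually.of_forall fun k => ?_)
  simp only []
  congr 2
  ring

lemma norm_2pi : ‖((2 * Real.pi : ℂ)⁻¹)‖ = (2 * Real.pi)⁻¹ := by
  rw [norm_inv, norm_mul, Complex.norm_real]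
  simp [abs_of_pos Real.pi_pos]

section

variable {a b K : ℝ} {B : ℂ → ℂ}

theorem fld_TC (hB : TC (-a) a b K B) (ha : 0 < a) {κ b' : ℝ} (hκ0 : 0 ≤ κ) (hκ : κ < a)
    (hb' : b' < b) :
    TC (-b') b' κ (K * (2 / (b - b')) / (2 * Real.pi)) (fld B) where
  an := by
    have h1 := tr_diff hB (by linarith) ha
    intro z hz
    have h2 : |z.im| < b' := abs_lt.2 hz
    have h3 : |(-z).im| < b := by
      rw [neg_im, abs_neg]
      linarith
    have hopen : IsOpen {k : ℂ | |k.im| < b} := isOpen_lt (by fun_prop) continuous_const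
    have h4 : DifferentiableAt ℂ (tr B) (-z) := h1.differentiableAt (hopen.mem_nhds h3)
    have h5 : DifferentiableAt ℂ (fun z => tr B (-z)) z :=
      DifferentiableAt.comp (f := fun z : ℂ => -z) z h4 (by fun_prop)
    have h6 : fld B = fun z => (2 * Real.pi : ℂ)⁻¹ * tr B (-z) := funext (fld_eq B)
    rw [h6]
    exact (h5.const_mul _).differentiableWithinAt
  bd := by
    intro z hz
    have h2 : |z.im| < b' := abs_lt.2 hz
    have h3 : |(-z).im| < b := by
      rw [neg_im, abs_neg]
      linarith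
    have hK := hB.nonneg (by linarith) ha
    have h4 : ‖tr B (-z)‖ ≤ K * (2 / (b - |z.im|)) * Real.exp (-(κ * |z.re|)) := by
      rcases le_total 0 z.re with h | h
      · have := tr_le hB (by linarith) ha (y := κ) (by linarith) hκ h3
        rw [neg_im, abs_neg, neg_re, mul_neg] at this
        rwa [abs_of_nonneg h]
      · have := tr_le hB (by linarith) ha (y := -κ) (by linarith) (by linarith) h3
        rw [neg_im, abs_neg, neg_re, neg_mul_neg] at this
        rw [abs_of_nonpos h, mul_neg, neg_neg]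
        exact this
    rw [fld_eq, norm_mul, norm_2pi]
    have h5 : 2 / (b - |z.im|) ≤ 2 / (b - b') :=
      div_le_div_of_nonneg_left (by norm_num) (by linarith) (by linarith)
    calc (2 * Real.pi)⁻¹ * ‖tr B (-z)‖
        ≤ (2 * Real.pi)⁻¹ * (K * (2 / (b - b')) * Real.exp (-(κ * |z.re|))) := by
          refine mul_le_mul_of_nonneg_left (h4.trans ?_) (by have := Real.pi_pos; positivity)
          exact mul_le_mul_of_nonneg_right (mul_le_mul_of_nonneg_left h5 hK) (Real.exp_pos _).le
      _ = _ := by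
          rw [div_eq_mul_inv]
          ring

/-- the transform of the field is `B` -/
theorem tr_fld (hB : TC (-a) a b K B) (ha : 0 < a) (hb : 0 < b) (k : ℝ) : tr (fld B) k = B k := by
  have h1 := (tr_inv hB hb (by linarith) ha (z := (k : ℂ)) ⟨by simpa using ha, by simpa using ha⟩).2
  rw [h1, ← integral_const_mul]
  change (∫ t : ℝ, fld B t * cexp (-(I * k * t))) = _
  have h2 : ∀ t : ℝ, fld B t * cexp (-(I * k * t)) =
      (fun s : ℝ => (2 * Real.pi : ℂ)⁻¹ * (tr B s * cexp (I * s * k))) (-t) := by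
    intro t
    simp only []
    rw [fld_eq]
    push_cast
    rw [mul_assoc]
    congr 3
    ring
  rw [integral_congr_ae (Eventually.of_forall h2)]
  exact integral_neg_eq_self
    (fun s : ℝ => (2 * Real.pi : ℂ)⁻¹ * (tr B s * cexp (I * s * k))) volume

/-- the derivative of the field -/
theorem deriv_fld (hB : TC (-a) a b K B) (ha : 0 < a) {z : ℂ} (hz : |z.im| < b) :
    deriv (fld B) z = (2 * Real.pi : ℂ)⁻¹ * ∫ k : ℝ, I * k * B k * cexp (I * k * z) := by
  have h3 : |(-z).im| < b := by rwa [neg_im, abs_neg]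
  have h1 := tr_hasDeriv hB (by linarith) ha h3
  have h2 : HasDerivAt (fun z : ℂ => tr B (-z)) ((∫ t : ℝ, B t * (-(I * t) * cexp (-(I * (-z) * t)))) *
      (-1)) z := HasDerivAt.comp (h := fun z : ℂ => -z) z h1 (hasDerivAt_neg z)
  have h6 : fld B = fun z => (2 * Real.pi : ℂ)⁻¹ * tr B (-z) := funext (fld_eq B)
  rw [h6, (h2.const_mul _).deriv, ← integral_mul_const]
  congr 1
  refine integral_congr_ae (Eventually.of_forall fun k => ?_)
  simp only []
  have e : -(I * (-z) * k) = I * k * z := by ring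
  rw [e]
  ring

/-- integrability of `k^j B k e^{ikz}` -/
lemma int_kB (hB : TC (-a) a b K B) (ha : 0 < a) {z : ℂ} (hz : |z.im| < b) :
    Integrable (fun k : ℝ => B k * cexp (I * k * z)) ∧
    Integrable (fun k : ℝ => I * k * B k * cexp (I * k * z)) := by
  have hK := hB.nonneg (by linarith) ha
  obtain ⟨d, hd⟩ : ∃ d : ℝ, d = (b - |z.im|) / 2 := ⟨_, rfl⟩
  have hd0 : 0 < d := by rw [hd]; linarith
  have hc : Continuous fun k : ℝ => B k := by
    have := hB.cont (y := 0) (by linarith) ha
    simpa using this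
  have hbd : ∀ k : ℝ, ‖B k‖ ≤ K * Real.exp (-(b * |k|)) := by
    intro k
    have := hB.bdl (y := 0) (by linarith) ha k
    simpa using this
  have he : ∀ k : ℝ, ‖cexp (I * k * z)‖ ≤ Real.exp (|z.im| * |k|) := by
    intro k
    rw [norm_exp]
    refine Real.exp_le_exp.2 ?_
    have e : (I * (k : ℂ) * z).re = -(k * z.im) := by simp
    rw [e, ← abs_mul, mul_comm]
    exact neg_le_abs _
  have h1 : ∀ k : ℝ, ‖B k * cexp (I * k * z)‖ ≤ K * Real.exp (-((2 * d) * |k|)) := by
    intro k
    rw [norm_mul]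
    calc ‖B k‖ * ‖cexp (I * k * z)‖ ≤ (K * Real.exp (-(b * |k|))) * Real.exp (|z.im| * |k|) :=
          mul_le_mul (hbd k) (he k) (norm_nonneg _) (by positivity)
      _ = K * Real.exp (-((2 * d) * |k|)) := by
          rw [mul_assoc, ← Real.exp_add]
          congr 2
          rw [hd]
          ring
  constructor
  · exact ((int_exp_abs (by linarith : 0 < 2 * d)).1.const_mul K).mono'
      (hc.mul (by fun_prop)).aestronglyMeasurable (Eventually.of_forall h1)
  · refine ((int_exp_abs hd0).1.const_mul (K / d)).mono'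
      (((continuous_const.mul continuous_ofReal).mul hc).mul (by fun_prop)).aestronglyMeasurable
      (Eventually.of_forall fun k => ?_)
    have e : I * k * B k * cexp (I * k * z) = (I * k) * (B k * cexp (I * k * z)) := by ring
    rw [e, norm_mul]
    have h2 : ‖I * (k : ℂ)‖ = |k| := by simp
    rw [h2]
    have h9 : |k| ≤ 1 / d * Real.exp (d * |k|) := by
      have := Real.add_one_le_exp (d * |k|)
      rw [one_div, inv_mul_eq_div, le_div_iff₀ hd0]
      linarith
    calc |k| * ‖B k * cexp (I * k * z)‖ ≤ (1 / d * Real.exp (d * |k|)) *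
          (K * Real.exp (-((2 * d) * |k|))) := mul_le_mul h9 (h1 k) (norm_nonneg _) (by positivity)
      _ = K / d * (Real.exp (d * |k|) * Real.exp (-((2 * d) * |k|))) := by ring
      _ = K / d * Real.exp (-(d * |k|)) := by
          rw [← Real.exp_add]
          congr 2
          ring

/-- Fubini -/
lemma swap_exp {F G : ℝ → ℂ} (hF : Integrable F) (hG : Integrable G) :
    (∫ u : ℝ, F u * (∫ k : ℝ, G k * cexp (-(I * k * u))) =
    ∫ k : ℝ, G k * (∫ u : ℝ, F u * cexp (-(I * k * u)))) ∧
    Integrable (fun k : ℝ => G k * (∫ u : ℝ, F u * cexp (-(I * k * u)))) := by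
  have h1 : Integrable (Function.uncurry fun (u k : ℝ) => F u * (G k * cexp (-(I * k * u))))
      (volume.prod volume) := by
    have h2 : Integrable (fun p : ℝ × ℝ => F p.1 * G p.2) (volume.prod volume) := hF.mul_prod hG
    refine h2.mono ?_ (Eventually.of_forall fun p => ?_)
    · have h3 : AEStronglyMeasurable (fun p : ℝ × ℝ => F p.1 * G p.2 * cexp (-(I * p.2 * p.1)))
          (volume.prod volume) :=
        h2.aestronglyMeasurable.mul (by fun_prop : Continuous fun p : ℝ × ℝ =>
          cexp (-(I * p.2 * p.1))).aestronglyMeasurable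
      refine h3.congr (Eventually.of_forall fun p => ?_)
      simp only [Function.uncurry]
      ring
    · simp only [Function.uncurry]
      rw [norm_mul, norm_mul, norm_mul]
      have : ‖cexp (-(I * (p.2 : ℂ) * (p.1 : ℂ)))‖ = 1 := by
        rw [norm_exp]
        simp
      rw [this, mul_one]
  have e2 : ∀ k : ℝ, ∫ u : ℝ, F u * (G k * cexp (-(I * k * u))) =
      G k * (∫ u : ℝ, F u * cexp (-(I * k * u))) := by
    intro k
    rw [← integral_const_mul]
    refine integral_congr_ae (Eventually.of_forall fun u => ?_)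
    simp only []
    ring
  constructor
  · calc ∫ u : ℝ, F u * (∫ k : ℝ, G k * cexp (-(I * k * u)))
        = ∫ u : ℝ, ∫ k : ℝ, F u * (G k * cexp (-(I * k * u))) := by
          refine integral_congr_ae (Eventually.of_forall fun u => ?_)
          simp only []
          rw [integral_const_mul]
      _ = ∫ k : ℝ, ∫ u : ℝ, F u * (G k * cexp (-(I * k * u))) := integral_integral_swap h1
      _ = _ := integral_congr_ae (Eventually.of_forall e2)
  · exact (h1.integral_prod_right).congr (Eventually.of_forall fun k => by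
      simp only [Function.uncurry]
      exact e2 k)

end

/-! ### the transform of `V` -/

/-- `(cosh 3y - 1) (2c - 1) / sinh 4y` -/
def sP (k : ℝ) : ℝ := (ck1 k - 1) * (2 * ck1 k - 1) * (2 * ck1 k + 1) ^ 2 / sk k

/-- `(cosh 3y + 1) (2c - 1) / sinh 4y` -/
def sM (k : ℝ) : ℝ := sP k + 2 * (2 * ck1 k - 1) / sk k

/-- the transform of `V` -/
def VhK (k : ℝ) : ℝ := ∫ u : ℝ, V u * Real.cos (k * u)

lemma VhK_neg (k : ℝ) : VhK (-k) = VhK k := by
  unfold VhK
  simp only [neg_mul, Real.cos_neg]

lemma k_VhK {k : ℝ} (hk : 0 < k) : k * VhK k = 2 * Real.pi * sP k := by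
  unfold VhK sP
  rw [(V_forward hk).2]
  have := (sk_pos hk).ne'
  field_simp

lemma ft_V' (k : ℝ) : ∫ u : ℝ, (V u : ℂ) * cexp (-(I * k * u)) = (VhK k : ℂ) := by
  have hV : Integrable fun u => (V u : ℂ) := V_integral.1.ofReal
  have hVc : Integrable fun u : ℝ => ((V u * Real.cos (k * u) : ℝ) : ℂ) := by
    have : Integrable fun u : ℝ => V u * Real.cos (k * u) := by
      refine V_integral.1.mono (V_integral.1.aestronglyMeasurable.mul
        (by fun_prop : Continuous fun u : ℝ => Real.cos (k * u)).aestronglyMeasurable)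
        (Eventually.of_forall fun u => ?_)
      rw [norm_mul]
      exact mul_le_of_le_one_right (norm_nonneg _) (Real.abs_cos_le_one _)
    exact this.ofReal
  have hVs : Integrable fun u : ℝ => ((V u * Real.sin (k * u) : ℝ) : ℂ) := by
    have : Integrable fun u : ℝ => V u * Real.sin (k * u) := by
      refine V_integral.1.mono (V_integral.1.aestronglyMeasurable.mul
        (by fun_prop : Continuous fun u : ℝ => Real.sin (k * u)).aestronglyMeasurable)
        (Eventually.of_forall fun u => ?_)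
      rw [norm_mul]
      exact mul_le_of_le_one_right (norm_nonneg _) (Real.abs_sin_le_one _)
    exact this.ofReal
  have h0 : ∫ u : ℝ, V u * Real.sin (k * u) = 0 := by
    have h1 := integral_neg_eq_self (fun u : ℝ => V u * Real.sin (k * u)) volume
    have h2 : ∀ u : ℝ, V (-u) * Real.sin (k * -u) = -(V u * Real.sin (k * u)) := by
      intro u
      rw [Pool.Agent.PB.V_even, mul_neg, Real.sin_neg]
      ring
    simp only [h2] at h1
    rw [integral_neg] at h1
    linarith
  have h3 : ∀ u : ℝ, (V u : ℂ) * cexp (-(I * k * u)) =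
      ((V u * Real.cos (k * u) : ℝ) : ℂ) - I * ((V u * Real.sin (k * u) : ℝ) : ℂ) := by
    intro u
    have e : -(I * (k : ℂ) * (u : ℂ)) = ((-(k * u) : ℝ) : ℂ) * I := by push_cast; ring
    rw [e, exp_mul_I, ← ofReal_cos, ← ofReal_sin, Real.cos_neg, Real.sin_neg]
    push_cast
    ring
  rw [integral_congr_ae (Eventually.of_forall h3), integral_sub hVc (hVs.const_mul I),
    integral_const_mul, integral_complex_ofReal, integral_complex_ofReal, h0]
  unfold VhK
  simp

/-- the two halves of the line -/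
lemma split_half {f : ℝ → ℂ} (hf : Integrable f) :
    ∫ k : ℝ, f k = ∫ k in Ioi (0:ℝ), (f k + f (-k)) := by
  have h1 : IntegrableOn (fun k => f (-k)) (Ioi 0) := hf.comp_neg.integrableOn
  rw [integral_add hf.integrableOn h1]
  have h2 : ∫ k in Ioi (0:ℝ), f (-k) = ∫ k in Iic (0:ℝ), f k := by
    have := integral_comp_neg_Ioi (0 : ℝ) f
    rwa [neg_zero] at this
  rw [h2, add_comm]
  exact (intervalIntegral.integral_Iic_add_Ioi hf.integrableOn hf.integrableOn).symm

section

variable {a b K : ℝ} {B : ℂ → ℂ}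

/-- integrability on the half line -/
lemma int_V (hB : TC (-a) a b K B) (ha : 0 < a) {z : ℂ} (hz : |z.im| < b) :
    IntegrableOn (fun k : ℝ => I * sP k * (B k * cexp (I * k * z) - B (-k) * cexp (-(I * k * z))))
      (Ioi 0) := by
  have hV : Integrable fun u => (V u : ℂ) := V_integral.1.ofReal
  have hi := int_kB hB ha hz
  have h2 : ∀ k : ℝ, (I * k * B k * cexp (I * k * z)) * (∫ u : ℝ, (V u : ℂ) * cexp (-(I * k * u))) =
      (I * k * B k * cexp (I * k * z)) * (VhK k : ℂ) := fun k => by rw [ft_V']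
  have h3 : Integrable fun k : ℝ => (I * k * B k * cexp (I * k * z)) * (VhK k : ℂ) :=
    ((swap_exp hV hi.2).2).congr (Eventually.of_forall h2)
  have h4 : Integrable fun k : ℝ => (2 * Real.pi : ℂ)⁻¹ *
      ((I * k * B k * cexp (I * k * z)) * (VhK k : ℂ) +
      (I * ((-k : ℝ) : ℂ) * B ((-k : ℝ) : ℂ) * cexp (I * ((-k : ℝ) : ℂ) * z)) * (VhK (-k) : ℂ)) :=
    (h3.add h3.comp_neg).const_mul _
  refine h4.integrableOn.congr_fun (fun k hk => ?_) measurableSet_Ioi
  have hk' : 0 < k := hk
  have h4 : (k : ℂ) * (VhK k : ℂ) = 2 * Real.pi * (sP k : ℂ) := by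
    have := k_VhK hk'
    exact_mod_cast this
  have hpi := pi_ne
  simp only []
  rw [VhK_neg]
  have e2 : cexp (I * ((-k : ℝ) : ℂ) * z) = cexp (-(I * k * z)) := by
    congr 1
    push_cast
    ring
  rw [e2]
  push_cast
  have e3 : I * (k : ℂ) * B k * cexp (I * k * z) * (VhK k : ℂ) + I * -(k : ℂ) * B (-k) *
      cexp (-(I * k * z)) * (VhK k : ℂ) = ((k : ℂ) * (VhK k : ℂ)) *
      (I * (B k * cexp (I * k * z) - B (-k) * cexp (-(I * k * z)))) := by ring
  rw [e3, h4]
  field_simp

/-- **the convolution with `V`** -/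
theorem cV_fld (hB : TC (-a) a b K B) (ha : 0 < a) {z : ℂ} (hz : |z.im| < b) :
    PB.cV (deriv (fld B)) z =
      ∫ k in Ioi (0:ℝ), I * sP k * (B k * cexp (I * k * z) - B (-k) * cexp (-(I * k * z))) := by
  have hV : Integrable fun u => (V u : ℂ) := V_integral.1.ofReal
  have hi := int_kB hB ha hz
  have h1 : PB.cV (deriv (fld B)) z = (2 * Real.pi : ℂ)⁻¹ *
      ∫ u : ℝ, (V u : ℂ) * ∫ k : ℝ, (I * k * B k * cexp (I * k * z)) * cexp (-(I * k * u)) := by
    unfold PB.cV
    rw [← integral_const_mul]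
    refine integral_congr_ae (Eventually.of_forall fun u => ?_)
    simp only []
    rw [deriv_fld hB ha (by simpa using hz)]
    have e : ∫ k : ℝ, I * k * B k * cexp (I * k * (z - u)) =
        ∫ k : ℝ, (I * k * B k * cexp (I * k * z)) * cexp (-(I * k * u)) := by
      refine integral_congr_ae (Eventually.of_forall fun k => ?_)
      simp only []
      rw [mul_assoc (I * k * B k), ← Complex.exp_add]
      congr 2
      ring
    rw [e]
    ring
  rw [h1, (swap_exp hV hi.2).1]
  have h2 : ∀ k : ℝ, (I * k * B k * cexp (I * k * z)) * (∫ u : ℝ, (V u : ℂ) * cexp (-(I * k * u))) =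
      (I * k * B k * cexp (I * k * z)) * (VhK k : ℂ) := fun k => by rw [ft_V']
  rw [integral_congr_ae (Eventually.of_forall h2)]
  have h3 : Integrable fun k : ℝ => (I * k * B k * cexp (I * k * z)) * (VhK k : ℂ) :=
    ((swap_exp hV hi.2).2).congr (Eventually.of_forall h2)
  rw [split_half h3, ← integral_const_mul]
  refine setIntegral_congr_fun measurableSet_Ioi fun k hk => ?_
  have hk' : 0 < k := hk
  have h4 : (k : ℂ) * (VhK k : ℂ) = 2 * Real.pi * (sP k : ℂ) := by
    have := k_VhK hk'
    exact_mod_cast this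
  have hpi := pi_ne
  rw [VhK_neg]
  have e2 : cexp (I * ((-k : ℝ) : ℂ) * z) = cexp (-(I * k * z)) := by
    congr 1
    push_cast
    ring
  rw [e2]
  push_cast
  have e3 : I * (k : ℂ) * B k * cexp (I * k * z) * (VhK k : ℂ) + I * -(k : ℂ) * B (-k) *
      cexp (-(I * k * z)) * (VhK k : ℂ) = ((k : ℂ) * (VhK k : ℂ)) *
      (I * (B k * cexp (I * k * z) - B (-k) * cexp (-(I * k * z)))) := by ring
  rw [e3, h4]
  field_simp

/-! ### the kernel `Kg` -/

lemma im_tanK {a : ℝ} (u : ℝ) (ha : Real.cos a ≠ 0) :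
    (Complex.tan ((a : ℂ) + u * I)).im = Real.sinh (2 * u) / (Real.cos (2 * a) + Real.cosh (2 * u)) := by
  have hc : Complex.cos ((a : ℂ) + u * I) =
      ((Real.cos a * Real.cosh u : ℝ) : ℂ) - ((Real.sin a * Real.sinh u : ℝ) : ℂ) * I := by
    rw [Complex.cos_add, Complex.cos_mul_I, Complex.sin_mul_I]
    push_cast
    ring
  have hs : Complex.sin ((a : ℂ) + u * I) =
      ((Real.sin a * Real.cosh u : ℝ) : ℂ) + ((Real.cos a * Real.sinh u : ℝ) : ℂ) * I := by
    rw [Complex.sin_add, Complex.cos_mul_I, Complex.sin_mul_I]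
    push_cast
    ring
  have h2 : Real.cos (2 * a) + Real.cosh (2 * u) =
      2 * ((Real.cos a * Real.cosh u) ^ 2 + (Real.sin a * Real.sinh u) ^ 2) := by
    rw [Real.cos_two_mul, Real.cosh_two_mul]
    have h3 := Real.cosh_sq u
    have h4 := Real.sin_sq_add_cos_sq a
    have h5 : Real.sin a ^ 2 = 1 - Real.cos a ^ 2 := by linarith
    rw [mul_pow, mul_pow, h5]
    nlinarith
  have h3 : 0 < (Real.cos a * Real.cosh u) ^ 2 + (Real.sin a * Real.sinh u) ^ 2 := by
    have := Real.cosh_pos u
    positivity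
  rw [Complex.tan_eq_sin_div_cos, hc, hs, Complex.div_im, h2, Real.sinh_two_mul]
  simp only [Complex.normSq_apply, add_re, sub_re, mul_re, ofReal_re, I_re, ofReal_im, I_im, add_im,
    sub_im, mul_im]
  have h4 : Real.sin a ^ 2 + Real.cos a ^ 2 = 1 := Real.sin_sq_add_cos_sq a
  have e : (Real.cos a * Real.cosh u) ^ 2 + (Real.sin a * Real.sinh u) ^ 2 ≠ 0 := h3.ne'
  have e1 : (Real.cos a * Real.cosh u - (Real.sin a * Real.sinh u * 0 - 0 * 1)) *
      (Real.cos a * Real.cosh u - (Real.sin a * Real.sinh u * 0 - 0 * 1)) +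
      (0 - (Real.sin a * Real.sinh u * 1 + 0 * 0)) * (0 - (Real.sin a * Real.sinh u * 1 + 0 * 0)) =
      (Real.cos a * Real.cosh u) ^ 2 + (Real.sin a * Real.sinh u) ^ 2 := by ring
  rw [e1]
  field_simp
  linear_combination (Real.sinh u * Real.cosh u) * h4

/-- imaginary part of the integral of `tan` -/
lemma im_tkK {a : ℝ} (ha : |a| < Real.pi / 2) (u : ℝ) :
    IntegrableOn (fun k => Real.cosh (a * k) * Real.sin (u * k) / sk k) (Ioi 0) ∧
    ∫ k in Ioi (0:ℝ), Real.cosh (a * k) * Real.sin (u * k) / sk k =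
      Real.sinh (2 * u) / (Real.cos (2 * a) + Real.cosh (2 * u)) := by
  have hre : ((a : ℂ) + u * I).re = a := by simp
  have him : ((a : ℂ) + u * I).im = u := by simp
  have hz : |((a : ℂ) + u * I).re| < Real.pi / 2 := by rwa [hre]
  have h1 := tk_integrable hz
  have h2 := tan_eq hz
  have e : ∀ k : ℝ, (tk ((a : ℂ) + u * I) k).im = Real.cosh (a * k) * Real.sin (u * k) / sk k := by
    intro k
    unfold tk
    rw [Complex.div_ofReal_im]
    have e1 : ((a : ℂ) + u * I) * k = ((a * k : ℝ) : ℂ) + ((u * k : ℝ) : ℂ) * I := by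
      push_cast
      ring
    rw [e1, Complex.sinh_add, Complex.sinh_mul_I, Complex.cosh_mul_I, ← ofReal_sin (u * k),
      ← ofReal_cos (u * k), ← ofReal_sinh (a * k), ← ofReal_cosh (a * k)]
    simp only [add_im, mul_im, mul_re, ofReal_re, ofReal_im, I_re, I_im]
    ring
  have h3 := h1.im
  simp only [RCLike.im_to_complex] at h3
  have h4 := integral_im h1
  simp only [RCLike.im_to_complex] at h4
  constructor
  · exact h3.congr (Eventually.of_forall fun k => e k)
  · have ha' : Real.cos a ≠ 0 := by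
      rw [abs_lt] at ha
      exact (Real.cos_pos_of_mem_Ioo ⟨ha.1, ha.2⟩).ne'
    rw [← im_tanK u ha', ← h2, ← h4]
    exact integral_congr_ae (Eventually.of_forall fun k => (e k).symm)

lemma Kg_fourier (u : ℝ) : Pool.Agent.PB.Kg u =
    ∫ k in Ioi (0:ℝ), 2 * (1 - 2 * ck1 k) / sk k * Real.sin (u * k) := by
  have hpi := Real.pi_pos
  have hl : |l| < Real.pi / 2 := by
    rw [abs_of_pos l_pos']
    unfold l
    linarith
  obtain ⟨i0, e0⟩ := im_tkK (a := 0) (by rw [abs_zero]; linarith) u
  obtain ⟨i1, e1⟩ := im_tkK hl u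
  have h1 : ∀ k : ℝ, 2 * (1 - 2 * ck1 k) / sk k * Real.sin (u * k) =
      2 * (Real.cosh (0 * k) * Real.sin (u * k) / sk k) -
      4 * (Real.cosh (l * k) * Real.sin (u * k) / sk k) := by
    intro k
    unfold ck1
    rw [zero_mul, Real.cosh_zero]
    ring
  rw [integral_congr_ae (Eventually.of_forall h1), integral_sub (i0.const_mul 2) (i1.const_mul 4),
    integral_const_mul, integral_const_mul, e0, e1]
  have e2 : 2 * l = Real.pi / 4 := by unfold l; ring
  rw [e2, ← r_eq, mul_zero, Real.cos_zero]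
  unfold Pool.Agent.PB.Kg
  ring

lemma Kg_dom {k : ℝ} (hk : 0 < k) : |2 * (1 - 2 * ck1 k) / sk k| * k ≤ 6 * dom l k := by
  have hl := l_pos'
  have h1 := sk_pos hk
  have h2 : 1 ≤ ck1 k := Real.one_le_cosh _
  have h3 : ck1 k ≤ Real.exp (l * k) := by
    have := cosh_le_exp' (l * k)
    rwa [abs_of_pos (by positivity)] at this
  have h4 : |2 * (1 - 2 * ck1 k)| ≤ 6 * Real.exp (l * k) := by
    rw [abs_le]
    constructor <;> linarith
  rw [abs_div, abs_of_pos h1]
  unfold dom
  rw [div_mul_eq_mul_div, mul_div_assoc]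
  calc |2 * (1 - 2 * ck1 k)| * (k / sk k) ≤ 6 * Real.exp (l * k) * (k / sk k) :=
        mul_le_mul_of_nonneg_right h4 (by positivity)
    _ = _ := by ring

/-- integrals against `e^{iku}` -/
lemma conv_exp {M κ : ℝ} {β : ℂ → ℂ} (hβ : TC (-b) b κ M β) (hκ : 0 < κ) {z : ℂ} (hz : |z.im| < b)
    (k : ℝ) :
    Integrable (fun u : ℝ => β (z - u) * cexp (I * k * u)) ∧
    ∫ u : ℝ, β (z - u) * cexp (I * k * u) = cexp (I * k * z) * tr β k := by
  have hb : 0 < b := lt_of_le_of_lt (abs_nonneg _) hz
  have h1 := (abs_lt.1 hz).1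
  have h2 := (abs_lt.1 hz).2
  have hk : |((k : ℂ)).im| < κ := by simpa using hκ
  have hM := hβ.nonneg (by linarith) hb
  set f : ℝ → ℂ := fun u => β (z - u) * cexp (I * k * u) with hf
  have e : ∀ s : ℝ, f (z.re - s) = cexp (I * k * z) *
      (β (s + z.im * I) * cexp (-(I * k * (s + z.im * I)))) := by
    intro s
    have e1 : z - ((z.re - s : ℝ) : ℂ) = s + z.im * I := by
      apply Complex.ext <;> simp
    simp only [hf]
    rw [e1]
    have e2 : cexp (I * k * ((z.re - s : ℝ) : ℂ)) = cexp (I * k * z) * cexp (-(I * k * (s + z.im * I))) := by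
      rw [← Complex.exp_add]
      congr 1
      have e3 := re_add_im z
      push_cast
      linear_combination (I * k) * e3
    rw [e2]
    ring
  have hi := (hβ.int_ek h1 h2 hM hk).const_mul (cexp (I * k * z))
  have hi2 : Integrable fun s : ℝ => f (z.re - s) := hi.congr (Eventually.of_forall fun s => (e s).symm)
  constructor
  · have := hi2.comp_sub_left z.re
    simpa using this
  · have h3 : ∫ u : ℝ, f u = ∫ s : ℝ, f (z.re - s) := (integral_sub_left_eq_self f volume z.re).symm
    rw [h3, integral_congr_ae (Eventually.of_forall e), integral_const_mul,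
      tr_shift hβ (by linarith) hb h1 h2 hk]

/-- integrals against `sin` -/
lemma conv_sin (hB : TC (-a) a b K B) (ha : 0 < a) {z : ℂ} (hz : |z.im| < b) (k : ℝ) :
    ∫ u : ℝ, fld B (z - u) * (Real.sin (u * k) : ℂ) =
      -(I / 2) * (B k * cexp (I * k * z) - B (-k) * cexp (-(I * k * z))) := by
  obtain ⟨b', hb'⟩ : ∃ b' : ℝ, b' = (|z.im| + b) / 2 := ⟨_, rfl⟩
  have hb : 0 < b := lt_of_le_of_lt (abs_nonneg _) hz
  have hF := fld_TC hB ha (κ := a / 2) (by linarith) (by linarith) (b' := b') (by linarith)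
  obtain ⟨i1, e1⟩ := conv_exp hF (by linarith) (z := z) (by rw [hb']; linarith) k
  obtain ⟨i2, e2⟩ := conv_exp hF (by linarith) (z := z) (by rw [hb']; linarith) (-k)
  rw [tr_fld hB ha hb] at e1 e2
  have e : ∀ u : ℝ, fld B (z - u) * (Real.sin (u * k) : ℂ) =
      -(I / 2) * (fld B (z - u) * cexp (I * k * u) - fld B (z - u) * cexp (I * ((-k : ℝ) : ℂ) * u)) := by
    intro u
    have h1 : (Real.sin (u * k) : ℂ) = -(I / 2) * (cexp (I * k * u) - cexp (I * ((-k : ℝ) : ℂ) * u)) := by
      have e3 : I * (k : ℂ) * (u : ℂ) = ((u * k : ℝ) : ℂ) * I := by push_cast; ring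
      have e4 : I * ((-k : ℝ) : ℂ) * (u : ℂ) = ((-(u * k) : ℝ) : ℂ) * I := by push_cast; ring
      rw [e3, e4, exp_mul_I, exp_mul_I, ← ofReal_cos, ← ofReal_sin, ← ofReal_cos, ← ofReal_sin,
        Real.cos_neg, Real.sin_neg]
      push_cast
      linear_combination (Complex.sin (u * k)) * I_sq
    rw [h1]
    ring
  rw [integral_congr_ae (Eventually.of_forall e), integral_const_mul, integral_sub i1 i2, e1, e2]
  have e5 : cexp (I * ((-k : ℝ) : ℂ) * z) = cexp (-(I * k * z)) := by
    congr 1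
    push_cast
    ring
  rw [e5]
  push_cast
  ring

/-- **the convolution with `Kg`** -/
theorem cG_fld (hB : TC (-a) a b K B) (ha : 0 < a) {z : ℂ} (hz : |z.im| < b) :
    Integrable (fun u : ℝ => fld B (z - u) * (Pool.Agent.PB.Kg u : ℂ)) ∧
    IntegrableOn (fun k : ℝ => I * ((2 * ck1 k - 1) / sk k : ℝ) *
      (B k * cexp (I * k * z) - B (-k) * cexp (-(I * k * z)))) (Ioi 0) ∧
    PB.cG (fld B) z = ∫ k in Ioi (0:ℝ), I * ((2 * ck1 k - 1) / sk k : ℝ) *
      (B k * cexp (I * k * z) - B (-k) * cexp (-(I * k * z))) := by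
  have hpi := Real.pi_pos
  obtain ⟨b', hb'⟩ : ∃ b' : ℝ, b' = (|z.im| + b) / 2 := ⟨_, rfl⟩
  have hb : 0 < b := lt_of_le_of_lt (abs_nonneg _) hz
  have hzb : |z.im| < b' := by rw [hb']; linarith
  obtain ⟨κ, hκ⟩ : ∃ κ : ℝ, κ = a / 2 := ⟨_, rfl⟩
  have hκ0 : 0 < κ := by rw [hκ]; linarith
  have hF := fld_TC hB ha (κ := κ) hκ0.le (by rw [hκ]; linarith) (b' := b') (by linarith)
  set M := K * (2 / (b - b')) / (2 * Real.pi) with hM
  have hM0 : 0 ≤ M := hF.nonneg (by linarith [abs_nonneg z.im]) (by linarith [abs_nonneg z.im])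
  have hcu : Continuous fun u : ℝ => fld B (z - u) := by
    have h1 := hF.cont (y := z.im) (by linarith [(abs_lt.1 hzb).1]) (abs_lt.1 hzb).2
    have h2 : (fun u : ℝ => fld B (z - u)) = fun u : ℝ =>
        (fun t : ℝ => fld B (t + z.im * I)) (z.re - u) := by
      funext u
      simp only []
      congr 1
      apply Complex.ext <;> simp
    rw [h2]
    exact h1.comp (by fun_prop)
  have hbu : ∀ u : ℝ, ‖fld B (z - u)‖ ≤ M * Real.exp (κ * |z.re|) * Real.exp (-(κ * |u|)) := by
    intro u
    have h1 := hF.bd (z - u) (by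
      constructor
      · simpa using (abs_lt.1 hzb).1
      · simpa using (abs_lt.1 hzb).2)
    refine h1.trans ?_
    rw [mul_assoc, ← Real.exp_add]
    refine mul_le_mul_of_nonneg_left (Real.exp_le_exp.2 ?_) hM0
    have h2 : |u| ≤ |z.re| + |(z - u : ℂ).re| := by
      have h3 : u = z.re - (z - u : ℂ).re := by simp
      conv_lhs => rw [h3]
      exact abs_sub _ _
    nlinarith
  have hiu : Integrable fun u : ℝ => ‖fld B (z - u)‖ * |u| := by
    have h1 := (int_exp_abs (a := κ / 2) (by linarith)).1.const_mul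
      (M * Real.exp (κ * |z.re|) * (2 / κ))
    refine h1.mono' (hcu.norm.mul continuous_abs).aestronglyMeasurable
      (Eventually.of_forall fun u => ?_)
    rw [Real.norm_eq_abs, abs_of_nonneg (by positivity)]
    have h9 : |u| ≤ 2 / κ * Real.exp (κ / 2 * |u|) := by
      have := Real.add_one_le_exp (κ / 2 * |u|)
      rw [div_mul_eq_mul_div, le_div_iff₀ hκ0]
      linarith
    calc ‖fld B (z - u)‖ * |u| ≤ (M * Real.exp (κ * |z.re|) * Real.exp (-(κ * |u|))) *
          (2 / κ * Real.exp (κ / 2 * |u|)) := mul_le_mul (hbu u) h9 (abs_nonneg _) (by positivity)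
      _ = M * Real.exp (κ * |z.re|) * (2 / κ) * (Real.exp (-(κ * |u|)) * Real.exp (κ / 2 * |u|)) := by
          ring
      _ = _ := by
          rw [← Real.exp_add]
          congr 2
          ring
  have hl2 : l < Real.pi / 2 := by unfold l; linarith
  have hdom := (dom_integrable hl2).const_mul 6
  set m : ℝ → ℝ := fun k => 2 * (1 - 2 * ck1 k) / sk k with hm
  have hmm : Measurable m := by
    have : Measurable ck1 := by
      unfold ck1
      fun_prop
    exact ((this.const_mul 2).const_sub 1 |>.const_mul 2).div sk_meas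
  have h1 : Integrable (Function.uncurry fun (u k : ℝ) =>
      fld B (z - u) * ((m k * Real.sin (u * k) : ℝ) : ℂ)) (volume.prod (volume.restrict (Ioi 0))) := by
    have h2 : Integrable (fun p : ℝ × ℝ => (‖fld B (z - p.1)‖ * |p.1|) * (6 * dom l p.2))
        (volume.prod (volume.restrict (Ioi 0))) := hiu.mul_prod hdom
    refine h2.mono' ?_ ?_
    · have h3 : Measurable fun p : ℝ × ℝ => fld B (z - p.1) := hcu.measurable.comp measurable_fst
      have h4 : Measurable fun p : ℝ × ℝ => ((m p.2 * Real.sin (p.1 * p.2) : ℝ) : ℂ) := by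
        refine Complex.measurable_ofReal.comp ((hmm.comp measurable_snd).mul ?_)
        fun_prop
      exact (h3.mul h4).aestronglyMeasurable
    · have h5 : ∀ᵐ p : ℝ × ℝ ∂(volume.prod (volume.restrict (Ioi 0))), 0 < p.2 := by
        have h6 : ∀ᵐ k : ℝ ∂(volume.restrict (Ioi (0:ℝ))), 0 < k :=
          (ae_restrict_iff' measurableSet_Ioi).2 (Eventually.of_forall fun k hk => hk)
        exact (Measure.quasiMeasurePreserving_snd (μ := volume)
          (ν := volume.restrict (Ioi (0:ℝ)))).ae h6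
      filter_upwards [h5] with p hp
      simp only [Function.uncurry]
      rw [norm_mul, Complex.norm_real, Real.norm_eq_abs, abs_mul]
      have h6 : |Real.sin (p.1 * p.2)| ≤ |p.1| * p.2 := by
        refine (Real.abs_sin_le_abs).trans (le_of_eq ?_)
        rw [abs_mul, abs_of_pos hp]
      have h7 := Kg_dom hp
      calc ‖fld B (z - p.1)‖ * (|m p.2| * |Real.sin (p.1 * p.2)|)
          ≤ ‖fld B (z - p.1)‖ * (|m p.2| * (|p.1| * p.2)) := by gcongr
        _ = (‖fld B (z - p.1)‖ * |p.1|) * (|m p.2| * p.2) := by ring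
        _ ≤ (‖fld B (z - p.1)‖ * |p.1|) * (6 * dom l p.2) := by gcongr
  have e3 : ∀ u : ℝ, ∫ k in Ioi (0:ℝ), fld B (z - u) * ((m k * Real.sin (u * k) : ℝ) : ℂ) =
      fld B (z - u) * (Pool.Agent.PB.Kg u : ℂ) := by
    intro u
    rw [integral_const_mul, integral_complex_ofReal, Kg_fourier]
  have e4 : ∀ k : ℝ, ∫ u : ℝ, fld B (z - u) * ((m k * Real.sin (u * k) : ℝ) : ℂ) =
      I * ((2 * ck1 k - 1) / sk k : ℝ) * (B k * cexp (I * k * z) - B (-k) * cexp (-(I * k * z))) := by
    intro k
    have h8 : ∀ u : ℝ, fld B (z - u) * ((m k * Real.sin (u * k) : ℝ) : ℂ) =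
        (m k : ℂ) * (fld B (z - u) * (Real.sin (u * k) : ℂ)) := by
      intro u
      push_cast
      ring
    rw [integral_congr_ae (Eventually.of_forall h8), integral_const_mul, conv_sin hB ha hz]
    simp only [hm]
    push_cast
    ring
  refine ⟨?_, ?_, ?_⟩
  · exact (h1.integral_prod_left).congr (Eventually.of_forall fun u => by
      simp only [Function.uncurry]
      exact e3 u)
  · exact (h1.integral_prod_right).congr (Eventually.of_forall fun k => by
      simp only [Function.uncurry]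
      exact e4 k)
  · unfold PB.cG
    calc ∫ u : ℝ, fld B (z - u) * (Pool.Agent.PB.Kg u : ℂ)
        = ∫ u : ℝ, ∫ k in Ioi (0:ℝ), fld B (z - u) * ((m k * Real.sin (u * k) : ℝ) : ℂ) :=
          integral_congr_ae (Eventually.of_forall fun u => (e3 u).symm)
      _ = ∫ k in Ioi (0:ℝ), ∫ u : ℝ, fld B (z - u) * ((m k * Real.sin (u * k) : ℝ) : ℂ) :=
          integral_integral_swap h1
      _ = _ := integral_congr_ae (Eventually.of_forall e4)

/-- **the response of a field, plus channel** -/
theorem rsp_fld_plus (hB : TC (-a) a b K B) (ha : 0 < a) {z : ℂ} (hz : |z.im| < b) (s : Bool) :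
    PB.rsp (fun _ => fld B) s z =
      ∫ k in Ioi (0:ℝ), -I * sP k * (B k * cexp (I * k * z) - B (-k) * cexp (-(I * k * z))) := by
  unfold PB.rsp
  have e : PB.cG (fun w => fld B w - fld B w) z = 0 := by
    unfold PB.cG
    simp
  rw [e, add_zero, cV_fld hB ha hz, ← integral_neg]
  refine setIntegral_congr_fun measurableSet_Ioi fun k _ => ?_
  ring

/-- the sign of the species -/
def sg2 (f : ℂ → ℂ) (s : Bool) (z : ℂ) : ℂ := if s then -f z else f z

/-- **the response of a field, minus channel** -/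
theorem rsp_fld_minus (hB : TC (-a) a b K B) (ha : 0 < a) {z : ℂ} (hz : |z.im| < b) (s : Bool) :
    PB.rsp (fun s => sg2 (fld B) s) s z = sg2 (fun z =>
      ∫ k in Ioi (0:ℝ), -I * sM k * (B k * cexp (I * k * z) - B (-k) * cexp (-(I * k * z)))) s z := by
  obtain ⟨i1, i2, e1⟩ := cG_fld hB ha hz
  have e2 := cV_fld hB ha hz
  have i3 := int_V hB ha hz
  have key : PB.cV (deriv (fld B)) z + 2 * PB.cG (fld B) z =
      -∫ k in Ioi (0:ℝ), -I * sM k * (B k * cexp (I * k * z) - B (-k) * cexp (-(I * k * z))) := by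
    rw [e1, e2, ← integral_const_mul, ← integral_add i3 (i2.const_mul 2), ← integral_neg]
    refine setIntegral_congr_fun measurableSet_Ioi fun k _ => ?_
    unfold sM
    push_cast
    ring
  cases s
  · have e3 : PB.rsp (fun s => sg2 (fld B) s) false z =
        -(PB.cV (deriv (fld B)) z + 2 * PB.cG (fld B) z) := by
      unfold PB.rsp sg2
      simp only [Bool.not_false, if_true, Bool.false_eq_true, if_false]
      congr 2
      unfold PB.cG
      rw [← integral_const_mul]
      refine integral_congr_ae (Eventually.of_forall fun u => ?_)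
      simp only []
      ring
    rw [e3, key]
    simp [sg2]
  · have e3 : PB.rsp (fun s => sg2 (fld B) s) true z =
        (PB.cV (deriv (fld B)) z + 2 * PB.cG (fld B) z) := by
      unfold PB.rsp sg2
      simp only [Bool.not_true, if_true, Bool.false_eq_true, if_false]
      have e4 : deriv (fun z => -fld B z) = fun z => -deriv (fld B) z := by
        funext w
        exact deriv.fun_neg
      have e5 : PB.cV (deriv (fun z => -fld B z)) z = -PB.cV (deriv (fld B)) z := by
        rw [e4]
        unfold PB.cV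
        rw [← integral_neg]
        refine integral_congr_ae (Eventually.of_forall fun u => ?_)
        simp only []
        ring
      have e6 : PB.cG (fun w => -fld B w - fld B w) z = -(2 * PB.cG (fld B) z) := by
        unfold PB.cG
        rw [← integral_const_mul, ← integral_neg]
        refine integral_congr_ae (Eventually.of_forall fun u => ?_)
        simp only []
        ring
      rw [e5, e6]
      ring
    rw [e3, key]
    simp [sg2]

end

/-! ### the multiplier on the real line -/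

lemma sk_eq (k : ℝ) : (sk k : ℂ) = sh4 k := by
  unfold sk sh4
  rw [ofReal_sinh]
  congr 1
  unfold l
  push_cast
  ring

lemma ck_eq (k : ℝ) : (ck1 k : ℂ) = Complex.cosh (l * k) := by
  unfold ck1
  rw [ofReal_cosh]
  push_cast
  rfl

lemma cosh3_c (k : ℝ) : Complex.cosh (3 * (l * k)) = 4 * (ck1 k : ℂ) ^ 3 - 3 * ck1 k := by
  rw [Complex.cosh_three_mul, ck_eq]

lemma ch3_sq (k : ℝ) : 2 * ch3 k ^ 2 = 4 * (ck1 k : ℂ) ^ 3 - 3 * ck1 k + 1 := by
  rw [← cosh3_c]
  have e : 3 * ((l : ℂ) * k) = 2 * (3 / 2 * l * k) := by ring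
  rw [e, Complex.cosh_two_mul]
  have h := Complex.cosh_sq (3 / 2 * (l : ℂ) * k)
  unfold ch3
  linear_combination h

lemma sh3_sq (k : ℝ) : 2 * sh3 k ^ 2 = 4 * (ck1 k : ℂ) ^ 3 - 3 * ck1 k - 1 := by
  rw [← cosh3_c]
  have e : 3 * ((l : ℂ) * k) = 2 * (3 / 2 * l * k) := by ring
  rw [e, Complex.cosh_two_mul]
  have h := Complex.cosh_sq (3 / 2 * (l : ℂ) * k)
  unfold sh3
  linear_combination -h

lemma den_eq (k : ℝ) : den k = 2 * ck1 k - 1 := by
  unfold den
  rw [ck_eq]

lemma sP_eq {k : ℝ} (hk : 0 < k) : (sP k : ℂ) = 2 * sh3 k ^ 2 * den k / sh4 k := by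
  unfold sP
  rw [sh3_sq, den_eq, ← sk_eq]
  push_cast
  congr 1
  ring

lemma sM_eq {k : ℝ} (hk : 0 < k) : (sM k : ℂ) = 2 * ch3 k ^ 2 * den k / sh4 k := by
  unfold sM
  rw [ch3_sq, den_eq, ← sk_eq]
  have hs : (sk k : ℂ) ≠ 0 := Complex.ofReal_ne_zero.2 (sk_pos hk).ne'
  unfold sP
  push_cast
  field_simp
  ring

lemma sh4_ne {k : ℝ} (hk : 0 < k) : sh4 k ≠ 0 := by
  rw [← sk_eq]
  exact Complex.ofReal_ne_zero.2 (sk_pos hk).ne'

lemma sh4_neg (k : ℂ) : sh4 (-k) = -sh4 k := by
  unfold sh4
  rw [mul_neg, Complex.sinh_neg]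

lemma sh3_neg (k : ℂ) : sh3 (-k) = -sh3 k := by
  unfold sh3
  rw [mul_neg, Complex.sinh_neg]

lemma ch3_neg (k : ℂ) : ch3 (-k) = ch3 k := by
  unfold ch3
  rw [mul_neg, Complex.cosh_neg]

lemma den_neg (k : ℂ) : den (-k) = den k := by
  unfold den
  rw [mul_neg, Complex.cosh_neg]

/-- from the two sided relation to the test function -/
lemma half_inv {y₁ y₂ a M : ℝ} {g : ℂ → ℂ} (hg : TC y₁ y₂ a M g) (ha : 0 < a) (h1 : y₁ < 0)
    (h2 : 0 < y₂) {z : ℂ} (hz : z ∈ Sp y₁ y₂) {s : ℝ → ℝ} {B : ℂ → ℂ}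
    (hp : ∀ k : ℝ, 0 < k → -(2 * Real.pi * I) * s k * B k = tr g k)
    (hm : ∀ k : ℝ, 0 < k → 2 * Real.pi * I * s k * B (-k) = tr g (-k)) :
    ∫ k in Ioi (0:ℝ), -I * s k * (B k * cexp (I * k * z) - B (-k) * cexp (-(I * k * z))) = g z := by
  obtain ⟨i1, e1⟩ := tr_inv hg ha h1 h2 hz
  rw [e1, split_half i1, ← integral_const_mul]
  refine setIntegral_congr_fun measurableSet_Ioi fun k hk => ?_
  have hk' : 0 < k := hk
  have hpi := pi_ne
  have e2 : cexp (I * ((-k : ℝ) : ℂ) * z) = cexp (-(I * k * z)) := by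
    congr 1
    push_cast
    ring
  rw [e2]
  push_cast
  rw [← hp k hk', ← hm k hk']
  field_simp
  ring

section

variable {y₁ y₂ a b κ : ℝ}

/-- bound of the transform in a strip -/
lemma tr_strip {M a₁ y0 : ℝ} {g : ℂ → ℂ} (hg : TC y₁ y₂ a M g) (h1 : y₁ < 0) (h2 : 0 < y₂)
    (ha1 : a₁ < a) (hy1 : y₁ < -y0) (hy2 : y0 < y₂) {k : ℂ} (hk : |k.im| ≤ a₁) :
    ‖tr g k‖ ≤ M * (2 / (a - a₁)) * Real.exp (-(y0 * |k.re|)) := by
  have hM := hg.nonneg h1 h2
  have h5 : 2 / (a - |k.im|) ≤ 2 / (a - a₁) :=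
    div_le_div_of_nonneg_left (by norm_num) (by linarith) (by linarith)
  rcases le_total 0 k.re with h | h
  · rcases lt_or_ge (-y0) y₂ with h3 | h3
    · have := tr_le hg h1 h2 hy1 h3 (by linarith : |k.im| < a)
      refine this.trans ?_
      rw [abs_of_nonneg h, neg_mul]
      exact mul_le_mul_of_nonneg_right (mul_le_mul_of_nonneg_left h5 hM) (Real.exp_pos _).le
    · have := tr_le hg h1 h2 (y := 0) h1 h2 (by linarith : |k.im| < a)
      refine this.trans ?_
      refine mul_le_mul (mul_le_mul_of_nonneg_left h5 hM) (Real.exp_le_exp.2 ?_) (Real.exp_pos _).le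
        (by have : 0 < a - a₁ := by linarith
            positivity)
      rw [abs_of_nonneg h]
      nlinarith
  · rcases lt_or_ge y₁ y0 with h3 | h3
    · have := tr_le hg h1 h2 h3 hy2 (by linarith : |k.im| < a)
      refine this.trans ?_
      rw [abs_of_nonpos h, mul_neg, neg_neg]
      exact mul_le_mul_of_nonneg_right (mul_le_mul_of_nonneg_left h5 hM) (Real.exp_pos _).le
    · have := tr_le hg h1 h2 (y := 0) h1 h2 (by linarith : |k.im| < a)
      refine this.trans ?_
      refine mul_le_mul (mul_le_mul_of_nonneg_left h5 hM) (Real.exp_le_exp.2 ?_) (Real.exp_pos _).le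
        (by have : 0 < a - a₁ := by linarith
            positivity)
      rw [abs_of_nonpos h]
      nlinarith

/-- **fields of test functions, minus channel** -/
theorem inv_minus (ha' : a < 8 / 3) (hκ0 : 0 ≤ κ) (hκ : κ < a) (hb : 0 < b) (hb1 : y₁ < -b)
    (hb2 : b < y₂) :
    ∃ C : ℝ, 0 ≤ C ∧ ∀ M g, TC y₁ y₂ a M g → ∃ β : ℂ → ℂ, TC (-b) b κ (C * M) β ∧
      (∀ z : ℂ, |z.im| < b → ∀ s : Bool, PB.rsp (fun s => sg2 β s) s z = sg2 g s z) ∧
      ∀ k : ℝ, tr β k = WM k * tr g k := by
  have h1 : y₁ < 0 := by linarith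
  have h2 : 0 < y₂ := by linarith
  obtain ⟨y0, hy0⟩ : ∃ y0 : ℝ, y0 = (b + min (-y₁) y₂) / 2 := ⟨_, rfl⟩
  have hmin : b < min (-y₁) y₂ := lt_min (by linarith) hb2
  have hy1 : y₁ < -y0 := by
    have := min_le_left (-y₁) y₂
    linarith
  have hy2 : y0 < y₂ := by
    have := min_le_right (-y₁) y₂
    linarith
  have hby : b < y0 := by linarith
  obtain ⟨a₁, ha₁⟩ : ∃ a₁ : ℝ, a₁ = (κ + a) / 2 := ⟨_, rfl⟩
  have hκ1 : κ < a₁ := by linarith
  have ha1 : a₁ < a := by linarith
  have ha10 : 0 < a₁ := by linarith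
  have hD := cD_pos (a := a₁) ha10.le (by linarith)
  have hC := cC_pos (a := a₁) ha10.le (by linarith)
  set CB := 2 / (cD a₁ * cC a₁ ^ 2) * (2 / (a - a₁)) with hCB
  have haa : 0 < a - a₁ := by linarith
  have hCB0 : 0 ≤ CB := by positivity
  have hyb : 0 < y0 - b := by linarith
  refine ⟨CB * (2 / (y0 - b)) / (2 * Real.pi), by have := Real.pi_pos; positivity, fun M g hg => ?_⟩
  have hM := hg.nonneg h1 h2
  set B : ℂ → ℂ := fun k => WM k * tr g k with hB
  have hTC : TC (-a₁) a₁ y0 (CB * M) B := by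
    constructor
    · intro k hk
      have hk' : |k.im| < a₁ := abs_lt.2 hk
      have hopen : IsOpen {k : ℂ | |k.im| < a} := isOpen_lt (by fun_prop) continuous_const
      have h5 : DifferentiableAt ℂ (tr g) k :=
        (tr_diff hg h1 h2).differentiableAt (hopen.mem_nhds (by
          show |k.im| < a
          linarith))
      exact ((diff_WM (by linarith)).mul h5).differentiableWithinAt
    · intro k hk
      have hk' : |k.im| < a₁ := abs_lt.2 hk
      have h5 := WM_le ha10.le (by linarith) hk'.le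
      have h6 := tr_strip hg h1 h2 ha1 hy1 hy2 hk'.le
      simp only [hB]
      rw [norm_mul]
      calc ‖WM k‖ * ‖tr g k‖ ≤ (2 / (cD a₁ * cC a₁ ^ 2)) *
            (M * (2 / (a - a₁)) * Real.exp (-(y0 * |k.re|))) :=
            mul_le_mul h5 h6 (norm_nonneg _) (by positivity)
        _ = _ := by rw [hCB]; ring
  refine ⟨fld B, ?_, ?_, ?_⟩
  · have := fld_TC hTC ha10 hκ0 hκ1 hby
    refine this.mono (le_of_eq ?_)
    ring
  · intro z hz s
    have hz' : |z.im| < y0 := by linarith
    have hzS : z ∈ Sp y₁ y₂ := by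
      have := abs_lt.1 hz
      exact ⟨by linarith, by linarith⟩
    rw [rsp_fld_minus hTC ha10 hz' s]
    have e : ∀ w : ℂ, w ∈ Sp y₁ y₂ →
        ∫ k in Ioi (0:ℝ), -I * sM k * (B k * cexp (I * k * w) - B (-k) * cexp (-(I * k * w))) = g w := by
      intro w hw
      refine half_inv hg (by linarith) h1 h2 hw ?_ ?_
      · intro k hk
        have := sh4_ne hk
        have h7 : ch3 k ≠ 0 := ch3_ne (by simp)
        have h8 : den k ≠ 0 := den_ne (by simp)
        have hpi := pi_ne
        simp only [hB]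
        rw [sM_eq hk]
        unfold WM
        field_simp
        ring
      · intro k hk
        have := sh4_ne hk
        have h7 : ch3 k ≠ 0 := ch3_ne (by simp)
        have h8 : den k ≠ 0 := den_ne (by simp)
        have hpi := pi_ne
        simp only [hB]
        rw [sM_eq hk]
        unfold WM
        rw [sh4_neg, ch3_neg, den_neg]
        field_simp
        ring
    have e' := e z hzS
    cases s
    · exact e'
    · exact congrArg Neg.neg e'
  · intro k
    exact tr_fld hTC ha10 (by linarith) k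

/-- **fields of test functions, plus channel** -/
theorem inv_plus (ha' : a < 8 / 3) (hκ0 : 0 ≤ κ) (hκ : κ < a) (hb : 0 < b) (hb1 : y₁ < -b)
    (hb2 : b < y₂) :
    ∃ C : ℝ, 0 ≤ C ∧ ∀ M g, TC y₁ y₂ a M g → mass g = 0 → ∃ β : ℂ → ℂ, TC (-b) b κ (C * M) β ∧
      (∀ z : ℂ, |z.im| < b → ∀ s : Bool, PB.rsp (fun _ => β) s z = g z) ∧
      ∀ k : ℝ, k * tr β k = I * WP k * tr g k := by
  have h1 : y₁ < 0 := by linarith
  have h2 : 0 < y₂ := by linarith
  obtain ⟨y0, hy0⟩ : ∃ y0 : ℝ, y0 = (b + min (-y₁) y₂) / 2 := ⟨_, rfl⟩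
  have hmin : b < min (-y₁) y₂ := lt_min (by linarith) hb2
  have hy1 : y₁ < -y0 := by
    have := min_le_left (-y₁) y₂
    linarith
  have hy2 : y0 < y₂ := by
    have := min_le_right (-y₁) y₂
    linarith
  have hby : b < y0 := by linarith
  obtain ⟨η, hη⟩ : ∃ η : ℝ, η = (y0 - b) / 2 := ⟨_, rfl⟩
  have hη0 : 0 < η := by linarith
  obtain ⟨b₁, hb₁⟩ : ∃ b₁ : ℝ, b₁ = y0 - η := ⟨_, rfl⟩
  have hbb : b < b₁ := by linarith
  obtain ⟨a₁, ha₁⟩ : ∃ a₁ : ℝ, a₁ = (κ + a) / 2 := ⟨_, rfl⟩
  have hκ1 : κ < a₁ := by linarith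
  have ha1 : a₁ < a := by linarith
  have ha10 : 0 < a₁ := by linarith
  obtain ⟨CW, hCW0, hCW⟩ := WP_le ha10.le (by linarith : a₁ < 8 / 3) hη0
  have haa : 0 < a - a₁ := by linarith
  set C2 := 2 * (2 / (a - a₁)) / a₁ * Real.exp (y0 * a₁) with hC2
  have hC20 : 0 ≤ C2 := by positivity
  have hyb : 0 < b₁ - b := by linarith
  refine ⟨CW * C2 * (2 / (b₁ - b)) / (2 * Real.pi), by have := Real.pi_pos; positivity,
    fun M g hg hm => ?_⟩
  have hM := hg.nonneg h1 h2
  have htr0 : tr g 0 = 0 := by rw [tr_zero, hm]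
  have hopen : IsOpen {k : ℂ | |k.im| < a} := isOpen_lt (by fun_prop) continuous_const
  have hds : DifferentiableOn ℂ (dslope (tr g) 0) {k : ℂ | |k.im| < a} :=
    (Complex.differentiableOn_dslope (hopen.mem_nhds (by simp; linarith))).2 (tr_diff hg h1 h2)
  have hbd : ∀ k : ℂ, |k.im| ≤ a₁ → ‖dslope (tr g) 0 k‖ ≤ C2 * M * Real.exp (-(y0 * |k.re|)) := by
    intro k hk
    rcases lt_or_ge ‖k‖ a₁ with h | h
    · have h3 : ‖dslope (tr g) 0 k‖ ≤ (M * (2 / (a - a₁))) / a₁ := by
        refine Complex.norm_dslope_le_div_of_mapsTo_ball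
          ((tr_diff hg h1 h2).mono ?_) ?_ (by simpa using h)
        · intro w hw
          have h4 : ‖w‖ < a₁ := by simpa using hw
          have h5 := abs_im_le_norm w
          show |w.im| < a
          linarith
        · intro w hw
          have h4 : ‖w‖ < a₁ := by simpa using hw
          have h5 := abs_im_le_norm w
          rw [htr0, mem_closedBall_zero_iff]
          have h6 := tr_strip hg h1 h2 ha1 hy1 hy2 (k := w) (by linarith)
          refine h6.trans (mul_le_of_le_one_right (by positivity) ?_)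
          rw [Real.exp_le_one_iff]
          have := mul_nonneg (by linarith : 0 ≤ y0) (abs_nonneg w.re)
          linarith
      have h7 : 1 ≤ Real.exp (y0 * a₁) * Real.exp (-(y0 * |k.re|)) := by
        rw [← Real.exp_add]
        refine Real.one_le_exp ?_
        have h8 := abs_re_le_norm k
        nlinarith
      calc ‖dslope (tr g) 0 k‖ ≤ (M * (2 / (a - a₁))) / a₁ := h3
        _ ≤ 2 * ((M * (2 / (a - a₁))) / a₁) * 1 := by
            have : 0 ≤ (M * (2 / (a - a₁))) / a₁ := by positivity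
            linarith
        _ ≤ 2 * ((M * (2 / (a - a₁))) / a₁) * (Real.exp (y0 * a₁) * Real.exp (-(y0 * |k.re|))) :=
            mul_le_mul_of_nonneg_left h7 (by positivity)
        _ = _ := by rw [hC2]; ring
    · have hk0 : k ≠ 0 := by
        intro e
        rw [e, norm_zero] at h
        linarith
      rw [dslope_of_ne _ hk0, slope_def_field, htr0, sub_zero, sub_zero, norm_div]
      have h6 := tr_strip hg h1 h2 ha1 hy1 hy2 hk
      have hkn : 0 < ‖k‖ := by linarith
      have h7 : 1 ≤ Real.exp (y0 * a₁) := Real.one_le_exp (by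
        have : 0 ≤ y0 := by linarith
        positivity)
      calc ‖tr g k‖ / ‖k‖ ≤ (M * (2 / (a - a₁)) * Real.exp (-(y0 * |k.re|))) / a₁ :=
            div_le_div₀ (by positivity) h6 ha10 h
        _ = (1 * 1) * ((M * (2 / (a - a₁)) * Real.exp (-(y0 * |k.re|))) / a₁) := by ring
        _ ≤ (2 * Real.exp (y0 * a₁)) * ((M * (2 / (a - a₁)) * Real.exp (-(y0 * |k.re|))) / a₁) := by
            refine mul_le_mul_of_nonneg_right ?_ (by positivity)
            exact mul_le_mul (by norm_num) h7 (by norm_num) (by norm_num)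
        _ = _ := by rw [hC2]; ring
  set B : ℂ → ℂ := fun k => I * (WP k * dslope (tr g) 0 k) with hB
  have hTC : TC (-a₁) a₁ b₁ (CW * C2 * M) B := by
    constructor
    · intro k hk
      have hk' : |k.im| < a₁ := abs_lt.2 hk
      have h5 : DifferentiableAt ℂ (dslope (tr g) 0) k :=
        hds.differentiableAt (hopen.mem_nhds (by
          show |k.im| < a
          linarith))
      exact (((diff_WP (by linarith)).mul h5).const_mul I).differentiableWithinAt
    · intro k hk
      have hk' : |k.im| < a₁ := abs_lt.2 hk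
      have h5 := hCW k hk'.le
      have h6 := hbd k hk'.le
      simp only [hB]
      rw [norm_mul, norm_mul, norm_I, one_mul]
      calc ‖WP k‖ * ‖dslope (tr g) 0 k‖ ≤ (CW * Real.exp (η * |k.re|)) *
            (C2 * M * Real.exp (-(y0 * |k.re|))) :=
            mul_le_mul h5 h6 (norm_nonneg _) (by positivity)
        _ = CW * C2 * M * (Real.exp (η * |k.re|) * Real.exp (-(y0 * |k.re|))) := by ring
        _ = _ := by
            rw [← Real.exp_add]
            congr 2
            rw [hb₁]
            ring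
  have hslope : ∀ k : ℂ, k ≠ 0 → dslope (tr g) 0 k = tr g k / k := by
    intro k hk
    rw [dslope_of_ne _ hk, slope_def_field, htr0, sub_zero, sub_zero]
  refine ⟨fld B, ?_, ?_, ?_⟩
  · have := fld_TC hTC ha10 hκ0 hκ1 hbb
    refine this.mono (le_of_eq ?_)
    ring
  · intro z hz s
    have hz' : |z.im| < b₁ := by linarith
    have hzS : z ∈ Sp y₁ y₂ := by
      have := abs_lt.1 hz
      exact ⟨by linarith, by linarith⟩
    rw [rsp_fld_plus hTC ha10 hz' s]
    refine half_inv hg (by linarith) h1 h2 hzS ?_ ?_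
    · intro k hk
      have hs4 := sh4_ne hk
      have hkc : (k : ℂ) ≠ 0 := Complex.ofReal_ne_zero.2 hk.ne'
      have h8 : den k ≠ 0 := den_ne (by simp)
      have h9 : sh3 k ≠ 0 := by
        intro e
        have := norm_sinh_ge (3 / 2 * l * k)
        unfold sh3 at e
        rw [e, norm_zero, re_32, ofReal_re] at this
        have h10 : 0 < Real.sinh (3 / 2 * l * k) := Real.sinh_pos_iff.2 (by
          have := l_pos'
          positivity)
        rw [abs_of_pos h10] at this
        linarith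
      have hpi := pi_ne
      simp only [hB]
      rw [sP_eq hk, hslope _ hkc, WP_eq (by simp) hkc]
      field_simp
      linear_combination (-(4 * tr g k)) * I_sq
    · intro k hk
      have hs4 := sh4_ne hk
      have hkc : (k : ℂ) ≠ 0 := Complex.ofReal_ne_zero.2 hk.ne'
      have h8 : den k ≠ 0 := den_ne (by simp)
      have h9 : sh3 k ≠ 0 := by
        intro e
        have := norm_sinh_ge (3 / 2 * l * k)
        unfold sh3 at e
        rw [e, norm_zero, re_32, ofReal_re] at this
        have h10 : 0 < Real.sinh (3 / 2 * l * k) := Real.sinh_pos_iff.2 (by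
          have := l_pos'
          positivity)
        rw [abs_of_pos h10] at this
        linarith
      have hpi := pi_ne
      simp only [hB]
      rw [sP_eq hk, hslope _ (neg_ne_zero.2 hkc), WP_eq (by simp) (neg_ne_zero.2 hkc), sh4_neg,
        sh3_neg, den_neg]
      field_simp
      linear_combination (-(4 * tr g (-k))) * I_sq
  · intro k
    rw [tr_fld hTC ha10 (by linarith) k]
    simp only [hB]
    rcases eq_or_ne k 0 with h | h
    · rw [h]
      push_cast
      rw [htr0]
      ring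
    · have hkc : (k : ℂ) ≠ 0 := Complex.ofReal_ne_zero.2 h
      rw [hslope _ hkc]
      field_simp

end

end PBE
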