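import Pool.Agent.PB.TrC
import Pool.Agent.PB.MFh

/-!
# Plan B: the multipliers of the inverse kernels (helper90)

`y = l k`, `c = cosh y`:
* `sP k = (cosh 3y - 1) (2c - 1) / sinh 4y`, `sM k = (cosh 3y + 1) (2c - 1) / sinh 4y` (real `k`);
* `WM k = - sinh 4y / (2 π i (2c - 1) (cosh 3y + 1))`, `WP k = k sinh 4y / (2 π (cosh 3y - 1) (2c - 1))`
  (without singularity), analytic for `|Im k| < 8 / 3`;
* **`WM_le`, `WP_le`**: bounds in closed strips.
-/

set_option autoImplicit false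

open MeasureTheory Complex Filter Topology Set

noncomputable section

namespace PBE

open NUMF

lemma l_pos' : 0 < l := by unfold l; positivity

/-- `2 cosh (l k) - 1` -/
def den (k : ℂ) : ℂ := 2 * Complex.cosh (l * k) - 1

/-- `cosh (3 l k / 2)` -/
def ch3 (k : ℂ) : ℂ := Complex.cosh (3 / 2 * l * k)

/-- `sinh (4 l k)` -/
def sh4 (k : ℂ) : ℂ := Complex.sinh (4 * l * k)

lemma re_lk (k : ℂ) : ((l : ℂ) * k).re = l * k.re := by simp

lemma im_lk (k : ℂ) : ((l : ℂ) * k).im = l * k.im := by simp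

lemma re_32 (k : ℂ) : (3 / 2 * (l : ℂ) * k).re = 3 / 2 * l * k.re := by
  have e : 3 / 2 * (l : ℂ) = ((3 / 2 * l : ℝ) : ℂ) := by push_cast; ring
  rw [e, re_ofReal_mul]

lemma im_32 (k : ℂ) : (3 / 2 * (l : ℂ) * k).im = 3 / 2 * l * k.im := by
  have e : 3 / 2 * (l : ℂ) = ((3 / 2 * l : ℝ) : ℂ) := by push_cast; ring
  rw [e, im_ofReal_mul]

lemma re_4l (k : ℂ) : (4 * (l : ℂ) * k).re = 4 * l * k.re := by
  have e : 4 * (l : ℂ) = ((4 * l : ℝ) : ℂ) := by push_cast; ring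
  rw [e, re_ofReal_mul]

section

variable {a : ℝ}

/-- the constant of `den` -/
def cD (a : ℝ) : ℝ := 2 * Real.cos (l * a) - 1

/-- the constant of `ch3` -/
def cC (a : ℝ) : ℝ := Real.cos (3 / 2 * l * a)

lemma cD_pos (ha : 0 ≤ a) (ha' : a < 8 / 3) : 0 < cD a := by
  unfold cD
  have h1 : Real.cos (Real.pi / 3) < Real.cos (l * a) := by
    refine Real.cos_lt_cos_of_nonneg_of_le_pi (by have := l_pos'; positivity) ?_ ?_
    · linarith [Real.pi_pos]
    · unfold l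
      have := Real.pi_pos
      nlinarith
  rw [Real.cos_pi_div_three] at h1
  linarith

lemma cC_pos (ha : 0 ≤ a) (ha' : a < 8 / 3) : 0 < cC a := by
  unfold cC
  refine Real.cos_pos_of_mem_Ioo ⟨?_, ?_⟩
  · have := l_pos'
    have := Real.pi_pos
    have h : 0 ≤ 3 / 2 * l * a := by positivity
    linarith
  · unfold l
    have := Real.pi_pos
    nlinarith

lemma cos_ge_of_abs {x y : ℝ} (h : |x| ≤ y) (hy : y ≤ Real.pi) : Real.cos y ≤ Real.cos x := by
  rw [← Real.cos_abs x]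
  exact Real.cos_le_cos_of_nonneg_of_le_pi (abs_nonneg x) hy h

lemma la_le (ha' : a < 8 / 3) : l * a ≤ Real.pi := by
  unfold l
  have := Real.pi_pos
  nlinarith

lemma la_le' (ha' : a < 8 / 3) : 3 / 2 * l * a ≤ Real.pi := by
  unfold l
  have := Real.pi_pos
  nlinarith

/-- lower bound of `den` -/
lemma den_ge (ha : 0 ≤ a) (ha' : a < 8 / 3) {k : ℂ} (hk : |k.im| ≤ a) :
    cD a * Real.cosh (l * k.re) ≤ ‖den k‖ := by
  have h1 := Complex.re_le_norm (den k)
  refine le_trans ?_ h1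
  have e : (den k).re = 2 * (Real.cosh (l * k.re) * Real.cos (l * k.im)) - 1 := by
    unfold den
    rw [sub_re, one_re]
    have e2 : (2 * Complex.cosh (l * k) : ℂ).re = 2 * (Complex.cosh (l * k)).re := by
      have : (2 : ℂ) = ((2 : ℝ) : ℂ) := by norm_num
      rw [this, re_ofReal_mul]
    rw [e2, PB.cosh_re_eq, re_lk, im_lk]
  rw [e]
  unfold cD
  have h2 := Real.one_le_cosh (l * k.re)
  have h3 : Real.cos (l * a) ≤ Real.cos (l * k.im) := by
    refine cos_ge_of_abs ?_ (la_le ha')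
    rw [abs_mul, abs_of_pos l_pos']
    exact mul_le_mul_of_nonneg_left hk l_pos'.le
  nlinarith [mul_le_mul_of_nonneg_left h3 (by linarith : (0:ℝ) ≤ Real.cosh (l * k.re))]

/-- lower bound of `ch3` -/
lemma ch3_ge (ha : 0 ≤ a) (ha' : a < 8 / 3) {k : ℂ} (hk : |k.im| ≤ a) :
    cC a * Real.cosh (3 / 2 * l * k.re) ≤ ‖ch3 k‖ := by
  have h1 := Complex.re_le_norm (ch3 k)
  refine le_trans ?_ h1
  have e : (ch3 k).re = Real.cosh (3 / 2 * l * k.re) * Real.cos (3 / 2 * l * k.im) := by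
    unfold ch3
    rw [PB.cosh_re_eq, re_32, im_32]
  rw [e, mul_comm]
  refine mul_le_mul_of_nonneg_left ?_ (Real.cosh_pos _).le
  refine cos_ge_of_abs ?_ (la_le' ha')
  rw [abs_mul, abs_of_pos (by have := l_pos'; positivity : (0:ℝ) < 3 / 2 * l)]
  exact mul_le_mul_of_nonneg_left hk (by have := l_pos'; positivity)

lemma sh4_le (k : ℂ) : ‖sh4 k‖ ≤ Real.cosh (4 * l * k.re) := by
  unfold sh4
  have := PB.norm_sinh_le (4 * l * k)
  rwa [re_4l] at this

lemma cosh_ge_exp (x : ℝ) : Real.exp |x| / 2 ≤ Real.cosh x := by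
  rw [← Real.cosh_abs, Real.cosh_eq]
  have := Real.exp_pos (-|x|)
  linarith

lemma cosh_le_exp' (x : ℝ) : Real.cosh x ≤ Real.exp |x| := by
  rw [← Real.cosh_abs, Real.cosh_eq]
  have : Real.exp (-|x|) ≤ Real.exp |x| := Real.exp_le_exp.2 (by have := abs_nonneg x; linarith)
  linarith

lemma cosh4_le (x : ℝ) : Real.cosh (4 * l * x) ≤
    8 * (Real.cosh (l * x) * Real.cosh (3 / 2 * l * x) ^ 2) := by
  have hl := l_pos'
  have h1 := cosh_le_exp' (4 * l * x)
  have h2 := cosh_ge_exp (l * x)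
  have h3 := cosh_ge_exp (3 / 2 * l * x)
  have e1 : |4 * l * x| = 4 * (l * |x|) := by
    rw [abs_mul, abs_of_pos (by positivity : (0:ℝ) < 4 * l)]; ring
  have e2 : |l * x| = l * |x| := by rw [abs_mul, abs_of_pos hl]
  have e3 : |3 / 2 * l * x| = 3 / 2 * (l * |x|) := by
    rw [abs_mul, abs_of_pos (by positivity : (0:ℝ) < 3 / 2 * l)]; ring
  rw [e1] at h1
  rw [e2] at h2
  rw [e3] at h3
  set u := l * |x|
  have h4 : (Real.exp (3 / 2 * u) / 2) ^ 2 ≤ Real.cosh (3 / 2 * l * x) ^ 2 :=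
    pow_le_pow_left₀ (by positivity) h3 2
  have h5 : Real.exp u / 2 * (Real.exp (3 / 2 * u) / 2) ^ 2 ≤
      Real.cosh (l * x) * Real.cosh (3 / 2 * l * x) ^ 2 :=
    mul_le_mul h2 h4 (by positivity) (Real.cosh_pos _).le
  have e5 : Real.exp (4 * u) = 8 * (Real.exp u / 2 * (Real.exp (3 / 2 * u) / 2) ^ 2) := by
    rw [div_pow, ← Real.exp_nat_mul]
    have : Real.exp (4 * u) = Real.exp u * Real.exp ((2 : ℕ) * (3 / 2 * u)) := by
      rw [← Real.exp_add]
      congr 1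
      push_cast
      ring
    rw [this]
    ring
  linarith

/-! ### minus channel -/

/-- the inverse of the minus kernel -/
def WM (k : ℂ) : ℂ := -(sh4 k / (4 * Real.pi * I * (den k * ch3 k ^ 2)))

lemma den_ne {k : ℂ} (hk : |k.im| < 8 / 3) : den k ≠ 0 := by
  intro h
  have h1 := den_ge (abs_nonneg k.im) hk le_rfl
  rw [h, norm_zero] at h1
  have h2 := mul_pos (cD_pos (abs_nonneg k.im) hk) (Real.cosh_pos (l * k.re))
  linarith

lemma ch3_ne {k : ℂ} (hk : |k.im| < 8 / 3) : ch3 k ≠ 0 := by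
  intro h
  have h1 := ch3_ge (abs_nonneg k.im) hk le_rfl
  rw [h, norm_zero] at h1
  have h2 := mul_pos (cC_pos (abs_nonneg k.im) hk) (Real.cosh_pos (3 / 2 * l * k.re))
  linarith

lemma diff_den (k : ℂ) : DifferentiableAt ℂ den k := by
  unfold den
  fun_prop

lemma diff_ch3 (k : ℂ) : DifferentiableAt ℂ ch3 k := by
  unfold ch3
  fun_prop

lemma diff_sh4 (k : ℂ) : DifferentiableAt ℂ sh4 k := by
  unfold sh4
  fun_prop

lemma pi_ne : (Real.pi : ℂ) ≠ 0 := Complex.ofReal_ne_zero.2 Real.pi_pos.ne'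

theorem diff_WM {k : ℂ} (hk : |k.im| < 8 / 3) : DifferentiableAt ℂ WM k := by
  unfold WM
  refine ((diff_sh4 k).div ((((diff_den k).mul ((diff_ch3 k).pow 2))).const_mul _) ?_).neg
  have := pi_ne
  exact mul_ne_zero (mul_ne_zero (mul_ne_zero (by norm_num) this) I_ne_zero)
    (mul_ne_zero (den_ne hk) (pow_ne_zero 2 (ch3_ne hk)))

theorem WM_le (ha : 0 ≤ a) (ha' : a < 8 / 3) {k : ℂ} (hk : |k.im| ≤ a) :
    ‖WM k‖ ≤ 2 / (cD a * cC a ^ 2) := by
  have hD := cD_pos ha ha'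
  have hC := cC_pos ha ha'
  have h1 := den_ge ha ha' hk
  have h2 := ch3_ge ha ha' hk
  have h3 := sh4_le k
  have h4 := cosh4_le k.re
  have hc1 := Real.cosh_pos (l * k.re)
  have hc2 := Real.cosh_pos (3 / 2 * l * k.re)
  unfold WM
  rw [norm_neg, norm_div]
  have e : ‖(4 * Real.pi * I * (den k * ch3 k ^ 2) : ℂ)‖ = 4 * Real.pi * (‖den k‖ * ‖ch3 k‖ ^ 2) := by
    simp [abs_of_pos Real.pi_pos]
  rw [e]
  have h5 : (cD a * Real.cosh (l * k.re)) * (cC a * Real.cosh (3 / 2 * l * k.re)) ^ 2 ≤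
      ‖den k‖ * ‖ch3 k‖ ^ 2 :=
    mul_le_mul h1 (pow_le_pow_left₀ (by positivity) h2 2) (by positivity) (norm_nonneg _)
  have hpi := Real.pi_gt_three
  have h6 : 0 < (cD a * Real.cosh (l * k.re)) * (cC a * Real.cosh (3 / 2 * l * k.re)) ^ 2 := by positivity
  rw [div_le_div_iff₀ (by nlinarith) (by positivity)]
  have h7 : Real.cosh (4 * l * k.re) * (cD a * cC a ^ 2) ≤
      8 * ((cD a * Real.cosh (l * k.re)) * (cC a * Real.cosh (3 / 2 * l * k.re)) ^ 2) := by
    have := mul_le_mul_of_nonneg_right h4 (by positivity : 0 ≤ cD a * cC a ^ 2)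
    refine this.trans (le_of_eq ?_)
    ring
  calc ‖sh4 k‖ * (cD a * cC a ^ 2) ≤ Real.cosh (4 * l * k.re) * (cD a * cC a ^ 2) :=
        mul_le_mul_of_nonneg_right h3 (by positivity)
    _ ≤ 8 * ((cD a * Real.cosh (l * k.re)) * (cC a * Real.cosh (3 / 2 * l * k.re)) ^ 2) := h7
    _ ≤ 8 * (‖den k‖ * ‖ch3 k‖ ^ 2) := by linarith
    _ ≤ 2 * (4 * Real.pi * (‖den k‖ * ‖ch3 k‖ ^ 2)) := by
        have : 0 ≤ ‖den k‖ * ‖ch3 k‖ ^ 2 := by positivity
        nlinarith

/-! ### plus channel -/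

/-- `sinh (3 l k / 2)` -/
def sh3 (k : ℂ) : ℂ := Complex.sinh (3 / 2 * l * k)

/-- the inverse of the plus potential: `k sinh 4y / (2 π (cosh 3y - 1) (2c - 1))` -/
def WP (k : ℂ) : ℂ := 4 / (9 * Real.pi * l) *
  (PB.dsh (4 * l * k) / (PB.dsh (3 / 2 * l * k) ^ 2 * den k))

lemma dsh_of_ne {w : ℂ} (hw : w ≠ 0) : PB.dsh w = Complex.sinh w / w := by
  unfold PB.dsh
  rw [dslope_of_ne _ hw, slope_def_field]
  simp

lemma dsh_zero : PB.dsh 0 = 1 := by
  unfold PB.dsh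
  rw [dslope_same]
  have := (Complex.hasDerivAt_sinh 0).deriv
  rw [this, Complex.cosh_zero]

lemma dsh_ne' {w : ℂ} (hw : |w.im| < Real.pi) : PB.dsh w ≠ 0 := by
  rcases eq_or_ne w 0 with h | h
  · rw [h, dsh_zero]
    exact one_ne_zero
  · rw [dsh_of_ne h]
    intro e
    have h1 : Complex.sinh w = 0 := by
      rcases div_eq_zero_iff.1 e with h2 | h2
      · exact h2
      · exact absurd h2 h
    have h2 : Complex.sin (w * I) = 0 := by
      rw [Complex.sin_mul_I, h1, zero_mul]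
    rw [Complex.sin_eq_zero_iff] at h2
    obtain ⟨n, hn⟩ := h2
    have h3 : w = -(n * Real.pi) * I := by
      have : w * I * I = n * Real.pi * I := by rw [hn]
      rw [mul_assoc, I_mul_I] at this
      linear_combination -this
    have h4 : w.im = -(n * Real.pi) := by
      rw [h3]
      simp
    rw [h4, abs_neg, abs_mul, abs_of_pos Real.pi_pos] at hw
    have h5 : |(n : ℝ)| < 1 := by
      by_contra hc
      push Not at hc
      have := mul_le_mul_of_nonneg_right hc Real.pi_pos.le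
      linarith
    have h6 : n = 0 := by
      have : |n| < 1 := by exact_mod_cast h5
      exact Int.abs_lt_one_iff.1 this
    rw [h6] at h3
    simp at h3
    exact h h3

lemma diff_dsh (w : ℂ) : DifferentiableAt ℂ PB.dsh w := by
  unfold PB.dsh
  have h : DifferentiableOn ℂ (dslope Complex.sinh 0) Set.univ :=
    (Complex.differentiableOn_dslope Filter.univ_mem).2
      Complex.differentiable_sinh.differentiableOn
  exact h.differentiableAt Filter.univ_mem

lemma im32_lt {k : ℂ} (hk : |k.im| < 8 / 3) : |(3 / 2 * (l : ℂ) * k).im| < Real.pi := by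
  rw [im_32, abs_mul, abs_of_pos (by have := l_pos'; positivity : (0:ℝ) < 3 / 2 * l)]
  unfold l
  have := Real.pi_pos
  have := abs_nonneg k.im
  nlinarith

theorem diff_WP {k : ℂ} (hk : |k.im| < 8 / 3) : DifferentiableAt ℂ WP k := by
  unfold WP
  have h1 : DifferentiableAt ℂ (fun k : ℂ => PB.dsh (4 * l * k)) k :=
    DifferentiableAt.comp (g := PB.dsh) (f := fun k : ℂ => 4 * (l : ℂ) * k) k (diff_dsh _) (by fun_prop)
  have h2 : DifferentiableAt ℂ (fun k : ℂ => PB.dsh (3 / 2 * l * k)) k :=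
    DifferentiableAt.comp (g := PB.dsh) (f := fun k : ℂ => 3 / 2 * (l : ℂ) * k) k (diff_dsh _)
      (by fun_prop)
  exact (h1.div ((h2.pow 2).mul (diff_den k))
    (mul_ne_zero (pow_ne_zero 2 (dsh_ne' (im32_lt hk))) (den_ne hk))).const_mul _

/-- the quotient form -/
lemma WP_eq {k : ℂ} (hk : |k.im| < 8 / 3) (h0 : k ≠ 0) :
    WP k = k * sh4 k / (4 * Real.pi * (sh3 k ^ 2 * den k)) := by
  have hl : (l : ℂ) ≠ 0 := Complex.ofReal_ne_zero.2 l_pos'.ne'
  have h1 : (4 * l * k : ℂ) ≠ 0 := mul_ne_zero (mul_ne_zero (by norm_num) hl) h0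
  have h2 : (3 / 2 * l * k : ℂ) ≠ 0 := mul_ne_zero (mul_ne_zero (by norm_num) hl) h0
  have h3 := dsh_ne' (im32_lt hk)
  have h4 := den_ne hk
  have h5 := pi_ne
  have h6 : sh3 k ≠ 0 := by
    rw [dsh_of_ne h2] at h3
    intro e
    apply h3
    unfold sh3 at e
    rw [e, zero_div]
  unfold WP
  rw [dsh_of_ne h1, dsh_of_ne h2]
  have e1 : Complex.sinh (4 * l * k) = sh4 k := rfl
  have e2 : Complex.sinh (3 / 2 * l * k) = sh3 k := rfl
  rw [e1, e2]
  field_simp
  ring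

/-- `|sinh Re w| ≤ ‖sinh w‖` -/
lemma norm_sinh_ge (w : ℂ) : |Real.sinh w.re| ≤ ‖Complex.sinh w‖ := by
  have e : Complex.sinh w = (Complex.exp w - Complex.exp (-w)) / 2 := rfl
  rw [e, norm_div, Real.sinh_eq, abs_div]
  have h2 : ‖(2 : ℂ)‖ = |(2 : ℝ)| := by simp
  rw [h2]
  refine div_le_div_of_nonneg_right ?_ (abs_nonneg _)
  have := abs_norm_sub_norm_le (Complex.exp w) (Complex.exp (-w))
  rwa [norm_exp, norm_exp, neg_re] at this

lemma sh3_ge {k : ℂ} (hk1 : 1 ≤ |k.re|) :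
    Real.cosh (3 / 2 * l * k.re) ≤ (1 + 2 / (3 * l)) * ‖sh3 k‖ := by
  have hl := l_pos'
  have h1 : |Real.sinh (3 / 2 * l * k.re)| ≤ ‖sh3 k‖ := by
    have := norm_sinh_ge (3 / 2 * l * k)
    rwa [re_32] at this
  have h2 : 3 / 2 * l ≤ |Real.sinh (3 / 2 * l * k.re)| := by
    rw [Real.abs_sinh, abs_mul, abs_of_pos (by positivity : (0:ℝ) < 3 / 2 * l)]
    have h3 : 3 / 2 * l ≤ 3 / 2 * l * |k.re| := by
      have := mul_le_mul_of_nonneg_left hk1 (by positivity : (0:ℝ) ≤ 3 / 2 * l)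
      linarith
    exact h3.trans (Real.self_le_sinh_iff.2 (by positivity))
  have h4 : Real.cosh (3 / 2 * l * k.re) ≤ 1 + |Real.sinh (3 / 2 * l * k.re)| := by
    rw [← Real.cosh_abs, Real.abs_sinh]
    have h5 := Real.cosh_sub_sinh |3 / 2 * l * k.re|
    have h6 : Real.exp (-|3 / 2 * l * k.re|) ≤ 1 := by
      rw [Real.exp_le_one_iff]
      have := abs_nonneg (3 / 2 * l * k.re)
      linarith
    linarith
  have h7 : 1 ≤ 2 / (3 * l) * |Real.sinh (3 / 2 * l * k.re)| := by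
    rw [div_mul_eq_mul_div, le_div_iff₀ (by positivity)]
    linarith
  calc Real.cosh (3 / 2 * l * k.re) ≤ 1 + |Real.sinh (3 / 2 * l * k.re)| := h4
    _ ≤ (1 + 2 / (3 * l)) * |Real.sinh (3 / 2 * l * k.re)| := by linarith
    _ ≤ _ := mul_le_mul_of_nonneg_left h1 (by positivity)

/-- **bound of `WP`** -/
theorem WP_le (ha : 0 ≤ a) (ha' : a < 8 / 3) {η : ℝ} (hη : 0 < η) :
    ∃ C : ℝ, 0 ≤ C ∧ ∀ k : ℂ, |k.im| ≤ a → ‖WP k‖ ≤ C * Real.exp (η * |k.re|) := by
  have hl := l_pos'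
  have hD := cD_pos ha ha'
  -- the compact part
  have hK : IsCompact (Set.Icc (-1 : ℝ) 1 ×ℂ Set.Icc (-a) a) := isCompact_Icc.reProdIm isCompact_Icc
  have hcont : ContinuousOn WP (Set.Icc (-1 : ℝ) 1 ×ℂ Set.Icc (-a) a) := by
    intro k hk
    have h1 : |k.im| ≤ a := abs_le.2 (by
      have := hk.2
      simpa using this)
    exact (diff_WP (h1.trans_lt ha')).continuousAt.continuousWithinAt
  obtain ⟨C0, hC0⟩ := hK.exists_bound_of_continuousOn hcont
  set S := 1 + 2 / (3 * l) with hS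
  have hS0 : 0 < S := by positivity
  set C1 := (1 / η + a) * (8 * S ^ 2 / cD a) with hC1
  have hC1n : 0 ≤ C1 := by positivity
  refine ⟨|C0| + C1, by positivity, fun k hk => ?_⟩
  have he : 1 ≤ Real.exp (η * |k.re|) := Real.one_le_exp (by positivity)
  rcases lt_or_ge |k.re| 1 with h | h
  · have hm : k ∈ Set.Icc (-1 : ℝ) 1 ×ℂ Set.Icc (-a) a := by
      rw [mem_reProdIm]
      exact ⟨abs_le.1 h.le, abs_le.1 hk⟩
    have h1 := hC0 k hm
    have h2 := le_abs_self C0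
    have h3 : |C0| + C1 ≤ (|C0| + C1) * Real.exp (η * |k.re|) :=
      le_mul_of_one_le_right (by positivity) he
    linarith
  · have hk0 : k ≠ 0 := by
      intro e
      rw [e] at h
      simp at h
      linarith
    rw [WP_eq (hk.trans_lt ha') hk0, norm_div, norm_mul]
    have e : ‖(4 * Real.pi * (sh3 k ^ 2 * den k) : ℂ)‖ = 4 * Real.pi * (‖sh3 k‖ ^ 2 * ‖den k‖) := by
      simp [abs_of_pos Real.pi_pos]
    rw [e]
    have h1 := sh3_ge h
    have h2 := den_ge ha ha' hk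
    have h3 := sh4_le k
    have h4 := cosh4_le k.re
    have hc1 := Real.cosh_pos (l * k.re)
    have hc2 := Real.cosh_pos (3 / 2 * l * k.re)
    have h5 : Real.cosh (3 / 2 * l * k.re) ^ 2 ≤ S ^ 2 * ‖sh3 k‖ ^ 2 := by
      rw [← mul_pow]
      exact pow_le_pow_left₀ hc2.le h1 2
    have h6 : Real.cosh (4 * l * k.re) ≤ 8 * S ^ 2 / cD a * (‖sh3 k‖ ^ 2 * ‖den k‖) := by
      have h7 : Real.cosh (l * k.re) ≤ ‖den k‖ / cD a := by
        rw [le_div_iff₀ hD]
        linarith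
      calc Real.cosh (4 * l * k.re) ≤ 8 * (Real.cosh (l * k.re) * Real.cosh (3 / 2 * l * k.re) ^ 2) := h4
        _ ≤ 8 * (‖den k‖ / cD a * (S ^ 2 * ‖sh3 k‖ ^ 2)) := by
            refine mul_le_mul_of_nonneg_left ?_ (by norm_num)
            exact mul_le_mul h7 h5 (by positivity) (by positivity)
        _ = _ := by ring
    have hs3 : 0 < ‖sh3 k‖ := by
      by_contra hc
      push Not at hc
      have : ‖sh3 k‖ = 0 := le_antisymm hc (norm_nonneg _)
      rw [this, mul_zero] at h1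
      linarith
    have hdn : 0 < ‖den k‖ := lt_of_lt_of_le (by positivity) h2
    have hpi := Real.pi_gt_three
    have h8 : ‖k‖ ≤ (1 / η + a) * Real.exp (η * |k.re|) := by
      have h9 : ‖k‖ ≤ |k.re| + |k.im| := Complex.norm_le_abs_re_add_abs_im k
      have h10 : |k.re| ≤ 1 / η * Real.exp (η * |k.re|) := by
        have := Real.add_one_le_exp (η * |k.re|)
        rw [one_div, inv_mul_eq_div, le_div_iff₀ hη]
        linarith
      nlinarith
    rw [div_le_iff₀ (by positivity)]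
    calc ‖k‖ * ‖sh4 k‖ ≤ ((1 / η + a) * Real.exp (η * |k.re|)) *
          (8 * S ^ 2 / cD a * (‖sh3 k‖ ^ 2 * ‖den k‖)) :=
          mul_le_mul h8 (h3.trans h6) (norm_nonneg _) (by positivity)
      _ = (C1 * Real.exp (η * |k.re|)) * (‖sh3 k‖ ^ 2 * ‖den k‖) := by
          rw [hC1]; ring
      _ ≤ ((|C0| + C1) * Real.exp (η * |k.re|)) * (4 * Real.pi * (‖sh3 k‖ ^ 2 * ‖den k‖)) := by
          have h11 : C1 * Real.exp (η * |k.re|) ≤ (|C0| + C1) * Real.exp (η * |k.re|) :=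
            mul_le_mul_of_nonneg_right (by have := abs_nonneg C0; linarith) (Real.exp_pos _).le
          have h12 : ‖sh3 k‖ ^ 2 * ‖den k‖ ≤ 4 * Real.pi * (‖sh3 k‖ ^ 2 * ‖den k‖) := by
            have : 0 ≤ ‖sh3 k‖ ^ 2 * ‖den k‖ := by positivity
            nlinarith
          exact mul_le_mul h11 h12 (by positivity) (by positivity)

end

end PBE
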