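import Pool.Agent.PB.TrC

/-!
# Plan B: the inverse transform (helper76)

`BC a y K B`: `B` analytic for `|Im k| < a`, `|B k| ≤ K e^{-y |Re k|}`; `iT B z = (2π)⁻¹ ∫ B k e^{ikz} dk`.
* `iT_shift`: the same integral on the line `Im k = η`;
* `iT_deriv`: `(iT B)' = iT (i k B)`;
* **`iT_TC`**: `TC (-b) b κ (C K) (iT B)` for `b < y`, `κ < a`;
* **`tr_iT`**: `tr (iT B) = B` for `|Im k| < a`.
-/

set_option autoImplicit false

open MeasureTheory Complex Filter Topology
open scoped ENNReal FourierTransform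

noncomputable section

namespace PBE

/-- the inverse transform -/
def iT (B : ℂ → ℂ) (z : ℂ) : ℂ := (2 * Real.pi : ℂ)⁻¹ * ∫ k : ℝ, B k * cexp (I * k * z)

/-- analytic in the strip `|Im k| < a` with exponential decay -/
structure BC (a y K : ℝ) (B : ℂ → ℂ) : Prop where
  an : DifferentiableOn ℂ B {k : ℂ | |k.im| < a}
  bd : ∀ k : ℂ, |k.im| < a → ‖B k‖ ≤ K * Real.exp (-(y * |k.re|))

lemma isOpen_im (a : ℝ) : IsOpen {k : ℂ | |k.im| < a} := isOpen_lt (by fun_prop) continuous_const

lemma norm_ei (k z : ℂ) : ‖cexp (I * k * z)‖ = Real.exp (-(k.re * z.im + k.im * z.re)) := by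
  rw [norm_exp]
  congr 1
  simp
  ring

/-- horizontal shift in an open strip -/
theorem line_eq {Φ : ℂ → ℂ} {a δ C : ℝ} (hδ : 0 < δ)
    (hΦ : DifferentiableOn ℂ Φ {k : ℂ | |k.im| < a})
    (hb : ∀ k : ℂ, |k.im| < a → ‖Φ k‖ ≤ C * Real.exp (-(δ * |k.re|))) {η : ℝ} (hη : |η| < a) :
    ∫ k : ℝ, Φ (k + η * I) = ∫ k : ℝ, Φ k := by
  have key : ∀ (Ψ : ℂ → ℂ) (θ : ℝ), 0 ≤ θ →
      (∀ z : ℂ, 0 ≤ z.im → z.im ≤ θ → DifferentiableAt ℂ Ψ z) →
      (∀ z : ℂ, 0 ≤ z.im → z.im ≤ θ → ‖Ψ z‖ ≤ C * Real.exp (-δ * |z.re|)) →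
      ∫ s : ℝ, Ψ s = ∫ s : ℝ, Ψ (s + θ * I) := by
    intro Ψ θ hθ h1 h2
    exact (NUMF.hshift hθ hδ (fun z hz => (h1 z hz.1 hz.2).continuousAt.continuousWithinAt)
      (fun z h3 h4 => h1 z h3.le h4.le) (fun z h3 h4 _ => h2 z h3 h4)).2.2
  have hη' := abs_lt.1 hη
  rcases le_total 0 η with h | h
  · refine (key Φ η h (fun z h1 h2 => ?_) (fun z h1 h2 => ?_)).symm
    · refine hΦ.differentiableAt ((isOpen_im a).mem_nhds ?_)
      show |z.im| < a
      rw [abs_of_nonneg h1]
      linarith
    · have := hb z (by rw [abs_of_nonneg h1]; linarith)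
      rwa [neg_mul]
  · have h0 := key (fun z => Φ (z + η * I)) (-η) (by linarith) (fun z h1 h2 => ?_) (fun z h1 h2 => ?_)
    · rw [h0]
      refine integral_congr_ae (Eventually.of_forall fun t => ?_)
      simp only
      congr 1
      push_cast
      ring
    · have e1 : DifferentiableAt ℂ Φ (z + η * I) := by
        refine hΦ.differentiableAt ((isOpen_im a).mem_nhds ?_)
        show |(z + η * I).im| < a
        have e : (z + η * I).im = z.im + η := by simp
        rw [e, abs_lt]
        constructor <;> linarith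
      exact DifferentiableAt.comp (f := fun z : ℂ => z + η * I) z e1 (by fun_prop)
    · have e : (z + η * I).im = z.im + η := by simp
      have e2 : (z + η * I).re = z.re := by simp
      have := hb (z + η * I) (by
        rw [e, abs_lt]
        constructor <;> linarith)
      rw [e2] at this
      rwa [neg_mul]

section

variable {a y K : ℝ} {B : ℂ → ℂ}

lemma BC.nonneg (hB : BC a y K B) (ha : 0 < a) : 0 ≤ K := by
  have := (norm_nonneg _).trans (hB.bd 0 (by simpa using ha))
  exact nonneg_of_mul_nonneg_left this (Real.exp_pos _)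

lemma BC.mono (hB : BC a y K B) {a' y' K' : ℝ} (ha : a' ≤ a) (hy : y' ≤ y) (hK : K ≤ K')
    (hK0 : 0 ≤ K') : BC a' y' K' B where
  an := hB.an.mono fun k hk => lt_of_lt_of_le hk ha
  bd k hk := by
    refine (hB.bd k (hk.trans_le ha)).trans ?_
    calc K * Real.exp (-(y * |k.re|)) ≤ K' * Real.exp (-(y * |k.re|)) :=
          mul_le_mul_of_nonneg_right hK (Real.exp_pos _).le
      _ ≤ K' * Real.exp (-(y' * |k.re|)) := by
          refine mul_le_mul_of_nonneg_left (Real.exp_le_exp.2 ?_) hK0
          have := mul_le_mul_of_nonneg_right hy (abs_nonneg k.re)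
          linarith

lemma BC.cont (hB : BC a y K B) {η : ℝ} (hη : |η| < a) : Continuous fun k : ℝ => B (k + η * I) := by
  rw [continuous_iff_continuousAt]
  intro k
  have hm : (k + η * I : ℂ) ∈ {k : ℂ | |k.im| < a} := by simpa using hη
  have := (hB.an.differentiableAt ((isOpen_im a).mem_nhds hm)).continuousAt
  exact ContinuousAt.comp (f := fun k : ℝ => (k + η * I : ℂ)) this (by fun_prop)

lemma BC.cont0 (hB : BC a y K B) (ha : 0 < a) : Continuous fun k : ℝ => B k := by
  have := hB.cont (η := 0) (by simpa using ha)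
  simpa using this

/-- the integrand on the line `Im k = η` -/
lemma BC.norm_ei_le (hB : BC a y K B) {η : ℝ} (hη : |η| < a) (z : ℂ) (k : ℝ) :
    ‖B (k + η * I) * cexp (I * (k + η * I) * z)‖ ≤
      K * Real.exp (-(η * z.re)) * Real.exp (-((y - |z.im|) * |k|)) := by
  have ha : 0 < a := (abs_nonneg η).trans_lt hη
  have hK := hB.nonneg ha
  have e1 : (k + η * I : ℂ).im = η := by simp
  have e2 : (k + η * I : ℂ).re = k := by simp
  have h1 := hB.bd (k + η * I) (by rw [e1]; exact hη)
  rw [e2] at h1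
  rw [norm_mul, norm_ei, e1, e2]
  have h2 : -(k * z.im) ≤ |k| * |z.im| := by
    rw [← abs_mul]
    exact neg_le_abs _
  calc ‖B (k + η * I)‖ * Real.exp (-(k * z.im + η * z.re))
      ≤ (K * Real.exp (-(y * |k|))) * Real.exp (|k| * |z.im| - η * z.re) := by
        refine mul_le_mul h1 (Real.exp_le_exp.2 (by linarith)) (Real.exp_pos _).le (by positivity)
    _ = _ := by
        rw [mul_assoc, mul_assoc, ← Real.exp_add, ← Real.exp_add]
        congr 2
        ring

lemma BC.int_ei (hB : BC a y K B) {η : ℝ} (hη : |η| < a) {z : ℂ} (hz : |z.im| < y) :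
    Integrable fun k : ℝ => B (k + η * I) * cexp (I * (k + η * I) * z) := by
  have hi := (int_exp_abs (a := y - |z.im|) (by linarith)).1.const_mul (K * Real.exp (-(η * z.re)))
  refine hi.mono' ?_ (Eventually.of_forall fun k => hB.norm_ei_le hη z k)
  exact ((hB.cont hη).mul (by fun_prop)).aestronglyMeasurable

lemma BC.int_ei0 (hB : BC a y K B) (ha : 0 < a) {z : ℂ} (hz : |z.im| < y) :
    Integrable fun k : ℝ => B k * cexp (I * k * z) := by
  have := hB.int_ei (η := 0) (by simpa using ha) hz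
  simpa using this

/-- **the shift of the line** -/
theorem iT_shift (hB : BC a y K B) {η : ℝ} (hη : |η| < a) {z : ℂ} (hz : |z.im| < y) :
    iT B z = (2 * Real.pi : ℂ)⁻¹ * ∫ k : ℝ, B (k + η * I) * cexp (I * (k + η * I) * z) := by
  have ha : 0 < a := (abs_nonneg η).trans_lt hη
  have hK := hB.nonneg ha
  unfold iT
  congr 1
  refine (line_eq (Φ := fun k => B k * cexp (I * k * z)) (a := a) (δ := y - |z.im|)
    (C := K * Real.exp (a * |z.re|)) (by linarith) (hB.an.mul (by fun_prop)) (fun k hk => ?_) hη).symm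
  have h1 := hB.norm_ei_le (η := k.im) hk z k.re
  rw [re_add_im] at h1
  refine h1.trans (mul_le_mul_of_nonneg_right ?_ (Real.exp_pos _).le)
  refine mul_le_mul_of_nonneg_left (Real.exp_le_exp.2 ?_) hK
  calc -(k.im * z.re) ≤ |k.im * z.re| := neg_le_abs _
    _ = |k.im| * |z.re| := abs_mul _ _
    _ ≤ _ := mul_le_mul_of_nonneg_right hk.le (abs_nonneg _)

/-- **the bound** -/
theorem iT_le (hB : BC a y K B) {b κ : ℝ} (hκ0 : 0 ≤ κ) (hκ : κ < a) (hby : b < y) {z : ℂ}
    (hz : |z.im| ≤ b) : ‖iT B z‖ ≤ K * ((2 * Real.pi)⁻¹ * (2 / (y - b))) * Real.exp (-(κ * |z.re|)) := by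
  have ha : 0 < a := hκ0.trans_lt hκ
  have hK := hB.nonneg ha
  obtain ⟨η, hη, hηz⟩ : ∃ η : ℝ, |η| < a ∧ η * z.re = κ * |z.re| := by
    rcases le_total 0 z.re with h | h
    · exact ⟨κ, by rwa [abs_of_nonneg hκ0], by rw [abs_of_nonneg h]⟩
    · exact ⟨-κ, by rwa [abs_neg, abs_of_nonneg hκ0], by rw [abs_of_nonpos h]; ring⟩
  rw [iT_shift hB hη (hz.trans_lt hby), norm_mul]
  have hi := int_exp_abs (a := y - b) (by linarith)
  have h1 : ‖∫ k : ℝ, B (k + η * I) * cexp (I * (k + η * I) * z)‖ ≤
      (K * Real.exp (-(κ * |z.re|))) * (2 / (y - b)) := by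
    rw [← hi.2, ← integral_const_mul]
    refine norm_integral_le_of_norm_le (hi.1.const_mul _) (Eventually.of_forall fun k => ?_)
    refine (hB.norm_ei_le hη z k).trans ?_
    rw [hηz]
    refine mul_le_mul_of_nonneg_left (Real.exp_le_exp.2 ?_) (by positivity)
    have := mul_le_mul_of_nonneg_right hz (abs_nonneg k)
    nlinarith
  have h2 : ‖(2 * Real.pi : ℂ)⁻¹‖ = (2 * Real.pi)⁻¹ := by
    rw [norm_inv, norm_mul, Complex.norm_real, Real.norm_of_nonneg Real.pi_pos.le]
    norm_num
  rw [h2]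
  calc (2 * Real.pi)⁻¹ * ‖∫ k : ℝ, B (k + η * I) * cexp (I * (k + η * I) * z)‖
      ≤ (2 * Real.pi)⁻¹ * ((K * Real.exp (-(κ * |z.re|))) * (2 / (y - b))) :=
        mul_le_mul_of_nonneg_left h1 (by positivity)
    _ = _ := by ring

/-- multiplication by `i k` -/
theorem BC.ik (hB : BC a y K B) (ha : 0 < a) {d : ℝ} (hd : 0 < d) :
    BC a (y - d) (K * (a + 1 / d)) (fun k => I * k * B k) where
  an := (DifferentiableOn.mul (by fun_prop) hB.an)
  bd k hk := by
    have hK := hB.nonneg ha
    rw [norm_mul, norm_mul, norm_I, one_mul]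
    have h1 : ‖k‖ ≤ |k.re| + |k.im| := Complex.norm_le_abs_re_add_abs_im k
    have h2 : |k.re| ≤ 1 / d * Real.exp (d * |k.re|) := by
      have := Real.add_one_le_exp (d * |k.re|)
      rw [one_div, inv_mul_eq_div, le_div_iff₀ hd]
      linarith
    have h3 : (1 : ℝ) ≤ Real.exp (d * |k.re|) := Real.one_le_exp (by positivity)
    have h4 : ‖k‖ ≤ (a + 1 / d) * Real.exp (d * |k.re|) := by
      have : a ≤ a * Real.exp (d * |k.re|) := le_mul_of_one_le_right ha.le h3
      linarith
    calc ‖k‖ * ‖B k‖ ≤ ((a + 1 / d) * Real.exp (d * |k.re|)) * (K * Real.exp (-(y * |k.re|))) :=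
          mul_le_mul h4 (hB.bd k hk) (norm_nonneg _) (by positivity)
      _ = K * (a + 1 / d) * (Real.exp (d * |k.re|) * Real.exp (-(y * |k.re|))) := by ring
      _ = _ := by
          rw [← Real.exp_add]
          congr 2
          ring

/-- **the derivative** -/
theorem iT_deriv (hB : BC a y K B) (ha : 0 < a) {z : ℂ} (hz : |z.im| < y) :
    HasDerivAt (iT B) (iT (fun k => I * k * B k) z) z := by
  have hK := hB.nonneg ha
  obtain ⟨d, hd⟩ : ∃ d : ℝ, d = (y - |z.im|) / 4 := ⟨_, rfl⟩
  have hd0 : 0 < d := by rw [hd]; linarith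
  have key := hasDerivAt_integral_of_dominated_loc_of_deriv_le (μ := volume)
    (F := fun (z : ℂ) (k : ℝ) => B k * cexp (I * k * z))
    (F' := fun (z : ℂ) (k : ℝ) => I * k * B k * cexp (I * k * z))
    (x₀ := z) (bound := fun k => K * (a + 1 / d) * Real.exp (-(d * |k|))) (s := Metric.ball z d)
    (Metric.ball_mem_nhds z hd0)
    (Eventually.of_forall fun z => ((hB.cont0 ha).mul (by fun_prop)).aestronglyMeasurable)
    (hB.int_ei0 ha hz)
    ((((by fun_prop : Continuous fun k : ℝ => I * (k : ℂ)).mul (hB.cont0 ha)).mul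
      (by fun_prop)).aestronglyMeasurable)
    (Eventually.of_forall fun k w hw => by
      have h5 : |w.im| ≤ |z.im| + d := by
        have h6 := (abs_im_le_norm (w - z)).trans (mem_ball_iff_norm.1 hw).le
        have h7 : w.im = z.im + (w - z).im := by simp
        rw [h7]
        exact (abs_add_le _ _).trans (by linarith)
      have h8 := (hB.ik ha hd0).bd (k : ℂ) (by simpa using ha)
      simp only [ofReal_re] at h8
      rw [norm_mul, norm_ei]
      have h9 : -((k : ℂ).re * w.im + (k : ℂ).im * w.re) ≤ (|z.im| + d) * |k| := by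
        simp only [ofReal_re, ofReal_im, zero_mul, add_zero]
        calc -(k * w.im) ≤ |k * w.im| := neg_le_abs _
          _ = |w.im| * |k| := by rw [abs_mul, mul_comm]
          _ ≤ _ := mul_le_mul_of_nonneg_right h5 (abs_nonneg _)
      calc ‖I * k * B k‖ * Real.exp (-((k : ℂ).re * w.im + (k : ℂ).im * w.re))
          ≤ (K * (a + 1 / d) * Real.exp (-((y - d) * |k|))) * Real.exp ((|z.im| + d) * |k|) :=
            mul_le_mul h8 (Real.exp_le_exp.2 h9) (Real.exp_pos _).le (by positivity)
        _ = K * (a + 1 / d) * Real.exp (-((y - |z.im| - 2 * d) * |k|)) := by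
            rw [mul_assoc, ← Real.exp_add]
            congr 2
            ring
        _ ≤ _ := by
            refine mul_le_mul_of_nonneg_left (Real.exp_le_exp.2 ?_) (by positivity)
            have h11 : y - |z.im| = 4 * d := by rw [hd]; ring
            rw [h11]
            have := mul_nonneg hd0.le (abs_nonneg k)
            nlinarith)
    ((int_exp_abs hd0).1.const_mul _)
    (Eventually.of_forall fun k w _ => by
      have h5 : HasDerivAt (fun w : ℂ => cexp (I * k * w)) (cexp (I * k * w) * (I * k)) w := by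
        have h6 : HasDerivAt (fun w : ℂ => I * k * w) (I * k) w := by
          simpa using (hasDerivAt_id w).const_mul (I * k)
        exact h6.cexp
      exact (h5.const_mul (B k)).congr_deriv (by ring))
  exact key.2.const_mul _

/-- **the inverse transform is a test function** -/
theorem iT_TC (hB : BC a y K B) {b κ : ℝ} (hκ0 : 0 ≤ κ) (hκ : κ < a) (hby : b < y) :
    TC (-b) b κ (K * ((2 * Real.pi)⁻¹ * (2 / (y - b)))) (iT B) where
  an z hz := by
    have h : |z.im| < b := abs_lt.2 ⟨hz.1, hz.2⟩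
    exact (iT_deriv hB (hκ0.trans_lt hκ) (h.trans hby)).differentiableAt.differentiableWithinAt
  bd z hz := iT_le hB hκ0 hκ hby (abs_lt.2 ⟨hz.1, hz.2⟩).le

/-- Fourier inversion for functions of the frequency -/
lemma inv_four {F : ℝ → ℂ} (hc : Continuous F) (hi : Integrable F)
    (hφ : Integrable fun t : ℝ => (2 * Real.pi : ℂ)⁻¹ * ∫ k : ℝ, F k * cexp (I * k * t)) (x : ℝ) :
    ∫ t : ℝ, ((2 * Real.pi : ℂ)⁻¹ * ∫ k : ℝ, F k * cexp (I * k * t)) * cexp (-(I * x * t)) = F x := by
  set f : ℝ → ℂ := fun ξ => F (2 * Real.pi * ξ) with hf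
  have hpi := Real.pi_pos
  have h1 : Continuous f := hc.comp (by fun_prop)
  have h2 : Integrable f := hi.comp_mul_left' (by positivity)
  have e1 : 𝓕⁻ f = fun t : ℝ => (2 * Real.pi : ℂ)⁻¹ * ∫ k : ℝ, F k * cexp (I * k * t) := by
    funext t
    rw [Real.fourierInv_eq']
    have e2 : ∀ ξ : ℝ, cexp ((↑(2 * Real.pi * inner ℝ ξ t) : ℂ) * I) • f ξ =
        (fun k : ℝ => F k * cexp (I * k * t)) (2 * Real.pi * ξ) := by
      intro ξ
      simp only [smul_eq_mul, hf]
      rw [mul_comm]
      congr 2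
      simp only [RCLike.inner_apply, conj_trivial]
      push_cast
      ring
    have e3 : (∫ ξ : ℝ, cexp ((↑(2 * Real.pi * inner ℝ ξ t) : ℂ) * I) • f ξ) =
        ∫ ξ : ℝ, (fun k : ℝ => F k * cexp (I * k * t)) (2 * Real.pi * ξ) :=
      integral_congr_ae (Eventually.of_forall e2)
    have e4 := Measure.integral_comp_mul_left (fun k : ℝ => F k * cexp (I * k * t)) (2 * Real.pi)
    rw [e3, e4, abs_of_pos (by positivity), real_smul]
    push_cast
    rfl
  have h3 : Integrable (𝓕⁻ f) := by rw [e1]; exact hφ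
  have h3' : Integrable (𝓕 f) := by
    have h := h3.comp_neg
    refine h.congr (Eventually.of_forall fun t => ?_)
    simp only
    rw [Real.fourierInv_eq_fourier_neg, neg_neg]
  have h4 := h1.fourier_fourierInv_eq h2 h3'
  have h5 := congrFun h4 (x / (2 * Real.pi))
  rw [Real.fourier_eq', e1] at h5
  have e6 : f (x / (2 * Real.pi)) = F x := by
    simp only [hf]
    congr 1
    field_simp
  rw [e6] at h5
  rw [← h5]
  refine integral_congr_ae (Eventually.of_forall fun t => ?_)
  simp only [smul_eq_mul]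
  rw [mul_comm]
  congr 2
  simp only [RCLike.inner_apply, conj_trivial]
  push_cast
  field_simp

/-- **`tr (iT B) = B`** -/
theorem tr_iT (hB : BC a y K B) (hy : 0 < y) {k : ℂ} (hk : |k.im| < a) : tr (iT B) k = B k := by
  have ha : 0 < a := (abs_nonneg _).trans_lt hk
  have hK := hB.nonneg ha
  obtain ⟨x, hx⟩ : ∃ x : ℝ, x = k.re := ⟨_, rfl⟩
  obtain ⟨η, hη⟩ : ∃ η : ℝ, η = k.im := ⟨_, rfl⟩
  have hη' : |η| < a := by rw [hη]; exact hk
  have ek : k = x + η * I := by rw [hx, hη]; exact (re_add_im k).symm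
  obtain ⟨κ, hκ1, hκ2⟩ : ∃ κ : ℝ, |η| < κ ∧ κ < a := exists_between hη'
  have hκ0 : 0 ≤ κ := (abs_nonneg _).trans hκ1.le
  -- the function `F`
  set F : ℝ → ℂ := fun k => B (k + η * I) with hF
  have hFc : Continuous F := hB.cont hη'
  have hFi : Integrable F := by
    refine ((int_exp_abs hy).1.const_mul K).mono' hFc.aestronglyMeasurable
      (Eventually.of_forall fun k => ?_)
    have := hB.bd (k + η * I) (by simpa using hη')
    simpa using this
  have e1 : ∀ t : ℝ, (2 * Real.pi : ℂ)⁻¹ * ∫ k : ℝ, F k * cexp (I * k * t) =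
      iT B t * cexp (η * t) := by
    intro t
    rw [iT_shift hB hη' (z := (t : ℂ)) (by simpa using hy), mul_assoc, ← integral_mul_const]
    congr 1
    refine integral_congr_ae (Eventually.of_forall fun k => ?_)
    simp only [hF]
    rw [mul_assoc (B _), ← Complex.exp_add]
    congr 2
    linear_combination (-(η * t : ℂ)) * I_sq
  have hφ : Integrable fun t : ℝ => (2 * Real.pi : ℂ)⁻¹ * ∫ k : ℝ, F k * cexp (I * k * t) := by
    have hcont : Continuous fun t : ℝ => iT B t * cexp (η * t) := by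
      refine Continuous.mul ?_ (by fun_prop)
      rw [continuous_iff_continuousAt]
      intro t
      have := (iT_deriv hB ha (z := (t : ℂ)) (by simpa using hy)).continuousAt
      exact ContinuousAt.comp (f := fun t : ℝ => (t : ℂ)) this (by fun_prop)
    have hd : 0 < κ - |η| := by linarith
    refine ((int_exp_abs hd).1.const_mul (K * ((2 * Real.pi)⁻¹ * (2 / (y - 0))))).mono' ?_
      (Eventually.of_forall fun t => ?_)
    · simp_rw [e1]
      exact hcont.aestronglyMeasurable
    · rw [e1, norm_mul]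
      have h2 := iT_le hB hκ0 hκ2 (b := 0) hy (z := (t : ℂ)) (by simp)
      rw [ofReal_re] at h2
      have h3 : ‖cexp (η * t)‖ ≤ Real.exp (|η| * |t|) := by
        rw [norm_exp]
        refine Real.exp_le_exp.2 ?_
        have : ((η : ℂ) * t).re = η * t := by simp
        rw [this, ← abs_mul]
        exact le_abs_self _
      calc ‖iT B t‖ * ‖cexp (η * t)‖ ≤ (K * ((2 * Real.pi)⁻¹ * (2 / (y - 0))) *
            Real.exp (-(κ * |t|))) * Real.exp (|η| * |t|) :=
            mul_le_mul h2 h3 (norm_nonneg _) (by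
              have : 0 ≤ 2 / (y - 0) := by
                rw [sub_zero]
                positivity
              positivity)
        _ = _ := by
            rw [mul_assoc, ← Real.exp_add]
            congr 2
            ring
  have h5 := inv_four hFc hFi hφ x
  have e7 : B k = F x := by
    simp only [hF]
    rw [ek]
  rw [e7, ← h5]
  unfold tr
  refine integral_congr_ae (Eventually.of_forall fun t => ?_)
  simp only
  rw [e1, mul_assoc (iT B t), ← Complex.exp_add]
  congr 2
  rw [ek]
  linear_combination (-(η * t : ℂ)) * I_sq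

end

end PBE
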