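import Pool.Agent.NUGC.PsiT
import Pool.Agent.NUP1.PsiMono

/-!
# K11: the cut of `St` is exponentially small near the centre

One row at distance `z` (`z = w - l - x`, `w` the head of `St`): for `β ≤ (4/3) (1 - ε)`

* `psiA`: `‖psi β z‖ ≤ ‖psi (4/3) z‖ exp (-κ e^{-(8/3)|t|})` if `l ≤ |re z + l / 2| ≤ 3 l / 2`,
* `psiB`: `‖psi β' (z + l)‖ ≤ ‖psi (4/3) z‖ exp (-κ e^{-(8/3)|t|})`, also for `β' = 4 / 3`.
-/

set_option autoImplicit false

noncomputable section

open Complex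

namespace PB.K11

open NUP1 NUGC

/-! ### the modulus -/

/-- `cosh² + cos² + cos² - 1` -/
def Dd (p c C : ℝ) : ℝ := C ^ 2 + p ^ 2 + c ^ 2 - 1

lemma norm_psi_sq' {β : ℝ} (z : ℂ) :
    ‖psi β z‖ ^ 2 = (Dd (Real.cos (2 * β * (z.re + l / 2))) (Real.cos (β * l)) (Real.cosh (2 * β * z.im)) -
        2 * Real.cos (β * l) * Real.cos (2 * β * (z.re + l / 2)) * Real.cosh (2 * β * z.im)) /
      (Dd (Real.cos (2 * β * (z.re + l / 2))) (Real.cos (β * l)) (Real.cosh (2 * β * z.im)) +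
        2 * Real.cos (β * l) * Real.cos (2 * β * (z.re + l / 2)) * Real.cosh (2 * β * z.im)) := by
  have hcl : cos (β * l : ℂ) = ((Real.cos (β * l) : ℝ) : ℂ) := by push_cast; rfl
  have hs := Real.sin_sq_add_cos_sq (2 * β * (z.re + l / 2))
  have hh := Real.cosh_sq (2 * β * z.im)
  have hcf := cos_form β z
  unfold psi Dd
  rw [hcf, hcl]
  generalize Real.cos (β * l) = A at *
  generalize Real.cos (2 * β * (z.re + l / 2)) = B at *
  generalize Real.sin (2 * β * (z.re + l / 2)) = b at *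
  generalize Real.cosh (2 * β * z.im) = C at *
  generalize Real.sinh (2 * β * z.im) = S at *
  have n1 : ‖((B * C : ℝ) : ℂ) + ((-(b * S) : ℝ) : ℂ) * I - (A : ℂ)‖ ^ 2 =
      C ^ 2 + B ^ 2 + A ^ 2 - 1 - 2 * A * B * C := by
    rw [show ((B * C : ℝ) : ℂ) + ((-(b * S) : ℝ) : ℂ) * I - (A : ℂ) =
      ((B * C - A : ℝ) : ℂ) + ((-(b * S) : ℝ) : ℂ) * I by push_cast; ring, ← normSq_eq_norm_sq,
      normSq_add_mul_I]
    have hb : b ^ 2 = 1 - B ^ 2 := by linarith
    have hS : S ^ 2 = C ^ 2 - 1 := by linarith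
    have : (-(b * S)) ^ 2 = b ^ 2 * S ^ 2 := by ring
    rw [this, hb, hS]
    ring
  have n2 : ‖((B * C : ℝ) : ℂ) + ((-(b * S) : ℝ) : ℂ) * I + (A : ℂ)‖ ^ 2 =
      C ^ 2 + B ^ 2 + A ^ 2 - 1 + 2 * A * B * C := by
    rw [show ((B * C : ℝ) : ℂ) + ((-(b * S) : ℝ) : ℂ) * I + (A : ℂ) =
      ((B * C + A : ℝ) : ℂ) + ((-(b * S) : ℝ) : ℂ) * I by push_cast; ring, ← normSq_eq_norm_sq,
      normSq_add_mul_I]
    have hb : b ^ 2 = 1 - B ^ 2 := by linarith
    have hS : S ^ 2 = C ^ 2 - 1 := by linarith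
    have : (-(b * S)) ^ 2 = b ^ 2 * S ^ 2 := by ring
    rw [this, hb, hS]
    ring
  rw [norm_div, div_pow, n1, n2]

/-! ### algebra of `S = 2 c p C / D` -/

/-- comparison of two moduli from a lower bound of the difference of `2 c p C / D` -/
lemma ratio_le {p c C p0 c0 C0 d : ℝ} (hD : 0 < Dd p c C) (hD0 : 0 < Dd p0 c0 C0)
    (hp : 0 ≤ 2 * c * p * C) (hp0 : 0 ≤ 2 * c0 * p0 * C0) (h0 : 2 * c0 * p0 * C0 ≤ Dd p0 c0 C0)
    (h1 : 2 * c * p * C ≤ Dd p c C) (hd0 : 0 ≤ d)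
    (hd : d ≤ 2 * c * p * C / Dd p c C - 2 * c0 * p0 * C0 / Dd p0 c0 C0) :
    (Dd p c C - 2 * c * p * C) / (Dd p c C + 2 * c * p * C) ≤
      (Dd p0 c0 C0 - 2 * c0 * p0 * C0) / (Dd p0 c0 C0 + 2 * c0 * p0 * C0) * Real.exp (-d) := by
  set D := Dd p c C
  set D0 := Dd p0 c0 C0
  set S := 2 * c * p * C / D with hS
  set S0 := 2 * c0 * p0 * C0 / D0 with hS0
  have e1 : (D - 2 * c * p * C) / (D + 2 * c * p * C) = (1 - S) / (1 + S) := by
    rw [hS]
    have : D + 2 * c * p * C ≠ 0 := by positivity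
    have h2 : (1 + 2 * c * p * C / D) ≠ 0 := by positivity
    field_simp
  have e2 : (D0 - 2 * c0 * p0 * C0) / (D0 + 2 * c0 * p0 * C0) = (1 - S0) / (1 + S0) := by
    rw [hS0]
    have : D0 + 2 * c0 * p0 * C0 ≠ 0 := by positivity
    have h2 : (1 + 2 * c0 * p0 * C0 / D0) ≠ 0 := by positivity
    field_simp
  rw [e1, e2]
  have s0 : 0 ≤ S := div_nonneg hp hD.le
  have s1 : S ≤ 1 := (div_le_one hD).2 h1
  have t0 : 0 ≤ S0 := div_nonneg hp0 hD0.le
  have t1 : S0 ≤ 1 := (div_le_one hD0).2 h0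
  have hexp : 1 - d ≤ Real.exp (-d) := by
    have := Real.add_one_le_exp (-d)
    linarith
  have hE := Real.exp_pos (-d)
  have hge : 0 ≤ (1 - S0) / (1 + S0) := div_nonneg (by linarith) (by linarith)
  refine le_trans ?_ (mul_le_mul_of_nonneg_left hexp hge)
  rw [div_mul_eq_mul_div, div_le_div_iff₀ (by linarith) (by linarith)]
  -- `(1-S)(1+S0) ≤ (1-S0)(1-d)(1+S)`
  have hdS : d ≤ S - S0 := hd
  nlinarith [mul_nonneg hd0 (mul_nonneg (sub_nonneg.2 t1) (sub_nonneg.2 s1)), mul_nonneg hd0 s0,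
    mul_nonneg hd0 t0, mul_nonneg (sub_nonneg.2 t1) s0]

/-- the difference at the same `C` -/
lemma diff_id {p c p0 c0 C : ℝ} (hD : Dd p c C ≠ 0) (hD0 : Dd p0 c0 C ≠ 0) :
    2 * c * p * C / Dd p c C - 2 * c0 * p0 * C / Dd p0 c0 C =
      2 * C * ((c * p - c0 * p0) * (C ^ 2 - 1) + (p * c0 - p0 * c) * (c * c0 - p * p0)) /
        (Dd p c C * Dd p0 c0 C) := by
  rw [div_sub_div _ _ hD hD0]
  congr 1
  unfold Dd
  ring

/-- `2 c p C / D` is decreasing in `C` -/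
lemma mono_C {p c C C0 : ℝ} (hc : 0 ≤ c) (hp : 0 ≤ p) (hc1 : c ≤ 1) (hp1 : p ≤ 1) (hC : 1 ≤ C)
    (hCC : C ≤ C0) (hD : 0 < Dd p c C) : 2 * c * p * C0 / Dd p c C0 ≤ 2 * c * p * C / Dd p c C := by
  have hD0 : Dd p c C ≤ Dd p c C0 := by
    unfold Dd
    nlinarith
  rw [div_le_div_iff₀ (lt_of_lt_of_le hD hD0) hD]
  have e : 2 * c * p * C * Dd p c C0 - 2 * c * p * C0 * Dd p c C =
      2 * c * p * ((C0 - C) * (C * C0 - (p ^ 2 + c ^ 2 - 1))) := by
    unfold Dd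
    ring
  have h1 : 0 ≤ C * C0 - (p ^ 2 + c ^ 2 - 1) := by nlinarith
  have h2 : 0 ≤ 2 * c * p * ((C0 - C) * (C * C0 - (p ^ 2 + c ^ 2 - 1))) :=
    mul_nonneg (by positivity) (mul_nonneg (by linarith) h1)
  linarith

lemma two_cpC_le {p c C : ℝ} (hC : 1 ≤ C) (hc1 : c ≤ 1) (hp1 : p ≤ 1) (hc : 0 ≤ c) (hp : 0 ≤ p) :
    2 * c * p * C ≤ Dd p c C := by
  unfold Dd
  -- `C² + p² + c² - 1 - 2 c p C = (C - c p)² - (1 - c²)(1 - p²)`
  have h1 : (1 - c ^ 2) * (1 - p ^ 2) ≤ (1 - c * p) ^ 2 := by nlinarith [sq_nonneg (c - p)]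
  have h2 : (1 - c * p) ^ 2 ≤ (C - c * p) ^ 2 := by
    have : c * p ≤ 1 := mul_le_one₀ hc1 hp hp1
    exact pow_le_pow_left₀ (by linarith) (by linarith) 2
  nlinarith

lemma Dd_pos {p c C : ℝ} (hC : 1 ≤ C) (hc : 0 < c) : 0 < Dd p c C := by
  unfold Dd
  have := sq_nonneg p
  have := pow_pos hc 2
  nlinarith

lemma Dd_le {p c C : ℝ} (hC : 1 ≤ C) (hc : 0 ≤ c) (hc1 : c ≤ 1) (hp : 0 ≤ p) (hp1 : p ≤ 1) :
    Dd p c C ≤ 2 * C ^ 2 := by
  unfold Dd
  nlinarith

/-! ### one row -/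

lemma cos43 : Real.cos (4 / 3 * l) = √3 / 2 := NUGC.cos43l

lemma s3_lo : (1.73 : ℝ) < √3 := by
  rw [Real.lt_sqrt (by norm_num)]
  norm_num

lemma s3_hi : √3 < (1.74 : ℝ) := by
  rw [Real.sqrt_lt' (by norm_num)]
  norm_num

lemma cosh_le_exp (t : ℝ) : Real.cosh (8 / 3 * t) ≤ Real.exp (8 / 3 * |t|) := by
  have e : Real.cosh (8 / 3 * t) = Real.cosh (8 / 3 * |t|) := by
    rw [← Real.cosh_abs (8 / 3 * t), abs_mul, abs_of_pos (by norm_num : (0 : ℝ) < 8 / 3)]
  rw [e, Real.cosh_eq]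
  have : Real.exp (-(8 / 3 * |t|)) ≤ Real.exp (8 / 3 * |t|) :=
    Real.exp_le_exp.2 (by linarith [abs_nonneg t])
  linarith

/-- from the comparison of the squares -/
lemma norm_le_of_sq {a b d : ℝ} (ha : 0 ≤ a) (hb : 0 ≤ b) (h : a ^ 2 ≤ b ^ 2 * Real.exp (-d)) :
    a ≤ b * Real.exp (-(d / 2)) := by
  have e : b ^ 2 * Real.exp (-d) = (b * Real.exp (-(d / 2))) ^ 2 := by
    rw [mul_pow, ← Real.exp_nat_mul]
    congr 2
    push_cast
    ring
  rw [e] at h
  exact (sq_le_sq₀ ha (mul_nonneg hb (Real.exp_pos _).le)).1 h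

/-- **the row of `z`, same quantum**: `β ≤ (4/3)(1-ε)` -/
theorem psiA {ε : ℝ} (h0 : 0 < ε) (h1 : ε < 1) : ∃ κ : ℝ, 0 < κ ∧ ∀ β : ℝ, 0 < β →
    β ≤ 4 / 3 * (1 - ε) → ∀ z : ℂ, l ≤ |z.re + l / 2| → |z.re + l / 2| ≤ 3 * l / 2 →
    ‖psi β z‖ ≤ ‖psi (4 / 3) z‖ * Real.exp (-(κ * Real.exp (-(8 / 3) * |z.im|))) := by
  have hl := l_pos
  have hpl : 8 * l = Real.pi := by unfold l; ring
  have hpi := Real.pi_pos
  set s1 : ℝ := Real.sin (4 / 3 * ε * l) with hs1
  have hs1p : 0 < s1 := by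
    refine Real.sin_pos_of_pos_of_lt_pi (by positivity) ?_
    nlinarith
  have hs1le : s1 ≤ 1 := Real.sin_le_one _
  refine ⟨s1 / 64, by positivity, fun β hβ hβ1 z hz1 hz2 => ?_⟩
  set x := |z.re + l / 2| with hx
  set b : ℝ := 4 / 3 * (1 - ε) with hb
  have hb0 : 0 < b := by
    have : 0 < 1 - ε := by linarith
    positivity
  have hb43 : b < 4 / 3 := by nlinarith
  -- reduce to `β = b`
  have hmono : ‖psi β z‖ ≤ ‖psi b z‖ := by
    refine norm_psi_mono hβ hβ1 ?_ ?_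
    · nlinarith
    · have : b * (2 * x) < 4 / 3 * (2 * (3 * l / 2)) := by
        have h3 : b * (2 * x) ≤ b * (2 * (3 * l / 2)) := by gcongr
        have h4 : b * (2 * (3 * l / 2)) < 4 / 3 * (2 * (3 * l / 2)) :=
          mul_lt_mul_of_pos_right hb43 (by positivity)
        linarith
      have e : 4 / 3 * (2 * (3 * l / 2)) = Real.pi / 2 := by rw [← hpl]; ring
      linarith
  refine hmono.trans ?_
  have key : ‖psi b z‖ ^ 2 ≤ ‖psi (4 / 3) z‖ ^ 2 *
      Real.exp (-(s1 / 32 * Real.exp (-(8 / 3) * |z.im|))) := by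
    rw [norm_psi_sq' (β := b) z, norm_psi_sq' (β := 4 / 3) z]
    have cabs : ∀ c : ℝ, Real.cos (2 * c * (z.re + l / 2)) = Real.cos (2 * c * x) := by
      intro c
      rw [hx]
      rcases abs_choice (z.re + l / 2) with h | h
      · rw [h]
      · rw [h, mul_neg, Real.cos_neg]
    rw [cabs, cabs]
    set t := z.im with ht
    set p := Real.cos (2 * b * x) with hp
    set p0 := Real.cos (2 * (4 / 3) * x) with hp0
    set c := Real.cos (b * l) with hc
    set c0 := Real.cos (4 / 3 * l) with hc0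
    set C := Real.cosh (2 * b * t) with hC
    set C0 := Real.cosh (2 * (4 / 3) * t) with hC0
    have hx0 : 0 < x := lt_of_lt_of_le hl hz1
    have C1 : 1 ≤ C := Real.one_le_cosh _
    have CC : C ≤ C0 := by
      rw [hC, hC0]
      refine Real.cosh_le_cosh.2 ?_
      rw [abs_mul (2 * b), abs_mul (2 * (4 / 3)), abs_of_pos (by positivity : (0 : ℝ) < 2 * b),
        abs_of_pos (by norm_num : (0 : ℝ) < 2 * (4 / 3))]
      exact mul_le_mul_of_nonneg_right (by linarith) (abs_nonneg t)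
    have hc0v : c0 = √3 / 2 := cos43
    have hs := s3_lo
    have hs' := s3_hi
    have hc0p : 0 < c0 := by rw [hc0v]; positivity
    -- angles
    have a1 : 2 * (4 / 3) * x ≤ Real.pi / 2 := by nlinarith
    have a2 : Real.pi / 3 ≤ 2 * (4 / 3) * x := by nlinarith
    have hp0n : 0 ≤ p0 := Real.cos_nonneg_of_mem_Icc ⟨by linarith, a1⟩
    have hp0h : p0 ≤ 1 / 2 := by
      rw [← Real.cos_pi_div_three, hp0]
      exact Real.cos_le_cos_of_nonneg_of_le_pi (by positivity) (by linarith) a2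
    have hp1 : p ≤ 1 := Real.cos_le_one _
    have hc1 : c ≤ 1 := Real.cos_le_one _
    have hc01 : c0 ≤ 1 := Real.cos_le_one _
    -- differences
    have dp : p - p0 = 2 * Real.sin ((4 / 3 + b) * x) * Real.sin ((4 / 3 - b) * x) := by
      rw [hp, hp0, Real.cos_sub_cos, show (2 * b * x + 2 * (4 / 3) * x) / 2 = (4 / 3 + b) * x by ring,
        show (2 * b * x - 2 * (4 / 3) * x) / 2 = -((4 / 3 - b) * x) by ring, Real.sin_neg]
      ring
    have dc : c - c0 = 2 * Real.sin ((4 / 3 + b) * (l / 2)) * Real.sin ((4 / 3 - b) * (l / 2)) := by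
      rw [hc, hc0, Real.cos_sub_cos, show (b * l + 4 / 3 * l) / 2 = (4 / 3 + b) * (l / 2) by ring,
        show (b * l - 4 / 3 * l) / 2 = -((4 / 3 - b) * (l / 2)) by ring, Real.sin_neg]
      ring
    have hdb : 4 / 3 - b = 4 / 3 * ε := by rw [hb]; ring
    have sA : 1 / 2 ≤ Real.sin ((4 / 3 + b) * x) := by
      rw [← Real.sin_pi_div_six]
      refine Real.sin_le_sin_of_le_of_le_pi_div_two (by linarith) ?_ ?_
      · nlinarith
      · have : 4 / 3 * l ≤ (4 / 3 + b) * x := by nlinarith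
        nlinarith
    have sB : s1 ≤ Real.sin ((4 / 3 - b) * x) := by
      rw [hs1, hdb]
      refine Real.sin_le_sin_of_le_of_le_pi_div_two ?_ ?_ ?_
      · have : 0 ≤ 4 / 3 * ε * l := by positivity
        linarith
      · nlinarith
      · exact mul_le_mul_of_nonneg_left hz1 (by positivity)
    have sC : Real.sin ((4 / 3 + b) * (l / 2)) ≤ Real.sin ((4 / 3 + b) * x) := by
      refine Real.sin_le_sin_of_le_of_le_pi_div_two ?_ ?_ ?_
      · have : 0 ≤ (4 / 3 + b) * (l / 2) := by positivity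
        linarith
      · nlinarith
      · exact mul_le_mul_of_nonneg_left (by linarith) (by positivity)
    have sD : Real.sin ((4 / 3 - b) * (l / 2)) ≤ Real.sin ((4 / 3 - b) * x) := by
      rw [hdb]
      refine Real.sin_le_sin_of_le_of_le_pi_div_two ?_ ?_ ?_
      · have : 0 ≤ 4 / 3 * ε * (l / 2) := by positivity
        linarith
      · nlinarith
      · exact mul_le_mul_of_nonneg_left (by linarith) (by positivity)
    have sC0 : 0 ≤ Real.sin ((4 / 3 + b) * (l / 2)) :=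
      Real.sin_nonneg_of_nonneg_of_le_pi (by positivity) (by nlinarith)
    have sD0 : 0 ≤ Real.sin ((4 / 3 - b) * (l / 2)) := by
      rw [hdb]
      exact Real.sin_nonneg_of_nonneg_of_le_pi (by positivity) (by nlinarith)
    have dp1 : s1 ≤ p - p0 := by
      rw [dp]
      nlinarith
    have dcp : c - c0 ≤ p - p0 := by
      rw [dp, dc]
      have := mul_le_mul sC sD sD0 (by linarith)
      linarith
    have dc0 : 0 ≤ c - c0 := by
      rw [dc]
      positivity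
    have hcp : 0 < c := by linarith
    have hpp : 0 < p := by linarith
    -- the three products
    have k1 : s1 / 2 ≤ c * p - c0 * p0 := by nlinarith
    have k2 : s1 / 4 ≤ p * c0 - p0 * c := by
      have e : p * c0 - p0 * c = (c0 - p0) * (p - p0) + p0 * ((p - p0) - (c - c0)) := by ring
      have h5 : (1 : ℝ) / 4 ≤ c0 - p0 := by rw [hc0v]; linarith
      have h6 : 0 ≤ p0 * ((p - p0) - (c - c0)) := mul_nonneg hp0n (by linarith)
      have h7 : 1 / 4 * s1 ≤ (c0 - p0) * (p - p0) := mul_le_mul h5 dp1 hs1p.le (by linarith)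
      linarith
    have k3 : (1 : ℝ) / 4 ≤ c * c0 - p * p0 := by
      have hc00 : c0 * c0 = 3 / 4 := by
        rw [hc0v, ← sq, div_pow, Real.sq_sqrt (by norm_num)]
        norm_num
      have h5 : c0 * c0 ≤ c * c0 := mul_le_mul_of_nonneg_right (by linarith) hc0p.le
      have h6 : p * p0 ≤ 1 * (1 / 2) := mul_le_mul hp1 hp0h hp0n (by norm_num)
      linarith
    have D0 := Dd_pos (p := p) C1 hcp
    have D1 := Dd_pos (p := p0) C1 hc0p
    have D2 := Dd_pos (p := p0) (C1.trans CC) hc0p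
    refine ratio_le D0 D2 (by positivity) (by positivity)
      (two_cpC_le (C1.trans CC) hc01 (by linarith) hc0p.le hp0n)
      (two_cpC_le C1 hc1 hp1 hcp.le hpp.le) (by positivity) ?_
    have m1 := mono_C (c := c0) (p := p0) hc0p.le hp0n hc01 (by linarith) C1 CC D1
    have m2 := diff_id (C := C) D0.ne' D1.ne'
    have E1 := Dd_le C1 hcp.le hc1 hpp.le hp1
    have E2 := Dd_le C1 hc0p.le hc01 hp0n (by linarith : p0 ≤ 1)
    have m3 : s1 / 32 * Real.exp (-(8 / 3) * |t|) ≤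
        2 * C * ((c * p - c0 * p0) * (C ^ 2 - 1) + (p * c0 - p0 * c) * (c * c0 - p * p0)) /
        (Dd p c C * Dd p0 c0 C) := by
      rw [le_div_iff₀ (mul_pos D0 D1)]
      have q1 : s1 / 16 * C ^ 2 ≤
          (c * p - c0 * p0) * (C ^ 2 - 1) + (p * c0 - p0 * c) * (c * c0 - p * p0) := by
        have r1 : s1 / 2 * (C ^ 2 - 1) ≤ (c * p - c0 * p0) * (C ^ 2 - 1) :=
          mul_le_mul_of_nonneg_right k1 (by nlinarith)
        have r2 : s1 / 4 * (1 / 4) ≤ (p * c0 - p0 * c) * (c * c0 - p * p0) :=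
          mul_le_mul k2 k3 (by norm_num) (by linarith)
        have r3 : 0 ≤ s1 * (C ^ 2 - 1) := mul_nonneg hs1p.le (by nlinarith)
        linarith
      have q2 : Dd p c C * Dd p0 c0 C ≤ 2 * C ^ 2 * (2 * C ^ 2) := mul_le_mul E1 E2 D1.le (by positivity)
      have q3 : Real.exp (-(8 / 3) * |t|) * C ≤ 1 := by
        have h5 : C ≤ Real.exp (8 / 3 * |t|) := by
          refine CC.trans ?_
          rw [hC0, show (2 : ℝ) * (4 / 3) = 8 / 3 by norm_num]
          exact cosh_le_exp t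
        have h6 : Real.exp (-(8 / 3) * |t|) * Real.exp (8 / 3 * |t|) = 1 := by
          rw [← Real.exp_add, neg_mul, neg_add_cancel, Real.exp_zero]
        calc _ ≤ Real.exp (-(8 / 3) * |t|) * Real.exp (8 / 3 * |t|) :=
              mul_le_mul_of_nonneg_left h5 (Real.exp_pos _).le
          _ = 1 := h6
      have hE := Real.exp_pos (-(8 / 3) * |t|)
      calc s1 / 32 * Real.exp (-(8 / 3) * |t|) * (Dd p c C * Dd p0 c0 C)
          ≤ s1 / 32 * Real.exp (-(8 / 3) * |t|) * (2 * C ^ 2 * (2 * C ^ 2)) :=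
            mul_le_mul_of_nonneg_left q2 (by positivity)
        _ = s1 / 8 * C ^ 3 * (Real.exp (-(8 / 3) * |t|) * C) := by ring
        _ ≤ s1 / 8 * C ^ 3 * 1 := mul_le_mul_of_nonneg_left q3 (by positivity)
        _ = 2 * C * (s1 / 16 * C ^ 2) := by ring
        _ ≤ _ := mul_le_mul_of_nonneg_left q1 (by linarith)
    linarith
  have := norm_le_of_sq (norm_nonneg _) (norm_nonneg _) key
  rwa [show s1 / 32 * Real.exp (-(8 / 3) * |z.im|) / 2 = s1 / 64 * Real.exp (-(8 / 3) * |z.im|) by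
    ring] at this

end PB.K11

end
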