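import Pool.Agent.PB.K11

/-!
# K11, second part: the other quantum, lists of rows, the cut of `St`
-/

set_option autoImplicit false

noncomputable section

open Complex

namespace PB.K11

open NUP1 NUGC

lemma c0_sq : Real.cos (4 / 3 * l) * Real.cos (4 / 3 * l) = 3 / 4 := by
  rw [cos43, ← sq, div_pow, Real.sq_sqrt (by norm_num)]
  norm_num

/-- the exponential against `C` -/
lemma exp_cosh_le (t : ℝ) : Real.exp (-(8 / 3) * |t|) * Real.cosh (2 * (4 / 3) * t) ≤ 1 := by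
  have h5 : Real.cosh (2 * (4 / 3) * t) ≤ Real.exp (8 / 3 * |t|) := by
    rw [show (2 : ℝ) * (4 / 3) = 8 / 3 by norm_num]
    exact cosh_le_exp t
  have h6 : Real.exp (-(8 / 3) * |t|) * Real.exp (8 / 3 * |t|) = 1 := by
    rw [← Real.exp_add, neg_mul, neg_add_cancel, Real.exp_zero]
  calc _ ≤ Real.exp (-(8 / 3) * |t|) * Real.exp (8 / 3 * |t|) :=
        mul_le_mul_of_nonneg_left h5 (Real.exp_pos _).le
    _ = 1 := h6

/-- values of the angle: with `θ = 8 x / 3`, `x = -(re z + l/2)` and `u = sin (θ - π/6)` -/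
lemma angles (x : ℝ) : Real.cos (2 * (4 / 3) * (l - x)) - Real.cos (2 * (4 / 3) * x) =
      Real.sin (2 * (4 / 3) * x - Real.pi / 6) ∧
    Real.cos (2 * (4 / 3) * (l - x)) * Real.cos (2 * (4 / 3) * x) =
      3 / 4 - Real.sin (2 * (4 / 3) * x - Real.pi / 6) ^ 2 := by
  have hpl : 8 * l = Real.pi := by unfold l; ring
  set φ := 2 * (4 / 3) * x - Real.pi / 6 with hφ
  have e1 : 2 * (4 / 3) * x = φ + Real.pi / 6 := by rw [hφ]; ring
  have e2 : 2 * (4 / 3) * (l - x) = Real.pi / 6 - φ := by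
    rw [hφ, ← hpl]
    ring
  have s := Real.sin_sq_add_cos_sq φ
  have h3 : √3 ^ 2 = 3 := Real.sq_sqrt (by norm_num)
  rw [e1, e2, Real.cos_add, Real.cos_sub, Real.cos_pi_div_six, Real.sin_pi_div_six]
  constructor
  · ring
  · nlinarith

/-- **the row of `z`, the other quantum** (`z + l`), any `β ≤ 4/3`; `κ = 1/50` -/
theorem psiB {β : ℝ} (hβ : 0 < β) (hβ1 : β ≤ 4 / 3) {z : ℂ} (hz1 : -(2 * l) ≤ z.re)
    (hz2 : z.re ≤ -l) (κ : ℝ) (hκ : κ = 0 ∨ (κ = 1 / 100 ∧ z.re ≤ -(3 * l / 2))) :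
    ‖psi β (z + l)‖ ≤ ‖psi (4 / 3) z‖ * Real.exp (-(κ * Real.exp (-(8 / 3) * |z.im|))) := by
  have hl := l_pos
  have hpl : 8 * l = Real.pi := by unfold l; ring
  have hpi := Real.pi_pos
  have r1 : (z + l).re = z.re + l := by simp
  have i1 : (z + l).im = z.im := by simp
  set x := -(z.re + l / 2) with hx
  have hx1 : l / 2 ≤ x := by rw [hx]; linarith
  have hx2 : x ≤ 3 * l / 2 := by rw [hx]; linarith
  have hmono : ‖psi β (z + l)‖ ≤ ‖psi (4 / 3) (z + l)‖ := by
    refine norm_psi_mono hβ hβ1 (by linarith) ?_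
    rw [r1]
    have : |z.re + l + l / 2| ≤ l / 2 := abs_le.2 ⟨by linarith, by linarith⟩
    nlinarith
  refine hmono.trans ?_
  have hκ0 : 0 ≤ κ := by
    rcases hκ with h | ⟨h, -⟩ <;> rw [h]
    norm_num
  have key : ‖psi (4 / 3) (z + l)‖ ^ 2 ≤ ‖psi (4 / 3) z‖ ^ 2 *
      Real.exp (-(2 * κ * Real.exp (-(8 / 3) * |z.im|))) := by
    rw [norm_psi_sq' (z + l), norm_psi_sq' z, r1, i1]
    rw [show z.re + l / 2 = -x by rw [hx]; ring, show z.re + l + l / 2 = l - x by rw [hx]; ring,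
      mul_neg, Real.cos_neg]
    obtain ⟨A1, A2⟩ := angles x
    set t := z.im with ht
    set p := Real.cos (2 * (4 / 3) * (l - x)) with hp
    set p0 := Real.cos (2 * (4 / 3) * x) with hp0
    set u := Real.sin (2 * (4 / 3) * x - Real.pi / 6) with hu
    set c0 := Real.cos (4 / 3 * l) with hc0
    set C := Real.cosh (2 * (4 / 3) * t) with hC
    have C1 : 1 ≤ C := Real.one_le_cosh _
    have hc0v : c0 = √3 / 2 := cos43
    have hc00 : c0 * c0 = 3 / 4 := c0_sq
    have hs := s3_lo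
    have hs' := s3_hi
    have hc0p : 0 < c0 := by rw [hc0v]; positivity
    have hc01 : c0 ≤ 1 := Real.cos_le_one _
    have hp1 : p ≤ 1 := Real.cos_le_one _
    have hp01 : p0 ≤ 1 := Real.cos_le_one _
    have hp0n : 0 ≤ p0 := Real.cos_nonneg_of_mem_Icc ⟨by linarith, by linarith⟩
    have hu0 : 0 ≤ u := Real.sin_nonneg_of_nonneg_of_le_pi (by linarith) (by linarith)
    have hpn : 0 ≤ p := by linarith
    have D0 := Dd_pos (p := p) C1 hc0p
    have D1 := Dd_pos (p := p0) C1 hc0p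
    have hE := Real.exp_pos (-(8 / 3) * |t|)
    refine ratio_le D0 D1 (by positivity) (by positivity)
      (two_cpC_le C1 hc01 hp01 hc0p.le hp0n) (two_cpC_le C1 hc01 hp1 hc0p.le hpn) (by positivity) ?_
    rw [diff_id D0.ne' D1.ne']
    have e1 : (c0 * p - c0 * p0) * (C ^ 2 - 1) + (p * c0 - p0 * c0) * (c0 * c0 - p * p0) =
        c0 * u * (C ^ 2 - 1 + u ^ 2) := by
      rw [A2, hc00]
      have : c0 * p - c0 * p0 = c0 * u := by rw [← A1]; ring
      have h2 : p * c0 - p0 * c0 = c0 * u := by rw [← A1]; ring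
      rw [this, h2]
      ring
    rw [e1]
    have hCC : 0 ≤ C ^ 2 - 1 := by nlinarith
    have hnn : 0 ≤ 2 * C * (c0 * u * (C ^ 2 - 1 + u ^ 2)) := by positivity
    rcases hκ with h | ⟨h, hz⟩
    · rw [h]
      have := div_nonneg hnn (mul_pos D0 D1).le
      linarith
    · have hx3 : l ≤ x := by rw [hx]; linarith
      have hu1 : 1 / 2 ≤ u := by
        rw [← Real.sin_pi_div_six, hu]
        exact Real.sin_le_sin_of_le_of_le_pi_div_two (by linarith) (by linarith) (by linarith)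
      have E1 := Dd_le C1 hc0p.le hc01 hpn hp1
      have E2 := Dd_le C1 hc0p.le hc01 hp0n hp01
      rw [h, le_div_iff₀ (mul_pos D0 D1)]
      have q2 : Dd p c0 C * Dd p0 c0 C ≤ 2 * C ^ 2 * (2 * C ^ 2) := mul_le_mul E1 E2 D1.le (by positivity)
      have q3 := exp_cosh_le t
      rw [← hC] at q3
      have q1 : 1 / 20 * C ^ 2 ≤ c0 * u * (C ^ 2 - 1 + u ^ 2) := by
        have r1 : 1 / 4 * C ^ 2 ≤ C ^ 2 - 1 + u ^ 2 := by nlinarith
        have r2 : 1 / 5 ≤ c0 * u := by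
          have : (0.86 : ℝ) ≤ c0 := by rw [hc0v]; linarith
          nlinarith
        calc (1 : ℝ) / 20 * C ^ 2 = 1 / 5 * (1 / 4 * C ^ 2) := by ring
          _ ≤ c0 * u * (C ^ 2 - 1 + u ^ 2) := mul_le_mul r2 r1 (by positivity) (by positivity)
      calc 2 * (1 / 100) * Real.exp (-(8 / 3) * |t|) * (Dd p c0 C * Dd p0 c0 C)
          ≤ 2 * (1 / 100) * Real.exp (-(8 / 3) * |t|) * (2 * C ^ 2 * (2 * C ^ 2)) :=
            mul_le_mul_of_nonneg_left q2 (by positivity)
        _ = 2 / 25 * C ^ 3 * (Real.exp (-(8 / 3) * |t|) * C) := by ring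
        _ ≤ 2 / 25 * C ^ 3 * 1 := mul_le_mul_of_nonneg_left q3 (by positivity)
        _ ≤ 2 * C * (1 / 20 * C ^ 2) := by nlinarith [pow_pos (lt_of_lt_of_le one_pos C1) 3]
        _ ≤ _ := mul_le_mul_of_nonneg_left q1 (by linarith)
  have := norm_le_of_sq (norm_nonneg _) (norm_nonneg _) key
  rwa [show 2 * κ * Real.exp (-(8 / 3) * |z.im|) / 2 = κ * Real.exp (-(8 / 3) * |z.im|) by
    ring] at this

/-- `β`-monotonicity on the closed strip -/
theorem psi_mono43 {β : ℝ} (hβ : 0 < β) (hβ1 : β ≤ 4 / 3) {z : ℂ} (hz : |z.re + l / 2| ≤ 3 * l / 2) :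
    ‖psi β z‖ ≤ ‖psi (4 / 3) z‖ := by
  have hl := l_pos
  have hpl : 8 * l = Real.pi := by unfold l; ring
  rcases lt_or_eq_of_le hz with h | h
  · exact norm_psi_mono hβ hβ1 (by linarith) (by linarith)
  · refine (psi_le_one' hβ hβ1 hz).trans ?_
    -- `‖psi (4/3) z‖ = 1`
    have e := norm_psi_sq' (β := 4 / 3) z
    have hcz : Real.cos (2 * (4 / 3) * (z.re + l / 2)) = 0 := by
      have : 2 * (4 / 3) * |z.re + l / 2| = Real.pi / 2 := by rw [h]; linarith
      rcases abs_choice (z.re + l / 2) with h2 | h2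
      · rw [h2] at this
        rw [this, Real.cos_pi_div_two]
      · rw [h2] at this
        rw [show 2 * (4 / 3) * (z.re + l / 2) = -(2 * (4 / 3) * -(z.re + l / 2)) by ring, this,
          Real.cos_neg, Real.cos_pi_div_two]
    rw [hcz] at e
    simp only [mul_zero, zero_mul, sub_zero, add_zero] at e
    have hc0p : 0 < Real.cos (4 / 3 * l) := by rw [cos43]; positivity
    rw [div_self (Dd_pos (Real.one_le_cosh _) hc0p).ne'] at e
    nlinarith [norm_nonneg (psi (4 / 3) z)]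

end PB.K11

end
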