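import Pool.Agent.PB.K11B

/-!
# K11, third part: the cut of `St` for any rows

Index type `ι` of the points `y` of the cutoff, `R` the rows: `phiI β y u = 1 - ∏ i, psi β (u - y i)`,
`phiR y R u = 1 - ∏ i ∈ R, psi (4/3) (u - y i)`; `w = posT t`.

* `cutT_le`: `‖phiI w * phiI (w - l) - phiR w‖ ≤ 4 PV exp (-κ SV)`, `PV = ∏ i ∈ R, ‖psi (4/3) (w - l - y i)‖`
  (`= e^{-MF}`), `SV = ∑ i ∈ R, 0 ≤ re y i, exp (-(8/3) |t - im y i|)`.
-/

set_option autoImplicit false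

noncomputable section

open Complex Finset

namespace PB.K11

open NUO NUP1 NUGC

variable {ι : Type*} [Fintype ι]

/-- the product of the cutoff -/
def prI (β : ℝ) (y : ι → ℂ) (u : ℂ) : ℂ := ∏ i, psi β (u - y i)

/-- the product over the rows -/
def prR (y : ι → ℂ) (R : Finset ι) (u : ℂ) : ℂ := ∏ i ∈ R, psi (4 / 3) (u - y i)

/-- the cut of `St` with head `w` -/
def cutT (β : ℝ) (y : ι → ℂ) (R : Finset ι) (w : ℂ) : ℂ :=
  (1 - prI β y w) * (1 - prI β y (w - l)) - (1 - prR y R w)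

/-- `∏ i ∈ R, ‖psi (4/3) (w - l - y i)‖` -/
def PV (y : ι → ℂ) (R : Finset ι) (w : ℂ) : ℝ := ∏ i ∈ R, ‖psi (4 / 3) (w - l - y i)‖

/-- one row -/
def wt (y : ℂ) (t : ℝ) : ℝ := if 0 ≤ y.re then Real.exp (-(8 / 3) * |t - y.im|) else 0

/-- `∑ i ∈ R, exp (-(8/3) |t - im y i|)`, rows with `0 ≤ re` -/
def SV (y : ι → ℂ) (R : Finset ι) (t : ℝ) : ℝ := ∑ i ∈ R, wt (y i) t

lemma wt_nonneg (y : ℂ) (t : ℝ) : 0 ≤ wt y t := by
  unfold wt
  split_ifs
  · exact (Real.exp_pos _).le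
  · exact le_rfl

lemma wt_le_one (y : ℂ) (t : ℝ) : wt y t ≤ 1 := by
  unfold wt
  split_ifs
  · refine Real.exp_le_one_iff.2 ?_
    have := abs_nonneg (t - y.im)
    linarith
  · exact zero_le_one

lemma SV_nonneg (y : ι → ℂ) (R : Finset ι) (t : ℝ) : 0 ≤ SV y R t :=
  Finset.sum_nonneg fun i _ => wt_nonneg _ _

lemma PV_nonneg (y : ι → ℂ) (R : Finset ι) (w : ℂ) : 0 ≤ PV y R w :=
  Finset.prod_nonneg fun _ _ => norm_nonneg _

lemma posT_re (t : ℝ) : (posT t).re = -(1 / 2 * l) := NUO.vl_re _ _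

lemma posT_im (t : ℝ) : (posT t).im = t := NUO.vl_im _ _

/-- one point: the three factors against `‖psi (4/3) (w - l - y)‖ e^{-κ wt}` -/
def Good (κ β : ℝ) : Prop := ∀ (y : ℂ) (t : ℝ), |y.re| ≤ l / 2 →
  ‖psi β (posT t - l - y)‖ ≤ ‖psi (4 / 3) (posT t - l - y)‖ * Real.exp (-(κ * wt y t)) ∧
  ‖psi β (posT t - y)‖ ≤ ‖psi (4 / 3) (posT t - l - y)‖ * Real.exp (-(κ * wt y t)) ∧
  ‖psi (4 / 3) (posT t - y)‖ ≤ ‖psi (4 / 3) (posT t - l - y)‖ * Real.exp (-(κ * wt y t)) ∧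
  ‖psi β (posT t - l - y)‖ ≤ 1 ∧ ‖psi β (posT t - y)‖ ≤ 1

theorem exists_good {ε : ℝ} (h0 : 0 < ε) (h1 : ε < 1) : ∃ κ : ℝ, 0 < κ ∧ κ ≤ 1 / 100 ∧
    ∀ β : ℝ, 0 < β → β ≤ 4 / 3 * (1 - ε) → Good κ β := by
  have hl := l_pos
  obtain ⟨k, hk, H⟩ := psiA h0 h1
  refine ⟨min k (1 / 100), lt_min hk (by norm_num), min_le_right _ _, fun β hβ hβ1 y t hy => ?_⟩
  have hβ2 : β ≤ 4 / 3 := by nlinarith
  obtain ⟨y1, y2⟩ := abs_le.1 hy
  set z := posT t - l - y with hz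
  have zr : z.re = -(3 * l / 2) - y.re := by
    rw [hz, sub_re, sub_re, posT_re, ofReal_re]
    ring
  have zi : z.im = t - y.im := by
    rw [hz, sub_im, sub_im, posT_im, ofReal_im]
    ring
  have e : posT t - y = z + l := by rw [hz]; ring
  have habs : |z.re + l / 2| = l + y.re := by
    rw [zr, show -(3 * l / 2) - y.re + l / 2 = -(l + y.re) by ring, abs_neg, abs_of_pos (by linarith)]
  have hle3 : |z.re + l / 2| ≤ 3 * l / 2 := by rw [habs]; linarith
  have hmn : 0 ≤ min k (1 / 100) := (lt_min hk (by norm_num)).le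
  rw [e]
  -- comparison of the exponents
  have hexp : ∀ κ' : ℝ, min k (1 / 100) ≤ κ' →
      Real.exp (-(κ' * Real.exp (-(8 / 3) * |z.im|))) ≤
        Real.exp (-(min k (1 / 100) * Real.exp (-(8 / 3) * |z.im|))) := by
    intro κ' h
    refine Real.exp_le_exp.2 (neg_le_neg ?_)
    exact mul_le_mul_of_nonneg_right h (Real.exp_pos _).le
  refine ⟨?_, ?_, ?_, psi_le_one' hβ hβ2 hle3, ?_⟩
  · unfold wt
    split_ifs with hr
    · have := H β hβ hβ1 z (by rw [habs]; linarith) hle3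
      refine this.trans (mul_le_mul_of_nonneg_left ?_ (norm_nonneg _))
      rw [← zi]
      exact hexp k (min_le_left _ _)
    · rw [mul_zero, neg_zero, Real.exp_zero, mul_one]
      exact psi_mono43 hβ hβ2 hle3
  · unfold wt
    split_ifs with hr
    · have := psiB hβ hβ2 (z := z) (by rw [zr]; linarith) (by rw [zr]; linarith) (1 / 100)
        (Or.inr ⟨rfl, by rw [zr]; linarith⟩)
      refine this.trans (mul_le_mul_of_nonneg_left ?_ (norm_nonneg _))
      rw [← zi]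
      exact hexp _ (min_le_right _ _)
    · have := psiB hβ hβ2 (z := z) (by rw [zr]; linarith) (by rw [zr]; linarith) 0 (Or.inl rfl)
      rw [zero_mul, neg_zero, Real.exp_zero, mul_one] at this
      rwa [mul_zero, neg_zero, Real.exp_zero, mul_one]
  · unfold wt
    split_ifs with hr
    · have := psiB (β := 4 / 3) (by norm_num) le_rfl (z := z) (by rw [zr]; linarith)
        (by rw [zr]; linarith) (1 / 100) (Or.inr ⟨rfl, by rw [zr]; linarith⟩)
      refine this.trans (mul_le_mul_of_nonneg_left ?_ (norm_nonneg _))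
      rw [← zi]
      exact hexp _ (min_le_right _ _)
    · have := psiB (β := 4 / 3) (by norm_num) le_rfl (z := z) (by rw [zr]; linarith)
        (by rw [zr]; linarith) 0 (Or.inl rfl)
      rw [zero_mul, neg_zero, Real.exp_zero, mul_one] at this
      rwa [mul_zero, neg_zero, Real.exp_zero, mul_one]
  · refine psi_le_one' hβ hβ2 ?_
    rw [add_re, ofReal_re, zr]
    refine abs_le.2 ⟨by linarith, by linarith⟩

/-- products: `f ≤ 1` outside of `R`, `f ≤ g e^{-κ w}` on `R` -/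
lemma prod_le_aux {f g w : ι → ℝ} {κ : ℝ} (R : Finset ι) (hf : ∀ i, 0 ≤ f i) (h1 : ∀ i, f i ≤ 1)
    (h : ∀ i ∈ R, f i ≤ g i * Real.exp (-(κ * w i))) :
    ∏ i, f i ≤ (∏ i ∈ R, g i) * Real.exp (-(κ * ∑ i ∈ R, w i)) := by
  classical
  have e : Real.exp (-(κ * ∑ i ∈ R, w i)) = ∏ i ∈ R, Real.exp (-(κ * w i)) := by
    rw [← Real.exp_sum]
    congr 1
    rw [Finset.mul_sum, Finset.sum_neg_distrib]
  rw [e, ← Finset.prod_mul_distrib, ← Finset.prod_mul_prod_compl R f]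
  have hc : ∏ i ∈ Rᶜ, f i ≤ 1 := Finset.prod_le_one (fun i _ => hf i) fun i _ => h1 i
  have hR : ∏ i ∈ R, f i ≤ ∏ i ∈ R, g i * Real.exp (-(κ * w i)) :=
    Finset.prod_le_prod (fun i _ => hf i) h
  have h0 : 0 ≤ ∏ i ∈ R, f i := Finset.prod_nonneg fun i _ => hf i
  calc _ ≤ (∏ i ∈ R, f i) * 1 := mul_le_mul_of_nonneg_left hc h0
    _ ≤ _ := by rw [mul_one]; exact hR

/-- **K11**: the cut of `St` against `e^{-MF}` -/
theorem cutT_le {κ β : ℝ} (hG : Good κ β) (hκ : 0 ≤ κ) {y : ι → ℂ} (hy : ∀ i, |(y i).re| ≤ l / 2)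
    (R : Finset ι) (t : ℝ) :
    ‖cutT β y R (posT t)‖ ≤ 4 * (PV y R (posT t) * Real.exp (-(κ * SV y R t))) := by
  classical
  set A := prI β y (posT t) with hA
  set B := prI β y (posT t - l) with hB
  set D := prR y R (posT t) with hD
  set Q := PV y R (posT t) * Real.exp (-(κ * SV y R t)) with hQ
  have n1 : ‖A‖ ≤ Q := by
    rw [hA, prI, norm_prod]
    exact prod_le_aux R (fun i => norm_nonneg _) (fun i => (hG (y i) t (hy i)).2.2.2.2)
      fun i _ => (hG (y i) t (hy i)).2.1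
  have n2 : ‖B‖ ≤ Q := by
    rw [hB, prI, norm_prod]
    exact prod_le_aux R (fun i => norm_nonneg _) (fun i => (hG (y i) t (hy i)).2.2.2.1)
      fun i _ => (hG (y i) t (hy i)).1
  have n3 : ‖D‖ ≤ Q := by
    rw [hD, prR, norm_prod, hQ, PV, SV]
    have e : Real.exp (-(κ * ∑ i ∈ R, wt (y i) t)) = ∏ i ∈ R, Real.exp (-(κ * wt (y i) t)) := by
      rw [← Real.exp_sum]
      congr 1
      rw [Finset.mul_sum, Finset.sum_neg_distrib]
    rw [e, ← Finset.prod_mul_distrib]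
    exact Finset.prod_le_prod (fun i _ => norm_nonneg _) fun i _ => (hG (y i) t (hy i)).2.2.1
  have n4 : ‖B‖ ≤ 1 := by
    rw [hB, prI, norm_prod]
    exact Finset.prod_le_one (fun i _ => norm_nonneg _) fun i _ => (hG (y i) t (hy i)).2.2.2.1
  unfold cutT
  rw [← hA, ← hB, ← hD]
  have e : (1 - A) * (1 - B) - (1 - D) = D + (A * B + (-A + -B)) := by ring
  rw [e]
  have k1 := norm_add_le D (A * B + (-A + -B))
  have k2 := norm_add_le (A * B) (-A + -B)
  have k3 := norm_add_le (-A) (-B)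
  rw [norm_neg, norm_neg] at k3
  rw [norm_mul] at k2
  have k4 : ‖A‖ * ‖B‖ ≤ Q := by
    calc _ ≤ Q * 1 := mul_le_mul n1 n4 (norm_nonneg _) ((norm_nonneg _).trans n1)
      _ = _ := mul_one _
  linarith

end PB.K11

end
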