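import Pool.Agent.PB.K11C

/-!
# K11, fourth part: the derivative of the cut of `St`

Along any path of the points `y i` and of the head `w`, rows `R` with `0 ≤ re y i`:
`cutT_deriv`: `‖d/ds cutT‖ ≤ 3440 (∑ i, ‖w' - y' i‖ e^{-2 β |t - im y i|}) PV exp (-κ SV)`.
-/

set_option autoImplicit false

noncomputable section

open Complex Finset

namespace PB.K11

open NUO NUP1 NUGC

/-- derivative of `psi` -/
def dpsi (β : ℝ) (z : ℂ) : ℂ :=
  -(4 * β * sin (2 * β * z + β * l) * cos (β * l)) / (cos (2 * β * z + β * l) + cos (β * l)) ^ 2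

theorem hasDerivAt_psi {β : ℝ} (h0 : 0 < β) (h1 : β ≤ 4 / 3) {z : ℂ} (hz : |z.re + l / 2| ≤ 3 * l / 2) :
    HasDerivAt (psi β) (dpsi β z) z := by
  have h2 := den_ge1 h0 h1 hz
  have hp : 0 < ‖cos (2 * β * z + β * l) + cos (β * l)‖ := lt_of_lt_of_le (by positivity) h2
  have hd : cos (2 * β * z + β * l) + cos (β * l) ≠ 0 := norm_pos_iff.1 hp
  have e0 : HasDerivAt (fun z : ℂ => 2 * β * z + β * l) (2 * β) z := by
    simpa using ((hasDerivAt_id z).const_mul (2 * β : ℂ)).add_const (β * l : ℂ)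
  have e1 : HasDerivAt (fun z : ℂ => cos (2 * β * z + β * l)) (-sin (2 * β * z + β * l) * (2 * β)) z :=
    e0.ccos
  have e2 := (e1.sub_const (cos (β * l : ℂ))).div (e1.add_const (cos (β * l : ℂ))) hd
  have e3 : HasDerivAt (psi β) _ z := e2
  refine e3.congr_deriv ?_
  unfold dpsi
  rw [div_left_inj' (pow_ne_zero 2 hd)]
  ring

theorem norm_dpsi_le {β : ℝ} (h0 : 0 < β) (h1 : β ≤ 4 / 3) {z : ℂ} (hz : |z.re + l / 2| ≤ 3 * l / 2) :
    ‖dpsi β z‖ ≤ 86 * Real.exp (-(2 * β) * |z.im|) := by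
  have h3 := exp_le_den h0 h1 hz
  have hE := Real.exp_pos (2 * β * |z.im|)
  have hs : ‖sin (2 * β * z + β * l)‖ ≤ Real.exp (2 * β * |z.im|) := by
    have e : (2 * β * z + β * l : ℂ) = ((2 * β * z.re + β * l : ℝ) : ℂ) + ((2 * β * z.im : ℝ) : ℂ) * I := by
      apply Complex.ext <;> simp
    rw [e]
    have h := NUMF.norm_sin_sq (2 * β * z.re + β * l) (2 * β * z.im)
    refine (sq_le_sq₀ (norm_nonneg _) hE.le).1 ?_
    rw [h]
    have a1 := Real.neg_one_le_cos (2 * (2 * β * z.re + β * l))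
    have a2 : Real.cosh (2 * (2 * β * z.im)) ≤ 2 * Real.exp (2 * β * |z.im|) ^ 2 - 1 := by
      have e4 : Real.cosh (2 * (2 * β * z.im)) = Real.cosh (2 * (2 * β * |z.im|)) := by
        rw [← Real.cosh_abs (2 * (2 * β * z.im)), abs_mul, abs_mul, abs_two,
          abs_of_pos (by linarith : 0 < 2 * β)]
      rw [e4, Real.cosh_eq, ← Real.exp_nat_mul]
      have e5 : Real.exp ((2 : ℕ) * (2 * β * |z.im|)) = Real.exp (2 * (2 * β * |z.im|)) := by
        push_cast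
        rfl
      rw [e5]
      have e6 : (1 : ℝ) ≤ Real.exp (2 * (2 * β * |z.im|)) := Real.one_le_exp (by positivity)
      have e7 : Real.exp (-(2 * (2 * β * |z.im|))) ≤ 1 := by
        refine Real.exp_le_one_iff.2 ?_
        have : 0 ≤ 2 * (2 * β * |z.im|) := by positivity
        linarith
      linarith
    linarith
  have hc : ‖cos (β * l : ℂ)‖ ≤ 1 := by
    rw [← ofReal_mul, ← ofReal_cos, Complex.norm_real, Real.norm_eq_abs]
    exact Real.abs_cos_le_one _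
  set d := cos (2 * β * z + β * l) + cos (β * l) with hd
  have hdp : 0 < ‖d‖ := by
    have : 0 < 4 * ‖d‖ := lt_of_lt_of_le hE h3
    linarith
  unfold dpsi
  rw [← hd, norm_div, norm_neg, norm_mul, norm_mul, norm_mul, norm_pow, div_le_iff₀ (pow_pos hdp 2)]
  have n4 : ‖(4 : ℂ)‖ = 4 := by norm_num
  have nb : ‖(β : ℂ)‖ = β := by rw [Complex.norm_real, Real.norm_eq_abs, abs_of_pos h0]
  rw [n4, nb]
  set E := Real.exp (2 * β * |z.im|) with hEd
  have hinv : Real.exp (-(2 * β) * |z.im|) * E = 1 := by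
    rw [hEd, ← Real.exp_add, neg_mul, neg_add_cancel, Real.exp_zero]
  set F := Real.exp (-(2 * β) * |z.im|) with hF
  have hFp : 0 < F := Real.exp_pos _
  have q : E ^ 2 ≤ 16 * ‖d‖ ^ 2 := by nlinarith
  calc 4 * β * ‖sin (2 * β * z + β * l)‖ * ‖cos (β * l : ℂ)‖ ≤ 4 * (4 / 3) * E * 1 := by gcongr
    _ = 16 / 3 * (F * E) * E := by rw [hinv]; ring
    _ = 16 / 3 * F * E ^ 2 := by ring
    _ ≤ 16 / 3 * F * (16 * ‖d‖ ^ 2) := by gcongr
    _ ≤ 86 * F * ‖d‖ ^ 2 := by nlinarith [mul_pos hFp (pow_pos hdp 2)]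

/-- lower bound of the normalising factor of a row with `0 ≤ re` -/
theorem psi43_ge {z : ℂ} (h1 : l ≤ |z.re + l / 2|) (h2 : |z.re + l / 2| ≤ 3 * l / 2) :
    1 / 4 ≤ ‖psi (4 / 3) z‖ := by
  have hl := l_pos
  have hpl : 8 * l = Real.pi := by unfold l; ring
  have hpi := Real.pi_pos
  refine (sq_le_sq₀ (by norm_num) (norm_nonneg _)).1 ?_
  rw [norm_psi_sq' z]
  set x := |z.re + l / 2| with hx
  have cabs : Real.cos (2 * (4 / 3) * (z.re + l / 2)) = Real.cos (2 * (4 / 3) * x) := by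
    rw [hx]
    rcases abs_choice (z.re + l / 2) with h | h
    · rw [h]
    · rw [h, mul_neg, Real.cos_neg]
  rw [cabs]
  set p0 := Real.cos (2 * (4 / 3) * x) with hp0
  set c0 := Real.cos (4 / 3 * l) with hc0
  set C := Real.cosh (2 * (4 / 3) * z.im) with hC
  have C1 : 1 ≤ C := Real.one_le_cosh _
  have hc0v : c0 = √3 / 2 := cos43
  have hc00 : c0 * c0 = 3 / 4 := c0_sq
  have hs := s3_lo
  have hs' := s3_hi
  have hc0p : 0 < c0 := by rw [hc0v]; positivity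
  have hp0n : 0 ≤ p0 := Real.cos_nonneg_of_mem_Icc ⟨by linarith, by linarith⟩
  have hp0h : p0 ≤ 1 / 2 := by
    rw [← Real.cos_pi_div_three, hp0]
    exact Real.cos_le_cos_of_nonneg_of_le_pi (by positivity) (by linarith) (by linarith)
  have D0 := Dd_pos (p := p0) C1 hc0p
  rw [le_div_iff₀ (by positivity)]
  have e : Dd p0 c0 C = C ^ 2 + p0 ^ 2 - 1 / 4 := by
    unfold Dd
    rw [sq c0, hc00]
    ring
  rw [e]
  have h5 : 0 ≤ p0 * C := by positivity
  have h6 : c0 * (p0 * C) ≤ 0.87 * (p0 * C) := mul_le_mul_of_nonneg_right (by rw [hc0v]; linarith) h5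
  have h7 : (1 / 2) ^ 2 ≤ (C - p0) ^ 2 := pow_le_pow_left₀ (by norm_num) (by linarith) 2
  nlinarith

/-- products over `T ⊇ R` -/
lemma prod_le_sub {ι : Type*} {f g w : ι → ℝ} {κ : ℝ} {R T : Finset ι} (hRT : R ⊆ T)
    (hf : ∀ i, 0 ≤ f i) (h1 : ∀ i ∈ T, i ∉ R → f i ≤ 1)
    (h : ∀ i ∈ R, f i ≤ g i * Real.exp (-(κ * w i))) :
    ∏ i ∈ T, f i ≤ (∏ i ∈ R, g i) * Real.exp (-(κ * ∑ i ∈ R, w i)) := by
  classical
  have e : Real.exp (-(κ * ∑ i ∈ R, w i)) = ∏ i ∈ R, Real.exp (-(κ * w i)) := by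
    rw [← Real.exp_sum]
    congr 1
    rw [Finset.mul_sum, Finset.sum_neg_distrib]
  rw [e, ← Finset.prod_mul_distrib, ← Finset.prod_sdiff hRT]
  have hc : ∏ i ∈ T \ R, f i ≤ 1 := Finset.prod_le_one (fun i _ => hf i) fun i hi =>
    h1 i (Finset.mem_sdiff.1 hi).1 (Finset.mem_sdiff.1 hi).2
  have hR : ∏ i ∈ R, f i ≤ ∏ i ∈ R, g i * Real.exp (-(κ * w i)) :=
    Finset.prod_le_prod (fun i _ => hf i) h
  have h0 : 0 ≤ ∏ i ∈ R, f i := Finset.prod_nonneg fun i _ => hf i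
  calc _ ≤ 1 * ∏ i ∈ R, f i := mul_le_mul_of_nonneg_right hc h0
    _ ≤ _ := by rw [one_mul]; exact hR

/-- one factor less -/
lemma prod_erase_le {ι : Type*} [DecidableEq ι] {f g w : ι → ℝ} {κ : ℝ} {R T : Finset ι} (hRT : R ⊆ T)
    (hf : ∀ i, 0 ≤ f i) (h1 : ∀ i ∈ T, i ∉ R → f i ≤ 1)
    (h : ∀ i ∈ R, f i ≤ g i * Real.exp (-(κ * w i)))
    (h8 : ∀ i ∈ R, 1 / 8 ≤ g i * Real.exp (-(κ * w i))) {i : ι} (hi : i ∈ T) :
    ∏ j ∈ T.erase i, f j ≤ 8 * ((∏ i ∈ R, g i) * Real.exp (-(κ * ∑ i ∈ R, w i))) := by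
  have h2 := prod_le_sub (f := fun j => if j = i then 1 / 8 else f j) (g := g) (w := w) (κ := κ) hRT
    (fun j => by
      show 0 ≤ if j = i then (1 : ℝ) / 8 else f j
      split_ifs
      · norm_num
      · exact hf j)
    (fun j hj hj' => by
      show (if j = i then (1 : ℝ) / 8 else f j) ≤ 1
      split_ifs
      · norm_num
      · exact h1 j hj hj')
    (fun j hj => by
      show (if j = i then (1 : ℝ) / 8 else f j) ≤ _
      split_ifs
      · exact h8 j hj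
      · exact h j hj)
  rw [← Finset.mul_prod_erase T _ hi, if_pos rfl] at h2
  have e : ∏ j ∈ T.erase i, (if j = i then (1 : ℝ) / 8 else f j) = ∏ j ∈ T.erase i, f j :=
    Finset.prod_congr rfl fun j hj => if_neg (Finset.ne_of_mem_erase hj)
  rw [e] at h2
  linarith

variable {ι : Type*} [Fintype ι] [DecidableEq ι]

/-- derivative of a product of `psi` along a path -/
theorem hasDerivAt_prod_psi {β : ℝ} (h0 : 0 < β) (h1 : β ≤ 4 / 3) (T : Finset ι)
    {y : ι → ℝ → ℂ} {v : ι → ℂ} {u : ℝ → ℂ} {ξ : ℂ} {s : ℝ} (hy : ∀ i, HasDerivAt (y i) (v i) s)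
    (hu : HasDerivAt u ξ s) (hz : ∀ i, |(u s - y i s).re + l / 2| ≤ 3 * l / 2) :
    HasDerivAt (fun r => ∏ i ∈ T, psi β (u r - y i r))
      (∑ i ∈ T, (∏ j ∈ T.erase i, psi β (u s - y j s)) * (dpsi β (u s - y i s) * (ξ - v i))) s := by
  have h : ∀ i ∈ T, HasDerivAt (fun r => psi β (u r - y i r)) (dpsi β (u s - y i s) * (ξ - v i)) s := by
    intro i _
    exact (hasDerivAt_psi h0 h1 (hz i)).comp s (hu.sub (hy i))
  have := HasDerivAt.fun_finset_prod h
  simpa [smul_eq_mul] using this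

/-- bound of the derivative of a product -/
theorem norm_dprod_le {β : ℝ} (h0 : 0 < β) (h1 : β ≤ 4 / 3) {R T : Finset ι} (hRT : R ⊆ T)
    {z : ι → ℂ} {c : ι → ℂ} {g w : ι → ℝ} {κ : ℝ}
    (hz : ∀ i, |(z i).re + l / 2| ≤ 3 * l / 2)
    (h : ∀ i ∈ R, ‖psi β (z i)‖ ≤ g i * Real.exp (-(κ * w i)))
    (h8 : ∀ i ∈ R, 1 / 8 ≤ g i * Real.exp (-(κ * w i))) :
    ‖∑ i ∈ T, (∏ j ∈ T.erase i, psi β (z j)) * (dpsi β (z i) * c i)‖ ≤
      688 * (∑ i ∈ T, ‖c i‖ * Real.exp (-(2 * β) * |(z i).im|)) *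
        ((∏ i ∈ R, g i) * Real.exp (-(κ * ∑ i ∈ R, w i))) := by
  set Q := (∏ i ∈ R, g i) * Real.exp (-(κ * ∑ i ∈ R, w i)) with hQ
  refine (norm_sum_le _ _).trans ?_
  rw [Finset.mul_sum, Finset.sum_mul]
  refine Finset.sum_le_sum fun i hi => ?_
  rw [norm_mul, norm_mul, norm_prod]
  have a1 := prod_erase_le (f := fun j => ‖psi β (z j)‖) (g := g) (w := w) (κ := κ) hRT
    (fun j => norm_nonneg _) (fun j _ _ => psi_le_one' h0 h1 (hz j)) h h8 hi
  have a2 := norm_dpsi_le h0 h1 (hz i)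
  rw [← hQ] at a1
  calc (∏ j ∈ T.erase i, ‖psi β (z j)‖) * (‖dpsi β (z i)‖ * ‖c i‖)
      ≤ 8 * Q * (86 * Real.exp (-(2 * β) * |(z i).im|) * ‖c i‖) :=
        mul_le_mul a1 (mul_le_mul_of_nonneg_right a2 (norm_nonneg _)) (by positivity)
          ((Finset.prod_nonneg fun _ _ => norm_nonneg _).trans a1)
    _ = 688 * (‖c i‖ * Real.exp (-(2 * β) * |(z i).im|)) * Q := by ring

/-- **K11, derivative**: rows `R` with `0 ≤ re` -/
theorem cutT_deriv {κ β : ℝ} (hG : Good κ β) (hκ : 0 ≤ κ) (hκ1 : κ ≤ 1 / 100) (h0 : 0 < β)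
    (h1 : β ≤ 4 / 3) (R : Finset ι) {y : ι → ℝ → ℂ} {v : ι → ℂ} {w : ℝ → ℂ} {ξ : ℂ} {s t : ℝ}
    (hw : w s = posT t) (hyd : ∀ i, HasDerivAt (y i) (v i) s) (hwd : HasDerivAt w ξ s)
    (hy : ∀ i, |(y i s).re| ≤ l / 2) (hR : ∀ i ∈ R, 0 ≤ (y i s).re) :
    ∃ d : ℂ, HasDerivAt (fun r => cutT β (fun i => y i r) R (w r)) d s ∧
      ‖d‖ ≤ 3440 * (∑ i, ‖ξ - v i‖ * Real.exp (-(2 * β) * |t - (y i s).im|)) *
        (PV (fun i => y i s) R (posT t) * Real.exp (-(κ * SV (fun i => y i s) R t))) := by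
  have hl := l_pos
  have hre : ∀ i, |(posT t - y i s).re + l / 2| ≤ 3 * l / 2 := by
    intro i
    obtain ⟨a, b⟩ := abs_le.1 (hy i)
    rw [sub_re, posT_re]
    exact abs_le.2 ⟨by linarith, by linarith⟩
  have hre2 : ∀ i, |(posT t - l - y i s).re + l / 2| ≤ 3 * l / 2 := by
    intro i
    obtain ⟨a, b⟩ := abs_le.1 (hy i)
    rw [sub_re, sub_re, posT_re, ofReal_re]
    exact abs_le.2 ⟨by linarith, by linarith⟩
  have him : ∀ i, (posT t - y i s).im = t - (y i s).im := fun i => by rw [sub_im, posT_im]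
  have him2 : ∀ i, (posT t - l - y i s).im = t - (y i s).im := fun i => by
    rw [sub_im, sub_im, posT_im, ofReal_im, sub_zero]
  set g : ι → ℝ := fun i => ‖psi (4 / 3) (posT t - l - y i s)‖ with hg
  set ww : ι → ℝ := fun i => wt (y i s) t with hww
  have h8 : ∀ i ∈ R, 1 / 8 ≤ g i * Real.exp (-(κ * ww i)) := by
    intro i hi
    have a1 : 1 / 4 ≤ g i := by
      refine psi43_ge ?_ (hre2 i)
      rw [sub_re, sub_re, posT_re, ofReal_re]
      have := hR i hi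
      rw [show -(1 / 2 * l) - l - (y i s).re + l / 2 = -(l + (y i s).re) by ring, abs_neg,
        abs_of_nonneg (by linarith)]
      linarith
    have a2 : 1 / 2 ≤ Real.exp (-(κ * ww i)) := by
      have b1 : κ * ww i ≤ 1 / 2 := by
        have := wt_le_one (y i s) t
        have := wt_nonneg (y i s) t
        nlinarith
      have := Real.add_one_le_exp (-(κ * ww i))
      linarith
    nlinarith
  set Q := PV (fun i => y i s) R (posT t) * Real.exp (-(κ * SV (fun i => y i s) R t)) with hQ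
  set Sg := ∑ i, ‖ξ - v i‖ * Real.exp (-(2 * β) * |t - (y i s).im|) with hSg
  have hS0 : 0 ≤ Sg := Finset.sum_nonneg fun i _ => mul_nonneg (norm_nonneg _) (Real.exp_pos _).le
  have hQ0 : 0 ≤ Q := mul_nonneg (PV_nonneg _ _ _) (Real.exp_pos _).le
  -- the three products
  have dA := hasDerivAt_prod_psi h0 h1 Finset.univ hyd hwd (fun i => by rw [hw]; exact hre i)
  have dB := hasDerivAt_prod_psi h0 h1 Finset.univ hyd (hwd.sub_const (l : ℂ))
    (fun i => by rw [hw]; exact hre2 i)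
  have dD := hasDerivAt_prod_psi (β := 4 / 3) (by norm_num) le_rfl R hyd hwd
    (fun i => by rw [hw]; exact hre i)
  simp only [hw] at dA dB dD
  have nA := norm_dprod_le (c := fun i => ξ - v i) (g := g) (w := ww) (κ := κ) h0 h1
    (Finset.subset_univ R) hre (fun i _ => (hG (y i s) t (hy i)).2.1) h8
  have nB := norm_dprod_le (c := fun i => ξ - v i) (g := g) (w := ww) (κ := κ) h0 h1
    (Finset.subset_univ R) hre2 (fun i _ => (hG (y i s) t (hy i)).1) h8
  have nD := norm_dprod_le (β := 4 / 3) (c := fun i => ξ - v i) (g := g) (w := ww) (κ := κ)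
    (by norm_num) le_rfl (Finset.Subset.refl R) hre (fun i _ => (hG (y i s) t (hy i)).2.2.1) h8
  simp only [him, him2] at nA nB nD
  have nD' : ‖∑ i ∈ R, (∏ j ∈ R.erase i, psi (4 / 3) (posT t - y j s)) *
      (dpsi (4 / 3) (posT t - y i s) * (ξ - v i))‖ ≤ 688 * Sg * Q := by
    refine nD.trans ?_
    refine mul_le_mul_of_nonneg_right (mul_le_mul_of_nonneg_left ?_ (by norm_num)) hQ0
    calc ∑ i ∈ R, ‖ξ - v i‖ * Real.exp (-(2 * (4 / 3)) * |t - (y i s).im|)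
        ≤ ∑ i ∈ R, ‖ξ - v i‖ * Real.exp (-(2 * β) * |t - (y i s).im|) := by
          refine Finset.sum_le_sum fun i _ => mul_le_mul_of_nonneg_left ?_ (norm_nonneg _)
          refine Real.exp_le_exp.2 ?_
          have := abs_nonneg (t - (y i s).im)
          nlinarith
      _ ≤ Sg := Finset.sum_le_sum_of_subset_of_nonneg (Finset.subset_univ R) fun i _ _ =>
          mul_nonneg (norm_nonneg _) (Real.exp_pos _).le
  -- assemble
  set A' := ∑ i, (∏ j ∈ Finset.univ.erase i, psi β (posT t - y j s)) *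
      (dpsi β (posT t - y i s) * (ξ - v i)) with hA'
  set B' := ∑ i, (∏ j ∈ Finset.univ.erase i, psi β (posT t - l - y j s)) *
      (dpsi β (posT t - l - y i s) * (ξ - v i)) with hB'
  set D' := ∑ i ∈ R, (∏ j ∈ R.erase i, psi (4 / 3) (posT t - y j s)) *
      (dpsi (4 / 3) (posT t - y i s) * (ξ - v i)) with hD'
  have hd := ((dA.const_sub 1).mul (dB.const_sub 1)).sub (dD.const_sub 1)
  refine ⟨_, hd, ?_⟩
  simp only [hw]
  set A := ∏ i, psi β (posT t - y i s) with hA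
  set B := ∏ i, psi β (posT t - l - y i s) with hB
  have n1 : ‖A‖ ≤ 1 := by
    rw [hA, norm_prod]
    exact Finset.prod_le_one (fun i _ => norm_nonneg _) fun i _ => psi_le_one' h0 h1 (hre i)
  have n2 : ‖B‖ ≤ 1 := by
    rw [hB, norm_prod]
    exact Finset.prod_le_one (fun i _ => norm_nonneg _) fun i _ => psi_le_one' h0 h1 (hre2 i)
  have m1 : ‖(1 : ℂ) - A‖ ≤ 2 := (norm_sub_le _ _).trans (by rw [norm_one]; linarith)
  have m2 : ‖(1 : ℂ) - B‖ ≤ 2 := (norm_sub_le _ _).trans (by rw [norm_one]; linarith)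
  have k1 : ‖-A' * (1 - B)‖ ≤ 688 * Sg * Q * 2 := by
    rw [norm_mul, norm_neg]
    exact mul_le_mul nA m2 (norm_nonneg _) (by positivity)
  have k2 : ‖(1 - A) * -B'‖ ≤ 2 * (688 * Sg * Q) := by
    rw [norm_mul, norm_neg]
    exact mul_le_mul m1 nB (norm_nonneg _) (by norm_num)
  have k3 : ‖-A' * (1 - B) + (1 - A) * -B' - -D'‖ ≤ 688 * Sg * Q * 2 + 2 * (688 * Sg * Q) + 688 * Sg * Q := by
    refine (norm_sub_le _ _).trans ?_
    rw [norm_neg]
    have := norm_add_le (-A' * (1 - B)) ((1 - A) * -B')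
    linarith
  refine k3.trans (le_of_eq ?_)
  ring

end PB.K11

end
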