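import Pool.Agent.PB.Fin

/-!
# The recursion by the legs (helper7, plan B, 47's D2)

`n z` = normalised function of the legs at `z`, `Psi z x` = the same with one more row at `x`.
`EL w K a z = sum over |k| ≤ K of a k exp (i w k z)` (`w = 8/3`, `w * L = pi`, `L = 3 pi / 8`).

* `EL_coef`: coefficients from the values on the segment `i [-1, 1]`;
* `rec_step`: expansions of `Psi (., x)` and `m`, small dependence of `Psi (i t) x` on `x` on the
  vertical segment through `x0`, exact relation `Psi (x + L) x = m x`: the coefficients of `Psi (., x0)`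
  and of `m` agree up to the signs `(-1)^k`;
* `rec_chain`: the zero coefficients of a chain of functions have a limit, and the limit is not zero if
  the functions at `0` are not too small for infinitely many sizes.
-/

set_option autoImplicit false

noncomputable section

open Complex Filter Topology Set

namespace Pool.Agent.PB.Rec

/-- finite exponential sum -/
def EL (w : ℝ) (K : ℕ) (a : ℤ → ℂ) (z : ℂ) : ℂ :=
  ∑ k ∈ Finset.Icc (-(K : ℤ)) K, a k * exp (I * w * k * z)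

theorem EL_sub (w : ℝ) (K : ℕ) (a b : ℤ → ℂ) (z : ℂ) :
    EL w K (fun k => a k - b k) z = EL w K a z - EL w K b z := by
  unfold EL
  rw [← Finset.sum_sub_distrib]
  exact Finset.sum_congr rfl fun k _ => by ring

/-- shift of the argument -/
theorem EL_add (w : ℝ) (K : ℕ) (a : ℤ → ℂ) (z u : ℂ) :
    EL w K a (z + u) = EL w K (fun k => a k * exp (I * w * k * u)) z := by
  unfold EL
  refine Finset.sum_congr rfl fun k _ => ?_
  beta_reduce
  rw [mul_assoc (a k), ← exp_add]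
  congr 2
  ring

theorem EL_le {w : ℝ} {K : ℕ} {a : ℤ → ℂ} {A : ℝ} (ha : ∀ k ∈ Finset.Icc (-(K : ℤ)) K, ‖a k‖ ≤ A) (z : ℂ) :
    ‖EL w K a z‖ ≤ (2 * K + 1) * Real.exp (|w| * K * |z.im|) * A := by
  have hA : 0 ≤ A := (norm_nonneg _).trans (ha 0 (by simp))
  unfold EL
  refine (norm_sum_le _ _).trans ?_
  calc _ ≤ ∑ k ∈ Finset.Icc (-(K : ℤ)) K, Real.exp (|w| * K * |z.im|) * A := by
        refine Finset.sum_le_sum fun k hk => ?_
        rw [norm_mul, norm_exp, mul_comm]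
        refine mul_le_mul ?_ (ha k hk) (norm_nonneg _) (Real.exp_nonneg _)
        refine Real.exp_le_exp.2 ?_
        have e : (I * w * k * z).re = -(w * k * z.im) := by
          have : I * (w : ℂ) * (k : ℂ) * z = I * (((w * k : ℝ) : ℂ) * z) := by push_cast; ring
          rw [this, I_mul_re, im_ofReal_mul]
        rw [e]
        refine (neg_le_abs _).trans ?_
        rw [abs_mul, abs_mul]
        have hk' : |(k : ℝ)| ≤ K := by
          rw [Finset.mem_Icc] at hk
          rw [abs_le]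
          exact ⟨by exact_mod_cast hk.1, by exact_mod_cast hk.2⟩
        gcongr
    _ = _ := by
        rw [Finset.sum_const, nsmul_eq_mul, Int.card_Icc]
        have : ((K : ℤ) + 1 - -(K : ℤ)).toNat = 2 * K + 1 := by omega
        rw [this]
        push_cast
        ring

/-- the values on the segment determine the coefficients -/
theorem EL_inj {w : ℝ} (hw : 0 < w) (K : ℕ) {a : ℤ → ℂ}
    (h : ∀ j : Fin (2 * K + 1), EL w K a (I * ((j : ℝ) / (2 * K + 1) : ℝ)) = 0) :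
    ∀ k ∈ Finset.Icc (-(K : ℤ)) K, a k = 0 := by
  -- nodes v j = exp (- w t_j)
  set t : Fin (2 * K + 1) → ℝ := fun j => (j : ℝ) / (2 * K + 1) with ht
  set v : Fin (2 * K + 1) → ℂ := fun j => exp (-(w * t j : ℝ)) with hv
  have hvinj : Function.Injective v := by
    intro i j hij
    have h1 : Real.exp (-(w * t i)) = Real.exp (-(w * t j)) := by
      have : ((Real.exp (-(w * t i)) : ℝ) : ℂ) = ((Real.exp (-(w * t j)) : ℝ) : ℂ) := by
        simpa [hv, ofReal_exp] using hij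
      exact_mod_cast this
    have h2 := Real.exp_injective h1
    have h3 : t i = t j := by
      have := neg_injective h2
      exact mul_left_cancel₀ hw.ne' this
    have hK : (0 : ℝ) < 2 * K + 1 := by positivity
    have h4 : ((i : ℕ) : ℝ) = (j : ℕ) := by
      simp only [ht] at h3
      field_simp at h3
      exact h3
    exact Fin.ext (by exact_mod_cast h4)
  -- the polynomial vanishes at the nodes
  have hval : ∀ j, ∑ i : Fin (2 * K + 1), a ((i : ℕ) - K : ℤ) * v j ^ (i : ℕ) = 0 := by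
    intro j
    have h1 := h j
    unfold EL at h1
    have h2 : ∑ k ∈ Finset.Icc (-(K : ℤ)) K, a k * exp (I * w * k * (I * (t j : ℝ))) =
        ∑ i : Fin (2 * K + 1), a ((i : ℕ) - K : ℤ) * exp (I * w * (((i : ℕ) - K : ℤ) : ℂ) * (I * (t j : ℝ))) := by
      rw [Fin.sum_univ_eq_sum_range (fun i => a ((i : ℤ) - K) * exp (I * w * (((i : ℤ) - K : ℤ) : ℂ) * (I * (t j : ℝ)))) (2 * K + 1)]
      refine Finset.sum_bij' (fun k _ => (k + K).toNat) (fun i _ => (i : ℤ) - K) ?_ ?_ ?_ ?_ ?_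
      · intro k hk
        rw [Finset.mem_Icc] at hk
        rw [Finset.mem_range]
        omega
      · intro i hi
        rw [Finset.mem_range] at hi
        rw [Finset.mem_Icc]
        omega
      · intro k hk
        rw [Finset.mem_Icc] at hk
        have : ((k + K).toNat : ℤ) = k + K := Int.toNat_of_nonneg (by omega)
        rw [this]
        ring
      · intro i _
        have : (i : ℤ) - K + K = i := by ring
        rw [this]
        simp
      · intro k hk
        rw [Finset.mem_Icc] at hk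
        have : ((k + K).toNat : ℤ) = k + K := Int.toNat_of_nonneg (by omega)
        rw [this]
        have e : k + K - K = k := by ring
        rw [e]
    have h3 : (0 : ℂ) = exp (-(w * t j * K : ℝ)) * ∑ k ∈ Finset.Icc (-(K : ℤ)) K, a k * exp (I * w * k * (I * (t j : ℝ))) := by
      have e : ∑ k ∈ Finset.Icc (-(K : ℤ)) K, a k * exp (I * w * k * (I * (t j : ℝ))) = 0 := h1
      rw [e, mul_zero]
    rw [h2, Finset.mul_sum] at h3
    rw [h3]
    refine Finset.sum_congr rfl fun i _ => ?_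
    rw [hv]
    simp only
    rw [← exp_nat_mul]
    rw [mul_left_comm, ← exp_add]
    congr 2
    push_cast
    linear_combination (-(w * t j * (((i : ℕ) : ℂ) - K))) * I_sq
  -- Vandermonde
  have hdet : (Matrix.vandermonde v).det ≠ 0 := Matrix.det_vandermonde_ne_zero_iff.2 hvinj
  have hmul : (Matrix.vandermonde v).mulVec (fun i : Fin (2 * K + 1) => a ((i : ℕ) - K : ℤ)) = 0 := by
    funext j
    simp only [Matrix.mulVec, dotProduct, Matrix.vandermonde_apply, Pi.zero_apply]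
    rw [← hval j]
    exact Finset.sum_congr rfl fun i _ => mul_comm _ _
  have hzero := Matrix.eq_zero_of_mulVec_eq_zero hdet hmul
  intro k hk
  rw [Finset.mem_Icc] at hk
  have hk1 : (k + K).toNat < 2 * K + 1 := by omega
  have h5 := congrFun hzero ⟨(k + K).toNat, hk1⟩
  have h6 : (((k + K).toNat : ℕ) : ℤ) = k + K := Int.toNat_of_nonneg (by omega)
  simp only [Pi.zero_apply] at h5
  rw [h6] at h5
  have e : k + K - K = k := by ring
  rw [e] at h5
  exact h5

/-- **Coefficients from the values on the segment.** -/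
theorem EL_coef {w : ℝ} (hw : 0 < w) (K : ℕ) : ∃ V : ℝ, 0 < V ∧ ∀ (a : ℤ → ℂ) (B : ℝ),
    (∀ t ∈ Icc (0 : ℝ) 1, ‖EL w K a (I * t)‖ ≤ B) → ∀ k ∈ Finset.Icc (-(K : ℤ)) K, ‖a k‖ ≤ V * B := by
  classical
  -- linear map on the finite dimensional space of coefficients
  let F : ((Finset.Icc (-(K : ℤ)) K) → ℂ) →ₗ[ℂ] (Fin (2 * K + 1) → ℂ) :=
    { toFun := fun c j => EL w K (fun k => if hk : k ∈ Finset.Icc (-(K : ℤ)) K then c ⟨k, hk⟩ else 0)
        (I * (((j : ℝ) / (2 * K + 1) : ℝ) : ℂ))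
      map_add' := by
        intro c d
        funext j
        simp only [EL, Pi.add_apply]
        rw [← Finset.sum_add_distrib]
        refine Finset.sum_congr rfl fun k hk => ?_
        simp only [hk, dif_pos]
        ring
      map_smul' := by
        intro r c
        funext j
        simp only [EL, Pi.smul_apply, smul_eq_mul, RingHom.id_apply]
        rw [Finset.mul_sum]
        refine Finset.sum_congr rfl fun k hk => ?_
        simp only [hk, dif_pos]
        ring }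
  have hker : LinearMap.ker F = ⊥ := by
    rw [LinearMap.ker_eq_bot']
    intro c hc
    have h1 := EL_inj hw K (a := fun k => if hk : k ∈ Finset.Icc (-(K : ℤ)) K then c ⟨k, hk⟩ else 0)
      (fun j => congrFun hc j)
    funext ⟨k, hk⟩
    have h2 := h1 k hk
    simp only [hk, dif_pos] at h2
    exact h2
  obtain ⟨V, hV0, hV⟩ := F.exists_antilipschitzWith hker
  refine ⟨V, by exact_mod_cast hV0, fun a B hB k hk => ?_⟩
  have hB0 : 0 ≤ B := (norm_nonneg _).trans (hB 0 ⟨le_rfl, zero_le_one⟩)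
  set c : (Finset.Icc (-(K : ℤ)) K) → ℂ := fun k => a k with hc
  have h1 : ‖F c‖ ≤ B := by
    refine (pi_norm_le_iff_of_nonneg hB0).2 fun j => ?_
    have e : F c j = EL w K a (I * (((j : ℝ) / (2 * K + 1) : ℝ) : ℂ)) := by
      show EL w K _ _ = _
      unfold EL
      refine Finset.sum_congr rfl fun k hk => ?_
      simp only [hk, dif_pos, hc]
    rw [e]
    refine hB _ ⟨by positivity, ?_⟩
    rw [div_le_one (by positivity)]
    have : ((j : ℕ) : ℝ) ≤ 2 * K := by exact_mod_cast Nat.lt_succ_iff.1 j.2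
    linarith
  have h2 : ‖c‖ ≤ V * ‖F c‖ := by
    have := hV.le_mul_dist c 0
    simpa [dist_zero_right] using this
  have h3 : ‖a k‖ ≤ ‖c‖ := norm_le_pi_norm c ⟨k, hk⟩
  exact h3.trans (h2.trans (mul_le_mul_of_nonneg_left h1 V.2))

/-- the vertical segment through `x0` -/
def seg (x0 : ℂ) : Set ℂ := {x | ∃ t ∈ Icc (0 : ℝ) 1, x = x0 + I * t}

/-- the rectangle of the expansions -/
def ReR (R : ℝ) : Set ℂ := {z | |z.re| ≤ R ∧ |z.im| ≤ 1}

/-- the shift by `L` changes the sign of the odd coefficients -/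
theorem exp_L {w L : ℝ} (hL : w * L = Real.pi) (k : ℤ) : exp (I * w * k * L) = (-1) ^ k := by
  have e : I * (w : ℂ) * k * L = k * (Real.pi * I) := by
    have : (w : ℂ) * L = Real.pi := by rw [← hL]; push_cast; ring
    linear_combination (I * k) * this
  rw [e, exp_int_mul, exp_pi_mul_I]

/-- **One step.** -/
theorem rec_step {w L R X : ℝ} (hw : 0 < w) (hL : w * L = Real.pi) (hX : 0 ≤ X) (hR : |L| + X ≤ R) (K : ℕ) :
    ∃ C : ℝ, 0 < C ∧ ∀ (Psi : ℂ → ℂ → ℂ) (m : ℂ → ℂ) (x0 : ℂ) (b : ℤ → ℂ) (a : ℂ → ℤ → ℂ) (ε δ : ℝ),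
      |x0.re| ≤ X → x0.im = 0 →
      (∀ x ∈ seg x0, ∀ z ∈ ReR R, ‖Psi z x - EL w K (a x) z‖ ≤ ε) →
      (∀ z ∈ ReR R, ‖m z - EL w K b z‖ ≤ ε) →
      (∀ x ∈ seg x0, ∀ t ∈ Icc (0 : ℝ) 1, ‖Psi (I * t) x - Psi (I * t) x0‖ ≤ δ) →
      (∀ x ∈ seg x0, Psi (x + L) x = m x) →
      ∀ k ∈ Finset.Icc (-(K : ℤ)) K, ‖(-1) ^ k * a x0 k - b k‖ ≤ C * (ε + δ) := by
  obtain ⟨V, hV0, hV⟩ := EL_coef hw K
  set E : ℝ := (2 * K + 1) * Real.exp (|w| * K * 1) with hE
  have hE0 : 0 < E := by positivity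
  set F : ℝ := Real.exp (|w| * K * 0) with hF
  refine ⟨V * (2 + 2 * E * V) + 1, by positivity, ?_⟩
  intro Psi m x0 b a ε δ hx0 hx0i ha hb hd hrel
  have hmem0 : x0 ∈ seg x0 := ⟨0, ⟨le_rfl, zero_le_one⟩, by simp⟩
  have hLR : |L| ≤ R := by linarith
  have hR0 : 0 ≤ R := (abs_nonneg _).trans hLR
  have hIt : ∀ t ∈ Icc (0 : ℝ) 1, I * (t : ℂ) ∈ ReR R := by
    intro t ht
    refine ⟨by simpa using hR0, ?_⟩
    simp only [mul_im, I_re, ofReal_im, mul_zero, I_im, ofReal_re, one_mul, zero_add]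
    rw [abs_of_nonneg ht.1]
    exact ht.2
  have hε : 0 ≤ ε := (norm_nonneg _).trans (hb (I * (0 : ℝ)) (hIt 0 ⟨le_rfl, zero_le_one⟩))
  have hδ : 0 ≤ δ := (norm_nonneg _).trans (hd x0 hmem0 0 ⟨le_rfl, zero_le_one⟩)
  -- the coefficients hardly depend on x
  have h1 : ∀ x ∈ seg x0, ∀ k ∈ Finset.Icc (-(K : ℤ)) K, ‖a x k - a x0 k‖ ≤ V * (2 * ε + δ) := by
    intro x hx
    refine hV (fun k => a x k - a x0 k) _ fun t ht => ?_
    rw [EL_sub]
    have e1 := ha x hx _ (hIt t ht)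
    have e2 := ha x0 hmem0 _ (hIt t ht)
    have e3 := hd x hx t ht
    have e : EL w K (a x) (I * t) - EL w K (a x0) (I * t) =
        -(Psi (I * t) x - EL w K (a x) (I * t)) + (Psi (I * t) x0 - EL w K (a x0) (I * t)) +
          (Psi (I * t) x - Psi (I * t) x0) := by ring
    rw [e]
    refine (norm_add_le _ _).trans ((add_le_add (norm_add_le _ _) le_rfl).trans ?_)
    rw [norm_neg]
    linarith
  -- comparison at x + L
  have h2 : ∀ t ∈ Icc (0 : ℝ) 1, ‖EL w K (fun k => ((-1) ^ k * a x0 k - b k) * exp (I * w * k * x0)) (I * t)‖ ≤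
      (2 + 2 * E * V) * (ε + δ) := by
    intro t ht
    set x : ℂ := x0 + I * t with hx
    have hxs : x ∈ seg x0 := ⟨t, ht, rfl⟩
    have hxre : x.re = x0.re := by simp [hx]
    have hxim : x.im = t := by simp [hx, hx0i]
    have hzR : x + L ∈ ReR R := by
      constructor
      · rw [add_re, hxre, ofReal_re]
        exact (abs_add_le _ _).trans (by linarith)
      · rw [add_im, hxim, ofReal_im, add_zero, abs_of_nonneg ht.1]
        exact ht.2
    have hxR : x ∈ ReR R := by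
      constructor
      · rw [hxre]
        have := abs_nonneg L
        linarith
      · rw [hxim, abs_of_nonneg ht.1]
        exact ht.2
    have e1 := ha x hxs _ hzR
    have e2 := hb x hxR
    have e3 : ‖EL w K (fun k => a x k - a x0 k) (x + L)‖ ≤ E * (V * (2 * ε + δ)) := by
      have := EL_le (w := w) (h1 x hxs) (x + L)
      refine this.trans ?_
      rw [hE]
      have hzi : |(x + L).im| ≤ 1 := hzR.2
      have : 0 ≤ V * (2 * ε + δ) := by positivity
      gcongr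
    rw [EL_sub] at e3
    have e4 : EL w K (a x0) (x + L) = EL w K (fun k => (-1) ^ k * a x0 k) x := by
      rw [EL_add]
      unfold EL
      refine Finset.sum_congr rfl fun k _ => ?_
      beta_reduce
      rw [exp_L hL]
      ring
    have e5 : EL w K (fun k => ((-1) ^ k * a x0 k - b k) * exp (I * w * k * x0)) (I * t) =
        EL w K (fun k => (-1) ^ k * a x0 k) x - EL w K b x := by
      rw [← EL_add, add_comm (I * (t : ℂ)) x0, ← hx, EL_sub]
    rw [e5, ← e4]
    have e : EL w K (a x0) (x + L) - EL w K b x =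
        -(EL w K (a x) (x + L) - EL w K (a x0) (x + L)) - (Psi (x + L) x - EL w K (a x) (x + L)) +
          (m x - EL w K b x) := by
      rw [hrel x hxs]
      ring
    rw [e]
    refine (norm_add_le _ _).trans ((add_le_add (norm_sub_le _ _) le_rfl).trans ?_)
    rw [norm_neg]
    have : 0 ≤ E * V := by positivity
    nlinarith [mul_nonneg this hδ]
  have h3 := hV _ _ h2
  intro k hk
  have h4 := h3 k hk
  have h5 : ‖exp (I * w * k * x0)‖ = 1 := by
    rw [norm_exp]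
    have : (I * (w : ℂ) * k * x0).re = 0 := by
      have e : I * (w : ℂ) * (k : ℂ) * x0 = I * (((w * k : ℝ) : ℂ) * x0) := by push_cast; ring
      rw [e, I_mul_re, im_ofReal_mul, hx0i]
      simp
    rw [this, Real.exp_zero]
  rw [norm_mul, h5, mul_one] at h4
  refine h4.trans ?_
  have : 0 ≤ ε + δ := by positivity
  nlinarith

/-- **The chain.** `n j` = function with `j` rows, `Psi j z x` = the same with one more row at `x`
(`Psi j z (x0 j) = n (j + 1) z`). -/
theorem rec_chain {w L R X c C : ℝ} (hw : 0 < w) (hL : w * L = Real.pi) (hX : 0 ≤ X) (hR : |L| + X ≤ R)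
    (hc : 0 ≤ c) (K : ℕ) {n : ℕ → ℂ → ℂ} {Psi : ℕ → ℂ → ℂ → ℂ} {x0 : ℕ → ℂ} {b : ℕ → ℤ → ℂ}
    {a : ℕ → ℂ → ℤ → ℂ} (hx0 : ∀ j, |(x0 j).re| ≤ X ∧ (x0 j).im = 0)
    (ha : ∀ᶠ j : ℕ in atTop, ∀ x ∈ seg (x0 j), ∀ z ∈ ReR R,
      ‖Psi j z x - EL w K (a j x) z‖ ≤ C * (j : ℝ) ^ (-(1 + c)))
    (hb : ∀ᶠ j : ℕ in atTop, ∀ z ∈ ReR R, ‖n j z - EL w K (b j) z‖ ≤ C * (j : ℝ) ^ (-(1 + c)))
    (hd : ∀ᶠ j : ℕ in atTop, ∀ x ∈ seg (x0 j), ∀ t ∈ Icc (0 : ℝ) 1,
      ‖Psi j (I * t) x - Psi j (I * t) (x0 j)‖ ≤ C * (j : ℝ) ^ (-(1 + c)))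
    (h0 : ∀ᶠ j : ℕ in atTop, ∀ z ∈ ReR R, Psi j z (x0 j) = n (j + 1) z)
    (h1 : ∀ᶠ j : ℕ in atTop, ∀ x ∈ seg (x0 j), Psi j (x + L) x = n j x) :
    ∃ C' : ℝ, ∀ᶠ j : ℕ in atTop, ∀ k ∈ Finset.Icc (-(K : ℤ)) K,
      ‖(-1) ^ k * b (j + 1) k - b j k‖ ≤ C' * (j : ℝ) ^ (-(1 + c)) := by
  obtain ⟨V, hV0, hV⟩ := EL_coef hw K
  obtain ⟨D, hD0, hD⟩ := rec_step hw hL hX hR K
  refine ⟨V * (|C| + |C|) + D * (|C| + |C|), ?_⟩
  filter_upwards [ha, hb, (tendsto_add_atTop_nat 1).eventually hb, hd, h0, h1, eventually_ge_atTop 1]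
    with j haj hbj hbj1 hdj h0j h1j hj k hk
  have hj1 : (1 : ℝ) ≤ (j : ℝ) := by exact_mod_cast hj
  have hp : 0 ≤ (j : ℝ) ^ (-(1 + c)) := Real.rpow_nonneg (by linarith) _
  have hCp : C * (j : ℝ) ^ (-(1 + c)) ≤ |C| * (j : ℝ) ^ (-(1 + c)) :=
    mul_le_mul_of_nonneg_right (le_abs_self C) hp
  have hmono : ((j + 1 : ℕ) : ℝ) ^ (-(1 + c)) ≤ (j : ℝ) ^ (-(1 + c)) := by
    refine Real.rpow_le_rpow_of_nonpos (by linarith) ?_ (by linarith)
    push_cast
    linarith
  have hCp1 : C * ((j + 1 : ℕ) : ℝ) ^ (-(1 + c)) ≤ |C| * (j : ℝ) ^ (-(1 + c)) :=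
    (mul_le_mul_of_nonneg_right (le_abs_self C) (Real.rpow_nonneg (Nat.cast_nonneg _) _)).trans
      (mul_le_mul_of_nonneg_left hmono (abs_nonneg _))
  have hR0 : 0 ≤ R := by have := abs_nonneg L; linarith
  have hmem0 : x0 j ∈ seg (x0 j) := ⟨0, ⟨le_rfl, zero_le_one⟩, by simp⟩
  -- two expansions of n (j + 1)
  have e1 : ‖a j (x0 j) k - b (j + 1) k‖ ≤ V * (|C| * (j : ℝ) ^ (-(1 + c)) + |C| * (j : ℝ) ^ (-(1 + c))) := by
    refine hV (fun k => a j (x0 j) k - b (j + 1) k) _ (fun t ht => ?_) k hk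
    have hz : I * (t : ℂ) ∈ ReR R := by
      refine ⟨by simpa using hR0, ?_⟩
      simp only [mul_im, I_re, ofReal_im, mul_zero, I_im, ofReal_re, one_mul, zero_add]
      rw [abs_of_nonneg ht.1]
      exact ht.2
    rw [EL_sub]
    have f1 := (haj _ hmem0 _ hz).trans hCp
    have f2 := (hbj1 _ hz).trans hCp1
    rw [h0j _ hz] at f1
    have e : EL w K (a j (x0 j)) (I * t) - EL w K (b (j + 1)) (I * t) =
        -(n (j + 1) (I * t) - EL w K (a j (x0 j)) (I * t)) +
          (n (j + 1) (I * t) - EL w K (b (j + 1)) (I * t)) := by ring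
    rw [e]
    refine (norm_add_le _ _).trans ?_
    rw [norm_neg]
    exact add_le_add f1 f2
  have e2 := hD (Psi j) (n j) (x0 j) (b j) (a j) (|C| * (j : ℝ) ^ (-(1 + c))) (|C| * (j : ℝ) ^ (-(1 + c)))
    (hx0 j).1 (hx0 j).2 (fun x hx z hz => (haj x hx z hz).trans hCp) (fun z hz => (hbj z hz).trans hCp)
    (fun x hx t ht => (hdj x hx t ht).trans hCp) h1j k hk
  have e : (-1) ^ k * b (j + 1) k - b j k =
      -((-1) ^ k * (a j (x0 j) k - b (j + 1) k)) + ((-1) ^ k * a j (x0 j) k - b j k) := by ring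
  rw [e]
  refine (norm_add_le _ _).trans ?_
  rw [norm_neg, norm_mul]
  have h3 : ‖((-1 : ℂ)) ^ k‖ = 1 := by rw [norm_zpow, norm_neg, norm_one, one_zpow]
  rw [h3, one_mul]
  calc _ ≤ _ := add_le_add e1 e2
    _ = _ := by ring

/-- the difference in `x` from the derivative in `x` -/
theorem seg_diff {f : ℂ → ℂ} {x0 : ℂ} {B : ℝ} (hf : ∀ x ∈ seg x0, DifferentiableAt ℂ f x)
    (hB : ∀ x ∈ seg x0, ‖deriv f x‖ ≤ B) {x : ℂ} (hx : x ∈ seg x0) : ‖f x - f x0‖ ≤ B := by
  obtain ⟨t, ht, rfl⟩ := hx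
  have hg : ∀ s ∈ Icc (0 : ℝ) 1, HasDerivWithinAt (fun s : ℝ => f (x0 + I * s)) (deriv f (x0 + I * s) * I) (Icc 0 1) s := by
    intro s hs
    have h1 : HasDerivAt (fun s : ℝ => x0 + I * (s : ℂ)) I s := by
      have := ((hasDerivAt_id s).ofReal_comp.const_mul I).const_add x0
      simpa using this
    exact ((hf _ ⟨s, hs, rfl⟩).hasDerivAt.comp s h1).hasDerivWithinAt
  have h2 := (convex_Icc (0 : ℝ) 1).norm_image_sub_le_of_norm_hasDerivWithin_le (C := B) hg
    (fun s hs => by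
      rw [norm_mul, norm_I, mul_one]
      exact hB _ ⟨s, hs, rfl⟩) (⟨le_rfl, zero_le_one⟩ : (0 : ℝ) ∈ Icc (0 : ℝ) 1) ht
  have hB0 : 0 ≤ B := (norm_nonneg _).trans (hB x0 ⟨0, ⟨le_rfl, zero_le_one⟩, by simp⟩)
  simp only [ofReal_zero, mul_zero, add_zero, sub_zero, Real.norm_eq_abs] at h2
  rw [abs_of_nonneg ht.1] at h2
  refine h2.trans ?_
  nlinarith [ht.1, ht.2]

/-- **End of plan B.** The zero coefficients converge; a function `W` (regular two-point function,
normalised) which is `κ` times the zero coefficient up to `O(M^{-c})`, `κ ≠ 0`, and is at least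
`A M^{-α}`, `α < c`, for infinitely many `M`, is bounded below by a positive constant. -/
theorem rec_fin {c C κ' : ℝ} (hc : 0 < c) {b : ℕ → ℤ → ℂ} {K : ℕ}
    (hb : ∀ᶠ j : ℕ in atTop, ∀ k ∈ Finset.Icc (-(K : ℤ)) K,
      ‖(-1) ^ k * b (j + 1) k - b j k‖ ≤ C * (j : ℝ) ^ (-(1 + c)))
    {W : ℕ → ℝ} {κ : ℂ} {J : ℕ → ℕ} (hJ : ∀ M, M ≤ J M)
    (hW : ∀ᶠ M : ℕ in atTop, ‖(W M : ℂ) - κ * b (J M) 0‖ ≤ κ' * (M : ℝ) ^ (-c))
    {A α : ℝ} (hA : 0 < A) (hα : α < c) (hlow : ∃ᶠ M : ℕ in atTop, A * (M : ℝ) ^ (-α) ≤ W M) :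
    ∃ L : ℝ, 0 < L ∧ Tendsto W atTop (𝓝 L) ∧
      (∃ C' : ℝ, ∀ᶠ M : ℕ in atTop, |W M - L| ≤ C' * (M : ℝ) ^ (-c)) ∧
      ∀ᶠ M : ℕ in atTop, L / 2 ≤ W M := by
  -- limit of the zero coefficients
  have h1 : ∀ᶠ j : ℕ in atTop, ‖b (j + 1) 0 - b j 0‖ ≤ C * (j : ℝ) ^ (-(1 + c)) := by
    filter_upwards [hb] with j hj
    have := hj 0 (by simp)
    simpa using this
  obtain ⟨g, hg, C1, hC10, hC1⟩ := PBF.tendsto_of_step (G := fun j => b j 0) hc h1
  have hJt : Tendsto J atTop atTop := tendsto_atTop_mono hJ tendsto_id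
  -- W M is close to κ g
  have h2 : ∀ᶠ M : ℕ in atTop, ‖(W M : ℂ) - κ * g‖ ≤ (|κ'| + ‖κ‖ * C1) * (M : ℝ) ^ (-c) := by
    filter_upwards [hW, hJt.eventually hC1, eventually_ge_atTop 1] with M e1 e2 e3
    have hM1 : (1 : ℝ) ≤ (M : ℝ) := by exact_mod_cast e3
    have hp : 0 ≤ (M : ℝ) ^ (-c) := Real.rpow_nonneg (by linarith) _
    have hmono : ((J M : ℕ) : ℝ) ^ (-c) ≤ (M : ℝ) ^ (-c) :=
      Real.rpow_le_rpow_of_nonpos (by linarith) (by exact_mod_cast hJ M) (by linarith)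
    have e : (W M : ℂ) - κ * g = ((W M : ℂ) - κ * b (J M) 0) + κ * (b (J M) 0 - g) := by ring
    rw [e]
    refine (norm_add_le _ _).trans ?_
    rw [norm_mul, add_mul, mul_assoc]
    refine add_le_add (e1.trans (mul_le_mul_of_nonneg_right (le_abs_self _) hp)) ?_
    exact mul_le_mul_of_nonneg_left (e2.trans (mul_le_mul_of_nonneg_left hmono hC10)) (norm_nonneg _)
  set D : ℝ := |κ'| + ‖κ‖ * C1 with hD
  have hD0 : 0 ≤ D := by positivity
  -- real parts
  have h3 : ∀ᶠ M : ℕ in atTop, |W M - (κ * g).re| ≤ D * (M : ℝ) ^ (-c) := by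
    filter_upwards [h2] with M e1
    have e2 := abs_re_le_norm ((W M : ℂ) - κ * g)
    rw [sub_re, ofReal_re] at e2
    exact e2.trans e1
  have hz : Tendsto (fun M : ℕ => D * (M : ℝ) ^ (-c)) atTop (𝓝 0) := by
    have := ((tendsto_rpow_neg_atTop hc).comp tendsto_natCast_atTop_atTop).const_mul D
    simpa using this
  set L : ℝ := (κ * g).re with hLdef
  have hlim : Tendsto W atTop (𝓝 L) := by
    rw [tendsto_iff_norm_sub_tendsto_zero]
    refine squeeze_zero' (Eventually.of_forall fun M => norm_nonneg _) ?_ hz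
    filter_upwards [h3] with M e1
    rw [Real.norm_eq_abs]
    exact e1
  have hLnn : 0 ≤ L := by
    by_contra hcon
    push Not at hcon
    obtain ⟨M, hM, h5⟩ := (hlow.and_eventually (hlim.eventually (gt_mem_nhds hcon))).exists
    have h6 : 0 ≤ A * (M : ℝ) ^ (-α) := mul_nonneg hA.le (Real.rpow_nonneg (Nat.cast_nonneg _) _)
    linarith
  have hL0 : L ≠ 0 := by
    intro hL0
    have h4 : Tendsto (fun M : ℕ => (M : ℝ) ^ (c - α)) atTop atTop :=
      (tendsto_rpow_atTop (by linarith)).comp tendsto_natCast_atTop_atTop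
    obtain ⟨M, hM, h5, h6, h7⟩ := (hlow.and_eventually
      (h3.and ((h4.eventually_gt_atTop (D / A)).and (eventually_ge_atTop 1)))).exists
    have hM0 : (0 : ℝ) < M := by
      have : (1 : ℝ) ≤ (M : ℝ) := by exact_mod_cast h7
      linarith
    rw [hL0, sub_zero] at h5
    have h8 : A * (M : ℝ) ^ (-α) ≤ D * (M : ℝ) ^ (-c) := hM.trans ((le_abs_self _).trans h5)
    have h9 : (M : ℝ) ^ (-α) = (M : ℝ) ^ (c - α) * (M : ℝ) ^ (-c) := by
      rw [← Real.rpow_add hM0]
      ring_nf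
    have h10 : 0 < (M : ℝ) ^ (-c) := Real.rpow_pos_of_pos hM0 _
    rw [h9, ← mul_assoc] at h8
    have h11 : A * (M : ℝ) ^ (c - α) ≤ D := le_of_mul_le_mul_right h8 h10
    rw [div_lt_iff₀ hA] at h6
    linarith
  have hLpos : 0 < L := lt_of_le_of_ne hLnn (Ne.symm hL0)
  exact ⟨L, hLpos, hlim, ⟨D, h3⟩,
    (hlim.eventually (lt_mem_nhds (by linarith : L / 2 < L))).mono fun M hM => hM.le⟩

end Pool.Agent.PB.Rec

end
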