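import Pool.Agent.PB.VandB

/-!
# Plan B: Vandermonde for exponential sums

**`vand`**: the coefficients of an exponential sum with `2K+1` terms are bounded by its values on a
segment `i[0,h]`.
-/

set_option autoImplicit false

noncomputable section

open Complex MeasureTheory Set Filter Topology Finset

namespace PBV

/-- the nodes -/
def nd (h : ℝ) (K : ℕ) (i : Fin (2 * K + 1)) : ℝ := h * (i : ℕ) / (2 * K + 1)

theorem nd_mem {h : ℝ} (hh : 0 < h) (K : ℕ) (i : Fin (2 * K + 1)) : nd h K i ∈ Icc 0 h := by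
  unfold nd
  have h1 : ((i : ℕ) : ℝ) ≤ 2 * K + 1 := by
    have := i.2
    have h2 : (i : ℕ) ≤ 2 * K + 1 := this.le
    exact_mod_cast h2
  constructor
  · positivity
  · rw [div_le_iff₀ (by positivity)]
    nlinarith

/-- the base of the node -/
def yb (a h : ℝ) (K : ℕ) (i : Fin (2 * K + 1)) : ℂ := ex a 1 (nd h K i * I)

theorem yb_inj {a h : ℝ} (ha : 0 < a) (hh : 0 < h) (K : ℕ) : Function.Injective (yb a h K) := by
  intro i j hij
  have hpi := Real.pi_pos
  have h1 : ‖yb a h K i‖ = ‖yb a h K j‖ := by rw [hij]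
  unfold yb at h1
  rw [ex_norm, ex_norm, Real.exp_eq_exp] at h1
  simp only [Int.cast_one, mul_one, mul_im, ofReal_re, I_im, ofReal_im, I_re, mul_zero,
    add_zero, neg_inj] at h1
  have h2 : nd h K i = nd h K j := by
    field_simp at h1
    exact h1
  unfold nd at h2
  have h3 : ((i : ℕ) : ℝ) = (j : ℕ) := by
    field_simp at h2
    exact h2
  exact Fin.ext (by exact_mod_cast h3)

theorem ex_ne (a : ℝ) (k : ℤ) (z : ℂ) : ex a k z ≠ 0 := by unfold ex; exact exp_ne_zero _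

/-- the linear map coefficients to values -/
def vmap (a h : ℝ) (K : ℕ) : (Fin (2 * K + 1) → ℂ) →ₗ[ℂ] (Fin (2 * K + 1) → ℂ) where
  toFun c i := ∑ j, c j * ex a (((j : ℕ) : ℤ) - K) (nd h K i * I)
  map_add' c d := by
    ext i
    simp only [Pi.add_apply, add_mul, Finset.sum_add_distrib]
  map_smul' r c := by
    ext i
    simp only [Pi.smul_apply, smul_eq_mul, RingHom.id_apply, Finset.mul_sum, mul_assoc]

theorem vmap_inj {a h : ℝ} (ha : 0 < a) (hh : 0 < h) (K : ℕ) :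
    LinearMap.ker (vmap a h K) = ⊥ := by
  rw [LinearMap.ker_eq_bot']
  intro c hc
  have h1 : ∀ i, ∑ j, c j * yb a h K i ^ (j : ℕ) = 0 := by
    intro i
    have h2 := congr_fun hc i
    simp only [vmap, LinearMap.coe_mk, AddHom.coe_mk, Pi.zero_apply] at h2
    have h3 : ∑ j, c j * yb a h K i ^ (j : ℕ) = (∑ j : Fin (2 * K + 1),
        c j * ex a (((j : ℕ) : ℤ) - K) (nd h K i * I)) * ex a K (nd h K i * I) := by
      rw [Finset.sum_mul]
      apply Finset.sum_congr rfl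
      intro j _
      rw [mul_assoc, ex_mul]
      unfold yb
      rw [ex_pow]
      congr 2
      ring
    rw [h3, h2, zero_mul]
  have h2 := Matrix.eq_zero_of_forall_index_sum_mul_pow_eq_zero (f := yb a h K) (v := c)
    (yb_inj ha hh K) (fun i => h1 i)
  exact h2

/-- **Vandermonde** -/
theorem vand {a h : ℝ} (ha : 0 < a) (hh : 0 < h) (K : ℕ) : ∃ A : ℝ, 0 ≤ A ∧
    ∀ (c : ℤ → ℂ) (S : ℝ), (∀ η ∈ Icc (0 : ℝ) h,
      ‖∑ j ∈ range (2 * K + 1), c ((j : ℤ) - K) * ex a ((j : ℤ) - K) (η * I)‖ ≤ S) →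
      ∀ k : ℤ, |k| ≤ K → ‖c k‖ ≤ A * S := by
  obtain ⟨A, _, hA⟩ := LinearMap.exists_antilipschitzWith (vmap a h K) (vmap_inj ha hh K)
  refine ⟨A, A.2, fun c S hS k hk => ?_⟩
  set c' : Fin (2 * K + 1) → ℂ := fun j => c (((j : ℕ) : ℤ) - K) with hc'
  have h1 := hA.le_mul_dist c' 0
  rw [map_zero, dist_zero_right, dist_zero_right] at h1
  have hS0 : 0 ≤ S := (norm_nonneg _).trans (hS 0 ⟨le_rfl, hh.le⟩)
  have h2 : ‖vmap a h K c'‖ ≤ S := by
    rw [pi_norm_le_iff_of_nonneg hS0]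
    intro i
    have h3 := hS (nd h K i) (nd_mem hh K i)
    simp only [vmap, LinearMap.coe_mk, AddHom.coe_mk, hc']
    rw [← Fin.sum_univ_eq_sum_range (fun j => c ((j : ℤ) - K) * ex a ((j : ℤ) - K)
      (nd h K i * I))] at h3
    exact h3
  have h4 : ‖c k‖ ≤ ‖c'‖ := by
    have hk' := abs_le.1 hk
    have h5 : ((k + K).toNat : ℤ) = k + K := Int.toNat_of_nonneg (by linarith [hk'.1])
    have h6 : (k + K).toNat < 2 * K + 1 := by omega
    have h7 := norm_le_pi_norm c' ⟨(k + K).toNat, h6⟩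
    simp only [hc'] at h7
    rw [h5, add_sub_cancel_right] at h7
    exact h7
  calc ‖c k‖ ≤ ‖c'‖ := h4
    _ ≤ A * ‖vmap a h K c'‖ := h1
    _ ≤ A * S := by
      have := A.2
      gcongr

end PBV
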