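import Pool.Agent.PB.VandD
import Pool.Agent.PB.VandE

/-!
# Plan B: functions almost periodic with period `2a` (helper12)

`Hyp a δ C N f`: `f` is differentiable and `≤ N^C` on `|Re z| ≤ a + δ`, `|Im z| ≤ (2δ/π) log N`, and
`f (z + a) - f (z - a)` has a zero of order `≥ N` at `0`.  (Application: `a = 3l`, `e^{iπz/a} = e^{(8/3)iz}`, `δ ≤ l`:
`(2δ/π) log N = (δ/l) (1/4) log N`.)

* **`expsum`**: `f` is an exponential sum with `2K+1` terms (`K` does not depend on `N`, `f`) up to
  `N^{-e}`, near `Re z = 0` and near `Re z = a`, `|Im z| ≤ (1-ε) (2δ/π) log N + 1`;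
-/

set_option autoImplicit false

noncomputable section

open Complex MeasureTheory Set Filter Topology Finset

namespace PBV

/-- the hypotheses -/
structure Hyp (a δ C : ℝ) (N : ℕ) (f : ℂ → ℂ) : Prop where
  d : ∀ z : ℂ, |z.re| ≤ a + δ → |z.im| ≤ 2 * δ / Real.pi * Real.log N → DifferentiableAt ℂ f z
  b : ∀ z : ℂ, |z.re| ≤ a + δ → |z.im| ≤ 2 * δ / Real.pi * Real.log N → ‖f z‖ ≤ (N : ℝ) ^ C
  o : (N : ℕ∞) ≤ analyticOrderAt (fun z => f (z + a) - f (z - a)) 0

/-- the exponential sum -/
def es (a : ℝ) (K : ℕ) (c : ℤ → ℂ) (z : ℂ) : ℂ :=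
  ∑ j ∈ range (2 * K + 1), c ((j : ℤ) - K) * ex a ((j : ℤ) - K) z

theorem tanh_half_log {N : ℕ} (hN : 2 ≤ N) :
    Real.tanh (Real.log N / 2) = ((N : ℝ) - 1) / (N + 1) := by
  have h0 : (0 : ℝ) < N := by
    have : 0 < N := by omega
    exact_mod_cast this
  have e1 : Real.exp (Real.log N / 2) * Real.exp (Real.log N / 2) = N := by
    rw [← Real.exp_add, add_halves, Real.exp_log h0]
  have e2 : Real.exp (-(Real.log N / 2)) * Real.exp (Real.log N / 2) = 1 := by
    rw [← Real.exp_add]; simp
  rw [Real.tanh_eq_sinh_div_cosh, Real.sinh_eq, Real.cosh_eq]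
  have h1 : 0 < Real.exp (Real.log N / 2) := Real.exp_pos _
  have h2 : 0 < Real.exp (-(Real.log N / 2)) := Real.exp_pos _
  rw [div_div_div_cancel_right₀ (by norm_num), div_eq_div_iff (by positivity) (by positivity)]
  set x := Real.exp (Real.log N / 2)
  set y := Real.exp (-(Real.log N / 2))
  have h3 : (N : ℝ) * y = x := by rw [← e1]; linear_combination x * e2
  linear_combination -2 * h3

theorem tanh_pow {N : ℕ} (hN : 2 ≤ N) : 1 / Real.tanh (Real.log N / 2) ^ N ≤ Real.exp 4 := by
  have h0 : (2 : ℝ) ≤ N := by exact_mod_cast hN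
  rw [tanh_half_log hN, ← one_div_pow, one_div_div]
  have h1 : ((N : ℝ) + 1) / (N - 1) ≤ Real.exp (2 / (N - 1)) := by
    have h2 := Real.add_one_le_exp (2 / ((N : ℝ) - 1))
    have h3 : ((N : ℝ) + 1) / (N - 1) = 2 / (N - 1) + 1 := by
      have : (N : ℝ) - 1 ≠ 0 := by linarith
      field_simp
      ring
    rw [h3]
    exact h2
  have h4 : 0 ≤ ((N : ℝ) + 1) / (N - 1) := by
    apply div_nonneg <;> linarith
  calc (((N : ℝ) + 1) / (N - 1)) ^ N ≤ Real.exp (2 / (N - 1)) ^ N := by gcongr
    _ = Real.exp (N * (2 / (N - 1))) := by rw [← Real.exp_nat_mul]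
    _ ≤ Real.exp 4 := by
      apply Real.exp_le_exp.2
      rw [mul_div_assoc', div_le_iff₀ (by linarith)]
      linarith

theorem sin_geV {x y : ℝ} (hx : 0 ≤ x) (hxy : x ≤ y) (hy : y ≤ Real.pi - x) :
    Real.sin x ≤ Real.sin y := by
  rcases le_total y (Real.pi / 2) with h | h
  · exact Real.sin_le_sin_of_le_of_le_pi_div_two (by linarith [Real.pi_pos]) h hxy
  · rw [← Real.sin_pi_sub y]
    exact Real.sin_le_sin_of_le_of_le_pi_div_two (by linarith [Real.pi_pos]) (by linarith)
      (by linarith)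

/-- the region near `0` and near `a` -/
def Zr (a δ : ℝ) (z : ℂ) : Prop := |z.re| ≤ δ / 4 ∨ |z.re - a| ≤ δ / 4

theorem sin_side {a δ : ℝ} (hδ : 0 < δ) (hδa : δ ≤ a) {z : ℂ} (hz : Zr a δ z) :
    Real.sin (Real.pi * δ / (4 * a)) ≤ |Real.sin (Real.pi * (-a + δ / 2 - z.re) / a)| := by
  have hpi := Real.pi_pos
  have ha : 0 < a := lt_of_lt_of_le hδ hδa
  have key : ∀ t : ℝ, |t| ≤ δ / 4 → Real.sin (Real.pi * δ / (4 * a)) ≤
      Real.sin (Real.pi * (δ / 2 - t) / a) := by
    intro t ht
    have ht' := abs_le.1 ht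
    apply sin_geV (by positivity)
    · rw [div_le_div_iff₀ (by positivity) ha]
      nlinarith [mul_pos hpi ha]
    · rw [div_le_iff₀ ha, sub_mul, div_mul_eq_mul_div, le_sub_iff_add_le, mul_div_assoc]
      have h1 : a / (4 * a) = 1 / 4 := by field_simp
      have h2 : Real.pi * δ * a / (4 * a) = Real.pi * δ / 4 := by field_simp
      have h3 : Real.pi * (δ / 2 - t) + Real.pi * δ / 4 ≤ Real.pi * a := by
        nlinarith
      calc Real.pi * (δ / 2 - t) + Real.pi * δ * (a / (4 * a)) =
          Real.pi * (δ / 2 - t) + Real.pi * δ / 4 := by rw [h1]; ring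
        _ ≤ _ := h3
  rcases hz with h | h
  · have e1 : Real.sin (Real.pi * (-a + δ / 2 - z.re) / a) =
        -Real.sin (Real.pi * (δ / 2 - z.re) / a) := by
      rw [show Real.pi * (-a + δ / 2 - z.re) / a = Real.pi * (δ / 2 - z.re) / a - Real.pi by
        field_simp; ring, Real.sin_sub_pi]
    rw [e1, abs_neg]
    exact (key _ h).trans (le_abs_self _)
  · have e1 : Real.sin (Real.pi * (-a + δ / 2 - z.re) / a) =
        Real.sin (Real.pi * (δ / 2 - (z.re - a)) / a) := by
      rw [show Real.pi * (-a + δ / 2 - z.re) / a = Real.pi * (δ / 2 - (z.re - a)) / a - 2 * Real.pi by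
        field_simp; ring, Real.sin_sub_two_pi]
    rw [e1]
    exact (key _ h).trans (le_abs_self _)

/-- **`f` is an exponential sum with `2K+1` terms** -/
theorem expsum {a δ : ℝ} (C e : ℝ) {ε : ℝ} (hδ : 0 < δ) (hδa : δ ≤ a) (hε : 0 < ε) (hε1 : ε < 1) : ∃ K : ℕ, ∃ N0 : ℕ, ∀ N ≥ N0, ∀ f : ℂ → ℂ, Hyp a δ C N f →
      ∃ c : ℤ → ℂ, ∀ z : ℂ, Zr a δ z → |z.im| ≤ (1 - ε) * (2 * δ / Real.pi * Real.log N) + 1 →
        ‖f z - es a K c z‖ ≤ (N : ℝ) ^ (-e) := by
  have hpi := Real.pi_pos
  have ha : 0 < a := lt_of_lt_of_le hδ hδa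
  -- the number of terms
  obtain ⟨K, hK⟩ := exists_nat_ge ((C + e + 1) * a / (ε * δ))
  have hK' : C + e + 1 ≤ (K + 1) * (ε * δ / a) := by
    rw [div_le_iff₀ (by positivity)] at hK
    rw [mul_div_assoc', le_div_iff₀ ha]
    nlinarith [mul_pos hε hδ]
  set s := Real.sin (Real.pi * δ / (4 * a)) with hs
  have hs0 : 0 < s := by
    apply Real.sin_pos_of_pos_of_lt_pi (by positivity)
    rw [div_lt_iff₀ (by positivity)]
    nlinarith
  -- constants for the asymptotics
  set b : ℝ := Real.log (8 * Real.exp 4 * δ / (Real.pi * a * s) + 1) with hb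
  have hb0 : 0 ≤ b := Real.log_nonneg (by
    have : 0 ≤ 8 * Real.exp 4 * δ / (Real.pi * a * s) := by positivity
    linarith)
  have hlog : Tendsto (fun N : ℕ => Real.log N) atTop atTop :=
    Real.tendsto_log_atTop.comp tendsto_natCast_atTop_atTop
  obtain ⟨N0, hN0⟩ := Filter.eventually_atTop.1 ((hlog.eventually_ge_atTop 1).and
    ((hlog.eventually_ge_atTop (((C + e + 1) + b) / (7 / 160 * ε ^ 2))).and
    ((hlog.eventually_ge_atTop ((Real.pi / a + 1) / (ε * δ / a))).and
    ((hlog.eventually_ge_atTop (Real.pi * (K + 1) / a + 3)).and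
    ((hlog.eventually_ge_atTop (2 * Real.pi / (ε * δ))).and (eventually_ge_atTop 2))))))
  refine ⟨K, N0, fun N hN f hf => ?_⟩
  obtain ⟨hL1, hL2, hL3, hL4, hL5, hN2⟩ := hN0 N hN
  set L := Real.log N with hL
  have hNpos : (0 : ℝ) < N := by
    have : 0 < N := by omega
    exact_mod_cast this
  have hNe : ∀ x : ℝ, (N : ℝ) ^ x = Real.exp (x * L) := by
    intro x
    rw [Real.rpow_def_of_pos hNpos, mul_comm]
  set Y := 2 * δ / Real.pi * L with hY
  have hY0 : 0 < Y := by positivity
  set τ := (1 - ε / 2) * Y with hτ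
  have hτ0 : 0 < τ := by
    have : 0 < 1 - ε / 2 := by linarith
    positivity
  have hτY : τ ≤ Y := by
    rw [hτ]
    nlinarith
  set α := -a + δ / 2 with hα
  -- the difference
  set D : ℂ → ℂ := fun z => f (z + a) - f (z - a) with hD
  have hDd : ∀ z ∈ CR δ Y, DifferentiableAt ℂ D z := by
    intro z hz
    have h1 : DifferentiableAt ℂ f (z + a) := hf.d _ (by
      simp only [add_re, ofReal_re]
      exact (abs_add_le _ _).trans (by rw [abs_of_pos ha]; linarith [hz.1])) (by simpa using hz.2)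
    have h2 : DifferentiableAt ℂ f (z - a) := hf.d _ (by
      simp only [sub_re, ofReal_re]
      exact (abs_sub _ _).trans (by rw [abs_of_pos ha]; linarith [hz.1])) (by simpa using hz.2)
    exact (DifferentiableAt.comp z (g := f) h1 (by fun_prop)).sub
      (DifferentiableAt.comp z (g := f) h2 (by fun_prop))
  have hDb : ∀ z ∈ CR δ Y, ‖D z‖ ≤ 2 * (N : ℝ) ^ C := by
    intro z hz
    have h1 := hf.b (z + a) (by
      simp only [add_re, ofReal_re]
      exact (abs_add_le _ _).trans (by rw [abs_of_pos ha]; linarith [hz.1])) (by simpa using hz.2)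
    have h2 := hf.b (z - a) (by
      simp only [sub_re, ofReal_re]
      exact (abs_sub _ _).trans (by rw [abs_of_pos ha]; linarith [hz.1])) (by simpa using hz.2)
    exact (norm_sub_le _ _).trans (by linarith)
  have hth : Real.pi * Y / (4 * δ) = L / 2 := by
    rw [hY]
    field_simp
    ring
  have hDs : ∀ y ∈ Icc (-τ) τ, ‖f (α + y * I + 2 * a) - f (α + y * I)‖ ≤
      2 * Real.exp 4 * Real.exp (C * L - 7 / 20 * Real.exp (ε / 2 * L)) := by
    intro y hy
    have hy' : |y| ≤ τ := abs_le.2 hy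
    set w : ℂ := ((δ / 2 : ℝ) : ℂ) + y * I with hw
    have hwre : w.re = δ / 2 := by simp [hw]
    have hwim : w.im = y := by simp [hw]
    have hw1 : w ∈ CR δ Y := by
      constructor
      · rw [hwre, abs_of_pos (by linarith)]; linarith
      · rw [hwim]; linarith
    have h1 := schwarz hδ hY0 hDd hDb hf.o hw1
    have e1 : D w = f (α + y * I + 2 * a) - f (α + y * I) := by
      rw [hD]
      simp only
      congr 1
      · congr 1
        rw [hw, hα]
        push_cast
        ring
      · congr 1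
        rw [hw, hα]
        push_cast
        ring
    rw [e1, hth] at h1
    refine h1.trans ?_
    have h2 := Tn_le hδ (z := w) (by rw [hwre, abs_of_pos (by linarith)]) N
    have h3 := tanh_pow hN2
    rw [hwim] at h2
    have h4 : Real.exp (-(7 / 20 * N * Real.exp (-(Real.pi * |y| / (2 * δ))))) ≤
        Real.exp (-(7 / 20 * Real.exp (ε / 2 * L))) := by
      apply Real.exp_le_exp.2
      have h5 : Real.exp (ε / 2 * L) ≤ N * Real.exp (-(Real.pi * |y| / (2 * δ))) := by
        rw [← Real.exp_log hNpos, ← hL, ← Real.exp_add]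
        apply Real.exp_le_exp.2
        have h6 : Real.pi * |y| / (2 * δ) ≤ (1 - ε / 2) * L := by
          rw [div_le_iff₀ (by positivity)]
          have : Real.pi * |y| ≤ Real.pi * τ := by gcongr
          rw [hτ, hY] at this
          calc _ ≤ _ := this
            _ = _ := by field_simp
        linarith
      nlinarith
    have h5 : 2 * (N : ℝ) ^ C / Real.tanh (L / 2) ^ N = 2 * (N : ℝ) ^ C *
        (1 / Real.tanh (L / 2) ^ N) := by ring
    rw [h5]
    have h6 : 0 ≤ (N : ℝ) ^ C := by positivity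
    calc 2 * (N : ℝ) ^ C * (1 / Real.tanh (L / 2) ^ N) * ‖Tn δ w‖ ^ N
        ≤ 2 * (N : ℝ) ^ C * Real.exp 4 * Real.exp (-(7 / 20 * Real.exp (ε / 2 * L))) := by
          gcongr
          exact h2.trans h4
      _ = _ := by
        rw [hNe, sub_eq_add_neg, Real.exp_add]
        ring
  obtain ⟨c, hc⟩ := repr (a := a) (α := α) (τ := τ) ha hτ0 (f := f) (B := (N : ℝ) ^ C)
    (D := 2 * Real.exp 4 * Real.exp (C * L - 7 / 20 * Real.exp (ε / 2 * L)))
    (by
      intro ζ hζ
      apply hf.d
      · rw [abs_le]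
        constructor <;> linarith [hζ.1, hζ.2.1]
      · linarith [hζ.2.2])
    (by
      intro x hx
      constructor
      · apply hf.b
        · simp only [sub_re, ofReal_re, mul_re, I_re, mul_zero, ofReal_im, I_im, mul_one, sub_self,
            sub_zero]
          rw [abs_le]
          constructor <;> linarith [hx.1, hx.2]
        · simp only [sub_im, ofReal_im, mul_im, ofReal_re, I_im, mul_one, I_re, mul_zero, add_zero,
            zero_sub, abs_neg, abs_of_pos hτ0]
          exact hτY
      · apply hf.b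
        · simp only [add_re, ofReal_re, mul_re, I_re, mul_zero, ofReal_im, I_im, mul_one, sub_self,
            add_zero]
          rw [abs_le]
          constructor <;> linarith [hx.1, hx.2]
        · simp only [add_im, ofReal_im, mul_im, ofReal_re, I_im, mul_one, I_re, mul_zero, add_zero,
            zero_add, abs_of_pos hτ0]
          exact hτY)
    hDs K
  refine ⟨c, fun z hz him => ?_⟩
  have hzre : α < z.re ∧ z.re < α + 2 * a := by
    rcases hz with h | h
    · have h' := abs_le.1 h
      constructor <;> linarith [h'.1, h'.2]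
    · have h' := abs_le.1 h
      constructor <;> linarith [h'.1, h'.2]
  have hgap : ε / 2 * Y - 1 ≤ τ - |z.im| := by
    rw [hτ]
    have : |z.im| ≤ (1 - ε) * Y + 1 := him
    linarith
  have hYL : Real.pi * (ε / 2 * Y) / a = ε * δ / a * L := by
    rw [hY]
    field_simp
  have hgap0 : 0 < ε / 2 * Y - 1 := by
    have h1 : Real.pi * (ε / 2 * Y) = ε * δ * L := by
      rw [hY]; field_simp
    have h2 : 2 * Real.pi ≤ ε * δ * L := by
      rw [div_le_iff₀ (by positivity)] at hL5
      linarith
    rw [← h1] at h2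
    have h3 : 2 ≤ ε / 2 * Y := by
      by_contra h
      push Not at h
      nlinarith
    linarith
  have hz3 : |z.im| < τ := by linarith
  have hmain := hc z hzre.1 hzre.2 hz3 s hs0 (sin_side hδ hδa hz)
  refine hmain.trans ?_
  -- the geometric term
  set q := Real.exp (-(Real.pi * (τ - |z.im|) / a)) with hq
  have hq1 : q ≤ Real.exp (Real.pi / a - ε * δ / a * L) := by
    rw [hq]
    apply Real.exp_le_exp.2
    have h1 : Real.pi * (ε / 2 * Y - 1) / a ≤ Real.pi * (τ - |z.im|) / a := by gcongr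
    have h2 : Real.pi * (ε / 2 * Y - 1) / a = Real.pi * (ε / 2 * Y) / a - Real.pi / a := by ring
    rw [h2, hYL] at h1
    linarith
  have hq2 : q ≤ 1 / 2 := by
    refine hq1.trans ?_
    have h1 : Real.pi / a - ε * δ / a * L ≤ -1 := by
      rw [div_le_iff₀ (by positivity)] at hL3
      linarith
    calc Real.exp (Real.pi / a - ε * δ / a * L) ≤ Real.exp (-1) := Real.exp_le_exp.2 h1
      _ ≤ 1 / 2 := by
        rw [Real.exp_neg, inv_le_comm₀ (Real.exp_pos 1) (by norm_num)]
        have := Real.add_one_le_exp (1 : ℝ)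
        linarith
  have hq0 : 0 < q := Real.exp_pos _
  have hgeo : 2 * ((N : ℝ) ^ C * (q ^ (K + 1) / (1 - q))) ≤ 1 / 2 * (N : ℝ) ^ (-e) := by
    have h1 : q ^ (K + 1) ≤ Real.exp ((K + 1) * (Real.pi / a - ε * δ / a * L)) := by
      calc q ^ (K + 1) ≤ Real.exp (Real.pi / a - ε * δ / a * L) ^ (K + 1) := by gcongr
        _ = _ := by rw [← Real.exp_nat_mul]; push_cast; rfl
    have h2 : q ^ (K + 1) / (1 - q) ≤ 2 * Real.exp ((K + 1) * (Real.pi / a - ε * δ / a * L)) := by
      rw [div_le_iff₀ (by linarith)]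
      have h3 := Real.exp_pos ((K + 1) * (Real.pi / a - ε * δ / a * L))
      nlinarith
    have h3 : (N : ℝ) ^ C * (q ^ (K + 1) / (1 - q)) ≤
        2 * Real.exp (C * L + (K + 1) * (Real.pi / a - ε * δ / a * L)) := by
      rw [hNe, Real.exp_add]
      have := Real.exp_pos (C * L)
      nlinarith
    have h4 : C * L + (K + 1) * (Real.pi / a - ε * δ / a * L) ≤ -3 - e * L := by
      have h5 : (C + e + 1) * L ≤ (K + 1) * (ε * δ / a) * L := by
        have : 0 ≤ L := by linarith
        gcongr
      have h6 : Real.pi * (K + 1) / a = (K + 1) * (Real.pi / a) := by ring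
      rw [h6] at hL4
      nlinarith
    have h5 : Real.exp (C * L + (K + 1) * (Real.pi / a - ε * δ / a * L)) ≤
        1 / 8 * Real.exp (-(e * L)) := by
      calc _ ≤ Real.exp (-3 - e * L) := Real.exp_le_exp.2 h4
        _ = Real.exp (-3) * Real.exp (-(e * L)) := by rw [← Real.exp_add]; ring_nf
        _ ≤ _ := by
          have h7 : Real.exp (-3) ≤ 1 / 8 := by
            have h8 : Real.exp (-3) = Real.exp (-1) ^ 3 := by
              rw [← Real.exp_nat_mul]; norm_num
            have h9 : Real.exp (-1) ≤ 1 / 2 := by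
              rw [Real.exp_neg, inv_le_comm₀ (Real.exp_pos 1) (by norm_num)]
              have := Real.add_one_le_exp (1 : ℝ)
              linarith
            rw [h8]
            calc Real.exp (-1) ^ 3 ≤ (1 / 2) ^ 3 := by
                  have := Real.exp_pos (-1)
                  gcongr
              _ = _ := by norm_num
          have := Real.exp_pos (-(e * L))
          gcongr
    rw [hNe (-e), show -e * L = -(e * L) by ring]
    linarith
  -- the vertical term
  have hver : τ * (2 * Real.exp 4 * Real.exp (C * L - 7 / 20 * Real.exp (ε / 2 * L))) / (a * s) ≤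
      1 / 2 * (N : ℝ) ^ (-e) := by
    have h1 : (C + e + 1) * L + b ≤ 7 / 20 * Real.exp (ε / 2 * L) := by
      have h2 : (ε / 2 * L) ^ 2 / 2 ≤ Real.exp (ε / 2 * L) := by
        have := Real.quadratic_le_exp_of_nonneg (show 0 ≤ ε / 2 * L by positivity)
        have h3 : 0 ≤ ε / 2 * L := by positivity
        linarith
      have h3 : (C + e + 1) + b ≤ 7 / 160 * ε ^ 2 * L := by
        rw [div_le_iff₀ (by positivity)] at hL2
        linarith
      have h4 : (C + e + 1) * L + b ≤ ((C + e + 1) + b) * L := by nlinarith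
      have h5 : ((C + e + 1) + b) * L ≤ 7 / 160 * ε ^ 2 * L * L := by
        have : 0 ≤ L := by linarith
        gcongr
      nlinarith
    have h2 : Real.exp (C * L - 7 / 20 * Real.exp (ε / 2 * L)) ≤
        Real.exp (-(e * L)) * Real.exp (-L) * Real.exp (-b) := by
      rw [← Real.exp_add, ← Real.exp_add]
      apply Real.exp_le_exp.2
      linarith
    have h3 : L * Real.exp (-L) ≤ 1 := by
      have h4 := Real.add_one_le_exp L
      have h5 : Real.exp L * Real.exp (-L) = 1 := by rw [← Real.exp_add]; simp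
      have h6 := Real.exp_pos (-L)
      nlinarith
    have h4 : Real.exp (-b) * (8 * Real.exp 4 * δ / (Real.pi * a * s)) ≤ 1 := by
      have h5 : 0 < 8 * Real.exp 4 * δ / (Real.pi * a * s) := by positivity
      rw [hb, Real.exp_neg, Real.exp_log (by linarith), inv_mul_le_iff₀ (by linarith)]
      linarith
    have h5 : τ ≤ 2 * δ / Real.pi * L := hτY
    have h6 := Real.exp_pos (-(e * L))
    have h7 := Real.exp_pos (-L)
    have h8 := Real.exp_pos (-b)
    have hL0 : 0 ≤ L := by linarith
    calc τ * (2 * Real.exp 4 * Real.exp (C * L - 7 / 20 * Real.exp (ε / 2 * L))) / (a * s)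
        ≤ (2 * δ / Real.pi * L) * (2 * Real.exp 4 *
          (Real.exp (-(e * L)) * Real.exp (-L) * Real.exp (-b))) / (a * s) := by gcongr
      _ = 1 / 2 * Real.exp (-(e * L)) * (L * Real.exp (-L)) *
          (Real.exp (-b) * (8 * Real.exp 4 * δ / (Real.pi * a * s))) := by
        field_simp
        ring
      _ ≤ 1 / 2 * Real.exp (-(e * L)) * 1 * 1 := by gcongr
      _ = _ := by rw [hNe (-e)]; ring_nf
  linarith

end PBV
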