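import Pool.Agent.PB.VandC
import Pool.Agent.PB.VandX
import Pool.Agent.PB.VandE
import Pool.Agent.PB.Rec

/-!
# Plan B: the K-terms from a small difference (helper12)

`SD a σ τ B d f`: `f` is differentiable on `|Re z| ≤ a + σ`, `|Im z| ≤ τ`, `|f| ≤ B` on `|Im z| = τ`, and
`|f (z + a) - f (z - a)| ≤ d` on `|Re z| ≤ σ`, `|Im z| ≤ τ`.  (`a = L = 3π/8`, `w = π/a = 8/3`.)

* **`kt_core`**: on `|Re z| ≤ a + ρ`, `|Im z| < τ` (`0 ≤ ρ < σ < a`), with the Fourier coefficients
  `c k = cf a (-a) τ f k` and `q = e^{-π(τ-|Im z|)/a}`: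
  `|f z - EL (π/a) K c z| ≤ 2 B q^{K+1}/(1-q) + d (τ/(a s) + σ/(a(1-q)))`, `s = sin (π min(σ-ρ, a-σ)/(2a))`;
* **`kt`**: the same with `τ = x₁ log N`, `B = N^C`, `d = N^{-E}`, `e < E`: error `≤ N^{-e}` on
  `|Re z| ≤ a + ρ`, `|Im z| ≤ (1-ε) x₁ log N + 1`, every `K ≥ K₀(C, e, ε)`;
* `kt1`: `|Im z| ≤ 1`, the rectangle `ReR` of `Rec`;
* `cf_le`: `|c k| ≤ B e^{-π|k|τ/a}`;  `cf_le1`: `|c k| ≤ V (S + r)` from the values on `i[0,1]`.
-/

set_option autoImplicit false

noncomputable section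

open Complex MeasureTheory Set Filter Topology intervalIntegral Finset
open Pool.Agent.PB.Rec (EL EL_coef ReR)

namespace PBV

variable {a σ τ B d ρ : ℝ} {f : ℂ → ℂ}

theorem ex_per (ha : a ≠ 0) (k : ℤ) (z : ℂ) : ex a k (z + 2 * a) = ex a k z := by
  rw [ex_add]
  have : ex a k (2 * a) = 1 := by
    unfold ex
    rw [Complex.exp_eq_one_iff]
    refine ⟨k, ?_⟩
    have : (a : ℂ) ≠ 0 := by exact_mod_cast ha
    field_simp
  rw [this, mul_one]

/-- my sums are `EL` -/
theorem sum_EL (ha : a ≠ 0) (K : ℕ) (c : ℤ → ℂ) (z : ℂ) :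
    ∑ j ∈ range (2 * K + 1), c ((j : ℤ) - K) * ex a ((j : ℤ) - K) z = EL (Real.pi / a) K c z := by
  unfold EL
  symm
  refine Finset.sum_bij' (fun k _ => (k + K).toNat) (fun i _ => (i : ℤ) - K) ?_ ?_ ?_ ?_ ?_
  · intro k hk
    rw [Finset.mem_Icc] at hk
    rw [Finset.mem_range]
    omega
  · intro i hi
    rw [Finset.mem_range] at hi
    rw [Finset.mem_Icc]
    omega
  · intro k hk
    rw [Finset.mem_Icc] at hk
    have : ((k + K).toNat : ℤ) = k + K := Int.toNat_of_nonneg (by omega)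
    rw [this]
    ring
  · intro i _
    simp
  · intro k hk
    rw [Finset.mem_Icc] at hk
    have : ((k + K).toNat : ℤ) = k + K := Int.toNat_of_nonneg (by omega)
    rw [this]
    have e : k + K - K = k := by ring
    rw [e]
    unfold ex
    congr 2
    have : (a : ℂ) ≠ 0 := by exact_mod_cast ha
    push_cast
    field_simp

/-- the hypotheses -/
structure SD (a σ τ B d : ℝ) (f : ℂ → ℂ) : Prop where
  df : ∀ z : ℂ, |z.re| ≤ a + σ → |z.im| ≤ τ → DifferentiableAt ℂ f z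
  b : ∀ z : ℂ, |z.re| ≤ a + σ → |z.im| = τ → ‖f z‖ ≤ B
  s : ∀ z : ℂ, |z.re| ≤ σ → |z.im| ≤ τ → ‖f (z + a) - f (z - a)‖ ≤ d

theorem SD.cont (hf : SD a σ τ B d f) {b : ℂ} (hb : |b.im| ≤ τ) (hb0 : b.re = 0) :
    ContinuousOn (fun x : ℝ => f (x + b)) (Icc (-(a + σ)) (a + σ)) := by
  intro x hx
  have h : DifferentiableAt ℂ f (x + b) := by
    apply hf.df
    · simpa [hb0] using abs_le.2 hx
    · simpa using hb
  have h' : ContinuousAt (fun x : ℝ => f (x + b)) x :=
    ContinuousAt.comp (g := f) (f := fun x : ℝ => (x + b : ℂ)) h.continuousAt (by fun_prop)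
  exact h'.continuousWithinAt

theorem ex_norm' (k : ℤ) (b : ℂ) (x : ℝ) : ‖ex a k (x + b)‖ = Real.exp (-(Real.pi * k * b.im / a)) := by
  rw [ex_norm]
  simp

/-- one side of `cf_shift` -/
theorem cf_shift1 (ha : 0 < a) (hσ0 : 0 ≤ σ) (hf : SD a σ τ B d f) {b : ℂ}
    (hb : |b.im| ≤ τ) (hb0 : b.re = 0) (k : ℤ) {s : ℝ} (hs : |s| ≤ σ) :
    ‖(∫ x in (-a + s)..(-a + s + 2 * a), f (x + b) * ex a k (x + b)) -
      ∫ x in (-a)..(-a + 2 * a), f (x + b) * ex a k (x + b)‖ ≤
      d * Real.exp (-(Real.pi * k * b.im / a)) * σ := by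
  obtain ⟨hs1, hs2⟩ := abs_le.1 hs
  set g : ℝ → ℂ := fun x => f (x + b) * ex a k (x + b) with hg
  have hgc : ContinuousOn g (Icc (-(a + σ)) (a + σ)) := by
    apply (hf.cont hb hb0).mul
    exact ((ex_diff a k).continuous.comp (by fun_prop)).continuousOn
  have hii : ∀ u v : ℝ, |u| ≤ a + σ → |v| ≤ a + σ → IntervalIntegrable g volume u v := by
    intro u v hu hv
    apply ContinuousOn.intervalIntegrable
    apply hgc.mono
    apply Set.uIcc_subset_Icc
    · exact abs_le.1 hu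
    · exact abs_le.1 hv
  have h1 : |-a| ≤ a + σ := by rw [abs_neg, abs_of_pos ha]; linarith
  have h2 : |-a + s| ≤ a + σ := by rw [abs_le]; constructor <;> linarith
  have h3 : |-a + s + 2 * a| ≤ a + σ := by rw [abs_le]; constructor <;> linarith
  have h4 : |-a + 2 * a| ≤ a + σ := by rw [abs_le]; constructor <;> linarith
  have e1 : (∫ x in (-a + s)..(-a + s + 2 * a), g x) - (∫ x in (-a)..(-a + 2 * a), g x) =
      (∫ x in (-a + 2 * a)..(-a + s + 2 * a), g x) - ∫ x in (-a)..(-a + s), g x := by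
    have i1 := integral_add_adjacent_intervals (hii _ _ h1 h2) (hii _ _ h2 h3)
    have i2 := integral_add_adjacent_intervals (hii _ _ h1 h4) (hii _ _ h4 h3)
    linear_combination i1 - i2
  have e2 : (∫ x in (-a + 2 * a)..(-a + s + 2 * a), g x) = ∫ x in (-a)..(-a + s), g (x + 2 * a) := by
    rw [intervalIntegral.integral_comp_add_right]
  have hper : IntervalIntegrable (fun x => g (x + 2 * a)) volume (-a) (-a + s) := by
    have := hii _ _ h4 h3
    have h5 := this.comp_add_right (2 * a)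
    simpa using h5
  rw [e1, e2, ← intervalIntegral.integral_sub hper (hii _ _ h1 h2)]
  have h5 : ∀ x ∈ Set.uIoc (-a) (-a + s), ‖g (x + 2 * a) - g x‖ ≤
      d * Real.exp (-(Real.pi * k * b.im / a)) := by
    intro x hx
    have hx' : |x + a| ≤ σ := by
      rw [Set.mem_uIoc] at hx
      rw [abs_le]
      rcases hx with h | h <;> constructor <;> linarith [h.1, h.2]
    have e3 : g (x + 2 * a) - g x = (f ((x + b + a) + a) - f ((x + b + a) - a)) * ex a k (x + b) := by
      rw [hg]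
      simp only
      have e4 : (((x + 2 * a : ℝ) : ℂ) + b) = (x + b) + 2 * a := by push_cast; ring
      rw [e4, ex_per ha.ne', show ((x : ℂ) + b) + 2 * a = (x + b + a) + a by ring,
        show (x : ℂ) + b + a - a = x + b by ring]
      ring
    rw [e3, norm_mul, ex_norm']
    apply mul_le_mul_of_nonneg_right _ (Real.exp_nonneg _)
    apply hf.s
    · simpa [hb0] using hx'
    · simpa using hb
  have h6 := intervalIntegral.norm_integral_le_of_norm_le_const h5
  refine h6.trans ?_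
  have hd0 : 0 ≤ d := (norm_nonneg _).trans (hf.s (b) (by rw [hb0, abs_zero]; exact hσ0) hb)
  rw [show -a + s - -a = s by ring]
  gcongr

/-- **the coefficients do not depend on the vertical line** -/
theorem cf_shift (ha : 0 < a) (hσ0 : 0 ≤ σ) (hτ : 0 ≤ τ) (hf : SD a σ τ B d f) (k : ℤ)
    {s : ℝ} (hs : |s| ≤ σ) :
    ‖cf a (-a + s) τ f k - cf a (-a) τ f k‖ ≤ d * Real.exp (-(Real.pi * |(k : ℝ)| * τ / a)) * σ / (2 * a) := by
  have hpi := Real.pi_pos
  have key : ∀ b : ℂ, |b.im| ≤ τ → b.re = 0 → Real.pi * (-k) * b.im / a = Real.pi * |(k : ℝ)| * τ / a →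
      ‖(2 * Real.pi * I)⁻¹ * ((I * Real.pi / a) * ∫ x in (-a + s)..(-a + s + 2 * a), f (x + b) *
        ex a (-k) (x + b)) - (2 * Real.pi * I)⁻¹ * ((I * Real.pi / a) * ∫ x in (-a)..(-a + 2 * a),
        f (x + b) * ex a (-k) (x + b))‖ ≤
      d * Real.exp (-(Real.pi * |(k : ℝ)| * τ / a)) * σ / (2 * a) := by
    intro b hb hb0 hbk
    have h1 := cf_shift1 ha hσ0 hf hb hb0 (-k) hs
    rw [← mul_sub, ← mul_sub, norm_mul, norm_mul]
    have e1 : ‖(2 * Real.pi * I : ℂ)⁻¹‖ = (2 * Real.pi)⁻¹ := by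
      rw [norm_inv, norm_mul, norm_mul, norm_I, mul_one, norm_real, Real.norm_of_nonneg hpi.le]
      simp
    have e2 : ‖(I * Real.pi / a : ℂ)‖ = Real.pi / a := by
      rw [norm_div, norm_mul, norm_I, one_mul, norm_real, norm_real, Real.norm_of_nonneg hpi.le,
        Real.norm_of_nonneg ha.le]
    rw [e1, e2]
    have e3 : -(Real.pi * ((-k : ℤ) : ℝ) * b.im / a) = -(Real.pi * |(k : ℝ)| * τ / a) := by
      rw [← hbk]
      push_cast
      ring
    rw [e3] at h1
    calc (2 * Real.pi)⁻¹ * (Real.pi / a * _) ≤ (2 * Real.pi)⁻¹ * (Real.pi / a *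
        (d * Real.exp (-(Real.pi * |(k : ℝ)| * τ / a)) * σ)) := by gcongr
      _ = _ := by field_simp
  unfold cf
  by_cases hk : 0 ≤ k
  · have hk' : (0 : ℝ) ≤ k := by exact_mod_cast hk
    simp only [if_pos hk]
    have := key (-(τ * I)) (by simp [abs_of_nonneg hτ]) (by simp) (by simp [abs_of_nonneg hk'])
    simpa only [sub_eq_add_neg] using this
  · have hk' : (k : ℝ) ≤ 0 := by
      push Not at hk
      exact_mod_cast hk.le
    simp only [if_neg hk]
    exact key (τ * I) (by simp [abs_of_nonneg hτ]) (by simp) (by simp [abs_of_nonpos hk'])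

/-- bound of the coefficients -/
theorem cf_le (ha : 0 < a) (hσ0 : 0 ≤ σ) (hτ : 0 ≤ τ) (hf : SD a σ τ B d f) (k : ℤ) :
    ‖cf a (-a) τ f k‖ ≤ B * Real.exp (-(Real.pi * |(k : ℝ)| * τ / a)) := by
  have hpi := Real.pi_pos
  have key : ∀ b : ℂ, |b.im| = τ → b.re = 0 → Real.pi * (-k) * b.im / a = Real.pi * |(k : ℝ)| * τ / a →
      ‖(2 * Real.pi * I)⁻¹ * ((I * Real.pi / a) * ∫ x in (-a)..(-a + 2 * a),
        f (x + b) * ex a (-k) (x + b))‖ ≤ B * Real.exp (-(Real.pi * |(k : ℝ)| * τ / a)) := by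
    intro b hb hb0 hbk
    rw [norm_mul, norm_mul]
    have e1 : ‖(2 * Real.pi * I : ℂ)⁻¹‖ = (2 * Real.pi)⁻¹ := by
      rw [norm_inv, norm_mul, norm_mul, norm_I, mul_one, norm_real, Real.norm_of_nonneg hpi.le]
      simp
    have e2 : ‖(I * Real.pi / a : ℂ)‖ = Real.pi / a := by
      rw [norm_div, norm_mul, norm_I, one_mul, norm_real, norm_real, Real.norm_of_nonneg hpi.le,
        Real.norm_of_nonneg ha.le]
    rw [e1, e2]
    have e3 : -(Real.pi * ((-k : ℤ) : ℝ) * b.im / a) = -(Real.pi * |(k : ℝ)| * τ / a) := by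
      rw [← hbk]
      push_cast
      ring
    have h1 : ‖∫ x in (-a)..(-a + 2 * a), f (x + b) * ex a (-k) (x + b)‖ ≤
        B * Real.exp (-(Real.pi * |(k : ℝ)| * τ / a)) * |-a + 2 * a - -a| := by
      apply intervalIntegral.norm_integral_le_of_norm_le_const
      intro x hx
      rw [uIoc_of_le (by linarith)] at hx
      rw [norm_mul, ex_norm', e3]
      apply mul_le_mul_of_nonneg_right _ (Real.exp_nonneg _)
      apply hf.b
      · simp only [add_re, ofReal_re, hb0, add_zero]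
        rw [abs_le]
        constructor <;> linarith [hx.1, hx.2]
      · simpa using hb
    rw [show -a + 2 * a - -a = 2 * a by ring, abs_of_pos (show (0 : ℝ) < 2 * a by linarith)] at h1
    calc (2 * Real.pi)⁻¹ * (Real.pi / a * _) ≤ (2 * Real.pi)⁻¹ * (Real.pi / a *
        (B * Real.exp (-(Real.pi * |(k : ℝ)| * τ / a)) * (2 * a))) := by gcongr
      _ = _ := by field_simp
  unfold cf
  by_cases hk : 0 ≤ k
  · have hk' : (0 : ℝ) ≤ k := by exact_mod_cast hk
    simp only [if_pos hk]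
    have := key (-(τ * I)) (by simp [abs_of_nonneg hτ]) (by simp) (by simp [abs_of_nonneg hk'])
    simpa only [sub_eq_add_neg] using this
  · have hk' : (k : ℝ) ≤ 0 := by
      push Not at hk
      exact_mod_cast hk.le
    simp only [if_neg hk]
    exact key (τ * I) (by simp [abs_of_nonneg hτ]) (by simp) (by simp [abs_of_nonpos hk'])

theorem geom_le {q : ℝ} (h0 : 0 ≤ q) (h1 : q < 1) (n : ℕ) : ∑ k ∈ range n, q ^ k ≤ 1 / (1 - q) := by
  rw [le_div_iff₀ (by linarith), geom_sum_mul_neg]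
  have := pow_nonneg h0 n
  linarith

theorem geom2 {q : ℝ} (h0 : 0 ≤ q) (h1 : q < 1) (K : ℕ) :
    ∑ j ∈ range (2 * K + 1), q ^ ((j : ℤ) - K).natAbs ≤ 2 / (1 - q) := by
  rw [show 2 * K + 1 = K + (K + 1) by ring, Finset.sum_range_add]
  have e1 : ∑ x ∈ range (K + 1), q ^ (((K + x : ℕ) : ℤ) - K).natAbs = ∑ x ∈ range (K + 1), q ^ x := by
    apply Finset.sum_congr rfl
    intro x _
    congr 1
    omega
  have e2 : ∑ x ∈ range K, q ^ ((x : ℤ) - K).natAbs ≤ ∑ x ∈ range K, q ^ x := by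
    rw [← Finset.sum_range_reflect (fun x => q ^ x)]
    apply Finset.sum_le_sum
    intro x hx
    rw [Finset.mem_range] at hx
    have : ((x : ℤ) - K).natAbs = K - 1 - x + 1 := by omega
    rw [this]
    exact pow_le_pow_of_le_one h0 h1.le (by omega)
  rw [e1]
  have h2 := geom_le h0 h1 K
  have h3 := geom_le h0 h1 (K + 1)
  have e3 : 2 / (1 - q) = 1 / (1 - q) + 1 / (1 - q) := by ring
  rw [e3]
  linarith

/-- **the K-terms, explicit** -/
theorem kt_core (ha : 0 < a) (hτ : 0 < τ) (hρ : 0 ≤ ρ) (hρσ : ρ < σ) (hσ : σ < a)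
    (hf : SD a σ τ B d f) (K : ℕ) {z : ℂ} (hz : |z.re| ≤ a + ρ) (hi : |z.im| < τ) :
    ‖f z - EL (Real.pi / a) K (cf a (-a) τ f) z‖ ≤
      2 * (B * (Real.exp (-(Real.pi * (τ - |z.im|) / a)) ^ (K + 1) /
        (1 - Real.exp (-(Real.pi * (τ - |z.im|) / a))))) +
      (τ * d / (a * Real.sin (Real.pi * min (σ - ρ) (a - σ) / (2 * a))) +
        d * σ / (2 * a) * (2 / (1 - Real.exp (-(Real.pi * (τ - |z.im|) / a))))) := by
  have hpi := Real.pi_pos
  have hσ0 : 0 < σ := by linarith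
  obtain ⟨hz1, hz2⟩ := abs_le.1 hz
  set m := min (σ - ρ) (a - σ) with hm
  have hm0 : 0 < m := lt_min (by linarith) (by linarith)
  have hm1 : m ≤ σ - ρ := min_le_left _ _
  have hm2 : m ≤ a - σ := min_le_right _ _
  set s := Real.sin (Real.pi * m / (2 * a)) with hs
  have hs0 : 0 < s := by
    apply Real.sin_pos_of_pos_of_lt_pi (by positivity)
    rw [div_lt_iff₀ (by positivity)]
    nlinarith
  -- the vertical line
  obtain ⟨u, hu, hu1, hu2⟩ : ∃ u : ℝ, |u| ≤ σ ∧ -a + u + m ≤ z.re ∧ z.re ≤ -a + u + 2 * a - m := by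
    rcases le_total 0 z.re with h | h
    · exact ⟨σ, by rw [abs_of_pos hσ0], by linarith, by linarith⟩
    · exact ⟨-σ, by rw [abs_neg, abs_of_pos hσ0], by linarith, by linarith⟩
  obtain ⟨hu3, hu4⟩ := abs_le.1 hu
  have hrep := repr_cf (a := a) (α := -a + u) (τ := τ) ha hτ (f := f) (B := B) (D := d)
    (by
      intro ζ hζ
      apply hf.df
      · rw [abs_le]
        constructor <;> linarith [hζ.1, hζ.2.1]
      · exact hζ.2.2)
    (by
      intro x hx
      constructor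
      · apply hf.b
        · simp only [sub_re, ofReal_re, mul_re, I_re, mul_zero, ofReal_im, I_im, mul_one, sub_self,
            sub_zero]
          rw [abs_le]
          constructor <;> linarith [hx.1, hx.2]
        · simp [abs_of_pos hτ]
      · apply hf.b
        · simp only [add_re, ofReal_re, mul_re, I_re, mul_zero, ofReal_im, I_im, mul_one, sub_self,
            add_zero]
          rw [abs_le]
          constructor <;> linarith [hx.1, hx.2]
        · simp [abs_of_pos hτ])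
    (by
      intro y hy
      have h1 := hf.s (u + y * I) (by simpa using hu) (by simpa using abs_le.2 hy)
      have e1 : (((-a + u : ℝ) : ℂ) + y * I + 2 * a) = (u + y * I) + a := by push_cast; ring
      have e2 : (((-a + u : ℝ) : ℂ) + y * I) = (u + y * I) - a := by push_cast; ring
      rw [e1, e2]
      exact h1) K z (by linarith) (by linarith) hi s hs0
    (by
      intro y
      apply ker_upper2 ha _ hs0
      have e1 : ((((-a + u : ℝ) : ℂ) + y * I) - z).re = -(z.re - (-a + u)) := by simp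
      rw [e1, mul_neg, neg_div, Real.sin_neg, abs_neg]
      refine le_trans (sin_geV (by positivity) ?_ ?_) (le_abs_self _)
      · gcongr
        linarith
      · rw [div_le_iff₀ (by positivity), sub_mul, div_mul_cancel₀ _ (by positivity)]
        nlinarith)
  rw [sum_EL ha.ne'] at hrep
  set q := Real.exp (-(Real.pi * (τ - |z.im|) / a)) with hq
  have hq1 : q < 1 := by
    apply rexp_lt_one
    have : 0 < Real.pi * (τ - |z.im|) / a := by
      have : 0 < τ - |z.im| := by linarith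
      positivity
    linarith
  have hq0 : 0 ≤ q := (Real.exp_pos _).le
  have hd0 : 0 ≤ d := (norm_nonneg _).trans (hf.s 0 (by simpa using hσ0.le) (by simpa using hτ.le))
  have hdiff : ‖EL (Real.pi / a) K (cf a (-a + u) τ f) z - EL (Real.pi / a) K (cf a (-a) τ f) z‖ ≤
      d * σ / (2 * a) * (2 / (1 - q)) := by
    rw [← sum_EL ha.ne', ← sum_EL ha.ne', ← Finset.sum_sub_distrib]
    refine (norm_sum_le _ _).trans ?_
    have h1 : ∀ j ∈ range (2 * K + 1), ‖cf a (-a + u) τ f ((j : ℤ) - K) * ex a ((j : ℤ) - K) z -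
        cf a (-a) τ f ((j : ℤ) - K) * ex a ((j : ℤ) - K) z‖ ≤
        d * σ / (2 * a) * q ^ ((j : ℤ) - K).natAbs := by
      intro j _
      generalize ((j : ℤ) - K) = k
      rw [← sub_mul, norm_mul, ex_norm]
      have h2 := cf_shift ha hσ0.le hτ.le hf k hu
      have h3 : Real.exp (-(Real.pi * |(k : ℝ)| * τ / a)) * Real.exp (-(Real.pi * k * z.im / a)) ≤
          q ^ k.natAbs := by
        rw [hq, ← Real.exp_add, ← Real.exp_nat_mul]
        apply Real.exp_le_exp.2
        have e1 : ((k.natAbs : ℕ) : ℝ) = |(k : ℝ)| := by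
          rw [Nat.cast_natAbs]
          push_cast
          rfl
        rw [e1]
        have h4 : -(k * z.im) ≤ |(k : ℝ)| * |z.im| := by
          rw [← abs_mul]
          exact neg_le_abs _
        have e2 : -(Real.pi * |(k : ℝ)| * τ / a) + -(Real.pi * k * z.im / a) =
            Real.pi / a * (-(|(k : ℝ)| * τ) + -(k * z.im)) := by ring
        have e3 : |(k : ℝ)| * -(Real.pi * (τ - |z.im|) / a) =
            Real.pi / a * (-(|(k : ℝ)| * τ) + |(k : ℝ)| * |z.im|) := by ring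
        rw [e2, e3]
        gcongr
      calc _ ≤ (d * Real.exp (-(Real.pi * |(k : ℝ)| * τ / a)) * σ / (2 * a)) *
            Real.exp (-(Real.pi * k * z.im / a)) := by gcongr
        _ = d * σ / (2 * a) * (Real.exp (-(Real.pi * |(k : ℝ)| * τ / a)) *
            Real.exp (-(Real.pi * k * z.im / a))) := by ring
        _ ≤ _ := by gcongr
    refine (Finset.sum_le_sum h1).trans ?_
    rw [← Finset.mul_sum]
    have := geom2 hq0 hq1 K
    gcongr
  have e1 : f z - EL (Real.pi / a) K (cf a (-a) τ f) z =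
      (f z - EL (Real.pi / a) K (cf a (-a + u) τ f) z) +
      (EL (Real.pi / a) K (cf a (-a + u) τ f) z - EL (Real.pi / a) K (cf a (-a) τ f) z) := by ring
  rw [e1]
  refine (norm_add_le _ _).trans ?_
  rw [← add_assoc]
  exact add_le_add hrep hdiff

/-- **the K-terms, `N` form** -/
theorem kt {x₁ ε : ℝ} (C e E : ℝ) (ha : 0 < a) (hρ : 0 ≤ ρ) (hρσ : ρ < σ) (hσ : σ < a) (hx : 0 < x₁)
    (hε : 0 < ε) (hE : e < E) : ∃ K0 : ℕ, ∀ K ≥ K0, ∃ N0 : ℕ, ∀ N ≥ N0, ∀ f : ℂ → ℂ,
      SD a σ (x₁ * Real.log N) ((N : ℝ) ^ C) ((N : ℝ) ^ (-E)) f →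
      ∀ z : ℂ, |z.re| ≤ a + ρ → |z.im| ≤ (1 - ε) * (x₁ * Real.log N) + 1 →
        ‖f z - EL (Real.pi / a) K (cf a (-a) (x₁ * Real.log N) f) z‖ ≤ (N : ℝ) ^ (-e) := by
  have hpi := Real.pi_pos
  have hσ0 : 0 < σ := by linarith
  set κ : ℝ := ε * x₁ * Real.pi / a with hκ
  have hκ0 : 0 < κ := by positivity
  obtain ⟨K0, hK0⟩ := exists_nat_ge ((C + e + 1) / κ)
  refine ⟨K0, fun K hK => ?_⟩
  have hK' : C + e + 1 ≤ (K + 1) * κ := by
    rw [div_le_iff₀ hκ0] at hK0
    have h1 : (K0 : ℝ) ≤ K := by exact_mod_cast hK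
    nlinarith
  set s := Real.sin (Real.pi * min (σ - ρ) (a - σ) / (2 * a)) with hs
  have hs0 : 0 < s := by
    have h1 : 0 < min (σ - ρ) (a - σ) := lt_min (by linarith) (by linarith)
    have h2 : min (σ - ρ) (a - σ) ≤ a - σ := min_le_right _ _
    apply Real.sin_pos_of_pos_of_lt_pi (by positivity)
    rw [div_lt_iff₀ (by positivity)]
    nlinarith
  set c1 : ℝ := x₁ / (a * s) + 2 * σ / a with hc1
  have hc10 : 0 < c1 := by positivity
  have hlog : Tendsto (fun N : ℕ => Real.log N) atTop atTop :=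
    Real.tendsto_log_atTop.comp tendsto_natCast_atTop_atTop
  obtain ⟨N0, hN0⟩ := Filter.eventually_atTop.1 ((hlog.eventually_ge_atTop 1).and
    ((hlog.eventually_ge_atTop ((Real.pi / a + 1) / κ)).and
    ((hlog.eventually_ge_atTop (Real.pi * (K + 1) / a + 3)).and
    ((hlog.eventually_ge_atTop (2 / (ε * x₁))).and
    ((hlog.eventually_ge_atTop (4 * (2 * c1) / (E - e) ^ 2)).and (eventually_ge_atTop 2))))))
  refine ⟨N0, fun N hN f hf z hz hi => ?_⟩
  obtain ⟨hL1, hL2, hL3, hL4, hL5, hN2⟩ := hN0 N hN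
  set L := Real.log N with hL
  have hL0 : 0 < L := by linarith
  have hNpos : (0 : ℝ) < N := by
    have : 0 < N := by omega
    exact_mod_cast this
  have hNe : ∀ x : ℝ, (N : ℝ) ^ x = Real.exp (x * L) := by
    intro x
    rw [Real.rpow_def_of_pos hNpos, mul_comm]
  set τ := x₁ * L with hτ
  have hτ0 : 0 < τ := by positivity
  have hgap : ε * τ - 1 ≤ τ - |z.im| := by linarith
  have hgap0 : 0 < ε * τ - 1 := by
    rw [div_le_iff₀ (by positivity)] at hL4
    have : ε * τ = L * (ε * x₁) := by rw [hτ]; ring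
    linarith
  have hi' : |z.im| < τ := by linarith
  have hcore := kt_core ha hτ0 hρ hρσ hσ hf K hz hi'
  refine hcore.trans ?_
  rw [← hs]
  set q := Real.exp (-(Real.pi * (τ - |z.im|) / a)) with hq
  have hκL : Real.pi * (ε * τ) / a = κ * L := by
    rw [hκ, hτ]
    ring
  have hq1 : q ≤ Real.exp (Real.pi / a - κ * L) := by
    rw [hq]
    apply Real.exp_le_exp.2
    have h1 : Real.pi * (ε * τ - 1) / a ≤ Real.pi * (τ - |z.im|) / a := by gcongr
    have h2 : Real.pi * (ε * τ - 1) / a = Real.pi * (ε * τ) / a - Real.pi / a := by ring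
    rw [h2, hκL] at h1
    linarith
  have hexp1 : Real.exp (-1) ≤ 1 / 2 := by
    rw [Real.exp_neg, inv_le_comm₀ (Real.exp_pos 1) (by norm_num)]
    have := Real.add_one_le_exp (1 : ℝ)
    linarith
  have hq2 : q ≤ 1 / 2 := by
    refine hq1.trans ?_
    have h1 : Real.pi / a - κ * L ≤ -1 := by
      rw [div_le_iff₀ hκ0] at hL2
      linarith
    exact (Real.exp_le_exp.2 h1).trans hexp1
  have hq0 : 0 < q := Real.exp_pos _
  -- the geometric term
  have hgeo : 2 * ((N : ℝ) ^ C * (q ^ (K + 1) / (1 - q))) ≤ 1 / 2 * (N : ℝ) ^ (-e) := by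
    have h1 : q ^ (K + 1) ≤ Real.exp ((K + 1) * (Real.pi / a - κ * L)) := by
      calc q ^ (K + 1) ≤ Real.exp (Real.pi / a - κ * L) ^ (K + 1) := by gcongr
        _ = _ := by rw [← Real.exp_nat_mul]; push_cast; rfl
    have h2 : q ^ (K + 1) / (1 - q) ≤ 2 * Real.exp ((K + 1) * (Real.pi / a - κ * L)) := by
      rw [div_le_iff₀ (by linarith)]
      have h3 := Real.exp_pos ((K + 1) * (Real.pi / a - κ * L))
      nlinarith
    have h3 : (N : ℝ) ^ C * (q ^ (K + 1) / (1 - q)) ≤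
        2 * Real.exp (C * L + (K + 1) * (Real.pi / a - κ * L)) := by
      rw [hNe, Real.exp_add]
      have := Real.exp_pos (C * L)
      nlinarith
    have h4 : C * L + (K + 1) * (Real.pi / a - κ * L) ≤ -3 - e * L := by
      have h5 : (C + e + 1) * L ≤ (K + 1) * κ * L := by gcongr
      have h6 : Real.pi * (K + 1) / a = (K + 1) * (Real.pi / a) := by ring
      rw [h6] at hL3
      nlinarith
    have h5 : Real.exp (C * L + (K + 1) * (Real.pi / a - κ * L)) ≤
        1 / 8 * Real.exp (-(e * L)) := by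
      calc _ ≤ Real.exp (-3 - e * L) := Real.exp_le_exp.2 h4
        _ = Real.exp (-3) * Real.exp (-(e * L)) := by rw [← Real.exp_add]; ring_nf
        _ ≤ _ := by
          have h7 : Real.exp (-3) ≤ 1 / 8 := by
            have h8 : Real.exp (-3) = Real.exp (-1) ^ 3 := by
              rw [← Real.exp_nat_mul]; norm_num
            rw [h8]
            calc Real.exp (-1) ^ 3 ≤ (1 / 2) ^ 3 := by
                  have := Real.exp_pos (-1)
                  gcongr
              _ = _ := by norm_num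
          have := Real.exp_pos (-(e * L))
          gcongr
    rw [hNe (-e), show -e * L = -(e * L) by ring]
    linarith
  -- the vertical terms
  have hver : τ * (N : ℝ) ^ (-E) / (a * s) + (N : ℝ) ^ (-E) * σ / (2 * a) * (2 / (1 - q)) ≤
      1 / 2 * (N : ℝ) ^ (-e) := by
    have h0 : 0 < (N : ℝ) ^ (-E) := by positivity
    have h1 : 2 / (1 - q) ≤ 4 := by
      rw [div_le_iff₀ (by linarith)]
      linarith
    have h2 : (N : ℝ) ^ (-E) * σ / (2 * a) * (2 / (1 - q)) ≤ (N : ℝ) ^ (-E) * (2 * σ / a * L) := by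
      calc (N : ℝ) ^ (-E) * σ / (2 * a) * (2 / (1 - q)) ≤ (N : ℝ) ^ (-E) * σ / (2 * a) * 4 := by
            gcongr
        _ = (N : ℝ) ^ (-E) * (2 * σ / a * 1) := by field_simp; norm_num
        _ ≤ _ := by gcongr
    have h3 : τ * (N : ℝ) ^ (-E) / (a * s) = (N : ℝ) ^ (-E) * (x₁ / (a * s) * L) := by
      rw [hτ]
      ring
    have h4 : τ * (N : ℝ) ^ (-E) / (a * s) + (N : ℝ) ^ (-E) * σ / (2 * a) * (2 / (1 - q)) ≤
        (N : ℝ) ^ (-E) * (c1 * L) := by
      rw [h3, hc1]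
      calc _ ≤ (N : ℝ) ^ (-E) * (x₁ / (a * s) * L) + (N : ℝ) ^ (-E) * (2 * σ / a * L) := by gcongr
        _ = _ := by ring
    have h5 : 2 * c1 * L ≤ Real.exp ((E - e) * L) := by
      have h6 : 0 < E - e := by linarith
      have h7 := Real.quadratic_le_exp_of_nonneg (show 0 ≤ (E - e) * L by positivity)
      have h8 : 0 ≤ (E - e) * L := by positivity
      have h9 : 2 * c1 * 4 ≤ (E - e) ^ 2 * L := by
        rw [div_le_iff₀ (by positivity)] at hL5
        linarith
      nlinarith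
    refine h4.trans ?_
    rw [hNe, hNe, show -e * L = -E * L + (E - e) * L by ring, Real.exp_add]
    have := Real.exp_pos (-E * L)
    nlinarith
  linarith

/-- the rectangle of `Rec` -/
theorem kt1 {x₁ : ℝ} (C e E : ℝ) (ha : 0 < a) (hρ : 0 ≤ ρ) (hρσ : ρ < σ) (hσ : σ < a) (hx : 0 < x₁)
    (hE : e < E) : ∃ K0 : ℕ, ∀ K ≥ K0, ∃ N0 : ℕ, ∀ N ≥ N0, ∀ f : ℂ → ℂ,
      SD a σ (x₁ * Real.log N) ((N : ℝ) ^ C) ((N : ℝ) ^ (-E)) f →
      ∀ z ∈ ReR (a + ρ),
        ‖f z - EL (Real.pi / a) K (cf a (-a) (x₁ * Real.log N) f) z‖ ≤ (N : ℝ) ^ (-e) := by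
  obtain ⟨K0, hK0⟩ := kt C e E ha hρ hρσ hσ hx (show (0 : ℝ) < 1 by norm_num) hE
  refine ⟨K0, fun K hK => ?_⟩
  obtain ⟨N0, hN0⟩ := hK0 K hK
  refine ⟨N0, fun N hN f hf z hz => hN0 N hN f hf z hz.1 ?_⟩
  have := hz.2
  linarith

/-- the coefficients from the values on `i[0,1]` -/
theorem cf_le1 (ha : 0 < a) (K : ℕ) : ∃ V : ℝ, 0 < V ∧ ∀ (f : ℂ → ℂ) (c : ℤ → ℂ) (S r : ℝ),
    (∀ t ∈ Icc (0 : ℝ) 1, ‖f (I * t)‖ ≤ S) →
    (∀ t ∈ Icc (0 : ℝ) 1, ‖f (I * t) - EL (Real.pi / a) K c (I * t)‖ ≤ r) →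
    ∀ k ∈ Finset.Icc (-(K : ℤ)) K, ‖c k‖ ≤ V * (S + r) := by
  have hpi := Real.pi_pos
  obtain ⟨V, hV0, hV⟩ := EL_coef (w := Real.pi / a) (by positivity) K
  refine ⟨V, hV0, fun f c S r hS hr => hV c (S + r) fun t ht => ?_⟩
  have e1 : EL (Real.pi / a) K c (I * t) = f (I * t) - (f (I * t) - EL (Real.pi / a) K c (I * t)) := by
    ring
  rw [e1]
  exact (norm_sub_le _ _).trans (add_le_add (hS t ht) (hr t ht))

end PBV
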