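import Pool.Agent.PB.KJoin

/-!
# Plan B: the K-term sum at a height (helper12; for (TR))

* `EL_neg`, **`EL_tall_coef`**: `|c k| ≤ V S e^{-w|k|τ}` if `|EL c (± i (τ + t))| ≤ S` for `t ∈ [0,1]`;
* **`EL_tall`**: if moreover `|c k| ≤ G` for `k ≠ 0`, then for `|Im z| ≤ y ≤ τ`
  `|EL c z - c 0| ≤ 2 K G^{1-y/τ} (V S)^{y/τ}`;
* **`ktall`**: the same for `f` with `FD` and its coefficients `kc`.
-/

set_option autoImplicit false

noncomputable section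

open Complex MeasureTheory Set Filter Topology
open Pool.Agent.PB.Rec (EL EL_coef EL_add ReR)

namespace PBV

theorem EL_neg (w : ℝ) (K : ℕ) (c : ℤ → ℂ) (z : ℂ) :
    EL w K c (-z) = EL w K (fun k => c (-k)) z := by
  unfold EL
  refine Finset.sum_bij' (fun k _ => -k) (fun k _ => -k) ?_ ?_ ?_ ?_ ?_
  · intro k hk
    rw [Finset.mem_Icc] at hk ⊢
    constructor <;> linarith [hk.1, hk.2]
  · intro k hk
    rw [Finset.mem_Icc] at hk ⊢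
    constructor <;> linarith [hk.1, hk.2]
  · intro k _
    simp
  · intro k _
    simp
  · intro k _
    simp only [neg_neg]
    congr 2
    push_cast
    ring

/-- one sign -/
theorem EL_tall1 {w : ℝ} {K : ℕ} {V : ℝ} (hV : ∀ (a : ℤ → ℂ) (B : ℝ),
    (∀ t ∈ Icc (0 : ℝ) 1, ‖EL w K a (I * t)‖ ≤ B) → ∀ k ∈ Finset.Icc (-(K : ℤ)) K, ‖a k‖ ≤ V * B)
    {c : ℤ → ℂ} {τ S : ℝ} (h : ∀ t ∈ Icc (0 : ℝ) 1, ‖EL w K c (I * (τ + t))‖ ≤ S) {k : ℤ}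
    (hk : k ∈ Finset.Icc (-(K : ℤ)) K) (hk0 : k ≤ 0) :
    ‖c k‖ ≤ V * S * Real.exp (-(w * |(k : ℝ)| * τ)) := by
  have h1 := hV (fun k => c k * exp (I * w * k * (I * τ))) S (fun t ht => by
    rw [← EL_add, show I * (t : ℂ) + I * τ = I * (τ + t) by ring]
    exact h t ht) k hk
  simp only [norm_mul] at h1
  have hk' : (k : ℝ) ≤ 0 := by exact_mod_cast hk0
  have e1 : ‖exp (I * w * k * (I * τ))‖ = Real.exp (w * |(k : ℝ)| * τ) := by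
    rw [norm_exp]
    congr 1
    have : I * (w : ℂ) * k * (I * τ) = ((-(w * k * τ) : ℝ) : ℂ) := by
      push_cast
      linear_combination (w * k * τ : ℂ) * I_sq
    rw [this, ofReal_re, abs_of_nonpos hk']
    ring
  rw [e1] at h1
  rw [Real.exp_neg, ← div_eq_mul_inv, le_div_iff₀ (Real.exp_pos _)]
  exact h1

/-- **the coefficients from a height** -/
theorem EL_tall_coef {w : ℝ} (hw : 0 < w) (K : ℕ) : ∃ V : ℝ, 0 < V ∧ ∀ (c : ℤ → ℂ) (τ S : ℝ),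
    (∀ t ∈ Icc (0 : ℝ) 1, ‖EL w K c (I * (τ + t))‖ ≤ S) →
    (∀ t ∈ Icc (0 : ℝ) 1, ‖EL w K c (-(I * (τ + t)))‖ ≤ S) →
    ∀ k ∈ Finset.Icc (-(K : ℤ)) K, ‖c k‖ ≤ V * S * Real.exp (-(w * |(k : ℝ)| * τ)) := by
  obtain ⟨V, hV0, hV⟩ := EL_coef hw K
  refine ⟨V, hV0, fun c τ S h1 h2 k hk => ?_⟩
  rcases le_total k 0 with h | h
  · exact EL_tall1 hV h1 hk h
  · have hk2 : -k ∈ Finset.Icc (-(K : ℤ)) K := by
      rw [Finset.mem_Icc] at hk ⊢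
      constructor <;> linarith [hk.1, hk.2]
    have h3 := EL_tall1 hV (c := fun k => c (-k)) (τ := τ) (S := S)
      (fun t ht => by rw [← EL_neg]; exact h2 t ht) hk2 (by linarith)
    simp only [neg_neg] at h3
    have e1 : |((-k : ℤ) : ℝ)| = |(k : ℝ)| := by push_cast; exact abs_neg _
    rwa [e1] at h3

/-- interpolation of one term -/
theorem term_tall {x G U w y τ : ℝ} {m : ℝ} (hx : 0 ≤ x) (hG : x ≤ G) (hU : 0 ≤ U)
    (hxU : x ≤ U * Real.exp (-(w * m * τ))) (hy : 0 ≤ y) (hyτ : y ≤ τ) (hτ : 0 < τ) :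
    x * Real.exp (w * m * y) ≤ G ^ (1 - y / τ) * U ^ (y / τ) := by
  set θ := y / τ with hθ
  have hθ0 : 0 ≤ θ := by positivity
  have hθ1 : θ ≤ 1 := by rw [hθ, div_le_one hτ]; exact hyτ
  have e1 : x = x ^ (1 - θ) * x ^ θ := by
    rw [← Real.rpow_add_of_nonneg hx (by linarith) hθ0, sub_add_cancel, Real.rpow_one]
  have h1 : x ^ (1 - θ) ≤ G ^ (1 - θ) := Real.rpow_le_rpow hx hG (by linarith)
  have h2 : x ^ θ ≤ U ^ θ * Real.exp (-(w * m * y)) := by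
    calc x ^ θ ≤ (U * Real.exp (-(w * m * τ))) ^ θ := Real.rpow_le_rpow hx hxU hθ0
      _ = U ^ θ * Real.exp (-(w * m * y)) := by
        rw [Real.mul_rpow hU (Real.exp_pos _).le, ← Real.exp_mul]
        congr 2
        rw [hθ]
        field_simp
  have h3 : 0 ≤ x ^ θ := Real.rpow_nonneg hx _
  have h4 : 0 ≤ G ^ (1 - θ) := Real.rpow_nonneg (hx.trans hG) _
  calc x * Real.exp (w * m * y) = x ^ (1 - θ) * x ^ θ * Real.exp (w * m * y) := by rw [← e1]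
    _ ≤ G ^ (1 - θ) * (U ^ θ * Real.exp (-(w * m * y))) * Real.exp (w * m * y) := by
      gcongr
    _ = G ^ (1 - θ) * U ^ θ * (Real.exp (-(w * m * y)) * Real.exp (w * m * y)) := by ring
    _ = G ^ (1 - θ) * U ^ θ := by rw [← Real.exp_add, neg_add_cancel, Real.exp_zero, mul_one]

/-- the sum without the zero mode, from bounds of the coefficients -/
theorem EL_sub_zero {w : ℝ} (hw : 0 ≤ w) (K : ℕ) {c : ℤ → ℂ} {z : ℂ} {y M : ℝ} (hz : |z.im| ≤ y)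
    (h : ∀ k ∈ Finset.Icc (-(K : ℤ)) K, k ≠ 0 → ‖c k‖ * Real.exp (w * |(k : ℝ)| * y) ≤ M) :
    ‖EL w K c z - c 0‖ ≤ 2 * K * M := by
  have h0 : (0 : ℤ) ∈ Finset.Icc (-(K : ℤ)) K := by
    rw [Finset.mem_Icc]
    constructor <;> omega
  have e1 : EL w K c z - c 0 = ∑ k ∈ (Finset.Icc (-(K : ℤ)) K).erase 0, c k * exp (I * w * k * z) := by
    unfold EL
    rw [← Finset.add_sum_erase _ _ h0]
    simp
  rw [e1]
  refine (norm_sum_le _ _).trans ?_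
  have h1 : ∀ k ∈ (Finset.Icc (-(K : ℤ)) K).erase 0, ‖c k * exp (I * w * k * z)‖ ≤ M := by
    intro k hk
    rw [Finset.mem_erase] at hk
    refine le_trans ?_ (h k hk.2 hk.1)
    rw [norm_mul, norm_exp]
    have e : (I * w * k * z).re = -(w * k * z.im) := by
      have : I * (w : ℂ) * (k : ℂ) * z = I * (((w * k : ℝ) : ℂ) * z) := by push_cast; ring
      rw [this, I_mul_re, im_ofReal_mul]
    rw [e]
    apply mul_le_mul_of_nonneg_left _ (norm_nonneg _)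
    apply Real.exp_le_exp.2
    have h2 : -(k * z.im) ≤ |(k : ℝ)| * y := by
      refine (neg_le_abs _).trans ?_
      rw [abs_mul]
      gcongr
    calc -(w * k * z.im) = w * (-(k * z.im)) := by ring
      _ ≤ w * (|(k : ℝ)| * y) := by gcongr
      _ = _ := by ring
  refine (Finset.sum_le_card_nsmul _ _ _ h1).trans ?_
  rw [Finset.card_erase_of_mem h0, Int.card_Icc, nsmul_eq_mul]
  have : ((K : ℤ) + 1 - -(K : ℤ)).toNat - 1 = 2 * K := by omega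
  rw [this]
  push_cast
  exact le_refl _

/-- **the sum at a lower height** -/
theorem EL_tall {w : ℝ} (hw : 0 < w) (K : ℕ) : ∃ V : ℝ, 0 < V ∧ ∀ (c : ℤ → ℂ) (τ S G y : ℝ),
    0 < τ → 0 ≤ y → y ≤ τ →
    (∀ t ∈ Icc (0 : ℝ) 1, ‖EL w K c (I * (τ + t))‖ ≤ S) →
    (∀ t ∈ Icc (0 : ℝ) 1, ‖EL w K c (-(I * (τ + t)))‖ ≤ S) →
    (∀ k ∈ Finset.Icc (-(K : ℤ)) K, k ≠ 0 → ‖c k‖ ≤ G) →
    ∀ z : ℂ, |z.im| ≤ y → ‖EL w K c z - c 0‖ ≤ 2 * K * (G ^ (1 - y / τ) * (V * S) ^ (y / τ)) := by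
  obtain ⟨V, hV0, hV⟩ := EL_tall_coef hw K
  refine ⟨V, hV0, fun c τ S G y hτ hy hyτ h1 h2 hG z hz => ?_⟩
  have hS : 0 ≤ S := (norm_nonneg _).trans (h1 0 ⟨le_rfl, zero_le_one⟩)
  apply EL_sub_zero hw.le K hz
  intro k hk hk0
  exact term_tall (norm_nonneg _) (hG k hk hk0) (by positivity) (hV c τ S h1 h2 k hk) hy hyτ hτ

/-- **K-terms at a height**, for functions with `FD`: `τ ≤ (1-ε)(2σ/π) log N` -/
theorem ktall {a σ ρ y₀ b₀ ε : ℝ} (C e : ℝ) (hρ : 0 ≤ ρ) (hρσ : ρ < σ) (hσ : σ < a) (hb : 0 ≤ b₀)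
    (hbσ : b₀ < σ) (hy : 0 ≤ y₀) (hε : 0 < ε) (hε1 : ε < 1) :
    ∃ K0 : ℕ, ∀ K ≥ K0, ∃ V : ℝ, 0 < V ∧ ∃ N0 : ℕ, ∀ N ≥ N0, ∀ f : ℂ → ℂ, FD a σ y₀ b₀ C N f →
      ∀ τ S G y : ℝ, 0 < τ → τ ≤ (1 - ε) * (2 * σ / Real.pi * Real.log N) → 0 ≤ y → y ≤ τ →
      (∀ t ∈ Icc (0 : ℝ) 1, ‖f (I * (τ + t))‖ ≤ S) →
      (∀ t ∈ Icc (0 : ℝ) 1, ‖f (-(I * (τ + t)))‖ ≤ S) →
      (∀ k ∈ Finset.Icc (-(K : ℤ)) K, k ≠ 0 → ‖kc a σ ε N f k‖ ≤ G) →
      ∀ z : ℂ, |z.re| ≤ a + ρ → |z.im| ≤ y →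
        ‖f z - kc a σ ε N f 0‖ ≤ (N : ℝ) ^ (-e) +
          2 * K * (G ^ (1 - y / τ) * (V * (S + (N : ℝ) ^ (-e))) ^ (y / τ)) := by
  have hpi := Real.pi_pos
  have ha : 0 < a := by linarith
  obtain ⟨K0, hK0⟩ := kterm (a := a) (σ := σ) (ρ := ρ) C e hρ hρσ hσ hb hbσ hy hε hε1
  refine ⟨K0, fun K hK => ?_⟩
  obtain ⟨N0, hN0⟩ := hK0 K hK
  obtain ⟨V, hV0, hV⟩ := EL_tall (w := Real.pi / a) (by positivity) K
  refine ⟨V, hV0, N0, fun N hN f hf τ S G y hτ hτ1 hy0 hyτ h1 h2 hG z hz hzi => ?_⟩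
  have hr : ∀ w : ℂ, w.re = 0 → |w.im| ≤ τ + 1 → ‖EL (Real.pi / a) K (kc a σ ε N f) w‖ ≤
      ‖f w‖ + (N : ℝ) ^ (-e) := by
    intro w hw hwi
    have h3 := hN0 N hN f hf w (by rw [hw, abs_zero]; linarith) (by linarith)
    have e1 : EL (Real.pi / a) K (kc a σ ε N f) w = f w - (f w - EL (Real.pi / a) K (kc a σ ε N f) w) := by
      ring
    rw [e1]
    exact (norm_sub_le _ _).trans (add_le_add le_rfl h3)
  have him : ∀ t ∈ Icc (0 : ℝ) 1, (I * (τ + t) : ℂ).re = 0 ∧ |(I * (τ + t) : ℂ).im| ≤ τ + 1 := by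
    intro t ht
    have e1 : (I * (τ + t) : ℂ) = I * ((τ + t : ℝ) : ℂ) := by push_cast; ring
    rw [e1]
    constructor
    · simp
    · simp only [mul_im, I_re, ofReal_im, mul_zero, I_im, ofReal_re, one_mul, zero_add]
      rw [abs_of_nonneg (by linarith [ht.1])]
      linarith [ht.2]
  have h3 := hV (kc a σ ε N f) τ (S + (N : ℝ) ^ (-e)) G y hτ hy0 hyτ
    (fun t ht => (hr _ (him t ht).1 (him t ht).2).trans (by linarith [h1 t ht]))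
    (fun t ht => (hr _ (by rw [neg_re, (him t ht).1, neg_zero]) (by
      rw [neg_im, abs_neg]; exact (him t ht).2)).trans (by linarith [h2 t ht])) hG z hzi
  have h4 := hN0 N hN f hf z hz (by linarith)
  have e1 : f z - kc a σ ε N f 0 = (f z - EL (Real.pi / a) K (kc a σ ε N f) z) +
      (EL (Real.pi / a) K (kc a σ ε N f) z - kc a σ ε N f 0) := by ring
  rw [e1]
  exact (norm_add_le _ _).trans (add_le_add h4 h3)

end PBV
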