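import Pool.Agent.PB.MFrho3

/-!
# The energies of rows and legs are bounded

* `exists_lE` : `|lE d| ≤ C` for `-l ≤ Re d ≤ 4 l`, all heights;
* `exists_mE` : `|mE d| ≤ C` for `|Re d| ≤ l`, all heights.
-/

set_option autoImplicit false

open Complex

noncomputable section

namespace NUMFH

open NUMF

/-! ### bounds -/

/-- `log ‖sin (k l + d)‖ = |Im d| + O(1)` -/
theorem log_sin_bd {a b : ℝ} (ha : 0 < a) (hb : b < 8 * l) : ∃ C : ℝ, 0 ≤ C ∧ ∀ w : ℂ, a ≤ w.re → w.re ≤ b →
    abs (Real.log ‖Complex.sin w‖ - |w.im|) ≤ C := by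
  have hl := l_pos
  by_cases hab : a ≤ b
  swap
  · exact ⟨0, le_rfl, fun w h1 h2 => absurd (h1.trans h2) hab⟩
  set m : ℝ := min (Real.sin a) (Real.sin b) with hm
  have hpi : 8 * l = Real.pi := eight_l
  have hsa : 0 < Real.sin a := Real.sin_pos_of_pos_of_lt_pi ha (by linarith)
  have hsb : 0 < Real.sin b := Real.sin_pos_of_pos_of_lt_pi (by linarith) (by linarith)
  have hm0 : 0 < m := lt_min hsa hsb
  have hsin : ∀ x : ℝ, a ≤ x → x ≤ b → m ≤ Real.sin x := by
    intro x h1 h2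
    rcases le_total x (Real.pi / 2) with h | h
    · exact (min_le_left _ _).trans (Real.sin_le_sin_of_le_of_le_pi_div_two (by linarith [Real.pi_pos]) h h1)
    · refine (min_le_right _ _).trans ?_
      rw [← Real.sin_pi_sub b, ← Real.sin_pi_sub x]
      exact Real.sin_le_sin_of_le_of_le_pi_div_two (by linarith [Real.pi_pos]) (by linarith) (by linarith)
  have hm1 : m ≤ 1 := (min_le_left _ _).trans (Real.sin_le_one _)
  refine ⟨-Real.log (m / 2), ?_, ?_⟩
  · have := Real.log_nonpos (by positivity) (by linarith : m / 2 ≤ 1)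
    linarith
  · intro w h1 h2
    have u := PBR.norm_sin_le w
    have v := PBR.norm_sin_ge w
    have hs := hsin _ h1 h2
    have v2 : m / 2 * Real.exp |w.im| ≤ ‖Complex.sin w‖ := by
      refine le_trans ?_ v
      have : m ≤ |Real.sin w.re| := hs.trans (le_abs_self _)
      gcongr
    have hpos : 0 < ‖Complex.sin w‖ := lt_of_lt_of_le (by positivity) v2
    have l1 := Real.log_le_log hpos u
    rw [Real.log_exp] at l1
    have l2 := Real.log_le_log (by positivity) v2
    rw [Real.log_mul (by positivity) (Real.exp_pos _).ne', Real.log_exp] at l2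
    have := Real.log_nonpos (by positivity) (by linarith : m / 2 ≤ 1)
    rw [abs_le]
    constructor <;> linarith

/-- `log ‖rh d‖ = |Im d| + O(1)` -/
theorem log_rh_bd : ∃ C : ℝ, 0 ≤ C ∧ ∀ d : ℂ, |d.re| ≤ 4 * l →
    abs (Real.log ‖PBR.rh d‖ - |d.im|) ≤ C := by
  have hl := l_pos
  have hs := PBR.sδ_pos (δ := 1) one_pos (by norm_num)
  refine ⟨|Real.log (4 / PBR.sδ 1 ^ 4)| + |Real.log (4 * PBR.sδ 1 ^ 7)|, by positivity, ?_⟩
  intro d hd
  have u := PBR.rh_upper (δ := 1) (w := d) one_pos (by norm_num) (by show _ ≤ _ * NUMF.l; linarith)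
  have v := PBR.rh_lower (δ := 1) (w := d) one_pos (by norm_num) (by show _ ≤ _ * NUMF.l; linarith)
  have hpos : 0 < ‖PBR.rh d‖ := lt_of_lt_of_le (by positivity) v
  have l1 := Real.log_le_log hpos u
  rw [Real.log_mul (by positivity) (Real.exp_pos _).ne', Real.log_exp] at l1
  have l2 := Real.log_le_log (by positivity) v
  rw [Real.log_mul (by positivity) (Real.exp_pos _).ne', Real.log_exp] at l2
  have a1 := le_abs_self (Real.log (4 / PBR.sδ 1 ^ 4))
  have a2 := neg_abs_le (Real.log (4 * PBR.sδ 1 ^ 7))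
  have a3 := abs_nonneg (Real.log (4 / PBR.sδ 1 ^ 4))
  have a4 := abs_nonneg (Real.log (4 * PBR.sδ 1 ^ 7))
  rw [abs_le]
  constructor <;> linarith

/-- **the leg energy is bounded** -/
theorem exists_lE : ∃ C : ℝ, 0 ≤ C ∧ ∀ d : ℂ, -l ≤ d.re → d.re ≤ 4 * l → |lE d| ≤ C := by
  have hl := l_pos
  obtain ⟨C1, hC1, h1⟩ := log_rh_bd
  obtain ⟨C2, hC2, h2⟩ := log_sin_bd (a := l) (b := 7 * l) hl (by linarith)
  refine ⟨2 * C1 + 2 * C2, by positivity, ?_⟩
  intro d d0 d1
  rw [lE_rh d0 d1]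
  have e1 := h1 d (by rw [abs_le]; constructor <;> linarith)
  have r3 : (3 * (l : ℂ) + d).re = 3 * l + d.re := by simp
  have r2 : (2 * (l : ℂ) + d).re = 2 * l + d.re := by simp
  have i3 : (3 * (l : ℂ) + d).im = d.im := by simp
  have i2 : (2 * (l : ℂ) + d).im = d.im := by simp
  have e2 := h2 (3 * l + d) (by rw [r3]; linarith) (by rw [r3]; linarith)
  have e3 := h2 (2 * l + d) (by rw [r2]; linarith) (by rw [r2]; linarith)
  rw [i3] at e2
  rw [i2] at e3
  rw [abs_le] at *
  constructor <;> linarith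

/-- **the row energy is bounded** -/
theorem exists_mE : ∃ C : ℝ, 0 ≤ C ∧ ∀ d : ℂ, |d.re| ≤ l → |mE d| ≤ C := by
  have hl := l_pos
  obtain ⟨C1, hC1, h1⟩ := log_rh_bd
  obtain ⟨C2, hC2, h2⟩ := log_sin_bd (a := l) (b := 7 * l) hl (by linarith)
  refine ⟨4 * C1 + 4 * C2, by positivity, ?_⟩
  intro d hd
  rw [mE_rh (by linarith)]
  obtain ⟨d0, d1⟩ := abs_le.1 hd
  have e1 := h1 d (by rw [abs_le]; constructor <;> linarith)
  have r3 : (3 * (l : ℂ) + d).re = 3 * l + d.re := by simp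
  have r2 : (2 * (l : ℂ) + d).re = 2 * l + d.re := by simp
  have i3 : (3 * (l : ℂ) + d).im = d.im := by simp
  have i2 : (2 * (l : ℂ) + d).im = d.im := by simp
  have s3 : (3 * (l : ℂ) - d).re = 3 * l - d.re := by simp
  have s2 : (2 * (l : ℂ) - d).re = 2 * l - d.re := by simp
  have j3 : (3 * (l : ℂ) - d).im = -d.im := by simp
  have j2 : (2 * (l : ℂ) - d).im = -d.im := by simp
  have e2 := h2 (3 * l + d) (by rw [r3]; linarith) (by rw [r3]; linarith)
  have e3 := h2 (2 * l + d) (by rw [r2]; linarith) (by rw [r2]; linarith)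
  have e4 := h2 (3 * l - d) (by rw [s3]; linarith) (by rw [s3]; linarith)
  have e5 := h2 (2 * l - d) (by rw [s2]; linarith) (by rw [s2]; linarith)
  rw [i3] at e2
  rw [i2] at e3
  rw [j3, abs_neg] at e4
  rw [j2, abs_neg] at e5
  rw [abs_le] at *
  constructor <;> linarith

end NUMFH

end
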