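import Pool.Agent.NUP1.AssemGR

/-!
# The exact leg identity of the dislocated function, on the sums over the states

`dg z u = sin (u - z + 3 l) / sin (z - u + 2 l)` is the factor of a quantum `u` with the two legs at
`z`.  With the legs at `x₀ + 3 l` the row `x₀` of both groups is empty and may be removed; the legs
are then at `x₀`.
-/

set_option autoImplicit false

noncomputable section

open Complex

namespace Pool.Agent.PB

open NUP1 (l lpos St sta sw pr qu nq crq hh sta_cons sta_mul sta_congr pr_pos sum_sign Us Us_prod)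

variable {m M : ℕ}

/-- factor of a quantum with the two legs at `z` -/
def dg (z u : ℂ) : ℂ := sin (u - z + 3 * l) / sin (z - u + 2 * l)

/-- one body function of the dislocated function -/
def hD (c z : ℂ) (x : Fin m → ℂ) (y : Fin M → ℂ) (u : ℂ) : ℂ :=
  c * (∏ i, 1 / sin (u - x i - 2 * l)) * (∏ j, sin (u - y j + 3 * l) ^ 2) * dg z u

/-- the sum over the states with `n` quanta in both groups -/
def DS (n : ℕ) (x : Fin m → ℂ) (y : Fin M → ℂ) (hX hY : ℂ → ℂ) : ℂ :=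
  ∑ a ∈ St m n, ∑ b ∈ St M n, sta x hX a * sta y hY b * crq x y a b

theorem hD_hh (c z : ℂ) (x y : Fin m → ℂ) (u : ℂ) : hD c z x y u = hh c x y u * dg z u := rfl

theorem eight : 8 * (l : ℂ) = Real.pi := by
  unfold NUP1.l
  push_cast
  ring

/-- the row at distance `3 l` of the legs and the legs together are the legs at the row -/
theorem dg_row {x₀ v : ℂ} (h : sin (v - x₀) ≠ 0) :
    1 / sin (v - x₀ - 2 * l) * sin (v - x₀ + 3 * l) ^ 2 * dg (x₀ + 3 * l) v * (1 / sin (v - x₀)) =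
      -dg x₀ v := by
  have e1 : sin (v - (x₀ + 3 * l) + 3 * l) = sin (v - x₀) := by
    congr 1
    ring
  have e2 : sin (x₀ + 3 * l - v + 2 * l) = sin (v - x₀ + 3 * l) := by
    rw [show x₀ + 3 * (l : ℂ) - v + 2 * l = Real.pi - (v - x₀ + 3 * l) by rw [← eight]; ring,
      Complex.sin_pi_sub]
  have e3 : sin (x₀ - v + 2 * l) = -sin (v - x₀ - 2 * l) := by
    rw [← Complex.sin_neg]
    congr 1
    ring
  unfold dg
  rw [e1, e2, e3]
  by_cases h3 : sin (v - x₀ + 3 * l) = 0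
  · rw [h3]
    simp
  by_cases h2 : sin (v - x₀ - 2 * l) = 0
  · rw [h2]
    simp
  field_simp

/-- the leg factor at the row -/
theorem dg_zero (x₀ : ℂ) : dg (x₀ + 3 * l) x₀ = 0 := by
  unfold dg
  rw [show x₀ - (x₀ + 3 * (l : ℂ)) + 3 * l = 0 by ring, Complex.sin_zero, zero_div]

/-- one body function: the row and the legs -/
theorem hD_row (c x₀ : ℂ) (x : Fin m → ℂ) (y : Fin M → ℂ) {v : ℂ} (h : sin (v - x₀) ≠ 0) :
    hD c (x₀ + 3 * l) (Fin.cons x₀ x : Fin (m + 1) → ℂ) (Fin.cons x₀ y : Fin (M + 1) → ℂ) v *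
      (1 / sin (v - x₀)) = hD (-c) x₀ x y v := by
  unfold hD
  rw [Fin.prod_univ_succ, Fin.prod_univ_succ]
  simp only [Fin.cons_zero, Fin.cons_succ]
  have := dg_row h
  linear_combination (c * (∏ i, 1 / sin (v - x i - 2 * l)) * (∏ j, sin (v - y j + 3 * l) ^ 2)) * this

/-- the row `x₀` carries no quantum -/
theorem sta_row (c x₀ : ℂ) {x : Fin m → ℂ} (y : Fin M → ℂ) (h0 : ∀ i, sin (x i - x₀) ≠ 0)
    (h1 : ∀ i, sin (x i - l - x₀) ≠ 0) (a₀ : SignType) (a : Fin m → SignType) :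
    sta (Fin.cons x₀ x : Fin (m + 1) → ℂ)
      (hD c (x₀ + 3 * l) (Fin.cons x₀ x : Fin (m + 1) → ℂ) (Fin.cons x₀ y : Fin (M + 1) → ℂ))
      (Fin.cons a₀ a : Fin (m + 1) → SignType) =
    if a₀ = .pos then sta x (hD (-c) x₀ x y) a else 0 := by
  rw [sta_cons]
  simp only [Fin.cons_zero, Fin.cons_succ]
  have e0 : hD c (x₀ + 3 * l) (Fin.cons x₀ x : Fin (m + 1) → ℂ) (Fin.cons x₀ y : Fin (M + 1) → ℂ) x₀ =
      0 := by
    unfold hD
    rw [dg_zero, mul_zero]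
  rcases a₀ with _ | _ | _
  · rw [if_neg (by decide)]
    show hD c (x₀ + 3 * l) _ _ x₀ * _ * _ = 0
    rw [e0]
    ring
  · rw [if_neg (by decide)]
    show NUP1.rho / sin l * (hD c (x₀ + 3 * l) _ _ x₀ * hD c (x₀ + 3 * l) _ _ (x₀ - l)) * _ * _ = 0
    rw [e0]
    ring
  · rw [if_pos rfl]
    show 1 * _ * _ = _
    have e1 : ∏ j, pr .pos (a j) x₀ (x j) =
        ∏ i, ((qu (a i) (x i)).map fun v => 1 / sin (v - x₀)).prod :=
      Finset.prod_congr rfl fun j _ => pr_pos _ _ _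
    rw [e1, one_mul, mul_comm, ← sta_mul]
    exact sta_congr (fun i => hD_row c x₀ x y (h0 i)) (fun i => hD_row c x₀ x y (h1 i)) a

/-- empty rows have no cross weight -/
theorem crq_row (x₀ y₀ : ℂ) (x : Fin m → ℂ) (y : Fin M → ℂ) (a : Fin m → SignType)
    (b : Fin M → SignType) :
    crq (Fin.cons x₀ x : Fin (m + 1) → ℂ) (Fin.cons y₀ y : Fin (M + 1) → ℂ)
      (Fin.cons .pos a : Fin (m + 1) → SignType) (Fin.cons .pos b : Fin (M + 1) → SignType) =
    crq x y a b := by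
  unfold crq
  rw [Fin.prod_univ_succ]
  have e1 : ∏ j : Fin (M + 1), ((qu ((Fin.cons SignType.pos a : Fin (m + 1) → SignType) 0)
      ((Fin.cons x₀ x : Fin (m + 1) → ℂ) 0)).map fun u =>
        ((qu ((Fin.cons SignType.pos b : Fin (M + 1) → SignType) j)
          ((Fin.cons y₀ y : Fin (M + 1) → ℂ) j)).map fun v => NUP1.Bd.qg (u - v)).prod).prod = 1 := by
    refine Finset.prod_eq_one fun j _ => ?_
    simp [qu]
  rw [e1, one_mul]
  refine Finset.prod_congr rfl fun i _ => ?_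
  rw [Fin.prod_univ_succ]
  simp only [Fin.cons_succ, Fin.cons_zero]
  have e2 : ((qu (a i) (x i)).map fun u => ((qu SignType.pos y₀).map fun v => NUP1.Bd.qg (u - v)).prod).prod =
      1 := by
    simp [qu]
  rw [e2, one_mul]

/-- sums over the states of `m + 1` rows -/
theorem sum_St_succ (n : ℕ) (F : (Fin (m + 1) → SignType) → ℂ)
    (hF : ∀ a₀ a, a₀ ≠ .pos → F (Fin.cons a₀ a : Fin (m + 1) → SignType) = 0) :
    ∑ a ∈ St (m + 1) n, F a = ∑ a ∈ St m n, F (Fin.cons .pos a : Fin (m + 1) → SignType) := by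
  unfold St
  rw [Finset.sum_filter, Finset.sum_filter,
    ← (Fin.consEquiv (fun _ : Fin (m + 1) => SignType)).sum_comp, Fintype.sum_prod_type, sum_sign]
  have e : ∀ (a₀ : SignType) (a : Fin m → SignType),
      (Fin.consEquiv (fun _ : Fin (m + 1) => SignType)) (a₀, a) =
        (Fin.cons a₀ a : Fin (m + 1) → SignType) := fun _ _ => rfl
  simp only [e]
  have z1 : ∀ a₀ : SignType, a₀ ≠ .pos → (∑ a : Fin m → SignType,
      if ∑ i, nq ((Fin.cons a₀ a : Fin (m + 1) → SignType) i) = n then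
        F (Fin.cons a₀ a : Fin (m + 1) → SignType) else 0) = 0 := by
    intro a₀ h
    refine Finset.sum_eq_zero fun a _ => ?_
    rw [hF a₀ a h, ite_self]
  rw [z1 .zero (by decide), z1 .neg (by decide), add_zero, add_zero]
  refine Finset.sum_congr rfl fun a _ => ?_
  rw [Fin.sum_univ_succ]
  simp only [Fin.cons_zero, Fin.cons_succ]
  have e3 : nq SignType.pos + ∑ i, nq (a i) = ∑ i, nq (a i) := Nat.zero_add _
  rw [e3]

/-- **(A1), sum over the states with `n` quanta**: with the legs at `x₀ + 3 l` the row `x₀` of both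
groups may be removed, the legs are then at `x₀`. -/
theorem DS_leg (n : ℕ) (c c' x₀ : ℂ) {x : Fin m → ℂ} {y : Fin M → ℂ}
    (hx0 : ∀ i, sin (x i - x₀) ≠ 0) (hx1 : ∀ i, sin (x i - l - x₀) ≠ 0)
    (hy0 : ∀ i, sin (y i - x₀) ≠ 0) (hy1 : ∀ i, sin (y i - l - x₀) ≠ 0) :
    DS n (Fin.cons x₀ x : Fin (m + 1) → ℂ) (Fin.cons x₀ y : Fin (M + 1) → ℂ)
      (hD c (x₀ + 3 * l) (Fin.cons x₀ x : Fin (m + 1) → ℂ) (Fin.cons x₀ y : Fin (M + 1) → ℂ))
      (hD c' (x₀ + 3 * l) (Fin.cons x₀ y : Fin (M + 1) → ℂ) (Fin.cons x₀ x : Fin (m + 1) → ℂ)) =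
    DS n x y (hD (-c) x₀ x y) (hD (-c') x₀ y x) := by
  unfold DS
  rw [sum_St_succ]
  · refine Finset.sum_congr rfl fun a _ => ?_
    rw [sum_St_succ]
    · refine Finset.sum_congr rfl fun b _ => ?_
      rw [sta_row c x₀ y hx0 hx1, sta_row c' x₀ x hy0 hy1, if_pos rfl, if_pos rfl, crq_row]
    · intro b₀ b hb
      rw [sta_row c' x₀ x hy0 hy1, if_neg hb]
      ring
  · intro a₀ a ha
    refine Finset.sum_eq_zero fun b _ => ?_
    rw [sta_row c x₀ y hx0 hx1, if_neg ha]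
    ring

/-- the sign of the constants -/
theorem sta_neg (c z : ℂ) (x : Fin m → ℂ) (y : Fin M → ℂ) (a : Fin m → SignType) :
    sta x (hD (-c) z x y) a = (-1) ^ (∑ i, nq (a i)) * sta x (hD c z x y) a := by
  have e : hD (-c) z x y = fun u => hD c z x y u * (-1 : ℂ) := by
    funext u
    unfold hD
    ring
  rw [e, sta_mul]
  have e1 : ∏ i, ((qu (a i) (x i)).map fun _ => (-1 : ℂ)).prod = (-1) ^ (∑ i, nq (a i)) := by
    rw [← Finset.prod_pow_eq_pow_sum]
    refine Finset.prod_congr rfl fun i _ => ?_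
    rw [← NUP1.qu_length (a i) (x i)]
    simp
  rw [e1, mul_comm]

theorem DS_neg (n : ℕ) (c c' z : ℂ) (x : Fin m → ℂ) (y : Fin M → ℂ) :
    DS n x y (hD (-c) z x y) (hD (-c') z y x) = DS n x y (hD c z x y) (hD c' z y x) := by
  unfold DS
  refine Finset.sum_congr rfl fun a ha => Finset.sum_congr rfl fun b hb => ?_
  rw [sta_neg, sta_neg, (Finset.mem_filter.1 ha).2, (Finset.mem_filter.1 hb).2]
  have : ((-1 : ℂ) ^ n) * (-1) ^ n = 1 := by
    rw [← mul_pow]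
    simp
  linear_combination (sta x (hD c z x y) a * sta y (hD c' z y x) b * crq x y a b) * this

/-- **(A1) with the same constants.** -/
theorem DS_leg' (n : ℕ) (c c' x₀ : ℂ) {x : Fin m → ℂ} {y : Fin M → ℂ}
    (hx0 : ∀ i, sin (x i - x₀) ≠ 0) (hx1 : ∀ i, sin (x i - l - x₀) ≠ 0)
    (hy0 : ∀ i, sin (y i - x₀) ≠ 0) (hy1 : ∀ i, sin (y i - l - x₀) ≠ 0) :
    DS n (Fin.cons x₀ x : Fin (m + 1) → ℂ) (Fin.cons x₀ y : Fin (M + 1) → ℂ)
      (hD c (x₀ + 3 * l) (Fin.cons x₀ x : Fin (m + 1) → ℂ) (Fin.cons x₀ y : Fin (M + 1) → ℂ))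
      (hD c' (x₀ + 3 * l) (Fin.cons x₀ y : Fin (M + 1) → ℂ) (Fin.cons x₀ x : Fin (m + 1) → ℂ)) =
    DS n x y (hD c x₀ x y) (hD c' x₀ y x) := by
  rw [DS_leg n c c' x₀ hx0 hx1 hy0 hy1, DS_neg]

/-! ### all numbers of quanta -/

theorem nq_le (a : SignType) : nq a ≤ 2 := by
  cases a <;> simp [nq]

theorem St_empty {n : ℕ} (h : 2 * m < n) : St m n = ∅ := by
  unfold St
  rw [Finset.filter_eq_empty_iff]
  intro a _ h2
  have h3 : ∑ i, nq (a i) ≤ ∑ _i : Fin m, 2 := Finset.sum_le_sum fun i _ => nq_le (a i)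
  rw [Finset.sum_const, Finset.card_univ, Fintype.card_fin, smul_eq_mul] at h3
  omega

theorem DS_eq_zero {n : ℕ} (h : 2 * m < n) (x : Fin m → ℂ) (y : Fin M → ℂ) (hX hY : ℂ → ℂ) :
    DS n x y hX hY = 0 := by
  unfold DS
  rw [St_empty h, Finset.sum_empty]

/-- the dislocated function without its prefactor -/
def DT (c c' z : ℂ) (x : Fin m → ℂ) (y : Fin M → ℂ) : ℂ :=
  ∑ n ∈ Finset.range (2 * m + 1), DS n x y (hD c z x y) (hD c' z y x)

theorem DT_eq (c c' z : ℂ) (x : Fin m → ℂ) (y : Fin M → ℂ) {K : ℕ} (hK : 2 * m + 1 ≤ K) :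
    ∑ n ∈ Finset.range K, DS n x y (hD c z x y) (hD c' z y x) = DT c c' z x y := by
  unfold DT
  symm
  refine Finset.sum_subset (Finset.range_mono hK) fun n _ hn => ?_
  refine DS_eq_zero ?_ _ _ _ _
  rw [Finset.mem_range] at hn
  omega

/-- **(A1).** -/
theorem DT_leg (c c' x₀ : ℂ) {x : Fin m → ℂ} {y : Fin M → ℂ}
    (hx0 : ∀ i, sin (x i - x₀) ≠ 0) (hx1 : ∀ i, sin (x i - l - x₀) ≠ 0)
    (hy0 : ∀ i, sin (y i - x₀) ≠ 0) (hy1 : ∀ i, sin (y i - l - x₀) ≠ 0) :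
    DT c c' (x₀ + 3 * l) (Fin.cons x₀ x : Fin (m + 1) → ℂ) (Fin.cons x₀ y : Fin (M + 1) → ℂ) =
      DT c c' x₀ x y := by
  rw [← DT_eq c c' x₀ x y (K := 2 * (m + 1) + 1) (by omega)]
  unfold DT
  exact Finset.sum_congr rfl fun n _ => DS_leg' n c c' x₀ hx0 hx1 hy0 hy1

end Pool.Agent.PB

end
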