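import Pool.Agent.PB.Conf
import Pool.Agent.PB.TRsA

/-!
# Plan B, (TR), s-path on one measure space

* `wP_expZ`, `wC_expZ`, `wN_expN`: the weight of the family `expN Z D s` is `w e^{s A}`, `A = evN (stN D)`;
* `MIn_stA`, `norm_stA_le`: measurability and bound of the total statistic;
* `F_expN`, `hasDerivAt_FN`: the functional on the path and its derivative `F_s[A Ψ]`;
* `lint_geo`, `UN_geo`: masses on the path are bounded by the geometric mean of the two ends;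
* `nF`, `hasDerivAt_nF`, `nF_err`: normalised functional `ν0 e^{-s κ0} F_s[1]`, its derivative, the error
  `‖F' - (s q + p) F‖` from the mean statement `‖F_s[A] - (κ0 + s q + p) F_s[1]‖ ≤ ∑ U_s[Ψ_j]`.
-/

set_option autoImplicit false
set_option linter.unusedSectionVars false

noncomputable section

open Complex MeasureTheory Finset
open scoped ENNReal

namespace PBF

open NUO NUP1 NUCR NUP1S NUP1S.Ab NUP1S.AbC NUGC PBFunc

/-! ### the weights of the family -/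

section one

variable {Z D : Bool → Option O3 → ℂ → ℂ} {P : NUO.Par} {n n' : ℕ} {η η' : Crs}

theorem wP_expZ (s : ℂ) (i : CIx n n') (p : Pc i) :
    wP (expZ Z D s) P n n' η η' i p = wP Z P n n' η η' i p *
      Complex.exp (s * stA D P η i.1 p.1 i.2.1 i.2.2 p.2) := by
  unfold wP
  split_ifs
  · rw [wK_expZ, gK_expZ]
    unfold stA
    rw [mul_add, Complex.exp_add]
    ring
  · rw [zero_mul]

theorem wC_expZ (s : ℂ) (x : Cf n n') : wC (expZ Z D s) P n n' η η' x =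
    wC Z P n n' η η' x * Complex.exp (s * ev (stA D P η) x) := wP_expZ s x.1 x.2

theorem measurable_expZ (hZ : ∀ s k, Measurable (Z s k)) (hD : ∀ s k, Measurable (D s k)) (s : ℂ)
    (b : Bool) (k : Option O3) : Measurable (expZ Z D s b k) := by
  unfold expZ
  exact (hZ b k).mul (Complex.measurable_exp.comp ((hD b k).const_mul s))

/-! ### measurability of the total statistic -/

theorem measurable_obT' {Y : Type*} [MeasurableSpace Y]
    (hD : ∀ s k, Measurable (D s k)) (jL e : ℝ) (k : Bool × Kind)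
    {t a ρ : Y → ℝ} (ht : Measurable t) (ha : Measurable a) (hρ : Measurable ρ) :
    Measurable fun y => obT D jL e (ρ y) (k, (t y, a y)) := by
  obtain ⟨s, k⟩ := k
  have hS : Measurable fun y => posS e (t y) := NUO.measurable_vl ht _
  have hS' : Measurable fun y => posS e (t y) + 2 * l := hS.add_const _
  have hV := measurable_posV ht ha hρ e
  have hL : Measurable fun y => posL jL (t y) := NUO.measurable_vl ht _
  have hT : Measurable fun y => posT (t y) := NUO.measurable_vl ht _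
  cases k
  · exact (hD s (some .L)).comp hL
  · exact (hD s (some .T)).comp hT
  · exact (hD s (some .S)).comp hS
  · exact ((hD s (some .S)).comp hS).add ((hD (!s) none).comp hV)
  · exact ((hD s (some .S)).comp hS).add (((hD (!s) none).comp hS').const_mul _)

theorem measurable_obT {r : ℕ} (hP : Measurable (P.rad r)) (hD : ∀ s k, Measurable (D s k))
    (i : Fin r) : Measurable fun O : Fin r → Xo => obT D P.jL (ei P O i) (rr P O i) (O i) := by
  refine measurable_config' fun K => ?_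
  have ht : Measurable fun y : Fin r → ℝ × ℝ => (y i).1 :=
    measurable_fst.comp (measurable_pi_apply i)
  have ha : Measurable fun y : Fin r → ℝ × ℝ => (y i).2 :=
    measurable_snd.comp (measurable_pi_apply i)
  exact measurable_obT' hD P.jL (ei P (fun i => (K i, ((0 : ℝ), (0 : ℝ)))) i) (K i) ht ha
    (hP.comp ht)

theorem measurable_stO {r : ℕ} (hP : Measurable (P.rad r)) (hD : ∀ s k, Measurable (D s k)) :
    Measurable fun O : Fin r → Xo => stO D P O := by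
  unfold stO
  exact Finset.measurable_sum _ fun i _ => measurable_obT hP hD i

/-- statistics of the quanta on a jointly measurable curve -/
theorem measurable_stQ {r : ℕ} {η : (Fin r → Xo) → ℝ → ℝ}
    (hη : Measurable fun p : (Fin r → Xo) × ℝ => η p.1 p.2) (hD : ∀ s, Measurable (D s none))
    (a b : ℕ) : Measurable fun p : (Fin r → Xo) × ((Fin a → ℝ) × (Fin b → ℝ)) =>
      stQ D (η p.1) a b p.2 := by
  have hpos : Measurable fun p : (Fin r → Xo) × ℝ => NUO.pA (η p.1) p.2 := by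
    unfold NUO.pA vl
    fun_prop
  unfold stQ
  refine (Finset.measurable_sum _ fun i _ => ?_).add (Finset.measurable_sum _ fun j _ => ?_)
  · have h1 : Measurable fun p : (Fin r → Xo) × ((Fin a → ℝ) × (Fin b → ℝ)) =>
        ((p.1, p.2.1 i) : (Fin r → Xo) × ℝ) :=
      measurable_fst.prodMk ((measurable_pi_apply i).comp (measurable_fst.comp measurable_snd))
    exact (hD true).comp (hpos.comp h1)
  · have h1 : Measurable fun p : (Fin r → Xo) × ((Fin a → ℝ) × (Fin b → ℝ)) =>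
        ((p.1, p.2.2 j) : (Fin r → Xo) × ℝ) :=
      measurable_fst.prodMk ((measurable_pi_apply j).comp (measurable_snd.comp measurable_snd))
    exact (hD false).comp (hpos.comp h1)

theorem MIn_stO (hP : ∀ r, Measurable (P.rad r)) (hD : ∀ s k, Measurable (D s k)) :
    MIn fun _ O _ _ _ => stO D P O := fun r _ _ =>
  (measurable_stO (hP r) hD).comp measurable_fst

theorem MIn_stQ (hD : ∀ s, Measurable (D s none)) (hc : MCr η η') :
    MIn fun r O a b x => stQ D (η r O) a b x := fun r a b => measurable_stQ (hc.m r) hD a b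

theorem MIn_stA (hP : ∀ r, Measurable (P.rad r)) (hD : ∀ s k, Measurable (D s k))
    (hc : MCr η η') : MIn (stA D P η) := fun r a b =>
  (MIn_stO hP hD r a b).add (MIn_stQ (fun s => hD s none) hc r a b)

/-! ### bound of the total statistic -/

theorem norm_stQ_le {η : ℝ → ℝ} {B : ℝ} (hB : ∀ s t, ‖D s none (NUO.pA η t)‖ ≤ B) (a b : ℕ)
    (x : (Fin a → ℝ) × (Fin b → ℝ)) : ‖stQ D η a b x‖ ≤ B * (a + b) := by
  unfold stQ
  refine (norm_add_le _ _).trans ?_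
  have h1 : ‖∑ i, D true none (NUO.pA η (x.1 i))‖ ≤ ∑ _i : Fin a, B :=
    norm_sum_le_of_le _ fun i _ => hB _ _
  have h2 : ‖∑ j, D false none (NUO.pA η (x.2 j))‖ ≤ ∑ _j : Fin b, B :=
    norm_sum_le_of_le _ fun i _ => hB _ _
  simp only [Finset.sum_const, Finset.card_univ, Fintype.card_fin, nsmul_eq_mul] at h1 h2
  linarith

theorem norm_stA_le {r : ℕ} {O : Fin r → Xo} {B : ℝ}
    (hB : ∀ s t, ‖D s none (NUO.pA (η r O) t)‖ ≤ B)
    (hB' : ∀ i, ‖obT D P.jL (ei P O i) (rr P O i) (O i)‖ ≤ B) (a b : ℕ)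
    (x : (Fin a → ℝ) × (Fin b → ℝ)) : ‖stA D P η r O a b x‖ ≤ B * (r + a + b) := by
  unfold stA stO
  refine (norm_add_le _ _).trans ?_
  have h1 : ‖∑ i, obT D P.jL (ei P O i) (rr P O i) (O i)‖ ≤ ∑ _i : Fin r, B :=
    norm_sum_le_of_le _ fun i _ => hB' i
  simp only [Finset.sum_const, Finset.card_univ, Fintype.card_fin, nsmul_eq_mul] at h1
  have h2 := norm_stQ_le hB a b x
  linarith

end one

/-! ### all numbers of quanta -/

section path

variable (Z D : ℕ → Bool → Option O3 → ℂ → ℂ) (P : ℕ → NUO.Par) (N : ℕ) (η η' : ℕ → Crs)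
  (c : ℕ → ℂ)

/-- the family -/
def expN (s : ℂ) : ℕ → Bool → Option O3 → ℂ → ℂ := fun n => expZ (Z n) (D n) s

/-- the total statistic -/
def stN : ℕ → Ins := fun n => stA (D n) (P n) (η n)

theorem expN_zero : expN Z D 0 = Z := by
  funext n
  exact expZ_zero _ _

variable {Z D P N η η' c}

theorem wN_expN (s : ℂ) (x : CfN N) : wN (expN Z D s) P N η η' c x =
    wN Z P N η η' c x * Complex.exp (s * evN (stN D P η) x) := by
  unfold wN expN evN stN
  rw [wC_expZ]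
  ring

/-- **the functional of the family** -/
theorem F_expN (s : ℂ) (O : CfN N → ℂ) : F (mN N) (wN (expN Z D s) P N η η' c) O =
    F (mN N) (wN Z P N η η' c) (fun x => Complex.exp (s * evN (stN D P η) x) * O x) := by
  unfold F
  refine integral_congr_ae (Filter.Eventually.of_forall fun x => ?_)
  simp only [wN_expN]
  ring

/-- data of the path -/
structure PathD (Z D : ℕ → Bool → Option O3 → ℂ → ℂ) (P : ℕ → NUO.Par) (N : ℕ) (η η' : ℕ → Crs)
    (B : ℝ) : Prop where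
  hP : ∀ n ≤ N, ∀ r, Measurable ((P n).rad r)
  hZ : ∀ n ≤ N, ∀ s k, Measurable (Z n s k)
  hD : ∀ n ≤ N, ∀ s k, Measurable (D n s k)
  hc : ∀ n ≤ N, MCr (η n) (η' n)
  B0 : 0 ≤ B
  bq : ∀ n ≤ N, ∀ (r : ℕ) (O : Fin r → Xo) s t, ‖D n s none (NUO.pA (η n r O) t)‖ ≤ B
  bo : ∀ n ≤ N, ∀ (r : ℕ) (O : Fin r → Xo) i,
    ‖obT (D n) (P n).jL (ei (P n) O i) (rr (P n) O i) (O i)‖ ≤ B

variable {B : ℝ}

theorem PathD.mc (h : PathD Z D P N η η' B) (s : ℂ) :
    ∀ n ≤ N, MC (expN Z D s n) (P n) (η n) (η' n) := fun n hn =>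
  MC.of (h.hP n hn) (fun b k => measurable_expZ (h.hZ n hn) (h.hD n hn) s b k) (h.hc n hn)

theorem PathD.mc0 (h : PathD Z D P N η η' B) : ∀ n ≤ N, MC (Z n) (P n) (η n) (η' n) :=
  fun n hn => MC.of (h.hP n hn) (h.hZ n hn) (h.hc n hn)

theorem PathD.mst (h : PathD Z D P N η η' B) : ∀ n ≤ N, MIn (stN D P η n) := fun n hn =>
  MIn_stA (h.hP n hn) (h.hD n hn) (h.hc n hn)

theorem PathD.mA (h : PathD Z D P N η η' B) :
    Measurable (evN (stN D P η) : CfN N → ℂ) := evN_meas h.mst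

theorem PathD.mw (h : PathD Z D P N η η' B) : Measurable (wN Z P N η η' c) := wN_meas h.mc0

/-- the total statistic is bounded -/
theorem PathD.le (h : PathD Z D P N η η' B) (x : CfN N) :
    ‖evN (stN D P η) x‖ ≤ B * (4 * N) := by
  obtain ⟨⟨n, hn⟩, ⟨⟨r, a, b⟩, O, y⟩⟩ := x
  have hn' : n ≤ N := by omega
  have h1 := norm_stA_le (η := η n) (h.bq n hn' r O) (h.bo n hn' r O) a b y
  refine h1.trans (mul_le_mul_of_nonneg_left ?_ h.B0)
  have hr : (r : ℕ) ≤ 2 * N := by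
    have := r.2
    simp only at this
    omega
  have ha : (a : ℕ) ≤ N := by
    have := a.2
    simp only at this
    omega
  have hb : (b : ℕ) ≤ N := by
    have := b.2
    simp only at this
    omega
  have hr' : ((r : ℕ) : ℝ) ≤ 2 * N := by exact_mod_cast hr
  have ha' : ((a : ℕ) : ℝ) ≤ N := by exact_mod_cast ha
  have hb' : ((b : ℕ) : ℝ) ≤ N := by exact_mod_cast hb
  linarith

/-- integrability on the whole path -/
theorem PathD.int_exp (h : PathD Z D P N η η' B) {K : CfN N → ℂ} (hI : WI (mN N) (wN Z P N η η' c) K)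
    (r' : ℝ) : Integrable (fun x => ‖wN Z P N η η' c x‖ *
      Real.exp (r' * ‖evN (stN D P η) x‖) * ‖K x‖) (mN N) := by
  have h1 : Integrable (fun x => ‖wN Z P N η η' c x * K x‖) (mN N) := hI.norm
  have h2 : Measurable fun x : CfN N => Real.exp (r' * ‖evN (stN D P η) x‖) :=
    Real.measurable_exp.comp (h.mA.norm.const_mul _)
  refine (h1.bdd_mul (c := Real.exp (|r'| * (B * (4 * N)))) h2.aestronglyMeasurable
    (Filter.Eventually.of_forall fun x => ?_)).congr (Filter.Eventually.of_forall fun x => ?_)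
  · rw [Real.norm_of_nonneg (Real.exp_pos _).le]
    refine Real.exp_le_exp.2 ?_
    calc r' * ‖evN (stN D P η) x‖ ≤ |r'| * ‖evN (stN D P η) x‖ :=
          mul_le_mul_of_nonneg_right (le_abs_self _) (norm_nonneg _)
      _ ≤ _ := mul_le_mul_of_nonneg_left (h.le x) (abs_nonneg _)
  · simp only [norm_mul]
    ring

/-- **the derivative on the path** -/
theorem PathD.hasDerivAt (h : PathD Z D P N η η' B) {K : CfN N → ℂ} (hK : Measurable K)
    (hI : WI (mN N) (wN Z P N η η' c) K) (s : ℂ) :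
    HasDerivAt (fun s : ℂ => F (mN N) (wN (expN Z D s) P N η η' c) K)
      (F (mN N) (wN (expN Z D s) P N η η' c) (fun x => evN (stN D P η) x * K x)) s := by
  have h1 := hasDerivAt_F (μ := mN N) (w := wN Z P N η η' c) (B := evN (stN D P η)) (K := K)
    (r' := ‖s‖ + 1) (by positivity) (h.mw).aestronglyMeasurable h.mA.aestronglyMeasurable
    hK.aestronglyMeasurable (h.int_exp hI _) (z := s) (by linarith)
  simp only [← F_expN] at h1
  exact h1

theorem PathD.wi (h : PathD Z D P N η η' B) {K : CfN N → ℂ}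
    (hI : WI (mN N) (wN Z P N η η' c) K) (s : ℂ) :
    WI (mN N) (wN (expN Z D s) P N η η' c) K := by
  have h1 : Measurable fun x : CfN N => Complex.exp (s * evN (stN D P η) x) :=
    Complex.measurable_exp.comp (h.mA.const_mul _)
  refine (Integrable.bdd_mul (c := Real.exp (‖s‖ * (B * (4 * N)))) hI h1.aestronglyMeasurable
    (Filter.Eventually.of_forall fun x => ?_)).congr (Filter.Eventually.of_forall fun x => ?_)
  · rw [Complex.norm_exp]
    refine Real.exp_le_exp.2 ((Complex.re_le_norm _).trans ?_)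
    rw [norm_mul]
    exact mul_le_mul_of_nonneg_left (h.le x) (norm_nonneg _)
  · simp only [wN_expN]
    ring

/-- a bounded measurable factor -/
theorem PathD.wiA (h : PathD Z D P N η η' B) {K : CfN N → ℂ}
    (hI : WI (mN N) (wN Z P N η η' c) K) :
    WI (mN N) (wN Z P N η η' c) (fun x => evN (stN D P η) x * K x) := by
  refine (Integrable.bdd_mul (c := B * (4 * N)) hI h.mA.aestronglyMeasurable
    (Filter.Eventually.of_forall fun x => h.le x)).congr (Filter.Eventually.of_forall fun x => ?_)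
  simp only []
  ring

end path

/-! ### masses on the path -/

section geo

variable {Ω : Type*} [MeasurableSpace Ω] {μ : Measure Ω}

/-- **geometric mean of the two ends** -/
theorem lint_geo {w A : Ω → ℂ} {Y : Ω → ℝ≥0∞} {s M0 M1 : ℝ} (h0 : 0 ≤ s) (h1 : s ≤ 1)
    (hM0 : 0 < M0) (hM1 : 0 < M1) (hw : Measurable w) (hY : Measurable Y)
    (b0 : ∫⁻ x, ‖w x‖ₑ * Y x ∂μ ≤ ENNReal.ofReal M0)
    (b1 : ∫⁻ x, ‖w x * Complex.exp (A x)‖ₑ * Y x ∂μ ≤ ENNReal.ofReal M1) :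
    ∫⁻ x, ‖w x * Complex.exp (s * A x)‖ₑ * Y x ∂μ ≤ ENNReal.ofReal (M0 ^ (1 - s) * M1 ^ s) := by
  have hl : 0 < M1 / M0 := div_pos hM1 hM0
  have hs : 0 ≤ (1 - s) * (M1 / M0) ^ s := mul_nonneg (by linarith) (Real.rpow_nonneg hl.le _)
  have hs' : 0 ≤ s * (M1 / M0) ^ (s - 1) := mul_nonneg h0 (Real.rpow_nonneg hl.le _)
  have e : ∀ z : ℂ, ‖Complex.exp z‖ₑ = ENNReal.ofReal (Real.exp z.re) := by
    intro z
    rw [← ofReal_norm, Complex.norm_exp]
  have hp : ∀ x, ‖w x * Complex.exp (s * A x)‖ₑ * Y x ≤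
      ENNReal.ofReal ((1 - s) * (M1 / M0) ^ s) * (‖w x‖ₑ * Y x) +
        ENNReal.ofReal (s * (M1 / M0) ^ (s - 1)) * (‖w x * Complex.exp (A x)‖ₑ * Y x) := by
    intro x
    rw [enorm_mul, enorm_mul, e, e]
    have h2 : ((s : ℂ) * A x).re = s * (A x).re := by simp
    rw [h2]
    have h3 := exp_interp (x := (A x).re) h0 h1 hl
    have h4 : ENNReal.ofReal (Real.exp (s * (A x).re)) ≤
        ENNReal.ofReal ((1 - s) * (M1 / M0) ^ s) +
          ENNReal.ofReal (s * (M1 / M0) ^ (s - 1)) * ENNReal.ofReal (Real.exp (A x).re) := by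
      rw [← ENNReal.ofReal_mul hs', ← ENNReal.ofReal_add hs
        (mul_nonneg hs' (Real.exp_pos _).le)]
      exact ENNReal.ofReal_le_ofReal h3
    calc ‖w x‖ₑ * ENNReal.ofReal (Real.exp (s * (A x).re)) * Y x
        ≤ ‖w x‖ₑ * (ENNReal.ofReal ((1 - s) * (M1 / M0) ^ s) +
          ENNReal.ofReal (s * (M1 / M0) ^ (s - 1)) * ENNReal.ofReal (Real.exp (A x).re)) * Y x := by
          gcongr
      _ = _ := by ring
  have m1 : Measurable fun x => ‖w x‖ₑ * Y x := hw.enorm.mul hY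
  calc ∫⁻ x, ‖w x * Complex.exp (s * A x)‖ₑ * Y x ∂μ
      ≤ ∫⁻ x, (ENNReal.ofReal ((1 - s) * (M1 / M0) ^ s) * (‖w x‖ₑ * Y x) +
        ENNReal.ofReal (s * (M1 / M0) ^ (s - 1)) * (‖w x * Complex.exp (A x)‖ₑ * Y x)) ∂μ :=
        lintegral_mono hp
    _ = ENNReal.ofReal ((1 - s) * (M1 / M0) ^ s) * ∫⁻ x, ‖w x‖ₑ * Y x ∂μ +
        ENNReal.ofReal (s * (M1 / M0) ^ (s - 1)) *
          ∫⁻ x, ‖w x * Complex.exp (A x)‖ₑ * Y x ∂μ := by
        rw [lintegral_add_left (m1.const_mul _), lintegral_const_mul' _ _ ENNReal.ofReal_ne_top,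
          lintegral_const_mul' _ _ ENNReal.ofReal_ne_top]
    _ ≤ ENNReal.ofReal ((1 - s) * (M1 / M0) ^ s) * ENNReal.ofReal M0 +
        ENNReal.ofReal (s * (M1 / M0) ^ (s - 1)) * ENNReal.ofReal M1 := by gcongr
    _ = ENNReal.ofReal (M0 ^ (1 - s) * M1 ^ s) := by
        rw [← ENNReal.ofReal_mul hs, ← ENNReal.ofReal_mul hs', ← ENNReal.ofReal_add
          (mul_nonneg hs hM0.le) (mul_nonneg hs' hM1.le)]
        congr 1
        have e1 : (M1 / M0) ^ (s - 1) * M1 = (M1 / M0) ^ s * M0 := by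
          rw [Real.rpow_sub_one hl.ne']
          field_simp
        have e2 : (M1 / M0) ^ s * M0 = M0 ^ (1 - s) * M1 ^ s := by
          rw [Real.div_rpow hM1.le hM0.le, Real.rpow_sub hM0, Real.rpow_one]
          field_simp
        calc (1 - s) * (M1 / M0) ^ s * M0 + s * (M1 / M0) ^ (s - 1) * M1
            = (1 - s) * ((M1 / M0) ^ s * M0) + s * ((M1 / M0) ^ (s - 1) * M1) := by ring
          _ = (M1 / M0) ^ s * M0 := by rw [e1]; ring
          _ = _ := e2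

end geo

section mass

variable {Z D : ℕ → Bool → Option O3 → ℂ → ℂ} {P : ℕ → NUO.Par} {N : ℕ} {η η' : ℕ → Crs}
  {c : ℕ → ℂ} {B : ℝ}

/-- **masses of the family**: insertions `Y ≥ 0` on the configuration space -/
theorem UN_geo (h : PathD Z D P N η η' B) {Y : CfN N → ℝ≥0∞} (hY : Measurable Y)
    {s M0 M1 : ℝ} (h0 : 0 ≤ s) (h1 : s ≤ 1) (hM0 : 0 < M0) (hM1 : 0 < M1)
    (b0 : ∫⁻ x, ‖wN Z P N η η' c x‖ₑ * Y x ∂(mN N) ≤ ENNReal.ofReal M0)
    (b1 : ∫⁻ x, ‖wN (expN Z D 1) P N η η' c x‖ₑ * Y x ∂(mN N) ≤ ENNReal.ofReal M1) :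
    ∫⁻ x, ‖wN (expN Z D s) P N η η' c x‖ₑ * Y x ∂(mN N) ≤
      ENNReal.ofReal (M0 ^ (1 - s) * M1 ^ s) := by
  have e1 : ∀ s : ℂ, ∀ x, ‖wN (expN Z D s) P N η η' c x‖ₑ * Y x =
      ‖wN Z P N η η' c x * Complex.exp (s * evN (stN D P η) x)‖ₑ * Y x := fun s x => by
    rw [wN_expN]
  simp only [e1] at b1 ⊢
  simp only [one_mul] at b1
  exact lint_geo h0 h1 hM0 hM1 h.mw hY b0 b1

/-- the same for the functional with moduli `FAN` -/
theorem FAN_geo (h : PathD Z D P N η η' B) {Ψ : ℕ → Ins} (hΨ : ∀ n ≤ N, MIn (Ψ n))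
    {s M0 M1 : ℝ} (h0 : 0 ≤ s) (h1 : s ≤ 1) (hM0 : 0 < M0) (hM1 : 0 < M1)
    (b0 : FAN Z P N η η' c Ψ ≤ ENNReal.ofReal M0)
    (b1 : FAN (expN Z D 1) P N η η' c Ψ ≤ ENNReal.ofReal M1) :
    FAN (expN Z D s) P N η η' c Ψ ≤ ENNReal.ofReal (M0 ^ (1 - s) * M1 ^ s) := by
  rw [FAN_eq h.mc0 hΨ] at b0
  rw [FAN_eq (h.mc 1) hΨ] at b1
  rw [FAN_eq (h.mc s) hΨ]
  exact UN_geo h (evN_meas hΨ).enorm h0 h1 hM0 hM1 b0 b1

end mass

/-! ### the normalised functional -/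

section nrm

variable {Z D : ℕ → Bool → Option O3 → ℂ → ℂ} {P : ℕ → NUO.Par} {N : ℕ} {η η' : ℕ → Crs}
  {c : ℕ → ℂ} {B : ℝ}

variable (Z D P N η η' c) in
/-- the normalised functional on the path -/
def nF (ν0 κ0 : ℂ) (s : ℝ) : ℂ :=
  ν0 * Complex.exp (-(s * κ0)) * F (mN N) (wN (expN Z D s) P N η η' c) (fun _ => 1)

variable (Z D P N η η' c) in
/-- its derivative -/
def nF' (ν0 κ0 : ℂ) (s : ℝ) : ℂ :=
  ν0 * Complex.exp (-(s * κ0)) * (F (mN N) (wN (expN Z D s) P N η η' c) (evN (stN D P η)) -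
    κ0 * F (mN N) (wN (expN Z D s) P N η η' c) (fun _ => 1))

theorem hasDerivAt_nF (h : PathD Z D P N η η' B) (hI : WI (mN N) (wN Z P N η η' c) (fun _ => 1))
    (ν0 κ0 : ℂ) (s : ℝ) :
    HasDerivAt (nF Z D P N η η' c ν0 κ0) (nF' Z D P N η η' c ν0 κ0 s) s := by
  have h1 := (h.hasDerivAt measurable_const hI (s : ℂ)).comp_ofReal
  simp only [mul_one] at h1
  have h2 : HasDerivAt (fun s : ℝ => ν0 * Complex.exp (-(s * κ0)))
      (ν0 * (Complex.exp (-(s * κ0)) * -κ0)) s := by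
    have h3 : HasDerivAt (fun s : ℂ => -(s * κ0)) (-(1 * κ0)) (s : ℂ) :=
      ((hasDerivAt_id (s : ℂ)).mul_const κ0).neg
    rw [one_mul] at h3
    exact (h3.cexp.const_mul ν0).comp_ofReal
  refine (h2.mul h1).congr_deriv ?_
  unfold nF'
  ring

/-- **error on the path**: `Y j` nonnegative insertions on the configuration space -/
theorem nF_err (h : PathD Z D P N η η' B) {ι : Type*} (J : Finset ι) {Y : ι → CfN N → ℝ≥0∞}
    (hY : ∀ j ∈ J, Measurable (Y j)) {ν0 κ0 p q : ℂ} {s : ℝ} (h0 : 0 ≤ s) (h1 : s ≤ 1)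
    {E : ι → ℝ} {μ0 μ1 : ℝ} (hμ0 : 0 < μ0) (hμ1 : 0 < μ1) (hE : ∀ j ∈ J, 0 < E j) (hν : ν0 ≠ 0)
    (b0 : ∀ j ∈ J, ENNReal.ofReal ‖ν0‖ * ∫⁻ x, ‖wN Z P N η η' c x‖ₑ * Y j x ∂(mN N) ≤
      ENNReal.ofReal (E j * μ0))
    (b1 : ∀ j ∈ J, ENNReal.ofReal (‖ν0‖ * Real.exp (-κ0.re)) *
      ∫⁻ x, ‖wN (expN Z D 1) P N η η' c x‖ₑ * Y j x ∂(mN N) ≤ ENNReal.ofReal (E j * μ1))
    (hm : ENNReal.ofReal ‖F (mN N) (wN (expN Z D s) P N η η' c) (evN (stN D P η)) -
      (κ0 + s * q + p) * F (mN N) (wN (expN Z D s) P N η η' c) (fun _ => 1)‖ ≤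
      ∑ j ∈ J, ∫⁻ x, ‖wN (expN Z D s) P N η η' c x‖ₑ * Y j x ∂(mN N)) :
    ‖nF' Z D P N η η' c ν0 κ0 s - (s * q + p) * nF Z D P N η η' c ν0 κ0 s‖ ≤
      (∑ j ∈ J, E j) * (μ0 ^ (1 - s) * μ1 ^ s) := by
  have hn : 0 < ‖ν0‖ := norm_pos_iff.2 hν
  have he := Real.exp_pos (-κ0.re)
  have hb : ∀ j ∈ J, ∫⁻ x, ‖wN (expN Z D s) P N η η' c x‖ₑ * Y j x ∂(mN N) ≤
      ENNReal.ofReal ((‖ν0‖ * Real.exp (-(s * κ0.re)))⁻¹ * (E j * (μ0 ^ (1 - s) * μ1 ^ s))) := by
    intro j hj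
    have hEj := hE j hj
    have c0 : ∫⁻ x, ‖wN Z P N η η' c x‖ₑ * Y j x ∂(mN N) ≤
        ENNReal.ofReal (‖ν0‖⁻¹ * (E j * μ0)) := by
      rw [ENNReal.ofReal_mul (inv_nonneg.2 hn.le), ENNReal.ofReal_inv_of_pos hn]
      calc ∫⁻ x, ‖wN Z P N η η' c x‖ₑ * Y j x ∂(mN N)
          = (ENNReal.ofReal ‖ν0‖)⁻¹ * (ENNReal.ofReal ‖ν0‖ *
            ∫⁻ x, ‖wN Z P N η η' c x‖ₑ * Y j x ∂(mN N)) := by
            rw [← mul_assoc, ENNReal.inv_mul_cancel (ENNReal.ofReal_pos.2 hn).ne'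
              ENNReal.ofReal_ne_top, one_mul]
        _ ≤ _ := mul_le_mul' le_rfl (b0 j hj)
    have hn1 : 0 < ‖ν0‖ * Real.exp (-κ0.re) := by positivity
    have c1 : ∫⁻ x, ‖wN (expN Z D 1) P N η η' c x‖ₑ * Y j x ∂(mN N) ≤
        ENNReal.ofReal ((‖ν0‖ * Real.exp (-κ0.re))⁻¹ * (E j * μ1)) := by
      rw [ENNReal.ofReal_mul (inv_nonneg.2 hn1.le), ENNReal.ofReal_inv_of_pos hn1]
      calc ∫⁻ x, ‖wN (expN Z D 1) P N η η' c x‖ₑ * Y j x ∂(mN N)
          = (ENNReal.ofReal (‖ν0‖ * Real.exp (-κ0.re)))⁻¹ *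
            (ENNReal.ofReal (‖ν0‖ * Real.exp (-κ0.re)) *
            ∫⁻ x, ‖wN (expN Z D 1) P N η η' c x‖ₑ * Y j x ∂(mN N)) := by
            rw [← mul_assoc, ENNReal.inv_mul_cancel (ENNReal.ofReal_pos.2 hn1).ne'
              ENNReal.ofReal_ne_top, one_mul]
        _ ≤ _ := mul_le_mul' le_rfl (b1 j hj)
    have := UN_geo h (hY j hj) h0 h1 (by positivity) (by positivity) c0 c1
    refine this.trans (le_of_eq ?_)
    congr 1
    have e1 : ∀ x y t : ℝ, 0 < x → 0 < y → (x * y) ^ t = x ^ t * y ^ t := fun x y t hx hy =>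
      Real.mul_rpow hx.le hy.le
    rw [e1 _ _ _ (inv_pos.2 hn) (by positivity), e1 _ _ _ hEj hμ0,
      e1 _ _ _ (inv_pos.2 hn1) (by positivity), e1 _ _ _ hEj hμ1, Real.inv_rpow hn.le,
      Real.inv_rpow hn1.le, e1 _ _ _ hn he]
    have e2 : Real.exp (-κ0.re) ^ s = Real.exp (-(s * κ0.re)) := by
      rw [← Real.exp_mul]
      congr 1
      ring
    have e3 : ‖ν0‖ ^ (1 - s) * ‖ν0‖ ^ s = ‖ν0‖ := by
      rw [← Real.rpow_add hn]
      simp
    have e4 : E j ^ (1 - s) * E j ^ s = E j := by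
      rw [← Real.rpow_add hEj]
      simp
    rw [e2, mul_inv, mul_inv]
    calc (‖ν0‖ ^ (1 - s))⁻¹ * (E j ^ (1 - s) * μ0 ^ (1 - s)) *
          ((‖ν0‖ ^ s)⁻¹ * (Real.exp (-(s * κ0.re)))⁻¹ * (E j ^ s * μ1 ^ s))
        = (‖ν0‖ ^ (1 - s) * ‖ν0‖ ^ s)⁻¹ * (Real.exp (-(s * κ0.re)))⁻¹ *
          ((E j ^ (1 - s) * E j ^ s) * (μ0 ^ (1 - s) * μ1 ^ s)) := by
          rw [mul_inv]
          ring
      _ = _ := by rw [e3, e4]
  have hx : 0 ≤ μ0 ^ (1 - s) * μ1 ^ s :=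
    mul_nonneg (Real.rpow_nonneg hμ0.le _) (Real.rpow_nonneg hμ1.le _)
  have hpos : 0 < ‖ν0‖ * Real.exp (-(s * κ0.re)) := by positivity
  have hm2 : ‖F (mN N) (wN (expN Z D s) P N η η' c) (evN (stN D P η)) -
      (κ0 + s * q + p) * F (mN N) (wN (expN Z D s) P N η η' c) (fun _ => 1)‖ ≤
      (‖ν0‖ * Real.exp (-(s * κ0.re)))⁻¹ * ((∑ j ∈ J, E j) * (μ0 ^ (1 - s) * μ1 ^ s)) := by
    have h2 := hm.trans (Finset.sum_le_sum hb)
    rw [← ENNReal.ofReal_sum_of_nonneg (fun j hj => by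
      have := hE j hj
      positivity)] at h2
    have h3 : ∑ j ∈ J, (‖ν0‖ * Real.exp (-(s * κ0.re)))⁻¹ * (E j * (μ0 ^ (1 - s) * μ1 ^ s)) =
        (‖ν0‖ * Real.exp (-(s * κ0.re)))⁻¹ * ((∑ j ∈ J, E j) * (μ0 ^ (1 - s) * μ1 ^ s)) := by
      rw [← Finset.mul_sum, ← Finset.sum_mul]
    rw [h3] at h2
    refine (ENNReal.ofReal_le_ofReal_iff ?_).1 h2
    have : 0 ≤ ∑ j ∈ J, E j := Finset.sum_nonneg fun j hj => (hE j hj).le
    positivity
  have e5 : nF' Z D P N η η' c ν0 κ0 s - (s * q + p) * nF Z D P N η η' c ν0 κ0 s =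
      ν0 * Complex.exp (-(s * κ0)) *
        (F (mN N) (wN (expN Z D s) P N η η' c) (evN (stN D P η)) -
      (κ0 + s * q + p) * F (mN N) (wN (expN Z D s) P N η η' c) (fun _ => 1)) := by
    unfold nF' nF
    ring
  have e6 : ‖Complex.exp (-(s * κ0))‖ = Real.exp (-(s * κ0.re)) := by
    rw [Complex.norm_exp]
    simp
  rw [e5, norm_mul, norm_mul, e6]
  calc _ ≤ ‖ν0‖ * Real.exp (-(s * κ0.re)) * ((‖ν0‖ * Real.exp (-(s * κ0.re)))⁻¹ *
        ((∑ j ∈ J, E j) * (μ0 ^ (1 - s) * μ1 ^ s))) := mul_le_mul_of_nonneg_left hm2 hpos.le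
    _ = _ := by rw [← mul_assoc, mul_inv_cancel₀ hpos.ne', one_mul]

end nrm

end PBF

end
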