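import Pool.Agent.PB.RepT
import Pool.Agent.PB.RepA
import Pool.Agent.PB.RepM
import Pool.Agent.PB.EInst2
import Pool.Agent.PB.ObRep

/-!
# Plan B: the channels of the quanta in the first Ward identity (helper15)

* `qK ε g`: one body function on the quanta, `ε s * g (height)`;
* `RhoK ρ ρ0`: the density of both species is `ρ0`, no objects;
* `VC_p`, `VC_m`: `VC = Vp + VO`, `VC = Vm + VO`;
* `adS_q`: admissible statistics from test functions;
* `kQ ε K`: the kernel `2 ε_b ε_c K (height) (height)` on pairs of quanta; **`chn_q`**: its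
  representation;
* `obs_p`, `obs_m`: the statistics are `Obs`.
-/

set_option autoImplicit false
set_option linter.unusedSectionVars false
set_option maxHeartbeats 1000000

noncomputable section

open Complex MeasureTheory Finset
open scoped ENNReal Classical

namespace PBRep

open NUP1 hiding Kd
open NUO NUP1S NUP1S.Ab NUP1S.AbC PBF PBFunc PB
open PBI (Stt Kd F0 F0Ok fl nuI nuQI mnI InD PAll F0_rep nuI_eq)

variable {Z : Stt} {P : NUO.Par} {x0 κ κ' δ : ℝ} {N : ℕ} {η η' : ℕ → Crs} {c : ℕ → ℂ}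

/-- one body function on the quanta -/
def qK (ε : Bool → ℂ) (g : ℂ → ℂ) : Kd → ℂ → ℂ := fun b z => qD ε g b.1 b.2 z

theorem sK_qK (ε : Bool → ℂ) (g : ℂ → ℂ) : sK (qK ε g) = qD ε g := rfl

/-- density of both species -/
structure RhoK (ρ : Kd → ℝ → ℂ) (ρ0 : ℝ → ℂ) : Prop where
  q : ∀ s u, ρ (s, none) u = ρ0 u
  o : ∀ s k u, ρ (s, some k) u = 0
  i : Integrable ρ0

theorem RhoK.int {ρ : Kd → ℝ → ℂ} {ρ0 : ℝ → ℂ} (h : RhoK ρ ρ0) : ∀ b, Integrable (ρ b) := by
  rintro ⟨s, k⟩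
  cases k with
  | none =>
    have e : ρ (s, none) = ρ0 := funext (h.q s)
    rw [e]
    exact h.i
  | some k =>
    have e : ρ (s, some k) = fun _ => 0 := funext (h.o s k)
    rw [e]
    exact integrable_zero _ _ _

theorem sum_Kd {f : Kd → ℂ} (h : ∀ s k, f (s, some k) = 0) :
    ∑ b, f b = f (true, none) + f (false, none) := by
  rw [Fintype.sum_prod_type, Fintype.sum_bool]
  simp only [Fintype.sum_option, h, Finset.sum_const_zero, add_zero]

theorem mnI_q {ρ : Kd → ℝ → ℂ} {ρ0 : ℝ → ℂ} (h : RhoK ρ ρ0) (ε : Bool → ℂ) (g : ℂ → ℂ) :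
    mnI ρ (qK ε g) = (ε true + ε false) * ∫ u : ℝ, ρ0 u * g u := by
  unfold mnI NX.mn
  rw [sum_Kd (f := fun b => ∫ u, ρ b u * qK ε g b (vl l u)) fun s k => by simp [h.o]]
  have e : ∀ s, ∫ u, ρ (s, none) u * qK ε g (s, none) (vl l u) = ε s * ∫ u : ℝ, ρ0 u * g u := by
    intro s
    rw [← integral_const_mul]
    refine integral_congr_ae (Filter.Eventually.of_forall fun u => ?_)
    simp only [qK, qD, h.q, hgt_line]
    ring
  rw [e, e]
  ring

theorem mnI_p {ρ : Kd → ℝ → ℂ} {ρ0 : ℝ → ℂ} (h : RhoK ρ ρ0) (g : ℂ → ℂ) :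
    mnI ρ (qK eP g) = 2 * ∫ u : ℝ, ρ0 u * g u := by
  rw [mnI_q h]
  simp only [eP]
  norm_num

theorem mnI_m {ρ : Kd → ℝ → ℂ} {ρ0 : ℝ → ℂ} (h : RhoK ρ ρ0) (g : ℂ → ℂ) :
    mnI ρ (qK eM g) = 0 := by
  rw [mnI_q h]
  simp [eM]

/-- **plus channel** -/
theorem VC_p {ρ : Kd → ℝ → ℂ} {ρ0 : ℝ → ℂ} (h : RhoK ρ ρ0) (g : ℂ → ℂ) (ω : CfN N) :
    VC ρ P η (qK eP g) ω = Vp ρ0 η g ω + VO (qD eP g) P ω := by
  unfold VC Vp
  rw [mnI_p h, sK_qK, VA_eq]
  ring

/-- **minus channel** -/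
theorem VC_m {ρ : Kd → ℝ → ℂ} {ρ0 : ℝ → ℂ} (h : RhoK ρ ρ0) (g : ℂ → ℂ) (ω : CfN N) :
    VC ρ P η (qK eM g) ω = Vm η g ω + VO (qD eM g) P ω := by
  unfold VC Vm
  rw [mnI_m h, sK_qK, VA_eq]
  ring

/-! ### admissible statistics -/

theorem hgt_mem {z : ℂ} (h1 : 11 / 20 * l < z.re) (h2 : z.re < 11 / 10 * l) :
    hgt z ∈ PBE.Sp (-(l / 10)) (9 / 20 * l) := by
  constructor
  · rw [hgt_im]
    linarith
  · rw [hgt_im]
    linarith

theorem measurable_hgt : Measurable hgt := by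
  unfold hgt
  fun_prop

theorem diff_hgt (z : ℂ) : DifferentiableAt ℂ hgt z := by
  unfold hgt
  fun_prop

theorem qD_meas {ε : Bool → ℂ} {g : ℂ → ℂ} (hg : Measurable g) (s : Bool) (k : Option O3) :
    Measurable (qD ε g s k) := by
  cases k with
  | none =>
    have := (hg.comp measurable_hgt).const_mul (ε s)
    exact this
  | some k => exact measurable_const

/-- **admissible statistics from test functions** -/
theorem adS_q {ε : Bool → ℂ} (hε : ∀ s, ‖ε s‖ ≤ 1) {g : ℂ → ℂ} {a M : ℝ} (ha : 0 ≤ a)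
    (hM : 0 ≤ M) (hg : PBE.TC (-(l / 10)) (9 / 20 * l) a M g) (mg : Measurable g)
    (hx : 11 / 20 * l < x0) (hδ : δ < 1 / 10) : AdS P x0 δ (qD ε g) := by
  have hl := Bd.l_pos
  have hmem : ∀ u : ℂ, x0 ≤ u.re → u.re ≤ (1 + δ) * l → hgt u ∈ PBE.Sp (-(l / 10)) (9 / 20 * l) :=
    fun u h1 h2 => hgt_mem (by linarith) (by nlinarith)
  refine ⟨M, qD_meas mg, fun s u h1 h2 => ?_, fun s u h1 h2 => ?_, ?_, ?_, ?_⟩
  · have h3 : DifferentiableAt ℂ g (hgt u) :=
      hg.an.differentiableAt ((PBEI.Sp_open _ _).mem_nhds (hmem u h1 h2))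
    exact (h3.comp u (diff_hgt u)).const_mul (ε s)
  · show ‖ε s * g (hgt u)‖ ≤ M
    rw [norm_mul]
    have h3 := hg.bd _ (hmem u h1 h2)
    have h4 : Real.exp (-(a * |(hgt u).re|)) ≤ 1 :=
      Real.exp_le_one_iff.2 (neg_nonpos.2 (mul_nonneg ha (abs_nonneg _)))
    calc ‖ε s‖ * ‖g (hgt u)‖ ≤ 1 * (M * 1) :=
          mul_le_mul (hε s) (h3.trans (mul_le_mul_of_nonneg_left h4 hM)) (norm_nonneg _)
            zero_le_one
      _ = M := by ring
  · intro s u _
    show ‖(0 : ℂ)‖ ≤ M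
    rwa [norm_zero]
  · intro s u _
    show ‖(0 : ℂ)‖ ≤ M
    rwa [norm_zero]
  · intro s r e u _ _ _
    show ‖(0 : ℂ)‖ ≤ M
    rwa [norm_zero]

theorem eP_le (s : Bool) : ‖eP s‖ ≤ 1 := by simp [eP]

theorem eM_le (s : Bool) : ‖eM s‖ ≤ 1 := by cases s <;> simp [eM]

/-! ### the satellites -/

/-- **the satellites are pinned** -/
theorem pinO_VO (hG : GoodQ P x0) (hx : 11 / 20 * l < x0) (hP : ∀ r, Measurable (P.rad r))
    {ε : Bool → ℂ} (hε : ∀ s, ‖ε s‖ ≤ 1) {g : ℂ → ℂ} {a M : ℝ} (ha0 : 0 ≤ a) (ha : a ≤ 2)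
    (hM : 0 ≤ M) (hg : PBE.TC (-(l / 10)) (9 / 20 * l) a M g) (mg : Measurable g) :
    PinO (mN N) (pinN a) (VO (N := N) (qD ε g) P) (40 * M) := by
  have hl := Bd.l_pos
  refine ⟨?_, by positivity, fun ω => ?_⟩
  · have h1 := evN_stO_s (T := Unit) (D := fun _ => qD ε g)
      (fun s k => (qD_meas mg s k).comp measurable_snd) (N := N) (P := fun _ => P)
      (fun _ _ => hP)
    have h2 : Measurable fun ω : CfN N => ((), ω) := measurable_const.prodMk measurable_id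
    exact (h1.comp h2).aestronglyMeasurable
  · refine stO_le hG hM ha0 ha ω.2.2.1 ?_ ?_ ?_ ?_
    · intro s t
      show ‖(0 : ℂ)‖ ≤ _
      rw [norm_zero]
      positivity
    · intro s t
      show ‖(0 : ℂ)‖ ≤ _
      rw [norm_zero]
      positivity
    · intro s i t
      show ‖(0 : ℂ)‖ ≤ _
      rw [norm_zero]
      positivity
    · intro s z h1 h2
      show ‖ε s * g (hgt z)‖ ≤ _
      rw [norm_mul]
      have h3 := hg.bd _ (hgt_mem (z := z) (by linarith) (by linarith))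
      rw [hgt_re] at h3
      calc ‖ε s‖ * ‖g (hgt z)‖ ≤ 1 * (M * Real.exp (-(a * |z.im|))) :=
            mul_le_mul (hε s) h3 (norm_nonneg _) zero_le_one
        _ = _ := by ring

theorem Vp_meas {ρ0 : ℝ → ℂ} (hc : ∀ n ≤ N, MCr (η n) (η' n)) {g : ℂ → ℂ} (mg : Measurable g) :
    AEStronglyMeasurable (Vp ρ0 η g : CfN N → ℂ) (mN N) := by
  have h1 := evN_stQ_s (T := Unit) (D := fun _ => qD eP g)
    (fun s k => (qD_meas mg s k).comp measurable_snd) (N := N) hc
  have h2 : Measurable fun ω : CfN N => ((), ω) := measurable_const.prodMk measurable_id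
  exact ((h1.comp h2).sub_const _).aestronglyMeasurable

theorem Vm_meas (hc : ∀ n ≤ N, MCr (η n) (η' n)) {g : ℂ → ℂ} (mg : Measurable g) :
    AEStronglyMeasurable (Vm η g : CfN N → ℂ) (mN N) := by
  have h1 := evN_stQ_s (T := Unit) (D := fun _ => qD eM g)
    (fun s k => (qD_meas mg s k).comp measurable_snd) (N := N) hc
  have h2 : Measurable fun ω : CfN N => ((), ω) := measurable_const.prodMk measurable_id
  exact (h1.comp h2).aestronglyMeasurable

/-- **the statistic of all constituents, plus channel** -/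
theorem obs_p (hG : GoodQ P x0) (hx : 11 / 20 * l < x0) (hP : ∀ r, Measurable (P.rad r))
    (hc : ∀ n ≤ N, MCr (η n) (η' n)) {ρ : Kd → ℝ → ℂ} {ρ0 : ℝ → ℂ} (hρ : RhoK ρ ρ0)
    {g : ℂ → ℂ} {a M : ℝ} (ha0 : 0 ≤ a) (ha : a ≤ 2) (hM : 0 ≤ M)
    (hg : PBE.TC (-(l / 10)) (9 / 20 * l) a M g) (mg : Measurable g) :
    Obs (-(l / 10)) (9 / 20 * l) a (mN N) (Vp ρ0 η) (pinN a) 40 (VC ρ P η (qK eP g)) g M where
  tc := hg
  m := Vp_meas hc mg
  O := by
    have e : (fun ω : CfN N => VC ρ P η (qK eP g) ω - Vp ρ0 η g ω) = VO (qD eP g) P := by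
      funext ω
      rw [VC_p hρ]
      ring
    rw [e]
    exact pinO_VO hG hx hP eP_le ha0 ha hM hg mg

/-- **the statistic of all constituents, minus channel** -/
theorem obs_m (hG : GoodQ P x0) (hx : 11 / 20 * l < x0) (hP : ∀ r, Measurable (P.rad r))
    (hc : ∀ n ≤ N, MCr (η n) (η' n)) {ρ : Kd → ℝ → ℂ} {ρ0 : ℝ → ℂ} (hρ : RhoK ρ ρ0)
    {g : ℂ → ℂ} {a M : ℝ} (ha0 : 0 ≤ a) (ha : a ≤ 2) (hM : 0 ≤ M)
    (hg : PBE.TC (-(l / 10)) (9 / 20 * l) a M g) (mg : Measurable g) :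
    Obs (-(l / 10)) (9 / 20 * l) a (mN N) (Vm η) (pinN a) 40 (VC ρ P η (qK eM g)) g M where
  tc := hg
  m := Vm_meas hc mg
  O := by
    have e : (fun ω : CfN N => VC ρ P η (qK eM g) ω - Vm η g ω) = VO (qD eM g) P := by
      funext ω
      rw [VC_m hρ]
      ring
    rw [e]
    exact pinO_VO hG hx hP eM_le ha0 ha hM hg mg

/-! ### the kernels of the quanta -/

/-- the kernel on pairs of quanta -/
def kQ (ε : Bool → ℂ) (K : ℂ → ℂ → ℂ) : Kd → Kd → ℂ → ℂ → ℂ := fun b c z w =>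
  if b.2 = none ∧ c.2 = none then 2 * (ε b.1 * ε c.1) * K (hgt z) (hgt w) else 0

/-- the domain -/
structure DOk (D : Kd → Set ℂ) : Prop where
  q : ∀ b, D b ⊆ PBOb.DQ b
  n : ∀ s, D (s, none) ⊆ {z | 11 / 20 * l < z.re ∧ z.re < 11 / 10 * l}
  ln : ∀ s u, vl l u ∈ D (s, none)

theorem DOk.he {D : Kd → Set ℂ} (h : DOk D) {ρ : Kd → ℝ → ℂ} {ρ0 : ℝ → ℂ} (hρ : RhoK ρ ρ0) :
    ∀ b u, ρ b u ≠ 0 → vl l u ∈ D b := by
  rintro ⟨s, k⟩ u hu
  cases k with
  | none => exact h.ln s u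
  | some k => exact absurd (hρ.o s k u) hu

theorem qK_none (ε : Bool → ℂ) (g : ℂ → ℂ) {b : Kd} (hb : b.2 = none) (z : ℂ) :
    qK ε g b z = ε b.1 * g (hgt z) := by
  obtain ⟨s, k⟩ := b
  simp only at hb
  subst hb
  rfl

theorem qK_some (ε : Bool → ℂ) (g : ℂ → ℂ) {b : Kd} (hb : b.2 ≠ none) (z : ℂ) :
    qK ε g b z = 0 := by
  obtain ⟨s, k⟩ := b
  cases k with
  | none => exact absurd rfl hb
  | some k => rfl

theorem qK_meas {T : Type*} [MeasurableSpace T] (ε : Bool → ℂ) {A : T → ℂ → ℂ}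
    (mA : Measurable fun p : T × ℂ => A p.1 p.2) (b : Kd) :
    Measurable fun p : T × ℂ => qK ε (A p.1) b p.2 := by
  obtain ⟨s, k⟩ := b
  cases k with
  | none =>
    have h1 : Measurable fun p : T × ℂ => (p.1, hgt p.2) :=
      measurable_fst.prodMk (measurable_hgt.comp measurable_snd)
    exact (mA.comp h1).const_mul (ε s)
  | some k => exact measurable_const

section chn

variable {T : Type*} [MeasurableSpace T] {μ : Measure T} [SFinite μ]

/-- **representation of the kernel of the quanta** -/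
theorem chn_q {ε : Bool → ℂ} (hε : ∀ s, ‖ε s‖ ≤ 1) {D : Kd → Set ℂ} (hD : DOk D)
    {ρ : Kd → ℝ → ℂ} {ρ0 : ℝ → ℂ} (hρ : RhoK ρ ρ0) {K : ℂ → ℂ → ℂ} {A B : T → ℂ → ℂ}
    {al be : T → ℝ} {a : ℝ} (ha : 0 ≤ a) (hx : 11 / 20 * l < x0) (hδ : δ < 1 / 10)
    (hR : PBE.Rep (-(l / 10)) (9 / 20 * l) a μ A B al be)
    (hK : ∀ z ∈ PBE.Sp (-(l / 10)) (9 / 20 * l), ∀ w ∈ PBE.Sp (-(l / 10)) (9 / 20 * l),
      K z w = ∫ q, A q z * B q w ∂μ)
    (hs : ∀ z w, K z w = K w z) (mK : Measurable fun p : ℂ × ℂ => K p.1 p.2)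
    (mA : Measurable fun p : T × ℂ => A p.1 p.2) (mB : Measurable fun p : T × ℂ => B p.1 p.2)
    (hd : ∀ n ≤ N, PBI.AllW x0 n n (fl P) fun c x => ∀ i, ∀ t : ℝ, vl (x i) t ∈ D (c i)) :
    Chn P x0 δ N μ D ρ (kQ ε K) (fun q => qK ε (A q)) (fun q => qK ε fun z => 2 * B q z) al
      (fun q => 2 * be q) (fun _ z => Real.exp (-(a * |z.im|)))
      (fun _ z => Real.exp (-(a * |z.im|))) := by
  have hl := Bd.l_pos
  have y1 : -(l / 10) < 0 := by linarith
  have y2 : 0 < 9 / 20 * l := by linarith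
  have a0 : ∀ q, 0 ≤ al q := fun q => (hR.tA q).nonneg y1 y2
  have b0 : ∀ q, 0 ≤ be q := fun q => (hR.tB q).nonneg y1 y2
  have mB2 : Measurable fun p : T × ℂ => 2 * B p.1 p.2 := mB.const_mul 2
  have mA1 : ∀ q, Measurable (A q) := fun q => mA.comp (measurable_const.prodMk measurable_id)
  have mB1 : ∀ q, Measurable fun z => 2 * B q z := fun q =>
    mB2.comp (measurable_const.prodMk measurable_id)
  have tB2 : ∀ q, PBE.TC (-(l / 10)) (9 / 20 * l) a (2 * be q) (fun z => 2 * B q z) := by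
    intro q
    refine ⟨(hR.tB q).an.const_mul 2, fun z hz => ?_⟩
    rw [norm_mul, Complex.norm_ofNat]
    have := (hR.tB q).bd z hz
    linarith
  have mem : ∀ {b : Kd} {z : ℂ}, z ∈ D b → b.2 = none → hgt z ∈ PBE.Sp (-(l / 10)) (9 / 20 * l) := by
    rintro ⟨s, k⟩ z hz hb
    simp only at hb
    subst hb
    exact hgt_mem (hD.n s hz).1 (hD.n s hz).2
  have bd : ∀ {g : ℂ → ℂ} {M : ℝ}, 0 ≤ M → PBE.TC (-(l / 10)) (9 / 20 * l) a M g →
      ∀ (b : Kd) (z : ℂ), z ∈ D b → ‖qK ε g b z‖ ≤ M * Real.exp (-(a * |z.im|)) := by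
    intro g M hM hg b z hz
    by_cases hb : b.2 = none
    · rw [qK_none ε g hb, norm_mul]
      have h3 := hg.bd _ (mem hz hb)
      rw [hgt_re] at h3
      calc ‖ε b.1‖ * ‖g (hgt z)‖ ≤ 1 * (M * Real.exp (-(a * |z.im|))) :=
            mul_le_mul (hε _) h3 (norm_nonneg _) zero_le_one
        _ = _ := by ring
    · rw [qK_some ε g hb, norm_zero]
      positivity
  have hint : ∀ b : Kd, Integrable fun u => ‖ρ b u‖ * Real.exp (-(a * |(vl l u).im|)) := by
    intro b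
    refine (hρ.int b).norm.mono' ?_ (Filter.Eventually.of_forall fun u => ?_)
    · refine (hρ.int b).1.norm.mul ?_
      have h1 : Continuous fun u : ℝ => Real.exp (-(a * |(vl l u).im|)) := by
        unfold vl
        fun_prop
      exact h1.aestronglyMeasurable
    · rw [norm_mul, norm_norm, Real.norm_of_nonneg (Real.exp_pos _).le]
      refine mul_le_of_le_one_right (norm_nonneg _) ?_
      exact Real.exp_le_one_iff.2 (neg_nonpos.2 (mul_nonneg ha (abs_nonneg _)))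
  have hvl : Measurable fun t : ℝ => vl l t := by
    unfold vl
    fun_prop
  have one : ∀ z : ℂ, Real.exp (-(a * |z.im|)) ≤ 1 := fun z =>
    Real.exp_le_one_iff.2 (neg_nonpos.2 (mul_nonneg ha (abs_nonneg _)))
  refine ⟨⟨?_, ?_, ?_, ?_, ?_, ?_, ?_, ?_, ?_, a0, ?_, hint, hint, hD.he hρ⟩, ?_, ?_, ?_, ?_, ?_, ?_⟩
  · intro b c x y hx hy
    unfold kQ
    by_cases h : b.2 = none ∧ c.2 = none
    · rw [if_pos h, hK _ (mem hx h.1) _ (mem hy h.2), ← integral_const_mul]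
      refine integral_congr_ae (Filter.Eventually.of_forall fun q => ?_)
      simp only []
      rw [qK_none _ _ h.1, qK_none _ _ h.2]
      ring
    · rw [if_neg h]
      have e : ∀ q, qK ε (A q) b x * qK ε (fun z => 2 * B q z) c y = 0 := by
        intro q
        by_cases hb : b.2 = none
        · rw [qK_some ε (fun z => 2 * B q z) (b := c) fun hc => h ⟨hb, hc⟩, mul_zero]
        · rw [qK_some ε (A q) hb, zero_mul]
      simp only [e, integral_zero]
  · intro b c x y _ _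
    unfold kQ
    by_cases h : b.2 = none ∧ c.2 = none
    · rw [if_pos h, if_pos h.symm, hs]
      ring
    · rw [if_neg h, if_neg fun h' => h h'.symm]
  · intro b x _
    exact ((qK_meas ε mA b).comp (measurable_id.prodMk measurable_const)).aestronglyMeasurable
  · intro b x _
    exact ((qK_meas ε (A := fun q z => 2 * B q z) mB2 b).comp (measurable_id.prodMk measurable_const)).aestronglyMeasurable
  · intro b
    exact ((hρ.int b).1.comp_snd).mul ((qK_meas ε mA b).comp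
      (measurable_fst.prodMk (hvl.comp measurable_snd))).aestronglyMeasurable
  · intro b
    exact ((hρ.int b).1.comp_snd).mul ((qK_meas ε (A := fun q z => 2 * B q z) mB2 b).comp
      (measurable_fst.prodMk (hvl.comp measurable_snd))).aestronglyMeasurable
  · intro q b x hx
    exact bd (a0 q) (hR.tA q) b x hx
  · intro q b x hx
    exact bd (mul_nonneg zero_le_two (b0 q)) (tB2 q) b x hx
  · refine (hR.int.const_mul 2).congr (Filter.Eventually.of_forall fun q => ?_)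
    simp only []
    ring
  · exact fun q => mul_nonneg zero_le_two (b0 q)
  · intro b c x _
    refine AEStronglyMeasurable.mul ?_ (hρ.int c).1
    unfold kQ
    by_cases h : b.2 = none ∧ c.2 = none
    · simp only [if_pos h]
      have h1 : Measurable fun u : ℝ => (hgt x, hgt (vl l u)) :=
        measurable_const.prodMk (measurable_hgt.comp hvl)
      exact ((mK.comp h1).const_mul _).aestronglyMeasurable
    · simp only [if_neg h]
      exact aestronglyMeasurable_const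
  · exact qK_meas ε mA
  · exact qK_meas ε (A := fun q z => 2 * B q z) mB2
  · intro q
    show AdS P x0 δ (qD ε (A q))
    exact adS_q hε ha (a0 q) (hR.tA q) (mA1 q) hx hδ
  · intro q
    show AdS P x0 δ (qD ε fun z => 2 * B q z)
    exact adS_q hε ha (mul_nonneg zero_le_two (b0 q)) (tB2 q) (mB1 q) hx hδ
  · intro n hn
    exact ⟨hd n hn, fun _ _ _ _ _ _ => ⟨1, fun _ _ => one _⟩, fun _ _ _ _ _ _ => ⟨1, fun _ _ => one _⟩⟩

end chn

end PBRep

end
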