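import Pool.Agent.PB.EMain
import Pool.Agent.PB.WPlus
import Pool.Agent.PB.RepQ
import Pool.Agent.PB.ObStep
import Pool.Agent.PB.RepJ

/-!
# Plan B: the data of level two, generic part (helper91)

* `WPl.mono`, `WMi.mono`;
* **`levD_of`**: `PBEM.LevD` from the moments `PBU.MBd` and the second Ward identities.
-/

set_option autoImplicit false
set_option linter.unusedSectionVars false

noncomputable section

open Complex MeasureTheory Filter Topology Set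
open scoped ENNReal

namespace PBLX

open NUO NUP1S NUP1S.Ab NUP1S.AbC NUGC PBF PBFunc PBRep PBWP
open NUP1 hiding Kd
open PBE (TC mass WPl WMi)

section mono

variable {Ω : Type*} [MeasurableSpace Ω] {μ : Measure Ω} {w : Ω → ℂ}
  {y₁ y₂ a K K' θ θ' δp δp' M : ℝ} {V : (ℂ → ℂ) → Ω → ℂ}

theorem WPl_mono {g : ℂ → ℂ} {m : ℂ} {C : (ℂ → ℂ) → ℂ} {D : (ℂ → ℂ) → Ω → ℂ} {Q P : Ω → ℂ}
    (h : WPl y₁ y₂ a μ w K θ δp M V g m C D Q P) (h1 : y₁ < 0) (h2 : 0 < y₂) (hM : 0 ≤ M)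
    (hK0 : 0 ≤ K) (hK : K ≤ K') (hθ0 : 0 ≤ θ) (hθ : θ ≤ θ') (hδ : δp ≤ δp') :
    WPl y₁ y₂ a μ w K' θ' δp' M V g m C D Q P where
  one := h.one
  two := h.two
  mQ := h.mQ
  mP := h.mP
  q2 := h.q2.mono (mul_nonneg hM hθ0) (mul_le_mul_of_nonneg_left hθ hM) hK hK0
  p1 := h.p1.mono (mul_le_mul_of_nonneg_left hδ hM)
  mD := h.mD
  d2 M' k hk := by
    have hM' := hk.nonneg h1 h2
    exact (h.d2 M' k hk).mono (by positivity)
      (mul_le_mul_of_nonneg_left hθ (mul_nonneg hM hM')) hK hK0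
  p2 M' k hk := (h.p2 M' k hk).mono
    (mul_le_mul_of_nonneg_left hδ (mul_nonneg hM (hk.nonneg h1 h2)))

theorem WMi_mono {S Y : Ω → ℂ} {C : (ℂ → ℂ) → ℂ} {Cs : ℂ} {D : (ℂ → ℂ) → Ω → ℂ} {Ds Q P : Ω → ℂ}
    (h : WMi y₁ y₂ a μ w K θ δp M V S Y C Cs D Ds Q P) (h1 : y₁ < 0) (h2 : 0 < y₂) (hM : 0 ≤ M)
    (hK0 : 0 ≤ K) (hK : K ≤ K') (hθ0 : 0 ≤ θ) (hθ : θ ≤ θ') (hδ : δp ≤ δp') :
    WMi y₁ y₂ a μ w K' θ' δp' M V S Y C Cs D Ds Q P where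
  two := h.two
  step := h.step
  mQ := h.mQ
  mP := h.mP
  q2 := h.q2.mono (mul_nonneg hM hθ0) (mul_le_mul_of_nonneg_left hθ hM) hK hK0
  mD := h.mD
  mDs := h.mDs
  d2 M' k hk := by
    have hM' := hk.nonneg h1 h2
    exact (h.d2 M' k hk).mono (by positivity)
      (mul_le_mul_of_nonneg_left hθ (mul_nonneg hM hM')) hK hK0
  ds2 := h.ds2.mono (mul_nonneg hM hθ0) (mul_le_mul_of_nonneg_left hθ hM) hK hK0
  p2 M' k hk := (h.p2 M' k hk).mono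
    (mul_le_mul_of_nonneg_left hδ (mul_nonneg hM (hk.nonneg h1 h2)))
  ps := h.ps.mono (mul_le_mul_of_nonneg_left hδ hM)

theorem M2_rescale {A : Ω → ℂ} {b c : ℝ} (h : M2 μ w K A (b * c)) : M2 μ w (b ^ 2 * K) A c := by
  unfold PBFunc.M2 at h ⊢
  refine h.trans (le_of_eq ?_)
  congr 1
  ring

end mono

/-! ### the data -/

section data

variable {N : ℕ} {Z : ℕ → Bool → Option O3 → ℂ → ℂ} {P0 : NUO.Par} {η η' : ℕ → Crs}
  {c : ℕ → ℂ} {ρ : ℂ → ℂ} {Y₁ Y₂ b0 b' K q dp : ℝ}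

/-- the constant of the step -/
def KS : ℝ := (3 + PBOR.CS) ^ 2

theorem one_le_KS : 1 ≤ KS := by
  have := PBOR.CS_pos
  unfold KS
  nlinarith

theorem BC_sg (h1 : -NUP1.l ≤ Y₁) (h2 : Y₂ ≤ NUP1.l) : PBU.BC Y₁ Y₂ 3 PB.NX.sgC := by
  have hpi : Real.pi / 8 = NUP1.l := rfl
  have hz : ∀ z ∈ PBE.Sp Y₁ Y₂, |z.im| < NUP1.l := fun z hz =>
    abs_lt.2 ⟨lt_of_le_of_lt h1 hz.1, lt_of_lt_of_le hz.2 h2⟩
  refine ⟨fun z h => ?_, fun z h => ?_⟩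
  · exact (PB.NX.differentiableAt_sgC (z := z) (by
      rw [hpi]; exact (hz z h).le)).differentiableWithinAt
  · exact PBOR.sgC_le (by rw [hpi]; exact (hz z h).le)

theorem BC_eM {M : ℝ} {g : ℂ → ℂ} (h : PBU.BC Y₁ Y₂ M g) (s : Bool) :
    PBU.BC Y₁ Y₂ M fun z => eM s * g z := by
  refine ⟨h.an.const_mul _, fun z hz => ?_⟩
  rw [norm_mul, PBOR.norm_eM, one_mul]
  exact h.bd z hz

/-- the fibres, measurability part -/
structure Bas (N : ℕ) (Z : ℕ → Bool → Option O3 → ℂ → ℂ) (P0 : NUO.Par) (η η' : ℕ → Crs)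
    (b0 b' : ℝ) : Prop where
  mc : ∀ n ≤ N, MCr (η n) (η' n)
  hs : ∀ n ≤ N, InS 0 b0 (η n)
  hb : b0 < b'
  hbl : b' ≤ NUP1.l
  mZ : ∀ n ≤ N, MC (Z n) P0 (η n) (η' n)
  po : ∀ r (O : Fin r → Xo), PBOR.PO P0 O
  rad : ∀ r, Measurable (P0.rad r)

variable (hB : Bas N Z P0 η η' b0 b')

include hB

theorem Bas.w : AEStronglyMeasurable (wN Z (fun _ => P0) N η η' c) (mN N) :=
  (wN_meas hB.mZ).aestronglyMeasurable

theorem Bas.vy (ρ : ℂ → ℂ) {g : Bool → ℂ → ℂ}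
    (hg : ∀ s (z : ℂ), |z.im| < b' → DifferentiableAt ℂ (g s) z) :
    AEStronglyMeasurable (evN fun n => Vy 0 (η n) ρ g) (mN N) :=
  (evN_meas fun n hn => MIn.vy (hB.mc n hn) (hB.hs n hn) hB.hb ρ hg).aestronglyMeasurable

theorem Bas.msV {g : ℂ → ℂ} (hg : ∀ z : ℂ, |z.im| < b' → DifferentiableAt ℂ g z) :
    AEStronglyMeasurable (Vp (fun u => ρ u) η g : CfN N → ℂ) (mN N) := by
  rw [Vp_evN]
  exact hB.vy ρ fun _ => hg

theorem Bas.msVm {g : ℂ → ℂ} (hg : ∀ z : ℂ, |z.im| < b' → DifferentiableAt ℂ g z) :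
    AEStronglyMeasurable (Vm η g : CfN N → ℂ) (mN N) := by
  rw [Vm_evN fun _ => 0]
  exact hB.vy _ fun s z hz => (hg z hz).const_mul _

theorem Bas.dsg (z : ℂ) (hz : |z.im| < b') : DifferentiableAt ℂ PB.NX.sgC z :=
  PB.NX.differentiableAt_sgC (z := z) (by
    have : Real.pi / 8 = NUP1.l := rfl
    rw [this]; exact (hz.trans_le hB.hbl).le)

theorem Bas.msO : AEStronglyMeasurable (VO sgD P0 : CfN N → ℂ) (mN N) := by
  have hD : ∀ s k, Measurable (sgD s k) := by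
    intro s k
    have h1 : Measurable fun z : ℂ => PBOb.pf k z := measurable_id.add_const _
    exact (PBOb.measurable_sgU.comp h1).const_mul _
  exact (evN_meas fun n hn => MIn_stO (P := P0) hB.rad hD).aestronglyMeasurable

theorem Bas.msS : AEStronglyMeasurable (SN P0 η : CfN N → ℂ) (mN N) := by
  have e : (SN P0 η : CfN N → ℂ) = fun ω => Vm η PB.NX.sgC ω + VO sgD P0 ω := funext fun ω =>
    SN_eq P0 η ω
  rw [e]
  exact (hB.msVm hB.dsg).add hB.msO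

variable (hM : PBU.MBd N Z (fun _ => P0) η η' c ρ Y₁ Y₂ K q dp)

include hM

theorem Bas.m2V {M : ℝ} (hM0 : 0 ≤ M) {g : ℂ → ℂ}
    (hg : ∀ z : ℂ, |z.im| < b' → DifferentiableAt ℂ g z) (hb : PBU.BC Y₁ Y₂ M g) :
    M2 (mN N) (wN Z (fun _ => P0) N η η' c) K (Vp (fun u => ρ u) η g) M := by
  rw [Vp_evN]
  exact M2_vy hM hB.mc hB.hs hB.hb hM0 (fun _ => hb) fun _ => hg

theorem Bas.m2Vm {M : ℝ} (hM0 : 0 ≤ M) {g : ℂ → ℂ}
    (hg : ∀ z : ℂ, |z.im| < b' → DifferentiableAt ℂ g z) (hb : PBU.BC Y₁ Y₂ M g) :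
    M2 (mN N) (wN Z (fun _ => P0) N η η' c) K (Vm η g) M := by
  rw [Vm_evN ρ]
  exact M2_vy hM hB.mc hB.hs hB.hb hM0 (fun s => BC_eM hb s) fun s z hz => (hg z hz).const_mul _

theorem Bas.m2O : M2 (mN N) (wN Z (fun _ => P0) N η η' c) K (VO sgD P0) PBOR.CS := by
  have h1 := hM.one.smul (PBOR.CS : ℂ)
  have hc := PBOR.CS_pos
  rw [Complex.norm_real, Real.norm_of_nonneg hc.le, mul_one] at h1
  refine M2.le' h1 fun ω => ?_
  simp only [evN, ev, PBU.cnI]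
  rw [norm_mul, norm_cn0, Complex.norm_real, Real.norm_of_nonneg hc.le]
  refine (PBOR.stO_sg_le (hB.po _ ω.2.2.1)).trans (mul_le_mul_of_nonneg_left ?_ hc.le)
  linarith

theorem Bas.m2S (hK : 0 ≤ K) (h1 : -NUP1.l ≤ Y₁) (h2 : Y₂ ≤ NUP1.l) :
    M2 (mN N) (wN Z (fun _ => P0) N η η' c) (KS * K) (SN P0 η) 1 := by
  have e : (SN P0 η : CfN N → ℂ) = fun ω => Vm η PB.NX.sgC ω + VO sgD P0 ω := funext fun ω =>
    SN_eq P0 η ω
  rw [e]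
  refine M2_rescale ?_
  rw [mul_one]
  exact M2.add0 (by norm_num) PBOR.CS_pos.le hK hB.w (hB.msVm hB.dsg)
    (hB.m2Vm hM (by norm_num) hB.dsg (BC_sg h1 h2)) (hB.m2O hM)

/-- **the data of level two** -/
theorem levD_of {y₁ y₂ a th dp' : ℝ} {K' : ℝ} {mf : ℝ → ℂ} {s' : ℝ → ℂ} {T : Type*}
    [MeasurableSpace T] {σ : Measure T} {ap am bc : T → ℂ → ℂ} (ha : 0 < a) (h1 : y₁ < 0)
    (h2 : 0 < y₂) (hY1 : y₁ ≤ Y₁) (hY2 : Y₂ ≤ y₂) (hY1' : -NUP1.l ≤ Y₁) (hY2' : Y₂ ≤ NUP1.l)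
    (hb1 : y₁ ≤ -b') (hb2 : b' ≤ y₂) (hK : 0 ≤ K) (hK' : KS * K ≤ K') (hth : 0 ≤ th)
    (hdp : 0 ≤ dp') (hρ : AEStronglyMeasurable (fun u : ℝ => ρ u) volume)
    {Bρ : ℝ} (hρB : ∀ u : ℝ, ‖ρ u‖ ≤ Bρ)
    (hwp : ∀ M g, TC y₁ y₂ a M g → mass g = 0 → ∃ (D : (ℂ → ℂ) → CfN N → ℂ) (Q P : CfN N → ℂ),
      WPl y₁ y₂ a (mN N) (wN Z (fun _ => P0) N η η' c) K' th dp' M (Vp (fun u => ρ u) η) g
        (Pool.Agent.PB.mV mf g) (Pool.Agent.PB.CV g) D Q P)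
    (hwm : ∀ M g, TC y₁ y₂ a M g → ∃ (D : (ℂ → ℂ) → CfN N → ℂ) (Ds Q P : CfN N → ℂ),
      WMi y₁ y₂ a (mN N) (wN Z (fun _ => P0) N η η' c) K' th dp' M (Vm η) (SN P0 η) (Vm η g)
        (Pool.Agent.PB.CmV g) (Pool.Agent.PB.CsV s' g) D Ds Q P)
    (hws : ∃ (C : (ℂ → ℂ) → ℂ) (D : (ℂ → ℂ) → CfN N → ℂ) (Ds Q P : CfN N → ℂ),
      WMi y₁ y₂ a (mN N) (wN Z (fun _ => P0) N η η' c) K' th dp' 1 (Vm η) (SN P0 η) (SN P0 η) C
        (Pool.Agent.PB.CssV s') D Ds Q P)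
    (hap : Measurable fun p : T × ℂ => ap p.1 p.2) (ham : Measurable fun p : T × ℂ => am p.1 p.2)
    (hbc : Measurable fun p : T × ℂ => bc p.1 p.2) :
    PBEM.LevD y₁ y₂ a (mN N) (wN Z (fun _ => P0) N η η' c) (Vp (fun u => ρ u) η) (Vm η) (SN P0 η)
      K' th dp' mf s' σ ap am bc := by
  have hKS := one_le_KS
  have hKK : K ≤ K' := by nlinarith
  have hBC : ∀ M h, TC y₁ y₂ a M h → PBU.BC Y₁ Y₂ M h := fun M h hh =>
    BC_of hh ha.le (hh.nonneg h1 h2) hY1 hY2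
  have hd : ∀ M h, TC y₁ y₂ a M h → ∀ z : ℂ, |z.im| < b' → DifferentiableAt ℂ h z :=
    fun M h hh z hz => TC.dAt' hh hb1 hb2 hz
  exact
  { hw := hB.w
    K0 := hK.trans hKK
    th0 := hth
    dp0 := hdp
    one := (M2_one hM).mono zero_le_one le_rfl hKK hK
    lin := Vp_lin η ha h1 h2 hρ hρB
    msV := fun M h hh => hB.msV (hd M h hh)
    v2 := fun M h hh => (hB.m2V hM (hh.nonneg h1 h2) (hd M h hh) (hBC M h hh)).mono
      (hh.nonneg h1 h2) le_rfl hKK hK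
    msVm := fun M h hh => hB.msVm (hd M h hh)
    v2m := fun M h hh => (hB.m2Vm hM (hh.nonneg h1 h2) (hd M h hh) (hBC M h hh)).mono
      (hh.nonneg h1 h2) le_rfl hKK hK
    msS := hB.msS
    s2 := (hB.m2S hM hK hY1' hY2').mono zero_le_one le_rfl hK' (by positivity)
    wp := hwp
    wm := hwm
    ws := hws
    jA := PBRep.jVp hap hρ hB.mc
    jB := PBRep.jVp hbc hρ hB.mc
    jA' := PBRep.jVm ham hB.mc
    jB' := PBRep.jVm hbc hB.mc }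

end data

end PBLX

end
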