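import Pool.Agent.PB.LevX
import Pool.Agent.PB.LevI
import Pool.Agent.PB.HQf
import Pool.Agent.PB.WMin

/-!
# Plan B: level two at the family of the dislocated function, minus channel

**`levN`**: `PBLX.WmS` (the fields `wm`, `ws` of `PBEM.LevD` at the family), for all sizes
`K ≥ C Kj`, `th ≥ C (j + 1)^(-141/200)`, `dp ≥ C dj`.
-/

set_option autoImplicit false
set_option linter.unusedSectionVars false

noncomputable section

open Complex MeasureTheory Filter Topology Set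
open scoped ENNReal

namespace PBLX

open NUO NUP1S NUP1S.Ab NUP1S.AbC NUGC PBF PBFunc PBU PBWP
open PBEI (rowS h0T cL y1 y2)
open PBE (TC SeaL XS thX sg2 mass)

attribute [local instance] NUSea.seaP

theorem thX_zero (c0 : ℝ) (j : ℕ) : thX c0 ((j + 1 : ℕ) : ℝ) (189 / 100 - 1 / 100) 0 =
    max 1 c0⁻¹ * ((j : ℝ) + 1) ^ (-(141 / 200 : ℝ)) := by
  unfold thX
  rw [abs_zero, mul_zero, Real.exp_zero, mul_one]
  congr 2
  · push_cast
    rfl
  · norm_num

/-- **level two at the family, minus channel** -/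
theorem levN : ∃ a0 : ℝ, 0 < a0 ∧ ∀ ep e1 J : ℝ, SmallP a0 ep e1 J → ∃ C : ℝ, 1 ≤ C ∧
    ∀ K th dp : ℕ → ℝ, (∀ j, C * Kj (1 / 100) j ≤ K j) →
      (∀ j : ℕ, C * ((j : ℝ) + 1) ^ (-(141 / 200 : ℝ)) ≤ th j) →
      (∀ j, C * dj (1 / 100) e1 (189 / 100) j ≤ dp j) → WmS (19 / 10) K th dp ep e1 J := by
  have hl := NUP1.Bd.l_pos
  have hl4 : 1 / 4 < NUP1.l := by
    unfold NUP1.l
    linarith [Real.pi_gt_three]
  have hb : bb < NUP1.l := by
    unfold bb
    linarith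
  have e2 : NUMF.l = NUP1.l := rfl
  obtain ⟨c0, hc0, hc⟩ := seaL_rhS (b := bb) bb_pos.le hb
  obtain ⟨a1, ha1, H1⟩ := mbdS (q := 189 / 100) (ε := 1 / 100) (by norm_num) (by norm_num)
    (by norm_num)
  obtain ⟨a2, ha2, H2⟩ := hQ_minus (ε := 1 / 100) (by norm_num) (c0 := c0)
    (fun j s hs => (hc j s hs).1)
  refine ⟨min a1 a2, lt_min ha1 ha2, fun ep e1 J hp => ?_⟩
  have hep0 := hp.ep0
  have hep1 := hp.ep1
  obtain ⟨CQ, hCQ, hQ⟩ := H2 ep e1 J (hp.mono (min_le_right _ _))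
  obtain ⟨C, hC, W⟩ := PBWM.wm_of (y₁ := y1) (y₂ := y2) (a := 19 / 10) (κ := 189 / 100)
    (κ₁ := 1 / 100) (κ₂ := 1 / 200) (b := bb) (b' := bb') (q := 189 / 100) (CQ := CQ)
    (by norm_num) (by norm_num) (by norm_num) (by norm_num) (by norm_num) (by norm_num)
    (by norm_num) (by norm_num) bb'_pos bb'_lt
    (by unfold y1 bb; rw [e2]; linarith) (by unfold y2 bb; rw [e2]; linarith) hb (by norm_num)
    le_rfl hCQ
  have hm1 : (1 : ℝ) ≤ max 1 c0⁻¹ := le_max_left _ _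
  have hCm : C ≤ C * max 1 c0⁻¹ := le_mul_of_one_le_right (by linarith) hm1
  refine ⟨C * max 1 c0⁻¹, hC.trans hCm, fun K th dp hK hth hdp => ?_⟩
  have hM := H1 ep e1 J (hp.mono (min_le_left _ _)) (-(ep / 4)) bb' (by linarith) bb'_pos
  have hF := fib_S hep0 hep1 hp.e0 hp.e1' hp.J0 (b1 := bb') (by unfold bb'; nlinarith)
    (by unfold bb'; linarith)
  filter_upwards [hM, hF, hQ] with j hMj hFj hQj s hs t ht
  have hs1 : |s| ≤ 1 := abs_le.2 ⟨by linarith [hs.1], hs.2⟩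
  have hb25 : bb' ≤ 2 / 5 * NUP1.l := by
    unfold bb'
    linarith
  have hKj := Kj_pos (1 / 100) j
  have hdj := dj_pos (1 / 100) e1 (189 / 100) j
  exact W (hFj s hs t) le_rfl (hc j s hs1).1 (fun r O => PBOR.PO_par0 (j + 1) O)
    (fun r O u y => LPo_line _ r O u y) (PBX.ParC_par0 (j + 1)).rm (h0T_fam hb25 t).1
    (h0T_fam hb25 t).2 (hl_fibN (hFj s hs t) rfl) (hQj s hs t ht) hKj.le hdj.le (hMj s hs t ht)
    (by unfold bb'; linarith) le_rfl (K j) (th j) (dp j)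
    ((mul_le_mul_of_nonneg_right hCm hKj.le).trans (hK j))
    (by
      rw [thX_zero, ← mul_assoc]
      exact hth j)
    ((mul_le_mul_of_nonneg_right hCm hdj.le).trans (hdp j))

end PBLX

end
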