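import Pool.Agent.NUP.MF.Bulk

/-!
# Closed form of the convolution of the density with the log potentials, on every line

`H x y = h x (y + l) + h x (y - l) - 2 E0 x y - log 2` for `|y| < 2 l` (`E0 = log ‖sinh / tanh (4 / 3)‖`)
and the two energies of the normalisation by `ρ`.
-/

open MeasureTheory Filter Topology Set Complex

noncomputable section

namespace NUMF

/-- the closed form -/
def KR (x y : ℝ) : ℝ := h x (y + l) + h x (y - l) - 2 * E0 x y - Real.log 2

lemma trip (C c : ℝ) (θ : ℝ) (hc : c = Real.cos θ) :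
    (C - c) * ((C + Real.cos (θ + Real.pi / 3)) * (C + Real.cos (θ - Real.pi / 3))) =
      ((4 * C ^ 3 - 3 * C) - (4 * c ^ 3 - 3 * c)) / 4 := by
  rw [Real.cos_add, Real.cos_sub, Real.cos_pi_div_three, Real.sin_pi_div_three, ← hc]
  have h3 : √3 ^ 2 = 3 := Real.sq_sqrt (by norm_num)
  have hs : Real.sin θ ^ 2 = 1 - c ^ 2 := by
    rw [hc]; nlinarith [Real.sin_sq_add_cos_sq θ]
  have e : (C - c) * ((C + (c * (1 / 2) - Real.sin θ * (√3 / 2))) *
      (C + (c * (1 / 2) + Real.sin θ * (√3 / 2)))) =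
      (C - c) * ((C + c / 2) ^ 2 - Real.sin θ ^ 2 * √3 ^ 2 / 4) := by ring
  rw [e, h3, hs]
  ring

lemma trip' (C c : ℝ) (θ : ℝ) (hc : c = Real.cos θ) :
    (C + c) * ((C - Real.cos (θ + Real.pi / 3)) * (C - Real.cos (θ - Real.pi / 3))) =
      ((4 * C ^ 3 - 3 * C) + (4 * c ^ 3 - 3 * c)) / 4 := by
  rw [Real.cos_add, Real.cos_sub, Real.cos_pi_div_three, Real.sin_pi_div_three, ← hc]
  have h3 : √3 ^ 2 = 3 := Real.sq_sqrt (by norm_num)
  have hs : Real.sin θ ^ 2 = 1 - c ^ 2 := by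
    rw [hc]; nlinarith [Real.sin_sq_add_cos_sq θ]
  have e : (C + c) * ((C - (c * (1 / 2) - Real.sin θ * (√3 / 2))) *
      (C - (c * (1 / 2) + Real.sin θ * (√3 / 2)))) =
      (C + c) * ((C - c / 2) ^ 2 - Real.sin θ ^ 2 * √3 ^ 2 / 4) := by ring
  rw [e, h3, hs]
  ring

lemma cheb_hyp (x : ℝ) : 4 * Real.cosh (8 / 3 * x) ^ 3 - 3 * Real.cosh (8 / 3 * x) =
    8 * Real.cosh (2 * x) ^ 4 - 8 * Real.cosh (2 * x) ^ 2 + 1 := by
  have h1 := Real.cosh_three_mul (8 / 3 * x)
  have h2 := Real.cosh_two_mul (2 * (2 * x))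
  have h3 := Real.cosh_two_mul (2 * x)
  have h4 := Real.cosh_sq (2 * (2 * x))
  have h5 := Real.cosh_sq (2 * x)
  rw [show 3 * (8 / 3 * x) = 2 * (2 * (2 * x)) by ring] at h1
  have h6 : Real.cosh (2 * (2 * x)) = 2 * Real.cosh (2 * x) ^ 2 - 1 := by linarith
  have h7 : Real.cosh (2 * (2 * (2 * x))) = 2 * Real.cosh (2 * (2 * x)) ^ 2 - 1 := by linarith
  rw [← h1, h7, h6]
  ring

lemma cheb_cos (y : ℝ) : 4 * Real.cos (8 / 3 * y) ^ 3 - 3 * Real.cos (8 / 3 * y) =
    8 * Real.cos (2 * y) ^ 4 - 8 * Real.cos (2 * y) ^ 2 + 1 := by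
  have h1 := Real.cos_three_mul (8 / 3 * y)
  have h2 := Real.cos_two_mul (2 * (2 * y))
  have h3 := Real.cos_two_mul (2 * y)
  rw [show 3 * (8 / 3 * y) = 2 * (2 * (2 * y)) by ring] at h1
  rw [← h1, h2, h3]
  ring

/-- the algebraic identity behind the closed form -/
lemma KR_alg (x y : ℝ) :
    ((Real.cosh (2 * x) + Real.cos (2 * (y + 2 * l))) * (Real.cosh (2 * x) + Real.cos (2 * (y - 2 * l))) *
        (Real.cosh (2 * x) + Real.cos (2 * y))) *
      (((Real.cosh (2 * x) - Real.cos (2 * y))) *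
        ((Real.cosh (8 / 3 * x) + Real.cos (8 / 3 * y)) *
          ((Real.cosh (8 / 3 * x) - Real.cos (8 / 3 * (y + l))) *
            (Real.cosh (8 / 3 * x) - Real.cos (8 / 3 * (y - l)))))) =
    ((Real.cosh (2 * x) + Real.cos (2 * (y + l))) * (Real.cosh (2 * x) + Real.cos (2 * (y - l)))) *
      ((Real.cosh (2 * x) - Real.cos (2 * (y + l))) * (Real.cosh (2 * x) - Real.cos (2 * (y - l))) *
        ((Real.cosh (8 / 3 * x) - Real.cos (8 / 3 * y)) *
          ((Real.cosh (8 / 3 * x) + Real.cos (8 / 3 * (y + l))) *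
            (Real.cosh (8 / 3 * x) + Real.cos (8 / 3 * (y - l)))))) := by
  have e1 : 8 / 3 * (y + l) = 8 / 3 * y + Real.pi / 3 := by unfold l; ring
  have e2 : 8 / 3 * (y - l) = 8 / 3 * y - Real.pi / 3 := by unfold l; ring
  rw [e1, e2, trip _ _ _ rfl, trip' _ _ _ rfl, cheb_hyp, cheb_cos]
  have f1 : Real.cos (2 * (y + 2 * l)) = -Real.sin (2 * y) := by
    rw [show 2 * (y + 2 * l) = 2 * y + Real.pi / 2 by unfold l; ring, Real.cos_add_pi_div_two]
  have f2 : Real.cos (2 * (y - 2 * l)) = Real.sin (2 * y) := by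
    rw [show 2 * (y - 2 * l) = 2 * y - Real.pi / 2 by unfold l; ring, Real.cos_sub_pi_div_two]
  have f3 : Real.cos (2 * (y + l)) = (Real.cos (2 * y) - Real.sin (2 * y)) * (√2 / 2) := by
    rw [show 2 * (y + l) = 2 * y + Real.pi / 4 by unfold l; ring, Real.cos_add,
      Real.cos_pi_div_four, Real.sin_pi_div_four]
    ring
  have f4 : Real.cos (2 * (y - l)) = (Real.cos (2 * y) + Real.sin (2 * y)) * (√2 / 2) := by
    rw [show 2 * (y - l) = 2 * y - Real.pi / 4 by unfold l; ring, Real.cos_sub,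
      Real.cos_pi_div_four, Real.sin_pi_div_four]
    ring
  rw [f1, f2, f3, f4]
  have hr : √2 ^ 2 = 2 := Real.sq_sqrt (by norm_num)
  have hs := Real.sin_sq_add_cos_sq (2 * y)
  generalize Real.cos (2 * y) = a at *
  generalize Real.sin (2 * y) = b at *
  generalize Real.cosh (2 * x) = A at *
  have hb : b ^ 2 = 1 - a ^ 2 := by linarith
  have g1 : (A + -b) * (A + b) * (A + a) * ((A - a) * ((8 * A ^ 4 - 8 * A ^ 2 + 1 + (8 * a ^ 4 - 8 * a ^ 2 + 1)) / 4)) =
      (A ^ 2 - b ^ 2) * (A ^ 2 - a ^ 2) * ((8 * A ^ 4 - 8 * A ^ 2 + 1 + (8 * a ^ 4 - 8 * a ^ 2 + 1)) / 4) := by ring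
  have g2 : (A + (a - b) * (√2 / 2)) * (A + (a + b) * (√2 / 2)) *
      ((A - (a - b) * (√2 / 2)) * (A - (a + b) * (√2 / 2)) *
        ((8 * A ^ 4 - 8 * A ^ 2 + 1 - (8 * a ^ 4 - 8 * a ^ 2 + 1)) / 4)) =
      (A ^ 2 - (a - b) ^ 2 * √2 ^ 2 / 4) * (A ^ 2 - (a + b) ^ 2 * √2 ^ 2 / 4) *
        ((8 * A ^ 4 - 8 * A ^ 2 + 1 - (8 * a ^ 4 - 8 * a ^ 2 + 1)) / 4) := by ring
  rw [g1, g2, hr]
  have g3 : (A ^ 2 - (a - b) ^ 2 * 2 / 4) * (A ^ 2 - (a + b) ^ 2 * 2 / 4) =
      A ^ 4 - A ^ 2 * (a ^ 2 + b ^ 2) + (a ^ 2 - b ^ 2) ^ 2 / 4 := by ring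
  rw [g3, hb]
  ring

/-- the recursion of the closed form -/
lemma KR_rule0 {x y : ℝ} (hy : |y| < 2 * l)
    (pA : ∀ t, |t| < 4 * l → 0 < Real.cosh (2 * x) + Real.cos (2 * t))
    (pC : ∀ t, |t| < 3 * l → 0 < Real.cosh (8 / 3 * x) + Real.cos (8 / 3 * t))
    (mA : ∀ t, t = y + l ∨ t = y - l ∨ t = y → 0 < Real.cosh (2 * x) - Real.cos (2 * t))
    (mC : ∀ t, t = y + l ∨ t = y - l ∨ t = y → 0 < Real.cosh (8 / 3 * x) - Real.cos (8 / 3 * t)) :
    KR x (y + l) + KR x (y - l) - KR x y = h x y := by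
  have hl := l_pos
  have y1 : |y + l| < 3 * l := by
    refine lt_of_le_of_lt (abs_add_le _ _) ?_
    rw [abs_of_pos hl]; linarith
  have y2 : |y - l| < 3 * l := by
    refine lt_of_le_of_lt (abs_sub _ _) ?_
    rw [abs_of_pos hl]; linarith
  have y3 : |y + 2 * l| < 4 * l := by
    refine lt_of_le_of_lt (abs_add_le _ _) ?_
    rw [abs_of_pos (by linarith : 0 < 2 * l)]; linarith
  have y4 : |y - 2 * l| < 4 * l := by
    refine lt_of_le_of_lt (abs_sub _ _) ?_
    rw [abs_of_pos (by linarith : 0 < 2 * l)]; linarith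
  have y0 : |y| < 3 * l := by linarith
  have E : ∀ t, t = y + l ∨ t = y - l ∨ t = y → |t| < 3 * l →
      2 * E0 x t = Real.log (Real.cosh (2 * x) - Real.cos (2 * t)) -
      Real.log 2 + Real.log (Real.cosh (8 / 3 * x) + Real.cos (8 / 3 * t)) -
      Real.log (Real.cosh (8 / 3 * x) - Real.cos (8 / 3 * t)) := by
    intro t h1 ht
    rw [E0_sq x t ht (mC t h1).ne', Real.log_div (mul_pos (div_pos (mA t h1) two_pos) (pC t ht)).ne'
      (mC t h1).ne', Real.log_mul (div_pos (mA t h1) two_pos).ne' (pC t ht).ne',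
      Real.log_div (mA t h1).ne' two_ne_zero]
  have E1 := E _ (Or.inl rfl) y1
  have E2 := E _ (Or.inr (Or.inl rfl)) y2
  have E3 := E _ (Or.inr (Or.inr rfl)) y0
  have e := congrArg Real.log (KR_alg x y)
  have p1 := pA _ y3
  have p2 := pA _ y4
  have p3 := pA y (by linarith)
  have p4 := pA (y + l) (by linarith)
  have p5 := pA (y - l) (by linarith)
  have q1 := pC _ y1
  have q2 := pC _ y2
  have q3 := pC _ y0
  have m1 := mA _ (Or.inl rfl)
  have m2 := mA _ (Or.inr (Or.inl rfl))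
  have m3 := mA _ (Or.inr (Or.inr rfl))
  have n1 := mC _ (Or.inl rfl)
  have n2 := mC _ (Or.inr (Or.inl rfl))
  have n3 := mC _ (Or.inr (Or.inr rfl))
  rw [Real.log_mul (mul_pos (mul_pos p1 p2) p3).ne'
      (mul_pos m3 (mul_pos q3 (mul_pos n1 n2))).ne',
    Real.log_mul (mul_pos p1 p2).ne' p3.ne', Real.log_mul p1.ne' p2.ne',
    Real.log_mul m3.ne' (mul_pos q3 (mul_pos n1 n2)).ne',
    Real.log_mul q3.ne' (mul_pos n1 n2).ne', Real.log_mul n1.ne' n2.ne',
    Real.log_mul (mul_pos p4 p5).ne'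
      (mul_pos (mul_pos m1 m2) (mul_pos n3 (mul_pos q1 q2))).ne',
    Real.log_mul p4.ne' p5.ne', Real.log_mul (mul_pos m1 m2).ne'
      (mul_pos n3 (mul_pos q1 q2)).ne', Real.log_mul m1.ne' m2.ne',
    Real.log_mul n3.ne' (mul_pos q1 q2).ne', Real.log_mul q1.ne' q2.ne'] at e
  unfold KR
  rw [show y + l + l = y + 2 * l by ring, show y + l - l = y by ring,
    show y - l + l = y by ring, show y - l - l = y - 2 * l by ring]
  unfold h
  linarith

lemma KR_rule {x y : ℝ} (hx : x ≠ 0) (hy : |y| < 2 * l) :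
    KR x (y + l) + KR x (y - l) - KR x y = h x y := by
  have hA : 1 < Real.cosh (2 * x) := Real.one_lt_cosh.2 (by simpa using hx)
  have hC : 1 < Real.cosh (8 / 3 * x) := Real.one_lt_cosh.2 (by simpa using hx)
  exact KR_rule0 hy (fun t _ => by linarith [Real.neg_one_le_cos (2 * t)])
    (fun t _ => by linarith [Real.neg_one_le_cos (8 / 3 * t)])
    (fun t _ => by linarith [Real.cos_le_one (2 * t)])
    (fun t _ => by linarith [Real.cos_le_one (8 / 3 * t)])

lemma cos_gt {t : ℝ} (h : |t| < Real.pi) : -1 < Real.cos t := by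
  rw [← Real.cos_abs]
  have h5 := Real.cos_lt_cos_of_nonneg_of_le_pi (abs_nonneg t) le_rfl h
  rwa [Real.cos_pi] at h5

lemma cos_lt' {t : ℝ} (h0 : t ≠ 0) (h : |t| ≤ Real.pi) : Real.cos t < 1 := by
  rw [← Real.cos_abs]
  have h5 := Real.cos_lt_cos_of_nonneg_of_le_pi le_rfl h (abs_pos.2 h0)
  rwa [Real.cos_zero] at h5

lemma KR_rule' {x y : ℝ} (hy0 : y ≠ 0) (hy : |y| < l) :
    KR x (y + l) + KR x (y - l) - KR x y = h x y := by
  have hl := l_pos
  have hl8 : 8 * l = Real.pi := by unfold l; ring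
  have hA : 1 ≤ Real.cosh (2 * x) := Real.one_le_cosh _
  have hC : 1 ≤ Real.cosh (8 / 3 * x) := Real.one_le_cosh _
  obtain ⟨y1, y2⟩ := abs_lt.1 hy
  have hne : ∀ t, t = y + l ∨ t = y - l ∨ t = y → t ≠ 0 ∧ |t| < 2 * l := by
    rintro t (h | h | h) <;> rw [h]
    · exact ⟨by linarith, by rw [abs_lt]; constructor <;> linarith⟩
    · exact ⟨by linarith, by rw [abs_lt]; constructor <;> linarith⟩
    · exact ⟨hy0, by linarith⟩
  refine KR_rule0 (by linarith) (fun t ht => ?_) (fun t ht => ?_) (fun t ht => ?_) (fun t ht => ?_)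
  · have := cos_gt (t := 2 * t) (by rw [abs_mul, abs_two]; linarith)
    linarith
  · have := cos_gt (t := 8 / 3 * t) (by
      rw [abs_mul, abs_of_pos (by norm_num : (0 : ℝ) < 8 / 3)]; linarith)
    linarith
  · have := cos_lt' (t := 2 * t) (mul_ne_zero two_ne_zero (hne t ht).1) (by
      rw [abs_mul, abs_two]; linarith [(hne t ht).2])
    linarith
  · have := cos_lt' (t := 8 / 3 * t) (mul_ne_zero (by norm_num) (hne t ht).1) (by
      rw [abs_mul, abs_of_pos (by norm_num : (0 : ℝ) < 8 / 3)]; linarith [(hne t ht).2])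
    linarith

/-- the complex form of the closed form -/
def KC (w : ℂ) : ℂ := F (w + l * I) + F (w - l * I) - 2 * el0 w - Real.log 2

lemma KC_re {w : ℂ} (hw : |w.im| < 3 * l) : (KC w).re = KR w.re w.im := by
  have hl := l_pos
  have hl8 : 8 * l = Real.pi := by unfold l; ring
  have i1 : (w + l * I : ℂ).im = w.im + l := by simp
  have i2 : (w - l * I : ℂ).im = w.im - l := by simp
  have r1 : (w + l * I : ℂ).re = w.re := by simp
  have r2 : (w - l * I : ℂ).re = w.re := by simp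
  have a1 : |(w + l * I : ℂ).im| < Real.pi / 2 := by
    rw [i1]
    refine lt_of_le_of_lt (abs_add_le _ _) ?_
    rw [abs_of_pos hl]; linarith
  have a2 : |(w - l * I : ℂ).im| < Real.pi / 2 := by
    rw [i2]
    refine lt_of_le_of_lt (abs_sub _ _) ?_
    rw [abs_of_pos hl]; linarith
  unfold KC KR E0
  rw [sub_re, sub_re, add_re, F_re a1, F_re a2, i1, i2, r1, r2]
  have e : (2 * el0 w).re = 2 * Real.log ‖G0 w‖ := by
    rw [show (2 : ℂ) * el0 w = ((2 : ℝ) : ℂ) * el0 w by norm_num, Complex.re_ofReal_mul, el0_re hw]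
  rw [e, Complex.ofReal_re, Complex.re_add_im]

lemma KC_diff {w : ℂ} (hw : |w.im| < 3 * l) : DifferentiableAt ℂ KC w := by
  have hl := l_pos
  have hl8 : 8 * l = Real.pi := by unfold l; ring
  have a1 : |(w + l * I : ℂ).im| < Real.pi / 2 := by
    rw [show (w + l * I : ℂ).im = w.im + l by simp]
    refine lt_of_le_of_lt (abs_add_le _ _) ?_
    rw [abs_of_pos hl]; linarith
  have a2 : |(w - l * I : ℂ).im| < Real.pi / 2 := by
    rw [show (w - l * I : ℂ).im = w.im - l by simp]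
    refine lt_of_le_of_lt (abs_sub _ _) ?_
    rw [abs_of_pos hl]; linarith
  have h1 : DifferentiableAt ℂ (fun w : ℂ => F (w + l * I)) w :=
    DifferentiableAt.comp w (F_diff a1) (differentiableAt_id.add_const _)
  have h2 : DifferentiableAt ℂ (fun w : ℂ => F (w - l * I)) w :=
    DifferentiableAt.comp w (F_diff a2) (differentiableAt_id.sub_const _)
  exact ((h1.add h2).sub ((el0_diff hw).const_mul 2)).sub_const _

lemma KC_bound : ∃ B : ℝ, 0 ≤ B ∧ ∀ w : ℂ, |w.im| ≤ 2 * l → ‖KC w‖ ≤ 12 * |w.re| + B := by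
  have hl := l_pos
  have hl8 : 8 * l = Real.pi := by unfold l; ring
  obtain ⟨B, hB⟩ := el0_bound
  have hB0 : 0 ≤ B := by
    have := (norm_nonneg _).trans (hB 0 (by simpa using hl.le))
    simpa using this
  obtain ⟨B', hB'⟩ : ∃ B', B' = 2 * |Real.log (Real.cos (3 * l))| + 2 * Real.pi + 1 := ⟨_, rfl⟩
  have hB'0 : 0 ≤ B' := by rw [hB']; have := Real.pi_pos; positivity
  have l2 : 0 < Real.log 2 := Real.log_pos (by norm_num)
  refine ⟨2 * B' + 2 * B + Real.log 2, by positivity, fun w hw => ?_⟩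
  have a1 : |(w + l * I : ℂ).im| ≤ 3 * l := by
    rw [show (w + l * I : ℂ).im = w.im + l by simp]
    refine (abs_add_le _ _).trans ?_
    rw [abs_of_pos hl]; linarith
  have a2 : |(w - l * I : ℂ).im| ≤ 3 * l := by
    rw [show (w - l * I : ℂ).im = w.im - l by simp]
    refine (abs_sub _ _).trans ?_
    rw [abs_of_pos hl]; linarith
  have b1 := F_bound (b := 3 * l) (by linarith) a1
  have b2 := F_bound (b := 3 * l) (by linarith) a2
  rw [← hB', show (w + l * I : ℂ).re = w.re by simp] at b1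
  rw [← hB', show (w - l * I : ℂ).re = w.re by simp] at b2
  have b3 := hB w hw
  unfold KC
  have n1 : ‖(2 : ℂ) * el0 w‖ = 2 * ‖el0 w‖ := by rw [norm_mul, Complex.norm_ofNat]
  have n2 : ‖((Real.log 2 : ℝ) : ℂ)‖ = Real.log 2 := by
    rw [Complex.norm_real, Real.norm_eq_abs, abs_of_pos l2]
  calc _ ≤ ‖F (w + l * I)‖ + ‖F (w - l * I)‖ + ‖(2 : ℂ) * el0 w‖ + ‖((Real.log 2 : ℝ) : ℂ)‖ :=
        (norm_sub_le _ _).trans (add_le_add ((norm_sub_le _ _).trans (add_le_add (norm_add_le _ _)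
          le_rfl)) le_rfl)
    _ ≤ _ := by
        rw [n1, n2]
        linarith

/-- the closed form on the lines `|y| ≤ l` -/
theorem H_closed_l (x : ℝ) {y : ℝ} (hy : |y| ≤ l) : H x y = KR x y := by
  have hl := l_pos
  obtain ⟨B, hB0, hB⟩ := KC_bound
  set f : ℂ → ℂ := fun z => KC ((x + y * I) - z) with hf
  have him : ∀ z : ℂ, ((x + y * I : ℂ) - z).im = y - z.im := by intro z; simp
  have hre : ∀ z : ℂ, ((x + y * I : ℂ) - z).re = x - z.re := by intro z; simp
  have hin : ∀ z : ℂ, |z.im| ≤ l → |((x + y * I : ℂ) - z).im| ≤ 2 * l := by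
    intro z hz
    rw [him]
    exact (abs_sub _ _).trans (by linarith)
  have hin3 : ∀ z : ℂ, |z.im| ≤ l → |((x + y * I : ℂ) - z).im| < 3 * l := by
    intro z hz
    exact lt_of_le_of_lt (hin z hz) (by linarith)
  have hdf : ∀ z : ℂ, |z.im| ≤ l → DifferentiableAt ℂ f z := by
    intro z hz
    have h1 : DifferentiableAt ℂ KC ((x + y * I) - z) := KC_diff (hin3 z hz)
    exact h1.comp z ((differentiableAt_const _).sub differentiableAt_id)
  have hbf : ∀ z : ℂ, |z.im| ≤ l → ‖f z‖ ≤ (12 * |x| + B + 12) * Real.exp (1 * |z.re|) := by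
    intro z hz
    have h1 := hB _ (hin z hz)
    rw [hre] at h1
    have h2 : |x - z.re| ≤ |x| + |z.re| := abs_sub _ _
    have h3 : |z.re| + 1 ≤ Real.exp (1 * |z.re|) := by
      rw [one_mul]; exact Real.add_one_le_exp _
    have h4 := abs_nonneg x
    have h5 := abs_nonneg z.re
    have h6 : 1 ≤ Real.exp (1 * |z.re|) := by linarith
    calc ‖f z‖ ≤ 12 * (|x| + |z.re|) + B := by
          rw [hf]
          linarith
      _ ≤ _ := by nlinarith
  obtain ⟨i1, i2, i3, e⟩ := sum_rule (f := f) (A := 12 * |x| + B + 12) (c := 1) zero_le_one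
    (by norm_num) (fun z hz => (hdf z hz).continuousAt.continuousWithinAt)
    (fun z hz => hdf z hz.le) hbf
  -- real parts
  have rr : ∀ (s t : ℝ), |t| ≤ l → (f (s + t * I)).re = KR (x - s) (y - t) := by
    intro s t ht
    rw [hf]
    simp only
    rw [KC_re (hin3 _ (by simpa using ht)), him, hre]
    simp
  have r0 : (f 0).re = KR x y := by
    have := rr 0 0 (by simpa using hl.le)
    simpa using this
  have i4 : Integrable fun s : ℝ => (P s : ℂ) * (f (s + l * I) + f (s - l * I) - f s) := by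
    refine ((i1.add i2).sub i3).congr (Eventually.of_forall fun s => ?_)
    simp only [Pi.add_apply, Pi.sub_apply]
    ring
  have hRe2 : (∫ s : ℝ, (P s : ℂ) * (f (s + l * I) + f (s - l * I) - f s)).re =
      ∫ s : ℝ, ((P s : ℂ) * (f (s + l * I) + f (s - l * I) - f s)).re := (integral_re i4).symm
  rw [← r0, ← e, hRe2]
  unfold H
  refine integral_congr_ae ?_
  filter_upwards [ae_ne x] with s hs
  have a1 := rr s l (by rw [abs_of_pos hl])
  have a2 := rr s (-l) (by rw [abs_neg, abs_of_pos hl])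
  have a3 := rr s 0 (by simpa using hl.le)
  rw [show (s : ℂ) + ((-l : ℝ) : ℂ) * I = s - l * I by push_cast; ring] at a2
  rw [show (s : ℂ) + ((0 : ℝ) : ℂ) * I = s by push_cast; ring, sub_zero] at a3
  rw [Complex.re_ofReal_mul, Complex.sub_re, Complex.add_re, a1, a2, a3, sub_neg_eq_add]
  have := KR_rule hs (y := y) (by linarith)
  rw [← this]
  ring

lemma KR_neg (x y : ℝ) (hy : |y| < 3 * l) : KR x (-y) = KR x y := by
  have hl := l_pos
  have hE : E0 x (-y) = E0 x y := by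
    by_cases hne : Real.cosh (8 / 3 * x) - Real.cos (8 / 3 * y) ≠ 0
    · exact E0_neg x y hy hne
    · -- only at the origin
      push Not at hne
      have h1 : Real.cos (8 / 3 * y) = 1 := by
        have := Real.one_le_cosh (8 / 3 * x)
        have := Real.cos_le_one (8 / 3 * y)
        linarith
      have hy0 : y = 0 := by
        by_contra h0
        have hl8 : 8 * l = Real.pi := by unfold l; ring
        have := cos_lt' (t := 8 / 3 * y) (mul_ne_zero (by norm_num) h0) (by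
          rw [abs_mul, abs_of_pos (by norm_num : (0 : ℝ) < 8 / 3)]; linarith)
        linarith
      rw [hy0, neg_zero]
  unfold KR
  rw [hE, show -y + l = -(y - l) by ring, show -y - l = -(y + l) by ring, h_neg_right, h_neg_right]
  ring

/-- **the closed form of the convolution** -/
theorem H_closed (x : ℝ) {y : ℝ} (hy : |y| < 2 * l) : H x y = KR x y := by
  have hl := l_pos
  rcases le_or_gt |y| l with h1 | h1
  · exact H_closed_l x h1
  -- the positive case
  have pos : ∀ y : ℝ, l < y → y < 2 * l → H x y = KR x y := by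
    intro y h1 h2
    have e := conv_h x (y := y - l) (by rw [abs_of_pos (by linarith)]; linarith)
    have e1 := KR_rule' (x := x) (y := y - l) (by linarith) (by
      rw [abs_of_pos (by linarith)]; linarith)
    have a1 := H_closed_l x (y := y - l) (by rw [abs_of_pos (by linarith)]; linarith)
    have a2 := H_closed_l x (y := y - l - l) (by rw [abs_le]; constructor <;> linarith)
    rw [sub_add_cancel] at e e1
    linarith
  rcases le_total 0 y with h0 | h0
  · rw [abs_of_nonneg h0] at h1 hy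
    exact pos y h1 hy
  · rw [abs_of_nonpos h0] at h1 hy
    rw [← H_neg_right, pos (-y) h1 hy, KR_neg x y (by rw [abs_of_nonpos h0]; linarith)]

/-- the lines beyond `2 l` -/
theorem H_add3 (x : ℝ) {y : ℝ} (h0 : -(4 * l) ≤ y) (h1 : y ≤ l) :
    H x (y + 3 * l) = -H x y + h x (y + l) + h x (y + 2 * l) := by
  have e1 := conv_h x (y := y + l) (by rw [abs_le]; constructor <;> linarith)
  have e2 := conv_h x (y := y + 2 * l) (by rw [abs_le]; constructor <;> linarith)
  rw [add_sub_cancel_right, show y + l + l = y + 2 * l by ring] at e1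
  rw [show y + 2 * l + l = y + 3 * l by ring, show y + 2 * l - l = y + l by ring] at e2
  linarith

/-! ### norms -/

lemma G0_neg (w : ℂ) : G0 (-w) = G0 w := by
  unfold G0
  simp only [mul_neg, Complex.cosh_neg]

lemma G0_conj (w : ℂ) : G0 ((starRingEnd ℂ) w) = (starRingEnd ℂ) (G0 w) := by
  unfold G0
  have h2 : (starRingEnd ℂ) (2 / 3 : ℂ) = 2 / 3 := by
    rw [show (2 / 3 : ℂ) = ((2 / 3 : ℝ) : ℂ) by norm_num, Complex.conj_ofReal]
  have h4 : (starRingEnd ℂ) (4 / 3 : ℂ) = 4 / 3 := by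
    rw [show (4 / 3 : ℂ) = ((4 / 3 : ℝ) : ℂ) by norm_num, Complex.conj_ofReal]
  have h1 : (starRingEnd ℂ) (1 / 3 : ℂ) = 1 / 3 := by
    rw [show (1 / 3 : ℂ) = ((1 / 3 : ℝ) : ℂ) by norm_num, Complex.conj_ofReal]
  have k2 : (starRingEnd ℂ) (2 : ℂ) = 2 := Complex.conj_ofReal 2
  have k4 : (starRingEnd ℂ) (4 : ℂ) = 4 := Complex.conj_ofReal 4
  simp only [map_div₀, map_mul, map_add, map_one, ← Complex.cosh_conj, h1, h2, h4, k2, k4]

lemma E0_neg_left (x y : ℝ) : E0 (-x) y = E0 x y := by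
  unfold E0
  have e : (((-x : ℝ) : ℂ) + y * I) = -((starRingEnd ℂ) ((x : ℂ) + y * I)) := by
    simp only [map_add, map_mul, Complex.conj_ofReal, Complex.conj_I]
    push_cast
    ring
  rw [e, G0_neg, G0_conj, Complex.norm_conj]

/-- `h` is the logarithm of the modulus of a sine: `h x y = log (2 ‖sin z‖ ^ 2)` -/
lemma log_sin {x y : ℝ} {z : ℂ} (hy : Real.cos (2 * y) = -Real.cos (2 * z.re)) (hx : x = z.im ∨ x = -z.im)
    (hz : Complex.sin z ≠ 0) : Real.log ‖Complex.sin z‖ = (h x y - Real.log 2) / 2 := by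
  have e1 : 2 * ‖Complex.sin z‖ ^ 2 = Real.cosh (2 * x) + Real.cos (2 * y) := by
    have h1 := two_norm_cosh_sq (Complex.I * z + Real.pi / 2 * Complex.I)
    have h2 : Complex.cosh (Complex.I * z + Real.pi / 2 * Complex.I) = -Complex.sin z := by
      have h3 := Complex.cosh_mul_I (z + Real.pi / 2)
      rw [Complex.cos_add_pi_div_two] at h3
      rw [← h3]
      congr 1
      ring
    rw [h2, norm_neg] at h1
    rw [h1]
    have i1 : (Complex.I * z + Real.pi / 2 * Complex.I).re = -z.im := by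
      simp
    have i2 : (Complex.I * z + Real.pi / 2 * Complex.I).im = z.re + Real.pi / 2 := by
      simp
    rw [i1, i2]
    congr 1
    · rcases hx with hx | hx <;> rw [hx]
      rw [show 2 * -z.im = -(2 * z.im) by ring, Real.cosh_neg]
    · rw [hy, show 2 * (z.re + Real.pi / 2) = 2 * z.re + Real.pi by ring, Real.cos_add_pi]
  have hn : 0 < ‖Complex.sin z‖ := norm_pos_iff.2 hz
  unfold h
  rw [← e1, Real.log_mul two_ne_zero (by positivity), Real.log_pow]
  push_cast
  ring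

/-- the factor `ρ` of the normalisation in the strip `|Re z| < 3 l` -/
def rhC (z : ℂ) : ℂ := Complex.sin (3 * l + z) * Complex.sin (3 * l - z) / G0 (I * z)

lemma G0_I {z : ℂ} (hz : |z.re| < 3 * l) : G0 (I * z) * Complex.sin (4 / 3 * z) =
    Complex.sin z * Complex.cos (4 / 3 * z) := by
  have h1 := G0_mul (w := I * z) (by simpa using hz)
  rw [show (4 / 3 : ℂ) * (I * z) = 4 / 3 * z * I by ring, mul_comm I z, Complex.sinh_mul_I,
    Complex.sinh_mul_I, Complex.cosh_mul_I] at h1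
  rw [mul_comm I z]
  have : (G0 (z * I) * Complex.sin (4 / 3 * z) - Complex.sin z * Complex.cos (4 / 3 * z)) * I = 0 := by
    linear_combination h1
  rcases mul_eq_zero.1 this with h | h
  · exact sub_eq_zero.1 h
  · exact absurd h I_ne_zero

/-- `ρ z = sin (3l + z) sin (3l - z) tan (4 z / 3) / sin z` -/
theorem rhC_eq {z : ℂ} (hz : |z.re| < 3 * l) (h0 : Complex.sin z ≠ 0) :
    rhC z = Complex.sin (3 * l + z) * Complex.sin (3 * l - z) * Complex.tan (4 / 3 * z) / Complex.sin z := by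
  have h1 := G0_I hz
  have hG : G0 (I * z) ≠ 0 := G0_ne (by simpa using hz)
  have hc : Complex.cos (4 / 3 * z) ≠ 0 := by
    have := c4_ne (w := I * z) (by simpa using hz)
    rwa [show (4 / 3 : ℂ) * (I * z) = 4 / 3 * z * I by ring, Complex.cosh_mul_I] at this
  have h2 : Complex.sin z = G0 (I * z) * Complex.sin (4 / 3 * z) / Complex.cos (4 / 3 * z) := by
    rw [eq_div_iff hc]
    exact h1.symm
  unfold rhC
  rw [Complex.tan_eq_sin_div_cos, div_eq_div_iff hG h0]
  calc Complex.sin (3 * l + z) * Complex.sin (3 * l - z) * Complex.sin z =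
      Complex.sin (3 * l + z) * Complex.sin (3 * l - z) *
        (G0 (I * z) * Complex.sin (4 / 3 * z) / Complex.cos (4 / 3 * z)) := by rw [← h2]
    _ = _ := by ring

lemma rhC_zero : rhC 0 = 4 / 3 * Complex.sin (3 * l) ^ 2 := by
  unfold rhC
  rw [mul_zero, G0_zero, add_zero, sub_zero]
  ring

lemma sin_ne_of {z : ℂ} (h0 : 0 < z.re) (h1 : z.re < 8 * l) : Complex.sin z ≠ 0 := by
  intro h
  rw [Complex.sin_eq_zero_iff] at h
  obtain ⟨k, hk⟩ := h
  have h2 := congrArg Complex.re hk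
  have e : ((k : ℂ) * Real.pi).re = k * Real.pi := by
    rw [← Complex.ofReal_intCast, ← Complex.ofReal_mul, Complex.ofReal_re]
  rw [e, ← eight_l] at h2
  have hl := l_pos
  rw [h2] at h0 h1
  have k0 : (0 : ℝ) < k := by
    by_contra h
    push Not at h
    have := mul_nonpos_of_nonpos_of_nonneg h (by linarith : 0 ≤ 8 * l)
    linarith
  have k1 : (k : ℝ) < 1 := by
    by_contra h
    push Not at h
    have := mul_le_mul_of_nonneg_right h (by linarith : 0 ≤ 8 * l)
    linarith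
  have k2 : (0 : ℤ) < k := by exact_mod_cast k0
  have k3 : k < (1 : ℤ) := by exact_mod_cast k1
  omega

lemma re3 (z : ℂ) (k : ℝ) : ((k : ℂ) * l + z).re = k * l + z.re := by
  rw [add_re, ← Complex.ofReal_mul, Complex.ofReal_re]

lemma cos_shift (k : ℝ) (y w : ℝ) (h : w = k * l + y) (n : ℝ) (hn : n = k - 4) :
    Real.cos (2 * (y + n * l)) = -Real.cos (2 * w) := by
  rw [h, hn, show 2 * (y + (k - 4) * l) = 2 * (k * l + y) - Real.pi by rw [← eight_l]; ring,
    Real.cos_sub_pi]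

/-- modulus of a shifted sine -/
lemma log_sin_shift (z : ℂ) (k n : ℝ) (hn : n = k - 4) (hz : Complex.sin (k * l + z) ≠ 0) :
    Real.log ‖Complex.sin (k * l + z)‖ = (h z.im (z.re + n * l) - Real.log 2) / 2 := by
  refine log_sin ?_ (Or.inl ?_) hz
  · exact cos_shift k z.re _ (re3 z k) n hn
  · rw [add_im, ← Complex.ofReal_mul, Complex.ofReal_im, zero_add]

theorem log_rhC {z : ℂ} (hz : |z.re| < 3 * l) : Real.log ‖rhC z‖ =
    (h z.im (z.re + l) + h z.im (z.re - l)) / 2 - Real.log 2 - E0 z.im z.re := by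
  have hl := l_pos
  obtain ⟨z1, z2⟩ := abs_lt.1 hz
  have s1 : Complex.sin ((3 : ℝ) * l + z) ≠ 0 := by
    refine sin_ne_of ?_ ?_ <;> rw [re3] <;> linarith
  have s2 : Complex.sin ((3 : ℝ) * l + -z) ≠ 0 := by
    refine sin_ne_of ?_ ?_ <;> rw [re3, neg_re] <;> linarith
  have l1 := log_sin_shift z 3 (-1) (by norm_num) s1
  have l2 := log_sin_shift (-z) 3 (-1) (by norm_num) s2
  have hG : G0 (I * z) ≠ 0 := G0_ne (by simpa using hz)
  have e3 : Real.log ‖G0 (I * z)‖ = E0 z.im z.re := by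
    rw [← E0_neg_left]
    unfold E0
    congr 3
    apply Complex.ext <;> simp
  push_cast at s1 s2 l1 l2
  rw [neg_re, neg_im, h_neg_left, show -z.re + -1 * l = -(z.re + l) by ring, h_neg_right] at l2
  rw [show z.re + -1 * l = z.re - l by ring] at l1
  unfold rhC
  rw [sub_eq_add_neg, norm_div, norm_mul, Real.log_div (mul_ne_zero (norm_ne_zero_iff.2 s1)
    (norm_ne_zero_iff.2 s2)) (norm_ne_zero_iff.2 hG), Real.log_mul (norm_ne_zero_iff.2 s1)
    (norm_ne_zero_iff.2 s2), l1, l2, e3]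
  ring

/-! ### the energies -/

/-- **row and row**, difference of the positions `z`: mean field value of the row factor -/
theorem en_row {z : ℂ} (hz : |z.re| ≤ l) :
    H z.im z.re - (H z.im (z.re + 3 * l) + H z.im (z.re - 3 * l)) / 2 =
      4 * Real.log ‖rhC z‖ - Real.log ‖Complex.sin (3 * l + z)‖ - Real.log ‖Complex.sin (3 * l - z)‖ -
        Real.log ‖Complex.sin (2 * l + z)‖ - Real.log ‖Complex.sin (2 * l - z)‖ := by
  have hl := l_pos
  obtain ⟨z1, z2⟩ := abs_le.1 hz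
  have s : ∀ k : ℝ, k = 2 ∨ k = 3 → ∀ w : ℂ, |w.re| ≤ l →
      Real.log ‖Complex.sin (k * l + w)‖ = (h w.im (w.re + (k - 4) * l) - Real.log 2) / 2 := by
    intro k hk w hw
    obtain ⟨w1, w2⟩ := abs_le.1 hw
    refine log_sin_shift w k _ rfl (sin_ne_of ?_ ?_) <;> rw [re3] <;>
      rcases hk with rfl | rfl <;> linarith
  have a1 := s 3 (Or.inr rfl) z hz
  have a2 := s 3 (Or.inr rfl) (-z) (by rwa [neg_re, abs_neg])
  have a3 := s 2 (Or.inl rfl) z hz
  have a4 := s 2 (Or.inl rfl) (-z) (by rwa [neg_re, abs_neg])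
  push_cast at a1 a2 a3 a4
  rw [neg_re, neg_im, h_neg_left, ← sub_eq_add_neg] at a2 a4
  rw [show -z.re + (3 - 4) * l = -(z.re + l) by ring, h_neg_right] at a2
  rw [show -z.re + (2 - 4) * l = -(z.re + 2 * l) by ring, h_neg_right] at a4
  rw [show z.re + (3 - 4) * l = z.re - l by ring] at a1
  rw [show z.re + (2 - 4) * l = z.re - 2 * l by ring] at a3
  rw [a1, a2, a3, a4, log_rhC (by linarith)]
  have e0 := H_closed z.im (y := z.re) (by linarith)
  have e1 := H_add3 z.im (y := z.re) (by linarith) (by linarith)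
  have e2 := H_add3 z.im (y := -z.re) (by linarith) (by linarith)
  rw [show -z.re + 3 * l = -(z.re - 3 * l) by ring, H_neg_right, H_neg_right,
    show -z.re + l = -(z.re - l) by ring, show -z.re + 2 * l = -(z.re - 2 * l) by ring,
    h_neg_right, h_neg_right] at e2
  unfold KR at e0
  rw [e1, e2, e0]
  ring

/-- **row and leg**, `z` = position of the leg minus position of the row -/
theorem en_leg {z : ℂ} (h0 : -l ≤ z.re) (h1 : z.re < 2 * l) :
    (H z.im z.re - H z.im (z.re - 3 * l)) / 2 =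
      2 * Real.log ‖rhC z‖ - Real.log ‖Complex.sin (3 * l + z)‖ - Real.log ‖Complex.sin (2 * l + z)‖ := by
  have hl := l_pos
  have a1 := log_sin_shift z 3 (3 - 4) rfl (sin_ne_of (by rw [re3]; linarith) (by rw [re3]; linarith))
  have a3 := log_sin_shift z 2 (2 - 4) rfl (sin_ne_of (by rw [re3]; linarith) (by rw [re3]; linarith))
  push_cast at a1 a3
  rw [show z.re + (3 - 4) * l = z.re - l by ring] at a1
  rw [show z.re + (2 - 4) * l = z.re - 2 * l by ring] at a3
  have hz : |z.re| < 2 * l := by rw [abs_lt]; constructor <;> linarith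
  rw [a1, a3, log_rhC (by linarith)]
  have e0 := H_closed z.im hz
  have e2 := H_add3 z.im (y := -z.re) (by linarith) (by linarith)
  rw [show -z.re + 3 * l = -(z.re - 3 * l) by ring, H_neg_right, H_neg_right,
    show -z.re + l = -(z.re - l) by ring, show -z.re + 2 * l = -(z.re - 2 * l) by ring,
    h_neg_right, h_neg_right] at e2
  unfold KR at e0
  rw [e2, e0]
  ring

/-- the leg energy beyond `2 l`: reflection at `3 l / 2` -/
theorem en_leg_refl (x y : ℝ) : (H x (3 * l - y) - H x (3 * l - y - 3 * l)) / 2 =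
    -((H x y - H x (y - 3 * l)) / 2) := by
  rw [show 3 * l - y - 3 * l = -y by ring, show 3 * l - y = -(y - 3 * l) by ring, H_neg_right,
    H_neg_right]
  ring

end NUMF

end
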