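import Pool.Agent.PB.MFrho
import Pool.Agent.NUMFH.Dens

/-!
# Energies of rows and legs against the density of rows at `± b`

`∫ Pb b t log (row factor of x) (l + i t) = (mE (x - b) + mE (x + b)) / 2` and the same for a leg.
-/

open MeasureTheory Filter Topology Set Complex

noncomputable section

namespace NUMFH

open NUMF

/-- energy of a pair of rows at distance `d` -/
def mE (d : ℂ) : ℝ := 4 * Real.log ‖rhC d‖ - Real.log ‖Complex.sin (3 * l + d)‖ -
  Real.log ‖Complex.sin (3 * l - d)‖ - Real.log ‖Complex.sin (2 * l + d)‖ -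
    Real.log ‖Complex.sin (2 * l - d)‖

/-- energy of a leg at distance `d` from a row -/
def lE (d : ℂ) : ℝ := (H d.im d.re - H d.im (d.re - 3 * l)) / 2

/-- `log` of the modulus of the row factor on the line `A` -/
theorem log_row {x : ℂ} (hx : |x.re| < l) (t : ℝ) :
    Real.log (‖Complex.sin ((l : ℂ) + t * I - x + 3 * l)‖ ^ 2 /
      (‖Complex.sin ((l : ℂ) + t * I - x)‖ * ‖Complex.sin ((l : ℂ) + t * I - x - 2 * l)‖)) =
    h (x.im - t) x.re - (h (x.im - t) (x.re + 3 * l) + h (x.im - t) (x.re - 3 * l)) / 2 := by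
  have hl := l_pos
  obtain ⟨x1, x2⟩ := abs_lt.1 hx
  have hre : (t * I - x : ℂ).re = -x.re := by simp
  have him : (t * I - x : ℂ).im = t - x.im := by simp
  have hre2 : (x - t * I : ℂ).re = x.re := by simp
  have him2 : (x - t * I : ℂ).im = x.im - t := by simp
  have s4 : Complex.sin ((4 : ℝ) * l + (t * I - x)) ≠ 0 :=
    sin_ne_of (by rw [re3, hre]; linarith) (by rw [re3, hre]; linarith)
  have s1 : Complex.sin ((1 : ℝ) * l + (t * I - x)) ≠ 0 :=
    sin_ne_of (by rw [re3, hre]; linarith) (by rw [re3, hre]; linarith)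
  have s2 : Complex.sin ((1 : ℝ) * l + (x - t * I)) ≠ 0 :=
    sin_ne_of (by rw [re3, hre2]; linarith) (by rw [re3, hre2]; linarith)
  have l4 := log_sin_shift (t * I - x) 4 0 (by norm_num) s4
  have l1 := log_sin_shift (t * I - x) 1 (-3) (by norm_num) s1
  have l2 := log_sin_shift (x - t * I) 1 (-3) (by norm_num) s2
  rw [hre, him] at l4 l1
  rw [hre2, him2] at l2
  have f : t - x.im = -(x.im - t) := by ring
  rw [zero_mul, add_zero, f, h_neg_left, h_neg_right] at l4
  rw [f, h_neg_left, show -x.re + -3 * l = -(x.re + 3 * l) by ring, h_neg_right] at l1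
  rw [show x.re + -3 * l = x.re - 3 * l by ring] at l2
  have e4 : ((l : ℂ) + t * I - x + 3 * l) = ((4 : ℝ) : ℂ) * l + (t * I - x) := by push_cast; ring
  have e1 : ((l : ℂ) + t * I - x) = ((1 : ℝ) : ℂ) * l + (t * I - x) := by push_cast; ring
  have e2 : ((l : ℂ) + t * I - x - 2 * l) = -(((1 : ℝ) : ℂ) * l + (x - t * I)) := by push_cast; ring
  rw [e4, e2, e1, Complex.sin_neg, norm_neg, Real.log_div (by
    have := norm_ne_zero_iff.2 s4; positivity) (mul_ne_zero (norm_ne_zero_iff.2 s1)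
    (norm_ne_zero_iff.2 s2)), Real.log_pow, Real.log_mul (norm_ne_zero_iff.2 s1)
    (norm_ne_zero_iff.2 s2), l4, l1, l2]
  push_cast
  ring

/-- `log` of the modulus of the leg factor on the line `A` -/
theorem log_leg {z : ℂ} (h0 : -l < z.re) (h1 : z.re < 4 * l) (t : ℝ) :
    Real.log (‖Complex.sin (z - ((l : ℂ) + t * I) - 3 * l)‖ /
      ‖Complex.sin (z - ((l : ℂ) + t * I) + 2 * l)‖) =
    (h (z.im - t) z.re - h (z.im - t) (z.re - 3 * l)) / 2 := by
  have hl := l_pos
  have hre : (z - t * I : ℂ).re = z.re := by simp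
  have him : (z - t * I : ℂ).im = z.im - t := by simp
  have s4 : Complex.sin ((4 : ℝ) * l + (z - t * I)) ≠ 0 :=
    sin_ne_of (by rw [re3, hre]; linarith) (by rw [re3, hre]; linarith)
  have s1 : Complex.sin ((1 : ℝ) * l + (z - t * I)) ≠ 0 :=
    sin_ne_of (by rw [re3, hre]; linarith) (by rw [re3, hre]; linarith)
  have l4 := log_sin_shift (z - t * I) 4 0 (by norm_num) s4
  have l1 := log_sin_shift (z - t * I) 1 (-3) (by norm_num) s1
  rw [hre, him] at l4 l1
  rw [zero_mul, add_zero] at l4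
  rw [show z.re + -3 * l = z.re - 3 * l by ring] at l1
  have e4 : (z - ((l : ℂ) + t * I) - 3 * l) = ((4 : ℝ) : ℂ) * l + (z - t * I) - Real.pi := by
    rw [← eight_l]; push_cast; ring
  have e1 : (z - ((l : ℂ) + t * I) + 2 * l) = ((1 : ℝ) : ℂ) * l + (z - t * I) := by push_cast; ring
  rw [e4, e1, Complex.sin_sub_pi, norm_neg, Real.log_div (norm_ne_zero_iff.2 s4)
    (norm_ne_zero_iff.2 s1), l4, l1]
  ring

variable {b : ℝ}

/-- **row against density**: for the density `Pb b` of a pair of rows at `± b` -/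
theorem int_row (hb0 : 0 ≤ b) (hb : b < l) {x : ℂ} (hx : |x.re| < l) (hx' : |x.re| + b ≤ l) :
    Integrable (fun t : ℝ => Pb b t * Real.log (‖Complex.sin ((l : ℂ) + t * I - x + 3 * l)‖ ^ 2 /
      (‖Complex.sin ((l : ℂ) + t * I - x)‖ * ‖Complex.sin ((l : ℂ) + t * I - x - 2 * l)‖))) ∧
    ∫ t : ℝ, Pb b t * Real.log (‖Complex.sin ((l : ℂ) + t * I - x + 3 * l)‖ ^ 2 /
      (‖Complex.sin ((l : ℂ) + t * I - x)‖ * ‖Complex.sin ((l : ℂ) + t * I - x - 2 * l)‖)) =
      (mE (x - b) + mE (x + b)) / 2 := by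
  have hl := l_pos
  obtain ⟨x1, x2⟩ := abs_le.1 (by linarith : |x.re| ≤ l - b)
  simp only [log_row hx]
  have i0 := Pbh_integrable hb0 hb x.im x.re
  have i1 := Pbh_integrable hb0 hb x.im (x.re + 3 * l)
  have i2 := Pbh_integrable hb0 hb x.im (x.re - 3 * l)
  have e : (fun t : ℝ => Pb b t * (h (x.im - t) x.re -
      (h (x.im - t) (x.re + 3 * l) + h (x.im - t) (x.re - 3 * l)) / 2)) = fun t =>
      Pb b t * h (x.im - t) x.re - (Pb b t * h (x.im - t) (x.re + 3 * l) +
        Pb b t * h (x.im - t) (x.re - 3 * l)) / 2 := by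
    funext t
    ring
  rw [e]
  refine ⟨i0.sub ((i1.add i2).div_const 2), ?_⟩
  have e1 := integral_sub i0 ((i1.add i2).div_const 2)
  have e2 := integral_add i1 i2
  simp only [Pi.add_apply] at e1 e2
  rw [e1, integral_div, e2]
  have f0 := Hb_eq hb0 hb x.im (y := x.re) (by rw [← sub_nonneg]; linarith [abs_le.2 ⟨x1, x2⟩])
  have f1 := Hb_eq hb0 hb x.im (y := x.re + 3 * l) (by
    have : |x.re + 3 * l| ≤ 4 * l - b := by rw [abs_le]; constructor <;> linarith
    linarith)
  have f2 := Hb_eq hb0 hb x.im (y := x.re - 3 * l) (by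
    have : |x.re - 3 * l| ≤ 4 * l - b := by rw [abs_le]; constructor <;> linarith
    linarith)
  unfold Hb at f0 f1 f2
  rw [f0, f1, f2]
  have a1 : (x - b : ℂ).re = x.re - b := by simp
  have a2 : (x + b : ℂ).re = x.re + b := by simp
  have b1 : (x - b : ℂ).im = x.im := by simp
  have b2 : (x + b : ℂ).im = x.im := by simp
  have r1 := en_row (z := x - b) (by rw [a1, abs_le]; constructor <;> linarith)
  have r2 := en_row (z := x + b) (by rw [a2, abs_le]; constructor <;> linarith)
  rw [a1, b1] at r1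
  rw [a2, b2] at r2
  unfold mE
  rw [← r1, ← r2, show x.re - b + 3 * l = x.re + 3 * l - b by ring,
    show x.re - b - 3 * l = x.re - 3 * l - b by ring,
    show x.re + b + 3 * l = x.re + 3 * l + b by ring,
    show x.re + b - 3 * l = x.re - 3 * l + b by ring]
  ring

/-- **leg against density** -/
theorem int_leg (hb0 : 0 ≤ b) (hb : b < l) {z : ℂ} (h0 : -l < z.re) (h1 : z.re < 4 * l)
    (h0' : b - l ≤ z.re) (h1' : z.re ≤ 4 * l - b) :
    Integrable (fun t : ℝ => Pb b t * Real.log (‖Complex.sin (z - ((l : ℂ) + t * I) - 3 * l)‖ /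
      ‖Complex.sin (z - ((l : ℂ) + t * I) + 2 * l)‖)) ∧
    ∫ t : ℝ, Pb b t * Real.log (‖Complex.sin (z - ((l : ℂ) + t * I) - 3 * l)‖ /
      ‖Complex.sin (z - ((l : ℂ) + t * I) + 2 * l)‖) = (lE (z - b) + lE (z + b)) / 2 := by
  have hl := l_pos
  simp only [log_leg h0 h1]
  have i0 := Pbh_integrable hb0 hb z.im z.re
  have i2 := Pbh_integrable hb0 hb z.im (z.re - 3 * l)
  have e : (fun t : ℝ => Pb b t * ((h (z.im - t) z.re - h (z.im - t) (z.re - 3 * l)) / 2)) = fun t =>
      (Pb b t * h (z.im - t) z.re - Pb b t * h (z.im - t) (z.re - 3 * l)) / 2 := by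
    funext t
    ring
  rw [e]
  refine ⟨(i0.sub i2).div_const 2, ?_⟩
  have e1 := integral_sub i0 i2
  rw [integral_div, e1]
  have f0 := Hb_eq hb0 hb z.im (y := z.re) (by
    have : |z.re| ≤ 4 * l - b := by rw [abs_le]; constructor <;> linarith
    linarith)
  have f2 := Hb_eq hb0 hb z.im (y := z.re - 3 * l) (by
    have : |z.re - 3 * l| ≤ 4 * l - b := by rw [abs_le]; constructor <;> linarith
    linarith)
  unfold Hb at f0 f2
  rw [f0, f2]
  have a1 : (z - b : ℂ).re = z.re - b := by simp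
  have a2 : (z + b : ℂ).re = z.re + b := by simp
  have b1 : (z - b : ℂ).im = z.im := by simp
  have b2 : (z + b : ℂ).im = z.im := by simp
  unfold lE
  rw [a1, a2, b1, b2, show z.re - b - 3 * l = z.re - 3 * l - b by ring,
    show z.re + b - 3 * l = z.re - 3 * l + b by ring]
  ring

/-- value of the leg energy -/
theorem lE_eq {d : ℂ} (h0 : -l ≤ d.re) (h1 : d.re < 2 * l) : lE d = 2 * Real.log ‖rhC d‖ -
    Real.log ‖Complex.sin (3 * l + d)‖ - Real.log ‖Complex.sin (2 * l + d)‖ := en_leg h0 h1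

/-- reflection of the leg energy -/
theorem lE_refl (d d' : ℂ) (hr : d'.re = 3 * l - d.re) (hi : d'.im = d.im ∨ d'.im = -d.im) :
    lE d' = -lE d := by
  unfold lE
  have hH : ∀ y : ℝ, H d'.im y = H d.im y := by
    intro y
    rcases hi with hi | hi <;> rw [hi]
    unfold H
    have := integral_neg_eq_self (fun s => P s * h (-d.im - s) y) volume
    rw [← this]
    refine integral_congr_ae (Eventually.of_forall fun s => ?_)
    simp only
    rw [P_neg, show -d.im - -s = -(d.im - s) by ring, h_neg_left]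
  rw [hH, hH, hr, show 3 * l - d.re - 3 * l = -d.re by ring,
    show 3 * l - d.re = -(d.re - 3 * l) by ring, H_neg_right, H_neg_right]
  ring

theorem mE_even (d : ℂ) : mE (-d) = mE d := by
  unfold mE
  have : rhC (-d) = rhC d := by
    unfold rhC
    rw [show I * -d = -(I * d) by ring, G0_neg, sub_neg_eq_add, ← sub_eq_add_neg]
    ring
  rw [this, sub_neg_eq_add, sub_neg_eq_add, ← sub_eq_add_neg, ← sub_eq_add_neg]
  ring

/-- the balanced sea of rows at `± l / 2` -/
theorem int_Pd_vd : ∫ s, Pd s * vd s = (mE 0 + mE l) / 2 := by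
  have hl := l_pos
  have hx : ((l / 2 : ℝ) : ℂ).re = l / 2 := Complex.ofReal_re _
  have h1 := (int_row (b := l / 2) half_nonneg half_lt (x := ((l / 2 : ℝ) : ℂ))
    (by rw [hx, abs_of_pos (by linarith)]; linarith) (by rw [hx, abs_of_pos (by linarith)]; linarith)).2
  rw [show ((l / 2 : ℝ) : ℂ) - (l / 2 : ℝ) = 0 by ring,
    show ((l / 2 : ℝ) : ℂ) + (l / 2 : ℝ) = l by push_cast; ring] at h1
  rw [← h1]
  refine integral_congr_ae (Eventually.of_forall fun t => ?_)
  simp only
  rw [log_row (by rw [hx, abs_of_pos (by linarith)]; linarith), Pb_half, hx, Complex.ofReal_im,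
    zero_sub, h_neg_left, h_neg_left, h_neg_left]
  unfold vd
  rw [show l / 2 + 3 * l = 7 / 2 * l by ring, show l / 2 - 3 * l = -(5 / 2 * l) by ring,
    h_neg_right]

/-- the sea of rows at `0` -/
theorem int_P_v : ∫ s, P s * v s = mE 0 := by
  have hl := l_pos
  have h1 := (int_row (b := 0) le_rfl hl (x := 0) (by simpa using hl) (by simpa using hl.le)).2
  rw [Complex.ofReal_zero, sub_zero, add_zero] at h1
  rw [show mE 0 = (mE 0 + mE 0) / 2 by ring, ← h1]
  refine integral_congr_ae (Eventually.of_forall fun t => ?_)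
  simp only
  rw [log_row (by simpa using hl), Pb_zero, Complex.zero_re, Complex.zero_im,
    zero_sub, h_neg_left, h_neg_left, h_neg_left, zero_add, zero_sub, h_neg_right, v_eq]
  ring

end NUMFH

end
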