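import Pool.Agent.PB.MFrho2
import Pool.Agent.PB.Rho

/-!
# The convolution of the density is the logarithm of `rh`

`H t y = 2 log ‖rh (y + i t)‖ + log 2` on every line `|y| ≤ 4 l`.
-/

open MeasureTheory Filter Topology Set Complex

noncomputable section

namespace NUMF

open PBR (rh)

lemma l_eq1 : NUP1.l = l := rfl

/-- `rhC = rh` -/
theorem rhC_rh {z : ℂ} (hz : |z.re| < 3 * l) : rhC z = rh z := by
  have hl := l_pos
  have hG : G0 (I * z) ≠ 0 := G0_ne (by simpa using hz)
  by_cases hs : Complex.sin (4 / 3 * z) = 0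
  · -- only the origin
    have hz0 : z = 0 := by
      rw [Complex.sin_eq_zero_iff] at hs
      obtain ⟨k, hk⟩ := hs
      have h1 := congrArg Complex.re hk
      have h2 := congrArg Complex.im hk
      have e1 : (4 / 3 * z : ℂ).re = 4 / 3 * z.re := re43' z
      have e2 : (4 / 3 * z : ℂ).im = 4 / 3 * z.im := im43' z
      have e3 : ((k : ℂ) * Real.pi).re = k * Real.pi := by
        rw [← Complex.ofReal_intCast, ← Complex.ofReal_mul, Complex.ofReal_re]
      have e4 : ((k : ℂ) * Real.pi).im = 0 := by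
        rw [← Complex.ofReal_intCast, ← Complex.ofReal_mul, Complex.ofReal_im]
      rw [e1, e3, ← eight_l] at h1
      rw [e2, e4] at h2
      have h3 : z.re = k * (6 * l) := by linarith
      have h4 : |(k : ℝ)| < 1 := by
        rw [h3, abs_mul, abs_of_pos (by linarith : 0 < 6 * l)] at hz
        by_contra hc
        push Not at hc
        nlinarith
      have h5 : k = 0 := by
        have h6 : |k| < 1 := by exact_mod_cast h4
        exact Int.abs_lt_one_iff.1 h6
      apply Complex.ext
      · rw [h3, h5]; simp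
      · simpa using h2
    rw [hz0, rhC_zero, PBR.rh_zero]
    have e : Complex.sin (3 * l) ^ 2 = (2 + PBR.r2) / 4 := by
      have h1 := Complex.sin_sq_add_cos_sq (3 * (l : ℂ))
      have h2 := Complex.cos_two_mul (3 * (l : ℂ))
      have h3 : Complex.cos (2 * (3 * (l : ℂ))) = -(PBR.r2 / 2) := by
        rw [show 2 * (3 * (l : ℂ)) = (Real.pi : ℂ) - Real.pi / 4 by unfold l; push_cast; ring,
          Complex.cos_pi_sub, PBR.cos_pi4]
      rw [h3] at h2
      linear_combination h1 + h2 / 2
    rw [e]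
    ring
  · have h1 := G0_I hz
    have h2 := PBR.rh_eq' (w := z) (by rw [l_eq1]; linarith)
    rw [show 4 * z / 3 = 4 / 3 * z by ring, l_eq1] at h2
    unfold rhC
    rw [div_eq_iff hG]
    have h3 : (Complex.sin (3 * l + z) * Complex.sin (3 * l - z) - rh z * G0 (I * z)) *
        Complex.sin (4 / 3 * z) = 0 := by
      linear_combination -h2 - rh z * h1
    rcases mul_eq_zero.1 h3 with h | h
    · exact sub_eq_zero.1 h
    · exact absurd h hs

lemma H_rh0 {z : ℂ} (hz : |z.re| < 2 * l) : H z.im z.re = 2 * Real.log ‖rh z‖ + Real.log 2 := by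
  have hl := l_pos
  rw [H_closed _ hz, ← rhC_rh (by linarith), log_rhC (by linarith)]
  unfold KR
  ring

/-- **the convolution of the density**: `z = y + i t` -/
theorem H_rhz {z : ℂ} (hz : |z.re| ≤ 4 * l) : H z.im z.re = 2 * Real.log ‖rh z‖ + Real.log 2 := by
  have hl := l_pos
  -- the right half
  have pos : ∀ z : ℂ, 0 ≤ z.re → z.re ≤ 4 * l → H z.im z.re = 2 * Real.log ‖rh z‖ + Real.log 2 := by
    intro z h0 h4
    rcases lt_or_ge z.re (2 * l) with h1 | h1
    · exact H_rh0 (by rw [abs_of_nonneg h0]; exact h1)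
    · obtain ⟨w, hw⟩ : ∃ w : ℂ, w = z - 3 * l := ⟨_, rfl⟩
      have wr : w.re = z.re - 3 * l := by
        rw [hw, Complex.sub_re]
        congr 1
        rw [show (3 * l : ℂ) = ((3 * l : ℝ) : ℂ) by push_cast; ring, Complex.ofReal_re]
      have wi : w.im = z.im := by
        rw [hw, Complex.sub_im, show (3 * l : ℂ) = ((3 * l : ℝ) : ℂ) by push_cast; ring,
          Complex.ofReal_im, sub_zero]
      have a0 := H_rh0 (z := w) (by rw [wr, abs_lt]; constructor <;> linarith)
      have a1 := H_add3 w.im (y := w.re) (by rw [wr]; linarith) (by rw [wr]; linarith)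
      have s3 : Complex.sin ((3 : ℝ) * l + -w) ≠ 0 := by
        refine sin_ne_of ?_ ?_ <;> rw [re3, neg_re, wr] <;> linarith
      have s2 : Complex.sin ((2 : ℝ) * l + -w) ≠ 0 := by
        refine sin_ne_of ?_ ?_ <;> rw [re3, neg_re, wr] <;> linarith
      have b1 := log_sin_shift (-w) 3 (3 - 4) rfl s3
      have b2 := log_sin_shift (-w) 2 (2 - 4) rfl s2
      rw [neg_re, neg_im, h_neg_left, show -w.re + (3 - 4) * l = -(w.re + l) by ring,
        h_neg_right] at b1
      rw [neg_re, neg_im, h_neg_left, show -w.re + (2 - 4) * l = -(w.re + 2 * l) by ring,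
        h_neg_right] at b2
      push_cast at s3 s2 b1 b2
      rw [← sub_eq_add_neg] at s3 s2 b1 b2
      have hm := PBR.rh_mul (w := w) (by rw [l_eq1, wr, abs_lt]; constructor <;> linarith)
        (by rw [l_eq1, wr, abs_lt]; constructor <;> linarith)
      rw [l_eq1, show w + 3 * (l : ℂ) = z by rw [hw]; ring] at hm
      have n0 : rh w ≠ 0 := PBR.rh_ne_zero (by rw [l_eq1, wr, abs_lt]; constructor <;> linarith)
      have n1 : rh z ≠ 0 := PBR.rh_ne_zero (by rw [l_eq1, abs_lt]; constructor <;> linarith)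
      have hm2 := congrArg (fun z => Real.log ‖z‖) hm
      simp only [norm_mul] at hm2
      rw [Real.log_mul (norm_ne_zero_iff.2 n0) (norm_ne_zero_iff.2 n1),
        Real.log_mul (norm_ne_zero_iff.2 s3) (norm_ne_zero_iff.2 s2)] at hm2
      rw [wi, wr, show z.re - 3 * l + 3 * l = z.re by ring] at a1
      rw [wi, wr] at b1 b2 a0
      rw [a1, a0]
      linarith
  rcases le_total 0 z.re with h0 | h0
  · rw [abs_of_nonneg h0] at hz
    exact pos z h0 hz
  · rw [abs_of_nonpos h0] at hz
    have a := pos (-(starRingEnd ℂ z)) (by simpa using h0) (by simpa using hz)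
    rw [PBR.rh_neg, PBR.rh_conj, Complex.norm_conj] at a
    have e1 : (-(starRingEnd ℂ z)).re = -z.re := by simp
    have e2 : (-(starRingEnd ℂ z)).im = z.im := by simp
    rw [e1, e2, H_neg_right] at a
    exact a

/-- in units `l` -/
theorem H_rh (t : ℝ) {y : ℝ} (hy : |y| ≤ 4) :
    H t (y * l) = 2 * Real.log ‖rh (((y * l : ℝ) : ℂ) + t * I)‖ + Real.log 2 := by
  have hl := l_pos
  have e1 : (((y * l : ℝ) : ℂ) + t * I).re = y * l := by simp
  have e2 : (((y * l : ℝ) : ℂ) + t * I).im = t := by simp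
  have := H_rhz (z := ((y * l : ℝ) : ℂ) + t * I) (by
    rw [e1, abs_mul, abs_of_pos hl]
    exact mul_le_mul_of_nonneg_right hy hl.le)
  rwa [e1, e2] at this

end NUMF

namespace NUMFH

open NUMF
open PBR (rh)

/-- energy of two rows with `rh` -/
theorem mE_rh {d : ℂ} (hd : |d.re| < 3 * l) : mE d = 4 * Real.log ‖rh d‖ -
    Real.log ‖Complex.sin (3 * l + d)‖ - Real.log ‖Complex.sin (3 * l - d)‖ -
      Real.log ‖Complex.sin (2 * l + d)‖ - Real.log ‖Complex.sin (2 * l - d)‖ := by
  unfold mE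
  rw [rhC_rh hd]

/-- **energy of a leg and a row with `rh`, whole range** -/
theorem lE_rh {d : ℂ} (h0 : -l ≤ d.re) (h1 : d.re ≤ 4 * l) : lE d = 2 * Real.log ‖rh d‖ -
    Real.log ‖Complex.sin (3 * l + d)‖ - Real.log ‖Complex.sin (2 * l + d)‖ := by
  have hl := l_pos
  have wr : (d - 3 * (l : ℂ)).re = d.re - 3 * l := by
    rw [Complex.sub_re]
    congr 1
    rw [show (3 * l : ℂ) = ((3 * l : ℝ) : ℂ) by push_cast; ring, Complex.ofReal_re]
  have wi : (d - 3 * (l : ℂ)).im = d.im := by
    rw [Complex.sub_im, show (3 * l : ℂ) = ((3 * l : ℝ) : ℂ) by push_cast; ring,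
      Complex.ofReal_im, sub_zero]
  have a0 := H_rhz (z := d) (by rw [abs_le]; constructor <;> linarith)
  have a1 := H_rhz (z := d - 3 * (l : ℂ)) (by rw [wr, abs_le]; constructor <;> linarith)
  rw [wr, wi] at a1
  have hm := PBR.rh_mul' (w := d) (by rw [l_eq1, abs_lt]; constructor <;> linarith)
    (by rw [l_eq1, abs_lt]; constructor <;> linarith)
  rw [l_eq1] at hm
  have n0 : rh d ≠ 0 := PBR.rh_ne_zero (by rw [l_eq1, abs_lt]; constructor <;> linarith)
  have n1 : rh (d - 3 * (l : ℂ)) ≠ 0 := PBR.rh_ne_zero (by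
    rw [l_eq1, wr, abs_lt]; constructor <;> linarith)
  have s3 : Complex.sin (3 * (l : ℂ) + d) ≠ 0 := by
    have := sin_ne_of (z := ((3 : ℝ) : ℂ) * l + d) (by rw [re3]; linarith) (by rw [re3]; linarith)
    simpa using this
  have s2 : Complex.sin (2 * (l : ℂ) + d) ≠ 0 := by
    have := sin_ne_of (z := ((2 : ℝ) : ℂ) * l + d) (by rw [re3]; linarith) (by rw [re3]; linarith)
    simpa using this
  have hm2 := congrArg (fun z => Real.log ‖z‖) hm
  simp only [norm_mul] at hm2
  rw [Real.log_mul (norm_ne_zero_iff.2 n0) (norm_ne_zero_iff.2 n1),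
    Real.log_mul (norm_ne_zero_iff.2 s3) (norm_ne_zero_iff.2 s2)] at hm2
  unfold lE
  rw [a0, a1]
  linarith

end NUMFH

end
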