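import Pool.Agent.NUP.MF.Forward

/-!
# Plan B: the vector field of one moved row and the mean field part of the Ward identity

`Kw = (log w)'`, `Kg = (log g)'`, `V' = -(Kw + Kg)`.  For a sea `ρ` with potential `V * ρ` and a
perturbation `ρ1`, the field `ξ = ρ1 / ρ` satisfies
`(V * ρ)' ξ + ∫ (ξ t - ξ s) (Kw + Kg)(t - s) ρ s ds = (V * ρ1)'`.
-/

set_option autoImplicit false

open MeasureTheory Set Filter Topology

namespace Pool.Agent.PB

open NUMF

noncomputable section

/-! ### kernels -/

/-- `(log w)'` -/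
def Kw (u : ℝ) : ℝ := 2 * Real.sinh (2 * u) / (Real.cosh (2 * u) - 1) +
  2 * Real.sinh (2 * u) / Real.cosh (2 * u) - 2 * Real.sinh (2 * u) / (Real.cosh (2 * u) - r)

/-- `(log g)'` -/
def Kg (u : ℝ) : ℝ := 2 * Real.sinh (2 * u) / (Real.cosh (2 * u) + 1) -
  4 * Real.sinh (2 * u) / (Real.cosh (2 * u) + r)

lemma Kw_neg (u : ℝ) : Kw (-u) = - Kw u := by
  unfold Kw
  rw [mul_neg, Real.sinh_neg, Real.cosh_neg]
  ring

lemma Kg_neg (u : ℝ) : Kg (-u) = - Kg u := by
  unfold Kg
  rw [mul_neg, Real.sinh_neg, Real.cosh_neg]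
  ring

lemma hasDerivAt_h {u y : ℝ} (hp : 0 < Real.cosh (2 * u) + Real.cos (2 * y)) :
    HasDerivAt (fun u => h u y) (2 * Real.sinh (2 * u) / (Real.cosh (2 * u) + Real.cos (2 * y))) u := by
  have h1 : HasDerivAt (fun u : ℝ => 2 * u) 2 u := by simpa using (hasDerivAt_id u).const_mul 2
  have h2 : HasDerivAt (fun u : ℝ => Real.cosh (2 * u) + Real.cos (2 * y))
      (Real.sinh (2 * u) * 2) u := (h1.cosh).add_const _
  have h3 := h2.log hp.ne'
  unfold h
  convert! h3 using 1
  ring

lemma h_arg_pos {u : ℝ} (hu : u ≠ 0) (y : ℝ) : 0 < Real.cosh (2 * u) + Real.cos (2 * y) := by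
  have h1 := arg_ge u y
  have h2 : 0 < 2 * u ^ 2 := by positivity
  linarith

lemma hasDerivAt_log_w {u : ℝ} (hu : u ≠ 0) : HasDerivAt (fun u => Real.log (w u)) (Kw u) u := by
  have hl8 : 2 * (3 * l + l) = Real.pi := by unfold l; ring
  have hl4 : 2 * (3 * l - l) = Real.pi / 2 := by unfold l; ring
  have hl3 : 2 * (3 * l) = Real.pi - Real.pi / 4 := by unfold l; ring
  have a := (((hasDerivAt_h (h_arg_pos hu (3 * l + l))).add
    (hasDerivAt_h (h_arg_pos hu (3 * l - l)))).sub
    (hasDerivAt_h (h_arg_pos hu (3 * l)))).sub_const (Real.log 2)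
  rw [hl8, hl4, hl3, Real.cos_pi, Real.cos_pi_div_two, Real.cos_pi_sub, ← r_eq] at a
  have e : (fun u => Real.log (w u)) =ᶠ[𝓝 u] fun u =>
      h u (3 * l + l) + h u (3 * l - l) - h u (3 * l) - Real.log 2 := by
    filter_upwards [isOpen_ne.mem_nhds hu] with x hx
    exact log_w hx
  refine HasDerivAt.congr_of_eventuallyEq ?_ e
  convert! a using 1
  unfold Kw
  ring_nf

lemma hasDerivAt_log_g (u : ℝ) : HasDerivAt (fun u => Real.log (g u)) (Kg u) u := by
  have c1 := Real.one_le_cosh (2 * u)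
  have hr := r_pos
  have k0 : Real.cos (2 * (0 : ℝ)) = 1 := by rw [mul_zero, Real.cos_zero]
  have hl1 : 2 * (0 + l) = Real.pi / 4 := by unfold l; ring
  have hl2 : 2 * (0 - l) = -(Real.pi / 4) := by unfold l; ring
  have k1 : Real.cos (2 * (0 + l)) = r := by rw [hl1, r_eq]
  have k2 : Real.cos (2 * (0 - l)) = r := by rw [hl2, Real.cos_neg, r_eq]
  have a := (hasDerivAt_const u (Real.log 2)).sub
    (((hasDerivAt_h (u := u) (y := 0 + l) (by rw [k1]; linarith)).add
    (hasDerivAt_h (u := u) (y := 0 - l) (by rw [k2]; linarith))).sub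
    (hasDerivAt_h (u := u) (y := 0) (by rw [k0]; linarith)))
  rw [k0, k1, k2] at a
  refine HasDerivAt.congr_of_eventuallyEq ?_ (Eventually.of_forall log_g)
  convert! a using 1
  unfold Kg
  ring

lemma hasDerivAt_V {u : ℝ} (hu : u ≠ 0) : HasDerivAt V (-(Kw u + Kg u)) u := by
  have a := (hasDerivAt_log_w hu).neg.sub (hasDerivAt_log_g u)
  have e : V =ᶠ[𝓝 u] fun u => - Real.log (w u) - Real.log (g u) := by
    filter_upwards [isOpen_ne.mem_nhds hu] with x hx
    exact V_eq hx
  refine HasDerivAt.congr_of_eventuallyEq ?_ e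
  convert! a using 1
  ring

/-- closed form of the total kernel -/
lemma K_eq {u : ℝ} (hu : u ≠ 0) : Kw u + Kg u =
    4 * (1 + r * Real.cosh (2 * u)) / (Real.sinh (2 * u) * (Real.cosh (2 * u) + r)) -
      2 * r * Real.sinh (2 * u) / (Real.cosh (2 * u) * (Real.cosh (2 * u) - r)) := by
  have hC := Real.one_lt_cosh.2 (mul_ne_zero two_ne_zero hu)
  have hr := r_pos
  have hr1 := r_lt_one
  have hS : Real.sinh (2 * u) ≠ 0 := fun e => by
    have := Real.sinh_eq_zero.1 e
    exact hu (by linarith)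
  have hCS := Real.cosh_sq (2 * u)
  unfold Kw Kg
  set C := Real.cosh (2 * u)
  set S := Real.sinh (2 * u)
  have n1 : C - 1 ≠ 0 := by linarith
  have n2 : C + 1 ≠ 0 := by linarith
  have n3 : C - r ≠ 0 := by linarith
  have n4 : C + r ≠ 0 := by linarith
  have n5 : C ≠ 0 := by linarith
  have e1 : 2 * S / (C - 1) + 2 * S / (C + 1) = 4 * C / S := by
    field_simp
    linear_combination (-4 * C) * hCS
  have e2 : 4 * C / S - 4 * S / (C + r) = 4 * (1 + r * C) / (S * (C + r)) := by
    field_simp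
    linear_combination hCS
  have e3 : 2 * S / C - 2 * S / (C - r) = - (2 * r * S / (C * (C - r))) := by
    field_simp
    ring
  linarith

lemma exp_mul_le_sinh {u : ℝ} (hu : 0 ≤ u) : u * Real.exp u ≤ Real.sinh (2 * u) := by
  rw [Real.sinh_two_mul]
  have h1 := Real.self_le_sinh_iff.2 hu
  have h2 : Real.exp u / 2 ≤ Real.cosh u := by
    rw [Real.cosh_eq]
    have := Real.exp_pos (-u)
    linarith
  have h3 := Real.exp_pos u
  nlinarith

/-- bound of the total kernel -/
lemma abs_K_le (u : ℝ) : |u * (Kw u + Kg u)| ≤ 9 * Real.exp (-|u|) := by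
  have hr := r_pos
  have hr1 := r_lt_one
  have main : ∀ u : ℝ, 0 < u → |u * (Kw u + Kg u)| ≤ 9 * Real.exp (-u) := by
    intro u hu
    rw [K_eq hu.ne']
    have hC := Real.one_lt_cosh.2 (mul_ne_zero two_ne_zero hu.ne')
    have hS : 0 < Real.sinh (2 * u) := Real.sinh_pos_iff.2 (by linarith)
    have hSC := Real.sinh_lt_cosh (2 * u)
    have hE := exp_mul_le_sinh hu.le
    have hx := Real.exp_pos u
    set C := Real.cosh (2 * u)
    set S := Real.sinh (2 * u)
    have hCr : 0 < C - r := by linarith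
    have e : Real.exp (-u) * Real.exp u = 1 := by rw [← Real.exp_add]; simp
    have hy := Real.exp_pos (-u)
    have b0 : u ≤ Real.exp (-u) * S := by
      calc u = Real.exp (-u) * (u * Real.exp u) := by linear_combination (-u) * e
        _ ≤ _ := mul_le_mul_of_nonneg_left hE hy.le
    have t1 : 0 ≤ u * (4 * (1 + r * C) / (S * (C + r))) := by positivity
    have t2 : 0 ≤ u * (2 * r * S / (C * (C - r))) := by positivity
    have b1 : u * (4 * (1 + r * C) / (S * (C + r))) ≤ 4 * Real.exp (-u) := by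
      rw [← mul_div_assoc, div_le_iff₀ (by positivity)]
      have k1 : 1 + r * C ≤ C + r := by nlinarith
      have k2 : 0 ≤ 1 + r * C := by positivity
      calc u * (4 * (1 + r * C)) ≤ (Real.exp (-u) * S) * (4 * (C + r)) := by gcongr
        _ = _ := by ring
    have b2 : u * (2 * r * S / (C * (C - r))) ≤ 2 * r / (1 - r) * Real.exp (-u) := by
      have h1r : 0 < 1 - r := by linarith
      rw [← mul_div_assoc, div_mul_eq_mul_div, div_le_div_iff₀ (by positivity) h1r]
      have k1 : (1 - r) * C ≤ C - r := by nlinarith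
      calc u * (2 * r * S) * (1 - r) ≤ (Real.exp (-u) * S) * (2 * r * S) * (1 - r) := by gcongr
        _ ≤ (Real.exp (-u) * C) * (2 * r * C) * (1 - r) := by gcongr
        _ = 2 * r * Real.exp (-u) * (C * ((1 - r) * C)) := by ring
        _ ≤ 2 * r * Real.exp (-u) * (C * (C - r)) := by gcongr
    have b3 : 2 * r / (1 - r) ≤ 5 := by
      have h1r : 0 < 1 - r := by linarith
      rw [div_le_iff₀ h1r]
      have : r ≤ 5 / 7 := by
        unfold r
        have : √2 ≤ 10 / 7 := by
          rw [Real.sqrt_le_left (by norm_num)]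
          norm_num
        linarith
      linarith
    rw [mul_sub]
    refine (abs_sub_le_of_nonneg_of_le t1 (b1.trans ?_) t2 (b2.trans ?_)).trans le_rfl
    · nlinarith
    · nlinarith
  rcases lt_trichotomy u 0 with hu | hu | hu
  · have := main (-u) (by linarith)
    rw [Kw_neg, Kg_neg] at this
    rw [abs_of_neg hu]
    rw [show u * (Kw u + Kg u) = -u * (-Kw u + -Kg u) by ring]
    exact this
  · rw [hu]
    simp
  · rw [abs_of_pos hu]
    exact main u hu

lemma u_V_zero : Tendsto (fun u => u * V u) (𝓝[≠] 0) (𝓝 0) := by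
  have h1 : Tendsto (fun u => Real.sinh u * Real.log (Real.sinh u)) (𝓝 0) (𝓝 0) := by
    have : Continuous fun u => Real.sinh u * Real.log (Real.sinh u) :=
      Real.continuous_mul_log.comp Real.continuous_sinh
    simpa using this.tendsto 0
  have h2 : Tendsto (fun u => u * Real.log (Real.sinh u)) (𝓝 0) (𝓝 0) := by
    refine squeeze_zero_norm (a := fun u => ‖Real.sinh u * Real.log (Real.sinh u)‖) (fun u => ?_) ?_
    · rw [norm_mul, norm_mul]
      refine mul_le_mul_of_nonneg_right ?_ (norm_nonneg _)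
      rw [Real.norm_eq_abs, Real.norm_eq_abs, Real.abs_sinh]
      exact Real.self_le_sinh_iff.2 (abs_nonneg u)
    · simpa using h1.norm
  have hc : Continuous fun u : ℝ => u * (Real.log (Real.cosh (2 * u) - r) - Real.log (Real.cosh (2 * u)) -
      Real.log (g u)) := by
    have c1 : Continuous fun u : ℝ => Real.log (Real.cosh (2 * u) - r) :=
      Continuous.log (by fun_prop) fun u => (cm_r u).ne'
    have c2 : Continuous fun u : ℝ => Real.log (Real.cosh (2 * u)) :=
      Continuous.log (by fun_prop) fun u => (Real.cosh_pos _).ne'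
    have c3 : Continuous fun u : ℝ => Real.log (g u) := by
      refine Continuous.log ?_ fun u => (g_pos u).ne'
      unfold g
      refine Continuous.div (by fun_prop) (by fun_prop) fun u => ?_
      have := cp_r u
      positivity
    fun_prop
  have h3 : Tendsto (fun u : ℝ => u * (Real.log (Real.cosh (2 * u) - r) - Real.log (Real.cosh (2 * u)) -
      Real.log (g u))) (𝓝 0) (𝓝 0) := by simpa using hc.tendsto 0
  have h4 := (h2.const_mul (-2)).add h3
  rw [mul_zero, zero_add] at h4
  refine (h4.mono_left nhdsWithin_le_nhds).congr' ?_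
  filter_upwards [self_mem_nhdsWithin] with u hu
  have hu' : u ≠ 0 := hu
  have hs : Real.sinh u ≠ 0 := fun e => hu' (Real.sinh_eq_zero.1 e)
  rw [V_eq hu']
  have e1 : Real.log (w u) = 2 * Real.log (Real.sinh u) + Real.log (Real.cosh (2 * u)) -
      Real.log (Real.cosh (2 * u) - r) := by
    unfold w
    rw [Real.log_div (mul_ne_zero (pow_ne_zero _ hs) (Real.cosh_pos _).ne') (cm_r u).ne',
      Real.log_mul (pow_ne_zero _ hs) (Real.cosh_pos _).ne', Real.log_pow]
    norm_num
  rw [e1]
  ring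

lemma V_even (u : ℝ) : V (-u) = V u := by
  unfold V w g
  rw [mul_neg, Real.sinh_neg, Real.cosh_neg, Real.cosh_neg, neg_sq]

lemma cosh_two_atTop : Tendsto (fun u : ℝ => Real.cosh (2 * u)) atTop atTop := by
  refine tendsto_atTop_mono' atTop ?_ tendsto_id
  filter_upwards [eventually_ge_atTop (0:ℝ)] with u hu
  have h1 := Real.self_le_sinh_iff.2 (show 0 ≤ 2 * u by linarith)
  have h2 := Real.sinh_lt_cosh (2 * u)
  simp only [id]
  linarith

lemma V_atTop : Tendsto V atTop (𝓝 0) := by
  have h1 : Tendsto (fun u : ℝ => (Real.cosh (2 * u))⁻¹) atTop (𝓝 0) :=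
    tendsto_inv_atTop_zero.comp cosh_two_atTop
  have hf : ContinuousAt (fun y : ℝ => - Real.log ((1 - y ^ 2) / ((1 - r * y) * (1 + r * y) ^ 2))) 0 := by
    refine (ContinuousAt.log ?_ ?_).neg
    · refine ContinuousAt.div (by fun_prop) (by fun_prop) ?_
      norm_num
    · norm_num
  have h2 := hf.tendsto.comp h1
  norm_num at h2
  refine h2.congr' ?_
  filter_upwards [eventually_gt_atTop (0:ℝ)] with u hu
  have hC := Real.one_lt_cosh.2 (mul_ne_zero two_ne_zero hu.ne')
  simp only [Function.comp]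
  unfold V w g
  congr 2
  rw [sinh_sq_eq, cosh_sq_eq]
  have hr := r_pos
  have hr1 := r_lt_one
  set C := Real.cosh (2 * u)
  have n0 : C ≠ 0 := by linarith
  have n1 : C - r ≠ 0 := by linarith
  have n2 : C + r ≠ 0 := by linarith
  have n3 : 1 - r * C⁻¹ = (C - r) / C := by field_simp
  have n4 : 1 + r * C⁻¹ = (C + r) / C := by field_simp
  rw [n3, n4]
  field_simp
  ring

lemma V_atBot : Tendsto V atBot (𝓝 0) := by
  have := V_atTop.comp tendsto_neg_atBot_atTop
  refine this.congr fun u => ?_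
  exact V_even u

lemma V_meas : Measurable V := by
  unfold V w g
  fun_prop

/-- integration by parts against a kernel with a logarithmic singularity at the diagonal -/
theorem parts_log {U K φ φ' : ℝ → ℝ} {t : ℝ} (hU : ∀ u, u ≠ 0 → HasDerivAt U (-(K u)) u)
    (h0 : Tendsto (fun u => u * U u) (𝓝[≠] 0) (𝓝 0)) (hφ : ∀ s, HasDerivAt φ (φ' s) s)
    (hφt : φ t = 0) (i1 : Integrable fun s => φ s * K (t - s))
    (i2 : Integrable fun s => φ' s * U (t - s))
    (htop : Tendsto (fun s => φ s * U (t - s)) atTop (𝓝 0))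
    (hbot : Tendsto (fun s => φ s * U (t - s)) atBot (𝓝 0)) :
    ∫ s, φ s * K (t - s) = - ∫ s, φ' s * U (t - s) := by
  have hd : ∀ s, s ≠ t → HasDerivAt (fun s => φ s * U (t - s)) (φ' s * U (t - s) + φ s * K (t - s)) s := by
    intro s hs
    have h1 : HasDerivAt (fun s => t - s) (-1) s := by simpa using (hasDerivAt_id s).const_sub t
    have h2 : HasDerivAt (fun s => U (t - s)) (K (t - s)) s := by
      have := (hU (t - s) (sub_ne_zero.2 hs.symm)).comp s h1
      rw [neg_mul_neg, mul_one] at this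
      exact this
    exact (hφ s).mul h2
  have hc : ContinuousAt (fun s => φ s * U (t - s)) t := by
    have h1 : Tendsto (slope φ t) (𝓝[≠] t) (𝓝 (φ' t)) := (hasDerivAt_iff_tendsto_slope.1 (hφ t))
    have h2 : Tendsto (fun s => t - s) (𝓝[≠] t) (𝓝[≠] 0) := by
      refine tendsto_nhdsWithin_iff.2 ⟨?_, ?_⟩
      · have : Tendsto (fun s => t - s) (𝓝 t) (𝓝 (t - t)) := (continuous_const.sub continuous_id).tendsto t
        rw [sub_self] at this
        exact this.mono_left nhdsWithin_le_nhds
      · filter_upwards [self_mem_nhdsWithin] with s hs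
        exact sub_ne_zero.2 (Ne.symm hs)
    have h3 := (h1.mul (h0.comp h2)).neg
    rw [mul_zero, neg_zero] at h3
    rw [continuousAt_iff_punctured_nhds, hφt, zero_mul]
    refine h3.congr' ?_
    filter_upwards [self_mem_nhdsWithin] with s hs
    have hs' : s - t ≠ 0 := sub_ne_zero.2 hs
    simp only [Function.comp, slope_def_field, hφt, sub_zero]
    field_simp
    ring
  have i3 := i2.add i1
  have r1 := integral_Ioi_of_hasDerivAt_of_tendsto (f := fun s => φ s * U (t - s))
    (f' := fun s => φ' s * U (t - s) + φ s * K (t - s)) (a := t) (m := 0) hc.continuousWithinAt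
    (fun s hs => hd s (ne_of_gt hs)) i3.integrableOn htop
  have r2 := integral_Iic_of_hasDerivAt_of_tendsto (f := fun s => φ s * U (t - s))
    (f' := fun s => φ' s * U (t - s) + φ s * K (t - s)) (a := t) (m := 0) hc.continuousWithinAt
    (fun s hs => hd s (ne_of_lt hs)) i3.integrableOn hbot
  have r3 := intervalIntegral.integral_Iic_add_Ioi (f := fun s => φ' s * U (t - s) + φ s * K (t - s))
    (b := t) i3.integrableOn i3.integrableOn
  rw [r1, r2] at r3
  have r4 : ∫ s, (φ' s * U (t - s) + φ s * K (t - s)) = 0 := by rw [← r3]; ring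
  rw [integral_add i2 i1] at r4
  linarith

/-- derivative of a convolution with an integrable kernel -/
theorem hasDerivAt_conv {U ρ ρ' : ℝ → ℝ} {B : ℝ} (hU : Integrable U)
    (hρ : ∀ s, HasDerivAt ρ (ρ' s) s) (hρ' : Continuous ρ') (hB : ∀ s, |ρ s| ≤ B)
    (hB' : ∀ s, |ρ' s| ≤ B) (t : ℝ) :
    (∀ t, Integrable fun s => ρ s * U (t - s)) ∧ (∀ t, Integrable fun s => ρ' s * U (t - s)) ∧
    HasDerivAt (fun t => ∫ s, ρ s * U (t - s)) (∫ s, ρ' s * U (t - s)) t := by
  have hρc : Continuous ρ := continuous_iff_continuousAt.2 fun s => (hρ s).continuousAt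
  have hUt : ∀ t, Integrable fun s => U (t - s) := fun t => hU.comp_sub_left t
  have j1 : ∀ t, Integrable fun s => ρ s * U (t - s) := fun t =>
    (hUt t).bdd_mul hρc.aestronglyMeasurable (Eventually.of_forall hB)
  have j2 : ∀ t, Integrable fun s => ρ' s * U (t - s) := fun t =>
    (hUt t).bdd_mul hρ'.aestronglyMeasurable (Eventually.of_forall hB')
  refine ⟨j1, j2, ?_⟩
  have e1 : ∀ (f : ℝ → ℝ) (t : ℝ), ∫ s, f s * U (t - s) = ∫ u, f (t - u) * U u := by
    intro f t
    have := integral_sub_left_eq_self (fun u => f (t - u) * U u) volume t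
    rw [← this]
    refine integral_congr_ae (Eventually.of_forall fun s => ?_)
    simp only [sub_sub_cancel]
  simp_rw [e1]
  have hk := hasDerivAt_integral_of_dominated_loc_of_deriv_le (μ := volume) (s := univ)
    (F := fun t u => ρ (t - u) * U u) (F' := fun t u => ρ' (t - u) * U u) (x₀ := t)
    (bound := fun u => B * |U u|) univ_mem
    (Eventually.of_forall fun t => (hρc.comp (continuous_const.sub continuous_id)).aestronglyMeasurable.mul
      hU.aestronglyMeasurable) ?_
    ((hρ'.comp (continuous_const.sub continuous_id)).aestronglyMeasurable.mul hU.aestronglyMeasurable)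
    ?_ (hU.abs.const_mul B) ?_
  · exact hk.2
  · exact hU.bdd_mul (hρc.comp (continuous_const.sub continuous_id)).aestronglyMeasurable
      (Eventually.of_forall fun u => hB (t - u))
  · refine Eventually.of_forall fun u t _ => ?_
    rw [Real.norm_eq_abs, abs_mul]
    exact mul_le_mul_of_nonneg_right (hB' _) (abs_nonneg _)
  · refine Eventually.of_forall fun u t _ => ?_
    have h1 : HasDerivAt (fun t => t - u) 1 t := by simpa using (hasDerivAt_id t).sub_const u
    have h2 := (hρ (t - u)).comp t h1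
    rw [mul_one] at h2
    exact h2.mul_const _

lemma K_meas : Measurable fun u => Kw u + Kg u := by
  unfold Kw Kg
  fun_prop

lemma int_exp_sub (t : ℝ) : Integrable fun s : ℝ => Real.exp (-|t - s|) := by
  have h1 : Integrable fun y : ℝ => Real.exp (-1 * |y|) := int_exp_abs one_pos
  have h2 := h1.comp_sub_left t
  refine h2.congr (Eventually.of_forall fun s => ?_)
  simp only [neg_mul, one_mul]

lemma lip_of_deriv {f f' : ℝ → ℝ} {B : ℝ} (hf : ∀ s, HasDerivAt f (f' s) s) (hB : ∀ s, |f' s| ≤ B)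
    (s t : ℝ) : |f t - f s| ≤ B * |t - s| := by
  have := Convex.norm_image_sub_le_of_norm_hasDerivWithin_le (f := f) (f' := f') (s := univ) (x := s)
    (y := t) (fun x _ => (hf x).hasDerivWithinAt) (fun x _ => hB x) convex_univ (mem_univ _) (mem_univ _)
  exact this

/-- **mean field identity of the vector field** `ξ = ρ1 / ρ` (both species together) -/
theorem mf_xi {ρ ρ' ρ1 ρ1' : ℝ → ℝ} {B : ℝ} (hρ : ∀ s, HasDerivAt ρ (ρ' s) s) (hρ' : Continuous ρ')
    (hB : ∀ s, |ρ s| ≤ B) (hB' : ∀ s, |ρ' s| ≤ B) (hρ1 : ∀ s, HasDerivAt ρ1 (ρ1' s) s)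
    (hρ1' : Continuous ρ1') (hB1 : ∀ s, |ρ1 s| ≤ B) (hB1' : ∀ s, |ρ1' s| ≤ B) (h0 : ∀ s, ρ s ≠ 0)
    (t : ℝ) :
    Integrable (fun s => (ρ1 t / ρ t - ρ1 s / ρ s) * (Kw (t - s) + Kg (t - s)) * ρ s) ∧
    (∫ s, ρ' s * V (t - s)) * (ρ1 t / ρ t) +
      ∫ s, (ρ1 t / ρ t - ρ1 s / ρ s) * (Kw (t - s) + Kg (t - s)) * ρ s =
      ∫ s, ρ1' s * V (t - s) := by
  set x := ρ1 t / ρ t with hx
  set φ : ℝ → ℝ := fun s => x * ρ s - ρ1 s with hφ
  set φ' : ℝ → ℝ := fun s => x * ρ' s - ρ1' s with hφ'
  have hB0 : 0 ≤ B := (abs_nonneg _).trans (hB 0)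
  have hd : ∀ s, HasDerivAt φ (φ' s) s := fun s => ((hρ s).const_mul x).sub (hρ1 s)
  have hφt : φ t = 0 := by
    simp only [hφ, hx]
    rw [div_mul_cancel₀ _ (h0 t), sub_self]
  have hM : ∀ s, |φ' s| ≤ |x| * B + B := by
    intro s
    simp only [hφ']
    refine (abs_sub _ _).trans (add_le_add ?_ (hB1' s))
    rw [abs_mul]
    exact mul_le_mul_of_nonneg_left (hB' s) (abs_nonneg _)
  have hM0 : ∀ s, |φ s| ≤ |x| * B + B := by
    intro s
    simp only [hφ]
    refine (abs_sub _ _).trans (add_le_add ?_ (hB1 s))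
    rw [abs_mul]
    exact mul_le_mul_of_nonneg_left (hB s) (abs_nonneg _)
  have hlip : ∀ s, |φ s| ≤ (|x| * B + B) * |t - s| := by
    intro s
    have := lip_of_deriv hd hM t s
    rw [hφt, sub_zero, abs_sub_comm s t] at this
    exact this
  have hφc : Continuous φ := continuous_iff_continuousAt.2 fun s => (hd s).continuousAt
  have i1 : Integrable fun s => φ s * (Kw (t - s) + Kg (t - s)) := by
    refine ((int_exp_sub t).const_mul ((|x| * B + B) * 9)).mono'
      (hφc.aestronglyMeasurable.mul (K_meas.comp (measurable_const.sub measurable_id)).aestronglyMeasurable)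
      (Eventually.of_forall fun s => ?_)
    have h1 := abs_K_le (t - s)
    rw [abs_mul] at h1
    rw [Real.norm_eq_abs, abs_mul]
    have h2 : 0 ≤ |x| * B + B := by positivity
    calc |φ s| * |Kw (t - s) + Kg (t - s)| ≤ ((|x| * B + B) * |t - s|) * |Kw (t - s) + Kg (t - s)| :=
          mul_le_mul_of_nonneg_right (hlip s) (abs_nonneg _)
      _ = (|x| * B + B) * (|t - s| * |Kw (t - s) + Kg (t - s)|) := by ring
      _ ≤ (|x| * B + B) * (9 * Real.exp (-|t - s|)) := mul_le_mul_of_nonneg_left h1 h2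
      _ = _ := by ring
  have hV := V_integral.1
  obtain ⟨-, j1, -⟩ := hasDerivAt_conv hV hρ hρ' hB hB' t
  obtain ⟨-, j2, -⟩ := hasDerivAt_conv hV hρ1 hρ1' hB1 hB1' t
  have e2 : (fun s => φ' s * V (t - s)) = fun s => x * (ρ' s * V (t - s)) - ρ1' s * V (t - s) := by
    funext s
    simp only [hφ']
    ring
  have i2 : Integrable fun s => φ' s * V (t - s) := by
    rw [e2]
    exact ((j1 t).const_mul x).sub (j2 t)
  have hlim : ∀ (F : Filter ℝ), Tendsto (fun s => V (t - s)) F (𝓝 0) →
      Tendsto (fun s => φ s * V (t - s)) F (𝓝 0) := by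
    intro F hF
    refine squeeze_zero_norm (a := fun s => (|x| * B + B) * ‖V (t - s)‖) (fun s => ?_) ?_
    · rw [norm_mul]
      exact mul_le_mul_of_nonneg_right (hM0 s) (norm_nonneg _)
    · simpa using hF.norm.const_mul (|x| * B + B)
  have htop : Tendsto (fun s => V (t - s)) atTop (𝓝 0) :=
    V_atBot.comp (tendsto_atBot_add_const_left atTop t tendsto_neg_atTop_atBot)
  have hbot : Tendsto (fun s => V (t - s)) atBot (𝓝 0) :=
    V_atTop.comp (tendsto_atTop_add_const_left atBot t tendsto_neg_atBot_atTop)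
  have hp := parts_log (U := V) (K := fun u => Kw u + Kg u) (fun u hu => hasDerivAt_V hu) u_V_zero hd
    hφt i1 i2 (hlim _ htop) (hlim _ hbot)
  have e1 : (fun s => (x - ρ1 s / ρ s) * (Kw (t - s) + Kg (t - s)) * ρ s) =
      fun s => φ s * (Kw (t - s) + Kg (t - s)) := by
    funext s
    have := h0 s
    simp only [hφ]
    field_simp
  rw [e1]
  refine ⟨i1, ?_⟩
  rw [hp, e2, integral_sub ((j1 t).const_mul x) (j2 t), integral_const_mul]
  ring

end

end Pool.Agent.PB
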