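import Pool.Agent.PB.MFxi

/-!
# Plan B: the constant term of the Ward identity

`2 ∫ ρ ξ (V * ρ)' + ∫∫ (ξ t - ξ s) (Kw + Kg)(t - s) ρ s ρ t = 0`.
-/

set_option autoImplicit false

open MeasureTheory Set Filter Topology

namespace Pool.Agent.PB

open NUMF

noncomputable section

lemma V_sub_comm (s t : ℝ) : V (t - s) = V (s - t) := by rw [← V_even, neg_sub]

/-- a sea and a perturbation: `C^1`, bounded and integrable together with the derivatives -/
structure XiDat (ρ ρ' ρ1 ρ1' : ℝ → ℝ) (B : ℝ) : Prop where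
  d0 : ∀ s, HasDerivAt ρ (ρ' s) s
  d1 : ∀ s, HasDerivAt ρ1 (ρ1' s) s
  c0 : Continuous ρ'
  c1 : Continuous ρ1'
  b0 : ∀ s, |ρ s| ≤ B
  b0' : ∀ s, |ρ' s| ≤ B
  b1 : ∀ s, |ρ1 s| ≤ B
  b1' : ∀ s, |ρ1' s| ≤ B
  ne : ∀ s, ρ s ≠ 0
  i0 : Integrable ρ
  i0' : Integrable ρ'
  i1 : Integrable ρ1
  i1' : Integrable ρ1'

variable {ρ ρ' ρ1 ρ1' : ℝ → ℝ} {B : ℝ}

lemma XiDat.cont0 (D : XiDat ρ ρ' ρ1 ρ1' B) : Continuous ρ :=
  continuous_iff_continuousAt.2 fun s => (D.d0 s).continuousAt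

lemma XiDat.cont1 (D : XiDat ρ ρ' ρ1 ρ1' B) : Continuous ρ1 :=
  continuous_iff_continuousAt.2 fun s => (D.d1 s).continuousAt

lemma XiDat.B_nonneg (D : XiDat ρ ρ' ρ1 ρ1' B) : 0 ≤ B := (abs_nonneg _).trans (D.b0 0)

/-- the double kernel is absolutely integrable against the sea -/
theorem mf_double (D : XiDat ρ ρ' ρ1 ρ1' B) :
    Integrable (fun p : ℝ × ℝ => ρ p.1 * ((ρ1 p.1 / ρ p.1 - ρ1 p.2 / ρ p.2) *
      (Kw (p.1 - p.2) + Kg (p.1 - p.2)) * ρ p.2)) (volume.prod volume) := by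
  have hB0 := D.B_nonneg
  have hE : Integrable fun y : ℝ => Real.exp (-|y|) := by
    refine (int_exp_abs one_pos).congr (Eventually.of_forall fun s => ?_)
    simp only [neg_mul, one_mul]
  have hq : Integrable fun s : ℝ => |ρ s| + |ρ1 s| := D.i0.abs.add D.i1.abs
  have hmaj : Integrable (fun p : ℝ × ℝ => (|ρ p.2| + |ρ1 p.2|) * Real.exp (-|p.1 - p.2|))
      (volume.prod volume) := hq.convolution_integrand (ContinuousLinearMap.mul ℝ ℝ) hE
  refine (hmaj.const_mul (B * 9)).mono' ?_ (Eventually.of_forall fun p => ?_)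
  · refine Measurable.aestronglyMeasurable ?_
    have m0 := D.cont0.measurable
    have m1 := D.cont1.measurable
    have mK : Measurable fun p : ℝ × ℝ => Kw (p.1 - p.2) + Kg (p.1 - p.2) :=
      K_meas.comp (measurable_fst.sub measurable_snd)
    exact (m0.comp measurable_fst).mul (((((m1.comp measurable_fst).div (m0.comp measurable_fst)).sub
      ((m1.comp measurable_snd).div (m0.comp measurable_snd))).mul mK).mul (m0.comp measurable_snd))
  · obtain ⟨t, s⟩ := p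
    simp only
    have n1 := D.ne t
    have n2 := D.ne s
    have e : ρ t * ((ρ1 t / ρ t - ρ1 s / ρ s) * (Kw (t - s) + Kg (t - s)) * ρ s) =
        ((ρ1 t - ρ1 s) * ρ s - ρ1 s * (ρ t - ρ s)) * (Kw (t - s) + Kg (t - s)) := by
      field_simp
      ring
    have l0 := lip_of_deriv D.d0 D.b0' s t
    have l1 := lip_of_deriv D.d1 D.b1' s t
    have hK := abs_K_le (t - s)
    rw [abs_mul] at hK
    rw [e, Real.norm_eq_abs, abs_mul]
    have h1 : |(ρ1 t - ρ1 s) * ρ s - ρ1 s * (ρ t - ρ s)| ≤ B * (|ρ s| + |ρ1 s|) * |t - s| := by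
      refine (abs_sub _ _).trans ?_
      rw [abs_mul, abs_mul]
      have a1 := mul_le_mul_of_nonneg_right l1 (abs_nonneg (ρ s))
      have a2 := mul_le_mul_of_nonneg_left l0 (abs_nonneg (ρ1 s))
      calc |ρ1 t - ρ1 s| * |ρ s| + |ρ1 s| * |ρ t - ρ s| ≤
          B * |t - s| * |ρ s| + |ρ1 s| * (B * |t - s|) := add_le_add a1 a2
        _ = _ := by ring
    have h2 : 0 ≤ B * (|ρ s| + |ρ1 s|) := by positivity
    calc |(ρ1 t - ρ1 s) * ρ s - ρ1 s * (ρ t - ρ s)| * |Kw (t - s) + Kg (t - s)| ≤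
        (B * (|ρ s| + |ρ1 s|) * |t - s|) * |Kw (t - s) + Kg (t - s)| :=
          mul_le_mul_of_nonneg_right h1 (abs_nonneg _)
      _ = B * (|ρ s| + |ρ1 s|) * (|t - s| * |Kw (t - s) + Kg (t - s)|) := by ring
      _ ≤ B * (|ρ s| + |ρ1 s|) * (9 * Real.exp (-|t - s|)) := mul_le_mul_of_nonneg_left hK h2
      _ = _ := by ring

/-- `∫ a (V * b) = ∫ b (V * a)` -/
theorem conv_symm {a b : ℝ → ℝ} {B : ℝ} (ha : Continuous a) (hb : Integrable b) (hB : ∀ s, |a s| ≤ B) :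
    Integrable (fun p : ℝ × ℝ => a p.1 * (b p.2 * V (p.1 - p.2))) (volume.prod volume) ∧
    ∫ t, a t * ∫ s, b s * V (t - s) = ∫ s, b s * ∫ t, a t * V (s - t) := by
  have hV := V_integral.1
  have h1 : Integrable (fun p : ℝ × ℝ => b p.2 * V (p.1 - p.2)) (volume.prod volume) :=
    hb.convolution_integrand (ContinuousLinearMap.mul ℝ ℝ) hV
  have h2 : Integrable (fun p : ℝ × ℝ => a p.1 * (b p.2 * V (p.1 - p.2))) (volume.prod volume) :=
    h1.bdd_mul (ha.comp continuous_fst).aestronglyMeasurable (Eventually.of_forall fun p => hB p.1)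
  refine ⟨h2, ?_⟩
  simp_rw [← integral_const_mul]
  rw [integral_integral_swap h2]
  refine integral_congr_ae (Eventually.of_forall fun s => ?_)
  refine integral_congr_ae (Eventually.of_forall fun t => ?_)
  simp only
  rw [V_sub_comm s t]
  ring

/-- **the constant term of the Ward identity vanishes** -/
theorem mf_const (D : XiDat ρ ρ' ρ1 ρ1' B) :
    2 * (∫ t, ρ1 t * ∫ s, ρ' s * V (t - s)) +
      ∫ t, ρ t * ∫ s, (ρ1 t / ρ t - ρ1 s / ρ s) * (Kw (t - s) + Kg (t - s)) * ρ s = 0 := by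
  have hV := V_integral.1
  have key : ∀ t, ρ t * ∫ s, (ρ1 t / ρ t - ρ1 s / ρ s) * (Kw (t - s) + Kg (t - s)) * ρ s =
      ρ t * (∫ s, ρ1' s * V (t - s)) - ρ1 t * ∫ s, ρ' s * V (t - s) := by
    intro t
    have h1 := (mf_xi D.d0 D.c0 D.b0 D.b0' D.d1 D.c1 D.b1 D.b1' D.ne t).2
    have n1 := D.ne t
    have h2 : ρ t * (ρ1 t / ρ t) = ρ1 t := by field_simp
    linear_combination (ρ t) * h1 - (∫ s, ρ' s * V (t - s)) * h2
  obtain ⟨p1, e1⟩ := conv_symm (a := ρ) (b := ρ1') D.cont0 D.i1' D.b0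
  obtain ⟨p2, e2⟩ := conv_symm (a := ρ1) (b := ρ') D.cont1 D.i0' D.b1
  have j1 : Integrable fun t => ρ t * ∫ s, ρ1' s * V (t - s) := by
    simp_rw [← integral_const_mul]
    exact p1.integral_prod_left
  have j2 : Integrable fun t => ρ1 t * ∫ s, ρ' s * V (t - s) := by
    simp_rw [← integral_const_mul]
    exact p2.integral_prod_left
  simp_rw [key]
  rw [integral_sub j1 j2, e1]
  have hc := hasDerivAt_conv hV D.d0 D.c0 D.b0 D.b0'
  -- `∫ ρ1' (V * ρ) = - ∫ ρ1 (V * ρ')`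
  have hbd : ∀ t, ‖∫ s, ρ s * V (t - s)‖ ≤ B * ∫ u, |V u| := by
    intro t
    have h1 : ‖∫ s, ρ s * V (t - s)‖ ≤ ∫ s, B * |V (t - s)| := by
      refine norm_integral_le_of_norm_le ((hV.abs.comp_sub_left t).const_mul B)
        (Eventually.of_forall fun s => ?_)
      rw [Real.norm_eq_abs, abs_mul]
      exact mul_le_mul_of_nonneg_right (D.b0 s) (abs_nonneg _)
    rw [integral_const_mul, integral_sub_left_eq_self (fun u => |V u|) volume t] at h1
    exact h1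
  have hcont : Continuous fun t => ∫ s, ρ s * V (t - s) :=
    continuous_iff_continuousAt.2 fun t => (hc t).2.2.continuousAt
  have k1 : Integrable (ρ1' * fun t => ∫ s, ρ s * V (t - s)) :=
    D.i1'.mul_bdd (c := B * ∫ u, |V u|) hcont.aestronglyMeasurable (Eventually.of_forall hbd)
  have k2 : Integrable (ρ1 * fun t => ∫ s, ρ s * V (t - s)) :=
    D.i1.mul_bdd (c := B * ∫ u, |V u|) hcont.aestronglyMeasurable (Eventually.of_forall hbd)
  have hp := integral_mul_deriv_eq_deriv_mul_of_integrable (u := ρ1) (u' := ρ1')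
    (v := fun t => ∫ s, ρ s * V (t - s)) (v' := fun t => ∫ s, ρ' s * V (t - s))
    (fun t _ => D.d1 t) (fun t _ => (hc t).2.2) j2 k1 k2
  rw [hp]
  ring

end

end Pool.Agent.PB
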