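import Pool.Agent.PB.MFxi2

/-!
# Plan B: the mean field identities of the vector field for complex seas

`ρ, ρ1 : ℝ → ℂ` (rows at complex positions), `ξ = ρ1 / ρ`:
* `mf_xiC`: `(V * ρ') ξ + ∫ (ξ t - ξ s) (Kw + Kg)(t - s) ρ s ds = V * ρ1'`;
* `mf_doubleC`: the double kernel is absolutely integrable;
* `mf_constC`: `2 ∫ ρ1 (V * ρ') + ∫∫ (ξ t - ξ s) (Kw + Kg)(t - s) ρ s ρ t = 0`.
-/

set_option autoImplicit false

open MeasureTheory Set Filter Topology

namespace Pool.Agent.PB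

open NUMF

noncomputable section

/-- integration by parts against a kernel with a logarithmic singularity, complex functions -/
theorem parts_logC {U K : ℝ → ℝ} {φ φ' : ℝ → ℂ} {t : ℝ} (hU : ∀ u, u ≠ 0 → HasDerivAt U (-(K u)) u)
    (h0 : Tendsto (fun u => u * U u) (𝓝[≠] 0) (𝓝 0)) (hφ : ∀ s, HasDerivAt φ (φ' s) s)
    (hφt : φ t = 0) (i1 : Integrable fun s => φ s * (K (t - s) : ℂ))
    (i2 : Integrable fun s => φ' s * (U (t - s) : ℂ))
    (htop : Tendsto (fun s => φ s * (U (t - s) : ℂ)) atTop (𝓝 0))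
    (hbot : Tendsto (fun s => φ s * (U (t - s) : ℂ)) atBot (𝓝 0)) :
    ∫ s, φ s * (K (t - s) : ℂ) = - ∫ s, φ' s * (U (t - s) : ℂ) := by
  have hd : ∀ s, s ≠ t → HasDerivAt (fun s => φ s * (U (t - s) : ℂ))
      (φ' s * (U (t - s) : ℂ) + φ s * (K (t - s) : ℂ)) s := by
    intro s hs
    have h1 : HasDerivAt (fun s => t - s) (-1) s := by simpa using (hasDerivAt_id s).const_sub t
    have h2 : HasDerivAt (fun s => U (t - s)) (K (t - s)) s := by
      have := (hU (t - s) (sub_ne_zero.2 hs.symm)).comp s h1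
      rw [neg_mul_neg, mul_one] at this
      exact this
    exact (hφ s).mul h2.ofReal_comp
  have hc : ContinuousAt (fun s => φ s * (U (t - s) : ℂ)) t := by
    have h1 : Tendsto (slope φ t) (𝓝[≠] t) (𝓝 (φ' t)) := (hasDerivAt_iff_tendsto_slope.1 (hφ t))
    have h2 : Tendsto (fun s => t - s) (𝓝[≠] t) (𝓝[≠] 0) := by
      refine tendsto_nhdsWithin_iff.2 ⟨?_, ?_⟩
      · have : Tendsto (fun s => t - s) (𝓝 t) (𝓝 (t - t)) := (continuous_const.sub continuous_id).tendsto t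
        rw [sub_self] at this
        exact this.mono_left nhdsWithin_le_nhds
      · filter_upwards [self_mem_nhdsWithin] with s hs
        exact sub_ne_zero.2 (Ne.symm hs)
    have h3' : Tendsto (fun s => (((t - s) * U (t - s) : ℝ) : ℂ)) (𝓝[≠] t) (𝓝 ((0 : ℝ) : ℂ)) :=
      (Complex.continuous_ofReal.tendsto 0).comp (h0.comp h2)
    have h3 := (h1.mul h3').neg
    rw [Complex.ofReal_zero, mul_zero, neg_zero] at h3
    rw [continuousAt_iff_punctured_nhds, hφt, zero_mul]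
    refine h3.congr' ?_
    filter_upwards [self_mem_nhdsWithin] with s hs
    have hs' : ((s - t : ℝ) : ℂ) ≠ 0 := Complex.ofReal_ne_zero.2 (sub_ne_zero.2 hs)
    simp only [slope, vsub_eq_sub, hφt, sub_zero, Complex.real_smul]
    push_cast at hs' ⊢
    field_simp
    ring
  have i3 := i2.add i1
  have r1 := integral_Ioi_of_hasDerivAt_of_tendsto (f := fun s => φ s * (U (t - s) : ℂ))
    (f' := fun s => φ' s * (U (t - s) : ℂ) + φ s * (K (t - s) : ℂ)) (a := t) (m := 0)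
    hc.continuousWithinAt (fun s hs => hd s (ne_of_gt hs)) i3.integrableOn htop
  have r2 := integral_Iic_of_hasDerivAt_of_tendsto (f := fun s => φ s * (U (t - s) : ℂ))
    (f' := fun s => φ' s * (U (t - s) : ℂ) + φ s * (K (t - s) : ℂ)) (a := t) (m := 0)
    hc.continuousWithinAt (fun s hs => hd s (ne_of_lt hs)) i3.integrableOn hbot
  have r3 := intervalIntegral.integral_Iic_add_Ioi
    (f := fun s => φ' s * (U (t - s) : ℂ) + φ s * (K (t - s) : ℂ))
    (b := t) i3.integrableOn i3.integrableOn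
  rw [r1, r2] at r3
  have r4 : ∫ s, (φ' s * (U (t - s) : ℂ) + φ s * (K (t - s) : ℂ)) = 0 := by rw [← r3]; ring
  rw [integral_add i2 i1] at r4
  exact eq_neg_of_add_eq_zero_right r4

/-- derivative of a convolution with an integrable kernel, complex functions -/
theorem hasDerivAt_convC {U : ℝ → ℝ} {ρ ρ' : ℝ → ℂ} {B : ℝ} (hU : Integrable U)
    (hρ : ∀ s, HasDerivAt ρ (ρ' s) s) (hρ' : Continuous ρ') (hB : ∀ s, ‖ρ s‖ ≤ B)
    (hB' : ∀ s, ‖ρ' s‖ ≤ B) (t : ℝ) :
    (∀ t, Integrable fun s => ρ s * (U (t - s) : ℂ)) ∧ (∀ t, Integrable fun s => ρ' s * (U (t - s) : ℂ)) ∧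
    HasDerivAt (fun t => ∫ s, ρ s * (U (t - s) : ℂ)) (∫ s, ρ' s * (U (t - s) : ℂ)) t := by
  have hρc : Continuous ρ := continuous_iff_continuousAt.2 fun s => (hρ s).continuousAt
  have hUt : ∀ t, Integrable fun s => (U (t - s) : ℂ) := fun t => (hU.comp_sub_left t).ofReal
  have j1 : ∀ t, Integrable fun s => ρ s * (U (t - s) : ℂ) := fun t =>
    (hUt t).bdd_mul hρc.aestronglyMeasurable (Eventually.of_forall hB)
  have j2 : ∀ t, Integrable fun s => ρ' s * (U (t - s) : ℂ) := fun t =>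
    (hUt t).bdd_mul hρ'.aestronglyMeasurable (Eventually.of_forall hB')
  refine ⟨j1, j2, ?_⟩
  have e1 : ∀ (f : ℝ → ℂ) (t : ℝ), ∫ s, f s * (U (t - s) : ℂ) = ∫ u, f (t - u) * (U u : ℂ) := by
    intro f t
    have := integral_sub_left_eq_self (fun u => f (t - u) * (U u : ℂ)) volume t
    rw [← this]
    refine integral_congr_ae (Eventually.of_forall fun s => ?_)
    simp only [sub_sub_cancel]
  simp_rw [e1]
  have hUc : Integrable fun u => (U u : ℂ) := hU.ofReal
  have hk := hasDerivAt_integral_of_dominated_loc_of_deriv_le (μ := volume) (s := univ)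
    (F := fun t u => ρ (t - u) * (U u : ℂ)) (F' := fun t u => ρ' (t - u) * (U u : ℂ)) (x₀ := t)
    (bound := fun u => B * ‖(U u : ℂ)‖) univ_mem
    (Eventually.of_forall fun t => (hρc.comp (continuous_const.sub continuous_id)).aestronglyMeasurable.mul
      hUc.aestronglyMeasurable) ?_
    ((hρ'.comp (continuous_const.sub continuous_id)).aestronglyMeasurable.mul hUc.aestronglyMeasurable)
    ?_ (hUc.norm.const_mul B) ?_
  · exact hk.2
  · exact hUc.bdd_mul (hρc.comp (continuous_const.sub continuous_id)).aestronglyMeasurable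
      (Eventually.of_forall fun u => hB (t - u))
  · refine Eventually.of_forall fun u t _ => ?_
    rw [norm_mul]
    exact mul_le_mul_of_nonneg_right (hB' _) (norm_nonneg _)
  · refine Eventually.of_forall fun u t _ => ?_
    have h1 : HasDerivAt (fun t => t - u) 1 t := by simpa using (hasDerivAt_id t).sub_const u
    have h2 := (hρ (t - u)).scomp t h1
    rw [one_smul] at h2
    exact h2.mul_const _

lemma lip_of_derivC {f f' : ℝ → ℂ} {B : ℝ} (hf : ∀ s, HasDerivAt f (f' s) s) (hB : ∀ s, ‖f' s‖ ≤ B)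
    (s t : ℝ) : ‖f t - f s‖ ≤ B * |t - s| :=
  Convex.norm_image_sub_le_of_norm_hasDerivWithin_le (f := f) (f' := f') (s := univ) (x := s)
    (y := t) (fun x _ => (hf x).hasDerivWithinAt) (fun x _ => hB x) convex_univ (mem_univ _) (mem_univ _)

/-- a complex sea and a perturbation: `C^1`, bounded and integrable together with the derivatives -/
structure XiDatC (ρ ρ' ρ1 ρ1' : ℝ → ℂ) (B : ℝ) : Prop where
  d0 : ∀ s, HasDerivAt ρ (ρ' s) s
  d1 : ∀ s, HasDerivAt ρ1 (ρ1' s) s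
  c0 : Continuous ρ'
  c1 : Continuous ρ1'
  b0 : ∀ s, ‖ρ s‖ ≤ B
  b0' : ∀ s, ‖ρ' s‖ ≤ B
  b1 : ∀ s, ‖ρ1 s‖ ≤ B
  b1' : ∀ s, ‖ρ1' s‖ ≤ B
  ne : ∀ s, ρ s ≠ 0
  i0 : Integrable ρ
  i0' : Integrable ρ'
  i1 : Integrable ρ1
  i1' : Integrable ρ1'

variable {ρ ρ' ρ1 ρ1' : ℝ → ℂ} {B : ℝ}

lemma XiDatC.cont0 (D : XiDatC ρ ρ' ρ1 ρ1' B) : Continuous ρ :=
  continuous_iff_continuousAt.2 fun s => (D.d0 s).continuousAt

lemma XiDatC.cont1 (D : XiDatC ρ ρ' ρ1 ρ1' B) : Continuous ρ1 :=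
  continuous_iff_continuousAt.2 fun s => (D.d1 s).continuousAt

lemma XiDatC.B_nonneg (D : XiDatC ρ ρ' ρ1 ρ1' B) : 0 ≤ B := (norm_nonneg _).trans (D.b0 0)

/-- the total kernel as a complex number -/
def KC (u : ℝ) : ℂ := ((Kw u + Kg u : ℝ) : ℂ)

lemma KC_meas : Measurable KC := Complex.measurable_ofReal.comp K_meas

lemma norm_KC (u : ℝ) : |u| * ‖KC u‖ ≤ 9 * Real.exp (-|u|) := by
  have := abs_K_le u
  rw [abs_mul] at this
  unfold KC
  rw [Complex.norm_real, Real.norm_eq_abs]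
  exact this

/-- **mean field identity of the vector field** `ξ = ρ1 / ρ`, complex sea -/
theorem mf_xiC (D : XiDatC ρ ρ' ρ1 ρ1' B) (t : ℝ) :
    Integrable (fun s => (ρ1 t / ρ t - ρ1 s / ρ s) * KC (t - s) * ρ s) ∧
    (∫ s, ρ' s * (V (t - s) : ℂ)) * (ρ1 t / ρ t) +
      ∫ s, (ρ1 t / ρ t - ρ1 s / ρ s) * KC (t - s) * ρ s =
      ∫ s, ρ1' s * (V (t - s) : ℂ) := by
  set x := ρ1 t / ρ t with hx
  set φ : ℝ → ℂ := fun s => x * ρ s - ρ1 s with hφ
  set φ' : ℝ → ℂ := fun s => x * ρ' s - ρ1' s with hφ'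
  have hB0 := D.B_nonneg
  have hd : ∀ s, HasDerivAt φ (φ' s) s := fun s => ((D.d0 s).const_mul x).sub (D.d1 s)
  have hφt : φ t = 0 := by
    simp only [hφ, hx]
    rw [div_mul_cancel₀ _ (D.ne t), sub_self]
  have hM : ∀ s, ‖φ' s‖ ≤ ‖x‖ * B + B := by
    intro s
    simp only [hφ']
    refine (norm_sub_le _ _).trans (add_le_add ?_ (D.b1' s))
    rw [norm_mul]
    exact mul_le_mul_of_nonneg_left (D.b0' s) (norm_nonneg _)
  have hM0 : ∀ s, ‖φ s‖ ≤ ‖x‖ * B + B := by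
    intro s
    simp only [hφ]
    refine (norm_sub_le _ _).trans (add_le_add ?_ (D.b1 s))
    rw [norm_mul]
    exact mul_le_mul_of_nonneg_left (D.b0 s) (norm_nonneg _)
  have hlip : ∀ s, ‖φ s‖ ≤ (‖x‖ * B + B) * |t - s| := by
    intro s
    have := lip_of_derivC hd hM t s
    rw [hφt, sub_zero, abs_sub_comm s t] at this
    exact this
  have hφc : Continuous φ := continuous_iff_continuousAt.2 fun s => (hd s).continuousAt
  have i1 : Integrable fun s => φ s * KC (t - s) := by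
    refine ((int_exp_sub t).const_mul ((‖x‖ * B + B) * 9)).mono'
      (hφc.aestronglyMeasurable.mul (KC_meas.comp (measurable_const.sub measurable_id)).aestronglyMeasurable)
      (Eventually.of_forall fun s => ?_)
    have h1 := norm_KC (t - s)
    rw [norm_mul]
    have h2 : 0 ≤ ‖x‖ * B + B := by positivity
    calc ‖φ s‖ * ‖KC (t - s)‖ ≤ ((‖x‖ * B + B) * |t - s|) * ‖KC (t - s)‖ :=
          mul_le_mul_of_nonneg_right (hlip s) (norm_nonneg _)
      _ = (‖x‖ * B + B) * (|t - s| * ‖KC (t - s)‖) := by ring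
      _ ≤ (‖x‖ * B + B) * (9 * Real.exp (-|t - s|)) := mul_le_mul_of_nonneg_left h1 h2
      _ = _ := by ring
  have hV := V_integral.1
  obtain ⟨-, j1, -⟩ := hasDerivAt_convC hV D.d0 D.c0 D.b0 D.b0' t
  obtain ⟨-, j2, -⟩ := hasDerivAt_convC hV D.d1 D.c1 D.b1 D.b1' t
  have e2 : (fun s => φ' s * (V (t - s) : ℂ)) =
      fun s => x * (ρ' s * (V (t - s) : ℂ)) - ρ1' s * (V (t - s) : ℂ) := by
    funext s
    simp only [hφ']
    ring
  have i2 : Integrable fun s => φ' s * (V (t - s) : ℂ) := by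
    rw [e2]
    exact ((j1 t).const_mul x).sub (j2 t)
  have hlim : ∀ (F : Filter ℝ), Tendsto (fun s => V (t - s)) F (𝓝 0) →
      Tendsto (fun s => φ s * (V (t - s) : ℂ)) F (𝓝 0) := by
    intro F hF
    refine squeeze_zero_norm (a := fun s => (‖x‖ * B + B) * ‖V (t - s)‖) (fun s => ?_) ?_
    · rw [norm_mul, Complex.norm_real]
      exact mul_le_mul_of_nonneg_right (hM0 s) (norm_nonneg _)
    · simpa using hF.norm.const_mul (‖x‖ * B + B)
  have htop : Tendsto (fun s => V (t - s)) atTop (𝓝 0) :=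
    V_atBot.comp (tendsto_atBot_add_const_left atTop t tendsto_neg_atTop_atBot)
  have hbot : Tendsto (fun s => V (t - s)) atBot (𝓝 0) :=
    V_atTop.comp (tendsto_atTop_add_const_left atBot t tendsto_neg_atBot_atTop)
  have hp := parts_logC (U := V) (K := fun u => Kw u + Kg u) (fun u hu => hasDerivAt_V hu) u_V_zero hd
    hφt i1 i2 (hlim _ htop) (hlim _ hbot)
  have e1 : (fun s => (x - ρ1 s / ρ s) * KC (t - s) * ρ s) = fun s => φ s * KC (t - s) := by
    funext s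
    have := D.ne s
    simp only [hφ]
    field_simp
  rw [e1]
  refine ⟨i1, ?_⟩
  have hp' : ∫ s, φ s * KC (t - s) = - ∫ s, φ' s * (V (t - s) : ℂ) := hp
  rw [hp', e2, integral_sub ((j1 t).const_mul x) (j2 t), integral_const_mul]
  ring

/-- the double kernel is absolutely integrable against the sea -/
theorem mf_doubleC (D : XiDatC ρ ρ' ρ1 ρ1' B) :
    Integrable (fun p : ℝ × ℝ => ρ p.1 * ((ρ1 p.1 / ρ p.1 - ρ1 p.2 / ρ p.2) *
      KC (p.1 - p.2) * ρ p.2)) (volume.prod volume) := by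
  have hB0 := D.B_nonneg
  have hE : Integrable fun y : ℝ => Real.exp (-|y|) := by
    refine (int_exp_abs one_pos).congr (Eventually.of_forall fun s => ?_)
    simp only [neg_mul, one_mul]
  have hq : Integrable fun s : ℝ => ‖ρ s‖ + ‖ρ1 s‖ := D.i0.norm.add D.i1.norm
  have hmaj : Integrable (fun p : ℝ × ℝ => (‖ρ p.2‖ + ‖ρ1 p.2‖) * Real.exp (-|p.1 - p.2|))
      (volume.prod volume) := hq.convolution_integrand (ContinuousLinearMap.mul ℝ ℝ) hE
  refine (hmaj.const_mul (B * 9)).mono' ?_ (Eventually.of_forall fun p => ?_)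
  · refine Measurable.aestronglyMeasurable ?_
    have m0 := D.cont0.measurable
    have m1 := D.cont1.measurable
    have mK : Measurable fun p : ℝ × ℝ => KC (p.1 - p.2) :=
      KC_meas.comp (measurable_fst.sub measurable_snd)
    exact (m0.comp measurable_fst).mul (((((m1.comp measurable_fst).div (m0.comp measurable_fst)).sub
      ((m1.comp measurable_snd).div (m0.comp measurable_snd))).mul mK).mul (m0.comp measurable_snd))
  · obtain ⟨t, s⟩ := p
    simp only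
    have n1 := D.ne t
    have n2 := D.ne s
    have e : ρ t * ((ρ1 t / ρ t - ρ1 s / ρ s) * KC (t - s) * ρ s) =
        ((ρ1 t - ρ1 s) * ρ s - ρ1 s * (ρ t - ρ s)) * KC (t - s) := by
      field_simp
      ring
    have l0 := lip_of_derivC D.d0 D.b0' s t
    have l1 := lip_of_derivC D.d1 D.b1' s t
    have hK := norm_KC (t - s)
    rw [e, norm_mul]
    have h1 : ‖(ρ1 t - ρ1 s) * ρ s - ρ1 s * (ρ t - ρ s)‖ ≤ B * (‖ρ s‖ + ‖ρ1 s‖) * |t - s| := by
      refine (norm_sub_le _ _).trans ?_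
      rw [norm_mul, norm_mul]
      have a1 := mul_le_mul_of_nonneg_right l1 (norm_nonneg (ρ s))
      have a2 := mul_le_mul_of_nonneg_left l0 (norm_nonneg (ρ1 s))
      calc ‖ρ1 t - ρ1 s‖ * ‖ρ s‖ + ‖ρ1 s‖ * ‖ρ t - ρ s‖ ≤
          B * |t - s| * ‖ρ s‖ + ‖ρ1 s‖ * (B * |t - s|) := add_le_add a1 a2
        _ = _ := by ring
    have h2 : 0 ≤ B * (‖ρ s‖ + ‖ρ1 s‖) := by positivity
    calc ‖(ρ1 t - ρ1 s) * ρ s - ρ1 s * (ρ t - ρ s)‖ * ‖KC (t - s)‖ ≤
        (B * (‖ρ s‖ + ‖ρ1 s‖) * |t - s|) * ‖KC (t - s)‖ :=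
          mul_le_mul_of_nonneg_right h1 (norm_nonneg _)
      _ = B * (‖ρ s‖ + ‖ρ1 s‖) * (|t - s| * ‖KC (t - s)‖) := by ring
      _ ≤ B * (‖ρ s‖ + ‖ρ1 s‖) * (9 * Real.exp (-|t - s|)) := mul_le_mul_of_nonneg_left hK h2
      _ = _ := by ring

/-- `∫ a (V * b) = ∫ b (V * a)` -/
theorem conv_symmC {a b : ℝ → ℂ} {B : ℝ} (ha : Continuous a) (hb : Integrable b) (hB : ∀ s, ‖a s‖ ≤ B) :
    Integrable (fun p : ℝ × ℝ => a p.1 * (b p.2 * (V (p.1 - p.2) : ℂ))) (volume.prod volume) ∧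
    ∫ t, a t * ∫ s, b s * (V (t - s) : ℂ) = ∫ s, b s * ∫ t, a t * (V (s - t) : ℂ) := by
  have hV : Integrable fun u => (V u : ℂ) := V_integral.1.ofReal
  have h1 : Integrable (fun p : ℝ × ℝ => b p.2 * (V (p.1 - p.2) : ℂ)) (volume.prod volume) :=
    hb.convolution_integrand (ContinuousLinearMap.mul ℝ ℂ) hV
  have h2 : Integrable (fun p : ℝ × ℝ => a p.1 * (b p.2 * (V (p.1 - p.2) : ℂ))) (volume.prod volume) :=
    h1.bdd_mul (ha.comp continuous_fst).aestronglyMeasurable (Eventually.of_forall fun p => hB p.1)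
  refine ⟨h2, ?_⟩
  simp_rw [← integral_const_mul]
  rw [integral_integral_swap h2]
  refine integral_congr_ae (Eventually.of_forall fun s => ?_)
  refine integral_congr_ae (Eventually.of_forall fun t => ?_)
  simp only
  rw [V_sub_comm s t]
  ring

/-- **the constant term of the Ward identity vanishes**, complex sea -/
theorem mf_constC (D : XiDatC ρ ρ' ρ1 ρ1' B) :
    2 * (∫ t, ρ1 t * ∫ s, ρ' s * (V (t - s) : ℂ)) +
      ∫ t, ρ t * ∫ s, (ρ1 t / ρ t - ρ1 s / ρ s) * KC (t - s) * ρ s = 0 := by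
  have hV := V_integral.1
  have key : ∀ t, ρ t * ∫ s, (ρ1 t / ρ t - ρ1 s / ρ s) * KC (t - s) * ρ s =
      ρ t * (∫ s, ρ1' s * (V (t - s) : ℂ)) - ρ1 t * ∫ s, ρ' s * (V (t - s) : ℂ) := by
    intro t
    have h1 := (mf_xiC D t).2
    have n1 := D.ne t
    have h2 : ρ t * (ρ1 t / ρ t) = ρ1 t := by field_simp
    linear_combination (ρ t) * h1 - (∫ s, ρ' s * (V (t - s) : ℂ)) * h2
  obtain ⟨p1, e1⟩ := conv_symmC (a := ρ) (b := ρ1') D.cont0 D.i1' D.b0
  obtain ⟨p2, e2⟩ := conv_symmC (a := ρ1) (b := ρ') D.cont1 D.i0' D.b1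
  have j1 : Integrable fun t => ρ t * ∫ s, ρ1' s * (V (t - s) : ℂ) := by
    simp_rw [← integral_const_mul]
    exact p1.integral_prod_left
  have j2 : Integrable fun t => ρ1 t * ∫ s, ρ' s * (V (t - s) : ℂ) := by
    simp_rw [← integral_const_mul]
    exact p2.integral_prod_left
  simp_rw [key]
  rw [integral_sub j1 j2, e1]
  have hc := hasDerivAt_convC hV D.d0 D.c0 D.b0 D.b0'
  have hbd : ∀ t, ‖∫ s, ρ s * (V (t - s) : ℂ)‖ ≤ B * ∫ u, |V u| := by
    intro t
    have h1 : ‖∫ s, ρ s * (V (t - s) : ℂ)‖ ≤ ∫ s, B * |V (t - s)| := by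
      refine norm_integral_le_of_norm_le ((hV.abs.comp_sub_left t).const_mul B)
        (Eventually.of_forall fun s => ?_)
      rw [norm_mul, Complex.norm_real, Real.norm_eq_abs]
      exact mul_le_mul_of_nonneg_right (D.b0 s) (abs_nonneg _)
    rw [integral_const_mul, integral_sub_left_eq_self (fun u => |V u|) volume t] at h1
    exact h1
  have hcont : Continuous fun t => ∫ s, ρ s * (V (t - s) : ℂ) :=
    continuous_iff_continuousAt.2 fun t => (hc t).2.2.continuousAt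
  have k1 : Integrable (ρ1' * fun t => ∫ s, ρ s * (V (t - s) : ℂ)) :=
    D.i1'.mul_bdd (c := B * ∫ u, |V u|) hcont.aestronglyMeasurable (Eventually.of_forall hbd)
  have k2 : Integrable (ρ1 * fun t => ∫ s, ρ s * (V (t - s) : ℂ)) :=
    D.i1.mul_bdd (c := B * ∫ u, |V u|) hcont.aestronglyMeasurable (Eventually.of_forall hbd)
  have hp := integral_mul_deriv_eq_deriv_mul_of_integrable (u := ρ1) (u' := ρ1')
    (v := fun t => ∫ s, ρ s * (V (t - s) : ℂ)) (v' := fun t => ∫ s, ρ' s * (V (t - s) : ℂ))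
    (fun t _ => D.d1 t) (fun t _ => (hc t).2.2) j2 k1 k2
  rw [hp]
  ring

end

end Pool.Agent.PB
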