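import Pool.Agent.PB.Rec

/-!
# Plan B, rows 0: from the recursion to the lower bound of the physical function (helper7)

`gl_of`: the zero coefficients `b j` of the doubly dislocated function (`j` rows at 0) satisfy
`|b (j+1) - b j| ≤ C j^{-(1+c)}`, `c > 3/8`; the physical function `W` (real, positive) satisfies
`|r W - κ b(J k)| ≤ κ' k^{-c}` (TR), the normaliser `r` is `k^{5/24 ± ε}` (B), the a priori bound
`W ≥ k^{-7/12-ε}`.  Then `W ≥ k^{-5/24-ε}`, and the normalised function has a positive limit.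
`gl_of_abs`: the same when (TR) holds up to a factor of modulus one depending on `k`.
-/

set_option autoImplicit false

noncomputable section

open Complex Set Filter Topology

namespace Pool.Agent.PB.Rec

/-- **the lower bound of the physical function** -/
theorem gl_of {c C κ' : ℝ} (hc : 3 / 8 < c) {b : ℕ → ℂ} {κ : ℂ} {W r : ℕ → ℝ} {J : ℕ → ℕ}
    (hb : ∀ᶠ j : ℕ in atTop, ‖b (j + 1) - b j‖ ≤ C * (j : ℝ) ^ (-(1 + c)))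
    (hJ : ∀ M, M ≤ J M)
    (hTR : ∀ᶠ k : ℕ in atTop, ‖((r k * W k : ℝ) : ℂ) - κ * b (J k)‖ ≤ κ' * (k : ℝ) ^ (-c))
    (hr1 : ∀ ε : ℝ, 0 < ε → ∃ A : ℝ, 0 < A ∧ ∀ᶠ k : ℕ in atTop, A * (k : ℝ) ^ (5 / 24 - ε) ≤ r k)
    (hr2 : ∀ ε : ℝ, 0 < ε → ∃ A : ℝ, 0 < A ∧ ∀ᶠ k : ℕ in atTop, r k ≤ A * (k : ℝ) ^ (5 / 24 + ε))
    (hap : ∀ ε : ℝ, 0 < ε → ∃ A : ℝ, 0 < A ∧ ∃ᶠ k : ℕ in atTop, A * (k : ℝ) ^ (-(7 / 12) - ε) ≤ W k) :
    (∃ L : ℝ, 0 < L ∧ Tendsto (fun k => r k * W k) atTop (𝓝 L) ∧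
      ∃ C' : ℝ, ∀ᶠ k : ℕ in atTop, |r k * W k - L| ≤ C' * (k : ℝ) ^ (-c)) ∧
    ∀ ε : ℝ, 0 < ε → ∃ A : ℝ, 0 < A ∧ ∀ᶠ k : ℕ in atTop, A * (k : ℝ) ^ (-(5 / 24) - ε) ≤ W k := by
  -- the a priori bound of the normalised function
  set ε := (c - 3 / 8) / 4 with hε
  have hε0 : 0 < ε := by rw [hε]; linarith
  obtain ⟨A1, hA1, h1⟩ := hr1 ε hε0
  obtain ⟨A2, hA2, h2⟩ := hap ε hε0
  have hlow : ∃ᶠ k : ℕ in atTop, (A1 * A2) * (k : ℝ) ^ (-(3 / 8 + 2 * ε)) ≤ r k * W k := by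
    refine (h2.and_eventually (h1.and (eventually_ge_atTop 1))).mono ?_
    rintro k ⟨e2, e1, hk⟩
    have hk0 : (0 : ℝ) < k := by
      have : 0 < k := by omega
      exact_mod_cast this
    have e3 : (k : ℝ) ^ (-(3 / 8 + 2 * ε)) = (k : ℝ) ^ (5 / 24 - ε) * (k : ℝ) ^ (-(7 / 12) - ε) := by
      rw [← Real.rpow_add hk0]
      congr 1
      ring
    have p1 : 0 ≤ A1 * (k : ℝ) ^ (5 / 24 - ε) := by positivity
    have p2 : 0 ≤ A2 * (k : ℝ) ^ (-(7 / 12) - ε) := by positivity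
    calc (A1 * A2) * (k : ℝ) ^ (-(3 / 8 + 2 * ε)) =
        (A1 * (k : ℝ) ^ (5 / 24 - ε)) * (A2 * (k : ℝ) ^ (-(7 / 12) - ε)) := by rw [e3]; ring
      _ ≤ r k * W k := mul_le_mul e1 e2 p2 (p1.trans e1)
  obtain ⟨L, hL, hlim, hrate, hev⟩ := rec_fin (c := c) (C := C) (κ' := κ') (by linarith)
    (b := fun j _ => b j) (K := 0)
    (by
      filter_upwards [hb] with j hj k hk
      have hk0 : k = 0 := by simpa using hk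
      subst hk0
      simpa using hj)
    (W := fun k => r k * W k) (κ := κ) hJ (by simpa using hTR) (mul_pos hA1 hA2)
    (α := 3 / 8 + 2 * ε) (by rw [hε]; linarith) hlow
  refine ⟨⟨L, hL, hlim, hrate⟩, fun ε' hε' => ?_⟩
  obtain ⟨A3, hA3, h3⟩ := hr2 ε' hε'
  refine ⟨L / 2 / A3, by positivity, ?_⟩
  obtain ⟨A1', hA1', h1'⟩ := hr1 ε' hε'
  filter_upwards [hev, h3, h1', eventually_ge_atTop 1] with k e1 e3 e4 hk
  have hk0 : (0 : ℝ) < k := by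
    have : 0 < k := by omega
    exact_mod_cast this
  have hr0 : 0 < r k := lt_of_lt_of_le (by positivity) e4
  have hW0 : 0 < W k := by
    have : 0 < r k * W k := lt_of_lt_of_le (by positivity) e1
    exact (mul_pos_iff_of_pos_left hr0).1 this
  have e5 : L / 2 ≤ A3 * (k : ℝ) ^ (5 / 24 + ε') * W k :=
    e1.trans (mul_le_mul_of_nonneg_right e3 hW0.le)
  have e6 : (k : ℝ) ^ (-(5 / 24) - ε') * (k : ℝ) ^ (5 / 24 + ε') = 1 := by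
    rw [← Real.rpow_add hk0]
    simp
  have p : 0 < (k : ℝ) ^ (-(5 / 24) - ε') := by positivity
  calc L / 2 / A3 * (k : ℝ) ^ (-(5 / 24) - ε') ≤
      (A3 * (k : ℝ) ^ (5 / 24 + ε') * W k) / A3 * (k : ℝ) ^ (-(5 / 24) - ε') := by gcongr
    _ = W k * ((k : ℝ) ^ (-(5 / 24) - ε') * (k : ℝ) ^ (5 / 24 + ε')) := by
        field_simp
    _ = W k := by rw [e6, mul_one]

/-- **the lower bound of the physical function**, (TR) with unknown phases `u k` -/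
theorem gl_of_abs {c C κ' : ℝ} (hc : 3 / 8 < c) {b : ℕ → ℂ} {κ : ℂ} {W r : ℕ → ℝ} {J : ℕ → ℕ}
    {u : ℕ → ℂ} (hu : ∀ᶠ k : ℕ in atTop, ‖u k‖ = 1)
    (hb : ∀ᶠ j : ℕ in atTop, ‖b (j + 1) - b j‖ ≤ C * (j : ℝ) ^ (-(1 + c)))
    (hJ : ∀ M, M ≤ J M)
    (hTR : ∀ᶠ k : ℕ in atTop, ‖((r k * W k : ℝ) : ℂ) - u k * (κ * b (J k))‖ ≤ κ' * (k : ℝ) ^ (-c))
    (hr1 : ∀ ε : ℝ, 0 < ε → ∃ A : ℝ, 0 < A ∧ ∀ᶠ k : ℕ in atTop, A * (k : ℝ) ^ (5 / 24 - ε) ≤ r k)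
    (hr2 : ∀ ε : ℝ, 0 < ε → ∃ A : ℝ, 0 < A ∧ ∀ᶠ k : ℕ in atTop, r k ≤ A * (k : ℝ) ^ (5 / 24 + ε))
    (hW : ∀ᶠ k : ℕ in atTop, 0 ≤ W k)
    (hap : ∀ ε : ℝ, 0 < ε → ∃ A : ℝ, 0 < A ∧ ∃ᶠ k : ℕ in atTop, A * (k : ℝ) ^ (-(7 / 12) - ε) ≤ W k) :
    (∃ L : ℝ, 0 < L ∧ Tendsto (fun k => r k * W k) atTop (𝓝 L) ∧
      ∃ C' : ℝ, ∀ᶠ k : ℕ in atTop, |r k * W k - L| ≤ C' * (k : ℝ) ^ (-c)) ∧
    ∀ ε : ℝ, 0 < ε → ∃ A : ℝ, 0 < A ∧ ∀ᶠ k : ℕ in atTop, A * (k : ℝ) ^ (-(5 / 24) - ε) ≤ W k := by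
  obtain ⟨A1, hA1, h1⟩ := hr1 1 one_pos
  refine gl_of (c := c) (C := C) (κ' := κ') hc (b := fun j => ((‖b j‖ : ℝ) : ℂ))
    (κ := ((‖κ‖ : ℝ) : ℂ)) (J := J) ?_ hJ ?_ hr1 hr2 hap
  · filter_upwards [hb] with j hj
    refine le_trans ?_ hj
    rw [← ofReal_sub, norm_real, Real.norm_eq_abs]
    exact abs_norm_sub_norm_le _ _
  · filter_upwards [hTR, hu, hW, h1] with k e1 e2 e3 e4
    refine le_trans ?_ e1
    have hr0 : 0 ≤ r k := le_trans (by positivity) e4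
    have e5 : ‖((r k * W k : ℝ) : ℂ)‖ = r k * W k := by
      rw [norm_real, Real.norm_of_nonneg (mul_nonneg hr0 e3)]
    have e6 : ‖u k * (κ * b (J k))‖ = ‖κ‖ * ‖b (J k)‖ := by
      rw [norm_mul, norm_mul, e2, one_mul]
    have e7 := abs_norm_sub_norm_le ((r k * W k : ℝ) : ℂ) (u k * (κ * b (J k)))
    rw [e5, e6] at e7
    rw [← ofReal_mul, ← ofReal_sub, norm_real, Real.norm_eq_abs]
    exact e7

/-- **END, core form**: the normalised physical function is close to a real number `L₀` with an error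
smaller than its a priori lower bound -/
theorem gl_core {c C L0 : ℝ} (hc : 3 / 8 < c) {W r : ℕ → ℝ}
    (hlim : ∀ᶠ k : ℕ in atTop, |r k * W k - L0| ≤ C * (k : ℝ) ^ (-c))
    (hr1 : ∀ ε : ℝ, 0 < ε → ∃ A : ℝ, 0 < A ∧ ∀ᶠ k : ℕ in atTop, A * (k : ℝ) ^ (5 / 24 - ε) ≤ r k)
    (hr2 : ∀ ε : ℝ, 0 < ε → ∃ A : ℝ, 0 < A ∧ ∀ᶠ k : ℕ in atTop, r k ≤ A * (k : ℝ) ^ (5 / 24 + ε))
    (hap : ∀ ε : ℝ, 0 < ε → ∃ A : ℝ, 0 < A ∧ ∃ᶠ k : ℕ in atTop, A * (k : ℝ) ^ (-(7 / 12) - ε) ≤ W k) :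
    0 < L0 ∧ Tendsto (fun k => r k * W k) atTop (𝓝 L0) ∧
    ∀ ε : ℝ, 0 < ε → ∃ A : ℝ, 0 < A ∧ ∀ᶠ k : ℕ in atTop, A * (k : ℝ) ^ (-(5 / 24) - ε) ≤ W k := by
  have h := gl_of (c := c) (C := 0) (κ' := C) hc (b := fun _ => (1 : ℂ)) (κ := ((L0 : ℝ) : ℂ))
    (J := fun k => k) (W := W) (r := r) (Eventually.of_forall fun j => by simp) (fun M => le_rfl)
    (by
      filter_upwards [hlim] with k hk
      rw [mul_one, ← ofReal_sub, norm_real, Real.norm_eq_abs]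
      exact hk) hr1 hr2 hap
  obtain ⟨⟨L, hL, hT, -⟩, h2⟩ := h
  have hz : Tendsto (fun M : ℕ => C * (M : ℝ) ^ (-c)) atTop (𝓝 0) := by
    have := ((tendsto_rpow_neg_atTop (by linarith : 0 < c)).comp
      tendsto_natCast_atTop_atTop).const_mul C
    simpa using this
  have hT0 : Tendsto (fun k => r k * W k) atTop (𝓝 L0) := by
    rw [tendsto_iff_norm_sub_tendsto_zero]
    refine squeeze_zero' (Eventually.of_forall fun M => norm_nonneg _) ?_ hz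
    filter_upwards [hlim] with M e1
    rw [Real.norm_eq_abs]
    exact e1
  have := tendsto_nhds_unique hT hT0
  exact ⟨this ▸ hL, hT0, h2⟩

/-- **END with phases and a complex limit**: `|r W - u (κ g)| ≤ C k^{-c}`, `|u| = 1` -/
theorem gl_lim {c C : ℝ} (hc : 3 / 8 < c) {κ g : ℂ} {W r : ℕ → ℝ} {u : ℕ → ℂ}
    (hu : ∀ᶠ k : ℕ in atTop, ‖u k‖ = 1)
    (hTR : ∀ᶠ k : ℕ in atTop, ‖((r k * W k : ℝ) : ℂ) - u k * (κ * g)‖ ≤ C * (k : ℝ) ^ (-c))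
    (hr1 : ∀ ε : ℝ, 0 < ε → ∃ A : ℝ, 0 < A ∧ ∀ᶠ k : ℕ in atTop, A * (k : ℝ) ^ (5 / 24 - ε) ≤ r k)
    (hr2 : ∀ ε : ℝ, 0 < ε → ∃ A : ℝ, 0 < A ∧ ∀ᶠ k : ℕ in atTop, r k ≤ A * (k : ℝ) ^ (5 / 24 + ε))
    (hW : ∀ᶠ k : ℕ in atTop, 0 ≤ W k)
    (hap : ∀ ε : ℝ, 0 < ε → ∃ A : ℝ, 0 < A ∧ ∃ᶠ k : ℕ in atTop, A * (k : ℝ) ^ (-(7 / 12) - ε) ≤ W k) :
    κ ≠ 0 ∧ g ≠ 0 ∧ Tendsto (fun k => r k * W k) atTop (𝓝 (‖κ‖ * ‖g‖)) ∧
    ∀ ε : ℝ, 0 < ε → ∃ A : ℝ, 0 < A ∧ ∀ᶠ k : ℕ in atTop, A * (k : ℝ) ^ (-(5 / 24) - ε) ≤ W k := by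
  obtain ⟨A1, hA1, h1⟩ := hr1 1 one_pos
  obtain ⟨h2, h3, h4⟩ := gl_core (c := c) (C := C) (L0 := ‖κ‖ * ‖g‖) hc (W := W) (r := r) (by
    filter_upwards [hTR, hu, hW, h1] with k e1 e2 e3 e4
    refine le_trans ?_ e1
    have hr0 : 0 ≤ r k := le_trans (by positivity) e4
    have e5 : ‖((r k * W k : ℝ) : ℂ)‖ = r k * W k := by
      rw [norm_real, Real.norm_of_nonneg (mul_nonneg hr0 e3)]
    have e6 : ‖u k * (κ * g)‖ = ‖κ‖ * ‖g‖ := by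
      rw [norm_mul, norm_mul, e2, one_mul]
    have e7 := abs_norm_sub_norm_le ((r k * W k : ℝ) : ℂ) (u k * (κ * g))
    rwa [e5, e6] at e7) hr1 hr2 hap
  refine ⟨fun h => ?_, fun h => ?_, h3, h4⟩
  · rw [h, norm_zero, zero_mul] at h2
    exact lt_irrefl _ h2
  · rw [h, norm_zero, mul_zero] at h2
    exact lt_irrefl _ h2

end Pool.Agent.PB.Rec

end
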