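import Pool.Agent.NUP.MF.Const
import Pool.Agent.NUP.MF.Bulk

/-!
# The closed mean density of the legs

`S2 w = 1 / cosh² w`, `mF0 z = 8 i / (3 π) sinh (8z/3) / (cosh (8z/3) + √3/2)`, `mF0'` its derivative,
`dleg z = tanh z + i cot (l - i z)`.

* `rule2`: `∫ S2 (8/3 (x - i y)) (f (x + i (3l/2 - y)) - f (x - i (3l/2 + y))) dx = 9 π i / 32 f'(0)`;
* `mF_P`: `mF0' z = ∫ P(s) R(z - s) ds`, `R z = 64 i / (9 π) S2 (8z/3)`, `|Im z| < 3l/2`;
* `conv_mF`: `∫ mF0' (z - u) V u du = 2 TT z`, `|Im z| ≤ 3l/2`;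
* `conv_leg`: the mean field equation of the legs.
-/

set_option autoImplicit false

noncomputable section

open MeasureTheory Set Filter Topology Complex

namespace PBLeg

open NUMF

/-! ## 1. `1 / cosh ^ 2` -/

/-- `1 / cosh ^ 2` -/
def S2 (w : ℂ) : ℂ := 1 / Complex.cosh w ^ 2

theorem S2_neg (w : ℂ) : S2 (-w) = S2 w := by
  unfold S2
  rw [Complex.cosh_neg]

theorem norm_cosh_ge' (w : ℂ) : Real.cosh w.re * |Real.cos w.im| ≤ ‖Complex.cosh w‖ := by
  have h1 := two_norm_cosh_sq w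
  have h2 : Real.cosh (2 * w.re) = 2 * Real.cosh w.re ^ 2 - 1 := by
    have e1 := Real.cosh_two_mul w.re
    have e2 := Real.cosh_sq w.re
    linarith
  have h3 : Real.cos (2 * w.im) = 2 * Real.cos w.im ^ 2 - 1 := Real.cos_two_mul _
  rw [h2, h3] at h1
  have h4 : (Real.cosh w.re * |Real.cos w.im|) ^ 2 ≤ ‖Complex.cosh w‖ ^ 2 := by
    rw [mul_pow, sq_abs]
    have e1 : Real.cos w.im ^ 2 ≤ 1 := Real.cos_sq_le_one _
    have e2 : 1 ≤ Real.cosh w.re ^ 2 := one_le_pow₀ (Real.one_le_cosh _)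
    nlinarith [mul_nonneg (sub_nonneg.2 e1) (sub_nonneg.2 e2)]
  exact le_of_sq_le_sq h4 (norm_nonneg _)
  where
  le_of_sq_le_sq {a b : ℝ} (h : a ^ 2 ≤ b ^ 2) (hb : 0 ≤ b) : a ≤ b := abs_le_of_sq_le_sq' h hb |>.2

theorem exp_le_two_cosh (x : ℝ) : Real.exp |x| ≤ 2 * Real.cosh x := by
  rw [← Real.cosh_abs, Real.cosh_eq]
  have := Real.exp_pos (-|x|)
  linarith

theorem S2_le {a : ℝ} {w : ℂ} (ha : a < Real.pi / 2) (hw : |w.im| ≤ a) :
    ‖S2 w‖ ≤ 4 / Real.cos a ^ 2 * Real.exp (-2 * |w.re|) := by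
  have ha0 : 0 ≤ a := (abs_nonneg _).trans hw
  have hc : 0 < Real.cos a := Real.cos_pos_of_mem_Ioo ⟨by linarith, ha⟩
  have hc1 : Real.cos a ≤ |Real.cos w.im| := by
    rw [← Real.cos_abs w.im]
    refine le_trans ?_ (le_abs_self _)
    exact Real.cos_le_cos_of_nonneg_of_le_pi (abs_nonneg _) (by linarith [Real.pi_pos]) hw
  have h1 := norm_cosh_ge' w
  have h2 := exp_le_two_cosh w.re
  have h3 : Real.exp |w.re| / 2 * Real.cos a ≤ ‖Complex.cosh w‖ := by
    refine le_trans ?_ h1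
    have : 0 < Real.exp |w.re| := Real.exp_pos _
    exact mul_le_mul (by linarith) hc1 hc.le (Real.cosh_pos _).le
  have h4 : 0 < Real.exp |w.re| / 2 * Real.cos a := by positivity
  unfold S2
  rw [norm_div, norm_one, norm_pow]
  calc 1 / ‖Complex.cosh w‖ ^ 2 ≤ 1 / (Real.exp |w.re| / 2 * Real.cos a) ^ 2 := by gcongr
    _ = 4 / Real.cos a ^ 2 * (1 / Real.exp |w.re| ^ 2) := by
        have := Real.exp_pos |w.re|
        field_simp
        ring
    _ = _ := by
        congr 1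
        rw [← Real.exp_nat_mul, one_div, ← Real.exp_neg]
        congr 1
        push_cast
        ring

theorem S2_diff {w : ℂ} (hw : |w.im| < Real.pi / 2) : DifferentiableAt ℂ S2 w := by
  unfold S2
  have h := cosh_ne hw
  exact (differentiableAt_const _).div (Complex.differentiable_cosh.differentiableAt.pow 2) (pow_ne_zero _ h)

theorem tanh_hasDerivAt {w : ℂ} (hw : |w.im| < Real.pi / 2) : HasDerivAt Complex.tanh (S2 w) w := by
  have h := cosh_ne hw
  have h1 : HasDerivAt (fun w => Complex.sinh w / Complex.cosh w)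
      ((Complex.cosh w * Complex.cosh w - Complex.sinh w * Complex.sinh w) / Complex.cosh w ^ 2) w :=
    (Complex.hasDerivAt_sinh w).div (Complex.hasDerivAt_cosh w) h
  have h2 : Complex.tanh = fun w => Complex.sinh w / Complex.cosh w := funext fun w => Complex.tanh_eq_sinh_div_cosh w
  rw [h2]
  convert h1 using 1
  unfold S2
  congr 1
  have := Complex.cosh_sq_sub_sinh_sq w
  linear_combination -this

/-- `S2 (A + π i / 4) + S2 (A - π i / 4) = 4 S2 (2 A)` -/
theorem S2_sum {A : ℂ} (hA : |A.im| < Real.pi / 4) :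
    S2 (A + Real.pi / 4 * I) + S2 (A - Real.pi / 4 * I) = 4 * S2 (2 * A) := by
  have hpi := Real.pi_pos
  have e1 : (A + Real.pi / 4 * I : ℂ).im = A.im + Real.pi / 4 := by
    have : (Real.pi / 4 * I : ℂ) = ((Real.pi / 4 : ℝ) : ℂ) * I := by push_cast; ring
    rw [this]
    simp
  have e2 : (A - Real.pi / 4 * I : ℂ).im = A.im - Real.pi / 4 := by
    have : (Real.pi / 4 * I : ℂ) = ((Real.pi / 4 : ℝ) : ℂ) * I := by push_cast; ring
    rw [this]
    simp
  obtain ⟨a1, a2⟩ := abs_lt.1 hA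
  have n1 : Complex.cosh (A + Real.pi / 4 * I) ≠ 0 := cosh_ne (by rw [e1, abs_lt]; constructor <;> linarith)
  have n2 : Complex.cosh (A - Real.pi / 4 * I) ≠ 0 := cosh_ne (by rw [e2, abs_lt]; constructor <;> linarith)
  have n3 : Complex.cosh (2 * A) ≠ 0 := cosh_ne (by
    rw [show (2 * A : ℂ).im = 2 * A.im by simp, abs_mul, abs_two]
    linarith)
  have hc : Complex.cos (Real.pi / 4) ^ 2 = 1 / 2 := by
    have : Complex.cos (Real.pi / 4) = ((√2 / 2 : ℝ) : ℂ) := by
      rw [← Real.cos_pi_div_four]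
      push_cast
      rfl
    rw [this, ← Complex.ofReal_pow, div_pow, Real.sq_sqrt (by norm_num)]
    push_cast
    norm_num
  have hs : Complex.sin (Real.pi / 4) ^ 2 = 1 / 2 := by
    have := Complex.sin_sq_add_cos_sq (Real.pi / 4)
    rw [hc] at this
    linear_combination this
  have hsc : Complex.cos (Real.pi / 4) * Complex.sin (Real.pi / 4) = 1 / 2 := by
    have h1 := Complex.sin_two_mul (Real.pi / 4)
    rw [show 2 * ((Real.pi : ℂ) / 4) = Real.pi / 2 by ring, Complex.sin_pi_div_two] at h1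
    linear_combination -h1 / 2
  have q1 : Complex.cosh (A + Real.pi / 4 * I) ^ 2 = (1 + I * Complex.sinh (2 * A)) / 2 := by
    rw [Complex.cosh_add, Complex.cosh_mul_I, Complex.sinh_mul_I, Complex.sinh_two_mul]
    have h1 := Complex.cosh_sq_sub_sinh_sq A
    linear_combination (Complex.cosh A ^ 2) * hc + (Complex.sinh A ^ 2 * I ^ 2) * hs +
      (2 * Complex.cosh A * Complex.sinh A * I) * hsc + (1 / 2) * h1 + (Complex.sinh A ^ 2 / 2) * I_sq
  have q2 : Complex.cosh (A - Real.pi / 4 * I) ^ 2 = (1 - I * Complex.sinh (2 * A)) / 2 := by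
    rw [Complex.cosh_sub, Complex.cosh_mul_I, Complex.sinh_mul_I, Complex.sinh_two_mul]
    have h1 := Complex.cosh_sq_sub_sinh_sq A
    linear_combination (Complex.cosh A ^ 2) * hc + (Complex.sinh A ^ 2 * I ^ 2) * hs -
      (2 * Complex.cosh A * Complex.sinh A * I) * hsc + (1 / 2) * h1 + (Complex.sinh A ^ 2 / 2) * I_sq
  have q3 : Complex.cosh (2 * A) ^ 2 = (1 + I * Complex.sinh (2 * A)) * (1 - I * Complex.sinh (2 * A)) := by
    have h1 := Complex.cosh_sq_sub_sinh_sq (2 * A)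
    linear_combination h1 + (Complex.sinh (2 * A) ^ 2) * I_sq
  have m1 : 1 + I * Complex.sinh (2 * A) ≠ 0 := by
    intro h
    rw [h, zero_div] at q1
    exact n1 (pow_eq_zero_iff two_ne_zero |>.1 q1)
  have m2 : 1 - I * Complex.sinh (2 * A) ≠ 0 := by
    intro h
    rw [h, zero_div] at q2
    exact n2 (pow_eq_zero_iff two_ne_zero |>.1 q2)
  unfold S2
  rw [q1, q2, q3]
  field_simp
  ring

/-! ## 2. The rule -/

theorem im_sub_I (x y : ℝ) : ((8 / 3 : ℂ) * (x - y * I)).im = -(8 / 3 * y) := by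
  have : (8 / 3 : ℂ) * (x - y * I) = ((8 / 3 * x : ℝ) : ℂ) + ((-(8 / 3 * y) : ℝ) : ℂ) * I := by
    push_cast
    ring
  rw [this]
  simp

theorem re_sub_I (x y : ℝ) : ((8 / 3 : ℂ) * (x - y * I)).re = 8 / 3 * x := by
  have : (8 / 3 : ℂ) * (x - y * I) = ((8 / 3 * x : ℝ) : ℂ) + ((-(8 / 3 * y) : ℝ) : ℂ) * I := by
    push_cast
    ring
  rw [this]
  simp

theorem abs83 {y : ℝ} (hy : |y| < 3 / 2 * l) : |-(8 / 3 * y)| < Real.pi / 2 := by
  have h8 := eight_l
  rw [abs_neg, abs_mul, abs_of_pos (by norm_num : (0 : ℝ) < 8 / 3)]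
  linarith

/-- the kernel on a line -/
theorem S2_line_le {y : ℝ} (hy : |y| < 3 / 2 * l) (x : ℝ) :
    ‖S2 (8 / 3 * (x - y * I))‖ ≤ 4 / Real.cos |-(8 / 3 * y)| ^ 2 * Real.exp (-(16 / 3) * |x|) := by
  have h := S2_le (a := |-(8 / 3 * y)|) (w := 8 / 3 * (x - y * I)) (abs83 hy) (by rw [im_sub_I])
  rw [re_sub_I, abs_mul, abs_of_pos (by norm_num : (0 : ℝ) < 8 / 3)] at h
  refine h.trans (le_of_eq ?_)
  congr 2
  ring

theorem S2_line_cont {y : ℝ} (hy : |y| < 3 / 2 * l) : Continuous fun x : ℝ => S2 (8 / 3 * (x - y * I)) := by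
  rw [continuous_iff_continuousAt]
  intro x
  have h1 : ContinuousAt S2 (8 / 3 * (x - y * I)) := (S2_diff (by rw [im_sub_I]; exact abs83 hy)).continuousAt
  have h2 : ContinuousAt (fun x : ℝ => (8 / 3 : ℂ) * (x - y * I)) x := by fun_prop
  exact ContinuousAt.comp (f := fun x : ℝ => (8 / 3 : ℂ) * (x - y * I)) h1 h2

theorem S2_line_int {y : ℝ} (hy : |y| < 3 / 2 * l) : Integrable fun x : ℝ => S2 (8 / 3 * (x - y * I)) :=
  ((int_exp_abs (b := 16 / 3) (by norm_num)).const_mul _).mono' (S2_line_cont hy).aestronglyMeasurable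
    (Eventually.of_forall fun x => S2_line_le hy x)

/-- `tanh` at infinity -/
theorem tanh_lim {y : ℝ} : Tendsto (fun x : ℝ => Complex.tanh (8 / 3 * (x - y * I))) atTop (𝓝 1) := by
  have h1 : ∀ᶠ x : ℝ in atTop, ‖Complex.tanh (8 / 3 * (x - y * I)) - 1‖ ≤
      2 / (Real.exp (16 / 3 * x) - 1) := by
    filter_upwards [eventually_gt_atTop 0] with x hx
    set w : ℂ := 8 / 3 * (x - y * I) with hw
    have hre : w.re = 8 / 3 * x := re_sub_I x y
    have hn : ‖Complex.exp (2 * w)‖ = Real.exp (16 / 3 * x) := by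
      rw [Complex.norm_exp]
      congr 1
      rw [show (2 * w : ℂ).re = 2 * w.re by simp, hre]
      ring
    have he : 1 < Real.exp (16 / 3 * x) := Real.one_lt_exp_iff.2 (by positivity)
    have hd : Real.exp (16 / 3 * x) - 1 ≤ ‖Complex.exp (2 * w) + 1‖ := by
      have := norm_sub_le_norm_add (Complex.exp (2 * w)) 1
      rwa [hn, norm_one] at this
    have hne : Complex.exp (2 * w) + 1 ≠ 0 := by
      intro h
      rw [h, norm_zero] at hd
      linarith
    have hE : Complex.exp w ≠ 0 := Complex.exp_ne_zero w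
    have e2 : Complex.exp (2 * w) = Complex.exp w * Complex.exp w := by
      rw [← Complex.exp_add]
      congr 1
      ring
    have hc : Complex.exp w + Complex.exp (-w) ≠ 0 := by
      intro h
      apply hne
      have := congrArg (fun u => Complex.exp w * u) h
      simp only [mul_add, mul_zero, ← Complex.exp_add, add_neg_cancel, Complex.exp_zero] at this
      rw [show 2 * w = w + w by ring]
      exact this
    have e : Complex.tanh w - 1 = -2 / (Complex.exp (2 * w) + 1) := by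
      rw [Complex.tanh_eq_sinh_div_cosh, Complex.sinh, Complex.cosh, div_div_div_cancel_right₀ two_ne_zero,
        div_sub_one hc, div_eq_div_iff hc hne, e2]
      have h3 : Complex.exp w * Complex.exp (-w) = 1 := by
        rw [← Complex.exp_add, add_neg_cancel, Complex.exp_zero]
      linear_combination (-2 * Complex.exp w) * h3
    rw [e, norm_div, norm_neg, Complex.norm_ofNat]
    have : 0 < Real.exp (16 / 3 * x) - 1 := by linarith
    gcongr
  have h2 : Tendsto (fun x : ℝ => 2 / (Real.exp (16 / 3 * x) - 1)) atTop (𝓝 0) := by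
    refine Tendsto.div_atTop tendsto_const_nhds ?_
    refine tendsto_atTop_add_const_right _ _ ?_
    exact Real.tendsto_exp_atTop.comp (tendsto_id.const_mul_atTop (by norm_num))
  rw [tendsto_iff_norm_sub_tendsto_zero]
  exact squeeze_zero' (Eventually.of_forall fun _ => norm_nonneg _) h1 h2

theorem tanh_lim' {y : ℝ} : Tendsto (fun x : ℝ => Complex.tanh (8 / 3 * (x - y * I))) atBot (𝓝 (-1)) := by
  have h := (tanh_lim (y := -y)).comp tendsto_neg_atBot_atTop
  have h2 := h.neg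
  refine h2.congr fun x => ?_
  simp only [Function.comp]
  rw [← Complex.tanh_neg]
  congr 1
  push_cast
  ring

/-- the mass of the kernel -/
theorem S2_line_mass {y : ℝ} (hy : |y| < 3 / 2 * l) : ∫ x : ℝ, S2 (8 / 3 * (x - y * I)) = 3 / 4 := by
  have hd : ∀ x : ℝ, HasDerivAt (fun x : ℝ => 3 / 8 * Complex.tanh (8 / 3 * (x - y * I)))
      (S2 (8 / 3 * (x - y * I))) x := by
    intro x
    have h1 : HasDerivAt (fun x : ℝ => (8 / 3 : ℂ) * (x - y * I)) (8 / 3) x := by
      have := ((hasDerivAt_id x).ofReal_comp.sub_const ((y : ℂ) * I)).const_mul (8 / 3 : ℂ)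
      simpa using this
    have h2 := (tanh_hasDerivAt (w := 8 / 3 * (x - y * I)) (by rw [im_sub_I]; exact abs83 hy)).comp x h1
    have h3 := h2.const_mul (3 / 8 : ℂ)
    have e : S2 (8 / 3 * (x - y * I)) = 3 / 8 * (S2 (8 / 3 * (x - y * I)) * (8 / 3)) := by ring
    rw [e]
    exact h3
  have h := integral_of_hasDerivAt_of_tendsto hd (S2_line_int hy) (tanh_lim'.const_mul _)
    (tanh_lim.const_mul _)
  rw [h]
  norm_num

/-- `dslope` in a strip -/
theorem dslope_diff {f : ℂ → ℂ} {α β : ℝ} (hα : α < 0) (hβ : 0 < β)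
    (hd : ∀ w : ℂ, α ≤ w.im → w.im ≤ β → DifferentiableAt ℂ f w) :
    ∀ w : ℂ, α ≤ w.im → w.im ≤ β → DifferentiableAt ℂ (dslope f 0) w := by
  intro w h1 h2
  by_cases hw : w = 0
  · rw [hw]
    have hop : IsOpen {z : ℂ | α < z.im ∧ z.im < β} :=
      (isOpen_lt continuous_const Complex.continuous_im).inter (isOpen_lt Complex.continuous_im continuous_const)
    have hm : {z : ℂ | α < z.im ∧ z.im < β} ∈ 𝓝 (0 : ℂ) := hop.mem_nhds (by simp [hα, hβ])
    have h3 : DifferentiableOn ℂ f {z : ℂ | α < z.im ∧ z.im < β} := fun z hz =>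
      (hd z hz.1.le hz.2.le).differentiableWithinAt
    exact ((Complex.differentiableOn_dslope hm).2 h3).differentiableAt hm
  · exact (differentiableAt_dslope_of_ne hw).2 (hd w h1 h2)

theorem sinh_ge {w : ℂ} (h : 1 ≤ |w.re|) : Real.exp (8 / 3 * |w.re|) / 4 ≤ ‖Complex.sinh (8 / 3 * w)‖ := by
  have h1 : ‖Complex.sinh (8 / 3 * w)‖ ^ 2 = Real.sinh (8 / 3 * w.re) ^ 2 + Real.sin (8 / 3 * w.im) ^ 2 := by
    have e : (8 / 3 : ℂ) * w = ((8 / 3 * w.re : ℝ) : ℂ) + ((8 / 3 * w.im : ℝ) : ℂ) * I := by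
      conv_lhs => rw [← Complex.re_add_im w]
      push_cast
      ring
    rw [e, Complex.sinh_add, Complex.cosh_mul_I, Complex.sinh_mul_I, ← Complex.ofReal_sinh,
      ← Complex.ofReal_cosh, ← Complex.ofReal_sin, ← Complex.ofReal_cos]
    have e2 : ((Real.sinh (8 / 3 * w.re) : ℝ) : ℂ) * ((Real.cos (8 / 3 * w.im) : ℝ) : ℂ) +
        ((Real.cosh (8 / 3 * w.re) : ℝ) : ℂ) * (((Real.sin (8 / 3 * w.im) : ℝ) : ℂ) * I) =
        ((Real.sinh (8 / 3 * w.re) * Real.cos (8 / 3 * w.im) : ℝ) : ℂ) +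
          ((Real.cosh (8 / 3 * w.re) * Real.sin (8 / 3 * w.im) : ℝ) : ℂ) * I := by
      push_cast
      ring
    rw [e2, ← Complex.normSq_eq_norm_sq, Complex.normSq_add_mul_I]
    have c1 := Real.cosh_sq (8 / 3 * w.re)
    have c2 := Real.sin_sq_add_cos_sq (8 / 3 * w.im)
    rw [mul_pow, mul_pow, c1]
    linear_combination (Real.sinh (8 / 3 * w.re) ^ 2) * c2
  have h2 : |Real.sinh (8 / 3 * w.re)| ≤ ‖Complex.sinh (8 / 3 * w)‖ := by
    refine abs_le_of_sq_le_sq ?_ (norm_nonneg _)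
    rw [h1]
    nlinarith [sq_nonneg (Real.sin (8 / 3 * w.im))]
  refine le_trans ?_ h2
  rw [Real.abs_sinh, abs_mul, abs_of_pos (by norm_num : (0 : ℝ) < 8 / 3)]
  set a : ℝ := 8 / 3 * |w.re| with ha
  have ha1 : 1 ≤ a := by rw [ha]; linarith
  have hE : 2 ≤ Real.exp a := by
    have := Real.add_one_le_exp a
    linarith
  have hEm : Real.exp (-a) ≤ 1 / 2 := by
    rw [Real.exp_neg, inv_eq_one_div]
    exact one_div_le_one_div_of_le (by norm_num) hE
  rw [Real.sinh_eq]
  linarith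

/-- **The rule of the kernel `S2`.** -/
theorem rule2 {f : ℂ → ℂ} {A y : ℝ} (hy : |y| < 3 / 2 * l)
    (hd : ∀ w : ℂ, -(3 / 2 * l) - y ≤ w.im → w.im ≤ 3 / 2 * l - y → DifferentiableAt ℂ f w)
    (hb : ∀ w : ℂ, -(3 / 2 * l) - y ≤ w.im → w.im ≤ 3 / 2 * l - y → ‖f w‖ ≤ A * Real.exp |w.re|) :
    ∫ x : ℝ, S2 (8 / 3 * (x - y * I)) * (f (x + (3 / 2 * l - y : ℝ) * I) - f (x - (3 / 2 * l + y : ℝ) * I)) =
      9 * Real.pi / 32 * I * deriv f 0 := by
  have hl := l_pos
  obtain ⟨y1, y2⟩ := abs_lt.1 hy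
  have hα : -(3 / 2 * l) - y < 0 := by linarith
  have hβ : 0 < 3 / 2 * l - y := by linarith
  have hA : 0 ≤ A := by
    have := (norm_nonneg _).trans (hb 0 (by simpa using hα.le) (by simpa using hβ.le))
    simpa using this
  have hf0 : ‖f 0‖ ≤ A := by simpa using hb 0 (by simpa using hα.le) (by simpa using hβ.le)
  have d1 := dslope_diff hα hβ hd
  have d2 := dslope_diff hα hβ d1
  have d0 : DifferentiableAt ℂ f 0 := hd 0 (by simpa using hα.le) (by simpa using hβ.le)
  -- the regular function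
  set Ψ : ℂ → ℂ := fun w => dslope (dslope f 0) 0 w / ((8 / 3) ^ 2 * shc (8 / 3 * w) ^ 2) with hΨ
  have im83 : ∀ w : ℂ, ((8 / 3 : ℂ) * w).im = 8 / 3 * w.im := by
    intro w
    have : (8 / 3 : ℂ) = ((8 / 3 : ℝ) : ℂ) := by push_cast; rfl
    rw [this, Complex.im_ofReal_mul]
  have hshc : ∀ w : ℂ, -(3 / 2 * l) - y ≤ w.im → w.im ≤ 3 / 2 * l - y → shc (8 / 3 * w) ≠ 0 := by
    intro w h1 h2
    have h8 := eight_l
    refine shc_ne ?_
    rw [im83, abs_lt]
    constructor <;> linarith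
  have dΨ : ∀ w : ℂ, -(3 / 2 * l) - y ≤ w.im → w.im ≤ 3 / 2 * l - y → DifferentiableAt ℂ Ψ w := by
    intro w h1 h2
    have c1 : DifferentiableAt ℂ (fun w : ℂ => shc (8 / 3 * w)) w := by
      have h := (shc_diff (8 / 3 * w)).comp w ((differentiableAt_id).const_mul (8 / 3 : ℂ))
      exact h
    refine (d2 w h1 h2).div ((c1.pow 2).const_mul _) ?_
    exact mul_ne_zero (by norm_num) (pow_ne_zero _ (hshc w h1 h2))
  have vΨ : ∀ w : ℂ, w ≠ 0 → -(3 / 2 * l) - y ≤ w.im → w.im ≤ 3 / 2 * l - y →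
      Ψ w = (f w - f 0 - deriv f 0 * w) / Complex.sinh (8 / 3 * w) ^ 2 := by
    intro w hw h1 h2
    have hs := hshc w h1 h2
    have h3 := shc_mul (8 / 3 * w)
    rw [hΨ]
    simp only
    rw [← h3, dslope_of_ne _ hw, slope_def_field, dslope_same, dslope_of_ne _ hw, slope_def_field, sub_zero]
    field_simp
  -- bound
  obtain ⟨D, hD⟩ : ∃ D : ℝ, D = 2 * A + ‖deriv f 0‖ * (1 + 3 * l) := ⟨_, rfl⟩
  have hD0 : 0 ≤ D := by rw [hD]; positivity
  have bnum : ∀ w : ℂ, -(3 / 2 * l) - y ≤ w.im → w.im ≤ 3 / 2 * l - y →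
      ‖f w - f 0 - deriv f 0 * w‖ ≤ D * Real.exp |w.re| := by
    intro w h1 h2
    have e1 := hb w h1 h2
    have e2 : 1 ≤ Real.exp |w.re| := Real.one_le_exp (abs_nonneg _)
    have e3 : ‖w‖ ≤ (1 + 3 * l) * Real.exp |w.re| := by
      have f1 : |w.im| ≤ 3 * l := by rw [abs_le]; constructor <;> linarith
      have f2 := Complex.norm_le_abs_re_add_abs_im w
      have f3 := Real.add_one_le_exp |w.re|
      nlinarith
    calc _ ≤ ‖f w‖ + ‖f 0‖ + ‖deriv f 0 * w‖ := by
          refine (norm_sub_le _ _).trans (add_le_add (norm_sub_le _ _) le_rfl)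
      _ ≤ A * Real.exp |w.re| + A * Real.exp |w.re| + ‖deriv f 0‖ * ((1 + 3 * l) * Real.exp |w.re|) := by
          rw [norm_mul]
          gcongr
          exact hf0.trans (le_mul_of_one_le_right hA e2)
      _ = _ := by rw [hD]; ring
  have bΨ : ∀ w : ℂ, -(3 / 2 * l) - y ≤ w.im → w.im ≤ 3 / 2 * l - y → 1 ≤ |w.re| →
      ‖Ψ w‖ ≤ 16 * D * Real.exp (-1 * |w.re|) := by
    intro w h1 h2 h3
    have hw : w ≠ 0 := by
      rintro rfl
      simp at h3
      linarith
    rw [vΨ w hw h1 h2, norm_div, norm_pow]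
    have e1 := bnum w h1 h2
    have e2 := sinh_ge h3
    have e3 : 0 < Real.exp (8 / 3 * |w.re|) := Real.exp_pos _
    calc _ ≤ D * Real.exp |w.re| / (Real.exp (8 / 3 * |w.re|) / 4) ^ 2 := by gcongr
      _ = 16 * D * (Real.exp |w.re| / Real.exp (8 / 3 * |w.re|) ^ 2) := by
          field_simp
          ring
      _ ≤ 16 * D * Real.exp (-1 * |w.re|) := by
          refine mul_le_mul_of_nonneg_left ?_ (by positivity)
          rw [← Real.exp_nat_mul, ← Real.exp_sub]
          refine Real.exp_le_exp.2 ?_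
          push_cast
          linarith
  -- shift
  set Φ : ℂ → ℂ := fun u => Ψ (u - (3 / 2 * l + y : ℝ) * I) with hΦ
  have imu : ∀ u : ℂ, (u - (3 / 2 * l + y : ℝ) * I : ℂ).im = u.im - (3 / 2 * l + y) := by intro u; simp
  have reu : ∀ u : ℂ, (u - (3 / 2 * l + y : ℝ) * I : ℂ).re = u.re := by intro u; simp
  have dΦ : ∀ u : ℂ, 0 ≤ u.im → u.im ≤ 3 * l → DifferentiableAt ℂ Φ u := by
    intro u h1 h2
    have h3 := dΨ (u - (3 / 2 * l + y : ℝ) * I) (by rw [imu]; linarith) (by rw [imu]; linarith)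
    exact h3.comp u (differentiableAt_id.sub_const _)
  obtain ⟨i0, i1, e⟩ := hshift (Φ := Φ) (θ := 3 * l) (C := 16 * D) (κ := 1) (by linarith) one_pos
    (fun u hu => (dΦ u hu.1 hu.2).continuousAt.continuousWithinAt)
    (fun u h1 h2 => dΦ u h1.le h2.le)
    (fun u h1 h2 h3 => by
      have := bΨ (u - (3 / 2 * l + y : ℝ) * I) (by rw [imu]; linarith) (by rw [imu]; linarith)
        (by rw [reu]; exact h3)
      rwa [reu] at this)
  have hpi2 : (8 / 3 : ℂ) * ((3 / 2 * l : ℝ) * I) = Real.pi / 2 * I := by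
    rw [← eight_l]
    push_cast
    ring
  have t0 : ∀ x : ℝ, Φ x = -(S2 (8 / 3 * (x - y * I)) * (f (x - (3 / 2 * l + y : ℝ) * I) - f 0 -
      deriv f 0 * (x - (3 / 2 * l + y : ℝ) * I))) := by
    intro x
    have hw : (x - (3 / 2 * l + y : ℝ) * I : ℂ) ≠ 0 := by
      intro h
      have := congrArg Complex.im h
      simp at this
      linarith
    rw [hΦ]
    simp only
    rw [vΨ _ hw (by rw [imu]; simp; linarith) (by rw [imu]; simp; linarith)]
    have e1 : (8 / 3 : ℂ) * (x - (3 / 2 * l + y : ℝ) * I) = 8 / 3 * (x - y * I) - Real.pi / 2 * I := by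
      rw [← hpi2]
      push_cast
      ring
    have e2 : Complex.sinh (8 / 3 * (x - (3 / 2 * l + y : ℝ) * I)) ^ 2 = -Complex.cosh (8 / 3 * (x - y * I)) ^ 2 := by
      rw [e1, Complex.sinh_sub, Complex.cosh_mul_I, Complex.sinh_mul_I, Complex.cos_pi_div_two,
        Complex.sin_pi_div_two]
      linear_combination (Complex.cosh (8 / 3 * (x - y * I)) ^ 2) * I_sq
    rw [e2]
    unfold S2
    rw [div_neg]
    ring
  have t1 : ∀ x : ℝ, Φ (x + (3 * l : ℝ) * I) = -(S2 (8 / 3 * (x - y * I)) * (f (x + (3 / 2 * l - y : ℝ) * I) -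
      f 0 - deriv f 0 * (x + (3 / 2 * l - y : ℝ) * I))) := by
    intro x
    have e0 : (x + (3 * l : ℝ) * I - (3 / 2 * l + y : ℝ) * I : ℂ) = x + (3 / 2 * l - y : ℝ) * I := by
      push_cast
      ring
    have hw : (x + (3 / 2 * l - y : ℝ) * I : ℂ) ≠ 0 := by
      intro h
      have := congrArg Complex.im h
      simp at this
      linarith
    rw [hΦ]
    simp only
    rw [e0, vΨ _ hw (by simp; linarith) (by simp)]
    have e1 : (8 / 3 : ℂ) * (x + (3 / 2 * l - y : ℝ) * I) = 8 / 3 * (x - y * I) + Real.pi / 2 * I := by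
      rw [← hpi2]
      push_cast
      ring
    have e2 : Complex.sinh (8 / 3 * (x + (3 / 2 * l - y : ℝ) * I)) ^ 2 = -Complex.cosh (8 / 3 * (x - y * I)) ^ 2 := by
      rw [e1, Complex.sinh_add, Complex.cosh_mul_I, Complex.sinh_mul_I, Complex.cos_pi_div_two,
        Complex.sin_pi_div_two]
      linear_combination (Complex.cosh (8 / 3 * (x - y * I)) ^ 2) * I_sq
    rw [e2]
    unfold S2
    rw [div_neg]
    ring
  have j0 := S2_line_int hy
  have key : ∀ x : ℝ, S2 (8 / 3 * (x - y * I)) * (f (x + (3 / 2 * l - y : ℝ) * I) - f (x - (3 / 2 * l + y : ℝ) * I)) =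
      (Φ x - Φ (x + (3 * l : ℝ) * I)) + S2 (8 / 3 * (x - y * I)) * (deriv f 0 * (3 * l * I)) := by
    intro x
    rw [t0, t1]
    push_cast
    ring
  simp only [key]
  have e3 := integral_add (i0.sub i1) (j0.mul_const (deriv f 0 * (3 * l * I)))
  simp only [Pi.sub_apply] at e3
  rw [e3, integral_sub i0 i1, e, sub_self, zero_add, integral_mul_const, S2_line_mass hy]
  unfold l
  push_cast
  ring

/-! ## 3. The mean density -/

/-- the mean density of the legs (primitive) -/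
def mF0 (z : ℂ) : ℂ := 8 * I / (3 * Real.pi) *
  (Complex.sinh (8 / 3 * z) / (Complex.cosh (8 / 3 * z) + (√3 : ℝ) / 2))

/-- its derivative -/
def mF0' (z : ℂ) : ℂ := 16 * I / (9 * Real.pi) *
  (S2 (4 / 3 * z + Real.pi / 12 * I) + S2 (4 / 3 * z - Real.pi / 12 * I))

theorem im_add12 (z : ℂ) : (4 / 3 * z + Real.pi / 12 * I : ℂ).im = 4 / 3 * z.im + Real.pi / 12 := by
  have : (Real.pi / 12 * I : ℂ) = ((Real.pi / 12 : ℝ) : ℂ) * I := by push_cast; ring
  rw [this, Complex.add_im, im43]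
  simp

theorem im_sub12 (z : ℂ) : (4 / 3 * z - Real.pi / 12 * I : ℂ).im = 4 / 3 * z.im - Real.pi / 12 := by
  have : (Real.pi / 12 * I : ℂ) = ((Real.pi / 12 : ℝ) : ℂ) * I := by push_cast; ring
  rw [this, Complex.sub_im, im43]
  simp

theorem re_add12 (z : ℂ) : (4 / 3 * z + Real.pi / 12 * I : ℂ).re = 4 / 3 * z.re := by
  have : (4 / 3 * z + Real.pi / 12 * I : ℂ) = ((4 / 3 : ℝ) : ℂ) * z + ((Real.pi / 12 : ℝ) : ℂ) * I := by
    push_cast; ring
  rw [this, Complex.add_re, Complex.re_ofReal_mul]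
  simp

theorem re_sub12 (z : ℂ) : (4 / 3 * z - Real.pi / 12 * I : ℂ).re = 4 / 3 * z.re := by
  have : (4 / 3 * z - Real.pi / 12 * I : ℂ) = ((4 / 3 : ℝ) : ℂ) * z - ((Real.pi / 12 : ℝ) : ℂ) * I := by
    push_cast; ring
  rw [this, Complex.sub_re, Complex.re_ofReal_mul]
  simp

theorem abs12 {z : ℂ} {β : ℝ} (hz : |z.im| ≤ β) : |(4 / 3 * z + Real.pi / 12 * I : ℂ).im| ≤ 4 / 3 * β + Real.pi / 12 ∧
    |(4 / 3 * z - Real.pi / 12 * I : ℂ).im| ≤ 4 / 3 * β + Real.pi / 12 := by
  rw [im_add12, im_sub12]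
  have hpi := Real.pi_pos
  obtain ⟨h1, h2⟩ := abs_le.1 hz
  constructor <;> rw [abs_le] <;> constructor <;> linarith

theorem mF0_hasDerivAt {z : ℂ} (hz : |z.im| < 5 / 2 * l) : HasDerivAt mF0 (mF0' z) z := by
  have hpi := Real.pi_pos
  have h8 := eight_l
  obtain ⟨a1, a2⟩ := abs12 (z := z) le_rfl
  have b1 : |(4 / 3 * z + Real.pi / 12 * I : ℂ).im| < Real.pi / 2 := lt_of_le_of_lt a1 (by linarith)
  have b2 : |(4 / 3 * z - Real.pi / 12 * I : ℂ).im| < Real.pi / 2 := lt_of_le_of_lt a2 (by linarith)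
  have g1 : HasDerivAt (fun z : ℂ => 4 / 3 * z + Real.pi / 12 * I) (4 / 3) z := by
    simpa using ((hasDerivAt_id z).const_mul (4 / 3 : ℂ)).add_const ((Real.pi : ℂ) / 12 * I)
  have g2 : HasDerivAt (fun z : ℂ => 4 / 3 * z - Real.pi / 12 * I) (4 / 3) z := by
    simpa using ((hasDerivAt_id z).const_mul (4 / 3 : ℂ)).sub_const ((Real.pi : ℂ) / 12 * I)
  have h1 := (tanh_hasDerivAt b1).comp z g1
  have h2 := (tanh_hasDerivAt b2).comp z g2
  have h3 := (h1.add h2).const_mul (4 * I / (3 * Real.pi))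
  have e : ∀ᶠ w in 𝓝 z, mF0 w = 4 * I / (3 * Real.pi) *
      ((Complex.tanh ∘ fun z : ℂ => 4 / 3 * z + Real.pi / 12 * I) w +
        (Complex.tanh ∘ fun z : ℂ => 4 / 3 * z - Real.pi / 12 * I) w) := by
    have hop : IsOpen {w : ℂ | |w.im| < 5 / 2 * l} :=
      isOpen_lt (continuous_abs.comp Complex.continuous_im) continuous_const
    filter_upwards [hop.mem_nhds hz] with w hw
    obtain ⟨c1, c2⟩ := abs12 (z := w) le_rfl
    have hw' : |w.im| < 5 / 2 * l := hw
    have n1 := cosh_ne (lt_of_le_of_lt c1 (by linarith) : |(4 / 3 * w + Real.pi / 12 * I : ℂ).im| < Real.pi / 2)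
    have n2 := cosh_ne (lt_of_le_of_lt c2 (by linarith) : |(4 / 3 * w - Real.pi / 12 * I : ℂ).im| < Real.pi / 2)
    simp only [Function.comp]
    rw [Complex.tanh_eq_sinh_div_cosh, Complex.tanh_eq_sinh_div_cosh, div_add_div _ _ n1 n2]
    set u : ℂ := 4 / 3 * w + Real.pi / 12 * I with hu
    set v : ℂ := 4 / 3 * w - Real.pi / 12 * I with hv
    have e1 : Complex.sinh u * Complex.cosh v + Complex.cosh u * Complex.sinh v = Complex.sinh (8 / 3 * w) := by
      rw [← Complex.sinh_add]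
      congr 1
      rw [hu, hv]
      ring
    have e2 : 2 * (Complex.cosh u * Complex.cosh v) = Complex.cosh (8 / 3 * w) + (√3 : ℝ) / 2 := by
      have f1 : Complex.cosh (8 / 3 * w) = Complex.cosh u * Complex.cosh v + Complex.sinh u * Complex.sinh v := by
        rw [← Complex.cosh_add]
        congr 1
        rw [hu, hv]
        ring
      have f2 : ((√3 : ℝ) : ℂ) / 2 = Complex.cosh u * Complex.cosh v - Complex.sinh u * Complex.sinh v := by
        rw [← Complex.cosh_sub, ← cos_pi_6, ← Complex.cosh_mul_I]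
        congr 1
        rw [hu, hv]
        ring
      rw [f1, f2]
      ring
    have n3 : Complex.cosh u * Complex.cosh v ≠ 0 := mul_ne_zero n1 n2
    unfold mF0
    rw [← e2, e1]
    field_simp
    ring
  refine (h3.congr_of_eventuallyEq e).congr_deriv ?_
  unfold mF0'
  have hpi' : (Real.pi : ℂ) ≠ 0 := by exact_mod_cast hpi.ne'
  field_simp
  ring

theorem mF0'_diff {z : ℂ} (hz : |z.im| < 5 / 2 * l) : DifferentiableAt ℂ mF0' z := by
  have hpi := Real.pi_pos
  have h8 := eight_l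
  obtain ⟨a1, a2⟩ := abs12 (z := z) le_rfl
  have b1 : |(4 / 3 * z + Real.pi / 12 * I : ℂ).im| < Real.pi / 2 := lt_of_le_of_lt a1 (by linarith)
  have b2 : |(4 / 3 * z - Real.pi / 12 * I : ℂ).im| < Real.pi / 2 := lt_of_le_of_lt a2 (by linarith)
  have h1 := (S2_diff b1).comp z ((differentiableAt_id.const_mul (4 / 3 : ℂ)).add_const ((Real.pi : ℂ) / 12 * I))
  have h2 := (S2_diff b2).comp z ((differentiableAt_id.const_mul (4 / 3 : ℂ)).sub_const ((Real.pi : ℂ) / 12 * I))
  exact (h1.add h2).const_mul _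

/-- decay of the derivative -/
theorem mF0'_le {β : ℝ} (hβ : β < 5 / 2 * l) : ∃ C : ℝ, 0 < C ∧ ∀ z : ℂ, |z.im| ≤ β →
    ‖mF0' z‖ ≤ C * Real.exp (-(8 / 3) * |z.re|) := by
  have hpi := Real.pi_pos
  have h8 := eight_l
  set a : ℝ := 4 / 3 * β + Real.pi / 12 with ha
  have ha2 : a < Real.pi / 2 := by rw [ha]; linarith
  by_cases hβ0 : 0 ≤ β
  swap
  · exact ⟨1, one_pos, fun z hz => absurd ((abs_nonneg _).trans hz) hβ0⟩
  have hc : 0 < Real.cos a := Real.cos_pos_of_mem_Ioo ⟨by rw [ha]; linarith, ha2⟩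
  refine ⟨16 / (9 * Real.pi) * (8 / Real.cos a ^ 2), by positivity, ?_⟩
  intro z hz
  obtain ⟨a1, a2⟩ := abs12 hz
  have h1 := S2_le ha2 a1
  have h2 := S2_le ha2 a2
  rw [re_add12] at h1
  rw [re_sub12] at h2
  rw [abs_mul, abs_of_pos (by norm_num : (0 : ℝ) < 4 / 3)] at h1 h2
  unfold mF0'
  rw [norm_mul, norm_div, norm_mul, norm_mul, Complex.norm_I, Complex.norm_real, Real.norm_eq_abs,
    abs_of_pos hpi]
  simp only [Complex.norm_ofNat]
  have e : Real.exp (-2 * (4 / 3 * |z.re|)) = Real.exp (-(8 / 3) * |z.re|) := by congr 1; ring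
  rw [e] at h1 h2
  calc _ ≤ 16 * 1 / (9 * Real.pi) * (4 / Real.cos a ^ 2 * Real.exp (-(8 / 3) * |z.re|) +
        4 / Real.cos a ^ 2 * Real.exp (-(8 / 3) * |z.re|)) := by
        gcongr
        exact (norm_add_le _ _).trans (add_le_add h1 h2)
    _ = _ := by ring

/-- the kernel `R` -/
def Rk (z : ℂ) : ℂ := 64 * I / (9 * Real.pi) * S2 (8 / 3 * z)

/-- the three term relation -/
theorem mF_rule {z : ℂ} (hz : |z.im| < 3 / 2 * l) :
    mF0' (z + l * I) + mF0' (z - l * I) - mF0' z = Rk z := by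
  have hpi := Real.pi_pos
  have h8 := eight_l
  have h := S2_sum (A := 4 / 3 * z) (by
    rw [im43, abs_mul, abs_of_pos (by norm_num : (0 : ℝ) < 4 / 3)]
    linarith)
  have hl : ((l : ℝ) : ℂ) = Real.pi / 8 := by unfold l; push_cast; ring
  unfold mF0' Rk
  rw [show 2 * (4 / 3 * z) = 8 / 3 * z by ring] at h
  rw [hl, show 4 / 3 * (z + (Real.pi : ℂ) / 8 * I) + Real.pi / 12 * I = 4 / 3 * z + Real.pi / 4 * I by ring,
    show 4 / 3 * (z + (Real.pi : ℂ) / 8 * I) - Real.pi / 12 * I = 4 / 3 * z + Real.pi / 12 * I by ring,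
    show 4 / 3 * (z - (Real.pi : ℂ) / 8 * I) + Real.pi / 12 * I = 4 / 3 * z - Real.pi / 12 * I by ring,
    show 4 / 3 * (z - (Real.pi : ℂ) / 8 * I) - Real.pi / 12 * I = 4 / 3 * z - Real.pi / 4 * I by ring]
  linear_combination (16 * I / (9 * Real.pi)) * h

theorem mF_P {z : ℂ} (hz : |z.im| < 3 / 2 * l) : ∫ s : ℝ, (P s : ℂ) * Rk (z - s) = mF0' z := by
  have hl := l_pos
  have hin : ∀ w : ℂ, |w.im| ≤ l → |(z - w).im| ≤ |z.im| + l := by
    intro w hw
    rw [Complex.sub_im]
    exact (abs_sub _ _).trans (by linarith)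
  obtain ⟨C, hC0, hC⟩ := mF0'_le (β := |z.im| + l) (by linarith)
  have hd : ∀ w : ℂ, |w.im| ≤ l → DifferentiableAt ℂ (fun w => mF0' (z - w)) w := by
    intro w hw
    have h1 := mF0'_diff (lt_of_le_of_lt (hin w hw) (by linarith))
    exact h1.comp w ((differentiableAt_const _).sub differentiableAt_id)
  obtain ⟨-, -, -, e⟩ := sum_rule (f := fun w => mF0' (z - w)) (A := C) (c := 0) le_rfl (by norm_num)
    (fun w hw => (hd w hw).continuousAt.continuousWithinAt) (fun w hw => hd w hw.le) (by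
      intro w hw
      rw [zero_mul, Real.exp_zero, mul_one]
      refine (hC _ (hin w hw)).trans ?_
      refine mul_le_of_le_one_right hC0.le (Real.exp_le_one_iff.2 ?_)
      have := abs_nonneg (z - w).re
      linarith)
  rw [sub_zero] at e
  rw [← e]
  refine integral_congr_ae (Eventually.of_forall fun s => ?_)
  simp only
  rw [show z - (s + l * I) = z - s - l * I by ring, show z - (s - l * I) = z - s + l * I by ring,
    ← mF_rule (z := z - s) (by simpa using hz)]
  ring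

/-! ## 4. The convolution with `V` -/

theorem Rk_bd {z : ℂ} (hz : |z.im| < 3 / 2 * l) : ∃ M : ℝ, 0 ≤ M ∧ ∀ x : ℝ, ‖Rk (z - x)‖ ≤ M := by
  have hpi := Real.pi_pos
  refine ⟨64 / (9 * Real.pi) * (4 / Real.cos |-(8 / 3 * z.im)| ^ 2), by positivity, fun x => ?_⟩
  have e : S2 (8 / 3 * (z - x)) = S2 (8 / 3 * (((x - z.re : ℝ) : ℂ) - z.im * I)) := by
    rw [← S2_neg]
    congr 1
    conv_lhs => rw [← Complex.re_add_im z]
    push_cast
    ring
  have h := S2_line_le hz (x - z.re)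
  unfold Rk
  rw [norm_mul, norm_div, norm_mul, norm_mul, Complex.norm_I, Complex.norm_real, Real.norm_eq_abs,
    abs_of_pos hpi, e]
  simp only [Complex.norm_ofNat]
  rw [mul_one]
  refine mul_le_mul_of_nonneg_left (h.trans ?_) (by positivity)
  refine mul_le_of_le_one_right (by positivity) (Real.exp_le_one_iff.2 ?_)
  have := abs_nonneg (x - z.re)
  linarith

theorem Rk_cont {z : ℂ} (hz : |z.im| < 3 / 2 * l) : Continuous fun x : ℝ => Rk (z - x) := by
  have e : (fun x : ℝ => Rk (z - x)) = fun x : ℝ => 64 * I / (9 * Real.pi) *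
      S2 (8 / 3 * (((x - z.re : ℝ) : ℂ) - z.im * I)) := by
    funext x
    unfold Rk
    congr 1
    rw [← S2_neg]
    congr 1
    conv_lhs => rw [← Complex.re_add_im z]
    push_cast
    ring
  rw [e]
  exact continuous_const.mul ((S2_line_cont hz).comp (continuous_id.sub continuous_const))

theorem conv_R {z : ℂ} (hz : |z.im| < 3 / 2 * l) :
    ∫ u : ℝ, mF0' (z - u) * (V u : ℂ) = ∫ x : ℝ, Rk (z - x) * (v x : ℂ) := by
  obtain ⟨M, hM0, hM⟩ := Rk_bd hz
  have hRc := Rk_cont hz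
  have iV : Integrable fun u : ℝ => (V u : ℂ) := V_integral.1.ofReal
  have iP : Integrable fun s : ℝ => (P s : ℂ) := P_integrable.ofReal
  -- first kernel
  have j1 : Integrable (fun p : ℝ × ℝ => ((V p.1 : ℂ) * (P p.2 : ℂ)) * Rk (z - (p.1 + p.2 : ℝ)))
      (volume.prod volume) := by
    refine (iV.mul_prod iP).mul_bdd (c := M) ?_ ?_
    · exact (hRc.comp (continuous_fst.add continuous_snd)).aestronglyMeasurable
    · exact Eventually.of_forall fun p => hM _
  have j2 : Integrable (fun p : ℝ × ℝ => ((P p.2 : ℂ) * (V (p.1 - p.2) : ℂ)) * Rk (z - (p.1 : ℝ)))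
      (volume.prod volume) := by
    have h0 := MeasureTheory.Integrable.convolution_integrand (ContinuousLinearMap.mul ℝ ℂ) iP iV
    refine Integrable.mul_bdd (c := M) ?_ ?_ ?_
    · simpa using h0
    · exact (hRc.comp continuous_fst).aestronglyMeasurable
    · exact Eventually.of_forall fun p => hM _
  have e1 : ∀ u : ℝ, mF0' (z - u) * (V u : ℂ) = ∫ s : ℝ, ((V u : ℂ) * (P s : ℂ)) * Rk (z - (u + s : ℝ)) := by
    intro u
    rw [← mF_P (z := z - u) (by simpa using hz), mul_comm, ← integral_const_mul]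
    refine integral_congr_ae (Eventually.of_forall fun s => ?_)
    simp only
    rw [show z - ((u + s : ℝ) : ℂ) = z - u - s by push_cast; ring]
    ring
  have e2 : ∀ x : ℝ, Rk (z - x) * (v x : ℂ) = ∫ s : ℝ, ((P s : ℂ) * (V (x - s) : ℂ)) * Rk (z - (x : ℝ)) := by
    intro x
    rw [integral_mul_const, ← (conv_V x).2, mul_comm]
    congr 1
    rw [← integral_complex_ofReal]
    exact integral_congr_ae (Eventually.of_forall fun s => by push_cast; rfl)
  simp only [e1, e2]
  have s1 := integral_integral_swap (f := fun u s : ℝ => ((V u : ℂ) * (P s : ℂ)) * Rk (z - (u + s : ℝ))) j1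
  have s2 := integral_integral_swap (f := fun x s : ℝ => ((P s : ℂ) * (V (x - s) : ℂ)) * Rk (z - (x : ℝ))) j2
  rw [s1, s2]
  refine integral_congr_ae (Eventually.of_forall fun s => ?_)
  simp only
  rw [← integral_sub_right_eq_self (fun u : ℝ => ((V u : ℂ) * (P s : ℂ)) * Rk (z - (u + s : ℝ))) s]
  refine integral_congr_ae (Eventually.of_forall fun x => ?_)
  simp only [sub_add_cancel]
  ring

/-! ## 5. The closed form -/

/-- difference of two `tanh` -/
def TT (z : ℂ) : ℂ := Complex.tanh (z + (3 / 2 * l : ℝ) * I) - Complex.tanh (z - (3 / 2 * l : ℝ) * I)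

theorem F_hasDerivAt {w : ℂ} (hw : |w.im| < Real.pi / 2) : HasDerivAt F (2 * Complex.tanh w) w := by
  have h1 := (Complex.hasDerivAt_cosh w).clog (cosh_slit hw)
  have h2 := (h1.const_mul 2).add_const ((Real.log 2 : ℝ) : ℂ)
  rw [Complex.tanh_eq_sinh_div_cosh]
  exact h2

/-- `F` is real on the real axis, and symmetric -/
theorem F_real (x : ℝ) : F x = (h x 0 : ℂ) := by
  have hpi := Real.pi_pos
  have h1 : (F x).re = h x 0 := by
    have := F_re (w := x) (by simpa using (by positivity : 0 < Real.pi / 2))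
    simpa using this
  have h2 : (F x).im = 0 := by
    unfold F
    rw [← Complex.ofReal_cosh, ← Complex.ofReal_log (Real.cosh_pos x).le]
    have : (2 : ℂ) * ((Real.log (Real.cosh x) : ℝ) : ℂ) + ((Real.log 2 : ℝ) : ℂ) =
        ((2 * Real.log (Real.cosh x) + Real.log 2 : ℝ) : ℂ) := by push_cast; ring
    rw [this, Complex.ofReal_im]
  exact Complex.ext (by rw [h1, Complex.ofReal_re]) (by rw [h2, Complex.ofReal_im])

theorem F_pair {x y : ℝ} (hy : |y| < Real.pi / 2) : F (x + y * I) + F (x - y * I) = 2 * (h x y : ℂ) := by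
  have e : (x - y * I : ℂ) = (starRingEnd ℂ) (x + y * I) := by
    simp
    ring
  have h1 : F (x - y * I) = (starRingEnd ℂ) (F (x + y * I)) := by
    rw [e]
    unfold F
    rw [Complex.cosh_conj, Complex.log_conj _ (Complex.slitPlane_arg_ne_pi (cosh_slit (by simpa using hy))),
      map_add, map_mul, Complex.conj_ofReal, map_ofNat]
  rw [h1, Complex.add_conj, F_re (by simpa using hy)]
  simp

theorem conv_v {z : ℂ} (hz : |z.im| < 3 / 2 * l) : ∫ x : ℝ, Rk (z - x) * (v x : ℂ) = 2 * TT z := by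
  have hpi := Real.pi_pos
  have hl := l_pos
  have h8 := eight_l
  set b : ℝ := 3 / 2 * l with hb
  have hb4 : 2 * b < 4 * l := by rw [hb]; linarith
  set Fd : ℂ → ℂ := fun w => (F (w - b * I) - F (w + b * I)) / 2 with hFd
  have im1 : ∀ w : ℂ, (w - b * I : ℂ).im = w.im - b := by intro w; simp
  have im2 : ∀ w : ℂ, (w + b * I : ℂ).im = w.im + b := by intro w; simp
  have re1 : ∀ w : ℂ, (w - b * I : ℂ).re = w.re := by intro w; simp
  have re2 : ∀ w : ℂ, (w + b * I : ℂ).re = w.re := by intro w; simp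
  have hin : ∀ w : ℂ, |w.im| ≤ b → |(w - b * I : ℂ).im| ≤ 2 * b ∧ |(w + b * I : ℂ).im| ≤ 2 * b := by
    intro w hw
    have hb0 : 0 < b := by rw [hb]; positivity
    rw [im1, im2]
    obtain ⟨h1, h2⟩ := abs_le.1 hw
    constructor <;> rw [abs_le] <;> constructor <;> linarith
  have hdF : ∀ w : ℂ, |w.im| ≤ b → HasDerivAt Fd (Complex.tanh (w - b * I) - Complex.tanh (w + b * I)) w := by
    intro w hw
    obtain ⟨h1, h2⟩ := hin w hw
    have g1 : HasDerivAt (fun w : ℂ => w - b * I) 1 w := (hasDerivAt_id w).sub_const _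
    have g2 : HasDerivAt (fun w : ℂ => w + b * I) 1 w := (hasDerivAt_id w).add_const _
    have k1 := (F_hasDerivAt (w := w - b * I) (lt_of_le_of_lt h1 (by linarith))).comp w g1
    have k2 := (F_hasDerivAt (w := w + b * I) (lt_of_le_of_lt h2 (by linarith))).comp w g2
    have k3 := (k1.sub k2).div_const 2
    have e : Complex.tanh (w - b * I) - Complex.tanh (w + b * I) =
        (2 * Complex.tanh (w - b * I) * 1 - 2 * Complex.tanh (w + b * I) * 1) / 2 := by ring
    rw [e]
    exact k3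
  obtain ⟨B, hB⟩ : ∃ B : ℝ, B = 2 * |Real.log (Real.cos (2 * b))| + 2 * Real.pi + 1 := ⟨_, rfl⟩
  have hB0 : 0 ≤ B := by rw [hB]; positivity
  have hbF : ∀ w : ℂ, |w.im| ≤ b → ‖Fd w‖ ≤ 2 * |w.re| + B := by
    intro w hw
    obtain ⟨h1, h2⟩ := hin w hw
    have k1 := F_bound (b := 2 * b) (by linarith) h1
    have k2 := F_bound (b := 2 * b) (by linarith) h2
    rw [re1, ← hB] at k1
    rw [re2, ← hB] at k2
    rw [hFd]
    simp only
    rw [norm_div, Complex.norm_ofNat]
    have := norm_sub_le (F (w - b * I)) (F (w + b * I))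
    linarith
  set f : ℂ → ℂ := fun w => Fd (z + w) with hf
  have rule := rule2 (f := f) (A := 2 * |z.re| + B + 2) (y := z.im) hz
    (by
      intro w h1 h2
      have h3 : |(z + w).im| ≤ b := by rw [Complex.add_im, abs_le]; constructor <;> linarith
      exact ((hdF _ h3).comp w ((hasDerivAt_id w).const_add z)).differentiableAt)
    (by
      intro w h1 h2
      have h3 : |(z + w).im| ≤ b := by rw [Complex.add_im, abs_le]; constructor <;> linarith
      have h4 := hbF _ h3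
      rw [Complex.add_re] at h4
      have h5 := abs_add_le z.re w.re
      have h6 := Real.add_one_le_exp |w.re|
      have h7 := abs_nonneg z.re
      have h8 := abs_nonneg w.re
      rw [hf]
      simp only
      nlinarith)
  have df : deriv f 0 = Complex.tanh (z - b * I) - Complex.tanh (z + b * I) := by
    have h3 : |(z + 0 : ℂ).im| ≤ b := by rw [add_zero]; exact hz.le
    have h4 := (hdF _ h3).comp (0 : ℂ) ((hasDerivAt_id (0 : ℂ)).const_add z)
    have h5 := h4.deriv
    rw [mul_one, add_zero] at h5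
    exact h5
  rw [df] at rule
  -- the integrand
  have e1 : ∀ x : ℝ, S2 (8 / 3 * (x - z.im * I)) * (f (x + (3 / 2 * l - z.im : ℝ) * I) -
      f (x - (3 / 2 * l + z.im : ℝ) * I)) = S2 (8 / 3 * (x - z.im * I)) * (v (x + z.re) : ℂ) := by
    intro x
    congr 1
    rw [hf]
    simp only
    have hz' : z = z.re + z.im * I := (Complex.re_add_im z).symm
    have a1 : z + (x + (3 / 2 * l - z.im : ℝ) * I) = ((x + z.re : ℝ) : ℂ) + b * I := by
      rw [hb]
      push_cast
      linear_combination hz'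
    have a2 : z + (x - (3 / 2 * l + z.im : ℝ) * I) = ((x + z.re : ℝ) : ℂ) - b * I := by
      rw [hb]
      push_cast
      linear_combination hz'
    rw [a1, a2, hFd]
    simp only
    have a3 : ((x + z.re : ℝ) : ℂ) + b * I - b * I = ((x + z.re : ℝ) : ℂ) := by ring
    have a4 : ((x + z.re : ℝ) : ℂ) - b * I + b * I = ((x + z.re : ℝ) : ℂ) := by ring
    have a5 : ((x + z.re : ℝ) : ℂ) + b * I + b * I = ((x + z.re : ℝ) : ℂ) + (3 * l : ℝ) * I := by
      rw [hb]; push_cast; ring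
    have a6 : ((x + z.re : ℝ) : ℂ) - b * I - b * I = ((x + z.re : ℝ) : ℂ) - (3 * l : ℝ) * I := by
      rw [hb]; push_cast; ring
    rw [a3, a4, a5, a6, F_real, v_eq]
    have a7 := F_pair (x := x + z.re) (y := 3 * l) (by rw [abs_of_pos (by linarith)]; linarith)
    push_cast at a7 ⊢
    linear_combination (-1 / 2 : ℂ) * a7
  simp only [e1] at rule
  have e2 : ∫ x : ℝ, S2 (8 / 3 * (x - z.im * I)) * (v (x + z.re) : ℂ) =
      ∫ x : ℝ, S2 (8 / 3 * (((x - z.re : ℝ) : ℂ) - z.im * I)) * (v x : ℂ) := by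
    rw [← integral_sub_right_eq_self (fun x : ℝ => S2 (8 / 3 * (x - z.im * I)) * (v (x + z.re) : ℂ)) z.re]
    refine integral_congr_ae (Eventually.of_forall fun x => ?_)
    simp only [sub_add_cancel]
  rw [e2] at rule
  have e3 : ∀ x : ℝ, Rk (z - x) * (v x : ℂ) = 64 * I / (9 * Real.pi) *
      (S2 (8 / 3 * (((x - z.re : ℝ) : ℂ) - z.im * I)) * (v x : ℂ)) := by
    intro x
    unfold Rk
    rw [mul_assoc]
    congr 2
    rw [← S2_neg]
    congr 1
    conv_lhs => rw [← Complex.re_add_im z]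
    push_cast
    ring
  simp only [e3]
  rw [integral_const_mul, rule]
  unfold TT
  rw [← hb]
  have hpi' : (Real.pi : ℂ) ≠ 0 := by exact_mod_cast hpi.ne'
  generalize Complex.tanh (z - b * I) = T1
  generalize Complex.tanh (z + b * I) = T2
  have e4 : 64 * I / (9 * (Real.pi : ℂ)) * (9 * Real.pi / 32 * I * (T1 - T2)) = 2 * I ^ 2 * (T1 - T2) := by
    field_simp
    ring
  rw [e4, I_sq]
  ring

/-- **convolution of the mean density with `V`**, up to the line `|Im z| = 3 l / 2` -/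
theorem conv_mF {x y : ℝ} (hy0 : 0 ≤ y) (hy : y ≤ 3 / 2 * l) :
    ∫ u : ℝ, mF0' (x - y * I - u) * (V u : ℂ) = 2 * TT (x - y * I) := by
  have hpi := Real.pi_pos
  have hl := l_pos
  have h8 := eight_l
  -- continuity in the height
  obtain ⟨C, hC0, hC⟩ := mF0'_le (β := 2 * l) (by linarith)
  have him : ∀ u y : ℝ, ((x : ℂ) - y * I - u).im = -y := by intro u y; simp
  have c1 : ContinuousOn (fun y : ℝ => ∫ u : ℝ, mF0' (x - y * I - u) * (V u : ℂ)) (Icc 0 (3 / 2 * l)) := by
    refine continuousOn_of_dominated (bound := fun u => C * ‖V u‖) ?_ ?_ ?_ ?_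
    · intro y hy
      refine AEStronglyMeasurable.mul ?_ V_integral.1.ofReal.aestronglyMeasurable
      refine Continuous.aestronglyMeasurable ?_
      rw [continuous_iff_continuousAt]
      intro u
      have h1 : ContinuousAt mF0' (x - y * I - u) := (mF0'_diff (by
        rw [him, abs_neg, abs_of_nonneg hy.1]
        linarith [hy.2])).continuousAt
      exact ContinuousAt.comp (f := fun u : ℝ => (x : ℂ) - y * I - u) h1 (by fun_prop)
    · intro y hy
      refine Eventually.of_forall fun u => ?_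
      rw [norm_mul, Complex.norm_real]
      refine mul_le_mul_of_nonneg_right ?_ (norm_nonneg _)
      refine (hC _ (by rw [him, abs_neg, abs_of_nonneg hy.1]; linarith [hy.2])).trans ?_
      refine mul_le_of_le_one_right hC0.le (Real.exp_le_one_iff.2 ?_)
      have := abs_nonneg (x - y * I - u : ℂ).re
      linarith
    · exact V_integral.1.norm.const_mul C
    · refine Eventually.of_forall fun u => ?_
      refine ContinuousOn.mul ?_ continuousOn_const
      intro y hy
      have h1 : ContinuousAt mF0' (x - y * I - u) := (mF0'_diff (by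
        rw [him, abs_neg, abs_of_nonneg hy.1]
        linarith [hy.2])).continuousAt
      exact (ContinuousAt.comp (f := fun y : ℝ => (x : ℂ) - y * I - u) h1 (by fun_prop)).continuousWithinAt
  have c2 : ContinuousOn (fun y : ℝ => 2 * TT (x - y * I)) (Icc 0 (3 / 2 * l)) := by
    refine continuousOn_const.mul ?_
    intro y hy
    have i1 : ((x : ℂ) - y * I + (3 / 2 * l : ℝ) * I).im = 3 / 2 * l - y := by simp; ring
    have i2 : ((x : ℂ) - y * I - (3 / 2 * l : ℝ) * I).im = -(3 / 2 * l + y) := by simp; ring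
    have h1 : ContinuousAt Complex.tanh (x - y * I + (3 / 2 * l : ℝ) * I) := (tanh_hasDerivAt (by
      rw [i1, abs_of_nonneg (by linarith [hy.2])]
      linarith [hy.1])).continuousAt
    have h2 : ContinuousAt Complex.tanh (x - y * I - (3 / 2 * l : ℝ) * I) := (tanh_hasDerivAt (by
      rw [i2, abs_neg, abs_of_nonneg (by linarith [hy.1])]
      linarith [hy.2])).continuousAt
    have g1 := ContinuousAt.comp (f := fun y : ℝ => (x : ℂ) - y * I + (3 / 2 * l : ℝ) * I) h1 (by fun_prop)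
    have g2 := ContinuousAt.comp (f := fun y : ℝ => (x : ℂ) - y * I - (3 / 2 * l : ℝ) * I) h2 (by fun_prop)
    exact (g1.sub g2).continuousWithinAt
  have h1 : EqOn (fun y : ℝ => ∫ u : ℝ, mF0' (x - y * I - u) * (V u : ℂ)) (fun y : ℝ => 2 * TT (x - y * I))
      (Ico 0 (3 / 2 * l)) := by
    intro y hy
    have hz : |((x : ℂ) - y * I).im| < 3 / 2 * l := by
      rw [show ((x : ℂ) - y * I).im = -y by simp, abs_neg, abs_of_nonneg hy.1]
      exact hy.2
    simp only
    rw [conv_R hz, conv_v hz]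
  have h2 := h1.of_subset_closure c1 c2 Ico_subset_Icc_self (by
    rw [closure_Ico (by positivity : (0 : ℝ) ≠ 3 / 2 * l)])
  exact h2 ⟨hy0, hy⟩

/-- the derivative of the logarithm of the leg factor -/
def dleg (z : ℂ) : ℂ := Complex.tanh z + I * Complex.cot (l - I * z)

theorem dleg_eq (z : ℂ) : dleg z = Complex.tanh z - Complex.tanh (z - (3 * l : ℝ) * I) := by
  have h8 := eight_l
  have e1 : Complex.sinh (z - (3 * l : ℝ) * I) = -I * Complex.cos (l - I * z) := by
    have h1 := Complex.sin_mul_I (z - (3 * l : ℝ) * I)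
    have h2 : (z - (3 * l : ℝ) * I) * I = Real.pi / 2 - (l - I * z) := by
      rw [← h8]
      push_cast
      linear_combination (-3 * (l : ℂ)) * I_sq
    rw [h2, Complex.sin_pi_div_two_sub] at h1
    rw [h1]
    linear_combination (Complex.sinh (z - (3 * l : ℝ) * I)) * I_sq
  have e2 : Complex.cosh (z - (3 * l : ℝ) * I) = Complex.sin (l - I * z) := by
    have h1 := Complex.cos_mul_I (z - (3 * l : ℝ) * I)
    have h2 : (z - (3 * l : ℝ) * I) * I = Real.pi / 2 - (l - I * z) := by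
      rw [← h8]
      push_cast
      linear_combination (-3 * (l : ℂ)) * I_sq
    rw [h2, Complex.cos_pi_div_two_sub] at h1
    exact h1.symm
  have key : I * Complex.cot (l - I * z) = -Complex.tanh (z - (3 * l : ℝ) * I) := by
    rw [Complex.tanh_eq_sinh_div_cosh, Complex.cot, e1, e2]
    ring
  unfold dleg
  rw [key]
  ring

theorem dleg_TT (x : ℝ) : dleg x = TT (x - (3 / 2 * l : ℝ) * I) := by
  rw [dleg_eq]
  unfold TT
  congr 2
  · ring
  · push_cast
    ring

/-- **The mean field equation of the legs.** -/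
theorem conv_leg (t τ : ℝ) :
    ∫ s : ℝ, mF0' (s - τ - 3 / 2 * l * I) * (V (t - s) : ℂ) = 2 * dleg (t - τ) := by
  have hl := l_pos
  have h := conv_mF (x := t - τ) (y := 3 / 2 * l) (by positivity) le_rfl
  rw [← integral_sub_left_eq_self (fun u : ℝ => mF0' (((t - τ : ℝ) : ℂ) - (3 / 2 * l : ℝ) * I - u) * (V u : ℂ))
    volume t, ← dleg_TT] at h
  rw [show dleg (t - τ) = dleg ((t - τ : ℝ) : ℂ) by push_cast; rfl, ← h]
  refine integral_congr_ae (Eventually.of_forall fun s => ?_)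
  simp only
  congr 2
  push_cast
  ring

end PBLeg

end
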