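import Pool.Agent.PB.MFxiC

/-!
# Plan B: the mean part of the value of the Ward identity

`x` (vector field), `m`, `n` (mean densities): bounded, `C^1`, limits at `± ∞`, derivatives
`O(e^{-|s|/2})`.  `W_m t = ∫ m s V (t - s) ds` (`= 2 D`), `K = Kw + Kg = -V'`.

* `mv_point`: `∫ (x t - x s) K (t - s) m s ds = ∫ (x m)' s V (t - s) ds - x t ∫ m' s V (t - s) ds`;
* `mv_double`: absolute integrability of `n t (x t - x s) K (t - s) m s`;
* **`mv_bil`**: `∫ n t ∫ (x t - x s) K (t - s) m s = κ (x₊ m₊ n₊ - x₋ m₋ n₋) - ∫ x m W_n' - ∫ x n W_m'`,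
  `κ = ∫ V = 9 π² / 32`; `mv_quad` (`n = m`), `mv_lin` (`n = 1`);
* **`mean_value`**: if `W_m = 2 D`, `D(± ∞) = ± 3 l i`, then
  `(1/4) ∫∫ m t (x t - x s) K (t - s) m s + ∫ m x D' = - (x₊ - x₋) / 2`;
* **`mean_lin`**: `∫ x D' + (1/2) ∫∫ (x t - x s) K (t - s) m s = 3 l i (x₊ + x₋)`.
-/

set_option autoImplicit false

open MeasureTheory Set Filter Topology

namespace Pool.Agent.PB

open NUMF

noncomputable section

/-- bounded `C^1` function with limits, derivative `O(e^{-|s|/2})` -/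
structure Lim (f f' : ℝ → ℂ) (B : ℝ) (fp fm : ℂ) : Prop where
  d : ∀ s, HasDerivAt f (f' s) s
  c : Continuous f'
  b : ∀ s, ‖f s‖ ≤ B
  b' : ∀ s, ‖f' s‖ ≤ B * Real.exp (-(|s| / 2))
  top : Tendsto f atTop (𝓝 fp)
  bot : Tendsto f atBot (𝓝 fm)

lemma int_exp_half : Integrable fun s : ℝ => Real.exp (-(|s| / 2)) := by
  refine (int_exp_abs (b := 1 / 2) (by norm_num)).congr (Eventually.of_forall fun s => ?_)
  simp only
  congr 1
  ring

namespace Lim

variable {f f' : ℝ → ℂ} {B : ℝ} {fp fm : ℂ}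

lemma B_nonneg (h : Lim f f' B fp fm) : 0 ≤ B := (norm_nonneg _).trans (h.b 0)

lemma cont (h : Lim f f' B fp fm) : Continuous f :=
  continuous_iff_continuousAt.2 fun s => (h.d s).continuousAt

lemma b'' (h : Lim f f' B fp fm) (s : ℝ) : ‖f' s‖ ≤ B := by
  refine (h.b' s).trans ?_
  have h1 : Real.exp (-(|s| / 2)) ≤ 1 := by
    rw [Real.exp_le_one_iff]
    have := abs_nonneg s
    linarith
  have := h.B_nonneg
  nlinarith [Real.exp_pos (-(|s| / 2))]

lemma int' (h : Lim f f' B fp fm) : Integrable f' :=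
  (int_exp_half.const_mul B).mono' h.c.aestronglyMeasurable (Eventually.of_forall h.b')

/-- increments -/
lemma incr (h : Lim f f' B fp fm) (s t : ℝ) :
    ‖f t - f s‖ ≤ B * Real.exp (-(|s| / 2)) * Real.exp (|t - s| / 2) * |t - s| := by
  have hB := h.B_nonneg
  refine Convex.norm_image_sub_le_of_norm_hasDerivWithin_le (f := f) (f' := f') (s := uIcc s t)
    (x := s) (y := t) (fun x _ => (h.d x).hasDerivWithinAt) (fun x hx => ?_) (convex_uIcc s t)
    left_mem_uIcc right_mem_uIcc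
  refine (h.b' x).trans ?_
  rw [mul_assoc, ← Real.exp_add]
  have h1 : |x - s| ≤ |t - s| := abs_sub_left_of_mem_uIcc hx
  have h2 : |s| - |x| ≤ |x - s| := by
    have := abs_sub_abs_le_abs_sub s x
    rw [abs_sub_comm s x] at this
    exact this
  exact mul_le_mul_of_nonneg_left (Real.exp_le_exp.2 (by linarith)) hB

/-- the potential -/
lemma conv_hasDerivAt (h : Lim f f' B fp fm) (t : ℝ) :
    HasDerivAt (fun t => ∫ s, f s * (V (t - s) : ℂ)) (∫ s, f' s * (V (t - s) : ℂ)) t :=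
  (hasDerivAt_convC V_integral.1 h.d h.c h.b h.b'' t).2.2

lemma conv_i (h : Lim f f' B fp fm) (t : ℝ) : Integrable fun s => f s * (V (t - s) : ℂ) :=
  (hasDerivAt_convC V_integral.1 h.d h.c h.b h.b'' t).1 t

lemma conv_i' (h : Lim f f' B fp fm) (t : ℝ) : Integrable fun s => f' s * (V (t - s) : ℂ) :=
  (hasDerivAt_convC V_integral.1 h.d h.c h.b h.b'' t).2.1 t

lemma conv_cont (h : Lim f f' B fp fm) : Continuous fun t => ∫ s, f s * (V (t - s) : ℂ) :=
  continuous_iff_continuousAt.2 fun t => (h.conv_hasDerivAt t).continuousAt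

lemma conv_bdd (h : Lim f f' B fp fm) (t : ℝ) :
    ‖∫ s, f s * (V (t - s) : ℂ)‖ ≤ B * ∫ u, |V u| := by
  have hV := V_integral.1
  have h1 : ‖∫ s, f s * (V (t - s) : ℂ)‖ ≤ ∫ s, B * |V (t - s)| := by
    refine norm_integral_le_of_norm_le ((hV.abs.comp_sub_left t).const_mul B)
      (Eventually.of_forall fun s => ?_)
    rw [norm_mul, Complex.norm_real, Real.norm_eq_abs]
    exact mul_le_mul_of_nonneg_right (h.b s) (abs_nonneg _)
  rw [integral_const_mul, integral_sub_left_eq_self (fun u => |V u|) volume t] at h1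
  exact h1

lemma conv_int' (h : Lim f f' B fp fm) : Integrable fun t => ∫ s, f' s * (V (t - s) : ℂ) := by
  have hV : Integrable fun u => (V u : ℂ) := V_integral.1.ofReal
  have h1 : Integrable (fun p : ℝ × ℝ => f' p.2 * (V (p.1 - p.2) : ℂ)) (volume.prod volume) :=
    h.int'.convolution_integrand (ContinuousLinearMap.mul ℝ ℂ) hV
  exact h1.integral_prod_left

lemma conv_shift (t : ℝ) : ∫ s, f s * (V (t - s) : ℂ) = ∫ u, f (t - u) * (V u : ℂ) := by
  have := integral_sub_left_eq_self (fun u => f (t - u) * (V u : ℂ)) volume t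
  rw [← this]
  refine integral_congr_ae (Eventually.of_forall fun s => ?_)
  simp only [sub_sub_cancel]

lemma int_VC : ∫ u, (V u : ℂ) = ((9 * Real.pi ^ 2 / 32 : ℝ) : ℂ) := by
  rw [integral_complex_ofReal, V_integral.2]

lemma conv_lim (h : Lim f f' B fp fm) {F : Filter ℝ} [F.IsCountablyGenerated] {c : ℂ}
    (hF : ∀ u : ℝ, Tendsto (fun t => f (t - u)) F (𝓝 c)) :
    Tendsto (fun t => ∫ s, f s * (V (t - s) : ℂ)) F (𝓝 (c * ((9 * Real.pi ^ 2 / 32 : ℝ) : ℂ))) := by
  have hV := V_integral.1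
  simp_rw [conv_shift]
  rw [← int_VC, ← integral_const_mul]
  refine tendsto_integral_filter_of_dominated_convergence (fun u => B * |V u|) ?_ ?_
    (hV.abs.const_mul B) ?_
  · refine Eventually.of_forall fun t => ?_
    exact ((h.cont.comp (continuous_const.sub continuous_id)).aestronglyMeasurable).mul
      hV.ofReal.aestronglyMeasurable
  · refine Eventually.of_forall fun t => Eventually.of_forall fun u => ?_
    rw [norm_mul, Complex.norm_real, Real.norm_eq_abs]
    exact mul_le_mul_of_nonneg_right (h.b _) (abs_nonneg _)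
  · exact Eventually.of_forall fun u => (hF u).mul_const _

lemma conv_top (h : Lim f f' B fp fm) : Tendsto (fun t => ∫ s, f s * (V (t - s) : ℂ)) atTop
    (𝓝 (fp * ((9 * Real.pi ^ 2 / 32 : ℝ) : ℂ))) :=
  h.conv_lim fun u => h.top.comp (tendsto_atTop_add_const_right atTop (-u) tendsto_id)

lemma conv_bot (h : Lim f f' B fp fm) : Tendsto (fun t => ∫ s, f s * (V (t - s) : ℂ)) atBot
    (𝓝 (fm * ((9 * Real.pi ^ 2 / 32 : ℝ) : ℂ))) :=
  h.conv_lim fun u => h.bot.comp (tendsto_atBot_add_const_right atBot (-u) tendsto_id)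

lemma const (c : ℂ) {B : ℝ} (hB : ‖c‖ ≤ B) : Lim (fun _ => c) (fun _ => 0) B c c where
  d s := hasDerivAt_const s c
  c := continuous_const
  b _ := hB
  b' s := by
    rw [norm_zero]
    exact mul_nonneg ((norm_nonneg _).trans hB) (Real.exp_pos _).le
  top := tendsto_const_nhds
  bot := tendsto_const_nhds

lemma mono (h : Lim f f' B fp fm) {B' : ℝ} (hB : B ≤ B') : Lim f f' B' fp fm :=
  { h with
    b := fun s => (h.b s).trans hB
    b' := fun s => (h.b' s).trans (mul_le_mul_of_nonneg_right hB (Real.exp_pos _).le) }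

lemma mul {g g' : ℝ → ℂ} {gp gm : ℂ} (h : Lim f f' B fp fm) (hg : Lim g g' B gp gm) :
    Lim (fun s => f s * g s) (fun s => f' s * g s + f s * g' s) (2 * B ^ 2 + B ^ 2) (fp * gp)
      (fm * gm) where
  d s := (h.d s).mul (hg.d s)
  c := (h.c.mul hg.cont).add (h.cont.mul hg.c)
  b s := by
    rw [norm_mul]
    have h1 := h.b s
    have h2 := hg.b s
    have := h.B_nonneg
    have : ‖f s‖ * ‖g s‖ ≤ B * B := mul_le_mul h1 h2 (norm_nonneg _) this
    nlinarith [sq_nonneg B]
  b' s := by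
    have h1 := h.b s
    have h2 := hg.b s
    have h3 := h.b' s
    have h4 := hg.b' s
    have hB := h.B_nonneg
    have he := (Real.exp_pos (-(|s| / 2))).le
    refine (norm_add_le _ _).trans ?_
    rw [norm_mul, norm_mul]
    have a1 : ‖f' s‖ * ‖g s‖ ≤ B * Real.exp (-(|s| / 2)) * B :=
      mul_le_mul h3 h2 (norm_nonneg _) (by positivity)
    have a2 : ‖f s‖ * ‖g' s‖ ≤ B * (B * Real.exp (-(|s| / 2))) :=
      mul_le_mul h1 h4 (norm_nonneg _) hB
    nlinarith [mul_nonneg (sq_nonneg B) he]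
  top := h.top.mul hg.top
  bot := h.bot.mul hg.bot

end Lim

variable {x x' m m' n n' : ℝ → ℂ} {B : ℝ} {xp xm mp mm np nm : ℂ}

/-- the inner integral -/
theorem mv_point (hx : Lim x x' B xp xm) (hm : Lim m m' B mp mm) (t : ℝ) :
    Integrable (fun s => (x t - x s) * KC (t - s) * m s) ∧
    ∫ s, (x t - x s) * KC (t - s) * m s =
      (∫ s, (x' s * m s + x s * m' s) * (V (t - s) : ℂ)) - x t * ∫ s, m' s * (V (t - s) : ℂ) := by
  have hB := hx.B_nonneg
  set φ : ℝ → ℂ := fun s => (x t - x s) * m s with hφ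
  set φ' : ℝ → ℂ := fun s => x t * m' s - (x' s * m s + x s * m' s) with hφ'
  have hd : ∀ s, HasDerivAt φ (φ' s) s := by
    intro s
    have h1 := ((hx.d s).const_sub (x t)).mul (hm.d s)
    refine h1.congr_deriv ?_
    simp only [hφ']
    ring
  have hφt : φ t = 0 := by simp [hφ]
  have hlip : ∀ s, ‖φ s‖ ≤ B * B * |t - s| := by
    intro s
    simp only [hφ]
    rw [norm_mul]
    have h1 := lip_of_derivC hx.d hx.b'' s t
    calc ‖x t - x s‖ * ‖m s‖ ≤ (B * |t - s|) * B :=
          mul_le_mul h1 (hm.b s) (norm_nonneg _) (by positivity)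
      _ = _ := by ring
  have hM0 : ∀ s, ‖φ s‖ ≤ 2 * B * B := by
    intro s
    simp only [hφ]
    rw [norm_mul]
    have h1 : ‖x t - x s‖ ≤ 2 * B := (norm_sub_le _ _).trans (by linarith [hx.b t, hx.b s])
    exact mul_le_mul h1 (hm.b s) (norm_nonneg _) (by positivity)
  have hφc : Continuous φ := continuous_iff_continuousAt.2 fun s => (hd s).continuousAt
  have i1 : Integrable fun s => φ s * KC (t - s) := by
    refine ((int_exp_sub t).const_mul (B * B * 9)).mono'
      (hφc.aestronglyMeasurable.mul (KC_meas.comp (measurable_const.sub measurable_id)).aestronglyMeasurable)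
      (Eventually.of_forall fun s => ?_)
    have h1 := norm_KC (t - s)
    rw [norm_mul]
    calc ‖φ s‖ * ‖KC (t - s)‖ ≤ (B * B * |t - s|) * ‖KC (t - s)‖ :=
          mul_le_mul_of_nonneg_right (hlip s) (norm_nonneg _)
      _ = (B * B) * (|t - s| * ‖KC (t - s)‖) := by ring
      _ ≤ (B * B) * (9 * Real.exp (-|t - s|)) := mul_le_mul_of_nonneg_left h1 (by positivity)
      _ = _ := by ring
  have hxm := hx.mul hm
  have e2 : (fun s => φ' s * (V (t - s) : ℂ)) = fun s => x t * (m' s * (V (t - s) : ℂ)) -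
      (x' s * m s + x s * m' s) * (V (t - s) : ℂ) := by
    funext s
    simp only [hφ']
    ring
  have j1 := (hm.conv_i' t).const_mul (x t)
  have j2 := hxm.conv_i' t
  have i2 : Integrable fun s => φ' s * (V (t - s) : ℂ) := by
    rw [e2]
    exact j1.sub j2
  have hlim : ∀ (F : Filter ℝ), Tendsto (fun s => V (t - s)) F (𝓝 0) →
      Tendsto (fun s => φ s * (V (t - s) : ℂ)) F (𝓝 0) := by
    intro F hF
    refine squeeze_zero_norm (a := fun s => (2 * B * B) * ‖V (t - s)‖) (fun s => ?_) ?_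
    · rw [norm_mul, Complex.norm_real]
      exact mul_le_mul_of_nonneg_right (hM0 s) (norm_nonneg _)
    · simpa using hF.norm.const_mul (2 * B * B)
  have htop : Tendsto (fun s => V (t - s)) atTop (𝓝 0) :=
    V_atBot.comp (tendsto_atBot_add_const_left atTop t tendsto_neg_atTop_atBot)
  have hbot : Tendsto (fun s => V (t - s)) atBot (𝓝 0) :=
    V_atTop.comp (tendsto_atTop_add_const_left atBot t tendsto_neg_atBot_atTop)
  have hp := parts_logC (U := V) (K := fun u => Kw u + Kg u) (fun u hu => hasDerivAt_V hu) u_V_zero hd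
    hφt i1 i2 (hlim _ htop) (hlim _ hbot)
  have e1 : (fun s => (x t - x s) * KC (t - s) * m s) = fun s => φ s * KC (t - s) := by
    funext s
    simp only [hφ]
    ring
  rw [e1]
  refine ⟨i1, ?_⟩
  have hp' : ∫ s, φ s * KC (t - s) = - ∫ s, φ' s * (V (t - s) : ℂ) := hp
  rw [hp', e2, integral_sub j1 j2, integral_const_mul]
  ring

/-- absolute integrability of the double integral -/
theorem mv_double (hx : Lim x x' B xp xm) (hm : Lim m m' B mp mm) (hn : Lim n n' B np nm) :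
    Integrable (fun p : ℝ × ℝ => n p.1 * ((x p.1 - x p.2) * KC (p.1 - p.2) * m p.2))
      (volume.prod volume) := by
  have hB := hx.B_nonneg
  have hmaj : Integrable (fun p : ℝ × ℝ => Real.exp (-(|p.2| / 2)) * Real.exp (-(|p.1 - p.2| / 2)))
      (volume.prod volume) :=
    int_exp_half.convolution_integrand (ContinuousLinearMap.mul ℝ ℝ) int_exp_half
  refine (hmaj.const_mul (B * B * B * 9)).mono' ?_ (Eventually.of_forall fun p => ?_)
  · refine Measurable.aestronglyMeasurable ?_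
    have m0 := hx.cont.measurable
    have m1 := hm.cont.measurable
    have m2 := hn.cont.measurable
    have mK : Measurable fun p : ℝ × ℝ => KC (p.1 - p.2) :=
      KC_meas.comp (measurable_fst.sub measurable_snd)
    exact (m2.comp measurable_fst).mul ((((m0.comp measurable_fst).sub
      (m0.comp measurable_snd)).mul mK).mul (m1.comp measurable_snd))
  · obtain ⟨t, s⟩ := p
    simp only
    have hK := norm_KC (t - s)
    have hi := hx.incr s t
    rw [norm_mul, norm_mul, norm_mul]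
    set E := Real.exp (-(|s| / 2)) with hE
    have hE0 : 0 < E := Real.exp_pos _
    have he : Real.exp (|t - s| / 2) * Real.exp (-|t - s|) = Real.exp (-(|t - s| / 2)) := by
      rw [← Real.exp_add]
      congr 1
      ring
    calc ‖n t‖ * (‖x t - x s‖ * ‖KC (t - s)‖ * ‖m s‖) ≤
        B * (B * E * Real.exp (|t - s| / 2) * |t - s| * ‖KC (t - s)‖ * B) := by
          have h1 := hn.b t
          have h2 := hm.b s
          gcongr
      _ = B * (B * E * Real.exp (|t - s| / 2) * B) * (|t - s| * ‖KC (t - s)‖) := by ring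
      _ ≤ B * (B * E * Real.exp (|t - s| / 2) * B) * (9 * Real.exp (-|t - s|)) := by gcongr
      _ = B * B * B * 9 * (E * (Real.exp (|t - s| / 2) * Real.exp (-|t - s|))) := by ring
      _ = _ := by rw [he]

/-- **the double integral** -/
theorem mv_bil (hx : Lim x x' B xp xm) (hm : Lim m m' B mp mm) (hn : Lim n n' B np nm) :
    Integrable (fun t => x t * m t * ∫ s, n' s * (V (t - s) : ℂ)) ∧
    Integrable (fun t => x t * n t * ∫ s, m' s * (V (t - s) : ℂ)) ∧
    ∫ t, n t * ∫ s, (x t - x s) * KC (t - s) * m s =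
      ((9 * Real.pi ^ 2 / 32 : ℝ) : ℂ) * (xp * mp * np - xm * mm * nm) -
        (∫ t, x t * m t * ∫ s, n' s * (V (t - s) : ℂ)) -
        ∫ t, x t * n t * ∫ s, m' s * (V (t - s) : ℂ) := by
  have hB := hx.B_nonneg
  have hxm := hx.mul hm
  have hxn := hx.mul hn
  have k1 : Integrable fun t => x t * m t * ∫ s, n' s * (V (t - s) : ℂ) :=
    hn.conv_int'.bdd_mul (c := 2 * B ^ 2 + B ^ 2) hxm.cont.aestronglyMeasurable
      (Eventually.of_forall hxm.b)
  have k2 : Integrable fun t => x t * n t * ∫ s, m' s * (V (t - s) : ℂ) :=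
    hm.conv_int'.bdd_mul (c := 2 * B ^ 2 + B ^ 2) hxn.cont.aestronglyMeasurable
      (Eventually.of_forall hxn.b)
  refine ⟨k1, k2, ?_⟩
  have key : ∀ t, n t * ∫ s, (x t - x s) * KC (t - s) * m s =
      n t * (∫ s, (x' s * m s + x s * m' s) * (V (t - s) : ℂ)) -
        x t * n t * ∫ s, m' s * (V (t - s) : ℂ) := by
    intro t
    rw [(mv_point hx hm t).2]
    ring
  simp_rw [key]
  obtain ⟨p1, e1⟩ := conv_symmC (a := n) (b := fun s => x' s * m s + x s * m' s) hn.cont hxm.int'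
    hn.b
  have j1 : Integrable fun t => n t * ∫ s, (x' s * m s + x s * m' s) * (V (t - s) : ℂ) := by
    simp_rw [← integral_const_mul]
    exact p1.integral_prod_left
  rw [integral_sub j1 k2, e1]
  -- integration by parts
  have hd : ∀ t, HasDerivAt (fun t => x t * m t * ∫ s, n s * (V (t - s) : ℂ))
      ((x' t * m t + x t * m' t) * (∫ s, n s * (V (t - s) : ℂ)) +
        x t * m t * ∫ s, n' s * (V (t - s) : ℂ)) t := fun t =>
    (hxm.d t).mul (hn.conv_hasDerivAt t)
  have k3 : Integrable fun t => (x' t * m t + x t * m' t) * ∫ s, n s * (V (t - s) : ℂ) :=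
    hxm.int'.mul_bdd (c := B * ∫ u, |V u|) hn.conv_cont.aestronglyMeasurable
      (Eventually.of_forall hn.conv_bdd)
  have hp := integral_of_hasDerivAt_of_tendsto hd (k3.add k1)
    (hxm.bot.mul hn.conv_bot) (hxm.top.mul hn.conv_top)
  rw [integral_add k3 k1] at hp
  linear_combination hp

/-- `n = m` -/
theorem mv_quad (hx : Lim x x' B xp xm) (hm : Lim m m' B mp mm) :
    ∫ t, m t * ∫ s, (x t - x s) * KC (t - s) * m s =
      ((9 * Real.pi ^ 2 / 32 : ℝ) : ℂ) * (xp * mp ^ 2 - xm * mm ^ 2) -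
        2 * ∫ t, x t * m t * ∫ s, m' s * (V (t - s) : ℂ) := by
  rw [(mv_bil hx hm hm).2.2]
  ring

/-- `n = 1` -/
theorem mv_lin (hx : Lim x x' B xp xm) (hm : Lim m m' B mp mm) (hB : 1 ≤ B) :
    ∫ t, ∫ s, (x t - x s) * KC (t - s) * m s =
      ((9 * Real.pi ^ 2 / 32 : ℝ) : ℂ) * (xp * mp - xm * mm) -
        ∫ t, x t * ∫ s, m' s * (V (t - s) : ℂ) := by
  have h1 := (mv_bil hx hm (Lim.const (1 : ℂ) (B := B) (by simpa using hB))).2.2
  simpa using h1

/-- `∫∫ (x t - x s) K (t - s) ds dt = (9 π² / 32) (x₊ - x₋)` -/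
theorem mv_one (hx : Lim x x' B xp xm) (hB : 1 ≤ B) :
    ∫ t, ∫ s, (x t - x s) * KC (t - s) = ((9 * Real.pi ^ 2 / 32 : ℝ) : ℂ) * (xp - xm) := by
  have h1 := mv_lin hx (Lim.const (1 : ℂ) (B := B) (by simpa using hB)) hB
  simpa using h1

/-- mean potential `D` of the legs and mean density `m`: `V * m = 2 D`, limits `± 3 l i` -/
structure MeanDat (m m' D D' : ℝ → ℂ) (B : ℝ) (mp mm : ℂ) : Prop where
  lim : Lim m m' B mp mm
  dD : ∀ t, HasDerivAt D (D' t) t
  eq : ∀ t, ∫ s, m s * (V (t - s) : ℂ) = 2 * D t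
  top : Tendsto D atTop (𝓝 ((3 * l : ℝ) * Complex.I))
  bot : Tendsto D atBot (𝓝 (-((3 * l : ℝ) * Complex.I)))

namespace MeanDat

variable {D D' : ℝ → ℂ}

lemma eq' (h : MeanDat m m' D D' B mp mm) (t : ℝ) : ∫ s, m' s * (V (t - s) : ℂ) = 2 * D' t := by
  have h1 := h.lim.conv_hasDerivAt t
  have h2 : HasDerivAt (fun t => ∫ s, m s * (V (t - s) : ℂ)) (2 * D' t) t := by
    have : (fun t => ∫ s, m s * (V (t - s) : ℂ)) = fun t => 2 * D t := funext h.eq
    rw [this]
    exact (h.dD t).const_mul 2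
  exact h1.unique h2

lemma kap_ne : ((9 * Real.pi ^ 2 / 32 : ℝ) : ℂ) ≠ 0 := by
  have := Real.pi_pos
  exact_mod_cast (by positivity : (9 * Real.pi ^ 2 / 32 : ℝ) ≠ 0)

lemma mp_eq (h : MeanDat m m' D D' B mp mm) :
    mp * ((9 * Real.pi ^ 2 / 32 : ℝ) : ℂ) = 2 * ((3 * l : ℝ) * Complex.I) := by
  have h1 := h.lim.conv_top
  have h2 : Tendsto (fun t => ∫ s, m s * (V (t - s) : ℂ)) atTop
      (𝓝 (2 * ((3 * l : ℝ) * Complex.I))) := by
    simp_rw [h.eq]
    exact h.top.const_mul 2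
  exact tendsto_nhds_unique h1 h2

lemma mm_eq (h : MeanDat m m' D D' B mp mm) :
    mm * ((9 * Real.pi ^ 2 / 32 : ℝ) : ℂ) = -(2 * ((3 * l : ℝ) * Complex.I)) := by
  have h1 := h.lim.conv_bot
  have h2 : Tendsto (fun t => ∫ s, m s * (V (t - s) : ℂ)) atBot
      (𝓝 (2 * -((3 * l : ℝ) * Complex.I))) := by
    simp_rw [h.eq]
    exact h.bot.const_mul 2
  rw [mul_neg] at h2
  exact tendsto_nhds_unique h1 h2

lemma l_sq : (2 * ((3 * l : ℝ) * Complex.I)) ^ 2 = -2 * ((9 * Real.pi ^ 2 / 32 : ℝ) : ℂ) := by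
  have : l = Real.pi / 8 := rfl
  rw [mul_pow, mul_pow, Complex.I_sq, this]
  push_cast
  ring

lemma mp_sq (h : MeanDat m m' D D' B mp mm) :
    ((9 * Real.pi ^ 2 / 32 : ℝ) : ℂ) * mp ^ 2 = -2 := by
  have h1 := h.mp_eq
  have h2 := l_sq
  have h3 := kap_ne
  have h4 : (mp * ((9 * Real.pi ^ 2 / 32 : ℝ) : ℂ)) ^ 2 = -2 * ((9 * Real.pi ^ 2 / 32 : ℝ) : ℂ) := by
    rw [h1, h2]
  have h5 : ((9 * Real.pi ^ 2 / 32 : ℝ) : ℂ) * (((9 * Real.pi ^ 2 / 32 : ℝ) : ℂ) * mp ^ 2 + 2) = 0 := by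
    linear_combination h4
  rcases mul_eq_zero.1 h5 with h6 | h6
  · exact absurd h6 h3
  · linear_combination h6

lemma mm_sq (h : MeanDat m m' D D' B mp mm) :
    ((9 * Real.pi ^ 2 / 32 : ℝ) : ℂ) * mm ^ 2 = -2 := by
  have h1 := h.mm_eq
  have h2 := l_sq
  have h3 := kap_ne
  have h4 : (mm * ((9 * Real.pi ^ 2 / 32 : ℝ) : ℂ)) ^ 2 = -2 * ((9 * Real.pi ^ 2 / 32 : ℝ) : ℂ) := by
    rw [h1, ← h2]
    ring
  have h5 : ((9 * Real.pi ^ 2 / 32 : ℝ) : ℂ) * (((9 * Real.pi ^ 2 / 32 : ℝ) : ℂ) * mm ^ 2 + 2) = 0 := by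
    linear_combination h4
  rcases mul_eq_zero.1 h5 with h6 | h6
  · exact absurd h6 h3
  · linear_combination h6

/-- **mean part of the value** -/
theorem value (h : MeanDat m m' D D' B mp mm) (hx : Lim x x' B xp xm) :
    Integrable (fun t => m t * x t * D' t) ∧
    (1 / 4) * (∫ t, m t * ∫ s, (x t - x s) * KC (t - s) * m s) + ∫ t, m t * x t * D' t =
      -(xp - xm) / 2 := by
  have h1 := mv_quad hx h.lim
  have h2 := (mv_bil hx h.lim h.lim).1
  simp_rw [h.eq'] at h1 h2
  have e : ∀ t, x t * m t * (2 * D' t) = 2 * (m t * x t * D' t) := fun t => by ring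
  simp_rw [e] at h1 h2
  have h3 : Integrable fun t => m t * x t * D' t := by
    refine (h2.const_mul (1 / 2)).congr (Eventually.of_forall fun t => ?_)
    simp only
    ring
  refine ⟨h3, ?_⟩
  rw [integral_const_mul] at h1
  rw [h1]
  have h4 := h.mp_sq
  have h5 := h.mm_sq
  linear_combination (xp / 4) * h4 - (xm / 4) * h5

/-- **linear part** -/
theorem value_lin (h : MeanDat m m' D D' B mp mm) (hx : Lim x x' B xp xm) (hB : 1 ≤ B) :
    Integrable (fun t => x t * D' t) ∧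
    (∫ t, x t * D' t) + (1 / 2) * (∫ t, ∫ s, (x t - x s) * KC (t - s) * m s) =
      ((3 * l : ℝ) * Complex.I) * (xp + xm) := by
  have h1 := mv_lin hx h.lim hB
  have h2 := (mv_bil hx h.lim (Lim.const (1 : ℂ) (B := B) (by simpa using hB))).2.1
  simp_rw [h.eq'] at h1 h2
  have e : ∀ t, x t * (2 * D' t) = 2 * (x t * D' t) := fun t => by ring
  have h3 : Integrable fun t => x t * D' t := by
    refine (h2.const_mul (1 / 2)).congr (Eventually.of_forall fun t => ?_)
    simp only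
    ring
  refine ⟨h3, ?_⟩
  simp_rw [e] at h1
  rw [integral_const_mul] at h1
  rw [h1]
  have h4 := h.mp_eq
  have h5 := h.mm_eq
  linear_combination (xp / 2) * h4 - (xm / 2) * h5

end MeanDat

end

end Pool.Agent.PB
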