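import Pool.Agent.PB.ClsMeas
import Pool.Agent.PB.ClsR40
import Pool.Agent.PB.Reg0

/-!
# Measurability of the functional in a parameter of the one body functions

* `measurable_wKZ`, `measurable_gKZ`, `measurable_trmZ`, `measurable_trAZ`: a parameter in the one
  body functions, the curves and the insertion;
* **`measurable_FFZ`**, **`measurable_FAZ`**;
* `MZ`: jointly measurable families; `MZ.spX`, `MZ.XX`; `measurable_FF_reg`: the class `W1 W1'`.
-/

set_option autoImplicit false
set_option linter.unusedSectionVars false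
set_option linter.unusedVariables false

noncomputable section

open Complex MeasureTheory Finset
open scoped ENNReal

namespace PBF

open NUO NUP1 NUCR NUP1S NUP1S.Ab NUP1S.AbC NUGC

/-- jointly measurable families of one body functions -/
def MZ {S : Type*} [MeasurableSpace S] (Z : S → Bool → Option O3 → ℂ → ℂ) : Prop :=
  ∀ b k, Measurable fun p : S × ℂ => Z p.1 b k p.2

section

variable {S : Type*} [MeasurableSpace S] {Z : S → Bool → Option O3 → ℂ → ℂ} (hZ : MZ Z)
  {P : NUO.Par} {r : ℕ} (hP : Measurable (P.rad r))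

include hZ in
theorem MZ.at {Y : Type*} [MeasurableSpace Y] {s : Y → S} {u : Y → ℂ} (hs : Measurable s)
    (hu : Measurable u) (b : Bool) (k : Option O3) : Measurable fun y => Z (s y) b k (u y) :=
  (hZ b k).comp (hs.prodMk hu)

include hZ in
theorem measurable_obKZ {Y : Type*} [MeasurableSpace Y] (jL e : ℝ) (k : Bool × Kind)
    {s : Y → S} {t a ρ : Y → ℝ} (hs : Measurable s) (ht : Measurable t) (ha : Measurable a)
    (hρ : Measurable ρ) : Measurable fun y => obK (Z (s y)) jL e (ρ y) (k, (t y, a y)) := by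
  obtain ⟨b, k⟩ := k
  have hS : Measurable fun y => posS e (t y) := NUO.measurable_vl ht _
  have hS' : Measurable fun y => posS e (t y) + 2 * l := hS.add_const _
  have hV := measurable_posV ht ha hρ e
  have hL : Measurable fun y => posL jL (t y) := NUO.measurable_vl ht _
  have hT : Measurable fun y => posT (t y) := NUO.measurable_vl ht _
  have h2 : Measurable fun y => Complex.exp (2 * Real.pi * (a y : ℂ) * I) := by fun_prop
  have h3 : Measurable fun y => (ρ y : ℂ) := by fun_prop
  cases k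
  · exact (hZ.at hs hL b (some .L)).const_mul _
  · exact (hZ.at hs hT b (some .T)).const_mul _
  · exact (hZ.at hs hS b (some .S)).const_mul _
  · exact ((hZ.at hs hS b (some .S)).mul ((h3.mul h2).neg.mul ((hZ.at hs hV (!b) none).mul
      ((NUO.measurable_cz false true).comp (hV.sub hS))))).const_mul _
  · exact ((hZ.at hs hS b (some .S)).mul ((((hZ.at hs hS' (!b) none).mul_const _).pow_const
      2).const_mul _)).const_mul _

include hZ hP in
theorem measurable_wKZ : Measurable fun p : (Fin r → Xo) × S => wK (Z p.2) P p.1 := by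
  unfold wK
  refine Measurable.mul (Finset.measurable_prod _ fun i _ => ?_) ?_
  · refine measurable_config fun K => ?_
    have ht : Measurable fun y : (Fin r → ℝ × ℝ) × S => (y.1 i).1 :=
      measurable_fst.comp ((measurable_pi_apply i).comp measurable_fst)
    have ha : Measurable fun y : (Fin r → ℝ × ℝ) × S => (y.1 i).2 :=
      measurable_snd.comp ((measurable_pi_apply i).comp measurable_fst)
    exact measurable_obKZ hZ P.jL (ei P (fun i => (K i, ((0 : ℝ), (0 : ℝ)))) i) (K i)
      measurable_snd ht ha (hP.comp ht)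
  · exact (measurable_PU (fun i j (O : Fin r → Xo) => ppC (cons P O i) (cons P O j))
      fun i j => measurable_pairC hP i j).comp measurable_fst

end

section

variable {S : Type*} [MeasurableSpace S] {Z : S → Bool → Option O3 → ℂ → ℂ} (hZ : MZ Z)
  {P : NUO.Par} {r : ℕ} (hP : Measurable (P.rad r))
  {η η' : (Fin r → Xo) × S → ℝ → ℝ}
  (hη : Measurable fun p : ((Fin r → Xo) × S) × ℝ => η p.1 p.2)
  (hη' : Measurable fun p : ((Fin r → Xo) × S) × ℝ => η' p.1 p.2)

include hZ hP hη hη' in
theorem measurable_hqZ (s : Bool) :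
    Measurable fun p : ((Fin r → Xo) × S) × ℝ => hq (Z p.1.2) P p.1.1 s (η p.1) (η' p.1) p.2 := by
  have hpos : Measurable fun p : ((Fin r → Xo) × S) × ℝ => NUO.pA (η p.1) p.2 := by
    unfold NUO.pA vl
    fun_prop
  have h1 : Measurable fun p : ((Fin r → Xo) × S) × ℝ => (1 + dA (η' p.1) p.2 : ℂ) := by
    unfold dA
    fun_prop
  have h2 : Measurable fun p : ((Fin r → Xo) × S) × ℝ => (p.1.1, NUO.pA (η p.1) p.2) :=
    (measurable_fst.comp measurable_fst).prodMk hpos
  have h3 := (NUO.measurable_potC P hP s).comp h2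
  have h4 := hZ.at (measurable_snd.comp measurable_fst) hpos s none
  refine (congrArg Measurable (funext fun p => ?_)).mpr ((h1.const_mul (2 * Real.pi : ℂ)⁻¹).mul
    (h4.mul h3))
  rfl

include hZ hP hη hη' in
theorem measurable_gKZ (a b : ℕ) :
    Measurable fun p : ((Fin r → Xo) × S) × ((Fin a → ℝ) × (Fin b → ℝ)) =>
      gK (gF (Z p.1.2) P p.1.1) (η p.1) (η' p.1) a b p.2 := by
  have hpos : Measurable fun p : ((Fin r → Xo) × S) × ℝ => NUO.pA (η p.1) p.2 := by
    unfold NUO.pA vl
    fun_prop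
  have hel : ∀ i : Fin a ⊕ Fin b,
      Measurable fun p : ((Fin r → Xo) × S) × ((Fin a → ℝ) × (Fin b → ℝ)) =>
      ((p.1, Sum.elim p.2.1 p.2.2 i) : ((Fin r → Xo) × S) × ℝ) := by
    rintro (i | i)
    · exact measurable_fst.prodMk ((measurable_pi_apply i).comp (measurable_fst.comp measurable_snd))
    · exact measurable_fst.prodMk ((measurable_pi_apply i).comp (measurable_snd.comp measurable_snd))
  have hpi : ∀ i : Fin a ⊕ Fin b,
      Measurable fun p : ((Fin r → Xo) × S) × ((Fin a → ℝ) × (Fin b → ℝ)) =>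
      NUO.pA (η p.1) (Sum.elim p.2.1 p.2.2 i) := fun i => hpos.comp (hel i)
  have hh1 := measurable_hqZ hZ hP hη hη'
  have k1 : ∀ i : Fin a ⊕ Fin b,
      Measurable fun p : ((Fin r → Xo) × S) × ((Fin a → ℝ) × (Fin b → ℝ)) =>
      hq (Z p.1.2) P p.1.1 (sS a b i) (η p.1) (η' p.1) (Sum.elim p.2.1 p.2.2 i) := by
    intro i
    have h3 := (hh1 (sS a b i)).comp (hel i)
    refine (congrArg Measurable (funext fun p => ?_)).mpr h3
    rfl
  have k2 : ∀ i j : Fin a ⊕ Fin b,
      Measurable fun p : ((Fin r → Xo) × S) × ((Fin a → ℝ) × (Fin b → ℝ)) =>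
        PP (sS a b i) (sS a b j)
        (NUO.pA (η p.1) (Sum.elim p.2.1 p.2.2 i) - NUO.pA (η p.1) (Sum.elim p.2.1 p.2.2 j)) := by
    intro i j
    have h3 := (measurable_PP (sS a b i) (sS a b j)).comp ((hpi i).sub (hpi j))
    refine (congrArg Measurable (funext fun p => ?_)).mpr h3
    rfl
  have k3 := measurable_PU (fun i j (p : ((Fin r → Xo) × S) × ((Fin a → ℝ) × (Fin b → ℝ))) =>
      PP (sS a b i) (sS a b j)
        (NUO.pA (η p.1) (Sum.elim p.2.1 p.2.2 i) - NUO.pA (η p.1) (Sum.elim p.2.1 p.2.2 j))) k2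
  have k4 := Finset.measurable_prod (Finset.univ (α := Fin a ⊕ Fin b)) fun i _ => k1 i
  refine (congrArg Measurable (funext fun p => ?_)).mpr (k4.mul k3)
  rw [gK_eq]
  rfl

end

section terms

variable {S : Type*} [MeasurableSpace S] {Z : S → Bool → Option O3 → ℂ → ℂ} (hZ : MZ Z)
  {P : NUO.Par} (hP : ∀ r, Measurable (P.rad r)) {η η' : S → Crs}
  (hη : ∀ r, Measurable fun p : ((Fin r → Xo) × S) × ℝ => η p.1.2 r p.1.1 p.2)
  (hη' : ∀ r, Measurable fun p : ((Fin r → Xo) × S) × ℝ => η' p.1.2 r p.1.1 p.2)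
  {Ψ : S → Ins} (hΨ : ∀ r a b,
    Measurable fun p : ((Fin r → Xo) × S) × ((Fin a → ℝ) × (Fin b → ℝ)) =>
      Ψ p.1.2 r p.1.1 a b p.2) (n n' : ℕ)

include hZ hP hη hη' hΨ

theorem measurable_innerZ (r a b : ℕ) :
    Measurable fun p : ((Fin r → Xo) × S) × ((Fin a → ℝ) × (Fin b → ℝ)) =>
      gK (gF (Z p.1.2) P p.1.1) (η p.1.2 r p.1.1) (η' p.1.2 r p.1.1) a b p.2 *
        Ψ p.1.2 r p.1.1 a b p.2 :=
  (measurable_gKZ (η := fun q => η q.2 r q.1) (η' := fun q => η' q.2 r q.1) hZ (hP r) (hη r)
    (hη' r) a b).mul (hΨ r a b)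

theorem measurable_trmZ (r : ℕ) : Measurable fun p : (Fin r → Xo) × S =>
    trm (Z p.2) P n n' (η p.2) (η' p.2) (Ψ p.2) r p.1 := by
  refine measurable_config fun K => ?_
  have hK : Measurable fun x : (Fin r → ℝ × ℝ) × S =>
      ((fun i => (K i, x.1 i), x.2) : (Fin r → Xo) × S) := by
    refine Measurable.prodMk (measurable_pi_lambda _ fun i => ?_) measurable_snd
    exact measurable_const.prodMk ((measurable_pi_apply i).comp measurable_fst)
  have hW := (measurable_wKZ hZ (hP r)).comp hK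
  have hg := fun a b => (((measurable_innerZ hZ hP hη hη' hΨ r a
    b).stronglyMeasurable.integral_prod_right'
    (ν := (volume : Measure ((Fin a → ℝ) × (Fin b → ℝ))))).measurable).comp hK
  set q := chgO (fun i => (K i, ((0 : ℝ), (0 : ℝ)))) true with hq
  set q' := chgO (fun i => (K i, ((0 : ℝ), (0 : ℝ)))) false with hq'
  have e : (fun x : (Fin r → ℝ × ℝ) × S => trm (Z x.2) P n n' (η x.2) (η' x.2) (Ψ x.2) r
      fun i => (K i, x.1 i)) = fun x =>
      if q ≤ n ∧ q' ≤ n' then wK (Z x.2) P (fun i => (K i, x.1 i)) *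
        ((((n - q).factorial : ℂ) * (n' - q').factorial)⁻¹ *
        ∫ y : (Fin (n - q) → ℝ) × (Fin (n' - q') → ℝ),
          gK (gF (Z x.2) P fun i => (K i, x.1 i)) (η x.2 r fun i => (K i, x.1 i))
            (η' x.2 r fun i => (K i, x.1 i)) (n - q) (n' - q') y *
              Ψ x.2 r (fun i => (K i, x.1 i)) (n - q) (n' - q') y) else 0 := rfl
  show Measurable fun x : (Fin r → ℝ × ℝ) × S => trm (Z x.2) P n n' (η x.2) (η' x.2) (Ψ x.2) r
    fun i => (K i, x.1 i)
  rw [e]
  by_cases h : q ≤ n ∧ q' ≤ n'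
  · simp only [if_pos h]
    exact hW.mul ((hg _ _).const_mul _)
  · simp only [if_neg h]
    exact measurable_const

theorem measurable_trAZ (r : ℕ) : Measurable fun p : (Fin r → Xo) × S =>
    trA (Z p.2) P n n' (η p.2) (η' p.2) (Ψ p.2) r p.1 := by
  refine measurable_config fun K => ?_
  have hK : Measurable fun x : (Fin r → ℝ × ℝ) × S =>
      ((fun i => (K i, x.1 i), x.2) : (Fin r → Xo) × S) := by
    refine Measurable.prodMk (measurable_pi_lambda _ fun i => ?_) measurable_snd
    exact measurable_const.prodMk ((measurable_pi_apply i).comp measurable_fst)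
  have hW := (measurable_wKZ hZ (hP r)).enorm.comp hK
  have hi : ∀ a b, Measurable fun p : ((Fin r → Xo) × S) × ((Fin a → ℝ) × (Fin b → ℝ)) =>
      ‖gK (gF (Z p.1.2) P p.1.1) (η p.1.2 r p.1.1) (η' p.1.2 r p.1.1) a b p.2‖ₑ *
        ‖Ψ p.1.2 r p.1.1 a b p.2‖ₑ := by
    intro a b
    refine (congrArg Measurable (funext fun p => ?_)).mpr
      (measurable_innerZ hZ hP hη hη' hΨ r a b).enorm
    exact (enorm_mul _ _).symm
  have hg := fun a b => (Measurable.lintegral_prod_right'
    (ν := (volume : Measure ((Fin a → ℝ) × (Fin b → ℝ)))) (hi a b)).comp hK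
  set q := chgO (fun i => (K i, ((0 : ℝ), (0 : ℝ)))) true with hq
  set q' := chgO (fun i => (K i, ((0 : ℝ), (0 : ℝ)))) false with hq'
  have e : (fun x : (Fin r → ℝ × ℝ) × S => trA (Z x.2) P n n' (η x.2) (η' x.2) (Ψ x.2) r
      fun i => (K i, x.1 i)) = fun x =>
      if q ≤ n ∧ q' ≤ n' then ‖wK (Z x.2) P (fun i => (K i, x.1 i))‖ₑ *
        ((((n - q).factorial : ℝ≥0∞) * (n' - q').factorial)⁻¹ *
        ∫⁻ y : (Fin (n - q) → ℝ) × (Fin (n' - q') → ℝ),
          ‖gK (gF (Z x.2) P fun i => (K i, x.1 i)) (η x.2 r fun i => (K i, x.1 i))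
            (η' x.2 r fun i => (K i, x.1 i)) (n - q) (n' - q') y‖ₑ *
              ‖Ψ x.2 r (fun i => (K i, x.1 i)) (n - q) (n' - q') y‖ₑ) else 0 := rfl
  show Measurable fun x : (Fin r → ℝ × ℝ) × S => trA (Z x.2) P n n' (η x.2) (η' x.2) (Ψ x.2) r
    fun i => (K i, x.1 i)
  rw [e]
  by_cases h : q ≤ n ∧ q' ≤ n'
  · simp only [if_pos h]
    exact hW.mul ((hg _ _).const_mul _)
  · simp only [if_neg h]
    exact measurable_const

/-- **the functional is measurable in a parameter of the one body functions** -/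
theorem measurable_FFZ : Measurable fun s : S => FF (Z s) P n n' (η s) (η' s) (Ψ s) := by
  unfold FF
  refine Finset.measurable_sum _ fun r _ => Measurable.const_mul ?_ _
  exact ((measurable_trmZ hZ hP hη hη' hΨ n n' r).stronglyMeasurable.integral_prod_left'
    (μ := Measure.pi fun _ : Fin r => nu)).measurable

theorem measurable_FAZ : Measurable fun s : S => FA (Z s) P n n' (η s) (η' s) (Ψ s) := by
  unfold FA
  refine Finset.measurable_sum _ fun r _ => Measurable.const_mul ?_ _
  exact Measurable.lintegral_prod_left' (μ := Measure.pi fun _ : Fin r => nu)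
    (measurable_trAZ hZ hP hη hη' hΨ n n' r)

end terms

section inst

variable {S : Type*} [MeasurableSpace S]

/-- one family, no parameter -/
theorem MZ.const {Z : Bool → Option O3 → ℂ → ℂ} (h : ∀ b k, Measurable (Z b k)) :
    MZ fun _ : S => Z := fun b k => (h b k).comp measurable_snd

/-- **spectators with a parameter** -/
theorem MZ.spX {Z : S → Bool → Option O3 → ℂ → ℂ} (hZ : MZ Z) {s1 s2 : S → Bool → ℂ → ℂ}
    (h1 : ∀ b, Measurable fun p : S × ℂ => s1 p.1 b p.2)
    (h2 : ∀ b, Measurable fun p : S × ℂ => s2 p.1 b p.2) :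
    MZ fun s b => PBR.spX (Z s b) (s1 s b) (s2 s b) := by
  intro b k
  rcases k with _ | (_ | _ | _)
  · exact (hZ b none).mul (h1 b)
  · exact (hZ b (some .L)).mul (h1 b)
  · exact (hZ b (some .S)).mul (h2 b)
  · exact (hZ b (some .T)).mul (h2 b)

/-- **rows, ends, cutoffs fixed, spectators with a parameter** -/
theorem MZ.XX {m : ℕ} {c : Bool → ℂ} {β : ℝ} {x y : Bool → Fin m → ℂ} {g g0 : Bool → ℂ → ℂ}
    (hg : ∀ b, Measurable (g b)) (hg0 : ∀ b, Measurable (g0 b)) {s1 s2 : S → Bool → ℂ → ℂ}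
    (h1 : ∀ b, Measurable fun p : S × ℂ => s1 p.1 b p.2)
    (h2 : ∀ b, Measurable fun p : S × ℂ => s2 p.1 b p.2) :
    MZ fun s b => PBX.XX (c b) β (x b) (y b) (g b) (g0 b) (s1 s b) (s2 s b) := by
  have h0 : MZ fun (_ : S) b => PBX.XX (c b) β (x b) (y b) (g b) (g0 b) (fun _ => 1) fun _ => 1 :=
    MZ.const fun b k => PBX.measurable_XX (hg b) (hg0 b) measurable_const measurable_const k
  have h := h0.spX h1 h2
  have e : (fun (s : S) b => PBR.spX (PBX.XX (c b) β (x b) (y b) (g b) (g0 b) (fun _ => 1)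
      fun _ => 1) (s1 s b) (s2 s b)) =
      fun s b => PBX.XX (c b) β (x b) (y b) (g b) (g0 b) (s1 s b) (s2 s b) := by
    funext s b k u
    rcases k with _ | (_ | _ | _) <;> simp only [PBR.spX, PBX.XX, mul_one]
  rw [← e]
  exact h

variable {P : NUO.Par} (hP : ∀ r, Measurable (P.rad r)) {η η' : Crs} (hc : MCr η η') (n n' : ℕ)

include hP hc in
/-- fixed curves, no insertion -/
theorem measurable_FF_one {Z : S → Bool → Option O3 → ℂ → ℂ} (hZ : MZ Z) :
    Measurable fun s : S => FF (Z s) P n n' η η' fun _ _ _ _ _ => 1 :=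
  measurable_FFZ (η := fun _ => η) (η' := fun _ => η') (Ψ := fun _ _ _ _ _ _ => 1) hZ hP
    (fun r => (hc.m r).comp ((measurable_fst.comp measurable_fst).prodMk measurable_snd))
    (fun r => (hc.m' r).comp ((measurable_fst.comp measurable_fst).prodMk measurable_snd))
    (fun _ _ _ => measurable_const) n n'

include hP hc in
theorem measurable_FA_one {Z : S → Bool → Option O3 → ℂ → ℂ} (hZ : MZ Z) :
    Measurable fun s : S => FA (Z s) P n n' η η' fun _ _ _ _ _ => 1 :=
  measurable_FAZ (η := fun _ => η) (η' := fun _ => η') (Ψ := fun _ _ _ _ _ _ => 1) hZ hP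
    (fun r => (hc.m r).comp ((measurable_fst.comp measurable_fst).prodMk measurable_snd))
    (fun r => (hc.m' r).comp ((measurable_fst.comp measurable_fst).prodMk measurable_snd))
    (fun _ _ _ => measurable_const) n n'

end inst

/-! ## the class `W1 W1'` -/

section reg

open PBX NURow
open NUP1.Leg (Ck Dk)

/-- the spectator of a quantum of species `b` in the class `W1 W1'` -/
def sWW (b : Bool) (w w' u : ℂ) : ℂ :=
  if b then Ck (w - u) * Dk (w' - u) else Dk (w - u) * Ck (w' - u)

/-- the spectator of a string of species `b` in the class `W1 W1'` -/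
def tWW (b : Bool) (w w' u : ℂ) : ℂ :=
  if b then CC (w - u) * DD (w' - u) else DD (w - u) * CC (w' - u)

/-- **the one body functions of the class `W1 W1'`** -/
def ZWW {m : ℕ} (D : RD m) (w w' : ℂ) (b : Bool) : Option O3 → ℂ → ℂ :=
  if b then D.Xs (sWW true w w') (tWW true w w') else D.Ys (sWW false w w') (tWW false w w')

theorem measurable_sWW (b : Bool) {w w' : ℝ × ℝ → ℂ} (hw : Measurable w) (hw' : Measurable w') :
    Measurable fun p : (ℝ × ℝ) × ℂ => sWW b (w p.1) (w' p.1) p.2 := by
  have a1 : Measurable fun p : (ℝ × ℝ) × ℂ => w p.1 - p.2 :=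
    (hw.comp measurable_fst).sub measurable_snd
  have a2 : Measurable fun p : (ℝ × ℝ) × ℂ => w' p.1 - p.2 :=
    (hw'.comp measurable_fst).sub measurable_snd
  cases b
  · exact (measurable_Dk.comp a1).mul (measurable_Ck.comp a2)
  · exact (measurable_Ck.comp a1).mul (measurable_Dk.comp a2)

theorem measurable_tWW (b : Bool) {w w' : ℝ × ℝ → ℂ} (hw : Measurable w) (hw' : Measurable w') :
    Measurable fun p : (ℝ × ℝ) × ℂ => tWW b (w p.1) (w' p.1) p.2 := by
  have a1 : Measurable fun p : (ℝ × ℝ) × ℂ => w p.1 - p.2 :=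
    (hw.comp measurable_fst).sub measurable_snd
  have a2 : Measurable fun p : (ℝ × ℝ) × ℂ => w' p.1 - p.2 :=
    (hw'.comp measurable_fst).sub measurable_snd
  cases b
  · exact (measurable_DD.comp a1).mul (measurable_CC.comp a2)
  · exact (measurable_CC.comp a1).mul (measurable_DD.comp a2)

theorem MZ_ZWW {m : ℕ} {D : RD m} (H : D.Ok) {w w' : ℝ × ℝ → ℂ} (hw : Measurable w)
    (hw' : Measurable w') : MZ fun τ : ℝ × ℝ => ZWW D (w τ) (w' τ) := by
  have h := MZ.XX (S := ℝ × ℝ) (c := fun b => if b then D.c else D.c') (β := D.β)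
    (x := fun b => if b then D.x else D.y) (y := fun b => if b then D.y else D.x)
    (g := fun b => if b then D.g else D.g') (g0 := fun b => if b then D.g0 else D.g0')
    (s1 := fun τ b u => (if b then Leg.thE D.p D.p D.q D.q u else Leg.thE D.q D.q D.p D.p u) *
      sWW b (w τ) (w' τ) u)
    (s2 := fun τ b u => (if b then thS D.p D.p D.q D.q u else thS D.q D.q D.p D.p u) *
      tWW b (w τ) (w' τ) u)
    (fun b => by cases b; exacts [H.gg'.meas, H.gg.meas])
    (fun b => by cases b; exacts [H.gg0'.meas, H.gg0.meas])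
    (fun b => by
      refine Measurable.mul ?_ (measurable_sWW b hw hw')
      cases b
      · exact (measurable_thE _ _ _ _).comp measurable_snd
      · exact (measurable_thE _ _ _ _).comp measurable_snd)
    (fun b => by
      refine Measurable.mul ?_ (measurable_tWW b hw hw')
      cases b
      · exact (measurable_thS _ _ _ _).comp measurable_snd
      · exact (measurable_thS _ _ _ _).comp measurable_snd)
  intro b k
  have hb := h b k
  cases b
  · exact hb
  · exact hb

/-- **The class `W1 W1'` is measurable in the heights.** -/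
theorem measurable_FF_WW {m : ℕ} {D : RD m} (H : D.Ok) {w w' : ℝ × ℝ → ℂ} (hw : Measurable w)
    (hw' : Measurable w') {P : NUO.Par} (hP : ∀ r, Measurable (P.rad r)) {η η' : Crs}
    (hc : MCr η η') (n n' : ℕ) :
    Measurable fun τ : ℝ × ℝ => FF (ZWW D (w τ) (w' τ)) P n n' η η' fun _ _ _ _ _ => 1 :=
  measurable_FF_one hP hc n n' (MZ_ZWW H hw hw')

theorem measurable_Lg {Y : Type*} [MeasurableSpace Y] {z u : Y → ℂ} (hz : Measurable z)
    (hu : Measurable u) : Measurable fun y => Lg (z y) (z y) (u y) := by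
  unfold Lg
  have h1 : Measurable fun y => z y - u y := hz.sub hu
  have h2 : Measurable fun y => z y - u y - 3 * l := h1.sub_const _
  have h3 : Measurable fun y => z y - u y + 2 * l := h1.add_const _
  exact (Complex.measurable_sin.comp h2).div (Complex.measurable_sin.comp h3)

/-- one body functions with legs at `z` -/
def ZLg {m : ℕ} (c : Bool → ℂ) (β : ℝ) (x y : Bool → Fin m → ℂ) (g g0 : Bool → ℂ → ℂ) (z : ℂ)
    (b : Bool) : Option O3 → ℂ → ℂ :=
  PBX.XX (c b) β (x b) (y b) (g b) (g0 b) (Lg z z) fun v => Lg z z v * Lg z z (v - l)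

/-- legs whose position depends on a parameter -/
theorem MZ_leg {m : ℕ} {S : Type*} [MeasurableSpace S] (c : Bool → ℂ) (β : ℝ)
    (x y : Bool → Fin m → ℂ) {g g0 : Bool → ℂ → ℂ} (hg : ∀ b, Measurable (g b))
    (hg0 : ∀ b, Measurable (g0 b)) {z : S → ℂ} (hz : Measurable z) :
    MZ fun s : S => ZLg c β x y g g0 (z s) := by
  have hz' : Measurable fun p : S × ℂ => z p.1 := hz.comp measurable_fst
  have hL : Measurable fun p : S × ℂ => Lg (z p.1) (z p.1) p.2 := measurable_Lg hz' measurable_snd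
  have hs : Measurable fun p : S × ℂ => p.2 - (l : ℂ) := measurable_snd.sub_const _
  have hL' : Measurable fun p : S × ℂ => Lg (z p.1) (z p.1) (p.2 - l) := measurable_Lg hz' hs
  have h2 : Measurable fun p : S × ℂ =>
      Lg (z p.1) (z p.1) p.2 * Lg (z p.1) (z p.1) (p.2 - l) := hL.mul hL'
  have h := MZ.XX (c := c) (β := β) (x := x) (y := y) (s1 := fun (s : S) _ => Lg (z s) (z s))
    (s2 := fun (s : S) _ v => Lg (z s) (z s) v * Lg (z s) (z s) (v - l)) hg hg0 (fun _ => hL)
    (fun _ => h2)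
  exact h

end reg

end PBF
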