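import Mathlib

/-!
# Plan B: moments of statistics from exponential squares

`hq q u = (log (e^q + u))^q` is concave on `[0, ∞)`; hence (Jensen) `∫ |X|^{2q} dμ` is at most
`M (log (e^q + A/M) / c)^q` if `∫ exp(c X²) dμ ≤ A` and `μ univ ≤ M`.  `mom_prod`: the same for
products of `r` statistics, by Hölder.
-/

set_option autoImplicit false

open MeasureTheory Set Filter Topology
open scoped ENNReal

namespace PBM

noncomputable section

/-- the concave majorant -/
def hq (q u : ℝ) : ℝ := (Real.log (Real.exp q + u)) ^ q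

lemma arg_pos (q : ℝ) {u : ℝ} (hu : 0 ≤ u) : 0 < Real.exp q + u := by
  have := Real.exp_pos q
  linarith

lemma le_log {q u : ℝ} (hu : 0 ≤ u) : q ≤ Real.log (Real.exp q + u) := by
  have h := Real.log_le_log (Real.exp_pos q) (show Real.exp q ≤ Real.exp q + u by linarith)
  rwa [Real.log_exp] at h

lemma hq_hasDeriv {q u : ℝ} (hq1 : 1 ≤ q) (hu : 0 ≤ u) :
    HasDerivAt (hq q) (q * (Real.log (Real.exp q + u)) ^ (q - 1) / (Real.exp q + u)) u := by
  have h0 := arg_pos q hu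
  have h1 : 0 < Real.log (Real.exp q + u) := lt_of_lt_of_le (by linarith) (le_log (q := q) hu)
  have h2 : HasDerivAt (fun u : ℝ => Real.exp q + u) 1 u := by
    simpa using (hasDerivAt_id u).const_add (Real.exp q)
  have h3 : HasDerivAt (fun u : ℝ => Real.log (Real.exp q + u)) (1 / (Real.exp q + u)) u :=
    h2.log h0.ne'
  have h4 := h3.rpow_const (p := q) (Or.inl h1.ne')
  exact h4.congr_deriv (by ring)

/-- `hq` is concave on `[0, ∞)` -/
theorem hq_concave {q : ℝ} (hq1 : 1 ≤ q) : ConcaveOn ℝ (Ici 0) (hq q) := by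
  refine AntitoneOn.concaveOn_of_deriv (convex_Ici 0) ?_ ?_ ?_
  · intro u hu
    exact (hq_hasDeriv hq1 hu).continuousAt.continuousWithinAt
  · intro u hu
    rw [interior_Ici] at hu
    exact (hq_hasDeriv hq1 (le_of_lt hu)).differentiableAt.differentiableWithinAt
  · rw [interior_Ici]
    intro u hu v hv huv
    rw [(hq_hasDeriv hq1 (le_of_lt hu)).deriv, (hq_hasDeriv hq1 (le_of_lt hv)).deriv]
    have hu0 : 0 ≤ u := le_of_lt hu
    have hv0 : 0 ≤ v := le_of_lt hv
    set a := Real.log (Real.exp q + u) with ha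
    set b := Real.log (Real.exp q + v) with hb
    have haq : q ≤ a := le_log hu0
    have hab : a ≤ b := Real.log_le_log (arg_pos q hu0) (by linarith)
    have ea : Real.exp q + u = Real.exp a := (Real.exp_log (arg_pos q hu0)).symm
    have eb : Real.exp q + v = Real.exp b := (Real.exp_log (arg_pos q hv0)).symm
    rw [ea, eb]
    have ha0 : 0 < a := by linarith
    have hb0 : 0 < b := by linarith
    have key : b ^ (q - 1) * Real.exp (-b) ≤ a ^ (q - 1) * Real.exp (-a) := by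
      rw [Real.rpow_def_of_pos ha0, Real.rpow_def_of_pos hb0, ← Real.exp_add, ← Real.exp_add,
        Real.exp_le_exp]
      have h1 : Real.log b - Real.log a ≤ (b - a) / a := by
        rw [← Real.log_div hb0.ne' ha0.ne']
        have := Real.log_le_sub_one_of_pos (div_pos hb0 ha0)
        have e : (b - a) / a = b / a - 1 := by field_simp
        linarith
      have h2 : (b - a) / a * (q - 1) ≤ b - a := by
        rw [div_mul_eq_mul_div, div_le_iff₀ ha0]
        nlinarith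
      have h3 : (Real.log b - Real.log a) * (q - 1) ≤ (b - a) / a * (q - 1) :=
        mul_le_mul_of_nonneg_right h1 (by linarith)
      nlinarith
    have e1 : q * b ^ (q - 1) / Real.exp b = q * (b ^ (q - 1) * Real.exp (-b)) := by
      rw [Real.exp_neg]; field_simp
    have e2 : q * a ^ (q - 1) / Real.exp a = q * (a ^ (q - 1) * Real.exp (-a)) := by
      rw [Real.exp_neg]; field_simp
    rw [e1, e2]
    exact mul_le_mul_of_nonneg_left key (by linarith)

lemma hq_nonneg {q u : ℝ} (hq1 : 1 ≤ q) (hu : 0 ≤ u) : 0 ≤ hq q u :=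
  Real.rpow_nonneg (by have := le_log (q := q) hu; linarith) _

/-- `x^q ≤ hq q (e^x)` for `x ≥ 0` -/
lemma pow_le_hq {q x : ℝ} (hq1 : 1 ≤ q) (hx : 0 ≤ x) : x ^ q ≤ hq q (Real.exp x) := by
  unfold hq
  refine Real.rpow_le_rpow hx ?_ (by linarith)
  have h := Real.log_le_log (Real.exp_pos x) (show Real.exp x ≤ Real.exp q + Real.exp x by
    have := Real.exp_pos q
    linarith)
  rwa [Real.log_exp] at h

lemma hq_mono {q u v : ℝ} (hq1 : 1 ≤ q) (hu : 0 ≤ u) (huv : u ≤ v) : hq q u ≤ hq q v := by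
  unfold hq
  refine Real.rpow_le_rpow ?_ ?_ (by linarith)
  · have := le_log (q := q) hu
    linarith
  · exact Real.log_le_log (arg_pos q hu) (by linarith)

/-- the perspective `M hq(A/M)` is monotone in `M` -/
lemma persp_mono {q A M M' : ℝ} (hq1 : 1 ≤ q) (hA : 0 ≤ A) (hM : 0 < M) (hMM : M ≤ M') :
    M * hq q (A / M) ≤ M' * hq q (A / M') := by
  have hM' : 0 < M' := lt_of_lt_of_le hM hMM
  have hb0 : 0 ≤ 1 - M / M' := by rw [sub_nonneg, div_le_one hM']; exact hMM
  have hc := (hq_concave hq1).2 (show A / M ∈ Ici (0 : ℝ) from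
    div_nonneg hA hM.le) (mem_Ici.2 (le_refl (0 : ℝ)))
    (div_nonneg hM.le hM'.le) hb0 (by ring)
  simp only [smul_eq_mul, mul_zero, add_zero] at hc
  have e : M / M' * (A / M) = A / M' := by field_simp
  rw [e] at hc
  have h0 : 0 ≤ hq q 0 := hq_nonneg hq1 le_rfl
  have h1 : 0 ≤ (1 - M / M') * hq q 0 :=
    mul_nonneg (by rw [sub_nonneg, div_le_one hM']; exact hMM) h0
  have h2 : M / M' * hq q (A / M) ≤ hq q (A / M') := by linarith
  have h3 := mul_le_mul_of_nonneg_left h2 hM'.le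
  have e2 : M' * (M / M' * hq q (A / M)) = M * hq q (A / M) := by field_simp
  linarith

variable {Ω : Type*} [MeasurableSpace Ω] {μ : Measure Ω}

/-- **Moments from exponential squares** -/
theorem mom_one {X : Ω → ℝ} (hX : AEMeasurable X μ) {q c A M : ℝ} (hq1 : 1 ≤ q) (hc : 0 < c)
    (hA : 0 ≤ A) (hM : 0 < M) (hμ : μ univ ≤ ENNReal.ofReal M)
    (h : ∫⁻ ω, ENNReal.ofReal (Real.exp (c * X ω ^ 2)) ∂μ ≤ ENNReal.ofReal A) :
    ∫⁻ ω, ENNReal.ofReal ((X ω ^ 2) ^ q) ∂μ ≤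
      ENNReal.ofReal (M * (Real.log (Real.exp q + A / M) / c) ^ q) := by
  haveI : IsFiniteMeasure μ := ⟨lt_of_le_of_lt hμ ENNReal.ofReal_lt_top⟩
  by_cases h0 : μ = 0
  · rw [h0]; simp
  have hμ0 : μ univ ≠ 0 := by
    intro h1
    exact h0 (Measure.measure_univ_eq_zero.1 h1)
  set m : ℝ := (μ univ).toReal with hm
  have hm0 : 0 < m := ENNReal.toReal_pos hμ0 (measure_ne_top μ _)
  have hmM : m ≤ M := by
    have := ENNReal.toReal_mono ENNReal.ofReal_ne_top hμ
    rwa [ENNReal.toReal_ofReal hM.le] at this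
  have hEm : AEMeasurable (fun ω => Real.exp (c * X ω ^ 2)) μ :=
    (Real.measurable_exp.comp_aemeasurable ((hX.pow_const 2).const_mul c))
  have hEi : Integrable (fun ω => Real.exp (c * X ω ^ 2)) μ := by
    refine ⟨hEm.aestronglyMeasurable, ?_⟩
    rw [hasFiniteIntegral_iff_norm]
    refine lt_of_le_of_lt (le_of_eq ?_) (lt_of_le_of_lt h ENNReal.ofReal_lt_top)
    refine lintegral_congr fun ω => ?_
    rw [Real.norm_of_nonneg (Real.exp_pos _).le]
  have hEA : ∫ ω, Real.exp (c * X ω ^ 2) ∂μ ≤ A := by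
    rw [integral_eq_lintegral_of_nonneg_ae (ae_of_all _ fun ω => (Real.exp_pos _).le)
      hEm.aestronglyMeasurable]
    exact ENNReal.toReal_le_of_le_ofReal hA h
  have hcq := hq_concave hq1
  have hcont : ContinuousOn (hq q) (Ici 0) := by
    intro u hu
    exact (hq_hasDeriv hq1 hu).continuousAt.continuousWithinAt
  -- integrability of `hq (exp ..)`
  have hlin : ∀ u : ℝ, 0 ≤ u → hq q u ≤ hq q 0 + (q * (Real.log (Real.exp q + 0)) ^ (q - 1) /
      (Real.exp q + 0)) * u := by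
    intro u hu
    rcases eq_or_lt_of_le hu with h1 | h1
    · rw [← h1]; simp
    have h2 := hcq.slope_le_of_hasDerivAt (x := 0) (y := u) (by simp) (by simpa using hu) h1
      (hq_hasDeriv hq1 le_rfl)
    rw [slope_def_field, sub_zero, div_le_iff₀ h1] at h2
    linarith
  have hhm : AEStronglyMeasurable (fun ω => hq q (Real.exp (c * X ω ^ 2))) μ := by
    have h1 : Measurable fun u : ℝ => hq q u := by
      unfold hq
      exact (Real.measurable_log.comp (measurable_const.add measurable_id)).pow_const q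
    exact (h1.comp_aemeasurable hEm).aestronglyMeasurable
  have hhi : Integrable (fun ω => hq q (Real.exp (c * X ω ^ 2))) μ := by
    refine Integrable.mono' ((integrable_const (hq q 0)).add (hEi.const_mul
      (q * (Real.log (Real.exp q + 0)) ^ (q - 1) / (Real.exp q + 0)))) hhm
      (ae_of_all _ fun ω => ?_)
    rw [Real.norm_of_nonneg (hq_nonneg hq1 (Real.exp_pos _).le)]
    exact hlin _ (Real.exp_pos _).le
  haveI : NeZero μ := ⟨h0⟩
  have hJ := hcq.le_map_average (μ := μ) hcont isClosed_Ici (f := fun ω => Real.exp (c * X ω ^ 2))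
    (ae_of_all _ fun ω => (Real.exp_pos _).le) hEi hhi
  rw [average_eq, average_eq, smul_eq_mul, smul_eq_mul] at hJ
  have hmr : μ.real univ = m := rfl
  rw [hmr] at hJ
  have hJ2 : ∫ ω, hq q (Real.exp (c * X ω ^ 2)) ∂μ ≤ m * hq q (A / m) := by
    have h1 : hq q (m⁻¹ * ∫ ω, Real.exp (c * X ω ^ 2) ∂μ) ≤ hq q (A / m) := by
      refine hq_mono hq1 ?_ ?_
      · exact mul_nonneg (inv_nonneg.2 hm0.le) (integral_nonneg fun ω => (Real.exp_pos _).le)
      · rw [div_eq_inv_mul]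
        exact mul_le_mul_of_nonneg_left hEA (inv_nonneg.2 hm0.le)
    have h2 : m⁻¹ * ∫ ω, hq q (Real.exp (c * X ω ^ 2)) ∂μ ≤ hq q (A / m) := le_trans hJ h1
    rw [inv_mul_le_iff₀ hm0] at h2
    exact h2
  have hJ3 : ∫ ω, hq q (Real.exp (c * X ω ^ 2)) ∂μ ≤ M * hq q (A / M) :=
    le_trans hJ2 (persp_mono hq1 hA hm0 hmM)
  have hX2 : ∀ ω, (X ω ^ 2) ^ q ≤ c ^ (-q) * hq q (Real.exp (c * X ω ^ 2)) := by
    intro ω
    have h1 := pow_le_hq hq1 (show 0 ≤ c * X ω ^ 2 by positivity)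
    rw [Real.mul_rpow hc.le (by positivity)] at h1
    have h2 := mul_le_mul_of_nonneg_left h1 (Real.rpow_nonneg hc.le (-q))
    rwa [← mul_assoc, ← Real.rpow_add hc, neg_add_cancel, Real.rpow_zero, one_mul] at h2
  calc ∫⁻ ω, ENNReal.ofReal ((X ω ^ 2) ^ q) ∂μ
      ≤ ∫⁻ ω, ENNReal.ofReal (c ^ (-q) * hq q (Real.exp (c * X ω ^ 2))) ∂μ :=
        lintegral_mono fun ω => ENNReal.ofReal_le_ofReal (hX2 ω)
    _ = ENNReal.ofReal (∫ ω, c ^ (-q) * hq q (Real.exp (c * X ω ^ 2)) ∂μ) := by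
        rw [ofReal_integral_eq_lintegral_ofReal (hhi.const_mul _)]
        exact ae_of_all _ fun ω => mul_nonneg (Real.rpow_nonneg hc.le _)
          (hq_nonneg hq1 (Real.exp_pos _).le)
    _ ≤ _ := by
        refine ENNReal.ofReal_le_ofReal ?_
        rw [integral_const_mul]
        have h1 := mul_le_mul_of_nonneg_left hJ3 (Real.rpow_nonneg hc.le (-q))
        refine le_trans h1 (le_of_eq ?_)
        unfold hq
        have hl : 0 ≤ Real.log (Real.exp q + A / M) := by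
          have := le_log (q := q) (u := A / M) (div_nonneg hA hM.le)
          linarith
        rw [Real.div_rpow hl hc.le, Real.rpow_neg hc.le]
        field_simp

/-- **Moments of products**: `r` statistics with exponential squares, `r ≤ 2q` -/
theorem mom_prod {ι : Type*} (s : Finset ι) {X : ι → Ω → ℝ}
    (hX : ∀ i ∈ s, AEMeasurable (X i) μ) {q A M : ℝ} {c : ι → ℝ} (hq1 : 1 ≤ q)
    (hs : (s.card : ℝ) ≤ 2 * q) (hc : ∀ i ∈ s, 0 < c i)
    (hA : 0 ≤ A) (hM : 0 < M) (hμ : μ univ ≤ ENNReal.ofReal M)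
    (h : ∀ i ∈ s, ∫⁻ ω, ENNReal.ofReal (Real.exp (c i * X i ω ^ 2)) ∂μ ≤ ENNReal.ofReal A) :
    ∫⁻ ω, ∏ i ∈ s, ENNReal.ofReal |X i ω| ∂μ ≤
      ENNReal.ofReal (M * ∏ i ∈ s, Real.sqrt (Real.log (Real.exp q + A / M) / c i)) := by
  have hq0 : 0 < 2 * q := by linarith
  set L : ℝ := Real.log (Real.exp q + A / M) with hL
  have hL0 : 0 ≤ L := by
    have := le_log (q := q) (u := A / M) (div_nonneg hA hM.le)
    linarith
  have e1 : ∀ (i : ι) (ω : Ω), ENNReal.ofReal |X i ω| =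
      (ENNReal.ofReal ((X i ω ^ 2) ^ q)) ^ (1 / (2 * q)) := by
    intro i ω
    rw [ENNReal.ofReal_rpow_of_nonneg (Real.rpow_nonneg (sq_nonneg _) _) (by positivity),
      ← Real.rpow_mul (sq_nonneg _), ← sq_abs, ← Real.rpow_natCast, ← Real.rpow_mul (abs_nonneg _)]
    congr 1
    have e : ((2 : ℕ) : ℝ) * (q * (1 / (2 * q))) = 1 := by
      push_cast
      field_simp
    rw [e, Real.rpow_one]
  have h1 := ENNReal.lintegral_mul_prod_norm_pow_le (μ := μ) s (g := fun _ => 1)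
    (f := fun i ω => ENNReal.ofReal ((X i ω ^ 2) ^ q)) aemeasurable_const
    (fun i hi => (((hX i hi).pow_const 2).pow_const q).ennreal_ofReal)
    (1 - (s.card : ℝ) * (1 / (2 * q))) (p := fun _ => 1 / (2 * q))
    (by rw [Finset.sum_const, nsmul_eq_mul]; ring)
    (by rw [sub_nonneg, mul_one_div, div_le_one hq0]; exact hs)
    (fun i _ => by positivity)
  have e2 : ∫⁻ ω, ∏ i ∈ s, ENNReal.ofReal |X i ω| ∂μ =
      ∫⁻ ω, (1 : ℝ≥0∞) ^ (1 - (s.card : ℝ) * (1 / (2 * q))) *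
        ∏ i ∈ s, (ENNReal.ofReal ((X i ω ^ 2) ^ q)) ^ (1 / (2 * q)) ∂μ := by
    refine lintegral_congr fun ω => ?_
    rw [ENNReal.one_rpow, one_mul]
    exact Finset.prod_congr rfl fun i _ => e1 i ω
  rw [e2]
  refine le_trans h1 ?_
  have h2 : ∀ i ∈ s, (∫⁻ ω, ENNReal.ofReal ((X i ω ^ 2) ^ q) ∂μ) ^ (1 / (2 * q)) ≤
      ENNReal.ofReal (M ^ (1 / (2 * q)) * Real.sqrt (L / c i)) := by
    intro i hi
    have h3 := mom_one (hX i hi) hq1 (hc i hi) hA hM hμ (h i hi)
    have h4 := ENNReal.rpow_le_rpow h3 (show 0 ≤ 1 / (2 * q) by positivity)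
    refine le_trans h4 (le_of_eq ?_)
    have hLc : 0 ≤ L / c i := div_nonneg hL0 (hc i hi).le
    rw [ENNReal.ofReal_rpow_of_nonneg (mul_nonneg hM.le (Real.rpow_nonneg hLc _)) (by positivity),
      Real.mul_rpow hM.le (Real.rpow_nonneg hLc _), ← Real.rpow_mul hLc, Real.sqrt_eq_rpow]
    congr 3
    field_simp
  have h5 : (∫⁻ _ω, (1 : ℝ≥0∞) ∂μ) ^ (1 - (s.card : ℝ) * (1 / (2 * q))) ≤
      ENNReal.ofReal (M ^ (1 - (s.card : ℝ) * (1 / (2 * q)))) := by
    rw [lintegral_one, ← ENNReal.ofReal_rpow_of_pos hM]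
    exact ENNReal.rpow_le_rpow hμ (by rw [sub_nonneg, mul_one_div, div_le_one hq0]; exact hs)
  refine le_trans (mul_le_mul' h5 (Finset.prod_le_prod' h2)) (le_of_eq ?_)
  rw [← ENNReal.ofReal_prod_of_nonneg fun i _ => mul_nonneg (Real.rpow_nonneg hM.le _)
    (Real.sqrt_nonneg _), ← ENNReal.ofReal_mul (Real.rpow_nonneg hM.le _), Finset.prod_mul_distrib,
    Finset.prod_const, ← mul_assoc, ← Real.rpow_natCast, ← Real.rpow_mul hM.le,
    ← Real.rpow_add hM]
  congr 2
  have e : 1 - (s.card : ℝ) * (1 / (2 * q)) + 1 / (2 * q) * (s.card : ℝ) = 1 := by ring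
  rw [e, Real.rpow_one]

/-- **Moments of kernels**: a superposition `∫ w(a) ∏ X_k(a, ω) dλ(a)` of products of statistics -/
theorem mom_ker {ι I : Type*} [MeasurableSpace I] {lam : Measure I} [SFinite lam] (s : Finset ι)
    {X : ι → I → Ω → ℝ} (hX : ∀ k ∈ s, Measurable (Function.uncurry (X k))) {w : I → ℂ}
    (hw : Measurable w) {q A M : ℝ} {c : ι → I → ℝ} (hq1 : 1 ≤ q)
    (hs : (s.card : ℝ) ≤ 2 * q) (hc : ∀ k ∈ s, ∀ a, 0 < c k a)
    (hA : 0 ≤ A) (hM : 0 < M) (hμ : μ univ ≤ ENNReal.ofReal M)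
    (h : ∀ k ∈ s, ∀ a, ∫⁻ ω, ENNReal.ofReal (Real.exp (c k a * X k a ω ^ 2)) ∂μ ≤
      ENNReal.ofReal A) {J : Ω → ℂ}
    (hJ : ∀ ω, J ω = ∫ a, w a * ((∏ k ∈ s, X k a ω : ℝ) : ℂ) ∂lam) :
    ∫⁻ ω, ‖J ω‖ₑ ∂μ ≤ ∫⁻ a, ‖w a‖ₑ * ENNReal.ofReal (M * ∏ k ∈ s,
      Real.sqrt (Real.log (Real.exp q + A / M) / c k a)) ∂lam := by
  haveI : IsFiniteMeasure μ := ⟨lt_of_le_of_lt hμ ENNReal.ofReal_lt_top⟩
  have e1 : ∀ ω a, ‖w a * ((∏ k ∈ s, X k a ω : ℝ) : ℂ)‖ₑ =
      ‖w a‖ₑ * ∏ k ∈ s, ENNReal.ofReal |X k a ω| := by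
    intro ω a
    rw [enorm_mul, ← ENNReal.ofReal_prod_of_nonneg fun i _ => abs_nonneg _, ← Finset.abs_prod,
      ← ofReal_norm (((∏ k ∈ s, X k a ω : ℝ) : ℂ)), Complex.norm_real, Real.norm_eq_abs]
  calc ∫⁻ ω, ‖J ω‖ₑ ∂μ
      ≤ ∫⁻ ω, ∫⁻ a, ‖w a‖ₑ * ∏ k ∈ s, ENNReal.ofReal |X k a ω| ∂lam ∂μ := by
        refine lintegral_mono fun ω => ?_
        rw [hJ ω]
        refine le_trans (enorm_integral_le_lintegral_enorm _) (le_of_eq ?_)
        exact lintegral_congr fun a => e1 ω a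
    _ = ∫⁻ a, ∫⁻ ω, ‖w a‖ₑ * ∏ k ∈ s, ENNReal.ofReal |X k a ω| ∂μ ∂lam := by
        refine lintegral_lintegral_swap ?_
        refine Measurable.aemeasurable ?_
        refine (hw.enorm.comp measurable_snd).mul (Finset.measurable_prod _ fun k hk => ?_)
        have h1 : Measurable fun p : Ω × I => X k p.2 p.1 := (hX k hk).comp measurable_swap
        exact (continuous_abs.measurable.comp h1).ennreal_ofReal
    _ ≤ _ := by
        refine lintegral_mono fun a => ?_
        rw [lintegral_const_mul _ (Finset.measurable_prod _ fun k hk => by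
          have h1 : Measurable fun ω : Ω => X k a ω := (hX k hk).comp measurable_prodMk_left
          exact (continuous_abs.measurable.comp h1).ennreal_ofReal)]
        exact mul_le_mul' le_rfl (mom_prod s (fun k hk => ((hX k hk).comp
          measurable_prodMk_left).aemeasurable) hq1 hs (fun k hk => hc k hk a) hA hM hμ
          fun k hk => h k hk a)

end

end PBM
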