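import Pool.Agent.PB.UBN
import Pool.Agent.PB.StatU
import Pool.Agent.PB.QMomC
import Pool.Agent.PB.ParZ

/-!
# Plan B: products of four linear statistics (helper79)

* `exists_strip`: the fixed curve lies in every strip around the real line for large `m`;
* **`UB.mom4`**: 77's `Mom4` for every family with the bounds `UB` (`4 ≤ p`).
-/

set_option autoImplicit false
set_option linter.unusedSectionVars false

noncomputable section

open Complex MeasureTheory Finset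
open scoped ENNReal

namespace PBU

open NUO NUP1 NUP1S NUP1S.Ab NUP1S.AbC NUGC PBF PBP PBFunc
open PBQM (Mom4 BB VN)

variable [NUSea.Sea]

/-- **the fixed curve lies in every strip around the real line** -/
theorem exists_strip {e1 J : ℝ} (he : 0 < e1) (he1 : e1 ≤ 1 / 100) (hJ : 0 ≤ J) {r : ℝ}
    (hr : 0 < r) : ∃ m0 : ℕ, ∀ m ≥ m0, ∀ t, |etaC e1 J m m t| ≤ r := by
  obtain ⟨C1, hC1, m1, hm1, H1⟩ := exists_curC he he1 hJ hr
  refine ⟨m1, fun m hm t => ?_⟩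
  obtain ⟨hT, H1⟩ := H1 m hm
  obtain ⟨ε, e, hcur, hε0, -, hεr⟩ := H1 m (by
    have : (0 : ℝ) ≤ m := Nat.cast_nonneg m
    linarith)
  obtain ⟨d0, -⟩ := hcur.oc
  have h1 := d0 t
  have h2 : ‖NUKer.iD (etaC e1 J m m) t‖ = |etaC e1 J m m t| := by
    unfold NUKer.iD
    rw [norm_mul, norm_I, mul_one, norm_real, Real.norm_eq_abs]
  rw [h2] at h1
  exact h1.trans ((hcur.le t).trans hεr)

/-- a statistic only sees the test function on a strip that contains the curve -/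
theorem Vy_congr {y₁ y₂ : ℝ} (h1 : y₁ < 0) (h2 : 0 < y₂) {η : Crs} {ρ : ℂ → ℂ}
    {g g' : Bool → ℂ → ℂ} (hg : ∀ s, ∀ z ∈ PBE.Sp y₁ y₂, g s z = g' s z)
    (hη : ∀ r (O : Fin r → Xo) t, y₁ < η r O t ∧ η r O t < y₂) (r : ℕ) (O : Fin r → Xo) (a b : ℕ)
    (x : (Fin a → ℝ) × (Fin b → ℝ)) : Vy 0 η ρ g r O a b x = Vy 0 η ρ g' r O a b x := by
  unfold Vy PB.NX.nuL
  congr 1
  · refine Finset.sum_congr rfl fun k _ => hg _ _ ?_
    unfold zqy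
    have := hη r O (Sum.elim x.1 x.2 k)
    constructor
    · rw [zy_im, sub_zero]; exact this.1
    · rw [zy_im, sub_zero]; exact this.2
  · refine Finset.sum_congr rfl fun s _ => ?_
    congr 1
    funext u
    rw [hg s]
    constructor
    · simpa [PB.eR] using h1
    · simpa [PB.eR] using h2

/-- the test function cut off outside the strip -/
def ctS (y₁ y₂ : ℝ) (g : Bool → ℂ → ℂ) (s : Bool) : ℂ → ℂ := (PBE.Sp y₁ y₂).indicator (g s)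

theorem isOpen_Sp (y₁ y₂ : ℝ) : IsOpen (PBE.Sp y₁ y₂) :=
  (isOpen_lt continuous_const Complex.continuous_im).inter
    (isOpen_lt Complex.continuous_im continuous_const)

theorem ctS_eq {y₁ y₂ : ℝ} (g : Bool → ℂ → ℂ) (s : Bool) {z : ℂ} (hz : z ∈ PBE.Sp y₁ y₂) :
    ctS y₁ y₂ g s z = g s z := Set.indicator_of_mem hz _

theorem ctS_BC {y₁ y₂ M : ℝ} {g : Bool → ℂ → ℂ} {s : Bool} (hg : BC y₁ y₂ M (g s)) :
    BC y₁ y₂ M (ctS y₁ y₂ g s) where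
  an := hg.an.congr fun _ hz => ctS_eq g s hz
  bd z hz := by
    rw [ctS_eq g s hz]
    exact hg.bd z hz

theorem ctS_meas {y₁ y₂ M : ℝ} {g : Bool → ℂ → ℂ} {s : Bool} (hg : BC y₁ y₂ M (g s)) :
    Measurable (ctS y₁ y₂ g s) := by
  classical
  unfold ctS
  rw [← Set.piecewise_eq_indicator]
  exact hg.an.continuousOn.measurable_piecewise continuousOn_const (isOpen_Sp y₁ y₂).measurableSet

theorem MIn_vy {η η' : Crs} (hm : MCr η η') {ρ : ℂ → ℂ} (hρ : Measurable fun u : ℝ => ρ u)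
    {g : Bool → ℂ → ℂ} (hg : ∀ s, Measurable (g s)) : MIn (Vy 0 η ρ g) :=
  PM.at (S := Unit) (Ψ := fun _ => Vy 0 η ρ g)
    (PBQM.pm_vy (T := Unit) (G := fun _ => g) hm 0 hρ fun s => (hg s).comp measurable_snd) ()

theorem MIn.prod {q : ℕ} {Ψ : Fin q → Ins} (h : ∀ j, MIn (Ψ j)) :
    MIn fun r O a b x => ∏ j, Ψ j r O a b x := fun r a b =>
  Finset.measurable_fun_prod _ fun j _ => h j r a b

variable {ι : Type} {F : Fam ι} {ep e1 J : ℝ} {p : ℕ} {K ε : ℝ}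

/-- **products of `q ≤ p` linear statistics**, no measurability of the test functions -/
theorem UB.momq (h : UB F ep e1 J p K ε) {q : ℕ} (hq : q ≤ p) (hK : 1 ≤ K) (he : 0 < e1)
    (he1 : e1 ≤ 1 / 100) (hJ : 0 ≤ J) (C0 y₁ y₂ : ℝ) (h1 : y₁ < 0) (h2 : 0 < y₂) :
    ∃ m0 : ℕ, ∀ m ≥ m0, ∀ i : ι, F.ok m i →
    MC (F.Z ep m i) (NUSea.O.par0 m) (cr e1 J m) (cr' e1 J m) →
    ∀ ρ : ℂ → ℂ, (Measurable fun u : ℝ => ρ u) → DN C0 m (fun t : ℝ => ρ t) →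
    ∀ (M : Fin q → ℝ) (g : Fin q → Bool → ℂ → ℂ), (∀ j, 0 ≤ M j) →
      (∀ j s, BC y₁ y₂ (M j) (g j s)) →
      ∫⁻ ω, ‖wF F ep e1 J m i ω‖ₑ * ∏ j, ‖VN (F.top m) (fun _ => cr e1 J m) ρ (g j) ω‖ₑ
        ∂(mN (F.top m)) ≤ ENNReal.ofReal ((∏ j, M j) * ((m : ℝ) ^ ε * F.bd m i)) := by
  obtain ⟨m1, hl1⟩ := h.l1 C0 y₁ y₂ h1 h2
  obtain ⟨m2, hs⟩ := exists_strip (J := J) he he1 hJ (r := min (-y₁ / 2) (y₂ / 2))
    (lt_min (by linarith) (by linarith))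
  refine ⟨max m1 m2, fun m hm i hi hMC ρ hρm hρ M g hM hg => ?_⟩
  have k1 : m1 ≤ m := by omega
  have k2 : m2 ≤ m := by omega
  have hη : ∀ r (O : Fin r → Xo) t, y₁ < cr e1 J m r O t ∧ cr e1 J m r O t < y₂ := by
    intro r O t
    have h3 := hs m k2 t
    have h4 := abs_le.1 h3
    have h5 := min_le_left (-y₁ / 2) (y₂ / 2)
    have h6 := min_le_right (-y₁ / 2) (y₂ / 2)
    constructor
    · show y₁ < etaC e1 J m m t
      linarith
    · show etaC e1 J m m t < y₂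
      linarith
  have hmeas : ∀ j, MIn (Vy 0 (cr e1 J m) ρ (ctS y₁ y₂ (g j))) := fun j =>
    MIn_vy (η' := cr' e1 J m) ⟨fun r => PBF.curZ_meas e1 J m m r, fun r => PBF.curZ_meas' e1 J m m r⟩
      hρm fun s => ctS_meas (hg j s)
  have e0 : ∀ ω : CfN (F.top m), ∏ j, ‖VN (F.top m) (fun _ => cr e1 J m) ρ (g j) ω‖ₑ =
      ‖evN (fun _ r O a b x => ∏ j, Vy 0 (cr e1 J m) ρ (ctS y₁ y₂ (g j)) r O a b x) ω‖ₑ := by
    intro ω
    have hV : ∀ j, VN (F.top m) (fun _ => cr e1 J m) ρ (g j) ω =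
        Vy 0 (cr e1 J m) ρ (ctS y₁ y₂ (g j)) ω.2.1.1 ω.2.2.1 ω.2.1.2.1 ω.2.1.2.2 ω.2.2.2 :=
      fun j => Vy_congr h1 h2 (fun s z hz => (ctS_eq (g j) s hz).symm) hη _ _ _ _ _
    simp only [hV]
    show _ = ‖∏ j, Vy 0 (cr e1 J m) ρ (ctS y₁ y₂ (g j)) ω.2.1.1 ω.2.2.1 ω.2.1.2.1 ω.2.1.2.2
      ω.2.2.2‖ₑ
    rw [← ofReal_norm, norm_prod, ENNReal.ofReal_prod_of_nonneg fun j _ => norm_nonneg _]
    simp only [ofReal_norm]
  simp only [e0]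
  have key : ∀ δ : ℝ, 0 < δ →
      ∫⁻ ω, ‖wF F ep e1 J m i ω‖ₑ *
        ‖evN (fun _ r O a b x => ∏ j, Vy 0 (cr e1 J m) ρ (ctS y₁ y₂ (g j)) r O a b x) ω‖ₑ
        ∂(mN (F.top m)) ≤ ENNReal.ofReal ((∏ j, (M j + δ)) * ((m : ℝ) ^ ε * F.bd m i)) := by
    intro δ hδ
    have h3 := hl1 m k1 i hi hMC ρ hρ q hq (fun j => M j + δ)
      (fun j => add_pos_of_nonneg_of_pos (hM j) hδ)
      (fun _ _ j s => ctS y₁ y₂ (g j) s)
      (fun _ _ j s => (ctS_BC (hg j s)).mono (by linarith)) 1 zero_le_one (fun _ _ => 1)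
      (OW.one hK m) (fun _ r O a b x => ∏ j, Vy 0 (cr e1 J m) ρ (ctS y₁ y₂ (g j)) r O a b x)
      (fun _ _ => MIn.prod hmeas) (fun n _ r O a b x => by
        rw [one_mul, norm_prod])
    unfold L1 at h3
    rw [one_mul] at h3
    refine le_trans (le_of_eq ?_) h3
    refine lintegral_congr fun ω => ?_
    rw [ENNReal.ofReal_mul (norm_nonneg _), ofReal_norm, ofReal_norm]
  have ht : Filter.Tendsto (fun δ : ℝ => ENNReal.ofReal ((∏ j, (M j + δ)) *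
      ((m : ℝ) ^ ε * F.bd m i))) (nhdsWithin 0 (Set.Ioi 0))
      (nhds (ENNReal.ofReal ((∏ j, (M j + 0)) * ((m : ℝ) ^ ε * F.bd m i)))) := by
    refine ENNReal.tendsto_ofReal (Filter.Tendsto.mono_left ?_ nhdsWithin_le_nhds)
    exact Continuous.tendsto (by fun_prop) 0
  simp only [add_zero] at ht
  exact ge_of_tendsto ht (Filter.eventually_of_mem self_mem_nhdsWithin fun δ hδ => key δ hδ)

/-- **77's `Mom4`** -/
theorem UB.mom4 (h : UB F ep e1 J p K ε) (hp : 4 ≤ p) (hK : 1 ≤ K) (he : 0 < e1)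
    (he1 : e1 ≤ 1 / 100) (hJ : 0 ≤ J) (C0 y₁ y₂ : ℝ) (h1 : y₁ < 0) (h2 : 0 < y₂) :
    ∃ m0 : ℕ, ∀ m ≥ m0, ∀ i : ι, F.ok m i →
    MC (F.Z ep m i) (NUSea.O.par0 m) (cr e1 J m) (cr' e1 J m) →
    ∀ ρ : ℂ → ℂ, (Measurable fun u : ℝ => ρ u) → DN C0 m (fun t : ℝ => ρ t) →
      Mom4 (mN (F.top m)) (wF F ep e1 J m i) (VN (F.top m) (fun _ => cr e1 J m) ρ) y₁ y₂
        ((m : ℝ) ^ ε * F.bd m i) := by
  obtain ⟨m0, h0⟩ := h.momq hp hK he he1 hJ C0 y₁ y₂ h1 h2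
  exact ⟨m0, fun m hm i hi hMC ρ hρm hρ M g hM hg =>
    h0 m hm i hi hMC ρ hρm hρ M g hM fun j s => ⟨(hg j s).1, (hg j s).2⟩⟩

end PBU

end
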