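import Mathlib

/-!
# Plan B: moments of statistics from a mass bound and a square exponential bound

For a weight `W` (the modulus of a class integrand) and a real statistic `X`:
`∫ W ≤ M` and `∫ W e ^ (δ X²) ≤ e ^ A M` with `A ≥ p` imply `∫ W |X| ^ (2 p) ≤ 2 (A / δ) ^ p M`.
No lower bound of the mass is needed.  Products of several statistics (also complex valued ones)
follow from Young.
-/

set_option autoImplicit false

noncomputable section

open MeasureTheory Finset
open scoped ENNReal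

namespace PBM

/-- `u ^ p ≤ A ^ p (1 + e ^ (u - A))` for `u ≥ 0`, `A ≥ p` -/
theorem pow_le_exp {u A : ℝ} (hu : 0 ≤ u) {p : ℕ} (hA : (p : ℝ) ≤ A) :
    u ^ p ≤ A ^ p * (1 + Real.exp (u - A)) := by
  have hA0 : 0 ≤ A := (Nat.cast_nonneg p).trans hA
  rcases le_total u A with h | h
  · calc u ^ p ≤ A ^ p := pow_le_pow_left₀ hu h p
      _ ≤ A ^ p * (1 + Real.exp (u - A)) :=
        le_mul_of_one_le_right (pow_nonneg hA0 p) (by linarith [Real.exp_pos (u - A)])
  · rcases eq_or_lt_of_le hA0 with h0 | h0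
    · have hp : p = 0 := by
        have : (p : ℝ) ≤ 0 := by rw [h0]; exact hA
        exact_mod_cast le_antisymm this (Nat.cast_nonneg p)
      subst hp
      simp only [pow_zero, one_mul]
      linarith [Real.exp_pos (u - A)]
    · have h1 : u = A * (1 + (u - A) / A) := by field_simp; ring
      have h2 : 0 ≤ (u - A) / A := div_nonneg (by linarith) hA0
      have h3 : (1 + (u - A) / A) ^ p ≤ Real.exp (u - A) := by
        calc (1 + (u - A) / A) ^ p ≤ (Real.exp ((u - A) / A)) ^ p := by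
              refine pow_le_pow_left₀ (by linarith) ?_ p
              linarith [Real.add_one_le_exp ((u - A) / A)]
          _ = Real.exp (p * ((u - A) / A)) := by rw [← Real.exp_nat_mul]
          _ ≤ Real.exp (u - A) := by
            refine Real.exp_le_exp.2 ?_
            calc (p : ℝ) * ((u - A) / A) ≤ A * ((u - A) / A) :=
                  mul_le_mul_of_nonneg_right hA h2
              _ = u - A := by field_simp
      calc u ^ p = A ^ p * (1 + (u - A) / A) ^ p := by
            conv_lhs => rw [h1]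
            rw [mul_pow]
        _ ≤ A ^ p * Real.exp (u - A) := mul_le_mul_of_nonneg_left h3 (pow_nonneg hA0 p)
        _ ≤ A ^ p * (1 + Real.exp (u - A)) :=
          mul_le_mul_of_nonneg_left (by linarith) (pow_nonneg hA0 p)

variable {Ω : Type*} [MeasurableSpace Ω]

/-- **moments from the mass and the square exponential moment** -/
theorem mom_le (μ : Measure Ω) {W : Ω → ℝ≥0∞} (hW : Measurable W) {X : Ω → ℝ} {p : ℕ} {A δ : ℝ}
    (hA : (p : ℝ) ≤ A) (hδ : 0 < δ) {M : ℝ≥0∞} (hM : ∫⁻ x, W x ∂μ ≤ M)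
    (hS : ∫⁻ x, W x * ENNReal.ofReal (Real.exp (δ * X x ^ 2)) ∂μ ≤
      ENNReal.ofReal (Real.exp A) * M) :
    ∫⁻ x, W x * ENNReal.ofReal (|X x| ^ (2 * p)) ∂μ ≤
      2 * ENNReal.ofReal ((A / δ) ^ p) * M := by
  have hA0 : 0 ≤ A := (Nat.cast_nonneg p).trans hA
  have hpt : ∀ x, W x * ENNReal.ofReal (|X x| ^ (2 * p)) ≤
      ENNReal.ofReal ((A / δ) ^ p) * (W x + ENNReal.ofReal (Real.exp (-A)) *
        (W x * ENNReal.ofReal (Real.exp (δ * X x ^ 2)))) := by
    intro x
    have h1 := pow_le_exp (u := δ * X x ^ 2) (by positivity) hA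
    have h2 : |X x| ^ (2 * p) ≤ (A / δ) ^ p * (1 + Real.exp (-A) * Real.exp (δ * X x ^ 2)) := by
      have h3 : |X x| ^ (2 * p) = (δ * X x ^ 2) ^ p / δ ^ p := by
        rw [mul_pow, pow_mul, sq_abs]
        field_simp
      rw [h3, div_pow, ← Real.exp_add, show -A + δ * X x ^ 2 = δ * X x ^ 2 - A by ring,
        div_mul_eq_mul_div]
      exact div_le_div_of_nonneg_right h1 (by positivity)
    calc W x * ENNReal.ofReal (|X x| ^ (2 * p))
        ≤ W x * ENNReal.ofReal ((A / δ) ^ p * (1 + Real.exp (-A) * Real.exp (δ * X x ^ 2))) :=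
          mul_le_mul_right (ENNReal.ofReal_le_ofReal h2) _
      _ = ENNReal.ofReal ((A / δ) ^ p) * (W x + ENNReal.ofReal (Real.exp (-A)) *
        (W x * ENNReal.ofReal (Real.exp (δ * X x ^ 2)))) := by
          rw [ENNReal.ofReal_mul (by positivity), ENNReal.ofReal_add zero_le_one (by positivity),
            ENNReal.ofReal_mul (Real.exp_nonneg _), ENNReal.ofReal_one]
          ring
  calc ∫⁻ x, W x * ENNReal.ofReal (|X x| ^ (2 * p)) ∂μ
      ≤ ∫⁻ x, ENNReal.ofReal ((A / δ) ^ p) * (W x + ENNReal.ofReal (Real.exp (-A)) *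
        (W x * ENNReal.ofReal (Real.exp (δ * X x ^ 2)))) ∂μ := lintegral_mono hpt
    _ = ENNReal.ofReal ((A / δ) ^ p) * (∫⁻ x, W x ∂μ + ENNReal.ofReal (Real.exp (-A)) *
        ∫⁻ x, W x * ENNReal.ofReal (Real.exp (δ * X x ^ 2)) ∂μ) := by
          rw [lintegral_const_mul' _ _ ENNReal.ofReal_ne_top, lintegral_add_left hW,
            lintegral_const_mul' _ _ ENNReal.ofReal_ne_top]
    _ ≤ ENNReal.ofReal ((A / δ) ^ p) * (M + ENNReal.ofReal (Real.exp (-A)) *
        (ENNReal.ofReal (Real.exp A) * M)) := by gcongr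
    _ = 2 * ENNReal.ofReal ((A / δ) ^ p) * M := by
          rw [← mul_assoc (ENNReal.ofReal (Real.exp (-A))), ← ENNReal.ofReal_mul
            (Real.exp_nonneg _), ← Real.exp_add, neg_add_cancel, Real.exp_zero,
            ENNReal.ofReal_one, one_mul]
          ring

/-- product of `k` nonnegative numbers: `∏ a_i ≤ ∑ a_i ^ k` -/
theorem prod_le_sum_pow {ι : Type*} [Fintype ι] [Nonempty ι] (a : ι → ℝ) (ha : ∀ i, 0 ≤ a i) :
    ∏ i, a i ≤ ∑ i, a i ^ Fintype.card ι := by
  obtain ⟨j, -, hj⟩ := exists_max_image univ a ⟨Classical.arbitrary ι, mem_univ _⟩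
  calc ∏ i, a i ≤ ∏ _i : ι, a j := prod_le_prod (fun i _ => ha i) fun i hi => hj i hi
    _ = a j ^ Fintype.card ι := by rw [prod_const, card_univ]
    _ ≤ ∑ i, a i ^ Fintype.card ι :=
      single_le_sum (f := fun i => a i ^ Fintype.card ι) (fun i _ => pow_nonneg (ha i) _)
        (mem_univ j)

/-- **products of `k` statistics**: if every `X i` has the square exponential bound then
`∫ W ∏ |X i| ≤ 2 k (A / δ) ^ (k / 2) M`, here with `k = card ι` even or odd (`2 k` in the exponent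
of the single moments is avoided by `a ^ k ≤ 1 + a ^ (2 k)`). -/
theorem mom_prod_le (μ : Measure Ω) {W : Ω → ℝ≥0∞} (hW : Measurable W) {ι : Type*} [Fintype ι]
    [Nonempty ι] {X : ι → Ω → ℝ} (hX : ∀ i, Measurable (X i)) {A δ : ℝ}
    (hA : (Fintype.card ι : ℝ) ≤ A) (hδ : 0 < δ) {M : ℝ≥0∞} (hM : ∫⁻ x, W x ∂μ ≤ M)
    (hS : ∀ i, ∫⁻ x, W x * ENNReal.ofReal (Real.exp (δ * X i x ^ 2)) ∂μ ≤
      ENNReal.ofReal (Real.exp A) * M) :
    ∫⁻ x, W x * ENNReal.ofReal (∏ i, |X i x|) ∂μ ≤
      Fintype.card ι * (1 + 2 * ENNReal.ofReal ((A / δ) ^ Fintype.card ι)) * M := by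
  set k := Fintype.card ι with hk
  have hpt : ∀ x, W x * ENNReal.ofReal (∏ i, |X i x|) ≤
      ∑ i, (W x + W x * ENNReal.ofReal (|X i x| ^ (2 * k))) := by
    intro x
    have h1 : ∏ i, |X i x| ≤ ∑ i, (1 + |X i x| ^ (2 * k)) := by
      refine (prod_le_sum_pow (fun i => |X i x|) fun i => abs_nonneg _).trans
        (sum_le_sum fun i _ => ?_)
      rw [mul_comm 2 k, pow_mul]
      nlinarith [sq_nonneg (|X i x| ^ k - 1), pow_nonneg (abs_nonneg (X i x)) k]
    calc W x * ENNReal.ofReal (∏ i, |X i x|)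
        ≤ W x * ENNReal.ofReal (∑ i, (1 + |X i x| ^ (2 * k))) :=
          mul_le_mul_right (ENNReal.ofReal_le_ofReal h1) _
      _ = ∑ i, (W x + W x * ENNReal.ofReal (|X i x| ^ (2 * k))) := by
          rw [ENNReal.ofReal_sum_of_nonneg fun i _ => by positivity, mul_sum]
          refine sum_congr rfl fun i _ => ?_
          rw [ENNReal.ofReal_add zero_le_one (by positivity), ENNReal.ofReal_one, mul_add, mul_one]
  calc ∫⁻ x, W x * ENNReal.ofReal (∏ i, |X i x|) ∂μ
      ≤ ∫⁻ x, ∑ i, (W x + W x * ENNReal.ofReal (|X i x| ^ (2 * k))) ∂μ := lintegral_mono hpt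
    _ = ∑ i, ∫⁻ x, (W x + W x * ENNReal.ofReal (|X i x| ^ (2 * k))) ∂μ := by
        refine lintegral_finsetSum _ fun i _ => hW.add (hW.mul ?_)
        exact ENNReal.measurable_ofReal.comp ((hX i).abs.pow_const _)
    _ ≤ ∑ _i : ι, (M + 2 * ENNReal.ofReal ((A / δ) ^ k) * M) := by
        refine sum_le_sum fun i _ => ?_
        rw [lintegral_add_left hW]
        exact add_le_add hM (mom_le μ hW hA hδ hM (hS i))
    _ = k * (1 + 2 * ENNReal.ofReal ((A / δ) ^ k)) * M := by
        rw [sum_const, card_univ, nsmul_eq_mul, ← hk]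
        ring

end PBM

end
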