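import Pool.Agent.PB.Dict
import Pool.Agent.NUKer.Cut
import Pool.Agent.NUKer.Q
import Pool.Agent.NUO.Glue

/-!
# Plan B: a test function on the curve of the gas is an admissible linear statistic

`g` in `TC y₁ y₂ a M` (height variable), `t ↦ t + D t` a curve inside `y₁ + 3r < Im < y₂ - 3r`, `D` with
three derivatives bounded by `1`:

* `exists_momK`: `t ↦ g (t + D t)` is in `KC1 R (K R³ (e^{ar}/r)³ M)`;
* `exists_momK'`: the same for `X = g (t + D t)` and `X1 = g' (t + D t) (1 + D1 t)` (fields; four derivatives);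
* `TC.crv_bd`, `TC.crv_cont`, `TC.crv_deriv`: bound on the whole line, continuity, derivative;
* `dA_momK`: the case `D = dA η`, `η` in the class `NUOC.O 3 1`.
-/

set_option autoImplicit false

open MeasureTheory Complex Filter Topology Set

noncomputable section

namespace PBE

open NUKer

/-- a curve with bounded derivatives inside the strip -/
structure CrvK (y₁ y₂ : ℝ) (D D1 D2 D3 : ℝ → ℂ) : Prop where
  d0 : ∀ t, HasDerivAt D (D1 t) t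
  d1 : ∀ t, HasDerivAt D1 (D2 t) t
  d2 : ∀ t, HasDerivAt D2 (D3 t) t
  c3 : Continuous D3
  b1 : ∀ t, ‖D1 t‖ ≤ 1
  b2 : ∀ t, ‖D2 t‖ ≤ 1
  b3 : ∀ t, ‖D3 t‖ ≤ 1
  im : ∀ t, y₁ < (D t).im ∧ (D t).im < y₂

variable {y₁ y₂ a M r : ℝ} {g : ℂ → ℂ} {D D1 D2 D3 : ℝ → ℂ}

lemma mem_crv (him : ∀ t, y₁ < (D t).im ∧ (D t).im < y₂) (t : ℝ) : ((t : ℂ) + D t) ∈ Sp y₁ y₂ := by
  have := him t
  constructor
  · simpa using this.1
  · simpa using this.2

lemma TC.crv_bd (hg : TC y₁ y₂ a M g) (ha : 0 ≤ a) (hM : 0 ≤ M)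
    (him : ∀ t, y₁ < (D t).im ∧ (D t).im < y₂) (t : ℝ) : ‖g (t + D t)‖ ≤ M := by
  refine (hg.bd _ (mem_crv him t)).trans ?_
  have h1 : Real.exp (-(a * |((t : ℂ) + D t).re|)) ≤ 1 := Real.exp_le_one_iff.2 (by
    have := mul_nonneg ha (abs_nonneg ((t : ℂ) + D t).re)
    linarith)
  nlinarith

lemma TC.crv_bd' (hg : TC y₁ y₂ a M g)
    (him : ∀ t, y₁ < (D t).im ∧ (D t).im < y₂) (hre : ∀ t, (D t).re = 0) (t : ℝ) :
    ‖g (t + D t)‖ ≤ M * Real.exp (-(a * |t|)) := by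
  have := hg.bd _ (mem_crv him t)
  simpa [hre t] using this

lemma TC.crv_deriv (hg : TC y₁ y₂ a M g) (him : ∀ t, y₁ < (D t).im ∧ (D t).im < y₂)
    (hd : ∀ t, HasDerivAt D (D1 t) t) (t : ℝ) :
    HasDerivAt (fun t : ℝ => g (t + D t)) (deriv g (t + D t) * (1 + D1 t)) t := by
  have h1 := (hg.an.differentiableAt ((Pool.Agent.PB.isOpen_Sp y₁ y₂).mem_nhds
    (mem_crv him t))).hasDerivAt
  have h2 : HasDerivAt (fun t : ℝ => (t : ℂ) + D t) (1 + D1 t) t :=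
    (hasDerivAt_id t).ofReal_comp.add (hd t)
  exact h1.comp t h2

lemma TC.crv_cont (hg : TC y₁ y₂ a M g) (him : ∀ t, y₁ < (D t).im ∧ (D t).im < y₂)
    (hd : Continuous D) : Continuous (fun t : ℝ => g (t + D t)) := by
  rw [continuous_iff_continuousAt]
  intro t
  have h1 := (hg.an.differentiableAt ((Pool.Agent.PB.isOpen_Sp y₁ y₂).mem_nhds
    (mem_crv him t))).continuousAt
  exact ContinuousAt.comp (f := fun t : ℝ => ((t : ℂ) + D t)) h1 (by fun_prop)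

/-- three bounded derivatives of a test function along the curve -/
theorem exists_momK : ∃ K : ℝ, 1 ≤ K ∧ ∀ {y₁ y₂ a M r : ℝ} {g : ℂ → ℂ} {D D1 D2 D3 : ℝ → ℂ},
    TC y₁ y₂ a M g → 0 ≤ a → 0 ≤ M → 0 < r → r ≤ 1 →
    CrvK (y₁ + 3 * r) (y₂ - 3 * r) D D1 D2 D3 → ∀ R : ℝ, 1 ≤ R →
    KC1 R (K * R ^ 3 * ((Real.exp (a * r) / r) ^ 3 * M)) (fun t => g (t + D t)) := by
  obtain ⟨K, hK0, hK⟩ := exists_KC1
  refine ⟨16 * K + 1, by linarith, ?_⟩
  intro y₁ y₂ a M r g D D1 D2 D3 hg ha hM hr hr1 hD R hR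
  set c : ℝ := Real.exp (a * r) / r with hc
  have hc1 : 1 ≤ c := by
    rw [hc, le_div_iff₀ hr]
    have := Real.one_le_exp (mul_nonneg ha hr.le)
    linarith
  have hc0 : 0 ≤ c := by linarith
  have g1 := Pool.Agent.PB.TC_derivTC hg ha hM hr
  have hM1 : 0 ≤ M * Real.exp (a * r) / r := by positivity
  have g2 := Pool.Agent.PB.TC_derivTC g1 ha hM1 hr
  have hM2 : 0 ≤ M * Real.exp (a * r) / r * Real.exp (a * r) / r := by positivity
  have g3 := Pool.Agent.PB.TC_derivTC g2 ha hM2 hr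
  have hM3 : 0 ≤ M * Real.exp (a * r) / r * Real.exp (a * r) / r * Real.exp (a * r) / r := by
    positivity
  have e1 : M * Real.exp (a * r) / r = c * M := by rw [hc]; ring
  have e2 : M * Real.exp (a * r) / r * Real.exp (a * r) / r = c ^ 2 * M := by rw [hc]; ring
  have e3 : M * Real.exp (a * r) / r * Real.exp (a * r) / r * Real.exp (a * r) / r = c ^ 3 * M := by
    rw [hc]; ring
  have i3 : ∀ t, y₁ + r + r + r < (D t).im ∧ (D t).im < y₂ - r - r - r := fun t =>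
    ⟨by linarith [(hD.im t).1], by linarith [(hD.im t).2]⟩
  have i2 : ∀ t, y₁ + r + r < (D t).im ∧ (D t).im < y₂ - r - r := fun t =>
    ⟨by linarith [(hD.im t).1], by linarith [(hD.im t).2]⟩
  have i1 : ∀ t, y₁ + r < (D t).im ∧ (D t).im < y₂ - r := fun t =>
    ⟨by linarith [(hD.im t).1], by linarith [(hD.im t).2]⟩
  have i0 : ∀ t, y₁ < (D t).im ∧ (D t).im < y₂ := fun t =>
    ⟨by linarith [(hD.im t).1], by linarith [(hD.im t).2]⟩
  have b0 := fun t => hg.crv_bd ha hM i0 t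
  have b1 := fun t => g1.crv_bd ha hM1 i1 t
  have b2 := fun t => g2.crv_bd ha hM2 i2 t
  have b3 := fun t => g3.crv_bd ha hM3 i3 t
  rw [e1] at b1
  rw [e2] at b2
  rw [e3] at b3
  have k0 := fun t => hg.crv_deriv i0 hD.d0 t
  have k1 := fun t => g1.crv_deriv i1 hD.d0 t
  have k2 := fun t => g2.crv_deriv i2 hD.d0 t
  have cD : Continuous D := continuous_iff_continuousAt.2 fun x => (hD.d0 x).continuousAt
  have cD1 : Continuous D1 := continuous_iff_continuousAt.2 fun x => (hD.d1 x).continuousAt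
  have cD2 : Continuous D2 := continuous_iff_continuousAt.2 fun x => (hD.d2 x).continuousAt
  have cg3 := g3.crv_cont i3 cD
  have cg2 := g2.crv_cont i2 cD
  have cg1 := g1.crv_cont i1 cD
  set G1 : ℝ → ℂ := fun t => deriv g (t + D t) with hG1
  set G2 : ℝ → ℂ := fun t => deriv (deriv g) (t + D t) with hG2
  set G3 : ℝ → ℂ := fun t => deriv (deriv (deriv g)) (t + D t) with hG3
  have hone : ∀ t, HasDerivAt (fun t => 1 + D1 t) (D2 t) t := fun t => (hD.d1 t).const_add 1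
  have f1 : ∀ t, HasDerivAt (fun t : ℝ => g (t + D t)) (G1 t * (1 + D1 t)) t := k0
  have f2 : ∀ t, HasDerivAt (fun t : ℝ => G1 t * (1 + D1 t))
      (G2 t * (1 + D1 t) * (1 + D1 t) + G1 t * D2 t) t := fun t => (k1 t).mul (hone t)
  have f3 : ∀ t, HasDerivAt (fun t : ℝ => G2 t * (1 + D1 t) * (1 + D1 t) + G1 t * D2 t)
      ((G3 t * (1 + D1 t) * (1 + D1 t) + G2 t * D2 t) * (1 + D1 t) + G2 t * (1 + D1 t) * D2 t +
        (G2 t * (1 + D1 t) * D2 t + G1 t * D3 t)) t := fun t =>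
    (((k2 t).mul (hone t)).mul (hone t)).add ((k1 t).mul (hD.d2 t))
  have n1 : ∀ t, ‖1 + D1 t‖ ≤ 2 := fun t => by
    refine (norm_add_le _ _).trans ?_
    rw [norm_one]
    linarith [hD.b1 t]
  have hcM1 : 0 ≤ c * M := mul_nonneg hc0 hM
  have hcM2 : 0 ≤ c ^ 2 * M := by positivity
  have hcM3 : 0 ≤ c ^ 3 * M := by positivity
  have l1 : M ≤ c ^ 3 * M := by
    have : (1 : ℝ) ≤ c ^ 3 := one_le_pow₀ hc1
    nlinarith
  have l2 : c * M ≤ c ^ 3 * M := by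
    have : c ^ 1 ≤ c ^ 3 := pow_le_pow_right₀ hc1 (by norm_num)
    rw [pow_one] at this
    exact mul_le_mul_of_nonneg_right this hM
  have l3 : c ^ 2 * M ≤ c ^ 3 * M := by
    have : c ^ 2 ≤ c ^ 3 := pow_le_pow_right₀ hc1 (by norm_num)
    exact mul_le_mul_of_nonneg_right this hM
  have nG1 : ∀ t, ‖G1 t‖ ≤ c ^ 3 * M := fun t => (b1 t).trans l2
  have nG2 : ∀ t, ‖G2 t‖ ≤ c ^ 3 * M := fun t => (b2 t).trans l3
  have nG3 : ∀ t, ‖G3 t‖ ≤ c ^ 3 * M := b3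
  have mm : ∀ {x y : ℂ} {p q : ℝ}, ‖x‖ ≤ p → ‖y‖ ≤ q → 0 ≤ p → ‖x * y‖ ≤ p * q := by
    intro x y p q hx hy hp
    rw [norm_mul]
    exact mul_le_mul hx hy (norm_nonneg _) hp
  have m1 : ∀ t, ‖G1 t * (1 + D1 t)‖ ≤ 15 * (c ^ 3 * M) := fun t =>
    (mm (nG1 t) (n1 t) hcM3).trans (by linarith)
  have m2 : ∀ t, ‖G2 t * (1 + D1 t) * (1 + D1 t) + G1 t * D2 t‖ ≤ 15 * (c ^ 3 * M) := fun t => by
    refine (norm_add_le _ _).trans ?_
    have h1 := mm (mm (nG2 t) (n1 t) hcM3) (n1 t) (by positivity)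
    have h2 := mm (nG1 t) (hD.b2 t) hcM3
    linarith
  have m3 : ∀ t, ‖(G3 t * (1 + D1 t) * (1 + D1 t) + G2 t * D2 t) * (1 + D1 t) +
      G2 t * (1 + D1 t) * D2 t + (G2 t * (1 + D1 t) * D2 t + G1 t * D3 t)‖ ≤
      16 * (c ^ 3 * M) := fun t => by
    have h1 := mm (mm (nG3 t) (n1 t) hcM3) (n1 t) (by positivity)
    have h2 := mm (nG2 t) (hD.b2 t) hcM3
    have h3 := mm ((norm_add_le _ _).trans (add_le_add h1 h2)) (n1 t) (by positivity)
    have h4 := mm (mm (nG2 t) (n1 t) hcM3) (hD.b2 t) (by positivity)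
    have h5 := mm (nG1 t) (hD.b3 t) hcM3
    have h6 := norm_add_le ((G3 t * (1 + D1 t) * (1 + D1 t) + G2 t * D2 t) * (1 + D1 t) +
      G2 t * (1 + D1 t) * D2 t) (G2 t * (1 + D1 t) * D2 t + G1 t * D3 t)
    have h7 := norm_add_le ((G3 t * (1 + D1 t) * (1 + D1 t) + G2 t * D2 t) * (1 + D1 t))
      (G2 t * (1 + D1 t) * D2 t)
    have h8 := norm_add_le (G2 t * (1 + D1 t) * D2 t) (G1 t * D3 t)
    linarith
  have cf3 : Continuous fun t => (G3 t * (1 + D1 t) * (1 + D1 t) + G2 t * D2 t) * (1 + D1 t) +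
      G2 t * (1 + D1 t) * D2 t + (G2 t * (1 + D1 t) * D2 t + G1 t * D3 t) := by
    have := hD.c3
    fun_prop
  have hfin := hK R hR _ _ _ _ f1 f2 f3 cf3 (16 * (c ^ 3 * M)) (fun x _ => (b0 x).trans (by linarith))
    (fun x _ => (m1 x).trans (by linarith)) (fun x _ => (m2 x).trans (by linarith)) (fun x _ => m3 x)
  refine hfin.mono ?_
  have hR3 : 0 ≤ R ^ 3 := by positivity
  have h9 : 0 ≤ R ^ 3 * (c ^ 3 * M) := by positivity
  nlinarith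

lemma KC1_mul {R Λ Λ' : ℝ} {f g : ℝ → ℂ} (hR : 0 ≤ R) (h : KC1 R Λ f) (h' : KC1 R Λ' g) :
    KC1 R (Λ * Λ') (fun t => f t * g t) :=
  KC1_of_left (h.left.mul h'.left) hR

lemma KC1_const {R : ℝ} (hR : 0 ≤ R) (c : ℂ) : KC1 R ‖c‖ (fun _ => c) :=
  KC1_of_left (KC.const c) hR

/-- field and its derivative along the curve -/
theorem exists_momK' : ∃ K : ℝ, 1 ≤ K ∧ ∀ {y₁ y₂ a M r : ℝ} {g : ℂ → ℂ} {D D1 D2 D3 : ℝ → ℂ},
    TC y₁ y₂ a M g → 0 ≤ a → 0 ≤ M → 0 < r → r ≤ 1 →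
    CrvK (y₁ + 4 * r) (y₂ - 4 * r) D D1 D2 D3 → ∀ (R : ℝ), 1 ≤ R → ∀ (lam : ℝ), KC1 R lam D1 →
    KC1 R (K * R ^ 3 * ((Real.exp (a * r) / r) ^ 4 * M)) (fun t => g (t + D t)) ∧
    KC1 R (K * R ^ 3 * ((Real.exp (a * r) / r) ^ 4 * M) * (1 + lam))
      (fun t => deriv g (t + D t) * (1 + D1 t)) ∧
    ∀ t, HasDerivAt (fun t : ℝ => g (t + D t)) (deriv g (t + D t) * (1 + D1 t)) t := by
  obtain ⟨K, hK0, hK⟩ := exists_momK
  refine ⟨K, hK0, ?_⟩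
  intro y₁ y₂ a M r g D D1 D2 D3 hg ha hM hr hr1 hD R hR lam hlam
  have hR0 : 0 ≤ R := by linarith
  have hD3 : CrvK (y₁ + 3 * r) (y₂ - 3 * r) D D1 D2 D3 :=
    ⟨hD.d0, hD.d1, hD.d2, hD.c3, hD.b1, hD.b2, hD.b3, fun t => ⟨by linarith [(hD.im t).1],
      by linarith [(hD.im t).2]⟩⟩
  have hD4 : CrvK (y₁ + r + 3 * r) (y₂ - r - 3 * r) D D1 D2 D3 :=
    ⟨hD.d0, hD.d1, hD.d2, hD.c3, hD.b1, hD.b2, hD.b3, fun t => ⟨by linarith [(hD.im t).1],
      by linarith [(hD.im t).2]⟩⟩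
  have hc1 : 1 ≤ Real.exp (a * r) / r := by
    rw [le_div_iff₀ hr]
    have := Real.one_le_exp (mul_nonneg ha hr.le)
    linarith
  have g1 := Pool.Agent.PB.TC_derivTC hg ha hM hr
  have h1 := hK hg ha hM hr hr1 hD3 R hR
  have h2 := hK g1 ha (by positivity) hr hr1 hD4 R hR
  have hK0' : 0 ≤ K * R ^ 3 := by positivity
  refine ⟨h1.mono ?_, ?_, fun t => hg.crv_deriv (fun t => ⟨by linarith [(hD.im t).1],
    by linarith [(hD.im t).2]⟩) hD.d0 t⟩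
  · refine mul_le_mul_of_nonneg_left ?_ hK0'
    exact mul_le_mul_of_nonneg_right (pow_le_pow_right₀ hc1 (by norm_num)) hM
  · have h3 : KC1 R (1 + lam) (fun t => 1 + D1 t) := by
      have := KC1.add hR0 (KC1_const hR0 (1 : ℂ)) hlam
      rwa [norm_one] at this
    have h4 := KC1_mul hR0 h2 h3
    refine h4.mono (le_of_eq ?_)
    ring

/-- the curve `t + i η t` -/
theorem crvK_dA {η η1 η2 η3 : ℝ → ℝ} (h0 : ∀ t, HasDerivAt η (η1 t) t)
    (h1 : ∀ t, HasDerivAt η1 (η2 t) t) (h2 : ∀ t, HasDerivAt η2 (η3 t) t) (h3 : Continuous η3)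
    (b1 : ∀ t, |η1 t| ≤ 1) (b2 : ∀ t, |η2 t| ≤ 1) (b3 : ∀ t, |η3 t| ≤ 1)
    (hy : ∀ t, y₁ < η t ∧ η t < y₂) : CrvK y₁ y₂ (NUO.dA η) (NUO.dA η1) (NUO.dA η2) (NUO.dA η3) := by
  have hn : ∀ {f : ℝ → ℝ} {t : ℝ}, |f t| ≤ 1 → ‖NUO.dA f t‖ ≤ 1 := by
    intro f t h
    unfold NUO.dA
    rw [norm_mul, Complex.norm_I, mul_one, Complex.norm_real]
    exact h
  have hd : ∀ {f f' : ℝ → ℝ} {t : ℝ}, HasDerivAt f (f' t) t →
      HasDerivAt (NUO.dA f) (NUO.dA f' t) t := by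
    intro f f' t h
    exact h.ofReal_comp.mul_const Complex.I
  refine ⟨fun t => hd (h0 t), fun t => hd (h1 t), fun t => hd (h2 t), ?_, fun t => hn (b1 t),
    fun t => hn (b2 t), fun t => hn (b3 t), fun t => ?_⟩
  · unfold NUO.dA
    fun_prop
  · have : (NUO.dA η t).im = η t := by unfold NUO.dA; simp
    rw [this]
    exact hy t

/-- **a test function on the curve of the gas** (`η` with three derivatives bounded by `1`) -/
theorem dA_momK : ∃ K : ℝ, 1 ≤ K ∧ ∀ {y₁ y₂ a M r : ℝ} {g : ℂ → ℂ} {η : ℝ → ℝ} {e : ℝ},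
    TC y₁ y₂ a M g → 0 ≤ a → 0 ≤ M → 0 < r → r ≤ 1 → NUOC.O 3 e η → e ≤ 1 →
    y₁ + 3 * r < -e → e < y₂ - 3 * r → ∀ R : ℝ, 1 ≤ R →
    KC1 R (K * R ^ 3 * ((Real.exp (a * r) / r) ^ 3 * M)) (fun t => g (t + NUO.dA η t)) ∧
    (∀ t, ‖g (t + NUO.dA η t)‖ ≤ M * Real.exp (-(a * |t|))) ∧
    Continuous (fun t : ℝ => g (t + NUO.dA η t)) := by
  obtain ⟨K, hK0, hK⟩ := exists_momK
  refine ⟨K, hK0, ?_⟩
  intro y₁ y₂ a M r g η e hg ha hM hr hr1 hη he hy1 hy2 R hR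
  obtain ⟨h0, f1, d1, h1, f2, d2, h2, f3, d3, h3c, h3⟩ := hη
  have him : ∀ t, y₁ + 3 * r < η t ∧ η t < y₂ - 3 * r := fun t => by
    have := abs_le.1 (h0 t)
    exact ⟨by linarith [this.1], by linarith [this.2]⟩
  have hD := crvK_dA d1 d2 d3 h3c (fun t => (h1 t).trans he) (fun t => (h2 t).trans he)
    (fun t => (h3 t).trans he) him
  have hi : ∀ t, y₁ < (NUO.dA η t).im ∧ (NUO.dA η t).im < y₂ := fun t =>
    ⟨by linarith [(hD.im t).1], by linarith [(hD.im t).2]⟩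
  refine ⟨hK hg ha hM hr hr1 hD R hR, fun t => hg.crv_bd' hi (fun t => by unfold NUO.dA; simp) t,
    hg.crv_cont hi (continuous_iff_continuousAt.2 fun x => (hD.d0 x).continuousAt)⟩

end PBE
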