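import Pool.Agent.NUGC.TopC

/-!
# The regular function as the sum of its classes (plan B, U5, block R7)

* `RG`: one body functions `X`, `Y` and kernels of a regular function (any rows, any ends);
  `RG.cl`, `RG.cl1`: the 16 + 2 final classes; `RG.pre`, `RG.Z`, `RG.v` (`pre1`, `Z1`, `v1`): prefactor,
  integrand, value; `RG.tot`: the signed sum of the values = the sum of the eleven integrals;
* `RG.split`, `RG.split_le`: everything but the class `W, W`;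
* `RG.WW_split`: the class `W, W` on a set of half quanta and its complement;
* `PerOn`, `RepOn`, `cls_fin`: from the tilted bounds of a class on a set of half quanta to the bound
  `Cst * m ^ (ε - γ) * exp (m ^ 2 * I0)` for every small cutoff parameter `ep`;
* `oth_fin`, `near_fin`: the final assembly.
-/

set_option autoImplicit false
set_option linter.unusedSectionVars false

noncomputable section

open Complex MeasureTheory Finset Filter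
open scoped ENNReal

namespace PBR

open NUO NUP1 NUCR NUP1S NURow NUGC

/-- one body functions and kernels of a regular function -/
structure RG where
  X : Option O3 → ℂ → ℂ
  Y : Option O3 → ℂ → ℂ
  kF : ℂ → ℂ
  kP : ℂ → ℂ
  kF' : ℂ → ℂ
  kP' : ℂ → ℂ
  kD : ℂ → ℂ
  kD' : ℂ → ℂ

namespace RG

variable (G : RG) (P : NUO.Par)

/-- **the 16 final classes** -/
def cl (t t' : HT) : CD := cF G.X G.Y G.kF G.kP G.kF' G.kP' t t'

/-- **the two classes with one line**: `true`: D1, `false`: D1' -/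
def cl1 (o : Bool) : CD1 := if o then cD G.kD else cD' G.kD'

/-- prefactor of a class at the heights `y` of the half quanta -/
def pre (t t' : HT) (y : ℝ × ℝ) : ℂ := (G.cl t t').pre (vl (htL t) y.1) (vl (htL t') y.2)

/-- integrand of a class with `n` quanta of each species at the heights `y` of the half quanta -/
def Z (t t' : HT) (n : ℕ) (y : ℝ × ℝ) : ℂ :=
  (G.cl t t').Z G.X G.Y (3 / 5 * l) n n (lX P) (lY P) (vl (htL t) y.1) (vl (htL t') y.2)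

/-- value of a class -/
def v (t t' : HT) (n : ℕ) : ℂ := (G.cl t t').val G.X G.Y (3 / 5 * l) n n (lX P) (lY P)

/-- prefactor of a class with one line -/
def pre1 (o : Bool) (y : ℝ) : ℂ := (G.cl1 o).K (vl (-(11 / 4) * l) y)

/-- integrand of a class with one line -/
def Z1 (o : Bool) (n : ℕ) (y : ℝ) : ℂ :=
  (G.cl1 o).Z G.X G.Y (3 / 5 * l) n n (lX P) (lY P) (vl (-(11 / 4) * l) y)

/-- value of a class with one line -/
def v1 (o : Bool) (n : ℕ) : ℂ := (G.cl1 o).val G.X G.Y (3 / 5 * l) n n (lX P) (lY P)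

/-- **the signed sum of the values of the final classes** -/
def tot (n : ℕ) : ℂ :=
  (2 * (Real.pi : ℂ))⁻¹ ^ 2 * (∑ t : HT, ∑ t' : HT, t.sg * t'.sg * G.v P t t' n) -
    sin l / sin (2 * l) * ((2 * (Real.pi : ℂ))⁻¹ * (G.v1 P true n + G.v1 P false n))

theorem cl_a (t t' : HT) : (G.cl t t').a = htL t := cF_a _ _ _ _ _ _ _ _

theorem cl_b (t t' : HT) : (G.cl t t').b = htL t' := cF_b _ _ _ _ _ _ _ _

theorem cl1_a (o : Bool) : (G.cl1 o).a = -(11 / 4) * l := by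
  cases o <;> rfl

theorem v_eq (t t' : HT) (n : ℕ) : G.v P t t' n = ∫ y : ℝ × ℝ, G.pre t t' y * G.Z P t t' n y := by
  unfold v CD.val
  rw [cl_a, cl_b]
  rfl

theorem v1_eq (o : Bool) (n : ℕ) : G.v1 P o n = ∫ y : ℝ, G.pre1 o y * G.Z1 P o n y := by
  unfold v1 CD1.val
  rw [cl1_a]
  rfl

/-- the class `W, W` -/
theorem pre_WW (y : ℝ × ℝ) : G.pre .W .W y = G.kF (vl (5 / 4 * l) y.1) * G.kF' (vl (5 / 4 * l) y.2) *
    Leg.Dk (vl (5 / 4 * l) y.1 - vl (5 / 4 * l) y.2) := rfl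

theorem Z_WW (n : ℕ) (y : ℝ × ℝ) : G.Z P .W .W n y =
    ZobjQ (XS true G.X SF (fl SF) (vl (5 / 4 * l) y.1) (vl (5 / 4 * l) y.2))
      (XS false G.Y SF (fl SF) (vl (5 / 4 * l) y.1) (vl (5 / 4 * l) y.2))
      (3 / 5 * l) n n (lX P) (lY P) := by
  have e1 : (G.cl .W .W).dX = 0 := rfl
  have e2 : (G.cl .W .W).dY = 0 := rfl
  unfold Z CD.Z
  rw [e1, e2, if_pos ⟨Nat.zero_le _, Nat.zero_le _⟩, Nat.sub_zero]
  rfl

theorem norm_2pi : ‖(2 * (Real.pi : ℂ))⁻¹‖ = (2 * Real.pi)⁻¹ := by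
  rw [norm_inv, norm_mul, Complex.norm_real, Real.norm_eq_abs, abs_of_pos Real.pi_pos]
  norm_num

theorem norm_sg (t : HT) : ‖t.sg‖ = 1 := by
  cases t <;> simp [HT.sg]

/-- the pairs of types except `W, W` -/
def oth : Finset (HT × HT) := (univ : Finset (HT × HT)).erase (.W, .W)

theorem mem_oth {p : HT × HT} : p ∈ oth ↔ p ≠ (.W, .W) := by
  unfold oth
  simp

theorem card_oth : oth.card = 15 := rfl

/-- **Everything but the class `W, W`.** -/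
theorem split (N : ℕ) :
    ‖∑ n ∈ range (N + 1), G.tot P n -
        (2 * (Real.pi : ℂ))⁻¹ ^ 2 * ∑ n ∈ range (N + 1), G.v P .W .W n‖ ≤
      (2 * Real.pi)⁻¹ ^ 2 * (∑ p ∈ oth, ∑ n ∈ range (N + 1), ‖G.v P p.1 p.2 n‖) +
        ‖sin (l : ℂ) / sin (2 * l)‖ * ((2 * Real.pi)⁻¹ *
          ∑ o : Bool, ∑ n ∈ range (N + 1), ‖G.v1 P o n‖) := by
  have hone : ∀ n, G.tot P n - (2 * (Real.pi : ℂ))⁻¹ ^ 2 * G.v P .W .W n =
      (2 * (Real.pi : ℂ))⁻¹ ^ 2 * (∑ p ∈ oth, p.1.sg * p.2.sg * G.v P p.1 p.2 n) -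
        sin l / sin (2 * l) * ((2 * (Real.pi : ℂ))⁻¹ * (G.v1 P true n + G.v1 P false n)) := by
    intro n
    have h1 : (∑ t : HT, ∑ t' : HT, t.sg * t'.sg * G.v P t t' n) =
        G.v P .W .W n + ∑ p ∈ oth, p.1.sg * p.2.sg * G.v P p.1 p.2 n := by
      rw [← Fintype.sum_prod_type' (f := fun t t' => t.sg * t'.sg * G.v P t t' n)]
      have h2 := Finset.add_sum_erase (univ : Finset (HT × HT))
        (fun p => p.1.sg * p.2.sg * G.v P p.1 p.2 n) (Finset.mem_univ (HT.W, HT.W))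
      rw [← h2]
      simp [HT.sg, oth]
    unfold tot
    rw [h1]
    ring
  rw [Finset.mul_sum, ← Finset.sum_sub_distrib]
  have hbd : ∀ n, ‖G.tot P n - (2 * (Real.pi : ℂ))⁻¹ ^ 2 * G.v P .W .W n‖ ≤
      (2 * Real.pi)⁻¹ ^ 2 * (∑ p ∈ oth, ‖G.v P p.1 p.2 n‖) +
        ‖sin (l : ℂ) / sin (2 * l)‖ * ((2 * Real.pi)⁻¹ * ∑ o : Bool, ‖G.v1 P o n‖) := by
    intro n
    rw [hone n]
    refine (norm_sub_le _ _).trans (add_le_add ?_ ?_)
    · rw [norm_mul, norm_pow, norm_2pi]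
      refine mul_le_mul_of_nonneg_left ?_ (by positivity)
      refine (norm_sum_le _ _).trans (sum_le_sum fun p _ => le_of_eq ?_)
      rw [norm_mul, norm_mul, norm_sg, norm_sg, one_mul, one_mul]
    · rw [norm_mul, norm_mul, norm_2pi]
      refine mul_le_mul_of_nonneg_left (mul_le_mul_of_nonneg_left ?_ (by positivity))
        (by positivity)
      rw [Fintype.sum_bool]
      exact norm_add_le _ _
  calc ‖∑ n ∈ range (N + 1), (G.tot P n - (2 * (Real.pi : ℂ))⁻¹ ^ 2 * G.v P .W .W n)‖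
      ≤ ∑ n ∈ range (N + 1), ‖G.tot P n - (2 * (Real.pi : ℂ))⁻¹ ^ 2 * G.v P .W .W n‖ :=
        norm_sum_le _ _
    _ ≤ ∑ n ∈ range (N + 1), ((2 * Real.pi)⁻¹ ^ 2 * (∑ p ∈ oth, ‖G.v P p.1 p.2 n‖) +
        ‖sin (l : ℂ) / sin (2 * l)‖ * ((2 * Real.pi)⁻¹ * ∑ o : Bool, ‖G.v1 P o n‖)) :=
        sum_le_sum fun n _ => hbd n
    _ = _ := by
        rw [sum_add_distrib, ← mul_sum, ← mul_sum, ← mul_sum, sum_comm]
        congr 3
        exact sum_comm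

/-- constant of the sum over the classes -/
def KA : ℝ := 15 * ((2 * Real.pi)⁻¹) ^ 2 + 2 * ‖sin (l : ℂ) / sin (2 * l)‖ * (2 * Real.pi)⁻¹

theorem KA_nonneg : 0 ≤ KA := by unfold KA; positivity

/-- **Everything but the class `W, W`**, from a common bound. -/
theorem split_le {N : ℕ} {B : ℝ}
    (h : ∀ t t' : HT, (t, t') ≠ (.W, .W) → ∑ n ∈ range (N + 1), ‖G.v P t t' n‖ ≤ B)
    (h1 : ∀ o : Bool, ∑ n ∈ range (N + 1), ‖G.v1 P o n‖ ≤ B) :
    ‖∑ n ∈ range (N + 1), G.tot P n -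
        (2 * (Real.pi : ℂ))⁻¹ ^ 2 * ∑ n ∈ range (N + 1), G.v P .W .W n‖ ≤ KA * B := by
  refine (G.split P N).trans ?_
  have e1 : ∑ p ∈ oth, ∑ n ∈ range (N + 1), ‖G.v P p.1 p.2 n‖ ≤ 15 * B := by
    calc ∑ p ∈ oth, ∑ n ∈ range (N + 1), ‖G.v P p.1 p.2 n‖ ≤ ∑ _p ∈ oth, B :=
          sum_le_sum fun p hp => h p.1 p.2 (mem_oth.1 hp)
      _ = 15 * B := by rw [sum_const, card_oth, nsmul_eq_mul]; norm_num
  have e2 : ∑ o : Bool, ∑ n ∈ range (N + 1), ‖G.v1 P o n‖ ≤ 2 * B := by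
    rw [Fintype.sum_bool]
    linarith [h1 true, h1 false]
  calc (2 * Real.pi)⁻¹ ^ 2 * (∑ p ∈ oth, ∑ n ∈ range (N + 1), ‖G.v P p.1 p.2 n‖) +
        ‖sin (l : ℂ) / sin (2 * l)‖ * ((2 * Real.pi)⁻¹ *
          ∑ o : Bool, ∑ n ∈ range (N + 1), ‖G.v1 P o n‖)
      ≤ (2 * Real.pi)⁻¹ ^ 2 * (15 * B) +
        ‖sin (l : ℂ) / sin (2 * l)‖ * ((2 * Real.pi)⁻¹ * (2 * B)) := by
        gcongr
    _ = KA * B := by unfold KA; ring

/-- the sum over the numbers of the values of a class -/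
theorem sum_v_le (t t' : HT) (N : ℕ) : ∑ n ∈ range (N + 1), ‖G.v P t t' n‖ₑ ≤
    ∫⁻ y : ℝ × ℝ, ‖G.pre t t' y‖ₑ * ∑ n ∈ range (N + 1), ‖G.Z P t t' n y‖ₑ := by
  have h := CD_sum_val (G.cl t t') G.X G.Y (3 / 5 * l) N (lX P) (lY P)
    (fun y => ∑ n ∈ range (N + 1), ‖G.Z P t t' n y‖ₑ) (ae_of_all _ fun y => by
      rw [cl_a, cl_b]
      exact le_rfl)
  rw [cl_a, cl_b] at h
  exact h

theorem sum_v1_le (o : Bool) (N : ℕ) : ∑ n ∈ range (N + 1), ‖G.v1 P o n‖ₑ ≤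
    ∫⁻ y : ℝ, ‖G.pre1 o y‖ₑ * ∑ n ∈ range (N + 1), ‖G.Z1 P o n y‖ₑ := by
  have h := CD1_sum_val (G.cl1 o) G.X G.Y (3 / 5 * l) N (lX P) (lY P)
    (fun y => ∑ n ∈ range (N + 1), ‖G.Z1 P o n y‖ₑ) (ae_of_all _ fun y => by
      rw [cl1_a]
      exact le_rfl)
  rw [cl1_a] at h
  exact h

/-- **The class `W, W`** (any class) on a set of half quanta. -/
theorem val_split {t t' : HT} {N : ℕ} {S : Set (ℝ × ℝ)} (hS : MeasurableSet S)
    (hi : ∀ n ≤ N, Integrable fun y : ℝ × ℝ => G.pre t t' y * G.Z P t t' n y) {B : ℝ} (hB : 0 ≤ B)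
    (hf : ∫⁻ y in Sᶜ, ‖G.pre t t' y‖ₑ * ∑ n ∈ range (N + 1), ‖G.Z P t t' n y‖ₑ ≤
      ENNReal.ofReal B) :
    ‖∑ n ∈ range (N + 1), G.v P t t' n -
      ∫ y in S, G.pre t t' y * ∑ n ∈ range (N + 1), G.Z P t t' n y‖ ≤ B := by
  have hi' : Integrable fun y : ℝ × ℝ => G.pre t t' y * ∑ n ∈ range (N + 1), G.Z P t t' n y := by
    simp only [Finset.mul_sum]
    exact integrable_finsetSum _ fun n hn => hi n (Nat.lt_succ_iff.1 (Finset.mem_range.1 hn))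
  have e1 : ∑ n ∈ range (N + 1), G.v P t t' n =
      ∫ y : ℝ × ℝ, G.pre t t' y * ∑ n ∈ range (N + 1), G.Z P t t' n y := by
    simp only [Finset.mul_sum]
    rw [integral_finsetSum _ fun n hn => hi n (Nat.lt_succ_iff.1 (Finset.mem_range.1 hn))]
    exact Finset.sum_congr rfl fun n _ => G.v_eq P t t' n
  rw [e1, ← integral_add_compl hS hi', add_sub_cancel_left]
  have h2 : ‖∫ y in Sᶜ, G.pre t t' y * ∑ n ∈ range (N + 1), G.Z P t t' n y‖ₑ ≤
      ENNReal.ofReal B := by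
    refine (enorm_integral_le_lintegral_enorm _).trans (le_trans (lintegral_mono fun y => ?_) hf)
    rw [enorm_mul]
    exact mul_le_mul' le_rfl (enorm_sum_le _ _)
  rw [← ofReal_norm] at h2
  exact (ENNReal.ofReal_le_ofReal_iff hB).1 h2

end RG

/-! ## from the tilted bounds to the bound of a class -/

section per

variable {E : Type*} [MeasurableSpace E] (μ : Measure E) {U : Type} [Fintype U]

/-- **The tilted bounds of a class on the sets `S ep m` of half quanta.**  `m` = number of rows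
(ends included), `N m` = bound of the numbers of quanta, `pre` = prefactor, `w` = weights of the
choices, `T` = terms, `γ` = gain, `I0` = exponent of the mean field value. -/
def PerOn (γ I0 : ℝ) (N : ℕ → ℕ) (a : ℕ) (S : ℝ → ℕ → Set E) (pre : ℝ → ℕ → E → ℂ)
    (w : ℝ → ℕ → E → U → ℝ) (T : ℝ → ℕ → E → U → Term) : Prop :=
  ∃ (C c b c1 c' Ca : ℝ) (k : ℕ), 0 < C ∧ 0 < c ∧ 0 < b ∧ 0 < c1 ∧ 0 ≤ c' ∧ 0 ≤ Ca ∧
    ∀ ep : ℝ, 0 < ep → ep ≤ 1 / 100 → ∀ e1 : ℝ, 0 < e1 → e1 ≤ 1 / 100 → ∀ J : ℝ, 0 ≤ J →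
    ∀ δ : ℝ, 0 < δ → ∃ d C' Cst : ℝ, 0 < d ∧ 0 ≤ C' ∧ 0 ≤ Cst ∧ ∃ m0 : ℕ, ∀ m : ℕ, m0 ≤ m →
      ∃ (ν : E → ℝ) (Q : E → U → ℝ), (∀ y u, 0 ≤ Q y u) ∧
        ∫⁻ y in S ep m, ‖pre ep m y‖ₑ * ENNReal.ofReal (∑ u, w ep m y u * Q y u) ∂μ ≤
          ENNReal.ofReal (Cst * (m : ℝ) ^ (Ca * (ep + e1) + δ - γ) *
            Real.exp ((m : ℝ) ^ 2 * I0)) ∧
        ∀ y ∈ S ep m, ∀ u, w ep m y u ≠ 0 →
          PerGen C C' c b k c1 c' (Real.log m) ep e1 J (ν y) d (N m) a (T ep m y u) (Q y u)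

/-- **The representation of a class** by terms; `Z ep m y n` = integrand with `n` quanta of each
species, `D` = number of quanta which belong to the half quanta. -/
def RepOn (a D : ℕ) (S : ℝ → ℕ → Set E) (w : ℝ → ℕ → E → U → ℝ) (T : ℝ → ℕ → E → U → Term)
    (Z : ℝ → ℕ → E → ℕ → ℂ) : Prop :=
  ∀ ep : ℝ, 0 < ep → ep ≤ 1 / 100 → ∃ m0 : ℕ, ∀ m : ℕ, m0 ≤ m → ∀ y ∈ S ep m,
    R4genU ep a (fun u => ENNReal.ofReal (w ep m y u)) (T ep m y) (fun n => Z ep m y (n + D)) ∧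
    ∀ n < D, Z ep m y n = 0

/-- **The bound of a class** for every small cutoff parameter. -/
def FinOn (γ I0 : ℝ) (N : ℕ → ℕ) (S : ℝ → ℕ → Set E) (pre : ℝ → ℕ → E → ℂ)
    (Z : ℝ → ℕ → E → ℕ → ℂ) : Prop :=
  ∀ ε : ℝ, 0 < ε → ∃ e0 : ℝ, 0 < e0 ∧ e0 ≤ 1 / 100 ∧ ∀ ep : ℝ, 0 < ep → ep ≤ e0 →
    ∃ (Cst : ℝ) (m1 : ℕ), 0 ≤ Cst ∧ ∀ m : ℕ, m1 ≤ m →
      ∫⁻ y in S ep m, ‖pre ep m y‖ₑ * ∑ n ∈ range (N m + 1), ‖Z ep m y n‖ₑ ∂μ ≤
        ENNReal.ofReal (Cst * (m : ℝ) ^ (ε - γ) * Real.exp ((m : ℝ) ^ 2 * I0))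

variable {μ} {γ I0 : ℝ} {N : ℕ → ℕ} {a D : ℕ} {S : ℝ → ℕ → Set E} {pre : ℝ → ℕ → E → ℂ}
  {w : ℝ → ℕ → E → U → ℝ} {T : ℝ → ℕ → E → U → Term} {Z : ℝ → ℕ → E → ℕ → ℂ}

/-- **From the tilted bounds to the bound of a class.** -/
theorem cls_fin (hP : PerOn μ γ I0 N a S pre w T) (hR : RepOn a D S w T Z)
    (hS : ∀ ep m, MeasurableSet (S ep m)) (hw : ∀ ep m y u, 0 ≤ w ep m y u)
    (hN : ∃ m0, ∀ m, m0 ≤ m → 2 * N m + a + 1 ≤ m ^ 2) : FinOn μ γ I0 N S pre Z := by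
  intro ε hε
  obtain ⟨C, c, b, c1, c', Ca, k, hC, hc, hb, hc1, hc', hCa, hP⟩ := hP
  obtain ⟨a0, ha0, hcls⟩ := glue_U (k := k) hC hc hb hc1 hc' (show 0 < ε / 4 by positivity)
  obtain ⟨mN, hN⟩ := hN
  refine ⟨min (a0 / 12) (min (1 / 100) (ε / (8 * (Ca + 1)))),
    lt_min (by positivity) (lt_min (by norm_num) (by positivity)),
    (min_le_right _ _).trans (min_le_left _ _), fun ep hep0 hep => ?_⟩
  have hep1 : ep ≤ a0 / 12 := hep.trans (min_le_left _ _)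
  have hep2 : ep ≤ 1 / 100 := hep.trans ((min_le_right _ _).trans (min_le_left _ _))
  have hep3 : ep ≤ ε / (8 * (Ca + 1)) := hep.trans ((min_le_right _ _).trans (min_le_right _ _))
  have hCe : Ca * ep ≤ ε / 8 := by
    rw [le_div_iff₀ (by positivity)] at hep3
    nlinarith
  obtain ⟨J, hJ0, hJ⟩ : ∃ J : ℝ, 0 ≤ J ∧ Real.exp (-(2 * Real.pi * J)) ≤ a0 / 2 := by
    refine ⟨max 0 (-Real.log (a0 / 2)), le_max_left _ _, ?_⟩
    have hpi := Real.pi_gt_three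
    have h1 : -Real.log (a0 / 2) ≤ 2 * Real.pi * max 0 (-Real.log (a0 / 2)) := by
      have h2 := le_max_right 0 (-Real.log (a0 / 2))
      have h3 := le_max_left 0 (-Real.log (a0 / 2))
      nlinarith
    calc Real.exp (-(2 * Real.pi * max 0 (-Real.log (a0 / 2)))) ≤
          Real.exp (Real.log (a0 / 2)) := Real.exp_le_exp.2 (by linarith)
      _ = a0 / 2 := Real.exp_log (by positivity)
  obtain ⟨d, C', Cst, hd, hC', hCst, m0, hm0⟩ :=
    hP ep hep0 hep2 ep hep0 hep2 J hJ0 (ε / 4) (by positivity)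
  obtain ⟨L0, hL0⟩ := hcls C' hC'
  obtain ⟨mR, hR⟩ := hR ep hep0 hep2
  have hlog : Tendsto (fun m : ℕ => Real.log (m : ℝ)) atTop atTop :=
    Real.tendsto_log_atTop.comp tendsto_natCast_atTop_atTop
  obtain ⟨m2, hm2⟩ := eventually_atTop.1 (hlog.eventually_ge_atTop L0)
  refine ⟨4 * (1 + 1 / d) * Cst, max (max m0 mR) (max (max m2 mN) 1), by positivity,
    fun m hm => ?_⟩
  have g0 : m0 ≤ m := ((le_max_left _ _).trans (le_max_left _ _)).trans hm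
  have gR : mR ≤ m := ((le_max_right _ _).trans (le_max_left _ _)).trans hm
  have g2 : m2 ≤ m := (((le_max_left _ _).trans (le_max_left _ _)).trans (le_max_right _ _)).trans hm
  have gN : mN ≤ m :=
    (((le_max_right _ _).trans (le_max_left _ _)).trans (le_max_right _ _)).trans hm
  have g1 : 1 ≤ m := ((le_max_right _ _).trans (le_max_right _ _)).trans hm
  have hm0' : (0 : ℝ) < m := by exact_mod_cast g1
  have hm1' : (1 : ℝ) ≤ m := by exact_mod_cast g1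
  obtain ⟨ν, Q, hQ, hI, hPer⟩ := hm0 m g0
  have gL : L0 ≤ Real.log m := hm2 m g2
  have hNe : ((2 * N m + a + 1 : ℕ) : ℝ) ≤ Real.exp (2 * Real.log m) := by
    have h1 : ((2 * N m + a + 1 : ℕ) : ℝ) ≤ ((m ^ 2 : ℕ) : ℝ) := by exact_mod_cast hN m gN
    refine h1.trans (le_of_eq ?_)
    rw [two_mul, Real.exp_add, Real.exp_log hm0']
    push_cast
    ring
  set F : ℝ := 4 * (1 + 1 / d) * Real.exp (ε / 4 * Real.log m) with hF
  have hF0 : 0 ≤ F := by positivity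
  -- pointwise
  have hpt : ∀ y ∈ S ep m, ∑ n ∈ range (N m + 1), ‖Z ep m y n‖ₑ ≤
      ENNReal.ofReal F * ENNReal.ofReal (∑ u, w ep m y u * Q y u) := by
    intro y hy
    obtain ⟨hr, hz⟩ := hR m gR y hy
    have key := hL0 (Real.log m) gL ep hep0.le (hep2.trans (by norm_num)) ep hep0
      (hep2.trans (by norm_num)) J hJ0 (by linarith) (ν y) d (N m) a U inferInstance
      (fun u => ENNReal.ofReal (w ep m y u)) (Q y) (T ep m y) _ hd (hQ y)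
      (fun u => ENNReal.ofReal_ne_top) hNe hr (fun u hu => hPer y hy u (by
        intro h0
        exact hu (by rw [h0, ENNReal.ofReal_zero])))
    have e1 : ∀ u, (ENNReal.ofReal (w ep m y u)).toReal = w ep m y u := fun u =>
      ENNReal.toReal_ofReal (hw _ _ _ _)
    simp only [e1] at key
    have h2 := (sum_shift (D := D) (f := fun n => ‖Z ep m y n‖) (fun n => norm_nonneg _)
      (fun n hn => by rw [hz n hn, norm_zero]) (N m)).trans key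
    rw [sum_enorm_eq, ← ENNReal.ofReal_mul hF0]
    refine ENNReal.ofReal_le_ofReal (h2.trans (le_of_eq ?_))
    rw [hF]
    ring
  have hB0 : 0 ≤ Cst * (m : ℝ) ^ (Ca * (ep + ep) + ε / 4 - γ) * Real.exp ((m : ℝ) ^ 2 * I0) := by
    positivity
  calc ∫⁻ y in S ep m, ‖pre ep m y‖ₑ * ∑ n ∈ range (N m + 1), ‖Z ep m y n‖ₑ ∂μ
      ≤ ∫⁻ y in S ep m, ENNReal.ofReal F *
          (‖pre ep m y‖ₑ * ENNReal.ofReal (∑ u, w ep m y u * Q y u)) ∂μ := by
        refine setLIntegral_mono' (hS ep m) fun y hy => ?_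
        rw [mul_left_comm]
        exact mul_le_mul' le_rfl (hpt y hy)
    _ = ENNReal.ofReal F * ∫⁻ y in S ep m,
          ‖pre ep m y‖ₑ * ENNReal.ofReal (∑ u, w ep m y u * Q y u) ∂μ :=
        lintegral_const_mul' _ _ ENNReal.ofReal_ne_top
    _ ≤ ENNReal.ofReal F * ENNReal.ofReal (Cst * (m : ℝ) ^ (Ca * (ep + ep) + ε / 4 - γ) *
          Real.exp ((m : ℝ) ^ 2 * I0)) := mul_le_mul' le_rfl hI
    _ = ENNReal.ofReal (F * (Cst * (m : ℝ) ^ (Ca * (ep + ep) + ε / 4 - γ) *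
          Real.exp ((m : ℝ) ^ 2 * I0))) := (ENNReal.ofReal_mul hF0).symm
    _ ≤ _ := by
        refine ENNReal.ofReal_le_ofReal ?_
        have hE1 : Real.exp (ε / 4 * Real.log m) = (m : ℝ) ^ (ε / 4) := by
          rw [Real.rpow_def_of_pos hm0', mul_comm]
        have hE2 : (m : ℝ) ^ (ε / 4) * (m : ℝ) ^ (Ca * (ep + ep) + ε / 4 - γ) ≤
            (m : ℝ) ^ (ε - γ) := by
          rw [← Real.rpow_add hm0']
          exact Real.rpow_le_rpow_of_exponent_le hm1' (by linarith)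
        have hx0 := (Real.exp_pos ((m : ℝ) ^ 2 * I0)).le
        have hd0 : 0 ≤ 4 * (1 + 1 / d) * Cst := by positivity
        calc F * (Cst * (m : ℝ) ^ (Ca * (ep + ep) + ε / 4 - γ) * Real.exp ((m : ℝ) ^ 2 * I0))
            = 4 * (1 + 1 / d) * Cst * ((m : ℝ) ^ (ε / 4) *
              (m : ℝ) ^ (Ca * (ep + ep) + ε / 4 - γ)) * Real.exp ((m : ℝ) ^ 2 * I0) := by
              rw [hF, hE1]
              ring
          _ ≤ 4 * (1 + 1 / d) * Cst * (m : ℝ) ^ (ε - γ) * Real.exp ((m : ℝ) ^ 2 * I0) :=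
              mul_le_mul_of_nonneg_right (mul_le_mul_of_nonneg_left hE2 hd0) hx0

end per

/-! ## the final assembly -/

section fin

variable {γ I0 : ℝ} {N : ℕ → ℕ}

/-- finitely many classes together -/
theorem FinOn.all {ι : Type*} [Finite ι] {E : ι → Type*} [∀ i, MeasurableSpace (E i)]
    {μ : ∀ i, Measure (E i)} {S : ∀ i, ℝ → ℕ → Set (E i)} {pre : ∀ i, ℝ → ℕ → E i → ℂ}
    {Z : ∀ i, ℝ → ℕ → E i → ℕ → ℂ} (h : ∀ i, FinOn (μ i) γ I0 N (S i) (pre i) (Z i)) :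
    ∀ ε : ℝ, 0 < ε → ∃ e0 : ℝ, 0 < e0 ∧ e0 ≤ 1 / 100 ∧ ∀ ep : ℝ, 0 < ep → ep ≤ e0 →
      ∃ (Cst : ℝ) (m1 : ℕ), 0 ≤ Cst ∧ ∀ m : ℕ, m1 ≤ m → ∀ i,
        ∫⁻ y in S i ep m, ‖pre i ep m y‖ₑ * ∑ n ∈ range (N m + 1), ‖Z i ep m y n‖ₑ ∂(μ i) ≤
          ENNReal.ofReal (Cst * (m : ℝ) ^ (ε - γ) * Real.exp ((m : ℝ) ^ 2 * I0)) := by
  cases nonempty_fintype ι
  intro ε hε
  choose e0 h0 h1 h using fun i => h i ε hε
  rcases isEmpty_or_nonempty ι with he | he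
  · exact ⟨1 / 100, by norm_num, le_rfl, fun ep _ _ => ⟨0, 0, le_rfl, fun m _ i => he.elim i⟩⟩
  obtain ⟨i0, -, hi0⟩ := Finset.exists_min_image (univ : Finset ι) e0 ⟨he.some, mem_univ _⟩
  refine ⟨e0 i0, h0 i0, h1 i0, fun ep hep hep' => ?_⟩
  choose Cst m1 hC hm using fun i => h i ep hep (hep'.trans (hi0 i (mem_univ _)))
  refine ⟨∑ i, Cst i, univ.sup m1, sum_nonneg fun i _ => hC i, fun m hm' i => ?_⟩
  refine (hm i m ((Finset.le_sup (mem_univ i)).trans hm')).trans (ENNReal.ofReal_le_ofReal ?_)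
  have hi : Cst i ≤ ∑ i, Cst i := Finset.single_le_sum (fun i _ => hC i) (mem_univ i)
  have hp : 0 ≤ (m : ℝ) ^ (ε - γ) := Real.rpow_nonneg (Nat.cast_nonneg m) _
  exact mul_le_mul_of_nonneg_right (mul_le_mul_of_nonneg_right hi hp) (Real.exp_pos _).le

variable {G : ℝ → ℕ → RG} {P : ℝ → ℕ → NUO.Par} {S : ℕ → Set (ℝ × ℝ)}

/-- **The class `W, W` is the sum of the eleven integrals up to the other classes.** -/
theorem oth_fin
    (h : ∀ t t' : HT, (t, t') ≠ (.W, .W) → FinOn (volume : Measure (ℝ × ℝ)) γ I0 N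
      (fun _ _ => Set.univ) (fun ep m => (G ep m).pre t t')
      (fun ep m y n => (G ep m).Z (P ep m) t t' n y))
    (h1 : ∀ o : Bool, FinOn (volume : Measure ℝ) γ I0 N (fun _ _ => Set.univ)
      (fun ep m => (G ep m).pre1 o) (fun ep m y n => (G ep m).Z1 (P ep m) o n y)) :
    ∀ ε : ℝ, 0 < ε → ∃ e0 : ℝ, 0 < e0 ∧ e0 ≤ 1 / 100 ∧ ∀ ep : ℝ, 0 < ep → ep ≤ e0 →
      ∃ (Cst : ℝ) (m1 : ℕ), 0 ≤ Cst ∧ ∀ m : ℕ, m1 ≤ m →
        ‖∑ n ∈ range (N m + 1), (G ep m).tot (P ep m) n - (2 * (Real.pi : ℂ))⁻¹ ^ 2 *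
          ∑ n ∈ range (N m + 1), (G ep m).v (P ep m) .W .W n‖ ≤
          Cst * (m : ℝ) ^ (ε - γ) * Real.exp ((m : ℝ) ^ 2 * I0) := by
  intro ε hε
  have hA := FinOn.all (ι := {p : HT × HT // p ≠ (.W, .W)}) (E := fun _ => ℝ × ℝ)
    (μ := fun _ => (volume : Measure (ℝ × ℝ))) (fun p => h p.1.1 p.1.2 p.2)
  have hB := FinOn.all (ι := Bool) (E := fun _ => ℝ) (μ := fun _ => (volume : Measure ℝ)) h1
  obtain ⟨e1, he1, he1', hA⟩ := hA ε hε
  obtain ⟨e2, he2, -, hB⟩ := hB ε hε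
  refine ⟨min e1 e2, lt_min he1 he2, (min_le_left _ _).trans he1', fun ep hep hep' => ?_⟩
  obtain ⟨C1, m1, hC1, hA⟩ := hA ep hep (hep'.trans (min_le_left _ _))
  obtain ⟨C2, m2, hC2, hB⟩ := hB ep hep (hep'.trans (min_le_right _ _))
  have hK := RG.KA_nonneg
  refine ⟨RG.KA * (C1 + C2), max m1 m2, by positivity, fun m hm => ?_⟩
  have hA := hA m ((le_max_left _ _).trans hm)
  have hB := hB m ((le_max_right _ _).trans hm)
  have hp : 0 ≤ (m : ℝ) ^ (ε - γ) * Real.exp ((m : ℝ) ^ 2 * I0) :=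
    mul_nonneg (Real.rpow_nonneg (Nat.cast_nonneg m) _) (Real.exp_pos _).le
  have hcom : ∀ C : ℝ, 0 ≤ C → C ≤ C1 + C2 →
      C * (m : ℝ) ^ (ε - γ) * Real.exp ((m : ℝ) ^ 2 * I0) ≤
        (C1 + C2) * (m : ℝ) ^ (ε - γ) * Real.exp ((m : ℝ) ^ 2 * I0) := by
    intro C _ hC
    rw [mul_assoc, mul_assoc]
    exact mul_le_mul_of_nonneg_right hC hp
  have hB0 : 0 ≤ (C1 + C2) * (m : ℝ) ^ (ε - γ) * Real.exp ((m : ℝ) ^ 2 * I0) := by
    rw [mul_assoc]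
    exact mul_nonneg (by positivity) hp
  refine ((G ep m).split_le (P ep m) (B := (C1 + C2) * (m : ℝ) ^ (ε - γ) *
    Real.exp ((m : ℝ) ^ 2 * I0)) (fun t t' ht => ?_) fun o => ?_).trans (le_of_eq (by ring))
  · have h2 := hA ⟨(t, t'), ht⟩
    rw [Measure.restrict_univ] at h2
    exact sum_norm_le hB0 (((G ep m).sum_v_le (P ep m) t t' (N m)).trans (h2.trans
      (ENNReal.ofReal_le_ofReal (hcom _ hC1 (by linarith)))))
  · have h2 := hB o
    rw [Measure.restrict_univ] at h2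
    exact sum_norm_le hB0 (((G ep m).sum_v1_le (P ep m) o (N m)).trans (h2.trans
      (ENNReal.ofReal_le_ofReal (hcom _ hC2 (by linarith)))))

/-- **The sum of the eleven integrals is the class `W, W` on the near set**, up to
`m ^ (ε - γ)` times the mean field value. -/
theorem near_fin (hS : ∀ m, MeasurableSet (S m))
    (h : ∀ t t' : HT, (t, t') ≠ (.W, .W) → FinOn (volume : Measure (ℝ × ℝ)) γ I0 N
      (fun _ _ => Set.univ) (fun ep m => (G ep m).pre t t')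
      (fun ep m y n => (G ep m).Z (P ep m) t t' n y))
    (h1 : ∀ o : Bool, FinOn (volume : Measure ℝ) γ I0 N (fun _ _ => Set.univ)
      (fun ep m => (G ep m).pre1 o) (fun ep m y n => (G ep m).Z1 (P ep m) o n y))
    (hW : FinOn (volume : Measure (ℝ × ℝ)) γ I0 N (fun _ m => (S m)ᶜ)
      (fun ep m => (G ep m).pre .W .W) (fun ep m y n => (G ep m).Z (P ep m) .W .W n y))
    (hi : ∀ ep : ℝ, 0 < ep → ep ≤ 1 / 100 → ∃ m0 : ℕ, ∀ m : ℕ, m0 ≤ m → ∀ n ≤ N m,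
      Integrable fun y : ℝ × ℝ => (G ep m).pre .W .W y * (G ep m).Z (P ep m) .W .W n y) :
    ∀ ε : ℝ, 0 < ε → ∃ e0 : ℝ, 0 < e0 ∧ e0 ≤ 1 / 100 ∧ ∀ ep : ℝ, 0 < ep → ep ≤ e0 →
      ∃ (Cst : ℝ) (m1 : ℕ), 0 ≤ Cst ∧ ∀ m : ℕ, m1 ≤ m →
        ‖∑ n ∈ range (N m + 1), (G ep m).tot (P ep m) n - (2 * (Real.pi : ℂ))⁻¹ ^ 2 *
          ∫ y in S m, (G ep m).pre .W .W y * ∑ n ∈ range (N m + 1),
            (G ep m).Z (P ep m) .W .W n y‖ ≤
          Cst * (m : ℝ) ^ (ε - γ) * Real.exp ((m : ℝ) ^ 2 * I0) := by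
  intro ε hε
  obtain ⟨e1, he1, he1', hA⟩ := oth_fin h h1 ε hε
  obtain ⟨e2, he2, -, hB⟩ := hW ε hε
  refine ⟨min e1 e2, lt_min he1 he2, (min_le_left _ _).trans he1', fun ep hep hep' => ?_⟩
  obtain ⟨C1, m1, hC1, hA⟩ := hA ep hep (hep'.trans (min_le_left _ _))
  obtain ⟨C2, m2, hC2, hB⟩ := hB ep hep (hep'.trans (min_le_right _ _))
  obtain ⟨m3, hi⟩ := hi ep hep ((hep'.trans (min_le_left _ _)).trans he1')
  refine ⟨C1 + ((2 * Real.pi)⁻¹) ^ 2 * C2, max m1 (max m2 m3), by positivity, fun m hm => ?_⟩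
  have hA := hA m ((le_max_left _ _).trans hm)
  have hB := hB m (((le_max_left _ _).trans (le_max_right _ _)).trans hm)
  have hi := hi m (((le_max_right _ _).trans (le_max_right _ _)).trans hm)
  have hp : 0 ≤ (m : ℝ) ^ (ε - γ) * Real.exp ((m : ℝ) ^ 2 * I0) :=
    mul_nonneg (Real.rpow_nonneg (Nat.cast_nonneg m) _) (Real.exp_pos _).le
  have hB0 : 0 ≤ C2 * (m : ℝ) ^ (ε - γ) * Real.exp ((m : ℝ) ^ 2 * I0) := by
    rw [mul_assoc]
    exact mul_nonneg hC2 hp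
  have hB' := (G ep m).val_split (P ep m) (t := .W) (t' := .W) (hS m) hi hB0 hB
  have e1 : ∀ a b c d : ℂ, a - d * c = (a - d * b) + d * (b - c) := fun a b c d => by ring
  rw [e1 _ (∑ n ∈ range (N m + 1), (G ep m).v (P ep m) .W .W n)]
  refine (norm_add_le _ _).trans ((add_le_add hA (?_ : _ ≤ ((2 * Real.pi)⁻¹) ^ 2 *
    (C2 * (m : ℝ) ^ (ε - γ) * Real.exp ((m : ℝ) ^ 2 * I0)))).trans (le_of_eq (by ring)))
  rw [norm_mul, norm_pow, RG.norm_2pi]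
  exact mul_le_mul_of_nonneg_left hB' (by positivity)

end fin

end PBR

end
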