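import Pool.Agent.PB.GasWard

/-!
# Plan B: the pointwise normal form of the first Ward identity, with objects and charges

Particles `i : ι` of kinds `sp i : S`: the quanta of both species and the objects (kinds of density
`0`).  `r1 b = d/dη log (row factor)`.

* `normI1`: `∑ (r1 + ξ' + ξ (κ + lam)) + ∑_{pairs} a
    = ∑ b ∫ ρ r1 + ∑ Cv + nuQ a + ∑ ξ lam`, `Cv = ξ κ + smr + r1`
  (zero for the quanta, the convective derivative of the mean field for the objects);
* `nuQ_add`, `nuQ_prod`: linearity and product kernels;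
* `nuQ_obj`: quanta-quanta, object-quanta and object-object parts of `nuQ`;
* `tail_eq`, `norm_Tloc`: `(ξ s - ξ t) tanh 2(s-t)` = local + explicit plateau part;
* `nuQ_charge`: the plateau parts of all pairs together, for charges `q b`;
* `norm_kernel_loc`: the local part of the kernels.
-/

set_option autoImplicit false
set_option linter.unusedSectionVars false

noncomputable section

open MeasureTheory Finset
open scoped Classical

namespace PB

namespace N1

variable {ι S : Type*} [Fintype ι] [Fintype S]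

/-! ### the normal form -/

/-- the convective part of the row force and of the force of the sea -/
def Cv (ρ ξ κr r1 : S → ℝ → ℂ) (a : S → S → ℝ → ℝ → ℂ) (b : S) (s : ℝ) : ℂ :=
  ξ b s * κr b s + smr ρ a b s + r1 b s

/-- **the pointwise normal form of the first Ward identity** -/
theorem normI1 {r : ι → ι → Prop} (hr : Tourn r) (sp : ι → S) {ρ ξ dξ κr r1 : S → ℝ → ℂ}
    {lam : ι → ℝ → ℂ} {a : S → S → ℝ → ℝ → ℂ} (has : ∀ b c s t, a b c s t = a c b t s)
    (had : ∀ b t, a b b t t = 2 * dξ b t)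
    (hI1 : ∀ b, Integrable fun s => ρ b s * (ξ b s * κr b s))
    (hI2 : ∀ b, Integrable fun s => ρ b s * smr ρ a b s)
    (hE : ∑ b, (∫ s, ρ b s * (ξ b s * κr b s)) + (1 / 2) * dbl ρ a = 0)
    (hC : ∀ b s, ρ b s * Cv ρ ξ κr r1 a b s = 0) (t : ι → ℝ) :
    (∑ k, (r1 (sp k) (t k) + (dξ (sp k) (t k) + ξ (sp k) (t k) *
      (κr (sp k) (t k) + lam k (t k))))) +
      ∑ p ∈ prs r, a (sp p.1) (sp p.2) (t p.1) (t p.2) =
    ∑ b, (∫ s, ρ b s * r1 b s) + ∑ k, Cv ρ ξ κr r1 a (sp k) (t k) + nuQ sp ρ a t +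
      ∑ k, ξ (sp k) (t k) * lam k (t k) := by
  have h1 := gasAlg hr sp (ρ := ρ) (ξ := ξ) (dξ := dξ) (κr := κr)
    (g := fun b s => -(ξ b s * κr b s + smr ρ a b s)) (lam := lam) (a := a) has had
    (fun _ _ => rfl) hI1 hI2 hE t
  have h2 : ∑ b, (∫ u, ρ b u * (-(ξ b u * κr b u + smr ρ a b u))) = ∑ b, ∫ u, ρ b u * r1 b u := by
    refine Finset.sum_congr rfl fun b _ => ?_
    refine integral_congr_ae (Filter.Eventually.of_forall fun s => ?_)
    have := hC b s
    simp only [Cv] at this
    simp only []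
    linear_combination -this
  have h3 : ∑ k, Cv ρ ξ κr r1 a (sp k) (t k) = ∑ k, r1 (sp k) (t k) -
      ∑ k, (-(ξ (sp k) (t k) * κr (sp k) (t k) + smr ρ a (sp k) (t k))) := by
    rw [← Finset.sum_sub_distrib]
    exact Finset.sum_congr rfl fun k _ => by simp only [Cv]; ring
  rw [Finset.sum_add_distrib, add_assoc, h1, h3]
  unfold nuL
  rw [h2]
  ring

/-! ### linearity and products -/

/-- integrability of a kernel against the densities -/
structure QI (ρ : S → ℝ → ℂ) (a : S → S → ℝ → ℝ → ℂ) : Prop where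
  one : ∀ b c s, Integrable fun u => a b c s u * ρ c u
  two : ∀ b, Integrable fun s => ρ b s * smr ρ a b s

theorem smr_add {ρ : S → ℝ → ℂ} {a a' : S → S → ℝ → ℝ → ℂ}
    (h : ∀ b c s, Integrable fun u => a b c s u * ρ c u)
    (h' : ∀ b c s, Integrable fun u => a' b c s u * ρ c u) (b : S) (s : ℝ) :
    smr ρ (fun b c s u => a b c s u + a' b c s u) b s = smr ρ a b s + smr ρ a' b s := by
  unfold smr
  rw [← Finset.sum_add_distrib]
  refine Finset.sum_congr rfl fun c _ => ?_
  rw [← integral_add (h b c s) (h' b c s)]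
  refine integral_congr_ae (Filter.Eventually.of_forall fun u => ?_)
  simp only []
  ring

theorem smr_smul {ρ : S → ℝ → ℂ} {a : S → S → ℝ → ℝ → ℂ} (x : ℂ) (b : S) (s : ℝ) :
    smr ρ (fun b c s u => x * a b c s u) b s = x * smr ρ a b s := by
  unfold smr
  rw [Finset.mul_sum]
  refine Finset.sum_congr rfl fun c _ => ?_
  rw [← integral_const_mul]
  refine integral_congr_ae (Filter.Eventually.of_forall fun u => ?_)
  simp only []
  ring

theorem QI.add {ρ : S → ℝ → ℂ} {a a' : S → S → ℝ → ℝ → ℂ} (h : QI ρ a) (h' : QI ρ a') :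
    QI ρ (fun b c s u => a b c s u + a' b c s u) where
  one b c s := ((h.one b c s).add (h'.one b c s)).congr
    (Filter.Eventually.of_forall fun u => by simp only [Pi.add_apply]; ring)
  two b := ((h.two b).add (h'.two b)).congr (Filter.Eventually.of_forall fun s => by
    simp only [Pi.add_apply, smr_add h.one h'.one]; ring)

theorem QI.smul {ρ : S → ℝ → ℂ} {a : S → S → ℝ → ℝ → ℂ} (h : QI ρ a) (x : ℂ) :
    QI ρ (fun b c s u => x * a b c s u) where
  one b c s := ((h.one b c s).const_mul x).congr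
    (Filter.Eventually.of_forall fun u => by simp only []; ring)
  two b := ((h.two b).const_mul x).congr (Filter.Eventually.of_forall fun s => by
    simp only [smr_smul]; ring)

theorem nuQ_add (sp : ι → S) {ρ : S → ℝ → ℂ} {a a' : S → S → ℝ → ℝ → ℂ} (h : QI ρ a)
    (h' : QI ρ a') (t : ι → ℝ) :
    nuQ sp ρ (fun b c s u => a b c s u + a' b c s u) t = nuQ sp ρ a t + nuQ sp ρ a' t := by
  have h1 : dbl ρ (fun b c s u => a b c s u + a' b c s u) = dbl ρ a + dbl ρ a' := by
    unfold dbl
    rw [← Finset.sum_add_distrib]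
    refine Finset.sum_congr rfl fun b _ => ?_
    rw [← integral_add (h.two b) (h'.two b)]
    refine integral_congr_ae (Filter.Eventually.of_forall fun u => ?_)
    simp only [smr_add h.one h'.one]
    ring
  unfold nuQ
  rw [h1]
  simp only [smr_add h.one h'.one, Finset.sum_add_distrib]
  ring

theorem nuQ_smul (sp : ι → S) {ρ : S → ℝ → ℂ} {a : S → S → ℝ → ℝ → ℂ} (x : ℂ) (t : ι → ℝ) :
    nuQ sp ρ (fun b c s u => x * a b c s u) t = x * nuQ sp ρ a t := by
  have h1 : dbl ρ (fun b c s u => x * a b c s u) = x * dbl ρ a := by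
    unfold dbl
    rw [Finset.mul_sum]
    refine Finset.sum_congr rfl fun b _ => ?_
    rw [← integral_const_mul]
    refine integral_congr_ae (Filter.Eventually.of_forall fun u => ?_)
    simp only [smr_smul]
    ring
  unfold nuQ
  rw [h1]
  simp only [smr_smul, ← Finset.mul_sum]
  ring

theorem smr_prod {ρ : S → ℝ → ℂ} (f g : S → ℝ → ℂ) (hf : ∀ b, Integrable fun u => ρ b u * f b u)
    (hg : ∀ b, Integrable fun u => ρ b u * g b u) (b : S) (s : ℝ) :
    smr ρ (fun b c s u => f b s * g c u + g b s * f c u) b s =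
      f b s * ∑ c, (∫ u, ρ c u * g c u) + g b s * ∑ c, ∫ u, ρ c u * f c u := by
  unfold smr
  rw [Finset.mul_sum, Finset.mul_sum, ← Finset.sum_add_distrib]
  refine Finset.sum_congr rfl fun c _ => ?_
  rw [← integral_const_mul, ← integral_const_mul,
    ← integral_add ((hg c).const_mul _) ((hf c).const_mul _)]
  refine integral_congr_ae (Filter.Eventually.of_forall fun u => ?_)
  simp only []
  ring

theorem QI.prod {ρ : S → ℝ → ℂ} {f g : S → ℝ → ℂ} (hf : ∀ b, Integrable fun u => ρ b u * f b u)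
    (hg : ∀ b, Integrable fun u => ρ b u * g b u) :
    QI ρ (fun b c s u => f b s * g c u + g b s * f c u) where
  one b c s := (((hg c).const_mul (f b s)).add ((hf c).const_mul (g b s))).congr
    (Filter.Eventually.of_forall fun u => by simp only [Pi.add_apply]; ring)
  two b := (((hf b).mul_const (∑ c, ∫ u, ρ c u * g c u)).add
    ((hg b).mul_const (∑ c, ∫ u, ρ c u * f c u))).congr (Filter.Eventually.of_forall fun s => by
      simp only [Pi.add_apply, smr_prod f g hf hg]; ring)

/-- product kernels -/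
theorem nuQ_prod (sp : ι → S) {ρ : S → ℝ → ℂ} {f g : S → ℝ → ℂ}
    (hf : ∀ b, Integrable fun u => ρ b u * f b u) (hg : ∀ b, Integrable fun u => ρ b u * g b u)
    (t : ι → ℝ) :
    nuQ sp ρ (fun b c s u => f b s * g c u + g b s * f c u) t = nuL sp ρ f t * nuL sp ρ g t := by
  have h1 : dbl ρ (fun b c s u => f b s * g c u + g b s * f c u) =
      2 * ((∑ c, ∫ u, ρ c u * g c u) * ∑ c, ∫ u, ρ c u * f c u) := by
    unfold dbl
    have e : ∀ b, ∫ s, ρ b s * smr ρ (fun b c s u => f b s * g c u + g b s * f c u) b s =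
        (∫ s, ρ b s * f b s) * (∑ c, ∫ u, ρ c u * g c u) +
          (∫ s, ρ b s * g b s) * ∑ c, ∫ u, ρ c u * f c u := by
      intro b
      rw [← integral_mul_const, ← integral_mul_const,
        ← integral_add ((hf b).mul_const _) ((hg b).mul_const _)]
      refine integral_congr_ae (Filter.Eventually.of_forall fun u => ?_)
      simp only [smr_prod f g hf hg]
      ring
    simp only [e]
    rw [Finset.sum_add_distrib, ← Finset.sum_mul, ← Finset.sum_mul]
    ring
  have h2 : ∑ i, ∑ j, (f (sp i) (t i) * g (sp j) (t j) + g (sp i) (t i) * f (sp j) (t j)) =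
      2 * ((∑ i, f (sp i) (t i)) * ∑ i, g (sp i) (t i)) := by
    have e1 : ∑ i, ∑ j, f (sp i) (t i) * g (sp j) (t j) =
        (∑ i, f (sp i) (t i)) * ∑ i, g (sp i) (t i) := by
      rw [Finset.sum_mul_sum]
    have e2 : ∑ i, ∑ j, g (sp i) (t i) * f (sp j) (t j) =
        (∑ i, g (sp i) (t i)) * ∑ i, f (sp i) (t i) := by
      rw [Finset.sum_mul_sum]
    simp only [Finset.sum_add_distrib]
    rw [e1, e2]
    ring
  unfold nuQ nuL
  rw [h1, h2]
  simp only [smr_prod f g hf hg, Finset.sum_add_distrib, ← Finset.sum_mul]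
  ring

theorem nuQ_sq (sp : ι → S) {ρ : S → ℝ → ℂ} {f : S → ℝ → ℂ}
    (hf : ∀ b, Integrable fun u => ρ b u * f b u) (t : ι → ℝ) :
    nuQ sp ρ (fun b c s u => f b s * f c u) t = (1 / 2) * (nuL sp ρ f t * nuL sp ρ f t) := by
  rw [← nuQ_prod sp hf hf t, ← nuQ_smul]
  congr 1
  funext b c s u
  ring

theorem QI.sq {ρ : S → ℝ → ℂ} {f : S → ℝ → ℂ} (hf : ∀ b, Integrable fun u => ρ b u * f b u) :
    QI ρ (fun b c s u => f b s * f c u) := by
  have h := (QI.prod hf hf).smul (1 / 2)
  have e : (fun (b c : S) (s u : ℝ) => (1 / 2 : ℂ) * (f b s * f c u + f b s * f c u)) =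
      fun b c s u => f b s * f c u := by
    funext b c s u
    ring
  rwa [e] at h

/-! ### objects -/

/-- the kernel restricted to the kinds in `A` -/
def rA (A : S → Prop) (a : S → S → ℝ → ℝ → ℂ) (b c : S) (s u : ℝ) : ℂ :=
  if A b ∧ A c then a b c s u else 0

/-- **quanta-quanta, object-quanta and object-object parts** -/
theorem nuQ_obj (sp : ι → S) {ρ : S → ℝ → ℂ} {a : S → S → ℝ → ℝ → ℂ} (A : S → Prop)
    (hρ : ∀ b, ¬ A b → ∀ u, ρ b u = 0) (has : ∀ b c s t, a b c s t = a c b t s) (t : ι → ℝ) :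
    nuQ sp ρ a t = nuQ sp ρ (rA A a) t +
      ∑ i ∈ univ.filter (fun i => ¬ A (sp i)),
        nuL sp ρ (fun c u => if A c then a (sp i) c (t i) u else 0) t +
      (1 / 2) * ∑ i ∈ univ.filter (fun i => ¬ A (sp i)), ∑ j ∈ univ.filter (fun i => ¬ A (sp i)),
        a (sp i) (sp j) (t i) (t j) := by
  have hs : ∀ b s, A b → smr ρ a b s = smr ρ (rA A a) b s := by
    intro b s hb
    unfold smr
    refine Finset.sum_congr rfl fun c _ => ?_
    refine integral_congr_ae (Filter.Eventually.of_forall fun u => ?_)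
    simp only [rA]
    by_cases hc : A c
    · simp [hb, hc]
    · simp [hρ c hc]
  have hs0 : ∀ b s, ¬ A b → smr ρ (rA A a) b s = 0 := by
    intro b s hb
    unfold smr
    refine Finset.sum_eq_zero fun c _ => ?_
    simp [rA, hb]
  have hd : dbl ρ a = dbl ρ (rA A a) := by
    unfold dbl
    refine Finset.sum_congr rfl fun b _ => ?_
    by_cases hb : A b
    · simp only [hs _ _ hb]
    · simp [hρ b hb]
  -- the sums
  have e1 : ∑ i, smr ρ a (sp i) (t i) = ∑ i, smr ρ (rA A a) (sp i) (t i) +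
      ∑ i ∈ univ.filter (fun i => ¬ A (sp i)), smr ρ a (sp i) (t i) := by
    rw [Finset.sum_filter, ← Finset.sum_add_distrib]
    refine Finset.sum_congr rfl fun i _ => ?_
    by_cases hi : A (sp i)
    · simp [hi, hs _ _ hi]
    · simp [hi, hs0 _ _ hi]
  have e2 : ∑ i ∈ univ.filter (fun i => ¬ A (sp i)),
        nuL sp ρ (fun c u => if A c then a (sp i) c (t i) u else 0) t =
      ∑ i ∈ univ.filter (fun i => ¬ A (sp i)), ∑ j, (if A (sp j) then a (sp i) (sp j) (t i) (t j)
        else 0) - ∑ i ∈ univ.filter (fun i => ¬ A (sp i)), smr ρ a (sp i) (t i) := by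
    rw [← Finset.sum_sub_distrib]
    refine Finset.sum_congr rfl fun i _ => ?_
    unfold nuL smr
    congr 1
    refine Finset.sum_congr rfl fun c _ => ?_
    refine integral_congr_ae (Filter.Eventually.of_forall fun u => ?_)
    simp only []
    by_cases hc : A c
    · simp [hc, mul_comm]
    · simp [hρ c hc]
  have e3 : ∑ i, ∑ j, a (sp i) (sp j) (t i) (t j) = ∑ i, ∑ j, rA A a (sp i) (sp j) (t i) (t j) +
      2 * ∑ i ∈ univ.filter (fun i => ¬ A (sp i)), ∑ j, (if A (sp j) then
        a (sp i) (sp j) (t i) (t j) else 0) +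
      ∑ i ∈ univ.filter (fun i => ¬ A (sp i)), ∑ j ∈ univ.filter (fun i => ¬ A (sp i)),
        a (sp i) (sp j) (t i) (t j) := by
    have f1 : ∑ i ∈ univ.filter (fun i => ¬ A (sp i)), ∑ j, (if A (sp j) then
        a (sp i) (sp j) (t i) (t j) else 0) =
        ∑ i, ∑ j, (if ¬ A (sp i) ∧ A (sp j) then a (sp i) (sp j) (t i) (t j) else 0) := by
      rw [Finset.sum_filter]
      refine Finset.sum_congr rfl fun i _ => ?_
      by_cases hi : A (sp i) <;> simp [hi]
    have f2 : ∑ i, ∑ j, (if ¬ A (sp i) ∧ A (sp j) then a (sp i) (sp j) (t i) (t j) else 0) =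
        ∑ i, ∑ j, (if A (sp i) ∧ ¬ A (sp j) then a (sp i) (sp j) (t i) (t j) else 0) := by
      rw [Finset.sum_comm]
      refine Finset.sum_congr rfl fun i _ => Finset.sum_congr rfl fun j _ => ?_
      rw [has (sp j) (sp i) (t j) (t i)]
      by_cases hi : A (sp i) <;> by_cases hj : A (sp j) <;> simp [hi, hj]
    have f3 : ∑ i ∈ univ.filter (fun i => ¬ A (sp i)), ∑ j ∈ univ.filter (fun i => ¬ A (sp i)),
        a (sp i) (sp j) (t i) (t j) =
        ∑ i, ∑ j, (if ¬ A (sp i) ∧ ¬ A (sp j) then a (sp i) (sp j) (t i) (t j) else 0) := by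
      rw [Finset.sum_filter]
      refine Finset.sum_congr rfl fun i _ => ?_
      rw [Finset.sum_filter]
      by_cases hi : A (sp i) <;> simp [hi]
    rw [two_mul, f1]
    nth_rewrite 2 [f2]
    rw [f3]
    simp only [← Finset.sum_add_distrib]
    refine Finset.sum_congr rfl fun i _ => Finset.sum_congr rfl fun j _ => ?_
    simp only [rA]
    by_cases hi : A (sp i) <;> by_cases hj : A (sp j) <;> simp [hi, hj]
  unfold nuQ
  rw [hd, e1, e2, e3]
  ring

end N1

end PB

end
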