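import Pool.Agent.PB.ZeroR

/-!
# Zeros at generic rows, limits along the generic rows only (helper71)

`D x y` is analytic in `x ∈ Ω` for generic rows `y ∈ S`, and `D x y → D x₀ c` when `x → x₀`,
`y → c` in `S`.  Then `D · c` is analytic on `Ω`, and if `D` vanishes at each row for generic rows,
`D x c = (∏ j, (x - c j)) * Q x`, `Q` analytic on `Ω`.
-/

set_option autoImplicit false

noncomputable section

open Complex Set Filter Topology Metric

namespace Pool.Agent.PB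

variable {ι : Type*}

/-- the limit function is continuous, and the convergence is locally uniform -/
theorem unif_of_joint {Y : Type*} {F : Filter Y} [F.NeBot] {Ω : Set ℂ} {D : ℂ → Y → ℂ} {D0 : ℂ → ℂ}
    (hcont : ∀ x ∈ Ω, Tendsto (fun p : ℂ × Y => D p.1 p.2) (𝓝 x ×ˢ F) (𝓝 (D0 x))) (hΩ : IsOpen Ω) :
    TendstoLocallyUniformlyOn (fun y x => D x y) D0 F Ω := by
  rw [Metric.tendstoLocallyUniformlyOn_iff]
  intro ε hε x hx
  have h1 := (Metric.tendsto_nhds.1 (hcont x hx)) (ε / 3) (by positivity)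
  obtain ⟨s, hs, t, ht, hst⟩ := Filter.eventually_prod_iff.1 h1
  -- nearby limits
  have h2' : ∀ᶠ x' in 𝓝 x, x' ∈ Ω := hΩ.mem_nhds hx
  have h2 : ∀ᶠ x' in 𝓝 x, x' ∈ Ω ∧ s x' := h2'.and hs
  refine ⟨{x' | x' ∈ Ω ∧ s x'}, mem_nhdsWithin_of_mem_nhds h2, ?_⟩
  filter_upwards [ht] with y hy x' hx'
  have h3 : Tendsto (fun y => D x' y) F (𝓝 (D0 x')) := by
    have h4 : Tendsto (fun y : Y => ((x', y) : ℂ × Y)) F (𝓝 x' ×ˢ F) :=
      tendsto_const_nhds.prodMk tendsto_id
    exact (hcont x' hx'.1).comp h4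
  have h5 : dist (D0 x') (D0 x) ≤ ε / 3 := by
    have h6 : Tendsto (fun y => dist (D x' y) (D0 x)) F (𝓝 (dist (D0 x') (D0 x))) :=
      h3.dist tendsto_const_nhds
    refine le_of_tendsto h6 ?_
    filter_upwards [ht] with y hy
    exact (hst hx'.2 hy).le
  have h7 : dist (D x' y) (D0 x) < ε / 3 := hst hx'.2 hy
  calc dist (D0 x') (D x' y) ≤ dist (D0 x') (D0 x) + dist (D0 x) (D x' y) := dist_triangle _ _ _
    _ < ε := by
        rw [dist_comm (D0 x) (D x' y)]
        linarith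

/-- the limit of analytic functions along a joint limit -/
theorem diff_of_joint {Y : Type*} {F : Filter Y} [F.NeBot] {Ω : Set ℂ} {D : ℂ → Y → ℂ} {D0 : ℂ → ℂ}
    (hcont : ∀ x ∈ Ω, Tendsto (fun p : ℂ × Y => D p.1 p.2) (𝓝 x ×ˢ F) (𝓝 (D0 x))) (hΩ : IsOpen Ω)
    (hD : ∀ᶠ y in F, DifferentiableOn ℂ (fun x => D x y) Ω) : DifferentiableOn ℂ D0 Ω :=
  (unif_of_joint hcont hΩ).differentiableOn hD hΩ

/-- **zeros at generic rows, joint limits along the generic rows** -/
theorem zero_rowsW [Fintype ι] {Ω U : Set ℂ} (hΩ : IsOpen Ω) (hU : IsOpen U)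
    (hUb : Bornology.IsBounded U) (hUΩ : closure U ⊆ Ω) {c : ι → ℂ} (hcU : ∀ j, c j ∈ U) {S : Set (ι → ℂ)}
    (h0 : c ∈ closure S) (hinj : ∀ y ∈ S, Function.Injective y) {D : ℂ → (ι → ℂ) → ℂ}
    (hD : ∀ y ∈ S, DifferentiableOn ℂ (fun x => D x y) Ω)
    (hcont : ∀ x ∈ Ω, Tendsto (fun p : ℂ × (ι → ℂ) => D p.1 p.2) (𝓝 x ×ˢ 𝓝[S] c) (𝓝 (D x c)))
    (hz : ∀ᶠ y in 𝓝[S] c, ∀ j, D (y j) y = 0) :
    DifferentiableOn ℂ (fun x => D x c) Ω ∧
      ∃ Q : ℂ → ℂ, DifferentiableOn ℂ Q Ω ∧ ∀ x, D x c = (∏ j, (x - c j)) * Q x := by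
  classical
  have hne : (𝓝[S] c).NeBot := mem_closure_iff_nhdsWithin_neBot.1 h0
  have hDc : DifferentiableOn ℂ (fun x => D x c) Ω :=
    diff_of_joint hcont hΩ (eventually_nhdsWithin_of_forall hD)
  refine ⟨hDc, ?_⟩
  -- the function with the value `D x c` off the generic rows
  set D' : ℂ → (ι → ℂ) → ℂ := fun x y => if y ∈ S then D x y else D x c with hD'
  have e1 : ∀ x, ∀ y ∈ S, D' x y = D x y := fun x y hy => by rw [hD']; exact if_pos hy
  have e2 : ∀ x, D' x c = D x c := fun x => by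
    rw [hD']
    simp only
    split_ifs <;> rfl
  have key := zero_rows hΩ hU hUb hUΩ hcU h0 hinj (D := D')
    (fun y hy => by
      have : (fun x => D' x y) = fun x => D x y := funext fun x => e1 x y hy
      rw [this]
      exact hD y hy)
    (by
      have : (fun x => D' x c) = fun x => D x c := funext e2
      rw [this]
      exact hDc)
    (fun x hx => by
      show Tendsto (Function.uncurry D') (𝓝 (x, c)) (𝓝 (Function.uncurry D' (x, c)))
      have e3 : Function.uncurry D' (x, c) = D x c := e2 x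
      rw [e3, Metric.tendsto_nhds]
      intro ε hε
      have hxΩ := hUΩ hx
      have h1 := (Metric.tendsto_nhds.1 (hcont x hxΩ)) ε hε
      obtain ⟨s, hs, t, ht, hst⟩ := Filter.eventually_prod_iff.1 h1
      have h2 : ∀ᶠ x' in 𝓝 x, dist (D x' c) (D x c) < ε :=
        (Metric.tendsto_nhds.1 ((hDc.differentiableAt (hΩ.mem_nhds hxΩ)).continuousAt)) ε hε
      rw [nhds_prod_eq, Filter.eventually_prod_iff]
      refine ⟨fun x' => s x' ∧ dist (D x' c) (D x c) < ε, hs.and h2, fun y => y ∈ S → t y,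
        eventually_nhdsWithin_iff.1 ht, fun {x'} hx' {y} hy => ?_⟩
      show dist (D' x' y) (D x c) < ε
      by_cases hyS : y ∈ S
      · rw [e1 x' y hyS]
        exact hst hx'.1 (hy hyS)
      · have : D' x' y = D x' c := by rw [hD']; exact if_neg hyS
        rw [this]
        exact hx'.2)
    (by
      filter_upwards [hz, self_mem_nhdsWithin] with y hy hyS j
      rw [e1 _ y hyS]
      exact hy j)
  obtain ⟨Q, hQ, hfQ⟩ := key
  exact ⟨Q, hQ, fun x => by rw [← e2]; exact hfQ x⟩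

end Pool.Agent.PB

end
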