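import Pool.Agent.PB.NzB
import Pool.Agent.PB.ZeroW
import Pool.Agent.PB.ExMix2
import Pool.Agent.NUP1L.Link4

/-!
# The dislocated function at all rows (helper71)

`nz z x y` : legs at `z` (both), rows `x`, `y` with `|Re| ≤ l / 2` (they may coincide).

* `nz_gen` : pairwise different heights: the normalised sum over the states;
* `nz_tendsto` : joint continuity in `z` and the rows, `- 7 l / 5 < Re z < 43 l / 10`;
* `nz_diff` : analyticity in `z`;
* **`nz_leg`** : `nz (x₀ + 3 l) (x₀, x) (x₀, y) = nz x₀ x y`, all rows;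
* `nz_perm` : the order of the rows is irrelevant.
-/

set_option autoImplicit false
set_option linter.unusedSectionVars false

noncomputable section

open Complex Filter Topology

namespace Pool.Agent.PB

open NUP1 (l lpos St sta sw pr qu nq crq)
open PBX (DZ Lg Rws SpA pull K3 DZ_eq DZ_tendsto Lg_SpA pull_ne pull_re pull_Rws pull_tendsto)

variable {m : ℕ}

theorem cn_cc (m : ℕ) : cn m = NUP1.Leg.cc m := rfl

/-- **the dislocated function, legs at `z`, all rows** -/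
def nz (z : ℂ) (x y : Fin m → ℂ) : ℂ :=
  Pf z x y * ∑ n ∈ Finset.range (2 * m + 1), DZ (cn m) (cn m) (Lg z z) (Lg z z) x y n

/-! ### the sum over the states -/

theorem Lg_dg (z u : ℂ) : Lg z z u = -dg z u := by
  unfold PBX.Lg dg
  rw [show z - u - 3 * (l : ℂ) = -(u - z + 3 * l) by ring, Complex.sin_neg, neg_div]

theorem hr_Lg (c z : ℂ) (x y : Fin m → ℂ) :
    (fun u => NUP1.Leg.hr c x y u * Lg z z u) = hD (-c) z x y := by
  funext u
  rw [Lg_dg]
  unfold NUP1.Leg.hr hD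
  ring

theorem DS_bridge (c c' z : ℂ) (x y : Fin m → ℂ) (n : ℕ) :
    PBX.DS c c' (Lg z z) (Lg z z) x y n = DS n x y (hD c z x y) (hD c' z y x) := by
  unfold PBX.DS
  rw [hr_Lg, hr_Lg]
  exact DS_neg n c c' z x y

theorem sumDS (c c' z : ℂ) (x y : Fin m → ℂ) :
    ∑ n ∈ Finset.range (2 * m + 1), PBX.DS c c' (Lg z z) (Lg z z) x y n = DT c c' z x y :=
  Finset.sum_congr rfl fun n _ => DS_bridge c c' z x y n

/-- the strip of the legs -/
def LS : Set ℂ := {z | -(7 / 5 * l) < z.re ∧ z.re < 43 / 10 * l}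

theorem LS_open : IsOpen LS :=
  (isOpen_lt continuous_const Complex.continuous_re).inter
    (isOpen_lt Complex.continuous_re continuous_const)

/-- pairwise different heights -/
def Hgt (x : Fin m → ℂ) : Prop := ∀ i j, i ≠ j → (x i).im ≠ (x j).im

theorem nz_gen {z : ℂ} {x y : Fin m → ℂ} (hz : z ∈ LS) (hx : Rws x) (hy : Rws y) (ix : Hgt x)
    (iy : Hgt y) : nz z x y = Pf z x y * DT (cn m) (cn m) z x y := by
  unfold nz
  rw [← sumDS]
  congr 1
  exact Finset.sum_congr rfl fun n _ => DZ_eq ix iy hx hy (Lg_SpA hz.1 hz.2) (Lg_SpA hz.1 hz.2) n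

/-! ### rows and legs in the strips -/

theorem sub_re_le {a b : ℂ} (ha : |a.re| ≤ l / 2) (hb : |b.re| ≤ l / 2) : |(a - b).re| ≤ l := by
  rw [sub_re]
  obtain ⟨h1, h2⟩ := abs_le.1 ha
  obtain ⟨h3, h4⟩ := abs_le.1 hb
  rw [abs_le]
  constructor <;> linarith

theorem Rws.dist {M : ℕ} {x : Fin m → ℂ} {y : Fin M → ℂ} (hx : Rws x) (hy : Rws y) (i : Fin m)
    (j : Fin M) : |(x i - y j).re| < 5 * l := by
  have := sub_re_le (hx i) (hy j)
  have := lpos
  linarith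

theorem Rws.narZ {x : Fin m → ℂ} (hx : Rws x) {z : ℂ} (hz : z ∈ LS) : NarZ z x := by
  intro i
  have hl := lpos
  obtain ⟨h1, h2⟩ := hz
  obtain ⟨h3, h4⟩ := abs_le.1 (hx i)
  rw [sub_re, abs_lt]
  constructor <;> linarith

/-! ### bound of the leg factor -/

theorem nsin (w : ℂ) : ‖sin w‖ ^ 2 = Real.sin w.re ^ 2 + Real.sinh w.im ^ 2 := by
  have h : sin w = ((Real.sin w.re * Real.cosh w.im : ℝ) : ℂ) +
      ((Real.cos w.re * Real.sinh w.im : ℝ) : ℂ) * I := by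
    conv_lhs => rw [← re_add_im w]
    rw [Complex.sin_add_mul_I]
    push_cast
    ring
  rw [h, ← Complex.normSq_eq_norm_sq, Complex.normSq_add_mul_I]
  have h1 := Real.cosh_sq w.im
  have h2 := Real.sin_sq_add_cos_sq w.re
  nlinarith [h1, h2]

theorem ncos (w : ℂ) : ‖cos w‖ ^ 2 = Real.cos w.re ^ 2 + Real.sinh w.im ^ 2 := by
  have h : cos w = ((Real.cos w.re * Real.cosh w.im : ℝ) : ℂ) -
      ((Real.sin w.re * Real.sinh w.im : ℝ) : ℂ) * I := by
    conv_lhs => rw [← re_add_im w]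
    rw [Complex.cos_add_mul_I]
    push_cast
    ring
  have e : cos w = ((Real.cos w.re * Real.cosh w.im : ℝ) : ℂ) +
      ((-(Real.sin w.re * Real.sinh w.im) : ℝ) : ℂ) * I := by
    rw [h]
    push_cast
    ring
  rw [e, ← Complex.normSq_eq_norm_sq, Complex.normSq_add_mul_I]
  have h1 := Real.cosh_sq w.im
  have h2 := Real.sin_sq_add_cos_sq w.re
  nlinarith [h1, h2]

theorem Lg_norm {z u : ℂ} {ε : ℝ} (hε : 0 < ε) (h : ε ≤ Real.sin (z.re - u.re + 2 * l)) :
    ‖Lg z z u‖ ≤ 1 + 1 / ε := by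
  set w : ℂ := z - u + 2 * l with hw
  have hre : w.re = z.re - u.re + 2 * l := by rw [hw]; simp
  have hs0 : 0 < ‖sin w‖ := by
    rw [norm_pos_iff]
    intro h0
    have h1 := nsin w
    rw [h0, norm_zero, hre] at h1
    nlinarith [sq_nonneg (Real.sinh w.im), pow_pos (hε.trans_le h) 2]
  have hc : ‖cos w‖ ≤ 1 / ε * ‖sin w‖ := by
    have h1 := nsin w
    have h2 := ncos w
    rw [hre] at h1 h2
    have h3 : Real.sin (z.re - u.re + 2 * l) ≤ 1 := Real.sin_le_one _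
    have hε1 : ε ≤ 1 := h.trans h3
    have h4 : ‖cos w‖ ^ 2 ≤ (1 / ε * ‖sin w‖) ^ 2 := by
      rw [mul_pow, h1, h2, div_pow, one_pow, div_mul_eq_mul_div, one_mul, le_div_iff₀ (by positivity)]
      have h5 : ε ^ 2 ≤ Real.sin (z.re - u.re + 2 * l) ^ 2 := pow_le_pow_left₀ hε.le h 2
      have h6 : ε ^ 2 ≤ 1 := pow_le_one₀ hε.le hε1
      have h7 := Real.cos_sq_le_one (z.re - u.re + 2 * l)
      nlinarith [sq_nonneg (Real.sinh w.im), sq_nonneg (Real.cos (z.re - u.re + 2 * l)),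
        mul_le_mul_of_nonneg_left h6 (sq_nonneg (Real.sinh w.im)),
        mul_le_mul_of_nonneg_left h7 (sq_nonneg ε)]
    exact le_of_sq_le_sq h4 (by positivity)
  have e1 : Lg z z u = cos (5 * l) - sin (5 * l) * (cos w / sin w) := by
    unfold PBX.Lg
    rw [← hw, show z - u - 3 * (l : ℂ) = w - 5 * l by rw [hw]; ring, Complex.sin_sub]
    have : sin w ≠ 0 := norm_pos_iff.1 hs0
    field_simp
  have h5 : ‖cos (5 * (l : ℂ))‖ ≤ 1 ∧ ‖sin (5 * (l : ℂ))‖ ≤ 1 := by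
    have e5 : (5 * (l : ℂ)) = ((5 * l : ℝ) : ℂ) := by push_cast; ring
    rw [e5, ← Complex.ofReal_cos, ← Complex.ofReal_sin, Complex.norm_real, Complex.norm_real]
    exact ⟨Real.abs_cos_le_one _, Real.abs_sin_le_one _⟩
  rw [e1]
  have h6 : ‖cos w / sin w‖ ≤ 1 / ε := by
    rw [norm_div, div_le_iff₀ hs0]
    exact hc
  calc ‖cos (5 * (l : ℂ)) - sin (5 * l) * (cos w / sin w)‖ ≤
      ‖cos (5 * (l : ℂ))‖ + ‖sin (5 * (l : ℂ)) * (cos w / sin w)‖ := norm_sub_le _ _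
    _ ≤ 1 + 1 * (1 / ε) := by
        rw [norm_mul]
        exact add_le_add h5.1 (mul_le_mul h5.2 h6 (norm_nonneg _) zero_le_one)
    _ = 1 + 1 / ε := by ring

/-- positivity on the three lines -/
theorem K3_pos {z : ℂ} (hz : z ∈ LS) {r : ℝ} (hr : r ∈ K3) : 0 < Real.sin (z.re - r + 2 * l) := by
  have hl := lpos
  obtain ⟨h1, h2⟩ := hz
  simp only [PBX.K3, Set.mem_insert_iff, Set.mem_singleton_iff] at hr
  have h8 : 8 * l = Real.pi := by unfold NUP1.l; ring
  rcases hr with rfl | rfl | rfl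
  · exact Real.sin_pos_of_pos_of_lt_pi (by linarith) (by linarith)
  · exact Real.sin_pos_of_pos_of_lt_pi (by linarith) (by linarith)
  · exact Real.sin_pos_of_pos_of_lt_pi (by linarith) (by linarith)

/-- the leg factor is bounded on the three lines near a point of the strip -/
theorem Lg_unif {E : Type*} {F : Filter E} {z : E → ℂ} {z0 : ℂ} (tz : Tendsto z F (𝓝 z0))
    (hz : z0 ∈ LS) : ∃ D : ℝ, 0 ≤ D ∧ ∀ᶠ e in F, ∀ u : ℂ, u.re ∈ K3 → ‖Lg (z e) (z e) u‖ ≤ D := by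
  have key : ∀ r ∈ K3, ∃ ε : ℝ, 0 < ε ∧ ∀ᶠ e in F, ε ≤ Real.sin ((z e).re - r + 2 * l) := by
    intro r hr
    have h0 := K3_pos hz hr
    refine ⟨Real.sin (z0.re - r + 2 * l) / 2, by linarith, ?_⟩
    have t : Tendsto (fun e => Real.sin ((z e).re - r + 2 * l)) F
        (𝓝 (Real.sin (z0.re - r + 2 * l))) :=
      (Real.continuous_sin.tendsto _).comp
        ((((Complex.continuous_re.tendsto _).comp tz).sub_const _).add_const _)
    exact (t.eventually (lt_mem_nhds (a := Real.sin (z0.re - r + 2 * l) / 2) (by linarith))).mono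
      fun e he => he.le
  obtain ⟨e1, p1, h1⟩ := key (3 / 5 * l) (by simp [PBX.K3])
  obtain ⟨e2, p2, h2⟩ := key (-(17 / 10 * l)) (by simp [PBX.K3])
  obtain ⟨e3, p3, h3⟩ := key (-(17 / 10 * l) + l) (by simp [PBX.K3])
  refine ⟨(1 + 1 / e1) + (1 + 1 / e2) + (1 + 1 / e3), by positivity, ?_⟩
  filter_upwards [h1, h2, h3] with e g1 g2 g3 u hu
  have q1 : 0 < 1 + 1 / e1 := by positivity
  have q2 : 0 < 1 + 1 / e2 := by positivity
  have q3 : 0 < 1 + 1 / e3 := by positivity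
  simp only [PBX.K3, Set.mem_insert_iff, Set.mem_singleton_iff] at hu
  rcases hu with hu | hu | hu
  · exact (Lg_norm p1 (by rw [hu]; exact g1)).trans (by linarith)
  · exact (Lg_norm p2 (by rw [hu]; exact g2)).trans (by linarith)
  · exact (Lg_norm p3 (by rw [hu]; exact g3)).trans (by linarith)

theorem Lg_tendsto {E : Type*} {F : Filter E} {z : E → ℂ} {z0 : ℂ} (tz : Tendsto z F (𝓝 z0))
    (hz : z0 ∈ LS) {u : ℂ} (hu : u.re ∈ K3) :
    Tendsto (fun e => Lg (z e) (z e) u) F (𝓝 (Lg z0 z0 u)) := by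
  unfold PBX.Lg
  refine Tendsto.div (sin_tendsto ((tz.sub_const _).sub_const _))
    (sin_tendsto ((tz.sub_const _).add_const _)) ?_
  exact PBX.Lg_den (K3_pos hz hu).ne'

/-! ### joint continuity -/

theorem bd_im {E : Type*} {F : Filter E} {x : E → Fin m → ℂ} {x0 : Fin m → ℂ}
    (tx : ∀ i, Tendsto (fun e => x e i) F (𝓝 (x0 i))) :
    ∀ᶠ e in F, ∀ i, |(x e i).im| ≤ ∑ j, |(x0 j).im| + 1 := by
  rw [eventually_all]
  intro i
  have t : Tendsto (fun e => |(x e i).im|) F (𝓝 |(x0 i).im|) :=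
    ((Complex.continuous_im.tendsto _).comp (tx i)).abs
  have h : |(x0 i).im| < ∑ j, |(x0 j).im| + 1 := by
    have := PBX.im_le x0 i
    linarith
  exact (t.eventually (gt_mem_nhds h)).mono fun e he => he.le

theorem nz_tendsto {E : Type*} {F : Filter E} [F.IsCountablyGenerated] {z : E → ℂ}
    {x y : E → Fin m → ℂ} {z0 : ℂ} {x0 y0 : Fin m → ℂ} (tz : Tendsto z F (𝓝 z0))
    (tx : ∀ i, Tendsto (fun e => x e i) F (𝓝 (x0 i)))
    (ty : ∀ i, Tendsto (fun e => y e i) F (𝓝 (y0 i))) (hx : ∀ᶠ e in F, Rws (x e))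
    (hy : ∀ᶠ e in F, Rws (y e)) (hx0 : Rws x0) (hy0 : Rws y0) (hz : z0 ∈ LS) :
    Tendsto (fun e => nz (z e) (x e) (y e)) F (𝓝 (nz z0 x0 y0)) := by
  unfold nz
  refine Tendsto.mul (Pf_tendsto tz tx ty (fun i j => Rws.dist hx0 hx0 i j)
    (fun i j => Rws.dist hy0 hy0 i j) (fun i j => Rws.dist hx0 hy0 i j) (Rws.narZ hx0 hz)
    (Rws.narZ hy0 hz)) (tendsto_finsetSum _ fun n _ => ?_)
  obtain ⟨D, hD, hb⟩ := Lg_unif tz hz
  refine DZ_tendsto (R := (∑ j, |(x0 j).im| + 1) + (∑ j, |(y0 j).im| + 1)) (cn m) (cn m) ?_ hx0 hy0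
    tx ty hD ?_ (fun u hu => Lg_tendsto tz hz hu) (fun u hu => Lg_tendsto tz hz hu) n
  · filter_upwards [hx, hy, bd_im tx, bd_im ty] with e h1 h2 h3 h4
    have s1 : 0 ≤ ∑ j, |(x0 j).im| := Finset.sum_nonneg fun _ _ => abs_nonneg _
    have s2 : 0 ≤ ∑ j, |(y0 j).im| := Finset.sum_nonneg fun _ _ => abs_nonneg _
    exact ⟨h1, h2, fun i => (h3 i).trans (by linarith), fun i => (h4 i).trans (by linarith)⟩
  · filter_upwards [hb] with e he
    exact ⟨PBX.Lg_meas _ _, PBX.Lg_meas _ _, fun u hu => ⟨he u hu, he u hu⟩⟩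

/-! ### analyticity in the legs -/

theorem dg_diff {z u : ℂ} (h : sin (z - u + 2 * l) ≠ 0) :
    DifferentiableAt ℂ (fun z => dg z u) z := by
  unfold dg
  fun_prop (disch := exact h)

theorem hD_diff (c : ℂ) (x y : Fin m → ℂ) {z u : ℂ} (h : sin (z - u + 2 * l) ≠ 0) :
    DifferentiableAt ℂ (fun z => hD c z x y u) z := by
  unfold hD
  exact (dg_diff h).const_mul _

theorem den_row {z v : ℂ} (hz : z ∈ LS) (hv : |v.re| ≤ l / 2) :
    sin (z - v + 2 * l) ≠ 0 ∧ sin (z - (v - l) + 2 * l) ≠ 0 := by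
  have hl := lpos
  obtain ⟨h1, h2⟩ := hz
  obtain ⟨h3, h4⟩ := abs_le.1 hv
  have h8 : 8 * l = Real.pi := by unfold NUP1.l; ring
  constructor
  · refine PBX.Lg_den (Real.sin_pos_of_pos_of_lt_pi ?_ ?_).ne' <;> linarith
  · refine PBX.Lg_den (Real.sin_pos_of_pos_of_lt_pi ?_ ?_).ne' <;> simp <;> linarith

theorem sta_diff (c : ℂ) {x : Fin m → ℂ} (y : Fin m → ℂ) (a : Fin m → SignType) {z : ℂ}
    (hz : z ∈ LS) (hx : Rws x) : DifferentiableAt ℂ (fun z => sta x (hD c z x y) a) z := by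
  unfold NUP1.sta
  refine DifferentiableAt.mul_const (DifferentiableAt.fun_finsetProd fun i _ => ?_) _
  obtain ⟨k1, k2⟩ := den_row hz (hx i)
  have d1 := hD_diff c x y (u := x i) k1
  have d2 := hD_diff c x y (u := x i - l) k2
  rcases a i with _ | _ | _
  · exact d1
  · exact (d1.mul d2).const_mul _
  · exact differentiableAt_const _

theorem DT_diff (c c' : ℂ) {x y : Fin m → ℂ} {z : ℂ} (hz : z ∈ LS) (hx : Rws x) (hy : Rws y) :
    DifferentiableAt ℂ (fun z => DT c c' z x y) z := by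
  unfold DT DS
  refine DifferentiableAt.fun_sum fun n _ => DifferentiableAt.fun_sum fun a _ =>
    DifferentiableAt.fun_sum fun b _ => ?_
  exact ((sta_diff c y a hz hx).mul (sta_diff c' x b hz hy)).mul_const _

theorem pull_Hgt (x : Fin m → ℂ) : ∀ᶠ e in 𝓝[>] (0 : ℝ), Hgt (pull x e) := pull_ne x

/-- **analyticity in the legs** -/
theorem nz_diff {x y : Fin m → ℂ} (hx : Rws x) (hy : Rws y) :
    DifferentiableOn ℂ (fun z => nz z x y) LS := by
  refine diff_of_joint (F := 𝓝[>] (0 : ℝ)) (D := fun z e => nz z (pull x e) (pull y e))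
    (fun z hz => ?_) LS_open ?_
  · have t2 : ∀ (x : Fin m → ℂ) (i : Fin m), Tendsto (fun p : ℂ × ℝ => pull x p.2 i)
        (𝓝 z ×ˢ 𝓝[>] 0) (𝓝 (x i)) := fun x i => (pull_tendsto x i).comp tendsto_snd
    exact nz_tendsto (F := 𝓝 z ×ˢ 𝓝[>] (0 : ℝ)) (z := fun p => p.1) (x := fun p => pull x p.2)
      (y := fun p => pull y p.2) tendsto_fst (t2 x) (t2 y)
      (Eventually.of_forall fun p => pull_Rws hx p.2) (Eventually.of_forall fun p => pull_Rws hy p.2)
      hx hy hz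
  · filter_upwards [pull_Hgt x, pull_Hgt y] with e h1 h2
    have rx := pull_Rws hx e
    have ry := pull_Rws hy e
    have : DifferentiableOn ℂ (fun z => Pf z (pull x e) (pull y e) *
        DT (cn m) (cn m) z (pull x e) (pull y e)) LS := fun z hz =>
      ((Pf_diff (fun i j => Rws.dist rx rx i j) (fun i j => Rws.dist ry ry i j)
        (fun i j => Rws.dist rx ry i j) (Rws.narZ rx hz) (Rws.narZ ry hz)).mul
        (DT_diff (cn m) (cn m) hz rx ry)).differentiableWithinAt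
    exact this.congr fun z hz => nz_gen hz rx ry h1 h2

/-! ### the exact leg identity -/

theorem sin_hgt {a b : ℂ} (h : a.im ≠ b.im) : sin (a - b) ≠ 0 ∧ sin (a - l - b) ≠ 0 := by
  constructor
  · refine NUP1.sin_ne_im ?_
    rw [sub_im]
    exact sub_ne_zero.2 h
  · refine NUP1.sin_ne_im ?_
    rw [sub_im, sub_im, ofReal_im, sub_zero]
    exact sub_ne_zero.2 h

theorem Rws.tail {x0 : ℂ} {x : Fin m → ℂ} (h : Rws (Fin.cons x0 x : Fin (m + 1) → ℂ)) :
    |x0.re| ≤ l / 2 ∧ Rws x := ⟨by simpa using h 0, fun i => by simpa using h i.succ⟩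

theorem Rws.cons {x0 : ℂ} {x : Fin m → ℂ} (h0 : |x0.re| ≤ l / 2) (h : Rws x) :
    Rws (Fin.cons x0 x : Fin (m + 1) → ℂ) := by
  intro i
  refine Fin.cases ?_ (fun j => ?_) i
  · simpa using h0
  · simpa using h j

theorem mem_LS {z : ℂ} (h : |z.re| ≤ l / 2) : z ∈ LS := by
  have hl := lpos
  obtain ⟨h1, h2⟩ := abs_le.1 h
  constructor <;> linarith

theorem mem_LS3 {z : ℂ} (h : |z.re| ≤ l / 2) : z + 3 * l ∈ LS := by
  have hl := lpos
  obtain ⟨h1, h2⟩ := abs_le.1 h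
  have e : (z + 3 * (l : ℂ)).re = z.re + 3 * l := by simp
  constructor
  · show -(7 / 5 * l) < _
    rw [e]
    linarith
  · show (z + 3 * (l : ℂ)).re < _
    rw [e]
    linarith

/-- the exact leg identity, pairwise different heights -/
theorem nz_leg_gen {x0 : ℂ} {x y : Fin m → ℂ} (h0 : |x0.re| ≤ l / 2) (hx : Rws x) (hy : Rws y)
    (ix : Hgt (Fin.cons x0 x : Fin (m + 1) → ℂ)) (iy : Hgt (Fin.cons x0 y : Fin (m + 1) → ℂ)) :
    nz (x0 + 3 * l) (Fin.cons x0 x : Fin (m + 1) → ℂ) (Fin.cons x0 y : Fin (m + 1) → ℂ) =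
      nz x0 x y := by
  have ix' : Hgt x := fun i j hij => by
    simpa using ix i.succ j.succ fun h => hij (Fin.succ_injective _ h)
  have iy' : Hgt y := fun i j hij => by
    simpa using iy i.succ j.succ fun h => hij (Fin.succ_injective _ h)
  have kx : ∀ i, (x i).im ≠ x0.im := fun i => by simpa using ix i.succ 0 (Fin.succ_ne_zero i)
  have ky : ∀ i, (y i).im ≠ x0.im := fun i => by simpa using iy i.succ 0 (Fin.succ_ne_zero i)
  rw [nz_gen (mem_LS3 h0) (Rws.cons h0 hx) (Rws.cons h0 hy) ix iy, nz_gen (mem_LS h0) hx hy ix' iy',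
    cn_succ, DT_neg, DT_leg (cn m) (cn m) x0 (fun i => (sin_hgt (kx i)).1)
      (fun i => (sin_hgt (kx i)).2) (fun i => (sin_hgt (ky i)).1) (fun i => (sin_hgt (ky i)).2),
    Pf_leg (fun i => sub_re_le h0 (hx i)) fun i => sub_re_le h0 (hy i)]

theorem pull_cons (x0 : ℂ) (x : Fin m → ℂ) (e : ℝ) :
    pull (Fin.cons x0 x : Fin (m + 1) → ℂ) e =
      (Fin.cons x0 (fun i => pull (Fin.cons x0 x : Fin (m + 1) → ℂ) e i.succ) :
        Fin (m + 1) → ℂ) := by
  funext i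
  refine Fin.cases ?_ (fun j => ?_) i
  · simp [PBX.pull]
  · simp

/-- **The exact leg identity (A1), all rows.** -/
theorem nz_leg {x0 : ℂ} {x y : Fin m → ℂ} (h0 : |x0.re| ≤ l / 2) (hx : Rws x) (hy : Rws y) :
    nz (x0 + 3 * l) (Fin.cons x0 x : Fin (m + 1) → ℂ) (Fin.cons x0 y : Fin (m + 1) → ℂ) =
      nz x0 x y := by
  have rx := Rws.cons h0 hx
  have ry := Rws.cons h0 hy
  set px : ℝ → Fin m → ℂ := fun e i => pull (Fin.cons x0 x : Fin (m + 1) → ℂ) e i.succ with hpx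
  set py : ℝ → Fin m → ℂ := fun e i => pull (Fin.cons x0 y : Fin (m + 1) → ℂ) e i.succ with hpy
  have rpx : ∀ e, Rws (px e) := fun e i => pull_Rws rx e i.succ
  have rpy : ∀ e, Rws (py e) := fun e i => pull_Rws ry e i.succ
  have t1 : Tendsto (fun e => nz (x0 + 3 * l) (pull (Fin.cons x0 x : Fin (m + 1) → ℂ) e)
      (pull (Fin.cons x0 y : Fin (m + 1) → ℂ) e)) (𝓝[>] (0 : ℝ))
      (𝓝 (nz (x0 + 3 * l) (Fin.cons x0 x : Fin (m + 1) → ℂ) (Fin.cons x0 y : Fin (m + 1) → ℂ))) :=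
    nz_tendsto tendsto_const_nhds (pull_tendsto _) (pull_tendsto _)
      (Eventually.of_forall fun e => pull_Rws rx e) (Eventually.of_forall fun e => pull_Rws ry e)
      rx ry (mem_LS3 h0)
  have t2 : Tendsto (fun e => nz x0 (px e) (py e)) (𝓝[>] (0 : ℝ)) (𝓝 (nz x0 x y)) :=
    nz_tendsto tendsto_const_nhds
      (fun i => by simpa using pull_tendsto (Fin.cons x0 x : Fin (m + 1) → ℂ) i.succ)
      (fun i => by simpa using pull_tendsto (Fin.cons x0 y : Fin (m + 1) → ℂ) i.succ)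
      (Eventually.of_forall rpx) (Eventually.of_forall rpy) hx hy (mem_LS h0)
  refine tendsto_nhds_unique (t1.congr' ?_) t2
  filter_upwards [pull_Hgt (Fin.cons x0 x : Fin (m + 1) → ℂ),
    pull_Hgt (Fin.cons x0 y : Fin (m + 1) → ℂ)] with e h1 h2
  rw [pull_cons x0 x e] at h1 ⊢
  rw [pull_cons x0 y e] at h2 ⊢
  exact nz_leg_gen h0 (rpx e) (rpy e) h1 h2

/-! ### the order of the rows -/

theorem DZ_perm (c c' : ℂ) (s t : ℂ → ℂ) (x y : Fin m → ℂ) (n : ℕ) (σ τ : Equiv.Perm (Fin m)) :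
    DZ c c' s t (fun i => x (σ i)) (fun i => y (τ i)) n = DZ c c' s t x y n := by
  have key : ∀ (c : ℂ) (s : ℂ → ℂ) (x y : Fin m → ℂ) (σ τ : Equiv.Perm (Fin m)),
      PBX.GX c (4 / 3) (fun i => x (σ i)) (fun i => y (τ i)) (fun _ => 1) s =
        PBX.GX c (4 / 3) x y (fun _ => 1) s := by
    intro c s x y σ τ
    funext u
    unfold PBX.GX NURow.RR PBX.ph
    rw [Equiv.prod_comp σ fun i => 1 / sin (u - x i), Equiv.prod_comp σ fun i =>
      1 / sin (u - x i - 2 * l), Equiv.prod_comp τ fun j => sin (u - y j + 3 * l) ^ 2,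
      Equiv.prod_comp σ fun i => NUP1.psi (4 / 3) (u - x i)]
  unfold PBX.DZ
  rw [key c s x y σ τ, key c' t y x τ σ]

theorem nz_perm (z : ℂ) (x : Fin m → ℂ) (σ : Equiv.Perm (Fin m)) :
    nz z (fun i => x (σ i)) (fun i => x (σ i)) = nz z x x := by
  have e : ∀ n : ℕ, DZ (cn m) (cn m) (Lg z z) (Lg z z) (fun i => x (σ i)) (fun i => x (σ i)) n =
      DZ (cn m) (cn m) (Lg z z) (Lg z z) x x n := fun n =>
    DZ_perm (cn m) (cn m) (Lg z z) (Lg z z) x x n σ σ
  unfold nz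
  rw [Pf_perm]
  simp only [e]

end Pool.Agent.PB

end
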