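import Pool.Agent.PB.NzD

/-!
# The dislocated function `fN` (helper71)

`fN mu z` : legs at `z`, rows `mu` in both groups, `|Re mu_i| ≤ l / 2` (equal rows allowed).

* `nz_nh` : pairwise different heights: `nz z x y = PBS.nh z x y`; **`nz_neg`** : (A2);
* `fN_diff` : analytic for `|Re z| < 43 l / 10`; `fN_even`, `fN_perm`;
* **`fN_leg`**, `fN_leg'` : `fN (x, mu) (x ± 3 l) = fN mu x`;
* **`fN_zeros`** : `fN mu (z + 3 l) - fN mu (z - 3 l) = (∏ j, (z - mu j)) * Q z`, `|Re z| < 13 l / 10`.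
-/

set_option autoImplicit false
set_option linter.unusedSectionVars false

noncomputable section

open Complex Filter Topology

namespace Pool.Agent.PB

open NUP1 (l lpos)
open PBX (Rws pull pull_re pull_Rws pull_tendsto)

variable {m : ℕ}

/-! ### heights -/

theorem gn_im {w : ℂ} (h : w.im ≠ 0) : NUP1.Mu.Gn w := fun k => by
  refine NUP1.sin_ne_im ?_
  simpa using h

theorem gc_re {w : ℂ} (h : |w.re| ≤ l) : NUP1.Mu.Gc w := by
  intro k h2 h6
  have hl := lpos
  have h8 : 8 * l = Real.pi := by unfold NUP1.l; ring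
  obtain ⟨h3, h4⟩ := abs_le.1 h
  have k2 : (2 : ℝ) ≤ k := by exact_mod_cast h2
  have k6 : (k : ℝ) ≤ 6 := by exact_mod_cast h6
  refine NUP1.Bd.sin_ne_zero_of_re ?_
  have e : (w + (k : ℂ) * l).re = w.re + k * l := by simp
  rw [e]
  refine (Real.sin_pos_of_pos_of_lt_pi ?_ ?_).ne'
  · nlinarith
  · nlinarith

/-- pairwise different heights: the normalised state sum of helper4 -/
theorem nz_nh {z : ℂ} {x y : Fin m → ℂ} (hz : z ∈ LS) (hx : Rws x) (hy : Rws y) (ix : Hgt x)
    (iy : Hgt y) : nz z x y = PBS.nh z x y := by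
  rw [nz_gen hz hx hy ix iy, nh_eq]
  · exact fun i j hij => gn_im (by rw [sub_im]; exact sub_ne_zero.2 (ix i j hij))
  · exact fun i j hij => gn_im (by rw [sub_im]; exact sub_ne_zero.2 (iy i j hij))
  · exact fun i j => gc_re (sub_re_le (hx i) (hy j))
  · intro i
    obtain ⟨h1, h2⟩ := den_row hz (hx i)
    refine ⟨h1, ?_⟩
    rwa [show z - (x i - (l : ℂ)) + 2 * l = z - x i + 3 * l by ring] at h2
  · intro i
    obtain ⟨h1, h2⟩ := den_row hz (hy i)
    refine ⟨h1, ?_⟩
    rwa [show z - (y i - (l : ℂ)) + 2 * l = z - y i + 3 * l by ring] at h2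

theorem Rws.neg {x : Fin m → ℂ} (h : Rws x) : Rws (-x) := fun i => by
  rw [Pi.neg_apply, neg_re, abs_neg]
  exact h i

theorem Hgt.neg {x : Fin m → ℂ} (h : Hgt x) : Hgt (-x) := fun i j hij => by
  rw [Pi.neg_apply, Pi.neg_apply, neg_im, neg_im]
  exact fun h' => h i j hij (neg_injective h')

theorem mem_LS_neg {z : ℂ} (h : |z.re| < 7 / 5 * l) : z ∈ LS ∧ -z ∈ LS := by
  have hl := lpos
  obtain ⟨h1, h2⟩ := abs_lt.1 h
  refine ⟨⟨by linarith, by linarith⟩, ?_, ?_⟩
  · show -(7 / 5 * l) < (-z).re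
    rw [neg_re]
    linarith
  · show (-z).re < 43 / 10 * l
    rw [neg_re]
    linarith

/-- **(A2), all rows** -/
theorem nz_neg {z : ℂ} (hz : |z.re| < 7 / 5 * l) {x y : Fin m → ℂ} (hx : Rws x) (hy : Rws y) :
    nz (-z) (-x) (-y) = nz z x y := by
  obtain ⟨h1, h2⟩ := mem_LS_neg hz
  have t1 : Tendsto (fun e => nz (-z) (-pull x e) (-pull y e)) (𝓝[>] (0 : ℝ))
      (𝓝 (nz (-z) (-x) (-y))) :=
    nz_tendsto (x := fun e => -pull x e) (y := fun e => -pull y e) tendsto_const_nhds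
      (fun i => (pull_tendsto x i).neg) (fun i => (pull_tendsto y i).neg)
      (Eventually.of_forall fun e => Rws.neg (pull_Rws hx e))
      (Eventually.of_forall fun e => Rws.neg (pull_Rws hy e)) (Rws.neg hx) (Rws.neg hy) h2
  have t2 : Tendsto (fun e => nz z (pull x e) (pull y e)) (𝓝[>] (0 : ℝ)) (𝓝 (nz z x y)) :=
    nz_tendsto tendsto_const_nhds (pull_tendsto x) (pull_tendsto y)
      (Eventually.of_forall fun e => pull_Rws hx e) (Eventually.of_forall fun e => pull_Rws hy e)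
      hx hy h1
  refine tendsto_nhds_unique (t1.congr' ?_) t2
  filter_upwards [pull_Hgt x, pull_Hgt y] with e ex ey
  have rx := pull_Rws hx e
  have ry := pull_Rws hy e
  rw [nz_nh h2 (Rws.neg rx) (Rws.neg ry) (Hgt.neg ex) (Hgt.neg ey), nz_nh h1 rx ry ex ey,
    PBS.nh_neg]

/-! ### the function `fN` -/

/-- **the dislocated function**, legs at `z`, rows `mu` in both groups -/
def fN (mu : Fin m → ℂ) (z : ℂ) : ℂ := if 0 ≤ z.re then nz z mu mu else nz (-z) (-mu) (-mu)

theorem fN_right {mu : Fin m → ℂ} (hmu : Rws mu) {z : ℂ} (hz : z ∈ LS) : fN mu z = nz z mu mu := by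
  unfold fN
  split_ifs with h
  · rfl
  · have hl := lpos
    obtain ⟨h1, h2⟩ := hz
    rw [not_le] at h
    exact nz_neg (by rw [abs_lt]; constructor <;> linarith) hmu hmu

theorem fN_left {mu : Fin m → ℂ} (hmu : Rws mu) {z : ℂ} (hz : -z ∈ LS) :
    fN mu z = nz (-z) (-mu) (-mu) := by
  unfold fN
  split_ifs with h
  · have hl := lpos
    obtain ⟨h1, h2⟩ := hz
    have h3 : -(7 / 5 * l) < (-z).re := h1
    rw [neg_re] at h3
    exact (nz_neg (by rw [abs_lt]; constructor <;> linarith) hmu hmu).symm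
  · rfl

/-- **(A2)** -/
theorem fN_even {mu : Fin m → ℂ} (hmu : Rws mu) {z : ℂ} (hz : |z.re| < 43 / 10 * l) :
    fN (-mu) (-z) = fN mu z := by
  have hl := lpos
  obtain ⟨h1, h2⟩ := abs_lt.1 hz
  rcases le_or_gt 0 z.re with h | h
  · rw [fN_right hmu (z := z) ⟨by linarith, h2⟩, fN_left (Rws.neg hmu) (z := -z)
      (by rw [neg_neg]; exact ⟨by linarith, h2⟩), neg_neg, neg_neg]
  · have h3 : -z ∈ LS := ⟨by rw [neg_re]; linarith, by rw [neg_re]; linarith⟩
    rw [fN_left hmu h3, fN_right (Rws.neg hmu) h3]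

/-- **analyticity of the dislocated function** -/
theorem fN_diff {mu : Fin m → ℂ} (hmu : Rws mu) :
    DifferentiableOn ℂ (fN mu) {z | |z.re| < 43 / 10 * l} := by
  have hl := lpos
  intro z hz
  obtain ⟨h1, h2⟩ := abs_lt.1 (show |z.re| < 43 / 10 * l from hz)
  refine DifferentiableAt.differentiableWithinAt ?_
  rcases le_or_gt 0 z.re with h | h
  · have hL : z ∈ LS := ⟨by linarith, h2⟩
    have d := (nz_diff hmu hmu).differentiableAt (LS_open.mem_nhds hL)
    refine d.congr_of_eventuallyEq ?_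
    filter_upwards [LS_open.mem_nhds hL] with w hw
    exact fN_right hmu hw
  · have hL : -z ∈ LS := ⟨by rw [neg_re]; linarith, by rw [neg_re]; linarith⟩
    have d := (nz_diff (Rws.neg hmu) (Rws.neg hmu)).differentiableAt (LS_open.mem_nhds hL)
    have d2 : DifferentiableAt ℂ (fun w : ℂ => nz (-w) (-mu) (-mu)) z :=
      DifferentiableAt.comp z d differentiableAt_id.neg
    refine d2.congr_of_eventuallyEq ?_
    have hop : IsOpen {w : ℂ | -w ∈ LS} := LS_open.preimage continuous_neg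
    filter_upwards [hop.mem_nhds hL] with w hw
    exact fN_left hmu hw

theorem fN_perm (mu : Fin m → ℂ) (σ : Equiv.Perm (Fin m)) (z : ℂ) :
    fN (fun i => mu (σ i)) z = fN mu z := by
  unfold fN
  rw [nz_perm z mu σ]
  split_ifs
  · rfl
  · exact nz_perm (-z) (-mu) σ

/-- joint continuity -/
theorem fN_tendsto {E : Type*} {F : Filter E} [F.IsCountablyGenerated] {z : E → ℂ}
    {x : E → Fin m → ℂ} {z0 : ℂ} {x0 : Fin m → ℂ} (tz : Tendsto z F (𝓝 z0))
    (tx : ∀ i, Tendsto (fun e => x e i) F (𝓝 (x0 i))) (hx : ∀ᶠ e in F, Rws (x e)) (hx0 : Rws x0)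
    (hz : |z0.re| < 43 / 10 * l) : Tendsto (fun e => fN (x e) (z e)) F (𝓝 (fN x0 z0)) := by
  have hl := lpos
  obtain ⟨h1, h2⟩ := abs_lt.1 hz
  rcases le_or_gt 0 z0.re with h | h
  · have hL : z0 ∈ LS := ⟨by linarith, h2⟩
    rw [fN_right hx0 hL]
    refine (nz_tendsto tz tx tx hx hx hx0 hx0 hL).congr' ?_
    filter_upwards [hx, tz.eventually (LS_open.mem_nhds hL)] with e he hze
    exact (fN_right he hze).symm
  · have hL : -z0 ∈ LS := ⟨by rw [neg_re]; linarith, by rw [neg_re]; linarith⟩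
    rw [fN_left hx0 hL]
    refine (nz_tendsto (z := fun e => -z e) (x := fun e => -x e) (y := fun e => -x e) tz.neg
      (fun i => (tx i).neg) (fun i => (tx i).neg) (hx.mono fun e he => Rws.neg he)
      (hx.mono fun e he => Rws.neg he) (Rws.neg hx0) (Rws.neg hx0) hL).congr' ?_
    filter_upwards [hx, tz.neg.eventually (LS_open.mem_nhds hL)] with e he hze
    exact (fN_left he hze).symm

/-! ### the exact leg identity -/

theorem neg_cons (x0 : ℂ) (x : Fin m → ℂ) :
    -(Fin.cons x0 x : Fin (m + 1) → ℂ) = (Fin.cons (-x0) (-x) : Fin (m + 1) → ℂ) := by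
  funext i
  refine Fin.cases ?_ (fun j => ?_) i
  · simp
  · simp

/-- **(A1), legs to the right** -/
theorem fN_leg {x0 : ℂ} {mu : Fin m → ℂ} (h0 : |x0.re| ≤ l / 2) (hmu : Rws mu) :
    fN (Fin.cons x0 mu : Fin (m + 1) → ℂ) (x0 + 3 * l) = fN mu x0 := by
  rw [fN_right (Rws.cons h0 hmu) (mem_LS3 h0), fN_right hmu (mem_LS h0), nz_leg h0 hmu hmu]

/-- **(A1), legs to the left** -/
theorem fN_leg' {x0 : ℂ} {mu : Fin m → ℂ} (h0 : |x0.re| ≤ l / 2) (hmu : Rws mu) :
    fN (Fin.cons x0 mu : Fin (m + 1) → ℂ) (x0 - 3 * l) = fN mu x0 := by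
  have hl := lpos
  have h0' : |(-x0).re| ≤ l / 2 := by rwa [neg_re, abs_neg]
  have e : -(x0 - 3 * (l : ℂ)) = -x0 + 3 * l := by ring
  have hz : |(x0 - 3 * (l : ℂ)).re| < 43 / 10 * l := by
    have e1 : (x0 - 3 * (l : ℂ)).re = x0.re - 3 * l := by simp
    rw [e1]
    obtain ⟨h1, h2⟩ := abs_le.1 h0
    rw [abs_lt]
    constructor <;> linarith
  have hx : |x0.re| < 43 / 10 * l := by linarith
  rw [← fN_even (Rws.cons h0 hmu) hz, neg_cons, e, fN_leg h0' (Rws.neg hmu), fN_even hmu hx]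

/-- the rows with the row `j` in front -/
theorem cons_swap (x : Fin (m + 1) → ℂ) (j : Fin (m + 1)) :
    (fun i => x (Equiv.swap 0 j i)) =
      (Fin.cons (x j) (fun i => x (Equiv.swap 0 j i.succ)) : Fin (m + 1) → ℂ) := by
  funext i
  refine Fin.cases ?_ (fun k => ?_) i
  · simp
  · simp

/-- the difference vanishes at the rows -/
theorem fN_node {x : Fin (m + 1) → ℂ} (hx : Rws x) (j : Fin (m + 1)) :
    fN x (x j + 3 * l) - fN x (x j - 3 * l) = 0 := by
  have hx' : Rws fun i : Fin m => x (Equiv.swap 0 j i.succ) := fun i => hx _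
  rw [← fN_perm x (Equiv.swap 0 j) (x j + 3 * l), ← fN_perm x (Equiv.swap 0 j) (x j - 3 * l),
    cons_swap, fN_leg (hx j) hx', fN_leg' (hx j) hx', sub_self]

theorem fN_node' {x : Fin m → ℂ} (hx : Rws x) (j : Fin m) :
    fN x (x j + 3 * l) - fN x (x j - 3 * l) = 0 := by
  rcases m with _ | m
  · exact j.elim0
  · exact fN_node hx j

/-- generic rows -/
def GS (m : ℕ) : Set (Fin m → ℂ) := {y | Rws y ∧ Hgt y}

theorem mem_closure_GS {mu : Fin m → ℂ} (hmu : Rws mu) : mu ∈ closure (GS m) := by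
  have t : Tendsto (fun e => pull mu e) (𝓝[>] (0 : ℝ)) (𝓝 mu) :=
    tendsto_pi_nhds.2 fun i => pull_tendsto mu i
  refine mem_closure_of_tendsto t ?_
  filter_upwards [pull_Hgt mu] with e he
  exact ⟨pull_Rws hmu e, he⟩

/-- **the zeros of the difference** -/
theorem fN_zeros {mu : Fin m → ℂ} (hmu : Rws mu) :
    ∃ Q : ℂ → ℂ, DifferentiableOn ℂ Q {z | |z.re| < 13 / 10 * l} ∧
      ∀ z, fN mu (z + 3 * l) - fN mu (z - 3 * l) = (∏ j, (z - mu j)) * Q z := by
  have hl := lpos
  set Ω : Set ℂ := {z | |z.re| < 13 / 10 * l} with hΩ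
  have hop : IsOpen Ω := isOpen_lt (continuous_abs.comp Complex.continuous_re) continuous_const
  set R : ℝ := ∑ j, |(mu j).im| + 1 with hR
  set U : Set ℂ := {z | |z.re| < l ∧ |z.im| < R} with hU
  have hUo : IsOpen U := (isOpen_lt (continuous_abs.comp Complex.continuous_re)
    continuous_const).inter (isOpen_lt (continuous_abs.comp Complex.continuous_im) continuous_const)
  have hUb : Bornology.IsBounded U := by
    refine (Metric.isBounded_iff_subset_closedBall (0 : ℂ)).2 ⟨l + R, fun z hz => ?_⟩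
    rw [Metric.mem_closedBall, dist_zero_right]
    have := Complex.norm_le_abs_re_add_abs_im z
    linarith [hz.1, hz.2]
  have hUc : closure U ⊆ Ω := by
    have h1 : closure U ⊆ {z : ℂ | |z.re| ≤ l} := by
      refine closure_minimal (fun z hz => hz.1.le) ?_
      exact isClosed_le (continuous_abs.comp Complex.continuous_re) continuous_const
    intro z hz
    have h2 : |z.re| ≤ l := h1 hz
    show |z.re| < 13 / 10 * l
    linarith
  have e1 : ∀ z : ℂ, (z + 3 * (l : ℂ)).re = z.re + 3 * l := fun z => by simp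
  have e2 : ∀ z : ℂ, (z - 3 * (l : ℂ)).re = z.re - 3 * l := fun z => by simp
  have k1 : ∀ z ∈ Ω, |(z + 3 * (l : ℂ)).re| < 43 / 10 * l := by
    intro z hz
    obtain ⟨h1, h2⟩ := abs_lt.1 (show |z.re| < 13 / 10 * l from hz)
    rw [e1, abs_lt]
    constructor <;> linarith
  have k2 : ∀ z ∈ Ω, |(z - 3 * (l : ℂ)).re| < 43 / 10 * l := by
    intro z hz
    obtain ⟨h1, h2⟩ := abs_lt.1 (show |z.re| < 13 / 10 * l from hz)
    rw [e2, abs_lt]
    constructor <;> linarith
  have hdom : IsOpen {z : ℂ | |z.re| < 43 / 10 * l} :=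
    isOpen_lt (continuous_abs.comp Complex.continuous_re) continuous_const
  obtain ⟨-, Q, hQ, hfQ⟩ := zero_rowsW (ι := Fin m) hop hUo hUb hUc (c := mu) (S := GS m)
    (D := fun z y => fN y (z + 3 * l) - fN y (z - 3 * l))
    (fun j => by
      have h1 := hmu j
      have h2 := PBX.im_le mu j
      exact ⟨by linarith, by linarith⟩)
    (mem_closure_GS hmu)
    (fun y hy i j hij => by
      by_contra hne
      exact hy.2 i j hne (by rw [hij]))
    (fun y hy z hz => by
      have d1 : DifferentiableAt ℂ (fun z : ℂ => fN y (z + 3 * l)) z :=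
        DifferentiableAt.comp z ((fN_diff hy.1).differentiableAt (hdom.mem_nhds (k1 z hz)))
          (differentiableAt_id.add_const _)
      have d2 : DifferentiableAt ℂ (fun z : ℂ => fN y (z - 3 * l)) z :=
        DifferentiableAt.comp z ((fN_diff hy.1).differentiableAt (hdom.mem_nhds (k2 z hz)))
          (differentiableAt_id.sub_const _)
      exact (d1.sub d2).differentiableWithinAt)
    (fun z hz => by
      have tr : ∀ i, Tendsto (fun p : ℂ × (Fin m → ℂ) => p.2 i) (𝓝 z ×ˢ 𝓝[GS m] mu)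
          (𝓝 (mu i)) := fun i =>
        (((continuous_apply i).tendsto mu).mono_left nhdsWithin_le_nhds).comp tendsto_snd
      have hrw : ∀ᶠ p : ℂ × (Fin m → ℂ) in 𝓝 z ×ˢ 𝓝[GS m] mu, Rws p.2 := by
        have h1 : ∀ᶠ y in 𝓝[GS m] mu, Rws y := by
          filter_upwards [self_mem_nhdsWithin] with y hy
          exact hy.1
        exact tendsto_snd.eventually h1
      exact (fN_tendsto (F := 𝓝 z ×ˢ 𝓝[GS m] mu) (z := fun p => p.1 + 3 * l) (x := fun p => p.2)
        (tendsto_fst.add_const _) tr hrw hmu (k1 z hz)).sub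
        (fN_tendsto (F := 𝓝 z ×ˢ 𝓝[GS m] mu) (z := fun p => p.1 - 3 * l) (x := fun p => p.2)
        (tendsto_fst.sub_const _) tr hrw hmu (k2 z hz)))
    (by
      filter_upwards [self_mem_nhdsWithin] with y hy j
      exact fN_node' hy.1 j)
  exact ⟨Q, hQ, hfQ⟩

end Pool.Agent.PB

end
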