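import Pool.Agent.PB.Nz
import Pool.Agent.PB.Hol2

/-!
# Holomorphy of the dislocated function in the rows and the legs (helper81)

Rows with `|Re| < 3 l / 5` (`Rwo`), legs in `LS` (for `nz`), `|Re z| < 43 l / 10` (for `fN`, `fx`).

* `Pf_hol` : the prefactor is holomorphic in legs and rows (any number of parameters);
* `nz_tendsto'`, `nz_hol`, `nz_neg'`, `fN_right'`, `fN_tendsto'`, `fN_hol` : open strip of rows,
  analytic curves of legs and rows;
* **`fN_Hol2`, `fx_Hol2`** : `fN (ξ, mu) z`, `fx N ξ z` are jointly continuous and holomorphic in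
  `(ξ, z) ∈ WX`; hence (PBH.Hol2) all derivatives are, `contDiff`, `comm`, `strict`;
* `fx_eta`, `fx_tau`, `fx_tau2` : derivatives along `x0 + i s`, `z0 + i t`; `fx_d1`, `fx_d2`, `fx_d22`
  and `.._cont_I` : their joint continuity; `Hol2_ub` : uniform bounds on boxes;
* `fN_row_deriv`, `fN_leg_deriv`, `fN_leg_deriv2`, `fx_deriv_row` : product formulas
  `Pf' * SD + Pf * ∑ DZ'`.
-/

set_option autoImplicit false
set_option linter.unusedSectionVars false

noncomputable section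

open Complex Filter Topology Metric Set

namespace Pool.Agent.PB

open NUP1 (l lpos)
open NUP1.Grand (P)
open PBR (rh rh_neg rh_ne_zero continuousAt_rh differentiableAt_rh)
open PBX (DZ Lg Rws Rwr LgR pull pull_re pull_Rws pull_tendsto)
open PBH (Hol2)

variable {m M : ℕ}

/-! ### the prefactor along analytic curves (any number of parameters) -/

section pref

variable {E : Type*} [NormedAddCommGroup E] [NormedSpace ℂ E]

theorem prod_hol {ι : Type*} {u : Finset ι} {g : ι → E → ℂ} {e : E}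
    (h : ∀ i ∈ u, DifferentiableAt ℂ (g i) e) : DifferentiableAt ℂ (fun e => ∏ i ∈ u, g i e) e := by
  classical
  exact (HasFDerivAt.finsetProd fun i hi => (h i hi).hasFDerivAt).differentiableAt

theorem P_hol {n : ℕ} {f : E → Fin n → Fin n → ℂ} {e : E}
    (h : ∀ i j, DifferentiableAt ℂ (fun e => f e i j) e) :
    DifferentiableAt ℂ (fun e => P (f e)) e := by
  unfold NUP1.Grand.P
  refine prod_hol fun a _ => prod_hol fun b _ => ?_
  split_ifs
  · exact h a b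
  · exact differentiableAt_const _

theorem rh_hol {w : E → ℂ} {e : E} (h : DifferentiableAt ℂ w e) (h0 : |(w e).re| < 5 * l) :
    DifferentiableAt ℂ (fun e => rh (w e)) e :=
  (differentiableAt_rh (by linarith [lpos])).comp e h

theorem Nu_hol {z : E → ℂ} {x : E → Fin m → ℂ} {e : E} (dz : DifferentiableAt ℂ z e)
    (dx : ∀ i, DifferentiableAt ℂ (fun e => x e i) e) :
    DifferentiableAt ℂ (fun e => Nu (z e) (x e)) e := by
  unfold Nu Lp Fp
  refine DifferentiableAt.mul (prod_hol fun i _ => ?_) (P_hol fun i j => ?_)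
  · exact (((dz.sub (dx i)).add_const _).csin.mul ((dz.sub (dx i)).add_const _).csin).const_mul _
  · exact ((((dx i).sub (dx j)).add_const _).csin.mul (((dx i).sub (dx j)).add_const _).csin).mul
      ((((dx i).sub (dx j)).const_sub _).csin.mul (((dx i).sub (dx j)).const_sub _).csin)

theorem D1_hol {z : E → ℂ} {x : E → Fin m → ℂ} {e : E} (dz : DifferentiableAt ℂ z e)
    (dx : ∀ i, DifferentiableAt ℂ (fun e => x e i) e) (hx : Nar (x e)) (hz : NarZ (z e) (x e)) :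
    DifferentiableAt ℂ (fun e => D1 (z e) (x e)) e := by
  unfold D1
  refine DifferentiableAt.mul (P_hol fun i j => ?_) (prod_hol fun i _ => ?_)
  · exact (rh_hol ((dx i).sub (dx j)) (hx i j)).pow 2
  · exact (rh_hol (dz.sub (dx i)) (hz i)).pow 2

theorem D2_hol {x : E → Fin m → ℂ} {y : E → Fin M → ℂ} {e : E}
    (dx : ∀ i, DifferentiableAt ℂ (fun e => x e i) e)
    (dy : ∀ i, DifferentiableAt ℂ (fun e => y e i) e) (h : ∀ i j, |(x e i - y e j).re| < 5 * l) :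
    DifferentiableAt ℂ (fun e => D2 (x e) (y e)) e := by
  unfold D2
  exact prod_hol fun i _ => prod_hol fun j _ =>
    (rh_hol ((dx i).sub (dy j)) (h i j)).pow 2

/-- **the prefactor is holomorphic in legs and rows** -/
theorem Pf_hol {z : E → ℂ} {x : E → Fin m → ℂ} {y : E → Fin M → ℂ} {e : E}
    (dz : DifferentiableAt ℂ z e) (dx : ∀ i, DifferentiableAt ℂ (fun e => x e i) e)
    (dy : ∀ i, DifferentiableAt ℂ (fun e => y e i) e) (hx : Nar (x e)) (hy : Nar (y e))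
    (hxy : ∀ i j, |(x e i - y e j).re| < 5 * l) (hzx : NarZ (z e) (x e)) (hzy : NarZ (z e) (y e)) :
    DifferentiableAt ℂ (fun e => Pf (z e) (x e) (y e)) e := by
  unfold Pf
  have h1 : DifferentiableAt ℂ (fun e => (3 / 2) ^ (m + M + 1) * sin l *
      (Nu (z e) (x e) * Nu (z e) (y e))) e := ((Nu_hol dz dx).mul (Nu_hol dz dy)).const_mul _
  have h2 : DifferentiableAt ℂ (fun e => D1 (z e) (x e) * D1 (z e) (y e) * D2 (x e) (y e) *
      rh 0) e :=
    (((D1_hol dz dx hx hzx).mul (D1_hol dz dy hy hzy)).mul (D2_hol dx dy hxy)).mul_const _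
  simp only [div_eq_mul_inv]
  refine h1.mul (h2.inv ?_)
  exact mul_ne_zero (mul_ne_zero (mul_ne_zero (D1_ne hx hzx) (D1_ne hy hzy)) (D2_ne hxy)) rh0_ne

end pref

/-! ### rows in the open strip `|Re| < 3 l / 5` -/

/-- open strip of the rows -/
def Rwo (x : Fin m → ℂ) : Prop := ∀ i, |(x i).re| < 3 / 5 * l

theorem Rws.rwo {x : Fin m → ℂ} (h : Rws x) : Rwo x := fun i =>
  (h i).trans_lt (by linarith [lpos])

theorem Rwo.neg {x : Fin m → ℂ} (h : Rwo x) : Rwo (-x) := fun i => by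
  rw [Pi.neg_apply, neg_re, abs_neg]
  exact h i

theorem Rwo.cons {x0 : ℂ} {x : Fin m → ℂ} (h0 : |x0.re| < 3 / 5 * l) (h : Rwo x) :
    Rwo (Fin.cons x0 x : Fin (m + 1) → ℂ) := PBX.cons_re h h0

theorem Rwo.dist {x : Fin m → ℂ} {y : Fin M → ℂ} (hx : Rwo x) (hy : Rwo y) (i : Fin m)
    (j : Fin M) : |(x i - y j).re| < 5 * l := by
  have hl := lpos
  obtain ⟨h1, h2⟩ := abs_lt.1 (hx i)
  obtain ⟨h3, h4⟩ := abs_lt.1 (hy j)
  rw [sub_re, abs_lt]
  constructor <;> linarith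

theorem Rwo.narZ {x : Fin m → ℂ} (hx : Rwo x) {z : ℂ} (hz : z ∈ LS) : NarZ z x := by
  intro i
  have hl := lpos
  obtain ⟨h1, h2⟩ := hz
  obtain ⟨h3, h4⟩ := abs_lt.1 (hx i)
  rw [sub_re, abs_lt]
  constructor <;> linarith

theorem isOpen_Rwo (m : ℕ) : IsOpen {x : Fin m → ℂ | Rwo x} := by
  have e : {x : Fin m → ℂ | Rwo x} = ⋂ i, {x | |(x i).re| < 3 / 5 * l} := by
    ext v
    simp [Rwo]
  rw [e]
  exact isOpen_iInter_of_finite fun i => isOpen_lt (by fun_prop) continuous_const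

theorem Rwo_ev {E : Type*} {F : Filter E} {x : E → Fin m → ℂ} {x0 : Fin m → ℂ}
    (tx : ∀ i, Tendsto (fun e => x e i) F (𝓝 (x0 i))) (h : Rwo x0) : ∀ᶠ e in F, Rwo (x e) :=
  (tendsto_pi_nhds.2 tx).eventually ((isOpen_Rwo m).mem_nhds h)

theorem mem_LgR {z : ℂ} (h : z ∈ LS) : LgR z := h

/-- **joint continuity of `nz`, open strip** -/
theorem nz_tendsto' {E : Type*} {F : Filter E} [F.IsCountablyGenerated] {z : E → ℂ}
    {x y : E → Fin m → ℂ} {z0 : ℂ} {x0 y0 : Fin m → ℂ} (tz : Tendsto z F (𝓝 z0))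
    (tx : ∀ i, Tendsto (fun e => x e i) F (𝓝 (x0 i)))
    (ty : ∀ i, Tendsto (fun e => y e i) F (𝓝 (y0 i))) (hx0 : Rwo x0) (hy0 : Rwo y0)
    (hz : z0 ∈ LS) : Tendsto (fun e => nz (z e) (x e) (y e)) F (𝓝 (nz z0 x0 y0)) := by
  unfold nz
  exact Tendsto.mul (Pf_tendsto tz tx ty (Rwo.dist hx0 hx0) (Rwo.dist hy0 hy0)
    (Rwo.dist hx0 hy0) (Rwo.narZ hx0 hz) (Rwo.narZ hy0 hz)) (tendsto_finsetSum _ fun n _ =>
      PBX.DZ_Lg_tendsto (cn m) (cn m) hx0 hy0 tx ty tz tz hz hz n)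

/-- the state sum in the legs and rows, along analytic curves -/
theorem SZ_hol {z : ℂ → ℂ} {x y : ℂ → Fin m → ℂ} {θ0 : ℂ} (c c' : ℂ)
    (dz : ∀ᶠ θ in 𝓝 θ0, DifferentiableAt ℂ z θ)
    (dx : ∀ᶠ θ in 𝓝 θ0, ∀ i, DifferentiableAt ℂ (fun θ => x θ i) θ)
    (dy : ∀ᶠ θ in 𝓝 θ0, ∀ i, DifferentiableAt ℂ (fun θ => y θ i) θ) (hx : Rwo (x θ0))
    (hy : Rwo (y θ0)) (hz : z θ0 ∈ LS) (n : ℕ) :
    DifferentiableAt ℂ (fun θ => DZ c c' (Lg (z θ) (z θ)) (Lg (z θ) (z θ)) (x θ) (y θ) n) θ0 :=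
  PBX.DZ_Lg_hol c c' hx hy dx dy dz dz hz hz n

/-- **holomorphy of `nz` in legs and rows, along analytic curves** -/
theorem nz_hol {z : ℂ → ℂ} {x y : ℂ → Fin m → ℂ} {θ0 : ℂ}
    (dz : ∀ᶠ θ in 𝓝 θ0, DifferentiableAt ℂ z θ)
    (dx : ∀ᶠ θ in 𝓝 θ0, ∀ i, DifferentiableAt ℂ (fun θ => x θ i) θ)
    (dy : ∀ᶠ θ in 𝓝 θ0, ∀ i, DifferentiableAt ℂ (fun θ => y θ i) θ) (hx : Rwo (x θ0))
    (hy : Rwo (y θ0)) (hz : z θ0 ∈ LS) :
    DifferentiableAt ℂ (fun θ => nz (z θ) (x θ) (y θ)) θ0 := by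
  unfold nz
  exact (Pf_hol dz.self_of_nhds dx.self_of_nhds dy.self_of_nhds (Rwo.dist hx hx) (Rwo.dist hy hy)
    (Rwo.dist hx hy) (Rwo.narZ hx hz) (Rwo.narZ hy hz)).mul
      (DifferentiableAt.fun_sum fun n _ => SZ_hol (cn m) (cn m) dz dx dy hx hy hz n)

/-! ### (A2) in the open strip: analytic continuation in the real parts of the rows -/

/-- the rows with the real parts multiplied by `θ` -/
def rsc (x : Fin m → ℂ) (θ : ℂ) : Fin m → ℂ := fun i => (x i).re * θ + (x i).im * I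

theorem rsc_one (x : Fin m → ℂ) : rsc x 1 = x := by
  funext i
  unfold rsc
  rw [mul_one, re_add_im]

theorem rsc_re (x : Fin m → ℂ) (θ : ℂ) (i : Fin m) : (rsc x θ i).re = (x i).re * θ.re := by
  simp [rsc]

theorem rsc_diff (x : Fin m → ℂ) (i : Fin m) (θ : ℂ) :
    DifferentiableAt ℂ (fun θ => rsc x θ i) θ := by
  unfold rsc
  fun_prop

/-- the parameters with rows in the open strip -/
def rS (x : Fin m → ℂ) : Set ℂ := {θ | ∀ i, |(x i).re * θ.re| < 3 / 5 * l}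

theorem rS_open (x : Fin m → ℂ) : IsOpen (rS x) := by
  have e : rS x = ⋂ i, {θ : ℂ | |(x i).re * θ.re| < 3 / 5 * l} := by
    ext v
    simp [rS]
  rw [e]
  exact isOpen_iInter_of_finite fun i => isOpen_lt (by fun_prop) continuous_const

theorem rS_convex (x : Fin m → ℂ) : Convex ℝ (rS x) := by
  have e : rS x = ⋂ i, {θ : ℂ | |(x i).re * θ.re| < 3 / 5 * l} := by
    ext v
    simp [rS]
  rw [e]
  refine convex_iInter fun i => ?_
  have e2 : {θ : ℂ | |(x i).re * θ.re| < 3 / 5 * l} =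
      (((x i).re • Complex.reLm) : ℂ →ₗ[ℝ] ℝ) ⁻¹' (Ioo (-(3 / 5 * l)) (3 / 5 * l)) := by
    ext θ
    rw [mem_ofPred_eq, abs_lt]
    simp
  rw [e2]
  exact (convex_Ioo _ _).linear_preimage _

theorem mem_rS_one {x : Fin m → ℂ} (hx : Rwo x) : (1 : ℂ) ∈ rS x := fun i => by
  simpa using hx i

theorem rS_rwo {x : Fin m → ℂ} {θ : ℂ} (h : θ ∈ rS x) : Rwo (rsc x θ) := fun i => by
  rw [rsc_re]
  exact h i

/-- **(A2), rows in the open strip** -/
theorem nz_neg' {z : ℂ} (hz : |z.re| < 7 / 5 * l) {x y : Fin m → ℂ} (hx : Rwo x) (hy : Rwo y) :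
    nz (-z) (-x) (-y) = nz z x y := by
  have hl := lpos
  obtain ⟨z1, z2⟩ := mem_LS_neg hz
  set S : Set ℂ := rS x ∩ rS y with hS
  have hSo : IsOpen S := (rS_open x).inter (rS_open y)
  have hSc : Convex ℝ S := (rS_convex x).inter (rS_convex y)
  have hd1 : DifferentiableOn ℂ (fun θ => nz (-z) (-rsc x θ) (-rsc y θ)) S := fun θ hθ =>
    (nz_hol (z := fun _ => -z) (x := fun θ => -rsc x θ) (y := fun θ => -rsc y θ)
      (Eventually.of_forall fun _ => differentiableAt_const _)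
      (Eventually.of_forall fun θ i => (rsc_diff x i θ).neg)
      (Eventually.of_forall fun θ i => (rsc_diff y i θ).neg) (rS_rwo hθ.1).neg
      (rS_rwo hθ.2).neg z2).differentiableWithinAt
  have hd2 : DifferentiableOn ℂ (fun θ => nz z (rsc x θ) (rsc y θ)) S := fun θ hθ =>
    (nz_hol (z := fun _ => z) (x := fun θ => rsc x θ) (y := fun θ => rsc y θ)
      (Eventually.of_forall fun _ => differentiableAt_const _)
      (Eventually.of_forall fun θ i => rsc_diff x i θ)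
      (Eventually.of_forall fun θ i => rsc_diff y i θ) (rS_rwo hθ.1)
      (rS_rwo hθ.2) z1).differentiableWithinAt
  have hsm : ∀ {x : Fin m → ℂ}, Rwo x → ∀ θ : ℂ, |θ.re| < 1 / 2 → Rws (rsc x θ) := by
    intro x hx θ hθ i
    rw [rsc_re, abs_mul]
    have h1 := (hx i).le
    calc |(x i).re| * |θ.re| ≤ 3 / 5 * l * (1 / 2) :=
          mul_le_mul h1 hθ.le (abs_nonneg _) (by positivity)
      _ ≤ l / 2 := by linarith
  have h0 : (0 : ℂ) ∈ S := by
    constructor <;> intro i <;> simpa using by positivity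
  have hev : (fun θ => nz (-z) (-rsc x θ) (-rsc y θ)) =ᶠ[𝓝 (0 : ℂ)]
      fun θ => nz z (rsc x θ) (rsc y θ) := by
    have hn : {θ : ℂ | |θ.re| < 1 / 2} ∈ 𝓝 (0 : ℂ) :=
      (isOpen_lt (by fun_prop) continuous_const).mem_nhds (by simp)
    filter_upwards [hn] with θ hθ
    exact nz_neg hz (hsm hx θ hθ) (hsm hy θ hθ)
  have key := (hd1.analyticOnNhd hSo).eqOn_of_preconnected_of_eventuallyEq
    (hd2.analyticOnNhd hSo) hSc.isPreconnected h0 hev
  have h1 := key (x := 1) ⟨mem_rS_one hx, mem_rS_one hy⟩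
  simpa only [rsc_one] using h1

theorem fN_right' {mu : Fin m → ℂ} (hmu : Rwo mu) {z : ℂ} (hz : z ∈ LS) : fN mu z = nz z mu mu := by
  unfold fN
  split_ifs with h
  · rfl
  · have hl := lpos
    obtain ⟨h1, h2⟩ := hz
    rw [not_le] at h
    exact nz_neg' (by rw [abs_lt]; constructor <;> linarith) hmu hmu

theorem fN_left2 {mu : Fin m → ℂ} (hmu : Rwo mu) {z : ℂ} (hz : -z ∈ LS) :
    fN mu z = nz (-z) (-mu) (-mu) := by
  unfold fN
  split_ifs with h
  · have hl := lpos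
    obtain ⟨h1, h2⟩ := hz
    have h3 : -(7 / 5 * l) < (-z).re := h1
    rw [neg_re] at h3
    exact (nz_neg' (by rw [abs_lt]; constructor <;> linarith) hmu hmu).symm
  · rfl

theorem LS_or {z : ℂ} (hz : |z.re| < 43 / 10 * l) : z ∈ LS ∨ -z ∈ LS := by
  have hl := lpos
  obtain ⟨h1, h2⟩ := abs_lt.1 hz
  rcases le_or_gt 0 z.re with h | h
  · exact Or.inl ⟨by linarith, h2⟩
  · exact Or.inr ⟨by rw [neg_re]; linarith, by rw [neg_re]; linarith⟩

/-- **joint continuity, open strip** -/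
theorem fN_tendsto' {E : Type*} {F : Filter E} [F.IsCountablyGenerated] {z : E → ℂ}
    {x : E → Fin m → ℂ} {z0 : ℂ} {x0 : Fin m → ℂ} (tz : Tendsto z F (𝓝 z0))
    (tx : ∀ i, Tendsto (fun e => x e i) F (𝓝 (x0 i))) (hx0 : Rwo x0)
    (hz : |z0.re| < 43 / 10 * l) : Tendsto (fun e => fN (x e) (z e)) F (𝓝 (fN x0 z0)) := by
  have hx := Rwo_ev tx hx0
  rcases LS_or hz with hL | hL
  · rw [fN_right' hx0 hL]
    refine (nz_tendsto' tz tx tx hx0 hx0 hL).congr' ?_
    filter_upwards [hx, tz.eventually (LS_open.mem_nhds hL)] with e he hze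
    exact (fN_right' he hze).symm
  · rw [fN_left2 hx0 hL]
    refine (nz_tendsto' (z := fun e => -z e) (x := fun e => -x e) (y := fun e => -x e) tz.neg
      (fun i => (tx i).neg) (fun i => (tx i).neg) (Rwo.neg hx0) (Rwo.neg hx0) hL).congr' ?_
    filter_upwards [hx, tz.neg.eventually (LS_open.mem_nhds hL)] with e he hze
    exact (fN_left2 he hze).symm

/-- **holomorphy of `fN` in legs and rows, along analytic curves** -/
theorem fN_hol {z : ℂ → ℂ} {x : ℂ → Fin m → ℂ} {θ0 : ℂ}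
    (dz : ∀ᶠ θ in 𝓝 θ0, DifferentiableAt ℂ z θ)
    (dx : ∀ᶠ θ in 𝓝 θ0, ∀ i, DifferentiableAt ℂ (fun θ => x θ i) θ) (hx : Rwo (x θ0))
    (hz : |(z θ0).re| < 43 / 10 * l) : DifferentiableAt ℂ (fun θ => fN (x θ) (z θ)) θ0 := by
  have tz : Tendsto z (𝓝 θ0) (𝓝 (z θ0)) := dz.self_of_nhds.continuousAt
  have tx : ∀ i, Tendsto (fun θ => x θ i) (𝓝 θ0) (𝓝 (x θ0 i)) := fun i =>
    (dx.self_of_nhds i).continuousAt
  have hxe := Rwo_ev tx hx
  rcases LS_or hz with hL | hL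
  · refine (nz_hol dz dx dx hx hx hL).congr_of_eventuallyEq ?_
    filter_upwards [hxe, tz.eventually (LS_open.mem_nhds hL)] with e he hze
    exact fN_right' he hze
  · refine (nz_hol (z := fun e => -z e) (x := fun e => -x e) (y := fun e => -x e)
      (dz.mono fun θ h => h.neg) (dx.mono fun θ h i => (h i).neg) (dx.mono fun θ h i => (h i).neg)
      (Rwo.neg hx) (Rwo.neg hx) hL).congr_of_eventuallyEq ?_
    filter_upwards [hxe, tz.neg.eventually (LS_open.mem_nhds hL)] with e he hze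
    exact fN_left2 he hze

/-! ### one moved row and the legs -/

/-- the region of `(ξ, z)` -/
def WX : Set (ℂ × ℂ) := {p | |p.1.re| < 3 / 5 * l ∧ |p.2.re| < 43 / 10 * l}

theorem WX_open : IsOpen WX := by
  have h1 : IsOpen {p : ℂ × ℂ | |p.1.re| < 3 / 5 * l} := isOpen_lt (by fun_prop) continuous_const
  have h2 : IsOpen {p : ℂ × ℂ | |p.2.re| < 43 / 10 * l} := isOpen_lt (by fun_prop) continuous_const
  exact h1.inter h2

/-- **`fN (ξ, mu) z` as a function of `(ξ, z)`** -/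
theorem fN_Hol2 {mu : Fin m → ℂ} (hmu : Rwo mu) :
    Hol2 WX (fun ξ z => fN (Fin.cons ξ mu : Fin (m + 1) → ℂ) z) where
  cont p hp := fN_tendsto' (F := 𝓝 p) (z := fun p : ℂ × ℂ => p.2)
    (x := fun p : ℂ × ℂ => (Fin.cons p.1 mu : Fin (m + 1) → ℂ)) (continuous_snd.tendsto p)
    (PBX.cons_tendsto (continuous_fst.tendsto p) fun _ => tendsto_const_nhds)
    (Rwo.cons hp.1 hmu) hp.2
  d1 p hp := fN_hol (z := fun _ => p.2) (x := fun ξ => (Fin.cons ξ mu : Fin (m + 1) → ℂ))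
    (Eventually.of_forall fun _ => differentiableAt_const _)
    (Eventually.of_forall fun ξ i => PBX.cons_diff mu i ξ) (Rwo.cons hp.1 hmu) hp.2
  d2 p hp := fN_hol (z := fun z => z) (x := fun _ => (Fin.cons p.1 mu : Fin (m + 1) → ℂ))
    (Eventually.of_forall fun _ => differentiableAt_id)
    (Eventually.of_forall fun _ _ => differentiableAt_const _) (Rwo.cons hp.1 hmu) hp.2

theorem Rwo_zero (N : ℕ) : Rwo (fun _ : Fin N => (0 : ℂ)) := Rws.rwo (Rws_zero N)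

/-- **`fx N ξ z` as a function of `(ξ, z)`** -/
theorem fx_Hol2 (N : ℕ) : Hol2 WX (fx N) := fN_Hol2 (Rwo_zero N)

/-- the legs only -/
theorem fN_diff' {mu : Fin m → ℂ} (hmu : Rwo mu) :
    DifferentiableOn ℂ (fN mu) {z | |z.re| < 43 / 10 * l} := fun z hz =>
  (fN_hol (z := fun z => z) (x := fun _ => mu) (θ0 := z)
    (Eventually.of_forall fun _ => differentiableAt_id)
    (Eventually.of_forall fun _ _ => differentiableAt_const _) hmu hz).differentiableWithinAt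

theorem fx_diff' (N : ℕ) {ξ : ℂ} (h : |ξ.re| < 3 / 5 * l) :
    DifferentiableOn ℂ (fx N ξ) {z | |z.re| < 43 / 10 * l} := fN_diff' (Rwo.cons h (Rwo_zero N))

/-! ### forms for the function side: row `x0 + i s`, legs `z`, `i t` -/

theorem re_add_I (x0 : ℂ) (s : ℝ) : (x0 + I * s).re = x0.re := by simp

theorem re_I_mul (s : ℝ) : (I * (s : ℂ)).re = 0 := by simp

/-- **derivative along the row** -/
theorem fx_eta (N : ℕ) {x0 z : ℂ} (h0 : |x0.re| < 3 / 5 * l) (hz : |z.re| < 43 / 10 * l) (s : ℝ) :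
    HasDerivAt (fun s : ℝ => fx N (x0 + I * s) z)
      (I * deriv (fun ξ => fx N ξ z) (x0 + I * s)) s := by
  have h : (x0 + s * I, z) ∈ WX := ⟨by simpa using h0, hz⟩
  have := (fx_Hol2 N).im1 h
  simp only [mul_comm _ I] at this
  exact this

/-- **derivative along the legs** -/
theorem fx_tau (N : ℕ) {ξ z0 : ℂ} (h0 : |ξ.re| < 3 / 5 * l) (hz : |z0.re| < 43 / 10 * l) (t : ℝ) :
    HasDerivAt (fun t : ℝ => fx N ξ (z0 + I * t)) (I * deriv (fx N ξ) (z0 + I * t)) t := by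
  have h : (ξ, z0 + t * I) ∈ WX := ⟨h0, by simpa using hz⟩
  have := (fx_Hol2 N).im2 h
  simp only [mul_comm _ I] at this
  exact this

/-- **second derivative along the legs** -/
theorem fx_tau2 (N : ℕ) {ξ z0 : ℂ} (h0 : |ξ.re| < 3 / 5 * l) (hz : |z0.re| < 43 / 10 * l) (t : ℝ) :
    HasDerivAt (fun t : ℝ => I * deriv (fx N ξ) (z0 + I * t))
      (-deriv (deriv (fx N ξ)) (z0 + I * t)) t := by
  have h : (ξ, z0 + t * I) ∈ WX := ⟨h0, by simpa using hz⟩
  have h1 := (((fx_Hol2 N).D2 WX_open).im2 h).const_mul I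
  simp only [mul_comm _ I] at h1
  refine h1.congr_deriv ?_
  rw [← mul_assoc, I_mul_I, neg_one_mul]

/-- the derivatives `∂_ξ fx`, `∂_z fx`, `∂_z² fx` are again jointly continuous and holomorphic -/
theorem fx_d1 (N : ℕ) : Hol2 WX (fun ξ z => deriv (fun ξ => fx N ξ z) ξ) := (fx_Hol2 N).D1 WX_open

theorem fx_d2 (N : ℕ) : Hol2 WX (fun ξ z => deriv (fx N ξ) z) := (fx_Hol2 N).D2 WX_open

theorem fx_d22 (N : ℕ) : Hol2 WX (fun ξ z => deriv (deriv (fx N ξ)) z) := (fx_d2 N).D2 WX_open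

/-- jointly continuous along the imaginary axes -/
theorem Hol2_cont_I {f : ℂ → ℂ → ℂ} (h : Hol2 WX f) :
    Continuous fun p : ℝ × ℝ => f (I * p.1) (I * p.2) := by
  have hl := lpos
  refine continuous_iff_continuousAt.2 fun p => ?_
  have hp : (I * (p.1 : ℂ), I * (p.2 : ℂ)) ∈ WX := by
    constructor
    · show |(I * (p.1 : ℂ)).re| < _
      rw [re_I_mul, abs_zero]
      positivity
    · show |(I * (p.2 : ℂ)).re| < _
      rw [re_I_mul, abs_zero]
      positivity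
  exact ContinuousAt.comp (g := fun p : ℂ × ℂ => f p.1 p.2)
    (f := fun p : ℝ × ℝ => (I * (p.1 : ℂ), I * (p.2 : ℂ))) (h.cont _ hp)
    (by fun_prop : Continuous fun p : ℝ × ℝ => (I * (p.1 : ℂ), I * (p.2 : ℂ))).continuousAt

theorem fx_cont_I (N : ℕ) : Continuous fun p : ℝ × ℝ => fx N (I * p.1) (I * p.2) :=
  Hol2_cont_I (fx_Hol2 N)

theorem fx_d1_cont_I (N : ℕ) :
    Continuous fun p : ℝ × ℝ => deriv (fun ξ => fx N ξ (I * p.2)) (I * p.1) :=
  Hol2_cont_I (fx_d1 N)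

theorem fx_d2_cont_I (N : ℕ) : Continuous fun p : ℝ × ℝ => deriv (fx N (I * p.1)) (I * p.2) :=
  Hol2_cont_I (fx_d2 N)

theorem fx_d22_cont_I (N : ℕ) :
    Continuous fun p : ℝ × ℝ => deriv (deriv (fx N (I * p.1))) (I * p.2) :=
  Hol2_cont_I (fx_d22 N)

/-- the closed box -/
def BXc (r b R : ℝ) : Set (ℂ × ℂ) :=
  {p | |p.1.re| ≤ r ∧ |p.1.im| ≤ R ∧ |p.2.re| ≤ b ∧ |p.2.im| ≤ R}

theorem BXc_compact (r b R : ℝ) : IsCompact (BXc r b R) := by
  refine Metric.isCompact_of_isClosed_isBounded ?_ ?_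
  · have h1 : IsClosed {p : ℂ × ℂ | |p.1.re| ≤ r} := isClosed_le (by fun_prop) continuous_const
    have h2 : IsClosed {p : ℂ × ℂ | |p.1.im| ≤ R} := isClosed_le (by fun_prop) continuous_const
    have h3 : IsClosed {p : ℂ × ℂ | |p.2.re| ≤ b} := isClosed_le (by fun_prop) continuous_const
    have h4 : IsClosed {p : ℂ × ℂ | |p.2.im| ≤ R} := isClosed_le (by fun_prop) continuous_const
    exact h1.inter (h2.inter (h3.inter h4))
  · refine (Metric.isBounded_iff_subset_closedBall (0 : ℂ × ℂ)).2 ⟨|r| + |R| + |b|, ?_⟩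
    rintro ⟨p, q⟩ ⟨h1, h2, h3, h4⟩
    rw [mem_closedBall, dist_zero_right, Prod.norm_def]
    have a1 := Complex.norm_le_abs_re_add_abs_im p
    have a2 := Complex.norm_le_abs_re_add_abs_im q
    have b1 := le_abs_self r
    have b2 := le_abs_self R
    have b3 := le_abs_self b
    have c1 := abs_nonneg r
    have c3 := abs_nonneg b
    simp only at h1 h2 h3 h4
    exact max_le (by linarith) (by linarith)

/-- **uniform bounds on boxes** -/
theorem Hol2_ub {f : ℂ → ℂ → ℂ} (h : Hol2 WX f) {r b : ℝ} (hr : r < 3 / 5 * l)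
    (hb : b < 43 / 10 * l) (R : ℝ) : ∃ C : ℝ, 0 ≤ C ∧ ∀ ξ z : ℂ, |ξ.re| ≤ r → |ξ.im| ≤ R →
      |z.re| ≤ b → |z.im| ≤ R → ‖f ξ z‖ ≤ C := by
  obtain ⟨C, hC, h1⟩ := h.bd (BXc_compact r b R) fun p hp => ⟨hp.1.trans_lt hr, hp.2.2.1.trans_lt hb⟩
  exact ⟨C, hC, fun ξ z h2 h3 h4 h5 => h1 (ξ, z) ⟨h2, h3, h4, h5⟩⟩

/-! ### product formulas of the derivatives -/

/-- the sum over the states -/
def SD (z : ℂ) (x y : Fin m → ℂ) : ℂ :=
  ∑ n ∈ Finset.range (2 * m + 1), DZ (cn m) (cn m) (Lg z z) (Lg z z) x y n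

theorem nz_SD (z : ℂ) (x y : Fin m → ℂ) : nz z x y = Pf z x y * SD z x y := rfl

/-- **derivative in the moved row**, legs in `LS` -/
theorem fN_row_deriv {mu : Fin m → ℂ} (hmu : Rwo mu) {ξ z : ℂ} (h0 : |ξ.re| < 3 / 5 * l)
    (hz : z ∈ LS) :
    HasDerivAt (fun ξ => fN (Fin.cons ξ mu : Fin (m + 1) → ℂ) z)
      (deriv (fun ξ => Pf z (Fin.cons ξ mu : Fin (m + 1) → ℂ) (Fin.cons ξ mu)) ξ *
        SD z (Fin.cons ξ mu : Fin (m + 1) → ℂ) (Fin.cons ξ mu) +
      Pf z (Fin.cons ξ mu : Fin (m + 1) → ℂ) (Fin.cons ξ mu) *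
        ∑ n ∈ Finset.range (2 * (m + 1) + 1), deriv (fun ξ => DZ (cn (m + 1)) (cn (m + 1)) (Lg z z)
          (Lg z z) (Fin.cons ξ mu : Fin (m + 1) → ℂ) (Fin.cons ξ mu) n) ξ) ξ := by
  have hc := Rwo.cons h0 hmu
  have hd : ∀ i ξ, DifferentiableAt ℂ (fun ξ => (Fin.cons ξ mu : Fin (m + 1) → ℂ) i) ξ :=
    fun i ξ => PBX.cons_diff mu i ξ
  have h1 : HasDerivAt (fun ξ => Pf z (Fin.cons ξ mu : Fin (m + 1) → ℂ) (Fin.cons ξ mu))
      (deriv (fun ξ => Pf z (Fin.cons ξ mu : Fin (m + 1) → ℂ) (Fin.cons ξ mu)) ξ) ξ :=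
    (Pf_hol (z := fun _ => z) (x := fun ξ => (Fin.cons ξ mu : Fin (m + 1) → ℂ))
      (y := fun ξ => (Fin.cons ξ mu : Fin (m + 1) → ℂ)) (e := ξ) (differentiableAt_const _)
      (fun i => hd i ξ) (fun i => hd i ξ) (Rwo.dist hc hc) (Rwo.dist hc hc) (Rwo.dist hc hc)
      (Rwo.narZ hc hz) (Rwo.narZ hc hz)).hasDerivAt
  have h2 : HasDerivAt (fun ξ => SD z (Fin.cons ξ mu : Fin (m + 1) → ℂ) (Fin.cons ξ mu))
      (∑ n ∈ Finset.range (2 * (m + 1) + 1), deriv (fun ξ => DZ (cn (m + 1)) (cn (m + 1)) (Lg z z)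
          (Lg z z) (Fin.cons ξ mu : Fin (m + 1) → ℂ) (Fin.cons ξ mu) n) ξ) ξ :=
    HasDerivAt.fun_sum fun n _ => (SZ_hol (z := fun _ => z)
      (x := fun ξ => (Fin.cons ξ mu : Fin (m + 1) → ℂ))
      (y := fun ξ => (Fin.cons ξ mu : Fin (m + 1) → ℂ)) (θ0 := ξ) (cn (m + 1)) (cn (m + 1))
      (Eventually.of_forall fun _ => differentiableAt_const _)
      (Eventually.of_forall fun ξ i => hd i ξ) (Eventually.of_forall fun ξ i => hd i ξ) hc hc hz
      n).hasDerivAt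
  refine (h1.mul h2).congr_of_eventuallyEq ?_
  have hn : ∀ᶠ ξ' : ℂ in 𝓝 ξ, |ξ'.re| < 3 / 5 * l :=
    (isOpen_lt (by fun_prop) continuous_const).mem_nhds h0
  filter_upwards [hn] with ξ' h'
  exact fN_right' (Rwo.cons h' hmu) hz

/-- **derivative in the legs**, legs in `LS` -/
theorem fN_leg_deriv {mu : Fin m → ℂ} (hmu : Rwo mu) {z : ℂ} (hz : z ∈ LS) :
    HasDerivAt (fN mu) (deriv (fun z => Pf z mu mu) z * SD z mu mu +
      Pf z mu mu * ∑ n ∈ Finset.range (2 * m + 1),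
        deriv (fun z => DZ (cn m) (cn m) (Lg z z) (Lg z z) mu mu n) z) z := by
  have h1 : HasDerivAt (fun z => Pf z mu mu) (deriv (fun z => Pf z mu mu) z) z :=
    (Pf_diff (Rwo.dist hmu hmu) (Rwo.dist hmu hmu) (Rwo.dist hmu hmu)
      (Rwo.narZ hmu hz) (Rwo.narZ hmu hz)).hasDerivAt
  have h2 : HasDerivAt (fun z => SD z mu mu) (∑ n ∈ Finset.range (2 * m + 1),
      deriv (fun z => DZ (cn m) (cn m) (Lg z z) (Lg z z) mu mu n) z) z :=
    HasDerivAt.fun_sum fun n _ => (SZ_hol (z := fun z => z) (x := fun _ => mu) (y := fun _ => mu)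
      (θ0 := z) (cn m) (cn m) (Eventually.of_forall fun _ => differentiableAt_id)
      (Eventually.of_forall fun _ _ => differentiableAt_const _)
      (Eventually.of_forall fun _ _ => differentiableAt_const _) hmu hmu hz n).hasDerivAt
  refine (h1.mul h2).congr_of_eventuallyEq ?_
  filter_upwards [LS_open.mem_nhds hz] with w hw
  exact fN_right' hmu hw

/-- second derivative of a product -/
theorem deriv2_mul {S : Set ℂ} (hS : IsOpen S) {u v : ℂ → ℂ} (hu : DifferentiableOn ℂ u S)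
    (hv : DifferentiableOn ℂ v S) {z : ℂ} (hz : z ∈ S) :
    deriv (deriv fun z => u z * v z) z = deriv (deriv u) z * v z + 2 * (deriv u z * deriv v z) +
      u z * deriv (deriv v) z := by
  have du : ∀ z ∈ S, DifferentiableAt ℂ u z := fun z hz => hu.differentiableAt (hS.mem_nhds hz)
  have dv : ∀ z ∈ S, DifferentiableAt ℂ v z := fun z hz => hv.differentiableAt (hS.mem_nhds hz)
  have du' : DifferentiableAt ℂ (deriv u) z := (hu.deriv hS).differentiableAt (hS.mem_nhds hz)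
  have dv' : DifferentiableAt ℂ (deriv v) z := (hv.deriv hS).differentiableAt (hS.mem_nhds hz)
  have e : (deriv fun z => u z * v z) =ᶠ[𝓝 z] fun z => deriv u z * v z + u z * deriv v z := by
    filter_upwards [hS.mem_nhds hz] with w hw
    exact deriv_fun_mul (du w hw) (dv w hw)
  have h : HasDerivAt (fun z => deriv u z * v z + u z * deriv v z)
      (deriv (deriv u) z * v z + deriv u z * deriv v z +
        (deriv u z * deriv v z + u z * deriv (deriv v) z)) z :=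
    (du'.hasDerivAt.mul (dv z hz).hasDerivAt).add ((du z hz).hasDerivAt.mul dv'.hasDerivAt)
  rw [e.deriv_eq, h.deriv]
  ring

theorem SD_diff {mu : Fin m → ℂ} (hmu : Rwo mu) (n : ℕ) :
    DifferentiableOn ℂ (fun z => DZ (cn m) (cn m) (Lg z z) (Lg z z) mu mu n) LS := fun z hz =>
  (SZ_hol (z := fun z => z) (x := fun _ => mu) (y := fun _ => mu)
      (θ0 := z) (cn m) (cn m) (Eventually.of_forall fun _ => differentiableAt_id)
      (Eventually.of_forall fun _ _ => differentiableAt_const _)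
      (Eventually.of_forall fun _ _ => differentiableAt_const _) hmu hmu hz n).differentiableWithinAt

/-- **second derivative in the legs**, legs in `LS` -/
theorem fN_leg_deriv2 {mu : Fin m → ℂ} (hmu : Rwo mu) {z : ℂ} (hz : z ∈ LS) :
    deriv (deriv (fN mu)) z = deriv (deriv fun z => Pf z mu mu) z * SD z mu mu +
      2 * (deriv (fun z => Pf z mu mu) z * ∑ n ∈ Finset.range (2 * m + 1),
        deriv (fun z => DZ (cn m) (cn m) (Lg z z) (Lg z z) mu mu n) z) +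
      Pf z mu mu * ∑ n ∈ Finset.range (2 * m + 1),
        deriv (deriv fun z => DZ (cn m) (cn m) (Lg z z) (Lg z z) mu mu n) z := by
  have h1 : DifferentiableOn ℂ (fun z => Pf z mu mu) LS := fun z hz =>
    (Pf_diff (Rwo.dist hmu hmu) (Rwo.dist hmu hmu) (Rwo.dist hmu hmu)
      (Rwo.narZ hmu hz) (Rwo.narZ hmu hz)).differentiableWithinAt
  have h2 : DifferentiableOn ℂ (fun z => SD z mu mu) LS := by
    unfold SD
    exact DifferentiableOn.fun_sum fun n _ => SD_diff hmu n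
  have d : ∀ n, ∀ w ∈ LS, DifferentiableAt ℂ
      (fun z => DZ (cn m) (cn m) (Lg z z) (Lg z z) mu mu n) w := fun n w hw =>
    (SD_diff hmu n).differentiableAt (LS_open.mem_nhds hw)
  have e1 : ∀ w ∈ LS, deriv (fun z => SD z mu mu) w = ∑ n ∈ Finset.range (2 * m + 1),
      deriv (fun z => DZ (cn m) (cn m) (Lg z z) (Lg z z) mu mu n) w := fun w hw =>
    (HasDerivAt.fun_sum fun n _ => (d n w hw).hasDerivAt).deriv
  have e2 : deriv (deriv fun z => SD z mu mu) z = ∑ n ∈ Finset.range (2 * m + 1),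
      deriv (deriv fun z => DZ (cn m) (cn m) (Lg z z) (Lg z z) mu mu n) z := by
    have e3 : (deriv fun z => SD z mu mu) =ᶠ[𝓝 z] fun w => ∑ n ∈ Finset.range (2 * m + 1),
        deriv (fun z => DZ (cn m) (cn m) (Lg z z) (Lg z z) mu mu n) w := by
      filter_upwards [LS_open.mem_nhds hz] with w hw
      exact e1 w hw
    rw [e3.deriv_eq]
    exact (HasDerivAt.fun_sum fun n _ => (((SD_diff hmu n).deriv LS_open).differentiableAt
      (LS_open.mem_nhds hz)).hasDerivAt).deriv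
  have e4 : fN mu =ᶠ[𝓝 z] fun z => Pf z mu mu * SD z mu mu := by
    filter_upwards [LS_open.mem_nhds hz] with w hw
    exact fN_right' hmu hw
  rw [e4.deriv.deriv_eq, deriv2_mul LS_open h1 h2 hz, e1 z hz, e2]

/-- the rows `ξ, 0, .., 0` -/
abbrev xr (N : ℕ) (ξ : ℂ) : Fin (N + 1) → ℂ := Fin.cons ξ (fun _ : Fin N => (0 : ℂ))

/-- `fx` at the legs in `LS` -/
theorem fx_eq {N : ℕ} {ξ z : ℂ} (h0 : |ξ.re| < 3 / 5 * l) (hz : z ∈ LS) :
    fx N ξ z = Pf z (xr N ξ) (xr N ξ) * SD z (xr N ξ) (xr N ξ) :=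
  fN_right' (Rwo.cons h0 (Rwo_zero N)) hz

/-- `∂_ξ fx`, legs in `LS` -/
theorem fx_deriv_row {N : ℕ} {ξ z : ℂ} (h0 : |ξ.re| < 3 / 5 * l) (hz : z ∈ LS) :
    deriv (fun ξ => fx N ξ z) ξ =
      deriv (fun ξ => Pf z (xr N ξ) (xr N ξ)) ξ * SD z (xr N ξ) (xr N ξ) +
      Pf z (xr N ξ) (xr N ξ) *
        ∑ n ∈ Finset.range (2 * (N + 1) + 1), deriv (fun ξ => DZ (cn (N + 1)) (cn (N + 1)) (Lg z z)
          (Lg z z) (xr N ξ) (xr N ξ) n) ξ :=
  (fN_row_deriv (Rwo_zero N) h0 hz).deriv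

/-- `∂_z fx`, legs in `LS` -/
theorem fx_deriv_leg {N : ℕ} {ξ z : ℂ} (h0 : |ξ.re| < 3 / 5 * l) (hz : z ∈ LS) :
    deriv (fx N ξ) z =
      deriv (fun z => Pf z (xr N ξ) (xr N ξ)) z * SD z (xr N ξ) (xr N ξ) +
      Pf z (xr N ξ) (xr N ξ) *
        ∑ n ∈ Finset.range (2 * (N + 1) + 1), deriv (fun z => DZ (cn (N + 1)) (cn (N + 1)) (Lg z z)
          (Lg z z) (xr N ξ) (xr N ξ) n) z :=
  (fN_leg_deriv (Rwo.cons h0 (Rwo_zero N)) hz).deriv

/-- `∂_z² fx`, legs in `LS` -/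
theorem fx_deriv_leg2 {N : ℕ} {ξ z : ℂ} (h0 : |ξ.re| < 3 / 5 * l) (hz : z ∈ LS) :
    deriv (deriv (fx N ξ)) z =
      deriv (deriv fun z => Pf z (xr N ξ) (xr N ξ)) z * SD z (xr N ξ) (xr N ξ) +
      2 * (deriv (fun z => Pf z (xr N ξ) (xr N ξ)) z *
        ∑ n ∈ Finset.range (2 * (N + 1) + 1), deriv (fun z => DZ (cn (N + 1)) (cn (N + 1)) (Lg z z)
          (Lg z z) (xr N ξ) (xr N ξ) n) z) +
      Pf z (xr N ξ) (xr N ξ) *
        ∑ n ∈ Finset.range (2 * (N + 1) + 1), deriv (deriv fun z => DZ (cn (N + 1)) (cn (N + 1))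
          (Lg z z) (Lg z z) (xr N ξ) (xr N ξ) n) z :=
  fN_leg_deriv2 (Rwo.cons h0 (Rwo_zero N)) hz

end Pool.Agent.PB

end
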