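import Pool.Agent.PB.ObDef
import Pool.Agent.PB.ObCH
import Pool.Agent.NUGC.OneBd

/-!
# Class D: bounds of the row factors, of the legs and of the cutoff on the lines of the objects

* `rwC_le`, `rwC_line`, `thZ_le`: row and leg factors away from their poles;
* `phiW_cut`, `phiW_sat`: the cutoff of the rows `rowsW mu` on the lines;
* `rowT1`, `rowT2`: on the line of `St` the pole of a row is compensated by the zero of its cutoff;
* `prN_cH`, `exp_shift`: the pairs and their cloud; number of rows of the sea changed by a constant.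
-/

set_option autoImplicit false

noncomputable section

open Complex MeasureTheory Set

namespace PBO

open NUP1 NUO NUGC
open NUHM (Agh)

/-! ### sines -/

/-- `sin (l / 1000)` -/
def s1 : ℝ := Real.sin (l / 1000)

theorem pi_eq : 8 * l = Real.pi := by unfold l; ring

theorem s1_pos : 0 < s1 := by
  have hl := l_pos
  have hpi := pi_eq
  exact Real.sin_pos_of_pos_of_lt_pi (by positivity) (by linarith)

theorem s1_le_one : s1 ≤ 1 := Real.sin_le_one _

theorem abs_sin_ge {x : ℝ} (h1 : l / 1000 ≤ |x|) (h2 : |x| ≤ 8 * l - l / 1000) :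
    s1 ≤ |Real.sin x| := by
  have hl := l_pos
  have hpi := pi_eq
  have e : |Real.sin x| = Real.sin |x| := by
    rw [Real.abs_sin_eq_sin_abs_of_abs_le_pi]
    linarith
  rw [e]
  unfold s1
  rcases le_total |x| (4 * l) with h | h
  · exact Real.sin_le_sin_of_le_of_le_pi_div_two (by linarith) (by linarith) h1
  · rw [← Real.sin_pi_sub |x|]
    exact Real.sin_le_sin_of_le_of_le_pi_div_two (by linarith) (by linarith) (by linarith)

theorem sin_up (z : ℂ) : ‖sin z‖ ≤ Real.cosh z.im := by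
  have hc := Real.cosh_pos z.im
  refine (sq_le_sq₀ (norm_nonneg _) hc.le).1 ?_
  have h := NUMF.norm_sin_sq z.re z.im
  have e : (z.re : ℂ) + z.im * I = z := re_add_im z
  rw [e] at h
  rw [h, Real.cosh_two_mul, Real.sinh_sq]
  have := Real.neg_one_le_cos (2 * z.re)
  linarith

theorem sin_dn {z : ℂ} (h1 : l / 1000 ≤ |z.re|) (h2 : |z.re| ≤ 8 * l - l / 1000) :
    s1 * Real.cosh z.im ≤ ‖sin z‖ := by
  refine le_trans ?_ (Bd.le_norm_sin z)
  exact mul_le_mul_of_nonneg_right (abs_sin_ge h1 h2) (Real.cosh_pos _).le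

/-! ### rows and legs -/

/-- bound of the row factors -/
def cR : ℝ := (s1 ^ 2)⁻¹

theorem one_le_cR : 1 ≤ cR := by
  unfold cR
  have h0 := s1_pos
  have h1 := s1_le_one
  exact (one_le_inv₀ (by positivity)).2 (by nlinarith)

theorem rwC_le {x u : ℂ} (h1 : l / 1000 ≤ |u.re - x.re|) (h2 : |u.re - x.re| ≤ 8 * l - l / 1000)
    (h3 : l / 1000 ≤ |u.re - x.re - 2 * l|) (h4 : |u.re - x.re - 2 * l| ≤ 8 * l - l / 1000) :
    rwC x u ≤ cR := by
  have hs := s1_pos
  have e1 : (u - x).re = u.re - x.re := sub_re _ _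
  have e2 : (u - x - 2 * l).re = u.re - x.re - 2 * l := by simp
  have i1 : (u - x - 2 * l).im = (u - x).im := by simp
  have i2 : (u - x + 3 * l).im = (u - x).im := by simp
  have a1 := sin_up (u - x + 3 * l)
  have a2 := sin_dn (z := u - x) (by rw [e1]; exact h1) (by rw [e1]; exact h2)
  have a3 := sin_dn (z := u - x - 2 * l) (by rw [e2]; exact h3) (by rw [e2]; exact h4)
  rw [i2] at a1
  rw [i1] at a3
  have hc := Real.cosh_pos (u - x).im
  unfold rwC cR
  have e : (s1 ^ 2)⁻¹ = Real.cosh (u - x).im ^ 2 /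
      ((s1 * Real.cosh (u - x).im) * (s1 * Real.cosh (u - x).im)) := by
    field_simp
  rw [e]
  gcongr

/-- row factor on the vertical lines `-5/2 ≤ re u / l ≤ 1` at distance `l / 10` from `± l / 2` -/
theorem rwC_line {x u : ℂ} (hx : RowX x) (h1 : -(5 / 2 * l) ≤ u.re) (h2 : u.re ≤ l)
    (h3 : l / 10 ≤ |u.re - l / 2|) (h4 : l / 10 ≤ |u.re + l / 2|) : rwC x u ≤ cR := by
  have hl := l_pos
  have a0 : ∀ y : ℝ, l / 10 ≤ |y| → -(3 * l) ≤ y → y ≤ 3 / 2 * l → l / 1000 ≤ |y| ∧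
      |y| ≤ 8 * l - l / 1000 ∧ l / 1000 ≤ |y - 2 * l| ∧ |y - 2 * l| ≤ 8 * l - l / 1000 := by
    intro y hy h5 h6
    refine ⟨by linarith, ?_, ?_, ?_⟩
    · rw [abs_le]
      constructor <;> linarith
    · rw [abs_of_neg (by linarith)]
      linarith
    · rw [abs_of_neg (by linarith)]
      linarith
  rcases hx.1 with h | h
  · obtain ⟨b1, b2, b3, b4⟩ := a0 (u.re - x.re) (by rw [h]; exact h3) (by rw [h]; linarith)
      (by rw [h]; linarith)
    exact rwC_le b1 b2 b3 b4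
  · obtain ⟨b1, b2, b3, b4⟩ := a0 (u.re - x.re) (by rw [h, sub_neg_eq_add]; exact h4)
      (by rw [h]; linarith) (by rw [h]; linarith)
    exact rwC_le b1 b2 b3 b4

/-- bound of the factor of the legs -/
def cZ : ℝ := s1⁻¹

theorem cZ_pos : 0 < cZ := inv_pos.2 s1_pos

theorem thZ_le {z u : ℂ} (h1 : l / 1000 ≤ |z.re - u.re + 2 * l|)
    (h2 : |z.re - u.re + 2 * l| ≤ 8 * l - l / 1000) : thZ z u ≤ cZ := by
  have hs := s1_pos
  have e1 : (z - u + 2 * l).re = z.re - u.re + 2 * l := by simp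
  have i1 : (z - u + 2 * l).im = (z - u).im := by simp
  have i2 : (z - u - 3 * l).im = (z - u).im := by simp
  have a1 := sin_up (z - u - 3 * l)
  have a2 := sin_dn (z := z - u + 2 * l) (by rw [e1]; exact h1) (by rw [e1]; exact h2)
  rw [i2] at a1
  rw [i1] at a2
  have hc := Real.cosh_pos (z - u).im
  unfold thZ cZ
  have e : s1⁻¹ = Real.cosh (z - u).im / (s1 * Real.cosh (z - u).im) := by
    field_simp
  rw [e]
  gcongr

/-- admissible positions of the legs, strings on `-(1 + e) l`, `-(2 + e) l` -/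
def LegOK (e : ℝ) (z : ℂ) : Prop := -(9 / 10 * l) ≤ z.re ∧ z.re ≤ (4 - e - 1 / 1000) * l

theorem thZ_line {e : ℝ} {z u : ℂ} (hz : LegOK e z) (h1 : -((2 + e) * l) ≤ u.re)
    (h2 : u.re ≤ l) : thZ z u ≤ cZ := by
  have hl := l_pos
  obtain ⟨z1, z2⟩ := hz
  have h3 : 0 < z.re - u.re + 2 * l := by linarith
  refine thZ_le ?_ ?_
  · rw [abs_of_pos h3]
    linarith
  · rw [abs_of_pos h3]
    nlinarith

/-! ### products over lists -/

theorem prod_le_pow {L : List ℂ} {f : ℂ → ℝ} {c : ℝ} (hc : 1 ≤ c) (h0 : ∀ x ∈ L, 0 ≤ f x)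
    (h : ∀ x ∈ L, f x ≤ c) {n : ℕ} (hn : L.length ≤ n) : (L.map f).prod ≤ c ^ n := by
  have key : 0 ≤ (L.map f).prod ∧ (L.map f).prod ≤ c ^ L.length := by
    clear hn
    induction L with
    | nil => simp
    | cons x L ih =>
      obtain ⟨i0, i1⟩ := ih (fun y hy => h0 y (by simp [hy])) fun y hy => h y (by simp [hy])
      have a0 := h0 x (by simp)
      have a1 := h x (by simp)
      rw [List.map_cons, List.prod_cons, List.length_cons, pow_succ]
      refine ⟨mul_nonneg a0 i0, ?_⟩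
      calc f x * (L.map f).prod ≤ c * c ^ L.length := mul_le_mul a1 i1 i0 (by linarith)
        _ = _ := mul_comm _ _
  exact key.2.trans (pow_le_pow_right₀ hc hn)

theorem norm_prod_le_pow {L : List ℂ} {f : ℂ → ℂ} {c : ℝ} (hc : 1 ≤ c) (h : ∀ x ∈ L, ‖f x‖ ≤ c)
    {n : ℕ} (hn : L.length ≤ n) : ‖(L.map f).prod‖ ≤ c ^ n := by
  have e : ‖(L.map f).prod‖ = (L.map fun x => ‖f x‖).prod := by
    clear h hn
    induction L with
    | nil => simp
    | cons x L ih => rw [List.map_cons, List.prod_cons, norm_mul, ih, List.map_cons, List.prod_cons]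
  rw [e]
  exact prod_le_pow hc (fun x _ => norm_nonneg _) h hn

/-! ### the cutoff -/

section cutoff
variable {β : ℝ} {X : List ℂ} {u : ℂ}

theorem norm_prod_cs (h0 : 0 < β) (h1 : β ≤ 4 / 3) (hu : ∀ x ∈ X, |(u - x).re + l / 2| ≤ 3 * l / 2) :
    ‖(X.map fun x => psi β (u - x)).prod‖ ≤ 1 := by
  have := norm_prod_le_pow (f := fun x => psi β (u - x)) le_rfl (fun x hx => psi_le_one' h0 h1 (hu x hx))
    (le_refl X.length)
  rwa [one_pow] at this

theorem norm_phi_two (h0 : 0 < β) (h1 : β ≤ 4 / 3) (hu : ∀ x ∈ X, |(u - x).re + l / 2| ≤ 3 * l / 2) :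
    ‖phi β X u‖ ≤ 2 := by
  unfold phi
  refine (norm_sub_le _ _).trans ?_
  rw [norm_one]
  linarith [norm_prod_cs h0 h1 hu]

theorem norm_phi_cs (h0 : 0 < β) (h1 : β ≤ 4 / 3) (hu : ∀ x ∈ X, |(u - x).re + l / 2| ≤ 3 * l / 2)
    (hr : ∀ x ∈ X, |x.im| ≤ 2) :
    ‖phi β X u‖ ≤ 8 * Real.exp (16 / 3) * (X.length * Real.exp (-(2 * β) * |u.im|)) := by
  induction X with
  | nil => simp [phi]
  | cons x X ih =>
    have e : phi β (x :: X) u = (1 - psi β (u - x)) + psi β (u - x) * phi β X u := by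
      unfold phi
      rw [List.map_cons, List.prod_cons]; ring
    have ih' := ih (fun y hy => hu y (by simp [hy])) fun y hy => hr y (by simp [hy])
    have a1 := one_sub_psi' h0 h1 (hu x (by simp))
    have a2 := psi_le_one' h0 h1 (hu x (by simp))
    have a3 : Real.exp (-(2 * β) * |(u - x).im|) ≤ Real.exp (16 / 3) * Real.exp (-(2 * β) * |u.im|) := by
      rw [← Real.exp_add]
      refine Real.exp_le_exp.2 ?_
      have h3 : |u.im| - |x.im| ≤ |(u - x).im| := by rw [sub_im]; exact abs_sub_abs_le_abs_sub _ _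
      have h4 := hr x (by simp)
      nlinarith
    rw [e, List.length_cons]
    refine (norm_add_le _ _).trans ?_
    rw [norm_mul]
    have a4 : ‖psi β (u - x)‖ * ‖phi β X u‖ ≤ ‖phi β X u‖ := mul_le_of_le_one_left (norm_nonneg _) a2
    push_cast
    linarith

/-- the psi of one row on a wider strip -/
theorem psi_ext (h0 : 0 < β) (h1 : β ≤ 4 / 3) {z : ℂ} (hz : |z.re + l / 2| ≤ 9 / 5 * l) :
    ‖psi β z‖ ≤ 5 := by
  have hl := l_pos
  have hpi := pi_eq
  have hpi4 := Real.pi_lt_d2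
  have hc3 := cl_ge h0 h1
  have hc1 := cl_le_one β
  have s3 : 0 < √3 := Real.sqrt_pos.2 (by norm_num)
  have hc0 : 0 < cl β := lt_of_lt_of_le (by positivity) hc3
  have hcsq : 3 / 4 ≤ cl β ^ 2 := by
    have := pow_le_pow_left₀ (by positivity) hc3 2
    rwa [div_pow, Real.sq_sqrt (by norm_num), show (3 : ℝ) / 2 ^ 2 = 3 / 4 by norm_num] at this
  obtain ⟨θ, hθ⟩ : ∃ θ : ℝ, θ = 2 * β * (z.re + l / 2) := ⟨_, rfl⟩
  obtain ⟨y, hy⟩ : ∃ y : ℝ, y = 2 * β * z.im := ⟨_, rfl⟩
  have hθ1 : |θ| ≤ 3 / 5 * Real.pi := by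
    rw [hθ, abs_mul, abs_of_pos (by linarith : 0 < 2 * β)]
    calc 2 * β * |z.re + l / 2| ≤ 2 * (4 / 3) * (9 / 5 * l) := by gcongr
      _ = 3 / 5 * Real.pi := by rw [← hpi]; ring
  have hcos : -(1 / 3) ≤ Real.cos θ := by
    rw [← Real.cos_abs]
    refine le_trans ?_ (Real.cos_le_cos_of_nonneg_of_le_pi (abs_nonneg θ) (by linarith [Real.pi_pos]) hθ1)
    rw [show 3 / 5 * Real.pi = Real.pi / 10 + Real.pi / 2 by ring, Real.cos_add_pi_div_two]
    have := Real.sin_le (x := Real.pi / 10) (by positivity)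
    linarith
  have hch := Real.one_le_cosh y
  have hcf := cos_form β z
  rw [← hθ, ← hy] at hcf
  have hsc := Real.sin_sq_add_cos_sq θ
  have hsh := Real.cosh_sq y
  -- the denominator
  have hden : (2 / 5 * Real.cosh y) ^ 2 ≤ ‖cos (2 * β * z + β * l) + cos (β * l)‖ ^ 2 := by
    rw [hcf, cosl_cast, ← Complex.normSq_eq_norm_sq, Complex.normSq_apply]
    simp only [add_re, add_im, ofReal_re, ofReal_im, mul_re, mul_im, I_re, I_im, mul_zero, mul_one,
      sub_zero, add_zero, zero_add]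
    have e : (Real.cos θ * Real.cosh y + cl β) * (Real.cos θ * Real.cosh y + cl β) +
        -(Real.sin θ * Real.sinh y) * -(Real.sin θ * Real.sinh y) =
        (Real.cosh y + cl β * Real.cos θ) ^ 2 - (1 - cl β ^ 2) * Real.sin θ ^ 2 := by
      have e1 : Real.sinh y ^ 2 = Real.cosh y ^ 2 - 1 := by linarith
      have e2 : Real.sin θ ^ 2 = 1 - Real.cos θ ^ 2 := by linarith
      calc _ = (Real.cos θ * Real.cosh y + cl β) ^ 2 + Real.sin θ ^ 2 * Real.sinh y ^ 2 := by ring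
        _ = _ := by
          rw [e1, e2]
          ring
    rw [e]
    have h5 : 2 / 3 * Real.cosh y ≤ Real.cosh y + cl β * Real.cos θ := by nlinarith
    have h6 : (2 / 3 * Real.cosh y) ^ 2 ≤ (Real.cosh y + cl β * Real.cos θ) ^ 2 :=
      pow_le_pow_left₀ (by positivity) h5 2
    have h7 : Real.sin θ ^ 2 ≤ 1 := Real.sin_sq_le_one θ
    have h8 : (1 - cl β ^ 2) * Real.sin θ ^ 2 ≤ 1 / 4 * 1 := by
      refine mul_le_mul (by linarith) h7 (sq_nonneg _) (by norm_num)
    nlinarith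
  have hden' := (sq_le_sq₀ (by positivity) (norm_nonneg _)).1 hden
  have hnum : ‖cos (2 * β * z + β * l) - cos (β * l)‖ ≤ 2 * Real.cosh y := by
    refine (norm_sub_le _ _).trans ?_
    have h5 := norm_cos_le (2 * β * z + β * l)
    rw [im_arg, ← hy] at h5
    rw [cosl_cast, Complex.norm_real, Real.norm_of_nonneg hc0.le]
    linarith
  have hp : 0 < ‖cos (2 * β * z + β * l) + cos (β * l)‖ := lt_of_lt_of_le (by positivity) hden'
  unfold psi
  rw [norm_div, div_le_iff₀ hp]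
  linarith

end cutoff

/-! ### the rows of the cutoff -/

section rows
variable {n0 M : ℕ} {mu : List ℂ}

theorem RwD.mem (h : RwD n0 M mu) {x : ℂ} (hx : x ∈ mu) : |x.re| ≤ l / 2 ∧ |x.im| ≤ 2 := by
  have hl := l_pos
  obtain ⟨K, ex, h1, -, h3, -, -⟩ := h
  have hx' := h1.mem_iff.1 hx
  unfold pairs at hx'
  rw [List.mem_append, List.mem_append] at hx'
  rcases hx' with (hx' | hx') | hx'
  · rw [List.eq_of_mem_replicate hx', ofReal_re, ofReal_im, abs_of_pos (by positivity)]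
    norm_num
  · rw [List.eq_of_mem_replicate hx', ofReal_re, ofReal_im, abs_neg, abs_of_pos (by positivity)]
    norm_num
  · have h5 := h3 x hx'
    refine ⟨?_, h5.2⟩
    rcases h5.1 with h6 | h6
    · rw [h6, abs_of_pos (by positivity)]
    · rw [h6, abs_neg, abs_of_pos (by positivity)]

theorem mem_II {x : ℂ} (hx : x ∈ [I, -I]) : x.re = 0 ∧ |x.im| ≤ 2 := by
  rw [List.mem_cons, List.mem_singleton] at hx
  rcases hx with rfl | rfl
  · simp
  · simp

theorem RwD.memW (h : RwD n0 M mu) {x : ℂ} (hx : x ∈ rowsW mu) : |x.re| ≤ l / 2 ∧ |x.im| ≤ 2 := by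
  unfold rowsW at hx
  rcases List.mem_append.1 hx with hx | hx
  · exact h.mem hx
  · obtain ⟨h1, h2⟩ := mem_II hx
    refine ⟨?_, h2⟩
    rw [h1, abs_zero]
    have := l_pos
    positivity

theorem RwD.strip (h : RwD n0 M mu) {u : ℂ} (hu1 : -(3 / 2 * l) ≤ u.re) (hu2 : u.re ≤ l / 2) :
    ∀ x ∈ rowsW mu, |(u - x).re + l / 2| ≤ 3 * l / 2 := by
  intro x hx
  obtain ⟨h1, -⟩ := h.memW hx
  obtain ⟨h3, h4⟩ := abs_le.1 h1
  rw [sub_re, abs_le]
  constructor <;> linarith

/-- constant of `phiW_cut` -/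
def cP (n0 : ℕ) : ℝ := 8 * Real.exp (16 / 3) * (2 * n0 + 3)

theorem cP_ge (n0 : ℕ) : 2 ≤ cP n0 := by
  unfold cP
  have h1 : (1 : ℝ) ≤ Real.exp (16 / 3) := Real.one_le_exp (by norm_num)
  have h2 : (0 : ℝ) ≤ n0 := Nat.cast_nonneg n0
  nlinarith

theorem phiW_cut (h : RwD n0 M mu) {β : ℝ} (h0 : 0 < β) (h1 : β ≤ 4 / 3) {u : ℂ}
    (hu1 : -(3 / 2 * l) ≤ u.re) (hu2 : u.re ≤ l / 2) :
    ‖phi β (rowsW mu) u‖ ≤ cP n0 * cut (2 * M + 1) β u.im := by
  have hs := h.strip hu1 hu2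
  have a1 := norm_phi_two h0 h1 hs
  have a2 := norm_phi_cs h0 h1 hs fun x hx => (h.memW hx).2
  have hc := cP_ge n0
  have hlen : ((rowsW mu).length : ℝ) ≤ (2 * n0 + 3) * (2 * M + 1 : ℕ) := by
    have h3 : (rowsW mu).length ≤ (2 * n0 + 3) * (2 * M + 1) := by
      have h4 := h.len
      have e : (rowsW mu).length = mu.length + 2 := by
        unfold rowsW
        rw [List.length_append]
        rfl
      rw [e]
      nlinarith
    exact_mod_cast h3
  unfold cut
  rcases le_total 1 ((2 * M + 1 : ℕ) * Real.exp (-(2 * β) * |u.im|)) with h5 | h5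
  · rw [min_eq_left h5, mul_one]
    exact a1.trans hc
  · rw [min_eq_right h5]
    refine a2.trans ?_
    unfold cP
    have hE := Real.exp_pos (-(2 * β) * |u.im|)
    calc 8 * Real.exp (16 / 3) * ((rowsW mu).length * Real.exp (-(2 * β) * |u.im|)) ≤
        8 * Real.exp (16 / 3) * (((2 * n0 + 3) * (2 * M + 1 : ℕ)) * Real.exp (-(2 * β) * |u.im|)) := by
          gcongr
      _ = _ := by ring

/-- constant of `phiW_sat` -/
def cS (n0 : ℕ) : ℝ := 1 + 5 ^ (n0 + 2)

theorem phiW_sat (h : RwD n0 M mu) {β : ℝ} (h0 : 0 < β) (h1 : β ≤ 4 / 3) {u : ℂ}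
    (hu1 : 3 / 5 * l ≤ u.re) (hu2 : u.re ≤ 4 / 5 * l) : ‖phi β (rowsW mu) u‖ ≤ cS n0 := by
  have hl := l_pos
  obtain ⟨K, ex, g1, g2, g3, -, -⟩ := h
  have e : (rowsW mu).Perm (rowsW (pairs K ++ ex)) := g1.append_right _
  rw [phi_perm e, phi_pairs]
  have a1 : ‖PsiP β u‖ ≤ 1 := by
    rw [PsiP_eq']
    refine NURow.norm_Psi_le_one (two_bl h0 h1) (adm_of_le h0 h1 (s := 13 / 10 * l) (by positivity)
      (by linarith)) ?_
    rw [abs_le]
    constructor <;> linarith
  have a2 : ‖((ex ++ [I, -I]).map fun x => psi β (u - x)).prod‖ ≤ 5 ^ (n0 + 2) := by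
    refine norm_prod_le_pow (by norm_num) ?_ ?_
    · intro x hx
      refine psi_ext h0 h1 ?_
      have hx' : |x.re| ≤ l / 2 := by
        rcases List.mem_append.1 hx with hx | hx
        · rcases (g3 x hx).1 with h6 | h6
          · rw [h6, abs_of_pos (by positivity)]
          · rw [h6, abs_neg, abs_of_pos (by positivity)]
        · rw [(mem_II hx).1, abs_zero]
          positivity
      obtain ⟨h3, h4⟩ := abs_le.1 hx'
      rw [sub_re, abs_le]
      constructor <;> linarith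
    · rw [List.length_append]
      show ex.length + 2 ≤ n0 + 2
      omega
  unfold cS
  refine (norm_sub_le _ _).trans ?_
  rw [norm_one, norm_mul, norm_pow]
  have a3 : ‖PsiP β u‖ ^ K ≤ 1 := pow_le_one₀ (norm_nonneg _) a1
  have a4 : ‖PsiP β u‖ ^ K * ‖((ex ++ [I, -I]).map fun x => psi β (u - x)).prod‖ ≤ 1 * 5 ^ (n0 + 2) :=
    mul_le_mul a3 a2 (norm_nonneg _) zero_le_one
  linarith

end rows

/-! ### pairs and their cloud -/

theorem prN_cH {j : ℝ} (h0 : -(1 / 2) < j) (h1 : j ≠ 1 / 2) (h2 : j ≠ 3 / 2) (h4 : j < 7 / 2)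
    (K : ℕ) (t : ℝ) : prN (vl ((1 - j) * l) t) ^ K * Real.exp (2 * K * cH j t) =
      Real.exp (2 * K * (NUHM.mo j t + NUHM.mc j t)) := by
  have h := cH_eq j t
  rw [prN_ok h0 h1 h2 h4, ← Real.exp_nat_mul, ← Real.exp_add]
  congr 1
  linear_combination (K : ℝ) * h

/-- the number of rows of the sea changed by at most `n0` -/
theorem exp_shift {K m n0 : ℕ} (h1 : 2 * K ≤ m + n0) (h2 : m ≤ 2 * K + n0) {v V : ℝ} (hv : |v| ≤ V) :
    Real.exp (m * v) ≤ Real.exp (2 * K * v) * Real.exp (n0 * V) := by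
  rw [← Real.exp_add]
  refine Real.exp_le_exp.2 ?_
  have e : (m : ℝ) * v - 2 * K * v = (m - 2 * K) * v := by ring
  have h3 : |(m : ℝ) - 2 * K| ≤ n0 := by
    have h1' : (2 * K : ℝ) ≤ m + n0 := by exact_mod_cast h1
    have h2' : (m : ℝ) ≤ 2 * K + n0 := by exact_mod_cast h2
    rw [abs_le]
    constructor <;> linarith
  have h4 : ((m : ℝ) - 2 * K) * v ≤ n0 * V := by
    refine (le_abs_self _).trans ?_
    rw [abs_mul]
    exact mul_le_mul h3 hv (abs_nonneg _) (Nat.cast_nonneg _)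
  linarith

theorem exp_shift' {K m n0 : ℕ} (h1 : 2 * K ≤ m + n0) (h2 : m ≤ 2 * K + n0) {v V : ℝ} (hv : |v| ≤ V) :
    Real.exp (2 * K * v) ≤ Real.exp (m * v) * Real.exp (n0 * V) := by
  rw [← Real.exp_add]
  refine Real.exp_le_exp.2 ?_
  have e : 2 * K * v - (m : ℝ) * v = -((m - 2 * K) * v) := by ring
  have h3 : |(m : ℝ) - 2 * K| ≤ n0 := by
    have h1' : (2 * K : ℝ) ≤ m + n0 := by exact_mod_cast h1
    have h2' : (m : ℝ) ≤ 2 * K + n0 := by exact_mod_cast h2
    rw [abs_le]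
    constructor <;> linarith
  have h4 : -(((m : ℝ) - 2 * K) * v) ≤ n0 * V := by
    refine (neg_le_abs _).trans ?_
    rw [abs_mul]
    exact mul_le_mul h3 hv (abs_nonneg _) (Nat.cast_nonneg _)
  linarith

end PBO

end
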