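import Pool.Agent.PB.ObB

/-!
# Plan B, rows `0`: one body data and the bounds of their factors

Sea of `m` rows at `0`.  `ObZ n0 h0 G m β e B`: the one body data `B` has the rows
`mu = 0^K ++ ex` (`|K - m| ≤ n0`, at most `n0` rows `ex` with `|re| ≤ l / 5`, `|im| ≤ h0`), the cutoff of
the points `mu ++ W1` (strings: `mu ++ W2`) and a further factor `0 ≤ g ≤ G` on the lines.

* `clo_bdd`: the cloud of one quantum is bounded;
* `rwC_Z`, `R_Z`, `phiZ_cut`: row factor and cutoff on the lines of the objects.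
-/

set_option autoImplicit false

noncomputable section

open Complex MeasureTheory Set

namespace PBO

open NUP1 NUO NUGC

/-! ### the cloud -/

section cloud
open NUMF (H h)

theorem H_le (t y : ℝ) : H t y ≤ H t 0 := by
  unfold NUMF.H
  refine integral_mono_ae (NUMF.Ph_integrable t y) (NUMF.Ph_integrable t 0) ?_
  filter_upwards [NUMF.ae_ne t] with s hs
  exact mul_le_mul_of_nonneg_left (h_le_zero _ _ hs) (NUMF.P_pos s).le

theorem le_H (t y : ℝ) : H t (4 * NUMF.l) ≤ H t y := by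
  unfold NUMF.H
  refine integral_mono_ae (NUMF.Ph_integrable t (4 * NUMF.l)) (NUMF.Ph_integrable t y) ?_
  filter_upwards [NUMF.ae_ne t] with s hs
  exact mul_le_mul_of_nonneg_left (h_four_le _ _ hs) (NUMF.P_pos s).le

/-- the potentials of the cloud at two positions differ by a constant, rows `0` -/
theorem H_gap (t : ℝ) : H t 0 - H t (4 * NUMF.l) ≤ cG := by
  have d0 := NUMF.conv_unit t (y := 0) (by norm_num)
  have d1 := NUMF.conv_unit t (y := 1) (by norm_num)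
  have d2 := NUMF.conv_unit t (y := 2) (by norm_num)
  have d3 := NUMF.conv_unit t (y := 3) (by norm_num)
  have e0 : H t ((0 - 1) * NUMF.l) = H t NUMF.l := by
    have h1 : H t (-NUMF.l) = H t NUMF.l := by
      unfold NUMF.H
      simp_rw [NUMF.h_neg_right]
    rw [← h1]
    congr 1
    ring
  rw [e0] at d0
  simp only [show (0 + 1 : ℝ) * NUMF.l = NUMF.l by ring, show (0 : ℝ) * NUMF.l = 0 by ring,
    show (1 + 1 : ℝ) * NUMF.l = 2 * NUMF.l by ring, show (1 - 1 : ℝ) * NUMF.l = 0 by ring,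
    show (1 : ℝ) * NUMF.l = NUMF.l by ring, show (2 + 1 : ℝ) * NUMF.l = 3 * NUMF.l by ring,
    show (2 - 1 : ℝ) * NUMF.l = NUMF.l by ring, show (3 + 1 : ℝ) * NUMF.l = 4 * NUMF.l by ring,
    show (3 - 1 : ℝ) * NUMF.l = 2 * NUMF.l by ring] at d0 d1 d2 d3
  have h3 := le_H t (3 * NUMF.l)
  have u0 := h_up t 0
  have u1 := h_up t NUMF.l
  have g2 := h_dn t (y := 2) (by norm_num) (by norm_num)
  have g3 := h_dn t (y := 3) (by norm_num) (by norm_num)
  unfold cG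
  linarith

/-- **the cloud of one quantum is bounded**, rows `0` -/
theorem clo_bdd (j t : ℝ) : |clo j t| ≤ 3 * cG := by
  unfold clo
  rw [(NUMF.int_lq j t).2, (NUMF.int_lqg j t).2]
  have g := H_gap t
  have a1 := H_le t ((4 - j) * NUMF.l)
  have a2 := H_le t ((2 - j) * NUMF.l)
  have a3 := H_le t ((2 + j) * NUMF.l)
  have a4 := H_le t ((3 - j) * NUMF.l)
  have a5 := H_le t ((5 - j) * NUMF.l)
  have a6 := H_le t (j * NUMF.l)
  have a7 := H_le t (j * NUMF.l + NUMF.l)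
  have a8 := H_le t (j * NUMF.l - NUMF.l)
  have b1 := le_H t ((4 - j) * NUMF.l)
  have b2 := le_H t ((2 - j) * NUMF.l)
  have b3 := le_H t ((2 + j) * NUMF.l)
  have b4 := le_H t ((3 - j) * NUMF.l)
  have b5 := le_H t ((5 - j) * NUMF.l)
  have b6 := le_H t (j * NUMF.l)
  have b7 := le_H t (j * NUMF.l + NUMF.l)
  have b8 := le_H t (j * NUMF.l - NUMF.l)
  rw [abs_le]
  constructor <;> linarith

end cloud

/-! ### the data -/

/-- a further row, or a point of the cutoff -/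
def PtZ (h0 : ℝ) (x : ℂ) : Prop := |x.re| ≤ l / 5 ∧ |x.im| ≤ h0

/-- rows: `K` rows at `0` and the rows `ex` -/
structure RwZ (n0 : ℕ) (h0 : ℝ) (m K : ℕ) (mu ex : List ℂ) : Prop where
  perm : mu.Perm (List.replicate K 0 ++ ex)
  len : ex.length ≤ n0
  pt : ∀ x ∈ ex, PtZ h0 x
  up : K ≤ m + n0
  dn : m ≤ K + n0

/-- at most `n0` points of the cutoff -/
structure PtsZ (n0 : ℕ) (h0 : ℝ) (W : List ℂ) : Prop where
  len : W.length ≤ n0
  pt : ∀ x ∈ W, PtZ h0 x

theorem PtsZ.nil (n0 : ℕ) (h0 : ℝ) : PtsZ n0 h0 [] := ⟨Nat.zero_le _, by simp⟩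

theorem PtsZ.II {n0 : ℕ} (hn : 2 ≤ n0) {h0 : ℝ} (h : 1 ≤ h0) : PtsZ n0 h0 [I, -I] := by
  refine ⟨hn, fun x hx => ?_⟩
  have hl := l_pos
  rw [List.mem_cons, List.mem_singleton] at hx
  rcases hx with rfl | rfl
  · refine ⟨?_, ?_⟩
    · rw [I_re, abs_zero]; positivity
    · rw [I_im, abs_one]; exact h
  · refine ⟨?_, ?_⟩
    · rw [neg_re, I_re, neg_zero, abs_zero]; positivity
    · rw [neg_im, I_im, abs_neg, abs_one]; exact h

/-- a factor bounded by `G` on the strip which contains the lines of the objects -/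
def SpZ (G e : ℝ) (g : Bool → ℂ → ℝ) : Prop :=
  ∀ a (u : ℂ), -((2 + e) * l) ≤ u.re → u.re ≤ 4 / 5 * l → 0 ≤ g a u ∧ g a u ≤ G

/-- **one body data with the rows `0^K ++ ex`**, cutoff points `W1` (strings: `W2`), further factor
`g` -/
structure ObZ (n0 : ℕ) (h0 G : ℝ) (m : ℕ) (β e : ℝ) (B : OB) (K : ℕ) (mu ex W1 W2 : List ℂ)
    (c0 : ℝ) (g : Bool → ℂ → ℝ) : Prop where
  rows : RwZ n0 h0 m K mu ex
  w1 : PtsZ n0 h0 W1
  w2 : PtsZ n0 h0 W2
  cc : 0 ≤ c0 ∧ c0 ≤ 2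
  sp : SpZ G e g
  R : ∀ a u, B.R a u = c0 * (mu.map fun x => rwC x u).prod * g a u
  φ : B.φ = phi β (mu ++ W1)
  φ0 : B.φ0 = phi (4 / 3) (mu ++ W2)

/-! ### rows -/

theorem rwC_Z {h0 : ℝ} {x u : ℂ} (hx : PtZ h0 x) (h1 : -(5 / 2 * l) ≤ u.re) (h2 : u.re ≤ l)
    (h3 : 3 / 10 * l ≤ |u.re|) : rwC x u ≤ cR := by
  have hl := l_pos
  obtain ⟨x1, x2⟩ := abs_le.1 hx.1
  have a1 : l / 10 ≤ |u.re - x.re| := by
    have := abs_sub_abs_le_abs_sub u.re x.re
    linarith [hx.1]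
  refine rwC_le (by linarith) ?_ ?_ ?_
  · rw [abs_le]
    constructor <;> linarith
  · rw [abs_of_neg (by linarith)]
    linarith
  · rw [abs_of_neg (by linarith)]
    linarith

section
variable {n0 : ℕ} {h0 G β e : ℝ} {m : ℕ} {B : OB} {K : ℕ} {mu ex W1 W2 : List ℂ} {c0 : ℝ}
  {g : Bool → ℂ → ℝ}

theorem prod_rows (h : RwZ n0 h0 m K mu ex) (u : ℂ) : (mu.map fun x => rwC x u).prod =
    rwC 0 u ^ K * (ex.map fun x => rwC x u).prod := by
  rw [(h.perm.map fun x => rwC x u).prod_eq, List.map_append, List.prod_append,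
    List.map_replicate, List.prod_replicate]

/-- constant of the row factors -/
def cQ (n0 : ℕ) (G : ℝ) : ℝ := 2 * cR ^ n0 * G

theorem cR_pos' : 0 < cR := lt_of_lt_of_le one_pos one_le_cR

theorem cQ_pos {n0 : ℕ} {G : ℝ} (hG : 0 < G) : 0 < cQ n0 G := by
  unfold cQ
  have := cR_pos'
  positivity

/-- row factor on the lines -/
theorem R_Z (h : ObZ n0 h0 G m β e B K mu ex W1 W2 c0 g) (a : Bool) {u : ℂ}
    (h1 : -(5 / 2 * l) ≤ u.re) (h2 : u.re ≤ 4 / 5 * l) (h3 : 3 / 10 * l ≤ |u.re|)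
    (h4 : -((2 + e) * l) ≤ u.re) :
    0 ≤ B.R a u ∧ B.R a u ≤ cQ n0 G * rwC 0 u ^ K := by
  have hl := l_pos
  unfold cQ
  obtain ⟨g1, g2⟩ := h.sp a u h4 h2
  obtain ⟨c1, c2⟩ := h.cc
  have hR := one_le_cR
  have p1 : (ex.map fun x => rwC x u).prod ≤ cR ^ n0 :=
    prod_le_pow one_le_cR (fun x _ => rwC_nonneg x u)
      (fun x hx => rwC_Z (h.rows.pt x hx) h1 (by linarith) h3) h.rows.len
  have p0 := prod_rwC_nonneg ex u
  have q0 : 0 ≤ rwC 0 u ^ K := pow_nonneg (rwC_nonneg 0 u) K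
  rw [h.R, prod_rows h.rows]
  refine ⟨by positivity, ?_⟩
  calc c0 * (rwC 0 u ^ K * (ex.map fun x => rwC x u).prod) * g a u ≤
      2 * (rwC 0 u ^ K * cR ^ n0) * G := by gcongr
    _ = _ := by ring

/-- a row at `0` and its cloud -/
theorem rw0_clo {j : ℝ} (h0 : 0 ≤ j) (h1 : j ≠ 1) (h4 : j < 4) (K : ℕ) (t : ℝ) :
    rwC 0 (vl ((1 - j) * l) t) ^ K * Real.exp (K * clo j t) = Real.exp (K * NUMF.mf j t) := by
  have h := RN_clo h0 h1 h4 K t
  have hc := cos_l_pos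
  have e : RN K (vl ((1 - j) * l) t) = 2 * Real.cos l * rwC 0 (vl ((1 - j) * l) t) ^ K := by
    unfold RN rwC
    rw [sub_zero]
  rw [e, mul_assoc] at h
  exact mul_left_cancel₀ (by positivity) h

/-- the number of rows changed by at most `n0` -/
theorem exp_shZ (h1 : K ≤ m + n0) (h2 : m ≤ K + n0) {v V : ℝ} (hv : |v| ≤ V) :
    Real.exp (m * v) ≤ Real.exp (K * v) * Real.exp (n0 * V) := by
  rw [← Real.exp_add]
  refine Real.exp_le_exp.2 ?_
  have e : (m : ℝ) * v - K * v = (m - K) * v := by ring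
  have h3 : |(m : ℝ) - K| ≤ n0 := by
    have h1' : (K : ℝ) ≤ m + n0 := by exact_mod_cast h1
    have h2' : (m : ℝ) ≤ K + n0 := by exact_mod_cast h2
    rw [abs_le]
    constructor <;> linarith
  have h4 : ((m : ℝ) - K) * v ≤ n0 * V := by
    refine (le_abs_self _).trans ?_
    rw [abs_mul]
    exact mul_le_mul h3 hv (abs_nonneg _) (Nat.cast_nonneg _)
  linarith

/-! ### the cutoff -/

theorem norm_phi_csZ (hβ0 : 0 < β) (hβ1 : β ≤ 4 / 3) {X : List ℂ} {u : ℂ}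
    (hu : ∀ x ∈ X, |(u - x).re + l / 2| ≤ 3 * l / 2) (hh : 0 ≤ h0) (hr : ∀ x ∈ X, |x.im| ≤ h0) :
    ‖phi β X u‖ ≤ 8 * Real.exp (8 / 3 * h0) * (X.length * Real.exp (-(2 * β) * |u.im|)) := by
  induction X with
  | nil => simp [phi]
  | cons x X ih =>
    have e : phi β (x :: X) u = (1 - psi β (u - x)) + psi β (u - x) * phi β X u := by
      unfold phi
      rw [List.map_cons, List.prod_cons]; ring
    have ih' := ih (fun y hy => hu y (by simp [hy])) fun y hy => hr y (by simp [hy])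
    have a1 := one_sub_psi' hβ0 hβ1 (hu x (by simp))
    have a2 := psi_le_one' hβ0 hβ1 (hu x (by simp))
    have a3 : Real.exp (-(2 * β) * |(u - x).im|) ≤
        Real.exp (8 / 3 * h0) * Real.exp (-(2 * β) * |u.im|) := by
      rw [← Real.exp_add]
      refine Real.exp_le_exp.2 ?_
      have h3 : |u.im| - |x.im| ≤ |(u - x).im| := by rw [sub_im]; exact abs_sub_abs_le_abs_sub _ _
      have h4 := hr x (by simp)
      have h5 : 2 * β * (|u.im| - |(u - x).im|) ≤ 2 * β * h0 :=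
        mul_le_mul_of_nonneg_left (by linarith) (by linarith)
      have h6 : 2 * β * h0 ≤ 8 / 3 * h0 := mul_le_mul_of_nonneg_right (by linarith) hh
      linarith
    rw [e, List.length_cons]
    refine (norm_add_le _ _).trans ?_
    rw [norm_mul]
    have a4 : ‖psi β (u - x)‖ * ‖phi β X u‖ ≤ ‖phi β X u‖ := mul_le_of_le_one_left (norm_nonneg _) a2
    push_cast
    linarith

theorem RwZ.mem (hh : 0 ≤ h0) (h : RwZ n0 h0 m K mu ex) {x : ℂ} (hx : x ∈ mu) : PtZ h0 x := by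
  have hl := l_pos
  rcases List.mem_append.1 (h.perm.mem_iff.1 hx) with hx | hx
  · rw [List.eq_of_mem_replicate hx]
    refine ⟨?_, ?_⟩
    · rw [zero_re, abs_zero]; positivity
    · rw [zero_im, abs_zero]; exact hh
  · exact h.pt x hx

theorem memZ (hh : 0 ≤ h0) (h : RwZ n0 h0 m K mu ex) {W : List ℂ} (hW : PtsZ n0 h0 W) {x : ℂ}
    (hx : x ∈ mu ++ W) : PtZ h0 x := by
  rcases List.mem_append.1 hx with hx | hx
  · exact h.mem hh hx
  · exact hW.pt x hx

theorem stripZ (hh : 0 ≤ h0) (h : RwZ n0 h0 m K mu ex) {W : List ℂ} (hW : PtsZ n0 h0 W) {u : ℂ}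
    (hu1 : -(3 / 2 * l) ≤ u.re) (hu2 : u.re ≤ 4 / 5 * l) :
    ∀ x ∈ mu ++ W, |(u - x).re + l / 2| ≤ 3 * l / 2 := by
  intro x hx
  have hl := l_pos
  obtain ⟨h3, h4⟩ := abs_le.1 (memZ hh h hW hx).1
  rw [sub_re, abs_le]
  constructor <;> linarith

theorem lenZ (hm : 1 ≤ m) (h : RwZ n0 h0 m K mu ex) {W : List ℂ} (hW : PtsZ n0 h0 W) :
    ((mu ++ W).length : ℝ) ≤ (3 * n0 + 1) * m := by
  have h1 : (mu ++ W).length ≤ (3 * n0 + 1) * m := by
    have e : mu.length = K + ex.length := by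
      rw [h.perm.length_eq, List.length_append, List.length_replicate]
    have h2 := h.len
    have h3 := h.up
    have h4 := hW.len
    rw [List.length_append, e]
    nlinarith
  exact_mod_cast h1

/-- constant of `phiZ_cut` -/
def cPZ (n0 : ℕ) (h0 : ℝ) : ℝ := 8 * Real.exp (8 / 3 * h0) * (3 * n0 + 1)

theorem cPZ_ge (hh : 0 ≤ h0) : 2 ≤ cPZ n0 h0 := by
  unfold cPZ
  have h1 : (1 : ℝ) ≤ Real.exp (8 / 3 * h0) := Real.one_le_exp (by positivity)
  have h2 : (0 : ℝ) ≤ n0 := Nat.cast_nonneg n0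
  nlinarith [mul_nonneg (by linarith : (0 : ℝ) ≤ Real.exp (8 / 3 * h0)) h2]

/-- the cutoff on the lines -/
theorem phiZ_cut (hm : 1 ≤ m) (hh : 0 ≤ h0) (h : RwZ n0 h0 m K mu ex) {W : List ℂ}
    (hW : PtsZ n0 h0 W) (hβ0 : 0 < β) (hβ1 : β ≤ 4 / 3) {u : ℂ} (hu1 : -(3 / 2 * l) ≤ u.re)
    (hu2 : u.re ≤ 4 / 5 * l) :
    ‖phi β (mu ++ W) u‖ ≤ 2 ∧ ‖phi β (mu ++ W) u‖ ≤ cPZ n0 h0 * cut m β u.im := by
  have hs := stripZ hh h hW hu1 hu2
  have a1 := norm_phi_two hβ0 hβ1 hs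
  have a2 := norm_phi_csZ hβ0 hβ1 hs hh fun x hx => (memZ hh h hW hx).2
  have hc := cPZ_ge (n0 := n0) hh
  have hlen := lenZ hm h hW
  refine ⟨a1, ?_⟩
  unfold cut
  rcases le_total 1 (m * Real.exp (-(2 * β) * |u.im|)) with h5 | h5
  · rw [min_eq_left h5, mul_one]
    exact a1.trans hc
  · rw [min_eq_right h5]
    refine a2.trans ?_
    unfold cPZ
    calc 8 * Real.exp (8 / 3 * h0) * ((mu ++ W).length * Real.exp (-(2 * β) * |u.im|)) ≤
        8 * Real.exp (8 / 3 * h0) * (((3 * n0 + 1) * m) * Real.exp (-(2 * β) * |u.im|)) := by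
          gcongr
      _ = _ := by ring

/-- the product of the cutoff: rows at `0` and the others -/
theorem prod_psiZ (h : RwZ n0 h0 m K mu ex) (W : List ℂ) (β : ℝ) (u : ℂ) :
    ((mu ++ W).map fun x => psi β (u - x)).prod =
      psi β u ^ K * ((ex ++ W).map fun x => psi β (u - x)).prod := by
  rw [List.map_append, List.prod_append, (h.perm.map fun x => psi β (u - x)).prod_eq,
    List.map_append, List.prod_append, List.map_replicate, List.prod_replicate, sub_zero,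
    List.map_append, List.prod_append, mul_assoc]

theorem norm_prodZ (h : RwZ n0 h0 m K mu ex) {W : List ℂ}
    (hW : PtsZ n0 h0 W) (hβ0 : 0 < β) (hβ1 : β ≤ 4 / 3) {u : ℂ} (hu1 : -(3 / 2 * l) ≤ u.re)
    (hu2 : u.re ≤ 4 / 5 * l) {q : ℝ} (hq : ‖psi β u‖ ≤ q) :
    ‖((mu ++ W).map fun x => psi β (u - x)).prod‖ ≤ q ^ K := by
  have hl := l_pos
  rw [prod_psiZ h, norm_mul, norm_pow]
  have a1 : ‖psi β u‖ ^ K ≤ q ^ K := pow_le_pow_left₀ (norm_nonneg _) hq K
  have a2 : ‖((ex ++ W).map fun x => psi β (u - x)).prod‖ ≤ 1 := by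
    refine norm_prod_cs hβ0 hβ1 fun x hx => ?_
    have hp : PtZ h0 x := by
      rcases List.mem_append.1 hx with hx | hx
      · exact h.pt x hx
      · exact hW.pt x hx
    obtain ⟨h3, h4⟩ := abs_le.1 hp.1
    rw [sub_re, abs_le]
    constructor <;> linarith
  calc ‖psi β u‖ ^ K * ‖((ex ++ W).map fun x => psi β (u - x)).prod‖ ≤ q ^ K * 1 :=
        mul_le_mul a1 a2 (norm_nonneg _) (pow_nonneg ((norm_nonneg _).trans hq) K)
    _ = _ := mul_one _

end

end PBO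

end
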