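import Pool.Agent.PB.ObZS
import Pool.Agent.NUGC.OneActC

/-!
# Plan B, rows `0`: the one body factor of every object is at most the activity

* `one_actZ`: any one body data `ObZ`, any parameters `ParOK`, any slack, any current;
* `one_actZ0`: the parameters `par0 m`, the slack `NUSlk.slk` (`slk0_eq`: its integral form);
  one hypothesis `ObZ .. eM B ..` with `eM = 1251/5000` for all objects;
* `legZ`: the legs, `-(9/10) l ≤ re z ≤ (187/50) l`, any height; `ObZ.mk'`: data from lists.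
-/

set_option autoImplicit false

noncomputable section

open Complex MeasureTheory Set

namespace PBO

open NUP1 NUO NUGC

theorem SpZ.mono {G e e' : ℝ} {g : Bool → ℂ → ℝ} (h : SpZ G e' g) (he : e ≤ e') : SpZ G e g := by
  intro a u h1 h2
  refine h a u ?_ h2
  have := l_pos
  nlinarith

theorem ObZ.mono {n0 : ℕ} {h0 G β e e' : ℝ} {m : ℕ} {B : OB} {K : ℕ} {mu ex W1 W2 : List ℂ} {c0 : ℝ}
    {g : Bool → ℂ → ℝ} (h : ObZ n0 h0 G m β e' B K mu ex W1 W2 c0 g) (he : e ≤ e') :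
    ObZ n0 h0 G m β e B K mu ex W1 W2 c0 g :=
  { h with sp := h.sp.mono he }

/-- **the one body factor of every object is at most the activity**, rows `0` -/
theorem one_actZ (n0 : ℕ) {h0 G : ℝ} (hh : 0 ≤ h0) (hG : 0 < G) {κ : ℝ} (hκ : 0 < κ) (K0 K1 : ℝ)
    (hK1 : 0 ≤ K1) (k0 : ℕ) :
    ∃ C c : ℝ, 0 < C ∧ 0 < c ∧ ∀ m : ℕ, 3 ≤ m → ∀ P : Par, ParOK P m K1 →
      ∀ slk : ℝ → ℝ, (∀ t, slk t + κ * NUMF.P t ≤ 2 * NUMF.Ag (1 / 4) t) →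
      ∀ ep : ℝ, 0 < ep → ep ≤ 1 / 100 → ∀ e1 J : ℝ,
      ∀ T' : ℝ, Tb (Real.log m) / (1 - ep) ≤ T' → ∀ h : ℝ → ℝ, (∀ t, 0 ≤ h t) →
      (∀ t, |t| ≤ (1 - 3 * e1) * Tb (Real.log m) → J ≤ h t) →
      ∀ (r : ℕ) (O : Fin r → Xo) (i : Fin r) (B : OB) (K : ℕ) (mu ex W1 W2 : List ℂ) (c0 : ℝ)
        (g : Bool → ℂ → ℝ),
        ObZ n0 h0 G m (4 / 3 * (1 - ep)) (ei P O i) B K mu ex W1 W2 c0 g →
        ob1c B P.jL (ei P O i) (rr P O i) (O i) *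
          Real.exp (m * mfo (cons P O i) + m * slkK slk (kd (O i)) (ht (O i)) -
            2 * Real.pi * wK (kd (O i)) * h (ht (O i)) + exc T' (ht (O i)) + K0) *
            colK (((r : ℝ) + 1) ^ k0) (kd (O i)) ≤
          act C 1 c (1 / 10) (k0 + 6) (Real.log m) ep e1 J r (ht (O i)) := by
  obtain ⟨B0, hB0, hB⟩ := wZ_KB n0 hh hG
  obtain ⟨C, c, hC, hc, H⟩ := kb_act hκ K0 K1 B0 hK1 hB0 k0
  refine ⟨C, c, hC, hc, fun m hm P hP slk hslk ep hep hep1 e1 J T' hT' h hh' hJ r O i B K mu ex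
    W1 W2 c0 g hZ => ?_⟩
  obtain ⟨q0, q1⟩ := ei_bd hP O i
  have hA := Ag_mono (a := 1 / 4) (a' := ei P O i) (by norm_num) q0 (by linarith) (ht (O i))
  have hs := hslk (ht (O i))
  have hW := hB m (4 / 3 * (1 - ep)) (ei P O i) B K mu ex W1 W2 c0 g (by omega) (by linarith)
    (by linarith) hZ q0 q1 P.jL (rr P O i) (O i) hP.j1 hP.j2 (hP.r0 r _) (hP.r1 r _)
  have key := H m hm P hP ep hep hep1 e1 J T' hT' r O i
    (wZ B m P.jL (ei P O i) (rr P O i) (O i)) (NUMF.Ag (ei P O i) (ht (O i))) (h (ht (O i))) slk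
    (hh' _) (hJ _) (by linarith) hW
  refine le_trans (le_of_eq ?_) key
  unfold wZ
  have e : Real.exp (m * mfo (cons P O i) + m * slkK slk (kd (O i)) (ht (O i)) -
            2 * Real.pi * wK (kd (O i)) * h (ht (O i)) + exc T' (ht (O i)) + K0) =
      Real.exp (m * mfo (parts P.jL (ei P O i) (rr P O i) (O i))) *
        Real.exp (m * slkK slk (kd (O i)) (ht (O i)) -
          2 * Real.pi * wK (kd (O i)) * h (ht (O i)) + exc T' (ht (O i)) + K0) := by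
    rw [← Real.exp_add]
    congr 1
    unfold cons
    ring
  rw [e]
  ring

/-- the slack of the sea of the rows `0` in integral form -/
theorem slk0_eq : (fun t : ℝ => ∫ u, @NUSea.P NUSea.seaP u * NUC43.slk (u - t)) = NUSlk.slk := by
  funext t
  unfold NUSlk.slk
  congr 1
  funext u
  rw [NUC43.slk_psiS, ← NUSlk.psiS_neg, neg_sub]
  rfl

/-- upper bound of the offsets of the strings for `par0` -/
def eM : ℝ := 1251 / 5000

theorem ei_par0 (m : ℕ) {r : ℕ} (O : Fin r → Xo) (i : Fin r) :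
    ei (@NUSea.O.par0 NUSea.seaP m) O i ≤ eM := by
  have h2 := d0_le r
  have h3 := (d0_pos r).le
  have hr : (rk O i : ℝ) / r ≤ 1 := by
    refine div_le_one_of_le₀ ?_ (Nat.cast_nonneg r)
    have : rk O i ≤ r := by
      unfold rk
      exact (Finset.card_le_univ _).trans (by rw [Fintype.card_fin])
    exact_mod_cast this
  have hr0 : 0 ≤ (rk O i : ℝ) / r := by positivity
  unfold ei eM
  show 1 / 4 + d0 r * (rk O i / r) ≤ 1251 / 5000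
  have : d0 r * ((rk O i : ℝ) / r) ≤ 1 / 6144 * 1 := mul_le_mul h2 hr hr0 (by norm_num)
  linarith

theorem parOK_seaP (m : ℕ) : ParOK (@NUSea.O.par0 NUSea.seaP m) m K1c := by
  have h := @NUSea.O.parOK_par0 NUSea.seaP m
  exact ⟨@NUSea.O.ParOK.j1 NUSea.seaP _ _ _ h, @NUSea.O.ParOK.j2 NUSea.seaP _ _ _ h,
    @NUSea.O.ParOK.e0 NUSea.seaP _ _ _ h, @NUSea.O.ParOK.d0 NUSea.seaP _ _ _ h,
    @NUSea.O.ParOK.e1 NUSea.seaP _ _ _ h, @NUSea.O.ParOK.r0 NUSea.seaP _ _ _ h,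
    @NUSea.O.ParOK.r1 NUSea.seaP _ _ _ h, @NUSea.O.ParOK.r2 NUSea.seaP _ _ _ h,
    @NUSea.O.ParOK.r3 NUSea.seaP _ _ _ h⟩

/-- **the parameters `par0 m` of the sea `seaP`**; any slack with `slk + κ P ≤ 2 Ag (1/4)` -/
theorem one_actZk (n0 : ℕ) {h0 G : ℝ} (hh : 0 ≤ h0) (hG : 0 < G) {κ : ℝ} (hκ : 0 < κ) (K0 : ℝ)
    (k0 : ℕ) :
    ∃ C c : ℝ, 0 < C ∧ 0 < c ∧ ∀ m : ℕ, 3 ≤ m →
      ∀ slk : ℝ → ℝ, (∀ t, slk t + κ * NUMF.P t ≤ 2 * NUMF.Ag (1 / 4) t) →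
      ∀ ep : ℝ, 0 < ep → ep ≤ 1 / 100 →
      ∀ (B : OB) (K : ℕ) (mu ex W1 W2 : List ℂ) (c0 : ℝ) (g : Bool → ℂ → ℝ),
        ObZ n0 h0 G m (4 / 3 * (1 - ep)) eM B K mu ex W1 W2 c0 g →
      ∀ e1 J : ℝ, ∀ T' : ℝ, Tb (Real.log m) / (1 - ep) ≤ T' → ∀ h : ℝ → ℝ, (∀ t, 0 ≤ h t) →
      (∀ t, |t| ≤ (1 - 3 * e1) * Tb (Real.log m) → J ≤ h t) →
      ∀ (r : ℕ) (O : Fin r → Xo) (i : Fin r),
        ob1c B (@NUSea.O.par0 NUSea.seaP m).jL (ei (@NUSea.O.par0 NUSea.seaP m) O i)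
            (rr (@NUSea.O.par0 NUSea.seaP m) O i) (O i) *
          Real.exp (m * @NUSea.O.mfo NUSea.seaP (cons (@NUSea.O.par0 NUSea.seaP m) O i) +
            m * slkK slk (kd (O i)) (ht (O i)) -
            2 * Real.pi * wK (kd (O i)) * h (ht (O i)) + exc T' (ht (O i)) + K0) *
            colK (((r : ℝ) + 1) ^ k0) (kd (O i)) ≤
          act C 1 c (1 / 10) (k0 + 6) (Real.log m) ep e1 J r (ht (O i)) := by
  have hK : 0 ≤ K1c := by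
    unfold K1c
    have := l_pos
    positivity
  obtain ⟨C, c, hC, hc, H⟩ := one_actZ n0 hh hG hκ K0 K1c hK k0
  exact ⟨C, c, hC, hc, fun m hm slk hslk ep hep hep1 B K mu ex W1 W2 c0 g hZ e1 J T' hT' h hh' hJ r
    O i => H m hm _ (parOK_seaP m) slk hslk ep hep hep1 e1 J T' hT' h hh' hJ r O i B K mu ex
      W1 W2 c0 g (hZ.mono (ei_par0 m O i))⟩

/-- **the parameters `par0 m` and the slack of `seaP`** -/
theorem one_actZ0 (n0 : ℕ) {h0 G : ℝ} (hh : 0 ≤ h0) (hG : 0 < G) (K0 : ℝ) (k0 : ℕ) :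
    ∃ C c : ℝ, 0 < C ∧ 0 < c ∧ ∀ m : ℕ, 3 ≤ m → ∀ ep : ℝ, 0 < ep → ep ≤ 1 / 100 →
      ∀ (B : OB) (K : ℕ) (mu ex W1 W2 : List ℂ) (c0 : ℝ) (g : Bool → ℂ → ℝ),
        ObZ n0 h0 G m (4 / 3 * (1 - ep)) eM B K mu ex W1 W2 c0 g →
      ∀ e1 J : ℝ, ∀ T' : ℝ, Tb (Real.log m) / (1 - ep) ≤ T' → ∀ h : ℝ → ℝ, (∀ t, 0 ≤ h t) →
      (∀ t, |t| ≤ (1 - 3 * e1) * Tb (Real.log m) → J ≤ h t) →
      ∀ (r : ℕ) (O : Fin r → Xo) (i : Fin r),
        ob1c B (@NUSea.O.par0 NUSea.seaP m).jL (ei (@NUSea.O.par0 NUSea.seaP m) O i)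
            (rr (@NUSea.O.par0 NUSea.seaP m) O i) (O i) *
          Real.exp (m * @NUSea.O.mfo NUSea.seaP (cons (@NUSea.O.par0 NUSea.seaP m) O i) +
            m * slkK (fun t : ℝ => ∫ u, @NUSea.P NUSea.seaP u * NUC43.slk (u - t)) (kd (O i))
              (ht (O i)) -
            2 * Real.pi * wK (kd (O i)) * h (ht (O i)) + exc T' (ht (O i)) + K0) *
            colK (((r : ℝ) + 1) ^ k0) (kd (O i)) ≤
          act C 1 c (1 / 10) (k0 + 6) (Real.log m) ep e1 J r (ht (O i)) := by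
  obtain ⟨C, c, hC, hc, H⟩ := one_actZk n0 hh hG (κ := 1 / 50) (by norm_num) K0 k0
  refine ⟨C, c, hC, hc, fun m hm ep hep hep1 B K mu ex W1 W2 c0 g hZ e1 J T' hT' h hh' hJ r
    O i => ?_⟩
  rw [slk0_eq]
  exact H m hm NUSlk.slk NUSlk.slk_le ep hep hep1 B K mu ex W1 W2 c0 g hZ e1 J T' hT' h hh' hJ r O i

/-! ### the data of the dislocated function -/

/-- the legs at `z` are an admissible spectator, at every height -/
theorem legZ {z : ℂ} (h1 : -(9 / 10 * l) ≤ z.re) (h2 : z.re ≤ 187 / 50 * l) :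
    SpZ cZ eM fun _ u => thZ z u := by
  have hl := l_pos
  intro _ u h3 h4
  refine ⟨thZ_nonneg z u, thZ_line (e := eM) ⟨h1, ?_⟩ h3 (by linarith)⟩
  unfold eM
  nlinarith

/-- a product of two admissible spectators -/
theorem SpZ.mul {G G' e : ℝ} {g g' : Bool → ℂ → ℝ} (h : SpZ G e g) (h' : SpZ G' e g') :
    SpZ (G * G') e fun a u => g a u * g' a u := by
  intro a u h1 h2
  obtain ⟨a1, a2⟩ := h a u h1 h2
  obtain ⟨b1, b2⟩ := h' a u h1 h2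
  exact ⟨mul_nonneg a1 b1, mul_le_mul a2 b2 b1 (a1.trans a2)⟩

/-- one body data with rows `mu`, cutoff points `W1` (strings `W2`), spectator `g` -/
def obG (c0 : ℝ) (mu W1 W2 : List ℂ) (b : ℝ) (g : Bool → ℂ → ℝ) : OB where
  R a u := c0 * (mu.map fun x => rwC x u).prod * g a u
  φ := phi b (mu ++ W1)
  φ0 := phi (4 / 3) (mu ++ W2)

theorem obG_nn {c0 : ℝ} (hc : 0 ≤ c0) (mu W1 W2 : List ℂ) (b : ℝ) {g : Bool → ℂ → ℝ}
    (hg : ∀ a u, 0 ≤ g a u) : (obG c0 mu W1 W2 b g).Nn := fun a u =>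
  mul_nonneg (mul_nonneg hc (prod_rwC_nonneg mu u)) (hg a u)

theorem RwZ.mk' {n0 m K : ℕ} {h0 : ℝ} {ex : List ℂ} (h1 : ex.length ≤ n0) (h2 : ∀ x ∈ ex, PtZ h0 x)
    (h3 : K ≤ m + n0) (h4 : m ≤ K + n0) : RwZ n0 h0 m K (List.replicate K 0 ++ ex) ex :=
  ⟨List.Perm.refl _, h1, h2, h3, h4⟩

theorem ObZ_obG {n0 m K : ℕ} {h0 G b e c0 : ℝ} {mu ex W1 W2 : List ℂ} {g : Bool → ℂ → ℝ}
    (hr : RwZ n0 h0 m K mu ex) (h1 : PtsZ n0 h0 W1) (h2 : PtsZ n0 h0 W2) (hc : 0 ≤ c0) (hc2 : c0 ≤ 2)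
    (hg : SpZ G e g) : ObZ n0 h0 G m b e (obG c0 mu W1 W2 b g) K mu ex W1 W2 c0 g where
  rows := hr
  w1 := h1
  w2 := h2
  cc := ⟨hc, hc2⟩
  sp := hg
  R _ _ := rfl
  φ := rfl
  φ0 := rfl

end PBO

end
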