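import Pool.Agent.PB.ObZ
import Pool.Agent.NUGC.ActGen

/-!
# Plan B, rows `0`: the one body weights of the five kinds

`wZ B m jL e ρ x` = weight of the object `x` times the exponential of its interaction with the clouds
of `m` rows at `0` of each group; **`wZ_KB`**: the bounds by kinds `NUGC.KB`, uniform in the data
`ObZ n0 h0 G m β e B`.
-/

set_option autoImplicit false

noncomputable section

open Complex MeasureTheory Set

namespace PBO

open NUP1 NUO NUGC

/-- weight of an object times its mean field, sea of `m` rows at `0` -/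
def wZ (B : OB) (m : ℕ) (jL e ρ : ℝ) (x : Xo) : ℝ :=
  ob1c B jL e ρ x * Real.exp (m * mfo (parts jL e ρ x))

section
variable {n0 : ℕ} {h0 G β e : ℝ} {m : ℕ} {B : OB} {K : ℕ} {mu ex W1 W2 : List ℂ} {c0 : ℝ}
  {g : Bool → ℂ → ℝ}

/-! ### `L` -/

theorem wZ_L (n0 : ℕ) {h0 G : ℝ} (hh : 0 ≤ h0) (hG : 0 < G) : ∃ C : ℝ, 0 < C ∧
    ∀ (m : ℕ) (β e : ℝ) (B : OB) (K : ℕ) (mu ex W1 W2 : List ℂ) (c0 : ℝ) (g : Bool → ℂ → ℝ),
      1 ≤ m → 0 < β → β ≤ 4 / 3 → ObZ n0 h0 G m β e B K mu ex W1 W2 c0 g →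
      ∀ (jL ρ : ℝ) (x : Xo), 2 ≤ jL → jL ≤ 5 / 2 → 0 ≤ e → kd x = .L →
        wZ B m jL e ρ x ≤ C * cut m β (ht x) := by
  have hl := l_pos
  have hpi := Real.pi_pos
  have hQ := cQ_pos (n0 := n0) hG
  have hP := cPZ_ge (n0 := n0) hh
  refine ⟨(2 * Real.pi)⁻¹ * cQ n0 G * Real.exp (n0 * (3 * cG)) * cPZ n0 h0, by positivity,
    fun m β e B K mu ex W1 W2 c0 g hm hβ0 hβ1 hB jL ρ x j2 j3 he hx => ?_⟩
  have hv : mfo (parts jL e ρ x) = clo jL (ht x) := by
    have hp : parts jL e ρ x = [(sp x, false, posL jL (ht x))] := by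
      unfold parts
      rw [hx]
    rw [hp]
    exact (good_quantum (sp x) jL (ht x)).val
  unfold wZ
  rw [hv]
  unfold ob1c
  rw [hx]
  simp only
  set t := ht x with ht
  have hre : (posL jL t).re = (1 - jL) * l := NUO.vl_re _ _
  have him : (posL jL t).im = t := NUO.vl_im _ _
  have u1 : -(3 / 2 * l) ≤ (posL jL t).re := by rw [hre]; nlinarith
  have u2 : (posL jL t).re ≤ -l := by rw [hre]; nlinarith
  obtain ⟨r0, r1⟩ := R_Z hB (sp x) (u := posL jL t) (by linarith) (by linarith)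
    (by rw [abs_of_neg (by linarith)]; linarith) (by nlinarith)
  have hph := (phiZ_cut hm hh hB.rows hB.w1 hβ0 hβ1 u1 (by linarith)).2
  rw [him, ← hB.φ] at hph
  have hsh := exp_shZ hB.rows.up hB.rows.dn (clo_bdd jL t)
  have hrw := rw0_clo (j := jL) (by linarith) (by linarith) (by linarith) K t
  rw [NUMF.mf_neutral j2 (by linarith), mul_zero, Real.exp_zero, ← posL_eq] at hrw
  have hq0 : 0 ≤ rwC 0 (posL jL t) ^ K := pow_nonneg (rwC_nonneg _ _) K
  calc (2 * Real.pi)⁻¹ * (B.R (sp x) (posL jL t) * ‖B.φ (posL jL t)‖) * Real.exp (m * clo jL t) ≤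
      (2 * Real.pi)⁻¹ * ((cQ n0 G * rwC 0 (posL jL t) ^ K) * (cPZ n0 h0 * cut m β t)) *
        (Real.exp (K * clo jL t) * Real.exp (n0 * (3 * cG))) := by
        have hc := cut_nonneg m β t
        have hP0 : 0 ≤ cPZ n0 h0 := by linarith
        have hr := r0.trans r1
        gcongr
    _ = (2 * Real.pi)⁻¹ * cQ n0 G * Real.exp (n0 * (3 * cG)) * cPZ n0 h0 *
        (rwC 0 (posL jL t) ^ K * Real.exp (K * clo jL t)) * cut m β t := by ring
    _ = _ := by rw [hrw, mul_one]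

/-! ### `St` -/

/-- the two row factors of a string at offset `j` and its cloud -/
theorem rw0_string {j : ℝ} (h0 : 0 < j) (h1 : j ≠ 1) (h3 : j < 3) (K : ℕ) (t : ℝ) :
    (rwC 0 (vl ((1 - j) * l) t) * rwC 0 (vl ((1 - j) * l) t - l)) ^ K *
      Real.exp (K * (clo j t + clo (j + 1) t)) =
      Real.exp (K * (NUMF.mf j t + NUMF.mf (j + 1) t)) := by
  have e1 := rw0_clo h0.le h1 (by linarith) K t
  have e2 := rw0_clo (j := j + 1) (by linarith) (by linarith) (by linarith) K t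
  rw [vl_sub_l, mul_pow, mul_add, mul_add, Real.exp_add, Real.exp_add, ← e1, ← e2]
  ring

theorem zT_re (t : ℝ) : (posT t).re = -(1 / 2 * l) := NUO.vl_re _ _
theorem zT_im (t : ℝ) : (posT t).im = t := NUO.vl_im _ _
theorem zTl_re (t : ℝ) : (posT t - l).re = -(3 / 2 * l) := by
  rw [sub_re, zT_re, ofReal_re]
  ring
theorem zTl_im (t : ℝ) : (posT t - l).im = t := by rw [sub_im, zT_im, ofReal_im, sub_zero]

theorem wZ_T (n0 : ℕ) {h0 G : ℝ} (hh : 0 ≤ h0) (hG : 0 < G) : ∃ C : ℝ, 0 < C ∧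
    ∀ (m : ℕ) (β e : ℝ) (B : OB) (K : ℕ) (mu ex W1 W2 : List ℂ) (c0 : ℝ) (g : Bool → ℂ → ℝ),
      1 ≤ m → 0 < β → β ≤ 4 / 3 → ObZ n0 h0 G m β e B K mu ex W1 W2 c0 g →
      ∀ (jL ρ : ℝ) (x : Xo), 0 ≤ e → kd x = .St →
        wZ B m jL e ρ x ≤ C * cut m β (ht x) := by
  obtain ⟨KA, hKA, hAg⟩ := Ag_half_le
  have hl := l_pos
  have hpi := Real.pi_pos
  have hQ := cQ_pos (n0 := n0) hG
  have hP := cPZ_ge (n0 := n0) hh
  have haS := aS_pos
  set E1 : ℝ := Real.exp (n0 * (6 * cG)) with hE1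
  set E2 : ℝ := Real.exp (KA * (1 + n0)) with hE2
  have hE1p : 0 < E1 := Real.exp_pos _
  have hE2p : 0 < E2 := Real.exp_pos _
  refine ⟨aS * cQ n0 G ^ 2 * E1 * (4 + E2 * (3 * cPZ n0 h0)), by positivity,
    fun m β e B K mu ex W1 W2 c0 g hm hβ0 hβ1 hB jL ρ x he hx => ?_⟩
  have hp : parts jL e ρ x = [(sp x, true, posT (ht x))] := by
    unfold parts
    rw [hx]
  have hv : mfo (parts jL e ρ x) = clo (3 / 2) (ht x) + clo (3 / 2 + 1) (ht x) := by
    rw [hp, posT_eq]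
    exact (good_string (sp x) (3 / 2) (ht x)).val
  unfold wZ
  rw [hv]
  unfold ob1c
  rw [hx]
  simp only
  set t := ht x with htd
  set v := clo (3 / 2) t + clo (3 / 2 + 1) t with hvd
  have hvb : |v| ≤ 6 * cG := by
    refine (abs_add_le _ _).trans ?_
    linarith [clo_bdd (3 / 2) t, clo_bdd (3 / 2 + 1) t]
  have r1 := zT_re t
  have r2 := zTl_re t
  have i1 := zT_im t
  have i2 := zTl_im t
  obtain ⟨a0, a1⟩ := R_Z hB (sp x) (u := posT t) (by linarith) (by linarith)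
    (by rw [r1, abs_neg, abs_of_pos (by positivity)]; linarith) (by nlinarith)
  obtain ⟨b0, b1⟩ := R_Z hB (sp x) (u := posT t - l) (by linarith) (by linarith)
    (by rw [r2, abs_neg, abs_of_pos (by positivity)]; linarith) (by nlinarith)
  have hsh := exp_shZ hB.rows.up hB.rows.dn hvb
  rw [← hE1] at hsh
  have hrw := rw0_string (j := 3 / 2) (by norm_num) (by norm_num) (by norm_num) K t
  have h2 := NUMF.mf_string (j := 3 / 2) (by norm_num) (by norm_num) t
  rw [h2, show (2 : ℝ) - 3 / 2 = 1 / 2 by norm_num, ← posT_eq, ← hvd] at hrw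
  -- the bracket
  set u := posT t with hud
  have hq1 : ‖psi (4 / 3) (u - l)‖ ≤ 1 := psi_le_one' (by norm_num) le_rfl (by
    rw [r2, abs_le]
    constructor <;> linarith)
  have hqe : ‖psi (4 / 3) (u - l)‖ = Real.exp (-NUMF.Ag (1 / 2) t) := norm_psi_T_sub t
  set q := ‖psi (4 / 3) (u - l)‖ with hqd
  have hq0 : 0 ≤ q := norm_nonneg _
  have m1 : ‖psi β u‖ ≤ q := by
    refine le_trans ?_ (norm_psi_T_le t)
    refine norm_psi_mono hβ0 hβ1 (by unfold l; linarith) ?_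
    rw [r1, show -(1 / 2 * l) + l / 2 = 0 by ring, abs_zero]
    linarith
  have m2 : ‖psi β (u - l)‖ ≤ q := by
    refine norm_psi_mono hβ0 hβ1 (by unfold l; linarith) ?_
    rw [r2, show -(3 / 2 * l) + l / 2 = -l by ring, abs_neg, abs_of_pos hl]
    unfold l
    linarith
  have m3 : ‖psi (4 / 3) u‖ ≤ q := norm_psi_T_le t
  have A1 := norm_prodZ hB.rows hB.w1 hβ0 hβ1 (u := u) (by linarith) (by linarith) m1
  have A2 := norm_prodZ hB.rows hB.w1 hβ0 hβ1 (u := u - l) (by linarith) (by linarith) m2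
  have A3 := norm_prodZ hB.rows hB.w2 (by norm_num : (0 : ℝ) < 4 / 3) le_rfl (u := u) (by linarith)
    (by linarith) m3
  have hqK1 : q ^ K ≤ 1 := pow_le_one₀ hq0 hq1
  have hqK0 : 0 ≤ q ^ K := pow_nonneg hq0 K
  have near : ‖B.φ u * B.φ (u - l) - B.φ0 u‖ ≤ 4 * q ^ K := by
    rw [hB.φ, hB.φ0]
    unfold phi
    set AA := ((mu ++ W1).map fun x => psi β (u - x)).prod
    set BB := ((mu ++ W1).map fun x => psi β (u - l - x)).prod
    set DD := ((mu ++ W2).map fun x => psi (4 / 3) (u - x)).prod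
    have e : (1 - AA) * (1 - BB) - (1 - DD) = DD + (AA * BB + (-AA + -BB)) := by ring
    rw [e]
    have k1 := norm_add_le DD (AA * BB + (-AA + -BB))
    have k2 := norm_add_le (AA * BB) (-AA + -BB)
    have k3 := norm_add_le (-AA) (-BB)
    rw [norm_neg, norm_neg] at k3
    rw [norm_mul] at k2
    have k4 : ‖AA‖ * ‖BB‖ ≤ q ^ K := by
      calc _ ≤ q ^ K * 1 := mul_le_mul A1 (A2.trans hqK1) (norm_nonneg _) hqK0
        _ = _ := mul_one _
    linarith
  have far : ‖B.φ u * B.φ (u - l) - B.φ0 u‖ ≤ 3 * cPZ n0 h0 * cut m β t := by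
    have c1 := (phiZ_cut hm hh hB.rows hB.w1 hβ0 hβ1 (u := u) (by linarith) (by linarith)).1
    have c2 := (phiZ_cut hm hh hB.rows hB.w1 hβ0 hβ1 (u := u - l) (by linarith) (by linarith)).2
    have c3 := (phiZ_cut hm hh hB.rows hB.w2 (by norm_num : (0 : ℝ) < 4 / 3) le_rfl (u := u)
      (by linarith) (by linarith)).2
    rw [i2] at c2
    rw [i1] at c3
    rw [← hB.φ] at c1 c2
    rw [← hB.φ0] at c3
    refine (norm_sub_le _ _).trans ?_
    rw [norm_mul]
    have c4 : cut m (4 / 3) t ≤ cut m β t := cut_anti m hβ1 t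
    have c5 : ‖B.φ u‖ * ‖B.φ (u - l)‖ ≤ 2 * (cPZ n0 h0 * cut m β t) :=
      mul_le_mul c1 c2 (norm_nonneg _) (by norm_num)
    have c6 : cPZ n0 h0 * cut m (4 / 3) t ≤ cPZ n0 h0 * cut m β t :=
      mul_le_mul_of_nonneg_left c4 (by linarith)
    linarith
  -- the weight
  set X : ℝ := ‖B.φ u * B.φ (u - l) - B.φ0 u‖ with hX
  have hX0 : 0 ≤ X := norm_nonneg _
  have hrow : B.R (sp x) u * B.R (sp x) (u - l) * Real.exp (m * v) ≤
      cQ n0 G ^ 2 * E1 * Real.exp (K * NUMF.Ag (1 / 2) t) := by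
    rw [← hrw]
    calc B.R (sp x) u * B.R (sp x) (u - l) * Real.exp (m * v) ≤
        (cQ n0 G * rwC 0 u ^ K) * (cQ n0 G * rwC 0 (u - l) ^ K) * (Real.exp (K * v) * E1) := by
          have q1 := a0.trans a1
          have q2 : 0 ≤ rwC 0 u ^ K := pow_nonneg (rwC_nonneg _ _) K
          have q3 : 0 ≤ rwC 0 (u - l) ^ K := pow_nonneg (rwC_nonneg _ _) K
          gcongr
      _ = _ := by rw [mul_pow]; ring
  have hAge : Real.exp (K * NUMF.Ag (1 / 2) t) * q ^ K = 1 := by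
    rw [hqe, ← Real.exp_nat_mul, ← Real.exp_add]
    ring_nf
    exact Real.exp_zero
  have hcut0 := cut_nonneg m β t
  have fin : Real.exp (K * NUMF.Ag (1 / 2) t) * X ≤ (4 + E2 * (3 * cPZ n0 h0)) * cut m β t := by
    rcases le_total 1 (m * Real.exp (-(2 * β) * |t|)) with h5 | h5
    · have hc : cut m β t = 1 := by
        unfold cut
        exact min_eq_left h5
      rw [hc, mul_one]
      have : Real.exp (K * NUMF.Ag (1 / 2) t) * X ≤ 4 := by
        calc _ ≤ Real.exp (K * NUMF.Ag (1 / 2) t) * (4 * q ^ K) := by gcongr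
          _ = 4 * (Real.exp (K * NUMF.Ag (1 / 2) t) * q ^ K) := by ring
          _ = 4 := by rw [hAge, mul_one]
      have h6 : 0 ≤ E2 * (3 * cPZ n0 h0) := by positivity
      linarith
    · have h7 : Real.exp (K * NUMF.Ag (1 / 2) t) ≤ E2 := by
        rw [hE2]
        refine Real.exp_le_exp.2 ?_
        have hexp : Real.exp (-(8 / 3) * |t|) ≤ Real.exp (-(2 * β) * |t|) := by
          refine Real.exp_le_exp.2 ?_
          have := abs_nonneg t
          nlinarith
        have hexp1 : Real.exp (-(8 / 3) * |t|) ≤ 1 :=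
          Real.exp_le_one_iff.2 (by linarith [abs_nonneg t])
        have hE0 := Real.exp_pos (-(8 / 3) * |t|)
        have hK1 : (K : ℝ) ≤ m + n0 := by exact_mod_cast hB.rows.up
        have hmn : (0 : ℝ) ≤ m := Nat.cast_nonneg m
        have hn0 : (0 : ℝ) ≤ n0 := Nat.cast_nonneg n0
        have hKn : (0 : ℝ) ≤ K := Nat.cast_nonneg K
        calc (K : ℝ) * NUMF.Ag (1 / 2) t ≤ K * (KA * Real.exp (-(8 / 3) * |t|)) :=
              mul_le_mul_of_nonneg_left (hAg t) hKn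
          _ ≤ (m + n0) * (KA * Real.exp (-(8 / 3) * |t|)) := by gcongr
          _ = KA * (m * Real.exp (-(8 / 3) * |t|) + n0 * Real.exp (-(8 / 3) * |t|)) := by ring
          _ ≤ KA * (m * Real.exp (-(2 * β) * |t|) + n0 * 1) := by gcongr
          _ ≤ KA * (1 + n0) := by
              rw [mul_one]
              gcongr
      calc Real.exp (K * NUMF.Ag (1 / 2) t) * X ≤ E2 * (3 * cPZ n0 h0 * cut m β t) := by gcongr
        _ ≤ _ := by
          have : 0 ≤ 4 * cut m β t := by positivity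
          linarith
  calc aS * (B.R (sp x) u * B.R (sp x) (u - l)) * X * Real.exp (m * v) =
      aS * (B.R (sp x) u * B.R (sp x) (u - l) * Real.exp (m * v)) * X := by ring
    _ ≤ aS * (cQ n0 G ^ 2 * E1 * Real.exp (K * NUMF.Ag (1 / 2) t)) * X := by gcongr
    _ = aS * cQ n0 G ^ 2 * E1 * (Real.exp (K * NUMF.Ag (1 / 2) t) * X) := by ring
    _ ≤ aS * cQ n0 G ^ 2 * E1 * ((4 + E2 * (3 * cPZ n0 h0)) * cut m β t) := by gcongr
    _ = _ := by ring

end

end PBO

end
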