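import Pool.Agent.PB.ObZK

/-!
# Plan B, rows `0`: the one body weights of `S`, `Sv`, `Svv`, and the bounds of all kinds
-/

set_option autoImplicit false

noncomputable section

open Complex MeasureTheory Set

namespace PBO

open NUP1 NUO NUGC

theorem l_eq' : NUMF.l = l := rfl

theorem AgZ_bdd {j : ℝ} (h0 : 0 ≤ j) (h1 : j ≤ 2 / 5) (t : ℝ) : |NUMF.Ag j t| ≤ cA :=
  Ag_bdd (by rw [abs_of_nonneg h0]; linarith) t

/-- **the string on `-(1 + e) l`** -/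
theorem oSc_Z (n0 : ℕ) {h0 G : ℝ} (hh : 0 ≤ h0) (hG : 0 < G) : ∃ C : ℝ, 0 < C ∧
    ∀ (m : ℕ) (β e : ℝ) (B : OB) (K : ℕ) (mu ex W1 W2 : List ℂ) (c0 : ℝ) (g : Bool → ℂ → ℝ),
      1 ≤ m → ObZ n0 h0 G m β e B K mu ex W1 W2 c0 g → 1 / 4 ≤ e → e ≤ 31 / 100 →
      ∀ (t : ℝ) (a : Bool), 0 ≤ oSc B a (posS e t) ∧
        oSc B a (posS e t) * Real.exp (m * (clo (2 + e) t + clo (2 + e + 1) t)) ≤
        C * Real.exp (-(2 * m * NUMF.Ag e t)) * cut m (4 / 3) t := by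
  have hl := l_pos
  have hQ := cQ_pos (n0 := n0) hG
  have hP := cPZ_ge (n0 := n0) hh
  have haS := aS_pos
  refine ⟨aS * cQ n0 G ^ 2 * Real.exp (n0 * (6 * cG)) * Real.exp (n0 * (2 * cA)) * cPZ n0 h0,
    by positivity, fun m β e B K mu ex W1 W2 c0 g hm hB e0 e1 t a => ?_⟩
  have hre : (posS e t).re = -((1 + e) * l) := NUO.vl_re _ _
  have him : (posS e t).im = t := NUO.vl_im _ _
  have hre' : (posS e t - l).re = -((2 + e) * l) := by rw [sub_re, hre, ofReal_re]; ring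
  obtain ⟨a0, a1⟩ := R_Z hB a (u := posS e t) (by rw [hre]; nlinarith) (by rw [hre]; nlinarith)
    (by rw [hre, abs_neg, abs_of_pos (by positivity)]; nlinarith) (by rw [hre]; nlinarith)
  obtain ⟨b0, b1⟩ := R_Z hB a (u := posS e t - l) (by rw [hre']; nlinarith) (by rw [hre']; nlinarith)
    (by rw [hre', abs_neg, abs_of_pos (by positivity)]; nlinarith) (by rw [hre'])
  have hph := (phiZ_cut hm hh hB.rows hB.w2 (by norm_num : (0 : ℝ) < 4 / 3) le_rfl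
    (u := posS e t) (by rw [hre]; nlinarith) (by rw [hre]; nlinarith)).2
  rw [him, ← hB.φ0] at hph
  set v := clo (2 + e) t + clo (2 + e + 1) t with hvd
  have hvb : |v| ≤ 6 * cG := by
    refine (abs_add_le _ _).trans ?_
    linarith [clo_bdd (2 + e) t, clo_bdd (2 + e + 1) t]
  have hsh := exp_shZ hB.rows.up hB.rows.dn hvb
  have hrw := rw0_string (j := 2 + e) (by linarith) (by linarith) (by linarith) K t
  have h2 := NUMF.mf_string' (j := 2 + e) (by linarith) (by linarith) t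
  rw [h2, show 2 + e - 2 = e by ring, ← posS_eq, ← hvd] at hrw
  have hA : |-2 * NUMF.Ag e t| ≤ 2 * cA := by
    rw [abs_mul, abs_neg, abs_of_pos (by norm_num : (0 : ℝ) < 2)]
    have := AgZ_bdd (j := e) (by linarith) (by linarith) t
    linarith
  have hsh2 := exp_shZ (m := K) (K := m) hB.rows.dn hB.rows.up hA
  set u := posS e t with hud
  have q2 : 0 ≤ rwC 0 u ^ K := pow_nonneg (rwC_nonneg _ _) K
  have q3 : 0 ≤ rwC 0 (u - l) ^ K := pow_nonneg (rwC_nonneg _ _) K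
  have q1 := a0.trans a1
  have hc := cut_nonneg m (4 / 3) t
  have hP0 : 0 ≤ cPZ n0 h0 := by linarith
  unfold oSc
  refine ⟨by positivity, ?_⟩
  calc aS * (B.R a u * B.R a (u - l)) * ‖B.φ0 u‖ * Real.exp (m * v) ≤
      aS * ((cQ n0 G * rwC 0 u ^ K) * (cQ n0 G * rwC 0 (u - l) ^ K)) *
        (cPZ n0 h0 * cut m (4 / 3) t) * (Real.exp (K * v) * Real.exp (n0 * (6 * cG))) := by
        gcongr
    _ = aS * cQ n0 G ^ 2 * Real.exp (n0 * (6 * cG)) * cPZ n0 h0 *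
        ((rwC 0 u * rwC 0 (u - l)) ^ K * Real.exp (K * v)) * cut m (4 / 3) t := by
        rw [mul_pow]
        ring
    _ ≤ aS * cQ n0 G ^ 2 * Real.exp (n0 * (6 * cG)) * cPZ n0 h0 *
        (Real.exp (m * (-2 * NUMF.Ag e t)) * Real.exp (n0 * (2 * cA))) * cut m (4 / 3) t := by
        rw [hrw]
        gcongr
    _ = _ := by
        rw [show (m : ℝ) * (-2 * NUMF.Ag e t) = -(2 * m * NUMF.Ag e t) by ring]
        ring

/-- **a satellite at offset `j`** -/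
theorem sat_Z (n0 : ℕ) {h0 G : ℝ} (hh : 0 ≤ h0) (hG : 0 < G) : ∃ C : ℝ, 0 < C ∧
    ∀ (m : ℕ) (β e : ℝ) (B : OB) (K : ℕ) (mu ex W1 W2 : List ℂ) (c0 : ℝ) (g : Bool → ℂ → ℝ),
      1 ≤ m → 0 < β → β ≤ 4 / 3 → ObZ n0 h0 G m β e B K mu ex W1 W2 c0 g → 0 ≤ e →
      ∀ (j t : ℝ) (a : Bool), 1 / 5 ≤ j → j ≤ 2 / 5 →
        0 ≤ B.R a (vl ((1 - j) * l) t) * ‖B.φ (vl ((1 - j) * l) t)‖ ∧
        B.R a (vl ((1 - j) * l) t) * ‖B.φ (vl ((1 - j) * l) t)‖ * Real.exp (m * clo j t) ≤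
        C * Real.exp (m * NUMF.Ag j t) := by
  have hl := l_pos
  have hQ := cQ_pos (n0 := n0) hG
  refine ⟨cQ n0 G * 2 * Real.exp (n0 * (3 * cG)) * Real.exp (n0 * cA),
    by positivity, fun m β e B K mu ex W1 W2 c0 g hm hβ0 hβ1 hB e0 j t a j0 j1 => ?_⟩
  set u := vl ((1 - j) * l) t with hud
  have hre : u.re = (1 - j) * l := NUO.vl_re _ _
  obtain ⟨a0, a1⟩ := R_Z hB a (u := u) (by rw [hre]; nlinarith) (by rw [hre]; nlinarith)
    (by rw [hre, abs_of_pos (mul_pos (by linarith) hl)]; nlinarith) (by rw [hre]; nlinarith)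
  have hph := (phiZ_cut hm hh hB.rows hB.w1 hβ0 hβ1
    (u := u) (by rw [hre]; nlinarith) (by rw [hre]; nlinarith)).1
  rw [← hB.φ] at hph
  have hsh := exp_shZ hB.rows.up hB.rows.dn (clo_bdd j t)
  have hrw := rw0_clo (j := j) (by linarith) (by linarith) (by linarith) K t
  rw [NUMF.mf_low (by linarith) (by linarith), ← hud] at hrw
  have hA := AgZ_bdd (j := j) (by linarith) j1 t
  have hsh2 := exp_shZ (m := K) (K := m) hB.rows.dn hB.rows.up hA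
  have q2 : 0 ≤ rwC 0 u ^ K := pow_nonneg (rwC_nonneg _ _) K
  refine ⟨mul_nonneg a0 (norm_nonneg _), ?_⟩
  calc B.R a u * ‖B.φ u‖ * Real.exp (m * clo j t) ≤
      (cQ n0 G * rwC 0 u ^ K) * 2 * (Real.exp (K * clo j t) * Real.exp (n0 * (3 * cG))) := by
        gcongr
    _ = cQ n0 G * 2 * Real.exp (n0 * (3 * cG)) * (rwC 0 u ^ K * Real.exp (K * clo j t)) := by ring
    _ ≤ cQ n0 G * 2 * Real.exp (n0 * (3 * cG)) *
        (Real.exp (m * NUMF.Ag j t) * Real.exp (n0 * cA)) := by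
        rw [hrw]
        gcongr
    _ = _ := by ring

/-- constant of the displacement of a satellite -/
theorem AgZ_lip {e j ρ : ℝ} (he0 : 1 / 4 ≤ e) (he1 : e ≤ 31 / 100) (hj0 : 1 / 5 ≤ j)
    (hj1 : j ≤ 2 / 5) (hρ : ρ ≤ l / 20) {t t' : ℝ} (h1 : |t' - t| ≤ ρ) (h2 : |j - e| * l ≤ ρ) :
    |NUMF.Ag j t' - NUMF.Ag e t| ≤ KVc * (ρ * Real.exp (-(8 / 3) * |t|)) := by
  have hl := l_pos
  have hpi := Real.pi_pos
  have hb : 9 / 10 * l < NUMF.l := by rw [l_eq']; linarith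
  have hK := NUMF.Kb_pos (b := 9 / 10 * l) (by positivity) hb
  have ab : ∀ a : ℝ, |a| ≤ 9 / 10 → |a * NUMF.l| ≤ 9 / 10 * l := by
    intro a ha
    rw [l_eq', abs_mul, abs_of_pos hl]
    exact mul_le_mul_of_nonneg_right ha hl.le
  have g1 := NUMF.Ag_lip hb (a := e) (a' := j)
    (ab _ (by rw [abs_le]; constructor <;> linarith)) (ab _ (by rw [abs_le]; constructor <;> linarith))
    t t'
  refine g1.trans ?_
  have e1 : |t' - t| ≤ l := by linarith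
  have e2 : |j - e| * NUMF.l ≤ ρ := by rw [l_eq']; exact h2
  unfold KVc
  calc _ ≤ 2 * Real.pi * (NUMF.Kb (9 / 10 * l) * Real.exp (8 / 3 * l) *
          Real.exp (-(8 / 3) * |t|)) * (ρ + ρ) := by gcongr
    _ = _ := by ring

/-! ### the kinds -/

theorem wZ_S (n0 : ℕ) {h0 G : ℝ} (hh : 0 ≤ h0) (hG : 0 < G) : ∃ C : ℝ, 0 < C ∧
    ∀ (m : ℕ) (β e : ℝ) (B : OB) (K : ℕ) (mu ex W1 W2 : List ℂ) (c0 : ℝ) (g : Bool → ℂ → ℝ),
      1 ≤ m → ObZ n0 h0 G m β e B K mu ex W1 W2 c0 g → 1 / 4 ≤ e → e ≤ 31 / 100 →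
      ∀ (jL ρ : ℝ) (x : Xo), kd x = .S →
        wZ B m jL e ρ x ≤ C * cut m (4 / 3) (ht x) * Real.exp (-(2 * m * NUMF.Ag e (ht x))) := by
  obtain ⟨C, hC, h⟩ := oSc_Z n0 hh hG
  refine ⟨C, hC, fun m β e B K mu ex W1 W2 c0 g hm hB e0 e1 jL ρ x hx => ?_⟩
  unfold wZ
  rw [mfo_S jL e ρ hx]
  unfold ob1c
  rw [hx]
  simp only
  refine (h m β e B K mu ex W1 W2 c0 g hm hB e0 e1 (ht x) (sp x)).2.trans (le_of_eq ?_)
  ring

theorem wZ_Svv (n0 : ℕ) {h0 G : ℝ} (hh : 0 ≤ h0) (hG : 0 < G) : ∃ C : ℝ, 0 < C ∧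
    ∀ (m : ℕ) (β e : ℝ) (B : OB) (K : ℕ) (mu ex W1 W2 : List ℂ) (c0 : ℝ) (g : Bool → ℂ → ℝ),
      1 ≤ m → 0 < β → β ≤ 4 / 3 → ObZ n0 h0 G m β e B K mu ex W1 W2 c0 g → 1 / 4 ≤ e →
      e ≤ 31 / 100 → ∀ (jL ρ : ℝ) (x : Xo), kd x = .Svv →
        wZ B m jL e ρ x ≤ C * cut m (4 / 3) (ht x) := by
  obtain ⟨C1, hC1, f1⟩ := oSc_Z n0 hh hG
  obtain ⟨C2, hC2, f2⟩ := sat_Z n0 hh hG
  have hcl := cos_l_pos
  have hs5 : 0 < Real.sin (5 * l) := by
    have hl := l_pos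
    have hpi : 8 * l = Real.pi := by unfold l; ring
    exact Real.sin_pos_of_pos_of_lt_pi (by linarith) (by linarith)
  refine ⟨C1 * (4 * Real.cos l ^ 2 * (C2 / Real.sin (5 * l) ^ 2) ^ 2), by positivity,
    fun m β e B K mu ex W1 W2 c0 g hm hβ0 hβ1 hB e0 e1 jL ρ x hx => ?_⟩
  unfold wZ
  rw [mfo_Svv jL e ρ hx]
  unfold ob1c
  rw [hx]
  simp only
  set t := ht x with ht
  obtain ⟨o0, o1⟩ := f1 m β e B K mu ex W1 W2 c0 g hm hB e0 e1 t (sp x)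
  obtain ⟨s0, s2⟩ := f2 m β e B K mu ex W1 W2 c0 g hm hβ0 hβ1 hB (by linarith) e t (!sp x)
    (by linarith) (by linarith)
  rw [posP_eq]
  set p := vl ((1 - e) * l) t with hp
  have e0' : Real.exp (m * (clo (2 + e) t + clo (2 + e + 1) t + (clo e t + (clo e t + 0)))) =
      Real.exp (m * (clo (2 + e) t + clo (2 + e + 1) t)) * Real.exp (m * clo e t) ^ 2 := by
    rw [← Real.exp_nat_mul, ← Real.exp_add]
    push_cast
    ring_nf
  have e5 : Real.exp (-(2 * m * NUMF.Ag e t)) * Real.exp (m * NUMF.Ag e t) ^ 2 = 1 := by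
    rw [← Real.exp_nat_mul, ← Real.exp_add]
    push_cast
    ring_nf
    exact Real.exp_zero
  have hcut := cut_nonneg m (4 / 3) t
  have hse : 0 ≤ B.R (!sp x) p * ‖B.φ p‖ * Real.exp (m * clo e t) :=
    mul_nonneg s0 (Real.exp_pos _).le
  rw [e0']
  calc oSc B (sp x) (posS e t) * (4 * Real.cos l ^ 2 *
        (B.R (!sp x) p * ‖B.φ p‖ / Real.sin (5 * l) ^ 2) ^ 2) *
        (Real.exp (m * (clo (2 + e) t + clo (2 + e + 1) t)) * Real.exp (m * clo e t) ^ 2) =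
      (oSc B (sp x) (posS e t) * Real.exp (m * (clo (2 + e) t + clo (2 + e + 1) t))) *
        (4 * Real.cos l ^ 2 * ((B.R (!sp x) p * ‖B.φ p‖ * Real.exp (m * clo e t)) /
          Real.sin (5 * l) ^ 2) ^ 2) := by ring
    _ ≤ (C1 * Real.exp (-(2 * m * NUMF.Ag e t)) * cut m (4 / 3) t) *
        (4 * Real.cos l ^ 2 * ((C2 * Real.exp (m * NUMF.Ag e t)) / Real.sin (5 * l) ^ 2) ^ 2) := by
        gcongr
    _ = C1 * (4 * Real.cos l ^ 2 * (C2 / Real.sin (5 * l) ^ 2) ^ 2) *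
        (Real.exp (-(2 * m * NUMF.Ag e t)) * Real.exp (m * NUMF.Ag e t) ^ 2) * cut m (4 / 3) t := by
        ring
    _ = _ := by rw [e5, mul_one]

theorem wZ_Sv (n0 : ℕ) {h0 G : ℝ} (hh : 0 ≤ h0) (hG : 0 < G) : ∃ C : ℝ, 0 < C ∧
    ∀ (m : ℕ) (β e : ℝ) (B : OB) (K : ℕ) (mu ex W1 W2 : List ℂ) (c0 : ℝ) (g : Bool → ℂ → ℝ),
      1 ≤ m → 0 < β → β ≤ 4 / 3 → ObZ n0 h0 G m β e B K mu ex W1 W2 c0 g → 1 / 4 ≤ e →
      e ≤ 31 / 100 → ∀ (jL ρ : ℝ) (x : Xo), 0 < ρ → ρ ≤ l / 20 → kd x = .Sv →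
        wZ B m jL e ρ x ≤ C / ρ * cut m (4 / 3) (ht x) * Real.exp (-(m * NUMF.Ag e (ht x)) +
          C * (m * ρ * Real.exp (-(8 / 3) * |ht x|))) := by
  obtain ⟨D1, hD1, f1⟩ := oSc_Z n0 hh hG
  obtain ⟨D2, hD2, f2⟩ := sat_Z n0 hh hG
  have hKV := KVc_pos
  have hpi := Real.pi_pos
  have hl := l_pos
  set C1 : ℝ := D1 * D2 * (8 * Real.pi ^ 2) with hC1
  have hC10 : 0 < C1 := by positivity
  refine ⟨C1 + KVc, by positivity,
    fun m β e B K mu ex W1 W2 c0 g hm hβ0 hβ1 hB he0 he1 jL ρ x hρ0 hρ1 hx => ?_⟩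
  unfold wZ
  rw [mfo_Sv jL e ρ hx]
  unfold ob1c
  rw [hx]
  simp only
  set t := ht x with ht
  set θ : ℝ := 2 * Real.pi * an x with hθ
  set j : ℝ := e - ρ * Real.cos θ / l with hj
  set t' : ℝ := t + ρ * Real.sin θ with ht'
  have hcos := Real.abs_cos_le_one θ
  have hsin := Real.abs_sin_le_one θ
  have hjl : j * l = e * l - ρ * Real.cos θ := by
    rw [hj]
    field_simp
  have hρc : |ρ * Real.cos θ| ≤ ρ := by
    rw [abs_mul, abs_of_pos hρ0]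
    exact mul_le_of_le_one_right hρ0.le hcos
  have hρs : |ρ * Real.sin θ| ≤ ρ := by
    rw [abs_mul, abs_of_pos hρ0]
    exact mul_le_of_le_one_right hρ0.le hsin
  obtain ⟨d1, d2⟩ := abs_le.1 hρc
  have hj0 : 1 / 5 ≤ j := by
    have : 1 / 5 * l ≤ j * l := by rw [hjl]; nlinarith
    exact le_of_mul_le_mul_right this hl
  have hj1 : j ≤ 2 / 5 := by
    have : j * l ≤ 2 / 5 * l := by rw [hjl]; nlinarith
    exact le_of_mul_le_mul_right this hl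
  have hposV : posV e ρ t (an x) = vl ((1 - j) * l) t' := by
    rw [posV_eq]
  obtain ⟨o0, o1⟩ := f1 m β e B K mu ex W1 W2 c0 g hm hB he0 he1 t (sp x)
  obtain ⟨s0, s2⟩ := f2 m β e B K mu ex W1 W2 c0 g hm hβ0 hβ1 hB (by linarith) j t' (!sp x)
    hj0 hj1
  have g5 : ‖Kn.cz false true (posV e ρ t (an x) - posS e t)‖ ≤ 8 * Real.pi ^ 2 / ρ ^ 2 := by
    have e1 : posV e ρ t (an x) - posS e t = 2 * l + ρ * Complex.exp (2 * Real.pi * an x * I) := by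
      unfold posV
      ring
    have e2 : ‖(ρ : ℂ) * Complex.exp (2 * Real.pi * an x * I)‖ = ρ := by
      rw [norm_mul, Complex.norm_real, Real.norm_of_nonneg hρ0.le,
        show (2 * Real.pi * an x * I : ℂ) = ((2 * Real.pi * an x : ℝ) : ℂ) * I by push_cast; ring,
        Complex.norm_exp_ofReal_mul_I, mul_one]
    rw [e1]
    have := cz_circle (ζ := ρ * Complex.exp (2 * Real.pi * an x * I))
      (norm_pos_iff.1 (by rw [e2]; exact hρ0)) (by rw [e2]; linarith)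
    rwa [e2] at this
  have hN : (0 : ℝ) ≤ (m : ℝ) := Nat.cast_nonneg _
  have g7 : (m : ℝ) * NUMF.Ag j t' ≤ m * NUMF.Ag e t +
      KVc * (m * ρ * Real.exp (-(8 / 3) * |t|)) := by
    have q1 : |t' - t| ≤ ρ := by
      rw [ht', add_sub_cancel_left]
      exact hρs
    have q2 : |j - e| * l ≤ ρ := by
      have : |j - e| * l = |ρ * Real.cos θ| := by
        have e3 : (j - e) * l = -(ρ * Real.cos θ) := by
          rw [sub_mul, hjl]
          ring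
        rw [← abs_neg (ρ * Real.cos θ), ← e3, abs_mul, abs_of_pos hl]
      rw [this]
      exact hρc
    have q3 := AgZ_lip he0 he1 hj0 hj1 hρ1 q1 q2
    have q4 := (abs_le.1 q3).2
    calc (m : ℝ) * NUMF.Ag j t' ≤ m * (NUMF.Ag e t + KVc * (ρ * Real.exp (-(8 / 3) * |t|))) := by
          refine mul_le_mul_of_nonneg_left ?_ hN
          linarith
      _ = _ := by ring
  have e0 : Real.exp (m * (clo (2 + e) t + clo (2 + e + 1) t + (clo j t' + 0))) =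
      Real.exp (m * (clo (2 + e) t + clo (2 + e + 1) t)) * Real.exp (m * clo j t') := by
    rw [← Real.exp_add]
    ring_nf
  rw [e0]
  rw [hposV] at g5 ⊢
  set v := vl ((1 - j) * l) t' with hv
  have hcut := cut_nonneg m (4 / 3) t
  set X : ℝ := m * ρ * Real.exp (-(8 / 3) * |t|) with hX
  have hX0 : 0 ≤ X := by positivity
  have hse : 0 ≤ B.R (!sp x) v * ‖B.φ v‖ * Real.exp (m * clo j t') :=
    mul_nonneg s0 (Real.exp_pos _).le
  calc oSc B (sp x) (posS e t) * (ρ * (B.R (!sp x) v * ‖B.φ v‖) *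
        ‖Kn.cz false true (v - posS e t)‖) *
        (Real.exp (m * (clo (2 + e) t + clo (2 + e + 1) t)) * Real.exp (m * clo j t')) =
      (oSc B (sp x) (posS e t) * Real.exp (m * (clo (2 + e) t + clo (2 + e + 1) t))) *
        (ρ * (B.R (!sp x) v * ‖B.φ v‖ * Real.exp (m * clo j t')) *
          ‖Kn.cz false true (v - posS e t)‖) := by ring
    _ ≤ (D1 * Real.exp (-(2 * m * NUMF.Ag e t)) * cut m (4 / 3) t) *
        (ρ * (D2 * Real.exp (m * NUMF.Ag e t + KVc * X)) * (8 * Real.pi ^ 2 / ρ ^ 2)) := by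
        have g8 : B.R (!sp x) v * ‖B.φ v‖ * Real.exp (m * clo j t') ≤
            D2 * Real.exp (m * NUMF.Ag e t + KVc * X) :=
          s2.trans (mul_le_mul_of_nonneg_left (Real.exp_le_exp.2 g7) hD2.le)
        gcongr
    _ = C1 / ρ * cut m (4 / 3) t * Real.exp (-(m * NUMF.Ag e t) + KVc * X) := by
        have e6 : Real.exp (-(m * NUMF.Ag e t) + KVc * X) =
            Real.exp (-(2 * m * NUMF.Ag e t)) * Real.exp (m * NUMF.Ag e t + KVc * X) := by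
          rw [← Real.exp_add]
          congr 1
          ring
        rw [e6, hC1]
        field_simp
        try ring
    _ ≤ (C1 + KVc) / ρ * cut m (4 / 3) t *
        Real.exp (-(m * NUMF.Ag e t) + (C1 + KVc) * X) := by
        have f1 : C1 ≤ C1 + KVc := by linarith
        have f2 : KVc * X ≤ (C1 + KVc) * X := mul_le_mul_of_nonneg_right (by linarith) hX0
        gcongr

/-- **the bounds of the five kinds with one constant**, rows `0` -/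
theorem wZ_KB (n0 : ℕ) {h0 G : ℝ} (hh : 0 ≤ h0) (hG : 0 < G) : ∃ B0 : ℝ, 0 < B0 ∧
    ∀ (m : ℕ) (β e : ℝ) (B : OB) (K : ℕ) (mu ex W1 W2 : List ℂ) (c0 : ℝ) (g : Bool → ℂ → ℝ),
      1 ≤ m → 0 < β → β ≤ 4 / 3 → ObZ n0 h0 G m β e B K mu ex W1 W2 c0 g → 1 / 4 ≤ e →
      e ≤ 31 / 100 → ∀ (jL ρ : ℝ) (x : Xo), 2 ≤ jL → jL ≤ 5 / 2 → 0 < ρ → ρ ≤ l / 20 →
        KB B0 m β ρ (NUMF.Ag e (ht x)) 1 (wZ B m jL e ρ x) (kd x) (ht x) := by
  obtain ⟨C1, p1, h1⟩ := wZ_L n0 hh hG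
  obtain ⟨C2, p2, h2⟩ := wZ_T n0 hh hG
  obtain ⟨C3, p3, h3⟩ := wZ_Svv n0 hh hG
  obtain ⟨C4, p4, h4⟩ := wZ_S n0 hh hG
  obtain ⟨C5, p5, h5⟩ := wZ_Sv n0 hh hG
  refine ⟨C1 + C2 + C3 + C4 + C5, by positivity,
    fun m β e B K mu ex W1 W2 c0 g hm b0 b1 hB e0 e1 jL ρ x j0 j1 r0 r1 => ?_⟩
  rcases hk : kd x with _ | _ | _ | _ | _
  · exact KB.mono (B0 := C1) p1.le (by linarith) r0 zero_le_one
      (h1 m β e B K mu ex W1 W2 c0 g hm b0 b1 hB jL ρ x j0 j1 (by linarith) hk)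
  · refine KB.mono (B0 := C2) p2.le (by linarith) r0 zero_le_one ?_
    show wZ B m jL e ρ x ≤ C2 * (cut m β (ht x) * 1)
    rw [mul_one]
    exact h2 m β e B K mu ex W1 W2 c0 g hm b0 b1 hB jL ρ x (by linarith) hk
  · exact KB.mono (B0 := C4) p4.le (by linarith) r0 zero_le_one
      (h4 m β e B K mu ex W1 W2 c0 g hm hB e0 e1 jL ρ x hk)
  · exact KB.mono (B0 := C5) p5.le (by linarith) r0 zero_le_one
      (h5 m β e B K mu ex W1 W2 c0 g hm b0 b1 hB e0 e1 jL ρ x r0 r1 hk)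
  · exact KB.mono (B0 := C3) p3.le (by linarith) r0 zero_le_one
      (h3 m β e B K mu ex W1 W2 c0 g hm b0 b1 hB e0 e1 jL ρ x hk)

end PBO

end
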