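import Pool.Agent.PB.OneR0
import Pool.Agent.PB.DomL

/-!
# The object bounds for the one body data `obX` of the dislocated function

* `ObZ_obX`: any rows `x : Fin N → ℂ` with `List.ofFn x ~ 0^K ++ ex`; `ObZ_mu1`: rows `mu1 k x`;
* **`one_leg`**, **`one_legT`**: the one body factor of every object of the dislocated function with rows
  `mu1 k x` in both groups, legs at `z` (`-(9/10) l ≤ re z ≤ (187/50) l`, any height), cutoff points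
  `[i, -i]` (strings: none), sea of `k + 1` rows.
-/

set_option autoImplicit false

noncomputable section

open Complex MeasureTheory Set

namespace PBO

open NUP1 NUO NUGC

theorem rwC_eq_X (x u : ℂ) : PBX.rwC x u = rwC x u := rfl

theorem thZ_eq_X (z u : ℂ) : PBX.thZ z u = thZ z u := rfl

theorem ObZ_obX {n0 m K N : ℕ} {h0 G b e c0 : ℝ} {x : Fin N → ℂ} {ex W1 W2 : List ℂ}
    {g : Bool → ℂ → ℝ} (hr : RwZ n0 h0 m K (List.ofFn x) ex) (h1 : PtsZ n0 h0 W1)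
    (h2 : PtsZ n0 h0 W2) (hc : 0 ≤ c0) (hc2 : c0 ≤ 2) (hg : SpZ G e g) :
    ObZ n0 h0 G m b e (PBX.obX c0 b x W1 W2 g) K (List.ofFn x) ex W1 W2 c0 g where
  rows := hr
  w1 := h1
  w2 := h2
  cc := ⟨hc, hc2⟩
  sp := hg
  R a u := by
    show c0 * (∏ i, PBX.rwC (x i) u) * g a u = _
    rw [List.map_ofFn, List.prod_ofFn]
    rfl
  φ := rfl
  φ0 := rfl

theorem RwZ_mu1 {n0 k : ℕ} {h0 : ℝ} {x : ℂ} (hn : 1 ≤ n0) (hx : PtZ h0 x) :
    RwZ n0 h0 (k + 1) k (List.ofFn (PBL.mu1 k x)) [x] where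
  perm := by
    rw [PBL.ofFn_mu1]
    exact (List.perm_append_comm (l₁ := [x]) (l₂ := List.replicate k 0))
  len := by simpa using hn
  pt y hy := by
    rw [List.mem_singleton] at hy
    rw [hy]
    exact hx
  up := by omega
  dn := by omega

theorem cosl_le : 0 ≤ 2 * Real.cos l ∧ 2 * Real.cos l ≤ 2 := by
  have h1 := cos_l_pos
  have h2 := Real.cos_le_one l
  constructor <;> linarith

/-- the data of the dislocated function -/
theorem ObZ_mu1 {n0 k : ℕ} {h0 b : ℝ} {x z : ℂ} (hn : 2 ≤ n0) (hh : 1 ≤ h0) (hx : PtZ h0 x)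
    (z1 : -(9 / 10 * l) ≤ z.re) (z2 : z.re ≤ 187 / 50 * l) :
    ObZ n0 h0 cZ (k + 1) b eM (PBX.obX (2 * Real.cos l) b (PBL.mu1 k x) [I, -I] []
      fun _ u => PBX.thZ z u) k (List.ofFn (PBL.mu1 k x)) [x] [I, -I] [] (2 * Real.cos l)
      fun _ u => PBX.thZ z u :=
  ObZ_obX (RwZ_mu1 (by omega) hx) (PtsZ.II hn hh) (PtsZ.nil n0 h0) cosl_le.1 cosl_le.2 (legZ z1 z2)

attribute [local instance] NUSea.seaP

/-- **the one body factor of every object of the dislocated function**, any curve -/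
theorem one_leg {h0 : ℝ} (hh : 1 ≤ h0) (K0 : ℝ) (k0 : ℕ) :
    ∃ C c : ℝ, 0 < C ∧ 0 < c ∧ ∀ k : ℕ, 2 ≤ k → ∀ ep : ℝ, 0 < ep → ep ≤ 1 / 100 →
      ∀ x z : ℂ, PtZ h0 x → -(9 / 10 * l) ≤ z.re → z.re ≤ 187 / 50 * l →
      ∀ e1 J : ℝ, 0 ≤ e1 → ∀ η : ℝ → ℝ, (∀ t, 0 ≤ PotH.crH η (k + 1) t) →
      (∀ t, |t| ≤ (1 - 3 * e1) * Tb (Real.log (k + 1 : ℕ)) → J ≤ PotH.crH η (k + 1) t) →
      ∀ (r : ℕ) (O : Fin r → Xo) (i : Fin r),
        ob1c (PBX.obX (2 * Real.cos l) (4 / 3 * (1 - ep)) (PBL.mu1 k x) [I, -I] []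
            fun _ u => PBX.thZ z u)
            (NUSea.O.par0 (k + 1)).jL (ei (NUSea.O.par0 (k + 1)) O i)
            (rr (NUSea.O.par0 (k + 1)) O i) (O i) *
          Real.exp (PotH.oneEH (k + 1) η (TW ep e1 (k + 1)) O i + K0) *
            colK (((r : ℝ) + 1) ^ k0) (kd (O i)) ≤
          act C 1 c (1 / 10) (k0 + 6) (Real.log (k + 1 : ℕ)) ep e1 J r (ht (O i)) := by
  obtain ⟨C, c, hC', hc, H⟩ := one_oneEH 2 (h0 := h0) (by linarith) cZ_pos K0 k0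
  exact ⟨C, c, hC', hc, fun k hk ep hep hep1 x z hx z1 z2 e1 J he η h1 h2 r O i =>
    H (k + 1) (by omega) ep hep hep1 _ k _ _ _ _ _ _ (ObZ_mu1 le_rfl hh hx z1 z2) e1 J he η h1 h2
      r O i⟩

/-- **the same with the gain of the tent kept**, curve `etaC` -/
theorem one_legT {h0 : ℝ} (hh : 1 ≤ h0) (K0 : ℝ) (k0 : ℕ) :
    ∃ C c : ℝ, 0 < C ∧ 0 < c ∧ ∀ e1 : ℝ, 0 < e1 → e1 ≤ 1 / 100 → ∃ m0 : ℕ, ∀ k : ℕ, m0 ≤ k →
      ∀ ep : ℝ, 0 < ep → ep ≤ 1 / 100 →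
      ∀ x z : ℂ, PtZ h0 x → -(9 / 10 * l) ≤ z.re → z.re ≤ 187 / 50 * l → ∀ J : ℝ, 0 ≤ J →
      ∀ (r : ℕ) (O : Fin r → Xo) (i : Fin r),
        ob1c (PBX.obX (2 * Real.cos l) (4 / 3 * (1 - ep)) (PBL.mu1 k x) [I, -I] []
            fun _ u => PBX.thZ z u)
            (NUSea.O.par0 (k + 1)).jL (ei (NUSea.O.par0 (k + 1)) O i)
            (rr (NUSea.O.par0 (k + 1)) O i) (O i) *
          Real.exp (PotH.oneEH (k + 1) (etaC e1 J (k + 1) (k + 1 : ℕ)) (TW ep e1 (k + 1)) O i + K0) *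
            colK (((r : ℝ) + 1) ^ k0) (kd (O i)) ≤
          act C 1 c (1 / 10) (k0 + 6) (Real.log (k + 1 : ℕ)) ep e1 J r (ht (O i)) *
            Real.exp (-PBP.gT e1 (Real.log (k + 1 : ℕ)) (ht (O i))) := by
  obtain ⟨C, c, hC', hc, H⟩ := one_oneEHT 2 (h0 := h0) (by linarith) cZ_pos K0 k0
  refine ⟨C, c, hC', hc, fun e1 he he1 => ?_⟩
  obtain ⟨m0, H0⟩ := H e1 he he1
  exact ⟨m0, fun k hk ep hep hep1 x z hx z1 z2 J hJ r O i =>
    H0 (k + 1) (by omega) ep hep hep1 _ k _ _ _ _ _ _ (ObZ_mu1 le_rfl hh hx z1 z2)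
      (PBX.obX_nn cosl_le.1 _ _ _ _ fun _ u => PBX.thZ_nonneg z u) J hJ r O i⟩

end PBO

end
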