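import Pool.Agent.PB.UProps
import Pool.Agent.PB.TRsA

/-!
# Plan B: bounds of the terms of the first Ward identity with an object factor (helper99)

* `tf`, `mn`, `stN`: test functions of a total statistic `stA`, its mean, the centred statistic;
  `stN_eq`: objects with satellites plus the two centred statistics of the quanta;
* `ObP q M P D`: the statistic of the objects is at most `M sum_o exp (-q |t_o|)`;
  `StB y₁ y₂ M P D`: test functions in `BC y₁ y₂ M`, objects at most `M` each;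
* `FL_obj`: the functional of an insertion bounded by a pinned object and statistics (**U4**);
* `FL_ob0`, `FL_ob1`, `FL_ob2`: `stO A`, `stO A * stN B`, `stO A * stN B * stN B'`;
* `FL_obq`: the same, integrated over a parameter.
-/

set_option autoImplicit false
set_option linter.unusedSectionVars false

noncomputable section

open Complex MeasureTheory Finset
open scoped ENNReal

namespace PBOBd

open NUO NUP1 NUP1S NUP1S.Ab NUP1S.AbC NUGC PBF PBP PBU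

/-- one body data -/
abbrev Dt := Bool → Option O3 → ℂ → ℂ

/-- test function of the complex height -/
def tf (D : Dt) (s : Bool) : ℂ → ℂ := fun z => D s none (NUP1.l + I * z)

/-- mean of the statistic `D` -/
def mn (ρ : ℝ → ℂ) (D : Dt) : ℂ := (∫ t : ℝ, ρ t * tf D true t) + ∫ t : ℝ, ρ t * tf D false t

/-- the centred total statistic -/
def stN (ρ : ℝ → ℂ) (D : Dt) (P : NUO.Par) (η : Crs) : Ins :=
  fun r O a b x => stA D P η r O a b x - mn ρ D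

theorem stQ_eq (D : Dt) (η : ℝ → ℝ) {a b : ℕ} (x : (Fin a → ℝ) × (Fin b → ℝ)) :
    stQ D η a b x = (∑ i, tf D true (hq η (x.1 i))) + ∑ j, tf D false (hq η (x.2 j)) := by
  unfold stQ tf
  simp only [pA_hq]

theorem stN_eq (ρ : ℝ → ℂ) (D : Dt) (P : NUO.Par) (η : Crs) (r : ℕ) (O : Fin r → Xo) (a b : ℕ)
    (x : (Fin a → ℝ) × (Fin b → ℝ)) :
    stN ρ D P η r O a b x = stO D P O + (nu1 ρ (η r O) true (tf D true) x +
      nu1 ρ (η r O) false (tf D false) x) := by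
  unfold stN stA mn nu1
  rw [stQ_eq]
  simp only [if_true, Bool.false_eq_true, if_false]
  ring

/-- the statistic of the objects is pinned -/
def ObP (q M : ℝ) (P : NUO.Par) (D : Dt) : Prop :=
  ∀ (r : ℕ) (O : Fin r → Xo), ‖stO D P O‖ ≤ M * ∑ j, Real.exp (-(q * |ht (O j)|))

/-- a bounded statistic -/
structure StB (y₁ y₂ M : ℝ) (P : NUO.Par) (D : Dt) : Prop where
  tX : BC y₁ y₂ M (tf D true)
  tY : BC y₁ y₂ M (tf D false)
  ob : ∀ (r : ℕ) (O : Fin r → Xo), ‖stO D P O‖ ≤ M * ((r : ℝ) + 1)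

theorem nu1_normed (ρ : ℝ → ℂ) (η : ℝ → ℝ) (s : Bool) (g : ℂ → ℂ) {M : ℝ} (hM : 0 < M) {a b : ℕ}
    (x : (Fin a → ℝ) × (Fin b → ℝ)) :
    ‖nu1 ρ η s g x‖ₑ = ENNReal.ofReal M * ‖nu1 ρ η s (fun z => ((M : ℂ)⁻¹) * g z) x‖ₑ := by
  rw [nu1_smul, enorm_mul, ← mul_assoc, ← ofReal_norm (((M : ℝ) : ℂ)⁻¹), norm_inv, norm_real,
    Real.norm_of_nonneg hM.le, ← ENNReal.ofReal_mul hM.le, mul_inv_cancel₀ hM.ne',
    ENNReal.ofReal_one, one_mul]

/-- a centred statistic against one factor `nuE` -/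
theorem StB.le {y₁ y₂ M : ℝ} {P : NUO.Par} {D : Dt} (h : StB y₁ y₂ M P D) (hM : 0 < M)
    (ρ : ℝ → ℂ) (η : Crs) (r : ℕ) (O : Fin r → Xo) (a b : ℕ) (x : (Fin a → ℝ) × (Fin b → ℝ)) :
    ‖stN ρ D P η r O a b x‖ₑ ≤ ENNReal.ofReal (M * ((r : ℝ) + 1)) *
      nuE ρ (η r O) (fun z => ((M : ℂ)⁻¹) * tf D true z) (fun z => ((M : ℂ)⁻¹) * tf D false z) x := by
  have hr : (1 : ℝ) ≤ (r : ℝ) + 1 := by
    have : (0 : ℝ) ≤ (r : ℝ) := Nat.cast_nonneg r
    linarith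
  have e1 : ENNReal.ofReal M ≤ ENNReal.ofReal (M * ((r : ℝ) + 1)) :=
    ENNReal.ofReal_le_ofReal (le_mul_of_one_le_right hM.le hr)
  rw [stN_eq]
  refine (enorm_add_le _ _).trans ?_
  refine (add_le_add le_rfl (enorm_add_le _ _)).trans ?_
  rw [nu1_normed ρ (η r O) true _ hM, nu1_normed ρ (η r O) false _ hM]
  unfold nuE
  rw [mul_add, mul_add, mul_one, add_assoc]
  refine add_le_add ?_ (add_le_add (mul_le_mul' e1 le_rfl) (mul_le_mul' e1 le_rfl))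
  rw [← ofReal_norm]
  exact ENNReal.ofReal_le_ofReal (h.ob r O)

section main

variable [NUSea.Sea] {ι : Type} {F : Fam ι} {ep e1 J K ε : ℝ} {p : ℕ}

/-- **an insertion with a pinned object and `p` statistics** -/
theorem FL_obj (h : UB F ep e1 J p K ε) (hK : 6 ≤ K) {q : ℝ} (hq0 : 0 ≤ q) (hq : q ≤ 8 / 3) (a : ℕ)
    (C0 y₁ y₂ : ℝ) (h1 : y₁ < 0) (h2 : 0 < y₂) :
    ∃ m0 : ℕ, ∀ m ≥ m0, ∀ i : ι, F.ok m i → ∀ ρ : ℝ → ℂ, DN C0 m ρ → ∀ M : ℝ, 0 ≤ M →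
    ∀ g g' : (r : ℕ) → (Fin r → Xo) → Fin p → ℂ → ℂ,
      (∀ r O j, BC y₁ y₂ 1 (g r O j) ∧ BC y₁ y₂ 1 (g' r O j)) →
    ∀ Ψ : Ins, (∀ r O c d x, ‖Ψ r O c d x‖ₑ ≤
      ENNReal.ofReal (M * (((r : ℝ) + 1) ^ a * ∑ j, Real.exp (-(q * |ht (O j)|)))) *
        ∏ j, nuE ρ (etaC e1 J m m) (g r O j) (g' r O j) x) →
      ‖FL F ep e1 J m i Ψ‖ₑ ≤ ENNReal.ofReal (M * (3 * a.factorial *
        (m : ℝ) ^ (-(3 / 8 * q * (1 - 4 * e1)))) * (m : ℝ) ^ ε * F.bd m i) := by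
  obtain ⟨m0, h0⟩ := h C0 y₁ y₂ h1 h2
  refine ⟨max m0 1, fun m hm i hi ρ hρ M hM g g' hg Ψ hΨ => ?_⟩
  have hm0 : m0 ≤ m := (le_max_left _ _).trans hm
  have hm1 : (0 : ℝ) < m := by exact_mod_cast (le_max_right m0 1).trans hm
  have hp := pinB_pos q e1 (Real.log m)
  have hw := ((OW.pin (e1 := e1) hq0 hq a m).mono (K' := K) (by norm_num) hK (by positivity)
    le_rfl).smul hM
  have h3 := h0 m hm0 i hi ρ hρ _ (mul_nonneg hM (by positivity)) _ hw g g' hg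
  rw [pinB_rpow q e1 hm1] at h3
  refine (norm_FL_le Ψ).trans ((FS_mono (fun _ => le_rfl) ?_).trans h3)
  exact fun r O c d x => hΨ r O c d x

/-- one statistic in a family of two -/
theorem prod_two (f : Fin 2 → ℝ≥0∞) : ∏ j, f j = f 0 * f 1 := Fin.prod_univ_two f

theorem BC.zero (y₁ y₂ : ℝ) : BC y₁ y₂ 1 fun _ => 0 :=
  ⟨differentiableOn_const 0, fun _ _ => by simp⟩

/-- two centred statistics and a pinned object -/
theorem FL_ob2 (h : UB F ep e1 J 2 K ε) (hK : 6 ≤ K) {q : ℝ} (hq0 : 0 ≤ q) (hq : q ≤ 8 / 3)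
    (C0 y₁ y₂ : ℝ) (h1 : y₁ < 0) (h2 : 0 < y₂) :
    ∃ m0 : ℕ, ∀ m ≥ m0, ∀ i : ι, F.ok m i → ∀ ρ : ℝ → ℂ, DN C0 m ρ →
    ∀ M M1 M2 : ℝ, 0 ≤ M → 0 < M1 → 0 < M2 → ∀ A B B' : Dt, ObP q M (NUSea.O.par0 m) A →
      StB y₁ y₂ M1 (NUSea.O.par0 m) B → StB y₁ y₂ M2 (NUSea.O.par0 m) B' →
      ‖FL F ep e1 J m i (fun r O c d x => stO A (NUSea.O.par0 m) O *
          (stN ρ B (NUSea.O.par0 m) (cr e1 J m) r O c d x *
            stN ρ B' (NUSea.O.par0 m) (cr e1 J m) r O c d x))‖ₑ ≤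
        ENNReal.ofReal (6 * (M * M1 * M2) * (m : ℝ) ^ (-(3 / 8 * q * (1 - 4 * e1))) *
          (m : ℝ) ^ ε * F.bd m i) := by
  obtain ⟨m0, h0⟩ := FL_obj h hK hq0 hq 2 C0 y₁ y₂ h1 h2
  refine ⟨m0, fun m hm i hi ρ hρ M M1 M2 hM hM1 hM2 A B B' hA hB hB' => ?_⟩
  have h3 := h0 m hm i hi ρ hρ (M * M1 * M2) (by positivity)
    (fun _ _ j => if j = 0 then (fun z => ((M1 : ℂ)⁻¹) * tf B true z)
      else fun z => ((M2 : ℂ)⁻¹) * tf B' true z)
    (fun _ _ j => if j = 0 then (fun z => ((M1 : ℂ)⁻¹) * tf B false z)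
      else fun z => ((M2 : ℂ)⁻¹) * tf B' false z)
    (fun r O j => by
      by_cases hj : j = 0
      · simp only [if_pos hj]
        exact ⟨hB.tX.normed hM1, hB.tY.normed hM1⟩
      · simp only [if_neg hj]
        exact ⟨hB'.tX.normed hM2, hB'.tY.normed hM2⟩)
    (fun r O c d x => stO A (NUSea.O.par0 m) O *
          (stN ρ B (NUSea.O.par0 m) (cr e1 J m) r O c d x *
            stN ρ B' (NUSea.O.par0 m) (cr e1 J m) r O c d x))
    (fun r O c d x => by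
      rw [enorm_mul, enorm_mul, prod_two]
      simp only [if_true, one_ne_zero, if_false]
      have a1 : ‖stO A (NUSea.O.par0 m) O‖ₑ ≤
          ENNReal.ofReal (M * ∑ j, Real.exp (-(q * |ht (O j)|))) := by
        rw [← ofReal_norm]
        exact ENNReal.ofReal_le_ofReal (hA r O)
      have a2 := hB.le hM1 ρ (cr e1 J m) r O c d x
      have a3 := hB'.le hM2 ρ (cr e1 J m) r O c d x
      refine (mul_le_mul' a1 (mul_le_mul' a2 a3)).trans (le_of_eq ?_)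
      have hr : (0 : ℝ) ≤ (r : ℝ) + 1 := by positivity
      have hs : 0 ≤ ∑ j, Real.exp (-(q * |ht (O j)|)) :=
        Finset.sum_nonneg fun _ _ => (Real.exp_pos _).le
      have e3 : M * M1 * M2 * (((r : ℝ) + 1) ^ 2 * ∑ j, Real.exp (-(q * |ht (O j)|))) =
          (M * ∑ j, Real.exp (-(q * |ht (O j)|))) * ((M1 * ((r : ℝ) + 1)) *
            (M2 * ((r : ℝ) + 1))) := by ring
      rw [e3, ENNReal.ofReal_mul (mul_nonneg hM hs),
        ENNReal.ofReal_mul (p := M1 * ((r : ℝ) + 1)) (by positivity)]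
      unfold cr
      ring)
  refine h3.trans (le_of_eq ?_)
  congr 1
  rw [show ((Nat.factorial 2 : ℕ) : ℝ) = 2 by norm_num [Nat.factorial]]
  ring

/-- a centred statistic and a pinned object -/
theorem FL_ob1 (h : UB F ep e1 J 2 K ε) (hK : 6 ≤ K) {q : ℝ} (hq0 : 0 ≤ q) (hq : q ≤ 8 / 3)
    (C0 y₁ y₂ : ℝ) (h1 : y₁ < 0) (h2 : 0 < y₂) :
    ∃ m0 : ℕ, ∀ m ≥ m0, ∀ i : ι, F.ok m i → ∀ ρ : ℝ → ℂ, DN C0 m ρ →
    ∀ M M1 : ℝ, 0 ≤ M → 0 < M1 → ∀ A B : Dt, ObP q M (NUSea.O.par0 m) A →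
      StB y₁ y₂ M1 (NUSea.O.par0 m) B →
      ‖FL F ep e1 J m i (fun r O c d x => stO A (NUSea.O.par0 m) O *
          stN ρ B (NUSea.O.par0 m) (cr e1 J m) r O c d x)‖ₑ ≤
        ENNReal.ofReal (3 * (M * M1) * (m : ℝ) ^ (-(3 / 8 * q * (1 - 4 * e1))) *
          (m : ℝ) ^ ε * F.bd m i) := by
  obtain ⟨m0, h0⟩ := FL_obj h hK hq0 hq 1 C0 y₁ y₂ h1 h2
  refine ⟨m0, fun m hm i hi ρ hρ M M1 hM hM1 A B hA hB => ?_⟩
  have h3 := h0 m hm i hi ρ hρ (M * M1) (by positivity)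
    (fun _ _ j => if j = 0 then (fun z => ((M1 : ℂ)⁻¹) * tf B true z) else fun _ => 0)
    (fun _ _ j => if j = 0 then (fun z => ((M1 : ℂ)⁻¹) * tf B false z) else fun _ => 0)
    (fun r O j => by
      by_cases hj : j = 0
      · simp only [if_pos hj]
        exact ⟨hB.tX.normed hM1, hB.tY.normed hM1⟩
      · simp only [if_neg hj]
        exact ⟨BC.zero _ _, BC.zero _ _⟩)
    (fun r O c d x => stO A (NUSea.O.par0 m) O *
          stN ρ B (NUSea.O.par0 m) (cr e1 J m) r O c d x)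
    (fun r O c d x => by
      rw [enorm_mul, prod_two]
      simp only [if_true, one_ne_zero, if_false]
      have a1 : ‖stO A (NUSea.O.par0 m) O‖ₑ ≤
          ENNReal.ofReal (M * ∑ j, Real.exp (-(q * |ht (O j)|))) := by
        rw [← ofReal_norm]
        exact ENNReal.ofReal_le_ofReal (hA r O)
      have a2 := hB.le hM1 ρ (cr e1 J m) r O c d x
      have hr : (0 : ℝ) ≤ (r : ℝ) + 1 := by positivity
      have hs : 0 ≤ ∑ j, Real.exp (-(q * |ht (O j)|)) :=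
        Finset.sum_nonneg fun _ _ => (Real.exp_pos _).le
      have e3 : M * M1 * (((r : ℝ) + 1) ^ 1 * ∑ j, Real.exp (-(q * |ht (O j)|))) =
          (M * ∑ j, Real.exp (-(q * |ht (O j)|))) * (M1 * ((r : ℝ) + 1)) := by ring
      refine (mul_le_mul' a1 a2).trans ?_
      rw [e3, ENNReal.ofReal_mul (mul_nonneg hM hs), mul_assoc]
      refine mul_le_mul' le_rfl (mul_le_mul' le_rfl ?_)
      refine le_trans (le_of_eq ?_) (mul_le_mul' le_rfl (one_le_nuE ρ (etaC e1 J m m)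
        (fun _ => 0) (fun _ => 0) x))
      rw [mul_one]
      rfl)
  refine h3.trans (le_of_eq ?_)
  congr 1
  rw [Nat.factorial_one, Nat.cast_one]
  ring

/-- a pinned object alone -/
theorem FL_ob0 (h : UB F ep e1 J 2 K ε) (hK : 6 ≤ K) {q : ℝ} (hq0 : 0 ≤ q) (hq : q ≤ 8 / 3) :
    ∃ m0 : ℕ, ∀ m ≥ m0, ∀ i : ι, F.ok m i → ∀ M : ℝ, 0 ≤ M → ∀ A : Dt,
      ObP q M (NUSea.O.par0 m) A →
      ‖FL F ep e1 J m i (fun _ O _ _ _ => stO A (NUSea.O.par0 m) O)‖ₑ ≤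
        ENNReal.ofReal (3 * M * (m : ℝ) ^ (-(3 / 8 * q * (1 - 4 * e1))) *
          (m : ℝ) ^ ε * F.bd m i) := by
  obtain ⟨m0, h0⟩ := FL_obj h hK hq0 hq 0 0 (-1) 1 (by norm_num) one_pos
  refine ⟨m0, fun m hm i hi M hM A hA => ?_⟩
  have h3 := h0 m hm i hi _ (DN.std m) M hM (fun _ _ _ _ => 0) (fun _ _ _ _ => 0)
    (fun r O j => ⟨BC.zero _ _, BC.zero _ _⟩)
    (fun _ O _ _ _ => stO A (NUSea.O.par0 m) O)
    (fun r O c d x => by
      have a1 : ‖stO A (NUSea.O.par0 m) O‖ₑ ≤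
          ENNReal.ofReal (M * ∑ j, Real.exp (-(q * |ht (O j)|))) := by
        rw [← ofReal_norm]
        exact ENNReal.ofReal_le_ofReal (hA r O)
      rw [pow_zero, one_mul]
      refine a1.trans (le_mul_of_one_le_right' ?_)
      exact Finset.one_le_prod' fun j _ => one_le_nuE _ _ _ _ _)
  refine h3.trans (le_of_eq ?_)
  congr 1
  rw [Nat.factorial_zero, Nat.cast_one]
  ring

/-- **a family of products, integrated over a parameter** -/
theorem FL_obq (h : UB F ep e1 J 2 K ε) (hK : 6 ≤ K) {q : ℝ} (hq0 : 0 ≤ q) (hq : q ≤ 8 / 3)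
    (C0 y₁ y₂ : ℝ) (h1 : y₁ < 0) (h2 : 0 < y₂) :
    ∃ m0 : ℕ, ∀ m ≥ m0, ∀ i : ι, F.ok m i → ∀ ρ : ℝ → ℂ, DN C0 m ρ →
    ∀ {T : Type} [MeasurableSpace T] (σ : Measure T) (A B : T → Dt) (al be : T → ℝ),
      (∀ t, 0 ≤ al t) → (∀ t, 0 < be t) → Integrable (fun t => al t * be t) σ →
      (∀ t, ObP q (al t) (NUSea.O.par0 m) (A t)) →
      (∀ t, StB y₁ y₂ (be t) (NUSea.O.par0 m) (B t)) →
      ‖∫ t, FL F ep e1 J m i (fun r O c d x => stO (A t) (NUSea.O.par0 m) O *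
          stN ρ (B t) (NUSea.O.par0 m) (cr e1 J m) r O c d x) ∂σ‖ₑ ≤
        ENNReal.ofReal (3 * (∫ t, al t * be t ∂σ) * (m : ℝ) ^ (-(3 / 8 * q * (1 - 4 * e1))) *
          (m : ℝ) ^ ε * F.bd m i) := by
  obtain ⟨m0, h0⟩ := FL_ob1 h hK hq0 hq C0 y₁ y₂ h1 h2
  refine ⟨m0, fun m hm i hi ρ hρ T _ σ A B al be ha hb hab hA hB => ?_⟩
  refine (enorm_integral_le_lintegral_enorm _).trans ?_
  have h3 : ∀ t, ‖FL F ep e1 J m i (fun r O c d x => stO (A t) (NUSea.O.par0 m) O *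
          stN ρ (B t) (NUSea.O.par0 m) (cr e1 J m) r O c d x)‖ₑ ≤
      ENNReal.ofReal (al t * be t) * ENNReal.ofReal (3 * (m : ℝ) ^ (-(3 / 8 * q * (1 - 4 * e1))) *
        (m : ℝ) ^ ε * F.bd m i) := by
    intro t
    refine (h0 m hm i hi ρ hρ (al t) (be t) (ha t) (hb t) (A t) (B t) (hA t) (hB t)).trans
      (le_of_eq ?_)
    rw [← ENNReal.ofReal_mul (mul_nonneg (ha t) (hb t).le)]
    congr 1
    ring
  refine (lintegral_mono h3).trans ?_
  rw [lintegral_mul_const'' _ hab.aemeasurable.ennreal_ofReal,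
    ← ofReal_integral_eq_lintegral_ofReal hab
      (Filter.Eventually.of_forall fun t => mul_nonneg (ha t) (hb t).le),
    ← ENNReal.ofReal_mul (integral_nonneg fun t => mul_nonneg (ha t) (hb t).le)]
  refine le_of_eq ?_
  congr 1
  ring

end main

end PBOBd

end
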