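import Pool.Agent.NUBR.Z1C

/-!
# Plan B: the positive gas of a configuration with a statistic inside (helper79)

`Z1S B P η η' O p q Ψ = (p! q!)⁻¹ ∫ WO * Ψ`: the gas `Z1c` with a statistic `Ψ ≥ 0` of the quanta.

* `Z1S_one`, `Z1S_mono`, `Z1S_const`, `Z1S_add`, `Z1S_sum`;
* `Z1S_le_W0`, `Z1S_le_inp`, `Z1S_le_obC`: from a bound `p! q! exp (MFs + E) * X` of `∫ W0 * Ψ` to the
  bound `exp (MF + E + ..) * X` of `Z1S` (as `NUBR.Z1c_le_*`, `X : ℝ≥0∞` any factor).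
-/

set_option autoImplicit false
set_option linter.unusedSectionVars false

noncomputable section

open MeasureTheory Finset
open scoped ENNReal

namespace PBZ

open NUO NU42 NUGC NUBR

/-- **the positive gas of `p` quanta X and `q` quanta Y on the curve with a statistic `Ψ`** -/
def Z1S (B : OB) (P : Par) (η η' : ℝ → ℝ) {r : ℕ} (O : Fin r → Xo) (p q : ℕ)
    (Ψ : (Fin p → ℝ) × (Fin q → ℝ) → ℝ≥0∞) : ℝ≥0∞ :=
  ((p.factorial : ℝ≥0∞) * q.factorial)⁻¹ * ∫⁻ x : (Fin p → ℝ) × (Fin q → ℝ),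
    ENNReal.ofReal (NU42.WO (dA η) (dA η') (dA η) (dA η') (qAc B P η O true)
      (qAc B P η O false) x.1 x.2) * Ψ x

section basic

variable {B : OB} {P : Par} {η η' : ℝ → ℝ} {r : ℕ} {O : Fin r → Xo} {p q : ℕ}

theorem Z1S_one : Z1S B P η η' O p q (fun _ => 1) = Z1c B P η η' O p q := by
  unfold Z1S Z1c
  simp only [mul_one]

theorem Z1S_mono {Ψ Ψ' : (Fin p → ℝ) × (Fin q → ℝ) → ℝ≥0∞} (h : ∀ x, Ψ x ≤ Ψ' x) :
    Z1S B P η η' O p q Ψ ≤ Z1S B P η η' O p q Ψ' := by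
  unfold Z1S
  exact mul_le_mul_right (lintegral_mono fun x => mul_le_mul_right (h x) _) _

theorem Z1S_const {c : ℝ≥0∞} (hc : c ≠ ⊤) :
    Z1S B P η η' O p q (fun _ => c) = c * Z1c B P η η' O p q := by
  unfold Z1S Z1c
  rw [lintegral_mul_const' _ _ hc]
  ring

theorem Z1S_le_const {Ψ : (Fin p → ℝ) × (Fin q → ℝ) → ℝ≥0∞} {c : ℝ≥0∞} (hc : c ≠ ⊤)
    (h : ∀ x, Ψ x ≤ c) : Z1S B P η η' O p q Ψ ≤ c * Z1c B P η η' O p q :=
  (Z1S_mono h).trans (Z1S_const hc).le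

theorem Z1S_smul {Ψ : (Fin p → ℝ) × (Fin q → ℝ) → ℝ≥0∞} {c : ℝ≥0∞} (hc : c ≠ ⊤) :
    Z1S B P η η' O p q (fun x => c * Ψ x) = c * Z1S B P η η' O p q Ψ := by
  unfold Z1S
  have : ∀ x : (Fin p → ℝ) × (Fin q → ℝ), ENNReal.ofReal (NU42.WO (dA η) (dA η') (dA η) (dA η')
      (qAc B P η O true) (qAc B P η O false) x.1 x.2) * (c * Ψ x) =
      c * (ENNReal.ofReal (NU42.WO (dA η) (dA η') (dA η) (dA η')
      (qAc B P η O true) (qAc B P η O false) x.1 x.2) * Ψ x) := fun x => by ring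
  simp_rw [this]
  rw [lintegral_const_mul' _ _ hc]
  ring

theorem Z1S_sum {ι : Type*} (s : Finset ι) {Ψ : ι → (Fin p → ℝ) × (Fin q → ℝ) → ℝ≥0∞}
    (hm : ∀ i ∈ s, Measurable (Ψ i))
    (hW : Measurable fun x : (Fin p → ℝ) × (Fin q → ℝ) => NU42.WO (dA η) (dA η') (dA η) (dA η')
      (qAc B P η O true) (qAc B P η O false) x.1 x.2) :
    Z1S B P η η' O p q (fun x => ∑ i ∈ s, Ψ i x) = ∑ i ∈ s, Z1S B P η η' O p q (Ψ i) := by
  unfold Z1S
  simp_rw [Finset.mul_sum]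
  have h := lintegral_finsetSum (μ := volume) s (f := fun i (x : (Fin p → ℝ) × (Fin q → ℝ)) =>
    ENNReal.ofReal (WO (dA η) (dA η') (dA η) (dA η') (qAc B P η O true) (qAc B P η O false)
      x.1 x.2) * Ψ i x) fun i hi => hW.ennreal_ofReal.mul (hm i hi)
  rw [h, Finset.mul_sum]

end basic

/-- **from `W0` to `Z1S`**: `X` the data of the sea, one body factors dominated up to constants -/
theorem Z1S_le_W0 [NUSea.Sea] {B : OB} (hB : B.Nn) {P : Par} {η η' : ℝ → ℝ} {r : ℕ}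
    {O : Fin r → Xo} {p n : ℕ} {X : NUSea.H0.Dat} {aX aY cf : ℝ → ℝ} {cX cY s E : ℝ}
    {Ψ : (Fin p → ℝ) × (Fin n → ℝ) → ℝ≥0∞} {Y : ℝ≥0∞}
    (hD : ∀ a, X.D a = dA η) (hD1 : ∀ a, X.D1 a = dA η')
    (hX : ∀ t, qAc B P η O true t ≤ NUMFC.act * Real.exp cX * (aX t * cf t))
    (hY : ∀ t, qAc B P η O false t ≤ NUMFC.act * Real.exp cY * (aY t * cf t))
    (h : ∫⁻ x, ENNReal.ofReal (NUSea.H0.W0 X p n aX aY cf x) * Ψ x ≤
      ENNReal.ofReal ((p.factorial : ℝ) * n.factorial * Real.exp (NUSea.MFs s p n + E)) * Y) :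
    Z1S B P η η' O p n Ψ ≤ ENNReal.ofReal (Real.exp (NUSea.MF s + E + cX * p + cY * n)) * Y := by
  have hact := NUMFC.act_pos
  have hc : 0 ≤ (NUMFC.act * Real.exp cX) ^ p * (NUMFC.act * Real.exp cY) ^ n := by positivity
  have h1 : ∀ x : (Fin p → ℝ) × (Fin n → ℝ),
      ENNReal.ofReal (WO (dA η) (dA η') (dA η) (dA η') (qAc B P η O true) (qAc B P η O false)
        x.1 x.2) * Ψ x ≤
        ENNReal.ofReal ((NUMFC.act * Real.exp cX) ^ p * (NUMFC.act * Real.exp cY) ^ n) *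
        (ENNReal.ofReal (NUSea.H0.W0 X p n aX aY cf x) * Ψ x) := by
    intro x
    rw [← mul_assoc, ← ENNReal.ofReal_mul hc]
    refine mul_le_mul_left (ENNReal.ofReal_le_ofReal ?_) _
    unfold NUSea.H0.W0
    rw [hD, hD, hD1, hD1, ← WO_smul2]
    exact WO_mono _ _ _ _ (fun t => qAc_nonneg hB P η O true t)
      (fun t => qAc_nonneg hB P η O false t) hX hY _ _
  have e1 : (NUMFC.act * Real.exp cX) ^ p * (NUMFC.act * Real.exp cY) ^ n *
      Real.exp (NUSea.MFs s p n + E) = Real.exp (NUSea.MF s + E + cX * p + cY * n) := by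
    have e2 : NUMFC.act ^ (p + n) * Real.exp (NUSea.MFs s p n) = Real.exp (NUSea.MF s) :=
      NUSea.act_MFs s p n
    rw [show NUSea.MF s + E + cX * p + cY * n = NUSea.MF s + (E + (p * cX + n * cY)) by ring,
      Real.exp_add, Real.exp_add, Real.exp_add, Real.exp_add, Real.exp_nat_mul, Real.exp_nat_mul,
      ← e2]
    ring
  unfold Z1S
  calc ((p.factorial : ℝ≥0∞) * n.factorial)⁻¹ * ∫⁻ x : (Fin p → ℝ) × (Fin n → ℝ),
        ENNReal.ofReal (WO (dA η) (dA η') (dA η) (dA η') (qAc B P η O true) (qAc B P η O false)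
          x.1 x.2) * Ψ x ≤
      ((p.factorial : ℝ≥0∞) * n.factorial)⁻¹ * (ENNReal.ofReal
        ((NUMFC.act * Real.exp cX) ^ p * (NUMFC.act * Real.exp cY) ^ n) *
        (ENNReal.ofReal ((p.factorial : ℝ) * n.factorial * Real.exp (NUSea.MFs s p n + E)) * Y)) := by
        refine mul_le_mul_right ?_ _
        refine (lintegral_mono h1).trans ?_
        rw [lintegral_const_mul' _ _ ENNReal.ofReal_ne_top]
        exact mul_le_mul_right h _
    _ = ENNReal.ofReal ((NUMFC.act * Real.exp cX) ^ p * (NUMFC.act * Real.exp cY) ^ n) *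
        (((p.factorial : ℝ≥0∞) * n.factorial)⁻¹ *
          ENNReal.ofReal ((p.factorial : ℝ) * n.factorial * Real.exp (NUSea.MFs s p n + E))) *
          Y := by
        ring
    _ = _ := by rw [fac_cancel p n hc e1]

/-- **from `W0` of the data of a configuration to `Z1S`**: `cc` the constants of the two species
(`cc = 0` for near groups), `e` a real exponent, `c` the tilt per quantum -/
theorem Z1S_le_inp [NUSea.Sea] {B : OB} (hB : B.Nn) {I : NUSea.H0.Inp} {P : Par} {δ : ℝ}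
    (hP : PG δ P) (hη : ∀ t, |I.η t| < δ * NUMF.l) {r : ℕ} {O : Fin r → Xo} {p n : ℕ}
    {cc : Bool → ℝ} {e : Bool → ℝ → ℝ} {cf : ℝ → ℝ} {c E : ℝ}
    {Ψ : (Fin p → ℝ) × (Fin n → ℝ) → ℝ≥0∞} {Y : ℝ≥0∞}
    (h1 : ∀ a t, B.R a (NUO.pA I.η t) * ‖B.φ (NUO.pA I.η t)‖ ≤
      2 * Real.cos NUP1.l * Real.exp (cc a) *
      (Real.exp (I.s * (NUSea.vc (NUAct.zt (NUKer.iD I.η) t)).re +
        (I.A a (NUAct.zt (NUKer.iD I.η) t)).re + e a t) * cf t))
    (h : ∫⁻ x, ENNReal.ofReal (NUSea.H0.W0 (NUSea.H0.datO I P O) p n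
        (aFe (NUSea.H0.datO I P O) (fun a t => e a t + c) true)
        (aFe (NUSea.H0.datO I P O) (fun a t => e a t + c) false) cf x) * Ψ x ≤
      ENNReal.ofReal ((p.factorial : ℝ) * n.factorial * Real.exp (NUSea.MFs I.s p n + E)) * Y) :
    ENNReal.ofReal (Real.exp (c * ((p : ℝ) + n))) * Z1S B P I.η I.η1 O p n Ψ ≤
      ENNReal.ofReal (Real.exp (NUSea.MF I.s + E + cc true * p + cc false * n)) * Y := by
  have key : ∀ a t, qAc B P I.η O a t ≤ NUMFC.act * Real.exp (cc a - c) *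
      (aFe (NUSea.H0.datO I P O) (fun a t => e a t + c) a t * cf t) := by
    intro a t
    refine qAc_le_inp (κ := cc a - c) (e := e a t + c) (cf := cf t) hP hη O ?_
    refine (h1 a t).trans (le_of_eq ?_)
    set w := NUAct.zt (NUKer.iD I.η) t
    rw [show I.s * (NUSea.vc w).re + (I.A a w).re + (e a t + c) =
      (I.s * (NUSea.vc w).re + (I.A a w).re + e a t) + c by ring, Real.exp_add
        (I.s * (NUSea.vc w).re + (I.A a w).re + e a t) c,
      show cc a = (cc a - c) + c by ring, Real.exp_add (cc a - c) c,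
      show cc a - c + c - c = cc a - c by ring]
    ring
  have h2 := Z1S_le_W0 (cX := cc true - c) (cY := cc false - c) hB
    (fun a => NUSea.H0.datO_D I P O a) (fun a => NUSea.H0.datO_D1 I P O a) (key true) (key false) h
  calc ENNReal.ofReal (Real.exp (c * ((p : ℝ) + n))) * Z1S B P I.η I.η1 O p n Ψ ≤
      ENNReal.ofReal (Real.exp (c * ((p : ℝ) + n))) * (ENNReal.ofReal (Real.exp (NUSea.MF I.s + E +
        (cc true - c) * p + (cc false - c) * n)) * Y) := by gcongr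
    _ = _ := by
        rw [← mul_assoc, ← ENNReal.ofReal_mul (Real.exp_pos _).le, ← Real.exp_add]
        congr 3
        ring

/-- **the case of the data `obC`**: rows of the sea, spectator factors `g` (base factor included) -/
theorem Z1S_le_obC [NUSea.Sea] {κ β : ℝ} {M : ℕ} {g : Bool → ℂ → ℝ} (hg : ∀ a u, 0 ≤ g a u)
    {I : NUSea.H0.Inp} {P : Par} {δ : ℝ} (hP : PG δ P) (hη : ∀ t, |I.η t| < δ * NUMF.l) {r : ℕ}
    {O : Fin r → Xo} {p n : ℕ} {cc : Bool → ℝ} {e : Bool → ℝ → ℝ} {cf : ℝ → ℝ} {c E : ℝ}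
    {Ψ : (Fin p → ℝ) × (Fin n → ℝ) → ℝ≥0∞} {Y : ℝ≥0∞}
    (hrow : ∀ t, Rrow κ (NUO.pA I.η t) = 2 * Real.cos NUP1.l *
      Real.exp (I.s * (NUSea.vc (NUAct.zt (NUKer.iD I.η) t)).re))
    (h1 : ∀ a t, g a (NUO.pA I.η t) * ‖phP M β (NUO.pA I.η t)‖ ≤ Real.exp (cc a) *
      (Real.exp ((I.A a (NUAct.zt (NUKer.iD I.η) t)).re + e a t) * cf t))
    (h : ∫⁻ x, ENNReal.ofReal (NUSea.H0.W0 (NUSea.H0.datO I P O) p n
        (aFe (NUSea.H0.datO I P O) (fun a t => e a t + c) true)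
        (aFe (NUSea.H0.datO I P O) (fun a t => e a t + c) false) cf x) * Ψ x ≤
      ENNReal.ofReal ((p.factorial : ℝ) * n.factorial * Real.exp (NUSea.MFs I.s p n + E)) * Y) :
    ENNReal.ofReal (Real.exp (c * ((p : ℝ) + n))) * Z1S (obC κ M β g) P I.η I.η1 O p n Ψ ≤
      ENNReal.ofReal (Real.exp (NUSea.MF I.s + E + cc true * p + cc false * n)) * Y := by
  refine Z1S_le_inp (obC_nn hg) hP hη (cc := cc) (e := e) (fun a t => ?_) h
  have hcos := cosl_nonneg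
  show Rrow κ (NUO.pA I.η t) * g a (NUO.pA I.η t) * ‖phP M β (NUO.pA I.η t)‖ ≤ _
  rw [hrow]
  set w := NUAct.zt (NUKer.iD I.η) t
  calc 2 * Real.cos NUP1.l * Real.exp (I.s * (NUSea.vc w).re) * g a (NUO.pA I.η t) *
        ‖phP M β (NUO.pA I.η t)‖ =
      2 * Real.cos NUP1.l * Real.exp (I.s * (NUSea.vc w).re) *
        (g a (NUO.pA I.η t) * ‖phP M β (NUO.pA I.η t)‖) := by ring
    _ ≤ 2 * Real.cos NUP1.l * Real.exp (I.s * (NUSea.vc w).re) *
        (Real.exp (cc a) * (Real.exp ((I.A a w).re + e a t) * cf t)) :=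
        mul_le_mul_of_nonneg_left (h1 a t) (by positivity)
    _ = _ := by
        rw [show I.s * (NUSea.vc w).re + (I.A a w).re + e a t =
          I.s * (NUSea.vc w).re + ((I.A a w).re + e a t) by ring, Real.exp_add
            (I.s * (NUSea.vc w).re)]
        ring

end PBZ

end
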