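import Pool.Agent.PB.ObZT
import Pool.Agent.PB.AsmR
import Pool.Agent.PotH.Red

/-!
# Rows `0`: the one body bounds of the objects in the form of the chains (`OneR`, `oneEH`)

* `TW_ge`, `crH_etaC`: the window `TW` and the current of the curve `etaC`;
* **`one_oneEH`**: the one body factor against the activity with the exponent `PotH.oneEH` of any
  curve whose current is nonnegative and at least `J` in the bulk, rows `0`;
* **`oneR_seaP`**: `OneR` for every geometry at rows `0`; `th0Z`: the end factor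
  `|sin u| / |sin (u - 2 l)|` is an admissible spectator.
-/

set_option autoImplicit false

noncomputable section

open Complex MeasureTheory Set

namespace PBO

open NUP1 NUO NUGC

theorem TW_ge {ep e1 : ℝ} (h0 : 0 < ep) (h1 : ep ≤ 1 / 100) (he : 0 ≤ e1) {m : ℕ}
    (hm : 0 ≤ Real.log m) : Tb (Real.log m) / (1 - ep) ≤ TW ep e1 m := by
  have hT : 0 ≤ Tb (Real.log m) := by
    unfold Tb
    linarith
  unfold TW
  rw [div_le_iff₀ (by linarith)]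
  have h2 : (1 : ℝ) ≤ (1 + 2 * e1 + 2 * ep) * (1 - ep) := by nlinarith
  calc Tb (Real.log m) = 1 * Tb (Real.log m) := (one_mul _).symm
    _ ≤ (1 + 2 * e1 + 2 * ep) * (1 - ep) * Tb (Real.log m) := mul_le_mul_of_nonneg_right h2 hT
    _ = _ := by ring

attribute [local instance] NUSea.seaP

/-- the current of the curve of TARGET-C with `m` rows -/
theorem crH_etaC (e1 J : ℝ) {m : ℕ} (hm : 1 ≤ m) (t : ℝ) :
    PotH.crH (etaC e1 J m m) m t = hC e1 J m t := by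
  have h1 : (0 : ℝ) < m := by exact_mod_cast hm
  have h2 : 0 < NUSea.P t := NUSea.P_pos t
  unfold PotH.crH etaC
  field_simp

/-- **the one body factor of every object, exponent `oneEH` of a curve `η`**, rows `0` -/
theorem one_oneEH (n0 : ℕ) {h0 G : ℝ} (hh : 0 ≤ h0) (hG : 0 < G) (K0 : ℝ) (k0 : ℕ) :
    ∃ C c : ℝ, 0 < C ∧ 0 < c ∧ ∀ m : ℕ, 3 ≤ m → ∀ ep : ℝ, 0 < ep → ep ≤ 1 / 100 →
      ∀ (B : OB) (K : ℕ) (mu ex W1 W2 : List ℂ) (c0 : ℝ) (g : Bool → ℂ → ℝ),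
        ObZ n0 h0 G m (4 / 3 * (1 - ep)) eM B K mu ex W1 W2 c0 g →
      ∀ e1 J : ℝ, 0 ≤ e1 → ∀ η : ℝ → ℝ, (∀ t, 0 ≤ PotH.crH η m t) →
      (∀ t, |t| ≤ (1 - 3 * e1) * Tb (Real.log m) → J ≤ PotH.crH η m t) →
      ∀ (r : ℕ) (O : Fin r → Xo) (i : Fin r),
        ob1c B (NUSea.O.par0 m).jL (ei (NUSea.O.par0 m) O i) (rr (NUSea.O.par0 m) O i) (O i) *
          Real.exp (PotH.oneEH m η (TW ep e1 m) O i + K0) * colK (((r : ℝ) + 1) ^ k0) (kd (O i)) ≤
          act C 1 c (1 / 10) (k0 + 6) (Real.log m) ep e1 J r (ht (O i)) := by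
  obtain ⟨C, c, hC', hc, H⟩ := one_actZ0 n0 hh hG K0 k0
  refine ⟨C, c, hC', hc, fun m hm ep hep hep1 B K mu ex W1 W2 c0 g hZ e1 J he η h1 h2 r O i => ?_⟩
  have hL := log_ge_one hm
  exact H m hm ep hep hep1 B K mu ex W1 W2 c0 g hZ e1 J (TW ep e1 m)
    (TW_ge hep hep1 he (by linarith)) (PotH.crH η m) h1 h2 r O i

/-- **the same with the gain of the tent kept**: exponent `oneEH` of the curve `etaC` -/
theorem one_oneEHT (n0 : ℕ) {h0 G : ℝ} (hh : 0 ≤ h0) (hG : 0 < G) (K0 : ℝ) (k0 : ℕ) :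
    ∃ C c : ℝ, 0 < C ∧ 0 < c ∧ ∀ e1 : ℝ, 0 < e1 → e1 ≤ 1 / 100 → ∃ m0 : ℕ, ∀ m : ℕ, m0 ≤ m →
      ∀ ep : ℝ, 0 < ep → ep ≤ 1 / 100 →
      ∀ (B : OB) (K : ℕ) (mu ex W1 W2 : List ℂ) (c0 : ℝ) (g : Bool → ℂ → ℝ),
        ObZ n0 h0 G m (4 / 3 * (1 - ep)) eM B K mu ex W1 W2 c0 g → B.Nn → ∀ J : ℝ, 0 ≤ J →
      ∀ (r : ℕ) (O : Fin r → Xo) (i : Fin r),
        ob1c B (NUSea.O.par0 m).jL (ei (NUSea.O.par0 m) O i) (rr (NUSea.O.par0 m) O i) (O i) *
          Real.exp (PotH.oneEH m (etaC e1 J m m) (TW ep e1 m) O i + K0) *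
            colK (((r : ℝ) + 1) ^ k0) (kd (O i)) ≤
          act C 1 c (1 / 10) (k0 + 6) (Real.log m) ep e1 J r (ht (O i)) *
            Real.exp (-PBP.gT e1 (Real.log m) (ht (O i))) := by
  obtain ⟨C, c, hC', hc, H⟩ := one_actZT n0 hh hG K0 k0
  refine ⟨C, c, hC', hc, fun e1 he he1 => ?_⟩
  obtain ⟨m0, H0⟩ := H e1 he
  obtain ⟨m1, hm1⟩ := PBP.exists_M0 he
  refine ⟨max (max m0 m1) 3, fun m hm ep hep hep1 B K mu ex W1 W2 c0 g hZ hN J hJ r O i => ?_⟩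
  simp only [max_le_iff] at hm
  obtain ⟨⟨g1, g2⟩, g3⟩ := hm
  have hL := log_ge_one g3
  obtain ⟨a1, a2⟩ := hC_gain he he1 hJ (hm1 m g2).1
  have key := H0 m g1 g3 ep hep hep1 B K mu ex W1 W2 c0 g hZ hN J (TW ep e1 m)
    (TW_ge hep hep1 he.le (by linarith)) (hC e1 J m) a1 a2 r O i
  unfold PotH.oneEH
  rw [crH_etaC e1 J (by omega)]
  exact key

/-- **`OneR` for every geometry at rows `0`** -/
theorem oneR_seaP (n0 : ℕ) {h0 GG : ℝ} (hh : 0 ≤ h0) (hG : 0 < GG) {Ge : Geo}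
    (hB : ∀ ep : ℝ, 0 < ep → ep ≤ 1 / 100 → ∃ m0 : ℕ, ∀ m ≥ m0,
      ∃ (K : ℕ) (mu ex W1 W2 : List ℂ) (c0 : ℝ) (g : Bool → ℂ → ℝ),
        ObZ n0 h0 GG m (4 / 3 * (1 - ep)) eM (Ge.B m (4 / 3 * (1 - ep))) K mu ex W1 W2 c0 g ∧
          (Ge.B m (4 / 3 * (1 - ep))).Nn)
    {Kc : ℝ} (h1 : ∀ (m : ℕ) (ep e1 J : ℝ), 1 ≤ m → 0 < ep → 0 < e1 → 0 ≤ J →
      ∀ (r : ℕ) (O : Fin r → Xo) (i : Fin r), Ge.one m ep e1 J r O i ≤
        PotH.oneEH m (etaC e1 J m m) (TW ep e1 m) O i + Kc) : OneR Ge := by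
  intro K0 k0
  obtain ⟨C, c, hC', hc, H⟩ := one_oneEH n0 hh hG (Kc + K0) k0
  refine ⟨C, c, hC', hc, fun ep hep hep1 e1 he he1 J hJ => ?_⟩
  obtain ⟨m0, hm0⟩ := hB ep hep hep1
  have h3 := (Real.tendsto_log_atTop.comp tendsto_natCast_atTop_atTop).eventually_ge_atTop (160 / 3)
  obtain ⟨m2, hm2⟩ := Filter.eventually_atTop.1 h3
  refine ⟨max (max m0 m2) 3, fun m hm r O i => ?_⟩
  simp only [ge_iff_le, max_le_iff] at hm
  obtain ⟨⟨g1, g2⟩, g3⟩ := hm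
  have hT : 20 ≤ Tb (Real.log m) := by
    have := hm2 m g2
    simp only [Function.comp_apply] at this
    unfold Tb
    linarith
  obtain ⟨K, mu, ex, W1, W2, c0, g, hZ, hN⟩ := hm0 m g1
  have key := H m g3 ep hep hep1 _ K mu ex W1 W2 c0 g hZ e1 J he.le (etaC e1 J m m)
    (fun t => by rw [crH_etaC e1 J (by omega)]; exact hC_nonneg he1 hJ hT t)
    (fun t ht' => by
      rw [crH_etaC e1 J (by omega)]
      exact hC_ge he he1 hT (ht'.trans (by nlinarith))) r O i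
  refine le_trans ?_ key
  have h4 := h1 m ep e1 J (by omega) hep he hJ r O i
  have hob : 0 ≤ ob1c (Ge.B m (4 / 3 * (1 - ep))) (NUSea.O.par0 m).jL (ei (NUSea.O.par0 m) O i)
      (rr (NUSea.O.par0 m) O i) (O i) :=
    ob1c_nonneg hN _ _ ((parOK_seaP m).r0 r _).le _
  have hcol : 0 ≤ colK (((r : ℝ) + 1) ^ k0) (kd (O i)) := by
    have : (0 : ℝ) ≤ ((r : ℝ) + 1) ^ k0 := by positivity
    cases kd (O i) <;> simp only [colK] <;> first | exact this | exact zero_le_one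
  have h5 : Real.exp (Ge.one m ep e1 J r O i + K0) ≤
      Real.exp (PotH.oneEH m (etaC e1 J m m) (TW ep e1 m) O i + (Kc + K0)) :=
    Real.exp_le_exp.2 (by linarith)
  exact mul_le_mul_of_nonneg_right (mul_le_mul_of_nonneg_left h5 hob) hcol

/-! ### the ends at `0` -/

/-- modulus of the factor of the two ends at `0` -/
def th0 (u : ℂ) : ℝ := ‖Complex.sin u‖ / ‖Complex.sin (u - 2 * l)‖

theorem th0_nonneg (u : ℂ) : 0 ≤ th0 u := by unfold th0; positivity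

/-- the ends at `0` are an admissible spectator -/
theorem th0Z : SpZ cZ eM fun _ u => th0 u := by
  have hl := l_pos
  have hs := s1_pos
  intro _ u h3 h4
  refine ⟨th0_nonneg u, ?_⟩
  have he : eM = 1251 / 5000 := rfl
  have e1 : (u - 2 * l).re = u.re - 2 * l := by simp
  have i1 : (u - 2 * l).im = u.im := by simp
  have a1 := sin_up u
  have hneg : (u - 2 * l).re < 0 := by rw [e1]; linarith
  have a2 := sin_dn (z := u - 2 * l) (by rw [abs_of_neg hneg, e1]; linarith) (by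
    rw [abs_of_neg hneg, e1]
    rw [he] at h3
    linarith)
  rw [i1] at a2
  have hc := Real.cosh_pos u.im
  show th0 u ≤ cZ
  unfold th0 cZ
  have e : s1⁻¹ = Real.cosh u.im / (s1 * Real.cosh u.im) := by field_simp
  rw [e]
  gcongr

end PBO

end
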