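import Pool.Agent.PB.ClO0
import Pool.Agent.NUM3.Certs4

/-!
# The other classes at rows `0`

`perBd_of0`: the tilted bounds of all classes from `S4R` and `OneR`; **`oth1_of`**: `oth0` at a geometry
of the rows 0 (sea `seaP`), from `S4R`, `OneR` and the bounds of the cutoffs.
-/

set_option autoImplicit false
set_option linter.unusedSectionVars false

noncomputable section

open Complex MeasureTheory Finset
open scoped ENNReal

namespace PBO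

open NUO NUP1 NUCR NUP1S NURow NUGC

/-- the tilted bounds of all classes from the gas and the one body bounds -/
theorem perBd_of0 [NUSea.Sea] {G : Geo} (hnn : ∀ m β, (G.B m β).Nn) (h4 : S4R G) (h1 : OneR G) :
    PerBdR G := by
  obtain ⟨C, c, b, c1, Ca, k, hC, hc, hb, hc1, hCa, h⟩ :=
    perG_ofR hnn Pool.Agent.NUM3.stabProd h4 h1
  exact perBd_ofR hC hc hb hc1 hCa h

/-- **all classes except `W W`, and `W W` outside the near set, rows 0** -/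
theorem oth1_of {ex ex0 : List ℂ} (hX : CutOk ex ex0) {G : Geo}
    (hB : ∀ k β, G.B k β = PBR.ob0 (k - 1) β ex ex0) (hM : G.MF = PB0.MF0)
    (h4 : @S4R NUSea.seaP G) (h1 : @OneR NUSea.seaP G) :
    ∀ ε : ℝ, 0 < ε → ∃ ep0 : ℝ, 0 < ep0 ∧ ep0 ≤ 1 / 100 ∧
      ∀ ep : ℝ, 0 < ep → ep ≤ ep0 → ∃ (Cst : ℝ) (m0 : ℕ), 0 ≤ Cst ∧ 1 ≤ m0 ∧ ∀ m : ℕ, m0 ≤ m →
        (∀ t t' : HT, ¬(t = .W ∧ t' = .W) →
          sVal (KX ex ex0 ep m) (@NUSea.O.par0 NUSea.seaP m) (2 * m) t t' ≤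
            Cst * (m : ℝ) ^ (-(7 / 16) + ε) * Real.exp ((m : ℝ) ^ 2 * G.EM)) ∧
        (∀ o : Bool, sValD (KX ex ex0 ep m) (kDX ex ex0 ep m) (@NUSea.O.par0 NUSea.seaP m)
            (2 * m) o ≤ Cst * (m : ℝ) ^ (-(7 / 16) + ε) * Real.exp ((m : ℝ) ^ 2 * G.EM)) ∧
        (∀ (S : Set (ℝ × ℝ)) (κ : ℝ), MeasurableSet S →
          (∀ z ∈ S, κ ≤ 2 * |z.1| + 2 * |z.2| + |z.1 - z.2| / 2) →
          sInt (KX ex ex0 ep m) (@NUSea.O.par0 NUSea.seaP m) (2 * m) .W .W S ≤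
            ENNReal.ofReal (Cst * (Real.exp (-κ) * (m : ℝ) ^ ε + (m : ℝ) ^ (-(7 / 16) + ε)) *
              Real.exp ((m : ℝ) ^ 2 * G.EM))) ∧
        (∀ y : ℝ × ℝ, |y.1| ≤ 3 / 8 * Real.log m → |y.2| ≤ 3 / 8 * Real.log m →
          sPt (KX ex ex0 ep m) (@NUSea.O.par0 NUSea.seaP m) (2 * m) .W .W (vl (htL .W) y.1)
              (vl (htL .W) y.2) ≤
            Cst * (Real.exp (-(2 * |y.1| + 2 * |y.2| + |y.1 - y.2| / 2)) * (m : ℝ) ^ ε) *
              Real.exp ((m : ℝ) ^ 2 * G.EM)) := by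
  letI : NUSea.Sea := NUSea.seaP
  have hnn : ∀ m β, (G.B m β).Nn := fun m β => by
    rw [hB]
    exact PBR.ob0_nn _ _ _ _
  exact oth0 (perBd_of0 hnn h4 h1) (clOk0 hX hB hM)

end PBO

end
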