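import Pool.Agent.PB.ExMix3
import Pool.Agent.NURow.ConvL

/-!
# The regular function, general rows: one body functions of the classes

`RD` : rows `x`, `y` of the two groups (real parts in `[-l / 2, l / 2]`, not `l / 4`), ends `p = h`,
`q = g`, activity constants, cutoff exponent and corrections; `RD.X`, `RD.Y` : one body functions of
the four kinds (the ends are a spectator of `XX`), `RD.hX`, `RD.hY` : the functions of the eleven
integrals; `RD.KF`, `RD.KP` : prefactors of a half quantum.  `RD.stX` : stage 2 for one class.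
-/

set_option autoImplicit false
set_option linter.unusedSectionVars false
set_option linter.unusedVariables false

noncomputable section

open Complex MeasureTheory

namespace PBX

open NUP1 NUP1S NUP1.Bd NURow
open NUP1.N (Z3 Gr0 GXs GYs ZP ZP' ZPP prc pr1 rA rB)
open NUP1.Leg (hE hr thE cc Ck Dk)

/-! ## the ends as a spectator -/

theorem thE_Lg (r o r' o' u : ℂ) : thE r o r' o' u = Lg r o u * Lg o' r' u := by
  unfold thE Lg
  rw [show u - o + 3 * l = -(o - u - 3 * l) by ring, show u - r' + 3 * l = -(r' - u - 3 * l) by ring,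
    Complex.sin_neg, Complex.sin_neg, neg_mul_neg, mul_div_mul_comm]

/-- the ends for a string -/
def thS (r o r' o' w : ℂ) : ℂ := thE r o r' o' w * thE r o r' o' (w - l)

theorem half_lt {r : ℂ} (h : |r.re| ≤ l / 2) : -l < r.re ∧ r.re < 37 / 10 * l ∧
    -(7 / 5 * l) < r.re ∧ r.re < 43 / 10 * l := by
  have hl := Bd.l_pos
  obtain ⟨h1, h2⟩ := abs_le.1 h
  exact ⟨by linarith, by linarith, by linarith, by linarith⟩

theorem thE_fun (r o r' o' : ℂ) : thE r o r' o' = fun u => Lg r o u * Lg o' r' u :=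
  funext fun u => thE_Lg r o r' o' u

theorem thE_SpA {r o r' o' : ℂ} (h : |r.re| ≤ l / 2) (h' : |o'.re| ≤ l / 2) :
    SpA (thE r o r' o') := by
  rw [thE_fun]
  exact (Lg_SpA (half_lt h).2.2.1 (half_lt h).2.2.2).mul
    (Lg_SpA (half_lt h').2.2.1 (half_lt h').2.2.2)

theorem thE_SpecQ (b : Bool) {r o r' o' : ℂ} (h : |r.re| ≤ l / 2) (h' : |o'.re| ≤ l / 2) :
    SpecQ b 0 (thE r o r' o') (thS r o r' o') := by
  have h1 := specQ_mul (Lg_SpecQ b (p := r) (q := o) (half_lt h).1 (half_lt h).2.1)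
    (Lg_SpecQ b (p := o') (q := r') (half_lt h').1 (half_lt h').2.1)
  have e : (fun w => Lg r o w * Lg r o (w - l) * (Lg o' r' w * Lg o' r' (w - l))) =
      thS r o r' o' := by
    funext w
    unfold thS
    rw [thE_Lg, thE_Lg]
    ring
  rw [e, ← thE_fun] at h1
  simpa using h1

theorem measurable_thE (r o r' o' : ℂ) : Measurable (thE r o r' o') := by
  rw [thE_fun]
  exact (Lg_meas r o).mul (Lg_meas o' r')

theorem measurable_thS (r o r' o' : ℂ) : Measurable (thS r o r' o') :=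
  (measurable_thE r o r' o').mul ((measurable_thE r o r' o').comp (measurable_id.sub_const _))

theorem diffAt_thE {r o r' o' u : ℂ} (h : |r.re| ≤ l / 2) (h' : |o'.re| ≤ l / 2)
    (h1 : -(5 * l) < u.re) (h2 : u.re < 3 / 2 * l) :
    DifferentiableAt ℂ (thE r o r' o') u := by
  have hl := Bd.l_pos
  obtain ⟨a1, a2⟩ := abs_le.1 h
  obtain ⟨b1, b2⟩ := abs_le.1 h'
  rw [thE_fun]
  refine (Lg_diff ?_).mul (Lg_diff ?_)
  · exact sin_ne_pos (by linarith) (by linarith)
  · exact sin_ne_pos (by linarith) (by linarith)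

theorem gr_thE (α β : ℝ) (r o r' o' : ℂ) : Gr α β 0 (thE r o r' o') := by
  rw [thE_fun]
  exact ((Lg_gr α β r o).mul (Lg_gr α β o' r')).mono (by norm_num)

/-! ## the data -/

/-- rows, ends, activity constants, cutoffs -/
structure RD (m : ℕ) where
  c : ℂ
  c' : ℂ
  β : ℝ
  x : Fin m → ℂ
  y : Fin m → ℂ
  p : ℂ
  q : ℂ
  g : ℂ → ℂ
  g' : ℂ → ℂ
  g0 : ℂ → ℂ
  g0' : ℂ → ℂ

/-- admissible data -/
structure RD.Ok {m : ℕ} (D : RD m) : Prop where
  b0 : 0 < D.β
  b1 : D.β ≤ 4 / 3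
  hx : Rws D.x
  hy : Rws D.y
  hp : |D.p.re| ≤ l / 2
  hq : |D.q.re| ≤ l / 2
  nx : ∀ i, (D.x i).re ≠ l / 4
  ny : ∀ i, (D.y i).re ≠ l / 4
  gg : GOk D.β D.g
  gg' : GOk D.β D.g'
  gg0 : GOk (4 / 3) D.g0
  gg0' : GOk (4 / 3) D.g0'

/-- the species exchanged -/
def RD.sw {m : ℕ} (D : RD m) : RD m :=
  ⟨D.c', D.c, D.β, D.y, D.x, D.q, D.p, D.g', D.g, D.g0', D.g0⟩

theorem RD.Ok.sw {m : ℕ} {D : RD m} (h : D.Ok) : D.sw.Ok :=
  ⟨h.b0, h.b1, h.hy, h.hx, h.hq, h.hp, h.ny, h.nx, h.gg', h.gg, h.gg0', h.gg0⟩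

section

variable {m : ℕ} (D : RD m)

/-- the one body function of `X` in the eleven integrals -/
def RD.hX (u : ℂ) : ℂ := hE D.c D.p D.p D.q D.q D.x D.y u * ph D.β D.x D.g u

/-- the one body function of `Y` in the eleven integrals -/
def RD.hY (u : ℂ) : ℂ := hE D.c' D.q D.q D.p D.p D.y D.x u * ph D.β D.y D.g' u

theorem RD.sw_hX : D.sw.hX = D.hY := rfl

theorem RD.sw_hY : D.sw.hY = D.hX := rfl

/-- one body functions of `X` with spectators -/
def RD.Xs (s1 s2 : ℂ → ℂ) : Option O3 → ℂ → ℂ :=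
  XX D.c D.β D.x D.y D.g D.g0 (fun u => thE D.p D.p D.q D.q u * s1 u)
    (fun w => thS D.p D.p D.q D.q w * s2 w)

/-- one body functions of `Y` with spectators -/
def RD.Ys (s1 s2 : ℂ → ℂ) : Option O3 → ℂ → ℂ :=
  XX D.c' D.β D.y D.x D.g' D.g0' (fun u => thE D.q D.q D.p D.p u * s1 u)
    (fun w => thS D.q D.q D.p D.p w * s2 w)

/-- **one body functions of `X`** -/
def RD.X : Option O3 → ℂ → ℂ :=
  XX D.c D.β D.x D.y D.g D.g0 (thE D.p D.p D.q D.q) (thS D.p D.p D.q D.q)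

/-- **one body functions of `Y`** -/
def RD.Y : Option O3 → ℂ → ℂ :=
  XX D.c' D.β D.y D.x D.g' D.g0' (thE D.q D.q D.p D.p) (thS D.q D.q D.p D.p)

theorem RD.sw_X : D.sw.X = D.Y := rfl

theorem RD.sw_Y : D.sw.Y = D.X := rfl

/-- **prefactor of the half quantum of species X** -/
def RD.KF (w : ℂ) : ℂ := pr1 D.p D.q D.x D.y w

/-- **prefactor of the half quantum of species Y** -/
def RD.KF' (w : ℂ) : ℂ := pr1 D.q D.p D.y D.x w

/-- the half quantum X with a captured quantum Y -/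
def RD.KP (w : ℂ) : ℂ := sin l / sin (2 * l) * (D.KF w * D.Y none (w + 3 * l))

/-- the half quantum Y with a captured quantum X -/
def RD.KP' (w : ℂ) : ℂ := sin l / sin (2 * l) * (D.KF' w * D.X none (w + 3 * l))

/-- class D1, `w = w' + 3 l` -/
def RD.XD (w : ℂ) : ℂ := NUP1.N.XD D.p D.q D.y w

/-- class D1, `w' = w + 3 l` -/
def RD.XD' (w : ℂ) : ℂ := NUP1.N.XD D.q D.p D.x w

theorem Gr0_hX (u : ℂ) : Gr0 D.hX D.x u = D.X none u := by
  show _ = RR D.c D.x D.y u * ph D.β D.x D.g u * thE D.p D.p D.q D.q u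
  unfold Gr0 RD.hX hE RR hr
  ring

theorem Gr0_hY (u : ℂ) : Gr0 D.hY D.y u = D.Y none u := by
  show _ = RR D.c' D.y D.x u * ph D.β D.y D.g' u * thE D.q D.q D.p D.p u
  unfold Gr0 RD.hY hE RR hr
  ring

/-! ## spectators -/

theorem XX_XS (b : Bool) (c : ℂ) (β : ℝ) (x y : Fin m → ℂ) (g g0 e1 e2 : ℂ → ℂ) {S S' : Sp}
    (hL : S b (some .L) = S b none) (hT : S b (some .T) = S b (some .S))
    (hL' : S' b (some .L) = S' b none) (hT' : S' b (some .T) = S' b (some .S)) (w w' : ℂ) :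
    XX c β x y g g0 (fun u => e1 u * (S b none (w - u) * S' b none (w' - u)))
      (fun u => e2 u * (S b (some .S) (w - u) * S' b (some .S) (w' - u))) =
    XS b (XX c β x y g g0 e1 e2) S S' w w' := by
  funext k z
  unfold XS
  rcases k with _ | (_ | _ | _)
  · simp only [XX]
    ring
  · simp only [XX, hL, hL']
    ring
  · simp only [XX]
    ring
  · simp only [XX, hT, hT']
    ring

/-- the same with one half quantum -/
theorem XX_XS1 (b : Bool) (c : ℂ) (β : ℝ) (x y : Fin m → ℂ) (g g0 e1 e2 : ℂ → ℂ) {S : Sp}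
    (hL : S b (some .L) = S b none) (hT : S b (some .T) = S b (some .S)) (w : ℂ) :
    XX c β x y g g0 (fun u => e1 u * S b none (w - u)) (fun u => e2 u * S b (some .S) (w - u)) =
    XS b (XX c β x y g g0 e1 e2) S (fun _ _ _ => 1) w 0 := by
  funext k z
  unfold XS
  rcases k with _ | (_ | _ | _)
  · simp only [XX]
    ring
  · simp only [XX, hL]
    ring
  · simp only [XX]
    ring
  · simp only [XX, hT]
    ring

end

/-! ## stage 2 for one class -/

section conv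

variable {m : ℕ} {D : RD m} (H : D.Ok)
  {lnX : ∀ p p' : ℕ, (Fin p → O3) → (Fin p' → O3) → Fin p → ℝ}
  {lnY : ∀ p p' : ℕ, (Fin p → O3) → (Fin p' → O3) → Fin p' → ℝ} (L : LnH lnX lnY)
  {w w' : ℂ} {s1 s2 t1 t2 : ℂ → ℂ}
include H L

/-- **Stage 2 for one class** -/
theorem stX (n n' : ℕ) (hX : SpecQ true ((n : ℝ) - n') s1 s2)
    (hY : SpecQ false ((n : ℝ) - n') t1 t2) {f k : ℂ → ℂ}
    (hf : ∀ u, f u = Gr0 D.hX D.x u * s1 u) (hk : ∀ v, k v = Gr0 D.hY D.y v * t1 v) :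
    Z3 (3 / 5 * l) (-(17 / 10) * l) n n' f k =
      ZobjQ (D.Xs s1 s2) (D.Ys t1 t2) (3 / 5 * l) n n' lnX lnY := by
  have ef : f = GX D.c D.β D.x D.y D.g (fun u => thE D.p D.p D.q D.q u * s1 u) := by
    funext u
    rw [hf, Gr0_hX]
    show RR D.c D.x D.y u * ph D.β D.x D.g u * thE D.p D.p D.q D.q u * s1 u = _
    unfold GX
    ring
  have ek : k = GX D.c' D.β D.y D.x D.g' (fun u => thE D.q D.q D.p D.p u * t1 u) := by
    funext u
    rw [hk, Gr0_hY]
    show RR D.c' D.y D.x u * ph D.β D.y D.g' u * thE D.q D.q D.p D.p u * t1 u = _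
    unfold GX
    ring
  have h1 : SpecQ true ((n : ℝ) - n') (fun u => thE D.p D.p D.q D.q u * s1 u)
      (fun w => thS D.p D.p D.q D.q w * s2 w) := by
    have := specQ_mul (thE_SpecQ true (o := D.p) (r' := D.q) H.hp H.hq) hX
    simpa using this
  have h2 : SpecQ false ((n : ℝ) - n') (fun u => thE D.q D.q D.p D.p u * t1 u)
      (fun w => thS D.q D.q D.p D.p w * t2 w) := by
    have := specQ_mul (thE_SpecQ false (o := D.q) (r' := D.p) H.hq H.hp) hY
    simpa using this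
  rw [ef, ek, neg_mul]
  exact stageX H.b0 H.b1 H.hx H.hy H.gg H.gg0 H.gg' H.gg0' n n' h1 h2 lnX lnY L.hX L.hY

/-- no captured quantum -/
theorem stX_WW (h : Pos w) (h' : Pos w') (n : ℕ) :
    Z3 (3 / 5 * l) (-(17 / 10) * l) n n (GXs D.hX D.x w w') (GYs D.hY D.y w w') =
      ZobjQ (D.Xs (fun u => Ck (w - u) * Dk (w' - u)) (fun u => CC (w - u) * DD (w' - u)))
        (D.Ys (fun v => Dk (w - v) * Ck (w' - v)) (fun v => DD (w - v) * CC (w' - v)))
        (3 / 5 * l) n n lnX lnY := by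
  refine stX H L n n ?_ ?_ (fun u => rfl) fun v => rfl
  · rw [sub_self]
    exact specX_WW h h'
  · rw [sub_self]
    exact specY_WW h h'

/-- a captured quantum of `Y` -/
theorem stX_P (h : w.re = -(11 / 4) * l) (h' : Pos w') (n : ℕ) :
    ZP (3 / 5 * l) (-(17 / 10) * l) D.x D.y D.hX D.hY n n w w' =
      if 1 ≤ n then
        ZobjQ (D.Xs (fun u => Ck (w - u) * Dk (w' - u) * qg (u - (w + 3 * l)))
          (fun u => CC (w - u) * DD (w' - u) * QQ (u - (w + 3 * l))))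
        (D.Ys (fun v => Ck (w' - v) * Ck (v - (w + 3 * l)))
          (fun v => CC (w' - v) * C2 (v - (w + 3 * l)))) (3 / 5 * l) n (n - 1) lnX lnY
      else 0 := by
  unfold ZP
  by_cases hn : 1 ≤ n
  · rw [if_pos hn, if_pos hn]
    have e : (n : ℝ) - ((n - 1 : ℕ) : ℝ) = 1 := by
      rw [Nat.cast_sub hn]
      push_cast
      ring
    refine stX H L n (n - 1) ?_ ?_ (fun u => ?_) fun v => ?_
    · rw [e]
      exact specX_P h h'
    · rw [e]
      exact specY_P h h'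
    · ring
    · ring
  · rw [if_neg hn, if_neg hn]

/-- a captured quantum of `X` -/
theorem stX_P' (h : Pos w) (h' : w'.re = -(11 / 4) * l) (n : ℕ) :
    ZP' (3 / 5 * l) (-(17 / 10) * l) D.x D.y D.hX D.hY n n w w' =
      if 1 ≤ n then
        ZobjQ (D.Xs (fun u => Ck (w - u) * Ck (u - (w' + 3 * l)))
            (fun u => CC (w - u) * C2 (u - (w' + 3 * l))))
        (D.Ys (fun v => Dk (w - v) * Ck (w' - v) * qg (v - (w' + 3 * l)))
          (fun v => DD (w - v) * CC (w' - v) * QQ (v - (w' + 3 * l)))) (3 / 5 * l) (n - 1) n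
          lnX lnY
      else 0 := by
  unfold ZP'
  by_cases hn : 1 ≤ n
  · rw [if_pos hn, if_pos hn]
    have e : ((n - 1 : ℕ) : ℝ) - (n : ℝ) = -1 := by
      rw [Nat.cast_sub hn]
      push_cast
      ring
    refine stX H L (n - 1) n ?_ ?_ (fun u => ?_) fun v => ?_
    · rw [e]
      exact specX_P' h h'
    · rw [e]
      exact specY_P' h h'
    · ring
    · ring
  · rw [if_neg hn, if_neg hn]

/-- both captured quanta -/
theorem stX_PP (h : w.re = -(11 / 4) * l) (h' : w'.re = -(11 / 4) * l) (n : ℕ) :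
    ZPP (3 / 5 * l) (-(17 / 10) * l) D.x D.y D.hX D.hY n n w w' =
      if 1 ≤ n then
        ZobjQ (D.Xs
          (fun u => Ck (w - u) * qg (u - (w + 3 * l)) * Ck (u - (w' + 3 * l)))
          (fun u => CC (w - u) * QQ (u - (w + 3 * l)) * C2 (u - (w' + 3 * l))))
        (D.Ys
          (fun v => Ck (w' - v) * Ck (v - (w + 3 * l)) * qg (v - (w' + 3 * l)))
          (fun v => CC (w' - v) * C2 (v - (w + 3 * l)) * QQ (v - (w' + 3 * l)))) (3 / 5 * l)
          (n - 1) (n - 1) lnX lnY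
      else 0 := by
  unfold ZPP
  by_cases hn : 1 ≤ n
  · rw [if_pos ⟨hn, hn⟩, if_pos hn]
    refine stX H L (n - 1) (n - 1) ?_ ?_ (fun u => ?_) fun v => ?_
    · rw [sub_self]
      exact specX_PP h h'
    · rw [sub_self]
      exact specY_PP h h'
    · ring
    · ring
  · rw [if_neg fun h => hn h.1, if_neg hn]

/-- captured pair seen by `Y` -/
theorem stX_D (h : w.re = -(11 / 4) * l) (n : ℕ) :
    Z3 (3 / 5 * l) (-(17 / 10) * l) n n (Gr0 D.hX D.x) (fun v => Gr0 D.hY D.y v * Tk (w - v)) =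
      ZobjQ (D.Xs (fun _ => 1) (fun _ => 1)) (D.Ys (fun v => Tk (w - v)) (fun v => TTk (w - v)))
        (3 / 5 * l) n n lnX lnY := by
  refine stX H L n n ?_ ?_ (fun u => (mul_one _).symm) fun v => rfl
  · rw [sub_self]
    exact spec_one true
  · rw [sub_self]
    exact spec_D false h

/-- captured pair seen by `X` -/
theorem stX_D' (h : w.re = -(11 / 4) * l) (n : ℕ) :
    Z3 (3 / 5 * l) (-(17 / 10) * l) n n (fun u => Gr0 D.hX D.x u * Tk (w - u)) (Gr0 D.hY D.y) =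
      ZobjQ (D.Xs (fun u => Tk (w - u)) (fun u => TTk (w - u))) (D.Ys (fun _ => 1) (fun _ => 1))
        (3 / 5 * l) n n lnX lnY := by
  refine stX H L n n ?_ ?_ (fun u => rfl) fun v => (mul_one _).symm
  · rw [sub_self]
    exact spec_D true h
  · rw [sub_self]
    exact spec_one false

end conv

/-! ## the spectators in the form of the classes -/

section specs

variable {m : ℕ} (D : RD m) (w w' : ℂ)

theorem rxWW : D.Xs (fun u => Ck (w - u) * Dk (w' - u)) (fun u => CC (w - u) * DD (w' - u)) =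
    XS true D.X SF (fl SF) w w' :=
  XX_XS true _ _ _ _ _ _ _ _ (S := SF) (S' := fl SF) rfl rfl rfl rfl w w'

theorem ryWW : D.Ys (fun u => Dk (w - u) * Ck (w' - u)) (fun u => DD (w - u) * CC (w' - u)) =
    XS false D.Y SF (fl SF) w w' :=
  XX_XS false _ _ _ _ _ _ _ _ (S := SF) (S' := fl SF) rfl rfl rfl rfl w w'

theorem rxP : D.Xs (fun u => Ck (w - u) * Dk (w' - u) * qg (u - (w + 3 * l)))
    (fun u => CC (w - u) * DD (w' - u) * QQ (u - (w + 3 * l))) =
    XS true D.X SP (fl SF) w w' := by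
  refine Eq.trans ?_ (XX_XS true _ _ _ _ _ _ _ _ (S := SP) (S' := fl SF) rfl rfl rfl rfl w w')
  unfold RD.Xs
  congr 1 <;> funext u
  · show _ = _ * (Ck (w - u) * qg (w - u + 3 * l) * Dk (w' - u))
    beta_reduce
    rw [qg_c]
    ring
  · show _ = _ * (CC (w - u) * QQ (-(w - u) - 3 * l) * DD (w' - u))
    beta_reduce
    rw [QQ_c]
    ring

theorem ryP : D.Ys (fun v => Ck (w' - v) * Ck (v - (w + 3 * l)))
    (fun v => CC (w' - v) * C2 (v - (w + 3 * l))) =
    XS false D.Y SP (fl SF) w w' := by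
  refine Eq.trans ?_ (XX_XS false _ _ _ _ _ _ _ _ (S := SP) (S' := fl SF) rfl rfl rfl rfl w w')
  unfold RD.Ys
  congr 1 <;> funext u
  · show _ = _ * (Ck (-(w - u) - 3 * l) * Ck (w' - u))
    beta_reduce
    rw [Ck_c]
    ring
  · show _ = _ * (C2 (-(w - u) - 3 * l) * CC (w' - u))
    beta_reduce
    rw [C2_c]
    ring

theorem rxP' : D.Xs (fun u => Ck (w - u) * Ck (u - (w' + 3 * l)))
    (fun u => CC (w - u) * C2 (u - (w' + 3 * l))) =
    XS true D.X SF (fl SP) w w' := by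
  refine Eq.trans ?_ (XX_XS true _ _ _ _ _ _ _ _ (S := SF) (S' := fl SP) rfl rfl rfl rfl w w')
  unfold RD.Xs
  congr 1 <;> funext u
  · show _ = _ * (Ck (w - u) * Ck (-(w' - u) - 3 * l))
    beta_reduce
    rw [Ck_c]
  · show _ = _ * (CC (w - u) * C2 (-(w' - u) - 3 * l))
    beta_reduce
    rw [C2_c]

theorem ryP' : D.Ys (fun v => Dk (w - v) * Ck (w' - v) * qg (v - (w' + 3 * l)))
    (fun v => DD (w - v) * CC (w' - v) * QQ (v - (w' + 3 * l))) =
    XS false D.Y SF (fl SP) w w' := by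
  refine Eq.trans ?_ (XX_XS false _ _ _ _ _ _ _ _ (S := SF) (S' := fl SP) rfl rfl rfl rfl w w')
  unfold RD.Ys
  congr 1 <;> funext u
  · show _ = _ * (Dk (w - u) * (Ck (w' - u) * qg (w' - u + 3 * l)))
    beta_reduce
    rw [qg_c]
    ring
  · show _ = _ * (DD (w - u) * (CC (w' - u) * QQ (-(w' - u) - 3 * l)))
    beta_reduce
    rw [QQ_c]
    ring

theorem rxPP : D.Xs
    (fun u => Ck (w - u) * qg (u - (w + 3 * l)) * Ck (u - (w' + 3 * l)))
    (fun u => CC (w - u) * QQ (u - (w + 3 * l)) * C2 (u - (w' + 3 * l))) =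
    XS true D.X SP (fl SP) w w' := by
  refine Eq.trans ?_ (XX_XS true _ _ _ _ _ _ _ _ (S := SP) (S' := fl SP) rfl rfl rfl rfl w w')
  unfold RD.Xs
  congr 1 <;> funext u
  · show _ = _ * (Ck (w - u) * qg (w - u + 3 * l) * Ck (-(w' - u) - 3 * l))
    beta_reduce
    rw [qg_c, Ck_c]
  · show _ = _ * (CC (w - u) * QQ (-(w - u) - 3 * l) * C2 (-(w' - u) - 3 * l))
    beta_reduce
    rw [QQ_c, C2_c]

theorem ryPP : D.Ys
    (fun v => Ck (w' - v) * Ck (v - (w + 3 * l)) * qg (v - (w' + 3 * l)))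
    (fun v => CC (w' - v) * C2 (v - (w + 3 * l)) * QQ (v - (w' + 3 * l))) =
    XS false D.Y SP (fl SP) w w' := by
  refine Eq.trans ?_ (XX_XS false _ _ _ _ _ _ _ _ (S := SP) (S' := fl SP) rfl rfl rfl rfl w w')
  unfold RD.Ys
  congr 1 <;> funext u
  · show _ = _ * (Ck (-(w - u) - 3 * l) * (Ck (w' - u) * qg (w' - u + 3 * l)))
    beta_reduce
    rw [qg_c, Ck_c]
    ring
  · show _ = _ * (C2 (-(w - u) - 3 * l) * (CC (w' - u) * QQ (-(w' - u) - 3 * l)))
    beta_reduce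
    rw [QQ_c, C2_c]
    ring

theorem rxD : D.Xs (fun _ => 1) (fun _ => 1) = XS true D.X SD (fun _ _ _ => 1) w 0 :=
  XX_XS1 true _ _ _ _ _ _ _ _ (S := SD) rfl rfl w

theorem ryD : D.Ys (fun v => Tk (w - v)) (fun v => TTk (w - v)) =
    XS false D.Y SD (fun _ _ _ => 1) w 0 :=
  XX_XS1 false _ _ _ _ _ _ _ _ (S := SD) rfl rfl w

theorem rxD' : D.Xs (fun v => Tk (w - v)) (fun v => TTk (w - v)) =
    XS true D.X (fl SD) (fun _ _ _ => 1) w 0 :=
  XX_XS1 true _ _ _ _ _ _ _ _ (S := fl SD) rfl rfl w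

theorem ryD' : D.Ys (fun _ => 1) (fun _ => 1) = XS false D.Y (fl SD) (fun _ _ _ => 1) w 0 :=
  XX_XS1 false _ _ _ _ _ _ _ _ (S := fl SD) rfl rfl w

end specs

end PBX

end
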