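import Pool.Agent.PB.OwnLe0
import Pool.Agent.PB.QCG
import Pool.Agent.PB.Reg0
import Pool.Agent.PB.Reg3

/-!
# The classes of the regular function at rows and ends `0` as data of `QC20`, own bounds

* `K0 m β ex ex0`, `kD0`: one body functions and kernels of `PBX.R0 m β ex ex0`;
* **`ownK0`**: `OwnLe`, `OwnFLe`, `OwnDLe` for `ex = ex0 = 0^j`, `k = m + 1`, one constant for every
  `ep` and `k`.
-/

set_option autoImplicit false
set_option linter.unusedSectionVars false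

noncomputable section

namespace PBQ

open NUGC NUO NUP1 NUCR NUP1S NURow NUP1.Leg NUP1.Bd
open PBX (RD R0)

/-- the classes of the regular function at rows `0`, ends `0` -/
def K0 (m : ℕ) (β : ℝ) (ex ex0 : List ℂ) : KD := PB0.KRD (R0 m β ex ex0)

/-- kernels of D1 (`true`), D1' -/
def kD0 (m : ℕ) (β : ℝ) (ex ex0 : List ℂ) (o : Bool) : ℂ → ℂ :=
  if o then (R0 m β ex ex0).XD else (R0 m β ex ex0).XD'

section
variable (m : ℕ) (β : ℝ) (ex ex0 : List ℂ)

theorem K0_cl (t t' : HT) : (K0 m β ex ex0).cl t t' = (R0 m β ex ex0).cF t t' := rfl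

theorem K0_Z (a : Bool) : (K0 m β ex ex0).Z a = (R0 m β ex ex0).X := by cases a <;> rfl

theorem kD0_eq (o : Bool) : kD0 m β ex ex0 o = PB0.XD0 m := by cases o <;> rfl

theorem isK_K0 : PB0.IsK (K0 m β ex ex0) m (Leg.cc m) (Leg.cc m) β (PBX.gP β ex) (PBX.gP β ex)
    (PBX.gP (4 / 3) ex0) (PBX.gP (4 / 3) ex0) := ⟨rfl, rfl, rfl, rfl, rfl, rfl⟩

end

theorem norm_cc_le (m : ℕ) : ‖Leg.cc m‖ ≤ 2 := by
  rw [PBX.norm_cc]
  linarith [Real.cos_le_one l]

/-- **the own bounds at rows and ends `0`** -/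
theorem ownK0 (j : ℕ) : ∃ C c : ℝ, 0 < C ∧ 0 < c ∧ ∀ ep : ℝ, 0 ≤ ep → ep < 1 → ∀ k : ℕ, 1 ≤ k →
    (K0 (k - 1) (beC ep) (List.replicate j 0) (List.replicate j 0)).OwnLe PB0.MF0 k ep C ∧
    (K0 (k - 1) (beC ep) (List.replicate j 0) (List.replicate j 0)).OwnFLe PB0.MF0 k C
      (fun τ => Real.exp (-(c * (k * Real.exp (-(8 / 3) * |τ|))))) ∧
    OwnDLe (kD0 (k - 1) (beC ep) (List.replicate j 0) (List.replicate j 0)) PB0.MF0 k C := by
  obtain ⟨C1, h1, H1⟩ := PB0.ownG0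
  obtain ⟨C2, h2, H2⟩ := PB0.ownDLe0
  obtain ⟨c, hc, H3⟩ := PB0.gain_F
  have hj : (0 : ℝ) ≤ j := Nat.cast_nonneg j
  have hA : (1 : ℝ) ≤ 8 * (j + 1) := by linarith
  set A : ℝ := 8 * (j + 1) with hAd
  have hAA : 0 < A * A := by nlinarith
  refine ⟨C1 * (A * A) + C2, c, by positivity, hc, fun ep he he' k hk => ?_⟩
  obtain ⟨m, rfl⟩ : ∃ m, k = m + 1 := ⟨k - 1, by omega⟩
  rw [Nat.add_sub_cancel]
  have cb := PB0.cutB0 he he' m j
  have key := H1 (K0 m (beC ep) (List.replicate j 0) (List.replicate j 0)) m _ _ _ _ _ _ _ ep A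
    (isK_K0 m (beC ep) (List.replicate j 0) (List.replicate j 0)) (norm_cc_le m) (norm_cc_le m)
    hA cb cb
  have mono : ∀ {x y : ℝ}, 0 ≤ y → x ≤ C1 * (A * A) * y → x ≤ (C1 * (A * A) + C2) * y := by
    intro x y hy h
    nlinarith [mul_nonneg h2.le hy]
  refine ⟨fun a t i hi τ => ?_, fun a i hi τ => ?_, fun o τ => ?_⟩
  · have h := key a t i hi τ
    have h0 := cut_nonneg (Real.log (m + 1 : ℕ)) ep (qh t i) τ
    have h3 : 0 ≤ Real.exp (-|τ|) * cut (Real.log (m + 1 : ℕ)) ep (qh t i) τ :=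
      mul_nonneg (Real.exp_pos _).le h0
    have h4 := PB0.gT_le_one (m + 1) t i τ
    rw [mul_assoc]
    refine mono h3 (h.trans ?_)
    calc C1 * (A * A) * Real.exp (-|τ|) * cut (Real.log (m + 1 : ℕ)) ep (qh t i) τ *
          PB0.gT (m + 1) t i τ ≤
        C1 * (A * A) * Real.exp (-|τ|) * cut (Real.log (m + 1 : ℕ)) ep (qh t i) τ * 1 :=
          mul_le_mul_of_nonneg_left h4 (by positivity)
      _ = _ := by ring
  · have h := key a .F i hi τ
    have hcut : cut (Real.log (m + 1 : ℕ)) ep (qh .F i) τ = 1 := by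
      unfold NUGC.cut qh
      rw [if_pos]
      cases i <;> simp [clh, NUSp.qc]
    have hg : PB0.gT (m + 1) .F i τ ≤
        Real.exp (-(c * ((m + 1 : ℕ) * Real.exp (-(8 / 3) * |τ|)))) := by
      refine (H3 (m + 1) τ).trans (le_of_eq ?_)
      congr 2
      ring
    rw [hcut, mul_one] at h
    have h3 : 0 ≤ Real.exp (-|τ|) *
        Real.exp (-(c * ((m + 1 : ℕ) * Real.exp (-(8 / 3) * |τ|)))) := by positivity
    show _ ≤ (C1 * (A * A) + C2) * Real.exp (-|τ|) *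
      Real.exp (-(c * ((m + 1 : ℕ) * Real.exp (-(8 / 3) * |τ|))))
    rw [mul_assoc (C1 * (A * A) + C2)]
    refine mono h3 (h.trans ?_)
    rw [← mul_assoc (C1 * (A * A))]
    exact mul_le_mul_of_nonneg_left hg (by positivity)
  · rw [kD0_eq]
    refine (H2 m o τ).trans ?_
    exact mul_le_mul_of_nonneg_right (by nlinarith) (Real.exp_pos _).le

end PBQ

end
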