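import Pool.Agent.PB.WaveR
import Pool.Agent.PB.MFh

/-!
# Plan B: the kernel of a small field, local part and plateau part

Fields `X : Bool → ℂ → ℂ` (one per species), analytic for `|Im z| ≤ b`, `|X s z|, |X s' z| ≤
K e^{-κ |Re z|}` with a small rate `κ` (`XiA (X s) b K κ 0 0`).

* `Eq X b c z w`: local part of `aC X b c z w`; **`aC_eq`**:
  `aC X b c z w = Eq X b c z w - 2 (±1) (X b z tgh w + X c w tgh z)`;
* **`Eq_bound`**: `|Eq X b c z w| ≤ C K e^{-(κ/2)(|Re z| + |Re w|)}`;
* `Eq_symm`, `Eq_diff`, `Eq_diff'`, `Eq_measurable`;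
* `Eq_decomp`: the product form over two Cauchy lines.
-/

set_option autoImplicit false
set_option linter.unusedSectionVars false

noncomputable section

open MeasureTheory Set Filter Topology

namespace PBQM

open PBV PB PBK NUMF

/-- the sign of a pair -/
def sgn (b c : Bool) : ℂ := if b = c then 1 else -1

/-- local remainder of the plateau part -/
def tz (X : Bool → ℂ → ℂ) (b c : Bool) (z w : ℂ) : ℂ :=
  X b z * (tgh (z - w) + tgh w) + X c w * (tgh z - tgh (z - w))

/-- local part of the forces -/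
def Hk (X : Bool → ℂ → ℂ) (b c : Bool) (z w : ℂ) : ℂ :=
  if b = c then Ek (X b) hX z w else (X b z - X c w) * (Kgc (z - w) + 2 * tgh (z - w))

/-- **the local part of the kernel of a field** -/
def Eq (X : Bool → ℂ → ℂ) (b c : Bool) (z w : ℂ) : ℂ := Hk X b c z w + 2 * sgn b c * tz X b c z w

/-- the plateau part -/
def Rq (X : Bool → ℂ → ℂ) (b c : Bool) (z w : ℂ) : ℂ :=
  -2 * sgn b c * (X b z * tgh w + X c w * tgh z)

theorem norm_sgn (b c : Bool) : ‖sgn b c‖ = 1 := by
  unfold sgn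
  split_ifs <;> simp

theorem sgn_symm (b c : Bool) : sgn b c = sgn c b := by
  unfold sgn
  by_cases h : b = c
  · rw [if_pos h, if_pos h.symm]
  · rw [if_neg h, if_neg (Ne.symm h)]

theorem psw_hX {u : ℂ} (hu : |u.im| < l) : psw u = hX u + 2 * u * tgh u := by
  by_cases h0 : u = 0
  · rw [h0, psw_zero, hX_zero]
    simp
  · have hs := sinh_ne hu h0
    have hc2 : Complex.cosh (2 * u) ≠ 0 := cosh2_ne hu.le
    have hr2 : Complex.cosh (2 * u) - r ≠ 0 := cosh_sub_r_ne hu
    have h1 := coth_two u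
    rw [psw_eq hu h0]
    unfold Kwc hX tgh
    rw [shc_ne h0]
    have e1 : 2 * Complex.sinh (2 * u) / (Complex.cosh (2 * u) - 1) =
        2 * (Complex.cosh u / Complex.sinh u) := by
      rw [h1]; ring
    rw [e1]
    have e3 : Complex.cosh (2 * u) * Complex.cosh u - Complex.sinh (2 * u) * Complex.sinh u =
        Complex.cosh u := by
      rw [← Complex.cosh_sub]
      congr 1
      ring
    have hr3 : Complex.cosh (2 * u) - (NUMF.r : ℝ) ≠ 0 := hr2
    have e4 : 2 * (Complex.cosh u / Complex.sinh u) - 2 * Complex.sinh (2 * u) /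
        (Complex.cosh (2 * u) - (NUMF.r : ℝ)) = 2 * (1 - r) * Complex.cosh u /
          (Complex.sinh u * (Complex.cosh (2 * u) - r)) := by
      rw [mul_div_assoc', div_sub_div _ _ hs hr3]
      congr 1
      linear_combination 2 * e3
    have e5 : u * (2 * (1 - r) * Complex.cosh u / (Complex.sinh u * (Complex.cosh (2 * u) - r))) =
        2 * (1 - r) * Complex.cosh u / (Complex.sinh u / u * (Complex.cosh (2 * u) - r)) := by
      field_simp
    linear_combination u * e4 + e5

theorem aC_eq (X : Bool → ℂ → ℂ) (b c : Bool) {z w : ℂ} (hzw : |(z - w).im| < l) :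
    aC X b c z w = Eq X b c z w + Rq X b c z w := by
  unfold aC Eq Rq Hk tz sgn
  by_cases h : b = c
  · subst h
    simp only [if_true]
    rw [psw_hX hzw]
    have e1 : dslope (X b) z w * (z - w) = X b z - X b w := by
      by_cases h0 : w = z
      · rw [h0]; ring
      · rw [dslope_of_ne _ h0, slope_def_field]
        have h1 : w - z ≠ 0 := sub_ne_zero.2 h0
        field_simp
        ring
    unfold Ek
    linear_combination (2 * tgh (z - w)) * e1
  · rw [if_neg h, if_neg h, if_neg h]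
    ring

theorem tgh_neg' (z : ℂ) : tgh (-z) = -tgh z := tgh_neg z

theorem tz_symm (X : Bool → ℂ → ℂ) (b c : Bool) (z w : ℂ) : tz X b c z w = tz X c b w z := by
  unfold tz
  have e : tgh (w - z) = -tgh (z - w) := by
    rw [← tgh_neg]
    congr 1
    ring
  rw [e]
  ring

theorem Hk_symm (X : Bool → ℂ → ℂ) (b c : Bool) (z w : ℂ) : Hk X b c z w = Hk X c b w z := by
  unfold Hk
  by_cases h : b = c
  · subst h
    simp only [if_true]
    exact Ek_symm (fun u => hX_neg u) z w
  · rw [if_neg h, if_neg (Ne.symm h)]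
    have e : tgh (w - z) = -tgh (z - w) := by
      rw [← tgh_neg]
      congr 1
      ring
    have e2 : Kgc (w - z) = -Kgc (z - w) := by
      rw [← Kgc_neg']
      congr 1
      ring
    rw [e, e2]
    ring

theorem Eq_symm (X : Bool → ℂ → ℂ) (b c : Bool) (z w : ℂ) : Eq X b c z w = Eq X c b w z := by
  unfold Eq
  rw [Hk_symm, tz_symm, sgn_symm]

theorem Rq_symm (X : Bool → ℂ → ℂ) (b c : Bool) (z w : ℂ) : Rq X b c z w = Rq X c b w z := by
  unfold Rq
  rw [sgn_symm]
  ring

/-! ### bounds -/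

/-- elementary: rates -/
theorem exp_half {κ x y : ℝ} (hκ0 : 0 ≤ κ) (hκ : κ ≤ 4) :
    Real.exp (-(κ * |x|)) * min 1 (Real.exp (4 * |x| - 4 * |y|)) ≤
      Real.exp (-(κ / 2 * (|x| + |y|))) := by
  rcases le_total |y| |x| with h | h
  · calc Real.exp (-(κ * |x|)) * min 1 (Real.exp (4 * |x| - 4 * |y|)) ≤
        Real.exp (-(κ * |x|)) * 1 := by gcongr; exact min_le_left _ _
      _ ≤ _ := by
        rw [mul_one]
        refine Real.exp_le_exp.2 ?_
        nlinarith
  · calc Real.exp (-(κ * |x|)) * min 1 (Real.exp (4 * |x| - 4 * |y|)) ≤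
        Real.exp (-(κ * |x|)) * Real.exp (4 * |x| - 4 * |y|) := by gcongr; exact min_le_right _ _
      _ ≤ _ := by
        rw [← Real.exp_add]
        refine Real.exp_le_exp.2 ?_
        nlinarith

/-- `sinh 2z / (cosh 2(z-w) cosh 2w)` -/
theorem norm_quot_le {z w : ℂ} (hw : |w.im| ≤ l) (hzw : |(z - w).im| ≤ l) :
    ‖tgh (z - w) + tgh w‖ ≤ 4 / r ^ 2 * min 1 (Real.exp (4 * |z.re| - 4 * |w.re|)) := by
  have hr := r_pos
  rw [tgh_add hw hzw, norm_div, norm_mul]
  have i1 := norm_cosh_2u hw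
  have i2 := norm_cosh_2u hzw
  have s1 := sinh2_le z
  have hA : 0 < r / 2 * Real.exp (2 * |(z - w).re|) := by positivity
  have hB : 0 < r / 2 * Real.exp (2 * |w.re|) := by positivity
  have h1 : ‖Complex.sinh (2 * z)‖ / (‖Complex.cosh (2 * (z - w))‖ * ‖Complex.cosh (2 * w)‖) ≤
      Real.exp (2 * |z.re|) / ((r / 2 * Real.exp (2 * |(z - w).re|)) *
        (r / 2 * Real.exp (2 * |w.re|))) := by gcongr
  refine h1.trans ?_
  have e : Real.exp (2 * |z.re|) / ((r / 2 * Real.exp (2 * |(z - w).re|)) *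
      (r / 2 * Real.exp (2 * |w.re|))) = 4 / r ^ 2 *
        Real.exp (2 * |z.re| - 2 * |(z - w).re| - 2 * |w.re|) := by
    rw [Real.exp_sub, Real.exp_sub]
    field_simp
    ring
  rw [e]
  refine mul_le_mul_of_nonneg_left ?_ (by positivity)
  have h2 : |w.re| ≤ |z.re| + |(z - w).re| := by
    rw [Complex.sub_re]
    have := abs_sub_abs_le_abs_sub w.re z.re
    rw [abs_sub_comm] at this
    linarith
  have h3 : |z.re| ≤ |w.re| + |(z - w).re| := by
    rw [Complex.sub_re]
    have := abs_sub_abs_le_abs_sub z.re w.re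
    linarith
  refine le_min (Real.exp_le_one_iff.2 ?_) (Real.exp_le_exp.2 ?_) <;> linarith

variable {X : Bool → ℂ → ℂ} {b K κ : ℝ}

theorem XiA.bd {ξ : ℂ → ℂ} (H : XiA ξ b K κ 0 0) {z : ℂ} (hz : |z.im| ≤ b) :
    ‖ξ z‖ ≤ K * Real.exp (-(κ * |z.re|)) := by
  rcases le_total 0 z.re with h | h
  · simpa using H.pp z hz h
  · simpa using H.pm z hz h

theorem tz_bound (H : ∀ s, XiA (X s) b K κ 0 0) (hκ : κ ≤ 4) (hbl : b ≤ l) (s c : Bool) {z w : ℂ}
    (hz : |z.im| ≤ b) (hw : |w.im| ≤ b) (hzw : |(z - w).im| ≤ l) :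
    ‖tz X s c z w‖ ≤ 8 / r ^ 2 * K * Real.exp (-(κ / 2 * (|z.re| + |w.re|))) := by
  have hr := r_pos
  have hK := (H true).K0
  have hκ0 := (H true).c0
  have hwz : |(w - z).im| ≤ l := by
    rw [Complex.sub_im, abs_sub_comm, ← Complex.sub_im]
    exact hzw
  have a1 := norm_quot_le (hw.trans hbl) hzw
  have a2 := norm_quot_le (hz.trans hbl) hwz
  have e2 : tgh (w - z) + tgh z = tgh z - tgh (z - w) := by
    have e : tgh (w - z) = -tgh (z - w) := by
      rw [← tgh_neg]
      congr 1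
      ring
    rw [e]
    ring
  rw [e2] at a2
  have b1 := XiA.bd (H s) hz
  have b2 := XiA.bd (H c) hw
  have c1 := exp_half (κ := κ) (x := z.re) (y := w.re) hκ0 hκ
  have c2 := exp_half (κ := κ) (x := w.re) (y := z.re) hκ0 hκ
  rw [add_comm |w.re|] at c2
  unfold tz
  refine (norm_add_le _ _).trans ?_
  rw [norm_mul, norm_mul]
  calc ‖X s z‖ * ‖tgh (z - w) + tgh w‖ + ‖X c w‖ * ‖tgh z - tgh (z - w)‖ ≤
      (K * Real.exp (-(κ * |z.re|))) * (4 / r ^ 2 * min 1 (Real.exp (4 * |z.re| - 4 * |w.re|))) +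
      (K * Real.exp (-(κ * |w.re|))) * (4 / r ^ 2 * min 1 (Real.exp (4 * |w.re| - 4 * |z.re|))) := by
        gcongr
    _ = 4 / r ^ 2 * K * (Real.exp (-(κ * |z.re|)) * min 1 (Real.exp (4 * |z.re| - 4 * |w.re|))) +
      4 / r ^ 2 * K * (Real.exp (-(κ * |w.re|)) * min 1 (Real.exp (4 * |w.re| - 4 * |z.re|))) := by
        ring
    _ ≤ 4 / r ^ 2 * K * Real.exp (-(κ / 2 * (|z.re| + |w.re|))) +
      4 / r ^ 2 * K * Real.exp (-(κ / 2 * (|z.re| + |w.re|))) := by gcongr
    _ = _ := by ring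

/-- the force of different species, without plateau -/
theorem exists_Kg : ∃ C : ℝ, 0 ≤ C ∧ ∀ u : ℂ, |u.im| < l →
    ‖Kgc u + 2 * tgh u‖ ≤ C * Real.exp (-(1 * |u.re|)) := by
  obtain ⟨C, hC, h⟩ := hY_bound (a := 1) (by norm_num)
  have hr := r_pos
  refine ⟨C + (9 + 4 / r) * Real.exp 1, by positivity, fun u hu => ?_⟩
  rcases le_total 1 |u.re| with h1 | h1
  · have h0 : u ≠ 0 := by
      intro h0
      rw [h0] at h1
      simp at h1
      linarith
    have hn : 1 ≤ ‖u‖ := h1.trans (Complex.abs_re_le_norm u)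
    have hc1 := cosh_ne hu
    have hc2 : Complex.cosh (2 * u) ≠ 0 := cosh2_ne hu.le
    have hc3 : Complex.cosh (2 * u) + r ≠ 0 := cosh_add_r_ne hu
    have hc4 := cosh_add_one_ne hu
    have e : hY u = u * (Kgc u + 2 * tgh u) := by
      unfold hY Kgc tgh
      have h3 : Complex.sinh (3 * u) = Complex.sinh u * Complex.cosh (2 * u) +
          Complex.cosh u * Complex.sinh (2 * u) := by
        rw [← Complex.sinh_add]
        congr 1
        ring
      have h4 : Complex.sinh (2 * u) = 2 * Complex.sinh u * Complex.cosh u :=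
        Complex.sinh_two_mul u
      have h5 : Complex.cosh (2 * u) = 2 * Complex.cosh u ^ 2 - 1 := by
        have h6 := Complex.cosh_sq u
        rw [Complex.cosh_two_mul]
        linear_combination -h6
      have h6 : Complex.cosh (2 * u) + 1 = 2 * Complex.cosh u ^ 2 := by rw [h5]; ring
      have hc3' : Complex.cosh (2 * u) + (NUMF.r : ℝ) ≠ 0 := hc3
      rw [h6, h3, h4]
      generalize Complex.sinh u = S at *
      generalize hcc : Complex.cosh (2 * u) = c at *
      generalize hCC : Complex.cosh u = D at *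
      have hr' : ((NUMF.r : ℝ) : ℂ) = (r : ℂ) := rfl
      field_simp
      linear_combination (-(S * (2 * c - 1))) * h5
    have h2 := h u hu.le
    rw [e, norm_mul] at h2
    have h3 : ‖Kgc u + 2 * tgh u‖ ≤ ‖u‖ * ‖Kgc u + 2 * tgh u‖ := by
      have := norm_nonneg (Kgc u + 2 * tgh u)
      nlinarith
    refine (h3.trans h2).trans (mul_le_mul_of_nonneg_right ?_ (Real.exp_pos _).le)
    have : 0 ≤ (9 + 4 / r) * Real.exp 1 := by positivity
    linarith
  · have h2 : ‖Kgc u‖ ≤ 9 := norm_Kgc_le hu.le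
    have h3 : ‖tgh u‖ ≤ 2 / r := by
      unfold tgh
      rw [norm_div]
      have i1 := norm_cosh_2u hu.le
      have s1 := sinh2_le u
      have hA : 0 < r / 2 * Real.exp (2 * |u.re|) := by positivity
      calc ‖Complex.sinh (2 * u)‖ / ‖Complex.cosh (2 * u)‖ ≤
          Real.exp (2 * |u.re|) / (r / 2 * Real.exp (2 * |u.re|)) := by gcongr
        _ = 2 / r := by field_simp
    have h4 : ‖Kgc u + 2 * tgh u‖ ≤ 9 + 4 / r := by
      refine (norm_add_le _ _).trans ?_
      rw [norm_mul]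
      have n2 : ‖(2 : ℂ)‖ = 2 := by simp
      rw [n2]
      have e : 4 / r = 2 * (2 / r) := by ring
      rw [e]
      gcongr
    have h5 : 1 ≤ Real.exp 1 * Real.exp (-(1 * |u.re|)) := by
      rw [← Real.exp_add]
      exact Real.one_le_exp (by linarith)
    calc ‖Kgc u + 2 * tgh u‖ ≤ (9 + 4 / r) * 1 := by linarith
      _ ≤ (9 + 4 / r) * (Real.exp 1 * Real.exp (-(1 * |u.re|))) := by gcongr
      _ ≤ _ := by
        rw [← mul_assoc]
        refine mul_le_mul_of_nonneg_right ?_ (Real.exp_pos _).le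
        linarith

theorem Hk_bound {Y : ℝ} (hY : Y < l) : ∃ C : ℝ, 0 ≤ C ∧ ∀ {X : Bool → ℂ → ℂ} {b K κ : ℝ},
    (∀ s, XiA (X s) b K κ 0 0) → κ ≤ 1 → b ≤ l → ∀ (s c : Bool) (z w : ℂ), |z.im| ≤ b →
      |w.im| ≤ b → |(z - w).im| ≤ Y →
      ‖Hk X s c z w‖ ≤ C * K * Real.exp (-(κ / 2 * (|z.re| + |w.re|))) := by
  obtain ⟨C1, hC1, h1⟩ := hX_bound (a := 1) (by norm_num) hY
  obtain ⟨C2, hC2, h2⟩ := exists_Kg
  refine ⟨C1 + 2 * C2, by positivity, fun {X b K κ} H hκ hbl s c z w hz hw hzw => ?_⟩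
  have hK := (H true).K0
  have hκ0 := (H true).c0
  have hE := Real.exp_pos (-(κ / 2 * (|z.re| + |w.re|)))
  have hd1 : |z.re| ≤ |w.re| + |(z - w).re| := by
    rw [Complex.sub_re]
    have := abs_sub_abs_le_abs_sub z.re w.re
    linarith
  have hd2 : |w.re| ≤ |z.re| + |(z - w).re| := by
    rw [Complex.sub_re]
    have := abs_sub_abs_le_abs_sub w.re z.re
    rw [abs_sub_comm] at this
    linarith
  have hn := abs_nonneg (z - w).re
  unfold Hk
  split_ifs with h
  · have h3 : ‖hX (z - w)‖ ≤ C1 * Real.exp (-(κ / 2 * |(z - w).re|)) := by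
      refine (h1 _ hzw).trans ?_
      gcongr
      linarith
    have h4 := (H s).Ek_le2 (a := κ / 2) (by linarith) (by linarith) hC1 hz hw h3
    refine h4.trans (mul_le_mul_of_nonneg_right ?_ hE.le)
    nlinarith
  · rw [norm_mul]
    have b1 := XiA.bd (H s) hz
    have b2 := XiA.bd (H c) hw
    have b3 := h2 (z - w) (lt_of_le_of_lt hzw hY)
    have e1 : Real.exp (-(κ * |z.re|)) * Real.exp (-(1 * |(z - w).re|)) ≤
        Real.exp (-(κ / 2 * (|z.re| + |w.re|))) := by
      rw [← Real.exp_add]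
      refine Real.exp_le_exp.2 ?_
      nlinarith
    have e2 : Real.exp (-(κ * |w.re|)) * Real.exp (-(1 * |(z - w).re|)) ≤
        Real.exp (-(κ / 2 * (|z.re| + |w.re|))) := by
      rw [← Real.exp_add]
      refine Real.exp_le_exp.2 ?_
      nlinarith
    calc ‖X s z - X c w‖ * ‖Kgc (z - w) + 2 * tgh (z - w)‖ ≤
        (K * Real.exp (-(κ * |z.re|)) + K * Real.exp (-(κ * |w.re|))) *
          (C2 * Real.exp (-(1 * |(z - w).re|))) := by
          gcongr
          exact (norm_sub_le _ _).trans (add_le_add b1 b2)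
      _ = C2 * K * (Real.exp (-(κ * |z.re|)) * Real.exp (-(1 * |(z - w).re|))) +
          C2 * K * (Real.exp (-(κ * |w.re|)) * Real.exp (-(1 * |(z - w).re|))) := by ring
      _ ≤ C2 * K * Real.exp (-(κ / 2 * (|z.re| + |w.re|))) +
          C2 * K * Real.exp (-(κ / 2 * (|z.re| + |w.re|))) := by gcongr
      _ = 2 * C2 * K * Real.exp (-(κ / 2 * (|z.re| + |w.re|))) := by ring
      _ ≤ _ := by
        refine mul_le_mul_of_nonneg_right ?_ hE.le
        nlinarith

/-- **bound of the local part**, constant independent of the field and of the rate -/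
theorem Eq_bound {Y : ℝ} (hY : Y < l) : ∃ C : ℝ, 0 ≤ C ∧ ∀ {X : Bool → ℂ → ℂ} {b K κ : ℝ},
    (∀ s, XiA (X s) b K κ 0 0) → κ ≤ 1 → b ≤ l → ∀ (s c : Bool) (z w : ℂ), |z.im| ≤ b →
      |w.im| ≤ b → |(z - w).im| ≤ Y →
      ‖Eq X s c z w‖ ≤ C * K * Real.exp (-(κ / 2 * (|z.re| + |w.re|))) := by
  obtain ⟨C1, hC1, h1⟩ := Hk_bound hY
  have hr := r_pos
  refine ⟨C1 + 16 / r ^ 2, by positivity, fun {X b K κ} H hκ hbl s c z w hz hw hzw => ?_⟩
  have h2 := tz_bound H (by linarith) hbl s c hz hw (hzw.trans hY.le)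
  have h3 := h1 H hκ hbl s c z w hz hw hzw
  unfold Eq
  refine (norm_add_le _ _).trans ?_
  have n2 : ‖2 * sgn s c‖ = 2 := by rw [norm_mul, norm_sgn]; simp
  rw [norm_mul, n2]
  calc ‖Hk X s c z w‖ + 2 * ‖tz X s c z w‖ ≤
      C1 * K * Real.exp (-(κ / 2 * (|z.re| + |w.re|))) +
      2 * (8 / r ^ 2 * K * Real.exp (-(κ / 2 * (|z.re| + |w.re|)))) := by gcongr
    _ = _ := by ring

/-! ### analyticity and measurability -/

theorem Eq_diff (H : ∀ s, XiA (X s) b K κ 0 0) (hbl : b ≤ l) (s c : Bool) {z w : ℂ}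
    (hz : |z.im| < b) (hw : |w.im| < b) (hzw : |(z - w).im| < l) :
    DifferentiableAt ℂ (Eq X s c z) w := by
  have t1 : DifferentiableAt ℂ (fun w => tgh (z - w)) w :=
    DifferentiableAt.comp w (tgh_diff hzw.le) (by fun_prop)
  have t2 : DifferentiableAt ℂ tgh w := tgh_diff (hw.le.trans hbl)
  have t3 : DifferentiableAt ℂ (X c) w := (H c).an w hw.le
  have hh : DifferentiableAt ℂ (Hk X s c z) w := by
    unfold Hk
    by_cases h : s = c
    · simp only [h, if_true]
      exact (H c).Ek_diff hz hw (hX_diff hzw)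
    · simp only [h, if_false]
      have t4 : DifferentiableAt ℂ (fun w => Kgc (z - w)) w :=
        DifferentiableAt.comp w (diff_Kgc hzw) (by fun_prop)
      exact ((differentiableAt_const _).sub t3).mul (t4.add (t1.const_mul 2))
  unfold Eq tz
  exact hh.add ((((t1.add t2).const_mul _).add (t3.mul ((differentiableAt_const _).sub t1))).const_mul _)

theorem Eq_diff' (H : ∀ s, XiA (X s) b K κ 0 0) (hbl : b ≤ l) (s c : Bool) {z w : ℂ}
    (hz : |z.im| < b) (hw : |w.im| < b) (hzw : |(z - w).im| < l) :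
    DifferentiableAt ℂ (fun z => Eq X s c z w) z := by
  have e : (fun z => Eq X s c z w) = Eq X c s w := by
    funext z; exact Eq_symm _ _ _ _ _
  rw [e]
  refine Eq_diff H hbl c s hw hz ?_
  rw [Complex.sub_im, abs_sub_comm, ← Complex.sub_im]
  exact hzw

lemma Kgc_measurable : Measurable Kgc := by
  unfold Kgc
  have h1 : Measurable fun z : ℂ => Complex.sinh (2 * z) := (by fun_prop : Continuous _).measurable
  have h2 : Measurable fun z : ℂ => Complex.cosh (2 * z) := (by fun_prop : Continuous _).measurable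
  exact ((h1.const_mul 2).div (h2.add_const _)).sub ((h1.const_mul 4).div (h2.add_const _))

lemma Eq_measurable (hX : ∀ s, Measurable (X s)) (s c : Bool) :
    Measurable fun p : ℂ × ℂ => Eq X s c p.1 p.2 := by
  have hd : Measurable fun p : ℂ × ℂ => p.1 - p.2 := measurable_fst.sub measurable_snd
  have hk : Measurable fun p : ℂ × ℂ => Hk X s c p.1 p.2 := by
    unfold Hk
    by_cases h : s = c
    · simp only [h, if_true]
      exact Ek_measurable (hX c) hX_measurable
    · simp only [h, if_false]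
      exact (((hX s).comp measurable_fst).sub ((hX c).comp measurable_snd)).mul
        ((Kgc_measurable.comp hd).add ((tgh_measurable.comp hd).const_mul 2))
  unfold Eq tz
  exact hk.add (((((hX s).comp measurable_fst).mul ((tgh_measurable.comp hd).add
    (tgh_measurable.comp measurable_snd))).add (((hX c).comp measurable_snd).mul
    ((tgh_measurable.comp measurable_fst).sub (tgh_measurable.comp hd)))).const_mul _)

/-- **product form of the local part** over the Cauchy lines -/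
theorem Eq_decomp {α y₁ y₂ Y : ℝ} (hY : Y < l) (hα : 0 < α)
    (hαy : α * (y₂ - y₁) < Real.pi) (H : ∀ s, XiA (X s) b K κ 0 0) (hκ : κ ≤ 1) (hbl : b ≤ l)
    (hy1 : |y₁| < b) (hy2 : |y₂| < b) (s c : Bool) {z : ℂ} (hz : |z.im| < b)
    (hz1 : |z.im - y₁| ≤ Y) (hz2 : |z.im - y₂| ≤ Y) {w : ℂ} (hw : w ∈ So y₁ y₂) :
    Integrable (fun q => AE (Eq X s c) y₁ y₂ q z * BE α y₁ y₂ q w) wm ∧
      Eq X s c z w = ∫ q, AE (Eq X s c) y₁ y₂ q z * BE α y₁ y₂ q w ∂wm := by
  obtain ⟨C, hC, hbd⟩ := Eq_bound hY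
  have hK := (H true).K0
  have hκ0 := (H true).c0
  have hst : ∀ x ∈ St y₁ y₂, |x.im| < b ∧ |(z - x).im| ≤ Y := by
    intro x hx
    have h1 := abs_lt.1 hy1
    have h2 := abs_lt.1 hy2
    have h3 := abs_le.1 hz1
    have h4 := abs_le.1 hz2
    refine ⟨?_, ?_⟩
    · rw [abs_lt]; constructor <;> linarith [hx.1, hx.2]
    · rw [Complex.sub_im, abs_le]; constructor <;> linarith [hx.1, hx.2]
  have hd : ∀ x ∈ St y₁ y₂, DifferentiableAt ℂ (Eq X s c z) x := fun x hx =>
    Eq_diff H hbl s c hz (hst x hx).1 (lt_of_le_of_lt (hst x hx).2 hY)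
  refine decomp_idx (β := 0) (M := C * K) hα hαy hα
    (fun x hx => (hd x hx).continuousAt.continuousWithinAt)
    (fun x hx => (hd x (So_sub_St _ _ hx)).differentiableWithinAt) (fun x hx => ?_) hw
  refine (hbd H hκ hbl s c z x hz.le (hst x hx).1.le (hst x hx).2).trans ?_
  rw [zero_mul, Real.exp_zero]
  refine mul_le_mul_of_nonneg_left (Real.exp_le_one_iff.2 ?_) (by positivity)
  have : 0 ≤ κ / 2 * (|z.re| + |x.re|) := by positivity
  linarith

end PBQM
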