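import Pool.Agent.PB.QMomA
import Pool.Agent.PB.NormY

/-!
# Plan B: the quadratic statistic of a small field as an integral of products of linear statistics

For a field `X` (`XiA (X s) b K κ 0 0`, small rate `κ`), positions in the strip `Sp y₁ y₂`, Cauchy lines
`Y₁ < Y₂` (`PBV.Geo`), index space `Bool × (Bool × ℝ)` with the measure `qm`:

* `AQ`, `BQ`: the two families; sizes `C K e^{-(κ/2)|q.2.2|}`, `cE α θ`; analytic, measurable;
* `prep_Eq`: 5's `PRep` of the local part;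
* **`nuQ_aC`**: `nuQ (aC X) = - 2 L(s X) L(s tgh) + (1/2) ∫ L(AQ q) L(BQ q)`.
-/

set_option autoImplicit false
set_option linter.unusedSectionVars false

noncomputable section

open MeasureTheory Set Filter Topology

namespace PBQM

open PBV PB PBK NUMF

/-- the index space -/
abbrev QIx : Type := Bool × (Bool × ℝ)

/-- the index measure -/
def qm : Measure QIx := (Measure.count : Measure Bool).prod wm

instance : SFinite qm := by unfold qm; infer_instance

/-- first family -/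
def AQ (X : Bool → ℂ → ℂ) (Y₁ Y₂ : ℝ) (q : QIx) (s : Bool) (z : ℂ) : ℂ :=
  AE (Eq X s q.1) Y₁ Y₂ q.2 z

/-- second family -/
def BQ (α Y₁ Y₂ : ℝ) (q : QIx) (s : Bool) (z : ℂ) : ℂ := if s = q.1 then BE α Y₁ Y₂ q.2 z else 0

/-- the species sign -/
def fS (f : Bool → ℂ → ℂ) (s : Bool) (z : ℂ) : ℂ := sb s * f s z

theorem sgn_eq (b c : Bool) : sgn b c = sb b * sb c := by
  cases b <;> cases c <;> simp [sgn, sb]

section meas

variable {F : Type*} [NormedAddCommGroup F]

theorem integrable_qm {f : QIx → F} (hm : AEStronglyMeasurable f qm)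
    (h : ∀ c, Integrable (fun q => f (c, q)) wm) : Integrable f qm := by
  unfold qm at hm ⊢
  rw [integrable_prod_iff hm]
  exact ⟨Eventually.of_forall h, Integrable.of_finite⟩

theorem integral_qm [NormedSpace ℝ F] [CompleteSpace F] {f : QIx → F} (h : Integrable f qm) :
    ∫ q, f q ∂qm = ∑ c, ∫ q, f (c, q) ∂wm := by
  unfold qm at h ⊢
  rw [integral_prod _ h, integral_count]

end meas

variable {X : Bool → ℂ → ℂ} {b K κ : ℝ}

theorem AQ_measurable (hX : ∀ s, Measurable (X s)) (Y₁ Y₂ : ℝ) (s : Bool) :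
    Measurable fun p : QIx × ℂ => AQ X Y₁ Y₂ p.1 s p.2 := by
  have h : Measurable fun p : Bool × ((Bool × ℝ) × ℂ) => AE (Eq X s p.1) Y₁ Y₂ p.2.1 p.2.2 :=
    measurable_from_prod_countable_right fun c => AE_meas_of (Eq_measurable hX s c) Y₁ Y₂
  exact h.comp (measurable_fst.fst.prodMk (measurable_fst.snd.prodMk measurable_snd))

theorem BQ_measurable (α Y₁ Y₂ : ℝ) (s : Bool) :
    Measurable fun p : QIx × ℂ => BQ α Y₁ Y₂ p.1 s p.2 := by
  have h : Measurable fun p : Bool × ((Bool × ℝ) × ℂ) =>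
      if s = p.1 then BE α Y₁ Y₂ p.2.1 p.2.2 else 0 :=
    measurable_from_prod_countable_right fun c => by
      by_cases h : s = c
      · simp only [h, if_true]
        exact BE_measurable α Y₁ Y₂
      · simp only [h, if_false]
        exact measurable_const
  exact h.comp (measurable_fst.fst.prodMk (measurable_fst.snd.prodMk measurable_snd))

variable {y₁ y₂ Y₁ Y₂ θ α Y : ℝ}

/-- size of the first family -/
def alQ (C K κ : ℝ) (q : QIx) : ℝ := C * K * Real.exp (-(κ / 2 * |q.2.2|))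

/-- bound of the first family -/
theorem AQ_bound : ∀ {Y : ℝ}, Y < l → ∃ C : ℝ, 0 ≤ C ∧ ∀ {X : Bool → ℂ → ℂ} {b K κ : ℝ},
    (∀ s, XiA (X s) b K κ 0 0) → κ ≤ 1 → ∀ {y₁ y₂ Y₁ Y₂ θ α : ℝ}, Geo y₁ y₂ Y₁ Y₂ θ α b Y →
    ∀ (q : QIx) (s : Bool) (z : ℂ), z ∈ PBE.Sp y₁ y₂ → ‖AQ X Y₁ Y₂ q s z‖ ≤ alQ C K κ q := by
  intro Y hY
  obtain ⟨C, hC, h⟩ := Eq_bound hY
  refine ⟨C, hC, fun {X b K κ} H hκ {y₁ y₂ Y₁ Y₂ θ α} G q s z hz => ?_⟩
  have hl := G.line hz q.2
  have hK := (H true).K0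
  have hκ0 := (H true).c0
  have h1 := h H hκ G.bl s q.1 z _ (G.of_mem hz).1.le hl.1.le hl.2
  unfold AQ AE alQ
  refine h1.trans ?_
  rw [ly_re]
  refine mul_le_mul_of_nonneg_left (Real.exp_le_exp.2 ?_) (by positivity)
  have := mul_nonneg hκ0 (abs_nonneg z.re)
  linarith

theorem BQ_bound (G : Geo y₁ y₂ Y₁ Y₂ θ α b Y) (q : QIx) (s : Bool) {z : ℂ}
    (hz : z ∈ PBE.Sp y₁ y₂) : ‖BQ α Y₁ Y₂ q s z‖ ≤ cE α θ := by
  have h0 := G.θ0
  have hc : 0 ≤ cE α θ := by
    refine (cE_pos G.α0 G.θ0 ?_).le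
    have h1 : θ ≤ Y₂ - Y₁ := by
      have := hz.1
      have := hz.2
      linarith [G.l1, G.l2]
    have := G.αY
    nlinarith [G.α0]
  unfold BQ
  split_ifs
  · have h1 := norm_BE_le (a := 0) (z := z) G.α0 G.θ0 G.αY le_rfl G.α0.le
      ⟨by linarith [hz.1, G.l1], by linarith [hz.2, G.l2]⟩ q.2
    simpa using h1
  · simpa using hc

theorem AQ_diff (H : ∀ s, XiA (X s) b K κ 0 0) (G : Geo y₁ y₂ Y₁ Y₂ θ α b Y) (q : QIx) (s : Bool) :
    DifferentiableOn ℂ (AQ X Y₁ Y₂ q s) (PBE.Sp y₁ y₂) := fun z hz => by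
  have hl := G.line hz q.2
  exact (Eq_diff' H G.bl s q.1 (G.of_mem hz).1 hl.1
    (lt_of_le_of_lt hl.2 G.Yl)).differentiableWithinAt

theorem BQ_diff (G : Geo y₁ y₂ Y₁ Y₂ θ α b Y) (q : QIx) (s : Bool) :
    DifferentiableOn ℂ (BQ α Y₁ Y₂ q s) (PBE.Sp y₁ y₂) := by
  have h0 := G.θ0
  unfold BQ
  by_cases h : s = q.1
  · simp only [h, if_true]
    exact (BE_differentiableOn G.α0 G.αY q.2).mono fun z hz =>
      ⟨by linarith [hz.1, G.l1], by linarith [hz.2, G.l2]⟩
  · simp only [h, if_false]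
    exact differentiableOn_const 0

theorem alQ_int (C : ℝ) (K : ℝ) {κ : ℝ} (hκ : 0 < κ) (c : ℝ) :
    Integrable (fun q : QIx => alQ C K κ q * c) qm ∧
      ∫ q : QIx, alQ C K κ q * c ∂qm = 16 * C * K * c / κ := by
  have hm : Measurable fun q : QIx => alQ C K κ q * c := by
    unfold alQ
    have h : Measurable fun q : QIx => q.2.2 := measurable_snd.snd
    exact (((((measurable_norm.comp h).const_mul (κ / 2)).neg).exp).const_mul _).mul_const _
  have hi : ∀ s : Bool, Integrable (fun q : Bool × ℝ => alQ C K κ (s, q) * c) wm := by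
    intro s
    unfold alQ
    exact ((integrable_exp_wm (by positivity : 0 < κ / 2)).const_mul _).mul_const _
  have hI := integrable_qm hm.aestronglyMeasurable hi
  refine ⟨hI, ?_⟩
  rw [integral_qm hI]
  have e : ∀ s : Bool, ∫ q : Bool × ℝ, alQ C K κ (s, q) * c ∂wm = C * K * (4 / (κ / 2)) * c := by
    intro s
    unfold alQ
    simp only []
    rw [integral_mul_const, integral_const_mul, integral_exp_wm (by positivity : 0 < κ / 2)]
  rw [Finset.sum_congr rfl fun s _ => e s]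
  simp only [Finset.sum_const, Finset.card_univ, Fintype.card_bool, nsmul_eq_mul]
  push_cast
  field_simp
  ring

/-- **the product representation of the local part** -/
theorem prep_Eq (hX : ∀ s, Measurable (X s)) (H : ∀ s, XiA (X s) b K κ 0 0) (hκ0 : 0 < κ)
    (hκ : κ ≤ 1) (G : Geo y₁ y₂ Y₁ Y₂ θ α b Y) (h1 : y₁ < 0) (h2 : 0 < y₂)
    {ρ : Bool → ℝ → ℂ} (hρ : ∀ s, Integrable (ρ s)) {C : ℝ} (hC : 0 ≤ C)
    (hA : ∀ (q : QIx) (s : Bool) (z : ℂ), z ∈ PBE.Sp y₁ y₂ → ‖AQ X Y₁ Y₂ q s z‖ ≤ alQ C K κ q) :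
    NX.PRep qm (fun _ : Bool => PBE.Sp y₁ y₂) eR ρ (Eq X) (AQ X Y₁ Y₂) (BQ α Y₁ Y₂) (alQ C K κ)
      (fun _ => cE α θ) (fun _ _ => 1) (fun _ _ => 1) where
  eq s c x y hx hy := by
    have h0 := G.θ0
    have hx' := G.of_mem hx
    have hy' : y ∈ So Y₁ Y₂ := ⟨by linarith [hy.1, G.l1], by linarith [hy.2, G.l2]⟩
    have hd := fun c' => Eq_decomp G.Yl G.α0 G.αY H hκ G.bl G.b1 G.b2 s c' hx'.1 hx'.2.1 hx'.2.2 hy'
    have hm : Measurable fun q : QIx => AQ X Y₁ Y₂ q s x * BQ α Y₁ Y₂ q c y :=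
      ((AQ_measurable hX Y₁ Y₂ s).comp (measurable_id.prodMk measurable_const)).mul
        ((BQ_measurable α Y₁ Y₂ c).comp (measurable_id.prodMk measurable_const))
    have hi : ∀ c' : Bool, Integrable (fun q : Bool × ℝ => AQ X Y₁ Y₂ (c', q) s x *
        BQ α Y₁ Y₂ (c', q) c y) wm := by
      intro c'
      unfold AQ BQ
      by_cases h : c = c'
      · subst h
        simp only [if_true]
        exact (hd c).1
      · simp only [h, if_false, mul_zero]
        exact integrable_zero _ _ _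
    rw [integral_qm (integrable_qm hm.aestronglyMeasurable hi)]
    rw [Finset.sum_eq_single c]
    · rw [(hd c).2]
      refine integral_congr_ae (Eventually.of_forall fun q => ?_)
      simp [AQ, BQ]
    · intro c' _ hc
      have : ∀ q : Bool × ℝ, AQ X Y₁ Y₂ (c', q) s x * BQ α Y₁ Y₂ (c', q) c y = 0 := by
        intro q
        unfold BQ
        rw [if_neg (Ne.symm hc), mul_zero]
      simp only [this, integral_zero]
    · intro h
      exact absurd (Finset.mem_univ _) h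
  sym s c x y _ _ := Eq_symm X s c x y
  mA s x _ := ((AQ_measurable hX Y₁ Y₂ s).comp
    (measurable_id.prodMk measurable_const)).aestronglyMeasurable
  mB s x _ := ((BQ_measurable α Y₁ Y₂ s).comp
    (measurable_id.prodMk measurable_const)).aestronglyMeasurable
  jA s := by
    have he : Measurable fun p : QIx × ℝ => eR p.2 := Complex.measurable_ofReal.comp measurable_snd
    exact ((hρ s).1.comp_snd).mul (((AQ_measurable hX Y₁ Y₂ s).comp
      (measurable_fst.prodMk he)).aestronglyMeasurable)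
  jB s := by
    have he : Measurable fun p : QIx × ℝ => eR p.2 := Complex.measurable_ofReal.comp measurable_snd
    exact ((hρ s).1.comp_snd).mul (((BQ_measurable α Y₁ Y₂ s).comp
      (measurable_fst.prodMk he)).aestronglyMeasurable)
  bA q s x hx := by rw [mul_one]; exact hA q s x hx
  bB q s x hx := by rw [mul_one]; exact BQ_bound G q s hx
  ab := (alQ_int C K hκ0 (cE α θ)).1
  a0 q := by
    have hK := (H true).K0
    unfold alQ
    positivity
  b0 q := by
    have := BQ_bound G q true (z := 0) ⟨by simpa using h1, by simpa using h2⟩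
    exact (norm_nonneg _).trans this
  iA s := by simpa using (hρ s).norm
  iB s := by simpa using (hρ s).norm
  he s u _ := ⟨by simpa [eR] using h1, by simpa [eR] using h2⟩

theorem tgh_bound {z : ℂ} (hz : |z.im| ≤ l) : ‖tgh z‖ ≤ 2 / r := by
  have hr := r_pos
  unfold tgh
  rw [norm_div]
  have i1 := norm_cosh_2u hz
  have s1 := sinh2_le z
  have hA : 0 < r / 2 * Real.exp (2 * |z.re|) := by positivity
  calc ‖Complex.sinh (2 * z)‖ / ‖Complex.cosh (2 * z)‖ ≤
      Real.exp (2 * |z.re|) / (r / 2 * Real.exp (2 * |z.re|)) := by gcongr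
    _ = 2 / r := by field_simp

/-- **the quadratic statistic of a field** -/
theorem nuQ_aC {ι : Type*} [Fintype ι] (hX : ∀ s, Measurable (X s))
    (H : ∀ s, XiA (X s) b K κ 0 0) (hκ0 : 0 < κ) (hκ : κ ≤ 1)
    (G : Geo y₁ y₂ Y₁ Y₂ θ α b Y) (h1 : y₁ < 0) (h2 : 0 < y₂) (hy : y₂ - y₁ < l)
    {ρ : Bool → ℝ → ℂ} (hρ : ∀ s, Integrable (ρ s)) (sp : ι → Bool) {z : ι → ℂ}
    (hz : ∀ i, z i ∈ PBE.Sp y₁ y₂) :
    Integrable (fun q => NX.nuL eR sp ρ (AQ X Y₁ Y₂ q) z * NX.nuL eR sp ρ (BQ α Y₁ Y₂ q) z) qm ∧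
    NX.nuQ eR sp ρ (aC X) z =
      -2 * (NX.nuL eR sp ρ (fS X) z * NX.nuL eR sp ρ (fS fun _ => tgh) z) +
      (1 / 2) * ∫ q, NX.nuL eR sp ρ (AQ X Y₁ Y₂ q) z * NX.nuL eR sp ρ (BQ α Y₁ Y₂ q) z ∂qm := by
  obtain ⟨C, hC, hA⟩ := AQ_bound G.Yl
  have R := prep_Eq hX H hκ0 hκ G h1 h2 hρ hC (fun q s z hz => hA H hκ G q s z hz)
  obtain ⟨i1, e1⟩ := NX.nuQ_int R sp hz
  refine ⟨i1, ?_⟩
  have hK := (H true).K0
  have him : ∀ u : ℝ, |(eR u).im| ≤ b := fun u => by
    have := (H true).b0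
    simp [eR, this.le]
  have ibX : ∀ s, Integrable fun u => ρ s u * fS X s (eR u) := by
    intro s
    refine (hρ s).mul_bdd (c := K) ?_ (Eventually.of_forall fun u => ?_)
    · have : Measurable fun u : ℝ => fS X s (eR u) := by
        unfold fS
        exact ((hX s).comp Complex.measurable_ofReal).const_mul _
      exact this.aestronglyMeasurable
    · unfold fS
      rw [norm_mul, norm_sb, one_mul]
      refine (XiA.bd (H s) (him u)).trans ?_
      have : Real.exp (-(κ * |(eR u).re|)) ≤ 1 := Real.exp_le_one_iff.2 (by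
        have := mul_nonneg hκ0.le (abs_nonneg (eR u).re)
        linarith)
      nlinarith
  have ibT : ∀ s, Integrable fun u => ρ s u * fS (fun _ => tgh) s (eR u) := by
    intro s
    refine (hρ s).mul_bdd (c := 2 / r) ?_ (Eventually.of_forall fun u => ?_)
    · have : Measurable fun u : ℝ => fS (fun _ => tgh) s (eR u) := by
        unfold fS
        exact (tgh_measurable.comp Complex.measurable_ofReal).const_mul _
      exact this.aestronglyMeasurable
    · unfold fS
      rw [norm_mul, norm_sb, one_mul]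
      exact tgh_bound ((him u).trans G.bl)
  have hP := NX.nuQ_prod sp ibX ibT z
  have hPI := NX.QI.prod ibX ibT
  have e2 : NX.nuQ eR sp ρ (Rq X) z =
      -2 * (NX.nuL eR sp ρ (fS X) z * NX.nuL eR sp ρ (fS fun _ => tgh) z) := by
    rw [← hP, ← NX.nuQ_smul]
    congr 1
    funext s c x y
    unfold Rq fS
    rw [sgn_eq]
    ring
  have hRI : NX.QI eR ρ (Rq X) := by
    have := hPI.smul (-2)
    have e3 : (fun (s c : Bool) (x y : ℂ) => (-2 : ℂ) * (fS X s x * fS (fun _ => tgh) c y +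
        fS (fun _ => tgh) s x * fS X c y)) = Rq X := by
      funext s c x y
      unfold Rq fS
      rw [sgn_eq]
      ring
    rwa [e3] at this
  have hm : ∀ (s c : Bool) (x : ℂ), x ∈ PBE.Sp y₁ y₂ →
      AEStronglyMeasurable (fun u => Eq X s c x (eR u) * ρ c u) volume := fun s c x _ =>
    (((Eq_measurable hX s c).comp (measurable_const.prodMk
      Complex.measurable_ofReal)).aestronglyMeasurable).mul (hρ c).1
  have hEI := R.qid hm
  have he := R.he
  have e4 := NX.nuQ_addD sp he hEI hRI.qid hz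
  rw [← e1, ← e2, add_comm, ← e4]
  refine (NX.nuQ_cD he (aC X) hz).symm.trans (Eq.trans ?_ (NX.nuQ_cD he
    (fun s c x y => Eq X s c x y + Rq X s c x y) hz))
  congr 1
  funext s c x y
  unfold NX.cD
  by_cases h : x ∈ PBE.Sp y₁ y₂ ∧ y ∈ PBE.Sp y₁ y₂
  · rw [if_pos h, if_pos h]
    refine aC_eq X s c ?_
    rw [Complex.sub_im, abs_lt]
    constructor <;> linarith [h.1.1, h.1.2, h.2.1, h.2.2]
  · rw [if_neg h, if_neg h]

end PBQM
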