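import Pool.Agent.PB.NormI1

/-!
# Plan B: plateau part of the kernels and charges

`sg t = tanh 2t`, `J = ξ(∞) - ξ(-∞)`, `be = (ξ(∞) + ξ(-∞))/2 - ξ + (J/2) sg`.

* `tail_eq`: `(ξ s - ξ t) sg (s - t) = J/2 + be s sg t + be t sg s - (J/2) sg s sg t + Tloc s t`;
* `norm_be`, `norm_Tloc`: `|be t| ≤ C e^{-4|t|}`, `|Tloc s t| ≤ C e^{-2|s|-2|t|}`;
* `nuQ_charge`: for kernels `aloc + 2 q_b q_c (plateau part)`:
  `nuQ a = nuQ aloc + (J/2) Q_1^2 + 2 Q_be Q_sg - (J/2) Q_sg^2`, all objects counted with their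
  charges;
* `norm_sub_min`, `norm_kernel_loc`: `|(ξ s - ξ t) kl(s - t)| ≤ (3/2) C M e^{-2|s|-2|t|}`.
-/

set_option autoImplicit false
set_option linter.unusedSectionVars false

noncomputable section

open MeasureTheory Finset
open scoped Classical

namespace PB

namespace N1

/-! ### the smooth step -/

/-- the smooth step -/
def sg (t : ℝ) : ℝ := Real.tanh (2 * t)

/-- the localised part of `-ξ` -/
def be (ξ : ℝ → ℂ) (xp xm : ℂ) (t : ℝ) : ℂ := (xp + xm) / 2 - ξ t + (xp - xm) / 2 * (sg t : ℂ)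

/-- the localised remainder of `(ξ s - ξ t) tanh 2(s-t)` -/
def Tloc (ξ : ℝ → ℂ) (xp xm : ℂ) (s t : ℝ) : ℂ :=
  -((xp - xm) / 2) * ((Real.cosh (2 * s) * Real.cosh (2 * t) * Real.cosh (2 * (s - t)))⁻¹ : ℝ) -
    be ξ xp xm s * ((sg (s - t) + sg t : ℝ) : ℂ) - be ξ xp xm t * ((sg s - sg (s - t) : ℝ) : ℂ)

theorem sg_key (s t : ℝ) : (sg s - sg t) * sg (s - t) - 1 + sg s * sg t =
    -(Real.cosh (2 * s) * Real.cosh (2 * t) * Real.cosh (2 * (s - t)))⁻¹ := by
  have e : 2 * (s - t) = 2 * s - 2 * t := by ring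
  unfold sg
  rw [e, Real.tanh_eq_sinh_div_cosh, Real.tanh_eq_sinh_div_cosh, Real.tanh_eq_sinh_div_cosh]
  have c1 := (Real.cosh_pos (2 * s)).ne'
  have c2 := (Real.cosh_pos (2 * t)).ne'
  have c3 := (Real.cosh_pos (2 * s - 2 * t)).ne'
  have h1 : Real.sinh (2 * s) * Real.cosh (2 * t) - Real.cosh (2 * s) * Real.sinh (2 * t) =
      Real.sinh (2 * s - 2 * t) := (Real.sinh_sub _ _).symm
  have h2 : Real.cosh (2 * s) * Real.cosh (2 * t) - Real.sinh (2 * s) * Real.sinh (2 * t) =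
      Real.cosh (2 * s - 2 * t) := (Real.cosh_sub _ _).symm
  have h3 := Real.cosh_sq (2 * s - 2 * t)
  generalize 2 * s = x at *
  generalize 2 * t = y at *
  field_simp
  have k1 : (Real.sinh x * Real.cosh y - Real.cosh x * Real.sinh y) *
      Real.sinh (x - y) - (Real.cosh x * Real.cosh y -
      Real.sinh x * Real.sinh y) * Real.cosh (x - y) = -1 := by
    rw [h1, h2]
    linear_combination -h3
  linear_combination k1

/-- **the plateau part** -/
theorem tail_eq (ξ : ℝ → ℂ) (xp xm : ℂ) (s t : ℝ) :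
    (ξ s - ξ t) * (sg (s - t) : ℂ) = (xp - xm) / 2 + be ξ xp xm s * (sg t : ℂ) +
      be ξ xp xm t * (sg s : ℂ) - (xp - xm) / 2 * ((sg s : ℂ) * (sg t : ℂ)) +
      Tloc ξ xp xm s t := by
  have h : ((sg s : ℂ) - sg t) * sg (s - t) - 1 + sg s * sg t =
      -((Real.cosh (2 * s) * Real.cosh (2 * t) * Real.cosh (2 * (s - t)))⁻¹ : ℝ) := by
    have := sg_key s t
    exact_mod_cast congrArg (fun x : ℝ => (x : ℂ)) this
  unfold Tloc be
  push_cast at h ⊢
  linear_combination ((xp - xm) / 2) * h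

theorem inv_cosh_le (x : ℝ) : (Real.cosh x)⁻¹ ≤ 2 * Real.exp (-|x|) := by
  have h : Real.exp |x| ≤ 2 * Real.cosh x := by
    rw [← Real.cosh_abs, Real.cosh_eq]
    have := Real.exp_pos (-|x|)
    linarith
  have h2 := Real.cosh_pos x
  rw [Real.exp_neg, inv_le_comm₀ h2 (by positivity), mul_inv, inv_inv]
  linarith

theorem abs_sinh_le (x : ℝ) : |Real.sinh x| ≤ Real.exp |x| := by
  rw [Real.abs_sinh, Real.sinh_eq]
  have h1 := Real.exp_pos (-|x|)
  have h2 := Real.exp_pos |x|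
  linarith

theorem one_sub_sg {t : ℝ} (ht : 0 ≤ t) : |1 - sg t| ≤ 2 * Real.exp (-4 * |t|) := by
  have c := Real.cosh_pos (2 * t)
  have e : 1 - sg t = Real.exp (-(2 * t)) / Real.cosh (2 * t) := by
    unfold sg
    rw [Real.tanh_eq_sinh_div_cosh, ← Real.cosh_sub_sinh]
    field_simp
  have h := inv_cosh_le (2 * t)
  rw [e, abs_of_nonneg (by positivity), div_eq_mul_inv]
  calc Real.exp (-(2 * t)) * (Real.cosh (2 * t))⁻¹
      ≤ Real.exp (-(2 * t)) * (2 * Real.exp (-|2 * t|)) :=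
        mul_le_mul_of_nonneg_left h (Real.exp_pos _).le
    _ = 2 * Real.exp (-4 * |t|) := by
        rw [abs_mul, abs_of_nonneg ht, abs_of_pos (two_pos : (0 : ℝ) < 2), mul_left_comm,
          ← Real.exp_add]
        ring_nf

theorem sg_neg (t : ℝ) : sg (-t) = -sg t := by
  unfold sg
  rw [mul_neg, Real.tanh_neg]

theorem norm_be {ξ : ℝ → ℂ} {xp xm : ℂ} {M : ℝ}
    (hp : ∀ t, 0 ≤ t → ‖xp - ξ t‖ ≤ M * Real.exp (-4 * |t|))
    (hm : ∀ t, t ≤ 0 → ‖xm - ξ t‖ ≤ M * Real.exp (-4 * |t|)) (t : ℝ) :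
    ‖be ξ xp xm t‖ ≤ (M + ‖xp - xm‖) * Real.exp (-4 * |t|) := by
  rcases le_total 0 t with h | h
  · have e : be ξ xp xm t = (xp - ξ t) - (xp - xm) / 2 * ((1 - sg t : ℝ) : ℂ) := by
      unfold be
      push_cast
      ring
    rw [e, add_mul]
    refine (norm_sub_le _ _).trans (add_le_add (hp t h) ?_)
    rw [norm_mul, norm_div, Complex.norm_real, Real.norm_eq_abs, Complex.norm_ofNat]
    calc ‖xp - xm‖ / 2 * |1 - sg t| ≤ ‖xp - xm‖ / 2 * (2 * Real.exp (-4 * |t|)) :=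
          mul_le_mul_of_nonneg_left (one_sub_sg h) (by positivity)
      _ = _ := by ring
  · have e : be ξ xp xm t = (xm - ξ t) + (xp - xm) / 2 * ((1 - sg (-t) : ℝ) : ℂ) := by
      unfold be
      rw [sg_neg]
      push_cast
      ring
    rw [e, add_mul]
    refine (norm_add_le _ _).trans (add_le_add (hm t h) ?_)
    rw [norm_mul, norm_div, Complex.norm_real, Real.norm_eq_abs, Complex.norm_ofNat]
    have h1 := one_sub_sg (neg_nonneg.2 h)
    rw [abs_neg] at h1
    calc ‖xp - xm‖ / 2 * |1 - sg (-t)| ≤ ‖xp - xm‖ / 2 * (2 * Real.exp (-4 * |t|)) :=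
          mul_le_mul_of_nonneg_left h1 (by positivity)
      _ = _ := by ring

theorem sg_add (s t : ℝ) : sg (s - t) + sg t =
    Real.sinh (2 * s) * ((Real.cosh (2 * (s - t)))⁻¹ * (Real.cosh (2 * t))⁻¹) := by
  unfold sg
  have c2 := (Real.cosh_pos (2 * t)).ne'
  have c3 := (Real.cosh_pos (2 * (s - t))).ne'
  have e : Real.sinh (2 * s) = Real.sinh (2 * (s - t)) * Real.cosh (2 * t) +
      Real.cosh (2 * (s - t)) * Real.sinh (2 * t) := by
    rw [← Real.sinh_add]
    ring_nf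
  rw [Real.tanh_eq_sinh_div_cosh, Real.tanh_eq_sinh_div_cosh, e]
  field_simp

theorem abs_sg_add (s t : ℝ) : |sg (s - t) + sg t| ≤
    2 * (Real.exp (2 * |s|) * Real.exp (-2 * |t|)) := by
  have c3 := Real.cosh_pos (2 * (s - t))
  have c2 := Real.cosh_pos (2 * t)
  have h1 : (Real.cosh (2 * (s - t)))⁻¹ ≤ 1 := inv_le_one_of_one_le₀ (Real.one_le_cosh _)
  have h2 := inv_cosh_le (2 * t)
  have h3 := abs_sinh_le (2 * s)
  rw [abs_mul, abs_of_pos (two_pos : (0 : ℝ) < 2)] at h2 h3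
  have e2 : (0 : ℝ) ≤ (Real.cosh (2 * (s - t)))⁻¹ := by positivity
  rw [sg_add, abs_mul, abs_mul, abs_of_nonneg e2, abs_of_nonneg (by positivity : (0 : ℝ) ≤
    (Real.cosh (2 * t))⁻¹)]
  calc |Real.sinh (2 * s)| * ((Real.cosh (2 * (s - t)))⁻¹ * (Real.cosh (2 * t))⁻¹)
      ≤ Real.exp (2 * |s|) * (1 * (2 * Real.exp (-(2 * |t|)))) := by
        apply mul_le_mul h3 (mul_le_mul h1 h2 (by positivity) zero_le_one) (by positivity)
          (Real.exp_pos _).le
    _ = _ := by ring_nf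

/-- the remainder is localised in both variables -/
theorem norm_Tloc {ξ : ℝ → ℂ} {xp xm : ℂ} {M : ℝ}
    (hp : ∀ t, 0 ≤ t → ‖xp - ξ t‖ ≤ M * Real.exp (-4 * |t|))
    (hm : ∀ t, t ≤ 0 → ‖xm - ξ t‖ ≤ M * Real.exp (-4 * |t|)) (s t : ℝ) :
    ‖Tloc ξ xp xm s t‖ ≤ (4 * M + 6 * ‖xp - xm‖) * (Real.exp (-2 * |s|) * Real.exp (-2 * |t|)) := by
  have b := norm_be hp hm
  have h1 := inv_cosh_le (2 * s)
  have h2 := inv_cosh_le (2 * t)
  have h3 : (Real.cosh (2 * (s - t)))⁻¹ ≤ 1 := inv_le_one_of_one_le₀ (Real.one_le_cosh _)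
  have c1 := Real.cosh_pos (2 * s)
  have c2 := Real.cosh_pos (2 * t)
  have c3 := Real.cosh_pos (2 * (s - t))
  rw [abs_mul, abs_of_pos (two_pos : (0 : ℝ) < 2)] at h1 h2
  set E := Real.exp (-2 * |s|) * Real.exp (-2 * |t|) with hE
  have hE0 : 0 < E := by positivity
  have a1 : ‖-((xp - xm) / 2) * ((Real.cosh (2 * s) * Real.cosh (2 * t) *
      Real.cosh (2 * (s - t)))⁻¹ : ℝ)‖ ≤ 2 * ‖xp - xm‖ * E := by
    rw [norm_mul, norm_neg, norm_div, Complex.norm_real, Real.norm_eq_abs, Complex.norm_ofNat,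
      abs_of_pos (by positivity), mul_inv, mul_inv]
    have k : (Real.cosh (2 * s))⁻¹ * (Real.cosh (2 * t))⁻¹ * (Real.cosh (2 * (s - t)))⁻¹ ≤
        (2 * Real.exp (-(2 * |s|))) * (2 * Real.exp (-(2 * |t|))) * 1 := by
      apply mul_le_mul (mul_le_mul h1 h2 (by positivity) (by positivity)) h3 (by positivity)
        (by positivity)
    calc ‖xp - xm‖ / 2 * ((Real.cosh (2 * s))⁻¹ * (Real.cosh (2 * t))⁻¹ *
          (Real.cosh (2 * (s - t)))⁻¹) ≤ ‖xp - xm‖ / 2 *
          ((2 * Real.exp (-(2 * |s|))) * (2 * Real.exp (-(2 * |t|))) * 1) :=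
          mul_le_mul_of_nonneg_left k (by positivity)
      _ = 2 * ‖xp - xm‖ * E := by
          rw [hE]
          ring_nf
  have hM : 0 ≤ M + ‖xp - xm‖ := by
    have := (norm_nonneg _).trans (b 0)
    have h0 : (0 : ℝ) < Real.exp (-4 * |(0 : ℝ)|) := Real.exp_pos _
    exact nonneg_of_mul_nonneg_left this h0
  have key : ∀ x y : ℝ, (M + ‖xp - xm‖) * Real.exp (-4 * |x|) *
      (2 * (Real.exp (2 * |x|) * Real.exp (-2 * |y|))) =
      2 * (M + ‖xp - xm‖) * (Real.exp (-2 * |x|) * Real.exp (-2 * |y|)) := by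
    intro x y
    have : Real.exp (-4 * |x|) * Real.exp (2 * |x|) = Real.exp (-2 * |x|) := by
      rw [← Real.exp_add]
      ring_nf
    linear_combination (2 * (M + ‖xp - xm‖) * Real.exp (-2 * |y|)) * this
  have a2 : ‖be ξ xp xm s * ((sg (s - t) + sg t : ℝ) : ℂ)‖ ≤ 2 * (M + ‖xp - xm‖) * E := by
    rw [norm_mul, Complex.norm_real, Real.norm_eq_abs, hE, ← key s t]
    exact mul_le_mul (b s) (abs_sg_add s t) (abs_nonneg _)
      (mul_nonneg hM (Real.exp_pos _).le)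
  have a3 : ‖be ξ xp xm t * ((sg s - sg (s - t) : ℝ) : ℂ)‖ ≤ 2 * (M + ‖xp - xm‖) * E := by
    have e : sg s - sg (s - t) = sg (t - s) + sg s := by
      rw [show t - s = -(s - t) by ring, sg_neg]
      ring
    rw [norm_mul, Complex.norm_real, Real.norm_eq_abs, e, hE, mul_comm (Real.exp (-2 * |s|)),
      ← key t s]
    exact mul_le_mul (b t) (abs_sg_add t s) (abs_nonneg _)
      (mul_nonneg hM (Real.exp_pos _).le)
  unfold Tloc
  refine (norm_sub_le _ _).trans ((add_le_add ((norm_sub_le _ _).trans (add_le_add a1 a2)) a3).trans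
    (le_of_eq ?_))
  ring

/-! ### all pairs together: charges -/

section charge

variable {ι S : Type*} [Fintype ι] [Fintype S]

/-- charge statistic: objects counted with their charges -/
def Qf (sp : ι → S) (ρ : S → ℝ → ℂ) (q : S → ℂ) (f : ℝ → ℂ) (t : ι → ℝ) : ℂ :=
  nuL sp ρ (fun b u => q b * f u) t

/-- when the density of charge vanishes, `Qf` is the plain sum -/
theorem Qf_eq (sp : ι → S) {ρ : S → ℝ → ℂ} {q : S → ℂ} (hq : ∀ u, ∑ b, q b * ρ b u = 0)
    {f : ℝ → ℂ} (hf : ∀ b, Integrable fun u => ρ b u * (q b * f u)) (t : ι → ℝ) :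
    Qf sp ρ q f t = ∑ k, q (sp k) * f (t k) := by
  unfold Qf nuL
  rw [← integral_finsetSum _ fun b _ => hf b]
  have : ∀ u, ∑ b, ρ b u * (q b * f u) = 0 := by
    intro u
    have e : ∑ b, ρ b u * (q b * f u) = (∑ b, q b * ρ b u) * f u := by
      rw [Finset.sum_mul]
      exact Finset.sum_congr rfl fun b _ => by ring
    rw [e, hq, zero_mul]
  simp [this]

/-- **plateau parts of all pairs**: kernels `aloc + 2 q_b q_c (plateau)` -/
theorem nuQ_charge (sp : ι → S) {ρ : S → ℝ → ℂ} {q : S → ℂ} {ξ : ℝ → ℂ} {xp xm : ℂ}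
    {aloc : S → S → ℝ → ℝ → ℂ} (hloc : QI ρ aloc)
    (h1 : ∀ b, Integrable fun u => ρ b u * (q b * 1))
    (hb : ∀ b, Integrable fun u => ρ b u * (q b * be ξ xp xm u))
    (hs : ∀ b, Integrable fun u => ρ b u * (q b * (sg u : ℂ))) (t : ι → ℝ) :
    nuQ sp ρ (fun b c s u => aloc b c s u + 2 * (q b * q c) * ((xp - xm) / 2 +
      be ξ xp xm s * (sg u : ℂ) + be ξ xp xm u * (sg s : ℂ) -
      (xp - xm) / 2 * ((sg s : ℂ) * (sg u : ℂ)))) t =
    nuQ sp ρ aloc t + (xp - xm) / 2 * Qf sp ρ q (fun _ => 1) t ^ 2 +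
      2 * Qf sp ρ q (be ξ xp xm) t * Qf sp ρ q (fun u => (sg u : ℂ)) t -
      (xp - xm) / 2 * Qf sp ρ q (fun u => (sg u : ℂ)) t ^ 2 := by
  set J := (xp - xm) / 2 with hJ
  have k1 := QI.sq (ρ := ρ) (f := fun b u => q b * (1 : ℂ)) h1
  have k2 := QI.prod (ρ := ρ) (f := fun b u => q b * be ξ xp xm u)
    (g := fun b u => q b * (sg u : ℂ)) hb hs
  have k3 := QI.sq (ρ := ρ) (f := fun b u => q b * (sg u : ℂ)) hs
  have e : (fun (b c : S) (s u : ℝ) => aloc b c s u + 2 * (q b * q c) * (J +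
      be ξ xp xm s * (sg u : ℂ) + be ξ xp xm u * (sg s : ℂ) - J * ((sg s : ℂ) * (sg u : ℂ)))) =
      fun b c s u => aloc b c s u + ((2 * J) * ((q b * 1) * (q c * 1)) +
        (2 * ((q b * be ξ xp xm s) * (q c * (sg u : ℂ)) +
          (q b * (sg s : ℂ)) * (q c * be ξ xp xm u)) +
        (-(2 * J)) * ((q b * (sg s : ℂ)) * (q c * (sg u : ℂ))))) := by
    funext b c s u
    ring
  rw [e, nuQ_add sp hloc ((k1.smul (2 * J)).add ((k2.smul 2).add (k3.smul (-(2 * J))))),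
    nuQ_add sp (k1.smul (2 * J)) ((k2.smul 2).add (k3.smul (-(2 * J)))),
    nuQ_add sp (k2.smul 2) (k3.smul (-(2 * J))), nuQ_smul, nuQ_smul, nuQ_smul,
    nuQ_sq sp h1, nuQ_prod sp hb hs, nuQ_sq sp hs]
  unfold Qf
  ring

end charge

/-! ### the local part of the kernels -/

/-- difference of a field with a localised derivative, same side -/
theorem norm_sub_same {ξ dξ : ℝ → ℂ} {M : ℝ} (hM : 0 ≤ M) (hd : ∀ t, HasDerivAt ξ (dξ t) t)
    (hb : ∀ t, ‖dξ t‖ ≤ M * Real.exp (-4 * |t|)) {s t : ℝ} (h0 : 0 ≤ s) (hst : s ≤ t) :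
    ‖ξ t - ξ s‖ ≤ M * min (t - s) (1 / 4) * Real.exp (-4 * s) := by
  have hc : ContinuousOn ξ (Set.Icc s t) := fun x _ => (hd x).continuousAt.continuousWithinAt
  have h1 : ‖ξ t - ξ s‖ ≤ M * Real.exp (-4 * s) * (t - s) := by
    have := Convex.norm_image_sub_le_of_norm_hasDerivWithin_le (f := ξ) (f' := dξ)
      (s := Set.Icc s t) (C := M * Real.exp (-4 * s)) (x := s) (y := t)
      (fun x _ => (hd x).hasDerivWithinAt) (fun x hx => (hb x).trans ?_) (convex_Icc s t)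
      ⟨le_rfl, hst⟩ ⟨hst, le_rfl⟩
    · rwa [Real.norm_eq_abs, abs_of_nonneg (sub_nonneg.2 hst)] at this
    · apply mul_le_mul_of_nonneg_left _ hM
      apply Real.exp_le_exp.2
      rw [abs_of_nonneg (h0.trans hx.1)]
      linarith [hx.1]
  have h2 : ‖ξ t - ξ s‖ ≤ M * Real.exp (-4 * s) * (1 / 4) := by
    have hB : ∀ x, HasDerivAt (fun x : ℝ => M / 4 * (Real.exp (-4 * s) - Real.exp (-4 * x)))
        (M * Real.exp (-4 * x)) x := by
      intro x
      have := (((hasDerivAt_id x).const_mul (-4)).exp.const_sub (Real.exp (-4 * s))).const_mul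
        (M / 4)
      simp only [id] at this
      convert! this using 1
      ring
    have := image_norm_le_of_norm_deriv_right_le_deriv_boundary (f := fun x => ξ x - ξ s)
      (f' := dξ) (a := s) (b := t)
      (B := fun x : ℝ => M / 4 * (Real.exp (-4 * s) - Real.exp (-4 * x)))
      (B' := fun x => M * Real.exp (-4 * x)) (hc.sub continuousOn_const)
      (fun x _ => ((hd x).sub_const _).hasDerivWithinAt) (by simp) hB
      (fun x hx => by
        have h5 := hb x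
        rwa [abs_of_nonneg (h0.trans hx.1)] at h5) ⟨hst, le_rfl⟩
    refine this.trans ?_
    have h5 := Real.exp_pos (-4 * t)
    nlinarith [mul_nonneg hM h5.le]
  rcases min_cases (t - s) (1 / 4 : ℝ) with ⟨e, -⟩ | ⟨e, -⟩ <;> rw [e] <;> nlinarith [h1, h2]

/-- difference of a field with a localised derivative -/
theorem norm_sub_min {ξ dξ : ℝ → ℂ} {M : ℝ} (hM : 0 ≤ M) (hd : ∀ t, HasDerivAt ξ (dξ t) t)
    (hb : ∀ t, ‖dξ t‖ ≤ M * Real.exp (-4 * |t|)) (s t : ℝ) :
    ‖ξ s - ξ t‖ * Real.exp (-2 * |s - t|) ≤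
      M * min |s - t| (1 / 2) * (Real.exp (-2 * |s|) * Real.exp (-2 * |t|)) := by
  wlog hst : s ≤ t generalizing s t
  · have := this t s (le_of_not_ge hst)
    rw [norm_sub_rev, abs_sub_comm s t, mul_comm (Real.exp (-2 * |s|))]
    exact this
  have hd' : ∀ t, HasDerivAt (fun t => ξ (-t)) (-dξ (-t)) t := by
    intro t
    have := (hd (-t)).scomp t (hasDerivAt_neg t)
    rw [neg_one_smul] at this
    exact this
  have hb' : ∀ t, ‖-dξ (-t)‖ ≤ M * Real.exp (-4 * |t|) := by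
    intro t
    rw [norm_neg]
    have := hb (-t)
    rwa [abs_neg] at this
  have hab : |s - t| = t - s := by rw [abs_sub_comm, abs_of_nonneg (sub_nonneg.2 hst)]
  have hle : ∀ x : ℝ, min x (1 / 4 : ℝ) ≤ min x (1 / 2) := fun x =>
    min_le_min le_rfl (by norm_num)
  rcases le_total 0 s with h | h
  · have h1 := norm_sub_same hM hd hb h hst
    rw [norm_sub_rev, hab, abs_of_nonneg h, abs_of_nonneg (h.trans hst)]
    calc ‖ξ t - ξ s‖ * Real.exp (-2 * (t - s)) ≤
          M * min (t - s) (1 / 4) * Real.exp (-4 * s) * Real.exp (-2 * (t - s)) :=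
          mul_le_mul_of_nonneg_right h1 (Real.exp_pos _).le
      _ = M * min (t - s) (1 / 4) * (Real.exp (-2 * s) * Real.exp (-2 * t)) := by
          rw [mul_assoc, ← Real.exp_add, ← Real.exp_add]
          ring_nf
      _ ≤ _ := mul_le_mul_of_nonneg_right (mul_le_mul_of_nonneg_left (hle _) hM) (by positivity)
  · rcases le_total t 0 with h' | h'
    · have h1 := norm_sub_same hM hd' hb' (s := -t) (t := -s) (by linarith) (by linarith)
      simp only [neg_neg] at h1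
      rw [hab, abs_of_nonpos h, abs_of_nonpos h']
      have e : -s - -t = t - s := by ring
      rw [e] at h1
      calc ‖ξ s - ξ t‖ * Real.exp (-2 * (t - s)) ≤
            M * min (t - s) (1 / 4) * Real.exp (-4 * -t) * Real.exp (-2 * (t - s)) :=
            mul_le_mul_of_nonneg_right h1 (Real.exp_pos _).le
        _ = M * min (t - s) (1 / 4) * (Real.exp (-2 * -s) * Real.exp (-2 * -t)) := by
            rw [mul_assoc, ← Real.exp_add, ← Real.exp_add]
            ring_nf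
        _ ≤ _ := mul_le_mul_of_nonneg_right (mul_le_mul_of_nonneg_left (hle _) hM) (by positivity)
    · have h1 := norm_sub_same hM hd hb le_rfl h'
      have h2 := norm_sub_same hM hd' hb' le_rfl (neg_nonneg.2 h)
      simp only [neg_neg, neg_zero, mul_zero, Real.exp_zero, mul_one, sub_zero] at h1 h2
      have h3 : ‖ξ s - ξ t‖ ≤ M * min (t - s) (1 / 2) := by
        have e : ξ s - ξ t = (ξ s - ξ 0) - (ξ t - ξ 0) := by ring
        rw [e]
        refine (norm_sub_le _ _).trans ((add_le_add h2 h1).trans ?_)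
        rw [← mul_add]
        apply mul_le_mul_of_nonneg_left _ hM
        apply le_min
        · have a1 := min_le_left (-s) (1 / 4 : ℝ)
          have a2 := min_le_left t (1 / 4 : ℝ)
          linarith
        · have a1 := min_le_right (-s) (1 / 4 : ℝ)
          have a2 := min_le_right t (1 / 4 : ℝ)
          linarith
      rw [hab, abs_of_nonpos h, abs_of_nonneg h']
      calc ‖ξ s - ξ t‖ * Real.exp (-2 * (t - s)) ≤
            M * min (t - s) (1 / 2) * Real.exp (-2 * (t - s)) :=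
            mul_le_mul_of_nonneg_right h3 (Real.exp_pos _).le
        _ = _ := by
            rw [← Real.exp_add]
            ring_nf

/-- **the local part of a kernel** -/
theorem norm_kernel_loc {ξ dξ : ℝ → ℂ} {M C : ℝ} (hM : 0 ≤ M) (hd : ∀ t, HasDerivAt ξ (dξ t) t)
    (hb : ∀ t, ‖dξ t‖ ≤ M * Real.exp (-4 * |t|)) {kl : ℝ → ℂ}
    (hk : ∀ u, u ≠ 0 → ‖kl u‖ ≤ C * Real.exp (-2 * |u|) * (1 + 1 / |u|)) {s t : ℝ} (hst : s ≠ t) :
    ‖(ξ s - ξ t) * kl (s - t)‖ ≤
      3 / 2 * (C * M) * (Real.exp (-2 * |s|) * Real.exp (-2 * |t|)) := by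
  have hu : s - t ≠ 0 := sub_ne_zero.2 hst
  have hu' : 0 < |s - t| := abs_pos.2 hu
  have h1 := norm_sub_min hM hd hb s t
  have h2 := hk _ hu
  have hC : 0 ≤ C := by
    have h3 := (norm_nonneg _).trans h2
    have h4 : 0 < Real.exp (-2 * |s - t|) * (1 + 1 / |s - t|) := by positivity
    rw [mul_assoc] at h3
    exact nonneg_of_mul_nonneg_left h3 h4
  set E := Real.exp (-2 * |s|) * Real.exp (-2 * |t|)
  have hE : 0 < E := by positivity
  rw [norm_mul]
  calc ‖ξ s - ξ t‖ * ‖kl (s - t)‖ ≤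
        ‖ξ s - ξ t‖ * (C * Real.exp (-2 * |s - t|) * (1 + 1 / |s - t|)) :=
        mul_le_mul_of_nonneg_left h2 (norm_nonneg _)
    _ = (‖ξ s - ξ t‖ * Real.exp (-2 * |s - t|)) * (C * (1 + 1 / |s - t|)) := by ring
    _ ≤ (M * min |s - t| (1 / 2) * E) * (C * (1 + 1 / |s - t|)) :=
        mul_le_mul_of_nonneg_right h1 (by positivity)
    _ = C * M * E * (min |s - t| (1 / 2) * (1 + 1 / |s - t|)) := by ring
    _ ≤ C * M * E * (3 / 2) := by
        apply mul_le_mul_of_nonneg_left _ (by positivity)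
        have a1 := min_le_right |s - t| (1 / 2 : ℝ)
        have a2 : min |s - t| (1 / 2 : ℝ) * (1 / |s - t|) ≤ 1 := by
          rw [mul_one_div, div_le_one hu']
          exact min_le_left _ _
        rw [mul_add, mul_one]
        linarith
    _ = _ := by ring

end N1

end PB

end
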