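import Pool.Agent.PB.WaveK
import Pool.Agent.PB.TailQ

/-!
# Plan B: the kernels of the quadratic statistic in the strip

`ξ` analytic in `|Im z| < b`, `‖ξ' z‖ ≤ K e^{-c |Re z|}`, plateaus `xp`, `xm`.
* `Ek ξ h z w = dslope ξ z w * h (z - w)`, `h = hX` or `hY`: the local part of
  `(ξ z - ξ w) (log pair factor)' (z - w)`;
* `TC`: the complex form of `PB.N1.Tloc`;
* `El σ ξ h xp xm = Ek ξ h + 2 σ TC`: the local kernel, analytic in both variables and
  `≤ C K e^{-a max (|Re z|, |Re w|)}`.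
-/

set_option autoImplicit false

open Complex Set Filter Topology MeasureTheory

noncomputable section

namespace PBV

open NUMF (l r r_eq r_pos r_lt_one l_pos)

/-- the field -/
structure XiA (ξ : ℂ → ℂ) (b K c : ℝ) (xp xm : ℂ) : Prop where
  K0 : 0 ≤ K
  c0 : 0 ≤ c
  b0 : 0 < b
  an : ∀ z : ℂ, |z.im| ≤ b → DifferentiableAt ℂ ξ z
  db : ∀ z : ℂ, |z.im| ≤ b → ‖deriv ξ z‖ ≤ K * Real.exp (-(c * |z.re|))
  pp : ∀ z : ℂ, |z.im| ≤ b → 0 ≤ z.re → ‖ξ z - xp‖ ≤ K * Real.exp (-(c * |z.re|))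
  pm : ∀ z : ℂ, |z.im| ≤ b → z.re ≤ 0 → ‖ξ z - xm‖ ≤ K * Real.exp (-(c * |z.re|))

/-- derivative bound from the plateau bounds -/
theorem XiA.of_plateau {ξ : ℂ → ℂ} {b b' K c : ℝ} {xp xm : ℂ} (hb : 0 < b) (hbb : b < b') (hK : 0 ≤ K)
    (hc : 0 ≤ c) (an : ∀ z : ℂ, |z.im| ≤ b' → DifferentiableAt ℂ ξ z)
    (pp : ∀ z : ℂ, |z.im| ≤ b' → 0 ≤ z.re → ‖ξ z - xp‖ ≤ K * Real.exp (-(c * |z.re|)))
    (pm : ∀ z : ℂ, |z.im| ≤ b' → z.re ≤ 0 → ‖ξ z - xm‖ ≤ K * Real.exp (-(c * |z.re|))) :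
    XiA ξ b ((K + ‖xp - xm‖) * (1 + Real.exp (c * (b' - b)) / (b' - b))) c xp xm := by
  have hδ : 0 < b' - b := by linarith
  set δ := b' - b with hδd
  have hA : 0 ≤ K + ‖xp - xm‖ := by positivity
  have hC : K ≤ (K + ‖xp - xm‖) * (1 + Real.exp (c * δ) / δ) := by
    have h1 : 0 ≤ Real.exp (c * δ) / δ := by positivity
    calc K ≤ (K + ‖xp - xm‖) * 1 := by linarith [norm_nonneg (xp - xm)]
      _ ≤ _ := by gcongr; linarith
  have hC2 : (K + ‖xp - xm‖) * (Real.exp (c * δ) / δ) ≤ (K + ‖xp - xm‖) * (1 + Real.exp (c * δ) / δ) := by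
    gcongr; linarith
  -- bounds of `ξ - xp` for `re ≥ -δ`, of `ξ - xm` for `re ≤ δ`
  have q1 : ∀ z : ℂ, |z.im| ≤ b' → -δ ≤ z.re → ‖ξ z - xp‖ ≤ (K + ‖xp - xm‖) * Real.exp (-(c * z.re)) := by
    intro z hz hre
    rcases le_total 0 z.re with h | h
    · have := pp z hz h
      rw [abs_of_nonneg h] at this
      refine this.trans ?_
      gcongr
      linarith [norm_nonneg (xp - xm)]
    · have h1 := pm z hz h
      have h2 : Real.exp (-(c * |z.re|)) ≤ 1 := Real.exp_le_one_iff.2 (by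
        have := mul_nonneg hc (abs_nonneg z.re); linarith)
      have h3 : 1 ≤ Real.exp (-(c * z.re)) := Real.one_le_exp (by nlinarith)
      calc ‖ξ z - xp‖ = ‖(ξ z - xm) - (xp - xm)‖ := by congr 1; ring
        _ ≤ ‖ξ z - xm‖ + ‖xp - xm‖ := norm_sub_le _ _
        _ ≤ K * 1 + ‖xp - xm‖ := by
            have := mul_le_mul_of_nonneg_left h2 hK
            linarith
        _ = (K + ‖xp - xm‖) * 1 := by ring
        _ ≤ _ := by gcongr
  have q2 : ∀ z : ℂ, |z.im| ≤ b' → z.re ≤ δ → ‖ξ z - xm‖ ≤ (K + ‖xp - xm‖) * Real.exp (c * z.re) := by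
    intro z hz hre
    rcases le_total z.re 0 with h | h
    · have := pm z hz h
      rw [abs_of_nonpos h] at this
      refine this.trans ?_
      rw [show -(c * -z.re) = c * z.re by ring]
      gcongr
      linarith [norm_nonneg (xp - xm)]
    · have h1 := pp z hz h
      have h2 : Real.exp (-(c * |z.re|)) ≤ 1 := Real.exp_le_one_iff.2 (by
        have := mul_nonneg hc (abs_nonneg z.re); linarith)
      have h3 : 1 ≤ Real.exp (c * z.re) := Real.one_le_exp (by nlinarith)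
      calc ‖ξ z - xm‖ = ‖(ξ z - xp) + (xp - xm)‖ := by congr 1; ring
        _ ≤ ‖ξ z - xp‖ + ‖xp - xm‖ := norm_add_le _ _
        _ ≤ K * 1 + ‖xp - xm‖ := by
            have := mul_le_mul_of_nonneg_left h2 hK
            linarith
        _ = (K + ‖xp - xm‖) * 1 := by ring
        _ ≤ _ := by gcongr
  refine ⟨by positivity, hc, hb, fun z hz => an z (hz.trans hbb.le), fun z hz => ?_,
    fun z hz h => (pp z (hz.trans hbb.le) h).trans (by gcongr),
    fun z hz h => (pm z (hz.trans hbb.le) h).trans (by gcongr)⟩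
  have hz' := abs_le.1 hz
  have hball : ∀ w ∈ Metric.closedBall z δ, |w.im| ≤ b' ∧ |w.re - z.re| ≤ δ := by
    intro w hw
    rw [Metric.mem_closedBall, dist_eq_norm] at hw
    have h1 := (Complex.abs_im_le_norm (w - z)).trans hw
    have h2 := (Complex.abs_re_le_norm (w - z)).trans hw
    rw [sub_im] at h1
    rw [sub_re] at h2
    refine ⟨?_, h2⟩
    have h3 := abs_le.1 h1
    rw [abs_le]
    constructor <;> linarith
  have hdc : ∀ x : ℂ, DiffContOnCl ℂ (fun w => ξ w - x) (Metric.ball z δ) := by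
    intro x
    have h1 : DifferentiableOn ℂ (fun w => ξ w - x) (Metric.closedBall z δ) := fun w hw =>
      ((an w (hball w hw).1).sub_const x).differentiableWithinAt
    rw [← closure_ball z hδ.ne'] at h1
    exact h1.diffContOnCl
  have hder : ∀ x : ℂ, deriv (fun w => ξ w - x) z = deriv ξ z := by
    intro x
    exact deriv_sub_const _
  refine le_trans ?_ (mul_le_mul_of_nonneg_right hC2 (Real.exp_pos _).le)
  rcases le_total 0 z.re with h | h
  · have := Complex.norm_deriv_le_of_forall_mem_sphere_norm_le (C := (K + ‖xp - xm‖) *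
      Real.exp (-(c * (z.re - δ)))) hδ (hdc xp) (fun w hw => by
      have hw' := hball w (Metric.sphere_subset_closedBall hw)
      have h4 := abs_le.1 hw'.2
      refine (q1 w hw'.1 (by linarith)).trans ?_
      gcongr
      linarith)
    rw [hder] at this
    refine this.trans (le_of_eq ?_)
    rw [abs_of_nonneg h, show -(c * (z.re - δ)) = c * δ + -(c * z.re) by ring, Real.exp_add]
    ring
  · have := Complex.norm_deriv_le_of_forall_mem_sphere_norm_le (C := (K + ‖xp - xm‖) *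
      Real.exp (c * (z.re + δ))) hδ (hdc xm) (fun w hw => by
      have hw' := hball w (Metric.sphere_subset_closedBall hw)
      have h4 := abs_le.1 hw'.2
      refine (q2 w hw'.1 (by linarith)).trans ?_
      gcongr
      linarith)
    rw [hder] at this
    refine this.trans (le_of_eq ?_)
    rw [abs_of_nonpos h, show c * (z.re + δ) = c * δ + -(c * -z.re) by ring, Real.exp_add]
    ring

/-! ### the difference quotient -/

/-- kernel `(ξ z - ξ w)/(z - w) * h (z - w)` -/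
def Ek (ξ h : ℂ → ℂ) (z w : ℂ) : ℂ := dslope ξ z w * h (z - w)

lemma Ek_ne {ξ h : ℂ → ℂ} {z w : ℂ} (hzw : z ≠ w) : Ek ξ h z w = (ξ z - ξ w) / (z - w) * h (z - w) := by
  unfold Ek
  rw [dslope_of_ne _ hzw.symm, slope_def_field, ← neg_sub (ξ z), ← neg_sub z w, neg_div_neg_eq]

lemma Ek_same {ξ h : ℂ → ℂ} (z : ℂ) : Ek ξ h z z = deriv ξ z * h 0 := by
  unfold Ek; rw [dslope_same, sub_self]

lemma Ek_symm {ξ h : ℂ → ℂ} (hh : ∀ u, h (-u) = h u) (z w : ℂ) : Ek ξ h z w = Ek ξ h w z := by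
  by_cases e : z = w
  · rw [e]
  · rw [Ek_ne e, Ek_ne (Ne.symm e), ← hh (z - w), neg_sub, ← neg_sub (ξ w) (ξ z), ← neg_sub w z, neg_div_neg_eq]

/-- the smallest `|re|` between two points -/
def mre (x y : ℝ) : ℝ := if 0 ≤ x * y then min |x| |y| else 0

lemma mre_nonneg (x y : ℝ) : 0 ≤ mre x y := by
  unfold mre; split_ifs <;> positivity

lemma mre_key {a c : ℝ} (ha : 0 ≤ a) (hac : a ≤ c) (x y : ℝ) :
    a * max |x| |y| ≤ c * mre x y + a * |x - y| := by
  unfold mre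
  split_ifs with h
  · have h1 : |x - y| = max |x| |y| - min |x| |y| := by
      rcases mul_nonneg_iff.1 h with ⟨hx, hy⟩ | ⟨hx, hy⟩
      · rw [abs_of_nonneg hx, abs_of_nonneg hy]
        rcases le_total x y with h2 | h2
        · rw [max_eq_right h2, min_eq_left h2, abs_of_nonpos (by linarith)]; ring
        · rw [max_eq_left h2, min_eq_right h2, abs_of_nonneg (by linarith)]
      · rw [abs_of_nonpos hx, abs_of_nonpos hy]
        rcases le_total x y with h2 | h2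
        · rw [max_eq_left (by linarith), min_eq_right (by linarith), abs_of_nonpos (by linarith)]; ring
        · rw [max_eq_right (by linarith), min_eq_left (by linarith), abs_of_nonneg (by linarith)]; ring
    rw [h1]
    have h2 : 0 ≤ min |x| |y| := by positivity
    nlinarith
  · have h1 : |x - y| = |x| + |y| := by
      rcases le_total 0 x with hx | hx
      · have hy : y < 0 := by
          by_contra hy
          exact h (mul_nonneg hx (not_lt.1 hy))
        rw [abs_of_nonneg hx, abs_of_neg hy, abs_of_nonneg (by linarith)]; ring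
      · have hy : 0 < y := by
          by_contra hy
          exact h (mul_nonneg_of_nonpos_of_nonpos hx (not_lt.1 hy))
        rw [abs_of_nonpos hx, abs_of_pos hy, abs_of_nonpos (by linarith)]; ring
    rw [h1, mul_zero, zero_add]
    refine mul_le_mul_of_nonneg_left (max_le ?_ ?_) ha
    · linarith [abs_nonneg y]
    · linarith [abs_nonneg x]

lemma mre_key2 {a c : ℝ} (hac : 2 * a ≤ c) (x y : ℝ) :
    a * (|x| + |y|) ≤ c * mre x y + a * |x - y| := by
  unfold mre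
  split_ifs with h
  · have h1 : |x - y| = |x| + |y| - 2 * min |x| |y| := by
      rcases mul_nonneg_iff.1 h with ⟨hx, hy⟩ | ⟨hx, hy⟩
      · rw [abs_of_nonneg hx, abs_of_nonneg hy]
        rcases le_total x y with h2 | h2
        · rw [min_eq_left h2, abs_of_nonpos (by linarith)]; ring
        · rw [min_eq_right h2, abs_of_nonneg (by linarith)]; ring
      · rw [abs_of_nonpos hx, abs_of_nonpos hy]
        rcases le_total x y with h2 | h2
        · rw [min_eq_right (by linarith), abs_of_nonpos (by linarith)]; ring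
        · rw [min_eq_left (by linarith), abs_of_nonneg (by linarith)]; ring
    rw [h1]
    have h2 : 0 ≤ min |x| |y| := by positivity
    nlinarith
  · have h1 : |x - y| = |x| + |y| := by
      rcases le_total 0 x with hx | hx
      · have hy : y < 0 := by
          by_contra hy
          exact h (mul_nonneg hx (not_lt.1 hy))
        rw [abs_of_nonneg hx, abs_of_neg hy, abs_of_nonneg (by linarith)]; ring
      · have hy : 0 < y := by
          by_contra hy
          exact h (mul_nonneg_of_nonpos_of_nonpos hx (not_lt.1 hy))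
        rw [abs_of_nonpos hx, abs_of_pos hy, abs_of_nonpos (by linarith)]; ring
    rw [h1, mul_zero, zero_add]

lemma seg_re {z w x : ℂ} (hx : x ∈ segment ℝ z w) : mre z.re w.re ≤ |x.re| := by
  obtain ⟨p, q, hp, hq, hpq, rfl⟩ := hx
  have e : (p • z + q • w).re = p * z.re + q * w.re := by simp
  rw [e]
  unfold mre
  split_ifs with h
  · rcases mul_nonneg_iff.1 h with ⟨h1, h2⟩ | ⟨h1, h2⟩
    · rw [abs_of_nonneg h1, abs_of_nonneg h2, abs_of_nonneg (by positivity)]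
      have m1 := min_le_left z.re w.re
      have m2 := min_le_right z.re w.re
      calc min z.re w.re = p * min z.re w.re + q * min z.re w.re := by rw [← add_mul, hpq, one_mul]
        _ ≤ _ := by gcongr
    · rw [abs_of_nonpos h1, abs_of_nonpos h2, abs_of_nonpos (by nlinarith)]
      have m1 := min_le_left (-z.re) (-w.re)
      have m2 := min_le_right (-z.re) (-w.re)
      calc min (-z.re) (-w.re) = p * min (-z.re) (-w.re) + q * min (-z.re) (-w.re) := by
            rw [← add_mul, hpq, one_mul]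
        _ ≤ p * -z.re + q * -w.re := by gcongr
        _ = _ := by ring
  · exact abs_nonneg _

lemma seg_im {b : ℝ} {z w x : ℂ} (hz : |z.im| ≤ b) (hw : |w.im| ≤ b) (hx : x ∈ segment ℝ z w) : |x.im| ≤ b := by
  obtain ⟨p, q, hp, hq, hpq, rfl⟩ := hx
  have e : (p • z + q • w).im = p * z.im + q * w.im := by simp
  rw [e]
  refine (abs_add_le _ _).trans ?_
  rw [abs_mul, abs_mul, abs_of_nonneg hp, abs_of_nonneg hq]
  calc p * |z.im| + q * |w.im| ≤ p * b + q * b := by gcongr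
    _ = b := by rw [← add_mul, hpq, one_mul]

variable {ξ : ℂ → ℂ} {b K c : ℝ} {xp xm : ℂ}

theorem XiA.dslope_le (H : XiA ξ b K c xp xm) {z w : ℂ} (hz : |z.im| ≤ b) (hw : |w.im| ≤ b) :
    ‖dslope ξ z w‖ ≤ K * Real.exp (-(c * mre z.re w.re)) := by
  by_cases e : w = z
  · rw [e, dslope_same]
    refine (H.db z hz).trans (le_of_eq ?_)
    unfold mre
    rw [if_pos (mul_self_nonneg _), min_self]
  · rw [dslope_of_ne _ e, slope_def_field, norm_div]
    have hn : 0 < ‖w - z‖ := norm_pos_iff.2 (sub_ne_zero.2 e)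
    rw [div_le_iff₀ hn]
    refine Convex.norm_image_sub_le_of_norm_deriv_le (s := segment ℝ z w) (𝕜 := ℂ) (fun x hx => H.an x (seg_im hz hw hx))
      (fun x hx => ?_) (convex_segment z w) (left_mem_segment ℝ z w) (right_mem_segment ℝ z w)
    refine (H.db x (seg_im hz hw hx)).trans ?_
    have h1 := seg_re hx
    have h2 := H.c0
    have h3 := H.K0
    gcongr

/-- **bound of the kernel** -/
theorem XiA.Ek_le (H : XiA ξ b K c xp xm) {h : ℂ → ℂ} {C a : ℝ} (ha : 0 ≤ a) (hac : a ≤ c) (hC : 0 ≤ C)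
    {z w : ℂ} (hz : |z.im| ≤ b) (hw : |w.im| ≤ b) (hh : ‖h (z - w)‖ ≤ C * Real.exp (-(a * |(z - w).re|))) :
    ‖Ek ξ h z w‖ ≤ C * K * Real.exp (-(a * max |z.re| |w.re|)) := by
  unfold Ek
  rw [norm_mul]
  have h1 := H.dslope_le hz hw
  have h2 := mre_key ha hac z.re w.re
  have hK := H.K0
  calc ‖dslope ξ z w‖ * ‖h (z - w)‖ ≤ (K * Real.exp (-(c * mre z.re w.re))) *
        (C * Real.exp (-(a * |(z - w).re|))) := by gcongr
    _ = C * K * Real.exp (-(c * mre z.re w.re) + -(a * |z.re - w.re|)) := by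
        rw [Real.exp_add, sub_re]; ring
    _ ≤ _ := by
        refine mul_le_mul_of_nonneg_left (Real.exp_le_exp.2 ?_) (mul_nonneg hC hK)
        linarith

/-- **bound of the kernel, product of two exponentials** -/
theorem XiA.Ek_le2 (H : XiA ξ b K c xp xm) {h : ℂ → ℂ} {C a : ℝ} (ha : 0 ≤ a) (hac : 2 * a ≤ c) (hC : 0 ≤ C)
    {z w : ℂ} (hz : |z.im| ≤ b) (hw : |w.im| ≤ b) (hh : ‖h (z - w)‖ ≤ C * Real.exp (-(a * |(z - w).re|))) :
    ‖Ek ξ h z w‖ ≤ C * K * Real.exp (-(a * (|z.re| + |w.re|))) := by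
  unfold Ek
  rw [norm_mul]
  have h1 := H.dslope_le hz hw
  have h2 := mre_key2 hac z.re w.re
  have hK := H.K0
  calc ‖dslope ξ z w‖ * ‖h (z - w)‖ ≤ (K * Real.exp (-(c * mre z.re w.re))) *
        (C * Real.exp (-(a * |(z - w).re|))) := by gcongr
    _ = C * K * Real.exp (-(c * mre z.re w.re) + -(a * |z.re - w.re|)) := by
        rw [Real.exp_add, sub_re]; ring
    _ ≤ _ := by
        refine mul_le_mul_of_nonneg_left (Real.exp_le_exp.2 ?_) (mul_nonneg hC hK)
        linarith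

/-- analyticity in the second variable -/
theorem XiA.Ek_diff (H : XiA ξ b K c xp xm) {h : ℂ → ℂ} {z w : ℂ} (hz : |z.im| < b) (hw : |w.im| < b)
    (hh : DifferentiableAt ℂ h (z - w)) : DifferentiableAt ℂ (Ek ξ h z) w := by
  have hS : IsOpen {x : ℂ | |x.im| < b} := isOpen_lt (continuous_abs.comp continuous_im) continuous_const
  have h1 : DifferentiableOn ℂ ξ {x : ℂ | |x.im| < b} := fun x hx => (H.an x (le_of_lt hx)).differentiableWithinAt
  have h2 : DifferentiableOn ℂ (dslope ξ z) {x : ℂ | |x.im| < b} :=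
    (Complex.differentiableOn_dslope (hS.mem_nhds hz)).2 h1
  have h3 : DifferentiableAt ℂ (dslope ξ z) w := h2.differentiableAt (hS.mem_nhds hw)
  unfold Ek
  exact h3.mul (DifferentiableAt.comp w hh (by fun_prop))

lemma dslope_measurable {ξ : ℂ → ℂ} (hξ : Measurable ξ) : Measurable fun p : ℂ × ℂ => dslope ξ p.1 p.2 := by
  classical
  have e : (fun p : ℂ × ℂ => dslope ξ p.1 p.2) = fun p : ℂ × ℂ =>
      if p.2 = p.1 then deriv ξ p.1 else (ξ p.2 - ξ p.1) / (p.2 - p.1) := by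
    funext p
    split_ifs with h
    · rw [h, dslope_same]
    · rw [dslope_of_ne _ h, slope_def_field]
  rw [e]
  refine Measurable.ite (measurableSet_eq_fun measurable_snd measurable_fst)
    ((measurable_deriv ξ).comp measurable_fst) ?_
  exact ((hξ.comp measurable_snd).sub (hξ.comp measurable_fst)).div (measurable_snd.sub measurable_fst)

lemma Ek_measurable {ξ h : ℂ → ℂ} (hξ : Measurable ξ) (hh : Measurable h) :
    Measurable fun p : ℂ × ℂ => Ek ξ h p.1 p.2 := by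
  unfold Ek
  exact (dslope_measurable hξ).mul (hh.comp (measurable_fst.sub measurable_snd))

/-! ### the plateau part -/

/-- `tanh 2z` -/
def tgh (z : ℂ) : ℂ := sinh (2 * z) / cosh (2 * z)

/-- localised part of `-ξ` -/
def beC (ξ : ℂ → ℂ) (xp xm z : ℂ) : ℂ := (xp + xm) / 2 - ξ z + (xp - xm) / 2 * tgh z

/-- the localised remainder of `(ξ z - ξ w) tanh 2(z-w)` -/
def TC (ξ : ℂ → ℂ) (xp xm z w : ℂ) : ℂ :=
  -((xp - xm) / 2) * (cosh (2 * z) * cosh (2 * w) * cosh (2 * (z - w)))⁻¹ -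
    beC ξ xp xm z * (sinh (2 * z) / (cosh (2 * (z - w)) * cosh (2 * w))) -
    beC ξ xp xm w * (sinh (2 * w) / (cosh (2 * (z - w)) * cosh (2 * z)))

/-- the plateau part -/
def Pl (ξ : ℂ → ℂ) (xp xm z w : ℂ) : ℂ :=
  (xp - xm) / 2 + beC ξ xp xm z * tgh w + beC ξ xp xm w * tgh z - (xp - xm) / 2 * (tgh z * tgh w)

lemma cosh2_ne {z : ℂ} (hz : |z.im| ≤ l) : cosh (2 * z) ≠ 0 :=
  norm_pos_iff.1 (lt_of_lt_of_le (by have := r_pos; positivity) (norm_cosh_2u hz))

lemma tgh_add {z w : ℂ} (hw : |w.im| ≤ l) (hzw : |(z - w).im| ≤ l) :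
    tgh (z - w) + tgh w = sinh (2 * z) / (cosh (2 * (z - w)) * cosh (2 * w)) := by
  have c2 := cosh2_ne hw
  have c3 := cosh2_ne hzw
  unfold tgh
  rw [div_add_div _ _ c3 c2]
  congr 1
  have h := Complex.sinh_add (2 * (z - w)) (2 * w)
  rw [show 2 * (z - w) + 2 * w = 2 * z by ring] at h
  linear_combination -h

lemma tgh_sub {z w : ℂ} (hz : |z.im| ≤ l) (hzw : |(z - w).im| ≤ l) :
    tgh z - tgh (z - w) = sinh (2 * w) / (cosh (2 * (z - w)) * cosh (2 * z)) := by
  have c1 := cosh2_ne hz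
  have c3 := cosh2_ne hzw
  unfold tgh
  rw [div_sub_div _ _ c1 c3, mul_comm (cosh (2 * (z - w)))]
  congr 1
  have h := Complex.sinh_sub (2 * z) (2 * (z - w))
  rw [show 2 * z - 2 * (z - w) = 2 * w by ring] at h
  linear_combination -h

lemma tgh_key {z w : ℂ} (hz : |z.im| ≤ l) (hw : |w.im| ≤ l) (hzw : |(z - w).im| ≤ l) :
    (tgh z - tgh w) * tgh (z - w) - 1 + tgh z * tgh w =
      -(cosh (2 * z) * cosh (2 * w) * cosh (2 * (z - w)))⁻¹ := by
  have c1 := cosh2_ne hz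
  have c2 := cosh2_ne hw
  have c3 := cosh2_ne hzw
  have e : 2 * (z - w) = 2 * z - 2 * w := by ring
  have h1 : sinh (2 * z - 2 * w) = sinh (2 * z) * cosh (2 * w) - cosh (2 * z) * sinh (2 * w) := Complex.sinh_sub _ _
  have h2 : cosh (2 * z - 2 * w) = cosh (2 * z) * cosh (2 * w) - sinh (2 * z) * sinh (2 * w) := Complex.cosh_sub _ _
  have h3 := Complex.cosh_sq (2 * z)
  have h4 := Complex.cosh_sq (2 * w)
  unfold tgh
  rw [e] at c3 ⊢
  rw [h2] at c3 ⊢
  rw [h1]
  generalize sinh (2 * z) = a at *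
  generalize sinh (2 * w) = p at *
  generalize cosh (2 * z) = d at *
  generalize cosh (2 * w) = q at *
  have h5 : (d * q - a * p) ^ 2 - (a * q - d * p) ^ 2 = 1 := by
    have : (d * q - a * p) ^ 2 - (a * q - d * p) ^ 2 = (d ^ 2 - a ^ 2) * (q ^ 2 - p ^ 2) := by ring
    rw [this, h3, h4]; ring
  have h6 : (a / d - p / q) * ((a * q - d * p) / (d * q - a * p)) - 1 + a / d * (p / q) =
      -((d * q - a * p) ^ 2 - (a * q - d * p) ^ 2) / (d * q * (d * q - a * p)) := by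
    field_simp
    ring
  rw [h6, h5, neg_div, one_div]

/-- **the plateau identity** -/
theorem TC_eq (ξ : ℂ → ℂ) (xp xm : ℂ) {z w : ℂ} (hz : |z.im| ≤ l) (hw : |w.im| ≤ l)
    (hzw : |(z - w).im| ≤ l) :
    (ξ z - ξ w) * tgh (z - w) = Pl ξ xp xm z w + TC ξ xp xm z w := by
  unfold TC
  rw [← tgh_add hw hzw, ← tgh_sub hz hzw, show -((xp - xm) / 2) * (cosh (2 * z) * cosh (2 * w) * cosh (2 * (z - w)))⁻¹ =
    (xp - xm) / 2 * -(cosh (2 * z) * cosh (2 * w) * cosh (2 * (z - w)))⁻¹ by ring, ← tgh_key hz hw hzw]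
  unfold Pl beC
  ring

lemma one_sub_tgh {z : ℂ} (hz : |z.im| ≤ l) (h0 : 0 ≤ z.re) : ‖1 - tgh z‖ ≤ 2 / r * Real.exp (-(4 * |z.re|)) := by
  have c1 := cosh2_ne hz
  have b1 := norm_cosh_2u hz
  have hr := r_pos
  have e : 1 - tgh z = exp (-(2 * z)) * (cosh (2 * z))⁻¹ := by
    unfold tgh
    rw [← Complex.cosh_sub_sinh]
    field_simp
  rw [e, norm_mul, Complex.norm_exp, norm_inv]
  have e2 : (-(2 * z)).re = -(2 * |z.re|) := by rw [abs_of_nonneg h0]; simp
  rw [e2]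
  have hE := Real.exp_pos (2 * |z.re|)
  calc Real.exp (-(2 * |z.re|)) * ‖cosh (2 * z)‖⁻¹ ≤ Real.exp (-(2 * |z.re|)) * (r / 2 * Real.exp (2 * |z.re|))⁻¹ := by
        gcongr
    _ = 2 / r * (Real.exp (-(2 * |z.re|)) * Real.exp (-(2 * |z.re|))) := by
        rw [mul_inv, Real.exp_neg, inv_div]; ring
    _ = _ := by rw [← Real.exp_add]; congr 2; ring

lemma tgh_neg (z : ℂ) : tgh (-z) = -tgh z := by
  unfold tgh
  rw [mul_neg, sinh_neg, cosh_neg, neg_div]

lemma one_add_tgh {z : ℂ} (hz : |z.im| ≤ l) (h0 : z.re ≤ 0) : ‖1 + tgh z‖ ≤ 2 / r * Real.exp (-(4 * |z.re|)) := by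
  have := one_sub_tgh (z := -z) (by rwa [neg_im, abs_neg]) (by rw [neg_re]; linarith)
  rwa [tgh_neg, sub_neg_eq_add, neg_re, abs_neg] at this

theorem XiA.beC_le (H : XiA ξ b K c xp xm) (hc : 4 ≤ c) (hbl : b ≤ l) {z : ℂ} (hz : |z.im| ≤ b) :
    ‖beC ξ xp xm z‖ ≤ (K + ‖xp - xm‖ / r) * Real.exp (-(4 * |z.re|)) := by
  have hr := r_pos
  have hK := H.K0
  have hE : Real.exp (-(c * |z.re|)) ≤ Real.exp (-(4 * |z.re|)) :=
    Real.exp_le_exp.2 (by nlinarith [abs_nonneg z.re])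
  have n2 : ‖(xp - xm) / 2‖ = ‖xp - xm‖ / 2 := by rw [norm_div]; simp
  rcases le_total 0 z.re with h | h
  · have e : beC ξ xp xm z = -(ξ z - xp) - (xp - xm) / 2 * (1 - tgh z) := by unfold beC; ring
    rw [e]
    refine (norm_sub_le _ _).trans ?_
    rw [norm_neg, norm_mul, n2]
    calc ‖ξ z - xp‖ + ‖xp - xm‖ / 2 * ‖1 - tgh z‖ ≤ K * Real.exp (-(4 * |z.re|)) + ‖xp - xm‖ / 2 *
          (2 / r * Real.exp (-(4 * |z.re|))) := by
          gcongr
          · exact (H.pp z hz h).trans (by gcongr)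
          · exact one_sub_tgh (hz.trans hbl) h
      _ = _ := by field_simp
  · have e : beC ξ xp xm z = -(ξ z - xm) + (xp - xm) / 2 * (1 + tgh z) := by unfold beC; ring
    rw [e]
    refine (norm_add_le _ _).trans ?_
    rw [norm_neg, norm_mul, n2]
    calc ‖ξ z - xm‖ + ‖xp - xm‖ / 2 * ‖1 + tgh z‖ ≤ K * Real.exp (-(4 * |z.re|)) + ‖xp - xm‖ / 2 *
          (2 / r * Real.exp (-(4 * |z.re|))) := by
          gcongr
          · exact (H.pm z hz h).trans (by gcongr)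
          · exact one_add_tgh (hz.trans hbl) h
      _ = _ := by field_simp

lemma inv_cosh2_le {z : ℂ} (hz : |z.im| ≤ l) : ‖(cosh (2 * z))⁻¹‖ ≤ 2 / r * Real.exp (-(2 * |z.re|)) := by
  have hr := r_pos
  rw [norm_inv, Real.exp_neg, show 2 / r * (Real.exp (2 * |z.re|))⁻¹ = (r / 2 * Real.exp (2 * |z.re|))⁻¹ by
    rw [mul_inv, inv_div]]
  exact inv_anti₀ (by positivity) (norm_cosh_2u hz)

lemma sinh2_le (z : ℂ) : ‖sinh (2 * z)‖ ≤ Real.exp (2 * |z.re|) := by
  refine (norm_sinh_le _).trans ((cosh_le_exp _).trans (le_of_eq ?_))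
  rw [(two_mul_re_im z).1, abs_mul, abs_of_pos (two_pos : (0 : ℝ) < 2)]

/-- the remainder is localised in both variables -/
theorem XiA.TC_le (H : XiA ξ b K c xp xm) (hc : 4 ≤ c) (hbl : b ≤ l) {z w : ℂ} (hz : |z.im| ≤ b)
    (hw : |w.im| ≤ b) (hzw : |(z - w).im| ≤ l) :
    ‖TC ξ xp xm z w‖ ≤ 16 / r ^ 3 * (K + ‖xp - xm‖) * Real.exp (-(2 * |z.re| + 2 * |w.re|)) := by
  have hr := r_pos
  have hr1 := r_lt_one
  have hK := H.K0
  have i1 := inv_cosh2_le (hz.trans hbl)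
  have i2 := inv_cosh2_le (hw.trans hbl)
  have i3 := inv_cosh2_le hzw
  have s1 := sinh2_le z
  have s2 := sinh2_le w
  have b1 := H.beC_le hc hbl hz
  have b2 := H.beC_le hc hbl hw
  have n2 : ‖(xp - xm) / 2‖ = ‖xp - xm‖ / 2 := by rw [norm_div]; simp
  set X := Real.exp (-(2 * |z.re|)) with hX
  set Y := Real.exp (-(2 * |w.re|)) with hY
  have hXp : 0 < X := Real.exp_pos _
  have hYp : 0 < Y := Real.exp_pos _
  have hZ : Real.exp (-(2 * |(z - w).re|)) ≤ 1 := Real.exp_le_one_iff.2 (by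
    have := abs_nonneg (z - w).re; linarith)
  have e4 : ∀ x : ℝ, Real.exp (-(4 * |x|)) * Real.exp (2 * |x|) = Real.exp (-(2 * |x|)) := by
    intro x; rw [← Real.exp_add]; congr 1; ring
  have eXY : Real.exp (-(2 * |z.re| + 2 * |w.re|)) = X * Y := by
    rw [hX, hY, ← Real.exp_add]; congr 1; ring
  have hD : 0 ≤ ‖xp - xm‖ := norm_nonneg _
  have t1 : ‖-((xp - xm) / 2) * (cosh (2 * z) * cosh (2 * w) * cosh (2 * (z - w)))⁻¹‖ ≤
      4 / r ^ 3 * ‖xp - xm‖ * (X * Y) := by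
    rw [norm_mul, norm_neg, n2, mul_inv, mul_inv, norm_mul, norm_mul]
    calc ‖xp - xm‖ / 2 * (‖(cosh (2 * z))⁻¹‖ * ‖(cosh (2 * w))⁻¹‖ * ‖(cosh (2 * (z - w)))⁻¹‖) ≤
        ‖xp - xm‖ / 2 * ((2 / r * X) * (2 / r * Y) * (2 / r * 1)) := by
          gcongr
          exact i3.trans (by gcongr)
      _ = _ := by field_simp; ring
  have t2 : ‖beC ξ xp xm z * (sinh (2 * z) / (cosh (2 * (z - w)) * cosh (2 * w)))‖ ≤
      4 / r ^ 2 * (K + ‖xp - xm‖ / r) * (X * Y) := by
    rw [div_eq_mul_inv, mul_inv, norm_mul, norm_mul, norm_mul]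
    calc ‖beC ξ xp xm z‖ * (‖sinh (2 * z)‖ * (‖(cosh (2 * (z - w)))⁻¹‖ * ‖(cosh (2 * w))⁻¹‖)) ≤
        ((K + ‖xp - xm‖ / r) * Real.exp (-(4 * |z.re|))) * (Real.exp (2 * |z.re|) * ((2 / r * 1) * (2 / r * Y))) := by
          gcongr
          exact i3.trans (by gcongr)
      _ = 4 / r ^ 2 * (K + ‖xp - xm‖ / r) * ((Real.exp (-(4 * |z.re|)) * Real.exp (2 * |z.re|)) * Y) := by
          field_simp
          ring
      _ = _ := by rw [e4]
  have t3 : ‖beC ξ xp xm w * (sinh (2 * w) / (cosh (2 * (z - w)) * cosh (2 * z)))‖ ≤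
      4 / r ^ 2 * (K + ‖xp - xm‖ / r) * (X * Y) := by
    rw [div_eq_mul_inv, mul_inv, norm_mul, norm_mul, norm_mul]
    calc ‖beC ξ xp xm w‖ * (‖sinh (2 * w)‖ * (‖(cosh (2 * (z - w)))⁻¹‖ * ‖(cosh (2 * z))⁻¹‖)) ≤
        ((K + ‖xp - xm‖ / r) * Real.exp (-(4 * |w.re|))) * (Real.exp (2 * |w.re|) * ((2 / r * 1) * (2 / r * X))) := by
          gcongr
          exact i3.trans (by gcongr)
      _ = 4 / r ^ 2 * (K + ‖xp - xm‖ / r) * (X * (Real.exp (-(4 * |w.re|)) * Real.exp (2 * |w.re|))) := by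
          field_simp
          ring
      _ = _ := by rw [e4]
  unfold TC
  refine (norm_sub_le _ _).trans ((add_le_add ((norm_sub_le _ _).trans (add_le_add t1 t2)) t3).trans ?_)
  rw [eXY]
  have hr3 : 1 / r ^ 2 ≤ 1 / r ^ 3 := by
    refine one_div_le_one_div_of_le (by positivity) ?_
    exact pow_le_pow_of_le_one hr.le hr1.le (by norm_num)
  have k1 : 4 / r ^ 2 * (K + ‖xp - xm‖ / r) ≤ 4 / r ^ 3 * (K + ‖xp - xm‖) := by
    have e1 : 4 / r ^ 2 * (K + ‖xp - xm‖ / r) = 4 * K * (1 / r ^ 2) + 4 / r ^ 3 * ‖xp - xm‖ := by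
      field_simp
    have e2 : 4 / r ^ 3 * (K + ‖xp - xm‖) = 4 * K * (1 / r ^ 3) + 4 / r ^ 3 * ‖xp - xm‖ := by ring
    rw [e1, e2]
    gcongr
  have hXY : 0 < X * Y := mul_pos hXp hYp
  have k2 : 4 / r ^ 3 * ‖xp - xm‖ ≤ 4 / r ^ 3 * (K + ‖xp - xm‖) := by gcongr; linarith
  calc 4 / r ^ 3 * ‖xp - xm‖ * (X * Y) + 4 / r ^ 2 * (K + ‖xp - xm‖ / r) * (X * Y) +
        4 / r ^ 2 * (K + ‖xp - xm‖ / r) * (X * Y) ≤ 4 / r ^ 3 * (K + ‖xp - xm‖) * (X * Y) +
        4 / r ^ 3 * (K + ‖xp - xm‖) * (X * Y) + 4 / r ^ 3 * (K + ‖xp - xm‖) * (X * Y) := by gcongr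
    _ ≤ 16 / r ^ 3 * (K + ‖xp - xm‖) * (X * Y) := by
        have : 0 ≤ 4 / r ^ 3 * (K + ‖xp - xm‖) * (X * Y) := by positivity
        have e5 : 16 / r ^ 3 * (K + ‖xp - xm‖) * (X * Y) = 4 * (4 / r ^ 3 * (K + ‖xp - xm‖) * (X * Y)) := by ring
        rw [e5]; linarith

/-! ### analyticity and measurability of the plateau remainder -/

lemma tgh_diff {z : ℂ} (hz : |z.im| ≤ l) : DifferentiableAt ℂ tgh z := by
  unfold tgh
  exact DifferentiableAt.div (by fun_prop) (by fun_prop) (cosh2_ne hz)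

theorem XiA.beC_diff (H : XiA ξ b K c xp xm) (hbl : b ≤ l) {z : ℂ} (hz : |z.im| ≤ b) :
    DifferentiableAt ℂ (beC ξ xp xm) z := by
  unfold beC
  exact ((differentiableAt_const _).sub (H.an z hz)).add ((tgh_diff (hz.trans hbl)).const_mul _)

theorem XiA.TC_diff (H : XiA ξ b K c xp xm) (hbl : b ≤ l) {z w : ℂ} (hz : |z.im| ≤ b)
    (hw : |w.im| ≤ b) (hzw : |(z - w).im| ≤ l) : DifferentiableAt ℂ (TC ξ xp xm z) w := by
  have c1 := cosh2_ne (hz.trans hbl)
  have c2 := cosh2_ne (hw.trans hbl)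
  have c3 := cosh2_ne hzw
  have hb := H.beC_diff hbl hw
  have d1 : DifferentiableAt ℂ (fun w => cosh (2 * z) * cosh (2 * w) * cosh (2 * (z - w))) w := by fun_prop
  have d2 : DifferentiableAt ℂ (fun w => cosh (2 * (z - w)) * cosh (2 * w)) w := by fun_prop
  have d3 : DifferentiableAt ℂ (fun w => cosh (2 * (z - w)) * cosh (2 * z)) w := by fun_prop
  have d4 : DifferentiableAt ℂ (fun w : ℂ => sinh (2 * w)) w := by fun_prop
  have d5 : DifferentiableAt ℂ (fun _ : ℂ => sinh (2 * z)) w := differentiableAt_const _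
  have e1 := (d1.inv (mul_ne_zero (mul_ne_zero c1 c2) c3)).const_mul (-((xp - xm) / 2))
  have e2 := (d5.div d2 (mul_ne_zero c3 c2)).const_mul (beC ξ xp xm z)
  have e3 := hb.mul (d4.div d3 (mul_ne_zero c3 c1))
  exact (e1.sub e2).sub e3

lemma tgh_measurable : Measurable tgh := by
  unfold tgh
  have h1 : Measurable fun z : ℂ => sinh (2 * z) := (by fun_prop : Continuous _).measurable
  have h2 : Measurable fun z : ℂ => cosh (2 * z) := (by fun_prop : Continuous _).measurable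
  exact h1.div h2

lemma beC_measurable {ξ : ℂ → ℂ} (hξ : Measurable ξ) (xp xm : ℂ) : Measurable (beC ξ xp xm) := by
  unfold beC
  exact (measurable_const.sub hξ).add (tgh_measurable.const_mul _)

lemma TC_measurable {ξ : ℂ → ℂ} (hξ : Measurable ξ) (xp xm : ℂ) :
    Measurable fun p : ℂ × ℂ => TC ξ xp xm p.1 p.2 := by
  have hb := beC_measurable hξ xp xm
  have c1 : Measurable fun p : ℂ × ℂ => cosh (2 * p.1) := (by fun_prop : Continuous _).measurable
  have c2 : Measurable fun p : ℂ × ℂ => cosh (2 * p.2) := (by fun_prop : Continuous _).measurable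
  have c3 : Measurable fun p : ℂ × ℂ => cosh (2 * (p.1 - p.2)) := (by fun_prop : Continuous _).measurable
  have s1 : Measurable fun p : ℂ × ℂ => sinh (2 * p.1) := (by fun_prop : Continuous _).measurable
  have s2 : Measurable fun p : ℂ × ℂ => sinh (2 * p.2) := (by fun_prop : Continuous _).measurable
  unfold TC
  refine Measurable.sub (Measurable.sub ?_ ?_) ?_
  · exact (((c1.mul c2).mul c3).inv).const_mul _
  · exact (hb.comp measurable_fst).mul (s1.div (c3.mul c2))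
  · exact (hb.comp measurable_snd).mul (s2.div (c3.mul c1))

/-! ### the local kernels of the pairs of quanta -/

/-- local kernel of a pair: `σ = 1`, `h = hX` (same species), `σ = -1`, `h = hY` (different species) -/
def El (σ : ℂ) (ξ h : ℂ → ℂ) (xp xm z w : ℂ) : ℂ := Ek ξ h z w + 2 * σ * TC ξ xp xm z w

/-- the smooth function of a pair -/
def hb (s : Bool) : ℂ → ℂ := bif s then hX else hY

/-- the sign of a pair -/
def sb (s : Bool) : ℂ := bif s then 1 else -1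

/-- the force `(log pair factor)'` -/
def kf (s : Bool) (u : ℂ) : ℂ := hb s u / u + 2 * sb s * tgh u

lemma norm_sb (s : Bool) : ‖sb s‖ = 1 := by cases s <;> simp [sb]

/-- **the kernel = local part + plateau part** -/
theorem El_eq (s : Bool) (ξ : ℂ → ℂ) (xp xm : ℂ) {z w : ℂ} (hz : |z.im| ≤ l) (hw : |w.im| ≤ l)
    (hzw : |(z - w).im| ≤ l) (hne : z ≠ w) :
    (ξ z - ξ w) * kf s (z - w) = El (sb s) ξ (hb s) xp xm z w + 2 * sb s * Pl ξ xp xm z w := by
  have h1 := TC_eq ξ xp xm hz hw hzw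
  unfold El kf
  rw [Ek_ne hne]
  linear_combination (2 * sb s) * h1

/-- the diagonal -/
theorem El_diag (s : Bool) (ξ : ℂ → ℂ) (xp xm : ℂ) {z : ℂ} (hz : |z.im| ≤ l) :
    deriv ξ z * hb s 0 = El (sb s) ξ (hb s) xp xm z z + 2 * sb s * Pl ξ xp xm z z := by
  have h1 := TC_eq ξ xp xm hz hz (by rw [sub_self]; simpa using l_pos.le)
  unfold El
  rw [Ek_same]
  rw [sub_self, zero_mul] at h1
  linear_combination (2 * sb s) * h1

lemma hb_even (s : Bool) (u : ℂ) : hb s (-u) = hb s u := by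
  cases s
  · exact hY_neg u
  · exact hX_neg u

lemma kf_real (s : Bool) {u : ℝ} (hu : u ≠ 0) :
    kf s u = ((if s then Pool.Agent.PB.Kw u else Pool.Agent.PB.Kg u : ℝ) : ℂ) := by
  have hu' : (u : ℂ) ≠ 0 := by exact_mod_cast hu
  have ht : tgh (u : ℂ) = ((Real.tanh (2 * u) : ℝ) : ℂ) := by
    unfold tgh
    rw [Real.tanh_eq_sinh_div_cosh]
    push_cast; rfl
  unfold kf
  rw [ht]
  cases s
  · simp only [hb, sb, cond_false, Bool.false_eq_true, if_false]
    rw [hY_real]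
    push_cast
    field_simp
    ring
  · simp only [hb, sb, cond_true, if_true]
    rw [hX_real hu]
    push_cast
    field_simp
    ring

theorem hb_bound (s : Bool) {a Y : ℝ} (ha : a < 2) (hY : Y < l) : ∃ C : ℝ, 0 ≤ C ∧ ∀ u : ℂ, |u.im| ≤ Y →
    ‖hb s u‖ ≤ C * Real.exp (-(a * |u.re|)) := by
  cases s
  · obtain ⟨C, hC, h⟩ := hY_bound ha
    exact ⟨C, hC, fun u hu => h u (hu.trans hY.le)⟩
  · exact hX_bound ha hY

lemma hb_diff (s : Bool) {u : ℂ} (hu : |u.im| < l) : DifferentiableAt ℂ (hb s) u := by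
  cases s
  · exact hY_diff hu.le
  · exact hX_diff hu

lemma hb_measurable (s : Bool) : Measurable (hb s) := by
  cases s
  · exact hY_measurable
  · exact hX_measurable

lemma El_measurable (s : Bool) {ξ : ℂ → ℂ} (hξ : Measurable ξ) (xp xm : ℂ) :
    Measurable fun p : ℂ × ℂ => El (sb s) ξ (hb s) xp xm p.1 p.2 := by
  unfold El
  exact (Ek_measurable hξ (hb_measurable s)).add ((TC_measurable hξ xp xm).const_mul _)

/-- **bound of the local kernel**, any rate `a < 2` -/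
theorem El_bound (s : Bool) {a Y : ℝ} (ha0 : 0 ≤ a) (ha : a < 2) (hY : Y < l) : ∃ C : ℝ, 0 ≤ C ∧
    ∀ {ξ : ℂ → ℂ} {b K c : ℝ} {xp xm : ℂ}, XiA ξ b K c xp xm → 4 ≤ c → b ≤ l → ∀ z w : ℂ, |z.im| ≤ b →
      |w.im| ≤ b → |(z - w).im| ≤ Y →
      ‖El (sb s) ξ (hb s) xp xm z w‖ ≤ C * (K + ‖xp - xm‖) * Real.exp (-(a * max |z.re| |w.re|)) := by
  obtain ⟨C, hC, h⟩ := hb_bound s ha hY
  have hr := r_pos
  refine ⟨C + 32 / r ^ 3, by positivity, fun {ξ b K c xp xm} H hc hbl z w hz hw hzw => ?_⟩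
  have hK := H.K0
  have h1 := H.Ek_le ha0 (by linarith) hC hz hw (h _ hzw)
  have h2 := H.TC_le hc hbl hz hw (hzw.trans hY.le)
  have h3 : Real.exp (-(2 * |z.re| + 2 * |w.re|)) ≤ Real.exp (-(a * max |z.re| |w.re|)) := by
    refine Real.exp_le_exp.2 ?_
    have h4 : max |z.re| |w.re| ≤ |z.re| + |w.re| :=
      max_le (by linarith [abs_nonneg w.re]) (by linarith [abs_nonneg z.re])
    have h5 : 0 ≤ max |z.re| |w.re| := by positivity
    nlinarith
  unfold El
  refine (norm_add_le _ _).trans ?_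
  have n2 : ‖2 * sb s‖ = 2 := by rw [norm_mul, norm_sb]; simp
  rw [norm_mul, n2]
  have hD : 0 ≤ ‖xp - xm‖ := norm_nonneg _
  calc ‖Ek ξ (hb s) z w‖ + 2 * ‖TC ξ xp xm z w‖ ≤ C * K * Real.exp (-(a * max |z.re| |w.re|)) +
        2 * (16 / r ^ 3 * (K + ‖xp - xm‖) * Real.exp (-(a * max |z.re| |w.re|))) := by
        gcongr
        exact h2.trans (by gcongr)
    _ ≤ C * (K + ‖xp - xm‖) * Real.exp (-(a * max |z.re| |w.re|)) +
        2 * (16 / r ^ 3 * (K + ‖xp - xm‖) * Real.exp (-(a * max |z.re| |w.re|))) := by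
        gcongr
        linarith
    _ = _ := by ring

/-- **bound of the local kernel, product of two exponentials**, any rate `a < 2` -/
theorem El_bound2 (s : Bool) {a Y : ℝ} (ha0 : 0 ≤ a) (ha : a < 2) (hY : Y < l) : ∃ C : ℝ, 0 ≤ C ∧
    ∀ {ξ : ℂ → ℂ} {b K c : ℝ} {xp xm : ℂ}, XiA ξ b K c xp xm → 4 ≤ c → b ≤ l → ∀ z w : ℂ, |z.im| ≤ b →
      |w.im| ≤ b → |(z - w).im| ≤ Y →
      ‖El (sb s) ξ (hb s) xp xm z w‖ ≤ C * (K + ‖xp - xm‖) * Real.exp (-(a * (|z.re| + |w.re|))) := by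
  obtain ⟨C, hC, h⟩ := hb_bound s ha hY
  have hr := r_pos
  refine ⟨C + 32 / r ^ 3, by positivity, fun {ξ b K c xp xm} H hc hbl z w hz hw hzw => ?_⟩
  have hK := H.K0
  have h1 := H.Ek_le2 ha0 (by linarith) hC hz hw (h _ hzw)
  have h2 := H.TC_le hc hbl hz hw (hzw.trans hY.le)
  have h3 : Real.exp (-(2 * |z.re| + 2 * |w.re|)) ≤ Real.exp (-(a * (|z.re| + |w.re|))) := by
    refine Real.exp_le_exp.2 ?_
    nlinarith [abs_nonneg z.re, abs_nonneg w.re]
  unfold El
  refine (norm_add_le _ _).trans ?_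
  have n2 : ‖2 * sb s‖ = 2 := by rw [norm_mul, norm_sb]; simp
  rw [norm_mul, n2]
  have hD : 0 ≤ ‖xp - xm‖ := norm_nonneg _
  calc ‖Ek ξ (hb s) z w‖ + 2 * ‖TC ξ xp xm z w‖ ≤ C * K * Real.exp (-(a * (|z.re| + |w.re|))) +
        2 * (16 / r ^ 3 * (K + ‖xp - xm‖) * Real.exp (-(a * (|z.re| + |w.re|)))) := by
        gcongr
        exact h2.trans (by gcongr)
    _ ≤ C * (K + ‖xp - xm‖) * Real.exp (-(a * (|z.re| + |w.re|))) +
        2 * (16 / r ^ 3 * (K + ‖xp - xm‖) * Real.exp (-(a * (|z.re| + |w.re|)))) := by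
        gcongr
        linarith
    _ = _ := by ring

theorem El_diff (s : Bool) (H : XiA ξ b K c xp xm) (hbl : b ≤ l) {z w : ℂ} (hz : |z.im| < b)
    (hw : |w.im| < b) (hzw : |(z - w).im| < l) : DifferentiableAt ℂ (El (sb s) ξ (hb s) xp xm z) w := by
  unfold El
  exact (H.Ek_diff hz hw (hb_diff s hzw)).add ((H.TC_diff hbl hz.le hw.le hzw.le).const_mul _)

/-- **product form of the local kernel**: `z` in the strip `|Im z| ≤ y₀`-type set, `w` between the lines -/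
theorem El_decomp (s : Bool) {a α y₁ y₂ Y : ℝ} (ha0 : 0 ≤ a) (ha : a < 2) (hY : Y < l) (hα : 0 < α)
    (hαy : α * (y₂ - y₁) < Real.pi) (H : XiA ξ b K c xp xm) (hc : 4 ≤ c) (hbl : b ≤ l)
    (hy1 : |y₁| < b) (hy2 : |y₂| < b) {z : ℂ} (hz : |z.im| < b) (hz1 : |z.im - y₁| ≤ Y)
    (hz2 : |z.im - y₂| ≤ Y) {w : ℂ} (hw : w ∈ So y₁ y₂) :
    Integrable (fun q => AE (El (sb s) ξ (hb s) xp xm) y₁ y₂ q z * BE α y₁ y₂ q w) wm ∧
      El (sb s) ξ (hb s) xp xm z w =
        ∫ q, AE (El (sb s) ξ (hb s) xp xm) y₁ y₂ q z * BE α y₁ y₂ q w ∂wm := by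
  obtain ⟨C, hC, hbd⟩ := El_bound s ha0 ha hY
  have hK := H.K0
  have hst : ∀ x ∈ St y₁ y₂, |x.im| < b ∧ |(z - x).im| ≤ Y := by
    intro x hx
    have h1 := abs_lt.1 hy1
    have h2 := abs_lt.1 hy2
    have h3 := abs_le.1 hz1
    have h4 := abs_le.1 hz2
    refine ⟨?_, ?_⟩
    · rw [abs_lt]; constructor <;> linarith [hx.1, hx.2]
    · rw [sub_im, abs_le]; constructor <;> linarith [hx.1, hx.2]
  have hd : ∀ x ∈ St y₁ y₂, DifferentiableAt ℂ (El (sb s) ξ (hb s) xp xm z) x := fun x hx =>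
    El_diff s H hbl hz (hst x hx).1 (lt_of_le_of_lt (hst x hx).2 hY)
  refine decomp_idx (β := 0) (M := C * (K + ‖xp - xm‖)) hα hαy hα
    (fun x hx => (hd x hx).continuousAt.continuousWithinAt)
    (fun x hx => (hd x (So_sub_St _ _ hx)).differentiableWithinAt) (fun x hx => ?_) hw
  refine (hbd H hc hbl z x hz.le (hst x hx).1.le (hst x hx).2).trans ?_
  rw [zero_mul, Real.exp_zero]
  refine mul_le_mul_of_nonneg_left (Real.exp_le_one_iff.2 ?_) (by positivity)
  have : 0 ≤ a * max |z.re| |x.re| := by positivity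
  linarith

end PBV

end
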