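import Pool.Agent.PB.MFh
import Pool.Agent.PB.WaveE

/-!
# The kernel of a species dependent field: local part (helper55)

`X b` analytic and bounded in a strip, `‖X b z‖ ≤ S min 1 (exp ((L - |Re z|) / 2))`.  The kernel
`aC X b c z w` of the second Ward identity (`PB/MFh`) is

`aC X b c z w = EL X b c z w - 2 ε_b ε_c (X b z tgh w + X c w tgh z)`, `ε = ±1`,

`EL` analytic in `w`, `‖EL‖ ≤ C S min 1 (exp ((L - |Re w|) / 2))` uniformly in `z`.

* `psw_hX`, `Kgc_hY`: the two pair kernels with `hX`, `hY`, `tgh` of `PB/WaveK`, `PB/WaveE`;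
* `EL`, **`aC_EL`**, `EL_diff`, `EL_measurable`;
* **`EL_le`**: the bound, the constant depends on the strips only.
-/

set_option autoImplicit false
set_option linter.unusedSectionVars false

noncomputable section

open Complex MeasureTheory Set Filter Topology

namespace PB

open NUMF (l)
open PBK Pool.Agent.PB PBV

/-! ### the pair kernels -/

/-- sign of a species -/
def eps (b : Bool) : ℂ := if b then 1 else -1

theorem eps_mul_self (b : Bool) : eps b * eps b = 1 := by
  cases b <;> simp [eps]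

theorem eps_ne {b c : Bool} (h : b ≠ c) : eps b * eps c = -1 := by
  cases b <;> cases c <;> simp_all [eps]

theorem norm_eps (b : Bool) : ‖eps b‖ = 1 := by
  cases b <;> simp [eps]

theorem dsh_shc (w : ℂ) : dsh w = shc w := rfl

/-- `w Kw w` with the local part -/
theorem psw_hX {w : ℂ} (hw : |w.im| < l) : psw w = hX w + 2 * w * tgh w := by
  have n1 : shc w ≠ 0 := dsh_ne hw
  have n2 : cosh (2 * w) ≠ 0 := cosh_two_ne hw
  have n3 : cosh (2 * w) - (NUMF.r : ℂ) ≠ 0 := cosh_sub_r_ne hw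
  have h1 := Complex.cosh_two_mul w
  have h2 := Complex.sinh_two_mul w
  have h3 := Complex.cosh_sq w
  have h4 := shc_mul w
  unfold psw hX tgh
  rw [dsh_shc]
  have e1 : 2 * cosh w / shc w = 2 * (1 - (NUMF.r : ℂ)) * cosh w / (shc w * (cosh (2 * w) - NUMF.r)) +
      w * (2 * sinh (2 * w) / (cosh (2 * w) - NUMF.r)) := by
    rw [h1, ← h4] at n3
    rw [h2, h1, ← h4]
    rw [← h4] at h3
    clear h1 h2 n2 h4
    generalize cosh w = C at *
    generalize shc w = s at *
    obtain ⟨D, hD⟩ : ∃ D, D = C ^ 2 + (w * s) ^ 2 - (NUMF.r : ℂ) := ⟨_, rfl⟩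
    rw [← hD] at n3 ⊢
    field_simp
    linear_combination C * hD + C * h3
  rw [e1]
  ring

theorem Kgc_hY {w : ℂ} (hw : |w.im| < l) : w * Kgc w = hY w - 2 * w * tgh w := by
  have n1 : cosh w ≠ 0 := cosh_ne hw
  have n2 : cosh (2 * w) ≠ 0 := cosh_two_ne hw
  have n3 : cosh (2 * w) + (NUMF.r : ℂ) ≠ 0 := cosh_add_r_ne hw
  have n4 := cosh_add_one_ne hw
  have h1 := Complex.cosh_two_mul w
  have h2 := Complex.sinh_two_mul w
  have h3 := Complex.cosh_sq w
  have h5 : sinh (3 * w) = sinh w * (4 * cosh w ^ 2 - 1) := by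
    rw [Complex.sinh_three_mul]
    linear_combination (-4 * sinh w) * h3
  have e4 : cosh (2 * w) + 1 = 2 * cosh w ^ 2 := by
    rw [h1]
    linear_combination -h3
  have e5 : cosh (2 * w) = 2 * cosh w ^ 2 - 1 := by
    rw [h1]
    linear_combination -h3
  unfold Kgc hY tgh
  rw [e4, h5, h2]
  rw [e5] at n2 n3 ⊢
  generalize cosh w = C at *
  generalize sinh w = s at *
  field_simp
  ring

/-- the kernel of different species without the plateau -/
theorem norm_Kgt_le {w : ℂ} (hw : |w.im| ≤ l) :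
    ‖Kgc w + 2 * tgh w‖ ≤ 64 / NUMF.r ^ 2 * Real.exp (-(2 * |w.re|)) := by
  have hr := NUMF.r_pos
  have hr1 := NUMF.r_lt_one
  have b1 := norm_cosh_2u hw
  have b2 := norm_cosh_2u_add hw
  have hE := Real.exp_pos (2 * |w.re|)
  have b3 : NUMF.r / 2 * Real.exp (2 * |w.re|) ≤ ‖cosh (2 * w) + 1‖ := by
    have hw2 : |(2 * w).im| ≤ Real.pi / 4 := by
      have e : (2 * w).im = 2 * w.im := by simp
      rw [e, abs_mul, abs_two]
      have : l = Real.pi / 8 := rfl
      linarith
    have h1 := cosh_re_ge hw2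
    have h2 : (2 * w).re = 2 * w.re := by simp
    rw [h2] at h1
    have h3 : Real.exp (2 * |w.re|) ≤ 2 * Real.cosh (2 * w.re) := by
      rw [← Real.cosh_abs, abs_mul, abs_two, Real.cosh_eq]
      have := Real.exp_pos (-(2 * |w.re|))
      linarith
    have h4 : (cosh (2 * w) + 1).re = (cosh (2 * w)).re + 1 := by simp
    have h5 := Complex.re_le_norm (cosh (2 * w) + 1)
    rw [h4] at h5
    nlinarith
  have n1 : cosh (2 * w) ≠ 0 := norm_pos_iff.1 (lt_of_lt_of_le (by positivity) b1)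
  have n2 : cosh (2 * w) + (NUMF.r : ℂ) ≠ 0 := norm_pos_iff.1 (lt_of_lt_of_le (by positivity) b2)
  have n3 : cosh (2 * w) + 1 ≠ 0 := norm_pos_iff.1 (lt_of_lt_of_le (by positivity) b3)
  have hs : ‖sinh (2 * w)‖ ≤ Real.exp (2 * |w.re|) := by
    refine (norm_sinh_le (2 * w)).trans ?_
    have h2 : (2 * w).re = 2 * w.re := by simp
    rw [h2, ← Real.cosh_abs, abs_mul, abs_two, Real.cosh_eq]
    have : Real.exp (-(2 * |w.re|)) ≤ Real.exp (2 * |w.re|) :=
      Real.exp_le_exp.2 (by linarith [abs_nonneg w.re])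
    linarith
  have e : Kgc w + 2 * tgh w = -(2 * (sinh (2 * w) / (cosh (2 * w) * (cosh (2 * w) + 1)))) +
      4 * NUMF.r * (sinh (2 * w) / (cosh (2 * w) * (cosh (2 * w) + NUMF.r))) := by
    unfold Kgc tgh
    field_simp
    ring
  have hq : ∀ a b : ℂ, NUMF.r / 2 * Real.exp (2 * |w.re|) ≤ ‖a‖ →
      NUMF.r / 2 * Real.exp (2 * |w.re|) ≤ ‖b‖ →
      ‖sinh (2 * w) / (a * b)‖ ≤ 4 / NUMF.r ^ 2 * Real.exp (-(2 * |w.re|)) := by
    intro a b ha hb
    have hp : 0 < NUMF.r / 2 * Real.exp (2 * |w.re|) := by positivity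
    rw [norm_div, norm_mul, div_le_iff₀ (mul_pos (hp.trans_le ha) (hp.trans_le hb))]
    calc ‖sinh (2 * w)‖ ≤ Real.exp (2 * |w.re|) := hs
      _ = 4 / NUMF.r ^ 2 * Real.exp (-(2 * |w.re|)) * ((NUMF.r / 2 * Real.exp (2 * |w.re|)) *
          (NUMF.r / 2 * Real.exp (2 * |w.re|))) := by
          rw [Real.exp_neg]
          field_simp
          ring
      _ ≤ _ := by gcongr
  rw [e]
  refine (norm_add_le _ _).trans ?_
  rw [norm_neg, norm_mul, norm_mul, norm_mul]
  have m2 : ‖(2 : ℂ)‖ = 2 := by simp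
  have m4 : ‖(4 : ℂ)‖ = 4 := by simp
  have mr : ‖(NUMF.r : ℂ)‖ = NUMF.r := by
    rw [Complex.norm_real, Real.norm_of_nonneg hr.le]
  rw [m2, m4, mr]
  have q1 := hq _ _ b1 b3
  have q2 := hq _ _ b1 b2
  have hpos : 0 ≤ 4 / NUMF.r ^ 2 * Real.exp (-(2 * |w.re|)) := by positivity
  calc _ ≤ 2 * (4 / NUMF.r ^ 2 * Real.exp (-(2 * |w.re|))) +
        4 * 1 * (4 / NUMF.r ^ 2 * Real.exp (-(2 * |w.re|))) := by gcongr
    _ ≤ 64 / NUMF.r ^ 2 * Real.exp (-(2 * |w.re|)) := by
        have : 64 / NUMF.r ^ 2 = 16 * (4 / NUMF.r ^ 2) := by ring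
        rw [this]
        linarith

/-! ### the weight -/

/-- `min 1 (exp ((L - |x|) / 2))` -/
def WL (L x : ℝ) : ℝ := min 1 (Real.exp ((L - |x|) / 2))

theorem WL_pos (L x : ℝ) : 0 < WL L x := lt_min one_pos (Real.exp_pos _)

theorem WL_le_one (L x : ℝ) : WL L x ≤ 1 := min_le_left _ _

theorem WL_shift (L x y : ℝ) : WL L x ≤ Real.exp (|x - y| / 2) * WL L y := by
  unfold WL
  rw [mul_min_of_nonneg _ _ (Real.exp_pos _).le, mul_one, ← Real.exp_add]
  refine min_le_min (Real.one_le_exp (by positivity)) (Real.exp_le_exp.2 ?_)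
  have h1 : |y| ≤ |x - y| + |x| := by
    have := abs_sub_abs_le_abs_sub y x
    rw [abs_sub_comm] at this
    linarith
  linarith

/-- the weight against the plateau correction -/
theorem WL_plateau (L x y : ℝ) :
    WL L x * Real.exp (2 * |x| - 2 * |x - y| - 2 * |y|) ≤ WL L y := by
  have h1 : |x| ≤ |x - y| + |y| := by
    have := abs_sub_abs_le_abs_sub x y
    linarith
  have h2 : |y| ≤ |x - y| + |x| := by
    have := abs_sub_abs_le_abs_sub y x
    rw [abs_sub_comm] at this
    linarith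
  have h3 : 2 * |x| - 2 * |x - y| - 2 * |y| ≤ 0 := by linarith
  have h4 : 2 * |x| - 2 * |x - y| - 2 * |y| ≤ (|x| - |y|) / 2 := by
    rcases le_total |x| |y| with h | h <;> linarith
  unfold WL
  rw [min_mul_of_nonneg _ _ (Real.exp_pos _).le, one_mul, ← Real.exp_add]
  exact min_le_min (Real.exp_le_one_iff.2 h3) (Real.exp_le_exp.2 (by linarith))

theorem WL_measurable (L : ℝ) : Measurable (WL L) := by
  unfold WL
  fun_prop

/-- `∫ W ≤ 2 L + 4` -/
theorem WL_int {L : ℝ} (hL : 0 ≤ L) : Integrable (WL L) ∧ ∫ x, WL L x = 2 * L + 4 := by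
  have h1 : IntegrableOn (fun x : ℝ => min 1 (Real.exp ((L - x) / 2))) (Ioc 0 L) := by
    refine Measure.integrableOn_of_bounded (M := 1) (by simp)
      (Measurable.aestronglyMeasurable (by fun_prop)) (Eventually.of_forall fun x => ?_)
    rw [Real.norm_of_nonneg (le_min zero_le_one (Real.exp_pos _).le)]
    exact min_le_left _ _
  have e1 : ∫ x in Ioc 0 L, min 1 (Real.exp ((L - x) / 2)) = L := by
    have : ∫ x in Ioc 0 L, min 1 (Real.exp ((L - x) / 2)) = ∫ x in Ioc 0 L, (1 : ℝ) := by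
      refine setIntegral_congr_fun measurableSet_Ioc fun x hx => ?_
      exact min_eq_left (Real.one_le_exp (by linarith [hx.2]))
    rw [this]
    simp [hL]
  have e0 : ∀ x : ℝ, Real.exp ((L - x) / 2) = Real.exp (L / 2) * Real.exp (-(1 / 2) * x) := by
    intro x
    rw [← Real.exp_add]
    congr 1
    ring
  have h2' : IntegrableOn (fun x : ℝ => Real.exp ((L - x) / 2)) (Ioi L) := by
    simp only [e0]
    exact (integrableOn_exp_mul_Ioi (by norm_num) L).const_mul _
  have c2 : ∀ x ∈ Ioi L, min 1 (Real.exp ((L - x) / 2)) = Real.exp ((L - x) / 2) := fun x hx =>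
    min_eq_right (Real.exp_le_one_iff.2 (by linarith [mem_Ioi.1 hx]))
  have h2 : IntegrableOn (fun x : ℝ => min 1 (Real.exp ((L - x) / 2))) (Ioi L) :=
    h2'.congr_fun (fun x hx => (c2 x hx).symm) measurableSet_Ioi
  have e2 : ∫ x in Ioi L, min 1 (Real.exp ((L - x) / 2)) = 2 := by
    rw [setIntegral_congr_fun measurableSet_Ioi c2]
    simp only [e0]
    rw [integral_const_mul, integral_exp_mul_Ioi (by norm_num)]
    have : Real.exp (L / 2) * Real.exp (-(1 / 2) * L) = 1 := by
      rw [← Real.exp_add]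
      have : L / 2 + -(1 / 2) * L = 0 := by ring
      rw [this, Real.exp_zero]
    rw [mul_div_assoc', mul_neg, this]
    norm_num
  have h3 : IntegrableOn (fun x : ℝ => min 1 (Real.exp ((L - x) / 2))) (Ioi 0) := by
    rw [← Ioc_union_Ioi_eq_Ioi hL]
    exact h1.union h2
  have e3 : ∫ x in Ioi 0, min 1 (Real.exp ((L - x) / 2)) = L + 2 := by
    rw [← Ioc_union_Ioi_eq_Ioi hL, setIntegral_union (Ioc_disjoint_Ioi le_rfl) measurableSet_Ioi
      h1 h2, e1, e2]
  have e4 := integral_comp_abs (f := fun x => min 1 (Real.exp ((L - x) / 2)))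
  refine ⟨?_, ?_⟩
  · refine ((NUP1.integrable_exp_neg_abs (by norm_num : (0 : ℝ) < 1 / 2)).const_mul
      (Real.exp (L / 2))).mono' (WL_measurable L).aestronglyMeasurable
        (Eventually.of_forall fun x => ?_)
    rw [Real.norm_of_nonneg (WL_pos L x).le, ← Real.exp_add]
    refine (min_le_right _ _).trans (Real.exp_le_exp.2 ?_)
    linarith
  · unfold WL
    rw [e4, e3]
    ring

/-! ### the local part of the kernel -/

/-- bounded analytic fields with a far decay -/
structure XBd (b1 S L : ℝ) (X : Bool → ℂ → ℂ) : Prop where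
  m : ∀ b, Measurable (X b)
  d : ∀ b (z : ℂ), |z.im| < b1 → DifferentiableAt ℂ (X b) z
  bd : ∀ b (z : ℂ), |z.im| < b1 → ‖X b z‖ ≤ S * WL L z.re

theorem XBd.fld {b1 S L : ℝ} {X : Bool → ℂ → ℂ} (h : XBd b1 S L X) (hS : 0 ≤ S) : FldF b1 X where
  d := h.d
  bd := ⟨S, hS, fun b z hz => (h.bd b z hz).trans (mul_le_of_le_one_right hS (WL_le_one _ _))⟩

/-- **the local part of the kernel** -/
def EL (X : Bool → ℂ → ℂ) (b c : Bool) (z w : ℂ) : ℂ :=
  (if b = c then dslope (X b) z w * hX (z - w) else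
    (X b z - X c w) * (Kgc (z - w) + 2 * tgh (z - w))) +
  2 * (eps b * eps c) * (X b z * (tgh (z - w) + tgh w) - X c w * (tgh (z - w) - tgh z))

/-- **the kernel of the field is the local part and a product** -/
theorem aC_EL (X : Bool → ℂ → ℂ) (b c : Bool) {z w : ℂ} (h : |(z - w).im| < l) :
    aC X b c z w = EL X b c z w - 2 * (eps b * eps c) * (X b z * tgh w + X c w * tgh z) := by
  unfold aC EL
  split_ifs with hbc
  · subst hbc
    rw [eps_mul_self, psw_hX h]
    have e : dslope (X b) z w * (z - w) = X b z - X b w := by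
      have := sub_smul_dslope (X b) z w
      rw [smul_eq_mul] at this
      linear_combination -this
    linear_combination (2 * tgh (z - w)) * e
  · rw [eps_ne hbc]
    ring

theorem EL_symm (X : Bool → ℂ → ℂ) (b c : Bool) {z w : ℂ} (h : |(z - w).im| < l) :
    EL X b c z w = EL X c b w z := by
  have h' : |(w - z).im| < l := by
    rw [← neg_sub, Complex.neg_im, abs_neg]
    exact h
  have e1 := aC_EL X b c h
  have e2 := aC_EL X c b h'
  rw [aC_symm X b c z w, e2] at e1
  linear_combination -e1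

theorem tgh_diff {w : ℂ} (h : |w.im| < l) : DifferentiableAt ℂ tgh w := by
  have n2 : cosh (2 * w) ≠ 0 := cosh_two_ne h
  unfold tgh
  exact DifferentiableAt.div (by fun_prop) (by fun_prop) n2

theorem EL_diff {b1 S L : ℝ} {X : Bool → ℂ → ℂ} (hX : XBd b1 S L X) (hS : 0 ≤ S)
    (hb : 2 * b1 ≤ l) (b c : Bool) {z w : ℂ} (hz : |z.im| < b1) (hw : |w.im| < b1) :
    DifferentiableAt ℂ (fun w => EL X b c z w) w := by
  have hl := NUP1.Bd.l_pos
  have hl' : (0 : ℝ) < l := hl
  have h1 : DifferentiableAt ℂ (fun w => aC X b c z w) w := diff_aC (hX.fld hS) hb hz b c hw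
  have h2 : DifferentiableAt ℂ (fun w => aC X b c z w +
      2 * (eps b * eps c) * (X b z * tgh w + X c w * tgh z)) w := by
    have h3 := tgh_diff (w := w) (by linarith [abs_nonneg w.im])
    have h4 := hX.d c w hw
    exact h1.add ((((h3.const_mul _)).add (h4.mul_const _)).const_mul _)
  have ho : ∀ᶠ w' in 𝓝 w, |w'.im| < b1 := (strip_open b1).mem_nhds hw
  refine h2.congr_of_eventuallyEq (ho.mono fun w' hw' => ?_)
  have him : |(z - w').im| < l := by
    rw [Complex.sub_im]
    have := abs_sub z.im w'.im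
    linarith
  simp only
  rw [aC_EL X b c him]
  ring

theorem Kgc_measurable : Measurable Kgc := by
  unfold Kgc
  have h1 : Measurable fun u : ℂ => 2 * sinh (2 * u) := (by fun_prop : Continuous _).measurable
  have h2 : Measurable fun u : ℂ => cosh (2 * u) + 1 := (by fun_prop : Continuous _).measurable
  have h3 : Measurable fun u : ℂ => 4 * sinh (2 * u) := (by fun_prop : Continuous _).measurable
  have h4 : Measurable fun u : ℂ => cosh (2 * u) + ((NUMF.r : ℝ) : ℂ) :=
    (by fun_prop : Continuous _).measurable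
  exact (h1.div h2).sub (h3.div h4)

theorem EL_measurable {X : Bool → ℂ → ℂ} (hm : ∀ b, Measurable (X b)) (b c : Bool) :
    Measurable fun p : ℂ × ℂ => EL X b c p.1 p.2 := by
  have hs : Measurable fun p : ℂ × ℂ => p.1 - p.2 := measurable_fst.sub measurable_snd
  have h1 : Measurable fun p : ℂ × ℂ => dslope (X b) p.1 p.2 * hX (p.1 - p.2) :=
    (dslope_measurable (hm b)).mul (hX_measurable.comp hs)
  have h2 : Measurable fun p : ℂ × ℂ => (X b p.1 - X c p.2) * (Kgc (p.1 - p.2) + 2 * tgh (p.1 - p.2)) :=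
    (((hm b).comp measurable_fst).sub ((hm c).comp measurable_snd)).mul
      ((Kgc_measurable.comp hs).add ((tgh_measurable.comp hs).const_mul _))
  have h3 : Measurable fun p : ℂ × ℂ => 2 * (eps b * eps c) * (X b p.1 * (tgh (p.1 - p.2) + tgh p.2) -
      X c p.2 * (tgh (p.1 - p.2) - tgh p.1)) :=
    ((((hm b).comp measurable_fst).mul ((tgh_measurable.comp hs).add
      (tgh_measurable.comp measurable_snd))).sub (((hm c).comp measurable_snd).mul
        ((tgh_measurable.comp hs).sub (tgh_measurable.comp measurable_fst)))).const_mul _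
  unfold EL
  by_cases hbc : b = c
  · simp only [if_pos hbc]
    exact h1.add h3
  · simp only [if_neg hbc]
    exact h2.add h3

/-- bound of `tgh z + tgh w` -/
theorem tgh_add_le {z w : ℂ} (hw : |w.im| ≤ l) (hzw : |(z - w).im| ≤ l) :
    ‖tgh (z - w) + tgh w‖ ≤ 4 / NUMF.r ^ 2 *
      Real.exp (2 * |z.re| - 2 * |z.re - w.re| - 2 * |w.re|) := by
  have hr := NUMF.r_pos
  rw [tgh_add hw hzw]
  have b1 := norm_cosh_2u hw
  have b2 := norm_cosh_2u hzw
  have hs : ‖sinh (2 * z)‖ ≤ Real.exp (2 * |z.re|) := by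
    refine (norm_sinh_le (2 * z)).trans ?_
    have h2 : (2 * z).re = 2 * z.re := by simp
    rw [h2, ← Real.cosh_abs, abs_mul, abs_two, Real.cosh_eq]
    have : Real.exp (-(2 * |z.re|)) ≤ Real.exp (2 * |z.re|) :=
      Real.exp_le_exp.2 (by linarith [abs_nonneg z.re])
    linarith
  rw [Complex.sub_re] at b2
  have p1 : 0 < NUMF.r / 2 * Real.exp (2 * |w.re|) := by positivity
  have p2 : 0 < NUMF.r / 2 * Real.exp (2 * |z.re - w.re|) := by positivity
  rw [norm_div, norm_mul, div_le_iff₀ (mul_pos (p2.trans_le b2) (p1.trans_le b1))]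
  calc ‖sinh (2 * z)‖ ≤ Real.exp (2 * |z.re|) := hs
    _ = 4 / NUMF.r ^ 2 * Real.exp (2 * |z.re| - 2 * |z.re - w.re| - 2 * |w.re|) *
        ((NUMF.r / 2 * Real.exp (2 * |z.re - w.re|)) * (NUMF.r / 2 * Real.exp (2 * |w.re|))) := by
        have e : Real.exp (2 * |z.re|) = Real.exp (2 * |z.re| - 2 * |z.re - w.re| - 2 * |w.re|) *
            (Real.exp (2 * |z.re - w.re|) * Real.exp (2 * |w.re|)) := by
          rw [← Real.exp_add, ← Real.exp_add]
          congr 1
          ring
        rw [e]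
        field_simp
        ring
    _ ≤ _ := by gcongr

theorem tgh_sub_le {z w : ℂ} (hz : |z.im| ≤ l) (hzw : |(z - w).im| ≤ l) :
    ‖tgh (z - w) - tgh z‖ ≤ 4 / NUMF.r ^ 2 := by
  have hr := NUMF.r_pos
  have him : |(-w - -z).im| ≤ l := by
    have : -w - -z = z - w := by ring
    rw [this]
    exact hzw
  have h1 := tgh_add_le (z := -w) (w := -z) (by rwa [Complex.neg_im, abs_neg]) him
  have e : tgh (-z) = -tgh z := by
    unfold tgh
    rw [mul_neg, Complex.sinh_neg, Complex.cosh_neg, neg_div]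
  rw [show -w - -z = z - w by ring, e] at h1
  refine h1.trans (mul_le_of_le_one_right (by positivity) (Real.exp_le_one_iff.2 ?_))
  rw [Complex.neg_re, Complex.neg_re, abs_neg, abs_neg]
  have h2 := abs_sub_abs_le_abs_sub w.re z.re
  have h3 : |-w.re - -z.re| = |w.re - z.re| := by
    rw [show -w.re - -z.re = -(w.re - z.re) by ring, abs_neg]
  rw [h3]
  linarith

/-- the derivative of the field -/
theorem XBd.deriv_le {b0 b1 S L : ℝ} (hb : b0 < b1) (hS : 0 ≤ S) {X : Bool → ℂ → ℂ}
    (hX : XBd b1 S L X) (b : Bool) {z : ℂ} (hz : |z.im| ≤ b0) :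
    ‖deriv (X b) z‖ ≤ S * (Real.exp (b1 - b0) / ((b1 - b0) / 2)) * WL L z.re := by
  have hδ : 0 < (b1 - b0) / 2 := by linarith
  have h1 := strip_deriv (f := X b) hb (c := 0) le_rfl hS (hX.d b) (fun z hz => by
    rw [zero_mul, neg_zero, Real.exp_zero, mul_one]
    exact (hX.bd b z hz).trans (mul_le_of_le_one_right hS (WL_le_one _ _))) hz
  have h2 := strip_deriv (f := X b) hb (c := 1 / 2) (by norm_num)
    (A := S * Real.exp (L / 2)) (by positivity) (hX.d b) (fun z hz => by
    refine (hX.bd b z hz).trans ?_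
    rw [mul_assoc, ← Real.exp_add]
    refine mul_le_mul_of_nonneg_left ((min_le_right _ _).trans (Real.exp_le_exp.2 ?_)) hS
    linarith) hz
  rw [zero_mul, zero_mul, neg_zero, Real.exp_zero, mul_one, mul_one] at h1
  have hE : 1 ≤ Real.exp (b1 - b0) := Real.one_le_exp (by linarith)
  have hE2 : Real.exp (1 / 2 * ((b1 - b0) / 2)) ≤ Real.exp (b1 - b0) :=
    Real.exp_le_exp.2 (by linarith)
  unfold WL
  rw [mul_min_of_nonneg _ _ (by positivity), mul_one]
  refine le_min (h1.trans ?_) (h2.trans ?_)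
  · rw [mul_div_assoc']
    exact div_le_div_of_nonneg_right (le_mul_of_one_le_right hS hE) hδ.le
  · have e : Real.exp ((L - |z.re|) / 2) = Real.exp (L / 2) * Real.exp (-(1 / 2 * |z.re|)) := by
      rw [← Real.exp_add]
      congr 1
      ring
    rw [e]
    calc S * Real.exp (L / 2) * Real.exp (1 / 2 * ((b1 - b0) / 2)) / ((b1 - b0) / 2) *
          Real.exp (-(1 / 2 * |z.re|))
        ≤ S * Real.exp (L / 2) * Real.exp (b1 - b0) / ((b1 - b0) / 2) *
          Real.exp (-(1 / 2 * |z.re|)) := by gcongr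
      _ = _ := by ring

/-- the divided difference -/
theorem XBd.dslope_le {b0 b1 S L : ℝ} (hb : b0 < b1) (hS : 0 ≤ S) {X : Bool → ℂ → ℂ}
    (hX : XBd b1 S L X) (b : Bool) {z w : ℂ} (hz : |z.im| ≤ b0) (hw : |w.im| ≤ b0) :
    ‖dslope (X b) z w‖ ≤ S * (Real.exp (b1 - b0) / ((b1 - b0) / 2)) *
      (Real.exp (|z.re - w.re| / 2) * WL L w.re) := by
  have hδ : 0 < (b1 - b0) / 2 := by linarith
  obtain ⟨K, hK⟩ : ∃ K : ℝ, K = S * (Real.exp (b1 - b0) / ((b1 - b0) / 2)) := ⟨_, rfl⟩
  have hK0 : 0 ≤ K := by rw [hK]; positivity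
  rw [← hK]
  have hd : ∀ ζ : ℂ, |ζ.im| ≤ b0 → ‖deriv (X b) ζ‖ ≤ K * WL L ζ.re := fun ζ hζ => by
    rw [hK]
    exact hX.deriv_le hb hS b hζ
  by_cases h0 : w = z
  · subst h0
    rw [dslope_same]
    refine (hd w hw).trans (mul_le_mul_of_nonneg_left ?_ hK0)
    rw [sub_self, abs_zero, zero_div, Real.exp_zero, one_mul]
  · rw [dslope_of_ne _ h0, slope_def_field, norm_div]
    have hne : 0 < ‖w - z‖ := norm_pos_iff.2 (sub_ne_zero.2 h0)
    rw [div_le_iff₀ hne]
    have hseg : ∀ ζ ∈ segment ℝ z w, |ζ.im| ≤ b0 ∧ |ζ.re - w.re| ≤ |z.re - w.re| := by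
      intro ζ hζ
      obtain ⟨s, t, hs, ht, hst, rfl⟩ := hζ
      have e1 : (s • z + t • w).im = s * z.im + t * w.im := by simp
      have e2 : (s • z + t • w).re - w.re = s * (z.re - w.re) := by
        have : (s • z + t • w).re = s * z.re + t * w.re := by simp
        rw [this]
        have ht' : t = 1 - s := by linarith
        rw [ht']
        ring
      rw [e1, e2, abs_mul, abs_of_nonneg hs]
      constructor
      · refine (abs_add_le _ _).trans ?_
        rw [abs_mul, abs_mul, abs_of_nonneg hs, abs_of_nonneg ht]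
        calc s * |z.im| + t * |w.im| ≤ s * b0 + t * b0 := by gcongr
          _ = b0 := by rw [← add_mul, hst, one_mul]
      · exact mul_le_of_le_one_left (abs_nonneg _) (by linarith)
    have key := Convex.norm_image_sub_le_of_norm_hasDerivWithin_le (𝕜 := ℂ) (f := X b)
      (f' := deriv (X b)) (s := segment ℝ z w) (x := z) (y := w)
      (C := K * (Real.exp (|z.re - w.re| / 2) * WL L w.re))
      (fun ζ hζ => (hX.d b ζ ((hseg ζ hζ).1.trans_lt hb)).hasDerivAt.hasDerivWithinAt)
      (fun ζ hζ => by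
        refine (hd ζ (hseg ζ hζ).1).trans (mul_le_mul_of_nonneg_left ?_ hK0)
        refine (WL_shift L ζ.re w.re).trans ?_
        refine mul_le_mul_of_nonneg_right (Real.exp_le_exp.2 ?_) (WL_pos _ _).le
        linarith [(hseg ζ hζ).2]) (convex_segment z w) (left_mem_segment ℝ z w)
        (right_mem_segment ℝ z w)
    exact key

/-- **the bound of the local part** -/
theorem EL_le {b0 b1 : ℝ} (hb00 : 0 ≤ b0) (hb : b0 < b1) (hl : 2 * b0 < l) :
    ∃ C : ℝ, 0 ≤ C ∧ ∀ (S L : ℝ) (X : Bool → ℂ → ℂ), 0 ≤ S → XBd b1 S L X →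
      ∀ (b c : Bool) (z w : ℂ), |z.im| ≤ b0 → |w.im| ≤ b0 → ‖EL X b c z w‖ ≤ C * S * WL L w.re := by
  have hδ : 0 < (b1 - b0) / 2 := by linarith
  have hr := NUMF.r_pos
  obtain ⟨Ch, hCh, hh⟩ := hX_bound (a := 1) (Y := 2 * b0) (by norm_num) hl
  obtain ⟨K, hK⟩ : ∃ K : ℝ, K = Real.exp (b1 - b0) / ((b1 - b0) / 2) := ⟨_, rfl⟩
  have hK0 : 0 ≤ K := by rw [hK]; positivity
  refine ⟨K * Ch + 2 * (64 / NUMF.r ^ 2) + 4 * (4 / NUMF.r ^ 2), by positivity,
    fun S L X hS HX b c z w hz hw => ?_⟩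
  have hzw : |(z - w).im| ≤ 2 * b0 := by
    rw [Complex.sub_im]
    have := abs_sub z.im w.im
    linarith
  have hW := WL_pos L w.re
  have hz1 : |z.im| < b1 := hz.trans_lt hb
  have hw1 : |w.im| < b1 := hw.trans_lt hb
  have B1 := HX.bd b z hz1
  have B2 := HX.bd c w hw1
  have hl0 : |z.im| ≤ l := by linarith
  have hl1 : |w.im| ≤ l := by linarith
  have T1 := tgh_add_le hl1 (hzw.trans hl.le)
  have T2 := tgh_sub_le hl0 (hzw.trans hl.le)
  -- the plateau terms
  have P1 : ‖X b z * (tgh (z - w) + tgh w)‖ ≤ S * (4 / NUMF.r ^ 2) * WL L w.re := by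
    rw [norm_mul]
    calc ‖X b z‖ * ‖tgh (z - w) + tgh w‖ ≤ (S * WL L z.re) * (4 / NUMF.r ^ 2 *
          Real.exp (2 * |z.re| - 2 * |z.re - w.re| - 2 * |w.re|)) :=
          mul_le_mul B1 T1 (norm_nonneg _) (mul_nonneg hS (WL_pos _ _).le)
      _ = S * (4 / NUMF.r ^ 2) * (WL L z.re *
          Real.exp (2 * |z.re| - 2 * |z.re - w.re| - 2 * |w.re|)) := by ring
      _ ≤ _ := mul_le_mul_of_nonneg_left (WL_plateau _ _ _) (by positivity)
  have P2 : ‖X c w * (tgh (z - w) - tgh z)‖ ≤ S * (4 / NUMF.r ^ 2) * WL L w.re := by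
    rw [norm_mul]
    calc ‖X c w‖ * ‖tgh (z - w) - tgh z‖ ≤ (S * WL L w.re) * (4 / NUMF.r ^ 2) :=
          mul_le_mul B2 T2 (norm_nonneg _) (mul_nonneg hS hW.le)
      _ = _ := by ring
  -- the local terms
  have P3 : ‖if b = c then dslope (X b) z w * hX (z - w) else
      (X b z - X c w) * (Kgc (z - w) + 2 * tgh (z - w))‖ ≤
      (K * Ch + 2 * (64 / NUMF.r ^ 2)) * S * WL L w.re := by
    split_ifs with hbc
    · have D := HX.dslope_le hb hS b hz hw
      rw [← hK] at D
      have H := hh (z - w) hzw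
      rw [Complex.sub_re, one_mul] at H
      rw [norm_mul]
      calc ‖dslope (X b) z w‖ * ‖hX (z - w)‖ ≤
            (S * K * (Real.exp (|z.re - w.re| / 2) * WL L w.re)) *
              (Ch * Real.exp (-|z.re - w.re|)) :=
            mul_le_mul D H (norm_nonneg _) (by positivity)
        _ = K * Ch * S * WL L w.re * (Real.exp (|z.re - w.re| / 2) *
              Real.exp (-|z.re - w.re|)) := by ring
        _ ≤ K * Ch * S * WL L w.re * 1 := by
            refine mul_le_mul_of_nonneg_left ?_ (by positivity)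
            rw [← Real.exp_add, Real.exp_le_one_iff]
            linarith [abs_nonneg (z.re - w.re)]
        _ ≤ _ := by
            have : 0 ≤ 2 * (64 / NUMF.r ^ 2) * S * WL L w.re := by positivity
            nlinarith
    · have H := norm_Kgt_le (w := z - w) (hzw.trans hl.le)
      rw [Complex.sub_re] at H
      rw [norm_mul]
      have H2 : ‖X b z - X c w‖ * Real.exp (-(2 * |z.re - w.re|)) ≤ 2 * S * WL L w.re := by
        have h3 : ‖X b z - X c w‖ ≤ S * WL L z.re + S * WL L w.re :=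
          (norm_sub_le _ _).trans (add_le_add B1 B2)
        have h4 : WL L z.re * Real.exp (-(2 * |z.re - w.re|)) ≤ WL L w.re := by
          refine (mul_le_mul_of_nonneg_right (WL_shift L z.re w.re) (Real.exp_pos _).le).trans ?_
          have e : Real.exp (|z.re - w.re| / 2) * WL L w.re * Real.exp (-(2 * |z.re - w.re|)) =
              WL L w.re * Real.exp (|z.re - w.re| / 2 + -(2 * |z.re - w.re|)) := by
            rw [Real.exp_add]
            ring
          rw [e]
          refine mul_le_of_le_one_right hW.le (Real.exp_le_one_iff.2 ?_)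
          linarith [abs_nonneg (z.re - w.re)]
        have h5 : Real.exp (-(2 * |z.re - w.re|)) ≤ 1 :=
          Real.exp_le_one_iff.2 (by linarith [abs_nonneg (z.re - w.re)])
        calc ‖X b z - X c w‖ * Real.exp (-(2 * |z.re - w.re|)) ≤
              (S * WL L z.re + S * WL L w.re) * Real.exp (-(2 * |z.re - w.re|)) :=
              mul_le_mul_of_nonneg_right h3 (Real.exp_pos _).le
          _ = S * (WL L z.re * Real.exp (-(2 * |z.re - w.re|))) +
              S * WL L w.re * Real.exp (-(2 * |z.re - w.re|)) := by ring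
          _ ≤ S * WL L w.re + S * WL L w.re * 1 := by gcongr
          _ = _ := by ring
      calc ‖X b z - X c w‖ * ‖Kgc (z - w) + 2 * tgh (z - w)‖ ≤
            ‖X b z - X c w‖ * (64 / NUMF.r ^ 2 * Real.exp (-(2 * |z.re - w.re|))) :=
            mul_le_mul_of_nonneg_left H (norm_nonneg _)
        _ = 64 / NUMF.r ^ 2 * (‖X b z - X c w‖ * Real.exp (-(2 * |z.re - w.re|))) := by ring
        _ ≤ 64 / NUMF.r ^ 2 * (2 * S * WL L w.re) :=
            mul_le_mul_of_nonneg_left H2 (by positivity)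
        _ ≤ _ := by
            have : 0 ≤ K * Ch * S * WL L w.re := by positivity
            nlinarith
  unfold EL
  have N2 : ‖2 * (eps b * eps c)‖ = 2 := by
    rw [norm_mul, norm_mul, norm_eps, norm_eps]
    simp
  refine (norm_add_le _ _).trans ?_
  rw [norm_mul (2 * (eps b * eps c)), N2]
  have P4 : ‖X b z * (tgh (z - w) + tgh w) - X c w * (tgh (z - w) - tgh z)‖ ≤
      2 * (S * (4 / NUMF.r ^ 2) * WL L w.re) := (norm_sub_le _ _).trans (by linarith)
  calc _ ≤ (K * Ch + 2 * (64 / NUMF.r ^ 2)) * S * WL L w.re +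
        2 * (2 * (S * (4 / NUMF.r ^ 2) * WL L w.re)) := by gcongr
    _ = _ := by ring

end PB

end
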