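import Pool.Agent.PB.Reg1
import Pool.Agent.NURow.Fin3

/-!
# The regular function, general rows: prefactors and base families

`RD.PB_KF_A` .. `RD.PB_KP_B` : prefactors on the lines of the half quanta; `RD.I0_pre` ..
`RD.ID'_pre` : the eleven integrands in the form of the classes; `RD.UD_rows` : uniform data;
`RD.fmD` : the base families of the final stage.
-/

set_option autoImplicit false
set_option linter.unusedSectionVars false
set_option linter.unusedVariables false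

noncomputable section

open Complex MeasureTheory

namespace PBX

open NUP1 NUP1S NUP1.Bd NURow
open NUP1.N (Z3 Gr0 GXs GYs ZP ZP' ZPP prc pr1 rA rB I0 IP IP' IPP ID ID' UD OnL)
open NUP1.Leg (hE hr thE cc Ck Dk)

/-! ## generalities -/

theorem Gr.prodc {α β : ℝ} {m : ℕ} (f : Fin m → ℂ → ℂ) (s : ℝ) (h : ∀ i, Gr α β s (f i)) :
    Gr α β (m * s) (fun z => ∏ i, f i z) := by
  have := Gr.finProd f (fun _ => s) h
  simpa [Finset.sum_const, Finset.card_univ] using this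

/-- growth and analyticity on lines -/
theorem PB_of_Gr {K : Set ℝ} (hK : IsCompact K) {α β s : ℝ} (hs : ∀ r ∈ K, β ≤ r ∧ r ≤ α)
    {f : ℂ → ℂ} (hf : Gr α β s f) (hd : ∀ z : ℂ, z.re ∈ K → DifferentiableAt ℂ f z) :
    NURow.PB s K f :=
  ⟨Bdd_of_Gr hK hs hf fun z hz => (hd z hz).continuousAt, hd⟩

section one

variable {m : ℕ} {x y : Fin m → ℂ} {p q : ℂ}

theorem measurable_rA (x : Fin m → ℂ) : Measurable (rA x) := by
  unfold NUP1.N.rA
  exact Finset.measurable_prod _ fun i _ => by fun_prop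

theorem measurable_rB (x : Fin m → ℂ) : Measurable (rB x) := by
  unfold NUP1.N.rB
  exact Finset.measurable_prod _ fun i _ => by fun_prop

theorem measurable_pr1 (p q : ℂ) (x y : Fin m → ℂ) : Measurable (pr1 p q x y) := by
  have h1 := measurable_rA x
  have h2 := measurable_rB y
  unfold NUP1.N.pr1 NUP1.N.prc Leg.kap
  fun_prop

theorem gr_pr1 (α β : ℝ) (p q : ℂ) (x y : Fin m → ℂ) : Gr α β (-1) (pr1 p q x y) := by
  have a1 := Gr.inv_sin (α := α) (β := β) p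
  have a2 := Gr.inv_sin (α := α) (β := β) (p + 2 * l)
  have a3 := Gr.sin (α := α) (β := β) (q - 3 * l)
  have a4 : Gr α β (m * (-1 : ℝ)) (rA x) := Gr.prodc _ _ fun i => by
    simpa only [one_div] using Gr.inv_sin (α := α) (β := β) (x i)
  have a5 : Gr α β (m * (1 : ℝ)) (rB y) := Gr.prodc _ _ fun i => by
    have := Gr.sin (α := α) (β := β) (y i - 3 * l)
    refine this.congr 0 fun z _ _ _ => ?_
    rw [show z - (y i - 3 * l) = z - y i + 3 * l by ring]
  have a6 := ((((a1.mul a2).mul (Gr.const (sin (2 * l)))).mul a3).mul a4).mul a5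
  refine (a6.mono (κ' := -1) (by ring_nf; norm_num)).congr 0 fun z _ _ _ => ?_
  unfold NUP1.N.pr1 NUP1.N.prc Leg.kap
  rw [show z - (p + 2 * l) = z - p - 2 * l by ring,
    show z - (q - 3 * l) = z - q + 3 * l by ring, div_eq_mul_inv, mul_inv]
  ring

/-- real parts without poles of the prefactor -/
theorem diffAt_pr1 {w : ℂ} (h1 : sin (w - p) ≠ 0) (h2 : sin (w - p - 2 * l) ≠ 0)
    (h3 : ∀ i, sin (w - x i) ≠ 0) : DifferentiableAt ℂ (pr1 p q x y) w := by
  have d1 : DifferentiableAt ℂ (rA x) w := by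
    unfold NUP1.N.rA
    refine DifferentiableAt.fun_finsetProd fun i _ => ?_
    have := h3 i
    fun_prop (disch := exact this)
  have d2 : DifferentiableAt ℂ (rB y) w := by
    unfold NUP1.N.rB
    refine DifferentiableAt.fun_finsetProd fun i _ => ?_
    fun_prop
  have d3 : DifferentiableAt ℂ (fun w => Leg.kap (w - p)) w := by
    unfold Leg.kap
    have := mul_ne_zero h1 h2
    fun_prop (disch := exact this)
  unfold NUP1.N.pr1 NUP1.N.prc
  exact ((d3.mul (by fun_prop)).mul d1).mul d2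

theorem PB_pr1 {K : Set ℝ} (hK : IsCompact K) {a b : ℝ} (hs : ∀ r ∈ K, b ≤ r ∧ r ≤ a)
    (h1 : ∀ d ∈ K, Real.sin (d - p.re) ≠ 0) (h2 : ∀ d ∈ K, Real.sin (d - p.re - 2 * l) ≠ 0)
    (h3 : ∀ d ∈ K, ∀ i, Real.sin (d - (x i).re) ≠ 0) : NURow.PB (-1) K (pr1 p q x y) := by
  refine PB_of_Gr hK hs (gr_pr1 a b p q x y) fun z hz => diffAt_pr1 ?_ ?_ fun i => ?_
  · exact Bd.sin_ne_zero_of_re (by rw [sub_re]; exact h1 _ hz)
  · refine Bd.sin_ne_zero_of_re ?_
    have e : (z - p - 2 * l).re = z.re - p.re - 2 * l := by simp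
    rw [e]
    exact h2 _ hz
  · exact Bd.sin_ne_zero_of_re (by rw [sub_re]; exact h3 _ hz i)

/-- **between `31/50 l` and `5/4 l`** -/
theorem PB_pr1_A (hp : |p.re| ≤ l / 2) (hx : Rws x) :
    NURow.PB (-1) (Set.Icc (31 / 50 * l) (5 / 4 * l)) (pr1 p q x y) := by
  have hl := Bd.l_pos
  obtain ⟨a1, a2⟩ := abs_le.1 hp
  refine PB_pr1 isCompact_Icc (fun r hr => hr) (fun d hd => ?_) (fun d hd => ?_)
    fun d hd i => ?_
  · obtain ⟨h1, h2⟩ := hd
    exact sin_ne_pos (by linarith) (by linarith)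
  · obtain ⟨h1, h2⟩ := hd
    exact sin_ne_neg (by linarith) (by linarith)
  · obtain ⟨h1, h2⟩ := hd
    obtain ⟨b1, b2⟩ := abs_le.1 (hx i)
    exact sin_ne_pos (by linarith) (by linarith)

/-- **on `-11/4 l`** -/
theorem PB_pr1_B (hp : |p.re| ≤ l / 2) (hx : Rws x) :
    NURow.PB (-1) (Set.Icc (-(11 / 4) * l) (-(11 / 4) * l)) (pr1 p q x y) := by
  have hl := Bd.l_pos
  obtain ⟨a1, a2⟩ := abs_le.1 hp
  refine PB_pr1 isCompact_Icc (fun r hr => hr) (fun d hd => ?_) (fun d hd => ?_)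
    fun d hd i => ?_
  · obtain ⟨h1, h2⟩ := hd
    exact sin_ne_neg (by linarith) (by linarith)
  · obtain ⟨h1, h2⟩ := hd
    exact sin_ne_neg (by linarith) (by linarith)
  · obtain ⟨h1, h2⟩ := hd
    obtain ⟨b1, b2⟩ := abs_le.1 (hx i)
    exact sin_ne_neg (by linarith) (by linarith)

/-- the prefactor of a captured pair -/
theorem measurable_XDg (p q : ℂ) (y : Fin m → ℂ) : Measurable (NUP1.N.XD p q y) := by
  unfold NUP1.N.XD
  refine Measurable.mul (by fun_prop) ?_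
  exact Finset.measurable_prod _ fun i _ => by fun_prop

theorem PB_XDg (hp : |p.re| ≤ l / 2) (hq : |q.re| ≤ l / 2) (hy : Rws y) :
    NURow.PB (-2) (Set.Icc (-(11 / 4) * l) (-(11 / 4) * l)) (NUP1.N.XD p q y) := by
  have hl := Bd.l_pos
  obtain ⟨a1, a2⟩ := abs_le.1 hp
  obtain ⟨b1, b2⟩ := abs_le.1 hq
  have g0 : Gr (-(11 / 4) * l) (-(11 / 4) * l) (-2) (NUP1.N.XD p q y) := by
    have c1 := Gr.inv_sin (α := -(11 / 4) * l) (β := -(11 / 4) * l) (p - l)
    have c2 := Gr.inv_sin (α := -(11 / 4) * l) (β := -(11 / 4) * l) q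
    have c3 : Gr (-(11 / 4) * l) (-(11 / 4) * l) (m * (0 : ℝ))
        (fun w => ∏ j, (-sin (w - y j - 2 * l) / sin (w - y j))) := Gr.prodc _ _ fun i => by
      have d1 := Gr.sin (α := -(11 / 4) * l) (β := -(11 / 4) * l) (y i + 2 * l)
      have d2 := Gr.inv_sin (α := -(11 / 4) * l) (β := -(11 / 4) * l) (y i)
      have d3 := (((Gr.const (α := -(11 / 4) * l) (β := -(11 / 4) * l) (-1)).mul d1).mul d2)
      refine (d3.mono (κ' := 0) (by norm_num)).congr 0 fun z _ _ _ => ?_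
      rw [show z - (y i + 2 * l) = z - y i - 2 * l by ring, div_eq_mul_inv]
      ring
    have c4 := (((Gr.const (α := -(11 / 4) * l) (β := -(11 / 4) * l) (-sin (2 * l) ^ 2)).mul
      (c1.mul c2)).mul c3)
    refine (c4.mono (κ' := -2) (by ring_nf; norm_num)).congr 0 fun z _ _ _ => ?_
    unfold NUP1.N.XD
    rw [show z - (p - l) = z - p + l by ring, div_eq_mul_inv (-sin (2 * (l : ℂ)) ^ 2), mul_inv]
  refine PB_of_Gr isCompact_Icc (fun r hr => hr) g0 fun z hz => ?_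
  obtain ⟨h1, h2⟩ := hz
  have n1 : sin (z - p + l) ≠ 0 := by
    refine Bd.sin_ne_zero_of_re ?_
    have e : (z - p + l).re = z.re - p.re + l := by simp
    rw [e]
    exact sin_ne_neg (by linarith) (by linarith)
  have n2 : sin (z - q) ≠ 0 := by
    refine Bd.sin_ne_zero_of_re ?_
    rw [sub_re]
    exact sin_ne_neg (by linarith) (by linarith)
  have n3 : ∀ i, sin (z - y i) ≠ 0 := fun i => by
    obtain ⟨c1, c2⟩ := abs_le.1 (hy i)
    refine Bd.sin_ne_zero_of_re ?_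
    rw [sub_re]
    exact sin_ne_neg (by linarith) (by linarith)
  unfold NUP1.N.XD
  have n4 := mul_ne_zero n1 n2
  refine DifferentiableAt.mul (by fun_prop (disch := exact n4)) ?_
  refine DifferentiableAt.fun_finsetProd fun i _ => ?_
  have := n3 i
  fun_prop (disch := exact this)

/-- the rows of the other group are cancelled by the captured quantum -/
theorem cap_rows (hy : Rws y) (ny : ∀ i, (y i).re ≠ l / 4) (h : ℂ → ℂ) {w : ℂ}
    (hw : w.re = -(11 / 4) * l) : rB y w * Gr0 h y (w + 3 * l) = h (w + 3 * l) := by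
  have hl := Bd.l_pos
  have n : ∀ i, sin (w - y i + 3 * l) ≠ 0 := fun i => by
    obtain ⟨c1, c2⟩ := abs_le.1 (hy i)
    refine Bd.sin_ne_zero_of_re ?_
    have e : (w - y i + 3 * l).re = w.re - (y i).re + 3 * l := by simp
    rw [e, hw]
    rcases lt_or_gt_of_ne (ny i) with h1 | h1
    · exact sin_ne_pos (by linarith) (by linarith)
    · exact sin_ne_neg (by linarith) (by linarith)
  have e1 : (∏ i, sin (w - y i + 3 * l)) * ∏ i, 1 / sin (w + 3 * l - y i) = 1 := by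
    rw [← Finset.prod_mul_distrib]
    refine Finset.prod_eq_one fun i _ => ?_
    rw [show w + 3 * l - y i = w - y i + 3 * l by ring]
    exact mul_one_div_cancel (n i)
  unfold NUP1.N.rB NUP1.N.Gr0
  rw [mul_left_comm, e1, mul_one]

end one

/-! ## one body function at a captured quantum -/

section data

variable {m : ℕ} {D : RD m}

theorem RD.Ok.meas_X (H : D.Ok) (k : Option O3) : Measurable (D.X k) :=
  measurable_XX H.gg.meas H.gg0.meas (measurable_thE _ _ _ _) (measurable_thS _ _ _ _) k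

theorem RD.Ok.meas_Y (H : D.Ok) (k : Option O3) : Measurable (D.Y k) := H.sw.meas_X k

theorem quarter_KK {z : ℂ} (h : z.re ∈ Set.Icc (l / 4) (l / 4)) : z.re ∈ KK := by
  have hl := Bd.l_pos
  obtain ⟨h1, h2⟩ := h
  constructor <;> linarith

theorem RD.Ok.PB_X (H : D.Ok) : NURow.PB (-(2 * D.β)) (Set.Icc (l / 4) (l / 4)) (D.X none) := by
  have hl := Bd.l_pos
  have h1 : NURow.PB 0 (Set.Icc (l / 4) (l / 4)) (RR D.c D.x D.y) := by
    refine PB_of_Gr isCompact_Icc (fun r hr => hr) (Gr_RR D.c _ _ D.x D.y) fun z hz => ?_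
    obtain ⟨h1, h2⟩ := hz
    unfold RR
    refine (((differentiableAt_const _).mul ?_).mul ?_).mul ?_
    · refine DifferentiableAt.fun_finsetProd fun i _ => ?_
      have n : sin (z - D.x i) ≠ 0 := by
        obtain ⟨c1, c2⟩ := abs_le.1 (H.hx i)
        refine Bd.sin_ne_zero_of_re ?_
        rw [sub_re]
        rcases lt_or_gt_of_ne (H.nx i) with h3 | h3
        · exact sin_ne_pos (by linarith) (by linarith)
        · exact sin_ne_neg (by linarith) (by linarith)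
      fun_prop (disch := exact n)
    · refine DifferentiableAt.fun_finsetProd fun i _ => ?_
      have n : sin (z - D.x i - 2 * l) ≠ 0 := by
        obtain ⟨c1, c2⟩ := abs_le.1 (H.hx i)
        refine Bd.sin_ne_zero_of_re ?_
        have e : (z - D.x i - 2 * l).re = z.re - (D.x i).re - 2 * l := by simp
        rw [e]
        exact sin_ne_neg (by linarith) (by linarith)
      fun_prop (disch := exact n)
    · refine DifferentiableAt.fun_finsetProd fun i _ => ?_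
      fun_prop
  have h2 : NURow.PB (-(2 * D.β)) (Set.Icc (l / 4) (l / 4)) (ph D.β D.x D.g) :=
    ⟨Bdd.mono_set (bdd_ph H.b0 H.b1 H.hx H.gg) fun r hr => by
      obtain ⟨h1, h2⟩ := hr
      constructor <;> linarith,
      fun z hz => diffAt_ph H.b0 H.b1 H.hx H.gg (quarter_KK hz)⟩
  have h3 : NURow.PB 0 (Set.Icc (l / 4) (l / 4)) (thE D.p D.p D.q D.q) :=
    PB_of_Gr isCompact_Icc (fun r hr => hr) (gr_thE _ _ _ _ _ _) fun z hz =>
      diffAt_thE H.hp H.hq (by linarith [hz.1]) (by linarith [hz.2])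
  exact ((h1.mul h2).mul h3).rate (by ring)

theorem RD.Ok.PB_Y (H : D.Ok) : NURow.PB (-(2 * D.β)) (Set.Icc (l / 4) (l / 4)) (D.Y none) :=
  H.sw.PB_X

/-! ## prefactors -/

theorem RD.measurable_KF (D : RD m) : Measurable D.KF := measurable_pr1 _ _ _ _

theorem RD.measurable_KF' (D : RD m) : Measurable D.KF' := measurable_pr1 _ _ _ _

theorem RD.Ok.measurable_KP (H : D.Ok) : Measurable D.KP :=
  (D.measurable_KF.mul ((H.meas_Y none).comp (measurable_id.add_const (3 * l : ℂ)))).const_mul _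

theorem RD.Ok.measurable_KP' (H : D.Ok) : Measurable D.KP' :=
  (D.measurable_KF'.mul ((H.meas_X none).comp (measurable_id.add_const (3 * l : ℂ)))).const_mul _

theorem RD.Ok.PB_KF_A (H : D.Ok) :
    NURow.PB (-1) (Set.Icc (31 / 50 * l) (5 / 4 * l)) D.KF := PB_pr1_A H.hp H.hx

theorem RD.Ok.PB_KF'_A (H : D.Ok) :
    NURow.PB (-1) (Set.Icc (31 / 50 * l) (5 / 4 * l)) D.KF' := PB_pr1_A H.hq H.hy

theorem RD.Ok.PB_KF_B (H : D.Ok) :
    NURow.PB (-1) (Set.Icc (-(11 / 4) * l) (-(11 / 4) * l)) D.KF := PB_pr1_B H.hp H.hx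

theorem RD.Ok.PB_KF'_B (H : D.Ok) :
    NURow.PB (-1) (Set.Icc (-(11 / 4) * l) (-(11 / 4) * l)) D.KF' := PB_pr1_B H.hq H.hy

theorem RD.Ok.PB_KP_B (H : D.Ok) :
    NURow.PB (-1 - 2 * D.β) (Set.Icc (-(11 / 4) * l) (-(11 / 4) * l)) D.KP := by
  have h1 := H.PB_Y.shift (K := Set.Icc (-(11 / 4) * l) (-(11 / 4) * l)) (3 * l)
    fun x hx => ⟨by linarith [hx.1], by linarith [hx.2]⟩
  refine (((H.PB_KF_B.mul h1).cmul (sin l / sin (2 * l))).rate (by ring)).congr' fun z => ?_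
  unfold RD.KP
  push_cast
  rfl

theorem RD.Ok.PB_KP'_B (H : D.Ok) :
    NURow.PB (-1 - 2 * D.β) (Set.Icc (-(11 / 4) * l) (-(11 / 4) * l)) D.KP' := H.sw.PB_KP_B

theorem RD.measurable_XD (D : RD m) : Measurable D.XD := measurable_XDg _ _ _

theorem RD.measurable_XD' (D : RD m) : Measurable D.XD' := measurable_XDg _ _ _

theorem RD.Ok.PB_XD_B (H : D.Ok) :
    NURow.PB (-2) (Set.Icc (-(11 / 4) * l) (-(11 / 4) * l)) D.XD := PB_XDg H.hp H.hq H.hy

theorem RD.Ok.PB_XD'_B (H : D.Ok) :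
    NURow.PB (-2) (Set.Icc (-(11 / 4) * l) (-(11 / 4) * l)) D.XD' := PB_XDg H.hq H.hp H.hx

theorem RD.Ok.KP_eq (H : D.Ok) {w : ℂ} (hw : w.re = -(11 / 4) * l) :
    sin l / sin (2 * l) * (prc D.p D.q D.x w * D.hY (w + 3 * l)) = D.KP w := by
  unfold RD.KP RD.KF NUP1.N.pr1
  rw [← Gr0_hY, ← cap_rows H.hy H.ny D.hY hw]
  ring

theorem RD.Ok.KP'_eq (H : D.Ok) {w : ℂ} (hw : w.re = -(11 / 4) * l) :
    sin l / sin (2 * l) * (prc D.q D.p D.y w * D.hX (w + 3 * l)) = D.KP' w := H.sw.KP_eq hw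

/-! ## the integrands -/

variable {α β₀ : ℝ} {n n' : ℕ}

/-- **both alone** -/
theorem RD.I0_pre (D : RD m) (w w' : ℂ) :
    I0 α β₀ D.p D.q D.x D.y D.hX D.hY n n' w w' = D.KF w * D.KF' w' * gFF (w - w') *
      Z3 α β₀ n n' (GXs D.hX D.x w w') (GYs D.hY D.y w w') := by
  unfold NUP1.N.I0 gFF RD.KF RD.KF'
  ring

/-- **`w` with a captured quantum** -/
theorem RD.Ok.IP_pre (H : D.Ok) {w : ℂ} (hw : w.re = -(11 / 4) * l) (w' : ℂ) :
    IP α β₀ D.p D.q D.x D.y D.hX D.hY n n' w w' = D.KP w * D.KF' w' * gPF (w - w') *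
      ZP α β₀ D.x D.y D.hX D.hY n n' w w' := by
  rw [← H.KP_eq hw]
  unfold NUP1.N.IP gPF RD.KF'
  rw [show w' - (w + 3 * l) = -(w - w') - 3 * l by ring]
  ring

/-- **`w'` with a captured quantum** -/
theorem RD.Ok.IP'_pre (H : D.Ok) (w : ℂ) {w' : ℂ} (hw' : w'.re = -(11 / 4) * l) :
    IP' α β₀ D.p D.q D.x D.y D.hX D.hY n n' w w' = D.KF w * D.KP' w' * gFP (w - w') *
      ZP' α β₀ D.x D.y D.hX D.hY n n' w w' := by
  rw [← H.KP'_eq hw']
  unfold NUP1.N.IP' gFP RD.KF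
  rw [show w - (w' + 3 * l) = w - w' - 3 * l by ring]
  ring

/-- **both with a captured quantum** -/
theorem RD.Ok.IPP_pre (H : D.Ok) {w w' : ℂ} (hw : w.re = -(11 / 4) * l)
    (hw' : w'.re = -(11 / 4) * l) :
    IPP α β₀ D.p D.q D.x D.y D.hX D.hY n n' w w' = D.KP w * D.KP' w' * gPP (w - w') *
      ZPP α β₀ D.x D.y D.hX D.hY n n' w w' := by
  rw [← H.KP_eq hw, ← H.KP'_eq hw']
  unfold NUP1.N.IPP gPP
  rw [show w' - (w + 3 * l) = -(w - w') - 3 * l by ring,
    show w - (w' + 3 * l) = w - w' - 3 * l by ring]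
  ring

/-- **captured pair `w = w' + 3 l`** -/
theorem RD.ID_pre (D : RD m) (w' : ℂ) :
    ID α β₀ D.p D.q D.x D.y D.hX D.hY n n' w' = D.XD w' *
      Z3 α β₀ n n' (Gr0 D.hX D.x) (fun v => Gr0 D.hY D.y v * Tk (w' - v)) := rfl

/-- **captured pair `w' = w + 3 l`** -/
theorem RD.ID'_pre (D : RD m) (w : ℂ) :
    ID' α β₀ D.p D.q D.x D.y D.hX D.hY n n' w = D.XD' w *
      Z3 α β₀ n n' (fun u => Gr0 D.hX D.x u * Tk (w - u)) (Gr0 D.hY D.y) := rfl

/-! ## uniform data -/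

theorem K4_bd {r : ℝ} (h : r ∈ K4) : -(17 / 10 * l) ≤ r ∧ r ≤ 3 / 5 * l := by
  have hl := Bd.l_pos
  unfold K4 at h
  simp only [Set.mem_insert_iff, Set.mem_singleton_iff] at h
  rcases h with h | h | h | h <;> subst h <;> constructor <;> linarith

theorem RD.Ok.bdd_hX (H : D.Ok) : Bdd K4 (m - 2 * D.β) D.hX := by
  have hl := Bd.l_pos
  have h1 : Bdd K4 (m + 0) (fun u => hr D.c D.x D.y u * thE D.p D.p D.q D.q u) := by
    refine Bdd_of_Gr K4_compact (α := 3 / 5 * l) (β := -(17 / 10 * l)) (fun r hr => K4_bd hr)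
      ((Gr_hr D.c _ _ D.x D.y).mul (gr_thE _ _ _ _ _ _)) fun z hz => ?_
    obtain ⟨b1, b2⟩ := K4_bd hz
    exact ((diff_hr D.c H.hx b1 b2).mul
      (diffAt_thE H.hp H.hq (by linarith) (by linarith))).continuousAt
  have h2 : Bdd K4 (-(2 * D.β)) (ph D.β D.x D.g) :=
    Bdd.mono_set (bdd_ph H.b0 H.b1 H.hx H.gg) fun r hr => by
      obtain ⟨b1, b2⟩ := K4_bd hr
      constructor <;> linarith
  exact (h1.mul h2).rate (by ring)

theorem RD.Ok.meas_hX (H : D.Ok) : Measurable D.hX :=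
  ((meas_hr D.c D.x D.y).mul (measurable_thE _ _ _ _)).mul (measurable_ph D.β D.x H.gg.meas)

theorem RD.Ok.meas_hY (H : D.Ok) : Measurable D.hY := H.sw.meas_hX

theorem RD.Ok.bdd_hY (H : D.Ok) : Bdd K4 (m - 2 * D.β) D.hY := H.sw.bdd_hX

/-- **the uniform data** -/
theorem RD.Ok.UD_rows (H : D.Ok) : ∃ C R : ℝ,
    UD (3 / 5 * l) (-(17 / 10) * l) (-(11 / 4) * l) C (2 * D.β - m) R D.p D.q D.x D.y D.hX D.hY := by
  obtain ⟨C, hC, h1⟩ := H.bdd_hX
  obtain ⟨C', hC', h2⟩ := H.bdd_hY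
  have s1 := Finset.sum_nonneg fun j (_ : j ∈ (Finset.univ : Finset (Fin m))) =>
    abs_nonneg (D.x j).im
  have s2 := Finset.sum_nonneg fun j (_ : j ∈ (Finset.univ : Finset (Fin m))) =>
    abs_nonneg (D.y j).im
  refine ⟨C + C', |D.p.im| + |D.q.im| + ∑ j, |(D.x j).im| + ∑ j, |(D.y j).im|,
    ⟨H.hp, ?_⟩, ⟨H.hq, ?_⟩, fun i => ⟨H.hx i, ?_⟩, fun i => ⟨H.hy i, ?_⟩, H.meas_hX, H.meas_hY,
    fun z hz => ?_, fun z hz => ?_⟩
  · linarith [abs_nonneg D.q.im]
  · linarith [abs_nonneg D.p.im]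
  · linarith [abs_nonneg D.p.im, abs_nonneg D.q.im, im_le D.x i]
  · linarith [abs_nonneg D.p.im, abs_nonneg D.q.im, im_le D.y i]
  · refine (h1 z (K4_of hz)).trans ?_
    rw [show (m - 2 * D.β) * |z.im| = -((2 * D.β - m) * |z.im|) by ring]
    exact mul_le_mul_of_nonneg_right (by linarith) (Real.exp_pos _).le
  · refine (h2 z (K4_of hz)).trans ?_
    rw [show (m - 2 * D.β) * |z.im| = -((2 * D.β - m) * |z.im|) by ring]
    exact mul_le_mul_of_nonneg_right (by linarith) (Real.exp_pos _).le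

/-! ## the base families of the final stage -/

theorem NPr_P : NPr (l / 2) ((fun d => d + -l) '' Set.Icc (-(11 / 8) * l) (-(5 / 4) * l)) := by
  have hl := Bd.l_pos
  refine NPr_neg fun d hd => ?_
  obtain ⟨e, ⟨h1, h2⟩, rfl⟩ := hd
  constructor <;> linarith

theorem P_K1 {r : ℝ} (h : r ∈ Set.Icc (-(11 / 8) * l) (-(5 / 4) * l)) : r ∈ K1 := by
  have hl := Bd.l_pos
  obtain ⟨h1, h2⟩ := h
  exact Or.inr ⟨by linarith, by linarith⟩

theorem RD.Ok.PB_S (H : D.Ok) :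
    NURow.PB (-(2 * (4 / 3))) (Set.Icc (-(11 / 8) * l) (-(5 / 4) * l)) (D.X (some .S)) := by
  have hl := Bd.l_pos
  have hK : IsCompact (Set.Icc (-(11 / 8) * l) (-(5 / 4) * l)) := isCompact_Icc
  have h1 : NURow.PB 0 (Set.Icc (-(11 / 8) * l) (-(5 / 4) * l)) (RR D.c D.x D.y) :=
    ⟨Bdd.mono_set (bdd_RR D.c H.hx H.hy isCompact_K1 NPr_K1) fun r hr => P_K1 hr,
      fun z hz => diffAt_RR D.c NPr_K1 H.hx (P_K1 hz)⟩
  have h2 : NURow.PB 0 (Set.Icc (-(11 / 8) * l) (-(5 / 4) * l))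
      (fun w => RR D.c D.x D.y (w - l)) := by
    refine ⟨bdd_shift_l (bdd_RR D.c H.hx H.hy (hK.image (by fun_prop)) NPr_P), fun z hz => ?_⟩
    refine (diffAt_RR (y := D.y) D.c NPr_P H.hx (z := z - l) ?_).comp z
      (differentiableAt_id.sub_const _)
    exact ⟨z.re, hz, by simp [sub_eq_add_neg]⟩
  have h3 : NURow.PB (-(2 * (4 / 3))) (Set.Icc (-(11 / 8) * l) (-(5 / 4) * l))
      (ph (4 / 3) D.x D.g0) :=
    ⟨Bdd.mono_set (bdd_ph (by norm_num) le_rfl H.hx H.gg0) fun r hr => K1_KK (P_K1 hr),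
      fun z hz => diffAt_ph (by norm_num) le_rfl H.hx H.gg0 (K1_KK (P_K1 hz))⟩
  have h4 : NURow.PB 0 (Set.Icc (-(11 / 8) * l) (-(5 / 4) * l)) (thE D.p D.p D.q D.q) :=
    PB_of_Gr hK (fun r hr => hr) (gr_thE _ _ _ _ _ _) fun z hz =>
      diffAt_thE H.hp H.hq (by linarith [hz.1]) (by linarith [hz.2])
  have h5 : NURow.PB 0 (Set.Icc (-(11 / 8) * l) (-(5 / 4) * l))
      (fun w => thE D.p D.p D.q D.q (w - l)) := by
    refine ⟨bdd_shift_l (Bdd_of_Gr (hK.image (by fun_prop)) (α := 0) (β := -(3 * l)) ?_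
      (gr_thE _ _ _ _ _ _) ?_), fun z hz => ?_⟩
    · rintro _ ⟨r, ⟨h1, h2⟩, rfl⟩
      constructor <;> linarith
    · rintro z ⟨r, ⟨h1, h2⟩, hr⟩
      exact (diffAt_thE H.hp H.hq (by linarith) (by linarith)).continuousAt
    · have e : (z - (l : ℂ)).re = z.re - l := by simp
      exact (diffAt_thE (u := z - l) H.hp H.hq (by rw [e]; linarith [hz.1])
        (by rw [e]; linarith [hz.2])).comp z (differentiableAt_id.sub_const _)
  exact (((h1.mul h2).mul h3).mul (h4.mul h5)).rate (by ring)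

theorem RD.Ok.spec1 (H : D.Ok) (b : Bool) :
    SpecQ b 0 (thE D.p D.p D.q D.q) (thS D.p D.p D.q D.q) := thE_SpecQ b H.hp H.hq

/-- **One species.** -/
theorem RD.Ok.fam1 (H : D.Ok) {κ : ℝ} (hκ : κ ≤ 2 * D.β) (k : Option O3) :
    Measurable (D.X k) ∧ DecOn κ (Set.Icc (loP k) (hiP k)) (D.X k) ∧
    (loP k < hiP k → ContinuousOn (D.X k) (CS (loP k) (hiP k)) ∧
      DifferentiableOn ℂ (D.X k) (OS (loP k) (hiP k))) := by
  have hl := Bd.l_pos
  have h := H.spec1 true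
  have hb := H.b1
  refine ⟨H.meas_X k, ?_, ?_⟩
  · rcases k with _ | (_ | _ | _)
    · refine DecOn_of (Bdd.mono_set (bdd_GX (c := D.c) H.b0 H.b1 H.hx H.hy H.gg h) ?_)
        (by linarith)
      rintro x ⟨h1, h2⟩
      have h1 : 3 / 5 * l ≤ x := h1
      have h2 : x ≤ 3 / 5 * l := h2
      exact Or.inl ⟨h1, by linarith⟩
    · refine DecOn_of (Bdd.mono_set (bdd_GX (c := D.c) H.b0 H.b1 H.hx H.hy H.gg h) ?_)
        (by linarith)
      rintro x ⟨h1, h2⟩
      have h1 : -(5 / 4) * l ≤ x := h1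
      have h2 : x ≤ -(5 / 4) * l := h2
      exact Or.inr ⟨by linarith, by linarith⟩
    · exact DecOn_of H.PB_S.1 (by linarith)
    · refine DecOn_of (Bdd.mono_set
        ((bdd_TT D.c H.b0 H.b1 le_rfl H.hx H.hy H.gg H.gg0).mul h.b2) ?_) (by linarith)
      rintro x ⟨h1, h2⟩
      have h1 : -(1 / 2) * l ≤ x := h1
      have h2 : x ≤ -(1 / 2) * l := h2
      exact ⟨by linarith, by linarith⟩
  · intro hlt
    rcases k with _ | (_ | _ | _)
    · exact absurd hlt (lt_irrefl _)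
    · exact absurd hlt (lt_irrefl _)
    · refine ⟨fun z hz => (H.PB_S.2 z ⟨hz.1, hz.2⟩).continuousAt.continuousWithinAt,
        fun z hz => (H.PB_S.2 z ⟨hz.1.le, hz.2.le⟩).differentiableWithinAt⟩
    · exact absurd hlt (lt_irrefl _)

/-- **The base families of the final stage.** -/
theorem RD.Ok.fmD (H : D.Ok) {κ : ℝ} (hκ : κ ≤ 2 * D.β) : FmD loP hiP κ 0 (XB D.X D.Y) where
  meas c k := by
    cases c
    · exact (H.sw.fam1 (κ := κ) hκ k).1
    · exact (H.fam1 hκ k).1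
  dec c k := by
    rw [show κ + 2 * 0 * sc4 c k = κ by ring]
    cases c
    · exact (H.sw.fam1 hκ k).2.1
    · exact (H.fam1 hκ k).2.1
  cont c k h := by
    cases c
    · exact ((H.sw.fam1 (κ := κ) hκ k).2.2 h).1
    · exact ((H.fam1 (κ := κ) hκ k).2.2 h).1
  diff c k h := by
    cases c
    · exact ((H.sw.fam1 (κ := κ) hκ k).2.2 h).2
    · exact ((H.fam1 (κ := κ) hκ k).2.2 h).2

end data

end PBX

end
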