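import Pool.Agent.PB.Reg3
import Pool.Agent.NUP1L.RowC

/-!
# The regular function, general rows: independence of the cutoff, limit of the gas

`RD.Ok.E11_cut` : the sum of the eleven integrals does not depend on the cutoffs;
`RD.Ok.RE_tendsto` : the gas of two cut rows tends to the eleven integrals of `D`, any rows and ends.
-/

set_option autoImplicit false
set_option linter.unusedSectionVars false
set_option linter.unusedVariables false

noncomputable section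

open Complex MeasureTheory Filter Topology

namespace PBX

open NUP1 NUP1S NUP1.Bd NURow
open NUP1.N (Z3 Gr0 UD E11 Ln Ln_start Fm Bx OnL)
open NUP1.Leg (hE hr thE cc Ck Dk hC cut LegJ Bp)

variable {m : ℕ}

/-! ## the value of the two lines depends on the rows only -/

theorem sta_mul_congr {x : Fin m → ℂ} {h h' k : ℂ → ℂ} (h1 : ∀ i, h (x i) = h' (x i))
    (h2 : ∀ i, h (x i - l) = h' (x i - l)) (a : Fin m → SignType) :
    sta x (fun u => h u * k u) a = sta x (fun u => h' u * k u) a :=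
  NUP1.N.sta_congr' (fun i => by simp only [h1]) (fun i => by simp only [h2]) a

theorem LegJ_congr {A B : ℝ} {p q : ℂ} {x y : Fin m → ℂ} {f f' g g' : ℂ → ℂ}
    (h1 : ∀ i, f (x i) = f' (x i)) (h2 : ∀ i, f (x i - l) = f' (x i - l))
    (h3 : ∀ i, g (y i) = g' (y i)) (h4 : ∀ i, g (y i - l) = g' (y i - l)) (n n' : ℕ) :
    LegJ A B p q x y f g n n' = LegJ A B p q x y f' g' n n' := by
  have e : NUP1.Leg.FSP p q x y f g n n' = NUP1.Leg.FSP p q x y f' g' n n' := by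
    funext w w'
    unfold NUP1.Leg.FSP NUP1.N.SP
    congr 1
    refine Finset.sum_congr rfl fun a _ => Finset.sum_congr rfl fun e _ => ?_
    rw [sta_mul_congr h1 h2, sta_mul_congr h3 h4]
  have e1 : NUP1.Leg.GsL f g x y n n' = NUP1.Leg.GsL f' g' x y n n' := by
    funext z
    unfold NUP1.Leg.GsL
    refine Finset.sum_congr rfl fun a _ => Finset.sum_congr rfl fun e _ => ?_
    have h := sta_mul_congr (k := fun _ => 1) h1 h2 a
    simp only [mul_one] at h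
    rw [h, sta_mul_congr h3 h4]
  have e2 : NUP1.Leg.GsR f g x y n n' = NUP1.Leg.GsR f' g' x y n n' := by
    funext z
    unfold NUP1.Leg.GsR
    refine Finset.sum_congr rfl fun a _ => Finset.sum_congr rfl fun e _ => ?_
    have h := sta_mul_congr (k := fun _ => 1) h3 h4 e
    simp only [mul_one] at h
    rw [h, sta_mul_congr h1 h2]
  unfold NUP1.Leg.LegJ
  rw [e, e1, e2]

/-! ## rows pulled apart -/

/-- the data with the rows pulled apart -/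
def RD.pull (D : RD m) (e : ℝ) : RD m := { D with x := PBX.pull D.x e, y := PBX.pull D.y e }

theorem RD.Ok.pull {D : RD m} (H : D.Ok) (e : ℝ) : (D.pull e).Ok where
  b0 := H.b0
  b1 := H.b1
  hx := pull_Rws H.hx e
  hy := pull_Rws H.hy e
  hp := H.hp
  hq := H.hq
  nx i := by
    show (PBX.pull D.x e i).re ≠ _
    rw [pull_re]
    exact H.nx i
  ny i := by
    show (PBX.pull D.y e i).re ≠ _
    rw [pull_re]
    exact H.ny i
  gg := H.gg
  gg' := H.gg'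
  gg0 := H.gg0
  gg0' := H.gg0'

/-- uniform bound of the one body function on the four lines -/
theorem hG_ub {E : Type*} {S : Set E} {β R : ℝ} (hβ : 0 < β) (hβ' : β ≤ 4 / 3) (c p q : ℂ)
    (hp : |p.re| ≤ l / 2) (hq : |q.re| ≤ l / 2) {x y : E → Fin m → ℂ} {g : ℂ → ℂ}
    (hg : GOk β g) (hx : ∀ e ∈ S, Rws (x e)) (hy : ∀ e ∈ S, Rws (y e))
    (bx : ∀ e ∈ S, ∀ i, |(x e i).im| ≤ R) (by' : ∀ e ∈ S, ∀ i, |(y e i).im| ≤ R) :
    ∃ C : ℝ, 0 ≤ C ∧ ∀ e ∈ S, ∀ z : ℂ, z.re ∈ NURow.K4 →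
      ‖hE c p p q q (x e) (y e) z * ph β (x e) g z‖ ≤ C * Real.exp ((m - 2 * β) * |z.im|) := by
  have hl := Bd.l_pos
  have ib : ∀ {x : E → Fin m → ℂ}, (∀ e ∈ S, Rws (x e)) → (∀ e ∈ S, ∀ i, |(x e i).im| ≤ R) →
      ∀ i, InBox S (l / 2) R fun e => x e i := fun h1 h2 i e he => ⟨(h1 e he).abs i, h2 e he i⟩
  have hK : NUP1.Leg.Kok NURow.K4 := ⟨NURow.K4_compact, fun d hd => by
    obtain ⟨h1, h2⟩ := K4_bd hd
    constructor <;> linarith⟩
  have k4 : ∀ {r : ℝ}, r ∈ NURow.K4 → r ∈ KK := fun hr => by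
    obtain ⟨h1, h2⟩ := K4_bd hr
    constructor <;> linarith
  have nq : NQr β (l / 2) NURow.K4 := fun d hd => NQr_KK hβ hβ' d (k4 hd)
  have h1 := NUP1.Leg.ub_hr (S := S) hK c (ib hx bx) (ib hy by')
  have cb : ∀ {p : ℂ}, |p.re| ≤ l / 2 → InBox S (l / 2) |p.im| fun _ : E => p :=
    fun h e _ => ⟨h, le_rfl⟩
  have h2 : UB S NURow.K4 0 (fun (_ : E) z => thE p p q q z) := by
    have b1 := Bdd_of_Gr NURow.K4_compact (α := 3 / 5 * l) (β := -(17 / 10 * l))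
      (fun r hr => K4_bd hr) (gr_thE _ _ p p q q) (fun z hz => by
        obtain ⟨b1, b2⟩ := K4_bd hz
        exact (diffAt_thE hp hq (by linarith) (by linarith)).continuousAt)
    obtain ⟨C, hC, h⟩ := b1
    exact ⟨C, hC, fun _ _ z hz => h z hz⟩
  have h3 : UB S NURow.K4 (-(2 * β)) (fun e z => ph β (x e) g z) := by
    have a1 := ub_phi (Θ := E) (S := S) hβ (ib hx bx) NURow.K4_compact nq
    have a2 := ub_prod_psi (Θ := E) (S := S) hβ (ib hx bx) NURow.K4_compact nq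
    have a3 : UB S NURow.K4 (-(2 * β)) (fun (_ : E) z => 1 - g z) := by
      obtain ⟨C, hC, h⟩ := hg.bd
      exact ⟨C, hC, fun _ _ z hz => h z (k4 hz)⟩
    refine (a1.add ((a2.mul a3).rate (zero_add _))).congr fun e _ z _ => ?_
    rw [phi_ofFn]
    unfold ph
    ring
  obtain ⟨C, hC, h⟩ := ((h1.mul h2).mul h3).rate (s' := m - 2 * β) (by ring)
  exact ⟨C, hC, h⟩

theorem hG_tendsto {E : Type*} {F : Filter E} {β : ℝ} (hβ : 0 < β) (hβ' : β ≤ 4 / 3) (c p q : ℂ)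
    {x y : E → Fin m → ℂ} {x0 y0 : Fin m → ℂ} (g : ℂ → ℂ) (hx0 : Rws x0)
    (tx : ∀ i, Tendsto (fun e => x e i) F (𝓝 (x0 i)))
    (ty : ∀ i, Tendsto (fun e => y e i) F (𝓝 (y0 i))) {z : ℂ} (hz : z.re ∈ NURow.K4) :
    Tendsto (fun e => hE c p p q q (x e) (y e) z * ph β (x e) g z) F
      (𝓝 (hE c p p q q x0 y0 z * ph β x0 g z)) := by
  have hl := Bd.l_pos
  have hK : NUP1.Leg.Kok NURow.K4 := ⟨NURow.K4_compact, fun d hd => by
    obtain ⟨h1, h2⟩ := K4_bd hd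
    constructor <;> linarith⟩
  have k4 : ∀ {r : ℝ}, r ∈ NURow.K4 → r ∈ KK := fun hr => by
    obtain ⟨h1, h2⟩ := K4_bd hr
    constructor <;> linarith
  have t4 : ∀ i, Tendsto (fun e => psi β (z - x e i)) F (𝓝 (psi β (z - x0 i))) := fun i =>
    ((diff_psi' (NQ_KK hβ hβ' hx0 (k4 hz) i)).continuousAt.tendsto).comp
      (tendsto_const_nhds.sub (tx i))
  refine ((NUP1.Leg.tendsto_hr hK hz c tx ty fun i => hx0 i).mul tendsto_const_nhds).mul ?_
  exact tendsto_const_nhds.sub ((tendsto_finsetProd _ fun i _ => t4 i).mul_const _)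

variable {D : RD m}

/-- the hypotheses `RD` of the state sums at distinct heights -/
theorem RD.Ok.rdN (H : D.Ok) (ix : ∀ i j, i ≠ j → (D.x i).im ≠ (D.x j).im)
    (iy : ∀ i j, i ≠ j → (D.y i).im ≠ (D.y j).im) (n : ℕ) :
    NUP1.N.RD (3 / 5 * l) (-(17 / 10) * l) D.x D.y D.hX D.hY (2 * D.β - m) (2 * D.β - m) n n := by
  have hl := Bd.l_pos
  have hb := H.b0
  have rx : ∀ {x : Fin m → ℂ}, Rws x → ∀ i, -(17 / 10) * l + l < (x i).re ∧
      (x i).re < 3 / 5 * l := by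
    intro x hx i
    obtain ⟨h3, h4⟩ := abs_le.1 (hx i)
    constructor <;> linarith
  have key : ∀ {D : RD m}, D.Ok → (∀ z : ℂ, -(17 / 10) * l ≤ z.re → z.re ≤ 3 / 5 * l →
      DifferentiableAt ℂ D.hX z) ∧ Gr (3 / 5 * l) (-(17 / 10) * l) (-(2 * D.β - m)) D.hX := by
    intro D H
    have kk : ∀ {z : ℂ}, -(17 / 10) * l ≤ z.re → z.re ≤ 3 / 5 * l → z.re ∈ KK := fun h1 h2 =>
      ⟨by linarith, by linarith⟩
    refine ⟨fun z h1 h2 => ((diff_hr D.c H.hx (by linarith) h2).mul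
      (diffAt_thE H.hp H.hq (by linarith) (by linarith))).mul
        (diffAt_ph H.b0 H.b1 H.hx H.gg (kk h1 h2)), ?_⟩
    have h1 : Gr (3 / 5 * l) (-(17 / 10) * l) (-(2 * D.β)) (ph D.β D.x D.g) := by
      obtain ⟨C, hC, h⟩ := bdd_ph H.b0 H.b1 H.hx H.gg
      exact ⟨C, 0, hC, fun z h1 h2 _ => h z (kk h1 h2)⟩
    exact (((Gr_hr D.c _ _ D.x D.y).mul (gr_thE _ _ _ _ _ _)).mul h1).mono
      (le_of_eq (by ring))
  have k1 := key H
  have k2 := key H.sw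
  exact ⟨ix, iy, rx H.hx, rx H.hy, k1.1, k2.1, H.meas_hX, H.meas_hY, k1.2, k2.2,
    by ring_nf; linarith, by ring_nf; linarith⟩

/-- uniform data of the pulled rows -/
theorem RD.Ok.UD_pull (H : D.Ok) : ∃ C R : ℝ, ∀ e : ℝ, 0 ≤ e → e ≤ 1 →
    UD (3 / 5 * l) (-(17 / 10) * l) (-(11 / 4) * l) C (2 * D.β - m) R D.p D.q (PBX.pull D.x e)
      (PBX.pull D.y e) (D.pull e).hX (D.pull e).hY := by
  have s1 := Finset.sum_nonneg fun j (_ : j ∈ (Finset.univ : Finset (Fin m))) =>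
    abs_nonneg (D.x j).im
  have s2 := Finset.sum_nonneg fun j (_ : j ∈ (Finset.univ : Finset (Fin m))) =>
    abs_nonneg (D.y j).im
  set R : ℝ := |D.p.im| + |D.q.im| + ∑ j, |(D.x j).im| + ∑ j, |(D.y j).im| + m with hR
  have m0 : (0 : ℝ) ≤ m := Nat.cast_nonneg _
  have a1 := abs_nonneg D.p.im
  have a2 := abs_nonneg D.q.im
  have bx : ∀ e ∈ Set.Icc (0 : ℝ) 1, ∀ i, |(PBX.pull D.x e i).im| ≤ R := fun e he i =>
    (pull_im_le D.x he.1 he.2 i).trans (by linarith)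
  have by' : ∀ e ∈ Set.Icc (0 : ℝ) 1, ∀ i, |(PBX.pull D.y e i).im| ≤ R := fun e he i =>
    (pull_im_le D.y he.1 he.2 i).trans (by linarith)
  obtain ⟨C1, hC1, h1⟩ := hG_ub (S := Set.Icc (0 : ℝ) 1) (R := R) H.b0 H.b1 D.c D.p D.q H.hp H.hq
    (x := PBX.pull D.x) (y := PBX.pull D.y) H.gg (fun e _ => pull_Rws H.hx e)
    (fun e _ => pull_Rws H.hy e) bx by'
  obtain ⟨C2, hC2, h2⟩ := hG_ub (S := Set.Icc (0 : ℝ) 1) (R := R) H.b0 H.b1 D.c' D.q D.p H.hq H.hp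
    (x := PBX.pull D.y) (y := PBX.pull D.x) H.gg' (fun e _ => pull_Rws H.hy e)
    (fun e _ => pull_Rws H.hx e) by' bx
  refine ⟨C1 + C2, R, fun e h0 he1 => ⟨⟨H.hp, by linarith⟩, ⟨H.hq, by linarith⟩,
    fun i => ⟨pull_Rws H.hx e i, bx e ⟨h0, he1⟩ i⟩, fun i => ⟨pull_Rws H.hy e i, by' e ⟨h0, he1⟩ i⟩,
    (H.pull e).meas_hX, (H.pull e).meas_hY, fun z hz => ?_, fun z hz => ?_⟩⟩
  · refine (h1 e ⟨h0, he1⟩ z (K4_of hz)).trans ?_
    rw [show (m - 2 * D.β) * |z.im| = -((2 * D.β - m) * |z.im|) by ring]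
    exact mul_le_mul_of_nonneg_right (by linarith) (Real.exp_pos _).le
  · refine (h2 e ⟨h0, he1⟩ z (K4_of hz)).trans ?_
    rw [show (m - 2 * D.β) * |z.im| = -((2 * D.β - m) * |z.im|) by ring]
    exact mul_le_mul_of_nonneg_right (by linarith) (Real.exp_pos _).le

/-- **the sum of the eleven integrals as the limit of the double line integrals** -/
theorem RD.Ok.E11_lim (H : D.Ok) (hβ : 1 < D.β) {a : ℝ} (ha : a = 31 / 50 ∨ a = 5 / 4) (n : ℕ) :
    Tendsto (fun e => LegJ (a * l) (-(11 / 4) * l) D.p D.q (PBX.pull D.x e) (PBX.pull D.y e)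
      (hE D.c D.p D.p D.q D.q (PBX.pull D.x e) (PBX.pull D.y e))
      (hE D.c' D.q D.q D.p D.p (PBX.pull D.y e) (PBX.pull D.x e)) n n) (𝓝[>] 0)
      (𝓝 (E11 (3 / 5 * l) (-(17 / 10) * l) D.p D.q D.x D.y D.hX D.hY n n (a * l)
        (-(11 / 4) * l))) := by
  obtain ⟨C, R, hU⟩ := H.UD_pull
  have hpos : ∀ᶠ e : ℝ in 𝓝[>] 0, 0 < e := self_mem_nhdsWithin
  have hle : ∀ᶠ e : ℝ in 𝓝[>] 0, e ≤ 1 := nhdsWithin_le_nhds (eventually_le_nhds one_pos)
  have L := Ln_start ha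
  have hK : 2 < (2 * D.β - m : ℝ) + m := by linarith
  have U0 := hU 0 le_rfl zero_le_one
  have p0 : ∀ x : Fin m → ℂ, PBX.pull x 0 = x := fun x => by
    funext i
    simp [PBX.pull]
  have hF : Fm (𝓝[>] (0 : ℝ)) (3 / 5 * l) (-(17 / 10) * l) (-(11 / 4) * l) C (2 * D.β - m) R
      (fun _ => D.p) (fun _ => D.q) (PBX.pull D.x) (PBX.pull D.y) (fun e => (D.pull e).hX)
      (fun e => (D.pull e).hY) D.p D.q D.x D.y D.hX D.hY := by
    refine ⟨?_, U0.bp, U0.bq, fun i => ?_, fun i => ?_, tendsto_const_nhds, tendsto_const_nhds,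
      pull_tendsto D.x, pull_tendsto D.y, fun z hz => ?_, fun z hz => ?_⟩
    · filter_upwards [hpos, hle] with e h0 h1
      exact hU e h0.le h1
    · have := U0.bx i
      rwa [p0] at this
    · have := U0.bY i
      rwa [p0] at this
    · exact hG_tendsto H.b0 H.b1 D.c D.p D.q D.g H.hx (pull_tendsto D.x) (pull_tendsto D.y)
        (K4_of hz)
    · exact hG_tendsto H.b0 H.b1 D.c' D.q D.p D.g' H.hy (pull_tendsto D.y) (pull_tendsto D.x)
        (K4_of hz)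
  refine (NUP1.N.E11_tendsto L hF hK n).congr' ?_
  filter_upwards [hpos, hle, pull_ne D.x, pull_ne D.y] with e h0 h1 ex ey
  refine (NUP1.N.LegJ_E11 L ((H.pull e).rdN ex ey n) (hU e h0.le h1) hK).symm.trans ?_
  refine LegJ_congr (fun i => ?_) (fun i => ?_) (fun i => ?_) (fun i => ?_) n n
  · show hE D.c D.p D.p D.q D.q (PBX.pull D.x e) (PBX.pull D.y e) (PBX.pull D.x e i) *
      ph D.β (PBX.pull D.x e) D.g (PBX.pull D.x e i) =
      hE D.c D.p D.p D.q D.q (PBX.pull D.x e) (PBX.pull D.y e) (PBX.pull D.x e i)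
    rw [ph_row, mul_one]
  · show hE D.c D.p D.p D.q D.q (PBX.pull D.x e) (PBX.pull D.y e) (PBX.pull D.x e i - l) *
      ph D.β (PBX.pull D.x e) D.g (PBX.pull D.x e i - l) =
      hE D.c D.p D.p D.q D.q (PBX.pull D.x e) (PBX.pull D.y e) (PBX.pull D.x e i - l)
    rw [ph_row_sub, mul_one]
  · show hE D.c' D.q D.q D.p D.p (PBX.pull D.y e) (PBX.pull D.x e) (PBX.pull D.y e i) *
      ph D.β (PBX.pull D.y e) D.g' (PBX.pull D.y e i) =
      hE D.c' D.q D.q D.p D.p (PBX.pull D.y e) (PBX.pull D.x e) (PBX.pull D.y e i)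
    rw [ph_row, mul_one]
  · show hE D.c' D.q D.q D.p D.p (PBX.pull D.y e) (PBX.pull D.x e) (PBX.pull D.y e i - l) *
      ph D.β (PBX.pull D.y e) D.g' (PBX.pull D.y e i - l) =
      hE D.c' D.q D.q D.p D.p (PBX.pull D.y e) (PBX.pull D.x e) (PBX.pull D.y e i - l)
    rw [ph_row_sub, mul_one]

/-- **The sum of the eleven integrals does not depend on the cutoffs.** -/
theorem RD.Ok.E11_cut {D D' : RD m} (H : D.Ok) (H' : D'.Ok) (hβ : 1 < D.β) (hβ' : 1 < D'.β)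
    (hx : D.x = D'.x) (hy : D.y = D'.y) (hp : D.p = D'.p) (hq : D.q = D'.q) (hc : D.c = D'.c)
    (hc' : D.c' = D'.c') {a : ℝ} (ha : a = 31 / 50 ∨ a = 5 / 4) (n : ℕ) :
    E11 (3 / 5 * l) (-(17 / 10) * l) D.p D.q D.x D.y D.hX D.hY n n (a * l) (-(11 / 4) * l) =
    E11 (3 / 5 * l) (-(17 / 10) * l) D'.p D'.q D'.x D'.y D'.hX D'.hY n n (a * l)
      (-(11 / 4) * l) := by
  have h1 := H.E11_lim hβ ha n
  have h2 := H'.E11_lim hβ' ha n
  rw [← hx, ← hy, ← hp, ← hq, ← hc, ← hc'] at h2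
  rw [← hx, ← hy, ← hp, ← hq]
  exact tendsto_nhds_unique h1 h2

/-- the data with the cutoff of the rows only -/
def RD.plain (D : RD m) : RD m :=
  { D with g := fun _ => 1, g' := fun _ => 1, g0 := fun _ => 1, g0' := fun _ => 1 }

theorem RD.Ok.plain {D : RD m} (H : D.Ok) : D.plain.Ok :=
  ⟨H.b0, H.b1, H.hx, H.hy, H.hp, H.hq, H.nx, H.ny, GOk.one _, GOk.one _, GOk.one _, GOk.one _⟩

theorem RD.plain_hX (D : RD m) : D.plain.hX = hC D.β D.c D.p D.p D.q D.q D.x D.y := by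
  funext u
  show hE D.c D.p D.p D.q D.q D.x D.y u * ph D.β D.x (fun _ => 1) u = _
  rw [ph_one]
  rfl

theorem RD.plain_hY (D : RD m) : D.plain.hY = hC D.β D.c' D.q D.q D.p D.p D.y D.x := by
  funext u
  show hE D.c' D.q D.q D.p D.p D.y D.x u * ph D.β D.y (fun _ => 1) u = _
  rw [ph_one]
  rfl

open NUTP (th ea)
open NUTP.Gas (gasF)

/-- **The gas of two cut rows tends to the eleven integrals**, any rows, ends and cutoffs. -/
theorem RD.Ok.RE_tendsto {ι : Type*} {F : Filter ι} [F.IsCountablyGenerated] {a R : ℝ}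
    (ha : a = 31 / 50 ∨ a = 5 / 4) {D : RD m} (O : D.Ok) (hβ : 1 < D.β) (hc : D.c = cc m)
    (hc' : D.c' = cc m) {p h q g : ι → ℂ} {x y : ι → Fin m → ℂ}
    (H : ∀ᶠ e in F, NUP1.Leg.Ht (p e) (h e) (q e) (g e) (x e) (y e))
    (B1 : ∀ᶠ e in F, Bx R (p e)) (B2 : ∀ᶠ e in F, Bx R (h e)) (B3 : ∀ᶠ e in F, Bx R (q e))
    (B4 : ∀ᶠ e in F, Bx R (g e)) (B5 : ∀ᶠ e in F, ∀ i, Bx R (x e i))
    (B6 : ∀ᶠ e in F, ∀ i, Bx R (y e i)) (bp : |D.p.im| ≤ R) (bq : |D.q.im| ≤ R)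
    (bx : ∀ i, |(D.x i).im| ≤ R) (by' : ∀ i, |(D.y i).im| ≤ R)
    (t1 : Tendsto p F (𝓝 D.p)) (t2 : Tendsto h F (𝓝 D.p)) (t3 : Tendsto q F (𝓝 D.q))
    (t4 : Tendsto g F (𝓝 D.q)) (t5 : ∀ i, Tendsto (fun e => x e i) F (𝓝 (D.x i)))
    (t6 : ∀ i, Tendsto (fun e => y e i) F (𝓝 (D.y i))) :
    Tendsto (fun e => (gasF th 1 true (ea (-(q e))) (ea (-(g e)))).RE
      (List.ofFn fun i => ea (-(x e i))) (List.ofFn fun j => ea (-(y e j))) (ea (-(p e)))
      (ea (-(h e)))) F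
    (𝓝 (sin l * (Bp D.p D.q D.x * Bp D.q D.p D.y) * ∑ n ∈ Finset.range (2 * m + 1),
      E11 (3 / 5 * l) (-(17 / 10) * l) D.p D.q D.x D.y D.hX D.hY n n (a * l)
        (-(11 / 4) * l))) := by
  have key := NUP1.Leg.RE_tendsto ha hβ O.b1 H B1 B2 B3 B4 B5 B6 (p0 := D.p) (h0 := D.p)
    (q0 := D.q) (g0 := D.q) (x0 := D.x) (y0 := D.y) ⟨O.hp, bp⟩ ⟨O.hp, bp⟩ ⟨O.hq, bq⟩ ⟨O.hq, bq⟩
    (fun i => ⟨O.hx i, bx i⟩) (fun i => ⟨O.hy i, by' i⟩) t1 t2 t3 t4 t5 t6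
  have e : ∀ n, E11 (3 / 5 * l) (-(17 / 10) * l) D.p D.q D.x D.y
      (hC D.β (cc m) D.p D.p D.q D.q D.x D.y) (hC D.β (cc m) D.q D.q D.p D.p D.y D.x) n n
      (a * l) (-(11 / 4) * l) = E11 (3 / 5 * l) (-(17 / 10) * l) D.p D.q D.x D.y D.hX D.hY n n
      (a * l) (-(11 / 4) * l) := by
    intro n
    have h1 := D.plain_hX
    have h2 := D.plain_hY
    rw [hc] at h1
    rw [hc'] at h2
    rw [← h1, ← h2]
    exact RD.Ok.E11_cut (D := D.plain) (D' := D) O.plain O hβ hβ rfl rfl rfl rfl rfl rfl ha n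
  simp only [e] at key
  exact key

end PBX

end
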