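import Mathlib

/-!
# Plan B, (TR), s-path: logarithms of products of ratios of sines, half plane by half plane

`sr a b u = ∏ i, sin (a i - u) / sin (b i - u)`.  With `lam` = a logarithm of the limit at
`Im u → ± ∞`, `plog a b lam u = lam + Log (sr a b u * exp (-lam))` (principal logarithm):

* `exp_plog`: `exp (plog a b lam u) = sr a b u`;
* `plog_le`: `‖plog a b lam u - lam‖ ≤ C (1 + M) min 1 (e^{2 (M - |Im u|)})`, `M ≥ |Im a|, |Im b|`.
-/

set_option autoImplicit false

noncomputable section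

open Complex Finset

namespace PBTs

/-! ### sines -/

/-- `sin` as one exponential, `σ = ± 1` -/
theorem sin_eq {σ : ℂ} (hσ : σ = 1 ∨ σ = -1) (z : ℂ) :
    sin z = -(σ * I / 2) * exp (σ * z * I) * (1 - exp (-(2 * (σ * z * I)))) := by
  have e : exp (σ * z * I) * exp (-(2 * (σ * z * I))) = exp (-(σ * z * I)) := by
    rw [← exp_add]
    congr 1
    ring
  rw [mul_assoc, mul_sub, mul_one, e]
  unfold sin
  rcases hσ with h | h
  · subst h
    rw [show -(1 * z * I) = -z * I by ring, show (1 : ℂ) * z * I = z * I by ring]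
    ring
  · subst h
    rw [show -(-1 * z * I) = z * I by ring, show (-1 : ℂ) * z * I = -z * I by ring]
    ring

theorem norm_exp_two {s : ℝ} (z : ℂ) : ‖exp (-(2 * ((s : ℂ) * z * I)))‖ = Real.exp (2 * (s * z.im)) := by
  rw [norm_exp]
  congr 1
  simp

theorem norm_sin_le (z : ℂ) : ‖sin z‖ ≤ Real.exp |z.im| := by
  unfold sin
  rw [norm_div, norm_mul, norm_I, mul_one, Complex.norm_ofNat]
  have h1 : ‖exp (-z * I)‖ ≤ Real.exp |z.im| := by
    rw [norm_exp]
    refine Real.exp_le_exp.2 ?_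
    have : (-z * I).re = z.im := by simp
    rw [this]
    exact le_abs_self _
  have h2 : ‖exp (z * I)‖ ≤ Real.exp |z.im| := by
    rw [norm_exp]
    refine Real.exp_le_exp.2 ?_
    have : (z * I).re = -z.im := by simp
    rw [this]
    exact neg_le_abs _
  rw [div_le_iff₀ two_pos]
  calc ‖exp (-z * I) - exp (z * I)‖ ≤ ‖exp (-z * I)‖ + ‖exp (z * I)‖ := norm_sub_le _ _
    _ ≤ Real.exp |z.im| + Real.exp |z.im| := add_le_add h1 h2
    _ = Real.exp |z.im| * 2 := by ring

/-- `Log` is bounded by the logarithm of the modulus -/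
theorem norm_log_le (x : ℂ) : ‖log x‖ ≤ |Real.log ‖x‖| + Real.pi := by
  refine (norm_le_abs_re_add_abs_im _).trans ?_
  rw [log_re, log_im]
  exact add_le_add le_rfl (abs_arg_le_pi x)

/-! ### products of ratios -/

variable {n : ℕ} (a b : Fin n → ℂ)

/-- the product of ratios of sines -/
def sr (u : ℂ) : ℂ := ∏ i, (sin (a i - u) / sin (b i - u))

/-- the exponent of the limit, `σ = sign (Im u)` -/
def lam0 (σ : ℂ) : ℂ := σ * I * ∑ i, (a i - b i)

/-- the logarithm with a given exponent of the limit -/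
def plog (lam u : ℂ) : ℂ := lam + log (sr a b u * exp (-lam))

variable {a b}

theorem sr_ne {u : ℂ} (ha : ∀ i, sin (a i - u) ≠ 0) (hb : ∀ i, sin (b i - u) ≠ 0) :
    sr a b u ≠ 0 :=
  Finset.prod_ne_zero_iff.2 fun i _ => div_ne_zero (ha i) (hb i)

theorem exp_plog {lam u : ℂ} (h : sr a b u ≠ 0) : exp (plog a b lam u) = sr a b u := by
  unfold plog
  rw [exp_add, exp_log (mul_ne_zero h (exp_ne_zero _)), exp_neg]
  field_simp

/-- the ratio as exponential times a correction -/
theorem sr_eq {σ : ℂ} (hσ : σ = 1 ∨ σ = -1) {u : ℂ}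
    (hb : ∀ i, 1 - exp (-(2 * (σ * (b i - u) * I))) ≠ 0) :
    sr a b u = exp (lam0 a b σ) * ∏ i, (1 + (exp (-(2 * (σ * (b i - u) * I))) -
      exp (-(2 * (σ * (a i - u) * I)))) / (1 - exp (-(2 * (σ * (b i - u) * I))))) := by
  unfold sr lam0
  rw [Finset.mul_sum, exp_sum, ← Finset.prod_mul_distrib]
  refine Finset.prod_congr rfl fun i _ => ?_
  have hσ0 : σ ≠ 0 := by rcases hσ with h | h <;> rw [h] <;> norm_num
  rw [sin_eq hσ (a i - u), sin_eq hσ (b i - u)]
  have e : exp (σ * (a i - u) * I) = exp (σ * I * (a i - b i)) * exp (σ * (b i - u) * I) := by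
    rw [← exp_add]
    congr 1
    ring
  rw [e]
  have h1 := hb i
  have h2 := exp_ne_zero (σ * (b i - u) * I)
  have h3 := I_ne_zero
  generalize exp (-(2 * (σ * (a i - u) * I))) = X
  generalize exp (-(2 * (σ * (b i - u) * I))) = Y at h1 ⊢
  generalize exp (σ * I * (a i - b i)) = W
  generalize exp (σ * (b i - u) * I) = V at h2 ⊢
  field_simp
  ring

/-- the correction is close to one -/
theorem corr_le {s : ℝ} (hs : s = 1 ∨ s = -1) {u : ℂ} {e : ℝ} (h0 : 0 ≤ e) (he : e ≤ 1 / 2)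
    (ha : ∀ i, Real.exp (2 * (s * (a i - u).im)) ≤ e) (hb : ∀ i, Real.exp (2 * (s * (b i - u).im)) ≤ e) :
    ‖sr a b u * exp (-(lam0 a b s)) - 1‖ ≤ Real.exp (4 * (n : ℝ) * e) - 1 := by
  have hσ : ((s : ℝ) : ℂ) = 1 ∨ ((s : ℝ) : ℂ) = -1 := by
    rcases hs with h | h
    · left; rw [h]; simp
    · right; rw [h]; simp
  have hx : ∀ i, ‖exp (-(2 * ((s : ℂ) * (a i - u) * I)))‖ ≤ e := fun i => by
    rw [norm_exp_two]
    exact ha i
  have hy : ∀ i, ‖exp (-(2 * ((s : ℂ) * (b i - u) * I)))‖ ≤ e := fun i => by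
    rw [norm_exp_two]
    exact hb i
  have hd : ∀ i, 1 / 2 ≤ ‖1 - exp (-(2 * ((s : ℂ) * (b i - u) * I)))‖ := fun i => by
    have h1 := norm_sub_norm_le (1 : ℂ) (exp (-(2 * ((s : ℂ) * (b i - u) * I))))
    rw [norm_one] at h1
    linarith [hy i]
  have hne : ∀ i, 1 - exp (-(2 * ((s : ℂ) * (b i - u) * I))) ≠ 0 := fun i h => by
    have := hd i
    rw [h, norm_zero] at this
    linarith
  rw [sr_eq hσ hne, mul_right_comm, ← exp_add, add_neg_cancel, exp_zero, one_mul]
  refine (Finset.norm_prod_one_add_sub_one_le _ _).trans ?_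
  refine sub_le_sub_right (Real.exp_le_exp.2 ?_) 1
  calc ∑ i, ‖(exp (-(2 * ((s : ℂ) * (b i - u) * I))) - exp (-(2 * ((s : ℂ) * (a i - u) * I)))) /
        (1 - exp (-(2 * ((s : ℂ) * (b i - u) * I))))‖ ≤ ∑ _i : Fin n, 4 * e := by
        refine Finset.sum_le_sum fun i _ => ?_
        rw [norm_div, div_le_iff₀ (lt_of_lt_of_le (by norm_num) (hd i))]
        calc ‖exp (-(2 * ((s : ℂ) * (b i - u) * I))) - exp (-(2 * ((s : ℂ) * (a i - u) * I)))‖
            ≤ e + e := (norm_sub_le _ _).trans (add_le_add (hy i) (hx i))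
          _ = 4 * e * (1 / 2) := by ring
          _ ≤ _ := mul_le_mul_of_nonneg_left (hd i) (by linarith)
    _ = 4 * (n : ℝ) * e := by
        rw [Finset.sum_const, Finset.card_univ, Fintype.card_fin, nsmul_eq_mul]
        ring

/-- the logarithm of the product, bounded away from the zeros and poles -/
theorem log_sr_le {κ M : ℝ} (hκ : 0 < κ) (hκ1 : κ ≤ 1) {u : ℂ}
    (ha : ∀ i, κ * Real.exp |(a i - u).im| ≤ ‖sin (a i - u)‖)
    (hb : ∀ i, κ * Real.exp |(b i - u).im| ≤ ‖sin (b i - u)‖) (ia : ∀ i, |(a i).im| ≤ M)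
    (ib : ∀ i, |(b i).im| ≤ M) : |Real.log ‖sr a b u‖| ≤ n * (2 * M + 2 * Real.log κ⁻¹) := by
  have hk : ∀ z : ℂ, κ * Real.exp |z.im| ≤ ‖sin z‖ →
      |Real.log ‖sin z‖ - (|z.im|)| ≤ Real.log κ⁻¹ := by
    intro z hz
    have hp : 0 < ‖sin z‖ := lt_of_lt_of_le (by positivity) hz
    have h1 : Real.log ‖sin z‖ ≤ |z.im| := by
      have := Real.log_le_log hp (norm_sin_le z)
      rwa [Real.log_exp] at this
    have h2 : Real.log κ + |z.im| ≤ Real.log ‖sin z‖ := by
      have := Real.log_le_log (by positivity) hz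
      rwa [Real.log_mul hκ.ne' (Real.exp_pos _).ne', Real.log_exp] at this
    have h3 : 0 ≤ Real.log κ⁻¹ := Real.log_nonneg ((one_le_inv₀ hκ).2 hκ1)
    rw [Real.log_inv] at h3 ⊢
    rw [abs_le]
    constructor <;> linarith
  have hne : ∀ z : ℂ, κ * Real.exp |z.im| ≤ ‖sin z‖ → ‖sin z‖ ≠ 0 := fun z hz =>
    (lt_of_lt_of_le (by positivity) hz).ne'
  have e : Real.log ‖sr a b u‖ = ∑ i, (Real.log ‖sin (a i - u)‖ - Real.log ‖sin (b i - u)‖) := by
    unfold sr
    rw [norm_prod, Real.log_prod fun i _ => by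
      rw [norm_div]
      exact div_ne_zero (hne _ (ha i)) (hne _ (hb i))]
    exact Finset.sum_congr rfl fun i _ => by
      rw [norm_div, Real.log_div (hne _ (ha i)) (hne _ (hb i))]
  rw [e]
  refine (Finset.abs_sum_le_sum_abs _ _).trans ?_
  calc ∑ i, |Real.log ‖sin (a i - u)‖ - Real.log ‖sin (b i - u)‖|
      ≤ ∑ _i : Fin n, (2 * M + 2 * Real.log κ⁻¹) := by
        refine Finset.sum_le_sum fun i _ => ?_
        have h1 := hk _ (ha i)
        have h2 := hk _ (hb i)
        have h3 : |(|(a i - u).im| - |(b i - u).im|)| ≤ 2 * M := by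
          refine (abs_abs_sub_abs_le _ _).trans ?_
          have : (a i - u).im - (b i - u).im = (a i).im - (b i).im := by
            simp
          rw [this]
          refine (abs_sub _ _).trans ?_
          linarith [ia i, ib i]
        rw [abs_le] at h1 h2 h3 ⊢
        constructor <;> linarith [h1.1, h1.2, h2.1, h2.2, h3.1, h3.2]
    _ = n * (2 * M + 2 * Real.log κ⁻¹) := by
        rw [Finset.sum_const, Finset.card_univ, Fintype.card_fin, nsmul_eq_mul]

/-- the constant of `plog_le` -/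
def cP (n : ℕ) (κ : ℝ) : ℝ :=
  16 * ((n : ℝ) + 1) * (4 * n + 2 * n * Real.log κ⁻¹ + Real.pi) + 12 * n

theorem cP_nonneg {κ : ℝ} (hκ : 0 < κ) (hκ1 : κ ≤ 1) : 0 ≤ cP n κ := by
  have h3 : 0 ≤ Real.log κ⁻¹ := Real.log_nonneg ((one_le_inv₀ hκ).2 hκ1)
  have := Real.pi_pos
  unfold cP
  positivity

/-- **the logarithm minus its limit** -/
theorem plog_le {κ M s : ℝ} (hκ : 0 < κ) (hκ1 : κ ≤ 1) (hM : 0 ≤ M) (hs : s = 1 ∨ s = -1)
    {u lam : ℂ} (hu : s * u.im = |u.im|) (hl : exp lam = exp (lam0 a b s))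
    (ha : ∀ i, κ * Real.exp |(a i - u).im| ≤ ‖sin (a i - u)‖)
    (hb : ∀ i, κ * Real.exp |(b i - u).im| ≤ ‖sin (b i - u)‖) (ia : ∀ i, |(a i).im| ≤ M)
    (ib : ∀ i, |(b i).im| ≤ M) :
    ‖plog a b lam u - lam‖ ≤ cP n κ * (1 + M) * min 1 (Real.exp (2 * (M - |u.im|))) := by
  have hlk : 0 ≤ Real.log κ⁻¹ := Real.log_nonneg ((one_le_inv₀ hκ).2 hκ1)
  have hpi := Real.pi_pos
  have hn : (0 : ℝ) ≤ n := Nat.cast_nonneg n
  set e := Real.exp (2 * (M - |u.im|)) with he
  have e0 : 0 < e := Real.exp_pos _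
  have hx : plog a b lam u - lam = log (sr a b u * exp (-(lam0 a b s))) := by
    unfold plog
    rw [add_sub_cancel_left, exp_neg, hl, ← exp_neg]
  have hsa : |s| = 1 := by rcases hs with h | h <;> rw [h] <;> norm_num
  have hm : ∀ c : ℂ, |c.im| ≤ M → Real.exp (2 * (s * (c - u).im)) ≤ e := by
    intro c hc
    refine Real.exp_le_exp.2 ?_
    rw [sub_im, mul_sub, hu]
    have : s * c.im ≤ |c.im| := by
      calc s * c.im ≤ |s * c.im| := le_abs_self _
        _ = |c.im| := by rw [abs_mul, hsa, one_mul]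
    linarith
  rw [hx]
  by_cases hf : e ≤ 1 / (16 * ((n : ℝ) + 1))
  · have h16 : 0 < 16 * ((n : ℝ) + 1) := by positivity
    have hf' : e * (16 * ((n : ℝ) + 1)) ≤ 1 := by rwa [le_div_iff₀ h16] at hf
    have he2 : e ≤ 1 / 2 := by nlinarith
    have h4 : 4 * (n : ℝ) * e ≤ 1 / 4 := by nlinarith
    have h1 := corr_le (a := a) (b := b) hs e0.le he2 (fun i => hm _ (ia i)) (fun i => hm _ (ib i))
    have h2 : Real.exp (4 * (n : ℝ) * e) - 1 ≤ 8 * (n : ℝ) * e := by
      have hy0 : 0 ≤ 4 * (n : ℝ) * e := by positivity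
      have := Real.exp_bound_div_one_sub_of_interval hy0 (by linarith : 4 * (n : ℝ) * e < 1)
      have h5 : 1 / (1 - 4 * (n : ℝ) * e) ≤ 1 + 2 * (4 * (n : ℝ) * e) := by
        rw [div_le_iff₀ (by linarith)]
        nlinarith
      linarith
    have h3 : ‖sr a b u * exp (-(lam0 a b s)) - 1‖ ≤ 1 / 2 := by
      refine (h1.trans h2).trans ?_
      linarith
    have h6 := Complex.norm_log_one_add_half_le_self h3
    rw [add_sub_cancel] at h6
    have h7 : min 1 e = e := min_eq_right (by linarith)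
    rw [h7]
    calc ‖log (sr a b u * exp (-(lam0 a b s)))‖ ≤ 3 / 2 * (8 * (n : ℝ) * e) :=
          h6.trans (mul_le_mul_of_nonneg_left (h1.trans h2) (by norm_num))
      _ = 12 * n * 1 * e := by ring
      _ ≤ cP n κ * (1 + M) * e := by
          refine mul_le_mul_of_nonneg_right ?_ e0.le
          refine mul_le_mul ?_ (by linarith) zero_le_one (cP_nonneg hκ hκ1)
          unfold cP
          have : 0 ≤ 16 * ((n : ℝ) + 1) * (4 * n + 2 * n * Real.log κ⁻¹ + Real.pi) := by positivity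
          linarith
  · push Not at hf
    have hmin : 1 / (16 * ((n : ℝ) + 1)) ≤ min 1 e := by
      refine le_min ?_ hf.le
      rw [div_le_one (by positivity)]
      linarith
    have h1 : 1 ≤ 16 * ((n : ℝ) + 1) * min 1 e := by
      rw [div_le_iff₀ (by positivity)] at hmin
      linarith
    have hre : |(lam0 a b (s : ℂ)).re| ≤ 2 * n * M := by
      have e1 : (lam0 a b (s : ℂ)).re = -(s * ∑ i, ((a i).im - (b i).im)) := by
        unfold lam0
        simp [Complex.sub_im]
      rw [e1, abs_neg, abs_mul, hsa, one_mul]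
      refine (Finset.abs_sum_le_sum_abs _ _).trans ?_
      calc ∑ i, |(a i).im - (b i).im| ≤ ∑ _i : Fin n, 2 * M :=
            Finset.sum_le_sum fun i _ => (abs_sub _ _).trans (by linarith [ia i, ib i])
        _ = 2 * n * M := by
            rw [Finset.sum_const, Finset.card_univ, Fintype.card_fin, nsmul_eq_mul]
            ring
    have hsr : ‖sr a b u‖ ≠ 0 := by
      refine norm_ne_zero_iff.2 (sr_ne (fun i h => ?_) fun i h => ?_)
      · have := ha i
        rw [h, norm_zero] at this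
        linarith [mul_pos hκ (Real.exp_pos |(a i - u).im|)]
      · have := hb i
        rw [h, norm_zero] at this
        linarith [mul_pos hκ (Real.exp_pos |(b i - u).im|)]
    have h2 : |Real.log ‖sr a b u * exp (-(lam0 a b s))‖| ≤
        n * (2 * M + 2 * Real.log κ⁻¹) + 2 * n * M := by
      rw [norm_mul, norm_exp, Real.log_mul hsr (Real.exp_pos _).ne', Real.log_exp, neg_re]
      refine (abs_add_le _ _).trans (add_le_add (log_sr_le hκ hκ1 ha hb ia ib) ?_)
      rw [abs_neg]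
      exact hre
    calc ‖log (sr a b u * exp (-(lam0 a b s)))‖
        ≤ n * (2 * M + 2 * Real.log κ⁻¹) + 2 * n * M + Real.pi :=
          (norm_log_le _).trans (add_le_add h2 le_rfl)
      _ ≤ (4 * n + 2 * n * Real.log κ⁻¹ + Real.pi) * (1 + M) := by
          have : 0 ≤ (2 * n * Real.log κ⁻¹ + Real.pi) * M := by positivity
          nlinarith
      _ = (4 * n + 2 * n * Real.log κ⁻¹ + Real.pi) * (1 + M) * 1 := by ring
      _ ≤ (4 * n + 2 * n * Real.log κ⁻¹ + Real.pi) * (1 + M) * (16 * ((n : ℝ) + 1) * min 1 e) :=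
          mul_le_mul_of_nonneg_left h1 (by positivity)
      _ = 16 * ((n : ℝ) + 1) * (4 * n + 2 * n * Real.log κ⁻¹ + Real.pi) * ((1 + M) * min 1 e) := by
          ring
      _ ≤ cP n κ * ((1 + M) * min 1 e) := by
          refine mul_le_mul_of_nonneg_right ?_ (mul_nonneg (by linarith) (le_min zero_le_one e0.le))
          unfold cP
          linarith
      _ = _ := by ring

end PBTs

end
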