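import Pool.Agent.PB.BsR
import Pool.Agent.PB.Reg0
import Pool.Agent.PB.FNeq
import Pool.Agent.PB.TRsA
import Pool.Agent.PB.TRsE
import Pool.Agent.PB.MeasZ

/-!
# The class W W of the regular function over the dislocated function: products of ratios of sines

Rows `0^m` in both, the same cutoff lists; half quanta `w`, `w'` (`Re = 5 l / 4`), legs `z`.

* `sR b k w w' z`: the ratio, literally `PBTs.sr a b` (`aR`, `bR`); `sgK`: its sign (`-1` for a single
  quantum);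
* **`RZW_eq`**: `RZW (R0 m β ex ex0) w w' = Zm (ZL ..) (sgK * sR)` at all positions of the functional;
* `lam_one`, `lam_str`: exponents of the limits; `sR_ne`, `sR_low`: no zeros, lower bounds of the sines;
* `EqAt`, `FF_congrZ`, `FA_congrZ`: the functional depends on `Z` at its positions only;
* `FF_sgK`: the signs give `(-1) ^ (n + n')`;
* **`RZW_FF`**, **`RZW_FA`**: the functional of the class W W as the functional of `ZL` with the ratio;
  **`RZW_exp`**: the same with `expZ (ZL ..) D 1`, `exp (D b k u) = sR b k w w' z u`.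
-/

set_option autoImplicit false
set_option linter.unusedSectionVars false
set_option linter.unusedVariables false

noncomputable section

open Complex MeasureTheory Finset
open scoped ENNReal

namespace PBW

open NUO NUP1 NUCR NUP1S NUP1S.Ab NUP1S.AbC NURow NUGC PBX PBF PBR
open NUP1.Leg (thE Ck Dk)
open PBTs (lam0)

/-! ### the ratio -/

/-- numerators, one quantum (own half quantum `w`) -/
def aN (w w' z : ℂ) : Fin 6 → ℂ := ![-(3 * l), -(3 * l), w, w + 2 * l, w' + 4 * l, z + 2 * l]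

/-- denominators, one quantum -/
def bN (w w' z : ℂ) : Fin 6 → ℂ := ![2 * l, 2 * l, w + l, w' + 3 * l, w' - 3 * l, z - 3 * l]

/-- numerators, string -/
def aS (w w' z : ℂ) : Fin 8 → ℂ :=
  ![5 * l, -(3 * l), -(2 * l), -(2 * l), w, w + 3 * l, z + 2 * l, z + 3 * l]

/-- denominators, string -/
def bS (w w' z : ℂ) : Fin 8 → ℂ :=
  ![2 * l, 2 * l, 3 * l, 3 * l, w' + 3 * l, w' - 2 * l, z - 3 * l, z - 2 * l]

/-- the ratio of one kind, own half quantum first -/
def sK (w w' z : ℂ) : Option O3 → ℂ → ℂ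
  | none => PBTs.sr (aN w w' z) (bN w w' z)
  | some .L => PBTs.sr (aN w w' z) (bN w w' z)
  | some .S => PBTs.sr (aS w w' z) (bS w w' z)
  | some .T => PBTs.sr (aS w w' z) (bS w w' z)

/-- **the ratio** -/
def sR (w w' z : ℂ) : Bool → Option O3 → ℂ → ℂ := fun b => if b then sK w w' z else sK w' w z

/-- the sign -/
def sgK : Bool → Option O3 → ℂ → ℂ
  | _, none, _ => -1
  | _, some .L, _ => -1
  | _, some .S, _ => 1
  | _, some .T, _ => 1

theorem lam_one (σ w w' z : ℂ) : lam0 (aN w w' z) (bN w w' z) σ = σ * I * (w - w') := by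
  unfold lam0 aN bN
  simp only [Fin.sum_univ_succ, Matrix.cons_val_zero, Matrix.cons_val_succ, Fin.sum_univ_zero]
  ring

theorem lam_str (σ w w' z : ℂ) : lam0 (aS w w' z) (bS w w' z) σ = σ * I * (2 * (w - w')) := by
  unfold lam0 aS bS
  simp only [Fin.sum_univ_succ, Matrix.cons_val_zero, Matrix.cons_val_succ, Fin.sum_univ_zero]
  ring

theorem four_l : (4 : ℂ) * (l : ℂ) = (Real.pi : ℂ) / 2 := by
  unfold NUP1.l
  push_cast
  ring

theorem eight_l : (8 : ℂ) * (l : ℂ) = (Real.pi : ℂ) := by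
  unfold NUP1.l
  push_cast
  ring

theorem cos_sin4 (x : ℂ) : cos x = sin (x + 4 * l) := by
  rw [four_l, Complex.sin_add_pi_div_two]

theorem sin_five (x : ℂ) : sin (5 * l - x) = sin (x + 3 * l) := by
  rw [show (5 : ℂ) * l - x = 8 * l - (x + 3 * l) by ring, eight_l, Complex.sin_pi_sub]

/-- the product, one quantum -/
theorem sr_one (w w' z u : ℂ) : PBTs.sr (aN w w' z) (bN w w' z) u =
    (sin (-(3 * l) - u) / sin (2 * l - u)) * (sin (-(3 * l) - u) / sin (2 * l - u)) *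
      (sin (w - u) / sin (w + l - u)) * (sin (w + 2 * l - u) / sin (w' + 3 * l - u)) *
      (sin (w' + 4 * l - u) / sin (w' - 3 * l - u)) * (sin (z + 2 * l - u) / sin (z - 3 * l - u)) := by
  unfold PBTs.sr aN bN
  simp only [Fin.prod_univ_succ, Matrix.cons_val_zero, Matrix.cons_val_succ, Fin.prod_univ_zero]
  ring

/-- the product, string -/
theorem sr_str (w w' z u : ℂ) : PBTs.sr (aS w w' z) (bS w w' z) u =
    (sin (5 * l - u) / sin (2 * l - u)) * (sin (-(3 * l) - u) / sin (2 * l - u)) *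
      (sin (-(2 * l) - u) / sin (3 * l - u)) * (sin (-(2 * l) - u) / sin (3 * l - u)) *
      (sin (w - u) / sin (w' + 3 * l - u)) * (sin (w + 3 * l - u) / sin (w' - 2 * l - u)) *
      (sin (z + 2 * l - u) / sin (z - 3 * l - u)) * (sin (z + 3 * l - u) / sin (z - 2 * l - u)) := by
  unfold PBTs.sr aS bS
  simp only [Fin.prod_univ_succ, Matrix.cons_val_zero, Matrix.cons_val_succ, Fin.prod_univ_zero]
  ring

/-- **one quantum** -/
theorem one_eq {w w' z u : ℂ} (h1 : sin (z - u - 3 * l) ≠ 0) (h2 : sin (z - u + 2 * l) ≠ 0) :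
    thE 0 0 0 0 u * (Ck (w - u) * Dk (w' - u)) =
      Lg z z u * (-1 * PBTs.sr (aN w w' z) (bN w w' z) u) := by
  rw [sr_one]
  unfold thE Ck Dk Lg
  rw [cos_sin4 (w' - u), sub_zero, show (0 : ℂ) - u + 2 * l = 2 * l - u by ring,
    show -(3 * (l : ℂ)) - u = -(u + 3 * l) by ring, Complex.sin_neg,
    show w - u + 2 * l = w + 2 * l - u by ring, show w - u + l = w + l - u by ring,
    show 3 * (l : ℂ) - (w' - u) = -(w' - 3 * l - u) by ring, Complex.sin_neg,
    show 3 * (l : ℂ) + (w' - u) = w' + 3 * l - u by ring,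
    show w' - u + 4 * l = w' + 4 * l - u by ring]
  rw [show z - u - 3 * l = z - 3 * l - u by ring] at h1 ⊢
  rw [show z - u + 2 * l = z + 2 * l - u by ring] at h2 ⊢
  have e : sin (z - 3 * l - u) / sin (z + 2 * l - u) * (sin (z + 2 * l - u) / sin (z - 3 * l - u)) =
      1 := by
    rw [div_mul_div_comm, mul_comm (sin (z + 2 * l - u))]
    exact div_self (mul_ne_zero h1 h2)
  set A := sin (z - 3 * l - u) / sin (z + 2 * l - u)
  set B := sin (z + 2 * l - u) / sin (z - 3 * l - u)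
  have e2 : A * (-1 * (-sin (u + 3 * l) / sin (2 * l - u) * (-sin (u + 3 * l) / sin (2 * l - u)) *
      (sin (w - u) / sin (w + l - u)) * (sin (w + 2 * l - u) / sin (w' + 3 * l - u)) *
      (sin (w' + 4 * l - u) / sin (w' - 3 * l - u)) * B)) =
      (A * B) * (-1 * (-sin (u + 3 * l) / sin (2 * l - u) * (-sin (u + 3 * l) / sin (2 * l - u)) *
      (sin (w - u) / sin (w + l - u)) * (sin (w + 2 * l - u) / sin (w' + 3 * l - u)) *
      (sin (w' + 4 * l - u) / sin (w' - 3 * l - u)))) := by ring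
  rw [e2, e, one_mul]
  simp only [div_eq_mul_inv, mul_inv]
  rw [inv_neg]
  ring

/-- **string** -/
theorem str_eq {w w' z u : ℂ} (h1 : sin (z - u - 3 * l) ≠ 0) (h2 : sin (z - u + 2 * l) ≠ 0)
    (h3 : sin (z - u - 2 * l) ≠ 0) (h4 : sin (z - u + 3 * l) ≠ 0) :
    thE 0 0 0 0 u * thE 0 0 0 0 (u - l) * (NURow.CC (w - u) * NURow.DD (w' - u)) =
      Lg z z u * Lg z z (u - l) * (1 * PBTs.sr (aS w w' z) (bS w w' z) u) := by
  rw [sr_str]
  unfold thE NURow.CC NURow.DD Lg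
  rw [sin_five, sub_zero, show (0 : ℂ) - u + 2 * l = 2 * l - u by ring,
    show -(3 * (l : ℂ)) - u = -(u + 3 * l) by ring, Complex.sin_neg, sub_zero,
    show u - l + 3 * l = u + 2 * l by ring, show (0 : ℂ) - (u - l) + 2 * l = 3 * l - u by ring,
    show -(2 * (l : ℂ)) - u = -(u + 2 * l) by ring, Complex.sin_neg (u + 2 * l),
    show w - u + 3 * l = w + 3 * l - u by ring,
    show 3 * (l : ℂ) + (w' - u) = w' + 3 * l - u by ring,
    show 2 * (l : ℂ) - (w' - u) = -(w' - 2 * l - u) by ring, Complex.sin_neg (w' - 2 * l - u),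
    show z - (u - l) - 3 * l = z - 2 * l - u by ring,
    show z - (u - l) + 2 * l = z + 3 * l - u by ring]
  rw [show z - u - 3 * l = z - 3 * l - u by ring] at h1 ⊢
  rw [show z - u + 2 * l = z + 2 * l - u by ring] at h2 ⊢
  rw [show z - u - 2 * l = z - 2 * l - u by ring] at h3
  rw [show z - u + 3 * l = z + 3 * l - u by ring] at h4
  have e : sin (z - 3 * l - u) / sin (z + 2 * l - u) * (sin (z + 2 * l - u) / sin (z - 3 * l - u)) =
      1 := by
    rw [div_mul_div_comm, mul_comm (sin (z + 2 * l - u))]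
    exact div_self (mul_ne_zero h1 h2)
  have e' : sin (z - 2 * l - u) / sin (z + 3 * l - u) * (sin (z + 3 * l - u) / sin (z - 2 * l - u)) =
      1 := by
    rw [div_mul_div_comm, mul_comm (sin (z + 3 * l - u))]
    exact div_self (mul_ne_zero h3 h4)
  set A := sin (z - 3 * l - u) / sin (z + 2 * l - u)
  set B := sin (z + 2 * l - u) / sin (z - 3 * l - u)
  set A' := sin (z - 2 * l - u) / sin (z + 3 * l - u)
  set B' := sin (z + 3 * l - u) / sin (z - 2 * l - u)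
  have e2 : A * A' * (1 * (sin (u + 3 * l) / sin (2 * l - u) * (-sin (u + 3 * l) / sin (2 * l - u)) *
      (-sin (u + 2 * l) / sin (3 * l - u)) * (-sin (u + 2 * l) / sin (3 * l - u)) *
      (sin (w - u) / sin (w' + 3 * l - u)) * (sin (w + 3 * l - u) / sin (w' - 2 * l - u)) * B * B')) =
      (A * B) * (A' * B') * (sin (u + 3 * l) / sin (2 * l - u) *
      (-sin (u + 3 * l) / sin (2 * l - u)) *
      (-sin (u + 2 * l) / sin (3 * l - u)) * (-sin (u + 2 * l) / sin (3 * l - u)) *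
      (sin (w - u) / sin (w' + 3 * l - u)) * (sin (w + 3 * l - u) / sin (w' - 2 * l - u))) := by
    ring
  rw [e2, e, e', one_mul, one_mul]
  simp only [div_eq_mul_inv, mul_inv]
  rw [inv_neg]
  ring


/-! ### the positions -/

/-- real parts of the positions of the functional -/
def Pos : Option O3 → Set ℝ
  | none => Set.Icc (3 / 5 * l) (11 / 10 * l)
  | some .L => Set.Icc (-(17 / 10 * l)) (-(5 / 4 * l))
  | some .S => Set.Icc (-(13 / 10 * l)) (-(11 / 10 * l))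
  | some .T => Set.Icc (-(7 / 10 * l)) (-(1 / 2 * l))

/-- equal at the positions -/
def EqAt (Z Z' : Bool → Option O3 → ℂ → ℂ) : Prop := ∀ s k u, u.re ∈ Pos k → Z s k u = Z' s k u

theorem sin_ne_pos {z : ℂ} (h1 : 0 < z.re) (h2 : z.re < 8 * l) : sin z ≠ 0 :=
  Bd.sin_ne_zero_of_re (Real.sin_pos_of_pos_of_lt_pi h1 (by
    have : 8 * l = Real.pi := by unfold NUP1.l; ring
    linarith)).ne'

theorem sin_ne_neg {z : ℂ} (h1 : -(8 * l) < z.re) (h2 : z.re < 0) : sin z ≠ 0 := by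
  have h := sin_ne_pos (z := -z) (by rw [neg_re]; linarith) (by rw [neg_re]; linarith)
  rw [Complex.sin_neg] at h
  exact neg_ne_zero.1 h

/-- **The class W W of the regular function over the dislocated function**, at all positions. -/
theorem RZW_eqAt (m : ℕ) (β : ℝ) (ex ex0 : List ℂ) (w w' : ℂ) {z : ℂ} (h1 : -(9 / 10 * l) < z.re)
    (h2 : z.re < 7 / 10 * l) : EqAt (RZW (R0 m β ex ex0) w w')
      (Zm (ZL β (fun _ : Fin m => (0 : ℂ)) ex ex0 z) fun s k u => sgK s k u * sR w w' z s k u) := by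
  have hl := Bd.l_pos
  intro s k u hu
  have re1 : (z - u - 3 * l).re = z.re - u.re - 3 * l := by simp
  have re2 : (z - u + 2 * l).re = z.re - u.re + 2 * l := by simp
  have re3 : (z - u - 2 * l).re = z.re - u.re - 2 * l := by simp
  have re4 : (z - u + 3 * l).re = z.re - u.re + 3 * l := by simp
  have n1 : sin (z - u - 3 * l) ≠ 0 := by
    refine sin_ne_neg ?_ ?_ <;> rw [re1] <;> rcases k with _ | _ | _ | _ <;>
      obtain ⟨hu1, hu2⟩ := hu <;> linarith
  have n2 : sin (z - u + 2 * l) ≠ 0 := by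
    refine sin_ne_pos ?_ ?_ <;> rw [re2] <;> rcases k with _ | _ | _ | _ <;>
      obtain ⟨hu1, hu2⟩ := hu <;> linarith
  have E : ∀ (A B C : ℂ) {x y : ℂ}, x = y * C → A * B * x = A * B * y * C := by
    intro A B C x y h
    rw [h]
    ring
  have E3 : ∀ (A C : ℂ) {x y : ℂ}, x = y * C → A * x = A * y * C := by
    intro A C x y h
    rw [h]
    ring
  have one : ∀ a b : ℂ, thE 0 0 0 0 u * (Ck (a - u) * Dk (b - u)) =
      Lg z z u * (-1 * PBTs.sr (aN a b z) (bN a b z) u) := fun a b => one_eq n1 n2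
  rcases k with _ | _ | _ | _
  · -- one quantum
    cases s
    · show RR (Leg.cc m) (fun _ => 0) (fun _ => 0) u * PBX.ph β (fun _ => 0) (gP β ex) u *
          thE 0 0 0 0 u * (Dk (w - u) * Ck (w' - u)) =
        RR (Leg.cc m) (fun _ => 0) (fun _ => 0) u * PBX.ph β (fun _ => 0) (gP β ex) u *
          Lg z z u * (-1 * PBTs.sr (aN w' w z) (bN w' w z) u)
      have := one w' w
      rw [mul_comm (Ck (w' - u))] at this
      rw [mul_assoc _ (thE 0 0 0 0 u), mul_assoc _ (Lg z z u), this]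
    · show RR (Leg.cc m) (fun _ => 0) (fun _ => 0) u * PBX.ph β (fun _ => 0) (gP β ex) u *
          thE 0 0 0 0 u * (Ck (w - u) * Dk (w' - u)) =
        RR (Leg.cc m) (fun _ => 0) (fun _ => 0) u * PBX.ph β (fun _ => 0) (gP β ex) u *
          Lg z z u * (-1 * PBTs.sr (aN w w' z) (bN w w' z) u)
      rw [mul_assoc _ (thE 0 0 0 0 u), mul_assoc _ (Lg z z u), one w w']
  · -- L
    cases s
    · show RR (Leg.cc m) (fun _ => 0) (fun _ => 0) u * PBX.ph β (fun _ => 0) (gP β ex) u *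
          thE 0 0 0 0 u * (Dk (w - u) * Ck (w' - u)) =
        RR (Leg.cc m) (fun _ => 0) (fun _ => 0) u * PBX.ph β (fun _ => 0) (gP β ex) u *
          Lg z z u * (-1 * PBTs.sr (aN w' w z) (bN w' w z) u)
      have := one w' w
      rw [mul_comm (Ck (w' - u))] at this
      rw [mul_assoc _ (thE 0 0 0 0 u), mul_assoc _ (Lg z z u), this]
    · show RR (Leg.cc m) (fun _ => 0) (fun _ => 0) u * PBX.ph β (fun _ => 0) (gP β ex) u *
          thE 0 0 0 0 u * (Ck (w - u) * Dk (w' - u)) =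
        RR (Leg.cc m) (fun _ => 0) (fun _ => 0) u * PBX.ph β (fun _ => 0) (gP β ex) u *
          Lg z z u * (-1 * PBTs.sr (aN w w' z) (bN w w' z) u)
      rw [mul_assoc _ (thE 0 0 0 0 u), mul_assoc _ (Lg z z u), one w w']
  · -- S
    obtain ⟨hu1, hu2⟩ := hu
    have n3 : sin (z - u - 2 * l) ≠ 0 := by
      refine sin_ne_neg ?_ ?_ <;> rw [re3] <;> linarith
    have n4 : sin (z - u + 3 * l) ≠ 0 := by
      refine sin_ne_pos ?_ ?_ <;> rw [re4] <;> linarith
    cases s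
    · show RR (Leg.cc m) (fun _ => 0) (fun _ => 0) u * RR (Leg.cc m) (fun _ => 0) (fun _ => 0) (u - l) *
          PBX.ph (4 / 3) (fun _ => 0) (gP (4 / 3) ex0) u * (thE 0 0 0 0 u * thE 0 0 0 0 (u - l)) *
          (NURow.DD (w - u) * NURow.CC (w' - u)) =
        RR (Leg.cc m) (fun _ => 0) (fun _ => 0) u * RR (Leg.cc m) (fun _ => 0) (fun _ => 0) (u - l) *
          PBX.ph (4 / 3) (fun _ => 0) (gP (4 / 3) ex0) u * (Lg z z u * Lg z z (u - l)) *
          (1 * PBTs.sr (aS w' w z) (bS w' w z) u)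
      have := str_eq (w := w') (w' := w) n1 n2 n3 n4
      rw [mul_comm (NURow.CC (w' - u))] at this
      rw [mul_assoc _ (thE 0 0 0 0 u * _), this, mul_assoc _ (Lg z z u * _)]
    · show RR (Leg.cc m) (fun _ => 0) (fun _ => 0) u * RR (Leg.cc m) (fun _ => 0) (fun _ => 0) (u - l) *
          PBX.ph (4 / 3) (fun _ => 0) (gP (4 / 3) ex0) u * (thE 0 0 0 0 u * thE 0 0 0 0 (u - l)) *
          (NURow.CC (w - u) * NURow.DD (w' - u)) =
        RR (Leg.cc m) (fun _ => 0) (fun _ => 0) u * RR (Leg.cc m) (fun _ => 0) (fun _ => 0) (u - l) *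
          PBX.ph (4 / 3) (fun _ => 0) (gP (4 / 3) ex0) u * (Lg z z u * Lg z z (u - l)) *
          (1 * PBTs.sr (aS w w' z) (bS w w' z) u)
      rw [mul_assoc _ (thE 0 0 0 0 u * _), str_eq n1 n2 n3 n4, mul_assoc _ (Lg z z u * _)]
  · -- T
    obtain ⟨hu1, hu2⟩ := hu
    have n3 : sin (z - u - 2 * l) ≠ 0 := by
      refine sin_ne_neg ?_ ?_ <;> rw [re3] <;> linarith
    have n4 : sin (z - u + 3 * l) ≠ 0 := by
      refine sin_ne_pos ?_ ?_ <;> rw [re4] <;> linarith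
    cases s
    · show TT (Leg.cc m) β (4 / 3) (fun _ => 0) (fun _ => 0) (gP β ex) (gP (4 / 3) ex0) u *
          (thE 0 0 0 0 u * thE 0 0 0 0 (u - l)) * (NURow.DD (w - u) * NURow.CC (w' - u)) =
        TT (Leg.cc m) β (4 / 3) (fun _ => 0) (fun _ => 0) (gP β ex) (gP (4 / 3) ex0) u *
          (Lg z z u * Lg z z (u - l)) * (1 * PBTs.sr (aS w' w z) (bS w' w z) u)
      have := str_eq (w := w') (w' := w) n1 n2 n3 n4
      rw [mul_comm (NURow.CC (w' - u))] at this
      rw [mul_assoc _ (thE 0 0 0 0 u * _), this, mul_assoc _ (Lg z z u * _)]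
    · show TT (Leg.cc m) β (4 / 3) (fun _ => 0) (fun _ => 0) (gP β ex) (gP (4 / 3) ex0) u *
          (thE 0 0 0 0 u * thE 0 0 0 0 (u - l)) * (NURow.CC (w - u) * NURow.DD (w' - u)) =
        TT (Leg.cc m) β (4 / 3) (fun _ => 0) (fun _ => 0) (gP β ex) (gP (4 / 3) ex0) u *
          (Lg z z u * Lg z z (u - l)) * (1 * PBTs.sr (aS w w' z) (bS w w' z) u)
      rw [mul_assoc _ (thE 0 0 0 0 u * _), str_eq n1 n2 n3 n4, mul_assoc _ (Lg z z u * _)]


/-! ### lower bounds of the sines -/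

/-- the constant of the lower bounds -/
def ka : ℝ := Real.sin (l / 20) / 2

theorem ka_pos : 0 < ka := by
  have hl := Bd.l_pos
  have h8 : 8 * l = Real.pi := by unfold NUP1.l; ring
  unfold ka
  exact half_pos (Real.sin_pos_of_pos_of_lt_pi (by linarith) (by linarith))

theorem ka_le : ka ≤ 1 := by
  unfold ka
  linarith [Real.sin_le_one (l / 20)]

theorem sin_lowR {x : ℝ} (h1 : l / 20 ≤ x) (h2 : x ≤ 8 * l - l / 20) : 2 * ka ≤ |Real.sin x| := by
  have hl := Bd.l_pos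
  have h8 : 8 * l = Real.pi := by unfold NUP1.l; ring
  unfold ka
  rw [mul_div_cancel₀ _ two_ne_zero]
  refine le_trans ?_ (le_abs_self _)
  rcases le_total x (Real.pi / 2) with h | h
  · exact Real.sin_le_sin_of_le_of_le_pi_div_two (by linarith) h h1
  · rw [← Real.sin_pi_sub x]
    exact Real.sin_le_sin_of_le_of_le_pi_div_two (by linarith) (by linarith) (by linarith)

/-- lower bound, real part away from the zeros -/
theorem sin_lowP {z : ℂ} (h1 : l / 20 ≤ z.re) (h2 : z.re ≤ 8 * l - l / 20) :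
    ka * Real.exp |z.im| ≤ ‖sin z‖ := by
  refine le_trans ?_ (Bd.le_norm_sin z)
  have h3 := Bd.exp_le_cosh z.im
  have h4 := sin_lowR h1 h2
  have h5 := ka_pos
  have h6 : 0 < Real.cosh z.im := Real.cosh_pos _
  nlinarith

theorem sin_lowN {z : ℂ} (h1 : -(8 * l - l / 20) ≤ z.re) (h2 : z.re ≤ -(l / 20)) :
    ka * Real.exp |z.im| ≤ ‖sin z‖ := by
  have h := sin_lowP (z := -z) (by rw [neg_re]; linarith) (by rw [neg_re]; linarith)
  rwa [Complex.sin_neg, norm_neg, neg_im, abs_neg] at h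

section low
variable {w w' z u : ℂ} (hw : w.re = 5 / 4 * l) (hw' : w'.re = 5 / 4 * l)
  (hz : z.re ∈ Set.Icc (-(l / 2)) 0)
include hw hw' hz

theorem aN_low (hu : u.re ∈ Pos none ∪ Pos (some .L)) (i : Fin 6) :
    ka * Real.exp |(aN w w' z i - u).im| ≤ ‖sin (aN w w' z i - u)‖ := by
  have hl := Bd.l_pos
  obtain ⟨z1, z2⟩ := hz
  have hu' : -(17 / 10 * l) ≤ u.re ∧ u.re ≤ 11 / 10 * l := by
    rcases hu with ⟨h1, h2⟩ | ⟨h1, h2⟩ <;> constructor <;> linarith
  obtain ⟨u1, u2⟩ := hu'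
  fin_cases i
  · show ka * Real.exp |(-(3 * (l : ℂ)) - u).im| ≤ ‖sin (-(3 * (l : ℂ)) - u)‖
    have e : (-(3 * (l : ℂ)) - u).re = -(3 * l) - u.re := by simp
    refine sin_lowN ?_ ?_ <;> rw [e] <;> linarith
  · show ka * Real.exp |(-(3 * (l : ℂ)) - u).im| ≤ ‖sin (-(3 * (l : ℂ)) - u)‖
    have e : (-(3 * (l : ℂ)) - u).re = -(3 * l) - u.re := by simp
    refine sin_lowN ?_ ?_ <;> rw [e] <;> linarith
  · show ka * Real.exp |(w - u).im| ≤ ‖sin (w - u)‖
    have e : (w - u).re = w.re - u.re := by simp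
    refine sin_lowP ?_ ?_ <;> rw [e] <;> linarith
  · show ka * Real.exp |(w + 2 * (l : ℂ) - u).im| ≤ ‖sin (w + 2 * (l : ℂ) - u)‖
    have e : (w + 2 * (l : ℂ) - u).re = w.re + 2 * l - u.re := by simp
    refine sin_lowP ?_ ?_ <;> rw [e] <;> linarith
  · show ka * Real.exp |(w' + 4 * (l : ℂ) - u).im| ≤ ‖sin (w' + 4 * (l : ℂ) - u)‖
    have e : (w' + 4 * (l : ℂ) - u).re = w'.re + 4 * l - u.re := by simp
    refine sin_lowP ?_ ?_ <;> rw [e] <;> linarith
  · show ka * Real.exp |(z + 2 * (l : ℂ) - u).im| ≤ ‖sin (z + 2 * (l : ℂ) - u)‖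
    have e : (z + 2 * (l : ℂ) - u).re = z.re + 2 * l - u.re := by simp
    refine sin_lowP ?_ ?_ <;> rw [e] <;> linarith

theorem bN_low (hu : u.re ∈ Pos none ∪ Pos (some .L)) (i : Fin 6) :
    ka * Real.exp |(bN w w' z i - u).im| ≤ ‖sin (bN w w' z i - u)‖ := by
  have hl := Bd.l_pos
  obtain ⟨z1, z2⟩ := hz
  have hu' : -(17 / 10 * l) ≤ u.re ∧ u.re ≤ 11 / 10 * l := by
    rcases hu with ⟨h1, h2⟩ | ⟨h1, h2⟩ <;> constructor <;> linarith
  obtain ⟨u1, u2⟩ := hu'
  fin_cases i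
  · show ka * Real.exp |(2 * (l : ℂ) - u).im| ≤ ‖sin (2 * (l : ℂ) - u)‖
    have e : (2 * (l : ℂ) - u).re = 2 * l - u.re := by simp
    refine sin_lowP ?_ ?_ <;> rw [e] <;> linarith
  · show ka * Real.exp |(2 * (l : ℂ) - u).im| ≤ ‖sin (2 * (l : ℂ) - u)‖
    have e : (2 * (l : ℂ) - u).re = 2 * l - u.re := by simp
    refine sin_lowP ?_ ?_ <;> rw [e] <;> linarith
  · show ka * Real.exp |(w + (l : ℂ) - u).im| ≤ ‖sin (w + (l : ℂ) - u)‖
    have e : (w + (l : ℂ) - u).re = w.re + l - u.re := by simp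
    refine sin_lowP ?_ ?_ <;> rw [e] <;> linarith
  · show ka * Real.exp |(w' + 3 * (l : ℂ) - u).im| ≤ ‖sin (w' + 3 * (l : ℂ) - u)‖
    have e : (w' + 3 * (l : ℂ) - u).re = w'.re + 3 * l - u.re := by simp
    refine sin_lowP ?_ ?_ <;> rw [e] <;> linarith
  · show ka * Real.exp |(w' - 3 * (l : ℂ) - u).im| ≤ ‖sin (w' - 3 * (l : ℂ) - u)‖
    have e : (w' - 3 * (l : ℂ) - u).re = w'.re - 3 * l - u.re := by simp
    refine sin_lowN ?_ ?_ <;> rw [e] <;> linarith
  · show ka * Real.exp |(z - 3 * (l : ℂ) - u).im| ≤ ‖sin (z - 3 * (l : ℂ) - u)‖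
    have e : (z - 3 * (l : ℂ) - u).re = z.re - 3 * l - u.re := by simp
    refine sin_lowN ?_ ?_ <;> rw [e] <;> linarith

theorem aS_low (hu : u.re ∈ Pos (some .S) ∪ Pos (some .T)) (i : Fin 8) :
    ka * Real.exp |(aS w w' z i - u).im| ≤ ‖sin (aS w w' z i - u)‖ := by
  have hl := Bd.l_pos
  obtain ⟨z1, z2⟩ := hz
  have hu' : -(13 / 10 * l) ≤ u.re ∧ u.re ≤ -(1 / 2 * l) := by
    rcases hu with ⟨h1, h2⟩ | ⟨h1, h2⟩ <;> constructor <;> linarith
  obtain ⟨u1, u2⟩ := hu'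
  fin_cases i
  · show ka * Real.exp |(5 * (l : ℂ) - u).im| ≤ ‖sin (5 * (l : ℂ) - u)‖
    have e : (5 * (l : ℂ) - u).re = 5 * l - u.re := by simp
    refine sin_lowP ?_ ?_ <;> rw [e] <;> linarith
  · show ka * Real.exp |(-(3 * (l : ℂ)) - u).im| ≤ ‖sin (-(3 * (l : ℂ)) - u)‖
    have e : (-(3 * (l : ℂ)) - u).re = -(3 * l) - u.re := by simp
    refine sin_lowN ?_ ?_ <;> rw [e] <;> linarith
  · show ka * Real.exp |(-(2 * (l : ℂ)) - u).im| ≤ ‖sin (-(2 * (l : ℂ)) - u)‖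
    have e : (-(2 * (l : ℂ)) - u).re = -(2 * l) - u.re := by simp
    refine sin_lowN ?_ ?_ <;> rw [e] <;> linarith
  · show ka * Real.exp |(-(2 * (l : ℂ)) - u).im| ≤ ‖sin (-(2 * (l : ℂ)) - u)‖
    have e : (-(2 * (l : ℂ)) - u).re = -(2 * l) - u.re := by simp
    refine sin_lowN ?_ ?_ <;> rw [e] <;> linarith
  · show ka * Real.exp |(w - u).im| ≤ ‖sin (w - u)‖
    have e : (w - u).re = w.re - u.re := by simp
    refine sin_lowP ?_ ?_ <;> rw [e] <;> linarith
  · show ka * Real.exp |(w + 3 * (l : ℂ) - u).im| ≤ ‖sin (w + 3 * (l : ℂ) - u)‖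
    have e : (w + 3 * (l : ℂ) - u).re = w.re + 3 * l - u.re := by simp
    refine sin_lowP ?_ ?_ <;> rw [e] <;> linarith
  · show ka * Real.exp |(z + 2 * (l : ℂ) - u).im| ≤ ‖sin (z + 2 * (l : ℂ) - u)‖
    have e : (z + 2 * (l : ℂ) - u).re = z.re + 2 * l - u.re := by simp
    refine sin_lowP ?_ ?_ <;> rw [e] <;> linarith
  · show ka * Real.exp |(z + 3 * (l : ℂ) - u).im| ≤ ‖sin (z + 3 * (l : ℂ) - u)‖
    have e : (z + 3 * (l : ℂ) - u).re = z.re + 3 * l - u.re := by simp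
    refine sin_lowP ?_ ?_ <;> rw [e] <;> linarith

theorem bS_low (hu : u.re ∈ Pos (some .S) ∪ Pos (some .T)) (i : Fin 8) :
    ka * Real.exp |(bS w w' z i - u).im| ≤ ‖sin (bS w w' z i - u)‖ := by
  have hl := Bd.l_pos
  obtain ⟨z1, z2⟩ := hz
  have hu' : -(13 / 10 * l) ≤ u.re ∧ u.re ≤ -(1 / 2 * l) ∧
      (u.re ≤ -(11 / 10 * l) ∨ -(7 / 10 * l) ≤ u.re) := by
    rcases hu with ⟨h1, h2⟩ | ⟨h1, h2⟩
    · exact ⟨by linarith, by linarith, Or.inl h2⟩
    · exact ⟨by linarith, by linarith, Or.inr h1⟩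
  obtain ⟨u1, u2, u3⟩ := hu'
  fin_cases i
  · show ka * Real.exp |(2 * (l : ℂ) - u).im| ≤ ‖sin (2 * (l : ℂ) - u)‖
    have e : (2 * (l : ℂ) - u).re = 2 * l - u.re := by simp
    refine sin_lowP ?_ ?_ <;> rw [e] <;> linarith
  · show ka * Real.exp |(2 * (l : ℂ) - u).im| ≤ ‖sin (2 * (l : ℂ) - u)‖
    have e : (2 * (l : ℂ) - u).re = 2 * l - u.re := by simp
    refine sin_lowP ?_ ?_ <;> rw [e] <;> linarith
  · show ka * Real.exp |(3 * (l : ℂ) - u).im| ≤ ‖sin (3 * (l : ℂ) - u)‖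
    have e : (3 * (l : ℂ) - u).re = 3 * l - u.re := by simp
    refine sin_lowP ?_ ?_ <;> rw [e] <;> linarith
  · show ka * Real.exp |(3 * (l : ℂ) - u).im| ≤ ‖sin (3 * (l : ℂ) - u)‖
    have e : (3 * (l : ℂ) - u).re = 3 * l - u.re := by simp
    refine sin_lowP ?_ ?_ <;> rw [e] <;> linarith
  · show ka * Real.exp |(w' + 3 * (l : ℂ) - u).im| ≤ ‖sin (w' + 3 * (l : ℂ) - u)‖
    have e : (w' + 3 * (l : ℂ) - u).re = w'.re + 3 * l - u.re := by simp
    refine sin_lowP ?_ ?_ <;> rw [e] <;> linarith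
  · show ka * Real.exp |(w' - 2 * (l : ℂ) - u).im| ≤ ‖sin (w' - 2 * (l : ℂ) - u)‖
    have e : (w' - 2 * (l : ℂ) - u).re = w'.re - 2 * l - u.re := by simp
    rcases u3 with u3 | u3
    · refine sin_lowP ?_ ?_ <;> rw [e] <;> linarith
    · refine sin_lowN ?_ ?_ <;> rw [e] <;> linarith
  · show ka * Real.exp |(z - 3 * (l : ℂ) - u).im| ≤ ‖sin (z - 3 * (l : ℂ) - u)‖
    have e : (z - 3 * (l : ℂ) - u).re = z.re - 3 * l - u.re := by simp
    refine sin_lowN ?_ ?_ <;> rw [e] <;> linarith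
  · show ka * Real.exp |(z - 2 * (l : ℂ) - u).im| ≤ ‖sin (z - 2 * (l : ℂ) - u)‖
    have e : (z - 2 * (l : ℂ) - u).re = z.re - 2 * l - u.re := by simp
    refine sin_lowN ?_ ?_ <;> rw [e] <;> linarith

end low

theorem ne_of_low {x : ℂ} (h : ka * Real.exp |x.im| ≤ ‖sin x‖) : sin x ≠ 0 := by
  intro h0
  rw [h0, norm_zero] at h
  have := mul_pos ka_pos (Real.exp_pos |x.im|)
  linarith

/-- **no zeros and no poles at the positions** -/
theorem sK_ne {w w' z : ℂ} (hw : w.re = 5 / 4 * l) (hw' : w'.re = 5 / 4 * l)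
    (hz : z.re ∈ Set.Icc (-(l / 2)) 0) {k : Option O3} {u : ℂ} (hu : u.re ∈ Pos k) :
    sK w w' z k u ≠ 0 := by
  rcases k with _ | _ | _ | _
  · exact PBTs.sr_ne (fun i => ne_of_low (aN_low hw hw' hz (Or.inl hu) i))
      fun i => ne_of_low (bN_low hw hw' hz (Or.inl hu) i)
  · exact PBTs.sr_ne (fun i => ne_of_low (aN_low hw hw' hz (Or.inr hu) i))
      fun i => ne_of_low (bN_low hw hw' hz (Or.inr hu) i)
  · exact PBTs.sr_ne (fun i => ne_of_low (aS_low hw hw' hz (Or.inl hu) i))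
      fun i => ne_of_low (bS_low hw hw' hz (Or.inl hu) i)
  · exact PBTs.sr_ne (fun i => ne_of_low (aS_low hw hw' hz (Or.inr hu) i))
      fun i => ne_of_low (bS_low hw hw' hz (Or.inr hu) i)

theorem sR_ne {w w' z : ℂ} (hw : w.re = 5 / 4 * l) (hw' : w'.re = 5 / 4 * l)
    (hz : z.re ∈ Set.Icc (-(l / 2)) 0) {s : Bool} {k : Option O3} {u : ℂ} (hu : u.re ∈ Pos k) :
    sR w w' z s k u ≠ 0 := by
  cases s
  · exact sK_ne hw' hw hz hu
  · exact sK_ne hw hw' hz hu

/-- the imaginary parts -/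
theorem aN_im {w w' z : ℂ} {M : ℝ} (h : |w.im| ≤ M) (h' : |w'.im| ≤ M) (hz : |z.im| ≤ M)
    (i : Fin 6) : |(aN w w' z i).im| ≤ M := by
  have h0 : 0 ≤ M := (abs_nonneg _).trans h
  fin_cases i <;> simp [aN, h, h', hz, h0]

theorem bN_im {w w' z : ℂ} {M : ℝ} (h : |w.im| ≤ M) (h' : |w'.im| ≤ M) (hz : |z.im| ≤ M)
    (i : Fin 6) : |(bN w w' z i).im| ≤ M := by
  have h0 : 0 ≤ M := (abs_nonneg _).trans h
  fin_cases i <;> simp [bN, h, h', hz, h0]

theorem aS_im {w w' z : ℂ} {M : ℝ} (h : |w.im| ≤ M) (h' : |w'.im| ≤ M) (hz : |z.im| ≤ M)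
    (i : Fin 8) : |(aS w w' z i).im| ≤ M := by
  have h0 : 0 ≤ M := (abs_nonneg _).trans h
  fin_cases i <;> simp [aS, h, hz, h0]

theorem bS_im {w w' z : ℂ} {M : ℝ} (h : |w.im| ≤ M) (h' : |w'.im| ≤ M) (hz : |z.im| ≤ M)
    (i : Fin 8) : |(bS w w' z i).im| ≤ M := by
  have h0 : 0 ≤ M := (abs_nonneg _).trans h
  fin_cases i <;> simp [bS, h', hz, h0]


/-! ### the functional depends on the class functions at its positions only -/

variable {Z Z' : Bool → Option O3 → ℂ → ℂ} {P : NUO.Par} {r : ℕ}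

/-- `Z` and `Z'` have the same moduli at the positions -/
def EqN (Z Z' : Bool → Option O3 → ℂ → ℂ) : Prop :=
  ∀ s k u, u.re ∈ Pos k → ‖Z s k u‖ = ‖Z' s k u‖

theorem EqAt.eqN (h : EqAt Z Z') : EqN Z Z' := fun s k u hu => by rw [h s k u hu]

section pos
variable {jL e ρ : ℝ} (hj : 9 / 4 ≤ jL) (hj' : jL ≤ 27 / 10) (he : 1 / 10 ≤ e) (he' : e ≤ 3 / 10)
  (hρ0 : 0 ≤ ρ) (hρ : ρ ≤ l / 10)

include hj hj' in
theorem posL_mem (t : ℝ) : (posL jL t).re ∈ Pos (some .L) := by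
  have hl := Bd.l_pos
  show (vl ((1 - jL) * l) t).re ∈ Set.Icc (-(17 / 10 * l)) (-(5 / 4 * l))
  rw [NUO.vl_re]
  constructor <;> nlinarith

theorem posT_mem (t : ℝ) : (posT t).re ∈ Pos (some .T) := by
  have hl := Bd.l_pos
  show (vl (-(1 / 2 * l)) t).re ∈ Set.Icc (-(7 / 10 * l)) (-(1 / 2 * l))
  rw [NUO.vl_re]
  constructor <;> linarith

include he he'

theorem posS_mem (t : ℝ) : (posS e t).re ∈ Pos (some .S) := by
  have hl := Bd.l_pos
  show (vl (-((1 + e) * l)) t).re ∈ Set.Icc (-(13 / 10 * l)) (-(11 / 10 * l))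
  rw [NUO.vl_re]
  constructor <;> nlinarith

theorem posS2_mem (t : ℝ) : (posS e t + 2 * (l : ℂ)).re ∈ Pos none := by
  have hl := Bd.l_pos
  have h : (posS e t + 2 * (l : ℂ)).re = -((1 + e) * l) + 2 * l := by
    have : (posS e t).re = -((1 + e) * l) := NUO.vl_re _ _
    simp [this]
  show _ ∈ Set.Icc (3 / 5 * l) (11 / 10 * l)
  rw [h]
  constructor <;> nlinarith

include hρ0 hρ

theorem posV_mem (t a : ℝ) : (posV e ρ t a).re ∈ Pos none := by
  have hl := Bd.l_pos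
  have h := NUGC.posV_re' e ρ t a
  have h1 := Real.neg_one_le_cos (2 * Real.pi * a)
  have h2 := Real.cos_le_one (2 * Real.pi * a)
  show _ ∈ Set.Icc (3 / 5 * l) (11 / 10 * l)
  rw [h]
  constructor <;> nlinarith

include hj hj'

theorem obK_congr (h : EqAt Z Z') (x : Xo) : obK Z jL e ρ x = obK Z' jL e ρ x := by
  unfold PBF.obK
  rcases hk : kd x with _ | _ | _ | _ | _ <;> simp only []
  · rw [h _ _ _ (posL_mem hj hj' _)]
  · rw [h _ _ _ (posT_mem _)]
  · rw [h _ _ _ (posS_mem he he' _)]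
  · rw [h _ _ _ (posS_mem he he' _), h _ _ _ (posV_mem he he' hρ0 hρ _ _)]
  · rw [h _ _ _ (posS_mem he he' _), h _ _ _ (posS2_mem he he' _)]

theorem norm_obK_congr (h : EqN Z Z') (x : Xo) : ‖obK Z jL e ρ x‖ = ‖obK Z' jL e ρ x‖ := by
  unfold PBF.obK
  rcases hk : kd x with _ | _ | _ | _ | _ <;> simp only [norm_mul, norm_pow]
  · rw [h _ _ _ (posL_mem hj hj' _)]
  · rw [h _ _ _ (posT_mem _)]
  · rw [h _ _ _ (posS_mem he he' _)]
  · rw [h _ _ _ (posS_mem he he' _), h _ _ _ (posV_mem he he' hρ0 hρ _ _)]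
  · rw [h _ _ _ (posS_mem he he' _), h _ _ _ (posS2_mem he he' _)]

end pos

theorem ei_Pos (hP : ParC P) (O : Fin r → Xo) (i : Fin r) : 1 / 10 ≤ ei P O i ∧
    ei P O i ≤ 3 / 10 := by
  have h := ei_mem' hP.d0 O i
  have h1 := hP.e1
  have h2 := hP.e2 r
  have h3 := hP.d0 r
  exact ⟨by linarith, by linarith⟩

theorem rr_Pos (hP : ParC P) (O : Fin r → Xo) (i : Fin r) : 0 ≤ rr P O i ∧
    rr P O i ≤ l / 10 := by
  have hl := Bd.l_pos
  have h1 := hP.e1
  have h2 := hP.e2 r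
  have h3 := hP.d0 r
  have h4 := hP.r0 r (ht (O i))
  have h5 := hP.r1 r (ht (O i))
  refine ⟨h4.le, h5.trans ?_⟩
  have hr : (0 : ℝ) ≤ r := Nat.cast_nonneg r
  rw [div_le_div_iff₀ (by positivity) (by norm_num)]
  have h6 : P.d r ≤ 8 / 45 := by linarith
  have h7 : l * P.d r ≤ l * (8 / 45) := mul_le_mul_of_nonneg_left h6 hl.le
  nlinarith [mul_nonneg hl.le hr]

theorem wK_congr (hP : ParC P) (h : EqAt Z Z') (O : Fin r → Xo) : wK Z P O = wK Z' P O := by
  unfold PBF.wK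
  congr 1
  exact Finset.prod_congr rfl fun i _ => obK_congr hP.j1 hP.j2 (ei_Pos hP O i).1 (ei_Pos hP O i).2
    (rr_Pos hP O i).1 (rr_Pos hP O i).2 h _

theorem norm_wK_congr (hP : ParC P) (h : EqN Z Z') (O : Fin r → Xo) :
    ‖wK Z P O‖ₑ = ‖wK Z' P O‖ₑ := by
  have : ‖wK Z P O‖ = ‖wK Z' P O‖ := by
    unfold PBF.wK
    rw [norm_mul, norm_mul, norm_prod, norm_prod]
    congr 1
    exact Finset.prod_congr rfl fun i _ => norm_obK_congr hP.j1 hP.j2 (ei_Pos hP O i).1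
      (ei_Pos hP O i).2 (rr_Pos hP O i).1 (rr_Pos hP O i).2 h _
  rw [← ofReal_norm, ← ofReal_norm, this]

/-- the curve stays at the positions -/
def CrvP (η : ℝ → ℝ) : Prop := ∀ t, 3 / 5 * l ≤ l - η t ∧ l - η t ≤ 11 / 10 * l

theorem CrvP.mem {η : ℝ → ℝ} (h : CrvP η) (t : ℝ) : (NUO.pA η t).re ∈ Pos none := by
  show (vl (l - η t) t).re ∈ _
  rw [NUO.vl_re]
  exact h t

theorem crvP_R {δ : ℝ} (hδ : δ ≤ 1 / 10) {η η' : ℝ → ℝ} (h : CrvR δ η η') : CrvP η := by
  have hl := Bd.l_pos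
  intro t
  have h0 := h.h0 t
  have h1 := h.h1 t
  constructor <;> nlinarith

theorem crvP_B {ep : ℝ} (hep : 0 ≤ ep) (hep' : ep ≤ 2 / 5) {η η' : ℝ → ℝ} (h : CurB ep η η') :
    CrvP η := by
  have hl := Bd.l_pos
  intro t
  obtain ⟨h0, h1⟩ := abs_le.1 (h.h1 t)
  constructor <;> nlinarith

theorem gK_congr {η η' : ℝ → ℝ} (hη : CrvP η) (h : EqAt Z Z') (O : Fin r → Xo) {a b : ℕ}
    (x : (Fin a → ℝ) × (Fin b → ℝ)) :
    gK (gF Z P O) η η' a b x = gK (gF Z' P O) η η' a b x := by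
  unfold gK Fc
  rw [Fintype.prod_sum_type, Fintype.prod_sum_type]
  have e : ∀ (s : Bool) (t : ℝ), hh p0 (gF Z P O) (crvC s NUP1.l (dA η) (dA η')) t =
      hh p0 (gF Z' P O) (crvC s NUP1.l (dA η) (dA η')) t := by
    intro s t
    rw [hh_gF, hh_gF, h s none _ (hη.mem t)]
  simp only [cCt, Sum.elim_inl, Sum.elim_inr, e]

theorem norm_gK_congr {η η' : ℝ → ℝ} (hη : CrvP η) (h : EqN Z Z') (O : Fin r → Xo) {a b : ℕ}
    (x : (Fin a → ℝ) × (Fin b → ℝ)) :
    ‖gK (gF Z P O) η η' a b x‖ₑ = ‖gK (gF Z' P O) η η' a b x‖ₑ := by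
  have : ‖gK (gF Z P O) η η' a b x‖ = ‖gK (gF Z' P O) η η' a b x‖ := by
    unfold gK Fc
    rw [Fintype.prod_sum_type, Fintype.prod_sum_type]
    have e : ∀ (s : Bool) (t : ℝ), ‖hh p0 (gF Z P O) (crvC s NUP1.l (dA η) (dA η')) t‖ =
        ‖hh p0 (gF Z' P O) (crvC s NUP1.l (dA η) (dA η')) t‖ := by
      intro s t
      rw [hh_gF, hh_gF]
      simp only [norm_mul]
      rw [h s none _ (hη.mem t)]
    simp only [norm_mul, norm_prod, cCt, Sum.elim_inl, Sum.elim_inr, e]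
  rw [← ofReal_norm, ← ofReal_norm, this]

variable {n n' : ℕ} {η η' : Crs}

theorem trm_congr (hP : ParC P) (h : EqAt Z Z') (Ψ : Ins) {O : Fin r → Xo} (hη : CrvP (η r O)) :
    trm Z P n n' η η' Ψ r O = trm Z' P n n' η η' Ψ r O := by
  unfold trm
  rw [wK_congr hP h]
  simp only [gK_congr hη h]

theorem trA_congr (hP : ParC P) (h : EqN Z Z') (Ψ : Ins) {O : Fin r → Xo} (hη : CrvP (η r O)) :
    trA Z P n n' η η' Ψ r O = trA Z' P n n' η η' Ψ r O := by
  unfold trA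
  rw [norm_wK_congr hP h]
  simp only [norm_gK_congr hη h]

/-- **The functional depends on the class functions at its positions only.** -/
theorem FF_congrZ (hP : ParC P) (h : EqAt Z Z') (Ψ : Ins)
    (hη : ∀ r ≤ n + n', ∀ᵐ O ∂(Measure.pi fun _ : Fin r => nu), CrvP (η r O)) :
    FF Z P n n' η η' Ψ = FF Z' P n n' η η' Ψ := by
  unfold PBF.FF
  refine Finset.sum_congr rfl fun r hr => ?_
  congr 1
  refine integral_congr_ae ?_
  filter_upwards [hη r (by rw [Finset.mem_range] at hr; omega)] with O hO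
  exact trm_congr hP h Ψ hO

/-- the same with moduli -/
theorem FA_congrZ (hP : ParC P) (h : EqN Z Z') (Ψ : Ins)
    (hη : ∀ r ≤ n + n', ∀ᵐ O ∂(Measure.pi fun _ : Fin r => nu), CrvP (η r O)) :
    FA Z P n n' η η' Ψ = FA Z' P n n' η η' Ψ := by
  unfold PBF.FA
  refine Finset.sum_congr rfl fun r hr => ?_
  congr 1
  refine lintegral_congr_ae ?_
  filter_upwards [hη r (by rw [Finset.mem_range] at hr; omega)] with O hO
  exact trA_congr hP h Ψ hO

/-! ### the signs -/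

theorem obF_sgK (jL e ρ : ℝ) (x : Xo) : obF sgK jL e ρ x = (-1) ^ (chg true x + chg false x) := by
  unfold obF chg
  rcases hk : kd x with _ | _ | _ | _ | _ <;> rcases hs : sp x with _ | _ <;>
    simp [sgK] <;> norm_num

theorem quF_sgK (η : ℝ → ℝ) {a b : ℕ} (x : (Fin a → ℝ) × (Fin b → ℝ)) :
    quF sgK η x = (-1) ^ (a + b) := by
  unfold quF sgK
  simp [pow_add]

/-- **the signs of the single quanta** -/
theorem trm_sgK (Z : Bool → Option O3 → ℂ → ℂ) (P : NUO.Par) (n n' : ℕ) (η η' : Crs) (Ψ : Ins)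
    (O : Fin r → Xo) :
    trm (Zm Z sgK) P n n' η η' Ψ r O = (-1) ^ (n + n') * trm Z P n n' η η' Ψ r O := by
  rw [trm_mul]
  unfold trm
  split_ifs with hc
  · have e : ∀ x : (Fin (n - chgO O true) → ℝ) × (Fin (n' - chgO O false) → ℝ),
        Fa sgK P η r O (n - chgO O true) (n' - chgO O false) x = (-1) ^ (n + n') := by
      intro x
      unfold Fa
      rw [quF_sgK]
      simp only [obF_sgK]
      rw [Finset.prod_pow_eq_pow_sum, Finset.sum_add_distrib, ← pow_add]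
      congr 1
      have h1 : ∑ i, chg true (O i) = chgO O true := rfl
      have h2 : ∑ i, chg false (O i) = chgO O false := rfl
      rw [h1, h2]
      omega
    simp only [e]
    have e2 : ∀ x : (Fin (n - chgO O true) → ℝ) × (Fin (n' - chgO O false) → ℝ),
        gK (gF Z P O) (η r O) (η' r O) (n - chgO O true) (n' - chgO O false) x *
        ((-1) ^ (n + n') * Ψ r O (n - chgO O true) (n' - chgO O false) x) =
        (-1) ^ (n + n') *
        (gK (gF Z P O) (η r O) (η' r O) (n - chgO O true) (n' - chgO O false) x *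
          Ψ r O (n - chgO O true) (n' - chgO O false) x) := fun x => by ring
    simp only [e2]
    rw [integral_const_mul]
    ring
  · rw [mul_zero]

theorem FF_sgK (Z : Bool → Option O3 → ℂ → ℂ) (P : NUO.Par) (n n' : ℕ) (η η' : Crs) (Ψ : Ins) :
    FF (Zm Z sgK) P n n' η η' Ψ = (-1) ^ (n + n') * FF Z P n n' η η' Ψ := by
  unfold PBF.FF
  simp only [trm_sgK]
  rw [Finset.mul_sum]
  refine Finset.sum_congr rfl fun r _ => ?_
  rw [integral_const_mul]
  ring

/-! ### the class W W -/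

section main
variable {m : ℕ} {β : ℝ} {ex ex0 : List ℂ} {w w' z : ℂ} (hP : ParC P) (h1 : -(9 / 10 * l) < z.re)
  (h2 : z.re < 7 / 10 * l)
  (hη : ∀ r ≤ n + n', ∀ᵐ O ∂(Measure.pi fun _ : Fin r => nu), CrvP (η r O))
include hP h1 h2 hη

/-- **The functional of the class W W of the regular function.** -/
theorem RZW_FF (Ψ : Ins) : FF (RZW (R0 m β ex ex0) w w') P n n' η η' Ψ = (-1) ^ (n + n') *
    FF (Zm (ZL β (fun _ : Fin m => (0 : ℂ)) ex ex0 z) (sR w w' z)) P n n' η η' Ψ := by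
  rw [← FF_sgK]
  refine FF_congrZ hP (fun s k u hu => ?_) Ψ hη
  rw [RZW_eqAt m β ex ex0 w w' h1 h2 s k u hu]
  unfold Zm
  ring

/-- the same with moduli -/
theorem RZW_FA (Ψ : Ins) : FA (RZW (R0 m β ex ex0) w w') P n n' η η' Ψ =
    FA (Zm (ZL β (fun _ : Fin m => (0 : ℂ)) ex ex0 z) (sR w w' z)) P n n' η η' Ψ := by
  refine FA_congrZ hP (fun s k u hu => ?_) Ψ hη
  rw [RZW_eqAt m β ex ex0 w w' h1 h2 s k u hu]
  unfold Zm
  have : ‖sgK s k u‖ = 1 := by rcases k with _ | _ | _ | _ <;> simp [sgK]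
  rw [norm_mul, norm_mul, norm_mul, this, one_mul]

/-- **The functional of the class W W of the regular function** as the end point of the path
`expZ (ZL ..) D s`: any logarithm `D` of the ratio at the positions. -/
theorem RZW_exp {D : Bool → Option O3 → ℂ → ℂ}
    (hD : ∀ s k u, u.re ∈ Pos k → exp (D s k u) = sR w w' z s k u) (Ψ : Ins) :
    FF (RZW (R0 m β ex ex0) w w') P n n' η η' Ψ = (-1) ^ (n + n') *
      FF (expZ (ZL β (fun _ : Fin m => (0 : ℂ)) ex ex0 z) D 1) P n n' η η' Ψ := by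
  rw [RZW_FF hP h1 h2 hη Ψ]
  congr 1
  refine FF_congrZ hP (fun s k u hu => ?_) Ψ hη
  unfold Zm expZ
  rw [one_mul, hD s k u hu]

/-- the same with moduli -/
theorem RZW_expA {D : Bool → Option O3 → ℂ → ℂ}
    (hD : ∀ s k u, u.re ∈ Pos k → exp (D s k u) = sR w w' z s k u) (Ψ : Ins) :
    FA (RZW (R0 m β ex ex0) w w') P n n' η η' Ψ =
      FA (expZ (ZL β (fun _ : Fin m => (0 : ℂ)) ex ex0 z) D 1) P n n' η η' Ψ := by
  rw [RZW_FA hP h1 h2 hη Ψ]
  refine FA_congrZ hP (fun s k u hu => ?_) Ψ hη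
  unfold Zm expZ
  rw [one_mul, hD s k u hu]

end main

/-! ### measurability in the heights -/

/-- the two families of class functions of the class W W coincide -/
theorem RZW_ZWW {m : ℕ} (D : RD m) (w w' : ℂ) : RZW D w w' = ZWW D w w' := by
  funext b k u
  have E : ∀ a b c d : ℂ, a * b * (c * d) = a * (b * (c * d)) := fun a b c d => by ring
  rcases k with _ | _ | _ | _ <;> cases b <;>
    exact mul_assoc _ _ _

/-- **The class W W of the regular function is measurable in the heights.** -/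
theorem MZ_RZW {m : ℕ} {D : RD m} (H : D.Ok) {w w' : ℝ × ℝ → ℂ} (hw : Measurable w)
    (hw' : Measurable w') : MZ fun τ : ℝ × ℝ => RZW D (w τ) (w' τ) := by
  have h := MZ_ZWW H hw hw'
  have e : (fun τ : ℝ × ℝ => RZW D (w τ) (w' τ)) = fun τ : ℝ × ℝ => ZWW D (w τ) (w' τ) :=
    funext fun τ => RZW_ZWW D _ _
  rwa [e]

/-- legs whose position depends on a parameter -/
theorem MZ_ZL {m : ℕ} {S : Type*} [MeasurableSpace S] (β : ℝ) (x : Fin m → ℂ) (ex ex0 : List ℂ)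
    {z : S → ℂ} (hz : Measurable z) : MZ fun s : S => ZL β x ex ex0 (z s) := by
  have h := MZ_leg (c := fun _ => Leg.cc m) (β := β) (x := fun _ => x) (y := fun _ => x)
    (g := fun _ => gP β ex) (g0 := fun _ => gP (4 / 3) ex0) (fun _ => measurable_gP _ _)
    (fun _ => measurable_gP _ _) hz
  exact h

end PBW

end
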