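import Pool.Agent.PB.RepI
import Pool.Agent.PB.InsInst
import Pool.Agent.PB.I1Q
import Pool.Agent.PB.VInst
import Pool.Agent.PB.EMain

/-!
# Plan B: the hypotheses of `repI` at the dislocated function (helper15)

* `DR`: the domain; `ln_row`: the lines, the density of the rows;
* `parP_par0`: the parameters;
* `mo_of_lev`: the moments from `LevD` and `Pins`; `repI_lev`: `repI` from `LevD`.
-/

set_option autoImplicit false
set_option linter.unusedSectionVars false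

noncomputable section

open Complex MeasureTheory Finset
open scoped ENNReal Classical

namespace PBRep

open NUP1 hiding Kd
open NUO NUP1S NUP1S.Ab NUP1S.AbC PBF PBFunc PB
open PBI (Stt Kd F0 F0Ok fl nuI nuQI mnI InD PAll F0_rep nuI_eq)
open PBForce (xiR rhoR Rws0)

/-- the domain -/
def DR (b : Kd) : Set ℂ := {z | z ∈ PBOb.DQ b ∧ (b.2 = none → 11 / 20 * l < z.re ∧ z.re < 11 / 10 * l)}

theorem dOk_DR : DOk DR := by
  have hl := Bd.l_pos
  refine ⟨fun b z hz => hz.1, fun s z hz => hz.2 rfl, fun s u => ⟨?_, fun _ => ?_⟩⟩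
  · have e : (vl l u).re = l := by simp [vl]
    show PBOb.lo none + 1 / 50 * l ≤ (vl l u).re ∧ (vl l u).re ≤ PBOb.hi none - 1 / 50 * l
    rw [e]
    simp only [PBOb.lo, PBOb.hi]
    constructor <;> linarith
  · have e : (vl l u).re = l := by simp [vl]
    rw [e]
    constructor <;> linarith

theorem all_DR {P : NUO.Par} (hP : NURow.ParP P) {x0 : ℝ} (h0 : 11 / 20 * l < x0)
    (h1 : x0 < 11 / 10 * l) (n n' : ℕ) {p p' : ℕ} (k : Fin p → O3) (k' : Fin p' → O3)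
    (i : (Fin (nA n k) ⊕ Fin p) ⊕ (Fin (nA n' k') ⊕ Fin p')) (t : ℝ) :
    vl ((fl P).all x0 n n' k k' i) t ∈ DR (PBI.cl n n' k k' i) := by
  have hl := Bd.l_pos
  refine ⟨PBOb.all_DQ hP (by linarith) (by linarith) n n' k k' i t, fun hi => ?_⟩
  have e : ∀ y : ℝ, (vl y t).re = y := fun y => by simp [vl]
  rw [e]
  rcases i with (i | i) | (i | i)
  · exact ⟨h0, h1⟩
  · exact absurd hi (by simp [PBI.cl, PBI.ck, kA])
  · exact ⟨h0, h1⟩
  · exact absurd hi (by simp [PBI.cl, PBI.ck, kA])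

/-- the density of the rows is integrable on the line -/
theorem rho_int {m : ℕ} {x : Fin m → ℂ} (hx : Rws0 x) :
    Integrable fun t : ℝ => rhoR x (vl l t) := by
  have hl := Bd.l_pos
  have h1 : ∀ i, |(x i).re| < NUP1.l := fun i => by
    rw [hx.re i, abs_zero]
    exact hl
  have e : (fun t : ℝ => rhoR x (vl l t)) = fun t : ℝ => ∑ i, NUMF.Pc (t - PBQ1.hr (x i)) := by
    funext t
    exact PBQ1.rhoR_line h1 t
  rw [e]
  refine integrable_finsetSum _ fun i _ => ?_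
  obtain ⟨C, -, -, -, -, -, h, -⟩ := Pool.Agent.PB.row_line (a := PBQ1.hr (x i))
    (by
      have := PBQ1.hr_abs (x := x i) (h1 i)
      exact this)
  exact h

theorem rhoK_rows {m : ℕ} {x : Fin m → ℂ} (hx : Rws0 x) :
    RhoK (PBQ1.rhK x) fun t => rhoR x (vl l t) :=
  ⟨fun _ _ => rfl, fun _ _ _ => rfl, rho_int hx⟩

/-- **the lines and the density of the rows** -/
theorem ln_row {P : NUO.Par} (hP : NURow.ParP P) {x0 : ℝ} (h0 : 11 / 20 * l < x0)
    (h1 : x0 < 11 / 10 * l) {m N : ℕ} {x : Fin m → ℂ} (hx : Rws0 x) :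
    Ln P x0 N DR (PBQ1.rhK x) fun t => rhoR x (vl l t) where
  hP := PBOb.ParO.of hP
  hx := h0
  hD := dOk_DR
  hw := fun n _ _ _ k k' _ _ i t => all_DR hP h0 h1 n n k k' i t
  hρ := rhoK_rows hx

theorem parP_par0 [NUSea.Sea] (k : ℕ) : NURow.ParP (NUSea.O.par0 k) := by
  have h := parZ_parC k
  refine ⟨rfl, le_rfl, h.d0, fun r => ?_⟩
  have h1 := h.e2 r
  have h2 := h.d0 r
  linarith

/-- **the moments**, from the level two data and the pinned moments -/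
theorem mo_of_lev {a K th dq dp : ℝ} {N : ℕ} {w : CfN N → ℂ} {ρ0 : ℝ → ℂ} {P : NUO.Par}
    {η : ℕ → Crs} {mf s' : ℝ → ℂ} {T : Type*} [MeasurableSpace T] {σ : Measure T}
    {ap am bc : T → ℂ → ℂ}
    (L : PBEM.LevD PBEI.y1 PBEI.y2 a (mN N) w (Vp ρ0 η) (Vm η) (SN P η) K th dq mf s' σ ap am bc)
    (hp : Pins (-(l / 10)) (9 / 20 * l) a (mN N) w (Vp ρ0 η) (Vm η) (SN P η) (pinN a) dp) :
    Mo a w ρ0 P η K dp :=
  ⟨L.K0, L.hw, hp, L.one, fun M h hh _ => L.v2 M h hh, fun M h hh _ => L.v2m M h hh, L.msS, L.s2⟩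

open PBV (wm)
open PBEI (Apl Ami Bch rP rM rF uF qF)

/-- **the quadratic part of the first Ward identity**, from the level two data -/
theorem repI_lev {a' : ℝ} (ha0 : 0 ≤ a') (ha : a' < 2) : ∃ K : ℝ, 0 < K ∧
    ∀ (m : ℕ) (x : Fin m → ℂ) (i0 : Fin m), Rws0 x → ∀ (Z : Stt) (P : NUO.Par)
      (x0 κ κ' δ : ℝ) (N : ℕ) (η η' : ℕ → Crs) (c : ℕ → ℂ) (gl : Kd → ℂ → ℂ)
      (τ Mq K2 th dq dp : ℝ) (mf s' : ℝ → ℂ),
      TrN Z P x0 κ κ' δ N η η' → NURow.ParP P → 11 / 20 * l < x0 → x0 < 11 / 10 * l →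
      PBEM.LevD PBEI.y1 PBEI.y2 a' (mN N) (wT Z P N η η' c) (Vp (fun t => rhoR x (vl l t)) η)
        (Vm η) (SN P η) K2 th dq mf s' wm (Apl x i0) (Ami x i0) Bch →
      Pins (-(l / 10)) (9 / 20 * l) a' (mN N) (wT Z P N η η' c) (Vp (fun t => rhoR x (vl l t)) η)
        (Vm η) (SN P η) (pinN a') dp →
      AdS P x0 δ (sK fun b z => m * gl b z) →
      Obs (-(l / 10)) (9 / 20 * l) a' (mN N) (Vp (fun t => rhoR x (vl l t)) η) (pinN a') 40
        (VC (PBQ1.rhK x) P η fun b z => m * gl b z) (qF x i0 τ) Mq →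
      ‖(m : ℂ) * F0N Z P x0 N c (fun ι _ s z =>
          nuQI (PBQ1.rhK x) (PBOb.aK (xiR x i0)) ι s z + nuI (PBQ1.rhK x) gl ι s z) -
        ((∫ q, (F (mN N) (wT Z P N η η' c) fun ω => Vp (fun t => rhoR x (vl l t)) η (Apl x i0 q) ω *
            Vp (fun t => rhoR x (vl l t)) η (Bch q) ω) ∂wm) +
          ((∫ q, (F (mN N) (wT Z P N η η' c) fun ω =>
              Vm η (Ami x i0 q) ω * Vm η (Bch q) ω) ∂wm) +
            2 * (F (mN N) (wT Z P N η η' c) fun ω => Vm η (uF x i0) ω * SN P η ω) -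
            (rP x i0 - rM x i0) / 2 *
              (F (mN N) (wT Z P N η η' c) fun ω => SN P η ω * SN P η ω)) +
          F (mN N) (wT Z P N η η' c) (Vp (fun t => rhoR x (vl l t)) η (qF x i0 τ)))‖ ≤
        K * (1 + Mq) * dp := by
  obtain ⟨K, hK, h⟩ := repI ha0 ha
  obtain ⟨C1, hC1, h1⟩ := PBEI.rep_EF (a := (a' + 2) / 2) ha0 (by linarith) (by linarith)
  refine ⟨K, hK, fun m x i0 hx Z P x0 κ κ' δ N η η' c gl τ Mq K2 th dq dp mf s' hT hP h0 h0' L hp
    hgl hq => ?_⟩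
  obtain ⟨r1, r2, -⟩ := h1 m x i0 hx
  have y1 : PBEI.y1 < 0 := by
    have := Bd.l_pos
    show -(NUMF.l / 10) < 0
    have e : NUMF.l = NUP1.l := rfl
    rw [e]
    linarith
  have y2 : 0 < PBEI.y2 := by
    have := Bd.l_pos
    show 0 < 9 / 20 * NUMF.l
    have e : NUMF.l = NUP1.l := rfl
    rw [e]
    linarith
  exact h m x i0 hx Z P x0 κ κ' δ N η η' c DR (PBQ1.rhK x) (fun t => rhoR x (vl l t)) gl τ Mq K2 dp
    hT (ln_row hP h0 h0' hx) (mo_of_lev L hp) hgl hq (L.iG y1 y2 r1) (L.iH y1 y2 r2)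

end PBRep

end
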