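import Pool.Agent.PB.F0W

/-!
# Plan B: insertions depending on a parameter in the functional of the straight lines (helper15)

* `Iz_int`, **`F0_int`**: `F0 Z (∫ Ψ_q dσ(q)) = ∫ F0 Z Ψ_q dσ(q)` for insertions with
  `‖Ψ_q‖ ≤ φ q`, `φ` integrable (bound of each word on its lines);
* `StJ`: statistics with a parameter, measurable and bounded on the lines, `StJ.st`.
-/

set_option autoImplicit false
set_option linter.unusedSectionVars false

noncomputable section

open Complex MeasureTheory Finset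

namespace PBI

open NUP1 NUP1S NUP1.Bd NURow

variable {T : Type*} [MeasurableSpace T] {σ : Measure T}

section one

variable {ι : Type} [Fintype ι] {c : ι → Bool × Option O3} {x : ι → ℝ} {Z : Stt}

/-- an insertion with a parameter which is measurable and bounded on the lines of a class -/
structure PIn (σ : Measure T) (φ : T → ℝ) (c : ι → Bool × Option O3) (x : ι → ℝ) (Ψ : T → Ins) :
    Prop where
  me : AEStronglyMeasurable (fun p : T × (ι → ℝ) => Ψ p.1 ι c (pos x p.2))
    (σ.prod (Measure.pi fun _ => volume))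
  bd : ∀ q t, ‖Ψ q ι c (pos x t)‖ ≤ φ q

theorem PIn.integrable [SFinite σ] {φ : T → ℝ} {Ψ : T → Ins} (h1 : IzOk c x Z fun _ _ _ _ => 1)
    (h : PIn σ φ c x Ψ) (hφ : Integrable φ σ) :
    Integrable (fun p : T × (ι → ℝ) => Ψ p.1 ι c (pos x p.2) * Fz c Z (pos x p.2))
      (σ.prod (Measure.pi fun _ => volume)) := by
  have h1' : Integrable (fun t : ι → ℝ => Fz c Z (pos x t)) (Measure.pi fun _ => volume) := by
    have := h1
    unfold IzOk at this
    simpa using this
  have h2 : Integrable (fun p : T × (ι → ℝ) => φ p.1 * ‖Fz c Z (pos x p.2)‖)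
      (σ.prod (Measure.pi fun _ => volume)) := hφ.mul_prod h1'.norm
  refine h2.mono' (h.me.mul h1'.1.comp_snd) (Filter.Eventually.of_forall fun p => ?_)
  rw [norm_mul]
  exact mul_le_mul_of_nonneg_right (h.bd _ _) (norm_nonneg _)

/-- **Fubini**, one word -/
theorem Iz_int [SFinite σ] {φ : T → ℝ} {Ψ : T → Ins} (h1 : IzOk c x Z fun _ _ _ _ => 1)
    (h : PIn σ φ c x Ψ) (hφ : Integrable φ σ) :
    Integrable (fun q => Iz c x Z (Ψ q)) σ ∧
      Iz c x Z (fun ι _ c z => ∫ q, Ψ q ι c z ∂σ) = ∫ q, Iz c x Z (Ψ q) ∂σ := by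
  have h2 := h.integrable h1 hφ
  refine ⟨h2.integral_prod_left, ?_⟩
  unfold Iz
  rw [integral_integral_swap h2]
  refine integral_congr_ae (Filter.Eventually.of_forall fun t => ?_)
  simp only []
  rw [integral_mul_const]

theorem IzOk.int [SFinite σ] {φ : T → ℝ} {Ψ : T → Ins} (h1 : IzOk c x Z fun _ _ _ _ => 1)
    (h : PIn σ φ c x Ψ) (hφ : Integrable φ σ) :
    IzOk c x Z fun ι _ c z => ∫ q, Ψ q ι c z ∂σ := by
  have h2 := (h.integrable h1 hφ).integral_prod_right
  refine h2.congr (Filter.Eventually.of_forall fun t => ?_)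
  simp only []
  rw [integral_mul_const]

end one

/-! ## all words -/

theorem Sw_int {n n' : ℕ} {f : T → ∀ p p' : ℕ, (Fin p → O3) → (Fin p' → O3) → ℂ}
    (h : ∀ p p' (k : Fin p → O3) (k' : Fin p' → O3), ∑ i, c3 (k' i) ≤ n' → ∑ i, c3 (k i) ≤ n →
      Integrable (fun q => f q p p' k k') σ) :
    Integrable (fun q => Sw n n' (f q)) σ ∧
      Sw n n' (fun p p' k k' => ∫ q, f q p p' k k' ∂σ) = ∫ q, Sw n n' (f q) ∂σ := by
  have hi : ∀ p p' (k : Fin p → O3) (k' : Fin p' → O3), Integrable (fun q =>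
      if ∑ i, c3 (k' i) ≤ n' ∧ ∑ i, c3 (k i) ≤ n then f q p p' k k' else 0) σ := by
    intro p p' k k'
    split_ifs with hc
    · exact h p p' k k' hc.1 hc.2
    · exact integrable_zero _ _ _
  unfold Sw
  constructor
  · refine integrable_finsetSum _ fun p' _ => integrable_finsetSum _ fun p _ =>
      Integrable.const_mul ?_ _
    exact integrable_finsetSum _ fun k' _ => integrable_finsetSum _ fun k _ => hi p p' k k'
  · rw [integral_finsetSum]
    · refine Finset.sum_congr rfl fun p' _ => ?_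
      rw [integral_finsetSum]
      · refine Finset.sum_congr rfl fun p _ => ?_
        rw [integral_const_mul]
        congr 1
        rw [integral_finsetSum]
        · refine Finset.sum_congr rfl fun k' _ => ?_
          rw [integral_finsetSum]
          · refine Finset.sum_congr rfl fun k _ => ?_
            split_ifs
            · rfl
            · simp
          · exact fun k _ => hi p p' k k'
        · exact fun k' _ => integrable_finsetSum _ fun k _ => hi p p' k k'
      · exact fun p _ => Integrable.const_mul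
          (integrable_finsetSum _ fun k' _ => integrable_finsetSum _ fun k _ => hi p p' k k') _
    · exact fun p' _ => integrable_finsetSum _ fun p _ => Integrable.const_mul
        (integrable_finsetSum _ fun k' _ => integrable_finsetSum _ fun k _ => hi p p' k k') _

variable {α : ℝ} {n n' : ℕ} {L : Lns} {Z : Stt}

/-- **Fubini** for the functional of the straight lines -/
theorem F0_int [SFinite σ] {φ : T → ℝ} {Ψ : T → Ins} (h1 : F0Ok α n n' L Z fun _ _ _ _ => 1)
    (h : AllW α n n' L fun c x => PIn σ φ c x Ψ) (hφ : Integrable φ σ) :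
    Integrable (fun q => F0 α n n' L Z (Ψ q)) σ ∧
      F0 α n n' L Z (fun ι _ c z => ∫ q, Ψ q ι c z ∂σ) = ∫ q, F0 α n n' L Z (Ψ q) ∂σ := by
  have key := Sw_int (n := n) (n' := n') (σ := σ)
    (f := fun q _ _ k k' => cw n n' k k' * Iz (cl n n' k k') (L.all α n n' k k') Z (Ψ q))
    (fun p p' k k' a b => ((Iz_int (h1 p p' k k' a b) (h p p' k k' a b) hφ).1).const_mul _)
  refine ⟨key.1, ?_⟩
  unfold F0
  rw [← key.2]
  refine Sw_congr fun p p' k k' a b => ?_
  rw [(Iz_int (h1 p p' k k' a b) (h p p' k k' a b) hφ).2, integral_const_mul]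

theorem F0Ok.int [SFinite σ] {φ : T → ℝ} {Ψ : T → Ins} (h1 : F0Ok α n n' L Z fun _ _ _ _ => 1)
    (h : AllW α n n' L fun c x => PIn σ φ c x Ψ) (hφ : Integrable φ σ) :
    F0Ok α n n' L Z fun ι _ c z => ∫ q, Ψ q ι c z ∂σ :=
  fun p p' k k' a b => (h1 p p' k k' a b).int (h p p' k k' a b) hφ

theorem F0_congr {Ψ Ψ' : Ins} (h : AllW α n n' L fun {ι} _ c x => ∀ t : ι → ℝ,
    Ψ ι c (pos x t) = Ψ' ι c (pos x t)) : F0 α n n' L Z Ψ = F0 α n n' L Z Ψ' := by
  unfold F0
  refine Sw_congr fun p p' k k' a b => ?_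
  congr 1
  unfold Iz
  refine integral_congr_ae (Filter.Eventually.of_forall fun t => ?_)
  simp only []
  rw [h p p' k k' a b t]

/-! ## statistics with a parameter -/

/-- a statistic with a parameter which is measurable and bounded on the lines of a class -/
structure StJ {ι : Type} [Fintype ι] (φ : T → ℝ) (c : ι → Bool × Option O3) (x : ι → ℝ)
    (a : T → Stt) : Prop where
  me : ∀ s k, Measurable fun p : T × ℂ => a p.1 s k p.2
  bd : ∀ q i, ∀ t : ℝ, ‖a q (c i).1 (c i).2 (vl (x i) t)‖ ≤ φ q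

theorem StJ.st {ι : Type} [Fintype ι] {φ : T → ℝ} {c : ι → Bool × Option O3} {x : ι → ℝ}
    {a : T → Stt} (h : StJ φ c x a) : PIn σ (fun q => Fintype.card ι * φ q) c x (fun q => St (a q)) where
  me := by
    refine (Finset.measurable_fun_sum _ fun i _ => ?_).aestronglyMeasurable
    exact (h.me _ _).comp (measurable_fst.prodMk ((measurable_pos x i).comp measurable_snd))
  bd := fun q t => by
    unfold St
    refine (norm_sum_le _ _).trans ?_
    calc _ ≤ ∑ _i : ι, φ q := Finset.sum_le_sum fun i _ => h.bd q i _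
      _ = _ := by rw [Finset.sum_const, Finset.card_univ, nsmul_eq_mul]

theorem PIn.mul {ι : Type} [Fintype ι] {φ φ' : T → ℝ} {c : ι → Bool × Option O3} {x : ι → ℝ}
    {Ψ Ψ' : T → Ins} (h : PIn σ φ c x Ψ) (h' : PIn σ φ' c x Ψ') :
    PIn σ (fun q => φ q * φ' q) c x (fun q ι _ c z => Ψ q ι c z * Ψ' q ι c z) where
  me := h.me.mul h'.me
  bd := fun q t => by
    rw [norm_mul]
    exact mul_le_mul (h.bd q t) (h'.bd q t) (norm_nonneg _) ((norm_nonneg _).trans (h.bd q t))

theorem PIn.add {ι : Type} [Fintype ι] {φ φ' : T → ℝ} {c : ι → Bool × Option O3} {x : ι → ℝ}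
    {Ψ Ψ' : T → Ins} (h : PIn σ φ c x Ψ) (h' : PIn σ φ' c x Ψ') :
    PIn σ (fun q => φ q + φ' q) c x (fun q ι _ c z => Ψ q ι c z + Ψ' q ι c z) where
  me := h.me.add h'.me
  bd := fun q t => (norm_add_le _ _).trans (add_le_add (h.bd q t) (h'.bd q t))

theorem PIn.const {ι : Type} [Fintype ι] {c : ι → Bool × Option O3} {x : ι → ℝ} {r : T → ℂ}
    (hr : Measurable r) : PIn σ (fun q => ‖r q‖) c x (fun q _ _ _ _ => r q) where
  me := (hr.comp measurable_fst).aestronglyMeasurable
  bd := fun q t => le_rfl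

end PBI

end
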