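import Pool.Agent.PB.WaveE
import Pool.Agent.PB.EAbs

/-!
# Plan B: the channel kernels and their product form with test functions of `PBE.TC`

* `Ec c₁ c₂` : `c₁ El(same) + c₂ El(different)`; `Ep = Ec ¼ ¼`, `Em = Ec ¼ (-¼)`;
* `Ep_eq`, `Em_eq` : `(ξ z - ξ w) (k_XX ± k_XY)(z - w) = 4 Ep`, `= 4 Em + 4 Pl`;
* `Ec_bound`, `Ec_symm`, `Ec_diff`, `AE_TC`, `BE_TC`, `Ec_decomp`, measurability.
-/

set_option autoImplicit false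

open Complex Set Filter Topology MeasureTheory

noncomputable section

namespace PBV

open NUMF (l r r_eq r_pos r_lt_one l_pos)

lemma TC_symm (ξ : ℂ → ℂ) (xp xm z w : ℂ) : TC ξ xp xm z w = TC ξ xp xm w z := by
  have e : cosh (2 * (w - z)) = cosh (2 * (z - w)) := by
    rw [show 2 * (w - z) = -(2 * (z - w)) by ring, cosh_neg]
  unfold TC
  rw [e]
  ring

lemma El_symm (s : Bool) (ξ : ℂ → ℂ) (xp xm z w : ℂ) :
    El (sb s) ξ (hb s) xp xm z w = El (sb s) ξ (hb s) xp xm w z := by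
  unfold El
  rw [Ek_symm (hb_even s), TC_symm]

/-- linear combination of the two local kernels -/
def Ec (c₁ c₂ : ℂ) (ξ : ℂ → ℂ) (xp xm z w : ℂ) : ℂ :=
  c₁ * El (sb true) ξ (hb true) xp xm z w + c₂ * El (sb false) ξ (hb false) xp xm z w

/-- plus channel -/
def Ep (ξ : ℂ → ℂ) (xp xm z w : ℂ) : ℂ := Ec (1 / 4) (1 / 4) ξ xp xm z w

/-- minus channel, local part -/
def Em (ξ : ℂ → ℂ) (xp xm z w : ℂ) : ℂ := Ec (1 / 4) (-(1 / 4)) ξ xp xm z w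

lemma Ec_symm (c₁ c₂ : ℂ) (ξ : ℂ → ℂ) (xp xm z w : ℂ) : Ec c₁ c₂ ξ xp xm z w = Ec c₁ c₂ ξ xp xm w z := by
  unfold Ec
  rw [El_symm, El_symm false]

/-- the plus channel has no plateau part -/
theorem Ep_eq (ξ : ℂ → ℂ) (xp xm : ℂ) {z w : ℂ} (hz : |z.im| ≤ l) (hw : |w.im| ≤ l)
    (hzw : |(z - w).im| ≤ l) (hne : z ≠ w) :
    (ξ z - ξ w) * (kf true (z - w) + kf false (z - w)) = 4 * Ep ξ xp xm z w := by
  have h1 := El_eq true ξ xp xm hz hw hzw hne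
  have h2 := El_eq false ξ xp xm hz hw hzw hne
  unfold Ep Ec
  have s1 : sb true = 1 := rfl
  have s2 : sb false = -1 := rfl
  rw [s1] at h1 ⊢
  rw [s2] at h2 ⊢
  linear_combination h1 + h2

/-- the minus channel: local part and plateau part -/
theorem Em_eq (ξ : ℂ → ℂ) (xp xm : ℂ) {z w : ℂ} (hz : |z.im| ≤ l) (hw : |w.im| ≤ l)
    (hzw : |(z - w).im| ≤ l) (hne : z ≠ w) :
    (ξ z - ξ w) * (kf true (z - w) - kf false (z - w)) = 4 * Em ξ xp xm z w + 4 * Pl ξ xp xm z w := by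
  have h1 := El_eq true ξ xp xm hz hw hzw hne
  have h2 := El_eq false ξ xp xm hz hw hzw hne
  unfold Em Ec
  have s1 : sb true = 1 := rfl
  have s2 : sb false = -1 := rfl
  rw [s1] at h1 ⊢
  rw [s2] at h2 ⊢
  linear_combination h1 - h2

/-- diagonal of the plus kernel: `4 Ep z z = 2 ξ' z` -/
theorem Ep_diag (ξ : ℂ → ℂ) (xp xm : ℂ) {z : ℂ} (hz : |z.im| ≤ l) : 4 * Ep ξ xp xm z z = 2 * deriv ξ z := by
  have h1 := El_diag true ξ xp xm hz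
  have h2 := El_diag false ξ xp xm hz
  have e1 : hb true 0 = 2 := hX_zero
  have e2 : hb false 0 = 0 := hY_zero
  have s1 : sb true = 1 := rfl
  have s2 : sb false = -1 := rfl
  rw [e1, s1] at h1
  rw [e2, s2] at h2
  unfold Ep Ec
  rw [s1, s2]
  linear_combination -h1 - h2

/-- diagonal of the minus kernel: `4 Em z z + 4 Pl z z = 2 ξ' z` -/
theorem Em_diag (ξ : ℂ → ℂ) (xp xm : ℂ) {z : ℂ} (hz : |z.im| ≤ l) :
    4 * Em ξ xp xm z z + 4 * Pl ξ xp xm z z = 2 * deriv ξ z := by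
  have h1 := El_diag true ξ xp xm hz
  have h2 := El_diag false ξ xp xm hz
  have e1 : hb true 0 = 2 := hX_zero
  have e2 : hb false 0 = 0 := hY_zero
  have s1 : sb true = 1 := rfl
  have s2 : sb false = -1 := rfl
  rw [e1, s1] at h1
  rw [e2, s2] at h2
  unfold Em Ec
  rw [s1, s2]
  linear_combination -h1 + h2

/-- **bound of the channel kernels**, constant independent of the field -/
theorem Ec_bound (c₁ c₂ : ℂ) {a Y : ℝ} (ha0 : 0 ≤ a) (ha : a < 2) (hY : Y < l) : ∃ C : ℝ, 0 ≤ C ∧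
    ∀ {ξ : ℂ → ℂ} {b K c : ℝ} {xp xm : ℂ}, XiA ξ b K c xp xm → 4 ≤ c → b ≤ l → ∀ z w : ℂ, |z.im| ≤ b →
      |w.im| ≤ b → |(z - w).im| ≤ Y →
      ‖Ec c₁ c₂ ξ xp xm z w‖ ≤ C * (K + ‖xp - xm‖) * Real.exp (-(a * (|z.re| + |w.re|))) := by
  obtain ⟨C1, hC1, h1⟩ := El_bound2 true ha0 ha hY
  obtain ⟨C2, hC2, h2⟩ := El_bound2 false ha0 ha hY
  refine ⟨‖c₁‖ * C1 + ‖c₂‖ * C2, by positivity, fun {ξ b K c xp xm} H hc hbl z w hz hw hzw => ?_⟩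
  unfold Ec
  refine (norm_add_le _ _).trans ?_
  rw [norm_mul, norm_mul]
  calc ‖c₁‖ * ‖El (sb true) ξ (hb true) xp xm z w‖ + ‖c₂‖ * ‖El (sb false) ξ (hb false) xp xm z w‖ ≤
      ‖c₁‖ * (C1 * (K + ‖xp - xm‖) * Real.exp (-(a * (|z.re| + |w.re|)))) +
      ‖c₂‖ * (C2 * (K + ‖xp - xm‖) * Real.exp (-(a * (|z.re| + |w.re|)))) := by
        gcongr
        · exact h1 H hc hbl z w hz hw hzw
        · exact h2 H hc hbl z w hz hw hzw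
    _ = _ := by ring

variable {ξ : ℂ → ℂ} {b K c : ℝ} {xp xm : ℂ}

theorem Ec_diff (c₁ c₂ : ℂ) (H : XiA ξ b K c xp xm) (hbl : b ≤ l) {z w : ℂ} (hz : |z.im| < b)
    (hw : |w.im| < b) (hzw : |(z - w).im| < l) : DifferentiableAt ℂ (Ec c₁ c₂ ξ xp xm z) w := by
  unfold Ec
  exact ((El_diff true H hbl hz hw hzw).const_mul c₁).add ((El_diff false H hbl hz hw hzw).const_mul c₂)

theorem Ec_diff' (c₁ c₂ : ℂ) (H : XiA ξ b K c xp xm) (hbl : b ≤ l) {z w : ℂ} (hz : |z.im| < b)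
    (hw : |w.im| < b) (hzw : |(z - w).im| < l) : DifferentiableAt ℂ (fun z => Ec c₁ c₂ ξ xp xm z w) z := by
  have e : (fun z => Ec c₁ c₂ ξ xp xm z w) = Ec c₁ c₂ ξ xp xm w := by
    funext z; exact Ec_symm _ _ _ _ _ _ _
  rw [e]
  refine Ec_diff c₁ c₂ H hbl hw hz ?_
  rw [sub_im, abs_sub_comm, ← sub_im]
  exact hzw

lemma Ec_measurable (c₁ c₂ : ℂ) (hξ : Measurable ξ) (xp xm : ℂ) :
    Measurable fun p : ℂ × ℂ => Ec c₁ c₂ ξ xp xm p.1 p.2 := by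
  unfold Ec
  exact ((El_measurable true hξ xp xm).const_mul c₁).add ((El_measurable false hξ xp xm).const_mul c₂)

lemma AE_meas_of {E : ℂ → ℂ → ℂ} (hE : Measurable fun p : ℂ × ℂ => E p.1 p.2) (Y₁ Y₂ : ℝ) :
    Measurable fun p : (Bool × ℝ) × ℂ => AE E Y₁ Y₂ p.1 p.2 := by
  refine AE_measurable fun y _ => ?_
  have h : Measurable fun q : ℂ × ℝ => (q.1, (q.2 : ℂ) + y * I) :=
    measurable_fst.prodMk ((Complex.measurable_ofReal.comp measurable_snd).add_const _)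
  exact hE.comp h

/-- joint measurability of the first family -/
lemma AE_Ec_measurable (c₁ c₂ : ℂ) (hξ : Measurable ξ) (xp xm : ℂ) (Y₁ Y₂ : ℝ) :
    Measurable fun p : (Bool × ℝ) × ℂ => AE (Ec c₁ c₂ ξ xp xm) Y₁ Y₂ p.1 p.2 :=
  AE_meas_of (Ec_measurable c₁ c₂ hξ xp xm) Y₁ Y₂

/-- the geometry: test functions on `y₁ < Im < y₂`, Cauchy lines `Y₁ < Y₂` outside, distance `θ` -/
structure Geo (y₁ y₂ Y₁ Y₂ θ α b Y : ℝ) : Prop where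
  θ0 : 0 < θ
  l1 : Y₁ + θ ≤ y₁
  l2 : y₂ ≤ Y₂ - θ
  α0 : 0 < α
  αY : α * (Y₂ - Y₁) < Real.pi
  b1 : |Y₁| < b
  b2 : |Y₂| < b
  bl : b ≤ l
  Yl : Y < l
  d1 : y₂ - Y₁ ≤ Y
  d2 : Y₂ - y₁ ≤ Y

lemma Geo.of_mem {y₁ y₂ Y₁ Y₂ θ α b Y : ℝ} (G : Geo y₁ y₂ Y₁ Y₂ θ α b Y) {z : ℂ} (hz : z ∈ PBE.Sp y₁ y₂) :
    |z.im| < b ∧ |z.im - Y₁| ≤ Y ∧ |z.im - Y₂| ≤ Y := by
  have h1 := abs_lt.1 G.b1
  have h2 := abs_lt.1 G.b2
  have h3 := G.θ0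
  have h4 := G.l1
  have h5 := G.l2
  have h6 := G.d1
  have h7 := G.d2
  have hz1 : y₁ < z.im := hz.1
  have hz2 : z.im < y₂ := hz.2
  refine ⟨?_, ?_, ?_⟩
  · rw [abs_lt]; constructor <;> linarith
  · rw [abs_le]; constructor <;> linarith
  · rw [abs_le]; constructor <;> linarith

lemma Geo.line {y₁ y₂ Y₁ Y₂ θ α b Y : ℝ} (G : Geo y₁ y₂ Y₁ Y₂ θ α b Y) {z : ℂ} (hz : z ∈ PBE.Sp y₁ y₂)
    (q : Bool × ℝ) : |((q.2 : ℂ) + ly Y₁ Y₂ q.1 * I).im| < b ∧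
      |(z - ((q.2 : ℂ) + ly Y₁ Y₂ q.1 * I)).im| ≤ Y := by
  have e : ((q.2 : ℂ) + ly Y₁ Y₂ q.1 * I).im = ly Y₁ Y₂ q.1 := by simp
  have h := G.of_mem hz
  rw [sub_im, e]
  rcases ly_or Y₁ Y₂ q.1 with h1 | h1 <;> rw [h1]
  · exact ⟨G.b1, h.2.1⟩
  · exact ⟨G.b2, h.2.2⟩

/-- **the first factors are test functions**, every rate `a' ≤ a < 2` -/
theorem AE_TC (c₁ c₂ : ℂ) {y₁ y₂ Y₁ Y₂ θ α b Y a : ℝ} (G : Geo y₁ y₂ Y₁ Y₂ θ α b Y) (ha0 : 0 ≤ a)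
    (ha : a < 2) : ∃ C : ℝ, 0 ≤ C ∧ ∀ {ξ : ℂ → ℂ} {K c : ℝ} {xp xm : ℂ}, XiA ξ b K c xp xm → 4 ≤ c →
      ∀ a' : ℝ, 0 ≤ a' → a' ≤ a → ∀ q : Bool × ℝ,
        PBE.TC y₁ y₂ a' (C * (K + ‖xp - xm‖) * Real.exp (-(a * |q.2|))) (AE (Ec c₁ c₂ ξ xp xm) Y₁ Y₂ q) := by
  obtain ⟨C, hC, h⟩ := Ec_bound c₁ c₂ ha0 ha G.Yl
  refine ⟨C, hC, fun {ξ K c xp xm} H hc a' ha' haa q => ⟨fun z hz => ?_, fun z hz => ?_⟩⟩
  · have hl := G.line hz q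
    exact (Ec_diff' c₁ c₂ H G.bl (G.of_mem hz).1 hl.1 (lt_of_le_of_lt hl.2 G.Yl)).differentiableWithinAt
  · have hl := G.line hz q
    have h1 := h H hc G.bl z _ (G.of_mem hz).1.le hl.1.le hl.2
    unfold AE
    refine h1.trans ?_
    have hK := H.K0
    rw [mul_assoc (C * (K + ‖xp - xm‖)), ← Real.exp_add, ly_re]
    refine mul_le_mul_of_nonneg_left (Real.exp_le_exp.2 ?_) (by positivity)
    have m1 := abs_nonneg z.re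
    nlinarith

/-- **the second factors are test functions** -/
theorem BE_TC {y₁ y₂ Y₁ Y₂ θ α b Y : ℝ} (G : Geo y₁ y₂ Y₁ Y₂ θ α b Y) {a' : ℝ} (ha' : 0 ≤ a') (haα : a' ≤ α)
    (q : Bool × ℝ) : PBE.TC y₁ y₂ a' (cE α θ * Real.exp (a' * |q.2|)) (BE α Y₁ Y₂ q) := by
  have h0 := G.θ0
  refine ⟨(BE_differentiableOn G.α0 G.αY q).mono fun z hz => ?_, fun z hz => ?_⟩
  · exact ⟨by linarith [hz.1, G.l1], by linarith [hz.2, G.l2]⟩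
  · exact norm_BE_le G.α0 G.θ0 G.αY ha' haα ⟨by linarith [hz.1, G.l1], by linarith [hz.2, G.l2]⟩ q

/-- **product form of the channel kernels** -/
theorem Ec_decomp (c₁ c₂ : ℂ) {y₁ y₂ Y₁ Y₂ θ α b Y : ℝ} (G : Geo y₁ y₂ Y₁ Y₂ θ α b Y)
    (H : XiA ξ b K c xp xm) (hc : 4 ≤ c) {z w : ℂ} (hz : z ∈ PBE.Sp y₁ y₂) (hw : w ∈ PBE.Sp y₁ y₂) :
    Integrable (fun q => AE (Ec c₁ c₂ ξ xp xm) Y₁ Y₂ q z * BE α Y₁ Y₂ q w) wm ∧
      Ec c₁ c₂ ξ xp xm z w = ∫ q, AE (Ec c₁ c₂ ξ xp xm) Y₁ Y₂ q z * BE α Y₁ Y₂ q w ∂wm := by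
  have h0 := G.θ0
  have hz' := G.of_mem hz
  have hw' : w ∈ So Y₁ Y₂ := ⟨by linarith [hw.1, G.l1], by linarith [hw.2, G.l2]⟩
  obtain ⟨i1, e1⟩ := El_decomp true le_rfl (by norm_num : (0 : ℝ) < 2) G.Yl G.α0 G.αY H hc G.bl G.b1 G.b2 hz'.1 hz'.2.1
    hz'.2.2 hw'
  obtain ⟨i2, e2⟩ := El_decomp false le_rfl (by norm_num : (0 : ℝ) < 2) G.Yl G.α0 G.αY H hc G.bl G.b1 G.b2 hz'.1 hz'.2.1
    hz'.2.2 hw'
  have e : (fun q => AE (Ec c₁ c₂ ξ xp xm) Y₁ Y₂ q z * BE α Y₁ Y₂ q w) = fun q =>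
      c₁ * (AE (El (sb true) ξ (hb true) xp xm) Y₁ Y₂ q z * BE α Y₁ Y₂ q w) +
        c₂ * (AE (El (sb false) ξ (hb false) xp xm) Y₁ Y₂ q z * BE α Y₁ Y₂ q w) := by
    funext q
    unfold AE Ec
    ring
  rw [e]
  refine ⟨(i1.const_mul c₁).add (i2.const_mul c₂), ?_⟩
  rw [integral_add (i1.const_mul c₁) (i2.const_mul c₂), integral_const_mul, integral_const_mul, ← e1, ← e2]
  rfl

/-- **the product representation**, any single rate `a' < a < 2` -/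
theorem Ec_rep (c₁ c₂ : ℂ) {y₁ y₂ Y₁ Y₂ θ α b Y a : ℝ} (G : Geo y₁ y₂ Y₁ Y₂ θ α b Y) (ha0 : 0 ≤ a)
    (ha : a < 2) : ∃ C : ℝ, 0 ≤ C ∧ ∀ {ξ : ℂ → ℂ} {K c : ℝ} {xp xm : ℂ}, XiA ξ b K c xp xm → 4 ≤ c →
      ∀ a' : ℝ, 0 ≤ a' → a' < a → a' ≤ α →
        PBE.Rep y₁ y₂ a' wm (AE (Ec c₁ c₂ ξ xp xm) Y₁ Y₂) (BE α Y₁ Y₂)
          (fun q => C * (K + ‖xp - xm‖) * Real.exp (-(a * |q.2|))) (fun q => cE α θ * Real.exp (a' * |q.2|)) ∧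
        ∫ q, (C * (K + ‖xp - xm‖) * Real.exp (-(a * |q.2|))) * (cE α θ * Real.exp (a' * |q.2|)) ∂wm =
          C * (K + ‖xp - xm‖) * cE α θ * (4 / (a - a')) := by
  obtain ⟨C, hC, h⟩ := AE_TC c₁ c₂ G ha0 ha
  refine ⟨C, hC, fun {ξ K c xp xm} H hc a' ha' haa haα => ?_⟩
  have e : (fun q : Bool × ℝ => (C * (K + ‖xp - xm‖) * Real.exp (-(a * |q.2|))) *
      (cE α θ * Real.exp (a' * |q.2|))) = fun q : Bool × ℝ =>
        (C * (K + ‖xp - xm‖) * cE α θ) * Real.exp (-((a - a') * |q.2|)) := by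
    funext q
    have : Real.exp (-((a - a') * |q.2|)) = Real.exp (-(a * |q.2|)) * Real.exp (a' * |q.2|) := by
      rw [← Real.exp_add]; congr 1; ring
    rw [this]; ring
  have hp : 0 < a - a' := by linarith
  refine ⟨⟨h H hc a' ha' haa.le, BE_TC G ha' haα, ?_⟩, ?_⟩
  · rw [e]; exact (integrable_exp_wm hp).const_mul _
  · rw [e, integral_const_mul, integral_exp_wm hp]

/-- the localised one body function of the plateau part is a test function -/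
theorem beC_TC {y₁ y₂ : ℝ} (H : XiA ξ b K c xp xm) (hc : 4 ≤ c) (hbl : b ≤ l) (h1 : -b ≤ y₁) (h2 : y₂ ≤ b)
    {a' : ℝ} (ha4 : a' ≤ 4) : PBE.TC y₁ y₂ a' (K + ‖xp - xm‖ / r) (beC ξ xp xm) := by
  have hr := r_pos
  have hK := H.K0
  have hm : ∀ z ∈ PBE.Sp y₁ y₂, |z.im| ≤ b := fun z hz => by
    rw [abs_le]; exact ⟨by linarith [hz.1], by linarith [hz.2]⟩
  refine ⟨fun z hz => (H.beC_diff hbl (hm z hz)).differentiableWithinAt, fun z hz => ?_⟩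
  refine (H.beC_le hc hbl (hm z hz)).trans ?_
  refine mul_le_mul_of_nonneg_left (Real.exp_le_exp.2 ?_) (by positivity)
  nlinarith [abs_nonneg z.re]

end PBV

end
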