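import Pool.Agent.PB.StatN
import Pool.Agent.PB.WaveR
import Pool.Agent.PB.I1Q

/-!
# Plan B: the local part of the pair kernel of two quanta, in the channels

* `kf_X`, `kf_Y` : the forces `keX`, `keY` at `u I` for complex `u ≠ 0`, `|Im u| < l`;
* **`lK_quanta`** : for quanta at `z`, `w`, `l / 2 ≤ Re ≤ 11 l / 10`, the local part `PBOb.lK` is
  `2 Ep + 2 e e' Em` at the heights, `ξ v = X (l + I v)`; the diagonal included;
* `aK_smul`, `lK_smul` : the kernels are linear in the field.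
-/

set_option autoImplicit false
set_option linter.unusedSectionVars false

noncomputable section

open Complex MeasureTheory

namespace PBRep

open PBForce PBOb PBF

section forces

/-- no zeros of the sine in a strip -/
lemma sin_ne_re {z : ℂ} (h1 : 0 < z.re) (h2 : z.re < Real.pi) : Complex.sin z ≠ 0 := by
  intro h
  obtain ⟨k, hk⟩ := Complex.sin_eq_zero_iff.1 h
  have e : z.re = k * Real.pi := by rw [hk]; simp
  have hp := Real.pi_pos
  rw [e] at h1 h2
  have k1 : (0 : ℝ) < k := by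
    by_contra hc
    push Not at hc
    nlinarith
  have k2 : (k : ℝ) < 1 := by nlinarith
  have k1' : 0 < k := by exact_mod_cast k1
  have k2' : k < 1 := by exact_mod_cast k2
  omega

lemma sin_ne_re' {z : ℂ} (h1 : z.re < 0) (h2 : -Real.pi < z.re) : Complex.sin z ≠ 0 := by
  have h := sin_ne_re (z := -z) (by rw [Complex.neg_re]; linarith) (by rw [Complex.neg_re]; linarith)
  rwa [Complex.sin_neg, neg_ne_zero] at h

variable {u : ℂ}

lemma re_uI (a : ℝ) : (u * I + (a : ℂ)).re = a - u.im := by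
  simp
  ring

lemma re_uI' (a : ℝ) : (u * I - (a : ℂ)).re = -a - u.im := by
  simp
  ring

lemma sinh_ne (hu : u ≠ 0) (h : |u.im| < NUMF.l) : Complex.sinh u ≠ 0 := by
  intro h0
  have h1 : Complex.sin (u * I) = 0 := by rw [Complex.sin_mul_I, h0, zero_mul]
  obtain ⟨k, hk⟩ := Complex.sin_eq_zero_iff.1 h1
  have e : -u.im = k * Real.pi := by
    have := congrArg Complex.re hk
    simpa using this
  obtain ⟨a1, a2⟩ := abs_lt.1 h
  have hl := NUMF.l_pos
  have hpi : Real.pi = 8 * NUMF.l := by unfold NUMF.l; ring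
  have k0 : k = 0 := by
    have k1 : (k : ℝ) < 1 := by nlinarith
    have k2 : (-1 : ℝ) < k := by nlinarith
    have k1' : k < 1 := by exact_mod_cast k1
    have k2' : -1 < k := by exact_mod_cast k2
    omega
  rw [k0, Int.cast_zero, zero_mul] at hk
  exact hu ((mul_eq_zero.1 hk).resolve_right I_ne_zero)

lemma e3u : Complex.sin (2 * (u * I)) = Complex.sinh (2 * u) * I := by
  rw [← Complex.sin_mul_I]
  congr 1
  ring

lemma e4u : Complex.cos (2 * (u * I)) = Complex.cosh (2 * u) := by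
  rw [← Complex.cos_mul_I]
  congr 1
  ring

/-- **the own force** -/
theorem kf_X (hu : u ≠ 0) (h : |u.im| < NUMF.l) : keX (u * I) = PBV.kf true u := by
  obtain ⟨a1, a2⟩ := abs_lt.1 h
  have hl := NUMF.l_pos
  have hpi : Real.pi = 8 * NUMF.l := by unfold NUMF.l; ring
  have n1 : Complex.sin (u * I + (NUMF.l : ℂ)) ≠ 0 :=
    sin_ne_re (by rw [re_uI]; linarith) (by rw [re_uI, hpi]; linarith)
  have n2 : Complex.sin (u * I - (NUMF.l : ℂ)) ≠ 0 :=
    sin_ne_re' (by rw [re_uI']; linarith) (by rw [re_uI', hpi]; linarith)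
  have n3 : Complex.sin (u * I + ((2 * NUMF.l : ℝ) : ℂ)) ≠ 0 :=
    sin_ne_re (by rw [re_uI]; linarith) (by rw [re_uI, hpi]; linarith)
  have n4 : Complex.sin (u * I - ((2 * NUMF.l : ℝ) : ℂ)) ≠ 0 :=
    sin_ne_re' (by rw [re_uI']; linarith) (by rw [re_uI', hpi]; linarith)
  push_cast at n3 n4
  have p1 := PBQ1.cot_pair n1 n2
  have p2 := PBQ1.cot_pair n3 n4
  rw [e3u, e4u, PBQ1.cos2l] at p1
  rw [e3u, e4u, PBQ1.cos4l] at p2
  have s0 : Complex.sinh u ≠ 0 := sinh_ne hu h
  have p0 : Complex.cot (u * I) = -(Complex.cosh u / Complex.sinh u) * I := by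
    unfold Complex.cot
    rw [Complex.cos_mul_I, Complex.sin_mul_I]
    field_simp
    rw [Complex.I_sq]
    ring
  have d1 : Complex.cosh (2 * u) - (NUMF.r : ℂ) ≠ 0 := by
    have e : (NUMF.r : ℂ) - Complex.cosh (2 * u) =
        2 * (Complex.sin (u * I + (NUMF.l : ℂ)) * Complex.sin (u * I - (NUMF.l : ℂ))) := by
      rw [← PBQ1.cos2l, ← e4u, Complex.sin_add, Complex.sin_sub, Complex.cos_two_mul,
        Complex.cos_two_mul]
      have h1 := Complex.sin_sq_add_cos_sq (u * I)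
      have h2 := Complex.sin_sq_add_cos_sq (NUMF.l : ℂ)
      linear_combination (-2 * Complex.cos (NUMF.l : ℂ) ^ 2) * h1 +
        (2 * Complex.cos (u * I) ^ 2) * h2
    intro h0
    have h1 : (NUMF.r : ℂ) - Complex.cosh (2 * u) = 0 := by linear_combination -h0
    rw [e] at h1
    exact mul_ne_zero two_ne_zero (mul_ne_zero n1 n2) h1
  have hsh : PBV.shc u = Complex.sinh u / u := PBV.shc_ne hu
  unfold keX PBV.kf
  simp only [PBV.hb, PBV.sb, cond_true]
  unfold PBV.hX PBV.tgh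
  rw [hsh]
  have e5 : I * (2 * Complex.cot (u * I) + Complex.cot (u * I + 2 * NUMF.l) +
      Complex.cot (u * I - 2 * NUMF.l) - Complex.cot (u * I + NUMF.l) -
      Complex.cot (u * I - NUMF.l)) =
      I * (2 * Complex.cot (u * I)) +
      I * (Complex.cot (u * I + 2 * NUMF.l) + Complex.cot (u * I - 2 * NUMF.l)) -
      I * (Complex.cot (u * I + NUMF.l) + Complex.cot (u * I - NUMF.l)) := by ring
  rw [e5, p1, p2, p0]
  have e6 : (NUMF.r : ℂ) - Complex.cosh (2 * u) = -(Complex.cosh (2 * u) - NUMF.r) := by ring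
  have e7 : (0 : ℂ) - Complex.cosh (2 * u) = -Complex.cosh (2 * u) := by ring
  rw [e6, e7, div_neg, div_neg]
  have h3 : Complex.cosh (2 * u) * Complex.cosh u - Complex.sinh (2 * u) * Complex.sinh u =
      Complex.cosh u := by
    rw [← Complex.cosh_sub]; congr 1; ring
  have h7 : 2 * (1 - (NUMF.r : ℂ)) * Complex.cosh u / (Complex.sinh u / u *
      (Complex.cosh (2 * u) - NUMF.r)) / u =
      2 * (Complex.cosh u / Complex.sinh u) - 2 * (Complex.sinh (2 * u) /
        (Complex.cosh (2 * u) - NUMF.r)) := by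
    field_simp
    linear_combination -h3
  rw [h7]
  linear_combination (-2 * (Complex.cosh u / Complex.sinh u) -
    2 * (Complex.sinh (2 * u) / (Complex.cosh (2 * u))) +
    2 * (Complex.sinh (2 * u) / (Complex.cosh (2 * u) - NUMF.r))) * Complex.I_mul_I

/-- **the cross force** -/
theorem kf_Y (hu : u ≠ 0) (h : |u.im| < NUMF.l) : keY (u * I) = PBV.kf false u := by
  obtain ⟨a1, a2⟩ := abs_lt.1 h
  have hl := NUMF.l_pos
  have hpi : Real.pi = 8 * NUMF.l := by unfold NUMF.l; ring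
  have n1 : Complex.sin (u * I + ((3 * NUMF.l : ℝ) : ℂ)) ≠ 0 :=
    sin_ne_re (by rw [re_uI]; linarith) (by rw [re_uI, hpi]; linarith)
  have n2 : Complex.sin (u * I - ((3 * NUMF.l : ℝ) : ℂ)) ≠ 0 :=
    sin_ne_re' (by rw [re_uI']; linarith) (by rw [re_uI', hpi]; linarith)
  push_cast at n1 n2
  have p1 := PBQ1.cot_pair n1 n2
  rw [e3u, e4u, PBQ1.cos6l] at p1
  have nc : Complex.cosh u ≠ 0 := by
    rw [← Complex.cos_mul_I, ← Complex.sin_add_pi_div_two]
    have e : u * I + (Real.pi : ℂ) / 2 = u * I + ((Real.pi / 2 : ℝ) : ℂ) := by push_cast; ring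
    rw [e]
    exact sin_ne_re (by rw [re_uI, hpi]; linarith) (by rw [re_uI, hpi]; linarith)
  have nc2 : Complex.cosh (2 * u) ≠ 0 := by
    rw [← Complex.cos_mul_I, ← Complex.sin_add_pi_div_two]
    have e : 2 * u * I + (Real.pi : ℂ) / 2 = (2 * u) * I + ((Real.pi / 2 : ℝ) : ℂ) := by
      push_cast; ring
    rw [e]
    have e2 : (2 * u).im = 2 * u.im := by simp
    exact sin_ne_re (by rw [re_uI, hpi, e2]; linarith) (by rw [re_uI, hpi, e2]; linarith)
  have d1 : Complex.cosh (2 * u) + (NUMF.r : ℂ) ≠ 0 := by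
    have e : -(NUMF.r : ℂ) - Complex.cosh (2 * u) =
        2 * (Complex.sin (u * I + 3 * (NUMF.l : ℂ)) * Complex.sin (u * I - 3 * (NUMF.l : ℂ))) := by
      rw [← PBQ1.cos6l, ← e4u, Complex.sin_add, Complex.sin_sub, Complex.cos_two_mul,
        Complex.cos_two_mul]
      have h1 := Complex.sin_sq_add_cos_sq (u * I)
      have h2 := Complex.sin_sq_add_cos_sq (3 * (NUMF.l : ℂ))
      linear_combination (-2 * Complex.cos (3 * (NUMF.l : ℂ)) ^ 2) * h1 +
        (2 * Complex.cos (u * I) ^ 2) * h2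
    intro h0
    have h1 : -(NUMF.r : ℂ) - Complex.cosh (2 * u) = 0 := by linear_combination -h0
    rw [e] at h1
    exact mul_ne_zero two_ne_zero (mul_ne_zero n1 n2) h1
  have p0 : Complex.tan (u * I) = Complex.sinh u / Complex.cosh u * I := by
    rw [Complex.tan_eq_sin_div_cos, Complex.sin_mul_I, Complex.cos_mul_I]
    ring
  unfold keY PBV.kf
  simp only [PBV.hb, PBV.sb, cond_false]
  unfold PBV.hY PBV.tgh
  have e5 : I * (-2 * Complex.tan (u * I) - 2 * Complex.cot (u * I + 3 * NUMF.l) -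
      2 * Complex.cot (u * I - 3 * NUMF.l)) =
      I * (-2 * Complex.tan (u * I)) -
      2 * I * (Complex.cot (u * I + 3 * NUMF.l) + Complex.cot (u * I - 3 * NUMF.l)) := by ring
  rw [e5, p1, p0]
  have e6 : -(NUMF.r : ℂ) - Complex.cosh (2 * u) = -(Complex.cosh (2 * u) + NUMF.r) := by ring
  rw [e6, div_neg]
  have h3 : Complex.sinh (3 * u) = Complex.sinh u * Complex.cosh (2 * u) +
      Complex.cosh u * Complex.sinh (2 * u) := by
    rw [← Complex.sinh_add]; congr 1; ring
  have h4 : Complex.sinh (2 * u) = 2 * Complex.sinh u * Complex.cosh u := Complex.sinh_two_mul u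
  have h5 : Complex.cosh (2 * u) = 2 * Complex.cosh u ^ 2 - 1 := by
    rw [Complex.cosh_two_mul]
    have := Complex.cosh_sq_sub_sinh_sq u
    linear_combination (-1 : ℂ) * this
  have h7 : 2 * u * ((NUMF.r - 1 / 2) * Complex.sinh (3 * u) + 1 / 2 * Complex.sinh u) /
      (Complex.cosh u * Complex.cosh (2 * u) * (Complex.cosh (2 * u) + NUMF.r)) / u =
      2 * (Complex.sinh u / Complex.cosh u) - 4 * (Complex.sinh (2 * u) /
        (Complex.cosh (2 * u) + NUMF.r)) + 2 * (Complex.sinh (2 * u) / Complex.cosh (2 * u)) := by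
    rw [h3, h4]
    generalize Complex.sinh u = S at *
    generalize hc2 : Complex.cosh (2 * u) = c at *
    generalize hc1 : Complex.cosh u = C at *
    field_simp
    linear_combination (S * (1 - 2 * c)) * h5
  rw [h7]
  linear_combination (-2 * (Complex.sinh u / Complex.cosh u) +
    4 * (Complex.sinh (2 * u) / (Complex.cosh (2 * u) + NUMF.r))) * Complex.I_mul_I

end forces

section quanta

lemma hgt_inv (z : ℂ) : (NUP1.l : ℂ) + I * hgt z = z := by
  unfold hgt
  linear_combination (-(z - (NUP1.l : ℂ))) * I_mul_I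

lemma sub_hgt (z w : ℂ) : z - w = (hgt z - hgt w) * I := by
  unfold hgt
  linear_combination (z - w) * I_mul_I

lemma cot_add_half (v : ℂ) : Complex.cot (v + ((4 * NUP1.l : ℝ) : ℂ)) = -Complex.tan v := by
  have e : v + ((4 * NUP1.l : ℝ) : ℂ) = v + Real.pi / 2 := by
    unfold NUP1.l
    push_cast
    ring
  rw [e, Complex.cot, Complex.cos_add_pi_div_two, Complex.sin_add_pi_div_two,
    Complex.tan_eq_sin_div_cos, neg_div]

/-- **the kernel of two quanta off the diagonal** -/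
theorem aK_quanta (X : ℂ → ℂ) (s s' : Bool) {z w : ℂ} (hne : z ≠ w)
    (him : |(hgt z - hgt w).im| < NUMF.l) : aK X (s, none) (s', none) z w =
      (X z - X w) * (if s = s' then PBV.kf true (hgt z - hgt w) else PBV.kf false (hgt z - hgt w)) := by
  have hv : hgt z - hgt w ≠ 0 := by
    intro h0
    have h1 := sub_hgt z w
    rw [h0, zero_mul] at h1
    exact hne (sub_eq_zero.1 h1)
  have hpz : ∀ z : ℂ, pf none z = z := fun z => by
    unfold pf
    rw [sh_none]
    simp
  unfold aK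
  simp only [hpz]
  rw [rg_of_ne X hne, sub_hgt z w]
  have hco : ∀ s : Bool, PBI.co (s, none) = (s, .A) := fun s => rfl
  rw [hco, hco]
  by_cases hs : s = s'
  · subst hs
    rw [if_pos rfl, ← kf_X hv him]
    have e1 : m0 (s, .A) (s, .A) = 2 := by simp [m0, mS]
    have e2 : oth (s, .A) (s, .A) = [(2 * NUP1.l, 1), (-(2 * NUP1.l), 1), (NUP1.l, -1),
        (-NUP1.l, -1)] := by
      simp [oth, oS]
    rw [e1, e2]
    simp only [LL_cons, LL_nil]
    unfold keX
    have hll : (NUMF.l : ℂ) = (NUP1.l : ℂ) := rfl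
    rw [hll]
    push_cast
    rw [← sub_eq_add_neg, ← sub_eq_add_neg]
    ring
  · rw [if_neg hs, ← kf_Y hv him]
    have e1 : m0 (s, .A) (s', .A) = 0 := by simp [m0, PBOb.mC, hs]
    have e2 : oth (s, .A) (s', .A) = [(4 * NUP1.l, 2), (3 * NUP1.l, -2), (-(3 * NUP1.l), -2)] := by
      simp [oth, oC, hs]
    rw [e1, e2]
    simp only [LL_cons, LL_nil]
    rw [cot_add_half]
    unfold keY
    have hll : (NUMF.l : ℂ) = (NUP1.l : ℂ) := rfl
    rw [hll]
    push_cast
    rw [← sub_eq_add_neg]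
    ring

/-- charge of a quantum -/
theorem qb_none (s : Bool) : qb (s, none) = eM s := by
  cases s <;> simp [qb, PBI.co, NUP1S.sc, NUP1.Bd.chg, NUP1S.ob4, eM]

lemma cosh_hgt {z : ℂ} (h1 : 1 / 2 * NUP1.l ≤ z.re) (h2 : z.re ≤ 11 / 10 * NUP1.l) :
    |(hgt z).im| ≤ NUMF.l := by
  have hl : 0 < NUMF.l := NUMF.l_pos
  have hll : NUP1.l = NUMF.l := rfl
  rw [hgt_im, abs_le, hll]
  rw [hll] at h1 h2
  constructor <;> linarith

/-- **the step is the hyperbolic tangent of the height** -/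
theorem sgU_tgh {z : ℂ} (h : |(hgt z).im| ≤ NUMF.l) : sgU z = PBV.tgh (hgt z) := by
  have hc := PBV.cosh2_ne h
  show PB.NX.sgC (hgt z) = _
  obtain ⟨v, hv⟩ : ∃ v : ℂ, v = hgt z := ⟨_, rfl⟩
  rw [← hv] at hc ⊢
  have hE : Complex.exp (2 * v) ≠ 0 := Complex.exp_ne_zero _
  have e1 : Complex.exp (4 * v) = Complex.exp (2 * v) ^ 2 := by
    rw [← Complex.exp_nat_mul]
    congr 1
    push_cast
    ring
  have e2 : Complex.exp (-(2 * v)) = (Complex.exp (2 * v))⁻¹ := Complex.exp_neg _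
  unfold PB.NX.sgC PBV.tgh
  rw [Complex.cosh, e2] at hc
  rw [Complex.cosh, Complex.sinh, e1, e2]
  obtain ⟨E, hEd⟩ : ∃ E : ℂ, E = Complex.exp (2 * v) := ⟨_, rfl⟩
  rw [← hEd] at hc hE ⊢
  have h3 : E ^ 2 + 1 ≠ 0 := by
    intro h0
    apply hc
    have : E + E⁻¹ = (E ^ 2 + 1) / E := by field_simp
    rw [this, h0]
    simp
  have h4 : (E + E⁻¹) / 2 = (E ^ 2 + 1) / (2 * E) := by field_simp
  have h5 : (E - E⁻¹) / 2 = (E ^ 2 - 1) / (2 * E) := by field_simp
  rw [h4, h5]
  field_simp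
  ring

theorem deriv_xi (X : ℂ → ℂ) (z : ℂ) :
    deriv (fun v : ℂ => X ((NUP1.l : ℂ) + I * v)) (hgt z) = I * deriv X z := by
  have h1 := deriv_comp_mul_left I (fun v : ℂ => X ((NUP1.l : ℂ) + v)) (hgt z)
  rw [h1, deriv_comp_const_add, hgt_inv, smul_eq_mul]

/-- **the local part of the kernel of two quanta in the channels** -/
theorem lK_quanta (X : ℂ → ℂ) (xp xm : ℂ) (s s' : Bool) {z w : ℂ} (hz1 : 1 / 2 * NUP1.l ≤ z.re)
    (hz2 : z.re ≤ 11 / 10 * NUP1.l) (hw1 : 1 / 2 * NUP1.l ≤ w.re) (hw2 : w.re ≤ 11 / 10 * NUP1.l) :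
    lK X xp xm (s, none) (s', none) z w =
      2 * PBV.Ep (fun v => X ((NUP1.l : ℂ) + I * v)) xp xm (hgt z) (hgt w) +
      2 * (eM s * eM s') * PBV.Em (fun v => X ((NUP1.l : ℂ) + I * v)) xp xm (hgt z) (hgt w) := by
  obtain ⟨ξ, hξ⟩ : ∃ ξ : ℂ → ℂ, ξ = fun v : ℂ => X ((NUP1.l : ℂ) + I * v) := ⟨_, rfl⟩
  rw [← hξ]
  have hl : 0 < NUMF.l := NUMF.l_pos
  have hll : NUP1.l = NUMF.l := rfl
  have iz := cosh_hgt hz1 hz2
  have iw := cosh_hgt hw1 hw2
  have izw : |(hgt z - hgt w).im| < NUMF.l := by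
    rw [Complex.sub_im, hgt_im, hgt_im, abs_lt, hll]
    rw [hll] at hz1 hz2 hw1 hw2
    constructor <;> linarith
  have xz : ξ (hgt z) = X z := by rw [hξ]; show X _ = _; rw [hgt_inv]
  have xw : ξ (hgt w) = X w := by rw [hξ]; show X _ = _; rw [hgt_inv]
  have hpz : ∀ z : ℂ, pf none z = z := fun z => by
    unfold pf
    rw [sh_none]
    simp
  have hp : pK X xp xm (s, none) (s', none) z w =
      2 * (eM s * eM s') * PBV.Pl ξ xp xm (hgt z) (hgt w) := by
    unfold pK
    simp only [hpz]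
    rw [qb_none, qb_none, sgU_tgh iz, sgU_tgh iw]
    unfold PB.NX.plat PB.NX.be PBV.Pl PBV.beC
    rw [xz, xw]
  unfold lK
  rw [hp]
  rcases eq_or_ne z w with hzw | hzw
  · subst hzw
    have d1 := PBV.Ep_diag ξ xp xm iz
    have d2 := PBV.Em_diag ξ xp xm iz
    have dx : deriv ξ (hgt z) = I * deriv X z := by rw [hξ]; exact deriv_xi X z
    rw [dx] at d1 d2
    by_cases hs : s = s'
    · subst hs
      rw [aK_self, hpz]
      have e : eM s * eM s = 1 := by cases s <;> simp [eM]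
      rw [e]
      linear_combination (-(1 / 2 : ℂ)) * d1 + (-(1 / 2 : ℂ)) * d2
    · have e : eM s * eM s' = -1 := by
        cases s <;> cases s' <;> simp [eM] at hs ⊢
      have ha : aK X (s, none) (s', none) z z = 0 := by
        unfold aK
        have hco : ∀ s : Bool, PBI.co (s, none) = (s, .A) := fun s => rfl
        rw [hco, hco]
        have e1 : m0 (s, .A) (s', .A) = 0 := by simp [m0, PBOb.mC, hs]
        rw [e1]
        simp
      rw [ha, e]
      linear_combination (-(1 / 2 : ℂ)) * d1 + (1 / 2 : ℂ) * d2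
  · have hne : hgt z ≠ hgt w := by
      intro h0
      have h1 := sub_hgt z w
      rw [h0, sub_self, zero_mul] at h1
      exact hzw (sub_eq_zero.1 h1)
    rw [aK_quanta X s s' hzw izw, ← xz, ← xw]
    have d1 := PBV.Ep_eq ξ xp xm iz iw izw.le hne
    have d2 := PBV.Em_eq ξ xp xm iz iw izw.le hne
    by_cases hs : s = s'
    · subst hs
      rw [if_pos rfl]
      have e : eM s * eM s = 1 := by cases s <;> simp [eM]
      rw [e]
      linear_combination (1 / 2 : ℂ) * d1 + (1 / 2 : ℂ) * d2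
    · rw [if_neg hs]
      have e : eM s * eM s' = -1 := by
        cases s <;> cases s' <;> simp [eM] at hs ⊢
      rw [e]
      linear_combination (1 / 2 : ℂ) * d1 - (1 / 2 : ℂ) * d2

end quanta

section linear

theorem rg_smul (c : ℂ) (X : ℂ → ℂ) (u v : ℂ) : rg (fun u => c * X u) u v = c * rg X u v := by
  rcases eq_or_ne u v with rfl | h
  · rw [rg_self, rg_self, deriv_const_mul_field]
  · rw [rg_of_ne _ h, rg_of_ne _ h]
    ring

/-- the kernel is linear in the field -/
theorem aK_smul (k : ℂ) (X : ℂ → ℂ) (b c : Bool × Option NUP1S.O3) (z z' : ℂ) :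
    aK (fun u => k * X u) b c z z' = k * aK X b c z z' := by
  unfold aK
  rw [rg_smul]
  ring

theorem pK_smul (k : ℂ) (X : ℂ → ℂ) (xp xm : ℂ) (b c : Bool × Option NUP1S.O3) (z z' : ℂ) :
    pK (fun u => k * X u) (k * xp) (k * xm) b c z z' = k * pK X xp xm b c z z' := by
  unfold pK PB.NX.plat PB.NX.be
  ring

theorem lK_smul (k : ℂ) (X : ℂ → ℂ) (xp xm : ℂ) (b c : Bool × Option NUP1S.O3) (z z' : ℂ) :
    lK (fun u => k * X u) (k * xp) (k * xm) b c z z' = k * lK X xp xm b c z z' := by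
  unfold lK
  rw [aK_smul, pK_smul]
  ring

end linear

end PBRep

end
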