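import Pool.Agent.PB.RepN
import Pool.Agent.PB.ChnO2
import Pool.Agent.PB.FXi
import Pool.Agent.PB.RepK
import Pool.Agent.PB.RepU

/-!
# Plan B: the quadratic part of the first Ward identity in terms of the free quanta (helper15)

**`repI`**: rows `x` on the imaginary axis, row `i0`, rate `a' < 2`; sum over `n ≤ N`, weights `c n`:
`m * F0N (nuQ aK + nu gl)` equals
`∫ F[Vp (Apl q) Vp (Bch q)] dwm + (∫ F[Vm (Ami q) Vm (Bch q)] dwm + 2 F[Vm uF S] -
  (rP - rM)/2 F[S S]) + F[Vp qF]`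
up to `K (1 + Mq) δ`, where `δ` bounds the moments with one pinned factor (`Pins`).
-/

set_option autoImplicit false
set_option linter.unusedSectionVars false
set_option maxHeartbeats 1000000

noncomputable section

open Complex MeasureTheory Finset
open scoped ENNReal Classical

namespace PBRep

open NUP1 hiding Kd
open NUO NUP1S NUP1S.Ab NUP1S.AbC PBF PBFunc PB
open PBI (Stt Kd F0 F0Ok fl nuI nuQI mnI InD PAll F0_rep nuI_eq)
open PBForce (xiR Rws0)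
open PBV (Ep Em wm)
open PBEI (Apl Ami Bch rP rM rF uF qF)

variable {Z : Stt} {P : NUO.Par} {x0 κ κ' δ : ℝ} {N : ℕ} {η η' : ℕ → Crs} {c : ℕ → ℂ}

/-- linearity of the centred statistic -/
theorem VC_smul (ρ : Kd → ℝ → ℂ) (r : ℂ) (g : Kd → ℂ → ℂ) (ω : CfN N) :
    VC ρ P η (fun b z => r * g b z) ω = r * VC ρ P η g ω := by
  have h1 : mnI ρ (fun b z => r * g b z) = r * mnI ρ g := by
    unfold mnI NX.mn
    rw [Finset.mul_sum]
    refine Finset.sum_congr rfl fun b _ => ?_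
    rw [← integral_const_mul]
    refine integral_congr_ae (Filter.Eventually.of_forall fun u => ?_)
    simp only []
    ring
  have h2 : VA (sK fun b z => r * g b z) P η ω = r * VA (sK g) P η ω := by
    have h3 : VO (sK fun b z => r * g b z) P ω = r * VO (sK g) P ω := by
      show stO _ P _ = r * stO _ P _
      unfold stO
      rw [Finset.mul_sum]
      refine Finset.sum_congr rfl fun i _ => ?_
      unfold obT
      rcases kd (ω.2.2.1 i) with _ | _ | _ | _ | _ <;> simp only [sK] <;> ring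
    rw [VA_eq, VA_eq, h3, VQ_eq, VQ_eq]
    simp only [sK]
    rw [← Finset.mul_sum, ← Finset.mul_sum]
    ring
  unfold VC
  rw [h1, h2]
  ring

theorem aLoc_eq (X : ℂ → ℂ) (xp xm : ℂ) :
    PBI.aLoc xp xm (fX X) sX (PBOb.aK X) = PBOb.lK X xp xm := rfl

/-- the three channels -/
theorem lK_split {X : ℂ → ℂ} (hX : DifferentiableOn ℂ X PBOb.FS) (xp xm : ℂ) {D : Kd → Set ℂ} (hD : DOk D)
    (b c : Kd) (z w : ℂ) (hz : z ∈ D b) (hw : w ∈ D c) :
    PBI.aLoc xp xm (fX X) sX (PBOb.aK X) b c z w =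
      kQ eP (Ep (fun v => X (l + I * v)) xp xm) b c z w +
        kQ eM (Em (fun v => X (l + I * v)) xp xm) b c z w + PBOb.aO X xp xm b c z w := by
  have hl := Bd.l_pos
  rw [aLoc_eq]
  unfold kQ PBOb.aO
  by_cases h : b.2 = none ∧ c.2 = none
  · obtain ⟨s, k⟩ := b
    obtain ⟨s', k'⟩ := c
    simp only at h
    obtain ⟨rfl, rfl⟩ := h
    simp only [and_self, if_true]
    have h1 := hD.n s hz
    have h2 := hD.n s' hw
    rw [lK_quanta X xp xm s s' (by linarith [h1.1]) h1.2.le (by linarith [h2.1]) h2.2.le]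
    simp only [eP]
    ring
  · simp only [if_neg h]
    ring

/-- scaling of the whole insertion -/
theorem F0N_scale (ρ : Kd → ℝ → ℂ) (r : ℂ) (X : ℂ → ℂ) (gl : Kd → ℂ → ℂ) :
    r * F0N Z P x0 N c (fun ι _ s z => nuQI ρ (PBOb.aK X) ι s z + nuI ρ gl ι s z) =
      F0N Z P x0 N c (fun ι _ s z => nuQI ρ (PBOb.aK fun u => r * X u) ι s z +
        nuI ρ (fun b z => r * gl b z) ι s z) := by
  rw [← F0N_smul]
  congr 1
  funext ι _ s z
  have e : PBOb.aK (fun u => r * X u) = fun b c z w => r * PBOb.aK X b c z w := by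
    funext b c z w
    exact aK_smul r X b c z w
  rw [e, nuQI_smul]
  have e2 : nuI ρ (fun b z => r * gl b z) ι s z = r * nuI ρ gl ι s z := by
    rw [nuI_eq, nuI_eq, mul_sub]
    congr 1
    · unfold PBI.St
      rw [Finset.mul_sum]
    · unfold mnI NX.mn
      rw [Finset.mul_sum]
      refine Finset.sum_congr rfl fun b _ => ?_
      rw [← integral_const_mul]
      refine integral_congr_ae (Filter.Eventually.of_forall fun u => ?_)
      simp only []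
      ring
  rw [e2]
  ring

/-- the charges of the density cancel -/
theorem chK_mean {ρ : Kd → ℝ → ℂ} {ρ0 : ℝ → ℂ} (h : RhoK ρ ρ0) :
    ∑ b, ∫ u, ρ b u * (PBI.chK b * 1) = 0 := by
  rw [sum_Kd (f := fun b => ∫ u, ρ b u * (PBI.chK b * 1)) fun s k => by simp [h.o]]
  have e1 : PBI.chK (true, none) = 1 := by
    unfold PBI.chK
    norm_num [sc, chg, PBI.co, ob4, NUP1.Bd.chg]
  have e2 : PBI.chK (false, none) = -1 := by
    unfold PBI.chK
    norm_num [sc, chg, PBI.co, ob4, NUP1.Bd.chg]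
  simp only [h.q, e1, e2]
  rw [← integral_add (by simpa using h.i) (by simpa using h.i.neg)]
  simp

/-- the mean of an admissible statistic exists -/
theorem int_ad {g : Kd → ℂ → ℂ} (hA : AdS P x0 δ (sK g)) {ρ : Kd → ℝ → ℂ} {ρ0 : ℝ → ℂ}
    (hρ : RhoK ρ ρ0) (hx0 : x0 ≤ l) (hδ : 0 ≤ δ) (b : Kd) :
    Integrable fun u => ρ b u * g b (vl l u) := by
  have hl := Bd.l_pos
  obtain ⟨C, hA⟩ := hA
  obtain ⟨s, k⟩ := b
  cases k with
  | some k =>
    simp only [hρ.o, zero_mul]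
    exact integrable_zero _ _ _
  | none =>
    have hv : Measurable fun u : ℝ => vl l u := by
      unfold vl
      fun_prop
    have hm : Measurable fun u : ℝ => g (s, none) (vl l u) := (hA.m s none).comp hv
    have h1 := (hρ.int (s, none)).bdd_mul (c := C) hm.aestronglyMeasurable
      (Filter.Eventually.of_forall fun u => hA.A s (vl l u) (by simpa [vl] using hx0)
        (by
          have e : (vl l u).re = l := by simp [vl]
          rw [e]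
          nlinarith))
    refine h1.congr (Filter.Eventually.of_forall fun u => ?_)
    simp only []
    ring

theorem VC_two (ρ : Kd → ℝ → ℂ) (ε : Bool → ℂ) (g : ℂ → ℂ) (ω : CfN N) :
    VC ρ P η (qK ε fun z => 2 * g z) ω = 2 * VC ρ P η (qK ε g) ω := by
  have e : qK ε (fun z => 2 * g z) = fun b z => 2 * qK ε g b z := by
    funext b z
    obtain ⟨s, k⟩ := b
    cases k with
    | none =>
      show ε s * (2 * g (hgt z)) = 2 * (ε s * g (hgt z))
      ring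
    | some k =>
      show (0 : ℂ) = 2 * 0
      ring
  rw [e, VC_smul]

theorem F_two {Ω : Type*} [MeasurableSpace Ω] {μ : Measure Ω} {w A B B' : Ω → ℂ}
    (h : ∀ ω, B' ω = 2 * B ω) :
    F μ w (fun ω => A ω * B' ω) = 2 * F μ w (fun ω => A ω * B ω) := by
  rw [← F_smul]
  congr 1
  funext ω
  rw [h ω]
  ring

/-- constants of the objects -/
def cO (a : ℝ) : ℝ := ∫ q, PBOb.alO 1 q * PBOb.beO a q ∂PBOb.muO

theorem cO_eq (a C : ℝ) : ∫ q, PBOb.alO C q * PBOb.beO a q ∂PBOb.muO = C * cO a := by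
  unfold cO
  rw [← integral_const_mul]
  refine integral_congr_ae (Filter.Eventually.of_forall fun q => ?_)
  simp only [PBOb.alO]
  ring

theorem cO_nonneg (a : ℝ) : 0 ≤ cO a := integral_nonneg fun q =>
  mul_nonneg (PBOb.alO_nonneg zero_le_one q) (PBOb.beO_nonneg a q)

section gen

variable {T : Type*} [MeasurableSpace T] {σ : Measure T} [SFinite σ] {A B A' : T → ℂ → ℂ}
  {al be al' : T → ℝ} {a M : ℝ} {X : ℂ → ℂ} {xp xm : ℂ} {D : Kd → Set ℂ} {ρ : Kd → ℝ → ℂ}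
  {ρ0 : ℝ → ℂ} {gl : Kd → ℂ → ℂ}

/-- what is used of the field and of the representations -/
structure Rp (a M : ℝ) (σ : Measure T) (X : ℂ → ℂ) (xp xm : ℂ) (A B A' : T → ℂ → ℂ)
    (al be al' : T → ℝ) : Prop where
  mX : Measurable X
  fx : PBOb.FX X xp xm M
  r1 : PBE.Rep (-(l / 10)) (9 / 20 * l) a σ A B al be
  r2 : PBE.Rep (-(l / 10)) (9 / 20 * l) a σ A' B al' be
  k1 : ∀ z ∈ PBE.Sp (-(l / 10)) (9 / 20 * l), ∀ w ∈ PBE.Sp (-(l / 10)) (9 / 20 * l),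
    Ep (fun v => X (l + I * v)) xp xm z w = ∫ q, A q z * B q w ∂σ
  k2 : ∀ z ∈ PBE.Sp (-(l / 10)) (9 / 20 * l), ∀ w ∈ PBE.Sp (-(l / 10)) (9 / 20 * l),
    Em (fun v => X (l + I * v)) xp xm z w = ∫ q, A' q z * B q w ∂σ
  mE1 : Measurable fun p : ℂ × ℂ => Ep (fun v => X (l + I * v)) xp xm p.1 p.2
  mE2 : Measurable fun p : ℂ × ℂ => Em (fun v => X (l + I * v)) xp xm p.1 p.2
  mA : Measurable fun p : T × ℂ => A p.1 p.2
  mB : Measurable fun p : T × ℂ => B p.1 p.2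
  mA' : Measurable fun p : T × ℂ => A' p.1 p.2

/-- what is used of the lines and of the density -/
structure Ln (P : NUO.Par) (x0 : ℝ) (N : ℕ) (D : Kd → Set ℂ) (ρ : Kd → ℝ → ℂ)
    (ρ0 : ℝ → ℂ) : Prop where
  hP : PBOb.ParO P
  hx : 11 / 20 * l < x0
  hD : DOk D
  hw : ∀ n ≤ N, PBI.AllW x0 n n (fl P) fun c x => ∀ i, ∀ t : ℝ, vl (x i) t ∈ D (c i)
  hρ : RhoK ρ ρ0

theorem rp_ch3 (hT : TrN Z P x0 κ κ' δ N η η') (hR : Rp a M σ X xp xm A B A' al be al')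
    (hL : Ln P x0 N D ρ ρ0) (ha0 : 0 ≤ a) (ha : a < 2) :
    Chn P x0 δ N PBOb.muO D ρ (PBOb.aO X xp xm) (PBOb.A3 X xp xm) PBOb.B3
      (PBOb.alO (‖xp - xm‖ + M)) (PBOb.beO a) (fun _ z => Real.exp (-2 * |z.im|))
      (fun _ z => Real.exp (-a * |z.im|)) := by
  have hl := Bd.l_pos
  have hbd : ∀ (a : ℝ), 0 ≤ a → ∀ z : ℂ, Real.exp (-a * |z.im|) ≤ 1 := fun a ha z =>
    Real.exp_le_one_iff.2 (by nlinarith [abs_nonneg z.im])
  exact PBOb.chnO (a := a) hR.mX hR.fx hL.hP (x0 := x0) (δ := δ) (by linarith [hL.hx])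
    (hT.ins 0 (Nat.zero_le _)).hδ hL.hD.q hL.hρ.int hL.hρ.o hL.hD.ln ha0 ha (N := N) fun n hn =>
      ⟨hL.hw n hn, fun _ _ _ _ _ _ => ⟨1, fun _ _ => hbd 2 (by norm_num) _⟩,
        fun _ _ _ _ _ _ => ⟨1, fun _ _ => hbd a ha0 _⟩⟩

/-- **the total insertion**, channels without factors -/
theorem rp_total (hT : TrN Z P x0 κ κ' δ N η η') (hR : Rp a M σ X xp xm A B A' al be al')
    (hL : Ln P x0 N D ρ ρ0) (ha0 : 0 ≤ a) (ha : a < 2) (hgl : AdS P x0 δ (sK gl)) :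
    Integrable (fun q => F (mN N) (wT Z P N η η' c) fun ω =>
      VC ρ P η (qK eP (A q)) ω * VC ρ P η (qK eP (B q)) ω) σ ∧
    Integrable (fun q => F (mN N) (wT Z P N η η' c) fun ω =>
      VC ρ P η (qK eM (A' q)) ω * VC ρ P η (qK eM (B q)) ω) σ ∧
    F0N Z P x0 N c (fun ι _ s z => nuQI ρ (PBOb.aK X) ι s z + nuI ρ gl ι s z) =
      (∫ q, (F (mN N) (wT Z P N η η' c) fun ω =>
        VC ρ P η (qK eP (A q)) ω * VC ρ P η (qK eP (B q)) ω) ∂σ) +
      (∫ q, (F (mN N) (wT Z P N η η' c) fun ω =>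
        VC ρ P η (qK eM (A' q)) ω * VC ρ P η (qK eM (B q)) ω) ∂σ) +
      (1 / 2) * (∫ q, (F (mN N) (wT Z P N η η' c) fun ω =>
        VC ρ P η (PBOb.A3 X xp xm q) ω * VC ρ P η (PBOb.B3 q) ω) ∂PBOb.muO) +
      2 * (F (mN N) (wT Z P N η η' c) fun ω =>
        VC ρ P η (PBI.beK xp xm (fX X) sX) ω * SN P η ω) -
      (xp - xm) / 2 * (F (mN N) (wT Z P N η η' c) fun ω => SN P η ω * SN P η ω) +
      F (mN N) (wT Z P N η η' c) (VC ρ P η gl) := by
  have hl := Bd.l_pos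
  have i0' := hT.ins 0 (Nat.zero_le _)
  have hδ := i0'.hδ
  have hρ := hL.hρ
  have ch1 := chn_q (δ := δ) (N := N) (P := P) eP_le hL.hD hρ ha0 hL.hx (by linarith) hR.r1
    hR.k1 (fun z w => PBV.Ec_symm _ _ _ _ _ z w) hR.mE1 hR.mA hR.mB hL.hw
  have ch2 := chn_q (δ := δ) (N := N) (P := P) eM_le hL.hD hρ ha0 hL.hx (by linarith) hR.r2
    hR.k2 (fun z w => PBV.Ec_symm _ _ _ _ _ z w) hR.mE2 hR.mA' hR.mB hL.hw
  have ch3 := rp_ch3 hT hR hL ha0 ha
  have hxl : x0 ≤ l := i0'.hx0.trans (by linarith)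
  have adb : AdS P x0 δ (sK (PBI.beK xp xm (fX X) sX)) := adS_be hL.hP (by linarith [hL.hx]) hδ hR.mX hR.fx
  have ads : AdS P x0 δ (sK (PBI.sgK sX)) := adS_sg hL.hP (by linarith [hL.hx]) hδ
  have tot := F0N_total (c := c) hT ch1 ch2 ch3
    (fun b c z w hz hw => lK_split hR.fx.dif _ _ hL.hD b c z w hz hw)
    (qid_aK hR.mX hR.fx hL.hD.q hρ.int hρ.o hL.hD.ln) hρ.int (chK_mean hρ)
    (int_ad adb hρ hxl i0'.hδ0) (int_ad ads hρ hxl i0'.hδ0) adb ads hgl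
  have f1 : ∀ q, (F (mN N) (wT Z P N η η' c) fun ω => VC ρ P η (qK eP (A q)) ω *
      VC ρ P η (qK eP fun z => 2 * B q z) ω) = 2 * F (mN N) (wT Z P N η η' c) fun ω =>
      VC ρ P η (qK eP (A q)) ω * VC ρ P η (qK eP (B q)) ω := fun q =>
    F_two fun ω => VC_two ρ eP (B q) ω
  have f2 : ∀ q, (F (mN N) (wT Z P N η η' c) fun ω => VC ρ P η (qK eM (A' q)) ω *
      VC ρ P η (qK eM fun z => 2 * B q z) ω) = 2 * F (mN N) (wT Z P N η η' c) fun ω =>
      VC ρ P η (qK eM (A' q)) ω * VC ρ P η (qK eM (B q)) ω := fun q =>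
    F_two fun ω => VC_two ρ eM (B q) ω
  have j1 := (ch1.F0N_nuQ (c := c) hT).1
  have j2 := (ch2.F0N_nuQ (c := c) hT).1
  have e3 : (VC ρ P η (PBI.sgK sX) : CfN N → ℂ) = SN P η := funext fun ω => VC_sg hρ ω
  simp only [f1] at j1 tot
  simp only [f2] at j2 tot
  rw [integral_const_mul, integral_const_mul, e3] at tot
  refine ⟨?_, ?_, ?_⟩
  · refine (j1.const_mul (1 / 2)).congr (Filter.Eventually.of_forall fun q => ?_)
    simp only []
    ring
  · refine (j2.const_mul (1 / 2)).congr (Filter.Eventually.of_forall fun q => ?_)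
    simp only []
    ring
  · rw [tot]
    ring

/-- what is used of the moments -/
structure Mo (a : ℝ) (w : CfN N → ℂ) (ρ0 : ℝ → ℂ) (P : NUO.Par) (η : ℕ → Crs) (K2 dp : ℝ) : Prop where
  K0 : 0 ≤ K2
  wm : AEStronglyMeasurable w (mN N)
  pin : Pins (-(l / 10)) (9 / 20 * l) a (mN N) w (Vp ρ0 η) (Vm η) (SN P η) (pinN a) dp
  one : M2 (mN N) w K2 (fun _ => 1) 1
  vp : ∀ M h, PBE.TC (-(l / 10)) (9 / 20 * l) a M h →
    AEStronglyMeasurable (Vp ρ0 η h : CfN N → ℂ) (mN N) → M2 (mN N) w K2 (Vp ρ0 η h) M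
  vm : ∀ M h, PBE.TC (-(l / 10)) (9 / 20 * l) a M h →
    AEStronglyMeasurable (Vm η h : CfN N → ℂ) (mN N) → M2 (mN N) w K2 (Vm η h) M
  sm : AEStronglyMeasurable (SN P η : CfN N → ℂ) (mN N)
  s : M2 (mN N) w K2 (SN P η) 1

/-- **the total insertion in terms of the free quanta** -/
theorem rp_bd {K2 dp Mu Mq : ℝ} {u qf : ℂ → ℂ} (hT : TrN Z P x0 κ κ' δ N η η')
    (hR : Rp a M σ X xp xm A B A' al be al')
    (hL : Ln P x0 N D ρ ρ0) (ha0 : 0 ≤ a) (ha : a < 2) (hgl : AdS P x0 δ (sK gl))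
    (hm : Mo a (wT Z P N η η' c) ρ0 P η K2 dp)
    (i1 : Integrable (fun q => F (mN N) (wT Z P N η η' c) fun ω =>
      Vp ρ0 η (A q) ω * Vp ρ0 η (B q) ω) σ)
    (i2 : Integrable (fun q => F (mN N) (wT Z P N η η' c) fun ω =>
      Vm η (A' q) ω * Vm η (B q) ω) σ)
    (hu : Obs (-(l / 10)) (9 / 20 * l) a (mN N) (Vm η) (pinN a) 40
      (VC ρ P η (PBI.beK xp xm (fX X) sX)) u Mu)
    (hq : Obs (-(l / 10)) (9 / 20 * l) a (mN N) (Vp ρ0 η) (pinN a) 40 (VC ρ P η gl) qf Mq) :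
    ‖F0N Z P x0 N c (fun ι _ s z => nuQI ρ (PBOb.aK X) ι s z + nuI ρ gl ι s z) -
      ((∫ q, (F (mN N) (wT Z P N η η' c) fun ω =>
          Vp ρ0 η (A q) ω * Vp ρ0 η (B q) ω) ∂σ) +
        ((∫ q, (F (mN N) (wT Z P N η η' c) fun ω => Vm η (A' q) ω * Vm η (B q) ω) ∂σ) +
          2 * (F (mN N) (wT Z P N η η' c) fun ω => Vm η u ω * SN P η ω) -
          (xp - xm) / 2 * (F (mN N) (wT Z P N η η' c) fun ω => SN P η ω * SN P η ω)) +
        F (mN N) (wT Z P N η η' c) (Vp ρ0 η qf))‖ ≤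
      ((2 * 40 + 40 ^ 2) * ((∫ q, al q * be q ∂σ) + ∫ q, al' q * be q ∂σ) +
        40 * (1 + 40) * ((‖xp - xm‖ + M) * cO a) + 2 * (40 * Mu) + 40 * Mq) * dp := by
  have hl := Bd.l_pos
  have y1 : -(l / 10) < 0 := by linarith
  have y2 : 0 < 9 / 20 * l := by linarith
  have i0' := hT.ins 0 (Nat.zero_le _)
  have hG := i0'.hG
  have hrad := i0'.hP
  have hc : ∀ n ≤ N, MCr (η n) (η' n) := fun n hn => (hT.ins n hn).hc
  have hρ := hL.hρ
  have ch3 := rp_ch3 hT hR hL ha0 ha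
  obtain ⟨j1, j2, tot⟩ := rp_total (c := c) hT hR hL ha0 ha hgl
  have mA1 : ∀ q, Measurable (A q) := fun q => hR.mA.comp (measurable_const.prodMk measurable_id)
  have mA2 : ∀ q, Measurable (A' q) := fun q => hR.mA'.comp (measurable_const.prodMk measurable_id)
  have mB1 : ∀ q, Measurable (B q) := fun q => hR.mB.comp (measurable_const.prodMk measurable_id)
  have key := repI_abs (J := xp - xm) hm.wm hm.pin hm.one hm.vp hm.vm hm.sm hm.s y1 y2 hm.K0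
    (by norm_num : (0 : ℝ) ≤ 40) hR.r1.int
    (fun q => obs_p (P := P) hG hL.hx hrad hc hρ ha0 ha.le ((hR.r1.tA q).nonneg y1 y2)
      (hR.r1.tA q) (mA1 q))
    (fun q => obs_p (P := P) hG hL.hx hrad hc hρ ha0 ha.le ((hR.r1.tB q).nonneg y1 y2)
      (hR.r1.tB q) (mB1 q))
    j1 i1 hR.r2.int
    (fun q => obs_m (P := P) hG hL.hx hrad hc hρ ha0 ha.le ((hR.r2.tA q).nonneg y1 y2)
      (hR.r2.tA q) (mA2 q))
    (fun q => obs_m (P := P) hG hL.hx hrad hc hρ ha0 ha.le ((hR.r2.tB q).nonneg y1 y2)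
      (hR.r2.tB q) (mB1 q))
    j2 i2 ch3.R.ab ch3.R.a0 ch3.R.b0
    (fun q => PBOb.h3O hR.mX hR.fx hG hL.hP (by linarith [hL.hx]) hrad hc hρ.o
      (fun s => funext (hρ.q s)) ha0 ha.le q)
    hu hq
  rw [cO_eq] at key
  rw [tot]
  exact key

end gen

/-! ### the field of a row -/

/-- the data of a row -/
theorem rp_row {a' : ℝ} (ha0 : 0 ≤ a') (ha : a' < 2) : ∃ C : ℝ, 0 < C ∧
    ∀ (m : ℕ) (x : Fin m → ℂ) (i0 : Fin m), Rws0 x →
      (∃ al be : Bool × ℝ → ℝ, Rp a' C wm (fun u => m * xiR x i0 u) (rP x i0) (rM x i0)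
        (Apl x i0) Bch (Ami x i0) al be al ∧ ∫ q, al q * be q ∂wm ≤ C) ∧
      ‖rP x i0 - rM x i0‖ ≤ C ∧ PBE.TC (-(l / 10)) (9 / 20 * l) a' C (uF x i0) := by
  have hl := Bd.l_pos
  obtain ⟨C1, hC1, h1⟩ := PBEI.rep_EF (a := (a' + 2) / 2) ha0 (by linarith) (by linarith)
  obtain ⟨C2, hC2, h2⟩ := fx_xiR
  obtain ⟨C3, hC3, h3⟩ := PBEI.uF_TC
  have hW : 0 < (a' + 2) / 2 - a' := by linarith
  have hW0 : 0 < C1 ^ 2 * (4 / ((a' + 2) / 2 - a')) := by positivity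
  refine ⟨C1 ^ 2 * (4 / ((a' + 2) / 2 - a')) + C2 + C3, by positivity, fun m x i0 hx => ?_⟩
  obtain ⟨hX, hJ, -, -, -⟩ := h2 m x i0 hx
  obtain ⟨r1, r2, r3⟩ := h1 m x i0 hx
  have hX' : PBOb.FX (fun u => m * xiR x i0 u) (rP x i0) (rM x i0)
      (C1 ^ 2 * (4 / ((a' + 2) / 2 - a')) + C2 + C3) := by
    have hle : C2 ≤ C1 ^ 2 * (4 / ((a' + 2) / 2 - a')) + C2 + C3 := by linarith
    refine ⟨hX.dif, fun u hu => (hX.der u hu).trans ?_, fun u hu h => (hX.xp' u hu h).trans ?_,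
      fun u hu h => (hX.xm' u hu h).trans ?_⟩ <;>
    exact mul_le_mul_of_nonneg_right hle (Real.exp_pos _).le
  refine ⟨⟨_, _, ⟨(PBEI.xiR_measurable x i0).const_mul _, hX', r1, r2,
    fun z hz w hw => (PBEI.Apl_eq x i0 hx hz hw).2, fun z hz w hw => (PBEI.Ami_eq x i0 hx hz hw).2,
    PBV.Ec_measurable _ _ (PBEI.rF_measurable x i0) _ _,
    PBV.Ec_measurable _ _ (PBEI.rF_measurable x i0) _ _, PBEI.Apl_measurable x i0,
    PBEI.Bch_measurable, PBEI.Ami_measurable x i0⟩, by rw [r3]; linarith⟩, by linarith,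
    (h3 m x i0 hx a' (by linarith)).mono (by linarith)⟩

/-- **The quadratic part of the first Ward identity, in terms of the free quanta.** -/
theorem repI {a' : ℝ} (ha0 : 0 ≤ a') (ha : a' < 2) : ∃ K : ℝ, 0 < K ∧
    ∀ (m : ℕ) (x : Fin m → ℂ) (i0 : Fin m), Rws0 x → ∀ (Z : Stt) (P : NUO.Par)
      (x0 κ κ' δ : ℝ) (N : ℕ) (η η' : ℕ → Crs) (c : ℕ → ℂ) (D : Kd → Set ℂ) (ρ : Kd → ℝ → ℂ)
      (ρ0 : ℝ → ℂ) (gl : Kd → ℂ → ℂ) (τ Mq K2 dp : ℝ),
      TrN Z P x0 κ κ' δ N η η' → Ln P x0 N D ρ ρ0 →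
      Mo a' (wT Z P N η η' c) ρ0 P η K2 dp →
      AdS P x0 δ (sK fun b z => m * gl b z) →
      Obs (-(l / 10)) (9 / 20 * l) a' (mN N) (Vp ρ0 η) (pinN a') 40
        (VC ρ P η fun b z => m * gl b z) (qF x i0 τ) Mq →
      Integrable (fun q => F (mN N) (wT Z P N η η' c) fun ω =>
        Vp ρ0 η (Apl x i0 q) ω * Vp ρ0 η (Bch q) ω) wm →
      Integrable (fun q => F (mN N) (wT Z P N η η' c) fun ω =>
        Vm η (Ami x i0 q) ω * Vm η (Bch q) ω) wm →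
      ‖(m : ℂ) * F0N Z P x0 N c (fun ι _ s z =>
          nuQI ρ (PBOb.aK (xiR x i0)) ι s z + nuI ρ gl ι s z) -
        ((∫ q, (F (mN N) (wT Z P N η η' c) fun ω =>
            Vp ρ0 η (Apl x i0 q) ω * Vp ρ0 η (Bch q) ω) ∂wm) +
          ((∫ q, (F (mN N) (wT Z P N η η' c) fun ω =>
              Vm η (Ami x i0 q) ω * Vm η (Bch q) ω) ∂wm) +
            2 * (F (mN N) (wT Z P N η η' c) fun ω => Vm η (uF x i0) ω * SN P η ω) -
            (rP x i0 - rM x i0) / 2 *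
              (F (mN N) (wT Z P N η η' c) fun ω => SN P η ω * SN P η ω)) +
          F (mN N) (wT Z P N η η' c) (Vp ρ0 η (qF x i0 τ)))‖ ≤ K * (1 + Mq) * dp := by
  have hl := Bd.l_pos
  have y1 : -(l / 10) < 0 := by linarith
  have y2 : 0 < 9 / 20 * l := by linarith
  obtain ⟨C, hC, h⟩ := rp_row ha0 ha
  have hcO := cO_nonneg a'
  refine ⟨(2 * 40 + 40 ^ 2) * (C + C) + 40 * (1 + 40) * ((C + C) * cO a') + 2 * (40 * (6 * C)) + 40,
    by positivity, fun m x i0 hx Z P x0 κ κ' δ N η η' c D ρ ρ0 gl τ Mq K2 dp hT hL hm hgl hq i1 i2 => ?_⟩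
  obtain ⟨⟨al, be, hR, hab⟩, hJ, hu⟩ := h m x i0 hx
  have hMq : 0 ≤ Mq := hq.tc.nonneg y1 y2
  have hu' := obs_u (η := η) hT hL.hP (by linarith [hL.hx]) hL.hρ hR.mX hR.fx ha0 ha.le (Mu := 6 * C)
    (hu.mono (by linarith)) (by linarith)
  have key := rp_bd (c := c) hT hR hL ha0 ha hgl hm i1 i2 hu' hq
  rw [F0N_scale]
  refine key.trans (mul_le_mul_of_nonneg_right ?_ hm.pin.δ0)
  have h1 : (‖rP x i0 - rM x i0‖ + C) * cO a' ≤ (C + C) * cO a' :=
    mul_le_mul_of_nonneg_right (by linarith) hcO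
  have h2 : 0 ≤ ((2 * 40 + 40 ^ 2) * (C + C) + 40 * (1 + 40) * ((C + C) * cO a') +
      2 * (40 * (6 * C))) * Mq := by positivity
  nlinarith

end PBRep

end
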