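import Pool.Agent.PB.RepQ
import Pool.Agent.PB.ChnO2

/-!
# Plan B: the pair kernel with confluent diagonal: bound, integrability of the pairing data, scaling

* `norm_aK_bdd` : on the domains the kernel of the channels is bounded;
* **`qid_aK`** : the pairing data of a row of integrable densities (object channels free) with it;
* `nuQI_smul` : the paired amplitude is linear in the kernel.
-/

set_option autoImplicit false
set_option linter.unusedSectionVars false
set_option maxHeartbeats 1000000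

noncomputable section

open Complex MeasureTheory Finset
open scoped ENNReal Classical

namespace PBRep

open NUP1 hiding Kd
open NUO NUP1S NUP1S.Ab NUP1S.AbC PBF PBFunc PB
open PBI (Stt Kd F0 F0Ok fl nuI nuQI mnI InD PAll F0_rep nuI_eq)

theorem norm_pK_le {X : ℂ → ℂ} {xp xm : ℂ} {M : ℝ} (h : PBOb.FX X xp xm M) {b c : Kd} {z z' : ℂ}
    (hz : z ∈ PBOb.Str b.2) (hz' : z' ∈ PBOb.Str c.2) :
    ‖PBOb.pK X xp xm b c z z'‖ ≤ 8 * (17 * ‖xp - xm‖ + 6 * M) := by
  have hM := h.M_nonneg
  have hJ := norm_nonneg (xp - xm)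
  have p1 := h.plt (PBOb.pf_mem hz)
  have p2 := h.plt (PBOb.pf_mem hz')
  have ex : ∀ t : ℝ, Real.exp (-4 * |t|) ≤ 1 := fun t =>
    Real.exp_le_one_iff.2 (by have := abs_nonneg t; linarith)
  have bd : ∀ {x s : ℂ} {t : ℝ}, NX.Plt xp xm M 2 x s t → ‖NX.be xp xm x s‖ ≤ M + 2 * ‖xp - xm‖ := by
    intro x s t hp
    refine hp.be_le.trans ?_
    exact mul_le_of_le_one_right (by positivity) (ex t)
  have s1 := p1.s_le
  have s2 := p2.s_le
  have b1 := bd p1
  have b2 := bd p2
  have hq : ‖2 * (PBOb.qb b * PBOb.qb c)‖ ≤ 8 := by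
    obtain ⟨-, q2⟩ := PBOb.abs_sc (PBI.co b)
    obtain ⟨-, q4⟩ := PBOb.abs_sc (PBI.co c)
    unfold PBOb.qb
    rw [norm_mul, norm_mul, norm_real, norm_real, Real.norm_eq_abs, Real.norm_eq_abs,
      Complex.norm_ofNat]
    have := mul_le_mul q2 q4 (abs_nonneg _) (by norm_num)
    linarith
  have hp : ‖NX.plat xp xm (X (PBOb.pf b.2 z)) (X (PBOb.pf c.2 z')) (PBOb.sgU (PBOb.pf b.2 z))
      (PBOb.sgU (PBOb.pf c.2 z'))‖ ≤ 17 * ‖xp - xm‖ + 6 * M := by
    unfold NX.plat
    have e1 : ‖(xp - xm) / 2‖ = ‖xp - xm‖ / 2 := by rw [norm_div, Complex.norm_ofNat]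
    have t1 : ‖NX.be xp xm (X (PBOb.pf b.2 z)) (PBOb.sgU (PBOb.pf b.2 z)) *
        PBOb.sgU (PBOb.pf c.2 z')‖ ≤ (M + 2 * ‖xp - xm‖) * 3 := by
      rw [norm_mul]
      exact mul_le_mul b1 (by linarith) (norm_nonneg _) (by positivity)
    have t2 : ‖NX.be xp xm (X (PBOb.pf c.2 z')) (PBOb.sgU (PBOb.pf c.2 z')) *
        PBOb.sgU (PBOb.pf b.2 z)‖ ≤ (M + 2 * ‖xp - xm‖) * 3 := by
      rw [norm_mul]
      exact mul_le_mul b2 (by linarith) (norm_nonneg _) (by positivity)
    have t3 : ‖(xp - xm) / 2 * (PBOb.sgU (PBOb.pf b.2 z) * PBOb.sgU (PBOb.pf c.2 z'))‖ ≤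
        ‖xp - xm‖ / 2 * (3 * 3) := by
      rw [norm_mul, norm_mul, e1]
      exact mul_le_mul_of_nonneg_left (mul_le_mul (by linarith) (by linarith) (norm_nonneg _)
        (by norm_num)) (by positivity)
    refine (norm_sub_le _ _).trans ?_
    have := (norm_add_le ((xp - xm) / 2 + NX.be xp xm (X (PBOb.pf b.2 z)) (PBOb.sgU (PBOb.pf b.2 z)) *
        PBOb.sgU (PBOb.pf c.2 z')) (NX.be xp xm (X (PBOb.pf c.2 z')) (PBOb.sgU (PBOb.pf c.2 z')) *
        PBOb.sgU (PBOb.pf b.2 z)))
    have := norm_add_le ((xp - xm) / 2) (NX.be xp xm (X (PBOb.pf b.2 z)) (PBOb.sgU (PBOb.pf b.2 z)) *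
        PBOb.sgU (PBOb.pf c.2 z'))
    linarith
  unfold PBOb.pK
  rw [norm_mul]
  exact mul_le_mul hq hp (norm_nonneg _) (by norm_num)

/-- the kernel is bounded -/
theorem norm_aK_bdd {X : ℂ → ℂ} {xp xm : ℂ} {M : ℝ} (h : PBOb.FX X xp xm M) {b c : Kd} {z z' : ℂ}
    (hz : z ∈ PBOb.Str b.2) (hz' : z' ∈ PBOb.Str c.2) :
    ‖PBOb.aK X b c z z'‖ ≤ PBOb.cL * (‖xp - xm‖ + M) + 8 * (17 * ‖xp - xm‖ + 6 * M) := by
  have hM := h.M_nonneg
  have hcL := PBOb.cL_nonneg
  have e : PBOb.aK X b c z z' = PBOb.lK X xp xm b c z z' + PBOb.pK X xp xm b c z z' := by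
    unfold PBOb.lK
    ring
  rw [e]
  refine (norm_add_le _ _).trans (add_le_add ?_ (norm_pK_le h hz hz'))
  refine (PBOb.norm_lK_le h hz hz').trans (mul_le_of_le_one_right (by positivity) ?_)
  refine mul_le_one₀ (Real.exp_le_one_iff.2 ?_) (Real.exp_pos _).le (Real.exp_le_one_iff.2 ?_) <;>
    linarith [abs_nonneg z.im, abs_nonneg z'.im]

theorem meas_aK1 {X : ℂ → ℂ} (mX : Measurable X) (b c : Kd) (x : ℂ) {v : ℝ → ℂ}
    (hv : Measurable v) : Measurable fun u : ℝ => PBOb.aK X b c x (v u) := by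
  have h := PBOb.measurable_aK mX b c
  generalize PBOb.aK X b c = A at h ⊢
  exact h.comp (measurable_const.prodMk hv)

theorem meas_aK2 {X : ℂ → ℂ} (mX : Measurable X) (b c : Kd) {v : ℝ → ℂ}
    (hv : Measurable v) : Measurable fun p : ℝ × ℝ => PBOb.aK X b c (v p.1) (v p.2) := by
  have h := PBOb.measurable_aK mX b c
  generalize PBOb.aK X b c = A at h ⊢
  exact h.comp ((hv.comp measurable_fst).prodMk (hv.comp measurable_snd))

attribute [local irreducible] PBOb.aK

theorem qid_aK {X : ℂ → ℂ} (mX : Measurable X) {xp xm : ℂ} {M : ℝ} (hX : PBOb.FX X xp xm M)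
    {D : Kd → Set ℂ} (hD : ∀ b, D b ⊆ PBOb.DQ b) {ρ : Kd → ℝ → ℂ} (hρ : ∀ b, Integrable (ρ b))
    (hρ0 : ∀ s k u, ρ (s, some k) u = 0) (hl : ∀ s u, vl l u ∈ D (s, none)) :
    NX.QID D (vl l) ρ (PBOb.aK X) := by
  set C := PBOb.cL * (‖xp - xm‖ + M) + 8 * (17 * ‖xp - xm‖ + 6 * M) with hC
  have hv : Measurable fun u : ℝ => vl l u := by
    unfold vl
    fun_prop
  have hin : ∀ (s : Bool) u, vl l u ∈ PBOb.Str (s, (none : Option O3)).2 := fun s u =>
    PBOb.DQ_sub _ (hD _ (hl s u))
  have hM := hX.M_nonneg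
  have hcL := PBOb.cL_nonneg
  have hC0 : 0 ≤ C := by
    have := norm_nonneg (xp - xm)
    positivity
  constructor
  · rintro b ⟨s, k⟩ x hx
    cases k with
    | some k =>
      simp only [hρ0, mul_zero]
      exact integrable_zero _ _ _
    | none =>
      have hm : Measurable fun u : ℝ => PBOb.aK X b (s, none) x (vl l u) :=
        meas_aK1 mX b (s, none) x hv
      exact (hρ (s, none)).bdd_mul (c := C) hm.aestronglyMeasurable
        (Filter.Eventually.of_forall fun u => norm_aK_bdd hX (PBOb.DQ_sub _ (hD b hx)) (hin s u))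
  · rintro ⟨s, k⟩
    cases k with
    | some k =>
      simp only [hρ0, zero_mul]
      exact integrable_zero _ _ _
    | none =>
      have key : ∀ c : Kd, AEStronglyMeasurable
          (fun t : ℝ => ∫ u, PBOb.aK X (s, none) c (vl l t) (vl l u) * ρ c u) volume := by
        intro c
        have hm : Measurable fun p : ℝ × ℝ => PBOb.aK X (s, none) c (vl l p.1) (vl l p.2) :=
          meas_aK2 mX (s, none) c hv
        have h2 : AEStronglyMeasurable (fun p : ℝ × ℝ =>
            PBOb.aK X (s, none) c (vl l p.1) (vl l p.2) * ρ c p.2) (volume.prod volume) :=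
          hm.aestronglyMeasurable.mul (hρ c).1.comp_snd
        exact h2.integral_prod_right'
      have hs : AEStronglyMeasurable (fun t : ℝ => NX.smr (vl l) ρ (PBOb.aK X) (s, none) (vl l t))
          volume := by
        unfold NX.smr
        have := Finset.aestronglyMeasurable_sum (s := (Finset.univ : Finset Kd))
          (f := fun c (t : ℝ) => ∫ u, PBOb.aK X (s, none) c (vl l t) (vl l u) * ρ c u) (μ := volume)
          fun c _ => key c
        refine this.congr (Filter.Eventually.of_forall fun t => ?_)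
        simp only [Finset.sum_apply]
      have hb : ∀ t : ℝ, ‖NX.smr (vl l) ρ (PBOb.aK X) (s, none) (vl l t)‖ ≤
          ∑ c, C * ∫ u, ‖ρ c u‖ := by
        intro t
        unfold NX.smr
        refine (norm_sum_le _ _).trans (Finset.sum_le_sum fun c _ => ?_)
        rw [← integral_const_mul]
        refine norm_integral_le_of_norm_le ((hρ c).norm.const_mul C)
          (Filter.Eventually.of_forall fun u => ?_)
        obtain ⟨s', k'⟩ := c
        cases k' with
        | some k' =>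
          rw [hρ0]
          simp
        | none =>
          rw [norm_mul]
          exact mul_le_mul_of_nonneg_right (norm_aK_bdd hX (hin s t) (hin s' u)) (norm_nonneg _)
      have h3 := (hρ (s, none)).bdd_mul (c := ∑ c, C * ∫ u, ‖ρ c u‖) hs
        (Filter.Eventually.of_forall hb)
      refine h3.congr (Filter.Eventually.of_forall fun t => ?_)
      simp only []
      ring

theorem nuQI_smul (ρ : Kd → ℝ → ℂ) (r : ℂ) (a : Kd → Kd → ℂ → ℂ → ℂ) {ι : Type} [Fintype ι]
    (s : ι → Kd) (z : ι → ℂ) :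
    nuQI ρ (fun b c z w => r * a b c z w) ι s z = r * nuQI ρ a ι s z := by
  have h1 : ∀ b x, NX.smr (vl l) ρ (fun b c z w => r * a b c z w) b x =
      r * NX.smr (vl l) ρ a b x := by
    intro b x
    unfold NX.smr
    rw [Finset.mul_sum]
    refine Finset.sum_congr rfl fun c _ => ?_
    rw [← integral_const_mul]
    refine integral_congr_ae (Filter.Eventually.of_forall fun u => ?_)
    simp only []
    ring
  have h2 : NX.dbl (vl l) ρ (fun b c z w => r * a b c z w) = r * NX.dbl (vl l) ρ a := by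
    unfold NX.dbl
    simp only [h1]
    rw [Finset.mul_sum]
    refine Finset.sum_congr rfl fun c _ => ?_
    rw [← integral_const_mul]
    refine integral_congr_ae (Filter.Eventually.of_forall fun u => ?_)
    simp only []
    ring
  unfold nuQI NX.nuQ
  simp only [h1, h2]
  simp only [← Finset.mul_sum]
  ring

end PBRep

end
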