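import Pool.Agent.PB.NormX
import Pool.Agent.PB.Chan

/-!
# Plan B: quadratic statistics at positions of any type as superpositions (helper15)

`nuQ_PX`: `NX.nuQ e sp ρ a z = (1/2) ∫ nuL (A q) z * nuL (B q) z dσ(q)` if the kernel is
`∫ A q b z * B q c w dσ(q)` at the positions of the constituents and on the line `e` of the
densities.  Only these values of `A`, `B` are used (no condition elsewhere); kinds without `R` have
no density.  Proof: 77's `PB.nuQ_prod` with one more kind for each constituent.
-/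

set_option autoImplicit false
set_option linter.unusedSectionVars false

noncomputable section

open MeasureTheory Finset
open scoped Classical

namespace PBRep

open PB

variable {ι S X T : Type*} [Fintype ι] [Fintype S] [MeasurableSpace T] {σ : Measure T}

/-- product representation at the positions `z` of the constituents and on the line `e` -/
structure PX (σ : Measure T) (R : S → Prop) (e : ℝ → X) (sp : ι → S) (z : ι → X)
    (A B : T → S → X → ℂ) (al be : T → ℝ) (a : S → S → X → X → ℂ) : Prop where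
  a0 : ∀ q, 0 ≤ al q
  b0 : ∀ q, 0 ≤ be q
  mA : ∀ b, R b → Measurable fun p : T × ℝ => A p.1 b (e p.2)
  mB : ∀ b, R b → Measurable fun p : T × ℝ => B p.1 b (e p.2)
  mA' : ∀ i, Measurable fun q => A q (sp i) (z i)
  mB' : ∀ i, Measurable fun q => B q (sp i) (z i)
  bA : ∀ b, R b → ∀ q t, ‖A q b (e t)‖ ≤ al q
  bB : ∀ b, R b → ∀ q t, ‖B q b (e t)‖ ≤ be q
  bA' : ∀ i q, ‖A q (sp i) (z i)‖ ≤ al q
  bB' : ∀ i q, ‖B q (sp i) (z i)‖ ≤ be q
  int : Integrable (fun q => al q * be q) σ
  e11 : ∀ i j, a (sp i) (sp j) (z i) (z j) = ∫ q, A q (sp i) (z i) * B q (sp j) (z j) ∂σ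
  e12 : ∀ i c, R c → ∀ t, a (sp i) c (z i) (e t) = ∫ q, A q (sp i) (z i) * B q c (e t) ∂σ
  e21 : ∀ i c, R c → ∀ t, a c (sp i) (e t) (z i) = ∫ q, A q c (e t) * B q (sp i) (z i) ∂σ
  e22 : ∀ b c, R b → R c → ∀ s t, a b c (e s) (e t) = ∫ q, A q b (e s) * B q c (e t) ∂σ

section

variable {R : S → Prop} {e : ℝ → X} {sp : ι → S} {z : ι → X} {A B : T → S → X → ℂ}
  {al be : T → ℝ} {a : S → S → X → X → ℂ} {ρ : S → ℝ → ℂ}

/-- functions of the extended kinds -/
def gX (R : S → Prop) (e : ℝ → X) (sp : ι → S) (z : ι → X) (g : S → X → ℂ) : S ⊕ ι → ℝ → ℂ :=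
  Sum.elim (fun b t => if R b then g b (e t) else 0) (fun i _ => g (sp i) (z i))

/-- kernel of the extended kinds -/
def aX (R : S → Prop) (e : ℝ → X) (sp : ι → S) (z : ι → X) (a : S → S → X → X → ℂ) :
    S ⊕ ι → S ⊕ ι → ℝ → ℝ → ℂ :=
  Sum.elim (fun b => Sum.elim (fun c s t => if R b ∧ R c then a b c (e s) (e t) else 0)
      (fun j s _ => if R b then a b (sp j) (e s) (z j) else 0))
    (fun i => Sum.elim (fun c _ t => if R c then a (sp i) c (z i) (e t) else 0)
      (fun j _ _ => a (sp i) (sp j) (z i) (z j)))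

/-- densities of the extended kinds -/
def ρX (ι : Type*) (ρ : S → ℝ → ℂ) : S ⊕ ι → ℝ → ℂ := Sum.elim ρ (fun _ _ => 0)

theorem nuL_X (hρ : ∀ b, ¬ R b → ∀ u, ρ b u = 0) (g : S → X → ℂ) :
    NX.nuL e sp ρ g z = PB.nuL (Sum.inr : ι → S ⊕ ι) (ρX ι ρ) (gX R e sp z g) (fun _ => 0) := by
  unfold NX.nuL PB.nuL
  rw [Fintype.sum_sum_type]
  simp only [gX, ρX, Sum.elim_inl, Sum.elim_inr, zero_mul, integral_zero, Finset.sum_const_zero,
    add_zero]
  congr 1
  refine Finset.sum_congr rfl fun b _ => ?_
  refine integral_congr_ae (Filter.Eventually.of_forall fun u => ?_)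
  simp only []
  by_cases hb : R b
  · rw [if_pos hb]
  · rw [if_neg hb, hρ b hb, zero_mul, zero_mul]

theorem nuQ_X (hρ : ∀ b, ¬ R b → ∀ u, ρ b u = 0) :
    NX.nuQ e sp ρ a z = PB.nuQ (Sum.inr : ι → S ⊕ ι) (ρX ι ρ) (aX R e sp z a) (fun _ => 0) := by
  have h1 : ∀ i, NX.smr e ρ a (sp i) (z i) = PB.smr (ρX ι ρ) (aX R e sp z a) (Sum.inr i) 0 := by
    intro i
    unfold NX.smr PB.smr
    rw [Fintype.sum_sum_type]
    simp only [aX, ρX, Sum.elim_inl, Sum.elim_inr, mul_zero, integral_zero, Finset.sum_const_zero,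
      add_zero]
    refine Finset.sum_congr rfl fun c _ => ?_
    refine integral_congr_ae (Filter.Eventually.of_forall fun u => ?_)
    simp only []
    by_cases hc : R c
    · rw [if_pos hc]
    · rw [if_neg hc, hρ c hc, mul_zero, mul_zero]
  have h2 : NX.dbl e ρ a = PB.dbl (ρX ι ρ) (aX R e sp z a) := by
    unfold NX.dbl PB.dbl
    rw [Fintype.sum_sum_type]
    simp only [ρX, Sum.elim_inl, Sum.elim_inr, zero_mul, integral_zero, Finset.sum_const_zero,
      add_zero]
    refine Finset.sum_congr rfl fun b _ => ?_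
    refine integral_congr_ae (Filter.Eventually.of_forall fun s => ?_)
    simp only []
    by_cases hb : R b
    · congr 1
      unfold NX.smr PB.smr
      rw [Fintype.sum_sum_type]
      simp only [aX, Sum.elim_inl, Sum.elim_inr, mul_zero, integral_zero,
        Finset.sum_const_zero, add_zero]
      refine Finset.sum_congr rfl fun c _ => ?_
      refine integral_congr_ae (Filter.Eventually.of_forall fun u => ?_)
      simp only []
      by_cases hc : R c
      · rw [if_pos ⟨hb, hc⟩]
      · rw [if_neg (fun h => hc h.2), hρ c hc, mul_zero, mul_zero]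
    · rw [hρ b hb, zero_mul, zero_mul]
  unfold NX.nuQ PB.nuQ
  rw [h2]
  simp only [h1]
  rfl

theorem PX.rep (h : PX σ R e sp z A B al be a) :
    ProdRep σ (fun q => gX R e sp z (A q)) (fun q => gX R e sp z (B q)) al be (aX R e sp z a) where
  mA := by
    rintro (b | i)
    · by_cases hb : R b
      · simpa only [gX, Sum.elim_inl, if_pos hb] using (h.mA b hb).stronglyMeasurable
      · simpa only [gX, Sum.elim_inl, if_neg hb] using stronglyMeasurable_const
    · have h1 : Measurable fun p : T × ℝ => A p.1 (sp i) (z i) := (h.mA' i).comp measurable_fst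
      simpa only [gX, Sum.elim_inr] using h1.stronglyMeasurable
  mB := by
    rintro (b | i)
    · by_cases hb : R b
      · simpa only [gX, Sum.elim_inl, if_pos hb] using (h.mB b hb).stronglyMeasurable
      · simpa only [gX, Sum.elim_inl, if_neg hb] using stronglyMeasurable_const
    · have h1 : Measurable fun p : T × ℝ => B p.1 (sp i) (z i) := (h.mB' i).comp measurable_fst
      simpa only [gX, Sum.elim_inr] using h1.stronglyMeasurable
  bA := by
    rintro q (b | i) s
    · by_cases hb : R b
      · simpa only [gX, Sum.elim_inl, if_pos hb] using h.bA b hb q s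
      · simpa only [gX, Sum.elim_inl, if_neg hb, norm_zero] using h.a0 q
    · simpa only [gX, Sum.elim_inr] using h.bA' i q
  bB := by
    rintro q (b | i) s
    · by_cases hb : R b
      · simpa only [gX, Sum.elim_inl, if_pos hb] using h.bB b hb q s
      · simpa only [gX, Sum.elim_inl, if_neg hb, norm_zero] using h.b0 q
    · simpa only [gX, Sum.elim_inr] using h.bB' i q
  int := h.int
  eq := by
    rintro (b | i) (c | j) s t
    · by_cases hb : R b
      · by_cases hc : R c
        · simpa only [gX, aX, Sum.elim_inl, if_pos hb, if_pos hc, if_pos (And.intro hb hc)] using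
            h.e22 b c hb hc s t
        · simp only [gX, aX, Sum.elim_inl, if_neg hc, if_neg (fun h : R b ∧ R c => hc h.2),
            mul_zero, integral_zero]
      · simp only [gX, aX, Sum.elim_inl, if_neg hb, if_neg (fun h : R b ∧ R c => hb h.1),
          zero_mul, integral_zero]
    · by_cases hb : R b
      · simpa only [gX, aX, Sum.elim_inl, Sum.elim_inr, if_pos hb] using h.e21 j b hb s
      · simp only [gX, aX, Sum.elim_inl, Sum.elim_inr, if_neg hb, zero_mul, integral_zero]
    · by_cases hc : R c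
      · simpa only [gX, aX, Sum.elim_inl, Sum.elim_inr, if_pos hc] using h.e12 i c hc t
      · simp only [gX, aX, Sum.elim_inl, Sum.elim_inr, if_neg hc, mul_zero, integral_zero]
    · simpa only [gX, aX, Sum.elim_inr] using h.e11 i j

/-- **the quadratic statistic of a product kernel, positions of any type** -/
theorem nuQ_PX [SFinite σ] [Nonempty S] (h : PX σ R e sp z A B al be a)
    (has : ∀ b c s t, a b c s t = a c b t s) (hρ0 : ∀ b, ¬ R b → ∀ u, ρ b u = 0)
    (hρ : ∀ b, Integrable (ρ b)) :
    Integrable (fun q => NX.nuL e sp ρ (A q) z * NX.nuL e sp ρ (B q) z) σ ∧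
    NX.nuQ e sp ρ a z = (1 / 2) * ∫ q, NX.nuL e sp ρ (A q) z * NX.nuL e sp ρ (B q) z ∂σ := by
  have hs : ∀ b c s t, aX R e sp z a b c s t = aX R e sp z a c b t s := by
    rintro (b | i) (c | j) s t
    · simp only [aX, Sum.elim_inl]
      by_cases hb : R b <;> by_cases hc : R c <;> simp [hb, hc, has b c]
    · simp only [aX, Sum.elim_inl, Sum.elim_inr, has b (sp j)]
    · simp only [aX, Sum.elim_inl, Sum.elim_inr, has (sp i) c]
    · simp only [aX, Sum.elim_inr, has (sp i) (sp j)]
  have key := nuQ_prod h.rep hs (ρ := ρX ι ρ) (by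
    rintro (b | i)
    · exact hρ b
    · exact integrable_zero _ _ _) (Sum.inr : ι → S ⊕ ι) (fun _ => 0)
  simp only [← nuL_X (sp := sp) (z := z) (e := e) (R := R) hρ0] at key
  refine ⟨key.1, ?_⟩
  rw [nuQ_X (R := R) hρ0, key.2]

end

end PBRep

end
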