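import Pool.Agent.PB.RowsH

/-!
# Rows `± l / 2`: the normalised numerator (helper39)

* `cnt_odd`, `cnt_even`: the alternating rows of the honeycomb cylinder with `2 k` rows;
* `nrH k`, **`phys_EED_H`** : the numerator of the two-point function at the rows `± l / 2`, divided by the bulk
  factor, is `nrH k * ∑ EED`, every `k ≥ 2`;
* `TH`, `TH_val` : `∫ Pd log |sin(l/2 + it) / sin(3l/2 + it)| = - log √(2 + √2)`;
* **`norm_nrH_odd`**, **`norm_nrH_even`** : `‖nrH k‖` against the mean field: for `k` even the constant is that of the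
  rows `0`, for `k` odd it has the additional factor `√(4 + 2 √2) / 2`.
-/

set_option autoImplicit false
set_option linter.unusedSectionVars false
set_option linter.unusedVariables false

noncomputable section

open Complex MeasureTheory Filter Topology

namespace PBX

open NUP1 NUP1S NUP1.Bd NURow
open NUP1.Leg (thE cc kap Bp EX)
open NUP1.N (PE E11)
open NUP1.Rws (rp rp_even rp_odd rp_add_two_mul prod_rp)
open PBR (REq EED)
open Pool.Agent.NU5 (Bk Wk)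
open PBZ (hxR hyR)
open NUMFH (rw2)

/-! ### the rows -/

theorem hy_rp (k : ℕ) (i : Fin (k - 1)) : hyR k i = (rp (1 + i.val) : ℂ) := NUP1.Rws.ph_eq _

theorem hx_rp (k : ℕ) (i : Fin (k - 1)) : hxR k i = (rp (k + 1 + i.val) : ℂ) := NUP1.Rws.ph_eq _

theorem rp_val (c : ℕ) : (rp c : ℂ) = 0 ∨ (rp c : ℂ) = (l : ℂ) / 2 ∨ (rp c : ℂ) = -((l : ℂ) / 2) := by
  unfold rp
  split_ifs
  · right; left
    push_cast
    rfl
  · right; right
    push_cast
    rfl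

theorem prod_even (c M : ℕ) (f : ℂ → ℂ) : ∏ i : Fin (2 * M), f (rp (c + i.val) : ℂ) =
    f ((l : ℂ) / 2) ^ M * f (-((l : ℂ) / 2)) ^ M := by
  have h := prod_rp c M fun r => f (r : ℂ)
  rw [h]
  push_cast
  rfl

theorem prod_odd {c : ℕ} (hc : c % 2 = 1) (M : ℕ) (f : ℂ → ℂ) :
    ∏ i : Fin (2 * M + 1), f (rp (c + i.val) : ℂ) =
      f ((l : ℂ) / 2) ^ M * f (-((l : ℂ) / 2)) ^ (M + 1) := by
  rw [Fin.prod_univ_castSucc]
  have h := prod_even c M f
  have e : ∀ i : Fin (2 * M), f (rp (c + (Fin.castSucc i).val) : ℂ) = f (rp (c + i.val) : ℂ) := fun i => rfl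
  rw [Finset.prod_congr rfl fun i _ => e i, h]
  have e2 : rp (c + (Fin.last (2 * M)).val) = -(l / 2) := by
    show rp (c + 2 * M) = _
    rw [rp_add_two_mul, rp_odd hc]
  rw [e2]
  push_cast
  rw [pow_succ, mul_assoc]

theorem cnt_hy_odd (M : ℕ) : Cnt (hyR (2 * M + 1)) 0 M M where
  pr f := by
    rw [pow_zero, one_mul]
    refine (Finset.prod_congr rfl fun i _ => ?_).trans (prod_even 1 M f)
    rw [hy_rp]
  val i := by
    rw [hy_rp]
    exact rp_val _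

theorem cnt_hx_odd (M : ℕ) : Cnt (hxR (2 * M + 1)) 0 M M where
  pr f := by
    rw [pow_zero, one_mul]
    refine (Finset.prod_congr rfl fun i _ => ?_).trans (prod_even (2 * M + 1 + 1) M f)
    rw [hx_rp]
  val i := by
    rw [hx_rp]
    exact rp_val _

theorem cnt_hy_even (M : ℕ) : Cnt (hyR (2 * M + 2)) 0 M (M + 1) where
  pr f := by
    rw [pow_zero, one_mul]
    refine (Finset.prod_congr rfl fun i _ => ?_).trans (prod_odd (c := 1) rfl M f)
    rw [hy_rp]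
  val i := by
    rw [hy_rp]
    exact rp_val _

theorem cnt_hx_even (M : ℕ) : Cnt (hxR (2 * M + 2)) 0 M (M + 1) where
  pr f := by
    rw [pow_zero, one_mul]
    refine (Finset.prod_congr rfl fun i _ => ?_).trans
      (prod_odd (c := 2 * M + 2 + 1) (by omega) M f)
    rw [hx_rp]
  val i := by
    rw [hx_rp]
    exact rp_val _

/-- the rows above and below are the same up to the order -/
theorem PE_hyx {k : ℕ} (h2 : 2 ≤ k) : PE (hyR k) (hxR k) := by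
  rcases Nat.even_or_odd' k with ⟨M, rfl | rfl⟩
  · obtain ⟨N, rfl⟩ : ∃ N, M = N + 1 := ⟨M - 1, by omega⟩
    exact (cnt_hy_even N).pe (cnt_hx_even N)
  · exact (cnt_hy_odd M).pe (cnt_hx_odd M)

/-! ### the numerator -/

/-- the normaliser -/
def nrH (k : ℕ) : ℂ := (2 : ℂ) ^ (2 * k * (2 * k - 1)) *
  (Complex.sin l * (Bp (rp 0) (rp k) (hxR k) * Bp (rp k) (rp 0) (hyR k))) / ((NUQ2.bulkh k : ℝ) : ℂ)

/-- **the physical function at the rows `± l / 2`** -/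
theorem phys_EED_H {k : ℕ} (h2 : 2 ≤ k) (hk : 1 ≤ k) {β : ℝ} (hβ : 1 < β) (hβ' : β ≤ 4 / 3)
    {ex ex0 : List ℂ} (hex : ∀ w ∈ ex, |w.re| ≤ l / 2) (hex0 : ∀ w ∈ ex0, |w.re| ≤ l / 2)
    {x : Fin (k - 1) → ℂ} (hx : Rws x) (nx : ∀ i, (x i).re ≠ l / 4) (px : PE x (hyR k)) :
    2 ^ (2 * k * (2 * k - 1)) * (Bk k ^ 2 * Wk k hk) / ((NUQ2.bulkh k : ℝ) : ℂ) =
      nrH k * ∑ n ∈ Finset.range (2 * (k - 1) + 1), EED (RX β x (rp 0) (rp k) ex ex0) n := by
  have O : (RX β x (rp 0) (rp k) ex ex0).Ok := RX_Ok (by linarith) hβ' hx nx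
    (by rw [ofReal_re]; exact NUP1.Rws.rp_abs _) (by rw [ofReal_re]; exact NUP1.Rws.rp_abs _) hex hex0
  have h := PBZ.WH_gas h2 hk (a := 31 / 50) (Or.inl rfl) O hβ rfl rfl (px.trans (PE_hyx h2)) px
    (NUP1.Rws.ph_eq 0).symm (NUP1.Rws.ph_eq k).symm
  rw [h]
  show _ * (sin l * (Bp (rp 0) (rp k) (hxR k) * Bp (rp k) (rp 0) (hyR k)) * _) / _ = _
  unfold nrH EED
  ring

/-! ### the norm, `k` odd -/

theorem hy_rw2 (k : ℕ) : hyR k = rw2 (NUP1.Rws.sg 1) := NUP1.Rws.xL_rw2 1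

theorem hx_rw2 (k : ℕ) : hxR k = rw2 (NUP1.Rws.sg (k + 1)) := NUP1.Rws.xL_rw2 (k + 1)

/-- the sea of the rows `± l / 2` against its field -/
def EMFH : ℝ := ∫ t, NUMFH.Pd t * NUMFH.vd t

theorem sin_l_pos : 0 < Real.sin l := by
  have hl := lpos
  exact Real.sin_pos_of_pos_of_lt_pi hl (by have := Real.pi_pos; unfold l at *; linarith)

theorem sin_l_sq : 4 * Real.sin l ^ 2 = 2 - √2 := by
  have h := Real.cos_two_mul l
  rw [show 2 * l = Real.pi / 4 by unfold l; ring, Real.cos_pi_div_four] at h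
  have h2 := Real.sin_sq_add_cos_sq l
  linarith

theorem norm_sin_l : ‖sin (l : ℂ)‖ = Real.sin l := by
  rw [← ofReal_sin, norm_real, Real.norm_of_nonneg sin_l_pos.le]

theorem norm_nrH (k : ℕ) : ‖nrH k‖ * NUQ2.bulkh k = 2 ^ (2 * k * (2 * k - 1)) * (Real.sin l *
    ‖Bp (rp 0) (rp k) (hxR k) * Bp (rp k) (rp 0) (hyR k)‖) := by
  have hb := NUQ2.bulkh_pos k
  unfold nrH
  rw [norm_div, norm_mul, norm_pow, Complex.norm_ofNat, norm_mul (sin (l : ℂ)), norm_sin_l, Complex.norm_real,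
    Real.norm_eq_abs, abs_of_pos hb, div_mul_cancel₀ _ hb.ne']

/-- **the normaliser, `k` odd** -/
theorem norm_nrH_odd (M : ℕ) : ‖nrH (2 * M + 1)‖ * Real.exp (((2 * M + 1 : ℕ) : ℝ) ^ 2 * EMFH) =
    (Real.sin l)⁻¹ * (√(4 + 2 * √2) / 2) := by
  have hb := NUQ2.bulkh_pos (2 * M + 1)
  have h := NUQ2.Bp_match (M := M) (m := 2 * M) (m' := 2 * M) (NUP1.Rws.sg (2 * M + 1 + 1))
    (NUP1.Rws.sg 1) (NUP1.Rws.card_sg _ M).1 (NUP1.Rws.card_sg _ M).2 (NUP1.Rws.card_sg _ M).1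
    (NUP1.Rws.card_sg _ M).2 (r := l / 2) (o := -(l / 2)) (r' := -(l / 2)) (o' := l / 2)
    (Or.inl ⟨rfl, rfl⟩) (Or.inr ⟨rfl, rfl⟩)
  have h1 := norm_nrH (2 * M + 1)
  rw [hx_rw2, hy_rw2, rp_even (c := 0) rfl, rp_odd (c := 2 * M + 1) (by omega)] at h1
  have hs := sin_l_pos
  have hsq := sin_l_sq
  have h2 : (0 : ℝ) < 2 - √2 := by
    rw [← hsq]
    positivity
  refine mul_left_cancel₀ hb.ne' ?_
  have e1 : NUQ2.bulkh (2 * M + 1) * (‖nrH (2 * M + 1)‖ * Real.exp (((2 * M + 1 : ℕ) : ℝ) ^ 2 * EMFH)) =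
      Real.sin l * (2 ^ (2 * (2 * M + 1) * (2 * (2 * M + 1) - 1)) *
        ‖Bp ((l / 2 : ℝ) : ℂ) ((-(l / 2) : ℝ) : ℂ) (rw2 (NUP1.Rws.sg (2 * M + 1 + 1)) : Fin (2 * M) → ℂ) *
          Bp ((-(l / 2) : ℝ) : ℂ) ((l / 2 : ℝ) : ℂ) (rw2 (NUP1.Rws.sg 1) : Fin (2 * M) → ℂ)‖ *
        Real.exp ((2 * (M : ℝ) + 1) ^ 2 * EMFH)) := by
    have e2 : ((2 * M + 1 : ℕ) : ℝ) = 2 * (M : ℝ) + 1 := by push_cast; ring
    rw [e2]
    calc _ = (‖nrH (2 * M + 1)‖ * NUQ2.bulkh (2 * M + 1)) * Real.exp ((2 * (M : ℝ) + 1) ^ 2 * EMFH) := by ring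
      _ = _ := by
        rw [h1]
        show 2 ^ (2 * (2 * M + 1) * (2 * (2 * M + 1) - 1)) * (Real.sin l *
          ‖Bp ((l / 2 : ℝ) : ℂ) ((-(l / 2) : ℝ) : ℂ) (rw2 (NUP1.Rws.sg (2 * M + 1 + 1)) : Fin (2 * M) → ℂ) *
          Bp ((-(l / 2) : ℝ) : ℂ) ((l / 2 : ℝ) : ℂ) (rw2 (NUP1.Rws.sg 1) : Fin (2 * M) → ℂ)‖) * _ = _
        ring
  rw [e1]
  unfold EMFH
  rw [h]
  rw [show (2 - √2) = 4 * Real.sin l ^ 2 from hsq.symm]
  field_simp
  ring

/-! ### the norm, any numbers of rows -/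

open NUP1.Grand (P)
open NUP1.Mu (Apre E et)
open NUP1.Leg (FF)

/-- **the prefactor of one group**, `A` rows at `l / 2`, `B` rows at `- l / 2`, any ends -/
theorem norm_Bp_gen {m A B : ℕ} (s : Fin m → Bool)
    (hA : (Finset.univ.filter fun i => s i = true).card = A)
    (hB : (Finset.univ.filter fun i => s i = false).card = B) (r o : ℂ) :
    4 ^ m * 16 ^ (m * (m - 1)) * ‖Bp r o (rw2 s)‖ ^ 2 =
      (2 - √2) ^ (A + B) * (4 + 2 * √2) ^ (A * (A - 1) + B * (B - 1)) * 4 ^ (2 * (A * B)) *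
        (‖EX r o ((l / 2 : ℝ) : ℂ)‖ ^ A * ‖EX r o ((-(l / 2) : ℝ) : ℂ)‖ ^ B) ^ 2 := by
  set σ : ℂ := 2 * Complex.sin NUP1.l with hσd
  have hσ : σ ^ 2 = 4 * Complex.sin NUP1.l ^ 2 := by rw [hσd]; ring
  have h1 := NUMFH.norm_Apre_AB hσ s hA hB
  have hs := NUMFC.norm_sigma hσ
  have hF : ‖P (fun i j => NUGas.F et .pos .pos (E (rw2 s i)) (E (rw2 s j))) *
      P (fun i j => NUGas.F et .pos .pos (E (rw2 s i)) (E (rw2 s j)))‖ =
      16 ^ (m * (m - 1)) * ‖(P fun i j => FF (rw2 s i - rw2 s j)) *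
        P fun i j => FF (rw2 s i - rw2 s j)‖ := by
    have e : ∀ i j : Fin m, ‖NUGas.F et .pos .pos (E (rw2 s i)) (E (rw2 s j))‖ =
        16 * ‖FF (rw2 s i - rw2 s j)‖ := by
      intro i j
      unfold rw2
      rw [NUMFH.norm_F, NUQ2.norm_FF]
    have e' : ∀ i j : Fin m, ‖FF (rw2 s i - rw2 s j)‖ = ‖FF (rw2 s j - rw2 s i)‖ := by
      intro i j
      have e1 := NUQ2.norm_FF (if s i then NUP1.l / 2 else -(NUP1.l / 2)) (if s j then NUP1.l / 2 else -(NUP1.l / 2))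
      have e2 := NUQ2.norm_FF (if s j then NUP1.l / 2 else -(NUP1.l / 2)) (if s i then NUP1.l / 2 else -(NUP1.l / 2))
      rw [← NUMFH.nF_neg, neg_sub] at e2
      unfold rw2
      linarith
    rw [NUMFH.norm_P_sq _ (fun a b => by rw [e, e, e']), NUMFH.norm_P_sq _ e']
    simp only [e]
    exact NUQ2.prod_off 16 _
  have hAp : ‖Apre σ (rw2 s) * Apre σ (rw2 s)‖ = (2 - √2) ^ m *
      (16 ^ (m * (m - 1)) * ‖(P fun i j => FF (rw2 s i - rw2 s j)) *
        P fun i j => FF (rw2 s i - rw2 s j)‖) := by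
    rw [← hF, ← hs]
    unfold Apre
    simp only [norm_mul, norm_prod]
    have hE : ∀ i, ‖E (rw2 s i)‖ = 1 := fun i => NUMFH.norm_E _
    simp only [hE, mul_one, Finset.prod_const, Finset.card_univ, Fintype.card_fin]
    ring
  have hX : (∏ i, ‖EX r o (rw2 s i)‖) =
      ‖EX r o ((l / 2 : ℝ) : ℂ)‖ ^ A * ‖EX r o ((-(l / 2) : ℝ) : ℂ)‖ ^ B := by
    have e : ∀ i, ‖EX r o (rw2 s i)‖ = if s i = true then ‖EX r o ((NUP1.l / 2 : ℝ) : ℂ)‖ else
        ‖EX r o ((-(NUP1.l / 2) : ℝ) : ℂ)‖ := by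
      intro i
      unfold rw2
      cases s i <;> simp
    simp only [e]
    rw [Finset.prod_ite, Finset.prod_const, Finset.prod_const, hA]
    have h2 : (Finset.univ.filter fun i : Fin m => ¬ s i = true) =
        Finset.univ.filter fun i : Fin m => s i = false := by
      ext i; simp
    rw [h2, hB]
  have hBp : ‖Bp r o (rw2 s)‖ ^ 2 = (‖Complex.sin (NUP1.l : ℂ)‖ ^ 2) ^ m *
      (∏ i, ‖EX r o (rw2 s i)‖) ^ 2 * ‖(P fun i j => FF (rw2 s i - rw2 s j)) *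
        P fun i j => FF (rw2 s i - rw2 s j)‖ := by
    unfold NUP1.Leg.Bp
    rw [norm_mul, norm_prod]
    simp only [norm_mul]
    rw [Finset.prod_mul_distrib, Finset.prod_const, Finset.card_univ, Fintype.card_fin]
    ring
  have hs1 : 4 * ‖Complex.sin (NUP1.l : ℂ)‖ ^ 2 = 2 - √2 := by
    rw [← hs, hσd, norm_mul]
    simp only [Complex.norm_ofNat]
    ring
  rw [hBp, ← h1, hAp, ← hs1, ← hX]
  rw [mul_pow (4 : ℝ)]
  ring

/-- `16 ‖EX‖` for both ends at `l / 2` -/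
theorem norm_EX_same : 16 * ‖EX ((l / 2 : ℝ) : ℂ) ((l / 2 : ℝ) : ℂ) ((l / 2 : ℝ) : ℂ)‖ = 4 + 2 * √2 ∧
    16 * ‖EX ((l / 2 : ℝ) : ℂ) ((l / 2 : ℝ) : ℂ) ((-(l / 2) : ℝ) : ℂ)‖ = 2 * (4 + 2 * √2) := by
  have e : ∀ z : ℝ, ‖EX ((l / 2 : ℝ) : ℂ) ((l / 2 : ℝ) : ℂ) (z : ℂ)‖ =
      (|Real.sin (l / 2 - z + 2 * l)| * |Real.sin (l / 2 - z + 3 * l)|) ^ 2 := by
    intro z
    unfold NUP1.Leg.EX
    simp only [norm_mul]
    rw [← NUQ2.norm_sin_real, ← NUQ2.norm_sin_real]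
    push_cast
    ring
  obtain ⟨h2, h4, h6⟩ := NUMFH.sin_l_vals
  have h5 : Real.sin (5 * NUP1.l) = Real.sin (3 * NUP1.l) := by
    rw [show 5 * NUP1.l = Real.pi - 3 * NUP1.l by unfold NUP1.l; ring, Real.sin_pi_sub]
  have n0 := NUMFH.norm_F_zero
  unfold NUMFH.nF at n0
  rw [zero_add, zero_add, zero_add, zero_add, h5, h2, h6] at n0
  have hs : √2 ^ 2 = 2 := Real.sq_sqrt (by norm_num)
  have ha : |√2 / 2| ^ 2 = 1 / 2 := by
    rw [sq_abs, div_pow, hs]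
    norm_num
  constructor
  · rw [e, show l / 2 - l / 2 + 2 * l = 2 * l by ring, show l / 2 - l / 2 + 3 * l = 3 * l by ring, h2, ← n0]
    ring
  · rw [e, show l / 2 - -(l / 2) + 2 * l = 3 * l by ring, show l / 2 - -(l / 2) + 3 * l = 4 * l by ring, h4,
      ← n0, abs_one]
    linear_combination (-(32 : ℝ)) * |Real.sin (3 * l)| ^ 2 * ha

/-! ### the ends at `l / 2` against the sea -/

theorem numf_l : NUMF.l = l := rfl

/-- logarithm of the modulus of `th0` at the distance `l / 2`: `log |sin (l/2 + it) / sin (3l/2 - it)|` -/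
def thH (t : ℝ) : ℝ := (NUMF.h t (7 / 2 * l) - NUMF.h t (5 / 2 * l)) / 2

/-- the ends against the sea of the rows `± l / 2` -/
def TH : ℝ := ∫ t, NUMFH.Pd t * thH t

theorem TH_val : TH = -(Real.log 2 + Real.log (1 + NUMF.r)) / 2 := by
  have hl := Bd.l_pos
  have hb0 := NUMFH.half_nonneg
  have hb1 := NUMFH.half_lt
  have i1 := NUMFH.Pbh_integrable hb0 hb1 0 (7 / 2 * l)
  have i2 := NUMFH.Pbh_integrable hb0 hb1 0 (5 / 2 * l)
  have e1 := NUMFH.Hb_eq hb0 hb1 0 (y := 7 / 2 * l) (by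
    rw [abs_of_pos (by linarith), numf_l]
    linarith)
  have e2 := NUMFH.Hb_eq hb0 hb1 0 (y := 5 / 2 * l) (by
    rw [abs_of_pos (by linarith), numf_l]
    linarith)
  have hf : (fun t => NUMFH.Pd t * thH t) = fun s =>
      1 / 2 * (NUMFH.Pb (NUMF.l / 2) s * NUMF.h (0 - s) (7 / 2 * l)) -
      1 / 2 * (NUMFH.Pb (NUMF.l / 2) s * NUMF.h (0 - s) (5 / 2 * l)) := by
    funext s
    unfold thH
    rw [NUMFH.Pb_half, zero_sub, NUMF.h_neg_left, NUMF.h_neg_left]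
    ring
  unfold TH
  rw [hf]
  have s1 := integral_sub (i1.const_mul (1 / 2)) (i2.const_mul (1 / 2))
  rw [s1, integral_const_mul, integral_const_mul]
  unfold NUMFH.Hb at e1 e2
  rw [e1, e2, numf_l, show 7 / 2 * l + l / 2 = 4 * l by ring, show 7 / 2 * l - l / 2 = 3 * l by ring,
    show 5 / 2 * l + l / 2 = 3 * l by ring, show 5 / 2 * l - l / 2 = 2 * l by ring]
  have hf4 := NUMFH.H_four 0
  obtain ⟨b0, b1, b2, b3⟩ := NUMF.H_zero
  obtain ⟨q1, q2, q3, q4⟩ := NUMFH.logs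
  rw [b1, NUMF.h2, NUMF.h3, mul_zero, Real.cosh_zero, Real.log_one, q1, q2] at hf4
  rw [numf_l] at hf4 b2
  rw [hf4, b2, q3]
  ring

/-- `thH` is the logarithm of the modulus of the phase factor of an end at the distance `l / 2` -/
theorem thH_eq (t : ℝ) : thH t = Real.log (Th0 (((l / 2 : ℝ) : ℂ) + t * I)) := by
  have hl := Bd.l_pos
  have hpi : 8 * l = Real.pi := by
    unfold l
    ring
  have key : ∀ a : ℝ, 0 < a → a < 4 * l → ‖Complex.sin (((4 * l - a : ℝ) : ℂ) + t * I)‖ ^ 2 =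
      (Real.cosh (2 * t) + Real.cos (2 * a)) / 2 := by
    intro a _ _
    have e : Complex.sin (((4 * l - a : ℝ) : ℂ) + t * I) = Complex.cosh ((t : ℂ) + a * I) := by
      rw [← Complex.cos_mul_I, ← Complex.cos_neg]
      have h1 : -(((t : ℂ) + a * I) * I) = (Real.pi : ℂ) / 2 - (((4 * l - a : ℝ) : ℂ) + t * I) := by
        rw [← hpi]
        push_cast
        linear_combination (-(a : ℂ)) * Complex.I_sq
      rw [h1, Complex.cos_pi_div_two_sub]
    rw [e]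
    exact NUMF.norm_cosh_sq' t a
  have pos : ∀ a : ℝ, 0 < a → a < 4 * l → 0 < Real.cosh (2 * t) + Real.cos (2 * a) := by
    intro a h0 h1
    have h2 := Real.one_le_cosh (2 * t)
    have h3 : -1 < Real.cos (2 * a) := by
      have h4 : 0 < Real.cos a := Real.cos_pos_of_mem_Ioo ⟨by linarith [Real.pi_pos], by linarith⟩
      rw [Real.cos_two_mul]
      have : 0 < Real.cos a ^ 2 := by positivity
      linarith
    linarith
  have k1 := key (7 / 2 * l) (by linarith) (by linarith)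
  have k2 := key (5 / 2 * l) (by linarith) (by linarith)
  have p1 := pos (7 / 2 * l) (by linarith) (by linarith)
  have p2 := pos (5 / 2 * l) (by linarith) (by linarith)
  rw [show 4 * l - 7 / 2 * l = l / 2 by ring] at k1
  rw [show 4 * l - 5 / 2 * l = 3 / 2 * l by ring] at k2
  have e2 : ‖Complex.sin (((l / 2 : ℝ) : ℂ) + t * I - 2 * l)‖ =
      ‖Complex.sin (((3 / 2 * l : ℝ) : ℂ) + t * I)‖ := by
    have e3 : ((l / 2 : ℝ) : ℂ) + t * I - 2 * l = -(starRingEnd ℂ (((3 / 2 * l : ℝ) : ℂ) + t * I)) := by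
      rw [map_add, map_mul, Complex.conj_ofReal, Complex.conj_ofReal, Complex.conj_I]
      push_cast
      ring
    rw [e3, Complex.sin_neg, norm_neg, Complex.sin_conj, Complex.norm_conj]
  have n1 : 0 < ‖Complex.sin (((l / 2 : ℝ) : ℂ) + t * I)‖ ^ 2 := by
    rw [k1]
    linarith
  have n2 : 0 < ‖Complex.sin (((3 / 2 * l : ℝ) : ℂ) + t * I)‖ ^ 2 := by
    rw [k2]
    linarith
  have m1 : ‖Complex.sin (((l / 2 : ℝ) : ℂ) + t * I)‖ ≠ 0 := fun h0 => by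
    rw [h0] at n1
    norm_num at n1
  have m2 : ‖Complex.sin (((3 / 2 * l : ℝ) : ℂ) + t * I)‖ ≠ 0 := fun h0 => by
    rw [h0] at n2
    norm_num at n2
  unfold Th0
  rw [e2, Real.log_div m1 m2]
  have q1 := congrArg Real.log k1
  have q2 := congrArg Real.log k2
  rw [Real.log_pow, Real.log_div p1.ne' (by norm_num)] at q1
  rw [Real.log_pow, Real.log_div p2.ne' (by norm_num)] at q2
  have hc2 : ((2 : ℕ) : ℝ) = 2 := by norm_num
  rw [hc2] at q1 q2
  unfold thH NUMF.h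
  linarith

/-! ### the norm, `k` even -/

theorem card_sg_odd {c : ℕ} (hc : c % 2 = 1) (M : ℕ) :
    (Finset.univ.filter fun i : Fin (2 * M + 1) => NUP1.Rws.sg c i = true).card = M ∧
    (Finset.univ.filter fun i : Fin (2 * M + 1) => NUP1.Rws.sg c i = false).card = M + 1 := by
  have h1 : (Finset.univ.filter fun i : Fin (2 * M + 1) => NUP1.Rws.sg c i = true).card = M := by
    have h2 := (NUP1.Rws.card_sg c M).1
    rw [Finset.card_filter] at h2 ⊢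
    rw [Fin.sum_univ_castSucc]
    have e1 : (if NUP1.Rws.sg c (Fin.last (2 * M)) = true then 1 else 0) = 0 := by
      refine if_neg ?_
      unfold NUP1.Rws.sg
      rw [decide_eq_true_eq]
      show ¬ (c + 2 * M) % 2 = 0
      omega
    rw [e1, add_zero]
    exact h2
  refine ⟨h1, ?_⟩
  have h2 := Finset.card_filter_add_card_filter_not (s := (Finset.univ : Finset (Fin (2 * M + 1))))
    (fun i => NUP1.Rws.sg c i = true)
  simp only [Bool.not_eq_true, Finset.card_univ, Fintype.card_fin] at h2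
  omega

/-- the square of the prefactor of one group, `k = 2 M + 2` -/
theorem norm_Bp_even {c : ℕ} (hc : c % 2 = 1) (M : ℕ) :
    2 ^ (2 * (2 * M + 2) * (2 * (2 * M + 2) - 1)) *
      ‖Bp ((l / 2 : ℝ) : ℂ) ((l / 2 : ℝ) : ℂ) (rw2 (NUP1.Rws.sg c) : Fin (2 * M + 1) → ℂ)‖ ^ 2 =
    4 * ((2 - √2) ^ (2 * M + 1) * (4 + 2 * √2) ^ (2 * M ^ 2) * 4 ^ (2 * (M * (M + 1))) *
      ((4 + 2 * √2) ^ M * (2 * (4 + 2 * √2)) ^ (M + 1)) ^ 2) := by
  have h := norm_Bp_gen (NUP1.Rws.sg c) (card_sg_odd hc M).1 (card_sg_odd hc M).2 ((l / 2 : ℝ) : ℂ)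
    ((l / 2 : ℝ) : ℂ)
  obtain ⟨x1, x2⟩ := norm_EX_same
  have e1 : 2 * (2 * M + 2) * (2 * (2 * M + 2) - 1) =
      2 * (2 * M + 1) + 4 * ((2 * M + 1) * (2 * M + 1 - 1)) + 8 * (2 * M + 1) + 2 := by
    have a1 : 2 * (2 * M + 2) - 1 = 4 * M + 3 := by omega
    have a2 : 2 * M + 1 - 1 = 2 * M := by omega
    rw [a1, a2]
    ring
  have e2 : (2 : ℝ) ^ (2 * (2 * M + 2) * (2 * (2 * M + 2) - 1)) =
      4 ^ (2 * M + 1) * 16 ^ ((2 * M + 1) * (2 * M + 1 - 1)) * 16 ^ (2 * (2 * M + 1)) * 4 := by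
    rw [e1, show (4 : ℝ) = 2 ^ 2 by norm_num, show (16 : ℝ) = 2 ^ 4 by norm_num, ← pow_mul, ← pow_mul,
      ← pow_mul, ← pow_add, ← pow_add, ← pow_add]
    refine congrArg (fun n : ℕ => (2 : ℝ) ^ n) ?_
    ring
  have e3 : M * (M - 1) + (M + 1) * (M + 1 - 1) = 2 * M ^ 2 := by
    rcases M with _ | M
    · rfl
    · simp only [Nat.add_sub_cancel]
      ring
  have e4 : M + (M + 1) = 2 * M + 1 := by ring
  rw [e3, e4] at h
  rw [e2]
  set X1 := ‖EX ((l / 2 : ℝ) : ℂ) ((l / 2 : ℝ) : ℂ) ((l / 2 : ℝ) : ℂ)‖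
  set X2 := ‖EX ((l / 2 : ℝ) : ℂ) ((l / 2 : ℝ) : ℂ) ((-(l / 2) : ℝ) : ℂ)‖
  have e5 : ((4 + 2 * √2) ^ M * (2 * (4 + 2 * √2)) ^ (M + 1)) ^ 2 =
      16 ^ (2 * (2 * M + 1)) * (X1 ^ M * X2 ^ (M + 1)) ^ 2 := by
    rw [← x2, ← x1, mul_pow, mul_pow, ← e4]
    ring
  rw [e5]
  linear_combination (16 ^ (2 * (2 * M + 1)) * 4) * h

/-- **the normaliser, `k = 2 M + 2`**: the constant is `1 / sin l` exactly -/
theorem norm_nrH_even (M : ℕ) : ‖nrH (2 * M + 2)‖ *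
    Real.exp (((2 * M + 2 : ℕ) : ℝ) ^ 2 * EMFH + 2 * ((2 * M + 2 : ℕ) : ℝ) * TH) = (Real.sin l)⁻¹ := by
  have h2 : √2 ^ 2 = 2 := Real.sq_sqrt (by norm_num)
  have h20 : 0 ≤ √2 := Real.sqrt_nonneg 2
  have hlt : √2 < 2 := by nlinarith
  have p1 : 0 < 2 - √2 := by linarith
  have p2 : 0 < 4 + 2 * √2 := by linarith
  have p3 : 0 < 1 + √2 / 2 := by positivity
  have hq0 := NUQ2.q0_pos
  have hq1 := NUQ2.q1_pos
  have hb := NUQ2.bulkh_pos (2 * M + 2)
  have hs := sin_l_pos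
  have hsq := sin_l_sq
  have hI : EMFH = 5 * Real.log 2 - 3 * Real.log 3 + 5 / 2 * Real.log (1 + √2 / 2) := by
    unfold EMFH
    rw [NUMFH.int_vdPd.2]
    rfl
  have hT : TH = -(Real.log 2 + Real.log (1 + √2 / 2)) / 2 := TH_val
  -- the prefactor
  have h1 := norm_nrH (2 * M + 2)
  rw [hx_rw2, hy_rw2, rp_even (c := 0) rfl, rp_even (c := 2 * M + 2) (by omega)] at h1
  have n1 := norm_Bp_even (c := 2 * M + 2 + 1) (by omega) M
  have n2 := norm_Bp_even (c := 1) rfl M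
  set R := 4 * ((2 - √2) ^ (2 * M + 1) * (4 + 2 * √2) ^ (2 * M ^ 2) * 4 ^ (2 * (M * (M + 1))) *
      ((4 + 2 * √2) ^ M * (2 * (4 + 2 * √2)) ^ (M + 1)) ^ 2) with hR
  have hRp : 0 < R := by
    rw [hR]
    positivity
  set Bx := ‖Bp ((l / 2 : ℝ) : ℂ) ((l / 2 : ℝ) : ℂ) (rw2 (NUP1.Rws.sg (2 * M + 2 + 1)) : Fin (2 * M + 1) → ℂ)‖
    with hBx
  set By := ‖Bp ((l / 2 : ℝ) : ℂ) ((l / 2 : ℝ) : ℂ) (rw2 (NUP1.Rws.sg 1) : Fin (2 * M + 1) → ℂ)‖ with hBy
  have hxy : Bx = By := by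
    have h3 : (2 : ℝ) ^ (2 * (2 * M + 2) * (2 * (2 * M + 2) - 1)) ≠ 0 := by positivity
    have h4 := mul_left_cancel₀ h3 (n1.trans n2.symm)
    exact (sq_eq_sq₀ (norm_nonneg _) (norm_nonneg _)).1 h4
  have e1 : ‖nrH (2 * M + 2)‖ * NUQ2.bulkh (2 * M + 2) = Real.sin l * R := by
    rw [h1]
    show (2 : ℝ) ^ (2 * (2 * M + 2) * (2 * (2 * M + 2) - 1)) * (Real.sin l *
      ‖Bp ((l / 2 : ℝ) : ℂ) ((l / 2 : ℝ) : ℂ) (rw2 (NUP1.Rws.sg (2 * M + 2 + 1)) : Fin (2 * M + 1) → ℂ) *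
      Bp ((l / 2 : ℝ) : ℂ) ((l / 2 : ℝ) : ℂ) (rw2 (NUP1.Rws.sg 1) : Fin (2 * M + 1) → ℂ)‖) = _
    rw [norm_mul, ← hBx, ← hBy, ← n2, hxy]
    ring
  have hn : 0 < ‖nrH (2 * M + 2)‖ := by
    have h3 : 0 < ‖nrH (2 * M + 2)‖ * NUQ2.bulkh (2 * M + 2) := by
      rw [e1]
      positivity
    exact (mul_pos_iff_of_pos_right hb).1 h3
  -- logarithms
  have l1 : Real.log (2 - √2) = - Real.log (1 + √2 / 2) := by
    rw [← Real.log_inv]
    congr 1
    field_simp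
    nlinarith
  have l2 : Real.log (4 + 2 * √2) = 2 * Real.log 2 + Real.log (1 + √2 / 2) := by
    rw [show 4 + 2 * √2 = 2 ^ 2 * (1 + √2 / 2) by ring, Real.log_mul (by norm_num) p3.ne', Real.log_pow]
    norm_num
  have l3 : Real.log NUQ2.q0 = 2 * Real.log 2 - Real.log 3 + Real.log (1 + √2 / 2) := by
    rw [NUQ2.q0, show (4 / 3 : ℝ) * (1 + √2 / 2) = 2 ^ 2 / 3 * (1 + √2 / 2) by ring,
      Real.log_mul (by norm_num) p3.ne', Real.log_div (by norm_num) (by norm_num), Real.log_pow]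
    norm_num
  have l4 : 2 * Real.log NUQ2.q1 = 3 * Real.log 2 - Real.log 3 + Real.log (1 + √2 / 2) := by
    have h := congrArg Real.log NUQ2.q1_sq
    rw [Real.log_pow, show (8 / 3 : ℝ) * (1 + √2 / 2) = 2 ^ 3 / 3 * (1 + √2 / 2) by ring,
      Real.log_mul (by norm_num) p3.ne', Real.log_div (by norm_num) (by norm_num), Real.log_pow] at h
    push_cast at h
    linarith
  have l4' : Real.log NUQ2.q1 = (3 * Real.log 2 - Real.log 3 + Real.log (1 + √2 / 2)) / 2 := by linarith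
  have l5 : Real.log (4 : ℝ) = 2 * Real.log 2 := by
    rw [show (4 : ℝ) = 2 ^ 2 by norm_num, Real.log_pow]
    norm_num
  have l6 : Real.log (2 / 3 : ℝ) = Real.log 2 - Real.log 3 := Real.log_div (by norm_num) (by norm_num)
  have l7 : 2 * Real.log (Real.sin l) = -Real.log (1 + √2 / 2) - 2 * Real.log 2 := by
    have h := congrArg Real.log hsq
    rw [l1, Real.log_mul (by norm_num) (by positivity), Real.log_pow, l5] at h
    push_cast at h
    linarith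
  have lR : Real.log R = 2 * Real.log 2 + ((2 * (M : ℝ) + 1) * -Real.log (1 + √2 / 2) +
      2 * (M : ℝ) ^ 2 * (2 * Real.log 2 + Real.log (1 + √2 / 2)) +
      2 * ((M : ℝ) * ((M : ℝ) + 1)) * (2 * Real.log 2) +
      2 * ((M : ℝ) * (2 * Real.log 2 + Real.log (1 + √2 / 2)) +
        ((M : ℝ) + 1) * (Real.log 2 + (2 * Real.log 2 + Real.log (1 + √2 / 2))))) := by
    rw [hR, Real.log_mul (by norm_num) (by positivity), Real.log_mul (by positivity) (by positivity),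
      Real.log_mul (by positivity) (by positivity), Real.log_mul (by positivity) (by positivity),
      Real.log_pow, Real.log_pow, Real.log_pow, Real.log_pow,
      Real.log_mul (by positivity) (by positivity), Real.log_pow, Real.log_pow,
      Real.log_mul (by norm_num) (by positivity), l1, l2, l5]
    push_cast
    ring
  have lb : Real.log (NUQ2.bulkh (2 * M + 2)) = 2 * (2 * (M : ℝ) + 2) * (Real.log 2 - Real.log 3) +
      (2 * (2 * (M : ℝ) + 2) * (2 * (M : ℝ) + 1) * (2 * Real.log 2 - Real.log 3 + Real.log (1 + √2 / 2)) +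
       2 * (2 * (M : ℝ) + 2) ^ 2 * ((3 * Real.log 2 - Real.log 3 + Real.log (1 + √2 / 2)) / 2)) := by
    rw [NUQ2.bulkh_eq, Real.log_mul (by positivity) (by positivity), Real.log_mul (by positivity) (by positivity),
      Real.log_pow, Real.log_pow, Real.log_pow, l3, l4', l6, show 2 * M + 2 - 1 = 2 * M + 1 by omega]
    push_cast
    ring
  have ln : Real.log ‖nrH (2 * M + 2)‖ + Real.log (NUQ2.bulkh (2 * M + 2)) =
      Real.log (Real.sin l) + Real.log R := by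
    rw [← Real.log_mul hn.ne' hb.ne', e1, Real.log_mul hs.ne' hRp.ne']
  refine Real.log_injOn_pos (Set.mem_Ioi.2 (by positivity)) (Set.mem_Ioi.2 (by positivity)) ?_
  rw [Real.log_mul hn.ne' (Real.exp_pos _).ne', Real.log_exp, Real.log_inv, hI, hT]
  push_cast
  rw [lR, lb] at ln
  linear_combination ln + l7

end PBX

end
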