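import Pool.Agent.PB.SB5

/-!
# The variational bounds of the ratio of Gram determinants (sharp normaliser)

* `schur` : the minimising vector and the ratio of determinants;
* **`var`** : the structure `Var` of `PB/SB5`.
-/

set_option autoImplicit false

noncomputable section

open MeasureTheory Finset Filter Topology

namespace SB

/-- the minimiser of a quadratic form with last coefficient one -/
theorem schur {T : ℕ → ℕ → ℝ} (n : ℕ)
    (hd : (Matrix.of fun i j : Fin n => T i j).det ≠ 0) :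
    ∃ y : ℕ → ℝ, y n = 1 ∧ (∀ i < n, ∑ j ∈ range (n + 1), T i j * y j = 0) ∧
      ∑ j ∈ range (n + 1), T n j * y j =
        (Matrix.of fun i j : Fin (n + 1) => T i j).det / (Matrix.of fun i j : Fin n => T i j).det := by
  obtain ⟨A, hA⟩ : ∃ A : Matrix (Fin n) (Fin n) ℝ, A = Matrix.of fun i j : Fin n => T i j := ⟨_, rfl⟩
  rw [← hA] at hd ⊢
  obtain ⟨t, ht⟩ : ∃ t : Fin n → ℝ, t = fun i : Fin n => T i n := ⟨_, rfl⟩
  have hu : IsUnit A.det := isUnit_iff_ne_zero.2 hd
  obtain ⟨x, hx⟩ : ∃ x : Fin n → ℝ, x = A⁻¹.mulVec t := ⟨_, rfl⟩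
  have hAx : A.mulVec x = t := by
    rw [hx, Matrix.mulVec_mulVec, Matrix.mul_nonsing_inv A hu, Matrix.one_mulVec]
  refine ⟨fun j => if h : j < n then -x ⟨j, h⟩ else 1, by simp, fun i hi => ?_, ?_⟩
  · rw [sum_range_succ, Finset.sum_range]
    have h1 : ∑ j : Fin n, T i j * (if h : (j : ℕ) < n then -x ⟨j, h⟩ else 1) = -t ⟨i, hi⟩ := by
      have h2 := congrFun hAx ⟨i, hi⟩
      unfold Matrix.mulVec dotProduct at h2
      rw [← h2, ← sum_neg_distrib]
      refine sum_congr rfl fun j _ => ?_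
      rw [dif_pos j.2, hA]
      simp
    rw [h1, ht]
    simp
  · set B : Matrix (Fin n) (Fin 1) ℝ := Matrix.of fun i _ => T i n with hB
    set C : Matrix (Fin 1) (Fin n) ℝ := Matrix.of fun _ j => T n j with hC
    set D : Matrix (Fin 1) (Fin 1) ℝ := Matrix.of fun _ _ => T n n with hD
    set e : Fin n ⊕ Fin 1 ≃ Fin (n + 1) := finSumFinEquiv with he
    have el : ∀ i : Fin n, ((e (Sum.inl i) : Fin (n + 1)) : ℕ) = i := fun i => rfl
    have er : ∀ i : Fin 1, ((e (Sum.inr i) : Fin (n + 1)) : ℕ) = n := fun i => by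
      rw [Subsingleton.elim i 0]
      rfl
    have hblk : (Matrix.of fun i j : Fin (n + 1) => T i j).submatrix e e =
        Matrix.fromBlocks A B C D := by
      ext i j
      rcases i with i | i <;> rcases j with j | j
      · simp only [Matrix.submatrix_apply, Matrix.of_apply, el, Matrix.fromBlocks_apply₁₁, hA]
      · simp only [Matrix.submatrix_apply, Matrix.of_apply, el, er, Matrix.fromBlocks_apply₁₂, hB]
      · simp only [Matrix.submatrix_apply, Matrix.of_apply, el, er, Matrix.fromBlocks_apply₂₁, hC]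
      · simp only [Matrix.submatrix_apply, Matrix.of_apply, er, Matrix.fromBlocks_apply₂₂, hD]
    have hdet : (Matrix.of fun i j : Fin (n + 1) => T i j).det = A.det * (D - C * A⁻¹ * B).det := by
      haveI := hu.invertible
      haveI : Invertible A := Matrix.invertibleOfIsUnitDet A hu
      rw [← Matrix.det_submatrix_equiv_self e, hblk, Matrix.det_fromBlocks₁₁,
        Matrix.invOf_eq_nonsing_inv]
    rw [hdet, mul_div_cancel_left₀ _ hd, Matrix.det_fin_one, sum_range_succ, Finset.sum_range]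
    have h1 : ∑ j : Fin n, T n j * (if h : (j : ℕ) < n then -x ⟨j, h⟩ else 1) =
        -(C * A⁻¹ * B) 0 0 := by
      rw [Matrix.mul_assoc, Matrix.mul_apply, ← sum_neg_distrib]
      refine sum_congr rfl fun j _ => ?_
      rw [dif_pos j.2]
      have h3 : (A⁻¹ * B) j 0 = x j := by
        rw [hx, Matrix.mul_apply]
        unfold Matrix.mulVec dotProduct
        rw [ht]
        rfl
      rw [h3]
      simp [hC]
    rw [h1]
    simp only [Matrix.sub_apply]
    simp [hD]
    ring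

/-- integrals of products of two combinations -/
theorem bil_int (S S' : Finset ℕ) (c d : ℕ → ℝ) {f : ℝ → ℝ} (hf : Continuous f) {B : ℝ}
    (hB : ∀ k, |f k| ≤ B) :
    IntegrableOn (fun k => NUQ.wf k * ((∑ i ∈ S, c i * (NUQ.qq i).eval k) *
      ∑ j ∈ S', d j * (NUQ.qq j).eval k) * f k) (Set.Ioi 0) ∧
    ∫ k in Set.Ioi (0 : ℝ), NUQ.wf k * ((∑ i ∈ S, c i * (NUQ.qq i).eval k) *
      ∑ j ∈ S', d j * (NUQ.qq j).eval k) * f k = ∑ i ∈ S, ∑ j ∈ S', c i * d j *
        ∫ k in Set.Ioi (0 : ℝ), NUQ.wf k * ((NUQ.qq i).eval k * (NUQ.qq j).eval k) * f k := by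
  have hi : ∀ i j, IntegrableOn (fun k => NUQ.wf k * ((NUQ.qq i).eval k * (NUQ.qq j).eval k) * f k)
      (Set.Ioi 0) := fun i j => (NUQ.qq_f_int i j hf hB).integrableOn
  have e : (fun k => NUQ.wf k * ((∑ i ∈ S, c i * (NUQ.qq i).eval k) *
      ∑ j ∈ S', d j * (NUQ.qq j).eval k) * f k) = fun k => ∑ i ∈ S, ∑ j ∈ S', c i * d j *
        (NUQ.wf k * ((NUQ.qq i).eval k * (NUQ.qq j).eval k) * f k) := by
    funext k
    rw [sum_mul_sum, mul_sum, sum_mul]
    refine sum_congr rfl fun i _ => ?_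
    rw [mul_sum, sum_mul]
    exact sum_congr rfl fun l _ => by ring
  rw [e]
  constructor
  · exact integrable_finsetSum _ fun i _ => integrable_finsetSum _ fun l _ => (hi i l).const_mul _
  · rw [integral_finsetSum _ fun i _ => integrable_finsetSum _ fun l _ => (hi i l).const_mul _]
    refine sum_congr rfl fun i _ => ?_
    rw [integral_finsetSum _ fun l _ => (hi i l).const_mul _]
    exact sum_congr rfl fun l _ => integral_const_mul _ _

/-- the entries -/
def Te (i j : ℕ) : ℝ := ∫ x in Set.Ioi (0 : ℝ), NUQ.wf x * ((NUQ.qq i).eval x * (NUQ.qq j).eval x) *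
  Real.exp (NUQ.gg x)

theorem Te_symm (i j : ℕ) : Te i j = Te j i := by
  unfold Te
  congr 1
  funext x
  ring

theorem Gm_eq (n : ℕ) : NUQ.Gm n = Matrix.of fun i j : Fin n => Te i j := rfl

theorem Gm_pos (n : ℕ) : 0 < (NUQ.Gm n).det := (Real.exp_pos _).trans_le (NUQ.det_ge n)

theorem eg_cont : Continuous fun k => Real.exp (NUQ.gg k) := Real.continuous_exp.comp NUQ.gg_cont

theorem eg_bd (k : ℝ) : |Real.exp (NUQ.gg k)| ≤ Real.exp 1 := by
  rw [abs_of_pos (Real.exp_pos _)]
  exact Real.exp_le_exp.2 (NUQ.gg_le k)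

theorem en_cont : Continuous fun k => Real.exp (-(NUQ.gg k)) :=
  Real.continuous_exp.comp NUQ.gg_cont.neg

theorem en_bd (k : ℝ) : |Real.exp (-(NUQ.gg k))| ≤ 1 := by
  rw [abs_of_pos (Real.exp_pos _)]
  exact Real.exp_le_one_iff.2 (by linarith [NUQ.gg_nonneg k])

/-- the quadratic form -/
theorem form_eq (n : ℕ) (c : ℕ → ℝ) : ∫ k in Set.Ioi (0 : ℝ), NUQ.wf k *
    (∑ j ∈ range (n + 1), c j * (NUQ.qq j).eval k) ^ 2 * Real.exp (NUQ.gg k) =
    ∑ i ∈ range (n + 1), c i * ∑ j ∈ range (n + 1), Te i j * c j := by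
  have h := (bil_int (range (n + 1)) (range (n + 1)) c c eg_cont eg_bd).2
  simp only [← sq] at h
  rw [h]
  refine sum_congr rfl fun i _ => ?_
  rw [mul_sum]
  refine sum_congr rfl fun j _ => ?_
  unfold Te
  ring

theorem form_nonneg (n : ℕ) (c : ℕ → ℝ) : 0 ≤ ∫ k in Set.Ioi (0 : ℝ), NUQ.wf k *
    (∑ j ∈ range (n + 1), c j * (NUQ.qq j).eval k) ^ 2 * Real.exp (NUQ.gg k) :=
  integral_nonneg fun k => by
    have := NUQ.wf_pos k
    positivity

/-- **the variational bounds** -/
theorem var : Var := by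
  have hpos : ∀ n, 0 < rn n := fun n => div_pos (Gm_pos _) (Gm_pos _)
  -- the minimiser
  have hmin : ∀ n : ℕ, ∃ y : ℕ → ℝ, y n = 1 ∧ (∀ i < n, ∑ j ∈ range (n + 1), Te i j * y j = 0) ∧
      ∑ j ∈ range (n + 1), Te n j * y j = rn n := by
    intro n
    have h := schur (T := Te) n (by rw [← Gm_eq]; exact (Gm_pos n).ne')
    rw [← Gm_eq, ← Gm_eq] at h
    exact h
  have hdot : ∀ (n : ℕ) (y : ℕ → ℝ) (c : ℕ → ℝ), (∀ i < n, ∑ j ∈ range (n + 1), Te i j * y j = 0) →
      ∑ j ∈ range (n + 1), Te n j * y j = rn n →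
      ∑ i ∈ range (n + 1), c i * ∑ j ∈ range (n + 1), Te i j * y j = c n * rn n := by
    intro n y c h1 h2
    rw [sum_range_succ, h2]
    have : ∑ i ∈ range n, c i * ∑ j ∈ range (n + 1), Te i j * y j = 0 :=
      sum_eq_zero fun i hi => by rw [h1 i (mem_range.1 hi), mul_zero]
    rw [this, zero_add]
  refine ⟨hpos, fun n c hc => ?_, fun n N c hc => ?_⟩
  · obtain ⟨y, hy, h1, h2⟩ := hmin n
    have e1 := form_eq n c
    have e2 := form_nonneg n (fun j => c j - y j)
    rw [form_eq] at e2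
    have e3 := hdot n y c h1 h2
    have e4 := hdot n y y h1 h2
    have e5 : ∑ i ∈ range (n + 1), (c i - y i) * ∑ j ∈ range (n + 1), Te i j * (c j - y j) =
        (∑ i ∈ range (n + 1), c i * ∑ j ∈ range (n + 1), Te i j * c j) -
        2 * (∑ i ∈ range (n + 1), c i * ∑ j ∈ range (n + 1), Te i j * y j) +
        ∑ i ∈ range (n + 1), y i * ∑ j ∈ range (n + 1), Te i j * y j := by
      have e6 : ∑ i ∈ range (n + 1), y i * ∑ j ∈ range (n + 1), Te i j * c j =
          ∑ i ∈ range (n + 1), c i * ∑ j ∈ range (n + 1), Te i j * y j := by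
        simp only [mul_sum]
        rw [sum_comm]
        refine sum_congr rfl fun i _ => sum_congr rfl fun j _ => ?_
        rw [Te_symm]
        ring
      have e7 : ∀ i, (c i - y i) * ∑ j ∈ range (n + 1), Te i j * (c j - y j) =
          c i * (∑ j ∈ range (n + 1), Te i j * c j) - c i * (∑ j ∈ range (n + 1), Te i j * y j) -
          y i * (∑ j ∈ range (n + 1), Te i j * c j) + y i * ∑ j ∈ range (n + 1), Te i j * y j := by
        intro i
        have : ∑ j ∈ range (n + 1), Te i j * (c j - y j) = (∑ j ∈ range (n + 1), Te i j * c j) -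
            ∑ j ∈ range (n + 1), Te i j * y j := by
          rw [← sum_sub_distrib]
          exact sum_congr rfl fun j _ => by ring
        rw [this]
        ring
      simp only [e7, sum_add_distrib, sum_sub_distrib]
      rw [e6]
      ring
    rw [e5, e3, e4, hc, hy] at e2
    rw [e1]
    linarith
  · obtain ⟨y, hy, h1, h2⟩ := hmin n
    have hr := hpos n
    obtain ⟨S', hS'⟩ : ∃ S' : Finset ℕ, S' = (range (N + 1)).map (addLeftEmbedding n) := ⟨_, rfl⟩
    have eY : ∀ k, ∑ i ∈ range (N + 1), c (n + i) * (NUQ.qq (n + i)).eval k =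
        ∑ j ∈ S', c j * (NUQ.qq j).eval k := by
      intro k
      rw [hS', sum_map]
      rfl
    simp only [eY]
    have b1 := bil_int S' S' c c en_cont en_bd
    have b2 := bil_int S' (range (n + 1)) c y (f := fun _ => 1) continuous_const (B := 1)
      (fun k => by simp)
    have b3 := bil_int (range (n + 1)) (range (n + 1)) y y eg_cont eg_bd
    -- the cross term
    have c2 : ∫ k in Set.Ioi (0 : ℝ), NUQ.wf k * ((∑ i ∈ S', c i * (NUQ.qq i).eval k) *
        ∑ j ∈ range (n + 1), y j * (NUQ.qq j).eval k) * 1 = 1 := by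
      rw [b2.2]
      simp only [mul_one, NUQ.qq_orth]
      rw [sum_eq_single n, sum_eq_single n, if_pos rfl, hc, hy]
      · ring
      · intro j _ hj
        rw [if_neg (fun h => hj h.symm), mul_zero]
      · intro h
        exact absurd (mem_range.2 (by omega)) h
      · intro i hi hin
        rw [hS', Finset.mem_map] at hi
        obtain ⟨l, -, rfl⟩ := hi
        refine sum_eq_zero fun j hj => ?_
        have hj' := mem_range.1 hj
        rw [if_neg, mul_zero]
        intro h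
        apply hin
        have h5 : (addLeftEmbedding n) l = n + l := rfl
        rw [h5] at h hin ⊢
        omega
      · intro h
        exfalso
        apply h
        rw [hS', Finset.mem_map]
        exact ⟨0, mem_range.2 (by omega), rfl⟩
    have c3 : ∫ k in Set.Ioi (0 : ℝ), NUQ.wf k * ((∑ i ∈ range (n + 1), y i * (NUQ.qq i).eval k) *
        ∑ j ∈ range (n + 1), y j * (NUQ.qq j).eval k) * Real.exp (NUQ.gg k) = rn n := by
      have h5 := form_eq n y
      simp only [sq] at h5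
      rw [h5, hdot n y y h1 h2, hy, one_mul]
    obtain ⟨F1, hF1⟩ : ∃ F1 : ℝ → ℝ, F1 = fun k => NUQ.wf k *
        ((∑ i ∈ S', c i * (NUQ.qq i).eval k) * ∑ j ∈ S', c j * (NUQ.qq j).eval k) *
        Real.exp (-(NUQ.gg k)) := ⟨_, rfl⟩
    obtain ⟨F2, hF2⟩ : ∃ F2 : ℝ → ℝ, F2 = fun k => NUQ.wf k *
        ((∑ i ∈ S', c i * (NUQ.qq i).eval k) * ∑ j ∈ range (n + 1), y j * (NUQ.qq j).eval k) * 1 :=
      ⟨_, rfl⟩
    obtain ⟨F3, hF3⟩ : ∃ F3 : ℝ → ℝ, F3 = fun k => NUQ.wf k *
        ((∑ i ∈ range (n + 1), y i * (NUQ.qq i).eval k) *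
        ∑ j ∈ range (n + 1), y j * (NUQ.qq j).eval k) * Real.exp (NUQ.gg k) := ⟨_, rfl⟩
    have i1 : IntegrableOn F1 (Set.Ioi 0) := by rw [hF1]; exact b1.1
    have i2 : IntegrableOn F2 (Set.Ioi 0) := by rw [hF2]; exact b2.1
    have i3 : IntegrableOn F3 (Set.Ioi 0) := by rw [hF3]; exact b3.1
    have c2' : ∫ k in Set.Ioi (0 : ℝ), F2 k = 1 := by rw [hF2]; exact c2
    have c3' : ∫ k in Set.Ioi (0 : ℝ), F3 k = rn n := by rw [hF3]; exact c3
    have i12 : IntegrableOn (fun k => F1 k - 2 / rn n * F2 k) (Set.Ioi 0) :=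
      i1.sub (i2.const_mul _)
    have hsq : 0 ≤ ∫ k in Set.Ioi (0 : ℝ), (F1 k - 2 / rn n * F2 k + 1 / rn n ^ 2 * F3 k) := by
      refine integral_nonneg fun k => ?_
      simp only [Pi.zero_apply, hF1, hF2, hF3]
      obtain ⟨Y, hY⟩ : ∃ Y, Y = ∑ i ∈ S', c i * (NUQ.qq i).eval k := ⟨_, rfl⟩
      obtain ⟨Q, hQ⟩ : ∃ Q, Q = ∑ j ∈ range (n + 1), y j * (NUQ.qq j).eval k := ⟨_, rfl⟩
      rw [← hY, ← hQ]
      have hw := NUQ.wf_pos k
      have he : Real.exp (NUQ.gg k) * Real.exp (-(NUQ.gg k)) = 1 := by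
        rw [← Real.exp_add]
        simp
      have e : NUQ.wf k * (Y * Y) * Real.exp (-(NUQ.gg k)) - 2 / rn n * (NUQ.wf k * (Y * Q) * 1) +
          1 / rn n ^ 2 * (NUQ.wf k * (Q * Q) * Real.exp (NUQ.gg k)) =
          NUQ.wf k * Real.exp (-(NUQ.gg k)) * (Y - 1 / rn n * Q * Real.exp (NUQ.gg k)) ^ 2 := by
        linear_combination (2 / rn n * NUQ.wf k * Y * Q -
          1 / rn n ^ 2 * NUQ.wf k * Q ^ 2 * Real.exp (NUQ.gg k)) * he
      rw [e]
      positivity
    rw [integral_add i12 (i3.const_mul _), integral_sub i1 (i2.const_mul _), integral_const_mul,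
      integral_const_mul, c2', c3'] at hsq
    have e9 : 1 / rn n ^ 2 * rn n = 1 / rn n := by
      field_simp
    rw [e9] at hsq
    have e10 : 2 / rn n * 1 = 2 * (1 / rn n) := by ring
    rw [e10] at hsq
    have e11 : ∫ k in Set.Ioi (0 : ℝ), NUQ.wf k * (∑ j ∈ S', c j * (NUQ.qq j).eval k) ^ 2 *
        Real.exp (-(NUQ.gg k)) = ∫ k in Set.Ioi (0 : ℝ), F1 k := by
      rw [hF1]
      simp only [sq]
    rw [e11]
    linarith

end SB

end
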