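import Pool.Agent.PB.SBW
import Pool.Agent.NUQ.DetLow

/-!
# Trial sums for the Gram determinant (sharp normaliser)

* `aa j = (2j+1) (-1)^j PP (2j)`, `WW th = exp (- th gg) - 1`;
* `EBd th C` : the entry bound; `Cells` : a discretisation of the half line;
* **`energy_le`** : the energy of the trial sum is `<= 1 + (- th 5/24 + C s) / (2n+1)`.
-/

set_option autoImplicit false

noncomputable section

open Complex MeasureTheory Finset Filter Topology

namespace SB

/-- the alternating orthogonal functions -/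
def aa (j : ℕ) (k : ℝ) : ℝ := (2 * j + 1) * (-1) ^ j * (NUQ.PP (2 * j)).eval k

/-- the perturbation -/
def WW (th k : ℝ) : ℝ := Real.exp (-(th * NUQ.gg k)) - 1

theorem aa_qq (j : ℕ) (k : ℝ) : aa j k = (-1) ^ j * Real.sqrt (2 * j + 1) * (NUQ.qq j).eval k := by
  unfold aa NUQ.qq
  rw [Polynomial.eval_mul, Polynomial.eval_C]
  have h := Real.mul_self_sqrt (by positivity : (0 : ℝ) ≤ 2 * j + 1)
  linear_combination (-(-1) ^ j * (NUQ.PP (2 * j)).eval k) * h

theorem aa_int (j l : ℕ) {f : ℝ → ℝ} (hf : Continuous f) {B : ℝ} (hB : ∀ k, |f k| ≤ B) :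
    IntegrableOn (fun k => NUQ.wf k * (aa j k * aa l k) * f k) (Set.Ioi 0) := by
  have h := ((NUQ.qq_f_int j l hf hB).const_mul
    ((-1) ^ j * Real.sqrt (2 * j + 1) * ((-1) ^ l * Real.sqrt (2 * l + 1)))).integrableOn
    (s := Set.Ioi 0)
  refine h.congr (Eventually.of_forall fun k => ?_)
  simp only [aa_qq]
  ring

theorem aa_orth (j l : ℕ) : ∫ k in Set.Ioi (0 : ℝ), NUQ.wf k * (aa j k * aa l k) =
    if j = l then (2 * j + 1 : ℝ) else 0 := by
  have e : ∀ k, NUQ.wf k * (aa j k * aa l k) =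
      ((-1) ^ j * Real.sqrt (2 * j + 1) * ((-1) ^ l * Real.sqrt (2 * l + 1))) *
        (NUQ.wf k * ((NUQ.qq j).eval k * (NUQ.qq l).eval k)) := by
    intro k
    rw [aa_qq, aa_qq]
    ring
  simp only [e]
  rw [integral_const_mul, NUQ.qq_orth]
  split_ifs with h
  · subst h
    have h1 := Real.mul_self_sqrt (by positivity : (0 : ℝ) ≤ 2 * j + 1)
    have h2 : ((-1 : ℝ) ^ j) * (-1) ^ j = 1 := by
      rw [← mul_pow]
      norm_num
    linear_combination h1 + (2 * (j : ℝ) + 1) * h2 +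
      (((-1 : ℝ) ^ j) * (-1) ^ j - 1) * h1
  · rw [mul_zero]

section W

variable {th : ℝ} (hth : th = 1 ∨ th = -1)

theorem WW_cont (th : ℝ) : Continuous (WW th) :=
  (Real.continuous_exp.comp ((continuous_const.mul NUQ.gg_cont).neg)).sub continuous_const

include hth in
theorem WW_le (k : ℝ) : |WW th k| ≤ 2 * NUQ.gg k := by
  obtain ⟨-, -, h3, -⟩ := th_cases hth
  have g0 := NUQ.gg_nonneg k
  have g1 := NUQ.gg_le k
  have e1 : |-(th * NUQ.gg k)| = NUQ.gg k := by
    rw [abs_neg, abs_mul, h3, one_mul, abs_of_nonneg g0]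
  have := Real.abs_exp_sub_one_le (x := -(th * NUQ.gg k)) (by rw [e1]; exact g1)
  rwa [e1] at this

include hth in
theorem WW_int : Integrable (WW th) :=
  (NUQ.gg_int.const_mul 2).mono' (WW_cont th).aestronglyMeasurable
    (Eventually.of_forall fun k => by
      rw [Real.norm_eq_abs]
      exact WW_le hth k)

include hth in
theorem WW_int1 : Integrable fun k => (1 + |k|) * |WW th k| := by
  have hp := Real.pi_pos
  have h1 : Integrable fun k : ℝ => 8 * Real.exp (-(1 / 2 * |k|)) :=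
    (NUQ.int_exp_abs (b := 1 / 2) (by norm_num)).const_mul 8
  refine h1.mono' ((continuous_const.add continuous_abs).mul
    (WW_cont th).abs).aestronglyMeasurable (Eventually.of_forall fun k => ?_)
  have e1 := WW_le hth k
  have e2 := NUQ.gg_exp_le k
  have hk := abs_nonneg k
  rw [norm_mul, Real.norm_eq_abs, Real.norm_eq_abs, abs_of_nonneg (by positivity : 0 ≤ 1 + |k|),
    abs_abs]
  have e3 : Real.exp (-(Real.pi / 3 * |k|)) ≤ Real.exp (-(1 * |k|)) := by
    refine Real.exp_le_exp.2 ?_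
    have := Real.pi_gt_three
    nlinarith
  have e4 : 1 + |k| ≤ 4 * Real.exp (1 / 2 * |k|) := by
    have := Real.add_one_le_exp (1 / 2 * |k|)
    linarith
  calc (1 + |k|) * |WW th k| ≤ (4 * Real.exp (1 / 2 * |k|)) * (2 * Real.exp (-(1 * |k|))) := by
        refine mul_le_mul e4 (by linarith) (abs_nonneg _) (by positivity)
    _ = 8 * (Real.exp (1 / 2 * |k|) * Real.exp (-(1 * |k|))) := by ring
    _ = 8 * Real.exp (-(1 / 2 * |k|)) := by
        rw [← Real.exp_add]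
        congr 2
        ring

end W

/-- **the entry bound** -/
def EBd (th C : ℝ) : Prop := ∀ j l : ℕ,
  |(∫ k in Set.Ioi (0 : ℝ), NUQ.wf k * (aa j k * aa l k) * WW th k) -
    1 / (2 * Real.pi) * ∫ k, Real.cos (k / 2 * Real.log ((4 * j + 2) / (4 * l + 2))) * WW th k| ≤
    C * (1 / Real.sqrt (4 * j + 2) + 1 / Real.sqrt (4 * l + 2))

/-- a discretisation of the half line by the positions `± (1/2) log ((2 J i + 1) / (2 n + 1))` -/
structure Cells (th : ℝ) (n K : ℕ) (J : ℕ → ℕ) (p : ℕ → ℝ) (s : ℝ) : Prop where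
  s0 : 0 < s
  sn : 1 / (2 * n + 1) ≤ s
  p0 : p 0 = 0
  J0 : J 0 = n
  mono : ∀ i < K, p i ≤ p (i + 1)
  c1 : ∀ i < K, (2 * (J (i + 1) : ℝ) + 1) * (p (i + 1) - p i) ≤ 1 + 2 * s
  c2 : ∀ i < K, p (i + 1) - p i ≤ 3 * s * Real.exp (p i)
  c3 : ∀ i < K, 1 / Real.sqrt (4 * (J (i + 1) : ℝ) + 2) ≤ 3 * s * Real.exp (p i)
  c3' : 1 / Real.sqrt (4 * (n : ℝ) + 2) ≤ s
  c4 : Real.exp (-(p K)) ≤ s
  pos : ∀ i ≤ K, 1 / 2 * Real.log ((2 * (J i : ℝ) + 1) / (2 * n + 1)) = th * p i
  inj : ∀ i ≤ K, ∀ l ≤ K, J i = J l → i = l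

/-- the weights of the trial sum -/
def vw (th : ℝ) (r : ℝ → ℝ) (p : ℕ → ℝ) : ℕ → ℝ
  | 0 => 1
  | (i + 1) => th * ∫ x in p i..p (i + 1), r x

/-- the data of the factor -/
structure RhoD (th : ℝ) (r : ℝ → ℝ) (C : ℝ) : Prop where
  m : Measurable r
  z : ∀ x, x ≤ 0 → r x = 0
  b : ∀ x, |r x| ≤ C * Real.exp (-(5 / 4 * x))
  f : ∀ k : ℝ, ‖1 + (th : ℂ) * ∫ x, (r x : ℂ) * cexp (I * k * x)‖ ^ 2 = Real.exp (th * NUQ.gg k)
  n : ∫ x, r x ^ 2 = -(th * (5 / 24)) + 1 / (2 * Real.pi) * ∫ k, (Real.exp (th * NUQ.gg k) - 1)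

theorem exists_RhoD {th : ℝ} (hth : th = 1 ∨ th = -1) : ∃ (r : ℝ → ℝ) (C : ℝ), RhoD th r C := by
  obtain ⟨r, C, h1, h2, h3, h4, h5⟩ := exists_rho hth
  exact ⟨r, C, ⟨h1, h2, h3, h4, h5⟩⟩

namespace RhoD

variable {th : ℝ} {r : ℝ → ℝ} {C : ℝ} (h : RhoD th r C)
include h

theorem C0 : 0 ≤ C := by
  have := h.b 0
  simp at this
  exact (abs_nonneg _).trans this

/-- the integral against the weight `exp x` -/
theorem i1 : Integrable fun x => |r x| * Real.exp x := by
  have h1 : Integrable ((Set.Ioi (0 : ℝ)).indicator fun x => C * Real.exp (-(1 / 4) * x)) :=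
    (integrable_indicator_iff measurableSet_Ioi).2
      ((integrableOn_exp_mul_Ioi (by norm_num : (-(1 / 4) : ℝ) < 0) 0).const_mul C)
  refine h1.mono' ((h.m.abs.mul Real.measurable_exp)).aestronglyMeasurable
    (Eventually.of_forall fun x => ?_)
  rw [norm_mul, Real.norm_eq_abs, Real.norm_eq_abs, abs_abs, abs_of_pos (Real.exp_pos x)]
  by_cases hx : x ∈ Set.Ioi (0 : ℝ)
  · rw [Set.indicator_of_mem hx]
    calc |r x| * Real.exp x ≤ C * Real.exp (-(5 / 4 * x)) * Real.exp x :=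
          mul_le_mul_of_nonneg_right (h.b x) (Real.exp_pos x).le
      _ = C * Real.exp (-(1 / 4) * x) := by
          rw [mul_assoc, ← Real.exp_add]
          congr 2
          ring
  · rw [Set.indicator_of_notMem hx, h.z x (by simpa using hx)]
    simp

theorem i0 : Integrable r := by
  refine h.i1.mono' h.m.aestronglyMeasurable (Eventually.of_forall fun x => ?_)
  rw [Real.norm_eq_abs]
  rcases le_or_gt x 0 with hx | hx
  · rw [h.z x hx]
    simp
  · exact le_mul_of_one_le_right (abs_nonneg _) (Real.one_le_exp hx.le)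

theorem i2 : Integrable fun x => r x ^ 2 := by
  have := h.i0.bdd_mul (f := r) (c := C) h.m.aestronglyMeasurable (Eventually.of_forall fun x => by
    rw [Real.norm_eq_abs]
    rcases le_or_gt x 0 with hx | hx
    · rw [h.z x hx, abs_zero]
      exact h.C0
    · refine (h.b x).trans (mul_le_of_le_one_right h.C0 (Real.exp_le_one_iff.2 ?_))
      linarith)
  refine this.congr (Eventually.of_forall fun x => ?_)
  simp only []
  ring

theorem R0_le : ∫ x, |r x| ≤ ∫ x, |r x| * Real.exp x := by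
  refine integral_mono h.i0.abs h.i1 fun x => ?_
  simp only []
  rcases le_or_gt x 0 with hx | hx
  · rw [h.z x hx]
    simp
  · exact le_mul_of_one_le_right (abs_nonneg _) (Real.one_le_exp hx.le)

end RhoD

section trial

variable {th : ℝ} {r : ℝ → ℝ} {C : ℝ} {n K : ℕ} {J : ℕ → ℕ} {p : ℕ → ℝ} {s : ℝ}

theorem Cells.nonneg (hc : Cells th n K J p s) : ∀ i ≤ K, 0 ≤ p i := by
  intro i hi
  induction i with
  | zero => rw [hc.p0]
  | succ i ih => exact (ih (by omega)).trans (hc.mono i (by omega))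

/-- sums over the cells of a nonnegative function -/
theorem Cells.sum_le (hc : Cells th n K J p s) {f : ℝ → ℝ} (hf : Integrable f) (h0 : ∀ x, 0 ≤ f x) :
    ∑ i ∈ range K, ∫ x in p i..p (i + 1), f x ≤ ∫ x, f x := by
  rw [intervalIntegral.sum_integral_adjacent_intervals fun i _ => hf.intervalIntegrable]
  have h1 : p 0 ≤ p K := by
    rw [hc.p0]
    exact hc.nonneg K le_rfl
  rw [intervalIntegral.integral_of_le h1]
  exact setIntegral_le_integral hf (Eventually.of_forall h0)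

theorem Cells.vw_abs (hc : Cells th n K J p s) (hth : |th| = 1) (h : RhoD th r C) {i : ℕ}
    (hi : i < K) : |vw th r p (i + 1)| ≤ ∫ x in p i..p (i + 1), |r x| := by
  show |th * ∫ x in p i..p (i + 1), r x| ≤ _
  rw [abs_mul, hth, one_mul]
  exact intervalIntegral.abs_integral_le_integral_abs (hc.mono i hi)

theorem Cells.sum_abs (hc : Cells th n K J p s) (hth : |th| = 1) (h : RhoD th r C) :
    ∑ i ∈ range (K + 1), |vw th r p i| ≤ 1 + ∫ x, |r x| := by
  rw [sum_range_succ']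
  have h1 : ∑ i ∈ range K, |vw th r p (i + 1)| ≤ ∑ i ∈ range K, ∫ x in p i..p (i + 1), |r x| :=
    sum_le_sum fun i hi => hc.vw_abs hth h (mem_range.1 hi)
  have h2 := hc.sum_le h.i0.abs fun x => abs_nonneg _
  have h3 : |vw th r p 0| = 1 := by simp [vw]
  rw [h3]
  linarith

/-- a weight at the left end point is below the weight `exp x` -/
theorem Cells.cell_exp (hc : Cells th n K J p s) (h : RhoD th r C) {i : ℕ} (hi : i < K) :
    Real.exp (p i) * ∫ x in p i..p (i + 1), |r x| ≤ ∫ x in p i..p (i + 1), |r x| * Real.exp x := by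
  rw [← intervalIntegral.integral_const_mul]
  refine intervalIntegral.integral_mono_on (hc.mono i hi)
    (h.i0.abs.const_mul _).intervalIntegrable h.i1.intervalIntegrable fun x hx => ?_
  rw [mul_comm]
  exact mul_le_mul_of_nonneg_left (Real.exp_le_exp.2 hx.1) (abs_nonneg _)

theorem Cells.sum_M (hc : Cells th n K J p s) (hth : |th| = 1) (h : RhoD th r C) :
    ∑ i ∈ range (K + 1), |vw th r p i| * (1 / Real.sqrt (4 * (J i : ℝ) + 2)) ≤
      s * (1 + 3 * ∫ x, |r x| * Real.exp x) := by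
  have hs := hc.s0
  rw [sum_range_succ']
  have h1 : ∑ i ∈ range K, |vw th r p (i + 1)| * (1 / Real.sqrt (4 * (J (i + 1) : ℝ) + 2)) ≤
      ∑ i ∈ range K, 3 * s * ∫ x in p i..p (i + 1), |r x| * Real.exp x := by
    refine sum_le_sum fun i hi => ?_
    have hi' := mem_range.1 hi
    have e1 := hc.vw_abs hth h hi'
    have e2 := hc.c3 i hi'
    have e3 := hc.cell_exp h hi'
    have e4 : 0 ≤ ∫ x in p i..p (i + 1), |r x| := (abs_nonneg _).trans e1
    calc |vw th r p (i + 1)| * (1 / Real.sqrt (4 * (J (i + 1) : ℝ) + 2))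
        ≤ (∫ x in p i..p (i + 1), |r x|) * (3 * s * Real.exp (p i)) :=
          mul_le_mul e1 e2 (by positivity) e4
      _ = 3 * s * (Real.exp (p i) * ∫ x in p i..p (i + 1), |r x|) := by ring
      _ ≤ _ := mul_le_mul_of_nonneg_left e3 (by positivity)
  rw [← mul_sum] at h1
  have h2 := hc.sum_le h.i1 fun x => by positivity
  have h3 : |vw th r p 0| * (1 / Real.sqrt (4 * (J 0 : ℝ) + 2)) ≤ s := by
    have : vw th r p 0 = 1 := rfl
    rw [this, abs_one, one_mul, hc.J0]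
    exact hc.c3'
  have h4 := mul_le_mul_of_nonneg_left h2 (by positivity : 0 ≤ 3 * s)
  nlinarith

/-- Cauchy Schwarz on a cell -/
theorem cs_cell (h : RhoD th r C) {a b : ℝ} (hab : a ≤ b) :
    (∫ x in a..b, r x) ^ 2 ≤ (b - a) * ∫ x in a..b, r x ^ 2 := by
  obtain ⟨m, hm⟩ : ∃ m, m = ∫ x in a..b, r x := ⟨_, rfl⟩
  rcases eq_or_lt_of_le hab with rfl | hlt
  · simp
  · have hd : 0 < b - a := by linarith
    have i0 : IntervalIntegrable r volume a b := h.i0.intervalIntegrable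
    have i2 : IntervalIntegrable (fun x => r x ^ 2) volume a b := h.i2.intervalIntegrable
    have h1 : 0 ≤ ∫ x in a..b, (r x - m / (b - a)) ^ 2 :=
      intervalIntegral.integral_nonneg hab fun x _ => sq_nonneg _
    have h2 : ∫ x in a..b, (r x - m / (b - a)) ^ 2 =
        (∫ x in a..b, r x ^ 2) - 2 * (m / (b - a)) * m + (m / (b - a)) ^ 2 * (b - a) := by
      have e : ∀ x, (r x - m / (b - a)) ^ 2 =
          r x ^ 2 - 2 * (m / (b - a)) * r x + (m / (b - a)) ^ 2 := fun x => by ring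
      simp only [e]
      rw [intervalIntegral.integral_add (i2.sub (i0.const_mul _)) (by simp),
        intervalIntegral.integral_sub i2 (i0.const_mul _), intervalIntegral.integral_const_mul,
        intervalIntegral.integral_const, ← hm]
      simp only [smul_eq_mul]
      ring
    rw [h2] at h1
    rw [← hm]
    have e3 : (∫ x in a..b, r x ^ 2) - 2 * (m / (b - a)) * m + (m / (b - a)) ^ 2 * (b - a) =
        ((b - a) * (∫ x in a..b, r x ^ 2) - m ^ 2) / (b - a) := by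
      field_simp
      ring
    rw [e3] at h1
    have := (div_nonneg_iff.1 h1).resolve_right (by
      rintro ⟨-, h5⟩
      linarith)
    linarith [this.1]

theorem Cells.sum_sq (hc : Cells th n K J p s) (hth : th * th = 1) (h : RhoD th r C) :
    ∑ i ∈ range (K + 1), vw th r p i ^ 2 * (2 * (J i : ℝ) + 1) ≤
      (2 * n + 1) + (1 + 2 * s) * ∫ x, r x ^ 2 := by
  have hs := hc.s0
  rw [sum_range_succ']
  have h1 : ∑ i ∈ range K, vw th r p (i + 1) ^ 2 * (2 * (J (i + 1) : ℝ) + 1) ≤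
      ∑ i ∈ range K, (1 + 2 * s) * ∫ x in p i..p (i + 1), r x ^ 2 := by
    refine sum_le_sum fun i hi => ?_
    have hi' := mem_range.1 hi
    have e1 : vw th r p (i + 1) ^ 2 = (∫ x in p i..p (i + 1), r x) ^ 2 := by
      show (th * ∫ x in p i..p (i + 1), r x) ^ 2 = _
      rw [mul_pow, sq th, hth, one_mul]
    have e2 := cs_cell h (hc.mono i hi')
    have e3 : 0 ≤ ∫ x in p i..p (i + 1), r x ^ 2 :=
      intervalIntegral.integral_nonneg (hc.mono i hi') fun x _ => sq_nonneg _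
    have e4 := mul_le_mul_of_nonneg_right (hc.c1 i hi') e3
    rw [e1]
    calc (∫ x in p i..p (i + 1), r x) ^ 2 * (2 * (J (i + 1) : ℝ) + 1)
        ≤ ((p (i + 1) - p i) * ∫ x in p i..p (i + 1), r x ^ 2) * (2 * (J (i + 1) : ℝ) + 1) :=
          mul_le_mul_of_nonneg_right e2 (by positivity)
      _ = (2 * (J (i + 1) : ℝ) + 1) * (p (i + 1) - p i) * ∫ x in p i..p (i + 1), r x ^ 2 := by ring
      _ ≤ _ := e4
  rw [← mul_sum] at h1
  have h2 := mul_le_mul_of_nonneg_left (hc.sum_le h.i2 fun x => sq_nonneg _)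
    (by positivity : 0 ≤ 1 + 2 * s)
  have h3 : vw th r p 0 ^ 2 * (2 * (J 0 : ℝ) + 1) = 2 * n + 1 := by
    have : vw th r p 0 = 1 := rfl
    rw [this, hc.J0]
    ring
  rw [h3]
  linarith

/-- the transform of the trial weights -/
def SS (th : ℝ) (r : ℝ → ℝ) (p : ℕ → ℝ) (K : ℕ) (k : ℝ) : ℂ :=
  ∑ i ∈ range (K + 1), (vw th r p i : ℂ) * cexp (I * k * p i)

theorem norm_SS_sq (k : ℝ) : ‖SS th r p K k‖ ^ 2 =
    ∑ i ∈ range (K + 1), ∑ l ∈ range (K + 1), vw th r p i * vw th r p l * Real.cos (k * (p i - p l)) := by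
  have e1 : (SS th r p K k).re = ∑ i ∈ range (K + 1), vw th r p i * Real.cos (k * p i) := by
    unfold SS
    rw [Complex.re_sum]
    refine sum_congr rfl fun i _ => ?_
    rw [Complex.re_ofReal_mul, show I * (k : ℂ) * (p i : ℂ) = ((k * p i : ℝ) : ℂ) * I by push_cast; ring,
      Complex.exp_ofReal_mul_I_re]
  have e2 : (SS th r p K k).im = ∑ i ∈ range (K + 1), vw th r p i * Real.sin (k * p i) := by
    unfold SS
    rw [Complex.im_sum]
    refine sum_congr rfl fun i _ => ?_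
    rw [Complex.im_ofReal_mul, show I * (k : ℂ) * (p i : ℂ) = ((k * p i : ℝ) : ℂ) * I by push_cast; ring,
      Complex.exp_ofReal_mul_I_im]
  rw [← Complex.normSq_eq_norm_sq, Complex.normSq_apply, e1, e2, sum_mul_sum, sum_mul_sum,
    ← sum_add_distrib]
  refine sum_congr rfl fun i _ => ?_
  rw [← sum_add_distrib]
  refine sum_congr rfl fun l _ => ?_
  rw [mul_sub, Real.cos_sub]
  ring

/-- the sum over the cells and the integral -/
theorem Cells.SS_sub (hc : Cells th n K J p s) (hth : |th| = 1) (h : RhoD th r C) (k : ℝ) :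
    ‖SS th r p K k - (1 + (th : ℂ) * ∫ x, (r x : ℂ) * cexp (I * k * x))‖ ≤
      3 * s * (1 + |k|) * ∫ x, |r x| * Real.exp x := by
  have hs := hc.s0
  have hcont : Continuous fun x : ℝ => cexp (I * k * x) := by fun_prop
  have hn1 : ∀ x : ℝ, ‖cexp (I * k * x)‖ = 1 := by
    intro x
    rw [show I * (k : ℂ) * (x : ℂ) = ((k * x : ℝ) : ℂ) * I by push_cast; ring,
      Complex.norm_exp_ofReal_mul_I]
  have iF : Integrable fun x => (r x : ℂ) * cexp (I * k * x) := by
    have h1 := (h.i0.ofReal (𝕜 := ℂ)).mul_bdd (c := 1) hcont.aestronglyMeasurable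
      (Eventually.of_forall fun x => (hn1 x).le)
    exact h1
  have i1 : ∀ c : ℝ, Integrable fun x => (r x : ℂ) * cexp (I * k * c) := fun c =>
    (h.i0.ofReal (𝕜 := ℂ)).mul_const _
  have hpK : 0 ≤ p K := hc.nonneg K le_rfl
  -- split of the integral
  have e1 : ∫ x, (r x : ℂ) * cexp (I * k * x) =
      (∑ i ∈ range K, ∫ x in p i..p (i + 1), (r x : ℂ) * cexp (I * k * x)) +
        ∫ x in Set.Ioi (p K), (r x : ℂ) * cexp (I * k * x) := by
    rw [intervalIntegral.sum_integral_adjacent_intervals fun i _ => iF.intervalIntegrable, hc.p0,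
      intervalIntegral.integral_interval_add_Ioi iF.integrableOn iF.integrableOn]
    refine (setIntegral_eq_integral_of_forall_compl_eq_zero fun x hx => ?_).symm
    rw [h.z x (by simpa using hx)]
    simp
  have e2 : SS th r p K k = 1 + (th : ℂ) * ∑ i ∈ range K,
      ∫ x in p i..p (i + 1), (r x : ℂ) * cexp (I * k * (p (i + 1) : ℝ)) := by
    unfold SS
    rw [sum_range_succ', add_comm, mul_sum]
    congr 1
    · rw [hc.p0]
      simp [vw]
    · refine sum_congr rfl fun i _ => ?_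
      rw [intervalIntegral.integral_mul_const, intervalIntegral.integral_ofReal]
      show ((th * ∫ x in p i..p (i + 1), r x : ℝ) : ℂ) * _ = _
      push_cast
      ring
  have e3 : SS th r p K k - (1 + (th : ℂ) * ∫ x, (r x : ℂ) * cexp (I * k * x)) =
      (th : ℂ) * ((∑ i ∈ range K, ∫ x in p i..p (i + 1), (r x : ℂ) *
        (cexp (I * k * (p (i + 1) : ℝ)) - cexp (I * k * x))) -
        ∫ x in Set.Ioi (p K), (r x : ℂ) * cexp (I * k * x)) := by
    rw [e1, e2]
    have : ∀ i ∈ range K, (∫ x in p i..p (i + 1), (r x : ℂ) *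
        (cexp (I * k * (p (i + 1) : ℝ)) - cexp (I * k * x))) =
        (∫ x in p i..p (i + 1), (r x : ℂ) * cexp (I * k * (p (i + 1) : ℝ))) -
          ∫ x in p i..p (i + 1), (r x : ℂ) * cexp (I * k * x) := by
      intro i _
      rw [← intervalIntegral.integral_sub (i1 (p (i + 1))).intervalIntegrable iF.intervalIntegrable]
      refine intervalIntegral.integral_congr fun x _ => ?_
      ring
    rw [sum_congr rfl this, sum_sub_distrib]
    ring
  have hcell : ∀ i ∈ range K, ‖∫ x in p i..p (i + 1), (r x : ℂ) *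
      (cexp (I * k * (p (i + 1) : ℝ)) - cexp (I * k * x))‖ ≤
      3 * s * |k| * ∫ x in p i..p (i + 1), |r x| * Real.exp x := by
    intro i hi
    have hi' := mem_range.1 hi
    have hm := hc.mono i hi'
    have h1 : ‖∫ x in p i..p (i + 1), (r x : ℂ) *
        (cexp (I * k * (p (i + 1) : ℝ)) - cexp (I * k * x))‖ ≤
        ∫ x in p i..p (i + 1), (3 * s * |k| * Real.exp (p i)) * |r x| := by
      refine intervalIntegral.norm_integral_le_of_norm_le hm
        (Eventually.of_forall fun x hx => ?_) (h.i0.abs.const_mul _).intervalIntegrable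
      rw [norm_mul, Complex.norm_real, Real.norm_eq_abs, mul_comm]
      refine mul_le_mul_of_nonneg_right ?_ (abs_nonneg _)
      have e : cexp (I * k * (p (i + 1) : ℝ)) - cexp (I * k * x) =
          cexp (I * k * x) * (cexp (I * ((k * (p (i + 1) - x) : ℝ) : ℂ)) - 1) := by
        rw [mul_sub, ← Complex.exp_add, mul_one]
        congr 2
        push_cast
        ring
      rw [e, norm_mul, hn1, one_mul]
      refine (Real.norm_exp_I_mul_ofReal_sub_one_le).trans ?_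
      rw [Real.norm_eq_abs, abs_mul, abs_of_nonneg (by linarith [hx.2] : 0 ≤ p (i + 1) - x)]
      have h2 := hc.c2 i hi'
      have h3 : p (i + 1) - x ≤ 3 * s * Real.exp (p i) := by linarith [hx.1]
      calc |k| * (p (i + 1) - x) ≤ |k| * (3 * s * Real.exp (p i)) :=
            mul_le_mul_of_nonneg_left h3 (abs_nonneg k)
        _ = _ := by ring
    refine h1.trans ?_
    rw [intervalIntegral.integral_const_mul]
    have h4 := hc.cell_exp h hi'
    calc 3 * s * |k| * Real.exp (p i) * ∫ x in p i..p (i + 1), |r x|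
        = 3 * s * |k| * (Real.exp (p i) * ∫ x in p i..p (i + 1), |r x|) := by ring
      _ ≤ _ := mul_le_mul_of_nonneg_left h4 (by positivity)
  have htail : ‖∫ x in Set.Ioi (p K), (r x : ℂ) * cexp (I * k * x)‖ ≤
      s * ∫ x, |r x| * Real.exp x := by
    have h1 : ‖∫ x in Set.Ioi (p K), (r x : ℂ) * cexp (I * k * x)‖ ≤
        ∫ x in Set.Ioi (p K), s * (|r x| * Real.exp x) := by
      refine norm_integral_le_of_norm_le (h.i1.const_mul s).integrableOn
        ((ae_restrict_iff' measurableSet_Ioi).2 (Eventually.of_forall fun x hx => ?_))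
      rw [norm_mul, hn1, mul_one, Complex.norm_real, Real.norm_eq_abs]
      have hx' : p K < x := hx
      have h2 : 1 ≤ s * Real.exp x := by
        have h3 : Real.exp (-(p K)) * Real.exp (p K) = 1 := by
          rw [← Real.exp_add]
          simp
        calc (1 : ℝ) = Real.exp (-(p K)) * Real.exp (p K) := h3.symm
          _ ≤ s * Real.exp x := mul_le_mul hc.c4 (Real.exp_le_exp.2 hx'.le) (Real.exp_pos _).le hs.le
      calc |r x| = |r x| * 1 := (mul_one _).symm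
        _ ≤ |r x| * (s * Real.exp x) := mul_le_mul_of_nonneg_left h2 (abs_nonneg _)
        _ = _ := by ring
    refine h1.trans ?_
    rw [integral_const_mul]
    refine mul_le_mul_of_nonneg_left ?_ hs.le
    exact setIntegral_le_integral h.i1 (Eventually.of_forall fun x => by positivity)
  have hR : 0 ≤ ∫ x, |r x| * Real.exp x := integral_nonneg fun x => by positivity
  rw [e3, norm_mul, Complex.norm_real, Real.norm_eq_abs, hth, one_mul]
  refine (norm_sub_le _ _).trans ?_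
  have hsum : ‖∑ i ∈ range K, ∫ x in p i..p (i + 1), (r x : ℂ) *
      (cexp (I * k * (p (i + 1) : ℝ)) - cexp (I * k * x))‖ ≤
      3 * s * |k| * ∫ x, |r x| * Real.exp x := by
    refine (norm_sum_le_of_le _ hcell).trans ?_
    rw [← mul_sum]
    exact mul_le_mul_of_nonneg_left (hc.sum_le h.i1 fun x => by positivity) (by positivity)
  have h9 : 0 ≤ s * ∫ x, |r x| * Real.exp x := by positivity
  nlinarith

theorem Cells.norm_SS (hc : Cells th n K J p s) (hth : |th| = 1) (h : RhoD th r C) (k : ℝ) :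
    ‖SS th r p K k‖ ≤ 1 + ∫ x, |r x| := by
  refine le_trans ?_ (hc.sum_abs hth h)
  unfold SS
  refine norm_sum_le_of_le _ fun i _ => ?_
  rw [norm_mul, Complex.norm_real, Real.norm_eq_abs,
    show I * (k : ℂ) * (p i : ℂ) = ((k * p i : ℝ) : ℂ) * I by push_cast; ring,
    Complex.norm_exp_ofReal_mul_I, mul_one]

theorem RhoD.norm_R (h : RhoD th r C) (hth : |th| = 1) (k : ℝ) :
    ‖1 + (th : ℂ) * ∫ x, (r x : ℂ) * cexp (I * k * x)‖ ≤ 1 + ∫ x, |r x| := by
  refine (norm_add_le _ _).trans ?_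
  rw [norm_one, norm_mul, Complex.norm_real, Real.norm_eq_abs, hth, one_mul]
  refine add_le_add le_rfl ((norm_integral_le_integral_norm _).trans (le_of_eq ?_))
  refine integral_congr_ae (Eventually.of_forall fun x => ?_)
  simp only []
  rw [norm_mul, Complex.norm_real, Real.norm_eq_abs,
    show I * (k : ℂ) * (x : ℂ) = ((k * x : ℝ) : ℂ) * I by push_cast; ring,
    Complex.norm_exp_ofReal_mul_I, mul_one]

theorem SS_cont (th : ℝ) (r : ℝ → ℝ) (p : ℕ → ℝ) (K : ℕ) : Continuous (SS th r p K) := by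
  unfold SS
  fun_prop

/-- the main term -/
theorem Cells.main (hc : Cells th n K J p s) (hth : th = 1 ∨ th = -1) (h : RhoD th r C) :
    Integrable (fun k => ‖SS th r p K k‖ ^ 2 * WW th k) ∧
    ∫ k, ‖SS th r p K k‖ ^ 2 * WW th k ≤ -(∫ k, (Real.exp (th * NUQ.gg k) - 1)) +
      6 * s * (∫ x, |r x| * Real.exp x) * (1 + ∫ x, |r x|) * ∫ k, (1 + |k|) * |WW th k| := by
  have hs := hc.s0
  obtain ⟨-, -, h3, -⟩ := th_cases hth
  obtain ⟨R1, hR1⟩ : ∃ R1, R1 = ∫ x, |r x| * Real.exp x := ⟨_, rfl⟩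
  obtain ⟨R0, hR0⟩ : ∃ R0, R0 = ∫ x, |r x| := ⟨_, rfl⟩
  have hR1n : 0 ≤ R1 := by rw [hR1]; exact integral_nonneg fun x => by positivity
  have hR0n : 0 ≤ R0 := by rw [hR0]; exact integral_nonneg fun x => by positivity
  have iW := WW_int hth
  have i1 : Integrable (fun k => ‖SS th r p K k‖ ^ 2 * WW th k) := by
    refine iW.bdd_mul (c := (1 + R0) ^ 2) (((SS_cont th r p K).norm.pow 2).aestronglyMeasurable)
      (Eventually.of_forall fun k => ?_)
    rw [Real.norm_eq_abs, abs_of_nonneg (by positivity)]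
    exact pow_le_pow_left₀ (norm_nonneg _) (by rw [hR0]; exact hc.norm_SS h3 h k) 2
  refine ⟨i1, ?_⟩
  have i2 : Integrable fun k => -(Real.exp (th * NUQ.gg k) - 1) := by
    have e : ∀ k, -(Real.exp (th * NUQ.gg k) - 1) = Real.exp (th * NUQ.gg k) * WW th k := by
      intro k
      unfold WW
      rw [mul_sub, ← Real.exp_add]
      simp
    simp only [e]
    have hb : ∀ k, |Real.exp (th * NUQ.gg k)| ≤ Real.exp 1 := by
      intro k
      rw [abs_of_pos (Real.exp_pos _)]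
      refine Real.exp_le_exp.2 ((le_abs_self _).trans ?_)
      rw [abs_mul, h3, one_mul, abs_of_nonneg (NUQ.gg_nonneg k)]
      exact NUQ.gg_le k
    exact iW.bdd_mul (c := Real.exp 1)
      (Real.continuous_exp.comp (continuous_const.mul NUQ.gg_cont)).aestronglyMeasurable
      (Eventually.of_forall fun k => hb k)
  have i3 : Integrable fun k => 6 * s * R1 * (1 + R0) * ((1 + |k|) * |WW th k|) :=
    (WW_int1 hth).const_mul _
  have key : ∀ k, ‖SS th r p K k‖ ^ 2 * WW th k ≤ -(Real.exp (th * NUQ.gg k) - 1) +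
      6 * s * R1 * (1 + R0) * ((1 + |k|) * |WW th k|) := by
    intro k
    obtain ⟨R, hR⟩ : ∃ R : ℂ, R = 1 + (th : ℂ) * ∫ x, (r x : ℂ) * cexp (I * k * x) := ⟨_, rfl⟩
    have f1 : ‖R‖ ^ 2 * WW th k = -(Real.exp (th * NUQ.gg k) - 1) := by
      rw [hR, h.f k]
      unfold WW
      rw [mul_sub, ← Real.exp_add]
      simp
    have f2 : ‖SS th r p K k - R‖ ≤ 3 * s * (1 + |k|) * R1 := by
      rw [hR, hR1]
      exact hc.SS_sub h3 h k
    have f3 : ‖SS th r p K k‖ ≤ 1 + R0 := by rw [hR0]; exact hc.norm_SS h3 h k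
    have f4 : ‖R‖ ≤ 1 + R0 := by rw [hR0, hR]; exact h.norm_R h3 k
    have f5 : |‖SS th r p K k‖ ^ 2 - ‖R‖ ^ 2| ≤ (3 * s * (1 + |k|) * R1) * (2 * (1 + R0)) := by
      have e : ‖SS th r p K k‖ ^ 2 - ‖R‖ ^ 2 = (‖SS th r p K k‖ - ‖R‖) *
          (‖SS th r p K k‖ + ‖R‖) := by ring
      rw [e, abs_mul]
      have g1 : |‖SS th r p K k‖ - ‖R‖| ≤ 3 * s * (1 + |k|) * R1 :=
        (abs_norm_sub_norm_le _ _).trans f2
      have g2 : |‖SS th r p K k‖ + ‖R‖| ≤ 2 * (1 + R0) := by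
        rw [abs_of_nonneg (by positivity)]
        linarith
      exact mul_le_mul g1 g2 (abs_nonneg _) (by positivity)
    have f6 : (‖SS th r p K k‖ ^ 2 - ‖R‖ ^ 2) * WW th k ≤
        ((3 * s * (1 + |k|) * R1) * (2 * (1 + R0))) * |WW th k| := by
      refine (le_abs_self _).trans ?_
      rw [abs_mul]
      exact mul_le_mul_of_nonneg_right f5 (abs_nonneg _)
    have e : ‖SS th r p K k‖ ^ 2 * WW th k = ‖R‖ ^ 2 * WW th k +
        (‖SS th r p K k‖ ^ 2 - ‖R‖ ^ 2) * WW th k := by ring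
    rw [e, f1]
    linarith
  have h8 := integral_mono i1 (i2.add i3) key
  have h9 : ∫ k, (-(Real.exp (th * NUQ.gg k) - 1) +
      6 * s * R1 * (1 + R0) * ((1 + |k|) * |WW th k|)) = -(∫ k, (Real.exp (th * NUQ.gg k) - 1)) +
      6 * s * R1 * (1 + R0) * ∫ k, (1 + |k|) * |WW th k| := by
    rw [integral_add i2 i3, integral_neg, integral_const_mul]
  rw [← hR1, ← hR0, ← h9]
  exact h8

end trial

/-- **the energy of the trial sum** -/
theorem energy_le {th : ℝ} (hth : th = 1 ∨ th = -1) {r : ℝ → ℝ} {C : ℝ} (h : RhoD th r C)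
    {CE : ℝ} (hCE : 0 ≤ CE) (hE : EBd th CE) : ∃ A : ℝ, 0 ≤ A ∧
    ∀ (n K : ℕ) (J : ℕ → ℕ) (p : ℕ → ℝ) (s : ℝ), Cells th n K J p s →
      (∫ k in Set.Ioi (0 : ℝ), NUQ.wf k * (∑ i ∈ range (K + 1), vw th r p i * aa (J i) k) ^ 2 *
        Real.exp (-(th * NUQ.gg k))) ≤ (2 * n + 1) + (-(th * (5 / 24)) + A * s) := by
  have hp := Real.pi_pos
  obtain ⟨-, -, h3, h4⟩ := th_cases hth
  obtain ⟨R1, hR1⟩ : ∃ R1, R1 = ∫ x, |r x| * Real.exp x := ⟨_, rfl⟩
  obtain ⟨R0, hR0⟩ : ∃ R0, R0 = ∫ x, |r x| := ⟨_, rfl⟩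
  obtain ⟨R2, hR2⟩ : ∃ R2, R2 = ∫ x, r x ^ 2 := ⟨_, rfl⟩
  obtain ⟨W1, hW1⟩ : ∃ W1, W1 = ∫ k, (1 + |k|) * |WW th k| := ⟨_, rfl⟩
  have hR1n : 0 ≤ R1 := by rw [hR1]; exact integral_nonneg fun x => by positivity
  have hR0n : 0 ≤ R0 := by rw [hR0]; exact integral_nonneg fun x => by positivity
  have hR2n : 0 ≤ R2 := by rw [hR2]; exact integral_nonneg fun x => sq_nonneg _
  have hW1n : 0 ≤ W1 := by rw [hW1]; exact integral_nonneg fun x => by positivity
  refine ⟨2 * R2 + 1 / (2 * Real.pi) * (6 * R1 * (1 + R0) * W1) + 2 * CE * (1 + R0) * (1 + 3 * R1),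
    by positivity, fun n K J p s hc => ?_⟩
  have hs := hc.s0
  obtain ⟨v, hv⟩ : ∃ v : ℕ → ℝ, v = vw th r p := ⟨_, rfl⟩
  rw [← hv]
  have hfc : Continuous fun k => Real.exp (-(th * NUQ.gg k)) :=
    Real.continuous_exp.comp (continuous_const.mul NUQ.gg_cont).neg
  have hfb : ∀ k, |Real.exp (-(th * NUQ.gg k))| ≤ Real.exp 1 := by
    intro k
    rw [abs_of_pos (Real.exp_pos _)]
    refine Real.exp_le_exp.2 ((le_abs_self _).trans ?_)
    rw [abs_neg, abs_mul, h3, one_mul, abs_of_nonneg (NUQ.gg_nonneg k)]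
    exact NUQ.gg_le k
  have hWb : ∀ k, |WW th k| ≤ 2 := fun k => (WW_le hth k).trans (by linarith [NUQ.gg_le k])
  -- expansion
  have e1 : ∫ k in Set.Ioi (0 : ℝ), NUQ.wf k * (∑ i ∈ range (K + 1), v i * aa (J i) k) ^ 2 *
      Real.exp (-(th * NUQ.gg k)) = ∑ i ∈ range (K + 1), ∑ l ∈ range (K + 1), v i * v l *
      ∫ k in Set.Ioi (0 : ℝ), NUQ.wf k * (aa (J i) k * aa (J l) k) * Real.exp (-(th * NUQ.gg k)) := by
    have e : ∀ k, NUQ.wf k * (∑ i ∈ range (K + 1), v i * aa (J i) k) ^ 2 *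
        Real.exp (-(th * NUQ.gg k)) = ∑ i ∈ range (K + 1), ∑ l ∈ range (K + 1), v i * v l *
        (NUQ.wf k * (aa (J i) k * aa (J l) k) * Real.exp (-(th * NUQ.gg k))) := by
      intro k
      rw [sq, sum_mul_sum, mul_sum, sum_mul]
      refine sum_congr rfl fun i _ => ?_
      rw [mul_sum, sum_mul]
      exact sum_congr rfl fun l _ => by ring
    simp only [e]
    rw [integral_finsetSum _ fun i _ => integrable_finsetSum _ fun l _ =>
      (aa_int (J i) (J l) hfc hfb).const_mul _]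
    refine sum_congr rfl fun i _ => ?_
    rw [integral_finsetSum _ fun l _ => (aa_int (J i) (J l) hfc hfb).const_mul _]
    exact sum_congr rfl fun l _ => integral_const_mul _ _
  have e2 : ∀ i l, ∫ k in Set.Ioi (0 : ℝ), NUQ.wf k * (aa i k * aa l k) *
      Real.exp (-(th * NUQ.gg k)) = (if i = l then (2 * i + 1 : ℝ) else 0) +
      ∫ k in Set.Ioi (0 : ℝ), NUQ.wf k * (aa i k * aa l k) * WW th k := by
    intro i l
    rw [← aa_orth i l]
    have j1 := aa_int i l (f := fun _ => 1) continuous_const (B := 1) (fun k => by simp)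
    simp only [mul_one] at j1
    rw [← integral_add j1 (aa_int i l (WW_cont th) hWb)]
    congr 1
    funext k
    unfold WW
    ring
  have e3 : ∑ i ∈ range (K + 1), ∑ l ∈ range (K + 1), v i * v l *
      (if J i = J l then (2 * (J i : ℝ) + 1) else 0) =
      ∑ i ∈ range (K + 1), v i ^ 2 * (2 * (J i : ℝ) + 1) := by
    refine sum_congr rfl fun i hi => ?_
    rw [sum_eq_single i]
    · rw [if_pos rfl]
      ring
    · intro l hl hne
      rw [if_neg, mul_zero]
      intro hJ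
      exact hne (hc.inj i (by have := mem_range.1 hi; omega) l
        (by have := mem_range.1 hl; omega) hJ).symm
    · intro hni
      exact absurd hi hni
  -- the entries
  have e4 : ∀ i ∈ range (K + 1), ∀ l ∈ range (K + 1), v i * v l *
      (∫ k in Set.Ioi (0 : ℝ), NUQ.wf k * (aa (J i) k * aa (J l) k) * WW th k) ≤
      v i * v l * (1 / (2 * Real.pi) * ∫ k, Real.cos (k * (p i - p l)) * WW th k) +
      |v i| * |v l| * (CE * (1 / Real.sqrt (4 * (J i : ℝ) + 2) + 1 / Real.sqrt (4 * (J l : ℝ) + 2))) := by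
    intro i hi l hl
    have hb := hE (J i) (J l)
    have hpi := hc.pos i (by have := mem_range.1 hi; omega)
    have hpl := hc.pos l (by have := mem_range.1 hl; omega)
    have hcos : ∀ k : ℝ, Real.cos (k / 2 * Real.log ((4 * (J i : ℝ) + 2) / (4 * J l + 2))) =
        Real.cos (k * (p i - p l)) := by
      intro k
      have a1 : (0 : ℝ) < 2 * (J i : ℝ) + 1 := by positivity
      have a2 : (0 : ℝ) < 2 * (J l : ℝ) + 1 := by positivity
      have a3 : (0 : ℝ) < 2 * (n : ℝ) + 1 := by positivity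
      rw [Real.log_div a1.ne' a3.ne'] at hpi
      rw [Real.log_div a2.ne' a3.ne'] at hpl
      have a4 : Real.log ((4 * (J i : ℝ) + 2) / (4 * J l + 2)) =
          Real.log (2 * (J i : ℝ) + 1) - Real.log (2 * (J l : ℝ) + 1) := by
        rw [← Real.log_div a1.ne' a2.ne']
        congr 1
        field_simp
        ring
      rw [a4]
      have a5 : k / 2 * (Real.log (2 * (J i : ℝ) + 1) - Real.log (2 * (J l : ℝ) + 1)) =
          th * (k * (p i - p l)) := by
        linear_combination k * hpi - k * hpl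
      rw [a5]
      rcases hth with rfl | rfl
      · rw [one_mul]
      · rw [neg_one_mul, Real.cos_neg]
    simp only [hcos] at hb
    have b1 := abs_le.1 hb
    obtain ⟨x, hx⟩ : ∃ x, x = ∫ k in Set.Ioi (0 : ℝ), NUQ.wf k * (aa (J i) k * aa (J l) k) * WW th k :=
      ⟨_, rfl⟩
    obtain ⟨y, hy⟩ : ∃ y, y = 1 / (2 * Real.pi) * ∫ k, Real.cos (k * (p i - p l)) * WW th k :=
      ⟨_, rfl⟩
    rw [← hx, ← hy] at hb ⊢
    have b2 : v i * v l * (x - y) ≤ |v i| * |v l| * |x - y| := by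
      rw [← abs_mul, ← abs_mul]
      exact le_abs_self _
    have b3 := mul_le_mul_of_nonneg_left hb (by positivity : 0 ≤ |v i| * |v l|)
    linarith
  have e5 : ∑ i ∈ range (K + 1), ∑ l ∈ range (K + 1), v i * v l *
      (1 / (2 * Real.pi) * ∫ k, Real.cos (k * (p i - p l)) * WW th k) =
      1 / (2 * Real.pi) * ∫ k, ‖SS th r p K k‖ ^ 2 * WW th k := by
    have ic : ∀ i l, Integrable fun k => Real.cos (k * (p i - p l)) * WW th k := fun i l =>
      (WW_int hth).bdd_mul (c := 1) (by fun_prop) (Eventually.of_forall fun k => by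
        rw [Real.norm_eq_abs]
        exact Real.abs_cos_le_one _)
    have e : ∀ k, ‖SS th r p K k‖ ^ 2 * WW th k = ∑ i ∈ range (K + 1), ∑ l ∈ range (K + 1),
        v i * v l * (Real.cos (k * (p i - p l)) * WW th k) := by
      intro k
      rw [norm_SS_sq, sum_mul, hv]
      refine sum_congr rfl fun i _ => ?_
      rw [sum_mul]
      exact sum_congr rfl fun l _ => by ring
    simp only [e]
    rw [integral_finsetSum _ fun i _ => integrable_finsetSum _ fun l _ => (ic i l).const_mul _,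
      mul_sum]
    refine sum_congr rfl fun i _ => ?_
    rw [integral_finsetSum _ fun l _ => (ic i l).const_mul _, mul_sum]
    refine sum_congr rfl fun l _ => ?_
    rw [integral_const_mul]
    ring
  have e6 : ∑ i ∈ range (K + 1), ∑ l ∈ range (K + 1), |v i| * |v l| *
      (CE * (1 / Real.sqrt (4 * (J i : ℝ) + 2) + 1 / Real.sqrt (4 * (J l : ℝ) + 2))) =
      2 * CE * ((∑ i ∈ range (K + 1), |v i|) *
        ∑ i ∈ range (K + 1), |v i| * (1 / Real.sqrt (4 * (J i : ℝ) + 2))) := by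
    have e : ∀ i l, |v i| * |v l| *
        (CE * (1 / Real.sqrt (4 * (J i : ℝ) + 2) + 1 / Real.sqrt (4 * (J l : ℝ) + 2))) =
        CE * ((|v i| * (1 / Real.sqrt (4 * (J i : ℝ) + 2))) * |v l|) +
        CE * (|v i| * (|v l| * (1 / Real.sqrt (4 * (J l : ℝ) + 2)))) := fun i l => by ring
    simp only [e, sum_add_distrib, ← mul_sum, ← sum_mul]
    ring
  have s1 := hc.sum_sq h4 h
  have s2 := (hc.main hth h).2
  have s3 := hc.sum_abs h3 h
  have s4 := hc.sum_M h3 h
  rw [← hv] at s1 s3 s4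
  rw [← hR0] at s2 s3
  rw [← hR1] at s2 s4
  rw [← hR2] at s1
  rw [← hW1] at s2
  have hn := h.n
  rw [← hR2] at hn
  have t1 : (∑ i ∈ range (K + 1), |v i|) *
      (∑ i ∈ range (K + 1), |v i| * (1 / Real.sqrt (4 * (J i : ℝ) + 2))) ≤
      (1 + R0) * (s * (1 + 3 * R1)) :=
    mul_le_mul s3 s4 (sum_nonneg fun i _ => by positivity) (by positivity)
  have t2 := mul_le_mul_of_nonneg_left t1 (by positivity : 0 ≤ 2 * CE)
  have t3 := mul_le_mul_of_nonneg_left s2 (by positivity : 0 ≤ 1 / (2 * Real.pi))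
  have t4 : ∑ i ∈ range (K + 1), ∑ l ∈ range (K + 1), v i * v l *
      (∫ k in Set.Ioi (0 : ℝ), NUQ.wf k * (aa (J i) k * aa (J l) k) * Real.exp (-(th * NUQ.gg k))) ≤
      (∑ i ∈ range (K + 1), v i ^ 2 * (2 * (J i : ℝ) + 1)) +
      1 / (2 * Real.pi) * (∫ k, ‖SS th r p K k‖ ^ 2 * WW th k) +
      2 * CE * ((∑ i ∈ range (K + 1), |v i|) *
        ∑ i ∈ range (K + 1), |v i| * (1 / Real.sqrt (4 * (J i : ℝ) + 2))) := by
    rw [← e3, ← e5, ← e6, ← sum_add_distrib, ← sum_add_distrib]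
    refine sum_le_sum fun i hi => ?_
    rw [← sum_add_distrib, ← sum_add_distrib]
    refine sum_le_sum fun l hl => ?_
    rw [e2]
    have := e4 i hi l hl
    rw [mul_add]
    linarith
  rw [e1]
  refine t4.trans ?_
  have t5 : 1 / (2 * Real.pi) * (-(∫ k, (Real.exp (th * NUQ.gg k) - 1)) +
      6 * s * R1 * (1 + R0) * W1) = -(1 / (2 * Real.pi) * ∫ k, (Real.exp (th * NUQ.gg k) - 1)) +
      s * (1 / (2 * Real.pi) * (6 * R1 * (1 + R0) * W1)) := by ring
  rw [t5] at t3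
  nlinarith

/-! ### the two discretisations -/

theorem exp_half_log {x : ℝ} (hx : 0 < x) : Real.exp (1 / 2 * Real.log x) = Real.sqrt x := by
  rw [show 1 / 2 * Real.log x = Real.log x / 2 by ring, Real.exp_half, Real.exp_log hx]

theorem half_log_le {x : ℝ} (hx : 0 < x) : 1 / 2 * Real.log (1 + 2 / x) ≤ 1 / x := by
  have h := Real.log_le_sub_one_of_pos (by positivity : 0 < 1 + 2 / x)
  have e : 2 / x = 2 * (1 / x) := by ring
  rw [e] at h ⊢
  linarith

theorem s_le {x : ℝ} (hx : 1 ≤ x) : 1 / x ≤ 1 / Real.sqrt x := by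
  have h1 : Real.sqrt x ≤ x := by
    rw [Real.sqrt_le_left (by linarith)]
    nlinarith
  exact one_div_le_one_div_of_le (Real.sqrt_pos.2 (by linarith)) h1

/-- downwards -/
theorem cells_neg (n : ℕ) : Cells (-1) n n (fun i => n - i)
    (fun i => 1 / 2 * Real.log ((2 * n + 1) / (2 * ((n - i : ℕ) : ℝ) + 1)))
    (1 / Real.sqrt (2 * n + 1)) := by
  have hn : (0 : ℝ) < 2 * n + 1 := by positivity
  have hsq : 0 < Real.sqrt (2 * n + 1) := Real.sqrt_pos.2 hn
  have step : ∀ i < n, ∃ j : ℕ, n - (i + 1) = j ∧ n - i = j + 1 := fun i hi =>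
    ⟨n - (i + 1), rfl, by omega⟩
  have hd : ∀ i < n, 1 / 2 * Real.log ((2 * n + 1) / (2 * ((n - (i + 1) : ℕ) : ℝ) + 1)) -
      1 / 2 * Real.log ((2 * n + 1) / (2 * ((n - i : ℕ) : ℝ) + 1)) =
      1 / 2 * Real.log (1 + 2 / (2 * ((n - (i + 1) : ℕ) : ℝ) + 1)) := by
    intro i hi
    obtain ⟨j, h1, h2⟩ := step i hi
    rw [h1, h2]
    have hj : (0 : ℝ) < 2 * j + 1 := by positivity
    have hj' : (0 : ℝ) < 2 * ((j + 1 : ℕ) : ℝ) + 1 := by positivity
    have e : 1 + 2 / (2 * (j : ℝ) + 1) = (2 * ((j + 1 : ℕ) : ℝ) + 1) / (2 * j + 1) := by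
      push_cast
      field_simp
      ring
    rw [e, Real.log_div hn.ne' hj.ne', Real.log_div hn.ne' hj'.ne', Real.log_div hj'.ne' hj.ne']
    ring
  have hexp : ∀ i < n, 1 / Real.sqrt (2 * n + 1) *
      Real.exp (1 / 2 * Real.log ((2 * n + 1) / (2 * ((n - i : ℕ) : ℝ) + 1))) =
      1 / Real.sqrt (2 * ((n - i : ℕ) : ℝ) + 1) := by
    intro i hi
    rw [exp_half_log (by positivity), Real.sqrt_div hn.le]
    field_simp
  refine ⟨by positivity, s_le (by linarith [(Nat.cast_nonneg n : (0 : ℝ) ≤ n)]), ?_, by simp, ?_, ?_,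
    ?_, ?_, ?_, ?_, ?_, ?_⟩
  · simp only [Nat.sub_zero]
    rw [div_self hn.ne', Real.log_one, mul_zero]
  · intro i hi
    have h := hd i hi
    have h2 : 0 ≤ 1 / 2 * Real.log (1 + 2 / (2 * ((n - (i + 1) : ℕ) : ℝ) + 1)) := by
      refine mul_nonneg (by norm_num) (Real.log_nonneg ?_)
      have : 0 ≤ 2 / (2 * ((n - (i + 1) : ℕ) : ℝ) + 1) := by positivity
      linarith
    linarith
  · intro i hi
    show (2 * ((n - (i + 1) : ℕ) : ℝ) + 1) * (_ - _) ≤ _
    rw [hd i hi]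
    have hx : (0 : ℝ) < 2 * ((n - (i + 1) : ℕ) : ℝ) + 1 := by positivity
    have h := mul_le_mul_of_nonneg_left (half_log_le hx) hx.le
    have h2 : (2 * ((n - (i + 1) : ℕ) : ℝ) + 1) * (1 / (2 * ((n - (i + 1) : ℕ) : ℝ) + 1)) = 1 := by
      field_simp
    rw [h2] at h
    have h3 : 0 ≤ 2 * (1 / Real.sqrt (2 * n + 1)) := by positivity
    linarith
  · intro i hi
    show _ - _ ≤ _
    rw [hd i hi, mul_assoc, hexp i hi]
    obtain ⟨j, h1, h2⟩ := step i hi
    rw [h1, h2]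
    have hj : (0 : ℝ) ≤ j := Nat.cast_nonneg j
    refine (half_log_le (by positivity)).trans ?_
    push_cast
    have h3 : Real.sqrt (2 * (j + 1) + 1) ≤ 3 * (2 * j + 1) := by
      rw [Real.sqrt_le_left (by positivity)]
      nlinarith
    rw [mul_one_div, div_le_div_iff₀ (by positivity) (by positivity)]
    linarith
  · intro i hi
    show 1 / Real.sqrt (4 * ((n - (i + 1) : ℕ) : ℝ) + 2) ≤ _
    rw [mul_assoc, hexp i hi]
    obtain ⟨j, h1, h2⟩ := step i hi
    rw [h1, h2]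
    have hj : (0 : ℝ) ≤ j := Nat.cast_nonneg j
    push_cast
    have h3 : Real.sqrt (2 * (j + 1) + 1) ≤ 3 * Real.sqrt (4 * j + 2) := by
      rw [Real.sqrt_le_left (by positivity), mul_pow, Real.sq_sqrt (by positivity)]
      nlinarith
    rw [mul_one_div, div_le_div_iff₀ (by positivity) (by positivity)]
    linarith
  · exact one_div_le_one_div_of_le hsq (Real.sqrt_le_sqrt (by linarith [(Nat.cast_nonneg n : (0 : ℝ) ≤ n)]))
  · have e : (2 * (n : ℝ) + 1) / (2 * ((n - n : ℕ) : ℝ) + 1) = 2 * n + 1 := by simp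
    show Real.exp (-(1 / 2 * Real.log ((2 * n + 1) / (2 * ((n - n : ℕ) : ℝ) + 1)))) ≤ _
    rw [e, Real.exp_neg, exp_half_log hn, one_div]
  · intro i hi
    have hj : (0 : ℝ) < 2 * ((n - i : ℕ) : ℝ) + 1 := by positivity
    show 1 / 2 * Real.log ((2 * ((n - i : ℕ) : ℝ) + 1) / (2 * n + 1)) = _
    rw [Real.log_div hj.ne' hn.ne', Real.log_div hn.ne' hj.ne']
    ring
  · intro i hi l hl h
    have h' : n - i = n - l := h
    omega

/-- upwards -/
theorem cells_pos (n : ℕ) : Cells 1 n (2 * n ^ 2 + n) (fun i => n + i)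
    (fun i => 1 / 2 * Real.log ((2 * ((n + i : ℕ) : ℝ) + 1) / (2 * n + 1)))
    (1 / Real.sqrt (2 * n + 1)) := by
  have hn : (0 : ℝ) < 2 * n + 1 := by positivity
  have hn0 : (0 : ℝ) ≤ n := Nat.cast_nonneg n
  have hsq : 0 < Real.sqrt (2 * n + 1) := Real.sqrt_pos.2 hn
  have hd : ∀ i : ℕ, 1 / 2 * Real.log ((2 * ((n + (i + 1) : ℕ) : ℝ) + 1) / (2 * n + 1)) -
      1 / 2 * Real.log ((2 * ((n + i : ℕ) : ℝ) + 1) / (2 * n + 1)) =
      1 / 2 * Real.log (1 + 2 / (2 * ((n + i : ℕ) : ℝ) + 1)) := by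
    intro i
    have hj : (0 : ℝ) < 2 * ((n + i : ℕ) : ℝ) + 1 := by positivity
    have hj' : (0 : ℝ) < 2 * ((n + (i + 1) : ℕ) : ℝ) + 1 := by positivity
    have e : 1 + 2 / (2 * ((n + i : ℕ) : ℝ) + 1) =
        (2 * ((n + (i + 1) : ℕ) : ℝ) + 1) / (2 * ((n + i : ℕ) : ℝ) + 1) := by
      push_cast at hj ⊢
      field_simp
      ring
    rw [e, Real.log_div hj'.ne' hn.ne', Real.log_div hj.ne' hn.ne', Real.log_div hj'.ne' hj.ne']
    ring
  have hp0 : ∀ i : ℕ, 0 ≤ 1 / 2 * Real.log ((2 * ((n + i : ℕ) : ℝ) + 1) / (2 * n + 1)) := by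
    intro i
    refine mul_nonneg (by norm_num) (Real.log_nonneg ?_)
    rw [le_div_iff₀ hn]
    push_cast
    have : (0 : ℝ) ≤ i := Nat.cast_nonneg i
    linarith
  have hse : ∀ i : ℕ, 1 / Real.sqrt (2 * n + 1) ≤ 3 * (1 / Real.sqrt (2 * n + 1)) *
      Real.exp (1 / 2 * Real.log ((2 * ((n + i : ℕ) : ℝ) + 1) / (2 * n + 1))) := by
    intro i
    have h1 := Real.one_le_exp (hp0 i)
    have h2 : 0 < 1 / Real.sqrt (2 * n + 1) := by positivity
    nlinarith
  have hli : ∀ i : ℕ, 1 / (2 * ((n + i : ℕ) : ℝ) + 1) ≤ 1 / Real.sqrt (2 * n + 1) := by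
    intro i
    refine le_trans ?_ (s_le (by linarith : (1 : ℝ) ≤ 2 * n + 1))
    refine one_div_le_one_div_of_le hn ?_
    push_cast
    have : (0 : ℝ) ≤ i := Nat.cast_nonneg i
    linarith
  refine ⟨by positivity, s_le (by linarith), ?_, by simp, ?_, ?_, ?_, ?_, ?_, ?_, ?_, ?_⟩
  · simp only [Nat.add_zero]
    rw [div_self hn.ne', Real.log_one, mul_zero]
  · intro i hi
    have h := hd i
    have h2 : 0 ≤ 1 / 2 * Real.log (1 + 2 / (2 * ((n + i : ℕ) : ℝ) + 1)) := by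
      refine mul_nonneg (by norm_num) (Real.log_nonneg ?_)
      have : 0 ≤ 2 / (2 * ((n + i : ℕ) : ℝ) + 1) := by positivity
      linarith
    linarith
  · intro i hi
    show (2 * ((n + (i + 1) : ℕ) : ℝ) + 1) * (_ - _) ≤ _
    rw [hd i]
    have hx : (0 : ℝ) < 2 * ((n + i : ℕ) : ℝ) + 1 := by positivity
    have h := mul_le_mul_of_nonneg_left (half_log_le hx)
      (by positivity : (0 : ℝ) ≤ 2 * ((n + (i + 1) : ℕ) : ℝ) + 1)
    have h2 : (2 * ((n + (i + 1) : ℕ) : ℝ) + 1) * (1 / (2 * ((n + i : ℕ) : ℝ) + 1)) =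
        1 + 2 * (1 / (2 * ((n + i : ℕ) : ℝ) + 1)) := by
      push_cast at hx ⊢
      field_simp
      ring
    rw [h2] at h
    have h3 := hli i
    linarith
  · intro i hi
    show _ - _ ≤ _
    rw [hd i]
    exact (half_log_le (by positivity)).trans ((hli i).trans (hse i))
  · intro i hi
    show 1 / Real.sqrt (4 * ((n + (i + 1) : ℕ) : ℝ) + 2) ≤ _
    refine le_trans ?_ (hse i)
    refine one_div_le_one_div_of_le hsq (Real.sqrt_le_sqrt ?_)
    push_cast
    have : (0 : ℝ) ≤ i := Nat.cast_nonneg i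
    linarith
  · exact one_div_le_one_div_of_le hsq (Real.sqrt_le_sqrt (by linarith))
  · have e : (2 * ((n + (2 * n ^ 2 + n) : ℕ) : ℝ) + 1) / (2 * n + 1) = 2 * n + 1 := by
      push_cast
      field_simp
      ring
    show Real.exp (-(1 / 2 * Real.log ((2 * ((n + (2 * n ^ 2 + n) : ℕ) : ℝ) + 1) / (2 * n + 1)))) ≤ _
    rw [e, Real.exp_neg, exp_half_log hn, one_div]
  · intro i hi
    rw [one_mul]
  · intro i hi l hl h
    have h' : n + i = n + l := h
    omega

/-! ### the ratio of determinants -/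

/-- the ratio -/
def rn (n : ℕ) : ℝ := (NUQ.Gm (n + 1)).det / (NUQ.Gm n).det

/-- **the variational bounds** (upper bound by polynomials `qq n +` lower, lower bound by `qq n +`
higher) -/
structure Var : Prop where
  pos : ∀ n, 0 < rn n
  up : ∀ (n : ℕ) (c : ℕ → ℝ), c n = 1 → rn n ≤ ∫ k in Set.Ioi (0 : ℝ), NUQ.wf k *
    (∑ j ∈ range (n + 1), c j * (NUQ.qq j).eval k) ^ 2 * Real.exp (NUQ.gg k)
  lo : ∀ (n N : ℕ) (c : ℕ → ℝ), c n = 1 → 1 / rn n ≤ ∫ k in Set.Ioi (0 : ℝ), NUQ.wf k *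
    (∑ i ∈ range (N + 1), c (n + i) * (NUQ.qq (n + i)).eval k) ^ 2 * Real.exp (-(NUQ.gg k))

/-- coefficients with respect to the orthonormal functions -/
theorem aa_coef (n j : ℕ) (w k : ℝ) : ((-1) ^ n / Real.sqrt (2 * n + 1)) * (w * aa j k) =
    (((-1) ^ n / Real.sqrt (2 * n + 1)) * ((-1) ^ j * Real.sqrt (2 * j + 1)) * w) *
      (NUQ.qq j).eval k := by
  rw [aa_qq]
  ring

theorem coef_one (n : ℕ) :
    ((-1 : ℝ) ^ n / Real.sqrt (2 * n + 1)) * ((-1) ^ n * Real.sqrt (2 * n + 1)) = 1 := by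
  have h2 : ((-1 : ℝ) ^ n) * (-1) ^ n = 1 := by
    rw [← mul_pow]
    norm_num
  have h1 : Real.sqrt (2 * n + 1) ≠ 0 := (Real.sqrt_pos.2 (by positivity)).ne'
  field_simp
  rw [← sq] at h2
  exact h2

theorem coef_sq (n : ℕ) (x : ℝ) :
    (((-1 : ℝ) ^ n / Real.sqrt (2 * n + 1)) * x) ^ 2 = x ^ 2 / (2 * n + 1) := by
  have h2 : ((-1 : ℝ) ^ n) ^ 2 = 1 := by
    rw [← pow_mul, mul_comm, pow_mul]
    norm_num
  rw [mul_pow, div_pow, h2, Real.sq_sqrt (by positivity)]
  ring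

/-- **upper bound of the ratio** -/
theorem rn_up (hV : Var) {CE : ℝ} (hCE : 0 ≤ CE) (hE : EBd (-1) CE) : ∃ A : ℝ, 0 ≤ A ∧
    ∀ n : ℕ, rn n ≤ 1 + (5 / 24 + A / Real.sqrt (2 * n + 1)) / (2 * n + 1) := by
  obtain ⟨r, C, hr⟩ := exists_RhoD (th := -1) (Or.inr rfl)
  obtain ⟨A, hA, key⟩ := energy_le (Or.inr rfl) hr hCE hE
  refine ⟨A, hA, fun n => ?_⟩
  obtain ⟨p, hp⟩ : ∃ p : ℕ → ℝ, p = fun i =>
    1 / 2 * Real.log ((2 * n + 1) / (2 * ((n - i : ℕ) : ℝ) + 1)) := ⟨_, rfl⟩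
  have hc := cells_neg n
  rw [← hp] at hc
  have h1 := key n n _ _ _ hc
  have h2 := hV.up n (fun j => ((-1) ^ n / Real.sqrt (2 * n + 1)) *
    ((-1) ^ j * Real.sqrt (2 * j + 1)) * vw (-1) r p (n - j)) (by
      simp only [Nat.sub_self]
      rw [coef_one]
      simp [vw])
  refine h2.trans ?_
  have hn : (0 : ℝ) < 2 * n + 1 := by positivity
  have e1 : ∀ k, NUQ.wf k * (∑ j ∈ range (n + 1), ((-1) ^ n / Real.sqrt (2 * n + 1)) *
      ((-1) ^ j * Real.sqrt (2 * j + 1)) * vw (-1) r p (n - j) * (NUQ.qq j).eval k) ^ 2 *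
      Real.exp (NUQ.gg k) = (NUQ.wf k * (∑ i ∈ range (n + 1), vw (-1) r p i * aa (n - i) k) ^ 2 *
        Real.exp (-(-1 * NUQ.gg k))) * (1 / (2 * n + 1)) := by
    intro k
    have e2 : ∑ j ∈ range (n + 1), ((-1) ^ n / Real.sqrt (2 * n + 1)) *
        ((-1) ^ j * Real.sqrt (2 * j + 1)) * vw (-1) r p (n - j) * (NUQ.qq j).eval k =
        ((-1) ^ n / Real.sqrt (2 * n + 1)) * ∑ i ∈ range (n + 1), vw (-1) r p i * aa (n - i) k := by
      rw [← sum_range_reflect (fun i => vw (-1) r p i * aa (n - i) k), mul_sum]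
      refine sum_congr rfl fun j hj => ?_
      have hj' : j ≤ n := by have := mem_range.1 hj; omega
      have e3 : n + 1 - 1 - j = n - j := by omega
      have e4 : n - (n - j) = j := by omega
      rw [e3, e4, aa_coef]
    rw [e2, coef_sq, show -(-1 * NUQ.gg k) = NUQ.gg k by ring]
    ring
  simp only [e1]
  rw [integral_mul_const]
  have h3 := mul_le_mul_of_nonneg_right h1 (by positivity : (0 : ℝ) ≤ 1 / (2 * n + 1))
  refine h3.trans (le_of_eq ?_)
  field_simp

/-- **lower bound of the ratio** -/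
theorem rn_lo (hV : Var) {CE : ℝ} (hCE : 0 ≤ CE) (hE : EBd 1 CE) : ∃ A : ℝ, 0 ≤ A ∧
    ∀ n : ℕ, 1 / rn n ≤ 1 + (-(5 / 24) + A / Real.sqrt (2 * n + 1)) / (2 * n + 1) := by
  obtain ⟨r, C, hr⟩ := exists_RhoD (th := 1) (Or.inl rfl)
  obtain ⟨A, hA, key⟩ := energy_le (Or.inl rfl) hr hCE hE
  refine ⟨A, hA, fun n => ?_⟩
  obtain ⟨p, hp⟩ : ∃ p : ℕ → ℝ, p = fun i =>
    1 / 2 * Real.log ((2 * ((n + i : ℕ) : ℝ) + 1) / (2 * n + 1)) := ⟨_, rfl⟩
  have hc := cells_pos n
  rw [← hp] at hc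
  have h1 := key n _ _ _ _ hc
  have h2 := hV.lo n (2 * n ^ 2 + n) (fun j => ((-1) ^ n / Real.sqrt (2 * n + 1)) *
    ((-1) ^ j * Real.sqrt (2 * j + 1)) * vw 1 r p (j - n)) (by
      simp only [Nat.sub_self]
      rw [coef_one]
      simp [vw])
  refine h2.trans ?_
  have hn : (0 : ℝ) < 2 * n + 1 := by positivity
  have e1 : ∀ k, NUQ.wf k * (∑ i ∈ range (2 * n ^ 2 + n + 1), ((-1) ^ n / Real.sqrt (2 * n + 1)) *
      ((-1) ^ (n + i) * Real.sqrt (2 * ((n + i : ℕ) : ℝ) + 1)) * vw 1 r p (n + i - n) *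
        (NUQ.qq (n + i)).eval k) ^ 2 *
      Real.exp (-(NUQ.gg k)) = (NUQ.wf k * (∑ i ∈ range (2 * n ^ 2 + n + 1), vw 1 r p i *
        aa (n + i) k) ^ 2 * Real.exp (-(1 * NUQ.gg k))) * (1 / (2 * n + 1)) := by
    intro k
    have e2 : ∑ i ∈ range (2 * n ^ 2 + n + 1), ((-1) ^ n / Real.sqrt (2 * n + 1)) *
        ((-1) ^ (n + i) * Real.sqrt (2 * ((n + i : ℕ) : ℝ) + 1)) * vw 1 r p (n + i - n) *
          (NUQ.qq (n + i)).eval k =
        ((-1) ^ n / Real.sqrt (2 * n + 1)) * ∑ i ∈ range (2 * n ^ 2 + n + 1), vw 1 r p i *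
          aa (n + i) k := by
      rw [mul_sum]
      refine sum_congr rfl fun i hi => ?_
      rw [Nat.add_sub_cancel_left, aa_coef]
    rw [e2, coef_sq, one_mul]
    ring
  simp only [e1]
  rw [integral_mul_const]
  have h3 := mul_le_mul_of_nonneg_right h1 (by positivity : (0 : ℝ) ≤ 1 / (2 * n + 1))
  refine h3.trans (le_of_eq ?_)
  field_simp

/-- **the logarithm of the ratio** -/
theorem log_rn (hV : Var) {CE : ℝ} (hCE : 0 ≤ CE) (h1 : EBd 1 CE) (h2 : EBd (-1) CE) :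
    ∃ C : ℝ, 0 ≤ C ∧ ∀ n : ℕ, |Real.log (rn n) - 5 / 24 / (2 * n + 1)| ≤
      C * ((n : ℝ) + 1) ^ (-(3 / 2) : ℝ) := by
  obtain ⟨A, hA, ha⟩ := rn_up hV hCE h2
  obtain ⟨B, hB, hb⟩ := rn_lo hV hCE h1
  refine ⟨max A B, le_max_of_le_left hA, fun n => ?_⟩
  have hn0 : (0 : ℝ) ≤ n := Nat.cast_nonneg n
  have hn : (0 : ℝ) < 2 * n + 1 := by positivity
  have hr := hV.pos n
  have k1 := Real.log_le_sub_one_of_pos hr
  have k2 := Real.log_le_sub_one_of_pos (one_div_pos.2 hr)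
  rw [Real.log_div one_ne_zero hr.ne', Real.log_one, zero_sub] at k2
  have e : ∀ X : ℝ, X / Real.sqrt (2 * n + 1) / (2 * n + 1) = X * (2 * n + 1) ^ (-(3 / 2) : ℝ) := by
    intro X
    have e1 : (2 * (n : ℝ) + 1) ^ (-(3 / 2) : ℝ) = (Real.sqrt (2 * n + 1) * (2 * n + 1))⁻¹ := by
      rw [Real.rpow_neg hn.le, Real.sqrt_eq_rpow, ← Real.rpow_add_one hn.ne']
      norm_num
    rw [e1]
    field_simp
  have m : (2 * (n : ℝ) + 1) ^ (-(3 / 2) : ℝ) ≤ ((n : ℝ) + 1) ^ (-(3 / 2) : ℝ) :=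
    Real.rpow_le_rpow_of_nonpos (by positivity) (by linarith) (by norm_num)
  have m0 : 0 ≤ (2 * (n : ℝ) + 1) ^ (-(3 / 2) : ℝ) := by positivity
  have b1 : A * (2 * (n : ℝ) + 1) ^ (-(3 / 2) : ℝ) ≤ max A B * ((n : ℝ) + 1) ^ (-(3 / 2) : ℝ) :=
    mul_le_mul (le_max_left _ _) m m0 (le_max_of_le_left hA)
  have b2 : B * (2 * (n : ℝ) + 1) ^ (-(3 / 2) : ℝ) ≤ max A B * ((n : ℝ) + 1) ^ (-(3 / 2) : ℝ) :=
    mul_le_mul (le_max_right _ _) m m0 (le_max_of_le_left hA)
  have a1 := ha n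
  have a2 := hb n
  rw [add_div, e] at a1 a2
  rw [neg_div] at a2
  rw [abs_le]
  constructor <;> linarith

end SB

end
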