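import Mathlib

/-!
# Determinants of `1 + T`, `T` close to a homogeneous kernel: abstract part

`Hom T C p d` : `T` is symmetric, positive, `|T i j| ≤ C (rat i j) ^ p / √((i + 1) (j + 1))`, and
`T I J` is `T (I / l) (J / l) / l` up to the relative error `(l / (min I J + 1)) ^ d`.
-/

set_option autoImplicit false

open Finset

namespace SBA

/-- inner product of the first `N` entries -/
noncomputable def ip (N : ℕ) (x y : ℕ → ℝ) : ℝ := ∑ i ∈ range N, x i * y i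

/-- norm of the first `N` entries -/
noncomputable def nm (N : ℕ) (x : ℕ → ℝ) : ℝ := √(ip N x x)

theorem ip_self_nonneg (N : ℕ) (x : ℕ → ℝ) : 0 ≤ ip N x x :=
  sum_nonneg fun i _ => mul_self_nonneg _

theorem nm_nonneg (N : ℕ) (x : ℕ → ℝ) : 0 ≤ nm N x := Real.sqrt_nonneg _

theorem nm_sq (N : ℕ) (x : ℕ → ℝ) : nm N x ^ 2 = ip N x x := Real.sq_sqrt (ip_self_nonneg N x)

theorem ip_comm (N : ℕ) (x y : ℕ → ℝ) : ip N x y = ip N y x :=
  sum_congr rfl fun i _ => mul_comm _ _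

theorem ip_le (N : ℕ) (x y : ℕ → ℝ) : ip N x y ≤ nm N x * nm N y := by
  have h := Real.sum_mul_le_sqrt_mul_sqrt (range N) x y
  unfold nm ip
  simpa only [sq] using h

theorem ip_neg_left (N : ℕ) (x y : ℕ → ℝ) : ip N (fun i => -x i) y = -ip N x y := by
  unfold ip
  rw [← sum_neg_distrib]
  exact sum_congr rfl fun i _ => by ring

theorem nm_neg (N : ℕ) (x : ℕ → ℝ) : nm N (fun i => -x i) = nm N x := by
  unfold nm ip
  congr 1
  exact sum_congr rfl fun i _ => by ring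

theorem abs_ip_le (N : ℕ) (x y : ℕ → ℝ) : |ip N x y| ≤ nm N x * nm N y := by
  rw [abs_le]
  refine ⟨?_, ip_le N x y⟩
  have h := ip_le N (fun i => -x i) y
  rw [ip_neg_left, nm_neg] at h
  linarith

theorem nm_congr {N : ℕ} {x y : ℕ → ℝ} (h : ∀ i < N, x i = y i) : nm N x = nm N y := by
  unfold nm ip
  congr 1
  exact sum_congr rfl fun i hi => by rw [h i (mem_range.1 hi)]

theorem ip_congr {N : ℕ} {x y x' y' : ℕ → ℝ} (h : ∀ i < N, x i = x' i) (h' : ∀ i < N, y i = y' i) :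
    ip N x y = ip N x' y' :=
  sum_congr rfl fun i hi => by rw [h i (mem_range.1 hi), h' i (mem_range.1 hi)]

theorem nm_le_of_sq {N : ℕ} {x : ℕ → ℝ} {K : ℝ} (hK : 0 ≤ K) (h : ip N x x ≤ K ^ 2) : nm N x ≤ K :=
  Real.sqrt_le_iff.2 ⟨hK, h⟩

theorem nm_mono {N : ℕ} {x y : ℕ → ℝ} (h : ∀ i < N, |x i| ≤ |y i|) : nm N x ≤ nm N y := by
  unfold nm ip
  refine Real.sqrt_le_sqrt (sum_le_sum fun i hi => ?_)
  have := h i (mem_range.1 hi)
  rw [← abs_mul_abs_self (x i), ← abs_mul_abs_self (y i)]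
  exact mul_self_le_mul_self (abs_nonneg _) this

theorem nm_add_le (N : ℕ) (x y : ℕ → ℝ) : nm N (fun i => x i + y i) ≤ nm N x + nm N y := by
  refine nm_le_of_sq (add_nonneg (nm_nonneg _ _) (nm_nonneg _ _)) ?_
  have h1 : ip N (fun i => x i + y i) (fun i => x i + y i) = ip N x x + 2 * ip N x y + ip N y y := by
    unfold ip
    rw [mul_sum, ← sum_add_distrib, ← sum_add_distrib]
    exact sum_congr rfl fun i _ => by ring
  have h2 := ip_le N x y
  rw [h1, ← nm_sq, ← nm_sq]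
  nlinarith

theorem nm_sub_le (N : ℕ) (x y : ℕ → ℝ) : nm N (fun i => x i - y i) ≤ nm N x + nm N y := by
  have h := nm_add_le N x (fun i => -y i)
  rw [nm_neg] at h
  simpa only [sub_eq_add_neg] using h

theorem ip_add_left (N : ℕ) (x y z : ℕ → ℝ) : ip N (fun i => x i + y i) z = ip N x z + ip N y z := by
  unfold ip
  rw [← sum_add_distrib]
  exact sum_congr rfl fun i _ => by ring

theorem ip_sub_left (N : ℕ) (x y z : ℕ → ℝ) : ip N (fun i => x i - y i) z = ip N x z - ip N y z := by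
  unfold ip
  rw [← sum_sub_distrib]
  exact sum_congr rfl fun i _ => by ring

theorem ip_sub_right (N : ℕ) (x y z : ℕ → ℝ) : ip N z (fun i => x i - y i) = ip N z x - ip N z y := by
  rw [ip_comm, ip_sub_left, ip_comm N x, ip_comm N y]

/-- the quotient `min / max` -/
noncomputable def rat (i j : ℕ) : ℝ := (((min i j : ℕ) : ℝ) + 1) / (((max i j : ℕ) : ℝ) + 1)

theorem rat_pos (i j : ℕ) : 0 < rat i j := by unfold rat; positivity

theorem rat_le_one (i j : ℕ) : rat i j ≤ 1 := by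
  unfold rat
  rw [div_le_one (by positivity)]
  have : ((min i j : ℕ) : ℝ) ≤ ((max i j : ℕ) : ℝ) := by exact_mod_cast min_le_max
  linarith

theorem rat_comm (i j : ℕ) : rat i j = rat j i := by unfold rat; rw [min_comm, max_comm]

theorem rat_of_le {i j : ℕ} (h : i ≤ j) : rat i j = ((i : ℝ) + 1) / ((j : ℝ) + 1) := by
  unfold rat
  rw [min_eq_left h, max_eq_right h]

/-- the majorant -/
noncomputable def ker (p : ℝ) (i j : ℕ) : ℝ := rat i j ^ p / √(((i : ℝ) + 1) * ((j : ℝ) + 1))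

theorem ker_nonneg (p : ℝ) (i j : ℕ) : 0 ≤ ker p i j := by
  unfold ker
  have := rat_pos i j
  positivity

theorem ker_comm (p : ℝ) (i j : ℕ) : ker p i j = ker p j i := by
  unfold ker
  rw [rat_comm, mul_comm ((i : ℝ) + 1)]

theorem ker_anti {p q : ℝ} (h : p ≤ q) (i j : ℕ) : ker q i j ≤ ker p i j := by
  unfold ker
  refine div_le_div_of_nonneg_right ?_ (Real.sqrt_nonneg _)
  exact Real.rpow_le_rpow_of_exponent_ge (rat_pos i j) (rat_le_one i j) h

/-! ### the sums -/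

theorem step_low {p : ℝ} (h0 : 0 < p) (h1 : p ≤ 1) (k : ℕ) :
    ((k : ℝ) + 1) ^ (p - 1) ≤ (((k : ℝ) + 1) ^ p - (k : ℝ) ^ p) / p := by
  have hk : (0 : ℝ) < (k : ℝ) + 1 := by positivity
  have e1 : (k : ℝ) ^ p = ((k : ℝ) + 1) ^ p * (1 + -(1 / ((k : ℝ) + 1))) ^ p := by
    rw [← Real.mul_rpow hk.le]
    · congr 1
      field_simp
      ring
    · have : 1 / ((k : ℝ) + 1) ≤ 1 := by
        rw [div_le_one hk]
        linarith [(Nat.cast_nonneg k : (0 : ℝ) ≤ k)]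
      linarith
  have h2 : (1 + -(1 / ((k : ℝ) + 1))) ^ p ≤ 1 + p * -(1 / ((k : ℝ) + 1)) := by
    refine rpow_one_add_le_one_add_mul_self ?_ h0.le h1
    have : 1 / ((k : ℝ) + 1) ≤ 1 := by
      rw [div_le_one hk]
      linarith [(Nat.cast_nonneg k : (0 : ℝ) ≤ k)]
    linarith
  rw [le_div_iff₀ h0, e1, Real.rpow_sub_one hk.ne']
  have h3 : 0 < ((k : ℝ) + 1) ^ p := by positivity
  have h4 := mul_le_mul_of_nonneg_left h2 h3.le
  have e2 : ((k : ℝ) + 1) ^ p * (1 + p * -(1 / ((k : ℝ) + 1))) =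
      ((k : ℝ) + 1) ^ p - ((k : ℝ) + 1) ^ p / ((k : ℝ) + 1) * p := by
    field_simp
    ring
  linarith

theorem step_high {p : ℝ} (h0 : 0 < p) (h1 : p ≤ 1) (k : ℕ) :
    ((k : ℝ) + 2) ^ (-p) / ((k : ℝ) + 2) ≤ (((k : ℝ) + 1) ^ (-p) - ((k : ℝ) + 2) ^ (-p)) / p := by
  have hk : (0 : ℝ) < (k : ℝ) + 1 := by positivity
  have hk2 : (0 : ℝ) < (k : ℝ) + 2 := by positivity
  have e1 : ((k : ℝ) + 1) ^ p = ((k : ℝ) + 2) ^ p * (1 + -(1 / ((k : ℝ) + 2))) ^ p := by
    rw [← Real.mul_rpow hk2.le]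
    · congr 1
      field_simp
      ring
    · have : 1 / ((k : ℝ) + 2) ≤ 1 := by
        rw [div_le_one hk2]
        linarith [(Nat.cast_nonneg k : (0 : ℝ) ≤ k)]
      linarith
  have h2 : (1 + -(1 / ((k : ℝ) + 2))) ^ p ≤ 1 + p * -(1 / ((k : ℝ) + 2)) := by
    refine rpow_one_add_le_one_add_mul_self ?_ h0.le h1
    have : 1 / ((k : ℝ) + 2) ≤ 1 := by
      rw [div_le_one hk2]
      linarith [(Nat.cast_nonneg k : (0 : ℝ) ≤ k)]
    linarith
  set X : ℝ := p / ((k : ℝ) + 2) with hX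
  have hXp : 0 < X := by positivity
  have h2' : (1 + -(1 / ((k : ℝ) + 2))) ^ p * (1 + X) ≤ 1 := by
    have h3 : (1 + -(1 / ((k : ℝ) + 2))) ^ p ≤ 1 - X := by
      refine h2.trans (le_of_eq ?_)
      rw [hX]
      ring
    nlinarith
  have h5 : ((k : ℝ) + 1) ^ p * (1 + X) ≤ ((k : ℝ) + 2) ^ p := by
    rw [e1, mul_assoc]
    have : 0 < ((k : ℝ) + 2) ^ p := by positivity
    nlinarith
  have h6 : ((k : ℝ) + 2) ^ (-p) * (1 + X) ≤ ((k : ℝ) + 1) ^ (-p) := by
    rw [Real.rpow_neg hk.le, Real.rpow_neg hk2.le, inv_mul_le_iff₀ (by positivity),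
      ← div_eq_mul_inv, le_div_iff₀ (by positivity)]
    linarith
  rw [le_div_iff₀ h0]
  have e2 : ((k : ℝ) + 2) ^ (-p) / ((k : ℝ) + 2) * p = ((k : ℝ) + 2) ^ (-p) * X := by
    rw [hX]
    ring
  rw [e2]
  linarith

/-- sum below -/
theorem sum_low {p : ℝ} (h0 : 0 < p) (h1 : p ≤ 1) (n : ℕ) :
    ∑ j ∈ range n, ((j : ℝ) + 1) ^ (p - 1) ≤ (n : ℝ) ^ p / p := by
  induction n with
  | zero => simp [h0.ne']
  | succ n ih =>
    rw [sum_range_succ]
    have h2 := step_low h0 h1 n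
    push_cast
    calc _ ≤ (n : ℝ) ^ p / p + (((n : ℝ) + 1) ^ p - (n : ℝ) ^ p) / p := add_le_add ih h2
      _ = _ := by ring

/-- sum above -/
theorem sum_high {p : ℝ} (h0 : 0 < p) (h1 : p ≤ 1) (i n : ℕ) :
    ∑ j ∈ range n, ((i + j : ℝ) + 2) ^ (-p) / ((i + j : ℝ) + 2) ≤ ((i : ℝ) + 1) ^ (-p) / p := by
  have h2 : ∑ j ∈ range n, ((i + j : ℝ) + 2) ^ (-p) / ((i + j : ℝ) + 2) ≤
      (((i : ℝ) + 1) ^ (-p) - ((i + n : ℝ) + 1) ^ (-p)) / p := by
    induction n with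
    | zero => simp
    | succ n ih =>
      rw [sum_range_succ]
      have h3 := step_high h0 h1 (i + n)
      push_cast at h3 ⊢
      have e : (i : ℝ) + (n + 1) + 1 = (i : ℝ) + n + 2 := by ring
      rw [e]
      calc _ ≤ (((i : ℝ) + 1) ^ (-p) - ((i + n : ℝ) + 1) ^ (-p)) / p +
            (((i : ℝ) + n + 1) ^ (-p) - ((i : ℝ) + n + 2) ^ (-p)) / p := add_le_add ih h3
        _ = _ := by ring
  refine h2.trans ?_
  gcongr
  have : 0 < ((i + n : ℝ) + 1) ^ (-p) := by positivity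
  linarith

/-- **the Schur sum** -/
theorem kersum {p : ℝ} (h0 : 0 < p) (h1 : p ≤ 1) (i N : ℕ) :
    ∑ j ∈ range N, rat i j ^ p / ((j : ℝ) + 1) ≤ 2 / p := by
  have hi : (0 : ℝ) < (i : ℝ) + 1 := by positivity
  have hnn : ∀ j ∈ range (i + 1 + N), 0 ≤ rat i j ^ p / ((j : ℝ) + 1) := fun j _ => by
    have := rat_pos i j
    positivity
  have hsub : range N ⊆ range (i + 1 + N) := range_subset_range.2 (by omega)
  refine (sum_le_sum_of_subset_of_nonneg hsub fun j hj _ => hnn j hj).trans ?_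
  rw [sum_range_add]
  have e1 : ∑ j ∈ range (i + 1), rat i j ^ p / ((j : ℝ) + 1) ≤ 1 / p := by
    have e : ∀ j ∈ range (i + 1), rat i j ^ p / ((j : ℝ) + 1) =
        ((i : ℝ) + 1) ^ (-p) * ((j : ℝ) + 1) ^ (p - 1) := by
      intro j hj
      have hj1 : j ≤ i := by have := mem_range.1 hj; omega
      have hj0 : (0 : ℝ) < (j : ℝ) + 1 := by positivity
      rw [rat_comm, rat_of_le hj1, Real.div_rpow hj0.le hi.le, Real.rpow_sub_one hj0.ne',
        Real.rpow_neg hi.le]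
      field_simp
    rw [sum_congr rfl e, ← mul_sum]
    have h2 := sum_low h0 h1 (i + 1)
    push_cast at h2
    calc _ ≤ ((i : ℝ) + 1) ^ (-p) * (((i : ℝ) + 1) ^ p / p) := by gcongr
      _ = 1 / p := by
        rw [Real.rpow_neg hi.le]
        have : ((i : ℝ) + 1) ^ p ≠ 0 := by positivity
        field_simp
  have e2 : ∑ j ∈ range N, rat i (i + 1 + j) ^ p / (((i + 1 + j : ℕ) : ℝ) + 1) ≤ 1 / p := by
    have e : ∀ j ∈ range N, rat i (i + 1 + j) ^ p / (((i + 1 + j : ℕ) : ℝ) + 1) =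
        ((i : ℝ) + 1) ^ p * (((i + j : ℝ) + 2) ^ (-p) / ((i + j : ℝ) + 2)) := by
      intro j _
      have hj0 : (0 : ℝ) < (i + j : ℝ) + 2 := by positivity
      rw [rat_of_le (by omega : i ≤ i + 1 + j)]
      have e3 : ((i + 1 + j : ℕ) : ℝ) + 1 = (i + j : ℝ) + 2 := by push_cast; ring
      rw [e3, Real.div_rpow hi.le hj0.le, Real.rpow_neg hj0.le]
      field_simp
    rw [sum_congr rfl e, ← mul_sum]
    have h2 := sum_high h0 h1 i N
    calc _ ≤ ((i : ℝ) + 1) ^ p * (((i : ℝ) + 1) ^ (-p) / p) := by gcongr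
      _ = 1 / p := by
        rw [Real.rpow_neg hi.le]
        have : ((i : ℝ) + 1) ^ p ≠ 0 := by positivity
        field_simp
  calc _ ≤ 1 / p + 1 / p := add_le_add e1 e2
    _ = 2 / p := by ring

/-- **Schur test** -/
theorem schur {p C : ℝ} (h0 : 0 < p) (h1 : p ≤ 1) (hC : 0 ≤ C) {N : ℕ} {E : ℕ → ℕ → ℝ}
    (hE : ∀ i < N, ∀ j < N, |E i j| ≤ C * ker p i j) (x : ℕ → ℝ) :
    nm N (fun i => ∑ j ∈ range N, E i j * x j) ≤ C * (2 / p) * nm N x := by
  refine nm_le_of_sq (mul_nonneg (by positivity) (nm_nonneg _ _)) ?_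
  have hrow : ∀ i < N, (∑ j ∈ range N, E i j * x j) * (∑ j ∈ range N, E i j * x j) ≤
      C * (2 / p) * ∑ j ∈ range N, C * (rat i j ^ p / ((i : ℝ) + 1)) * x j ^ 2 := by
    intro i hi
    have h2 : |∑ j ∈ range N, E i j * x j| ≤ ∑ j ∈ range N, C * ker p i j * |x j| := by
      refine (abs_sum_le_sum_abs _ _).trans (sum_le_sum fun j hj => ?_)
      rw [abs_mul]
      exact mul_le_mul_of_nonneg_right (hE i hi j (mem_range.1 hj)) (abs_nonneg _)
    have h3 : (∑ j ∈ range N, C * ker p i j * |x j|) ^ 2 ≤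
        (∑ j ∈ range N, C * (rat i j ^ p / ((j : ℝ) + 1))) *
          ∑ j ∈ range N, C * (rat i j ^ p / ((i : ℝ) + 1)) * x j ^ 2 := by
      refine sum_sq_le_sum_mul_sum_of_sq_eq_mul (range N) (fun j _ => ?_) (fun j _ => ?_)
        (fun j _ => ?_)
      · have := rat_pos i j
        positivity
      · have := rat_pos i j
        positivity
      · unfold ker
        rw [mul_pow, sq_abs, mul_pow, div_pow, Real.sq_sqrt (by positivity)]
        field_simp
    have h4 : ∑ j ∈ range N, C * (rat i j ^ p / ((j : ℝ) + 1)) ≤ C * (2 / p) := by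
      rw [← mul_sum]
      exact mul_le_mul_of_nonneg_left (kersum h0 h1 i N) hC
    have h5 : 0 ≤ ∑ j ∈ range N, C * (rat i j ^ p / ((i : ℝ) + 1)) * x j ^ 2 :=
      sum_nonneg fun j _ => by
        have := rat_pos i j
        positivity
    calc _ = |∑ j ∈ range N, E i j * x j| ^ 2 := by rw [sq_abs, sq]
      _ ≤ (∑ j ∈ range N, C * ker p i j * |x j|) ^ 2 := pow_le_pow_left₀ (abs_nonneg _) h2 2
      _ ≤ _ := h3.trans (mul_le_mul_of_nonneg_right h4 h5)
  unfold ip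
  refine (sum_le_sum fun i hi => hrow i (mem_range.1 hi)).trans ?_
  rw [← mul_sum, sum_comm]
  have h6 : ∑ j ∈ range N, ∑ i ∈ range N, C * (rat i j ^ p / ((i : ℝ) + 1)) * x j ^ 2 ≤
      ∑ j ∈ range N, C * (2 / p) * x j ^ 2 := by
    refine sum_le_sum fun j _ => ?_
    rw [← sum_mul, ← mul_sum]
    refine mul_le_mul_of_nonneg_right (mul_le_mul_of_nonneg_left ?_ hC) (sq_nonneg _)
    have := kersum h0 h1 j N
    simpa only [rat_comm j] using this
  calc _ ≤ C * (2 / p) * ∑ j ∈ range N, C * (2 / p) * x j ^ 2 :=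
        mul_le_mul_of_nonneg_left h6 (by positivity)
    _ = (C * (2 / p) * nm N x) ^ 2 := by
        rw [← mul_sum, mul_pow, nm_sq]
        unfold ip
        have : ∑ i ∈ range N, x i ^ 2 = ∑ i ∈ range N, x i * x i := sum_congr rfl fun i _ => sq _
        rw [this]
        ring

/-- **coercivity** -/
theorem coer {N : ℕ} {T : ℕ → ℕ → ℝ}
    (hT : ∀ x : ℕ → ℝ, 0 ≤ ∑ i ∈ range N, ∑ j ∈ range N, x i * x j * T i j) {e r : ℕ → ℝ}
    (h : ∀ i < N, e i + ∑ j ∈ range N, T i j * e j = r i) : nm N e ≤ nm N r := by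
  have h1 : ip N e r = ip N e e + ∑ i ∈ range N, ∑ j ∈ range N, e i * e j * T i j := by
    unfold ip
    rw [← sum_add_distrib]
    refine sum_congr rfl fun i hi => ?_
    rw [← h i (mem_range.1 hi), mul_add, mul_sum]
    congr 1
    exact sum_congr rfl fun j _ => by ring
  have h2 := hT e
  have h3 := ip_le N e r
  rcases (nm_nonneg N e).eq_or_lt with h4 | h4
  · rw [← h4]
    exact nm_nonneg _ _
  · rw [h1, ← nm_sq] at h3
    nlinarith

end SBA
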