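import Pool.Agent.PB.SBA

/-!
# Determinants of `1 + T`, `T` close to a homogeneous kernel: comparison of `n` with `l * n`
-/

set_option autoImplicit false

open Finset

namespace SBA

/-- `T` is symmetric, positive and close to a homogeneous kernel. -/
structure Hom (T : ℕ → ℕ → ℝ) (C p d : ℝ) : Prop where
  C_pos : 0 < C
  p_pos : 0 < p
  p_le : p ≤ 1 / 2
  d_pos : 0 < d
  d_le : d ≤ p / 4
  symm : ∀ i j, T i j = T j i
  psd : ∀ (n : ℕ) (x : ℕ → ℝ), 0 ≤ ∑ i ∈ range n, ∑ j ∈ range n, x i * x j * T i j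
  bd : ∀ i j, |T i j| ≤ C * ker p i j
  hom : ∀ l : ℕ, 1 ≤ l → ∀ I J : ℕ, |T I J - T (I / l) (J / l) / l| ≤
    C * ker p I J * ((l : ℝ) / (((min I J : ℕ) : ℝ) + 1)) ^ d

/-- `u` solves `(1 + T) u = t` -/
def Sol (T : ℕ → ℕ → ℝ) (n : ℕ) (u : ℕ → ℝ) : Prop :=
  ∀ i < n, u i + ∑ j ∈ range n, T i j * u j = T i n

/-- sum over blocks -/
theorem sum_block (l n : ℕ) (f : ℕ → ℝ) :
    ∑ I ∈ range (l * n), f I = ∑ i ∈ range n, ∑ r ∈ range l, f (l * i + r) := by
  induction n with
  | zero => simp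
  | succ n ih => rw [Nat.mul_succ, sum_range_add, ih, sum_range_succ]

theorem block_div {l : ℕ} (hl : 1 ≤ l) {i r : ℕ} (hr : r < l) : (l * i + r) / l = i := by
  rw [Nat.mul_add_div (by omega), Nat.div_eq_of_lt hr, add_zero]

theorem sum_block_div {l : ℕ} (hl : 1 ≤ l) (n : ℕ) (f : ℕ → ℝ) :
    ∑ I ∈ range (l * n), f (I / l) = l * ∑ i ∈ range n, f i := by
  rw [sum_block, mul_sum]
  refine sum_congr rfl fun i _ => ?_
  rw [sum_congr rfl fun r hr => by rw [block_div hl (mem_range.1 hr)], sum_const, card_range,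
    nsmul_eq_mul]

theorem pow_rat {r p d : ℝ} (hr : 0 < r) (hr1 : r ≤ 1) (hp : 0 < p) (hd : 0 ≤ d) (hdp : d ≤ p / 4) :
    r ^ p * (r ^ (-d) - 1) ≤ 2 * d / p * r ^ (p / 4) := by
  have h1 : r ^ (-d) - 1 ≤ r ^ (-d) * (d * Real.log (1 / r)) := by
    have h2 : 1 - r ^ d ≤ d * Real.log (1 / r) := by
      have h3 := Real.add_one_le_exp (d * Real.log r)
      rw [Real.rpow_def_of_pos hr, mul_comm (Real.log r), one_div, Real.log_inv]
      linarith
    have h4 : r ^ (-d) - 1 = r ^ (-d) * (1 - r ^ d) := by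
      rw [mul_sub, ← Real.rpow_add hr]
      simp
    rw [h4]
    exact mul_le_mul_of_nonneg_left h2 (by positivity)
  have h2 : Real.log (1 / r) ≤ 2 / p * r ^ (-(p / 2)) := by
    have h3 := Real.log_le_rpow_div (x := 1 / r) (by positivity) (half_pos hp)
    refine h3.trans (le_of_eq ?_)
    rw [one_div, Real.inv_rpow hr.le, Real.rpow_neg hr.le]
    field_simp
  calc r ^ p * (r ^ (-d) - 1) ≤ r ^ p * (r ^ (-d) * (d * (2 / p * r ^ (-(p / 2))))) := by
        refine mul_le_mul_of_nonneg_left (h1.trans ?_) (by positivity)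
        refine mul_le_mul_of_nonneg_left (mul_le_mul_of_nonneg_left h2 hd) (by positivity)
    _ = 2 * d / p * r ^ (p / 2 - d) := by
        have e : r ^ (p / 2 - d) = r ^ p * (r ^ (-d) * r ^ (-(p / 2))) := by
          rw [← Real.rpow_add hr, ← Real.rpow_add hr]
          congr 1
          ring
        rw [e]
        ring
    _ ≤ _ := by
        refine mul_le_mul_of_nonneg_left ?_ (by positivity)
        exact Real.rpow_le_rpow_of_exponent_ge hr hr1 (by linarith)

theorem rat_div_le {i j : ℕ} : ((j : ℝ) + 1) / ((i : ℝ) + 1) ≤ (rat i j)⁻¹ := by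
  rcases le_total i j with h | h
  · rw [rat_of_le h, inv_div]
  · have h1 : ((j : ℝ) + 1) / ((i : ℝ) + 1) ≤ 1 := by
      rw [div_le_one (by positivity)]
      have : (j : ℝ) ≤ i := by exact_mod_cast h
      linarith
    exact h1.trans ((one_le_inv₀ (rat_pos i j)).2 (rat_le_one i j))

theorem rat_le_div {i j : ℕ} : rat i j ≤ ((j : ℝ) + 1) / ((i : ℝ) + 1) := by
  have h := rat_div_le (i := j) (j := i)
  rw [rat_comm] at h
  have h1 := rat_pos i j
  have h2 : (0 : ℝ) < ((i : ℝ) + 1) / ((j : ℝ) + 1) := by positivity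
  rw [← inv_div, ]
  rw [le_inv_comm₀ h1 h2]
  exact h

theorem sq_ker {p : ℝ} (i j : ℕ) : ker p i j ^ 2 = rat i j ^ (2 * p) / (((i : ℝ) + 1) * ((j : ℝ) + 1)) := by
  unfold ker
  rw [div_pow, Real.sq_sqrt (by positivity), ← Real.rpow_natCast, ← Real.rpow_mul (rat_pos i j).le]
  congr 2
  push_cast
  ring

section
variable {T : ℕ → ℕ → ℝ} {C p d : ℝ}

/-- the column, with weight `(n / (i + 1)) ^ (2 d)` -/
theorem Hom.col (h : Hom T C p d) {n : ℕ} (hn : 1 ≤ n) {e : ℝ} (he : e ≤ p) (he0 : 0 ≤ e) :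
    ∑ i ∈ range n, ((n : ℝ) / ((i : ℝ) + 1)) ^ e * T i n ^ 2 ≤ 2 * C ^ 2 / p / n := by
  have hp := h.p_pos
  have hn0 : (0 : ℝ) < n := by exact_mod_cast hn
  have h1 : ∀ i ∈ range n, ((n : ℝ) / ((i : ℝ) + 1)) ^ e * T i n ^ 2 ≤
      C ^ 2 / n * (rat n i ^ p / ((i : ℝ) + 1)) := by
    intro i hi
    have hi1 : i < n := mem_range.1 hi
    have hr := rat_pos n i
    have hr1 := rat_le_one n i
    have h2 : T i n ^ 2 ≤ C ^ 2 * (rat n i ^ (2 * p) / (((i : ℝ) + 1) * ((n : ℝ) + 1))) := by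
      have h3 := pow_le_pow_left₀ (abs_nonneg _) (h.bd i n) 2
      rwa [sq_abs, mul_pow, sq_ker, rat_comm i n] at h3
    have h4 : ((n : ℝ) / ((i : ℝ) + 1)) ^ e ≤ rat n i ^ (-e) := by
      rw [Real.rpow_neg hr.le, ← Real.inv_rpow hr.le]
      refine Real.rpow_le_rpow (by positivity) ?_ he0
      rw [rat_comm]
      refine le_trans ?_ (rat_div_le (i := i) (j := n))
      gcongr
      linarith
    have h5 : rat n i ^ (-e) * rat n i ^ (2 * p) ≤ rat n i ^ p := by
      rw [← Real.rpow_add hr]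
      exact Real.rpow_le_rpow_of_exponent_ge hr hr1 (by linarith)
    calc _ ≤ rat n i ^ (-e) * (C ^ 2 * (rat n i ^ (2 * p) / (((i : ℝ) + 1) * ((n : ℝ) + 1)))) :=
          mul_le_mul h4 h2 (by positivity) (by positivity)
      _ = C ^ 2 * (rat n i ^ (-e) * rat n i ^ (2 * p)) / (((i : ℝ) + 1) * ((n : ℝ) + 1)) := by ring
      _ ≤ C ^ 2 * rat n i ^ p / (((i : ℝ) + 1) * n) := by
          have hC := h.C_pos
          gcongr
          linarith
      _ = _ := by field_simp
  refine (sum_le_sum h1).trans ?_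
  rw [← mul_sum]
  have h6 := kersum hp (by linarith [h.p_le]) n n
  calc _ ≤ C ^ 2 / n * (2 / p) := by gcongr
    _ = _ := by field_simp

/-- **weighted bound of the solution** -/
theorem Hom.wsol (h : Hom T C p d) (hd : C * (2 * d / p) * (8 / p) ≤ 1 / 2) {n : ℕ} (hn : 1 ≤ n)
    {u : ℕ → ℝ} (hu : Sol T n u) :
    ∑ i ∈ range n, ((n : ℝ) / ((i : ℝ) + 1)) ^ (2 * d) * u i ^ 2 ≤ 8 * C ^ 2 / p / n := by
  have hp := h.p_pos
  have hC := h.C_pos
  have hd0 := h.d_pos
  have hn0 : (0 : ℝ) < n := by exact_mod_cast hn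
  set w : ℕ → ℝ := fun i => ((n : ℝ) / ((i : ℝ) + 1)) ^ d with hw
  have hw0 : ∀ i, 0 < w i := fun i => by simp only [hw]; positivity
  set E : ℕ → ℕ → ℝ := fun i j => T i j * (w i / w j - 1) with hE
  have hEb : ∀ i < n, ∀ j < n, |E i j| ≤ C * (2 * d / p) * ker (p / 4) i j := by
    intro i _ j _
    have hr := rat_pos i j
    have hr1 := rat_le_one i j
    have hq : w i / w j = (((j : ℝ) + 1) / ((i : ℝ) + 1)) ^ d := by
      simp only [hw]
      rw [← Real.div_rpow (by positivity) (by positivity)]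
      congr 1
      field_simp
    have h1 : |w i / w j - 1| ≤ rat i j ^ (-d) - 1 := by
      rw [hq, abs_le]
      have e1 : (((j : ℝ) + 1) / ((i : ℝ) + 1)) ^ d ≤ rat i j ^ (-d) := by
        rw [Real.rpow_neg hr.le, ← Real.inv_rpow hr.le]
        exact Real.rpow_le_rpow (by positivity) rat_div_le hd0.le
      have e2 : rat i j ^ d ≤ (((j : ℝ) + 1) / ((i : ℝ) + 1)) ^ d :=
        Real.rpow_le_rpow hr.le rat_le_div hd0.le
      have e3 : 0 < rat i j ^ d := by positivity
      have e4 : 2 ≤ rat i j ^ (-d) + rat i j ^ d := by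
        rw [Real.rpow_neg hr.le]
        have h5 : (rat i j ^ d)⁻¹ * rat i j ^ d = 1 := inv_mul_cancel₀ e3.ne'
        have h6 : 0 < (rat i j ^ d)⁻¹ := by positivity
        nlinarith [sq_nonneg ((rat i j ^ d)⁻¹ - rat i j ^ d), sq_nonneg ((rat i j ^ d)⁻¹ + rat i j ^ d - 2)]
      constructor <;> linarith
    simp only [hE, abs_mul]
    have h2 := mul_le_mul (h.bd i j) h1 (abs_nonneg _) (mul_nonneg hC.le (ker_nonneg _ _ _))
    refine h2.trans ?_
    have h3 := pow_rat hr hr1 hp hd0.le h.d_le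
    unfold ker
    have hs : (0 : ℝ) < √(((i : ℝ) + 1) * ((j : ℝ) + 1)) := Real.sqrt_pos.2 (by positivity)
    calc C * (rat i j ^ p / √(((i : ℝ) + 1) * ((j : ℝ) + 1))) * (rat i j ^ (-d) - 1)
        = C * (rat i j ^ p * (rat i j ^ (-d) - 1)) / √(((i : ℝ) + 1) * ((j : ℝ) + 1)) := by ring
      _ ≤ C * (2 * d / p * rat i j ^ (p / 4)) / √(((i : ℝ) + 1) * ((j : ℝ) + 1)) := by gcongr
      _ = _ := by ring
  set v : ℕ → ℝ := fun i => w i * u i with hv
  have hsol : ∀ i < n, v i + ∑ j ∈ range n, T i j * v j =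
      w i * T i n - ∑ j ∈ range n, E i j * v j := by
    intro i hi
    have h1 := hu i hi
    rw [← h1, mul_add, mul_sum]
    simp only [hv, hE]
    rw [add_sub_assoc, ← sum_sub_distrib]
    congr 1
    refine sum_congr rfl fun j _ => ?_
    have := (hw0 j).ne'
    field_simp
    ring
  have h1 := coer (h.psd n) hsol
  have h2 := h1.trans (nm_sub_le n _ _)
  have h3 := schur (p := p / 4) (by positivity) (by linarith [h.p_le]) (by positivity) hEb v
  have h4 : C * (2 * d / p) * (2 / (p / 4)) ≤ 1 / 2 := by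
    have : 2 / (p / 4) = 8 / p := by field_simp; norm_num
    rw [this]
    exact hd
  have h5 : nm n v ≤ 2 * nm n (fun i => w i * T i n) := by
    have h6 := mul_le_mul_of_nonneg_right h4 (nm_nonneg n v)
    linarith
  have h7 : nm n (fun i => w i * T i n) ^ 2 ≤ 2 * C ^ 2 / p / n := by
    rw [nm_sq]
    have h8 := h.col hn (e := 2 * d) (by linarith [h.d_le]) (by positivity)
    refine le_trans (le_of_eq ?_) h8
    unfold ip
    refine sum_congr rfl fun i _ => ?_
    simp only [hw]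
    rw [two_mul, Real.rpow_add (by positivity)]
    ring
  have h9 : ip n v v = ∑ i ∈ range n, ((n : ℝ) / ((i : ℝ) + 1)) ^ (2 * d) * u i ^ 2 := by
    unfold ip
    refine sum_congr rfl fun i _ => ?_
    simp only [hv, hw]
    rw [two_mul, Real.rpow_add (by positivity)]
    ring
  rw [← h9, ← nm_sq]
  have h10 := pow_le_pow_left₀ (nm_nonneg n v) h5 2
  calc nm n v ^ 2 ≤ (2 * nm n (fun i => w i * T i n)) ^ 2 := h10
    _ = 4 * nm n (fun i => w i * T i n) ^ 2 := by ring
    _ ≤ 4 * (2 * C ^ 2 / p / n) := by linarith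
    _ = _ := by ring

/-- sum of a power over a block -/
theorem block_pow {d : ℝ} (hd : 0 < d) (hd1 : d ≤ 1 / 8) {l : ℕ} (hl : 1 ≤ l) (i : ℕ) :
    ∑ r ∈ range l, ((l : ℝ) / (((l * i + r : ℕ) : ℝ) + 1)) ^ (2 * d) ≤
      2 * l * ((i : ℝ) + 1) ^ (-(2 * d)) := by
  have hl0 : (0 : ℝ) < l := by exact_mod_cast hl
  have hi : (0 : ℝ) < (i : ℝ) + 1 := by positivity
  have h1 : ∀ r ∈ range l, ((l : ℝ) / (((l * i + r : ℕ) : ℝ) + 1)) ^ (2 * d) ≤
      ((i : ℝ) + 1) ^ (-(2 * d)) * ((l : ℝ) ^ (2 * d) * ((r : ℝ) + 1) ^ ((1 - 2 * d) - 1)) := by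
    intro r hr
    have hr1 : (r : ℝ) + 1 ≤ l := by exact_mod_cast (mem_range.1 hr)
    have hr0 : (0 : ℝ) < (r : ℝ) + 1 := by positivity
    have e1 : (l : ℝ) / (((l * i + r : ℕ) : ℝ) + 1) ≤ l / (((i : ℝ) + 1) * ((r : ℝ) + 1)) := by
      push_cast
      refine div_le_div_of_nonneg_left hl0.le (by positivity) ?_
      have : (i : ℝ) * ((r : ℝ) + 1) ≤ i * l := mul_le_mul_of_nonneg_left hr1 (Nat.cast_nonneg _)
      nlinarith
    refine (Real.rpow_le_rpow (by positivity) e1 (by positivity)).trans (le_of_eq ?_)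
    rw [Real.div_rpow hl0.le (by positivity), Real.mul_rpow hi.le hr0.le, Real.rpow_neg hi.le,
      show (1 - 2 * d) - 1 = -(2 * d) by ring, Real.rpow_neg hr0.le]
    field_simp
  refine (sum_le_sum h1).trans ?_
  rw [← mul_sum, ← mul_sum]
  have h2 := sum_low (p := 1 - 2 * d) (by linarith) (by linarith) l
  have h3 : (l : ℝ) ^ (1 - 2 * d) / (1 - 2 * d) ≤ 2 * (l : ℝ) ^ (1 - 2 * d) := by
    rw [div_le_iff₀ (by linarith)]
    have : 0 < (l : ℝ) ^ (1 - 2 * d) := by positivity
    nlinarith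
  have h4 : (l : ℝ) ^ (2 * d) * (2 * (l : ℝ) ^ (1 - 2 * d)) = 2 * l := by
    rw [mul_left_comm, ← Real.rpow_add hl0]
    norm_num
  calc _ ≤ ((i : ℝ) + 1) ^ (-(2 * d)) * ((l : ℝ) ^ (2 * d) * (2 * (l : ℝ) ^ (1 - 2 * d))) := by
        gcongr
        exact h2.trans h3
    _ = _ := by rw [h4]; ring

/-- **comparison of `n` and `l * n`** -/
theorem Hom.compare (h : Hom T C p d) (hd : C * (2 * d / p) * (8 / p) ≤ 1 / 2) : ∃ K : ℝ, 0 < K ∧
    ∀ n l : ℕ, 1 ≤ n → 1 ≤ l → ∀ u x : ℕ → ℝ, Sol T n u → Sol T (l * n) x →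
      |((l * n : ℕ) : ℝ) * (T (l * n) (l * n) - ip (l * n) (fun i => T i (l * n)) x) -
        n * (T n n - ip n (fun i => T i n) u)| ≤ K * (n : ℝ) ^ (-d) := by
  have hp := h.p_pos
  have hC := h.C_pos
  have hd0 := h.d_pos
  have hd8 : d ≤ 1 / 8 := by linarith [h.d_le, h.p_le]
  set A : ℝ := √(2 * C ^ 2 / p) with hA
  set Z : ℝ := √(16 * C ^ 2 / p) with hZ
  have hA0 : 0 ≤ A := Real.sqrt_nonneg _
  have hZ0 : 0 ≤ Z := Real.sqrt_nonneg _
  have hA2 : A ^ 2 = 2 * C ^ 2 / p := Real.sq_sqrt (by positivity)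
  have hZ2 : Z ^ 2 = 16 * C ^ 2 / p := Real.sq_sqrt (by positivity)
  refine ⟨C + A * A + A * (A + C * (4 / p) * Z), by positivity, fun n l hn hl u x hu hx => ?_⟩
  have hn0 : (0 : ℝ) < n := by exact_mod_cast hn
  have hn1 : (1 : ℝ) ≤ n := by exact_mod_cast hn
  have hl0 : (0 : ℝ) < l := by exact_mod_cast hl
  set N : ℕ := l * n with hN
  have hN1 : 1 ≤ N := Nat.mul_pos hl hn
  have hN0 : (0 : ℝ) < N := by exact_mod_cast hN1
  have hNln : (N : ℝ) = l * n := by rw [hN]; push_cast; ring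
  have hNl : N / l = n := by rw [hN, Nat.mul_div_cancel_left _ (by omega)]
  set a : ℕ → ℝ := fun I => √N * T I N with ha
  set X : ℕ → ℝ := fun I => √N * x I with hX
  set s : ℝ := √(n / l) with hs
  have hs0 : 0 ≤ s := Real.sqrt_nonneg _
  have hs2 : s ^ 2 = n / l := Real.sq_sqrt (by positivity)
  have hsN : s = √N / l := by
    rw [hs, hNln]
    rw [show (n : ℝ) / l = l * n / l ^ 2 by field_simp, Real.sqrt_div (by positivity),
      Real.sqrt_sq hl0.le]
  set b : ℕ → ℝ := fun I => s * T (I / l) n with hb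
  set y : ℕ → ℝ := fun I => s * u (I / l) with hy
  set D : ℕ → ℕ → ℝ := fun I J => T I J - T (I / l) (J / l) / l with hD
  have hpn : 0 < (n : ℝ) ^ (-d) := by positivity
  -- the equation of X
  have hXs : ∀ I < N, X I + ∑ J ∈ range N, T I J * X J = a I := by
    intro I hI
    have h1 := hx I hI
    simp only [hX, ha]
    rw [← h1, mul_add, mul_sum]
    congr 1
    exact sum_congr rfl fun J _ => by ring
  have hys : ∀ I < N, y I + ∑ J ∈ range N, T (I / l) (J / l) / l * y J = b I := by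
    intro I hI
    have hi : I / l < n := by
      rw [Nat.div_lt_iff_lt_mul (by omega)]
      rw [hN, mul_comm] at hI
      exact hI
    have h1 := hu (I / l) hi
    have h2 := sum_block_div hl n fun j => T (I / l) j / l * (s * u j)
    rw [← hN] at h2
    simp only [hy, hb]
    rw [h2, ← h1, mul_add, mul_sum, mul_sum]
    congr 1
    refine sum_congr rfl fun j _ => ?_
    field_simp
  have hes : ∀ I < N, (X I - y I) + ∑ J ∈ range N, T I J * (X J - y J) =
      (a I - b I) - ∑ J ∈ range N, D I J * y J := by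
    intro I hI
    rw [← hXs I hI, ← hys I hI]
    simp only [hD]
    have e1 : ∑ J ∈ range N, T I J * (X J - y J) = ∑ J ∈ range N, T I J * X J - ∑ J ∈ range N, T I J * y J := by
      rw [← sum_sub_distrib]
      exact sum_congr rfl fun J _ => by ring
    have e2 : ∑ J ∈ range N, (T I J - T (I / l) (J / l) / l) * y J =
        ∑ J ∈ range N, T I J * y J - ∑ J ∈ range N, T (I / l) (J / l) / l * y J := by
      rw [← sum_sub_distrib]
      exact sum_congr rfl fun J _ => by ring
    rw [e1, e2]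
    ring
  have he := (coer (h.psd N) hes).trans (nm_sub_le N _ _)
  have hXn : nm N X ≤ nm N a := coer (h.psd N) hXs
  -- norm of a
  have hcol : ∀ m : ℕ, 1 ≤ m → ∑ i ∈ range m, T i m ^ 2 ≤ 2 * C ^ 2 / p / m := by
    intro m hm
    have h1 := h.col hm (e := 0) hp.le le_rfl
    simpa only [Real.rpow_zero, one_mul] using h1
  have hna : nm N a ≤ A := by
    refine nm_le_of_sq hA0 ?_
    rw [hA2]
    have h1 := hcol N hN1
    have e1 : ip N a a = N * ∑ i ∈ range N, T i N ^ 2 := by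
      unfold ip
      rw [mul_sum]
      refine sum_congr rfl fun i _ => ?_
      simp only [ha]
      rw [show √(N : ℝ) * T i N * (√(N : ℝ) * T i N) = √(N : ℝ) ^ 2 * T i N ^ 2 by ring,
        Real.sq_sqrt hN0.le]
    rw [e1]
    calc _ ≤ (N : ℝ) * (2 * C ^ 2 / p / N) := by gcongr
      _ = _ := by field_simp
  have hnb : nm N b ≤ A := by
    refine nm_le_of_sq hA0 ?_
    rw [hA2]
    have h1 := hcol n hn
    have e1 : ip N b b = n * ∑ i ∈ range n, T i n ^ 2 := by
      unfold ip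
      have h2 := sum_block_div hl n fun i => (s * T i n) * (s * T i n)
      rw [← hN] at h2
      simp only [hb]
      rw [h2, mul_sum, mul_sum]
      refine sum_congr rfl fun i _ => ?_
      rw [show (l : ℝ) * (s * T i n * (s * T i n)) = l * s ^ 2 * T i n ^ 2 by ring, hs2]
      field_simp
    rw [e1]
    calc _ ≤ (n : ℝ) * (2 * C ^ 2 / p / n) := by gcongr
      _ = _ := by field_simp
  -- norm of a - b
  have hnab : nm N (fun I => a I - b I) ≤ A * (n : ℝ) ^ (-d) := by
    refine nm_le_of_sq (by positivity) ?_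
    rw [mul_pow, hA2]
    have h1 : ∀ I ∈ range N, (a I - b I) * (a I - b I) ≤
        C ^ 2 * ((n : ℝ) ^ (-d)) ^ 2 * (rat N I ^ p / ((I : ℝ) + 1)) := by
      intro I hI
      have hI1 : I < N := mem_range.1 hI
      have hr := rat_pos N I
      have hr1 := rat_le_one N I
      have e1 : a I - b I = √N * (T I N - T (I / l) (N / l) / l) := by
        simp only [ha, hb]
        rw [hsN, hNl]
        ring
      have h2 := h.hom l hl I N
      rw [min_eq_left hI1.le] at h2
      have hrI : rat N I = ((I : ℝ) + 1) / ((N : ℝ) + 1) := by rw [rat_comm, rat_of_le hI1.le]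
      have e2 : ((l : ℝ) / ((I : ℝ) + 1)) ^ d ≤ (n : ℝ) ^ (-d) * rat N I ^ (-d) := by
        rw [← Real.mul_rpow hn0.le hr.le, Real.rpow_neg (by positivity), ← Real.inv_rpow (by positivity)]
        refine Real.rpow_le_rpow (by positivity) ?_ hd0.le
        rw [hrI]
        rw [mul_inv, inv_div, ← div_eq_inv_mul, div_div, div_le_div_iff₀ (by positivity) (by positivity), hNln]
        nlinarith [(Nat.cast_nonneg I : (0 : ℝ) ≤ I), mul_pos hl0 hn0]
      have h3 : |T I N - T (I / l) (N / l) / l| ≤ C * ker p I N * ((n : ℝ) ^ (-d) * rat N I ^ (-d)) :=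
        h2.trans (mul_le_mul_of_nonneg_left e2 (mul_nonneg hC.le (ker_nonneg _ _ _)))
      have h4 := pow_le_pow_left₀ (abs_nonneg _) h3 2
      rw [sq_abs] at h4
      rw [e1]
      calc √(N : ℝ) * (T I N - T (I / l) (N / l) / l) * (√(N : ℝ) * (T I N - T (I / l) (N / l) / l))
          = √(N : ℝ) ^ 2 * (T I N - T (I / l) (N / l) / l) ^ 2 := by ring
        _ ≤ N * (C * ker p I N * ((n : ℝ) ^ (-d) * rat N I ^ (-d))) ^ 2 := by
            rw [Real.sq_sqrt hN0.le]
            exact mul_le_mul_of_nonneg_left h4 hN0.le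
        _ = C ^ 2 * ((n : ℝ) ^ (-d)) ^ 2 * (rat N I ^ (2 * p) * rat N I ^ (-(2 * d))) *
            (N / ((N : ℝ) + 1)) / ((I : ℝ) + 1) := by
            rw [mul_pow, mul_pow, mul_pow, sq_ker, rat_comm I N,
              show rat N I ^ (-(2 * d)) = (rat N I ^ (-d)) ^ 2 by
                rw [← Real.rpow_natCast (rat N I ^ (-d)) 2, ← Real.rpow_mul hr.le]
                congr 1
                push_cast
                ring]
            field_simp
        _ ≤ C ^ 2 * ((n : ℝ) ^ (-d)) ^ 2 * rat N I ^ p * 1 / ((I : ℝ) + 1) := by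
            have e5 : rat N I ^ (2 * p) * rat N I ^ (-(2 * d)) ≤ rat N I ^ p := by
              rw [← Real.rpow_add hr]
              exact Real.rpow_le_rpow_of_exponent_ge hr hr1 (by linarith [h.d_le])
            have e6 : (N : ℝ) / ((N : ℝ) + 1) ≤ 1 := by
              rw [div_le_one (by positivity)]
              linarith
            gcongr
        _ = _ := by ring
    refine (sum_le_sum h1).trans ?_
    rw [← mul_sum]
    have h6 := kersum hp (by linarith [h.p_le]) N N
    calc _ ≤ C ^ 2 * ((n : ℝ) ^ (-d)) ^ 2 * (2 / p) := by gcongr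
      _ = _ := by ring
  -- norm of D y
  have hnD : nm N (fun I => ∑ J ∈ range N, D I J * y J) ≤ C * (4 / p) * Z * (n : ℝ) ^ (-d) := by
    set z : ℕ → ℝ := fun J => ((l : ℝ) / ((J : ℝ) + 1)) ^ d * y J with hz
    set D' : ℕ → ℕ → ℝ := fun I J => D I J * (((J : ℝ) + 1) / l) ^ d with hD'
    have e1 : ∀ I, ∑ J ∈ range N, D I J * y J = ∑ J ∈ range N, D' I J * z J := by
      intro I
      refine sum_congr rfl fun J _ => ?_
      simp only [hD', hz]
      have e2 : (((J : ℝ) + 1) / l) ^ d * ((l : ℝ) / ((J : ℝ) + 1)) ^ d = 1 := by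
        rw [← Real.mul_rpow (by positivity) (by positivity)]
        have : ((J : ℝ) + 1) / l * ((l : ℝ) / ((J : ℝ) + 1)) = 1 := by field_simp
        rw [this, Real.one_rpow]
      calc D I J * y J = D I J * y J * 1 := by ring
        _ = D I J * y J * ((((J : ℝ) + 1) / l) ^ d * ((l : ℝ) / ((J : ℝ) + 1)) ^ d) := by rw [e2]
        _ = _ := by ring
    simp only [e1]
    have hDb : ∀ I < N, ∀ J < N, |D' I J| ≤ C * ker (p / 2) I J := by
      intro I _ J _
      have hr := rat_pos I J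
      have hr1 := rat_le_one I J
      have h2 := h.hom l hl I J
      simp only [hD', hD, abs_mul]
      have e3 : |(((J : ℝ) + 1) / l) ^ d| = (((J : ℝ) + 1) / l) ^ d := abs_of_nonneg (by positivity)
      rw [e3]
      have e4 : ((l : ℝ) / (((min I J : ℕ) : ℝ) + 1)) ^ d * (((J : ℝ) + 1) / l) ^ d ≤ rat I J ^ (-d) := by
        rw [← Real.mul_rpow (by positivity) (by positivity), Real.rpow_neg hr.le, ← Real.inv_rpow hr.le]
        refine Real.rpow_le_rpow (by positivity) ?_ hd0.le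
        have e5 : (l : ℝ) / (((min I J : ℕ) : ℝ) + 1) * (((J : ℝ) + 1) / l) =
            ((J : ℝ) + 1) / (((min I J : ℕ) : ℝ) + 1) := by field_simp
        rw [e5]
        unfold rat
        rw [inv_div]
        have : (J : ℝ) ≤ ((max I J : ℕ) : ℝ) := by exact_mod_cast le_max_right I J
        gcongr
      calc _ ≤ C * ker p I J * ((l : ℝ) / (((min I J : ℕ) : ℝ) + 1)) ^ d * (((J : ℝ) + 1) / l) ^ d :=
            mul_le_mul_of_nonneg_right h2 (by positivity)
        _ = C * ker p I J * (((l : ℝ) / (((min I J : ℕ) : ℝ) + 1)) ^ d * (((J : ℝ) + 1) / l) ^ d) := by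
            ring
        _ ≤ C * ker p I J * rat I J ^ (-d) :=
            mul_le_mul_of_nonneg_left e4 (mul_nonneg hC.le (ker_nonneg _ _ _))
        _ = C * (rat I J ^ (p - d) / √(((I : ℝ) + 1) * ((J : ℝ) + 1))) := by
            unfold ker
            rw [sub_eq_add_neg, Real.rpow_add hr]
            ring
        _ ≤ _ := mul_le_mul_of_nonneg_left (ker_anti (by linarith [h.d_le]) I J) hC.le
    have h3 := schur (p := p / 2) (by positivity) (by linarith [h.p_le]) hC.le hDb z
    have h4 : nm N z ≤ Z * (n : ℝ) ^ (-d) := by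
      refine nm_le_of_sq (by positivity) ?_
      rw [mul_pow, hZ2]
      have e6 : ip N z z = ∑ i ∈ range n, (n / l * u i ^ 2) *
          ∑ r ∈ range l, ((l : ℝ) / (((l * i + r : ℕ) : ℝ) + 1)) ^ (2 * d) := by
        unfold ip
        rw [hN, sum_block]
        refine sum_congr rfl fun i _ => ?_
        rw [mul_sum]
        refine sum_congr rfl fun r hr => ?_
        simp only [hz, hy]
        rw [block_div hl (mem_range.1 hr), two_mul, Real.rpow_add (by positivity), ← hs2]
        ring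
      rw [e6]
      have e7 : ∀ i ∈ range n, ((n : ℝ) / l * u i ^ 2) *
          ∑ r ∈ range l, ((l : ℝ) / (((l * i + r : ℕ) : ℝ) + 1)) ^ (2 * d) ≤
          2 * n * ((n : ℝ) ^ (-d)) ^ 2 * (((n : ℝ) / ((i : ℝ) + 1)) ^ (2 * d) * u i ^ 2) := by
        intro i _
        have h5 := block_pow hd0 hd8 hl i
        calc _ ≤ ((n : ℝ) / l * u i ^ 2) * (2 * l * ((i : ℝ) + 1) ^ (-(2 * d))) := by gcongr
          _ = 2 * n * u i ^ 2 * ((i : ℝ) + 1) ^ (-(2 * d)) := by field_simp
          _ = _ := by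
            rw [Real.div_rpow hn0.le (by positivity),
              show ((n : ℝ) ^ (-d)) ^ 2 = ((n : ℝ) ^ (2 * d))⁻¹ by
                rw [← Real.rpow_natCast ((n : ℝ) ^ (-d)) 2, ← Real.rpow_mul hn0.le, ← Real.rpow_neg hn0.le]
                congr 1
                push_cast
                ring, Real.rpow_neg (by positivity)]
            have : (n : ℝ) ^ (2 * d) ≠ 0 := by positivity
            field_simp
      refine (sum_le_sum e7).trans ?_
      rw [← mul_sum]
      have h6 := h.wsol hd hn hu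
      calc _ ≤ 2 * n * ((n : ℝ) ^ (-d)) ^ 2 * (8 * C ^ 2 / p / n) := by gcongr
        _ = _ := by field_simp; ring
    calc _ ≤ C * (2 / (p / 2)) * nm N z := h3
      _ ≤ C * (2 / (p / 2)) * (Z * (n : ℝ) ^ (-d)) := by gcongr
      _ = _ := by field_simp; ring
  -- the difference of the two products
  have e1 : (N : ℝ) * ip N (fun i => T i N) x = ip N a X := by
    unfold ip
    rw [mul_sum]
    refine sum_congr rfl fun i _ => ?_
    simp only [ha, hX]
    rw [show √(N : ℝ) * T i N * (√(N : ℝ) * x i) = √(N : ℝ) ^ 2 * (T i N * x i) by ring,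
      Real.sq_sqrt hN0.le]
  have e2 : (n : ℝ) * ip n (fun i => T i n) u = ip N b y := by
    unfold ip
    have h2 := sum_block_div hl n fun i => (s * T i n) * (s * u i)
    rw [← hN] at h2
    simp only [hb, hy]
    rw [h2, mul_sum, mul_sum]
    refine sum_congr rfl fun i _ => ?_
    rw [show (l : ℝ) * (s * T i n * (s * u i)) = l * s ^ 2 * (T i n * u i) by ring, hs2]
    field_simp
  have e3 : ip N a X - ip N b y = ip N (fun I => a I - b I) X + ip N b (fun I => X I - y I) := by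
    rw [ip_sub_left, ip_sub_right]
    ring
  have h1 : |ip N a X - ip N b y| ≤ (A * A + A * (A + C * (4 / p) * Z)) * (n : ℝ) ^ (-d) := by
    rw [e3]
    refine (abs_add_le _ _).trans ?_
    have h2 := abs_ip_le N (fun I => a I - b I) X
    have h3 := abs_ip_le N b (fun I => X I - y I)
    have h4 : nm N (fun I => X I - y I) ≤ (A + C * (4 / p) * Z) * (n : ℝ) ^ (-d) := by
      refine he.trans ?_
      linarith
    have h5 : nm N (fun I => a I - b I) * nm N X ≤ A * (n : ℝ) ^ (-d) * A :=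
      mul_le_mul hnab (hXn.trans hna) (nm_nonneg _ _) (by positivity)
    have h6 : nm N b * nm N (fun I => X I - y I) ≤ A * ((A + C * (4 / p) * Z) * (n : ℝ) ^ (-d)) :=
      mul_le_mul hnb h4 (nm_nonneg _ _) hA0
    linarith
  have h2 : |(N : ℝ) * T N N - n * T n n| ≤ C * (n : ℝ) ^ (-d) := by
    have h3 := h.hom l hl N N
    rw [hNl, min_self] at h3
    have e4 : (N : ℝ) * T N N - n * T n n = N * (T N N - T n n / l) := by
      rw [hNln]
      field_simp
    have e5 : ker p N N = 1 / ((N : ℝ) + 1) := by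
      unfold ker
      rw [rat_of_le le_rfl, div_self (by positivity), Real.one_rpow, Real.sqrt_mul_self (by positivity)]
    rw [e4, abs_mul, abs_of_pos hN0]
    rw [e5] at h3
    have e6 : ((l : ℝ) / ((N : ℝ) + 1)) ^ d ≤ (n : ℝ) ^ (-d) := by
      rw [Real.rpow_neg hn0.le, ← Real.inv_rpow hn0.le]
      refine Real.rpow_le_rpow (by positivity) ?_ hd0.le
      rw [inv_eq_one_div, div_le_div_iff₀ (by positivity) hn0, hNln]
      linarith
    calc (N : ℝ) * |T N N - T n n / l| ≤ N * (C * (1 / ((N : ℝ) + 1)) * (n : ℝ) ^ (-d)) := by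
          refine mul_le_mul_of_nonneg_left (h3.trans ?_) hN0.le
          gcongr
      _ = C * (N / ((N : ℝ) + 1)) * (n : ℝ) ^ (-d) := by ring
      _ ≤ C * 1 * (n : ℝ) ^ (-d) := by
          gcongr
          rw [div_le_one (by positivity)]
          linarith
      _ = _ := by ring
  have e4 : (N : ℝ) * (T N N - ip N (fun i => T i N) x) - n * (T n n - ip n (fun i => T i n) u) =
      (N * T N N - n * T n n) - (ip N a X - ip N b y) := by
    rw [← e1, ← e2]
    ring
  rw [e4]
  refine (abs_sub _ _).trans ?_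
  linarith

end

end SBA
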