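import Pool.Agent.NUQ.Pol
import Pool.Agent.NUQ.Log

/-!
# The Wiener-Hopf factor of `1 + 1/(2 cosh(π k / 3))` (sharp normaliser)

* `uu a b z n = (a)_n (b)_n / ((z)_n n!)`, `FF a b z` its sum; **`gauss`** : Gauss' summation theorem
  `FF z * Γ(z - a) * Γ(z - b) = Γ z * Γ(z - a - b)` (contiguous relation and Euler's limit);
* `norm_FF` : the modulus on the line `Re z = (a + b + 1) / 2`;
* `exists_rho` : a function `rho` on the half line with `‖1 + th rho^ k‖^2 = exp (th gg k)`, decay
  `exp (-(5/4) x)` and `∫ rho^2 = - th (5/24) + 1/(2π) ∫ (exp (th gg) - 1)`.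
-/

set_option autoImplicit false

noncomputable section

open Complex MeasureTheory Finset Filter Topology

namespace SB

/-! ### Gauss' theorem -/

/-- `(a)_n (b)_n / ((z)_n n!)` -/
def uu (a b : ℝ) (z : ℂ) (n : ℕ) : ℂ :=
  ∏ j ∈ range n, (((a + j) * (b + j) : ℝ) : ℂ) / ((z + j) * ((1 + j : ℝ) : ℂ))

/-- the real majorant -/
def pp (a b x : ℝ) (n : ℕ) : ℝ := ∏ j ∈ range n, |(a + j) * (b + j)| / ((x + j) * (1 + j))

theorem uu_zero (a b : ℝ) (z : ℂ) : uu a b z 0 = 1 := by simp [uu]

theorem uu_succ (a b : ℝ) (z : ℂ) (n : ℕ) : uu a b z (n + 1) =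
    uu a b z n * ((((a + n) * (b + n) : ℝ) : ℂ) / ((z + n) * ((1 + n : ℝ) : ℂ))) := by
  unfold uu
  rw [prod_range_succ]

theorem pp_succ (a b x : ℝ) (n : ℕ) : pp a b x (n + 1) =
    pp a b x n * (|(a + n) * (b + n)| / ((x + n) * (1 + n))) := by
  unfold pp
  rw [prod_range_succ]

theorem pp_nonneg {a b x : ℝ} (hx : 0 < x) (n : ℕ) : 0 ≤ pp a b x n := by
  unfold pp
  exact prod_nonneg fun j _ => by positivity

theorem re_le {z : ℂ} (hz : 0 < z.re) (n : ℕ) : z.re + n ≤ ‖z + n‖ := by
  have h := Complex.re_le_norm (z + n)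
  simpa using h

theorem ne_add {z : ℂ} (hz : 0 < z.re) (n : ℕ) : z + n ≠ 0 := by
  intro h
  have h1 := re_le hz n
  rw [h, norm_zero] at h1
  have : (0 : ℝ) ≤ n := Nat.cast_nonneg n
  linarith

theorem norm_uu_le {a b : ℝ} {z : ℂ} (hz : 0 < z.re) (n : ℕ) : ‖uu a b z n‖ ≤ pp a b z.re n := by
  unfold uu pp
  rw [norm_prod]
  refine prod_le_prod (fun _ _ => norm_nonneg _) fun j _ => ?_
  have hj : (0 : ℝ) ≤ j := Nat.cast_nonneg j
  rw [norm_div, norm_mul, Complex.norm_real, Complex.norm_real, Real.norm_eq_abs, Real.norm_eq_abs,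
    abs_of_pos (by linarith : (0 : ℝ) < 1 + j)]
  refine div_le_div_of_nonneg_left (abs_nonneg _) (by positivity) ?_
  exact mul_le_mul_of_nonneg_right (re_le hz j) (by positivity)

section sums

variable {a b x : ℝ}

theorem pp_step (hx : 0 < x) {n : ℕ} (hn : 0 ≤ (a + n) * (b + n)) :
    ((n + 1 : ℕ) : ℝ) * pp a b x (n + 1) = n * pp a b x n +
      pp a b x n * ((a * b - n * (x - a - b)) / (x + n)) := by
  rw [pp_succ, abs_of_nonneg hn]
  have h1 : (0 : ℝ) ≤ n := Nat.cast_nonneg n
  have h2 : x + n ≠ 0 := by positivity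
  have h3 : (1 : ℝ) + n ≠ 0 := by positivity
  push_cast
  field_simp
  ring

theorem pp_sum (hx : 0 < x) (hk : a + b < x) (hab : ∀ n : ℕ, 1 ≤ n → 0 ≤ (a + n) * (b + n)) :
    Summable (pp a b x) ∧ Tendsto (fun n : ℕ => (n : ℝ) * pp a b x n) atTop (𝓝 0) := by
  obtain ⟨k, hk'⟩ : ∃ k, k = x - a - b := ⟨_, rfl⟩
  have k0 : 0 < k := by linarith
  obtain ⟨n0, hn0⟩ := exists_nat_gt (2 * (|a * b| + k * x) / k + 1)
  have h1 : ∀ n : ℕ, n0 ≤ n → 1 ≤ n ∧ (a * b - n * (x - a - b)) / (x + n) ≤ -(k / 2) := by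
    intro n hn
    have hn' : (n0 : ℝ) ≤ n := by exact_mod_cast hn
    have e1 : 2 * (|a * b| + k * x) / k < n := by linarith
    rw [div_lt_iff₀ k0] at e1
    have e0 : 0 ≤ 2 * (|a * b| + k * x) / k := by positivity
    constructor
    · have : (1 : ℝ) < n := by linarith
      exact_mod_cast this.le
    · rw [← hk', div_le_iff₀ (by positivity)]
      have := le_abs_self (a * b)
      nlinarith
  obtain ⟨T, hT⟩ : ∃ T : ℕ → ℝ, T = fun n : ℕ => (n : ℝ) * pp a b x n := ⟨_, rfl⟩
  have hT0 : ∀ n, 0 ≤ T n := fun n => by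
    rw [hT]
    exact mul_nonneg (Nat.cast_nonneg n) (pp_nonneg hx n)
  have h2 : ∀ n, n0 ≤ n → k / 2 * pp a b x n ≤ T n - T (n + 1) := by
    intro n hn
    obtain ⟨g1, g2⟩ := h1 n hn
    have e := pp_step (a := a) (b := b) hx (hab n g1)
    have e2 := mul_le_mul_of_nonneg_left g2 (pp_nonneg (a := a) (b := b) hx n)
    rw [hT]
    simp only []
    rw [e]
    linarith
  have h3 : ∀ N, ∑ i ∈ range N, k / 2 * pp a b x (i + n0) ≤ T n0 - T (N + n0) := by
    intro N
    induction N with
    | zero => simp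
    | succ N ih =>
      rw [sum_range_succ]
      have := h2 (N + n0) (by omega)
      rw [show N + 1 + n0 = N + n0 + 1 by ring]
      linarith
  have hs : Summable (pp a b x) := by
    rw [← summable_nat_add_iff n0]
    refine summable_of_sum_range_le (c := T n0 * (2 / k)) (fun i => pp_nonneg hx _) fun N => ?_
    have e := h3 N
    rw [← mul_sum] at e
    have e2 := hT0 (N + n0)
    rw [mul_div_assoc', le_div_iff₀ k0]
    linarith
  refine ⟨hs, ?_⟩
  have hanti : Antitone fun i => T (i + n0) := by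
    refine antitone_nat_of_succ_le fun i => ?_
    have e := h2 (i + n0) (by omega)
    have e2 := mul_nonneg (by positivity : 0 ≤ k / 2) (pp_nonneg (a := a) (b := b) hx (i + n0))
    rw [show i + 1 + n0 = i + n0 + 1 by ring]
    linarith
  have hb : BddBelow (Set.range fun i => T (i + n0)) := ⟨0, by
    rintro _ ⟨i, rfl⟩
    exact hT0 _⟩
  have hlim := tendsto_atTop_ciInf hanti hb
  obtain ⟨L, hL⟩ : ∃ L, L = ⨅ i, T (i + n0) := ⟨_, rfl⟩
  rw [← hL] at hlim
  have hL0 : 0 ≤ L := ge_of_tendsto' hlim fun i => hT0 _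
  have hLle : ∀ i, L ≤ T (i + n0) := fun i => by
    rw [hL]
    exact ciInf_le hb i
  have hLz : L = 0 := by
    by_contra hne
    have hpos : 0 < L := lt_of_le_of_ne hL0 (Ne.symm hne)
    have hs2 : Summable fun i : ℕ => L * ((i + n0 : ℕ) : ℝ)⁻¹ := by
      refine Summable.of_nonneg_of_le (fun i => by positivity) (fun i => ?_)
        ((summable_nat_add_iff n0).2 hs)
      have hi : (0 : ℝ) < ((i + n0 : ℕ) : ℝ) := by
        have := (h1 (i + n0) (by omega)).1
        exact_mod_cast (by omega : 0 < i + n0)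
      rw [← div_eq_mul_inv, div_le_iff₀ hi]
      have := hLle i
      rw [hT] at this
      simp only [] at this
      linarith
    have hs3 : Summable fun i : ℕ => (((i + n0 : ℕ) : ℝ))⁻¹ := (summable_mul_left_iff hpos.ne').1 hs2
    exact Real.not_summable_natCast_inv ((summable_nat_add_iff n0).1 hs3)
  rw [hLz] at hlim
  have := (tendsto_add_atTop_iff_nat (f := T) n0).1 hlim
  rw [hT] at this
  exact this

end sums

/-- the sum -/
def FF (a b : ℝ) (z : ℂ) : ℂ := ∑' n, uu a b z n

section gauss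

variable {a b : ℝ} (hab : ∀ n : ℕ, 1 ≤ n → 0 ≤ (a + n) * (b + n))

include hab in
theorem uu_summable {z : ℂ} (hz : 0 < z.re) (hk : a + b < z.re) : Summable (uu a b z) :=
  Summable.of_norm_bounded (pp_sum hz hk hab).1 fun n => norm_uu_le hz n

theorem uu_add_one {z : ℂ} (hz : 0 < z.re) (n : ℕ) :
    uu a b (z + 1) n = uu a b z n * (z / (z + n)) := by
  have h0 : z ≠ 0 := by simpa using ne_add hz 0
  induction n with
  | zero =>
    rw [uu_zero, uu_zero]
    simp [h0]
  | succ n ih =>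
    rw [uu_succ, uu_succ, ih]
    have h1 := ne_add hz n
    have h2 := ne_add hz (n + 1)
    push_cast at h2
    have h3 : z + 1 + n = z + (n + 1) := by ring
    rw [h3]
    push_cast
    field_simp

theorem uu_tel {z : ℂ} (hz : 0 < z.re) (n : ℕ) :
    (z - a) * (z - b) * uu a b (z + 1) n - z * (z - a - b) * uu a b z n =
      z * (((n + 1 : ℕ) : ℂ) * uu a b z (n + 1)) - z * ((n : ℂ) * uu a b z n) := by
  rw [uu_add_one hz, uu_succ]
  have h1 := ne_add hz n
  have h4 : (1 : ℂ) + n ≠ 0 := by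
    have : (1 : ℝ) + n ≠ 0 := by positivity
    exact_mod_cast this
  push_cast
  field_simp
  ring

include hab in
/-- **contiguous relation** -/
theorem FF_step {z : ℂ} (hz : 0 < z.re) (hk : a + b < z.re) :
    z * (z - a - b) * FF a b z = (z - a) * (z - b) * FF a b (z + 1) := by
  have hz1 : 0 < (z + 1).re := by rw [add_re, one_re]; linarith
  have hk1 : a + b < (z + 1).re := by rw [add_re, one_re]; linarith
  have s1 := (uu_summable hab hz1 hk1).hasSum
  have s0 := (uu_summable hab hz hk).hasSum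
  have h1 := (s1.mul_left ((z - a) * (z - b))).sub (s0.mul_left (z * (z - a - b)))
  have h2 := h1.tendsto_sum_nat
  have h3 : ∀ N : ℕ, ∑ n ∈ range N, ((z - a) * (z - b) * uu a b (z + 1) n -
      z * (z - a - b) * uu a b z n) = z * ((N : ℂ) * uu a b z N) := by
    intro N
    rw [sum_congr rfl fun n _ => uu_tel hz n, sum_range_sub (fun n : ℕ => z * ((n : ℂ) * uu a b z n))]
    simp
  simp only [h3] at h2
  have h4 : Tendsto (fun N : ℕ => z * ((N : ℂ) * uu a b z N)) atTop (𝓝 (z * 0)) := by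
    refine Tendsto.const_mul z ?_
    refine squeeze_zero_norm (fun N => ?_) (pp_sum hz hk hab).2
    rw [norm_mul, Complex.norm_natCast]
    exact mul_le_mul_of_nonneg_left (norm_uu_le hz N) (Nat.cast_nonneg N)
  have h5 := tendsto_nhds_unique h2 h4
  rw [mul_zero] at h5
  unfold FF
  linear_combination -h5

include hab in
theorem FF_iter {z : ℂ} (hz : 0 < z.re) (hk : a + b < z.re) (m : ℕ) :
    (∏ j ∈ range m, ((z + j) * (z - a - b + j))) * FF a b z =
      (∏ j ∈ range m, ((z - a + j) * (z - b + j))) * FF a b (z + m) := by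
  induction m with
  | zero => simp
  | succ m ih =>
    have hm : (0 : ℝ) ≤ m := Nat.cast_nonneg m
    have hz1 : 0 < (z + m).re := by simp; linarith
    have hk1 : a + b < (z + m).re := by simp; linarith
    have h1 := FF_step hab hz1 hk1
    rw [prod_range_succ, prod_range_succ]
    have e : z + ((m + 1 : ℕ) : ℂ) = z + m + 1 := by push_cast; ring
    rw [e]
    calc (∏ j ∈ range m, ((z + j) * (z - a - b + j))) * ((z + m) * (z - a - b + m)) * FF a b z
        = ((z + m) * (z - a - b + m)) * ((∏ j ∈ range m, ((z + j) * (z - a - b + j))) * FF a b z) := by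
          ring
      _ = (∏ j ∈ range m, ((z - a + j) * (z - b + j))) *
          ((z + m) * (z + m - a - b) * FF a b (z + m)) := by rw [ih]; ring
      _ = _ := by rw [h1]; ring

include hab in
theorem FF_lim {z : ℂ} (hz : 0 < z.re) (hk : a + b < z.re) :
    Tendsto (fun m : ℕ => FF a b (z + m)) atTop (𝓝 1) := by
  have hs := (pp_sum hz hk hab).1
  have hb : ∀ m n : ℕ, ‖uu a b (z + m) (n + 1)‖ ≤ z.re / (z.re + m) * pp a b z.re (n + 1) := by
    intro m n
    have hm : (0 : ℝ) ≤ m := Nat.cast_nonneg m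
    have hz1 : 0 < (z + m).re := by simp; linarith
    refine (norm_uu_le hz1 _).trans ?_
    have e : (z + m).re = z.re + m := by simp
    rw [e]
    unfold pp
    rw [prod_range_succ', prod_range_succ', ← mul_assoc, mul_comm (z.re / (z.re + m)), mul_assoc]
    refine mul_le_mul (prod_le_prod (fun j _ => by positivity) fun j _ => ?_) (le_of_eq ?_)
      (by positivity) (prod_nonneg fun j _ => by positivity)
    · refine div_le_div_of_nonneg_left (abs_nonneg _) (by positivity) ?_
      refine mul_le_mul_of_nonneg_right ?_ (by positivity)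
      linarith
    · have h1 : z.re + m ≠ 0 := by positivity
      push_cast
      field_simp
      ring
  have h1 : ∀ m : ℕ, ‖FF a b (z + m) - 1‖ ≤ z.re / (z.re + m) * ∑' n, pp a b z.re (n + 1) := by
    intro m
    have hm : (0 : ℝ) ≤ m := Nat.cast_nonneg m
    have hz1 : 0 < (z + m).re := by simp; linarith
    have hk1 : a + b < (z + m).re := by simp; linarith
    have s1 := uu_summable hab hz1 hk1
    have e : FF a b (z + m) - 1 = ∑' n, uu a b (z + m) (n + 1) := by
      unfold FF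
      rw [s1.tsum_eq_zero_add, uu_zero]
      ring
    rw [e, ← tsum_mul_left]
    exact tsum_of_norm_bounded
      (((summable_nat_add_iff 1).2 hs).mul_left _).hasSum fun n => hb m n
  have h2 : Tendsto (fun m : ℕ => z.re / (z.re + m) * ∑' n, pp a b z.re (n + 1)) atTop (𝓝 0) := by
    have h3 : Tendsto (fun m : ℕ => z.re + (m : ℝ)) atTop atTop :=
      tendsto_atTop_add_const_left _ _ tendsto_natCast_atTop_atTop
    have h4 := (h3.const_div_atTop z.re).mul_const (∑' n, pp a b z.re (n + 1))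
    rwa [zero_mul] at h4
  have h5 := squeeze_zero_norm h1 h2
  have h6 := h5.add_const 1
  simpa using h6

include hab in
/-- **Gauss' summation theorem** -/
theorem gauss {z : ℂ} (hz : 0 < z.re) (ha : a < z.re) (hb : b < z.re) (hk : a + b < z.re) :
    FF a b z * (Complex.Gamma (z - a) * Complex.Gamma (z - b)) =
      Complex.Gamma z * Complex.Gamma (z - a - b) := by
  have g1 := (Complex.GammaSeq_tendsto_Gamma (z - a)).mul (Complex.GammaSeq_tendsto_Gamma (z - b))
  have g2 := (Complex.GammaSeq_tendsto_Gamma z).mul (Complex.GammaSeq_tendsto_Gamma (z - a - b))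
  have hl := (FF_lim hab hz hk).comp (tendsto_add_atTop_nat 1)
  have k1 := g1.const_mul (FF a b z)
  have k2 := g2.mul hl
  rw [mul_one] at k2
  refine tendsto_nhds_unique k1 (k2.congr' ?_)
  filter_upwards [eventually_ge_atTop 1] with n hn
  have hn0 : (n : ℂ) ≠ 0 := by
    have : n ≠ 0 := by omega
    exact_mod_cast this
  have key := FF_iter hab hz hk (n + 1)
  have p1 : ∏ j ∈ range (n + 1), (z - a + j) ≠ 0 :=
    prod_ne_zero_iff.2 fun j _ => ne_add (z := z - a) (by simp; linarith) j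
  have p2 : ∏ j ∈ range (n + 1), (z - b + j) ≠ 0 :=
    prod_ne_zero_iff.2 fun j _ => ne_add (z := z - b) (by simp; linarith) j
  have p3 : ∏ j ∈ range (n + 1), (z + j) ≠ 0 := prod_ne_zero_iff.2 fun j _ => ne_add hz j
  have p4 : ∏ j ∈ range (n + 1), (z - a - b + j) ≠ 0 :=
    prod_ne_zero_iff.2 fun j _ => ne_add (z := z - a - b) (by simp; linarith) j
  rw [prod_mul_distrib, prod_mul_distrib] at key
  have c1 : (n : ℂ) ^ (z - a) * (n : ℂ) ^ (z - b) = (n : ℂ) ^ z * (n : ℂ) ^ (z - a - b) := by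
    rw [← Complex.cpow_add _ _ hn0, ← Complex.cpow_add _ _ hn0]
    congr 1
    ring
  simp only [Function.comp_apply, Complex.GammaSeq]
  have e : ((n + 1 : ℕ) : ℂ) = (n : ℂ) + 1 := by push_cast; ring
  calc (n : ℂ) ^ z * (n.factorial : ℂ) / (∏ j ∈ range (n + 1), (z + j)) *
        ((n : ℂ) ^ (z - a - b) * (n.factorial : ℂ) / ∏ j ∈ range (n + 1), (z - a - b + j)) *
        FF a b (z + ((n + 1 : ℕ) : ℂ))
      = ((n : ℂ) ^ z * (n : ℂ) ^ (z - a - b)) * (n.factorial : ℂ) ^ 2 * FF a b (z + ((n + 1 : ℕ) : ℂ)) /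
        ((∏ j ∈ range (n + 1), (z + j)) * ∏ j ∈ range (n + 1), (z - a - b + j)) := by
        field_simp
    _ = ((n : ℂ) ^ (z - a) * (n : ℂ) ^ (z - b)) * (n.factorial : ℂ) ^ 2 * FF a b z /
        ((∏ j ∈ range (n + 1), (z - a + j)) * ∏ j ∈ range (n + 1), (z - b + j)) := by
        rw [c1, div_eq_div_iff (mul_ne_zero p3 p4) (mul_ne_zero p1 p2)]
        linear_combination (-((n : ℂ) ^ z * (n : ℂ) ^ (z - a - b)) * (n.factorial : ℂ) ^ 2) * key
    _ = _ := by
        field_simp

end gauss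

/-! ### the modulus -/

section modulus

variable {a b : ℝ} (hab : ∀ n : ℕ, 1 ≤ n → 0 ≤ (a + n) * (b + n))

theorem uu_conj (a b : ℝ) (z : ℂ) (n : ℕ) :
    uu a b ((starRingEnd ℂ) z) n = (starRingEnd ℂ) (uu a b z n) := by
  unfold uu
  rw [map_prod]
  refine prod_congr rfl fun j _ => ?_
  rw [map_div₀, map_mul, map_add, Complex.conj_ofReal, Complex.conj_ofReal, Complex.conj_natCast]

theorem FF_conj (a b : ℝ) (z : ℂ) : FF a b ((starRingEnd ℂ) z) = (starRingEnd ℂ) (FF a b z) := by
  unfold FF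
  rw [Complex.conj_tsum]
  exact tsum_congr fun n => uu_conj a b z n

include hab in
/-- the modulus on the line `Re z = (1 + a + b) / 2` -/
theorem norm_FF {c y : ℝ} (hc : 2 * c = 1 + a + b) (h0 : 0 < c) (ha : a < c) (hb : b < c)
    (hk : a + b < c) :
    ‖FF a b (c + y * I)‖ ^ 2 * (Real.cosh (2 * Real.pi * y) - Real.cos (2 * Real.pi * c)) =
      Real.cosh (2 * Real.pi * y) - Real.cos (2 * Real.pi * (c - a)) := by
  obtain ⟨z, hz⟩ : ∃ z : ℂ, z = c + y * I := ⟨_, rfl⟩
  rw [← hz]
  have hre : z.re = c := by rw [hz]; simp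
  have hzc : (starRingEnd ℂ) z = c - y * I := by
    rw [hz]
    simp
    ring
  obtain ⟨w, hw⟩ : ∃ w : ℂ, w = (starRingEnd ℂ) z := ⟨_, rfl⟩
  have hwre : w.re = c := by rw [hw, Complex.conj_re, hre]
  have g1 := gauss hab (z := z) (by rw [hre]; exact h0) (by rw [hre]; exact ha)
    (by rw [hre]; exact hb) (by rw [hre]; exact hk)
  have g2 := gauss hab (z := w) (by rw [hwre]; exact h0) (by rw [hwre]; exact ha)
    (by rw [hwre]; exact hb) (by rw [hwre]; exact hk)
  have hc' : (2 : ℂ) * c = 1 + a + b := by exact_mod_cast hc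
  have e1 : w - a - b = 1 - z := by
    rw [hw, hzc, hz]
    linear_combination hc'
  have e2 : w - b = 1 - (z - a) := by
    rw [hw, hzc, hz]
    linear_combination hc'
  have e3 : z - a - b = 1 - w := by
    rw [hw, hzc, hz]
    linear_combination hc'
  have e4 : z - b = 1 - (w - a) := by
    rw [hw, hzc, hz]
    linear_combination hc'
  have r1 := Complex.Gamma_mul_Gamma_one_sub z
  have r2 := Complex.Gamma_mul_Gamma_one_sub w
  have r3 := Complex.Gamma_mul_Gamma_one_sub (z - a)
  have r4 := Complex.Gamma_mul_Gamma_one_sub (w - a)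
  rw [← e1] at r1
  rw [← e3] at r2
  rw [← e2] at r3
  rw [← e4] at r4
  have hG : ∀ {u v : ℂ}, 0 < u.re → 0 < v.re → ∀ {s : ℂ},
      Complex.Gamma u * Complex.Gamma v = Real.pi / s → s ≠ 0 := by
    intro u v hu hv s h hs
    rw [hs, div_zero] at h
    exact mul_ne_zero (Complex.Gamma_ne_zero_of_re_pos hu) (Complex.Gamma_ne_zero_of_re_pos hv) h
  have q : ∀ (u : ℂ) (t : ℝ), (u - t).re = u.re - t := fun u t => by simp
  have s1 := hG (by rw [hre]; exact h0) (by rw [q, q, hwre]; linarith) r1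
  have s2 := hG (by rw [hwre]; exact h0) (by rw [q, q, hre]; linarith) r2
  have s3 := hG (by rw [q, hre]; linarith) (by rw [q, hwre]; linarith) r3
  have s4 := hG (by rw [q, hwre]; linarith) (by rw [q, hre]; linarith) r4
  have hp : (Real.pi : ℂ) ≠ 0 := by exact_mod_cast Real.pi_ne_zero
  have m1 : FF a b z * FF a b w = ((‖FF a b z‖ ^ 2 : ℝ) : ℂ) := by
    rw [hw, FF_conj, Complex.mul_conj, Complex.normSq_eq_norm_sq]
  have m2 : (FF a b z * FF a b w) *
      ((Complex.Gamma (z - a) * Complex.Gamma (w - b)) * (Complex.Gamma (w - a) * Complex.Gamma (z - b))) =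
      (Complex.Gamma z * Complex.Gamma (w - a - b)) * (Complex.Gamma w * Complex.Gamma (z - a - b)) := by
    linear_combination (FF a b w * (Complex.Gamma (w - a) * Complex.Gamma (w - b))) * g1 +
      (Complex.Gamma z * Complex.Gamma (z - a - b)) * g2
  rw [r1, r2, r3, r4, m1] at m2
  have m3 : ((‖FF a b z‖ ^ 2 : ℝ) : ℂ) * (Complex.sin (Real.pi * z) * Complex.sin (Real.pi * w)) =
      Complex.sin (Real.pi * (z - a)) * Complex.sin (Real.pi * (w - a)) := by
    field_simp at m2
    linear_combination m2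
  have t1 : ∀ u v : ℂ, Complex.sin u * Complex.sin v = (Complex.cos (u - v) - Complex.cos (u + v)) / 2 := by
    intro u v
    rw [Complex.cos_sub, Complex.cos_add]
    ring
  rw [t1, t1] at m3
  have a1 : (Real.pi : ℂ) * z - Real.pi * w = ((2 * Real.pi * y : ℝ) : ℂ) * I := by
    rw [hw, hzc, hz]
    push_cast
    ring
  have a2 : (Real.pi : ℂ) * z + Real.pi * w = ((2 * Real.pi * c : ℝ) : ℂ) := by
    rw [hw, hzc, hz]
    push_cast
    ring
  have a3 : (Real.pi : ℂ) * (z - a) - Real.pi * (w - a) = ((2 * Real.pi * y : ℝ) : ℂ) * I := by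
    rw [hw, hzc, hz]
    push_cast
    ring
  have a4 : (Real.pi : ℂ) * (z - a) + Real.pi * (w - a) = ((2 * Real.pi * (c - a) : ℝ) : ℂ) := by
    rw [hw, hzc, hz]
    push_cast
    ring
  rw [a1, a2, a3, a4, Complex.cos_mul_I, ← Complex.ofReal_cosh, ← Complex.ofReal_cos,
    ← Complex.ofReal_cos] at m3
  have m4 : ‖FF a b z‖ ^ 2 * ((Real.cosh (2 * Real.pi * y) - Real.cos (2 * Real.pi * c)) / 2) =
      (Real.cosh (2 * Real.pi * y) - Real.cos (2 * Real.pi * (c - a))) / 2 := by
    exact_mod_cast m3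
  linarith

end modulus

/-! ### the integrals -/

/-- `6 exp (-6 z x) (1 - exp (-6 x))^n` -/
def jj (n : ℕ) (z : ℂ) (x : ℝ) : ℂ :=
  6 * cexp (-(6 * z) * x) * ((1 - Real.exp (-(6 * x)) : ℝ) : ℂ) ^ n

theorem jj_succ (n : ℕ) (z : ℂ) (x : ℝ) : jj (n + 1) z x = jj n z x - jj n (z + 1) x := by
  unfold jj
  have e : cexp (-(6 * (z + 1)) * x) = cexp (-(6 * z) * x) * ((Real.exp (-(6 * x)) : ℝ) : ℂ) := by
    rw [Complex.ofReal_exp, ← Complex.exp_add]
    congr 1
    push_cast
    ring
  rw [e, pow_succ]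
  push_cast
  ring

theorem jj_int (n : ℕ) : ∀ {z : ℂ}, 0 < z.re → IntegrableOn (jj n z) (Set.Ioi 0) ∧
    ∫ x in Set.Ioi (0 : ℝ), jj n z x = (n.factorial : ℂ) / ∏ j ∈ range (n + 1), (z + j) := by
  induction n with
  | zero =>
    intro z hz
    have hre : (-(6 * z)).re < 0 := by
      have : (-(6 * z)).re = -(6 * z.re) := by simp
      rw [this]
      linarith
    have h0 : z ≠ 0 := by simpa using ne_add hz 0
    have e : jj 0 z = fun x : ℝ => 6 * cexp (-(6 * z) * x) := by
      funext x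
      unfold jj
      rw [pow_zero, mul_one]
    rw [e]
    refine ⟨(integrableOn_exp_mul_complex_Ioi hre 0).const_mul 6, ?_⟩
    rw [integral_const_mul, integral_exp_mul_complex_Ioi hre 0]
    simp
    field_simp
  | succ n ih =>
    intro z hz
    have hz1 : 0 < (z + 1).re := by rw [add_re, one_re]; linarith
    obtain ⟨i1, e1⟩ := ih hz
    obtain ⟨i2, e2⟩ := ih hz1
    have e : jj (n + 1) z = fun x => jj n z x - jj n (z + 1) x := funext fun x => jj_succ n z x
    rw [e]
    refine ⟨i1.sub i2, ?_⟩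
    rw [integral_sub i1 i2, e1, e2]
    have p1 : ∏ j ∈ range (n + 1), (z + j) = z * ∏ j ∈ range n, (z + 1 + j) := by
      rw [prod_range_succ', mul_comm]
      push_cast
      congr 1
      · ring
      · exact prod_congr rfl fun j _ => by ring
    have p2 : ∏ j ∈ range (n + 1), (z + 1 + j) = (∏ j ∈ range n, (z + 1 + j)) * (z + 1 + n) := by
      rw [prod_range_succ]
    have p3 : ∏ j ∈ range (n + 1 + 1), (z + j) =
        z * ((∏ j ∈ range n, (z + 1 + j)) * (z + 1 + n)) := by
      rw [prod_range_succ', mul_comm, ← p2]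
      push_cast
      congr 1
      · ring
      · exact prod_congr rfl fun j _ => by ring
    rw [p1, p2, p3]
    have n1 : ∏ j ∈ range n, (z + 1 + j) ≠ 0 := prod_ne_zero_iff.2 fun j _ => ne_add hz1 j
    have n2 := ne_add hz1 n
    have n3 : z ≠ 0 := by simpa using ne_add hz 0
    rw [Nat.factorial_succ]
    push_cast
    field_simp
    ring

theorem norm_jj (n : ℕ) (z : ℂ) {x : ℝ} (hx : 0 < x) :
    ‖jj n z x‖ = 6 * Real.exp (-(6 * z.re * x)) * (1 - Real.exp (-(6 * x))) ^ n := by
  unfold jj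
  have h1 : 0 ≤ 1 - Real.exp (-(6 * x)) := by
    have : Real.exp (-(6 * x)) ≤ 1 := Real.exp_le_one_iff.2 (by linarith)
    linarith
  rw [norm_mul, norm_mul, norm_pow, Complex.norm_real, Real.norm_eq_abs, abs_of_nonneg h1,
    Complex.norm_exp]
  have e : (-(6 * z) * x).re = -(6 * z.re * x) := by simp
  rw [e]
  norm_num

/-- the real integral -/
theorem jr_int (n : ℕ) {lam : ℝ} (hl : 0 < lam) :
    IntegrableOn (fun x => 6 * Real.exp (-(6 * lam * x)) * (1 - Real.exp (-(6 * x))) ^ n)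
      (Set.Ioi 0) ∧
    ∫ x in Set.Ioi (0 : ℝ), 6 * Real.exp (-(6 * lam * x)) * (1 - Real.exp (-(6 * x))) ^ n =
      (n.factorial : ℝ) / ∏ j ∈ range (n + 1), (lam + j) := by
  obtain ⟨i1, e1⟩ := jj_int n (z := (lam : ℂ)) (by simpa using hl)
  have e : ∀ x : ℝ, jj n lam x =
      ((6 * Real.exp (-(6 * lam * x)) * (1 - Real.exp (-(6 * x))) ^ n : ℝ) : ℂ) := by
    intro x
    unfold jj
    have : cexp (-(6 * (lam : ℂ)) * x) = ((Real.exp (-(6 * lam * x)) : ℝ) : ℂ) := by
      rw [Complex.ofReal_exp]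
      congr 1
      push_cast
      ring
    rw [this]
    push_cast
    ring
  constructor
  · have h := i1.re
    refine h.congr (Eventually.of_forall fun x => ?_)
    show (jj n lam x).re = _
    rw [e, Complex.ofReal_re]
  · simp only [e] at e1
    rw [integral_complex_ofReal] at e1
    exact_mod_cast e1

/-- termwise bound -/
theorem term_le {lam x : ℝ} (hl : 0 < lam) (hx : 0 ≤ x) (n : ℕ) :
    (1 - Real.exp (-(6 * x))) ^ n * Real.exp (-(6 * lam * x)) ≤
      lam * ((n.factorial : ℝ) / ∏ j ∈ range (n + 1), (lam + j)) := by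
  obtain ⟨i1, e1⟩ := jr_int n hl
  have h1 : ∀ y : ℝ, 0 ≤ y → 0 ≤ 1 - Real.exp (-(6 * y)) := by
    intro y hy
    have : Real.exp (-(6 * y)) ≤ 1 := Real.exp_le_one_iff.2 (by linarith)
    linarith
  have i2 := i1.mono_set (Set.Ioi_subset_Ioi hx)
  have i3 : IntegrableOn (fun t : ℝ => Real.exp (-(6 * lam) * t)) (Set.Ioi x) :=
    integrableOn_exp_mul_Ioi (by linarith) x
  have e3 : ∫ t in Set.Ioi x, Real.exp (-(6 * lam) * t) = Real.exp (-(6 * lam * x)) / (6 * lam) := by
    rw [integral_exp_mul_Ioi (by linarith)]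
    rw [neg_div, div_neg, neg_neg]
    congr 2
    ring
  have k1 : ∫ t in Set.Ioi x, 6 * (1 - Real.exp (-(6 * x))) ^ n * Real.exp (-(6 * lam) * t) ≤
      ∫ t in Set.Ioi x, 6 * Real.exp (-(6 * lam * t)) * (1 - Real.exp (-(6 * t))) ^ n := by
    refine setIntegral_mono_on (i3.const_mul _) i2 measurableSet_Ioi fun t ht => ?_
    have ht' : x < t := ht
    have q1 : Real.exp (-(6 * t)) ≤ Real.exp (-(6 * x)) := Real.exp_le_exp.2 (by linarith)
    have q2 : (1 - Real.exp (-(6 * x))) ^ n ≤ (1 - Real.exp (-(6 * t))) ^ n :=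
      pow_le_pow_left₀ (h1 x hx) (by linarith) n
    have q3 : Real.exp (-(6 * lam) * t) = Real.exp (-(6 * lam * t)) := by
      congr 1
      ring
    rw [q3]
    have := mul_le_mul_of_nonneg_left q2
      (by positivity : 0 ≤ 6 * Real.exp (-(6 * lam * t)))
    linarith
  have k2 : ∫ t in Set.Ioi x, 6 * Real.exp (-(6 * lam * t)) * (1 - Real.exp (-(6 * t))) ^ n ≤
      ∫ t in Set.Ioi (0 : ℝ), 6 * Real.exp (-(6 * lam * t)) * (1 - Real.exp (-(6 * t))) ^ n := by
    refine setIntegral_mono_set i1 ?_ (Set.Ioi_subset_Ioi hx).eventuallyLE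
    refine (ae_restrict_iff' measurableSet_Ioi).2 (Eventually.of_forall fun t ht => ?_)
    have ht' : 0 < t := ht
    have := h1 t ht'.le
    simp only [Pi.zero_apply]
    positivity
  rw [integral_const_mul, e3] at k1
  rw [e1] at k2
  have k3 := k1.trans k2
  have e4 : 6 * (1 - Real.exp (-(6 * x))) ^ n * (Real.exp (-(6 * lam * x)) / (6 * lam)) =
      (1 - Real.exp (-(6 * x))) ^ n * Real.exp (-(6 * lam * x)) / lam := by
    field_simp
  rw [e4, div_le_iff₀ hl] at k3
  linarith

/-! ### the coefficients -/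

/-- coefficients -/
def P (th : ℝ) (n : ℕ) : ℝ :=
  ∏ j ∈ range n, ((17 / 12 + j) * (1 + th / 12 + j)) / ((2 + j) * (1 + j))

/-- the shift of the parameter -/
def cc (th : ℝ) : ℝ := (17 + th) / 24

section coef

variable {th : ℝ}

theorem P_nonneg (h : -1 ≤ th) (n : ℕ) : 0 ≤ P th n := by
  unfold P
  refine prod_nonneg fun j _ => ?_
  have hj : (0 : ℝ) ≤ j := Nat.cast_nonneg j
  have : 0 ≤ 1 + th / 12 + j := by linarith
  positivity

theorem P_le (h : -1 ≤ th) (h' : th ≤ 1) (n : ℕ) : P th n ≤ 1 := by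
  unfold P
  refine prod_le_one (fun j _ => ?_) fun j _ => ?_
  · have hj : (0 : ℝ) ≤ j := Nat.cast_nonneg j
    have : 0 ≤ 1 + th / 12 + j := by linarith
    positivity
  · have hj : (0 : ℝ) ≤ j := Nat.cast_nonneg j
    rw [div_le_one (by positivity)]
    have : (17 / 12 + (j : ℝ)) * (1 + th / 12 + j) ≤ (17 / 12 + j) * (13 / 12 + j) :=
      mul_le_mul_of_nonneg_left (by linarith) (by positivity)
    nlinarith

theorem P_succ (th : ℝ) (n : ℕ) : P th (n + 1) =
    P th n * (((17 / 12 + n) * (1 + th / 12 + n)) / ((2 + n) * (1 + n))) := by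
  unfold P
  rw [prod_range_succ]

theorem uu_P (z : ℂ) (hz : 0 < z.re) (n : ℕ) : uu (5 / 12) (th / 12) z (n + 1) =
    (th : ℂ) * (5 / 144) * P th n * ((n.factorial : ℂ) / ∏ j ∈ range (n + 1), (z + j)) := by
  induction n with
  | zero =>
    rw [uu_succ, uu_zero]
    have h0 : z ≠ 0 := by simpa using ne_add hz 0
    simp [P]
    field_simp
    ring
  | succ n ih =>
    rw [uu_succ, ih, P_succ, prod_range_succ _ (n + 1), Nat.factorial_succ]
    have h1 : ∏ j ∈ range (n + 1), (z + j) ≠ 0 := prod_ne_zero_iff.2 fun j _ => ne_add hz j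
    generalize ∏ j ∈ range (n + 1), (z + (j : ℂ)) = D at h1 ⊢
    generalize P th n = p
    have h2 := ne_add hz (n + 1)
    push_cast at h2
    have h3 : (1 : ℂ) + n ≠ 0 := by
      have : (1 : ℝ) + n ≠ 0 := by positivity
      exact_mod_cast this
    have h4 : (2 : ℂ) + n ≠ 0 := by
      have : (2 : ℝ) + n ≠ 0 := by positivity
      exact_mod_cast this
    have h5 : (1 : ℂ) + (n + 1) ≠ 0 := by
      intro h
      apply h4
      linear_combination h
    push_cast
    field_simp
    ring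

theorem pp_P (h : -1 ≤ th) (lam : ℝ) (hl : 0 < lam) (n : ℕ) : pp (5 / 12) (th / 12) lam (n + 1) =
    |th| * (5 / 144) * P th n * ((n.factorial : ℝ) / ∏ j ∈ range (n + 1), (lam + j)) := by
  induction n with
  | zero =>
    rw [pp_succ]
    simp [P, pp]
    rw [abs_div]
    have e5 : |(5 : ℝ) / 12| = 5 / 12 := abs_of_pos (by norm_num)
    have e12 : |(12 : ℝ)| = 12 := abs_of_pos (by norm_num)
    simp only [abs_div, e12, show |(5 : ℝ)| = 5 from abs_of_pos (by norm_num)]
    field_simp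
    ring
  | succ n ih =>
    rw [pp_succ, ih, P_succ, prod_range_succ _ (n + 1), Nat.factorial_succ]
    have hn : (0 : ℝ) ≤ n := Nat.cast_nonneg n
    have h0 : 0 ≤ (5 / 12 + ((n + 1 : ℕ) : ℝ)) * (th / 12 + ((n + 1 : ℕ) : ℝ)) := by
      push_cast
      have : 0 ≤ th / 12 + (n + 1) := by linarith
      positivity
    rw [abs_of_nonneg h0]
    have h1 : ∏ j ∈ range (n + 1), (lam + (j : ℝ)) ≠ 0 :=
      prod_ne_zero_iff.2 fun j _ => by positivity
    generalize ∏ j ∈ range (n + 1), (lam + (j : ℝ)) = D at h1 ⊢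
    generalize P th n = p
    have h2 : lam + (n + 1 : ℝ) ≠ 0 := by positivity
    push_cast
    field_simp
    ring

end coef

/-! ### the function -/

/-- the even extension -/
def rr (th x : ℝ) : ℝ := 6 * Real.exp (-(6 * cc th * |x|)) *
  ∑' n, 5 / 144 * P th n * (1 - Real.exp (-(6 * |x|))) ^ n

/-- **the function on the half line** -/
def rho (th : ℝ) : ℝ → ℝ := (Set.Ioi (0 : ℝ)).indicator (rr th)

section fn

variable {th : ℝ} (h1 : -1 ≤ th) (h2 : th ≤ 1)

theorem vv_mem (x : ℝ) : 0 ≤ 1 - Real.exp (-(6 * |x|)) ∧ 1 - Real.exp (-(6 * |x|)) < 1 := by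
  have e1 : Real.exp (-(6 * |x|)) ≤ 1 := Real.exp_le_one_iff.2 (by
    have := abs_nonneg x
    linarith)
  have e2 := Real.exp_pos (-(6 * |x|))
  constructor <;> linarith

include h1 h2 in
theorem P_abs (n : ℕ) : |5 / 144 * P th n| ≤ 5 / 144 := by
  have a1 := P_nonneg h1 n
  have a2 := P_le h1 h2 n
  rw [abs_of_nonneg (by positivity)]
  linarith

include h1 h2 in
theorem ps_summable {v : ℝ} (hv : |v| < 1) : Summable fun n => 5 / 144 * P th n * v ^ n := by
  refine Summable.of_norm_bounded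
    (g := fun n : ℕ => 5 / 144 * |v| ^ n) ((summable_geometric_of_lt_one (abs_nonneg v) hv).mul_left _)
    fun n => ?_
  rw [norm_mul, norm_pow, Real.norm_eq_abs, Real.norm_eq_abs]
  exact mul_le_mul_of_nonneg_right (P_abs h1 h2 n) (by positivity)

include h1 h2 in
theorem ps_cont {v : ℝ} (hv : |v| < 1) :
    ContinuousAt (fun v : ℝ => ∑' n, 5 / 144 * P th n * v ^ n) v := by
  obtain ⟨r, hr1, hr2⟩ := exists_between hv
  have hr0 : 0 ≤ r := (abs_nonneg v).trans hr1.le
  have h : ContinuousOn (fun v : ℝ => ∑' n, 5 / 144 * P th n * v ^ n) (Set.Ioo (-r) r) := by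
    refine continuousOn_tsum (u := fun n : ℕ => 5 / 144 * r ^ n) (fun n => by fun_prop)
      ((summable_geometric_of_lt_one hr0 hr2).mul_left _) fun n x hx => ?_
    have hx' : |x| ≤ r := (abs_lt.2 hx).le
    rw [norm_mul, norm_pow, Real.norm_eq_abs, Real.norm_eq_abs]
    exact mul_le_mul (P_abs h1 h2 n) (pow_le_pow_left₀ (abs_nonneg x) hx' n) (by positivity)
      (by norm_num)
  exact h.continuousAt (isOpen_Ioo.mem_nhds (abs_lt.1 hr1))

include h1 h2 in
theorem rr_cont : Continuous (rr th) := by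
  rw [continuous_iff_continuousAt]
  intro x
  unfold rr
  refine ContinuousAt.mul (by fun_prop) ?_
  have hv : |1 - Real.exp (-(6 * |x|))| < 1 := by
    rw [abs_of_nonneg (vv_mem x).1]
    exact (vv_mem x).2
  exact ContinuousAt.comp (f := fun x : ℝ => 1 - Real.exp (-(6 * |x|)))
    (g := fun v : ℝ => ∑' n, 5 / 144 * P th n * v ^ n) (ps_cont h1 h2 hv) (by fun_prop)

theorem rr_neg (x : ℝ) : rr th (-x) = rr th x := by
  unfold rr
  rw [abs_neg]

theorem rr_zero : rr th 0 = 5 / 24 := by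
  unfold rr
  have : (∑' n : ℕ, 5 / 144 * P th n * (1 - Real.exp (-(6 * |(0 : ℝ)|))) ^ n) = 5 / 144 := by
    rw [tsum_eq_single 0]
    · simp [P]
    · intro n hn
      simp [hn]
  rw [this]
  simp
  norm_num

include h1 in
theorem rr_nonneg (x : ℝ) : 0 ≤ rr th x := by
  unfold rr
  refine mul_nonneg (by positivity) (tsum_nonneg fun n => ?_)
  have := P_nonneg h1 n
  have := (vv_mem x).1
  positivity

end fn

/-- the conditions on the parameter -/
theorem th_cases {th : ℝ} (hth : th = 1 ∨ th = -1) : -1 ≤ th ∧ th ≤ 1 ∧ |th| = 1 ∧ th * th = 1 := by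
  rcases hth with rfl | rfl <;> norm_num

theorem hab_th {th : ℝ} (hth : th = 1 ∨ th = -1) (n : ℕ) (hn : 1 ≤ n) :
    0 ≤ ((5 / 12 : ℝ) + n) * (th / 12 + n) := by
  obtain ⟨h1, h2, -, -⟩ := th_cases hth
  have : (1 : ℝ) ≤ n := by exact_mod_cast hn
  have h3 : 0 ≤ th / 12 + n := by linarith
  positivity

theorem co_sum {th lam : ℝ} (hth : th = 1 ∨ th = -1) (hl : 0 < lam)
    (hk : 5 / 12 + th / 12 < lam) :
    Summable fun n : ℕ => 5 / 144 * P th n * ((n.factorial : ℝ) / ∏ j ∈ range (n + 1), (lam + j)) := by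
  obtain ⟨h1, h2, h3, -⟩ := th_cases hth
  have hs := (pp_sum (a := 5 / 12) (b := th / 12) hl hk (hab_th hth)).1
  have := (summable_nat_add_iff 1).2 hs
  refine this.congr fun n => ?_
  rw [pp_P h1 lam hl, h3]
  ring

/-- exponential decay -/
theorem rr_decay {th : ℝ} (hth : th = 1 ∨ th = -1) :
    ∃ C : ℝ, 0 ≤ C ∧ ∀ x, |rr th x| ≤ C * Real.exp (-(5 / 4 * |x|)) := by
  obtain ⟨h1, h2, h3, -⟩ := th_cases hth
  obtain ⟨lam, hlam⟩ : ∃ lam, lam = cc th - 5 / 24 := ⟨_, rfl⟩
  have hl : 0 < lam := by rw [hlam]; unfold cc; linarith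
  have hk : 5 / 12 + th / 12 < lam := by
    rw [hlam]
    unfold cc
    rcases hth with rfl | rfl <;> norm_num
  have hs := co_sum hth hl hk
  refine ⟨6 * (lam * ∑' n : ℕ, 5 / 144 * P th n *
    ((n.factorial : ℝ) / ∏ j ∈ range (n + 1), (lam + j))), ?_, fun x => ?_⟩
  · refine mul_nonneg (by norm_num) (mul_nonneg hl.le (tsum_nonneg fun n => ?_))
    have := P_nonneg h1 n
    have : 0 ≤ ∏ j ∈ range (n + 1), (lam + (j : ℝ)) := prod_nonneg fun j _ => by positivity
    positivity
  · rw [abs_of_nonneg (rr_nonneg h1 x)]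
    have hv : |1 - Real.exp (-(6 * |x|))| < 1 := by
      rw [abs_of_nonneg (vv_mem x).1]
      exact (vv_mem x).2
    have hps := ps_summable h1 h2 hv
    have k1 : (∑' n, 5 / 144 * P th n * (1 - Real.exp (-(6 * |x|))) ^ n) *
        Real.exp (-(6 * lam * |x|)) ≤ lam * ∑' n : ℕ, 5 / 144 * P th n *
          ((n.factorial : ℝ) / ∏ j ∈ range (n + 1), (lam + j)) := by
      rw [← tsum_mul_right, ← tsum_mul_left]
      refine (hps.mul_right _).tsum_le_tsum (fun n => ?_) (hs.mul_left _)
      have e := term_le hl (abs_nonneg x) n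
      have := mul_le_mul_of_nonneg_left e (by
        have := P_nonneg h1 n
        positivity : 0 ≤ 5 / 144 * P th n)
      linarith
    have e2 : Real.exp (-(6 * cc th * |x|)) =
        Real.exp (-(6 * lam * |x|)) * Real.exp (-(5 / 4 * |x|)) := by
      rw [← Real.exp_add]
      congr 1
      rw [hlam]
      ring
    unfold rr
    rw [e2]
    calc 6 * (Real.exp (-(6 * lam * |x|)) * Real.exp (-(5 / 4 * |x|))) *
          ∑' n, 5 / 144 * P th n * (1 - Real.exp (-(6 * |x|))) ^ n
        = 6 * Real.exp (-(5 / 4 * |x|)) * ((∑' n, 5 / 144 * P th n *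
          (1 - Real.exp (-(6 * |x|))) ^ n) * Real.exp (-(6 * lam * |x|))) := by ring
      _ ≤ 6 * Real.exp (-(5 / 4 * |x|)) * (lam * ∑' n : ℕ, 5 / 144 * P th n *
          ((n.factorial : ℝ) / ∏ j ∈ range (n + 1), (lam + j))) :=
          mul_le_mul_of_nonneg_left k1 (by positivity)
      _ = _ := by ring

/-! ### the transform -/

theorem exp_jj (th k x : ℝ) (hx : 0 < x) : ((rr th x : ℝ) : ℂ) * cexp (I * k * x) =
    ∑' n, ((5 / 144 * P th n : ℝ) : ℂ) * jj n ((cc th : ℂ) + ((-(k / 6) : ℝ) : ℂ) * I) x := by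
  unfold rr
  rw [abs_of_pos hx]
  push_cast
  rw [← tsum_mul_left, ← tsum_mul_right]
  refine tsum_congr fun n => ?_
  unfold jj
  have e : cexp (-(6 * ((cc th : ℂ) + ((-(k / 6) : ℝ) : ℂ) * I)) * x) =
      cexp (-(6 * cc th * x)) * cexp (I * k * x) := by
    rw [← Complex.exp_add]
    congr 1
    push_cast
    ring
  push_cast at e ⊢
  rw [e]
  ring

theorem cc_pos {th : ℝ} (hth : th = 1 ∨ th = -1) : 0 < cc th := by
  unfold cc
  rcases hth with rfl | rfl <;> norm_num

theorem tr_eq {th : ℝ} (hth : th = 1 ∨ th = -1) (k : ℝ) :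
    1 + (th : ℂ) * ∫ x in Set.Ioi (0 : ℝ), ((rr th x : ℝ) : ℂ) * cexp (I * k * x) =
      FF (5 / 12) (th / 12) ((cc th : ℂ) + ((-(k / 6) : ℝ) : ℂ) * I) := by
  obtain ⟨h1, h2, h3, h4⟩ := th_cases hth
  have hc := cc_pos hth
  obtain ⟨z, hz⟩ : ∃ z : ℂ, z = (cc th : ℂ) + ((-(k / 6) : ℝ) : ℂ) * I := ⟨_, rfl⟩
  have hre : z.re = cc th := by
    rw [hz]
    simp
  have hz0 : 0 < z.re := by rw [hre]; exact hc
  have hk : 5 / 12 + th / 12 < cc th := by
    unfold cc
    rcases hth with rfl | rfl <;> norm_num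
  have e1 : ∫ x in Set.Ioi (0 : ℝ), ((rr th x : ℝ) : ℂ) * cexp (I * k * x) =
      ∫ x in Set.Ioi (0 : ℝ), ∑' n, ((5 / 144 * P th n : ℝ) : ℂ) * jj n z x := by
    refine setIntegral_congr_fun measurableSet_Ioi fun x hx => ?_
    rw [exp_jj th k x hx, hz]
  have i1 : ∀ n, IntegrableOn (fun x => ((5 / 144 * P th n : ℝ) : ℂ) * jj n z x) (Set.Ioi 0) :=
    fun n => (jj_int n hz0).1.const_mul _
  have i2 : ∀ n, ∫ x in Set.Ioi (0 : ℝ), ‖((5 / 144 * P th n : ℝ) : ℂ) * jj n z x‖ =
      5 / 144 * P th n * ((n.factorial : ℝ) / ∏ j ∈ range (n + 1), (cc th + j)) := by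
    intro n
    have e : ∀ x ∈ Set.Ioi (0 : ℝ), ‖((5 / 144 * P th n : ℝ) : ℂ) * jj n z x‖ =
        5 / 144 * P th n * (6 * Real.exp (-(6 * cc th * x)) * (1 - Real.exp (-(6 * x))) ^ n) := by
      intro x hx
      have hP : 0 ≤ 5 / 144 * P th n := by
        have := P_nonneg h1 n
        positivity
      rw [norm_mul, norm_jj n z hx, hre, Complex.norm_real, Real.norm_eq_abs, abs_of_nonneg hP]
    rw [setIntegral_congr_fun measurableSet_Ioi e, integral_const_mul, (jr_int n hc).2]
  have key := hasSum_integral_of_summable_integral_norm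
    (μ := volume.restrict (Set.Ioi (0 : ℝ))) (F := fun (n : ℕ) (x : ℝ) =>
      ((5 / 144 * P th n : ℝ) : ℂ) * jj n z x) i1 (by
      simp only [i2]
      exact co_sum hth hc hk)
  rw [e1, ← key.tsum_eq, ← hz]
  have s1 := uu_summable (hab_th hth) (z := z) hz0 (by rw [hre]; exact hk)
  unfold FF
  rw [s1.tsum_eq_zero_add, uu_zero, ← tsum_mul_left]
  congr 1
  refine tsum_congr fun n => ?_
  rw [integral_const_mul, (jj_int n hz0).2, uu_P z hz0]
  push_cast
  ring

/-- **the factor** -/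
theorem tr_norm {th : ℝ} (hth : th = 1 ∨ th = -1) (k : ℝ) :
    ‖1 + (th : ℂ) * ∫ x in Set.Ioi (0 : ℝ), ((rr th x : ℝ) : ℂ) * cexp (I * k * x)‖ ^ 2 =
      Real.exp (th * NUQ.gg k) := by
  rw [tr_eq hth]
  have hm := norm_FF (hab_th hth) (c := cc th) (y := -(k / 6)) (by unfold cc; ring) (cc_pos hth)
    (by unfold cc; rcases hth with rfl | rfl <;> norm_num)
    (by unfold cc; rcases hth with rfl | rfl <;> norm_num)
    (by unfold cc; rcases hth with rfl | rfl <;> norm_num)
  have ec : Real.cosh (2 * Real.pi * -(k / 6)) = Real.cosh (Real.pi * k / 3) := by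
    rw [show 2 * Real.pi * -(k / 6) = -(Real.pi * k / 3) by ring, Real.cosh_neg]
  rw [ec] at hm
  have hp := Real.cosh_pos (Real.pi * k / 3)
  have c1 : Real.cos (2 * Real.pi * (3 / 4)) = 0 := by
    rw [show 2 * Real.pi * (3 / 4) = Real.pi / 2 + Real.pi by ring, Real.cos_add_pi,
      Real.cos_pi_div_two, neg_zero]
  have c2 : Real.cos (2 * Real.pi * (1 / 3)) = -(1 / 2) := by
    rw [show 2 * Real.pi * (1 / 3) = Real.pi - Real.pi / 3 by ring, Real.cos_pi_sub,
      Real.cos_pi_div_three]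
  have c3 : Real.cos (2 * Real.pi * (2 / 3)) = -(1 / 2) := by
    rw [show 2 * Real.pi * (2 / 3) = Real.pi / 3 + Real.pi by ring, Real.cos_add_pi,
      Real.cos_pi_div_three]
  have c4 : Real.cos (2 * Real.pi * (1 / 4)) = 0 := by
    rw [show 2 * Real.pi * (1 / 4) = Real.pi / 2 by ring, Real.cos_pi_div_two]
  rcases hth with rfl | rfl
  · have e1 : cc 1 = 3 / 4 := by unfold cc; norm_num
    rw [e1, c1, show (3 / 4 - 5 / 12 : ℝ) = 1 / 3 by norm_num, c2] at hm
    rw [one_mul, NUQ.gg_exp, e1]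
    field_simp at hm ⊢
    linarith
  · have e1 : cc (-1) = 2 / 3 := by unfold cc; norm_num
    rw [e1, c3, show (2 / 3 - 5 / 12 : ℝ) = 1 / 4 by norm_num, c4] at hm
    rw [neg_one_mul, Real.exp_neg, NUQ.gg_exp, e1]
    have h5 : 0 < 1 + 1 / (2 * Real.cosh (Real.pi * k / 3)) := by positivity
    refine eq_inv_of_mul_eq_one_left ?_
    have h6 : 1 + 1 / (2 * Real.cosh (Real.pi * k / 3)) =
        (Real.cosh (Real.pi * k / 3) + 1 / 2) / Real.cosh (Real.pi * k / 3) := by
      field_simp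
    rw [h6, mul_div_assoc', div_eq_one_iff_eq hp.ne']
    linarith

/-! ### the norm of the function -/

section corr

variable {th : ℝ} (hth : th = 1 ∨ th = -1)

include hth in
theorem rr_int : Integrable (rr th) := by
  obtain ⟨h1, h2, -, -⟩ := th_cases hth
  obtain ⟨C, hC, hb⟩ := rr_decay hth
  exact ((NUQ.int_exp_abs (b := 5 / 4) (by norm_num)).const_mul C).mono'
    (rr_cont h1 h2).aestronglyMeasurable (Eventually.of_forall fun x => hb x)

include hth in
theorem rho_meas : Measurable (rho th) := by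
  obtain ⟨h1, h2, -, -⟩ := th_cases hth
  exact (rr_cont h1 h2).measurable.indicator measurableSet_Ioi

include hth in
theorem rho_int : Integrable (rho th) := (rr_int hth).indicator measurableSet_Ioi

include hth in
theorem rho_decay : ∃ C : ℝ, 0 ≤ C ∧ (∀ x, |rho th x| ≤ C * Real.exp (-(5 / 4 * x))) ∧
    ∀ x, |rho th x| ≤ C := by
  obtain ⟨C, hC, hb⟩ := rr_decay hth
  refine ⟨C, hC, fun x => ?_, fun x => ?_⟩
  · unfold rho
    by_cases hx : x ∈ Set.Ioi (0 : ℝ)
    · rw [Set.indicator_of_mem hx]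
      have := hb x
      rwa [abs_of_pos (show 0 < x from hx)] at this
    · rw [Set.indicator_of_notMem hx, abs_zero]
      positivity
  · unfold rho
    by_cases hx : x ∈ Set.Ioi (0 : ℝ)
    · rw [Set.indicator_of_mem hx]
      refine (hb x).trans (mul_le_of_le_one_right hC (Real.exp_le_one_iff.2 ?_))
      have := abs_nonneg x
      linarith
    · rw [Set.indicator_of_notMem hx, abs_zero]
      exact hC

include hth in
theorem rho_cont {y : ℝ} (hy : y ≠ 0) : ContinuousAt (rho th) y := by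
  obtain ⟨h1, h2, -, -⟩ := th_cases hth
  rcases lt_or_gt_of_ne hy with h | h
  · refine (continuousAt_const (y := (0 : ℝ))).congr ?_
    filter_upwards [isOpen_Iio.mem_nhds h] with x hx
    unfold rho
    rw [Set.indicator_of_notMem]
    simpa using (le_of_lt hx)
  · refine (rr_cont h1 h2).continuousAt.congr ?_
    filter_upwards [isOpen_Ioi.mem_nhds h] with x hx
    unfold rho
    rw [Set.indicator_of_mem hx]

/-- autocorrelation -/
def AA (th x : ℝ) : ℝ := ∫ t, rho th t * rho th (t - x)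

include hth in
theorem AA_cont : Continuous (AA th) := by
  rw [continuous_iff_continuousAt]
  intro x0
  obtain ⟨C, hC, -, hb⟩ := rho_decay hth
  have hm := rho_meas hth
  refine continuousAt_of_dominated (bound := fun t => C * |rho th t|)
    (Eventually.of_forall fun x => ?_) (Eventually.of_forall fun x => Eventually.of_forall fun t => ?_)
    ((rho_int hth).abs.const_mul C) ?_
  · exact (hm.mul (hm.comp (measurable_id.sub_const x))).aestronglyMeasurable
  · rw [norm_mul, Real.norm_eq_abs, Real.norm_eq_abs, mul_comm]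
    exact mul_le_mul_of_nonneg_right (hb _) (abs_nonneg _)
  · have hne : ∀ᵐ t : ℝ, t ≠ x0 := by
      rw [ae_iff]
      simp
    filter_upwards [hne] with t ht
    refine continuousAt_const.mul ?_
    exact ContinuousAt.comp (f := fun x : ℝ => t - x) (g := rho th)
      (rho_cont hth (sub_ne_zero.2 ht)) (by fun_prop)

/-- the transform on the half line -/
def rh (th k : ℝ) : ℂ := ∫ x, ((rho th x : ℝ) : ℂ) * cexp (I * k * x)

theorem rh_Ioi (th k : ℝ) :
    rh th k = ∫ x in Set.Ioi (0 : ℝ), ((rr th x : ℝ) : ℂ) * cexp (I * k * x) := by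
  unfold rh
  rw [← integral_indicator measurableSet_Ioi]
  refine integral_congr_ae (Eventually.of_forall fun x => ?_)
  unfold rho
  by_cases hx : x ∈ Set.Ioi (0 : ℝ)
  · simp only [Set.indicator_of_mem hx]
  · simp only [Set.indicator_of_notMem hx]
    simp

include hth in
theorem fk_int (k : ℝ) : Integrable fun x => ((rho th x : ℝ) : ℂ) * cexp (I * k * x) := by
  have h := NUQ.Ft_int (rho_int hth) k
  refine h.congr (Eventually.of_forall fun x => ?_)
  simp only []
  ring

theorem rh_conj (th k : ℝ) : ∫ x, ((rho th (-x) : ℝ) : ℂ) * cexp (I * k * x) =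
    (starRingEnd ℂ) (rh th k) := by
  unfold rh
  rw [← integral_conj, ← integral_neg_eq_self]
  refine integral_congr_ae (Eventually.of_forall fun x => ?_)
  simp only [neg_neg, map_mul, Complex.conj_ofReal]
  congr 1
  rw [← Complex.exp_conj]
  congr 1
  simp

include hth in
theorem AA_tr (k : ℝ) : Integrable (AA th) ∧
    NUQ.Ft (AA th) k = ((‖rh th k‖ ^ 2 : ℝ) : ℂ) := by
  have i1 := fk_int hth k
  have i2 : Integrable fun x => ((rho th (-x) : ℝ) : ℂ) * cexp (I * k * x) := by
    have := (fk_int hth (-k)).comp_neg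
    refine this.congr (Eventually.of_forall fun x => ?_)
    simp only []
    congr 2
    push_cast
    ring
  have j1 : Integrable fun x => rho th (-x) := (rho_int hth).comp_neg
  have e0 : AA th = MeasureTheory.convolution (rho th) (fun x => rho th (-x)) (ContinuousLinearMap.mul ℝ ℝ)
      volume := by
    funext x
    unfold AA MeasureTheory.convolution
    refine integral_congr_ae (Eventually.of_forall fun t => ?_)
    simp
  constructor
  · rw [e0]
    exact (rho_int hth).integrable_convolution _ j1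
  · have e1 : ∀ x : ℝ, cexp (I * k * x) * ((AA th x : ℝ) : ℂ) =
        MeasureTheory.convolution (fun x => ((rho th x : ℝ) : ℂ) * cexp (I * k * x))
          (fun x => ((rho th (-x) : ℝ) : ℂ) * cexp (I * k * x)) (ContinuousLinearMap.mul ℝ ℂ)
          volume x := by
      intro x
      unfold AA MeasureTheory.convolution
      rw [← integral_complex_ofReal, ← integral_const_mul]
      refine integral_congr_ae (Eventually.of_forall fun t => ?_)
      simp only [ContinuousLinearMap.mul_apply']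
      have e2 : cexp (I * k * x) = cexp (I * k * t) * cexp (I * k * ((x - t : ℝ) : ℂ)) := by
        rw [← Complex.exp_add]
        congr 1
        push_cast
        ring
      rw [e2, neg_sub]
      push_cast
      ring
    unfold NUQ.Ft
    simp only [e1]
    rw [integral_convolution (ContinuousLinearMap.mul ℝ ℂ) i1 i2, rh_conj]
    show rh th k * _ = _
    rw [Complex.mul_conj, Complex.normSq_eq_norm_sq]

include hth in
theorem rr_tr (k : ℝ) : NUQ.Ft (rr th) k = ((2 * (rh th k).re : ℝ) : ℂ) := by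
  have e : ∀ᵐ x : ℝ, cexp (I * k * x) * ((rr th x : ℝ) : ℂ) =
      ((rho th x : ℝ) : ℂ) * cexp (I * k * x) + ((rho th (-x) : ℝ) : ℂ) * cexp (I * k * x) := by
    have hne : ∀ᵐ t : ℝ, t ≠ 0 := by
      rw [ae_iff]
      simp
    filter_upwards [hne] with x hx
    unfold rho
    rcases lt_or_gt_of_ne hx with h | h
    · rw [Set.indicator_of_notMem (by simpa using h.le), Set.indicator_of_mem (by simpa using h),
        rr_neg]
      push_cast
      ring
    · rw [Set.indicator_of_mem (by simpa using h), Set.indicator_of_notMem (by simpa using h.le)]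
      push_cast
      ring
  have i2 : Integrable fun x => ((rho th (-x) : ℝ) : ℂ) * cexp (I * k * x) := by
    have := (fk_int hth (-k)).comp_neg
    refine this.congr (Eventually.of_forall fun x => ?_)
    simp only []
    congr 2
    push_cast
    ring
  unfold NUQ.Ft
  rw [integral_congr_ae e, integral_add (fk_int hth k) i2, rh_conj]
  show rh th k + _ = _
  rw [Complex.add_conj]

include hth in
theorem norm_sq : ∫ x, rho th x ^ 2 = -(th * (5 / 24)) +
    1 / (2 * Real.pi) * ∫ k, (Real.exp (th * NUQ.gg k) - 1) := by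
  obtain ⟨h1, h2, h3, h4⟩ := th_cases hth
  obtain ⟨hh, hhe⟩ : ∃ hh : ℝ → ℝ, hh = fun x => th * rr th x + AA th x := ⟨_, rfl⟩
  have hc : Continuous hh := by
    rw [hhe]
    exact (continuous_const.mul (rr_cont h1 h2)).add (AA_cont hth)
  have hi : Integrable hh := by
    rw [hhe]
    exact ((rr_int hth).const_mul th).add (AA_tr hth 0).1
  have hF : NUQ.Ft hh = fun k => ((Real.exp (th * NUQ.gg k) - 1 : ℝ) : ℂ) := by
    funext k
    have e1 : NUQ.Ft hh k = (th : ℂ) * NUQ.Ft (rr th) k + NUQ.Ft (AA th) k := by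
      unfold NUQ.Ft
      rw [← integral_const_mul, ← integral_add ((NUQ.Ft_int (rr_int hth) k).const_mul _)
        (NUQ.Ft_int (AA_tr hth 0).1 k)]
      refine integral_congr_ae (Eventually.of_forall fun x => ?_)
      rw [hhe]
      simp only []
      push_cast
      ring
    rw [e1, rr_tr hth, (AA_tr hth k).2]
    have e2 := tr_norm hth k
    rw [← rh_Ioi] at e2
    rw [← e2]
    have e3 : ‖1 + (th : ℂ) * rh th k‖ ^ 2 = 1 + 2 * th * (rh th k).re + ‖rh th k‖ ^ 2 := by
      rw [← Complex.normSq_eq_norm_sq, ← Complex.normSq_eq_norm_sq, Complex.normSq_apply,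
        Complex.normSq_apply]
      simp only [Complex.add_re, Complex.one_re, Complex.add_im, Complex.one_im,
        Complex.re_ofReal_mul, Complex.im_ofReal_mul]
      linear_combination ((rh th k).re ^ 2 + (rh th k).im ^ 2) * h4
    rw [e3]
    push_cast
    ring
  have hb : ∀ k, |Real.exp (th * NUQ.gg k) - 1| ≤ 2 * NUQ.gg k := by
    intro k
    have g0 := NUQ.gg_nonneg k
    have g1 := NUQ.gg_le k
    have e1 : |th * NUQ.gg k| = NUQ.gg k := by rw [abs_mul, h3, one_mul, abs_of_nonneg g0]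
    have := Real.abs_exp_sub_one_le (x := th * NUQ.gg k) (by rw [e1]; exact g1)
    rwa [e1] at this
  have hFi : Integrable (NUQ.Ft hh) := by
    rw [hF]
    refine Integrable.ofReal ?_
    refine (NUQ.gg_int.const_mul 2).mono' ?_ (Eventually.of_forall fun k => ?_)
    · exact ((Real.continuous_exp.comp (continuous_const.mul NUQ.gg_cont)).sub
        continuous_const).aestronglyMeasurable
    · rw [Real.norm_eq_abs]
      exact hb k
  have key := NUQ.Ft_inv hc hi hFi 0
  rw [hF] at key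
  have e0 : ∀ k : ℝ, cexp (-(I * k * (0 : ℝ))) * ((Real.exp (th * NUQ.gg k) - 1 : ℝ) : ℂ) =
      ((Real.exp (th * NUQ.gg k) - 1 : ℝ) : ℂ) := by
    intro k
    simp
  simp only [e0] at key
  rw [integral_complex_ofReal] at key
  have key2 : ∫ k, (Real.exp (th * NUQ.gg k) - 1) = 2 * Real.pi * hh 0 := by exact_mod_cast key
  have e5 : hh 0 = th * (5 / 24) + ∫ x, rho th x ^ 2 := by
    rw [hhe]
    simp only [rr_zero]
    congr 1
    unfold AA
    refine integral_congr_ae (Eventually.of_forall fun t => ?_)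
    simp only [sub_zero]
    ring
  rw [key2, e5]
  have := Real.pi_pos
  field_simp
  ring

end corr

/-- **the Wiener-Hopf factor** -/
theorem exists_rho {th : ℝ} (hth : th = 1 ∨ th = -1) : ∃ (rho : ℝ → ℝ) (C : ℝ),
    Measurable rho ∧ (∀ x, x ≤ 0 → rho x = 0) ∧ (∀ x, |rho x| ≤ C * Real.exp (-(5 / 4 * x))) ∧
    (∀ k : ℝ, ‖1 + (th : ℂ) * ∫ x, (rho x : ℂ) * cexp (I * k * x)‖ ^ 2 =
      Real.exp (th * NUQ.gg k)) ∧
    ∫ x, rho x ^ 2 = -(th * (5 / 24)) + 1 / (2 * Real.pi) * ∫ k, (Real.exp (th * NUQ.gg k) - 1) := by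
  obtain ⟨C, hC, hb, -⟩ := rho_decay hth
  refine ⟨rho th, C, rho_meas hth, fun x hx => ?_, hb, fun k => ?_, norm_sq hth⟩
  · unfold rho
    rw [Set.indicator_of_notMem]
    simpa using hx
  · have := tr_norm hth k
    rwa [← rh_Ioi] at this

/-- the same with integrals on the half line -/
theorem exists_rho' {th : ℝ} (hth : th = 1 ∨ th = -1) : ∃ (rho : ℝ → ℝ) (C : ℝ),
    Measurable rho ∧ (∀ x, x ≤ 0 → rho x = 0) ∧ (∀ x, |rho x| ≤ C * Real.exp (-(5 / 4 * x))) ∧
    (∀ k : ℝ, ‖1 + (th : ℂ) * ∫ x in Set.Ioi (0 : ℝ), (rho x : ℂ) * cexp (I * k * x)‖ ^ 2 =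
      Real.exp (th * NUQ.gg k)) ∧
    ∫ x in Set.Ioi (0 : ℝ), rho x ^ 2 =
      -(th * (5 / 24)) + 1 / (2 * Real.pi) * ∫ k, (Real.exp (th * NUQ.gg k) - 1) := by
  obtain ⟨rho, C, h1, h2, h3, h4, h5⟩ := exists_rho hth
  refine ⟨rho, C, h1, h2, h3, fun k => ?_, ?_⟩
  · rw [← h4 k, ← integral_indicator measurableSet_Ioi]
    congr 4
    refine integral_congr_ae (Eventually.of_forall fun x => ?_)
    simp only []
    by_cases hx : x ∈ Set.Ioi (0 : ℝ)
    · rw [Set.indicator_of_mem hx]
    · rw [Set.indicator_of_notMem hx, h2 x (by simpa using hx)]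
      simp
  · rw [← h5, ← integral_indicator measurableSet_Ioi]
    congr 1
    funext x
    by_cases hx : x ∈ Set.Ioi (0 : ℝ)
    · rw [Set.indicator_of_mem hx]
    · rw [Set.indicator_of_notMem hx, h2 x (by simpa using hx)]
      simp

end SB

end
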