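import Pool.Agent.NUP1.Glue
import Pool.Agent.NUP1.Assem

/-!
# The state sum with two legs at the same place `z` (plan B, nu34/PB section 1)

`SS z x y`: rows `x` of the first group, `y` of the second group, `p = q = z`.
-/

set_option autoImplicit false
set_option linter.unusedSectionVars false
set_option linter.unusedSimpArgs false

noncomputable section

open Complex

namespace PBS

open NUP1 (l q rho)
open NUP1.Bd (qg)
open NUP1.Mu (v1 v2 cr QQ QG pr Gn Gc nq qn sw hrow prod_ne v2_self v2_self_ne sin1_ne sin2_ne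
  sin3_ne P_mul P_both P_congr P_cons sin_eight)
open NUP1.Grand (P)

/-- pair weight of two rows of the same group -/
def fw : SignType → SignType → ℂ → ℂ
  | .pos, .pos, w => sin (3 * l + w) * sin (3 * l - w) * (sin (2 * l + w) * sin (2 * l - w))
  | .neg, .neg, w => sin (3 * l + w) * sin (3 * l - w) * (sin (2 * l + w) * sin (2 * l - w))
  | .zero, .zero, w => sin (3 * l + w) * sin (3 * l - w) * (sin (2 * l + w) * sin (2 * l - w)) /
      (sin (l + w) * sin (l - w))
  | .zero, .pos, w => sin (3 * l + w) * sin (3 * l - w) * sin (w + 2 * l) / sin w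
  | .neg, .zero, w => sin (3 * l + w) * sin (3 * l - w) * sin (w + 2 * l) / sin w
  | .pos, .zero, w => sin (3 * l + w) * sin (3 * l - w) * sin (w - 2 * l) / sin w
  | .zero, .neg, w => sin (3 * l + w) * sin (3 * l - w) * sin (w - 2 * l) / sin w
  | .neg, .pos, w => sin (w + 2 * l) * sin (w + 3 * l) / (sin w * sin (w - l))
  | .pos, .neg, w => sin (w - 2 * l) * sin (w - 3 * l) / (sin w * sin (w + l))

/-- pair weight of two rows of different groups -/
def gw : SignType → SignType → ℂ → ℂ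
  | .pos, .pos, _ => 1
  | .neg, .neg, _ => 1
  | .zero, .zero, w => cos w ^ 2
  | .zero, .pos, w => sin (3 * l + w) ^ 2
  | .neg, .zero, w => sin (3 * l + w) ^ 2
  | .pos, .zero, w => sin (3 * l - w) ^ 2
  | .zero, .neg, w => sin (3 * l - w) ^ 2
  | .neg, .pos, w => sin (2 * l + w) ^ 2 * sin (3 * l + w) ^ 2
  | .pos, .neg, w => sin (2 * l - w) ^ 2 * sin (3 * l - w) ^ 2

/-- factor of the two legs, `w = z - x` -/
def Lw : SignType → ℂ → ℂ
  | .pos, w => sin (w + 3 * l) * sin (w + 2 * l)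
  | .zero, w => sin (w + 3 * l) * sin (w - 3 * l)
  | .neg, w => sin (w - 3 * l) * sin (w - 2 * l)

/-- weight of one row -/
def ww : SignType → ℂ
  | .pos => sin l
  | .zero => 1
  | .neg => sin l

/-- one term of the state sum -/
def tm (z : ℂ) {m M : ℕ} (x : Fin m → ℂ) (y : Fin M → ℂ) (a : Fin m → SignType)
    (b : Fin M → SignType) : ℂ :=
  (∏ i, ww (a i) * Lw (a i) (z - x i)) * P (fun i j => fw (a i) (a j) (x i - x j)) *
    ((∏ i, ww (b i) * Lw (b i) (z - y i)) * P (fun i j => fw (b i) (b j) (y i - y j))) *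
    ∏ i, ∏ j, gw (a i) (b j) (x i - y j)

/-- **the state sum with two legs at `z`** -/
def SS (z : ℂ) {m M : ℕ} (x : Fin m → ℂ) (y : Fin M → ℂ) : ℂ :=
  sin l * ∑ a : Fin m → SignType, ∑ b : Fin M → SignType,
    if ∑ i, (a i : ℤ) = ∑ j, (b j : ℤ) then tm z x y a b else 0

/-! ## elementary symmetries -/

theorem sin_nadd (w c : ℂ) : sin (-w + c) = -sin (w - c) := by
  rw [← sin_neg]; congr 1; ring

theorem sin_nsub (w c : ℂ) : sin (-w - c) = -sin (w + c) := by
  rw [← sin_neg]; congr 1; ring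

theorem sin_addn (c w : ℂ) : sin (c + -w) = sin (c - w) := by congr 1

theorem sin_subn (c w : ℂ) : sin (c - -w) = sin (c + w) := by congr 1; ring

theorem fw_neg (a b : SignType) (w : ℂ) : fw a b (-w) = fw b a w := by
  cases a <;> cases b <;>
    simp only [fw, sin_nadd, sin_nsub, sin_addn, sin_subn, sin_neg] <;> ring

theorem ng0 : -SignType.zero = .zero := rfl
theorem ngp : -SignType.pos = .neg := rfl
theorem ngn : -SignType.neg = .pos := rfl

theorem fw_flip (a b : SignType) (w : ℂ) : fw (-a) (-b) (-w) = fw a b w := by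
  cases a <;> cases b <;>
    simp only [ng0, ngp, ngn, fw, sin_nadd, sin_nsub, sin_addn, sin_subn, sin_neg] <;> ring

theorem gw_neg (a b : SignType) (w : ℂ) : gw a b (-w) = gw b a w := by
  cases a <;> cases b <;>
    simp only [gw, sin_addn, sin_subn, cos_neg]

theorem gw_flip (a b : SignType) (w : ℂ) : gw (-a) (-b) (-w) = gw a b w := by
  cases a <;> cases b <;>
    simp only [ng0, ngp, ngn, gw, sin_addn, sin_subn, cos_neg]

theorem Lw_flip (a : SignType) (w : ℂ) : Lw (-a) (-w) = Lw a w := by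
  cases a <;>
    simp only [ng0, ngp, ngn, Lw, sin_nadd, sin_nsub] <;> ring

theorem ww_flip (a : SignType) : ww (-a) = ww a := by
  cases a <;> rfl

theorem tm_flip (z : ℂ) {m M : ℕ} (x : Fin m → ℂ) (y : Fin M → ℂ) (a : Fin m → SignType)
    (b : Fin M → SignType) : tm (-z) (-x) (-y) (-a) (-b) = tm z x y a b := by
  have e : ∀ u v : ℂ, -u - -v = -(u - v) := fun u v => by ring
  unfold tm
  simp only [Pi.neg_apply, e, ww_flip, Lw_flip, fw_flip, gw_flip]

/-- **(A2)** -/
theorem SS_neg (z : ℂ) {m M : ℕ} (x : Fin m → ℂ) (y : Fin M → ℂ) :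
    SS (-z) (-x) (-y) = SS z x y := by
  unfold SS
  congr 1
  refine (Equiv.sum_comp (Equiv.neg (Fin m → SignType)) _).symm.trans ?_
  refine Finset.sum_congr rfl fun a _ => ?_
  refine (Equiv.sum_comp (Equiv.neg (Fin M → SignType)) _).symm.trans ?_
  refine Finset.sum_congr rfl fun b _ => ?_
  simp only [Equiv.neg_apply, Pi.neg_apply, tm_flip]
  have h : ∀ s : SignType, ((-s : SignType) : ℤ) = -(s : ℤ) := by decide
  simp only [h, Finset.sum_neg_distrib, neg_inj]

theorem P_swap {n : ℕ} (f : Fin n → Fin n → ℂ) (g : Fin n → Fin n → ℂ)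
    (h : ∀ i j, f i j = g i j) : P f = P g := P_congr fun i j _ => h i j

theorem SS_swap (z : ℂ) {m M : ℕ} (x : Fin m → ℂ) (y : Fin M → ℂ) : SS z y x = SS z x y := by
  unfold SS
  congr 1
  rw [Finset.sum_comm]
  refine Finset.sum_congr rfl fun a _ => Finset.sum_congr rfl fun b _ => ?_
  by_cases h : ∑ i, (a i : ℤ) = ∑ j, (b j : ℤ)
  · rw [if_pos h, if_pos h.symm]
    unfold tm
    have e : ∏ i, ∏ j, gw (b i) (a j) (y i - x j) = ∏ i, ∏ j, gw (a i) (b j) (x i - y j) := by
      rw [Finset.prod_comm]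
      refine Finset.prod_congr rfl fun i _ => Finset.prod_congr rfl fun j _ => ?_
      rw [← gw_neg]
      congr 1
      ring
    rw [e]
    ring
  · rw [if_neg h, if_neg (Ne.symm h)]

/-! ## the pair weights in terms of quanta -/

theorem fw_eq (a b : SignType) {x y : ℂ} (h : Gn (x - y)) :
    fw a b (x - y) = fw .pos .pos (x - y) * pr a b x y *
      ((v2 a x y * (-1) ^ nq a) * (v2 b y x * (-1) ^ nq b)) := by
  set s0 := sin (x - y) with hs0
  set s1 := sin (x - y + 1 * l) with hs1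
  set s2 := sin (x - y + 2 * l) with hs2
  set s3 := sin (x - y + 3 * l) with hs3
  set s5 := sin (x - y + 5 * l) with hs5
  set s6 := sin (x - y + 6 * l) with hs6
  set s7 := sin (x - y + 7 * l) with hs7
  have n0 : s0 ≠ 0 := by simpa [hs0] using h 0
  have n1 : s1 ≠ 0 := by simpa [hs1] using h 1
  have n2 : s2 ≠ 0 := by simpa [hs2] using h 2
  have n3 : s3 ≠ 0 := by simpa [hs3] using h 3
  have n5 : s5 ≠ 0 := by simpa [hs5] using h 5
  have n6 : s6 ≠ 0 := by simpa [hs6] using h 6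
  have n7 : s7 ≠ 0 := by simpa [hs7] using h 7
  have e8 : ∀ z : ℂ, sin z = -sin (z + 8 * l) := fun z => by rw [sin_eight, neg_neg]
  have f1 : sin (3 * l + (x - y)) = s3 := by rw [hs3]; congr 1; ring
  have f2 : sin (3 * l - (x - y)) = s5 := by
    rw [hs5, ← neg_neg (3 * l - (x - y)), sin_neg, e8, neg_neg]; congr 1; ring
  have f3 : sin (2 * l + (x - y)) = s2 := by rw [hs2]; congr 1; ring
  have f4 : sin (2 * l - (x - y)) = s6 := by
    rw [hs6, ← neg_neg (2 * l - (x - y)), sin_neg, e8, neg_neg]; congr 1; ring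
  have f5 : sin (l + (x - y)) = s1 := by rw [hs1]; congr 1; ring
  have f6 : sin (l - (x - y)) = s7 := by
    rw [hs7, ← neg_neg (l - (x - y)), sin_neg, e8, neg_neg]; congr 1; ring
  have g1 : sin (x - y + l) = s1 := by rw [hs1]; congr 1; ring
  have g7 : sin (x - y - l) = -s7 := by rw [e8, hs7]; congr 2; ring
  have a3' : sin (x - y - 3 * l) = -s5 := by rw [e8, hs5]; congr 2; ring
  have a1 : sin (x - y - 2 * l) = -s6 := by rw [e8, hs6]; congr 2; ring
  have a2 : sin (x - l - y) = -s7 := by rw [e8, hs7]; congr 2; ring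
  have a3 : sin (x - l - y - 2 * l) = -s5 := by rw [e8, hs5]; congr 2; ring
  have b0 : sin (y - x) = -s0 := by rw [hs0, ← sin_neg]; congr 1; ring
  have b1 : sin (y - x - 2 * l) = -s2 := by rw [hs2, ← sin_neg]; congr 1; ring
  have b2 : sin (y - l - x) = -s1 := by rw [hs1, ← sin_neg]; congr 1; ring
  have b3 : sin (y - l - x - 2 * l) = -s3 := by rw [hs3, ← sin_neg]; congr 1; ring
  have q0 : q (x - y) = -(s0 ^ 2 * s2 * s6) / (s1 * s7) := by
    unfold q
    rw [← hs0, ← hs2, a1, g1, g7]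
    field_simp
  have qm : q (x - l - y) = -(s7 ^ 2 * s1 * s5) / (s0 * s6) := by
    unfold q
    have c1 : sin (x - l - y + 2 * l) = s1 := by rw [hs1]; congr 1; ring
    have c3 : sin (x - l - y + l) = s0 := by rw [hs0]; congr 1; ring
    have c4 : sin (x - l - y - l) = -s6 := by rw [e8, hs6]; congr 2; ring
    rw [a2, c1, a3, c3, c4]
    field_simp
  have qp : q (x - (y - l)) = s1 ^ 2 * s3 * s7 / (s0 * s2) := by
    unfold q
    have c1 : sin (x - (y - l)) = s1 := by rw [hs1]; congr 1; ring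
    have c2 : sin (x - (y - l) + 2 * l) = s3 := by rw [hs3]; congr 1; ring
    have c3 : sin (x - (y - l) - 2 * l) = -s7 := by rw [e8, hs7]; congr 2; ring
    have c4 : sin (x - (y - l) + l) = s2 := by rw [hs2]; congr 1; ring
    have c5 : sin (x - (y - l) - l) = s0 := by rw [hs0]; congr 1; ring
    rw [c1, c2, c3, c4, c5]
    field_simp
  have qz : q (x - l - (y - l)) = q (x - y) := by congr 1; ring
  clear_value s0 s1 s2 s3 s5 s6 s7
  cases a <;> cases b
  all_goals
    simp only [fw, pr, QQ, v1, v2, qn, nq, List.map_cons,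
      List.map_nil, List.prod_cons, List.prod_nil, a1, a2, a3, a3', b0, b1, b2, b3, q0, qm, qp, qz,
      f1, f2, f3, f4, f5, f6, g1, g7, ← hs0, ← hs2, ← hs3]
    try field_simp
    try ring_nf

theorem gw_eq (a b : SignType) {x y : ℂ} (h : Gc (x - y)) :
    gw a b (x - y) = QG a b x y * (cr a x y * cr b y x) := by
  set s2 := sin (x - y + 2 * l) with hs2
  set s3 := sin (x - y + 3 * l) with hs3
  set s4 := sin (x - y + 4 * l) with hs4
  set s5 := sin (x - y + 5 * l) with hs5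
  set s6 := sin (x - y + 6 * l) with hs6
  have n2 : s2 ≠ 0 := by simpa [hs2] using h 2 (by norm_num) (by norm_num)
  have n3 : s3 ≠ 0 := by simpa [hs3] using h 3 (by norm_num) (by norm_num)
  have n4 : s4 ≠ 0 := by simpa [hs4] using h 4 (by norm_num) (by norm_num)
  have n5 : s5 ≠ 0 := by simpa [hs5] using h 5 (by norm_num) (by norm_num)
  have n6 : s6 ≠ 0 := by simpa [hs6] using h 6 (by norm_num) (by norm_num)
  have e8 : ∀ z : ℂ, sin z = -sin (z + 8 * l) := fun z => by rw [sin_eight, neg_neg]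
  have e4 : ∀ z : ℂ, cos z = sin (z + 4 * l) := fun z => by
    have : (4 : ℂ) * (l : ℂ) = Real.pi / 2 := by
      unfold l
      push_cast
      ring
    rw [this, sin_add_pi_div_two]
  have f1 : sin (3 * l + (x - y)) = s3 := by rw [hs3]; congr 1; ring
  have f2 : sin (3 * l - (x - y)) = s5 := by
    rw [hs5, ← neg_neg (3 * l - (x - y)), sin_neg, e8, neg_neg]; congr 1; ring
  have f3 : sin (2 * l + (x - y)) = s2 := by rw [hs2]; congr 1; ring
  have f4 : sin (2 * l - (x - y)) = s6 := by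
    rw [hs6, ← neg_neg (2 * l - (x - y)), sin_neg, e8, neg_neg]; congr 1; ring
  have fc : cos (x - y) = s4 := by rw [e4, hs4]
  have a1 : sin (x - l - y + 3 * l) = s2 := by rw [hs2]; congr 1; ring
  have b1 : sin (y - x + 3 * l) = s5 := by
    rw [hs5, ← neg_neg (y - x + 3 * l), sin_neg, e8, neg_neg]; congr 1; ring
  have b2 : sin (y - l - x + 3 * l) = s6 := by
    rw [hs6, ← neg_neg (y - l - x + 3 * l), sin_neg, e8, neg_neg]; congr 1; ring
  have q0 : qg (x - y) = s4 ^ 2 / (s3 ^ 2 * s5 ^ 2) := by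
    unfold qg
    have c2 : sin (x - y - 3 * l) = -s5 := by rw [e8, hs5]; congr 2; ring
    rw [e4, ← hs4, ← hs3, c2]
    congr 1
    ring
  have qm : qg (x - l - y) = s3 ^ 2 / (s2 ^ 2 * s4 ^ 2) := by
    unfold qg
    have c1 : cos (x - l - y) = s3 := by rw [e4, hs3]; congr 1; ring
    have c3 : sin (x - l - y - 3 * l) = -s4 := by rw [e8, hs4]; congr 2; ring
    rw [c1, a1, c3]
    congr 1
    ring
  have qp : qg (x - (y - l)) = s5 ^ 2 / (s4 ^ 2 * s6 ^ 2) := by
    unfold qg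
    have c1 : cos (x - (y - l)) = s5 := by rw [e4, hs5]; congr 1; ring
    have c2 : sin (x - (y - l) + 3 * l) = s4 := by rw [hs4]; congr 1; ring
    have c3 : sin (x - (y - l) - 3 * l) = -s6 := by rw [e8, hs6]; congr 2; ring
    rw [c1, c2, c3]
    congr 1
    ring
  have qz : qg (x - l - (y - l)) = qg (x - y) := by congr 1; ring
  clear_value s2 s3 s4 s5 s6
  cases a <;> cases b
  all_goals
    simp only [gw, QG, cr, qn, List.map_cons,
      List.map_nil, List.prod_cons, List.prod_nil, a1, b1, b2, q0, qm, qp, qz,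
      f1, f2, f3, f4, fc, ← hs3]
    try field_simp
    try ring_nf

/-! ## the legs -/

/-- leg factor of a quantum at `u` -/
def Th (z u : ℂ) : ℂ := sin (z - u - 3 * l) / sin (z - u + 2 * l)

theorem Lw_eq (a : SignType) {z x : ℂ} (h2 : sin (z - x + 2 * l) ≠ 0)
    (h3 : sin (z - x + 3 * l) ≠ 0) :
    Lw a (z - x) = Lw .pos (z - x) * ((qn a x).map (Th z)).prod := by
  have e1 : z - (x - l) - 3 * l = z - x - 2 * l := by ring
  have e2 : z - (x - l) + 2 * l = z - x + 3 * l := by ring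
  cases a <;> simp only [Lw, qn, Th, List.map_cons, List.map_nil, List.prod_cons, List.prod_nil,
    e1, e2, mul_one]
  · generalize sin (z - x + 2 * l) = u at *
    generalize sin (z - x + 3 * l) = v at *
    field_simp
  · generalize sin (z - x + 2 * l) = u at *
    generalize sin (z - x + 3 * l) = v at *
    field_simp

/-- the factor of one row -/
theorem row_eq {m M : ℕ} (x : Fin m → ℂ) (y : Fin M → ℂ) (a : Fin m → SignType) (i : Fin m) :
    ww (a i) * ((∏ j, if i = j then 1 else v2 (a i) (x i) (x j) * (-1) ^ nq (a i)) *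
       ∏ j, cr (a i) (x i) (y j)) =
    sin l * sw (a i) (hrow (2 * sin l) x y) (x i) * ((-1) ^ nq (a i)) ^ (m + 1) := by
  have hv := v2_self_ne (a i) (x i)
  have hs : ((-1 : ℂ) ^ nq (a i)) ≠ 0 := pow_ne_zero _ (by norm_num)
  rw [prod_ne _ i (mul_ne_zero hv hs)]
  rw [Finset.prod_mul_distrib, Finset.prod_const, Finset.card_univ, Fintype.card_fin]
  set V := ∏ j, v2 (a i) (x i) (x j) with hV
  set C := ∏ j, cr (a i) (x i) (y j) with hC
  have s1 := sin1_ne
  have s2 := sin2_ne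
  have s3 := sin3_ne
  rw [v2_self]
  rcases hai : a i with _ | _ | _
  · -- zero
    have hh : hrow (2 * sin l) x y (x i) = -2 * sin (2 * l) / (2 * sin l) * (V * C) := by
      unfold hrow
      rw [hV, hC, hai]
      simp [v2, cr, qn]
    simp only [ww, sw, hh, nq]
    field_simp
    ring
  · -- neg
    have hh : hrow (2 * sin l) x y (x i) * hrow (2 * sin l) x y (x i - l) =
        (-2 * sin (2 * l) / (2 * sin l)) ^ 2 * (V * C) := by
      unfold hrow
      rw [hV, hC, hai]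
      simp only [v2, cr, qn, List.map_cons, List.map_nil, List.prod_cons, List.prod_nil, mul_one,
        Finset.prod_mul_distrib]
      ring
    simp only [ww, sw, hh, nq, rho]
    field_simp
    ring
  · -- pos
    have hV1 : V = 1 := by
      rw [hV, hai]
      simp [v2, qn]
    have hC1 : C = 1 := by
      rw [hC, hai]
      simp [cr, qn]
    simp only [hV1, hC1, sw, ww, nq]
    norm_num

theorem P_eq_sq {n : ℕ} (f : Fin n → Fin n → ℂ) (x : Fin n → ℂ) (a : Fin n → SignType)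
    (hx : ∀ i j, i ≠ j → Gn (x i - x j)) (_ : f = fun i j => fw (a i) (a j) (x i - x j)) :
    P f = P (fun i j => fw .pos .pos (x i - x j)) * P (fun i j => pr (a i) (a j) (x i) (x j)) *
      ∏ i, ∏ j, if i = j then 1 else v2 (a i) (x i) (x j) * (-1) ^ nq (a i) := by
  subst f
  rw [← P_both, ← P_mul, ← P_mul]
  refine P_congr fun i j hij => ?_
  rw [fw_eq (a i) (a j) (hx i j hij)]

/-- the prefactor of one group -/
def pre (z : ℂ) {m : ℕ} (x : Fin m → ℂ) : ℂ :=
  (∏ i, sin l * Lw .pos (z - x i)) * P (fun i j => fw .pos .pos (x i - x j))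

/-- **one term of the state sum in terms of quanta** -/
theorem tm_eq {z : ℂ} {m : ℕ} {x y : Fin m → ℂ} (hx : ∀ i j, i ≠ j → Gn (x i - x j))
    (hy : ∀ i j, i ≠ j → Gn (y i - y j)) (hxy : ∀ i j, Gc (x i - y j))
    (zx : ∀ i, sin (z - x i + 2 * l) ≠ 0 ∧ sin (z - x i + 3 * l) ≠ 0)
    (zy : ∀ i, sin (z - y i + 2 * l) ≠ 0 ∧ sin (z - y i + 3 * l) ≠ 0)
    (a b : Fin m → SignType) (hab : ∑ i, (a i : ℤ) = ∑ j, (b j : ℤ)) :
    tm z x y a b = pre z x * pre z y *
      (NUP1.sta x (fun u => hrow (2 * sin l) x y u * Th z u) a *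
        NUP1.sta y (fun u => hrow (2 * sin l) y x u * Th z u) b * NUP1.crq x y a b) := by
  have hG : ∏ i, ∏ j, gw (a i) (b j) (x i - y j) =
      (∏ i, ∏ j, QG (a i) (b j) (x i) (y j)) *
      ((∏ i, ∏ j, cr (a i) (x i) (y j)) * (∏ j, ∏ i, cr (b j) (y j) (x i))) := by
    rw [Finset.prod_comm (f := fun j i => cr (b j) (y j) (x i)), ← Finset.prod_mul_distrib,
      ← Finset.prod_mul_distrib]
    refine Finset.prod_congr rfl fun i _ => ?_
    rw [← Finset.prod_mul_distrib, ← Finset.prod_mul_distrib]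
    exact Finset.prod_congr rfl fun j _ => gw_eq (a i) (b j) (hxy i j)
  have hX : (∏ i, ww (a i)) * ((∏ i, ∏ j, if i = j then 1 else
        v2 (a i) (x i) (x j) * (-1) ^ nq (a i)) * ∏ i, ∏ j, cr (a i) (x i) (y j)) =
      (∏ i : Fin m, sin (l : ℂ)) * (∏ i, sw (a i) (hrow (2 * sin l) x y) (x i)) *
        ∏ i, ((-1) ^ nq (a i)) ^ (m + 1) := by
    rw [← Finset.prod_mul_distrib, ← Finset.prod_mul_distrib, ← Finset.prod_mul_distrib,
      ← Finset.prod_mul_distrib]
    exact Finset.prod_congr rfl fun i _ => row_eq x y a i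
  have hY : (∏ i, ww (b i)) * ((∏ i, ∏ j, if i = j then 1 else
        v2 (b i) (y i) (y j) * (-1) ^ nq (b i)) * ∏ i, ∏ j, cr (b i) (y i) (x j)) =
      (∏ i : Fin m, sin (l : ℂ)) * (∏ i, sw (b i) (hrow (2 * sin l) y x) (y i)) *
        ∏ i, ((-1) ^ nq (b i)) ^ (m + 1) := by
    rw [← Finset.prod_mul_distrib, ← Finset.prod_mul_distrib, ← Finset.prod_mul_distrib,
      ← Finset.prod_mul_distrib]
    exact Finset.prod_congr rfl fun i _ => row_eq y x b i
  have hsign : (∏ i, ((-1 : ℂ) ^ nq (a i)) ^ (m + 1)) * ∏ j, ((-1 : ℂ) ^ nq (b j)) ^ (m + 1) = 1 := by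
    have e1 : ∑ i, nq (a i) = ∑ j, nq (b j) := by
      have h1 := NUP1.Mu.sum_nq a
      have h2 := NUP1.Mu.sum_nq b
      have : ((∑ i, nq (a i) : ℕ) : ℤ) = ((∑ j, nq (b j) : ℕ) : ℤ) := by
        rw [h1, h2, hab]
      exact_mod_cast this
    rw [Finset.prod_pow, Finset.prod_pow, Finset.prod_pow_eq_pow_sum, Finset.prod_pow_eq_pow_sum,
      e1, ← mul_pow, ← mul_pow]
    simp
  have hsta : ∀ (u v : Fin m → ℂ) (c : Fin m → SignType),
      NUP1.sta u (fun w => hrow (2 * sin l) u v w * Th z w) c =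
        (∏ i, sw (c i) (hrow (2 * sin l) u v) (u i)) * (∏ i, ((qn (c i) (u i)).map (Th z)).prod) *
          P (fun i j => pr (c i) (c j) (u i) (u j)) := by
    intro u v c
    unfold NUP1.sta
    rw [← Finset.prod_mul_distrib]
    congr 1
    · refine Finset.prod_congr rfl fun i _ => ?_
      rw [NUP1.sw_mul, NUP1.Mu.qn_eq, NUP1.Mu.sw_eq]
    · congr 1
      funext i j
      rw [NUP1.Mu.pr_eq]
  have hcrq : NUP1.crq x y a b = ∏ i, ∏ j, QG (a i) (b j) (x i) (y j) := by
    unfold NUP1.crq QG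
    simp only [NUP1.Mu.qn_eq]
  have hL : ∀ (u : Fin m → ℂ) (c : Fin m → SignType)
      (_ : ∀ i, sin (z - u i + 2 * l) ≠ 0 ∧ sin (z - u i + 3 * l) ≠ 0),
      ∏ i, ww (c i) * Lw (c i) (z - u i) = (∏ i, ww (c i)) * ((∏ i, Lw .pos (z - u i)) *
        ∏ i, ((qn (c i) (u i)).map (Th z)).prod) := by
    intro u c h
    rw [← Finset.prod_mul_distrib, ← Finset.prod_mul_distrib]
    exact Finset.prod_congr rfl fun i _ => by rw [Lw_eq (c i) (h i).1 (h i).2]
  unfold tm
  rw [P_eq_sq _ x a hx rfl, P_eq_sq _ y b hy rfl, hG, hL x a zx, hL y b zy, hsta, hsta, hcrq]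
  unfold pre
  rw [Finset.prod_mul_distrib, Finset.prod_mul_distrib (f := fun _ => sin (l : ℂ))
    (g := fun i => Lw .pos (z - y i))]
  set A1 := ∏ i, ww (a i)
  set A2 := ∏ i, ww (b i)
  set FX := P fun i j => fw SignType.pos SignType.pos (x i - x j)
  set FY := P fun i j => fw SignType.pos SignType.pos (y i - y j)
  set PX := P fun i j => pr (a i) (a j) (x i) (x j)
  set PY := P fun i j => pr (b i) (b j) (y i) (y j)
  set GX := ∏ i, ∏ j, if i = j then 1 else v2 (a i) (x i) (x j) * (-1) ^ nq (a i)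
  set GY := ∏ i, ∏ j, if i = j then 1 else v2 (b i) (y i) (y j) * (-1) ^ nq (b i)
  set CX := ∏ i, ∏ j, cr (a i) (x i) (y j)
  set CY := ∏ i, ∏ j, cr (b i) (y i) (x j)
  set QP := ∏ i, ∏ j, QG (a i) (b j) (x i) (y j)
  set S0 := ∏ i : Fin m, sin (l : ℂ)
  set TX := ∏ i, sw (a i) (hrow (2 * sin l) x y) (x i)
  set TY := ∏ i, sw (b i) (hrow (2 * sin l) y x) (y i)
  set σX := ∏ i, ((-1 : ℂ) ^ nq (a i)) ^ (m + 1)
  set σY := ∏ j, ((-1 : ℂ) ^ nq (b j)) ^ (m + 1)
  set LX := ∏ i, Lw .pos (z - x i)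
  set LY := ∏ i, Lw .pos (z - y i)
  set QX := ∏ i, ((qn (a i) (x i)).map (Th z)).prod
  set QY := ∏ i, ((qn (b i) (y i)).map (Th z)).prod
  linear_combination FX * PX * FY * PY * QP * LX * LY * QX * QY * (A2 * (GY * CY)) * hX +
    FX * PX * FY * PY * QP * LX * LY * QX * QY * (S0 * TX * σX) * hY +
    FX * PX * FY * PY * QP * LX * LY * QX * QY * (S0 * TX * S0 * TY) * hsign

/-- **the state sum by the number of quanta** (each inner sum is a joint contour integral) -/
theorem SS_eq {z : ℂ} {m : ℕ} {x y : Fin m → ℂ} (hx : ∀ i j, i ≠ j → Gn (x i - x j))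
    (hy : ∀ i j, i ≠ j → Gn (y i - y j)) (hxy : ∀ i j, Gc (x i - y j))
    (zx : ∀ i, sin (z - x i + 2 * l) ≠ 0 ∧ sin (z - x i + 3 * l) ≠ 0)
    (zy : ∀ i, sin (z - y i + 2 * l) ≠ 0 ∧ sin (z - y i + 3 * l) ≠ 0) :
    SS z x y = sin l * (pre z x * pre z y) * ∑ n ∈ Finset.range (2 * m + 1),
      ∑ a ∈ NUP1.St m n, ∑ b ∈ NUP1.St m n,
        NUP1.sta x (fun u => hrow (2 * sin l) x y u * Th z u) a *
          NUP1.sta y (fun u => hrow (2 * sin l) y x u * Th z u) b * NUP1.crq x y a b := by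
  unfold SS
  rw [mul_assoc]
  congr 1
  rw [Finset.mul_sum]
  have e1 : ∀ n : ℕ, pre z x * pre z y * ∑ a ∈ NUP1.St m n, ∑ b ∈ NUP1.St m n,
        NUP1.sta x (fun u => hrow (2 * sin l) x y u * Th z u) a *
          NUP1.sta y (fun u => hrow (2 * sin l) y x u * Th z u) b * NUP1.crq x y a b =
      ∑ a : Fin m → SignType, ∑ b : Fin m → SignType,
        if ∑ i, NUP1.nq (a i) = n ∧ ∑ i, NUP1.nq (b i) = n then tm z x y a b else 0 := by
    intro n
    unfold NUP1.St
    rw [Finset.sum_filter, Finset.mul_sum]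
    refine Finset.sum_congr rfl fun a _ => ?_
    split_ifs with ha
    · rw [Finset.sum_filter, Finset.mul_sum]
      refine Finset.sum_congr rfl fun b _ => ?_
      split_ifs with hb h h
      · rw [tm_eq hx hy hxy zx zy a b (by
          have h1 := NUP1.Mu.sum_nq a
          have h2 := NUP1.Mu.sum_nq b
          simp only [NUP1.Mu.nq_eq] at h1 h2
          rw [ha] at h1
          rw [hb] at h2
          linarith)]
      · exact absurd ⟨ha, hb⟩ h
      · exact absurd h.2 hb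
      · ring
    · rw [mul_zero]
      symm
      refine Finset.sum_eq_zero fun b _ => ?_
      rw [if_neg fun h => ha h.1]
  simp only [e1]
  rw [Finset.sum_comm (s := Finset.range (2 * m + 1))]
  refine Finset.sum_congr rfl fun a _ => ?_
  rw [Finset.sum_comm (s := Finset.range (2 * m + 1))]
  refine Finset.sum_congr rfl fun b _ => ?_
  have hle : ∑ i, NUP1.nq (a i) ≤ 2 * m := by
    have h2 : ∀ s : SignType, NUP1.nq s ≤ 2 := by decide
    have h3 := Finset.sum_le_card_nsmul Finset.univ (fun i => NUP1.nq (a i)) 2 (fun i _ => h2 _)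
    simpa [mul_comm] using h3
  have h1 := NUP1.Mu.sum_nq a
  have h2 := NUP1.Mu.sum_nq b
  simp only [NUP1.Mu.nq_eq] at h1 h2
  rw [Finset.sum_eq_single_of_mem (∑ i, NUP1.nq (a i)) (Finset.mem_range.2 (by omega))]
  · by_cases hab : ∑ i, (a i : ℤ) = ∑ j, (b j : ℤ)
    · have h3 : ∑ i, NUP1.nq (b i) = ∑ i, NUP1.nq (a i) := by
        have : ((∑ i, NUP1.nq (b i) : ℕ) : ℤ) = ((∑ i, NUP1.nq (a i) : ℕ) : ℤ) := by
          rw [h1, h2, hab]
        exact_mod_cast this
      rw [if_pos hab, if_pos ⟨rfl, h3⟩]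
    · rw [if_neg hab, if_neg]
      rintro ⟨-, h3⟩
      apply hab
      have : ((∑ i, NUP1.nq (a i) : ℕ) : ℤ) = ((∑ i, NUP1.nq (b i) : ℕ) : ℤ) := by
        exact_mod_cast h3.symm
      rw [h1, h2] at this
      linarith
  · intro n _ hn
    rw [if_neg fun h => hn h.1.symm]

/-! ## (A1) -/

theorem sin_refl (c : ℂ) : sin (8 * l - c) = sin c := by
  have := sin_eight (-c)
  rw [sin_neg, neg_neg] at this
  rw [← this]
  congr 1
  ring

/-- the factor of a row of the same group as a row which is eaten by a leg -/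
theorem node_own (e : SignType) {w : ℂ} (h0 : sin w ≠ 0) (h1 : sin (w + l) ≠ 0) :
    Lw e (w + 3 * l) * fw .pos e w * gw e .pos (-w) =
      (sin (2 * l - w) * sin (3 * l - w)) ^ 2 * Lw e w := by
  have a5 : sin (w + 3 * l + 2 * l) = sin (3 * l - w) := by
    rw [← sin_refl (3 * l - w)]; congr 1; ring
  have a6 : sin (w + 3 * l + 3 * l) = sin (2 * l - w) := by
    rw [← sin_refl (2 * l - w)]; congr 1; ring
  have a0 : sin (w + 3 * l - 3 * l) = sin w := by congr 1; ring
  have a1 : sin (w + 3 * l - 2 * l) = sin (w + l) := by congr 1; ring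
  have b3 : sin (3 * l + -w) = sin (3 * l - w) := by congr 1
  have b2 : sin (2 * l + -w) = sin (2 * l - w) := by congr 1
  have c2 : sin (w - 2 * l) = -sin (2 * l - w) := by rw [← sin_neg]; congr 1; ring
  have c3 : sin (w - 3 * l) = -sin (3 * l - w) := by rw [← sin_neg]; congr 1; ring
  have d2 : sin (2 * l + w) = sin (w + 2 * l) := by congr 1; ring
  have d3 : sin (3 * l + w) = sin (w + 3 * l) := by congr 1; ring
  cases e <;> simp only [Lw, fw, gw, a5, a6, a0, a1, b3, b2, c2, c3, d2, d3]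
  · generalize sin (3 * l - w) = s3m
    generalize sin (2 * l - w) = s2m
    generalize sin (w + 3 * l) = s3p
    field_simp
  · generalize sin (3 * l - w) = s3m
    generalize sin (2 * l - w) = s2m
    field_simp
  · ring

theorem sum_cons {n : ℕ} (f : (Fin (n + 1) → SignType) → ℂ) :
    ∑ a, f a = ∑ c : SignType, ∑ a : Fin n → SignType, f (Fin.cons c a) := by
  rw [← (Fin.consEquiv (fun _ => SignType)).sum_comp, Fintype.sum_prod_type]
  rfl

theorem Lw3_zero : Lw .zero (3 * l) = 0 := by simp [Lw]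

theorem Lw3_neg : Lw .neg (3 * l) = 0 := by simp [Lw]

/-- `s (2 λ - w) s (3 λ - w)` -/
def Kw (w : ℂ) : ℂ := sin (2 * l - w) * sin (3 * l - w)

/-- a term vanishes unless both new rows are in the state `+` -/
theorem tm_cons_zero {m M : ℕ} (x0 : ℂ) (x : Fin m → ℂ) (y : Fin M → ℂ) (c d : SignType)
    (a : Fin m → SignType) (b : Fin M → SignType) (h : c ≠ 1 ∨ d ≠ 1) :
    tm (x0 + 3 * l) (Fin.cons x0 x) (Fin.cons x0 y) (Fin.cons c a) (Fin.cons d b) = 0 := by
  unfold tm
  rw [Fin.prod_univ_succ (n := m), Fin.prod_univ_succ (n := M)]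
  simp only [Fin.cons_zero, Fin.cons_succ]
  rw [show x0 + 3 * (l : ℂ) - x0 = 3 * l by ring]
  have key : ∀ s : SignType, s ≠ 1 → Lw s (3 * l) = 0 := by
    intro s hs
    cases s
    · exact Lw3_zero
    · exact Lw3_neg
    · exact absurd rfl hs
  rcases h with h | h
  · rw [key c h]; simp
  · rw [key d h]; simp

theorem tm_cons {m M : ℕ} {x0 : ℂ} {x : Fin m → ℂ} {y : Fin M → ℂ}
    (hx : ∀ i, sin (x0 - x i) ≠ 0 ∧ sin (x0 - x i + l) ≠ 0)
    (hy : ∀ i, sin (x0 - y i) ≠ 0 ∧ sin (x0 - y i + l) ≠ 0)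
    (a : Fin m → SignType) (b : Fin M → SignType) :
    tm (x0 + 3 * l) (Fin.cons x0 x) (Fin.cons x0 y) (Fin.cons 1 a) (Fin.cons 1 b) =
      (sin l * Lw .pos (3 * l)) ^ 2 * ((∏ i, Kw (x0 - x i) ^ 2) * ∏ j, Kw (x0 - y j) ^ 2) *
        tm x0 x y a b := by
  have ep : (1 : SignType) = .pos := rfl
  unfold tm
  rw [Fin.prod_univ_succ (n := m), Fin.prod_univ_succ (n := M), P_cons (n := m), P_cons (n := M),
    Fin.prod_univ_succ (n := m), Fin.prod_univ_succ (n := M)]
  simp only [Fin.cons_zero, Fin.cons_succ]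
  simp_rw [Fin.prod_univ_succ (n := M)]
  simp only [Fin.cons_zero, Fin.cons_succ]
  rw [show x0 + 3 * (l : ℂ) - x0 = 3 * l by ring, sub_self]
  have hX : (∏ i, ww (a i) * Lw (a i) (x0 + 3 * l - x i)) * ((∏ i, fw 1 (a i) (x0 - x i)) *
      ∏ i, gw (a i) 1 (x i - x0)) =
      (∏ i, Kw (x0 - x i) ^ 2) * ∏ i, ww (a i) * Lw (a i) (x0 - x i) := by
    rw [← Finset.prod_mul_distrib, ← Finset.prod_mul_distrib, ← Finset.prod_mul_distrib]
    refine Finset.prod_congr rfl fun i _ => ?_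
    have h := node_own (a i) (hx i).1 (hx i).2
    rw [show x0 + 3 * (l : ℂ) - x i = x0 - x i + 3 * l by ring,
      show x i - x0 = -(x0 - x i) by ring, ep]
    unfold Kw
    linear_combination ww (a i) * h
  have hY : (∏ i, ww (b i) * Lw (b i) (x0 + 3 * l - y i)) * ((∏ i, fw 1 (b i) (x0 - y i)) *
      ∏ i, gw 1 (b i) (x0 - y i)) =
      (∏ i, Kw (x0 - y i) ^ 2) * ∏ i, ww (b i) * Lw (b i) (x0 - y i) := by
    rw [← Finset.prod_mul_distrib, ← Finset.prod_mul_distrib, ← Finset.prod_mul_distrib]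
    refine Finset.prod_congr rfl fun i _ => ?_
    have h := node_own (b i) (hy i).1 (hy i).2
    rw [gw_neg] at h
    rw [show x0 + 3 * (l : ℂ) - y i = x0 - y i + 3 * l by ring, ep]
    unfold Kw
    linear_combination ww (b i) * h
  have hg : gw 1 1 0 = 1 := rfl
  have hw1 : ww 1 = sin l := rfl
  rw [Finset.prod_mul_distrib (f := fun i => gw (a i) 1 (x i - x0)), hg, hw1, ep]
  rw [ep] at hX hY
  set A1 := ∏ i, ww (a i) * Lw (a i) (x0 + 3 * l - x i)
  set A2 := ∏ i, ww (b i) * Lw (b i) (x0 + 3 * l - y i)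
  set B1 := ∏ i, fw SignType.pos (a i) (x0 - x i)
  set B2 := ∏ i, fw SignType.pos (b i) (x0 - y i)
  set C1 := ∏ i, gw (a i) SignType.pos (x i - x0)
  set C2 := ∏ i, gw SignType.pos (b i) (x0 - y i)
  set D1 := ∏ i, ww (a i) * Lw (a i) (x0 - x i)
  set D2 := ∏ i, ww (b i) * Lw (b i) (x0 - y i)
  set K1 := ∏ i, Kw (x0 - x i) ^ 2
  set K2 := ∏ i, Kw (x0 - y i) ^ 2
  set P1 := P fun i j => fw (a i) (a j) (x i - x j)
  set P2 := P fun i j => fw (b i) (b j) (y i - y j)
  set GG := ∏ i, ∏ j, gw (a i) (b j) (x i - y j)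
  linear_combination (sin l * Lw .pos (3 * l)) ^ 2 * P1 * P2 * GG * (A2 * (B2 * C2) * hX +
    K1 * D1 * hY)

/-- **(A1)**: a leg at `x0 + 3 λ` eats the row `x0` of both groups -/
theorem SS_node {m M : ℕ} {x0 : ℂ} {x : Fin m → ℂ} {y : Fin M → ℂ}
    (hx : ∀ i, sin (x0 - x i) ≠ 0 ∧ sin (x0 - x i + l) ≠ 0)
    (hy : ∀ i, sin (x0 - y i) ≠ 0 ∧ sin (x0 - y i + l) ≠ 0) :
    SS (x0 + 3 * l) (Fin.cons x0 x : Fin (m + 1) → ℂ) (Fin.cons x0 y : Fin (M + 1) → ℂ) =
      (sin l * Lw .pos (3 * l)) ^ 2 * ((∏ i, Kw (x0 - x i) ^ 2) * ∏ j, Kw (x0 - y j) ^ 2) *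
        SS x0 x y := by
  unfold SS
  rw [sum_cons]
  rw [Finset.sum_eq_single_of_mem (1 : SignType) (Finset.mem_univ _)]
  · rw [← mul_assoc, mul_comm (_ * _ : ℂ) (sin (l : ℂ)), mul_assoc (sin (l : ℂ))]
    congr 1
    rw [Finset.mul_sum]
    refine Finset.sum_congr rfl fun a _ => ?_
    rw [sum_cons, Finset.sum_eq_single_of_mem (1 : SignType) (Finset.mem_univ _)]
    · rw [Finset.mul_sum]
      refine Finset.sum_congr rfl fun b _ => ?_
      have e : (∑ i, ((Fin.cons 1 a : Fin (m + 1) → SignType) i : ℤ) =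
          ∑ j, ((Fin.cons 1 b : Fin (M + 1) → SignType) j : ℤ)) ↔
          ∑ i, (a i : ℤ) = ∑ j, (b j : ℤ) := by
        rw [Fin.sum_univ_succ, Fin.sum_univ_succ]
        simp
      rw [if_congr e rfl rfl, tm_cons hx hy, mul_ite, mul_zero]
    · intro d _ hd
      refine Finset.sum_eq_zero fun b _ => ?_
      rw [tm_cons_zero x0 x y 1 d a b (Or.inr hd), ite_self]
  · intro c _ hc
    refine Finset.sum_eq_zero fun a _ => ?_
    rw [sum_cons]
    refine Finset.sum_eq_zero fun d _ => Finset.sum_eq_zero fun b _ => ?_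
    rw [tm_cons_zero x0 x y c d a b (Or.inl hc), ite_self]

/-- **(A1)**, left side -/
theorem SS_node' {m M : ℕ} {x0 : ℂ} {x : Fin m → ℂ} {y : Fin M → ℂ}
    (hx : ∀ i, sin (x0 - x i) ≠ 0 ∧ sin (x0 - x i - l) ≠ 0)
    (hy : ∀ i, sin (x0 - y i) ≠ 0 ∧ sin (x0 - y i - l) ≠ 0) :
    SS (x0 - 3 * l) (Fin.cons x0 x : Fin (m + 1) → ℂ) (Fin.cons x0 y : Fin (M + 1) → ℂ) =
      (sin l * Lw .pos (3 * l)) ^ 2 * ((∏ i, Kw (x i - x0) ^ 2) * ∏ j, Kw (y j - x0) ^ 2) *
        SS x0 x y := by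
  have e1 : ∀ {k : ℕ} (u : Fin k → ℂ), -(Fin.cons x0 u : Fin (k + 1) → ℂ) =
      (Fin.cons (-x0) (-u) : Fin (k + 1) → ℂ) := by
    intro k u
    funext i
    refine Fin.cases ?_ (fun j => ?_) i
    · simp
    · simp
  have e2 : ∀ {k : ℕ} {u : Fin k → ℂ}, (∀ i, sin (x0 - u i) ≠ 0 ∧ sin (x0 - u i - l) ≠ 0) →
      ∀ i, sin (-x0 - (-u) i) ≠ 0 ∧ sin (-x0 - (-u) i + l) ≠ 0 := by
    intro k u h i
    obtain ⟨h1, h2⟩ := h i
    constructor
    · intro h0
      apply h1
      rw [← neg_eq_zero, ← sin_neg, ← h0]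
      congr 1
      simp
      ring
    · intro h0
      apply h2
      rw [← neg_eq_zero, ← sin_neg, ← h0]
      congr 1
      simp
      ring
  have h := SS_node (x0 := -x0) (x := -x) (y := -y) (e2 hx) (e2 hy)
  rw [← SS_neg, e1, e1, show -(x0 - 3 * (l : ℂ)) = -x0 + 3 * l by ring, h, SS_neg]
  congr 3
  · refine Finset.prod_congr rfl fun i _ => ?_
    congr 2
    simp
    ring
  · refine Finset.prod_congr rfl fun i _ => ?_
    congr 2
    simp
    ring

end PBS

end
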