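import Pool.Agent.PB.MomA

/-!
# Plan B: exponentials of statistics from a mass bound and a square exponential bound

`W` = the modulus of a class integrand, `X` a real statistic.  If `∫ W ≤ M` (sharp) and
`∫ W e ^ (δ X²) ≤ e ^ A M` (crude), then for `0 ≤ θ ≤ 1`

* `sq_le`: `∫ W e ^ (θ δ X²) ≤ 2 e ^ (θ A) M` (the crude exponent `A` is multiplied by `θ`);
* `exp_le`: `∫ W e ^ (s |X|) ≤ 2 e ^ (s² / (4 θ δ) + θ A) M` for every `s`;
* `exp_prod_le`: products `∏ e ^ (s |X_i|)`; `exp_mom_le`: times `|Y| ^ p`;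
* `exp_le_pow`, `exp_prod_le_pow`: the powers of the size, `M = m ^ ε B`, crude bound `m ^ C B`,
  `s² ≤ 4 θ δ`: at most `6 m ^ (ε + θ C) B`.

With `δ = 1 / (C (log m)²)` (the landed crude bound) `exp_prod_le_pow` gives every complex potential of
size `s = c / log m`.
-/

set_option autoImplicit false

noncomputable section

open MeasureTheory Finset
open scoped ENNReal

namespace PBM

/-- `e ^ (θ y) ≤ e ^ (θ A) + e ^ (- (1 - θ) A) e ^ y` -/
theorem exp_theta_le {θ : ℝ} (h0 : 0 ≤ θ) (h1 : θ ≤ 1) (A y : ℝ) :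
    Real.exp (θ * y) ≤ Real.exp (θ * A) + Real.exp (-((1 - θ) * A)) * Real.exp y := by
  rcases le_total y A with h | h
  · have : Real.exp (θ * y) ≤ Real.exp (θ * A) :=
      Real.exp_le_exp.2 (mul_le_mul_of_nonneg_left h h0)
    have h2 : 0 ≤ Real.exp (-((1 - θ) * A)) * Real.exp y := by positivity
    linarith
  · have h2 : Real.exp (θ * y) ≤ Real.exp (-((1 - θ) * A)) * Real.exp y := by
      rw [← Real.exp_add]
      refine Real.exp_le_exp.2 ?_
      nlinarith [mul_le_mul_of_nonneg_left h (sub_nonneg.2 h1)]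
    linarith [Real.exp_pos (θ * A)]

/-- `s |x| ≤ s² / (4 b) + b x²` -/
theorem mul_abs_le {b : ℝ} (hb : 0 < b) (s x : ℝ) : s * |x| ≤ s ^ 2 / (4 * b) + b * x ^ 2 := by
  have h : 0 ≤ (s / (2 * Real.sqrt b) - Real.sqrt b * |x|) ^ 2 := sq_nonneg _
  have hb' : Real.sqrt b * Real.sqrt b = b := Real.mul_self_sqrt hb.le
  have hs : 0 < Real.sqrt b := Real.sqrt_pos.2 hb
  have e : (s / (2 * Real.sqrt b) - Real.sqrt b * |x|) ^ 2 =
      s ^ 2 / (4 * b) + b * x ^ 2 - s * |x| := by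
    have e1 : (s / (2 * Real.sqrt b)) ^ 2 = s ^ 2 / (4 * b) := by
      rw [div_pow, mul_pow, Real.sq_sqrt hb.le]; norm_num
    have e2 : (Real.sqrt b * |x|) ^ 2 = b * x ^ 2 := by
      rw [mul_pow, Real.sq_sqrt hb.le, sq_abs]
    have e3 : 2 * (s / (2 * Real.sqrt b)) * (Real.sqrt b * |x|) = s * |x| := by
      field_simp
    rw [sub_sq, e1, e2, e3]
    ring
  linarith

variable {Ω : Type*} [MeasurableSpace Ω]

/-- **the crude exponent is multiplied by `θ`** -/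
theorem sq_le (μ : Measure Ω) {W : Ω → ℝ≥0∞} (hW : Measurable W) {X : Ω → ℝ} {A δ θ : ℝ}
    (h0 : 0 ≤ θ) (h1 : θ ≤ 1) {M : ℝ≥0∞} (hM : ∫⁻ x, W x ∂μ ≤ M)
    (hS : ∫⁻ x, W x * ENNReal.ofReal (Real.exp (δ * X x ^ 2)) ∂μ ≤
      ENNReal.ofReal (Real.exp A) * M) :
    ∫⁻ x, W x * ENNReal.ofReal (Real.exp (θ * (δ * X x ^ 2))) ∂μ ≤
      2 * ENNReal.ofReal (Real.exp (θ * A)) * M := by
  have hpt : ∀ x, W x * ENNReal.ofReal (Real.exp (θ * (δ * X x ^ 2))) ≤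
      ENNReal.ofReal (Real.exp (θ * A)) * W x + ENNReal.ofReal (Real.exp (-((1 - θ) * A))) *
        (W x * ENNReal.ofReal (Real.exp (δ * X x ^ 2))) := by
    intro x
    calc W x * ENNReal.ofReal (Real.exp (θ * (δ * X x ^ 2)))
        ≤ W x * ENNReal.ofReal (Real.exp (θ * A) +
            Real.exp (-((1 - θ) * A)) * Real.exp (δ * X x ^ 2)) :=
          mul_le_mul_right (ENNReal.ofReal_le_ofReal (exp_theta_le h0 h1 A _)) _
      _ = _ := by
        rw [ENNReal.ofReal_add (Real.exp_pos _).le (by positivity),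
          ENNReal.ofReal_mul (Real.exp_pos _).le]
        ring
  calc ∫⁻ x, W x * ENNReal.ofReal (Real.exp (θ * (δ * X x ^ 2))) ∂μ
      ≤ ∫⁻ x, (ENNReal.ofReal (Real.exp (θ * A)) * W x +
          ENNReal.ofReal (Real.exp (-((1 - θ) * A))) *
            (W x * ENNReal.ofReal (Real.exp (δ * X x ^ 2)))) ∂μ := lintegral_mono hpt
    _ = ENNReal.ofReal (Real.exp (θ * A)) * ∫⁻ x, W x ∂μ +
          ENNReal.ofReal (Real.exp (-((1 - θ) * A))) *
            ∫⁻ x, W x * ENNReal.ofReal (Real.exp (δ * X x ^ 2)) ∂μ := by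
        rw [lintegral_add_left (hW.const_mul _), lintegral_const_mul _ hW,
          lintegral_const_mul' _ _ ENNReal.ofReal_ne_top]
    _ ≤ ENNReal.ofReal (Real.exp (θ * A)) * M +
          ENNReal.ofReal (Real.exp (-((1 - θ) * A))) * (ENNReal.ofReal (Real.exp A) * M) := by
        gcongr
    _ = 2 * ENNReal.ofReal (Real.exp (θ * A)) * M := by
        rw [← mul_assoc, ← ENNReal.ofReal_mul (Real.exp_pos _).le, ← Real.exp_add,
          show -((1 - θ) * A) + A = θ * A by ring]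
        ring

/-- **exponentials of a statistic** -/
theorem exp_le (μ : Measure Ω) {W : Ω → ℝ≥0∞} (hW : Measurable W) {X : Ω → ℝ} {A δ θ : ℝ}
    (hδ : 0 < δ) (h0 : 0 < θ) (h1 : θ ≤ 1) {M : ℝ≥0∞} (hM : ∫⁻ x, W x ∂μ ≤ M)
    (hS : ∫⁻ x, W x * ENNReal.ofReal (Real.exp (δ * X x ^ 2)) ∂μ ≤
      ENNReal.ofReal (Real.exp A) * M) (s : ℝ) :
    ∫⁻ x, W x * ENNReal.ofReal (Real.exp (s * |X x|)) ∂μ ≤
      2 * ENNReal.ofReal (Real.exp (s ^ 2 / (4 * (θ * δ)) + θ * A)) * M := by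
  have hpt : ∀ x, W x * ENNReal.ofReal (Real.exp (s * |X x|)) ≤
      ENNReal.ofReal (Real.exp (s ^ 2 / (4 * (θ * δ)))) *
        (W x * ENNReal.ofReal (Real.exp (θ * (δ * X x ^ 2)))) := by
    intro x
    calc W x * ENNReal.ofReal (Real.exp (s * |X x|))
        ≤ W x * ENNReal.ofReal (Real.exp (s ^ 2 / (4 * (θ * δ))) *
            Real.exp (θ * (δ * X x ^ 2))) := by
          refine mul_le_mul_right (ENNReal.ofReal_le_ofReal ?_) _
          rw [← Real.exp_add]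
          refine Real.exp_le_exp.2 ?_
          have := mul_abs_le (mul_pos h0 hδ) s (X x)
          linarith
      _ = _ := by
        rw [ENNReal.ofReal_mul (Real.exp_pos _).le]
        ring
  calc ∫⁻ x, W x * ENNReal.ofReal (Real.exp (s * |X x|)) ∂μ
      ≤ ∫⁻ x, ENNReal.ofReal (Real.exp (s ^ 2 / (4 * (θ * δ)))) *
        (W x * ENNReal.ofReal (Real.exp (θ * (δ * X x ^ 2)))) ∂μ := lintegral_mono hpt
    _ = ENNReal.ofReal (Real.exp (s ^ 2 / (4 * (θ * δ)))) *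
        ∫⁻ x, W x * ENNReal.ofReal (Real.exp (θ * (δ * X x ^ 2))) ∂μ :=
        lintegral_const_mul' _ _ ENNReal.ofReal_ne_top
    _ ≤ ENNReal.ofReal (Real.exp (s ^ 2 / (4 * (θ * δ)))) *
        (2 * ENNReal.ofReal (Real.exp (θ * A)) * M) := by
        gcongr
        exact sq_le μ hW h0.le h1 hM hS
    _ = _ := by
        rw [Real.exp_add, ENNReal.ofReal_mul (Real.exp_pos _).le]
        ring

/-- product of exponentials: `∏ e ^ (s |x_i|) ≤ ∑ e ^ (r s |x_i|)`, `r` = number of factors -/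
theorem prod_exp_le {ι : Type*} (t : Finset ι) (ht : t.Nonempty) (x : ι → ℝ) {s : ℝ}
    (hs : 0 ≤ s) :
    ∏ i ∈ t, Real.exp (s * |x i|) ≤ ∑ i ∈ t, Real.exp (t.card * s * |x i|) := by
  obtain ⟨i0, hi0, hmax⟩ := t.exists_max_image (fun i => |x i|) ht
  calc ∏ i ∈ t, Real.exp (s * |x i|) ≤ ∏ _i ∈ t, Real.exp (s * |x i0|) := by
        refine Finset.prod_le_prod (fun i _ => (Real.exp_pos _).le) fun i hi => ?_
        exact Real.exp_le_exp.2 (mul_le_mul_of_nonneg_left (hmax i hi) hs)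
    _ = Real.exp (t.card * s * |x i0|) := by
        rw [Finset.prod_const, ← Real.exp_nat_mul]
        congr 1
        ring
    _ ≤ ∑ i ∈ t, Real.exp (t.card * s * |x i|) :=
        Finset.single_le_sum (f := fun i => Real.exp (t.card * s * |x i|))
          (fun i _ => (Real.exp_pos _).le) hi0

/-- **products of exponentials of statistics** -/
theorem exp_prod_le (μ : Measure Ω) {W : Ω → ℝ≥0∞} (hW : Measurable W) {ι : Type*} (t : Finset ι)
    (ht : t.Nonempty) {X : ι → Ω → ℝ} (hX : ∀ i ∈ t, Measurable (X i)) {A δ θ : ℝ}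
    (hδ : 0 < δ) (h0 : 0 < θ) (h1 : θ ≤ 1) {M : ℝ≥0∞} (hM : ∫⁻ x, W x ∂μ ≤ M)
    (hS : ∀ i ∈ t, ∫⁻ x, W x * ENNReal.ofReal (Real.exp (δ * X i x ^ 2)) ∂μ ≤
      ENNReal.ofReal (Real.exp A) * M) {s : ℝ} (hs : 0 ≤ s) :
    ∫⁻ x, W x * ENNReal.ofReal (∏ i ∈ t, Real.exp (s * |X i x|)) ∂μ ≤
      2 * t.card * ENNReal.ofReal (Real.exp ((t.card * s) ^ 2 / (4 * (θ * δ)) + θ * A)) * M := by
  calc ∫⁻ x, W x * ENNReal.ofReal (∏ i ∈ t, Real.exp (s * |X i x|)) ∂μ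
      ≤ ∫⁻ x, ∑ i ∈ t, W x * ENNReal.ofReal (Real.exp (t.card * s * |X i x|)) ∂μ := by
        refine lintegral_mono fun x => ?_
        rw [← Finset.mul_sum, ← ENNReal.ofReal_sum_of_nonneg fun i _ => (Real.exp_pos _).le]
        exact mul_le_mul_right (ENNReal.ofReal_le_ofReal (prod_exp_le t ht (fun i => X i x) hs)) _
    _ = ∑ i ∈ t, ∫⁻ x, W x * ENNReal.ofReal (Real.exp (t.card * s * |X i x|)) ∂μ := by
        refine lintegral_finsetSum' t fun i hi => ?_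
        have := hX i hi
        fun_prop
    _ ≤ ∑ _i ∈ t, 2 * ENNReal.ofReal (Real.exp ((t.card * s) ^ 2 / (4 * (θ * δ)) + θ * A)) * M :=
        Finset.sum_le_sum fun i hi => exp_le μ hW hδ h0 h1 hM (hS i hi) _
    _ = _ := by
        rw [Finset.sum_const, nsmul_eq_mul]
        ring

/-- **exponential times a moment** -/
theorem exp_mom_le (μ : Measure Ω) {W : Ω → ℝ≥0∞} (hW : Measurable W) {X Y : Ω → ℝ}
    (hX : Measurable X) {p : ℕ} {A δ θ : ℝ} (hA : (p : ℝ) ≤ A)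
    (hδ : 0 < δ) (h0 : 0 < θ) (h1 : θ ≤ 1) {M : ℝ≥0∞} (hM : ∫⁻ x, W x ∂μ ≤ M)
    (hS : ∫⁻ x, W x * ENNReal.ofReal (Real.exp (δ * X x ^ 2)) ∂μ ≤ ENNReal.ofReal (Real.exp A) * M)
    (hS' : ∫⁻ x, W x * ENNReal.ofReal (Real.exp (δ * Y x ^ 2)) ∂μ ≤
      ENNReal.ofReal (Real.exp A) * M) (s : ℝ) :
    ∫⁻ x, W x * ENNReal.ofReal (Real.exp (s * |X x|) * |Y x| ^ p) ∂μ ≤
      2 * (ENNReal.ofReal (Real.exp ((2 * s) ^ 2 / (4 * (θ * δ)) + θ * A)) +
        ENNReal.ofReal ((A / δ) ^ p)) * M := by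
  calc ∫⁻ x, W x * ENNReal.ofReal (Real.exp (s * |X x|) * |Y x| ^ p) ∂μ
      ≤ ∫⁻ x, (W x * ENNReal.ofReal (Real.exp (2 * s * |X x|)) +
          W x * ENNReal.ofReal (|Y x| ^ (2 * p))) ∂μ := by
        refine lintegral_mono fun x => ?_
        rw [← mul_add, ← ENNReal.ofReal_add (Real.exp_pos _).le (by positivity)]
        refine mul_le_mul_right (ENNReal.ofReal_le_ofReal ?_) _
        have e1 : Real.exp (2 * s * |X x|) = Real.exp (s * |X x|) ^ 2 := by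
          rw [← Real.exp_nat_mul]; congr 1; push_cast; ring
        have e2 : |Y x| ^ (2 * p) = (|Y x| ^ p) ^ 2 := by rw [← pow_mul]; ring_nf
        rw [e1, e2]
        nlinarith [sq_nonneg (Real.exp (s * |X x|) - |Y x| ^ p), sq_nonneg (Real.exp (s * |X x|)),
          sq_nonneg (|Y x| ^ p)]
    _ = ∫⁻ x, W x * ENNReal.ofReal (Real.exp (2 * s * |X x|)) ∂μ +
          ∫⁻ x, W x * ENNReal.ofReal (|Y x| ^ (2 * p)) ∂μ := by
        refine lintegral_add_left ?_ _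
        fun_prop
    _ ≤ 2 * ENNReal.ofReal (Real.exp ((2 * s) ^ 2 / (4 * (θ * δ)) + θ * A)) * M +
          2 * ENNReal.ofReal ((A / δ) ^ p) * M := by
        gcongr
        · exact exp_le μ hW hδ h0 h1 hM hS _
        · exact mom_le μ hW hA hδ hM hS'
    _ = _ := by ring

/-! ### powers of the size -/

/-- **exponentials, powers of the size**: sharp mass `m ^ ε B`, crude `m ^ C B`, `s² ≤ 4 θ δ` -/
theorem exp_le_pow (μ : Measure Ω) {W : Ω → ℝ≥0∞} (hW : Measurable W) {X : Ω → ℝ}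
    {m ε C δ θ : ℝ} (hm : 1 ≤ m) (hε : 0 ≤ ε) (hδ : 0 < δ) (h0 : 0 < θ) (h1 : θ ≤ 1) {B : ℝ≥0∞}
    (hM : ∫⁻ x, W x ∂μ ≤ ENNReal.ofReal (m ^ ε) * B)
    (hS : ∫⁻ x, W x * ENNReal.ofReal (Real.exp (δ * X x ^ 2)) ∂μ ≤ ENNReal.ofReal (m ^ C) * B)
    {s : ℝ} (hs : s ^ 2 ≤ 4 * (θ * δ)) :
    ∫⁻ x, W x * ENNReal.ofReal (Real.exp (s * |X x|)) ∂μ ≤
      6 * ENNReal.ofReal (m ^ (ε + θ * C)) * B := by
  have hm0 : 0 < m := by linarith
  have hl : 0 ≤ Real.log m := Real.log_nonneg hm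
  have e : ∀ a : ℝ, m ^ a = Real.exp (Real.log m * a) := fun a => Real.rpow_def_of_pos hm0 a
  have hS' : ∫⁻ x, W x * ENNReal.ofReal (Real.exp (δ * X x ^ 2)) ∂μ ≤
      ENNReal.ofReal (Real.exp (Real.log m * (C - ε))) * (ENNReal.ofReal (m ^ ε) * B) := by
    rw [← mul_assoc, ← ENNReal.ofReal_mul (Real.exp_pos _).le, e ε, ← Real.exp_add,
      show Real.log m * (C - ε) + Real.log m * ε = Real.log m * C by ring, ← e C]
    exact hS
  refine (exp_le μ hW hδ h0 h1 hM hS' s).trans ?_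
  have h2 : Real.exp (s ^ 2 / (4 * (θ * δ)) + θ * (Real.log m * (C - ε))) * m ^ ε ≤
      3 * m ^ (ε + θ * C) := by
    rw [e ε, e (ε + θ * C), ← Real.exp_add]
    have h3 : s ^ 2 / (4 * (θ * δ)) ≤ 1 := (div_le_one (by positivity)).2 hs
    have h4 : s ^ 2 / (4 * (θ * δ)) + θ * (Real.log m * (C - ε)) + Real.log m * ε ≤
        1 + Real.log m * (ε + θ * C) := by
      have := mul_nonneg h0.le (mul_nonneg hl hε)
      nlinarith
    calc Real.exp (s ^ 2 / (4 * (θ * δ)) + θ * (Real.log m * (C - ε)) + Real.log m * ε)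
        ≤ Real.exp (1 + Real.log m * (ε + θ * C)) := Real.exp_le_exp.2 h4
      _ = Real.exp 1 * Real.exp (Real.log m * (ε + θ * C)) := Real.exp_add _ _
      _ ≤ 3 * Real.exp (Real.log m * (ε + θ * C)) := by
        have := Real.exp_one_lt_d9
        gcongr
        linarith
  calc 2 * ENNReal.ofReal (Real.exp (s ^ 2 / (4 * (θ * δ)) + θ * (Real.log m * (C - ε)))) *
        (ENNReal.ofReal (m ^ ε) * B)
      = 2 * ENNReal.ofReal (Real.exp (s ^ 2 / (4 * (θ * δ)) + θ * (Real.log m * (C - ε))) *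
          m ^ ε) * B := by
        rw [ENNReal.ofReal_mul (Real.exp_pos _).le]; ring
    _ ≤ 2 * ENNReal.ofReal (3 * m ^ (ε + θ * C)) * B := by
        gcongr
    _ = _ := by
        rw [ENNReal.ofReal_mul (by norm_num : (0 : ℝ) ≤ 3),
          show ENNReal.ofReal (3 : ℝ) = 3 by norm_num]
        ring

/-- **products of exponentials, powers of the size** -/
theorem exp_prod_le_pow (μ : Measure Ω) {W : Ω → ℝ≥0∞} (hW : Measurable W) {ι : Type*}
    (t : Finset ι) (ht : t.Nonempty) {X : ι → Ω → ℝ} (hX : ∀ i ∈ t, Measurable (X i))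
    {m ε C δ θ : ℝ} (hm : 1 ≤ m) (hε : 0 ≤ ε) (hδ : 0 < δ) (h0 : 0 < θ) (h1 : θ ≤ 1) {B : ℝ≥0∞}
    (hM : ∫⁻ x, W x ∂μ ≤ ENNReal.ofReal (m ^ ε) * B)
    (hS : ∀ i ∈ t, ∫⁻ x, W x * ENNReal.ofReal (Real.exp (δ * X i x ^ 2)) ∂μ ≤
      ENNReal.ofReal (m ^ C) * B)
    {s : ℝ} (hs0 : 0 ≤ s) (hs : (t.card * s) ^ 2 ≤ 4 * (θ * δ)) :
    ∫⁻ x, W x * ENNReal.ofReal (∏ i ∈ t, Real.exp (s * |X i x|)) ∂μ ≤
      t.card * (6 * ENNReal.ofReal (m ^ (ε + θ * C)) * B) := by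
  calc ∫⁻ x, W x * ENNReal.ofReal (∏ i ∈ t, Real.exp (s * |X i x|)) ∂μ
      ≤ ∫⁻ x, ∑ i ∈ t, W x * ENNReal.ofReal (Real.exp (t.card * s * |X i x|)) ∂μ := by
        refine lintegral_mono fun x => ?_
        rw [← Finset.mul_sum, ← ENNReal.ofReal_sum_of_nonneg fun i _ => (Real.exp_pos _).le]
        exact mul_le_mul_right (ENNReal.ofReal_le_ofReal (prod_exp_le t ht (fun i => X i x) hs0)) _
    _ = ∑ i ∈ t, ∫⁻ x, W x * ENNReal.ofReal (Real.exp (t.card * s * |X i x|)) ∂μ := by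
        refine lintegral_finsetSum' t fun i hi => ?_
        have := hX i hi
        fun_prop
    _ ≤ ∑ _i ∈ t, 6 * ENNReal.ofReal (m ^ (ε + θ * C)) * B :=
        Finset.sum_le_sum fun i hi => exp_le_pow μ hW hm hε hδ h0 h1 hM (hS i hi) hs
    _ = _ := by
        rw [Finset.sum_const, nsmul_eq_mul]

end PBM

end
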