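import Pool.Agent.PB.StatU
import Pool.Agent.PB.UXof

/-!
# Plan B, (U3): `StatU`

The hypothesis of `ux_of` (helper79): products of linear statistics on the curve are admissible.
-/

set_option autoImplicit false

namespace PBU

variable [NUSea.Sea]

/-- **products of linear statistics are admissible** -/
theorem statU : StatU := fun _ he he1 _ hJ C0 y₁ y₂ h1 h2 k _ _ hCg hε =>
  PBZ.statU he he1 hJ C0 y₁ y₂ h1 h2 k hCg hε

end PBU
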