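import Mathlib

/-! Two explicit integrals of the symbols of the two species gas (`y = π k / 8`). -/

open MeasureTheory Set Filter Topology Real

namespace Pool.Agent.PB

theorem int_one {c : ℝ} (hc : 0 < c) :
    IntegrableOn (fun y : ℝ => y * exp (-(c * y))) (Ioi 0) ∧
      ∫ y in Ioi (0 : ℝ), y * exp (-(c * y)) = 1 / c ^ 2 := by
  have h := integral_rpow_mul_exp_neg_mul_Ioi (a := 2) (by norm_num) hc
  have e : ∀ y ∈ Ioi (0 : ℝ), y ^ ((2 : ℝ) - 1) * exp (-(c * y)) = y * exp (-(c * y)) := by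
    intro y _
    norm_num
  rw [setIntegral_congr_fun measurableSet_Ioi e] at h
  have h2 : Real.Gamma 2 = 1 := Real.Gamma_two
  rw [h2, mul_one] at h
  have h3 : (1 / c) ^ (2 : ℝ) = 1 / c ^ 2 := by
    rw [rpow_two, div_pow, one_pow]
  rw [h3] at h
  refine ⟨?_, h⟩
  by_contra hn
  have h0 : ∫ y in Ioi (0 : ℝ), y * exp (-(c * y)) = 0 := integral_undef hn
  rw [h0] at h
  have : (0 : ℝ) < 1 / c ^ 2 := by positivity
  linarith

/-- `e^{-by} / (1 - e^{-by})` -/
noncomputable def bose (b y : ℝ) : ℝ := exp (-(b * y)) / (1 - exp (-(b * y)))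

theorem int_bose {b : ℝ} (hb : 0 < b) :
    IntegrableOn (fun y : ℝ => y * bose b y) (Ioi 0) ∧
      ∫ y in Ioi (0 : ℝ), y * bose b y = π ^ 2 / (6 * b ^ 2) := by
  set F : ℕ → ℝ → ℝ := fun n y => y * exp (-((b * (n + 1)) * y)) with hF
  have hc : ∀ n : ℕ, 0 < b * ((n : ℝ) + 1) := fun n => by positivity
  have hint : ∀ n : ℕ, Integrable (F n) (volume.restrict (Ioi 0)) := fun n => (int_one (hc n)).1
  have hval : ∀ n : ℕ, ∫ y in Ioi (0 : ℝ), F n y = 1 / (b * ((n : ℝ) + 1)) ^ 2 :=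
    fun n => (int_one (hc n)).2
  have hnorm : ∀ n : ℕ, ∫ y in Ioi (0 : ℝ), ‖F n y‖ = 1 / (b * ((n : ℝ) + 1)) ^ 2 := by
    intro n
    rw [← hval n]
    refine setIntegral_congr_fun measurableSet_Ioi fun y hy => ?_
    have hy' : (0 : ℝ) < y := hy
    simp only [hF, Real.norm_eq_abs]
    exact abs_of_pos (by positivity)
  have hz : HasSum (fun n : ℕ => 1 / (b * ((n : ℝ) + 1)) ^ 2) (π ^ 2 / (6 * b ^ 2)) := by
    have h1 := hasSum_zeta_two
    have h2 := (hasSum_nat_add_iff' 1).mpr h1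
    simp only [Finset.range_one, Finset.sum_singleton, Nat.cast_zero, ne_eq, OfNat.ofNat_ne_zero,
      not_false_eq_true, zero_pow, div_zero, sub_zero, Nat.cast_add, Nat.cast_one] at h2
    have h3 := h2.mul_left (1 / b ^ 2)
    convert! h3 using 1
    · funext n
      have : ((n : ℝ) + 1) ≠ 0 := by positivity
      field_simp
    · field_simp
  have hs := hasSum_integral_of_summable_integral_norm hint (by
    simp_rw [hnorm]
    exact hz.summable)
  simp_rw [hval] at hs
  have hsum : ∀ y ∈ Ioi (0 : ℝ), ∑' n, F n y = y * bose b y := by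
    intro y hy
    have hy' : (0 : ℝ) < y := hy
    have hx : exp (-(b * y)) < 1 := by
      rw [exp_lt_one_iff]
      have := mul_pos hb hy'
      linarith
    have hg := hasSum_geometric_of_lt_one (exp_pos _).le hx
    have hg2 := (hg.mul_left (y * exp (-(b * y)))).tsum_eq
    rw [← div_eq_mul_inv] at hg2
    unfold bose
    rw [← mul_div_assoc, ← hg2]
    refine tsum_congr fun n => ?_
    have e : exp (-((b * (n + 1)) * y)) = exp (-(b * y)) * exp (-(b * y)) ^ n := by
      rw [← exp_nat_mul, ← exp_add]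
      congr 1
      ring
    simp only [hF]
    rw [e, mul_assoc]
  rw [setIntegral_congr_fun measurableSet_Ioi hsum] at hs
  have hv := hs.unique hz
  refine ⟨?_, hv⟩
  by_contra hn
  have h0 : ∫ y in Ioi (0 : ℝ), y * bose b y = 0 := integral_undef hn
  rw [h0] at hv
  have : (0 : ℝ) < π ^ 2 / (6 * b ^ 2) := by positivity
  linarith

/-- `coth (a y)` -/
noncomputable def cth (a y : ℝ) : ℝ := cosh (a * y) / sinh (a * y)

/-- `tanh (a y)` -/
noncomputable def th (a y : ℝ) : ℝ := sinh (a * y) / cosh (a * y)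

theorem cth_eq {a y : ℝ} (h : 0 < a * y) : cth a y - 1 = 2 * bose (2 * a) y := by
  have hs : 0 < sinh (a * y) := sinh_pos_iff.mpr h
  have hx : exp (-(2 * a * y)) < 1 := by
    rw [exp_lt_one_iff]
    linarith
  unfold cth bose
  have e1 : exp (-(2 * a * y)) = exp (-(a * y)) * exp (-(a * y)) := by
    rw [← exp_add]; congr 1; ring
  have e2 : exp (a * y) * exp (-(a * y)) = 1 := by
    rw [← exp_add]; simp
  rw [div_sub_one hs.ne', ← mul_div_assoc, div_eq_div_iff hs.ne' (by linarith), e1, cosh_eq,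
    sinh_eq]
  set p := exp (a * y)
  set q := exp (-(a * y))
  linear_combination (-q) * e2

theorem th_eq {a y : ℝ} (h : 0 < a * y) : 1 - th a y = 2 * bose (2 * a) y - 4 * bose (4 * a) y := by
  have hc : 0 < cosh (a * y) := cosh_pos _
  have hx : exp (-(a * y)) < 1 := by
    rw [exp_lt_one_iff]
    linarith
  have hx0 := exp_pos (-(a * y))
  unfold th bose
  have e1 : exp (-(2 * a * y)) = exp (-(a * y)) ^ 2 := by
    rw [← exp_nat_mul]; congr 1; push_cast; ring
  have e3 : exp (-(4 * a * y)) = exp (-(a * y)) ^ 4 := by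
    rw [← exp_nat_mul]; congr 1; push_cast; ring
  have e2 : exp (a * y) * exp (-(a * y)) = 1 := by
    rw [← exp_add]; simp
  rw [e1, e3, one_sub_div hc.ne']
  rw [cosh_eq] at hc
  rw [cosh_eq, sinh_eq]
  set p := exp (a * y)
  set q := exp (-(a * y))
  have hq2 : 0 < 1 - q ^ 2 := by nlinarith
  have hq2' : 0 < 1 + q ^ 2 := by positivity
  have hq4 : 1 - q ^ 4 ≠ 0 := by
    have : 1 - q ^ 4 = (1 - q ^ 2) * (1 + q ^ 2) := by ring
    rw [this]
    positivity
  have h5 : q / ((p + q) / 2) = 2 * q ^ 2 / (1 + q ^ 2) := by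
    rw [div_eq_div_iff hc.ne' hq2'.ne']
    linear_combination (-q) * e2
  have h6 : ((p + q) / 2 - (p - q) / 2) = q := by ring
  rw [h6, h5]
  have h7 : 1 - q ^ 4 = (1 - q ^ 2) * (1 + q ^ 2) := by ring
  rw [h7]
  field_simp
  ring

theorem int_ct {a : ℝ} (ha : 0 < a) :
    IntegrableOn (fun y : ℝ => y * (cth a y - 1)) (Ioi 0) ∧
      ∫ y in Ioi (0 : ℝ), y * (cth a y - 1) = π ^ 2 / (12 * a ^ 2) := by
  have h := int_bose (b := 2 * a) (by positivity)
  have e : ∀ y ∈ Ioi (0 : ℝ), 2 * (y * bose (2 * a) y) = y * (cth a y - 1) := by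
    intro y hy
    have hy' : (0 : ℝ) < y := hy
    rw [cth_eq (mul_pos ha hy')]
    ring
  constructor
  · exact IntegrableOn.congr_fun (h.1.const_mul 2) e measurableSet_Ioi
  · rw [← setIntegral_congr_fun measurableSet_Ioi e, integral_const_mul, h.2]
    field_simp
    ring

theorem int_th {a : ℝ} (ha : 0 < a) :
    IntegrableOn (fun y : ℝ => y * (1 - th a y)) (Ioi 0) ∧
      ∫ y in Ioi (0 : ℝ), y * (1 - th a y) = π ^ 2 / (24 * a ^ 2) := by
  have h := int_bose (b := 2 * a) (by positivity)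
  have h' := int_bose (b := 4 * a) (by positivity)
  have e : ∀ y ∈ Ioi (0 : ℝ), 2 * (y * bose (2 * a) y) - 4 * (y * bose (4 * a) y) =
      y * (1 - th a y) := by
    intro y hy
    have hy' : (0 : ℝ) < y := hy
    rw [th_eq (mul_pos ha hy')]
    ring
  constructor
  · exact IntegrableOn.congr_fun ((h.1.const_mul 2).sub (h'.1.const_mul 4)) e measurableSet_Ioi
  · rw [← setIntegral_congr_fun measurableSet_Ioi e, integral_sub (h.1.const_mul 2)
      (h'.1.const_mul 4), integral_const_mul, integral_const_mul, h.2, h'.2]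
    field_simp
    ring

/-- `1 + k U_+' / U_+` in the variable `y = π k / 8`, divided by `y` -/
noncomputable def bp (y : ℝ) : ℝ :=
  3 * cth (3 / 2) y + 3 / 2 * th (3 / 2) y - 4 * cth 4 y - 1 / 2 * th (1 / 2) y

/-- `1 + k U_-' / U_-` in the variable `y = π k / 8`, divided by `y` -/
noncomputable def bm (y : ℝ) : ℝ :=
  9 / 2 * th (3 / 2) y - 4 * cth 4 y - 1 / 2 * th (1 / 2) y

theorem int_bp : IntegrableOn (fun y : ℝ => y * bp y) (Ioi 0) ∧
    ∫ y in Ioi (0 : ℝ), y * bp y = 7 * π ^ 2 / 48 := by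
  have h1 := int_ct (a := 3 / 2) (by norm_num)
  have h2 := int_th (a := 3 / 2) (by norm_num)
  have h3 := int_ct (a := 4) (by norm_num)
  have h4 := int_th (a := 1 / 2) (by norm_num)
  have e : ∀ y ∈ Ioi (0 : ℝ), 3 * (y * (cth (3 / 2) y - 1)) - 3 / 2 * (y * (1 - th (3 / 2) y)) -
      4 * (y * (cth 4 y - 1)) + 1 / 2 * (y * (1 - th (1 / 2) y)) = y * bp y := by
    intro y _
    unfold bp
    ring
  have i1 : IntegrableOn (fun y : ℝ => 3 * (y * (cth (3 / 2) y - 1))) (Ioi 0) := h1.1.const_mul 3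
  have i2 : IntegrableOn (fun y : ℝ => 3 / 2 * (y * (1 - th (3 / 2) y))) (Ioi 0) :=
    h2.1.const_mul (3 / 2)
  have i3 : IntegrableOn (fun y : ℝ => 4 * (y * (cth 4 y - 1))) (Ioi 0) := h3.1.const_mul 4
  have i4 : IntegrableOn (fun y : ℝ => 1 / 2 * (y * (1 - th (1 / 2) y))) (Ioi 0) :=
    h4.1.const_mul (1 / 2)
  have i12 : IntegrableOn (fun y : ℝ => 3 * (y * (cth (3 / 2) y - 1)) -
      3 / 2 * (y * (1 - th (3 / 2) y))) (Ioi 0) := i1.sub i2
  have i123 : IntegrableOn (fun y : ℝ => 3 * (y * (cth (3 / 2) y - 1)) -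
      3 / 2 * (y * (1 - th (3 / 2) y)) - 4 * (y * (cth 4 y - 1))) (Ioi 0) := i12.sub i3
  constructor
  · exact IntegrableOn.congr_fun (i123.add i4) e measurableSet_Ioi
  · rw [← setIntegral_congr_fun measurableSet_Ioi e, integral_add i123 i4, integral_sub i12 i3,
      integral_sub i1 i2, integral_const_mul, integral_const_mul, integral_const_mul,
      integral_const_mul, h1.2, h2.2, h3.2, h4.2]
    ring

theorem int_bm : IntegrableOn (fun y : ℝ => y * bm y) (Ioi 0) ∧
    ∫ y in Ioi (0 : ℝ), y * bm y = - π ^ 2 / 48 := by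
  have h2 := int_th (a := 3 / 2) (by norm_num)
  have h3 := int_ct (a := 4) (by norm_num)
  have h4 := int_th (a := 1 / 2) (by norm_num)
  have e : ∀ y ∈ Ioi (0 : ℝ), 1 / 2 * (y * (1 - th (1 / 2) y)) - 9 / 2 * (y * (1 - th (3 / 2) y)) -
      4 * (y * (cth 4 y - 1)) = y * bm y := by
    intro y _
    unfold bm
    ring
  have i2 : IntegrableOn (fun y : ℝ => 9 / 2 * (y * (1 - th (3 / 2) y))) (Ioi 0) :=
    h2.1.const_mul (9 / 2)
  have i3 : IntegrableOn (fun y : ℝ => 4 * (y * (cth 4 y - 1))) (Ioi 0) := h3.1.const_mul 4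
  have i4 : IntegrableOn (fun y : ℝ => 1 / 2 * (y * (1 - th (1 / 2) y))) (Ioi 0) :=
    h4.1.const_mul (1 / 2)
  have i42 : IntegrableOn (fun y : ℝ => 1 / 2 * (y * (1 - th (1 / 2) y)) -
      9 / 2 * (y * (1 - th (3 / 2) y))) (Ioi 0) := i4.sub i2
  constructor
  · exact IntegrableOn.congr_fun (i42.sub i3) e measurableSet_Ioi
  · rw [← setIntegral_congr_fun measurableSet_Ioi e, integral_sub i42 i3, integral_sub i4 i2,
      integral_const_mul, integral_const_mul, integral_const_mul, h2.2, h3.2, h4.2]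
    ring

/-! ### the symbols -/

/-- `k U_+(k)`, `c = cosh (π k / 8)` -/
noncomputable def kUp (k : ℝ) : ℝ :=
  2 * π / sinh (4 * (π * k / 8)) * ((cosh (π * k / 8) - 1) * (2 * cosh (π * k / 8) + 1) ^ 2 *
    (2 * cosh (π * k / 8) - 1))

/-- `k U_-(k)`, `c = cosh (π k / 8)` -/
noncomputable def kUm (k : ℝ) : ℝ :=
  2 * π / sinh (4 * (π * k / 8)) * ((2 * cosh (π * k / 8) - 1) ^ 3 * (cosh (π * k / 8) + 1))

/-- the symbol `U_+` -/
noncomputable def Up (k : ℝ) : ℝ := kUp k / k

/-- the symbol `U_-` -/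
noncomputable def Um (k : ℝ) : ℝ := kUm k / k

theorem two_cosh_add_one {y : ℝ} (hy : 0 < y) :
    2 * cosh y + 1 = sinh (3 / 2 * y) / sinh (1 / 2 * y) := by
  have hs : 0 < sinh (1 / 2 * y) := sinh_pos_iff.mpr (by linarith)
  rw [eq_div_iff hs.ne']
  have e1 : cosh y = 2 * sinh (1 / 2 * y) ^ 2 + 1 := by
    have := cosh_two_mul (1 / 2 * y)
    have h2 := cosh_sq (1 / 2 * y)
    rw [show 2 * (1 / 2 * y) = y by ring] at this
    linarith
  have e2 : sinh (3 / 2 * y) = 4 * sinh (1 / 2 * y) ^ 3 + 3 * sinh (1 / 2 * y) := by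
    rw [show 3 / 2 * y = 3 * (1 / 2 * y) by ring, sinh_three_mul]
  rw [e1, e2]
  ring

theorem two_cosh_sub_one (y : ℝ) :
    2 * cosh y - 1 = cosh (3 / 2 * y) / cosh (1 / 2 * y) := by
  have hs : 0 < cosh (1 / 2 * y) := cosh_pos _
  rw [eq_div_iff hs.ne']
  have e1 : cosh y = 2 * cosh (1 / 2 * y) ^ 2 - 1 := by
    have := cosh_two_mul (1 / 2 * y)
    have h2 := cosh_sq (1 / 2 * y)
    rw [show 2 * (1 / 2 * y) = y by ring] at this
    linarith
  have e2 : cosh (3 / 2 * y) = 4 * cosh (1 / 2 * y) ^ 3 - 3 * cosh (1 / 2 * y) := by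
    rw [show 3 / 2 * y = 3 * (1 / 2 * y) by ring, cosh_three_mul]
  rw [e1, e2]
  ring

theorem cosh_sub_one' (y : ℝ) : cosh y - 1 = 2 * sinh (1 / 2 * y) ^ 2 := by
  have := cosh_two_mul (1 / 2 * y)
  have h2 := cosh_sq (1 / 2 * y)
  rw [show 2 * (1 / 2 * y) = y by ring] at this
  linarith

theorem cosh_add_one' (y : ℝ) : cosh y + 1 = 2 * cosh (1 / 2 * y) ^ 2 := by
  have := cosh_two_mul (1 / 2 * y)
  have h2 := cosh_sq (1 / 2 * y)
  rw [show 2 * (1 / 2 * y) = y by ring] at this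
  linarith

theorem kUp_eq {k : ℝ} (hk : 0 < k) : kUp k = 4 * π * (sinh (3 / 2 * (π * k / 8)) ^ 2 *
    cosh (3 / 2 * (π * k / 8)) / (sinh (4 * (π * k / 8)) * cosh (1 / 2 * (π * k / 8)))) := by
  have hy : 0 < π * k / 8 := by positivity
  unfold kUp
  rw [two_cosh_add_one hy, two_cosh_sub_one, cosh_sub_one']
  have hs : 0 < sinh (1 / 2 * (π * k / 8)) := sinh_pos_iff.mpr (by positivity)
  field_simp
  ring

theorem kUm_eq (k : ℝ) : kUm k = 4 * π * (cosh (3 / 2 * (π * k / 8)) ^ 3 /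
    (sinh (4 * (π * k / 8)) * cosh (1 / 2 * (π * k / 8)))) := by
  unfold kUm
  rw [two_cosh_sub_one, cosh_add_one']
  have hs : 0 < cosh (1 / 2 * (π * k / 8)) := cosh_pos _
  field_simp
  ring

theorem Up_pos {k : ℝ} (hk : 0 < k) : 0 < kUp k := by
  rw [kUp_eq hk]
  have h1 : 0 < sinh (3 / 2 * (π * k / 8)) := sinh_pos_iff.mpr (by positivity)
  have h2 : 0 < sinh (4 * (π * k / 8)) := sinh_pos_iff.mpr (by positivity)
  have h3 := cosh_pos (3 / 2 * (π * k / 8))
  have h4 := cosh_pos (1 / 2 * (π * k / 8))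
  positivity

theorem Um_pos {k : ℝ} (hk : 0 < k) : 0 < kUm k := by
  rw [kUm_eq]
  have h2 : 0 < sinh (4 * (π * k / 8)) := sinh_pos_iff.mpr (by positivity)
  have h3 := cosh_pos (3 / 2 * (π * k / 8))
  have h4 := cosh_pos (1 / 2 * (π * k / 8))
  positivity

theorem hasDerivAt_log_sinh {a k : ℝ} (ha : 0 < a) (hk : 0 < k) :
    HasDerivAt (fun k => log (sinh (a * (π * k / 8)))) (cth a (π * k / 8) * (a * (π / 8))) k := by
  have hs : 0 < sinh (a * (π * k / 8)) := sinh_pos_iff.mpr (by positivity)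
  have h1 : HasDerivAt (fun k : ℝ => a * (π * k / 8)) (a * (π / 8)) k := by
    have := ((hasDerivAt_id k).const_mul (a * (π / 8)))
    refine (this.congr_deriv (by simp)).congr_of_eventuallyEq
      (Eventually.of_forall fun x => ?_)
    simp only [id]
    ring
  have h2 := (h1.sinh).log hs.ne'
  refine h2.congr_deriv ?_
  unfold cth
  ring

theorem hasDerivAt_log_cosh {a k : ℝ} :
    HasDerivAt (fun k => log (cosh (a * (π * k / 8)))) (th a (π * k / 8) * (a * (π / 8))) k := by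
  have hs : 0 < cosh (a * (π * k / 8)) := cosh_pos _
  have h1 : HasDerivAt (fun k : ℝ => a * (π * k / 8)) (a * (π / 8)) k := by
    have := ((hasDerivAt_id k).const_mul (a * (π / 8)))
    refine (this.congr_deriv (by simp)).congr_of_eventuallyEq
      (Eventually.of_forall fun x => ?_)
    simp only [id]
    ring
  have h2 := (h1.cosh).log hs.ne'
  refine h2.congr_deriv ?_
  unfold th
  ring

theorem hasDerivAt_log_kUp {k : ℝ} (hk : 0 < k) :
    HasDerivAt (fun k => log (kUp k)) (π / 8 * bp (π * k / 8)) k := by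
  have h1 := hasDerivAt_log_sinh (a := 3 / 2) (by norm_num) hk
  have h2 := hasDerivAt_log_cosh (a := 3 / 2) (k := k)
  have h3 := hasDerivAt_log_sinh (a := 4) (by norm_num) hk
  have h4 := hasDerivAt_log_cosh (a := 1 / 2) (k := k)
  have h5 := ((((h1.const_mul 2).add h2).sub h3).sub h4).const_add (log (4 * π))
  have h6 : (fun k => log (kUp k)) =ᶠ[𝓝 k] fun k => log (4 * π) +
      (2 * log (sinh (3 / 2 * (π * k / 8))) + log (cosh (3 / 2 * (π * k / 8))) -
        log (sinh (4 * (π * k / 8))) - log (cosh (1 / 2 * (π * k / 8)))) := by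
    filter_upwards [lt_mem_nhds hk] with x hx
    have e1 : 0 < sinh (3 / 2 * (π * x / 8)) := sinh_pos_iff.mpr (by positivity)
    have e2 : 0 < sinh (4 * (π * x / 8)) := sinh_pos_iff.mpr (by positivity)
    have e3 := cosh_pos (3 / 2 * (π * x / 8))
    have e4 := cosh_pos (1 / 2 * (π * x / 8))
    rw [kUp_eq hx, log_mul (by positivity) (by positivity), log_div (by positivity)
      (by positivity), log_mul (pow_pos e1 2).ne' e3.ne', log_mul e2.ne' e4.ne', log_pow]
    push_cast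
    ring
  refine (h5.congr_deriv ?_).congr_of_eventuallyEq ?_
  · unfold bp
    ring
  · refine h6.trans (Eventually.of_forall fun x => ?_)
    simp only [Pi.add_apply, Pi.sub_apply]

theorem hasDerivAt_log_kUm {k : ℝ} (hk : 0 < k) :
    HasDerivAt (fun k => log (kUm k)) (π / 8 * bm (π * k / 8)) k := by
  have h2 := hasDerivAt_log_cosh (a := 3 / 2) (k := k)
  have h3 := hasDerivAt_log_sinh (a := 4) (by norm_num) hk
  have h4 := hasDerivAt_log_cosh (a := 1 / 2) (k := k)
  have h5 := (((h2.const_mul 3).sub h3).sub h4).const_add (log (4 * π))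
  have h6 : (fun k => log (kUm k)) =ᶠ[𝓝 k] fun k => log (4 * π) +
      (3 * log (cosh (3 / 2 * (π * k / 8))) -
        log (sinh (4 * (π * k / 8))) - log (cosh (1 / 2 * (π * k / 8)))) := by
    filter_upwards [lt_mem_nhds hk] with x hx
    have e2 : 0 < sinh (4 * (π * x / 8)) := sinh_pos_iff.mpr (by positivity)
    have e3 := cosh_pos (3 / 2 * (π * x / 8))
    have e4 := cosh_pos (1 / 2 * (π * x / 8))
    rw [kUm_eq, log_mul (by positivity) (by positivity), log_div (by positivity)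
      (by positivity), log_mul e2.ne' e4.ne', log_pow]
    push_cast
    ring
  refine (h5.congr_deriv ?_).congr_of_eventuallyEq ?_
  · unfold bm
    ring
  · refine h6.trans (Eventually.of_forall fun x => ?_)
    simp only [Pi.sub_apply]

/-- `1 + k U_+' / U_+` -/
theorem logDeriv_Up {k : ℝ} (hk : 0 < k) :
    1 + k * (deriv Up k / Up k) = (π * k / 8) * bp (π * k / 8) := by
  have h1 := (hasDerivAt_log_kUp hk).exp
  have hp := Up_pos hk
  rw [exp_log hp] at h1
  have h2 : kUp =ᶠ[𝓝 k] fun k => exp (log (kUp k)) := by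
    filter_upwards [lt_mem_nhds hk] with x hx
    rw [exp_log (Up_pos hx)]
  have h3 : HasDerivAt Up ((kUp k * (π / 8 * bp (π * k / 8)) * k - kUp k * 1) / k ^ 2) k :=
    (h1.congr_of_eventuallyEq h2).div (hasDerivAt_id k) hk.ne'
  rw [h3.deriv]
  unfold Up
  field_simp
  ring

/-- `1 + k U_-' / U_-` -/
theorem logDeriv_Um {k : ℝ} (hk : 0 < k) :
    1 + k * (deriv Um k / Um k) = (π * k / 8) * bm (π * k / 8) := by
  have h1 := (hasDerivAt_log_kUm hk).exp
  have hp := Um_pos hk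
  rw [exp_log hp] at h1
  have h2 : kUm =ᶠ[𝓝 k] fun k => exp (log (kUm k)) := by
    filter_upwards [lt_mem_nhds hk] with x hx
    rw [exp_log (Um_pos hx)]
  have h3 : HasDerivAt Um ((kUm k * (π / 8 * bm (π * k / 8)) * k - kUm k * 1) / k ^ 2) k :=
    (h1.congr_of_eventuallyEq h2).div (hasDerivAt_id k) hk.ne'
  rw [h3.deriv]
  unfold Um
  field_simp
  ring

theorem scale_int {f : ℝ → ℝ} (hf : IntegrableOn (fun y => y * f y) (Ioi 0)) :
    IntegrableOn (fun k => (π * k / 8) * f (π * k / 8)) (Ioi 0) ∧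
      ∫ k in Ioi (0 : ℝ), (π * k / 8) * f (π * k / 8) = 8 / π * ∫ y in Ioi (0 : ℝ), y * f y := by
  have hp : (0 : ℝ) < π / 8 := by positivity
  have e : (fun k : ℝ => (π * k / 8) * f (π * k / 8)) =
      fun k => (fun y => y * f y) (π / 8 * k) := by
    funext k
    simp only
    rw [show π * k / 8 = π / 8 * k by ring]
  rw [e]
  constructor
  · have := (integrableOn_Ioi_comp_mul_left_iff (fun y => y * f y) 0 hp).mpr (by simpa using hf)
    exact this
  · rw [integral_comp_mul_left_Ioi (fun y => y * f y) 0 hp]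
    simp only [mul_zero, smul_eq_mul]
    congr 1
    field_simp

/-- **the `+` symbol integral**: `(1/π) ∫_0^∞ (1 + k U_+'/U_+) dk = 7/6` -/
theorem int_Up : IntegrableOn (fun k => 1 + k * (deriv Up k / Up k)) (Ioi 0) ∧
    ∫ k in Ioi (0 : ℝ), (1 + k * (deriv Up k / Up k)) = 7 / 6 * π := by
  have h := scale_int int_bp.1
  have e : ∀ k ∈ Ioi (0 : ℝ), (π * k / 8) * bp (π * k / 8) = 1 + k * (deriv Up k / Up k) :=
    fun k hk => (logDeriv_Up hk).symm
  constructor
  · exact IntegrableOn.congr_fun h.1 e measurableSet_Ioi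
  · rw [← setIntegral_congr_fun measurableSet_Ioi e, h.2, int_bp.2]
    field_simp
    ring

/-- **the `-` symbol integral**: `(1/π) ∫_0^∞ (1 + k U_-'/U_-) dk = -1/6` -/
theorem int_Um : IntegrableOn (fun k => 1 + k * (deriv Um k / Um k)) (Ioi 0) ∧
    ∫ k in Ioi (0 : ℝ), (1 + k * (deriv Um k / Um k)) = - (1 / 6) * π := by
  have h := scale_int int_bm.1
  have e : ∀ k ∈ Ioi (0 : ℝ), (π * k / 8) * bm (π * k / 8) = 1 + k * (deriv Um k / Um k) :=
    fun k hk => (logDeriv_Um hk).symm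
  constructor
  · exact IntegrableOn.congr_fun h.1 e measurableSet_Ioi
  · rw [← setIntegral_congr_fun measurableSet_Ioi e, h.2, int_bm.2]
    field_simp
    ring

theorem tendsto_sinh_div (a : ℝ) :
    Tendsto (fun k : ℝ => sinh (a * (π * k / 8)) / k) (𝓝[>] 0) (𝓝 (a * π / 8)) := by
  have h1 : HasDerivAt (fun k : ℝ => sinh (a * (π * k / 8))) (a * π / 8) 0 := by
    have h2 : HasDerivAt (fun k : ℝ => a * (π * k / 8)) (a * π / 8) 0 := by
      have := ((hasDerivAt_id (0 : ℝ)).const_mul (a * π / 8))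
      refine (this.congr_deriv (by simp)).congr_of_eventuallyEq
        (Eventually.of_forall fun x => ?_)
      simp only [id]
      ring
    have h3 := h2.sinh
    simpa using h3
  have h4 := (hasDerivAt_iff_tendsto_slope.mp h1).mono_left
    (nhdsWithin_mono 0 fun x (hx : (0 : ℝ) < x) => (ne_of_gt hx))
  refine h4.congr' ?_
  filter_upwards [self_mem_nhdsWithin] with x hx
  simp [slope_def_field]

/-- `U_+(0+) = 9 π² / 32` -/
theorem tendsto_Up : Tendsto Up (𝓝[>] 0) (𝓝 (9 * π ^ 2 / 32)) := by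
  have h1 := tendsto_sinh_div (3 / 2)
  have h2 := tendsto_sinh_div 4
  have hc : ∀ a : ℝ, Tendsto (fun k : ℝ => cosh (a * (π * k / 8))) (𝓝[>] 0) (𝓝 1) := by
    intro a
    have : Tendsto (fun k : ℝ => cosh (a * (π * k / 8))) (𝓝 0) (𝓝 (cosh (a * (π * 0 / 8)))) :=
      (by fun_prop : Continuous fun k : ℝ => cosh (a * (π * k / 8))).tendsto 0
    simp only [mul_zero, zero_div, cosh_zero] at this
    exact this.mono_left nhdsWithin_le_nhds
  have h3 := ((h1.mul h1).mul (hc (3 / 2))).div (h2.mul (hc (1 / 2))) (by positivity)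
  have h4 := h3.const_mul (4 * π)
  have e : 4 * π * (3 / 2 * π / 8 * (3 / 2 * π / 8) * 1 / (4 * π / 8 * 1)) = 9 * π ^ 2 / 32 := by
    field_simp
    ring
  rw [e] at h4
  refine h4.congr' ?_
  filter_upwards [self_mem_nhdsWithin] with k hk
  have hk' : (0 : ℝ) < k := hk
  have e2 : 0 < sinh (4 * (π * k / 8)) := sinh_pos_iff.mpr (by positivity)
  have e4 := cosh_pos (1 / 2 * (π * k / 8))
  unfold Up
  rw [kUp_eq hk']
  simp only [Pi.div_apply]
  field_simp

end Pool.Agent.PB
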