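import Pool.Agent.PB.TRAs
import Pool.Agent.PB.Reg1

/-!
# Plan B, (TR): the perturbation dislocated function → regular function, rows 0, ends 0

`w`, `w'`: half quanta (`Re = 5 l / 4`), `z`: dislocation (`Re = - l / 4`).

* `DelQ w w' z u` (`DelB .. b u` for species `b`): a logarithm of
  `- thE 0 0 0 0 u * Ck (w - u) * Dk (w' - u) / Lg z z u` (`exp_DelQ`, `exp_DelB'`), analytic on
  `KA`: `- 17 l / 10 ≤ Re u ≤ 6 l / 5`;
* `Asy_DelQ`, `Asy_DelB`, `DelB_lim`: derivative = explicit sum `DelQ'` of cotangents, bounded;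
  `‖DelB u + s * sb b * (Im w - Im w')‖ ≤ C exp (2 (M - s Im u))`, the same for the derivative, for
  `s = ±1` and all `u` (`M ≥ |Im w|, |Im w'|, |Im z|`), `C` absolute.
-/

set_option autoImplicit false

open MeasureTheory Set Filter Topology Complex

namespace PBTD

open NUMF Pool.Agent.PB

noncomputable section

/-- the ends: `log Θ_0 ^ 2` -/
def thL (u : ℂ) : ℂ := 2 * (LSn (3 * l + u) - LSn (2 * l - u))

/-- the dislocation: `log (- Θ_z)` -/
def DzL (z u : ℂ) : ℂ := LSn (z + 5 * l - u) - LSn (z + 2 * l - u)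

/-- **the perturbation of a quantum** -/
def DelQ (w w' z u : ℂ) : ℂ :=
  thL u + (LSn (w - u) + LSn (w + 2 * l - u) - LSn (w + l - u)) +
    (LSn (w' + 4 * l - u) - LSn (3 * l - w' + u) - LSn (3 * l + w' - u)) - DzL z u

/-- its derivative -/
def DelQ' (w w' z u : ℂ) : ℂ :=
  2 * (ct (3 * l + u) + ct (2 * l - u)) + (-ct (w - u) - ct (w + 2 * l - u) + ct (w + l - u)) +
    (-ct (w' + 4 * l - u) - ct (3 * l - w' + u) + ct (3 * l + w' - u)) -
    (-ct (z + 5 * l - u) + ct (z + 2 * l - u))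

/-- real parts of the quanta and of the object L -/
def KA : Set ℝ := Set.Icc (-(17 / 10 * l)) (6 / 5 * l)

lemma sin_sub_8l (z : ℂ) : Complex.sin (z - 8 * l) = -Complex.sin z := by
  rw [eight_lC, Complex.sin_sub_pi]

lemma Lg_eq (z u : ℂ) : -PBX.Lg z z u = Complex.sin (z + 5 * l - u) / Complex.sin (z + 2 * l - u) := by
  unfold PBX.Lg
  rw [l_eq, show z - u - 3 * (l : ℂ) = (z + 5 * l - u) - 8 * l by ring, sin_sub_8l,
    show z - u + 2 * (l : ℂ) = z + 2 * l - u by ring, neg_div, neg_neg]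

lemma thE_eq (u : ℂ) : NUP1.Leg.thE 0 0 0 0 u =
    (Complex.sin (3 * l + u) / Complex.sin (2 * l - u)) ^ 2 := by
  rw [PBX.thE_Lg]
  unfold PBX.Lg
  rw [l_eq, show (0 : ℂ) - u - 3 * (l : ℂ) = -(3 * l + u) by ring,
    show (0 : ℂ) - u + 2 * (l : ℂ) = 2 * l - u by ring, Complex.sin_neg]
  ring

/-- **`exp DelQ` = ratio of the one body functions** -/
theorem exp_DelQ {w w' z u : ℂ} (hw : w.re = 5 / 4 * l) (hw' : w'.re = 5 / 4 * l)
    (hz : z.re = -(1 / 4 * l)) (hu : u.re ∈ KA) :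
    Complex.exp (DelQ w w' z u) * (-PBX.Lg z z u) =
      NUP1.Leg.thE 0 0 0 0 u * (NUP1.Leg.Ck (w - u) * NUP1.Leg.Dk (w' - u)) := by
  have hl := l_pos
  obtain ⟨h1, h2⟩ := hu
  have r (a : ℂ) (x : ℝ) (ha : a.re = x) (h0 : 0 < x) (h8 : x < 8 * l) :
      Complex.exp (LSn a) = Complex.sin a ∧ Complex.sin a ≠ 0 :=
    ⟨exp_LS (by rw [ha]; exact h0) (by rw [ha]; exact h8),
      sin_neS (by rw [ha]; exact h0) (by rw [ha]; exact h8)⟩
  obtain ⟨a1, b1⟩ := r (3 * l + u) (3 * l + u.re) (by simp) (by linarith) (by linarith)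
  obtain ⟨a2, b2⟩ := r (2 * l - u) (2 * l - u.re) (by simp) (by linarith) (by linarith)
  obtain ⟨a3, b3⟩ := r (w - u) (5 / 4 * l - u.re) (by simp [hw]) (by linarith) (by linarith)
  obtain ⟨a4, b4⟩ := r (w + 2 * l - u) (5 / 4 * l + 2 * l - u.re) (by simp [hw]) (by linarith)
    (by linarith)
  obtain ⟨a5, b5⟩ := r (w + l - u) (5 / 4 * l + l - u.re) (by simp [hw]) (by linarith)
    (by linarith)
  obtain ⟨a6, b6⟩ := r (w' + 4 * l - u) (5 / 4 * l + 4 * l - u.re) (by simp [hw']) (by linarith)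
    (by linarith)
  obtain ⟨a7, b7⟩ := r (3 * l - w' + u) (3 * l - 5 / 4 * l + u.re) (by simp [hw']) (by linarith)
    (by linarith)
  obtain ⟨a8, b8⟩ := r (3 * l + w' - u) (3 * l + 5 / 4 * l - u.re) (by simp [hw']) (by linarith)
    (by linarith)
  obtain ⟨a9, b9⟩ := r (z + 5 * l - u) (-(1 / 4 * l) + 5 * l - u.re) (by simp [hz]) (by linarith)
    (by linarith)
  obtain ⟨a0, b0⟩ := r (z + 2 * l - u) (-(1 / 4 * l) + 2 * l - u.re) (by simp [hz]) (by linarith)
    (by linarith)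
  have ec : Complex.cos (w' - u) = Complex.sin (w' + 4 * l - u) := by
    rw [show w' + 4 * (l : ℂ) - u = (w' - u) + Real.pi / 2 by rw [← eight_lC]; ring,
      Complex.sin_add_pi_div_two]
  unfold DelQ thL DzL NUP1.Leg.Ck NUP1.Leg.Dk
  rw [Lg_eq, thE_eq, l_eq, ec, two_mul (LSn _ - LSn _), show w - u + 2 * (l : ℂ) = w + 2 * l - u by ring,
    show w - u + (l : ℂ) = w + l - u by ring, show 3 * (l : ℂ) - (w' - u) = 3 * l - w' + u by ring,
    show 3 * (l : ℂ) + (w' - u) = 3 * l + w' - u by ring]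
  simp only [Complex.exp_add, Complex.exp_sub, a1, a2, a3, a4, a5, a6, a7, a8, a9, a0]
  generalize Complex.sin (3 * l + u) = s1 at *
  generalize Complex.sin (2 * l - u) = s2 at *
  generalize Complex.sin (w - u) = s3 at *
  generalize Complex.sin (w + 2 * l - u) = s4 at *
  generalize Complex.sin (w + l - u) = s5 at *
  generalize Complex.sin (w' + 4 * l - u) = s6 at *
  generalize Complex.sin (3 * l - w' + u) = s7 at *
  generalize Complex.sin (3 * l + w' - u) = s8 at *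
  generalize Complex.sin (z + 5 * l - u) = s9 at *
  generalize Complex.sin (z + 2 * l - u) = s0 at *
  field_simp

/-- the limit of the perturbation -/
theorem Asy_DelQ : ∃ C : ℝ, 0 ≤ C ∧ ∀ (w w' z : ℂ) (M : ℝ), w.re = 5 / 4 * l → w'.re = 5 / 4 * l →
    z.re = -(1 / 4 * l) → |w.im| ≤ M → |w'.im| ≤ M → |z.im| ≤ M →
    Asy KA C M (DelQ w w' z) (DelQ' w w' z) (fun _ => 0) (fun s => s * I * (w - w')) := by
  have hl := l_pos
  obtain ⟨C, hC, h⟩ := Asy_LS (a := 1 / 20 * l) (b := 159 / 20 * l) (by positivity) (by linarith)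
  refine ⟨12 * C, by positivity, fun w w' z M hw hw' hz mw mw' mz => ?_⟩
  have hM : 0 ≤ M := (abs_nonneg _).trans mw
  have m1 : |(3 * (l : ℂ)).im| ≤ M := by simpa using hM
  have m2 : |(2 * (l : ℂ)).im| ≤ M := by simpa using hM
  have A1 := (h KA (3 * l) M m1).1 (fun x hx => by
    obtain ⟨x1, x2⟩ := hx
    have : (3 * (l : ℂ)).re = 3 * l := by simp
    rw [this]
    constructor <;> linarith)
  have A2 := (h KA (2 * l) M m2).2 (fun x hx => by
    obtain ⟨x1, x2⟩ := hx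
    have : (2 * (l : ℂ)).re = 2 * l := by simp
    rw [this]
    constructor <;> linarith)
  have B (c : ℂ) (x0 : ℝ) (hc : c.re = x0) (hm : |c.im| ≤ M) (g1 : 5 / 4 * l ≤ x0)
      (g2 : x0 ≤ 25 / 4 * l) := (h KA c M hm).2 (fun x hx => by
    obtain ⟨x1, x2⟩ := hx
    rw [hc]
    constructor <;> linarith)
  have A3 := B w (5 / 4 * l) hw mw (by linarith) (by linarith)
  have A4 := B (w + 2 * l) (5 / 4 * l + 2 * l) (by simp [hw]) (by simpa using mw) (by linarith)
    (by linarith)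
  have A5 := B (w + l) (5 / 4 * l + l) (by simp [hw]) (by simpa using mw) (by linarith)
    (by linarith)
  have A6 := B (w' + 4 * l) (5 / 4 * l + 4 * l) (by simp [hw']) (by simpa using mw') (by linarith)
    (by linarith)
  have A7 := (h KA (3 * l - w') M (by simpa using mw')).1 (fun x hx => by
    obtain ⟨x1, x2⟩ := hx
    have : (3 * (l : ℂ) - w').re = 3 * l - 5 / 4 * l := by simp [hw']
    rw [this]
    constructor <;> linarith)
  have A8 := B (3 * l + w') (3 * l + 5 / 4 * l) (by simp [hw']) (by simpa using mw') (by linarith)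
    (by linarith)
  have A9 := B (z + 5 * l) (-(1 / 4 * l) + 5 * l) (by simp [hz]) (by simpa using mz) (by linarith)
    (by linarith)
  have A0 := B (z + 2 * l) (-(1 / 4 * l) + 2 * l) (by simp [hz]) (by simpa using mz) (by linarith)
    (by linarith)
  have T := ((((A1.sub A2).add (A1.sub A2)).add ((A3.add A4).sub A5)).add
    ((A6.sub A7).sub A8)).sub (A9.sub A0)
  refine (T.mono (C' := 12 * C) (le_of_eq (by ring))).congr (fun u => ?_) (fun u => ?_)
    (fun s hs => ?_) (fun s hs => ?_)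
  · unfold DelQ thL DzL
    ring
  · unfold DelQ'
    ring
  · ring
  · ring

/-- the perturbation of the quanta of the two species -/
def DelB (w w' z : ℂ) (b : Bool) (u : ℂ) : ℂ := if b then DelQ w w' z u else DelQ w' w z u

/-- its derivative -/
def DelB' (w w' z : ℂ) (b : Bool) (u : ℂ) : ℂ := if b then DelQ' w w' z u else DelQ' w' w z u

/-- sign of the species in the limit -/
def sb (b : Bool) : ℝ := if b then 1 else -1

/-- the regular spectator of the quanta -/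
def sReg (w w' : ℂ) (b : Bool) (u : ℂ) : ℂ := NUP1.Leg.thE 0 0 0 0 u *
  (if b then NUP1.Leg.Ck (w - u) * NUP1.Leg.Dk (w' - u) else
    NUP1.Leg.Dk (w - u) * NUP1.Leg.Ck (w' - u))

theorem exp_DelB {w w' z u : ℂ} (hw : w.re = 5 / 4 * l) (hw' : w'.re = 5 / 4 * l)
    (hz : z.re = -(1 / 4 * l)) (hu : u.re ∈ KA) (b : Bool) :
    Complex.exp (DelB w w' z b u) * (-PBX.Lg z z u) = sReg w w' b u := by
  unfold DelB sReg
  cases b
  · simp only [Bool.false_eq_true, if_false]
    rw [exp_DelQ hw' hw hz hu, mul_comm (NUP1.Leg.Ck (w' - u))]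
  · simp only [if_true]
    exact exp_DelQ hw hw' hz hu

/-- the leg does not vanish on the strip -/
lemma Lg_ne {z u : ℂ} (hz : z.re = -(1 / 4 * l)) (hu : u.re ∈ KA) : PBX.Lg z z u ≠ 0 := by
  have hl := l_pos
  obtain ⟨h1, h2⟩ := hu
  have b9 : Complex.sin (z + 5 * l - u) ≠ 0 := sin_neS
    (by rw [show (z + 5 * (l : ℂ) - u).re = -(1 / 4 * l) + 5 * l - u.re by simp [hz]]; linarith)
    (by rw [show (z + 5 * (l : ℂ) - u).re = -(1 / 4 * l) + 5 * l - u.re by simp [hz]]; linarith)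
  have b0 : Complex.sin (z + 2 * l - u) ≠ 0 := sin_neS
    (by rw [show (z + 2 * (l : ℂ) - u).re = -(1 / 4 * l) + 2 * l - u.re by simp [hz]]; linarith)
    (by rw [show (z + 2 * (l : ℂ) - u).re = -(1 / 4 * l) + 2 * l - u.re by simp [hz]]; linarith)
  intro h
  have := Lg_eq z u
  rw [h, neg_zero] at this
  exact div_ne_zero b9 b0 this.symm

/-- **`DelB` is a logarithm of the ratio `sReg / (- Lg z z)`** -/
theorem exp_DelB' {w w' z u : ℂ} (hw : w.re = 5 / 4 * l) (hw' : w'.re = 5 / 4 * l)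
    (hz : z.re = -(1 / 4 * l)) (hu : u.re ∈ KA) (b : Bool) :
    Complex.exp (DelB w w' z b u) = -(sReg w w' b u / PBX.Lg z z u) := by
  have h := exp_DelB hw hw' hz hu b
  have h0 := Lg_ne hz hu
  rw [← h]
  field_simp

/-- **asymptotics of the perturbation, both species** -/
theorem Asy_DelB : ∃ C : ℝ, 0 ≤ C ∧ ∀ (w w' z : ℂ) (M : ℝ), w.re = 5 / 4 * l → w'.re = 5 / 4 * l →
    z.re = -(1 / 4 * l) → |w.im| ≤ M → |w'.im| ≤ M → |z.im| ≤ M → ∀ b,
    Asy KA C M (DelB w w' z b) (DelB' w w' z b) (fun _ => 0)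
      (fun s => ((-(s * sb b * (w.im - w'.im)) : ℝ) : ℂ)) := by
  obtain ⟨C, hC, h⟩ := Asy_DelQ
  refine ⟨C, hC, fun w w' z M hw hw' hz mw mw' mz b => ?_⟩
  have e1 : w = (5 / 4 * l : ℝ) + w.im * I := by rw [← hw, Complex.re_add_im]
  have e2 : w' = (5 / 4 * l : ℝ) + w'.im * I := by rw [← hw', Complex.re_add_im]
  have e3 : w - w' = (w.im - w'.im) * I := by
    linear_combination e1 - e2
  cases b
  · refine (h w' w z M hw' hw hz mw' mw mz).congr (fun _ => rfl) (fun _ => rfl) (fun _ _ => rfl)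
      (fun s _ => ?_)
    rw [← neg_sub w w', e3]
    simp only [sb, Bool.false_eq_true, if_false]
    push_cast
    linear_combination (-(s * (w.im - w'.im : ℂ))) * I_mul_I
  · refine (h w w' z M hw hw' hz mw mw' mz).congr (fun _ => rfl) (fun _ => rfl) (fun _ _ => rfl)
      (fun s _ => ?_)
    rw [e3]
    simp only [sb, if_true]
    push_cast
    linear_combination (s * (w.im - w'.im : ℂ)) * I_mul_I

lemma Asy.grow {K : Set ℝ} (hK : Convex ℝ K) {C M R : ℝ} {f f' : ℂ → ℂ} {q : ℝ → ℂ}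
    (h : Asy K C M f f' (fun _ => 0) q) (hC : 0 ≤ C) (hM : 0 ≤ M)
    (hq : ∀ s, (s = 1 ∨ s = -1) → ‖q s‖ ≤ R) (u : ℂ) (hu : u.re ∈ K) :
    ‖f u‖ ≤ R + C + 2 * (C * M) := by
  have far (s : ℝ) (hs : s = 1 ∨ s = -1) (y : ℂ) (hy : y.re ∈ K) (hm : M ≤ s * y.im) :
      ‖f y‖ ≤ R + C := by
    have h1 := h.as0 y hy s hs
    have h2 : Real.exp (2 * (M - s * y.im)) ≤ 1 := Real.exp_le_one_iff.2 (by linarith)
    have h3 : ‖f y‖ ≤ ‖q s‖ + ‖f y - (0 * y + q s)‖ := by
      refine le_trans (le_of_eq ?_) (norm_add_le _ _)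
      congr 1
      ring
    have h4 := hq s hs
    have h5 : C * Real.exp (2 * (M - s * y.im)) ≤ C := mul_le_of_le_one_right hC h2
    linarith
  have hCM : 0 ≤ C * M := mul_nonneg hC hM
  rcases le_or_gt M u.im with h1 | h1
  · have := far 1 (Or.inl rfl) u hu (by linarith)
    linarith
  rcases le_or_gt M (-u.im) with h2 | h2
  · have := far (-1) (Or.inr rfl) u hu (by linarith)
    linarith
  set y : ℂ := ⟨u.re, M⟩ with hy
  have h3 := far 1 (Or.inl rfl) y hu (by rw [one_mul])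
  have hcv : Convex ℝ {v : ℂ | v.re ∈ K} := hK.is_linear_preimage (f := Complex.re)
    ⟨fun _ _ => rfl, fun c x => by simp⟩
  have h4 := hcv.norm_image_sub_le_of_norm_hasDerivWithin_le (f := f) (f' := f') (C := C)
    (fun v hv => (h.der v hv).hasDerivWithinAt) (fun v hv => h.bd v hv) (x := y) (y := u) hu hu
  have h5 : ‖u - y‖ ≤ 2 * M := by
    have e : u - y = ((u.im - M : ℝ) : ℂ) * I := by
      apply Complex.ext <;> simp [hy]
    rw [e, norm_mul, Complex.norm_I, mul_one, Complex.norm_real, Real.norm_eq_abs]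
    exact abs_le.2 ⟨by linarith, by linarith⟩
  calc ‖f u‖ ≤ ‖f y‖ + ‖f u - f y‖ := by
        refine le_trans (le_of_eq ?_) (norm_add_le _ _)
        congr 1
        ring
    _ ≤ (R + C) + C * ‖u - y‖ := add_le_add h3 h4
    _ ≤ (R + C) + C * (2 * M) := by gcongr
    _ = _ := by ring

/-- the same in plain words -/
theorem DelB_lim : ∃ C : ℝ, 0 ≤ C ∧ ∀ (w w' z : ℂ) (M : ℝ), w.re = 5 / 4 * l → w'.re = 5 / 4 * l →
    z.re = -(1 / 4 * l) → |w.im| ≤ M → |w'.im| ≤ M → |z.im| ≤ M → ∀ (b : Bool) (u : ℂ), u.re ∈ KA →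
    HasDerivAt (DelB w w' z b) (DelB' w w' z b u) u ∧
    (∀ s : ℝ, (s = 1 ∨ s = -1) →
      ‖DelB w w' z b u - ((-(s * sb b * (w.im - w'.im)) : ℝ) : ℂ)‖ ≤
        C * Real.exp (2 * (M - s * u.im)) ∧
      ‖DelB' w w' z b u‖ ≤ C * Real.exp (2 * (M - s * u.im))) ∧
    ‖DelB' w w' z b u‖ ≤ C ∧ ‖DelB w w' z b u‖ ≤ C * (1 + M) := by
  obtain ⟨C, hC, h⟩ := Asy_DelB
  refine ⟨2 + 2 * C, by positivity, fun w w' z M hw hw' hz mw mw' mz b u hu => ?_⟩
  have hM : 0 ≤ M := (abs_nonneg _).trans mw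
  have A := h w w' z M hw hw' hz mw mw' mz b
  have hsb : |sb b| = 1 := by cases b <;> simp [sb]
  have cc : C ≤ 2 + 2 * C := by linarith
  refine ⟨A.der u hu, fun s hs => ⟨?_, ?_⟩, (A.bd u hu).trans cc, ?_⟩
  · have := A.as0 u hu s hs
    rw [zero_mul, zero_add] at this
    exact this.trans (mul_le_mul_of_nonneg_right cc (Real.exp_pos _).le)
  · have := A.as1 u hu s hs
    rw [sub_zero] at this
    exact this.trans (mul_le_mul_of_nonneg_right cc (Real.exp_pos _).le)
  · have := A.grow (convex_Icc _ _) (R := 2 * M) hC hM (fun s hs => by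
      have hs1 : |s| = 1 := by rcases hs with rfl | rfl <;> simp
      rw [Complex.norm_real, Real.norm_eq_abs, abs_neg, abs_mul, abs_mul, hs1, hsb, one_mul, one_mul]
      have h1 := abs_le.1 mw
      have h2 := abs_le.1 mw'
      exact abs_le.2 ⟨by linarith [h1.1, h1.2, h2.1, h2.2], by linarith [h1.1, h1.2, h2.1, h2.2]⟩) u hu
    refine this.trans ?_
    nlinarith

end

end PBTD
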