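import Pool.Agent.PB.TrG2

/-!
# Transfer, Gaussian part (3): the fields of the half quanta, rows `0`, ends `0`

`w, w'` with `l < Re < 2l`, `z = l - (w + w')/2`.  `β₊' = ift (es 3l cP (aP w w'))`,
`β₋' = ift (es 3l cM (aM w w'))`; symbol identities and
* `(- V * β₊')' = Δ₊'` (`convP`), `Δ₊' = dP w w'`;
* symbol of `- V * β₋'' - 2 Kg * β₋'` is that of `Δ₋' = dM w w'` (`symM`).
-/

set_option autoImplicit false

open MeasureTheory Set Filter Topology

namespace PBT3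

open NUMF

noncomputable section

/-! ### pairs over `sinh (πk/2)` -/

/-- `(e^{ak} - e^{bk}) / sinh (πk/2)` -/
def pr (a b : ℂ) (k : ℝ) : ℂ := (Complex.exp (a * k) - Complex.exp (b * k)) / (sk k : ℂ)

lemma pr_eq (a b : ℂ) (k : ℝ) : pr a b k = js (Real.pi / 2) a k - js (Real.pi / 2) b k := by
  unfold pr js sk
  rw [← sub_div]
  congr 1
  ring

lemma pr_int {a b : ℂ} (ha : |a.re| < Real.pi / 2) (hb : |b.re| < Real.pi / 2) : Integrable (pr a b) := by
  have h1 : pr a b = fun k => js (Real.pi / 2) a k - js (Real.pi / 2) b k := funext (pr_eq a b)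
  have hp : 0 < Real.pi / 2 := by have := Real.pi_pos; positivity
  rw [h1]
  exact (js_int hp ha).sub (js_int hp hb)

lemma pr_shift (a b : ℂ) (k t : ℝ) : pr a b k * Complex.exp ((k * t : ℝ) * Complex.I) =
    pr (a + Complex.I * t) (b + Complex.I * t) k := by
  unfold pr
  rw [div_mul_eq_mul_div, sub_mul, exp_shift, exp_shift]

theorem ift_pr {a b : ℂ} (ha : |a.re| < Real.pi / 2) (hb : |b.re| < Real.pi / 2) (t : ℝ) :
    ift (pr a b) t = (1 / Real.pi : ℝ) * (Complex.tan (a + Complex.I * t) - Complex.tan (b + Complex.I * t)) := by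
  have hp : 0 < Real.pi / 2 := by have := Real.pi_pos; positivity
  have hpi := Real.pi_pos
  unfold ift
  simp_rw [pr_shift, pr_eq]
  rw [integral_sub (js_int hp (by rwa [re_shift])) (js_int hp (by rwa [re_shift])),
    js_integral hp (by rwa [re_shift]), js_integral hp (by rwa [re_shift])]
  have e1 : Real.pi / (2 * (Real.pi / 2)) = 1 := by field_simp
  have e2 : Real.pi / (Real.pi / 2) = 2 := by field_simp
  rw [e1, e2, Complex.ofReal_one, one_mul, one_mul]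
  have hp : (Real.pi : ℂ) ≠ 0 := Complex.ofReal_ne_zero.2 Real.pi_ne_zero
  push_cast
  field_simp

/-! ### families -/

/-- the position of the legs -/
def zz (w w' : ℂ) : ℂ := l - (w + w') / 2

def cP : Fin 8 → ℂ := ![-2, -2, 1, 1, 1 / 2, 1 / 2, 1 / 2, 1 / 2]

def aP (w w' : ℂ) : Fin 8 → ℂ :=
  ![2 * l, l, 2 * l - zz w w', l - zz w w', 4 * l - w, l - w, 4 * l - w', l - w']

def cM : Fin 4 → ℂ := ![1 / 2, -1 / 2, -1 / 2, 1 / 2]

def aM (w w' : ℂ) : Fin 4 → ℂ := ![4 * l - w, l - w, 4 * l - w', l - w']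

/-- the window of the half quanta -/
structure Geo (w w' : ℂ) : Prop where
  h1 : l < w.re
  h2 : w.re < 2 * l
  h3 : l < w'.re
  h4 : w'.re < 2 * l

variable {w w' : ℂ}

lemma cP_sum : ∑ j, cP j = 0 := by
  simp [cP, Fin.sum_univ_succ]
  norm_num

lemma cP_sum1 (w w' : ℂ) : ∑ j, cP j * aP w w' j = 0 := by
  simp [cP, aP, Fin.sum_univ_succ, zz]
  ring

lemma cM_sum : ∑ j, cM j = 0 := by
  simp [cM, Fin.sum_univ_succ]
  norm_num

lemma cM_sum1 (w w' : ℂ) : ∑ j, cM j * aM w w' j = 0 := by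
  simp [cM, aM, Fin.sum_univ_succ]
  ring

lemma zz_re (w w' : ℂ) : (zz w w').re = l - (w.re + w'.re) / 2 := by
  unfold zz
  have : (w + w') / 2 = ((1 / 2 : ℝ) : ℂ) * (w + w') := by push_cast; ring
  rw [this, Complex.sub_re, Complex.re_ofReal_mul]
  simp
  ring

lemma aP_re (h : Geo w w') (j : Fin 8) : |(aP w w' j).re| < 3 * l := by
  have hl := l_pos
  have hz := zz_re w w'
  obtain ⟨h1, h2, h3, h4⟩ := h
  refine abs_lt.2 ⟨?_, ?_⟩ <;> fin_cases j <;> simp [aP, hz] <;> linarith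

lemma aM_re (h : Geo w w') (j : Fin 4) : |(aM w w' j).re| < 3 * l := by
  have hl := l_pos
  obtain ⟨h1, h2, h3, h4⟩ := h
  refine abs_lt.2 ⟨?_, ?_⟩ <;> fin_cases j <;> simp [aM] <;> linarith

/-! ### symbol identities -/

lemma sk_x {k : ℝ} : (sk k : ℂ) = ((Complex.exp (l * k)) ^ 4 - ((Complex.exp (l * k)) ^ 4)⁻¹) / 2 := by
  unfold sk
  rw [show Real.pi / 2 * k = 4 * (l * k) by unfold l; ring, Complex.ofReal_sinh, Complex.sinh,
    ← Complex.exp_nat_mul, ← Complex.exp_neg]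
  push_cast
  rfl

lemma s3_x {k : ℝ} : ((Real.sinh (3 * l * k) : ℝ) : ℂ) =
    ((Complex.exp (l * k)) ^ 3 - ((Complex.exp (l * k)) ^ 3)⁻¹) / 2 := by
  rw [Complex.ofReal_sinh, Complex.sinh, ← Complex.exp_nat_mul, ← Complex.exp_neg]
  push_cast
  ring_nf

lemma ck1_x {k : ℝ} : ((ck1 k : ℝ) : ℂ) = (Complex.exp (l * k) + (Complex.exp (l * k))⁻¹) / 2 := by
  unfold ck1
  rw [Complex.ofReal_cosh, Complex.cosh, ← Complex.exp_neg]
  push_cast
  rfl

/-- facts on `x = e^{lk}`, `k ≠ 0` -/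
lemma x_facts {k : ℝ} (hk : k ≠ 0) : Complex.exp (l * k) ≠ 0 ∧ (Complex.exp (l * k)) ^ 3 - 1 ≠ 0 ∧
    (Complex.exp (l * k)) ^ 3 + 1 ≠ 0 ∧ (Complex.exp (l * k)) ^ 8 - 1 ≠ 0 ∧ Complex.exp (l * k) - 1 ≠ 0 ∧
    Complex.exp (l * k) + 1 ≠ 0 := by
  have hl := l_pos
  set X := Real.exp (l * k) with hX
  have hx : Complex.exp (l * k) = (X : ℂ) := by rw [hX]; push_cast; rfl
  have hX0 : 0 < X := Real.exp_pos _
  have hX1 : X ≠ 1 := by
    rw [hX, Ne, Real.exp_eq_one_iff]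
    exact mul_ne_zero hl.ne' hk
  rw [hx]
  have hpow : ∀ n : ℕ, n ≠ 0 → X ^ n - 1 ≠ 0 := by
    intro n hn h
    have : X ^ n = 1 := by linarith
    exact hX1 ((pow_eq_one_iff_of_nonneg hX0.le hn).1 this)
  refine ⟨by exact_mod_cast hX0.ne', ?_, ?_, ?_, ?_, ?_⟩
  · exact_mod_cast hpow 3 (by norm_num)
  · have : X ^ 3 + 1 ≠ 0 := by positivity
    exact_mod_cast this
  · exact_mod_cast hpow 8 (by norm_num)
  · have := hpow 1 (by norm_num)
    rw [pow_one] at this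
    exact_mod_cast this
  · have : X + 1 ≠ 0 := by positivity
    exact_mod_cast this

lemma exp_nl (n : ℕ) (v : ℂ) (k : ℝ) : Complex.exp ((n * l - v) * k) =
    Complex.exp (l * k) ^ n * Complex.exp (-(v * k)) := by
  rw [← Complex.exp_nat_mul, ← Complex.exp_add]
  congr 1
  ring

lemma exp_0v (v : ℂ) (k : ℝ) : Complex.exp (-v * k) = Complex.exp (-(v * k)) := by rw [neg_mul]

/-- numerator of `Δ₊'` : `4 e(0) - 2 e(z) - ∑ (e(w) + e(w - 2l) - e(w - l))`, `e(r) = pr (3l - r) (-r)` -/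
def dPs (w w' : ℂ) (k : ℝ) : ℂ := 4 * pr (3 * l - 0) (-0) k - 2 * pr (3 * l - zz w w') (-zz w w') k -
  (pr (3 * l - w) (-w) k + pr (3 * l - (w - 2 * l)) (-(w - 2 * l)) k - pr (3 * l - (w - l)) (-(w - l)) k) -
  (pr (3 * l - w') (-w') k + pr (3 * l - (w' - 2 * l)) (-(w' - 2 * l)) k -
    pr (3 * l - (w' - l)) (-(w' - l)) k)

theorem symP {k : ℝ} (hk : k ≠ 0) :
    Complex.I * k * (-(es (3 * l) cP (aP w w') k * (Uh k : ℂ))) = Complex.I * Real.pi * dPs w w' k := by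
  obtain ⟨x0, x3, x3', x8, x1, x1'⟩ := x_facts hk
  have hk0 : (k : ℂ) ≠ 0 := Complex.ofReal_ne_zero.2 hk
  have hS : (sk k : ℂ) ≠ 0 := by
    rw [sk_x]
    set x := Complex.exp (l * k)
    have : (x ^ 4 - (x ^ 4)⁻¹) / 2 = (x ^ 8 - 1) / (2 * x ^ 4) := by field_simp
    rw [this]
    exact div_ne_zero x8 (mul_ne_zero two_ne_zero (pow_ne_zero _ x0))
  have hU : (Uh k : ℂ) = 2 * Real.pi * (((ck1 k : ℝ) - 1 : ℂ) * (2 * (ck1 k : ℝ) - 1) *
      (2 * (ck1 k : ℝ) + 1) ^ 2 / (k * (sk k : ℂ))) := by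
    unfold Uh
    push_cast
    rfl
  have n1 : ∑ j, cP j * Complex.exp (aP w w' j * k) =
      Complex.exp (l * k) * (Complex.exp (l * k) + 1) * ((-2 + Complex.exp (-(zz w w' * k))) +
        1 / 2 * (Complex.exp (l * k) ^ 2 - Complex.exp (l * k) + 1) *
          (Complex.exp (-(w * k)) + Complex.exp (-(w' * k)))) := by
    have e2 : Complex.exp (2 * l * k) = Complex.exp (l * k) ^ 2 := by
      rw [← Complex.exp_nat_mul]; congr 1; push_cast; ring
    have g2 := exp_nl 2 (zz w w') k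
    have g1 := exp_nl 1 (zz w w') k
    have w4 := exp_nl 4 w k
    have w1 := exp_nl 1 w k
    have v4 := exp_nl 4 w' k
    have v1 := exp_nl 1 w' k
    push_cast at g2 g1 w4 w1 v4 v1
    rw [one_mul] at g1 w1 v1
    rw [Fin.sum_univ_eight]
    change -2 * Complex.exp (2 * l * k) + -2 * Complex.exp (l * k) +
      1 * Complex.exp ((2 * l - zz w w') * k) + 1 * Complex.exp ((l - zz w w') * k) +
      1 / 2 * Complex.exp ((4 * l - w) * k) + 1 / 2 * Complex.exp ((l - w) * k) +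
      1 / 2 * Complex.exp ((4 * l - w') * k) + 1 / 2 * Complex.exp ((l - w') * k) = _
    rw [e2, g2, g1, w4, w1, v4, v1]
    ring
  have n2 : dPs w w' k = (Complex.exp (l * k) ^ 3 - 1) * (4 - 2 * Complex.exp (-(zz w w' * k)) -
      (Complex.exp (l * k) ^ 2 - Complex.exp (l * k) + 1) *
        (Complex.exp (-(w * k)) + Complex.exp (-(w' * k)))) / (sk k : ℂ) := by
    have o3 := exp_nl 3 0 k
    have z3 := exp_nl 3 (zz w w') k
    have w3 := exp_nl 3 w k
    have w5 := exp_nl 5 w k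
    have w2 := exp_nl 2 w k
    have w4 := exp_nl 4 w k
    have w1 := exp_nl 1 w k
    have v3 := exp_nl 3 w' k
    have v5 := exp_nl 5 w' k
    have v2 := exp_nl 2 w' k
    have v4 := exp_nl 4 w' k
    have v1 := exp_nl 1 w' k
    push_cast at o3 z3 w3 w5 w2 w4 w1 v3 v5 v2 v4 v1
    rw [one_mul] at w1 v1
    rw [zero_mul, neg_zero, Complex.exp_zero, mul_one] at o3
    unfold dPs pr
    rw [show (3 * l - (w - 2 * l) : ℂ) = 5 * l - w by ring, show (-(w - 2 * l) : ℂ) = 2 * l - w by ring,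
      show (3 * l - (w - l) : ℂ) = 4 * l - w by ring, show (-(w - l) : ℂ) = l - w by ring,
      show (3 * l - (w' - 2 * l) : ℂ) = 5 * l - w' by ring, show (-(w' - 2 * l) : ℂ) = 2 * l - w' by ring,
      show (3 * l - (w' - l) : ℂ) = 4 * l - w' by ring, show (-(w' - l) : ℂ) = l - w' by ring,
      o3, z3, w3, w5, w2, w4, w1, v3, v5, v2, v4, v1, exp_0v, exp_0v, exp_0v, exp_0v, zero_mul, neg_zero,
      Complex.exp_zero]
    ring
  unfold es
  rw [n1, n2, hU, s3_x, ck1_x]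
  generalize hSd : (sk k : ℂ) = S at hS
  generalize Complex.exp (-(zz w w' * k)) = Z
  generalize Complex.exp (-(w * k)) = W
  generalize Complex.exp (-(w' * k)) = W'
  generalize Complex.exp (l * k) = x at x0 x3 x3' x8 x1 x1'
  have hx6 : (x ^ 3 - (x ^ 3)⁻¹) / 2 = (x ^ 3 - 1) * (x ^ 3 + 1) / (2 * x ^ 3) := by
    field_simp
    ring
  rw [hx6]
  field_simp
  ring

/-- numerator of `Δ₋'` -/
def dMs (w w' : ℂ) (k : ℝ) : ℂ := -(pr (5 * l - w) (5 * l - w') k - pr (4 * l - w) (4 * l - w') k +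
  pr (3 * l - w) (3 * l - w') k + pr (2 * l - w) (2 * l - w') k - pr (l - w) (l - w') k +
  pr (-w) (-w') k)

theorem symM {k : ℝ} (hk : k ≠ 0) :
    Complex.I * k * (-(es (3 * l) cM (aM w w') k * ((Uh k : ℂ) + 2 * (Lh k : ℂ)))) =
      Complex.I * Real.pi * dMs w w' k := by
  obtain ⟨x0, x3, x3', x8, x1, x1'⟩ := x_facts hk
  have hk0 : (k : ℂ) ≠ 0 := Complex.ofReal_ne_zero.2 hk
  have hS : (sk k : ℂ) ≠ 0 := by
    rw [sk_x]
    set x := Complex.exp (l * k)
    have : (x ^ 4 - (x ^ 4)⁻¹) / 2 = (x ^ 8 - 1) / (2 * x ^ 4) := by field_simp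
    rw [this]
    exact div_ne_zero x8 (mul_ne_zero two_ne_zero (pow_ne_zero _ x0))
  have hU : (Uh k : ℂ) = 2 * Real.pi * (((ck1 k : ℝ) - 1 : ℂ) * (2 * (ck1 k : ℝ) - 1) *
      (2 * (ck1 k : ℝ) + 1) ^ 2 / (k * (sk k : ℂ))) := by
    unfold Uh
    push_cast
    rfl
  have hL : (Lh k : ℂ) = 2 * Real.pi * ((2 * (ck1 k : ℝ) - 1 : ℂ) / (k * (sk k : ℂ))) := by
    unfold Lh
    push_cast
    rfl
  have n1 : ∑ j, cM j * Complex.exp (aM w w' j * k) =
      1 / 2 * (Complex.exp (l * k) ^ 4 - Complex.exp (l * k)) *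
          (Complex.exp (-(w * k)) - Complex.exp (-(w' * k))) := by
    have w4 := exp_nl 4 w k
    have w1 := exp_nl 1 w k
    have v4 := exp_nl 4 w' k
    have v1 := exp_nl 1 w' k
    push_cast at w4 w1 v4 v1
    rw [one_mul] at w1 v1
    rw [Fin.sum_univ_four]
    change 1 / 2 * Complex.exp ((4 * l - w) * k) + -1 / 2 * Complex.exp ((l - w) * k) +
      -1 / 2 * Complex.exp ((4 * l - w') * k) + 1 / 2 * Complex.exp ((l - w') * k) = _
    rw [w4, w1, v4, v1]
    ring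
  have n2 : dMs w w' k = -((Complex.exp (l * k) ^ 2 - Complex.exp (l * k) + 1) *
      (Complex.exp (l * k) ^ 3 + 1) *
        (Complex.exp (-(w * k)) - Complex.exp (-(w' * k)))) / (sk k : ℂ) := by
    have w5 := exp_nl 5 w k
    have w3 := exp_nl 3 w k
    have w2 := exp_nl 2 w k
    have w4 := exp_nl 4 w k
    have w1 := exp_nl 1 w k
    have v3 := exp_nl 3 w' k
    have v5 := exp_nl 5 w' k
    have v2 := exp_nl 2 w' k
    have v4 := exp_nl 4 w' k
    have v1 := exp_nl 1 w' k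
    push_cast at w3 w5 w2 w4 w1 v3 v5 v2 v4 v1
    rw [one_mul] at w1 v1
    unfold dMs pr
    rw [w3, w5, w2, w4, w1, v3, v5, v2, v4, v1, exp_0v, exp_0v]
    ring
  unfold es
  rw [n1, n2, hU, hL, s3_x, ck1_x]
  generalize hSd : (sk k : ℂ) = S at hS
  generalize Complex.exp (-(w * k)) = W
  generalize Complex.exp (-(w' * k)) = W'
  generalize Complex.exp (l * k) = x at x0 x3 x3' x8 x1 x1'
  have hx6 : (x ^ 3 - (x ^ 3)⁻¹) / 2 = (x ^ 3 - 1) * (x ^ 3 + 1) / (2 * x ^ 3) := by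
    field_simp
    ring
  rw [hx6]
  field_simp
  ring

/-! ### the potentials -/

/-- `e(r)(t) = (log Θ_r)' = i [tan (3l - r + it) - tan (-r + it)]` -/
def eT (r t : ℂ) : ℂ := Complex.I * (Complex.tan (3 * l - r + Complex.I * t) - Complex.tan (-r + Complex.I * t))

/-- `Δ₊'` -/
def dP (w w' t : ℂ) : ℂ := 4 * eT 0 t - 2 * eT (zz w w') t - (eT w t + eT (w - 2 * l) t - eT (w - l) t) -
  (eT w' t + eT (w' - 2 * l) t - eT (w' - l) t)

/-- `i [tan (a + it) - tan (b + it)]` -/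
def pT (a b t : ℂ) : ℂ := Complex.I * (Complex.tan (a + Complex.I * t) - Complex.tan (b + Complex.I * t))

/-- `Δ₋'` -/
def dM (w w' t : ℂ) : ℂ := -(pT (5 * l - w) (5 * l - w') t - pT (4 * l - w) (4 * l - w') t +
  pT (3 * l - w) (3 * l - w') t + pT (2 * l - w) (2 * l - w') t - pT (l - w) (l - w') t +
  pT (-w) (-w') t)

lemma four_l : 4 * l = Real.pi / 2 := by unfold l; ring

lemma ift_prT {a b : ℂ} (ha : |a.re| < 4 * l) (hb : |b.re| < 4 * l) (t : ℝ) :
    Complex.I * Real.pi * ift (pr a b) t = pT a b t := by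
  rw [four_l] at ha hb
  rw [ift_pr ha hb]
  have hp : (Real.pi : ℂ) ≠ 0 := Complex.ofReal_ne_zero.2 Real.pi_ne_zero
  unfold pT
  push_cast
  field_simp

lemma ift_sub {m n : ℝ → ℂ} (hm : Integrable m) (hn : Integrable n) (t : ℝ) :
    ift (fun k => m k - n k) t = ift m t - ift n t := by
  unfold ift
  simp_rw [sub_mul]
  rw [integral_sub (mul_e_int hm t) (mul_e_int hn t), mul_sub]

lemma ift_neg (m : ℝ → ℂ) (t : ℝ) : ift (fun k => -m k) t = -ift m t := by
  have := ift_const (-1) m t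
  simpa using this

/-- Riemann-Lebesgue -/
lemma ift_zero (m : ℝ → ℂ) : Tendsto (ift m) (cocompact ℝ) (𝓝 0) := by
  have h1 := Real.tendsto_integral_exp_smul_cocompact m
  have h2 : Tendsto (fun t : ℝ => -(1 / (2 * Real.pi)) * t) (cocompact ℝ) (cocompact ℝ) := by
    have : (-(1 / (2 * Real.pi)) : ℝ) ≠ 0 := by
      have := Real.pi_pos
      exact neg_ne_zero.2 (by positivity)
    exact (Homeomorph.mulLeft₀ _ this).isClosedEmbedding.tendsto_cocompact
  have h3 := (h1.comp h2).const_mul ((1 / (2 * Real.pi) : ℝ) : ℂ)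
  rw [mul_zero] at h3
  refine h3.congr fun t => ?_
  unfold ift
  congr 1
  simp only [Function.comp]
  refine integral_congr_ae (Eventually.of_forall fun k => ?_)
  simp only
  rw [Circle.smul_def, Real.fourierChar_apply, smul_eq_mul, mul_comm]
  congr 2
  have hp : (Real.pi : ℂ) ≠ 0 := Complex.ofReal_ne_zero.2 Real.pi_ne_zero
  push_cast
  field_simp

end

end PBT3
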