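import Pool.Agent.PB.TRDel
import Pool.Agent.PB.TrG3

/-!
# Plan B, (TR): `DelB` on the line `Re u = l` and the functions `dP`, `dM` of PB/TrG3

With `z = zz w w' = l - (w + w') / 2`: `d/dt DelB b (l + i t) = (dP w w' t ± dM w w' t) / 2`
(`+` for `b = true`), `t` complex.
-/

set_option autoImplicit false

open MeasureTheory Set Filter Topology Complex

namespace PBTD

open NUMF PBT3 Pool.Agent.PB

noncomputable section

lemma ct_add (x : ℂ) : ct x = -Complex.tan (x - 4 * l) := by
  have h := eight_lC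
  unfold ct Complex.tan
  rw [show x - 4 * (l : ℂ) = x - Real.pi / 2 by rw [← h]; ring, Complex.sin_sub_pi_div_two,
    Complex.cos_sub_pi_div_two, neg_div, neg_neg]

lemma ct_sub (x : ℂ) : ct x = Complex.tan (4 * l - x) := by
  rw [ct_add, ← Complex.tan_neg, neg_sub]

theorem DelQ'_line (w w' t : ℂ) : I * DelQ' w w' (zz w w') (l + I * t) =
    (dP w w' t + dM w w' t) / 2 := by
  unfold DelQ' dP dM eT pT
  rw [ct_add (3 * l + (l + I * t)), ct_sub (2 * l - (l + I * t)), ct_sub (w - (l + I * t)),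
    ct_sub (w + 2 * l - (l + I * t)), ct_sub (w + l - (l + I * t)),
    ct_sub (w' + 4 * l - (l + I * t)), ct_add (3 * l - w' + (l + I * t)),
    ct_sub (3 * l + w' - (l + I * t)), ct_sub (zz w w' + 5 * l - (l + I * t)),
    ct_sub (zz w w' + 2 * l - (l + I * t))]
  rw [show 3 * (l : ℂ) + (l + I * t) - 4 * l = -0 + I * t by ring,
    show 4 * (l : ℂ) - (2 * l - (l + I * t)) = 3 * l - 0 + I * t by ring,
    show 4 * (l : ℂ) - (w - (l + I * t)) = 5 * l - w + I * t by ring,
    show 4 * (l : ℂ) - (w + 2 * l - (l + I * t)) = 3 * l - w + I * t by ring,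
    show 4 * (l : ℂ) - (w + l - (l + I * t)) = 4 * l - w + I * t by ring,
    show 4 * (l : ℂ) - (w' + 4 * l - (l + I * t)) = l - w' + I * t by ring,
    show 3 * (l : ℂ) - w' + (l + I * t) - 4 * l = -w' + I * t by ring,
    show 4 * (l : ℂ) - (3 * l + w' - (l + I * t)) = 2 * l - w' + I * t by ring,
    show 4 * (l : ℂ) - (zz w w' + 5 * l - (l + I * t)) = -zz w w' + I * t by ring,
    show 4 * (l : ℂ) - (zz w w' + 2 * l - (l + I * t)) = 3 * l - zz w w' + I * t by ring,
    show 3 * (l : ℂ) - (w - 2 * l) + I * t = 5 * l - w + I * t by ring,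
    show -(w - 2 * (l : ℂ)) + I * t = 2 * l - w + I * t by ring,
    show 3 * (l : ℂ) - (w - l) + I * t = 4 * l - w + I * t by ring,
    show -(w - (l : ℂ)) + I * t = l - w + I * t by ring,
    show 3 * (l : ℂ) - (w' - 2 * l) + I * t = 5 * l - w' + I * t by ring,
    show -(w' - 2 * (l : ℂ)) + I * t = 2 * l - w' + I * t by ring,
    show 3 * (l : ℂ) - (w' - l) + I * t = 4 * l - w' + I * t by ring,
    show -(w' - (l : ℂ)) + I * t = l - w' + I * t by ring]
  ring

lemma zz_comm (w w' : ℂ) : zz w w' = zz w' w := by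
  unfold zz
  ring

lemma dP_comm (w w' t : ℂ) : dP w' w t = dP w w' t := by
  unfold dP
  rw [zz_comm w' w]
  ring

lemma dM_comm (w w' t : ℂ) : dM w' w t = -dM w w' t := by
  unfold dM pT
  ring

/-- **the derivative along the line, both species** -/
theorem DelB'_line (w w' t : ℂ) (b : Bool) : I * DelB' w w' (zz w w') b (l + I * t) =
    (dP w w' t + sb b * dM w w' t) / 2 := by
  unfold DelB' sb
  cases b
  · simp only [Bool.false_eq_true, if_false]
    rw [zz_comm, DelQ'_line, dP_comm, dM_comm]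
    push_cast
    ring
  · simp only [if_true]
    rw [DelQ'_line]
    push_cast
    ring

/-- **`DelB` on the line `Re = l`** (complex `t`) -/
theorem hasDerivAt_DelB_line {w w' t : ℂ} (hw : w.re = 5 / 4 * l) (hw' : w'.re = 5 / 4 * l)
    (ht : l - t.im ∈ KA) (b : Bool) : HasDerivAt (fun t => DelB w w' (zz w w') b (l + I * t))
    ((dP w w' t + sb b * dM w w' t) / 2) t := by
  have hz : (zz w w').re = -(1 / 4 * l) := by
    rw [zz_re, hw, hw']
    ring
  obtain ⟨C, -, h⟩ := DelB_lim
  set M := max |w.im| (max |w'.im| |(zz w w').im|)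
  have h1 := (h w w' (zz w w') M hw hw' hz (le_max_left _ _)
    ((le_max_left _ _).trans (le_max_right _ _)) ((le_max_right _ _).trans (le_max_right _ _)) b
    (l + I * t) (by simpa [← sub_eq_add_neg] using ht)).1
  have h2 : HasDerivAt (fun t : ℂ => (l : ℂ) + I * t) I t := by
    simpa using ((hasDerivAt_id t).const_mul I).const_add (l : ℂ)
  have h3 := h1.comp t h2
  rw [mul_comm, DelB'_line] at h3
  exact h3

end

end PBTD
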