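import Pool.Agent.PB.TRsC

/-!
# Plan B, (TR): the arithmetic of the error on the s-path (helper55)

`E_le`: the sum of the two constants of the error is at most `k ^ e * Er k M`.
-/

set_option autoImplicit false

open Filter

namespace PBTV

theorem log_growth {A a : ℝ} (ha : 0 < a) : ∀ᶠ k : ℕ in atTop,
    A * (1 + 5 * Real.log k) ^ 2 ≤ (k : ℝ) ^ a := by
  set D := 1 + 20 / a with hD
  have hD0 : 0 < D := by positivity
  have h1 : Tendsto (fun k : ℕ => (k : ℝ) ^ (a / 2)) atTop atTop :=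
    (tendsto_rpow_atTop (by positivity)).comp tendsto_natCast_atTop_atTop
  filter_upwards [h1.eventually_ge_atTop (|A| * D ^ 2), eventually_ge_atTop 1] with k hk hk1
  have hk0 : (1 : ℝ) ≤ k := by exact_mod_cast hk1
  have hkp : (0 : ℝ) < k := by linarith
  have h2 : Real.log k ≤ (k : ℝ) ^ (a / 4) / (a / 4) := Real.log_le_rpow_div hkp.le (by positivity)
  have h3 : 0 ≤ Real.log k := Real.log_nonneg hk0
  have h4 : 1 ≤ (k : ℝ) ^ (a / 4) := Real.one_le_rpow hk0 (by positivity)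
  have h5 : 1 + 5 * Real.log k ≤ D * (k : ℝ) ^ (a / 4) := by
    have e : (k : ℝ) ^ (a / 4) / (a / 4) * 5 = 20 / a * (k : ℝ) ^ (a / 4) := by
      field_simp
      norm_num
    calc 1 + 5 * Real.log k ≤ (k : ℝ) ^ (a / 4) + (k : ℝ) ^ (a / 4) / (a / 4) * 5 := by linarith
      _ = D * (k : ℝ) ^ (a / 4) := by rw [e, hD]; ring
  have h6 : (1 + 5 * Real.log k) ^ 2 ≤ D ^ 2 * (k : ℝ) ^ (a / 2) := by
    calc (1 + 5 * Real.log k) ^ 2 ≤ (D * (k : ℝ) ^ (a / 4)) ^ 2 :=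
          pow_le_pow_left₀ (by linarith) h5 2
      _ = D ^ 2 * ((k : ℝ) ^ (a / 4) * (k : ℝ) ^ (a / 4)) := by ring
      _ = D ^ 2 * (k : ℝ) ^ (a / 2) := by
          rw [← Real.rpow_add hkp]
          congr 2
          ring
  calc A * (1 + 5 * Real.log k) ^ 2 ≤ |A| * (D ^ 2 * (k : ℝ) ^ (a / 2)) :=
        (mul_le_mul_of_nonneg_right (le_abs_self A) (sq_nonneg _)).trans
          (mul_le_mul_of_nonneg_left h6 (abs_nonneg A))
    _ = (|A| * D ^ 2) * (k : ℝ) ^ (a / 2) := by ring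
    _ ≤ (k : ℝ) ^ (a / 2) * (k : ℝ) ^ (a / 2) :=
        mul_le_mul_of_nonneg_right hk (Real.rpow_nonneg hkp.le _)
    _ = (k : ℝ) ^ a := by
        rw [← Real.rpow_add hkp]
        congr 1
        ring

/-- the first constant: objects, constants, linear statistic -/
noncomputable def E1v (C e1 ε k M : ℝ) : ℝ :=
  (C * (1 + M) ^ 2 * Real.exp (2 * M) * (3 * k ^ (-(3 / 4 * (1 - 4 * e1)))) +
    C * (Real.exp (8 / 3 * M) / k) * (1 + Real.log k) * 3) * k ^ ε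

/-- the second constant: quadratic statistic -/
noncomputable def E2v (C ε k M : ℝ) : ℝ :=
  C * (Real.exp (8 / 3 * M) / k) * (1 + 5 * Real.log k) * k ^ ε

theorem E_le {C C' e e1 ε : ℝ} (hC : 0 ≤ C) (hC' : 0 ≤ C') (he1 : 0 ≤ e1) (h : ε + 3 * e1 < e) :
    ∀ᶠ k : ℕ in atTop, ∀ M : ℝ, 0 ≤ M → M ≤ Real.log k →
      E1v C e1 ε k M + E2v C' ε k M ≤ (k : ℝ) ^ e * PBTs.Er k M := by
  have ha : 0 < e - (ε + 3 * e1) := by linarith
  filter_upwards [log_growth (A := 3 * C + C') ha, eventually_ge_atTop 1] with k hk hk1 M hM0 hM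
  have hk0 : (1 : ℝ) ≤ k := by exact_mod_cast hk1
  have hkp : (0 : ℝ) < k := by linarith
  have hl : 0 ≤ Real.log k := Real.log_nonneg hk0
  set l := Real.log k with hl'
  set g := (1 + 5 * l) ^ 2 with hg
  have g1 : (1 + M) ^ 2 ≤ g := pow_le_pow_left₀ (by linarith) (by linarith) 2
  have g2 : 1 + l ≤ g := by rw [hg]; nlinarith
  have g3 : 1 + 5 * l ≤ g := by rw [hg]; nlinarith
  have g0 : 0 ≤ g := sq_nonneg _
  set a := (k : ℝ) ^ (-(3 / 4) : ℝ) * Real.exp (2 * M) with haa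
  set c := (k : ℝ) ^ (-1 : ℝ) * Real.exp (8 / 3 * M) with hcc
  have ha0 : 0 ≤ a := by positivity
  have hc0 : 0 ≤ c := by positivity
  have hEr : a + c ≤ PBTs.Er k M := by
    unfold PBTs.Er
    have : 0 ≤ (k : ℝ) ^ (-(87 / 100) : ℝ) * Real.exp (5 / 2 * M) := by positivity
    linarith
  have e1' : (k : ℝ) ^ (-(3 / 4 * (1 - 4 * e1))) = (k : ℝ) ^ (-(3 / 4) : ℝ) * (k : ℝ) ^ (3 * e1) := by
    rw [← Real.rpow_add hkp]
    congr 1
    ring
  have e2' : Real.exp (8 / 3 * M) / k = c := by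
    rw [hcc, Real.rpow_neg_one]
    field_simp
  have hke : (k : ℝ) ^ (3 * e1) * (k : ℝ) ^ ε * (k : ℝ) ^ (e - (ε + 3 * e1)) = (k : ℝ) ^ e := by
    rw [← Real.rpow_add hkp, ← Real.rpow_add hkp]
    congr 1
    ring
  have hke1 : 1 ≤ (k : ℝ) ^ (3 * e1) := Real.one_le_rpow hk0 (by positivity)
  have hkε : 0 < (k : ℝ) ^ ε := Real.rpow_pos_of_pos hkp _
  set u := (k : ℝ) ^ (3 * e1) with hu
  set v := (k : ℝ) ^ ε with hv
  have p1 : E1v C e1 ε k M ≤ 3 * C * g * (u * v) * a + 3 * C * g * (u * v) * c := by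
    unfold E1v
    rw [e1', e2']
    have q1 : C * (1 + M) ^ 2 * Real.exp (2 * M) * (3 * ((k : ℝ) ^ (-(3 / 4) : ℝ) * u)) * v =
        3 * C * (1 + M) ^ 2 * (u * v) * a := by rw [haa]; ring
    have q2 : C * c * (1 + l) * 3 * v = 3 * C * (1 + l) * (1 * v) * c := by ring
    rw [add_mul, q1, q2]
    gcongr
  have p2 : E2v C' ε k M ≤ C' * g * (u * v) * c := by
    unfold E2v
    rw [e2']
    have q2 : C' * c * (1 + 5 * l) * v = C' * (1 + 5 * l) * (1 * v) * c := by ring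
    rw [q2]
    gcongr
  calc E1v C e1 ε k M + E2v C' ε k M
      ≤ 3 * C * g * (u * v) * a + 3 * C * g * (u * v) * c + C' * g * (u * v) * c := by linarith
    _ ≤ ((3 * C + C') * g) * (u * v) * (a + c) := by
        have : 0 ≤ C' * g * (u * v) * a := by positivity
        nlinarith
    _ ≤ (k : ℝ) ^ (e - (ε + 3 * e1)) * (u * v) * (a + c) := by gcongr
    _ = (k : ℝ) ^ e * (a + c) := by rw [← hke]; ring
    _ ≤ (k : ℝ) ^ e * PBTs.Er k M := mul_le_mul_of_nonneg_left hEr (Real.rpow_nonneg hkp.le _)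

end PBTV
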