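import Pool.Agent.PB.TRsV
import Pool.Agent.PB.QRepU
import Pool.Agent.PB.TRsFa

/-!
# Plan B, (TR): the error on the s-path and (H3) (helper55)

* `MeanP`, `PathP`, `ErrP`: the outputs of `TRsN` (helper39) and `TRsG` (helper80) as propositions;
* `xbd_v`: the field is admissible for the quadratic term;
* `lin_bd`, `quad_bd`: the two parts of the error under `UB`;
* `hE_v`: `‖nF' - (s q + p) nF‖ ≤ k^e Er (e^{|τ₁+τ₂|})^{1-s} (e^{-mT} / |k1|)^s`;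
* **`h3_v`**: the conclusion (H3) between the two ends of the path.
-/

set_option autoImplicit false
set_option linter.unusedSectionVars false

noncomputable section

open Complex MeasureTheory Finset Filter
open scoped ENNReal

namespace PBTV

open NUO NUP1 NUP1S NUP1S.Ab NUP1S.AbC NUGC PBFunc PBF PBU PBP

/-! ### the field -/

theorem meas_BB {ι : Type*} [Fintype ι] (κ : ℝ) (c a : ι → ℂ) : Measurable (PBT3.BB κ c a) := by
  unfold PBT3.BB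
  refine measurable_const.mul (Finset.measurable_fun_sum _ fun j _ => measurable_const.mul ?_)
  refine Complex.measurable_log.comp (Complex.continuous_cos.measurable.comp ?_)
  exact measurable_const.mul (measurable_const.add (measurable_const.mul measurable_id))

theorem meas_be (w w' : ℂ) (b : Bool) : Measurable (PBT3.be w w' b) := by
  unfold PBT3.be
  exact measurable_const.mul ((meas_BB _ _ _).add (measurable_const.mul (meas_BB _ _ _)))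

theorem G5_v (τ : ℝ × ℝ) : PBT3.G5 (wa τ) (wb τ) := ⟨PBT3.wt_re _, PBT3.wt_re _⟩

theorem MM_v (τ : ℝ × ℝ) : PBT3.MM (wa τ) (wb τ) = Mv τ := by
  unfold PBT3.MM Mv wa wb
  rw [PBT3.wt_im, PBT3.wt_im]

theorem MvF_nonneg (τ : ℝ × ℝ) : 0 ≤ Mv τ := (abs_nonneg _).trans (le_max_left _ _)

theorem Szv_pos {k : ℕ} (hk : 1 ≤ k) (τ : ℝ × ℝ) : 0 < Szv k τ := by
  have : (0 : ℝ) < k := by exact_mod_cast hk
  unfold Szv
  positivity

theorem mn_le_WL {L : ℝ} (x : ℝ) : PBTs.mn L x ≤ PB.WL L x := by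
  unfold PBTs.mn PB.WL
  rcases le_total 0 (L - |x|) with h | h
  · rw [min_eq_left (Real.one_le_exp h), min_eq_left (Real.one_le_exp (by linarith))]
  · refine min_le_min le_rfl (Real.exp_le_exp.2 (by linarith))

theorem meas_Pc : Measurable NUMF.Pc := by
  unfold NUMF.Pc
  fun_prop

theorem meas_rv (k : ℕ) : Measurable (rv k) := by
  unfold rv PBTs.seaT
  exact meas_Pc.const_mul _

theorem meas_Xv (k : ℕ) (τ : ℝ × ℝ) (b : Bool) : Measurable (Xv k τ b) := by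
  unfold Xv PBTs.fldT
  exact (meas_be _ _ _).div ((meas_rv k).add_const _)

theorem strip_v {z : ℂ} (hz : |z.im| < NUMF.l / 5) : z ∈ PBT3.St := by
  have hl := NUMF.l_pos
  have h := abs_lt.1 hz
  refine ⟨?_, ?_⟩
  · show -(NUMF.l / 4) < z.im
    linarith [h.1]
  · show z.im < 11 / 4 * NUMF.l
    linarith [h.2]

/-- size of the field of `be` -/
theorem be_v : ∃ C : ℝ, 0 ≤ C ∧ ∀ (τ : ℝ × ℝ) (b : Bool) (z : ℂ), |z.im| < NUMF.l / 5 →
    ‖PBT3.be (wa τ) (wb τ) b z‖ ≤ C * Real.exp (8 / 3 * Mv τ) * Real.exp (-(8 / 3 * |z.re|)) := by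
  have hl := NUMF.l_pos
  have h1 : -(NUMF.l / 4) < -(NUMF.l / 5) := by linarith
  have h2 : NUMF.l / 5 < 11 / 4 * NUMF.l := by linarith
  refine ⟨PBT3.Cst (-(NUMF.l / 5)) (NUMF.l / 5), PBT3.Cst_nonneg h1 h2 (by linarith),
    fun τ b z hz => ?_⟩
  have h := abs_lt.1 hz
  have h3 := PBT3.be_le (G5_v τ) b (y1 := -(NUMF.l / 5)) (y2 := NUMF.l / 5) h1 h2 (t := z)
    (by linarith [h.1]) (by linarith [h.2])
  rw [PBT3.exp_split, MM_v] at h3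
  rw [mul_assoc]
  exact h3

/-- **the field is admissible for the quadratic term** -/
theorem xbd_v : ∃ C : ℝ, 1 ≤ C ∧ ∀ k : ℕ, 2 ≤ k → ∀ τ : ℝ × ℝ,
    PB.XBd (NUMF.l / 5) (C * Szv k τ) (5 * Real.log k) (Xv k τ) := by
  have hl := NUMF.l_pos
  obtain ⟨C0, hC0, hb⟩ := be_v
  obtain ⟨C1, hC1, H⟩ := PBTs.fld_min (b1 := NUMF.l / 5) (by linarith) (by linarith)
  refine ⟨max 1 (C1 * (2 * C0)), le_max_left _ _, fun k hk τ => ?_⟩
  have hk1 : (2 : ℝ) ≤ k := by exact_mod_cast hk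
  have hk0 : (0 : ℝ) < k := by linarith
  have hn : nk k = (k : ℝ) - 1 := by
    unfold nk
    rw [Nat.cast_sub (by omega), Nat.cast_one]
  have hn0 : 0 < nk k := by rw [hn]; linarith
  have hq0 : 0 < qk k := by
    unfold qk
    positivity
  have hL : 0 ≤ Real.log k := Real.log_nonneg (by linarith)
  set B := C0 * Real.exp (8 / 3 * Mv τ) with hB
  have hB0 : 0 ≤ B := mul_nonneg hC0 (Real.exp_pos _).le
  have hnq : nk k / qk k ≤ Real.exp (8 / 3 * (5 * Real.log k)) := by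
    have e1 : Real.exp (8 / 3 * (5 * Real.log k)) = (k : ℝ) ^ (40 / 3 : ℝ) := by
      rw [Real.rpow_def_of_pos hk0]
      congr 1
      ring
    have e2 : nk k / qk k ≤ (k : ℝ) ^ (11 : ℕ) := by
      unfold qk
      rw [div_inv_eq_mul, hn]
      have : (k : ℝ) ^ (11 : ℕ) = k * (k : ℝ) ^ (10 : ℕ) := by ring
      rw [this]
      exact mul_le_mul_of_nonneg_right (by linarith) (by positivity)
    rw [e1]
    refine e2.trans ?_
    rw [← Real.rpow_natCast]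
    exact Real.rpow_le_rpow_of_exponent_le (by linarith) (by norm_num)
  refine ⟨meas_Xv k τ, fun b z hz => ?_, fun b z hz => ?_⟩
  · exact PBTs.fldT_d (b1 := NUMF.l / 5) (by linarith) (by linarith) hn0.le hq0
      (fun b z hz => (PBT3.be_hd (G5_v τ) b (strip_v hz)).differentiableAt) b z hz
  · have h1 := H (nk k) (qk k) (5 * Real.log k) B hn0 hq0 (by linarith) hnq hB0
      (PBT3.be (wa τ) (wb τ)) (fun b z hz => hb τ b z hz) b z hz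
    refine h1.trans ?_
    have h2 : C1 * (B / nk k) ≤ max 1 (C1 * (2 * C0)) * Szv k τ := by
      have e3 : B / nk k ≤ 2 * C0 * Szv k τ := by
        unfold Szv
        rw [hB, hn, div_le_iff₀ (by linarith)]
        have e4 : 2 * C0 * (Real.exp (8 / 3 * Mv τ) / k) * (k - 1) =
            C0 * Real.exp (8 / 3 * Mv τ) * (2 * (k - 1) / k) := by ring
        rw [e4]
        refine le_mul_of_one_le_right hB0 ?_
        rw [le_div_iff₀ hk0]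
        linarith
      calc C1 * (B / nk k) ≤ C1 * (2 * C0 * Szv k τ) :=
            mul_le_mul_of_nonneg_left e3 (by linarith)
        _ = (C1 * (2 * C0)) * Szv k τ := by ring
        _ ≤ _ := mul_le_mul_of_nonneg_right (le_max_right _ _) (Szv_pos (by omega) τ).le
    exact mul_le_mul h2 (mn_le_WL z.re) (PBTs.mn_nonneg _ _)
      (mul_nonneg (by positivity) (Szv_pos (by omega) τ).le)

/-! ### the inputs -/

attribute [local instance] NUSea.seaP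

/-- output of `TRsN`: the hypotheses of the mean statement -/
def MeanP (ep e1 J : ℝ) : Prop := ∃ k0 : ℕ, ∀ k ≥ k0, ∀ (τ : ℝ × ℝ) (s : ℂ), ∃ κ : ℝ,
  MeanH (Zv ep k τ) (Dv τ) (NUSea.O.par0 k) (cr e1 J k) (cr' e1 J k) s (ep / 4) κ (NUP1.l / 5)
    (rv k) (Xv k τ) (LZv ep k τ) (D1v τ) (Ev k τ) (lgv ep k τ) (LPv k) (kov k)

/-- output of `TRsN`: the path -/
def PathP (ep e1 J : ℝ) : Prop := ∃ k0 : ℕ, ∀ k ≥ k0, ∀ τ : ℝ × ℝ, okv k τ →
  ∃ B : ℝ, PathD (fun _ => Zv ep k τ) (fun _ => Dv τ) (fun _ => NUSea.O.par0 k) (2 * (k - 1))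
    (fun _ => cr e1 J k) (fun _ => cr' e1 J k) B

/-- integrability of the family, from the bound of the mass -/
theorem wiF_v {ep e1 J : ℝ} {p : ℕ} {K ε : ℝ} (h : UB famV ep e1 J p K ε) (hK : 1 ≤ K) :
    ∃ k0 : ℕ, ∀ k ≥ k0, ∀ τ : ℝ × ℝ, okv k τ →
      MC (famV.Z ep k τ) (NUSea.O.par0 k) (cr e1 J k) (cr' e1 J k) →
      WI (mN (2 * (k - 1))) (wN (fun _ => Zv ep k τ) (fun _ => NUSea.O.par0 k) (2 * (k - 1))
        (fun _ => cr e1 J k) (fun _ => cr' e1 J k) (fun _ => Pv k τ)) (fun _ => 1) := by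
  obtain ⟨k0, h0⟩ := UB.mass h hK
  refine ⟨k0, fun k hk τ ho hmc => ?_⟩
  have key := WI_wF (F := famV) (i := τ) (e1 := e1) (J := J) (ep := ep) (m := k)
    hmc (Ψ := fun _ _ _ _ _ _ => 1) (fun n _ => MIn.one)
    (φ := fun _ _ _ _ _ => 1) (fun n _ r O a b x => by simp)
    ((h0 k hk τ ho).trans_lt ENNReal.ofReal_lt_top)
  exact key

/-- output of `TRsG`: objects and constants -/
def G1P (ep C : ℝ) (k : ℕ) (τ : ℝ × ℝ) (s : ℝ) : Prop := ∀ (r : ℕ) (O : Fin r → Xo),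
  ‖stO (Dv τ) (NUSea.O.par0 k) O +
      ∑ b, (∫ t : ℝ, rv k t * fMH s (Xv k τ) (D1v τ) (lgv ep k τ) (kov k) r O b t) -
      s * PBT3.qI (wa τ) (wb τ) - PBT3.pI (wa τ) (wb τ)‖ ≤
    C * (1 + Mv τ) ^ 2 * Real.exp (2 * Mv τ) * ∑ i, Real.exp (-(2 * |ht (O i)|)) +
      C * Szv k τ * (1 + Real.log k) * (r + 1)

/-- output of `TRsG`: the linear statistic -/
def G2P (ep C : ℝ) (k : ℕ) (τ : ℝ × ℝ) (s : ℝ) : Prop := ∀ (r : ℕ) (O : Fin r → Xo) (b : Bool),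
  BC (-(ep / 8)) (ep / 8) (C * Szv k τ * (1 + Real.log k) * (r + 1))
    (fun z => Ev k τ b z + fMH s (Xv k τ) (D1v τ) (lgv ep k τ) (kov k) r O b z)

/-- the error without the quadratic term -/
def ERL (ep e1 J : ℝ) (k : ℕ) (τ : ℝ × ℝ) (s : ℝ) : Ins := fun r O a b x =>
  ERR (Dv τ) (NUSea.O.par0 k) (cr e1 J k) s (PBT3.pI (wa τ) (wb τ)) (PBT3.qI (wa τ) (wb τ)) (rv k)
    (Xv k τ) (D1v τ) (Ev k τ) (lgv ep k τ) (kov k) r O a b x -
  Qst (cr e1 J k) (rv k) (Xv k τ) r O a b x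

/-- the weight of the objects -/
def wv (C : ℝ) (k : ℕ) (τ : ℝ × ℝ) (r : ℕ) (O : Fin r → Xo) : ℝ :=
  C * (1 + Mv τ) ^ 2 * Real.exp (2 * Mv τ) * ∑ i, Real.exp (-(2 * |ht (O i)|)) +
    2 * (C * Szv k τ * (1 + Real.log k)) * (r + 1)

/-- the normed test function -/
def gv (ep C : ℝ) (k : ℕ) (τ : ℝ × ℝ) (s : ℝ) (r : ℕ) (O : Fin r → Xo) (b : Bool) (z : ℂ) : ℂ :=
  (((C * Szv k τ * (1 + Real.log k) * (r + 1) : ℝ) : ℂ)⁻¹) *
    (Ev k τ b z + fMH s (Xv k τ) (D1v τ) (lgv ep k τ) (kov k) r O b z)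

theorem ERR_sub (D : Bool → Option O3 → ℂ → ℂ) (P : NUO.Par) (η : Crs) (s p q : ℂ) (ρ : ℂ → ℂ)
    (X D1 E lg : Bool → ℂ → ℂ) (ko : (r : ℕ) → (Fin r → Xo) → Bool → ℂ → ℂ) (r : ℕ)
    (O : Fin r → Xo) (a b : ℕ) (x : (Fin a → ℝ) × (Fin b → ℝ)) :
    ERR D P η s p q ρ X D1 E lg ko r O a b x - Qst η ρ X r O a b x =
      (stO D P O + ∑ b, (∫ t : ℝ, ρ t * fMH s X D1 lg ko r O b t) - s * q - p) +
      Vst η ρ (fun b z => E b z + fMH s X D1 lg ko r O b z) r O a b x := by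
  unfold ERR
  rw [add_sub_cancel_right]

theorem lin_abs {Sx : NUSea.Sea} {e1 J : ℝ} {k : ℕ} {A : ℂ} {α M : ℝ} (hA : ‖A‖ ≤ α + M)
    (hα : 0 ≤ α) (hM : 0 < M) (ρ : ℂ → ℂ) (g : Bool → ℂ → ℂ) (r : ℕ) (O : Fin r → Xo) (a b : ℕ)
    (x : (Fin a → ℝ) × (Fin b → ℝ)) :
    ‖A + Vst (cr e1 J k) ρ g r O a b x‖ₑ ≤ ENNReal.ofReal (α + 2 * M) *
      nuE (fun t => ρ t) (etaC e1 J k k) (fun z => ((M : ℂ)⁻¹) * g true z)
        (fun z => ((M : ℂ)⁻¹) * g false z) x := by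
  rw [Vst_eq]
  refine (enorm_add_le _ _).trans ?_
  have h3 := enorm_Vy_nuE (e1 := e1) (J := J) (m := k) hM ρ g r O a b x
  have h4 : ‖A‖ₑ ≤ ENNReal.ofReal (α + M) := by
    rw [← ofReal_norm]
    exact ENNReal.ofReal_le_ofReal hA
  have h5 := one_le_nuE (fun t => ρ t) (etaC e1 J k k) (fun z => ((M : ℂ)⁻¹) * g true z)
        (fun z => ((M : ℂ)⁻¹) * g false z) x
  have e2 : α + 2 * M = (α + M) + M := by ring
  rw [e2, ENNReal.ofReal_add (by positivity) hM.le, add_mul]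
  exact add_le_add (h4.trans (le_mul_of_one_le_right' h5)) h3

theorem ERL_le {ep e1 J C : ℝ} {k : ℕ} {τ : ℝ × ℝ} {s : ℝ} (hC : 1 ≤ C) (hk : 1 ≤ k)
    (h1 : G1P ep C k τ s) (r : ℕ) (O : Fin r → Xo) (a b : ℕ)
    (x : (Fin a → ℝ) × (Fin b → ℝ)) :
    ‖ERL ep e1 J k τ s r O a b x‖ₑ ≤ ENNReal.ofReal (wv C k τ r O) *
      nuE (fun t => rv k t) (etaC e1 J k k) (gv ep C k τ s r O true) (gv ep C k τ s r O false) x := by
  have hk1 : (1 : ℝ) ≤ k := by exact_mod_cast hk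
  have hL : 0 ≤ Real.log k := Real.log_nonneg hk1
  have hS := Szv_pos hk τ
  have hr : (0 : ℝ) < (r : ℝ) + 1 := by positivity
  have hM0 : 0 < C * Szv k τ * (1 + Real.log k) * (r + 1) := by positivity
  have hp : 0 ≤ C * (1 + Mv τ) ^ 2 * Real.exp (2 * Mv τ) *
      ∑ i, Real.exp (-(2 * |ht (O i)|)) := by
    have : 0 ≤ ∑ i, Real.exp (-(2 * |ht (O i)|)) := Finset.sum_nonneg fun i _ => (Real.exp_pos _).le
    positivity
  have e2 : wv C k τ r O = C * (1 + Mv τ) ^ 2 * Real.exp (2 * Mv τ) *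
      ∑ i, Real.exp (-(2 * |ht (O i)|)) + 2 * (C * Szv k τ * (1 + Real.log k) * (r + 1)) := by
    unfold wv
    ring
  have e3 : ERL ep e1 J k τ s r O a b x = _ := ERR_sub _ _ _ _ _ _ _ _ _ _ _ _ r O a b x
  rw [e3, e2]
  exact lin_abs (h1 r O) hp hM0 _ _ _ _ _ _ _

theorem OW.add {e1 K B B' : ℝ} {m : ℕ} {w w' : (r : ℕ) → (Fin r → Xo) → ℝ} (h : OW e1 K B m w)
    (h' : OW e1 K B' m w') : OW e1 K (B + B') m fun r O => w r O + w' r O := fun r O => by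
  have h1 := h r O
  have h2 := h' r O
  have e : (B + B') * K ^ r * ∏ j, Real.exp (gT e1 (Real.log m) (ht (O j))) =
      B * K ^ r * ∏ j, Real.exp (gT e1 (Real.log m) (ht (O j))) +
      B' * K ^ r * ∏ j, Real.exp (gT e1 (Real.log m) (ht (O j))) := by ring
  rw [e]
  exact add_le_add h1 h2

/-- the constant of the weight -/
def Bv (C e1 : ℝ) (k : ℕ) (τ : ℝ × ℝ) : ℝ :=
  C * (1 + Mv τ) ^ 2 * Real.exp (2 * Mv τ) * (3 * (k : ℝ) ^ (-(3 / 4 * (1 - 4 * e1)))) +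
    2 * (C * Szv k τ * (1 + Real.log k)) * 3

theorem OW_wv {C e1 : ℝ} (hC : 1 ≤ C) {k : ℕ} (hk : 1 ≤ k) (τ : ℝ × ℝ) :
    OW e1 6 (Bv C e1 k τ) k (wv C k τ) := by
  have hk1 : (1 : ℝ) ≤ k := by exact_mod_cast hk
  have hL : 0 ≤ Real.log k := Real.log_nonneg hk1
  have hS := Szv_pos hk τ
  have h1 := OW.smul (c := C * (1 + Mv τ) ^ 2 * Real.exp (2 * Mv τ)) (by positivity)
    (OW.pin (e1 := e1) (q := 2) (by norm_num) (by norm_num) 0 k)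
  have h2 := OW.smul (c := 2 * (C * Szv k τ * (1 + Real.log k))) (by positivity)
    (OW.mono (K' := 6) (B' := 3) (OW.pow (e1 := e1) 1 k) (by norm_num) (by norm_num)
      (by positivity) (by simp))
  have h3 := OW.add h1 h2
  rw [pinB_two e1 (by positivity)] at h3
  have e1' : C * (1 + Mv τ) ^ 2 * Real.exp (2 * Mv τ) *
      (3 * (Nat.factorial 0 : ℝ) * (k : ℝ) ^ (-(3 / 4 * (1 - 4 * e1)))) +
      2 * (C * Szv k τ * (1 + Real.log k)) * 3 = Bv C e1 k τ := by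
    unfold Bv
    simp
  rw [e1'] at h3
  have e2' : (fun (r : ℕ) (O : Fin r → Xo) => C * (1 + Mv τ) ^ 2 * Real.exp (2 * Mv τ) *
      (((r : ℝ) + 1) ^ 0 * ∑ j, Real.exp (-(2 * |ht (O j)|))) +
      2 * (C * Szv k τ * (1 + Real.log k)) * ((r : ℝ) + 1) ^ 1) = wv C k τ := by
    funext r O
    unfold wv
    rw [pow_zero, one_mul, pow_one]
  rw [e2'] at h3
  exact h3

theorem Bv_nonneg {C e1 : ℝ} (hC : 1 ≤ C) {k : ℕ} (hk : 1 ≤ k) (τ : ℝ × ℝ) : 0 ≤ Bv C e1 k τ := by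
  have hk1 : (1 : ℝ) ≤ k := by exact_mod_cast hk
  have hL : 0 ≤ Real.log k := Real.log_nonneg hk1
  have hS := Szv_pos hk τ
  have : 0 < (k : ℝ) ^ (-(3 / 4 * (1 - 4 * e1))) := Real.rpow_pos_of_pos (by linarith) _
  unfold Bv
  positivity

theorem Bv_E1 {C e1 ε : ℝ} (hC : 1 ≤ C) {k : ℕ} (hk : 1 ≤ k) (τ : ℝ × ℝ) :
    Bv C e1 k τ * (k : ℝ) ^ ε ≤ E1v (2 * C) e1 ε k (Mv τ) := by
  have hk1 : (1 : ℝ) ≤ k := by exact_mod_cast hk
  have hL : 0 ≤ Real.log k := Real.log_nonneg hk1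
  have h1 : 0 < (k : ℝ) ^ ε := Real.rpow_pos_of_pos (by linarith) _
  have h2 : 0 < (k : ℝ) ^ (-(3 / 4 * (1 - 4 * e1))) := Real.rpow_pos_of_pos (by linarith) _
  unfold E1v
  refine mul_le_mul_of_nonneg_right ?_ h1.le
  unfold Bv Szv
  have h3 : 0 ≤ C * (1 + Mv τ) ^ 2 * Real.exp (2 * Mv τ) *
      (3 * (k : ℝ) ^ (-(3 / 4 * (1 - 4 * e1)))) := by positivity
  nlinarith

/-- the mass of one row -/
def CPv : ℝ := ∫ t : ℝ, ‖(NUSea.P t : ℂ)‖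

theorem rv_real (k : ℕ) (t : ℝ) : rv k t = (nk k : ℂ) * (NUSea.P t : ℂ) := by
  have h : NUMF.Pc (t : ℂ) = (NUSea.P t : ℂ) := NUSea.Pc_ofReal t
  unfold rv PBTs.seaT
  rw [h]

theorem DN_v {k : ℕ} (hk : 1 ≤ k) : DN CPv k (fun t : ℝ => rv k t) := by
  have hi : Integrable fun t : ℝ => (NUSea.P t : ℂ) := NUSea.P_int.ofReal
  have hn : nk k = (k : ℝ) - 1 := by
    unfold nk
    rw [Nat.cast_sub hk, Nat.cast_one]
  refine ⟨?_, le_of_eq ?_⟩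
  · simp only [rv_real]
    exact hi.const_mul _
  · unfold CPv
    refine integral_congr_ae (Filter.Eventually.of_forall fun t => ?_)
    simp only [rv_real]
    have e : (nk k : ℂ) * (NUSea.P t : ℂ) - (k : ℂ) * (NUSea.P t : ℂ) = -(NUSea.P t : ℂ) := by
      rw [hn]
      push_cast
      ring
    have e' : ((nk k : ℂ) * (NUSea.P t : ℂ) - ((k : ℝ) : ℂ) * (NUSea.P t : ℂ)) =
        -(NUSea.P t : ℂ) := by
      rw [← e]
      push_cast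
      ring
    rw [← norm_neg (NUSea.P t : ℂ), ← e']

theorem BC_gv {ep C : ℝ} {k : ℕ} {τ : ℝ × ℝ} {s : ℝ} (hC : 1 ≤ C) (hk : 1 ≤ k)
    (h : G2P ep C k τ s) (r : ℕ) (O : Fin r → Xo) (b : Bool) :
    BC (-(ep / 8)) (ep / 8) 1 (gv ep C k τ s r O b) := by
  have hk1 : (1 : ℝ) ≤ k := by exact_mod_cast hk
  have hL : 0 ≤ Real.log k := Real.log_nonneg hk1
  have hS := Szv_pos hk τ
  have hr : (0 : ℝ) < (r : ℝ) + 1 := by positivity
  exact (h r O b).normed (by positivity)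

/-- **the linear part of the error under `UB`** -/
theorem lin_bd {F : Fam (ℝ × ℝ)} {ep e1 J ε C : ℝ} (h : UB F ep e1 J 2 6 ε) (hep : 0 < ep)
    (hC : 1 ≤ C) (hbd : ∀ m i, 0 ≤ F.bd m i) :
    ∃ k0 : ℕ, ∀ k ≥ k0, ∀ τ : ℝ × ℝ, F.ok k τ →
    MC (F.Z ep k τ) (NUSea.O.par0 k) (cr e1 J k) (cr' e1 J k) → ∀ s : ℝ, G1P ep C k τ s →
    G2P ep C k τ s → MIn (ERL ep e1 J k τ s) →
      ∫⁻ x, ‖wF F ep e1 J k τ x‖ₑ * ‖evN (fun _ => ERL ep e1 J k τ s) x‖ₑ ∂(mN (F.top k)) ≤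
        ENNReal.ofReal (E1v (2 * C) e1 ε k (Mv τ) * F.bd k τ) := by
  obtain ⟨m0, h0⟩ := h CPv (-(ep / 8)) (ep / 8) (by linarith) (by linarith)
  refine ⟨max m0 1, fun k hk τ hok hMC s h1 h2 hm => ?_⟩
  have hk1 : 1 ≤ k := (le_max_right _ _).trans hk
  have hkm : m0 ≤ k := (le_max_left _ _).trans hk
  refine (lint_wF hMC (Ψ := fun _ => ERL ep e1 J k τ s) (fun _ _ => hm)
    (φ := fun r O a b x => ENNReal.ofReal (wv C k τ r O) * nuE (fun t => rv k t) (etaC e1 J k k)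
      (gv ep C k τ s r O true) (gv ep C k τ s r O false) x)
    (fun _ _ r O a b x => ERL_le hC hk1 h1 r O a b x)).trans ?_
  have h3 := h0 k hkm τ hok (fun t => rv k t) (DN_v hk1) (Bv C e1 k τ) (Bv_nonneg hC hk1 τ)
    (wv C k τ) (OW_wv hC hk1 τ) (fun r O _ => gv ep C k τ s r O true)
    (fun r O _ => gv ep C k τ s r O false)
    (fun r O _ => ⟨BC_gv hC hk1 h2 r O true, BC_gv hC hk1 h2 r O false⟩)
  refine le_trans (FS_mono (fun _ => le_rfl) fun r O a b x => ?_) (h3.trans ?_)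
  · rw [Fin.prod_univ_two]
    refine mul_le_mul' le_rfl (le_mul_of_one_le_right' (one_le_nuE _ _ _ _ _))
  · refine ENNReal.ofReal_le_ofReal ?_
    exact mul_le_mul_of_nonneg_right (Bv_E1 hC hk1 τ) (hbd k τ)

/-! ### the quadratic part -/

theorem MIn_Qst {δ b1 : ℝ} {η η' : Crs} {ρ : ℂ → ℂ} {X : Bool → ℂ → ℂ}
    (hc : ∀ r O, CrvR δ (η r O) (η' r O)) (h1 : δ ≤ 1 / 20) (b0 : NUP1.l / 20 < b1)
    (hρ : PB.SeaF b1 ρ) (hX : PB.FldF b1 X) (hm : MCr η η') : MIn (Qst η ρ X) := by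
  intro r a b
  have hl := NUP1.Bd.l_pos
  have hb1 : 0 < b1 := by linarith
  have hz := fun k : Fin a ⊕ Fin b => meas_zq hm r k
  have hz' := fun (k : Fin a ⊕ Fin b) (p : (Fin r → Xo) × ((Fin a → ℝ) × (Fin b → ℝ))) =>
    (zc_strip (hc r p.1) h1 (Sum.elim p.2.1 p.2.2 k)).trans_lt b0
  unfold Qst PB.NX.nuQ
  refine (((measurable_const.mul (Finset.measurable_fun_sum _ fun i _ =>
    Finset.measurable_fun_sum _ fun j _ => ?_)).sub
    (Finset.measurable_fun_sum _ fun i _ => ?_)).add measurable_const)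
  · exact meas_aC hX _ _ (hz i) (hz j) (hz' i) (hz' j)
  · exact meas_smr hX hb1 hρ _ (hz i) (hz' i)

theorem YOk_v : PB.YOk (NUMF.l / 10) (3 * NUMF.l / 20) (NUMF.l / 5) := by
  have hl := NUMF.l_pos
  exact ⟨by linarith, by linarith, by linarith, by linarith⟩

/-- **the quadratic part of the error under `UB`** -/
theorem quad_bd {F : Fam (ℝ × ℝ)} {ep e1 J ε : ℝ} (h : UB F ep e1 J 2 6 ε)
    (hbd : ∀ m i, 0 ≤ F.bd m i) :
    ∃ C : ℝ, 0 < C ∧ ∃ k0 : ℕ, ∀ k ≥ k0, ∀ τ : ℝ × ℝ, F.ok k τ →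
    MC (F.Z ep k τ) (NUSea.O.par0 k) (cr e1 J k) (cr' e1 J k) →
    (∀ t, |etaC e1 J k k t| ≤ NUMF.l / 10) →
      ∫⁻ x, ‖wF F ep e1 J k τ x‖ₑ * ‖evN (fun _ => Qst (cr e1 J k) (rv k) (Xv k τ)) x‖ₑ
        ∂(mN (F.top k)) ≤ ENNReal.ofReal (E2v C ε k (Mv τ) * F.bd k τ) := by
  obtain ⟨Cx, hCx, hX⟩ := xbd_v
  have hl := NUMF.l_pos
  obtain ⟨C, hC, m0, h0⟩ := UB.quad h le_rfl (by norm_num) CPv YOk_v (by linarith)
  refine ⟨C * Cx, by positivity, max m0 2, fun k hk τ hok hMC hη => ?_⟩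
  have hk2 : 2 ≤ k := (le_max_right _ _).trans hk
  have hkm : m0 ≤ k := (le_max_left _ _).trans hk
  have hk1 : (1 : ℝ) ≤ k := by exact_mod_cast (by omega : 1 ≤ k)
  have hL : 0 ≤ Real.log k := Real.log_nonneg hk1
  have hS := Szv_pos (by omega : 1 ≤ k) τ
  have h3 := h0 k hkm τ hok hMC hη (hbd k τ) (rv k) (DN_v (by omega))
    ((meas_rv k).comp Complex.measurable_ofReal) (Cx * Szv k τ) (5 * Real.log k) (Xv k τ)
    (by positivity) (by positivity) (hX k hk2 τ)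
  refine h3.trans (le_of_eq ?_)
  congr 1
  unfold E2v Szv
  ring

/-! ### the error on the path -/

/-- derivative of the normalised functional -/
def nFv' (ep e1 J : ℝ) (k : ℕ) (τ : ℝ × ℝ) (s : ℝ) : ℂ :=
  nF' (fun _ => Zv ep k τ) (fun _ => Dv τ) (fun _ => NUSea.O.par0 k) (2 * (k - 1))
    (fun _ => cr e1 J k) (fun _ => cr' e1 J k) (fun _ => Pv k τ) 1 (κv k τ) s

/-- the weight of the right end -/
theorem wF_W {ep e1 J : ℝ} {k : ℕ} {τ : ℝ × ℝ} (x : CfN (2 * (k - 1))) :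
    wF famW ep e1 J k τ x = PBT3.k1T τ * Complex.exp (-κv k τ) *
      wN (expN (fun _ => Zv ep k τ) (fun _ => Dv τ) 1) (fun _ => NUSea.O.par0 k) (2 * (k - 1))
        (fun _ => cr e1 J k) (fun _ => cr' e1 J k) (fun _ => Pv k τ) x := by
  show PBT3.k1T τ * (Complex.exp (-κv k τ) * Pv k τ) * _ = PBT3.k1T τ * Complex.exp (-κv k τ) *
    (Pv k τ * _)
  rw [← mul_assoc (PBT3.k1T τ), mul_assoc (PBT3.k1T τ * Complex.exp (-κv k τ))]
  rfl

/-- division of a bound by a nonnegative constant -/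
theorem lint_div {a b E m : ℝ} {I : ℝ≥0∞} (ha : 0 < a) (hb : 0 < b)
    (h : ENNReal.ofReal (a * b) * I ≤ ENNReal.ofReal (E * m)) :
    ENNReal.ofReal b * I ≤ ENNReal.ofReal (E * (m / a)) := by
  have h1 : ENNReal.ofReal a⁻¹ * (ENNReal.ofReal (a * b) * I) ≤
      ENNReal.ofReal a⁻¹ * ENNReal.ofReal (E * m) := mul_le_mul' le_rfl h
  rw [← mul_assoc, ← ENNReal.ofReal_mul (by positivity), ← ENNReal.ofReal_mul (by positivity)] at h1
  have e1 : a⁻¹ * (a * b) = b := by field_simp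
  have e2 : a⁻¹ * (E * m) = E * (m / a) := by field_simp
  rwa [e1, e2] at h1

theorem lint_W {ep e1 J : ℝ} {k : ℕ} {τ : ℝ × ℝ} {Y : CfN (2 * (k - 1)) → ℝ≥0∞} {E : ℝ}
    (hk : PBT3.k1T τ ≠ 0)
    (h : ∫⁻ x, ‖wF famW ep e1 J k τ x‖ₑ * Y x ∂(mN (2 * (k - 1))) ≤
      ENNReal.ofReal (E * Real.exp (-mTv τ))) :
    ENNReal.ofReal (‖(1 : ℂ)‖ * Real.exp (-(κv k τ).re)) *
      ∫⁻ x, ‖wN (expN (fun _ => Zv ep k τ) (fun _ => Dv τ) 1) (fun _ => NUSea.O.par0 k)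
        (2 * (k - 1)) (fun _ => cr e1 J k) (fun _ => cr' e1 J k) (fun _ => Pv k τ) x‖ₑ * Y x
        ∂(mN (2 * (k - 1))) ≤ ENNReal.ofReal (E * (Real.exp (-mTv τ) / ‖PBT3.k1T τ‖)) := by
  rw [norm_one, one_mul]
  refine lint_div (norm_pos_iff.2 hk) (Real.exp_pos _) (le_trans (le_of_eq ?_) h)
  have e1 : ENNReal.ofReal (‖PBT3.k1T τ‖ * Real.exp (-(κv k τ).re)) =
      ‖PBT3.k1T τ * Complex.exp (-κv k τ)‖ₑ := by
    rw [← ofReal_norm, norm_mul, Complex.norm_exp, Complex.neg_re]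
  rw [e1, ← lintegral_const_mul' _ _ enorm_ne_top]
  refine lintegral_congr fun x => ?_
  rw [wF_W, enorm_mul (PBT3.k1T τ * Complex.exp (-κv k τ)), mul_assoc]

/-- **the error on the path** -/
theorem hE_v {ep e1 J ε : ℝ} (hep : 0 < ep) (hep1 : ep ≤ 1 / 100)
    (hV : UB famV ep e1 J 2 6 ε) (hW : UB famW ep e1 J 2 6 ε) (hM : MeanP ep e1 J)
    (hP : PathP ep e1 J) {C : ℝ} (hC : 1 ≤ C)
    (hG : ∃ k0 : ℕ, ∀ k ≥ k0, ∀ τ : ℝ × ℝ, okv k τ → ∀ s : ℝ, 0 ≤ s → s ≤ 1 →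
      G1P ep C k τ s ∧ G2P ep C k τ s) :
    ∃ C' : ℝ, 0 < C' ∧ ∃ k0 : ℕ, ∀ k ≥ k0, ∀ τ : ℝ × ℝ, okv k τ → PBT3.k1T τ ≠ 0 →
      ∀ s : ℝ, 0 ≤ s → s ≤ 1 →
      ‖nFv' ep e1 J k τ s - (s * PBT3.qI (wa τ) (wb τ) + PBT3.pI (wa τ) (wb τ)) *
        nFv ep e1 J k τ s‖ ≤ (E1v (2 * C) e1 ε k (Mv τ) + E2v C' ε k (Mv τ)) *
        (Real.exp |τ.1 + τ.2| ^ (1 - s) * (Real.exp (-mTv τ) / ‖PBT3.k1T τ‖) ^ s) := by
  obtain ⟨k1, h1⟩ := hM
  obtain ⟨k2, h2⟩ := hP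
  obtain ⟨k3, h3⟩ := hG
  obtain ⟨k4, h4⟩ := lin_bd hV hep hC (fun m i => (Real.exp_pos _).le)
  obtain ⟨k5, h5⟩ := lin_bd hW hep hC (fun m i => (Real.exp_pos _).le)
  obtain ⟨C1, hC1, k6, h6⟩ := quad_bd hV (fun m i => (Real.exp_pos _).le)
  obtain ⟨C2, hC2, k7, h7⟩ := quad_bd hW (fun m i => (Real.exp_pos _).le)
  obtain ⟨k8, h8⟩ := wiF_v hV (by norm_num)
  refine ⟨max C1 C2, lt_max_of_lt_left hC1,
    max 2 (max k1 (max k2 (max k3 (max k4 (max k5 (max k6 (max k7 k8))))))),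
    fun k hk τ hok hk1 s hs0 hs1 => ?_⟩
  simp only [ge_iff_le, max_le_iff] at hk
  obtain ⟨hk0, i1, i2, i3, i4, i5, i6, i7, i8⟩ := hk
  obtain ⟨B, hB⟩ := h2 k i2 τ hok
  have hI := h8 k i8 τ hok (hB.mc0 0 (Nat.zero_le _))
  obtain ⟨κ, hMean⟩ := h1 k i1 τ (s : ℂ)
  obtain ⟨g1, g2⟩ := h3 k i3 τ hok s hs0 hs1
  have hkp : (0 : ℝ) < k := by exact_mod_cast (by omega : 0 < k)
  have hmc := mcr_cr' e1 J k
  have mV : MC (famV.Z ep k τ) (NUSea.O.par0 k) (cr e1 J k) (cr' e1 J k) := hB.mc0 0 (Nat.zero_le _)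
  have mW : MC (famW.Z ep k τ) (NUSea.O.par0 k) (cr e1 J k) (cr' e1 J k) := hB.mc 1 0 (Nat.zero_le _)
  have hEm := hMean.mE hmc (hB.mst 0 (Nat.zero_le _)) (PBT3.pI (wa τ) (wb τ)) (PBT3.qI (wa τ) (wb τ))
  have hQm := MIn_Qst hMean.crv hMean.h1 hMean.b0 hMean.sea hMean.fld hmc
  have hLm : MIn (ERL ep e1 J k τ s) := fun r a b => (hEm r a b).sub (hQm r a b)
  have hη : ∀ t, |etaC e1 J k k t| ≤ NUMF.l / 10 := by
    intro t
    have h := zc_strip (hMean.crv 0 (fun i => i.elim0)) hMean.h1 t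
    rw [zc_im] at h
    have hl := NUMF.l_pos
    have e : NUP1.l = NUMF.l := rfl
    rw [e] at h
    exact h.trans (by linarith)
  set Y : Bool → CfN (2 * (k - 1)) → ℝ≥0∞ := fun b x => if b then
    ‖evN (fun _ => ERL ep e1 J k τ s) x‖ₑ else
    ‖evN (fun _ => Qst (cr e1 J k) (rv k) (Xv k τ)) x‖ₑ with hY
  set Ec : Bool → ℝ := fun b => if b then E1v (2 * C) e1 ε k (Mv τ) else
    E2v (max C1 C2) ε k (Mv τ) with hEc
  have hkε : 0 < (k : ℝ) ^ ε := Real.rpow_pos_of_pos hkp _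
  have hk3 : 0 < (k : ℝ) ^ (-(3 / 4 * (1 - 4 * e1))) := Real.rpow_pos_of_pos hkp _
  have hlog : 0 ≤ Real.log k := Real.log_nonneg (by exact_mod_cast (by omega : 1 ≤ k))
  have hM0 := MvF_nonneg τ
  have hCC : 0 < max C1 C2 := lt_max_of_lt_left hC1
  have hEpos : ∀ b ∈ (Finset.univ : Finset Bool), 0 < Ec b := by
    intro b _
    cases b
    · simp only [hEc, E2v, Bool.false_eq_true, if_false]
      positivity
    · simp only [hEc, E1v, if_true]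
      positivity
  have hYm : ∀ b ∈ (Finset.univ : Finset Bool), Measurable (Y b) := by
    intro b _
    cases b
    · exact (evN_meas fun _ _ => hQm).enorm
    · exact (evN_meas fun _ _ => hLm).enorm
  have hE2 : ∀ Cx, Cx ≤ max C1 C2 → E2v Cx ε k (Mv τ) ≤ E2v (max C1 C2) ε k (Mv τ) := by
    intro Cx hCx
    unfold E2v
    gcongr
  have hb0 : ∀ b ∈ (Finset.univ : Finset Bool), ENNReal.ofReal ‖(1 : ℂ)‖ *
      ∫⁻ x, ‖wN (fun _ => Zv ep k τ) (fun _ => NUSea.O.par0 k) (2 * (k - 1))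
        (fun _ => cr e1 J k) (fun _ => cr' e1 J k) (fun _ => Pv k τ) x‖ₑ * Y b x
        ∂(mN (2 * (k - 1))) ≤ ENNReal.ofReal (Ec b * Real.exp |τ.1 + τ.2|) := by
    intro b _
    rw [norm_one, ENNReal.ofReal_one, one_mul]
    cases b
    · refine (h6 k i6 τ hok mV hη).trans (ENNReal.ofReal_le_ofReal ?_)
      exact mul_le_mul_of_nonneg_right (hE2 C1 (le_max_left _ _)) (Real.exp_pos _).le
    · exact h4 k i4 τ hok mV s g1 g2 hLm
  have hb1 : ∀ b ∈ (Finset.univ : Finset Bool),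
      ENNReal.ofReal (‖(1 : ℂ)‖ * Real.exp (-(κv k τ).re)) *
      ∫⁻ x, ‖wN (expN (fun _ => Zv ep k τ) (fun _ => Dv τ) 1) (fun _ => NUSea.O.par0 k)
        (2 * (k - 1)) (fun _ => cr e1 J k) (fun _ => cr' e1 J k) (fun _ => Pv k τ) x‖ₑ * Y b x
        ∂(mN (2 * (k - 1))) ≤ ENNReal.ofReal (Ec b * (Real.exp (-mTv τ) / ‖PBT3.k1T τ‖)) := by
    intro b _
    refine lint_W hk1 ?_
    cases b
    · refine (h7 k i7 τ hok mW hη).trans (ENNReal.ofReal_le_ofReal ?_)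
      exact mul_le_mul_of_nonneg_right (hE2 C2 (le_max_right _ _)) (Real.exp_pos _).le
    · exact h5 k i5 τ hok mW s g1 g2 hLm
  have hμ1 : 0 < Real.exp (-mTv τ) / ‖PBT3.k1T τ‖ := div_pos (Real.exp_pos _) (norm_pos_iff.2 hk1)
  have hmean := mean_N hB hI (fun n _ => hMean) (κ0 := κv k τ) (fun n _ => rfl)
    (PBT3.pI (wa τ) (wb τ)) (PBT3.qI (wa τ) (wb τ)) Finset.univ (Y := Y) hYm (by
      intro x
      rw [Fintype.sum_bool]
      have e : evN (fun n => ERR (Dv τ) (NUSea.O.par0 k) (cr e1 J k) (s : ℂ)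
          (PBT3.pI (wa τ) (wb τ)) (PBT3.qI (wa τ) (wb τ)) (rv k) (Xv k τ) (D1v τ) (Ev k τ)
          (lgv ep k τ) (kov k)) x = evN (fun _ => ERL ep e1 J k τ s) x +
          evN (fun _ => Qst (cr e1 J k) (rv k) (Xv k τ)) x := by
        unfold evN ev ERL
        exact (sub_add_cancel _ _).symm
      rw [e]
      exact enorm_add_le _ _)
  have key := nF_err hB Finset.univ hYm hs0 hs1 (Real.exp_pos _) hμ1 hEpos one_ne_zero hb0 hb1 hmean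
  rw [Fintype.sum_bool] at key
  exact key

/-! ### (H3) -/

theorem pI_v (τ : ℝ × ℝ) : PBT3.pI (wa τ) (wb τ) = PBT3.pF τ := PBT3.pI_eq (G5_v τ).geo

theorem gI_v (τ : ℝ × ℝ) :
    PBT3.pI (wa τ) (wb τ) + PBT3.qI (wa τ) (wb τ) / 2 = PBT3.gF τ := by
  have h := PBT3.gI_eq (G5_v τ).geo
  rw [div_eq_mul_inv, mul_comm (PBT3.qI (wa τ) (wb τ)) _]
  have e : ((2 : ℂ)⁻¹) = 1 / 2 := by norm_num
  rw [e]
  exact h

theorem Mv_le_log {k : ℕ} {τ : ℝ × ℝ} (hk : 1 ≤ k) (h : okv k τ) : Mv τ ≤ Real.log k := by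
  have hk1 : (1 : ℝ) ≤ k := by exact_mod_cast hk
  have hL : 0 ≤ Real.log k := Real.log_nonneg hk1
  have h1 : 2 * Mv τ ≤ mTv τ := PBTs.max_le_mT τ
  unfold okv at h
  linarith

/-- **(H3) between the two ends of the s-path**, path data for small parameters only -/
theorem h3_w (hV : UX famV) (hW : UX famW)
    (hMP : ∃ a1 : ℝ, 0 < a1 ∧ ∀ ep e1 J : ℝ, 0 < ep → ep ≤ 1 / 100 → 0 < e1 → e1 ≤ 1 / 100 →
      0 ≤ J → Real.exp (-(2 * Real.pi * J)) + 3 * e1 + 3 * ep ≤ a1 →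
      MeanP ep e1 J ∧ PathP ep e1 J)
    (hG : ∀ ep : ℝ, 0 < ep → ep ≤ 1 / 100 → ∃ C : ℝ, 1 ≤ C ∧ ∃ k0 : ℕ, ∀ k ≥ k0, ∀ τ : ℝ × ℝ,
      okv k τ → ∀ s : ℝ, 0 ≤ s → s ≤ 1 → G1P ep C k τ s ∧ G2P ep C k τ s) {c1 : ℝ}
    (hc1 : c1 < 3 / 4) :
    ∃ a0 : ℝ, 0 < a0 ∧ ∀ ep e1 J : ℝ, 0 < ep → ep ≤ 1 / 100 → 0 < e1 → e1 ≤ 1 / 100 → 0 ≤ J →
      Real.exp (-(2 * Real.pi * J)) + 3 * e1 + 3 * ep ≤ a0 →
      ∀ᶠ k : ℕ in atTop, ∀ τ : ℝ × ℝ, okv k τ →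
        ‖PBT3.k1T τ‖ * ‖nFv ep e1 J k τ 1 - Complex.exp (PBT3.gF τ) * nFv ep e1 J k τ 0‖ ≤
          (k : ℝ) ^ (-c1) := by
  set e := (3 / 4 - c1) / 2 with he
  have he0 : 0 < e := by rw [he]; linarith
  obtain ⟨aV, haV, hV⟩ := hV 2 6 (e / 4) (by positivity)
  obtain ⟨aW, haW, hW⟩ := hW 2 6 (e / 4) (by positivity)
  obtain ⟨a1, ha1, hMP⟩ := hMP
  refine ⟨min a1 (min (e / 4) (min aV aW)), lt_min ha1 (lt_min (by positivity) (lt_min haV haW)),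
    fun ep e1 J hep hep1 he1 he11 hJ hsm' => ?_⟩
  have s0 := hsm'.trans (min_le_left _ _)
  have hsm := hsm'.trans (min_le_right _ _)
  have s1 := hsm.trans (min_le_left _ _)
  have s2 := hsm.trans ((min_le_right _ _).trans (min_le_left _ _))
  have s3 := hsm.trans ((min_le_right _ _).trans (min_le_right _ _))
  have hexp := (Real.exp_pos (-(2 * Real.pi * J))).le
  obtain ⟨hM, hP⟩ := hMP ep e1 J hep hep1 he1 he11 hJ s0
  obtain ⟨C, hC, hGG⟩ := hG ep hep hep1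
  obtain ⟨C', hC', k1, hE⟩ := hE_v hep hep1 (hV ep e1 J hep he1 hJ s2) (hW ep e1 J hep he1 hJ s3)
    hM hP hC hGG
  obtain ⟨k2, hP2⟩ := hP
  obtain ⟨k3, hI3⟩ := wiF_v (hV ep e1 J hep he1 hJ s2) (by norm_num)
  obtain ⟨A, hA, hk1⟩ := PBT3.k1T_le
  obtain ⟨Cg, hCg, hgF⟩ := PBT3.gF_re
  obtain ⟨Cp, hCp, hpF⟩ := PBT3.pF_re
  set A' := max A 1 with hA'
  set Cc := max Cg Cp with hCc
  have hCc0 : 0 ≤ Cc := le_max_of_le_left hCg
  have hlim : Tendsto (fun k : ℕ => 3 * A' * Real.exp (2 * Cc) * (k : ℝ) ^ (-(3 / 4 - e - c1)))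
      atTop (nhds (3 * A' * Real.exp (2 * Cc) * 0)) :=
    ((tendsto_rpow_neg_atTop (by rw [he]; linarith)).comp tendsto_natCast_atTop_atTop).const_mul _
  rw [mul_zero] at hlim
  filter_upwards [E_le (C := 2 * C) (C' := C') (e := e) (e1 := e1) (ε := e / 4) (by positivity)
    hC'.le he1.le (by linarith), hlim.eventually_le_const one_pos, eventually_ge_atTop k1,
    eventually_ge_atTop k2, eventually_ge_atTop 1, eventually_ge_atTop k3] with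
    k f1 f2 f3 f4 f5 f6 τ hok
  have hκ : (1 : ℝ) ≤ k := by exact_mod_cast f5
  have hκ0 : (0 : ℝ) < k := by linarith
  rcases eq_or_ne (PBT3.k1T τ) 0 with hz | hz
  · rw [hz, norm_zero, zero_mul]
    exact Real.rpow_nonneg hκ0.le _
  obtain ⟨B, hB⟩ := hP2 k f4 τ hok
  have hI := hI3 k f6 τ hok (hB.mc0 0 (Nat.zero_le _))
  have hnn : ∀ s : ℝ, 0 ≤ Real.exp |τ.1 + τ.2| ^ (1 - s) *
      (Real.exp (-mTv τ) / ‖PBT3.k1T τ‖) ^ s := fun s =>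
    mul_nonneg (Real.rpow_nonneg (Real.exp_pos _).le _)
      (Real.rpow_nonneg (div_nonneg (Real.exp_pos _).le (norm_nonneg _)) _)
  have hM0 := MvF_nonneg τ
  have key := PBTs.h3_pt (k1 := PBT3.k1T τ) (F := nFv ep e1 J k τ) (F' := nFv' ep e1 J k τ)
    (p := PBT3.pI (wa τ) (wb τ)) (q := PBT3.qI (wa τ) (wb τ))
    (m := fun s => Real.exp |τ.1 + τ.2| ^ (1 - s) * (Real.exp (-mTv τ) / ‖PBT3.k1T τ‖) ^ s)
    (A := A') (C := Cc) (d := 1 / 20) (e := e) (e0 := 0) (e1 := 0) (κ := (k : ℝ)) (t := τ)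
    (le_max_right _ _) hCc0 (by norm_num) hκ le_rfl le_rfl
    (by
      have : PBTs.mT τ = mTv τ := rfl
      rw [this]
      refine hok.trans (le_of_eq ?_)
      ring)
    ((hk1 τ).trans (mul_le_mul_of_nonneg_right (le_max_left _ _) (Real.exp_pos _).le))
    (by
      rw [gI_v]
      have h := abs_le.1 (hgF τ)
      have h' : Cg ≤ Cc := le_max_left _ _
      linarith [h.2])
    (by
      rw [pI_v]
      have h := abs_le.1 (hpF τ)
      have h' : Cp ≤ Cc := le_max_right _ _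
      linarith [h.1])
    (fun s _ => hasDerivAt_nF hB hI 1 (κv k τ) s)
    (fun s hs => (hE k f3 τ hok hz s hs.1 hs.2).trans
      (mul_le_mul_of_nonneg_right (f1 (Mv τ) hM0 (Mv_le_log f5 hok)) (hnn s)))
    (fun s _ => hnn s)
    (fun s _ => by
      simp only [sub_zero, Real.rpow_one, Real.rpow_zero, mul_one, sub_self, one_mul, le_refl])
    (by simp only [sub_zero, Real.rpow_one, Real.rpow_zero, mul_one, one_mul, le_refl])
    (by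
      simp only [sub_self, Real.rpow_one, Real.rpow_zero, one_mul]
      rw [mul_div_cancel₀ _ (norm_ne_zero_iff.2 hz)]
      exact le_rfl)
  rw [gI_v] at key
  refine key.trans ?_
  have e1' : (k : ℝ) ^ (e + 0 + 0 - 3 / 4) = (k : ℝ) ^ (-(3 / 4 - e - c1)) * (k : ℝ) ^ (-c1) := by
    rw [← Real.rpow_add hκ0]
    congr 1
    ring
  rw [e1', ← mul_assoc]
  calc 3 * A' * Real.exp (2 * Cc) * (k : ℝ) ^ (-(3 / 4 - e - c1)) * (k : ℝ) ^ (-c1)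
      ≤ 1 * (k : ℝ) ^ (-c1) := mul_le_mul_of_nonneg_right f2 (Real.rpow_nonneg hκ0.le _)
    _ = _ := one_mul _

/-- **(H3) between the two ends of the s-path** -/
theorem h3_v (hV : UX famV) (hW : UX famW)
    (hMP : ∀ ep e1 J : ℝ, 0 < ep → ep ≤ 1 / 100 → 0 < e1 → e1 ≤ 1 / 100 → 0 ≤ J →
      MeanP ep e1 J ∧ PathP ep e1 J)
    (hG : ∀ ep : ℝ, 0 < ep → ep ≤ 1 / 100 → ∃ C : ℝ, 1 ≤ C ∧ ∃ k0 : ℕ, ∀ k ≥ k0, ∀ τ : ℝ × ℝ,
      okv k τ → ∀ s : ℝ, 0 ≤ s → s ≤ 1 → G1P ep C k τ s ∧ G2P ep C k τ s) {c1 : ℝ}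
    (hc1 : c1 < 3 / 4) :
    ∃ a0 : ℝ, 0 < a0 ∧ ∀ ep e1 J : ℝ, 0 < ep → ep ≤ 1 / 100 → 0 < e1 → e1 ≤ 1 / 100 → 0 ≤ J →
      Real.exp (-(2 * Real.pi * J)) + 3 * e1 + 3 * ep ≤ a0 →
      ∀ᶠ k : ℕ in atTop, ∀ τ : ℝ × ℝ, okv k τ →
        ‖PBT3.k1T τ‖ * ‖nFv ep e1 J k τ 1 - Complex.exp (PBT3.gF τ) * nFv ep e1 J k τ 0‖ ≤
          (k : ℝ) ^ (-c1) :=
  h3_w hV hW ⟨1, one_pos, fun ep e1 J a b c d e _ => hMP ep e1 J a b c d e⟩ hG hc1

end PBTV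

end
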