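import Pool.Agent.PB.TRFin2
import Pool.Agent.PB.TRH1
import Pool.Agent.PB.TRsF
import Pool.Agent.PB.TRsL
import Pool.Agent.PB.TRsR

/-!
# (TR), top level: the Prop `TRP nrm`

* `PI_ev`: integrability at the left end from `UX famV`;
* `MPP`, `GP`: the outputs of `PB/TRsN` and `PB/TRsG` as propositions;
* **`trP_v`**: `FunO`, `MPP`, `GP` give `TRP nrm`, with one choice of the parameters.
-/

set_option autoImplicit false

noncomputable section

open Complex MeasureTheory Set Filter Topology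
open scoped ENNReal

namespace PBTRF

open NUP1 (l)
open PBF (FAN CfN wN mN)
open Pool.Agent.PB (f0)
open PBT3 (gF k1T)
open PBTR (nearS winW)
open PBU (cr cr' FS UX UB)
open PBTV (Zv nFv okv famV MeanP PathP G1P G2P)

attribute [local instance] NUSea.seaP

theorem SW_eq : SW = SR0 := rfl

/-- **integrability at the left end** from a bound of the mass -/
theorem PI_of {ep e1 J M : ℝ} {k : ℕ} {τ : ℝ × ℝ}
    (h : FS famV ep e1 J k τ (fun _ => 1) (fun _ _ _ _ _ => 1) ≤ ENNReal.ofReal M) :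
    PI ep e1 J k τ := by
  have hMC : ∀ n ≤ 2 * (k - 1), PBF.MC (Zv ep k τ) (NUSea.O.par0 k) (cr e1 J k) (cr' e1 J k) :=
    fun n _ => PBF.MC.of (PBX.ParC_par0 k).rm
      (fun s q => PBX.measurable_ZL _ _ _ _ _ s q) (mCr_cr e1 J k)
  have hΨ : ∀ j ≤ 2 * (k - 1), PBF.MIn ((fun _ _ _ _ _ _ => (1 : ℂ) : ℕ → PBF.Ins) j) :=
    fun j _ r a b => measurable_const
  refine PBF.WIN_of (Ψ := fun _ _ _ _ _ _ => (1 : ℂ)) hMC hΨ ?_
  refine lt_of_le_of_lt (le_trans (le_of_eq ?_) h) ENNReal.ofReal_lt_top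
  unfold FAN FS
  refine Finset.sum_congr rfl fun n _ => ?_
  rw [PBF.FA_eq_FE, one_mul]
  simp only [enorm_one]
  rfl

/-- the same for all indices -/
theorem PI_ev (hV : UX famV) : ∃ a0 : ℝ, 0 < a0 ∧ ∀ ep e1 J : ℝ, 0 < ep → 0 < e1 → 0 ≤ J →
    Real.exp (-(2 * Real.pi * J)) + 3 * e1 + 3 * ep ≤ a0 →
    ∀ᶠ k : ℕ in atTop, ∀ τ : ℝ × ℝ, okv k τ → PI ep e1 J k τ := by
  obtain ⟨a0, ha0, h⟩ := hV 0 1 1 one_pos
  refine ⟨a0, ha0, fun ep e1 J hep he1 hJ hs => ?_⟩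
  obtain ⟨m0, hm⟩ := (h ep e1 J hep he1 hJ hs).mass le_rfl
  filter_upwards [eventually_ge_atTop m0] with k hk τ hτ
  exact PI_of (hm k hk τ hτ)

/-- the data of the mean statement, output of `PB/TRsN` -/
def MPP : Prop := ∀ ep e1 J : ℝ, 0 < ep → ep ≤ 1 / 100 → 0 < e1 → e1 ≤ 1 / 100 → 0 ≤ J →
  MeanP ep e1 J ∧ PathP ep e1 J

/-- the pointwise bounds of the error, output of `PB/TRsG` -/
def GP : Prop := ∀ ep : ℝ, 0 < ep → ep ≤ 1 / 100 → ∃ C : ℝ, 1 ≤ C ∧ ∃ k0 : ℕ, ∀ k ≥ k0,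
  ∀ τ : ℝ × ℝ, okv k τ → ∀ s : ℝ, 0 ≤ s → s ≤ 1 → G1P ep C k τ s ∧ G2P ep C k τ s

/-- **(TR)** -/
theorem trP_v {g : ℕ → ℂ} {c : ℝ} (hF : PBV.FunO c f0 g) (hc : 3 / 8 < c) (hM : MPP) (hG : GP) :
    PBM.TRP PBM.nrm := by
  obtain ⟨ep0, hep0, -, h1⟩ := h1_SR0 (c0 := 13 / 32) (by norm_num)
  obtain ⟨κ0, hκ, hκ1, h2⟩ := h2_SR0 (e := 1 / 180) (by norm_num)
  obtain ⟨a1, ha1, h3⟩ := PBTV.h3_v PBTV.ux_famV PBTW.ux_famW hM hG (c1 := 1 / 2) (by norm_num)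
  obtain ⟨a2, ha2, h4⟩ := PI_ev PBTV.ux_famV
  obtain ⟨a, ha⟩ : ∃ a, a = min (min ep0 κ0) (min a1 a2) := ⟨_, rfl⟩
  have ha0 : 0 < a := by rw [ha]; exact lt_min (lt_min hep0 hκ) (lt_min ha1 ha2)
  have q1 : a ≤ ep0 := by rw [ha]; exact (min_le_left _ _).trans (min_le_left _ _)
  have q2 : a ≤ κ0 := by rw [ha]; exact (min_le_left _ _).trans (min_le_right _ _)
  have q3 : a ≤ a1 := by rw [ha]; exact (min_le_right _ _).trans (min_le_left _ _)
  have q4 : a ≤ a2 := by rw [ha]; exact (min_le_right _ _).trans (min_le_right _ _)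
  obtain ⟨ep, J, he, he', hJ, hs⟩ := PBU.exists_small ha0
  have hexp := Real.exp_pos (-(2 * Real.pi * J))
  have he1 : ep ≤ 1 / 100 := he'.trans (q2.trans hκ1)
  have h1 := h1 ep he (he'.trans q1) ep he he1 J hJ
  have hm := hm_SR0 (e1 := ep) (J := J) he he1 he he1 hJ
  have h2 := h2 ep he (he'.trans q2) ep he (he'.trans q2) J hJ (by linarith)
  have h3 := h3_of (e1 := ep) he he1 he he1 hJ (h4 ep ep J he he hJ (hs.trans q4))
    (h3 ep ep J he he1 he he1 hJ (hs.trans q3))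
  refine trP_of (S := SR0 ep ep J) (V := fun k => winW (3 / 8) k) (d := 1 / 20) (c0 := 13 / 32)
    (c1 := 1 / 2) (u := PBM.ph) hF hc (Eventually.of_forall PBM.norm_ph) (by norm_num) le_rfl
    (by norm_num) (by norm_num) (fun k => PBTR.measurableSet_winW _ _)
    (Eventually.of_forall fun k => PBTR.nearS_sub_win le_rfl k) ?_ h1 ?_ h3
  · filter_upwards [hm] with k hk
    exact hk.restrict
  · filter_upwards [h2] with k hk τ hτ
    have e : (1 / 20 : ℝ) / 9 = 1 / 180 := by norm_num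
    rw [e]
    exact hk τ hτ

end PBTRF

end
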