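import Pool.Agent.NUP.MF.Rule
import Pool.Agent.NUP.MF.Strip

/-!
# Plan B, (TR): the sum rule of the density `P` on a shifted line

`∫ Pc (s + i x) (f (s + i x + i l) + f (s + i x - i l) - f (s + i x)) ds = f 0` for `|x| < l` and
`f` analytic in the strip `x - l < Im < x + l` of growth less than `exp (8/3 |Re|)`.
-/

set_option autoImplicit false

open MeasureTheory Set Filter Topology Complex

namespace Pool.Agent.PB

open NUMF

noncomputable section

lemma U_diff' {z : ℂ} (h0 : -l < z.im) (h1 : z.im < 2 * l) : DifferentiableAt ℂ U z := by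
  have hpi := Real.pi_pos
  unfold l at h0 h1
  have e : (4 / 3 * z : ℂ).im = 4 / 3 * z.im := im43 z
  have n1 : shc (4 / 3 * z) ≠ 0 := shc_ne (by
    rw [e, abs_lt]
    constructor <;> linarith)
  have n2 : Complex.cosh (4 / 3 * z + Real.pi / 6 * I) ≠ 0 := cosh_ne (by
    have : (4 / 3 * z + Real.pi / 6 * I : ℂ).im = 4 / 3 * z.im + Real.pi / 6 := by
      rw [Complex.add_im, e]
      simp
    rw [this, abs_lt]
    constructor <;> linarith)
  have n3 : Complex.cosh (4 / 3 * z) ≠ 0 := cosh_ne (by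
    rw [e, abs_lt]
    constructor <;> linarith)
  have n4 : Complex.cosh (4 / 3 * z - Real.pi / 3 * I) ≠ 0 := cosh_ne (by
    have : (4 / 3 * z - Real.pi / 3 * I : ℂ).im = 4 / 3 * z.im - Real.pi / 3 := by
      rw [Complex.sub_im, e]
      simp
    rw [this, abs_lt]
    constructor <;> linarith)
  have d1 : DifferentiableAt ℂ (fun z : ℂ => shc (4 / 3 * z)) z := by
    have h := (shc_diff (4 / 3 * z)).comp z ((differentiableAt_id).const_mul (4 / 3 : ℂ))
    exact h
  have c43 : DifferentiableAt ℂ (fun z : ℂ => 4 / 3 * z) z := (differentiableAt_id).const_mul _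
  have d2 : DifferentiableAt ℂ (fun z : ℂ => Complex.cosh (4 / 3 * z + Real.pi / 6 * I)) z :=
    (c43.add_const _).ccosh
  have d3 : DifferentiableAt ℂ (fun z : ℂ => Complex.cosh (4 / 3 * z)) z := c43.ccosh
  have d4 : DifferentiableAt ℂ (fun z : ℂ => Complex.cosh (4 / 3 * z - Real.pi / 3 * I)) z :=
    (c43.sub_const _).ccosh
  have hI : (-2 * I : ℂ) ≠ 0 := by simp
  unfold U
  refine DifferentiableAt.const_mul (DifferentiableAt.add ?_ ?_) _
  · refine DifferentiableAt.div (differentiableAt_const _) ?_ ?_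
    · exact (d1.const_mul _).mul (d2.const_mul _)
    · exact mul_ne_zero (mul_ne_zero (by norm_num) n1) (mul_ne_zero hI n2)
  · refine DifferentiableAt.div differentiableAt_id ?_ ?_
    · exact (d3.const_mul _).mul d4
    · exact mul_ne_zero (mul_ne_zero (by norm_num) n3) n4

lemma U_eq' {z : ℂ} (hz : z ≠ 0) (h0 : -l < z.im) (h1 : z.im < 2 * l) :
    U z = z * Pc (z - l * I) := by
  have hpi := Real.pi_pos
  have h0' := h0
  have h1' := h1
  unfold l at h0' h1'
  have e : (4 / 3 * z : ℂ).im = 4 / 3 * z.im := im43 z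
  have n0 : (4 / 3 * z : ℂ) ≠ 0 := mul_ne_zero (by norm_num) hz
  have n1 : Complex.sinh (4 / 3 * z) ≠ 0 :=
    sinh_ne n0 (by
      rw [e, abs_lt]
      constructor <;> linarith)
  have n2 : Complex.cosh (4 / 3 * z + Real.pi / 6 * I) ≠ 0 := cosh_ne (by
    have : (4 / 3 * z + Real.pi / 6 * I : ℂ).im = 4 / 3 * z.im + Real.pi / 6 := by
      rw [Complex.add_im, e]
      simp
    rw [this, abs_lt]
    constructor <;> linarith)
  have n3 : Complex.cosh (4 / 3 * z) ≠ 0 := cosh_ne (by
    rw [e, abs_lt]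
    constructor <;> linarith)
  have n4 : Complex.cosh (4 / 3 * z - Real.pi / 3 * I) ≠ 0 := cosh_ne (by
    have : (4 / 3 * z - Real.pi / 3 * I : ℂ).im = 4 / 3 * z.im - Real.pi / 3 := by
      rw [Complex.sub_im, e]
      simp
    rw [this, abs_lt]
    constructor <;> linarith)
  have a2 : -2 * I * Complex.cosh (4 / 3 * z + Real.pi / 6 * I) =
      Complex.sinh (4 / 3 * z) - √3 * I * Complex.cosh (4 / 3 * z) := by
    rw [Complex.cosh_add, Complex.cosh_mul_I, Complex.sinh_mul_I, cos_pi_6, sin_pi_6]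
    linear_combination (-Complex.sinh (4 / 3 * z)) * Complex.I_mul_I
  have a4 : 2 * Complex.cosh (4 / 3 * z - Real.pi / 3 * I) =
      Complex.cosh (4 / 3 * z) - √3 * I * Complex.sinh (4 / 3 * z) := by
    rw [Complex.cosh_sub, Complex.cosh_mul_I, Complex.sinh_mul_I, cos_pi_3, sin_pi_3]
    ring
  have b1 : 4 / 3 * shc (4 / 3 * z) = Complex.sinh (4 / 3 * z) / z := by
    rw [eq_div_iff hz]
    have := shc_mul (4 / 3 * z)
    linear_combination this
  have hI : (-2 * I : ℂ) ≠ 0 := by simp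
  have m2 : Complex.sinh (4 / 3 * z) - √3 * I * Complex.cosh (4 / 3 * z) ≠ 0 := by
    rw [← a2]
    exact mul_ne_zero hI n2
  have m4 : Complex.cosh (4 / 3 * z) - √3 * I * Complex.sinh (4 / 3 * z) ≠ 0 := by
    rw [← a4]
    exact mul_ne_zero two_ne_zero n4
  have p1 : 2 * Complex.cosh (8 / 3 * (z - l * I)) - 1 = 2 * (Complex.sinh (4 / 3 * z) *
      (Complex.sinh (4 / 3 * z) - √3 * I * Complex.cosh (4 / 3 * z))) := by
    rw [cosh_shift]
    ring
  have p2 : 2 * Complex.cosh (8 / 3 * (z - l * I)) + 1 = 2 * (Complex.cosh (4 / 3 * z) *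
      (Complex.cosh (4 / 3 * z) - √3 * I * Complex.sinh (4 / 3 * z))) := by
    rw [cosh_shift]
    have := Complex.cosh_sq (4 / 3 * z)
    linear_combination (-2) * this
  unfold U Pc
  rw [p1, p2, a2, b1]
  have q : 2 * Complex.cosh (4 / 3 * z) * Complex.cosh (4 / 3 * z - Real.pi / 3 * I) =
      Complex.cosh (4 / 3 * z) * (Complex.cosh (4 / 3 * z) - √3 * I * Complex.sinh (4 / 3 * z)) := by
    rw [← a4]
    ring
  rw [q]
  have hsp : ((√3 * Real.pi : ℝ) : ℂ) ≠ 0 := by
    rw [Complex.ofReal_ne_zero]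
    exact (mul_pos sq3_pos Real.pi_pos).ne'
  generalize Complex.sinh (4 / 3 * z) - √3 * I * Complex.cosh (4 / 3 * z) = x at *
  generalize Complex.cosh (4 / 3 * z) - √3 * I * Complex.sinh (4 / 3 * z) = y at *
  generalize Complex.sinh (4 / 3 * z) = S at *
  generalize Complex.cosh (4 / 3 * z) = K at *
  field_simp
  ring

/-- `P(z + i l) + P(z - i l) = P(z)` -/
lemma Pc_ruleC {z : ℂ} (hS0 : Complex.sinh (8 / 3 * z) ≠ 0)
    (hden : 4 * Complex.cosh (8 / 3 * z) ^ 2 - 1 ≠ 0) :
    Pc (z - l * I) + Pc (z + l * I) = Pc z := by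
  set C : ℂ := Complex.cosh (8 / 3 * z) with hC
  set S : ℂ := Complex.sinh (8 / 3 * z) with hS
  have hCS : C ^ 2 = S ^ 2 + 1 := by rw [hC, hS, Complex.cosh_sq]
  set q : ℂ := √3 * I with hq
  have hq2 : q ^ 2 = -3 := by
    rw [hq, mul_pow, Complex.I_sq]
    have := csq3
    linear_combination (-1 : ℂ) * this
  have e1 : 2 * Complex.cosh (8 / 3 * (z - l * I)) = C - q * S := by
    have e : 8 / 3 * (z - l * I) = 8 / 3 * z - (Real.pi / 3) * I := by
      rw [il]; ring
    rw [e, Complex.cosh_sub, Complex.cosh_mul_I, Complex.sinh_mul_I, cos_pi_3, sin_pi_3, ← hC,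
      ← hS, hq]
    ring
  have e2 : 2 * Complex.cosh (8 / 3 * (z + l * I)) = C + q * S := by
    have e : 8 / 3 * (z + l * I) = 8 / 3 * z + (Real.pi / 3) * I := by
      rw [il]; ring
    rw [e, Complex.cosh_add, Complex.cosh_mul_I, Complex.sinh_mul_I, cos_pi_3, sin_pi_3, ← hC,
      ← hS, hq]
    ring
  have key : (S + q * C) * (S - q * C) = 4 * C ^ 2 - 1 := by
    linear_combination (-C ^ 2) * hq2 - hCS
  have k12 : (S + q * C) * (S - q * C) ≠ 0 := by rw [key]; exact hden
  have n1 := left_ne_zero_of_mul k12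
  have n2 := right_ne_zero_of_mul k12
  have f1 : (C - q * S - 1) * (C - q * S + 1) = -2 * S * (S + q * C) := by
    linear_combination (S ^ 2) * hq2 + hCS
  have f2 : (C + q * S - 1) * (C + q * S + 1) = -2 * S * (S - q * C) := by
    linear_combination (S ^ 2) * hq2 + hCS
  have g1 : (C - q * S - 1) * (C - q * S + 1) ≠ 0 := by
    rw [f1]
    exact mul_ne_zero (mul_ne_zero (by norm_num) hS0) n1
  have g2 : (C + q * S - 1) * (C + q * S + 1) ≠ 0 := by
    rw [f2]
    exact mul_ne_zero (mul_ne_zero (by norm_num) hS0) n2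
  have g3 : (2 * C - 1) * (2 * C + 1) ≠ 0 := by
    have : (2 * C - 1) * (2 * C + 1) = 4 * C ^ 2 - 1 := by ring
    rw [this]
    exact hden
  have a1 := left_ne_zero_of_mul g1
  have a2 := right_ne_zero_of_mul g1
  have a3 := left_ne_zero_of_mul g2
  have a4 := right_ne_zero_of_mul g2
  have a5 := left_ne_zero_of_mul g3
  have a6 := right_ne_zero_of_mul g3
  unfold Pc
  rw [e1, e2, ← mul_add, ← hC]
  congr 1
  have s1 : 1 / (C - q * S - 1) + 1 / (C - q * S + 1) = -(C - q * S) / (S * (S + q * C)) := by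
    rw [div_add_div _ _ a1 a2, f1, div_eq_div_iff (mul_ne_zero (mul_ne_zero (by norm_num) hS0) n1)
      (mul_ne_zero hS0 n1)]
    ring
  have s2 : 1 / (C + q * S - 1) + 1 / (C + q * S + 1) = -(C + q * S) / (S * (S - q * C)) := by
    rw [div_add_div _ _ a3 a4, f2, div_eq_div_iff (mul_ne_zero (mul_ne_zero (by norm_num) hS0) n2)
      (mul_ne_zero hS0 n2)]
    ring
  have s3 : 1 / (2 * C - 1) + 1 / (2 * C + 1) = 4 * C / (4 * C ^ 2 - 1) := by
    rw [div_add_div _ _ a5 a6, div_eq_div_iff g3 hden]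
    ring
  rw [s1, s2, s3, div_add_div _ _ (mul_ne_zero hS0 n1) (mul_ne_zero hS0 n2),
    div_eq_div_iff (mul_ne_zero (mul_ne_zero hS0 n1) (mul_ne_zero hS0 n2)) hden, ← key]
  linear_combination ((S + q * C) * (S - q * C)) * (-2 * S ^ 2 * C) * hq2 * 1

lemma sinh83_ne {z : ℂ} (hz : z ≠ 0) (h : |z.im| < l) : Complex.sinh (8 / 3 * z) ≠ 0 := by
  refine sinh_ne (mul_ne_zero (by norm_num) hz) ?_
  rw [im83s, abs_mul, abs_of_pos (by norm_num : (0:ℝ) < 8 / 3)]
  unfold l at h
  linarith [Real.pi_pos]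

lemma den83_ne {z : ℂ} (h : |z.im| < l) : 4 * Complex.cosh (8 / 3 * z) ^ 2 - 1 ≠ 0 := by
  have n1 := den_ne h (e := 1) norm_one
  have n2 := den_ne h (e := -1) (by simp)
  have : 4 * Complex.cosh (8 / 3 * z) ^ 2 - 1 =
      (2 * Complex.cosh (8 / 3 * z) + 1) * (2 * Complex.cosh (8 / 3 * z) + -1) := by ring
  rw [this]
  exact mul_ne_zero n1 n2

/-- shift of a horizontal line -/
theorem hshift' {Φ : ℂ → ℂ} {a b C κ : ℝ} (hab : a ≤ b) (hκ : 0 < κ)
    (hc : ContinuousOn Φ {z : ℂ | a ≤ z.im ∧ z.im ≤ b})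
    (hd : ∀ z : ℂ, a < z.im → z.im < b → DifferentiableAt ℂ Φ z)
    (hb : ∀ z : ℂ, a ≤ z.im → z.im ≤ b → 1 ≤ |z.re| → ‖Φ z‖ ≤ C * Real.exp (-κ * |z.re|)) :
    Integrable (fun s : ℝ => Φ (s + a * I)) ∧ Integrable (fun s : ℝ => Φ (s + b * I)) ∧
      ∫ s : ℝ, Φ (s + a * I) = ∫ s : ℝ, Φ (s + b * I) := by
  have him : ∀ z : ℂ, (z + a * I).im = z.im + a := fun z => by simp
  have hre : ∀ z : ℂ, (z + a * I).re = z.re := fun z => by simp
  have key := hshift (Φ := fun z => Φ (z + a * I)) (θ := b - a) (C := C) (κ := κ) (by linarith) hκ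
    (by
      refine hc.comp (by fun_prop) ?_
      intro z hz
      have h1 := hz.1
      have h2 := hz.2
      refine ⟨?_, ?_⟩ <;> rw [him] <;> linarith)
    (by
      intro z h1 h2
      have h3 : DifferentiableAt ℂ Φ (z + a * I) := hd _ (by rw [him]; linarith)
        (by rw [him]; linarith)
      exact h3.comp z ((differentiableAt_id).add_const _))
    (by
      intro z h1 h2 h3
      have := hb (z + a * I) (by rw [him]; linarith) (by rw [him]; linarith) (by rwa [hre])
      rwa [hre] at this)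
  obtain ⟨k1, k2, k3⟩ := key
  have e : (fun s : ℝ => Φ (s + ((b - a : ℝ) : ℂ) * I + a * I)) = fun s : ℝ => Φ (s + b * I) := by
    funext s
    congr 1
    push_cast
    ring
  rw [e] at k2
  refine ⟨k1, k2, ?_⟩
  rw [k3]
  exact congrArg (fun f : ℝ → ℂ => ∫ s, f s) e

lemma Pc_ne_diff {z : ℂ} (hz : z ≠ 0) (h0 : -l < z.im) (h1 : z.im < 2 * l) :
    DifferentiableAt ℂ (fun z => Pc (z - l * I)) z := by
  have hev : (fun z => Pc (z - l * I)) =ᶠ[𝓝 z] fun z => U z / z := by
    have o1 : ∀ᶠ y in 𝓝 z, y ≠ 0 := isOpen_ne.mem_nhds hz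
    have o2 : ∀ᶠ y : ℂ in 𝓝 z, -l < y.im :=
      (isOpen_lt continuous_const Complex.continuous_im).mem_nhds h0
    have o3 : ∀ᶠ y : ℂ in 𝓝 z, y.im < 2 * l :=
      (isOpen_lt Complex.continuous_im continuous_const).mem_nhds h1
    filter_upwards [o1, o2, o3] with y y1 y2 y3
    rw [U_eq' y1 y2 y3]
    field_simp
  exact (DifferentiableAt.div (U_diff' h0 h1) differentiableAt_id hz).congr_of_eventuallyEq hev

lemma bound_f0 {f : ℂ → ℂ} {x A c : ℝ} (hc0 : 0 ≤ c) (hx : |x| < l)
    (hb : ∀ z : ℂ, x - l ≤ z.im → z.im ≤ x + l → ‖f z‖ ≤ A * Real.exp (c * |z.re|)) :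
    0 ≤ A ∧ ∀ z : ℂ, x - l ≤ z.im → z.im ≤ x + l → ‖f z - f 0‖ ≤ 2 * A * Real.exp (c * |z.re|) := by
  rw [abs_lt] at hx
  have hf0 : ‖f 0‖ ≤ A := by simpa using hb 0 (by simp; linarith) (by simp; linarith)
  have hA : 0 ≤ A := (norm_nonneg _).trans hf0
  refine ⟨hA, fun z h1 h2 => ?_⟩
  have h5 := hb z h1 h2
  have h6 : 1 ≤ Real.exp (c * |z.re|) := Real.one_le_exp (by positivity)
  have h7 : A ≤ A * Real.exp (c * |z.re|) := le_mul_of_one_le_right hA h6
  calc _ ≤ ‖f z‖ + ‖f 0‖ := norm_sub_le _ _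
    _ ≤ _ := by linarith

lemma mul_le_exp {a b B c r : ℝ} (h1 : a ≤ 4 * Real.exp (-(8 / 3) * r))
    (h2 : b ≤ B * Real.exp (c * r)) (hb : 0 ≤ b) : a * b ≤ 4 * B * Real.exp (-(8 / 3 - c) * r) := by
  calc a * b ≤ (4 * Real.exp (-(8 / 3) * r)) * (B * Real.exp (c * r)) := by gcongr
    _ = 4 * B * (Real.exp (-(8 / 3) * r) * Real.exp (c * r)) := by ring
    _ = _ := by rw [← Real.exp_add]; congr 2; ring

/-- `∫ P = 1` on every line of the strip `|Im| < l` -/
lemma int_Pc {x : ℝ} (hx : |x| < l) : Integrable (fun s : ℝ => Pc (s + x * I)) ∧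
    ∫ s : ℝ, Pc (s + x * I) = 1 := by
  have hl := l_pos
  have hP1 : ∫ s : ℝ, Pc s = 1 := by
    simp_rw [Pc_ofReal]
    rw [integral_complex_ofReal, integral_P, Complex.ofReal_one]
  rw [abs_lt] at hx
  have hd : ∀ z : ℂ, |z.im| < l → DifferentiableAt ℂ Pc z := fun z hz => Pc_diff hz
  rcases le_total 0 x with h | h
  · obtain ⟨_, k2, k3⟩ := hshift' (Φ := Pc) (a := 0) (b := x) (C := 4) (κ := 8 / 3) h (by norm_num)
      (fun z hz => (hd z (abs_lt.2 ⟨by linarith [hz.1], by linarith [hz.2]⟩)).continuousAt.continuousWithinAt)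
      (fun z h1 h2 => hd z (abs_lt.2 ⟨by linarith, by linarith⟩))
      (fun z _ _ h3 => Pc_le h3)
    refine ⟨k2, ?_⟩
    rw [← k3, ← hP1]
    simp
  · obtain ⟨k1, _, k3⟩ := hshift' (Φ := Pc) (a := x) (b := 0) (C := 4) (κ := 8 / 3) h (by norm_num)
      (fun z hz => (hd z (abs_lt.2 ⟨by linarith [hz.1], by linarith [hz.2]⟩)).continuousAt.continuousWithinAt)
      (fun z h1 h2 => hd z (abs_lt.2 ⟨by linarith, by linarith⟩))
      (fun z _ _ h3 => Pc_le h3)
    refine ⟨k1, ?_⟩
    rw [k3, ← hP1]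
    simp

/-- **the sum rule on the line `Im = x`, `0 < x < l`** -/
theorem sum_rule_pos {f : ℂ → ℂ} {x A c : ℝ} (hx0 : 0 < x) (hx : x < l) (hc0 : 0 ≤ c)
    (hc : c < 8 / 3) (hcont : ContinuousOn f {z : ℂ | x - l ≤ z.im ∧ z.im ≤ x + l})
    (hd : ∀ z : ℂ, x - l < z.im → z.im < x + l → DifferentiableAt ℂ f z)
    (hb : ∀ z : ℂ, x - l ≤ z.im → z.im ≤ x + l → ‖f z‖ ≤ A * Real.exp (c * |z.re|)) :
    Integrable (fun s : ℝ => Pc (s + x * I) * f (s + (x + l : ℝ) * I)) ∧
    Integrable (fun s : ℝ => Pc (s + x * I) * f (s + (x - l : ℝ) * I)) ∧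
    Integrable (fun s : ℝ => Pc (s + x * I) * f (s + x * I)) ∧
    ∫ s : ℝ, Pc (s + x * I) * (f (s + (x + l : ℝ) * I) + f (s + (x - l : ℝ) * I) -
      f (s + x * I)) = f 0 := by
  have hl := l_pos
  obtain ⟨hA, hb0⟩ := bound_f0 hc0 (abs_lt.2 ⟨by linarith, hx⟩) hb
  have hκ : 0 < 8 / 3 - c := by linarith
  -- first term
  have T1 := hshift' (Φ := fun z => Pc (z - l * I) * f z) (a := x) (b := x + l) (C := 4 * A)
    (κ := 8 / 3 - c) (by linarith) hκ
    (by
      intro z hz
      have hz0 : z ≠ 0 := by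
        intro e
        have := hz.1
        rw [e] at this
        simp at this
        linarith
      refine ContinuousWithinAt.mul ?_ ?_
      · exact (Pc_ne_diff hz0 (by linarith [hz.1]) (by linarith [hz.2])).continuousAt.continuousWithinAt
      · exact (hcont z ⟨by linarith [hz.1], hz.2⟩).mono fun y hy => ⟨by linarith [hy.1], hy.2⟩)
    (by
      intro z h1 h2
      have hz0 : z ≠ 0 := by
        intro e
        rw [e] at h1
        simp at h1
        linarith
      exact (Pc_ne_diff hz0 (by linarith) (by linarith)).mul (hd z (by linarith) h2))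
    (by
      intro z h1 h2 h3
      rw [norm_mul]
      have e : (z - l * I).re = z.re := by simp
      have := Pc_le (z := z - l * I) (by rw [e]; exact h3)
      rw [e] at this
      exact mul_le_exp this (hb z (by linarith) h2) (norm_nonneg _))
  -- second term
  have hmem : {z : ℂ | x - l ≤ z.im ∧ z.im ≤ x + l} ∈ 𝓝 (0:ℂ) := by
    have o1 : {z : ℂ | x - l < z.im} ∈ 𝓝 (0:ℂ) :=
      (isOpen_lt continuous_const Complex.continuous_im).mem_nhds (by simp; linarith)
    have o2 : {z : ℂ | z.im < x + l} ∈ 𝓝 (0:ℂ) :=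
      (isOpen_lt Complex.continuous_im continuous_const).mem_nhds (by simp; linarith)
    filter_upwards [o1, o2] with y y1 y2
    exact ⟨le_of_lt y1, le_of_lt y2⟩
  have hd0 : DifferentiableAt ℂ f 0 := hd 0 (by simp; linarith) (by simp; linarith)
  set Φ : ℂ → ℂ := fun z => -U (-z) * dslope f 0 z with hΦ
  have him : ∀ z : ℂ, (-z).im = -z.im := fun z => by simp
  have hval : ∀ z : ℂ, z ≠ 0 → x - l ≤ z.im → z.im ≤ x → Φ z = Pc (z + l * I) * (f z - f 0) := by
    intro z hz h0 h1
    rw [hΦ]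
    simp only
    rw [U_eq' (neg_ne_zero.2 hz) (by rw [him]; linarith) (by rw [him]; linarith),
      dslope_of_ne _ hz, slope_def_field, sub_zero, show -z - l * I = -(z + l * I) by ring, Pc_neg]
    field_simp
  have hUd : ∀ z : ℂ, x - l ≤ z.im → z.im ≤ x → DifferentiableAt ℂ (fun z => -U (-z)) z := by
    intro z h0 h1
    have h3 : DifferentiableAt ℂ U (-z) := U_diff' (by rw [him]; linarith) (by rw [him]; linarith)
    exact (h3.comp z differentiableAt_id.neg).neg
  have T2 := hshift' (Φ := Φ) (a := x - l) (b := x) (C := 4 * (2 * A)) (κ := 8 / 3 - c)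
    (by linarith) hκ
    (by
      refine ContinuousOn.mul ?_ ?_
      · intro z hz
        exact (hUd z hz.1 hz.2).continuousAt.continuousWithinAt
      · exact ((continuousOn_dslope hmem).2 ⟨hcont, hd0⟩).mono fun z hz =>
          ⟨hz.1, by linarith [hz.2]⟩)
    (by
      intro z h1 h2
      by_cases hz : z = 0
      · have hd1 : DifferentiableAt ℂ (dslope f 0) z := by
          have hD : DifferentiableOn ℂ (dslope f 0) {z : ℂ | x - l < z.im ∧ z.im < x + l} := by
            have ho : IsOpen {z : ℂ | x - l < z.im ∧ z.im < x + l} :=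
              (isOpen_lt continuous_const Complex.continuous_im).inter
                (isOpen_lt Complex.continuous_im continuous_const)
            refine (Complex.differentiableOn_dslope (ho.mem_nhds ?_)).2 fun y hy =>
              (hd y hy.1 hy.2).differentiableWithinAt
            refine ⟨?_, ?_⟩ <;> simp <;> linarith
          have ho : IsOpen {z : ℂ | x - l < z.im ∧ z.im < x + l} :=
            (isOpen_lt continuous_const Complex.continuous_im).inter
              (isOpen_lt Complex.continuous_im continuous_const)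
          exact (hD z ⟨h1, by linarith⟩).differentiableAt (ho.mem_nhds ⟨h1, by linarith⟩)
        exact (hUd z h1.le h2.le).mul hd1
      · exact (hUd z h1.le h2.le).mul ((differentiableAt_dslope_of_ne hz).2
          (hd z h1 (by linarith))))
    (by
      intro z h1 h2 h3
      have hz : z ≠ 0 := by
        intro e
        rw [e] at h3
        simp at h3
        linarith
      rw [hval z hz h1 h2, norm_mul]
      have e : (z + l * I).re = z.re := by simp
      have := Pc_le (z := z + l * I) (by rw [e]; exact h3)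
      rw [e] at this
      exact mul_le_exp this (hb0 z h1 (by linarith)) (norm_nonneg _))
  obtain ⟨a1, a2, a3⟩ := T1
  obtain ⟨b1, b2, b3⟩ := T2
  have hx' : |x| < l := abs_lt.2 ⟨by linarith, hx⟩
  have hxl : |x - l| < l := abs_lt.2 ⟨by linarith, by linarith⟩
  obtain ⟨p1, p2⟩ := int_Pc hx'
  obtain ⟨p3, p4⟩ := int_Pc hxl
  -- the terms on the line `x`
  have hne : ∀ s : ℝ, (s : ℂ) + x * I ≠ 0 := by
    intro s e
    have := congrArg Complex.im e
    simp at this
    exact hx0.ne' this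
  have hneq : ∀ s : ℝ, (s : ℂ) + (x - l : ℝ) * I ≠ 0 := by
    intro s e
    have := congrArg Complex.im e
    simp at this
    linarith
  have g1 : (fun s : ℝ => Pc (((s : ℂ) + (x + l : ℝ) * I) - l * I) * f (s + (x + l : ℝ) * I)) =
      fun s : ℝ => Pc (s + x * I) * f (s + (x + l : ℝ) * I) := by
    funext s
    congr 2
    push_cast
    ring
  have g2 : (fun s : ℝ => Φ (s + (x - l : ℝ) * I)) =
      fun s : ℝ => Pc (s + x * I) * (f (s + (x - l : ℝ) * I) - f 0) := by
    funext s
    rw [hval _ (hneq s) (by simp) (by simp; linarith)]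
    congr 2
    push_cast
    ring
  have g3 : (fun s : ℝ => Φ (s + x * I)) =
      fun s : ℝ => Pc (s + x * I + l * I) * (f (s + x * I) - f 0) := by
    funext s
    rw [hval _ (hne s) (by simp; linarith) (by simp)]
  have g4 : ∀ s : ℝ, Pc (s + (x - l : ℝ) * I) = Pc (s + x * I - l * I) := by
    intro s
    congr 1
    push_cast
    ring
  rw [g1] at a2 a3
  rw [g2] at b1 b3
  rw [g3] at b2 b3
  have hrule : ∀ s : ℝ, Pc (s + x * I - l * I) + Pc (s + x * I + l * I) = Pc (s + x * I) := by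
    intro s
    have h1 : |((s : ℂ) + x * I).im| < l := by simpa using hx'
    exact Pc_ruleC (sinh83_ne (hne s) h1) (den83_ne h1)
  -- integral of `Pc (s + x I + l I)`
  have p5 : Integrable (fun s : ℝ => Pc (s + x * I + l * I)) ∧
      ∫ s : ℝ, Pc (s + x * I + l * I) = 0 := by
    have e : (fun s : ℝ => Pc (s + x * I + l * I)) =
        fun s : ℝ => Pc (s + x * I) - Pc (s + (x - l : ℝ) * I) := by
      funext s
      rw [g4 s, ← hrule s]
      ring
    rw [e]
    refine ⟨p1.sub p3, ?_⟩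
    rw [integral_sub p1 p3, p2, p4, sub_self]
  have c2 : Integrable (fun s : ℝ => Pc (s + x * I) * f (s + (x - l : ℝ) * I)) := by
    refine (b1.add (p1.mul_const (f 0))).congr (Eventually.of_forall fun s => ?_)
    simp only [Pi.add_apply]
    ring
  have c2' : Integrable (fun s : ℝ => Pc (s + x * I + l * I) * f (s + x * I)) := by
    refine (b2.add (p5.1.mul_const (f 0))).congr (Eventually.of_forall fun s => ?_)
    simp only [Pi.add_apply]
    ring
  have c3 : Integrable (fun s : ℝ => Pc (s + x * I) * f (s + x * I)) := by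
    refine (a1.add c2').congr (Eventually.of_forall fun s => ?_)
    simp only [Pi.add_apply]
    rw [← add_mul, hrule s]
  refine ⟨a2, c2, c3, ?_⟩
  have e1 : ∫ s : ℝ, Pc (s + x * I) * (f (s + (x + l : ℝ) * I) + f (s + (x - l : ℝ) * I) -
      f (s + x * I)) = (∫ s : ℝ, Pc (s + x * I) * f (s + (x + l : ℝ) * I)) +
      (∫ s : ℝ, Pc (s + x * I) * f (s + (x - l : ℝ) * I)) - ∫ s : ℝ, Pc (s + x * I) * f (s + x * I) := by
    have h1 := integral_add a2 c2
    have h2 := integral_sub (a2.add c2) c3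
    simp only [Pi.add_apply] at h2
    rw [← h1, ← h2]
    refine integral_congr_ae (Eventually.of_forall fun s => ?_)
    ring_nf
  have e2 : ∫ s : ℝ, Pc (s + x * I) * f (s + (x - l : ℝ) * I) =
      (∫ s : ℝ, Pc (s + x * I + l * I) * f (s + x * I)) + f 0 := by
    have h1 : ∫ s : ℝ, Pc (s + x * I) * (f (s + (x - l : ℝ) * I) - f 0) =
        (∫ s : ℝ, Pc (s + x * I) * f (s + (x - l : ℝ) * I)) - f 0 := by
      have h2 := integral_sub c2 (p1.mul_const (f 0))
      rw [integral_mul_const, p2, one_mul] at h2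
      rw [← h2]
      refine integral_congr_ae (Eventually.of_forall fun s => ?_)
      ring
    have h3 : ∫ s : ℝ, Pc (s + x * I + l * I) * (f (s + x * I) - f 0) =
        ∫ s : ℝ, Pc (s + x * I + l * I) * f (s + x * I) := by
      have h2 := integral_sub c2' (p5.1.mul_const (f 0))
      rw [integral_mul_const, p5.2, zero_mul, sub_zero] at h2
      rw [← h2]
      refine integral_congr_ae (Eventually.of_forall fun s => ?_)
      ring
    rw [← h3, ← b3, h1]
    ring
  have e3 : ∫ s : ℝ, Pc (s + x * I) * f (s + x * I) =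
      (∫ s : ℝ, Pc (s + x * I - l * I) * f (s + x * I)) +
      ∫ s : ℝ, Pc (s + x * I + l * I) * f (s + x * I) := by
    rw [← integral_add a1 c2']
    refine integral_congr_ae (Eventually.of_forall fun s => ?_)
    simp only
    rw [← add_mul, hrule s]
  rw [e1, e2, e3, ← a3]
  ring

/-- **The sum rule on the line `Im = x`, `|x| < l`.** -/
theorem sum_ruleX {f : ℂ → ℂ} {x A c : ℝ} (hx : |x| < l) (hc0 : 0 ≤ c)
    (hc : c < 8 / 3) (hcont : ContinuousOn f {z : ℂ | x - l ≤ z.im ∧ z.im ≤ x + l})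
    (hd : ∀ z : ℂ, x - l < z.im → z.im < x + l → DifferentiableAt ℂ f z)
    (hb : ∀ z : ℂ, x - l ≤ z.im → z.im ≤ x + l → ‖f z‖ ≤ A * Real.exp (c * |z.re|)) :
    Integrable (fun s : ℝ => Pc (s + x * I) * f (s + (x + l : ℝ) * I)) ∧
    Integrable (fun s : ℝ => Pc (s + x * I) * f (s + (x - l : ℝ) * I)) ∧
    Integrable (fun s : ℝ => Pc (s + x * I) * f (s + x * I)) ∧
    ∫ s : ℝ, Pc (s + x * I) * (f (s + (x + l : ℝ) * I) + f (s + (x - l : ℝ) * I) -
      f (s + x * I)) = f 0 := by
  rcases lt_trichotomy x 0 with h | h | h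
  · -- reflection
    rw [abs_of_neg h] at hx
    obtain ⟨k1, k2, k3, k4⟩ := sum_rule_pos (f := fun z => f (-z)) (x := -x) (A := A) (c := c)
      (by linarith) hx hc0 hc
      (by
        refine hcont.comp continuous_neg.continuousOn ?_
        intro z hz
        refine ⟨?_, ?_⟩ <;> rw [neg_im] <;> linarith [hz.1, hz.2])
      (by
        intro z h1 h2
        have h3 : DifferentiableAt ℂ f (-z) := hd (-z) (by rw [neg_im]; linarith)
          (by rw [neg_im]; linarith)
        exact h3.comp z differentiableAt_id.neg)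
      (by
        intro z h1 h2
        have := hb (-z) (by rw [neg_im]; linarith) (by rw [neg_im]; linarith)
        simpa using this)
    have e0 : ∀ s : ℝ, Pc (((-s : ℝ) : ℂ) + ((-x : ℝ) : ℂ) * I) = Pc (s + x * I) := by
      intro s
      rw [← Pc_neg]
      congr 1
      push_cast
      ring
    have e1 : ∀ s : ℝ, f (-(((-s : ℝ) : ℂ) + ((-x + l : ℝ) : ℂ) * I)) = f (s + (x - l : ℝ) * I) := by
      intro s
      congr 1
      push_cast
      ring
    have e2 : ∀ s : ℝ, f (-(((-s : ℝ) : ℂ) + ((-x - l : ℝ) : ℂ) * I)) = f (s + (x + l : ℝ) * I) := by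
      intro s
      congr 1
      push_cast
      ring
    have e3 : ∀ s : ℝ, f (-(((-s : ℝ) : ℂ) + ((-x : ℝ) : ℂ) * I)) = f (s + x * I) := by
      intro s
      congr 1
      push_cast
      ring
    have m1 := k1.comp_neg
    have m2 := k2.comp_neg
    have m3 := k3.comp_neg
    simp only [e0, e1, e2, e3] at m1 m2 m3
    refine ⟨m2, m1, m3, ?_⟩
    rw [neg_zero] at k4
    rw [← k4, ← integral_neg_eq_self]
    refine integral_congr_ae (Eventually.of_forall fun s => ?_)
    have e4 : ∀ s : ℝ, Pc (((-s : ℝ) : ℂ) + (x : ℂ) * I) = Pc (s + ((-x : ℝ) : ℂ) * I) := by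
      intro s
      rw [← Pc_neg]
      congr 1
      push_cast
      ring
    have e5 : f (((-s : ℝ) : ℂ) + (x + l : ℝ) * I) = f (-((s : ℂ) + (-x - l : ℝ) * I)) := by
      congr 1
      push_cast
      ring
    have e6 : f (((-s : ℝ) : ℂ) + (x - l : ℝ) * I) = f (-((s : ℂ) + (-x + l : ℝ) * I)) := by
      congr 1
      push_cast
      ring
    have e7 : f (((-s : ℝ) : ℂ) + (x : ℂ) * I) = f (-((s : ℂ) + ((-x : ℝ) : ℂ) * I)) := by
      congr 1
      push_cast
      ring
    simp only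
    rw [e4, e5, e6, e7]
    ring
  · subst h
    obtain ⟨k1, k2, k3, k4⟩ := sum_rule (f := f) (A := A) (c := c) hc0 hc
      (hcont.mono fun z hz => by
        have : |z.im| ≤ l := hz
        rw [abs_le] at this
        exact ⟨by linarith [this.1], by linarith [this.2]⟩)
      (fun z hz => by
        rw [abs_lt] at hz
        exact hd z (by linarith [hz.1]) (by linarith [hz.2]))
      (fun z hz => by
        rw [abs_le] at hz
        exact hb z (by linarith [hz.1]) (by linarith [hz.2]))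
    have e0 : ∀ s : ℝ, Pc ((s : ℂ) + ((0 : ℝ) : ℂ) * I) = (P s : ℂ) := fun s => by
      rw [← Pc_ofReal]
      simp
    have e1 : ∀ s : ℝ, f ((s : ℂ) + ((0 + l : ℝ) : ℂ) * I) = f (s + l * I) := fun s => by simp
    have e2 : ∀ s : ℝ, f ((s : ℂ) + ((0 - l : ℝ) : ℂ) * I) = f (s - l * I) := fun s => by
      congr 1
      push_cast
      ring
    have e3 : ∀ s : ℝ, f ((s : ℂ) + ((0 : ℝ) : ℂ) * I) = f s := fun s => by simp
    simp only [e0, e1, e2, e3]
    exact ⟨k1, k2, k3, k4⟩
  · exact sum_rule_pos h (by rwa [abs_of_pos h] at hx) hc0 hc hcont hd hb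

end

end Pool.Agent.PB
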