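import Mathlib

/-!
# Plan B, (TR): the path `s ∈ [0, 1]` from the dislocated to the regular function, exponents

* `ray_w`: `‖F 1 - exp (p + q / 2) F 0‖ ≤ B` if `exp (Re (G 1 - G s)) ‖F' s - (s q + p) F s‖ ≤ B`,
  `G s = s p + s ^ 2 q / 2`;
* `lam_le`: the linear form of the exponents is at most `-2 max |t1| |t2|` for every `s ∈ [0, 1]`;
* `h3`: the conclusion (H3) for the near set `mT t ≤ (3 / 8 + d) log k`, the masses explicit;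
* `h3m`: the same with a mass function `m k t s`: convexity `hm` (Hoelder) and the two end masses `h0`
  (dislocated function, legs at height `(t.1 + t.2) / 2`), `h1` (main class of the regular function);
* `h3R`: `h3` for `R`, `f` at the two ends up to errors.

Inputs of `h3`: kernel `hA`; Gaussian `hG`, `hp`; derivative `hF`; the second Ward identity `hE` with the
remainder `Er k M`, `M = max |t.1| |t.2|`, times the mass `exp |t.1 + t.2| ^ (1 - s) * (exp (-mT) / |k1|) ^ s`, for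
ONE exponent `e` (`c1 + e < 3 / 4` in `h3`, `c1 + 3 e < 3 / 4` in `h3m`).
-/

set_option autoImplicit false

open Filter Set

namespace PBTs

/-! ### the ray -/

theorem ray_w {F F' : ℝ → ℂ} {p q : ℂ} {B : ℝ}
    (hF : ∀ s ∈ Icc (0 : ℝ) 1, HasDerivAt F (F' s) s)
    (hB : ∀ s ∈ Icc (0 : ℝ) 1, Real.exp (((p + q / 2) - (s * p + (s : ℂ) ^ 2 * q / 2)).re) *
      ‖F' s - (s * q + p) * F s‖ ≤ B) :
    ‖F 1 - Complex.exp (p + q / 2) * F 0‖ ≤ B := by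
  set H : ℝ → ℂ := fun s => Complex.exp ((p + q / 2) - (s * p + (s : ℂ) ^ 2 * q / 2)) * F s with hH
  have hd : ∀ s ∈ Icc (0 : ℝ) 1, HasDerivWithinAt H
      (Complex.exp ((p + q / 2) - (s * p + (s : ℂ) ^ 2 * q / 2)) * (F' s - (s * q + p) * F s))
      (Icc 0 1) s := by
    intro s hs
    have h1 : HasDerivAt (fun x : ℝ => (x : ℂ)) 1 s := Complex.ofRealCLM.hasDerivAt
    have h2 : HasDerivAt (fun x : ℝ => (p + q / 2) - ((x : ℂ) * p + (x : ℂ) ^ 2 * q / 2))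
        (-(1 * p + (2 * (s : ℂ) ^ (2 - 1) * 1) * q / 2)) s := by
      have h3 := ((h1.mul_const p).add (((h1.pow 2).mul_const q).div_const 2)).const_sub (p + q / 2)
      simpa using h3
    have h4 := (h2.cexp.mul (hF s hs)).hasDerivWithinAt (s := Icc (0 : ℝ) 1)
    refine h4.congr_deriv ?_
    simp only [Nat.reduceSub, pow_one]
    ring
  have hb : ∀ s ∈ Ico (0 : ℝ) 1,
      ‖Complex.exp ((p + q / 2) - (s * p + (s : ℂ) ^ 2 * q / 2)) * (F' s - (s * q + p) * F s)‖ ≤ B := by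
    intro s hs
    rw [norm_mul, Complex.norm_exp]
    exact hB s ⟨hs.1, hs.2.le⟩
  have key := norm_image_sub_le_of_norm_deriv_le_segment_01' hd hb
  have e1 : H 1 = F 1 := by
    simp only [hH, Complex.ofReal_one, one_mul, one_pow, sub_self, Complex.exp_zero]
  have e0 : H 0 = Complex.exp (p + q / 2) * F 0 := by
    simp only [hH, Complex.ofReal_zero, zero_mul]
    norm_num
  rwa [e1, e0] at key

/-! ### the linear form -/

theorem lam_le (t1 t2 s : ℝ) (h0 : 0 ≤ s) (h1 : s ≤ 1) :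
    (1 - s) * (-(|t1| + |t2| + |t1 - t2|) + |t1 + t2|) + s * (-(2 * |t1| + 2 * |t2| + |t1 - t2| / 2)) +
      (1 - s) * ((1 + s) * (-2 * |t1| - 2 * |t2| + |t1 - t2|) -
        s * (2 * |t1 + t2| - |3 * t1 + t2| / 2 - |t1 + 3 * t2| / 2)) ≤ -2 * max |t1| |t2| := by
  have a1 : |3 * t1 + t2| ≤ |t1 + t2| + 2 * |t1| := by
    have := abs_add_le (t1 + t2) (2 * t1)
    rw [abs_mul, abs_two] at this
    have e : t1 + t2 + 2 * t1 = 3 * t1 + t2 := by ring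
    rwa [e] at this
  have a2 : |t1 + 3 * t2| ≤ |t1 + t2| + 2 * |t2| := by
    have := abs_add_le (t1 + t2) (2 * t2)
    rw [abs_mul, abs_two] at this
    have e : t1 + t2 + 2 * t2 = t1 + 3 * t2 := by ring
    rwa [e] at this
  have a3 : |t1 - t2| ≤ |t1| + |t2| := by
    have := abs_sub t1 t2
    linarith
  have a4 : |t1 + t2| ≤ |t1| + |t2| := abs_add_le _ _
  have b1 := abs_nonneg t1
  have b2 := abs_nonneg t2
  have b3 := abs_nonneg (t1 - t2)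
  have b4 := abs_nonneg (t1 + t2)
  have hM : max |t1| |t2| ≤ |t1| + |t2| := max_le (by linarith) (by linarith)
  set u := |t1|
  set v := |t2|
  set D := |t1 - t2|
  set A := |t1 + t2|
  set X1 := |3 * t1 + t2|
  set X2 := |t1 + 3 * t2|
  have e : (1 - s) * (-(u + v + D) + A) + s * (-(2 * u + 2 * v + D / 2)) +
      (1 - s) * ((1 + s) * (-2 * u - 2 * v + D) - s * (2 * A - X1 / 2 - X2 / 2)) =
      (1 - s) * (-3 * u - 3 * v + A) + s * (-2 * u - 2 * v - D / 2) +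
        s * (1 - s) * ((-2 * u - 2 * v + D) - (2 * A - X1 / 2 - X2 / 2)) := by ring
  rw [e]
  have c1 : (1 - s) * (-3 * u - 3 * v + A) ≤ (1 - s) * (-2 * (u + v)) :=
    mul_le_mul_of_nonneg_left (by linarith) (by linarith)
  have c2 : s * (-2 * u - 2 * v - D / 2) ≤ s * (-2 * (u + v)) :=
    mul_le_mul_of_nonneg_left (by linarith) h0
  have c3 : s * (1 - s) * ((-2 * u - 2 * v + D) - (2 * A - X1 / 2 - X2 / 2)) ≤ 0 :=
    mul_nonpos_of_nonneg_of_nonpos (mul_nonneg h0 (by linarith)) (by linarith)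
  linarith

/-- `-(1 - s) (u + v + D - A)`, `-s mT`, Gaussian: upper bound of the exponents at one point -/
theorem re_G {p q : ℂ} {X Y C s : ℝ} (hG : (p + q / 2).re ≤ X + C) (hp : Y - C ≤ p.re) (hC : 0 ≤ C)
    (h0 : 0 ≤ s) (h1 : s ≤ 1) :
    ((p + q / 2) - (s * p + (s : ℂ) ^ 2 * q / 2)).re ≤ (1 - s) * ((1 + s) * X - s * Y) + 2 * C := by
  have e : (p + q / 2) - (s * p + (s : ℂ) ^ 2 * q / 2) =
      (((1 - s) * (1 + s) : ℝ) : ℂ) * (p + q / 2) - (((1 - s) * s : ℝ) : ℂ) * p := by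
    push_cast
    ring
  rw [e, Complex.sub_re, Complex.re_ofReal_mul, Complex.re_ofReal_mul]
  have c1 : (1 - s) * (1 + s) * (p + q / 2).re ≤ (1 - s) * (1 + s) * (X + C) :=
    mul_le_mul_of_nonneg_left hG (mul_nonneg (by linarith) (by linarith))
  have c2 : (1 - s) * s * (Y - C) ≤ (1 - s) * s * p.re :=
    mul_le_mul_of_nonneg_left hp (mul_nonneg (by linarith) h0)
  have c3 : (1 - s) * (1 + s) * C + (1 - s) * s * C ≤ 2 * C := by nlinarith [mul_nonneg h0 hC, mul_nonneg (mul_nonneg h0 h0) hC, mul_nonneg (sq_nonneg (s - 1 / 4)) hC]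
  nlinarith

/-! ### the mass -/

theorem mass_le {K m0 m1 ms s a0 a1 X0 X1 : ℝ} (hK : 0 < K) (h0 : 0 ≤ s) (h1 : s ≤ 1)
    (hm0 : 0 ≤ m0) (hm1 : 0 ≤ m1) (hms : ms ≤ m0 ^ (1 - s) * m1 ^ s)
    (ha0 : 1 ≤ a0) (ha1 : 1 ≤ a1) (b0 : K * m0 ≤ a0 * Real.exp X0) (b1 : K * m1 ≤ a1 * Real.exp X1) :
    K * ms ≤ a0 * a1 * Real.exp ((1 - s) * X0 + s * X1) := by
  have e1 : K * (m0 ^ (1 - s) * m1 ^ s) = (K * m0) ^ (1 - s) * (K * m1) ^ s := by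
    rw [Real.mul_rpow hK.le hm0, Real.mul_rpow hK.le hm1]
    have : K = K ^ (1 - s) * K ^ s := by
      rw [← Real.rpow_add hK, sub_add_cancel, Real.rpow_one]
    nth_rewrite 1 [this]
    ring
  have c0 : (K * m0) ^ (1 - s) ≤ a0 * Real.exp ((1 - s) * X0) := by
    calc (K * m0) ^ (1 - s) ≤ (a0 * Real.exp X0) ^ (1 - s) :=
          Real.rpow_le_rpow (by positivity) b0 (by linarith)
      _ = a0 ^ (1 - s) * Real.exp ((1 - s) * X0) := by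
          rw [Real.mul_rpow (by linarith) (Real.exp_pos _).le, ← Real.exp_mul, mul_comm X0]
      _ ≤ a0 ^ (1 : ℝ) * Real.exp ((1 - s) * X0) :=
          mul_le_mul_of_nonneg_right (Real.rpow_le_rpow_of_exponent_le ha0 (by linarith))
            (Real.exp_pos _).le
      _ = _ := by rw [Real.rpow_one]
  have c1 : (K * m1) ^ s ≤ a1 * Real.exp (s * X1) := by
    calc (K * m1) ^ s ≤ (a1 * Real.exp X1) ^ s :=
          Real.rpow_le_rpow (by positivity) b1 h0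
      _ = a1 ^ s * Real.exp (s * X1) := by
          rw [Real.mul_rpow (by linarith) (Real.exp_pos _).le, ← Real.exp_mul, mul_comm X1]
      _ ≤ a1 ^ (1 : ℝ) * Real.exp (s * X1) :=
          mul_le_mul_of_nonneg_right (Real.rpow_le_rpow_of_exponent_le ha1 h1) (Real.exp_pos _).le
      _ = _ := by rw [Real.rpow_one]
  calc K * ms ≤ K * (m0 ^ (1 - s) * m1 ^ s) := mul_le_mul_of_nonneg_left hms hK.le
    _ = (K * m0) ^ (1 - s) * (K * m1) ^ s := e1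
    _ ≤ (a0 * Real.exp ((1 - s) * X0)) * (a1 * Real.exp (s * X1)) :=
        mul_le_mul c0 c1 (by positivity) (by positivity)
    _ = _ := by rw [Real.exp_add]; ring

/-! ### (H3) -/

/-- the exponent of the near set -/
noncomputable def mT (t : ℝ × ℝ) : ℝ := 2 * |t.1| + 2 * |t.2| + |t.1 - t.2| / 2

/-- remainder of the second Ward identity of the statistic, up to `k ^ e` and the mass -/
noncomputable def Er (κ M : ℝ) : ℝ :=
  κ ^ (-(3 / 4) : ℝ) * Real.exp (2 * M) + κ ^ (-(87 / 100) : ℝ) * Real.exp (5 / 2 * M) +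
    κ ^ (-1 : ℝ) * Real.exp (8 / 3 * M)

theorem Er_nonneg {κ M : ℝ} (h : 0 ≤ κ) : 0 ≤ Er κ M := by
  unfold Er
  positivity

/-- the remainder times `exp (-2 M)` -/
theorem Er_mul_le {κ M d : ℝ} (hκ : 1 ≤ κ) (hd : d ≤ 1 / 10) (hM : 2 * M ≤ (3 / 8 + d) * Real.log κ) :
    Er κ M * Real.exp (-2 * M) ≤ 3 * κ ^ (-(3 / 4) : ℝ) := by
  have hκ0 : 0 < κ := by linarith
  have h3 : 0 ≤ Real.log κ := Real.log_nonneg hκ
  have g2 : κ ^ (-(87 / 100) : ℝ) * Real.exp (1 / 2 * M) ≤ κ ^ (-(3 / 4) : ℝ) := by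
    rw [Real.rpow_def_of_pos hκ0, Real.rpow_def_of_pos hκ0, ← Real.exp_add]
    exact Real.exp_le_exp.2 (by nlinarith)
  have g3 : κ ^ (-1 : ℝ) * Real.exp (2 / 3 * M) ≤ κ ^ (-(3 / 4) : ℝ) := by
    rw [Real.rpow_def_of_pos hκ0, Real.rpow_def_of_pos hκ0, ← Real.exp_add]
    exact Real.exp_le_exp.2 (by nlinarith)
  have e1 : Real.exp (2 * M) * Real.exp (-2 * M) = 1 := by
    rw [← Real.exp_add, show 2 * M + -2 * M = 0 by ring, Real.exp_zero]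
  have e2 : Real.exp (5 / 2 * M) * Real.exp (-2 * M) = Real.exp (1 / 2 * M) := by
    rw [← Real.exp_add]
    congr 1
    ring
  have e3 : Real.exp (8 / 3 * M) * Real.exp (-2 * M) = Real.exp (2 / 3 * M) := by
    rw [← Real.exp_add]
    congr 1
    ring
  calc Er κ M * Real.exp (-2 * M) = κ ^ (-(3 / 4) : ℝ) * (Real.exp (2 * M) * Real.exp (-2 * M)) +
        κ ^ (-(87 / 100) : ℝ) * (Real.exp (5 / 2 * M) * Real.exp (-2 * M)) +
        κ ^ (-1 : ℝ) * (Real.exp (8 / 3 * M) * Real.exp (-2 * M)) := by unfold Er; ring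
    _ ≤ 3 * κ ^ (-(3 / 4) : ℝ) := by rw [e1, e2, e3]; linarith

theorem max_le_mT (t : ℝ × ℝ) : 2 * max |t.1| |t.2| ≤ mT t := by
  have b1 := abs_nonneg t.1
  have b2 := abs_nonneg t.2
  have b3 := abs_nonneg (t.1 - t.2)
  have hM : max |t.1| |t.2| ≤ |t.1| + |t.2| := max_le (by linarith) (by linarith)
  unfold mT
  linarith

/-- one point of the near set -/
theorem h3_pt {k1 : ℂ} {F F' : ℝ → ℂ} {p q : ℂ} {m : ℝ → ℝ} {A C d e e0 e1 κ : ℝ} {t : ℝ × ℝ}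
    (hA1 : 1 ≤ A) (hC : 0 ≤ C) (hd : d ≤ 1 / 10) (hκ : 1 ≤ κ) (he0 : 0 ≤ e0) (he1 : 0 ≤ e1)
    (ht : mT t ≤ (3 / 8 + d) * Real.log κ)
    (hA : ‖k1‖ ≤ A * Real.exp (-(|t.1| + |t.2| + |t.1 - t.2|)))
    (hG : (p + q / 2).re ≤ (-2 * |t.1| - 2 * |t.2| + |t.1 - t.2|) + C)
    (hp : (2 * |t.1 + t.2| - |3 * t.1 + t.2| / 2 - |t.1 + 3 * t.2| / 2) - C ≤ p.re)
    (hF : ∀ s ∈ Icc (0 : ℝ) 1, HasDerivAt F (F' s) s)
    (hE : ∀ s ∈ Icc (0 : ℝ) 1, ‖F' s - (s * q + p) * F s‖ ≤ κ ^ e * Er κ (max |t.1| |t.2|) * m s)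
    (hm0 : ∀ s ∈ Icc (0 : ℝ) 1, 0 ≤ m s)
    (hm : ∀ s ∈ Icc (0 : ℝ) 1, m s ≤ (m 0) ^ (1 - s) * (m 1) ^ s)
    (h0 : m 0 ≤ κ ^ e0 * Real.exp |t.1 + t.2|)
    (h1 : ‖k1‖ * m 1 ≤ κ ^ e1 * Real.exp (-mT t)) :
    ‖k1‖ * ‖F 1 - Complex.exp (p + q / 2) * F 0‖ ≤
      3 * A * Real.exp (2 * C) * κ ^ (e + e0 + e1 - 3 / 4) := by
  have hκ0 : 0 < κ := by linarith
  have hke0 : 1 ≤ κ ^ e0 := Real.one_le_rpow hκ he0
  have hke1 : 1 ≤ κ ^ e1 := Real.one_le_rpow hκ he1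
  rcases (norm_nonneg k1).eq_or_lt with hk | hk
  · rw [← hk, zero_mul]
    positivity
  set M := max |t.1| |t.2| with hM
  have herr : Er κ M * Real.exp (-2 * M) ≤ 3 * κ ^ (-(3 / 4) : ℝ) :=
    Er_mul_le hκ hd ((max_le_mT t).trans ht)
  have key : ∀ s ∈ Icc (0 : ℝ) 1,
      Real.exp (((p + q / 2) - (s * p + (s : ℂ) ^ 2 * q / 2)).re) * ‖F' s - (s * q + p) * F s‖ ≤
        3 * A * Real.exp (2 * C) * κ ^ (e + e0 + e1 - 3 / 4) / ‖k1‖ := by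
    intro s hs
    rw [le_div_iff₀ hk]
    have g := re_G (s := s) hG hp hC hs.1 hs.2
    have lam := lam_le t.1 t.2 s hs.1 hs.2
    rw [← hM] at lam
    have i0 : (0 : ℝ) ∈ Icc (0 : ℝ) 1 := ⟨le_rfl, zero_le_one⟩
    have i1 : (1 : ℝ) ∈ Icc (0 : ℝ) 1 := ⟨zero_le_one, le_rfl⟩
    have c0 : ‖k1‖ * m 0 ≤ (A * κ ^ e0) * Real.exp (-(|t.1| + |t.2| + |t.1 - t.2|) + |t.1 + t.2|) := by
      calc ‖k1‖ * m 0 ≤ (A * Real.exp (-(|t.1| + |t.2| + |t.1 - t.2|))) *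
            (κ ^ e0 * Real.exp |t.1 + t.2|) :=
            mul_le_mul hA h0 (hm0 0 i0) (by positivity)
        _ = _ := by rw [Real.exp_add]; ring
    have hmass := mass_le (a0 := A * κ ^ e0) (a1 := κ ^ e1) hk hs.1 hs.2 (hm0 0 i0) (hm0 1 i1) (hm s hs)
      (by nlinarith) hke1 c0 h1
    -- assemble
    set X0 := -(|t.1| + |t.2| + |t.1 - t.2|) + |t.1 + t.2| with hX0
    have hEr0 : 0 ≤ Er κ M := Er_nonneg hκ0.le
    have hG0 : Real.exp (((p + q / 2) - (s * p + (s : ℂ) ^ 2 * q / 2)).re) ≤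
        Real.exp ((1 - s) * ((1 + s) * (-2 * |t.1| - 2 * |t.2| + |t.1 - t.2|) -
          s * (2 * |t.1 + t.2| - |3 * t.1 + t.2| / 2 - |t.1 + 3 * t.2| / 2)) + 2 * C) :=
      Real.exp_le_exp.2 g
    set GG := (1 - s) * ((1 + s) * (-2 * |t.1| - 2 * |t.2| + |t.1 - t.2|) -
          s * (2 * |t.1 + t.2| - |3 * t.1 + t.2| / 2 - |t.1 + 3 * t.2| / 2)) with hGG
    have lam' : (1 - s) * X0 + s * (-mT t) + GG ≤ -2 * M := by
      unfold mT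
      exact lam
    calc Real.exp (((p + q / 2) - (s * p + (s : ℂ) ^ 2 * q / 2)).re) * ‖F' s - (s * q + p) * F s‖ * ‖k1‖
        ≤ Real.exp (GG + 2 * C) * (κ ^ e * Er κ M * m s) * ‖k1‖ := by
          gcongr
          exact hE s hs
      _ = Real.exp (GG + 2 * C) * κ ^ e * Er κ M * (‖k1‖ * m s) := by ring
      _ ≤ Real.exp (GG + 2 * C) * κ ^ e * Er κ M *
          ((A * κ ^ e0) * κ ^ e1 * Real.exp ((1 - s) * X0 + s * (-mT t))) := by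
          gcongr
      _ = A * Real.exp (2 * C) * (κ ^ e * κ ^ e0 * κ ^ e1) *
          (Er κ M * Real.exp ((1 - s) * X0 + s * (-mT t) + GG)) := by
          rw [Real.exp_add GG, Real.exp_add _ GG]
          ring
      _ ≤ A * Real.exp (2 * C) * (κ ^ e * κ ^ e0 * κ ^ e1) * (Er κ M * Real.exp (-2 * M)) := by
          gcongr
      _ ≤ A * Real.exp (2 * C) * (κ ^ e * κ ^ e0 * κ ^ e1) * (3 * κ ^ (-(3 / 4) : ℝ)) := by
          gcongr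
      _ = 3 * A * Real.exp (2 * C) * κ ^ (e + e0 + e1 - 3 / 4) := by
          have e4 : κ ^ (e + e0 + e1 - 3 / 4) = κ ^ e * κ ^ e0 * κ ^ e1 * κ ^ (-(3 / 4) : ℝ) := by
            rw [← Real.rpow_add hκ0, ← Real.rpow_add hκ0, ← Real.rpow_add hκ0]
            congr 1
          rw [e4]
          ring
  have fin := ray_w hF key
  rw [le_div_iff₀ hk] at fin
  linarith [mul_comm ‖k1‖ ‖F 1 - Complex.exp (p + q / 2) * F 0‖]

/-- **(H3)**: on the near set the regular main class is the Gaussian factor times the dislocated function,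
up to `k ^ (-c1)`, for every `c1 < 3 / 4 - e`; the mass of the class sum at `s` is
`exp |t.1 + t.2| ^ (1 - s) * (exp (-mT t) / ‖k1 t‖) ^ s`. -/
theorem h3 {k1 : ℝ × ℝ → ℂ} {F F' : ℕ → ℝ × ℝ → ℝ → ℂ} {p q : ℝ × ℝ → ℂ}
    {A C d c1 e : ℝ} (hd : d ≤ 1 / 10) (hc1 : c1 + e < 3 / 4)
    (hA : ∀ t : ℝ × ℝ, ‖k1 t‖ ≤ A * Real.exp (-(|t.1| + |t.2| + |t.1 - t.2|)))
    (hG : ∀ t : ℝ × ℝ, (p t + q t / 2).re ≤ (-2 * |t.1| - 2 * |t.2| + |t.1 - t.2|) + C)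
    (hp : ∀ t : ℝ × ℝ, (2 * |t.1 + t.2| - |3 * t.1 + t.2| / 2 - |t.1 + 3 * t.2| / 2) - C ≤ (p t).re)
    (hF : ∀ᶠ k : ℕ in atTop, ∀ t : ℝ × ℝ, mT t ≤ (3 / 8 + d) * Real.log k →
      ∀ s ∈ Icc (0 : ℝ) 1, HasDerivAt (F k t) (F' k t s) s)
    (hE : ∀ᶠ k : ℕ in atTop, ∀ t : ℝ × ℝ, mT t ≤ (3 / 8 + d) * Real.log k →
      ∀ s ∈ Icc (0 : ℝ) 1, ‖F' k t s - (s * q t + p t) * F k t s‖ ≤
        (k : ℝ) ^ e * Er k (max |t.1| |t.2|) *
          (Real.exp |t.1 + t.2| ^ (1 - s) * (Real.exp (-mT t) / ‖k1 t‖) ^ s)) :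
    ∀ᶠ k : ℕ in atTop, ∀ t : ℝ × ℝ, mT t ≤ (3 / 8 + d) * Real.log k →
      ‖k1 t‖ * ‖F k t 1 - Complex.exp (p t + q t / 2) * F k t 0‖ ≤ (k : ℝ) ^ (-c1) := by
  set A' := max A 1 with hA'
  set C' := max C 0 with hC'
  set K := 3 * A' * Real.exp (2 * C') with hK
  have hlim : Tendsto (fun k : ℕ => K * (k : ℝ) ^ (-(3 / 4 - e - c1))) atTop (nhds (K * 0)) :=
    ((tendsto_rpow_neg_atTop (by linarith)).comp tendsto_natCast_atTop_atTop).const_mul K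
  rw [mul_zero] at hlim
  have hsm : ∀ᶠ k : ℕ in atTop, K * (k : ℝ) ^ (-(3 / 4 - e - c1)) ≤ 1 := hlim.eventually_le_const one_pos
  filter_upwards [hF, hE, hsm, eventually_ge_atTop 1] with k f1 f2 f6 f7 t ht
  have hκ : (1 : ℝ) ≤ k := by exact_mod_cast f7
  have hκ0 : (0 : ℝ) < k := by linarith
  have a1 : ‖k1 t‖ ≤ A' * Real.exp (-(|t.1| + |t.2| + |t.1 - t.2|)) :=
    (hA t).trans (mul_le_mul_of_nonneg_right (le_max_left _ _) (Real.exp_pos _).le)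
  have a2 : (p t + q t / 2).re ≤ (-2 * |t.1| - 2 * |t.2| + |t.1 - t.2|) + C' :=
    (hG t).trans (by linarith [le_max_left C 0])
  have a3 : (2 * |t.1 + t.2| - |3 * t.1 + t.2| / 2 - |t.1 + 3 * t.2| / 2) - C' ≤ (p t).re :=
    le_trans (by linarith [le_max_left C 0]) (hp t)
  have hnn : ∀ s : ℝ, 0 ≤ Real.exp |t.1 + t.2| ^ (1 - s) * (Real.exp (-mT t) / ‖k1 t‖) ^ s := fun s =>
    mul_nonneg (Real.rpow_nonneg (Real.exp_pos _).le _)
      (Real.rpow_nonneg (div_nonneg (Real.exp_pos _).le (norm_nonneg _)) _)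
  have main := h3_pt (k1 := k1 t) (F := F k t) (F' := F' k t)
    (m := fun s => Real.exp |t.1 + t.2| ^ (1 - s) * (Real.exp (-mT t) / ‖k1 t‖) ^ s) (κ := (k : ℝ))
    (e0 := 0) (e1 := 0) (le_max_right A 1) (le_max_right C 0) hd hκ le_rfl le_rfl ht a1 a2 a3 (f1 t ht) (f2 t ht)
    (fun s _ => hnn s) (fun s _ => by
      simp only [sub_zero, Real.rpow_one, Real.rpow_zero, mul_one, sub_self, one_mul, le_refl])
    (by
      simp only [sub_zero, Real.rpow_one, Real.rpow_zero, mul_one, one_mul, le_refl])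
    (by
      simp only [sub_self, Real.rpow_one, Real.rpow_zero, one_mul]
      rcases (norm_nonneg (k1 t)).eq_or_lt with hk | hk
      · rw [← hk, zero_mul]
        positivity
      · rw [mul_div_cancel₀ _ hk.ne'])
  refine main.trans ?_
  have e1 : (k : ℝ) ^ (e + 0 + 0 - 3 / 4) = (k : ℝ) ^ (-(3 / 4 - e - c1)) * (k : ℝ) ^ (-c1) := by
    rw [← Real.rpow_add hκ0]
    congr 1
    ring
  rw [e1, ← mul_assoc, ← hK]
  calc K * (k : ℝ) ^ (-(3 / 4 - e - c1)) * (k : ℝ) ^ (-c1) ≤ 1 * (k : ℝ) ^ (-c1) :=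
        mul_le_mul_of_nonneg_right f6 (Real.rpow_nonneg hκ0.le _)
    _ = _ := one_mul _

/-- (H3) with a mass function. -/
theorem h3m {k1 : ℝ × ℝ → ℂ} {F F' : ℕ → ℝ × ℝ → ℝ → ℂ} {p q : ℝ × ℝ → ℂ} {m : ℕ → ℝ × ℝ → ℝ → ℝ}
    {A C d c1 e : ℝ} (hd : d ≤ 1 / 10) (he : 0 ≤ e) (hc1 : c1 + 3 * e < 3 / 4)
    (hA : ∀ t : ℝ × ℝ, ‖k1 t‖ ≤ A * Real.exp (-(|t.1| + |t.2| + |t.1 - t.2|)))
    (hG : ∀ t : ℝ × ℝ, (p t + q t / 2).re ≤ (-2 * |t.1| - 2 * |t.2| + |t.1 - t.2|) + C)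
    (hp : ∀ t : ℝ × ℝ, (2 * |t.1 + t.2| - |3 * t.1 + t.2| / 2 - |t.1 + 3 * t.2| / 2) - C ≤ (p t).re)
    (hF : ∀ᶠ k : ℕ in atTop, ∀ t : ℝ × ℝ, mT t ≤ (3 / 8 + d) * Real.log k →
      ∀ s ∈ Icc (0 : ℝ) 1, HasDerivAt (F k t) (F' k t s) s)
    (hE : ∀ᶠ k : ℕ in atTop, ∀ t : ℝ × ℝ, mT t ≤ (3 / 8 + d) * Real.log k →
      ∀ s ∈ Icc (0 : ℝ) 1, ‖F' k t s - (s * q t + p t) * F k t s‖ ≤
        (k : ℝ) ^ e * Er k (max |t.1| |t.2|) * m k t s)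
    (hm : ∀ᶠ k : ℕ in atTop, ∀ t : ℝ × ℝ, mT t ≤ (3 / 8 + d) * Real.log k →
      ∀ s ∈ Icc (0 : ℝ) 1, 0 ≤ m k t s ∧ m k t s ≤ (m k t 0) ^ (1 - s) * (m k t 1) ^ s)
    (h0 : ∀ᶠ k : ℕ in atTop, ∀ t : ℝ × ℝ, mT t ≤ (3 / 8 + d) * Real.log k →
      m k t 0 ≤ (k : ℝ) ^ e * Real.exp |t.1 + t.2|)
    (h1 : ∀ᶠ k : ℕ in atTop, ∀ t : ℝ × ℝ, mT t ≤ (3 / 8 + d) * Real.log k →
      ‖k1 t‖ * m k t 1 ≤ (k : ℝ) ^ e * Real.exp (-mT t)) :
    ∀ᶠ k : ℕ in atTop, ∀ t : ℝ × ℝ, mT t ≤ (3 / 8 + d) * Real.log k →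
      ‖k1 t‖ * ‖F k t 1 - Complex.exp (p t + q t / 2) * F k t 0‖ ≤ (k : ℝ) ^ (-c1) := by
  set A' := max A 1 with hA'
  set C' := max C 0 with hC'
  set K := 3 * A' * Real.exp (2 * C') with hK
  have hlim : Tendsto (fun k : ℕ => K * (k : ℝ) ^ (-(3 / 4 - 3 * e - c1))) atTop (nhds (K * 0)) :=
    ((tendsto_rpow_neg_atTop (by linarith)).comp tendsto_natCast_atTop_atTop).const_mul K
  rw [mul_zero] at hlim
  have hsm : ∀ᶠ k : ℕ in atTop, K * (k : ℝ) ^ (-(3 / 4 - 3 * e - c1)) ≤ 1 := hlim.eventually_le_const one_pos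
  filter_upwards [hF, hE, hm, h0, h1, hsm, eventually_ge_atTop 1]
    with k f1 f2 f3 f4 f5 f6 f7 t ht
  have hκ : (1 : ℝ) ≤ k := by exact_mod_cast f7
  have hκ0 : (0 : ℝ) < k := by linarith
  have a1 : ‖k1 t‖ ≤ A' * Real.exp (-(|t.1| + |t.2| + |t.1 - t.2|)) :=
    (hA t).trans (mul_le_mul_of_nonneg_right (le_max_left _ _) (Real.exp_pos _).le)
  have a2 : (p t + q t / 2).re ≤ (-2 * |t.1| - 2 * |t.2| + |t.1 - t.2|) + C' :=
    (hG t).trans (by linarith [le_max_left C 0])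
  have a3 : (2 * |t.1 + t.2| - |3 * t.1 + t.2| / 2 - |t.1 + 3 * t.2| / 2) - C' ≤ (p t).re :=
    le_trans (by linarith [le_max_left C 0]) (hp t)
  have main := h3_pt (k1 := k1 t) (F := F k t) (F' := F' k t) (m := m k t) (κ := (k : ℝ))
    (le_max_right A 1) (le_max_right C 0) hd hκ he he ht a1 a2 a3 (f1 t ht) (f2 t ht)
    (fun s hs => (f3 t ht s hs).1) (fun s hs => (f3 t ht s hs).2) (f4 t ht) (f5 t ht)
  refine main.trans ?_
  have e1 : (k : ℝ) ^ (e + e + e - 3 / 4) = (k : ℝ) ^ (-(3 / 4 - 3 * e - c1)) * (k : ℝ) ^ (-c1) := by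
    rw [← Real.rpow_add hκ0]
    congr 1
    ring
  rw [e1, ← mul_assoc, ← hK]
  calc K * (k : ℝ) ^ (-(3 / 4 - 3 * e - c1)) * (k : ℝ) ^ (-c1) ≤ 1 * (k : ℝ) ^ (-c1) :=
        mul_le_mul_of_nonneg_right f6 (Real.rpow_nonneg hκ0.le _)
    _ = _ := one_mul _

/-- (H3) of `PB/TRsum` from the conclusion of `h3` / `h3m` (any `c1 < 3 / 4`) and errors at the two ends. -/
theorem h3R {k1 E : ℝ × ℝ → ℂ} {F : ℕ → ℝ × ℝ → ℝ → ℂ} {R f : ℕ → ℝ × ℝ → ℂ} {S : ℕ → Set (ℝ × ℝ)}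
    {c1 c2 : ℝ} (hc : c1 < c2)
    (h : ∀ᶠ k : ℕ in atTop, ∀ t ∈ S k, ‖k1 t‖ * ‖F k t 1 - E t * F k t 0‖ ≤ (k : ℝ) ^ (-c2))
    (hR : ∀ᶠ k : ℕ in atTop, ∀ t ∈ S k, ‖k1 t‖ * ‖R k t - F k t 1‖ ≤ (k : ℝ) ^ (-c2))
    (hf : ∀ᶠ k : ℕ in atTop, ∀ t ∈ S k, ‖k1 t * E t‖ * ‖F k t 0 - f k t‖ ≤ (k : ℝ) ^ (-c2)) :
    ∀ᶠ k : ℕ in atTop, ∀ t ∈ S k, ‖k1 t‖ * ‖R k t - E t * f k t‖ ≤ (k : ℝ) ^ (-c1) := by
  have hlim : Tendsto (fun k : ℕ => 3 * (k : ℝ) ^ (-(c2 - c1))) atTop (nhds (3 * 0)) :=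
    ((tendsto_rpow_neg_atTop (by linarith)).comp tendsto_natCast_atTop_atTop).const_mul 3
  rw [mul_zero] at hlim
  filter_upwards [h, hR, hf, hlim.eventually_le_const one_pos, eventually_ge_atTop 1]
    with k g1 g2 g3 g4 g5 t ht
  have hκ0 : (0 : ℝ) < k := by exact_mod_cast g5
  have e0 : R k t - E t * f k t =
      (R k t - F k t 1) + (F k t 1 - E t * F k t 0) + E t * (F k t 0 - f k t) := by ring
  have e1 : ‖R k t - E t * f k t‖ ≤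
      ‖R k t - F k t 1‖ + ‖F k t 1 - E t * F k t 0‖ + ‖E t‖ * ‖F k t 0 - f k t‖ := by
    rw [e0, ← norm_mul]
    exact norm_add₃_le
  have e2 : (k : ℝ) ^ (-c2) = (k : ℝ) ^ (-(c2 - c1)) * (k : ℝ) ^ (-c1) := by
    rw [← Real.rpow_add hκ0]
    congr 1
    ring
  have h3' := g3 t ht
  rw [norm_mul, mul_assoc] at h3'
  calc ‖k1 t‖ * ‖R k t - E t * f k t‖ ≤ ‖k1 t‖ *
        (‖R k t - F k t 1‖ + ‖F k t 1 - E t * F k t 0‖ + ‖E t‖ * ‖F k t 0 - f k t‖) :=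
        mul_le_mul_of_nonneg_left e1 (norm_nonneg _)
    _ = ‖k1 t‖ * ‖R k t - F k t 1‖ + ‖k1 t‖ * ‖F k t 1 - E t * F k t 0‖ +
        ‖k1 t‖ * (‖E t‖ * ‖F k t 0 - f k t‖) := by ring
    _ ≤ (k : ℝ) ^ (-c2) + (k : ℝ) ^ (-c2) + (k : ℝ) ^ (-c2) := by
        have := g1 t ht
        have := g2 t ht
        linarith
    _ = (3 * (k : ℝ) ^ (-(c2 - c1))) * (k : ℝ) ^ (-c1) := by rw [e2]; ring
    _ ≤ 1 * (k : ℝ) ^ (-c1) := mul_le_mul_of_nonneg_right g4 (Real.rpow_nonneg hκ0.le _)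
    _ = _ := one_mul _

end PBTs
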