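import Pool.Agent.PB.TRsE
import Pool.Agent.PB.TRsO
import Pool.Agent.PB.TRDelG
import Pool.Agent.PB.Reg0
import Pool.Agent.PB.FNeq
import Pool.Agent.PB.TRsB
import Pool.Agent.PB.ClsCrv

/-!
# Plan B, (TR), s-path: the logarithms of the ratio `regular spectators / legs`, all kinds

Half quanta at `w`, `w'` (`Re = 5 l / 4`), legs at `zz w w' = l - (w + w') / 2`.

* `aS`, `bS`: the ratio for a string is `sr aS bS`; for a quantum it is `- exp DelQ` (TRDel);
* `ZW`, `ZLw`: one body functions of the regular and of the dislocated function; **`DT`** : logarithms;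
* **`ZW_eq`**: `ZW b k u = sgk k * ZLw b k u * exp (DT b k u)`, `sgk = (-1) ^ quanta`, on the lines;
* `measurable_DT`, `hasDerivAt_DT`, `DT_le`, **`obT_lim`**: `‖obT (DT w w') x - sgn (ht x) I (w - w')
  (chg true x - chg false x)‖ ≤ C (1 + M) min 1 (e^{2 (M - |ht x|)})`.
-/

set_option autoImplicit false
set_option linter.unusedSectionVars false
set_option linter.unusedVariables false

noncomputable section

open Complex Finset

namespace PBTs

open NUP1 (l vl)
open NUP1S (O3)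
open NUP1.Leg (Ck Dk thE)
open NURow (CC DD RR)
open PBX (Lg thS ph XX gP RD R0 thE_zero TT)
open PBT3 (zz)
open PBTD (DelQ DelQ' DelB DelB' sb KA)

theorem lp : 0 < l := NUP1.Bd.l_pos

theorem l8 : 8 * l = Real.pi := by unfold NUP1.l; ring

theorem lN : NUMF.l = l := rfl

/-! ### the ratio `regular spectators / legs` -/

/-- zeros, a string -/
def aS (w w' : ℂ) : Fin 8 → ℂ :=
  ![5 * l, -(3 * l), -(2 * l), -(2 * l), w, w + 3 * l, zz w w' + 2 * l, zz w w' + 3 * l]

/-- poles, a string -/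
def bS (w w' : ℂ) : Fin 8 → ℂ :=
  ![2 * l, 2 * l, 3 * l, 3 * l, w' + 3 * l, w' - 2 * l, zz w w' - 3 * l, zz w w' - 2 * l]

theorem sum_S (w w' : ℂ) : ∑ i, (aS w w' i - bS w w' i) = 2 * (w - w') := by
  simp only [aS, bS, Fin.sum_univ_succ, Matrix.cons_val_zero, Matrix.cons_val_succ,
    Fin.sum_univ_zero, zz]
  rw [lN]
  ring

theorem pi_l : (8 : ℂ) * (l : ℂ) = Real.pi := by
  rw [← l8]
  push_cast
  ring

/-- `sin (z + 8 l) = - sin z` -/
theorem sin_8 (z : ℂ) : sin (z + 8 * l) = -sin z := by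
  rw [pi_l, Complex.sin_add_pi]

/-- a string -/
theorem alg_S {w w' u : ℂ} (h2 : sin (zz w w' - 2 * l - u) ≠ 0) (h3 : sin (zz w w' - 3 * l - u) ≠ 0)
    (h2' : sin (zz w w' + 2 * l - u) ≠ 0) (h3' : sin (zz w w' + 3 * l - u) ≠ 0) :
    thS 0 0 0 0 u * (CC (w - u) * DD (w' - u)) =
      Lg (zz w w') (zz w w') u * Lg (zz w w') (zz w w') (u - l) * sr (aS w w') (bS w w') u := by
  have e1 : sin (5 * (l : ℂ) - u) = -sin (-(3 * (l : ℂ)) - u) := by
    rw [show 5 * (l : ℂ) - u = (-(3 * l) - u) + 8 * l by ring, sin_8]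
  unfold thS Lg
  rw [thE_zero, thE_zero, show u - (l : ℂ) + 3 * l = -(-(2 * l) - u) by ring, Complex.sin_neg,
    show u + 3 * (l : ℂ) = -(-(3 * l) - u) by ring, Complex.sin_neg]
  unfold NURow.CC NURow.DD
  simp only [sr, aS, bS, Fin.prod_univ_succ, Matrix.cons_val_zero, Matrix.cons_val_succ,
    Fin.prod_univ_zero, mul_one]
  rw [e1, show u - 2 * (l : ℂ) = -(2 * l - u) by ring, Complex.sin_neg,
    show u - l - 2 * (l : ℂ) = -(3 * l - u) by ring, Complex.sin_neg,
    show w - u + 3 * (l : ℂ) = w + 3 * l - u by ring,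
    show 3 * (l : ℂ) + (w' - u) = w' + 3 * l - u by ring,
    show 2 * (l : ℂ) - (w' - u) = -(w' - 2 * l - u) by ring, Complex.sin_neg,
    show zz w w' - u - 3 * (l : ℂ) = zz w w' - 3 * l - u by ring,
    show zz w w' - u + 2 * (l : ℂ) = zz w w' + 2 * l - u by ring,
    show zz w w' - (u - l) - 3 * (l : ℂ) = zz w w' - 2 * l - u by ring,
    show zz w w' - (u - l) + 2 * (l : ℂ) = zz w w' + 3 * l - u by ring]
  generalize sin (zz w w' - 2 * l - u) = Y2 at h2 ⊢
  generalize sin (zz w w' - 3 * l - u) = Y3 at h3 ⊢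
  generalize sin (zz w w' + 2 * l - u) = Z2 at h2' ⊢
  generalize sin (zz w w' + 3 * l - u) = Z3 at h3' ⊢
  generalize sin (-(3 * (l : ℂ)) - u) = A
  generalize sin (-(2 * (l : ℂ)) - u) = A2
  generalize sin (2 * (l : ℂ) - u) = B
  generalize sin (3 * (l : ℂ) - u) = B3
  generalize sin (w - u) = W0
  generalize sin (w + 3 * l - u) = W3
  generalize sin (w' + 3 * l - u) = V3
  generalize sin (w' - 2 * l - u) = V2
  have hz : Y3 / Z2 * (Y2 / Z3) * ((Z2 / Y3) * (Z3 / Y2)) = 1 := by field_simp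
  calc (-A) ^ 2 / (-B) ^ 2 * ((-A2) ^ 2 / (-B3) ^ 2) * (W0 * W3 * (1 / (V3 * -V2))) =
      (-A) ^ 2 / (-B) ^ 2 * ((-A2) ^ 2 / (-B3) ^ 2) * (W0 * W3 * (1 / (V3 * -V2))) *
        (Y3 / Z2 * (Y2 / Z3) * ((Z2 / Y3) * (Z3 / Y2))) := by
        rw [hz, mul_one]
    _ = _ := by
        rw [neg_sq, neg_sq, neg_sq, neg_sq]
        simp only [div_eq_mul_inv, mul_inv, inv_neg]
        ring

/-! ### positions -/

/-- window for a kind: strip of the quanta and the satellites, lines of the objects -/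
def At : Option O3 → ℂ → Prop
  | none, u => 3 / 5 * l ≤ u.re ∧ u.re ≤ 6 / 5 * l
  | some .L, u => -(17 / 10 * l) ≤ u.re ∧ u.re ≤ -(5 / 4 * l)
  | some .T, u => u.re = -(1 / 2 * l)
  | some .S, u => -(13 / 10 * l) ≤ u.re ∧ u.re ≤ -(11 / 10 * l)

/-- away from the zeros of the sine -/
def Aw (z : ℂ) : Prop := l / 20 ≤ |z.re| ∧ |z.re| ≤ 8 * l - l / 20

/-- the constant of the lower bounds -/
def kap0 : ℝ := Real.sin (l / 20) / 2

theorem kap0_pos : 0 < kap0 := by
  have hl := lp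
  have h8 := l8
  have := Real.sin_pos_of_pos_of_lt_pi (x := l / 20) (by positivity) (by linarith)
  unfold kap0
  positivity

theorem kap0_le : kap0 ≤ 1 := by
  unfold kap0
  linarith [Real.sin_le_one (l / 20)]

theorem Aw.low {z : ℂ} (h : Aw z) : kap0 * Real.exp |z.im| ≤ ‖sin z‖ := by
  have hl := lp
  have h8 := l8
  obtain ⟨h1, h2⟩ := h
  refine le_trans ?_ (PBR.norm_sin_ge z)
  refine mul_le_mul_of_nonneg_right ?_ (Real.exp_pos _).le
  unfold kap0
  have h3 : Real.sin (l / 20) ≤ Real.sin |z.re| := by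
    rcases le_total |z.re| (4 * l) with h4 | h4
    · exact Real.sin_le_sin_of_le_of_le_pi_div_two (by linarith) (by linarith) h1
    · rw [← Real.sin_pi_sub |z.re|]
      exact Real.sin_le_sin_of_le_of_le_pi_div_two (by linarith) (by linarith) (by linarith)
  have h5 : Real.sin |z.re| ≤ |Real.sin z.re| := by
    rcases le_total 0 z.re with h6 | h6
    · rw [abs_of_nonneg h6]
      exact le_abs_self _
    · rw [abs_of_nonpos h6, Real.sin_neg]
      exact neg_le_abs _
  linarith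

theorem Aw.ne {z : ℂ} (h : Aw z) : sin z ≠ 0 := by
  intro h0
  have h1 := h.low
  have h2 := mul_pos kap0_pos (Real.exp_pos |z.im|)
  rw [h0, norm_zero] at h1
  linarith

theorem Aw.of {z : ℂ} {x y : ℝ} (h1 : x * l ≤ z.re) (h2 : z.re ≤ y * l) (h : 1 / 20 ≤ x)
    (h' : y ≤ 159 / 20) : Aw z := by
  have hl := lp
  have h0 : 0 ≤ z.re := by nlinarith
  unfold Aw
  rw [abs_of_nonneg h0]
  constructor <;> nlinarith

theorem Aw.of' {z : ℂ} {x y : ℝ} (h1 : x * l ≤ z.re) (h2 : z.re ≤ y * l) (h : -(159 / 20) ≤ x)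
    (h' : y ≤ -(1 / 20)) : Aw z := by
  have hl := lp
  have h0 : z.re ≤ 0 := by nlinarith
  unfold Aw
  rw [abs_of_nonpos h0]
  constructor <;> nlinarith

section pos

variable {w w' u : ℂ} (hw : w.re = 5 / 4 * l) (hw' : w'.re = 5 / 4 * l)
include hw hw'

theorem zz_re : (zz w w').re = -(l / 4) := by
  unfold PBT3.zz
  rw [lN, sub_re, Complex.ofReal_re, show ((w + w') / 2).re = (w.re + w'.re) / 2 by simp, hw, hw']
  ring

theorem re_aS (i : Fin 8) :
    (aS w w' i).re = (![5, -3, -2, -2, 5 / 4, 17 / 4, 7 / 4, 11 / 4] : Fin 8 → ℝ) i * l := by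
  have hz := zz_re hw hw'
  fin_cases i
  · show (5 * (l : ℂ)).re = 5 * l
    simp
  · show (-(3 * (l : ℂ))).re = -3 * l
    simp
  · show (-(2 * (l : ℂ))).re = -2 * l
    simp
  · show (-(2 * (l : ℂ))).re = -2 * l
    simp
  · show w.re = 5 / 4 * l
    exact hw
  · show (w + 3 * (l : ℂ)).re = 17 / 4 * l
    simp [hw]
    ring
  · show (zz w w' + 2 * (l : ℂ)).re = 7 / 4 * l
    simp [hz]
    ring
  · show (zz w w' + 3 * (l : ℂ)).re = 11 / 4 * l
    simp [hz]
    ring

theorem re_bS (i : Fin 8) :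
    (bS w w' i).re = (![2, 2, 3, 3, 17 / 4, -(3 / 4), -(13 / 4), -(9 / 4)] : Fin 8 → ℝ) i * l := by
  have hz := zz_re hw hw'
  fin_cases i
  · show (2 * (l : ℂ)).re = 2 * l
    simp
  · show (2 * (l : ℂ)).re = 2 * l
    simp
  · show (3 * (l : ℂ)).re = 3 * l
    simp
  · show (3 * (l : ℂ)).re = 3 * l
    simp
  · show (w' + 3 * (l : ℂ)).re = 17 / 4 * l
    simp [hw']
    ring
  · show (w' - 2 * (l : ℂ)).re = -(3 / 4) * l
    simp [hw']
    ring
  · show (zz w w' - 3 * (l : ℂ)).re = -(13 / 4) * l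
    simp [hz]
    ring
  · show (zz w w' - 2 * (l : ℂ)).re = -(9 / 4) * l
    simp [hz]
    ring

omit hw hw' in
theorem re_win {c u : ℂ} {α x y : ℝ} (hc : c.re = α * l) (h1 : x * l ≤ u.re) (h2 : u.re ≤ y * l) :
    (α - y) * l ≤ (c - u).re ∧ (c - u).re ≤ (α - x) * l := by
  rw [sub_re, hc]
  constructor <;> linarith

omit hw hw' in
theorem Aw.or {z : ℂ} {x y : ℝ} (h1 : x * l ≤ z.re) (h2 : z.re ≤ y * l)
    (h : (1 / 20 ≤ x ∧ y ≤ 159 / 20) ∨ (-(159 / 20) ≤ x ∧ y ≤ -(1 / 20))) : Aw z := by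
  rcases h with h | h
  · exact Aw.of h1 h2 h.1 h.2
  · exact Aw.of' h1 h2 h.1 h.2

theorem aw_aS (hu : At (some .T) u ∨ At (some .S) u) (i : Fin 8) : Aw (aS w w' i - u) := by
  have hl := lp
  have h : -(13 / 10) * l ≤ u.re ∧ u.re ≤ -(1 / 2) * l := by
    rcases hu with hu | hu
    · have hu' : u.re = -(1 / 2 * l) := hu
      constructor <;> linarith
    · constructor <;> linarith [hu.1, hu.2]
  obtain ⟨h1, h2⟩ := re_win (re_aS hw hw' i) h.1 h.2
  refine Aw.or h1 h2 ?_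
  fin_cases i <;> simp <;> norm_num

theorem aw_bS (hu : At (some .T) u ∨ At (some .S) u) (i : Fin 8) : Aw (bS w w' i - u) := by
  have hl := lp
  rcases hu with hu | hu
  · have hu' : u.re = -(1 / 2 * l) := hu
    obtain ⟨h1, h2⟩ := re_win (u := u) (x := -(1 / 2)) (y := -(1 / 2)) (re_bS hw hw' i)
      (by linarith) (by linarith)
    refine Aw.or h1 h2 ?_
    fin_cases i <;> simp <;> norm_num
  · obtain ⟨h1, h2⟩ := re_win (u := u) (x := -(13 / 10)) (y := -(11 / 10)) (re_bS hw hw' i)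
      (by linarith [hu.1]) (by linarith [hu.2])
    refine Aw.or h1 h2 ?_
    fin_cases i <;> simp <;> norm_num

end pos

/-! ### the logarithms -/

/-- logarithms of all kinds, species X -/
def DX (w w' : ℂ) : Option O3 → ℂ → ℂ
  | none, u => DelQ w w' (zz w w') u
  | some .L, u => DelQ w w' (zz w w') u
  | some .T, u => plog (aS w w') (bS w w') (sg1 u.im * (2 * (I * (w - w')))) u
  | some .S, u => plog (aS w w') (bS w w') (sg1 u.im * (2 * (I * (w - w')))) u

/-- **the logarithms** of `(-1) ^ quanta * (regular spectators / legs)` -/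
def DT (w w' : ℂ) : Bool → Option O3 → ℂ → ℂ
  | true => DX w w'
  | false => DX w' w

/-- the sign: `-1` to the number of quanta -/
def sgk : Option O3 → ℂ
  | none => -1
  | some .L => -1
  | some .T => 1
  | some .S => 1

theorem DT_none (w w' : ℂ) (b : Bool) : DT w w' b none = DelB w w' (zz w w') b := by
  cases b
  · show DelQ w' w (zz w' w) = _
    rw [PBTD.zz_comm w' w]
    rfl
  · rfl

theorem DT_L (w w' : ℂ) (b : Bool) : DT w w' b (some .L) = DelB w w' (zz w w') b := by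
  cases b
  · show DelQ w' w (zz w' w) = _
    rw [PBTD.zz_comm w' w]
    rfl
  · rfl

/-- one body functions of the regular function, both half quanta, rows and ends `0` -/
def ZW (m : ℕ) (β : ℝ) (ex ex0 : List ℂ) (w w' : ℂ) : Bool → Option O3 → ℂ → ℂ
  | true => (R0 m β ex ex0).Xs (fun u => Ck (w - u) * Dk (w' - u))
      (fun u => CC (w - u) * DD (w' - u))
  | false => (R0 m β ex ex0).Ys (fun u => Dk (w - u) * Ck (w' - u))
      (fun u => DD (w - u) * CC (w' - u))

/-- one body functions of the dislocated function, rows `0`, legs at `zz w w'` -/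
def ZLw (m : ℕ) (β : ℝ) (ex ex0 : List ℂ) (w w' : ℂ) : Bool → Option O3 → ℂ → ℂ :=
  PBX.ZL β (fun _ : Fin m => (0 : ℂ)) ex ex0 (zz w w')

theorem ZLw_comm (m : ℕ) (β : ℝ) (ex ex0 : List ℂ) (w w' : ℂ) (b b' : Bool) :
    ZLw m β ex ex0 w' w b = ZLw m β ex ex0 w w' b' := by
  unfold ZLw
  rw [PBTD.zz_comm w' w]
  rfl

theorem ZW_false (m : ℕ) (β : ℝ) (ex ex0 : List ℂ) (w w' : ℂ) :
    ZW m β ex ex0 w w' false = ZW m β ex ex0 w' w true := by
  unfold ZW RD.Xs RD.Ys
  simp only [mul_comm (Dk _) (Ck _), mul_comm (DD _) (CC _)]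
  rfl

section pos3

variable {w w' u : ℂ} (hw : w.re = 5 / 4 * l) (hw' : w'.re = 5 / 4 * l)
include hw hw'

/-- one quantum -/
theorem alg_Q (hu : u.re ∈ KA) : thE 0 0 0 0 u * (Ck (w - u) * Dk (w' - u)) =
    -(Lg (zz w w') (zz w w') u) * exp (DelQ w w' (zz w w') u) := by
  have hz : (zz w w').re = -(1 / 4 * NUMF.l) := by
    rw [zz_re hw hw', lN]
    ring
  rw [← PBTD.exp_DelQ hw hw' hz hu]
  ring

theorem KA_none (hu : At none u) : u.re ∈ KA := by
  have hl := lp
  obtain ⟨h1, h2⟩ := hu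
  constructor
  · rw [lN]
    linarith
  · rw [lN]
    exact h2

theorem KA_L (hu : At (some .L) u) : u.re ∈ KA := by
  have hl := lp
  obtain ⟨h1, h2⟩ := hu
  constructor
  · rw [lN]
    exact h1
  · rw [lN]
    linarith

/-- a string -/
theorem exp_S (hu : At (some .T) u ∨ At (some .S) u) (lam : ℂ) :
    exp (plog (aS w w') (bS w w') lam u) = sr (aS w w') (bS w w') u :=
  exp_plog (sr_ne (fun i => (aw_aS hw hw' hu i).ne) fun i => (aw_bS hw hw' hu i).ne)

theorem alg_S' (hu : At (some .T) u ∨ At (some .S) u) (lam : ℂ) :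
    thS 0 0 0 0 u * (CC (w - u) * DD (w' - u)) =
      Lg (zz w w') (zz w w') u * Lg (zz w w') (zz w w') (u - l) *
        exp (plog (aS w w') (bS w w') lam u) := by
  rw [exp_S hw hw' hu]
  exact alg_S (aw_bS hw hw' hu 7).ne (aw_bS hw hw' hu 6).ne (aw_aS hw hw' hu 6).ne
    (aw_aS hw hw' hu 7).ne

/-- **regular = legs times the exponential of the logarithms**, species X -/
theorem ZW_true (m : ℕ) (β : ℝ) (ex ex0 : List ℂ) {k : Option O3} (hu : At k u) :
    ZW m β ex ex0 w w' true k u =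
      sgk k * ZLw m β ex ex0 w w' true k u * exp (DX w w' k u) := by
  rcases k with _ | k
  · show RR _ _ _ u * ph _ _ _ u * (thE 0 0 0 0 u * (Ck (w - u) * Dk (w' - u))) =
      -1 * (RR _ _ _ u * ph _ _ _ u * Lg _ _ u) * exp (DelQ w w' (zz w w') u)
    rw [alg_Q hw hw' (KA_none hw hw' hu)]
    show RR (NUP1.Leg.cc m) (fun _ => 0) (fun _ => 0) u * ph β (fun _ => 0) (gP β ex) u * _ =
      -1 * (RR (NUP1.Leg.cc m) (fun _ => 0) (fun _ => 0) u * ph β (fun _ => 0) (gP β ex) u * _) * _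
    ring
  · cases k
    · show RR _ _ _ u * ph _ _ _ u * (thE 0 0 0 0 u * (Ck (w - u) * Dk (w' - u))) =
        -1 * (RR _ _ _ u * ph _ _ _ u * Lg _ _ u) * exp (DelQ w w' (zz w w') u)
      rw [alg_Q hw hw' (KA_L hw hw' hu)]
      show RR (NUP1.Leg.cc m) (fun _ => 0) (fun _ => 0) u * ph β (fun _ => 0) (gP β ex) u * _ =
        -1 * (RR (NUP1.Leg.cc m) (fun _ => 0) (fun _ => 0) u * ph β (fun _ => 0) (gP β ex) u * _) * _
      ring
    · show RR _ _ _ u * RR _ _ _ (u - l) * ph _ _ _ u * (thS 0 0 0 0 u * (CC (w - u) * DD (w' - u))) =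
        1 * (RR _ _ _ u * RR _ _ _ (u - l) * ph _ _ _ u * (Lg _ _ u * Lg _ _ (u - l))) *
          exp (plog (aS w w') (bS w w') (sg1 u.im * (2 * (I * (w - w')))) u)
      rw [alg_S' hw hw' (Or.inr hu) (sg1 u.im * (2 * (I * (w - w'))))]
      show RR (NUP1.Leg.cc m) (fun _ => 0) (fun _ => 0) u *
          RR (NUP1.Leg.cc m) (fun _ => 0) (fun _ => 0) (u - l) *
          ph (4 / 3) (fun _ => 0) (gP (4 / 3) ex0) u * _ =
        1 * (RR (NUP1.Leg.cc m) (fun _ => 0) (fun _ => 0) u *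
          RR (NUP1.Leg.cc m) (fun _ => 0) (fun _ => 0) (u - l) *
          ph (4 / 3) (fun _ => 0) (gP (4 / 3) ex0) u * _) * _
      ring
    · show TT _ _ _ _ _ _ _ u * (thS 0 0 0 0 u * (CC (w - u) * DD (w' - u))) =
        1 * (TT _ _ _ _ _ _ _ u * (Lg _ _ u * Lg _ _ (u - l))) *
          exp (plog (aS w w') (bS w w') (sg1 u.im * (2 * (I * (w - w')))) u)
      rw [alg_S' hw hw' (Or.inl hu) (sg1 u.im * (2 * (I * (w - w'))))]
      show TT (NUP1.Leg.cc m) β (4 / 3) (fun _ => 0) (fun _ => 0) (gP β ex) (gP (4 / 3) ex0) u * _ =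
        1 * (TT (NUP1.Leg.cc m) β (4 / 3) (fun _ => 0) (fun _ => 0) (gP β ex) (gP (4 / 3) ex0) u *
          _) * _
      ring

/-- **regular = legs times the exponential of the logarithms** -/
theorem ZW_eq (m : ℕ) (β : ℝ) (ex ex0 : List ℂ) (b : Bool) {k : Option O3} (hu : At k u) :
    ZW m β ex ex0 w w' b k u = sgk k * ZLw m β ex ex0 w w' b k u * exp (DT w w' b k u) := by
  cases b
  · rw [ZW_false, ZW_true hw' hw m β ex ex0 hu, ZLw_comm m β ex ex0 w w' true false]
    rfl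
  · exact ZW_true hw hw' m β ex ex0 hu

end pos3

/-! ### measurability -/

theorem measurable_sr {n : ℕ} (a b : Fin n → ℂ) : Measurable (sr a b) := by
  unfold sr
  refine Finset.measurable_prod _ fun i _ => ?_
  exact (Complex.continuous_sin.measurable.comp (measurable_const.sub measurable_id)).div
    (Complex.continuous_sin.measurable.comp (measurable_const.sub measurable_id))

theorem measurable_plog {n : ℕ} (a b : Fin n → ℂ) (c : ℂ) :
    Measurable fun u : ℂ => plog a b (sg1 u.im * c) u := by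
  unfold plog
  have h1 : Measurable fun u : ℂ => ((sg1 u.im : ℝ) : ℂ) * c :=
    (Complex.measurable_ofReal.comp (measurable_sg1.comp Complex.measurable_im)).mul_const c
  exact h1.add (Complex.measurable_log.comp
    ((measurable_sr a b).mul (Complex.measurable_exp.comp h1.neg)))

theorem measurable_DelQ (w w' z : ℂ) : Measurable (DelQ w w' z) := by
  have h : Measurable Pool.Agent.PB.LSn :=
    Complex.measurable_log.comp Complex.continuous_sin.measurable
  have h1 : ∀ c : ℂ, Measurable fun u : ℂ => Pool.Agent.PB.LSn (c - u) := fun c =>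
    h.comp (measurable_const.sub measurable_id)
  have h2 : ∀ c : ℂ, Measurable fun u : ℂ => Pool.Agent.PB.LSn (c + u) := fun c =>
    h.comp (measurable_const.add measurable_id)
  unfold PBTD.DelQ PBTD.thL PBTD.DzL
  exact ((((h2 _).sub (h1 _)).const_mul 2).add (((h1 _).add (h1 _)).sub (h1 _))).add
    (((h1 _).sub (h2 _)).sub (h1 _)) |>.sub ((h1 _).sub (h1 _))

theorem measurable_DX (w w' : ℂ) (k : Option O3) : Measurable (DX w w' k) := by
  rcases k with _ | k
  · exact measurable_DelQ _ _ _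
  · cases k
    · exact measurable_DelQ _ _ _
    · exact measurable_plog _ _ _
    · exact measurable_plog _ _ _

/-- **measurability of the logarithms** -/
theorem measurable_DT (w w' : ℂ) (b : Bool) (k : Option O3) : Measurable (DT w w' b k) := by
  cases b
  · exact measurable_DX w' w k
  · exact measurable_DX w w' k

/-! ### limits -/

theorem Iww {w w' : ℂ} (hw : w.re = 5 / 4 * l) (hw' : w'.re = 5 / 4 * l) :
    I * (w - w') = ((-(w.im - w'.im) : ℝ) : ℂ) := by
  have e1 : w - w' = (w.im - w'.im : ℝ) * I := by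
    apply Complex.ext
    · simp [hw, hw']
    · simp
  rw [e1]
  push_cast
  linear_combination ((w.im : ℂ) - w'.im) * I_mul_I

theorem abs_sb (b : Bool) : |sb b| = 1 := by
  cases b <;> simp [PBTD.sb]

theorem zz_im {w w' : ℂ} {M : ℝ} (iw : |w.im| ≤ M) (iw' : |w'.im| ≤ M) : |(zz w w').im| ≤ M := by
  have e : (zz w w').im = -((w.im + w'.im) / 2) := by
    unfold PBT3.zz
    rw [sub_im, Complex.ofReal_im, show ((w + w') / 2).im = (w.im + w'.im) / 2 by simp]
    ring
  rw [e, abs_neg]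
  have h1 := abs_le.1 iw
  have h2 := abs_le.1 iw'
  rw [abs_le]
  constructor <;> linarith [h1.1, h1.2, h2.1, h2.2]

theorem sg1_or (x : ℝ) : sg1 x = 1 ∨ sg1 x = -1 := by
  unfold sg1
  split_ifs
  · exact Or.inr rfl
  · exact Or.inl rfl

theorem sg1_mul (x : ℝ) : sg1 x * x = |x| := by
  rcases lt_or_ge x 0 with h | h
  · rw [sg1_neg h, abs_of_neg h]
    ring
  · rw [sg1_nonneg h, abs_of_nonneg h, one_mul]

theorem exp_two_le : Real.exp 2 ≤ 9 := by
  have h6 := Real.exp_one_lt_d9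
  have h7 : Real.exp 2 = Real.exp 1 * Real.exp 1 := by
    rw [← Real.exp_add]
    norm_num
  have h9 := Real.exp_pos 1
  rw [h7]
  nlinarith

/-- modulus of the limit -/
theorem lim_le {w w' : ℂ} {M : ℝ} (hw : w.re = 5 / 4 * l) (hw' : w'.re = 5 / 4 * l)
    (iw : |w.im| ≤ M) (iw' : |w'.im| ≤ M) : ‖I * (w - w')‖ ≤ 2 * M := by
  rw [Iww hw hw', Complex.norm_real, Real.norm_eq_abs, abs_neg]
  exact (abs_sub _ _).trans (by linarith)

theorem norm_sg1 (x : ℝ) : ‖((sg1 x : ℝ) : ℂ)‖ = 1 := by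
  rw [Complex.norm_real, Real.norm_eq_abs, abs_sg1]

theorem norm_sb (b : Bool) : ‖((sb b : ℝ) : ℂ)‖ = 1 := by
  rw [Complex.norm_real, Real.norm_eq_abs, abs_sb]

/-- **one quantum**: bounds, derivative, limit -/
theorem DelB_all : ∃ C : ℝ, 0 ≤ C ∧ ∀ (w w' : ℂ) (M : ℝ), w.re = 5 / 4 * l → w'.re = 5 / 4 * l →
    |w.im| ≤ M → |w'.im| ≤ M → ∀ (b : Bool) (u : ℂ), u.re ∈ KA →
    HasDerivAt (DelB w w' (zz w w') b) (DelB' w w' (zz w w') b u) u ∧
    ‖DelB' w w' (zz w w') b u‖ ≤ C ∧ ‖DelB w w' (zz w w') b u‖ ≤ C * (1 + M) ∧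
    ∀ t : ℝ, |u.im - t| ≤ 1 →
      ‖DelB w w' (zz w w') b u - sg1 t * (sb b * (I * (w - w')))‖ ≤
        C * (1 + M) * min 1 (Real.exp (2 * (M - |t|))) ∧
      ‖DelB' w w' (zz w w') b u‖ ≤ C * min 1 (Real.exp (2 * (M - |t|))) := by
  obtain ⟨C0, hC0, h⟩ := PBTD.DelB_lim
  refine ⟨9 * C0 + 2, by positivity, ?_⟩
  intro w w' M hw hw' iw iw' b u hu
  have hM : 0 ≤ M := (abs_nonneg _).trans iw
  have hz : (zz w w').re = -(1 / 4 * NUMF.l) := by
    rw [zz_re hw hw', lN]
    ring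
  obtain ⟨h1, h2, h3, h4⟩ := h w w' (zz w w') M hw hw' hz iw iw' (zz_im iw iw') b u hu
  have cc : C0 ≤ 9 * C0 + 2 := by linarith
  have hm : C0 * (1 + M) ≤ (9 * C0 + 2) * (1 + M) := by nlinarith
  refine ⟨h1, h3.trans cc, h4.trans hm, fun t ht => ?_⟩
  obtain ⟨h5, h6⟩ := h2 (sg1 t) (sg1_or t)
  have e1 : |t| - 1 ≤ sg1 t * u.im := by
    have e2 : sg1 t * u.im = |t| + sg1 t * (u.im - t) := by
      rw [← sg1_mul t]
      ring
    have e3 : -1 ≤ sg1 t * (u.im - t) := by
      have e4 : |sg1 t * (u.im - t)| ≤ 1 := by rwa [abs_mul, abs_sg1, one_mul]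
      exact (abs_le.1 e4).1
    linarith
  have e5 : Real.exp (2 * (M - sg1 t * u.im)) ≤ 9 * Real.exp (2 * (M - |t|)) := by
    calc Real.exp (2 * (M - sg1 t * u.im)) ≤ Real.exp (2 + 2 * (M - |t|)) :=
          Real.exp_le_exp.2 (by linarith)
      _ = Real.exp 2 * Real.exp (2 * (M - |t|)) := Real.exp_add _ _
      _ ≤ _ := mul_le_mul_of_nonneg_right exp_two_le (Real.exp_pos _).le
  have e6 : (((-(sg1 t * sb b * (w.im - w'.im)) : ℝ)) : ℂ) = sg1 t * (sb b * (I * (w - w'))) := by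
    rw [Iww hw hw']
    push_cast
    ring
  rw [e6] at h5
  have e0 := Real.exp_pos (2 * (M - |t|))
  rcases le_or_gt M |t| with h7 | h7
  · have h8 : min 1 (Real.exp (2 * (M - |t|))) = Real.exp (2 * (M - |t|)) := by
      refine min_eq_right ?_
      rw [Real.exp_le_one_iff]
      linarith
    rw [h8]
    constructor
    · refine h5.trans ((mul_le_mul_of_nonneg_left e5 hC0).trans ?_)
      have h9 : 9 * C0 ≤ (9 * C0 + 2) * (1 + M) := by nlinarith
      nlinarith
    · refine h6.trans ((mul_le_mul_of_nonneg_left e5 hC0).trans ?_)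
      nlinarith
  · have h8 : min 1 (Real.exp (2 * (M - |t|))) = 1 :=
      min_eq_left (Real.one_le_exp (by linarith))
    rw [h8, mul_one, mul_one]
    constructor
    · refine (norm_sub_le _ _).trans ?_
      have h9 : ‖(sg1 t : ℂ) * (sb b * (I * (w - w')))‖ ≤ 2 * M := by
        rw [norm_mul, norm_mul, norm_sg1, norm_sb, one_mul, one_mul]
        exact lim_le hw hw' iw iw'
      nlinarith
    · exact h3.trans cc

/-- number of quanta of a kind -/
def ch : Option O3 → ℝ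
  | none => 1
  | some .L => 1
  | some .T => 2
  | some .S => 2

theorem im_aS {w w' : ℂ} {M : ℝ} (iw : |w.im| ≤ M) (iw' : |w'.im| ≤ M) (i : Fin 8) :
    |(aS w w' i).im| ≤ M := by
  have hz := zz_im iw iw'
  have hM : 0 ≤ M := (abs_nonneg _).trans iw
  fin_cases i
  · show |(5 * (l : ℂ)).im| ≤ M
    simpa using hM
  · show |(-(3 * (l : ℂ))).im| ≤ M
    simpa using hM
  · show |(-(2 * (l : ℂ))).im| ≤ M
    simpa using hM
  · show |(-(2 * (l : ℂ))).im| ≤ M
    simpa using hM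
  · exact iw
  · show |(w + 3 * (l : ℂ)).im| ≤ M
    simpa using iw
  · show |(zz w w' + 2 * (l : ℂ)).im| ≤ M
    simpa using hz
  · show |(zz w w' + 3 * (l : ℂ)).im| ≤ M
    simpa using hz

theorem im_bS {w w' : ℂ} {M : ℝ} (iw : |w.im| ≤ M) (iw' : |w'.im| ≤ M) (i : Fin 8) :
    |(bS w w' i).im| ≤ M := by
  have hz := zz_im iw iw'
  have hM : 0 ≤ M := (abs_nonneg _).trans iw
  fin_cases i
  · show |(2 * (l : ℂ)).im| ≤ M
    simpa using hM
  · show |(2 * (l : ℂ)).im| ≤ M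
    simpa using hM
  · show |(3 * (l : ℂ)).im| ≤ M
    simpa using hM
  · show |(3 * (l : ℂ)).im| ≤ M
    simpa using hM
  · show |(w' + 3 * (l : ℂ)).im| ≤ M
    simpa using iw'
  · show |(w' - 2 * (l : ℂ)).im| ≤ M
    simpa using iw'
  · show |(zz w w' - 3 * (l : ℂ)).im| ≤ M
    simpa using hz
  · show |(zz w w' - 2 * (l : ℂ)).im| ≤ M
    simpa using hz

/-- strings -/
theorem plogS_le {w w' u : ℂ} {M : ℝ} (hw : w.re = 5 / 4 * l) (hw' : w'.re = 5 / 4 * l)
    (iw : |w.im| ≤ M) (iw' : |w'.im| ≤ M) (hu : At (some .T) u ∨ At (some .S) u) :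
    ‖plog (aS w w') (bS w w') (sg1 u.im * (2 * (I * (w - w')))) u -
        sg1 u.im * (2 * (I * (w - w')))‖ ≤
      cP 8 kap0 * (1 + M) * min 1 (Real.exp (2 * (M - |u.im|))) := by
  have hM : 0 ≤ M := (abs_nonneg _).trans iw
  refine plog_le (s := sg1 u.im) kap0_pos kap0_le hM (sg1_or _) (sg1_mul _) ?_
    (fun i => (aw_aS hw hw' hu i).low) (fun i => (aw_bS hw hw' hu i).low) (im_aS iw iw')
    (im_bS iw iw')
  unfold lam0
  rw [sum_S]
  congr 1
  ring

/-- **the limits of the logarithms**, all kinds -/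
theorem DT_lim : ∃ C : ℝ, 0 ≤ C ∧ ∀ (w w' : ℂ) (M : ℝ), w.re = 5 / 4 * l → w'.re = 5 / 4 * l →
    |w.im| ≤ M → |w'.im| ≤ M → ∀ (b : Bool) (k : Option O3) (u : ℂ) (t : ℝ), At k u →
    (u.im = t ∨ k = none ∧ |u.im - t| ≤ 1) →
      ‖DT w w' b k u - sg1 t * (ch k * (sb b * (I * (w - w'))))‖ ≤
        C * (1 + M) * min 1 (Real.exp (2 * (M - |t|))) := by
  obtain ⟨C0, hC0, h⟩ := DelB_all
  have hP := cP_nonneg (n := 8) kap0_pos kap0_le
  refine ⟨C0 + cP 8 kap0, by positivity, ?_⟩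
  intro w w' M hw hw' iw iw' b k u t hu ht
  have hM : 0 ≤ M := (abs_nonneg _).trans iw
  have hm : 0 ≤ min 1 (Real.exp (2 * (M - |t|))) := le_min zero_le_one (Real.exp_pos _).le
  have c1 : C0 * (1 + M) * min 1 (Real.exp (2 * (M - |t|))) ≤
      (C0 + cP 8 kap0) * (1 + M) * min 1 (Real.exp (2 * (M - |t|))) := by
    gcongr
    linarith
  have c2 : cP 8 kap0 * (1 + M) * min 1 (Real.exp (2 * (M - |t|))) ≤
      (C0 + cP 8 kap0) * (1 + M) * min 1 (Real.exp (2 * (M - |t|))) := by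
    gcongr
    linarith
  have hS : ∀ k : O3, (k = .T ∨ k = .S) → At (some k) u → u.im = t →
      ‖DT w w' b (some k) u - sg1 t * (2 * (sb b * (I * (w - w'))))‖ ≤
        cP 8 kap0 * (1 + M) * min 1 (Real.exp (2 * (M - |t|))) := by
    intro k hk hu ht
    subst ht
    have hu' : At (some .T) u ∨ At (some .S) u := by
      rcases hk with rfl | rfl
      · exact Or.inl hu
      · exact Or.inr hu
    cases b
    · have h1 := plogS_le hw' hw iw' iw hu'
      have e1 : (sg1 u.im : ℂ) * (2 * (I * (w' - w))) =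
          sg1 u.im * (2 * (sb false * (I * (w - w')))) := by
        simp only [PBTD.sb, Bool.false_eq_true, if_false]
        push_cast
        ring
      rcases hk with rfl | rfl
      · show ‖plog (aS w' w) (bS w' w) (sg1 u.im * (2 * (I * (w' - w)))) u - _‖ ≤ _
        rw [← e1]
        exact h1
      · show ‖plog (aS w' w) (bS w' w) (sg1 u.im * (2 * (I * (w' - w)))) u - _‖ ≤ _
        rw [← e1]
        exact h1
    · have h1 := plogS_le hw hw' iw iw' hu'
      have e1 : (sg1 u.im : ℂ) * (2 * (I * (w - w'))) =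
          sg1 u.im * (2 * (sb true * (I * (w - w')))) := by
        simp only [PBTD.sb, if_true]
        push_cast
        ring
      rcases hk with rfl | rfl
      · show ‖plog (aS w w') (bS w w') (sg1 u.im * (2 * (I * (w - w')))) u - _‖ ≤ _
        rw [← e1]
        exact h1
      · show ‖plog (aS w w') (bS w w') (sg1 u.im * (2 * (I * (w - w')))) u - _‖ ≤ _
        rw [← e1]
        exact h1
  rcases k with _ | k
  · have h1 : |u.im - t| ≤ 1 := by
      rcases ht with rfl | h1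
      · simp
      · exact h1.2
    rw [DT_none]
    refine le_trans (le_of_eq ?_)
      ((((h w w' M hw hw' iw iw' b u (KA_none hw hw' hu)).2.2.2 t h1).1).trans c1)
    show ‖_ - _ * (((1 : ℝ) : ℂ) * _)‖ = _
    rw [Complex.ofReal_one, one_mul]
  · have ht' : u.im = t := by
      rcases ht with h1 | h1
      · exact h1
      · exact absurd h1.1 (by simp)
    cases k
    · rw [DT_L]
      have h1 : |u.im - t| ≤ 1 := by rw [ht']; simp
      refine le_trans (le_of_eq ?_)
        ((((h w w' M hw hw' iw iw' b u (KA_L hw hw' hu)).2.2.2 t h1).1).trans c1)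
      show ‖_ - _ * (((1 : ℝ) : ℂ) * _)‖ = _
      rw [Complex.ofReal_one, one_mul]
    · refine le_trans (le_of_eq ?_) ((hS .S (Or.inr rfl) hu ht').trans c2)
      show ‖_ - _ * (((2 : ℝ) : ℂ) * _)‖ = _
      rw [Complex.ofReal_ofNat]
    · refine le_trans (le_of_eq ?_) ((hS .T (Or.inl rfl) hu ht').trans c2)
      show ‖_ - _ * (((2 : ℝ) : ℂ) * _)‖ = _
      rw [Complex.ofReal_ofNat]

/-! ### objects -/

open NUO

theorem vl_re (σ t : ℝ) : (vl σ t).re = σ := by simp [NUP1.vl]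

theorem vl_im (σ t : ℝ) : (vl σ t).im = t := by simp [NUP1.vl]

theorem at_L {jL : ℝ} (h1 : 9 / 4 ≤ jL) (h2 : jL ≤ 27 / 10) (t : ℝ) :
    At (some .L) (posL jL t) ∧ (posL jL t).im = t := by
  have hl := lp
  refine ⟨?_, vl_im _ _⟩
  show -(17 / 10 * l) ≤ (vl ((1 - jL) * l) t).re ∧ (vl ((1 - jL) * l) t).re ≤ -(5 / 4 * l)
  rw [vl_re]
  constructor <;> nlinarith

theorem at_T (t : ℝ) : At (some .T) (posT t) ∧ (posT t).im = t :=
  ⟨vl_re _ _, vl_im _ _⟩

theorem posS_re (e t : ℝ) : (posS e t).re = -((1 + e) * l) := vl_re _ _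

theorem posS_im (e t : ℝ) : (posS e t).im = t := vl_im _ _

theorem at_S {e : ℝ} (h1 : 1 / 10 ≤ e) (h2 : e ≤ 3 / 10) (t : ℝ) :
    At (some .S) (posS e t) ∧ (posS e t).im = t := by
  have hl := lp
  refine ⟨?_, posS_im _ _⟩
  show -(13 / 10 * l) ≤ (posS e t).re ∧ (posS e t).re ≤ -(11 / 10 * l)
  rw [posS_re]
  constructor <;> nlinarith

theorem at_SV {e : ℝ} (h1 : 1 / 10 ≤ e) (h2 : e ≤ 3 / 10) (t : ℝ) :
    At none (posS e t + 2 * l) ∧ (posS e t + 2 * l).im = t := by
  have hl := lp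
  constructor
  · show 3 / 5 * l ≤ (posS e t + 2 * l).re ∧ (posS e t + 2 * l).re ≤ 6 / 5 * l
    have : (posS e t + 2 * (l : ℂ)).re = -((1 + e) * l) + 2 * l := by
      rw [add_re, posS_re]
      simp
    rw [this]
    constructor <;> nlinarith
  · rw [add_im, posS_im]
    simp

theorem circ_im (ρ a : ℝ) : (ρ * Complex.exp (2 * Real.pi * a * I)).im =
    ρ * Real.sin (2 * Real.pi * a) := by
  rw [show (2 * Real.pi * a * I : ℂ) = ((2 * Real.pi * a : ℝ) : ℂ) * I by push_cast; ring,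
    Complex.im_ofReal_mul, Complex.exp_ofReal_mul_I_im]

theorem at_V {e ρ : ℝ} (h1 : 1 / 10 ≤ e) (h2 : e ≤ 3 / 10) (h3 : 0 ≤ ρ) (h4 : ρ ≤ l / 10)
    (t a : ℝ) : At none (posV e ρ t a) ∧ |(posV e ρ t a).im - t| ≤ 1 := by
  have hl := lp
  have h8 := l8
  have hp := Real.pi_lt_four
  constructor
  · show 3 / 5 * l ≤ (posV e ρ t a).re ∧ (posV e ρ t a).re ≤ 6 / 5 * l
    rw [NUO.posV_re59]
    have c1 := Real.neg_one_le_cos (2 * Real.pi * a)
    have c2 := Real.cos_le_one (2 * Real.pi * a)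
    have e1 : (1 - e) * NUP1.l = NUP1.l - e * NUP1.l := by ring
    rw [e1]
    constructor <;> nlinarith
  · have e1 : (posV e ρ t a).im = t + ρ * Real.sin (2 * Real.pi * a) := by
      unfold NUO.posV
      rw [add_im, circ_im, add_im, posS_im]
      simp
    rw [e1, add_sub_cancel_left, abs_mul, abs_of_nonneg h3]
    have c1 := Real.abs_sin_le_one (2 * Real.pi * a)
    have c2 := abs_nonneg (Real.sin (2 * Real.pi * a))
    nlinarith

/-- the parameters of an object -/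
structure OPar (jL e ρ : ℝ) : Prop where
  j1 : 9 / 4 ≤ jL
  j2 : jL ≤ 27 / 10
  e1 : 1 / 10 ≤ e
  e2 : e ≤ 3 / 10
  r1 : 0 ≤ ρ
  r2 : ρ ≤ l / 10

theorem OPar.of {P : NUO.Par} (hP : NUGC.ParC P) {r : ℕ} (O : Fin r → Xo) (i : Fin r) :
    OPar P.jL (ei P O i) (rr P O i) := by
  have hl := lp
  obtain ⟨g1, g2⟩ := NUGC.ei_mem' hP.d0 O i
  have g3 := hP.e1
  have g4 := hP.e2 r
  have g5 := hP.d0 r
  refine ⟨hP.j1, hP.j2, by linarith, by linarith, (hP.r0 _ _).le, (hP.r1 _ _).trans ?_⟩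
  have hr : (0 : ℝ) ≤ r := Nat.cast_nonneg r
  rw [div_le_iff₀ (by positivity)]
  have h6 : P.d r ≤ 8 / 45 := by linarith
  have h7 : 0 ≤ l * P.d r := by positivity
  have h8 : l * P.d r ≤ l * (8 / 45) := mul_le_mul_of_nonneg_left h6 hl.le
  have h9 : 0 ≤ l * r := by positivity
  show NUP1.l * P.d r ≤ NUP1.l / 10 * (8 * (r + 1))
  nlinarith

/-- the total charge of an object: quanta X minus quanta Y -/
def dch (x : Xo) : ℂ := (chg true x : ℂ) - chg false x

/-- **the logarithm of an object against its limit** -/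
theorem obT_lim : ∃ C : ℝ, 0 ≤ C ∧ ∀ (w w' : ℂ) (M : ℝ), w.re = 5 / 4 * l → w'.re = 5 / 4 * l →
    |w.im| ≤ M → |w'.im| ≤ M → ∀ (jL e ρ : ℝ) (x : Xo), OPar jL e ρ →
      ‖PBF.obT (DT w w') jL e ρ x - sg1 (ht x) * (dch x * (I * (w - w')))‖ ≤
        C * (1 + M) * min 1 (Real.exp (2 * (M - |ht x|))) := by
  obtain ⟨C0, hC0, h⟩ := DT_lim
  refine ⟨3 * C0, by positivity, ?_⟩
  intro w w' M hw hw' iw iw' jL e ρ x hO
  have hM : 0 ≤ M := (abs_nonneg _).trans iw
  have hm : 0 ≤ min 1 (Real.exp (2 * (M - |ht x|))) := le_min zero_le_one (Real.exp_pos _).le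
  set E := min 1 (Real.exp (2 * (M - |ht x|))) with hE
  have hE0 : 0 ≤ C0 * (1 + M) * E := by positivity
  have H := fun b k u => h w w' M hw hw' iw iw' b k u (ht x)
  have aL := at_L hO.j1 hO.j2 (ht x)
  have aT := at_T (ht x)
  have aS := at_S hO.e1 hO.e2 (ht x)
  have aSV := at_SV hO.e1 hO.e2 (ht x)
  have aV := at_V hO.e1 hO.e2 hO.r1 hO.r2 (ht x) (an x)
  have sbn : ∀ b, ((sb (!b) : ℝ) : ℂ) = -(sb b : ℝ) := by
    intro b
    cases b <;> simp [PBTD.sb]
  unfold PBF.obT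
  rcases hk : kd x with _ | _ | _ | _ | _ <;> simp only []
  · have h1 := H (sp x) (some .L) _ aL.1 (Or.inl aL.2)
    have e1 : dch x = ((ch (some .L) : ℝ) : ℂ) * (sb (sp x) : ℝ) := by
      unfold dch chg ch
      rw [hk]
      cases sp x <;> simp [PBTD.sb]
    rw [e1, mul_assoc]
    refine h1.trans ?_
    linarith
  · have h1 := H (sp x) (some .T) _ aT.1 (Or.inl aT.2)
    have e1 : dch x = ((ch (some .T) : ℝ) : ℂ) * (sb (sp x) : ℝ) := by
      unfold dch chg ch
      rw [hk]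
      cases sp x <;> simp [PBTD.sb]
    rw [e1, mul_assoc]
    refine h1.trans ?_
    linarith
  · have h1 := H (sp x) (some .S) _ aS.1 (Or.inl aS.2)
    have e1 : dch x = ((ch (some .S) : ℝ) : ℂ) * (sb (sp x) : ℝ) := by
      unfold dch chg ch
      rw [hk]
      cases sp x <;> simp [PBTD.sb]
    rw [e1, mul_assoc]
    refine h1.trans ?_
    linarith
  · have h1 := H (sp x) (some .S) _ aS.1 (Or.inl aS.2)
    have h2 := H (!sp x) none _ aV.1 (Or.inr ⟨rfl, aV.2⟩)
    have e1 : dch x = ((ch (some .S) : ℝ) : ℂ) * (sb (sp x) : ℝ) +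
        ((ch none : ℝ) : ℂ) * (sb (!sp x) : ℝ) := by
      rw [sbn]
      unfold dch chg ch
      rw [hk]
      cases sp x <;> simp [PBTD.sb] <;> ring
    have e2 : DT w w' (sp x) (some .S) (posS e (ht x)) +
        DT w w' (!sp x) none (posV e ρ (ht x) (an x)) - sg1 (ht x) * (dch x * (I * (w - w'))) =
        (DT w w' (sp x) (some .S) (posS e (ht x)) -
          sg1 (ht x) * (ch (some .S) * (sb (sp x) * (I * (w - w'))))) +
        (DT w w' (!sp x) none (posV e ρ (ht x) (an x)) -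
          sg1 (ht x) * (ch none * (sb (!sp x) * (I * (w - w'))))) := by
      rw [e1]
      ring
    rw [e2]
    refine (norm_add_le _ _).trans ?_
    linarith
  · have h1 := H (sp x) (some .S) _ aS.1 (Or.inl aS.2)
    have h2 := H (!sp x) none _ aSV.1 (Or.inl aSV.2)
    have e1 : dch x = ((ch (some .S) : ℝ) : ℂ) * (sb (sp x) : ℝ) +
        2 * (((ch none : ℝ) : ℂ) * (sb (!sp x) : ℝ)) := by
      rw [sbn]
      unfold dch chg ch
      rw [hk]
      cases sp x <;> simp [PBTD.sb]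
    have e2 : DT w w' (sp x) (some .S) (posS e (ht x)) +
        2 * DT w w' (!sp x) none (posS e (ht x) + 2 * l) -
          sg1 (ht x) * (dch x * (I * (w - w'))) =
        (DT w w' (sp x) (some .S) (posS e (ht x)) -
          sg1 (ht x) * (ch (some .S) * (sb (sp x) * (I * (w - w'))))) +
        2 * (DT w w' (!sp x) none (posS e (ht x) + 2 * l) -
          sg1 (ht x) * (ch none * (sb (!sp x) * (I * (w - w'))))) := by
      rw [e1]
      ring
    rw [e2]
    refine (norm_add_le _ _).trans ?_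
    rw [norm_mul, Complex.norm_two]
    linarith

end PBTs

end
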