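import Pool.Agent.PB.UProps
import Pool.Agent.PB.WardFF
import Pool.Agent.PB.Conf
import Pool.Agent.PB.TRsP
import Pool.Agent.NUSea.Inst

/-!
# Transfer, s-path: the upper bounds `UB` in the form used by the Ward side

* `Vst_nu1` (U1): the linear statistic of `WardFF` is the sum of the statistics of the species;
* **`UB.vst`** (U2): `FS (w ‖Vst‖) ≤ B M m ^ ε bd`, the test functions depend on the objects;
* **`FS_lint`**, `FS_lint_le` (U3): the functional with moduli as an integral over the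
  configurations `CfN`; `evE`, `FS_lintE`: nonnegative insertions;
* `DN.of_mul`, `DN.sub`, `DN.pred`, `DN.seaT` (U4): densities; `DN.mono`, `DN.row`, `DN.add`.
-/

set_option autoImplicit false
set_option linter.unusedSectionVars false

noncomputable section

open Complex MeasureTheory Finset
open scoped ENNReal

namespace PBU

open NUO NUP1 NUP1S NUP1S.Ab NUP1S.AbC NUGC PBF PBP

variable [NUSea.Sea] {ι : Type}

/-! ### the linear statistic -/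

theorem zc_hq (η : ℝ → ℝ) (t : ℝ) : PBF.zc η t = hq η t := rfl

/-- **(U1)** the linear statistic is the sum of the statistics of the two species -/
theorem Vst_nu1 (e1 J : ℝ) (m : ℕ) (ρ : ℂ → ℂ) (g : Bool → ℂ → ℂ) (r : ℕ) (O : Fin r → Xo)
    (a b : ℕ) (x : (Fin a → ℝ) × (Fin b → ℝ)) :
    PBF.Vst (cr e1 J m) ρ g r O a b x =
      nu1 (fun t => ρ t) (etaC e1 J m m) true (g true) x +
        nu1 (fun t => ρ t) (etaC e1 J m m) false (g false) x := by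
  have e1' : ∑ k, g (spQ a b k) (zq (cr e1 J m) r O x k) =
      ∑ i, g true (hq (etaC e1 J m m) (x.1 i)) + ∑ i, g false (hq (etaC e1 J m m) (x.2 i)) := by
    rw [Fintype.sum_sum_type]
    rfl
  have e2 : ∑ s, ∫ u : ℝ, PB.rS ρ s u * g s (PB.eR u) =
      (∫ u : ℝ, ρ u * g true u) + ∫ u : ℝ, ρ u * g false u := by
    rw [Fintype.sum_bool]
    rfl
  unfold PBF.Vst PB.NX.nuL
  rw [e1', e2]
  unfold nu1
  simp only [if_true, Bool.false_eq_true, if_false]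
  ring

theorem Vst_enorm_le (e1 J : ℝ) (m : ℕ) (ρ : ℂ → ℂ) (g : Bool → ℂ → ℂ) (r : ℕ) (O : Fin r → Xo)
    (a b : ℕ) (x : (Fin a → ℝ) × (Fin b → ℝ)) :
    ‖PBF.Vst (cr e1 J m) ρ g r O a b x‖ₑ ≤
      ‖nu1 (fun t => ρ t) (etaC e1 J m m) true (g true) x‖ₑ +
        ‖nu1 (fun t => ρ t) (etaC e1 J m m) false (g false) x‖ₑ := by
  rw [Vst_nu1]
  exact enorm_add_le _ _

variable {F : Fam ι} {ep e1 J : ℝ} {m : ℕ} {i : ι} {p : ℕ} {K ε : ℝ}

/-- **(U2)**, positive size of the test functions -/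
theorem UB.vst_pos (h : UB F ep e1 J p K ε) (hp : 1 ≤ p) (C0 y₁ y₂ : ℝ) (h1 : y₁ < 0)
    (h2 : 0 < y₂) :
    ∃ m0 : ℕ, ∀ m ≥ m0, ∀ i : ι, F.ok m i → ∀ ρ : ℂ → ℂ, DN C0 m (fun t => ρ t) →
    ∀ B : ℝ, 0 ≤ B → ∀ w : (r : ℕ) → (Fin r → Xo) → ℝ, OW e1 K B m w →
    ∀ M : ℝ, 0 < M → ∀ g : (r : ℕ) → (Fin r → Xo) → Bool → ℂ → ℂ,
      (∀ r O b, BC y₁ y₂ M (g r O b)) →
      FS F ep e1 J m i (fun _ => 1) (fun r O a b x => ENNReal.ofReal (w r O) *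
          ‖PBF.Vst (cr e1 J m) ρ (g r O) r O a b x‖ₑ) ≤
      ENNReal.ofReal (B * M * (m : ℝ) ^ ε * F.bd m i) := by
  obtain ⟨m0, h0⟩ := h.stat C0 y₁ y₂ h1 h2
  refine ⟨m0, fun m hm i hi ρ hρ B hB w hw M hM g hg => ?_⟩
  have h3 := h0 m hm i hi (fun t => ρ t) hρ B hB w hw (fun _ => M) (fun _ => hM)
    (fun r O _ => g r O true) (fun r O _ => g r O false)
    (fun r O _ => ⟨hg r O true, hg r O false⟩) {⟨0, hp⟩}
  rw [Finset.prod_singleton] at h3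
  refine (FS_mono (fun _ => le_rfl) fun r O a b x => ?_).trans h3
  rw [Finset.prod_singleton]
  exact mul_le_mul' le_rfl (Vst_enorm_le _ _ _ _ _ _ _ _ _ _)

/-- **(U2)** the linear statistic, test functions depending on the objects -/
theorem UB.vst (h : UB F ep e1 J p K ε) (hp : 1 ≤ p) (C0 y₁ y₂ : ℝ) (h1 : y₁ < 0)
    (h2 : 0 < y₂) :
    ∃ m0 : ℕ, ∀ m ≥ m0, ∀ i : ι, F.ok m i → ∀ ρ : ℂ → ℂ, DN C0 m (fun t => ρ t) →
    ∀ B : ℝ, 0 ≤ B → ∀ w : (r : ℕ) → (Fin r → Xo) → ℝ, OW e1 K B m w →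
    ∀ M : ℝ, 0 ≤ M → ∀ g : (r : ℕ) → (Fin r → Xo) → Bool → ℂ → ℂ,
      (∀ r O b, BC y₁ y₂ M (g r O b)) →
      FS F ep e1 J m i (fun _ => 1) (fun r O a b x => ENNReal.ofReal (w r O) *
          ‖PBF.Vst (cr e1 J m) ρ (g r O) r O a b x‖ₑ) ≤
      ENNReal.ofReal (B * M * (m : ℝ) ^ ε * F.bd m i) := by
  obtain ⟨m0, h0⟩ := h.vst_pos hp C0 y₁ y₂ h1 h2
  refine ⟨m0, fun m hm i hi ρ hρ B hB w hw M hM g hg => ?_⟩
  have hc : Continuous fun M' : ℝ => ENNReal.ofReal (B * M' * (m : ℝ) ^ ε * F.bd m i) :=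
    ENNReal.continuous_ofReal.comp (by fun_prop)
  have ht : Filter.Tendsto (fun M' : ℝ => ENNReal.ofReal (B * M' * (m : ℝ) ^ ε * F.bd m i))
      (nhdsWithin M (Set.Ioi M)) (nhds (ENNReal.ofReal (B * M * (m : ℝ) ^ ε * F.bd m i))) :=
    (hc.tendsto M).mono_left nhdsWithin_le_nhds
  refine ge_of_tendsto ht ?_
  filter_upwards [self_mem_nhdsWithin] with M' hM'
  exact h0 m hm i hi ρ hρ B hB w hw M' (hM.trans_lt hM') g fun r O b => (hg r O b).mono hM'.le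

/-! ### the functional with moduli as an integral -/

/-- **(U3)** -/
theorem FS_lint {N : ℕ} (hN : N = F.top m)
    (h : MC (F.Z ep m i) (NUSea.O.par0 m) (cr e1 J m) (cr' e1 J m)) {Ψ : Ins} (hΨ : MIn Ψ) :
    ∫⁻ x, ‖wN (fun _ => F.Z ep m i) (fun _ => NUSea.O.par0 m) N (fun _ => cr e1 J m)
        (fun _ => cr' e1 J m) (fun _ => F.Pf m i) x‖ₑ * ‖evN (fun _ => Ψ) x‖ₑ ∂(mN N) =
      FS F ep e1 J m i (fun _ => 1) fun r O a b x => ‖Ψ r O a b x‖ₑ := by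
  subst hN
  rw [← FAN_eq (fun _ _ => h) (fun _ _ => hΨ)]
  unfold FAN FS
  refine Finset.sum_congr rfl fun n _ => ?_
  rw [one_mul, FA_eq_FE]

/-- **(U3)**, fewer quanta -/
theorem FS_lint_le {N : ℕ} (hN : N ≤ F.top m)
    (h : MC (F.Z ep m i) (NUSea.O.par0 m) (cr e1 J m) (cr' e1 J m)) {Ψ : Ins} (hΨ : MIn Ψ) :
    ∫⁻ x, ‖wN (fun _ => F.Z ep m i) (fun _ => NUSea.O.par0 m) N (fun _ => cr e1 J m)
        (fun _ => cr' e1 J m) (fun _ => F.Pf m i) x‖ₑ * ‖evN (fun _ => Ψ) x‖ₑ ∂(mN N) ≤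
      FS F ep e1 J m i (fun _ => 1) fun r O a b x => ‖Ψ r O a b x‖ₑ := by
  rw [← FAN_eq (fun _ _ => h) (fun _ _ => hΨ)]
  unfold FAN FS
  calc _ = ∑ n ∈ range (N + 1), (1 : ℝ≥0∞) * (‖F.Pf m i‖ₑ *
        FE (F.Z ep m i) (NUSea.O.par0 m) n n (cr e1 J m) (cr' e1 J m)
          fun r O a b x => ‖Ψ r O a b x‖ₑ) := by
        refine Finset.sum_congr rfl fun n _ => ?_
        rw [one_mul, FA_eq_FE]
    _ ≤ _ := Finset.sum_le_sum_of_subset (Finset.range_subset_range.2 (by omega))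

/-- a nonnegative insertion as a function of the configuration -/
def evE {N : ℕ} (φ : InsE) : CfN N → ℝ≥0∞ := fun x =>
  φ x.2.1.1 x.2.2.1 x.2.1.2.1 x.2.1.2.2 x.2.2.2

/-- joint measurability of a nonnegative insertion -/
def MInE (φ : InsE) : Prop := ∀ r a b : ℕ, Measurable
  fun p : (Fin r → Xo) × ((Fin a → ℝ) × (Fin b → ℝ)) => φ r p.1 a b p.2

theorem evE_enorm {N : ℕ} (Ψ : Ins) (x : CfN N) :
    evE (fun r O a b x => ‖Ψ r O a b x‖ₑ) x = ‖evN (fun _ => Ψ) x‖ₑ := rfl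

theorem MIn.toE {Ψ : Ins} (h : MIn Ψ) : MInE fun r O a b x => ‖Ψ r O a b x‖ₑ :=
  fun r a b => (h r a b).enorm

theorem MInE.mul {φ ψ : InsE} (h : MInE φ) (h' : MInE ψ) :
    MInE fun r O a b x => φ r O a b x * ψ r O a b x := fun r a b => (h r a b).mul (h' r a b)

theorem MInE.add {φ ψ : InsE} (h : MInE φ) (h' : MInE ψ) :
    MInE fun r O a b x => φ r O a b x + ψ r O a b x := fun r a b => (h r a b).add (h' r a b)

theorem MInE.evE {φ : InsE} (h : MInE φ) {N : ℕ} : Measurable (evE φ : CfN N → ℝ≥0∞) :=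
  PBFunc.meas_sig.2 fun _ => PBFunc.meas_sig.2 fun j => h j.1 j.2.1 j.2.2

/-- the complex insertion of a finite nonnegative insertion -/
theorem toC_enorm {c : ℝ≥0∞} (h : c ≠ ∞) : ‖((c.toReal : ℝ) : ℂ)‖ₑ = c := by
  rw [← ofReal_norm, norm_real, Real.norm_of_nonneg ENNReal.toReal_nonneg,
    ENNReal.ofReal_toReal h]

theorem MInE.toC {φ : InsE} (h : MInE φ) : MIn fun r O a b x => ((φ r O a b x).toReal : ℂ) :=
  fun r a b => measurable_ofReal.comp (h r a b).ennreal_toReal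

/-- (U3) for a finite nonnegative insertion -/
theorem FS_lintE {N : ℕ} (hN : N = F.top m)
    (h : MC (F.Z ep m i) (NUSea.O.par0 m) (cr e1 J m) (cr' e1 J m)) {φ : InsE} (hφ : MInE φ)
    (hf : ∀ r O a b x, φ r O a b x ≠ ∞) :
    ∫⁻ x, ‖wN (fun _ => F.Z ep m i) (fun _ => NUSea.O.par0 m) N (fun _ => cr e1 J m)
        (fun _ => cr' e1 J m) (fun _ => F.Pf m i) x‖ₑ * evE φ x ∂(mN N) =
      FS F ep e1 J m i (fun _ => 1) φ := by
  have h1 := FS_lint hN h hφ.toC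
  have e1 : (fun (r : ℕ) (O : Fin r → Xo) (a b : ℕ) (x : (Fin a → ℝ) × (Fin b → ℝ)) =>
      ‖((φ r O a b x).toReal : ℂ)‖ₑ) = φ := by
    funext r O a b x
    exact toC_enorm (hf r O a b x)
  rw [e1] at h1
  rw [← h1]
  refine lintegral_congr fun x => ?_
  rw [← evE_enorm, e1]

/-- (U3) for a finite nonnegative insertion, fewer quanta -/
theorem FS_lintE_le {N : ℕ} (hN : N ≤ F.top m)
    (h : MC (F.Z ep m i) (NUSea.O.par0 m) (cr e1 J m) (cr' e1 J m)) {φ : InsE} (hφ : MInE φ)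
    (hf : ∀ r O a b x, φ r O a b x ≠ ∞) :
    ∫⁻ x, ‖wN (fun _ => F.Z ep m i) (fun _ => NUSea.O.par0 m) N (fun _ => cr e1 J m)
        (fun _ => cr' e1 J m) (fun _ => F.Pf m i) x‖ₑ * evE φ x ∂(mN N) ≤
      FS F ep e1 J m i (fun _ => 1) φ := by
  have h1 := FS_lint_le hN h hφ.toC
  have e1 : (fun (r : ℕ) (O : Fin r → Xo) (a b : ℕ) (x : (Fin a → ℝ) × (Fin b → ℝ)) =>
      ‖((φ r O a b x).toReal : ℂ)‖ₑ) = φ := by
    funext r O a b x
    exact toC_enorm (hf r O a b x)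
  rw [e1] at h1
  refine le_trans (le_of_eq (lintegral_congr fun x => ?_)) h1
  rw [← evE_enorm, e1]

/-! ### densities -/

theorem DN.mono {C0 C0' : ℝ} {m : ℕ} {ρ : ℝ → ℂ} (h : DN C0 m ρ) (hC : C0 ≤ C0') : DN C0' m ρ :=
  ⟨h.1, h.2.trans hC⟩

/-- **(U4)** the multiples of the sea -/
theorem DN.of_mul {C0 : ℝ} {m : ℕ} {c : ℂ} (hc : ‖c - m‖ ≤ C0) :
    DN C0 m fun t => c * NUSea.P t := by
  refine ⟨NUSea.P_int.ofReal.const_mul c, ?_⟩
  have e : ∀ t : ℝ, ‖c * NUSea.P t - ((m : ℝ) : ℂ) * NUSea.P t‖ = ‖c - m‖ * NUSea.P t := by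
    intro t
    rw [← sub_mul, norm_mul, norm_real, Real.norm_of_nonneg (NUSea.P_pos t).le]
    push_cast
    rfl
  simp only [e]
  rw [integral_const_mul, NUSea.P_mass, mul_one]
  exact hc

/-- the same with the analytic density -/
theorem DN.of_mulc {C0 : ℝ} {m : ℕ} {c : ℂ} (hc : ‖c - m‖ ≤ C0) :
    DN C0 m fun t : ℝ => c * NUSea.Pc t := by
  have e : (fun t : ℝ => c * NUSea.Pc t) = fun t : ℝ => c * NUSea.P t := by
    funext t
    rw [NUSea.Pc_ofReal]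
  rw [e]
  exact DN.of_mul hc

/-- **(U4)** the density `(m - s) P` -/
theorem DN.sub {C0 s : ℝ} {m : ℕ} (hs : |s| ≤ C0) :
    DN C0 m fun t => (((m : ℝ) - s : ℝ) : ℂ) * NUSea.P t := by
  refine DN.of_mul ?_
  have e : (((m : ℝ) - s : ℝ) : ℂ) - m = -(s : ℂ) := by
    push_cast
    ring
  rw [e, norm_neg, norm_real, Real.norm_eq_abs]
  exact hs

/-- **(U4)** the density `(m - 1) P` -/
theorem DN.pred {m : ℕ} (hm : 1 ≤ m) : DN 1 m fun t => (((m - 1 : ℕ) : ℝ) : ℂ) * NUSea.P t := by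
  have h := DN.sub (C0 := 1) (s := 1) (m := m) (by norm_num)
  have e : ((m - 1 : ℕ) : ℝ) = (m : ℝ) - 1 := by
    push_cast [Nat.cast_sub hm]
    ring
  rw [e]
  exact h

/-- change of the number of rows -/
theorem DN.row {C0 : ℝ} {m m' : ℕ} {ρ : ℝ → ℂ} (h : DN C0 m ρ) :
    DN (C0 + |(m : ℝ) - m'|) m' ρ := by
  have hi : Integrable fun t : ℝ => ‖ρ t - (m : ℝ) * NUSea.P t‖ :=
    (h.1.sub (NUSea.P_int.ofReal.const_mul _)).norm
  have hi' : Integrable fun t : ℝ => ‖ρ t - (m' : ℝ) * NUSea.P t‖ :=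
    (h.1.sub (NUSea.P_int.ofReal.const_mul _)).norm
  refine ⟨h.1, ?_⟩
  have h1 : ∀ t : ℝ, ‖ρ t - (m' : ℝ) * NUSea.P t‖ ≤
      ‖ρ t - (m : ℝ) * NUSea.P t‖ + |(m : ℝ) - m'| * NUSea.P t := by
    intro t
    have e : ρ t - ((m' : ℝ) : ℂ) * NUSea.P t = (ρ t - ((m : ℝ) : ℂ) * NUSea.P t) +
        (((m : ℝ) - m' : ℝ) : ℂ) * NUSea.P t := by
      push_cast
      ring
    rw [e]
    refine (norm_add_le _ _).trans (le_of_eq ?_)
    rw [norm_mul, norm_real, norm_real, Real.norm_of_nonneg (NUSea.P_pos t).le, Real.norm_eq_abs]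
  calc ∫ t : ℝ, ‖ρ t - (m' : ℝ) * NUSea.P t‖
      ≤ ∫ t : ℝ, (‖ρ t - (m : ℝ) * NUSea.P t‖ + |(m : ℝ) - m'| * NUSea.P t) :=
        integral_mono hi' (hi.add (NUSea.P_int.const_mul _)) h1
    _ = (∫ t : ℝ, ‖ρ t - (m : ℝ) * NUSea.P t‖) + |(m : ℝ) - m'| := by
        rw [integral_add hi (NUSea.P_int.const_mul _), integral_const_mul, NUSea.P_mass, mul_one]
    _ ≤ _ := by linarith [h.2]

/-- a perturbation of the density -/
theorem DN.add {C0 C1 : ℝ} {m : ℕ} {ρ h : ℝ → ℂ} (hρ : DN C0 m ρ) (hh : Integrable h)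
    (h1 : ∫ t : ℝ, ‖h t‖ ≤ C1) : DN (C0 + C1) m fun t => ρ t + h t := by
  have hi : Integrable fun t : ℝ => ‖ρ t - (m : ℝ) * NUSea.P t‖ :=
    (hρ.1.sub (NUSea.P_int.ofReal.const_mul _)).norm
  have hi' : Integrable fun t : ℝ => ‖ρ t + h t - (m : ℝ) * NUSea.P t‖ :=
    ((hρ.1.add hh).sub (NUSea.P_int.ofReal.const_mul _)).norm
  refine ⟨hρ.1.add hh, ?_⟩
  have h2 : ∀ t : ℝ, ‖ρ t + h t - (m : ℝ) * NUSea.P t‖ ≤
      ‖ρ t - (m : ℝ) * NUSea.P t‖ + ‖h t‖ := by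
    intro t
    have e : ρ t + h t - ((m : ℝ) : ℂ) * NUSea.P t = (ρ t - ((m : ℝ) : ℂ) * NUSea.P t) + h t := by
      ring
    rw [e]
    exact norm_add_le _ _
  calc ∫ t : ℝ, ‖ρ t + h t - (m : ℝ) * NUSea.P t‖
      ≤ ∫ t : ℝ, (‖ρ t - (m : ℝ) * NUSea.P t‖ + ‖h t‖) :=
        integral_mono hi' (hi.add hh.norm) h2
    _ = (∫ t : ℝ, ‖ρ t - (m : ℝ) * NUSea.P t‖) + ∫ t : ℝ, ‖h t‖ := integral_add hi hh.norm
    _ ≤ _ := by linarith [hρ.2]

end PBU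

namespace PBU

section seaP

attribute [local instance] NUSea.seaP

/-- **(U4)** the sea of `n` rows of `TRsP` -/
theorem DN.seaT {C0 n : ℝ} {m : ℕ} (hn : |n - m| ≤ C0) :
    DN C0 m fun t : ℝ => PBTs.seaT n t := by
  have h := DN.of_mulc (C0 := C0) (m := m) (c := (n : ℂ)) (by
    have e : (n : ℂ) - m = ((n - m : ℝ) : ℂ) := by push_cast; rfl
    rw [e, norm_real, Real.norm_eq_abs]
    exact hn)
  exact h

end seaP

end PBU

end
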