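import Pool.Agent.PB.TRsX
import Pool.Agent.PB.TRsD

/-!
# Plan B, (TR): the object term of the Ward identity on the path, for the literal logarithms `DT`

* **`resp_DT`**: one absolute constant `C`,
  `‖∑ b, ∫ be b t * (I kP b (l + I t)) + stO (DT w w') P O‖ ≤ C (1 + M)² ∑ i, min 1 (e^{2 (M - |ht (O i)|)})`;
* **`obj_DT`**: the same with the sea and the regularised field, error `12 q B (1 + L) r (CO + 4)`;
* `obj_DT_pin`: in pins `e^{2 M} ∑ i, e^{-2 |ht (O i)|}`.
-/

set_option autoImplicit false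
set_option linter.unusedSectionVars false

noncomputable section

open Complex MeasureTheory Set Filter

namespace PBTs

open NUO NUP1 NUP1S NUP1S.Ab PBOR PBT3 PBF

/-- admissible parameters of an object -/
theorem OPar.of_PO {r : ℕ} {P : NUO.Par} {O : Fin r → Xo} (hP : PO P O) (i : Fin r) :
    OPar (9 / 4) (ei P O i) (rr P O i) := by
  have hl := Bd.l_pos
  have h1 := hP.e1 i
  have h2 := hP.r2 i
  refine ⟨le_refl _, by norm_num, by linarith, hP.e2 i, hP.r1 i, by linarith⟩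

/-- **the objects on the path, literally**: response of the objects plus the statistic of the
logarithms of the ratio -/
theorem resp_DT : ∃ C : ℝ, 0 ≤ C ∧ ∀ (w w' : ℂ), G5 w w' → ∀ (r : ℕ) (P : NUO.Par)
    (O : Fin r → Xo), PO P O →
    ‖(∑ b, ∫ t : ℝ, be w w' b t * (I * PBOR.kP P O b (l + I * t))) + stO (DT w w') P O‖ ≤
      C * (1 + MM w w') ^ 2 * ∑ i, min 1 (Real.exp (2 * (MM w w' - |ht (O i)|))) := by
  obtain ⟨C', hC', h⟩ := obT_lim
  have hCR : 0 ≤ CRX := by
    have h1 := CB_nonneg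
    have h2 := PBOR.CO_pos
    unfold CRX
    positivity
  refine ⟨CRX + C', by positivity, fun w w' hG r P O hP => ?_⟩
  have hM := MM_nonneg w w'
  have h1 := resp_stO hG hP (C' := C') (D := DT w w') fun i => by
    have h2 := h w w' (MM w w') hG.h hG.h' (le_max_left _ _) (le_max_right _ _) (9 / 4) (ei P O i)
      (rr P O i) (O i) (OPar.of_PO hP i)
    rw [limB_eq hG]
    exact h2
  refine h1.trans ?_
  have hs : 0 ≤ ∑ i, min 1 (Real.exp (2 * (MM w w' - |ht (O i)|))) :=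
    Finset.sum_nonneg fun i _ => le_min zero_le_one (Real.exp_pos _).le
  refine mul_le_mul_of_nonneg_right ?_ hs
  nlinarith [mul_nonneg hC' hM, mul_nonneg (mul_nonneg hC' hM) hM, mul_nonneg hCR hM]

/-- pins of the whole configuration -/
theorem sum_min_pin {r : ℕ} (M : ℝ) (O : Fin r → Xo) :
    ∑ i, min 1 (Real.exp (2 * (M - |ht (O i)|))) ≤
      Real.exp (2 * M) * ∑ i, Real.exp (-(2 * |ht (O i)|)) := by
  rw [Finset.mul_sum]
  exact Finset.sum_le_sum fun i _ => min_le_pin M (ht (O i))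

/-- **the object term of the mean statement**: sea `seaT n`, field `fldT n q be` -/
theorem obj_DT : ∃ C : ℝ, 0 ≤ C ∧ ∀ (w w' : ℂ), G5 w w' → ∀ (r : ℕ) (P : NUO.Par)
    (O : Fin r → Xo), PO P O → ∀ (b1 n q L B : ℝ), 0 < b1 → b1 < l → 0 ≤ n → 0 < q → 0 ≤ L → 0 ≤ B →
    (∀ b (t : ℝ), ‖fldT n q (be w w') b t‖ ≤ B * mn L t) →
    (∀ b, AEStronglyMeasurable fun t : ℝ => fldT n q (be w w') b t) →
    ‖stO (DT w w') P O + ∑ b, ∫ t : ℝ, seaT n t * (fldT n q (be w w') b t *
      (I * PBOR.kP P O b (l + I * t)))‖ ≤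
      C * (1 + MM w w') ^ 2 * ∑ i, min 1 (Real.exp (2 * (MM w w' - |ht (O i)|))) +
        12 * q * B * (1 + L) * (r * (PBOR.CO + 4)) := by
  obtain ⟨C, hC, h⟩ := resp_DT
  refine ⟨C, hC, fun w w' hG r P O hP b1 n q L B h0 hb hn hq hL hB hX hXm => ?_⟩
  have h1 := h w w' hG r P O hP
  have h2 := mass_obj hG hP h0 hb hn hq hL hB hX hXm
  have e : ∀ a c d : ℂ, a + c = (c - d) + (d + a) := by
    intro a c d
    ring
  rw [e _ _ (∑ b, ∫ t : ℝ, be w w' b t * (I * PBOR.kP P O b (l + I * t)))]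
  refine (norm_add_le _ _).trans ?_
  linarith

end PBTs
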