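import Pool.Agent.PotH.S4H
import Pool.Agent.PotH.CutI
import Pool.Agent.PB.TopG

/-!
# Plan B: the dislocated function, masses (U1)

* `tilt_poly`: polynomials of the number of quanta are absorbed by the tilt;
* `gas_S4H`: `PotH.s4H` without groups, in the form of `PBT.topG`; `cutX`, `envD`: the environment of
  the dislocated function; `gas_L`: the bound of its gas;
* **`topD_w`**: `‖Pf‖ ∑ n ≤ 2 m, (1 + |n - m|) ^ p FE (w) ≤ B m ^ δ exp (2 |Im z|)` for weights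
  `w r O ≤ B exp (K2 r) ∏ exp gT` of the objects, `-(9/10) l ≤ Re z < (37/10) l`,
  `|Im z| ≤ (3/20) log m + 2`, moved row `|Re x| ≤ l/10`, `|Im x| ≤ 2`; `topD_mass`: `w = 1`, `p = 0`.
-/

set_option autoImplicit false
set_option linter.unusedSectionVars false

noncomputable section

open Complex MeasureTheory Finset
open scoped ENNReal

namespace PBT

open NUO NUP1 NUP1S NUP1S.Ab NUP1S.AbC NUGC PBF
open PBL (mu1)
open PBP (gT)
open PotH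

/-! ### tilts and polynomials -/

/-- **a polynomial of the number of quanta changes the tilt** -/
theorem tilt_poly (p : ℕ) {d : ℝ} (hd : 0 < d) : ∃ C : ℝ, 0 ≤ C ∧ ∀ b' : ℝ, |b'| = d → ∀ m n : ℝ,
    ∃ b'' : ℝ, |b''| ≤ 2 * d ∧
      Real.exp (b' * (m - n)) * (1 + |n - m|) ^ p ≤ C * Real.exp (b'' * (m - n)) := by
  obtain ⟨C, hC⟩ : ∃ C : ℝ, C = (d⁻¹) ^ p * (p.factorial * Real.exp d) := ⟨_, rfl⟩
  have hC0 : 0 ≤ C := by rw [hC]; positivity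
  refine ⟨C, hC0, ?_⟩
  intro b' hb' m n
  have h1 : (1 + |n - m|) ^ p ≤ C * Real.exp (d * |n - m|) := by
    have h0 : 0 ≤ d * (1 + |n - m|) := by positivity
    have h2 := Real.pow_div_factorial_le_exp _ h0 p
    rw [div_le_iff₀ (by positivity), mul_pow] at h2
    calc (1 + |n - m|) ^ p = (d⁻¹) ^ p * (d ^ p * (1 + |n - m|) ^ p) := by
          rw [← mul_assoc, ← mul_pow, inv_mul_cancel₀ hd.ne', one_pow, one_mul]
      _ ≤ (d⁻¹) ^ p * (Real.exp (d * (1 + |n - m|)) * p.factorial) :=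
          mul_le_mul_of_nonneg_left h2 (by positivity)
      _ = C * Real.exp (d * |n - m|) := by
          rw [hC, mul_add, mul_one, Real.exp_add]
          ring
  rcases le_total 0 (b' * (m - n)) with h | h
  · refine ⟨2 * b', by rw [abs_mul, hb', abs_two], ?_⟩
    have e : d * |n - m| = b' * (m - n) := by
      rw [← hb', abs_sub_comm, ← abs_mul, abs_of_nonneg h]
    rw [e] at h1
    calc Real.exp (b' * (m - n)) * (1 + |n - m|) ^ p ≤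
        Real.exp (b' * (m - n)) * (C * Real.exp (b' * (m - n))) :=
          mul_le_mul_of_nonneg_left h1 (Real.exp_pos _).le
      _ = C * (Real.exp (b' * (m - n)) * Real.exp (b' * (m - n))) := by ring
      _ = C * Real.exp (2 * b' * (m - n)) := by
          rw [← Real.exp_add]
          congr 2
          ring
  · refine ⟨0, by rw [abs_zero]; positivity, ?_⟩
    have e : d * |n - m| = -(b' * (m - n)) := by
      rw [← hb', abs_sub_comm, ← abs_mul, abs_of_nonpos h]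
    rw [e] at h1
    calc Real.exp (b' * (m - n)) * (1 + |n - m|) ^ p ≤
        Real.exp (b' * (m - n)) * (C * Real.exp (-(b' * (m - n)))) :=
          mul_le_mul_of_nonneg_left h1 (Real.exp_pos _).le
      _ = C * (Real.exp (b' * (m - n)) * Real.exp (-(b' * (m - n)))) := by ring
      _ = C * Real.exp (0 * (m - n)) := by
          rw [← Real.exp_add]
          congr 2
          ring

/-! ### the gas without groups -/

section gen

variable [NUSea.Sea]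

/-- no groups -/
def g0 : Fin 0 → NUSea.H0.Gd := fun i => i.elim0

/-- mean field value, energy and linear terms of the current, potential against the sea -/
def linE (η η1 : ℝ → ℝ) (m : ℕ) (H : Bool → ℝ → ℝ) : ℝ :=
  NUSea.MF (m : ℝ) + (NUCR.bil (NUSea.hd m η η1) (NUSea.hd m η η1) - 24 * NUMF.l * crH η m 0 +
    ∑ a, ∫ t, (m : ℝ) * NUSea.P t * H a t)

theorem rgH_g0 (ep e1 : ℝ) {m n r : ℕ} (hn : n ≤ 3 * m) (hr : r ≤ 2 * n) {O : Fin r → Xo}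
    (h1 : chgO O true ≤ n) (h2 : chgO O false ≤ n) : RgH ep e1 m g0 0 0 m n O 0 0 where
  n2 := by norm_num
  sp := fun i => i.elim0
  ax := by norm_num
  ay := by norm_num
  q := by simp
  nu := by simp
  hN := hn
  hr := by omega
  hc1 := by omega
  hc2 := by omega
  E0 := le_rfl
  hE := fun i => i.elim0
  x0 := le_rfl
  hx := fun i => i.elim0

theorem prefH_g0 (m : ℕ) (Cst : ℝ) : prefH m g0 0 0 Cst = Cst * Real.exp (NUSea.MF (m : ℝ)) := by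
  unfold prefH
  simp

theorem linH_g0 (η η1 : ℝ → ℝ) (m : ℕ) (T1 : ℝ) (H : Bool → ℝ → ℝ) :
    NUSea.MF (m : ℝ) + linH η η1 m g0 T1 H = linE η η1 m H := by
  unfold linH linE
  rw [Finset.univ_eq_empty (α := Fin 0), Finset.sum_empty, mul_zero, sub_zero]

theorem enH_g0 (m : ℕ) {r : ℕ} (O : Fin r → Xo) (T1 : ℝ) (p q : ℕ) : enH m g0 O T1 p q = 0 := by
  unfold enH NUSea.H0.cstF
  simp

/-- **the gas without groups** -/
theorem gas_S4H : ∀ B0 N0 : ℝ, 0 ≤ B0 → 0 ≤ N0 → ∃ K Ca : ℝ, 0 ≤ K ∧ 0 ≤ Ca ∧ ∀ kap : ℝ, 0 < kap →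
    ∀ ep : ℝ, 0 < ep → ep ≤ 1 / 100 → ∀ e1 : ℝ, 0 < e1 → e1 ≤ 1 / 100 →
    ∀ Cc C0 : ℝ, 1 ≤ Cc → 1 ≤ C0 → ∀ δ : ℝ, 0 < δ →
    ∃ d Cst : ℝ, 0 < d ∧ 0 ≤ Cst ∧ ∃ m0 : ℕ, ∀ m : ℕ, m0 ≤ m →
    ∀ (η η1 cr Bc Bc' : ℝ → ℝ) (H H' : Bool → ℝ → ℝ) (B : OB),
    EnvH ep e1 Cc C0 B0 N0 d m η η1 cr Bc Bc' H H' B g0 →
    ∀ n : ℕ, n ≤ 3 * m → ∀ b' : ℝ, |b'| ≤ d → ∀ (r : ℕ) (O : Fin r → Xo), r ≤ 2 * n →
      chgO O true ≤ n → chgO O false ≤ n →
      ENNReal.ofReal (Real.exp (b' * ((m : ℝ) - n))) *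
        gasI B (NUSea.O.par0 m) η η1 O (n - chgO O true) (n - chgO O false) (fun _ => 1) ≤
      ENNReal.ofReal (Cst * (m : ℝ) ^ (3 / 8 + Ca * (ep + e1) + δ) *
        Real.exp (linE η η1 m H + (∑ i, oneEH m η (TW ep e1 m) O i + K * r + NUStabP.enC O +
          kap * NUDispW.win univ fun i => ht (O i)))) := by
  intro B0 N0 hB0 hN0
  obtain ⟨K, Ca, hK, hCa, HS⟩ := s4H B0 N0 hB0 hN0
  refine ⟨K, Ca, hK, hCa, ?_⟩
  intro kap hkap ep hep hep1 e1 he he1 Cc C0 hCc hC0 δ hδ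
  obtain ⟨d, Cst, hd, hCst, m0, HS⟩ := HS kap hkap ep hep hep1 e1 he he1 Cc C0 hCc hC0 δ hδ
  refine ⟨d, Cst, hd, hCst, m0, ?_⟩
  intro m hm η η1 cr Bc Bc' H H' B hE n hn b' hb' r O hr h1 h2
  have key := HS m hm 0 η η1 cr Bc Bc' H H' B g0 hE 0 0 m n b' r O 0 0 hb'
    (rgH_g0 ep e1 hn hr h1 h2)
  rw [prefH_g0, if_pos (show ∀ i : Fin 0, |(g0 i).τ| ≤ Real.log m ^ 2 from fun i => i.elim0),
    mul_one, enH_g0] at key
  have e : Real.exp (linE η η1 m H + (∑ i, oneEH m η (TW ep e1 m) O i + K * r + NUStabP.enC O +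
      kap * NUDispW.win univ fun i => ht (O i))) = Real.exp (NUSea.MF (m : ℝ)) *
      Real.exp (confEH m η (TW ep e1 m) K kap O + linH η η1 m g0 (T1H ep e1 m O 0) H + 0) := by
    rw [← Real.exp_add, ← linH_g0 η η1 m (T1H ep e1 m O 0) H]
    unfold confEH
    congr 1
    ring
  refine (le_of_eq ?_).trans (key.trans (le_of_eq ?_))
  · rfl
  · congr 1
    rw [e]
    ring

end gen

attribute [local instance] NUSea.seaP

/-- **the cutoff of the rows `x, 0, …, 0` with the points `± i` is admissible** -/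
theorem cutX {ep : ℝ} (hep : 0 < ep) (hep1 : ep ≤ 1 / 100) {e1 : ℝ} (he : 0 < e1)
    (he1 : e1 ≤ 1 / 100) (Cc : ℝ) : ∃ C0 : ℝ, 1 ≤ C0 ∧ ∃ m0 : ℕ, ∀ k : ℕ, m0 ≤ k → ∀ x : ℂ,
    |x.re| ≤ NUMF.l / 10 → |x.im| ≤ 2 → ∀ η η1 : ℝ → ℝ, CrvP e1 Cc (k + 1) η η1 →
    ∃ Bc Bc' : ℝ → ℝ, CutR ep C0 ((1 - e1) * Tb (Real.log (k + 1 : ℕ))) (k + 1)
      (fun t => ‖NUP1.phi (4 / 3 * (1 - ep)) (List.ofFn (mu1 k x) ++ [I, -I]) (pA η t)‖) Bc Bc' := by
  obtain ⟨C0, hC0, m0, -, H⟩ := exists_cutR hep hep1 he he1 Cc 3 (hh := 2) (by norm_num)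
  refine ⟨C0, hC0, m0, fun k hk x hx hx' η η1 hη => ?_⟩
  obtain ⟨Bc, Bc', H⟩ := H (k + 1) (hk.trans (Nat.le_succ k))
  have hl := NUMF.l_pos
  have hlN : NUP1.l = NUMF.l := rfl
  refine ⟨Bc, Bc', H k (List.ofFn (mu1 k x) ++ [I, -I]) [x, I, -I] ?_ η η1 hη⟩
  exact
    { perm := by
        rw [PBL.ofFn_mu1]
        exact (List.perm_middle (l₁ := List.replicate k (0 : ℂ)) (l₂ := [I, -I])).symm
      len := by simp
      pt := fun y hy => by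
        simp only [List.mem_cons, List.not_mem_nil, or_false] at hy
        rcases hy with rfl | rfl | rfl
        · rw [hlN]
          exact ⟨by linarith, hx'⟩
        · rw [Complex.I_re, Complex.I_im, abs_zero, abs_one, hlN]
          exact ⟨by positivity, by norm_num⟩
        · rw [Complex.neg_re, Complex.neg_im, Complex.I_re, Complex.I_im, neg_zero, abs_zero,
            abs_neg, abs_one, hlN]
          exact ⟨by positivity, by norm_num⟩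
      up := by omega
      dn := by omega }

/-- **the environment of the dislocated function** -/
theorem envD : ∃ B0 N0 : ℝ, 0 ≤ B0 ∧ 0 ≤ N0 ∧ ∀ ep : ℝ, 0 < ep → ep ≤ 1 / 100 →
    ∀ e1 : ℝ, 0 < e1 → e1 ≤ 1 / 100 → ∀ J : ℝ, 0 ≤ J →
    ∃ Cc C0 : ℝ, 1 ≤ Cc ∧ 1 ≤ C0 ∧ ∃ m0 : ℕ, ∀ k : ℕ, m0 ≤ k → ∀ x z : ℂ, |x.re| ≤ NUMF.l / 10 →
      |x.im| ≤ 2 → -(9 / 10 * NUMF.l) ≤ z.re → z.re < 37 / 10 * NUMF.l → ∀ d : ℝ, 0 ≤ d →
      ∃ (cr Bc Bc' : ℝ → ℝ) (H' : Bool → ℝ → ℝ),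
        EnvH ep e1 Cc C0 B0 N0 d (k + 1) (etL e1 J (k + 1)) (etL' e1 J (k + 1)) cr Bc Bc'
          (PBH.Hleg 1 z x (etL e1 J (k + 1))) H' (obL k (4 / 3 * (1 - ep)) x z) g0 := by
  have hl := NUMF.l_pos
  obtain ⟨B0, N0, hB0, hN0, HK⟩ := PBH.hok_legs (δ := NUMF.l / 10) (by linarith) (by linarith)
  refine ⟨B0, N0, hB0, hN0, ?_⟩
  intro ep hep hep1 e1 he he1 J hJ
  obtain ⟨Cc, hCc, mc, Hc⟩ := crvL he he1 hJ
  obtain ⟨C0, hC0, mk, HC⟩ := cutX hep hep1 he he1 Cc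
  obtain ⟨mh, HK⟩ := HK e1 he
  refine ⟨Cc, C0, hCc, hC0, max mc (max mk mh), ?_⟩
  intro k hk x z hx hx' z1 z2 d hd
  have k1 : mc ≤ k + 1 := ((le_max_left _ _).trans hk).trans (Nat.le_succ k)
  have k2 : mk ≤ k := ((le_max_left _ _).trans (le_max_right _ _)).trans hk
  have k3 : mh ≤ k + 1 := (((le_max_right _ _).trans (le_max_right _ _)).trans hk).trans
    (Nat.le_succ k)
  have hcr := Hc (k + 1) k1
  obtain ⟨Bc, Bc', hcut⟩ := HC k k2 x hx hx' _ _ hcr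
  obtain ⟨x1, x2⟩ := abs_le.1 hx
  have y1 : -NUMF.l + NUMF.l / 10 ≤ z.re := by linarith
  have y2 : z.re ≤ 4 * NUMF.l - NUMF.l / 10 := by linarith
  have y3 : |x.re| ≤ NUMF.l - NUMF.l / 10 := by linarith
  obtain ⟨hη, H', hok⟩ := HK (k + 1) k3 Cc _ _ hcr 1 z x (by norm_num) y1 y2 y3
  refine ⟨fun t => ‖NUP1.phi (4 / 3 * (1 - ep)) (List.ofFn (mu1 k x) ++ [I, -I])
    (pA (etL e1 J (k + 1)) t)‖, Bc, Bc', H', ?_⟩
  exact
    { crv := hcr
      cut := hcut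
      hok := hok d _ hd
      nn := obL_nn _ _ _ _
      dom := fun a t => (PBL.domL (δ := NUMF.l / 10) (by linarith) (by linarith)
        (fun t => ((hη true t).1).trans (by linarith)) y1 y2 y3 k (4 / 3 * (1 - ep)) [I, -I] []
        g0 a t).le }

/-- **the bound of the gas of the dislocated function** -/
theorem gas_L : ∃ K Ca : ℝ, 0 ≤ K ∧ 0 ≤ Ca ∧ ∀ kap : ℝ, 0 < kap →
    ∀ ep : ℝ, 0 < ep → ep ≤ 1 / 100 → ∀ e1 : ℝ, 0 < e1 → e1 ≤ 1 / 100 → ∀ J : ℝ, 0 ≤ J →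
    ∀ δ : ℝ, 0 < δ → ∃ d Cst : ℝ, 0 < d ∧ 0 ≤ Cst ∧ ∃ m0 : ℕ, ∀ k : ℕ, m0 ≤ k →
    ∀ x z : ℂ, |x.re| ≤ NUMF.l / 10 → |x.im| ≤ 2 → -(9 / 10 * NUMF.l) ≤ z.re →
      z.re < 37 / 10 * NUMF.l →
    ∀ n ≤ 2 * (k + 1), ∀ b' : ℝ, |b'| ≤ d → ∀ (r : ℕ) (O : Fin r → Xo), r ≤ 2 * n →
      chgO O true ≤ n → chgO O false ≤ n →
      ENNReal.ofReal (Real.exp (b' * (((k + 1 : ℕ) : ℝ) - n))) *
        gasI (obL k (4 / 3 * (1 - ep)) x z) (pL (k + 1)) (etL e1 J (k + 1))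
          (etL' e1 J (k + 1)) O (n - chgO O true) (n - chgO O false) (fun _ => 1) ≤
      ENNReal.ofReal (Cst * ((k + 1 : ℕ) : ℝ) ^ (3 / 8 + Ca * (ep + e1) + δ) *
        Real.exp (linL e1 J (k + 1) x z + (∑ i, oneEH (k + 1) (etL e1 J (k + 1))
          (TW ep e1 (k + 1)) O i + K * r + NUStabP.enC O +
          kap * NUDispW.win univ fun i => ht (O i)))) := by
  obtain ⟨B0, N0, hB0, hN0, HE⟩ := envD
  obtain ⟨K, Ca, hK, hCa, HG⟩ := gas_S4H B0 N0 hB0 hN0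
  refine ⟨K, Ca, hK, hCa, ?_⟩
  intro kap hkap ep hep hep1 e1 he he1 J hJ δ hδ
  obtain ⟨Cc, C0, hCc, hC0, mE, HE⟩ := HE ep hep hep1 e1 he he1 J hJ
  obtain ⟨d, Cst, hd, hCst, mG, HG⟩ := HG kap hkap ep hep hep1 e1 he he1 Cc C0 hCc hC0 δ hδ
  refine ⟨d, Cst, hd, hCst, max mE mG, ?_⟩
  intro k hk x z hx hx' z1 z2 n hn b' hb' r O hr h1 h2
  have k1 : mE ≤ k := (le_max_left _ _).trans hk
  have k2 : mG ≤ k + 1 := ((le_max_right _ _).trans hk).trans (Nat.le_succ k)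
  obtain ⟨cr, Bc, Bc', H', hEnv⟩ := HE k k1 x z hx hx' z1 z2 d hd.le
  exact HG (k + 1) k2 _ _ cr Bc Bc' _ H' _ hEnv n (by omega) b' hb' r O hr h1 h2

/-- **U1 with weights**: objects and number of quanta -/
theorem topD_w (hS : NUStabP.StabProd) (p : ℕ) (K2 : ℝ) {del : ℝ} (hdel : 0 < del) :
    ∃ a0 : ℝ, 0 < a0 ∧ ∀ ep : ℝ, 0 < ep → ep ≤ 1 / 100 → ∀ e1 : ℝ, 0 < e1 → e1 ≤ 1 / 100 →
    ∀ J : ℝ, 0 ≤ J → Real.exp (-(2 * Real.pi * J)) + 3 * e1 + 3 * ep ≤ a0 →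
    ∃ m0 : ℕ, ∀ k : ℕ, m0 ≤ k → ∀ x z : ℂ, |x.re| ≤ NUMF.l / 10 → |x.im| ≤ 2 →
      -(9 / 10 * NUMF.l) ≤ z.re → z.re < 37 / 10 * NUMF.l →
      |z.im| ≤ 3 / 20 * Real.log (k + 1 : ℕ) + 2 → ∀ c : Bool → ℂ,
      (∀ a, ‖c a‖ = 2 * Real.cos NUP1.l) →
      ∀ (w : (r : ℕ) → (Fin r → Xo) → ℝ) (B : ℝ), 0 ≤ B →
      (∀ (r : ℕ) (O : Fin r → Xo), w r O ≤ B * Real.exp (K2 * r) *
        Real.exp (∑ i, gT e1 (Real.log (k + 1 : ℕ)) (ht (O i)))) →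
      ENNReal.ofReal ‖Pool.Agent.PB.Pf z (mu1 k x) (mu1 k x)‖ *
        ∑ n ∈ range (2 * (k + 1) + 1), FE (ZL c k (4 / 3 * (1 - ep)) x z) (pL (k + 1)) n n
          (crL e1 J (k + 1)) (crL' e1 J (k + 1)) (fun r O _ _ _ =>
            ENNReal.ofReal ((1 + |(n : ℝ) - (k + 1 : ℕ)|) ^ p * w r O)) ≤
        ENNReal.ofReal (B * ((k + 1 : ℕ) : ℝ) ^ del * Real.exp (2 * |z.im|)) := by
  obtain ⟨K, Ca, hK, hCa, HG⟩ := gas_L
  obtain ⟨c1, hc1, HT⟩ := topG hS K K2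
  obtain ⟨a0, ha0, HT⟩ := HT 0 le_rfl (del / 4) (by linarith)
  have hCa1 : 0 < Ca + 1 := by linarith
  refine ⟨min a0 (del / (4 * (Ca + 1))), lt_min ha0 (by positivity), ?_⟩
  intro ep hep hep1 e1 he he1 J hJ hsm
  obtain ⟨d, Cst, hd, hCst, mG, HG⟩ := HG c1 hc1 ep hep hep1 e1 he he1 J hJ (del / 4)
    (by linarith)
  obtain ⟨CT, hCT, mT, HT⟩ := HT ep hep hep1 e1 he he1 J hJ (hsm.trans (min_le_left _ _))
  obtain ⟨Cp, hCp, HP⟩ := tilt_poly p (d := d / 2) (by linarith)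
  obtain ⟨Dd, hDd⟩ : ∃ D, D = 2 / (1 - Real.exp (-(d / 2))) := ⟨_, rfl⟩
  have hDd0 : 0 ≤ Dd := by
    rw [hDd]
    have : Real.exp (-(d / 2)) < 1 := by
      rw [← Real.exp_zero]
      exact Real.exp_lt_exp.2 (by linarith)
    exact div_nonneg (by norm_num) (by linarith)
  have t2 := (tendsto_rpow_atTop (show 0 < del / 4 by linarith)).comp
    (tendsto_natCast_atTop_atTop (R := ℝ))
  obtain ⟨m5, hm5⟩ := Filter.eventually_atTop.1 (t2.eventually_ge_atTop (CT * (Cst * Cp) * Dd))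
  refine ⟨max mG (max mT m5), ?_⟩
  intro k hk x z hx hx' z1 z2 z3 c hc w B hB hw
  have k2 : mG ≤ k := (le_max_left _ _).trans hk
  have k3 : mT ≤ k := (le_max_left _ _).trans ((le_max_right _ _).trans hk)
  have k4 : m5 ≤ k + 1 := ((le_max_right _ _).trans ((le_max_right _ _).trans hk)).trans
    (Nat.le_succ k)
  have HG := HG k k2 x z hx hx' z1 z2
  obtain ⟨M, hM⟩ : ∃ M : ℝ, M = ((k + 1 : ℕ) : ℝ) := ⟨_, rfl⟩
  have hM1 : 1 ≤ M := by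
    rw [hM]
    exact_mod_cast Nat.le_add_left 1 k
  have hM0 : 0 < M := by linarith
  obtain ⟨ex, hex⟩ : ∃ e : ℝ, e = 3 / 8 + Ca * (ep + e1) + del / 4 := ⟨_, rfl⟩
  have key := HT k k3 x z hx hx' z1 z2 z3 c hc (fun n r O _ _ _ =>
    ENNReal.ofReal ((1 + |(n : ℝ) - (k + 1 : ℕ)|) ^ p * w r O)) (fun _ r O => max (w r O) 0)
    (Cst * Cp * M ^ ex) B (d / 2) (by positivity) hB (by linarith) ?_ ?_
  · refine key.trans (ENNReal.ofReal_le_ofReal ?_)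
    rw [← hDd, ← hM]
    have hsm2 := hsm.trans (min_le_right _ _)
    have hsum : Ca * (ep + e1) ≤ del / 4 := by
      have h1 := Real.exp_pos (-(2 * Real.pi * J))
      have h2 : ep + e1 ≤ del / (4 * (Ca + 1)) := by linarith
      calc Ca * (ep + e1) ≤ (Ca + 1) * (ep + e1) := by nlinarith
        _ ≤ (Ca + 1) * (del / (4 * (Ca + 1))) := mul_le_mul_of_nonneg_left h2 hCa1.le
        _ = del / 4 := by field_simp
    have h5 : CT * (Cst * Cp) * Dd ≤ M ^ (del / 4) := by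
      rw [hM]
      exact hm5 (k + 1) k4
    have h6 : M ^ ex * M ^ (-(3 / 8 : ℝ) + del / 4) ≤ M ^ (3 * del / 4) := by
      rw [← Real.rpow_add hM0, hex]
      refine Real.rpow_le_rpow_of_exponent_le hM1 ?_
      linarith
    have h7 : M ^ (del / 4) * M ^ (3 * del / 4) = M ^ del := by
      rw [← Real.rpow_add hM0]
      congr 1
      ring
    have he0 := Real.exp_pos (2 * |z.im|)
    calc CT * B * (Cst * Cp * M ^ ex) * M ^ (-(3 / 8 : ℝ) + del / 4) * Real.exp (2 * |z.im|) * Dd =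
        B * (CT * (Cst * Cp) * Dd) * (M ^ ex * M ^ (-(3 / 8 : ℝ) + del / 4)) *
          Real.exp (2 * |z.im|) := by ring
      _ ≤ B * M ^ (del / 4) * M ^ (3 * del / 4) * Real.exp (2 * |z.im|) := by
          refine mul_le_mul_of_nonneg_right ?_ he0.le
          refine mul_le_mul (mul_le_mul_of_nonneg_left h5 hB) h6 (by positivity) (by positivity)
      _ = _ := by
          rw [mul_assoc B, h7]
  · intro n _ r _ O
    refine ⟨le_max_right _ _, max_le ?_ (by split_ifs <;> positivity)⟩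
    have h1 := hw r O
    split_ifs
    · exact h1
    · rw [zero_mul, Real.exp_zero, mul_one]
      exact h1
  · intro b' hb' n hn r hr O h1 h2
    have hw0 : 0 ≤ max (w r O) 0 := le_max_right _ _
    obtain ⟨b'', hb'', hP⟩ := HP b' hb' ((k + 1 : ℕ) : ℝ) n
    have hgas := HG n hn b'' (by linarith) r O hr h1 h2
    obtain ⟨g1, hg1⟩ : ∃ g1, g1 = gasI (obL k (4 / 3 * (1 - ep)) x z) (pL (k + 1))
      (etL e1 J (k + 1)) (etL' e1 J (k + 1)) O (n - chgO O true) (n - chgO O false)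
      (fun _ => 1) := ⟨_, rfl⟩
    have hc0 : gasI (obL k (4 / 3 * (1 - ep)) x z) (pL (k + 1)) (etL e1 J (k + 1))
        (etL' e1 J (k + 1)) O (n - chgO O true) (n - chgO O false)
        (fun _ => ENNReal.ofReal ((1 + |(n : ℝ) - (k + 1 : ℕ)|) ^ p * w r O)) =
        ENNReal.ofReal ((1 + |(n : ℝ) - (k + 1 : ℕ)|) ^ p * w r O) * g1 := by
      rw [hg1, gasI_one]
      exact PBZ.Z1S_const ENNReal.ofReal_ne_top
    show ENNReal.ofReal (Real.exp (b' * (((k + 1 : ℕ) : ℝ) - n))) *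
      gasI (obL k (4 / 3 * (1 - ep)) x z) (pL (k + 1)) (etL e1 J (k + 1))
        (etL' e1 J (k + 1)) O (n - chgO O true) (n - chgO O false)
        (fun _ => ENNReal.ofReal ((1 + |(n : ℝ) - (k + 1 : ℕ)|) ^ p * w r O)) ≤ _
    rw [hc0, ← mul_assoc, ← ENNReal.ofReal_mul (Real.exp_pos _).le]
    obtain ⟨R, hR⟩ : ∃ R : ℝ, R = Cst * ((k + 1 : ℕ) : ℝ) ^ (3 / 8 + Ca * (ep + e1) + del / 4) *
        Real.exp (linL e1 J (k + 1) x z + (∑ i, oneEH (k + 1) (etL e1 J (k + 1))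
          (TW ep e1 (k + 1)) O i + K * r + NUStabP.enC O +
          c1 * NUDispW.win univ fun i => ht (O i))) := ⟨_, rfl⟩
    rw [← hg1, ← hR] at hgas
    calc ENNReal.ofReal (Real.exp (b' * (((k + 1 : ℕ) : ℝ) - n)) *
          ((1 + |(n : ℝ) - (k + 1 : ℕ)|) ^ p * w r O)) * g1 ≤
        ENNReal.ofReal (max (w r O) 0 * Cp * Real.exp (b'' * (((k + 1 : ℕ) : ℝ) - n))) * g1 := by
          refine mul_le_mul_left (ENNReal.ofReal_le_ofReal ?_) _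
          calc Real.exp (b' * (((k + 1 : ℕ) : ℝ) - n)) *
                ((1 + |(n : ℝ) - (k + 1 : ℕ)|) ^ p * w r O) =
              (Real.exp (b' * (((k + 1 : ℕ) : ℝ) - n)) *
                (1 + |(n : ℝ) - (k + 1 : ℕ)|) ^ p) * w r O := by ring
            _ ≤ (Real.exp (b' * (((k + 1 : ℕ) : ℝ) - n)) *
                (1 + |(n : ℝ) - (k + 1 : ℕ)|) ^ p) * max (w r O) 0 :=
                mul_le_mul_of_nonneg_left (le_max_left _ _) (by positivity)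
            _ ≤ (Cp * Real.exp (b'' * (((k + 1 : ℕ) : ℝ) - n))) * max (w r O) 0 :=
                mul_le_mul_of_nonneg_right hP hw0
            _ = _ := by ring
      _ = ENNReal.ofReal (max (w r O) 0 * Cp) *
          (ENNReal.ofReal (Real.exp (b'' * (((k + 1 : ℕ) : ℝ) - n))) * g1) := by
          rw [ENNReal.ofReal_mul (by positivity), mul_assoc]
      _ ≤ ENNReal.ofReal (max (w r O) 0 * Cp) * ENNReal.ofReal R := mul_le_mul_right hgas _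
      _ = _ := by
          rw [← ENNReal.ofReal_mul (by positivity)]
          congr 1
          rw [hR, hM, hex]
          ring

/-- **U1**: the mass of the dislocated function -/
theorem topD_mass (hS : NUStabP.StabProd) {del : ℝ} (hdel : 0 < del) :
    ∃ a0 : ℝ, 0 < a0 ∧ ∀ ep : ℝ, 0 < ep → ep ≤ 1 / 100 → ∀ e1 : ℝ, 0 < e1 → e1 ≤ 1 / 100 →
    ∀ J : ℝ, 0 ≤ J → Real.exp (-(2 * Real.pi * J)) + 3 * e1 + 3 * ep ≤ a0 →
    ∃ m0 : ℕ, ∀ k : ℕ, m0 ≤ k → ∀ x z : ℂ, |x.re| ≤ NUMF.l / 10 → |x.im| ≤ 2 →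
      -(9 / 10 * NUMF.l) ≤ z.re → z.re < 37 / 10 * NUMF.l →
      |z.im| ≤ 3 / 20 * Real.log (k + 1 : ℕ) + 2 → ∀ c : Bool → ℂ,
      (∀ a, ‖c a‖ = 2 * Real.cos NUP1.l) →
      ENNReal.ofReal ‖Pool.Agent.PB.Pf z (mu1 k x) (mu1 k x)‖ *
        ∑ n ∈ range (2 * (k + 1) + 1), FE (ZL c k (4 / 3 * (1 - ep)) x z) (pL (k + 1)) n n
          (crL e1 J (k + 1)) (crL' e1 J (k + 1)) (fun _ _ _ _ _ => 1) ≤
        ENNReal.ofReal (((k + 1 : ℕ) : ℝ) ^ del * Real.exp (2 * |z.im|)) := by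
  obtain ⟨a0, ha0, H⟩ := topD_w hS 0 0 hdel
  refine ⟨a0, ha0, ?_⟩
  intro ep hep hep1 e1 he he1 J hJ hsm
  obtain ⟨m0, H⟩ := H ep hep hep1 e1 he he1 J hJ hsm
  refine ⟨m0, ?_⟩
  intro k hk x z hx hx' z1 z2 z3 c hc
  have h := H k hk x z hx hx' z1 z2 z3 c hc (fun _ _ => 1) 1 zero_le_one
    (fun r O => by
      rw [one_mul, zero_mul, Real.exp_zero, one_mul]
      refine Real.one_le_exp (Finset.sum_nonneg fun i _ => ?_)
      exact PBP.gT_nonneg _ _ _)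
  simpa using h

end PBT

end
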