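import Pool.Agent.PB.AsmI
import Pool.Agent.PB.AsmKR
import Pool.Agent.PB.ClsR40

/-!
# Plan B: the class `W1 W1'` at fixed half quanta, with statistics and pinned objects (U5N)

Abstract geometry `G : PBO.Geo`, base functions `X` (`PBR.Bs`), half quanta at `5/4 l + i y.1`,
`5/4 l + i y.2`, both heights in the window `TW`.

* `ZW X y`: the one body functions of the class; `oneC_WW`;
* `FnI_congr`: the terms only see `DomC`;
* **`topR_gas`**: the sum over the numbers of quanta and the configurations of the functional with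
  moduli, with a statistic `Φ i` and a weight of the objects `w ≤ Bw e^{K2 r} ∏ exp gT`, is at most
  `Bw Cst m^(Ca (ep + e1) + δ) exp (m² EM) exp (m MF) exp (m MF') exp (- gnP) exp (|τ - τ'| / 2)`;
* **`topR`**: times the kernels: `Bw Cst m^e exp (m² EM) exp (- 2|τ| - 2|τ'| - |τ - τ'| / 2)`.
-/

set_option autoImplicit false
set_option linter.unusedSectionVars false

noncomputable section

open Complex MeasureTheory Finset
open scoped ENNReal

namespace PBI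

open NUGC PBO PBF PotH PBR
open NUO NUP1 NUCR NUP1S NUP1S.Ab NUP1S.AbC NUP1S.AbG NURow NUP1.Leg NUStabP NUDispW
open NUSea.H0 (Gd)
open NUSp (qc)
open PBP (gT)

/-! ### the one body functions of the class -/

/-- the one body functions of the class `W1 W1'`, half quanta at the heights `y` -/
def ZW (X : Bool → Option O3 → ℂ → ℂ) (y : ℝ × ℝ) (b : Bool) : Option O3 → ℂ → ℂ :=
  XS b (X b) (htF .W) (fl (htF .W)) (vl (htL .W) y.1) (vl (htL .W) y.2)

/-- moduli of the spectators of the quanta -/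
def gW (y : ℝ × ℝ) (a : Bool) (z : ℂ) : ℝ :=
  ‖sG (htF .W) (htF .W) (vl (htL .W) y.1) (vl (htL .W) y.2) a z‖

theorem oneC_WW {X : Bool → Option O3 → ℂ → ℂ} {ob : (Bool → ℂ → ℝ) → OB} {P : NUO.Par}
    {x κ : ℝ} {E0 : Set ℝ} (hB : Bs X ob P x κ E0) (y : ℝ × ℝ) :
    OneC (ZW X y) (ob (gW y)) P x κ (19 / 20 * l) 0
      ({(vl (htL .W) y.1).im, (vl (htL .W) y.2).im} ∪ E0) := by
  have hl := l_pos
  have hF := HG_ht .W
  have hw : (vl (htL .W) y.1).re = htL .W := by simp [vl]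
  have hw' : (vl (htL .W) y.2).re = htL .W := by simp [vl]
  have hms1 : ∀ a, Measurable (sG (htF .W) (htF .W) (vl (htL .W) y.1) (vl (htL .W) y.2) a) :=
    fun a => ((hF.ms a _).comp (measurable_const.sub measurable_id)).mul
      ((hF.ms (!a) _).comp (measurable_const.sub measurable_id))
  have hms2 : ∀ a, Measurable (s2G (htF .W) (htF .W) (vl (htL .W) y.1) (vl (htL .W) y.2) a) :=
    fun a => ((hF.ms a _).comp (measurable_const.sub measurable_id)).mul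
      ((hF.ms (!a) _).comp (measurable_const.sub measurable_id))
  have hdiv : ∀ a, (fun u => tG (htT .W) (htT .W) (vl (htL .W) y.1) (vl (htL .W) y.2) a u /
      dX (esE (b := htP .W) (b' := htP .W)) (epE (vl (htL .W) y.1) (vl (htL .W) y.2)) a u) =
      sG (htF .W) (htF .W) (vl (htL .W) y.1) (vl (htL .W) y.2) a := fun a =>
    funext fun u => tG_div hF hF a u
  have hA : ∀ a, SpecAt (19 / 20 * l) a ((((0 : ℕ) : ℤ) - ((0 : ℕ) : ℤ) : ℤ) : ℝ)
      (sG (htF .W) (htF .W) (vl (htL .W) y.1) (vl (htL .W) y.2) a) := by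
    intro a
    have h := (specP_two hF hF hw hw' (aX := 0) (aY := 0) (by norm_num) a).at (fun j => by
      obtain ⟨j, hj⟩ := j
      cases j <;> simp [htP] at hj)
    rw [hdiv a] at h
    exact h
  have hS2 : ∀ a, SpecS P {(vl (htL .W) y.1).im, (vl (htL .W) y.2).im}
      (sG (htF .W) (htF .W) (vl (htL .W) y.1) (vl (htL .W) y.2) a)
      (s2G (htF .W) (htF .W) (vl (htL .W) y.1) (vl (htL .W) y.2) a) := by
    intro a
    have h := specS_two (P := P) hF hF (w := vl (htL .W) y.1) (w' := vl (htL .W) y.2) a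
    rw [hdiv a] at h
    exact h
  have key := hB.one (19 / 20 * l) (by linarith) le_rfl (((0 : ℕ) : ℤ) - ((0 : ℕ) : ℤ)) _ _ _
    hms1 hms2 hA hS2 ((Set.toFinite _).measure_zero _)
  have e : (fun a => spX (X a) (sG (htF .W) (htF .W) (vl (htL .W) y.1) (vl (htL .W) y.2) a)
      (s2G (htF .W) (htF .W) (vl (htL .W) y.1) (vl (htL .W) y.2) a)) = ZW X y := by
    funext a
    exact spX_XS a (X a) (S := htF .W) (S' := fl (htF .W)) (hF.kL a) (hF.kT a) (hF.kL _)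
      (hF.kT _) _ _
  rw [e, show (((0 : ℕ) : ℤ) - ((0 : ℕ) : ℤ)) = 0 by simp] at key
  exact key

/-! ### the terms only see `DomC` -/

theorem FnI_congr {B B' : OB} {P : NUO.Par} {ep : ℝ} {r : ℕ} (hP : ParC P) (hj : P.jL = 9 / 4)
    (he : P.e = 1 / 4) (hR : ∀ a, ∀ z ∈ DomC, B.R a z = B'.R a z) (hφ : B.φ = B'.φ)
    (hφ0 : B.φ0 = B'.φ0) (hep' : ep ≤ 1 / 100) {η η' : ℝ → ℝ}
    (hη : CurB ep η η') (nX nY : ℕ) (O : Fin r → Xo)
    (ψ : (a b : ℕ) → (Fin a → ℝ) × (Fin b → ℝ) → ℝ≥0∞) :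
    PBF.FnI B P η η' nX nY O ψ = PBF.FnI B' P η η' nX nY O ψ := by
  have hl := l_pos
  have h1 : ∀ i, ob1c B P.jL (ei P O i) (rr P O i) (O i) =
      ob1c B' P.jL (ei P O i) (rr P O i) (O i) := by
    intro i
    have e2 := hP.e2 r
    have d0 := hP.d0 r
    obtain ⟨g1, g2⟩ := ei_mem' hP.d0 O i
    have hρ0 : 0 ≤ rr P O i := (hP.r0 _ _).le
    have hρ : rr P O i ≤ l * P.d r / (8 * (r + 1)) := hP.r1 _ _
    have hr : (0 : ℝ) ≤ r := by positivity
    have hρ' : l * P.d r / (8 * (r + 1)) ≤ l / 20 := by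
      rw [div_le_iff₀ (by positivity)]
      nlinarith [mul_nonneg hl.le hr]
    rw [hj]
    exact ob1c_congr hR hφ hφ0 (by linarith) (by linarith) hρ0 (hρ.trans hρ') _
  have h2 : objWc B P O = objWc B' P O := by
    unfold objWc
    rw [Finset.prod_congr rfl fun i _ => h1 i]
  have h3 : ∀ a, qAc B P η O a = qAc B' P η O a := by
    intro a
    funext t
    unfold qAc
    have : NUO.pA η t ∈ DomC := by
      refine Or.inr (Or.inr (Or.inr (Or.inr ?_)))
      have h4 := abs_le.1 (hη.h1 t)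
      have h5 : (NUO.pA η t).re = l - η t := by
        unfold NUO.pA vl
        simp
      rw [h5]
      exact ⟨by nlinarith [h4.1], by nlinarith [h4.2]⟩
    rw [hR _ _ this, hφ]
  unfold PBF.FnI
  rw [h2, h3, h3]

/-- **the tilted bound with an insertion only sees `DomC`** -/
theorem PerI.congr {C C' c b : ℝ} {k : ℕ} {c1 c' L ep e1 J ν d : ℝ} {N : ℕ} {B B' : OB}
    {P : NUO.Par} {aX aY : ℕ} {η η' : ℕ → Crs} {φ : ℕ → InsE} {Q : ℝ} (hP : ParC P)
    (hj : P.jL = 9 / 4) (he : P.e = 1 / 4) (hR : ∀ a, ∀ z ∈ DomC, B.R a z = B'.R a z)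
    (hφ : B.φ = B'.φ) (hφ0 : B.φ0 = B'.φ0) (hep' : ep ≤ 1 / 100)
    (hη : ∀ n ≤ N, ∀ r O, CurB ep (η n r O) (η' n r O))
    (h : PerI C C' c b k c1 c' L ep e1 J ν d N B P aX aY η η' φ Q) :
    PerI C C' c b k c1 c' L ep e1 J ν d N B' P aX aY η η' φ Q := by
  intro n hn b' hb' r hr O W
  rw [← FnI_congr hP hj he hR hφ hφ0 hep' (hη n hn r O) (n + aX) (n + aY) O (φ n r O)]
  exact h n hn b' hb' r hr O W

/-! ### the class -/

theorem gW_eq (B : OB) (y : ℝ × ℝ) (a : Bool) {z : ℂ} (hz : z ∈ DomC) :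
    (B.mul (spF (gdK .W .W (false, false) y))).R a z = (B.mul (gW y)).R a z := by
  rw [spF_gdK]
  have h := PBO.obKB_eq B (t := .W) (t' := .W) (i := false) (i' := false) (by simp) (by simp)
    y.1 y.2 a hz
  rw [← h]
  show B.R a z * ‖sV (sG (htF .W) (htF .W) (vl (htL .W) y.1) (vl (htL .W) y.2))
    (vl (htL .W) y.1) (vl (htL .W) y.2) false false a z‖ = B.R a z * gW y a z
  unfold gW
  simp [sV]

theorem QX_ww {T : ℝ} {y : ℝ × ℝ} (h1 : |y.1| ≤ T) (h2 : |y.2| ≤ T) :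
    QX T 1 1 y.1 y.2 = Real.exp (|y.1 - y.2| / 2) := by
  have e1 : ∀ τ, ex T 1 τ = 0 := fun τ => if_pos rfl
  unfold QX MQ QI0
  rw [if_pos ⟨h1, h2⟩, e1, e1, max_self, ← Real.exp_add]
  congr 1
  ring

theorem exp_log_mul {m : ℕ} (hm : 1 ≤ m) (δ : ℝ) :
    Real.exp (δ * Real.log m) = (m : ℝ) ^ δ := by
  have h0 : (0 : ℝ) < m := by exact_mod_cast hm
  rw [Real.rpow_def_of_pos h0, mul_comm]

variable [NUSea.Sea]

/-- **the class `W1 W1'` at fixed half quanta, the gas side**; the smallness of `ep`, `e1`, `exp (-2πJ)` is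
independent of the statistic -/
theorem topR_gas {G : Geo} (hB : ∀ m β, (G.B m β).Nn) (hS : StabProd) (h1 : OneRT G) (K K2 : ℝ)
    {δ : ℝ} (hδ : 0 < δ) : ∃ a0 : ℝ, 0 < a0 ∧
      ∀ (ι : Type*) (ok : ℕ → ι → Prop) (Φ : ι → ℕ → ℕ → InsE) (Ca : ℝ), S4K G ok Φ K Ca →
      ∀ ep : ℝ, 0 < ep → ep ≤ 1 / 100 → ∀ e1 : ℝ, 0 < e1 → e1 ≤ 1 / 100 → ∀ J : ℝ, 0 ≤ J →
      Real.exp (-(2 * Real.pi * J)) + 3 * e1 + 3 * ep ≤ a0 →
      ∃ Cst : ℝ, 0 ≤ Cst ∧ ∃ m0 : ℕ, 2 ≤ m0 ∧ ∀ m ≥ m0,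
      (∀ (r : ℕ) (_O : Fin r → Xo), CurB ep (etaC e1 J m m) (etaC' e1 J m m)) ∧
      ∀ (X : Bool → Option O3 → ℂ → ℂ) (κ : ℝ) (E0 : Set ℝ),
      Bs X (fun g => (G.B m (beC ep)).mul g) (NUSea.O.par0 m) ep κ E0 →
      ∀ y : ℝ × ℝ, |y.1| ≤ TW ep e1 m → |y.2| ≤ TW ep e1 m → ∀ i : ι, ok m i →
      ∀ (w : (r : ℕ) → (Fin r → Xo) → ℝ) (Bw : ℝ), 0 ≤ Bw → (∀ r O, 0 ≤ w r O) →
      (∀ (r : ℕ) (O : Fin r → Xo), w r O ≤ Bw * Real.exp (K2 * r) *
          Real.exp (∑ i, gT e1 (Real.log m) (ht (O i)))) →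
      ∑ N ∈ range (2 * m + 1), FE (ZW X y) (NUSea.O.par0 m) N N (fun _ _ => etaC e1 J m m)
          (fun _ _ => etaC' e1 J m m) (fun r O a b x => ENNReal.ofReal (w r O) *
            Φ i m N r O a b x) ≤
        ENNReal.ofReal (Bw * (Cst * (m : ℝ) ^ (Ca * (ep + e1) + δ) *
          Real.exp ((m : ℝ) ^ 2 * G.EM) *
          (Real.exp (m * G.MF .w (vl (htL .W) y.1)) * Real.exp (m * G.MF .w (vl (htL .W) y.2))) *
          Real.exp (-gnP e1 J m (-(3 * NUMF.l)) (-(3 * NUMF.l)) y) *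
          Real.exp (|y.1 - y.2| / 2))) := by
  obtain ⟨C, c, b, c1, k, hC, hc, hb, hc1, hper⟩ := perI_ofK hB hS h1 K K2
  obtain ⟨K3, hK3, hQ2⟩ := grp_QX
  obtain ⟨a0, ha0, hsum⟩ := fe_sum (k := k) hC hc hb hc1 le_rfl (δ := δ / 2) (by linarith)
  refine ⟨a0, ha0, fun ι ok Φ Ca h4 ep hep hep1 e1 he1 he11 J hJ hsm => ?_⟩
  have hper := hper ι ok Φ Ca h4
  obtain ⟨L0, hsum⟩ := hsum 1 zero_le_one
  obtain ⟨d, Cst, hd, hCst, M0, hper⟩ := hper ep hep hep1 e1 he1 he11 J hJ (δ / 2) (by linarith)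
  obtain ⟨m1, hm1, hcur⟩ := curOKC he1 he11 hJ hep
  obtain ⟨m2, hm2⟩ := Filter.eventually_atTop.1
    ((Real.tendsto_log_atTop.comp tendsto_natCast_atTop_atTop).eventually_ge_atTop L0)
  refine ⟨4 * (1 + 1 / d) * (Cst * Real.exp K3), by positivity,
    max (max M0 m1) (max m2 5), ?_, fun m hm => ?_⟩
  · have := le_max_right (max M0 m1) (max m2 5)
    have := le_max_right m2 5
    omega
  have hM0 : M0 ≤ m := ((le_max_left _ _).trans (le_max_left _ _)).trans hm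
  have hM1 : m1 ≤ m := ((le_max_right _ _).trans (le_max_left _ _)).trans hm
  have hM2 : m2 ≤ m := ((le_max_left _ _).trans (le_max_right _ _)).trans hm
  have hM5 : 5 ≤ m := ((le_max_right _ _).trans (le_max_right _ _)).trans hm
  have hmp : (0 : ℝ) < m := by
    have : 0 < m := by omega
    exact_mod_cast this
  have hcurm : ∀ (r : ℕ) (_O : Fin r → Xo), CurB ep (etaC e1 J m m) (etaC' e1 J m m) :=
    fun r _ => hcur m hM1 _ (by linarith)
  refine ⟨hcurm, fun X κ E0 hX y hy1 hy2 i hok w Bw hBw hw0 hwB => ?_⟩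
  have hTW0 : 0 ≤ TW ep e1 m := (abs_nonneg _).trans hy1
  have key := hper m hM0 2 (gdK .W .W (false, false) y) 0 0 m
    (Real.exp K3 * QX (TW ep e1 m) (qh .W false) (qh .W false) y.1 y.2) le_rfl
    (by
      intro i j hij
      fin_cases i <;> fin_cases j
      · exact absurd rfl hij
      · show true ≠ false
        simp
      · show false ≠ true
        simp
      · exact absurd rfl hij)
    (by norm_num) (by norm_num)
    (by
      rw [Fin.sum_univ_two]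
      show ((0 : ℕ) : ℝ) - ((0 : ℕ) : ℝ) = -(NUC43.sg true * qc (clh .W false) / 2 +
        NUC43.sg false * qc (clh .W false) / 2)
      unfold NUC43.sg
      simp only [if_true, Bool.false_eq_true, if_false, Nat.cast_zero]
      ring)
    (by
      rw [sub_self, abs_zero]
      norm_num)
    (by
      intro i
      fin_cases i
      · exact hy1
      · exact hy2)
    (mul_nonneg (Real.exp_pos _).le (QX_nonneg _ _ _ _ _))
    (by
      intro T1 hT1
      have k1 := hQ2 (gdK .W .W (false, false) y) rfl rfl (by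
        intro i
        fin_cases i <;> simp [gdK, clh]) (TW ep e1 m) T1 hTW0 hT1 (by
        intro i
        left
        fin_cases i <;> rfl)
      refine le_trans (le_of_eq ?_) k1
      unfold enQ
      congr 1
      have x1 : xs T1 y.1 = 0 := by
        unfold xs
        exact max_eq_right (by linarith)
      have x2 : xs T1 y.2 = 0 := by
        unfold xs
        exact max_eq_right (by linarith)
      show _ = 1 / 2 * _ + NUSea.H0.cstF T1 (gdK .W .W (false, false) y) true *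
        (-∑ i, NUC43.sg ((gdK .W .W (false, false) y) i).σ *
          qc ((gdK .W .W (false, false) y) i).c / 2) + 37 / 20 * max (xs T1 y.1) (xs T1 y.2) +
        12 / 5 * max (ex (TW ep e1 m) (qc (clh .W false)) y.1)
          (ex (TW ep e1 m) (qc (clh .W false)) y.2)
      have x3 : ∀ τ, ex (TW ep e1 m) (qc (clh .W false)) τ = 0 := by
        intro τ
        unfold ex
        rw [if_pos]
        simp [clh, qc]
      have x4 : (∑ i, NUC43.sg ((gdK .W .W (false, false) y) i).σ *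
          qc ((gdK .W .W (false, false) y) i).c / 2) = 0 := by
        rw [Fin.sum_univ_two]
        show NUC43.sg true * qc (clh .W false) / 2 +
          NUC43.sg false * qc (clh .W false) / 2 = 0
        unfold NUC43.sg
        simp only [if_true, Bool.false_eq_true, if_false]
        ring
      rw [x1, x2, x3, x3, x4]
      simp)
    i hok w Bw hBw hw0 hwB
  have hgnF : gnF e1 J m (gdK .W .W (false, false) y) =
      gnP e1 J m (-(3 * NUMF.l)) (-(3 * NUMF.l)) y := by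
    unfold gnF gnP
    rw [Fin.sum_univ_two]
    show 12 * NUMF.l * NUGC.hC e1 J m 0 + (2 * (phC .w * NUGC.hC e1 J m y.1) +
      2 * (phC .w * NUGC.hC e1 J m y.2)) = _
    unfold phC
    ring
  have hMF : ∑ i, G.MF (gdK .W .W (false, false) y i).c (gdK .W .W (false, false) y i).w =
      G.MF .w (vl (htL .W) y.1) + G.MF .w (vl (htL .W) y.2) := by
    rw [Fin.sum_univ_two, ← w_gd true .W false y.1, ← w_gd false .W false y.2]
    rfl
  have hqh : qh .W false = 1 := by simp [qh, clh, qc]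
  rw [hgnF, hMF, hqh, QX_ww hy1 hy2] at key
  have key2 := PerI.congr (B' := (G.B m (beC ep)).mul (gW y)) (parM_par0 m).1 (parM_par0 m).2.1
    (NUSea.O.par0_e _) (fun a z hz => gW_eq (G.B m (beC ep)) y a hz) rfl rfl hep1
    (fun n _ r O => hcurm r O) key
  have hL0 : L0 ≤ Real.log m := hm2 m hM2
  have hnum : ((2 * (2 * m) + (0 + 0) + 1 : ℕ) : ℝ) ≤ Real.exp (2 * Real.log m) := by
    have e : Real.exp (2 * Real.log m) = (m : ℝ) * m := by
      rw [two_mul, Real.exp_add, Real.exp_log hmp]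
    rw [e]
    have : 2 * (2 * m) + (0 + 0) + 1 ≤ m * m := by nlinarith
    exact_mod_cast this
  have hone := oneC_WW hX y
  have h5 := hsum (Real.log m) hL0 ep hep.le hep1 e1 he1 (by linarith) J hJ hsm m d _ (2 * m) 0 0
    (ZW X y) ((G.B m (beC ep)).mul (gW y)) (NUSea.O.par0 m) κ (19 / 20 * l) 0 _ _ _ _ hd ?_ hnum
    hone (parM_par0 m).1.goodP (fun n _ r O => hcurm r O) key2
  swap
  · positivity
  simp only [add_zero] at h5
  refine h5.trans (ENNReal.ofReal_le_ofReal (le_of_eq ?_))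
  have hm1' : 1 ≤ m := by omega
  rw [exp_log_mul hm1']
  have hpow : (m : ℝ) ^ (Ca * (ep + e1) + δ) =
      (m : ℝ) ^ (Ca * (ep + e1) + δ / 2) * (m : ℝ) ^ (δ / 2) := by
    rw [← Real.rpow_add hmp]
    congr 1
    ring
  rw [hpow, mul_add (m : ℝ), Real.exp_add ((m : ℝ) * G.MF .w (vl (htL .W) y.1))]
  ring

/-- the near gain of two bare half quanta in the window -/
theorem gnP_near {ep e1 J : ℝ} {m : ℕ} (he : 0 < e1) (he1 : e1 ≤ 1 / 100) (hJ : 0 ≤ J)
    (hT : 20 ≤ Tb (Real.log m)) (hep : 0 ≤ ep) {y : ℝ × ℝ} (h1 : |y.1| ≤ TW ep e1 m)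
    (h2 : |y.2| ≤ TW ep e1 m) :
    |y.1| + |y.2| - (6 * e1 + 4 * ep) * Tb (Real.log m) - 20 ≤
      gnP e1 J m (-(3 * NUMF.l)) (-(3 * NUMF.l)) y := by
  have h := gnP_ww he he1 hJ hT y
  have hD : NUGC.DC e1 m = (1 - e1) * Tb (Real.log m) - 2 := rfl
  have hTW : TW ep e1 m = (1 + 2 * e1 + 2 * ep) * Tb (Real.log m) := rfl
  have hmin : ∀ x : ℝ, x ≤ TW ep e1 m →
      x - ((3 * e1 + 2 * ep) * Tb (Real.log m) + 2) ≤ min x (NUGC.DC e1 m) := by
    intro x hx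
    refine le_min ?_ ?_
    · have : 0 ≤ (3 * e1 + 2 * ep) * Tb (Real.log m) := by positivity
      linarith
    · rw [hD]
      rw [hTW] at hx
      linarith
  have a1 := hmin _ h1
  have a2 := hmin _ h2
  linarith

/-- **the class `W1 W1'` at fixed half quanta, with the kernels (U5N)**: `k1`, `k2` = moduli of the own
kernels, `gg` = modulus of the direct factor; the smallness of `ep`, `e1`, `exp (-2πJ)` is independent of
the statistic -/
theorem topR {G : Geo} (hB : ∀ m β, (G.B m β).Nn) (hS : StabProd) (h1 : OneRT G) (K K2 : ℝ)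
    {Ca : ℝ} (hCa : 0 ≤ Ca) {e : ℝ} (he : 0 < e) :
    ∃ κ0 : ℝ, 0 < κ0 ∧ κ0 ≤ 1 / 100 ∧
      ∀ (ι : Type*) (ok : ℕ → ι → Prop) (Φ : ι → ℕ → ℕ → InsE), S4K G ok Φ K Ca →
      ∀ ep : ℝ, 0 < ep → ep ≤ κ0 → ∀ e1 : ℝ, 0 < e1 → e1 ≤ κ0 →
      ∀ J : ℝ, 0 ≤ J → Real.exp (-(2 * Real.pi * J)) ≤ κ0 →
      ∃ Cst : ℝ, 0 ≤ Cst ∧ ∃ m0 : ℕ, 2 ≤ m0 ∧ ∀ m ≥ m0,
      (∀ (r : ℕ) (_O : Fin r → Xo), CurB ep (etaC e1 J m m) (etaC' e1 J m m)) ∧
      ∀ (X : Bool → Option O3 → ℂ → ℂ) (κ : ℝ) (E0 : Set ℝ),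
      Bs X (fun g => (G.B m (beC ep)).mul g) (NUSea.O.par0 m) ep κ E0 →
      ∀ y : ℝ × ℝ, |y.1| ≤ TW ep e1 m → |y.2| ≤ TW ep e1 m → ∀ i : ι, ok m i →
      ∀ (w : (r : ℕ) → (Fin r → Xo) → ℝ) (Bw : ℝ), 0 ≤ Bw → (∀ r O, 0 ≤ w r O) →
      (∀ (r : ℕ) (O : Fin r → Xo), w r O ≤ Bw * Real.exp (K2 * r) *
          Real.exp (∑ i, gT e1 (Real.log m) (ht (O i)))) →
      ∀ C0 Cg k1 k2 gg : ℝ, 0 ≤ C0 → 0 ≤ k1 → 0 ≤ k2 → 0 ≤ gg →
      k1 * Real.exp (m * G.MF .w (vl (htL .W) y.1)) ≤ C0 * Real.exp (-|y.1|) →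
      k2 * Real.exp (m * G.MF .w (vl (htL .W) y.2)) ≤ C0 * Real.exp (-|y.2|) →
      gg ≤ Cg * Real.exp (-|y.1 - y.2|) →
      ENNReal.ofReal (k1 * k2 * gg) *
        ∑ N ∈ range (2 * m + 1), FE (ZW X y) (NUSea.O.par0 m) N N (fun _ _ => etaC e1 J m m)
          (fun _ _ => etaC' e1 J m m) (fun r O a b x => ENNReal.ofReal (w r O) *
            Φ i m N r O a b x) ≤
        ENNReal.ofReal (C0 * C0 * Cg * Bw * (Cst * (m : ℝ) ^ e * Real.exp ((m : ℝ) ^ 2 * G.EM) *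
          Real.exp (-(2 * |y.1| + 2 * |y.2| + |y.1 - y.2| / 2)))) := by
  obtain ⟨a0, ha0, hgas⟩ := topR_gas hB hS h1 K K2 (δ := e / 2) (by linarith)
  refine ⟨min (1 / 100) (min (a0 / 7) (e / (4 * (Ca + 3)))), by positivity, min_le_left _ _, ?_⟩
  intro ι ok Φ h4 ep hep hep1 e1 he1 he11 J hJ hJ1
  have b1 : ep ≤ 1 / 100 := hep1.trans (min_le_left _ _)
  have b2 : ep ≤ a0 / 7 := hep1.trans ((min_le_right _ _).trans (min_le_left _ _))
  have b3 : ep ≤ e / (4 * (Ca + 3)) := hep1.trans ((min_le_right _ _).trans (min_le_right _ _))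
  have c1 : e1 ≤ 1 / 100 := he11.trans (min_le_left _ _)
  have c2 : e1 ≤ a0 / 7 := he11.trans ((min_le_right _ _).trans (min_le_left _ _))
  have c3 : e1 ≤ e / (4 * (Ca + 3)) := he11.trans ((min_le_right _ _).trans (min_le_right _ _))
  have d2 : Real.exp (-(2 * Real.pi * J)) ≤ a0 / 7 :=
    hJ1.trans ((min_le_right _ _).trans (min_le_left _ _))
  obtain ⟨Cst, hCst, m0, hm0, hgas⟩ := hgas ι ok Φ Ca h4 ep hep b1 e1 he1 c1 J hJ (by linarith)
  obtain ⟨m2, hm2⟩ := Filter.eventually_atTop.1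
    ((Real.tendsto_log_atTop.comp tendsto_natCast_atTop_atTop).eventually_ge_atTop
      (60 : ℝ))
  refine ⟨Cst * Real.exp 20, by positivity, max m0 m2,
    hm0.trans (le_max_left _ _), fun m hm => ?_⟩
  have hM0 : m0 ≤ m := (le_max_left _ _).trans hm
  have hM2 : m2 ≤ m := (le_max_right _ _).trans hm
  have hm1 : 1 ≤ m := by omega
  have hmp : (0 : ℝ) < m := by exact_mod_cast hm1
  have hm1' : (1 : ℝ) ≤ m := by exact_mod_cast hm1
  have hL60 : (60 : ℝ) ≤ Real.log m := hm2 m hM2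
  have hTb : Tb (Real.log m) = 3 / 8 * Real.log m := rfl
  have hT : 20 ≤ Tb (Real.log m) := by
    rw [hTb]
    linarith
  obtain ⟨hcur, hgas⟩ := hgas m hM0
  refine ⟨hcur, fun X κ E0 hX y hy1 hy2 i hok w Bw hBw hw0 hwB C0 Cg k1 k2 gg hC0 hk1 hk2 hgg h1 h2
    h3 => ?_⟩
  have hCg : 0 ≤ Cg := by
    have := hgg.trans h3
    exact nonneg_of_mul_nonneg_left this (Real.exp_pos _)
  have key := hgas X κ E0 hX y hy1 hy2 i hok w Bw hBw hw0 hwB
  have hgn := gnP_near he1 c1 hJ hT hep.le hy1 hy2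
  refine (mul_le_mul' le_rfl key).trans ?_
  rw [← ENNReal.ofReal_mul (by positivity)]
  refine ENNReal.ofReal_le_ofReal ?_
  obtain ⟨E1, hE1⟩ : ∃ E1, E1 = Real.exp (m * G.MF .w (vl (htL .W) y.1)) := ⟨_, rfl⟩
  obtain ⟨E2, hE2⟩ : ∃ E2, E2 = Real.exp (m * G.MF .w (vl (htL .W) y.2)) := ⟨_, rfl⟩
  obtain ⟨X0, hX0⟩ : ∃ X0, X0 = Real.exp ((m : ℝ) ^ 2 * G.EM) := ⟨_, rfl⟩
  rw [← hE1] at h1 ⊢
  rw [← hE2] at h2 ⊢
  rw [← hX0]
  have hE10 : 0 ≤ E1 := by
    rw [hE1]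
    exact (Real.exp_pos _).le
  have hE20 : 0 ≤ E2 := by
    rw [hE2]
    exact (Real.exp_pos _).le
  have hX00 : 0 ≤ X0 := by
    rw [hX0]
    exact (Real.exp_pos _).le
  have hp0 : 0 ≤ (m : ℝ) ^ (Ca * (ep + e1) + e / 2) := by positivity
  have hk : k1 * E1 * (k2 * E2) * gg ≤ (C0 * Real.exp (-|y.1|)) * (C0 * Real.exp (-|y.2|)) *
      (Cg * Real.exp (-|y.1 - y.2|)) :=
    mul_le_mul (mul_le_mul h1 h2 (by positivity) (by positivity)) h3 hgg (by positivity)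
  -- the gain
  have hgain : Real.exp (-gnP e1 J m (-(3 * NUMF.l)) (-(3 * NUMF.l)) y) ≤
      Real.exp 20 * Real.exp (-|y.1| - |y.2|) * (m : ℝ) ^ (9 / 4 * (ep + e1)) := by
    rw [← exp_log_mul hm1, ← Real.exp_add, ← Real.exp_add]
    refine Real.exp_le_exp.2 ?_
    have : (6 * e1 + 4 * ep) * Tb (Real.log m) ≤ 9 / 4 * (ep + e1) * Real.log m := by
      rw [hTb]
      have : 0 ≤ Real.log m := by linarith
      nlinarith [mul_nonneg hep.le this, mul_nonneg he1.le this]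
    linarith
  have hpow : (m : ℝ) ^ (Ca * (ep + e1) + e / 2) * (m : ℝ) ^ (9 / 4 * (ep + e1)) ≤ (m : ℝ) ^ e := by
    rw [← Real.rpow_add hmp]
    refine Real.rpow_le_rpow_of_exponent_le hm1' ?_
    have h4 : ep + e1 ≤ e / (2 * (Ca + 3)) := by
      have : e / (2 * (Ca + 3)) = e / (4 * (Ca + 3)) + e / (4 * (Ca + 3)) := by
        field_simp
        norm_num
      linarith
    rw [le_div_iff₀ (by positivity)] at h4
    nlinarith
  have hexp : Real.exp (-|y.1|) * Real.exp (-|y.2|) * Real.exp (-|y.1 - y.2|) *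
      Real.exp (-|y.1| - |y.2|) * Real.exp (|y.1 - y.2| / 2) =
      Real.exp (-(2 * |y.1| + 2 * |y.2| + |y.1 - y.2| / 2)) := by
    rw [← Real.exp_add, ← Real.exp_add, ← Real.exp_add, ← Real.exp_add]
    congr 1
    ring
  calc k1 * k2 * gg * (Bw * (Cst * (m : ℝ) ^ (Ca * (ep + e1) + e / 2) * X0 * (E1 * E2) *
        Real.exp (-gnP e1 J m (-(3 * NUMF.l)) (-(3 * NUMF.l)) y) * Real.exp (|y.1 - y.2| / 2)))
      = Bw * (k1 * E1 * (k2 * E2) * gg) * (Cst * (m : ℝ) ^ (Ca * (ep + e1) + e / 2) * X0) *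
        Real.exp (-gnP e1 J m (-(3 * NUMF.l)) (-(3 * NUMF.l)) y) *
        Real.exp (|y.1 - y.2| / 2) := by ring
    _ ≤ Bw * ((C0 * Real.exp (-|y.1|)) * (C0 * Real.exp (-|y.2|)) *
        (Cg * Real.exp (-|y.1 - y.2|))) * (Cst * (m : ℝ) ^ (Ca * (ep + e1) + e / 2) * X0) *
        (Real.exp 20 * Real.exp (-|y.1| - |y.2|) * (m : ℝ) ^ (9 / 4 * (ep + e1))) *
        Real.exp (|y.1 - y.2| / 2) := by gcongr
    _ = C0 * C0 * Cg * Bw * (Cst * Real.exp 20 *
        ((m : ℝ) ^ (Ca * (ep + e1) + e / 2) * (m : ℝ) ^ (9 / 4 * (ep + e1))) * X0 *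
        (Real.exp (-|y.1|) * Real.exp (-|y.2|) * Real.exp (-|y.1 - y.2|) *
      Real.exp (-|y.1| - |y.2|) * Real.exp (|y.1 - y.2| / 2))) := by ring
    _ ≤ C0 * C0 * Cg * Bw * (Cst * Real.exp 20 * (m : ℝ) ^ e * X0 *
        (Real.exp (-|y.1|) * Real.exp (-|y.2|) * Real.exp (-|y.1 - y.2|) *
      Real.exp (-|y.1| - |y.2|) * Real.exp (|y.1 - y.2| / 2))) := by gcongr
    _ = _ := by rw [hexp]

end PBI

end
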