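import Pool.Agent.PB.TopG

/-!
# Plan B: the dislocated function from the bound of its gas, parameter `m = k + 1 + s`

Rows `mu1 k x` (`k + 1` rows), legs at `z`, parameters and curve of `m = k + 1 + s` rows, `s ≤ 1`
(`s = 1`: the end of the path of the ends, `s = 0`: `TopG`). The missing row is a potential:
`HlegS s = Hleg 1 - s log rwC 0`.

* `topV`: abstract one body data `(Z, B)` and value `Nf exp lin ≤ V`;
* `domS`, `hokS`, `valS`: domination, admissibility, value;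
* **`topS`**: the sum over the quanta from the bound of the gas of every configuration.
-/

set_option autoImplicit false
set_option linter.unusedSectionVars false

noncomputable section

open Complex MeasureTheory Finset
open scoped ENNReal

namespace PBT

open NUO NUP1 NUP1S NUP1S.Ab NUP1S.AbC NUGC PBF
open PBX (obX XX Lg gP Rws oneC_Lg obX_nn)
open PBL (mu1)
open PBP (gT)
open PotH (crH oneEH)

attribute [local instance] NUSea.seaP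

/-! ### abstract form -/

/-- **the sum over the quanta, abstract one body data and value** -/
theorem topV (hS : NUStabP.StabProd) (K K2 : ℝ) : ∃ K' c1 : ℝ, 0 < c1 ∧
    ∀ Ca c : ℝ, 0 < Ca → 0 < c → ∀ c' : ℝ, 0 ≤ c' → ∀ δ : ℝ, 0 < δ →
    ∃ a0 : ℝ, 0 < a0 ∧ ∀ ep : ℝ, 0 < ep → ep ≤ 1 / 100 → ∀ e1 : ℝ, 0 < e1 → e1 ≤ 1 / 100 →
    ∀ J : ℝ, 0 ≤ J → Real.exp (-(2 * Real.pi * J)) + 3 * e1 + 3 * ep ≤ a0 →
    ∃ m0 : ℕ, 6 ≤ m0 ∧ ∀ m : ℕ, m0 ≤ m →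
    ∀ (Z : Bool → Option O3 → ℂ → ℂ) (B : OB) (κ x0 : ℝ) (Qc : ℤ) (E : Set ℝ),
      OneC Z B (pL m) ep κ x0 Qc E → B.Nn →
      (∀ r ≤ 4 * m, ∀ (O : Fin r → Xo) (i : Fin r),
        ob1c B (pL m).jL (ei (pL m) O i) (rr (pL m) O i) (O i) *
          Real.exp (oneEH m (etL e1 J m) (TW ep e1 m) O i + K') *
            colK (((r : ℝ) + 1) ^ 12) (kd (O i)) ≤
          act Ca 1 c (1 / 10) 18 (Real.log m) ep e1 J r (ht (O i)) *
            Real.exp (-gT e1 (Real.log m) (ht (O i)))) →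
      ∀ (φ : ℕ → InsE) (w : ℕ → (r : ℕ) → (Fin r → Xo) → ℝ) (Q Bw d Nf lin V : ℝ), 0 ≤ Q →
      0 ≤ Bw → 0 < d → 0 ≤ Nf → Nf * Real.exp lin ≤ V →
      (∀ n ≤ 2 * m, ∀ r ≤ 2 * n, ∀ O : Fin r → Xo, 0 ≤ w n r O ∧
        w n r O ≤ (if (r : ℝ) ≤ Real.log m then Bw else Bw * Real.exp (c' * Real.log m)) *
          Real.exp (K2 * r) * Real.exp (∑ i, gT e1 (Real.log m) (ht (O i)))) →
      (∀ b' : ℝ, |b'| = d → ∀ n ≤ 2 * m, ∀ r ≤ 2 * n, ∀ O : Fin r → Xo,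
        chgO O true ≤ n → chgO O false ≤ n →
        ENNReal.ofReal (Real.exp (b' * ((m : ℝ) - n))) *
          PotH.gasI B (pL m) (etL e1 J m) (etL' e1 J m) O (n - chgO O true) (n - chgO O false)
            (φ n r O (n - chgO O true) (n - chgO O false)) ≤
        ENNReal.ofReal (w n r O * (Q * Real.exp (lin +
          (∑ i, oneEH m (etL e1 J m) (TW ep e1 m) O i + K * r + NUStabP.enC O +
            c1 * NUDispW.win univ fun i => ht (O i)))))) →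
      ENNReal.ofReal Nf *
        ∑ n ∈ range (2 * m + 1), FE Z (pL m) n n (crL e1 J m) (crL' e1 J m) (φ n) ≤
        ENNReal.ofReal (Bw * Q * V * (m : ℝ) ^ δ * (2 / (1 - Real.exp (-d)))) := by
  obtain ⟨K', c1, hc1, HF⟩ := FE_sum hS K K2
  refine ⟨K', c1, hc1, fun Ca c hCa hc c' hc' δ hδ => ?_⟩
  obtain ⟨a0, ha0, HF⟩ := HF Ca c (1 / 10) c' 18 hCa hc (by norm_num) hc' δ hδ
  obtain ⟨L0, HF⟩ := HF 1 zero_le_one
  refine ⟨a0, ha0, fun ep hep hep1 e1 he he1 J hJ hsm => ?_⟩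
  obtain ⟨mc, -, Hcur⟩ := curZ_crs he he1 hJ hep
  have t1 := Real.tendsto_log_atTop.comp tendsto_natCast_atTop_atTop
  obtain ⟨ml, hml⟩ := Filter.eventually_atTop.1 (t1.eventually_ge_atTop L0)
  refine ⟨max mc (max ml 6), (le_max_right _ _).trans (le_max_right _ _), fun m hm Z B κ x0 Qc E
    hone hN HO φ w Q Bw d Nf lin V hQ hBw hd hNf hV hw hgas => ?_⟩
  have k4 : mc ≤ m := (le_max_left _ _).trans hm
  have k5 : ml ≤ m := ((le_max_left _ _).trans (le_max_right _ _)).trans hm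
  have k6 : 6 ≤ m := ((le_max_right _ _).trans (le_max_right _ _)).trans hm
  have hm5 : (6 : ℝ) ≤ (m : ℝ) := by exact_mod_cast k6
  have hmp : (0 : ℝ) < (m : ℝ) := by linarith
  have hL0 : L0 ≤ Real.log m := hml m k5
  have hexp : ((4 * m + 1 : ℕ) : ℝ) ≤ Real.exp (2 * Real.log m) := by
    have e1 : Real.exp (2 * Real.log m) = (m : ℝ) * m := by
      rw [two_mul, Real.exp_add, Real.exp_log hmp]
    have e2 : ((4 * m + 1 : ℕ) : ℝ) = 4 * (m : ℝ) + 1 := by push_cast; ring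
    rw [e1, e2]
    nlinarith
  have key := HF (Real.log m) hL0 ep hep.le (by linarith) e1 he (by linarith) J hJ hsm
    Z (pL m) m (crL e1 J m) (crL' e1 J m) B ep κ x0 Qc E hone (parZ_goodP m) hN
    (parZ_fields m).1 (parZ_fields m).2.1 (parZ_fields m).2.2
    (fun r _ => parZ_small m r)
    (fun r O => Hcur m k4 r O) hep1 hexp φ (gT e1 (Real.log m))
    (fun r O i => oneEH m (etL e1 J m) (TW ep e1 m) O i) w
    (Q * Real.exp lin) Bw d (m : ℝ) (by positivity) hBw hd hw HO ?_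
  · obtain ⟨D, hD⟩ : ∃ D, D = 2 / (1 - Real.exp (-d)) := ⟨_, rfl⟩
    have hD0 : 0 ≤ D := by
      rw [hD]
      have : Real.exp (-d) < 1 := by
        rw [← Real.exp_zero]; exact Real.exp_lt_exp.2 (by linarith)
      exact div_nonneg (by norm_num) (by linarith)
    rw [sub_self, abs_zero, mul_zero, Real.exp_zero, one_mul, ← hD] at key
    rw [← hD]
    refine (mul_le_mul' le_rfl key).trans ?_
    rw [← ENNReal.ofReal_mul hNf]
    refine ENNReal.ofReal_le_ofReal ?_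
    have e3 : (m : ℝ) ^ δ = Real.exp (δ * Real.log m) := by
      rw [Real.rpow_def_of_pos hmp, mul_comm]
    rw [e3]
    calc Nf * (Bw * (Q * Real.exp lin) * Real.exp (δ * Real.log m) * D)
        = (Nf * Real.exp lin) * (Bw * Q * Real.exp (δ * Real.log m) * D) := by ring
      _ ≤ V * (Bw * Q * Real.exp (δ * Real.log m) * D) :=
          mul_le_mul_of_nonneg_right hV (by positivity)
      _ = _ := by ring
  · intro b' hb' n hn r hr O h1 h2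
    refine (hgas b' hb' n hn r hr O h1 h2).trans (le_of_eq ?_)
    congr 2
    rw [mul_assoc Q, ← Real.exp_add]

/-! ### the potential of the missing row -/

/-- legs at `z`, row `x`, ends `1`, and `s` rows at `0` missing -/
def HlegS (s : ℕ) (z x : ℂ) (η : ℝ → ℝ) (a : Bool) (t : ℝ) : ℝ :=
  PBH.Hleg 1 z x η a t - s * Real.log (PBO.rwC 0 (pA η t))

theorem HlegS_zero (z x : ℂ) : HlegS 0 z x = PBH.Hleg 1 z x := by
  funext η a t
  unfold HlegS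
  rw [Nat.cast_zero, zero_mul, sub_zero]

/-- its atoms -/
def alegS (s : ℕ) (z x : ℂ) (_a : Bool) : Fin 7 → PBH.Atm :=
  ![⟨1, z.re, z.re - 3 * NUMF.l, z.im⟩, ⟨1, x.re, x.re + 3 * NUMF.l, x.im⟩,
    ⟨1, x.re, x.re - 3 * NUMF.l, x.im⟩, ⟨-(1 + s), 0, 3 * NUMF.l, 0⟩,
    ⟨-(1 + s), 0, -(3 * NUMF.l), 0⟩, ⟨-(1 / 2), 7 / 2 * NUMF.l, -(7 / 2 * NUMF.l), 0⟩,
    ⟨-(1 / 2), 5 / 2 * NUMF.l, -(5 / 2 * NUMF.l), 0⟩]

theorem HlegS_eq (s : ℕ) {δ : ℝ} {η : ℝ → ℝ} (hδ : 0 < δ) (hδ1 : δ ≤ NUMF.l / 2)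
    (hη : ∀ t, |η t| ≤ δ / 2) {z x : ℂ} (h0 : -NUMF.l + δ ≤ z.re) (h1 : z.re ≤ 4 * NUMF.l - δ)
    (hx : |x.re| ≤ NUMF.l - δ) : HlegS s z x η = PBH.HS (alegS s z x) η := by
  have hl := NUMF.l_pos
  funext a t
  have e0 := congrFun (congrFun (PBH.Hleg_eq (κ := 1) hδ hδ1 hη h0 h1 hx) a) t
  have e3 := (PBH.rwC_pA hδ (by linarith) hη (x := 0) (by simp; linarith) t).2
  rw [Complex.zero_re, Complex.zero_im, zero_add, zero_sub] at e3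
  unfold HlegS
  rw [e0, e3]
  unfold PBH.HS PBH.aleg alegS
  simp only [Fin.sum_univ_succ, Matrix.cons_val_zero, Matrix.cons_val_succ, Fin.sum_univ_zero,
    Matrix.cons_val_fin_one]
  ring

lemma alegS_ok {s : ℕ} (hs : s ≤ 1) {δ : ℝ} (hδ : 0 < δ) (hδ1 : δ ≤ NUMF.l / 2) {z x : ℂ}
    (h0 : -NUMF.l + δ ≤ z.re) (h1 : z.re ≤ 4 * NUMF.l - δ) (hx : |x.re| ≤ NUMF.l - δ) :
    PBH.AtOk 2 δ (alegS s z x) := by
  have hl := NUMF.l_pos
  obtain ⟨x1, x2⟩ := abs_le.1 hx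
  have s0 : (0 : ℝ) ≤ s := Nat.cast_nonneg s
  have s1 : (s : ℝ) ≤ 1 := by exact_mod_cast hs
  intro a i
  fin_cases i
  all_goals refine ⟨abs_le.2 ⟨?_, ?_⟩, abs_le.2 ⟨?_, ?_⟩, abs_le.2 ⟨?_, ?_⟩⟩
  all_goals simp [alegS]
  all_goals linarith

/-- **admissibility** -/
theorem hokS {δ : ℝ} (hδ : 0 < δ) (hδ1 : δ ≤ NUMF.l / 2) :
    ∃ B0 N0 : ℝ, 0 ≤ B0 ∧ 0 ≤ N0 ∧ ∀ e1 : ℝ, 0 < e1 → ∃ m0 : ℕ, ∀ m : ℕ, m0 ≤ m →
      ∀ (Cc : ℝ) (η η1 : ℝ → ℝ), PotH.CrvP e1 Cc m η η1 → ∀ s : ℕ, s ≤ 1 → ∀ z x : ℂ,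
      -NUMF.l + δ ≤ z.re → z.re ≤ 4 * NUMF.l - δ → |x.re| ≤ NUMF.l - δ →
      (∀ t, |η t| ≤ δ / 2) ∧ ∃ H' : Bool → ℝ → ℝ, ∀ th b : ℝ, 0 ≤ th →
        PotH.HOk B0 N0 th b (Real.log m ^ 3) (HlegS s z x η) H' := by
  have hl := NUMF.l_pos
  have h8 := PBH.l8
  have hpi := Real.pi_lt_four
  obtain ⟨B0, N0, hB0, hN0, H⟩ := PBH.hok 7 (K := 2) (δ := δ) (by norm_num) hδ (by linarith)
  refine ⟨B0, N0, hB0, hN0, fun e1 he1 => ?_⟩
  obtain ⟨m0, H⟩ := H e1 he1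
  have t1 : Filter.Tendsto (fun m : ℕ => (m : ℝ) ^ (-(e1 / 2))) Filter.atTop (nhds 0) :=
    (tendsto_rpow_neg_atTop (by linarith : 0 < e1 / 2)).comp tendsto_natCast_atTop_atTop
  obtain ⟨m1, hm1⟩ := Filter.eventually_atTop.1 (t1.eventually (ge_mem_nhds (by linarith :
    (0 : ℝ) < δ / 4)))
  refine ⟨max m0 m1, fun m hm Cc η η1 hη s hs z x h0 h1 hx => ?_⟩
  have hS := PBH.sm_of hη (hm1 m ((le_max_right _ _).trans hm))
  have hη2 : ∀ t, |η t| ≤ δ / 2 := fun t => (hS.le t).trans (by linarith)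
  refine ⟨hη2, PBH.HS' (alegS s z x) η η1, fun th b hth => ?_⟩
  rw [HlegS_eq s hδ hδ1 hη2 h0 h1 hx]
  exact H m ((le_max_left _ _).trans hm) Cc η η1 hη _ (alegS_ok hs hδ hδ1 h0 h1 hx) th b hth

/-- **the one body factor on the curve** -/
theorem domS (s : ℕ) {δ : ℝ} (hδ : 0 < δ) (hδ1 : δ ≤ NUMF.l / 4) {η : ℝ → ℝ}
    (hη : ∀ t, |η t| ≤ δ / 2) {z x : ℂ} (h0 : -NUMF.l + δ ≤ z.re) (h1 : z.re ≤ 4 * NUMF.l - δ)
    (hx : |x.re| ≤ NUMF.l - δ) (k : ℕ) (β : ℝ) (ex ex0 : List ℂ) (g : Fin 0 → NUSea.H0.Gd)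
    (a : Bool) (t : ℝ) :
    (obX (2 * Real.cos NUP1.l) β (mu1 k x) ex ex0 fun _ u => PBX.thZ z u).R a (pA η t) *
        ‖(obX (2 * Real.cos NUP1.l) β (mu1 k x) ex ex0 fun _ u => PBX.thZ z u).φ (pA η t)‖ =
      2 * Real.cos NUP1.l * (Real.exp (((k + 1 + s : ℕ) : ℝ) *
          (NUSea.vc (NUAct.zt (NUKer.iD η) t)).re +
          (NUSp.DD NUGC.pE NUGC.qE (List.ofFn fun i => (g i).G) a
            (NUAct.zt (NUKer.iD η) t)).re + HlegS s z x η a t) *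
          ‖NUP1.phi β (List.ofFn (mu1 k x) ++ ex) (pA η t)‖) := by
  have hl := NUMF.l_pos
  rw [PBL.domL hδ hδ1 hη h0 h1 hx k β ex ex0 g a t]
  have hη1 : |η t| < NUMF.l := by linarith [hη t]
  have e0 := PBL.row0_pA hη1
  have e1 : PBO.rwC 0 (pA η t) = PBX.rwC 0 (pA η t) := rfl
  have e2 : Real.log (PBO.rwC 0 (pA η t)) = (NUSea.vc (NUAct.zt (NUKer.iD η) t)).re := by
    rw [e1, e0, Real.log_exp]
  unfold HlegS
  rw [e2]
  congr 3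
  push_cast
  ring

/-- **`DomH`** of the data of the dislocated function -/
theorem domHS (s : ℕ) {δ : ℝ} (hδ : 0 < δ) (hδ1 : δ ≤ NUMF.l / 4) {η : ℝ → ℝ}
    (hη : ∀ t, |η t| ≤ δ / 2) {z x : ℂ} (h0 : -NUMF.l + δ ≤ z.re) (h1 : z.re ≤ 4 * NUMF.l - δ)
    (hx : |x.re| ≤ NUMF.l - δ) (k : ℕ) (β : ℝ) (g : Fin 0 → NUSea.H0.Gd) :
    PotH.DomH (obL k β x z) (k + 1 + s) η
      (fun t => ‖NUP1.phi β (List.ofFn (mu1 k x) ++ [I, -I]) (pA η t)‖) g (HlegS s z x η) :=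
  fun a t => le_of_eq (domS s hδ hδ1 hη h0 h1 hx k β [I, -I] [] g a t)

/-! ### the value -/

/-- linear terms of the current, `s` rows missing -/
def linS (e1 J : ℝ) (s m : ℕ) (x z : ℂ) : ℝ :=
  NUSea.MF (m : ℝ) + (NUCR.bil (NUSea.hd m (etL e1 J m) (etL' e1 J m))
    (NUSea.hd m (etL e1 J m) (etL' e1 J m)) - 24 * NUMF.l * crH (etL e1 J m) m 0 +
    ∑ a, ∫ t, (m : ℝ) * NUSea.P t * HlegS s z x (etL e1 J m) a t)

theorem linS_zero (e1 J : ℝ) (m : ℕ) (x z : ℂ) : linS e1 J 0 m x z = linL e1 J m x z := by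
  unfold linS linL
  rw [HlegS_zero]

/-- a row against the sea, admissible curves -/
theorem exists_rowc {e1 Cc : ℝ} (he : 0 < e1) (he1 : e1 ≤ 1) (hCc : 0 ≤ Cc) : ∃ C : ℝ, 1 ≤ C ∧
    ∀ (m : ℕ) (η η1 : ℝ → ℝ), 1 ≤ m → PotH.CrvP e1 Cc m η η1 →
    (∀ t, |NUSea.hd m η η1 t| ≤ 1) → ∀ x : ℂ, |x.re| ≤ NUMF.l / 2 →
      Integrable (fun t => (m : ℝ) * NUMF.P t * Real.log (PBO.rwC x (pA η t))) ∧
      |(∫ t, (m : ℝ) * NUMF.P t * Real.log (PBO.rwC x (pA η t))) - m * NUMFH.mE x| ≤ C := by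
  obtain ⟨C, hC, H⟩ := PBV.exists_row
  refine ⟨C * (1 + Cc * (16 / e1 ^ 2)), ?_, ?_⟩
  · have : 0 ≤ Cc * (16 / e1 ^ 2) := by positivity
    nlinarith
  intro m η η1 hm hcv hA x hx
  obtain ⟨ε, e, hcur, hε0, hε1, hε⟩ := hcv.cur
  have hm1 : (1 : ℝ) ≤ m := by exact_mod_cast hm
  have hL0 := Real.log_nonneg hm1
  have hTb : NUO.Tb (Real.log m) = 3 / 8 * Real.log m := rfl
  have hb : 0 ≤ (1 - e1) * NUO.Tb (Real.log m) := by
    rw [hTb]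
    have : 0 ≤ 1 - e1 := by linarith
    positivity
  obtain ⟨i1, a1⟩ := H (by positivity) hε hcur hcv.d hb hA x hx
  refine ⟨i1, a1.trans ?_⟩
  refine mul_le_mul_of_nonneg_left ?_ (by linarith)
  have h3 := PBV.log_sq_le he hm
  have h4 : (1 - e1) * NUO.Tb (Real.log m) ≤ Real.log m := by
    rw [hTb]
    nlinarith
  have h5 : (1 - e1) * NUO.Tb (Real.log m) * (Cc * Real.log m * ε) ≤
      Real.log m * (Cc * Real.log m * (m : ℝ) ^ (-(e1 / 2))) := by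
    refine mul_le_mul h4 (mul_le_mul_of_nonneg_left hε1 (by positivity)) (by positivity) hL0
  have h6 : Real.log m * (Cc * Real.log m * (m : ℝ) ^ (-(e1 / 2))) =
      Cc * (Real.log m ^ 2 * (m : ℝ) ^ (-(e1 / 2))) := by ring
  have h7 : Cc * (Real.log m ^ 2 * (m : ℝ) ^ (-(e1 / 2))) ≤ Cc * (16 / e1 ^ 2) :=
    mul_le_mul_of_nonneg_left h3 hCc
  linarith

/-- arithmetic of the value -/
lemma val_arith {N m s E Λ hz h0 bl y T C1 C2 C3 C4 CN I1 I2 J0 : ℝ} (hm : m = N + s)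
    (s0 : 0 ≤ s) (s1 : s ≤ 1)
    (b1 : |I1 - (m * Λ - 6 * NUMF.l * hz + 12 * 1 * NUMF.l * h0)| ≤ C2)
    (b2 : |I2 - (m * Λ - 6 * NUMF.l * hz + 12 * 1 * NUMF.l * h0)| ≤ C2)
    (r : |J0 - m * E| ≤ C3) (hΛ : |Λ| ≤ C4) (hE : |E| ≤ C1)
    (hb : bl - 12 * NUMF.l * hz ≤ -T + 2 * y + CN) :
    m ^ 2 * E + (bl - 24 * NUMF.l * h0 + ((I1 - s * J0) + (I2 - s * J0))) ≤
      (N ^ 2 * E + 2 * N * Λ) + ((C1 + 2 * C4 + 2 * C2 + 2 * C3 + CN) + (-T + 2 * y)) := by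
  obtain ⟨b1a, b1b⟩ := abs_le.1 b1
  obtain ⟨b2a, b2b⟩ := abs_le.1 b2
  obtain ⟨ra, rb⟩ := abs_le.1 r
  obtain ⟨la, lb⟩ := abs_le.1 hΛ
  obtain ⟨ea, eb⟩ := abs_le.1 hE
  have hC3 : 0 ≤ C3 := (abs_nonneg _).trans r
  have hC4 : 0 ≤ C4 := (abs_nonneg _).trans hΛ
  have hC1 : 0 ≤ C1 := (abs_nonneg _).trans hE
  have e1 : -(2 * s * (J0 - m * E)) ≤ 2 * C3 := by nlinarith
  have e2 : 2 * s * Λ ≤ 2 * C4 := by nlinarith
  have e3 : -(s ^ 2 * E) ≤ C1 := by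
    have h1 : s ^ 2 ≤ 1 := by nlinarith
    have h2 : 0 ≤ s ^ 2 := by positivity
    nlinarith
  have e4 : m ^ 2 * E - 2 * s * (m * E) = N ^ 2 * E - s ^ 2 * E := by rw [hm]; ring
  have e5 : 2 * (m * Λ) = 2 * N * Λ + 2 * s * Λ := by rw [hm]; ring
  nlinarith

/-- **the value**: `‖Pf‖ exp (linS) ≤ C m ^ (-(3/8)(1 - e1)) exp (2 |Im z|)`, `m = k + 1 + s` -/
theorem valS {e1 : ℝ} (he : 0 < e1) (he1 : e1 ≤ 1 / 100) {J : ℝ} (hJ : 0 ≤ J) :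
    ∃ C : ℝ, 0 ≤ C ∧ ∃ m0 : ℕ, ∀ k : ℕ, m0 ≤ k → ∀ s : ℕ, s ≤ 1 → ∀ x z : ℂ,
      |x.re| ≤ NUMF.l / 10 → -(9 / 10 * NUMF.l) ≤ z.re → z.re ≤ 37 / 10 * NUMF.l →
      |z.im| ≤ 3 / 20 * Real.log (k + 1 + s : ℕ) + 2 →
      ‖Pool.Agent.PB.Pf z (mu1 k x) (mu1 k x)‖ * Real.exp (linS e1 J s (k + 1 + s) x z) ≤
        C * Real.exp (-((1 - e1) * Tb (Real.log (k + 1 + s : ℕ))) + 2 * |z.im|) := by
  obtain ⟨Cc, hCc, mc, Hc⟩ := crvL he he1 hJ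
  obtain ⟨C0, hC0, H0⟩ := PBV.nrm_MF
  obtain ⟨C2, hC2, H2⟩ := PBV.exists_HDc he (by linarith : e1 ≤ 1) (by linarith : 0 ≤ Cc)
  obtain ⟨C3, hC3, H3⟩ := exists_rowc he (by linarith : e1 ≤ 1) (by linarith : 0 ≤ Cc)
  obtain ⟨C5, hC5, H5⟩ := NUMFH.exists_lE
  obtain ⟨C6, hC6, H6⟩ := NUMFH.exists_mE
  obtain ⟨CN, hCN, mn, HN⟩ := cur_num he he1 hJ
  have hl := NUMF.l_pos
  obtain ⟨CT, hCT⟩ : ∃ CT, CT = C6 + 2 * (C5 + 2 * C6) + 2 * C2 + 2 * C3 + CN := ⟨_, rfl⟩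
  refine ⟨C0 * Real.exp CT, by positivity, max mc mn, fun k hk s hs x z hx z1 z2 z3 => ?_⟩
  obtain ⟨m, hm⟩ : ∃ m : ℕ, m = k + 1 + s := ⟨_, rfl⟩
  rw [← hm] at z3 ⊢
  have k1 : mc ≤ m := by
    have := (le_max_left _ _).trans hk
    omega
  have k2 : mn ≤ m := by
    have := (le_max_right _ _).trans hk
    omega
  obtain ⟨hT, hd1, hb⟩ := HN m k2
  obtain ⟨x1, x2⟩ := abs_le.1 hx
  have hm1 : 1 ≤ m := by omega
  have key := (H0 k x z (by linarith) (by linarith) (by linarith)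
    (by rw [Complex.sub_re]; linarith) (by rw [Complex.sub_re]; linarith)).1
  rw [PBV.nrm_Pf] at key
  have hmu : PBV.mu0 k x = mu1 k x := rfl
  rw [hmu] at key
  have hb' := hb z.im z3
  have hcv := Hc m k1
  obtain ⟨i1, b1⟩ := H2 m _ _ hm1 hcv hd1 1 z x (by norm_num) z1 z2 (by linarith) true
  obtain ⟨i2, b2⟩ := H2 m _ _ hm1 hcv hd1 1 z x (by norm_num) z1 z2 (by linarith) false
  obtain ⟨i3, b3⟩ := H3 m _ _ hm1 hcv hd1 0 (by rw [Complex.zero_re, abs_zero]; positivity)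
  have a5 := H5 z (by linarith) (by linarith)
  have a6 := H6 x (by linarith)
  have a7 := H6 0 (by rw [Complex.zero_re, abs_zero]; exact hl.le)
  have hΛ : |NUMFH.lE z + NUMFH.mE x - NUMFH.mE 0| ≤ C5 + 2 * C6 := by
    rw [abs_le] at a5 a6 a7 ⊢
    constructor <;> linarith [a5.1, a5.2, a6.1, a6.2, a7.1, a7.2]
  have hP : (NUSea.P : ℝ → ℝ) = NUMF.P := rfl
  have hint : ∀ a : Bool, Integrable (fun t => (m : ℝ) * NUMF.P t *
      PBH.Hleg 1 z x (etL e1 J m) a t) →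
      ∫ t, (m : ℝ) * NUSea.P t * HlegS s z x (etL e1 J m) a t =
      (∫ t, (m : ℝ) * NUMF.P t * PBH.Hleg 1 z x (etL e1 J m) a t) -
        s * ∫ t, (m : ℝ) * NUMF.P t * Real.log (PBO.rwC 0 (pA (etL e1 J m) t)) := by
    intro a ha
    rw [← integral_const_mul, ← integral_sub ha (i3.const_mul _)]
    refine integral_congr_ae (Filter.Eventually.of_forall fun t => ?_)
    simp only
    unfold HlegS
    rw [hP]
    ring
  have hsum : ∑ a, ∫ t, (m : ℝ) * NUSea.P t * HlegS s z x (etL e1 J m) a t =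
      ((∫ t, (m : ℝ) * NUMF.P t * PBH.Hleg 1 z x (etL e1 J m) true t) -
        s * ∫ t, (m : ℝ) * NUMF.P t * Real.log (PBO.rwC 0 (pA (etL e1 J m) t))) +
      ((∫ t, (m : ℝ) * NUMF.P t * PBH.Hleg 1 z x (etL e1 J m) false t) -
        s * ∫ t, (m : ℝ) * NUMF.P t * Real.log (PBO.rwC 0 (pA (etL e1 J m) t))) := by
    rw [Fintype.sum_bool, hint true i1, hint false i2]
  have hL : linS e1 J s m x z ≤ (((k + 1 : ℕ) : ℝ) ^ 2 * NUMFH.mE 0 +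
      2 * ((k + 1 : ℕ) : ℝ) * (NUMFH.lE z + NUMFH.mE x - NUMFH.mE 0)) +
      (CT + (-((1 - e1) * Tb (Real.log m)) + 2 * |z.im|)) := by
    unfold linS
    rw [hsum, PBV.MF_seaP, hCT]
    have hc : (m : ℝ) = ((k + 1 : ℕ) : ℝ) + (s : ℝ) := by rw [hm]; push_cast; ring
    exact val_arith hc (Nat.cast_nonneg s) (by exact_mod_cast hs) b1 b2 b3 hΛ a7 hb'
  obtain ⟨N0, hN0⟩ : ∃ N0, N0 = ‖Pool.Agent.PB.Pf z (mu1 k x) (mu1 k x)‖ := ⟨_, rfl⟩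
  have hN00 : 0 ≤ N0 := by rw [hN0]; exact norm_nonneg _
  rw [← hN0] at key ⊢
  obtain ⟨A, hA⟩ : ∃ A, A = ((k + 1 : ℕ) : ℝ) ^ 2 * NUMFH.mE 0 +
      2 * ((k + 1 : ℕ) : ℝ) * (NUMFH.lE z + NUMFH.mE x - NUMFH.mE 0) := ⟨_, rfl⟩
  rw [← hA] at key hL
  calc N0 * Real.exp (linS e1 J s m x z) ≤
      N0 * Real.exp (A + (CT + (-((1 - e1) * Tb (Real.log m)) + 2 * |z.im|))) :=
        mul_le_mul_of_nonneg_left (Real.exp_le_exp.2 hL) hN00
    _ = N0 * Real.exp A * (Real.exp CT *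
        Real.exp (-((1 - e1) * Tb (Real.log m)) + 2 * |z.im|)) := by
        rw [Real.exp_add, Real.exp_add CT]
        ring
    _ ≤ C0 * (Real.exp CT * Real.exp (-((1 - e1) * Tb (Real.log m)) + 2 * |z.im|)) :=
        mul_le_mul_of_nonneg_right key (by positivity)
    _ = _ := by ring

/-! ### the one body bound -/

theorem obZ_S {ep : ℝ} (s : ℕ) (hs : s ≤ 1) (k : ℕ) {x z : ℂ} (hx : |x.re| ≤ NUP1.l / 5)
    (hx' : |x.im| ≤ 2) (h1 : -(9 / 10 * NUP1.l) ≤ z.re) (h2 : z.re ≤ 187 / 50 * NUP1.l) :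
    PBO.ObZ 2 2 PBO.cZ (k + 1 + s) (4 / 3 * (1 - ep)) PBO.eM (obL k (4 / 3 * (1 - ep)) x z) k
      (List.ofFn (mu1 k x)) [x] [I, -I] [] (2 * Real.cos NUP1.l) (fun _ u => PBO.thZ z u) where
  rows := { rowsZ k hx hx' with
    up := by omega
    dn := by omega }
  w1 := PBO.PtsZ.II le_rfl (by norm_num)
  w2 := PBO.PtsZ.nil _ _
  cc := two_cos
  sp := PBO.legZ h1 h2
  R := (obZ_L k hx hx' h1 h2 (ep := ep)).R
  φ := rfl
  φ0 := rfl

/-- **the dislocated function from the bound of its gas, `m = k + 1 + s`, `s ≤ 1`** -/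
theorem topS (hS : NUStabP.StabProd) (K K2 : ℝ) : ∃ c1 : ℝ, 0 < c1 ∧ ∀ c' : ℝ, 0 ≤ c' →
    ∀ δ : ℝ, 0 < δ → ∃ a0 : ℝ, 0 < a0 ∧ ∀ ep : ℝ, 0 < ep → ep ≤ 1 / 100 → ∀ e1 : ℝ, 0 < e1 →
    e1 ≤ 1 / 100 → ∀ J : ℝ, 0 ≤ J → Real.exp (-(2 * Real.pi * J)) + 3 * e1 + 3 * ep ≤ a0 →
    ∃ C : ℝ, 0 ≤ C ∧ ∃ m0 : ℕ, ∀ k : ℕ, m0 ≤ k → ∀ s : ℕ, s ≤ 1 → ∀ m : ℕ, m = k + 1 + s →
      ∀ x z : ℂ, |x.re| ≤ NUMF.l / 10 → |x.im| ≤ 2 →
      -(9 / 10 * NUMF.l) ≤ z.re → z.re < 37 / 10 * NUMF.l →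
      |z.im| ≤ 3 / 20 * Real.log m + 2 → ∀ c : Bool → ℂ,
      (∀ a, ‖c a‖ = 2 * Real.cos NUP1.l) →
      ∀ (φ : ℕ → InsE) (w : ℕ → (r : ℕ) → (Fin r → Xo) → ℝ) (Q Bw d : ℝ), 0 ≤ Q → 0 ≤ Bw →
      0 < d →
      (∀ n ≤ 2 * m, ∀ r ≤ 2 * n, ∀ O : Fin r → Xo, 0 ≤ w n r O ∧
        w n r O ≤ (if (r : ℝ) ≤ Real.log m then Bw else
          Bw * Real.exp (c' * Real.log m)) * Real.exp (K2 * r) *
            Real.exp (∑ i, gT e1 (Real.log m) (ht (O i)))) →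
      (∀ b' : ℝ, |b'| = d → ∀ n ≤ 2 * m, ∀ r ≤ 2 * n, ∀ O : Fin r → Xo,
        chgO O true ≤ n → chgO O false ≤ n →
        ENNReal.ofReal (Real.exp (b' * ((m : ℝ) - n))) *
          PotH.gasI (obL k (4 / 3 * (1 - ep)) x z) (pL m) (etL e1 J m)
            (etL' e1 J m) O (n - chgO O true) (n - chgO O false)
            (φ n r O (n - chgO O true) (n - chgO O false)) ≤
        ENNReal.ofReal (w n r O * (Q * Real.exp (linS e1 J s m x z +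
          (∑ i, oneEH m (etL e1 J m) (TW ep e1 m) O i + K * r +
            NUStabP.enC O + c1 * NUDispW.win univ fun i => ht (O i)))))) →
      ENNReal.ofReal ‖Pool.Agent.PB.Pf z (mu1 k x) (mu1 k x)‖ *
        ∑ n ∈ range (2 * m + 1), FE (ZL c k (4 / 3 * (1 - ep)) x z) (pL m) n n
          (crL e1 J m) (crL' e1 J m) (φ n) ≤
        ENNReal.ofReal (C * Bw * Q * (m : ℝ) ^ (-(3 / 8 : ℝ) + δ) *
          Real.exp (2 * |z.im|) * (2 / (1 - Real.exp (-d)))) := by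
  obtain ⟨K', c1, hc1, HF⟩ := topV hS K K2
  obtain ⟨Ca, c, hCa, hc, HO⟩ := PBO.one_actZT 2 (h0 := 2) (G := PBO.cZ) (by norm_num) PBO.cZ_pos
    K' 12
  refine ⟨c1, hc1, fun c' hc' δ hδ => ?_⟩
  obtain ⟨a0, ha0, HF⟩ := HF Ca c hCa hc c' hc' (δ / 2) (by linarith)
  refine ⟨min a0 δ, lt_min ha0 hδ, fun ep hep hep1 e1 he he1 J hJ hsm => ?_⟩
  obtain ⟨mf, hmf, HF⟩ := HF ep hep hep1 e1 he he1 J hJ (hsm.trans (min_le_left _ _))
  obtain ⟨CV, hCV, mv, HV⟩ := valS he he1 hJ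
  obtain ⟨mo, HO⟩ := HO e1 he
  obtain ⟨mg, Hg⟩ := PBP.exists_M0 he
  refine ⟨CV, hCV, max (max mv mo) (max mg mf), fun k hk s hs m hm x z hx hx' z1 z2 z3 cc
    hcc φ w Q Bw d hQ hBw hd hw hgas => ?_⟩
  have k1 : mv ≤ k := (le_max_left _ _).trans ((le_max_left _ _).trans hk)
  have k2 : mo ≤ m := by
    have := (le_max_right _ _).trans ((le_max_left _ _).trans hk)
    omega
  have k3 : mg ≤ m := by
    have := (le_max_left _ _).trans ((le_max_right _ _).trans hk)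
    omega
  have k4 : mf ≤ m := by
    have := (le_max_right _ _).trans ((le_max_right _ _).trans hk)
    omega
  have k6 : 6 ≤ m := hmf.trans k4
  have hl := NUMF.l_pos
  have hlN : NUP1.l = NUMF.l := rfl
  have hm6 : (6 : ℝ) ≤ (m : ℝ) := by exact_mod_cast k6
  have hmp : (0 : ℝ) < (m : ℝ) := by linarith
  have hsd : 3 * e1 ≤ δ := by
    have h1 := hsm.trans (min_le_right _ _)
    have h2 := Real.exp_pos (-(2 * Real.pi * J))
    linarith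
  have hone : OneC (ZL cc k (4 / 3 * (1 - ep)) x z) (obL k (4 / 3 * (1 - ep)) x z) (pL m) ep
      (2 * (4 / 3 * (1 - ep))) (3 / 5 * NUP1.l) 0 (Set.range fun i => (mu1 k x i).im) :=
    oneC_Lg le_rfl (by rw [hlN]; linarith) (parZ_parC m) hep hep1 (by linarith) (by linarith)
      (rws_mu1 k (by rw [hlN]; linarith)) (by
        intro w hw
        rw [List.mem_cons, List.mem_singleton] at hw
        rcases hw with rfl | rfl
        · rw [Complex.I_re, abs_zero, hlN]; positivity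
        · rw [Complex.neg_re, Complex.I_re, neg_zero, abs_zero, hlN]; positivity) [] hcc
      (by rw [hlN]; exact z1) (by rw [hlN]; exact z2)
  have hcr : ∀ t, crH (etL e1 J m) m t = hC e1 J m t := fun t => mul_etaC hmp t
  obtain ⟨g1, g2⟩ := PBO.hC_gain he he1 hJ (m := m) (Hg m k3).1
  have hv := HV k k1 s hs x z hx z1 z2.le (by rw [← hm]; exact z3)
  rw [← hm] at hv
  have key := HF m k4 (ZL cc k (4 / 3 * (1 - ep)) x z) (obL k (4 / 3 * (1 - ep)) x z)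
    (2 * (4 / 3 * (1 - ep))) (3 / 5 * NUP1.l) 0 (Set.range fun i => (mu1 k x i).im) hone
    (obL_nn _ _ _ _) ?_ φ w Q Bw d ‖Pool.Agent.PB.Pf z (mu1 k x) (mu1 k x)‖
    (linS e1 J s m x z) _ hQ hBw hd (norm_nonneg _) hv hw hgas
  · refine key.trans (ENNReal.ofReal_le_ofReal ?_)
    obtain ⟨D, hD⟩ : ∃ D, D = 2 / (1 - Real.exp (-d)) := ⟨_, rfl⟩
    have hD0 : 0 ≤ D := by
      rw [hD]
      have : Real.exp (-d) < 1 := by
        rw [← Real.exp_zero]; exact Real.exp_lt_exp.2 (by linarith)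
      exact div_nonneg (by norm_num) (by linarith)
    rw [← hD]
    have hTb : Tb (Real.log m) = 3 / 8 * Real.log m := rfl
    have hLm : 0 ≤ Real.log m := Real.log_nonneg (by linarith)
    have hpow : Real.exp (-((1 - e1) * Tb (Real.log m)) + 2 * |z.im|) * (m : ℝ) ^ (δ / 2) ≤
        (m : ℝ) ^ (-(3 / 8 : ℝ) + δ) * Real.exp (2 * |z.im|) := by
      rw [Real.rpow_def_of_pos hmp, Real.rpow_def_of_pos hmp, ← Real.exp_add, ← Real.exp_add]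
      refine Real.exp_le_exp.2 ?_
      rw [hTb]
      nlinarith
    calc Bw * Q * (CV * Real.exp (-((1 - e1) * Tb (Real.log m)) + 2 * |z.im|)) *
          (m : ℝ) ^ (δ / 2) * D
        = CV * (Bw * Q * D) * (Real.exp (-((1 - e1) * Tb (Real.log m)) + 2 * |z.im|) *
          (m : ℝ) ^ (δ / 2)) := by ring
      _ ≤ CV * (Bw * Q * D) * ((m : ℝ) ^ (-(3 / 8 : ℝ) + δ) * Real.exp (2 * |z.im|)) :=
          mul_le_mul_of_nonneg_left hpow (by positivity)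
      _ = _ := by ring
  · intro r _ O i
    have hZ : PBO.ObZ 2 2 PBO.cZ m (4 / 3 * (1 - ep)) PBO.eM
        (obL k (4 / 3 * (1 - ep)) x z) k (List.ofFn (mu1 k x)) [x] [I, -I] []
        (2 * Real.cos NUP1.l) (fun _ u => PBO.thZ z u) := by
      rw [hm]
      refine obZ_S s hs k ?_ hx' ?_ ?_
      · rw [hlN]
        linarith
      · rw [hlN]
        exact z1
      · rw [hlN]
        linarith
    exact HO m k2 (by omega) ep hep hep1 (obL k (4 / 3 * (1 - ep)) x z) k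
      (List.ofFn (mu1 k x)) [x] [I, -I] [] (2 * Real.cos NUP1.l) (fun _ u => PBO.thZ z u)
      hZ (obL_nn _ _ _ _) J (TW ep e1 m) (TW_ge hep hep1 he.le (by omega))
      (crH (etL e1 J m) m) (fun t => by rw [hcr]; exact g1 t)
      (fun t ht => by rw [hcr]; exact g2 t ht) r O i

end PBT

end
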