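import Pool.Agent.PB.Fin

/-!
# Plan B, transfer to the regular function: the abstract end (nu34/PB, section 7)

`PBTR.tr_gen`: `n k = ∫ k₁ R k + O(r k)`, `R k = g k * E + O(r k) P` on a window `S k`, tails small:
then `n k = g k * ∫ k₁ E + O(r k)`.
`PBTR.tr_exp`: the same on `ℝ × ℝ` with exponential bounds and the window `|τ|, |τ'| ≤ B log k`.
`PBTR.tr_low`: `n k = g∞ C + O(k^{-c})`, `n k ≥ A k^{-a}` for infinitely many `k`, `a < c`: then
`n k ≥ L > 0` for all large `k`.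
-/

set_option linter.unusedSectionVars false
set_option linter.unusedVariables false

open MeasureTheory Set Filter Topology

noncomputable section

namespace PBTR

variable {T : Type*} [MeasurableSpace T] {μ : Measure T}

/-- one value of `k` -/
theorem tr_one {n g : ℂ} {R k1 E : T → ℂ} {S : Set T} {P Q : T → ℝ} {r a1 a2 a3 : ℝ}
    (hr : 0 ≤ r) (hS : MeasurableSet S) (hR : AEStronglyMeasurable R μ)
    (hk1 : AEStronglyMeasurable k1 μ) (hkE : Integrable (fun τ => k1 τ * E τ) μ)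
    (hP : ∀ τ, 0 ≤ P τ) (hkP : Integrable (fun τ => ‖k1 τ‖ * P τ) μ)
    (h1 : ‖n - ∫ τ, k1 τ * R τ ∂μ‖ ≤ a1)
    (h2 : ∀ τ ∈ S, ‖R τ - g * E τ‖ ≤ r * P τ)
    (h3 : ∀ τ ∉ S, ‖k1 τ * R τ‖ ≤ Q τ) (h3i : IntegrableOn Q Sᶜ μ)
    (h3b : ∫ τ in Sᶜ, Q τ ∂μ ≤ a2) (h4 : ∫ τ in Sᶜ, ‖k1 τ * E τ‖ ∂μ ≤ a3) :
    ‖n - g * ∫ τ, k1 τ * E τ ∂μ‖ ≤ a1 + r * ∫ τ, ‖k1 τ‖ * P τ ∂μ + (a2 + ‖g‖ * a3) := by
  have hm : AEStronglyMeasurable (fun τ => k1 τ * R τ) μ := hk1.mul hR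
  have hgE : Integrable (fun τ => g * (k1 τ * E τ)) μ := hkE.const_mul g
  have hD1 : IntegrableOn (fun τ => k1 τ * R τ - g * (k1 τ * E τ)) S μ := by
    refine Integrable.mono' (hkP.const_mul r).integrableOn (hm.sub hgE.aestronglyMeasurable).restrict ?_
    refine (ae_restrict_iff' hS).2 (Eventually.of_forall fun τ hτ => ?_)
    have e : k1 τ * R τ - g * (k1 τ * E τ) = k1 τ * (R τ - g * E τ) := by ring
    rw [e, norm_mul]
    calc ‖k1 τ‖ * ‖R τ - g * E τ‖ ≤ ‖k1 τ‖ * (r * P τ) :=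
          mul_le_mul_of_nonneg_left (h2 τ hτ) (norm_nonneg _)
      _ = r * (‖k1 τ‖ * P τ) := by ring
  have hD2a : IntegrableOn (fun τ => k1 τ * R τ) Sᶜ μ := by
    refine Integrable.mono' h3i hm.restrict ?_
    exact (ae_restrict_iff' hS.compl).2 (Eventually.of_forall fun τ hτ => h3 τ hτ)
  have hD2 : IntegrableOn (fun τ => k1 τ * R τ - g * (k1 τ * E τ)) Sᶜ μ := hD2a.sub hgE.integrableOn
  have hD : Integrable (fun τ => k1 τ * R τ - g * (k1 τ * E τ)) μ := by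
    have := hD1.union hD2
    rwa [union_compl_self, integrableOn_univ] at this
  have hkR : Integrable (fun τ => k1 τ * R τ) μ := by
    have := hD.add hgE
    refine this.congr (Eventually.of_forall fun τ => ?_)
    simp
  have e1 : n - g * ∫ τ, k1 τ * E τ ∂μ =
      (n - ∫ τ, k1 τ * R τ ∂μ) + ∫ τ, (k1 τ * R τ - g * (k1 τ * E τ)) ∂μ := by
    rw [integral_sub hkR hgE, integral_const_mul]
    ring
  have e2 : ∫ τ, (k1 τ * R τ - g * (k1 τ * E τ)) ∂μ =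
      ∫ τ in S, (k1 τ * R τ - g * (k1 τ * E τ)) ∂μ +
        ∫ τ in Sᶜ, (k1 τ * R τ - g * (k1 τ * E τ)) ∂μ := (integral_add_compl hS hD).symm
  have b1 : ‖∫ τ in S, (k1 τ * R τ - g * (k1 τ * E τ)) ∂μ‖ ≤ r * ∫ τ, ‖k1 τ‖ * P τ ∂μ := by
    calc ‖∫ τ in S, (k1 τ * R τ - g * (k1 τ * E τ)) ∂μ‖
        ≤ ∫ τ in S, r * (‖k1 τ‖ * P τ) ∂μ := by
          refine norm_integral_le_of_norm_le (hkP.const_mul r).integrableOn ?_
          refine (ae_restrict_iff' hS).2 (Eventually.of_forall fun τ hτ => ?_)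
          have e : k1 τ * R τ - g * (k1 τ * E τ) = k1 τ * (R τ - g * E τ) := by ring
          rw [e, norm_mul]
          calc ‖k1 τ‖ * ‖R τ - g * E τ‖ ≤ ‖k1 τ‖ * (r * P τ) :=
                mul_le_mul_of_nonneg_left (h2 τ hτ) (norm_nonneg _)
            _ = r * (‖k1 τ‖ * P τ) := by ring
      _ ≤ ∫ τ, r * (‖k1 τ‖ * P τ) ∂μ :=
          setIntegral_le_integral (hkP.const_mul r) (Eventually.of_forall fun τ =>
            mul_nonneg hr (mul_nonneg (norm_nonneg _) (hP τ)))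
      _ = _ := integral_const_mul _ _
  have b2 : ‖∫ τ in Sᶜ, (k1 τ * R τ - g * (k1 τ * E τ)) ∂μ‖ ≤ a2 + ‖g‖ * a3 := by
    rw [integral_sub hD2a hgE.integrableOn]
    have c1 : ‖∫ τ in Sᶜ, k1 τ * R τ ∂μ‖ ≤ ∫ τ in Sᶜ, Q τ ∂μ :=
      norm_integral_le_of_norm_le h3i
        ((ae_restrict_iff' hS.compl).2 (Eventually.of_forall fun τ hτ => h3 τ hτ))
    have c2 : ‖∫ τ in Sᶜ, g * (k1 τ * E τ) ∂μ‖ ≤ ‖g‖ * ∫ τ in Sᶜ, ‖k1 τ * E τ‖ ∂μ := by
      rw [integral_const_mul, norm_mul]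
      exact mul_le_mul_of_nonneg_left (norm_integral_le_integral_norm _) (norm_nonneg _)
    have c3 : ‖g‖ * ∫ τ in Sᶜ, ‖k1 τ * E τ‖ ∂μ ≤ ‖g‖ * a3 :=
      mul_le_mul_of_nonneg_left h4 (norm_nonneg _)
    calc _ ≤ ‖∫ τ in Sᶜ, k1 τ * R τ ∂μ‖ + ‖∫ τ in Sᶜ, g * (k1 τ * E τ) ∂μ‖ := norm_sub_le _ _
      _ ≤ _ := by linarith
  rw [e1, e2]
  calc _ ≤ ‖n - ∫ τ, k1 τ * R τ ∂μ‖ +
        (‖∫ τ in S, (k1 τ * R τ - g * (k1 τ * E τ)) ∂μ‖ +
          ‖∫ τ in Sᶜ, (k1 τ * R τ - g * (k1 τ * E τ)) ∂μ‖) := by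
        refine (norm_add_le _ _).trans ?_
        gcongr
        exact norm_add_le _ _
    _ ≤ _ := by linarith

/-- **The abstract transfer**, along a sequence. -/
theorem tr_gen {n g : ℕ → ℂ} {R : ℕ → T → ℂ} {k1 E : T → ℂ} {S : ℕ → Set T} {P : T → ℝ}
    {Q : ℕ → T → ℝ} {r : ℕ → ℝ} {A1 A2 A3 A4 : ℝ} (hr : ∀ᶠ k : ℕ in atTop, 0 ≤ r k)
    (hS : ∀ k, MeasurableSet (S k)) (hR : ∀ᶠ k : ℕ in atTop, AEStronglyMeasurable (R k) μ)
    (hk1 : AEStronglyMeasurable k1 μ) (hkE : Integrable (fun τ => k1 τ * E τ) μ)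
    (hP : ∀ τ, 0 ≤ P τ) (hkP : Integrable (fun τ => ‖k1 τ‖ * P τ) μ)
    (h1 : ∀ᶠ k : ℕ in atTop, ‖n k - ∫ τ, k1 τ * R k τ ∂μ‖ ≤ A1 * r k)
    (h2 : ∀ᶠ k : ℕ in atTop, ∀ τ ∈ S k, ‖R k τ - g k * E τ‖ ≤ r k * P τ)
    (h3 : ∀ᶠ k : ℕ in atTop, ∀ τ ∉ S k, ‖k1 τ * R k τ‖ ≤ Q k τ)
    (h3i : ∀ᶠ k : ℕ in atTop, IntegrableOn (Q k) (S k)ᶜ μ)
    (h3b : ∀ᶠ k : ℕ in atTop, ∫ τ in (S k)ᶜ, Q k τ ∂μ ≤ A2 * r k)
    (h4 : ∀ᶠ k : ℕ in atTop, ∫ τ in (S k)ᶜ, ‖k1 τ * E τ‖ ∂μ ≤ A3 * r k)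
    (hA3 : 0 ≤ A3) (h5 : ∀ᶠ k : ℕ in atTop, ‖g k‖ ≤ A4) :
    ∀ᶠ k : ℕ in atTop, ‖n k - g k * ∫ τ, k1 τ * E τ ∂μ‖ ≤
      (A1 + (∫ τ, ‖k1 τ‖ * P τ ∂μ) + A2 + A4 * A3) * r k := by
  filter_upwards [hr, hR, h1, h2, h3, h3i, h3b, h4, h5] with k q0 q1 q2 q3 q4 q5 q6 q7 q8
  have := tr_one q0 (hS k) q1 hk1 hkE hP hkP q2 q3 q4 q5 q6 q7
  have h9 : ‖g k‖ * (A3 * r k) ≤ A4 * (A3 * r k) :=
    mul_le_mul_of_nonneg_right q8 (mul_nonneg hA3 q0)
  calc _ ≤ _ := this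
    _ ≤ _ := by nlinarith

/-- replacing `g k` by its limit -/
theorem tr_lim {n g : ℕ → ℂ} {C G : ℂ} {r : ℕ → ℝ} {A B : ℝ}
    (h1 : ∀ᶠ k : ℕ in atTop, ‖n k - g k * C‖ ≤ A * r k)
    (h2 : ∀ᶠ k : ℕ in atTop, ‖g k - G‖ ≤ B * r k) :
    ∀ᶠ k : ℕ in atTop, ‖n k - G * C‖ ≤ (A + B * ‖C‖) * r k := by
  filter_upwards [h1, h2] with k q1 q2
  have e : n k - G * C = (n k - g k * C) + (g k - G) * C := by ring
  rw [e]
  calc _ ≤ ‖n k - g k * C‖ + ‖(g k - G) * C‖ := norm_add_le _ _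
    _ ≤ A * r k + B * r k * ‖C‖ := by
        rw [norm_mul]
        gcongr
    _ = _ := by ring

/-- **The final lower bound**: `n k = L + O(k^{-c})`, `n k ≥ A k^{-a}` infinitely often, `a < c`
(`F` = `atTop` or `atTop ⊓ odd`, any filter finer than `atTop`). -/
theorem tr_low {F : Filter ℕ} (hF : F ≤ atTop) {n : ℕ → ℝ} {L : ℂ} {K c a A : ℝ}
    (hc : 0 < c) (hac : a < c) (hA : 0 < A)
    (h : ∀ᶠ k : ℕ in F, ‖(n k : ℂ) - L‖ ≤ K * (k : ℝ) ^ (-c))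
    (hlow : ∃ᶠ k : ℕ in F, A * (k : ℝ) ^ (-a) ≤ n k) :
    0 < L.re ∧ L.im = 0 ∧ ∀ᶠ k in F, L.re / 2 ≤ n k := by
  have htop : Tendsto (fun k : ℕ => (k : ℝ)) F atTop := tendsto_natCast_atTop_atTop.mono_left hF
  have hne : F.NeBot := ⟨fun h0 => by
    have := hlow.mono fun k _ => (trivial : True)
    rw [h0] at this
    exact this (by simp)⟩
  have h0 : Tendsto (fun k : ℕ => K * (k : ℝ) ^ (-c)) F (𝓝 0) := by
    have := ((tendsto_rpow_neg_atTop hc).comp htop).const_mul K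
    simpa using this
  have hlim : Tendsto (fun k : ℕ => (n k : ℂ)) F (𝓝 L) := by
    rw [tendsto_iff_norm_sub_tendsto_zero]
    exact squeeze_zero' (Eventually.of_forall fun k => norm_nonneg _) h h0
  have hre : Tendsto n F (𝓝 L.re) := by
    have := (Complex.continuous_re.tendsto L).comp hlim
    simpa [Function.comp_def] using this
  have him : L.im = 0 := by
    have h1 := (Complex.continuous_im.tendsto L).comp hlim
    have h2 : (Complex.im ∘ fun k : ℕ => (n k : ℂ)) = fun _ => (0 : ℝ) := by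
      funext k; simp
    rw [h2] at h1
    exact (tendsto_nhds_unique tendsto_const_nhds h1).symm
  have hpos : 0 < L.re := by
    by_contra hn
    push Not at hn
    have h2 : ∀ᶠ k : ℕ in F, 2 * (|K| + 1) / A < (k : ℝ) ^ (c - a) :=
      ((tendsto_rpow_atTop (by linarith)).comp htop).eventually_gt_atTop _
    obtain ⟨k, h3, h4, h5, h6⟩ := (hlow.and_eventually (h.and (h2.and
      (htop.eventually_ge_atTop 1)))).exists
    have hk0 : (0 : ℝ) < k := by linarith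
    have h8 : 0 < (k : ℝ) ^ (-c) := Real.rpow_pos_of_pos hk0 _
    have h7 : (k : ℝ) ^ (-a) = (k : ℝ) ^ (c - a) * (k : ℝ) ^ (-c) := by
      rw [← Real.rpow_add hk0]; ring_nf
    rw [div_lt_iff₀ hA] at h5
    have h9 : n k - L.re ≤ ‖(n k : ℂ) - L‖ := by
      have := Complex.re_le_norm ((n k : ℂ) - L)
      simpa using this
    have h10 : K * (k : ℝ) ^ (-c) ≤ |K| * (k : ℝ) ^ (-c) :=
      mul_le_mul_of_nonneg_right (le_abs_self K) h8.le
    have h11 : 2 * (|K| + 1) * (k : ℝ) ^ (-c) < A * (k : ℝ) ^ (-a) := by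
      rw [h7]
      nlinarith [mul_lt_mul_of_pos_right h5 h8]
    have h12 : 0 ≤ |K| * (k : ℝ) ^ (-c) := mul_nonneg (abs_nonneg _) h8.le
    linarith
  refine ⟨hpos, him, ?_⟩
  filter_upwards [hre.eventually (lt_mem_nhds (show L.re / 2 < L.re by linarith))] with k hk
  exact hk.le

/-! ### The plane version: exponential bounds, window `|τ|, |τ'| ≤ B log k` -/

lemma int_exp_abs {b : ℝ} (hb : 0 < b) : Integrable fun y : ℝ => Real.exp (-(b * |y|)) := by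
  have h1 : IntegrableOn (fun y : ℝ => Real.exp (-(b * |y|))) (Set.Ioi 0) := by
    refine (integrableOn_exp_mul_Ioi (a := -b) (by linarith) 0).congr_fun ?_ measurableSet_Ioi
    intro y hy
    simp only
    rw [abs_of_pos hy, neg_mul]
  have h2 : IntegrableOn (fun y : ℝ => Real.exp (-(b * |y|))) (Set.Iic 0) := by
    refine (integrableOn_exp_mul_Iic (a := b) hb 0).congr_fun ?_ measurableSet_Iic
    intro y hy
    simp only
    rw [abs_of_nonpos hy]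
    congr 1; ring
  have h3 := h2.union h1
  rwa [Set.Iic_union_Ioi, integrableOn_univ] at h3

/-- the weight `e^{-b(|τ|+|τ'|)}` -/
def ew (b : ℝ) (τ : ℝ × ℝ) : ℝ := Real.exp (-(b * (|τ.1| + |τ.2|)))

lemma ew_pos (b : ℝ) (τ : ℝ × ℝ) : 0 < ew b τ := Real.exp_pos _

lemma int_ew {b : ℝ} (hb : 0 < b) : Integrable (ew b) := by
  have := (int_exp_abs hb).mul_prod (int_exp_abs hb)
  rw [← Measure.volume_eq_prod] at this
  refine this.congr (Eventually.of_forall fun τ => ?_)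
  show Real.exp (-(b * |τ.1|)) * Real.exp (-(b * |τ.2|)) = ew b τ
  rw [← Real.exp_add, ew]
  congr 1
  ring

/-- the window -/
def win (Y : ℝ) : Set (ℝ × ℝ) := {τ | |τ.1| ≤ Y ∧ |τ.2| ≤ Y}

lemma measurableSet_win (Y : ℝ) : MeasurableSet (win Y) := by
  have h1 : MeasurableSet {τ : ℝ × ℝ | |τ.1| ≤ Y} :=
    measurableSet_le measurable_fst.norm measurable_const
  have h2 : MeasurableSet {τ : ℝ × ℝ | |τ.2| ≤ Y} :=
    measurableSet_le measurable_snd.norm measurable_const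
  exact h1.inter h2

lemma ew_out {b Y : ℝ} (hb : 0 ≤ b) {τ : ℝ × ℝ} (h : τ ∉ win Y) :
    ew b τ ≤ Real.exp (-(b / 2 * Y)) * ew (b / 2) τ := by
  rw [ew, ew, ← Real.exp_add]
  apply Real.exp_le_exp.2
  have h1 : Y ≤ |τ.1| + |τ.2| := by
    by_contra hn
    push Not at hn
    exact h ⟨by linarith [abs_nonneg τ.2], by linarith [abs_nonneg τ.1]⟩
  nlinarith

/-- **Abstract transfer on the plane.** -/
theorem tr_exp {n g : ℕ → ℂ} {R : ℕ → ℝ × ℝ → ℂ} {k1 E : ℝ × ℝ → ℂ} {P : ℝ × ℝ → ℝ}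
    {A A1 A4 b c e B : ℝ} (hb : 0 < b) (hA : 0 ≤ A) (hbB : c + e ≤ b / 2 * B) (he : 0 ≤ e)
    (hR : ∀ᶠ k : ℕ in atTop, AEStronglyMeasurable (R k) volume)
    (hk1 : AEStronglyMeasurable k1 volume) (hE : AEStronglyMeasurable E volume)
    (hPm : AEStronglyMeasurable P volume) (hP : ∀ τ, 0 ≤ P τ)
    (h1 : ∀ᶠ k : ℕ in atTop, ‖n k - ∫ τ, k1 τ * R k τ‖ ≤ A1 * (k : ℝ) ^ (-c))
    (h2 : ∀ᶠ k : ℕ in atTop, ∀ τ ∈ win (B * Real.log k),
      ‖R k τ - g k * E τ‖ ≤ (k : ℝ) ^ (-c) * P τ)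
    (h3 : ∀ᶠ k : ℕ in atTop, ∀ τ ∉ win (B * Real.log k),
      ‖k1 τ * R k τ‖ ≤ A * (k : ℝ) ^ e * ew b τ)
    (h4 : ∀ τ, ‖k1 τ * E τ‖ ≤ A * ew b τ) (h6 : ∀ τ, ‖k1 τ‖ * P τ ≤ A * ew b τ)
    (h5 : ∀ᶠ k : ℕ in atTop, ‖g k‖ ≤ A4) :
    ∃ K : ℝ, ∀ᶠ k : ℕ in atTop, ‖n k - g k * ∫ τ, k1 τ * E τ‖ ≤ K * (k : ℝ) ^ (-c) := by
  have hi := int_ew hb
  have hi2 := int_ew (half_pos hb)
  set I2 : ℝ := ∫ τ, ew (b / 2) τ with hI2
  have hI20 : 0 ≤ I2 := integral_nonneg fun τ => (ew_pos _ _).le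
  have hlog : ∀ᶠ k : ℕ in atTop, Real.exp (-(b / 2 * (B * Real.log k))) ≤ (k : ℝ) ^ (-(c + e)) := by
    filter_upwards [eventually_ge_atTop 1] with k hk
    have hk1 : (1 : ℝ) ≤ k := by exact_mod_cast hk
    have hl : 0 ≤ Real.log k := Real.log_nonneg hk1
    rw [Real.rpow_def_of_pos (by linarith)]
    apply Real.exp_le_exp.2
    nlinarith
  have hpos : ∀ᶠ k : ℕ in atTop, (1 : ℝ) ≤ k := by
    filter_upwards [eventually_ge_atTop 1] with k hk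
    exact_mod_cast hk
  refine ⟨_, tr_gen (μ := volume) (S := fun k : ℕ => win (B * Real.log k))
    (Q := fun k τ => A * (k : ℝ) ^ e * ew b τ) (r := fun k : ℕ => (k : ℝ) ^ (-c)) (A1 := A1)
    (A2 := A * I2) (A3 := A * I2) (A4 := A4)
    (hpos.mono fun k hk => Real.rpow_nonneg (by linarith) _) (fun k => measurableSet_win _) hR hk1
    ?_ hP ?_ h1 h2 h3 (Eventually.of_forall fun k => (hi.const_mul _).integrableOn) ?_ ?_
    (mul_nonneg hA hI20) h5⟩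
  · exact (hi.const_mul A).mono' (hk1.mul hE) (Eventually.of_forall h4)
  · refine (hi.const_mul A).mono' (hk1.norm.mul hPm) (Eventually.of_forall fun τ => ?_)
    rw [Real.norm_of_nonneg (mul_nonneg (norm_nonneg _) (hP τ))]
    exact h6 τ
  · filter_upwards [hlog, hpos] with k q1 q2
    have hk0 : (0 : ℝ) < k := by linarith
    have hke : 0 < (k : ℝ) ^ e := Real.rpow_pos_of_pos hk0 _
    calc ∫ τ in (win (B * Real.log k))ᶜ, A * (k : ℝ) ^ e * ew b τ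
        ≤ ∫ τ in (win (B * Real.log k))ᶜ, A * (k : ℝ) ^ (-c) * ew (b / 2) τ := by
          refine setIntegral_mono_on (hi.const_mul _).integrableOn (hi2.const_mul _).integrableOn
            (measurableSet_win _).compl fun τ hτ => ?_
          have q3 := ew_out hb.le hτ
          have q4 : Real.exp (-(b / 2 * (B * Real.log k))) * ew (b / 2) τ ≤
              (k : ℝ) ^ (-(c + e)) * ew (b / 2) τ := mul_le_mul_of_nonneg_right q1 (ew_pos _ _).le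
          have q5 : (k : ℝ) ^ e * (k : ℝ) ^ (-(c + e)) = (k : ℝ) ^ (-c) := by
            rw [← Real.rpow_add hk0]
            congr 1
            ring
          calc A * (k : ℝ) ^ e * ew b τ ≤ A * (k : ℝ) ^ e * ((k : ℝ) ^ (-(c + e)) * ew (b / 2) τ) :=
                mul_le_mul_of_nonneg_left (q3.trans q4) (mul_nonneg hA hke.le)
            _ = A * ((k : ℝ) ^ e * (k : ℝ) ^ (-(c + e))) * ew (b / 2) τ := by ring
            _ = _ := by rw [q5]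
      _ ≤ ∫ τ, A * (k : ℝ) ^ (-c) * ew (b / 2) τ :=
          setIntegral_le_integral (hi2.const_mul _) (Eventually.of_forall fun τ =>
            mul_nonneg (mul_nonneg hA (Real.rpow_nonneg hk0.le _)) (ew_pos _ _).le)
      _ = A * I2 * (k : ℝ) ^ (-c) := by
          rw [integral_const_mul]
          ring
  · filter_upwards [hlog, hpos] with k q1 q2
    have hk0 : (0 : ℝ) < k := by linarith
    have q5 : (k : ℝ) ^ (-(c + e)) ≤ (k : ℝ) ^ (-c) :=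
      Real.rpow_le_rpow_of_exponent_le q2 (by linarith)
    calc ∫ τ in (win (B * Real.log k))ᶜ, ‖k1 τ * E τ‖
        ≤ ∫ τ in (win (B * Real.log k))ᶜ, A * (k : ℝ) ^ (-c) * ew (b / 2) τ := by
          refine setIntegral_mono_on ?_ (hi2.const_mul _).integrableOn
            (measurableSet_win _).compl fun τ hτ => ?_
          · exact ((hi.const_mul A).mono' (hk1.mul hE) (Eventually.of_forall h4)).norm.integrableOn
          have q3 := ew_out hb.le hτ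
          have q4 : Real.exp (-(b / 2 * (B * Real.log k))) * ew (b / 2) τ ≤
              (k : ℝ) ^ (-c) * ew (b / 2) τ :=
            mul_le_mul_of_nonneg_right (q1.trans q5) (ew_pos _ _).le
          calc ‖k1 τ * E τ‖ ≤ A * ew b τ := h4 τ
            _ ≤ A * ((k : ℝ) ^ (-c) * ew (b / 2) τ) := mul_le_mul_of_nonneg_left (q3.trans q4) hA
            _ = _ := by ring
      _ ≤ ∫ τ, A * (k : ℝ) ^ (-c) * ew (b / 2) τ :=
          setIntegral_le_integral (hi2.const_mul _) (Eventually.of_forall fun τ =>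
            mul_nonneg (mul_nonneg hA (Real.rpow_nonneg hk0.le _)) (ew_pos _ _).le)
      _ = A * I2 * (k : ℝ) ^ (-c) := by
          rw [integral_const_mul]
          ring

end PBTR
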