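import Pool.Agent.NUP.MF.Forward
import Pool.Agent.NUE.Psi
import Pool.Agent.PB.MFxi

/-!
# Transfer, Gaussian part (1): exponentials over `sinh`

* `js α a k = (e^{ak} - 1) / sinh (αk)`, `∫ js α a = (π/α) tan (π a / (2α))` for `|Re a| < α`;
* `js2 α a k = (e^{ak} - 1 - ak) / (k sinh (αk))` is integrable for `|Re a| < α`;
* inverse transforms `ift m t = (1/2π) ∫ m(k) e^{ikt} dk`: derivative, inversion, Parseval,
  convolution with `V` and with the bounded kernel `(log g)'`.
-/

set_option autoImplicit false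

open MeasureTheory Set Filter Topology

namespace PBT3

open NUMF

noncomputable section

/-- `(e^{ak} - 1) / sinh (αk)` -/
def js (α : ℝ) (a : ℂ) (k : ℝ) : ℂ := (Complex.exp (a * k) - 1) / (Real.sinh (α * k) : ℂ)

/-- `(e^{ak} - 1 - ak) / (k sinh (αk))` -/
def js2 (α : ℝ) (a : ℂ) (k : ℝ) : ℂ :=
  (Complex.exp (a * k) - 1 - a * k) / ((k * Real.sinh (α * k) : ℝ) : ℂ)

lemma norm_exp_le (z : ℂ) : ‖Complex.exp z‖ ≤ Real.exp |z.re| := by
  rw [Complex.norm_exp]
  exact Real.exp_le_exp.2 (le_abs_self _)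

lemma norm_exp_sub_one (z : ℂ) : ‖Complex.exp z - 1‖ ≤ ‖z‖ * Real.exp |z.re| := by
  have h1 := (convex_strip |z.re|).norm_image_sub_le_of_norm_deriv_le (f := Complex.exp)
    (C := Real.exp |z.re|) (x := 0) (y := z) (fun u _ => Complex.differentiable_exp u) ?_ (by simp) (by simp)
  · simp only [Complex.exp_zero, sub_zero] at h1
    linarith
  · intro u hu
    rw [Complex.deriv_exp]
    exact (norm_exp_le u).trans (Real.exp_le_exp.2 hu)

lemma norm_exp_sub_two (z : ℂ) : ‖Complex.exp z - 1 - z‖ ≤ ‖z‖ ^ 2 * Real.exp |z.re| := by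
  have hcv : Convex ℝ ({u : ℂ | |u.re| ≤ |z.re|} ∩ Metric.closedBall 0 ‖z‖) :=
    (convex_strip |z.re|).inter (convex_closedBall _ _)
  have h1 := hcv.norm_image_sub_le_of_norm_deriv_le (f := fun u => Complex.exp u - u)
    (C := ‖z‖ * Real.exp |z.re|) (x := 0) (y := z)
    (fun u _ => (Complex.differentiable_exp u).sub differentiableAt_id) ?_ (by simp) (by simp)
  · simp only [Complex.exp_zero, sub_zero] at h1
    calc ‖Complex.exp z - 1 - z‖ = ‖Complex.exp z - z - 1‖ := by congr 1; ring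
      _ ≤ _ := h1
      _ = _ := by ring
  · intro u hu
    have e : deriv (fun u => Complex.exp u - u) u = Complex.exp u - 1 :=
      ((Complex.hasDerivAt_exp u).sub (hasDerivAt_id u)).deriv
    rw [e]
    have h2 : ‖u‖ ≤ ‖z‖ := by simpa using hu.2
    have h3 : |u.re| ≤ |z.re| := hu.1
    calc _ ≤ ‖u‖ * Real.exp |u.re| := norm_exp_sub_one u
      _ ≤ _ := by gcongr

/-- the dominating function -/
def dm (α b k : ℝ) : ℝ := Real.exp (b * k) * (k / Real.sinh (α * k))

lemma dm_int {α b : ℝ} (hα : 0 < α) (hb : b < α) : IntegrableOn (dm α b) (Ioi 0) := by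
  have hpi := Real.pi_pos
  set κ := 2 * α / Real.pi with hκ
  have hκ0 : 0 < κ := by positivity
  have h1 : b / κ < Real.pi / 2 := by
    rw [div_lt_iff₀ hκ0, hκ]
    calc b < α := hb
      _ = _ := by field_simp
  have h2 := dom_integrable h1
  have h3 : IntegrableOn (fun k => dom (b / κ) (κ * k)) (Ioi 0) := by
    rw [integrableOn_Ioi_comp_mul_left_iff _ _ hκ0, mul_zero]
    exact h2
  refine IntegrableOn.congr_fun (h3.const_mul κ⁻¹) (fun k _ => ?_) measurableSet_Ioi
  unfold dm dom sk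
  have e1 : Real.pi / 2 * (κ * k) = α * k := by rw [hκ]; field_simp
  have e2 : b / κ * (κ * k) = b * k := by field_simp
  rw [e1, e2]
  field_simp

lemma sinh_pos_of {α k : ℝ} (hα : 0 < α) (hk : 0 < k) : 0 < Real.sinh (α * k) :=
  Real.sinh_pos_iff.2 (mul_pos hα hk)

lemma js_meas (α : ℝ) (a : ℂ) : Measurable (js α a) := by
  unfold js
  fun_prop

lemma js2_meas (α : ℝ) (a : ℂ) : Measurable (js2 α a) := by
  unfold js2
  fun_prop

lemma js_le {α : ℝ} (hα : 0 < α) (a : ℂ) {k : ℝ} (hk : 0 < k) :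
    ‖js α a k‖ ≤ ‖a‖ * dm α |a.re| k := by
  have hs := sinh_pos_of hα hk
  have h1 := norm_exp_sub_one (a * k)
  rw [norm_mul, Complex.norm_real, Real.norm_eq_abs, abs_of_pos hk, re_mul_ofReal', abs_mul,
    abs_of_pos hk] at h1
  unfold js dm
  rw [norm_div, Complex.norm_real, Real.norm_eq_abs, abs_of_pos hs, div_le_iff₀ hs]
  calc _ ≤ _ := h1
    _ = _ := by field_simp

lemma js2_le {α : ℝ} (hα : 0 < α) (a : ℂ) {k : ℝ} (hk : 0 < k) :
    ‖js2 α a k‖ ≤ ‖a‖ ^ 2 * dm α |a.re| k := by
  have hs := sinh_pos_of hα hk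
  have h1 := norm_exp_sub_two (a * k)
  rw [norm_mul, Complex.norm_real, Real.norm_eq_abs, abs_of_pos hk, re_mul_ofReal', abs_mul,
    abs_of_pos hk] at h1
  unfold js2 dm
  rw [norm_div, Complex.norm_real, Real.norm_eq_abs, abs_of_pos (mul_pos hk hs),
    div_le_iff₀ (mul_pos hk hs)]
  calc _ ≤ _ := h1
    _ = _ := by field_simp

lemma js_neg (α : ℝ) (a : ℂ) (k : ℝ) : js α a (-k) = - js α (-a) k := by
  unfold js
  rw [mul_neg, Real.sinh_neg]
  push_cast
  rw [div_neg]
  congr 4
  ring

lemma js2_neg (α : ℝ) (a : ℂ) (k : ℝ) : js2 α a (-k) = js2 α (-a) k := by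
  unfold js2
  rw [mul_neg, Real.sinh_neg, neg_mul_neg]
  push_cast
  congr 2
  · congr 2
    ring
  · ring

/-- integrability on the line from the two half lines -/
lemma int_of_half {f : ℝ → ℂ} (h1 : IntegrableOn f (Ioi 0)) (h2 : IntegrableOn (fun k => f (-k)) (Ioi 0)) :
    Integrable f := by
  rw [← integrableOn_univ, ← Iic_union_Ioi (a := (0:ℝ))]
  refine IntegrableOn.union ?_ h1
  rw [← integrableOn_Ici_iff_integrableOn_Ioi] at h2
  have h3 : IntegrableOn (fun k => f (-k)) (Ici (-0)) := by simpa using h2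
  have := h3.comp_neg_Iic
  simpa using this

lemma js_int {α : ℝ} (hα : 0 < α) {a : ℂ} (ha : |a.re| < α) : Integrable (js α a) := by
  refine int_of_half ?_ ?_
  · refine Integrable.mono' ((dm_int hα ha).const_mul ‖a‖) (js_meas α a).aestronglyMeasurable ?_
    filter_upwards [ae_restrict_mem measurableSet_Ioi] with k hk
    exact js_le hα a hk
  · refine Integrable.mono' ((dm_int hα ha).const_mul ‖a‖)
      ((js_meas α a).comp measurable_neg).aestronglyMeasurable ?_
    filter_upwards [ae_restrict_mem measurableSet_Ioi] with k hk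
    rw [js_neg, norm_neg]
    have := js_le hα (-a) hk
    rwa [norm_neg, Complex.neg_re, abs_neg] at this

lemma js2_int {α : ℝ} (hα : 0 < α) {a : ℂ} (ha : |a.re| < α) : Integrable (js2 α a) := by
  refine int_of_half ?_ ?_
  · refine Integrable.mono' ((dm_int hα ha).const_mul (‖a‖ ^ 2)) (js2_meas α a).aestronglyMeasurable ?_
    filter_upwards [ae_restrict_mem measurableSet_Ioi] with k hk
    exact js2_le hα a hk
  · refine Integrable.mono' ((dm_int hα ha).const_mul (‖a‖ ^ 2))
      ((js2_meas α a).comp measurable_neg).aestronglyMeasurable ?_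
    filter_upwards [ae_restrict_mem measurableSet_Ioi] with k hk
    rw [js2_neg]
    have := js2_le hα (-a) hk
    rwa [norm_neg, Complex.neg_re, abs_neg] at this

/-- an integral over the line as an integral over a half line -/
lemma int_half {f : ℝ → ℂ} (hf : Integrable f) : ∫ k, f k = ∫ k in Ioi (0:ℝ), (f k + f (-k)) := by
  have h1 := intervalIntegral.integral_Iic_add_Ioi (f := f) (b := 0) hf.integrableOn hf.integrableOn
  have h2 : ∫ k in Ioi (0:ℝ), f (-k) = ∫ k in Iic (0:ℝ), f k := by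
    have := integral_comp_neg_Ioi (0:ℝ) f
    rwa [neg_zero] at this
  rw [integral_add hf.integrableOn hf.comp_neg.integrableOn, h2, ← h1]
  ring

theorem js_integral {α : ℝ} (hα : 0 < α) {a : ℂ} (ha : |a.re| < α) :
    ∫ k, js α a k = (Real.pi / α : ℝ) * Complex.tan ((Real.pi / (2 * α) : ℝ) * a) := by
  have hpi := Real.pi_pos
  set κ := 2 * α / Real.pi with hκ
  have hκ0 : 0 < κ := by positivity
  have hz : |(((κ⁻¹ : ℝ) : ℂ) * a).re| < Real.pi / 2 := by
    rw [Complex.re_ofReal_mul, abs_mul, abs_of_pos (inv_pos.2 hκ0), inv_mul_lt_iff₀ hκ0, hκ]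
    calc |a.re| < α := ha
      _ = _ := by field_simp
  have h1 := tan_eq hz
  have h2 : ∫ k in Ioi (0:ℝ), tk (((κ⁻¹ : ℝ) : ℂ) * a) (κ * k) =
      (κ⁻¹ : ℝ) • ∫ k in Ioi (κ * 0), tk (((κ⁻¹ : ℝ) : ℂ) * a) k :=
    integral_comp_mul_left_Ioi (tk (((κ⁻¹ : ℝ) : ℂ) * a)) 0 hκ0
  rw [mul_zero, h1] at h2
  rw [int_half (js_int hα ha)]
  have h3 : ∀ k ∈ Ioi (0:ℝ), js α a k + js α a (-k) = 2 * tk (((κ⁻¹ : ℝ) : ℂ) * a) (κ * k) := by
    intro k hk
    rw [js_neg]
    unfold js tk sk
    have e1 : Real.pi / 2 * (κ * k) = α * k := by rw [hκ]; field_simp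
    have e2 : ((κ⁻¹ : ℝ) : ℂ) * a * ((κ * k : ℝ) : ℂ) = a * k := by
      have : ((κ : ℝ) : ℂ) ≠ 0 := Complex.ofReal_ne_zero.2 hκ0.ne'
      push_cast
      field_simp
    rw [e1, e2, Complex.sinh, neg_mul]
    ring
  rw [setIntegral_congr_fun measurableSet_Ioi h3, integral_const_mul, h2, Complex.real_smul]
  have e3 : Real.pi / (2 * α) = κ⁻¹ := by rw [hκ]; field_simp
  have e4 : Real.pi / α = 2 * κ⁻¹ := by rw [hκ]; field_simp
  rw [e3, e4]
  push_cast
  ring

/-! ### inverse transforms -/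

/-- `(1/2π) ∫ m(k) e^{ikt} dk` -/
def ift (m : ℝ → ℂ) (t : ℝ) : ℂ := (1 / (2 * Real.pi) : ℝ) * ∫ k, m k * Complex.exp ((k * t : ℝ) * Complex.I)

lemma norm_e (x : ℝ) : ‖Complex.exp ((x : ℂ) * Complex.I)‖ = 1 := Complex.norm_exp_ofReal_mul_I x

lemma mul_e_int {m : ℝ → ℂ} (hm : Integrable m) (t : ℝ) :
    Integrable fun k : ℝ => m k * Complex.exp ((k * t : ℝ) * Complex.I) := by
  refine hm.mul_bdd (c := 1) ?_ (Eventually.of_forall fun k => (norm_e _).le)
  exact Continuous.aestronglyMeasurable (by fun_prop)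

lemma ift_add {m n : ℝ → ℂ} (hm : Integrable m) (hn : Integrable n) (t : ℝ) :
    ift (fun k => m k + n k) t = ift m t + ift n t := by
  unfold ift
  simp_rw [add_mul]
  rw [integral_add (mul_e_int hm t) (mul_e_int hn t), mul_add]

lemma ift_const (c : ℂ) (m : ℝ → ℂ) (t : ℝ) : ift (fun k => c * m k) t = c * ift m t := by
  unfold ift
  simp_rw [mul_assoc]
  rw [integral_const_mul]
  ring

lemma ift_congr {m n : ℝ → ℂ} (h : ∀ k, k ≠ 0 → m k = n k) (t : ℝ) : ift m t = ift n t := by
  unfold ift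
  congr 1
  refine integral_congr_ae ?_
  filter_upwards [ae_ne_zero] with k hk
  rw [h k hk]

/-- derivative of an inverse transform -/
theorem ift_deriv {m n : ℝ → ℂ} (hm : Integrable m) (hn : Integrable n)
    (h : ∀ k, k ≠ 0 → n k = Complex.I * k * m k) (t : ℝ) : HasDerivAt (ift m) (ift n t) t := by
  have hk := hasDerivAt_integral_of_dominated_loc_of_deriv_le (μ := volume) (s := univ)
    (F := fun t k => m k * Complex.exp ((k * t : ℝ) * Complex.I))
    (F' := fun t k => n k * Complex.exp ((k * t : ℝ) * Complex.I)) (x₀ := t)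
    (bound := fun k => ‖n k‖) univ_mem
    (Eventually.of_forall fun t => (mul_e_int hm t).aestronglyMeasurable) (mul_e_int hm t)
    (mul_e_int hn t).aestronglyMeasurable ?_ hn.norm ?_
  · exact hk.2.const_mul _
  · refine Eventually.of_forall fun k t _ => ?_
    rw [norm_mul, norm_e, mul_one]
  · filter_upwards [ae_ne_zero] with k hk0 t _
    rw [h k hk0]
    have h1 : HasDerivAt (fun t : ℝ => ((k * t : ℝ) : ℂ) * Complex.I) ((k : ℂ) * Complex.I) t := by
      have h2 : HasDerivAt (fun t : ℝ => k * t) k t := by simpa using (hasDerivAt_id t).const_mul k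
      exact h2.ofReal_comp.mul_const _
    have h3 := h1.cexp.const_mul (m k)
    convert! h3 using 1
    ring

/-- **inversion** -/
theorem ift_inv {m : ℝ → ℂ} (hm : Integrable m) (hi : Integrable (ift m)) {k : ℝ}
    (hc : ContinuousAt m k) : ∫ t, ift m t * Complex.exp (-((k * t : ℝ) * Complex.I)) = m k := by
  have hpi := Real.pi_pos
  -- `𝓕⁻ m (x) = 2π ift m (2πx)`
  have hF : ∀ x : ℝ, (FourierTransformInv.fourierInv m : ℝ → ℂ) x = (2 * Real.pi : ℝ) * ift m (2 * Real.pi * x) := by
    intro x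
    rw [Real.fourierInv_eq']
    unfold ift
    rw [← mul_assoc]
    have e1 : ((2 * Real.pi : ℝ) : ℂ) * ((1 / (2 * Real.pi) : ℝ) : ℂ) = 1 := by
      rw [← Complex.ofReal_mul]
      rw [mul_one_div_cancel (by positivity)]
      simp
    rw [e1, one_mul]
    refine integral_congr_ae (Eventually.of_forall fun k => ?_)
    simp only [RCLike.inner_apply, conj_trivial, smul_eq_mul]
    rw [mul_comm (m k)]
    congr 2
    push_cast
    ring
  have hFi : Integrable (FourierTransformInv.fourierInv m : ℝ → ℂ) := by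
    have h1 : (FourierTransformInv.fourierInv m : ℝ → ℂ) = fun x => (2 * Real.pi : ℝ) * ift m (2 * Real.pi * x) :=
      funext hF
    rw [h1]
    exact (hi.comp_mul_left' (by positivity)).const_mul _
  have hFi' : Integrable (FourierTransform.fourier m : ℝ → ℂ) := by
    refine hFi.comp_neg.congr (Eventually.of_forall fun x => ?_)
    simp only
    rw [Real.fourierInv_eq_fourier_neg, neg_neg]
  have h1 := hm.fourier_fourierInv_eq hFi' hc
  rw [Real.fourier_real_eq_integral_exp_smul] at h1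
  simp_rw [hF] at h1
  rw [← h1]
  have h2 := Measure.integral_comp_mul_left
    (fun t => ift m t * Complex.exp (-((k * t : ℝ) * Complex.I))) (2 * Real.pi)
  rw [abs_of_pos (by positivity)] at h2
  have h3 : ∫ t, ift m t * Complex.exp (-((k * t : ℝ) * Complex.I)) =
      (2 * Real.pi : ℝ) • ∫ x : ℝ, ift m (2 * Real.pi * x) *
        Complex.exp (-((k * (2 * Real.pi * x) : ℝ) * Complex.I)) := by
    rw [h2, smul_smul, mul_inv_cancel₀ (by positivity), one_smul]
  rw [h3, Complex.real_smul, ← integral_const_mul]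
  refine integral_congr_ae (Eventually.of_forall fun x => ?_)
  simp only [smul_eq_mul]
  have e2 : -(((k * (2 * Real.pi * x) : ℝ) : ℂ) * Complex.I) = ((-2 * Real.pi * x * k : ℝ) : ℂ) * Complex.I := by
    push_cast; ring
  rw [e2]
  ring

/-- **Parseval**: `∫ f ift m = (1/2π) ∫ m f^(-k)` -/
theorem parseval {f m : ℝ → ℂ} (hf : Integrable f) (hm : Integrable m) :
    ∫ t, f t * ift m t = (1 / (2 * Real.pi) : ℝ) *
      ∫ k, m k * ∫ t, f t * Complex.exp ((k * t : ℝ) * Complex.I) := by
  unfold ift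
  have h1 : Integrable (fun z : ℝ × ℝ => (f z.1 * m z.2) * Complex.exp ((z.2 * z.1 : ℝ) * Complex.I))
      (volume.prod volume) := by
    refine (hf.mul_prod hm).mul_bdd (c := 1) ?_ (Eventually.of_forall fun k => (norm_e _).le)
    exact Continuous.aestronglyMeasurable (by fun_prop)
  have h2 : ∀ t, f t * (((1 / (2 * Real.pi) : ℝ) : ℂ) * ∫ k, m k * Complex.exp ((k * t : ℝ) * Complex.I)) =
      ((1 / (2 * Real.pi) : ℝ) : ℂ) * ∫ k, (f t * m k) * Complex.exp ((k * t : ℝ) * Complex.I) := by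
    intro t
    have : ∀ k : ℝ, f t * m k * Complex.exp ((k * t : ℝ) * Complex.I) =
        f t * (m k * Complex.exp ((k * t : ℝ) * Complex.I)) := fun k => by ring
    simp_rw [this]
    rw [integral_const_mul]
    ring
  simp_rw [h2]
  rw [integral_const_mul, integral_integral_swap (f := fun (t k : ℝ) =>
    (f t * m k) * Complex.exp ((k * t : ℝ) * Complex.I)) h1]
  congr 1
  refine integral_congr_ae (Eventually.of_forall fun k => ?_)
  simp only
  rw [← integral_const_mul]
  refine integral_congr_ae (Eventually.of_forall fun t => ?_)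
  simp only
  ring

/-! ### convolution with the kernels -/

lemma V_int : Integrable fun u => (V u : ℂ) := V_integral.1.ofReal

lemma V_exp {k : ℝ} (hk : k ≠ 0) : ∫ u, (V u : ℂ) * Complex.exp (-((k * u : ℝ) * Complex.I)) = (Uh k : ℂ) := by
  have hc : Integrable fun u => V u * Real.cos (k * u) :=
    V_integral.1.mul_bdd (c := 1) (by fun_prop) (Eventually.of_forall fun t => by
      rw [Real.norm_eq_abs]; exact Real.abs_cos_le_one _)
  have hs : Integrable fun u => V u * Real.sin (k * u) :=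
    V_integral.1.mul_bdd (c := 1) (by fun_prop) (Eventually.of_forall fun t => by
      rw [Real.norm_eq_abs]; exact Real.abs_sin_le_one _)
  have hs0 : ∫ u, V u * Real.sin (k * u) = 0 := by
    refine NUE.int_odd fun t => ?_
    rw [NUE.V_even, mul_neg, Real.sin_neg, mul_neg]
  have e : ∀ u : ℝ, (V u : ℂ) * Complex.exp (-((k * u : ℝ) * Complex.I)) =
      ((V u * Real.cos (k * u) : ℝ) : ℂ) - Complex.I * ((V u * Real.sin (k * u) : ℝ) : ℂ) := by
    intro u
    rw [← neg_mul, Complex.exp_mul_I, Complex.cos_neg, Complex.sin_neg]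
    push_cast
    ring
  simp_rw [e]
  rw [integral_sub hc.ofReal (hs.ofReal.const_mul _), integral_const_mul, integral_complex_ofReal,
    integral_complex_ofReal, hs0, NUE.V_hf k hk]
  simp

/-- **convolution of an inverse transform with `V`** -/
theorem conv_V {m : ℝ → ℂ} (hm : Integrable m) (t : ℝ) :
    ∫ s, ift m s * (V (t - s) : ℂ) = ift (fun k => m k * (Uh k : ℂ)) t := by
  have hVt : Integrable fun s => (V (t - s) : ℂ) := (V_integral.1.comp_sub_left t).ofReal
  have h0 : ∀ s, ift m s * (V (t - s) : ℂ) = (V (t - s) : ℂ) * ift m s := fun s => mul_comm _ _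
  simp_rw [h0]
  rw [parseval hVt hm]
  unfold ift
  congr 1
  refine integral_congr_ae ?_
  filter_upwards [ae_ne_zero] with k hk
  have h1 : ∫ s, (V (t - s) : ℂ) * Complex.exp ((k * s : ℝ) * Complex.I) =
      ∫ u, (V u : ℂ) * Complex.exp ((k * (t - u) : ℝ) * Complex.I) := by
    rw [← integral_sub_left_eq_self (fun u => (V u : ℂ) * Complex.exp ((k * (t - u) : ℝ) * Complex.I)) volume t]
    refine integral_congr_ae (Eventually.of_forall fun s => ?_)
    simp only [sub_sub_cancel]
  have h2 : ∀ u : ℝ, (V u : ℂ) * Complex.exp ((k * (t - u) : ℝ) * Complex.I) =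
      Complex.exp ((k * t : ℝ) * Complex.I) * ((V u : ℂ) * Complex.exp (-((k * u : ℝ) * Complex.I))) := by
    intro u
    have : (((k * (t - u) : ℝ) : ℂ)) * Complex.I = ((k * t : ℝ) : ℂ) * Complex.I + -((k * u : ℝ) * Complex.I) := by
      push_cast; ring
    rw [this, Complex.exp_add]
    ring
  rw [h1]
  simp_rw [h2]
  rw [integral_const_mul, V_exp hk]
  ring

/-- `sinh 2u / (cosh 2u + cos 2a) = ∫ cosh (ak) sin (uk) / sinh (πk/2)` -/
lemma kern_fourier {a : ℝ} (ha : |a| < Real.pi / 2) (u : ℝ) :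
    Real.sinh (2 * u) / (Real.cosh (2 * u) + Real.cos (2 * a)) =
      ∫ k in Ioi (0:ℝ), Real.cosh (a * k) * Real.sin (u * k) / sk k := by
  have hz : |((a : ℂ) + u * Complex.I).re| < Real.pi / 2 := by simpa using ha
  have h1 := tan_eq hz
  have h2 := tk_integrable hz
  have h3 : ∫ k in Ioi (0:ℝ), (tk ((a : ℂ) + u * Complex.I) k).im = (Complex.tan ((a : ℂ) + u * Complex.I)).im := by
    rw [← h1]
    have := integral_im h2
    simpa using this
  have h4 : ∀ k : ℝ, (tk ((a : ℂ) + u * Complex.I) k).im = Real.cosh (a * k) * Real.sin (u * k) / sk k := by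
    intro k
    unfold tk
    rw [Complex.div_ofReal_im]
    congr 1
    have : ((a : ℂ) + u * Complex.I) * k = ((a * k : ℝ) : ℂ) + ((u * k : ℝ) : ℂ) * Complex.I := by push_cast; ring
    rw [this, Complex.sinh_add, Complex.sinh_mul_I, Complex.cosh_mul_I, ← Complex.ofReal_sinh,
      ← Complex.ofReal_cosh, ← Complex.ofReal_cos, ← Complex.ofReal_sin, ← Complex.ofReal_mul,
      ← mul_assoc, ← Complex.ofReal_mul]
    simp only [Complex.add_im, Complex.ofReal_im, Complex.mul_im, Complex.ofReal_re, Complex.I_im, Complex.I_re]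
    ring
  simp_rw [h4] at h3
  rw [h3]
  have hv : ((a : ℂ) + u * Complex.I) = ((a : ℝ) : ℂ) + ((u : ℝ) : ℂ) * Complex.I := rfl
  have hs : Complex.sin ((a : ℂ) + u * Complex.I) = ((Real.sin a * Real.cosh u : ℝ) : ℂ) +
      ((Real.cos a * Real.sinh u : ℝ) : ℂ) * Complex.I := by
    rw [Complex.sin_add, Complex.cos_mul_I, Complex.sin_mul_I]
    push_cast
    ring
  have hc : Complex.cos ((a : ℂ) + u * Complex.I) = ((Real.cos a * Real.cosh u : ℝ) : ℂ) +
      ((-(Real.sin a * Real.sinh u) : ℝ) : ℂ) * Complex.I := by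
    rw [Complex.cos_add, Complex.cos_mul_I, Complex.sin_mul_I]
    push_cast
    ring
  have hca : 0 < Real.cos a := Real.cos_pos_of_mem_Ioo ⟨by linarith [(abs_lt.1 ha).1], (abs_lt.1 ha).2⟩
  have e1 : Complex.tan ((a : ℂ) + u * Complex.I) = Complex.sin ((a : ℂ) + u * Complex.I) /
      Complex.cos ((a : ℂ) + u * Complex.I) := rfl
  rw [e1, hs, hc, Complex.div_im]
  simp only [Complex.add_re, Complex.add_im, Complex.mul_re, Complex.mul_im, Complex.ofReal_re,
    Complex.ofReal_im, Complex.I_re, Complex.I_im, Complex.normSq_apply]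
  have hsh := Real.cosh_sq u
  have hsc := Real.sin_sq_add_cos_sq a
  have hd : 0 < Real.sinh u ^ 2 + Real.cos a ^ 2 := by positivity
  rw [Real.sinh_two_mul, Real.cosh_two_mul, Real.cos_two_mul]
  have d1 : Real.cosh u ^ 2 + Real.sinh u ^ 2 + (2 * Real.cos a ^ 2 - 1) =
      2 * (Real.sinh u ^ 2 + Real.cos a ^ 2) := by rw [hsh]; ring
  have d2 : (Real.cos a * Real.cosh u) ^ 2 + (Real.sin a * Real.sinh u) ^ 2 =
      Real.sinh u ^ 2 + Real.cos a ^ 2 := by
    have : Real.sin a ^ 2 = 1 - Real.cos a ^ 2 := by linarith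
    rw [mul_pow, mul_pow, hsh, this]
    ring
  rw [d1]
  have d3 : (Real.cos a * Real.cosh u + (-(Real.sin a * Real.sinh u) * 0 - 0 * 1)) *
        (Real.cos a * Real.cosh u + (-(Real.sin a * Real.sinh u) * 0 - 0 * 1)) +
      (0 + (-(Real.sin a * Real.sinh u) * 1 + 0 * 0)) * (0 + (-(Real.sin a * Real.sinh u) * 1 + 0 * 0)) =
      Real.sinh u ^ 2 + Real.cos a ^ 2 := by
    rw [← d2]; ring
  rw [d3]
  rw [div_sub_div_same, div_eq_div_iff (by positivity) hd.ne']
  have : Real.sin a ^ 2 = 1 - Real.cos a ^ 2 := by linarith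
  linear_combination (-(2 * Real.cosh u * Real.sinh u * (Real.sinh u ^ 2 + Real.cos a ^ 2))) * this

lemma kLh_eq (k : ℝ) (hk : k ≠ 0) : k * Lh k = 2 * Real.pi * ((2 * Real.cosh (l * k) - 1) / sk k) := by
  have hs : sk k ≠ 0 := by
    unfold sk
    rw [Ne, Real.sinh_eq_zero]
    have := Real.pi_pos
    positivity
  unfold Lh ck1
  field_simp

lemma kern_int {a : ℝ} (ha : |a| < Real.pi / 2) (u : ℝ) :
    IntegrableOn (fun k => Real.cosh (a * k) * Real.sin (u * k) / sk k) (Ioi 0) := by
  have h1 := (dom_integrable ha).const_mul |u|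
  refine Integrable.mono' h1 ?_ ?_
  · have := sk_meas
    exact Measurable.aestronglyMeasurable (by fun_prop)
  · filter_upwards [ae_restrict_mem measurableSet_Ioi] with k hk'
    have hk : 0 < k := hk'
    have hs := sk_pos hk
    rw [Real.norm_eq_abs, abs_div, abs_of_pos hs, abs_mul, abs_of_pos (Real.cosh_pos _)]
    have h2 : Real.cosh (a * k) ≤ Real.exp (|a| * k) := cosh_le_exp (by
      rw [abs_mul, abs_of_pos hk])
    have h3 : |Real.sin (u * k)| ≤ |u| * k := by
      refine (Real.abs_sin_le_abs).trans ?_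
      rw [abs_mul, abs_of_pos hk]
    unfold dom
    rw [div_le_iff₀ hs]
    calc Real.cosh (a * k) * |Real.sin (u * k)| ≤ Real.exp (|a| * k) * (|u| * k) := by
          gcongr
      _ = _ := by field_simp

/-- Fourier form of `(log g)'` -/
lemma Kg_fourier (u : ℝ) : Pool.Agent.PB.Kg u = -(1 / Real.pi) *
    ∫ k in Ioi (0:ℝ), k * Lh k * Real.sin (u * k) := by
  have hpi := Real.pi_pos
  have hl : |l| < Real.pi / 2 := by
    rw [abs_of_pos l_pos]; unfold l; linarith
  have h0 : |(0:ℝ)| < Real.pi / 2 := by rw [abs_zero]; linarith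
  have e0 := kern_fourier h0 u
  have e1 := kern_fourier hl u
  rw [mul_zero, Real.cos_zero] at e0
  have hr : Real.cos (2 * l) = r := by
    unfold l r
    rw [show 2 * (Real.pi / 8) = Real.pi / 4 by ring, Real.cos_pi_div_four]
  rw [hr] at e1
  have i0 := kern_int h0 u
  have i1 := kern_int hl u
  have h1 : ∫ k in Ioi (0:ℝ), k * Lh k * Real.sin (u * k) =
      ∫ k in Ioi (0:ℝ), (4 * Real.pi * (Real.cosh (l * k) * Real.sin (u * k) / sk k) -
        2 * Real.pi * (Real.cosh (0 * k) * Real.sin (u * k) / sk k)) := by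
    refine setIntegral_congr_fun measurableSet_Ioi fun k hk => ?_
    rw [kLh_eq k (ne_of_gt hk), zero_mul, Real.cosh_zero]
    ring
  rw [h1, integral_sub (i1.const_mul _) (i0.const_mul _), integral_const_mul, integral_const_mul, ← e0, ← e1]
  unfold Pool.Agent.PB.Kg
  field_simp
  ring

lemma kLh_le {k : ℝ} (hk : 0 < k) : |k * Lh k| * k ≤ 4 * Real.pi * dom l k := by
  have hpi := Real.pi_pos
  have hs := sk_pos hk
  have h1 : 1 ≤ Real.cosh (l * k) := Real.one_le_cosh _
  have h2 : Real.cosh (l * k) ≤ Real.exp (l * k) := cosh_le_exp (by rw [abs_of_pos (mul_pos l_pos hk)])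
  rw [kLh_eq k hk.ne', abs_of_nonneg (by
    have : 0 ≤ 2 * Real.cosh (l * k) - 1 := by linarith
    positivity)]
  unfold dom
  calc 2 * Real.pi * ((2 * Real.cosh (l * k) - 1) / sk k) * k ≤
      2 * Real.pi * ((2 * Real.exp (l * k)) / sk k) * k := by gcongr; linarith
    _ = _ := by ring

/-- **convolution with the bounded kernel `(log g)'`** -/
theorem conv_Kg {f m : ℝ → ℂ} (hf : Integrable f) (hf1 : Integrable fun s => (|s| : ℝ) * f s)
    (hfm : ∀ k, k ≠ 0 → ∫ s, f s * Complex.exp (-((k * s : ℝ) * Complex.I)) = m k)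
    (hL : Integrable fun k => ((k * Lh k : ℝ) : ℂ) * m k) (t : ℝ) :
    ∫ s, f s * (Pool.Agent.PB.Kg (t - s) : ℂ) =
      ift (fun k => Complex.I * (((k * Lh k : ℝ) : ℂ) * m k)) t := by
  have hpi := Real.pi_pos
  set μ := (volume : Measure ℝ).restrict (Ioi 0) with hμ
  have hl : l < Real.pi / 2 := by unfold l; linarith
  -- Fubini
  have hmaj : Integrable (fun z : ℝ × ℝ => ((|t| + |z.1|) * ‖f z.1‖) * (4 * Real.pi * dom l z.2))
      (volume.prod μ) := by
    have h1 : Integrable fun s => (|t| + |s|) * ‖f s‖ := by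
      have h2 := (hf.norm.const_mul |t|).add hf1.norm
      refine h2.congr (Eventually.of_forall fun s => ?_)
      simp only [Pi.add_apply, norm_mul, Complex.norm_real, Real.norm_eq_abs, abs_abs]
      ring
    exact h1.mul_prod ((dom_integrable hl).const_mul (4 * Real.pi))
  have hLm : Measurable fun k : ℝ => k * Lh k := by
    have h1 := sk_meas
    unfold Lh ck1
    fun_prop
  have hF : Integrable (Function.uncurry fun (s k : ℝ) => f s * ((k * Lh k * Real.sin ((t - s) * k) : ℝ) : ℂ))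
      (volume.prod μ) := by
    refine Integrable.mono' hmaj ?_ ?_
    · refine AEStronglyMeasurable.mul (hf.aestronglyMeasurable.comp_fst) ?_
      refine Measurable.aestronglyMeasurable ?_
      exact Complex.measurable_ofReal.comp ((hLm.comp measurable_snd).mul
        (Real.measurable_sin.comp ((measurable_const.sub measurable_fst).mul measurable_snd)))
    · have h1 : ∀ᵐ z ∂((volume : Measure ℝ).prod μ), 0 < z.2 := by
        have h3 : ∀ᵐ k ∂μ, 0 < k := ae_restrict_mem measurableSet_Ioi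
        exact (Measure.quasiMeasurePreserving_snd.ae h3)
      filter_upwards [h1] with z hz
      simp only [Function.uncurry]
      rw [norm_mul, Complex.norm_real, Real.norm_eq_abs, abs_mul]
      have h2 : |Real.sin ((t - z.1) * z.2)| ≤ (|t| + |z.1|) * z.2 := by
        refine Real.abs_sin_le_abs.trans ?_
        rw [abs_mul, abs_of_pos hz]
        gcongr
        exact abs_sub _ _
      have h3 := kLh_le hz
      calc ‖f z.1‖ * (|z.2 * Lh z.2| * |Real.sin ((t - z.1) * z.2)|) ≤
          ‖f z.1‖ * (|z.2 * Lh z.2| * ((|t| + |z.1|) * z.2)) := by gcongr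
        _ = ((|t| + |z.1|) * ‖f z.1‖) * (|z.2 * Lh z.2| * z.2) := by ring
        _ ≤ _ := by gcongr
  have h1 : ∀ s, f s * (Pool.Agent.PB.Kg (t - s) : ℂ) = -(1 / Real.pi : ℝ) *
      ∫ k, f s * ((k * Lh k * Real.sin ((t - s) * k) : ℝ) : ℂ) ∂μ := by
    intro s
    rw [Kg_fourier, integral_const_mul, integral_complex_ofReal]
    push_cast
    ring
  simp_rw [h1]
  rw [integral_const_mul, integral_integral_swap hF]
  -- the inner integral
  have h2 : ∀ k ∈ Ioi (0:ℝ), ∫ s, f s * ((k * Lh k * Real.sin ((t - s) * k) : ℝ) : ℂ) =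
      ((k * Lh k : ℝ) : ℂ) * (1 / (2 * Complex.I)) *
        (Complex.exp ((k * t : ℝ) * Complex.I) * m k - Complex.exp (-((k * t : ℝ) * Complex.I)) * m (-k)) := by
    intro k hk
    have hk0 : k ≠ 0 := ne_of_gt hk
    have j1 : Integrable fun s => f s * Complex.exp (-((k * s : ℝ) * Complex.I)) := by
      refine hf.mul_bdd (c := 1) (Continuous.aestronglyMeasurable (by fun_prop)) (Eventually.of_forall fun s => ?_)
      rw [← neg_mul, ← Complex.ofReal_neg, norm_e]
    have j2 : Integrable fun s => f s * Complex.exp (-((-k * s : ℝ) * Complex.I)) := by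
      refine hf.mul_bdd (c := 1) (Continuous.aestronglyMeasurable (by fun_prop)) (Eventually.of_forall fun s => ?_)
      rw [← neg_mul, ← Complex.ofReal_neg, norm_e]
    have h3 : ∀ s, f s * ((k * Lh k * Real.sin ((t - s) * k) : ℝ) : ℂ) =
        ((k * Lh k : ℝ) : ℂ) * (1 / (2 * Complex.I)) *
          (Complex.exp ((k * t : ℝ) * Complex.I) * (f s * Complex.exp (-((k * s : ℝ) * Complex.I))) -
            Complex.exp (-((k * t : ℝ) * Complex.I)) * (f s * Complex.exp (-((-k * s : ℝ) * Complex.I)))) := by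
      intro s
      have e1 : ((Real.sin ((t - s) * k) : ℝ) : ℂ) = (1 / (2 * Complex.I)) *
          (Complex.exp ((k * t : ℝ) * Complex.I) * Complex.exp (-((k * s : ℝ) * Complex.I)) -
            Complex.exp (-((k * t : ℝ) * Complex.I)) * Complex.exp (-((-k * s : ℝ) * Complex.I))) := by
        rw [← Complex.exp_add, ← Complex.exp_add, Complex.ofReal_sin, Complex.sin]
        have a1 : ((k * t : ℝ) : ℂ) * Complex.I + -((k * s : ℝ) * Complex.I) =
            (((t - s) * k : ℝ) : ℂ) * Complex.I := by push_cast; ring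
        have a2 : -(((k * t : ℝ) : ℂ) * Complex.I) + -((-k * s : ℝ) * Complex.I) =
            -(((t - s) * k : ℝ) : ℂ) * Complex.I := by push_cast; ring
        rw [a1, a2]
        generalize Complex.exp (-(((t - s) * k : ℝ) : ℂ) * Complex.I) = x
        generalize Complex.exp ((((t - s) * k : ℝ) : ℂ) * Complex.I) = y
        have : (Complex.I : ℂ) ≠ 0 := Complex.I_ne_zero
        field_simp
        linear_combination (x - y) * Complex.I_sq
      have e2 : ((k * Lh k * Real.sin ((t - s) * k) : ℝ) : ℂ) = ((k * Lh k : ℝ) : ℂ) *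
          ((Real.sin ((t - s) * k) : ℝ) : ℂ) := by push_cast; ring
      rw [e2, e1]
      ring
    simp_rw [h3]
    rw [integral_const_mul, integral_sub (j1.const_mul _) (j2.const_mul _), integral_const_mul,
      integral_const_mul, hfm k hk0, hfm (-k) (neg_ne_zero.2 hk0)]
  rw [setIntegral_congr_fun measurableSet_Ioi h2]
  unfold ift
  rw [int_half (mul_e_int (hL.const_mul _) t), ← integral_const_mul, ← integral_const_mul]
  refine setIntegral_congr_fun measurableSet_Ioi fun k hk => ?_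
  have e3 : Lh (-k) = Lh k := Lh_neg k
  rw [e3]
  have e4 : ((-k * t : ℝ) : ℂ) * Complex.I = -(((k * t : ℝ) : ℂ) * Complex.I) := by push_cast; ring
  rw [e4]
  have hI : (Complex.I : ℂ) ≠ 0 := Complex.I_ne_zero
  have hp : (Real.pi : ℂ) ≠ 0 := Complex.ofReal_ne_zero.2 Real.pi_ne_zero
  push_cast
  field_simp
  ring_nf
  simp only [Complex.I_sq]
  ring

end

end PBT3
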