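import Pool.Agent.PB.TrG1

/-!
# Transfer, Gaussian part (2): finite exponential sums over `sinh`

`es α c a k = (∑ c_j e^{a_j k}) / sinh (αk)`, `es2 α c a k = (∑ c_j e^{a_j k}) / (k sinh (αk))`:
* `ift (es α c a) t = (1/2α) ∑ c_j tan (κ (a_j + it))`, `κ = π/(2α)`, if `∑ c = 0`;
* `ift (-i es2 α c a) t = (i/π) ∑ c_j log cos (κ (a_j + it))` if `∑ c = ∑ c a = 0`.
-/

set_option autoImplicit false

open MeasureTheory Set Filter Topology

namespace PBT3

open NUMF

noncomputable section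

variable {ι : Type*} [Fintype ι]

/-- `(∑ c_j e^{a_j k}) / sinh (αk)` -/
def es (α : ℝ) (c a : ι → ℂ) (k : ℝ) : ℂ := (∑ j, c j * Complex.exp (a j * k)) / (Real.sinh (α * k) : ℂ)

/-- `(∑ c_j e^{a_j k}) / (k sinh (αk))` -/
def es2 (α : ℝ) (c a : ι → ℂ) (k : ℝ) : ℂ :=
  (∑ j, c j * Complex.exp (a j * k)) / ((k * Real.sinh (α * k) : ℝ) : ℂ)

variable {α : ℝ} {c a : ι → ℂ}

lemma es_eq (h0 : ∑ j, c j = 0) (k : ℝ) : es α c a k = ∑ j, c j * js α (a j) k := by
  unfold es js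
  have h1 : ∑ j, c j * ((Complex.exp (a j * k) - 1) / (Real.sinh (α * k) : ℂ)) =
      (∑ j, c j * Complex.exp (a j * k) - ∑ j, c j) / (Real.sinh (α * k) : ℂ) := by
    rw [← Finset.sum_sub_distrib, Finset.sum_div]
    refine Finset.sum_congr rfl fun j _ => ?_
    ring
  rw [h1, h0, sub_zero]

lemma es2_eq (h0 : ∑ j, c j = 0) (h1 : ∑ j, c j * a j = 0) (k : ℝ) :
    es2 α c a k = ∑ j, c j * js2 α (a j) k := by
  unfold es2 js2
  have h2 : ∑ j, c j * ((Complex.exp (a j * k) - 1 - a j * k) / ((k * Real.sinh (α * k) : ℝ) : ℂ)) =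
      (∑ j, c j * Complex.exp (a j * k) - ∑ j, c j - (∑ j, c j * a j) * k) /
        ((k * Real.sinh (α * k) : ℝ) : ℂ) := by
    rw [Finset.sum_mul, ← Finset.sum_sub_distrib, ← Finset.sum_sub_distrib, Finset.sum_div]
    refine Finset.sum_congr rfl fun j _ => ?_
    ring
  rw [h2, h0, h1, sub_zero, zero_mul, sub_zero]

lemma es_int (hα : 0 < α) (h0 : ∑ j, c j = 0) (ha : ∀ j, |(a j).re| < α) : Integrable (es α c a) := by
  have h1 : es α c a = fun k => ∑ j, c j * js α (a j) k := funext (es_eq h0)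
  rw [h1]
  exact integrable_finsetSum _ fun j _ => (js_int hα (ha j)).const_mul _

lemma es2_int (hα : 0 < α) (h0 : ∑ j, c j = 0) (h1 : ∑ j, c j * a j = 0) (ha : ∀ j, |(a j).re| < α) :
    Integrable (es2 α c a) := by
  have h2 : es2 α c a = fun k => ∑ j, c j * js2 α (a j) k := funext (es2_eq h0 h1)
  rw [h2]
  exact integrable_finsetSum _ fun j _ => (js2_int hα (ha j)).const_mul _

lemma exp_shift (x : ℂ) (k t : ℝ) : Complex.exp (x * k) * Complex.exp ((k * t : ℝ) * Complex.I) =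
    Complex.exp ((x + Complex.I * t) * k) := by
  rw [← Complex.exp_add]
  congr 1
  push_cast
  ring

lemma es_shift (k t : ℝ) : es α c a k * Complex.exp ((k * t : ℝ) * Complex.I) =
    es α c (fun j => a j + Complex.I * t) k := by
  unfold es
  rw [div_mul_eq_mul_div, Finset.sum_mul]
  congr 1
  refine Finset.sum_congr rfl fun j _ => ?_
  rw [mul_assoc, exp_shift]

lemma es2_shift (k t : ℝ) : es2 α c a k * Complex.exp ((k * t : ℝ) * Complex.I) =
    es2 α c (fun j => a j + Complex.I * t) k := by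
  unfold es2
  rw [div_mul_eq_mul_div, Finset.sum_mul]
  congr 1
  refine Finset.sum_congr rfl fun j _ => ?_
  rw [mul_assoc, exp_shift]

lemma re_shift (x : ℂ) (t : ℝ) : (x + Complex.I * t).re = x.re := by simp

theorem es_integral (hα : 0 < α) (h0 : ∑ j, c j = 0) (ha : ∀ j, |(a j).re| < α) :
    ∫ k, es α c a k = (Real.pi / α : ℝ) * ∑ j, c j * Complex.tan ((Real.pi / (2 * α) : ℝ) * a j) := by
  simp_rw [es_eq h0]
  rw [integral_finsetSum _ fun j _ => (js_int hα (ha j)).const_mul _, Finset.mul_sum]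
  refine Finset.sum_congr rfl fun j _ => ?_
  rw [integral_const_mul, js_integral hα (ha j)]
  ring

/-- **inverse transform of `es`** -/
theorem ift_es (hα : 0 < α) (h0 : ∑ j, c j = 0) (ha : ∀ j, |(a j).re| < α) (t : ℝ) :
    ift (es α c a) t = (1 / (2 * α) : ℝ) *
      ∑ j, c j * Complex.tan ((Real.pi / (2 * α) : ℝ) * (a j + Complex.I * t)) := by
  unfold ift
  simp_rw [es_shift]
  rw [es_integral hα h0 (fun j => by rw [re_shift]; exact ha j), ← mul_assoc, ← Complex.ofReal_mul]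
  congr 2
  have := Real.pi_pos
  field_simp

theorem js2_integral (hα : 0 < α) {a : ℂ} (ha : |a.re| < α) :
    ∫ k, js2 α a k = -2 * Complex.log (Complex.cos ((Real.pi / (2 * α) : ℝ) * a)) := by
  have hpi := Real.pi_pos
  set κ := 2 * α / Real.pi with hκ
  have hκ0 : 0 < κ := by positivity
  have hz : |(((κ⁻¹ : ℝ) : ℂ) * a).re| < Real.pi / 2 := by
    rw [Complex.re_ofReal_mul, abs_mul, abs_of_pos (inv_pos.2 hκ0), inv_mul_lt_iff₀ hκ0, hκ]
    calc |a.re| < α := ha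
      _ = _ := by field_simp
  have h1 := neg_log_cos hz
  have h2 : ∫ k in Ioi (0:ℝ), ck (((κ⁻¹ : ℝ) : ℂ) * a) (κ * k) =
      (κ⁻¹ : ℝ) • ∫ k in Ioi (κ * 0), ck (((κ⁻¹ : ℝ) : ℂ) * a) k :=
    integral_comp_mul_left_Ioi (ck (((κ⁻¹ : ℝ) : ℂ) * a)) 0 hκ0
  rw [mul_zero, h1] at h2
  rw [int_half (js2_int hα ha)]
  have h3 : ∀ k ∈ Ioi (0:ℝ), js2 α a k + js2 α a (-k) = 2 * κ * ck (((κ⁻¹ : ℝ) : ℂ) * a) (κ * k) := by
    intro k hk
    have hk0 : (k : ℂ) ≠ 0 := Complex.ofReal_ne_zero.2 (ne_of_gt hk)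
    have hs : ((Real.sinh (α * k) : ℝ) : ℂ) ≠ 0 := Complex.ofReal_ne_zero.2 (sinh_pos_of hα hk).ne'
    have hκc : ((κ : ℝ) : ℂ) ≠ 0 := Complex.ofReal_ne_zero.2 hκ0.ne'
    rw [js2_neg]
    unfold js2 ck sk
    have e1 : Real.pi / 2 * (κ * k) = α * k := by rw [hκ]; field_simp
    have e2 : ((κ⁻¹ : ℝ) : ℂ) * a * ((κ * k : ℝ) : ℂ) = a * k := by
      push_cast
      field_simp
    rw [e1, e2, Complex.cosh, neg_mul]
    push_cast at hs ⊢
    field_simp
    ring
  rw [setIntegral_congr_fun measurableSet_Ioi h3, integral_const_mul, h2, Complex.real_smul]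
  have e3 : Real.pi / (2 * α) = κ⁻¹ := by rw [hκ]; field_simp
  have hκc : ((κ : ℝ) : ℂ) ≠ 0 := Complex.ofReal_ne_zero.2 hκ0.ne'
  rw [e3]
  push_cast
  field_simp

/-- **inverse transform of `-i es2`** -/
theorem ift_es2 (hα : 0 < α) (h0 : ∑ j, c j = 0) (h1 : ∑ j, c j * a j = 0) (ha : ∀ j, |(a j).re| < α)
    (t : ℝ) : ift (fun k => -Complex.I * es2 α c a k) t = (Complex.I / Real.pi) *
      ∑ j, c j * Complex.log (Complex.cos ((Real.pi / (2 * α) : ℝ) * (a j + Complex.I * t))) := by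
  rw [ift_const]
  unfold ift
  simp_rw [es2_shift]
  have g1 : ∑ j, c j * (a j + Complex.I * t) = 0 := by
    simp_rw [mul_add]
    rw [Finset.sum_add_distrib, h1, ← Finset.sum_mul, h0]
    ring
  simp_rw [es2_eq h0 g1]
  rw [integral_finsetSum _ fun j _ => (js2_int hα (by rw [re_shift]; exact ha j)).const_mul _]
  have h3 : ∀ j, ∫ k, c j * js2 α (a j + Complex.I * t) k = -2 * (c j *
      Complex.log (Complex.cos ((Real.pi / (2 * α) : ℝ) * (a j + Complex.I * t)))) := by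
    intro j
    rw [integral_const_mul, js2_integral hα (by rw [re_shift]; exact ha j)]
    ring
  simp_rw [h3]
  rw [← Finset.mul_sum]
  have hp : (Real.pi : ℂ) ≠ 0 := Complex.ofReal_ne_zero.2 Real.pi_ne_zero
  push_cast
  field_simp

/-- `ift (-i es2)` is a primitive of `ift es` -/
theorem es2_deriv (hα : 0 < α) (h0 : ∑ j, c j = 0) (h1 : ∑ j, c j * a j = 0)
    (ha : ∀ j, |(a j).re| < α) (t : ℝ) :
    HasDerivAt (ift fun k => -Complex.I * es2 α c a k) (ift (es α c a) t) t := by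
  refine ift_deriv ((es2_int hα h0 h1 ha).const_mul _) (es_int hα h0 ha) (fun k hk => ?_) t
  have hk0 : (k : ℂ) ≠ 0 := Complex.ofReal_ne_zero.2 hk
  unfold es es2
  set S := ∑ j, c j * Complex.exp (a j * k)
  have e : Complex.I * k * (-Complex.I * (S / ((k * Real.sinh (α * k) : ℝ) : ℂ))) =
      S / (Real.sinh (α * k) : ℂ) := by
    rcases eq_or_ne ((Real.sinh (α * k) : ℝ) : ℂ) 0 with h | h
    · have h' : Real.sinh (α * k) = 0 := Complex.ofReal_eq_zero.1 h
      rw [h']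
      simp
    · rw [Complex.ofReal_mul]
      field_simp
      linear_combination (-S) * Complex.I_sq
  rw [e]

end

end PBT3
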