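import Pool.Agent.PB.TrG3
import Pool.Agent.PB.TrGB

/-!
# Transfer, Gaussian part (4): the fields solve the equations of the half quanta

`β₊' = bP'`, `β₋' = bM'`, primitives `bP`, `bM` (rows `0`, ends `0`):
* `convP`: `(- V * β₊')' = Δ₊'`, and `- V * β₊' → 0` at both ends;
* `convM`: `(- V * β₋' - 2 Kg * β₋)' = Δ₋'`.
-/

set_option autoImplicit false

open MeasureTheory Set Filter Topology

namespace PBT3

open NUMF

noncomputable section

variable {w w' : ℂ}

/-- `β₊'` -/
def bP' (w w' : ℂ) (t : ℝ) : ℂ := ift (es (3 * l) cP (aP w w')) t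

/-- `β₋'` -/
def bM' (w w' : ℂ) (t : ℝ) : ℂ := ift (es (3 * l) cM (aM w w')) t

/-- `β₊` -/
def bP (w w' : ℂ) (t : ℝ) : ℂ := ift (fun k => -Complex.I * es2 (3 * l) cP (aP w w') k) t

/-- `β₋` -/
def bM (w w' : ℂ) (t : ℝ) : ℂ := ift (fun k => -Complex.I * es2 (3 * l) cM (aM w w') k) t

lemma l3_pos : 0 < 3 * l := by have := l_pos; linarith

lemma bP_deriv (h : Geo w w') (t : ℝ) : HasDerivAt (bP w w') (bP' w w' t) t :=
  es2_deriv l3_pos cP_sum (cP_sum1 w w') (aP_re h) t

lemma bM_deriv (h : Geo w w') (t : ℝ) : HasDerivAt (bM w w') (bM' w w' t) t :=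
  es2_deriv l3_pos cM_sum (cM_sum1 w w') (aM_re h) t

lemma Uh_abs (k : ℝ) (hk : k ≠ 0) : ‖(Uh k : ℂ)‖ ≤ ∫ u, |V u| := by
  rw [← V_exp hk]
  refine norm_integral_le_of_norm_le V_integral.1.abs (Eventually.of_forall fun u => ?_)
  rw [norm_mul, ← neg_mul, ← Complex.ofReal_neg, norm_e, mul_one, Complex.norm_real, Real.norm_eq_abs]

lemma Uh_meas : Measurable Uh := by
  have := sk_meas
  unfold Uh ck1
  fun_prop

lemma mul_Uh_int {m : ℝ → ℂ} (hm : Integrable m) : Integrable fun k => m k * (Uh k : ℂ) := by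
  refine hm.mul_bdd (c := ∫ u, |V u|) (Complex.measurable_ofReal.comp Uh_meas).aestronglyMeasurable ?_
  filter_upwards [ae_ne_zero] with k hk
  exact Uh_abs k hk

lemma abs_lt4 {x : ℝ} (h1 : -(4 * l) < x) (h2 : x < 4 * l) : |x| < Real.pi / 2 := by
  rw [← four_l]
  exact abs_lt.2 ⟨h1, h2⟩

lemma re_nl (n : ℝ) (v : ℂ) : ((n : ℂ) * l - v).re = n * l - v.re := by simp

/-- integrable with inverse transform `v` at `t` -/
def IF (m : ℝ → ℂ) (t : ℝ) (v : ℂ) : Prop := Integrable m ∧ ift m t = v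

lemma IF.add {m n : ℝ → ℂ} {t : ℝ} {u v : ℂ} (h1 : IF m t u) (h2 : IF n t v) :
    IF (fun k => m k + n k) t (u + v) := ⟨h1.1.add h2.1, by rw [ift_add h1.1 h2.1, h1.2, h2.2]⟩

lemma IF.sub {m n : ℝ → ℂ} {t : ℝ} {u v : ℂ} (h1 : IF m t u) (h2 : IF n t v) :
    IF (fun k => m k - n k) t (u - v) := ⟨h1.1.sub h2.1, by rw [ift_sub h1.1 h2.1, h1.2, h2.2]⟩

lemma IF.const {m : ℝ → ℂ} {t : ℝ} {u : ℂ} (c : ℂ) (h1 : IF m t u) :
    IF (fun k => c * m k) t (c * u) := ⟨h1.1.const_mul c, by rw [ift_const, h1.2]⟩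

lemma IF.neg {m : ℝ → ℂ} {t : ℝ} {u : ℂ} (h1 : IF m t u) :
    IF (fun k => -m k) t (-u) := ⟨h1.1.neg, by rw [ift_neg, h1.2]⟩

lemma IF_pr {a b : ℂ} (ha : |a.re| < 4 * l) (hb : |b.re| < 4 * l) (t : ℝ) :
    IF (pr a b) t (ift (pr a b) t) := by
  rw [four_l] at ha hb
  exact ⟨pr_int ha hb, rfl⟩

lemma pr_T {a b : ℂ} {t : ℝ} (ha : |a.re| < 4 * l) (hb : |b.re| < 4 * l) :
    Complex.I * Real.pi * ift (pr a b) t = pT a b t := ift_prT ha hb t

lemma dPs_IF (h : Geo w w') (t : ℝ) : IF (fun k => Complex.I * Real.pi * dPs w w' k) t (dP w w' t) := by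
  have hl := l_pos
  have hz := zz_re w w'
  obtain ⟨h1, h2, h3, h4⟩ := h
  have c1 : |(3 * l - 0 : ℂ).re| < 4 * l := abs_lt.2 (by constructor <;> simp <;> linarith)
  have c1' : |(-0 : ℂ).re| < 4 * l := abs_lt.2 (by constructor <;> simp <;> linarith)
  have c2 : |(3 * l - zz w w' : ℂ).re| < 4 * l := abs_lt.2 (by constructor <;> simp [hz] <;> linarith)
  have c2' : |(-zz w w' : ℂ).re| < 4 * l := abs_lt.2 (by constructor <;> simp [hz] <;> linarith)
  have c3 : |(3 * l - w : ℂ).re| < 4 * l := abs_lt.2 (by constructor <;> simp <;> linarith)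
  have c3' : |(-w : ℂ).re| < 4 * l := abs_lt.2 (by constructor <;> simp <;> linarith)
  have c4 : |(3 * l - (w - 2 * l) : ℂ).re| < 4 * l := abs_lt.2 (by constructor <;> simp <;> linarith)
  have c4' : |(-(w - 2 * l) : ℂ).re| < 4 * l := abs_lt.2 (by constructor <;> simp <;> linarith)
  have c5 : |(3 * l - (w - l) : ℂ).re| < 4 * l := abs_lt.2 (by constructor <;> simp <;> linarith)
  have c5' : |(-(w - l) : ℂ).re| < 4 * l := abs_lt.2 (by constructor <;> simp <;> linarith)
  have c6 : |(3 * l - w' : ℂ).re| < 4 * l := abs_lt.2 (by constructor <;> simp <;> linarith)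
  have c6' : |(-w' : ℂ).re| < 4 * l := abs_lt.2 (by constructor <;> simp <;> linarith)
  have c7 : |(3 * l - (w' - 2 * l) : ℂ).re| < 4 * l := abs_lt.2 (by constructor <;> simp <;> linarith)
  have c7' : |(-(w' - 2 * l) : ℂ).re| < 4 * l := abs_lt.2 (by constructor <;> simp <;> linarith)
  have c8 : |(3 * l - (w' - l) : ℂ).re| < 4 * l := abs_lt.2 (by constructor <;> simp <;> linarith)
  have c8' : |(-(w' - l) : ℂ).re| < 4 * l := abs_lt.2 (by constructor <;> simp <;> linarith)
  have key : IF (dPs w w') t _ := ((((IF_pr c1 c1' t).const 4).sub ((IF_pr c2 c2' t).const 2)).sub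
    (((IF_pr c3 c3' t).add (IF_pr c4 c4' t)).sub (IF_pr c5 c5' t))).sub
    (((IF_pr c6 c6' t).add (IF_pr c7 c7' t)).sub (IF_pr c8 c8' t))
  have k2 := key.const (Complex.I * Real.pi)
  refine ⟨k2.1, k2.2.trans ?_⟩
  have t1 := pr_T (t := t) c1 c1'
  have t2 := pr_T (t := t) c2 c2'
  have t3 := pr_T (t := t) c3 c3'
  have t4 := pr_T (t := t) c4 c4'
  have t5 := pr_T (t := t) c5 c5'
  have t6 := pr_T (t := t) c6 c6'
  have t7 := pr_T (t := t) c7 c7'
  have t8 := pr_T (t := t) c8 c8'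
  unfold dP eT
  unfold pT at t1 t2 t3 t4 t5 t6 t7 t8
  linear_combination 4 * t1 - 2 * t2 - (t3 + t4 - t5) - (t6 + t7 - t8)

/-- **`(- V * β₊')' = Δ₊'`** -/
theorem convP (h : Geo w w') (t : ℝ) :
    HasDerivAt (fun t => -∫ s, bP' w w' s * (V (t - s) : ℂ)) (dP w w' t) t := by
  have hm := es_int l3_pos cP_sum (aP_re h)
  have e : (fun t => -∫ s, bP' w w' s * (V (t - s) : ℂ)) =
      ift (fun k => -(es (3 * l) cP (aP w w') k * (Uh k : ℂ))) := by
    funext t
    unfold bP'
    rw [conv_V hm, ift_neg]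
  have h2 := dPs_IF h t
  rw [e, ← h2.2]
  exact ift_deriv (mul_Uh_int hm).neg h2.1 (fun k hk => (symP hk).symm) t

theorem convP_lim (h : Geo w w') :
    Tendsto (fun t => -∫ s, bP' w w' s * (V (t - s) : ℂ)) (cocompact ℝ) (𝓝 0) := by
  have hm := es_int l3_pos cP_sum (aP_re h)
  have e : (fun t => -∫ s, bP' w w' s * (V (t - s) : ℂ)) =
      ift (fun k => -(es (3 * l) cP (aP w w') k * (Uh k : ℂ))) := by
    funext t
    unfold bP'
    rw [conv_V hm, ift_neg]
  rw [e]
  exact ift_zero _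

lemma dMs_IF (h : Geo w w') (t : ℝ) : IF (fun k => Complex.I * Real.pi * dMs w w' k) t (dM w w' t) := by
  have hl := l_pos
  obtain ⟨h1, h2, h3, h4⟩ := h
  have c5 : |(5 * l - w : ℂ).re| < 4 * l := abs_lt.2 (by constructor <;> simp <;> linarith)
  have c4 : |(4 * l - w : ℂ).re| < 4 * l := abs_lt.2 (by constructor <;> simp <;> linarith)
  have c3 : |(3 * l - w : ℂ).re| < 4 * l := abs_lt.2 (by constructor <;> simp <;> linarith)
  have c2 : |(2 * l - w : ℂ).re| < 4 * l := abs_lt.2 (by constructor <;> simp <;> linarith)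
  have c1 : |(l - w : ℂ).re| < 4 * l := abs_lt.2 (by constructor <;> simp <;> linarith)
  have c0 : |(-w : ℂ).re| < 4 * l := abs_lt.2 (by constructor <;> simp <;> linarith)
  have c5' : |(5 * l - w' : ℂ).re| < 4 * l := abs_lt.2 (by constructor <;> simp <;> linarith)
  have c4' : |(4 * l - w' : ℂ).re| < 4 * l := abs_lt.2 (by constructor <;> simp <;> linarith)
  have c3' : |(3 * l - w' : ℂ).re| < 4 * l := abs_lt.2 (by constructor <;> simp <;> linarith)
  have c2' : |(2 * l - w' : ℂ).re| < 4 * l := abs_lt.2 (by constructor <;> simp <;> linarith)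
  have c1' : |(l - w' : ℂ).re| < 4 * l := abs_lt.2 (by constructor <;> simp <;> linarith)
  have c0' : |(-w' : ℂ).re| < 4 * l := abs_lt.2 (by constructor <;> simp <;> linarith)
  have key : IF (dMs w w') t _ := ((((((IF_pr c5 c5' t).sub (IF_pr c4 c4' t)).add (IF_pr c3 c3' t)).add
    (IF_pr c2 c2' t)).sub (IF_pr c1 c1' t)).add (IF_pr c0 c0' t)).neg
  have k2 := key.const (Complex.I * Real.pi)
  refine ⟨k2.1, k2.2.trans ?_⟩
  have t5 := pr_T (t := t) c5 c5'
  have t4 := pr_T (t := t) c4 c4'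
  have t3 := pr_T (t := t) c3 c3'
  have t2 := pr_T (t := t) c2 c2'
  have t1 := pr_T (t := t) c1 c1'
  have t0 := pr_T (t := t) c0 c0'
  unfold dM
  linear_combination -(t5 - t4 + t3 + t2 - t1 + t0)

/-! ### the minus mode -/

lemma r_pos' : 0 < r := by unfold r; positivity

lemma Kg_le (u : ℝ) : |Pool.Agent.PB.Kg u| ≤ 6 := by
  have h1 : |Real.sinh (2 * u)| ≤ Real.cosh (2 * u) := by
    rw [Real.abs_sinh, ← Real.cosh_abs]
    exact (Real.sinh_lt_cosh _).le
  have hc := Real.cosh_pos (2 * u)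
  have hr := r_pos'
  have p1 : 0 < Real.cosh (2 * u) + 1 := by linarith
  have p2 : 0 < Real.cosh (2 * u) + r := by linarith
  have a1 : |2 * Real.sinh (2 * u) / (Real.cosh (2 * u) + 1)| ≤ 2 := by
    rw [abs_div, abs_mul, abs_of_pos p1, div_le_iff₀ p1, abs_of_pos (by norm_num : (0:ℝ) < 2)]
    linarith
  have a2 : |4 * Real.sinh (2 * u) / (Real.cosh (2 * u) + r)| ≤ 4 := by
    rw [abs_div, abs_mul, abs_of_pos p2, div_le_iff₀ p2, abs_of_pos (by norm_num : (0:ℝ) < 4)]
    linarith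
  unfold Pool.Agent.PB.Kg
  exact (abs_sub _ _).trans (by linarith)

lemma Kg_cont : Continuous Pool.Agent.PB.Kg := by
  have h1 : ∀ u, Real.cosh (2 * u) + 1 ≠ 0 := fun u => by have := Real.cosh_pos (2 * u); linarith
  have h2 : ∀ u, Real.cosh (2 * u) + r ≠ 0 := fun u => by
    have := Real.cosh_pos (2 * u); have := r_pos'; linarith
  unfold Pool.Agent.PB.Kg
  refine Continuous.sub (Continuous.div (by fun_prop) (by fun_prop) h1) (Continuous.div (by fun_prop) (by fun_prop) h2)

/-- derivative of a convolution with a bounded kernel -/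
theorem hasDerivAt_convB {K : ℝ → ℝ} {f f' : ℝ → ℂ} {B C c : ℝ} (hK : Continuous K) (hB : ∀ u, |K u| ≤ B)
    (hf : ∀ s, HasDerivAt f (f' s) s) (hfc : Continuous f') (hfi : Integrable f) (hc : 0 < c)
    (hdec : ∀ s, ‖f' s‖ ≤ C * Real.exp (-c * |s|)) (t : ℝ) :
    HasDerivAt (fun t => ∫ s, f s * (K (t - s) : ℂ)) (∫ s, f' s * (K (t - s) : ℂ)) t := by
  have hB0 : 0 ≤ B := (abs_nonneg _).trans (hB 0)
  have hC0 : 0 ≤ C := by
    have := (norm_nonneg _).trans (hdec 0)
    simpa using this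
  have hfc0 : Continuous f := continuous_iff_continuousAt.2 fun s => (hf s).continuousAt
  have e1 : ∀ (f : ℝ → ℂ) (t : ℝ), ∫ s, f s * (K (t - s) : ℂ) = ∫ u, f (t - u) * (K u : ℂ) := by
    intro f t
    have := integral_sub_left_eq_self (fun u => f (t - u) * (K u : ℂ)) volume t
    rw [← this]
    refine integral_congr_ae (Eventually.of_forall fun s => ?_)
    simp only [sub_sub_cancel]
  simp_rw [e1]
  have hKc : Continuous fun u => (K u : ℂ) := Complex.continuous_ofReal.comp hK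
  have hb : Integrable fun u : ℝ => C * Real.exp c * B * Real.exp (-c * |t - u|) :=
    ((NUMF.int_exp_abs hc).comp_sub_left t).const_mul _
  have hk := hasDerivAt_integral_of_dominated_loc_of_deriv_le (μ := volume) (s := Metric.ball t 1)
    (F := fun t u => f (t - u) * (K u : ℂ)) (F' := fun t u => f' (t - u) * (K u : ℂ)) (x₀ := t)
    (bound := fun u => C * Real.exp c * B * Real.exp (-c * |t - u|)) (Metric.ball_mem_nhds t one_pos)
    (Eventually.of_forall fun t => ((hfc0.comp (continuous_const.sub continuous_id)).mul hKc).aestronglyMeasurable)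
    ?_ ((hfc.comp (continuous_const.sub continuous_id)).mul hKc).aestronglyMeasurable ?_ hb ?_
  · exact hk.2
  · exact (hfi.comp_sub_left t).mul_bdd (c := B) hKc.aestronglyMeasurable
      (Eventually.of_forall fun u => by rw [Complex.norm_real, Real.norm_eq_abs]; exact hB u)
  · refine Eventually.of_forall fun u x hx => ?_
    rw [Metric.mem_ball, Real.dist_eq] at hx
    rw [norm_mul, Complex.norm_real, Real.norm_eq_abs]
    have h1 : |t - u| ≤ |x - u| + 1 := by
      have : t - u = (x - u) + (t - x) := by ring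
      rw [this]
      refine (abs_add_le _ _).trans ?_
      rw [abs_sub_comm t x]
      linarith
    have h2 : Real.exp (-c * |x - u|) ≤ Real.exp c * Real.exp (-c * |t - u|) := by
      rw [← Real.exp_add]
      refine Real.exp_le_exp.2 ?_
      nlinarith
    calc ‖f' (x - u)‖ * |K u| ≤ (C * Real.exp (-c * |x - u|)) * B := by
          gcongr
          · exact hdec _
          · exact hB u
      _ ≤ (C * (Real.exp c * Real.exp (-c * |t - u|))) * B := by gcongr
      _ = _ := by ring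
  · refine Eventually.of_forall fun u x _ => ?_
    have h1 : HasDerivAt (fun x => x - u) 1 x := by simpa using (hasDerivAt_id x).sub_const u
    have h2 := (hf (x - u)).scomp x h1
    rw [one_smul] at h2
    exact h2.mul_const _

/-- `|k| |k Lh k|` is bounded -/
lemma k2Lh_le : ∃ B : ℝ, ∀ k : ℝ, k ≠ 0 → |k * (k * Lh k)| ≤ B := by
  have hpi := Real.pi_pos
  have hl : 0 < Real.pi / 2 - l := by unfold l; linarith
  refine ⟨8 * (1 + Real.pi / (Real.pi / 2 - l)), ?_⟩
  have key : ∀ k : ℝ, 0 < k → |k * (k * Lh k)| ≤ 8 * (1 + Real.pi / (Real.pi / 2 - l)) := by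
    intro k hk
    have h1 := kLh_le hk
    have h2 := inv_sk_le hk
    have hs := sk_pos hk
    rw [abs_mul, abs_of_pos hk, mul_comm]
    refine h1.trans ?_
    unfold dom
    have h3 : Real.exp (l * k) * (k / sk k) ≤ Real.exp (l * k) * (2 / Real.pi * (1 + Real.pi * k) *
        Real.exp (-(Real.pi / 2) * k)) := by gcongr
    have h4 : Real.exp (l * k) * (2 / Real.pi * (1 + Real.pi * k) * Real.exp (-(Real.pi / 2) * k)) =
        2 / Real.pi * ((1 + Real.pi * k) * Real.exp (-((Real.pi / 2 - l) * k))) := by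
      have : Real.exp (-((Real.pi / 2 - l) * k)) = Real.exp (l * k) * Real.exp (-(Real.pi / 2) * k) := by
        rw [← Real.exp_add]; congr 1; ring
      rw [this]; ring
    have h5 : (1 + Real.pi * k) * Real.exp (-((Real.pi / 2 - l) * k)) ≤ 1 + Real.pi / (Real.pi / 2 - l) := by
      have hx : 0 < (Real.pi / 2 - l) * k := mul_pos hl hk
      have h6 : Real.exp (-((Real.pi / 2 - l) * k)) ≤ 1 := Real.exp_le_one_iff.2 (by linarith)
      have h7 : ((Real.pi / 2 - l) * k) * Real.exp (-((Real.pi / 2 - l) * k)) ≤ 1 := by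
        have h8 := Real.add_one_le_exp ((Real.pi / 2 - l) * k)
        have h9 : Real.exp (-((Real.pi / 2 - l) * k)) * Real.exp ((Real.pi / 2 - l) * k) = 1 := by
          rw [← Real.exp_add]; simp
        have h10 := Real.exp_pos (-((Real.pi / 2 - l) * k))
        nlinarith
      have h11 : Real.pi * k * Real.exp (-((Real.pi / 2 - l) * k)) ≤ Real.pi / (Real.pi / 2 - l) := by
        rw [le_div_iff₀ hl]
        nlinarith
      nlinarith
    calc 4 * Real.pi * (Real.exp (l * k) * (k / sk k)) ≤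
        4 * Real.pi * (2 / Real.pi * ((1 + Real.pi * k) * Real.exp (-((Real.pi / 2 - l) * k)))) := by
          rw [← h4]; gcongr
      _ = 8 * ((1 + Real.pi * k) * Real.exp (-((Real.pi / 2 - l) * k))) := by field_simp; ring
      _ ≤ _ := by gcongr
  intro k hk
  rcases lt_or_gt_of_ne hk with h | h
  · have := key (-k) (by linarith)
    rw [Lh_neg] at this
    have e : -k * (-k * Lh k) = k * (k * Lh k) := by ring
    rwa [e] at this
  · exact key k h

lemma Lh_meas : Measurable Lh := by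
  have := sk_meas
  unfold Lh ck1
  fun_prop

/-- `k Lh k es` is integrable -/
lemma kLh_es_int (h : Geo w w') : Integrable fun k => ((k * Lh k : ℝ) : ℂ) * es (3 * l) cM (aM w w') k := by
  obtain ⟨B, hB⟩ := k2Lh_le
  have h2 := es2_int l3_pos cM_sum (cM_sum1 w w') (aM_re h)
  have h3 : Integrable fun k => es2 (3 * l) cM (aM w w') k * ((k * (k * Lh k) : ℝ) : ℂ) := by
    refine h2.mul_bdd (c := B) ?_ ?_
    · have := Lh_meas
      exact Measurable.aestronglyMeasurable (by fun_prop)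
    · filter_upwards [ae_ne_zero] with k hk
      rw [Complex.norm_real, Real.norm_eq_abs]
      exact hB k hk
  refine h3.congr ?_
  filter_upwards [ae_ne_zero] with k hk
  have hk0 : (k : ℂ) ≠ 0 := Complex.ofReal_ne_zero.2 hk
  unfold es es2
  set S := ∑ j, cM j * Complex.exp (aM w w' j * k)
  rcases eq_or_ne ((Real.sinh (3 * l * k) : ℝ) : ℂ) 0 with h | h
  · have h' : Real.sinh (3 * l * k) = 0 := Complex.ofReal_eq_zero.1 h
    rw [h']
    simp
  · push_cast at h ⊢
    field_simp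

lemma es_contAt {ι : Type*} [Fintype ι] {α : ℝ} (hα : 0 < α) (c a : ι → ℂ) {k : ℝ} (hk : k ≠ 0) :
    ContinuousAt (es α c a) k := by
  unfold es
  refine ContinuousAt.div ?_ ?_ ?_
  · exact Continuous.continuousAt (by fun_prop)
  · exact Continuous.continuousAt (by fun_prop)
  · refine Complex.ofReal_ne_zero.2 ?_
    rw [Ne, Real.sinh_eq_zero]
    exact mul_ne_zero hα.ne' hk

lemma es2_contAt {ι : Type*} [Fintype ι] {α : ℝ} (hα : 0 < α) (c a : ι → ℂ) {k : ℝ} (hk : k ≠ 0) :
    ContinuousAt (es2 α c a) k := by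
  unfold es2
  refine ContinuousAt.div ?_ ?_ ?_
  · exact Continuous.continuousAt (by fun_prop)
  · exact Continuous.continuousAt (by fun_prop)
  · refine Complex.ofReal_ne_zero.2 (mul_ne_zero hk ?_)
    rw [Ne, Real.sinh_eq_zero]
    exact mul_ne_zero hα.ne' hk

/-! ### closed forms of the fields -/

lemma kap_eq : Real.pi / (2 * (3 * l)) = 4 / 3 := by
  have := Real.pi_pos
  unfold l
  field_simp
  norm_num

lemma pre_eq : (1 / (2 * (3 * l)) : ℝ) = 4 / 3 / Real.pi := by
  have := Real.pi_pos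
  unfold l
  field_simp
  norm_num

lemma bP'_eq (h : Geo w w') (t : ℝ) : bP' w w' t = TT (4 / 3) cP (aP w w') t := by
  unfold bP' TT
  rw [ift_es l3_pos cP_sum (aP_re h), kap_eq, pre_eq]
  push_cast
  rfl

lemma bM'_eq (h : Geo w w') (t : ℝ) : bM' w w' t = TT (4 / 3) cM (aM w w') t := by
  unfold bM' TT
  rw [ift_es l3_pos cM_sum (aM_re h), kap_eq, pre_eq]
  push_cast
  rfl

lemma bP_eq (h : Geo w w') (t : ℝ) : bP w w' t = BB (4 / 3) cP (aP w w') t := by
  unfold bP BB
  rw [ift_es2 l3_pos cP_sum (cP_sum1 w w') (aP_re h), kap_eq]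

lemma bM_eq (h : Geo w w') (t : ℝ) : bM w w' t = BB (4 / 3) cM (aM w w') t := by
  unfold bM BB
  rw [ift_es2 l3_pos cM_sum (cM_sum1 w w') (aM_re h), kap_eq]

lemma k43 {x : ℝ} (hx : |x| < 3 * l) : |(4 / 3 : ℝ) * x| < Real.pi / 2 := by
  rw [abs_mul, abs_of_pos (by norm_num : (0:ℝ) < 4 / 3)]
  unfold l at hx
  linarith

lemma kP (h : Geo w w') (j : Fin 8) : |(4 / 3 : ℝ) * (aP w w' j).re| < Real.pi / 2 := k43 (aP_re h j)

lemma kM (h : Geo w w') (j : Fin 4) : |(4 / 3 : ℝ) * (aM w w' j).re| < Real.pi / 2 := k43 (aM_re h j)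

lemma bP'_int (h : Geo w w') : Integrable (bP' w w') := by
  have h1 := TT_int (κ := 4 / 3) (by norm_num) cP_sum (kP h)
  exact h1.congr (Eventually.of_forall fun t => (bP'_eq h t).symm)

lemma bM'_int (h : Geo w w') : Integrable (bM' w w') := by
  have h1 := TT_int (κ := 4 / 3) (by norm_num) cM_sum (kM h)
  exact h1.congr (Eventually.of_forall fun t => (bM'_eq h t).symm)

lemma bP_int (h : Geo w w') : Integrable (bP w w') := by
  have h1 := BB_int (κ := 4 / 3) (by norm_num) cP_sum (cP_sum1 w w') (kP h)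
  exact h1.congr (Eventually.of_forall fun t => (bP_eq h t).symm)

lemma bM_int (h : Geo w w') : Integrable (bM w w') := by
  have h1 := BB_int (κ := 4 / 3) (by norm_num) cM_sum (cM_sum1 w w') (kM h)
  exact h1.congr (Eventually.of_forall fun t => (bM_eq h t).symm)

lemma bM'_cont (h : Geo w w') : Continuous (bM' w w') := by
  have h1 := continuous_TT (κ := 4 / 3) (c := cM) (kM h)
  exact h1.congr fun t => (bM'_eq h t).symm

lemma bP'_cont (h : Geo w w') : Continuous (bP' w w') := by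
  have h1 := continuous_TT (κ := 4 / 3) (c := cP) (kP h)
  exact h1.congr fun t => (bP'_eq h t).symm

lemma bM'_int1 (h : Geo w w') : Integrable fun s => ((|s| : ℝ) : ℂ) * bM' w w' s := by
  have h1 := TT_int' (κ := 4 / 3) (by norm_num) cM_sum (kM h)
  refine h1.mono' ?_ (Eventually.of_forall fun t => ?_)
  · exact ((Complex.continuous_ofReal.comp continuous_abs).mul (bM'_cont h)).aestronglyMeasurable
  · rw [norm_mul, Complex.norm_real, Real.norm_eq_abs, abs_abs, bM'_eq h]

lemma bM'_dec (h : Geo w w') : ∃ C : ℝ, ∀ s, ‖bM' w w' s‖ ≤ C * Real.exp (-(8 / 3) * |s|) := by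
  obtain ⟨b, M, hb, h1, hM⟩ := exists_b (kM h)
  refine ⟨2 * (4 / 3) / Real.pi * ((∑ j, ‖cM j‖) / Real.cos b) * Real.exp (2 * (4 / 3) * M), fun s => ?_⟩
  have h2 := TT_le (t := (s : ℂ)) (by norm_num : (0:ℝ) ≤ 4 / 3) cM_sum hb
    (fun j => by simpa using h1 j) hM
  rw [bM'_eq h]
  refine h2.trans (le_of_eq ?_)
  rw [Complex.ofReal_re, mul_assoc _ (Real.exp _) (Real.exp _), ← Real.exp_add]
  congr 2
  ring

/-- **`(- V * β₋' - 2 Kg * β₋)' = Δ₋'`** -/
theorem convM (h : Geo w w') (t : ℝ) :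
    HasDerivAt (fun t => -(∫ s, bM' w w' s * (V (t - s) : ℂ)) -
      2 * ∫ s, bM w w' s * (Pool.Agent.PB.Kg (t - s) : ℂ)) (dM w w' t) t := by
  have hm := es_int l3_pos cM_sum (aM_re h)
  obtain ⟨C, hC⟩ := bM'_dec h
  have h1 := hasDerivAt_convB (K := Pool.Agent.PB.Kg) (c := 8 / 3) Kg_cont Kg_le (bM_deriv h) (bM'_cont h)
    (bM_int h) (by norm_num) hC t
  have hL := kLh_es_int h
  have h2 := conv_Kg (f := bM' w w') (m := es (3 * l) cM (aM w w')) (bM'_int h) (bM'_int1 h)
    (fun k hk => ift_inv hm (bM'_int h) (es_contAt l3_pos _ _ hk)) hL t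
  have hU := mul_Uh_int hm
  -- derivative of the first part
  have e : (fun t => ∫ s, bM' w w' s * (V (t - s) : ℂ)) =
      ift (fun k => es (3 * l) cM (aM w w') k * (Uh k : ℂ)) := by
    funext t
    unfold bM'
    rw [conv_V hm]
  have hd := dMs_IF h t
  -- `n k = i k es Uh` is integrable
  have hn : Integrable fun k : ℝ => Complex.I * k * (es (3 * l) cM (aM w w') k * (Uh k : ℂ)) := by
    have h3 := (hd.1.neg).sub ((hL.const_mul Complex.I).const_mul 2)
    refine h3.congr ?_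
    filter_upwards [ae_ne_zero] with k hk
    have h4 := symM (w := w) (w' := w') hk
    simp only [Pi.sub_apply, Pi.neg_apply]
    push_cast at h4 ⊢
    linear_combination h4
  have h3 := ift_deriv hU hn (fun k _ => rfl) t
  rw [← e] at h3
  have h5 := h3.neg.sub (h1.const_mul 2)
  convert! h5 using 1
  rw [h2, ← hd.2]
  have e5 : -ift (fun k : ℝ => Complex.I * k * (es (3 * l) cM (aM w w') k * (Uh k : ℂ))) t -
      2 * ift (fun k => Complex.I * (((k * Lh k : ℝ) : ℂ) * es (3 * l) cM (aM w w') k)) t =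
      ift (fun k : ℝ => -(Complex.I * k * (es (3 * l) cM (aM w w') k * (Uh k : ℂ))) -
        2 * (Complex.I * (((k * Lh k : ℝ) : ℂ) * es (3 * l) cM (aM w w') k))) t := by
    have a1 : IF (fun k : ℝ => Complex.I * k * (es (3 * l) cM (aM w w') k * (Uh k : ℂ))) t _ := ⟨hn, rfl⟩
    have a2 : IF (fun k => Complex.I * (((k * Lh k : ℝ) : ℂ) * es (3 * l) cM (aM w w') k)) t _ :=
      ⟨hL.const_mul Complex.I, rfl⟩
    exact ((a1.neg).sub (a2.const 2)).2.symm
  rw [e5]
  refine ift_congr (fun k hk => ?_) t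
  have h4 := symM (w := w) (w' := w') hk
  push_cast at h4 ⊢
  linear_combination -h4

end

end PBT3
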