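import Pool.Agent.PB.TrG4
import Pool.Agent.PB.Frull

/-!
# Transfer, Gaussian part (5): the Gaussian exponents in closed form

* `pI w w' = ∫ β₊ D_z'`, `qI w w' = (1/2) ∫ (β₊ Δ₊' + β₋ Δ₋')`;
* `pI_eq : pI = 4 F2 z - 4 F2 l - F1 (w - l - z) - F1 (w' - l - z)`;
* `gI_eq : pI + qI / 2 = F1 (w-w'+l) + F1 (w-w'-l) - F1 (w-w') - 2 F1 (w-l) - 2 F1 (w'-l) - 6 F2 l`.
-/

set_option autoImplicit false

open MeasureTheory Set Filter Topology

namespace PBT3

open NUMF PBFr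

noncomputable section

variable {w w' : ℂ}

lemma ft_of {m : ℝ → ℂ} (hm : Integrable m) (hi : Integrable (ift m)) {k : ℝ} (hc : ContinuousAt m (-k)) :
    ∫ t, ift m t * Complex.exp ((k * t : ℝ) * Complex.I) = m (-k) := by
  rw [← ift_inv hm hi hc]
  refine integral_congr_ae (Eventually.of_forall fun t => ?_)
  simp only
  congr 2
  push_cast
  ring

lemma bP_ft (h : Geo w w') {k : ℝ} (hk : k ≠ 0) :
    ∫ t, bP w w' t * Complex.exp ((k * t : ℝ) * Complex.I) = -Complex.I * es2 (3 * l) cP (aP w w') (-k) := by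
  have h1 := ft_of ((es2_int l3_pos cP_sum (cP_sum1 w w') (aP_re h)).const_mul (-Complex.I)) (bP_int h) (k := k)
    (continuousAt_const.mul (es2_contAt l3_pos _ _ (neg_ne_zero.2 hk)))
  exact h1

lemma bM_ft (h : Geo w w') {k : ℝ} (hk : k ≠ 0) :
    ∫ t, bM w w' t * Complex.exp ((k * t : ℝ) * Complex.I) = -Complex.I * es2 (3 * l) cM (aM w w') (-k) := by
  have h1 := ft_of ((es2_int l3_pos cM_sum (cM_sum1 w w') (aM_re h)).const_mul (-Complex.I)) (bM_int h) (k := k)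
    (continuousAt_const.mul (es2_contAt l3_pos _ _ (neg_ne_zero.2 hk)))
  exact h1

/-- pairing of the field with a potential -/
lemma pairP (h : Geo w w') {m : ℝ → ℂ} (hm : Integrable m) :
    ∫ t, bP w w' t * ift (fun k => Complex.I * Real.pi * m k) t =
      1 / 2 * ∫ k, m k * es2 (3 * l) cP (aP w w') (-k) := by
  rw [parseval (bP_int h) (hm.const_mul _), ← integral_const_mul, ← integral_const_mul]
  refine integral_congr_ae ?_
  filter_upwards [ae_ne_zero] with k hk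
  rw [bP_ft h hk]
  have hp : (Real.pi : ℂ) ≠ 0 := Complex.ofReal_ne_zero.2 Real.pi_ne_zero
  push_cast
  field_simp
  rw [Complex.I_sq]
  ring

lemma pairM (h : Geo w w') {m : ℝ → ℂ} (hm : Integrable m) :
    ∫ t, bM w w' t * ift (fun k => Complex.I * Real.pi * m k) t =
      1 / 2 * ∫ k, m k * es2 (3 * l) cM (aM w w') (-k) := by
  rw [parseval (bM_int h) (hm.const_mul _), ← integral_const_mul, ← integral_const_mul]
  refine integral_congr_ae ?_
  filter_upwards [ae_ne_zero] with k hk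
  rw [bM_ft h hk]
  have hp : (Real.pi : ℂ) ≠ 0 := Complex.ofReal_ne_zero.2 Real.pi_ne_zero
  push_cast
  field_simp
  rw [Complex.I_sq]
  ring

/-! ### symbols -/

/-- numerator of `es2` in the plus channel -/
lemma numP (w w' : ℂ) (k : ℝ) : ∑ j, cP j * Complex.exp (aP w w' j * k) =
      Complex.exp (l * k) * (Complex.exp (l * k) + 1) * ((-2 + Complex.exp (-(zz w w' * k))) +
        1 / 2 * (Complex.exp (l * k) ^ 2 - Complex.exp (l * k) + 1) *
          (Complex.exp (-(w * k)) + Complex.exp (-(w' * k)))) := by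
  have e2 : Complex.exp (2 * l * k) = Complex.exp (l * k) ^ 2 := by
    rw [← Complex.exp_nat_mul]; congr 1; push_cast; ring
  have g2 := exp_nl 2 (zz w w') k
  have g1 := exp_nl 1 (zz w w') k
  have w4 := exp_nl 4 w k
  have w1 := exp_nl 1 w k
  have v4 := exp_nl 4 w' k
  have v1 := exp_nl 1 w' k
  push_cast at g2 g1 w4 w1 v4 v1
  rw [one_mul] at g1 w1 v1
  rw [Fin.sum_univ_eight]
  change -2 * Complex.exp (2 * l * k) + -2 * Complex.exp (l * k) +
    1 * Complex.exp ((2 * l - zz w w') * k) + 1 * Complex.exp ((l - zz w w') * k) +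
    1 / 2 * Complex.exp ((4 * l - w) * k) + 1 / 2 * Complex.exp ((l - w) * k) +
    1 / 2 * Complex.exp ((4 * l - w') * k) + 1 / 2 * Complex.exp ((l - w') * k) = _
  rw [e2, g2, g1, w4, w1, v4, v1]
  ring

lemma numM (w w' : ℂ) (k : ℝ) : ∑ j, cM j * Complex.exp (aM w w' j * k) =
      1 / 2 * (Complex.exp (l * k) ^ 4 - Complex.exp (l * k)) *
          (Complex.exp (-(w * k)) - Complex.exp (-(w' * k))) := by
  have w4 := exp_nl 4 w k
  have w1 := exp_nl 1 w k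
  have v4 := exp_nl 4 w' k
  have v1 := exp_nl 1 w' k
  push_cast at w4 w1 v4 v1
  rw [one_mul] at w1 v1
  rw [Fin.sum_univ_four]
  change 1 / 2 * Complex.exp ((4 * l - w) * k) + -1 / 2 * Complex.exp ((l - w) * k) +
    -1 / 2 * Complex.exp ((4 * l - w') * k) + 1 / 2 * Complex.exp ((l - w') * k) = _
  rw [w4, w1, v4, v1]
  ring

lemma x_neg (k : ℝ) : Complex.exp (l * ((-k : ℝ) : ℂ)) = (Complex.exp (l * k))⁻¹ := by
  rw [← Complex.exp_neg]
  congr 1
  push_cast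
  ring

lemma v_neg (v : ℂ) (k : ℝ) : Complex.exp (-(v * ((-k : ℝ) : ℂ))) = (Complex.exp (-(v * k)))⁻¹ := by
  rw [← Complex.exp_neg]
  congr 1
  push_cast
  ring

/-- `2 cosh (lk) - 1 ≠ 0`, as `x² - x + 1 ≠ 0` -/
lemma x2_ne (k : ℝ) : Complex.exp (l * k) ^ 2 - Complex.exp (l * k) + 1 ≠ 0 := by
  have hx : Complex.exp (l * k) = ((Real.exp (l * k) : ℝ) : ℂ) := by push_cast; rfl
  rw [hx]
  have : Real.exp (l * k) ^ 2 - Real.exp (l * k) + 1 ≠ 0 := by nlinarith [sq_nonneg (Real.exp (l * k) - 1 / 2)]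
  exact_mod_cast this

/-- `es2` at `-k`, plus channel -/
lemma es2P_neg {k : ℝ} (hk : k ≠ 0) : es2 (3 * l) cP (aP w w') (-k) =
    2 * Complex.exp (l * k) * ((-2 + (Complex.exp (-(zz w w' * k)))⁻¹) +
      1 / 2 * (Complex.exp (l * k) ^ 2 - Complex.exp (l * k) + 1) * ((Complex.exp (l * k)) ^ 2)⁻¹ *
        ((Complex.exp (-(w * k)))⁻¹ + (Complex.exp (-(w' * k)))⁻¹)) /
      (k * (Complex.exp (l * k) ^ 3 - 1) * (Complex.exp (l * k) ^ 2 - Complex.exp (l * k) + 1)) := by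
  obtain ⟨x0, x3, x3', x8, x1, x1'⟩ := x_facts hk
  have x2 := x2_ne k
  have hk0 : (k : ℂ) ≠ 0 := Complex.ofReal_ne_zero.2 hk
  unfold es2
  rw [numP, x_neg, v_neg, v_neg, v_neg, Complex.ofReal_mul, s3_x, x_neg]
  have n1 := Complex.exp_ne_zero (-(zz w w' * k))
  have n2 := Complex.exp_ne_zero (-(w * k))
  have n3 := Complex.exp_ne_zero (-(w' * k))
  generalize Complex.exp (-(zz w w' * k)) = Z at *
  generalize Complex.exp (-(w * k)) = W at *
  generalize Complex.exp (-(w' * k)) = W' at *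
  generalize Complex.exp (l * k) = x at *
  have hx6 : ((x⁻¹) ^ 3 - ((x⁻¹) ^ 3)⁻¹) / 2 = -((x ^ 3 - 1) * ((x + 1) * (x ^ 2 - x + 1))) / (2 * x ^ 3) := by
    field_simp
    ring
  rw [hx6]
  push_cast
  field_simp
  ring

/-- `es2` at `-k`, minus channel -/
lemma es2M_neg {k : ℝ} (hk : k ≠ 0) : es2 (3 * l) cM (aM w w') (-k) =
    -((Complex.exp (l * k))⁻¹ * ((Complex.exp (-(w * k)))⁻¹ - (Complex.exp (-(w' * k)))⁻¹)) /
      (k * (Complex.exp (l * k) ^ 3 + 1)) := by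
  obtain ⟨x0, x3, x3', x8, x1, x1'⟩ := x_facts hk
  have hk0 : (k : ℂ) ≠ 0 := Complex.ofReal_ne_zero.2 hk
  unfold es2
  rw [numM, x_neg, v_neg, v_neg, Complex.ofReal_mul, s3_x, x_neg]
  have n2 := Complex.exp_ne_zero (-(w * k))
  have n3 := Complex.exp_ne_zero (-(w' * k))
  generalize Complex.exp (-(w * k)) = W at *
  generalize Complex.exp (-(w' * k)) = W' at *
  generalize Complex.exp (l * k) = x at *
  have hx6 : ((x⁻¹) ^ 3 - ((x⁻¹) ^ 3)⁻¹) / 2 = -((x ^ 3 - 1) * (x ^ 3 + 1)) / (2 * x ^ 3) := by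
    field_simp
    ring
  rw [hx6]
  push_cast
  field_simp
  ring

lemma dPs_x (w w' : ℂ) (k : ℝ) : dPs w w' k = (Complex.exp (l * k) ^ 3 - 1) *
    (4 - 2 * Complex.exp (-(zz w w' * k)) - (Complex.exp (l * k) ^ 2 - Complex.exp (l * k) + 1) *
        (Complex.exp (-(w * k)) + Complex.exp (-(w' * k)))) / (sk k : ℂ) := by
  have o3 := exp_nl 3 0 k
  have z3 := exp_nl 3 (zz w w') k
  have w3 := exp_nl 3 w k
  have w5 := exp_nl 5 w k
  have w2 := exp_nl 2 w k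
  have w4 := exp_nl 4 w k
  have w1 := exp_nl 1 w k
  have v3 := exp_nl 3 w' k
  have v5 := exp_nl 5 w' k
  have v2 := exp_nl 2 w' k
  have v4 := exp_nl 4 w' k
  have v1 := exp_nl 1 w' k
  push_cast at o3 z3 w3 w5 w2 w4 w1 v3 v5 v2 v4 v1
  rw [one_mul] at w1 v1
  rw [zero_mul, neg_zero, Complex.exp_zero, mul_one] at o3
  unfold dPs pr
  rw [show (3 * l - (w - 2 * l) : ℂ) = 5 * l - w by ring, show (-(w - 2 * l) : ℂ) = 2 * l - w by ring,
    show (3 * l - (w - l) : ℂ) = 4 * l - w by ring, show (-(w - l) : ℂ) = l - w by ring,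
    show (3 * l - (w' - 2 * l) : ℂ) = 5 * l - w' by ring, show (-(w' - 2 * l) : ℂ) = 2 * l - w' by ring,
    show (3 * l - (w' - l) : ℂ) = 4 * l - w' by ring, show (-(w' - l) : ℂ) = l - w' by ring,
    o3, z3, w3, w5, w2, w4, w1, v3, v5, v2, v4, v1, exp_0v, exp_0v, exp_0v, exp_0v, zero_mul, neg_zero,
    Complex.exp_zero]
  ring

lemma dMs_x (w w' : ℂ) (k : ℝ) : dMs w w' k = -((Complex.exp (l * k) ^ 2 - Complex.exp (l * k) + 1) *
      (Complex.exp (l * k) ^ 3 + 1) *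
        (Complex.exp (-(w * k)) - Complex.exp (-(w' * k)))) / (sk k : ℂ) := by
  have w5 := exp_nl 5 w k
  have w3 := exp_nl 3 w k
  have w2 := exp_nl 2 w k
  have w4 := exp_nl 4 w k
  have w1 := exp_nl 1 w k
  have v3 := exp_nl 3 w' k
  have v5 := exp_nl 5 w' k
  have v2 := exp_nl 2 w' k
  have v4 := exp_nl 4 w' k
  have v1 := exp_nl 1 w' k
  push_cast at w3 w5 w2 w4 w1 v3 v5 v2 v4 v1
  rw [one_mul] at w1 v1
  unfold dMs pr
  rw [w3, w5, w2, w4, w1, v3, v5, v2, v4, v1, exp_0v, exp_0v]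
  ring

lemma pr_z (w w' : ℂ) (k : ℝ) : pr (3 * l - zz w w') (-zz w w') k =
    (Complex.exp (l * k) ^ 3 - 1) * Complex.exp (-(zz w w' * k)) / (sk k : ℂ) := by
  have z3 := exp_nl 3 (zz w w') k
  push_cast at z3
  unfold pr
  rw [z3, exp_0v]
  ring

lemma sk_ne {k : ℝ} (hk : k ≠ 0) : (sk k : ℂ) ≠ 0 := by
  obtain ⟨x0, x3, x3', x8, x1, x1'⟩ := x_facts hk
  rw [sk_x]
  generalize Complex.exp (l * k) = x at *
  have : (x ^ 4 - (x ^ 4)⁻¹) / 2 = (x ^ 8 - 1) / (2 * x ^ 4) := by field_simp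
  rw [this]
  exact div_ne_zero x8 (mul_ne_zero two_ne_zero (pow_ne_zero _ x0))

lemma sk_negC (k : ℝ) : ((sk (-k) : ℝ) : ℂ) = -(sk k : ℂ) := by
  unfold sk
  rw [mul_neg, Real.sinh_neg]
  push_cast
  rfl

/-- `(1 - cosh (ak)) / (k sinh (πk/2))` -/
def B1 (a : ℂ) (k : ℝ) : ℂ := (1 - Complex.cosh (a * k)) / ((k * Real.sinh (Real.pi / 2 * k) : ℝ) : ℂ)

/-- `(1 - cosh (ak)) / (k sinh (πk/2) (2 cosh (lk) - 1))` -/
def B2 (a : ℂ) (k : ℝ) : ℂ := (1 - Complex.cosh (a * k)) /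
  ((k * Real.sinh (Real.pi / 2 * k) * (2 * Real.cosh (l * k) - 1) : ℝ) : ℂ)

lemma B1_x (a : ℂ) (k : ℝ) : B1 a k = (1 - (Complex.exp (a * k) + (Complex.exp (a * k))⁻¹) / 2) /
    (k * (sk k : ℂ)) := by
  unfold B1 sk
  rw [Complex.cosh, Complex.exp_neg]
  push_cast
  rfl

lemma B2_x (a : ℂ) (k : ℝ) : B2 a k = (1 - (Complex.exp (a * k) + (Complex.exp (a * k))⁻¹) / 2) /
    (k * (sk k : ℂ) * (Complex.exp (l * k) + (Complex.exp (l * k))⁻¹ - 1)) := by
  unfold B2 sk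
  rw [Complex.cosh, Complex.exp_neg]
  congr 1
  push_cast
  rw [Complex.cosh, Complex.exp_neg]
  ring

lemma sym_int {g : ℝ → ℂ} (hg : Integrable g) : ∫ k, g k = ∫ k, 1 / 2 * (g k + g (-k)) := by
  have h1 : ∫ k, g (-k) = ∫ k, g k := integral_neg_eq_self g volume
  rw [integral_const_mul, integral_add hg hg.comp_neg, h1]
  ring

/-- the symbol of `p` -/
def gp (w w' : ℂ) (k : ℝ) : ℂ := 1 / 2 * (pr (3 * l - zz w w') (-zz w w') k * es2 (3 * l) cP (aP w w') (-k))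

/-- the symbol of `q / 2` -/
def gq (w w' : ℂ) (k : ℝ) : ℂ := 1 / 8 * (dPs w w' k * es2 (3 * l) cP (aP w w') (-k) +
  dMs w w' k * es2 (3 * l) cM (aM w w') (-k))

lemma exp_mulk (a b : ℂ) (k : ℝ) : Complex.exp ((a + b) * k) = Complex.exp (a * k) * Complex.exp (b * k) := by
  rw [add_mul, Complex.exp_add]

lemma exp_negk (a : ℂ) (k : ℝ) : Complex.exp (-a * k) = (Complex.exp (a * k))⁻¹ := by
  rw [neg_mul, Complex.exp_neg]

theorem gp_sym {k : ℝ} (hk : k ≠ 0) : 1 / 2 * (gp w w' k + gp w w' (-k)) =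
    4 * (1 / 2 * B2 (zz w w') k) - 4 * (1 / 2 * B2 l k) - 1 / 2 * B1 (w - l - zz w w') k -
      1 / 2 * B1 (w' - l - zz w w') k := by
  obtain ⟨x0, x3, x3', x8, x1, x1'⟩ := x_facts hk
  have x2 := x2_ne k
  have hk0 : (k : ℂ) ≠ 0 := Complex.ofReal_ne_zero.2 hk
  have hS := sk_ne hk
  have e1 : es2 (3 * l) cP (aP w w') (- -k) = (∑ j, cP j * Complex.exp (aP w w' j * k)) /
      ((k * Real.sinh (3 * l * k) : ℝ) : ℂ) := by rw [neg_neg]; rfl
  have hx : Complex.exp (l * k) + (Complex.exp (l * k))⁻¹ - 1 =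
      (Complex.exp (l * k) ^ 2 - Complex.exp (l * k) + 1) / Complex.exp (l * k) := by
    field_simp
    ring
  unfold gp
  rw [e1, numP, Complex.ofReal_mul, s3_x, es2P_neg hk, pr_z, pr_z, x_neg, v_neg, sk_negC, B1_x, B1_x, B2_x, B2_x,
    hx, show w - l - zz w w' = w + (-l) + (-zz w w') by ring, show w' - l - zz w w' = w' + (-l) + (-zz w w') by ring,
    exp_mulk, exp_mulk, exp_mulk, exp_mulk, exp_negk, exp_negk]
  have n1 := Complex.exp_ne_zero (zz w w' * k)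
  have n2 := Complex.exp_ne_zero (w * k)
  have n3 := Complex.exp_ne_zero (w' * k)
  rw [Complex.exp_neg (zz w w' * k), Complex.exp_neg (w * k), Complex.exp_neg (w' * k)]
  generalize Complex.exp (zz w w' * k) = Z at *
  generalize Complex.exp (w * k) = W at *
  generalize Complex.exp (w' * k) = W' at *
  generalize Complex.exp (l * k) = x at *
  generalize (sk k : ℂ) = S at *
  have hx6 : (x ^ 3 - (x ^ 3)⁻¹) / 2 = (x ^ 3 - 1) * ((x + 1) * (x ^ 2 - x + 1)) / (2 * x ^ 3) := by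
    field_simp
    ring
  rw [hx6]
  have hx7 : (x⁻¹) ^ 3 - 1 = -(x ^ 3 - 1) / x ^ 3 := by field_simp; ring
  rw [hx7]
  obtain ⟨y, hy⟩ : ∃ y, y = x ^ 2 - x + 1 := ⟨_, rfl⟩
  obtain ⟨u, hu⟩ : ∃ u, u = x ^ 3 - 1 := ⟨_, rfl⟩
  obtain ⟨v, hv⟩ : ∃ v, v = x + 1 := ⟨_, rfl⟩
  rw [← hy, ← hu, ← hv]
  rw [← hy] at x2
  rw [← hu] at x3
  rw [← hv] at x1'
  field_simp
  rw [hy]
  ring

theorem gq_sym {k : ℝ} (hk : k ≠ 0) : 1 / 2 * (gq w w' k + gq w w' (-k)) =
    1 / 2 * B1 (w - w' + l) k + 1 / 2 * B1 (w - w' - l) k - 1 / 2 * B1 (w - w') k -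
      2 * (1 / 2 * B1 (w - l) k) - 2 * (1 / 2 * B1 (w' - l) k) - 6 * (1 / 2 * B2 l k) -
      (4 * (1 / 2 * B2 (zz w w') k) - 4 * (1 / 2 * B2 l k) - 1 / 2 * B1 (w - l - zz w w') k -
      1 / 2 * B1 (w' - l - zz w w') k) := by
  obtain ⟨x0, x3, x3', x8, x1, x1'⟩ := x_facts hk
  have x2 := x2_ne k
  have hk0 : (k : ℂ) ≠ 0 := Complex.ofReal_ne_zero.2 hk
  have hS := sk_ne hk
  have e1 : es2 (3 * l) cP (aP w w') (- -k) = (∑ j, cP j * Complex.exp (aP w w' j * k)) /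
      ((k * Real.sinh (3 * l * k) : ℝ) : ℂ) := by rw [neg_neg]; rfl
  have e2 : es2 (3 * l) cM (aM w w') (- -k) = (∑ j, cM j * Complex.exp (aM w w' j * k)) /
      ((k * Real.sinh (3 * l * k) : ℝ) : ℂ) := by rw [neg_neg]; rfl
  have hx : Complex.exp (l * k) + (Complex.exp (l * k))⁻¹ - 1 =
      (Complex.exp (l * k) ^ 2 - Complex.exp (l * k) + 1) / Complex.exp (l * k) := by
    field_simp
    ring
  unfold gq
  rw [e1, e2, numP, numM, Complex.ofReal_mul, s3_x, es2P_neg hk, es2M_neg hk, dPs_x, dMs_x, dPs_x, dMs_x,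
    x_neg, v_neg, v_neg, v_neg, sk_negC]
  simp only [B1_x, B2_x]
  rw [hx, show w - l - zz w w' = w + (-l) + (-zz w w') by ring, show w' - l - zz w w' = w' + (-l) + (-zz w w') by ring,
    show w - w' + l = w + (-w') + l by ring, show w - w' - l = w + (-w') + (-l) by ring,
    show w - w' = w + (-w') by ring, show w - l = w + (-l) by ring, show w' - l = w' + (-l) by ring]
  simp only [exp_mulk, exp_negk]
  have n1 := Complex.exp_ne_zero (zz w w' * k)
  have n2 := Complex.exp_ne_zero (w * k)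
  have n3 := Complex.exp_ne_zero (w' * k)
  rw [Complex.exp_neg (zz w w' * k), Complex.exp_neg (w * k), Complex.exp_neg (w' * k)]
  generalize Complex.exp (zz w w' * k) = Z at *
  generalize Complex.exp (w * k) = W at *
  generalize Complex.exp (w' * k) = W' at *
  generalize Complex.exp (l * k) = x at *
  generalize (sk k : ℂ) = S at *
  have hx6 : (x ^ 3 - (x ^ 3)⁻¹) / 2 = (x ^ 3 - 1) * ((x + 1) * (x ^ 2 - x + 1)) / (2 * x ^ 3) := by
    field_simp
    ring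
  rw [hx6]
  have hx7 : (x⁻¹) ^ 3 - 1 = -(x ^ 3 - 1) / x ^ 3 := by field_simp; ring
  have hx8 : (x⁻¹) ^ 2 - x⁻¹ + 1 = (x ^ 2 - x + 1) / x ^ 2 := by field_simp; ring
  have hx9 : (x⁻¹) ^ 3 + 1 = ((x + 1) * (x ^ 2 - x + 1)) / x ^ 3 := by field_simp; ring
  have hx10 : x ^ 3 + 1 = ((x + 1) * (x ^ 2 - x + 1)) := by ring
  rw [hx7, hx8, hx9, hx10]
  obtain ⟨y, hy⟩ : ∃ y, y = x ^ 2 - x + 1 := ⟨_, rfl⟩
  obtain ⟨u, hu⟩ : ∃ u, u = x ^ 3 - 1 := ⟨_, rfl⟩
  obtain ⟨v, hv⟩ : ∃ v, v = x + 1 := ⟨_, rfl⟩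
  have hx11 : x ^ 4 - x = x * u := by rw [hu]; ring
  rw [hx11]
  rw [← hy, ← hu, ← hv]
  rw [← hy] at x2
  rw [← hu] at x3
  rw [← hv] at x1'
  field_simp
  rw [hy]
  ring

/-! ### the integrals -/

lemma exp_ke (k t : ℝ) : ‖Complex.exp ((k * t : ℝ) * Complex.I)‖ = 1 := norm_e _

lemma es2_bdd {f : ℝ → ℂ} {v : ℂ} {k : ℝ} (hf : Integrable f)
    (h : ∫ t, f t * Complex.exp ((k * t : ℝ) * Complex.I) = -Complex.I * v) : ‖v‖ ≤ ∫ t, ‖f t‖ := by
  have h1 : ‖v‖ = ‖∫ t, f t * Complex.exp ((k * t : ℝ) * Complex.I)‖ := by rw [h]; simp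
  rw [h1]
  refine norm_integral_le_of_norm_le hf.norm (Eventually.of_forall fun t => ?_)
  rw [norm_mul, exp_ke, mul_one]

lemma es2_meas {ι : Type*} [Fintype ι] (α : ℝ) (c a : ι → ℂ) : Measurable fun k => es2 α c a (-k) := by
  unfold es2
  fun_prop

lemma intP (h : Geo w w') {m : ℝ → ℂ} (hm : Integrable m) :
    Integrable fun k => m k * es2 (3 * l) cP (aP w w') (-k) := by
  refine hm.mul_bdd (c := ∫ t, ‖bP w w' t‖) (es2_meas _ _ _).aestronglyMeasurable ?_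
  filter_upwards [ae_ne_zero] with k hk
  exact es2_bdd (bP_int h) (bP_ft h hk)

lemma intM (h : Geo w w') {m : ℝ → ℂ} (hm : Integrable m) :
    Integrable fun k => m k * es2 (3 * l) cM (aM w w') (-k) := by
  refine hm.mul_bdd (c := ∫ t, ‖bM w w' t‖) (es2_meas _ _ _).aestronglyMeasurable ?_
  filter_upwards [ae_ne_zero] with k hk
  exact es2_bdd (bM_int h) (bM_ft h hk)

lemma B1_int {a : ℂ} (ha : |a.re| < 4 * l) : Integrable (B1 a) ∧ ∫ k, B1 a k = 2 * F1 a := by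
  rw [four_l] at ha
  refine ⟨F1_int ha, ?_⟩
  have h : F1 a = 1 / 2 * ∫ k, B1 a k := rfl
  rw [h]
  ring

lemma B2_int {a : ℂ} (ha : |a.re| < 5 * l) : Integrable (B2 a) ∧ ∫ k, B2 a k = 2 * F2 a := by
  refine ⟨F2_int ha, ?_⟩
  have h : F2 a = 1 / 2 * ∫ k, B2 a k := rfl
  rw [h]
  ring

/-- integrable with integral `v` -/
def HI (f : ℝ → ℂ) (v : ℂ) : Prop := Integrable f ∧ ∫ k, f k = v

lemma HI.add {f g : ℝ → ℂ} {u v : ℂ} (h1 : HI f u) (h2 : HI g v) : HI (fun k => f k + g k) (u + v) :=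
  ⟨h1.1.add h2.1, by rw [integral_add h1.1 h2.1, h1.2, h2.2]⟩

lemma HI.sub {f g : ℝ → ℂ} {u v : ℂ} (h1 : HI f u) (h2 : HI g v) : HI (fun k => f k - g k) (u - v) :=
  ⟨h1.1.sub h2.1, by rw [integral_sub h1.1 h2.1, h1.2, h2.2]⟩

lemma HI.const {f : ℝ → ℂ} {u : ℂ} (c : ℂ) (h1 : HI f u) : HI (fun k => c * f k) (c * u) :=
  ⟨h1.1.const_mul c, by rw [integral_const_mul, h1.2]⟩

lemma HI_B1 {a : ℂ} (ha : |a.re| < 4 * l) : HI (fun k => 1 / 2 * B1 a k) (F1 a) := by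
  have h := (show HI (B1 a) _ from B1_int ha).const (1 / 2)
  rwa [show 1 / 2 * (2 * F1 a) = F1 a by ring] at h

lemma HI_B2 {a : ℂ} (ha : |a.re| < 5 * l) : HI (fun k => 1 / 2 * B2 a k) (F2 a) := by
  have h := (show HI (B2 a) _ from B2_int ha).const (1 / 2)
  rwa [show 1 / 2 * (2 * F2 a) = F2 a by ring] at h

lemma sym_HI {g s : ℝ → ℂ} {v : ℂ} (hg : Integrable g) (hs : HI s v)
    (h : ∀ k, k ≠ 0 → 1 / 2 * (g k + g (-k)) = s k) : ∫ k, g k = v := by
  rw [sym_int hg, ← hs.2]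
  refine integral_congr_ae ?_
  filter_upwards [ae_ne_zero] with k hk
  exact h k hk

lemma re_half (v : ℂ) : (v / 2).re = v.re / 2 := by simp

lemma HP (h : Geo w w') : HI (fun k => 4 * (1 / 2 * B2 (zz w w') k) - 4 * (1 / 2 * B2 l k) -
      1 / 2 * B1 (w - l - zz w w') k - 1 / 2 * B1 (w' - l - zz w w') k)
    (4 * F2 (zz w w') - 4 * F2 l - F1 (w - l - zz w w') - F1 (w' - l - zz w w')) := by
  have hl := l_pos
  have hz := zz_re w w'
  obtain ⟨h1, h2, h3, h4⟩ := h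
  have c1 : |(zz w w').re| < 5 * l := abs_lt.2 (by constructor <;> rw [hz] <;> linarith)
  have c2 : |(l : ℂ).re| < 5 * l := abs_lt.2 (by constructor <;> rw [Complex.ofReal_re] <;> linarith)
  have c3 : |(w - l - zz w w').re| < 4 * l := abs_lt.2 (by constructor <;> simp [hz] <;> linarith)
  have c4 : |(w' - l - zz w w').re| < 4 * l := abs_lt.2 (by constructor <;> simp [hz] <;> linarith)
  exact ((((HI_B2 c1).const 4).sub ((HI_B2 c2).const 4)).sub (HI_B1 c3)).sub (HI_B1 c4)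

lemma HQ (h : Geo w w') : HI (fun k => 1 / 2 * B1 (w - w' + l) k + 1 / 2 * B1 (w - w' - l) k -
      1 / 2 * B1 (w - w') k - 2 * (1 / 2 * B1 (w - l) k) - 2 * (1 / 2 * B1 (w' - l) k) -
      6 * (1 / 2 * B2 l k))
    (F1 (w - w' + l) + F1 (w - w' - l) - F1 (w - w') - 2 * F1 (w - l) - 2 * F1 (w' - l) - 6 * F2 l) := by
  have hl := l_pos
  obtain ⟨h1, h2, h3, h4⟩ := h
  have c1 : |(w - w' + l).re| < 4 * l := abs_lt.2 (by constructor <;> simp <;> linarith)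
  have c2 : |(w - w' - l).re| < 4 * l := abs_lt.2 (by constructor <;> simp <;> linarith)
  have c3 : |(w - w').re| < 4 * l := abs_lt.2 (by constructor <;> simp <;> linarith)
  have c4 : |(w - l).re| < 4 * l := abs_lt.2 (by constructor <;> simp <;> linarith)
  have c5 : |(w' - l).re| < 4 * l := abs_lt.2 (by constructor <;> simp <;> linarith)
  have c6 : |(l : ℂ).re| < 5 * l := abs_lt.2 (by constructor <;> rw [Complex.ofReal_re] <;> linarith)
  exact (((((HI_B1 c1).add (HI_B1 c2)).sub (HI_B1 c3)).sub ((HI_B1 c4).const 2)).sub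
    ((HI_B1 c5).const 2)).sub ((HI_B2 c6).const 6)

/-- `p = ∫ β₊ D_z'` -/
def pI (w w' : ℂ) : ℂ := ∫ t, bP w w' t * eT (zz w w') t

/-- `q = (1/2) ∫ (β₊ Δ₊' + β₋ Δ₋')` -/
def qI (w w' : ℂ) : ℂ := 1 / 2 * ((∫ t, bP w w' t * dP w w' t) + ∫ t, bM w w' t * dM w w' t)

lemma prz_int (h : Geo w w') : Integrable (pr (3 * l - zz w w') (-zz w w')) := by
  have hl := l_pos
  have hz := zz_re w w'
  obtain ⟨h1, h2, h3, h4⟩ := h
  have c1 : |(3 * l - zz w w').re| < 4 * l := abs_lt.2 (by constructor <;> simp [hz] <;> linarith)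
  have c2 : |(-zz w w').re| < 4 * l := abs_lt.2 (by constructor <;> simp [hz] <;> linarith)
  rw [four_l] at c1 c2
  exact pr_int c1 c2

lemma eT_ift (h : Geo w w') (t : ℝ) : eT (zz w w') t =
    ift (fun k => Complex.I * Real.pi * pr (3 * l - zz w w') (-zz w w') k) t := by
  have hl := l_pos
  have hz := zz_re w w'
  obtain ⟨h1, h2, h3, h4⟩ := h
  have c1 : |(3 * l - zz w w').re| < 4 * l := abs_lt.2 (by constructor <;> simp [hz] <;> linarith)
  have c2 : |(-zz w w').re| < 4 * l := abs_lt.2 (by constructor <;> simp [hz] <;> linarith)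
  rw [ift_const, ift_prT c1 c2]
  rfl

lemma dPs_int (h : Geo w w') : Integrable (dPs w w') := by
  have h1 := (dPs_IF h 0).1.const_mul (Complex.I * Real.pi)⁻¹
  refine h1.congr (Eventually.of_forall fun k => ?_)
  have hp : (Real.pi : ℂ) ≠ 0 := Complex.ofReal_ne_zero.2 Real.pi_ne_zero
  have hI := Complex.I_ne_zero
  simp only
  field_simp

lemma dMs_int (h : Geo w w') : Integrable (dMs w w') := by
  have h1 := (dMs_IF h 0).1.const_mul (Complex.I * Real.pi)⁻¹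
  refine h1.congr (Eventually.of_forall fun k => ?_)
  have hp : (Real.pi : ℂ) ≠ 0 := Complex.ofReal_ne_zero.2 Real.pi_ne_zero
  have hI := Complex.I_ne_zero
  simp only
  field_simp

lemma gp_int (h : Geo w w') : Integrable (gp w w') := by
  have h1 := (intP h (prz_int h)).const_mul (1 / 2 : ℂ)
  exact h1

lemma gq_int (h : Geo w w') : Integrable (gq w w') := by
  have h1 := ((intP h (dPs_int h)).add (intM h (dMs_int h))).const_mul (1 / 8 : ℂ)
  exact h1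

/-- **`p` in closed form** -/
theorem pI_eq (h : Geo w w') :
    pI w w' = 4 * F2 (zz w w') - 4 * F2 l - F1 (w - l - zz w w') - F1 (w' - l - zz w w') := by
  have h1 : pI w w' = ∫ k, gp w w' k := by
    unfold pI
    simp_rw [eT_ift h]
    rw [pairP h (prz_int h), ← integral_const_mul]
    rfl
  rw [h1]
  exact sym_HI (gp_int h) (HP h) fun k hk => gp_sym hk

lemma qI_half (h : Geo w w') : 1 / 2 * qI w w' = ∫ k, gq w w' k := by
  have e1 : ∫ t, bP w w' t * dP w w' t = 1 / 2 * ∫ k, dPs w w' k * es2 (3 * l) cP (aP w w') (-k) := by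
    rw [← pairP h (dPs_int h)]
    refine integral_congr_ae (Eventually.of_forall fun t => ?_)
    simp only
    rw [(dPs_IF h t).2]
  have e2 : ∫ t, bM w w' t * dM w w' t = 1 / 2 * ∫ k, dMs w w' k * es2 (3 * l) cM (aM w w') (-k) := by
    rw [← pairM h (dMs_int h)]
    refine integral_congr_ae (Eventually.of_forall fun t => ?_)
    simp only
    rw [(dMs_IF h t).2]
  unfold qI gq
  rw [e1, e2, integral_const_mul, integral_add (intP h (dPs_int h)) (intM h (dMs_int h))]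
  ring

/-- **`p + q/2` in closed form** -/
theorem gI_eq (h : Geo w w') : pI w w' + 1 / 2 * qI w w' =
    F1 (w - w' + l) + F1 (w - w' - l) - F1 (w - w') - 2 * F1 (w - l) - 2 * F1 (w' - l) - 6 * F2 l := by
  rw [pI_eq h, qI_half h, sym_HI (gq_int h) ((HQ h).sub (HP h)) fun k hk => gq_sym hk]
  ring

end

end PBT3
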