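import Pool.Agent.PB.TraceP
import Pool.Agent.NUE.Inst

/-!
# Plan B: the trace part of the value of the Ward identity, mode X - Y

`Km = Kw - Kg` (`→ ± 4` at `± ∞`), `Gs = - Kg`, `Um` the symbol of the mode.

* `ft_dG`: `∫ Gs'(u) e^{-iqu} du = q² Lh q`;
* `corr`: `∫ f'(s + v) h(s) ds`, its derivative and transform;
* **`trM`**: for `(r t - r s) Km (t - s) = a t s + u t σ s + σ t u s + 2 J (1 - σ t σ s)`, `a` integrable,
  `u(± ∞) = 0`, `σ(± ∞) = ± 1`, `J = r₊ - r₋`:
  `a^(q,-q) + (u'^(q) σ'^(-q) + σ'^(q) u'^(-q) - 2 J σ'^(q) σ'^(-q)) / q² = J (Um q + q Um' q)`;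
* **`trace_minus`**: the trace `= - J / 6`.
-/

set_option autoImplicit false

open MeasureTheory Set Filter Topology

namespace Pool.Agent.PB

open NUMF

noncomputable section

/-! ### the long range kernel -/

/-- `- (log g)'` -/
def Gs (u : ℝ) : ℝ := -Kg u

/-- its derivative -/
def dGs (u : ℝ) : ℝ := 8 * (1 + r * Real.cosh (2 * u)) / (Real.cosh (2 * u) + r) ^ 2 -
  4 / (Real.cosh (2 * u) + 1)

lemma hasDerivAt_Gs (u : ℝ) : HasDerivAt Gs (dGs u) u := by
  have hr := r_pos
  have hc := Real.one_le_cosh (2 * u)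
  have h2 : HasDerivAt (fun u : ℝ => 2 * u) 2 u := by simpa using (hasDerivAt_id u).const_mul 2
  have hs : HasDerivAt (fun u : ℝ => Real.sinh (2 * u)) (Real.cosh (2 * u) * 2) u := h2.sinh
  have hch : HasDerivAt (fun u : ℝ => Real.cosh (2 * u)) (Real.sinh (2 * u) * 2) u := h2.cosh
  have a1 := (hs.const_mul 2).div (hch.add_const 1) (by positivity)
  have a2 := (hs.const_mul 4).div (hch.add_const r) (by positivity)
  have a3 := (a1.sub a2).neg
  have e : Gs = -((fun u => 2 * Real.sinh (2 * u)) / (fun u => Real.cosh (2 * u) + 1) -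
      (fun u => 4 * Real.sinh (2 * u)) / fun u => Real.cosh (2 * u) + r) := by
    funext u
    rfl
  rw [e]
  refine a3.congr_deriv ?_
  unfold dGs
  have h3 := Real.cosh_sq (2 * u)
  have p1 : Real.cosh (2 * u) + 1 ≠ 0 := by positivity
  have p2 : Real.cosh (2 * u) + r ≠ 0 := by positivity
  have q1 : (2 * (Real.cosh (2 * u) * 2) * (Real.cosh (2 * u) + 1) -
      2 * Real.sinh (2 * u) * (Real.sinh (2 * u) * 2)) / (Real.cosh (2 * u) + 1) ^ 2 =
      4 / (Real.cosh (2 * u) + 1) := by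
    rw [div_eq_div_iff (by positivity) p1]
    linear_combination (4 * (Real.cosh (2 * u) + 1)) * h3
  have q2 : (4 * (Real.cosh (2 * u) * 2) * (Real.cosh (2 * u) + r) -
      4 * Real.sinh (2 * u) * (Real.sinh (2 * u) * 2)) / (Real.cosh (2 * u) + r) ^ 2 =
      8 * (1 + r * Real.cosh (2 * u)) / (Real.cosh (2 * u) + r) ^ 2 := by
    congr 1
    linear_combination 8 * h3
  rw [q1, q2]
  ring

lemma dGs_le (u : ℝ) : |dGs u| ≤ 40 * Real.exp (-(2 * |u|)) := by
  have hr := r_pos
  have hr1 := r_lt_one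
  have hc := Real.one_le_cosh (2 * u)
  have he : Real.exp (2 * |u|) ≤ 2 * Real.cosh (2 * u) := by
    have h1 : Real.cosh (2 * u) = Real.cosh (2 * |u|) := by
      rw [← Real.cosh_abs (2 * u), abs_mul, abs_two]
    rw [h1, Real.cosh_eq]
    have := Real.exp_pos (-(2 * |u|))
    linarith
  set C := Real.cosh (2 * u) with hC
  have hC0 : 0 < C := by linarith
  have a1 : 8 * (1 + r * C) / (C + r) ^ 2 ≤ 16 / C := by
    rw [div_le_div_iff₀ (by positivity) hC0]
    have k1 : 0 ≤ C * (C - 1) := mul_nonneg hC0.le (by linarith)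
    have k2 : 0 ≤ (1 - r) * C ^ 2 := mul_nonneg (by linarith) (sq_nonneg C)
    have k3 : 0 ≤ r * C := by positivity
    nlinarith [sq_nonneg r]
  have a1' : 0 ≤ 8 * (1 + r * C) / (C + r) ^ 2 := by positivity
  have a2 : 4 / (C + 1) ≤ 4 / C := div_le_div_of_nonneg_left (by norm_num) hC0 (by linarith)
  have a2' : 0 ≤ 4 / (C + 1) := by positivity
  have a3 : 16 / C ≤ 40 * Real.exp (-(2 * |u|)) := by
    rw [div_le_iff₀ hC0, Real.exp_neg]
    have h1 := Real.exp_pos (2 * |u|)
    rw [mul_assoc, inv_mul_eq_div, mul_div_assoc', le_div_iff₀ h1]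
    linarith
  have a4 : 4 / C ≤ 40 * Real.exp (-(2 * |u|)) := by
    refine le_trans ?_ a3
    exact div_le_div_of_nonneg_right (by norm_num) hC0.le
  unfold dGs
  rw [abs_le]
  constructor <;> linarith

lemma dGs_even (u : ℝ) : dGs (-u) = dGs u := by
  unfold dGs
  rw [mul_neg, Real.cosh_neg]

lemma Gs_cont : Continuous Gs := continuous_iff_continuousAt.2 fun u => (hasDerivAt_Gs u).continuousAt

lemma dGs_cont : Continuous dGs := by
  unfold dGs
  have hr := r_pos
  have h1 : ∀ u, (Real.cosh (2 * u) + r) ^ 2 ≠ 0 := fun u => by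
    have := Real.cosh_pos (2 * u)
    positivity
  have h2 : ∀ u, Real.cosh (2 * u) + 1 ≠ 0 := fun u => by
    have := Real.cosh_pos (2 * u)
    positivity
  exact (Continuous.div (by fun_prop) (by fun_prop) h1).sub (Continuous.div (by fun_prop) (by fun_prop) h2)

lemma Gs_lgm (u : ℝ) : HasDerivAt NUE.lgm (Gs u) u := by
  have h := (hasDerivAt_log_g u).const_sub (Real.log (g 0))
  exact h

/-- `k² Lh k` -/
def L2 (k : ℝ) : ℝ := k ^ 2 * Lh k

lemma L2_eq {k : ℝ} (hk : 0 < k) : L2 k = 2 * Real.pi * ((2 * ck1 k - 1) * (k / sk k)) := by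
  have := (sk_pos hk).ne'
  unfold L2 Lh
  field_simp

lemma L2_nonneg {k : ℝ} (hk : 0 < k) : 0 ≤ L2 k := by
  unfold L2
  have := (Lh_pos hk.ne').le
  positivity

lemma L2_le {k : ℝ} (hk : 0 < k) : L2 k ≤ 4 * Real.pi * dom l k := by
  have hpi := Real.pi_pos
  rw [L2_eq hk]
  unfold dom
  have h1 : 0 < k / sk k := div_pos hk (sk_pos hk)
  have h2 : ck1 k ≤ Real.exp (l * k) := by
    unfold ck1
    exact cosh_le_exp (le_of_eq (abs_of_pos (mul_pos l_pos hk)))
  have h3 : (2 * ck1 k - 1) * (k / sk k) ≤ 2 * Real.exp (l * k) * (k / sk k) :=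
    mul_le_mul_of_nonneg_right (by linarith) h1.le
  calc 2 * Real.pi * ((2 * ck1 k - 1) * (k / sk k)) ≤ 2 * Real.pi * (2 * Real.exp (l * k) * (k / sk k)) := by
        gcongr
    _ = _ := by ring

lemma L2_meas : Measurable L2 := by
  unfold L2
  have := NUE.Lh_meas
  fun_prop

lemma L2_int : IntegrableOn L2 (Ioi 0) := by
  have hl : l < Real.pi / 2 := by
    have := Real.pi_pos
    unfold l
    linarith
  refine Integrable.mono' ((dom_integrable hl).const_mul (4 * Real.pi)) L2_meas.aestronglyMeasurable ?_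
  filter_upwards [ae_restrict_mem measurableSet_Ioi] with k hk
  have hk' : 0 < k := hk
  rw [Real.norm_eq_abs, abs_of_nonneg (L2_nonneg hk')]
  exact L2_le hk'

/-- first derivative of the representation of `lgm` -/
lemma Gs_fourier (t : ℝ) : IntegrableOn (fun k => k * Real.sin (k * t) * Lh k) (Ioi 0) ∧
    Gs t = 1 / Real.pi * ∫ k in Ioi (0:ℝ), k * Real.sin (k * t) * Lh k := by
  have hb : ∀ k, 0 < k → ∀ x ∈ Metric.ball t 1, ‖k * Real.sin (k * x) * Lh k‖ ≤ (|t| + 1) * L2 k := by
    intro k hk x hx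
    have hx' : |x - t| < 1 := by simpa [Real.dist_eq] using hx
    have hL := Lh_pos hk.ne'
    have h1 : |Real.sin (k * x)| ≤ k * (|t| + 1) := by
      refine Real.abs_sin_le_abs.trans ?_
      rw [abs_mul, abs_of_pos hk]
      have h2 : |x| ≤ |t| + 1 := by
        have := abs_sub_abs_le_abs_sub x t
        linarith
      gcongr
    rw [norm_mul, norm_mul, Real.norm_eq_abs, Real.norm_eq_abs, Real.norm_eq_abs, abs_of_pos hk,
      abs_of_pos hL]
    unfold L2
    calc k * |Real.sin (k * x)| * Lh k ≤ k * (k * (|t| + 1)) * Lh k := by gcongr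
      _ = _ := by ring
  have hLm := NUE.Lh_meas
  have h := hasDerivAt_integral_of_dominated_loc_of_deriv_le (μ := volume.restrict (Ioi (0:ℝ)))
    (s := Metric.ball t 1)
    (F := fun t k => (1 - Real.cos (k * t)) * Lh k) (F' := fun t k => k * Real.sin (k * t) * Lh k)
    (x₀ := t) (bound := fun k => (|t| + 1) * L2 k) (Metric.ball_mem_nhds t one_pos)
    (Eventually.of_forall fun t => (NUE.lgm_fourier t).1.aestronglyMeasurable)
    (NUE.lgm_fourier t).1
    (Measurable.aestronglyMeasurable (by fun_prop))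
    ((ae_restrict_mem measurableSet_Ioi).mono fun k hk => hb k hk)
    (L2_int.const_mul _)
    (Eventually.of_forall fun k x _ => by
      have h1 : HasDerivAt (fun t : ℝ => k * t) k x := by simpa using (hasDerivAt_id x).const_mul k
      have h2 := ((h1.cos).const_sub 1).mul_const (Lh k)
      refine h2.congr_deriv ?_
      ring)
  refine ⟨h.1, ?_⟩
  have h2 : HasDerivAt NUE.lgm (1 / Real.pi * ∫ k in Ioi (0:ℝ), k * Real.sin (k * t) * Lh k) t := by
    have h3 := h.2.const_mul (1 / Real.pi)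
    have e : NUE.lgm = fun t => 1 / Real.pi * ∫ k in Ioi (0:ℝ), (1 - Real.cos (k * t)) * Lh k := by
      funext t
      exact (NUE.lgm_fourier t).2
    rw [e]
    exact h3
  exact (Gs_lgm t).unique h2

/-- second derivative -/
lemma dGs_fourier (t : ℝ) : dGs t = ∫ k in Ioi (0:ℝ), 2 * Real.cos (t * k) * (L2 k / (2 * Real.pi)) := by
  have hpi := Real.pi_pos
  have hb : ∀ k, 0 < k → ∀ x ∈ (univ : Set ℝ), ‖Real.cos (k * x) * L2 k‖ ≤ L2 k := by
    intro k hk x _
    rw [norm_mul, Real.norm_eq_abs, Real.norm_eq_abs, abs_of_nonneg (L2_nonneg hk)]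
    have := Real.abs_cos_le_one (k * x)
    have := L2_nonneg hk
    nlinarith
  have hLm := NUE.Lh_meas
  have hL2 := L2_meas
  have h := hasDerivAt_integral_of_dominated_loc_of_deriv_le (μ := volume.restrict (Ioi (0:ℝ)))
    (s := univ)
    (F := fun t k => k * Real.sin (k * t) * Lh k) (F' := fun t k => Real.cos (k * t) * L2 k)
    (x₀ := t) (bound := fun k => L2 k) univ_mem
    (Eventually.of_forall fun t => (Gs_fourier t).1.aestronglyMeasurable)
    (Gs_fourier t).1
    (Measurable.aestronglyMeasurable (by fun_prop))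
    ((ae_restrict_mem measurableSet_Ioi).mono fun k hk => hb k hk)
    L2_int
    (Eventually.of_forall fun k x _ => by
      have h1 : HasDerivAt (fun t : ℝ => k * t) k x := by simpa using (hasDerivAt_id x).const_mul k
      have h2 := ((h1.sin).const_mul k).mul_const (Lh k)
      refine h2.congr_deriv ?_
      unfold L2
      ring)
  have h2 : HasDerivAt Gs (1 / Real.pi * ∫ k in Ioi (0:ℝ), Real.cos (k * t) * L2 k) t := by
    have h3 := h.2.const_mul (1 / Real.pi)
    have e : Gs = fun t => 1 / Real.pi * ∫ k in Ioi (0:ℝ), k * Real.sin (k * t) * Lh k := by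
      funext t
      exact (Gs_fourier t).2
    rw [e]
    exact h3
  rw [(hasDerivAt_Gs t).unique h2, ← integral_const_mul]
  refine setIntegral_congr_fun measurableSet_Ioi fun k _ => ?_
  rw [mul_comm t k]
  field_simp

/-- `Gs'` as a complex function -/
def dGC (u : ℝ) : ℂ := (dGs u : ℂ)

lemma dGs_int : Integrable dGs := by
  refine (int_exp_one.const_mul 40).mono' dGs_cont.aestronglyMeasurable
    (Eventually.of_forall fun u => (dGs_le u).trans ?_)
  have : Real.exp (-(2 * |u|)) ≤ Real.exp (-|u|) := Real.exp_le_exp.2 (by linarith [abs_nonneg u])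
  linarith

lemma dGC_int : Integrable dGC := dGs_int.ofReal

lemma dGC_even (t : ℝ) : dGC (-t) = dGC t := by
  unfold dGC
  rw [dGs_even]

lemma ft_even_real {f : ℝ → ℝ} (hi : Integrable f) (he : ∀ t, f (-t) = f t) (q : ℝ) :
    ft (fun t => (f t : ℂ)) q = ((∫ t, f t * Real.cos (q * t) : ℝ) : ℂ) := by
  have hC : Integrable fun t => (f t : ℂ) := hi.ofReal
  have hev : ∀ t, ((f (-t) : ℝ) : ℂ) = (f t : ℂ) := fun t => by rw [he]
  have e : ft (fun t => (f t : ℂ)) q = (ft (fun t => (f t : ℂ)) q + ft (fun t => (f t : ℂ)) (-q)) / 2 := by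
    rw [ft_even hev]
    ring
  rw [e]
  unfold ft
  rw [← integral_add (mul_ek_int hC q) (mul_ek_int hC (-q)), ← integral_div, ← integral_complex_ofReal]
  refine integral_congr_ae (Eventually.of_forall fun t => ?_)
  simp only
  unfold ek
  have hc : ((Real.cos (q * t) : ℝ) : ℂ) = (Complex.exp (((q * t : ℝ) : ℂ) * Complex.I) +
      Complex.exp (-(((q * t : ℝ) : ℂ) * Complex.I))) / 2 := by
    rw [Complex.ofReal_cos, Complex.cos]
    congr 3
    ring
  rw [show ((-(q * t) : ℝ) : ℂ) * Complex.I = -(((q * t : ℝ) : ℂ) * Complex.I) by push_cast; ring,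
    show ((-(-q * t) : ℝ) : ℂ) * Complex.I = ((q * t : ℝ) : ℂ) * Complex.I by push_cast; ring,
    show ((f t * Real.cos (q * t) : ℝ) : ℂ) = (f t : ℂ) * ((Real.cos (q * t) : ℝ) : ℂ) from
      Complex.ofReal_mul _ _, hc]
  ring

lemma Lh_contAt {q : ℝ} (hq : 0 < q) : ContinuousAt (fun k => L2 k / (2 * Real.pi)) q := by
  have h1 : ContinuousAt sk q := by
    unfold sk
    fun_prop
  have h2 : ContinuousAt ck1 q := by
    unfold ck1
    fun_prop
  have h3 : q * sk q ≠ 0 := (ksk_pos hq.ne').ne'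
  unfold L2 Lh
  have h4 : ContinuousAt (fun k => (2 * ck1 k - 1) / (k * sk k)) q := by
    refine ContinuousAt.div (by fun_prop) (by fun_prop) h3
  fun_prop

lemma Lh_even (k : ℝ) : Lh (-k) = Lh k := by
  unfold Lh sk ck1
  rw [mul_neg, Real.cosh_neg, mul_neg, Real.sinh_neg]
  ring

lemma ft_dG_pos {q : ℝ} (hq : 0 < q) : ft dGC q = ((L2 q : ℝ) : ℂ) := by
  have hpi := Real.pi_pos
  have h1 := cos_inversion (m := fun k => L2 k / (2 * Real.pi)) (F := dGs)
    (L2_int.div_const _) dGs_int dGs_fourier hq (Lh_contAt hq)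
  have h2 := ft_even_real dGs_int dGs_even q
  have h3 : ft dGC q = ft (fun t => (dGs t : ℂ)) q := rfl
  rw [h3, h2, h1]
  congr 1
  field_simp

/-- **transform of `Gs'`** -/
theorem ft_dG {q : ℝ} (hq : q ≠ 0) : ft dGC q = ((q ^ 2 * Lh q : ℝ) : ℂ) := by
  rcases lt_or_gt_of_ne hq with h | h
  · have := ft_dG_pos (q := -q) (by linarith)
    rw [ft_even dGC_even] at this
    rw [this]
    unfold L2
    rw [Lh_even, neg_sq]
  · exact ft_dG_pos h

end

end Pool.Agent.PB
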