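import Pool.Agent.PB.TraceM

/-!
# Plan B: the trace part of the value of the Ward identity, mode X - Y, second part

See `PB/TraceM`.
-/

set_option autoImplicit false

open MeasureTheory Set Filter Topology

namespace Pool.Agent.PB

open NUMF

noncomputable section

/-! ### one function and its derivative -/

/-- transform of the derivative -/
theorem ft_deriv {φ φ' : ℝ → ℂ} (hd : ∀ v, HasDerivAt φ (φ' v) v) (hi : Integrable φ)
    (hi' : Integrable φ') (q : ℝ) : ft φ' q = (q * Complex.I) * ft φ q := by
  have h1 : Integrable (ek q * φ') := by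
    refine (mul_ek_int hi' q).congr (Eventually.of_forall fun t => ?_)
    simp only [Pi.mul_apply]
    ring
  have h2 : Integrable ((fun t => -(q * Complex.I) * ek q t) * φ) := by
    refine ((mul_ek_int hi q).const_mul (-(q * Complex.I))).congr (Eventually.of_forall fun t => ?_)
    simp only [Pi.mul_apply]
    ring
  have h3 : Integrable (ek q * φ) := by
    refine (mul_ek_int hi q).congr (Eventually.of_forall fun t => ?_)
    simp only [Pi.mul_apply]
    ring
  have h := integral_mul_deriv_eq_deriv_mul_of_integrable (u := ek q)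
    (u' := fun t => -(q * Complex.I) * ek q t) (v := φ) (v' := φ')
    (fun t _ => hasDerivAt_ek_t q t) (fun t _ => hd t) h1 h2 h3
  unfold ft
  rw [← integral_const_mul]
  have e1 : ∫ t, φ' t * ek q t = ∫ t, ek q t * φ' t :=
    integral_congr_ae (Eventually.of_forall fun t => mul_comm _ _)
  rw [e1, h, ← integral_neg]
  refine integral_congr_ae (Eventually.of_forall fun t => ?_)
  simp only
  ring

lemma decay_pos {φ φ' : ℝ → ℂ} {C : ℝ} (hd : ∀ v, HasDerivAt φ (φ' v) v) (hc : Continuous φ')
    (hb : ∀ v, ‖φ' v‖ ≤ C * Real.exp (-(|v| / 4))) (top : Tendsto φ atTop (𝓝 0)) {v : ℝ}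
    (hv : 0 ≤ v) : ‖φ v‖ ≤ 4 * C * Real.exp (-(|v| / 4)) := by
  have hE : IntegrableOn (fun x : ℝ => C * Real.exp (-(1 / 4) * x)) (Ioi v) :=
    (exp_neg_integrableOn_Ioi v (by norm_num : (0:ℝ) < 1 / 4)).const_mul C
  have hb' : ∀ x ∈ Ioi v, ‖φ' x‖ ≤ C * Real.exp (-(1 / 4) * x) := by
    intro x hx
    have hx' : v < x := hx
    refine (hb x).trans (le_of_eq ?_)
    rw [abs_of_pos (hv.trans_lt hx')]
    congr 2
    ring
  have hi : IntegrableOn φ' (Ioi v) :=
    Integrable.mono' hE hc.aestronglyMeasurable ((ae_restrict_mem measurableSet_Ioi).mono hb')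
  have h := integral_Ioi_of_hasDerivAt_of_tendsto' (fun x _ => hd x) hi top
  have h2 : ‖∫ x in Ioi v, φ' x‖ ≤ ∫ x in Ioi v, C * Real.exp (-(1 / 4) * x) :=
    norm_integral_le_of_norm_le hE ((ae_restrict_mem measurableSet_Ioi).mono hb')
  rw [h, zero_sub, norm_neg, integral_const_mul, integral_exp_mul_Ioi (by norm_num) v] at h2
  refine h2.trans (le_of_eq ?_)
  rw [abs_of_nonneg hv]
  have e : -(1 / 4) * v = -(v / 4) := by ring
  rw [e]
  ring

/-- decay from the decay of the derivative -/
theorem decay_of {φ φ' : ℝ → ℂ} {C : ℝ} (hd : ∀ v, HasDerivAt φ (φ' v) v) (hc : Continuous φ')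
    (hb : ∀ v, ‖φ' v‖ ≤ C * Real.exp (-(|v| / 4))) (top : Tendsto φ atTop (𝓝 0))
    (bot : Tendsto φ atBot (𝓝 0)) (v : ℝ) : ‖φ v‖ ≤ 4 * C * Real.exp (-(|v| / 4)) := by
  rcases le_or_gt 0 v with h | h
  · exact decay_pos hd hc hb top h
  · have hd' : ∀ x, HasDerivAt (fun x => φ (-x)) (-φ' (-x)) x := by
      intro x
      have h1 : HasDerivAt (fun x : ℝ => -x) (-1) x := hasDerivAt_neg x
      have h2 := (hd (-x)).scomp x h1
      exact h2.congr_deriv (by simp)
    have := decay_pos (φ := fun x => φ (-x)) (φ' := fun x => -φ' (-x)) (C := C) hd'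
      ((hc.comp continuous_neg).neg) (fun x => by
        rw [norm_neg]
        have := hb (-x)
        rwa [abs_neg] at this)
      (bot.comp tendsto_neg_atTop_atBot) (v := -v) (by linarith)
    simpa using this

lemma int_exp_quarter : Integrable fun s : ℝ => Real.exp (-(|s| / 4)) := by
  refine (int_exp_abs (b := 1 / 4) (by norm_num)).congr (Eventually.of_forall fun s => ?_)
  simp only
  congr 1
  ring

lemma exp_half_le (s : ℝ) : Real.exp (-(|s| / 2)) ≤ Real.exp (-(|s| / 4)) :=
  Real.exp_le_exp.2 (by linarith [abs_nonneg s])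

variable {f f' h h' : ℝ → ℂ} {B : ℝ} {fp fm hp hm : ℂ}

/-- a function with limits `0` is integrable -/
lemma Lim.int_zero (hf : Lim f f' B 0 0) : Integrable f := by
  have hB := hf.B_nonneg
  refine (int_exp_quarter.const_mul (4 * B)).mono' hf.cont.aestronglyMeasurable
    (Eventually.of_forall fun v => ?_)
  exact decay_of hf.d hf.c (fun v => (hf.b' v).trans
    (mul_le_mul_of_nonneg_left (exp_half_le v) hB)) hf.top hf.bot v

/-! ### correlation -/

/-- correlation of `f'` and `h` -/
def cor (f' h : ℝ → ℂ) (v : ℝ) : ℂ := ∫ s, f' (s + v) * h s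

lemma cor_eq (f' h : ℝ → ℂ) (v : ℝ) : cor f' h v = ∫ s, f' s * h (s - v) := by
  unfold cor
  rw [← integral_add_right_eq_self (fun s => f' s * h (s - v)) v]
  refine integral_congr_ae (Eventually.of_forall fun s => ?_)
  simp only [add_sub_cancel_right]

/-- its derivative -/
def cor' (f' h' : ℝ → ℂ) (v : ℝ) : ℂ := -∫ s, f' s * h' (s - v)

lemma cor_hasDerivAt (hf : Lim f f' B fp fm) (hh : Lim h h' B hp hm) (v : ℝ) :
    HasDerivAt (cor f' h) (cor' f' h' v) v := by
  have hB := hf.B_nonneg
  have e : cor f' h = fun v => ∫ s, f' s * h (s - v) := funext (cor_eq f' h)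
  rw [e]
  have hk := hasDerivAt_integral_of_dominated_loc_of_deriv_le (μ := volume) (s := univ)
    (F := fun v s => f' s * h (s - v)) (F' := fun v s => -(f' s * h' (s - v))) (x₀ := v)
    (bound := fun s => ‖f' s‖ * B) univ_mem
    (Eventually.of_forall fun v => (hf.c.mul (hh.cont.comp
      (continuous_id.sub continuous_const))).aestronglyMeasurable)
    (hf.int'.mul_bdd (c := B) (hh.cont.comp (continuous_id.sub continuous_const)).aestronglyMeasurable
      (Eventually.of_forall fun s => hh.b _))
    (hf.c.mul (hh.c.comp (continuous_id.sub continuous_const))).neg.aestronglyMeasurable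
    (Eventually.of_forall fun s v _ => by
      rw [norm_neg, norm_mul]
      exact mul_le_mul_of_nonneg_left (hh.b'' _) (norm_nonneg _))
    (hf.int'.norm.mul_const B)
    (Eventually.of_forall fun s v _ => by
      have h1 : HasDerivAt (fun v => s - v) (-1) v := by simpa using (hasDerivAt_id v).const_sub s
      have h2 := ((hh.d (s - v)).scomp v h1).const_mul (f' s)
      refine h2.congr_deriv ?_
      simp)
  have h3 := hk.2
  rw [integral_neg] at h3
  exact h3

lemma cor'_cont (hf : Lim f f' B fp fm) (hh : Lim h h' B hp hm) : Continuous (cor' f' h') := by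
  unfold cor'
  refine (continuous_of_dominated (bound := fun s => ‖f' s‖ * B)
    (fun v => (hf.c.mul (hh.c.comp (continuous_id.sub continuous_const))).aestronglyMeasurable)
    (fun v => Eventually.of_forall fun s => ?_) (hf.int'.norm.mul_const B)
    (Eventually.of_forall fun s => ?_)).neg
  · change ‖f' s * h' (s - v)‖ ≤ _
    rw [norm_mul]
    exact mul_le_mul_of_nonneg_left (hh.b'' _) (norm_nonneg _)
  · exact continuous_const.mul (hh.c.comp (continuous_const.sub continuous_id))

lemma cor'_le (hf : Lim f f' B fp fm) (hh : Lim h h' B hp hm) (v : ℝ) :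
    ‖cor' f' h' v‖ ≤ (B ^ 2 * ∫ s : ℝ, Real.exp (-(|s| / 4))) * Real.exp (-(|v| / 4)) := by
  have hB := hf.B_nonneg
  unfold cor'
  rw [norm_neg]
  have hE : Integrable fun s : ℝ => B ^ 2 * Real.exp (-(|v| / 4)) * Real.exp (-(|s| / 4)) :=
    int_exp_quarter.const_mul _
  have h1 : ‖∫ s, f' s * h' (s - v)‖ ≤ ∫ s, B ^ 2 * Real.exp (-(|v| / 4)) * Real.exp (-(|s| / 4)) := by
    refine norm_integral_le_of_norm_le hE (Eventually.of_forall fun s => ?_)
    rw [norm_mul]
    have a1 := hf.b' s
    have a2 := hh.b' (s - v)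
    calc ‖f' s‖ * ‖h' (s - v)‖ ≤ (B * Real.exp (-(|s| / 2))) * (B * Real.exp (-(|s - v| / 2))) := by
          gcongr
      _ = B ^ 2 * Real.exp (-(|s| / 2) + -(|s - v| / 2)) := by
          rw [Real.exp_add]
          ring
      _ ≤ B ^ 2 * Real.exp (-(|v| / 4) + -(|s| / 4)) := by
          refine mul_le_mul_of_nonneg_left (Real.exp_le_exp.2 ?_) (by positivity)
          have h3 : |v| ≤ |s| + |s - v| := by
            have := abs_sub s (s - v)
            rw [sub_sub_cancel] at this
            exact this
          have := abs_nonneg (s - v)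
          linarith
      _ = _ := by
          rw [Real.exp_add]
          ring
  refine h1.trans (le_of_eq ?_)
  rw [integral_const_mul]
  ring

lemma cor'_int (hf : Lim f f' B fp fm) (hh : Lim h h' B hp hm) : Integrable (cor' f' h') :=
  (int_exp_quarter.const_mul _).mono' (cor'_cont hf hh).aestronglyMeasurable
    (Eventually.of_forall (cor'_le hf hh))

lemma cor_lim (hf : Lim f f' B fp fm) (hh : Lim h h' B hp hm) {F : Filter ℝ}
    [F.IsCountablyGenerated] {c : ℂ} (hF : ∀ s : ℝ, Tendsto (fun v => h (s - v)) F (𝓝 c)) :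
    Tendsto (cor f' h) F (𝓝 ((fp - fm) * c)) := by
  have e : cor f' h = fun v => ∫ s, f' s * h (s - v) := funext (cor_eq f' h)
  rw [e, ← hf.int_deriv, ← integral_mul_const]
  refine tendsto_integral_filter_of_dominated_convergence (fun s => ‖f' s‖ * B) ?_ ?_
    (hf.int'.norm.mul_const B) ?_
  · exact Eventually.of_forall fun v => (hf.c.mul (hh.cont.comp
      (continuous_id.sub continuous_const))).aestronglyMeasurable
  · refine Eventually.of_forall fun v => Eventually.of_forall fun s => ?_
    rw [norm_mul]
    exact mul_le_mul_of_nonneg_left (hh.b _) (norm_nonneg _)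
  · exact Eventually.of_forall fun s => (hF s).const_mul _

lemma cor_top (hf : Lim f f' B fp fm) (hh : Lim h h' B hp hm) :
    Tendsto (cor f' h) atTop (𝓝 ((fp - fm) * hm)) :=
  cor_lim hf hh fun s => hh.bot.comp (tendsto_atBot_add_const_left atTop s tendsto_neg_atTop_atBot)

lemma cor_bot (hf : Lim f f' B fp fm) (hh : Lim h h' B hp hm) :
    Tendsto (cor f' h) atBot (𝓝 ((fp - fm) * hp)) :=
  cor_lim hf hh fun s => hh.top.comp (tendsto_atTop_add_const_left atBot s tendsto_neg_atBot_atTop)

/-- transform of the derivative of the correlation -/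
lemma ft_cor' (hf : Lim f f' B fp fm) (hh : Lim h h' B hp hm) (q : ℝ) :
    ft (cor' f' h') q = -(ft f' q * ft h' (-q)) := by
  have hi : Integrable (fun p : ℝ × ℝ => f' p.2 * ek q p.2 * (h' (p.2 - p.1) * ek (-q) (p.2 - p.1)))
      (volume.prod volume) := by
    have h1 : Integrable fun s => f' s * ek q s := mul_ek_int hf.int' q
    have h2 : Integrable fun s => h' (-s) * ek (-q) (-s) :=
      (mul_ek_int hh.int' (-q)).comp_neg
    have h3 := h1.convolution_integrand (ContinuousLinearMap.mul ℝ ℂ) h2
    refine h3.congr (Eventually.of_forall fun p => ?_)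
    simp only [ContinuousLinearMap.mul_apply', neg_sub]
  unfold cor'
  unfold ft
  have e1 : ∀ v, (-∫ s, f' s * h' (s - v)) * ek q v =
      -∫ s, f' s * ek q s * (h' (s - v) * ek (-q) (s - v)) := by
    intro v
    rw [neg_mul, ← integral_mul_const]
    congr 1
    refine integral_congr_ae (Eventually.of_forall fun s => ?_)
    simp only
    rw [ek_neg, neg_sub, show ek q v = ek q s * ek q (v - s) by
      rw [← ek_add]; congr 1; ring]
    ring
  simp_rw [e1]
  rw [integral_neg, integral_integral_swap hi]
  congr 1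
  rw [← integral_mul_const]
  refine integral_congr_ae (Eventually.of_forall fun s => ?_)
  simp only
  rw [integral_const_mul]
  congr 1
  exact integral_sub_left_eq_self (fun w => h' w * ek (-q) w) volume s

/-- increments against a bounded function -/
def gam (f h : ℝ → ℂ) (v : ℝ) : ℂ := ∫ s, (f (s + v) - f s) * h s

lemma gam_int (hf : Lim f f' B fp fm) (hh : Lim h h' B hp hm) (v : ℝ) :
    Integrable fun s => (f (s + v) - f s) * h s :=
  (hf.incr_int v).mul_bdd (c := B) hh.cont.aestronglyMeasurable (Eventually.of_forall hh.b)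

lemma gam_hasDerivAt (hf : Lim f f' B fp fm) (hh : Lim h h' B hp hm) (v : ℝ) :
    HasDerivAt (gam f h) (cor f' h v) v := by
  have hB := hf.B_nonneg
  have hk := hasDerivAt_integral_of_dominated_loc_of_deriv_le (μ := volume) (s := Metric.ball v 1)
    (F := fun u s => (f (s + u) - f s) * h s) (F' := fun u s => f' (s + u) * h s) (x₀ := v)
    (bound := fun s => B * Real.exp ((|v| + 1) / 2) * Real.exp (-(|s| / 2)) * B)
    (Metric.ball_mem_nhds v one_pos)
    (Eventually.of_forall fun u => (gam_int hf hh u).aestronglyMeasurable) (gam_int hf hh v)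
    (((hf.c.comp (continuous_id.add continuous_const)).mul hh.cont).aestronglyMeasurable)
    (Eventually.of_forall fun s u hu => by
      have hu' : |u - v| < 1 := by simpa [Real.dist_eq] using hu
      rw [norm_mul]
      refine mul_le_mul ((hf.b' _).trans ?_) (hh.b s) (norm_nonneg _) (by positivity)
      rw [mul_assoc, ← Real.exp_add]
      refine mul_le_mul_of_nonneg_left (Real.exp_le_exp.2 ?_) hB
      have h1 : |s| ≤ |s + u| + |u| := by
        have := abs_sub (s + u) u
        rw [add_sub_cancel_right] at this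
        exact this
      have h2 : |u| ≤ |v| + 1 := by
        have := abs_sub_abs_le_abs_sub u v
        linarith
      linarith)
    (((int_exp_half).const_mul _).mul_const _)
    (Eventually.of_forall fun s u _ => by
      have h1 : HasDerivAt (fun u => s + u) 1 u := by simpa using (hasDerivAt_id u).const_add s
      have h2 := (hf.d (s + u)).scomp u h1
      rw [one_smul] at h2
      exact (h2.sub_const _).mul_const _)
  exact hk.2

end

end Pool.Agent.PB
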