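import Pool.Agent.PB.MeanV
import Pool.Agent.PB.Sym
import Pool.Agent.NUP.MF.Profile

/-!
# Plan B: the trace part of the value of the Ward identity, mode X + Y

`ek q t = e^{-iqt}`, `ft f q = ∫ f t e^{-iqt} dt`, `K = Kw + Kg = -V'`, `Up` the symbol of `V`.

* `uV_le`: `|u V u| ≤ 9 e^{-|u|}`; `ft_V`: `ft V q = Up q`;
* `ft_uK`: `∫ u K u e^{-iqu} du = Up q + q Up' q` (`q ≠ 0`);
* `int_shift`: `∫ (r (s + u) - r s) ds = u (r₊ - r₋)`;
* **`trP`**: `∫∫ (r t - r s) K (t - s) e^{-iq(t-s)} ds dt = (r₊ - r₋) (Up q + q Up' q)`;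
* `Cp g h = (1/2π) ∫ ft g q ft h (-q) / Up q dq`;
* **`trace_plus`**: if `(r t - r s) K (t - s) = ∫ A_σ t B_σ s dσ` then `∫ Cp A_σ B_σ dσ = (7/6) (r₊ - r₋)`.
-/

set_option autoImplicit false

open MeasureTheory Set Filter Topology

namespace Pool.Agent.PB

open NUMF

noncomputable section

/-- `e^{-iqt}` -/
def ek (q t : ℝ) : ℂ := Complex.exp (((-(q * t) : ℝ) : ℂ) * Complex.I)

/-- Fourier transform -/
def ft (f : ℝ → ℂ) (q : ℝ) : ℂ := ∫ t, f t * ek q t

@[simp] lemma norm_ek (q t : ℝ) : ‖ek q t‖ = 1 := Complex.norm_exp_ofReal_mul_I _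

lemma ek_add (q s t : ℝ) : ek q (s + t) = ek q s * ek q t := by
  unfold ek
  rw [← Complex.exp_add]
  congr 1
  push_cast
  ring

lemma ek_neg (q t : ℝ) : ek (-q) t = ek q (-t) := by
  unfold ek
  congr 2
  push_cast
  ring

lemma ek_sub (q s t : ℝ) : ek q (t - s) = ek q t * ek (-q) s := by
  rw [ek_neg, sub_eq_add_neg, ek_add]

@[simp] lemma ek_zero_right (q : ℝ) : ek q 0 = 1 := by simp [ek]

lemma ek_cont : Continuous fun p : ℝ × ℝ => ek p.1 p.2 := by
  unfold ek
  fun_prop

lemma ek_cont_t (q : ℝ) : Continuous (ek q) := ek_cont.comp (continuous_const.prodMk continuous_id)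

lemma hasDerivAt_ek_t (q t : ℝ) : HasDerivAt (ek q) (-(q * Complex.I) * ek q t) t := by
  have h1 : HasDerivAt (fun t : ℝ => ((-(q * t) : ℝ) : ℂ) * Complex.I) (((-q : ℝ) : ℂ) * Complex.I) t := by
    have h2 : HasDerivAt (fun t : ℝ => -(q * t)) (-q) t := by
      simpa using ((hasDerivAt_id' t).const_mul q).fun_neg
    exact (h2.ofReal_comp).mul_const Complex.I
  refine h1.cexp.congr_deriv ?_
  unfold ek
  push_cast
  ring

lemma hasDerivAt_ek_q (q t : ℝ) : HasDerivAt (fun q => ek q t) (-(t * Complex.I) * ek q t) q := by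
  have h1 : HasDerivAt (fun q : ℝ => ((-(q * t) : ℝ) : ℂ) * Complex.I) (((-t : ℝ) : ℂ) * Complex.I) q := by
    have h2 : HasDerivAt (fun q : ℝ => -(q * t)) (-t) q := by
      simpa using ((hasDerivAt_id' q).mul_const t).fun_neg
    exact (h2.ofReal_comp).mul_const Complex.I
  refine h1.cexp.congr_deriv ?_
  unfold ek
  push_cast
  ring

lemma mul_ek_int {f : ℝ → ℂ} (hf : Integrable f) (q : ℝ) : Integrable fun t => f t * ek q t :=
  hf.mul_bdd (c := 1) (ek_cont_t q).aestronglyMeasurable
    (Eventually.of_forall fun t => (norm_ek q t).le)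

/-! ### the kernel `V` -/

lemma uV_le_pos {u : ℝ} (hu : 0 < u) : |u * V u| ≤ 9 * Real.exp (-|u|) := by
  have hK : ∀ x ∈ Ioi u, ‖-(Kw x + Kg x)‖ ≤ 9 / u * Real.exp (-x) := by
    intro x hx
    have hx' : u < x := hx
    have hx0 : 0 < x := hu.trans hx'
    have h1 := abs_K_le x
    rw [abs_mul, abs_of_pos hx0] at h1
    rw [norm_neg, Real.norm_eq_abs]
    have h2 : |Kw x + Kg x| ≤ 9 * Real.exp (-x) / x := by
      rw [le_div_iff₀ hx0]
      linarith
    refine h2.trans ?_
    rw [div_mul_eq_mul_div]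
    exact div_le_div_of_nonneg_left (by positivity) hu hx'.le
  have hE : IntegrableOn (fun x : ℝ => 9 / u * Real.exp (-x)) (Ioi u) :=
    (integrableOn_exp_neg_Ioi u).const_mul _
  have hKi : IntegrableOn (fun x => -(Kw x + Kg x)) (Ioi u) := by
    refine Integrable.mono' hE K_meas.neg.aestronglyMeasurable ?_
    exact (ae_restrict_mem measurableSet_Ioi).mono hK
  have h := integral_Ioi_of_hasDerivAt_of_tendsto' (f := V) (f' := fun x => -(Kw x + Kg x)) (a := u)
    (m := 0) (fun x hx => hasDerivAt_V (by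
      have hx' : u ≤ x := hx
      exact (hu.trans_le hx').ne')) hKi V_atTop
  have h2 : ‖∫ x in Ioi u, -(Kw x + Kg x)‖ ≤ ∫ x in Ioi u, 9 / u * Real.exp (-x) :=
    norm_integral_le_of_norm_le hE ((ae_restrict_mem measurableSet_Ioi).mono hK)
  rw [h, integral_const_mul, integral_exp_neg_Ioi, zero_sub, norm_neg, Real.norm_eq_abs] at h2
  rw [abs_mul, abs_of_pos hu]
  calc u * |V u| ≤ u * (9 / u * Real.exp (-u)) := by gcongr
    _ = _ := by field_simp

/-- **size of `V`** -/
lemma uV_le (u : ℝ) : |u * V u| ≤ 9 * Real.exp (-|u|) := by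
  rcases lt_trichotomy u 0 with h | h | h
  · have := uV_le_pos (u := -u) (by linarith)
    rw [V_even, abs_neg, neg_mul, abs_neg] at this
    exact this
  · rw [h]
    simp
  · exact uV_le_pos h

/-- `V` as a complex function -/
def VC (t : ℝ) : ℂ := (V t : ℂ)

lemma VC_int : Integrable VC := V_integral.1.ofReal

lemma VC_meas : Measurable VC := Complex.measurable_ofReal.comp V_meas

lemma int_exp_one : Integrable fun u : ℝ => Real.exp (-|u|) := by
  refine (int_exp_abs one_pos).congr (Eventually.of_forall fun s => ?_)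
  simp only [neg_mul, one_mul]

lemma tVC_norm (t : ℝ) : ‖(t : ℂ) * VC t‖ ≤ 9 * Real.exp (-|t|) := by
  unfold VC
  rw [← Complex.ofReal_mul, Complex.norm_real, Real.norm_eq_abs]
  exact uV_le t

lemma tVC_int : Integrable fun t : ℝ => (t : ℂ) * VC t :=
  (int_exp_one.const_mul 9).mono' ((Complex.measurable_ofReal.mul VC_meas).aestronglyMeasurable)
    (Eventually.of_forall tVC_norm)

lemma uK_int : Integrable fun u : ℝ => (u : ℂ) * KC u := by
  refine (int_exp_one.const_mul 9).mono' ((Complex.measurable_ofReal.mul KC_meas).aestronglyMeasurable)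
    (Eventually.of_forall fun u => ?_)
  rw [norm_mul, Complex.norm_real, Real.norm_eq_abs]
  exact norm_KC u

/-- derivative of the transform of `V` -/
def dV (q : ℝ) : ℂ := ∫ t : ℝ, -(((t : ℂ) * VC t) * Complex.I) * ek q t

lemma hasDerivAt_ft_V (q : ℝ) : HasDerivAt (ft VC) (dV q) q := by
  have h := hasDerivAt_integral_of_dominated_loc_of_deriv_le (μ := volume) (s := univ)
    (F := fun q t => VC t * ek q t) (F' := fun q t => -(((t : ℂ) * VC t) * Complex.I) * ek q t)
    (x₀ := q) (bound := fun t => 9 * Real.exp (-|t|)) univ_mem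
    (Eventually.of_forall fun q => (mul_ek_int VC_int q).aestronglyMeasurable)
    (mul_ek_int VC_int q)
    (((((Complex.measurable_ofReal.mul VC_meas).mul_const _).neg).aestronglyMeasurable).mul
      (ek_cont_t q).aestronglyMeasurable)
    (Eventually.of_forall fun t q _ => by
      rw [norm_mul, norm_ek, mul_one, norm_neg, norm_mul, Complex.norm_I, mul_one]
      exact tVC_norm t)
    (int_exp_one.const_mul 9)
    (Eventually.of_forall fun t q _ => by
      refine ((hasDerivAt_ek_q q t).const_mul (VC t)).congr_deriv ?_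
      ring)
  exact h.2

lemma KC_neg (u : ℝ) : KC (-u) = -KC u := by
  unfold KC
  rw [Kw_neg, Kg_neg]
  push_cast
  ring

/-- transform of `u K(u)` -/
theorem ft_uK' (q : ℝ) : ∫ u : ℝ, (u : ℂ) * KC u * ek q u = ft VC q + q * dV q := by
  set φ : ℝ → ℂ := fun s => (s : ℂ) * ek q s with hφ
  set φ' : ℝ → ℂ := fun s => ek q s + (s : ℂ) * (-(q * Complex.I) * ek q s) with hφ'
  have hd : ∀ s, HasDerivAt φ (φ' s) s := by
    intro s
    have h1 : HasDerivAt (fun s : ℝ => (s : ℂ)) 1 s := by
      simpa using (hasDerivAt_id s).ofReal_comp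
    refine (h1.mul (hasDerivAt_ek_t q s)).congr_deriv ?_
    simp only [hφ']
    ring
  have hφt : φ 0 = 0 := by simp [hφ]
  have e1 : (fun s => φ s * ((fun u => Kw u + Kg u) (0 - s) : ℝ)) =
      fun s : ℝ => -((s : ℂ) * KC s * ek q s) := by
    funext s
    simp only [hφ, zero_sub]
    have := KC_neg s
    unfold KC at this
    rw [this]
    unfold KC
    ring
  have e2 : (fun s => φ' s * (V (0 - s) : ℂ)) = fun s => VC s * ek q s +
      q * (-(((s : ℂ) * VC s) * Complex.I) * ek q s) := by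
    funext s
    simp only [hφ', zero_sub, V_even, VC]
    ring
  have j2 : Integrable fun t : ℝ => -(((t : ℂ) * VC t) * Complex.I) * ek q t :=
    mul_ek_int ((tVC_int.mul_const Complex.I).neg) q
  have i1 : Integrable fun s => φ s * ((fun u => Kw u + Kg u) (0 - s) : ℝ) := by
    rw [e1]
    exact (mul_ek_int uK_int q).neg
  have i2 : Integrable fun s => φ' s * (V (0 - s) : ℂ) := by
    rw [e2]
    exact (mul_ek_int VC_int q).add (j2.const_mul _)
  have hexp : ∀ (F : Filter ℝ), Tendsto (fun s => |s|) F atTop →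
      Tendsto (fun s => φ s * (V (0 - s) : ℂ)) F (𝓝 0) := by
    intro F hF
    refine squeeze_zero_norm (a := fun s => 9 * Real.exp (-|s|)) (fun s => ?_) ?_
    · have := uV_le s
      simp only [hφ, zero_sub, V_even]
      rw [norm_mul, norm_mul, norm_ek, mul_one, Complex.norm_real, Complex.norm_real, ← norm_mul,
        Real.norm_eq_abs]
      exact this
    · have := (Real.tendsto_exp_atBot.comp (tendsto_neg_atTop_atBot.comp hF)).const_mul 9
      simpa using this
  have hp := parts_logC (U := V) (K := fun u => Kw u + Kg u) (t := 0) (fun u hu => hasDerivAt_V hu)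
    u_V_zero hd hφt i1 i2 (hexp _ tendsto_abs_atTop_atTop) (hexp _ tendsto_abs_atBot_atTop)
  rw [e1, e2, integral_neg, integral_add (mul_ek_int VC_int q) (j2.const_mul _),
    integral_const_mul] at hp
  have := neg_injective hp
  rw [this]
  rfl

/-- `Uh = Up` -/
lemma Uh_eq_Up (k : ℝ) : Uh k = Up k := by
  unfold Uh Up kUp sk ck1
  have e1 : Real.pi / 2 * k = 4 * (Real.pi * k / 8) := by ring
  have e2 : l * k = Real.pi * k / 8 := by unfold l; ring
  rw [e1, e2]
  by_cases h1 : k = 0
  · simp [h1]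
  have h2 : Real.sinh (4 * (Real.pi * k / 8)) ≠ 0 := by
    rw [Ne, Real.sinh_eq_zero]
    have := Real.pi_pos
    intro h
    apply h1
    have : Real.pi * k = 0 := by linarith
    rcases mul_eq_zero.1 this with h | h
    · exact absurd h Real.pi_ne_zero
    · exact h
  field_simp

lemma Up_even (k : ℝ) : Up (-k) = Up k := by
  unfold Up kUp
  rw [show Real.pi * -k / 8 = -(Real.pi * k / 8) by ring, Real.cosh_neg, mul_neg, Real.sinh_neg]
  ring

lemma ft_even {f : ℝ → ℂ} (hf : ∀ t, f (-t) = f t) (q : ℝ) : ft f (-q) = ft f q := by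
  unfold ft
  rw [← integral_neg_eq_self]
  refine integral_congr_ae (Eventually.of_forall fun t => ?_)
  simp only
  rw [hf, ek_neg, neg_neg]

lemma VC_even (t : ℝ) : VC (-t) = VC t := by
  unfold VC
  rw [V_even]

lemma ft_V_pos {q : ℝ} (hq : 0 < q) : ft VC q = ((Up q : ℝ) : ℂ) := by
  have h1 := V_forward hq
  have h3 : ft VC q = ∫ t, (((V t * Real.cos (q * t) : ℝ) : ℂ)) := by
    have e : ft VC q = (ft VC q + ft VC (-q)) / 2 := by
      rw [ft_even VC_even]
      ring
    rw [e]
    unfold ft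
    rw [← integral_add (mul_ek_int VC_int q) (mul_ek_int VC_int (-q)), ← integral_div]
    refine integral_congr_ae (Eventually.of_forall fun t => ?_)
    simp only
    unfold ek VC
    have hc : ((Real.cos (q * t) : ℝ) : ℂ) = (Complex.exp (((q * t : ℝ) : ℂ) * Complex.I) +
        Complex.exp (-(((q * t : ℝ) : ℂ) * Complex.I))) / 2 := by
      rw [Complex.ofReal_cos, Complex.cos]
      congr 3
      ring
    rw [show ((-(q * t) : ℝ) : ℂ) * Complex.I = -(((q * t : ℝ) : ℂ) * Complex.I) by push_cast; ring,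
      show ((-(-q * t) : ℝ) : ℂ) * Complex.I = ((q * t : ℝ) : ℂ) * Complex.I by push_cast; ring,
      show ((V t * Real.cos (q * t) : ℝ) : ℂ) = (V t : ℂ) * ((Real.cos (q * t) : ℝ) : ℂ) from
        Complex.ofReal_mul _ _, hc]
    ring
  rw [h3, integral_complex_ofReal, h1.2, ← Uh_eq_Up]
  rfl

/-- the transform of `V` -/
theorem ft_V {q : ℝ} (hq : q ≠ 0) : ft VC q = ((Up q : ℝ) : ℂ) := by
  rcases lt_or_gt_of_ne hq with h | h
  · have := ft_V_pos (q := -q) (by linarith)
    rw [ft_even VC_even, Up_even] at this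
    exact this
  · exact ft_V_pos h

lemma dV_eq {q : ℝ} (hq : q ≠ 0) : dV q = ((deriv Up q : ℝ) : ℂ) ∧ DifferentiableAt ℝ Up q := by
  have h1 := hasDerivAt_ft_V q
  have h2 : HasDerivAt (fun q => ((Up q : ℝ) : ℂ)) (dV q) q := by
    refine h1.congr_of_eventuallyEq ?_
    filter_upwards [isOpen_ne.mem_nhds hq] with x hx
    exact (ft_V hx).symm
  have h3 : HasDerivAt Up (dV q).re q := by
    have := Complex.reCLM.hasFDerivAt.comp_hasDerivAt q h2
    exact this
  have h4 := h3.ofReal_comp
  refine ⟨?_, h3.differentiableAt⟩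
  rw [h3.deriv]
  exact h2.unique h4

/-- **transform of `u K(u)`** -/
theorem ft_uK {q : ℝ} (hq : q ≠ 0) :
    ∫ u : ℝ, (u : ℂ) * KC u * ek q u = ((Up q + q * deriv Up q : ℝ) : ℂ) := by
  rw [ft_uK', ft_V hq, (dV_eq hq).1]
  push_cast
  ring

/-! ### the double integral -/

variable {r r' : ℝ → ℂ} {B : ℝ} {rp rm : ℂ}

lemma Lim.int_deriv (hr : Lim r r' B rp rm) : ∫ s, r' s = rp - rm :=
  integral_of_hasDerivAt_of_tendsto hr.d hr.int' hr.bot hr.top

/-- size of the increments -/
lemma Lim.incr' (hr : Lim r r' B rp rm) (s u : ℝ) :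
    ‖r (s + u) - r s‖ ≤ B * Real.exp (-(|s| / 2)) * Real.exp (|u| / 2) * |u| := by
  have := hr.incr s (s + u)
  rwa [add_sub_cancel_left] at this

lemma Lim.incr_int (hr : Lim r r' B rp rm) (u : ℝ) : Integrable fun s => r (s + u) - r s := by
  have hi := (int_exp_half.const_mul (B * Real.exp (|u| / 2) * |u|))
  refine hi.mono' ?_ (Eventually.of_forall fun s => ?_)
  · exact ((hr.cont.comp (continuous_id.add continuous_const)).sub hr.cont).aestronglyMeasurable
  · refine (hr.incr' s u).trans (le_of_eq ?_)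
    ring

/-- **`∫ (r (s + u) - r s) ds = u (r₊ - r₋)`** -/
theorem Lim.int_shift (hr : Lim r r' B rp rm) (u : ℝ) :
    ∫ s, (r (s + u) - r s) = u * (rp - rm) := by
  have hB := hr.B_nonneg
  have hd : ∀ u : ℝ, HasDerivAt (fun u => ∫ s, (r (s + u) - r s)) (rp - rm) u := by
    intro u
    have h := hasDerivAt_integral_of_dominated_loc_of_deriv_le (μ := volume) (s := Metric.ball u 1)
      (F := fun u s => r (s + u) - r s) (F' := fun u s => r' (s + u)) (x₀ := u)
      (bound := fun s => B * Real.exp ((|u| + 1) / 2) * Real.exp (-(|s| / 2)))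
      (Metric.ball_mem_nhds u one_pos)
      (Eventually.of_forall fun u => (hr.incr_int u).aestronglyMeasurable) (hr.incr_int u)
      ((hr.c.comp (continuous_id.add continuous_const)).aestronglyMeasurable)
      (Eventually.of_forall fun s v hv => by
        have hv' : |v - u| < 1 := by simpa [Real.dist_eq] using hv
        refine (hr.b' _).trans ?_
        rw [mul_assoc, ← Real.exp_add]
        refine mul_le_mul_of_nonneg_left (Real.exp_le_exp.2 ?_) hB
        have h1 : |s| ≤ |s + v| + |v| := by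
          have := abs_sub (s + v) v
          rw [add_sub_cancel_right] at this
          exact this
        have h2 : |v| ≤ |u| + 1 := by
          have := abs_sub_abs_le_abs_sub v u
          linarith
        linarith)
      ((int_exp_half).const_mul _)
      (Eventually.of_forall fun s v _ => by
        have h1 : HasDerivAt (fun v => s + v) 1 v := by simpa using (hasDerivAt_id v).const_add s
        have h2 := (hr.d (s + v)).scomp v h1
        rw [one_smul] at h2
        exact h2.sub_const _)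
    have h2 := h.2
    rw [integral_add_right_eq_self (fun s => r' s) u, hr.int_deriv] at h2
    exact h2
  have hd2 : ∀ u : ℝ, HasDerivAt (fun u : ℝ => (∫ s, (r (s + u) - r s)) - u * (rp - rm)) 0 u := by
    intro u
    have h1 : HasDerivAt (fun u : ℝ => (u : ℂ) * (rp - rm)) (rp - rm) u := by
      have : HasDerivAt (fun u : ℝ => (u : ℂ)) 1 u := by simpa using (hasDerivAt_id u).ofReal_comp
      simpa using this.mul_const (rp - rm)
    have := (hd u).sub h1
    rwa [sub_self] at this
  have hc := is_const_of_deriv_eq_zero (fun u => (hd2 u).differentiableAt) (fun u => (hd2 u).deriv)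
    u 0
  simp only [add_zero, sub_self, integral_zero, Complex.ofReal_zero, zero_mul] at hc
  exact sub_eq_zero.1 hc

lemma shear_int (hr : Lim r r' B rp rm) (q : ℝ) :
    Integrable (fun p : ℝ × ℝ => (r (p.1 + p.2) - r p.1) * KC p.2 * ek q p.2)
      (volume.prod volume) := by
  have hB := hr.B_nonneg
  have hmaj : Integrable (fun p : ℝ × ℝ => Real.exp (-(|p.1| / 2)) * Real.exp (-(|p.2| / 2)))
      (volume.prod volume) := int_exp_half.mul_prod int_exp_half
  refine (hmaj.const_mul (B * 9)).mono' ?_ (Eventually.of_forall fun p => ?_)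
  · refine Measurable.aestronglyMeasurable ?_
    have m0 := hr.cont.measurable
    exact (((m0.comp (measurable_fst.add measurable_snd)).sub (m0.comp measurable_fst)).mul
      (KC_meas.comp measurable_snd)).mul ((ek_cont_t q).measurable.comp measurable_snd)
  · obtain ⟨s, u⟩ := p
    simp only
    rw [norm_mul, norm_mul, norm_ek, mul_one]
    have h1 := hr.incr' s u
    have h2 := norm_KC u
    set E := Real.exp (-(|s| / 2)) with hE
    have hE0 : 0 < E := Real.exp_pos _
    have he : Real.exp (|u| / 2) * Real.exp (-|u|) = Real.exp (-(|u| / 2)) := by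
      rw [← Real.exp_add]
      congr 1
      ring
    calc ‖r (s + u) - r s‖ * ‖KC u‖ ≤ (B * E * Real.exp (|u| / 2) * |u|) * ‖KC u‖ := by gcongr
      _ = (B * E * Real.exp (|u| / 2)) * (|u| * ‖KC u‖) := by ring
      _ ≤ (B * E * Real.exp (|u| / 2)) * (9 * Real.exp (-|u|)) := by gcongr
      _ = B * 9 * (E * (Real.exp (|u| / 2) * Real.exp (-|u|))) := by ring
      _ = _ := by rw [he]

lemma kern_int (hr : Lim r r' B rp rm) (q : ℝ) :
    Integrable (fun p : ℝ × ℝ => (r p.1 - r p.2) * KC (p.1 - p.2) * ek q (p.1 - p.2))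
      (volume.prod volume) := by
  have h1 := mv_double (hr.mono (le_max_left B 1)) (Lim.const (1 : ℂ) (B := max B 1) (by simp))
    (Lim.const (1 : ℂ) (B := max B 1) (by simp))
  have h2 : Integrable (fun p : ℝ × ℝ => (r p.1 - r p.2) * KC (p.1 - p.2)) (volume.prod volume) := by
    simpa using h1
  exact h2.mul_bdd (c := 1)
    ((ek_cont_t q).comp (continuous_fst.sub continuous_snd)).aestronglyMeasurable
    (Eventually.of_forall fun p => (norm_ek q _).le)

/-- **transform of the kernel on the antidiagonal** -/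
theorem trP (hr : Lim r r' B rp rm) {q : ℝ} (hq : q ≠ 0) :
    ∫ t, ∫ s, (r t - r s) * KC (t - s) * ek q (t - s) =
      (rp - rm) * ((Up q + q * deriv Up q : ℝ) : ℂ) := by
  rw [integral_integral_swap (kern_int hr q)]
  have e1 : ∀ s : ℝ, ∫ t, (r t - r s) * KC (t - s) * ek q (t - s) =
      ∫ u, (r (s + u) - r s) * KC u * ek q u := by
    intro s
    have := integral_add_left_eq_self (μ := volume) (fun t => (r t - r s) * KC (t - s) * ek q (t - s)) s
    rw [← this]
    refine integral_congr_ae (Eventually.of_forall fun u => ?_)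
    simp only [add_sub_cancel_left]
  simp_rw [e1]
  rw [integral_integral_swap (shear_int hr q)]
  have e2 : ∀ u : ℝ, ∫ s, (r (s + u) - r s) * KC u * ek q u = (rp - rm) * ((u : ℂ) * KC u * ek q u) := by
    intro u
    rw [integral_mul_const, integral_mul_const, hr.int_shift]
    ring
  simp_rw [e2]
  rw [integral_const_mul, ft_uK hq]

/-! ### the covariance form -/

/-- covariance form of the mode X + Y (up to the factor 2) -/
def Cp (g h : ℝ → ℂ) : ℂ := 1 / (2 * Real.pi : ℝ) * ∫ q, ft g q * ft h (-q) / (Up q : ℂ)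

variable {S : Type*} [MeasurableSpace S] {ν : Measure S} [SFinite ν] {A Bf : S → ℝ → ℂ}

/-- the product form -/
theorem ft_prod (H1 : Integrable (fun p : S × (ℝ × ℝ) => A p.1 p.2.1 * Bf p.1 p.2.2)
      (ν.prod (volume.prod volume))) {a : ℝ → ℝ → ℂ}
    (hrep : ∀ᵐ p : ℝ × ℝ ∂(volume.prod volume), ∫ σ, A σ p.1 * Bf σ p.2 ∂ν = a p.1 p.2) (q : ℝ) :
    ∫ σ, ft (A σ) q * ft (Bf σ) (-q) ∂ν = ∫ t, ∫ s, a t s * ek q (t - s) := by
  have hE : Continuous fun p : ℝ × ℝ => ek q (p.1 - p.2) :=
    (ek_cont_t q).comp (continuous_fst.sub continuous_snd)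
  have H2 : Integrable (fun p : S × (ℝ × ℝ) => A p.1 p.2.1 * Bf p.1 p.2.2 * ek q (p.2.1 - p.2.2))
      (ν.prod (volume.prod volume)) :=
    H1.mul_bdd (c := 1) (hE.aestronglyMeasurable.comp_snd)
      (Eventually.of_forall fun p => (norm_ek q _).le)
  have e1 : ∀ σ, ft (A σ) q * ft (Bf σ) (-q) =
      ∫ p : ℝ × ℝ, A σ p.1 * Bf σ p.2 * ek q (p.1 - p.2) ∂(volume.prod volume) := by
    intro σ
    unfold ft
    rw [← integral_prod_mul]
    refine integral_congr_ae (Eventually.of_forall fun p => ?_)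
    simp only
    rw [ek_sub]
    ring
  simp_rw [e1]
  rw [integral_integral_swap H2]
  have e2 : ∫ p : ℝ × ℝ, (∫ σ, A σ p.1 * Bf σ p.2 * ek q (p.1 - p.2) ∂ν) ∂(volume.prod volume) =
      ∫ p : ℝ × ℝ, a p.1 p.2 * ek q (p.1 - p.2) ∂(volume.prod volume) := by
    refine integral_congr_ae ?_
    filter_upwards [hrep] with p hp
    rw [integral_mul_const, hp]
  rw [e2, integral_prod]
  have h3 := H2.integral_prod_right
  refine h3.congr ?_
  filter_upwards [hrep] with p hp
  rw [integral_mul_const, hp]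

lemma logDer_even (k : ℝ) : 1 + -k * (deriv Up (-k) / Up (-k)) = 1 + k * (deriv Up k / Up k) := by
  have h1 : deriv Up (-k) = - deriv Up k := by
    have h2 : deriv (fun x => Up (-x)) k = -deriv Up (-k) := deriv_comp_neg Up k
    have h3 : (fun x => Up (-x)) = Up := funext Up_even
    rw [h3] at h2
    linarith
  rw [h1, Up_even]
  ring

theorem int_Up_line : Integrable (fun k => 1 + k * (deriv Up k / Up k)) ∧
    ∫ k, (1 + k * (deriv Up k / Up k)) = 7 / 3 * Real.pi := by
  set F : ℝ → ℝ := fun k => 1 + k * (deriv Up k / Up k) with hF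
  have hE : (fun k => F |k|) = F := by
    funext k
    rcases abs_cases k with ⟨h, _⟩ | ⟨h, _⟩
    · rw [h]
    · rw [h]
      simp only [hF]
      have := logDer_even k
      rw [neg_mul] at this
      rw [neg_mul]
      exact this
  have h1 := integrable_comp_abs' (f := F) int_Up.1
  rw [hE] at h1
  refine ⟨h1, ?_⟩
  have h2 := integral_comp_abs (f := F)
  rw [hE, int_Up.2] at h2
  rw [h2]
  ring

lemma Up_ne {q : ℝ} (hq : q ≠ 0) : Up q ≠ 0 := by
  rw [← Uh_eq_Up]
  exact (Uh_pos hq).ne'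

lemma Up_div {q : ℝ} (hq : q ≠ 0) (J : ℂ) : J * ((Up q + q * deriv Up q : ℝ) : ℂ) / (Up q : ℂ) =
    J * ((1 + q * (deriv Up q / Up q) : ℝ) : ℂ) := by
  have h1 : (Up q : ℂ) ≠ 0 := Complex.ofReal_ne_zero.2 (Up_ne hq)
  push_cast
  field_simp

/-- **the trace, mode X + Y** -/
theorem trace_plus (hr : Lim r r' B rp rm)
    (H1 : Integrable (fun p : S × (ℝ × ℝ) => A p.1 p.2.1 * Bf p.1 p.2.2)
      (ν.prod (volume.prod volume)))
    (hrep : ∀ᵐ p : ℝ × ℝ ∂(volume.prod volume), ∫ σ, A σ p.1 * Bf σ p.2 ∂ν =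
      (r p.1 - r p.2) * KC (p.1 - p.2))
    (H2 : Integrable (fun p : S × ℝ => ft (A p.1) p.2 * ft (Bf p.1) (-p.2) / (Up p.2 : ℂ))
      (ν.prod volume)) :
    ∫ σ, Cp (A σ) (Bf σ) ∂ν = 7 / 6 * (rp - rm) := by
  unfold Cp
  rw [integral_const_mul, integral_integral_swap H2]
  have e : ∀ᵐ q : ℝ, ∫ σ, ft (A σ) q * ft (Bf σ) (-q) / (Up q : ℂ) ∂ν =
      (rp - rm) * ((1 + q * (deriv Up q / Up q) : ℝ) : ℂ) := by
    filter_upwards [ae_ne_zero] with q hq
    rw [integral_div, ft_prod (a := fun t s => (r t - r s) * KC (t - s)) H1 hrep q, trP hr hq, Up_div hq]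
  rw [integral_congr_ae e, integral_const_mul, integral_complex_ofReal, int_Up_line.2]
  have hpi : (Real.pi : ℂ) ≠ 0 := Complex.ofReal_ne_zero.2 Real.pi_ne_zero
  push_cast
  field_simp
  ring

end

end Pool.Agent.PB
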