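import Pool.Agent.PB.TraceN

/-!
# Plan B: the trace part of the value of the Ward identity, mode X - Y, main theorem

* **`trM`**, **`trace_minus`**: see `PB/TraceM`.
-/

set_option autoImplicit false

open MeasureTheory Set Filter Topology

namespace Pool.Agent.PB

open NUMF

noncomputable section

/-- derivative of a transform -/
theorem hasDerivAt_ft {f : ℝ → ℂ} (hi : Integrable f) (hi1 : Integrable fun t : ℝ => (t : ℂ) * f t)
    (q : ℝ) : HasDerivAt (ft f) (-Complex.I * ft (fun t : ℝ => (t : ℂ) * f t) q) q := by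
  have h := hasDerivAt_integral_of_dominated_loc_of_deriv_le (μ := volume) (s := univ)
    (F := fun (q t : ℝ) => f t * ek q t)
    (F' := fun (q t : ℝ) => -Complex.I * (((t : ℂ) * f t) * ek q t))
    (x₀ := q) (bound := fun t : ℝ => ‖(t : ℂ) * f t‖) univ_mem
    (Eventually.of_forall fun q => (mul_ek_int hi q).aestronglyMeasurable)
    (mul_ek_int hi q)
    ((mul_ek_int hi1 q).const_mul _).aestronglyMeasurable
    (Eventually.of_forall fun t q _ => by
      rw [norm_mul, norm_mul, norm_ek, mul_one, norm_neg, Complex.norm_I, one_mul])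
    hi1.norm
    (Eventually.of_forall fun t q _ => by
      refine ((hasDerivAt_ek_q q t).const_mul (f t)).congr_deriv ?_
      ring)
  have h2 := h.2
  rw [integral_const_mul] at h2
  exact h2

lemma tdG_int : Integrable fun t : ℝ => (t : ℂ) * dGC t := by
  have hE : Integrable fun u : ℝ => 40 * Real.exp (-|u|) := int_exp_one.const_mul 40
  refine hE.mono' ((Complex.continuous_ofReal.mul (Complex.continuous_ofReal.comp
    dGs_cont)).aestronglyMeasurable) (Eventually.of_forall fun u => ?_)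
  have h1 : ‖(u : ℂ) * dGC u‖ = |u| * |dGs u| := by
    unfold dGC
    rw [norm_mul, Complex.norm_real, Complex.norm_real, Real.norm_eq_abs, Real.norm_eq_abs]
  change ‖(u : ℂ) * dGC u‖ ≤ _
  rw [h1]
  have h2 := dGs_le u
  have h3 : |u| ≤ Real.exp |u| := by linarith [Real.add_one_le_exp |u|]
  have e : Real.exp |u| * Real.exp (-(2 * |u|)) = Real.exp (-|u|) := by
    rw [← Real.exp_add]
    congr 1
    ring
  calc |u| * |dGs u| ≤ Real.exp |u| * (40 * Real.exp (-(2 * |u|))) := by gcongr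
    _ = 40 * (Real.exp |u| * Real.exp (-(2 * |u|))) := by ring
    _ = _ := by rw [e]

/-- `q² Lh q` and its derivative -/
lemma ft_tdG {q : ℝ} (hq : q ≠ 0) : DifferentiableAt ℝ Lh q ∧
    ft (fun t : ℝ => (t : ℂ) * dGC t) q =
      Complex.I * ((2 * q * Lh q + q ^ 2 * deriv Lh q : ℝ) : ℂ) := by
  set D := -Complex.I * ft (fun t : ℝ => (t : ℂ) * dGC t) q with hD
  have h1 : HasDerivAt (ft dGC) D q := hasDerivAt_ft dGC_int tdG_int q
  have h2 : HasDerivAt (fun q => ((q ^ 2 * Lh q : ℝ) : ℂ)) D q := by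
    refine h1.congr_of_eventuallyEq ?_
    filter_upwards [isOpen_ne.mem_nhds hq] with x hx
    exact (ft_dG hx).symm
  have h3 : HasDerivAt (fun q => q ^ 2 * Lh q) D.re q := Complex.reCLM.hasFDerivAt.comp_hasDerivAt q h2
  have h4 : D = (D.re : ℂ) := h2.unique h3.ofReal_comp
  have h5 : DifferentiableAt ℝ Lh q := by
    have h6 : DifferentiableAt ℝ (fun q => (q ^ 2 * Lh q) / q ^ 2) q :=
      h3.differentiableAt.div (by fun_prop) (pow_ne_zero 2 hq)
    refine h6.congr_of_eventuallyEq ?_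
    filter_upwards [isOpen_ne.mem_nhds hq] with x hx
    have hx' : x ≠ 0 := hx
    field_simp
  have h7 : HasDerivAt (fun q => q ^ 2 * Lh q) (2 * q * Lh q + q ^ 2 * deriv Lh q) q := by
    have a1 : HasDerivAt (fun q : ℝ => q ^ 2) (2 * q) q := by simpa using hasDerivAt_pow 2 q
    exact a1.mul h5.hasDerivAt
  refine ⟨h5, ?_⟩
  rw [← h3.unique h7, ← h4, hD]
  have hI : Complex.I * Complex.I = -1 := Complex.I_mul_I
  linear_combination (ft (fun t : ℝ => (t : ℂ) * dGC t) q) * hI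

lemma sinh_ratio_top (c : ℝ) :
    Tendsto (fun u => Real.sinh (2 * u) / (Real.cosh (2 * u) + c)) atTop (𝓝 1) := by
  have t2 : Tendsto (fun u : ℝ => Real.exp (-(2 * u))) atTop (𝓝 0) := by
    refine Real.tendsto_exp_atBot.comp (tendsto_neg_atTop_atBot.comp ?_)
    exact tendsto_id.const_mul_atTop (by norm_num)
  have t4 : Tendsto (fun u : ℝ => (1 - Real.exp (-(2 * u)) ^ 2) /
      (1 + 2 * c * Real.exp (-(2 * u)) + Real.exp (-(2 * u)) ^ 2)) atTop
      (𝓝 ((1 - 0 ^ 2) / (1 + 2 * c * 0 + 0 ^ 2))) := by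
    refine ((t2.pow 2).const_sub 1).div (((t2.const_mul (2 * c)).const_add 1).add (t2.pow 2)) ?_
    norm_num
  have e : (1 - 0 ^ 2) / (1 + 2 * c * 0 + 0 ^ 2) = (1 : ℝ) := by norm_num
  rw [e] at t4
  refine t4.congr fun u => ?_
  rw [Real.sinh_eq, Real.cosh_eq]
  have h1 : Real.exp (2 * u) * Real.exp (-(2 * u)) = 1 := by rw [← Real.exp_add]; simp
  have h2 := Real.exp_pos (-(2 * u))
  have h3 := Real.exp_pos (2 * u)
  set x := Real.exp (-(2 * u)) with hx
  set y := Real.exp (2 * u) with hy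
  have e1 : (y - x) / 2 = y * ((1 - x ^ 2) / 2) := by linear_combination (x / 2) * h1
  have e2 : (y + x) / 2 + c = y * ((1 + 2 * c * x + x ^ 2) / 2) := by
    linear_combination (-(c) - x / 2) * h1
  rw [e1, e2, mul_div_mul_left _ _ h3.ne', div_div_div_cancel_right₀ two_ne_zero]

lemma Gs_top : Tendsto Gs atTop (𝓝 2) := by
  have h := ((sinh_ratio_top r).const_mul 4).sub ((sinh_ratio_top 1).const_mul 2)
  have e : (4 : ℝ) * 1 - 2 * 1 = 2 := by norm_num
  rw [e] at h
  refine h.congr fun u => ?_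
  unfold Gs Kg
  ring

lemma Gs_neg (u : ℝ) : Gs (-u) = -Gs u := by
  unfold Gs
  rw [Kg_neg]

lemma Gs_bot : Tendsto Gs atBot (𝓝 (-2)) := by
  have h := (Gs_top.comp tendsto_neg_atBot_atTop).neg
  refine h.congr fun u => ?_
  simp only [Function.comp, Gs_neg, neg_neg]

/-- `Kw - Kg` -/
def KmC (u : ℝ) : ℂ := ((Kw u - Kg u : ℝ) : ℂ)

lemma KmC_eq (u : ℝ) : KmC u = KC u + 2 * (Gs u : ℂ) := by
  unfold KmC KC Gs
  push_cast
  ring

/-- decomposition of the kernel of the mode X - Y -/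
structure MDat (r r' u u' σ σ' : ℝ → ℂ) (a : ℝ → ℝ → ℂ) (B : ℝ) (rp rm : ℂ) : Prop where
  lr : Lim r r' B rp rm
  lu : Lim u u' B 0 0
  ls : Lim σ σ' B 1 (-1)
  int : Integrable (fun p : ℝ × ℝ => a p.1 p.2) (volume.prod volume)
  dec : ∀ t s, t ≠ s → (r t - r s) * KmC (t - s) =
    a t s + u t * σ s + σ t * u s + 2 * (rp - rm) * (1 - σ t * σ s)

namespace MDat

variable {r r' u u' σ σ' : ℝ → ℂ} {a : ℝ → ℝ → ℂ} {B : ℝ} {rp rm : ℂ}

/-- the smooth part of the centre of mass integral -/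
def g2 (u σ : ℝ → ℂ) (J c0 : ℂ) (v : ℝ) : ℂ :=
  2 * J * (v * (Gs v : ℂ)) - gam u σ v - gam σ u v + 2 * J * gam σ σ v - c0

/-- its derivative -/
def dg2 (u u' σ σ' : ℝ → ℂ) (J : ℂ) (v : ℝ) : ℂ :=
  2 * J * (v * dGC v) + 2 * J * ((Gs v : ℂ) + cor σ' σ v) - cor u' σ v - cor σ' u v

lemma shear (D : MDat r r' u u' σ σ' a B rp rm) :
    Integrable (fun p : ℝ × ℝ => a (p.1 + p.2) p.1) (volume.prod volume) := by
  have h1 : MeasurePreserving (fun z : ℝ × ℝ => (z.1, z.1 + z.2)) (volume.prod volume)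
      (volume.prod volume) := measurePreserving_prod_add volume volume
  have h2 : Integrable (fun p : ℝ × ℝ => a p.2 p.1) (volume.prod volume) := D.int.swap
  exact h1.integrable_comp_of_integrable h2

lemma sq_int (D : MDat r r' u u' σ σ' a B rp rm) : Integrable fun s => 1 - σ s * σ s := by
  have hB := D.ls.B_nonneg
  have hm := D.ls.mul D.ls
  refine (int_exp_quarter.const_mul (4 * (2 * B ^ 2 + B ^ 2))).mono'
    (continuous_const.sub hm.cont).aestronglyMeasurable (Eventually.of_forall fun v => ?_)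
  refine decay_of (φ := fun s => 1 - σ s * σ s) (fun v => (hm.d v).const_sub 1) hm.c.neg
    (fun v => ?_) ?_ ?_ v
  · rw [norm_neg]
    exact (hm.b' v).trans (mul_le_mul_of_nonneg_left (exp_half_le v) (by positivity))
  · have := hm.top.const_sub 1
    simpa using this
  · have := hm.bot.const_sub 1
    simpa using this

/-- the centre of mass integral -/
lemma lam_eq (D : MDat r r' u u' σ σ' a B rp rm) {v : ℝ} (hv : v ≠ 0) :
    ∫ s, a (s + v) s = (rp - rm) * (v * KC v) +
      g2 u σ (rp - rm) (2 * (∫ s, u s * σ s) + 2 * (rp - rm) * ∫ s, (1 - σ s * σ s)) v := by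
  set J := rp - rm with hJ
  have e : ∀ s, a (s + v) s = (r (s + v) - r s) * KmC v - (u (s + v) - u s) * σ s -
      (σ (s + v) - σ s) * u s + 2 * J * ((σ (s + v) - σ s) * σ s) - 2 * (u s * σ s) -
      2 * J * (1 - σ s * σ s) := by
    intro s
    have h := D.dec (s + v) s (by simpa using hv)
    rw [add_sub_cancel_left] at h
    linear_combination -h
  have i1 : Integrable fun s => (r (s + v) - r s) * KmC v := (D.lr.incr_int v).mul_const (KmC v)
  have i2 : Integrable fun s => (u (s + v) - u s) * σ s := gam_int D.lu D.ls v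
  have i3 : Integrable fun s => (σ (s + v) - σ s) * u s := gam_int D.ls D.lu v
  have i4 : Integrable fun s => 2 * J * ((σ (s + v) - σ s) * σ s) :=
    (gam_int D.ls D.ls v).const_mul (2 * J)
  have i5 : Integrable fun s => 2 * (u s * σ s) :=
    (D.lu.int_zero.mul_bdd (c := B) D.ls.cont.aestronglyMeasurable
      (Eventually.of_forall D.ls.b)).const_mul 2
  have i6 : Integrable fun s => 2 * J * (1 - σ s * σ s) := D.sq_int.const_mul (2 * J)
  have j2 : Integrable fun s => (r (s + v) - r s) * KmC v - (u (s + v) - u s) * σ s := i1.sub i2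
  have j3 : Integrable fun s => (r (s + v) - r s) * KmC v - (u (s + v) - u s) * σ s -
      (σ (s + v) - σ s) * u s := j2.sub i3
  have j4 : Integrable fun s => (r (s + v) - r s) * KmC v - (u (s + v) - u s) * σ s -
      (σ (s + v) - σ s) * u s + 2 * J * ((σ (s + v) - σ s) * σ s) := j3.add i4
  have j5 : Integrable fun s => (r (s + v) - r s) * KmC v - (u (s + v) - u s) * σ s -
      (σ (s + v) - σ s) * u s + 2 * J * ((σ (s + v) - σ s) * σ s) - 2 * (u s * σ s) := j4.sub i5
  simp_rw [e]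
  rw [integral_sub j5 i6, integral_sub j4 i5, integral_add j3 i4, integral_sub j2 i3,
    integral_sub i1 i2, integral_mul_const, D.lr.int_shift,
    integral_const_mul, integral_const_mul, integral_const_mul, KmC_eq]
  unfold g2 gam
  ring

lemma g2_hasDerivAt (D : MDat r r' u u' σ σ' a B rp rm) (c0 : ℂ) (v : ℝ) :
    HasDerivAt (g2 u σ (rp - rm) c0) (dg2 u u' σ σ' (rp - rm) v) v := by
  have h0 : HasDerivAt (fun v : ℝ => (v : ℂ)) 1 v := by simpa using (hasDerivAt_id v).ofReal_comp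
  have h1 := (h0.mul (hasDerivAt_Gs v).ofReal_comp).const_mul (2 * (rp - rm))
  have h2 := gam_hasDerivAt D.lu D.ls v
  have h3 := gam_hasDerivAt D.ls D.lu v
  have h4 := (gam_hasDerivAt D.ls D.ls v).const_mul (2 * (rp - rm))
  refine ((((h1.sub h2).sub h3).add h4).sub_const c0).congr_deriv ?_
  unfold dg2 dGC
  ring

lemma psi_data (D : MDat r r' u u' σ σ' a B rp rm) :
    (∀ v, HasDerivAt (fun v => (Gs v : ℂ) + cor σ' σ v) (dGC v + cor' σ' σ' v) v) ∧
    Integrable (fun v => (Gs v : ℂ) + cor σ' σ v) ∧ Integrable (fun v => dGC v + cor' σ' σ' v) := by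
  have hB := D.ls.B_nonneg
  have hd : ∀ v, HasDerivAt (fun v => (Gs v : ℂ) + cor σ' σ v) (dGC v + cor' σ' σ' v) v := fun v =>
    (hasDerivAt_Gs v).ofReal_comp.add (cor_hasDerivAt D.ls D.ls v)
  refine ⟨hd, ?_, dGC_int.add (cor'_int D.ls D.ls)⟩
  set C := 40 + B ^ 2 * ∫ s : ℝ, Real.exp (-(|s| / 4)) with hC
  have hc : Continuous fun v => dGC v + cor' σ' σ' v :=
    (Complex.continuous_ofReal.comp dGs_cont).add (cor'_cont D.ls D.ls)
  have hb : ∀ v, ‖dGC v + cor' σ' σ' v‖ ≤ C * Real.exp (-(|v| / 4)) := by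
    intro v
    refine (norm_add_le _ _).trans ?_
    have h1 : ‖dGC v‖ ≤ 40 * Real.exp (-(|v| / 4)) := by
      unfold dGC
      rw [Complex.norm_real, Real.norm_eq_abs]
      refine (dGs_le v).trans ?_
      have : Real.exp (-(2 * |v|)) ≤ Real.exp (-(|v| / 4)) :=
        Real.exp_le_exp.2 (by linarith [abs_nonneg v])
      linarith
    have h2 := cor'_le D.ls D.ls v
    rw [hC, add_mul]
    exact add_le_add h1 h2
  have htop : Tendsto (fun v => (Gs v : ℂ) + cor σ' σ v) atTop (𝓝 0) := by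
    have h1 : Tendsto (fun v => (Gs v : ℂ)) atTop (𝓝 ((2 : ℝ) : ℂ)) :=
      (Complex.continuous_ofReal.tendsto _).comp Gs_top
    have h2 := h1.add (cor_top D.ls D.ls)
    have e : ((2 : ℝ) : ℂ) + (1 - -1) * -1 = 0 := by push_cast; ring
    rwa [e] at h2
  have hbot : Tendsto (fun v => (Gs v : ℂ) + cor σ' σ v) atBot (𝓝 0) := by
    have h1 : Tendsto (fun v => (Gs v : ℂ)) atBot (𝓝 ((-2 : ℝ) : ℂ)) :=
      (Complex.continuous_ofReal.tendsto _).comp Gs_bot
    have h2 := h1.add (cor_bot D.ls D.ls)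
    have e : ((-2 : ℝ) : ℂ) + (1 - -1) * 1 = 0 := by push_cast; ring
    rwa [e] at h2
  refine (int_exp_quarter.const_mul (4 * C)).mono' ?_ (Eventually.of_forall fun v =>
    decay_of hd hc hb htop hbot v)
  exact (continuous_iff_continuousAt.2 fun v => (hd v).continuousAt).aestronglyMeasurable

lemma cor_zero {f f' h h' : ℝ → ℂ} {B : ℝ} {fp fm hp hm : ℂ} (hf : Lim f f' B fp fm)
    (hh : Lim h h' B hp hm) (hz : fp - fm = 0 ∨ (hp = 0 ∧ hm = 0)) : Integrable (cor f' h) := by
  have hB := hf.B_nonneg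
  refine (int_exp_quarter.const_mul (4 * (B ^ 2 * ∫ s : ℝ, Real.exp (-(|s| / 4))))).mono' ?_
    (Eventually.of_forall fun v =>
      decay_of (cor_hasDerivAt hf hh) (cor'_cont hf hh) (cor'_le hf hh) ?_ ?_ v)
  · exact (continuous_iff_continuousAt.2 fun v =>
      (cor_hasDerivAt hf hh v).continuousAt).aestronglyMeasurable
  · have := cor_top hf hh
    rcases hz with h1 | ⟨h1, h2⟩
    · rwa [h1, zero_mul] at this
    · rwa [h2, mul_zero] at this
  · have := cor_bot hf hh
    rcases hz with h1 | ⟨h1, h2⟩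
    · rwa [h1, zero_mul] at this
    · rwa [h1, mul_zero] at this

lemma dg2_int (D : MDat r r' u u' σ σ' a B rp rm) : Integrable (dg2 u u' σ σ' (rp - rm)) := by
  have h1 := tdG_int.const_mul (2 * (rp - rm))
  have h2 := D.psi_data.2.1.const_mul (2 * (rp - rm))
  have h3 := cor_zero D.lu D.ls (Or.inl (by ring))
  have h4 := cor_zero D.ls D.lu (Or.inr ⟨rfl, rfl⟩)
  exact ((h1.add h2).sub h3).sub h4

/-- transform of the smooth part -/
lemma ft_g2 (D : MDat r r' u u' σ σ' a B rp rm) {c0 : ℂ} (hg : Integrable (g2 u σ (rp - rm) c0))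
    {q : ℝ} (hq : q ≠ 0) : ft (g2 u σ (rp - rm) c0) q +
      (ft u' q * ft σ' (-q) + ft σ' q * ft u' (-q) - 2 * (rp - rm) * (ft σ' q * ft σ' (-q))) / q ^ 2 =
      2 * (rp - rm) * ((Lh q + q * deriv Lh q : ℝ) : ℂ) := by
  set J := rp - rm with hJ
  have hq' : (q : ℂ) ≠ 0 := Complex.ofReal_ne_zero.2 hq
  have e1 := ft_deriv (D.g2_hasDerivAt c0) hg D.dg2_int q
  have h2 := D.psi_data
  have h3 := cor_zero D.lu D.ls (Or.inl (by ring))
  have h4 := cor_zero D.ls D.lu (Or.inr ⟨rfl, rfl⟩)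
  have e2 := ft_deriv h2.1 h2.2.1 h2.2.2 q
  have e3 := ft_deriv (cor_hasDerivAt D.lu D.ls) h3 (cor'_int D.lu D.ls) q
  have e4 := ft_deriv (cor_hasDerivAt D.ls D.lu) h4 (cor'_int D.ls D.lu) q
  rw [ft_cor' D.lu D.ls] at e3
  rw [ft_cor' D.ls D.lu] at e4
  have e5 : ft (fun v => dGC v + cor' σ' σ' v) q = ft dGC q - ft σ' q * ft σ' (-q) := by
    have hh : ft (fun v => dGC v + cor' σ' σ' v) q = ft dGC q + ft (cor' σ' σ') q := by
      unfold ft
      rw [← integral_add (mul_ek_int dGC_int q) (mul_ek_int (cor'_int D.ls D.ls) q)]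
      refine integral_congr_ae (Eventually.of_forall fun t => ?_)
      simp only
      ring
    rw [hh, ft_cor' D.ls D.ls]
    ring
  rw [e5, ft_dG hq] at e2
  have e6 : ft (dg2 u u' σ σ' J) q = 2 * J * ft (fun t : ℝ => (t : ℂ) * dGC t) q +
      2 * J * ft (fun v => (Gs v : ℂ) + cor σ' σ v) q - ft (cor u' σ) q - ft (cor σ' u) q := by
    have k1 : Integrable fun t : ℝ => 2 * J * ((t : ℂ) * dGC t * ek q t) :=
      (mul_ek_int tdG_int q).const_mul _
    have k2 : Integrable fun t : ℝ => 2 * J * (((Gs t : ℂ) + cor σ' σ t) * ek q t) :=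
      (mul_ek_int h2.2.1 q).const_mul _
    have k3 : Integrable fun t : ℝ => cor u' σ t * ek q t := mul_ek_int h3 q
    have k4 : Integrable fun t : ℝ => cor σ' u t * ek q t := mul_ek_int h4 q
    have k12 : Integrable fun t : ℝ => 2 * J * ((t : ℂ) * dGC t * ek q t) +
        2 * J * (((Gs t : ℂ) + cor σ' σ t) * ek q t) := k1.add k2
    have k123 : Integrable fun t : ℝ => 2 * J * ((t : ℂ) * dGC t * ek q t) +
        2 * J * (((Gs t : ℂ) + cor σ' σ t) * ek q t) - cor u' σ t * ek q t := k12.sub k3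
    unfold ft
    rw [← integral_const_mul, ← integral_const_mul, ← integral_add k1 k2, ← integral_sub k12 k3,
      ← integral_sub k123 k4]
    refine integral_congr_ae (Eventually.of_forall fun t => ?_)
    simp only
    unfold dg2
    ring
  rw [e6, (ft_tdG hq).2] at e1
  have hI : Complex.I * Complex.I = -1 := Complex.I_mul_I
  push_cast at e1 e2 e3 e4 ⊢
  have key : (q : ℂ) ^ 2 * ft (g2 u σ J c0) q +
      (ft u' q * ft σ' (-q) + ft σ' q * ft u' (-q) - 2 * J * (ft σ' q * ft σ' (-q))) =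
      (q : ℂ) ^ 2 * (2 * J * ((Lh q : ℂ) + q * ((deriv Lh q : ℝ) : ℂ))) := by
    linear_combination (q * Complex.I) * e1 + 2 * J * e2 - e3 - e4 -
      (2 * J * q * (2 * q * (Lh q : ℂ) + q ^ 2 * ((deriv Lh q : ℝ) : ℂ)) -
        q ^ 2 * ft (g2 u σ J c0) q) * hI
  rw [← mul_right_inj' (pow_ne_zero 2 hq'), mul_add, mul_div_cancel₀ _ (pow_ne_zero 2 hq')]
  exact key

end MDat

end

end Pool.Agent.PB
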