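import Pool.Agent.PB.TraceQ

/-!
# Plan B: the trace part of the value of the Ward identity, mode X - Y, main theorem

* **`MDat.trM`**: for `(r t - r s) (Kw - Kg) (t - s) = a t s + u t σ s + σ t u s + 2 J (1 - σ t σ s)`,
  `a` integrable, `u (± ∞) = 0`, `σ (± ∞) = ± 1`, `J = r₊ - r₋`:
  `a^(q,-q) + (u'^(q) σ'^(-q) + σ'^(q) u'^(-q) - 2 J σ'^(q) σ'^(-q)) / q² = J (Um q + q Um' q)`;
* `Cm g h = (1/2π) ∫ ft g q ft h (-q) / Um q dq`, `CmD g' h' = (1/2π) ∫ ft g' q ft h' (-q) / (q² Um q) dq`;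
* **`trace_minus`**: `∫ Cm A_σ B_σ dσ + CmD u' σ' + CmD σ' u' - 2 J CmD σ' σ' = - J / 6`
  if `a t s = ∫ A_σ t B_σ s dσ`;
* `Cm_eq_CmD`: `Cm g h = CmD g' h'` for functions with limits `0`;
* `CmD_int`: integrability of the integrand of `CmD`.
-/

set_option autoImplicit false

open MeasureTheory Set Filter Topology

namespace Pool.Agent.PB

open NUMF

noncomputable section

/-! ### the symbol -/

lemma Um_eq (k : ℝ) : Um k = Up k + 2 * Lh k := by
  unfold Um Up kUm kUp Lh sk ck1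
  have e1 : Real.pi / 2 * k = 4 * (Real.pi * k / 8) := by ring
  have e2 : l * k = Real.pi * k / 8 := by unfold l; ring
  rw [e1, e2]
  by_cases h1 : k = 0
  · simp [h1]
  have h2 : Real.sinh (4 * (Real.pi * k / 8)) ≠ 0 := by
    rw [Ne, Real.sinh_eq_zero]
    intro h
    have : Real.pi * k = 0 := by linarith
    rcases mul_eq_zero.1 this with h | h
    · exact Real.pi_ne_zero h
    · exact h1 h
  field_simp
  ring

lemma Um_even (k : ℝ) : Um (-k) = Um k := by
  rw [Um_eq, Um_eq, Up_even, Lh_even]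

lemma Um_pos' {k : ℝ} (hk : 0 < k) : 0 < Um k := by
  unfold Um
  exact div_pos (Um_pos hk) hk

lemma Um_pos'' {k : ℝ} (hk : k ≠ 0) : 0 < Um k := by
  rcases lt_or_gt_of_ne hk with h | h
  · have := Um_pos' (k := -k) (by linarith)
    rwa [Um_even] at this
  · exact Um_pos' h

lemma Um_ne {k : ℝ} (hk : k ≠ 0) : Um k ≠ 0 := (Um_pos'' hk).ne'

lemma deriv_Um {q : ℝ} (hq : q ≠ 0) : deriv Um q = deriv Up q + 2 * deriv Lh q := by
  have e : Um = fun k => Up k + 2 * Lh k := funext Um_eq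
  rw [e]
  exact ((dV_eq hq).2.hasDerivAt.add ((ft_tdG hq).1.hasDerivAt.const_mul 2)).deriv

lemma logDer_even_m (k : ℝ) : 1 + -k * (deriv Um (-k) / Um (-k)) = 1 + k * (deriv Um k / Um k) := by
  have h1 : deriv Um (-k) = - deriv Um k := by
    have h2 : deriv (fun x => Um (-x)) k = -deriv Um (-k) := deriv_comp_neg Um k
    have h3 : (fun x => Um (-x)) = Um := funext Um_even
    rw [h3] at h2
    linarith
  rw [h1, Um_even]
  ring

theorem int_Um_line : Integrable (fun k => 1 + k * (deriv Um k / Um k)) ∧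
    ∫ k, (1 + k * (deriv Um k / Um k)) = -(1 / 3) * Real.pi := by
  set F : ℝ → ℝ := fun k => 1 + k * (deriv Um k / Um k) with hF
  have hE : (fun k => F |k|) = F := by
    funext k
    rcases abs_cases k with ⟨h, _⟩ | ⟨h, _⟩
    · rw [h]
    · rw [h]
      simp only [hF]
      have := logDer_even_m k
      rw [neg_mul] at this
      rw [neg_mul]
      exact this
  have h1 := integrable_comp_abs' (f := F) int_Um.1
  rw [hE] at h1
  refine ⟨h1, ?_⟩
  have h2 := integral_comp_abs (f := F)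
  rw [hE, int_Um.2] at h2
  rw [h2]
  ring

lemma Um_div {q : ℝ} (hq : q ≠ 0) (J : ℂ) : J * ((Um q + q * deriv Um q : ℝ) : ℂ) / (Um q : ℂ) =
    J * ((1 + q * (deriv Um q / Um q) : ℝ) : ℂ) := by
  have h1 : (Um q : ℂ) ≠ 0 := Complex.ofReal_ne_zero.2 (Um_ne hq)
  push_cast
  field_simp

/-! ### the transform of the regular part -/

variable {r r' u u' σ σ' : ℝ → ℂ} {a : ℝ → ℝ → ℂ} {B : ℝ} {rp rm : ℂ}

/-- **transform of the regular part on the antidiagonal** -/
theorem MDat.trM (D : MDat r r' u u' σ σ' a B rp rm) {q : ℝ} (hq : q ≠ 0) :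
    (∫ t, ∫ s, a t s * ek q (t - s)) +
      (ft u' q * ft σ' (-q) + ft σ' q * ft u' (-q) - 2 * (rp - rm) * (ft σ' q * ft σ' (-q))) / q ^ 2 =
      (rp - rm) * ((Um q + q * deriv Um q : ℝ) : ℂ) := by
  set J := rp - rm with hJ
  have hE : Continuous fun p : ℝ × ℝ => ek q (p.1 - p.2) :=
    (ek_cont_t q).comp (continuous_fst.sub continuous_snd)
  have k1 : Integrable (fun p : ℝ × ℝ => a p.1 p.2 * ek q (p.1 - p.2)) (volume.prod volume) :=
    D.int.mul_bdd (c := 1) hE.aestronglyMeasurable (Eventually.of_forall fun p => (norm_ek q _).le)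
  have k2 : Integrable (fun p : ℝ × ℝ => a (p.1 + p.2) p.1 * ek q p.2) (volume.prod volume) :=
    D.shear.mul_bdd (c := 1) ((ek_cont_t q).comp continuous_snd).aestronglyMeasurable
      (Eventually.of_forall fun p => (norm_ek q _).le)
  have e0 : ∫ t, ∫ s, a t s * ek q (t - s) = ∫ v, ∫ s, a (s + v) s * ek q v := by
    rw [integral_integral_swap k1]
    have e1 : ∀ s : ℝ, ∫ t, a t s * ek q (t - s) = ∫ v, a (s + v) s * ek q v := by
      intro s
      have := integral_add_left_eq_self (μ := volume) (fun t => a t s * ek q (t - s)) s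
      rw [← this]
      refine integral_congr_ae (Eventually.of_forall fun v => ?_)
      simp only [add_sub_cancel_left]
    simp_rw [e1]
    rw [integral_integral_swap k2]
  have hl : Integrable fun v => ∫ s, a (s + v) s := D.shear.integral_prod_right
  set c0 : ℂ := 2 * (∫ s, u s * σ s) + 2 * (rp - rm) * ∫ s, (1 - σ s * σ s) with hc0
  have hg : Integrable (g2 u σ J c0) := by
    refine (hl.sub (uK_int.const_mul J)).congr ?_
    filter_upwards [ae_ne_zero] with v hv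
    simp only [Pi.sub_apply]
    rw [D.lam_eq hv]
    ring
  have e2 : ∀ᵐ v : ℝ, ∫ s, a (s + v) s * ek q v =
      J * ((v : ℂ) * KC v * ek q v) + g2 u σ J c0 v * ek q v := by
    filter_upwards [ae_ne_zero] with v hv
    rw [integral_mul_const, D.lam_eq hv]
    ring
  have i1 : Integrable fun v : ℝ => J * ((v : ℂ) * KC v * ek q v) := (mul_ek_int uK_int q).const_mul J
  have i2 : Integrable fun v : ℝ => g2 u σ J c0 v * ek q v := mul_ek_int hg q
  have e3 := D.ft_g2 hg hq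
  rw [e0, integral_congr_ae e2, integral_add i1 i2, integral_const_mul, ft_uK hq]
  have e4 : ∫ v, g2 u σ J c0 v * ek q v = ft (g2 u σ J c0) q := rfl
  rw [e4, deriv_Um hq, Um_eq]
  push_cast at e3 ⊢
  linear_combination e3

/-! ### the covariance form -/

/-- covariance form of the mode X - Y (up to the factor 2) -/
def Cm (g h : ℝ → ℂ) : ℂ := 1 / (2 * Real.pi : ℝ) * ∫ q, ft g q * ft h (-q) / (Um q : ℂ)

/-- the same form by the derivatives -/
def CmD (g' h' : ℝ → ℂ) : ℂ :=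
  1 / (2 * Real.pi : ℝ) * ∫ q : ℝ, ft g' q * ft h' (-q) / ((q : ℂ) ^ 2 * (Um q : ℂ))

theorem Cm_eq_CmD {g g' h h' : ℝ → ℂ} (hg : Lim g g' B 0 0) (hh : Lim h h' B 0 0) :
    Cm g h = CmD g' h' := by
  unfold Cm CmD
  congr 1
  refine integral_congr_ae ?_
  filter_upwards [ae_ne_zero] with q hq
  have hq' : (q : ℂ) ≠ 0 := Complex.ofReal_ne_zero.2 hq
  have hU : (Um q : ℂ) ≠ 0 := Complex.ofReal_ne_zero.2 (Um_ne hq)
  rw [ft_deriv hg.d hg.int_zero hg.int' q, ft_deriv hh.d hh.int_zero hh.int' (-q)]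
  push_cast
  field_simp
  have hI : Complex.I ^ 2 = -1 := Complex.I_sq
  rw [hI]
  ring

variable {S : Type*} [MeasurableSpace S] {ν : Measure S} [SFinite ν] {A Bf : S → ℝ → ℂ}

/-- **the trace, mode X - Y** -/
theorem trace_minus (D : MDat r r' u u' σ σ' a B rp rm)
    (H1 : Integrable (fun p : S × (ℝ × ℝ) => A p.1 p.2.1 * Bf p.1 p.2.2)
      (ν.prod (volume.prod volume)))
    (hrep : ∀ᵐ p : ℝ × ℝ ∂(volume.prod volume), ∫ σ, A σ p.1 * Bf σ p.2 ∂ν = a p.1 p.2)
    (H2 : Integrable (fun p : S × ℝ => ft (A p.1) p.2 * ft (Bf p.1) (-p.2) / (Um p.2 : ℂ))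
      (ν.prod volume))
    (i1 : Integrable fun q : ℝ => ft u' q * ft σ' (-q) / ((q : ℂ) ^ 2 * (Um q : ℂ)))
    (i2 : Integrable fun q : ℝ => ft σ' q * ft u' (-q) / ((q : ℂ) ^ 2 * (Um q : ℂ)))
    (i3 : Integrable fun q : ℝ => ft σ' q * ft σ' (-q) / ((q : ℂ) ^ 2 * (Um q : ℂ))) :
    (∫ s, Cm (A s) (Bf s) ∂ν) + CmD u' σ' + CmD σ' u' - 2 * (rp - rm) * CmD σ' σ' =
      -(1 / 6) * (rp - rm) := by
  have hH2 : Integrable fun q => ∫ s, ft (A s) q * ft (Bf s) (-q) / (Um q : ℂ) ∂ν :=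
    H2.integral_prod_right
  have hpi : (Real.pi : ℂ) ≠ 0 := Complex.ofReal_ne_zero.2 Real.pi_ne_zero
  have e : ∀ᵐ q : ℝ, (∫ s, ft (A s) q * ft (Bf s) (-q) / (Um q : ℂ) ∂ν) +
      ft u' q * ft σ' (-q) / ((q : ℂ) ^ 2 * (Um q : ℂ)) +
      ft σ' q * ft u' (-q) / ((q : ℂ) ^ 2 * (Um q : ℂ)) -
      2 * (rp - rm) * (ft σ' q * ft σ' (-q) / ((q : ℂ) ^ 2 * (Um q : ℂ))) =
      (rp - rm) * ((1 + q * (deriv Um q / Um q) : ℝ) : ℂ) := by
    filter_upwards [ae_ne_zero] with q hq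
    have hq' : (q : ℂ) ≠ 0 := Complex.ofReal_ne_zero.2 hq
    have hU : (Um q : ℂ) ≠ 0 := Complex.ofReal_ne_zero.2 (Um_ne hq)
    rw [← Um_div hq, ← D.trM hq, integral_div, ft_prod H1 hrep q]
    field_simp
    ring
  have j1 := hH2.add i1
  have j2 := j1.add i2
  have i4 := i3.const_mul (2 * (rp - rm))
  have key := integral_congr_ae e
  have s1 := integral_sub j2 i4
  have s2 := integral_add j1 i2
  have s3 := integral_add hH2 i1
  simp only [Pi.add_apply] at s1 s2 s3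
  rw [s1, s2, s3, integral_const_mul, integral_const_mul, integral_complex_ofReal,
    int_Um_line.2] at key
  unfold Cm CmD
  rw [integral_const_mul, integral_integral_swap H2]
  push_cast at key ⊢
  field_simp
  linear_combination 6 * key

/-! ### integrability -/

lemma q2Um_ge {q : ℝ} (hq : 0 < q) : (1 + q) / 2 ≤ q ^ 2 * Um q := by
  have hpi := Real.pi_pos
  have hpi3 := Real.pi_gt_three
  have e0 : q ^ 2 * Um q = q * kUm q := by
    unfold Um
    field_simp
  rw [e0, kUm_eq]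
  set y := Real.pi * q / 8 with hy
  have hy0 : 0 < y := by positivity
  have hs : 0 < Real.sinh (4 * y) := Real.sinh_pos_iff.2 (by positivity)
  have hc := Real.cosh_pos (1 / 2 * y)
  have h1 : Real.exp (9 / 2 * y) / 8 ≤ Real.cosh (3 / 2 * y) ^ 3 := by
    have k1 : Real.exp (3 / 2 * y) / 2 ≤ Real.cosh (3 / 2 * y) := by
      rw [Real.cosh_eq]
      have := Real.exp_pos (-(3 / 2 * y))
      linarith
    have k2 : (Real.exp (3 / 2 * y) / 2) ^ 3 = Real.exp (9 / 2 * y) / 8 := by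
      have e : ((3 : ℕ) : ℝ) * (3 / 2 * y) = 9 / 2 * y := by
        push_cast
        ring
      rw [div_pow, ← Real.exp_nat_mul, e]
      norm_num
    rw [← k2]
    have := Real.exp_pos (3 / 2 * y)
    gcongr
  have h2 : Real.cosh (1 / 2 * y) ≤ Real.exp (1 / 2 * y) := cosh_le_exp (by
    rw [abs_of_pos (by positivity)])
  have h3 : Real.sinh (4 * y) ≤ Real.exp (4 * y) / 2 := by
    rw [Real.sinh_eq]
    have := Real.exp_pos (-(4 * y))
    linarith
  have h4 : Real.sinh (4 * y) ≤ 4 * y * Real.exp (4 * y) := by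
    rw [Real.sinh_eq]
    have k1 : 1 - 4 * y * 2 ≤ Real.exp (-(4 * y * 2)) := by
      have := Real.add_one_le_exp (-(4 * y * 2))
      linarith
    have k2 : Real.exp (-(4 * y)) = Real.exp (-(4 * y * 2)) * Real.exp (4 * y) := by
      rw [← Real.exp_add]
      congr 1
      ring
    have k3 := Real.exp_pos (4 * y)
    rw [k2]
    nlinarith
  have h5 : Real.exp (4 * y) * Real.exp (1 / 2 * y) = Real.exp (9 / 2 * y) := by
    rw [← Real.exp_add]
    congr 1
    ring
  have hE := Real.exp_pos (9 / 2 * y)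
  have h6 : Real.sinh (4 * y) * Real.cosh (1 / 2 * y) ≤ Real.exp (9 / 2 * y) / 2 := by
    rw [← h5]
    calc Real.sinh (4 * y) * Real.cosh (1 / 2 * y) ≤ Real.exp (4 * y) / 2 * Real.exp (1 / 2 * y) := by
          gcongr
      _ = _ := by ring
  have h7 : Real.sinh (4 * y) * Real.cosh (1 / 2 * y) ≤ 4 * y * Real.exp (9 / 2 * y) := by
    rw [← h5]
    calc Real.sinh (4 * y) * Real.cosh (1 / 2 * y) ≤
        4 * y * Real.exp (4 * y) * Real.exp (1 / 2 * y) := by gcongr
      _ = _ := by ring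
  have h8 : (1 + q) / 2 * (Real.sinh (4 * y) * Real.cosh (1 / 2 * y)) ≤
      q * (4 * Real.pi * (Real.exp (9 / 2 * y) / 8)) := by
    have a1 : 1 / 2 * (Real.sinh (4 * y) * Real.cosh (1 / 2 * y)) ≤ 1 / 2 * (4 * y * Real.exp (9 / 2 * y)) := by
      gcongr
    have a2 : q / 2 * (Real.sinh (4 * y) * Real.cosh (1 / 2 * y)) ≤ q / 2 * (Real.exp (9 / 2 * y) / 2) := by
      gcongr
    have a3 : 1 / 2 * (4 * y * Real.exp (9 / 2 * y)) = q * Real.pi / 4 * Real.exp (9 / 2 * y) := by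
      rw [hy]
      ring
    have a4 : q / 2 * (Real.exp (9 / 2 * y) / 2) ≤ q * Real.pi / 4 * Real.exp (9 / 2 * y) := by
      have : 0 < q * Real.exp (9 / 2 * y) := by positivity
      nlinarith
    nlinarith
  rw [mul_div_assoc', mul_div_assoc', le_div_iff₀ (by positivity)]
  refine h8.trans ?_
  gcongr

lemma inv_q2Um_le (q : ℝ) : ‖(((q : ℂ) ^ 2 * (Um q : ℂ)))⁻¹‖ ≤ 2 / (1 + |q|) := by
  have key : ∀ q : ℝ, 0 < q → ‖(((q : ℂ) ^ 2 * (Um q : ℂ)))⁻¹‖ ≤ 2 / (1 + |q|) := by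
    intro q hq
    have h1 := q2Um_ge hq
    have h2 : ((q : ℂ) ^ 2 * (Um q : ℂ)) = ((q ^ 2 * Um q : ℝ) : ℂ) := by push_cast; ring
    rw [h2, norm_inv, Complex.norm_real, Real.norm_eq_abs, abs_of_pos hq,
      abs_of_pos (lt_of_lt_of_le (by positivity) h1), ← inv_div]
    exact inv_anti₀ (by positivity) h1
  rcases lt_trichotomy q 0 with h | h | h
  · have := key (-q) (by linarith)
    rw [Um_even, abs_neg] at this
    push_cast at this
    rwa [neg_sq] at this
  · subst h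
    simp
  · exact key q h

lemma ft_bdd {f : ℝ → ℂ} (q : ℝ) : ‖ft f q‖ ≤ ∫ t, ‖f t‖ := by
  unfold ft
  refine (norm_integral_le_integral_norm _).trans (le_of_eq ?_)
  refine integral_congr_ae (Eventually.of_forall fun t => ?_)
  simp only [norm_mul, norm_ek, mul_one]

lemma ft_cont {f : ℝ → ℂ} (hf : Integrable f) : Continuous (ft f) := by
  unfold ft
  refine continuous_of_dominated (bound := fun t => ‖f t‖)
    (fun q => (mul_ek_int hf q).aestronglyMeasurable) (fun q => Eventually.of_forall fun t => ?_)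
    hf.norm (Eventually.of_forall fun t => ?_)
  · rw [norm_mul, norm_ek, mul_one]
  · exact continuous_const.mul (ek_cont.comp (continuous_id.prodMk continuous_const))

/-- decay of the transform of a differentiable function -/
lemma ft_decay {φ φ' : ℝ → ℂ} (hd : ∀ v, HasDerivAt φ (φ' v) v) (hi : Integrable φ)
    (hi' : Integrable φ') (q : ℝ) :
    ‖ft φ q‖ ≤ ((∫ t, ‖φ t‖) + ∫ t, ‖φ' t‖) / (1 + |q|) := by
  have h1 := ft_deriv hd hi hi' q
  have h2 : ‖ft φ' q‖ = |q| * ‖ft φ q‖ := by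
    rw [h1, norm_mul, norm_mul, Complex.norm_I, mul_one, Complex.norm_real, Real.norm_eq_abs]
  have h3 := ft_bdd (f := φ) q
  have h4 := ft_bdd (f := φ') q
  rw [le_div_iff₀ (by positivity)]
  rw [h2] at h4
  linarith

lemma Um_meas : Measurable Um := by
  have e : Um = fun k => Up k + 2 * Lh k := funext Um_eq
  rw [e]
  have h1 := NUE.Lh_meas
  have h2 : Measurable Up := by
    unfold Up kUp
    fun_prop
  fun_prop

/-- **integrability of the integrand of `CmD`** -/
theorem CmD_int {g' h' : ℝ → ℂ} {C₁ C₂ : ℝ} (hg : Integrable g') (hh : Integrable h')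
    (b1 : ∀ q, ‖ft g' q‖ ≤ C₁) (b2 : ∀ q, ‖ft h' q‖ ≤ C₂ / (1 + |q|)) :
    Integrable fun q : ℝ => ft g' q * ft h' (-q) / ((q : ℂ) ^ 2 * (Um q : ℂ)) := by
  have hU := Um_meas
  have hC1 : 0 ≤ C₁ := (norm_nonneg _).trans (b1 0)
  have hC2 : 0 ≤ C₂ := by
    have := (norm_nonneg _).trans (b2 0)
    simpa using this
  have hint : Integrable fun q : ℝ => C₁ * C₂ * 2 * (1 + q ^ 2)⁻¹ :=
    integrable_inv_one_add_sq.const_mul _
  refine hint.mono' ?_ (Eventually.of_forall fun q => ?_)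
  · refine AEStronglyMeasurable.div₀ ?_ ?_
    · exact ((ft_cont hg).mul ((ft_cont hh).comp continuous_neg)).aestronglyMeasurable
    · exact (Measurable.aestronglyMeasurable (by fun_prop))
  · have h1 := b1 q
    have h2 := b2 (-q)
    rw [abs_neg] at h2
    have h3 := inv_q2Um_le q
    rw [div_eq_mul_inv, norm_mul, norm_mul]
    have h4 : (1 : ℝ) + q ^ 2 ≤ (1 + |q|) * (1 + |q|) := by
      have := abs_nonneg q
      nlinarith [sq_abs q]
    calc ‖ft g' q‖ * ‖ft h' (-q)‖ * ‖((q : ℂ) ^ 2 * (Um q : ℂ))⁻¹‖ ≤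
        C₁ * (C₂ / (1 + |q|)) * (2 / (1 + |q|)) := by gcongr
      _ = C₁ * C₂ * 2 * ((1 + |q|) * (1 + |q|))⁻¹ := by
          have : (1 : ℝ) + |q| ≠ 0 := by positivity
          field_simp
      _ ≤ _ := by gcongr

end

end Pool.Agent.PB
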