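import Pool.Agent.PB.UXL
import Pool.Agent.PB.TopS

/-!
# Plan B: U1, U3, U4 for the dislocated function with `s` missing rows (helper79)

* `famS s` (`s ≤ 1`): rows `x, 0, …, 0` (`m - s` rows), legs at `z`, parameters and curve of `m` rows;
  `famS 0` is `famL`, `famT := famS 1` is the left end of (TR);
* **`ux_famS`**, `ux_famT`: `StatU → UX (famS s)`.
-/

set_option autoImplicit false
set_option linter.unusedSectionVars false

noncomputable section

open Complex MeasureTheory Finset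
open scoped ENNReal

namespace PBU

open NUO NUP1 NUP1S NUP1S.Ab NUP1S.AbC NUGC PBF PBP
open PBT (obL linS etL etL' crvL topS HlegS hokS domHS)
open PBL (mu1)
open PotH (EnvH DomH CrvP CutR crH)

attribute [local instance] NUSea.seaP

/-- **the dislocated function with `m - s` rows at the parameters of `m` rows**: index `(x, z)` -/
def famS (s : ℕ) : Fam (ℂ × ℂ) where
  Z ep m i := PBX.ZL (4 / 3 * (1 - ep)) (PBL.mu1 (m - 1 - s) i.1) [I, -I] [] i.2
  Pf m i := Pool.Agent.PB.Pf i.2 (PBL.mu1 (m - 1 - s) i.1) (PBL.mu1 (m - 1 - s) i.1)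
  top m := 2 * m
  ok m i := |i.1.re| ≤ NUP1.l / 10 ∧ |i.1.im| ≤ 2 ∧ -(9 / 10 * NUP1.l) ≤ i.2.re ∧
    i.2.re < 37 / 10 * NUP1.l ∧ |i.2.im| ≤ 3 / 20 * Real.log m + 2
  bd _ i := Real.exp (2 * |i.2.im|)

theorem famS_zero : famS 0 = famL := rfl

/-- **the left end of (TR)**: `m - 1` rows, parameters of `m` rows -/
def famT : Fam (ℂ × ℂ) := famS 1

/-- one body data of `famS` -/
def BS (s : ℕ) (ep : ℝ) (m : ℕ) (i : ℂ × ℂ) : OB := obL (m - 1 - s) (4 / 3 * (1 - ep)) i.1 i.2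

/-- exponent of `famS` -/
def linFS (s : ℕ) (e1 J : ℝ) (m : ℕ) (i : ℂ × ℂ) : ℝ := linS e1 J s m i.1 i.2

/-- **`TopF` for the dislocated function, `s` rows missing** -/
theorem topF_S (hS : NUStabP.StabProd) {s : ℕ} (hs : s ≤ 1) : TopF (famS s) (BS s) (linFS s) := by
  intro K K2
  obtain ⟨c1, hc1, H⟩ := topS hS K K2
  refine ⟨c1, hc1, fun c' hc' δ hδ => ?_⟩
  obtain ⟨a0, ha0, H⟩ := H c' hc' δ hδ
  refine ⟨a0, ha0, fun ep hep hep1 e1 he he1 J hJ hsm => ?_⟩
  obtain ⟨C, hC, m0, H⟩ := H ep hep hep1 e1 he he1 J hJ hsm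
  refine ⟨C, hC, m0 + 2, fun m hm i hi φ w Q Bw d hQ hBw hd hw hg => ?_⟩
  obtain ⟨k, hk⟩ : ∃ k, k = m - 1 - s := ⟨_, rfl⟩
  obtain ⟨x, z⟩ := i
  obtain ⟨h1, h2, h3, h4, h5⟩ := hi
  have key := H k (by omega) s hs m (by omega) x z h1 h2 h3 h4 h5 (fun _ => Leg.cc (k + 1))
    (fun _ => norm_ccL _) φ w Q Bw d hQ hBw hd hw
  rw [hk] at key
  exact key hg

/-- **curve, cutoff, potential and one body data of the dislocated function, `s` rows missing** -/
theorem envF_S {s : ℕ} (hs : s ≤ 1) : EnvF (famS s) (BS s) (linFS s) := by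
  have hl : 0 < NUMF.l := NUMF.l_pos
  have hll : NUP1.l = NUMF.l := rfl
  obtain ⟨B0, N0, hB0, hN0, HH⟩ := hokS (δ := NUMF.l / 10) (by positivity) (by linarith)
  refine ⟨B0, N0, hB0, hN0, fun ep hep hep1 e1 he he1 J hJ => ?_⟩
  obtain ⟨Cc, hCc, m1, Hc⟩ := crvL he he1 hJ
  obtain ⟨C0, hC0, m2, -, Hcut⟩ := PotH.exists_cutR hep hep1 he he1 Cc 3 (hh := 2) (by norm_num)
  obtain ⟨m3, HH⟩ := HH e1 he
  refine ⟨Cc, C0, hCc, hC0, max (max m1 m2) (max m3 2), fun m hm i hi => ?_⟩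
  have k1 : m1 ≤ m := (le_max_left _ _).trans ((le_max_left _ _).trans hm)
  have k2 : m2 ≤ m := (le_max_right _ _).trans ((le_max_left _ _).trans hm)
  have k3 : m3 ≤ m := (le_max_left _ _).trans ((le_max_right _ _).trans hm)
  have k4 : 2 ≤ m := (le_max_right _ _).trans ((le_max_right _ _).trans hm)
  obtain ⟨Bc, Bc', Hcut⟩ := Hcut m k2
  have hcv := Hc m k1
  obtain ⟨x, z⟩ := i
  obtain ⟨h1, h2, h3, h4, h5⟩ := hi
  dsimp only at h1 h2 h3 h4 h5
  rw [hll] at h1 h3 h4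
  obtain ⟨hA, H', hH⟩ := HH m k3 Cc (etL e1 J m) (etL' e1 J m) hcv s hs z x
    (by linarith) (by linarith) (by linarith)
  obtain ⟨k, hk⟩ : ∃ k, k = m - 1 - s := ⟨_, rfl⟩
  have hkm : m = k + 1 + s := by omega
  have hdom := domHS s (δ := NUMF.l / 10) (by positivity) (by linarith) (η := etL e1 J m)
    hA (z := z) (x := x) (by linarith) (by linarith) (by linarith) k (4 / 3 * (1 - ep)) g0
  rw [← hkm, hk] at hdom
  refine ⟨PotH.cfW ep (List.ofFn (mu1 (m - 1 - s) x) ++ [I, -I]) (etL e1 J m), Bc, Bc',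
    HlegS s z x (etL e1 J m), H', fun th hth => ?_, le_rfl⟩
  refine
    { crv := hcv
      cut := Hcut k (List.ofFn (mu1 (m - 1 - s) x) ++ [I, -I]) [x, I, -I] ?_ _ _ hcv
      hok := hH th _ hth
      nn := PBT.obL_nn _ _ _ _
      dom := hdom }
  rw [← hk]
  refine
    { perm := ?_
      len := by simp
      pt := ?_
      up := by omega
      dn := by omega }
  · rw [PBL.ofFn_mu1]
    have : (x :: List.replicate k (0 : ℂ)).Perm (List.replicate k 0 ++ [x]) :=
      List.perm_append_comm (l₁ := [x]) (l₂ := List.replicate k 0)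
    refine (this.append_right _).trans ?_
    rw [List.append_assoc]
    rfl
  · intro y hy
    simp only [List.mem_cons, List.not_mem_nil, or_false] at hy
    have hl1 := NUP1.l_pos
    rcases hy with rfl | rfl | rfl
    · exact ⟨by linarith, h2⟩
    · simp
      positivity
    · simp
      positivity

/-- **U1, U3, U4 for the dislocated function, `s` rows missing** -/
theorem ux_famS (hP : NUStabP.StabProd) (hS : StatU) {s : ℕ} (hs : s ≤ 1) : UX (famS s) :=
  ux_of (F := famS s) (B := BS s) (lin := linFS s) (fun m => by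
    show 2 * m ≤ 3 * m
    omega) (fun _ _ => (Real.exp_pos _).le) hS (topF_S hP hs) (envF_S hs)

theorem ux_famT (hP : NUStabP.StabProd) (hS : StatU) : UX famT := ux_famS hP hS le_rfl

end PBU

end
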