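import Pool.Agent.PB.UProps

/-!
# Plan B: U1, U3, U4 of a family inside another family (helper79)

* `FS_map`: the functional of `F'` at the index `j` is at most `C` times the functional of `F` at
  `φ m j`, when the one body functions agree, the prefactor is at most `C` times larger and the
  sum over the number of quanta is shorter;
* **`UX.map`**: then `UX F → UX F'` (constants are absorbed in `m ^ ε`).
-/

set_option autoImplicit false
set_option linter.unusedSectionVars false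

noncomputable section

open Complex MeasureTheory Finset
open scoped ENNReal

namespace PBU

open NUO NUP1 NUP1S NUP1S.Ab NUP1S.AbC NUGC PBF PBP

variable [NUSea.Sea] {ι ι' : Type} {F : Fam ι} {F' : Fam ι'}

theorem FS_map {ep e1 J : ℝ} {m : ℕ} {j : ι'} {i : ι} {C : ℝ}
    (hZ : F'.Z ep m j = F.Z ep m i) (hPf : ‖F'.Pf m j‖ ≤ C * ‖F.Pf m i‖)
    (htop : F'.top m ≤ F.top m) (φ : InsE) :
    FS F' ep e1 J m j (fun _ => 1) φ ≤ ENNReal.ofReal C * FS F ep e1 J m i (fun _ => 1) φ := by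
  have hPe : ‖F'.Pf m j‖ₑ ≤ ENNReal.ofReal C * ‖F.Pf m i‖ₑ := by
    rw [← ofReal_norm, ← ofReal_norm]
    refine (ENNReal.ofReal_le_ofReal hPf).trans (le_of_eq ?_)
    rw [ENNReal.ofReal_mul' (norm_nonneg _)]
  rw [FS_eq, FS_eq, hZ, ← mul_assoc]
  refine mul_le_mul' hPe (Finset.sum_le_sum_of_subset ?_)
  exact Finset.range_mono (by omega)

/-- constants are absorbed in a power of `m` -/
theorem const_le_rpow (C : ℝ) {ε : ℝ} (hε : 0 < ε) : ∃ m0 : ℕ, ∀ m ≥ m0, C ≤ (m : ℝ) ^ ε := by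
  have h := (tendsto_rpow_atTop hε).comp (tendsto_natCast_atTop_atTop (R := ℝ))
  obtain ⟨m0, h0⟩ := Filter.eventually_atTop.1 (h.eventually_ge_atTop C)
  exact ⟨m0, fun m hm => h0 m hm⟩

/-- **the bounds of a family inside another family** -/
theorem UX.map (h : UX F) (φ : ℕ → ι' → ι) {C C' : ℝ} (hC : 0 ≤ C)
    (hbd : ∀ m j, 0 ≤ F'.bd m j) (m1 : ℕ) (H : ∀ m ≥ m1, ∀ j, F'.ok m j →
      F.ok m (φ m j) ∧ (∀ ep, F'.Z ep m j = F.Z ep m (φ m j)) ∧
      ‖F'.Pf m j‖ ≤ C * ‖F.Pf m (φ m j)‖ ∧ F'.top m ≤ F.top m ∧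
      F.bd m (φ m j) ≤ C' * F'.bd m j) : UX F' := by
  intro p K ε hε
  obtain ⟨a0, ha0, h0⟩ := h p K (ε / 2) (by positivity)
  refine ⟨a0, ha0, fun ep e1 J hep he1 hJ hsm => ?_⟩
  intro C0 y₁ y₂ h1 h2
  obtain ⟨m0, h3⟩ := h0 ep e1 J hep he1 hJ hsm C0 y₁ y₂ h1 h2
  obtain ⟨m2, h4⟩ := const_le_rpow (C * C') (ε := ε / 2) (by positivity)
  refine ⟨max (max m0 m1) (max m2 1), fun m hm j hj ρ hρ B hB w hw g g' hg => ?_⟩
  have k0 : m0 ≤ m := by omega
  have k1 : m1 ≤ m := by omega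
  have k2 : m2 ≤ m := by omega
  have k3 : (0 : ℝ) < m := by
    have : 0 < m := by omega
    exact_mod_cast this
  obtain ⟨g1, g2, g3, g4, g5⟩ := H m k1 j hj
  have key := h3 m k0 (φ m j) g1 ρ hρ B hB w hw g g' hg
  refine (FS_map (g2 ep) g3 g4 _).trans ((mul_le_mul' le_rfl key).trans ?_)
  rw [← ENNReal.ofReal_mul hC]
  refine ENNReal.ofReal_le_ofReal ?_
  have e1' : (m : ℝ) ^ ε = (m : ℝ) ^ (ε / 2) * (m : ℝ) ^ (ε / 2) := by
    rw [← Real.rpow_add k3]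
    congr 1
    ring
  have hp : 0 ≤ (m : ℝ) ^ (ε / 2) := by positivity
  have hb := hbd m j
  calc C * (B * (m : ℝ) ^ (ε / 2) * F.bd m (φ m j))
      ≤ C * (B * (m : ℝ) ^ (ε / 2) * (C' * F'.bd m j)) := by gcongr
    _ = B * ((C * C') * (m : ℝ) ^ (ε / 2)) * F'.bd m j := by ring
    _ ≤ B * ((m : ℝ) ^ (ε / 2) * (m : ℝ) ^ (ε / 2)) * F'.bd m j := by
        have := h4 m k2
        gcongr
    _ = _ := by rw [e1']

end PBU

end
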