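import Pool.Agent.PB.LinW
import Pool.Agent.PB.MFrho2
import Pool.Agent.PB.ObDef
import Pool.Agent.NUSea.Inst

/-!
# Plan B: rows and legs against the sea at rows `0`, on the curve

`H_row`, `H_leg` : the linear terms `s ∫ P log rwC x (ζ)`, `s ∫ P log thZ z (ζ)` on the curve `pA η`:
`s mE x + O(1)`, `s lE z - 6 l h(Im z) + O(1)`, uniformly in `|Re x| ≤ l / 2` resp.
`- 9 l / 10 ≤ Re z ≤ 37 l / 10`, all heights (`h = s P η`).
-/

set_option autoImplicit false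
set_option linter.unusedSectionVars false

open MeasureTheory Set Filter Topology Complex

namespace PBV

open NUMF (l l_pos)
open NUKer NUAct
open NUO (yw bk bk1 wz wz_re wz_im ll_pos red)
open NUSp (wd wd1 wn wq wph ka Asy)
open PBO (rwC thZ)

noncomputable section

/-! ### the words -/

/-- word of a row -/
def Lr : List (ℤ × ℝ) := [(3, 2), (0, -1), (-2, -1)]

/-- word of the two legs -/
def Lz : List (ℤ × ℝ) := [(3, 1), (-2, -1)]

lemma red_id {y : ℝ} (h1 : -4 ≤ y) (h2 : y < 4) : red y = y := by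
  unfold red
  have : round (y / 8) = 0 := by
    rw [round_eq]
    exact Int.floor_eq_iff.2 ⟨by push_cast; linarith, by push_cast; linarith⟩
  rw [this]
  simp

lemma red_sub8 {y : ℝ} (h1 : 4 ≤ y) (h2 : y < 12) : red y = y - 8 := by
  unfold red
  have : round (y / 8) = 1 := by
    rw [round_eq]
    exact Int.floor_eq_iff.2 ⟨by push_cast; linarith, by push_cast; linarith⟩
  rw [this]
  simp

lemma yw_eq (w : ℂ) (k : ℤ) : yw w k = red ((3 - k : ℤ) + w.re / l) * l := by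
  unfold yw
  rw [sub_neg_eq_add]

lemma yw_id {w : ℂ} {k : ℤ} (h1 : (-4 - (3 - k : ℤ) : ℝ) * l ≤ w.re) (h2 : w.re < (4 - (3 - k : ℤ) : ℝ) * l) :
    yw w k = (3 - k : ℤ) * l + w.re := by
  have hl := l_pos
  rw [yw_eq, red_id]
  · field_simp
  · rw [← sub_le_iff_le_add', le_div_iff₀ hl]
    exact h1
  · rw [← lt_sub_iff_add_lt', div_lt_iff₀ hl]
    exact h2

lemma yw_sub8 {w : ℂ} {k : ℤ} (h1 : (4 - (3 - k : ℤ) : ℝ) * l ≤ w.re) (h2 : w.re < (12 - (3 - k : ℤ) : ℝ) * l) :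
    yw w k = (3 - k : ℤ) * l + w.re - 8 * l := by
  have hl := l_pos
  rw [yw_eq, red_sub8]
  · field_simp
  · rw [← sub_le_iff_le_add', le_div_iff₀ hl]
    exact h1
  · rw [← lt_sub_iff_add_lt', div_lt_iff₀ hl]
    exact h2

variable {x z : ℂ}

lemma yr (hx : |x.re| ≤ l / 2) : yw x 3 = x.re ∧ yw x 0 = 3 * l + x.re ∧ yw x (-2) = x.re - 3 * l := by
  have hl := l_pos
  obtain ⟨h1, h2⟩ := abs_le.1 hx
  refine ⟨?_, ?_, ?_⟩
  · rw [yw_id] <;> push_cast <;> linarith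
  · rw [yw_id] <;> push_cast <;> linarith
  · rw [yw_sub8] <;> push_cast <;> linarith

lemma yz (h1 : -(9 / 10 * l) ≤ z.re) (h2 : z.re ≤ 37 / 10 * l) :
    yw z 3 = z.re ∧ yw z (-2) = z.re - 3 * l := by
  have hl := l_pos
  refine ⟨?_, ?_⟩
  · rw [yw_id] <;> push_cast <;> linarith
  · rw [yw_sub8] <;> push_cast <;> linarith

lemma fit_r (hx : |x.re| ≤ l / 2) : Fit (1 / 10) Lr x := by
  have hl := l_pos
  obtain ⟨h3, h0, hm⟩ := yr hx
  obtain ⟨h1, h2⟩ := abs_le.1 hx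
  intro kc hk
  simp only [Lr, List.mem_cons, List.not_mem_nil, or_false] at hk
  rcases hk with rfl | rfl | rfl
  · show |yw x 3| ≤ _
    rw [h3, abs_le]; constructor <;> linarith
  · show |yw x 0| ≤ _
    rw [h0, abs_le]; constructor <;> linarith
  · show |yw x (-2)| ≤ _
    rw [hm, abs_le]; constructor <;> linarith

lemma fit_z (h1 : -(9 / 10 * l) ≤ z.re) (h2 : z.re ≤ 37 / 10 * l) : Fit (1 / 10) Lz z := by
  have hl := l_pos
  obtain ⟨h3, hm⟩ := yz h1 h2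
  intro kc hk
  simp only [Lz, List.mem_cons, List.not_mem_nil, or_false] at hk
  rcases hk with rfl | rfl
  · show |yw z 3| ≤ _
    rw [h3, abs_le]; constructor <;> linarith
  · show |yw z (-2)| ≤ _
    rw [hm, abs_le]; constructor <;> linarith

lemma wph_r (hx : |x.re| ≤ l / 2) : wph Lr x = 0 := by
  obtain ⟨h3, h0, hm⟩ := yr hx
  simp only [Lr, NUSp.wph_cons, NUSp.wph_nil]
  rw [h3, h0, hm]
  ring

lemma wph_z (h1 : -(9 / 10 * l) ≤ z.re) (h2 : z.re ≤ 37 / 10 * l) : wph Lz z = 3 * l := by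
  obtain ⟨h3, hm⟩ := yz h1 h2
  simp only [Lz, NUSp.wph_cons, NUSp.wph_nil]
  rw [h3, hm]
  ring

lemma wq_r : wq Lr = 0 := by
  simp only [Lr, NUSp.wq_cons, NUSp.wq_nil]
  norm_num

lemma wq_z : wq Lz = 0 := by
  simp only [Lz, NUSp.wq_cons, NUSp.wq_nil]
  norm_num

/-! ### the moduli -/

lemma log_bk (w : ℂ) (k : ℤ) (ζ : ℂ) :
    (bk w k ζ).re = Real.log ‖sin ((l + I * ζ) - w + k * l)‖ := by
  rw [NUO.norm_sin_bk]
  unfold bk
  rw [Complex.log_re]

lemma sin_neF {δ : ℝ} {w : ℂ} {k : ℤ} (h : |yw w k| ≤ (4 - δ) * l) {ζ : ℂ} (hζ : |ζ.im| < δ * l) :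
    0 < ‖sin ((l + I * ζ) - w + k * l)‖ := by
  have h4 := four_l'
  rw [NUO.norm_sin_bk]
  refine norm_pos_iff.2 (NUMF.cosh_ne ?_)
  rw [wz_im]
  have h2 := abs_add_le ζ.im (yw w k)
  linarith

/-- the factor of a row is the word -/
lemma log_rwC (hx : |x.re| ≤ l / 2) {ζ : ℂ} (hζ : |ζ.im| < 1 / 10 * l) :
    Real.log (rwC x (l + I * ζ)) = (wd Lr x ζ).re := by
  have hF := fit_r hx
  have s3 := sin_neF (hF (3, 2) (by simp [Lr])) hζ
  have s0 := sin_neF (hF (0, -1) (by simp [Lr])) hζ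
  have s2 := sin_neF (hF (-2, -1) (by simp [Lr])) hζ
  simp only [Lr, NUSp.wd_cons, NUSp.wd_nil, Complex.add_re, Complex.re_ofReal_mul,
    Complex.zero_re, log_bk]
  unfold rwC
  have e3 : (l : ℂ) + I * ζ - x + 3 * NUP1.l = (l + I * ζ) - x + ((3 : ℤ) : ℂ) * l := by
    push_cast
    rfl
  have e0 : (l : ℂ) + I * ζ - x = (l + I * ζ) - x + ((0 : ℤ) : ℂ) * l := by push_cast; ring
  have e2 : (l : ℂ) + I * ζ - x - 2 * NUP1.l = (l + I * ζ) - x + ((-2 : ℤ) : ℂ) * l := by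
    push_cast
    have : (NUP1.l : ℂ) = (l : ℂ) := rfl
    rw [this]
    ring
  rw [e3, e2]
  conv_lhs =>
    rw [show ‖sin ((l : ℂ) + I * ζ - x)‖ = ‖sin ((l + I * ζ) - x + ((0 : ℤ) : ℂ) * l)‖ by rw [← e0]]
  rw [Real.log_div (by positivity) (mul_pos s0 s2).ne', Real.log_pow, Real.log_mul s0.ne' s2.ne']
  push_cast
  ring

/-- the factor of the legs is the word -/
lemma log_thZ (h1 : -(9 / 10 * l) ≤ z.re) (h2 : z.re ≤ 37 / 10 * l) {ζ : ℂ}
    (hζ : |ζ.im| < 1 / 10 * l) : Real.log (thZ z (l + I * ζ)) = (wd Lz z ζ).re := by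
  have hF := fit_z h1 h2
  have s3 := sin_neF (hF (3, 1) (by simp [Lz])) hζ
  have s2 := sin_neF (hF (-2, -1) (by simp [Lz])) hζ
  simp only [Lz, NUSp.wd_cons, NUSp.wd_nil, Complex.add_re, Complex.re_ofReal_mul,
    Complex.zero_re, log_bk]
  unfold thZ
  have hll : (NUP1.l : ℂ) = (l : ℂ) := rfl
  have e3 : z - ((l : ℂ) + I * ζ) - 3 * NUP1.l = -((l + I * ζ) - z + ((3 : ℤ) : ℂ) * l) := by
    push_cast
    rw [hll]
    ring
  have e2 : z - ((l : ℂ) + I * ζ) + 2 * NUP1.l = -((l + I * ζ) - z + ((-2 : ℤ) : ℂ) * l) := by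
    push_cast
    rw [hll]
    ring
  rw [e3, e2, Complex.sin_neg, norm_neg, Complex.sin_neg, norm_neg, Real.log_div s3.ne' s2.ne']
  ring

lemma pA_zt (η : ℝ → ℝ) (t : ℝ) : NUO.pA η t = l + I * zt (iD η) t := by
  have hll : (NUP1.l : ℂ) = (l : ℂ) := rfl
  unfold NUO.pA NUP1.vl NUAct.zt iD
  push_cast
  rw [hll]
  linear_combination (-(η t : ℂ)) * I_sq

/-! ### the curve -/

/-- constant of the strip -/
def Kc : ℝ := 4 * ka (1 / 10) (1 / 20 * l)

lemma ka_nonneg : 0 ≤ ka (1 / 10) (1 / 20 * l) := by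
  have hl := l_pos
  unfold ka
  have : 0 < Real.sin (1 / 10 * l - 1 / 20 * l) := by
    refine Real.sin_pos_of_pos_of_lt_pi (by linarith) ?_
    have : l = Real.pi / 8 := rfl
    linarith [Real.pi_pos]
  positivity

/-- **a neutral word on the curve** -/
theorem exists_word [NUSea.Sea] : ∃ C : ℝ, 1 ≤ C ∧ ∀ {s ε M b : ℝ} {e η η1 : ℝ → ℝ}, 0 ≤ s →
    ε ≤ 1 / 100 → NUSea.Cur s ε M b e η → (∀ t, HasDerivAt η (η1 t) t) → 0 ≤ b →
    (∀ t, |NUSea.hd s η η1 t| ≤ 1) → ∀ (L : List (ℤ × ℝ)) (w : ℂ), Fit (1 / 10) L w → wq L = 0 →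
      |wph L w| ≤ 8 → wn L ≤ 4 →
      Integrable (fun t => s * NUSea.P t * (wd L w (zt (iD η) t)).re) ∧
      Integrable (fun t : ℝ => s * NUSea.P t * (wd L w t).re) ∧
      |(∫ t, s * NUSea.P t * (wd L w (zt (iD η) t)).re) - (∫ t : ℝ, s * NUSea.P t * (wd L w t).re) +
          2 * wph L w * (s * NUSea.P w.im * η w.im)| ≤ C * (1 + b * (M * ε)) := by
  obtain ⟨C, hC, H⟩ := exists_linH
  have hk := ka_nonneg
  refine ⟨Kc + C * (8 + Kc) + 1, by unfold Kc; nlinarith, ?_⟩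
  intro s ε M b e η η1 hs hε hcur h1 hb hA L w hF hq hφ hn
  have hl := l_pos
  have hll : l = Real.pi / 8 := rfl
  have hp3 := Real.pi_gt_three
  have hB : ε < 1 / 20 * l := by linarith
  have h := H (κ := wn L * ka (1 / 10) (1 / 20 * l)) (a := -(wq L * Real.log 2)) (φ := wph L w)
    (τ := w.im) (A := 1) (Ψ := wd L w) (B := 1 / 20 * l) hs (hε.trans (by norm_num)) hcur h1 hb hB
    (by
      have := asy_wdF (δ := 1 / 10) (b := 1 / 20 * l) (by linarith) hF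
      rwa [hq] at this ⊢) (fun ζ hζ => diff_wdF hF (hζ.trans (by linarith))) hA
  obtain ⟨i1, i2, h3⟩ := h
  refine ⟨i1, i2, h3.trans ?_⟩
  have hM0 := hcur.M0 hs
  have hε0 := hcur.ε0
  have hbM : 0 ≤ b * (M * ε) := by positivity
  have h4 : wn L * ka (1 / 10) (1 / 20 * l) ≤ Kc := by
    unfold Kc
    exact mul_le_mul_of_nonneg_right hn hk
  rw [hq, zero_mul, neg_zero, abs_zero, zero_add, mul_one]
  have hKc : 0 ≤ Kc := by unfold Kc; positivity
  have h5 : C * (|wph L w| + wn L * ka (1 / 10) (1 / 20 * l)) * b * (M * ε) ≤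
      C * (8 + Kc) * (b * (M * ε)) := by
    rw [mul_assoc _ b]
    refine mul_le_mul_of_nonneg_right ?_ hbM
    exact mul_le_mul_of_nonneg_left (by linarith) (by linarith)
  nlinarith

/-! ### the sea at rows `0` -/

section P0

attribute [local instance] NUSea.seaP

theorem P_seaP : (NUSea.P : ℝ → ℝ) = NUMF.P := rfl

theorem Pb0 : NUMFH.Pb 0 = NUMF.P := by
  funext t
  exact NUMFH.Pb_zero t

/-- **a row against the sea, on the curve** -/
theorem exists_row : ∃ C : ℝ, 1 ≤ C ∧ ∀ {s ε M b : ℝ} {e η η1 : ℝ → ℝ}, 0 ≤ s →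
    ε ≤ 1 / 100 → NUSea.Cur s ε M b e η → (∀ t, HasDerivAt η (η1 t) t) → 0 ≤ b →
    (∀ t, |NUSea.hd s η η1 t| ≤ 1) → ∀ x : ℂ, |x.re| ≤ l / 2 →
      Integrable (fun t => s * NUMF.P t * Real.log (rwC x (NUO.pA η t))) ∧
      |(∫ t, s * NUMF.P t * Real.log (rwC x (NUO.pA η t))) - s * NUMFH.mE x| ≤
        C * (1 + b * (M * ε)) := by
  obtain ⟨C, hC, H⟩ := exists_word
  refine ⟨C, hC, ?_⟩
  intro s ε M b e η η1 hs hε hcur h1 hb hA x hx
  have hl := l_pos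
  have hll : l = Real.pi / 8 := rfl
  have hp3 := Real.pi_gt_three
  obtain ⟨i1, i2, h3⟩ := H hs hε hcur h1 hb hA Lr x (fit_r hx) wq_r (by
    rw [wph_r hx, abs_zero]; norm_num) (by
    simp only [Lr, NUSp.wn_cons, NUSp.wn_nil]; norm_num)
  rw [wph_r hx] at h3
  have him : ∀ t, (zt (iD η) t).im = η t := fun t => by simp [NUAct.zt, iD]
  have hη : ∀ t, |η t| ≤ ε := fun t => (NUSea.Ev.le0 hcur t).trans (hcur.le t)
  have c1 : ∀ t, (wd Lr x (zt (iD η) t)).re = Real.log (rwC x (NUO.pA η t)) := fun t => by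
    rw [pA_zt, log_rwC hx (by rw [him]; linarith [hη t])]
  have c2 : ∀ t : ℝ, (wd Lr x t).re = Real.log (rwC x (l + I * t)) := fun t => by
    rw [log_rwC hx (by rw [Complex.ofReal_im, abs_zero]; positivity)]
  simp only [c1] at i1 h3
  simp only [c2] at h3
  refine ⟨i1, ?_⟩
  have hv := (NUMFH.int_row (b := 0) le_rfl hl (x := x) (by linarith) (by linarith)).2
  have e : ∫ t : ℝ, s * NUSea.P t * Real.log (rwC x (l + I * t)) = s * NUMFH.mE x := by
    rw [show NUMFH.mE x = (NUMFH.mE (x - (0 : ℝ)) + NUMFH.mE (x + (0 : ℝ))) / 2 by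
      rw [Complex.ofReal_zero, sub_zero, add_zero]; ring, ← hv, ← integral_const_mul]
    refine integral_congr_ae (Eventually.of_forall fun t => ?_)
    simp only
    rw [Pb0, P_seaP, mul_assoc]
    unfold rwC
    rw [mul_comm I (t : ℂ)]
    rfl
  rw [e, mul_zero, zero_mul, add_zero] at h3
  exact h3

/-- **the legs against the sea, on the curve** -/
theorem exists_leg : ∃ C : ℝ, 1 ≤ C ∧ ∀ {s ε M b : ℝ} {e η η1 : ℝ → ℝ}, 0 ≤ s →
    ε ≤ 1 / 100 → NUSea.Cur s ε M b e η → (∀ t, HasDerivAt η (η1 t) t) → 0 ≤ b →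
    (∀ t, |NUSea.hd s η η1 t| ≤ 1) → ∀ z : ℂ, -(9 / 10 * l) ≤ z.re → z.re ≤ 37 / 10 * l →
      Integrable (fun t => s * NUMF.P t * Real.log (thZ z (NUO.pA η t))) ∧
      |(∫ t, s * NUMF.P t * Real.log (thZ z (NUO.pA η t))) - s * NUMFH.lE z +
          6 * l * (s * NUMF.P z.im * η z.im)| ≤ C * (1 + b * (M * ε)) := by
  obtain ⟨C, hC, H⟩ := exists_word
  refine ⟨C, hC, ?_⟩
  intro s ε M b e η η1 hs hε hcur h1 hb hA z hz1 hz2
  have hl := l_pos
  have hll : l = Real.pi / 8 := rfl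
  have hp3 := Real.pi_gt_three
  have hp4 := Real.pi_le_four
  obtain ⟨i1, i2, h3⟩ := H hs hε hcur h1 hb hA Lz z (fit_z hz1 hz2) wq_z (by
    rw [wph_z hz1 hz2, abs_of_pos (by positivity)]; linarith) (by
    simp only [Lz, NUSp.wn_cons, NUSp.wn_nil]; norm_num)
  rw [wph_z hz1 hz2] at h3
  have him : ∀ t, (zt (iD η) t).im = η t := fun t => by simp [NUAct.zt, iD]
  have hη : ∀ t, |η t| ≤ ε := fun t => (NUSea.Ev.le0 hcur t).trans (hcur.le t)
  have c1 : ∀ t, (wd Lz z (zt (iD η) t)).re = Real.log (thZ z (NUO.pA η t)) := fun t => by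
    rw [pA_zt, log_thZ hz1 hz2 (by rw [him]; linarith [hη t])]
  have c2 : ∀ t : ℝ, (wd Lz z t).re = Real.log (thZ z (l + I * t)) := fun t => by
    rw [log_thZ hz1 hz2 (by rw [Complex.ofReal_im, abs_zero]; positivity)]
  simp only [c1] at i1 h3
  simp only [c2] at h3
  refine ⟨i1, ?_⟩
  have hv := (NUMFH.int_leg (b := 0) le_rfl hl (z := z) (by linarith) (by linarith) (by linarith)
    (by linarith)).2
  have e : ∫ t : ℝ, s * NUSea.P t * Real.log (thZ z (l + I * t)) = s * NUMFH.lE z := by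
    rw [show NUMFH.lE z = (NUMFH.lE (z - (0 : ℝ)) + NUMFH.lE (z + (0 : ℝ))) / 2 by
      rw [Complex.ofReal_zero, sub_zero, add_zero]; ring, ← hv, ← integral_const_mul]
    refine integral_congr_ae (Eventually.of_forall fun t => ?_)
    simp only
    rw [Pb0, P_seaP, mul_assoc]
    unfold thZ
    rw [mul_comm I (t : ℂ)]
    rfl
  rw [e] at h3
  rw [show 6 * l = 2 * (3 * l) by ring]
  exact h3

end P0

end

end PBV
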