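import Pool.Agent.PB.MFrho2
import Pool.Agent.PB.Rho
import Pool.Agent.PB.SSum

/-!
# Plan B: mean field energies against the normaliser (normalisation half of `ValD`)

* `kr = NUMFH.mE`, `kl` (= `NUMFH.lE` on `- l ≤ Re d ≤ 4 l`, `lE_kl`): energies row - row, leg - row;
* `rw1`, `th1`: moduli of the one body factors; `row_P`, `leg_P`, `row_Pd`, `leg_Pd`: their integrals
  against the seas `P` (rows at `0`) and `Pd` (rows at `± l / 2`);
* `energies_bd`: the energies are bounded; `val_eq`, `val_bd`: the value exponent (base energy plus first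
  order term on the line `Re u = l`) equals the energy of the rows and legs up to `B (D ^ 2 + D)`, `D` =
  number of rows in which the list differs from the base;
* **`pre_exact`, `quot_exact`**: modulus of the normaliser times the exponential of the energies is the
  constant `3 / 2 * (sin l / ‖rh 0‖)`, exactly, for all rows and legs (literal quotient of the value
  `n_mu (z)`).
-/

set_option autoImplicit false

noncomputable section

open MeasureTheory Complex

namespace PBVN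

open NUMF (h H P l l_pos rhC)
open NUMFH (Pd Pb Hb)

/-- energy of two rows at distance `d` -/
def kr (d : ℂ) : ℝ := 4 * Real.log ‖rhC d‖ - Real.log ‖Complex.sin (3 * l + d)‖ -
  Real.log ‖Complex.sin (3 * l - d)‖ - Real.log ‖Complex.sin (2 * l + d)‖ -
  Real.log ‖Complex.sin (2 * l - d)‖

/-- energy of a leg and a row, `d` = leg minus row -/
def kl (d : ℂ) : ℝ := 2 * Real.log ‖PBR.rh d‖ - Real.log ‖Complex.sin (3 * l + d)‖ -
  Real.log ‖Complex.sin (2 * l + d)‖

/-- the point of the line `Re u = l` -/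
def uA (t : ℝ) : ℂ := (l : ℂ) + t * I

/-- modulus of the factor of a row at `x`, both groups -/
def rw1 (x u : ℂ) : ℝ := ‖Complex.sin (u - x + 3 * l)‖ ^ 2 /
  (‖Complex.sin (u - x)‖ * ‖Complex.sin (u - x - 2 * l)‖)

/-- modulus of the factor of the legs at `z` -/
def th1 (z u : ℂ) : ℝ := ‖Complex.sin (z - u - 3 * l)‖ / ‖Complex.sin (z - u + 2 * l)‖

lemma rhC_neg (z : ℂ) : rhC (-z) = rhC z := by
  unfold NUMF.rhC
  rw [show I * -z = -(I * z) by ring, NUMF.G0_neg, sub_neg_eq_add, ← sub_eq_add_neg]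
  ring

lemma kr_neg (d : ℂ) : kr (-d) = kr d := by
  unfold kr
  rw [rhC_neg, ← sub_eq_add_neg, ← sub_eq_add_neg, sub_neg_eq_add, sub_neg_eq_add]
  ring

lemma h_per (x y : ℝ) : h x (y + 8 * l) = h x y := by
  unfold NUMF.h
  rw [show 2 * (y + 8 * l) = 2 * y + 2 * Real.pi by rw [NUMF.eight_l]; ring, Real.cos_add_two_pi]

lemma h_per' (x y : ℝ) : h x (y - 8 * l) = h x y := by
  have := h_per x (y - 8 * l)
  rw [sub_add_cancel] at this
  exact this.symm

/-- modulus of a sine by its real and imaginary part -/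
lemma log_sin_h {z : ℂ} (h0 : 0 < z.re) (h1 : z.re < 8 * l) :
    Real.log ‖Complex.sin z‖ = (h z.im (z.re - 4 * l) - Real.log 2) / 2 := by
  have hz := NUMF.sin_ne_of h0 h1
  refine NUMF.log_sin ?_ (Or.inl rfl) hz
  rw [show 2 * (z.re - 4 * l) = 2 * z.re - Real.pi by rw [← NUMF.eight_l]; ring, Real.cos_sub_pi]

lemma sin_norm_neg (z : ℂ) : ‖Complex.sin (-z)‖ = ‖Complex.sin z‖ := by
  rw [Complex.sin_neg, norm_neg]

lemma log_sin_h' {z : ℂ} (h0 : -(8 * l) < z.re) (h1 : z.re < 0) :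
    Real.log ‖Complex.sin z‖ = (h z.im (z.re + 4 * l) - Real.log 2) / 2 := by
  have e := log_sin_h (z := -z) (by rw [neg_re]; linarith) (by rw [neg_re]; linarith)
  rw [sin_norm_neg, neg_re, neg_im, NUMF.h_neg_left,
    show -z.re - 4 * l = -(z.re + 4 * l) by ring, NUMF.h_neg_right] at e
  exact e

lemma uA_re (t : ℝ) : (uA t).re = l := by unfold uA; simp
lemma uA_im (t : ℝ) : (uA t).im = t := by unfold uA; simp

lemma re_kl (k : ℝ) : ((k : ℂ) * l).re = k * l := by rw [← Complex.ofReal_mul, Complex.ofReal_re]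
lemma im_kl (k : ℝ) : ((k : ℂ) * l).im = 0 := by rw [← Complex.ofReal_mul, Complex.ofReal_im]

lemma re3l : ((3 : ℂ) * l).re = 3 * l := by simp
lemma im3l : ((3 : ℂ) * l).im = 0 := by simp
lemma re2l : ((2 : ℂ) * l).re = 2 * l := by simp
lemma im2l : ((2 : ℂ) * l).im = 0 := by simp

/-- **the row factor on the line `Re u = l`** -/
theorem log_rw1 {x : ℂ} (hx : |x.re| < l) (t : ℝ) : Real.log (rw1 x (uA t)) =
    h (t - x.im) x.re - (h (t - x.im) (x.re + 3 * l) + h (t - x.im) (x.re - 3 * l)) / 2 := by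
  obtain ⟨x1, x2⟩ := abs_lt.1 hx
  have hl := l_pos
  have r1 : (uA t - x + 3 * l).re = 4 * l - x.re := by
    rw [add_re, sub_re, uA_re, re3l]; ring
  have r2 : (uA t - x).re = l - x.re := by rw [sub_re, uA_re]
  have r3 : (uA t - x - 2 * l).re = -l - x.re := by rw [sub_re, sub_re, uA_re, re2l]; ring
  have i1 : (uA t - x + 3 * l).im = t - x.im := by rw [add_im, sub_im, uA_im, im3l, add_zero]
  have i2 : (uA t - x).im = t - x.im := by rw [sub_im, uA_im]
  have i3 : (uA t - x - 2 * l).im = t - x.im := by rw [sub_im, sub_im, uA_im, im2l, sub_zero]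
  have a1 := log_sin_h (z := uA t - x + 3 * l) (by rw [r1]; linarith) (by rw [r1]; linarith)
  have a2 := log_sin_h (z := uA t - x) (by rw [r2]; linarith) (by rw [r2]; linarith)
  have a3 := log_sin_h' (z := uA t - x - 2 * l) (by rw [r3]; linarith) (by rw [r3]; linarith)
  have n1 := norm_pos_iff.2 (NUMF.sin_ne_of (z := uA t - x + 3 * l) (by rw [r1]; linarith)
    (by rw [r1]; linarith))
  have n2 := norm_pos_iff.2 (NUMF.sin_ne_of (z := uA t - x) (by rw [r2]; linarith)
    (by rw [r2]; linarith))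
  have n3 : 0 < ‖Complex.sin (uA t - x - 2 * l)‖ := by
    rw [← sin_norm_neg]
    refine norm_pos_iff.2 (NUMF.sin_ne_of ?_ ?_) <;> rw [neg_re, r3] <;> linarith
  rw [r1, i1, show 4 * l - x.re - 4 * l = -x.re by ring, NUMF.h_neg_right] at a1
  rw [r2, i2, show l - x.re - 4 * l = -(x.re + 3 * l) by ring, NUMF.h_neg_right] at a2
  rw [r3, i3, show -l - x.re + 4 * l = -(x.re - 3 * l) by ring, NUMF.h_neg_right] at a3
  unfold rw1
  rw [Real.log_div (by positivity) (by positivity), Real.log_pow, Real.log_mul n2.ne' n3.ne', a1, a2,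
    a3]
  push_cast
  ring

/-- **the factor of the legs on the line `Re u = l`** -/
theorem log_th1 {z : ℂ} (h0 : -l < z.re) (h1 : z.re < 4 * l) (t : ℝ) : Real.log (th1 z (uA t)) =
    (h (z.im - t) z.re - h (z.im - t) (z.re - 3 * l)) / 2 := by
  have hl := l_pos
  have r1 : (z - uA t - 3 * l).re = z.re - 4 * l := by
    rw [sub_re, sub_re, uA_re, re3l]; ring
  have r2 : (z - uA t + 2 * l).re = z.re + l := by rw [add_re, sub_re, uA_re, re2l]; ring
  have i1 : (z - uA t - 3 * l).im = z.im - t := by rw [sub_im, sub_im, uA_im, im3l, sub_zero]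
  have i2 : (z - uA t + 2 * l).im = z.im - t := by rw [add_im, sub_im, uA_im, im2l, add_zero]
  have a1 := log_sin_h' (z := z - uA t - 3 * l) (by rw [r1]; linarith) (by rw [r1]; linarith)
  have a2 := log_sin_h (z := z - uA t + 2 * l) (by rw [r2]; linarith) (by rw [r2]; linarith)
  have n1 : 0 < ‖Complex.sin (z - uA t - 3 * l)‖ := by
    rw [← sin_norm_neg]
    refine norm_pos_iff.2 (NUMF.sin_ne_of ?_ ?_) <;> rw [neg_re, r1] <;> linarith
  have n2 := norm_pos_iff.2 (NUMF.sin_ne_of (z := z - uA t + 2 * l) (by rw [r2]; linarith)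
    (by rw [r2]; linarith))
  rw [r1, i1, show z.re - 4 * l + 4 * l = z.re by ring] at a1
  rw [r2, i2, show z.re + l - 4 * l = z.re - 3 * l by ring] at a2
  unfold th1
  rw [Real.log_div n1.ne' n2.ne', a1, a2]
  ring

/-! ### the sea `P` -/

lemma int_h (x y : ℝ) : Integrable (fun s => P s * h (s - x) y) ∧ ∫ s, P s * h (s - x) y = H x y := by
  have e : (fun s => P s * h (s - x) y) = fun s => P s * h (x - s) y := by
    funext s
    rw [← NUMF.h_neg_left, neg_sub]
  rw [e]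
  exact ⟨NUMF.Ph_integrable x y, rfl⟩

/-- **sea `P`, row at `x`** -/
theorem row_P {x : ℂ} (hx : |x.re| < l) :
    Integrable (fun t => P t * Real.log (rw1 x (uA t))) ∧
      ∫ t, P t * Real.log (rw1 x (uA t)) = kr x := by
  obtain ⟨j1, e1⟩ := int_h x.im x.re
  obtain ⟨j2, e2⟩ := int_h x.im (x.re + 3 * l)
  obtain ⟨j3, e3⟩ := int_h x.im (x.re - 3 * l)
  have e : (fun t => P t * Real.log (rw1 x (uA t))) = fun t => P t * h (t - x.im) x.re -
      (P t * h (t - x.im) (x.re + 3 * l) + P t * h (t - x.im) (x.re - 3 * l)) / 2 := by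
    funext t
    rw [log_rw1 hx]
    ring
  rw [e]
  have j := j1.sub ((j2.add j3).div_const 2)
  refine ⟨j, ?_⟩
  have e4 := integral_sub j1 ((j2.add j3).div_const 2)
  have e5 : ∫ t, (P t * h (t - x.im) (x.re + 3 * l) + P t * h (t - x.im) (x.re - 3 * l)) / 2 =
      (H x.im (x.re + 3 * l) + H x.im (x.re - 3 * l)) / 2 := by
    rw [integral_div, integral_add j2 j3, e2, e3]
  have e6 := NUMF.en_row hx.le
  unfold kr
  rw [← e6, ← e5, ← e1]
  exact e4

/-! ### the sea `Pd` -/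

lemma half_l : (0 : ℝ) ≤ l / 2 ∧ l / 2 < l := by
  have := l_pos
  constructor <;> linarith

lemma int_hd (x : ℝ) {y : ℝ} (hy : |y| + l / 2 ≤ 4 * l) :
    Integrable (fun s => Pd s * h (s - x) y) ∧
      ∫ s, Pd s * h (s - x) y = (H x (y + l / 2) + H x (y - l / 2)) / 2 := by
  have e : (fun s => Pd s * h (s - x) y) = fun s => Pb (l / 2) s * h (x - s) y := by
    funext s
    rw [← NUMF.h_neg_left, neg_sub, NUMFH.Pb_half]
  rw [e]
  exact ⟨NUMFH.Pbh_integrable half_l.1 half_l.2 x y, NUMFH.Hb_eq half_l.1 half_l.2 x hy⟩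

lemma re_half : ((l : ℂ) / 2).re = l / 2 := by
  rw [show (l : ℂ) / 2 = ((l / 2 : ℝ) : ℂ) by push_cast; rfl, ofReal_re]

lemma im_half : ((l : ℂ) / 2).im = 0 := by
  rw [show (l : ℂ) / 2 = ((l / 2 : ℝ) : ℂ) by push_cast; rfl, ofReal_im]

/-- **sea `Pd`, row at `x`** -/
theorem row_Pd {x : ℂ} (hx : |x.re| ≤ l / 2) :
    Integrable (fun t => Pd t * Real.log (rw1 x (uA t))) ∧
      ∫ t, Pd t * Real.log (rw1 x (uA t)) = (kr (x + l / 2) + kr (x - l / 2)) / 2 := by
  have hl := l_pos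
  obtain ⟨x1, x2⟩ := abs_le.1 hx
  obtain ⟨j1, e1⟩ := int_hd x.im (y := x.re) (by linarith)
  obtain ⟨j2, e2⟩ := int_hd x.im (y := x.re + 3 * l) (by
    have : |x.re + 3 * l| ≤ 7 / 2 * l := abs_le.2 ⟨by linarith, by linarith⟩
    linarith)
  obtain ⟨j3, e3⟩ := int_hd x.im (y := x.re - 3 * l) (by
    have : |x.re - 3 * l| ≤ 7 / 2 * l := abs_le.2 ⟨by linarith, by linarith⟩
    linarith)
  have e : (fun t => Pd t * Real.log (rw1 x (uA t))) = fun t => Pd t * h (t - x.im) x.re -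
      (Pd t * h (t - x.im) (x.re + 3 * l) + Pd t * h (t - x.im) (x.re - 3 * l)) / 2 := by
    funext t
    rw [log_rw1 (by linarith)]
    ring
  rw [e]
  have j := j1.sub ((j2.add j3).div_const 2)
  refine ⟨j, ?_⟩
  have e4 := integral_sub j1 ((j2.add j3).div_const 2)
  have e5 : ∫ t, (Pd t * h (t - x.im) (x.re + 3 * l) + Pd t * h (t - x.im) (x.re - 3 * l)) / 2 =
      ((H x.im (x.re + 3 * l + l / 2) + H x.im (x.re + 3 * l - l / 2)) / 2 +
        (H x.im (x.re - 3 * l + l / 2) + H x.im (x.re - 3 * l - l / 2)) / 2) / 2 := by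
    rw [integral_div, integral_add j2 j3, e2, e3]
  have r1 : (x + l / 2).re = x.re + l / 2 := by rw [add_re, re_half]
  have r2 : (x - l / 2).re = x.re - l / 2 := by rw [sub_re, re_half]
  have i1 : (x + l / 2).im = x.im := by rw [add_im, im_half, add_zero]
  have i2 : (x - l / 2).im = x.im := by rw [sub_im, im_half, sub_zero]
  have e6 := NUMF.en_row (z := x + l / 2) (by rw [r1]; exact abs_le.2 ⟨by linarith, by linarith⟩)
  have e7 := NUMF.en_row (z := x - l / 2) (by rw [r2]; exact abs_le.2 ⟨by linarith, by linarith⟩)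
  rw [r1, i1] at e6
  rw [r2, i2] at e7
  unfold kr
  rw [← e6, ← e7]
  have e8 : ∫ t, (Pd t * h (t - x.im) x.re - (Pd t * h (t - x.im) (x.re + 3 * l) +
      Pd t * h (t - x.im) (x.re - 3 * l)) / 2) = (∫ t, Pd t * h (t - x.im) x.re) -
      ∫ t, (Pd t * h (t - x.im) (x.re + 3 * l) + Pd t * h (t - x.im) (x.re - 3 * l)) / 2 := e4
  rw [e8, e1, e5, show x.re + 3 * l + l / 2 = x.re + l / 2 + 3 * l by ring,
    show x.re + 3 * l - l / 2 = x.re - l / 2 + 3 * l by ring,
    show x.re - 3 * l + l / 2 = x.re + l / 2 - 3 * l by ring,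
    show x.re - 3 * l - l / 2 = x.re - l / 2 - 3 * l by ring]
  ring

/-! ### comparison of the two forms of `ρ`, bounds -/

theorem rh_rhC {w : ℂ} (hw : |w.re| < 3 * l) : PBR.rh w = rhC w := by
  have hl := l_pos
  by_cases h0 : Complex.sin w = 0
  · have hw0 : w = 0 := by
      rw [Complex.sin_eq_zero_iff] at h0
      obtain ⟨k, hk⟩ := h0
      have h2 := congrArg Complex.re hk
      have e : ((k : ℂ) * Real.pi).re = k * Real.pi := by
        rw [← Complex.ofReal_intCast, ← Complex.ofReal_mul, Complex.ofReal_re]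
      rw [e, ← NUMF.eight_l] at h2
      have hk0 : k = 0 := by
        obtain ⟨a1, a2⟩ := abs_lt.1 hw
        rw [h2] at a1 a2
        by_contra hne
        rcases lt_or_gt_of_ne hne with hlt | hgt
        · have : (k : ℝ) ≤ -1 := by exact_mod_cast (by omega : k ≤ -1)
          nlinarith
        · have : (1 : ℝ) ≤ k := by exact_mod_cast (by omega : (1 : ℤ) ≤ k)
          nlinarith
      rw [hk, hk0]
      simp
    subst hw0
    rw [PBR.rh_zero, NUMF.rhC_zero]
    have e1 : Complex.sin (3 * l) ^ 2 = (1 + PBR.r2 / 2) / 2 := by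
      have h6 : Complex.cos (2 * (3 * (l : ℂ))) = -(PBR.r2 / 2) := by
        have e2 : 2 * (3 * (l : ℂ)) = Real.pi - Real.pi / 4 := by
          have : (l : ℂ) = Real.pi / 8 := by unfold NUMF.l; push_cast; rfl
          rw [this]
          ring
        rw [e2, Complex.cos_pi_sub]
        have h7 : Complex.cos ((Real.pi : ℂ) / 4) = ((√2 / 2 : ℝ) : ℂ) := by
          rw [← Real.cos_pi_div_four]
          push_cast
          rfl
        rw [h7]
        unfold PBR.r2
        push_cast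
        rfl
      have h8 := Complex.cos_sq_add_sin_sq (3 * (l : ℂ))
      rw [Complex.cos_two_mul] at h6
      linear_combination h8 - h6 / 2
    rw [e1]
    ring
  · have hc : Complex.cos (4 * w / 3) ≠ 0 := by
      have h1 := NUMF.c4_ne (w := I * w) (by simpa using hw)
      rw [show (4 / 3 : ℂ) * (I * w) = 4 * w / 3 * I by ring, Complex.cosh_mul_I] at h1
      exact h1
    rw [PBR.rh_eq (by change |w.re| < 8 * l; linarith) h0 hc, NUMF.rhC_eq hw h0,
      show (4 / 3 : ℂ) * w = 4 * w / 3 by ring]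
    rfl

/-- the leg energy up to `Re d = 4 l` -/
theorem lE_kl {d : ℂ} (h0 : -l ≤ d.re) (h1 : d.re ≤ 4 * l) : NUMFH.lE d = kl d := by
  have hl := l_pos
  rcases lt_or_ge d.re (2 * l) with h | h
  · rw [NUMFH.lE_eq h0 h, ← rh_rhC (abs_lt.2 ⟨by linarith, by linarith⟩)]
    rfl
  · have hr : (3 * (l : ℂ) - d).re = 3 * l - d.re := by rw [sub_re, re3l]
    have hi : (3 * (l : ℂ) - d).im = -d.im := by rw [sub_im, im3l, zero_sub]
    have e := NUMFH.lE_refl d (3 * l - d) hr (Or.inr hi)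
    have e2 := NUMFH.lE_eq (d := 3 * l - d) (by rw [hr]; linarith) (by rw [hr]; linarith)
    rw [← rh_rhC (w := 3 * l - d) (by rw [hr]; exact abs_lt.2 ⟨by linarith, by linarith⟩),
      show (3 * (l : ℂ) + (3 * l - d)) = 3 * l - (d - 3 * l) by ring,
      show (2 * (l : ℂ) + (3 * l - d)) = 2 * l - (d - 3 * l) by ring,
      show (3 * (l : ℂ) - d) = -(d - 3 * l) by ring, PBR.rh_neg] at e2
    rw [show (3 * (l : ℂ) - d) = -(d - 3 * l) by ring] at e
    have hr3 : (d - 3 * (l : ℂ)).re = d.re - 3 * l := by rw [sub_re, re3l]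
    have m1 := PBR.rh_mul (w := d - 3 * l) (by change |(d - 3 * (l : ℂ)).re| < 8 * l; rw [hr3];
                                               exact abs_lt.2 ⟨by linarith, by linarith⟩)
      (by change |(d - 3 * (l : ℂ)).re + 3 * l| < 8 * l; rw [hr3];
          exact abs_lt.2 ⟨by linarith, by linarith⟩)
    have m2 := PBR.rh_mul' (w := d) (by change |d.re| < 8 * l; exact abs_lt.2 ⟨by linarith, by linarith⟩)
      (by change |d.re - 3 * l| < 8 * l; exact abs_lt.2 ⟨by linarith, by linarith⟩)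
    have m1' : PBR.rh (d - 3 * l) * PBR.rh d =
        Complex.sin (3 * l - (d - 3 * l)) * Complex.sin (2 * l - (d - 3 * l)) := by
      have e9 : (d - 3 * (l : ℂ)) + 3 * l = d := by ring
      have m1b : PBR.rh (d - 3 * l) * PBR.rh (d - 3 * l + 3 * l) =
        Complex.sin (3 * l - (d - 3 * l)) * Complex.sin (2 * l - (d - 3 * l)) := m1
      rwa [e9] at m1b
    have m2' : PBR.rh d * PBR.rh (d - 3 * l) = Complex.sin (3 * l + d) * Complex.sin (2 * l + d) := m2
    have n1 : PBR.rh d ≠ 0 := PBR.rh_ne_zero (by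
      change |d.re| < 5 * l; exact abs_lt.2 ⟨by linarith, by linarith⟩)
    have n2 : PBR.rh (d - 3 * l) ≠ 0 := PBR.rh_ne_zero (by
      change |(d - 3 * (l : ℂ)).re| < 5 * l; rw [hr3]; exact abs_lt.2 ⟨by linarith, by linarith⟩)
    have p1 := congrArg (fun t => Real.log ‖t‖) m1'
    have p2 := congrArg (fun t => Real.log ‖t‖) m2'
    have q1 : Complex.sin (3 * l - (d - 3 * l)) ≠ 0 ∧ Complex.sin (2 * l - (d - 3 * l)) ≠ 0 := by
      have := mul_ne_zero n2 n1
      rw [m1'] at this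
      exact ⟨left_ne_zero_of_mul this, right_ne_zero_of_mul this⟩
    have q2 : Complex.sin (3 * l + d) ≠ 0 ∧ Complex.sin (2 * l + d) ≠ 0 := by
      have := mul_ne_zero n1 n2
      rw [m2'] at this
      exact ⟨left_ne_zero_of_mul this, right_ne_zero_of_mul this⟩
    simp only [norm_mul] at p1 p2
    rw [Real.log_mul (norm_ne_zero_iff.2 n2) (norm_ne_zero_iff.2 n1),
      Real.log_mul (norm_ne_zero_iff.2 q1.1) (norm_ne_zero_iff.2 q1.2)] at p1
    rw [Real.log_mul (norm_ne_zero_iff.2 n1) (norm_ne_zero_iff.2 n2),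
      Real.log_mul (norm_ne_zero_iff.2 q2.1) (norm_ne_zero_iff.2 q2.2)] at p2
    rw [e2] at e
    unfold kl
    linarith

/-- **sea `P`, legs at `z`** -/
theorem leg_P {z : ℂ} (h0 : -l < z.re) (h1 : z.re < 4 * l) :
    Integrable (fun t => P t * Real.log (th1 z (uA t))) ∧
      ∫ t, P t * Real.log (th1 z (uA t)) = kl z := by
  have hl := l_pos
  have e := NUMFH.int_leg le_rfl hl h0 h1 (by linarith) (by linarith)
  rw [Complex.ofReal_zero, sub_zero, add_zero, lE_kl h0.le h1.le, add_self_div_two] at e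
  simp only [NUMFH.Pb_zero] at e
  exact e

/-- **sea `Pd`, legs at `z`** -/
theorem leg_Pd {z : ℂ} (h0 : -(l / 2) ≤ z.re) (h1 : z.re ≤ 7 / 2 * l) :
    Integrable (fun t => Pd t * Real.log (th1 z (uA t))) ∧
      ∫ t, Pd t * Real.log (th1 z (uA t)) = (kl (z + l / 2) + kl (z - l / 2)) / 2 := by
  have hl := l_pos
  have r1 : (z + (l : ℂ) / 2).re = z.re + l / 2 := by rw [add_re, re_half]
  have r2 : (z - (l : ℂ) / 2).re = z.re - l / 2 := by rw [sub_re, re_half]
  have e := NUMFH.int_leg (b := l / 2) half_l.1 half_l.2 (z := z) (by linarith) (by linarith)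
    (by linarith) (by linarith)
  rw [show (((l / 2 : ℝ) : ℂ)) = (l : ℂ) / 2 by push_cast; rfl,
    lE_kl (d := z - (l : ℂ) / 2) (by rw [r2]; linarith) (by rw [r2]; linarith),
    lE_kl (d := z + (l : ℂ) / 2) (by rw [r1]; linarith) (by rw [r1]; linarith),
    add_comm (kl _) (kl _)] at e
  simp only [NUMFH.Pb_half] at e
  exact e

/-- modulus of a sine, `l ≤ Re ≤ 7 l` -/
theorem log_sin_bd : ∃ C : ℝ, 0 ≤ C ∧ ∀ w : ℂ, l ≤ w.re → w.re ≤ 7 * l →
    |Real.log ‖Complex.sin w‖ - (|w.im|)| ≤ C := by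
  have hl := l_pos
  have h8 := NUMF.eight_l
  have hs : 0 < Real.sin l := Real.sin_pos_of_pos_of_lt_pi hl (by linarith)
  have hs1 : Real.sin l ≤ 1 := Real.sin_le_one l
  refine ⟨-Real.log (Real.sin l / 2), ?_, fun w h0 h1 => ?_⟩
  · rw [neg_nonneg]
    exact Real.log_nonpos (by positivity) (by linarith)
  have up := PBR.norm_sin_le w
  have lo := PBR.norm_sin_ge w
  have hsin : Real.sin l ≤ |Real.sin w.re| := by
    have h2 : Real.sin l ≤ Real.sin w.re := by
      rcases le_total w.re (4 * l) with h | h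
      · exact Real.sin_le_sin_of_le_of_le_pi_div_two (by linarith) (by linarith) h0
      · rw [← Real.sin_pi_sub w.re]
        exact Real.sin_le_sin_of_le_of_le_pi_div_two (by linarith) (by linarith) (by linarith)
    exact h2.trans (le_abs_self _)
  have lo' : Real.sin l / 2 * Real.exp |w.im| ≤ ‖Complex.sin w‖ := by
    refine le_trans ?_ lo
    gcongr
  have hp : 0 < ‖Complex.sin w‖ := lt_of_lt_of_le (by positivity) lo'
  have l1 : Real.log ‖Complex.sin w‖ ≤ |w.im| := by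
    have := Real.log_le_log hp up
    rwa [Real.log_exp] at this
  have l2 : Real.log (Real.sin l / 2) + |w.im| ≤ Real.log ‖Complex.sin w‖ := by
    have := Real.log_le_log (by positivity) lo'
    rwa [Real.log_mul (by positivity) (Real.exp_pos _).ne', Real.log_exp] at this
  have l3 : Real.log (Real.sin l / 2) ≤ 0 := Real.log_nonpos (by positivity) (by linarith)
  rw [abs_le]
  constructor <;> linarith

/-- modulus of `ρ`, `|Re| ≤ 4 l` -/
theorem log_rh_bd : ∃ C : ℝ, 0 ≤ C ∧ ∀ w : ℂ, |w.re| ≤ 4 * l →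
    |Real.log ‖PBR.rh w‖ - (|w.im|)| ≤ C := by
  have hl := l_pos
  have s3 := PBR.sδ_pos (δ := 1) (by norm_num) (by norm_num)
  have s4 := PBR.sδ_pos (δ := 4) (by norm_num) (by norm_num)
  refine ⟨|Real.log (4 / PBR.sδ 4 ^ 4)| + |Real.log (4 * PBR.sδ 1 ^ 7)|, by positivity,
    fun w hw => ?_⟩
  have up := PBR.rh_upper (δ := 4) (w := w) (by norm_num) (by norm_num)
    (by change |w.re| ≤ (8 - 4) * l; linarith)
  have lo := PBR.rh_lower (δ := 1) (w := w) (by norm_num) (by norm_num)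
    (by change |w.re| ≤ (5 - 1) * l; linarith)
  have hp : 0 < ‖PBR.rh w‖ := lt_of_lt_of_le (by positivity) lo
  have l1 := Real.log_le_log hp up
  have l2 := Real.log_le_log (by positivity) lo
  rw [Real.log_mul (by positivity) (Real.exp_pos _).ne', Real.log_exp] at l1 l2
  have a1 := le_abs_self (Real.log (4 / PBR.sδ 4 ^ 4))
  have a2 := neg_abs_le (Real.log (4 * PBR.sδ 1 ^ 7))
  have a3 := abs_nonneg (Real.log (4 / PBR.sδ 4 ^ 4))
  have a4 := abs_nonneg (Real.log (4 * PBR.sδ 1 ^ 7))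
  rw [abs_le]
  constructor <;> linarith

lemma re_k (k : ℝ) (d : ℂ) : ((k : ℂ) * l + d).re = k * l + d.re := NUMF.re3 d k

lemma im_k (k : ℝ) (d : ℂ) : ((k : ℂ) * l + d).im = d.im := by
  rw [add_im, ← Complex.ofReal_mul, Complex.ofReal_im, zero_add]

/-- **the energies are bounded** -/
theorem energies_bd : ∃ B : ℝ, 0 ≤ B ∧ (∀ d : ℂ, |d.re| ≤ l → |kr d| ≤ B) ∧
    ∀ d : ℂ, -l ≤ d.re → d.re ≤ 4 * l → |kl d| ≤ B := by
  obtain ⟨C1, h1, H1⟩ := log_sin_bd
  obtain ⟨C2, h2, H2⟩ := log_rh_bd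
  have hl := l_pos
  refine ⟨4 * C2 + 4 * C1, by positivity, fun d hd => ?_, fun d h0 h3 => ?_⟩
  · obtain ⟨d1, d2⟩ := abs_le.1 hd
    have e1 := H1 (3 * l + d) (by have := re_k 3 d; push_cast at this; rw [this]; linarith)
      (by have := re_k 3 d; push_cast at this; rw [this]; linarith)
    have e2 := H1 (2 * l + d) (by have := re_k 2 d; push_cast at this; rw [this]; linarith)
      (by have := re_k 2 d; push_cast at this; rw [this]; linarith)
    have e3 := H1 (3 * l - d) (by rw [sub_re, re3l]; linarith) (by rw [sub_re, re3l]; linarith)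
    have e4 := H1 (2 * l - d) (by rw [sub_re, re2l]; linarith) (by rw [sub_re, re2l]; linarith)
    have e5 := H2 d (by linarith)
    rw [rh_rhC (by linarith)] at e5
    have i1 : (3 * (l : ℂ) + d).im = d.im := by have := im_k 3 d; push_cast at this; exact this
    have i2 : (2 * (l : ℂ) + d).im = d.im := by have := im_k 2 d; push_cast at this; exact this
    have i3 : |(3 * (l : ℂ) - d).im| = |d.im| := by rw [sub_im, im3l, zero_sub, abs_neg]
    have i4 : |(2 * (l : ℂ) - d).im| = |d.im| := by rw [sub_im, im2l, zero_sub, abs_neg]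
    rw [i1] at e1
    rw [i2] at e2
    rw [i3] at e3
    rw [i4] at e4
    unfold kr
    obtain ⟨a1, b1⟩ := abs_le.1 e1
    obtain ⟨a2, b2⟩ := abs_le.1 e2
    obtain ⟨a3, b3⟩ := abs_le.1 e3
    obtain ⟨a4, b4⟩ := abs_le.1 e4
    obtain ⟨a5, b5⟩ := abs_le.1 e5
    rw [abs_le]
    constructor <;> linarith
  · have e1 := H1 (3 * l + d) (by have := re_k 3 d; push_cast at this; rw [this]; linarith)
      (by have := re_k 3 d; push_cast at this; rw [this]; linarith)
    have e2 := H1 (2 * l + d) (by have := re_k 2 d; push_cast at this; rw [this]; linarith)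
      (by have := re_k 2 d; push_cast at this; rw [this]; linarith)
    have e5 := H2 d (by rw [abs_le]; constructor <;> linarith)
    have i1 : (3 * (l : ℂ) + d).im = d.im := by have := im_k 3 d; push_cast at this; exact this
    have i2 : (2 * (l : ℂ) + d).im = d.im := by have := im_k 2 d; push_cast at this; exact this
    rw [i1] at e1
    rw [i2] at e2
    unfold kl
    obtain ⟨a1, b1⟩ := abs_le.1 e1
    obtain ⟨a2, b2⟩ := abs_le.1 e2
    obtain ⟨a5, b5⟩ := abs_le.1 e5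
    rw [abs_le]
    constructor <;> linarith

/-! ### the value: rows `mu`, legs `z`, against the base sea of mass `m` -/

/-- sum over the rows -/
def Sm (mu : List ℂ) (f : ℂ → ℝ) : ℝ := (mu.map f).sum

/-- the base: mass `m`, share `c0` at `0`, share `c1` at `± l / 2` -/
def BM (m c0 c1 : ℝ) (f : ℂ → ℝ) : ℝ :=
  m * (c0 * f 0 + c1 * ((f ((l : ℂ) / 2) + f (-((l : ℂ) / 2))) / 2))

/-- the sea of the base (mass one) -/
def Sea (c0 c1 t : ℝ) : ℝ := c0 * P t + c1 * Pd t

/-- potential of the base of mass one on the line `Re u = l` -/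
def base0 (c0 c1 t : ℝ) : ℝ := c0 * Real.log (rw1 0 (uA t)) +
  c1 * ((Real.log (rw1 ((l : ℂ) / 2) (uA t)) + Real.log (rw1 (-((l : ℂ) / 2)) (uA t))) / 2)

/-- logarithm of the one body factor over the base -/
def Hc (mu : List ℂ) (z : ℂ) (m c0 c1 t : ℝ) : ℝ :=
  Sm mu (fun x => Real.log (rw1 x (uA t))) + Real.log (th1 z (uA t)) - m * base0 c0 c1 t

/-- the energy of the rows and the legs -/
def TE (mu : List ℂ) (z : ℂ) : ℝ :=
  Sm mu (fun x => Sm mu fun y => kr (x - y)) + 2 * Sm mu fun y => kl (z - y)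

lemma Sm_nil (f : ℂ → ℝ) : Sm [] f = 0 := rfl

lemma Sm_cons (x : ℂ) (mu : List ℂ) (f : ℂ → ℝ) : Sm (x :: mu) f = f x + Sm mu f := by
  simp [Sm]

lemma Sm_add (mu : List ℂ) (f g : ℂ → ℝ) : Sm mu (fun x => f x + g x) = Sm mu f + Sm mu g := by
  induction mu with
  | nil => simp [Sm]
  | cons x mu ih => rw [Sm_cons, Sm_cons, Sm_cons, ih]; ring

lemma Sm_mul (mu : List ℂ) (c : ℝ) (f : ℂ → ℝ) : Sm mu (fun x => c * f x) = c * Sm mu f := by
  induction mu with
  | nil => simp [Sm]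
  | cons x mu ih => rw [Sm_cons, Sm_cons, ih]; ring

lemma Sm_congr {mu : List ℂ} {f g : ℂ → ℝ} (h : ∀ x ∈ mu, f x = g x) : Sm mu f = Sm mu g := by
  unfold Sm
  rw [List.map_congr_left h]

lemma Sm_abs {mu : List ℂ} {f : ℂ → ℝ} {B : ℝ} (h : ∀ x ∈ mu, |f x| ≤ B) :
    |Sm mu f| ≤ mu.length * B := by
  induction mu with
  | nil => simp [Sm]
  | cons x mu ih =>
    rw [Sm_cons, List.length_cons]
    push_cast
    have h1 := h x (by simp)
    have h2 := ih fun y hy => h y (by simp [hy])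
    have h3 := abs_add_le (f x) (Sm mu f)
    linarith

/-- the functional of a base against a sum over rows, both orders -/
lemma BM_Sm (m c0 c1 : ℝ) (mu : List ℂ) (F : ℂ → ℂ → ℝ) :
    BM m c0 c1 (fun y => Sm mu fun x => F x y) = Sm mu fun x => BM m c0 c1 fun y => F x y := by
  unfold BM
  rw [Sm_mul, Sm_add, Sm_mul, Sm_mul]
  congr 3
  rw [show (fun x => (F x ((l : ℂ) / 2) + F x (-((l : ℂ) / 2))) / 2) = fun x =>
    (1 / 2) * (F x ((l : ℂ) / 2) + F x (-((l : ℂ) / 2))) by funext x; ring, Sm_mul, Sm_add]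
  ring

lemma BM_sub (m c0 c1 : ℝ) (f g : ℂ → ℝ) :
    BM m c0 c1 (fun x => f x - g x) = BM m c0 c1 f - BM m c0 c1 g := by
  unfold BM
  ring

lemma Sm_sub (mu : List ℂ) (f g : ℂ → ℝ) : Sm mu (fun x => f x - g x) = Sm mu f - Sm mu g := by
  induction mu with
  | nil => simp [Sm]
  | cons x mu ih => rw [Sm_cons, Sm_cons, Sm_cons, ih]; ring

lemma half_re : |((l : ℂ) / 2).re| ≤ l / 2 ∧ |(-((l : ℂ) / 2)).re| ≤ l / 2 ∧ |(0 : ℂ).re| ≤ l / 2 := by
  have hl := l_pos
  rw [neg_re, abs_neg, re_half, abs_of_pos (by linarith), Complex.zero_re, abs_zero]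
  exact ⟨le_rfl, le_rfl, by linarith⟩

/-- **one row against the base sea** -/
theorem row_sea (c0 c1 m : ℝ) {x : ℂ} (hx : |x.re| ≤ l / 2) :
    Integrable (fun t => Sea c0 c1 t * Real.log (rw1 x (uA t))) ∧
      m * ∫ t, Sea c0 c1 t * Real.log (rw1 x (uA t)) = BM m c0 c1 fun y => kr (x - y) := by
  have hl := l_pos
  obtain ⟨j1, e1⟩ := row_P (x := x) (by linarith)
  obtain ⟨j2, e2⟩ := row_Pd hx
  have e : (fun t => Sea c0 c1 t * Real.log (rw1 x (uA t))) = fun t =>
      c0 * (P t * Real.log (rw1 x (uA t))) + c1 * (Pd t * Real.log (rw1 x (uA t))) := by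
    funext t
    unfold Sea
    ring
  rw [e]
  refine ⟨(j1.const_mul c0).add (j2.const_mul c1), ?_⟩
  rw [integral_add (j1.const_mul c0) (j2.const_mul c1), integral_const_mul, integral_const_mul, e1, e2]
  simp only [BM, sub_zero, sub_neg_eq_add]
  ring

/-- **legs against the base sea**; `r = 0`: rows at `0` (up to height shifts), `r = l / 2` general -/
theorem leg_sea (c0 m : ℝ) {c1 r : ℝ} {z : ℂ} (hr : (r = 0 ∧ c1 = 0) ∨ r = l / 2)
    (h0 : r - l < z.re) (h1 : z.re < 4 * l - r) :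
    Integrable (fun t => Sea c0 c1 t * Real.log (th1 z (uA t))) ∧
      m * ∫ t, Sea c0 c1 t * Real.log (th1 z (uA t)) = BM m c0 c1 fun y => kl (z - y) := by
  have hl := l_pos
  have hr' : 0 ≤ r := by rcases hr with h | h <;> linarith
  obtain ⟨j1, e1⟩ := leg_P (z := z) (by linarith) (by linarith)
  rcases hr with ⟨hr0, hc⟩ | hr1
  · subst hc
    simp only [Sea, BM, sub_zero, zero_mul, add_zero, mul_assoc]
    refine ⟨j1.const_mul c0, ?_⟩
    rw [integral_const_mul, e1]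
  obtain ⟨j2, e2⟩ := leg_Pd (z := z) (by linarith) (by linarith)
  have e : (fun t => Sea c0 c1 t * Real.log (th1 z (uA t))) = fun t =>
      c0 * (P t * Real.log (th1 z (uA t))) + c1 * (Pd t * Real.log (th1 z (uA t))) := by
    funext t
    unfold Sea
    ring
  rw [e]
  refine ⟨(j1.const_mul c0).add (j2.const_mul c1), ?_⟩
  rw [integral_add (j1.const_mul c0) (j2.const_mul c1), integral_const_mul, integral_const_mul, e1, e2]
  simp only [BM, sub_zero, sub_neg_eq_add]
  ring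

/-- **the base against its sea** -/
theorem base_sea (c0 c1 m : ℝ) : Integrable (fun t => Sea c0 c1 t * base0 c0 c1 t) ∧
    m * (m * ∫ t, Sea c0 c1 t * base0 c0 c1 t) =
      BM m c0 c1 fun x => BM m c0 c1 fun y => kr (x - y) := by
  obtain ⟨j0, e0⟩ := row_sea c0 c1 m half_re.2.2
  obtain ⟨j1, e1⟩ := row_sea c0 c1 m half_re.1
  obtain ⟨j2, e2⟩ := row_sea c0 c1 m half_re.2.1
  have e : (fun t => Sea c0 c1 t * base0 c0 c1 t) = fun t =>
      c0 * (Sea c0 c1 t * Real.log (rw1 0 (uA t))) +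
      (c1 / 2 * (Sea c0 c1 t * Real.log (rw1 ((l : ℂ) / 2) (uA t))) +
        c1 / 2 * (Sea c0 c1 t * Real.log (rw1 (-((l : ℂ) / 2)) (uA t)))) := by
    funext t
    unfold base0
    ring
  have k1 := (j1.const_mul (c1 / 2)).add (j2.const_mul (c1 / 2))
  rw [e]
  refine ⟨(j0.const_mul c0).add k1, ?_⟩
  have s1 := integral_add (j0.const_mul c0) k1
  have s2 := integral_add (j1.const_mul (c1 / 2)) (j2.const_mul (c1 / 2))
  simp only [Pi.add_apply] at s1
  rw [s1, s2, integral_const_mul, integral_const_mul, integral_const_mul]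
  have e3 : (BM m c0 c1 fun x => BM m c0 c1 fun y => kr (x - y)) =
      m * (c0 * (BM m c0 c1 fun y => kr (0 - y)) + c1 * (((BM m c0 c1 fun y => kr ((l : ℂ) / 2 - y)) +
        BM m c0 c1 fun y => kr (-((l : ℂ) / 2) - y)) / 2)) := rfl
  rw [e3, ← e0, ← e1, ← e2]
  ring

/-- integrals of the sums over the rows -/
theorem rows_sea (c0 c1 m : ℝ) {mu : List ℂ} (h : ∀ x ∈ mu, |x.re| ≤ l / 2) :
    Integrable (fun t => Sea c0 c1 t * Sm mu fun x => Real.log (rw1 x (uA t))) ∧
      m * ∫ t, Sea c0 c1 t * (Sm mu fun x => Real.log (rw1 x (uA t))) =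
        Sm mu fun x => BM m c0 c1 fun y => kr (x - y) := by
  induction mu with
  | nil => simp [Sm]
  | cons x mu ih =>
    obtain ⟨j1, e1⟩ := row_sea c0 c1 m (h x (by simp))
    obtain ⟨j2, e2⟩ := ih fun y hy => h y (by simp [hy])
    have e : (fun t => Sea c0 c1 t * Sm (x :: mu) fun x => Real.log (rw1 x (uA t))) = fun t =>
        Sea c0 c1 t * Real.log (rw1 x (uA t)) +
          Sea c0 c1 t * Sm mu fun x => Real.log (rw1 x (uA t)) := by
      funext t
      rw [Sm_cons]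
      ring
    rw [e]
    refine ⟨j1.add j2, ?_⟩
    rw [integral_add j1 j2, mul_add, e1, e2, Sm_cons]

/-- **the value exponent**: base energy plus first order term of the potential over the base -/
theorem val_eq (c0 m : ℝ) {c1 r : ℝ} {mu : List ℂ} {z : ℂ} (hr : (r = 0 ∧ c1 = 0) ∨ r = l / 2)
    (h : ∀ x ∈ mu, |x.re| ≤ l / 2) (h0 : r - l < z.re) (h1 : z.re < 4 * l - r) :
    Integrable (fun t => Sea c0 c1 t * Hc mu z m c0 c1 t) ∧
    m ^ 2 * (∫ t, Sea c0 c1 t * base0 c0 c1 t) + 2 * m * ∫ t, Sea c0 c1 t * Hc mu z m c0 c1 t =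
      TE mu z - ((Sm mu fun x => Sm mu fun y => kr (x - y)) -
        2 * (Sm mu fun x => BM m c0 c1 fun y => kr (x - y)) +
        BM m c0 c1 fun x => BM m c0 c1 fun y => kr (x - y)) -
        2 * ((Sm mu fun y => kl (z - y)) - BM m c0 c1 fun y => kl (z - y)) := by
  obtain ⟨j1, e1⟩ := rows_sea c0 c1 m h
  obtain ⟨j2, e2⟩ := leg_sea c0 m hr h0 h1
  obtain ⟨j3, e3⟩ := base_sea c0 c1 m
  have e : (fun t => Sea c0 c1 t * Hc mu z m c0 c1 t) = fun t =>
      Sea c0 c1 t * (Sm mu fun x => Real.log (rw1 x (uA t))) +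
        Sea c0 c1 t * Real.log (th1 z (uA t)) - m * (Sea c0 c1 t * base0 c0 c1 t) := by
    funext t
    unfold Hc
    ring
  rw [e]
  refine ⟨(j1.add j2).sub (j3.const_mul m), ?_⟩
  have s1 := integral_sub (j1.add j2) (j3.const_mul m)
  have s2 := integral_add j1 j2
  simp only [Pi.add_apply] at s1
  rw [s1, s2, integral_const_mul]
  unfold TE
  rw [← e1, ← e2, ← e3]
  ring

/-- **comparison of the value exponent with the energy**: the rows differ from the base by `D` rows;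
`r = 0`: all real parts `0`; `r = l / 2`: general -/
theorem val_bd : ∃ B : ℝ, 0 ≤ B ∧ ∀ (c0 c1 m D r : ℝ) (mu ex : List ℂ) (a0 a1 a2 : ℝ) (z : ℂ),
    (r = 0 ∧ c1 = 0 ∧ a1 = 0 ∧ a2 = 0) ∨ r = l / 2 →
    (∀ x ∈ mu, |x.re| ≤ r) → (∀ x ∈ ex, |x.re| ≤ r) →
    (∀ f : ℂ → ℝ, Sm mu f - BM m c0 c1 f =
      a0 * f 0 + a1 * f ((l : ℂ) / 2) + a2 * f (-((l : ℂ) / 2)) + Sm ex f) →
    |a0| + |a1| + |a2| + ex.length ≤ D → r - l < z.re → z.re < 4 * l - r →
    |m ^ 2 * (∫ t, Sea c0 c1 t * base0 c0 c1 t) + 2 * m * (∫ t, Sea c0 c1 t * Hc mu z m c0 c1 t) -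
      TE mu z| ≤ B * (D ^ 2 + D) := by
  obtain ⟨B, hB, Hr, Hl⟩ := energies_bd
  refine ⟨2 * B, by positivity, ?_⟩
  intro c0 c1 m D r mu ex a0 a1 a2 z hr hmu hex hrep hD h0 h1
  have hl := l_pos
  have hr2 : 0 ≤ r ∧ r ≤ l / 2 := by rcases hr with h | h <;> constructor <;> linarith
  have hr3 : (r = 0 ∧ c1 = 0) ∨ r = l / 2 := by
    rcases hr with h | h
    · exact Or.inl ⟨h.1, h.2.1⟩
    · exact Or.inr h
  have hval := (val_eq c0 m (z := z) hr3 (fun x hx => (hmu x hx).trans hr2.2) h0 h1).2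
  -- the defect functional
  have hD0 : 0 ≤ D := le_trans (by positivity) hD
  have hfun : ∀ (f : ℂ → ℝ) (b : ℝ), 0 ≤ b → (∀ x : ℂ, |x.re| ≤ r → |f x| ≤ b) →
      |Sm mu f - BM m c0 c1 f| ≤ D * b := by
    intro f b hb hf
    rw [hrep f]
    have u0 := hf 0 (by simpa using hr2.1)
    have u3 := Sm_abs (mu := ex) (f := f) (B := b) fun x hx => hf x (hex x hx)
    have v0 : |a0 * f 0| ≤ |a0| * b := by rw [abs_mul]; gcongr
    have v12 : |a1 * f ((l : ℂ) / 2)| ≤ |a1| * b ∧ |a2 * f (-((l : ℂ) / 2))| ≤ |a2| * b := by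
      rcases hr with ⟨_, _, e1, e2⟩ | hr
      · rw [e1, e2]
        simp
      · subst hr
        have u1 := hf _ half_re.1
        have u2 := hf _ half_re.2.1
        constructor <;> rw [abs_mul] <;> gcongr
    obtain ⟨v1, v2⟩ := v12
    calc |a0 * f 0 + a1 * f ((l : ℂ) / 2) + a2 * f (-((l : ℂ) / 2)) + Sm ex f|
        ≤ |a0 * f 0| + |a1 * f ((l : ℂ) / 2)| + |a2 * f (-((l : ℂ) / 2))| + |Sm ex f| := by
          refine (abs_add_le _ _).trans ?_
          gcongr
          refine (abs_add_le _ _).trans ?_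
          gcongr
          exact abs_add_le _ _
      _ ≤ (|a0| + |a1| + |a2| + ex.length) * b := by linarith
      _ ≤ D * b := by gcongr
  have hre : ∀ x y : ℂ, |x.re| ≤ r → |y.re| ≤ r → |(x - y).re| ≤ l := by
    intro x y hx hy
    rw [sub_re]
    have := abs_sub x.re y.re
    linarith
  -- the double defect
  have hinner : ∀ x : ℂ, |x.re| ≤ r →
      |(Sm mu fun y => kr (x - y)) - BM m c0 c1 fun y => kr (x - y)| ≤ D * B :=
    fun x hx => hfun (fun y => kr (x - y)) B hB fun y hy => Hr _ (hre x y hx hy)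
  have houter := hfun (fun x => (Sm mu fun y => kr (x - y)) - BM m c0 c1 fun y => kr (x - y)) (D * B)
    (by positivity) hinner
  have hsym : (BM m c0 c1 fun x => Sm mu fun y => kr (x - y)) =
      Sm mu fun x => BM m c0 c1 fun y => kr (x - y) := by
    have h1 := BM_Sm m c0 c1 mu fun x y => kr (x - y)
    rw [← h1]
    congr 1
    funext y
    refine Sm_congr fun x _ => ?_
    rw [← kr_neg, neg_sub]
  rw [Sm_sub, BM_sub, hsym] at houter
  have hleg := hfun (fun y => kl (z - y)) B hB fun y hy => Hl _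
    (by rw [sub_re]; have := abs_le.1 hy; linarith [this.2])
    (by rw [sub_re]; have := abs_le.1 hy; linarith [this.1])
  rw [hval]
  obtain ⟨o1, o2⟩ := abs_le.1 houter
  obtain ⟨g1, g2⟩ := abs_le.1 hleg
  rw [abs_le]
  constructor <;> nlinarith

/-! ### product form: the normaliser -/

/-- sum over pairs `a < b` -/
def PS {N : ℕ} (f : Fin N → Fin N → ℝ) : ℝ := ∑ a, ∑ b, if a < b then f a b else 0

/-- product over pairs -/
def PR {N : ℕ} (f : Fin N → Fin N → ℝ) : ℝ := ∏ a, ∏ b, if a < b then f a b else 1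

lemma norm_GP {N : ℕ} (f : Fin N → Fin N → ℂ) : ‖NUP1.Grand.P f‖ = PR fun a b => ‖f a b‖ := by
  unfold NUP1.Grand.P PR
  rw [norm_prod]
  refine Finset.prod_congr rfl fun a _ => ?_
  rw [norm_prod]
  refine Finset.prod_congr rfl fun b _ => ?_
  split_ifs <;> simp

lemma PR_pos {N : ℕ} {f : Fin N → Fin N → ℝ} (h : ∀ a b, a < b → 0 < f a b) : 0 < PR f := by
  unfold PR
  refine Finset.prod_pos fun a _ => Finset.prod_pos fun b _ => ?_
  split_ifs with hab
  · exact h a b hab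
  · exact one_pos

lemma log_PR {N : ℕ} {f : Fin N → Fin N → ℝ} (h : ∀ a b, a < b → f a b ≠ 0) :
    Real.log (PR f) = PS fun a b => Real.log (f a b) := by
  have hh : ∀ a b, (if a < b then f a b else 1) ≠ 0 := by
    intro a b
    split_ifs with hab
    · exact h a b hab
    · exact one_ne_zero
  unfold PR PS
  rw [Real.log_prod (fun a _ => Finset.prod_ne_zero_iff.2 fun b _ => hh a b)]
  refine Finset.sum_congr rfl fun a _ => ?_
  rw [Real.log_prod (fun b _ => hh a b)]
  refine Finset.sum_congr rfl fun b _ => ?_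
  split_ifs <;> simp

lemma sum_sym {N : ℕ} (g : Fin N → Fin N → ℝ) (h : ∀ a b, g a b = g b a) :
    ∑ a, ∑ b, g a b = (∑ a, g a a) + 2 * PS g := by
  have e : ∀ a b, g a b = (if a = b then g a a else 0) + ((if a < b then g a b else 0) +
      if b < a then g b a else 0) := by
    intro a b
    rcases lt_trichotomy a b with hab | hab | hab
    · rw [if_neg hab.ne, if_pos hab, if_neg (not_lt.2 hab.le)]; ring
    · subst hab; simp
    · rw [if_neg hab.ne', if_neg (not_lt.2 hab.le), if_pos hab, h]; ring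
  have e1 : ∑ a, ∑ b, g a b = ∑ a, ∑ b, ((if a = b then g a a else 0) +
      ((if a < b then g a b else 0) + if b < a then g b a else 0)) :=
    Finset.sum_congr rfl fun a _ => Finset.sum_congr rfl fun b _ => e a b
  rw [e1]
  simp only [Finset.sum_add_distrib]
  have e2 : ∑ a, ∑ b, (if b < a then g b a else 0) = PS g := by
    rw [Finset.sum_comm]
    rfl
  have e3 : ∑ a, ∑ b, (if a < b then g a b else 0) = PS g := rfl
  rw [e2, e3]
  simp only [Finset.sum_ite_eq, Finset.mem_univ, if_true]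
  ring

lemma PS_lin {N : ℕ} (c : ℝ) (f g : Fin N → Fin N → ℝ) :
    PS (fun a b => c * f a b - g a b) = c * PS f - PS g := by
  unfold PS
  rw [Finset.mul_sum, ← Finset.sum_sub_distrib]
  refine Finset.sum_congr rfl fun a _ => ?_
  rw [Finset.mul_sum, ← Finset.sum_sub_distrib]
  refine Finset.sum_congr rfl fun b _ => ?_
  split_ifs <;> ring

lemma PS_congr {N : ℕ} {f g : Fin N → Fin N → ℝ} (h : ∀ a b, f a b = g a b) : PS f = PS g := by
  unfold PS
  refine Finset.sum_congr rfl fun a _ => Finset.sum_congr rfl fun b _ => ?_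
  rw [h]

/-- the normaliser of `n_mu (z)` -/
def nrmN (z : ℂ) {N : ℕ} (x : Fin N → ℂ) : ℝ :=
  (2 / 3) ^ (2 * N + 1) * PR (fun a b => ‖PBR.rh (x a - x b)‖) ^ 8 * ‖PBR.rh 0‖ ^ (2 * N + 1) *
    ∏ i, ‖PBR.rh (z - x i)‖ ^ 4

lemma Sm_ofFn {N : ℕ} (x : Fin N → ℂ) (f : ℂ → ℝ) : Sm (List.ofFn x) f = ∑ i, f (x i) := by
  unfold Sm
  rw [List.map_ofFn, List.sum_ofFn]
  rfl

lemma norm_rh0 : ‖PBR.rh 0‖ = 2 / 3 * (Real.sin (3 * l) * Real.sin (2 * l) / Real.sin l) := by
  have hl := l_pos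
  have h8 := NUMF.eight_l
  have hs : 0 < Real.sin l := Real.sin_pos_of_pos_of_lt_pi hl (by linarith)
  have h2 : Real.sin (2 * l) = √2 / 2 := by
    rw [← Real.sin_pi_div_four]; congr 1; linarith
  have h3 : Real.sin (3 * l) = Real.cos l := by
    rw [← Real.sin_pi_div_two_sub]; congr 1; linarith
  have h4 : Real.cos (2 * l) = √2 / 2 := by
    rw [← Real.cos_pi_div_four]; congr 1; linarith
  have hq : (√2 : ℝ) ^ 2 = 2 := Real.sq_sqrt (by norm_num)
  have hn : ‖PBR.rh 0‖ = (2 + √2) / 3 := by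
    rw [PBR.rh_zero]
    unfold PBR.r2
    rw [show ((2 : ℂ) + ((√2 : ℝ) : ℂ)) / 3 = (((2 + √2) / 3 : ℝ) : ℂ) by push_cast; rfl,
      Complex.norm_real, Real.norm_of_nonneg (by positivity)]
  rw [hn, h2, h3]
  have hc : Real.cos l = (1 + √2) * Real.sin l := by
    have e1 : Real.sin (2 * l) = 2 * Real.sin l * Real.cos l := Real.sin_two_mul l
    have e2 : Real.cos (2 * l) = 1 - 2 * Real.sin l ^ 2 := by
      rw [Real.cos_two_mul, Real.cos_sq']; ring
    have e3 : Real.sin l * (Real.cos l - (1 + √2) * Real.sin l) = 0 := by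
      rw [h2] at e1
      rw [h4] at e2
      nlinarith
    rcases mul_eq_zero.1 e3 with h | h
    · exact absurd h hs.ne'
    · linarith
  rw [hc]
  field_simp
  nlinarith

lemma norm_rh0_pos : 0 < ‖PBR.rh 0‖ := by
  have hl := l_pos
  have h8 := NUMF.eight_l
  rw [norm_rh0]
  have hs : 0 < Real.sin l := Real.sin_pos_of_pos_of_lt_pi hl (by linarith)
  have h2 : 0 < Real.sin (2 * l) := Real.sin_pos_of_pos_of_lt_pi (by linarith) (by linarith)
  have h3 : 0 < Real.sin (3 * l) := Real.sin_pos_of_pos_of_lt_pi (by linarith) (by linarith)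
  positivity

theorem kr_eq (d : ℂ) : kr d = NUMFH.mE d := rfl

lemma fw_norm (w : ℂ) : ‖PBS.fw .pos .pos w‖ = ‖Complex.sin (3 * l + w)‖ *
    ‖Complex.sin (3 * l - w)‖ * (‖Complex.sin (2 * l + w)‖ * ‖Complex.sin (2 * l - w)‖) := by
  have : PBS.fw .pos .pos w = Complex.sin (3 * l + w) * Complex.sin (3 * l - w) *
    (Complex.sin (2 * l + w) * Complex.sin (2 * l - w)) := rfl
  rw [this, norm_mul, norm_mul, norm_mul]

lemma sin_add_ne {k : ℝ} {w : ℂ} (h0 : -(k * l) < w.re) (h1 : w.re < (8 - k) * l) :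
    Complex.sin ((k : ℂ) * l + w) ≠ 0 :=
  NUMF.sin_ne_of (by rw [re_k]; linarith) (by rw [re_k]; linarith)

lemma fw_parts {w : ℂ} (hw : |w.re| < 2 * l) : Complex.sin (3 * l + w) ≠ 0 ∧
    Complex.sin (3 * l - w) ≠ 0 ∧ Complex.sin (2 * l + w) ≠ 0 ∧ Complex.sin (2 * l - w) ≠ 0 := by
  have hl := l_pos
  obtain ⟨h1, h2⟩ := abs_lt.1 hw
  have a1 := sin_add_ne (k := 3) (w := w) (by linarith) (by linarith)
  have a2 := sin_add_ne (k := 3) (w := -w) (by rw [neg_re]; linarith) (by rw [neg_re]; linarith)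
  have a3 := sin_add_ne (k := 2) (w := w) (by linarith) (by linarith)
  have a4 := sin_add_ne (k := 2) (w := -w) (by rw [neg_re]; linarith) (by rw [neg_re]; linarith)
  push_cast at a1 a2 a3 a4
  rw [← sub_eq_add_neg] at a2 a4
  exact ⟨a1, a2, a3, a4⟩

lemma log_fw {w : ℂ} (hw : |w.re| < 2 * l) : Real.log ‖PBS.fw .pos .pos w‖ =
    4 * Real.log ‖PBR.rh w‖ - kr w := by
  have hl := l_pos
  obtain ⟨a1, a2, a3, a4⟩ := fw_parts hw
  have n1 := norm_ne_zero_iff.2 a1
  have n2 := norm_ne_zero_iff.2 a2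
  have n3 := norm_ne_zero_iff.2 a3
  have n4 := norm_ne_zero_iff.2 a4
  rw [fw_norm, Real.log_mul (mul_ne_zero n1 n2) (mul_ne_zero n3 n4), Real.log_mul n1 n2,
    Real.log_mul n3 n4, rh_rhC (by linarith)]
  unfold kr
  ring

lemma rh_pos {w : ℂ} (h : |w.re| ≤ 4 * l) : 0 < ‖PBR.rh w‖ := by
  have hl := l_pos
  refine norm_pos_iff.2 (PBR.rh_ne_zero ?_)
  change |w.re| < 5 * l
  linarith

section

variable {z : ℂ} {N : ℕ} {x : Fin N → ℂ}

lemma nrm_pos (hx : ∀ i j, |(x i - x j).re| ≤ l) (hz : ∀ i, -l ≤ (z - x i).re ∧ (z - x i).re ≤ 4 * l) :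
    0 < nrmN z x := by
  have hl := l_pos
  have hnp : 0 < PR (fun a b => ‖PBR.rh (x a - x b)‖) :=
    PR_pos fun a b _ => rh_pos (by linarith [hx a b])
  have hpz : 0 < ∏ i, ‖PBR.rh (z - x i)‖ ^ 4 := Finset.prod_pos fun i _ => pow_pos (rh_pos
    (abs_le.2 ⟨by linarith [(hz i).1], (hz i).2⟩)) 4
  exact mul_pos (mul_pos (mul_pos (pow_pos (by norm_num) _) (pow_pos hnp 8))
    (pow_pos norm_rh0_pos _)) hpz

lemma log_nrm (hx : ∀ i j, |(x i - x j).re| ≤ l)
    (hz : ∀ i, -l ≤ (z - x i).re ∧ (z - x i).re ≤ 4 * l) :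
    Real.log (nrmN z x) = (2 * N + 1) * Real.log (2 / 3) + 8 * PS (fun a b =>
      Real.log ‖PBR.rh (x a - x b)‖) + (2 * N + 1) * Real.log ‖PBR.rh 0‖ +
        ∑ i, 4 * Real.log ‖PBR.rh (z - x i)‖ := by
  have hl := l_pos
  have hrp : ∀ a b, 0 < ‖PBR.rh (x a - x b)‖ := fun a b => rh_pos (by linarith [hx a b])
  have hzp : ∀ i, 0 < ‖PBR.rh (z - x i)‖ := fun i => rh_pos
    (abs_le.2 ⟨by linarith [(hz i).1], (hz i).2⟩)
  have hnp : 0 < PR (fun a b => ‖PBR.rh (x a - x b)‖) := PR_pos fun a b _ => hrp a b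
  have hpz : 0 < ∏ i, ‖PBR.rh (z - x i)‖ ^ 4 := Finset.prod_pos fun i _ => pow_pos (hzp i) 4
  have h1 : (0 : ℝ) < (2 / 3) ^ (2 * N + 1) := pow_pos (by norm_num) _
  have h2 := pow_pos hnp 8
  have h3 := pow_pos norm_rh0_pos (2 * N + 1)
  have h4 : Real.log (PR (fun a b => ‖PBR.rh (x a - x b)‖)) =
      PS fun a b => Real.log ‖PBR.rh (x a - x b)‖ := log_PR fun a b _ => (hrp a b).ne'
  have h5 : Real.log (∏ i, ‖PBR.rh (z - x i)‖ ^ 4) = ∑ i, 4 * Real.log ‖PBR.rh (z - x i)‖ := by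
    rw [Real.log_prod fun i _ => (pow_pos (hzp i) 4).ne']
    refine Finset.sum_congr rfl fun i _ => ?_
    rw [Real.log_pow]
    norm_num
  unfold nrmN
  rw [Real.log_mul (mul_pos (mul_pos h1 h2) h3).ne' hpz.ne', Real.log_mul (mul_pos h1 h2).ne' h3.ne',
    Real.log_mul h1.ne' h2.ne', Real.log_pow, Real.log_pow, Real.log_pow, h4, h5]
  push_cast
  ring

end

/-- **the normaliser is the exponential of the mean field energy**, exactly: rows with
`|Re (x i - x j)| ≤ l`, legs with `- l ≤ Re (z - x i) ≤ 4 l` -/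
theorem pre_exact {z : ℂ} {N : ℕ} {x : Fin N → ℂ} (hx : ∀ i j, |(x i - x j).re| ≤ l)
    (hz : ∀ i, -l ≤ (z - x i).re ∧ (z - x i).re ≤ 4 * l) :
    Real.sin l * ‖PBS.pre z x‖ ^ 2 *
      Real.exp ((∑ i, ∑ j, NUMFH.mE (x i - x j)) + 2 * ∑ i, NUMFH.lE (z - x i)) =
    3 / 2 * (Real.sin l / ‖PBR.rh 0‖) * nrmN z x := by
  have hl := l_pos
  have h8 := NUMF.eight_l
  have hs : 0 < Real.sin l := Real.sin_pos_of_pos_of_lt_pi hl (by linarith)
  have hs2 : 0 < Real.sin (2 * l) := Real.sin_pos_of_pos_of_lt_pi (by linarith) (by linarith)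
  have hs3 : 0 < Real.sin (3 * l) := Real.sin_pos_of_pos_of_lt_pi (by linarith) (by linarith)
  have hr0 := norm_rh0_pos
  -- positivity
  have hrp : ∀ a b, 0 < ‖PBR.rh (x a - x b)‖ := fun a b => rh_pos (by linarith [hx a b])
  have hzp : ∀ i, 0 < ‖PBR.rh (z - x i)‖ := fun i => rh_pos
    (abs_le.2 ⟨by linarith [(hz i).1], (hz i).2⟩)
  have hz2 : ∀ i, Complex.sin (3 * l + (z - x i)) ≠ 0 ∧ Complex.sin (2 * l + (z - x i)) ≠ 0 := by
    intro i
    have a1 := sin_add_ne (k := 3) (w := z - x i) (by linarith [(hz i).1]) (by linarith [(hz i).2])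
    have a3 := sin_add_ne (k := 2) (w := z - x i) (by linarith [(hz i).1]) (by linarith [(hz i).2])
    push_cast at a1 a3
    exact ⟨a1, a3⟩
  have hfw : ∀ a b, 0 < ‖PBS.fw .pos .pos (x a - x b)‖ := by
    intro a b
    obtain ⟨a1, a2, a3, a4⟩ := fw_parts (w := x a - x b) (by linarith [hx a b])
    rw [fw_norm]
    have := norm_pos_iff.2 a1
    have := norm_pos_iff.2 a2
    have := norm_pos_iff.2 a3
    have := norm_pos_iff.2 a4
    positivity
  -- the prefactor
  have hsl : ‖Complex.sin (l : ℂ)‖ = Real.sin l := by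
    rw [← Complex.ofReal_sin, Complex.norm_real, Real.norm_of_nonneg hs.le]
  have hLw : ∀ i, ‖Complex.sin (NUP1.l : ℂ) * PBS.Lw .pos (z - x i)‖ = Real.sin l *
      (‖Complex.sin (3 * l + (z - x i))‖ * ‖Complex.sin (2 * l + (z - x i))‖) := by
    intro i
    have e1 : PBS.Lw .pos (z - x i) = Complex.sin (z - x i + 3 * l) * Complex.sin (z - x i + 2 * l) :=
      rfl
    rw [e1, norm_mul, norm_mul, add_comm (z - x i), add_comm (z - x i)]
    congr 1
  have hpre : ‖PBS.pre z x‖ = (∏ i, (Real.sin l *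
      (‖Complex.sin (3 * l + (z - x i))‖ * ‖Complex.sin (2 * l + (z - x i))‖))) *
        PR (fun a b => ‖PBS.fw .pos .pos (x a - x b)‖) := by
    unfold PBS.pre
    rw [norm_mul, norm_prod, norm_GP]
    congr 1
    exact Finset.prod_congr rfl fun i _ => hLw i
  have hterm : ∀ i, (0 : ℝ) < Real.sin l *
      (‖Complex.sin (3 * l + (z - x i))‖ * ‖Complex.sin (2 * l + (z - x i))‖) := by
    intro i
    have := norm_pos_iff.2 (hz2 i).1
    have := norm_pos_iff.2 (hz2 i).2
    positivity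
  have hpp : 0 < ‖PBS.pre z x‖ := by
    rw [hpre]
    exact mul_pos (Finset.prod_pos fun i _ => hterm i) (PR_pos fun a b _ => hfw a b)
  have hlogpre : Real.log ‖PBS.pre z x‖ = (∑ i, (Real.log (Real.sin l) +
      (Real.log ‖Complex.sin (3 * l + (z - x i))‖ + Real.log ‖Complex.sin (2 * l + (z - x i))‖))) +
        PS (fun a b => Real.log ‖PBS.fw .pos .pos (x a - x b)‖) := by
    rw [hpre, Real.log_mul (Finset.prod_pos fun i _ => hterm i).ne'
      (PR_pos fun a b _ => hfw a b).ne', log_PR fun a b _ => (hfw a b).ne',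
      Real.log_prod fun i _ => (hterm i).ne']
    congr 1
    refine Finset.sum_congr rfl fun i _ => ?_
    rw [Real.log_mul hs.ne' (mul_pos (norm_pos_iff.2 (hz2 i).1) (norm_pos_iff.2 (hz2 i).2)).ne',
      Real.log_mul (norm_ne_zero_iff.2 (hz2 i).1) (norm_ne_zero_iff.2 (hz2 i).2)]
  -- the energy
  have hE : ∑ i, ∑ j, NUMFH.mE (x i - x j) = N * kr 0 + 2 * (4 * PS (fun a b =>
      Real.log ‖PBR.rh (x a - x b)‖) - PS fun a b => Real.log ‖PBS.fw .pos .pos (x a - x b)‖) := by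
    have e1 := sum_sym (fun i j => kr (x i - x j)) fun a b => by
      rw [← kr_neg, neg_sub]
    have e2 : PS (fun a b => kr (x a - x b)) = 4 * PS (fun a b =>
        Real.log ‖PBR.rh (x a - x b)‖) - PS fun a b => Real.log ‖PBS.fw .pos .pos (x a - x b)‖ := by
      rw [← PS_lin]
      refine PS_congr fun a b => ?_
      rw [log_fw (by linarith [hx a b])]
      ring
    have e3 : ∑ a : Fin N, kr (x a - x a) = N * kr 0 := by
      simp
    rw [e2, e3] at e1
    exact e1
  have hL : ∑ i, NUMFH.lE (z - x i) = ∑ i, (2 * Real.log ‖PBR.rh (z - x i)‖ -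
      (Real.log ‖Complex.sin (3 * l + (z - x i))‖ + Real.log ‖Complex.sin (2 * l + (z - x i))‖)) := by
    refine Finset.sum_congr rfl fun i _ => ?_
    rw [lE_kl (hz i).1 (hz i).2]
    unfold kl
    ring
  have hr0log : Real.log ‖PBR.rh 0‖ = Real.log (2 / 3) + (Real.log (Real.sin (3 * l)) +
      Real.log (Real.sin (2 * l)) - Real.log (Real.sin l)) := by
    rw [norm_rh0, Real.log_mul (by norm_num) (by positivity), Real.log_div (by positivity) hs.ne',
      Real.log_mul hs3.ne' hs2.ne']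
  have hkr0 : kr 0 = 4 * Real.log ‖PBR.rh 0‖ - 2 * Real.log (Real.sin (3 * l)) -
      2 * Real.log (Real.sin (2 * l)) := by
    unfold kr
    have n3 : ‖Complex.sin (3 * (l : ℂ))‖ = Real.sin (3 * l) := by
      rw [show (3 * (l : ℂ)) = ((3 * l : ℝ) : ℂ) by push_cast; rfl, ← Complex.ofReal_sin,
        Complex.norm_real, Real.norm_of_nonneg hs3.le]
    have n2 : ‖Complex.sin (2 * (l : ℂ))‖ = Real.sin (2 * l) := by
      rw [show (2 * (l : ℂ)) = ((2 * l : ℝ) : ℂ) by push_cast; rfl, ← Complex.ofReal_sin,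
        Complex.norm_real, Real.norm_of_nonneg hs2.le]
    rw [← rh_rhC (by simpa using hl), add_zero, sub_zero, add_zero, sub_zero, n3, n2]
    ring
  -- compare logarithms
  have hL1 : 0 < Real.sin l * ‖PBS.pre z x‖ ^ 2 *
      Real.exp ((∑ i, ∑ j, NUMFH.mE (x i - x j)) + 2 * ∑ i, NUMFH.lE (z - x i)) :=
    mul_pos (mul_pos hs (pow_pos hpp 2)) (Real.exp_pos _)
  have hN : 0 < nrmN z x := nrm_pos hx hz
  have hR0 : 0 < Real.sin l / ‖PBR.rh 0‖ := div_pos hs hr0
  have hR1 : 0 < 3 / 2 * (Real.sin l / ‖PBR.rh 0‖) * nrmN z x :=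
    mul_pos (mul_pos (by norm_num) hR0) hN
  refine Real.log_injOn_pos hL1 hR1 ?_
  have h32 : Real.log (3 / 2) = -Real.log (2 / 3) := by
    rw [← Real.log_inv]; norm_num
  have a1 : Real.log (Real.sin l * ‖PBS.pre z x‖ ^ 2 *
      Real.exp ((∑ i, ∑ j, NUMFH.mE (x i - x j)) + 2 * ∑ i, NUMFH.lE (z - x i))) =
      Real.log (Real.sin l) + 2 * Real.log ‖PBS.pre z x‖ +
        ((∑ i, ∑ j, NUMFH.mE (x i - x j)) + 2 * ∑ i, NUMFH.lE (z - x i)) := by
    rw [Real.log_mul (mul_pos hs (pow_pos hpp 2)).ne' (Real.exp_pos _).ne', Real.log_exp,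
      Real.log_mul hs.ne' (pow_pos hpp 2).ne', Real.log_pow]
    norm_num
  have a2 : Real.log (3 / 2 * (Real.sin l / ‖PBR.rh 0‖) * nrmN z x) =
      Real.log (3 / 2) + (Real.log (Real.sin l) - Real.log ‖PBR.rh 0‖) + Real.log (nrmN z x) := by
    rw [Real.log_mul (mul_pos (by norm_num) hR0).ne' hN.ne', Real.log_mul (by norm_num) hR0.ne',
      Real.log_div hs.ne' hr0.ne']
  rw [a1, a2, hlogpre, hE, hL, log_nrm hx hz, hkr0, h32]
  simp only [Finset.sum_add_distrib, Finset.sum_sub_distrib, ← Finset.mul_sum, Finset.sum_const,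
    Finset.card_univ, Fintype.card_fin, nsmul_eq_mul]
  rw [hr0log]
  ring

lemma prod_sym {N : ℕ} (g : Fin N → Fin N → ℝ) (h : ∀ a b, g a b = g b a) :
    ∏ a, ∏ b, g a b = (∏ a, g a a) * PR g ^ 2 := by
  have e : ∀ a b, g a b = (if a = b then g a a else 1) * ((if a < b then g a b else 1) *
      if b < a then g b a else 1) := by
    intro a b
    rcases lt_trichotomy a b with hab | hab | hab
    · rw [if_neg hab.ne, if_pos hab, if_neg (not_lt.2 hab.le)]; ring
    · subst hab; simp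
    · rw [if_neg hab.ne', if_neg (not_lt.2 hab.le), if_pos hab, h]; ring
  have e1 : ∏ a, ∏ b, g a b = ∏ a, ∏ b, ((if a = b then g a a else 1) *
      ((if a < b then g a b else 1) * if b < a then g b a else 1)) :=
    Finset.prod_congr rfl fun a _ => Finset.prod_congr rfl fun b _ => e a b
  rw [e1]
  simp only [Finset.prod_mul_distrib]
  have e2 : ∏ a, ∏ b, (if b < a then g b a else 1) = PR g := by
    rw [Finset.prod_comm]
    rfl
  have e3 : ∏ a, ∏ b, (if a < b then g a b else 1) = PR g := rfl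
  rw [e2, e3]
  simp only [Finset.prod_ite_eq, Finset.mem_univ, if_true]
  ring

/-- **the literal quotient** -/
theorem norm_quot (z : ℂ) {N : ℕ} (x : Fin N → ℂ) :
    ‖(3 / 2 : ℂ) ^ (2 * N + 1) * Complex.sin l * (PBS.pre z x * PBS.pre z x) /
      (NUP1.Grand.P (fun i j => PBR.rh (x i - x j)) ^ 2 *
        NUP1.Grand.P (fun i j => PBR.rh (x i - x j)) ^ 2 *
        (∏ i, ∏ j, PBR.rh (x i - x j) ^ 2) * (∏ i, PBR.rh (z - x i) ^ 2) *
        (∏ i, PBR.rh (z - x i) ^ 2) * PBR.rh 0)‖ =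
    Real.sin l * ‖PBS.pre z x‖ ^ 2 / nrmN z x := by
  have hl := l_pos
  have h8 := NUMF.eight_l
  have hs : 0 < Real.sin l := Real.sin_pos_of_pos_of_lt_pi hl (by linarith)
  have hsl : ‖Complex.sin (l : ℂ)‖ = Real.sin l := by
    rw [← Complex.ofReal_sin, Complex.norm_real, Real.norm_of_nonneg hs.le]
  have h32 : ‖(3 / 2 : ℂ)‖ = 3 / 2 := by
    rw [norm_div]; norm_num
  have hd : ‖∏ i, ∏ j, PBR.rh (x i - x j) ^ 2‖ = ‖PBR.rh 0‖ ^ (2 * N) *
      PR (fun i j => ‖PBR.rh (x i - x j)‖) ^ 4 := by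
    have e1 : ‖∏ i, ∏ j, PBR.rh (x i - x j) ^ 2‖ = ∏ i, ∏ j, ‖PBR.rh (x i - x j)‖ ^ 2 := by
      simp only [norm_prod, norm_pow]
    have e2 := prod_sym (fun i j => ‖PBR.rh (x i - x j)‖ ^ 2) fun a b => by
      rw [← PBR.rh_neg, neg_sub]
    have e3 : PR (fun i j => ‖PBR.rh (x i - x j)‖ ^ 2) = PR (fun i j => ‖PBR.rh (x i - x j)‖) ^ 2 := by
      unfold PR
      rw [← Finset.prod_pow]
      refine Finset.prod_congr rfl fun a _ => ?_
      rw [← Finset.prod_pow]
      refine Finset.prod_congr rfl fun b _ => ?_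
      split_ifs <;> simp
    have e4 : ∏ a : Fin N, ‖PBR.rh (x a - x a)‖ ^ 2 = ‖PBR.rh 0‖ ^ (2 * N) := by
      simp [← pow_mul]
    rw [e1, e2, e3, e4]
    ring
  have hz : ‖∏ i, PBR.rh (z - x i) ^ 2‖ = ∏ i, ‖PBR.rh (z - x i)‖ ^ 2 := by
    simp only [norm_prod, norm_pow]
  have hz2 : (∏ i, ‖PBR.rh (z - x i)‖ ^ 2) * (∏ i, ‖PBR.rh (z - x i)‖ ^ 2) =
      ∏ i, ‖PBR.rh (z - x i)‖ ^ 4 := by
    rw [← Finset.prod_mul_distrib]
    exact Finset.prod_congr rfl fun i _ => by ring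
  rw [norm_div, norm_mul, norm_mul, norm_mul, norm_mul, norm_mul, norm_mul, norm_mul, norm_mul, hd,
    hz, norm_pow, norm_pow, norm_GP, hsl, h32]
  unfold nrmN
  rw [← hz2]
  have e5 : ((3 : ℝ) / 2) ^ (2 * N + 1) = ((2 / 3) ^ (2 * N + 1))⁻¹ := by
    rw [← inv_pow]; norm_num
  have e6 : ∀ a s p D : ℝ, a⁻¹ * s * (p * p) / D = s * p ^ 2 / (a * D) := by
    intro a s p D
    rw [div_eq_mul_inv, div_eq_mul_inv, mul_inv]
    ring
  rw [e5, e6]
  congr 1
  ring

/-- **value of the literal quotient**: modulus times exponential of the energies is a constant -/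
theorem quot_exact {z : ℂ} {N : ℕ} {x : Fin N → ℂ} (hx : ∀ i j, |(x i - x j).re| ≤ l)
    (hz : ∀ i, -l ≤ (z - x i).re ∧ (z - x i).re ≤ 4 * l) :
    ‖(3 / 2 : ℂ) ^ (2 * N + 1) * Complex.sin l * (PBS.pre z x * PBS.pre z x) /
      (NUP1.Grand.P (fun i j => PBR.rh (x i - x j)) ^ 2 *
        NUP1.Grand.P (fun i j => PBR.rh (x i - x j)) ^ 2 *
        (∏ i, ∏ j, PBR.rh (x i - x j) ^ 2) * (∏ i, PBR.rh (z - x i) ^ 2) *
        (∏ i, PBR.rh (z - x i) ^ 2) * PBR.rh 0)‖ *
      Real.exp ((∑ i, ∑ j, NUMFH.mE (x i - x j)) + 2 * ∑ i, NUMFH.lE (z - x i)) =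
    3 / 2 * (Real.sin l / ‖PBR.rh 0‖) := by
  have h := pre_exact hx hz
  have hn := nrm_pos hx hz
  rw [norm_quot, div_mul_eq_mul_div, h, mul_div_assoc, div_self hn.ne', mul_one]

end PBVN

end
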