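import Pool.Agent.PB.ValN
import Pool.Agent.PB.NHat

/-!
# Plan B: the value of the normaliser, in the names of `PB/NHat`

`norm_PN : ‖PN z x x‖ = nrmN z x`; **`pn_exact`**: `‖sin l * (pre z x * pre z x) / PN z x x‖` times the
exponential of the energies of the rows and the legs is `3 / 2 * (sin l / ‖rh 0‖)`.
-/

set_option autoImplicit false

noncomputable section

open Complex

namespace PBVN

open NUMF (l l_pos)

theorem norm_PN (z : ℂ) {N : ℕ} (x : Fin N → ℂ) : ‖PBS.PN z x x‖ = nrmN z x := by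
  have hsq : ‖NUP1.Grand.P (fun i j => PBR.rh (x i - x j) ^ 2)‖ =
      PR (fun i j => ‖PBR.rh (x i - x j)‖) ^ 2 := by
    rw [norm_GP]
    unfold PR
    rw [← Finset.prod_pow]
    refine Finset.prod_congr rfl fun a _ => ?_
    rw [← Finset.prod_pow]
    refine Finset.prod_congr rfl fun b _ => ?_
    split_ifs <;> simp
  have hd : ‖∏ i, ∏ j, PBR.rh (x i - x j) ^ 2‖ = ‖PBR.rh 0‖ ^ (2 * N) *
      PR (fun i j => ‖PBR.rh (x i - x j)‖) ^ 4 := by
    have e1 : ‖∏ i, ∏ j, PBR.rh (x i - x j) ^ 2‖ = ∏ i, ∏ j, ‖PBR.rh (x i - x j)‖ ^ 2 := by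
      simp only [norm_prod, norm_pow]
    have e2 := prod_sym (fun i j => ‖PBR.rh (x i - x j)‖ ^ 2) fun a b => by
      rw [← PBR.rh_neg, neg_sub]
    have e3 : PR (fun i j => ‖PBR.rh (x i - x j)‖ ^ 2) =
        PR (fun i j => ‖PBR.rh (x i - x j)‖) ^ 2 := by
      rw [← hsq, norm_GP]
      simp only [norm_pow]
    have e4 : ∏ a : Fin N, ‖PBR.rh (x a - x a)‖ ^ 2 = ‖PBR.rh 0‖ ^ (2 * N) := by
      simp [← pow_mul]
    rw [e1, e2, e3, e4]
    ring
  have hz : ‖∏ i, PBR.rh (z - x i) ^ 2‖ = ∏ i, ‖PBR.rh (z - x i)‖ ^ 2 := by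
    simp only [norm_prod, norm_pow]
  have hz2 : (∏ i, ‖PBR.rh (z - x i)‖ ^ 2) * (∏ i, ‖PBR.rh (z - x i)‖ ^ 2) =
      ∏ i, ‖PBR.rh (z - x i)‖ ^ 4 := by
    rw [← Finset.prod_mul_distrib]
    exact Finset.prod_congr rfl fun i _ => by ring
  have h23 : ‖(2 / 3 : ℂ)‖ = 2 / 3 := by
    rw [norm_div]; norm_num
  unfold PBS.PN
  rw [norm_mul, norm_mul, norm_mul, norm_mul, norm_mul, norm_mul, hd, hz, hsq, norm_pow, h23]
  unfold nrmN
  rw [← hz2]
  ring

/-- **modulus of the prefactor of the normalised function times the exponential of the energies** -/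
theorem pn_exact {z : ℂ} {N : ℕ} {x : Fin N → ℂ} (hx : ∀ i j, |(x i - x j).re| ≤ l)
    (hz : ∀ i, -l ≤ (z - x i).re ∧ (z - x i).re ≤ 4 * l) :
    ‖Complex.sin l * (PBS.pre z x * PBS.pre z x) / PBS.PN z x x‖ *
      Real.exp ((∑ i, ∑ j, NUMFH.mE (x i - x j)) + 2 * ∑ i, NUMFH.lE (z - x i)) =
    3 / 2 * (Real.sin l / ‖PBR.rh 0‖) := by
  have hl := l_pos
  have h8 := NUMF.eight_l
  have hs : 0 < Real.sin l := Real.sin_pos_of_pos_of_lt_pi hl (by linarith)
  have hsl : ‖Complex.sin (l : ℂ)‖ = Real.sin l := by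
    rw [← Complex.ofReal_sin, Complex.norm_real, Real.norm_of_nonneg hs.le]
  have h := pre_exact hx hz
  have hn := nrm_pos hx hz
  rw [norm_div, norm_mul, norm_mul, norm_PN, hsl, ← pow_two, div_mul_eq_mul_div, h, mul_div_assoc,
    div_self hn.ne', mul_one]

end PBVN

end
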