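import Pool.Agent.PB.FtInv

/-!
# Plan B: the values in the literal form of `PBE.E_prime`

Functionals on test functions:
* `mV mf g = ∫ g mf` (`mf` = mean density of the legs, `V * mf = 2 D`, `MeanDat`);
* `CV g h = 2 FU Up g h`, `CmV g h = 2 FU Um g h`, `CsV sg' g = 2 CmD g' sg'`, `CssV sg' = 2 CmD sg' sg'`.

* `mV_lin1`, `CV_lin2`, `mV_le`, **`mV_h0`** (`mV (D') = 0`);
* **`val_K2`** : `∫ mass A mass B = -(J/8) mass (D')²`;
* **`val_K1`** : `∫ (mass A m B + mass B m A) + mass (r D') = (r₊ + r₋)/2 mass (D')`;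
* **`val_V`** : the constant term vanishes;
* **`E_prime_vals`** : `PBE.E_prime` with all the values inserted.
-/

set_option autoImplicit false

open MeasureTheory Set Filter Topology

namespace Pool.Agent.PB

open NUMF

noncomputable section

set_option linter.unusedSectionVars false

/-- mean functional -/
def mV (mf : ℝ → ℂ) (g : ℂ → ℂ) : ℂ := ∫ t : ℝ, g (t : ℂ) * mf t

/-- covariance, mode X + Y -/
def CV (g h : ℂ → ℂ) : ℂ := 2 * FU Up (rl g) (rl h)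

/-- covariance, mode X - Y -/
def CmV (g h : ℂ → ℂ) : ℂ := 2 * FU Um (rl g) (rl h)

/-- covariance with the smooth sign, mode X - Y -/
def CsV (s' : ℝ → ℂ) (g : ℂ → ℂ) : ℂ := 2 * CmD (fun t : ℝ => deriv g (t : ℂ)) s'

/-- variance of the smooth sign, mode X - Y -/
def CssV (s' : ℝ → ℂ) : ℂ := 2 * CmD s' s'

section basic

variable {y₁ y₂ a M : ℝ} {g : ℂ → ℂ} {mf : ℝ → ℂ} {B : ℝ}

lemma TC_deriv (hg : PBE.TC y₁ y₂ a M g) (h1 : y₁ < 0) (h2 : 0 < y₂) (t : ℝ) :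
    HasDerivAt (rl g) (deriv g (t : ℂ)) t := by
  have ho : IsOpen (PBE.Sp y₁ y₂) :=
    (isOpen_lt continuous_const Complex.continuous_im).inter
      (isOpen_lt Complex.continuous_im continuous_const)
  have h3 : HasDerivAt g (deriv g (t : ℂ)) (t : ℂ) := (hg.an.differentiableAt (x := (t : ℂ))
    (ho.mem_nhds ⟨by simpa using h1, by simpa using h2⟩)).hasDerivAt
  exact h3.comp_ofReal

lemma mul_int_of (hf : Integrable (rl g)) (hc : Continuous mf) (hb : ∀ t, ‖mf t‖ ≤ B) :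
    Integrable fun t : ℝ => g (t : ℂ) * mf t :=
  hf.mul_bdd (c := B) hc.aestronglyMeasurable (Eventually.of_forall hb)

lemma mV_lin1 (ha : 0 < a) (h1 : y₁ < 0) (h2 : 0 < y₂) (hc : Continuous mf) (hb : ∀ t, ‖mf t‖ ≤ B) :
    PBE.Lin1 y₁ y₂ a (mV mf) where
  lin M M' g h c hg hh := by
    have i1 := mul_int_of (TC_int hg ha h1 h2) hc hb
    have i2 := mul_int_of (TC_int hh ha h1 h2) hc hb
    unfold mV
    rw [← integral_const_mul, ← integral_add (i1.const_mul c) i2]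
    refine integral_congr_ae (Eventually.of_forall fun t => ?_)
    simp only
    ring

lemma mV_le (ha : 0 < a) (h1 : y₁ < 0) (h2 : 0 < y₂) (hb : ∀ t, ‖mf t‖ ≤ B)
    (hg : PBE.TC y₁ y₂ a M g) : ‖mV mf g‖ ≤ (B * (2 / a)) * M := by
  have hB : 0 ≤ B := (norm_nonneg _).trans (hb 0)
  have hE := (PBE.int_exp_abs ha).1
  unfold mV
  refine (norm_integral_le_of_norm_le (hE.const_mul (M * B)) (Eventually.of_forall fun t => ?_)).trans
    (le_of_eq ?_)
  · rw [norm_mul]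
    have b1 := TC_bd hg h1 h2 t
    calc ‖g (t : ℂ)‖ * ‖mf t‖ ≤ (M * Real.exp (-(a * |t|))) * B :=
          mul_le_mul b1 (hb t) (norm_nonneg _) ((norm_nonneg _).trans b1)
      _ = _ := by ring
  · rw [integral_const_mul, (PBE.int_exp_abs ha).2]
    ring

lemma CV_lin2 {θ : ℝ} (ha : 0 < a) (hθ : 0 < θ) (h1 : y₁ < -θ) (h2 : θ < y₂) :
    PBE.Lin2 y₁ y₂ a CV := FU_lin2 symU_Up ha hθ h1 h2 2

end basic

/-! ### mean density -/

section mean

variable {m m' D D' D'' : ℝ → ℂ} {B : ℝ} {mp mm : ℂ}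

/-- **`∫ D' m = 0`** -/
theorem MeanDat.self_zero (h : MeanDat m m' D D' B mp mm) (hD' : Integrable D')
    (hc : Continuous D') : ∫ t, D' t * m t = 0 := by
  have i1 : Integrable fun t => D' t * m t :=
    hD'.mul_bdd (c := B) h.lim.cont.aestronglyMeasurable (Eventually.of_forall h.lim.b)
  have hDc : Continuous D := continuous_iff_continuousAt.2 fun t => (h.dD t).continuousAt
  have hDb : ∀ t, ‖D t‖ ≤ (B * ∫ u, |V u|) / 2 := by
    intro t
    have h1 := h.lim.conv_bdd t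
    rw [h.eq, norm_mul] at h1
    have : ‖(2 : ℂ)‖ = 2 := by simp
    rw [this] at h1
    linarith
  have i2 : Integrable fun t => m' t * D t :=
    h.lim.int'.mul_bdd hDc.aestronglyMeasurable (Eventually.of_forall hDb)
  -- total derivative
  have hd : ∀ t, HasDerivAt (fun t => m t * D t) (m' t * D t + m t * D' t) t := fun t =>
    (h.lim.d t).mul (h.dD t)
  have i3 : Integrable fun t => m t * D' t := i1.congr (Eventually.of_forall fun t => mul_comm _ _)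
  have hp := integral_of_hasDerivAt_of_tendsto hd (i2.add i3) (h.lim.bot.mul h.bot) (h.lim.top.mul h.top)
  rw [integral_add i2 i3] at hp
  have hk := MeanDat.kap_ne
  have z1 : mp * ((3 * l : ℝ) * Complex.I) - mm * -((3 * l : ℝ) * Complex.I) = 0 := by
    have a1 := h.mp_eq
    have a2 := h.mm_eq
    have a3 : (mp + mm) * ((9 * Real.pi ^ 2 / 32 : ℝ) : ℂ) = 0 := by linear_combination a1 + a2
    have a4 : mp + mm = 0 := by
      rcases mul_eq_zero.1 a3 with h5 | h5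
      · exact h5
      · exact absurd h5 hk
    linear_combination ((3 * l : ℝ) * Complex.I) * a4
  rw [z1] at hp
  -- symmetry of the convolution
  obtain ⟨p1, e1⟩ := conv_symmC (a := m) (b := m') h.lim.cont h.lim.int' h.lim.b
  have e2 : ∫ t, m t * ∫ s, m' s * (V (t - s) : ℂ) = ∫ t, m t * (2 * D' t) := by
    refine integral_congr_ae (Eventually.of_forall fun t => ?_)
    simp only [h.eq']
  have e3 : ∫ t, m' t * ∫ s, m s * (V (t - s) : ℂ) = ∫ t, m' t * (2 * D t) := by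
    refine integral_congr_ae (Eventually.of_forall fun t => ?_)
    simp only [h.eq]
  rw [e2, e3] at e1
  have e4 : ∫ t, m t * (2 * D' t) = 2 * ∫ t, m t * D' t := by
    rw [← integral_const_mul]
    refine integral_congr_ae (Eventually.of_forall fun t => ?_)
    simp only
    ring
  have e5 : ∫ t, m' t * (2 * D t) = 2 * ∫ t, m' t * D t := by
    rw [← integral_const_mul]
    refine integral_congr_ae (Eventually.of_forall fun t => ?_)
    simp only
    ring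
  rw [e4, e5] at e1
  have e6 : ∫ t, D' t * m t = ∫ t, m t * D' t :=
    integral_congr_ae (Eventually.of_forall fun t => mul_comm _ _)
  rw [e6]
  linear_combination (1 / 2) * hp + (1 / 4) * e1

end mean

/-! ### the values -/

lemma Lim.smul {f f' : ℝ → ℂ} {B : ℝ} {fp fm : ℂ} (h : Lim f f' B fp fm) {c : ℂ} (hc : ‖c‖ ≤ 1) :
    Lim (fun t => c * f t) (fun t => c * f' t) B (c * fp) (c * fm) where
  d s := (h.d s).const_mul c
  c := continuous_const.mul h.c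
  b s := by
    rw [norm_mul]
    calc ‖c‖ * ‖f s‖ ≤ 1 * ‖f s‖ := mul_le_mul_of_nonneg_right hc (norm_nonneg _)
      _ ≤ B := by rw [one_mul]; exact h.b s
  b' s := by
    rw [norm_mul]
    calc ‖c‖ * ‖f' s‖ ≤ 1 * ‖f' s‖ := mul_le_mul_of_nonneg_right hc (norm_nonneg _)
      _ ≤ _ := by rw [one_mul]; exact h.b' s
  top := h.top.const_mul c
  bot := h.bot.const_mul c

lemma norm_quarter : ‖(1 / 4 : ℂ)‖ ≤ 1 := by
  rw [norm_div]
  norm_num

/-- data of the values -/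
structure VDat {T T' : Type*} [MeasurableSpace T] [MeasurableSpace T'] (y₁ y₂ a θ : ℝ)
    (σm : Measure T) (σm' : Measure T') (A B : T → ℂ → ℂ) (al be : T → ℝ) (A' B' : T' → ℂ → ℂ)
    (al' be' : T' → ℝ) (r u h0 g2 q : ℂ → ℂ) (rd ud sg sg' sg'' mf mf' D : ℝ → ℂ)
    (b M0 M2 Mq Mu : ℝ) (rp rm mp mm : ℂ) : Prop where
  ha : 0 < a
  hθ : 0 < θ
  h1 : y₁ < -θ
  h2 : θ < y₂
  hb : 1 ≤ b
  hR : PBE.Rep y₁ y₂ a σm A B al be
  hR' : PBE.Rep y₁ y₂ a σm' A' B' al' be'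
  mA : MeasR A
  mB : MeasR B
  mA' : MeasR A'
  mB' : MeasR B'
  kp : ∀ᵐ p : ℝ × ℝ ∂(volume.prod volume), ∫ s, A s (p.1 : ℂ) * B s (p.2 : ℂ) ∂σm =
    1 / 4 * (r p.1 - r p.2) * KC (p.1 - p.2)
  km : ∀ᵐ p : ℝ × ℝ ∂(volume.prod volume), ∫ s, A' s (p.1 : ℂ) * B' s (p.2 : ℂ) ∂σm' =
    1 / 4 * (r p.1 - r p.2) * KmC (p.1 - p.2) - u p.1 * sg p.2 - sg p.1 * u p.2 -
      (rp - rm) / 2 * (1 - sg p.1 * sg p.2)
  lr : Lim (rl r) rd b rp rm
  lu : Lim (rl u) ud b 0 0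
  ls : Lim sg sg' b 1 (-1)
  ls' : Lim sg' sg'' b 0 0
  tu : PBE.TC y₁ y₂ a Mu u
  hm : MeanDat mf mf' D (rl h0) b mp mm
  th0 : PBE.TC y₁ y₂ a M0 h0
  tg2 : PBE.TC y₁ y₂ a M2 g2
  dg2 : ∀ t : ℝ, HasDerivAt (rl h0) (g2 t) t
  tq : PBE.TC y₁ y₂ a Mq q
  eq : ∀ t : ℝ, q t = r t * h0 t

namespace VDat

variable {T T' : Type*} [MeasurableSpace T] [MeasurableSpace T'] {y₁ y₂ a θ : ℝ}
    {σm : Measure T} {σm' : Measure T'} [SFinite σm] [SFinite σm'] {A B : T → ℂ → ℂ} {al be : T → ℝ}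
    {A' B' : T' → ℂ → ℂ} {al' be' : T' → ℝ} {r u h0 g2 q : ℂ → ℂ}
    {rd ud sg sg' sg'' mf mf' D : ℝ → ℂ} {b M0 M2 Mq Mu : ℝ} {rp rm mp mm : ℂ}

section

variable (d : VDat y₁ y₂ a θ σm σm' A B al be A' B' al' be' r u h0 g2 q rd ud sg sg' sg'' mf mf' D
  b M0 M2 Mq Mu rp rm mp mm)

include d

lemma y1 : y₁ < 0 := by linarith [d.h1, d.hθ]
lemma y2 : 0 < y₂ := by linarith [d.h2, d.hθ]
lemma b0 : 0 ≤ b := by linarith [d.hb]

lemma H1 : Integrable (fun p : T × (ℝ × ℝ) => rl (A p.1) p.2.1 * rl (B p.1) p.2.2)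
    (σm.prod (volume.prod volume)) := rep_H1 d.hR d.mA d.mB d.ha d.y1 d.y2

lemma H1' : Integrable (fun p : T' × (ℝ × ℝ) => rl (A' p.1) p.2.1 * rl (B' p.1) p.2.2)
    (σm'.prod (volume.prod volume)) := rep_H1 d.hR' d.mA' d.mB' d.ha d.y1 d.y2

lemma lr4 : Lim (fun t => 1 / 4 * rl r t) (fun t => 1 / 4 * rd t) b (1 / 4 * rp) (1 / 4 * rm) :=
  d.lr.smul norm_quarter

/-! #### mean functional -/

lemma m_lin1 : PBE.Lin1 y₁ y₂ a (mV mf) := mV_lin1 d.ha d.y1 d.y2 d.hm.lim.cont d.hm.lim.b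

lemma m_le (M : ℝ) (g : ℂ → ℂ) (hg : PBE.TC y₁ y₂ a M g) : ‖mV mf g‖ ≤ (b * (2 / a)) * M :=
  mV_le d.ha d.y1 d.y2 d.hm.lim.b hg

lemma m_h0 : mV mf h0 = 0 :=
  d.hm.self_zero (TC_int d.th0 d.ha d.y1 d.y2) (TC_cont d.th0 d.y1 d.y2)

lemma c_lin2 : PBE.Lin2 y₁ y₂ a CV := CV_lin2 d.ha d.hθ d.h1 d.h2

lemma mass_h0 : PBE.mass h0 = 2 * ((3 * l : ℝ) * Complex.I) := by
  have h := integral_of_hasDerivAt_of_tendsto d.hm.dD (TC_int d.th0 d.ha d.y1 d.y2) d.hm.bot d.hm.top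
  have e : PBE.mass h0 = ∫ t, rl h0 t := rfl
  rw [e, h]
  ring

lemma mass_h0_ne : PBE.mass h0 ≠ 0 := by
  rw [d.mass_h0]
  have hl : (0 : ℝ) < 3 * l := by
    have := l_pos
    linarith
  have : ((3 * l : ℝ) : ℂ) ≠ 0 := Complex.ofReal_ne_zero.2 hl.ne'
  simp only [ne_eq, mul_eq_zero, Complex.I_ne_zero, or_false]
  push_neg
  exact ⟨two_ne_zero, this⟩

lemma mass_g2 : PBE.mass g2 = 0 := by
  have hE := (PBE.int_exp_abs d.ha).1
  have lim0 : ∀ F : Filter ℝ, Tendsto (fun t => |t|) F atTop → Tendsto (rl h0) F (𝓝 0) := by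
    intro F hF
    refine squeeze_zero_norm (fun t => TC_bd d.th0 d.y1 d.y2 t) ?_
    have h1 : Tendsto (fun t : ℝ => a * |t|) F atTop := hF.const_mul_atTop d.ha
    have h2 := (Real.tendsto_exp_atBot.comp (tendsto_neg_atTop_atBot.comp h1)).const_mul M0
    simpa using h2
  have h := integral_of_hasDerivAt_of_tendsto d.dg2 (TC_int d.tg2 d.ha d.y1 d.y2)
    (lim0 _ tendsto_abs_atBot_atTop) (lim0 _ tendsto_abs_atTop_atTop)
  have e : PBE.mass g2 = ∫ t : ℝ, g2 t := rfl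
  rw [e]
  simpa using h

/-! #### weights -/

lemma wt {m n : ℝ → ℂ} {C : ℝ} (hm : Continuous m) (hn : Continuous n) (bm : ∀ t, ‖m t‖ ≤ C)
    (bn : ∀ t, ‖n t‖ ≤ C) :
    Integrable (fun s => (∫ t, rl (A s) t * m t) * ∫ t, rl (B s) t * n t) σm ∧
    ∫ s, (∫ t, rl (A s) t * m t) * (∫ t, rl (B s) t * n t) ∂σm =
      1 / 4 * ∫ t, m t * ∫ s, (rl r t - rl r s) * KC (t - s) * n s := by
  have h := wt_prod (Af := fun s => rl (A s)) (Bf := fun s => rl (B s)) d.H1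
    (E := fun t s => 1 / 4 * (rl r t - rl r s) * KC (t - s)) d.kp hm hn bm bn
  refine ⟨h.1, ?_⟩
  rw [h.2, ← integral_const_mul]
  refine integral_congr_ae (Eventually.of_forall fun t => ?_)
  simp only
  have e : ∫ s, 1 / 4 * (rl r t - rl r s) * KC (t - s) * n s =
      1 / 4 * ∫ s, (rl r t - rl r s) * KC (t - s) * n s := by
    rw [← integral_const_mul]
    refine integral_congr_ae (Eventually.of_forall fun s => ?_)
    simp only
    ring
  rw [e]
  ring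

lemma mass_eq (g : ℂ → ℂ) : PBE.mass g = ∫ t, rl g t * (fun _ => (1 : ℂ)) t := by
  unfold PBE.mass rl
  simp

lemma mV_eq (g : ℂ → ℂ) : mV mf g = ∫ t, rl g t * mf t := rfl

lemma one_le' (t : ℝ) : ‖(fun _ : ℝ => (1 : ℂ)) t‖ ≤ b := by
  simpa using d.hb

lemma i2 : Integrable (fun s => PBE.mass (A s) * PBE.mass (B s)) σm := by
  have := (d.wt (m := fun _ => 1) (n := fun _ => 1) continuous_const continuous_const d.one_le' d.one_le').1
  simpa only [d.mass_eq] using this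

lemma v2 : ∫ s, PBE.mass (A s) * PBE.mass (B s) ∂σm = -((rp - rm) / 8) * PBE.mass h0 ^ 2 := by
  have h := (d.wt (m := fun _ => 1) (n := fun _ => 1) continuous_const continuous_const d.one_le' d.one_le').2
  have e : ∫ s, PBE.mass (A s) * PBE.mass (B s) ∂σm =
      ∫ s, (∫ t, rl (A s) t * (fun _ => (1 : ℂ)) t) * (∫ t, rl (B s) t * (fun _ => (1 : ℂ)) t) ∂σm := by
    simp only [d.mass_eq]
  rw [e, h]
  have h2 := mv_one d.lr d.hb
  simp only [one_mul, mul_one]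
  rw [h2, d.mass_h0, MeanDat.l_sq]
  ring

lemma ib1 : Integrable (fun s => PBE.mass (A s) * mV mf (B s)) σm := by
  have := (d.wt (m := fun _ => 1) (n := mf) continuous_const d.hm.lim.cont d.one_le' d.hm.lim.b).1
  simpa only [d.mass_eq, d.mV_eq] using this

lemma ib2 : Integrable (fun s => mV mf (A s) * PBE.mass (B s)) σm := by
  have := (d.wt (m := mf) (n := fun _ => 1) d.hm.lim.cont continuous_const d.hm.lim.b d.one_le').1
  simpa only [d.mass_eq, d.mV_eq] using this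

lemma im : Integrable (fun s => mV mf (A s) * mV mf (B s)) σm := by
  have := (d.wt (m := mf) (n := mf) d.hm.lim.cont d.hm.lim.cont d.hm.lim.b d.hm.lim.b).1
  simpa only [d.mV_eq] using this

lemma i1 : Integrable (fun s => PBE.mass (A s) * mV mf (B s) + PBE.mass (B s) * mV mf (A s)) σm := by
  refine d.ib1.add ?_
  refine d.ib2.congr (Eventually.of_forall fun s => ?_)
  simp only
  ring

/-- the two orders agree -/
lemma sym_lin : ∫ t, mf t * ∫ s, (rl r t - rl r s) * KC (t - s) =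
    ∫ t, ∫ s, (rl r t - rl r s) * KC (t - s) * mf s := by
  have hI := mv_double d.lr d.hm.lim (Lim.const (1 : ℂ) (B := b) (by simpa using d.hb))
  simp only [one_mul] at hI
  rw [integral_integral_swap hI]
  refine integral_congr_ae (Eventually.of_forall fun t => ?_)
  simp only
  rw [← integral_const_mul]
  refine integral_congr_ae (Eventually.of_forall fun s => ?_)
  simp only
  rw [show s - t = -(t - s) by ring, KC_neg]
  ring

lemma v1 : (∫ s, (PBE.mass (A s) * mV mf (B s) + PBE.mass (B s) * mV mf (A s)) ∂σm) + PBE.mass q =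
    (rp + rm) / 2 * PBE.mass h0 := by
  have e1 : ∫ s, (PBE.mass (A s) * mV mf (B s) + PBE.mass (B s) * mV mf (A s)) ∂σm =
      (∫ s, PBE.mass (A s) * mV mf (B s) ∂σm) + ∫ s, mV mf (A s) * PBE.mass (B s) ∂σm := by
    rw [← integral_add d.ib1 d.ib2]
    refine integral_congr_ae (Eventually.of_forall fun s => ?_)
    simp only
    ring
  have w1 := (d.wt (m := fun _ => 1) (n := mf) continuous_const d.hm.lim.cont d.one_le' d.hm.lim.b).2
  have w2 := (d.wt (m := mf) (n := fun _ => 1) d.hm.lim.cont continuous_const d.hm.lim.b d.one_le').2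
  have f1 : ∫ s, PBE.mass (A s) * mV mf (B s) ∂σm = 1 / 4 * ∫ t, ∫ s, (rl r t - rl r s) * KC (t - s) * mf s := by
    have : ∫ s, PBE.mass (A s) * mV mf (B s) ∂σm =
        ∫ s, (∫ t, rl (A s) t * (fun _ => (1 : ℂ)) t) * (∫ t, rl (B s) t * mf t) ∂σm := by
      simp only [d.mass_eq, d.mV_eq]
    rw [this, w1]
    simp only [one_mul]
  have f2 : ∫ s, mV mf (A s) * PBE.mass (B s) ∂σm = 1 / 4 * ∫ t, ∫ s, (rl r t - rl r s) * KC (t - s) * mf s := by
    have : ∫ s, mV mf (A s) * PBE.mass (B s) ∂σm =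
        ∫ s, (∫ t, rl (A s) t * mf t) * (∫ t, rl (B s) t * (fun _ => (1 : ℂ)) t) ∂σm := by
      simp only [d.mass_eq, d.mV_eq]
    rw [this, w2]
    simp only [mul_one]
    rw [d.sym_lin]
  have h3 := (d.hm.value_lin d.lr d.hb).2
  have e3 : PBE.mass q = ∫ t, rl r t * rl h0 t := by
    unfold PBE.mass
    refine integral_congr_ae (Eventually.of_forall fun t => ?_)
    simp only
    rw [d.eq]
    rfl
  rw [e1, f1, f2, e3, d.mass_h0]
  linear_combination h3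

/-! #### plus channel, trace -/

lemma iC : Integrable (fun s => CV (A s) (B s)) σm := by
  have h := (FU_joint symU_Up d.hR d.mA d.mB d.ha d.hθ d.h1 d.h2).integral_prod_left
  have h2 := (h.const_mul (1 / (2 * Real.pi : ℝ) : ℂ)).const_mul 2
  refine h2.congr (Eventually.of_forall fun s => ?_)
  rfl

lemma vC : ∫ s, CV (A s) (B s) ∂σm = 7 / 12 * (rp - rm) := by
  have h := trace_plus d.lr4 (A := fun s => rl (A s)) (Bf := fun s => rl (B s)) d.H1 (by
    filter_upwards [d.kp] with p hp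
    refine Eq.trans hp ?_
    simp only [rl]
    ring) (FU_joint symU_Up d.hR d.mA d.mB d.ha d.hθ d.h1 d.h2)
  have e : ∫ s, CV (A s) (B s) ∂σm = 2 * ∫ s, Cp (rl (A s)) (rl (B s)) ∂σm := by
    rw [← integral_const_mul]
    rfl
  rw [e, h]
  ring

/-! #### plus channel, mean -/

lemma vm : (∫ s, mV mf (A s) * mV mf (B s) ∂σm) + mV mf q = -(rp - rm) / 2 := by
  have w := (d.wt (m := mf) (n := mf) d.hm.lim.cont d.hm.lim.cont d.hm.lim.b d.hm.lim.b).2
  have h3 := (d.hm.value d.lr).2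
  have e1 : ∫ s, mV mf (A s) * mV mf (B s) ∂σm =
      1 / 4 * ∫ t, mf t * ∫ s, (rl r t - rl r s) * KC (t - s) * mf s := by
    rw [← w]
    simp only [d.mV_eq]
  have e2 : mV mf q = ∫ t, mf t * rl r t * rl h0 t := by
    unfold mV
    refine integral_congr_ae (Eventually.of_forall fun t => ?_)
    simp only
    rw [d.eq]
    simp only [rl]
    ring
  rw [e1, e2]
  exact h3

lemma v00 : CV h0 h0 + mV mf g2 = 0 := by
  have i0 := TC_int d.th0 d.ha d.y1 d.y2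
  have ig := TC_int d.tg2 d.ha d.y1 d.y2
  have h := form_of_conv (h := h0) (b := mf') (g := rl h0) (c := 2) d.th0 d.ha d.hθ d.h1 d.h2
    d.hm.lim.int' d.hm.eq'
  have lim0 : ∀ F : Filter ℝ, Tendsto (fun t => |t|) F atTop → Tendsto (rl h0) F (𝓝 0) := by
    intro F hF
    refine squeeze_zero_norm (fun t => TC_bd d.th0 d.y1 d.y2 t) ?_
    have h1 : Tendsto (fun t : ℝ => a * |t|) F atTop := hF.const_mul_atTop d.ha
    have h2 := (Real.tendsto_exp_atBot.comp (tendsto_neg_atTop_atBot.comp h1)).const_mul M0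
    simpa using h2
  have j1 : Integrable fun t => rl g2 t * mf t :=
    ig.mul_bdd (c := b) d.hm.lim.cont.aestronglyMeasurable (Eventually.of_forall d.hm.lim.b)
  have j2 : Integrable fun t => rl h0 t * mf' t :=
    i0.mul_bdd (c := b) d.hm.lim.c.aestronglyMeasurable (Eventually.of_forall d.hm.lim.b'')
  have hd : ∀ t, HasDerivAt (fun t => rl h0 t * mf t) (rl g2 t * mf t + rl h0 t * mf' t) t := fun t =>
    (d.dg2 t).mul (d.hm.lim.d t)
  have hp := integral_of_hasDerivAt_of_tendsto hd (j1.add j2)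
    ((lim0 _ tendsto_abs_atBot_atTop).mul d.hm.lim.bot) ((lim0 _ tendsto_abs_atTop_atTop).mul d.hm.lim.top)
  rw [integral_add j1 j2, h] at hp
  simp only [zero_mul, sub_self] at hp
  unfold CV
  rw [d.mV_eq]
  linear_combination hp

/-! #### minus channel -/

lemma iC' : Integrable (fun s => CmV (A' s) (B' s)) σm' := by
  have h := (FU_joint symU_Um d.hR' d.mA' d.mB' d.ha d.hθ d.h1 d.h2).integral_prod_left
  have h2 := (h.const_mul (1 / (2 * Real.pi : ℝ) : ℂ)).const_mul 2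
  refine h2.congr (Eventually.of_forall fun s => ?_)
  rfl

/-- the regular part of the kernel -/
def aM (r u : ℂ → ℂ) (sg : ℝ → ℂ) (rp rm : ℂ) (t s : ℝ) : ℂ :=
  1 / 4 * (r t - r s) * KmC (t - s) - u t * sg s - sg t * u s - (rp - rm) / 2 * (1 - sg t * sg s)

lemma mdat : MDat (fun t => 1 / 4 * rl r t) (fun t => 1 / 4 * rd t) (rl u) ud sg sg'
    (aM r u sg rp rm) b (1 / 4 * rp) (1 / 4 * rm) where
  lr := d.lr4
  lu := d.lu
  ls := d.ls
  int := by
    have h := d.H1'.integral_prod_right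
    refine h.congr ?_
    filter_upwards [d.km] with p hp
    exact hp
  dec t s _ := by
    simp only [aM, rl]
    ring

lemma ud_eq (t : ℝ) : ud t = deriv u (t : ℂ) :=
  (d.lu.d t).unique (TC_deriv d.tu d.y1 d.y2 t)

lemma CmD_symm (f' g' : ℝ → ℂ) : CmD f' g' = CmD g' f' := by
  unfold CmD
  congr 1
  rw [← integral_neg_eq_self]
  refine integral_congr_ae (Eventually.of_forall fun q => ?_)
  simp only
  rw [Um_even, neg_neg]
  push_cast
  rw [neg_sq, mul_comm]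

lemma vM : (∫ s, CmV (A' s) (B' s) ∂σm') + 2 * CsV sg' u - (rp - rm) / 2 * CssV sg' =
    -(1 / 12) * (rp - rm) := by
  have b1 : ∀ q, ‖ft ud q‖ ≤ ∫ t, ‖ud t‖ := ft_bdd
  have b2 : ∀ q, ‖ft sg' q‖ ≤ ((∫ t, ‖sg' t‖) + ∫ t, ‖sg'' t‖) / (1 + |q|) :=
    ft_decay d.ls'.d d.ls.int' d.ls'.int'
  have b3 : ∀ q, ‖ft sg' q‖ ≤ ∫ t, ‖sg' t‖ := ft_bdd
  have i1 := CmD_int d.lu.int' d.ls.int' b1 b2
  have i3 := CmD_int d.ls.int' d.ls.int' b3 b2
  have i2 : Integrable fun q : ℝ => ft sg' q * ft ud (-q) / ((q : ℂ) ^ 2 * (Um q : ℂ)) := by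
    refine i1.comp_neg.congr (Eventually.of_forall fun q => ?_)
    simp only
    rw [Um_even, neg_neg]
    push_cast
    rw [neg_sq, mul_comm (ft ud (-q))]
  have h := trace_minus d.mdat (A := fun s => rl (A' s)) (Bf := fun s => rl (B' s)) d.H1' d.km
    (FU_joint symU_Um d.hR' d.mA' d.mB' d.ha d.hθ d.h1 d.h2) i1 i2 i3
  have e : ∫ s, CmV (A' s) (B' s) ∂σm' = 2 * ∫ s, Cm (rl (A' s)) (rl (B' s)) ∂σm' := by
    rw [← integral_const_mul]
    rfl
  have e2 : CsV sg' u = 2 * CmD ud sg' := by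
    unfold CsV
    congr 2
    funext t
    rw [d.ud_eq]
  have e3 : CmD sg' ud = CmD ud sg' := d.CmD_symm _ _
  rw [e, e2]
  rw [e3] at h
  unfold CssV
  linear_combination 2 * h

/-- **the constant term vanishes** -/
theorem v0 : (∫ s, CV (A s) (B s) ∂σm) + (∫ s, mV mf (A s) * mV mf (B s) ∂σm) + mV mf q -
    -((rp - rm) / 8) * (CV h0 h0 + mV mf g2) +
    ((∫ s, CmV (A' s) (B' s) ∂σm') + 2 * CsV sg' u - (rp - rm) / 2 * CssV sg') = 0 := by
  have h1 := d.vC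
  have h2 := d.vm
  have h3 := d.v00
  have h4 := d.vM
  linear_combination h1 + h2 + (rp - rm) / 8 * h3 + h4

end

/-- **`(E')` with the values inserted** -/
theorem E_prime (d : VDat y₁ y₂ a θ σm σm' A B al be A' B' al' be' r u h0 g2 q rd ud sg sg' sg'' mf mf' D
      b M0 M2 Mq Mu rp rm mp mm)
    {f fη fτ fττ : ℂ} {G1 : (ℂ → ℂ) → ℂ} {G2 H2 : (ℂ → ℂ) → (ℂ → ℂ) → ℂ}
    {Hs : (ℂ → ℂ) → ℂ} {Hss : ℂ} {δ δ0 : ℝ} (hδ : 0 ≤ δ)
    (hL : PBE.Lev2 y₁ y₂ a f G1 G2 (mV mf) CV δ)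
    (hL' : PBE.Lev2m y₁ y₂ a f H2 Hs Hss CmV (CsV sg') (CssV sg') δ)
    (hG1 : PBE.Lin1 y₁ y₂ a G1) (hG2 : PBE.Lin2 y₁ y₂ a G2)
    (iG : Integrable (fun s => G2 (A s) (B s)) σm)
    (iH : Integrable (fun s => H2 (A' s) (B' s)) σm')
    (hI : ‖fη - ((∫ s, G2 (A s) (B s) ∂σm) +
      ((∫ s, H2 (A' s) (B' s) ∂σm') + 2 * Hs u - (rp - rm) / 2 * Hss) + G1 q)‖ ≤ δ0)
    (hτ : ‖G1 h0 + fτ‖ ≤ δ) (hττ : ‖G2 h0 h0 + G1 g2 - fττ‖ ≤ δ) :
    ‖fη - (-((rp - rm) / 8) * fττ - (rp + rm) / 2 * fτ)‖ ≤ δ0 +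
      ((3 + b * (2 / a)) * (1 + 2 * M0 / (a * ‖PBE.mass h0‖)) ^ 2 * (∫ s, al s * be s ∂σm) +
        ((∫ s, al' s * be' s ∂σm') + 2 * Mu + ‖rp - rm‖ / 2) +
        Mq * (1 + 2 * M0 / (a * ‖PBE.mass h0‖)) + ‖(rp + rm) / 2‖ +
          ‖-((rp - rm) / 8)‖ * (1 + M2)) * δ := by
  have hK0 : 0 ≤ b * (2 / a) := mul_nonneg d.b0 (by have := d.ha; positivity)
  exact PBE.E_prime d.ha d.y1 d.y2 hδ hK0 d.hR d.hR' hL hL' hG1 hG2 d.m_lin1 d.c_lin2
    d.m_le d.m_h0 d.th0 d.mass_h0_ne d.tg2 d.mass_g2 d.tq d.tu iG d.i2 d.i1 d.iC d.im iH d.iC' hI hτ hττ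
    d.v2 d.v1 d.v0

end VDat

end

end Pool.Agent.PB
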