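import Pool.Agent.PB.VandX

/-!
# Plan B: functions almost periodic with period `2a`, the two applications (helper12)

`Hyp a δ C N f`: `f` is differentiable and `≤ N^C` on `|Re z| ≤ a + δ`, `|Im z| ≤ (2δ/π) log N`, and
`f (z + a) - f (z - a)` has a zero of order `≥ N` at `0`.  (Application: `a = 3l`, `e^{iπz/a} = e^{(8/3)iz}`, `δ ≤ l`:
`(2δ/π) log N = (δ/l) (1/4) log N`.)

* `expsum` (VandX): `f` is an exponential sum with `2K+1` terms (`K` does not depend on `N`, `f`) up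
  to `N^{-e}`, near `Re z = 0` and near `Re z = a`, `|Im z| ≤ (1-ε) (2δ/π) log N + 1`;
* **`row_step`**: if `|f (iη) - f 0| ≤ E` on `0 ≤ η ≤ h` then `|f z - f 0| ≤ A (E + N^{-e})` near `0`
  and near `a`;
* **`zero_mode`**: if `|f (± iτ)| ≤ S` for `τ₁ ≤ τ ≤ τ₁ + 1` then
  `|f z - f 0| ≤ A (S e^{-πτ₁/a} + N^{-e})` for `|Re z| ≤ δ/4`, `|Im z| ≤ 1`; `zero_mode2`:
  derivatives at `0`.
-/

set_option autoImplicit false

noncomputable section

open Complex MeasureTheory Set Filter Topology Finset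

namespace PBV

/-- an exponential sum with the constant subtracted -/
theorem es_sub (a : ℝ) (K : ℕ) (c : ℤ → ℂ) (w z : ℂ) :
    es a K (fun k => c k - if k = 0 then w else 0) z = es a K c z - w := by
  unfold es
  simp only [sub_mul, Finset.sum_sub_distrib]
  congr 1
  rw [Finset.sum_eq_single K]
  · simp [ex_zero]
  · intro j _ hj
    rw [if_neg (by omega), zero_mul]
  · intro h
    exact absurd (Finset.mem_range.2 (by omega)) h

theorem es_norm_le (a : ℝ) (ha : 0 < a) (K : ℕ) (c : ℤ → ℂ) (z : ℂ) (hz : |z.im| ≤ 1) {S : ℝ}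
    (hc : ∀ k : ℤ, |k| ≤ K → ‖c k‖ ≤ S) :
    ‖es a K c z‖ ≤ (2 * K + 1) * (S * Real.exp (Real.pi * K / a)) := by
  have hpi := Real.pi_pos
  unfold es
  refine (norm_sum_le _ _).trans ?_
  calc ∑ j ∈ range (2 * K + 1), ‖c ((j : ℤ) - K) * ex a ((j : ℤ) - K) z‖
      ≤ ∑ j ∈ range (2 * K + 1), S * Real.exp (Real.pi * K / a) := by
        apply Finset.sum_le_sum
        intro j hj
        rw [Finset.mem_range] at hj
        have hk : |(j : ℤ) - K| ≤ K := by rw [abs_le]; constructor <;> omega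
        have h1 := hc _ hk
        rw [norm_mul, ex_norm]
        have h2 : -(Real.pi * (((j : ℤ) - K : ℤ) : ℝ) * z.im / a) ≤ Real.pi * K / a := by
          rw [← neg_div]
          apply div_le_div_of_nonneg_right _ ha.le
          have h3 : |(((j : ℤ) - K : ℤ) : ℝ)| ≤ K := by exact_mod_cast hk
          have h4 : |(((j : ℤ) - K : ℤ) : ℝ) * z.im| ≤ K := by
            rw [abs_mul]
            have := abs_nonneg z.im
            have h5 : (0 : ℝ) ≤ K := K.cast_nonneg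
            nlinarith [abs_nonneg (((j : ℤ) - K : ℤ) : ℝ)]
          have h5 := (abs_le.1 h4).1
          rw [mul_assoc]
          nlinarith
        have h3 := Real.exp_le_exp.2 h2
        have h4 := norm_nonneg (c ((j : ℤ) - K))
        have h5 : 0 ≤ S := h4.trans h1
        gcongr
    _ = _ := by
      rw [Finset.sum_const, Finset.card_range, nsmul_eq_mul]
      push_cast
      ring

/-- **small on a vertical segment implies small near `0` and near `a`** -/
theorem row_step {a δ : ℝ} (C e : ℝ) {h : ℝ} (hδ : 0 < δ) (hδa : δ ≤ a) (hh : 0 < h) :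
    ∃ A : ℝ, 0 ≤ A ∧ ∃ N0 : ℕ, ∀ N ≥ N0, ∀ f : ℂ → ℂ, Hyp a δ C N f → ∀ E : ℝ,
      (∀ η ∈ Icc (0 : ℝ) h, ‖f (η * I) - f 0‖ ≤ E) →
      ∀ z : ℂ, Zr a δ z → |z.im| ≤ 1 → ‖f z - f 0‖ ≤ A * (E + (N : ℝ) ^ (-e)) := by
  have ha : 0 < a := lt_of_lt_of_le hδ hδa
  have hpi := Real.pi_pos
  obtain ⟨K, N0, H⟩ := expsum C e hδ hδa (ε := 1 / 2) (by norm_num) (by norm_num)
  have hh' : 0 < min h 1 := lt_min hh one_pos
  obtain ⟨A, hA0, hA⟩ := vand ha hh' K
  refine ⟨1 + (2 * K + 1) * (A * Real.exp (Real.pi * K / a)), by positivity, max N0 1,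
    fun N hN f hf E hE => ?_⟩
  obtain ⟨c, hc⟩ := H N ((le_max_left _ _).trans hN) f hf
  have hN1 : 1 ≤ N := (le_max_right _ _).trans hN
  have hL : 0 ≤ Real.log N := Real.log_nonneg (by exact_mod_cast hN1)
  have hY : 0 ≤ (1 - 1 / 2) * (2 * δ / Real.pi * Real.log N) := by positivity
  have hE0 : 0 ≤ E := (norm_nonneg _).trans (hE 0 ⟨le_rfl, hh.le⟩)
  have hp : 0 ≤ (N : ℝ) ^ (-e) := by positivity
  obtain ⟨c0, hc0⟩ : ∃ c0 : ℤ → ℂ, c0 = fun k => c k - if k = 0 then f 0 else 0 := ⟨_, rfl⟩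
  have hes : ∀ w, es a K c0 w = es a K c w - f 0 := by
    intro w
    rw [hc0]
    exact es_sub a K c (f 0) w
  have h1 : ∀ η ∈ Icc (0 : ℝ) (min h 1), ‖∑ j ∈ range (2 * K + 1),
      c0 ((j : ℤ) - K) * ex a ((j : ℤ) - K) (η * I)‖ ≤ E + (N : ℝ) ^ (-e) := by
    intro η hη
    have h2 := hes (η * I)
    unfold es at h2
    rw [h2]
    have h3 := hc (η * I) (Or.inl (by simp; positivity)) (by
      simp only [mul_im, ofReal_re, I_im, mul_one, ofReal_im, I_re, mul_zero, add_zero]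
      rw [abs_of_nonneg hη.1]
      have := hη.2.trans (min_le_right h 1)
      linarith)
    have h4 := hE η ⟨hη.1, hη.2.trans (min_le_left _ _)⟩
    unfold es at h3
    calc _ = ‖(f (η * I) - f 0) - (f (η * I) - ∑ j ∈ range (2 * K + 1),
        c ((j : ℤ) - K) * ex a ((j : ℤ) - K) (η * I))‖ := by congr 1; ring
      _ ≤ _ := (norm_sub_le _ _).trans (add_le_add h4 h3)
  have h2 := hA c0 _ h1
  intro z hz him
  have h3 := hc z hz (by linarith)
  have h4 := es_norm_le a ha K c0 z him h2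
  rw [hes] at h4
  calc ‖f z - f 0‖ = ‖(f z - es a K c z) + (es a K c z - f 0)‖ := by congr 1; ring
    _ ≤ (N : ℝ) ^ (-e) + (2 * K + 1) * (A * (E + (N : ℝ) ^ (-e)) * Real.exp (Real.pi * K / a)) :=
      (norm_add_le _ _).trans (add_le_add h3 h4)
    _ ≤ (E + (N : ℝ) ^ (-e)) + (2 * K + 1) * (A * (E + (N : ℝ) ^ (-e)) *
        Real.exp (Real.pi * K / a)) := by
      gcongr
      linarith
    _ = _ := by ring

/-- **zero mode**: a bound at the heights `± τ₁` gives flatness at the centre -/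
theorem zero_mode {a δ : ℝ} (C e : ℝ) {ε : ℝ} (hδ : 0 < δ) (hδa : δ ≤ a) (hε : 0 < ε)
    (hε1 : ε < 1) :
    ∃ A : ℝ, 0 ≤ A ∧ ∃ N0 : ℕ, ∀ N ≥ N0, ∀ f : ℂ → ℂ, Hyp a δ C N f → ∀ τ S : ℝ, 0 ≤ τ →
      τ ≤ (1 - ε) * (2 * δ / Real.pi * Real.log N) →
      (∀ t ∈ Icc τ (τ + 1), ‖f (t * I)‖ ≤ S ∧ ‖f (-(t * I))‖ ≤ S) →
      ∀ z : ℂ, |z.re| ≤ δ / 4 → |z.im| ≤ 1 →
        ‖f z - f 0‖ ≤ A * (S * Real.exp (-(Real.pi * τ / a)) + (N : ℝ) ^ (-e)) := by
  have ha : 0 < a := lt_of_lt_of_le hδ hδa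
  have hpi := Real.pi_pos
  obtain ⟨K, N0, H⟩ := expsum C e hδ hδa hε hε1
  obtain ⟨A, hA0, hA⟩ := vand ha one_pos K
  refine ⟨2 + 2 * ((2 * K + 1) * (A * Real.exp (Real.pi * K / a))), by positivity, max N0 1,
    fun N hN f hf τ S hτ hτ' hS => ?_⟩
  obtain ⟨c, hc⟩ := H N ((le_max_left _ _).trans hN) f hf
  have hN1 : 1 ≤ N := (le_max_right _ _).trans hN
  have hL : 0 ≤ Real.log N := Real.log_nonneg (by exact_mod_cast hN1)
  have h1e : 0 < 1 - ε := by linarith
  have hY : 0 ≤ (1 - ε) * (2 * δ / Real.pi * Real.log N) := by positivity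
  have hS0 : 0 ≤ S := (norm_nonneg _).trans (hS τ ⟨le_rfl, by linarith⟩).1
  have hp : 0 ≤ (N : ℝ) ^ (-e) := by positivity
  have him : ∀ t : ℝ, ((t : ℂ) * I).im = t := by intro t; simp
  have hre : ∀ t : ℝ, ((t : ℂ) * I).re = 0 := by intro t; simp
  -- the upper nodes
  have hup : ∀ k : ℤ, |k| ≤ K → ‖c k * ex a k (τ * I)‖ ≤ A * (S + (N : ℝ) ^ (-e)) := by
    apply hA
    intro η hη
    have h2 : ∑ j ∈ range (2 * K + 1), c ((j : ℤ) - K) * ex a ((j : ℤ) - K) (τ * I) *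
        ex a ((j : ℤ) - K) (η * I) = es a K c (((τ + η : ℝ) : ℂ) * I) := by
      unfold es
      apply Finset.sum_congr rfl
      intro j _
      rw [mul_assoc, ← ex_add]
      congr 2
      push_cast
      ring
    rw [h2]
    have h3 := hc (((τ + η : ℝ) : ℂ) * I) (Or.inl (by rw [hre, abs_zero]; positivity)) (by
      rw [him, abs_of_nonneg (by linarith [hη.1])]
      linarith [hη.2])
    have h4 := (hS (τ + η) ⟨by linarith [hη.1], by linarith [hη.2]⟩).1
    calc _ = ‖f (((τ + η : ℝ) : ℂ) * I) - (f (((τ + η : ℝ) : ℂ) * I) -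
        es a K c (((τ + η : ℝ) : ℂ) * I))‖ := by congr 1; ring
      _ ≤ _ := (norm_sub_le _ _).trans (add_le_add h4 h3)
  -- the lower nodes
  have hlo : ∀ k : ℤ, |k| ≤ K → ‖c (-k) * ex a k (τ * I)‖ ≤ A * (S + (N : ℝ) ^ (-e)) := by
    apply hA (fun k => c (-k) * ex a k (τ * I))
    intro η hη
    have h2 : ∑ j ∈ range (2 * K + 1), c (-((j : ℤ) - K)) * ex a ((j : ℤ) - K) (τ * I) *
        ex a ((j : ℤ) - K) (η * I) = es a K c (-(((τ + η : ℝ) : ℂ) * I)) := by
      unfold es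
      rw [← Finset.sum_range_reflect]
      apply Finset.sum_congr rfl
      intro j hj
      rw [Finset.mem_range] at hj
      have e1 : ((2 * K + 1 - 1 - j : ℕ) : ℤ) - K = -((j : ℤ) - K) := by omega
      rw [e1, mul_assoc, ← ex_add, neg_neg]
      congr 1
      unfold ex
      congr 1
      push_cast
      ring
    rw [h2]
    have h3 := hc (-(((τ + η : ℝ) : ℂ) * I)) (Or.inl (by
      rw [neg_re, hre, neg_zero, abs_zero]; positivity)) (by
      rw [neg_im, him, abs_neg, abs_of_nonneg (by linarith [hη.1])]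
      linarith [hη.2])
    have h4 := (hS (τ + η) ⟨by linarith [hη.1], by linarith [hη.2]⟩).2
    calc _ = ‖f (-(((τ + η : ℝ) : ℂ) * I)) - (f (-(((τ + η : ℝ) : ℂ) * I)) -
        es a K c (-(((τ + η : ℝ) : ℂ) * I)))‖ := by congr 1; ring
      _ ≤ _ := (norm_sub_le _ _).trans (add_le_add h4 h3)
  -- all coefficients except the constant one
  set ρ := Real.exp (-(Real.pi * τ / a)) with hρ
  have hρ0 : 0 < ρ := Real.exp_pos _
  have hρ1 : ρ ≤ 1 := by
    rw [hρ]
    apply Real.exp_le_one_iff.2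
    have : 0 ≤ Real.pi * τ / a := by positivity
    linarith
  have hck : ∀ k : ℤ, |k| ≤ K → k ≠ 0 → ‖c k‖ ≤ A * (S + (N : ℝ) ^ (-e)) * ρ := by
    intro k hk hk0
    have key : ∀ k : ℤ, k ≤ -1 → ∀ x : ℂ, ‖x * ex a k (τ * I)‖ ≤ A * (S + (N : ℝ) ^ (-e)) →
        ‖x‖ ≤ A * (S + (N : ℝ) ^ (-e)) * ρ := by
      intro k hk x hx
      rw [norm_mul, ex_norm, him] at hx
      have h2 : ρ⁻¹ ≤ Real.exp (-(Real.pi * k * τ / a)) := by
        rw [hρ, ← Real.exp_neg, neg_neg]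
        apply Real.exp_le_exp.2
        rw [← neg_div]
        apply div_le_div_of_nonneg_right _ ha.le
        have h3 : (k : ℝ) ≤ -1 := by exact_mod_cast hk
        have h4 : 0 ≤ Real.pi * τ := by positivity
        nlinarith
      have h3 : ‖x‖ * ρ⁻¹ ≤ A * (S + (N : ℝ) ^ (-e)) :=
        (mul_le_mul_of_nonneg_left h2 (norm_nonneg x)).trans hx
      rwa [← div_eq_mul_inv, div_le_iff₀ hρ0] at h3
    rcases lt_or_gt_of_ne hk0 with h | h
    · exact key k (by omega) _ (hup k hk)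
    · have h2 := hlo (-k) (by rwa [abs_neg])
      rw [neg_neg] at h2
      exact key (-k) (by omega) _ h2
  -- conclusion
  intro z hz hzim
  have h3 := hc z (Or.inl hz) (by linarith)
  have h30 := hc 0 (Or.inl (by simp; positivity)) (by simp; linarith)
  obtain ⟨c0, hc0⟩ : ∃ c0 : ℤ → ℂ, c0 = fun k => if k = 0 then 0 else c k := ⟨_, rfl⟩
  have hc0' : ∀ k : ℤ, |k| ≤ K → ‖c0 k‖ ≤ A * (S + (N : ℝ) ^ (-e)) * ρ := by
    intro k hk
    rw [hc0]
    by_cases h : k = 0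
    · simp only [h, if_true, norm_zero]
      positivity
    · simp only [h, if_false]
      exact hck k hk h
  have hes : ∀ w, es a K c w = es a K c0 w + c 0 := by
    intro w
    have h4 := es_sub a K c (c 0) w
    have h5 : (fun k => c k - if k = 0 then c 0 else 0) = c0 := by
      ext k
      rw [hc0]
      by_cases h : k = 0
      · simp [h]
      · simp [h]
    rw [h5] at h4
    rw [h4]
    ring
  have h4 := es_norm_le a ha K c0 z hzim hc0'
  have h40 := es_norm_le a ha K c0 0 (by simp) hc0'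
  have h5 : f z - f 0 = (f z - es a K c z) - (f 0 - es a K c 0) + (es a K c0 z - es a K c0 0) := by
    rw [hes z, hes 0]
    ring
  rw [h5]
  have h6 : ‖(f z - es a K c z) - (f 0 - es a K c 0) + (es a K c0 z - es a K c0 0)‖ ≤
      ((N : ℝ) ^ (-e) + (N : ℝ) ^ (-e)) +
      ((2 * K + 1) * (A * (S + (N : ℝ) ^ (-e)) * ρ * Real.exp (Real.pi * K / a)) +
      (2 * K + 1) * (A * (S + (N : ℝ) ^ (-e)) * ρ * Real.exp (Real.pi * K / a))) :=
    (norm_add_le _ _).trans (add_le_add ((norm_sub_le _ _).trans (add_le_add h3 h30))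
      ((norm_sub_le _ _).trans (add_le_add h4 h40)))
  refine h6.trans ?_
  have h7 : (S + (N : ℝ) ^ (-e)) * ρ ≤ S * ρ + (N : ℝ) ^ (-e) := by nlinarith
  have h8 : 0 ≤ (2 * (K : ℝ) + 1) * (A * Real.exp (Real.pi * K / a)) := by positivity
  have h9 := mul_le_mul_of_nonneg_left h7 h8
  have h10 : 0 ≤ S * ρ := by positivity
  nlinarith

/-- **zero mode, derivatives at the centre** -/
theorem zero_mode2 {a δ : ℝ} (C e : ℝ) {ε : ℝ} (hδ : 0 < δ) (hδa : δ ≤ a) (hε : 0 < ε)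
    (hε1 : ε < 1) (n : ℕ) (hn : 1 ≤ n) :
    ∃ A : ℝ, 0 ≤ A ∧ ∃ N0 : ℕ, ∀ N ≥ N0, ∀ f : ℂ → ℂ, Hyp a δ C N f → ∀ τ S : ℝ, 0 ≤ τ →
      τ ≤ (1 - ε) * (2 * δ / Real.pi * Real.log N) →
      (∀ t ∈ Icc τ (τ + 1), ‖f (t * I)‖ ≤ S ∧ ‖f (-(t * I))‖ ≤ S) →
        ‖iteratedDeriv n f 0‖ ≤ A * (S * Real.exp (-(Real.pi * τ / a)) + (N : ℝ) ^ (-e)) := by
  have ha : 0 < a := lt_of_lt_of_le hδ hδa
  have hpi := Real.pi_pos
  obtain ⟨A, hA, N0, H⟩ := zero_mode C e hδ hδa hε hε1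
  set r := min (δ / 4) 1 with hr
  have hr0 : 0 < r := lt_min (by positivity) one_pos
  have hlog : Tendsto (fun N : ℕ => Real.log N) atTop atTop :=
    Real.tendsto_log_atTop.comp tendsto_natCast_atTop_atTop
  obtain ⟨N1, hN1⟩ := Filter.eventually_atTop.1 (hlog.eventually_ge_atTop (Real.pi / (2 * δ)))
  refine ⟨n.factorial * A / r ^ n, by positivity, max N0 N1, fun N hN f hf τ S hτ hτ' hS => ?_⟩
  have h1 := H N ((le_max_left _ _).trans hN) f hf τ S hτ hτ' hS
  have hL := hN1 N ((le_max_right _ _).trans hN)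
  have hY : 1 ≤ 2 * δ / Real.pi * Real.log N := by
    rw [div_le_iff₀ (by positivity)] at hL
    rw [div_mul_eq_mul_div, le_div_iff₀ hpi]
    linarith
  have hd : ∀ z ∈ Metric.closedBall (0 : ℂ) r, DifferentiableAt ℂ f z := by
    intro z hz
    rw [mem_closedBall_zero_iff] at hz
    apply hf.d
    · have h2 := (abs_re_le_norm z).trans hz
      have h3 : r ≤ δ / 4 := min_le_left _ _
      linarith
    · have h2 := (abs_im_le_norm z).trans hz
      have h3 : r ≤ 1 := min_le_right _ _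
      linarith
  have hdc : DiffContOnCl ℂ (fun z => f z - f 0) (Metric.ball 0 r) := by
    apply DifferentiableOn.diffContOnCl
    intro z hz
    have h2 : z ∈ Metric.closedBall (0 : ℂ) r := Metric.closure_ball_subset_closedBall hz
    exact ((hd z h2).sub_const _).differentiableWithinAt
  have h2 := norm_iteratedDeriv_le_of_forall_mem_sphere_norm_le n hr0 hdc
    (C := A * (S * Real.exp (-(Real.pi * τ / a)) + (N : ℝ) ^ (-e))) (by
      intro z hz
      rw [mem_sphere_zero_iff_norm] at hz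
      apply h1
      · have h2 := abs_re_le_norm z
        have h3 : r ≤ δ / 4 := min_le_left _ _
        linarith
      · have h2 := abs_im_le_norm z
        have h3 : r ≤ 1 := min_le_right _ _
        linarith)
  have h3 : iteratedDeriv n (fun z => f z - f 0) 0 = iteratedDeriv n f 0 := by
    obtain ⟨m, rfl⟩ : ∃ m, n = m + 1 := ⟨n - 1, by omega⟩
    rw [iteratedDeriv_succ', iteratedDeriv_succ']
    congr 1
    ext z
    exact deriv_sub_const _
  rw [h3] at h2
  refine h2.trans (le_of_eq ?_)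
  ring

end PBV
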