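import Mathlib

/-!
# Plan B, almost periodic functions: the Cauchy formula with a periodic kernel

`f` analytic on the rectangle `α ≤ Re ≤ α + 2a`, `|Im| ≤ τ`.  `ker a w = (iπ/a)/(1 - e^{-iπw/a})` has
period `2a` and residue `1` at `0`.

* `ker_cauchy`: `2πi f(z) = ∫ bottom - ∫ top + i ∫ (right - left)`, the last with the difference
  `f(x + 2a) - f(x)` only.
-/

set_option autoImplicit false

noncomputable section

open Complex MeasureTheory Set Filter Topology intervalIntegral

namespace PBV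

/-- the denominator of the kernel -/
def kE (a : ℝ) (w : ℂ) : ℂ := 1 - exp (-(I * Real.pi * w / a))

/-- the periodic kernel with residue one at zero -/
def ker (a : ℝ) (w : ℂ) : ℂ := (I * Real.pi / a) / kE a w

theorem kE_diff (a : ℝ) : Differentiable ℂ (kE a) := by unfold kE; fun_prop

theorem kE_zero (a : ℝ) : kE a 0 = 0 := by simp [kE]

theorem kE_hasDeriv (a : ℝ) (w : ℂ) :
    HasDerivAt (kE a) (exp (-(I * Real.pi * w / a)) * (I * Real.pi / a)) w := by
  have h1 : HasDerivAt (fun w : ℂ => -(I * Real.pi * w / a)) (-(I * Real.pi / a)) w := by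
    have h2 : HasDerivAt (fun w : ℂ => (-(I * Real.pi / a)) * w) (-(I * Real.pi / a) * 1) w :=
      (hasDerivAt_id w).const_mul _
    rw [mul_one] at h2
    refine h2.congr_of_eventuallyEq (Eventually.of_forall fun x => ?_)
    simp only
    ring
  have h3 := (h1.cexp).const_sub 1
  have h4 : -(exp (-(I * Real.pi * w / a)) * -(I * Real.pi / a)) =
      exp (-(I * Real.pi * w / a)) * (I * Real.pi / a) := by ring
  rw [h4] at h3
  exact h3

theorem kE_period {a : ℝ} (ha : a ≠ 0) (w : ℂ) : kE a (w + 2 * a) = kE a w := by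
  unfold kE
  have ha' : (a : ℂ) ≠ 0 := by exact_mod_cast ha
  congr 1
  rw [show -(I * Real.pi * (w + 2 * a) / a) = -(I * Real.pi * w / a) - 2 * Real.pi * I by
    field_simp; ring]
  exact exp_periodic.sub_eq _

theorem ker_period {a : ℝ} (ha : a ≠ 0) (w : ℂ) : ker a (w + 2 * a) = ker a w := by
  unfold ker
  rw [kE_period ha]

theorem kE_ne {a : ℝ} (ha : 0 < a) {w : ℂ} (hw : |w.re| < 2 * a) (h0 : w ≠ 0) : kE a w ≠ 0 := by
  intro h
  have ha' : (a : ℂ) ≠ 0 := by exact_mod_cast ha.ne'
  have h1 : exp (-(I * Real.pi * w / a)) = 1 := by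
    unfold kE at h
    rw [sub_eq_zero] at h
    exact h.symm
  rw [exp_eq_one_iff] at h1
  obtain ⟨n, hn⟩ := h1
  have hpi : (Real.pi : ℂ) ≠ 0 := by exact_mod_cast Real.pi_ne_zero
  have h2 : w = -(2 * n * a) := by
    have h3 : I * Real.pi * w = I * Real.pi * (-(2 * n * a)) := by
      have := hn
      field_simp at this
      linear_combination -I * Real.pi * this
    exact mul_left_cancel₀ (mul_ne_zero I_ne_zero hpi) h3
  have h4 : w.re = -(2 * n * a) := by
    rw [h2]
    have : (-(2 * (n : ℂ) * (a : ℂ))) = ((-(2 * (n : ℝ) * a) : ℝ) : ℂ) := by push_cast; ring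
    rw [this, ofReal_re]
  rw [h4, abs_neg, abs_mul, abs_mul, abs_of_pos ha, abs_of_pos (by norm_num : (0 : ℝ) < 2)] at hw
  have h5 : |(n : ℝ)| < 1 := by nlinarith [abs_nonneg (n : ℝ)]
  have h6 : n = 0 := by
    have : |n| < 1 := by exact_mod_cast h5
    exact Int.abs_lt_one_iff.1 this
  rw [h6] at h2
  apply h0
  rw [h2]
  simp

/-- the entire function `kE a w / w` -/
def kS (a : ℝ) (w : ℂ) : ℂ := dslope (kE a) 0 w

theorem kS_diff (a : ℝ) : Differentiable ℂ (kS a) := by
  have h := (differentiableOn_dslope (f := kE a) (s := univ) (c := 0) univ_mem).2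
    (kE_diff a).differentiableOn
  exact fun x => (h x (mem_univ x)).differentiableAt univ_mem

theorem kS_mul (a : ℝ) (w : ℂ) : w * kS a w = kE a w := by
  have h := sub_smul_dslope (kE a) 0 w
  rw [kE_zero, sub_zero, sub_zero, smul_eq_mul] at h
  exact h

theorem kS_ne {a : ℝ} (ha : 0 < a) {w : ℂ} (hw : |w.re| < 2 * a) : kS a w ≠ 0 := by
  by_cases h0 : w = 0
  · rw [h0]
    unfold kS
    rw [dslope_same, (kE_hasDeriv a 0).deriv]
    have ha' : (a : ℂ) ≠ 0 := by exact_mod_cast ha.ne'
    have hpi : (Real.pi : ℂ) ≠ 0 := by exact_mod_cast Real.pi_ne_zero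
    simp [ha', hpi]
  · intro h
    apply kE_ne ha hw h0
    rw [← kS_mul, h, mul_zero]

theorem ker_eq {a : ℝ} {w : ℂ} (h0 : w ≠ 0) : w * ((I * Real.pi / a) / kS a w) = w * (w * ker a w) := by
  unfold ker
  rw [← kS_mul]
  by_cases h : kS a w = 0
  · simp [h]
  · field_simp

/-- the integrand of the Cauchy formula -/
def cG (a : ℝ) (f : ℂ → ℂ) (z ζ : ℂ) : ℂ := dslope f z ζ * ((I * Real.pi / a) / kS a (ζ - z))

theorem cG_eq {a : ℝ} (f : ℂ → ℂ) {z ζ : ℂ} (h : ζ ≠ z) :
    cG a f z ζ = (f ζ - f z) * ker a (ζ - z) := by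
  unfold cG
  have h1 := sub_smul_dslope f z ζ
  rw [smul_eq_mul] at h1
  have h2 : ζ - z ≠ 0 := sub_ne_zero.2 h
  have h3 := ker_eq (a := a) h2
  have h4 : I * Real.pi / a / kS a (ζ - z) = (ζ - z) * ker a (ζ - z) := mul_left_cancel₀ h2 h3
  rw [h4, ← h1]
  ring

variable {a α τ : ℝ}

/-- closed rectangle -/
def Rct (a α τ : ℝ) : Set ℂ := {ζ | α ≤ ζ.re ∧ ζ.re ≤ α + 2 * a ∧ |ζ.im| ≤ τ}

theorem cauchy0 (ha : 0 < a) (hτ : 0 < τ) {f : ℂ → ℂ}
    (hf : ∀ ζ ∈ Rct a α τ, DifferentiableAt ℂ f ζ) {z : ℂ} (h1 : α < z.re) (h2 : z.re < α + 2 * a)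
    (h3 : |z.im| < τ) :
    (∫ x in α..(α + 2 * a), (f (x - τ * I) - f z) * ker a (x - τ * I - z)) -
      (∫ x in α..(α + 2 * a), (f (x + τ * I) - f z) * ker a (x + τ * I - z)) +
      I * (∫ y in (-τ)..τ, (f (α + y * I + 2 * a) - f (α + y * I)) * ker a (α + y * I - z)) = 0 := by
  have hz : {ζ : ℂ | α < ζ.re ∧ ζ.re < α + 2 * a ∧ |ζ.im| < τ} ∈ 𝓝 z := by
    apply IsOpen.mem_nhds
    · refine (isOpen_lt continuous_const continuous_re).inter
        ((isOpen_lt continuous_re continuous_const).inter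
          (isOpen_lt (continuous_im.abs) continuous_const))
    · exact ⟨h1, h2, h3⟩
  have hR : uIcc α (α + 2 * a) ×ℂ uIcc (-τ) τ = Rct a α τ := by
    ext ζ
    rw [mem_reProdIm, uIcc_of_le (by linarith : α ≤ α + 2 * a), uIcc_of_le (by linarith : -τ ≤ τ)]
    simp only [mem_Icc, Rct, mem_ofPred_eq, abs_le]
    tauto
  have hRz : Rct a α τ ∈ 𝓝 z := by
    filter_upwards [hz] with ζ hζ
    exact ⟨hζ.1.le, hζ.2.1.le, hζ.2.2.le⟩
  have hd : DifferentiableOn ℂ (cG a f z) (Rct a α τ) := by
    unfold cG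
    apply DifferentiableOn.mul
    · rw [differentiableOn_dslope hRz]
      exact fun ζ hζ => (hf ζ hζ).differentiableWithinAt
    · apply DifferentiableOn.div (differentiableOn_const _)
      · exact ((kS_diff a).comp (differentiable_id.sub (differentiable_const z))).differentiableOn
      · intro ζ hζ
        apply kS_ne ha
        rw [sub_re, abs_lt]
        exact ⟨by linarith [hζ.1], by linarith [hζ.2.1]⟩
  have key := integral_boundary_rect_eq_zero_of_differentiableOn (cG a f z)
    (α - τ * I) (α + 2 * a + τ * I) (by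
      have e1 : ((α : ℂ) - τ * I).re = α := by simp
      have e2 : ((α : ℂ) + 2 * a + τ * I).re = α + 2 * a := by simp
      have e3 : ((α : ℂ) - τ * I).im = -τ := by simp
      have e4 : ((α : ℂ) + 2 * a + τ * I).im = τ := by simp
      rw [e1, e2, e3, e4, hR]
      exact hd)
  have e1 : ((α : ℂ) - τ * I).re = α := by simp
  have e2 : ((α : ℂ) + 2 * a + τ * I).re = α + 2 * a := by simp
  have e3 : ((α : ℂ) - τ * I).im = -τ := by simp
  have e4 : ((α : ℂ) + 2 * a + τ * I).im = τ := by simp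
  rw [e1, e2, e3, e4] at key
  have hb : ∀ x : ℝ, cG a f z (x + ((-τ : ℝ) : ℂ) * I) =
      (f (x - τ * I) - f z) * ker a (x - τ * I - z) := by
    intro x
    rw [cG_eq]
    · push_cast
      ring_nf
    · intro h
      have : z.im = -τ := by rw [← h]; simp
      rw [this, abs_neg, abs_of_pos hτ] at h3
      exact lt_irrefl _ h3
  have ht : ∀ x : ℝ, cG a f z (x + (τ : ℂ) * I) =
      (f (x + τ * I) - f z) * ker a (x + τ * I - z) := by
    intro x
    rw [cG_eq]
    intro h
    have : z.im = τ := by rw [← h]; simp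
    rw [this, abs_of_pos hτ] at h3
    exact lt_irrefl _ h3
  have hl : ∀ y : ℝ, cG a f z (α + y * I) = (f (α + y * I) - f z) * ker a (α + y * I - z) := by
    intro y
    rw [cG_eq]
    intro h
    have : z.re = α := by rw [← h]; simp
    linarith
  have hr : ∀ y : ℝ, cG a f z (((α + 2 * a : ℝ) : ℂ) + y * I) =
      (f (α + y * I + 2 * a) - f z) * ker a (α + y * I - z) := by
    intro y
    rw [cG_eq]
    · rw [show (((α + 2 * a : ℝ) : ℂ) + y * I) - z = (α + y * I - z) + 2 * a by push_cast; ring,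
        ker_period ha.ne', show (((α + 2 * a : ℝ) : ℂ) + y * I) = α + y * I + 2 * a by
          push_cast; ring]
    · intro h
      have : z.re = α + 2 * a := by rw [← h]; simp
      linarith
  simp only [hb, ht, hl, hr, smul_eq_mul] at key
  have hi1 : IntervalIntegrable (fun y : ℝ => (f (α + y * I + 2 * a) - f z) *
      ker a (α + y * I - z)) volume (-τ) τ := by
    apply ContinuousOn.intervalIntegrable_of_Icc (by linarith)
    have : ∀ y ∈ Icc (-τ) τ, (f (α + y * I + 2 * a) - f z) * ker a (α + y * I - z) =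
        cG a f z (((α + 2 * a : ℝ) : ℂ) + y * I) := fun y _ => (hr y).symm
    refine ContinuousOn.congr ?_ this
    refine hd.continuousOn.comp (by fun_prop) ?_
    intro y hy
    refine ⟨by simp; linarith, by simp, by simp; exact abs_le.2 hy⟩
  have hi2 : IntervalIntegrable (fun y : ℝ => (f (α + y * I) - f z) *
      ker a (α + y * I - z)) volume (-τ) τ := by
    apply ContinuousOn.intervalIntegrable_of_Icc (by linarith)
    have : ∀ y ∈ Icc (-τ) τ, (f (α + y * I) - f z) * ker a (α + y * I - z) =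
        cG a f z (α + y * I) := fun y _ => (hl y).symm
    refine ContinuousOn.congr ?_ this
    refine hd.continuousOn.comp (by fun_prop) ?_
    intro y hy
    refine ⟨by simp, by simp; linarith, by simp; exact abs_le.2 hy⟩
  have hsub := intervalIntegral.integral_sub hi1 hi2
  have : (∫ y in (-τ)..τ, (f (α + y * I + 2 * a) - f (α + y * I)) * ker a (α + y * I - z)) =
      ∫ y in (-τ)..τ, ((f (α + y * I + 2 * a) - f z) * ker a (α + y * I - z) -
        (f (α + y * I) - f z) * ker a (α + y * I - z)) := by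
    congr 1
    ext y
    ring
  rw [this, hsub]
  linear_combination key

end PBV
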