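import Pool.Agent.PB.VandA

/-!
# Plan B, almost periodic functions: the truncated exponential sum

* `bot_exp`, `top_exp`: geometric expansion of the kernel on the horizontal sides;
* `cauchy1`: the Cauchy formula solved for `f z`;
* **`repr`**: `f z` is an exponential sum with `2K+1` terms up to explicit errors.
-/

set_option autoImplicit false

noncomputable section

open Complex MeasureTheory Set Filter Topology intervalIntegral Finset

namespace PBV

theorem rexp_lt_one {x : ℝ} (h : x < 0) : Real.exp x < 1 := by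
  rw [← Real.exp_zero]
  exact Real.exp_lt_exp.2 h

/-- the exponential `e^{iπkz/a}` -/
def ex (a : ℝ) (k : ℤ) (z : ℂ) : ℂ := exp (I * Real.pi * k * z / a)

theorem ex_norm (a : ℝ) (k : ℤ) (z : ℂ) : ‖ex a k z‖ = Real.exp (-(Real.pi * k * z.im / a)) := by
  unfold ex
  rw [norm_exp]
  congr 1
  have : I * Real.pi * k * z / a = ((Real.pi * k / a : ℝ) : ℂ) * (I * z) := by
    push_cast; ring
  rw [this, re_ofReal_mul, mul_re, I_re, I_im]
  ring

theorem ex_add (a : ℝ) (k : ℤ) (z w : ℂ) : ex a k (z + w) = ex a k z * ex a k w := by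
  unfold ex
  rw [← Complex.exp_add]
  congr 1
  ring

theorem ex_pow (a : ℝ) (k : ℤ) (n : ℕ) (z : ℂ) : ex a k z ^ n = ex a (n * k) z := by
  unfold ex
  rw [← Complex.exp_nat_mul]
  congr 1
  push_cast
  ring

theorem ex_diff (a : ℝ) (k : ℤ) : Differentiable ℂ (ex a k) := by unfold ex; fun_prop

theorem ex_zero (a : ℝ) (z : ℂ) : ex a 0 z = 1 := by simp [ex]

theorem ex_mul (a : ℝ) (k l : ℤ) (z : ℂ) : ex a k z * ex a l z = ex a (k + l) z := by
  unfold ex
  rw [← Complex.exp_add]
  congr 1
  push_cast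
  ring

theorem kE_ex (a : ℝ) (w : ℂ) : kE a w = 1 - ex a (-1) w := by
  unfold kE ex
  congr 2
  push_cast
  ring

/-- integral of an exponential over a period -/
theorem int_ex {a : ℝ} (ha : 0 < a) (α : ℝ) (k : ℤ) (hk : k ≠ 0) (b : ℂ) :
    ∫ x in α..(α + 2 * a), ex a k (x + b) = 0 := by
  have ha' : (a : ℂ) ≠ 0 := by exact_mod_cast ha.ne'
  have hpi : (Real.pi : ℂ) ≠ 0 := by exact_mod_cast Real.pi_ne_zero
  have hk' : (k : ℂ) ≠ 0 := by exact_mod_cast hk
  have h1 : ∀ x : ℝ, ex a k (x + b) = ex a k b * exp ((I * Real.pi * k / a) * x) := by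
    intro x
    rw [add_comm, ex_add]
    congr 1
    unfold ex
    congr 1
    ring
  simp only [h1]
  rw [intervalIntegral.integral_const_mul, integral_exp_mul_complex (by
    simp [ha', hpi, hk'])]
  have h2 : exp (I * Real.pi * k / a * ((α + 2 * a : ℝ) : ℂ)) = exp (I * Real.pi * k / a * (α : ℂ)) := by
    rw [exp_eq_exp_iff_exists_int]
    refine ⟨k, ?_⟩
    push_cast
    field_simp
  rw [h2, sub_self, zero_div, mul_zero]

theorem geom_id {q : ℂ} (h : 1 - q ≠ 0) (n : ℕ) :
    1 / (1 - q) = (∑ k ∈ range n, q ^ k) + q ^ n / (1 - q) := by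
  have h1 := mul_neg_geom_sum q n
  field_simp
  rw [h1]
  ring

/-- the kernel below -/
theorem ker_bot {a : ℝ} (ha : 0 < a) {w : ℂ} (hw : w.im < 0) (n : ℕ) :
    ker a w = (I * Real.pi / a) * ((∑ k ∈ range n, ex a (-(k : ℤ)) w) +
      ex a (-(n : ℤ)) w / (1 - ex a (-1) w)) := by
  have h1 : ‖ex a (-1) w‖ < 1 := by
    rw [ex_norm]
    apply rexp_lt_one
    have : Real.pi * ((-1 : ℤ) : ℝ) * w.im / a = -(Real.pi * w.im / a) := by push_cast; ring
    rw [this, neg_neg]
    apply div_neg_of_neg_of_pos _ ha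
    exact mul_neg_of_pos_of_neg Real.pi_pos hw
  have h2 : 1 - ex a (-1) w ≠ 0 := by
    intro h
    have : ex a (-1) w = 1 := (sub_eq_zero.1 h).symm
    rw [this, norm_one] at h1
    exact lt_irrefl _ h1
  unfold ker
  rw [kE_ex, div_eq_mul_one_div, geom_id h2 n]
  congr 2
  · apply Finset.sum_congr rfl
    intro k _
    rw [ex_pow]
    congr 1
    ring
  · rw [ex_pow]
    congr 2
    ring

/-- the kernel above -/
theorem ker_top {a : ℝ} (ha : 0 < a) {w : ℂ} (hw : 0 < w.im) (n : ℕ) :
    ker a w = -(I * Real.pi / a) * ((∑ k ∈ range n, ex a (k + 1) w) +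
      ex a (n + 1) w / (1 - ex a 1 w)) := by
  have h1 : ‖ex a 1 w‖ < 1 := by
    rw [ex_norm]
    apply rexp_lt_one
    have h3 := Real.pi_pos
    have : 0 < Real.pi * ((1 : ℤ) : ℝ) * w.im / a := by push_cast; positivity
    linarith
  have h2 : 1 - ex a 1 w ≠ 0 := by
    intro h
    have : ex a 1 w = 1 := (sub_eq_zero.1 h).symm
    rw [this, norm_one] at h1
    exact lt_irrefl _ h1
  have h4 : ex a 1 w * ex a (-1) w = 1 := by rw [ex_mul]; simp [ex_zero]
  have h5 : ex a 1 w ≠ 0 := by unfold ex; exact exp_ne_zero _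
  have h6 : 1 - ex a (-1) w = -(1 - ex a 1 w) / ex a 1 w := by
    field_simp
    linear_combination -h4
  unfold ker
  rw [kE_ex, h6]
  have h7 : I * Real.pi / a / (-(1 - ex a 1 w) / ex a 1 w) =
      -(I * Real.pi / a) * (ex a 1 w * (1 / (1 - ex a 1 w))) := by
    field_simp
  rw [h7, geom_id h2 n, mul_add (ex a 1 w), Finset.mul_sum]
  congr 2
  · apply Finset.sum_congr rfl
    intro k _
    rw [ex_pow, ex_mul]
    congr 1
    ring
  · rw [ex_pow, ← mul_div_assoc, ex_mul]
    congr 2
    ring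

theorem one_sub_norm {q : ℂ} : (1 - ‖q‖) ≤ ‖1 - q‖ := by
  have := norm_sub_norm_le (1 : ℂ) q
  rw [norm_one] at this
  exact this

/-- the expansion of the integral over the lower side -/
theorem bot_exp {a α τ B : ℝ} (ha : 0 < a) {g : ℝ → ℂ} (hg : ContinuousOn g (Icc α (α + 2 * a)))
    (hB : ∀ x ∈ Icc α (α + 2 * a), ‖g x‖ ≤ B) {z : ℂ} (hz : -τ < z.im) (n : ℕ) :
    ‖(∫ x in α..(α + 2 * a), g x * ker a (x - τ * I - z)) -
      ∑ k ∈ range n, ((I * Real.pi / a) * ∫ x in α..(α + 2 * a), g x * ex a (-(k : ℤ)) (x - τ * I)) *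
        ex a k z‖ ≤
      2 * Real.pi * B * (Real.exp (-(Real.pi * (τ + z.im) / a)) ^ n /
        (1 - Real.exp (-(Real.pi * (τ + z.im) / a)))) := by
  set r : ℝ := Real.exp (-(Real.pi * (τ + z.im) / a)) with hr
  have hpi := Real.pi_pos
  have hr1 : r < 1 := by
    rw [hr]
    apply rexp_lt_one
    have : 0 < Real.pi * (τ + z.im) / a := by
      have : 0 < τ + z.im := by linarith
      positivity
    linarith
  have him : ∀ x : ℝ, ((x : ℂ) - τ * I - z).im = -(τ + z.im) := by
    intro x; simp; ring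
  have hq : ∀ x : ℝ, ‖ex a (-1) (x - τ * I - z)‖ = r := by
    intro x
    rw [ex_norm, him, hr]
    congr 1
    push_cast
    ring
  have hB0 : 0 ≤ B := (norm_nonneg _).trans (hB α ⟨le_refl _, by linarith⟩)
  have hgi : ∀ k : ℤ, ∀ b : ℂ, IntervalIntegrable (fun x : ℝ => g x * ex a k (x + b)) volume α (α + 2 * a) := by
    intro k b
    apply ContinuousOn.intervalIntegrable_of_Icc (by linarith)
    apply hg.mul
    exact ((ex_diff a k).continuous.comp (by fun_prop)).continuousOn
  have hk : ∀ k : ℤ, ∀ x : ℝ, ex a (-k) ((x : ℂ) - τ * I - z) = ex a (-k) (x - τ * I) * ex a k z := by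
    intro k x
    unfold ex
    rw [← Complex.exp_add]
    congr 1
    push_cast
    ring
  have h1 : ∀ k : ℕ, ((I * Real.pi / a) * ∫ x in α..(α + 2 * a), g x * ex a (-(k : ℤ)) (x - τ * I)) *
      ex a k z = ∫ x in α..(α + 2 * a), g x * ((I * Real.pi / a) * ex a (-(k : ℤ)) (x - τ * I - z)) := by
    intro k
    rw [mul_assoc, ← intervalIntegral.integral_mul_const, ← intervalIntegral.integral_const_mul]
    congr 1
    ext x
    rw [hk]
    ring
  simp only [h1]
  have hi : ∀ k ∈ range n, IntervalIntegrable (fun x : ℝ => g x *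
      ((I * Real.pi / a) * ex a (-(k : ℤ)) (x - τ * I - z))) volume α (α + 2 * a) := by
    intro k _
    have := (hgi (-(k : ℤ)) (-(τ * I) - z)).const_mul (I * Real.pi / a)
    refine this.congr ?_
    intro x _
    simp only
    rw [show (x : ℂ) + (-(τ * I) - z) = x - τ * I - z by ring]
    ring
  have hker : IntervalIntegrable (fun x : ℝ => g x * ker a (x - τ * I - z)) volume α (α + 2 * a) := by
    apply ContinuousOn.intervalIntegrable_of_Icc (by linarith)
    apply hg.mul
    unfold ker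
    apply ContinuousOn.div continuousOn_const
    · exact ((kE_diff a).continuous.comp (by fun_prop)).continuousOn
    · intro x _
      rw [kE_ex]
      intro h
      have h2 : ex a (-1) (x - τ * I - z) = 1 := (sub_eq_zero.1 h).symm
      have h3 := hq x
      rw [h2, norm_one] at h3
      linarith
  rw [← intervalIntegral.integral_finsetSum hi, ← intervalIntegral.integral_sub hker
    (by
      have := IntervalIntegrable.sum _ hi
      simpa only [Finset.sum_fn] using this)]
  have hle : ‖∫ x in α..(α + 2 * a), (g x * ker a (x - τ * I - z) -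
      ∑ k ∈ range n, g x * ((I * Real.pi / a) * ex a (-(k : ℤ)) (x - τ * I - z)))‖ ≤
      (B * (Real.pi / a) * (r ^ n / (1 - r))) * |α + 2 * a - α| := by
    apply intervalIntegral.norm_integral_le_of_norm_le_const
    intro x hx
    rw [uIoc_of_le (by linarith)] at hx
    have e1 : g x * ker a (x - τ * I - z) -
        ∑ k ∈ range n, g x * ((I * Real.pi / a) * ex a (-(k : ℤ)) (x - τ * I - z)) =
        g x * ((I * Real.pi / a) * (ex a (-(n : ℤ)) (x - τ * I - z) /
          (1 - ex a (-1) (x - τ * I - z)))) := by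
      rw [ker_bot ha (by rw [him]; linarith) n, ← Finset.mul_sum, ← Finset.mul_sum]
      ring
    rw [e1, norm_mul, norm_mul]
    have e2 : ‖(I * Real.pi / a : ℂ)‖ = Real.pi / a := by
      rw [norm_div, norm_mul, norm_I, one_mul, norm_real, norm_real, Real.norm_of_nonneg hpi.le,
        Real.norm_of_nonneg ha.le]
    have e3 : ‖ex a (-(n : ℤ)) (x - τ * I - z)‖ = r ^ n := by
      rw [← hq x, ← norm_pow, ex_pow]
      congr 2
      ring
    have e4 : 1 - r ≤ ‖1 - ex a (-1) (x - τ * I - z)‖ := by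
      have := one_sub_norm (q := ex a (-1) (x - τ * I - z))
      rwa [hq] at this
    rw [e2, norm_div, e3]
    have h5 : 0 < 1 - r := by linarith
    have h6 : 0 ≤ r := (Real.exp_pos _).le
    have h7 := hB x ⟨hx.1.le, hx.2⟩
    rw [mul_assoc B]
    gcongr
  refine hle.trans (le_of_eq ?_)
  rw [show α + 2 * a - α = 2 * a by ring, abs_of_pos (by linarith)]
  field_simp

/-- reflection of the kernel -/
theorem ker_refl {a : ℝ} (ha : 0 < a) {w : ℂ} (hw : 0 < w.im) :
    ker a w = I * Real.pi / a - ker a (-w) := by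
  have h1 : ‖ex a 1 w‖ < 1 := by
    rw [ex_norm]
    apply rexp_lt_one
    have h3 := Real.pi_pos
    have : 0 < Real.pi * ((1 : ℤ) : ℝ) * w.im / a := by push_cast; positivity
    linarith
  have h2 : 1 - ex a 1 w ≠ 0 := by
    intro h
    have : ex a 1 w = 1 := (sub_eq_zero.1 h).symm
    rw [this, norm_one] at h1
    exact lt_irrefl _ h1
  have h4 : ex a 1 w * ex a (-1) w = 1 := by rw [ex_mul]; simp [ex_zero]
  have h5 : ex a (-1) (-w) = ex a 1 w := by
    unfold ex
    congr 1
    push_cast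
    ring
  have h6 : 1 - ex a (-1) w ≠ 0 := by
    intro h
    have h7 : ex a (-1) w = 1 := (sub_eq_zero.1 h).symm
    rw [h7, mul_one] at h4
    rw [h4] at h2
    exact h2 (sub_self 1)
  unfold ker
  rw [kE_ex, kE_ex, h5]
  have h8 : ∀ c : ℂ, c / (1 - ex a (-1) w) = c - c / (1 - ex a 1 w) := by
    intro c
    field_simp
    linear_combination -c * h4
  exact h8 _

/-- the expansion of the integral over the upper side -/
theorem top_exp {a α τ B : ℝ} (ha : 0 < a) {g : ℝ → ℂ} (hg : ContinuousOn g (Icc α (α + 2 * a)))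
    (hB : ∀ x ∈ Icc α (α + 2 * a), ‖g x‖ ≤ B) {z : ℂ} (hz : z.im < τ) (n : ℕ) :
    ‖(∫ x in α..(α + 2 * a), g x * ker a (x + τ * I - z)) +
      ∑ k ∈ range n, ((I * Real.pi / a) * ∫ x in α..(α + 2 * a), g x * ex a (k + 1) (x + τ * I)) *
        ex a (-(k + 1)) z‖ ≤
      2 * Real.pi * B * (Real.exp (-(Real.pi * (τ - z.im) / a)) ^ (n + 1) /
        (1 - Real.exp (-(Real.pi * (τ - z.im) / a)))) := by
  have hg' : ContinuousOn (fun x => g (-x)) (Icc (-(α + 2 * a)) (-(α + 2 * a) + 2 * a)) := by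
    refine hg.comp (by fun_prop) ?_
    intro x hx
    exact ⟨by linarith [hx.2], by linarith [hx.1]⟩
  have hB' : ∀ x ∈ Icc (-(α + 2 * a)) (-(α + 2 * a) + 2 * a), ‖g (-x)‖ ≤ B := by
    intro x hx
    exact hB _ ⟨by linarith [hx.2], by linarith [hx.1]⟩
  have h := bot_exp (τ := τ) ha hg' hB' (z := -z) (by simp; linarith) (n + 1)
  have hsub : ∀ F : ℝ → ℂ, ∫ x in (-(α + 2 * a))..(-(α + 2 * a) + 2 * a), F x =
      ∫ x in α..(α + 2 * a), F (-x) := by
    intro F
    rw [intervalIntegral.integral_comp_neg]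
    congr 1
    ring
  have hk : ∀ k : ℕ, ∫ x in (-(α + 2 * a))..(-(α + 2 * a) + 2 * a),
      g (-x) * ex a (-(k : ℤ)) (x - τ * I) = ∫ x in α..(α + 2 * a), g x * ex a k (x + τ * I) := by
    intro k
    rw [hsub]
    congr 1
    ext x
    rw [neg_neg]
    congr 1
    unfold ex
    congr 1
    push_cast
    ring
  have hK : ∫ x in (-(α + 2 * a))..(-(α + 2 * a) + 2 * a), g (-x) * ker a (x - τ * I - -z) =
      (I * Real.pi / a) * (∫ x in α..(α + 2 * a), g x) -
        ∫ x in α..(α + 2 * a), g x * ker a (x + τ * I - z) := by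
    rw [hsub, ← intervalIntegral.integral_const_mul, ← intervalIntegral.integral_sub]
    · congr 1
      ext x
      have hw : 0 < ((x : ℂ) + τ * I - z).im := by simp; linarith
      rw [neg_neg, ker_refl ha hw, show ((-x : ℝ) : ℂ) - τ * I - -z = -(x + τ * I - z) by
        push_cast; ring]
      ring
    · exact (hg.intervalIntegrable_of_Icc (by linarith)).const_mul _
    · apply ContinuousOn.intervalIntegrable_of_Icc (by linarith)
      apply hg.mul
      unfold ker
      apply ContinuousOn.div continuousOn_const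
      · exact ((kE_diff a).continuous.comp (by fun_prop)).continuousOn
      · intro x _ h0
        rw [kE_ex] at h0
        have h1 : ex a (-1) (x + τ * I - z) = 1 := (sub_eq_zero.1 h0).symm
        have h2 := ex_norm a (-1) (x + τ * I - z)
        rw [h1, norm_one] at h2
        have h3 := Real.pi_pos
        have h4 : 0 < Real.pi * (τ - z.im) / a := by
          have : 0 < τ - z.im := by linarith
          positivity
        have h5 : -(Real.pi * ((-1 : ℤ) : ℝ) * ((x : ℂ) + τ * I - z).im / a) =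
            Real.pi * (τ - z.im) / a := by
          simp
          ring
        rw [h5] at h2
        have := Real.one_lt_exp_iff.2 h4
        linarith
  rw [hK] at h
  simp only [hk] at h
  rw [Finset.sum_range_succ' _ n] at h
  have h0 : ∀ x : ℝ, ex a ((0 : ℕ) : ℤ) (x + τ * I) = 1 := by
    intro x
    rw [Nat.cast_zero, ex_zero]
  have h0' : ex a ((0 : ℕ) : ℤ) (-z) = 1 := by rw [Nat.cast_zero, ex_zero]
  simp only [h0, h0', mul_one] at h
  have e1 : (-z).im = -z.im := by simp
  rw [e1, show τ + -z.im = τ - z.im by ring] at h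
  have e2 : ∀ k : ℕ, ex a ((k + 1 : ℕ) : ℤ) (-z) = ex a (-(k + 1)) z := by
    intro k
    unfold ex
    congr 1
    push_cast
    ring
  simp only [e2] at h
  have e3 : (I * Real.pi / a) * (∫ x in α..(α + 2 * a), g x) -
        (∫ x in α..(α + 2 * a), g x * ker a (x + τ * I - z)) -
      (∑ k ∈ range n, I * Real.pi / a * (∫ x in α..(α + 2 * a), g x *
        ex a ((k + 1 : ℕ) : ℤ) (x + τ * I)) * ex a (-(k + 1)) z +
        I * Real.pi / a * ∫ x in α..(α + 2 * a), g x) =
      -((∫ x in α..(α + 2 * a), g x * ker a (x + τ * I - z)) +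
      ∑ k ∈ range n, ((I * Real.pi / a) * ∫ x in α..(α + 2 * a), g x *
        ex a (k + 1) (x + τ * I)) * ex a (-(k + 1)) z) := by
    push_cast
    ring
  rw [e3, norm_neg] at h
  exact h

/-- integral of the kernel over the lower side -/
theorem ker_int_bot {a α τ : ℝ} (ha : 0 < a) {z : ℂ} (hz : -τ < z.im) :
    ∫ x in α..(α + 2 * a), ker a (x - τ * I - z) = 2 * Real.pi * I := by
  have ha' : (a : ℂ) ≠ 0 := by exact_mod_cast ha.ne'
  have hpi := Real.pi_pos
  set r : ℝ := Real.exp (-(Real.pi * (τ + z.im) / a)) with hr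
  have hr1 : r < 1 := by
    rw [hr]
    apply rexp_lt_one
    have : 0 < Real.pi * (τ + z.im) / a := by
      have : 0 < τ + z.im := by linarith
      positivity
    linarith
  have hr0 : 0 ≤ r := (Real.exp_pos _).le
  have h : ∀ n : ℕ, ‖(∫ x in α..(α + 2 * a), ker a (x - τ * I - z)) - 2 * Real.pi * I‖ ≤
      2 * Real.pi * 1 * (r ^ (n + 1) / (1 - r)) := by
    intro n
    have h1 := bot_exp (τ := τ) (α := α) (B := 1) ha (g := fun _ => 1) continuousOn_const
      (by simp) hz (n + 1)
    rw [← hr, Finset.sum_range_succ' _ n] at h1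
    have h2 : ∀ k : ℕ, ∫ x in α..(α + 2 * a), (1 : ℂ) * ex a (-((k + 1 : ℕ) : ℤ)) (x - τ * I) = 0 := by
      intro k
      have := int_ex ha α (-((k + 1 : ℕ) : ℤ)) (by omega) (-(τ * I))
      simpa only [one_mul, sub_eq_add_neg] using this
    simp only [h2] at h1
    have h3 : ∫ x in α..(α + 2 * a), (1 : ℂ) * ex a (-((0 : ℕ) : ℤ)) (x - τ * I) = 2 * a := by
      simp only [Nat.cast_zero, neg_zero, ex_zero, mul_one]
      rw [intervalIntegral.integral_const]
      simp
    rw [h3] at h1
    simp only [mul_zero, zero_mul, Finset.sum_const_zero, zero_add, one_mul, Nat.cast_zero, ex_zero,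
      mul_one] at h1
    rw [show I * (Real.pi : ℂ) / a * (2 * a) = 2 * Real.pi * I by field_simp] at h1
    rw [mul_one]
    exact h1
  have hlim : Tendsto (fun n : ℕ => 2 * Real.pi * 1 * (r ^ (n + 1) / (1 - r))) atTop (𝓝 0) := by
    have h1 := (tendsto_pow_atTop_nhds_zero_of_lt_one hr0 hr1).comp (tendsto_add_atTop_nat 1)
    have h2 := (h1.div_const (1 - r)).const_mul (2 * Real.pi * 1)
    rw [zero_div, mul_zero] at h2
    exact h2
  have := ge_of_tendsto' hlim h
  rw [← sub_eq_zero, ← norm_le_zero_iff]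
  exact this

/-- integral of the kernel over the upper side -/
theorem ker_int_top {a α τ : ℝ} (ha : 0 < a) {z : ℂ} (hz : z.im < τ) :
    ∫ x in α..(α + 2 * a), ker a (x + τ * I - z) = 0 := by
  have hpi := Real.pi_pos
  set r : ℝ := Real.exp (-(Real.pi * (τ - z.im) / a)) with hr
  have hr1 : r < 1 := by
    rw [hr]
    apply rexp_lt_one
    have : 0 < Real.pi * (τ - z.im) / a := by
      have : 0 < τ - z.im := by linarith
      positivity
    linarith
  have hr0 : 0 ≤ r := (Real.exp_pos _).le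
  have h : ∀ n : ℕ, ‖∫ x in α..(α + 2 * a), ker a (x + τ * I - z)‖ ≤
      2 * Real.pi * 1 * (r ^ (n + 1) / (1 - r)) := by
    intro n
    have h1 := top_exp (τ := τ) (α := α) (B := 1) ha (g := fun _ => 1) continuousOn_const
      (by simp) hz n
    rw [← hr] at h1
    have h2 : ∀ k : ℕ, ∫ x in α..(α + 2 * a), (1 : ℂ) * ex a ((k : ℤ) + 1) (x + τ * I) = 0 := by
      intro k
      have := int_ex ha α ((k : ℤ) + 1) (by omega) (τ * I)
      simpa only [one_mul] using this
    simp only [h2] at h1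
    simpa using h1
  have hlim : Tendsto (fun n : ℕ => 2 * Real.pi * 1 * (r ^ (n + 1) / (1 - r))) atTop (𝓝 0) := by
    have h1 := (tendsto_pow_atTop_nhds_zero_of_lt_one hr0 hr1).comp (tendsto_add_atTop_nat 1)
    have h2 := (h1.div_const (1 - r)).const_mul (2 * Real.pi * 1)
    rw [zero_div, mul_zero] at h2
    exact h2
  have := ge_of_tendsto' hlim h
  exact norm_le_zero_iff.1 this

end PBV
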