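import Pool.Agent.PB.VandB

/-!
# Plan B, almost periodic functions: the representation

**`repr`**: for `f` analytic on the rectangle `[α, α + 2a] × [-τ, τ]`, bounded by `B` on the horizontal
sides, `|f (α + 2a + iy) - f (α + iy)| ≤ D`, there are coefficients `c k`, `-K ≤ k ≤ K`, with
`|f z - Σ c_k e^{iπkz/a}| ≤ 2 B (q_-^{K+1}/(1-q_-) + q_+^{K+1}/(1-q_+)) + τ D/(a s)` wherever the kernel on the vertical
side is at most `(π/a)/s`.
-/

set_option autoImplicit false

noncomputable section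

open Complex MeasureTheory Set Filter Topology intervalIntegral Finset

namespace PBV

variable {a α τ : ℝ}

/-- the Cauchy formula solved for `f z` -/
theorem cauchy1 (ha : 0 < a) (hτ : 0 < τ) {f : ℂ → ℂ}
    (hf : ∀ ζ ∈ Rct a α τ, DifferentiableAt ℂ f ζ) {z : ℂ} (h1 : α < z.re) (h2 : z.re < α + 2 * a)
    (h3 : |z.im| < τ) :
    2 * Real.pi * I * f z = (∫ x in α..(α + 2 * a), f (x - τ * I) * ker a (x - τ * I - z)) -
      (∫ x in α..(α + 2 * a), f (x + τ * I) * ker a (x + τ * I - z)) +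
      I * (∫ y in (-τ)..τ, (f (α + y * I + 2 * a) - f (α + y * I)) * ker a (α + y * I - z)) := by
  obtain ⟨h4, h5⟩ := abs_lt.1 h3
  have key := cauchy0 ha hτ hf h1 h2 h3
  have hfc : ∀ b : ℂ, |b.im| ≤ τ → b.re = 0 →
      ContinuousOn (fun x : ℝ => f (x + b)) (Icc α (α + 2 * a)) := by
    intro b hb hb0 x hx
    have h : DifferentiableAt ℂ f (x + b) := by
      apply hf
      refine ⟨?_, ?_, ?_⟩
      · simp [hb0]; exact hx.1
      · simp [hb0]; exact hx.2
      · simpa using hb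
    have h' : ContinuousAt (fun x : ℝ => f (x + b)) x :=
      ContinuousAt.comp (g := f) (f := fun x : ℝ => (x + b : ℂ)) h.continuousAt (by fun_prop)
    exact h'.continuousWithinAt
  have hkc : ∀ b : ℂ, b.im ≠ 0 → ContinuousOn (fun x : ℝ => ker a (x + b)) (Icc α (α + 2 * a)) := by
    intro b hb
    unfold ker
    apply ContinuousOn.div continuousOn_const
    · exact ((kE_diff a).continuous.comp (by fun_prop)).continuousOn
    · intro x _ h0
      rw [kE_ex] at h0
      have h1 : ex a (-1) (x + b) = 1 := (sub_eq_zero.1 h0).symm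
      have h2 := ex_norm a (-1) (x + b)
      rw [h1, norm_one] at h2
      have h5 : -(Real.pi * ((-1 : ℤ) : ℝ) * ((x : ℂ) + b).im / a) = Real.pi * b.im / a := by
        simp
        ring
      rw [h5] at h2
      have h6 : Real.pi * b.im / a = 0 := by
        rw [← Real.exp_eq_one_iff]
        exact h2.symm
      have h7 : Real.pi * b.im / a ≠ 0 := by
        have := Real.pi_ne_zero
        have := ha.ne'
        positivity
      exact h7 h6
  have hle : α ≤ α + 2 * a := by linarith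
  have hib : IntervalIntegrable (fun x : ℝ => f (x - τ * I) * ker a (x - τ * I - z)) volume α
      (α + 2 * a) := by
    apply ContinuousOn.intervalIntegrable_of_Icc hle
    apply ContinuousOn.mul
    · simpa only [sub_eq_add_neg] using hfc (-(τ * I)) (by simp [abs_of_pos hτ]) (by simp)
    · have := hkc (-(τ * I) - z) (by simp; intro h; linarith)
      refine this.congr fun x _ => ?_
      rw [show (x : ℂ) - τ * I - z = x + (-(τ * I) - z) by ring]
  have hib' : IntervalIntegrable (fun x : ℝ => ker a (x - τ * I - z)) volume α (α + 2 * a) := by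
    apply ContinuousOn.intervalIntegrable_of_Icc hle
    have := hkc (-(τ * I) - z) (by simp; intro h; linarith)
    refine this.congr fun x _ => ?_
    rw [show (x : ℂ) - τ * I - z = x + (-(τ * I) - z) by ring]
  have hit : IntervalIntegrable (fun x : ℝ => f (x + τ * I) * ker a (x + τ * I - z)) volume α
      (α + 2 * a) := by
    apply ContinuousOn.intervalIntegrable_of_Icc hle
    apply ContinuousOn.mul
    · exact hfc (τ * I) (by simp [abs_of_pos hτ]) (by simp)
    · have := hkc (τ * I - z) (by simp; intro h; linarith)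
      refine this.congr fun x _ => ?_
      rw [show (x : ℂ) + τ * I - z = x + (τ * I - z) by ring]
  have hit' : IntervalIntegrable (fun x : ℝ => ker a (x + τ * I - z)) volume α (α + 2 * a) := by
    apply ContinuousOn.intervalIntegrable_of_Icc hle
    have := hkc (τ * I - z) (by simp; intro h; linarith)
    refine this.congr fun x _ => ?_
    rw [show (x : ℂ) + τ * I - z = x + (τ * I - z) by ring]
  have eb : (∫ x in α..(α + 2 * a), (f (x - τ * I) - f z) * ker a (x - τ * I - z)) =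
      (∫ x in α..(α + 2 * a), f (x - τ * I) * ker a (x - τ * I - z)) - f z * (2 * Real.pi * I) := by
    rw [← ker_int_bot (α := α) ha h4, ← intervalIntegral.integral_const_mul,
      ← intervalIntegral.integral_sub hib (hib'.const_mul _)]
    congr 1
    ext x
    ring
  have et : (∫ x in α..(α + 2 * a), (f (x + τ * I) - f z) * ker a (x + τ * I - z)) =
      (∫ x in α..(α + 2 * a), f (x + τ * I) * ker a (x + τ * I - z)) := by
    have h6 : (∫ x in α..(α + 2 * a), f (x + τ * I) * ker a (x + τ * I - z)) =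
        (∫ x in α..(α + 2 * a), f (x + τ * I) * ker a (x + τ * I - z)) - f z * 0 := by ring
    rw [h6, ← ker_int_top (α := α) ha h5, ← intervalIntegral.integral_const_mul,
      ← intervalIntegral.integral_sub hit (hit'.const_mul _)]
    congr 1
    ext x
    ring
  rw [eb, et] at key
  linear_combination -key

/-- the bound of the kernel: distance of `1` to the ray -/
theorem kE_lower (w : ℂ) : |Real.sin (Real.pi * w.re / a)| ≤ ‖kE a w‖ := by
  have e1 : kE a w = 1 - (Real.exp (Real.pi * w.im / a) : ℂ) *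
      exp (-((Real.pi * w.re / a : ℝ) : ℂ) * I) := by
    unfold kE
    congr 1
    rw [ofReal_exp, ← Complex.exp_add]
    congr 1
    apply Complex.ext
    · simp
      ring
    · simp
  set ρ := Real.exp (Real.pi * w.im / a) with hρ
  set θ := Real.pi * w.re / a with hθ
  have e2 : kE a w = ((1 - ρ * Real.cos θ : ℝ) : ℂ) + ((ρ * Real.sin θ : ℝ) : ℂ) * I := by
    rw [e1, neg_mul, Complex.exp_neg, exp_mul_I]
    have h0 : (Complex.cos θ + Complex.sin θ * I) ≠ 0 := by
      rw [← exp_mul_I]; exact exp_ne_zero _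
    have h1 : (Complex.cos θ + Complex.sin θ * I)⁻¹ = Complex.cos θ - Complex.sin θ * I := by
      apply inv_eq_of_mul_eq_one_right
      have := Complex.cos_sq_add_sin_sq (θ : ℂ)
      linear_combination this - Complex.sin θ ^ 2 * I_sq
    rw [h1]
    push_cast
    ring
  have hρ0 : 0 < ρ := Real.exp_pos _
  rw [e2, Complex.norm_add_mul_I]
  apply Real.le_sqrt_of_sq_le
  rw [sq_abs]
  have hcs := Real.sin_sq_add_cos_sq θ
  nlinarith [sq_nonneg (ρ - Real.cos θ), sq_nonneg (Real.sin θ)]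

theorem ker_upper (ha : 0 < a) (w : ℂ) {s : ℝ} (hs : 0 < s)
    (h : s ≤ |Real.sin (Real.pi * w.re / a)|) : ‖ker a w‖ ≤ Real.pi / a / s := by
  unfold ker
  rw [norm_div, norm_div, norm_mul, norm_I, one_mul, norm_real, norm_real,
    Real.norm_of_nonneg Real.pi_pos.le, Real.norm_of_nonneg ha.le]
  have h1 := h.trans (kE_lower w)
  have := Real.pi_pos
  gcongr

/-- sharper bound of the kernel -/
theorem kE_lower2 (w : ℂ) : |Real.sin (Real.pi * w.re / (2 * a))| ≤ ‖kE a w‖ := by
  have e1 : kE a w = 1 - (Real.exp (Real.pi * w.im / a) : ℂ) *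
      exp (-((Real.pi * w.re / a : ℝ) : ℂ) * I) := by
    unfold kE
    congr 1
    rw [ofReal_exp, ← Complex.exp_add]
    congr 1
    apply Complex.ext
    · simp
      ring
    · simp
  set ρ := Real.exp (Real.pi * w.im / a) with hρ
  set θ := Real.pi * w.re / a with hθ
  have hθ2 : Real.pi * w.re / (2 * a) = θ / 2 := by rw [hθ, mul_comm 2 a, ← div_div]
  have e2 : kE a w = ((1 - ρ * Real.cos θ : ℝ) : ℂ) + ((ρ * Real.sin θ : ℝ) : ℂ) * I := by
    rw [e1, neg_mul, Complex.exp_neg, exp_mul_I]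
    have h0 : (Complex.cos θ + Complex.sin θ * I) ≠ 0 := by
      rw [← exp_mul_I]; exact exp_ne_zero _
    have h1 : (Complex.cos θ + Complex.sin θ * I)⁻¹ = Complex.cos θ - Complex.sin θ * I := by
      apply inv_eq_of_mul_eq_one_right
      have := Complex.cos_sq_add_sin_sq (θ : ℂ)
      linear_combination this - Complex.sin θ ^ 2 * I_sq
    rw [h1]
    push_cast
    ring
  have hρ0 : 0 < ρ := Real.exp_pos _
  rw [e2, Complex.norm_add_mul_I]
  apply Real.le_sqrt_of_sq_le
  rw [sq_abs, hθ2]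
  have hcs := Real.sin_sq_add_cos_sq θ
  have hc2 : Real.cos θ = 1 - 2 * Real.sin (θ / 2) ^ 2 := by
    have h := Real.cos_two_mul (θ / 2)
    have h' := Real.sin_sq_add_cos_sq (θ / 2)
    rw [show 2 * (θ / 2) = θ by ring] at h
    linarith
  have hs1 : Real.sin (θ / 2) ^ 2 ≤ 1 := by
    have h' := Real.sin_sq_add_cos_sq (θ / 2)
    nlinarith [sq_nonneg (Real.cos (θ / 2))]
  have hs0 : 0 ≤ Real.sin (θ / 2) ^ 2 := sq_nonneg _
  set u := Real.sin (θ / 2) ^ 2 with hu
  have h3 : (1 - ρ * Real.cos θ) ^ 2 + (ρ * Real.sin θ) ^ 2 = (1 - ρ) ^ 2 + 4 * ρ * u := by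
    have : Real.sin θ ^ 2 = 1 - Real.cos θ ^ 2 := by linarith
    rw [mul_pow, this, hc2]
    ring
  rw [h3]
  nlinarith [sq_nonneg (1 - ρ - u / 2), sq_nonneg (ρ - 1 + 2 * u), mul_nonneg hs0 (sub_nonneg.2 hs1),
    mul_nonneg hρ0.le hs0, sq_nonneg (1 - ρ)]

theorem ker_upper2 (ha : 0 < a) (w : ℂ) {s : ℝ} (hs : 0 < s)
    (h : s ≤ |Real.sin (Real.pi * w.re / (2 * a))|) : ‖ker a w‖ ≤ Real.pi / a / s := by
  unfold ker
  rw [norm_div, norm_div, norm_mul, norm_I, one_mul, norm_real, norm_real,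
    Real.norm_of_nonneg Real.pi_pos.le, Real.norm_of_nonneg ha.le]
  have h1 := h.trans (kE_lower2 w)
  have := Real.pi_pos
  gcongr

/-- the Fourier coefficients, `[α, α + 2a]` on the horizontal sides at heights `∓ τ` -/
def cf (a α τ : ℝ) (f : ℂ → ℂ) (k : ℤ) : ℂ :=
  (2 * Real.pi * I)⁻¹ * (if 0 ≤ k then (I * Real.pi / a) * ∫ x in α..(α + 2 * a), f (x - τ * I) *
    ex a (-k) (x - τ * I) else (I * Real.pi / a) * ∫ x in α..(α + 2 * a), f (x + τ * I) *
    ex a (-k) (x + τ * I))

/-- **the representation, explicit coefficients** -/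
theorem repr_cf (ha : 0 < a) (hτ : 0 < τ) {f : ℂ → ℂ} {B D : ℝ}
    (hf : ∀ ζ ∈ Rct a α τ, DifferentiableAt ℂ f ζ)
    (hB : ∀ x ∈ Icc α (α + 2 * a), ‖f (x - τ * I)‖ ≤ B ∧ ‖f (x + τ * I)‖ ≤ B)
    (hD : ∀ y ∈ Icc (-τ) τ, ‖f (α + y * I + 2 * a) - f (α + y * I)‖ ≤ D) (K : ℕ) :
    ∀ z : ℂ, α < z.re → z.re < α + 2 * a → |z.im| < τ → ∀ s : ℝ, 0 < s →
      (∀ y : ℝ, ‖ker a (α + y * I - z)‖ ≤ Real.pi / a / s) →
      ‖f z - ∑ j ∈ range (2 * K + 1), cf a α τ f ((j : ℤ) - K) * ex a ((j : ℤ) - K) z‖ ≤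
        2 * (B * (Real.exp (-(Real.pi * (τ - |z.im|) / a)) ^ (K + 1) /
        (1 - Real.exp (-(Real.pi * (τ - |z.im|) / a))))) + τ * D / (a * s) := by
  have hpi := Real.pi_pos
  set cb : ℕ → ℂ := fun k => (I * Real.pi / a) * ∫ x in α..(α + 2 * a), f (x - τ * I) *
    ex a (-(k : ℤ)) (x - τ * I) with hcb
  set ct : ℕ → ℂ := fun k => (I * Real.pi / a) * ∫ x in α..(α + 2 * a), f (x + τ * I) *
    ex a (k + 1) (x + τ * I) with hct
  intro z h1 h2 h3 s hs hsz
  obtain ⟨h4, h5⟩ := abs_lt.1 h3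
  have hfc : ∀ b : ℂ, |b.im| ≤ τ → b.re = 0 →
      ContinuousOn (fun x : ℝ => f (x + b)) (Icc α (α + 2 * a)) := by
    intro b hb hb0 x hx
    have h : DifferentiableAt ℂ f (x + b) := by
      apply hf
      refine ⟨?_, ?_, ?_⟩
      · simp [hb0]; exact hx.1
      · simp [hb0]; exact hx.2
      · simpa using hb
    have h' : ContinuousAt (fun x : ℝ => f (x + b)) x :=
      ContinuousAt.comp (g := f) (f := fun x : ℝ => (x + b : ℂ)) h.continuousAt (by fun_prop)
    exact h'.continuousWithinAt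
  have hgb : ContinuousOn (fun x : ℝ => f (x - τ * I)) (Icc α (α + 2 * a)) := by
    simpa only [sub_eq_add_neg] using hfc (-(τ * I)) (by simp [abs_of_pos hτ]) (by simp)
  have hgt : ContinuousOn (fun x : ℝ => f (x + τ * I)) (Icc α (α + 2 * a)) :=
    hfc (τ * I) (by simp [abs_of_pos hτ]) (by simp)
  have hbot := bot_exp ha hgb (fun x hx => (hB x hx).1) h4 (K + 1)
  have htop := top_exp ha hgt (fun x hx => (hB x hx).2) h5 K
  have hc := cauchy1 ha hτ hf h1 h2 h3
  have hver : ‖∫ y in (-τ)..τ, (f (α + y * I + 2 * a) - f (α + y * I)) * ker a (α + y * I - z)‖ ≤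
      D * (Real.pi / a / s) * |τ - -τ| := by
    apply intervalIntegral.norm_integral_le_of_norm_le_const
    intro y hy
    rw [uIoc_of_le (by linarith)] at hy
    rw [norm_mul]
    have e1 := hD y ⟨hy.1.le, hy.2⟩
    have e2 := hsz y
    have e3 : 0 ≤ D := (norm_nonneg _).trans e1
    gcongr
  have hB0 : 0 ≤ B := (norm_nonneg _).trans (hB α ⟨le_refl _, by linarith⟩).1
  -- the two geometric errors
  set q := Real.exp (-(Real.pi * (τ - |z.im|) / a)) with hq
  have hq1 : q < 1 := by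
    apply rexp_lt_one
    have : 0 < Real.pi * (τ - |z.im|) / a := by
      have : 0 < τ - |z.im| := by linarith
      positivity
    linarith
  have hqb : Real.exp (-(Real.pi * (τ + z.im) / a)) ≤ q := by
    rw [hq]
    apply Real.exp_le_exp.2
    have : -|z.im| ≤ z.im := neg_abs_le _
    gcongr
    linarith
  have hqt : Real.exp (-(Real.pi * (τ - z.im) / a)) ≤ q := by
    rw [hq]
    apply Real.exp_le_exp.2
    have : z.im ≤ |z.im| := le_abs_self _
    gcongr
  have hbot' := hbot.trans (show _ ≤ 2 * Real.pi * B * (q ^ (K + 1) / (1 - q)) by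
    have h6 : 0 < 1 - q := by linarith
    have h7 := (Real.exp_pos (-(Real.pi * (τ + z.im) / a))).le
    gcongr)
  have htop' := htop.trans (show _ ≤ 2 * Real.pi * B * (q ^ (K + 1) / (1 - q)) by
    have h6 : 0 < 1 - q := by linarith
    have h7 := (Real.exp_pos (-(Real.pi * (τ - z.im) / a))).le
    gcongr)
  -- the sum
  have hsum : ∑ j ∈ range (2 * K + 1), cf a α τ f ((j : ℤ) - K) * ex a ((j : ℤ) - K) z =
      (2 * Real.pi * I)⁻¹ * ((∑ k ∈ range (K + 1), cb k * ex a k z) +
        ∑ k ∈ range K, ct k * ex a (-(k + 1)) z) := by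
    rw [show 2 * K + 1 = K + (K + 1) by ring, Finset.sum_range_add, mul_add, add_comm, mul_sum,
      mul_sum]
    congr 1
    · apply Finset.sum_congr rfl
      intro k _
      have e1 : ((K + k : ℕ) : ℤ) - K = k := by push_cast; ring
      rw [e1, cf, if_pos (by omega)]
      simp only [hcb]
      ring
    · rw [← Finset.sum_range_reflect]
      apply Finset.sum_congr rfl
      intro k hk
      rw [Finset.mem_range] at hk
      have e1 : ((K - 1 - k : ℕ) : ℤ) - K = -(k + 1) := by omega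
      rw [e1, cf, if_neg (by omega), neg_neg]
      simp only [hct]
      ring
  rw [hsum]
  have hpi0 : (2 * Real.pi * I : ℂ) ≠ 0 := by
    simp [Real.pi_ne_zero]
  have key : f z - (2 * Real.pi * I)⁻¹ * ((∑ k ∈ range (K + 1), cb k * ex a k z) +
        ∑ k ∈ range K, ct k * ex a (-(k + 1)) z) = (2 * Real.pi * I)⁻¹ *
      (((∫ x in α..(α + 2 * a), f (x - τ * I) * ker a (x - τ * I - z)) -
        ∑ k ∈ range (K + 1), cb k * ex a k z) -
      ((∫ x in α..(α + 2 * a), f (x + τ * I) * ker a (x + τ * I - z)) +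
        ∑ k ∈ range K, ct k * ex a (-(k + 1)) z) +
      I * (∫ y in (-τ)..τ, (f (α + y * I + 2 * a) - f (α + y * I)) * ker a (α + y * I - z))) := by
    have h6 : f z = (2 * Real.pi * I)⁻¹ * (2 * Real.pi * I * f z) := by
      rw [inv_mul_cancel_left₀ hpi0]
    rw [h6, hc]
    ring
  rw [key, norm_mul]
  have e3 : ‖(2 * Real.pi * I : ℂ)⁻¹‖ = (2 * Real.pi)⁻¹ := by
    rw [norm_inv, norm_mul, norm_mul, norm_I, mul_one, norm_real, Real.norm_of_nonneg hpi.le]
    simp
  rw [e3]
  have e4 : ‖((∫ x in α..(α + 2 * a), f (x - τ * I) * ker a (x - τ * I - z)) -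
        ∑ k ∈ range (K + 1), cb k * ex a k z) -
      ((∫ x in α..(α + 2 * a), f (x + τ * I) * ker a (x + τ * I - z)) +
        ∑ k ∈ range K, ct k * ex a (-(k + 1)) z) +
      I * (∫ y in (-τ)..τ, (f (α + y * I + 2 * a) - f (α + y * I)) * ker a (α + y * I - z))‖ ≤
      2 * Real.pi * B * (q ^ (K + 1) / (1 - q)) + 2 * Real.pi * B * (q ^ (K + 1) / (1 - q)) +
        D * (Real.pi / a / s) * |τ - -τ| := by
    refine (norm_add_le _ _).trans (add_le_add ((norm_sub_le _ _).trans (add_le_add hbot' htop')) ?_)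
    rw [norm_mul, norm_I, one_mul]
    exact hver
  calc (2 * Real.pi)⁻¹ * _ ≤ (2 * Real.pi)⁻¹ * (2 * Real.pi * B * (q ^ (K + 1) / (1 - q)) +
      2 * Real.pi * B * (q ^ (K + 1) / (1 - q)) + D * (Real.pi / a / s) * |τ - -τ|) := by gcongr
    _ = _ := by
      rw [show τ - -τ = 2 * τ by ring, abs_of_pos (by linarith)]
      field_simp
      ring

/-- **the representation** -/
theorem repr (ha : 0 < a) (hτ : 0 < τ) {f : ℂ → ℂ} {B D : ℝ}
    (hf : ∀ ζ ∈ Rct a α τ, DifferentiableAt ℂ f ζ)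
    (hB : ∀ x ∈ Icc α (α + 2 * a), ‖f (x - τ * I)‖ ≤ B ∧ ‖f (x + τ * I)‖ ≤ B)
    (hD : ∀ y ∈ Icc (-τ) τ, ‖f (α + y * I + 2 * a) - f (α + y * I)‖ ≤ D) (K : ℕ) :
    ∃ c : ℤ → ℂ, ∀ z : ℂ, α < z.re → z.re < α + 2 * a → |z.im| < τ → ∀ s : ℝ, 0 < s →
      s ≤ |Real.sin (Real.pi * (α - z.re) / a)| →
      ‖f z - ∑ j ∈ range (2 * K + 1), c ((j : ℤ) - K) * ex a ((j : ℤ) - K) z‖ ≤
        2 * (B * (Real.exp (-(Real.pi * (τ - |z.im|) / a)) ^ (K + 1) /
        (1 - Real.exp (-(Real.pi * (τ - |z.im|) / a))))) + τ * D / (a * s) :=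
  ⟨cf a α τ f, fun z h1 h2 h3 s hs hsz => repr_cf ha hτ hf hB hD K z h1 h2 h3 s hs fun y =>
    ker_upper ha (α + y * I - z) hs (by simpa using hsz)⟩

end PBV
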