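import Pool.Agent.PB.VandC

/-!
# Plan B: Schwarz lemma for a zero of order `N` on a rectangle

* **`schwarz`**: `‖D z‖ ≤ M / tanh(πY/4δ)^N * ‖tan(πz/4δ)‖^N` on `|Re z| ≤ δ`, `|Im z| ≤ Y`;
* `Tn_le`: `‖tan‖^N ≤ exp(-(7/20) N e^{-π|Im z|/2δ})` for `|Re z| ≤ δ/2`.
-/

set_option autoImplicit false

noncomputable section

open Complex MeasureTheory Set Filter Topology

namespace PBV

theorem nsq_sin (u v : ℝ) : ‖Complex.sin (u + v * I)‖ ^ 2 = Real.sin u ^ 2 + Real.sinh v ^ 2 := by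
  have h : Complex.sin (u + v * I) = ((Real.sin u * Real.cosh v : ℝ) : ℂ) +
      ((Real.cos u * Real.sinh v : ℝ) : ℂ) * I := by
    rw [Complex.sin_add_mul_I]
    push_cast
    ring
  rw [h, Complex.norm_add_mul_I, Real.sq_sqrt (by positivity)]
  have h1 := Real.sin_sq_add_cos_sq u
  have h2 := Real.cosh_sq v
  have h3 : Real.cos u ^ 2 = 1 - Real.sin u ^ 2 := by linarith
  rw [mul_pow, mul_pow, h2, h3]
  ring

theorem nsq_cos (u v : ℝ) : ‖Complex.cos (u + v * I)‖ ^ 2 = Real.cos u ^ 2 + Real.sinh v ^ 2 := by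
  have h : Complex.cos (u + v * I) = ((Real.cos u * Real.cosh v : ℝ) : ℂ) +
      ((-(Real.sin u * Real.sinh v) : ℝ) : ℂ) * I := by
    rw [Complex.cos_add_mul_I]
    push_cast
    ring
  rw [h, Complex.norm_add_mul_I, Real.sq_sqrt (by positivity)]
  have h1 := Real.sin_sq_add_cos_sq u
  have h2 := Real.cosh_sq v
  have h3 : Real.sin u ^ 2 = 1 - Real.cos u ^ 2 := by linarith
  rw [neg_sq, mul_pow, mul_pow, h2, h3]
  ring

/-- `tan (π z / 4δ)` -/
def Tn (δ : ℝ) (z : ℂ) : ℂ := Complex.sin (Real.pi * z / (4 * δ)) / Complex.cos (Real.pi * z / (4 * δ))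

variable {δ : ℝ}

theorem arg_eq (δ : ℝ) (z : ℂ) : (Real.pi * z / (4 * δ) : ℂ) =
    ((Real.pi * z.re / (4 * δ) : ℝ) : ℂ) + ((Real.pi * z.im / (4 * δ) : ℝ) : ℂ) * I := by
  conv_lhs => rw [← re_add_im z]
  push_cast
  ring

theorem Tn_sq (δ : ℝ) (z : ℂ) : ‖Tn δ z‖ ^ 2 =
    (Real.sin (Real.pi * z.re / (4 * δ)) ^ 2 + Real.sinh (Real.pi * z.im / (4 * δ)) ^ 2) /
    (Real.cos (Real.pi * z.re / (4 * δ)) ^ 2 + Real.sinh (Real.pi * z.im / (4 * δ)) ^ 2) := by
  unfold Tn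
  rw [norm_div, div_pow, arg_eq, nsq_sin, nsq_cos]

theorem u_bound (hδ : 0 < δ) {z : ℂ} (hz : |z.re| ≤ δ) : |Real.pi * z.re / (4 * δ)| ≤ Real.pi / 4 := by
  have hpi := Real.pi_pos
  rw [abs_div, abs_mul, abs_of_pos hpi, abs_of_pos (by positivity : 0 < 4 * δ),
    div_le_div_iff₀ (by positivity) (by norm_num)]
  nlinarith

theorem cos_pos (hδ : 0 < δ) {z : ℂ} (hz : |z.re| ≤ δ) : 0 < Real.cos (Real.pi * z.re / (4 * δ)) := by
  have hpi := Real.pi_pos
  have h := abs_le.1 (u_bound hδ hz)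
  apply Real.cos_pos_of_mem_Ioo
  constructor <;> linarith [h.1, h.2]

theorem cosz_ne (hδ : 0 < δ) {z : ℂ} (hz : |z.re| ≤ δ) :
    Complex.cos (Real.pi * z / (4 * δ)) ≠ 0 := by
  intro h
  have h1 := nsq_cos (Real.pi * z.re / (4 * δ)) (Real.pi * z.im / (4 * δ))
  rw [← arg_eq, h, norm_zero] at h1
  have h2 := cos_pos hδ hz
  nlinarith [sq_nonneg (Real.sinh (Real.pi * z.im / (4 * δ))), pow_pos h2 2]

theorem Tn_side (hδ : 0 < δ) {z : ℂ} (hz : |z.re| = δ) : ‖Tn δ z‖ = 1 := by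
  have hpi := Real.pi_pos
  have h0 : Real.sin (Real.pi * z.re / (4 * δ)) ^ 2 = Real.cos (Real.pi * z.re / (4 * δ)) ^ 2 := by
    rcases abs_choice z.re with h | h
    · rw [h] at hz
      rw [hz, show Real.pi * δ / (4 * δ) = Real.pi / 4 by field_simp, Real.sin_pi_div_four,
        Real.cos_pi_div_four]
    · rw [h] at hz
      have : z.re = -δ := by linarith
      rw [this, show Real.pi * -δ / (4 * δ) = -(Real.pi / 4) by field_simp, Real.sin_neg,
        Real.cos_neg, Real.sin_pi_div_four, Real.cos_pi_div_four]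
      ring
  have h1 := Tn_sq δ z
  have h2 := cos_pos hδ hz.le
  rw [h0, div_self (by positivity)] at h1
  have h3 := norm_nonneg (Tn δ z)
  nlinarith [sq_nonneg (‖Tn δ z‖ - 1)]

theorem Tn_low (hδ : 0 < δ) {z : ℂ} (hz : |z.re| ≤ δ) {v : ℝ} (hv : 0 ≤ v)
    (hv' : v ≤ |Real.pi * z.im / (4 * δ)|) : Real.tanh v ≤ ‖Tn δ z‖ := by
  have h1 := Tn_sq δ z
  have h2 := cos_pos hδ hz
  set S := Real.sinh (Real.pi * z.im / (4 * δ)) ^ 2 with hS
  have hS0 : 0 ≤ S := sq_nonneg _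
  have h3 : Real.sinh v ^ 2 ≤ S := by
    rw [hS, ← sq_abs (Real.sinh (Real.pi * z.im / (4 * δ))), Real.abs_sinh]
    have h4 : Real.sinh v ≤ Real.sinh |Real.pi * z.im / (4 * δ)| := Real.sinh_le_sinh.2 hv'
    have h5 : 0 ≤ Real.sinh v := Real.sinh_nonneg_iff.2 hv
    gcongr
  have hc := Real.cosh_sq v
  have hc0 := Real.cosh_pos v
  have h4 : Real.tanh v ^ 2 ≤ ‖Tn δ z‖ ^ 2 := by
    rw [h1, Real.tanh_eq_sinh_div_cosh, div_pow, hc, div_le_div_iff₀ (by positivity) (by positivity)]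
    have h5 := Real.cos_sq_le_one (Real.pi * z.re / (4 * δ))
    nlinarith [sq_nonneg (Real.sin (Real.pi * z.re / (4 * δ))), sq_nonneg (Real.sinh v)]
  exact le_of_sq_le_sq' h4 (norm_nonneg _)
where
  le_of_sq_le_sq' {x y : ℝ} (h : x ^ 2 ≤ y ^ 2) (hy : 0 ≤ y) : x ≤ y := by
    nlinarith [sq_nonneg (x - y), abs_le_of_sq_le_sq h hy, le_abs_self x]

theorem Tn_le (hδ : 0 < δ) {z : ℂ} (hz : |z.re| ≤ δ / 2) (N : ℕ) :
    ‖Tn δ z‖ ^ N ≤ Real.exp (-(7 / 20 * N * Real.exp (-(Real.pi * |z.im| / (2 * δ))))) := by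
  have hpi := Real.pi_pos
  have h1 := Tn_sq δ z
  have hz' : |z.re| ≤ δ := by linarith
  have h2 := cos_pos hδ hz'
  set u := Real.pi * z.re / (4 * δ) with hu
  set v := Real.pi * z.im / (4 * δ) with hv
  have hub : |u| ≤ Real.pi / 8 := by
    rw [hu, abs_div, abs_mul, abs_of_pos hpi, abs_of_pos (by positivity : 0 < 4 * δ),
      div_le_div_iff₀ (by positivity) (by norm_num)]
    nlinarith
  have hc2 : 7 / 10 ≤ Real.cos (2 * u) := by
    have h3 : Real.cos (Real.pi / 4) ≤ Real.cos |2 * u| := by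
      apply Real.cos_le_cos_of_nonneg_of_le_pi (abs_nonneg _) (by linarith)
      rw [abs_mul, abs_of_pos (by norm_num : (0 : ℝ) < 2)]
      linarith
    rw [Real.cos_abs, Real.cos_pi_div_four] at h3
    have h4 : (7 / 5 : ℝ) ≤ Real.sqrt 2 := Real.le_sqrt_of_sq_le (by norm_num)
    linarith
  have hch := Real.cosh_sq v
  have hcs := Real.sin_sq_add_cos_sq u
  have hcu : Real.cos (2 * u) = 2 * Real.cos u ^ 2 - 1 := Real.cos_two_mul u
  set S := Real.sinh v ^ 2 with hS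
  have hS0 : 0 ≤ S := sq_nonneg _
  have h5 : Real.cosh v ^ 2 ≤ Real.exp (2 * |v|) := by
    have h6 : Real.cosh v ≤ Real.exp |v| := by
      rw [← Real.cosh_abs, Real.cosh_eq]
      have h7 : Real.exp (-|v|) ≤ Real.exp |v| := Real.exp_le_exp.2 (by linarith [abs_nonneg v])
      linarith
    calc Real.cosh v ^ 2 ≤ Real.exp |v| ^ 2 := by
          have := Real.cosh_pos v
          gcongr
      _ = _ := by rw [← Real.exp_nat_mul]; norm_num
  have h6 : ‖Tn δ z‖ ^ 2 ≤ 1 - 7 / 10 * Real.exp (-(2 * |v|)) := by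
    have e1 : ‖Tn δ z‖ ^ 2 = 1 - Real.cos (2 * u) / (Real.cos u ^ 2 + S) := by
      rw [h1, eq_sub_iff_add_eq, ← add_div, div_eq_one_iff_eq (by positivity)]
      linarith
    rw [e1]
    have h7 : Real.cos u ^ 2 + S ≤ Real.exp (2 * |v|) := by
      have := Real.cos_sq_le_one u
      linarith
    have h8 : 7 / 10 * Real.exp (-(2 * |v|)) ≤ Real.cos (2 * u) / (Real.cos u ^ 2 + S) := by
      rw [Real.exp_neg, ← div_eq_mul_inv]
      have h9 : 0 < Real.cos u ^ 2 + S := by positivity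
      gcongr
    linarith
  have h9 : ‖Tn δ z‖ ^ 2 ≤ Real.exp (-(7 / 10 * Real.exp (-(2 * |v|)))) :=
    h6.trans (by
      have := Real.add_one_le_exp (-(7 / 10 * Real.exp (-(2 * |v|))))
      linarith)
  have h10 : ‖Tn δ z‖ ≤ Real.exp (-(7 / 20 * Real.exp (-(2 * |v|)))) := by
    have e2 : Real.exp (-(7 / 10 * Real.exp (-(2 * |v|)))) =
        Real.exp (-(7 / 20 * Real.exp (-(2 * |v|)))) ^ 2 := by
      rw [← Real.exp_nat_mul]
      congr 1
      push_cast
      ring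
    rw [e2] at h9
    exact (le_abs_self _).trans (abs_le_of_sq_le_sq h9 (Real.exp_pos _).le)
  have e3 : 2 * |v| = Real.pi * |z.im| / (2 * δ) := by
    rw [hv, abs_div, abs_mul, abs_of_pos hpi, abs_of_pos (by positivity : 0 < 4 * δ)]
    field_simp
    ring
  calc ‖Tn δ z‖ ^ N ≤ Real.exp (-(7 / 20 * Real.exp (-(2 * |v|)))) ^ N := by gcongr
    _ = _ := by
      rw [← Real.exp_nat_mul, e3]
      congr 1
      ring

/-- the open rectangle -/
def OR (δ Y : ℝ) : Set ℂ := {z | |z.re| < δ ∧ |z.im| < Y}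

/-- the closed rectangle -/
def CR (δ Y : ℝ) : Set ℂ := {z | |z.re| ≤ δ ∧ |z.im| ≤ Y}

theorem OR_open (δ Y : ℝ) : IsOpen (OR δ Y) :=
  (isOpen_lt (continuous_re.abs) continuous_const).inter
    (isOpen_lt (continuous_im.abs) continuous_const)

theorem CR_closed (δ Y : ℝ) : IsClosed (CR δ Y) :=
  (isClosed_le (continuous_re.abs) continuous_const).inter
    (isClosed_le (continuous_im.abs) continuous_const)

theorem OR_sub (δ Y : ℝ) : OR δ Y ⊆ CR δ Y := fun _ hz => ⟨hz.1.le, hz.2.le⟩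

theorem clo_sub (δ Y : ℝ) : closure (OR δ Y) ⊆ CR δ Y :=
  closure_minimal (OR_sub δ Y) (CR_closed δ Y)

theorem CR_sub {Y : ℝ} (hδ : 0 < δ) (hY : 0 < Y) : CR δ Y ⊆ closure (OR δ Y) := by
  intro z hz
  rw [mem_closure_iff_seq_limit]
  refine ⟨fun n : ℕ => ((1 - 1 / ((n : ℝ) + 2) : ℝ) : ℂ) * z, ?_, ?_⟩
  · intro n
    have h1 : 0 < 1 / ((n : ℝ) + 2) := by positivity
    have h2 : 1 / ((n : ℝ) + 2) < 1 := by
      rw [div_lt_one (by positivity)]
      have : (0 : ℝ) ≤ n := n.cast_nonneg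
      linarith
    have h3 : |(1 - 1 / ((n : ℝ) + 2))| < 1 := by rw [abs_lt]; constructor <;> linarith
    constructor
    · rw [re_ofReal_mul, abs_mul]
      rcases eq_or_lt_of_le (abs_nonneg z.re) with h | h
      · rw [← h, mul_zero]; exact hδ
      · nlinarith [hz.1]
    · rw [im_ofReal_mul, abs_mul]
      rcases eq_or_lt_of_le (abs_nonneg z.im) with h | h
      · rw [← h, mul_zero]; exact hY
      · nlinarith [hz.2]
  · have h1 : Tendsto (fun n : ℕ => 1 / ((n : ℝ) + 2)) atTop (𝓝 0) := by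
      have h2 := tendsto_natCast_atTop_atTop (R := ℝ)
      have h3 : Tendsto (fun n : ℕ => (n : ℝ) + 2) atTop atTop := tendsto_atTop_add_const_right _ _ h2
      simpa using h3.const_div_atTop 1
    have h2 : Tendsto (fun n : ℕ => ((1 - 1 / ((n : ℝ) + 2) : ℝ) : ℂ)) atTop (𝓝 ((1 - 0 : ℝ) : ℂ)) :=
      (continuous_ofReal.tendsto _).comp (h1.const_sub 1)
    have h3 := h2.mul_const z
    simpa using h3

theorem Tn_diff (hδ : 0 < δ) {z : ℂ} (hz : |z.re| ≤ δ) : DifferentiableAt ℂ (Tn δ) z := by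
  unfold Tn
  exact DifferentiableAt.div (by fun_prop) (by fun_prop) (cosz_ne hδ hz)

theorem Tn_ne (hδ : 0 < δ) {z : ℂ} (hz : |z.re| ≤ δ) (h0 : z ≠ 0) : Tn δ z ≠ 0 := by
  have hpi := Real.pi_pos
  intro h
  have h1 := Tn_sq δ z
  rw [h, norm_zero, zero_pow two_ne_zero] at h1
  have h2 := cos_pos hδ hz
  have h3 : 0 < Real.cos (Real.pi * z.re / (4 * δ)) ^ 2 + Real.sinh (Real.pi * z.im / (4 * δ)) ^ 2 := by
    positivity
  have h4 : Real.sin (Real.pi * z.re / (4 * δ)) ^ 2 + Real.sinh (Real.pi * z.im / (4 * δ)) ^ 2 = 0 := by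
    rw [eq_comm, div_eq_zero_iff] at h1
    rcases h1 with h1 | h1
    · exact h1
    · exact absurd h1 h3.ne'
  have h5 : Real.sinh (Real.pi * z.im / (4 * δ)) = 0 := by
    have := sq_nonneg (Real.sin (Real.pi * z.re / (4 * δ)))
    have h6 := sq_nonneg (Real.sinh (Real.pi * z.im / (4 * δ)))
    exact pow_eq_zero_iff (two_ne_zero) |>.1 (by linarith)
  have h6 : Real.sin (Real.pi * z.re / (4 * δ)) = 0 := by
    have := sq_nonneg (Real.sin (Real.pi * z.re / (4 * δ)))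
    have h6 := sq_nonneg (Real.sinh (Real.pi * z.im / (4 * δ)))
    exact pow_eq_zero_iff (two_ne_zero) |>.1 (by linarith)
  rw [Real.sinh_eq_zero] at h5
  have h7 := abs_le.1 (u_bound hδ hz)
  rw [Real.sin_eq_zero_iff_of_lt_of_lt (by linarith [h7.1]) (by linarith [h7.2])] at h6
  apply h0
  apply Complex.ext
  · rw [div_eq_zero_iff] at h6
    rcases h6 with h6 | h6
    · simpa [hpi.ne'] using h6
    · linarith
  · rw [div_eq_zero_iff] at h5
    rcases h5 with h5 | h5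
    · simpa [hpi.ne'] using h5
    · linarith

theorem Tn_zero (δ : ℝ) : Tn δ 0 = 0 := by simp [Tn]

theorem Tn_deriv (hδ : 0 < δ) : deriv (Tn δ) 0 ≠ 0 := by
  have hpi : (Real.pi : ℂ) ≠ 0 := by exact_mod_cast Real.pi_ne_zero
  have hδ' : (δ : ℂ) ≠ 0 := by exact_mod_cast hδ.ne'
  have h1 : HasDerivAt (fun z : ℂ => (Real.pi * z / (4 * δ) : ℂ)) (Real.pi / (4 * δ)) 0 := by
    have := ((hasDerivAt_id (0 : ℂ)).const_mul (Real.pi : ℂ)).div_const (4 * δ)
    simpa using this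
  have h2 := h1.csin
  have h3 := h1.ccos
  have h4 := h2.div h3 (by simp)
  have h5 : deriv (Tn δ) 0 = Real.pi / (4 * δ) := by
    have := h4.deriv
    unfold Tn
    rw [show (fun z : ℂ => Complex.sin (Real.pi * z / (4 * δ)) / Complex.cos (Real.pi * z / (4 * δ))) =
      (fun z : ℂ => Complex.sin (Real.pi * z / (4 * δ))) / (fun z : ℂ =>
        Complex.cos (Real.pi * z / (4 * δ))) from rfl, this]
    simp
  rw [h5]
  simp [hpi, hδ']

/-- **Schwarz lemma on a rectangle, zero of order `N` at the centre** -/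
theorem schwarz {Y M : ℝ} (hδ : 0 < δ) (hY : 0 < Y) {D : ℂ → ℂ}
    (hD : ∀ z ∈ CR δ Y, DifferentiableAt ℂ D z) (hM : ∀ z ∈ CR δ Y, ‖D z‖ ≤ M) {N : ℕ}
    (hN : (N : ℕ∞) ≤ analyticOrderAt D 0) {z : ℂ} (hz : z ∈ CR δ Y) :
    ‖D z‖ ≤ M / Real.tanh (Real.pi * Y / (4 * δ)) ^ N * ‖Tn δ z‖ ^ N := by
  have hpi := Real.pi_pos
  have h00 : (0 : ℂ) ∈ CR δ Y := by simp [CR, hδ.le, hY.le]
  have hM0 : 0 ≤ M := (norm_nonneg _).trans (hM 0 h00)
  have hth : 0 < Real.tanh (Real.pi * Y / (4 * δ)) := by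
    rw [Real.tanh_eq_sinh_div_cosh]
    have := Real.sinh_pos_iff.2 (show 0 < Real.pi * Y / (4 * δ) by positivity)
    have := Real.cosh_pos (Real.pi * Y / (4 * δ))
    positivity
  have hth1 : Real.tanh (Real.pi * Y / (4 * δ)) ≤ 1 := (Real.tanh_lt_one _).le
  -- analyticity at zero
  have hOR : OR δ Y ∈ 𝓝 (0 : ℂ) := (OR_open δ Y).mem_nhds (by simp [OR, hδ, hY])
  have hDa : AnalyticAt ℂ D 0 := by
    have : DifferentiableOn ℂ D (OR δ Y) := fun w hw =>
      (hD w (OR_sub δ Y hw)).differentiableWithinAt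
    exact this.analyticAt hOR
  obtain ⟨g, hg, hgD⟩ := (natCast_le_analyticOrderAt hDa).1 hN
  simp only [sub_zero, smul_eq_mul] at hgD
  set T1 := dslope (Tn δ) 0 with hT1
  have hTa : DifferentiableOn ℂ (Tn δ) (OR δ Y) := fun w hw =>
    (Tn_diff hδ hw.1.le).differentiableWithinAt
  have hT1d : DifferentiableAt ℂ T1 0 :=
    ((differentiableOn_dslope hOR).2 hTa).differentiableAt hOR
  have hT10 : T1 0 ≠ 0 := by
    rw [hT1, dslope_same]
    exact Tn_deriv hδ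
  have hTm : ∀ w, Tn δ w = w * T1 w := by
    intro w
    have h := sub_smul_dslope (Tn δ) 0 w
    rw [Tn_zero, sub_zero, sub_zero, smul_eq_mul] at h
    exact h.symm
  set Φ : ℂ → ℂ := fun w => if w = 0 then g 0 / T1 0 ^ N else D w / Tn δ w ^ N with hΦ
  have hΦ0 : DifferentiableAt ℂ Φ 0 := by
    have h1 : DifferentiableAt ℂ (fun w => g w / T1 w ^ N) 0 :=
      hg.differentiableAt.div (hT1d.pow N) (pow_ne_zero _ hT10)
    refine h1.congr_of_eventuallyEq ?_
    have h2 : ∀ᶠ w in 𝓝 (0 : ℂ), T1 w ≠ 0 := hT1d.continuousAt.eventually_ne hT10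
    filter_upwards [hgD, h2] with w hw hw2
    rw [hΦ]
    by_cases h : w = 0
    · simp [h]
    · simp only [h, if_false]
      rw [hw, hTm, mul_pow]
      field_simp
  have hΦd : ∀ w ∈ CR δ Y, DifferentiableAt ℂ Φ w := by
    intro w hw
    by_cases h : w = 0
    · rw [h]; exact hΦ0
    · have h1 : DifferentiableAt ℂ (fun w => D w / Tn δ w ^ N) w :=
        (hD w hw).div ((Tn_diff hδ hw.1).pow N) (pow_ne_zero _ (Tn_ne hδ hw.1 h))
      refine h1.congr_of_eventuallyEq ?_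
      filter_upwards [isOpen_ne.mem_nhds h] with v hv
      rw [hΦ]
      simp only [hv, if_false]
  have hΦc : DiffContOnCl ℂ Φ (OR δ Y) := by
    apply DifferentiableOn.diffContOnCl
    exact fun w hw => (hΦd w (clo_sub δ Y hw)).differentiableWithinAt
  have hbdd : Bornology.IsBounded (OR δ Y) := by
    rw [isBounded_iff_forall_norm_le]
    refine ⟨δ + Y, fun w hw => ?_⟩
    have := norm_le_abs_re_add_abs_im w
    linarith [hw.1, hw.2]
  have hfr : ∀ w ∈ frontier (OR δ Y), ‖Φ w‖ ≤ M / Real.tanh (Real.pi * Y / (4 * δ)) ^ N := by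
    intro w hw
    have h1 : w ∈ CR δ Y := clo_sub δ Y (frontier_subset_closure hw)
    have h2 : w ∉ OR δ Y := by
      rw [(OR_open δ Y).frontier_eq] at hw
      exact hw.2
    have h3 : w ≠ 0 := by
      rintro rfl
      exact h2 (by simp [OR, hδ, hY])
    have h4 : Real.tanh (Real.pi * Y / (4 * δ)) ≤ ‖Tn δ w‖ := by
      by_cases h5 : |w.re| = δ
      · rw [Tn_side hδ h5]
        exact hth1
      · have h6 : |w.re| < δ := lt_of_le_of_ne h1.1 h5
        have h7 : |w.im| = Y := by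
          by_contra h
          exact h2 ⟨h6, lt_of_le_of_ne h1.2 h⟩
        apply Tn_low hδ h1.1 (by positivity)
        rw [abs_div, abs_mul, abs_of_pos hpi, abs_of_pos (by positivity : 0 < 4 * δ), h7]
    rw [hΦ]
    simp only [h3, if_false]
    rw [norm_div, norm_pow]
    have h8 := hM w h1
    gcongr
  have hΦz : ‖Φ z‖ ≤ M / Real.tanh (Real.pi * Y / (4 * δ)) ^ N :=
    norm_le_of_forall_mem_frontier_norm_le hbdd hΦc hfr (CR_sub hδ hY hz)
  by_cases h : z = 0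
  · -- value at the zero
    rw [h, Tn_zero, norm_zero]
    have h1 : D 0 = 0 ^ N * g 0 := hgD.self_of_nhds
    rcases Nat.eq_zero_or_pos N with h2 | h2
    · subst h2
      simpa using hM 0 h00
    · rw [h1, zero_pow (by omega), zero_mul, norm_zero, zero_pow (by omega), mul_zero]
  · have h1 : Φ z = D z / Tn δ z ^ N := by rw [hΦ]; simp only [h, if_false]
    have h2 : D z = Φ z * Tn δ z ^ N := by
      rw [h1]
      field_simp [Tn_ne hδ hz.1 h]
    rw [h2, norm_mul, norm_pow]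
    gcongr

end PBV
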