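import Pool.Agent.PB.RegG
import Pool.Agent.NU5.RRg

/-!
# The gas of two cut rows, all rows and ends at 0

`pZ d e = i e d`: points at distinct heights which tend to 0; `gasR_zero` : the gas of two cut rows
with all lines at these points tends to the eleven integrals of any data `D` with rows and ends 0.
-/

set_option autoImplicit false
set_option linter.unusedSectionVars false
set_option linter.unusedVariables false

noncomputable section

open Complex MeasureTheory Filter Topology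

namespace PBZ

open NUP1 PBX
open NUTP (th ea)
open NUP1.N (Bx E11)
open NUP1.Leg (Bp Ht cc)
open Pool.Agent.NU5 (gasR)

/-- the point at the height `e d` -/
def pZ (d : ℕ) (e : ℝ) : ℂ := ((e * d : ℝ) : ℂ) * I

theorem pZ_re (d : ℕ) (e : ℝ) : (pZ d e).re = 0 := by
  unfold pZ
  simp

theorem pZ_im (d : ℕ) (e : ℝ) : (pZ d e).im = e * d := by
  unfold pZ
  simp

theorem pZ_tendsto (d : ℕ) : Tendsto (pZ d) (𝓝[>] 0) (𝓝 0) := by
  have h : Continuous (pZ d) := by
    unfold pZ
    fun_prop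
  have h2 := (h.tendsto 0).mono_left (nhdsWithin_le_nhds (s := Set.Ioi (0 : ℝ)))
  have e : pZ d 0 = 0 := by
    unfold pZ
    simp
  rwa [e] at h2

theorem pZ_neg_tendsto (d : ℕ) : Tendsto (fun e => -pZ d e) (𝓝[>] 0) (𝓝 0) := by
  have := (pZ_tendsto d).neg
  rwa [neg_zero] at this

theorem pZ_ne {d d' : ℕ} {e : ℝ} (he : 0 < e) (h : d ≠ d') : (pZ d e).im ≠ (pZ d' e).im := by
  rw [pZ_im, pZ_im]
  intro h'
  exact h (by exact_mod_cast mul_left_cancel₀ he.ne' h')

theorem pZ_box {d : ℕ} {e R : ℝ} (he : 0 ≤ e) (he' : e ≤ 1) (hd : (d : ℝ) ≤ R) :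
    Bx R (pZ d e) := by
  have hl := Bd.l_pos
  refine ⟨?_, ?_⟩
  · rw [pZ_re, abs_zero]
    positivity
  · rw [pZ_im, abs_of_nonneg (by positivity)]
    have h0 : (0 : ℝ) ≤ d := Nat.cast_nonneg d
    nlinarith

section fam
variable (m : ℕ)

/-- rows of the species `X` -/
def xZ (e : ℝ) (i : Fin m) : ℂ := pZ (1 + i.val) e

/-- rows of the species `Y` -/
def yZ (e : ℝ) (i : Fin m) : ℂ := pZ (m + 1 + i.val) e

variable {m} {e : ℝ}

theorem Ht_Z (he : 0 < e) : Ht (pZ (2 * m + 1) e) (pZ (2 * m + 2) e) (pZ (2 * m + 3) e)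
    (pZ (2 * m + 4) e) (xZ m e) (yZ m e) where
  xx i j hij := pZ_ne he (by
    intro h
    exact hij (Fin.ext (by omega)))
  yy i j hij := pZ_ne he (by
    intro h
    exact hij (Fin.ext (by omega)))
  xy i j := pZ_ne he (by have := i.isLt; omega)
  hx i := pZ_ne he (by have := i.isLt; omega)
  hy i := pZ_ne he (by have := i.isLt; omega)
  gx i := pZ_ne he (by have := i.isLt; omega)
  gy i := pZ_ne he (by have := i.isLt; omega)
  hg := pZ_ne he (by omega)
  qx i := pZ_ne he (by have := i.isLt; omega)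
  py i := pZ_ne he (by have := i.isLt; omega)

/-- generic lines -/
theorem G_Z (he : 0 < e) : NUTP.G th (ea (-pZ (2 * m + 1) e) :: ea (-pZ (2 * m + 2) e) ::
    ea (-pZ (2 * m + 3) e) :: ea (-pZ (2 * m + 4) e) ::
      ((List.ofFn fun i => ea (-xZ m e i)) ++ List.ofFn fun i => ea (-yZ m e i))) := by
  have e1 : (ea (-pZ (2 * m + 1) e) :: ea (-pZ (2 * m + 2) e) ::
      ea (-pZ (2 * m + 3) e) :: ea (-pZ (2 * m + 4) e) ::
      ((List.ofFn fun i => ea (-xZ m e i)) ++ List.ofFn fun i => ea (-yZ m e i))) =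
      (-pZ (2 * m + 1) e :: -pZ (2 * m + 2) e :: -pZ (2 * m + 3) e :: -pZ (2 * m + 4) e ::
        ((List.ofFn fun i => -xZ m e i) ++ List.ofFn fun i => -yZ m e i)).map ea := by
    simp [List.map_ofFn, Function.comp_def]
  rw [e1, NUTP.G_ea]
  have key : (-pZ (2 * m + 1) e :: -pZ (2 * m + 2) e :: -pZ (2 * m + 3) e ::
      -pZ (2 * m + 4) e :: ((List.ofFn fun i => -xZ m e i) ++
        List.ofFn fun i => -yZ m e i)).Pairwise fun z w => z.im ≠ w.im := by
    have im' : ∀ {d d' : ℕ}, d ≠ d' → (-pZ d e).im ≠ (-pZ d' e).im := by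
      intro d d' h h'
      rw [neg_im, neg_im, neg_inj] at h'
      exact pZ_ne he h h'
    simp only [List.pairwise_cons, List.pairwise_append, List.pairwise_ofFn, List.mem_cons,
      List.mem_append, List.mem_ofFn]
    refine ⟨?_, ?_, ?_, ?_, ?_, ?_, ?_⟩
    · rintro z (rfl | rfl | rfl | ⟨i, rfl⟩ | ⟨i, rfl⟩)
      · exact im' (by omega)
      · exact im' (by omega)
      · exact im' (by omega)
      · exact im' (by have := i.isLt; omega)
      · exact im' (by have := i.isLt; omega)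
    · rintro z (rfl | rfl | ⟨i, rfl⟩ | ⟨i, rfl⟩)
      · exact im' (by omega)
      · exact im' (by omega)
      · exact im' (by have := i.isLt; omega)
      · exact im' (by have := i.isLt; omega)
    · rintro z (rfl | ⟨i, rfl⟩ | ⟨i, rfl⟩)
      · exact im' (by omega)
      · exact im' (by have := i.isLt; omega)
      · exact im' (by have := i.isLt; omega)
    · rintro z (⟨i, rfl⟩ | ⟨i, rfl⟩)
      · exact im' (by have := i.isLt; omega)
      · exact im' (by have := i.isLt; omega)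
    · intro i j hij
      have : i.val < j.val := hij
      exact im' (by omega)
    · intro i j hij
      have : i.val < j.val := hij
      exact im' (by omega)
    · rintro z ⟨i, rfl⟩ w ⟨j, rfl⟩
      exact im' (by have := i.isLt; have := j.isLt; omega)
  refine key.imp fun {z w} h k => ?_
  refine NUP1.sin_ne_im ?_
  have e2 : (z - w + (k : ℂ) * NUTP.lam).im = z.im - w.im := by
    rw [show NUTP.lam = (l : ℂ) from rfl]
    simp
  rw [e2]
  exact sub_ne_zero.2 h

end fam

/-- **The gas of two cut rows at rows and ends 0.** -/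
theorem gasR_zero {m : ℕ} {a : ℝ} (ha : a = 31 / 50 ∨ a = 5 / 4) {D : RD m} (O : D.Ok)
    (hβ : 1 < D.β) (hc : D.c = cc m) (hc' : D.c' = cc m) (hx : D.x = fun _ => 0)
    (hy : D.y = fun _ => 0) (hp : D.p = 0) (hq : D.q = 0) :
    Tendsto (fun e => gasR (List.ofFn fun i => ea (-xZ m e i)) (List.ofFn fun i => ea (-yZ m e i))
      (ea (-pZ (2 * m + 1) e)) (ea (-pZ (2 * m + 2) e)) (ea (-pZ (2 * m + 3) e))
      (ea (-pZ (2 * m + 4) e))) (𝓝[>] 0)
    (𝓝 (sin l * (Bp 0 0 (fun _ : Fin m => 0) * Bp 0 0 (fun _ : Fin m => 0)) *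
      ∑ n ∈ Finset.range (2 * m + 1),
        E11 (3 / 5 * l) (-(17 / 10) * l) D.p D.q D.x D.y D.hX D.hY n n (a * l)
          (-(11 / 4) * l))) := by
  have hpos : ∀ᶠ e : ℝ in 𝓝[>] 0, 0 < e := self_mem_nhdsWithin
  have hle : ∀ᶠ e : ℝ in 𝓝[>] 0, e ≤ 1 := nhdsWithin_le_nhds (eventually_le_nhds one_pos)
  have hbox := hpos.and hle
  have bx : ∀ d : ℕ, d ≤ 2 * m + 4 → ∀ᶠ e : ℝ in 𝓝[>] 0, Bx (2 * m + 4 : ℝ) (pZ d e) :=
    fun d hd => hbox.mono fun e he => pZ_box he.1.le he.2 (by exact_mod_cast hd)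
  have R0 : (0 : ℝ) ≤ 2 * m + 4 := by positivity
  have key := O.RE_tendsto (F := 𝓝[>] (0 : ℝ)) (R := (2 * m + 4 : ℝ)) ha hβ hc hc'
    (p := pZ (2 * m + 1)) (h := pZ (2 * m + 2)) (q := pZ (2 * m + 3)) (g := pZ (2 * m + 4))
    (x := xZ m) (y := yZ m) (hpos.mono fun e he => Ht_Z he) (bx _ (by omega)) (bx _ (by omega))
    (bx _ (by omega)) (bx _ (by omega))
    (Filter.eventually_all.2 fun i => bx _ (by have := i.isLt; omega))
    (Filter.eventually_all.2 fun i => bx _ (by have := i.isLt; omega))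
    (by rw [hp]; simpa using R0) (by rw [hq]; simpa using R0)
    (fun i => by rw [hx]; simpa using R0) (fun i => by rw [hy]; simpa using R0)
    (by rw [hp]; exact pZ_tendsto _) (by rw [hp]; exact pZ_tendsto _)
    (by rw [hq]; exact pZ_tendsto _) (by rw [hq]; exact pZ_tendsto _)
    (fun i => by rw [hx]; exact pZ_tendsto _) (fun i => by rw [hy]; exact pZ_tendsto _)
  have e1 : Bp D.p D.q D.x * Bp D.q D.p D.y =
      Bp 0 0 (fun _ : Fin m => 0) * Bp 0 0 (fun _ : Fin m => 0) := by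
    rw [hx, hy, hp, hq]
  rw [e1] at key
  exact key

end PBZ

end
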