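import Pool.Agent.PB.RR0
import Pool.Agent.GLD.W0

/-!
# The two definitions of the regular two-point function at rows `0` agree (helper22)

`GLD.W0 hk` (words of the cylinder, a priori bound, link) = `PB.W0 k hk` (limit of the gas).
-/

set_option autoImplicit false

namespace Pool.Agent.PB

open Filter Topology

/-- **The function of the walks is the function of the gas.** -/
theorem W0_same {k : ℕ} (hk : 1 ≤ k) : Pool.Agent.GLD.W0 hk = W0 k hk := by
  rw [W0_eq_prs hk]
  rfl

/-- `W0` is real and nonnegative. -/
theorem W0_real {k : ℕ} (hk : 1 ≤ k) : W0 k hk = ((W0 k hk).re : ℂ) ∧ 0 ≤ (W0 k hk).re := by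
  have h := Pool.Agent.GLD.W0_real hk
  rw [W0_same hk] at h
  exact ⟨h.1, h.2.1⟩

end Pool.Agent.PB
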