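import Pool.Agent.NUP1L.RowA
import Pool.Agent.NUP1L.RowE
import Pool.Agent.NU5.Main
import Pool.Agent.NU5.Lat
import Pool.Agent.NUTP.Gas.Final
import Pool.Agent.PB.RegG

/-!
# The regular two-point function at the rows `± l / 2` as the sum of the eleven integrals (helper39)

Stage A of the isotropy project, (T5). `hx k`, `hy k`: the rows above the second cut row and between the cut
rows of the honeycomb cylinder with `2 k` rows, period in the other symmetric direction (real parts `± l / 2`,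
alternating); `hp = l / 2`, `hq k = ± l / 2` the ends.
* **`WH_gas`** : `Bk k ^ 2 * Wk k` for every admissible data with these rows (in any order), every `k ≥ 2`:
  the same gas as `PBZ.W0_gas` (`RD (k - 1)`, the same range of `n`, the same lines), other rows and ends.
-/

set_option autoImplicit false
set_option linter.unusedSectionVars false
set_option linter.unusedVariables false

noncomputable section

open Complex MeasureTheory Filter Topology

namespace PBZ

open NUP1 PBX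
open NUTP (th ea)
open NUP1.N (E11 Bx PE)
open NUP1.Leg (Bp cc Ht hE hC)
open NUP1.Rws (pt0 alt rp im_ne pt0_box pt0_tendsto pt0_tendsto' pt0_re pt0_im rp_abs)
open Pool.Agent.NU5 (gasR Bk Wk GasData)

/-- rows of the species `X`: the numbers `k + 1, .., 2 k - 1` -/
def hxR (k : ℕ) (i : Fin (k - 1)) : ℂ := -Pool.Agent.NU5.ph (k + 1 + i.val)

/-- rows of the species `Y`: the numbers `1, .., k - 1` -/
def hyR (k : ℕ) (i : Fin (k - 1)) : ℂ := -Pool.Agent.NU5.ph (1 + i.val)

/-- the rows `X` at distinct heights -/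
def xH (k : ℕ) (e : ℝ) (i : Fin (k - 1)) : ℂ := alt (k + 1) 1 e i

/-- the rows `Y` at distinct heights -/
def yH (k : ℕ) (e : ℝ) (i : Fin (k - 1)) : ℂ := alt 1 (k + 1) e i

variable {k : ℕ} {e : ℝ}

theorem Ht_H (he : 0 < e) : Ht (pt0 0 (2 * k + 1) e) (pt0 0 (2 * k + 2) e)
    (pt0 k (2 * k + 3) e) (pt0 k (2 * k + 4) e) (xH k e) (yH k e) where
  xx i j hij := im_ne he (by
    intro h
    exact hij (Fin.ext (by omega)))
  yy i j hij := im_ne he (by
    intro h
    exact hij (Fin.ext (by omega)))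
  xy i j := im_ne he (by have := i.isLt; omega)
  hx i := im_ne he (by have := i.isLt; omega)
  hy i := im_ne he (by have := i.isLt; omega)
  gx i := im_ne he (by have := i.isLt; omega)
  gy i := im_ne he (by have := i.isLt; omega)
  hg := im_ne he (by omega)
  qx i := im_ne he (by have := i.isLt; omega)
  py i := im_ne he (by have := i.isLt; omega)

/-- generic lines -/
theorem G_H (he : 0 < e) : NUTP.G th (ea (-pt0 0 (2 * k + 1) e) :: ea (-pt0 0 (2 * k + 2) e) ::
    ea (-pt0 k (2 * k + 3) e) :: ea (-pt0 k (2 * k + 4) e) ::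
      ((List.ofFn fun i => ea (-xH k e i)) ++ List.ofFn fun i => ea (-yH k e i))) := by
  have e1 : (ea (-pt0 0 (2 * k + 1) e) :: ea (-pt0 0 (2 * k + 2) e) ::
      ea (-pt0 k (2 * k + 3) e) :: ea (-pt0 k (2 * k + 4) e) ::
      ((List.ofFn fun i => ea (-xH k e i)) ++ List.ofFn fun i => ea (-yH k e i))) =
      (-pt0 0 (2 * k + 1) e :: -pt0 0 (2 * k + 2) e :: -pt0 k (2 * k + 3) e :: -pt0 k (2 * k + 4) e ::
        ((List.ofFn fun i => -xH k e i) ++ List.ofFn fun i => -yH k e i)).map ea := by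
    simp [List.map_ofFn, Function.comp_def]
  rw [e1, NUTP.G_ea]
  have key : (-pt0 0 (2 * k + 1) e :: -pt0 0 (2 * k + 2) e :: -pt0 k (2 * k + 3) e ::
      -pt0 k (2 * k + 4) e :: ((List.ofFn fun i => -xH k e i) ++
        List.ofFn fun i => -yH k e i)).Pairwise fun z w => z.im ≠ w.im := by
    have im' : ∀ {c d c' d' : ℕ}, d ≠ d' → (-pt0 c d e).im ≠ (-pt0 c' d' e).im := by
      intro c d c' d' h h'
      rw [neg_im, neg_im, neg_inj] at h'
      exact im_ne he h h'
    simp only [List.pairwise_cons, List.pairwise_append, List.pairwise_ofFn, List.mem_cons,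
      List.mem_append, List.mem_ofFn]
    refine ⟨?_, ?_, ?_, ?_, ?_, ?_, ?_⟩
    · rintro z (rfl | rfl | rfl | ⟨i, rfl⟩ | ⟨i, rfl⟩)
      · exact im' (by omega)
      · exact im' (by omega)
      · exact im' (by omega)
      · exact im' (by have := i.isLt; omega)
      · exact im' (by have := i.isLt; omega)
    · rintro z (rfl | rfl | ⟨i, rfl⟩ | ⟨i, rfl⟩)
      · exact im' (by omega)
      · exact im' (by omega)
      · exact im' (by have := i.isLt; omega)
      · exact im' (by have := i.isLt; omega)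
    · rintro z (rfl | ⟨i, rfl⟩ | ⟨i, rfl⟩)
      · exact im' (by omega)
      · exact im' (by have := i.isLt; omega)
      · exact im' (by have := i.isLt; omega)
    · rintro z (⟨i, rfl⟩ | ⟨i, rfl⟩)
      · exact im' (by have := i.isLt; omega)
      · exact im' (by have := i.isLt; omega)
    · intro i j hij
      have : i.val < j.val := hij
      exact im' (by omega)
    · intro i j hij
      have : i.val < j.val := hij
      exact im' (by omega)
    · rintro z ⟨i, rfl⟩ w ⟨j, rfl⟩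
      exact im' (by have := i.isLt; have := j.isLt; omega)
  refine key.imp fun {z w} h n => ?_
  refine NUP1.sin_ne_im ?_
  have e2 : (z - w + (n : ℂ) * NUTP.lam).im = z.im - w.im := by
    rw [show NUTP.lam = (l : ℂ) from rfl]
    simp
  rw [e2]
  exact sub_ne_zero.2 h

theorem rp_eq (c : ℕ) : -Pool.Agent.NU5.ph c = (rp c : ℂ) := NUP1.Rws.ph_eq c

theorem rp_quarter (c : ℕ) : rp c ≠ l / 4 := by
  have hl := Bd.l_pos
  unfold rp
  split_ifs
  · linarith
  · linarith

/-- the data with given rows -/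
def rws {m : ℕ} (D : RD m) (x y : Fin m → ℂ) : RD m :=
  ⟨D.c, D.c', D.β, x, y, D.p, D.q, D.g, D.g', D.g0, D.g0'⟩

theorem E11_rws {m : ℕ} {D : RD m} {x y : Fin m → ℂ} (hx : PE D.x x) (hy : PE D.y y) (A B : ℝ) (n : ℕ) :
    E11 (3 / 5 * l) (-(17 / 10) * l) D.p D.q D.x D.y D.hX D.hY n n A B =
      E11 (3 / 5 * l) (-(17 / 10) * l) (rws D x y).p (rws D x y).q (rws D x y).x (rws D x y).y
        (rws D x y).hX (rws D x y).hY n n A B := by
  have a1 : D.hX = (rws D x y).hX := by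
    funext u
    unfold RD.hX PBX.ph
    rw [NUP1.Rws.hE_congr hx hy, hx fun v => psi D.β (u - v)]
    rfl
  have a2 : D.hY = (rws D x y).hY := by
    funext u
    unfold RD.hY PBX.ph
    rw [NUP1.Rws.hE_congr hy hx, hy fun v => psi D.β (u - v)]
    rfl
  rw [a1, a2, NUP1.N.E11_congr hx hy]
  rfl

/-- **The gas of two cut rows at the rows `± l / 2`.** -/
theorem gasR_H {a : ℝ} (ha : a = 31 / 50 ∨ a = 5 / 4) {D : RD (k - 1)} (O : D.Ok)
    (hβ : 1 < D.β) (hc : D.c = cc (k - 1)) (hc' : D.c' = cc (k - 1)) (hx : D.x = hxR k)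
    (hy : D.y = hyR k) (hp : D.p = -Pool.Agent.NU5.ph 0) (hq : D.q = -Pool.Agent.NU5.ph k) :
    Tendsto (fun e => gasR (List.ofFn fun i => ea (-xH k e i)) (List.ofFn fun i => ea (-yH k e i))
      (ea (-pt0 0 (2 * k + 1) e)) (ea (-pt0 0 (2 * k + 2) e)) (ea (-pt0 k (2 * k + 3) e))
      (ea (-pt0 k (2 * k + 4) e))) (𝓝[>] 0)
    (𝓝 (sin l * (Bp D.p D.q (hxR k) * Bp D.q D.p (hyR k)) *
      ∑ n ∈ Finset.range (2 * (k - 1) + 1),
        E11 (3 / 5 * l) (-(17 / 10) * l) D.p D.q D.x D.y D.hX D.hY n n (a * l)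
          (-(11 / 4) * l))) := by
  have hpos : ∀ᶠ e : ℝ in 𝓝[>] 0, 0 < e := self_mem_nhdsWithin
  have hle : ∀ᶠ e : ℝ in 𝓝[>] 0, e ≤ 1 := nhdsWithin_le_nhds (eventually_le_nhds one_pos)
  have hbox := hpos.and hle
  have bx : ∀ c d : ℕ, d ≤ 2 * k + 4 → ∀ᶠ e : ℝ in 𝓝[>] 0, Bx (2 * k + 4 : ℝ) (pt0 c d e) :=
    fun c d hd => hbox.mono fun e he => pt0_box he.1.le he.2 (by exact_mod_cast hd)
  have R0 : (0 : ℝ) ≤ 2 * k + 4 := by positivity
  have im0 : ∀ c : ℕ, |(-Pool.Agent.NU5.ph c).im| ≤ 2 * (k : ℝ) + 4 := by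
    intro c
    rw [rp_eq, ofReal_im, abs_zero]
    exact R0
  have key := O.RE_tendsto (F := 𝓝[>] (0 : ℝ)) (R := (2 * k + 4 : ℝ)) ha hβ hc hc'
    (p := pt0 0 (2 * k + 1)) (h := pt0 0 (2 * k + 2)) (q := pt0 k (2 * k + 3)) (g := pt0 k (2 * k + 4))
    (x := xH k) (y := yH k) (hpos.mono fun e he => Ht_H he) (bx _ _ (by omega)) (bx _ _ (by omega))
    (bx _ _ (by omega)) (bx _ _ (by omega))
    (Filter.eventually_all.2 fun i => bx _ _ (by have := i.isLt; omega))
    (Filter.eventually_all.2 fun i => bx _ _ (by have := i.isLt; omega))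
    (by rw [hp]; exact im0 _) (by rw [hq]; exact im0 _)
    (fun i => by rw [hx]; exact im0 _) (fun i => by rw [hy]; exact im0 _)
    (by rw [hp]; exact pt0_tendsto _ _) (by rw [hp]; exact pt0_tendsto _ _)
    (by rw [hq]; exact pt0_tendsto _ _) (by rw [hq]; exact pt0_tendsto _ _)
    (fun i => by rw [hx]; exact pt0_tendsto _ _) (fun i => by rw [hy]; exact pt0_tendsto _ _)
  rw [hx, hy] at key ⊢
  exact key

theorem gasData1 : GasData := fun q g => NUTP.Gas.gas_data NUTP.th8 one_ne_zero q g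

theorem PE_rfl {m : ℕ} (x : Fin m → ℂ) : PE x x := fun _ => rfl

theorem rws_Ok {m : ℕ} {D : RD m} (O : D.Ok) {x y : Fin m → ℂ} (hx : Rws x) (hy : Rws y)
    (nx : ∀ i, (x i).re ≠ l / 4) (ny : ∀ i, (y i).re ≠ l / 4) : (rws D x y).Ok :=
  ⟨O.b0, O.b1, hx, hy, O.hp, O.hq, nx, ny, O.gg, O.gg', O.gg0, O.gg0'⟩

theorem re_hx (c : ℕ) : (-Pool.Agent.NU5.ph c).re = rp c := by
  rw [rp_eq, ofReal_re]

/-- **The numerator of the regular two-point function at the rows `± l / 2`**, every `k ≥ 2` -/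
theorem WH_gas (h2 : 2 ≤ k) (hk : 1 ≤ k) {a : ℝ} (ha : a = 31 / 50 ∨ a = 5 / 4) {D : RD (k - 1)}
    (O : D.Ok) (hβ : 1 < D.β) (hc : D.c = cc (k - 1)) (hc' : D.c' = cc (k - 1)) (hx : PE D.x (hxR k))
    (hy : PE D.y (hyR k)) (hp : D.p = -Pool.Agent.NU5.ph 0) (hq : D.q = -Pool.Agent.NU5.ph k) :
    Bk k ^ 2 * Wk k hk =
      sin l * (Bp D.p D.q (hxR k) * Bp D.q D.p (hyR k)) *
      ∑ n ∈ Finset.range (2 * (k - 1) + 1),
        E11 (3 / 5 * l) (-(17 / 10) * l) D.p D.q D.x D.y D.hX D.hY n n (a * l)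
          (-(11 / 4) * l) := by
  have O' : (rws D (hxR k) (hyR k)).Ok := rws_Ok O
    (fun i => by
      show |(-Pool.Agent.NU5.ph (k + 1 + i.val)).re| ≤ l / 2
      rw [re_hx]
      exact rp_abs _)
    (fun i => by
      show |(-Pool.Agent.NU5.ph (1 + i.val)).re| ≤ l / 2
      rw [re_hx]
      exact rp_abs _)
    (fun i => by
      show (-Pool.Agent.NU5.ph (k + 1 + i.val)).re ≠ l / 4
      rw [re_hx]
      exact rp_quarter _)
    (fun i => by
      show (-Pool.Agent.NU5.ph (1 + i.val)).re ≠ l / 4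
      rw [re_hx]
      exact rp_quarter _)
  have h1 := gasR_H (k := k) ha O' hβ hc hc' rfl rfl hp hq
  have hpos : ∀ᶠ e : ℝ in 𝓝[>] 0, 0 < e := self_mem_nhdsWithin
  have h3 := Pool.Agent.NU5.RRk' (k := k) (l := 𝓝[>] (0 : ℝ)) (X := fun e i => -xH k e i)
    (Y := fun e i => -yH k e i) (ra := fun e => -pt0 0 (2 * k + 1) e)
    (rb := fun e => -pt0 0 (2 * k + 2) e) (rq := fun e => -pt0 k (2 * k + 3) e)
    (rg := fun e => -pt0 k (2 * k + 4) e) Pool.Agent.NU5.latData gasData1 h2 hk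
    (fun i => pt0_tendsto' _ _) (fun i => pt0_tendsto' _ _) (pt0_tendsto' _ _)
    (pt0_tendsto' _ _) (pt0_tendsto' _ _) (pt0_tendsto' _ _)
    (hpos.mono fun e he => G_H he)
  have h4 := tendsto_nhds_unique h3 h1
  rw [Finset.sum_congr rfl fun n _ => E11_rws hx hy (a * l) (-(11 / 4) * l) n]
  exact h4

end PBZ

end
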