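import Pool.Agent.PB.ObStep
import Pool.Agent.PB.WPc

/-!
# Plan B: the second Ward identity in the minus channel, form `PBE.WMi`

* `WMi.neg`, `M2.le`: signs, pointwise bounds;
* **`wmi_gen`**: the observable `V g + YO` (`YO` a function of the objects), insertions `Vm h`
  and `SN`: `WMi` from `FibN`, `FdW` (`mB β leg = 0`) and the second moments of the pieces.
-/

set_option autoImplicit false
set_option linter.unusedSectionVars false

noncomputable section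

open Complex MeasureTheory Finset
open scoped ENNReal

namespace PBFunc

variable {Ω : Type*} [MeasurableSpace Ω] {μ : Measure Ω} {w A B : Ω → ℂ} {K a b : ℝ}

theorem M2.le (h : M2 μ w K A a) (hle : ∀ ω, ‖B ω‖ ≤ ‖A ω‖) : M2 μ w K B a := by
  refine le_trans (lintegral_mono fun ω => ?_) h
  apply ENNReal.ofReal_le_ofReal
  exact mul_le_mul_of_nonneg_left (pow_le_pow_left₀ (norm_nonneg _) (hle ω) 2) (norm_nonneg _)

theorem M2.neg (h : M2 μ w K A a) : M2 μ w K (fun ω => -A ω) a := h.le fun ω => by rw [norm_neg]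

theorem L1.le (h : L1 μ w A a) (hle : ∀ ω, ‖B ω‖ ≤ ‖A ω‖) : L1 μ w B a := by
  refine le_trans (lintegral_mono fun ω => ?_) h
  apply ENNReal.ofReal_le_ofReal
  exact mul_le_mul_of_nonneg_left (hle ω) (norm_nonneg _)

theorem F_neg (w A : Ω → ℂ) : F μ w (fun ω => -A ω) = -F μ w A := by
  have := F_smul (μ := μ) w A (-1)
  rw [neg_one_mul] at this
  rw [← this]
  congr 1
  funext ω
  ring

end PBFunc

namespace PBE

open PBFunc

variable {Ω : Type*} [MeasurableSpace Ω] {μ : Measure Ω}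

/-- the opposite observable -/
theorem WMi.neg {y₁ y₂ a K θ δp M : ℝ} {w : Ω → ℂ} {V : (ℂ → ℂ) → Ω → ℂ} {S Y : Ω → ℂ}
    {C : (ℂ → ℂ) → ℂ} {Cs : ℂ} {D : (ℂ → ℂ) → Ω → ℂ} {Ds Q P : Ω → ℂ}
    (h : WMi y₁ y₂ a μ w K θ δp M V S Y C Cs D Ds Q P) :
    WMi y₁ y₂ a μ w K θ δp M V S (fun ω => -Y ω) (fun g => -C g) (-Cs) (fun g ω => -D g ω)
      (fun ω => -Ds ω) (fun ω => -Q ω) (fun ω => -P ω) where
  two M' k hk := by
    have e := h.two M' k hk
    have e1 : (fun ω => -Y ω * V k ω) = fun ω => -(Y ω * V k ω) := by funext ω; ring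
    have e2 : (fun ω => (-Q ω + -P ω) * V k ω) = fun ω => -((Q ω + P ω) * V k ω) := by
      funext ω; ring
    rw [e1, e2, F_neg, F_neg, F_neg, e]
    ring
  step := by
    have e := h.step
    have e1 : (fun ω => -Y ω * S ω) = fun ω => -(Y ω * S ω) := by funext ω; ring
    have e2 : (fun ω => (-Q ω + -P ω) * S ω) = fun ω => -((Q ω + P ω) * S ω) := by
      funext ω; ring
    rw [e1, e2, F_neg, F_neg, F_neg, e]
    ring
  mQ := h.mQ.neg
  mP := h.mP.neg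
  q2 := h.q2.neg
  mD M' k hk := (h.mD M' k hk).neg
  mDs := h.mDs.neg
  d2 M' k hk := (h.d2 M' k hk).neg
  ds2 := h.ds2.neg
  p2 M' k hk := (h.p2 M' k hk).le fun ω => by rw [neg_mul, norm_neg]
  ps := h.ps.le fun ω => by rw [neg_mul, norm_neg]

theorem WMi.congr {y₁ y₂ a K θ δp M : ℝ} {w : Ω → ℂ} {V : (ℂ → ℂ) → Ω → ℂ} {S Y Y' : Ω → ℂ}
    {C C' : (ℂ → ℂ) → ℂ} {Cs Cs' : ℂ} {D : (ℂ → ℂ) → Ω → ℂ} {Ds Q P : Ω → ℂ}
    (h : WMi y₁ y₂ a μ w K θ δp M V S Y C Cs D Ds Q P) (e : Y = Y')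
    (e1 : ∀ M' k, TC y₁ y₂ a M' k → C k = C' k) (e2 : Cs = Cs') :
    WMi y₁ y₂ a μ w K θ δp M V S Y' C' Cs' D Ds Q P where
  two M' k hk := by
    rw [← e, ← e1 M' k hk]
    exact h.two M' k hk
  step := by
    rw [← e, ← e2]
    exact h.step
  mQ := h.mQ
  mP := h.mP
  q2 := h.q2
  mD := h.mD
  mDs := h.mDs
  d2 := h.d2
  ds2 := h.ds2
  p2 := h.p2
  ps := h.ps

end PBE

namespace PBWP

open NUO NUP1 NUCR NUP1S NUP1S.Ab NUP1S.AbC NUGC PBFunc PBF

variable {N : ℕ} {Z : ℕ → Bool → Option O3 → ℂ → ℂ} {P : NUO.Par} {η η' : ℕ → Crs}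
  {c : ℕ → ℂ} {δ b0 b1 : ℝ} {κ : ℕ → ℝ} {LZ : ℕ → Bool → ℂ → ℂ}
  {LP : ℕ → (r : ℕ) → (Fin r → Xo) → Bool → ℂ → ℂ} {ρ : ℂ → ℂ}
  {β X g e leg cut : Bool → ℂ → ℂ}

/-- the derivative term: `∑ over the quanta of X f'`, `f = eM h` -/
def Dh (η : ℕ → Crs) (ρ : ℂ → ℂ) (X : Bool → ℂ → ℂ) (h : ℂ → ℂ) (C : ℂ) : CfN N → ℂ :=
  fun ω => evN (fun n => Vy 0 (η n) ρ fun s z => X s z * (eM s * deriv h z)) ω +
    ((∑ s, ∫ u : ℝ, ρ u * (X s u * (eM s * deriv h u))) - C)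

theorem DX_eq (X : Bool → ℂ → ℂ) (h : ℂ → ℂ) (C : ℂ) (ρ : ℂ → ℂ) (ω : CfN N) :
    evN (fun n => DX (XCy 0 (η n) X) (dSm (XCy 0 (η n) fun s => deriv fun z => eM s * h z))) ω =
      C + Dh η ρ X h C ω := by
  show DX (XCy 0 (η ω.1) X) (dSm (XCy 0 (η ω.1) fun s => deriv fun z => eM s * h z)) ω.2.1.1
    ω.2.2.1 ω.2.1.2.1 ω.2.1.2.2 ω.2.2.2 = _
  rw [DX_vy, Sy_eq (ρ := ρ)]
  simp only [deriv_const_mul_field]
  unfold Dh evN ev
  ring

theorem mS_sgD (s : Bool) (k : Option O3) : Measurable (sgD s k) := by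
  unfold sgD
  refine measurable_const.mul (PBOb.measurable_sgU.comp ?_)
  unfold PBOb.pf
  exact measurable_id.add measurable_const

/-- **the second Ward identity, minus channel** -/
theorem wmi_gen {y₁ y₂ a K θ δp M : ℝ}
    (h : FibN N Z (fun _ => P) η η' δ 0 b0 b1 κ LZ LP ρ)
    (w : FdW N η b1 LZ LP ρ β X g e leg cut) (h0 : mB β leg = 0)
    (hy1 : y₁ ≤ -b1) (hy2 : b1 ≤ y₂) (hb1 : b1 ≤ NUP1.l) (ha : 0 ≤ a)
    (hP : ∀ r, Measurable (P.rad r)) {YO : CfN N → ℂ}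
    (mYO : AEStronglyMeasurable YO (mN N)) (hK : 0 ≤ K) {a1 a2 a3 a4 : ℝ} (h1 : 0 ≤ a1)
    (h2 : 0 ≤ a2) (h3 : 0 ≤ a3) (h4 : 0 ≤ a4) (hM : 0 ≤ M) (hθ : 0 ≤ θ)
    (one : M2 (mN N) (wN Z (fun _ => P) N η η' c) K (fun _ => 1) 1)
    (g2 : M2 (mN N) (wN Z (fun _ => P) N η η' c) K (evN fun n => Vy 0 (η n) ρ g) a1)
    (e2 : M2 (mN N) (wN Z (fun _ => P) N η η' c) K (evN fun n => Vy 0 (η n) ρ e) a2)
    (q2 : M2 (mN N) (wN Z (fun _ => P) N η η' c) K
      (evN fun n => Qp (η n) ρ X e leg cut (LP n)) (M * θ))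
    (p3 : M2 (mN N) (wN Z (fun _ => P) N η η' c) K (evN fun n => Pp (LP n) β) a3)
    (y4 : M2 (mN N) (wN Z (fun _ => P) N η η' c) K YO a4)
    (v2m : ∀ M h, PBE.TC y₁ y₂ a M h →
      M2 (mN N) (wN Z (fun _ => P) N η η' c) K (Vm η h) M)
    (s2 : M2 (mN N) (wN Z (fun _ => P) N η η' c) K (SN P η) 1)
    {C : (ℂ → ℂ) → ℂ} {Cs : ℂ}
    (d2 : ∀ M' h, PBE.TC y₁ y₂ a M' h →
      M2 (mN N) (wN Z (fun _ => P) N η η' c) K (Dh η ρ X h (C h)) (M * M' * θ))
    (ds2 : M2 (mN N) (wN Z (fun _ => P) N η η' c) K (Dh η ρ X PB.NX.sgC Cs) (M * θ))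
    (p2 : ∀ M' h, PBE.TC y₁ y₂ a M' h → L1 (mN N) (wN Z (fun _ => P) N η η' c)
      (fun ω => (evN (fun n => Pp (LP n) β) ω + YO ω) * Vm η h ω) (M * M' * δp))
    (ps : L1 (mN N) (wN Z (fun _ => P) N η η' c)
      (fun ω => (evN (fun n => Pp (LP n) β) ω + YO ω) * SN P η ω) (M * δp)) :
    PBE.WMi y₁ y₂ a (mN N) (wN Z (fun _ => P) N η η' c) K θ δp M (Vm η) (SN P η)
      (fun ω => evN (fun n => Vy 0 (η n) ρ g) ω + YO ω) C Cs (fun h => Dh η ρ X h (C h))
      (Dh η ρ X PB.NX.sgC Cs) (evN fun n => Qp (η n) ρ X e leg cut (LP n))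
      (fun ω => evN (fun n => Pp (LP n) β) ω + YO ω) := by
  have hb1p := h.b1p
  have hy1' : y₁ < 0 := by linarith
  have hy2' : 0 < y₂ := by linarith
  set μ := mN N with hμ
  set ww := wN Z (fun _ => P) N η η' c with hww
  have mw : AEStronglyMeasurable ww μ := (wN_meas h.mZ).aestronglyMeasurable
  have mg : AEStronglyMeasurable (evN fun n => Vy 0 (η n) ρ g : CfN N → ℂ) μ :=
    (evN_meas fun n hn => MIn.vy (h.mc n hn) (h.hs n hn) h.b01 ρ w.gd).aestronglyMeasurable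
  have me : AEStronglyMeasurable (evN fun n => Vy 0 (η n) ρ e : CfN N → ℂ) μ :=
    (evN_meas fun n hn => MIn.vy (h.mc n hn) (h.hs n hn) h.b01 ρ w.ed).aestronglyMeasurable
  have mQ : AEStronglyMeasurable
      (evN fun n => Qp (η n) ρ X e leg cut (LP n) : CfN N → ℂ) μ :=
    (evN_meas fun n hn => w.mQ h hn).aestronglyMeasurable
  have mP : AEStronglyMeasurable (evN fun n => Pp (LP n) β : CfN N → ℂ) μ :=
    (evN_meas fun n hn => w.mP h hn).aestronglyMeasurable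
  have hTd : ∀ M' k, PBE.TC y₁ y₂ a M' k → ∀ s (z : ℂ), |z.im| < b1 →
      DifferentiableAt ℂ (fun z => eM s * k z) z :=
    fun M' k hk s z hz => (TC_dAt hk hy1 hy2 hz).const_mul _
  have mV : ∀ M' k, PBE.TC y₁ y₂ a M' k → AEStronglyMeasurable (Vm η k : CfN N → ℂ) μ := by
    intro M' k hk
    rw [Vm_evN ρ]
    exact (evN_meas fun n hn => MIn.vy (h.mc n hn) (h.hs n hn) h.b01 ρ
      (hTd M' k hk)).aestronglyMeasurable
  have mSA : ∀ n ≤ N, MIn (stA sgD P (η n)) := fun n hn => MIn_stA hP mS_sgD (h.mc n hn)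
  have mS : AEStronglyMeasurable (SN P η : CfN N → ℂ) μ := (evN_meas mSA).aestronglyMeasurable
  -- the derivative terms are measurable
  have hdd : ∀ (k : ℂ → ℂ), (∀ z : ℂ, |z.im| < b1 → DifferentiableAt ℂ k z) →
      ∀ s (z : ℂ), |z.im| < b1 → DifferentiableAt ℂ (fun z => X s z * (eM s * deriv k z)) z := by
    intro k hk s z hz
    have ho : IsOpen {w : ℂ | |w.im| < b1} := Pool.Agent.PB.strip_open b1
    have hd : DifferentiableOn ℂ k {w : ℂ | |w.im| < b1} :=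
      fun z hz => (hk z hz).differentiableWithinAt
    exact (w.fX.d s z hz).mul (((hd.deriv ho).differentiableAt (ho.mem_nhds hz)).const_mul _)
  have mD : ∀ (k : ℂ → ℂ), (∀ z : ℂ, |z.im| < b1 → DifferentiableAt ℂ k z) → ∀ C0 : ℂ,
      AEStronglyMeasurable (Dh η ρ X k C0 : CfN N → ℂ) μ := by
    intro k hk C0
    unfold Dh
    exact (evN_meas fun n hn => MIn.vy (h.mc n hn) (h.hs n hn) h.b01 ρ
      (hdd k hk)).aestronglyMeasurable.add aestronglyMeasurable_const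
  have hsg : ∀ z : ℂ, |z.im| < b1 → DifferentiableAt ℂ PB.NX.sgC z := fun z hz =>
    PB.NX.differentiableAt_sgC (by
      have : Real.pi / 8 = NUP1.l := rfl
      rw [this]; linarith)
  -- the identity for one insertion
  have key : ∀ (k : ℂ → ℂ) (Ψ : ℕ → Ins) (T : CfN N → ℂ) (C0 : ℂ) (m d : ℝ), 0 ≤ m → 0 ≤ d →
      evN Ψ = T → (∀ n ≤ N, PBF.InsD (η' n) (Ψ n)
        (dSm (XCy 0 (η n) fun s => deriv fun z => eM s * k z))) → (∀ n ≤ N, MIn (Ψ n)) →
      (∀ z : ℂ, |z.im| < b1 → DifferentiableAt ℂ k z) → M2 μ ww K T m →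
      M2 μ ww K (Dh η ρ X k C0) d →
      F μ ww (fun ω => (evN (fun n => Vy 0 (η n) ρ g) ω + YO ω) * T ω) =
        C0 * F μ ww (fun _ => 1) + F μ ww (Dh η ρ X k C0) +
        F μ ww (fun ω => (evN (fun n => Qp (η n) ρ X e leg cut (LP n)) ω +
          (evN (fun n => Pp (LP n) β) ω + YO ω)) * T ω) := by
    intro k Ψ T C0 m d hm hd hΨT hΨ mΨ hk mT mDk
    have mTm : AEStronglyMeasurable T μ := by
      rw [← hΨT]
      exact (evN_meas mΨ).aestronglyMeasurable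
    have wi : ∀ {A : CfN N → ℂ} {α : ℝ}, 0 ≤ α → AEStronglyMeasurable A μ →
        M2 μ ww K A α → WI μ ww fun ω => A ω * T ω := fun hα mA hA =>
      (hA.mul' hα hm hK mw mA mT).wi mw (mA.mul mTm)
    have wg := wi h1 mg g2
    have we := wi h2 me e2
    have wq := wi (by positivity : 0 ≤ M * θ) mQ q2
    have wp := wi h3 mP p3
    have wy := wi h4 mYO y4
    have wT : WI μ ww T := (mT.l1 hm hK mw mTm one).wi mw mTm
    have w1 : WI μ ww fun _ => 1 := by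
      have := (one.l1 zero_le_one hK mw aestronglyMeasurable_const one).wi mw
        (aestronglyMeasurable_const (b := (1 : ℂ)))
      exact this
    have wD : WI μ ww (Dh η ρ X k C0) := (mDk.l1 hd hK mw (mD k hk C0) one).wi mw (mD k hk C0)
    have eD : (evN fun n => DX (XCy 0 (η n) X)
        (dSm (XCy 0 (η n) fun s => deriv fun z => eM s * k z)) : CfN N → ℂ) =
        fun ω => C0 * 1 + Dh η ρ X k C0 ω := by
      funext ω
      rw [DX_eq X k C0 ρ ω, mul_one]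
    have wqp : WI μ ww fun ω => (evN (fun n => Qp (η n) ρ X e leg cut (LP n)) ω +
        evN (fun n => Pp (LP n) β) ω) * T ω := (wq.add wp).congr
          (Filter.Eventually.of_forall fun ω => by simp only []; ring)
    have key := ward_pc (c := c) h w (Ψ := Ψ)
      (dΨ := fun n => dSm (XCy 0 (η n) fun s => deriv fun z => eM s * k z)) hΨ mΨ
      (fun n hn r a b kk => meas_dvy (h.mc n hn) (h.hs n hn) h.b01
        (fun s z hz => (hk z hz).const_mul (eM s)) r a b kk)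
      (by rw [hΨT]; exact wg) (by rw [hΨT]; exact we) (by rw [hΨT]; exact wqp)
      (by rw [hΨT]; exact wT) (by rw [eD]; exact (w1.smul C0).add wD)
    rw [hΨT, h0, zero_mul, zero_add, eD] at key
    have eL : (fun ω => (evN (fun n => Vy 0 (η n) ρ g) ω + YO ω) * T ω) =
        fun ω => evN (fun n => Vy 0 (η n) ρ g) ω * T ω + YO ω * T ω := by
      funext ω
      ring
    have eR : (fun ω => (evN (fun n => Qp (η n) ρ X e leg cut (LP n)) ω +
          (evN (fun n => Pp (LP n) β) ω + YO ω)) * T ω) =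
        fun ω => (evN (fun n => Qp (η n) ρ X e leg cut (LP n)) ω +
          evN (fun n => Pp (LP n) β) ω) * T ω + YO ω * T ω := by
      funext ω
      ring
    rw [eL, eR, F_add wg wy, F_add wqp wy, key, F_add (w1.smul C0) wD, F_smul]
    ring
  exact
    { two := fun M' k hk => by
        refine key k (fun n => Vy 0 (η n) ρ fun s z => eM s * k z) (Vm η k) (C k) M'
          (M * M' * θ) (hk.nonneg hy1' hy2')
          (mul_nonneg (mul_nonneg hM (hk.nonneg hy1' hy2')) hθ) (Vm_evN ρ η k).symm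
          (fun n hn => PBF.InsD.vy (h.crv n hn) (h.hs n hn) h.b01 ρ
            (fldF_TC hk hy1 hy2 ha (hk.nonneg hy1' hy2') eM fun s => (PBOR.norm_eM s).le))
          (fun n hn => MIn.vy (h.mc n hn) (h.hs n hn) h.b01 ρ (hTd M' k hk))
          (fun z hz => TC_dAt hk hy1 hy2 hz) (v2m M' k hk) (d2 M' k hk)
      step := key PB.NX.sgC (fun n => stA sgD P (η n)) (SN P η) Cs 1 (M * θ) zero_le_one
        (mul_nonneg hM hθ) rfl
        (fun n hn => InsD.sn (h.crv n hn) (h.hs n hn) h.b01 hb1 P) mSA hsg s2 ds2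
      mQ := mQ
      mP := mP.add mYO
      q2 := q2
      mD := fun M' k hk => mD k (fun z hz => TC_dAt hk hy1 hy2 hz) _
      mDs := mD _ hsg _
      d2 := d2
      ds2 := ds2
      p2 := p2
      ps := ps }

end PBWP

end
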