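import Pool.Agent.PB.WPlus

/-!
# The second Ward identity of neutral test functions, plus channel, any mean field

* **`wplusG`**: `PBWP.wplus` with the mean field given by its pairing with the kernels.
-/

set_option autoImplicit false
set_option linter.unusedSectionVars false

noncomputable section

open Complex MeasureTheory Finset Filter Topology
open scoped ENNReal

namespace PBWP

open NUO NUP1 NUCR NUP1S NUP1S.Ab NUP1S.AbC NUGC PBFunc PBF
open PBE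
open Pool.Agent.PB (rl mV CV)

/-- **neutral test functions, plus channel**, any mean field -/
theorem wplusG {y₁ y₂ a κ κ₁ κ₂ b b' Y₁ Y₂ CQ CP : ℝ} (ha : 1 / 2 ≤ a) (ha2 : a < 2)
    (hκ2 : 0 ≤ κ₂) (hκ12 : κ₂ < κ₁) (hκ1 : κ₁ ≤ κ) (hκ : κ < a) (hκh : 1 / 2 ≤ κ)
    (hb' : 0 < b') (hb : b' < b) (hb1 : y₁ < -b) (hb2 : b < y₂) (hY1 : -b' ≤ Y₁)
    (hY2 : Y₂ ≤ b') (hCQ : 0 ≤ CQ) (hCP : 0 ≤ CP) :
    ∃ C : ℝ, 0 ≤ C ∧ ∀ {N : ℕ} {Z : ℕ → Bool → Option O3 → ℂ → ℂ} {P : ℕ → NUO.Par}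
      {η η' : ℕ → Crs} {c : ℕ → ℂ} {δ b0 : ℝ} {κf : ℕ → ℝ} {LZ : ℕ → Bool → ℂ → ℂ}
      {LP : (r : ℕ) → (Fin r → Xo) → Bool → ℂ → ℂ} {ρ : ℂ → ℂ} {c0 Nr : ℝ} {h0 : ℂ → ℂ}
      {cut : Bool → ℂ → ℂ} {mf : ℝ → ℂ} {M0 K q dp : ℝ}
      (_ : FibN N Z P η η' δ 0 b0 b' κf LZ (fun _ => LP) ρ) (_ : SeaL b c0 Nr ρ)
      (_ : ∀ (M' Mg : ℝ) (β g : ℂ → ℂ), TC (-b) b κ M' β → TC y₁ y₂ a Mg g →
        (∀ t : ℝ, PB.rsp (fun _ => β) true t = g t) →
        mB (fun _ => β) (fun _ => h0) = mV mf g) (_ : TC y₁ y₂ a M0 h0)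
      (_ : ∀ n ≤ N, ∀ r O s (t : ℝ), I * LZ n s (NUP1.l + I * zy 0 (η n r O) t) -
        PB.cV (deriv ρ) (zy 0 (η n r O) t) = h0 (zy 0 (η n r O) t) + cut s (zy 0 (η n r O) t))
      (_ : ∀ r O s, ∃ B : ℝ, ∀ t : ℝ, ‖obF LP r O s t‖ ≤ B)
      (_ : ∀ M β, 0 ≤ M → TC (-b) b κ M β → ∀ r O a b x, ‖Pp LP (fun _ => β) r O a b x‖ ≤
        CP * M * ∑ i : Fin r, Real.exp (-(q * |ht (O i)|)))
      (_ : ∀ M β e, 0 ≤ M → TC (-b) b κ M β →
        TC (-b') b' κ₂ (thX c0 Nr (κ - κ₁) 0 * M) e →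
        M2 (mN N) (wN Z P N η η' c) K (evN fun n => Qp (η n) ρ (fun _ => XS ρ 0 β) (fun _ => e)
          (fun _ => h0) cut LP) (CQ * (thX c0 Nr (κ - κ₁) 0 * M)))
      (_ : 0 ≤ K) (_ : 0 ≤ dp) (_ : PBU.MBd N Z P η η' c ρ Y₁ Y₂ K q dp),
      ∀ M g, TC y₁ y₂ a M g → mass g = 0 → ∃ (D : (ℂ → ℂ) → CfN N → ℂ) (Q P' : CfN N → ℂ),
        WPl y₁ y₂ a (mN N) (wN Z P N η η' c) K (C * thX c0 Nr (κ - κ₁) 0) (C * dp) M
          (fun h => evN fun n => Vy 0 (η n) ρ fun _ => h) g (mV mf g) (CV g) D Q P' := by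
  have hb0 : 0 < b := hb'.trans hb
  have h1 : y₁ < 0 := by linarith
  have h2 : 0 < y₂ := by linarith
  have ha0 : 0 ≤ a := by linarith
  have hκ10 : 0 < κ₁ := by linarith
  have hκ0 : 0 < κ := by linarith
  obtain ⟨C1, hC1, H⟩ := fldx_plus (y₁ := y₁) (y₂ := y₂) (by linarith : a < 8 / 3) hκ2 hκ12 hκ1
    hκ (by linarith : κ₁ < 2) hb' hb hb1 hb2
  obtain ⟨r0, hr0⟩ : ∃ r0 : ℝ, r0 = min (-b - y₁) (y₂ - b) := ⟨_, rfl⟩
  have hr : 0 < r0 := by
    rw [hr0]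
    exact lt_min (by linarith) (by linarith)
  have hr1 : y₁ + r0 ≤ -b := by
    have := min_le_left (-b - y₁) (y₂ - b)
    linarith
  have hr2 : b ≤ y₂ - r0 := by
    have := min_le_right (-b - y₁) (y₂ - b)
    linarith
  obtain ⟨E, hE⟩ : ∃ E : ℝ, E = Real.exp (a * r0) / r0 := ⟨_, rfl⟩
  have hE0 : 0 ≤ E := by rw [hE]; positivity
  refine ⟨C1 * (CQ + CP + E * (1 + 4 / κ₁)), by positivity, ?_⟩
  intro N Z P η η' c δ b0 κf LZ LP ρ c0 Nr h0 cut mf M0 K q dp hF hρ hm hh0 hl hLb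
    hP hQ hK hdp hM M g hg hmg
  have hM0 : 0 ≤ M := hg.nonneg h1 h2
  obtain ⟨β, tβ, rβ, H2⟩ := H M g hg hmg
  obtain ⟨tX, fX, e, te, re⟩ := H2 c0 Nr ρ hρ 0
  set ν := thX c0 Nr (κ - κ₁) 0 with hν
  have hν0 : 0 ≤ ν := thX_nonneg hρ.Np
  set X := XS ρ 0 β with hX
  simp only [ofReal_zero, sub_zero] at fX re
  -- derivatives of test functions on the real line
  have hder : ∀ M' h, TC y₁ y₂ a M' h → (Continuous fun t : ℝ => deriv h t) ∧
      ∀ t : ℝ, ‖deriv h t‖ ≤ M' * E := by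
    intro M' h hh
    have hM' := hh.nonneg h1 h2
    have hd := Pool.Agent.PB.TC_derivTC hh ha0 hM' hr
    refine ⟨Pool.Agent.PB.TC_cont hd (by linarith) (by linarith), fun t => ?_⟩
    have := TC.bdR hd (by linarith) (by linarith) ha0 t
    rw [hE]
    rwa [mul_div_assoc] at this
  have hobm : ∀ r O s, AEStronglyMeasurable (fun t : ℝ => obF LP r O s t) volume := fun r O s =>
    ((meas_obF (hF.mP 0 (Nat.zero_le N)) r s).comp
      (measurable_const.prodMk Complex.measurable_ofReal)).aestronglyMeasurable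
  have h0c := Pool.Agent.PB.TC_cont hh0 h1 h2
  have h0b := TC.bdR hh0 h1 h2 ha0
  -- the data of the field
  have w : FdW N η b' LZ (fun _ => LP) ρ (fun _ => β) (fun _ => X) (fun _ => g) (fun _ => e)
      (fun _ => h0) cut :=
  { fX := ⟨fun t z hz => fX.d t z (hz.trans hb), by
      obtain ⟨B, hB, h3⟩ := fX.bd
      exact ⟨B, hB, fun t z hz => h3 t z (hz.trans hb)⟩⟩
    rs := fun s z hz => (re z hz s).symm
    gd := fun s z hz => TC.dAt' hg (by linarith) (by linarith) hz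
    ed := fun s z hz => TC.dAt' te le_rfl le_rfl hz
    ig := fun s => int_rho hF.sea hF.b1p (fun z hz => TC.dAt' hg (by linarith) (by linarith) hz)
      (TC.bdR hg h1 h2 ha0)
    ie := fun s => int_rho hF.sea hF.b1p (fun z hz => TC.dAt' te le_rfl le_rfl hz)
      (TC.bdR te (by linarith) hb' hκ2)
    mβ := fun s => (Pool.Agent.PB.TC_cont tβ (by linarith) hb0).measurable
    hβ := fun s t => by
      have h3 := XS_mul (β := β) hρ 0 (z := (t : ℂ)) (by simpa using hb0)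
      simp only [ofReal_zero, add_zero] at h3
      rw [mul_comm]
      exact h3
    hl := hl
    i1 := fun s => int_mul_bdd tβ hb0 hκ0 h0c.aestronglyMeasurable h0b
    i2 := fun s => int_mul_bdd tX hb0 hκ10 h0c.aestronglyMeasurable h0b
    i3 := fun n hn r O s => by
      obtain ⟨B, hB⟩ := hLb r O s
      exact int_mul_bdd tβ hb0 hκ0 (hobm r O s) hB
    i4 := fun n hn r O s => by
      obtain ⟨B, hB⟩ := hLb r O s
      exact int_mul_bdd tX hb0 hκ10 (hobm r O s) hB }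
  have hrβ : ∀ t : ℝ, PB.rsp (fun _ => β) true t = g t := fun t =>
    rβ t (by simpa using hb0) true
  have em : mB (fun _ => β) (fun _ => h0) = mV mf g := hm _ _ β g tβ hg hrβ
  have hCM : 0 ≤ C1 * M := mul_nonneg hC1 hM0
  have hνCM : 0 ≤ ν * (C1 * M) := mul_nonneg hν0 hCM
  have eC : ∀ M' h, TC y₁ y₂ a M' h → ∑ _s : Bool, ∫ u : ℝ, ρ u * (X u * deriv h u) =
      CV g h + -2 * ∫ u : ℝ, X u * deriv h u := by
    intro M' h hh
    have h3 := sumD_plus hρ hb0 tβ hCM hκ10 hκ1 (by linarith) 0 (hder M' h hh).1 (hder M' h hh).2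
    simp only [ofReal_zero, sub_zero] at h3
    rw [h3, (Pool.Agent.PB.dictR_C tβ hκh hb0 hh ha hb0 hb1 hb2 hrβ).2]
    ring
  -- moments
  have hw : AEStronglyMeasurable (wN Z P N η η' c) (mN N) :=
    (wN_meas hF.mZ).aestronglyMeasurable
  have hmV : ∀ {f : Bool → ℂ → ℂ}, (∀ s (z : ℂ), |z.im| < b' → DifferentiableAt ℂ (f s) z) →
      AEStronglyMeasurable (evN fun n => Vy 0 (η n) ρ f) (mN N) := fun hd =>
    (evN_meas fun n hn => MIn.vy (hF.mc n hn) (hF.hs n hn) hF.b01 ρ hd).aestronglyMeasurable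
  have dV : ∀ {M' : ℝ} {h : ℂ → ℂ}, TC y₁ y₂ a M' h → ∀ (_ : Bool) (z : ℂ), |z.im| < b' →
      DifferentiableAt ℂ h z := fun hh _ z hz => TC.dAt' hh (by linarith) (by linarith) hz
  have mV' : ∀ {M' : ℝ} {h : ℂ → ℂ}, TC y₁ y₂ a M' h →
      M2 (mN N) (wN Z P N η η' c) K (evN fun n => Vy 0 (η n) ρ fun _ => h) M' := fun hh =>
    M2_vy hM hF.mc hF.hs hF.b01 (hh.nonneg h1 h2)
      (fun _ => BC_of hh ha0 (hh.nonneg h1 h2) (by linarith) (by linarith)) (dV hh)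
  have dE : ∀ (_ : Bool) (z : ℂ), |z.im| < b' → DifferentiableAt ℂ e z :=
    fun _ z hz => TC.dAt' te le_rfl le_rfl hz
  have mE : M2 (mN N) (wN Z P N η η' c) K (evN fun n => Vy 0 (η n) ρ fun _ => e)
      (ν * (C1 * M)) :=
    M2_vy hM hF.mc hF.hs hF.b01 hνCM (fun _ => BC_of te hκ2 hνCM hY1 hY2) dE
  have dX : ∀ {M' : ℝ} {h : ℂ → ℂ}, TC y₁ y₂ a M' h → ∀ (_ : Bool) (z : ℂ), |z.im| < b' →
      DifferentiableAt ℂ (fun z => X z * deriv h z) z := fun hh _ z hz =>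
    TC.dAt' (XD_TC tX hνCM hh ha0 (hh.nonneg h1 h2) hr hr1 hr2) (by linarith) hb.le hz
  have mX : ∀ {M' : ℝ} {h : ℂ → ℂ}, TC y₁ y₂ a M' h →
      M2 (mN N) (wN Z P N η η' c) K (evN fun n => Vy 0 (η n) ρ fun _ z => X z * deriv h z)
        (ν * (C1 * M) * (M' * E)) := fun {M' h} hh => by
    have hM' := hh.nonneg h1 h2
    have h3 := XD_TC tX hνCM hh ha0 hM' hr hr1 hr2
    have e1 : M' * Real.exp (a * r0) / r0 = M' * E := by rw [hE, mul_div_assoc]
    rw [e1] at h3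
    exact M2_vy hM hF.mc hF.hs hF.b01 (by positivity) (fun _ => BC_of h3 (by linarith)
      (by positivity) (by linarith) (by linarith)) (dX hh)
  have m1 : M2 (mN N) (wN Z P N η η' c) K (fun _ => 1) 1 := M2_one hM
  have mQ := hQ (C1 * M) β e hCM tβ te
  have sQ : AEStronglyMeasurable (evN fun n => Qp (η n) ρ (fun _ => X) (fun _ => e)
      (fun _ => h0) cut LP) (mN N) := (evN_meas fun n hn => w.mQ hF hn).aestronglyMeasurable
  have sP : AEStronglyMeasurable (evN fun _ => Pp LP fun _ => β) (mN N) :=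
    (evN_meas fun n hn => w.mP hF hn).aestronglyMeasurable
  have lP : L1 (mN N) (wN Z P N η η' c) (evN fun _ => Pp LP fun _ => β)
      (CP * (C1 * M) * dp) :=
    L1_pin hM (by positivity) fun _ r O a b x => hP (C1 * M) β hCM tβ r O a b x
  have lPV : ∀ {M' : ℝ} {h : ℂ → ℂ}, TC y₁ y₂ a M' h → L1 (mN N) (wN Z P N η η' c)
      (fun ω => evN (fun _ => Pp LP fun _ => β) ω * evN (fun n => Vy 0 (η n) ρ fun _ => h) ω)
      (CP * (C1 * M) * (M' * dp)) := fun hh =>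
    L1_pinv hM hF.mc hF.hs hF.b01 (hh.nonneg h1 h2)
      (fun _ => BC_of hh ha0 (hh.nonneg h1 h2) (by linarith) (by linarith)) (dV hh)
      (by positivity) fun _ r O a b x => hP (C1 * M) β hCM tβ r O a b x
  have hCQ' : 0 ≤ CQ * (ν * (C1 * M)) := mul_nonneg hCQ hνCM
  -- integrability
  have w1 : WI (mN N) (wN Z P N η η' c) fun _ => 1 :=
    (m1.l1 zero_le_one hK hw aestronglyMeasurable_const m1).wi hw aestronglyMeasurable_const
  have wV : ∀ {M' : ℝ} {h : ℂ → ℂ}, TC y₁ y₂ a M' h →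
      WI (mN N) (wN Z P N η η' c) (evN fun n => Vy 0 (η n) ρ fun _ => h) := fun hh =>
    ((mV' hh).l1 (hh.nonneg h1 h2) hK hw (hmV (dV hh)) m1).wi hw (hmV (dV hh))
  have wQP : WI (mN N) (wN Z P N η η' c) fun ω => evN (fun n => Qp (η n) ρ (fun _ => X)
      (fun _ => e) (fun _ => h0) cut LP) ω + evN (fun _ => Pp LP fun _ => β) ω :=
    ((mQ.l1 hCQ' hK hw sQ m1).wi hw sQ).add (lP.wi hw sP)
  refine ⟨fun h ω => evN (fun n => Vy 0 (η n) ρ fun _ z => X z * deriv h z) ω +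
    -2 * ∫ u : ℝ, X u * deriv h u, _, _, ?_, ?_, sQ, sP, ?_, ?_, ?_, ?_, ?_⟩
  · -- insertion 1
    have key := ward_pc_one (c := c) hF w (wV hg)
      ((mE.l1 hνCM hK hw (hmV dE) m1).wi hw (hmV dE)) wQP w1
    rw [em] at key
    exact key
  · -- insertion V h
    intro M' h hh
    have hM' := hh.nonneg h1 h2
    have fh : PB.FldF b' fun _ : Bool => h := ⟨dV hh, M', hM', fun _ z hz => by
      obtain ⟨h3, h4⟩ := abs_lt.1 hz
      exact (PBU.BC.of_TC hh ha0 hM').bd z ⟨by linarith, by linarith⟩⟩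
    have mh := mV' hh
    have key := ward_pc_vh (c := c) hF w fh
      (((mV' hg).mul' hM0 hM' hK hw (hmV (dV hg)) mh).wi hw ((hmV (dV hg)).mul (hmV (dV hh))))
      ((mE.mul' hνCM hM' hK hw (hmV dE) mh).wi hw ((hmV dE).mul (hmV (dV hh))))
      (by
        have e1 : (fun ω : CfN N => (evN (fun n => Qp (η n) ρ (fun _ => X) (fun _ => e)
            (fun _ => h0) cut LP) ω + evN (fun _ => Pp LP fun _ => β) ω) *
            evN (fun n => Vy 0 (η n) ρ fun _ => h) ω) = fun ω =>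
            evN (fun n => Qp (η n) ρ (fun _ => X) (fun _ => e) (fun _ => h0) cut LP) ω *
              evN (fun n => Vy 0 (η n) ρ fun _ => h) ω +
            evN (fun _ => Pp LP fun _ => β) ω * evN (fun n => Vy 0 (η n) ρ fun _ => h) ω := by
          funext ω
          ring
        rw [e1]
        exact ((mQ.mul' hCQ' hM' hK hw sQ mh).wi hw (sQ.mul (hmV (dV hh)))).add
          ((lPV hh).wi hw (sP.mul (hmV (dV hh)))))
      (wV hh) (((mX hh).l1 (by positivity) hK hw (hmV (dX hh)) m1).wi hw (hmV (dX hh))) w1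
    rw [em, eC M' h hh] at key
    rw [F_add (((mX hh).l1 (by positivity) hK hw (hmV (dX hh)) m1).wi hw (hmV (dX hh)))
      ((w1.smul (-2 * ∫ u : ℝ, X u * deriv h u)).congr (Eventually.of_forall fun ω => by
        simp only [mul_one]))]
    have e2 : F (mN N) (wN Z P N η η' c) (fun _ => -2 * ∫ u : ℝ, X u * deriv h u) =
        (-2 * ∫ u : ℝ, X u * deriv h u) * F (mN N) (wN Z P N η η' c) (fun _ => 1) := by
      rw [← F_smul]
      simp only [mul_one]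
    rw [e2]
    linear_combination key
  · -- Q
    refine mQ.mono hCQ' ?_ le_rfl hK
    have h3 : 0 ≤ ν * (C1 * M) * (CP + E * (1 + 4 / κ₁)) := by positivity
    linarith [h3]
  · -- P
    refine lP.mono ?_
    have h3 : 0 ≤ C1 * M * dp * (CQ + E * (1 + 4 / κ₁)) := by positivity
    linarith [h3]
  · -- D
    intro M' h hh
    exact (hmV (dX hh)).add aestronglyMeasurable_const
  · intro M' h hh
    have hM' := hh.nonneg h1 h2
    have hk : ‖-2 * ∫ u : ℝ, X u * deriv h u‖ ≤ 2 * (ν * (C1 * M) * (2 / κ₁) * (M' * E)) := by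
      have h3 := int_XD_le tX hb0 hκ10 hνCM 0 (f := fun u : ℝ => deriv h u) (hder M' h hh).2
      simp only [ofReal_zero, sub_zero] at h3
      rw [norm_mul]
      have h4 : ‖(-2 : ℂ)‖ = 2 := by simp
      rw [h4]
      linarith
    have h5 := PBWP.M2.add0 (by positivity) (norm_nonneg _) hK hw (hmV (dX hh)) (mX hh)
      (M2_const hM (-2 * ∫ u : ℝ, X u * deriv h u))
    refine h5.mono (by positivity) ?_ le_rfl hK
    have h6 : 0 ≤ ν * (C1 * M) * M' * (CQ + CP) := by positivity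
    calc _ ≤ ν * (C1 * M) * (M' * E) + 2 * (ν * (C1 * M) * (2 / κ₁) * (M' * E)) := by
          linarith
      _ = ν * (C1 * M) * M' * (E * (1 + 4 / κ₁)) := by ring
      _ ≤ _ := by linarith [h6]
  · intro M' h hh
    have hM' := hh.nonneg h1 h2
    refine (lPV hh).mono ?_
    have h3 : 0 ≤ C1 * M * M' * dp * (CQ + E * (1 + 4 / κ₁)) := by positivity
    linarith [h3]

end PBWP

end
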