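import Pool.Agent.PB.F0W

/-!
# Plan B: the Ward identity of the straight lines in derivative form (helper89)

The one body functions `Z` may vanish on the lines (cutoff of the strings T), so nothing is divided
by `Z`.  The field `Ξ b z` is a function of kind and complex position.

* `IzD`, `F0D`: sum over the constituents of the integrand with ONE factor `Z` replaced by `Zd`;
* `F0D_mul`: `Zd = φ Z` gives the linear statistic of `φ`; `F0D_add`;
* **`F0D_ward`**: `F0D (i Ξ Z') + F0 (∑ i Ξ' + pairs) = 0`;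
* **`F0D_deriv`**: derivative with respect to a parameter of `Z`.
-/

set_option autoImplicit false
set_option linter.unusedSectionVars false
set_option linter.unusedVariables false

noncomputable section

open Complex MeasureTheory Finset
open scoped Classical

namespace PB

open NUP1 NUP1.Bd NUP1S

variable {ι : Type*} [Fintype ι]

/-- the one body functions with the factor `k` replaced -/
def upd (k : ι) (h h' : ι → ℝ → ℂ) (i : ι) : ℝ → ℂ := if i = k then h' i else h i

theorem prod_upd (k : ι) (h h' : ι → ℝ → ℂ) (t : ι → ℝ) :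
    ∏ i, upd k h h' i (t i) = (∏ i ∈ univ.erase k, h i (t i)) * h' k (t k) := by
  rw [← Finset.prod_erase_mul univ _ (mem_univ k)]
  congr 1
  · refine Finset.prod_congr rfl fun i hi => ?_
    unfold upd
    rw [if_neg (Finset.ne_of_mem_erase hi)]
  · unfold upd
    rw [if_pos rfl]

/-- the partial derivative in the direction `k`, derivative form -/
def dPhiD (r : ι → ι → Prop) (h h' : ι → ℝ → ℂ) (w w' : ι → ι → ℝ → ℂ) (k : ι) (t : ι → ℝ) : ℂ :=
  Phi r (upd k h h') w t + ∑ p ∈ prs r,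
    ((if p.1 = k then (1 : ℂ) else 0) - (if p.2 = k then (1 : ℂ) else 0)) * PhiP r h w w' t p

theorem hasLineDerivAt_oneD {h h' : ι → ℝ → ℂ} (hh : ∀ i t, HasDerivAt (h i) (h' i t) t)
    (t : ι → ℝ) (k i : ι) :
    HasDerivAt (fun s : ℝ => h i ((t + s • (Pi.single k (1 : ℝ) : ι → ℝ)) i))
      (if i = k then h' k (t k) else 0) 0 := by
  have h1 : HasDerivAt (fun s : ℝ => h i ((t + s • (Pi.single k (1 : ℝ) : ι → ℝ)) i))
      ((if i = k then (1 : ℝ) else 0) • (h' i (t i))) 0 := by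
    have := (hh i ((t + (0 : ℝ) • (Pi.single k (1 : ℝ) : ι → ℝ)) i)).scomp (0 : ℝ)
      (hasDerivAt_coord t k i)
    rw [coord_zero] at this
    exact this
  by_cases hik : i = k
  · subst hik
    simpa only [if_true, one_smul] using h1
  · simpa only [if_neg hik, zero_smul] using h1

theorem hasLineDerivAt_PhiD {r : ι → ι → Prop} {h h' : ι → ℝ → ℂ} {w w' : ι → ι → ℝ → ℂ}
    (hh : ∀ i t, HasDerivAt (h i) (h' i t) t)
    (hw : ∀ i j u, HasDerivAt (w i j) (w' i j u) u) (k : ι) (t : ι → ℝ) :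
    HasLineDerivAt ℝ (Phi r h w) (dPhiD r h h' w w' k t) t (Pi.single k 1) := by
  unfold HasLineDerivAt
  have h1 := HasDerivAt.fun_finsetProd (u := (univ : Finset ι)) (x := (0 : ℝ))
    (f := fun i s => h i ((t + s • (Pi.single k (1 : ℝ) : ι → ℝ)) i))
    (f' := fun i => if i = k then h' k (t k) else 0)
    (fun i _ => hasLineDerivAt_oneD hh t k i)
  have h2 := HasDerivAt.fun_finsetProd (u := prs r) (x := (0 : ℝ))
    (f := fun p s => w p.1 p.2 ((t + s • (Pi.single k (1 : ℝ) : ι → ℝ)) p.1 -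
      (t + s • (Pi.single k (1 : ℝ) : ι → ℝ)) p.2))
    (f' := fun p => ((if p.1 = k then (1 : ℂ) else 0) - (if p.2 = k then (1 : ℂ) else 0)) *
        w' p.1 p.2 (t p.1 - t p.2))
    (fun p _ => hasLineDerivAt_two hw t k p)
  have h3 := h1.mul h2
  simp only [coord_zero] at h3
  have hfin : HasDerivAt (fun s : ℝ => Phi r h w (t + s • (Pi.single k (1 : ℝ) : ι → ℝ))) _ 0 := h3
  refine hfin.congr_deriv ?_
  unfold dPhiD Phi PhiP
  have e1 : (∑ i, (∏ j ∈ univ.erase i, h j (t j)) •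
      (if i = k then h' k (t k) else 0)) = ∏ i, upd k h h' i (t i) := by
    rw [Finset.sum_eq_single k]
    · rw [if_pos rfl, smul_eq_mul, prod_upd]
    · intro i _ hik
      simp [hik]
    · intro hk
      exact absurd (mem_univ k) hk
  rw [e1, Finset.mul_sum]
  congr 1
  refine Finset.sum_congr rfl fun p _ => ?_
  rw [smul_eq_mul]
  ring

/-- the sum of the partial derivatives at one configuration, derivative form -/
theorem sum_dPhiD_at {r : ι → ι → Prop} {h h' : ι → ℝ → ℂ} {w w' : ι → ι → ℝ → ℂ}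
    {ξ : ι → ℝ → ℂ} {a : ι → ι → ℝ → ℝ → ℂ} (t : ι → ℝ)
    (ha : ∀ p ∈ prs r, (ξ p.1 (t p.1) - ξ p.2 (t p.2)) * w' p.1 p.2 (t p.1 - t p.2) =
      a p.1 p.2 (t p.1) (t p.2) * w p.1 p.2 (t p.1 - t p.2)) :
    ∑ k, ξ k (t k) * dPhiD r h h' w w' k t =
      (∑ k, ξ k (t k) * Phi r (upd k h h') w t) +
        (∑ p ∈ prs r, a p.1 p.2 (t p.1) (t p.2)) * Phi r h w t := by
  have e := sum_dPhi_at (r := r) (h := h) (κ := fun _ _ => 0) (w := w) (w' := w') (ξ := ξ) (a := a)
    t ha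
  have e2 : ∑ k, ξ k (t k) * dPhiD r h h' w w' k t =
      (∑ k, ξ k (t k) * Phi r (upd k h h') w t) +
        ∑ k, ξ k (t k) * dPhi r h (fun _ _ => 0) w w' k t := by
    rw [← Finset.sum_add_distrib]
    refine Finset.sum_congr rfl fun k _ => ?_
    unfold dPhiD dPhi
    ring
  rw [e2, e]
  simp

section cls

variable {o : ι → CO} {h h' : ι → ℂ → ℂ} {x : ι → ℝ} {κ : ℝ}

theorem hasDerivAt_hTD (hL : ∀ i z, z.re = x i → HasDerivAt (h i) (h' i z) z) (i : ι) (t : ℝ) :
    HasDerivAt (hT h x i) (I * h' i (vl (x i) t)) t := by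
  have h2 := (hL i (vl (x i) t) (by rw [re_vl])).comp t (hasDerivAt_vl (x i) t)
  refine h2.congr_deriv ?_
  ring

/-- the factor `k` replaced -/
def updC (k : ι) (h h' : ι → ℂ → ℂ) (i : ι) : ℂ → ℂ := if i = k then h' i else h i

theorem Phi_upd (k : ι) (t : ι → ℝ) :
    Phi (er ι) (upd k (hT h x) fun i t => I * h' i (vl (x i) t)) (wT o x) t =
      I * Fg o (updC k h h') (pos x t) := by
  rw [Fg_eq_Phi]
  unfold Phi
  rw [prod_upd]
  have e : ∏ i, hT (updC k h h') x i (t i) =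
      (∏ i ∈ univ.erase k, hT h x i (t i)) * h' k (vl (x k) (t k)) := by
    rw [← Finset.prod_erase_mul univ _ (mem_univ k)]
    congr 1
    · refine Finset.prod_congr rfl fun i hi => ?_
      unfold hT updC
      rw [if_neg (Finset.ne_of_mem_erase hi)]
    · unfold hT updC
      rw [if_pos rfl]
  rw [e]
  ring

theorem int_updC (hn : ∑ i, sc (o i) = 0) (hκ : 0 < κ) (hm : ∀ i, Measurable (h i))
    (hm' : ∀ i, Measurable (h' i)) (hh : ∀ i, DecOn κ {x i} (h i))
    (hh' : ∀ i, DecOn κ {x i} (h' i)) (hg : ∀ a b, a ≠ b → Ok (o a) (o b) (x a - x b)) (k : ι) :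
    Integrable fun t => Fg o (updC k h h') (pos x t) := by
  refine integrable_Fg hn hκ (fun i => ?_) (fun i => ?_) hg
  · unfold updC
    split_ifs
    · exact hm' i
    · exact hm i
  · unfold updC
    split_ifs
    · exact hh' i
    · exact hh i

theorem int_dPhiD (hn : ∑ i, sc (o i) = 0) (hκ : 0 < κ) (hm : ∀ i, Measurable (h i))
    (hm' : ∀ i, Measurable (h' i)) (hh : ∀ i, DecOn κ {x i} (h i))
    (hh' : ∀ i, DecOn κ {x i} (h' i))
    (hg : ∀ a b, a ≠ b → Ok (o a) (o b) (x a - x b)) (k : ι) :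
    Integrable fun t => dPhiD (er ι) (hT h x) (fun i t => I * h' i (vl (x i) t)) (wT o x)
      (wT' o x) k t := by
  unfold dPhiD
  refine Integrable.add ?_ (integrable_finsetSum _ fun p hp => ?_)
  · exact ((int_updC hn hκ hm hm' hh hh' hg k).const_mul I).congr
      (Filter.Eventually.of_forall fun t => (Phi_upd k t).symm)
  · exact (int_PhiP hn hκ hm hh hg p hp).const_mul _

/-- **the Ward identity of a class, derivative form** -/
theorem ward_IgD (hn : ∑ i, sc (o i) = 0) (hκ : 0 < κ) (hm : ∀ i, Measurable (h i))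
    (hm' : ∀ i, Measurable (h' i)) (hh : ∀ i, DecOn κ {x i} (h i))
    (hh' : ∀ i, DecOn κ {x i} (h' i))
    (hL : ∀ i z, z.re = x i → HasDerivAt (h i) (h' i z) z)
    (hg : ∀ a b, a ≠ b → Ok (o a) (o b) (x a - x b))
    {ξ dξ : ι → ℝ → ℂ} {B : ℝ} (hξ : ∀ i t, HasDerivAt (ξ i) (dξ i t) t)
    (hξB : ∀ i t, ‖ξ i t‖ ≤ B) (hdB : ∀ i t, ‖dξ i t‖ ≤ B)
    {a : ι → ι → ℝ → ℝ → ℂ} (ha : ∀ i j s t, i ≠ j → s ≠ t → a i j s t =
      (ξ i s - ξ j t) * (I * lz (o i) (o j) (vl (x i) s - vl (x j) t))) :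
    ∫ t : ι → ℝ, ((∑ k, (I * ξ k (t k)) * Fg o (updC k h h') (pos x t)) +
      (∑ k, dξ k (t k) + ∑ p ∈ prs (er ι), a p.1 p.2 (t p.1) (t p.2)) *
        Fg o h (pos x t)) = 0 := by
  have mξ : ∀ i, Measurable (ξ i) := fun i =>
    (continuous_iff_continuousAt.2 fun t => (hξ i t).continuousAt).measurable
  have mdξ : ∀ i, Measurable (dξ i) := fun i => by
    have : dξ i = deriv (ξ i) := funext fun t => ((hξ i t).deriv).symm
    rw [this]
    exact measurable_deriv _
  have mξ' : ∀ k, AEStronglyMeasurable (fun t : ι → ℝ => ξ k (t k)) := fun k =>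
    ((mξ k).comp (measurable_pi_apply k)).aestronglyMeasurable
  have mdξ' : ∀ k, AEStronglyMeasurable (fun t : ι → ℝ => dξ k (t k)) := fun k =>
    ((mdξ k).comp (measurable_pi_apply k)).aestronglyMeasurable
  have iP := int_Phi hn hκ hm hh hg
  have iD := int_dPhiD hn hκ hm hm' hh hh' hg
  have h0 : ∀ k, Integrable (fun t : ι → ℝ => ξ k (t k) * Phi (er ι) (hT h x) (wT o x) t) :=
    fun k => int_mul iP (mξ' k) fun t => hξB k _
  have h1 : ∀ k, Integrable (fun t : ι → ℝ => dξ k (t k) * Phi (er ι) (hT h x) (wT o x) t) :=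
    fun k => int_mul iP (mdξ' k) fun t => hdB k _
  have h3 : ∀ k, Integrable (fun t : ι → ℝ => ξ k (t k) * dPhiD (er ι) (hT h x)
      (fun i t => I * h' i (vl (x i) t)) (wT o x) (wT' o x) k t) :=
    fun k => int_mul (iD k) (mξ' k) fun t => hξB k _
  have key : ∀ k, ∫ t : ι → ℝ, (dξ k (t k) * Phi (er ι) (hT h x) (wT o x) t +
      ξ k (t k) * dPhiD (er ι) (hT h x) (fun i t => I * h' i (vl (x i) t)) (wT o x)
        (wT' o x) k t) = 0 := by
    intro k
    refine integral_lineDeriv_zero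
      (f := fun t : ι → ℝ => ξ k (t k) * Phi (er ι) (hT h x) (wT o x) t)
      (v := Pi.single k 1) (h0 k) ((h1 k).add (h3 k)) fun t => ?_
    have e1 : HasLineDerivAt ℝ (fun t : ι → ℝ => ξ k (t k)) (dξ k (t k)) t (Pi.single k 1) := by
      unfold HasLineDerivAt
      have := (hξ k ((t + (0 : ℝ) • (Pi.single k (1 : ℝ) : ι → ℝ)) k)).scomp (0 : ℝ)
        (hasDerivAt_coord t k k)
      rw [coord_zero, if_pos rfl, one_smul] at this
      exact this
    have e3 := hasLineDerivAt_PhiD (r := er ι) (hasDerivAt_hTD hL) (hasDerivAt_wT hg) k t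
    unfold HasLineDerivAt at e1 e3 ⊢
    have h4 : HasDerivAt (fun s : ℝ => ξ k ((t + s • (Pi.single k (1 : ℝ) : ι → ℝ)) k) *
          Phi (er ι) (hT h x) (wT o x) (t + s • (Pi.single k (1 : ℝ) : ι → ℝ))) _ 0 :=
      e1.mul e3
    refine h4.congr_deriv ?_
    simp only [zero_smul, add_zero]
  have hs : ∫ t : ι → ℝ, ∑ k, (dξ k (t k) * Phi (er ι) (hT h x) (wT o x) t +
      ξ k (t k) * dPhiD (er ι) (hT h x) (fun i t => I * h' i (vl (x i) t)) (wT o x)
        (wT' o x) k t) = 0 := by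
    have := integral_finsetSum (μ := (volume : Measure (ι → ℝ))) Finset.univ
      (f := fun k t => dξ k (t k) * Phi (er ι) (hT h x) (wT o x) t +
      ξ k (t k) * dPhiD (er ι) (hT h x) (fun i t => I * h' i (vl (x i) t)) (wT o x)
        (wT' o x) k t)
      fun k _ => (h1 k).add (h3 k)
    rw [this]
    exact Finset.sum_eq_zero fun k _ => key k
  rw [← hs]
  have hae : ∀ᵐ t : ι → ℝ, ∀ a b, a ≠ b → t a ≠ t b := ae_ne
  refine integral_congr_ae (hae.mono fun t ht => ?_)
  simp only []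
  have hne : ∀ p ∈ prs (er ι), p.1 ≠ p.2 := by
    intro p hp h0
    have : er ι p.1 p.2 := by simpa [prs] using hp
    rw [h0] at this
    exact (tour_er ι).irr _ this
  have e := sum_dPhiD_at (r := er ι) (h := hT h x) (h' := fun i t => I * h' i (vl (x i) t))
    (w := wT o x) (w' := wT' o x) (ξ := ξ) (a := a) t fun p hp =>
      pair_rel (ht p.1 p.2 (hne p hp)) (ha p.1 p.2 _ _ (hne p hp) (ht p.1 p.2 (hne p hp)))
  rw [Finset.sum_add_distrib, e]
  simp_rw [Phi_upd]
  rw [Fg_eq_Phi, ← Finset.sum_mul]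
  have e4 : ∑ k, ξ k (t k) * (I * Fg o (updC k h h') (pos x t)) =
      ∑ k, (I * ξ k (t k)) * Fg o (updC k h h') (pos x t) :=
    Finset.sum_congr rfl fun k _ => by ring
  rw [e4]
  ring

end cls

end PB

namespace PBI

open NUP1 NUP1S NUP1.Bd NURow PB

section one

variable {ι : Type} [Fintype ι]

/-- the sum over the constituents with one factor replaced -/
def IzD (c : ι → Bool × Option O3) (x : ι → ℝ) (Z Zd : Stt) : ℂ :=
  ∫ t : ι → ℝ, ∑ k, Fg (fun i => co (c i))
    (updC k (fun i => Z (c i).1 (c i).2) fun i => Zd (c i).1 (c i).2) (pos x t)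
    ∂(Measure.pi fun _ => volume)

theorem Fg_updC (o : ι → CO) (k : ι) (h d : ι → ℂ → ℂ) (z : ι → ℂ) :
    Fg o (updC k h d) z = ((∏ j ∈ univ.erase k, h j (z j)) * d k (z k)) *
      PU fun a b => gz (o a) (o b) (z a - z b) := by
  unfold Fg
  congr 1
  rw [← Finset.prod_erase_mul univ _ (mem_univ k)]
  congr 1
  · refine Finset.prod_congr rfl fun j hj => ?_
    unfold updC
    rw [if_neg (Finset.ne_of_mem_erase hj)]
  · unfold updC
    rw [if_pos rfl]

variable {c : ι → Bool × Option O3} {x : ι → ℝ} {Z Zd Zd' : Stt} {κ D D' : ℝ}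

theorem int_IzD (hκ : 0 < κ) (hn : ∑ i, sc (co (c i)) = 0) (hok : LnOk c x)
    (hm : ∀ s k, Measurable (Z s k)) (hmd : ∀ s k, Measurable (Zd s k)) (hZ : ZBd c x κ D Z)
    (hZd : ZBd c x κ D' Zd) (k : ι) :
    Integrable (fun t : ι → ℝ => Fg (fun i => co (c i))
      (updC k (fun i => Z (c i).1 (c i).2) fun i => Zd (c i).1 (c i).2) (pos x t))
      (Measure.pi fun _ => volume) :=
  int_updC hn hκ (fun i => hm _ _) (fun i => hmd _ _) (fun i => hZ.dec i) (fun i => hZd.dec i) hok k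

theorem IzD_add (hκ : 0 < κ) (hn : ∑ i, sc (co (c i)) = 0) (hok : LnOk c x)
    (hm : ∀ s k, Measurable (Z s k)) (hmd : ∀ s k, Measurable (Zd s k))
    (hmd' : ∀ s k, Measurable (Zd' s k)) (hZ : ZBd c x κ D Z)
    (hZd : ZBd c x κ D' Zd) (hZd' : ZBd c x κ D' Zd') :
    IzD c x Z (fun s k z => Zd s k z + Zd' s k z) = IzD c x Z Zd + IzD c x Z Zd' := by
  unfold IzD
  rw [← integral_add (integrable_finsetSum _ fun k _ => int_IzD hκ hn hok hm hmd hZ hZd k)
    (integrable_finsetSum _ fun k _ => int_IzD hκ hn hok hm hmd' hZ hZd' k)]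
  refine integral_congr_ae (Filter.Eventually.of_forall fun t => ?_)
  simp only []
  rw [← Finset.sum_add_distrib]
  refine Finset.sum_congr rfl fun k _ => ?_
  rw [Fg_updC, Fg_updC, Fg_updC]
  ring

/-- a replaced factor which is a multiple: the linear statistic -/
theorem IzD_mul {φ : Stt} (h : ∀ i, ∀ t : ℝ, Zd (c i).1 (c i).2 (vl (x i) t) =
      φ (c i).1 (c i).2 (vl (x i) t) * Z (c i).1 (c i).2 (vl (x i) t)) :
    IzD c x Z Zd = Iz c x Z (St φ) := by
  unfold IzD Iz
  refine integral_congr_ae (Filter.Eventually.of_forall fun t => ?_)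
  simp only [St, Fz]
  rw [Finset.sum_mul]
  refine Finset.sum_congr rfl fun i _ => ?_
  rw [Fg_updC]
  unfold Fg
  have e : Zd (c i).1 (c i).2 (pos x t i) = φ (c i).1 (c i).2 (pos x t i) *
      Z (c i).1 (c i).2 (pos x t i) := h i (t i)
  rw [e, ← Finset.prod_erase_mul univ (fun i => Z (c i).1 (c i).2 (pos x t i)) (mem_univ i)]
  ring

/-- the field of a kind on a line -/
structure FdOk (c : ι → Bool × Option O3) (x : ι → ℝ) (B : ℝ)
    (Ξ Ξ' : Bool × Option O3 → ℂ → ℂ) : Prop where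
  d : ∀ i, ∀ t : ℝ, HasDerivAt (Ξ (c i)) (Ξ' (c i) (vl (x i) t)) (vl (x i) t)
  b : ∀ i, ∀ t : ℝ, ‖Ξ (c i) (vl (x i) t)‖ ≤ B
  b' : ∀ i, ∀ t : ℝ, ‖Ξ' (c i) (vl (x i) t)‖ ≤ B

/-- integrability of the insertion of the Ward identity -/
theorem IzOk_ward (hκ : 0 < κ) (hn : ∑ i, sc (co (c i)) = 0) (hok : LnOk c x)
    (hm : ∀ s k, Measurable (Z s k)) (hZ : ZBd c x κ D Z)
    {B : ℝ} {Ξ Ξ' : Bool × Option O3 → ℂ → ℂ} (hΞ : FdOk c x B Ξ Ξ')
    (hmΞ : ∀ b, Measurable (Ξ b)) (hmΞ' : ∀ b, Measurable (Ξ' b))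
    {a : Bool × Option O3 → Bool × Option O3 → ℂ → ℂ → ℂ}
    (ha : ∀ i j, ∀ s t : ℝ, i ≠ j → s ≠ t → a (c i) (c j) (vl (x i) s) (vl (x j) t) =
      (Ξ (c i) (vl (x i) s) - Ξ (c j) (vl (x j) t)) *
        (I * lz (co (c i)) (co (c j)) (vl (x i) s - vl (x j) t))) :
    IzOk c x Z (fun ι _ c z => St (fun s k z => I * Ξ' (s, k) z) ι c z + w2 a ι c z) := by
  have hP : Integrable (fun t : ι → ℝ => Fg (fun i => co (c i))
      (fun i => Z (c i).1 (c i).2) (pos x t)) (Measure.pi fun _ => volume) :=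
    integrable_Fg hn hκ (fun i => hm _ _) (fun i => hZ.dec i) hok
  have hA : Integrable (fun t : ι → ℝ => (∑ k, I * Ξ' (c k) (vl (x k) (t k))) *
      Fg (fun i => co (c i)) (fun i => Z (c i).1 (c i).2) (pos x t))
      (Measure.pi fun _ => volume) := by
    refine hP.bdd_mul (c := Fintype.card ι * B) ?_ (Filter.Eventually.of_forall fun t => ?_)
    · exact (Finset.measurable_fun_sum _ fun k _ =>
        ((hmΞ' (c k)).comp (measurable_pos x k)).const_mul I).aestronglyMeasurable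
    · refine (norm_sum_le _ _).trans ?_
      calc _ ≤ ∑ _i : ι, B := Finset.sum_le_sum fun i _ => by
            rw [norm_mul, norm_I, one_mul]
            exact hΞ.b' i (t i)
        _ = _ := by rw [Finset.sum_const, Finset.card_univ, nsmul_eq_mul]
  have hB : Integrable (fun t : ι → ℝ => (∑ p ∈ prs (er ι),
      a (c p.1) (c p.2) (vl (x p.1) (t p.1)) (vl (x p.2) (t p.2))) *
      Fg (fun i => co (c i)) (fun i => Z (c i).1 (c i).2) (pos x t))
      (Measure.pi fun _ => volume) := by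
    simp_rw [Finset.sum_mul]
    refine integrable_finsetSum _ fun p hp => ?_
    have hne : p.1 ≠ p.2 := by
      intro h0
      have : er ι p.1 p.2 := by simpa [prs] using hp
      rw [h0] at this
      exact (tour_er ι).irr _ this
    -- the product with the pair is the pair differentiated
    have hpp := int_PhiP (o := fun i => co (c i)) (h := fun i => Z (c i).1 (c i).2) (x := x)
      hn hκ (fun i => hm _ _) (fun i => hZ.dec i) hok p hp
    have hpq : Integrable (fun t : ι → ℝ => (Ξ (c p.1) (vl (x p.1) (t p.1)) -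
        Ξ (c p.2) (vl (x p.2) (t p.2))) * PhiP (er ι) (hT (fun i => Z (c i).1 (c i).2) x)
          (wT (fun i => co (c i)) x) (wT' (fun i => co (c i)) x) t p)
        (Measure.pi fun _ => volume) := by
      refine Integrable.bdd_mul (c := B + B) hpp ?_ (Filter.Eventually.of_forall fun t => ?_)
      · exact (((hmΞ _).comp (measurable_pos x p.1)).sub
          ((hmΞ _).comp (measurable_pos x p.2))).aestronglyMeasurable
      · exact (norm_sub_le _ _).trans (add_le_add (hΞ.b _ _) (hΞ.b _ _))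
    refine hpq.congr ?_
    have hae : ∀ᵐ t : ι → ℝ ∂(Measure.pi fun _ => volume), ∀ a b, a ≠ b → t a ≠ t b := ae_ne
    refine hae.mono fun t ht => ?_
    simp only []
    rw [Fg_eq_Phi]
    unfold PhiP Phi
    rw [← Finset.mul_prod_erase (prs (er ι)) (fun q => wT (fun i => co (c i)) x q.1 q.2
      (t q.1 - t q.2)) hp]
    have := pair_rel (o := fun i => co (c i)) (x := x) (i := p.1) (j := p.2)
      (ht p.1 p.2 hne) (ha p.1 p.2 _ _ hne (ht p.1 p.2 hne))
    calc _ = (∏ i, hT (fun i => Z (c i).1 (c i).2) x i (t i)) *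
        (((Ξ (c p.1) (vl (x p.1) (t p.1)) - Ξ (c p.2) (vl (x p.2) (t p.2))) *
          wT' (fun i => co (c i)) x p.1 p.2 (t p.1 - t p.2)) *
        ∏ q ∈ (prs (er ι)).erase p, wT (fun i => co (c i)) x q.1 q.2 (t q.1 - t q.2)) := by
          ring
      _ = _ := by rw [this]; ring
  refine (hA.add hB).congr (Filter.Eventually.of_forall fun t => ?_)
  simp only [Pi.add_apply]
  rw [← add_mul]
  rfl

/-- **the Ward identity of a word, derivative form** -/
theorem IzD_ward (hκ : 0 < κ) (hn : ∑ i, sc (co (c i)) = 0) (hok : LnOk c x)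
    (hm : ∀ s k, Measurable (Z s k)) {Z' : Stt} (hm' : ∀ s k, Measurable (Z' s k))
    (hZ : ZBd c x κ D Z) (hZ' : ZBd c x κ D' Z')
    (hd : ∀ i, ∀ t : ℝ, HasDerivAt (Z (c i).1 (c i).2) (Z' (c i).1 (c i).2 (vl (x i) t))
      (vl (x i) t)) {B : ℝ} {Ξ Ξ' : Bool × Option O3 → ℂ → ℂ} (hΞ : FdOk c x B Ξ Ξ')
    (hmΞ : ∀ b, Measurable (Ξ b)) (hmΞ' : ∀ b, Measurable (Ξ' b))
    {a : Bool × Option O3 → Bool × Option O3 → ℂ → ℂ → ℂ}
    (ha : ∀ i j, ∀ s t : ℝ, i ≠ j → s ≠ t → a (c i) (c j) (vl (x i) s) (vl (x j) t) =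
      (Ξ (c i) (vl (x i) s) - Ξ (c j) (vl (x j) t)) *
        (I * lz (co (c i)) (co (c j)) (vl (x i) s - vl (x j) t))) :
    IzD c x Z (fun s k z => I * Ξ (s, k) z * Z' s k z) +
      Iz c x Z (fun ι _ c z => St (fun s k z => I * Ξ' (s, k) z) ι c z + w2 a ι c z) = 0 := by
  have key := ward_IgD (ι := ι) (o := fun i => co (c i)) (h := fun i => Z (c i).1 (c i).2)
    (h' := fun i => Z' (c i).1 (c i).2) (x := x) hn hκ
    (fun i => hm _ _) (fun i => hm' _ _) (fun i => hZ.dec i) (fun i => hZ'.dec i)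
    (fun i z hz => by
      have e : z = vl (x i) z.im := by
        rw [← hz]
        unfold vl
        rw [re_add_im]
      rw [e]
      exact hd i z.im) hok
    (ξ := fun i t => Ξ (c i) (vl (x i) t)) (dξ := fun i t => I * Ξ' (c i) (vl (x i) t)) (B := B)
    (fun i t => by
      have := (hΞ.d i t).comp t (hasDerivAt_vl (x i) t)
      rw [mul_comm] at this
      exact this)
    (fun i t => hΞ.b i t) (fun i t => by rw [norm_mul, norm_I, one_mul]; exact hΞ.b' i t)
    (a := fun i j s t => a (c i) (c j) (vl (x i) s) (vl (x j) t)) ha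
  have i1 : ∀ k, Integrable (fun t : ι → ℝ => (I * Ξ (c k) (vl (x k) (t k))) *
      Fg (fun i => co (c i)) (updC k (fun i => Z (c i).1 (c i).2) fun i => Z' (c i).1 (c i).2)
        (pos x t)) (Measure.pi fun _ => volume) := fun k =>
    (int_IzD hκ hn hok hm hm' hZ hZ' k).bdd_mul (c := B)
      ((((hmΞ (c k)).comp (measurable_pos x k)).const_mul I).aestronglyMeasurable)
      (Filter.Eventually.of_forall fun t => by
        rw [norm_mul, norm_I, one_mul]
        exact hΞ.b k (t k))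
  have e1 : IzD c x Z (fun s k z => I * Ξ (s, k) z * Z' s k z) =
      ∫ t : ι → ℝ, ∑ k, (I * Ξ (c k) (vl (x k) (t k))) * Fg (fun i => co (c i))
        (updC k (fun i => Z (c i).1 (c i).2) fun i => Z' (c i).1 (c i).2) (pos x t)
        ∂(Measure.pi fun _ => volume) := by
    unfold IzD
    refine integral_congr_ae (Filter.Eventually.of_forall fun t => ?_)
    refine Finset.sum_congr rfl fun k _ => ?_
    rw [Fg_updC, Fg_updC]
    simp only [Prod.mk.eta]
    have : pos x t k = vl (x k) (t k) := rfl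
    rw [this]
    ring
  have i2 : Integrable (fun t : ι → ℝ => (∑ k, I * Ξ' (c k) (vl (x k) (t k)) +
      ∑ p ∈ prs (er ι), a (c p.1) (c p.2) (vl (x p.1) (t p.1)) (vl (x p.2) (t p.2))) *
        Fg (fun i => co (c i)) (fun i => Z (c i).1 (c i).2) (pos x t))
      (Measure.pi fun _ => volume) := IzOk_ward hκ hn hok hm hZ hΞ hmΞ hmΞ' ha
  have e2 : Iz c x Z (fun ι _ c z => St (fun s k z => I * Ξ' (s, k) z) ι c z + w2 a ι c z) =
      ∫ t : ι → ℝ, (∑ k, I * Ξ' (c k) (vl (x k) (t k)) +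
      ∑ p ∈ prs (er ι), a (c p.1) (c p.2) (vl (x p.1) (t p.1)) (vl (x p.2) (t p.2))) *
        Fg (fun i => co (c i)) (fun i => Z (c i).1 (c i).2) (pos x t)
        ∂(Measure.pi fun _ => volume) := rfl
  rw [e1, e2, ← integral_add (integrable_finsetSum _ fun k _ => i1 k) i2]
  exact key

end one

/-! ## all words -/

/-- the functional with one factor replaced -/
def F0D (α : ℝ) (n n' : ℕ) (L : Lns) (Z Zd : Stt) : ℂ :=
  Sw n n' fun _ _ k k' => cw n n' k k' * IzD (cl n n' k k') (L.all α n n' k k') Z Zd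

variable {α : ℝ} {n : ℕ} {L : Lns}

theorem F0D_add {Z Zd Zd' : Stt} {κ D D' : ℝ} (hκ : 0 < κ)
    (hok : AllW α n n L fun c x => LnOk c x) (hm : ∀ s k, Measurable (Z s k))
    (hmd : ∀ s k, Measurable (Zd s k)) (hmd' : ∀ s k, Measurable (Zd' s k))
    (hZ : AllW α n n L fun c x => ZBd c x κ D Z) (hZd : AllW α n n L fun c x => ZBd c x κ D' Zd)
    (hZd' : AllW α n n L fun c x => ZBd c x κ D' Zd') :
    F0D α n n L Z (fun s k z => Zd s k z + Zd' s k z) = F0D α n n L Z Zd + F0D α n n L Z Zd' := by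
  unfold F0D
  rw [← Sw_add]
  refine Sw_congr fun p p' k k' h1 h2 => ?_
  rw [IzD_add hκ (by rw [sum_sc_cl h1 h2, sub_self]) (hok p p' k k' h1 h2) hm hmd hmd'
    (hZ p p' k k' h1 h2) (hZd p p' k k' h1 h2) (hZd' p p' k k' h1 h2), mul_add]

theorem F0D_mul {Z Zd φ : Stt} (h : AllW α n n L fun c x => ∀ i, ∀ t : ℝ,
      Zd (c i).1 (c i).2 (vl (x i) t) = φ (c i).1 (c i).2 (vl (x i) t) *
        Z (c i).1 (c i).2 (vl (x i) t)) :
    F0D α n n L Z Zd = F0 α n n L Z (St φ) := by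
  unfold F0D F0
  refine Sw_congr fun p p' k k' h1 h2 => ?_
  rw [IzD_mul (h p p' k k' h1 h2)]

/-- the replaced factor on the lines only -/
theorem F0D_congr {Z Zd Zd' : Stt} (h : AllW α n n L fun c x => ∀ i, ∀ t : ℝ,
      Zd (c i).1 (c i).2 (vl (x i) t) = Zd' (c i).1 (c i).2 (vl (x i) t)) :
    F0D α n n L Z Zd = F0D α n n L Z Zd' := by
  unfold F0D
  refine Sw_congr fun p p' k k' h1 h2 => ?_
  congr 1
  unfold IzD
  refine integral_congr_ae (Filter.Eventually.of_forall fun t => ?_)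
  refine Finset.sum_congr rfl fun i _ => ?_
  rw [Fg_updC, Fg_updC]
  have := h p p' k k' h1 h2 i (t i)
  rw [show pos (L.all α n n k k') t i = vl (L.all α n n k k' i) (t i) from rfl, this]

/-- **the Ward identity, derivative form**, all words -/
theorem F0D_ward {Z Z' : Stt} {κ D D' B : ℝ} (hκ : 0 < κ)
    (hok : AllW α n n L fun c x => LnOk c x) (hm : ∀ s k, Measurable (Z s k))
    (hm' : ∀ s k, Measurable (Z' s k)) (hZ : AllW α n n L fun c x => ZBd c x κ D Z)
    (hZ' : AllW α n n L fun c x => ZBd c x κ D' Z')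
    (hd : AllW α n n L fun c x => ∀ i, ∀ t : ℝ, HasDerivAt (Z (c i).1 (c i).2)
      (Z' (c i).1 (c i).2 (vl (x i) t)) (vl (x i) t))
    {Ξ Ξ' : Bool × Option O3 → ℂ → ℂ} (hΞ : AllW α n n L fun c x => FdOk c x B Ξ Ξ')
    (hmΞ : ∀ b, Measurable (Ξ b)) (hmΞ' : ∀ b, Measurable (Ξ' b))
    {a : Bool × Option O3 → Bool × Option O3 → ℂ → ℂ → ℂ}
    (ha : AllW α n n L fun c x => ∀ i j, ∀ s t : ℝ, i ≠ j → s ≠ t →
      a (c i) (c j) (vl (x i) s) (vl (x j) t) =
      (Ξ (c i) (vl (x i) s) - Ξ (c j) (vl (x j) t)) *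
        (I * lz (co (c i)) (co (c j)) (vl (x i) s - vl (x j) t))) :
    F0D α n n L Z (fun s k z => I * Ξ (s, k) z * Z' s k z) +
      F0 α n n L Z (fun ι _ c z => St (fun s k z => I * Ξ' (s, k) z) ι c z + w2 a ι c z) = 0 := by
  unfold F0D F0
  rw [← Sw_add]
  refine Sw_zero fun p p' k k' h1 h2 => ?_
  rw [← mul_add, IzD_ward hκ (by rw [sum_sc_cl h1 h2, sub_self]) (hok p p' k k' h1 h2) hm hm'
    (hZ p p' k k' h1 h2) (hZ' p p' k k' h1 h2) (hd p p' k k' h1 h2) (hΞ p p' k k' h1 h2) hmΞ hmΞ'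
    (ha p p' k k' h1 h2), mul_zero]

/-- **derivative with respect to a parameter**, one word -/
theorem hasDerivAt_IzD {ι : Type} [Fintype ι] {c : ι → Bool × Option O3} {x : ι → ℝ}
    {Z Zd : ℝ → Stt} {κ D r η0 : ℝ} (hκ : 0 < κ) (hr : 0 < r) (hn : ∑ i, sc (co (c i)) = 0)
    (hok : LnOk c x) (hm : ∀ η s k, Measurable (Z η s k)) (hmd : ∀ s k, Measurable (Zd η0 s k))
    (hZ : ∀ η ∈ Metric.ball η0 r, ZBd c x κ D (Z η))
    (hZd : ∀ η ∈ Metric.ball η0 r, ZBd c x κ D (Zd η))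
    (hd : ∀ η ∈ Metric.ball η0 r, ∀ i, ∀ t : ℝ, HasDerivAt
      (fun η => Z η (c i).1 (c i).2 (vl (x i) t)) (Zd η (c i).1 (c i).2 (vl (x i) t)) η) :
    HasDerivAt (fun η => Iz c x (Z η) fun _ _ _ _ => 1) (IzD c x (Z η0) (Zd η0)) η0 := by
  set o : ι → CO := fun i => co (c i) with ho
  set h : ℝ → ι → ℂ → ℂ := fun η i => Z η (c i).1 (c i).2 with hh
  set d : ℝ → ι → ℂ → ℂ := fun η i => Zd η (c i).1 (c i).2 with hdd
  obtain ⟨C, hC, hg⟩ := gz_const o (fun a b => {x a - x b}) (fun a b => isCompact_singleton)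
    (fun a b hab e he => by
      rw [Set.mem_singleton_iff] at he
      rw [he]
      exact hok a b hab)
  have hg' : ∀ t : ι → ℝ, ∀ a b, a ≠ b →
      ‖gz (o a) (o b) (pos x t a - pos x t b)‖ ≤
        C * Real.exp (rt (o a) (o b) * |(pos x t a - pos x t b).im|) := fun t a b hab =>
    hg a b hab _ (by simp)
  have hbd : ∀ η ∈ Metric.ball η0 r, ∀ i (t : ι → ℝ), ‖Fg o (updC i (h η) (d η)) (pos x t)‖ ≤
      D ^ Fintype.card ι * C ^ (Fintype.card ι * Fintype.card ι) *
        ∏ j, Real.exp (-(κ * |t j|)) := by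
    intro η hη i t
    have := Fg_norm_le hn (h := updC i (h η) (d η)) (z := pos x t) (D := D) (κ := κ) hC
      (fun j => by
        rw [pos_im]
        unfold updC
        split_ifs with hj
        · exact hZd η hη j (t j)
        · exact hZ η hη j (t j)) (hg' t)
    simpa using this
  have hη0 : η0 ∈ Metric.ball η0 r := Metric.mem_ball_self hr
  have hme : ∀ η, AEStronglyMeasurable (fun t : ι → ℝ => Fg o (h η) (pos x t))
      (Measure.pi fun _ => volume) := fun η =>
    (measurable_Fg_pos (fun i => hm η _ _) x).aestronglyMeasurable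
  have key := hasDerivAt_integral_of_dominated_loc_of_deriv_le
    (μ := Measure.pi fun _ : ι => (volume : Measure ℝ)) (𝕜 := ℝ)
    (F := fun η t => Fg o (h η) (pos x t))
    (F' := fun η t => ∑ i, Fg o (updC i (h η) (d η)) (pos x t))
    (x₀ := η0) (s := Metric.ball η0 r)
    (bound := fun t => Fintype.card ι * (D ^ Fintype.card ι *
      C ^ (Fintype.card ι * Fintype.card ι) * ∏ j, Real.exp (-(κ * |t j|))))
    (Metric.ball_mem_nhds _ hr) (Filter.Eventually.of_forall hme) ?_ ?_ ?_ ?_ ?_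
  · have h2 := key.2
    refine h2.congr_of_eventuallyEq (Filter.Eventually.of_forall fun η => ?_)
    unfold Iz Fz
    simp only [one_mul, hh, ho]
  · exact integrable_Fg hn hκ (fun i => hm η0 _ _) (fun i => (hZ η0 hη0).dec i) hok
  · refine Finset.aestronglyMeasurable_fun_sum _ fun i _ => ?_
    refine (measurable_Fg_pos (fun j => ?_) x).aestronglyMeasurable
    unfold updC
    split_ifs
    · exact hmd _ _
    · exact hm η0 _ _
  · refine Filter.Eventually.of_forall fun t η hη => ?_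
    refine (norm_sum_le _ _).trans ?_
    refine (Finset.sum_le_sum fun i _ => hbd η hη i t).trans (le_of_eq ?_)
    rw [Finset.sum_const, Finset.card_univ, nsmul_eq_mul]
  · exact ((integrable_prod_exp' (ι := ι) hκ).const_mul _).const_mul _
  · refine Filter.Eventually.of_forall fun t η hη => ?_
    have h1 := HasDerivAt.fun_finsetProd (u := (univ : Finset ι)) (x := η)
      (f := fun i η => h η i (pos x t i)) (f' := fun i => d η i (pos x t i))
      (fun i _ => hd η hη i (t i))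
    have h2 := h1.mul_const (PU fun a b => gz (o a) (o b) (pos x t a - pos x t b))
    refine h2.congr_deriv ?_
    rw [Finset.sum_mul]
    refine Finset.sum_congr rfl fun i _ => ?_
    rw [Fg_updC, smul_eq_mul]

/-- **The derivative with respect to a parameter**, all words. -/
theorem F0D_deriv {Z Zd : ℝ → Stt} {κ D r η0 : ℝ} (hκ : 0 < κ) (hr : 0 < r)
    (hok : AllW α n n L fun c x => LnOk c x)
    (hm : ∀ η s k, Measurable (Z η s k)) (hmd : ∀ s k, Measurable (Zd η0 s k))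
    (hZ : ∀ η ∈ Metric.ball η0 r, AllW α n n L fun c x => ZBd c x κ D (Z η))
    (hZd : ∀ η ∈ Metric.ball η0 r, AllW α n n L fun c x => ZBd c x κ D (Zd η))
    (hd : ∀ η ∈ Metric.ball η0 r, AllW α n n L fun c x => ∀ i, ∀ t : ℝ, HasDerivAt
      (fun η => Z η (c i).1 (c i).2 (vl (x i) t)) (Zd η (c i).1 (c i).2 (vl (x i) t)) η) :
    HasDerivAt (fun η => F0 α n n L (Z η) fun _ _ _ _ => 1) (F0D α n n L (Z η0) (Zd η0)) η0 := by
  unfold F0 F0D
  exact hasDerivAt_Sw fun p p' k k' h1 h2 =>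
    (hasDerivAt_IzD hκ hr (by rw [sum_sc_cl h1 h2, sub_self]) (hok p p' k k' h1 h2) hm hmd
      (fun η hη => hZ η hη p p' k k' h1 h2) (fun η hη => hZd η hη p p' k k' h1 h2)
      (fun η hη => hd η hη p p' k k' h1 h2)).const_mul _

end PBI

end
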