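import Pool.Agent.PB.PairC
import Pool.Agent.PB.CurGas
import Pool.Agent.PB.WardIg

/-!
# The Ward identity for the quanta on the curve (helper33)

`NUP1S.Fc p0 g (fun i => crvC (sp i) τ D D1) t` = the integrand of the quanta on the curve
`u = τ + i (t + D t)`; `(g b)' = L b * g b` on the strip.  Vector field `X b (t)`, with
derivative `X1 b`; kernels `aF` = `PBK.qw`, `PBK.qg` (continued to the diagonal).

* `Fc_eq_PhiC`; `ad_offdiag`;
* **`ward_Fc`**: `∫ ((∑ (X1 / (1 + D1) + X * I L) + ∑_{pairs} aF) O + ∑ X dO) Fc = 0`.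
-/

set_option autoImplicit false
set_option linter.unusedSectionVars false

noncomputable section

open Complex MeasureTheory
open scoped Classical

namespace PB

open NUP1 NUP1.Bd NUP1S NUKer PBK

variable {ι : Type*} [Fintype ι]

/-- one body function of a quantum on the curve -/
def hF (sp : ι → Bool) (g : Bool → ℂ → ℂ) (τ : ℝ) (D : ℝ → ℂ) (i : ι) (t : ℝ) : ℂ :=
  (2 * Real.pi : ℂ)⁻¹ * g (sp i) (vl τ t + I * D t)

/-- displacement of two points of the curve -/
def zd (D : ℝ → ℂ) (s u : ℝ) : ℂ := (s + D s) - (u + D u)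

/-- pair function on the curve -/
def wF (sp : ι → Bool) (D : ℝ → ℂ) (i j : ι) (s u : ℝ) : ℂ := wb (sp i) (sp j) (zd D s u)

/-- its derivative in the displacement -/
def wF' (sp : ι → Bool) (D : ℝ → ℂ) (i j : ι) (s u : ℝ) : ℂ :=
  kb (sp i) (sp j) (zd D s u) * wb (sp i) (sp j) (zd D s u)

/-- kernels of the field `X`, continued to the diagonal -/
def aF (D D1 : ℝ → ℂ) (X X1 : Bool → ℝ → ℂ) (b c : Bool) (s u : ℝ) : ℂ :=
  if b = c then qw D D1 (X b) (X1 b) s u else qg D D (X b) (X c) s u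

theorem Fc_eq_PhiC (sp : ι → Bool) (g : Bool → ℂ → ℂ) (τ : ℝ) (D D1 : ℝ → ℂ) (t : ι → ℝ) :
    Fc p0 g (fun i => crvC (sp i) τ D D1) t =
      PhiC (er ι) (fun _ s => 1 + D1 s) (hF sp g τ D) (wF sp D) t := by
  unfold Fc PhiC PhiN
  rw [PU_prs, ← mul_assoc, ← Finset.prod_mul_distrib]
  congr 1
  · refine Finset.prod_congr rfl fun i _ => ?_
    unfold hh hF
    rw [Wt_p0]
    show (2 * Real.pi : ℂ)⁻¹ * (1 + D1 (t i)) * g (sp i) (vl τ (t i) + I * D (t i)) = _
    ring
  · refine Finset.prod_congr rfl fun p _ => ?_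
    unfold pwc
    show PP (sp p.1) (sp p.2) ((crvC (sp p.1) τ D D1).pos (t p.1) -
      (crvC (sp p.2) τ D D1).pos (t p.2)) = _
    rw [NUP1S.pos_sub]
    rfl

/-! ### the kernels -/

theorem zd_im {a b τ : ℝ} {D D1 : ℝ → ℂ} (C : Crv a b τ D D1) (s u : ℝ) :
    |(zd D s u).im| ≤ b - a := by
  have h1 := C.re1 s
  have h2 := C.re2 s
  have h3 := C.re1 u
  have h4 := C.re2 u
  have e : (zd D s u).im = (D s).im - (D u).im := by
    unfold zd
    simp
  rw [e, abs_le]
  constructor <;> linarith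

theorem aF_rel {D D1 : ℝ → ℂ} (hD : ∀ x, HasDerivAt D (D1 x) x) (hc : Continuous D1)
    {X X1 : Bool → ℝ → ℂ} (hX : ∀ b x, HasDerivAt (X b) (X1 b x) x)
    (hXc : ∀ b, Continuous (X1 b)) (b c : Bool) (s u : ℝ) :
    (X b s - X c u) * (kb b c (zd D s u) * wb b c (zd D s u)) =
      aF D D1 X X1 b c s u * wb b c (zd D s u) := by
  unfold aF kb
  by_cases hbc : b = c
  · subst hbc
    rw [if_pos rfl, if_pos rfl]
    by_cases hsu : s = u
    · subst hsu
      have e : zd D s s = 0 := by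
        unfold zd
        ring
      rw [e, wb_self_zero]
      ring
    · rw [qw_eq hD hc (hX b) (hXc b) hsu]
      unfold zd
      ring
  · rw [if_neg hbc, if_neg hbc, qg_eq]
    unfold zd
    ring

theorem Kwc_neg (z : ℂ) : Kwc (-z) = -Kwc z := by
  unfold Kwc
  rw [mul_neg, Complex.sinh_neg, Complex.cosh_neg]
  ring

theorem Kgc_neg (z : ℂ) : Kgc (-z) = -Kgc z := by
  unfold Kgc
  rw [mul_neg, Complex.sinh_neg, Complex.cosh_neg]
  ring

theorem aF_symm {D D1 : ℝ → ℂ} (hD : ∀ x, HasDerivAt D (D1 x) x) (hc : Continuous D1)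
    {X X1 : Bool → ℝ → ℂ} (hX : ∀ b x, HasDerivAt (X b) (X1 b x) x)
    (hXc : ∀ b, Continuous (X1 b)) (b c : Bool) (s u : ℝ) :
    aF D D1 X X1 b c s u = aF D D1 X X1 c b u s := by
  unfold aF
  by_cases hbc : b = c
  · subst hbc
    rw [if_pos rfl, if_pos rfl]
    by_cases hsu : s = u
    · subst hsu
      rfl
    · rw [qw_eq hD hc (hX b) (hXc b) hsu, qw_eq hD hc (hX b) (hXc b) (Ne.symm hsu)]
      have e : ((u : ℂ) + D u) - (s + D s) = -((s + D s) - (u + D u)) := by ring
      rw [e, Kwc_neg]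
      ring
  · rw [if_neg hbc, if_neg (Ne.symm hbc), qg_eq, qg_eq]
    have e : ((u : ℂ) + D u) - (s + D s) = -((s + D s) - (u + D u)) := by ring
    rw [e, Kgc_neg]
    ring

theorem aF_diag (D D1 : ℝ → ℂ) (X X1 : Bool → ℝ → ℂ) (b : Bool) (t : ℝ) :
    aF D D1 X X1 b b t t = 2 * (X1 b t * (1 + D1 t)⁻¹) := by
  unfold aF
  rw [if_pos rfl, qw_diag]
  ring

/-! ### derivatives on the curve -/

variable {a b τ κ : ℝ} {D D1 : ℝ → ℂ}

theorem hasDerivAt_zd1 (hD : ∀ x, HasDerivAt D (D1 x) x) (s u : ℝ) :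
    HasDerivAt (fun s => zd D s u) (1 + D1 s) s := by
  unfold zd
  have h1 : HasDerivAt (fun s : ℝ => (s : ℂ)) 1 s := Complex.ofRealCLM.hasDerivAt
  exact (h1.add (hD s)).sub_const _

theorem hasDerivAt_zd2 (hD : ∀ x, HasDerivAt D (D1 x) x) (s u : ℝ) :
    HasDerivAt (fun u => zd D s u) (-(1 + D1 u)) u := by
  unfold zd
  have h1 : HasDerivAt (fun s : ℝ => (s : ℂ)) 1 u := Complex.ofRealCLM.hasDerivAt
  exact (h1.add (hD u)).const_sub _

theorem hasDerivAt_wF1 (C : Crv a b τ D D1) (hw : b - a < l) (sp : ι → Bool) (i j : ι)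
    (s u : ℝ) :
    HasDerivAt (fun s => wF sp D i j s u) ((1 + D1 s) * wF' sp D i j s u) s := by
  have h1 := hasDerivAt_wb (sp i) (sp j) (z := zd D s u) ((zd_im C s u).trans_lt hw)
  have h2 := h1.scomp s (hasDerivAt_zd1 C.der s u)
  rw [smul_eq_mul] at h2
  exact h2

theorem hasDerivAt_wF2 (C : Crv a b τ D D1) (hw : b - a < l) (sp : ι → Bool) (i j : ι)
    (s u : ℝ) :
    HasDerivAt (fun u => wF sp D i j s u) (-(1 + D1 u) * wF' sp D i j s u) u := by
  have h1 := hasDerivAt_wb (sp i) (sp j) (z := zd D s u) ((zd_im C s u).trans_lt hw)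
  have h2 := h1.scomp u (hasDerivAt_zd2 C.der s u)
  rw [smul_eq_mul] at h2
  exact h2

theorem hasDerivAt_hF (hD : ∀ x, HasDerivAt D (D1 x) x) {g L : Bool → ℂ → ℂ}
    (hL : ∀ b t, HasDerivAt (g b) (L b (vl τ t + I * D t) * g b (vl τ t + I * D t))
      (vl τ t + I * D t)) (sp : ι → Bool) (i : ι) (t : ℝ) :
    HasDerivAt (hF sp g τ D i)
      (I * L (sp i) (vl τ t + I * D t) * (1 + D1 t) * hF sp g τ D i t) t := by
  have h1 : HasDerivAt (fun t : ℝ => vl τ t + I * D t) (I * (1 + D1 t)) t := by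
    have := (hasDerivAt_vl τ t).add ((hD t).const_mul I)
    refine this.congr_deriv ?_
    ring
  have h2 := ((hL (sp i) t).scomp t h1).const_mul (2 * Real.pi : ℂ)⁻¹
  refine h2.congr_deriv ?_
  unfold hF
  rw [smul_eq_mul]
  ring

/-! ### bounds -/

theorem sum_sr (sp : ι → Bool) : ((∑ i, sg (sp i) : ℤ) : ℝ) = ∑ i, sr (sp i) := by
  push_cast
  refine Finset.sum_congr rfl fun i _ => ?_
  cases sp i <;> simp [sg, sr]

theorem sg_sr (c : Bool) : ((sg c : ℤ) : ℝ) = sr c := by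
  cases c <;> simp [sg, sr]

/-- bound of the one body factors on the curve -/
theorem hF_le (C : Crv a b τ D D1) (hre : ∀ t, (D t).re = 0) {sp : ι → Bool}
    {g : Bool → ℂ → ℂ} (hg : Reg p0 κ a b (∑ i, sg (sp i)) g) : ∃ M : ℝ, 0 ≤ M ∧ ∀ i t,
    ‖(1 + D1 t) * hF sp g τ D i t‖ ≤
      M * Real.exp (-((κ + 2 * (sr (sp i) * ∑ j, sr (sp j))) * |t|)) := by
  obtain ⟨K, hK, hb⟩ := hg.bd
  obtain ⟨M, hM, hM'⟩ := C.bdd
  refine ⟨(1 + M) * K, by positivity, fun i t => ?_⟩
  have hre1 : a ≤ (vl τ t + I * D t).re := by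
    have e' : (vl τ t + I * D t).re = τ - (D t).im := crv_re true τ D D1 t
    rw [e']
    exact C.re1 t
  have hre2 : (vl τ t + I * D t).re ≤ b := by
    have e' : (vl τ t + I * D t).re = τ - (D t).im := crv_re true τ D D1 t
    rw [e']
    exact C.re2 t
  have him : (vl τ t + I * D t).im = t := by
    have e' : (vl τ t + I * D t).im = t + (D t).re := crv_im true τ D D1 t
    rw [e', hre t, add_zero]
  have h1 := hb (sp i) _ hre1 hre2
  rw [him] at h1
  have e1 : (κ + 2 * ((sg (sp i) * ∑ i, sg (sp i) : ℤ) : ℝ) - 2 * ((p0 (sp i)).card : ℝ)) =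
      κ + 2 * (sr (sp i) * ∑ j, sr (sp j)) := by
    rw [Int.cast_mul, sum_sr, sg_sr]
    simp [p0]
  rw [e1] at h1
  have h2 : ‖(2 * Real.pi : ℂ)⁻¹‖ ≤ 1 := by
    rw [norm_inv]
    have e : ‖(2 * Real.pi : ℂ)‖ = 2 * Real.pi := by
      rw [norm_mul, Complex.norm_real, Real.norm_of_nonneg Real.pi_pos.le]
      simp
    rw [e]
    exact inv_le_one_of_one_le₀ (by linarith [Real.pi_gt_three])
  have h3 : ‖1 + D1 t‖ ≤ 1 + M := by
    refine (norm_add_le _ _).trans ?_
    rw [norm_one]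
    linarith [(hM' t).2]
  unfold hF
  rw [norm_mul, norm_mul]
  have hE := Real.exp_pos (-((κ + 2 * (sr (sp i) * ∑ j, sr (sp j))) * |t|))
  calc _ ≤ (1 + M) * (1 * (K * Real.exp (-((κ + 2 * (sr (sp i) * ∑ j, sr (sp j))) * |t|)))) :=
        mul_le_mul h3 (mul_le_mul h2 h1 (norm_nonneg _) zero_le_one) (by positivity)
          (by positivity)
    _ = _ := by ring

theorem zd_re (hre : ∀ t, (D t).re = 0) (s u : ℝ) : (zd D s u).re = s - u := by
  unfold zd
  simp [hre]

/-- the product weight with a general pair function is integrable -/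
theorem int_gen (hκ : 0 < κ) (C : Crv a b τ D D1) (hre : ∀ t, (D t).re = 0) {sp : ι → Bool}
    {g : Bool → ℂ → ℂ} (hg : Reg p0 κ a b (∑ i, sg (sp i)) g) {f : (ι → ℝ) → ι → ι → ℂ}
    (hfm : Measurable fun t => PU (f t)) {K : ℝ} (hK : 1 ≤ K)
    (hf : ∀ t i j, i ≠ j → ‖f t i j‖ ≤ K * Real.exp (2 * (sr (sp i) * sr (sp j) * |t i - t j|))) :
    Integrable fun t : ι → ℝ => (∏ i, (1 + D1 (t i)) * hF sp g τ D i (t i)) * PU (f t) := by
  obtain ⟨M, hM, hb⟩ := hF_le C hre hg
  refine ((integrable_prod_exp' (ι := ι) hκ).const_mul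
    (M ^ Fintype.card ι * K ^ (Fintype.card ι * Fintype.card ι))).mono' ?_
    (Filter.Eventually.of_forall fun t => ?_)
  · refine ((Finset.measurable_prod _ fun i _ => ?_).mul hfm).aestronglyMeasurable
    have h1 : Measurable fun s : ℝ => (1 + D1 s) * hF sp g τ D i s := by
      unfold hF
      have hcD := C.contD
      have hcD1 := C.cont
      have h2 : Measurable fun s : ℝ => vl τ s + I * D s := by
        unfold vl
        fun_prop
      exact (measurable_const.add hcD1.measurable).mul (((hg.meas (sp i)).comp h2).const_mul _)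
    exact h1.comp (measurable_pi_apply i)
  · exact gen_le (σ := fun i => sr (sp i)) (t := t) (h := fun i => (1 + D1 (t i)) *
      hF sp g τ D i (t i)) (f := f t) hK (fun i => hb i (t i)) (hf t)

/-! ### integrability -/

theorem prod_J (sp : ι → Bool) (g : Bool → ℂ → ℂ) (f : ι → ι → ℂ) (t : ι → ℝ) :
    (∏ i, (1 + D1 (t i)) * hF sp g τ D i (t i)) * PU f =
      (∏ i, (1 + D1 (t i))) * ((∏ i, hF sp g τ D i (t i)) * PU f) := by
  rw [Finset.prod_mul_distrib, mul_assoc]

theorem measurable_wF (hD : Measurable D) (sp : ι → Bool) (i j : ι) :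
    Measurable fun t : ι → ℝ => wF sp D i j (t i) (t j) := by
  unfold wF zd
  refine (measurable_wb _ _).comp ?_
  have h1 : Measurable fun t : ι → ℝ => D (t i) := hD.comp (measurable_pi_apply i)
  have h2 : Measurable fun t : ι → ℝ => D (t j) := hD.comp (measurable_pi_apply j)
  fun_prop

theorem measurable_wF' (hD : Measurable D) (sp : ι → Bool) (i j : ι) :
    Measurable fun t : ι → ℝ => wF' sp D i j (t i) (t j) := by
  unfold wF'
  refine Measurable.mul ?_ (measurable_wF hD sp i j)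
  unfold zd
  refine (measurable_kb _ _).comp ?_
  have h1 : Measurable fun t : ι → ℝ => D (t i) := hD.comp (measurable_pi_apply i)
  have h2 : Measurable fun t : ι → ℝ => D (t j) := hD.comp (measurable_pi_apply j)
  fun_prop

theorem measurable_PU {f : (ι → ℝ) → ι → ι → ℂ} (hf : ∀ i j, Measurable fun t => f t i j) :
    Measurable fun t => PU (f t) := by
  unfold PU PR
  refine Finset.measurable_prod _ fun i _ => Finset.measurable_prod _ fun j _ => ?_
  split_ifs
  · exact hf i j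
  · exact measurable_const

/-- **the integrand is integrable** -/
theorem int_PhiC (hκ : 0 < κ) (C : Crv a b τ D D1) (hw : b - a < l) (hre : ∀ t, (D t).re = 0)
    {sp : ι → Bool} {g : Bool → ℂ → ℂ} (hg : Reg p0 κ a b (∑ i, sg (sp i)) g) :
    Integrable (PhiC (er ι) (fun _ s => 1 + D1 s) (hF sp g τ D) (wF sp D)) := by
  have hab : 0 ≤ b - a := by linarith [C.tau.1, C.tau.2]
  obtain ⟨K, hK, hb⟩ := wb_bound hab hw
  have h1 := int_gen hκ C hre hg (f := fun t i j => wF sp D i j (t i) (t j))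
    (measurable_PU fun i j => measurable_wF C.contD.measurable sp i j) hK
    (fun t i j _ => by
      have := hb (sp i) (sp j) (zd D (t i) (t j)) (zd_im C _ _)
      rwa [zd_re hre] at this)
  refine h1.congr (Filter.Eventually.of_forall fun t => ?_)
  simp only []
  rw [prod_J, PU_prs]
  rfl

/-- the weight with one pair differentiated -/
theorem PhiNP_eq (sp : ι → Bool) (g : Bool → ℂ → ℂ) (t : ι → ℝ) (p : ι × ι)
    (hp : p ∈ prs (er ι)) :
    PhiNP (er ι) (hF sp g τ D) (wF sp D) (wF' sp D) t p = (∏ i, hF sp g τ D i (t i)) *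
      PU fun i j => if (i, j) = p then wF' sp D i j (t i) (t j) else wF sp D i j (t i) (t j) := by
  unfold PhiNP
  rw [PU_prs, ← Finset.mul_prod_erase (prs (er ι)) _ hp]
  congr 2
  · rw [if_pos rfl]
  · refine Finset.prod_congr rfl fun q hq => ?_
    rw [if_neg (Finset.ne_of_mem_erase hq)]

/-- **integrability with one pair differentiated** -/
theorem int_PhiNP (hκ : 0 < κ) (C : Crv a b τ D D1) (hw : b - a < l) (hre : ∀ t, (D t).re = 0)
    {sp : ι → Bool} {g : Bool → ℂ → ℂ} (hg : Reg p0 κ a b (∑ i, sg (sp i)) g) (p : ι × ι)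
    (hp : p ∈ prs (er ι)) :
    Integrable fun t : ι → ℝ => (∏ i, (1 + D1 (t i))) *
      PhiNP (er ι) (hF sp g τ D) (wF sp D) (wF' sp D) t p := by
  have hab : 0 ≤ b - a := by linarith [C.tau.1, C.tau.2]
  obtain ⟨K, hK, hb⟩ := wb_bound hab hw
  obtain ⟨K', hK', hb'⟩ := dwb_bound hab hw
  have h1 := int_gen hκ C hre hg (K := K + K')
    (f := fun t i j => if (i, j) = p then wF' sp D i j (t i) (t j) else wF sp D i j (t i) (t j))
    (measurable_PU fun i j => by
      split_ifs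
      · exact measurable_wF' C.contD.measurable sp i j
      · exact measurable_wF C.contD.measurable sp i j) (by linarith)
    (fun t i j _ => by
      have h2 := hb (sp i) (sp j) (zd D (t i) (t j)) (zd_im C _ _)
      have h3 := hb' (sp i) (sp j) (zd D (t i) (t j)) (zd_im C _ _)
      rw [zd_re hre] at h2 h3
      have hE := Real.exp_pos (2 * (sr (sp i) * sr (sp j) * |t i - t j|))
      split_ifs
      · refine h3.trans (mul_le_mul_of_nonneg_right (by linarith) hE.le)
      · refine h2.trans (mul_le_mul_of_nonneg_right (by linarith) hE.le))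
  refine h1.congr (Filter.Eventually.of_forall fun t => ?_)
  simp only []
  rw [prod_J, ← PhiNP_eq sp g t p hp]

/-- integrability of the derivatives of the weight -/
theorem int_dPhiC (hκ : 0 < κ) (C : Crv a b τ D D1) (hw : b - a < l) (hre : ∀ t, (D t).re = 0)
    {sp : ι → Bool} {g : Bool → ℂ → ℂ} (hg : Reg p0 κ a b (∑ i, sg (sp i)) g)
    {L : Bool → ℂ → ℂ} (hLm : ∀ b, Measurable (L b)) {B : ℝ}
    (hLB : ∀ b t, ‖L b (vl τ t + I * D t)‖ ≤ B) (k : ι) :
    Integrable fun t : ι → ℝ => dPhiC (er ι) (fun _ s => 1 + D1 s) (hF sp g τ D)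
      (fun i t => I * L (sp i) (vl τ t + I * D t)) (wF sp D) (wF' sp D) k t := by
  unfold dPhiC dPhiN
  have hcD := C.contD
  have e : ∀ t : ι → ℝ, (∏ i, (1 + D1 (t i))) * (I * L (sp k) (vl τ (t k) + I * D (t k)) *
      PhiN (er ι) (hF sp g τ D) (wF sp D) t + ∑ p ∈ prs (er ι),
        ((if p.1 = k then (1 : ℂ) else 0) - (if p.2 = k then (1 : ℂ) else 0)) *
        PhiNP (er ι) (hF sp g τ D) (wF sp D) (wF' sp D) t p) =
      I * L (sp k) (vl τ (t k) + I * D (t k)) *
        PhiC (er ι) (fun _ s => 1 + D1 s) (hF sp g τ D) (wF sp D) t + ∑ p ∈ prs (er ι),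
        ((if p.1 = k then (1 : ℂ) else 0) - (if p.2 = k then (1 : ℂ) else 0)) *
        ((∏ i, (1 + D1 (t i))) * PhiNP (er ι) (hF sp g τ D) (wF sp D) (wF' sp D) t p) := by
    intro t
    unfold PhiC
    rw [mul_add, Finset.mul_sum]
    congr 1
    · ring
    · exact Finset.sum_congr rfl fun p _ => by ring
  simp_rw [e]
  refine Integrable.add ?_ (integrable_finsetSum _ fun p hp =>
    (int_PhiNP hκ C hw hre hg p hp).const_mul _)
  refine (int_PhiC hκ C hw hre hg).bdd_mul (c := B) ?_ (Filter.Eventually.of_forall fun t => ?_)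
  · refine Measurable.aestronglyMeasurable ?_
    refine measurable_const.mul ((hLm (sp k)).comp ?_)
    have h1 : Measurable fun t : ι → ℝ => D (t k) := hcD.measurable.comp (measurable_pi_apply k)
    unfold vl
    fun_prop
  · rw [norm_mul, norm_I, one_mul]
    exact hLB _ _

/-- **the Ward identity of the quanta on the curve** -/
theorem ward_Fc (hκ : 0 < κ) (C : Crv a b τ D D1) (hw : b - a < l) (hre : ∀ t, (D t).re = 0)
    (hJ : ∀ t, 1 ≤ ‖1 + D1 t‖) {sp : ι → Bool}
    {g L : Bool → ℂ → ℂ} (hg : Reg p0 κ a b (∑ i, sg (sp i)) g)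
    (hL : ∀ b t, HasDerivAt (g b) (L b (vl τ t + I * D t) * g b (vl τ t + I * D t))
      (vl τ t + I * D t)) (hLm : ∀ b, Measurable (L b)) {B : ℝ}
    (hLB : ∀ b t, ‖L b (vl τ t + I * D t)‖ ≤ B)
    {X X1 : Bool → ℝ → ℂ} (hX : ∀ b x, HasDerivAt (X b) (X1 b x) x)
    (hXc : ∀ b, Continuous (X1 b)) (hXB : ∀ b x, ‖X b x‖ ≤ B) (hX1B : ∀ b x, ‖X1 b x‖ ≤ B)
    {O : (ι → ℝ) → ℂ} {dO : ι → (ι → ℝ) → ℂ}
    (hO : ∀ k t, HasDerivAt (fun s => O (Function.update t k s)) ((1 + D1 (t k)) * dO k t) (t k))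
    (hOm : AEStronglyMeasurable O) (hdOm : ∀ k, AEStronglyMeasurable (dO k))
    {B' : ℝ} (hOB : ∀ t, ‖O t‖ ≤ B') (hdOB : ∀ k t, ‖dO k t‖ ≤ B') :
    ∫ t : ι → ℝ, ((∑ k, (X1 (sp k) (t k) * (1 + D1 (t k))⁻¹ + X (sp k) (t k) *
        (I * L (sp k) (vl τ (t k) + I * D (t k)))) +
      ∑ p ∈ prs (er ι), aF D D1 X X1 (sp p.1) (sp p.2) (t p.1) (t p.2)) * O t +
      ∑ k, X (sp k) (t k) * dO k t) * Fc p0 g (fun i => crvC (sp i) τ D D1) t = 0 := by
  have iP := int_PhiC hκ C hw hre hg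
  have iD := int_dPhiC hκ C hw hre hg hLm hLB
  have hJ0 : ∀ t, 1 + D1 t ≠ 0 := fun t h0 => by
    have := hJ t
    rw [h0, norm_zero] at this
    linarith
  have hJi : ∀ t, ‖(1 + D1 t)⁻¹‖ ≤ 1 := fun t => by
    rw [norm_inv]
    exact inv_le_one_of_one_le₀ (hJ t)
  have hcX : ∀ b, Continuous (X b) := fun b =>
    continuous_iff_continuousAt.2 fun x => (hX b x).continuousAt
  have mX : ∀ k, AEStronglyMeasurable fun t : ι → ℝ => X (sp k) (t k) := fun k =>
    ((hcX (sp k)).measurable.comp (measurable_pi_apply k)).aestronglyMeasurable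
  have mX1 : ∀ k, AEStronglyMeasurable fun t : ι → ℝ => X1 (sp k) (t k) * (1 + D1 (t k))⁻¹ :=
    fun k => by
      have h1 : Measurable fun s : ℝ => X1 (sp k) s * (1 + D1 s)⁻¹ :=
        (hXc (sp k)).measurable.mul (measurable_const.add C.cont.measurable).inv
      exact (h1.comp (measurable_pi_apply k)).aestronglyMeasurable
  have mJi : ∀ k, AEStronglyMeasurable fun t : ι → ℝ => (1 + D1 (t k))⁻¹ := fun k => by
    have h1 : Measurable fun s : ℝ => (1 + D1 s)⁻¹ :=
      (measurable_const.add C.cont.measurable).inv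
    exact (h1.comp (measurable_pi_apply k)).aestronglyMeasurable
  have key := wardC (r := er ι) (tour_er ι).irr (J := fun _ s => 1 + D1 s) (h := hF sp g τ D)
    (κ := fun i t => I * L (sp i) (vl τ t + I * D t)) (w := wF sp D) (w' := wF' sp D)
    (X := fun i => X (sp i)) (dX := fun i t => X1 (sp i) t * (1 + D1 t)⁻¹)
    (a := fun i j => aF D D1 X X1 (sp i) (sp j)) (O := O) (dO := dO)
    (fun i t => hasDerivAt_hF C.der hL sp i t)
    (fun i j s u => hasDerivAt_wF1 C hw sp i j s u)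
    (fun i j s u => hasDerivAt_wF2 C hw sp i j s u)
    (fun i s => (hX (sp i) s).congr_deriv (by
      have := hJ0 s
      field_simp))
    (fun i j s u => aF_rel C.der C.cont hX hXc (sp i) (sp j) s u) hO
    (fun k => by
      have h1 := int_mul (int_mul (int_mul iP hOm hOB) (mX k) fun t => hXB _ _) (mJi k)
        fun t => hJi (t k)
      refine h1.congr (Filter.Eventually.of_forall fun t => ?_)
      simp only []
      unfold PhiC
      rw [← Finset.mul_prod_erase Finset.univ (fun i => 1 + D1 (t i)) (Finset.mem_univ k)]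
      have := hJ0 (t k)
      field_simp)
    (fun k => by
      have h2 : ∀ t : ι → ℝ, ‖X1 (sp k) (t k) * (1 + D1 (t k))⁻¹‖ ≤ B := fun t => by
        rw [norm_mul]
        have h3 := hX1B (sp k) (t k)
        have h4 := hJi (t k)
        calc _ ≤ B * 1 := mul_le_mul h3 h4 (norm_nonneg _) ((norm_nonneg _).trans h3)
          _ = B := mul_one _
      exact int_mul (int_mul iP hOm hOB) (mX1 k) h2)
    (fun k => int_mul (int_mul iP (hdOm k) (hdOB k)) (mX k) fun t => hXB _ _)
    (fun k => int_mul (int_mul (iD k) hOm hOB) (mX k) fun t => hXB _ _)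
  simp_rw [Fc_eq_PhiC]
  exact key

end PB

end
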