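import Pool.Agent.PB.WardIg
import Pool.Agent.PB.GasWard
import Pool.Agent.PB.MFxi
import Pool.Agent.NUP1S.Curve
import Pool.Agent.NUP1S.Stage2

/-!
# The Ward identity of the gas of quanta with fixed objects (helper59)

As `PB/WardIg`, but the family `ι` may carry a total charge `-Q` (the objects which are kept fixed
carry `Q`; their pair functions are part of the one body functions): `‖h_i(z)‖ ≤ D e^{-κ|im z| +
2 Q s_i |im z|}`.  Fields and insertions may grow like `e^{δ|t|}`, `2 δ < κ`.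

* `ward_Q`: the Ward identity;
* `gz_AA`, `I_lz_AA`, `ha_AA`: pair function, kernel `I lz = Kw`, `Kg` of the quanta on one line,
  the relation of the kernels with the diagonal;
* **`ward_A`**: the Ward identity in statistics (`gasWard`) of the gas of quanta of both species
  on one line, total charge `Q` of the fixed objects;
* `DecQ.fld`, `hasDerivAt_fld`, `DecQ.dfld`, `measurable_fld`: the hypotheses of `ward_Q`,
  `ward_A` for the one body functions `fld o z o0 H` in the field of fixed objects.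
-/

set_option autoImplicit false
set_option linter.unusedSectionVars false

noncomputable section

open Complex MeasureTheory
open scoped Classical

namespace PB

open NUP1 NUP1.Bd NUP1S

variable {ι : Type*} [Fintype ι]

/-- one body bound with a rate -/
def DecQ (κ q : ℝ) (K : Set ℝ) (h : ℂ → ℂ) : Prop :=
  ∃ D : ℝ, ∀ z : ℂ, z.re ∈ K → ‖h z‖ ≤ D * Real.exp (-(κ * |z.im|) + q * |z.im|)

theorem DecQ.const {κ : ℝ} {q : ι → ℝ} (h : ι → ℂ → ℂ) (K : ι → Set ℝ)
    (hd : ∀ i, DecQ κ (q i) (K i) (h i)) :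
    ∃ D : ℝ, 0 ≤ D ∧ ∀ i, ∀ z : ℂ, z.re ∈ K i →
      ‖h i z‖ ≤ D * Real.exp (-(κ * |z.im|) + q i * |z.im|) := by
  choose D hD using hd
  refine ⟨∑ i, |D i|, Finset.sum_nonneg fun i _ => abs_nonneg _, fun i z hz => ?_⟩
  refine (hD i z hz).trans (mul_le_mul_of_nonneg_right ?_ (Real.exp_pos _).le)
  exact (le_abs_self _).trans (Finset.single_le_sum (f := fun i => |D i|)
    (fun i _ => abs_nonneg _) (Finset.mem_univ i))

/-- the energy with a fixed charge `Q` at height `0` -/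
theorem energy_fix {c t : ι → ℝ} {Q : ℝ} (h : Q + ∑ i, c i = 0) :
    ∑ i, ∑ j, c i * c j * |t i - t j| + ∑ i, 2 * Q * c i * |t i| ≤ 0 := by
  have h1 := energy_nonpos (Finset.univ : Finset (Option ι)) (fun i => i.elim Q c)
    (fun i => i.elim 0 t) (by rw [Fintype.sum_option]; exact h)
  simp only [Fintype.sum_option, Option.elim] at h1
  have e : ∑ i, 2 * Q * c i * |t i| = ∑ i, Q * c i * |0 - t i| + ∑ i, c i * Q * |t i - 0| := by
    rw [← Finset.sum_add_distrib]
    refine Finset.sum_congr rfl fun i _ => ?_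
    rw [zero_sub, abs_neg, sub_zero]
    ring
  rw [Finset.sum_add_distrib] at h1
  rw [e]
  have e0 : Q * Q * |(0 : ℝ) - 0| = 0 := by simp
  linarith

/-- bound of the integrand with general pair functions and a fixed charge -/
theorem gen_norm_leQ {o : ι → CO} {Q : ℝ} (hn : Q + ∑ i, sc (o i) = 0) {h : ι → ℂ → ℂ}
    {z : ι → ℂ} {f : ι → ι → ℂ} {C D κ : ℝ} (hC : 1 ≤ C)
    (hh : ∀ i, ‖h i (z i)‖ ≤ D * Real.exp (-(κ * |(z i).im|) + 2 * Q * sc (o i) * |(z i).im|))
    (hg : ∀ a b, a ≠ b → ‖f a b‖ ≤ C * Real.exp (rt (o a) (o b) * |(z a - z b).im|)) :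
    ‖(∏ i, h i (z i)) * PU f‖ ≤ D ^ Fintype.card ι * C ^ (Fintype.card ι * Fintype.card ι) *
      ∏ i, Real.exp (-(κ * |(z i).im|)) := by
  rw [norm_mul, norm_prod]
  have e1 : ∏ i, ‖h i (z i)‖ ≤ D ^ Fintype.card ι * ((∏ i, Real.exp (-(κ * |(z i).im|))) *
      Real.exp (∑ i, 2 * Q * sc (o i) * |(z i).im|)) := by
    refine (Finset.prod_le_prod (fun i _ => norm_nonneg _) fun i _ => hh i).trans (le_of_eq ?_)
    rw [Finset.prod_mul_distrib, Finset.prod_const, Finset.card_univ, Real.exp_sum,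
      ← Finset.prod_mul_distrib]
    congr 1
    exact Finset.prod_congr rfl fun i _ => by rw [Real.exp_add]
  have e2 := PU_norm_le f
    (fun a b => sc (o a) * sc (o b) * |(z a).im - (z b).im|)
    (fun a b => by rw [abs_sub_comm]; ring) (fun a => by simp) hC (fun a b hab => by
      refine (hg a b hab).trans (le_of_eq ?_)
      rw [sub_im]
      unfold rt
      ring_nf)
  have e3 := energy_fix (c := fun i => sc (o i)) (t := fun i => (z i).im) hn
  have hC0 : 0 ≤ C := zero_le_one.trans hC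
  have hP0 : 0 ≤ D ^ Fintype.card ι * ((∏ i, Real.exp (-(κ * |(z i).im|))) *
      Real.exp (∑ i, 2 * Q * sc (o i) * |(z i).im|)) :=
    (Finset.prod_nonneg fun i _ => norm_nonneg _).trans e1
  have hD0 : 0 ≤ D ^ Fintype.card ι * ∏ i, Real.exp (-(κ * |(z i).im|)) := by
    rw [← mul_assoc] at hP0
    exact nonneg_of_mul_nonneg_left hP0 (Real.exp_pos _)
  calc _ ≤ (D ^ Fintype.card ι * ((∏ i, Real.exp (-(κ * |(z i).im|))) *
        Real.exp (∑ i, 2 * Q * sc (o i) * |(z i).im|))) *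
        (C ^ (Fintype.card ι * Fintype.card ι) *
          Real.exp (∑ a, ∑ b, sc (o a) * sc (o b) * |(z a).im - (z b).im|)) :=
        mul_le_mul e1 e2 (norm_nonneg _) hP0
    _ = (D ^ Fintype.card ι * ∏ i, Real.exp (-(κ * |(z i).im|))) *
        C ^ (Fintype.card ι * Fintype.card ι) *
          Real.exp (∑ a, ∑ b, sc (o a) * sc (o b) * |(z a).im - (z b).im| +
            ∑ i, 2 * Q * sc (o i) * |(z i).im|) := by
        rw [Real.exp_add]
        ring
    _ ≤ (D ^ Fintype.card ι * ∏ i, Real.exp (-(κ * |(z i).im|))) *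
        C ^ (Fintype.card ι * Fintype.card ι) :=
        mul_le_of_le_one_right (mul_nonneg hD0 (pow_nonneg hC0 _)) (Real.exp_le_one_iff.2 e3)
    _ = _ := by ring

/-! ## bounds of the integrand and of its derivatives -/

section bounds

variable {o : ι → CO} {h L : ι → ℂ → ℂ} {x : ι → ℝ} {κ Q : ℝ}

/-- the weight which bounds everything -/
def EX (κ : ℝ) (t : ι → ℝ) : ℝ := ∏ i, Real.exp (-(κ * |t i|))

theorem EX_pos (κ : ℝ) (t : ι → ℝ) : 0 < EX κ t := Finset.prod_pos fun _ _ => Real.exp_pos _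

theorem EX_mul (κ δ : ℝ) (t : ι → ℝ) : EX κ t * EX δ t = EX (κ + δ) t := by
  unfold EX
  rw [← Finset.prod_mul_distrib]
  refine Finset.prod_congr rfl fun i _ => ?_
  rw [← Real.exp_add]
  congr 1
  ring

theorem gz_constQ (hg : ∀ a b, a ≠ b → Ok (o a) (o b) (x a - x b)) :
    ∃ C : ℝ, 1 ≤ C ∧ ∀ a b, a ≠ b → ∀ z : ℂ, z.re = x a - x b →
      ‖gz (o a) (o b) z‖ ≤ C * Real.exp (rt (o a) (o b) * |z.im|) := by
  obtain ⟨C, hC, hg'⟩ := gz_const o (fun a b => {x a - x b}) (fun a b => isCompact_singleton)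
    (fun a b hab d hd => by
      rw [Set.mem_singleton_iff] at hd
      rw [hd]
      exact hg a b hab)
  exact ⟨C, hC, fun a b hab z hz => hg' a b hab z hz⟩

/-- **the integrand** -/
theorem bd_Phi (hn : Q + ∑ i, sc (o i) = 0)
    (hh : ∀ i, DecQ κ (2 * Q * sc (o i)) {x i} (h i))
    (hg : ∀ a b, a ≠ b → Ok (o a) (o b) (x a - x b)) :
    ∃ C : ℝ, 0 ≤ C ∧ ∀ t, ‖Phi (er ι) (hT h x) (wT o x) t‖ ≤ C * EX κ t := by
  obtain ⟨D, hD, hh⟩ := DecQ.const h _ hh
  obtain ⟨C, hC, hg'⟩ := gz_constQ hg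
  refine ⟨D ^ Fintype.card ι * C ^ (Fintype.card ι * Fintype.card ι),
    mul_nonneg (pow_nonneg hD _) (pow_nonneg (zero_le_one.trans hC) _), fun t => ?_⟩
  rw [← Fg_eq_Phi]
  unfold Fg
  have := gen_norm_leQ hn (h := h) (z := pos x t) (D := D) (κ := κ) hC
    (fun i => hh i _ (by simp)) (fun a b hab => hg' a b hab _ (by simp))
  simpa [EX] using this

/-- the integrand with one pair differentiated -/
theorem bd_PhiP (hn : Q + ∑ i, sc (o i) = 0)
    (hh : ∀ i, DecQ κ (2 * Q * sc (o i)) {x i} (h i))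
    (hg : ∀ a b, a ≠ b → Ok (o a) (o b) (x a - x b)) (p : ι × ι) (hp : p ∈ prs (er ι)) :
    ∃ C : ℝ, 0 ≤ C ∧ ∀ t, ‖PhiP (er ι) (hT h x) (wT o x) (wT' o x) t p‖ ≤ C * EX κ t := by
  have hpne : p.1 ≠ p.2 := by
    intro h0
    have : er ι p.1 p.2 := by simpa [prs] using hp
    rw [h0] at this
    exact (tour_er ι).irr _ this
  obtain ⟨D, hD, hh⟩ := DecQ.const h _ hh
  obtain ⟨C, hC, hg'⟩ := gz_constQ hg
  obtain ⟨C', hC', hd'⟩ := bdd_dgz (hg p.1 p.2 hpne)
  have hC0 : 0 ≤ C := zero_le_one.trans hC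
  refine ⟨D ^ Fintype.card ι * (C + C') ^ (Fintype.card ι * Fintype.card ι), by positivity,
    fun t => ?_⟩
  rw [PhiP_eq t p hp]
  have := gen_norm_leQ hn (h := h) (z := pos x t) (D := D) (κ := κ) (C := C + C')
    (f := fun a b => if (a, b) = p then wT' o x p.1 p.2 (t p.1 - t p.2) else
        wT o x a b (t a - t b)) (by linarith)
    (fun i => hh i _ (by simp)) (fun a b hab => by
      split_ifs with he
      · subst he
        unfold wT'
        rw [norm_mul, norm_I, one_mul, pos_sub]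
        refine (hd' _ (by rw [re_vl]; rfl)).trans ?_
        exact mul_le_mul_of_nonneg_right (by linarith) (Real.exp_pos _).le
      · unfold wT
        rw [pos_sub]
        refine (hg' a b hab _ (by rw [re_vl])).trans ?_
        exact mul_le_mul_of_nonneg_right (by linarith) (Real.exp_pos _).le)
  simpa [EX] using this

theorem kPhi_eq (k : ι) (t : ι → ℝ) :
    I * L k (vl (x k) (t k)) * Phi (er ι) (hT h x) (wT o x) t =
      I * Phi (er ι) (hT (Function.update h k fun z => L k z * h k z) x) (wT o x) t := by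
  unfold Phi
  rw [← Finset.mul_prod_erase Finset.univ (fun i => hT h x i (t i)) (Finset.mem_univ k),
    ← Finset.mul_prod_erase Finset.univ
      (fun i => hT (Function.update h k fun z => L k z * h k z) x i (t i)) (Finset.mem_univ k)]
  have e : ∏ i ∈ Finset.univ.erase k,
      hT (Function.update h k fun z => L k z * h k z) x i (t i) =
      ∏ i ∈ Finset.univ.erase k, hT h x i (t i) := by
    refine Finset.prod_congr rfl fun i hi => ?_
    unfold hT
    rw [Function.update_of_ne (Finset.ne_of_mem_erase hi)]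
  rw [e]
  unfold hT
  rw [Function.update_self]
  ring

/-- **the partial derivatives** -/
theorem bd_dPhi (hn : Q + ∑ i, sc (o i) = 0)
    (hh : ∀ i, DecQ κ (2 * Q * sc (o i)) {x i} (h i))
    (hhL : ∀ i, DecQ κ (2 * Q * sc (o i)) {x i} (fun z => L i z * h i z))
    (hg : ∀ a b, a ≠ b → Ok (o a) (o b) (x a - x b)) (k : ι) :
    ∃ C : ℝ, 0 ≤ C ∧ ∀ t, ‖dPhi (er ι) (hT h x) (fun i t => I * L i (vl (x i) t)) (wT o x)
      (wT' o x) k t‖ ≤ C * EX κ t := by
  obtain ⟨C1, h1, hb1⟩ := bd_Phi (h := Function.update h k fun z => L k z * h k z) (x := x) hn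
    (fun i => by
      by_cases hi : i = k
      · subst hi
        rw [Function.update_self]
        exact hhL i
      · rw [Function.update_of_ne hi]
        exact hh i) hg
  have h2 : ∀ p : ι × ι, ∃ C : ℝ, 0 ≤ C ∧ (p ∈ prs (er ι) → ∀ t,
      ‖PhiP (er ι) (hT h x) (wT o x) (wT' o x) t p‖ ≤ C * EX κ t) := by
    intro p
    by_cases hp : p ∈ prs (er ι)
    · obtain ⟨C, hC, hb⟩ := bd_PhiP hn hh hg p hp
      exact ⟨C, hC, fun _ => hb⟩
    · exact ⟨0, le_rfl, fun h => absurd h hp⟩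
  choose C2 h2 hb2 using h2
  refine ⟨C1 + ∑ p ∈ prs (er ι), 2 * C2 p,
    add_nonneg h1 (Finset.sum_nonneg fun p _ => mul_nonneg zero_le_two (h2 p)), fun t => ?_⟩
  unfold dPhi
  rw [kPhi_eq, add_mul, Finset.sum_mul]
  refine (norm_add_le _ _).trans (add_le_add ?_ ((norm_sum_le _ _).trans
    (Finset.sum_le_sum fun p hp => ?_)))
  · rw [norm_mul, norm_I, one_mul]
    exact hb1 t
  · rw [norm_mul, mul_assoc]
    refine mul_le_mul ?_ (hb2 p hp t) (norm_nonneg _) zero_le_two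
    split_ifs <;> simp

theorem measurable_Phi (hm : ∀ i, Measurable (h i)) :
    Measurable (Phi (er ι) (hT h x) (wT o x)) := by
  unfold Phi
  refine Measurable.mul ?_ ?_
  · exact Finset.measurable_prod _ fun i _ => (measurable_hT hm i).comp (measurable_pi_apply i)
  · exact Finset.measurable_prod _ fun q _ => (measurable_wT q.1 q.2).comp
      ((measurable_pi_apply q.1).sub (measurable_pi_apply q.2))

theorem measurable_dPhi (hm : ∀ i, Measurable (h i)) (hmL : ∀ i, Measurable (L i)) (k : ι) :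
    Measurable (dPhi (er ι) (hT h x) (fun i t => I * L i (vl (x i) t)) (wT o x)
      (wT' o x) k) := by
  unfold dPhi
  refine Measurable.add (Measurable.mul ?_ (measurable_Phi hm)) ?_
  · have h1 : Measurable fun t : ℝ => L k (vl (x k) t) := by
      refine (hmL k).comp ?_
      unfold vl
      fun_prop
    exact (h1.comp (measurable_pi_apply k)).const_mul I
  · exact Finset.measurable_sum _ fun p _ => (measurable_PhiP hm p).const_mul _

/-- growing factors -/
theorem int_of_bd {κ δ B C : ℝ} (hκ : δ < κ) {ζ F : (ι → ℝ) → ℂ} (hF : AEStronglyMeasurable F)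
    (hζ : AEStronglyMeasurable ζ) (hFb : ∀ t, ‖F t‖ ≤ C * EX κ t)
    (hζb : ∀ t, ‖ζ t‖ ≤ B * EX (-δ) t) : Integrable (fun t => ζ t * F t) := by
  have h1 := (integrable_prod_exp' (ι := ι) (sub_pos.2 hκ)).const_mul (B * C)
  refine Integrable.mono' h1 (hζ.mul hF) (Filter.Eventually.of_forall fun t => ?_)
  rw [norm_mul]
  have e : EX (-δ) t * EX κ t = ∏ i, Real.exp (-((κ - δ) * |t i|)) := by
    rw [EX_mul]
    unfold EX
    refine Finset.prod_congr rfl fun i _ => ?_
    congr 1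
    ring
  rw [← e]
  calc _ ≤ (B * EX (-δ) t) * (C * EX κ t) :=
        mul_le_mul (hζb t) (hFb t) (norm_nonneg _) ((norm_nonneg _).trans (hζb t))
    _ = _ := by ring

end bounds

theorem one_le_exp_abs {δ : ℝ} (hδ : 0 ≤ δ) (s : ℝ) : 1 ≤ Real.exp (-(-δ * |s|)) :=
  Real.one_le_exp (by nlinarith [abs_nonneg s])

/-- one growing factor -/
theorem one_le_EX {B δ : ℝ} (hB : 0 ≤ B) (hδ : 0 ≤ δ) (t : ι → ℝ) (k : ι) {v : ℂ}
    (h : ‖v‖ ≤ B * Real.exp (δ * |t k|)) : ‖v‖ ≤ B * EX (-δ) t := by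
  refine h.trans (mul_le_mul_of_nonneg_left ?_ hB)
  unfold EX
  rw [← Finset.mul_prod_erase Finset.univ _ (Finset.mem_univ k)]
  have h1 : 1 ≤ ∏ i ∈ Finset.univ.erase k, Real.exp (-(-δ * |t i|)) := by
    refine le_trans (le_of_eq ?_) (Finset.prod_le_prod (s := Finset.univ.erase k)
      (f := fun _ => (1 : ℝ)) (fun i _ => zero_le_one) fun i _ => one_le_exp_abs hδ (t i))
    simp
  refine le_trans (le_of_eq ?_) (le_mul_of_one_le_right (Real.exp_pos _).le h1)
  congr 1
  ring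

/-- **the Ward identity**, fixed charge `Q`, growing fields and insertions -/
theorem ward_Q {o : ι → CO} {Q : ℝ} (hn : Q + ∑ i, sc (o i) = 0) {h L : ι → ℂ → ℂ} {x : ι → ℝ}
    {κ δ : ℝ} (hδ : 0 ≤ δ) (hκ : 2 * δ < κ) (hm : ∀ i, Measurable (h i))
    (hmL : ∀ i, Measurable (L i)) (hh : ∀ i, DecQ κ (2 * Q * sc (o i)) {x i} (h i))
    (hhL : ∀ i, DecQ κ (2 * Q * sc (o i)) {x i} (fun z => L i z * h i z))
    (hL : ∀ i z, z.re = x i → HasDerivAt (h i) (L i z * h i z) z)
    (hg : ∀ a b, a ≠ b → Ok (o a) (o b) (x a - x b))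
    {ξ dξ : ι → ℝ → ℂ} {B : ℝ} (hB : 0 ≤ B) (hξ : ∀ i t, HasDerivAt (ξ i) (dξ i t) t)
    (hξB : ∀ i t, ‖ξ i t‖ ≤ B * Real.exp (δ * |t|))
    (hdB : ∀ i t, ‖dξ i t‖ ≤ B * Real.exp (δ * |t|))
    {a : ι → ι → ℝ → ℝ → ℂ} (ha : ∀ i j s t, i ≠ j → s ≠ t → a i j s t =
      (ξ i s - ξ j t) * (I * lz (o i) (o j) (vl (x i) s - vl (x j) t)))
    {O : (ι → ℝ) → ℂ} {dO : ι → (ι → ℝ) → ℂ}
    (hO : ∀ k t, HasLineDerivAt ℝ O (dO k t) t (Pi.single k 1))
    (hOm : AEStronglyMeasurable O) (hdOm : ∀ k, AEStronglyMeasurable (dO k))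
    (hOB : ∀ t, ‖O t‖ ≤ B * EX (-δ) t) (hdOB : ∀ k t, ‖dO k t‖ ≤ B * EX (-δ) t) :
    ∫ t : ι → ℝ, ((∑ k, (dξ k (t k) + ξ k (t k) * (I * L k (pos x t k))) +
      ∑ p ∈ prs (er ι), a p.1 p.2 (t p.1) (t p.2)) * O t + ∑ k, ξ k (t k) * dO k t) *
      Fg o h (pos x t) = 0 := by
  have mξ : ∀ i, Measurable (ξ i) := fun i =>
    (continuous_iff_continuousAt.2 fun t => (hξ i t).continuousAt).measurable
  have mdξ : ∀ i, Measurable (dξ i) := fun i => by
    have : dξ i = deriv (ξ i) := funext fun t => ((hξ i t).deriv).symm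
    rw [this]
    exact measurable_deriv _
  have mξ' : ∀ k, AEStronglyMeasurable (fun t : ι → ℝ => ξ k (t k)) := fun k =>
    ((mξ k).comp (measurable_pi_apply k)).aestronglyMeasurable
  have mdξ' : ∀ k, AEStronglyMeasurable (fun t : ι → ℝ => dξ k (t k)) := fun k =>
    ((mdξ k).comp (measurable_pi_apply k)).aestronglyMeasurable
  obtain ⟨C, hC, bP⟩ := bd_Phi hn hh hg
  have bD := bd_dPhi hn hh hhL hg
  choose C' hC' bD using bD
  have mP : AEStronglyMeasurable (Phi (er ι) (hT h x) (wT o x)) :=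
    (measurable_Phi hm).aestronglyMeasurable
  have mD : ∀ k, AEStronglyMeasurable (dPhi (er ι) (hT h x)
      (fun i t => I * L i (vl (x i) t)) (wT o x) (wT' o x) k) := fun k =>
    (measurable_dPhi hm hmL k).aestronglyMeasurable
  have prod2 : ∀ (k : ι) (t : ι → ℝ) (v w : ℂ), ‖v‖ ≤ B * Real.exp (δ * |t k|) →
      ‖w‖ ≤ B * EX (-δ) t → ‖v * w‖ ≤ B * B * EX (-(2 * δ)) t := by
    intro k t v w hv hw
    have h1 := one_le_EX hB hδ t k hv
    rw [norm_mul]
    calc _ ≤ (B * EX (-δ) t) * (B * EX (-δ) t) :=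
          mul_le_mul h1 hw (norm_nonneg _) ((norm_nonneg _).trans h1)
      _ = B * B * (EX (-δ) t * EX (-δ) t) := by ring
      _ = _ := by
          rw [EX_mul]
          congr 2
          ring
  have h0 : ∀ k, Integrable (fun t : ι → ℝ => ξ k (t k) * (O t * Phi (er ι) (hT h x) (wT o x) t)) :=
    fun k => by
      have := int_of_bd (ζ := fun t => ξ k (t k) * O t) hκ mP ((mξ' k).mul hOm) bP
        fun t => prod2 k t _ _ (hξB k _) (hOB t)
      simpa only [mul_assoc] using this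
  have h1 : ∀ k, Integrable (fun t : ι → ℝ => dξ k (t k) * (O t * Phi (er ι) (hT h x) (wT o x) t)) :=
    fun k => by
      have := int_of_bd (ζ := fun t => dξ k (t k) * O t) hκ mP ((mdξ' k).mul hOm) bP
        fun t => prod2 k t _ _ (hdB k _) (hOB t)
      simpa only [mul_assoc] using this
  have h2 : ∀ k, Integrable (fun t : ι → ℝ => ξ k (t k) * (dO k t * Phi (er ι) (hT h x) (wT o x) t)) :=
    fun k => by
      have := int_of_bd (ζ := fun t => ξ k (t k) * dO k t) hκ mP ((mξ' k).mul (hdOm k)) bP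
        fun t => prod2 k t _ _ (hξB k _) (hdOB k t)
      simpa only [mul_assoc] using this
  have h3 : ∀ k, Integrable (fun t : ι → ℝ => ξ k (t k) * (O t * dPhi (er ι) (hT h x)
      (fun i t => I * L i (vl (x i) t)) (wT o x) (wT' o x) k t)) :=
    fun k => by
      have := int_of_bd (ζ := fun t => ξ k (t k) * O t) hκ (mD k) ((mξ' k).mul hOm) (bD k)
        fun t => prod2 k t _ _ (hξB k _) (hOB t)
      simpa only [mul_assoc] using this
  have key : ∀ k, ∫ t : ι → ℝ, (dξ k (t k) * (O t * Phi (er ι) (hT h x) (wT o x) t) +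
      (ξ k (t k) * (dO k t * Phi (er ι) (hT h x) (wT o x) t) + ξ k (t k) * (O t *
        dPhi (er ι) (hT h x) (fun i t => I * L i (vl (x i) t)) (wT o x) (wT' o x) k t))) = 0 := by
    intro k
    refine integral_lineDeriv_zero
      (f := fun t : ι → ℝ => ξ k (t k) * (O t * Phi (er ι) (hT h x) (wT o x) t))
      (v := Pi.single k 1) (h0 k) ((h1 k).add ((h2 k).add (h3 k))) fun t => ?_
    have e1 : HasLineDerivAt ℝ (fun t : ι → ℝ => ξ k (t k)) (dξ k (t k)) t (Pi.single k 1) := by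
      unfold HasLineDerivAt
      have := (hξ k ((t + (0 : ℝ) • (Pi.single k (1 : ℝ) : ι → ℝ)) k)).scomp (0 : ℝ)
        (hasDerivAt_coord t k k)
      rw [coord_zero, if_pos rfl, one_smul] at this
      exact this
    have e2 := hO k t
    have e3 := hasLineDerivAt_Phi (r := er ι) (hasDerivAt_hT hL) (hasDerivAt_wT hg) k t
    unfold HasLineDerivAt at e1 e2 e3 ⊢
    have h4 : HasDerivAt (fun s : ℝ => ξ k ((t + s • (Pi.single k (1 : ℝ) : ι → ℝ)) k) *
        (O (t + s • (Pi.single k (1 : ℝ) : ι → ℝ)) *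
          Phi (er ι) (hT h x) (wT o x) (t + s • (Pi.single k (1 : ℝ) : ι → ℝ)))) _ 0 :=
      e1.mul (e2.mul e3)
    refine h4.congr_deriv ?_
    simp only [zero_smul, add_zero]
    ring
  have hs : ∫ t : ι → ℝ, ∑ k, (dξ k (t k) * (O t * Phi (er ι) (hT h x) (wT o x) t) +
      (ξ k (t k) * (dO k t * Phi (er ι) (hT h x) (wT o x) t) + ξ k (t k) * (O t *
        dPhi (er ι) (hT h x) (fun i t => I * L i (vl (x i) t)) (wT o x) (wT' o x) k t))) = 0 := by
    have := integral_finsetSum (μ := (volume : Measure (ι → ℝ))) Finset.univ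
      (f := fun k t => dξ k (t k) * (O t * Phi (er ι) (hT h x) (wT o x) t) +
      (ξ k (t k) * (dO k t * Phi (er ι) (hT h x) (wT o x) t) + ξ k (t k) * (O t *
        dPhi (er ι) (hT h x) (fun i t => I * L i (vl (x i) t)) (wT o x) (wT' o x) k t)))
      fun k _ => (h1 k).add ((h2 k).add (h3 k))
    rw [this]
    exact Finset.sum_eq_zero fun k _ => key k
  rw [← hs]
  have hae : ∀ᵐ t : ι → ℝ, ∀ a b, a ≠ b → t a ≠ t b := ae_ne
  refine integral_congr_ae (hae.mono fun t ht => ?_)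
  simp only []
  have hne : ∀ p ∈ prs (er ι), p.1 ≠ p.2 := by
    intro p hp h0
    have : er ι p.1 p.2 := by simpa [prs] using hp
    rw [h0] at this
    exact (tour_er ι).irr _ this
  have e := sum_dPhi_at (r := er ι) (h := hT h x) (κ := fun i t => I * L i (vl (x i) t))
    (w := wT o x) (w' := wT' o x) (ξ := ξ) (a := a) t fun p hp =>
      pair_rel (ht p.1 p.2 (hne p hp)) (ha p.1 p.2 _ _ (hne p hp) (ht p.1 p.2 (hne p hp)))
  have e' : ∑ k, ξ k (t k) * (O t * dPhi (er ι) (hT h x)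
      (fun i t => I * L i (vl (x i) t)) (wT o x) (wT' o x) k t) =
      O t * (((∑ k, ξ k (t k) * (I * L k (vl (x k) (t k)))) +
        ∑ p ∈ prs (er ι), a p.1 p.2 (t p.1) (t p.2)) * Phi (er ι) (hT h x) (wT o x) t) := by
    rw [← e, Finset.mul_sum]
    exact Finset.sum_congr rfl fun k _ => by ring
  simp_rw [Finset.sum_add_distrib]
  rw [e', Fg_eq_Phi]
  have e2 : ∑ k, dξ k (t k) * (O t * Phi (er ι) (hT h x) (wT o x) t) =
      (∑ k, dξ k (t k)) * (O t * Phi (er ι) (hT h x) (wT o x) t) := by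
    rw [Finset.sum_mul]
  have e3 : ∑ k, ξ k (t k) * (dO k t * Phi (er ι) (hT h x) (wT o x) t) =
      (∑ k, ξ k (t k) * dO k t) * Phi (er ι) (hT h x) (wT o x) t := by
    rw [Finset.sum_mul]
    exact Finset.sum_congr rfl fun k _ => by ring
  rw [e2, e3]
  unfold pos
  ring

/-! ## quanta on one line -/

/-- pair function of two quanta of the species `b`, `c` on one line -/
def gA (b c : Bool) (u : ℝ) : ℝ := if b = c then NUMF.w u else NUMF.g u

/-- its logarithmic derivative -/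
def KA (b c : Bool) (u : ℝ) : ℝ := if b = c then Pool.Agent.PB.Kw u else Pool.Agent.PB.Kg u

theorem wcx_real (u : ℝ) : NUKer.wcx u = (NUMF.w u : ℂ) := by
  unfold NUKer.wcx NUMF.w
  push_cast
  rfl

theorem gcx_real (u : ℝ) : NUKer.gcx u = (NUMF.g u : ℂ) := by
  unfold NUKer.gcx NUMF.g
  push_cast
  rfl

theorem gz_AA (b c : Bool) (u : ℝ) : gz (b, .A) (c, .A) (I * u) = (gA b c u : ℂ) := by
  unfold gz gA
  by_cases h : b = c
  · simp only [if_pos h]
    exact (q_I_mul _).trans (wcx_real u)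
  · simp only [if_neg h]
    exact (qg_I_mul _).trans (gcx_real u)

theorem gA_pos {b c : Bool} {u : ℝ} (h : u ≠ 0 ∨ b ≠ c) : 0 < gA b c u := by
  unfold gA
  split_ifs with h1
  · exact NUMF.w_pos (h.resolve_right fun h2 => h2 h1)
  · exact NUMF.g_pos u

theorem hasDerivAt_gA {b c : Bool} {u : ℝ} (h : u ≠ 0 ∨ b ≠ c) :
    HasDerivAt (gA b c) (gA b c u * KA b c u) u := by
  unfold gA KA
  by_cases h1 : b = c
  · have hu : u ≠ 0 := h.resolve_right fun h2 => h2 h1
    simp only [if_pos h1]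
    have h2 := (Pool.Agent.PB.hasDerivAt_log_w hu).exp
    rw [Real.exp_log (NUMF.w_pos hu)] at h2
    refine h2.congr_of_eventuallyEq ?_
    filter_upwards [isOpen_ne.mem_nhds hu] with v hv
    exact (Real.exp_log (NUMF.w_pos hv)).symm
  · simp only [if_neg h1]
    have h2 := (Pool.Agent.PB.hasDerivAt_log_g u).exp
    rw [Real.exp_log (NUMF.g_pos u)] at h2
    refine h2.congr_of_eventuallyEq (Filter.Eventually.of_forall fun v => ?_)
    exact (Real.exp_log (NUMF.g_pos v)).symm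

theorem Ok_AA (b c : Bool) : Ok (b, .A) (c, .A) 0 := by
  by_cases h : b = c
  · subst h
    exact Ok_self _
  · have h3 : Real.sin (3 * l) ≠ 0 := by
      have := Real.sin_pos_of_pos_of_lt_pi (x := 3 * l) (by linarith [l_pos]) (by
        have hp := Real.pi_pos
        unfold l
        linarith)
      exact this.ne'
    intro s hs
    unfold poles at hs
    simp only [if_neg h, List.mem_cons, List.not_mem_nil, or_false] at hs
    rcases hs with rfl | rfl
    · rwa [zero_add]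
    · rw [zero_add, Real.sin_neg]
      exact neg_ne_zero.2 h3

theorem vl_zero (u : ℝ) : vl 0 u = I * u := by
  unfold vl
  push_cast
  ring

theorem deriv_gz_AA {b c : Bool} {u : ℝ} (h : u ≠ 0 ∨ b ≠ c) :
    I * deriv (gz (b, .A) (c, .A)) (I * u) = ((gA b c u * KA b c u : ℝ) : ℂ) := by
  have h1 : HasDerivAt (gz (b, .A) (c, .A)) (deriv (gz (b, .A) (c, .A)) (vl 0 u)) (vl 0 u) := by
    refine (differentiableAt_gz _ _ ?_).hasDerivAt
    rw [re_vl]
    exact Ok_AA b c
  have h2 := h1.comp u (hasDerivAt_vl 0 u)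
  have h3 := (hasDerivAt_gA h).ofReal_comp
  have e : (gz (b, .A) (c, .A) ∘ fun s : ℝ => vl 0 s) = fun s : ℝ => (gA b c s : ℂ) := by
    funext s
    simp only [Function.comp]
    rw [vl_zero, gz_AA]
  rw [e] at h2
  have h4 := h2.unique h3
  rw [vl_zero, mul_comm] at h4
  exact h4

/-- **the kernel of two quanta** -/
theorem I_lz_AA {b c : Bool} {u : ℝ} (h : u ≠ 0 ∨ b ≠ c) :
    I * lz (b, .A) (c, .A) (I * u) = (KA b c u : ℂ) := by
  have h1 := gA_pos h
  have h2 : (gA b c u : ℂ) ≠ 0 := by exact_mod_cast h1.ne'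
  unfold lz
  rw [gz_AA, ← mul_div_assoc, deriv_gz_AA h, ofReal_mul]
  field_simp

/-- **the relation of the kernels everywhere** (diagonal included) -/
theorem ha_AA {ξ : Bool → ℝ → ℂ} {a : Bool → Bool → ℝ → ℝ → ℂ}
    (ha : ∀ b c s t, s ≠ t ∨ b ≠ c → a b c s t = (ξ b s - ξ c t) * KA b c (s - t))
    (sp : ι → Bool) (x : ℝ) (i j : ι) (s t : ℝ) :
    (ξ (sp i) s - ξ (sp j) t) * wT' (fun i => (sp i, Ob.A)) (fun _ => x) i j (s - t) =
      a (sp i) (sp j) s t * wT (fun i => (sp i, Ob.A)) (fun _ => x) i j (s - t) := by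
  unfold wT wT'
  rw [sub_self, vl_zero]
  by_cases h : s ≠ t ∨ sp i ≠ sp j
  · have h' : s - t ≠ 0 ∨ sp i ≠ sp j := h.imp sub_ne_zero.2 id
    rw [deriv_gz_AA h', gz_AA, ha _ _ _ _ h]
    push_cast
    ring
  · push Not at h
    obtain ⟨h1, h2⟩ := h
    rw [gz_AA, h1, h2, sub_self, zero_mul, sub_self]
    have : gA (sp j) (sp j) 0 = 0 := by
      unfold gA NUMF.w
      simp
    rw [this]
    simp

/-- **the Ward identity of the gas of quanta** of both species on the line `x`, in statistics: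
total charge `Q` of the fixed objects, `κr + lam` = the logarithmic derivatives of the one body
functions along the line, `κr` the part of the rows -/
theorem ward_A (sp : ι → Bool) {x κ δ Q : ℝ} (hn : Q + ∑ i, (if sp i then (1 : ℝ) else -1) = 0)
    (hδ : 0 ≤ δ) (hκ : 2 * δ < κ) {h L : ι → ℂ → ℂ} (hm : ∀ i, Measurable (h i))
    (hmL : ∀ i, Measurable (L i))
    (hh : ∀ i, DecQ κ (2 * Q * (if sp i then (1 : ℝ) else -1)) {x} (h i))
    (hhL : ∀ i, DecQ κ (2 * Q * (if sp i then (1 : ℝ) else -1)) {x} (fun z => L i z * h i z))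
    (hL : ∀ i z, z.re = x → HasDerivAt (h i) (L i z * h i z) z)
    {ρ ξ dξ κr g : Bool → ℝ → ℂ} {lam : ι → ℝ → ℂ} {a : Bool → Bool → ℝ → ℝ → ℂ}
    (hlam : ∀ i t, κr (sp i) t + lam i t = I * L i (vl x t))
    (has : ∀ b c s t, a b c s t = a c b t s) (had : ∀ b t, a b b t t = 2 * dξ b t)
    (ha : ∀ b c s t, s ≠ t → a b c s t = (ξ b s - ξ c t) * KA b c (s - t))
    (hg : ∀ b s, g b s = -(ξ b s * κr b s + smr ρ a b s))
    (hI1 : ∀ b, Integrable fun s => ρ b s * (ξ b s * κr b s))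
    (hI2 : ∀ b, Integrable fun s => ρ b s * smr ρ a b s)
    (hE : ∑ b, (∫ s, ρ b s * (ξ b s * κr b s)) + (1 / 2) * dbl ρ a = 0)
    {B : ℝ} (hB : 0 ≤ B) (hξ : ∀ b t, HasDerivAt (ξ b) (dξ b t) t)
    (hξB : ∀ b t, ‖ξ b t‖ ≤ B * Real.exp (δ * |t|))
    (hdB : ∀ b t, ‖dξ b t‖ ≤ B * Real.exp (δ * |t|))
    {O : (ι → ℝ) → ℂ} {dO : ι → (ι → ℝ) → ℂ}
    (hO : ∀ k t, HasLineDerivAt ℝ O (dO k t) t (Pi.single k 1))
    (hOm : AEStronglyMeasurable O) (hdOm : ∀ k, AEStronglyMeasurable (dO k))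
    (hOB : ∀ t, ‖O t‖ ≤ B * EX (-δ) t) (hdOB : ∀ k t, ‖dO k t‖ ≤ B * EX (-δ) t) :
    ∫ t : ι → ℝ, ((-nuL sp ρ g t + nuQ sp ρ a t + ∑ k, ξ (sp k) (t k) * lam k (t k)) * O t +
      ∑ k, ξ (sp k) (t k) * dO k t) * Fg (fun i => (sp i, Ob.A)) h (pos (fun _ => x) t) = 0 := by
  have esc : ∀ b : Bool, sc (b, Ob.A) = if b then (1 : ℝ) else -1 := by
    intro b
    cases b <;> simp [sc, chg]
  have key := ward_Q (o := fun i => (sp i, Ob.A)) (Q := Q) (x := fun _ => x) (h := h) (L := L)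
    (by simpa only [esc] using hn) hδ hκ hm hmL (by simpa only [esc] using hh)
    (by simpa only [esc] using hhL) hL
    (fun i j _ => by rw [sub_self]; exact Ok_AA _ _) hB
    (ξ := fun i => ξ (sp i)) (dξ := fun i => dξ (sp i)) (fun i => hξ (sp i))
    (fun i => hξB (sp i)) (fun i => hdB (sp i)) (a := fun i j => a (sp i) (sp j))
    (fun i j s t _ hst => by
      have e : vl x s - vl x t = I * ((s - t : ℝ) : ℂ) := by
        unfold vl
        push_cast
        ring
      rw [e, I_lz_AA (Or.inl (sub_ne_zero.2 hst)), ha _ _ _ _ hst]) hO hOm hdOm hOB hdOB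
  rw [← key]
  refine integral_congr_ae (Filter.Eventually.of_forall fun t => ?_)
  simp only []
  rw [← gasAlg (r := er ι) ⟨(tour_er ι).irr, (tour_er ι).tot⟩ sp has had hg hI1 hI2 hE t]
  congr 4
  exact Finset.sum_congr rfl fun k _ => by rw [hlam]; rfl

/-! ## the one body functions in the field of fixed objects -/

theorem DecQ.prod {ι' : Type*} [Fintype ι'] {c : ι' → ℝ} {H : ℂ → ℂ} {f : ι' → ℂ → ℂ}
    {κ s : ℝ} {K : Set ℝ} (hH : DecQ κ 0 K H) (hf : ∀ b, Bdd K (2 * c b * s) (f b)) :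
    DecQ κ (2 * (∑ b, c b) * s) K (fun v => H v * ∏ b, f b v) := by
  obtain ⟨D, hD⟩ := hH
  choose C hC hb using hf
  refine ⟨D * ∏ b, C b, fun v hv => ?_⟩
  rw [norm_mul, norm_prod]
  have h2 := hD v hv
  have h3 : ∏ b, ‖f b v‖ ≤ ∏ b, (C b * Real.exp (2 * c b * s * |v.im|)) :=
    Finset.prod_le_prod (fun b _ => norm_nonneg _) fun b _ => hb b v hv
  rw [Finset.prod_mul_distrib, ← Real.exp_sum] at h3
  have h4 : ∑ b, 2 * c b * s * |v.im| = 2 * (∑ b, c b) * s * |v.im| := by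
    rw [Finset.mul_sum, Finset.sum_mul, Finset.sum_mul]
  rw [h4] at h3
  refine (mul_le_mul h2 h3 (Finset.prod_nonneg fun b _ => norm_nonneg _)
    ((norm_nonneg _).trans h2)).trans (le_of_eq ?_)
  rw [Real.exp_add, Real.exp_add, zero_mul, Real.exp_zero]
  ring

/-- a bound in the field of a fixed object -/
theorem Bdd.shift {K : Set ℝ} {c s r x : ℝ} {f : ℂ → ℂ} (hK : Bdd K r f) (e : r = 2 * c * s)
    (z : ℂ) (hx : x - z.re ∈ K) : Bdd {x} (2 * c * s) (fun v => f (v - z)) := by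
  obtain ⟨C, hC, hb⟩ := hK
  refine ⟨C * Real.exp (|r| * |z.im|), by positivity, fun v hv => ?_⟩
  rw [Set.mem_singleton_iff] at hv
  refine (hb (v - z) (by rw [sub_re, hv]; exact hx)).trans ?_
  rw [mul_assoc, ← Real.exp_add]
  refine mul_le_mul_of_nonneg_left (Real.exp_le_exp.2 ?_) hC
  rw [sub_im]
  have h2 : |(|v.im - z.im| - |v.im|)| ≤ |z.im| := by
    have := abs_abs_sub_abs_le_abs_sub (v.im - z.im) v.im
    rwa [sub_sub_cancel_left, abs_neg] at this
  have h3 : r * (|v.im - z.im| - |v.im|) ≤ |r| * |z.im| :=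
    (le_abs_self _).trans (by rw [abs_mul]; exact mul_le_mul_of_nonneg_left h2 (abs_nonneg _))
  rw [← e]
  linarith

theorem bdd_gz_shift {o0 o : CO} {x : ℝ} {z : ℂ} (hg : Ok o0 o (x - z.re)) :
    Bdd {x} (2 * sc o * sc o0) (fun v => gz o0 o (v - z)) := by
  refine Bdd.shift (K := {x - z.re}) (r := rt o0 o) (bdd_gz isCompact_singleton o0 o
    (fun d hd => by
      rw [Set.mem_singleton_iff] at hd
      rw [hd]
      exact hg)) ?_ z (Set.mem_singleton _)
  unfold rt
  ring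

theorem bdd_dgz_shift {o0 o : CO} {x : ℝ} {z : ℂ} (hg : Ok o0 o (x - z.re)) :
    Bdd {x} (2 * sc o * sc o0) (fun v => deriv (gz o0 o) (v - z)) := by
  refine Bdd.shift (K := {x - z.re}) (r := rt o0 o) (bdd_dgz hg) ?_ z (Set.mem_singleton _)
  unfold rt
  ring

/-- **bound of the one body function in the field of the fixed objects** -/
theorem DecQ.fld {ι' : Type*} [Fintype ι'] {o : ι' → CO} {z : ι' → ℂ} {o0 : CO} {H : ℂ → ℂ}
    {κ x : ℝ} (hH : DecQ κ 0 {x} H) (hg : ∀ b, Ok o0 (o b) (x - (z b).re)) :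
    DecQ κ (2 * (∑ b, sc (o b)) * sc o0) {x} (fld o z o0 H) :=
  DecQ.prod hH fun b => bdd_gz_shift (hg b)

theorem DecQ.add {κ q : ℝ} {K : Set ℝ} {f g : ℂ → ℂ} (hf : DecQ κ q K f) (hg : DecQ κ q K g) :
    DecQ κ q K (fun v => f v + g v) := by
  obtain ⟨D, hD⟩ := hf
  obtain ⟨D', hD'⟩ := hg
  refine ⟨D + D', fun v hv => (norm_add_le _ _).trans ?_⟩
  rw [add_mul]
  exact add_le_add (hD v hv) (hD' v hv)

theorem DecQ.sum {ι' : Type*} {κ q : ℝ} {K : Set ℝ} {f : ι' → ℂ → ℂ} (s : Finset ι')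
    (hf : ∀ b ∈ s, DecQ κ q K (f b)) : DecQ κ q K (fun v => ∑ b ∈ s, f b v) := by
  have : ∀ b, ∃ D : ℝ, b ∈ s → ∀ z : ℂ, z.re ∈ K →
      ‖f b z‖ ≤ D * Real.exp (-(κ * |z.im|) + q * |z.im|) := by
    intro b
    by_cases hb : b ∈ s
    · obtain ⟨D, hD⟩ := hf b hb
      exact ⟨D, fun _ => hD⟩
    · exact ⟨0, fun h => absurd h hb⟩
  choose D hD using this
  refine ⟨∑ b ∈ s, D b, fun v hv => (norm_sum_le _ _).trans ?_⟩
  rw [Finset.sum_mul]
  exact Finset.sum_le_sum fun b hb => hD b hb v hv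

theorem hasDerivAt_fld {ι' : Type*} [Fintype ι'] {o : ι' → CO} {z : ι' → ℂ} {o0 : CO}
    {H : ℂ → ℂ} {M v : ℂ} (hH : HasDerivAt H (M * H v) v) (hg : ∀ b, Ok o0 (o b) (v - z b).re)
    (h0 : ∀ b, gz o0 (o b) (v - z b) ≠ 0) :
    HasDerivAt (NUP1S.fld o z o0 H)
      ((M + ∑ b, lz o0 (o b) (v - z b)) * NUP1S.fld o z o0 H v) v := by
  have h1 := HasDerivAt.fun_finsetProd (u := (Finset.univ : Finset ι')) (x := v)
    (f := fun b w => gz o0 (o b) (w - z b))
    (f' := fun b => deriv (gz o0 (o b)) (v - z b))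
    (fun b _ => by
      have h2 := (differentiableAt_gz o0 (o b) (hg b)).hasDerivAt
      have h3 := h2.comp v ((hasDerivAt_id v).sub_const (z b))
      rw [mul_one] at h3
      exact h3)
  have h2 := hH.mul h1
  unfold NUP1S.fld
  have hfin : HasDerivAt (fun w => H w * ∏ b, gz o0 (o b) (w - z b)) _ v := h2
  refine hfin.congr_deriv ?_
  have e : ∑ b, (∏ b' ∈ Finset.univ.erase b, gz o0 (o b') (v - z b')) •
      deriv (gz o0 (o b)) (v - z b) =
      (∑ b, lz o0 (o b) (v - z b)) * ∏ b, gz o0 (o b) (v - z b) := by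
    rw [Finset.sum_mul]
    refine Finset.sum_congr rfl fun b _ => ?_
    rw [← Finset.mul_prod_erase Finset.univ (fun b => gz o0 (o b) (v - z b)) (Finset.mem_univ b),
      smul_eq_mul]
    unfold lz
    have := h0 b
    field_simp
  rw [e]
  ring

/-- **bound of its derivative** -/
theorem DecQ.dfld {ι' : Type*} [Fintype ι'] {o : ι' → CO} {z : ι' → ℂ} {o0 : CO} {H M : ℂ → ℂ}
    {κ x : ℝ} (hH : DecQ κ 0 {x} H) (hM : DecQ κ 0 {x} (fun v => M v * H v))
    (hg : ∀ b, Ok o0 (o b) (x - (z b).re))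
    (h0 : ∀ b, ∀ v : ℂ, v.re = x → gz o0 (o b) (v - z b) ≠ 0) :
    DecQ κ (2 * (∑ b, sc (o b)) * sc o0) {x}
      (fun v => (M v + ∑ b, lz o0 (o b) (v - z b)) * NUP1S.fld o z o0 H v) := by
  have h1 : DecQ κ (2 * (∑ b, sc (o b)) * sc o0) {x} (NUP1S.fld o z o0 fun v => M v * H v) :=
    DecQ.fld hM hg
  have h2 : ∀ b ∈ (Finset.univ : Finset ι'), DecQ κ (2 * (∑ b, sc (o b)) * sc o0) {x} (fun v =>
      H v * ∏ b', if b' = b then deriv (gz o0 (o b')) (v - z b') else
        gz o0 (o b') (v - z b')) := by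
    intro b _
    refine DecQ.prod hH fun b' => ?_
    by_cases h : b' = b
    · simp only [if_pos h]
      exact bdd_dgz_shift (hg b')
    · simp only [if_neg h]
      exact bdd_gz_shift (hg b')
  obtain ⟨D, hD⟩ := h1.add (DecQ.sum Finset.univ h2)
  refine ⟨D, fun v hv => ?_⟩
  have e : (M v + ∑ b, lz o0 (o b) (v - z b)) * NUP1S.fld o z o0 H v =
      NUP1S.fld o z o0 (fun v => M v * H v) v + ∑ b, H v * ∏ b', if b' = b then
        deriv (gz o0 (o b')) (v - z b') else gz o0 (o b') (v - z b') := by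
    unfold NUP1S.fld
    rw [add_mul, Finset.sum_mul]
    congr 1
    · ring
    · refine Finset.sum_congr rfl fun b _ => ?_
      rw [← Finset.mul_prod_erase Finset.univ (fun b => gz o0 (o b) (v - z b)) (Finset.mem_univ b),
        ← Finset.mul_prod_erase Finset.univ (fun b' => if b' = b then
          deriv (gz o0 (o b')) (v - z b') else gz o0 (o b') (v - z b')) (Finset.mem_univ b),
        if_pos rfl]
      have e1 : ∏ b' ∈ Finset.univ.erase b, (if b' = b then
          deriv (gz o0 (o b')) (v - z b') else gz o0 (o b') (v - z b')) =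
          ∏ b' ∈ Finset.univ.erase b, gz o0 (o b') (v - z b') :=
        Finset.prod_congr rfl fun b' hb' => by rw [if_neg (Finset.ne_of_mem_erase hb')]
      rw [e1]
      have := h0 b v hv
      unfold lz
      field_simp
  have h3 := hD v hv
  simp only [] at h3 ⊢
  rw [e]
  exact h3

theorem measurable_fld {ι' : Type*} [Fintype ι'] (o : ι' → CO) (z : ι' → ℂ) (o0 : CO)
    {H : ℂ → ℂ} (hH : Measurable H) : Measurable (NUP1S.fld o z o0 H) := by
  unfold NUP1S.fld
  exact hH.mul (Finset.measurable_prod _ fun b _ =>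
    (measurable_gz o0 (o b)).comp (measurable_id.sub_const _))

end PB

end
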