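import Pool.Agent.PB.Wave2
import Pool.Agent.PB.MFxi

/-!
# Plan B: the local parts of the pair kernels in the complex strip `|Im u| < l`

`hX u = u (Kw u - 2 tanh 2u)`, `hY u = u (Kg u + 2 tanh 2u)` (removable singularity at `0`):
* `hX_real`, `hY_real`: the values at real `u ≠ 0`, `hX_zero : hX 0 = 2`, `hY_zero : hY 0 = 0`;
* `hX_diff`, `hY_diff`: analytic for `|Im u| < l`;
* `hX_bound`, `hY_bound`: `≤ C e^{-a |Re u|}` on `|Im u| ≤ Y`, `Y < l`, `a < 2`.
-/

set_option autoImplicit false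

open Complex Set Filter Topology

noncomputable section

namespace PBV

open NUMF (l r r_eq r_pos r_lt_one l_pos)

/-- `sinh u / u` -/
def shc (u : ℂ) : ℂ := dslope sinh 0 u

lemma shc_zero : shc 0 = 1 := by
  unfold shc
  rw [dslope_same, Complex.deriv_sinh]
  simp

lemma shc_ne {u : ℂ} (h : u ≠ 0) : shc u = sinh u / u := by
  unfold shc
  rw [dslope_of_ne _ h, slope_def_field]
  simp

lemma shc_mul (u : ℂ) : u * shc u = sinh u := by
  by_cases h : u = 0
  · simp [h]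
  · rw [shc_ne h]; field_simp

lemma shc_diff : Differentiable ℂ shc := by
  intro u
  have h : DifferentiableOn ℂ (dslope sinh 0) univ :=
    (Complex.differentiableOn_dslope univ_mem).2 differentiable_sinh.differentiableOn
  exact (h u (mem_univ u)).differentiableAt univ_mem

lemma shc_neg (u : ℂ) : shc (-u) = shc u := by
  by_cases h : u = 0
  · simp [h]
  · rw [shc_ne h, shc_ne (neg_ne_zero.2 h), sinh_neg, neg_div_neg_eq]

/-- local part of `u (log w)'` -/
def hX (u : ℂ) : ℂ := 2 * (1 - r) * cosh u / (shc u * (cosh (2 * u) - r))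

/-- local part of `u (log g)'` -/
def hY (u : ℂ) : ℂ := 2 * u * ((r - 1 / 2) * sinh (3 * u) + 1 / 2 * sinh u) /
  (cosh u * cosh (2 * u) * (cosh (2 * u) + r))

lemma hX_neg (u : ℂ) : hX (-u) = hX u := by
  unfold hX
  rw [shc_neg, mul_neg, cosh_neg, cosh_neg]

lemma hY_neg (u : ℂ) : hY (-u) = hY u := by
  unfold hY
  rw [mul_neg, mul_neg, sinh_neg, sinh_neg, cosh_neg, cosh_neg]
  ring

lemma hX_zero : hX 0 = 2 := by
  unfold hX
  rw [shc_zero]
  have h1 : (1 : ℂ) - r ≠ 0 := by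
    have := r_lt_one
    exact_mod_cast (by linarith : (1 : ℝ) - r ≠ 0)
  simp
  field_simp

lemma hY_zero : hY 0 = 0 := by
  unfold hY; simp

/-! ### real values -/

lemma sinh_two_div {u : ℝ} (hu : u ≠ 0) :
    2 * Real.sinh (2 * u) / (Real.cosh (2 * u) - 1) = 2 * Real.cosh u / Real.sinh u := by
  have hS : Real.sinh u ≠ 0 := fun e => hu (Real.sinh_eq_zero.1 e)
  have h1 := Real.cosh_sq u
  rw [Real.sinh_two_mul, Real.cosh_two_mul]
  have h2 : Real.cosh u ^ 2 + Real.sinh u ^ 2 - 1 = 2 * Real.sinh u ^ 2 := by rw [h1]; ring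
  rw [h2]
  field_simp

lemma sinh_two_div' (u : ℝ) :
    2 * Real.sinh (2 * u) / (Real.cosh (2 * u) + 1) = 2 * Real.sinh u / Real.cosh u := by
  have hC : Real.cosh u ≠ 0 := (Real.cosh_pos u).ne'
  have h1 := Real.cosh_sq u
  rw [Real.sinh_two_mul, Real.cosh_two_mul]
  have h2 : Real.cosh u ^ 2 + Real.sinh u ^ 2 + 1 = 2 * Real.cosh u ^ 2 := by
    have : Real.sinh u ^ 2 = Real.cosh u ^ 2 - 1 := by rw [h1]; ring
    rw [this]; ring
  rw [h2]
  field_simp

theorem hX_real {u : ℝ} (hu : u ≠ 0) :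
    hX u = ((u * (Pool.Agent.PB.Kw u - 2 * Real.tanh (2 * u)) : ℝ) : ℂ) := by
  have hS : Real.sinh u ≠ 0 := fun e => hu (Real.sinh_eq_zero.1 e)
  have hC1 := Real.one_le_cosh (2 * u)
  have hr1 := r_lt_one
  have hD : Real.cosh (2 * u) - r ≠ 0 := by linarith
  have hC2 : Real.cosh (2 * u) ≠ 0 := by linarith
  have e1 : Pool.Agent.PB.Kw u - 2 * Real.tanh (2 * u) =
      2 * (1 - r) * Real.cosh u / (Real.sinh u * (Real.cosh (2 * u) - r)) := by
    have h3 : Real.cosh (2 * u) * Real.cosh u - Real.sinh (2 * u) * Real.sinh u = Real.cosh u := by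
      rw [← Real.cosh_sub]; congr 1; ring
    have h6 : Pool.Agent.PB.Kw u - 2 * Real.tanh (2 * u) =
        2 * Real.cosh u / Real.sinh u - 2 * Real.sinh (2 * u) / (Real.cosh (2 * u) - r) := by
      unfold Pool.Agent.PB.Kw
      rw [sinh_two_div hu, Real.tanh_eq_sinh_div_cosh]
      ring
    rw [h6, div_sub_div _ _ hS hD]
    congr 1
    linear_combination 2 * h3
  rw [e1]
  unfold hX
  have hu' : (u : ℂ) ≠ 0 := by exact_mod_cast hu
  rw [shc_ne hu']
  push_cast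
  have hS' : (sinh (u : ℂ)) ≠ 0 := by exact_mod_cast hS
  have hD' : (cosh (2 * (u : ℂ)) - (r : ℂ)) ≠ 0 := by exact_mod_cast hD
  field_simp

theorem hY_real (u : ℝ) :
    hY u = ((u * (Pool.Agent.PB.Kg u + 2 * Real.tanh (2 * u)) : ℝ) : ℂ) := by
  have hC := Real.cosh_pos u
  have hC1 := Real.one_le_cosh (2 * u)
  have hr0 := r_pos
  have hD : Real.cosh (2 * u) + r ≠ 0 := by linarith
  have hC2 : Real.cosh (2 * u) ≠ 0 := by linarith
  have e1 : Pool.Agent.PB.Kg u + 2 * Real.tanh (2 * u) =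
      2 * ((r - 1 / 2) * Real.sinh (3 * u) + 1 / 2 * Real.sinh u) /
        (Real.cosh u * Real.cosh (2 * u) * (Real.cosh (2 * u) + r)) := by
    unfold Pool.Agent.PB.Kg
    rw [sinh_two_div' u, Real.tanh_eq_sinh_div_cosh]
    have h3 : Real.sinh (3 * u) = Real.sinh u * Real.cosh (2 * u) + Real.cosh u * Real.sinh (2 * u) := by
      rw [← Real.sinh_add]; congr 1; ring
    have h4 : Real.sinh (2 * u) = 2 * Real.sinh u * Real.cosh u := Real.sinh_two_mul u
    have h5 : Real.cosh (2 * u) = 2 * Real.cosh u ^ 2 - 1 := by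
      have h6 := Real.cosh_sq u
      rw [Real.cosh_two_mul]
      linear_combination -h6
    rw [h3, h4]
    generalize Real.sinh u = S at *
    generalize hc2 : Real.cosh (2 * u) = c at *
    generalize hc1 : Real.cosh u = C at *
    field_simp
    linear_combination (S * (2 * c - 1)) * h5
  rw [e1]
  unfold hY
  push_cast
  ring

/-! ### lower bounds of the denominators -/

lemma cosh_re_eq (w : ℂ) : (cosh w).re = Real.cosh w.re * Real.cos w.im := by
  have h : cosh w = Real.cosh w.re * Real.cos w.im + Real.sinh w.re * Real.sin w.im * I := by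
    conv_lhs => rw [← Complex.re_add_im w]
    rw [Complex.cosh_add, Complex.cosh_mul_I, Complex.sinh_mul_I, ← ofReal_cosh, ← ofReal_sinh, ← ofReal_cos,
      ← ofReal_sin]
    ring
  rw [h]
  simp only [add_re, mul_re, ofReal_re, ofReal_im, mul_zero, sub_zero, I_re, I_im, mul_one, mul_im, zero_mul, add_zero,
    sub_self]

lemma norm_cosh_ge (w : ℂ) : Real.cosh w.re * Real.cos w.im ≤ ‖cosh w‖ := by
  have h1 := Complex.abs_re_le_norm (cosh w)
  rw [cosh_re_eq] at h1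
  exact (le_abs_self _).trans h1

lemma norm_cosh_le (w : ℂ) : ‖cosh w‖ ≤ Real.cosh w.re := by
  rw [Complex.cosh, Real.cosh_eq, norm_div]
  have h1 := norm_add_le (exp w) (exp (-w))
  rw [Complex.norm_exp, Complex.norm_exp, neg_re] at h1
  have h2 : ‖(2 : ℂ)‖ = 2 := by simp
  rw [h2]
  gcongr

lemma norm_sinh_le (w : ℂ) : ‖sinh w‖ ≤ Real.cosh w.re := by
  rw [Complex.sinh, Real.cosh_eq, norm_div]
  have h1 := norm_sub_le (exp w) (exp (-w))
  rw [Complex.norm_exp, Complex.norm_exp, neg_re] at h1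
  have h2 : ‖(2 : ℂ)‖ = 2 := by simp
  rw [h2]
  gcongr

lemma cosh_le_exp (x : ℝ) : Real.cosh x ≤ Real.exp |x| := by
  rw [← Real.cosh_abs, Real.cosh_eq]
  have h1 : Real.exp (-|x|) ≤ Real.exp |x| := Real.exp_le_exp.2 (by linarith [abs_nonneg x])
  linarith

lemma exp_le_cosh (x : ℝ) : Real.exp |x| / 2 ≤ Real.cosh x := by
  rw [← Real.cosh_abs, Real.cosh_eq]
  have := Real.exp_pos (-|x|)
  linarith

lemma cos_two_ge {y : ℝ} (hy : |y| ≤ l) : r ≤ Real.cos (2 * y) := by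
  rw [r_eq, ← Real.cos_abs (2 * y), abs_mul, abs_of_pos (two_pos : (0 : ℝ) < 2)]
  refine Real.cos_le_cos_of_nonneg_of_le_pi (by positivity) (by linarith [Real.pi_pos]) ?_
  unfold l at hy
  linarith

lemma cos_ge_r {y : ℝ} (hy : |y| ≤ l) : r ≤ Real.cos y := by
  rw [r_eq, ← Real.cos_abs y]
  refine Real.cos_le_cos_of_nonneg_of_le_pi (abs_nonneg y) (by linarith [Real.pi_pos]) ?_
  unfold l at hy
  linarith [Real.pi_pos]

lemma two_mul_re_im (u : ℂ) : (2 * u).re = 2 * u.re ∧ (2 * u).im = 2 * u.im := by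
  constructor <;> simp

lemma norm_cosh_u {u : ℂ} (hu : |u.im| ≤ l) : r / 2 * Real.exp |u.re| ≤ ‖cosh u‖ := by
  have h1 := norm_cosh_ge u
  have h2 := cos_ge_r hu
  have h3 := exp_le_cosh u.re
  have h4 := r_pos
  have h5 := Real.exp_pos |u.re|
  nlinarith [Real.cosh_pos u.re]

lemma norm_cosh_2u {u : ℂ} (hu : |u.im| ≤ l) : r / 2 * Real.exp (2 * |u.re|) ≤ ‖cosh (2 * u)‖ := by
  have h1 := norm_cosh_ge (2 * u)
  rw [(two_mul_re_im u).1, (two_mul_re_im u).2] at h1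
  have h2 := cos_two_ge hu
  have h3 := exp_le_cosh (2 * u.re)
  rw [abs_mul, abs_of_pos (two_pos : (0 : ℝ) < 2)] at h3
  have h4 := r_pos
  have h5 := Real.exp_pos (2 * |u.re|)
  nlinarith [Real.cosh_pos (2 * u.re)]

lemma norm_cosh_2u_add {u : ℂ} (hu : |u.im| ≤ l) : r / 2 * Real.exp (2 * |u.re|) ≤ ‖cosh (2 * u) + r‖ := by
  have h1 := Complex.abs_re_le_norm (cosh (2 * u) + r)
  have h0 : (cosh (2 * u) + r).re = Real.cosh (2 * u.re) * Real.cos (2 * u.im) + r := by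
    rw [add_re, ofReal_re, cosh_re_eq, (two_mul_re_im u).1, (two_mul_re_im u).2]
  rw [h0] at h1
  have h2 := cos_two_ge hu
  have h3 := exp_le_cosh (2 * u.re)
  rw [abs_mul, abs_of_pos (two_pos : (0 : ℝ) < 2)] at h3
  have h4 := r_pos
  have h5 := Real.exp_pos (2 * |u.re|)
  have h6 := (le_abs_self _).trans h1
  nlinarith [Real.cosh_pos (2 * u.re)]

lemma cosh_sub_r (u : ℂ) : cosh (2 * u) - r = 2 * (sinh (u + l * I) * sinh (u - l * I)) := by
  have h1 : ((r : ℝ) : ℂ) = cosh (2 * (l * I)) := by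
    rw [show 2 * ((l : ℂ) * I) = ((2 * l : ℝ) : ℂ) * I by push_cast; ring, Complex.cosh_mul_I, ← ofReal_cos, r_eq]
    congr 2
    unfold l; ring
  rw [h1]
  have h2 := Complex.cosh_add (u + l * I) (u - l * I)
  have h3 := Complex.cosh_sub (u + l * I) (u - l * I)
  rw [show u + l * I + (u - l * I) = 2 * u by ring] at h2
  rw [show u + l * I - (u - l * I) = 2 * (l * I) by ring] at h3
  rw [h2, h3]; ring

lemma norm_sinh_ge_of {z : ℂ} {κ : ℝ} (h0 : 0 < κ) (hκ : κ ≤ |Real.sin z.im|) : κ / 2 * Real.exp |z.re| ≤ ‖sinh z‖ := by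
  have h1 := norm_inv_sinh_le h0 hκ
  have h2 : 0 < ‖sinh z‖ := by
    rw [norm_pos_iff]
    intro h
    have h3 := norm_sinh_sq z
    rw [h, norm_zero] at h3
    have h4 : 0 < Real.sin z.im ^ 2 := by rw [← sq_abs]; exact pow_pos (h0.trans_le hκ) 2
    nlinarith [sq_nonneg (Real.sinh z.re)]
  rw [norm_inv, Real.exp_neg] at h1
  have h3 := Real.exp_pos |z.re|
  rw [inv_le_comm₀ h2 (by positivity)] at h1
  refine le_trans (le_of_eq ?_) h1
  rw [mul_inv, inv_inv, inv_div]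

lemma norm_cosh_2u_sub {u : ℂ} {Y : ℝ} (hY : Y < l) (hu : |u.im| ≤ Y) :
    Real.sin (l - Y) ^ 2 / 2 * Real.exp (2 * |u.re|) ≤ ‖cosh (2 * u) - r‖ := by
  have hl := l_pos
  have hlpi : l < Real.pi / 2 := by unfold l; linarith [Real.pi_pos]
  have hY0 : 0 ≤ Y := (abs_nonneg _).trans hu
  have hu' := abs_le.1 hu
  have h0 : 0 < Real.sin (l - Y) := Real.sin_pos_of_pos_of_lt_pi (by linarith) (by linarith)
  have e1 : ((u + l * I).re = u.re ∧ (u + l * I).im = u.im + l) := by constructor <;> simp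
  have e2 : ((u - l * I).re = u.re ∧ (u - l * I).im = u.im - l) := by constructor <;> simp
  have hl4 : l = Real.pi / 8 := rfl
  have a1 := norm_sinh_ge_of (z := u + l * I) h0 (by
    rw [e1.2]
    refine (sin_ge_of (by linarith) (by linarith) ?_).trans (le_abs_self _)
    linarith)
  have a2 := norm_sinh_ge_of (z := u - l * I) h0 (by
    rw [e2.2, show u.im - l = -(l - u.im) by ring, Real.sin_neg, abs_neg]
    refine (sin_ge_of (by linarith) (by linarith) ?_).trans (le_abs_self _)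
    linarith)
  rw [e1.1] at a1
  rw [e2.1] at a2
  rw [cosh_sub_r, norm_mul, norm_mul]
  have h2 : ‖(2 : ℂ)‖ = 2 := by simp
  rw [h2, show (2 : ℝ) * |u.re| = |u.re| + |u.re| by ring, Real.exp_add]
  have h5 := Real.exp_pos |u.re|
  calc Real.sin (l - Y) ^ 2 / 2 * (Real.exp |u.re| * Real.exp |u.re|) =
      2 * ((Real.sin (l - Y) / 2 * Real.exp |u.re|) * (Real.sin (l - Y) / 2 * Real.exp |u.re|)) := by ring
    _ ≤ 2 * (‖sinh (u + l * I)‖ * ‖sinh (u - l * I)‖) := by gcongr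

lemma norm_sinh_lin {u : ℂ} (hu : |u.im| ≤ Real.pi / 2) : 2 / Real.pi * ‖u‖ ≤ ‖sinh u‖ := by
  have hpi := Real.pi_pos
  have h1 : 2 / Real.pi * |u.im| ≤ |Real.sin u.im| := by
    have h2 := Real.mul_le_sin (abs_nonneg u.im) hu
    have h3 : Real.sin |u.im| = |Real.sin u.im| := by
      rcases abs_cases u.im with ⟨h, h0⟩ | ⟨h, h0⟩
      · rw [h, abs_of_nonneg]
        exact Real.sin_nonneg_of_nonneg_of_le_pi h0 (by rw [h] at hu; linarith)
      · rw [h, Real.sin_neg, abs_of_nonpos]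
        rw [h] at hu
        exact Real.sin_nonpos_of_nonpos_of_neg_pi_le h0.le (by linarith)
    rwa [h3] at h2
  have h4 : |u.re| ≤ |Real.sinh u.re| := by
    rw [Real.abs_sinh]
    exact Real.self_le_sinh_iff.2 (abs_nonneg _)
  have h5 : 2 / Real.pi ≤ 1 := by rw [div_le_one hpi]; linarith [Real.pi_gt_three]
  refine abs_le_of_sq_le_sq' ?_ (norm_nonneg _) |>.2
  rw [norm_sinh_sq, mul_pow]
  have h6 : ‖u‖ ^ 2 = u.re ^ 2 + u.im ^ 2 := by
    rw [← Complex.normSq_eq_norm_sq, Complex.normSq_apply]; ring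
  rw [h6]
  have h7 : (2 / Real.pi) ^ 2 * u.im ^ 2 ≤ Real.sin u.im ^ 2 := by
    rw [← sq_abs u.im, ← sq_abs (Real.sin u.im), ← mul_pow]
    exact pow_le_pow_left₀ (by positivity) h1 2
  have h8 : u.re ^ 2 ≤ Real.sinh u.re ^ 2 := by
    rw [← sq_abs u.re, ← sq_abs (Real.sinh u.re)]
    exact pow_le_pow_left₀ (abs_nonneg _) h4 2
  have h9 : (2 / Real.pi) ^ 2 ≤ 1 := pow_le_one₀ (by positivity) h5
  nlinarith [sq_nonneg u.re]

lemma norm_inv_shc {u : ℂ} (hu : |u.im| ≤ Real.pi / 2) :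
    ‖(shc u)⁻¹‖ ≤ 5 * (1 + ‖u‖) * Real.exp (-|u.re|) := by
  have hpi := Real.pi_pos
  have he := Real.exp_one_lt_d9
  by_cases h0 : u = 0
  · rw [h0, shc_zero]
    simp
  · have hn : 0 < ‖u‖ := norm_pos_iff.2 h0
    rw [shc_ne h0, inv_div, norm_div]
    have h1 := norm_sinh_lin hu
    have hs : 0 < ‖sinh u‖ := lt_of_lt_of_le (by positivity) h1
    have hE := Real.exp_pos (-|u.re|)
    rw [div_le_iff₀ hs]
    rcases le_total |u.re| 1 with h | h
    · have h2 : Real.exp (-1) ≤ Real.exp (-|u.re|) := Real.exp_le_exp.2 (by linarith)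
      have h3 : 1 / 2.7182818286 ≤ Real.exp (-1) := by
        rw [Real.exp_neg, ← one_div]
        exact one_div_le_one_div_of_le (Real.exp_pos 1) he.le
      have h4 : 1 ≤ 5 * Real.exp (-|u.re|) * (2 / Real.pi) := by
        have h5 : 5 * (1 / 2.7182818286) ≤ 5 * Real.exp (-|u.re|) := by linarith
        have h6 : Real.pi < 3.15 := Real.pi_lt_d2
        have h7 : 2 / 3.15 ≤ 2 / Real.pi := div_le_div_of_nonneg_left (by norm_num) hpi h6.le
        calc (1 : ℝ) ≤ (5 * (1 / 2.7182818286)) * (2 / 3.15) := by norm_num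
          _ ≤ _ := by gcongr
      calc ‖u‖ = 1 * ‖u‖ := (one_mul _).symm
        _ ≤ (5 * Real.exp (-|u.re|) * (2 / Real.pi)) * ‖u‖ := by gcongr
        _ = 5 * 1 * Real.exp (-|u.re|) * (2 / Real.pi * ‖u‖) := by ring
        _ ≤ 5 * (1 + ‖u‖) * Real.exp (-|u.re|) * ‖sinh u‖ := by gcongr; linarith
    · have h2 : Real.exp |u.re| / 4 ≤ ‖sinh u‖ := by
        have h3 : |Real.sinh u.re| ≤ ‖sinh u‖ := by
          refine abs_le_of_sq_le_sq ?_ (norm_nonneg _)
          rw [norm_sinh_sq]; nlinarith [sq_nonneg (Real.sin u.im)]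
        refine le_trans ?_ h3
        rw [Real.abs_sinh, Real.sinh_eq]
        have h4 : Real.exp (-|u.re|) ≤ 1 := Real.exp_le_one_iff.2 (by linarith)
        have h5 : 2 ≤ Real.exp |u.re| := by
          have := Real.add_one_le_exp |u.re|
          linarith
        linarith
      have h6 : Real.exp (-|u.re|) * Real.exp |u.re| = 1 := by rw [← Real.exp_add]; simp
      calc ‖u‖ ≤ 5 * (1 + ‖u‖) * (1 / 4) := by linarith
        _ = 5 * (1 + ‖u‖) * ((Real.exp (-|u.re|) * Real.exp |u.re|) / 4) := by rw [h6]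
        _ = 5 * (1 + ‖u‖) * Real.exp (-|u.re|) * (Real.exp |u.re| / 4) := by ring
        _ ≤ _ := by gcongr

lemma shc_ne_zero {u : ℂ} (hu : |u.im| ≤ Real.pi / 2) : shc u ≠ 0 := by
  by_cases h0 : u = 0
  · rw [h0, shc_zero]; exact one_ne_zero
  · intro h
    have h1 := shc_mul u
    rw [h, mul_zero] at h1
    have h2 := norm_sinh_lin hu
    rw [← h1, norm_zero] at h2
    have h3 : 0 < ‖u‖ := norm_pos_iff.2 h0
    have h4 : 0 < 2 / Real.pi * ‖u‖ := by have := Real.pi_pos; positivity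
    linarith

/-- absorbing the linear factor -/
lemma lin_exp_le {a : ℝ} (ha : a < 2) {u : ℂ} (hu : |u.im| ≤ 1) :
    (1 + ‖u‖) * Real.exp (-(2 * |u.re|)) ≤ (2 + 1 / (2 - a)) * Real.exp (-(a * |u.re|)) := by
  have h1 : ‖u‖ ≤ |u.re| + |u.im| := Complex.norm_le_abs_re_add_abs_im u
  have h2 : (2 - a) * |u.re| ≤ Real.exp ((2 - a) * |u.re|) := by
    have := Real.add_one_le_exp ((2 - a) * |u.re|)
    linarith
  have h3 : 0 < 2 - a := by linarith
  have h4 : |u.re| ≤ 1 / (2 - a) * Real.exp ((2 - a) * |u.re|) := by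
    rw [one_div, ← div_eq_inv_mul, le_div_iff₀ h3]; linarith
  have h5 : 1 ≤ Real.exp ((2 - a) * |u.re|) := Real.one_le_exp (by positivity)
  have h6 : Real.exp ((2 - a) * |u.re|) * Real.exp (-(2 * |u.re|)) = Real.exp (-(a * |u.re|)) := by
    rw [← Real.exp_add]; congr 1; ring
  rw [← h6, ← mul_assoc]
  refine mul_le_mul_of_nonneg_right ?_ (Real.exp_pos _).le
  linarith

theorem hX_bound {a Y : ℝ} (ha : a < 2) (hY : Y < l) : ∃ C : ℝ, 0 ≤ C ∧ ∀ u : ℂ, |u.im| ≤ Y →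
    ‖hX u‖ ≤ C * Real.exp (-(a * |u.re|)) := by
  have hl4 : l = Real.pi / 8 := rfl
  have hpi := Real.pi_pos
  have hpi4 : Real.pi < 4 := Real.pi_lt_four
  by_cases hY0 : 0 ≤ Y
  swap
  · exact ⟨0, le_rfl, fun u hu => absurd ((abs_nonneg _).trans hu) hY0⟩
  have hs : 0 < Real.sin (l - Y) := Real.sin_pos_of_pos_of_lt_pi (by linarith) (by linarith)
  have hr := r_pos
  have hr1 := r_lt_one
  refine ⟨2 * (1 - r) * 5 / (Real.sin (l - Y) ^ 2 / 2) * (2 + 1 / (2 - a)), by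
    have : 0 < 2 - a := by linarith
    have : 0 < 1 - r := by linarith
    positivity, fun u hu => ?_⟩
  have b1 := norm_inv_shc (u := u) (by linarith)
  have b2 := norm_cosh_2u_sub hY hu
  have b3 := (norm_cosh_le u).trans (cosh_le_exp u.re)
  have b4 := lin_exp_le ha (u := u) (by linarith)
  have hE := Real.exp_pos (2 * |u.re|)
  have hD : 0 < ‖cosh (2 * u) - r‖ := lt_of_lt_of_le (by positivity) b2
  have b5 : ‖(cosh (2 * u) - r)⁻¹‖ ≤ 1 / (Real.sin (l - Y) ^ 2 / 2) * Real.exp (-(2 * |u.re|)) := by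
    rw [norm_inv, Real.exp_neg, one_div, ← mul_inv]
    exact inv_anti₀ (by positivity) b2
  have e : hX u = 2 * (1 - r) * cosh u * (shc u)⁻¹ * (cosh (2 * u) - r)⁻¹ := by
    unfold hX
    rw [div_eq_mul_inv, mul_inv]; ring
  have n1 : ‖(2 * (1 - r) : ℂ)‖ = 2 * (1 - r) := by
    rw [show (2 * (1 - r) : ℂ) = ((2 * (1 - r) : ℝ) : ℂ) by push_cast; ring, norm_real,
      Real.norm_of_nonneg (by linarith)]
  rw [e, norm_mul, norm_mul, norm_mul, n1]
  have h6 : Real.exp |u.re| * Real.exp (-|u.re|) = 1 := by rw [← Real.exp_add]; simp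
  have hr2 : 0 ≤ 1 - r := by linarith
  calc 2 * (1 - r) * ‖cosh u‖ * ‖(shc u)⁻¹‖ * ‖(cosh (2 * u) - r)⁻¹‖
      ≤ 2 * (1 - r) * Real.exp |u.re| * (5 * (1 + ‖u‖) * Real.exp (-|u.re|)) *
        (1 / (Real.sin (l - Y) ^ 2 / 2) * Real.exp (-(2 * |u.re|))) := by gcongr
    _ = 2 * (1 - r) * 5 / (Real.sin (l - Y) ^ 2 / 2) * (Real.exp |u.re| * Real.exp (-|u.re|)) *
        ((1 + ‖u‖) * Real.exp (-(2 * |u.re|))) := by ring
    _ = 2 * (1 - r) * 5 / (Real.sin (l - Y) ^ 2 / 2) * ((1 + ‖u‖) * Real.exp (-(2 * |u.re|))) := by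
        rw [h6, mul_one]
    _ ≤ 2 * (1 - r) * 5 / (Real.sin (l - Y) ^ 2 / 2) * ((2 + 1 / (2 - a)) * Real.exp (-(a * |u.re|))) := by
        gcongr
    _ = _ := by ring

theorem hY_bound {a : ℝ} (ha : a < 2) : ∃ C : ℝ, 0 ≤ C ∧ ∀ u : ℂ, |u.im| ≤ l →
    ‖hY u‖ ≤ C * Real.exp (-(a * |u.re|)) := by
  have hl4 : l = Real.pi / 8 := rfl
  have hpi := Real.pi_pos
  have hpi4 : Real.pi < 4 := Real.pi_lt_four
  have hr := r_pos
  have hr1 := r_lt_one
  refine ⟨2 * 2 / (r / 2) ^ 3 * (2 + 1 / (2 - a)), by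
    have : 0 < 2 - a := by linarith
    positivity, fun u hu => ?_⟩
  have b0 := norm_cosh_u hu
  have b1 := norm_cosh_2u hu
  have b2 := norm_cosh_2u_add hu
  have b4 := lin_exp_le ha (u := u) (by linarith)
  have hE := Real.exp_pos |u.re|
  have k1 : ‖(r - 1 / 2) * sinh (3 * u) + 1 / 2 * sinh u‖ ≤ 2 * Real.exp (3 * |u.re|) := by
    have a1 := (norm_sinh_le (3 * u)).trans (cosh_le_exp _)
    have a2 := (norm_sinh_le u).trans (cosh_le_exp _)
    have e3 : (3 * u).re = 3 * u.re := by simp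
    rw [e3, abs_mul, abs_of_pos (by norm_num : (0 : ℝ) < 3)] at a1
    have a3 : Real.exp |u.re| ≤ Real.exp (3 * |u.re|) := Real.exp_le_exp.2 (by linarith [abs_nonneg u.re])
    have n1 : ‖((r : ℂ) - 1 / 2)‖ ≤ 1 := by
      rw [show (r : ℂ) - 1 / 2 = ((r - 1 / 2 : ℝ) : ℂ) by push_cast; ring, norm_real, Real.norm_eq_abs, abs_le]
      constructor <;> linarith
    have n2 : ‖((1 : ℂ) / 2)‖ = 1 / 2 := by simp
    refine (norm_add_le _ _).trans ?_
    rw [norm_mul, norm_mul, n2]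
    calc ‖((r : ℂ) - 1 / 2)‖ * ‖sinh (3 * u)‖ + 1 / 2 * ‖sinh u‖ ≤
        1 * Real.exp (3 * |u.re|) + 1 / 2 * Real.exp (3 * |u.re|) := by
          gcongr
          exact a2.trans a3
      _ ≤ _ := by linarith [Real.exp_pos (3 * |u.re|)]
  have k2 : (r / 2) ^ 3 * Real.exp (5 * |u.re|) ≤ ‖cosh u * cosh (2 * u) * (cosh (2 * u) + r)‖ := by
    rw [norm_mul, norm_mul]
    have e5 : Real.exp (5 * |u.re|) = Real.exp |u.re| * Real.exp (2 * |u.re|) * Real.exp (2 * |u.re|) := by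
      rw [← Real.exp_add, ← Real.exp_add]; congr 1; ring
    rw [e5]
    calc (r / 2) ^ 3 * (Real.exp |u.re| * Real.exp (2 * |u.re|) * Real.exp (2 * |u.re|)) =
        (r / 2 * Real.exp |u.re|) * (r / 2 * Real.exp (2 * |u.re|)) * (r / 2 * Real.exp (2 * |u.re|)) := by ring
      _ ≤ _ := by gcongr
  have hD : 0 < ‖cosh u * cosh (2 * u) * (cosh (2 * u) + r)‖ := lt_of_lt_of_le (by positivity) k2
  unfold hY
  rw [norm_div, div_le_iff₀ hD, norm_mul, norm_mul]
  have n3 : ‖(2 : ℂ)‖ = 2 := by simp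
  rw [n3]
  have e6 : Real.exp (3 * |u.re|) = Real.exp (-(2 * |u.re|)) * Real.exp (5 * |u.re|) := by
    rw [← Real.exp_add]; congr 1; ring
  have h2a : 0 < 2 - a := by linarith
  calc 2 * ‖u‖ * ‖(r - 1 / 2) * sinh (3 * u) + 1 / 2 * sinh u‖ ≤ 2 * (1 + ‖u‖) * (2 * Real.exp (3 * |u.re|)) := by
        gcongr; linarith
    _ = 2 * 2 / (r / 2) ^ 3 * ((1 + ‖u‖) * Real.exp (-(2 * |u.re|))) * ((r / 2) ^ 3 * Real.exp (5 * |u.re|)) := by
        rw [e6]; field_simp
    _ ≤ 2 * 2 / (r / 2) ^ 3 * ((2 + 1 / (2 - a)) * Real.exp (-(a * |u.re|))) *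
        ‖cosh u * cosh (2 * u) * (cosh (2 * u) + r)‖ := by gcongr
    _ = _ := by ring

/-- the open strip of analyticity -/
lemma hX_diff {u : ℂ} (hu : |u.im| < l) : DifferentiableAt ℂ hX u := by
  have hl4 : l = Real.pi / 8 := rfl
  have hpi := Real.pi_pos
  have h1 : shc u ≠ 0 := shc_ne_zero (by linarith)
  have h2 : cosh (2 * u) - r ≠ 0 := by
    have b := norm_cosh_2u_sub hu le_rfl
    have hs : 0 < Real.sin (l - |u.im|) :=
      Real.sin_pos_of_pos_of_lt_pi (by linarith) (by linarith [abs_nonneg u.im])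
    have : 0 < ‖cosh (2 * u) - r‖ := lt_of_lt_of_le (by positivity) b
    exact norm_pos_iff.1 this
  unfold hX
  refine DifferentiableAt.div (by fun_prop) ?_ (mul_ne_zero h1 h2)
  exact (shc_diff u).mul (by fun_prop)

lemma hY_diff {u : ℂ} (hu : |u.im| ≤ l) : DifferentiableAt ℂ hY u := by
  have hr := r_pos
  have h0 : cosh u ≠ 0 := norm_pos_iff.1 (lt_of_lt_of_le (by positivity) (norm_cosh_u hu))
  have h1 : cosh (2 * u) ≠ 0 := norm_pos_iff.1 (lt_of_lt_of_le (by positivity) (norm_cosh_2u hu))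
  have h2 : cosh (2 * u) + r ≠ 0 := norm_pos_iff.1 (lt_of_lt_of_le (by positivity) (norm_cosh_2u_add hu))
  unfold hY
  refine DifferentiableAt.div (by fun_prop) (by fun_prop) (mul_ne_zero (mul_ne_zero h0 h1) h2)

lemma shc_measurable : Measurable shc := shc_diff.continuous.measurable

lemma hX_measurable : Measurable hX := by
  unfold hX
  have h1 : Measurable fun u : ℂ => 2 * (1 - (r : ℂ)) * cosh u := (by fun_prop : Continuous _).measurable
  have h2 : Measurable fun u : ℂ => cosh (2 * u) - (r : ℂ) := (by fun_prop : Continuous _).measurable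
  exact h1.div (shc_measurable.mul h2)

lemma hY_measurable : Measurable hY := by
  unfold hY
  have h1 : Measurable fun u : ℂ => 2 * u * (((r : ℂ) - 1 / 2) * sinh (3 * u) + 1 / 2 * sinh u) :=
    (by fun_prop : Continuous _).measurable
  have h2 : Measurable fun u : ℂ => cosh u * cosh (2 * u) * (cosh (2 * u) + (r : ℂ)) :=
    (by fun_prop : Continuous _).measurable
  exact h1.div h2

end PBV

end
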