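import Pool.Agent.PB.Func

/-!
# Plan B, (Z): derivatives in the height of the legs, abstract part (helper61)

Weight `c τ * (w0 * E τ)`, `E' = - A E`, `A' = - A2`, `c' = M c`, `M' = - M2`, all bounded.

* `deriv_one`, `deriv_A`: dominated convergence;
* **`f_deriv`**: `d/dτ F[1] = - F[A - M]`;
* **`f_deriv2`**: `d²/dτ² F[1] = F[(A - M)² + (A2 - M2)]`;
* **`bound1`, `bound2`**: `A - M = V + O`, `A2 - M2 = V' + O'`.
-/

set_option autoImplicit false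

open MeasureTheory Complex Filter Topology
open scoped ENNReal

noncomputable section

namespace PBLg

open PBFunc

variable {Ω : Type*} [MeasurableSpace Ω] {μ : Measure Ω}

/-- the path of weights without normaliser -/
structure ZPath (μ : Measure Ω) (w0 : Ω → ℂ) (E A A2 : ℝ → Ω → ℂ) (B : ℝ) : Prop where
  w : Integrable w0 μ
  mE : ∀ τ, AEStronglyMeasurable (E τ) μ
  mA : ∀ τ, AEStronglyMeasurable (A τ) μ
  mA2 : ∀ τ, AEStronglyMeasurable (A2 τ) μ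
  bE : ∀ τ ω, ‖E τ ω‖ ≤ B
  bA : ∀ τ ω, ‖A τ ω‖ ≤ B
  bA2 : ∀ τ ω, ‖A2 τ ω‖ ≤ B
  dE : ∀ τ ω, HasDerivAt (fun τ => E τ ω) (-(A τ ω) * E τ ω) τ
  dA : ∀ τ ω, HasDerivAt (fun τ => A τ ω) (-(A2 τ ω)) τ

variable {w0 : Ω → ℂ} {E A A2 : ℝ → Ω → ℂ} {B : ℝ}

/-- `w0` times a bounded function -/
theorem int_bd {w0 g : Ω → ℂ} {K : ℝ} (hw : Integrable w0 μ) (hg : AEStronglyMeasurable g μ)
    (hK : ∀ ω, ‖g ω‖ ≤ K) : Integrable (fun ω => w0 ω * g ω) μ :=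
  hw.mul_bdd (c := K) hg (Eventually.of_forall hK)

theorem ZPath.deriv_one (h : ZPath μ w0 E A A2 B) (τ : ℝ) :
    HasDerivAt (fun τ => ∫ ω, w0 ω * E τ ω ∂μ) (-∫ ω, w0 ω * (E τ ω * A τ ω) ∂μ) τ := by
  have key := hasDerivAt_integral_of_dominated_loc_of_deriv_le (μ := μ) (𝕜 := ℝ)
    (F := fun τ ω => w0 ω * E τ ω) (F' := fun τ ω => w0 ω * (-(A τ ω) * E τ ω))
    (x₀ := τ) (s := Metric.ball τ 1) (bound := fun ω => ‖w0 ω‖ * (B * B))
    (Metric.ball_mem_nhds _ one_pos)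
    (Eventually.of_forall fun τ => h.w.1.mul (h.mE τ))
    (int_bd h.w (h.mE τ) (h.bE τ))
    (h.w.1.mul ((h.mA τ).neg.mul (h.mE τ)))
    (Eventually.of_forall fun ω τ _ => by
      have hB : 0 ≤ B := (norm_nonneg _).trans (h.bA τ ω)
      rw [norm_mul, norm_mul, norm_neg]
      exact mul_le_mul_of_nonneg_left (mul_le_mul (h.bA τ ω) (h.bE τ ω) (norm_nonneg _) hB)
        (norm_nonneg _))
    (h.w.norm.mul_const _)
    (Eventually.of_forall fun ω τ _ => (h.dE τ ω).const_mul _)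
  refine key.2.congr_deriv ?_
  rw [← integral_neg]
  refine integral_congr_ae (Eventually.of_forall fun ω => ?_)
  simp only []
  ring

theorem ZPath.deriv_A (h : ZPath μ w0 E A A2 B) (τ : ℝ) :
    HasDerivAt (fun τ => ∫ ω, w0 ω * (E τ ω * A τ ω) ∂μ)
      (-∫ ω, w0 ω * (E τ ω * (A τ ω ^ 2 + A2 τ ω)) ∂μ) τ := by
  have key := hasDerivAt_integral_of_dominated_loc_of_deriv_le (μ := μ) (𝕜 := ℝ)
    (F := fun τ ω => w0 ω * (E τ ω * A τ ω))
    (F' := fun τ ω => w0 ω * (-(A τ ω) * E τ ω * A τ ω + E τ ω * -(A2 τ ω)))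
    (x₀ := τ) (s := Metric.ball τ 1) (bound := fun ω => ‖w0 ω‖ * (B * B * B + B * B))
    (Metric.ball_mem_nhds _ one_pos)
    (Eventually.of_forall fun τ => h.w.1.mul ((h.mE τ).mul (h.mA τ)))
    (int_bd (K := B * B) h.w ((h.mE τ).mul (h.mA τ)) fun ω => by
      have hB : 0 ≤ B := (norm_nonneg _).trans (h.bA τ ω)
      rw [norm_mul]
      exact mul_le_mul (h.bE τ ω) (h.bA τ ω) (norm_nonneg _) hB)
    (h.w.1.mul ((((h.mA τ).neg.mul (h.mE τ)).mul (h.mA τ)).add ((h.mE τ).mul (h.mA2 τ).neg)))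
    (Eventually.of_forall fun ω τ _ => by
      have hB : 0 ≤ B := (norm_nonneg _).trans (h.bA τ ω)
      have hBB : 0 ≤ B * B := mul_nonneg hB hB
      rw [norm_mul]
      refine mul_le_mul_of_nonneg_left ((norm_add_le _ _).trans (add_le_add ?_ ?_)) (norm_nonneg _)
      · rw [norm_mul, norm_mul, norm_neg]
        exact mul_le_mul (mul_le_mul (h.bA τ ω) (h.bE τ ω) (norm_nonneg _) hB) (h.bA τ ω)
          (norm_nonneg _) hBB
      · rw [norm_mul, norm_neg]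
        exact mul_le_mul (h.bE τ ω) (h.bA2 τ ω) (norm_nonneg _) hB)
    (h.w.norm.mul_const _)
    (Eventually.of_forall fun ω τ _ => ((h.dE τ ω).mul (h.dA τ ω)).const_mul _)
  refine key.2.congr_deriv ?_
  rw [← integral_neg]
  refine integral_congr_ae (Eventually.of_forall fun ω => ?_)
  simp only []
  ring

/-- the path of weights with normaliser -/
def wt (c : ℝ → ℂ) (w0 : Ω → ℂ) (E : ℝ → Ω → ℂ) (τ : ℝ) : Ω → ℂ := fun ω => c τ * (w0 ω * E τ ω)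

variable {c M M2 : ℝ → ℂ}

theorem F_wt (O : Ω → ℂ) (τ : ℝ) : F μ (wt c w0 E τ) O = c τ * ∫ ω, w0 ω * (E τ ω * O ω) ∂μ := by
  unfold F wt
  rw [← integral_const_mul]
  refine integral_congr_ae (Eventually.of_forall fun ω => ?_)
  simp only []
  ring

theorem ZPath.WI (h : ZPath μ w0 E A A2 B) {O : Ω → ℂ} {K : ℝ} (hO : AEStronglyMeasurable O μ)
    (hK : ∀ ω, ‖O ω‖ ≤ K) (τ : ℝ) : PBFunc.WI μ (wt c w0 E τ) O := by
  unfold PBFunc.WI wt
  have h1 : Integrable (fun ω => w0 ω * (E τ ω * O ω)) μ :=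
    int_bd (K := B * K) h.w ((h.mE τ).mul hO) fun ω => by
      have hB : 0 ≤ B := (norm_nonneg _).trans (h.bE τ ω)
      rw [norm_mul]
      exact mul_le_mul (h.bE τ ω) (hK ω) (norm_nonneg _) hB
  refine (h1.const_mul (c τ)).congr (Eventually.of_forall fun ω => ?_)
  simp only []
  ring

/-- **the first derivative** -/
theorem ZPath.f_deriv (h : ZPath μ w0 E A A2 B) {τ : ℝ} (hc : HasDerivAt c (M τ * c τ) τ) :
    HasDerivAt (fun τ => F μ (wt c w0 E τ) (fun _ => 1))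
      (-F μ (wt c w0 E τ) (fun ω => A τ ω - M τ)) τ := by
  have h1 := hc.mul (h.deriv_one τ)
  have e0 : (fun τ => F μ (wt c w0 E τ) (fun _ => 1)) = fun τ => c τ * ∫ ω, w0 ω * E τ ω ∂μ := by
    funext τ
    rw [F_wt]
    simp only [mul_one]
  rw [e0]
  refine h1.congr_deriv ?_
  have i1 : Integrable (fun ω => w0 ω * (E τ ω * A τ ω)) μ :=
    int_bd (K := B * B) h.w ((h.mE τ).mul (h.mA τ)) fun ω => by
      have hB : 0 ≤ B := (norm_nonneg _).trans (h.bA τ ω)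
      rw [norm_mul]
      exact mul_le_mul (h.bE τ ω) (h.bA τ ω) (norm_nonneg _) hB
  have i0 : Integrable (fun ω => w0 ω * E τ ω) μ := int_bd h.w (h.mE τ) (h.bE τ)
  have e1 : ∫ ω, w0 ω * (E τ ω * (A τ ω - M τ)) ∂μ =
      (∫ ω, w0 ω * (E τ ω * A τ ω) ∂μ) - M τ * ∫ ω, w0 ω * E τ ω ∂μ := by
    rw [← integral_const_mul, ← integral_sub i1 (i0.const_mul _)]
    refine integral_congr_ae (Eventually.of_forall fun ω => ?_)
    simp only []
    ring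
  rw [F_wt, e1]
  ring

/-- **the second derivative** -/
theorem ZPath.f_deriv2 (h : ZPath μ w0 E A A2 B) {τ : ℝ} (hc : HasDerivAt c (M τ * c τ) τ)
    (hM : HasDerivAt M (-(M2 τ)) τ) :
    HasDerivAt (fun τ => -F μ (wt c w0 E τ) (fun ω => A τ ω - M τ))
      (F μ (wt c w0 E τ) (fun ω => (A τ ω - M τ) ^ 2 + (A2 τ ω - M2 τ))) τ := by
  have hB0 : ∀ (τ : ℝ) (ω : Ω), 0 ≤ B := fun τ ω => (norm_nonneg _).trans (h.bA τ ω)
  have i1 : ∀ τ, Integrable (fun ω => w0 ω * (E τ ω * A τ ω)) μ := fun τ =>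
    int_bd (K := B * B) h.w ((h.mE τ).mul (h.mA τ)) fun ω => by
      rw [norm_mul]
      exact mul_le_mul (h.bE τ ω) (h.bA τ ω) (norm_nonneg _) (hB0 τ ω)
  have i0 : ∀ τ, Integrable (fun ω => w0 ω * E τ ω) μ := fun τ => int_bd h.w (h.mE τ) (h.bE τ)
  have i2 : Integrable (fun ω => w0 ω * (E τ ω * (A τ ω ^ 2 + A2 τ ω))) μ :=
    int_bd (K := B * (B ^ 2 + B)) h.w ((h.mE τ).mul (((h.mA τ).pow 2).add (h.mA2 τ))) fun ω => by
      have hB := hB0 τ ω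
      rw [norm_mul]
      refine mul_le_mul (h.bE τ ω) ((norm_add_le _ _).trans (add_le_add ?_ (h.bA2 τ ω)))
        (norm_nonneg _) hB
      rw [norm_pow]
      exact pow_le_pow_left₀ (norm_nonneg _) (h.bA τ ω) 2
  have e0 : (fun τ => -F μ (wt c w0 E τ) (fun ω => A τ ω - M τ)) = fun τ =>
      c τ * (M τ * (∫ ω, w0 ω * E τ ω ∂μ) - ∫ ω, w0 ω * (E τ ω * A τ ω) ∂μ) := by
    funext τ
    have e1 : ∫ ω, w0 ω * (E τ ω * (A τ ω - M τ)) ∂μ =
        (∫ ω, w0 ω * (E τ ω * A τ ω) ∂μ) - M τ * ∫ ω, w0 ω * E τ ω ∂μ := by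
      rw [← integral_const_mul, ← integral_sub (i1 τ) ((i0 τ).const_mul _)]
      refine integral_congr_ae (Eventually.of_forall fun ω => ?_)
      simp only []
      ring
    rw [F_wt, e1]
    ring
  rw [e0]
  have d := hc.mul ((hM.mul (h.deriv_one τ)).sub (h.deriv_A τ))
  refine d.congr_deriv ?_
  have e2 : ∫ ω, w0 ω * (E τ ω * ((A τ ω - M τ) ^ 2 + (A2 τ ω - M2 τ))) ∂μ =
      (∫ ω, w0 ω * (E τ ω * (A τ ω ^ 2 + A2 τ ω)) ∂μ) -
        2 * M τ * (∫ ω, w0 ω * (E τ ω * A τ ω) ∂μ) +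
        (M τ ^ 2 - M2 τ) * ∫ ω, w0 ω * E τ ω ∂μ := by
    rw [← integral_const_mul, ← integral_const_mul, ← integral_sub i2 ((i1 τ).const_mul _),
      ← integral_add _ ((i0 τ).const_mul _)]
    · refine integral_congr_ae (Eventually.of_forall fun ω => ?_)
      simp only []
      ring
    · exact i2.sub ((i1 τ).const_mul _)
  rw [F_wt, e2]
  simp only [Pi.mul_apply, Pi.sub_apply]
  ring

/-! ### the bounds -/

/-- `‖F μ w O‖ ≤ d` from the bound of the modulus -/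
theorem norm_F_le' {w O : Ω → ℂ} {d : ℝ} (hd : 0 ≤ d)
    (h : ∫⁻ ω, ‖w ω‖ₑ * ‖O ω‖ₑ ∂μ ≤ ENNReal.ofReal d) : ‖F μ w O‖ ≤ d := by
  have h1 : ‖F μ w O‖ₑ ≤ ENNReal.ofReal d := by
    refine (enorm_integral_le_lintegral_enorm _).trans ?_
    simpa only [enorm_mul] using h
  rw [← ofReal_norm] at h1
  exact (ENNReal.ofReal_le_ofReal_iff hd).1 h1

/-- **first derivative against `V`** -/
theorem ZPath.bound1 (h : ZPath μ w0 E A A2 B) {τ : ℝ} {V O : Ω → ℂ} {K d : ℝ}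
    (e : ∀ ω, A τ ω - M τ = V ω + O ω) (mV : AEStronglyMeasurable V μ)
    (mO : AEStronglyMeasurable O μ) (hV : ∀ ω, ‖V ω‖ ≤ K) (hO : ∀ ω, ‖O ω‖ ≤ K) (hd : 0 ≤ d)
    (hI : ∫⁻ ω, ‖wt c w0 E τ ω‖ₑ * ‖O ω‖ₑ ∂μ ≤ ENNReal.ofReal d) :
    ‖F μ (wt c w0 E τ) V + -F μ (wt c w0 E τ) (fun ω => A τ ω - M τ)‖ ≤ d := by
  have e1 : (fun ω => A τ ω - M τ) = fun ω => V ω + O ω := funext e
  rw [e1, F_add (h.WI mV hV τ) (h.WI mO hO τ)]
  have e2 : F μ (wt c w0 E τ) V + -(F μ (wt c w0 E τ) V + F μ (wt c w0 E τ) O) =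
      -F μ (wt c w0 E τ) O := by ring
  rw [e2, norm_neg]
  exact norm_F_le' hd hI

/-- **second derivative against `V V` and `V'`** -/
theorem ZPath.bound2 (h : ZPath μ w0 E A A2 B) {τ : ℝ} {V O V' O' : Ω → ℂ} {K d : ℝ}
    (e : ∀ ω, A τ ω - M τ = V ω + O ω) (e' : ∀ ω, A2 τ ω - M2 τ = V' ω + O' ω)
    (mV : AEStronglyMeasurable V μ) (mO : AEStronglyMeasurable O μ)
    (mV' : AEStronglyMeasurable V' μ) (mO' : AEStronglyMeasurable O' μ)
    (hV : ∀ ω, ‖V ω‖ ≤ K) (hO : ∀ ω, ‖O ω‖ ≤ K) (hV' : ∀ ω, ‖V' ω‖ ≤ K) (hO' : ∀ ω, ‖O' ω‖ ≤ K)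
    (hd : 0 ≤ d)
    (hI : ∫⁻ ω, ‖wt c w0 E τ ω‖ₑ * (2 * ‖V ω‖ₑ * ‖O ω‖ₑ + ‖O ω‖ₑ ^ 2 + ‖O' ω‖ₑ) ∂μ ≤
      ENNReal.ofReal d) :
    ‖F μ (wt c w0 E τ) (fun ω => V ω * V ω) + F μ (wt c w0 E τ) V' -
      F μ (wt c w0 E τ) (fun ω => (A τ ω - M τ) ^ 2 + (A2 τ ω - M2 τ))‖ ≤ d := by
  by_cases hΩ : Nonempty Ω
  swap
  · rw [not_nonempty_iff] at hΩ
    have hz : ∀ O : Ω → ℂ, F μ (wt c w0 E τ) O = 0 := fun O => by
      unfold F
      rw [show (fun ω => wt c w0 E τ ω * O ω) = fun _ => 0 from funext fun ω => hΩ.elim ω]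
      exact integral_zero _ _
    rw [hz, hz, hz]
    simpa using hd
  have hK : 0 ≤ K := (norm_nonneg _).trans (hV hΩ.some)
  have e1 : (fun ω => (A τ ω - M τ) ^ 2 + (A2 τ ω - M2 τ)) = fun ω => (V ω * V ω + V' ω) +
      (2 * V ω * O ω + O ω ^ 2 + O' ω) := by
    funext ω
    rw [e, e']
    ring
  have w1 : PBFunc.WI μ (wt c w0 E τ) fun ω => V ω * V ω := h.WI (K := K * K) (mV.mul mV)
    (fun ω => by
      show ‖V ω * V ω‖ ≤ K * K
      rw [norm_mul]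
      exact mul_le_mul (hV ω) (hV ω) (norm_nonneg _) hK) τ
  have w2 : PBFunc.WI μ (wt c w0 E τ) V' := h.WI mV' hV' τ
  have w3 : PBFunc.WI μ (wt c w0 E τ) fun ω => 2 * V ω * O ω + O ω ^ 2 + O' ω :=
    h.WI (K := 2 * K * K + K ^ 2 + K) ((((mV.const_mul 2).mul mO).add (mO.pow 2)).add mO')
      (fun ω => by
        refine (norm_add_le _ _).trans (add_le_add ((norm_add_le _ _).trans
          (add_le_add ?_ ?_)) (hO' ω))
        · show ‖2 * V ω * O ω‖ ≤ 2 * K * K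
          rw [norm_mul, norm_mul, Complex.norm_ofNat]
          exact mul_le_mul (mul_le_mul_of_nonneg_left (hV ω) (by norm_num)) (hO ω)
            (norm_nonneg _) (by positivity)
        · show ‖O ω ^ 2‖ ≤ K ^ 2
          rw [norm_pow]
          exact pow_le_pow_left₀ (norm_nonneg _) (hO ω) 2) τ
  have w12 : PBFunc.WI μ (wt c w0 E τ) fun ω => V ω * V ω + V' ω := w1.add w2
  rw [e1, F_add w12 w3, F_add w1 w2]
  have e2 : F μ (wt c w0 E τ) (fun ω => V ω * V ω) + F μ (wt c w0 E τ) V' -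
      (F μ (wt c w0 E τ) (fun ω => V ω * V ω) + F μ (wt c w0 E τ) V' +
        F μ (wt c w0 E τ) (fun ω => 2 * V ω * O ω + O ω ^ 2 + O' ω)) =
      -F μ (wt c w0 E τ) (fun ω => 2 * V ω * O ω + O ω ^ 2 + O' ω) := by ring
  rw [e2, norm_neg]
  refine norm_F_le' hd ((lintegral_mono fun ω => mul_le_mul' le_rfl ?_).trans hI)
  refine (enorm_add_le _ _).trans (add_le_add ((enorm_add_le _ _).trans (add_le_add ?_ ?_)) le_rfl)
  · rw [enorm_mul, enorm_mul]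
    have : ‖(2 : ℂ)‖ₑ = 2 := by
      rw [← ofReal_norm, Complex.norm_ofNat]
      simp
    rw [this]
  · rw [enorm_pow]

end PBLg

end
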