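import Pool.Agent.PB.Far3
import Pool.Agent.PB.ForceK
import Pool.Agent.PB.ExMix3

/-!
# The leg functions at rows `i θ`, `0 ^ a` with moving cutoff points: analyticity and bounds

Complex parameter `θ`; `rwx a θ = (i θ, 0, .., 0)`; cutoff `W0 a (i θ) (vx θ)` with the extra points
`vx = (I + (θ - η0) v 0, - I + (θ - η0) v 1)`.

* `ZX`: the one body functions of the four kinds (40's `XX`), `ZP`: their product form
  row factor × cutoff × leg; **`ZX_eq`**: equality on the strips `KO`;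
* **`diff_ZP`**: joint analyticity in `(θ, u)`; **`ub_ZP`**: uniform bounds.
-/

set_option autoImplicit false
set_option linter.unusedSectionVars false
set_option linter.unusedVariables false

noncomputable section

open Complex MeasureTheory Filter Topology

namespace PBZF

open NUP1 NUP1S NUP1.Bd NURow
open PBX (XX ph gP Lg TT TT_eq ph_gP gP_nil)
open PBFar (W0 cutT wE)
open PBForce (rowO)

/-! ## names -/

/-- rows: one at `i θ`, `a` at `0` -/
def rwx (a : ℕ) (θ : ℂ) : Fin (a + 1) → ℂ := Fin.cons (θ * I) fun _ => 0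

/-- extra points of the cutoff -/
def vx (η0 : ℝ) (v : Fin 2 → ℂ) (θ : ℂ) : Fin 2 → ℂ :=
  ![I + (θ - η0) * v 0, -I + (θ - η0) * v 1]

/-- the one body functions -/
def ZX (c : Bool → ℂ) (b : ℝ) (a : ℕ) (z0 : ℂ) (η0 : ℝ) (v : Fin 2 → ℂ) (θ : ℂ) (s : Bool)
    (k : Option O3) (u : ℂ) : ℂ :=
  XX (c s) b (rwx a θ) (rwx a θ) (gP b [vx η0 v θ 0, vx η0 v θ 1]) (fun _ => 1) (Lg z0 z0)
    (fun w => Lg z0 z0 w * Lg z0 z0 (w - l)) k u

/-- the cutoff of a kind -/
def cutZ (b : ℝ) (a : ℕ) (x : ℂ) (e : Fin 2 → ℂ) : Option O3 → ℂ → ℂ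
  | some .S, u => NUP1.phi (4 / 3) (x :: List.replicate a 0) u
  | some .T, u => cutT b a x e u
  | _, u => NUP1.phi b (W0 a x e) u

/-- the product form -/
def ZP (c : Bool → ℂ) (b : ℝ) (a : ℕ) (z0 : ℂ) (η0 : ℝ) (v : Fin 2 → ℂ) (θ : ℂ) (s : Bool)
    (k : Option O3) (u : ℂ) : ℂ :=
  rowO (c s) (rwx a θ) (ob4 k) u * cutZ b a (θ * I) (vx η0 v θ) k u *
    one (Lg z0 z0) (ob4 k) u

/-- outer strips -/
def KO : Option O3 → Set ℝ
  | none => Set.Icc (11 / 20 * l) (19 / 20 * l)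
  | some .L => Set.Icc (-(7 / 4) * l) (-(6 / 5) * l)
  | some .S => Set.Icc (-(27 / 20) * l) (-(13 / 20) * l)
  | some .T => Set.Icc (-(3 / 4) * l) (-(9 / 20) * l)

/-- inner strips -/
def KI : Option O3 → Set ℝ
  | none => Set.Icc (3 / 5 * l) (9 / 10 * l)
  | some .L => Set.Icc (-(17 / 10) * l) (-(5 / 4) * l)
  | some .S => Set.Icc (-(13 / 10) * l) (-(7 / 10) * l)
  | some .T => Set.Icc (-(7 / 10) * l) (-(1 / 2) * l)

/-! ## equality -/

theorem ofFn_rwx (a : ℕ) (θ : ℂ) : List.ofFn (rwx a θ) = θ * I :: List.replicate a 0 := by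
  unfold rwx
  rw [List.ofFn_succ]
  simp only [Fin.cons_zero, Fin.cons_succ, List.ofFn_const]

theorem ph_W0 (b : ℝ) (a : ℕ) (θ : ℂ) (e : Fin 2 → ℂ) (u : ℂ) :
    ph b (rwx a θ) (gP b [e 0, e 1]) u = NUP1.phi b (W0 a (θ * I) e) u := by
  rw [ph_gP, ofFn_rwx]
  rfl

theorem ph_R0 (b : ℝ) (a : ℕ) (θ u : ℂ) :
    ph b (rwx a θ) (fun _ => 1) u = NUP1.phi b (θ * I :: List.replicate a 0) u := by
  have h := ph_gP b (rwx a θ) [] u
  rw [ofFn_rwx, List.append_nil] at h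
  rw [← h]
  rfl

theorem phi_W0' (b : ℝ) (a : ℕ) (x : ℂ) (e : Fin 2 → ℂ) (u : ℂ) :
    NUP1.phi b (W0 a x e) u =
      1 - psi b (u - x) * psi b (u - 0) ^ a * (psi b (u - e 0) * psi b (u - e 1)) := by
  unfold NUP1.phi W0
  simp only [List.map_append, List.prod_append, List.map_cons, List.prod_cons, List.map_replicate,
    List.prod_replicate, List.map_nil, List.prod_nil, mul_one]

theorem phi_R0' (b : ℝ) (a : ℕ) (x u : ℂ) :
    NUP1.phi b (x :: List.replicate a 0) u = 1 - psi b (u - x) * psi b (u - 0) ^ a := by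
  unfold NUP1.phi
  simp only [List.map_cons, List.prod_cons, List.map_replicate, List.prod_replicate]

/-- admissible parameter: the moving row and the points near the imaginary axis -/
structure Th (η0 : ℝ) (v : Fin 2 → ℂ) (θ : ℂ) : Prop where
  x : |(θ * I).re| ≤ l / 100
  v0 : |(vx η0 v θ 0).re| ≤ l / 100
  v1 : |(vx η0 v θ 1).re| ≤ l / 100

theorem rwx_re {a : ℕ} {θ : ℂ} (h : |(θ * I).re| ≤ l / 100) (i : Fin (a + 1)) :
    |(rwx a θ i).re| ≤ l / 100 := by
  have hl := Bd.l_pos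
  refine Fin.cases ?_ (fun j => ?_) i
  · exact h
  · show |(0 : ℂ).re| ≤ _
    rw [zero_re, abs_zero]
    positivity

variable {c : Bool → ℂ} {b : ℝ} {a : ℕ} {z0 : ℂ} {η0 : ℝ} {v : Fin 2 → ℂ} {θ : ℂ}

/-- **the product form** -/
theorem ZX_eq (hb : 0 < b) (hb' : b ≤ 4 / 3) (hθ : |(θ * I).re| ≤ l / 100) (s : Bool)
    {k : Option O3} {u : ℂ} (hu : u.re ∈ KO k) :
    ZX c b a z0 η0 v θ s k u = ZP c b a z0 η0 v θ s k u := by
  have hl := Bd.l_pos
  have e1 := ph_W0 b a θ (vx η0 v θ)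
  have e2 := ph_R0 (4 / 3) a θ
  unfold ZX ZP
  rcases k with _ | (_ | _ | _)
  · show RR (c s) (rwx a θ) (rwx a θ) u * ph b (rwx a θ) _ u * Lg z0 z0 u = _
    rw [e1]
    rfl
  · show RR (c s) (rwx a θ) (rwx a θ) u * ph b (rwx a θ) _ u * Lg z0 z0 u = _
    rw [e1]
    rfl
  · show RR (c s) (rwx a θ) (rwx a θ) u * RR (c s) (rwx a θ) (rwx a θ) (u - l) *
      ph (4 / 3) (rwx a θ) _ u * (Lg z0 z0 u * Lg z0 z0 (u - l)) = _
    rw [e2]
    rfl
  · show TT (c s) b (4 / 3) (rwx a θ) (rwx a θ) _ _ u * (Lg z0 z0 u * Lg z0 z0 (u - l)) = _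
    have hre : ∀ i, -(l) < (u - rwx a θ i).re ∧ (u - rwx a θ i).re < 0 := by
      intro i
      obtain ⟨h1, h2⟩ := hu
      obtain ⟨h3, h4⟩ := abs_le.1 (rwx_re (a := a) hθ i)
      rw [sub_re]
      constructor <;> linarith
    rw [TT_eq (fun i => NQ_strip hb hb' (by linarith [(hre i).1]) (by linarith [(hre i).2]))
      (fun i => NQ_strip (by norm_num) le_rfl (by linarith [(hre i).1]) (by linarith [(hre i).2]))
      (fun i hi => by
        exfalso
        obtain ⟨h3, h4⟩ := abs_le.1 (rwx_re (a := a) hθ i)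
        linarith)
      (fun i hi => by
        exfalso
        obtain ⟨h3, h4⟩ := abs_le.1 (rwx_re (a := a) hθ i)
        linarith), e1, e1, e2]
    rfl

/-! ## joint analyticity -/

section diff

variable {E : Type*} [NormedAddCommGroup E] [NormedSpace ℂ E] {e0 : E}

theorem dProd {m : ℕ} {f : Fin m → E → ℂ} (h : ∀ i, DifferentiableAt ℂ (f i) e0) :
    DifferentiableAt ℂ (fun s => ∏ i, f i s) e0 :=
  (HasFDerivAt.finsetProd (u := Finset.univ) fun i _ => (h i).hasFDerivAt).differentiableAt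

theorem dInv {f : E → ℂ} (hf : DifferentiableAt ℂ f e0) (h : f e0 ≠ 0) :
    DifferentiableAt ℂ (fun s => 1 / f s) e0 := by
  simp_rw [one_div]
  exact DifferentiableAt.comp e0 (differentiableAt_inv h) hf

theorem dRR (c : ℂ) {m : ℕ} {x : E → Fin m → ℂ} {u : E → ℂ}
    (hx : ∀ i, DifferentiableAt ℂ (fun s => x s i) e0) (hu : DifferentiableAt ℂ u e0)
    (h : ∀ i, NP (u e0 - x e0 i).re) :
    DifferentiableAt ℂ (fun s => RR c (x s) (x s) (u s)) e0 := by
  unfold RR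
  have d1 := dProd (f := fun (i : Fin m) s => 1 / sin (u s - x s i)) (e0 := e0) (fun i => by
      have h0 : sin (u e0 - x e0 i) ≠ 0 := Bd.sin_ne_zero_of_re (h i).1
      have h1 : DifferentiableAt ℂ (fun s => u s - x s i) e0 := hu.sub (hx i)
      exact dInv h1.csin h0)
  have d2 := dProd (f := fun (i : Fin m) s => 1 / sin (u s - x s i - 2 * l)) (e0 := e0)
    (fun i => by
      have h0 : sin (u e0 - x e0 i - 2 * l) ≠ 0 := Bd.sin_ne_zero_of_re (by
        have := (h i).2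
        simpa using this)
      have h1 : DifferentiableAt ℂ (fun s => u s - x s i - 2 * l) e0 := (hu.sub (hx i)).sub_const _
      exact dInv h1.csin h0)
  have d3 := dProd (f := fun (i : Fin m) s => sin (u s - x s i + 3 * l) ^ 2) (e0 := e0)
    (fun i => by
      have h1 : DifferentiableAt ℂ (fun s => u s - x s i + 3 * l) e0 := (hu.sub (hx i)).add_const _
      exact h1.csin.pow 2)
  exact (((differentiableAt_const c).mul d1).mul d2).mul d3

theorem dpsi {β : ℝ} {f : E → ℂ} (hf : DifferentiableAt ℂ f e0) (h : NQ β (f e0).re) :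
    DifferentiableAt ℂ (fun s => psi β (f s)) e0 :=
  DifferentiableAt.comp e0 (diff_psi' h) hf

theorem dphiW {β : ℝ} (a : ℕ) {x u : E → ℂ} {e : E → Fin 2 → ℂ} (hx : DifferentiableAt ℂ x e0)
    (hu : DifferentiableAt ℂ u e0) (he : ∀ i, DifferentiableAt ℂ (fun s => e s i) e0)
    (h1 : NQ β (u e0 - x e0).re) (h2 : NQ β (u e0 - 0).re) (h3 : ∀ i, NQ β (u e0 - e e0 i).re) :
    DifferentiableAt ℂ (fun s => NUP1.phi β (W0 a (x s) (e s)) (u s)) e0 := by
  simp_rw [phi_W0']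
  exact (((dpsi (hu.sub hx) h1).mul ((dpsi (hu.sub_const 0) h2).pow a)).mul
    ((dpsi (hu.sub (he 0)) (h3 0)).mul (dpsi (hu.sub (he 1)) (h3 1)))).const_sub 1

theorem dphiR {β : ℝ} (a : ℕ) {x u : E → ℂ} (hx : DifferentiableAt ℂ x e0)
    (hu : DifferentiableAt ℂ u e0) (h1 : NQ β (u e0 - x e0).re) (h2 : NQ β (u e0 - 0).re) :
    DifferentiableAt ℂ (fun s => NUP1.phi β (x s :: List.replicate a 0) (u s)) e0 := by
  simp_rw [phi_R0']
  exact ((dpsi (hu.sub hx) h1).mul ((dpsi (hu.sub_const 0) h2).pow a)).const_sub 1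

theorem dLg {z0 : ℂ} {u : E → ℂ} (hu : DifferentiableAt ℂ u e0)
    (h : Real.sin (z0.re - (u e0).re + 2 * l) ≠ 0) :
    DifferentiableAt ℂ (fun s => Lg z0 z0 (u s)) e0 :=
  DifferentiableAt.comp e0 (PBX.Lg_diff h) hu

end diff

theorem d_rwx (a : ℕ) (i : Fin (a + 1)) (p : ℂ × ℂ) :
    DifferentiableAt ℂ (fun p : ℂ × ℂ => rwx a p.1 i) p := by
  refine Fin.cases ?_ (fun j => ?_) i
  · show DifferentiableAt ℂ (fun p : ℂ × ℂ => p.1 * I) p
    fun_prop
  · exact differentiableAt_const (0 : ℂ)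

theorem d_vx (η0 : ℝ) (v : Fin 2 → ℂ) (i : Fin 2) (p : ℂ × ℂ) :
    DifferentiableAt ℂ (fun p : ℂ × ℂ => vx η0 v p.1 i) p := by
  fin_cases i
  · show DifferentiableAt ℂ (fun p : ℂ × ℂ => I + (p.1 - η0) * v 0) p
    fun_prop
  · show DifferentiableAt ℂ (fun p : ℂ × ℂ => -I + (p.1 - η0) * v 1) p
    fun_prop

theorem KO_row {k : Option O3} {r : ℝ} (hr : r ∈ KO k) {x : ℝ} (hx : |x| ≤ l / 100) :
    (-(2 * l) < r - x ∧ r - x < 0) ∨ (0 < r - x ∧ r - x < l) := by
  have hl := Bd.l_pos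
  obtain ⟨h3, h4⟩ := abs_le.1 hx
  rcases k with _ | (_ | _ | _)
  · obtain ⟨h1, h2⟩ := hr
    exact Or.inr ⟨by linarith, by linarith⟩
  all_goals
    obtain ⟨h1, h2⟩ := hr
    exact Or.inl ⟨by linarith, by linarith⟩

theorem KO_NP {k : Option O3} {r : ℝ} (hr : r ∈ KO k) {x : ℝ} (hx : |x| ≤ l / 100) :
    NP (r - x) := by
  have hl := Bd.l_pos
  rcases KO_row hr hx with ⟨h1, h2⟩ | ⟨h1, h2⟩
  · exact NP_neg (by linarith) h2
  · exact NP_pos h1 (by linarith)

theorem KO_NQ {β : ℝ} (hβ : 0 < β) (hβ' : β ≤ 4 / 3) {k : Option O3} {r : ℝ} (hr : r ∈ KO k)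
    {x : ℝ} (hx : |x| ≤ l / 100) : NQ β (r - x) := by
  have hl := Bd.l_pos
  rcases KO_row hr hx with ⟨h1, h2⟩ | ⟨h1, h2⟩
  · exact NQ_strip hβ hβ' (by linarith) (by linarith)
  · exact NQ_strip hβ hβ' (by linarith) (by linarith)

/-- the second quantum of a string -/
theorem KO_NP' {k : O3} (hk : k ≠ .L) {r : ℝ} (hr : r ∈ KO (some k)) {x : ℝ}
    (hx : |x| ≤ l / 100) : NP (r - l - x) := by
  have hl := Bd.l_pos
  obtain ⟨h3, h4⟩ := abs_le.1 hx
  cases k
  · exact absurd rfl hk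
  all_goals
    obtain ⟨h1, h2⟩ := hr
    exact NP_neg (by linarith) (by linarith)

theorem KO_NQ' {β : ℝ} (hβ : 0 < β) (hβ' : β ≤ 4 / 3) {r : ℝ} (hr : r ∈ KO (some .T)) {x : ℝ}
    (hx : |x| ≤ l / 100) : NQ β (r - l - x) := by
  have hl := Bd.l_pos
  obtain ⟨h3, h4⟩ := abs_le.1 hx
  obtain ⟨h1, h2⟩ := hr
  exact NQ_strip hβ hβ' (by linarith) (by linarith)

/-- admissible position of the leg -/
structure Lz (z0 : ℂ) : Prop where
  a : -(9 / 10 * l) ≤ z0.re
  b : z0.re ≤ 1 / 2 * l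

theorem KO_Lg (hz : Lz z0) {k : Option O3} {r : ℝ} (hr : r ∈ KO k) :
    Real.sin (z0.re - r + 2 * l) ≠ 0 := by
  have hl := Bd.l_pos
  have h8 : 8 * l = Real.pi := by unfold l; ring
  obtain ⟨z1, z2⟩ := hz
  have h : -(2 * l) ≤ r ∧ r ≤ 19 / 20 * l := by
    rcases k with _ | (_ | _ | _)
    all_goals
      obtain ⟨h1, h2⟩ := hr
      constructor <;> linarith
  refine (Real.sin_pos_of_pos_of_lt_pi ?_ ?_).ne'
  · linarith [h.2]
  · linarith [h.1]

theorem KO_Lg' (hz : Lz z0) {k : O3} (hk : k ≠ .L) {r : ℝ} (hr : r ∈ KO (some k)) :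
    Real.sin (z0.re - (r - l) + 2 * l) ≠ 0 := by
  have hl := Bd.l_pos
  have h8 : 8 * l = Real.pi := by unfold l; ring
  obtain ⟨z1, z2⟩ := hz
  refine (Real.sin_pos_of_pos_of_lt_pi ?_ ?_).ne'
  all_goals
    cases k
    · exact absurd rfl hk
    all_goals
      obtain ⟨h1, h2⟩ := hr
      linarith

theorem re_sub_l (u : ℂ) : (u - l).re = u.re - l := by simp

/-- **joint analyticity** -/
theorem diff_ZP (hb : 0 < b) (hb' : b ≤ 4 / 3) (hz : Lz z0) (hθ : Th η0 v θ) (s : Bool)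
    {k : Option O3} {u : ℂ} (hu : u.re ∈ KO k) :
    DifferentiableAt ℂ (fun p : ℂ × ℂ => ZP c b a z0 η0 v p.1 s k p.2) (θ, u) := by
  have hl := Bd.l_pos
  have hx : DifferentiableAt ℂ (fun p : ℂ × ℂ => p.1 * I) (θ, u) := by fun_prop
  have h2 : DifferentiableAt ℂ (fun p : ℂ × ℂ => p.2) (θ, u) := differentiableAt_snd
  have h2' : DifferentiableAt ℂ (fun p : ℂ × ℂ => p.2 - (l : ℂ)) (θ, u) := h2.sub_const _
  have q0 : |(0 : ℝ)| ≤ l / 100 := by rw [abs_zero]; positivity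
  have hv : ∀ i, |(vx η0 v θ i).re| ≤ l / 100 := by
    intro i
    fin_cases i
    · exact hθ.v0
    · exact hθ.v1
  have dR : DifferentiableAt ℂ (fun p : ℂ × ℂ => RR (c s) (rwx a p.1) (rwx a p.1) p.2) (θ, u) :=
    dRR (c s) (fun i => d_rwx a i _) h2 (fun i => by
      rw [sub_re]
      exact KO_NP hu (rwx_re hθ.x i))
  have dR' : ∀ k' : O3, k = some k' → k' ≠ .L →
      DifferentiableAt ℂ (fun p : ℂ × ℂ => RR (c s) (rwx a p.1) (rwx a p.1) (p.2 - l)) (θ, u) := by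
    intro k' hk hk'
    subst hk
    refine dRR (c s) (fun i => d_rwx a i _) h2' (fun i => ?_)
    rw [sub_re, re_sub_l]
    exact KO_NP' hk' hu (rwx_re hθ.x i)
  have dW : DifferentiableAt ℂ (fun p : ℂ × ℂ => NUP1.phi b (W0 a (p.1 * I) (vx η0 v p.1)) p.2)
      (θ, u) := by
    refine dphiW a hx h2 (fun i => d_vx η0 v i _) ?_ ?_ fun i => ?_
    · rw [sub_re]
      exact KO_NQ hb hb' hu hθ.x
    · rw [sub_re, zero_re]
      exact KO_NQ hb hb' hu q0
    · rw [sub_re]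
      exact KO_NQ hb hb' hu (hv i)
  have dL : DifferentiableAt ℂ (fun p : ℂ × ℂ => Lg z0 z0 p.2) (θ, u) := dLg h2 (KO_Lg hz hu)
  have dL' : ∀ k' : O3, k = some k' → k' ≠ .L →
      DifferentiableAt ℂ (fun p : ℂ × ℂ => Lg z0 z0 (p.2 - l)) (θ, u) := by
    intro k' hk hk'
    subst hk
    refine dLg h2' ?_
    rw [re_sub_l]
    exact KO_Lg' hz hk' hu
  rcases k with _ | (_ | _ | _)
  · exact (dR.mul dW).mul dL
  · exact (dR.mul dW).mul dL
  · have d4 : DifferentiableAt ℂ (fun p : ℂ × ℂ =>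
        NUP1.phi (4 / 3) (p.1 * I :: List.replicate a 0) p.2) (θ, u) := by
      refine dphiR a hx h2 ?_ ?_
      · rw [sub_re]
        exact KO_NQ (by norm_num) le_rfl hu hθ.x
      · rw [sub_re, zero_re]
        exact KO_NQ (by norm_num) le_rfl hu q0
    exact ((dR.mul (dR' .S rfl (by decide))).mul d4).mul (dL.mul (dL' .S rfl (by decide)))
  · have d4 : DifferentiableAt ℂ (fun p : ℂ × ℂ =>
        NUP1.phi (4 / 3) (p.1 * I :: List.replicate a 0) p.2) (θ, u) := by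
      refine dphiR a hx h2 ?_ ?_
      · rw [sub_re]
        exact KO_NQ (by norm_num) le_rfl hu hθ.x
      · rw [sub_re, zero_re]
        exact KO_NQ (by norm_num) le_rfl hu q0
    have dW' : DifferentiableAt ℂ (fun p : ℂ × ℂ =>
        NUP1.phi b (W0 a (p.1 * I) (vx η0 v p.1)) (p.2 - l)) (θ, u) := by
      refine dphiW a hx h2' (fun i => d_vx η0 v i _) ?_ ?_ fun i => ?_
      · rw [sub_re, re_sub_l]
        exact KO_NQ' hb hb' hu hθ.x
      · rw [sub_re, re_sub_l, zero_re]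
        exact KO_NQ' hb hb' hu q0
      · rw [sub_re, re_sub_l]
        exact KO_NQ' hb hb' hu (hv i)
    exact ((dR.mul (dR' .T rfl (by decide))).mul ((dW.mul dW').sub d4)).mul
      (dL.mul (dL' .T rfl (by decide)))

/-! ## uniform bounds -/

section ub

variable {Θ : Type*} {S : Set Θ} {K : Set ℝ} {r ρ κ : ℝ}

theorem ub_osm {f g : Θ → ℂ → ℂ} (h1 : UB S K κ fun θ z => 1 - f θ z) (h0 : UB S K 0 f)
    (h2 : UB S K κ fun θ z => 1 - g θ z) : UB S K κ fun θ z => 1 - f θ z * g θ z :=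
  (h1.add ((h0.mul h2).rate (zero_add κ))).congr fun θ _ z _ => by ring

theorem ub_osp {f : Θ → ℂ → ℂ} (h1 : UB S K κ fun θ z => 1 - f θ z) (h0 : UB S K 0 f) (n : ℕ) :
    UB S K κ fun θ z => 1 - f θ z ^ n := by
  induction n with
  | zero =>
    obtain ⟨C, hC, h⟩ := h1
    refine ⟨C, hC, fun θ hθ z hz => ?_⟩
    simp only [pow_zero, sub_self, norm_zero]
    positivity
  | succ n ih =>
    exact (ub_osm ih ((h0.pow n).rate (mul_zero _)) h1).congr fun θ _ z _ => by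
      rw [pow_succ]

theorem ub_W {β : ℝ} (hβ : 0 < β) (a : ℕ) {x : Θ → ℂ} {e : Θ → Fin 2 → ℂ} (hx : InBox S r ρ x)
    (h0 : InBox S r ρ fun _ => 0) (he : ∀ i, InBox S r ρ fun θ => e θ i) (hK : IsCompact K)
    (h : NQr β r K) : UB S K (-(2 * β)) fun θ z => NUP1.phi β (W0 a (x θ) (e θ)) z := by
  have a1 := ub_one_sub_psi hβ hx hK h
  have b1 := ub_psi hβ hx hK h
  have a2 := ub_one_sub_psi hβ h0 hK h
  have b2 := ub_psi hβ h0 hK h
  have a3 := ub_one_sub_psi hβ (he 0) hK h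
  have b3 := ub_psi hβ (he 0) hK h
  have a4 := ub_one_sub_psi hβ (he 1) hK h
  have b5 := (b1.mul ((b2.pow a).rate (mul_zero _))).rate (zero_add 0)
  exact (ub_osm (ub_osm a1 b1 (ub_osp a2 b2 a)) b5 (ub_osm a3 b3 a4)).congr fun θ _ z _ => by
    rw [phi_W0']

theorem ub_R {β : ℝ} (hβ : 0 < β) (a : ℕ) {x : Θ → ℂ} (hx : InBox S r ρ x)
    (h0 : InBox S r ρ fun _ => 0) (hK : IsCompact K)
    (h : NQr β r K) : UB S K (-(2 * β)) fun θ z =>
      NUP1.phi β (x θ :: List.replicate a 0) z := by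
  have a1 := ub_one_sub_psi hβ hx hK h
  have b1 := ub_psi hβ hx hK h
  have a2 := ub_one_sub_psi hβ h0 hK h
  have b2 := ub_psi hβ h0 hK h
  exact (ub_osm a1 b1 (ub_osp a2 b2 a)).congr fun θ _ z _ => by
    rw [phi_R0']

theorem ub_Lg {z0 : ℂ} (hK : IsCompact K) (h : ∀ d ∈ K, Real.sin (z0.re - d + 2 * l) ≠ 0) :
    UB S K 0 fun (_ : Θ) z => Lg z0 z0 z := by
  have hx : InBox S 0 |z0.im| fun _ : Θ => I * (z0.im : ℂ) := by
    intro θ _
    simp
  have h1 := ub_sin hx K (-z0.re + 3 * l)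
  have h2 := ub_inv_sin hx hK (-z0.re - 2 * l) (by
    intro d hd e he
    have he0 : e = 0 := abs_nonpos_iff.1 he
    rw [he0]
    intro h0
    refine h d hd ?_
    rw [show z0.re - d + 2 * l = -(d - 0 + (-z0.re - 2 * l)) by ring, Real.sin_neg, h0, neg_zero])
  refine ((h1.mul h2).rate (by norm_num)).congr fun θ _ z _ => ?_
  unfold Lg
  have e0 : z0 = (z0.re : ℂ) + (z0.im : ℂ) * I := (re_add_im z0).symm
  have e1 : z0 - z - 3 * l = -(z - I * (z0.im : ℂ) + ((-z0.re + 3 * l : ℝ) : ℂ)) := by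
    push_cast
    linear_combination e0
  have e2 : z0 - z + 2 * l = -(z - I * (z0.im : ℂ) + ((-z0.re - 2 * l : ℝ) : ℂ)) := by
    push_cast
    linear_combination e0
  rw [e1, e2, Complex.sin_neg, Complex.sin_neg, neg_div_neg_eq, div_eq_mul_one_div]

end ub

/-- the radius of the parameter -/
def rad (v : Fin 2 → ℂ) : ℝ := l / (100 * (1 + ‖v 0‖ + ‖v 1‖))

theorem rad_pos (v : Fin 2 → ℂ) : 0 < rad v := by
  have hl := Bd.l_pos
  unfold rad
  positivity

theorem l_lt_one : l < 1 := by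
  have h8 : 8 * l = Real.pi := by unfold l; ring
  linarith [Real.pi_lt_four]

theorem rad_le (v : Fin 2 → ℂ) : rad v ≤ l / 100 ∧ rad v * ‖v 0‖ ≤ l / 100 ∧
    rad v * ‖v 1‖ ≤ l / 100 := by
  have hl := Bd.l_pos
  have h0 := norm_nonneg (v 0)
  have h1 := norm_nonneg (v 1)
  have hp : 0 < 100 * (1 + ‖v 0‖ + ‖v 1‖) := by positivity
  have key : ∀ t : ℝ, t ≤ 1 + ‖v 0‖ + ‖v 1‖ → rad v * t ≤ l / 100 := by
    intro t ht
    unfold rad
    rw [div_mul_eq_mul_div, div_le_div_iff₀ hp (by norm_num)]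
    nlinarith
  refine ⟨?_, key _ (by linarith), key _ (by linarith)⟩
  have := key 1 (by linarith)
  rwa [mul_one] at this

/-- the parameters -/
def SB (η0 : ℝ) (v : Fin 2 → ℂ) : Set ℂ := Metric.closedBall (η0 : ℂ) (rad v)

theorem SB_box {θ : ℂ} (h : θ ∈ SB η0 v) : Th η0 v θ ∧ |(θ * I).im| ≤ |η0| + 2 ∧
    ∀ i, |(vx η0 v θ i).im| ≤ |η0| + 2 := by
  have hl := Bd.l_pos
  have hl1 := l_lt_one
  obtain ⟨r0, r1, r2⟩ := rad_le v
  have hd : ‖θ - η0‖ ≤ rad v := by rwa [SB, mem_closedBall_iff_norm] at h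
  have hre : |(θ - η0).re| ≤ rad v := (abs_re_le_norm _).trans hd
  have him : |(θ - η0).im| ≤ rad v := (abs_im_le_norm _).trans hd
  have e1 : (θ * I).re = -(θ - η0).im := by simp
  have e2 : (θ * I).im = (θ - η0).re + η0 := by simp
  have hv : ∀ i : Fin 2, ‖(θ - η0) * v i‖ ≤ l / 100 := by
    intro i
    rw [norm_mul]
    fin_cases i
    · exact (mul_le_mul_of_nonneg_right hd (norm_nonneg _)).trans r1
    · exact (mul_le_mul_of_nonneg_right hd (norm_nonneg _)).trans r2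
  have p0 : (vx η0 v θ 0) = I + (θ - η0) * v 0 := rfl
  have p1 : (vx η0 v θ 1) = -I + (θ - η0) * v 1 := rfl
  have f0 : (vx η0 v θ 0).re = ((θ - η0) * v 0).re := by rw [p0, add_re, I_re, zero_add]
  have f1 : (vx η0 v θ 1).re = ((θ - η0) * v 1).re := by
    rw [p1, add_re, neg_re, I_re, neg_zero, zero_add]
  have g0 : (vx η0 v θ 0).im = 1 + ((θ - η0) * v 0).im := by rw [p0, add_im, I_im]
  have g1 : (vx η0 v θ 1).im = -1 + ((θ - η0) * v 1).im := by
    rw [p1, add_im, neg_im, I_im]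
  have hη := abs_nonneg η0
  refine ⟨⟨?_, ?_, ?_⟩, ?_, ?_⟩
  · rw [e1, abs_neg]
    exact him.trans r0
  · rw [f0]
    exact (abs_re_le_norm _).trans (hv 0)
  · rw [f1]
    exact (abs_re_le_norm _).trans (hv 1)
  · rw [e2]
    refine (abs_add_le _ _).trans ?_
    linarith
  · intro i
    fin_cases i
    · show |(vx η0 v θ 0).im| ≤ _
      rw [g0]
      refine (abs_add_le _ _).trans ?_
      rw [abs_one]
      have := (abs_im_le_norm ((θ - η0) * v 0)).trans (hv 0)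
      linarith
    · show |(vx η0 v θ 1).im| ≤ _
      rw [g1]
      refine (abs_add_le _ _).trans ?_
      rw [abs_neg, abs_one]
      have := (abs_im_le_norm ((θ - η0) * v 1)).trans (hv 1)
      linarith

theorem KO_compact (k : Option O3) : IsCompact (KO k) := by
  rcases k with _ | (_ | _ | _) <;> exact isCompact_Icc

/-- the strip of the second quanta -/
def K' : Set ℝ := Set.Icc (-(47 / 20) * l) (-(29 / 20) * l)

/-- **uniform bounds of the product form** -/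
theorem ub_ZP (hb : 0 < b) (hb' : b ≤ 4 / 3) (hz : Lz z0) (s : Bool) (k : Option O3) :
    UB (SB η0 v) (KO k) (-(2 * b)) fun θ u => ZP c b a z0 η0 v θ s k u := by
  have hl := Bd.l_pos
  have hK := KO_compact k
  have bx : InBox (SB η0 v) (l / 100) (|η0| + 2) fun θ => θ * I := fun θ hθ =>
    ⟨(SB_box hθ).1.x, (SB_box hθ).2.1⟩
  have b0 : InBox (SB η0 v) (l / 100) (|η0| + 2) fun _ => (0 : ℂ) := fun θ hθ => by
    rw [zero_re, zero_im, abs_zero]
    have := abs_nonneg η0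
    constructor <;> positivity
  have be : ∀ i, InBox (SB η0 v) (l / 100) (|η0| + 2) fun θ => vx η0 v θ i := fun i θ hθ => by
    refine ⟨?_, (SB_box hθ).2.2 i⟩
    fin_cases i
    · exact (SB_box hθ).1.v0
    · exact (SB_box hθ).1.v1
  have br : ∀ i, InBox (SB η0 v) (l / 100) (|η0| + 2) fun θ => rwx a θ i := fun i => by
    refine Fin.cases ?_ (fun j => ?_) i
    · exact bx
    · exact b0
  have nP : NPr (l / 100) (KO k) := fun d hd e he => KO_NP hd he
  have nQ : ∀ β : ℝ, 0 < β → β ≤ 4 / 3 → NQr β (l / 100) (KO k) := fun β h1 h2 d hd e he =>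
    KO_NQ h1 h2 hd he
  have uR := ub_RR (c s) br br hK nP
  have uW := ub_W hb a bx b0 be hK (nQ b hb hb')
  have u4 := ub_R (β := 4 / 3) (by norm_num) a bx b0 hK (nQ (4 / 3) (by norm_num) le_rfl)
  have uL : UB (SB η0 v) (KO k) 0 fun (_ : ℂ) z => Lg z0 z0 z := ub_Lg hK fun d hd => KO_Lg hz hd
  have hK2 : IsCompact K' := isCompact_Icc
  have sub' : ∀ k' : O3, k' ≠ .L → ∀ r ∈ KO (some k'), r - l ∈ K' := by
    intro k' hk' r hr
    cases k'
    · exact absurd rfl hk'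
    all_goals
      obtain ⟨h1, h2⟩ := hr
      unfold K'
      constructor <;> linarith
  have nP' : NPr (l / 100) K' := NPr_neg fun d hd => by
    obtain ⟨h1, h2⟩ := hd
    constructor <;> linarith
  have uR' := ub_RR (c s) br br hK2 nP'
  have nQ' : NQr b (l / 100) K' := NQr_strip hb hb' fun d hd => by
    obtain ⟨h1, h2⟩ := hd
    constructor <;> linarith
  have uW' := ub_W hb a bx b0 be hK2 nQ'
  have uL' : UB (SB η0 v) K' 0 fun (_ : ℂ) z => Lg z0 z0 z := ub_Lg hK2 fun d hd => by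
    obtain ⟨h1, h2⟩ := hd
    obtain ⟨z1, z2⟩ := hz
    have h8 : 8 * l = Real.pi := by unfold l; ring
    exact (Real.sin_pos_of_pos_of_lt_pi (by linarith) (by linarith)).ne'
  rcases k with _ | (_ | _ | _)
  · exact (((uR.mul uW).mul uL).rate (by ring)).congr fun θ _ z _ => rfl
  · exact (((uR.mul uW).mul uL).rate (by ring)).congr fun θ _ z _ => rfl
  · have h1 := uR.mul (uR'.shift_l (sub' .S (by decide)))
    have h2 := uL.mul (uL'.shift_l (sub' .S (by decide)))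
    exact (((h1.mul u4).mul h2).mono_rate (by linarith)).congr fun θ _ z _ => rfl
  · have h1 := uR.mul (uR'.shift_l (sub' .T (by decide)))
    have h2 := uL.mul (uL'.shift_l (sub' .T (by decide)))
    have h3 := uW.mul (uW'.shift_l (sub' .T (by decide)))
    have h4 := (h3.mono_rate (s' := -(2 * b)) (by linarith)).sub
      (u4.mono_rate (s' := -(2 * b)) (by linarith))
    exact (((h1.mul h4).mul h2).rate (by ring)).congr fun θ _ z _ => rfl

end PBZF

end
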