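import Pool.Agent.PB.Far3
import Pool.Agent.PB.ExMix

/-!
# Plan B: the cut term of the first Ward identity, product forms (helper17)

`ZcX c y b k x v ξe X s1 s2`: rows `y` (of both groups), cutoff of the list `x :: 0 ^ k` and the points
`± i` (velocity of `x`: `v`, field at the far ends `ξe`), field `X` at the heads (`u` for the quanta,
`u + 2 l` for objects), spectators `s1` (one factor), `s2` (two factors).
-/

set_option autoImplicit false
set_option linter.unusedVariables false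

noncomputable section

open Complex

namespace PBC

open NUP1 NUP1S NURow PBFar

variable {m : ℕ}

/-- **the cut term in product form** -/
def ZcX (c : ℂ) (y : Fin m → ℂ) (b : ℝ) (k : ℕ) (x v : ℂ) (ξe : ℝ → ℂ) (X s1 s2 : ℂ → ℂ) :
    Option O3 → ℂ → ℂ
  | none, u => RR c y y u * DW b k x v ξe (X u) u * s1 u
  | some .L, u => RR c y y u * DW b k x v ξe (X (u + 2 * l)) u * s1 u
  | some .S, w => RR c y y w * RR c y y (w - l) * DR (4 / 3) k x v (X (w + 2 * l)) w * s2 w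
  | some .T, w => RR c y y w * RR c y y (w - l) * DT b k x v ξe (X (w + 2 * l)) w * s2 w

theorem ZcX_none (c : ℂ) (y : Fin m → ℂ) (b : ℝ) (k : ℕ) (x v : ℂ) (ξe : ℝ → ℂ) (X s1 s2 : ℂ → ℂ)
    (u : ℂ) : ZcX c y b k x v ξe X s1 s2 none u = RR c y y u * DW b k x v ξe (X u) u * s1 u := rfl

theorem ZcX_L (c : ℂ) (y : Fin m → ℂ) (b : ℝ) (k : ℕ) (x v : ℂ) (ξe : ℝ → ℂ) (X s1 s2 : ℂ → ℂ)
    (u : ℂ) : ZcX c y b k x v ξe X s1 s2 (some .L) u =
      RR c y y u * DW b k x v ξe (X (u + 2 * l)) u * s1 u := rfl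

theorem ZcX_S (c : ℂ) (y : Fin m → ℂ) (b : ℝ) (k : ℕ) (x v : ℂ) (ξe : ℝ → ℂ) (X s1 s2 : ℂ → ℂ)
    (w : ℂ) : ZcX c y b k x v ξe X s1 s2 (some .S) w =
      RR c y y w * RR c y y (w - l) * DR (4 / 3) k x v (X (w + 2 * l)) w * s2 w := rfl

theorem ZcX_T (c : ℂ) (y : Fin m → ℂ) (b : ℝ) (k : ℕ) (x v : ℂ) (ξe : ℝ → ℂ) (X s1 s2 : ℂ → ℂ)
    (w : ℂ) : ZcX c y b k x v ξe X s1 s2 (some .T) w =
      RR c y y w * RR c y y (w - l) * DT b k x v ξe (X (w + 2 * l)) w * s2 w := rfl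

end PBC

end
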