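import Pool.Agent.PB.ZFamA
import Pool.Agent.PB.I1E
import Pool.Agent.NURow.ConvL
import Pool.Agent.PB.ZcD
import Pool.Agent.NUGC.OneXH

/-!
# The leg functions at rows `i η`, `0 ^ a` with moving cutoff points: `ZFam`

* `ZR` : the family (real parameter), `ZdR` : derivative in `η`, `ZpR` : derivative in the position;
* **`exists_zfam`** : 89's `ZFam` on all admissible lines, constant independent of the lines;
* `lamU`, `lamK` : `i` times the logarithmic derivative of the legs; **`zcut_eq`** : `Zcut` is 17's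
  `ZcX` (row factor × derivative of the cutoff along the path × leg) on the inner strips.
-/

set_option autoImplicit false
set_option linter.unusedSectionVars false
set_option linter.unusedVariables false

noncomputable section

open Complex MeasureTheory Filter Topology Finset

namespace PBZF

open NUP1 NUP1S NUP1.Bd NURow PB
open PBX (XX ph gP Lg)
open PBFar (W0 cutT)
open PBForce (rowO)
open PBI

variable {c : Bool → ℂ} {b : ℝ} {a : ℕ} {z0 : ℂ} {η0 : ℝ} {v : Fin 2 → ℂ}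

/-- the family of the one body functions -/
def ZR (c : Bool → ℂ) (b : ℝ) (a : ℕ) (z0 : ℂ) (η0 : ℝ) (v : Fin 2 → ℂ) (η : ℝ) : Stt :=
  fun s k u => ZX c b a z0 η0 v (η : ℂ) s k u

open scoped Classical in
/-- derivative in the height of the row -/
def ZdR (c : Bool → ℂ) (b : ℝ) (a : ℕ) (z0 : ℂ) (η0 : ℝ) (v : Fin 2 → ℂ) (η : ℝ) : Stt :=
  fun s k u => if η ∈ Metric.ball η0 (rad v / 2) ∧ u.re ∈ KO k then
    deriv (fun θ : ℂ => ZP c b a z0 η0 v θ s k u) (η : ℂ) else 0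

open scoped Classical in
/-- derivative in the position -/
def ZpR (c : Bool → ℂ) (b : ℝ) (a : ℕ) (z0 : ℂ) (η0 : ℝ) (v : Fin 2 → ℂ) : Stt :=
  fun s k u => if u.re ∈ KI k then
    deriv (fun u : ℂ => ZP c b a z0 η0 v (η0 : ℂ) s k u) u else 0

/-! ## strips -/

theorem KI_ball {k : Option O3} {r r' : ℝ} (h : r ∈ KI k) (h' : |r' - r| ≤ l / 20) : r' ∈ KO k := by
  have hl := Bd.l_pos
  obtain ⟨h3, h4⟩ := abs_le.1 h'
  rcases k with _ | (_ | _ | _)
  all_goals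
    obtain ⟨h1, h2⟩ := h
    constructor <;> linarith

theorem KI_sub {k : Option O3} {r : ℝ} (h : r ∈ KI k) : r ∈ KO k := by
  have hl := Bd.l_pos
  exact KI_ball h (by rw [sub_self, abs_zero]; positivity)

theorem KI_nhd {k : Option O3} {u : ℂ} (h : u.re ∈ KI k) : ∀ᶠ w in 𝓝 u, w.re ∈ KO k := by
  have hl := Bd.l_pos
  filter_upwards [Metric.ball_mem_nhds u (show (0 : ℝ) < l / 20 by positivity)] with w hw
  refine KI_ball h ?_
  rw [← sub_re]
  refine (abs_re_le_norm _).trans ?_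
  rw [Metric.mem_ball, dist_eq_norm] at hw
  exact hw.le

theorem meas_KO (k : Option O3) : MeasurableSet {u : ℂ | u.re ∈ KO k} := by
  have : MeasurableSet (KO k) := (KO_compact k).measurableSet
  exact measurable_re this

theorem meas_KI (k : Option O3) : MeasurableSet {u : ℂ | u.re ∈ KI k} := by
  have : MeasurableSet (KI k) := by
    rcases k with _ | (_ | _ | _) <;> exact measurableSet_Icc
  exact measurable_re this

/-! ## the parameter -/

theorem real_Th (η : ℝ) : |((η : ℂ) * I).re| ≤ l / 100 := by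
  have hl := Bd.l_pos
  have : ((η : ℂ) * I).re = 0 := by simp
  rw [this, abs_zero]
  positivity

theorem mem_SB {η : ℝ} (h : η ∈ Metric.ball η0 (rad v / 2)) {θ : ℂ}
    (hθ : ‖θ - η‖ ≤ rad v / 2) : θ ∈ SB η0 v := by
  rw [Metric.mem_ball, Real.dist_eq] at h
  rw [SB, mem_closedBall_iff_norm]
  have e : ‖((η : ℂ) - η0)‖ = |η - η0| := by
    rw [← ofReal_sub, Complex.norm_real, Real.norm_eq_abs]
  have := norm_add_le (θ - η) ((η : ℂ) - η0)
  rw [sub_add_sub_cancel, e] at this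
  linarith

theorem mem_SB' {η : ℝ} (h : η ∈ Metric.ball η0 (rad v / 2)) : (η : ℂ) ∈ SB η0 v := by
  have := rad_pos v
  exact mem_SB h (by rw [sub_self, norm_zero]; positivity)

theorem mem_SB0 : (η0 : ℂ) ∈ SB η0 v := by
  have := rad_pos v
  exact mem_SB' (Metric.mem_ball_self (by positivity))

theorem ZR_eq (hb : 0 < b) (hb' : b ≤ 4 / 3) (η : ℝ) (s : Bool) {k : Option O3} {u : ℂ}
    (hu : u.re ∈ KO k) : ZR c b a z0 η0 v η s k u = ZP c b a z0 η0 v (η : ℂ) s k u :=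
  ZX_eq hb hb' (real_Th η) s hu

/-! ## the derivatives -/

/-- the section in `θ` -/
theorem diff_th (hb : 0 < b) (hb' : b ≤ 4 / 3) (hz : Lz z0) {θ : ℂ} (hθ : θ ∈ SB η0 v) (s : Bool)
    {k : Option O3} {u : ℂ} (hu : u.re ∈ KO k) :
    DifferentiableAt ℂ (fun θ : ℂ => ZP c b a z0 η0 v θ s k u) θ := by
  have h := diff_ZP (c := c) (a := a) hb hb' hz (SB_box hθ).1 s hu
  exact DifferentiableAt.comp (f := fun θ : ℂ => (θ, u)) θ h (by fun_prop)

/-- the section in `u` -/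
theorem diff_u (hb : 0 < b) (hb' : b ≤ 4 / 3) (hz : Lz z0) {θ : ℂ} (hθ : θ ∈ SB η0 v) (s : Bool)
    {k : Option O3} {u : ℂ} (hu : u.re ∈ KO k) :
    DifferentiableAt ℂ (fun u : ℂ => ZP c b a z0 η0 v θ s k u) u := by
  have h := diff_ZP (c := c) (a := a) hb hb' hz (SB_box hθ).1 s hu
  exact DifferentiableAt.comp (f := fun u : ℂ => (θ, u)) u h (by fun_prop)

theorem hasDeriv_eta (hb : 0 < b) (hb' : b ≤ 4 / 3) (hz : Lz z0) {η : ℝ}
    (h : η ∈ Metric.ball η0 (rad v / 2)) (s : Bool) {k : Option O3} {u : ℂ} (hu : u.re ∈ KO k) :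
    HasDerivAt (fun η : ℝ => ZR c b a z0 η0 v η s k u) (ZdR c b a z0 η0 v η s k u) η := by
  have h1 := (diff_th (c := c) (a := a) hb hb' hz (mem_SB' h) s hu).hasDerivAt.comp_ofReal
  have e : (fun η : ℝ => ZR c b a z0 η0 v η s k u) =
      fun η : ℝ => ZP c b a z0 η0 v (η : ℂ) s k u := funext fun η => ZR_eq hb hb' η s hu
  rw [e]
  unfold ZdR
  rw [if_pos ⟨h, hu⟩]
  exact h1

theorem hasDeriv_pos (hb : 0 < b) (hb' : b ≤ 4 / 3) (hz : Lz z0) (s : Bool) {k : Option O3}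
    {u : ℂ} (hu : u.re ∈ KI k) :
    HasDerivAt (ZR c b a z0 η0 v η0 s k) (ZpR c b a z0 η0 v s k u) u := by
  have h1 := (diff_u (c := c) (a := a) hb hb' hz (mem_SB0 (η0 := η0) (v := v)) s (KI_sub hu)).hasDerivAt
  unfold ZpR
  rw [if_pos hu]
  refine h1.congr_of_eventuallyEq ?_
  filter_upwards [KI_nhd hu] with w hw
  exact ZR_eq hb hb' η0 s hw

/-! ## measurability -/

theorem meas_ZR (η : ℝ) (s : Bool) (k : Option O3) : Measurable (ZR c b a z0 η0 v η s k) := by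
  unfold ZR ZX
  exact PBX.measurable_XX (PBX.measurable_gP _ _) measurable_const (PBX.Lg_meas _ _)
    ((PBX.Lg_meas _ _).mul ((PBX.Lg_meas _ _).comp (measurable_id.sub_const _))) k

theorem meas_ZpR (s : Bool) (k : Option O3) : Measurable (ZpR c b a z0 η0 v s k) := by
  unfold ZpR
  exact Measurable.ite (meas_KI k) (measurable_deriv _) measurable_const

theorem meas_ZdR (hb : 0 < b) (hb' : b ≤ 4 / 3) (hz : Lz z0) (η : ℝ) (s : Bool)
    (k : Option O3) : Measurable (ZdR c b a z0 η0 v η s k) := by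
  classical
  by_cases h : η ∈ Metric.ball η0 (rad v / 2)
  · set F : ℕ → ℂ → ℂ := fun j u => if u.re ∈ KO k then
      ((j : ℝ) + 1 : ℝ) • (ZR c b a z0 η0 v (η + ((j : ℝ) + 1)⁻¹) s k u -
        ZR c b a z0 η0 v η s k u) else 0 with hF
    have hm : ∀ j, Measurable (F j) := fun j =>
      Measurable.ite (meas_KO k) ((((meas_ZR (η + ((j : ℝ) + 1)⁻¹) s k).sub
        (meas_ZR η s k)).const_smul ((j : ℝ) + 1 : ℝ))) measurable_const
    refine measurable_of_tendsto_metrizable hm ?_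
    rw [tendsto_pi_nhds]
    intro u
    by_cases hu : u.re ∈ KO k
    · have hd := hasDeriv_eta (c := c) (a := a) hb hb' hz h s hu
      have h2 := hd.tendsto_slope_zero
      have h3 : Tendsto (fun j : ℕ => ((j : ℝ) + 1)⁻¹) atTop (𝓝[≠] 0) := by
        refine tendsto_nhdsWithin_iff.2 ⟨?_, Eventually.of_forall fun j => ?_⟩
        · have := tendsto_one_div_add_atTop_nhds_zero_nat (𝕜 := ℝ)
          simpa only [one_div] using this
        · have : (0 : ℝ) < (j : ℝ) + 1 := by positivity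
          exact inv_ne_zero this.ne'
      have h4 := h2.comp h3
      refine h4.congr fun j => ?_
      simp only [Function.comp_apply, hF, if_pos hu, inv_inv]
    · have e1 : ZdR c b a z0 η0 v η s k u = 0 := by
        unfold ZdR
        rw [if_neg fun hc => hu hc.2]
      rw [e1]
      refine tendsto_const_nhds.congr fun j => ?_
      simp only [hF, if_neg hu]
  · have : ZdR c b a z0 η0 v η s k = fun _ => 0 := by
      funext u
      unfold ZdR
      rw [if_neg fun hc => h hc.1]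
    rw [this]
    exact measurable_const

/-! ## bounds -/

/-- one constant for all kinds and species -/
theorem exists_bd (c : Bool → ℂ) (a : ℕ) (η0 : ℝ) (v : Fin 2 → ℂ) (hb : 0 < b) (hb' : b ≤ 4 / 3)
    (hz : Lz z0) : ∃ C : ℝ, 0 ≤ C ∧ ∀ θ ∈ SB η0 v,
    ∀ (s : Bool) (k : Option O3) (u : ℂ), u.re ∈ KO k →
    ‖ZP c b a z0 η0 v θ s k u‖ ≤ C * Real.exp (-(2 * b * |u.im|)) := by
  have h : ∀ p : Bool × Option O3, ∃ C : ℝ, 0 ≤ C ∧ ∀ θ ∈ SB η0 v, ∀ u : ℂ, u.re ∈ KO p.2 →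
      ‖ZP c b a z0 η0 v θ p.1 p.2 u‖ ≤ C * Real.exp (-(2 * b) * |u.im|) := fun p =>
    ub_ZP (c := c) (a := a) hb hb' hz p.1 p.2
  choose C hC H using h
  refine ⟨∑ p, C p, Finset.sum_nonneg fun p _ => hC p, fun θ hθ s k u hu => ?_⟩
  refine (H (s, k) θ hθ u hu).trans ?_
  rw [show -(2 * b) * |u.im| = -(2 * b * |u.im|) by ring]
  exact mul_le_mul_of_nonneg_right
    (Finset.single_le_sum (f := C) (fun p _ => hC p) (Finset.mem_univ (s, k))) (Real.exp_pos _).le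

theorem bd_ZR (hb : 0 < b) (hb' : b ≤ 4 / 3) {C : ℝ}
    (h : ∀ θ ∈ SB η0 v, ∀ (s : Bool) (k : Option O3) (u : ℂ), u.re ∈ KO k →
      ‖ZP c b a z0 η0 v θ s k u‖ ≤ C * Real.exp (-(2 * b * |u.im|))) {η : ℝ}
    (hη : η ∈ Metric.ball η0 (rad v / 2)) (s : Bool) {k : Option O3} {u : ℂ} (hu : u.re ∈ KO k) :
    ‖ZR c b a z0 η0 v η s k u‖ ≤ C * Real.exp (-(2 * b * |u.im|)) := by
  rw [ZR_eq hb hb' η s hu]
  exact h _ (mem_SB' hη) s k u hu

theorem bd_ZdR (hb : 0 < b) (hb' : b ≤ 4 / 3) (hz : Lz z0) {C : ℝ} 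
    (h : ∀ θ ∈ SB η0 v, ∀ (s : Bool) (k : Option O3) (u : ℂ), u.re ∈ KO k →
      ‖ZP c b a z0 η0 v θ s k u‖ ≤ C * Real.exp (-(2 * b * |u.im|))) {η : ℝ}
    (hη : η ∈ Metric.ball η0 (rad v / 2)) (s : Bool) {k : Option O3} {u : ℂ} (hu : u.re ∈ KO k) :
    ‖ZdR c b a z0 η0 v η s k u‖ ≤ 2 / rad v * C * Real.exp (-(2 * b * |u.im|)) := by
  have hr := rad_pos v
  have hr2 : 0 < rad v / 2 := by positivity
  unfold ZdR
  rw [if_pos ⟨hη, hu⟩]
  have hin : ∀ θ ∈ Metric.closedBall (η : ℂ) (rad v / 2), θ ∈ SB η0 v := fun θ hθ =>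
    mem_SB hη (by rwa [mem_closedBall_iff_norm] at hθ)
  have hd : DiffContOnCl ℂ (fun θ : ℂ => ZP c b a z0 η0 v θ s k u)
      (Metric.ball (η : ℂ) (rad v / 2)) := by
    refine DifferentiableOn.diffContOnCl ?_
    rw [closure_ball _ hr2.ne']
    exact fun θ hθ => (diff_th hb hb' hz (hin θ hθ) s hu).differentiableWithinAt
  have := Complex.norm_deriv_le_of_forall_mem_sphere_norm_le hr2 hd
    (C := C * Real.exp (-(2 * b * |u.im|))) fun θ hθ =>
      h θ (hin θ (Metric.sphere_subset_closedBall hθ)) s k u hu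
  refine this.trans (le_of_eq ?_)
  field_simp

theorem bd_ZpR (hb : 0 < b) (hb' : b ≤ 4 / 3) (hz : Lz z0) {C : ℝ} (hC : 0 ≤ C)
    (h : ∀ θ ∈ SB η0 v, ∀ (s : Bool) (k : Option O3) (u : ℂ), u.re ∈ KO k →
      ‖ZP c b a z0 η0 v θ s k u‖ ≤ C * Real.exp (-(2 * b * |u.im|))) (s : Bool) {k : Option O3}
    {u : ℂ} (hu : u.re ∈ KI k) :
    ‖ZpR c b a z0 η0 v s k u‖ ≤ 20 / l * Real.exp 1 * C * Real.exp (-(2 * b * |u.im|)) := by
  have hl := Bd.l_pos
  have hl1 := l_lt_one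
  have hr2 : 0 < l / 20 := by positivity
  unfold ZpR
  rw [if_pos hu]
  have hin : ∀ w ∈ Metric.closedBall u (l / 20), w.re ∈ KO k := fun w hw => by
    rw [mem_closedBall_iff_norm] at hw
    refine KI_ball hu ?_
    rw [← sub_re]
    exact (abs_re_le_norm _).trans hw
  have hd : DiffContOnCl ℂ (fun u : ℂ => ZP c b a z0 η0 v (η0 : ℂ) s k u)
      (Metric.ball u (l / 20)) := by
    refine DifferentiableOn.diffContOnCl ?_
    rw [closure_ball _ hr2.ne']
    exact fun w hw => (diff_u hb hb' hz (mem_SB0 (η0 := η0) (v := v)) s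
      (hin w hw)).differentiableWithinAt
  have := Complex.norm_deriv_le_of_forall_mem_sphere_norm_le hr2 hd
    (C := C * (Real.exp 1 * Real.exp (-(2 * b * |u.im|)))) fun w hw => by
      refine (h η0 mem_SB0 s k w (hin w (Metric.sphere_subset_closedBall hw))).trans ?_
      refine mul_le_mul_of_nonneg_left ?_ hC
      rw [← Real.exp_add]
      refine Real.exp_le_exp.2 ?_
      have h1 : |w.im - u.im| ≤ l / 20 := by
        rw [← sub_im]
        rw [mem_sphere_iff_norm] at hw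
        exact (abs_im_le_norm _).trans hw.le
      have h2 : |u.im| - |w.im| ≤ |w.im - u.im| := by
        rw [abs_sub_comm]
        exact abs_sub_abs_le_abs_sub _ _
      have h3 : 2 * b * (|u.im| - |w.im|) ≤ 2 * b * (l / 20) :=
        mul_le_mul_of_nonneg_left (h2.trans h1) (by positivity)
      nlinarith
  refine this.trans (le_of_eq ?_)
  field_simp

/-! ## lines -/

/-- the lines of a word are in the inner strips -/
theorem all_KI {α : ℝ} (hα : 3 / 5 * l ≤ α) (hα' : α ≤ 9 / 10 * l) {L : PBI.Lns} (hL : LnH L.X L.Y)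
    (n n' : ℕ) {p p' : ℕ} (k : Fin p → O3) (k' : Fin p' → O3)
    (i : (Fin (nA n k) ⊕ Fin p) ⊕ (Fin (nA n' k') ⊕ Fin p')) :
    L.all α n n' k k' i ∈ KI (cl n n' k k' i).2 := by
  have hl := Bd.l_pos
  have key : ∀ (o : O3) (r : ℝ), r ∈ Set.Icc
      (lo4 (3 / 5 * l) (-(17 / 10 * l)) (-(13 / 10 * l)) (-(7 / 10 * l)) (some o))
      (lo4 (3 / 5 * l) (-(5 / 4 * l)) (-(7 / 10 * l)) (-(l / 2)) (some o)) →
      r ∈ KI (some o) := by
    intro o r hr
    cases o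
    · have h1 : -(17 / 10 * l) ≤ r := hr.1
      have h2 : r ≤ -(5 / 4 * l) := hr.2
      exact ⟨by linarith, by linarith⟩
    · have h1 : -(13 / 10 * l) ≤ r := hr.1
      have h2 : r ≤ -(7 / 10 * l) := hr.2
      exact ⟨by linarith, by linarith⟩
    · have h1 : -(7 / 10 * l) ≤ r := hr.1
      have h2 : r ≤ -(l / 2) := hr.2
      exact ⟨by linarith, by linarith⟩
  rcases i with (i | i) | (i | i)
  · exact ⟨hα, hα'⟩
  · exact key _ _ (hL.hX p p' k k' i)
  · exact ⟨hα, hα'⟩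
  · exact key _ _ (hL.hY p p' k k' i)

/-- the lines of a word keep away from the poles of the pairs -/
theorem all_ok {α : ℝ} (hα : 3 / 5 * l ≤ α) (hα' : α < 7 / 10 * l) {L : PBI.Lns} (hL : LnH L.X L.Y)
    (n n' : ℕ) : AllW α n n' L fun c x => LnOk c x := by
  have hl := Bd.l_pos
  intro p p' k k' h1 h2 i j hij
  have hs : Strips α (-(17 / 10) * l) (-(5 / 4) * l) (-(13 / 10) * l) (-(1 / 2) * l)
      (-(13 / 10) * l) (-(1 / 2) * l) := by
    constructor <;> linarith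
  have hi := all_KI hα (by linarith) hL n n' k k'
  have key : ∀ i, L.all α n n' k k' i ∈ Set.Icc
      (lo4 α (-(17 / 10) * l) (-(13 / 10) * l) (-(13 / 10) * l) (cl n n' k k' i).2)
      (lo4 α (-(5 / 4) * l) (-(1 / 2) * l) (-(1 / 2) * l) (cl n n' k k' i).2) := by
    intro i
    have hi' := hi i
    rcases i with (i | i) | (i | i)
    · exact ⟨le_rfl, le_rfl⟩
    · show L.X p p' k k' i ∈ Set.Icc (lo4 α _ _ _ (some (k i))) (lo4 α _ _ _ (some (k i)))
      have h : L.X p p' k k' i ∈ KI (some (k i)) := hi'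
      revert h
      cases k i
      · exact fun h => h
      · intro h
        exact ⟨h.1, h.2.trans (show -(7 / 10) * l ≤ -(1 / 2) * l by linarith)⟩
      · intro h
        exact ⟨le_trans (show -(13 / 10) * l ≤ -(7 / 10) * l by linarith) h.1, h.2⟩
    · exact ⟨le_rfl, le_rfl⟩
    · show L.Y p p' k k' i ∈ Set.Icc (lo4 α _ _ _ (some (k' i))) (lo4 α _ _ _ (some (k' i)))
      have h : L.Y p p' k k' i ∈ KI (some (k' i)) := hi'
      revert h
      cases k' i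
      · exact fun h => h
      · intro h
        exact ⟨h.1, h.2.trans (show -(7 / 10) * l ≤ -(1 / 2) * l by linarith)⟩
      · intro h
        exact ⟨le_trans (show -(13 / 10) * l ≤ -(7 / 10) * l by linarith) h.1, h.2⟩
  exact Ok_of_RO (RO_strips hs _ _ _ _ (key i) (key j))

/-- **`ZFam`**, the constant does not depend on the lines and the number of quanta -/
theorem exists_zfam (c : Bool → ℂ) (a : ℕ) (η0 : ℝ) (v : Fin 2 → ℂ) (hb : 0 < b)
    (hb' : b ≤ 4 / 3) (hz : Lz z0) : ∃ D : ℝ, 0 ≤ D ∧ ∀ (α : ℝ) (n : ℕ) (L : PBI.Lns),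
    3 / 5 * l ≤ α → α < 7 / 10 * l → LnH L.X L.Y →
    ZFam α n L (2 * b) D (rad v / 2) η0 (ZR c b a z0 η0 v) (ZdR c b a z0 η0 v)
      (ZpR c b a z0 η0 v) := by
  have hl := Bd.l_pos
  have hr := rad_pos v
  obtain ⟨C, hC, h⟩ := exists_bd c a η0 v hb hb' hz
  set D : ℝ := C + 2 / rad v * C + 20 / l * Real.exp 1 * C with hD
  have d1 : 0 ≤ 2 / rad v * C := by positivity
  have d2 : 0 ≤ 20 / l * Real.exp 1 * C := by positivity
  refine ⟨D, by positivity, fun α n L hα hα' hL => ?_⟩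
  have up : ∀ {x y : ℝ} {w : ℂ}, ‖w‖ ≤ x * Real.exp y → x ≤ D → ‖w‖ ≤ D * Real.exp y :=
    fun h1 h2 => h1.trans (mul_le_mul_of_nonneg_right h2 (Real.exp_pos _).le)
  have hK := fun {p p' : ℕ} (k : Fin p → O3) (k' : Fin p' → O3) =>
    all_KI hα (by linarith) hL n n k k'
  refine
    { hκ := by positivity
      hr := by positivity
      hD := by positivity
      hok := all_ok hα hα' hL n n
      hm := fun η s k => meas_ZR η s k
      hmd := fun η s k => meas_ZdR hb hb' hz η s k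
      hm' := fun s k => meas_ZpR s k
      hZ := ?_
      hZd := ?_
      hZ' := ?_
      hd := ?_
      hd' := ?_ }
  · intro η hη p p' k k' h1 h2 i t
    have hi := KI_sub (hK k k' i)
    rw [show L.all α n n k k' i = (vl (L.all α n n k k' i) t).re from (re_vl _ _).symm] at hi
    have := bd_ZR (c := c) (a := a) hb hb' h hη (cl n n k k' i).1 hi
    rw [im_vl] at this
    exact up this (by linarith)
  · intro η hη p p' k k' h1 h2 i t
    have hi := KI_sub (hK k k' i)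
    rw [show L.all α n n k k' i = (vl (L.all α n n k k' i) t).re from (re_vl _ _).symm] at hi
    have := bd_ZdR (c := c) (a := a) hb hb' hz h hη (cl n n k k' i).1 hi
    rw [im_vl] at this
    exact up this (by linarith)
  · intro p p' k k' h1 h2 i t
    have hi := hK k k' i
    rw [show L.all α n n k k' i = (vl (L.all α n n k k' i) t).re from (re_vl _ _).symm] at hi
    have := bd_ZpR (c := c) (a := a) hb hb' hz hC h (cl n n k k' i).1 hi
    rw [im_vl] at this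
    exact up this (by linarith)
  · intro η hη p p' k k' h1 h2 i t
    have hi := KI_sub (hK k k' i)
    rw [show L.all α n n k k' i = (vl (L.all α n n k k' i) t).re from (re_vl _ _).symm] at hi
    exact hasDeriv_eta hb hb' hz hη (cl n n k k' i).1 hi
  · intro p p' k k' h1 h2 i t
    have hi := hK k k' i
    rw [show L.all α n n k k' i = (vl (L.all α n n k k' i) t).re from (re_vl _ _).symm] at hi
    exact hasDeriv_pos hb hb' hz (cl n n k k' i).1 hi

/-! ## derivative along the path -/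

theorem path_deriv {G : ℂ × ℂ → ℂ} {θ0 u ξ A B : ℂ} (h : DifferentiableAt ℂ G (θ0, u))
    (hA : HasDerivAt (fun θ : ℂ => G (θ, u)) A θ0) (hB : HasDerivAt (fun w : ℂ => G (θ0, w)) B u) :
    HasDerivAt (fun τ : ℝ => G (θ0 + τ, u + I * ξ * τ)) (A + I * ξ * B) 0 := by
  have hG := h.hasFDerivAt
  have e1 : HasDerivAt (fun θ : ℂ => (θ, u)) ((1 : ℂ), (0 : ℂ)) θ0 :=
    (hasDerivAt_id θ0).prodMk (hasDerivAt_const θ0 u)
  have e2 : HasDerivAt (fun w : ℂ => (θ0, w)) ((0 : ℂ), (1 : ℂ)) u :=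
    (hasDerivAt_const u θ0).prodMk (hasDerivAt_id u)
  have h1 : A = fderiv ℂ G (θ0, u) (1, 0) := hA.unique (hG.comp_hasDerivAt θ0 e1)
  have h2 : B = fderiv ℂ G (θ0, u) (0, 1) := hB.unique (hG.comp_hasDerivAt u e2)
  have e3 : HasDerivAt (fun τ : ℂ => (θ0 + τ, u + I * ξ * τ)) ((1 : ℂ), I * ξ) ((0 : ℝ) : ℂ) := by
    refine HasDerivAt.prodMk ?_ ?_
    · simpa using (hasDerivAt_id ((0 : ℝ) : ℂ)).const_add θ0
    · simpa using ((hasDerivAt_id ((0 : ℝ) : ℂ)).const_mul (I * ξ)).const_add u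
  have hp : (θ0 + ((0 : ℝ) : ℂ), u + I * ξ * ((0 : ℝ) : ℂ)) = (θ0, u) := by simp
  have hG' : HasFDerivAt G (fderiv ℂ G (θ0, u)) (θ0 + ((0 : ℝ) : ℂ), u + I * ξ * ((0 : ℝ) : ℂ)) := by
    rw [hp]
    exact hG
  have h3 := (hG'.comp_hasDerivAt ((0 : ℝ) : ℂ) e3).comp_ofReal
  refine h3.congr_deriv ?_
  rw [h1, h2, ← smul_eq_mul (I * ξ), ← map_smul, ← map_add]
  congr 1
  simp

/-! ## row factor, legs -/

theorem rwx_re0 (a : ℕ) (η : ℝ) (i : Fin (a + 1)) : (rwx a (η : ℂ) i).re = 0 := by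
  refine Fin.cases ?_ (fun j => ?_) i
  · show (((η : ℂ) * I)).re = 0
    simp
  · exact zero_re

theorem rowOk_of {v : ℂ} (h : (-(3 * l) < v.re ∧ v.re < 0) ∨ (0 < v.re ∧ v.re < 2 * l)) :
    PBForce.RowOk v := by
  have hl := Bd.l_pos
  have h8 : 8 * l = Real.pi := by unfold l; ring
  have e2 : (v - 2 * (l : ℂ)).re = v.re - 2 * l := by
    have : (v - ((2 * l : ℝ) : ℂ)).re = v.re - 2 * l := by simp
    push_cast at this
    exact this
  have e3 : (v + 3 * (l : ℂ)).re = v.re + 3 * l := by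
    have : (v + ((3 * l : ℝ) : ℂ)).re = v.re + 3 * l := by simp
    push_cast at this
    exact this
  have p3 : Real.sin (v.re + 3 * l) ≠ 0 := by
    refine (Real.sin_pos_of_pos_of_lt_pi ?_ ?_).ne'
    · rcases h with h | h <;> linarith [h.1, h.2]
    · rcases h with h | h <;> linarith [h.1, h.2]
  have hNP : NP v.re := by
    rcases h with h | h
    · exact NP_neg (by linarith [h.1]) h.2
    · exact NP_pos h.1 h.2
  exact ⟨Bd.sin_ne_zero_of_re hNP.1, Bd.sin_ne_zero_of_re (by rw [e2]; exact hNP.2),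
    Bd.sin_ne_zero_of_re (by rw [e3]; exact p3)⟩

theorem KO_rowOk {k : Option O3} {u : ℂ} (hu : u.re ∈ KO k) (a : ℕ) (η : ℝ) (i : Fin (a + 1)) :
    PBForce.RowOk (u - rwx a (η : ℂ) i) ∧
      (ob4 k = .S → PBForce.RowOk (u - l - rwx a (η : ℂ) i)) := by
  have hl := Bd.l_pos
  constructor
  · refine rowOk_of ?_
    rw [sub_re, rwx_re0]
    rcases KO_row hu (x := 0) (by rw [abs_zero]; positivity) with h | h
    · exact Or.inl ⟨by linarith [h.1], h.2⟩
    · exact Or.inr ⟨h.1, by linarith [h.2]⟩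
  · intro hk
    refine rowOk_of (Or.inl ?_)
    rw [sub_re, re_sub_l, rwx_re0]
    rcases k with _ | (_ | _ | _)
    · exact absurd hk (by decide)
    · exact absurd hk (by decide)
    all_goals
      obtain ⟨h1, h2⟩ := hu
      constructor <;> linarith

theorem diff_rowO (c : ℂ) {k : Option O3} {θ u : ℂ} (hθ : |(θ * I).re| ≤ l / 100)
    (hu : u.re ∈ KO k) :
    DifferentiableAt ℂ (fun p : ℂ × ℂ => rowO c (rwx a p.1) (ob4 k) p.2) (θ, u) := by
  have h2 : DifferentiableAt ℂ (fun p : ℂ × ℂ => p.2) (θ, u) := differentiableAt_snd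
  have h2' : DifferentiableAt ℂ (fun p : ℂ × ℂ => p.2 - (l : ℂ)) (θ, u) := h2.sub_const _
  have dR : DifferentiableAt ℂ (fun p : ℂ × ℂ => RR c (rwx a p.1) (rwx a p.1) p.2) (θ, u) :=
    dRR c (fun i => d_rwx a i _) h2 (fun i => by
      rw [sub_re]
      exact KO_NP hu (rwx_re hθ i))
  have dR' : ∀ k' : O3, k = some k' → k' ≠ .L →
      DifferentiableAt ℂ (fun p : ℂ × ℂ => RR c (rwx a p.1) (rwx a p.1) (p.2 - l)) (θ, u) := by
    intro k' hk hk'
    subst hk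
    refine dRR c (fun i => d_rwx a i _) h2' (fun i => ?_)
    rw [sub_re, re_sub_l]
    exact KO_NP' hk' hu (rwx_re hθ i)
  rcases k with _ | (_ | _ | _)
  · exact dR
  · exact dR
  · exact dR.mul (dR' .S rfl (by decide))
  · exact dR.mul (dR' .T rfl (by decide))

/-- the row factor along the path -/
theorem path_rowO (c : ℂ) (η0 : ℝ) {k : Option O3} {u : ℂ} (ξ : ℂ) (hu : u.re ∈ KO k) :
    HasDerivAt (fun τ : ℝ => rowO c (rwx a ((η0 : ℂ) + τ)) (ob4 k) (u + I * ξ * τ))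
      (rowO c (rwx a (η0 : ℂ)) (ob4 k) u * (PBForce.r1R (ob4 k) (rwx a (η0 : ℂ)) 0 u +
        ξ * PBForce.krR (ob4 k) (rwx a (η0 : ℂ)) u)) 0 := by
  have hd := diff_rowO (a := a) c (real_Th η0) hu
  have hB := PBForce.hasDerivAt_rowO c (rwx a (η0 : ℂ)) (ob4 k)
    (fun i => (KO_rowOk hu a η0 i).1) (fun hk i => (KO_rowOk hu a η0 i).2 hk)
  have hA0 := PBForce.hasDerivAt_rowO_row c (rwx a (η0 : ℂ)) 0 (ob4 k)
    (KO_rowOk hu a η0 0).1 (fun hk => (KO_rowOk hu a η0 0).2 hk)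
  have hA1 : HasDerivAt (fun θ : ℂ => rowO c (rwx a θ) (ob4 k) u)
      (deriv (fun θ : ℂ => rowO c (rwx a θ) (ob4 k) u) η0) η0 :=
    (DifferentiableAt.comp (f := fun θ : ℂ => (θ, u)) (η0 : ℂ) hd (by fun_prop)).hasDerivAt
  have hup : ∀ η : ℝ, Function.update (rwx a (η0 : ℂ)) 0 (rwx a (η0 : ℂ) 0 + η * I) =
      rwx a ((η0 : ℂ) + η) := by
    intro η
    funext i
    refine Fin.cases ?_ (fun j => ?_) i
    · rw [Function.update_self]
      show (η0 : ℂ) * I + η * I = ((η0 : ℂ) + η) * I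
      ring
    · rw [Function.update_of_ne (Fin.succ_ne_zero j)]
      rfl
  simp_rw [hup] at hA0
  have hA2 : HasDerivAt (fun η : ℝ => rowO c (rwx a ((η0 : ℂ) + η)) (ob4 k) u)
      (deriv (fun θ : ℂ => rowO c (rwx a θ) (ob4 k) u) η0) 0 := by
    have e3 : HasDerivAt (fun τ : ℂ => (η0 : ℂ) + τ) (1 : ℂ) ((0 : ℝ) : ℂ) := by
      simpa using (hasDerivAt_id ((0 : ℝ) : ℂ)).const_add (η0 : ℂ)
    have hA1' : HasDerivAt (fun θ : ℂ => rowO c (rwx a θ) (ob4 k) u)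
        (deriv (fun θ : ℂ => rowO c (rwx a θ) (ob4 k) u) η0) ((η0 : ℂ) + ((0 : ℝ) : ℂ)) := by
      rw [ofReal_zero, add_zero]
      exact hA1
    exact ((hA1'.comp ((0 : ℝ) : ℂ) e3).comp_ofReal).congr_deriv (mul_one _)
  have hAeq := hA0.unique hA2
  rw [← hAeq] at hA1
  have := path_deriv (ξ := ξ) hd hA1 hB
  refine this.congr_deriv ?_
  linear_combination (-ξ * rowO c (rwx a (η0 : ℂ)) (ob4 k) u *
    PBForce.krR (ob4 k) (rwx a (η0 : ℂ)) u) * I_mul_I

/-- `i` times the logarithmic derivative of the leg factor of a quantum -/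
def lamU (z0 u : ℂ) : ℂ := I * deriv (Lg z0 z0) u / Lg z0 z0 u

/-- `i` times the logarithmic derivative of the leg factor of a kind -/
def lamK (z0 : ℂ) : Option O3 → ℂ → ℂ
  | some .S, w => lamU z0 w + lamU z0 (w - l)
  | some .T, w => lamU z0 w + lamU z0 (w - l)
  | _, u => lamU z0 u

theorem Lg_ne {z0 u : ℂ} (hz : Lz z0) (h1 : -(47 / 20) * l ≤ u.re) (h2 : u.re ≤ 19 / 20 * l) :
    Lg z0 z0 u ≠ 0 ∧ Real.sin (z0.re - u.re + 2 * l) ≠ 0 := by
  have hl := Bd.l_pos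
  have h8 : 8 * l = Real.pi := by unfold l; ring
  obtain ⟨z1, z2⟩ := hz
  have hd : Real.sin (z0.re - u.re + 2 * l) ≠ 0 :=
    (Real.sin_pos_of_pos_of_lt_pi (by linarith) (by linarith)).ne'
  have hn : Real.sin (z0.re - u.re - 3 * l) ≠ 0 := by
    have : Real.sin (-(z0.re - u.re - 3 * l)) ≠ 0 :=
      (Real.sin_pos_of_pos_of_lt_pi (by linarith) (by linarith)).ne'
    rwa [Real.sin_neg, neg_ne_zero] at this
  refine ⟨?_, hd⟩
  unfold Lg
  refine div_ne_zero (Bd.sin_ne_zero_of_re ?_) (PBX.Lg_den hd)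
  have : (z0 - u - ((3 * l : ℝ) : ℂ)).re = z0.re - u.re - 3 * l := by simp
  push_cast at this
  rw [this]
  exact hn

/-- the legs along the path -/
theorem path_leg {z0 : ℂ} (hz : Lz z0) {k : Option O3} {u : ℂ} (ξ : ℂ) (hu : u.re ∈ KO k) :
    HasDerivAt (fun τ : ℝ => one (Lg z0 z0) (ob4 k) (u + I * ξ * τ))
      (one (Lg z0 z0) (ob4 k) u * (ξ * lamK z0 k u)) 0 := by
  have hl := Bd.l_pos
  have e3 : HasDerivAt (fun τ : ℂ => u + I * ξ * τ) (I * ξ) ((0 : ℝ) : ℂ) := by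
    simpa using ((hasDerivAt_id ((0 : ℝ) : ℂ)).const_mul (I * ξ)).const_add u
  have base : ∀ w : ℂ, -(47 / 20) * l ≤ w.re → w.re ≤ 19 / 20 * l →
      HasDerivAt (fun τ : ℝ => Lg z0 z0 (w + I * ξ * τ)) (Lg z0 z0 w * (ξ * lamU z0 w)) 0 := by
    intro w h1 h2
    obtain ⟨hne, hd⟩ := Lg_ne hz h1 h2
    have e3 : HasDerivAt (fun τ : ℂ => w + I * ξ * τ) (I * ξ) ((0 : ℝ) : ℂ) := by
      simpa using ((hasDerivAt_id ((0 : ℝ) : ℂ)).const_mul (I * ξ)).const_add w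
    have h3 : HasDerivAt (Lg z0 z0) (deriv (Lg z0 z0) w) (w + I * ξ * ((0 : ℝ) : ℂ)) := by
      rw [ofReal_zero, mul_zero, add_zero]
      exact (PBX.Lg_diff hd).hasDerivAt
    refine ((h3.comp ((0 : ℝ) : ℂ) e3).comp_ofReal).congr_deriv ?_
    unfold lamU
    field_simp
  have hu1 : -(47 / 20) * l ≤ u.re ∧ u.re ≤ 19 / 20 * l := by
    rcases k with _ | (_ | _ | _)
    all_goals
      obtain ⟨h1, h2⟩ := hu
      constructor <;> linarith
  have a1 := base u hu1.1 hu1.2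
  have a2 : ∀ k' : O3, k = some k' → k' ≠ .L → HasDerivAt (fun τ : ℝ =>
      Lg z0 z0 (u + I * ξ * τ - l)) (Lg z0 z0 (u - l) * (ξ * lamU z0 (u - l))) 0 := by
    intro k' hk hk'
    subst hk
    have hr : -(47 / 20) * l ≤ (u - l).re ∧ (u - l).re ≤ 19 / 20 * l := by
      rw [re_sub_l]
      cases k'
      · exact absurd rfl hk'
      all_goals
        obtain ⟨h1, h2⟩ := hu
        constructor <;> linarith
    have := base (u - l) hr.1 hr.2
    refine this.congr_of_eventuallyEq (Eventually.of_forall fun τ => ?_)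
    show Lg z0 z0 (u + I * ξ * τ - l) = Lg z0 z0 (u - l + I * ξ * τ)
    congr 1
    ring
  rcases k with _ | (_ | _ | _)
  · exact a1
  · exact a1
  · refine (a1.mul (a2 .S rfl (by decide))).congr_deriv ?_
    show _ = Lg z0 z0 u * Lg z0 z0 (u - l) * (ξ * (lamU z0 u + lamU z0 (u - l)))
    rw [ofReal_zero, mul_zero, add_zero]
    ring
  · refine (a1.mul (a2 .T rfl (by decide))).congr_deriv ?_
    show _ = Lg z0 z0 u * Lg z0 z0 (u - l) * (ξ * (lamU z0 u + lamU z0 (u - l)))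
    rw [ofReal_zero, mul_zero, add_zero]
    ring

/-! ## the cutoff -/

/-- derivative of the cutoff of a kind along the path -/
def DcutZ (b : ℝ) (a : ℕ) (η0 : ℝ) (ξe : ℝ → ℂ) (ξ : ℂ) : Option O3 → ℂ → ℂ
  | some .S, u => PBFar.DR (4 / 3) a (η0 * I) I ξ u
  | some .T, u => PBFar.DT b a (η0 * I) I ξe ξ u
  | _, u => PBFar.DW b a (η0 * I) I ξe ξ u

theorem hyp75 {b : ℝ} (hb1 : 1 ≤ b) (hb' : b ≤ 4 / 3) : PBFar.Hyp b (7 / 5 * l) := by
  have hl := Bd.l_pos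
  have h8 : 8 * l = Real.pi := by unfold l; ring
  refine ⟨hb1, hb', by positivity, ?_⟩
  nlinarith

theorem vx_at (η0 : ℝ) (v : Fin 2 → ℂ) : vx η0 v (η0 : ℂ) = PBFar.wE := by
  unfold vx PBFar.wE
  rw [sub_self, zero_mul, zero_mul, add_zero, add_zero]

theorem path_cut (hb1 : 1 ≤ b) (hb' : b ≤ 4 / 3) (η0 : ℝ) (ξe : ℝ → ℂ) {k : Option O3} {u : ℂ}
    (ξ : ℂ) (hu : u.re ∈ KI k) :
    HasDerivAt (fun τ : ℝ => cutZ b a (((η0 : ℂ) + τ) * I)
        (vx η0 (PBFar.vI b a ((η0 : ℂ) * I) I ξe) ((η0 : ℂ) + τ)) k (u + I * ξ * τ))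
      (DcutZ b a η0 ξe ξ k u) 0 := by
  have hl := Bd.l_pos
  have H := hyp75 hb1 hb'
  have H' := hyp75 (b := 4 / 3) (by norm_num) le_rfl
  set v := PBFar.vI b a ((η0 : ℂ) * I) I ξe with hv
  have x0 : |((η0 : ℂ) * I).re| ≤ l / 2 := by
    rw [show ((η0 : ℂ) * I).re = 0 by simp, abs_zero]
    positivity
  have hid : HasDerivAt (fun τ : ℝ => ((τ : ℝ) : ℂ)) 1 0 := by
    simpa using (hasDerivAt_id ((0 : ℝ) : ℂ)).comp_ofReal
  have hX : HasDerivAt (fun τ : ℝ => ((η0 : ℂ) + τ) * I) I 0 := by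
    simpa using (hid.const_add (η0 : ℂ)).mul_const I
  have hX0 : (fun τ : ℝ => ((η0 : ℂ) + τ) * I) 0 = (η0 : ℂ) * I := by simp
  have he : ∀ i, HasDerivAt (fun τ : ℝ => vx η0 v ((η0 : ℂ) + τ) i) (v i) 0 := by
    intro i
    fin_cases i
    · show HasDerivAt (fun τ : ℝ => I + ((η0 : ℂ) + τ - η0) * v 0) (v 0) 0
      simpa using (((hid.const_add (η0 : ℂ)).sub_const (η0 : ℂ)).mul_const (v 0)).const_add I
    · show HasDerivAt (fun τ : ℝ => -I + ((η0 : ℂ) + τ - η0) * v 1) (v 1) 0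
      simpa using (((hid.const_add (η0 : ℂ)).sub_const (η0 : ℂ)).mul_const (v 1)).const_add (-I)
  have he0 : (fun τ : ℝ => vx η0 v ((η0 : ℂ) + τ)) 0 = PBFar.wE := by
    show vx η0 v ((η0 : ℂ) + ((0 : ℝ) : ℂ)) = PBFar.wE
    rw [ofReal_zero, add_zero]
    exact vx_at η0 v
  have hU : HasDerivAt (fun τ : ℝ => u + I * ξ * τ) (I * ξ) 0 := by
    simpa using (hid.const_mul (I * ξ)).const_add u
  have hU0 : u + I * ξ * ((0 : ℝ) : ℂ) = u := by simp
  have s1 : |(u + I * ξ * ((0 : ℝ) : ℂ)).re + l / 2| ≤ 7 / 5 * l := by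
    rw [hU0, abs_le]
    rcases k with _ | (_ | _ | _)
    all_goals
      obtain ⟨h1, h2⟩ := hu
      constructor <;> linarith
  rcases k with _ | (_ | _ | _)
  · have := PBFar.hasDerivAt_W H x0 hX hX0 he he0 hU s1
    rw [hU0] at this
    exact this
  · have := PBFar.hasDerivAt_W H x0 hX hX0 he he0 hU s1
    rw [hU0] at this
    exact this
  · have := PBFar.hasDerivAt_R H' (a := a) x0 hX hX0 hU s1
    rw [hU0] at this
    exact this
  · have s2 : |(u + I * ξ * ((0 : ℝ) : ℂ) - (l : ℂ)).re + l / 2| ≤ 7 / 5 * l := by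
      rw [hU0, re_sub_l, abs_le]
      obtain ⟨h1, h2⟩ := hu
      constructor <;> linarith
    have := PBFar.hasDerivAt_T H H' x0 hX hX0 he he0 hU s1 s2 s1
    rw [hU0] at this
    exact this

/-! ## the cut term -/

/-- **what the first Ward identity leaves**: row factor × derivative of the cutoff × legs -/
theorem zcut_eq0 (c : Bool → ℂ) (hb1 : 1 ≤ b) (hb' : b ≤ 4 / 3) (hz : Lz z0) (η0 : ℝ) (ξe : ℝ → ℂ)
    {Ξ κr r1 lam : PBI.Kd → ℂ → ℂ} (s : Bool) {k : Option O3} {u : ℂ} (hu : u.re ∈ KI k)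
    (hκ : κr (s, k) u = PBForce.krR (ob4 k) (rwx a (η0 : ℂ)) u)
    (hr : r1 (s, k) u = PBForce.r1R (ob4 k) (rwx a (η0 : ℂ)) 0 u)
    (hlam : lam (s, k) u = lamK z0 k u) :
    Zcut (ZR c b a z0 η0 (PBFar.vI b a ((η0 : ℂ) * I) I ξe) η0)
      (ZdR c b a z0 η0 (PBFar.vI b a ((η0 : ℂ) * I) I ξe) η0)
      (ZpR c b a z0 η0 (PBFar.vI b a ((η0 : ℂ) * I) I ξe)) Ξ κr r1 lam s k u =
    rowO (c s) (rwx a (η0 : ℂ)) (ob4 k) u * DcutZ b a η0 ξe (Ξ (s, k) u) k u *
      one (Lg z0 z0) (ob4 k) u := by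
  have hb : 0 < b := by linarith
  set v := PBFar.vI b a ((η0 : ℂ) * I) I ξe with hv
  set ξ := Ξ (s, k) u with hξ
  have hr0 := rad_pos v
  have huO := KI_sub hu
  have h0 : η0 ∈ Metric.ball η0 (rad v / 2) := Metric.mem_ball_self (by positivity)
  -- the total derivative
  have hG := diff_ZP (c := c) (a := a) (θ := (η0 : ℂ)) hb hb' hz
    (SB_box (mem_SB0 (η0 := η0) (v := v))).1 s huO
  have hA := (diff_th (c := c) (a := a) hb hb' hz (mem_SB0 (η0 := η0) (v := v)) s huO).hasDerivAt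
  have hB := (diff_u (c := c) (a := a) hb hb' hz (mem_SB0 (η0 := η0) (v := v)) s huO).hasDerivAt
  have p0 := path_deriv (ξ := ξ) hG hA hB
  -- the product
  have p1 := path_rowO (a := a) (c s) η0 ξ huO
  have p2 := path_cut (a := a) hb1 hb' η0 ξe ξ hu
  have p3 := path_leg hz ξ huO
  have p4 := (p1.mul p2).mul p3
  have key := p0.unique p4
  have ez : ((η0 : ℂ) + ((0 : ℝ) : ℂ)) = η0 := by rw [ofReal_zero, add_zero]
  have eu : (u + I * ξ * ((0 : ℝ) : ℂ)) = u := by rw [ofReal_zero, mul_zero, add_zero]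
  simp only [Pi.mul_apply, ez, eu, ← hv] at key
  unfold Zcut
  rw [hκ, hr, hlam, ← hξ, ZR_eq hb hb' η0 s huO]
  have e1 : ZdR c b a z0 η0 v η0 s k u = deriv (fun θ : ℂ => ZP c b a z0 η0 v θ s k u) (η0 : ℂ) := by
    unfold ZdR
    rw [if_pos ⟨h0, huO⟩]
  have e2 : ZpR c b a z0 η0 v s k u = deriv (fun u : ℂ => ZP c b a z0 η0 v (η0 : ℂ) s k u) u := by
    unfold ZpR
    rw [if_pos hu]
  rw [e1, e2, key]
  unfold ZP
  ring

/-- **`Zcut` is 17's `ZcX`** on the inner strips -/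
theorem zcut_eq (c : Bool → ℂ) (hb1 : 1 ≤ b) (hb' : b ≤ 4 / 3) (hz : Lz z0) (η0 : ℝ) (ξe : ℝ → ℂ)
    {X : ℂ → ℂ} {Ξ κr r1 lam : PBI.Kd → ℂ → ℂ} (s : Bool) {k : Option O3} {u : ℂ} (hu : u.re ∈ KI k)
    (hX : Ξ (s, none) u = X u) (hX' : ∀ o : O3, Ξ (s, some o) u = X (u + 2 * l))
    (hκ : κr (s, k) u = PBForce.krR (ob4 k) (rwx a (η0 : ℂ)) u)
    (hr : r1 (s, k) u = PBForce.r1R (ob4 k) (rwx a (η0 : ℂ)) 0 u)
    (hlam : lam (s, k) u = lamK z0 k u) :
    Zcut (ZR c b a z0 η0 (PBFar.vI b a ((η0 : ℂ) * I) I ξe) η0)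
      (ZdR c b a z0 η0 (PBFar.vI b a ((η0 : ℂ) * I) I ξe) η0)
      (ZpR c b a z0 η0 (PBFar.vI b a ((η0 : ℂ) * I) I ξe)) Ξ κr r1 lam s k u =
    PBC.ZcX (c s) (rwx a (η0 : ℂ)) b a ((η0 : ℂ) * I) I ξe X (Lg z0 z0)
      (fun w => Lg z0 z0 w * Lg z0 z0 (w - l)) k u := by
  rw [zcut_eq0 c hb1 hb' hz η0 ξe s hu hκ hr hlam]
  rcases k with _ | (_ | _ | _)
  · rw [hX]
    rfl
  · rw [hX' .L]
    rfl
  · rw [hX' .S]
    rfl
  · rw [hX' .T]
    rfl

/-! ## final forms -/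

/-- the literal one body functions -/
theorem ZR_lit (c : ℂ) (b : ℝ) (a : ℕ) (z0 : ℂ) (η0 : ℝ) (v : Fin 2 → ℂ) (η : ℝ) :
    ZR (fun _ => c) b a z0 η0 v η = fun _ k u =>
      XX c b (Fin.cons ((η : ℂ) * I) fun _ => 0 : Fin (a + 1) → ℂ)
        (Fin.cons ((η : ℂ) * I) fun _ => 0) (gP b [vx η0 v (η : ℂ) 0, vx η0 v (η : ℂ) 1])
        (gP (4 / 3) []) (Lg z0 z0) (fun w => Lg z0 z0 w * Lg z0 z0 (w - l)) k u := rfl

/-- **`ZFam` on the final lines**, one constant for all parameters `P` and all `n` -/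
theorem exists_zfam_P (c : Bool → ℂ) (a : ℕ) (η0 : ℝ) (v : Fin 2 → ℂ) (hb : 0 < b)
    (hb' : b ≤ 4 / 3) (hz : Lz z0) : ∃ D : ℝ, 0 ≤ D ∧ ∀ P : NUO.Par, NUGC.ParC P → ∀ n : ℕ,
    ZFam (3 / 5 * l) n ⟨NUP1S.lX P, NUP1S.lY P⟩ (2 * b) D (rad v / 2) η0 (ZR c b a z0 η0 v)
      (ZdR c b a z0 η0 v) (ZpR c b a z0 η0 v) := by
  have hl := Bd.l_pos
  obtain ⟨D, hD, h⟩ := exists_zfam c a η0 v hb hb' hz
  refine ⟨D, hD, fun P hP n => h _ n _ le_rfl (by linarith) ?_⟩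
  exact LnH_P hP.goodP hP.j1 hP.j2 fun r => by
    have h1 := hP.e2 r
    have h2 := hP.d0 r
    linarith

/-- **the cut term on the lines of all words** -/
theorem zcut_all (c : Bool → ℂ) (hb1 : 1 ≤ b) (hb' : b ≤ 4 / 3) (hz : Lz z0) (η0 : ℝ)
    (ξe : ℝ → ℂ) {X : ℂ → ℂ} {Ξ κr r1 lam : PBI.Kd → ℂ → ℂ}
    (hX : ∀ s u, Ξ (s, none) u = X u) (hX' : ∀ (s : Bool) (o : O3) u, Ξ (s, some o) u = X (u + 2 * l))
    (hκ : ∀ s k u, κr (s, k) u = PBForce.krR (ob4 k) (rwx a (η0 : ℂ)) u)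
    (hr : ∀ s k u, r1 (s, k) u = PBForce.r1R (ob4 k) (rwx a (η0 : ℂ)) 0 u)
    (hlam : ∀ s k u, lam (s, k) u = lamK z0 k u)
    {α : ℝ} (hα : 3 / 5 * l ≤ α) (hα' : α ≤ 9 / 10 * l) {L : PBI.Lns} (hL : LnH L.X L.Y) (n : ℕ) :
    AllW α n n L fun c' x => ∀ i, ∀ t : ℝ,
      Zcut (ZR c b a z0 η0 (PBFar.vI b a ((η0 : ℂ) * I) I ξe) η0)
        (ZdR c b a z0 η0 (PBFar.vI b a ((η0 : ℂ) * I) I ξe) η0)
        (ZpR c b a z0 η0 (PBFar.vI b a ((η0 : ℂ) * I) I ξe)) Ξ κr r1 lam (c' i).1 (c' i).2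
          (vl (x i) t) =
      PBC.ZcX (c (c' i).1) (rwx a (η0 : ℂ)) b a ((η0 : ℂ) * I) I ξe X (Lg z0 z0)
        (fun w => Lg z0 z0 w * Lg z0 z0 (w - l)) (c' i).2 (vl (x i) t) := by
  intro p p' k k' h1 h2 i t
  have hi := all_KI hα hα' hL n n k k' i
  rw [show L.all α n n k k' i = (vl (L.all α n n k k' i) t).re from (re_vl _ _).symm] at hi
  exact zcut_eq c hb1 hb' hz η0 ξe (cl n n k k' i).1 hi (hX _ _) (fun o => hX' _ o _) (hκ _ _ _)
    (hr _ _ _) (hlam _ _ _)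

end PBZF

end
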