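import Pool.Agent.PB.ZPos

/-!
# Plan B, (Z): the derivatives in the height of the legs (helper61)

Class functions `Zm Z0 (lgK z)`: `Z0` without legs, legs at `z = i τ`; normaliser `c τ` with
`c' = M c`, `M τ = 2 ∫ ρ dl (t - τ)`.  `vP ρ g`: the test function `g` of the height at the quanta on
the curve minus the mean `2 ∫ ρ g`; `obP g`: its part of the objects and their satellites.

* `wC_Zm`, `WT_eq`: the legs as a factor of the weight;
* **`zpath`**: the structure `ZPath` of `ZAbs` on the configurations `CfN N`;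
* **`leg_d1`, `leg_d2`**: first and second derivative of the functional, exact;
* **`leg_b1`, `leg_b2`**: `F[V h0] + f_τ` and `F[V h0 V h0] + F[V g2] - f_ττ` against the pinned
  functionals `pI`, `pI (1 + r + |V h0|)`.
-/

set_option autoImplicit false
set_option linter.unusedSectionVars false
set_option linter.unusedVariables false

noncomputable section

open Complex MeasureTheory Finset Filter Topology
open scoped ENNReal

namespace PBLg

open NUO NUP1S NUP1S.AbC NUGC NUCR PBF PBFunc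
open PBI (Stt)
open NUMF (l P)

/-! ### measurability -/

theorem measurable_lg1 (z : ℂ) : Measurable (lg1 z) := by
  unfold lg1
  fun_prop

theorem measurable_lgK (z : ℂ) (s : Bool) (k : Option O3) : Measurable (lgK z s k) := by
  have h1 := measurable_lg1 z
  have h2 : Measurable fun u : ℂ => lg1 z (u - l) := h1.comp (measurable_id.sub_const _)
  rcases k with _ | _ | _ | _
  · exact h1
  · exact h1
  · exact h1.mul h2
  · exact h1.mul h2

theorem measurable_hgt : Measurable hgt := by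
  unfold hgt
  fun_prop

theorem measurable_csS {g : ℂ → ℂ} (hg : Measurable g) (s : Bool) (k : Option O3) :
    Measurable (csS g s k) := by
  have h1 : Measurable fun u : ℂ => g (hgt u) := hg.comp measurable_hgt
  have h2 : Measurable fun u : ℂ => g (hgt (u - l)) := h1.comp (measurable_id.sub_const _)
  rcases k with _ | _ | _ | _
  · exact h1
  · exact h1
  · exact h1.add h2
  · exact h1.add h2

theorem measurable_dl : Measurable dl := by
  have e : dl = fun z => Complex.sinh z / Complex.cosh z +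
      I * (Complex.cos (l - I * z) / Complex.sin (l - I * z)) := by
    funext z
    unfold dl Complex.cot
    rw [Complex.tanh_eq_sinh_div_cosh]
  rw [e]
  fun_prop

theorem measurable_dl2 : Measurable dl2 := by
  unfold dl2
  fun_prop

theorem measurable_dls (τ : ℝ) : Measurable fun z : ℂ => dl (z - τ) :=
  measurable_dl.comp (measurable_id.sub_const _)

theorem measurable_dls2 (τ : ℝ) : Measurable fun z : ℂ => dl2 (z - τ) :=
  measurable_dl2.comp (measurable_id.sub_const _)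

/-! ### bounds at a constituent -/

theorem ap_lgK_bd : ∃ b B : ℝ, 0 < b ∧ b ≤ 1 ∧ 1 ≤ B ∧ ∀ (τ : ℝ) (c : Cst), PosOk c →
    b ≤ ‖ap (lgK (I * τ)) c‖ ∧ ‖ap (lgK (I * τ)) c‖ ≤ B := by
  obtain ⟨b, B, hb, hb1, hB, h⟩ := lg1_bd
  refine ⟨b ^ 2, B ^ 2, by positivity, pow_le_one₀ hb.le hb1, one_le_pow₀ hB, fun τ c hc => ?_⟩
  have hB0 : 0 ≤ B := by linarith
  have q1 : b ^ 2 ≤ b := by nlinarith
  have q2 : B ≤ B ^ 2 := by nlinarith
  obtain ⟨⟨s, k⟩, u⟩ := c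
  obtain ⟨h1, h2⟩ := hc
  obtain ⟨a1, a2⟩ := h τ u h1
  rcases k with _ | _ | _ | _
  · exact ⟨q1.trans a1, a2.trans q2⟩
  · exact ⟨q1.trans a1, a2.trans q2⟩
  · obtain ⟨a3, a4⟩ := h τ _ (h2 trivial)
    show b ^ 2 ≤ ‖lg1 (I * τ) u * lg1 (I * τ) (u - l)‖ ∧ ‖lg1 (I * τ) u * lg1 (I * τ) (u - l)‖ ≤ B ^ 2
    rw [norm_mul, pow_two, pow_two]
    exact ⟨mul_le_mul a1 a3 hb.le (norm_nonneg _), mul_le_mul a2 a4 (norm_nonneg _) hB0⟩
  · obtain ⟨a3, a4⟩ := h τ _ (h2 trivial)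
    show b ^ 2 ≤ ‖lg1 (I * τ) u * lg1 (I * τ) (u - l)‖ ∧ ‖lg1 (I * τ) u * lg1 (I * τ) (u - l)‖ ≤ B ^ 2
    rw [norm_mul, pow_two, pow_two]
    exact ⟨mul_le_mul a1 a3 hb.le (norm_nonneg _), mul_le_mul a2 a4 (norm_nonneg _) hB0⟩

theorem ap_csS_le {g : ℂ → ℂ} {τ K : ℝ} (hK : 0 ≤ K)
    (h : ∀ u, InR u → ‖g (hgt u)‖ ≤ K * Real.exp (-(2 * |u.im - τ|))) {c : Cst} (hc : PosOk c) :
    ‖ap (csS g) c‖ ≤ 2 * K * Real.exp (-(2 * |c.2.im - τ|)) := by
  obtain ⟨⟨s, k⟩, u⟩ := c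
  obtain ⟨h1, h2⟩ := hc
  have a1 := h u h1
  have hE := Real.exp_pos (-(2 * |u.im - τ|))
  have hp : 0 ≤ K * Real.exp (-(2 * |u.im - τ|)) := by positivity
  have im0 : (u - (l : ℂ)).im = u.im := by simp
  rcases k with _ | _ | _ | _
  · show ‖g (hgt u)‖ ≤ 2 * K * Real.exp (-(2 * |u.im - τ|))
    nlinarith
  · show ‖g (hgt u)‖ ≤ 2 * K * Real.exp (-(2 * |u.im - τ|))
    nlinarith
  · have a3 := h _ (h2 trivial)
    simp only [im0] at a3
    show ‖g (hgt u) + g (hgt (u - l))‖ ≤ 2 * K * Real.exp (-(2 * |u.im - τ|))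
    refine (norm_add_le _ _).trans ?_
    linarith
  · have a3 := h _ (h2 trivial)
    simp only [im0] at a3
    show ‖g (hgt u) + g (hgt (u - l))‖ ≤ 2 * K * Real.exp (-(2 * |u.im - τ|))
    refine (norm_add_le _ _).trans ?_
    linarith

/-- the satellites are near their object -/
theorem cst_im {jL e ρ : ℝ} (r1 : 0 < ρ) (r2 : ρ ≤ l / 16) (x : Xo) : ∀ c ∈ cst jL e ρ x,
    |c.2.im - ht x| ≤ l / 16 := by
  have hl := NUMF.l_pos
  have hS : (posS e (ht x)).im = ht x := by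
    unfold posS
    rw [vl_im']
  intro c hc
  unfold cst at hc
  rcases hk : kd x with _ | _ | _ | _ | _ <;> rw [hk] at hc <;>
    simp only [List.mem_cons, List.not_mem_nil, or_false] at hc
  · subst hc
    show |(posL jL (ht x)).im - ht x| ≤ l / 16
    unfold posL
    rw [vl_im', sub_self, abs_zero]
    positivity
  · subst hc
    show |(posT (ht x)).im - ht x| ≤ l / 16
    unfold posT
    rw [vl_im', sub_self, abs_zero]
    positivity
  · subst hc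
    show |(posS e (ht x)).im - ht x| ≤ l / 16
    rw [hS, sub_self, abs_zero]
    positivity
  · rcases hc with rfl | rfl
    · show |(posS e (ht x)).im - ht x| ≤ l / 16
      rw [hS, sub_self, abs_zero]
      positivity
    · show |(posV e ρ (ht x) (an x)).im - ht x| ≤ l / 16
      have e1 : (posV e ρ (ht x) (an x)).im = ht x + ρ * Real.sin (2 * Real.pi * an x) := by
        unfold posV
        rw [Complex.add_im, Complex.add_im, hS]
        have e2 : ((ρ : ℂ) * Complex.exp (2 * Real.pi * (an x : ℂ) * I)).im =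
            ρ * Real.sin (2 * Real.pi * an x) := by
          rw [Complex.im_ofReal_mul]
          congr 1
          have : (2 * Real.pi * (an x : ℂ) * I) = ((2 * Real.pi * an x : ℝ) : ℂ) * I := by
            push_cast
            ring
          rw [this, Complex.exp_ofReal_mul_I_im]
        rw [e2]
        simp
      rw [e1, add_sub_cancel_left, abs_mul, abs_of_pos r1]
      have := Real.abs_sin_le_one (2 * Real.pi * an x)
      nlinarith
  · have h2 : (posS e (ht x) + 2 * (NUP1.l : ℂ)).im = ht x := by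
      rw [Complex.add_im, hS]
      simp
    rcases hc with rfl | rfl | rfl
    · show |(posS e (ht x)).im - ht x| ≤ l / 16
      rw [hS, sub_self, abs_zero]
      positivity
    · show |(posS e (ht x) + 2 * (NUP1.l : ℂ)).im - ht x| ≤ l / 16
      rw [h2, sub_self, abs_zero]
      positivity
    · show |(posS e (ht x) + 2 * (NUP1.l : ℂ)).im - ht x| ≤ l / 16
      rw [h2, sub_self, abs_zero]
      positivity

theorem ht_im (h τ y : ℝ) (h1 : |y - h| ≤ l / 16) :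
    Real.exp (-(2 * |y - τ|)) ≤ Real.exp (2 * |τ| + l / 8) * Real.exp (-(2 * |h|)) := by
  rw [← Real.exp_add, Real.exp_le_exp]
  have h2 : |h| ≤ |y - τ| + |y - h| + |τ| := by
    calc |h| = |(y - τ) - (y - h) + τ| := by ring_nf
      _ ≤ |(y - τ) - (y - h)| + |τ| := abs_add_le _ _
      _ ≤ _ := by
        have := abs_sub (y - τ) (y - h)
        linarith
  linarith

/-! ### the objects and the quanta on the curve -/

/-- the objects and their satellites -/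
def obP (g : ℂ → ℂ) (Pm : NUO.Par) : Ins := fun _ O _ _ _ =>
  ∑ i, obSt (csS g) Pm.jL (ei Pm O i) (rr Pm O i) (O i)

/-- the quanta on the curve, centred -/
def vP (ρ : ℝ → ℂ) (g : ℂ → ℂ) (η : Crs) : Ins := fun r O _ _ x =>
  ((∑ i, g (hgt (NUO.pA (η r O) (x.1 i)))) + ∑ j, g (hgt (NUO.pA (η r O) (x.2 j)))) -
    2 * ∫ t : ℝ, ρ t * g t

/-- the pinned objects -/
def pI : Ins := fun _ O _ _ _ => ((∑ i, Real.exp (-(2 * |ht (O i)|)) : ℝ) : ℂ)

theorem StF_split (ρ : ℝ → ℂ) (g : ℂ → ℂ) (Pm : NUO.Par) (η : Crs) {r a b : ℕ} (O : Fin r → Xo)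
    (x : (Fin a → ℝ) × (Fin b → ℝ)) : StF (csS g) Pm η r O a b x - 2 * ∫ t : ℝ, ρ t * g t =
      vP ρ g η r O a b x + obP g Pm r O a b x := by
  rw [StF_eq]
  unfold vP obP
  simp only [csS]
  ring

theorem obP_le {Pm : NUO.Par} (hP : GoodP Pm) {g : ℂ → ℂ} {τ K : ℝ} (hK : 0 ≤ K)
    (h : ∀ u, InR u → ‖g (hgt u)‖ ≤ K * Real.exp (-(2 * |u.im - τ|))) {r a b : ℕ} (O : Fin r → Xo)
    (x : (Fin a → ℝ) × (Fin b → ℝ)) :
    ‖obP g Pm r O a b x‖ ≤ 6 * K * Real.exp (2 * |τ| + l / 8) * ‖pI r O a b x‖ := by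
  have e0 : ‖pI r O a b x‖ = ∑ i, Real.exp (-(2 * |ht (O i)|)) := by
    unfold pI
    rw [norm_real, Real.norm_of_nonneg (Finset.sum_nonneg fun i _ => (Real.exp_pos _).le)]
  rw [e0, Finset.mul_sum]
  unfold obP
  refine (norm_sum_le _ _).trans (Finset.sum_le_sum fun i _ => ?_)
  unfold obSt
  have hr := rr_mem hP O i
  have h1 : ∀ c ∈ cst Pm.jL (ei Pm O i) (rr Pm O i) (O i), ‖ap (csS g) c‖ ≤
      2 * K * (Real.exp (2 * |τ| + l / 8) * Real.exp (-(2 * |ht (O i)|))) := fun c hc => by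
    refine (ap_csS_le hK h (posOk_ob hP O i c hc)).trans ?_
    exact mul_le_mul_of_nonneg_left (ht_im _ _ _ (cst_im hr.1 hr.2 _ c hc)) (by positivity)
  refine (norm_sumL (by positivity) h1 (cst_length _ _ _ _)).trans (le_of_eq ?_)
  push_cast
  ring

theorem pI_le {r a b : ℕ} (O : Fin r → Xo) (x : (Fin a → ℝ) × (Fin b → ℝ)) :
    ‖pI r O a b x‖ ≤ r := by
  unfold pI
  rw [norm_real, Real.norm_of_nonneg (Finset.sum_nonneg fun i _ => (Real.exp_pos _).le)]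
  calc ∑ i : Fin r, Real.exp (-(2 * |ht (O i)|)) ≤ ∑ _i : Fin r, (1 : ℝ) :=
        Finset.sum_le_sum fun i _ => Real.exp_le_one_iff.2 (by
          have := abs_nonneg (ht (O i))
          linarith)
    _ = r := by simp

/-! ### the weight -/

section weight

variable {Z0 : Stt} {Pm : NUO.Par} {N : ℕ} {η η' : ℕ → Crs}

/-- a multiplicative insertion as a factor of the weight -/
theorem wC_Zm (Z g : Stt) (Pm : NUO.Par) (n n' : ℕ) (η η' : Crs) (c : Cf n n') :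
    wC (Zm Z g) Pm n n' η η' c = wC Z Pm n n' η η' c * ev (Fa g Pm η) c := by
  unfold wC wP ev Fa
  split_ifs
  · rw [wK_mul, gK_mul]
    ring
  · rw [zero_mul]

/-- the hypotheses of this file -/
structure LegH (Z0 : Stt) (Pm : NUO.Par) (N : ℕ) (η η' : ℕ → Crs) : Prop where
  P : GoodP Pm
  r : ∀ r, Measurable (Pm.rad r)
  Z : ∀ s k, Measurable (Z0 s k)
  c : ∀ n, MCr (η n) (η' n)
  b : ∀ n r O t, |η n r O t| ≤ l / 2
  f : ∀ n ≤ N, ∃ τ : ℝ, FA (Zm Z0 (lgK (I * τ))) Pm n n (η n) (η' n) (fun _ _ _ _ _ => 1) < ∞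

/-- the weight without legs -/
def w0N (Z0 : Stt) (Pm : NUO.Par) (N : ℕ) (η η' : ℕ → Crs) : CfN N → ℂ :=
  wN (fun _ => Z0) (fun _ => Pm) N η η' fun _ => 1

/-- the legs -/
def EN (Pm : NUO.Par) (N : ℕ) (η : ℕ → Crs) (τ : ℝ) : CfN N → ℂ :=
  evN fun n => Fa (lgK (I * τ)) Pm (η n)

/-- the statistic of all constituents -/
def AN (Pm : NUO.Par) (N : ℕ) (η : ℕ → Crs) (g : ℂ → ℂ) : CfN N → ℂ :=
  evN fun n => StF (csS g) Pm (η n)

/-- the weight with legs at `i τ` and normaliser `c τ` -/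
def WT (Z0 : Stt) (Pm : NUO.Par) (N : ℕ) (η η' : ℕ → Crs) (c : ℝ → ℂ) (τ : ℝ) : CfN N → ℂ :=
  wN (fun _ => Zm Z0 (lgK (I * τ))) (fun _ => Pm) N η η' fun _ => c τ

theorem WT_eq (Z0 : Stt) (Pm : NUO.Par) (N : ℕ) (η η' : ℕ → Crs) (c : ℝ → ℂ) (τ : ℝ) :
    WT Z0 Pm N η η' c τ = wt c (w0N Z0 Pm N η η') (EN Pm N η) τ := by
  funext x
  unfold WT wt w0N EN wN evN
  simp only [wC_Zm]
  ring

theorem len_le (Pm : NUO.Par) (η : ℕ → Crs) (x : CfN N) :
    (csA Pm (η x.1 x.2.1.1 x.2.2.1) x.2.2.1 x.2.2.2).length ≤ 8 * N := by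
  have h1 := csA_length Pm (η x.1 x.2.1.1 x.2.2.1) x.2.2.1 x.2.2.2
  have h2 := x.1.2
  have h3 := x.2.1.1.2
  have h4 := x.2.1.2.1.2
  have h5 := x.2.1.2.2.2
  omega

theorem EN_eq (Pm : NUO.Par) (η : ℕ → Crs) (τ : ℝ) (x : CfN N) : EN Pm N η τ x =
    ((csA Pm (η x.1 x.2.1.1 x.2.2.1) x.2.2.1 x.2.2.2).map (ap (lgK (I * τ)))).prod :=
  Fa_eq _ _ _ _ _

theorem AN_eq (Pm : NUO.Par) (η : ℕ → Crs) (g : ℂ → ℂ) (x : CfN N) : AN Pm N η g x =
    ((csA Pm (η x.1 x.2.1.1 x.2.2.1) x.2.2.1 x.2.2.2).map (ap (csS g))).sum := rfl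

namespace LegH

variable (H : LegH Z0 Pm N η η')

include H

theorem ok (x : CfN N) :
    ∀ c ∈ csA Pm (η x.1 x.2.1.1 x.2.2.1) x.2.2.1 x.2.2.2, PosOk c :=
  posOk_csA H.P (fun t => H.b _ _ _ t) _ _

theorem mc (g : Stt) (hg : ∀ s k, Measurable (g s k)) (n : ℕ) :
    MC (Zm Z0 g) Pm (η n) (η' n) :=
  MC.of H.r (fun s k => (H.Z s k).mul (hg s k)) (H.c n)

theorem mc0 (n : ℕ) : MC Z0 Pm (η n) (η' n) := MC.of H.r H.Z (H.c n)

theorem mEN (τ : ℝ) : Measurable (EN Pm N η τ) :=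
  evN_meas fun n _ => MIn.Fa H.r (measurable_lgK _) (H.c n)

theorem mAN {g : ℂ → ℂ} (hg : Measurable g) : Measurable (AN Pm N η g) :=
  evN_meas fun n _ => MIn.StF H.r (measurable_csS hg) (H.c n)

/-- finiteness without legs -/
theorem f0 {n : ℕ} (hn : n ≤ N) : FA Z0 Pm n n (η n) (η' n) (fun _ _ _ _ _ => 1) < ∞ := by
  obtain ⟨b, B, hb, hb1, hB, h⟩ := ap_lgK_bd
  obtain ⟨τ, hf⟩ := H.f n hn
  rw [FA_eq (H.mc _ (measurable_lgK _) n) MIn.one] at hf
  rw [FA_eq (H.mc0 n) MIn.one]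
  have hbN : 0 < b ^ (8 * n) := by positivity
  have key : ∀ c : Cf n n, ‖wC Z0 Pm n n (η n) (η' n) c‖ₑ * ‖ev (n := n) (n' := n)
      (fun _ _ _ _ _ => (1 : ℂ)) c‖ₑ ≤ ENNReal.ofReal ((b ^ (8 * n))⁻¹) *
        (‖wC (Zm Z0 (lgK (I * τ))) Pm n n (η n) (η' n) c‖ₑ * ‖ev (n := n) (n' := n)
          (fun _ _ _ _ _ => (1 : ℂ)) c‖ₑ) := by
    intro c
    have e1 : ev (n := n) (n' := n) (fun _ _ _ _ _ => (1 : ℂ)) c = 1 := rfl
    rw [e1, enorm_one, mul_one, mul_one, wC_Zm, enorm_mul, mul_comm, mul_assoc]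
    have h1 : b ^ (8 * n) ≤ ‖ev (Fa (lgK (I * τ)) Pm (η n)) c‖ := by
      show b ^ (8 * n) ≤ ‖Fa (lgK (I * τ)) Pm (η n) _ _ _ _ _‖
      rw [Fa_eq]
      refine norm_prodL_ge hb hb1 (fun d hd => (h τ d ?_).1) ?_
      · exact posOk_csA H.P (fun t => H.b _ _ _ t) _ _ d hd
      · have h1 := csA_length Pm (η n c.1.1 c.2.1) c.2.1 c.2.2
        have h3 := c.1.1.2
        have h4 := c.1.2.1.2
        have h5 := c.1.2.2.2
        omega
    have h2 : 1 ≤ ENNReal.ofReal ((b ^ (8 * n))⁻¹) *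
        ‖ev (Fa (lgK (I * τ)) Pm (η n)) c‖ₑ := by
      rw [← ofReal_norm, ← ENNReal.ofReal_mul (by positivity), ← ENNReal.ofReal_one]
      refine ENNReal.ofReal_le_ofReal ?_
      rw [inv_mul_eq_div, le_div_iff₀ hbN, one_mul]
      exact h1
    calc ‖wC Z0 Pm n n (η n) (η' n) c‖ₑ = 1 * ‖wC Z0 Pm n n (η n) (η' n) c‖ₑ := (one_mul _).symm
      _ ≤ (ENNReal.ofReal ((b ^ (8 * n))⁻¹) * ‖ev (Fa (lgK (I * τ)) Pm (η n)) c‖ₑ) *
          ‖wC Z0 Pm n n (η n) (η' n) c‖ₑ := mul_le_mul' h2 le_rfl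
      _ = _ := by ring
  refine (lintegral_mono key).trans_lt ?_
  rw [lintegral_const_mul' _ _ ENNReal.ofReal_ne_top]
  exact ENNReal.mul_lt_top ENNReal.ofReal_lt_top hf

theorem int0 : Integrable (w0N Z0 Pm N η η') (mN N) := by
  have h1 : FAN (fun _ => Z0) (fun _ => Pm) N η η' (fun _ => 1) (fun _ _ _ _ _ _ => 1) < ∞ := by
    unfold FAN
    rw [ENNReal.sum_lt_top]
    intro n hn
    rw [enorm_one, one_mul]
    exact H.f0 (by
      rw [Finset.mem_range] at hn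
      omega)
  have h2 := WIN_of (c := fun _ => (1 : ℂ)) (Ψ := fun _ _ _ _ _ _ => (1 : ℂ))
    (fun n _ => H.mc0 n) (fun n _ => MIn.one) h1
  unfold PBFunc.WI at h2
  refine h2.congr (Eventually.of_forall fun x => ?_)
  show w0N Z0 Pm N η η' x * 1 = _
  rw [mul_one]

/-- **the path of the weights** -/
theorem zpath : ∃ B : ℝ, ZPath (mN N) (w0N Z0 Pm N η η') (EN Pm N η)
    (fun τ => AN Pm N η fun z => dl (z - τ)) (fun τ => AN Pm N η fun z => dl2 (z - τ)) B := by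
  obtain ⟨b, B, hb, hb1, hB, h⟩ := ap_lgK_bd
  obtain ⟨C, hC, hd⟩ := dls_bd
  have hC0 : 0 ≤ C := by linarith
  have hA : ∀ (g : ℂ → ℂ) (τ : ℝ), (∀ u, InR u → ‖g (hgt u)‖ ≤ C * Real.exp (-(2 * |u.im - τ|))) →
      ∀ x : CfN N, ‖AN Pm N η g x‖ ≤ (8 * N : ℕ) * (2 * C) := by
    intro g τ hg x
    rw [AN_eq]
    refine norm_sumL (by positivity) (fun c hc => (ap_csS_le hC0 hg (H.ok x c hc)).trans ?_)
      (len_le Pm η x)
    have : Real.exp (-(2 * |c.2.im - τ|)) ≤ 1 := exp_le_one _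
    nlinarith
  refine ⟨max (B ^ (8 * N)) ((8 * N : ℕ) * (2 * C)), ⟨H.int0, fun τ => (H.mEN τ).aestronglyMeasurable,
    fun τ => (H.mAN (measurable_dls τ)).aestronglyMeasurable,
    fun τ => (H.mAN (measurable_dls2 τ)).aestronglyMeasurable, fun τ x => ?_,
    fun τ x => (hA _ τ (fun u hu => (hd τ u hu).1) x).trans (le_max_right _ _),
    fun τ x => (hA _ τ (fun u hu => (hd τ u hu).2) x).trans (le_max_right _ _), fun τ x => ?_,
    fun τ x => ?_⟩⟩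
  · rw [EN_eq]
    exact (norm_prodL hB (fun c hc => (h τ c (H.ok x c hc)).2) (len_le Pm η x)).trans
      (le_max_left _ _)
  · simp only [EN_eq, AN_eq]
    exact hasDerivAt_prodL fun c hc => hasDerivAt_lgK (H.ok x c hc)
  · simp only [AN_eq]
    exact hasDerivAt_sumL (g := fun τ : ℝ => csS fun z => dl (z - τ)) fun c hc =>
      hasDerivAt_csS (H.ok x c hc)

end LegH

end weight

/-! ### measurability of the insertions -/

section ins

variable {Pm : NUO.Par} {η η' : Crs}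

theorem MIn_obP (hP : ∀ r, Measurable (Pm.rad r)) {g : ℂ → ℂ} (hg : Measurable g) :
    MIn (obP g Pm) := fun r a b =>
  (Finset.measurable_fun_sum _ fun i _ => measurable_obSt hP (measurable_csS hg) i).comp
    measurable_fst

theorem MIn_vP (hP : ∀ r, Measurable (Pm.rad r)) (hc : MCr η η') (ρ : ℝ → ℂ) {g : ℂ → ℂ}
    (hg : Measurable g) : MIn (vP ρ g η) := by
  intro r a b
  have h1 := MIn.StF hP (measurable_csS hg) hc r a b
  have h2 := MIn_obP hP hg r a b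
  refine (congrArg Measurable (funext fun p => ?_)).mpr ((h1.sub_const (2 * ∫ t : ℝ, ρ t * g t)).sub h2)
  have := StF_split ρ g Pm η p.1 p.2
  show vP ρ g η r p.1 a b p.2 = StF (csS g) Pm η r p.1 a b p.2 - 2 * (∫ t : ℝ, ρ t * g t) -
    obP g Pm r p.1 a b p.2
  rw [this]
  ring

theorem MIn_pI : MIn pI := by
  intro r a b
  unfold pI
  have h1 : Measurable fun p : (Fin r → Xo) × ((Fin a → ℝ) × (Fin b → ℝ)) =>
      ∑ i, Real.exp (-(2 * |ht (p.1 i)|)) := by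
    refine Finset.measurable_fun_sum _ fun i _ => ?_
    have h2 : Measurable fun p : (Fin r → Xo) × ((Fin a → ℝ) × (Fin b → ℝ)) => ht (p.1 i) := by
      have h3 : Measurable (ht : Xo → ℝ) := by
        unfold ht
        fun_prop
      exact h3.comp ((measurable_pi_apply i).comp measurable_fst)
    have h4 : Measurable fun y : ℝ => Real.exp (-(2 * |y|)) := by fun_prop
    exact h4.comp h2
  exact Complex.measurable_ofReal.comp h1

/-- pinned objects with the statistic of the quanta -/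
def pI2 (ρ : ℝ → ℂ) (g : ℂ → ℂ) (η : Crs) : Ins := fun r O a b x =>
  pI r O a b x * ((1 + r + ‖vP ρ g η r O a b x‖ : ℝ) : ℂ)

theorem MIn_pI2 (hP : ∀ r, Measurable (Pm.rad r)) (hc : MCr η η') (ρ : ℝ → ℂ) {g : ℂ → ℂ}
    (hg : Measurable g) : MIn (pI2 ρ g η) := fun r a b =>
  (MIn_pI r a b).mul (Complex.measurable_ofReal.comp
    (((MIn_vP hP hc ρ hg r a b).norm).const_add _))

end ins

/-! ### the derivatives -/

/-- the mean of the first derivative -/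
def Mn (ρ : ℝ → ℂ) (τ : ℝ) : ℂ := 2 * ∫ t : ℝ, ρ t * dl (t - τ)

/-- the mean of the second derivative -/
def Mn2 (ρ : ℝ → ℂ) (τ : ℝ) : ℂ := 2 * ∫ t : ℝ, ρ t * dl2 (t - τ)

section final

variable {Z0 : Stt} {Pm : NUO.Par} {N : ℕ} {η η' : ℕ → Crs} {ρ : ℝ → ℂ} {c : ℝ → ℂ}

/-- **the functional at height `τ`** -/
def T0 (Z0 : Stt) (Pm : NUO.Par) (N : ℕ) (η η' : ℕ → Crs) (c : ℝ → ℂ) (τ : ℝ) : ℂ :=
  F (mN N) (WT Z0 Pm N η η' c τ) fun _ => 1

/-- the first derivative -/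
def T1 (Z0 : Stt) (Pm : NUO.Par) (N : ℕ) (η η' : ℕ → Crs) (ρ : ℝ → ℂ) (c : ℝ → ℂ) (τ : ℝ) : ℂ :=
  -F (mN N) (WT Z0 Pm N η η' c τ) fun x => AN Pm N η (fun z => dl (z - τ)) x - Mn ρ τ

/-- the second derivative -/
def T2 (Z0 : Stt) (Pm : NUO.Par) (N : ℕ) (η η' : ℕ → Crs) (ρ : ℝ → ℂ) (c : ℝ → ℂ) (τ : ℝ) : ℂ :=
  F (mN N) (WT Z0 Pm N η η' c τ) fun x => (AN Pm N η (fun z => dl (z - τ)) x - Mn ρ τ) ^ 2 +
    (AN Pm N η (fun z => dl2 (z - τ)) x - Mn2 ρ τ)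

theorem AN_split (ρ : ℝ → ℂ) (g : ℂ → ℂ) (x : CfN N) :
    AN Pm N η g x - 2 * ∫ t : ℝ, ρ t * g t =
      evN (fun n => vP ρ g (η n)) x + evN (fun _ => obP g Pm) x :=
  StF_split _ _ _ _ _ _

namespace LegH

variable (H : LegH Z0 Pm N η η')

include H

/-- **the functional as a sum over the number of quanta** -/
theorem T0_eq (τ : ℝ) : T0 Z0 Pm N η η' c τ = c τ * ∑ n ∈ range (N + 1),
    FF (Zm Z0 (lgK (I * τ))) Pm n n (η n) (η' n) (fun _ _ _ _ _ => 1) := by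
  obtain ⟨B, hB⟩ := H.zpath
  have h0 := hB.WI (c := c) (O := fun _ => (1 : ℂ)) (K := 1) aestronglyMeasurable_const
    (fun _ => by rw [norm_one]) τ
  rw [← WT_eq] at h0
  have hm : ∀ n ≤ N, MC (Zm Z0 (lgK (I * τ))) Pm (η n) (η' n) := fun n _ =>
    H.mc _ (measurable_lgK _) n
  have hf : FAN (fun _ => Zm Z0 (lgK (I * τ))) (fun _ => Pm) N η η' (fun _ => c τ)
      (fun _ _ _ _ _ _ => 1) < ∞ := by
    rw [FAN_eq hm fun n _ => MIn.one]
    have h1 := h0.2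
    unfold HasFiniteIntegral at h1
    simp only [enorm_mul] at h1
    exact h1
  have h2 := FFN_eq (c := fun _ => c τ) hm (fun n _ => MIn.one) hf
  refine h2.symm.trans ?_
  unfold FFN
  rw [Finset.mul_sum]

/-- **the first derivative** -/
theorem d1 {τ : ℝ} (hc : HasDerivAt c (Mn ρ τ * c τ) τ) :
    HasDerivAt (T0 Z0 Pm N η η' c) (T1 Z0 Pm N η η' ρ c τ) τ := by
  obtain ⟨B, hB⟩ := H.zpath
  have h := hB.f_deriv hc
  unfold T1
  have e : T0 Z0 Pm N η η' c = fun τ => F (mN N) (wt c (w0N Z0 Pm N η η') (EN Pm N η) τ)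
      (fun _ => 1) := by
    funext τ
    unfold T0
    rw [WT_eq]
  rw [e, WT_eq]
  exact h

/-- **the second derivative** -/
theorem d2 {τ : ℝ} (hc : HasDerivAt c (Mn ρ τ * c τ) τ) (hM : HasDerivAt (Mn ρ) (-(Mn2 ρ τ)) τ) :
    HasDerivAt (T1 Z0 Pm N η η' ρ c) (T2 Z0 Pm N η η' ρ c τ) τ := by
  obtain ⟨B, hB⟩ := H.zpath
  have h := hB.f_deriv2 hc hM
  unfold T2
  have e : T1 Z0 Pm N η η' ρ c = fun τ => -F (mN N) (wt c (w0N Z0 Pm N η η') (EN Pm N η) τ)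
      (fun x => AN Pm N η (fun z => dl (z - τ)) x - Mn ρ τ) := by
    funext τ
    unfold T1
    rw [WT_eq]
  rw [e, WT_eq]
  exact h

theorem vP_bdd {g : ℂ → ℂ} {C : ℝ} (hC : 0 ≤ C) (hg : ∀ u, InR u → ‖g (hgt u)‖ ≤ C) (x : CfN N) :
    ‖evN (fun n => vP ρ g (η n)) x‖ ≤ 2 * N * C + ‖2 * ∫ t : ℝ, ρ t * g t‖ := by
  have h3 : (x.2.1.2.1 : ℕ) ≤ N := by
    have h2 := x.1.2
    have h4 := x.2.1.2.1.2
    omega
  have h5 : (x.2.1.2.2 : ℕ) ≤ N := by
    have h2 := x.1.2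
    have h4 := x.2.1.2.2.2
    omega
  have key : ∀ {a : ℕ} (ha : a ≤ N) (y : Fin a → ℝ), ‖∑ i, g (hgt (NUO.pA (η x.1 x.2.1.1 x.2.2.1)
      (y i)))‖ ≤ N * C := by
    intro a ha y
    refine (norm_sum_le _ _).trans ?_
    calc ∑ i : Fin a, ‖g (hgt (NUO.pA (η x.1 x.2.1.1 x.2.2.1) (y i)))‖ ≤ ∑ _i : Fin a, C :=
          Finset.sum_le_sum fun i _ => hg _ (InR_pA (fun t => H.b _ _ _ t) _)
      _ = a * C := by simp
      _ ≤ N * C := mul_le_mul_of_nonneg_right (by exact_mod_cast ha) hC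
  show ‖((∑ i, g (hgt (NUO.pA (η x.1 x.2.1.1 x.2.2.1) (x.2.2.2.1 i)))) +
    ∑ j, g (hgt (NUO.pA (η x.1 x.2.1.1 x.2.2.1) (x.2.2.2.2 j)))) - 2 * ∫ t : ℝ, ρ t * g t‖ ≤ _
  refine (norm_sub_le _ _).trans (add_le_add ((norm_add_le _ _).trans ?_) le_rfl)
  have := key h3 x.2.2.2.1
  have := key h5 x.2.2.2.2
  linarith

theorem obP_bdd {g : ℂ → ℂ} {τ K : ℝ} (hK : 0 ≤ K)
    (h : ∀ u, InR u → ‖g (hgt u)‖ ≤ K * Real.exp (-(2 * |u.im - τ|))) (x : CfN N) :
    ‖evN (fun _ => obP g Pm) x‖ ≤ 6 * K * Real.exp (2 * |τ| + l / 8) * (2 * N) := by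
  have h1 := obP_le H.P hK h x.2.2.1 x.2.2.2
  have h2 : ‖pI x.2.1.1 x.2.2.1 x.2.1.2.1 x.2.1.2.2 x.2.2.2‖ ≤ 2 * N := by
    refine (pI_le _ _).trans ?_
    have h3 := x.1.2
    have h4 := x.2.1.1.2
    have h5 : (x.2.1.1 : ℕ) ≤ 2 * N := by omega
    exact_mod_cast h5
  exact h1.trans (mul_le_mul_of_nonneg_left h2 (by positivity))

end LegH

/-- the constant of the bounds -/
theorem exists_const : ∃ C : ℝ, 1 ≤ C ∧ ∀ (τ : ℝ), |τ| ≤ 1 → ∀ (Pm : NUO.Par), GoodP Pm →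
    (∀ u, InR u → ‖dl (hgt u - τ)‖ ≤ C * Real.exp (-(2 * |u.im - τ|)) ∧
      ‖dl2 (hgt u - τ)‖ ≤ C * Real.exp (-(2 * |u.im - τ|))) ∧
    ∀ {r a b : ℕ} (O : Fin r → Xo) (x : (Fin a → ℝ) × (Fin b → ℝ)),
      ‖obP (fun z => dl (z - τ)) Pm r O a b x‖ ≤ C * ‖pI r O a b x‖ ∧
      ‖obP (fun z => dl2 (z - τ)) Pm r O a b x‖ ≤ C * ‖pI r O a b x‖ := by
  obtain ⟨C, hC, hd⟩ := dls_bd
  have hC0 : 0 ≤ C := by linarith
  have hl := NUMF.l_pos
  have hE : 1 ≤ Real.exp (2 + l / 8) := Real.one_le_exp (by linarith)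
  refine ⟨6 * C * Real.exp (2 + l / 8), by nlinarith, fun τ hτ Pm hP => ⟨fun u hu => ?_,
    fun O x => ⟨?_, ?_⟩⟩⟩
  · have hp := Real.exp_pos (-(2 * |u.im - τ|))
    have h1 : C ≤ 6 * C * Real.exp (2 + l / 8) := by nlinarith
    exact ⟨(hd τ u hu).1.trans (mul_le_mul_of_nonneg_right h1 hp.le),
      (hd τ u hu).2.trans (mul_le_mul_of_nonneg_right h1 hp.le)⟩
  all_goals
    have h2 : Real.exp (2 * |τ| + l / 8) ≤ Real.exp (2 + l / 8) :=
      Real.exp_le_exp.2 (by linarith)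
  · refine (obP_le hP hC0 (fun u hu => (hd τ u hu).1) O x).trans ?_
    exact mul_le_mul_of_nonneg_right (mul_le_mul_of_nonneg_left h2 (by positivity)) (norm_nonneg _)
  · refine (obP_le hP hC0 (fun u hu => (hd τ u hu).2) O x).trans ?_
    exact mul_le_mul_of_nonneg_right (mul_le_mul_of_nonneg_left h2 (by positivity)) (norm_nonneg _)

theorem enorm_combo {a b d : ℂ} {p q C : ℝ} (hp : 0 ≤ p) (hC : 1 ≤ C) (hb : ‖b‖ ≤ C * p)
    (hd : ‖d‖ ≤ C * p) (hq : p ≤ q) :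
    2 * ‖a‖ₑ * ‖b‖ₑ + ‖b‖ₑ ^ 2 + ‖d‖ₑ ≤
      ENNReal.ofReal (2 * C ^ 2) * ENNReal.ofReal (p * (1 + q + ‖a‖)) := by
  have e : 2 * ‖a‖ₑ * ‖b‖ₑ + ‖b‖ₑ ^ 2 + ‖d‖ₑ =
      ENNReal.ofReal (2 * ‖a‖ * ‖b‖ + ‖b‖ ^ 2 + ‖d‖) := by
    rw [ENNReal.ofReal_add (by positivity) (norm_nonneg _),
      ENNReal.ofReal_add (by positivity) (by positivity), ENNReal.ofReal_mul (by positivity),
      ENNReal.ofReal_mul (by norm_num), ENNReal.ofReal_pow (norm_nonneg _), ofReal_norm,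
      ofReal_norm, ofReal_norm]
    simp
  rw [e, ← ENNReal.ofReal_mul (by positivity)]
  refine ENNReal.ofReal_le_ofReal ?_
  have ha := norm_nonneg a
  have hbn := norm_nonneg b
  have hq0 : 0 ≤ q := hp.trans hq
  have c1 : C ≤ C ^ 2 := by nlinarith
  have h1 : 2 * ‖a‖ * ‖b‖ ≤ 2 * C ^ 2 * (p * ‖a‖) := by
    have : ‖a‖ * ‖b‖ ≤ ‖a‖ * (C ^ 2 * p) := by
      refine mul_le_mul_of_nonneg_left (hb.trans ?_) ha
      exact mul_le_mul_of_nonneg_right c1 hp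
    nlinarith
  have h2 : ‖b‖ ^ 2 ≤ C ^ 2 * (p * q) := by
    have : ‖b‖ ^ 2 ≤ (C * p) ^ 2 := pow_le_pow_left₀ hbn hb 2
    have h3 : (C * p) ^ 2 ≤ C ^ 2 * (p * q) := by
      rw [mul_pow, pow_two p]
      exact mul_le_mul_of_nonneg_left (mul_le_mul_of_nonneg_left hq hp) (by positivity)
    exact this.trans h3
  have h3 : ‖d‖ ≤ C ^ 2 * p := hd.trans (mul_le_mul_of_nonneg_right c1 hp)
  have h4 : 0 ≤ C ^ 2 * (p * q) := by positivity
  have h5 : 0 ≤ C ^ 2 * p := by positivity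
  nlinarith

/-- **(Z)**: first derivative of the functional against the statistic of the quanta on the curve -/
theorem leg_b1 : ∃ C : ℝ, 1 ≤ C ∧ ∀ {Z0 : Stt} {Pm : NUO.Par} {N : ℕ} {η η' : ℕ → Crs}
    (_ : LegH Z0 Pm N η η') (ρ : ℝ → ℂ) (c : ℝ → ℂ) {τ : ℝ}, |τ| ≤ 1 → ∀ {d : ℝ}, 0 ≤ d →
    FAN (fun _ => Zm Z0 (lgK (I * τ))) (fun _ => Pm) N η η' (fun _ => c τ) (fun _ => pI) ≤
      ENNReal.ofReal d →
    ‖F (mN N) (WT Z0 Pm N η η' c τ) (evN fun n => vP ρ (fun z => dl (z - τ)) (η n)) +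
      T1 Z0 Pm N η η' ρ c τ‖ ≤ C * d := by
  obtain ⟨C, hC, hb⟩ := exists_const
  refine ⟨C, hC, fun {Z0 Pm N η η'} H ρ c {τ} hτ {d} hd hI => ?_⟩
  have hC0 : 0 ≤ C := by linarith
  obtain ⟨hg, ho⟩ := hb τ hτ Pm H.P
  obtain ⟨B, hB⟩ := H.zpath
  set K : ℝ := max (2 * N * C + ‖2 * ∫ t : ℝ, ρ t * dl (t - τ)‖)
    (6 * C * Real.exp (2 * |τ| + l / 8) * (2 * N)) with hK
  have key := hB.bound1 (c := c) (M := Mn ρ) (τ := τ)
    (V := evN fun n => vP ρ (fun z => dl (z - τ)) (η n))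
    (O := evN fun _ => obP (fun z => dl (z - τ)) Pm) (K := K) (d := C * d)
    (fun x => AN_split ρ (fun z => dl (z - τ)) x)
    (evN_meas fun n _ => MIn_vP H.r (H.c n) ρ (measurable_dls τ)).aestronglyMeasurable
    (evN_meas fun n _ => MIn_obP H.r (measurable_dls τ)).aestronglyMeasurable
    (fun x => (H.vP_bdd hC0 (fun u hu => (hg u hu).1.trans
      (mul_le_of_le_one_right hC0 (exp_le_one _))) x).trans (le_max_left _ _))
    (fun x => (H.obP_bdd hC0 (fun u hu => (hg u hu).1) x).trans (le_max_right _ _))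
    (by positivity) ?_
  · unfold T1
    rw [WT_eq]
    exact key
  · rw [← WT_eq]
    rw [FAN_eq (fun n _ => H.mc _ (measurable_lgK _) n) fun n _ => MIn_pI] at hI
    calc ∫⁻ x, ‖WT Z0 Pm N η η' c τ x‖ₑ * ‖evN (fun _ => obP (fun z => dl (z - τ)) Pm) x‖ₑ ∂mN N
        ≤ ∫⁻ x, ENNReal.ofReal C * (‖WT Z0 Pm N η η' c τ x‖ₑ * ‖evN (fun _ => pI) x‖ₑ) ∂mN N := by
          refine lintegral_mono fun x => ?_
          have h1 : ‖evN (fun _ => obP (fun z => dl (z - τ)) Pm) x‖ₑ ≤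
              ENNReal.ofReal C * ‖evN (fun _ => pI) x‖ₑ := by
            rw [← ofReal_norm, ← ofReal_norm, ← ENNReal.ofReal_mul hC0]
            exact ENNReal.ofReal_le_ofReal (ho x.2.2.1 x.2.2.2).1
          refine (mul_le_mul' le_rfl h1).trans (le_of_eq ?_)
          ring
      _ = ENNReal.ofReal C * ∫⁻ x, ‖WT Z0 Pm N η η' c τ x‖ₑ * ‖evN (fun _ => pI) x‖ₑ ∂mN N :=
          lintegral_const_mul' _ _ ENNReal.ofReal_ne_top
      _ ≤ ENNReal.ofReal C * ENNReal.ofReal d := mul_le_mul' le_rfl hI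
      _ = ENNReal.ofReal (C * d) := (ENNReal.ofReal_mul hC0).symm

/-- **(Z)**: second derivative of the functional -/
theorem leg_b2 : ∃ C : ℝ, 1 ≤ C ∧ ∀ {Z0 : Stt} {Pm : NUO.Par} {N : ℕ} {η η' : ℕ → Crs}
    (_ : LegH Z0 Pm N η η') (ρ : ℝ → ℂ) (c : ℝ → ℂ) {τ : ℝ}, |τ| ≤ 1 → ∀ {d : ℝ}, 0 ≤ d →
    FAN (fun _ => Zm Z0 (lgK (I * τ))) (fun _ => Pm) N η η' (fun _ => c τ)
      (fun n => pI2 ρ (fun z => dl (z - τ)) (η n)) ≤ ENNReal.ofReal d →
    ‖F (mN N) (WT Z0 Pm N η η' c τ) (fun x =>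
        evN (fun n => vP ρ (fun z => dl (z - τ)) (η n)) x *
          evN (fun n => vP ρ (fun z => dl (z - τ)) (η n)) x) +
      F (mN N) (WT Z0 Pm N η η' c τ) (evN fun n => vP ρ (fun z => dl2 (z - τ)) (η n)) -
      T2 Z0 Pm N η η' ρ c τ‖ ≤ C * d := by
  obtain ⟨C, hC, hb⟩ := exists_const
  refine ⟨2 * C ^ 2, by nlinarith, fun {Z0 Pm N η η'} H ρ c {τ} hτ {d} hd hI => ?_⟩
  have hC0 : 0 ≤ C := by linarith
  obtain ⟨hg, ho⟩ := hb τ hτ Pm H.P
  obtain ⟨B, hB⟩ := H.zpath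
  set K : ℝ := max (max (2 * N * C + ‖2 * ∫ t : ℝ, ρ t * dl (t - τ)‖)
    (2 * N * C + ‖2 * ∫ t : ℝ, ρ t * dl2 (t - τ)‖))
    (6 * C * Real.exp (2 * |τ| + l / 8) * (2 * N)) with hK
  have key := hB.bound2 (c := c) (M := Mn ρ) (M2 := Mn2 ρ) (τ := τ)
    (V := evN fun n => vP ρ (fun z => dl (z - τ)) (η n))
    (O := evN fun _ => obP (fun z => dl (z - τ)) Pm)
    (V' := evN fun n => vP ρ (fun z => dl2 (z - τ)) (η n))
    (O' := evN fun _ => obP (fun z => dl2 (z - τ)) Pm) (K := K) (d := 2 * C ^ 2 * d)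
    (fun x => AN_split ρ (fun z => dl (z - τ)) x)
    (fun x => AN_split ρ (fun z => dl2 (z - τ)) x)
    (evN_meas fun n _ => MIn_vP H.r (H.c n) ρ (measurable_dls τ)).aestronglyMeasurable
    (evN_meas fun n _ => MIn_obP H.r (measurable_dls τ)).aestronglyMeasurable
    (evN_meas fun n _ => MIn_vP H.r (H.c n) ρ (measurable_dls2 τ)).aestronglyMeasurable
    (evN_meas fun n _ => MIn_obP H.r (measurable_dls2 τ)).aestronglyMeasurable
    (fun x => (H.vP_bdd hC0 (fun u hu => (hg u hu).1.trans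
      (mul_le_of_le_one_right hC0 (exp_le_one _))) x).trans
        ((le_max_left _ _).trans (le_max_left _ _)))
    (fun x => (H.obP_bdd hC0 (fun u hu => (hg u hu).1) x).trans (le_max_right _ _))
    (fun x => (H.vP_bdd hC0 (fun u hu => (hg u hu).2.trans
      (mul_le_of_le_one_right hC0 (exp_le_one _))) x).trans
        ((le_max_right _ _).trans (le_max_left _ _)))
    (fun x => (H.obP_bdd hC0 (fun u hu => (hg u hu).2) x).trans (le_max_right _ _))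
    (by positivity) ?_
  · unfold T2
    rw [WT_eq]
    exact key
  · rw [← WT_eq]
    rw [FAN_eq (fun n _ => H.mc _ (measurable_lgK _) n)
      fun n _ => MIn_pI2 H.r (H.c n) ρ (measurable_dls τ)] at hI
    have h1 : ∀ x : CfN N, ‖WT Z0 Pm N η η' c τ x‖ₑ *
        (2 * ‖evN (fun n => vP ρ (fun z => dl (z - τ)) (η n)) x‖ₑ *
          ‖evN (fun _ => obP (fun z => dl (z - τ)) Pm) x‖ₑ +
          ‖evN (fun _ => obP (fun z => dl (z - τ)) Pm) x‖ₑ ^ 2 +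
          ‖evN (fun _ => obP (fun z => dl2 (z - τ)) Pm) x‖ₑ) ≤
        ENNReal.ofReal (2 * C ^ 2) * (‖WT Z0 Pm N η η' c τ x‖ₑ *
          ‖evN (fun n => pI2 ρ (fun z => dl (z - τ)) (η n)) x‖ₑ) := by
      intro x
      have h2 := enorm_combo (a := evN (fun n => vP ρ (fun z => dl (z - τ)) (η n)) x)
        (norm_nonneg (evN (fun _ => pI) x)) hC (ho x.2.2.1 x.2.2.2).1 (ho x.2.2.1 x.2.2.2).2
        (pI_le x.2.2.1 x.2.2.2)
      have h3 : ‖evN (fun n => pI2 ρ (fun z => dl (z - τ)) (η n)) x‖ₑ =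
          ENNReal.ofReal (‖evN (fun _ => pI) x‖ *
            (1 + x.2.1.1 + ‖evN (fun n => vP ρ (fun z => dl (z - τ)) (η n)) x‖)) := by
        have h4 : evN (fun n => pI2 ρ (fun z => dl (z - τ)) (η n)) x =
            evN (fun _ => pI) x * ((1 + x.2.1.1 + ‖evN (fun n => vP ρ (fun z => dl (z - τ)) (η n)) x‖ :
              ℝ) : ℂ) := rfl
        rw [← ofReal_norm, h4, norm_mul, norm_real, Real.norm_of_nonneg (by positivity)]
      rw [h3]
      refine (mul_le_mul' le_rfl h2).trans (le_of_eq ?_)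
      ring
    refine (lintegral_mono h1).trans ?_
    rw [lintegral_const_mul' _ _ ENNReal.ofReal_ne_top,
      ENNReal.ofReal_mul (p := 2 * C ^ 2) (by positivity)]
    exact mul_le_mul' le_rfl hI

end final

end PBLg

end
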