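import Pool.Agent.PB.ZRow
import Pool.Agent.PB.EInst

/-!
# Plan B: the force of the legs in closed form

`lamU z0 u = i (log Lg)'` is `h00 w = i cos l / (cosh w sin (l - i w))` at `u = l + i t`,
`w = t + i z0`; for `z0 = i τ` it is `h0T τ t`.
-/

set_option autoImplicit false
set_option linter.unusedSectionVars false

noncomputable section

open Complex

namespace PBZF

open NUP1 NUP1.Bd
open PBX (Lg)

theorem hasDerivAt_sinLin (p q u : ℂ) :
    HasDerivAt (fun u : ℂ => sin (p - u + q)) (-cos (p - u + q)) u := by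
  have h1 : HasDerivAt (fun u : ℂ => p - u + q) (-1) u := by
    simpa using ((hasDerivAt_id u).const_sub p).add_const q
  have h2 := (Complex.hasDerivAt_sin (p - u + q)).comp u h1
  refine h2.congr_deriv ?_
  ring

/-- log derivative of the leg factor -/
theorem deriv_Lg {z0 u : ℂ} (h1 : sin (z0 - u - 3 * l) ≠ 0) (h2 : sin (z0 - u + 2 * l) ≠ 0) :
    deriv (Lg z0 z0) u / Lg z0 z0 u =
      cos (z0 - u + 2 * l) / sin (z0 - u + 2 * l) - cos (z0 - u - 3 * l) / sin (z0 - u - 3 * l) := by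
  have d1 : HasDerivAt (fun u : ℂ => sin (z0 - u - 3 * l)) (-cos (z0 - u - 3 * l)) u := by
    have := hasDerivAt_sinLin z0 (-(3 * l)) u
    simpa only [← sub_eq_add_neg] using this
  have d2 := hasDerivAt_sinLin z0 (2 * l) u
  have d : HasDerivAt (Lg z0 z0) _ u := d1.div d2 h2
  rw [d.deriv]
  unfold PBX.Lg
  generalize sin (z0 - u - 3 * (l : ℂ)) = A at *
  generalize sin (z0 - u + 2 * (l : ℂ)) = B at *
  generalize cos (z0 - u - 3 * (l : ℂ)) = C at *
  generalize cos (z0 - u + 2 * (l : ℂ)) = E at *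
  field_simp
  ring

/-- **closed form of the force of the legs** -/
theorem lamU_h00 {z0 t : ℂ} (h1 : cosh (t + I * z0) ≠ 0) (h2 : sin (l - I * (t + I * z0)) ≠ 0) :
    lamU z0 (l + I * t) = PBEI.h00 (t + I * z0) := by
  set w : ℂ := t + I * z0 with hw
  have hz : z0 = -I * (w - t) := by
    rw [hw, add_sub_cancel_left, ← mul_assoc, neg_mul, I_mul_I, neg_neg, one_mul]
  have e1 : z0 - (l + I * t) - 3 * l = -(Real.pi / 2 + I * w) := by
    have h8 : (Real.pi : ℂ) = 8 * l := by
      have := Bd.pi_eq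
      exact_mod_cast this
    rw [h8, hz]
    ring
  have e2 : z0 - (l + I * t) + 2 * l = l - I * w := by
    rw [hz]
    ring
  have s1 : sin (z0 - (l + I * t) - 3 * l) = -cosh w := by
    rw [e1, Complex.sin_neg, add_comm, Complex.sin_add_pi_div_two, mul_comm, Complex.cos_mul_I]
  have c1 : cos (z0 - (l + I * t) - 3 * l) = -(I * sinh w) := by
    rw [e1, Complex.cos_neg, add_comm, Complex.cos_add_pi_div_two, mul_comm I w,
      Complex.sin_mul_I, mul_comm]
  unfold lamU
  rw [mul_div_assoc, deriv_Lg (by rw [s1]; exact neg_ne_zero.2 h1) (by rw [e2]; exact h2), s1, c1,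
    e2]
  have e3 : PBEI.h00 w = I * cos (l : ℂ) / (cosh w * sin ((l : ℂ) - I * w)) := rfl
  rw [e3]
  have h3 : sin ((l : ℂ) - I * w) = sin l * cosh w - I * (cos l * sinh w) := by
    rw [Complex.sin_sub, mul_comm I w, Complex.cos_mul_I, Complex.sin_mul_I]
    ring
  have h4 : cos ((l : ℂ) - I * w) = cos l * cosh w + I * (sin l * sinh w) := by
    rw [Complex.cos_sub, mul_comm I w, Complex.cos_mul_I, Complex.sin_mul_I]
    ring
  have h5 : cosh w ^ 2 - sinh w ^ 2 = 1 := Complex.cosh_sq_sub_sinh_sq w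
  have h6 : I * I = -1 := I_mul_I
  rw [h4]
  rw [h3] at h2 ⊢
  generalize sin (l : ℂ) = A at *
  generalize cos (l : ℂ) = B at *
  generalize cosh w = C at *
  generalize sinh w = E at *
  set S : ℂ := A * C - I * (B * E) with hS
  have key : (B * C + I * (A * E)) * C - I * E * S = B := by
    rw [hS]
    linear_combination B * h5 + B * E ^ 2 * h6
  rw [neg_div_neg_eq, div_sub_div _ _ h2 h1, mul_comm S (I * E), key, mul_div_assoc, mul_comm S C]

/-- **the force of the legs at `i τ` is `h0T τ`** in the strip `-2l/5 ≤ Im t ≤ l` -/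
theorem lamU_h0T (τ : ℝ) {t : ℂ} (h1 : -(2 / 5 * NUMF.l) ≤ t.im) (h2 : t.im ≤ NUMF.l) :
    lamU ((τ : ℂ) * I) (l + I * t) = PBEI.h0T τ t := by
  have e : t + I * ((τ : ℂ) * I) = t - τ := by
    linear_combination (τ : ℂ) * I_mul_I
  have hi : (t - (τ : ℂ)).im = t.im := by simp
  have hlow := PBEI.den_low (w := t - (τ : ℂ)) (by rw [hi]; exact h1) (by rw [hi]; exact h2)
  have hl := NUMF.l_pos
  have hs : 0 < Real.sin (3 / 5 * NUMF.l) := by
    have hl4 : NUMF.l = Real.pi / 8 := rfl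
    have hpi := Real.pi_pos
    exact Real.sin_pos_of_pos_of_lt_pi (by linarith) (by rw [hl4]; linarith)
  have hne : cosh (t - (τ : ℂ)) * sin ((NUMF.l : ℂ) - I * (t - τ)) ≠ 0 :=
    norm_pos_iff.1 (lt_of_lt_of_le (by positivity) hlow)
  have h3 := left_ne_zero_of_mul hne
  have h4 : sin ((l : ℂ) - I * (t - τ)) ≠ 0 := right_ne_zero_of_mul hne
  have key := lamU_h00 (z0 := (τ : ℂ) * I) (t := t) (by rw [e]; exact h3) (by rw [e]; exact h4)
  rw [key, e]
  rfl

/-- on the line of the quanta -/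
theorem lamU_real (τ t : ℝ) : lamU ((τ : ℂ) * I) (NUP1.vl l t) = PBEI.h0T τ t := by
  have hl := NUMF.l_pos
  have := lamU_h0T τ (t := (t : ℂ)) (by rw [ofReal_im]; linarith) (by rw [ofReal_im]; exact hl.le)
  rw [← this]
  congr 1
  unfold NUP1.vl
  ring

end PBZF

end
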