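import Pool.Agent.PB.MFrho3

/-!
# Plan B: the mean field of the legs, derivative in the position of the legs (helper61)

* `dl`, `dl2`: derivatives in the height of the logarithm of the leg factor, `dl_eq`, `dl_bd`;
* `hasDerivAt_leg`: the leg factor `sin (z - u - 3 l) / sin (z - u + 2 l)` at `z = i τ`;
* **`hasDerivAt_QL`**: the factor of a row in the normaliser of the legs,
  `QL z = sin (z + 2 l) sin (z + 3 l) / rh z ^ 2`, has the logarithmic derivative
  `- i ∫ P t dl (t + i z)`;
* `hasDerivAt_mean`: `∫ P (t - η) dl (t - τ)` is differentiable in `τ`.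
-/

set_option autoImplicit false

open MeasureTheory Filter Topology Set Complex

noncomputable section

namespace PBLg

open NUMF

/-! ### sines -/

/-- lower bound of the sine in a strip -/
theorem sin_low {a b : ℝ} (ha : 0 < a) (hb : b < Real.pi) : ∃ m : ℝ, 0 < m ∧ ∀ w : ℂ, a ≤ w.re →
    w.re ≤ b → m * Real.exp |w.im| ≤ ‖Complex.sin w‖ := by
  by_cases hab : a ≤ b
  swap
  · exact ⟨1, one_pos, fun w h1 h2 => absurd (h1.trans h2) hab⟩
  have hsa : 0 < Real.sin a := Real.sin_pos_of_pos_of_lt_pi ha (by linarith)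
  have hsb : 0 < Real.sin b := Real.sin_pos_of_pos_of_lt_pi (by linarith) (by linarith)
  refine ⟨min (Real.sin a) (Real.sin b) / 2, by positivity, fun w h1 h2 => ?_⟩
  have v := PBR.norm_sin_ge w
  have hs : min (Real.sin a) (Real.sin b) ≤ Real.sin w.re := by
    rcases le_total w.re (Real.pi / 2) with h | h
    · exact (min_le_left _ _).trans (Real.sin_le_sin_of_le_of_le_pi_div_two
        (by linarith [Real.pi_pos]) h h1)
    · refine (min_le_right _ _).trans ?_
      rw [← Real.sin_pi_sub b, ← Real.sin_pi_sub w.re]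
      exact Real.sin_le_sin_of_le_of_le_pi_div_two (by linarith [Real.pi_pos]) (by linarith)
        (by linarith)
  refine le_trans ?_ v
  have : min (Real.sin a) (Real.sin b) ≤ |Real.sin w.re| := hs.trans (le_abs_self _)
  gcongr

/-! ### the derivative of the logarithm of the leg factor -/

/-- the derivative in the height of the logarithm of the leg factor, legs at the height `0` -/
def dl (z : ℂ) : ℂ := Complex.tanh z + I * Complex.cot (l - I * z)

/-- the derivative of `dl` -/
def dl2 (z : ℂ) : ℂ := 1 / Complex.cosh z ^ 2 - 1 / Complex.sin (l - I * z) ^ 2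

theorem cosh_sin (z : ℂ) : Complex.cosh z = Complex.sin (4 * l - I * z) := by
  have h : (4 * (l : ℂ)) = Real.pi / 2 := by
    unfold l
    push_cast
    ring
  rw [h, Complex.sin_pi_div_two_sub, mul_comm, Complex.cos_mul_I]

theorem re_lz (c : ℝ) (z : ℂ) : ((c : ℂ) * l - I * z).re = c * l + z.im := by simp

theorem im_lz (c : ℝ) (z : ℂ) : ((c : ℂ) * l - I * z).im = -z.re := by simp

theorem cosh_ne {z : ℂ} (h1 : -l < z.im) (h2 : z.im < 4 * l) : Complex.cosh z ≠ 0 := by
  have hl := l_pos
  obtain ⟨m, hm, h⟩ := sin_low (a := 4 * l + z.im) (b := 4 * l + z.im) (by linarith)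
    (by rw [← eight_l]; linarith)
  have h3 := h (((4 : ℝ) : ℂ) * l - I * z) (by rw [re_lz]) (by rw [re_lz])
  rw [cosh_sin]
  push_cast at h3
  exact norm_pos_iff.1 (lt_of_lt_of_le (by positivity) h3)

theorem sin_ne {z : ℂ} (h1 : -l < z.im) (h2 : z.im < 4 * l) : Complex.sin (l - I * z) ≠ 0 := by
  have hl := l_pos
  obtain ⟨m, hm, h⟩ := sin_low (a := 1 * l + z.im) (b := 1 * l + z.im) (by linarith)
    (by rw [← eight_l]; linarith)
  have h3 := h (((1 : ℝ) : ℂ) * l - I * z) (by rw [re_lz]) (by rw [re_lz])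
  push_cast at h3
  rw [one_mul] at h3
  exact norm_pos_iff.1 (lt_of_lt_of_le (by positivity) h3)

theorem dl_eq {z : ℂ} (h1 : -l < z.im) (h2 : z.im < 4 * l) :
    dl z = I * Complex.cos l / (Complex.cosh z * Complex.sin (l - I * z)) := by
  have c0 := cosh_ne h1 h2
  have s0 := sin_ne h1 h2
  unfold dl Complex.cot
  rw [Complex.tanh_eq_sinh_div_cosh]
  rw [div_add' _ _ _ c0, div_eq_div_iff c0 (mul_ne_zero c0 s0)]
  have e1 : Complex.sin (l - I * z) = Complex.sin l * Complex.cosh z -
      Complex.cos l * (I * Complex.sinh z) := by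
    rw [Complex.sin_sub, mul_comm I z, Complex.cos_mul_I, Complex.sin_mul_I]
    ring
  have e2 : Complex.cos (l - I * z) = Complex.cos l * Complex.cosh z +
      Complex.sin l * (I * Complex.sinh z) := by
    rw [Complex.cos_sub, mul_comm I z, Complex.cos_mul_I, Complex.sin_mul_I]
    ring
  have e3 := Complex.cosh_sq z
  have e4 : I * (Complex.cos (l - I * z) / Complex.sin (l - I * z)) * Complex.sin (l - I * z) =
      I * Complex.cos (l - I * z) := by
    field_simp
  have e5 : (Complex.sinh z + I * (Complex.cos (l - I * z) / Complex.sin (l - I * z)) *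
      Complex.cosh z) * (Complex.cosh z * Complex.sin (l - I * z)) =
      Complex.cosh z * (Complex.sinh z * Complex.sin (l - I * z) + Complex.cosh z *
      (I * (Complex.cos (l - I * z) / Complex.sin (l - I * z)) * Complex.sin (l - I * z))) := by
    ring
  rw [e5, e4, e1, e2]
  linear_combination (I * Complex.cos l * Complex.cosh z) * e3 +
    (Complex.cosh z ^ 2 * Complex.sinh z * Complex.sin l) * I_sq

theorem hasDerivAt_dl {z : ℂ} (h1 : -l < z.im) (h2 : z.im < 4 * l) :
    HasDerivAt dl (dl2 z) z := by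
  have c0 := cosh_ne h1 h2
  have s0 := sin_ne h1 h2
  have e : dl = fun z => Complex.sinh z / Complex.cosh z +
      I * (Complex.cos (l - I * z) / Complex.sin (l - I * z)) := by
    funext z
    unfold dl Complex.cot
    rw [Complex.tanh_eq_sinh_div_cosh]
  rw [e]
  have d1 := (Complex.hasDerivAt_sinh z).div (Complex.hasDerivAt_cosh z) c0
  have d2 : HasDerivAt (fun z : ℂ => (l : ℂ) - I * z) (-I) z := by
    simpa using ((hasDerivAt_id z).const_mul I).const_sub (l : ℂ)
  have d3 := (d2.ccos.div d2.csin s0).const_mul I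
  refine (d1.add d3).congr_deriv ?_
  unfold dl2
  have e3 := Complex.cosh_sq z
  have e4 := Complex.sin_sq_add_cos_sq ((l : ℂ) - I * z)
  have t1 : (Complex.cosh z * Complex.cosh z - Complex.sinh z * Complex.sinh z) /
      Complex.cosh z ^ 2 = 1 / Complex.cosh z ^ 2 := by
    congr 1
    linear_combination e3
  have t2 : I * ((-Complex.sin (l - I * z) * -I * Complex.sin (l - I * z) -
      Complex.cos (l - I * z) * (Complex.cos (l - I * z) * -I)) / Complex.sin (l - I * z) ^ 2) =
      -(1 / Complex.sin (l - I * z) ^ 2) := by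
    have : I * (-Complex.sin (l - I * z) * -I * Complex.sin (l - I * z) -
      Complex.cos (l - I * z) * (Complex.cos (l - I * z) * -I)) = -1 := by
      linear_combination -e4 + (Complex.sin (l - I * z) ^ 2 + Complex.cos (l - I * z) ^ 2) * I_sq
    rw [← mul_div_assoc, this, neg_div]
  rw [t1, t2]
  ring

/-- **bounds** -/
theorem dl_bd {y1 y2 : ℝ} (h1 : -l < y1) (h2 : y2 < 4 * l) : ∃ C : ℝ, 0 ≤ C ∧ ∀ z : ℂ, y1 ≤ z.im →
    z.im ≤ y2 → ‖dl z‖ ≤ C * Real.exp (-(2 * |z.re|)) ∧ ‖dl2 z‖ ≤ C * Real.exp (-(2 * |z.re|)) := by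
  have hl := l_pos
  obtain ⟨m, hm, hm'⟩ := sin_low (a := 4 * l + y1) (b := 4 * l + y2) (by linarith)
    (by rw [← eight_l]; linarith)
  obtain ⟨n, hn, hn'⟩ := sin_low (a := 1 * l + y1) (b := 1 * l + y2) (by linarith)
    (by rw [← eight_l]; linarith)
  refine ⟨‖I * Complex.cos l‖ / (m * n) + (1 / m ^ 2 + 1 / n ^ 2), by positivity,
    fun z g1 g2 => ?_⟩
  have a1 := hm' (((4 : ℝ) : ℂ) * l - I * z) (by rw [re_lz]; linarith) (by rw [re_lz]; linarith)
  have a2 := hn' (((1 : ℝ) : ℂ) * l - I * z) (by rw [re_lz]; linarith) (by rw [re_lz]; linarith)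
  rw [im_lz, abs_neg] at a1 a2
  push_cast at a1 a2
  rw [one_mul] at a2
  rw [← cosh_sin] at a1
  have hE := Real.exp_pos |z.re|
  have ex : Real.exp (-(2 * |z.re|)) = 1 / (Real.exp |z.re| * Real.exp |z.re|) := by
    rw [← Real.exp_add, one_div, ← Real.exp_neg]
    congr 1
    ring
  have hmE : 0 < m * Real.exp |z.re| := by positivity
  have hnE : 0 < n * Real.exp |z.re| := by positivity
  have b1 : ‖dl z‖ ≤ ‖I * Complex.cos l‖ / (m * n) * Real.exp (-(2 * |z.re|)) := by
    rw [dl_eq (by linarith) (by linarith), norm_div, norm_mul (Complex.cosh z), ex,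
      div_mul_div_comm, mul_one]
    refine div_le_div_of_nonneg_left (norm_nonneg _) (by positivity) ?_
    calc m * n * (Real.exp |z.re| * Real.exp |z.re|) =
        (m * Real.exp |z.re|) * (n * Real.exp |z.re|) := by ring
      _ ≤ _ := mul_le_mul a1 a2 hnE.le (norm_nonneg _)
  have b2 : ‖dl2 z‖ ≤ (1 / m ^ 2 + 1 / n ^ 2) * Real.exp (-(2 * |z.re|)) := by
    unfold dl2
    refine (norm_sub_le _ _).trans ?_
    rw [norm_div, norm_div, norm_pow, norm_pow, norm_one, ex, add_mul, div_mul_div_comm,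
      div_mul_div_comm, mul_one]
    refine add_le_add (one_div_le_one_div_of_le (by positivity) ?_)
      (one_div_le_one_div_of_le (by positivity) ?_)
    · calc m ^ 2 * (Real.exp |z.re| * Real.exp |z.re|) = (m * Real.exp |z.re|) ^ 2 := by ring
        _ ≤ _ := pow_le_pow_left₀ hmE.le a1 2
    · calc n ^ 2 * (Real.exp |z.re| * Real.exp |z.re|) = (n * Real.exp |z.re|) ^ 2 := by ring
        _ ≤ _ := pow_le_pow_left₀ hnE.le a2 2
  have hp := Real.exp_pos (-(2 * |z.re|))
  constructor
  · refine b1.trans (mul_le_mul_of_nonneg_right ?_ hp.le)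
    have : 0 ≤ 1 / m ^ 2 + 1 / n ^ 2 := by positivity
    linarith
  · refine b2.trans (mul_le_mul_of_nonneg_right ?_ hp.le)
    have : 0 ≤ ‖I * Complex.cos l‖ / (m * n) := by positivity
    linarith

/-! ### the leg factor -/

/-- logarithmic derivative of the leg factor -/
theorem q_eq (w : ℂ) : Complex.cot (w - 3 * l) - Complex.cot (w + 2 * l) =
    I * dl (I * (w + l)) := by
  have h : (w - 3 * (l : ℂ)) = -(Real.pi / 2 - (w + l)) := by
    unfold l
    push_cast
    ring
  have h1 : Complex.cot (w - 3 * l) = -(Complex.sin (w + l) / Complex.cos (w + l)) := by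
    unfold Complex.cot
    rw [h, Complex.cos_neg, Complex.sin_neg, Complex.cos_pi_div_two_sub,
      Complex.sin_pi_div_two_sub, div_neg]
  have h2 : (l : ℂ) - I * (I * (w + l)) = w + 2 * l := by
    linear_combination (-(w + l)) * I_sq
  unfold dl
  rw [h1, h2, Complex.tanh_eq_sinh_div_cosh, mul_comm I (w + l), Complex.sinh_mul_I,
    Complex.cosh_mul_I]
  linear_combination (-(Complex.sin (w + l) / Complex.cos (w + l)) -
    Complex.cot (w + 2 * l)) * I_sq

theorem hasDerivAt_leg' {z u : ℂ} (h1 : Complex.sin (z - u - 3 * l) ≠ 0)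
    (h2 : Complex.sin (z - u + 2 * l) ≠ 0) :
    HasDerivAt (fun z : ℂ => Complex.sin (z - u - 3 * l) / Complex.sin (z - u + 2 * l))
      (I * dl (I * (z - u + l)) *
        (Complex.sin (z - u - 3 * l) / Complex.sin (z - u + 2 * l))) z := by
  have d1 : HasDerivAt (fun z : ℂ => z - u - 3 * l) 1 z :=
    ((hasDerivAt_id z).sub_const u).sub_const _
  have d2 : HasDerivAt (fun z : ℂ => z - u + 2 * l) 1 z :=
    ((hasDerivAt_id z).sub_const u).add_const _
  refine (d1.csin.div d2.csin h2).congr_deriv ?_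
  rw [← q_eq]
  unfold Complex.cot
  generalize Complex.sin (z - u - 3 * l) = s1 at *
  generalize Complex.sin (z - u + 2 * l) = s2 at *
  generalize Complex.cos (z - u - 3 * l) = c1
  generalize Complex.cos (z - u + 2 * l) = c2
  field_simp

/-- **the leg factor at `z = i τ`** -/
theorem hasDerivAt_leg {u : ℂ} {τ : ℝ} (h1 : Complex.sin (I * τ - u - 3 * l) ≠ 0)
    (h2 : Complex.sin (I * τ - u + 2 * l) ≠ 0) :
    HasDerivAt (fun τ : ℝ => Complex.sin (I * τ - u - 3 * l) / Complex.sin (I * τ - u + 2 * l))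
      (-dl ((u - l) / I - τ) *
        (Complex.sin (I * τ - u - 3 * l) / Complex.sin (I * τ - u + 2 * l))) τ := by
  have d0 : HasDerivAt (fun τ : ℝ => I * (τ : ℂ)) I τ := by
    simpa using (Complex.ofRealCLM.hasDerivAt (x := τ)).const_mul I
  have d1 := (hasDerivAt_leg' (z := I * τ) (u := u) h1 h2).comp_of_eq τ d0 rfl
  refine d1.congr_deriv ?_
  have e : I * (I * τ - u + l) = (u - l) / I - τ := by
    rw [div_I]
    linear_combination (τ : ℂ) * I_sq
  rw [e]
  linear_combination (dl ((u - l) / I - τ) *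
    (Complex.sin (I * τ - u - 3 * l) / Complex.sin (I * τ - u + 2 * l))) * I_sq

/-! ### the mean field -/

/-- the factor of a row at distance `z` of the legs in the normaliser -/
def QL (z : ℂ) : ℂ := Complex.sin (z + 2 * l) * Complex.sin (z + 3 * l) / PBR.rh z ^ 2

theorem sin_strip {w : ℂ} (h1 : 0 < w.re) (h2 : w.re < 8 * l) : Complex.sin w ≠ 0 := by
  obtain ⟨m, hm, h⟩ := sin_low (a := w.re) (b := w.re) h1 (by rw [← eight_l]; exact h2)
  exact norm_pos_iff.1 (lt_of_lt_of_le (by positivity) (h w le_rfl le_rfl))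

theorem re_add (k : ℝ) (z : ℂ) : (z + (k : ℂ) * l).re = z.re + k * l := by simp

theorem s2_ne {z : ℂ} (h : |z.re| < 2 * l) : Complex.sin (z + 2 * l) ≠ 0 := by
  have hl := l_pos
  obtain ⟨h1, h2⟩ := abs_lt.1 h
  have e := re_add 2 z
  push_cast at e
  exact sin_strip (by rw [e]; linarith) (by rw [e]; linarith)

theorem s3_ne {z : ℂ} (h : |z.re| < 2 * l) : Complex.sin (z + 3 * l) ≠ 0 := by
  have hl := l_pos
  obtain ⟨h1, h2⟩ := abs_lt.1 h
  have e := re_add 3 z
  push_cast at e
  exact sin_strip (by rw [e]; linarith) (by rw [e]; linarith)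

theorem rh_ne {z : ℂ} (h : |z.re| < 2 * l) : PBR.rh z ≠ 0 := by
  have hl := l_pos
  refine PBR.rh_ne_zero ?_
  rw [show NUP1.l = l from rfl]
  linarith

theorem QL_ne {z : ℂ} (h : |z.re| < 2 * l) : QL z ≠ 0 := by
  unfold QL
  exact div_ne_zero (mul_ne_zero (s2_ne h) (s3_ne h)) (pow_ne_zero _ (rh_ne h))

theorem QL_diff {z : ℂ} (h : |z.re| < 2 * l) : DifferentiableAt ℂ QL z := by
  have hl := l_pos
  have h1 : DifferentiableAt ℂ PBR.rh z := PBR.differentiableAt_rh (by
    rw [show NUP1.l = l from rfl]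
    linarith)
  unfold QL
  exact DifferentiableAt.div (by fun_prop) (h1.pow 2) (pow_ne_zero _ (rh_ne h))

theorem log_QL {z : ℂ} (h : |z.re| ≤ l) : Real.log ‖QL z‖ = -NUMFH.lE z := by
  have hl := l_pos
  have h' : |z.re| < 2 * l := by linarith
  obtain ⟨h1, h2⟩ := abs_le.1 h
  have n2 := norm_ne_zero_iff.2 (s2_ne h')
  have n3 := norm_ne_zero_iff.2 (s3_ne h')
  have nr := norm_ne_zero_iff.2 (rh_ne h')
  unfold QL
  rw [NUMFH.lE_rh h1 (by linarith), norm_div, norm_mul, norm_pow,
    Real.log_div (mul_ne_zero n2 n3) (pow_ne_zero _ nr), Real.log_mul n2 n3, Real.log_pow,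
    add_comm z, add_comm z]
  push_cast
  ring

/-- derivative of the logarithm of the modulus -/
theorem hasDerivAt_logNorm {f : ℝ → ℂ} {c : ℂ} {x : ℝ} (h : HasDerivAt f (c * f x) x)
    (h0 : f x ≠ 0) : HasDerivAt (fun x => Real.log ‖f x‖) c.re x := by
  have h1 : HasDerivAt (fun y => f y / f x) c x := by
    refine (h.div_const (f x)).congr_deriv ?_
    field_simp
  have h2 : f x / f x = 1 := div_self h0
  have h3 : f x / f x ∈ slitPlane := by
    rw [h2]
    exact one_mem_slitPlane
  have h4 := h1.clog_real h3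
  rw [h2, div_one] at h4
  have h5 : HasDerivAt (fun y => (Complex.log (f y / f x)).re) c.re x :=
    (Complex.reCLM.hasFDerivAt.comp_hasDerivAt x h4 :)
  have h6 : (fun y => Real.log ‖f y‖) =ᶠ[𝓝 x] fun y =>
      (Complex.log (f y / f x)).re + Real.log ‖f x‖ := by
    have h7 := h.continuousAt.eventually_ne h0
    filter_upwards [h7] with y hy
    rw [Complex.log_re, norm_div, Real.log_div (norm_ne_zero_iff.2 hy) (norm_ne_zero_iff.2 h0)]
    ring
  exact (h5.add_const _).congr_of_eventuallyEq h6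

theorem im_tz (t : ℝ) (z : ℂ) : ((t : ℂ) + I * z).im = z.re := by simp

theorem cont_dl {z : ℂ} (h1 : -l < z.re) (h2 : z.re < 4 * l) :
    Continuous fun t : ℝ => dl (t + I * z) := by
  rw [continuous_iff_continuousAt]
  intro t
  have h := (hasDerivAt_dl (z := t + I * z) (by rw [im_tz]; exact h1)
    (by rw [im_tz]; exact h2)).continuousAt
  exact h.comp (f := fun t : ℝ => (t : ℂ) + I * z) (by fun_prop)

theorem cont_dl2 {z : ℂ} (h1 : -l < z.re) (h2 : z.re < 4 * l) :
    Continuous fun t : ℝ => dl2 (t + I * z) := by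
  have c1 : Continuous fun t : ℝ => Complex.cosh (t + I * z) :=
    Complex.continuous_cosh.comp (by fun_prop)
  have c2 : Continuous fun t : ℝ => Complex.sin (l - I * (t + I * z)) := by fun_prop
  unfold dl2
  exact (continuous_const.div (c1.pow 2) fun t => pow_ne_zero _ (cosh_ne (by rw [im_tz]; exact h1)
    (by rw [im_tz]; exact h2))).sub (continuous_const.div (c2.pow 2) fun t =>
    pow_ne_zero _ (sin_ne (by rw [im_tz]; exact h1) (by rw [im_tz]; exact h2)))

theorem exp_le_one (x : ℝ) : Real.exp (-(2 * |x|)) ≤ 1 :=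
  Real.exp_le_one_iff.2 (by have := abs_nonneg x; linarith)

/-- integrability against the density -/
theorem P_mul_int {f : ℝ → ℂ} {C : ℝ} (hf : AEStronglyMeasurable f) (hC : ∀ t, ‖f t‖ ≤ C) :
    Integrable fun t : ℝ => (P t : ℂ) * f t :=
  P_integrable.ofReal.mul_bdd (c := C) hf (Eventually.of_forall hC)

theorem hasDerivAt_int_leg {z v : ℂ} (hz : |z.re| < l) :
    HasDerivAt (fun ε : ℝ => ∫ t : ℝ, P t *
      Real.log (‖Complex.sin (z + ε * v - ((l : ℂ) + t * I) - 3 * l)‖ /
        ‖Complex.sin (z + ε * v - ((l : ℂ) + t * I) + 2 * l)‖))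
      (∫ t : ℝ, P t * (v * (I * dl (t + I * z))).re) 0 := by
  have hl := l_pos
  set a : ℝ := |z.re| with ha
  have ha0 : 0 ≤ a := abs_nonneg _
  obtain ⟨C, hC, hb⟩ := dl_bd (y1 := -((l + a) / 2)) (y2 := (l + a) / 2) (by linarith)
    (by linarith)
  set r : ℝ := (l - a) / (2 * (‖v‖ + 1)) with hr
  have hv : 0 ≤ ‖v‖ := norm_nonneg v
  have hr0 : 0 < r := div_pos (by linarith) (by linarith)
  have hre : ∀ ε ∈ Metric.ball (0 : ℝ) r, |(z + ε * v).re| ≤ (l + a) / 2 := by
    intro ε hε
    rw [Metric.mem_ball, dist_zero_right, Real.norm_eq_abs] at hε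
    have e : (z + ε * v).re = z.re + ε * v.re := by simp
    rw [e]
    have h1 : |ε * v.re| ≤ (l - a) / 2 := by
      rw [abs_mul]
      have h2 : |v.re| ≤ ‖v‖ := Complex.abs_re_le_norm v
      calc |ε| * |v.re| ≤ r * (‖v‖ + 1) :=
            mul_le_mul hε.le (by linarith) (abs_nonneg _) hr0.le
        _ = (l - a) / 2 := by
            rw [hr]
            field_simp
    have h3 := abs_add_le z.re (ε * v.re)
    linarith
  have hu1 : ∀ (w : ℂ) (t : ℝ), (w - ((l : ℂ) + t * I) - 3 * l).re = w.re - 4 * l := by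
    intro w t
    have : (w - ((l : ℂ) + t * I) - 3 * l).re = w.re - l - 3 * l := by simp
    rw [this]
    ring
  have hu2 : ∀ (w : ℂ) (t : ℝ), (w - ((l : ℂ) + t * I) + 2 * l).re = w.re + l := by
    intro w t
    have : (w - ((l : ℂ) + t * I) + 2 * l).re = w.re - l + 2 * l := by simp
    rw [this]
    ring
  have n1 : ∀ (w : ℂ) (t : ℝ), |w.re| ≤ (l + a) / 2 →
      Complex.sin (w - ((l : ℂ) + t * I) - 3 * l) ≠ 0 := by
    intro w t hw
    obtain ⟨w1, w2⟩ := abs_le.1 hw
    rw [← neg_ne_zero, ← Complex.sin_neg]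
    refine sin_strip ?_ ?_ <;> rw [neg_re, hu1] <;> linarith
  have n2 : ∀ (w : ℂ) (t : ℝ), |w.re| ≤ (l + a) / 2 →
      Complex.sin (w - ((l : ℂ) + t * I) + 2 * l) ≠ 0 := by
    intro w t hw
    obtain ⟨w1, w2⟩ := abs_le.1 hw
    refine sin_strip ?_ ?_ <;> rw [hu2] <;> linarith
  have harg : ∀ (w : ℂ) (t : ℝ), I * (w - ((l : ℂ) + t * I) + l) = t + I * w := by
    intro w t
    linear_combination (-(t : ℂ)) * I_sq
  have key := hasDerivAt_integral_of_dominated_loc_of_deriv_le
    (μ := (volume : Measure ℝ)) (𝕜 := ℝ)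
    (F := fun ε t => P t * Real.log (‖Complex.sin (z + ε * v - ((l : ℂ) + t * I) - 3 * l)‖ /
        ‖Complex.sin (z + ε * v - ((l : ℂ) + t * I) + 2 * l)‖))
    (F' := fun ε t => P t * (v * (I * dl (t + I * (z + ε * v)))).re)
    (x₀ := 0) (s := Metric.ball (0 : ℝ) r) (bound := fun t => P t * (‖v‖ * C))
    (Metric.ball_mem_nhds _ hr0) ?_ ?_ ?_ ?_ ?_ ?_
  · have h2 := key.2
    simp only [Complex.ofReal_zero, zero_mul, add_zero] at h2
    exact h2
  · refine Eventually.of_forall fun ε => (P_cont.measurable.mul ?_).aestronglyMeasurable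
    refine Real.measurable_log.comp (Measurable.div ?_ ?_)
    · fun_prop
    · fun_prop
  · have h1 := (NUMFH.int_leg (b := 0) le_rfl hl (z := z) (by linarith [neg_abs_le z.re])
      (by linarith [le_abs_self z.re]) (by linarith [neg_abs_le z.re])
      (by linarith [le_abs_self z.re])).1
    simp only [NUMFH.Pb_zero] at h1
    simpa using h1
  · refine (P_cont.mul ?_).aestronglyMeasurable
    have h1 := cont_dl (z := z) (by linarith [neg_abs_le z.re]) (by linarith [le_abs_self z.re])
    have h2 : Continuous fun t : ℝ => v * (I * dl (t + I * z)) :=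
      continuous_const.mul (continuous_const.mul h1)
    have h3 := Complex.continuous_re.comp h2
    have e : (fun t : ℝ => (v * (I * dl (t + I * (z + ((0 : ℝ) : ℂ) * v)))).re) =
        Complex.re ∘ fun t : ℝ => v * (I * dl (t + I * z)) := by
      funext t
      simp only [Complex.ofReal_zero, zero_mul, add_zero, Function.comp]
    rw [e]
    exact h3
  · refine Eventually.of_forall fun t ε hε => ?_
    rw [norm_mul, Real.norm_of_nonneg (P_pos t).le]
    refine mul_le_mul_of_nonneg_left ?_ (P_pos t).le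
    refine (Complex.abs_re_le_norm _).trans ?_
    rw [norm_mul, norm_mul, norm_I, one_mul]
    refine mul_le_mul_of_nonneg_left ?_ hv
    obtain ⟨g1, g2⟩ := abs_le.1 (hre ε hε)
    have h1 := (hb (t + I * (z + ε * v)) (by rw [im_tz]; exact g1) (by rw [im_tz]; exact g2)).1
    exact h1.trans (mul_le_of_le_one_right hC (exp_le_one _))
  · exact P_integrable.mul_const _
  · refine Eventually.of_forall fun t ε hε => ?_
    refine HasDerivAt.const_mul _ ?_
    have d0 : HasDerivAt (fun ε : ℝ => z + (ε : ℂ) * v) v ε := by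
      simpa using ((Complex.ofRealCLM.hasDerivAt (x := ε)).mul_const v).const_add z
    have d1 := (hasDerivAt_leg' (z := z + ε * v) (u := (l : ℂ) + t * I) (n1 _ t (hre ε hε))
      (n2 _ t (hre ε hε))).comp_of_eq ε d0 rfl
    rw [harg] at d1
    have d2 := hasDerivAt_logNorm (x := ε) (c := v * (I * dl (t + I * (z + ε * v))))
      (f := fun ε : ℝ => Complex.sin (z + (ε : ℂ) * v - ((l : ℂ) + t * I) - 3 * l) /
        Complex.sin (z + (ε : ℂ) * v - ((l : ℂ) + t * I) + 2 * l))
      (d1.congr_deriv (by ring)) (div_ne_zero (n1 _ t (hre ε hε)) (n2 _ t (hre ε hε)))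
    simp only [norm_div] at d2
    exact d2

/-- **the factor of a row in the normaliser** -/
theorem hasDerivAt_QL {z : ℂ} (hz : |z.re| < l) :
    HasDerivAt QL ((-I * ∫ t : ℝ, (P t : ℂ) * dl (t + I * z)) * QL z) z := by
  have hl := l_pos
  have h2l : |z.re| < 2 * l := by linarith
  have hQ := QL_ne h2l
  have hd := (QL_diff h2l).hasDerivAt
  set c : ℂ := deriv QL z / QL z with hc
  set J : ℂ := ∫ t : ℝ, (P t : ℂ) * dl (t + I * z) with hJ
  obtain ⟨z1, z2⟩ := abs_lt.1 hz
  have hJi : Integrable fun t : ℝ => (P t : ℂ) * dl (t + I * z) := by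
    obtain ⟨C, hC, hb⟩ := dl_bd (y1 := z.re) (y2 := z.re) (by linarith) (by linarith)
    refine P_mul_int (C := C) (cont_dl z1 (by linarith)).aestronglyMeasurable fun t => ?_
    have h1 := (hb (t + I * z) (by rw [im_tz]) (by rw [im_tz])).1
    exact h1.trans (mul_le_of_le_one_right hC (exp_le_one _))
  have key : ∀ v : ℂ, (v * (c + I * J)).re = 0 := by
    intro v
    have d0 : HasDerivAt (fun ε : ℝ => z + (ε : ℂ) * v) v 0 := by
      simpa using ((Complex.ofRealCLM.hasDerivAt (x := 0)).mul_const v).const_add z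
    have e0 : z + ((0 : ℝ) : ℂ) * v = z := by simp
    have d1 : HasDerivAt (fun ε : ℝ => QL (z + (ε : ℂ) * v)) (deriv QL z * v) 0 := by
      refine HasDerivAt.comp_of_eq (h₂ := QL) (h := fun ε : ℝ => z + (ε : ℂ) * v) 0 ?_ d0 e0.symm
      exact hd
    have d2 := hasDerivAt_logNorm (x := 0) (c := v * c) (f := fun ε : ℝ => QL (z + (ε : ℂ) * v))
      (d1.congr_deriv (by
        simp only [e0]
        rw [hc]
        field_simp)) (by
        simp only [e0]
        exact hQ)
    have d3 := (hasDerivAt_int_leg (z := z) (v := v) hz).neg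
    have ev : (fun ε : ℝ => Real.log ‖QL (z + (ε : ℂ) * v)‖) =ᶠ[𝓝 0] fun ε : ℝ => -∫ t : ℝ, P t *
        Real.log (‖Complex.sin (z + ε * v - ((l : ℂ) + t * I) - 3 * l)‖ /
          ‖Complex.sin (z + ε * v - ((l : ℂ) + t * I) + 2 * l)‖) := by
      have hc1 : ContinuousAt (fun ε : ℝ => |(z + (ε : ℂ) * v).re|) 0 := by fun_prop
      have hc2 : ∀ᶠ ε : ℝ in 𝓝 0, |(z + (ε : ℂ) * v).re| < l := by
        refine hc1.eventually_lt_const ?_
        show |(z + ((0 : ℝ) : ℂ) * v).re| < l
        rw [e0]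
        exact hz
      filter_upwards [hc2] with ε hε
      obtain ⟨g1, g2⟩ := abs_lt.1 hε
      rw [log_QL hε.le]
      have h1 := (NUMFH.int_leg (b := 0) le_rfl hl (z := z + ε * v) g1 (by linarith)
        (by linarith) (by linarith)).2
      simp only [NUMFH.Pb_zero, Complex.ofReal_zero, sub_zero, add_zero] at h1
      rw [h1]
      ring
    have d4 := d2.congr_of_eventuallyEq ev.symm
    have d5 := d4.unique d3
    have e1 : ∫ t : ℝ, P t * (v * (I * dl (t + I * z))).re = (v * (I * J)).re := by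
      have h1 := Complex.reCLM.integral_comp_comm (hJi.const_mul (v * I))
      have h2 : ∫ t : ℝ, v * I * ((P t : ℂ) * dl (t + I * z)) = v * (I * J) := by
        rw [integral_const_mul, hJ]
        ring
      rw [h2] at h1
      simp only [Complex.reCLM_apply] at h1
      rw [← h1]
      refine integral_congr_ae (Eventually.of_forall fun t => ?_)
      simp only []
      rw [show v * I * ((P t : ℂ) * dl (t + I * z)) = (P t : ℂ) * (v * (I * dl (t + I * z))) by ring,
        Complex.re_ofReal_mul]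
    rw [e1] at d5
    rw [mul_add, add_re]
    linarith
  have k1 := key 1
  have k2 := key I
  have hz0 : c + I * J = 0 := by
    apply Complex.ext
    · simpa using k1
    · have : (I * (c + I * J)).re = -(c + I * J).im := by
        rw [Complex.I_mul_re]
      rw [this] at k2
      rw [Complex.zero_im]
      linarith
  refine hd.congr_deriv ?_
  have : c * QL z = deriv QL z := by
    rw [hc]
    field_simp
  rw [← this]
  linear_combination QL z * hz0

/-- **the factor of a row at `i h` in the normaliser, legs at `i τ`** -/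
theorem hasDerivAt_QLI (h τ : ℝ) :
    HasDerivAt (fun τ : ℝ => QL (I * τ - h * I))
      ((∫ t : ℝ, (P (t - h) : ℂ) * dl (t - τ)) * QL (I * τ - h * I)) τ := by
  have hl := l_pos
  have d0 : HasDerivAt (fun τ : ℝ => I * (τ : ℂ) - h * I) I τ := by
    simpa using ((Complex.ofRealCLM.hasDerivAt (x := τ)).const_mul I).sub_const ((h : ℂ) * I)
  have hre : (I * (τ : ℂ) - h * I).re = 0 := by simp
  have d1 := (hasDerivAt_QL (z := I * τ - h * I) (by rw [hre, abs_zero]; exact hl)).comp_of_eq τ
    d0 rfl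
  refine d1.congr_deriv ?_
  have e1 : ∫ t : ℝ, (P (t - h) : ℂ) * dl (t - τ) =
      ∫ t : ℝ, (P t : ℂ) * dl (t + I * (I * τ - h * I)) := by
    rw [← integral_sub_right_eq_self (fun t : ℝ => (P t : ℂ) * dl (t + I * (I * τ - h * I))) h]
    refine integral_congr_ae (Eventually.of_forall fun t => ?_)
    simp only []
    congr 2
    push_cast
    linear_combination (h - (τ : ℂ)) * I_sq
  rw [e1]
  linear_combination (-(∫ t : ℝ, (P t : ℂ) * dl (t + I * (I * τ - h * I))) *
    QL (I * τ - h * I)) * I_sq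

/-- the mean of `dl` against the cloud of a row is differentiable in the height of the legs -/
theorem hasDerivAt_mean (h τ : ℝ) :
    HasDerivAt (fun τ : ℝ => ∫ t : ℝ, (P (t - h) : ℂ) * dl (t - τ))
      (-∫ t : ℝ, (P (t - h) : ℂ) * dl2 (t - τ)) τ := by
  have hl := l_pos
  obtain ⟨C, hC, hb⟩ := dl_bd (y1 := 0) (y2 := 0) (by linarith) (by linarith)
  have hP : Integrable fun t : ℝ => P (t - h) := P_integrable.comp_sub_right h
  have hPc : Continuous fun t : ℝ => (P (t - h) : ℂ) :=
    Complex.continuous_ofReal.comp (P_cont.comp (continuous_id.sub continuous_const))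
  have im0 : ∀ t τ : ℝ, ((t : ℂ) - τ).im = 0 := fun t τ => by simp
  have cd : ∀ τ : ℝ, Continuous fun t : ℝ => dl (t - τ) := by
    intro τ
    have h1 := cont_dl (z := I * τ) (by simpa using hl) (by simpa using hl)
    refine (congrArg Continuous (funext fun t => ?_)).mpr h1
    congr 1
    linear_combination (-(τ : ℂ)) * I_sq
  have cd2 : ∀ τ : ℝ, Continuous fun t : ℝ => dl2 (t - τ) := by
    intro τ
    have h1 := cont_dl2 (z := I * τ) (by simpa using hl) (by simpa using hl)
    refine (congrArg Continuous (funext fun t => ?_)).mpr h1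
    congr 1
    linear_combination (-(τ : ℂ)) * I_sq
  have key := hasDerivAt_integral_of_dominated_loc_of_deriv_le
    (μ := (volume : Measure ℝ)) (𝕜 := ℝ)
    (F := fun τ t => (P (t - h) : ℂ) * dl (t - τ))
    (F' := fun τ t => (P (t - h) : ℂ) * -dl2 (t - τ))
    (x₀ := τ) (s := Metric.ball τ 1) (bound := fun t => P (t - h) * C)
    (Metric.ball_mem_nhds _ one_pos) ?_ ?_ ?_ ?_ ?_ ?_
  · refine key.2.congr_deriv ?_
    rw [← integral_neg]
    refine integral_congr_ae (Eventually.of_forall fun t => ?_)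
    simp only []
    ring
  · exact Eventually.of_forall fun τ => (hPc.mul (cd τ)).aestronglyMeasurable
  · refine (hP.ofReal).mul_bdd (c := C) (cd τ).aestronglyMeasurable (Eventually.of_forall fun t => ?_)
    exact ((hb _ (by rw [im0]) (by rw [im0])).1).trans (mul_le_of_le_one_right hC (exp_le_one _))
  · exact (hPc.mul (cd2 τ).neg).aestronglyMeasurable
  · refine Eventually.of_forall fun t τ' _ => ?_
    rw [norm_mul, norm_neg, norm_real, Real.norm_of_nonneg (P_pos _).le]
    refine mul_le_mul_of_nonneg_left ?_ (P_pos _).le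
    exact ((hb _ (by rw [im0]) (by rw [im0])).2).trans (mul_le_of_le_one_right hC (exp_le_one _))
  · exact hP.mul_const _
  · refine Eventually.of_forall fun t τ' _ => ?_
    refine HasDerivAt.const_mul _ ?_
    have d0 : HasDerivAt (fun τ : ℝ => (t : ℂ) - (τ : ℂ)) (-1) τ' := by
      simpa using (Complex.ofRealCLM.hasDerivAt (x := τ')).const_sub (t : ℂ)
    have d1 := (hasDerivAt_dl (z := (t : ℂ) - τ') (by rw [im0]; linarith)
      (by rw [im0]; linarith)).comp_of_eq τ' d0 rfl
    refine d1.congr_deriv ?_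
    ring

end PBLg

end
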