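import Pool.Agent.PB.InsFF
import Pool.Agent.PB.ZMean
import Pool.Agent.PB.ZAbs

/-!
# Plan B, (Z): constituents and legs (helper61)

Class functions `Zm Z0 (lgK z)`: `Z0` without legs, legs at `z = i τ`.  Statistic `csS g`: the test
function `g` of the height at all quanta of a constituent (two quanta of a string).

* `InR`, `PosOk`, `posOk_csA`: the positions of the constituents;
* `lg1_bd`, `dls_bd`: bounds; `hasDerivAt_lgK`, `hasDerivAt_csS`: derivatives in `τ`;
* `hasDerivAt_prodL`, `hasDerivAt_sumL`, `norm_prodL`, `norm_prodL_ge`, `norm_sumL`: lists.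
-/

set_option autoImplicit false
set_option linter.unusedSectionVars false

noncomputable section

open Complex MeasureTheory Finset Filter Topology
open scoped ENNReal

namespace PBLg

open NUO NUP1S NUP1S.AbC NUGC NUCR PBF PBFunc
open NUP1 (vl)
open PBI (Stt)
open NUMF (l P)

/-! ### positions -/

/-- height of a position -/
def hgt (u : ℂ) : ℂ := (u - l) / I

theorem hgt_eq (u : ℂ) : hgt u = -(I * (u - l)) := by
  unfold hgt
  rw [div_I]
  ring

theorem hgt_re (u : ℂ) : (hgt u).re = u.im := by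
  rw [hgt_eq]
  simp

theorem hgt_im (u : ℂ) : (hgt u).im = l - u.re := by
  rw [hgt_eq]
  simp

/-- the strip of the positions -/
def InR (u : ℂ) : Prop := -(13 / 5 * l) ≤ u.re ∧ u.re ≤ 3 / 2 * l

/-- strings -/
def isStr : Option O3 → Prop
  | some .T => True
  | some .S => True
  | _ => False

/-- admissible constituents -/
def PosOk (c : Cst) : Prop := InR c.2 ∧ (isStr c.1.2 → InR (c.2 - l))

theorem InR.hgt1 {u : ℂ} (h : InR u) : -(l / 2) ≤ (hgt u).im := by
  rw [hgt_im]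
  linarith [h.2]

theorem InR.hgt2 {u : ℂ} (h : InR u) : (hgt u).im ≤ 18 / 5 * l := by
  rw [hgt_im]
  linarith [h.1]

/-! ### the leg factor -/

/-- leg factor of a quantum -/
def lg1 (z u : ℂ) : ℂ := Complex.sin (z - u - 3 * l) / Complex.sin (z - u + 2 * l)

/-- leg factors of the kinds -/
def lgK (z : ℂ) : Stt := fun _ k u =>
  match k with
  | none => lg1 z u
  | some .L => lg1 z u
  | some .T => lg1 z u * lg1 z (u - l)
  | some .S => lg1 z u * lg1 z (u - l)

/-- the test function `g` of the height at the quanta of a constituent -/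
def csS (g : ℂ → ℂ) : Stt := fun _ k u =>
  match k with
  | none => g (hgt u)
  | some .L => g (hgt u)
  | some .T => g (hgt u) + g (hgt (u - l))
  | some .S => g (hgt u) + g (hgt (u - l))

theorem ne1 {u : ℂ} {τ : ℝ} (h : InR u) : Complex.sin (I * τ - u - 3 * l) ≠ 0 := by
  have hl := NUMF.l_pos
  rw [← neg_ne_zero, ← Complex.sin_neg]
  have e : (-(I * (τ : ℂ) - u - 3 * l)).re = u.re + 3 * l := by
    simp
    ring
  refine sin_strip ?_ ?_ <;> rw [e]
  · linarith [h.1]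
  · linarith [h.2]

theorem ne2 {u : ℂ} {τ : ℝ} (h : InR u) : Complex.sin (I * τ - u + 2 * l) ≠ 0 := by
  have hl := NUMF.l_pos
  have e : (I * (τ : ℂ) - u + 2 * l).re = 2 * l - u.re := by
    simp
    ring
  refine sin_strip ?_ ?_ <;> rw [e]
  · linarith [h.2]
  · linarith [h.1]

theorem lg1_ne {u : ℂ} {τ : ℝ} (h : InR u) : lg1 (I * τ) u ≠ 0 := div_ne_zero (ne1 h) (ne2 h)

/-- **bounds of the leg factor** -/
theorem lg1_bd : ∃ b B : ℝ, 0 < b ∧ b ≤ 1 ∧ 1 ≤ B ∧ ∀ (τ : ℝ) (u : ℂ), InR u →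
    b ≤ ‖lg1 (I * τ) u‖ ∧ ‖lg1 (I * τ) u‖ ≤ B := by
  have hl := NUMF.l_pos
  obtain ⟨m, hm, hm'⟩ := sin_low (a := 2 / 5 * l) (b := 9 / 2 * l) (by linarith)
    (by rw [← NUMF.eight_l]; linarith)
  obtain ⟨n, hn, hn'⟩ := sin_low (a := l / 2) (b := 23 / 5 * l) (by linarith)
    (by rw [← NUMF.eight_l]; linarith)
  refine ⟨min m 1, max (1 / n) 1, lt_min hm one_pos, min_le_right _ _, le_max_right _ _,
    fun τ u hu => ?_⟩
  have i1 : (-(I * (τ : ℂ) - u - 3 * l)).im = -(τ - u.im) := by simp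
  have i2 : (I * (τ : ℂ) - u + 2 * l).im = τ - u.im := by simp
  have e1 : (-(I * (τ : ℂ) - u - 3 * l)).re = u.re + 3 * l := by
    simp
    ring
  have e2 : (I * (τ : ℂ) - u + 2 * l).re = 2 * l - u.re := by
    simp
    ring
  have a1 := hm' (-(I * (τ : ℂ) - u - 3 * l)) (by rw [e1]; linarith [hu.1])
    (by rw [e1]; linarith [hu.2])
  have a2 := hn' (I * (τ : ℂ) - u + 2 * l) (by rw [e2]; linarith [hu.2])
    (by rw [e2]; linarith [hu.1])
  have b1 := PBR.norm_sin_le (-(I * (τ : ℂ) - u - 3 * l))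
  have b2 := PBR.norm_sin_le (I * (τ : ℂ) - u + 2 * l)
  rw [i1, abs_neg, Complex.sin_neg, norm_neg] at a1 b1
  rw [i2] at a2 b2
  have hE := Real.exp_pos |τ - u.im|
  have p2 : 0 < ‖Complex.sin (I * (τ : ℂ) - u + 2 * l)‖ := lt_of_lt_of_le (by positivity) a2
  unfold lg1
  rw [norm_div]
  constructor
  · rw [le_div_iff₀ p2]
    calc min m 1 * ‖Complex.sin (I * (τ : ℂ) - u + 2 * l)‖ ≤ m * Real.exp |τ - u.im| :=
          mul_le_mul (min_le_left _ _) b2 (norm_nonneg _) hm.le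
      _ ≤ _ := a1
  · rw [div_le_iff₀ p2]
    calc ‖Complex.sin (I * (τ : ℂ) - u - 3 * l)‖ ≤ Real.exp |τ - u.im| := b1
      _ = 1 / n * (n * Real.exp |τ - u.im|) := by field_simp
      _ ≤ max (1 / n) 1 * ‖Complex.sin (I * (τ : ℂ) - u + 2 * l)‖ :=
          mul_le_mul (le_max_left _ _) a2 (by positivity) (by positivity)

theorem hasDerivAt_lg1 {u : ℂ} {τ : ℝ} (h : InR u) :
    HasDerivAt (fun τ : ℝ => lg1 (I * τ) u) (-dl (hgt u - τ) * lg1 (I * τ) u) τ :=
  hasDerivAt_leg (ne1 h) (ne2 h)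

/-- **derivative of the leg factor of a constituent** -/
theorem hasDerivAt_lgK {c : Cst} {τ : ℝ} (h : PosOk c) :
    HasDerivAt (fun τ : ℝ => ap (lgK (I * τ)) c)
      (-(ap (csS fun z => dl (z - τ)) c) * ap (lgK (I * τ)) c) τ := by
  obtain ⟨⟨s, k⟩, u⟩ := c
  obtain ⟨h1, h2⟩ := h
  rcases k with _ | _ | _ | _
  · exact hasDerivAt_lg1 h1
  · exact hasDerivAt_lg1 h1
  · refine ((hasDerivAt_lg1 h1).mul (hasDerivAt_lg1 (h2 trivial))).congr_deriv ?_
    simp only [ap, csS, lgK]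
    ring
  · refine ((hasDerivAt_lg1 h1).mul (hasDerivAt_lg1 (h2 trivial))).congr_deriv ?_
    simp only [ap, csS, lgK]
    ring

theorem hasDerivAt_dls {u : ℂ} {τ : ℝ} (h : InR u) :
    HasDerivAt (fun τ : ℝ => dl (hgt u - τ)) (-dl2 (hgt u - τ)) τ := by
  have hl := NUMF.l_pos
  have im0 : (hgt u - (τ : ℂ)).im = (hgt u).im := by simp
  have d0 : HasDerivAt (fun τ : ℝ => hgt u - (τ : ℂ)) (-1) τ := by
    simpa using (Complex.ofRealCLM.hasDerivAt (x := τ)).const_sub (hgt u)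
  have d1 := (hasDerivAt_dl (z := hgt u - τ) (by rw [im0]; linarith [h.hgt1])
    (by rw [im0]; linarith [h.hgt2])).comp_of_eq τ d0 rfl
  refine d1.congr_deriv ?_
  ring

theorem hasDerivAt_csS {c : Cst} {τ : ℝ} (h : PosOk c) :
    HasDerivAt (fun τ : ℝ => ap (csS fun z => dl (z - τ)) c)
      (-(ap (csS fun z => dl2 (z - τ)) c)) τ := by
  obtain ⟨⟨s, k⟩, u⟩ := c
  obtain ⟨h1, h2⟩ := h
  rcases k with _ | _ | _ | _
  · exact hasDerivAt_dls h1
  · exact hasDerivAt_dls h1
  · refine ((hasDerivAt_dls h1).add (hasDerivAt_dls (h2 trivial))).congr_deriv ?_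
    simp only [ap, csS]
    ring
  · refine ((hasDerivAt_dls h1).add (hasDerivAt_dls (h2 trivial))).congr_deriv ?_
    simp only [ap, csS]
    ring

/-- the decay of the test functions of the legs -/
theorem dls_bd : ∃ C : ℝ, 1 ≤ C ∧ ∀ (τ : ℝ) (u : ℂ), InR u →
    ‖dl (hgt u - τ)‖ ≤ C * Real.exp (-(2 * |u.im - τ|)) ∧
    ‖dl2 (hgt u - τ)‖ ≤ C * Real.exp (-(2 * |u.im - τ|)) := by
  have hl := NUMF.l_pos
  obtain ⟨C, hC, hb⟩ := dl_bd (y1 := -(l / 2)) (y2 := 18 / 5 * l) (by linarith) (by linarith)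
  refine ⟨C + 1, by linarith, fun τ u hu => ?_⟩
  have im0 : (hgt u - (τ : ℂ)).im = (hgt u).im := by simp
  have re0 : (hgt u - (τ : ℂ)).re = u.im - τ := by
    rw [sub_re, hgt_re, ofReal_re]
  obtain ⟨h1, h2⟩ := hb (hgt u - τ) (by rw [im0]; exact hu.hgt1) (by rw [im0]; exact hu.hgt2)
  rw [re0] at h1 h2
  have hp := Real.exp_pos (-(2 * |u.im - τ|))
  constructor <;> nlinarith

/-! ### lists of constituents -/

theorem hasDerivAt_prodL {L : List Cst} {g : ℝ → Stt} {φ : Stt} {τ : ℝ}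
    (h : ∀ c ∈ L, HasDerivAt (fun τ => ap (g τ) c) (-(ap φ c) * ap (g τ) c) τ) :
    HasDerivAt (fun τ => (L.map (ap (g τ))).prod)
      (-((L.map (ap φ)).sum) * (L.map (ap (g τ))).prod) τ := by
  induction L with
  | nil => simpa using hasDerivAt_const τ (1 : ℂ)
  | cons c L ih =>
    have h1 := h c List.mem_cons_self
    have h2 := ih fun d hd => h d (List.mem_cons_of_mem _ hd)
    simp only [List.map_cons, List.prod_cons, List.sum_cons]
    refine (h1.mul h2).congr_deriv ?_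
    ring

theorem hasDerivAt_sumL {L : List Cst} {g : ℝ → Stt} {φ : Stt} {τ : ℝ}
    (h : ∀ c ∈ L, HasDerivAt (fun τ => ap (g τ) c) (-(ap φ c)) τ) :
    HasDerivAt (fun τ => (L.map (ap (g τ))).sum) (-((L.map (ap φ)).sum)) τ := by
  induction L with
  | nil => simpa using hasDerivAt_const τ (0 : ℂ)
  | cons c L ih =>
    have h1 := h c List.mem_cons_self
    have h2 := ih fun d hd => h d (List.mem_cons_of_mem _ hd)
    simp only [List.map_cons, List.sum_cons]
    refine (h1.add h2).congr_deriv ?_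
    ring

theorem norm_prodL {L : List Cst} {g : Stt} {B : ℝ} (hB : 1 ≤ B) (h : ∀ c ∈ L, ‖ap g c‖ ≤ B)
    {n : ℕ} (hn : L.length ≤ n) : ‖(L.map (ap g)).prod‖ ≤ B ^ n := by
  have key : ‖(L.map (ap g)).prod‖ ≤ B ^ L.length := by
    clear hn
    induction L with
    | nil => simp
    | cons c L ih =>
      rw [List.map_cons, List.prod_cons, norm_mul, List.length_cons, pow_succ']
      exact mul_le_mul (h c List.mem_cons_self) (ih fun d hd => h d (List.mem_cons_of_mem _ hd))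
        (norm_nonneg _) (by linarith)
  exact key.trans (pow_le_pow_right₀ hB hn)

theorem norm_prodL_ge {L : List Cst} {g : Stt} {b : ℝ} (hb : 0 < b) (hb1 : b ≤ 1)
    (h : ∀ c ∈ L, b ≤ ‖ap g c‖) {n : ℕ} (hn : L.length ≤ n) : b ^ n ≤ ‖(L.map (ap g)).prod‖ := by
  have key : b ^ L.length ≤ ‖(L.map (ap g)).prod‖ := by
    clear hn
    induction L with
    | nil => simp
    | cons c L ih =>
      rw [List.map_cons, List.prod_cons, norm_mul, List.length_cons, pow_succ']
      exact mul_le_mul (h c List.mem_cons_self) (ih fun d hd => h d (List.mem_cons_of_mem _ hd))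
        (by positivity) (norm_nonneg _)
  exact (pow_le_pow_of_le_one hb.le hb1 hn).trans key

theorem norm_sumL {L : List Cst} {g : Stt} {B : ℝ} (hB : 0 ≤ B) (h : ∀ c ∈ L, ‖ap g c‖ ≤ B)
    {n : ℕ} (hn : L.length ≤ n) : ‖(L.map (ap g)).sum‖ ≤ n * B := by
  have key : ‖(L.map (ap g)).sum‖ ≤ L.length * B := by
    clear hn
    induction L with
    | nil => simp
    | cons c L ih =>
      rw [List.map_cons, List.sum_cons, List.length_cons]
      refine (norm_add_le _ _).trans ?_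
      have h1 := h c List.mem_cons_self
      have h2 := ih fun d hd => h d (List.mem_cons_of_mem _ hd)
      push_cast
      linarith
  have h3 : (L.length : ℝ) ≤ n := by exact_mod_cast hn
  exact key.trans (mul_le_mul_of_nonneg_right h3 hB)

/-! ### the constituents of a configuration -/

variable {Pm : NUO.Par} {r a b : ℕ}

theorem vl_re' (x t : ℝ) : (vl x t).re = x := by simp [vl]

theorem vl_im' (x t : ℝ) : (vl x t).im = t := by simp [vl]

theorem str_ok {v : ℂ} (h1 : -(8 / 5 * l) ≤ v.re) (h2 : v.re ≤ 3 / 2 * l) :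
    InR v ∧ InR (v - l) := by
  have hl := NUMF.l_pos
  have e : (v - (l : ℂ)).re = v.re - l := by simp
  refine ⟨⟨by linarith, h2⟩, ?_, ?_⟩ <;> rw [e] <;> linarith

/-- the constituents of an object -/
theorem posOk_cst {jL e ρ : ℝ} (j1 : 2 < jL) (j2 : jL < 3) (e1 : 1 / 10 ≤ e) (e2 : e ≤ 3 / 5)
    (r1 : 0 < ρ) (r2 : ρ ≤ l / 16) (x : Xo) : ∀ c ∈ cst jL e ρ x, PosOk c := by
  have hl := NUMF.l_pos
  have hl1 : NUP1.l = l := rfl
  have hS : (posS e (ht x)).re = -((1 + e) * l) := by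
    unfold posS
    rw [vl_re', hl1]
  have hSok := str_ok (v := posS e (ht x)) (by rw [hS]; nlinarith) (by rw [hS]; nlinarith)
  intro c hc
  unfold cst at hc
  rcases hk : kd x with _ | _ | _ | _ | _ <;> rw [hk] at hc <;>
    simp only [List.mem_cons, List.not_mem_nil, or_false] at hc
  · subst hc
    refine ⟨⟨?_, ?_⟩, fun h => h.elim⟩
    · show _ ≤ (vl ((1 - jL) * NUP1.l) _).re
      rw [vl_re', hl1]
      nlinarith
    · show (vl ((1 - jL) * NUP1.l) _).re ≤ _
      rw [vl_re', hl1]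
      nlinarith
  · subst hc
    have hT : (posT (ht x)).re = -(1 / 2 * l) := by
      unfold posT
      rw [vl_re', hl1]
    have := str_ok (v := posT (ht x)) (by rw [hT]; linarith) (by rw [hT]; linarith)
    exact ⟨this.1, fun _ => this.2⟩
  · subst hc
    exact ⟨hSok.1, fun _ => hSok.2⟩
  · rcases hc with rfl | rfl
    · exact ⟨hSok.1, fun _ => hSok.2⟩
    · refine ⟨?_, fun h => h.elim⟩
      have hcos : |ρ * Real.cos (2 * Real.pi * an x)| ≤ l / 16 := by
        rw [abs_mul, abs_of_pos r1]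
        have := Real.abs_cos_le_one (2 * Real.pi * an x)
        nlinarith
      obtain ⟨c1, c2⟩ := abs_le.1 hcos
      have hV := posV_re59 e ρ (ht x) (an x)
      rw [hl1] at hV
      constructor
      · show _ ≤ (posV e ρ (ht x) (an x)).re
        rw [hV]
        nlinarith
      · show (posV e ρ (ht x) (an x)).re ≤ _
        rw [hV]
        nlinarith
  · have h2 : InR (posS e (ht x) + 2 * NUP1.l) := by
      have e0 : (posS e (ht x) + 2 * (NUP1.l : ℂ)).re = (posS e (ht x)).re + 2 * l := by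
        rw [← hl1]
        simp
      constructor <;> rw [e0, hS] <;> nlinarith
    rcases hc with rfl | rfl | rfl
    · exact ⟨hSok.1, fun _ => hSok.2⟩
    · exact ⟨h2, fun h => h.elim⟩
    · exact ⟨h2, fun h => h.elim⟩

theorem posOk_ob (hP : GoodP Pm) (O : Fin r → Xo) (i : Fin r) :
    ∀ c ∈ cst Pm.jL (ei Pm O i) (rr Pm O i) (O i), PosOk c := by
  obtain ⟨e1, e2⟩ := ei_mem59 hP O i
  obtain ⟨r1, r2⟩ := rr_mem hP O i
  exact posOk_cst hP.j1 hP.j2 e1 e2 r1 r2 (O i)

theorem pA_re (η : ℝ → ℝ) (t : ℝ) : (NUO.pA η t).re = l - η t := by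
  unfold NUO.pA
  rw [vl_re']
  rfl

theorem pA_im (η : ℝ → ℝ) (t : ℝ) : (NUO.pA η t).im = t := by
  unfold NUO.pA
  rw [vl_im']

theorem InR_pA {η : ℝ → ℝ} (hη : ∀ t, |η t| ≤ l / 2) (t : ℝ) : InR (NUO.pA η t) := by
  have hl := NUMF.l_pos
  obtain ⟨h1, h2⟩ := abs_le.1 (hη t)
  constructor <;> rw [pA_re] <;> linarith

/-- **the constituents of a configuration** -/
theorem posOk_csA (hP : GoodP Pm) {η : ℝ → ℝ} (hη : ∀ t, |η t| ≤ l / 2) (O : Fin r → Xo)
    (x : (Fin a → ℝ) × (Fin b → ℝ)) : ∀ c ∈ csA Pm η O x, PosOk c := by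
  intro c hc
  unfold csA at hc
  rw [List.mem_append, List.mem_append, List.mem_flatten] at hc
  rcases hc with ⟨L, hL, hcL⟩ | hc | hc
  · rw [List.mem_ofFn'] at hL
    obtain ⟨i, rfl⟩ := hL
    exact posOk_ob hP O i c hcL
  · rw [List.mem_ofFn'] at hc
    obtain ⟨i, rfl⟩ := hc
    exact ⟨InR_pA hη _, fun h => h.elim⟩
  · rw [List.mem_ofFn'] at hc
    obtain ⟨i, rfl⟩ := hc
    exact ⟨InR_pA hη _, fun h => h.elim⟩

end PBLg

end
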