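import Pool.Agent.PB.FNeq
import Pool.Agent.PB.F0Ln
import Pool.Agent.PB.I1A
import Pool.Agent.PB.ZFamR

/-!
# Plan B: the first Ward identity of the dislocated function, one moved row

Rows `rwx a η = (i η, 0, .., 0)` (`a + 1` rows), cutoff points `rows ++ [vx 0, vx 1]` (quanta), `rows`
(strings), legs at `z`; `ZR` of `PB/ZFamR`.

* `ZR_ZL`: `ZR` is the family `ZL` of `PB/FNeq`;
* `F0_DZ`: the functional `F0 .. [1]` of the straight lines is the state sum;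
* `fx_F0`: `fx a (i η) z = Pf * ∑ n, F0 (ZR η) n n [1]`;
* `fx_I1`: the first Ward identity of `fx`, from `FFam` and the normaliser `Num`.
-/

set_option autoImplicit false
set_option linter.unusedSectionVars false

noncomputable section

open Complex MeasureTheory Filter Topology Finset

namespace PBZF

open NUP1 NUP1S NUP1.Bd NURow PB
open PBX (XX ph gP Lg ZL DZ Rws)
open PBI
open Pool.Agent.PB (nz fN fx Pf)

variable {P : NUO.Par} {b : ℝ} {a : ℕ} {z0 : ℂ} {η0 : ℝ} {v : Fin 2 → ℂ}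

theorem Rws_rwx (a : ℕ) (η : ℝ) : Rws (rwx a (η : ℂ)) := fun i => by
  rw [rwx_re0, abs_zero]
  have := Bd.l_pos
  linarith

/-- the family is 4's family -/
theorem ZR_ZL (b : ℝ) (a : ℕ) (z0 : ℂ) (η0 : ℝ) (v : Fin 2 → ℂ) (η : ℝ) :
    ZR (fun _ => Leg.cc (a + 1)) b a z0 η0 v η =
      ZL b (rwx a (η : ℂ)) [vx η0 v (η : ℂ) 0, vx η0 v (η : ℂ) 1] [] z0 := rfl

/-- the extra points of the cutoff are in the strip for `η` near `η0` -/
theorem vx_ev (η0 : ℝ) (v : Fin 2 → ℂ) :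
    ∀ᶠ η : ℝ in 𝓝 η0, ∀ i, |(vx η0 v (η : ℂ) i).re| ≤ l / 2 := by
  have hl := Bd.l_pos
  have h : ∀ i, ∀ᶠ η : ℝ in 𝓝 η0, |(vx η0 v (η : ℂ) i).re| ≤ l / 2 := by
    intro i
    have hc : Continuous fun η : ℝ => |(vx η0 v (η : ℂ) i).re| := by
      have : Continuous fun η : ℝ => vx η0 v (η : ℂ) i := by
        unfold vx
        refine Fin.cases ?_ (fun j => ?_) i
        · simp only [Matrix.cons_val_zero]
          fun_prop
        · have hj : j = 0 := Subsingleton.elim _ _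
          subst hj
          simp only [Matrix.cons_val_succ, Matrix.cons_val_zero]
          fun_prop
      exact (Complex.continuous_re.comp this).abs
    have h0 : |(vx η0 v (η0 : ℂ) i).re| < l / 2 := by
      have : (vx η0 v (η0 : ℂ) i).re = 0 := by
        unfold vx
        refine Fin.cases ?_ (fun j => ?_) i
        · simp
        · have hj : j = 0 := Subsingleton.elim _ _
          subst hj
          simp
      rw [this, abs_zero]
      linarith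
    filter_upwards [hc.continuousAt.eventually_lt continuousAt_const h0] with η hη
    exact hη.le
  exact Filter.eventually_all.2 h

theorem ex_vx {η : ℝ} (h : ∀ i, |(vx η0 v (η : ℂ) i).re| ≤ l / 2) :
    ∀ w ∈ [vx η0 v (η : ℂ) 0, vx η0 v (η : ℂ) 1], |w.re| ≤ l / 2 := by
  intro w hw
  simp only [List.mem_cons, List.not_mem_nil, or_false] at hw
  rcases hw with rfl | rfl
  · exact h 0
  · exact h 1

/-- **the functional of the straight lines is the state sum** -/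
theorem F0_DZ (hP : NUGC.ParC P) (hb : 0 < b) (hb' : b ≤ 4 / 3) (hz : Lz z0) {η : ℝ}
    (hv : ∀ i, |(vx η0 v (η : ℂ) i).re| ≤ l / 2) (n : ℕ) :
    F0 (3 / 5 * l) n n (fl P) (ZR (fun _ => Leg.cc (a + 1)) b a z0 η0 v η) (fun _ _ _ _ => 1) =
      DZ (Leg.cc (a + 1)) (Leg.cc (a + 1)) (Lg z0 z0) (Lg z0 z0) (rwx a (η : ℂ))
        (rwx a (η : ℂ)) n := by
  have hl := Bd.l_pos
  obtain ⟨z1, z2⟩ := hz
  have hx := Rws_rwx a η
  have hex := ex_vx hv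
  have hex0 : ∀ w ∈ ([] : List ℂ), |w.re| ≤ l / 2 := fun w hw => by simp at hw
  have hg := PBX.GOk.gP hb hb' hex
  have hg0 := PBX.GOk.gP (β := 4 / 3) (by norm_num) le_rfl hex0
  have L : LnH (lX P) (lY P) := LnH_P hP.goodP hP.j1 hP.j2 fun r => by
    have h3 := hP.e2 r
    have h4 := hP.d0 r
    linarith
  have e := PBX.DZ_cls (c := Leg.cc (a + 1)) (c' := Leg.cc (a + 1)) (s := Lg z0 z0)
    (t := Lg z0 z0) hb hb' hx hx
    (g := gP b [vx η0 v (η : ℂ) 0, vx η0 v (η : ℂ) 1])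
    (g' := gP b [vx η0 v (η : ℂ) 0, vx η0 v (η : ℂ) 1]) (g0 := gP (4 / 3) [])
    (g0' := gP (4 / 3) []) hg hg hg0 hg0 (PBX.Lg_SpA (by linarith) (by linarith))
    (PBX.Lg_SpA (by linarith) (by linarith)) (PBX.Lg_SpecQ true (by linarith) (by linarith))
    (PBX.Lg_SpecQ false (by linarith) (by linarith)) n (lX P) (lY P) L.hX L.hY
  rw [e, ZR_ZL]
  exact F0_ZobjQ (Q := 0) hP.goodQ (by linarith) (by linarith : (0 : ℝ) < 2 * b)
    (fun s k => PBX.measurable_ZL b _ _ _ z0 s k)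
    (by
      rw [Int.cast_zero]
      exact PBX.decZ_ZL hP hb hb' hx hex hex0 (by linarith) (by linarith)) (by simp)

/-- **the function at one moved row is the functional of the straight lines** -/
theorem fx_F0 (hP : NUGC.ParC P) (hb : 0 < b) (hb' : b ≤ 4 / 3) (hz : Lz z0) {η : ℝ}
    (hv : ∀ i, |(vx η0 v (η : ℂ) i).re| ≤ l / 2) :
    fx a ((η : ℂ) * I) z0 = Pf z0 (rwx a (η : ℂ)) (rwx a (η : ℂ)) *
      ∑ n ∈ range (2 * (a + 1) + 1),
        F0 (3 / 5 * l) n n (fl P) (ZR (fun _ => Leg.cc (a + 1)) b a z0 η0 v η)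
          (fun _ _ _ _ => 1) := by
  have hl := Bd.l_pos
  have hz' := hz
  obtain ⟨z1, z2⟩ := hz'
  show fN (rwx a (η : ℂ)) z0 = _
  rw [Pool.Agent.PB.fN_right (Rws_rwx a η) ⟨by linarith, by linarith⟩]
  unfold Pool.Agent.PB.nz
  congr 1
  refine Finset.sum_congr rfl fun n _ => ?_
  rw [F0_DZ hP hb hb' hz hv n]
  rfl

/-! ### the first Ward identity -/

theorem FdOk.mono {ι : Type} [Fintype ι] {c : ι → Bool × Option O3} {x : ι → ℝ} {B B' : ℝ}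
    {Ξ Ξ' : Bool × Option O3 → ℂ → ℂ} (h : FdOk c x B Ξ Ξ') (hB : B ≤ B') : FdOk c x B' Ξ Ξ' where
  d := h.d
  b i t := (h.b i t).trans hB
  b' i t := (h.b' i t).trans hB

theorem FFam.mono {α : ℝ} {n : ℕ} {L : PBI.Lns} {B B' : ℝ} {Ξ Ξ' : PBI.Kd → ℂ → ℂ}
    {A : PBI.Kd → PBI.Kd → ℂ → ℂ → ℂ} {ρ : PBI.Kd → ℝ → ℂ} {κr r1 lam : PBI.Kd → ℂ → ℂ}
    (h : FFam α n L B Ξ Ξ' A ρ κr r1 lam) (hB : B ≤ B') : FFam α n L B' Ξ Ξ' A ρ κr r1 lam where
  hB := h.hB.trans hB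
  hΞ p p' k k' h1 h2 := FdOk.mono (h.hΞ p p' k k' h1 h2) hB
  hmΞ := h.hmΞ
  hmΞ' := h.hmΞ'
  ha := h.ha
  has := h.has
  had := h.had
  hI1 := h.hI1
  hI2 := h.hI2
  hE := h.hE
  hC := h.hC
  hCv := h.hCv
  mκ := h.mκ
  mr := h.mr
  ml := h.ml
  bd p p' k k' h1 h2 i t := (h.bd p p' k k' h1 h2 i t).trans hB

/-- one constant for finitely many numbers of quanta -/
theorem FFam.unif {α : ℝ} {S : Finset ℕ} {L : PBI.Lns} {Ξ Ξ' : PBI.Kd → ℂ → ℂ}
    {A : PBI.Kd → PBI.Kd → ℂ → ℂ → ℂ} {ρ : PBI.Kd → ℝ → ℂ} {κr r1 lam : PBI.Kd → ℂ → ℂ}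
    (h : ∀ n ∈ S, ∃ B, FFam α n L B Ξ Ξ' A ρ κr r1 lam) :
    ∃ B, ∀ n ∈ S, FFam α n L B Ξ Ξ' A ρ κr r1 lam := by
  choose! f hf using h
  refine ⟨∑ m ∈ S, |f m|, fun n hn => FFam.mono (hf n hn) ?_⟩
  exact (le_abs_self _).trans (Finset.single_le_sum (f := fun m => |f m|)
    (fun m _ => abs_nonneg _) hn)

/-- **The first Ward identity of the function at one moved row.** -/
theorem fx_I1 (hP : NUGC.ParC P) (hb : 0 < b) (hb' : b ≤ 4 / 3) (hz : Lz z0)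
    {Ξ Ξ' : PBI.Kd → ℂ → ℂ} {A : PBI.Kd → PBI.Kd → ℂ → ℂ → ℂ} {ρ : PBI.Kd → ℝ → ℂ} {κr r1 lam : PBI.Kd → ℂ → ℂ}
    (hF : ∀ n ∈ range (2 * (a + 1) + 1), ∃ B,
      FFam (3 / 5 * l) n (fl P) B Ξ Ξ' A ρ κr r1 lam) {Pf' : ℂ}
    (hPf : HasDerivAt (fun η : ℝ => Pf z0 (rwx a (η : ℂ)) (rwx a (η : ℂ))) Pf' η0)
    (hN : Pf' + Pf z0 (rwx a (η0 : ℂ)) (rwx a (η0 : ℂ)) * (C0 ρ r1 + C1 ρ Ξ lam) = 0) :
    HasDerivAt (fun η : ℝ => fx a ((η : ℂ) * I) z0)
      (Pf z0 (rwx a (η0 : ℂ)) (rwx a (η0 : ℂ)) * ∑ n ∈ range (2 * (a + 1) + 1),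
        (F0 (3 / 5 * l) n n (fl P) (ZR (fun _ => Leg.cc (a + 1)) b a z0 η0 v η0)
            (nuW ρ A Ξ lam) +
          F0D (3 / 5 * l) n n (fl P) (ZR (fun _ => Leg.cc (a + 1)) b a z0 η0 v η0)
            (Zcut (ZR (fun _ => Leg.cc (a + 1)) b a z0 η0 v η0)
              (ZdR (fun _ => Leg.cc (a + 1)) b a z0 η0 v η0)
              (ZpR (fun _ => Leg.cc (a + 1)) b a z0 η0 v) Ξ κr r1 lam))) η0 := by
  obtain ⟨D, hD, hZ⟩ := exists_zfam_P (fun _ => Leg.cc (a + 1)) a η0 v hb hb' hz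
  obtain ⟨B, hF⟩ := FFam.unif hF
  have key := I1A (S := range (2 * (a + 1) + 1))
    (Pf := fun η : ℝ => Pf z0 (rwx a (η : ℂ)) (rwx a (η : ℂ)))
    (fun n _ => hZ P hP n) hF hPf hN
  refine key.congr_of_eventuallyEq ?_
  filter_upwards [vx_ev η0 v] with η hη
  exact fx_F0 hP hb hb' hz hη

end PBZF

end
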