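import Pool.Agent.PB.ZcB
import Pool.Agent.PB.CutZ
import Pool.Agent.PB.ObZX

/-!
# Plan B: the cut term at the rows `x :: 0 ^ k`: the hypotheses of `PBI.cut_le` (helper17)

**`zcOk_X`**: `PBI.ZcOk` for `XX`, `ZcX` from `CutH`; **`zcOk_leg`**: with legs at `z`.
-/

set_option autoImplicit false
set_option linter.unusedVariables false
set_option linter.unusedSectionVars false

noncomputable section

open Complex Set

namespace PBC

open NUP1 NUP1S NUP1S.AbC NURow NUO NUGC PBX PBFar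

variable {m : ℕ} {b : ℝ} {k : ℕ} {x v : ℂ} {ξe : ℝ → ℂ} {X : ℂ → ℂ} {cc : ℝ} {M : ℝ → ℝ} {ep : ℝ}
  {y : Fin m → ℂ} {s1 s2 : Bool → ℂ → ℂ} {c : Bool → ℂ} {c0 : ℝ} {P : NUO.Par} {E : Set ℝ} {q : ℤ}

/-- rows near `0` are bounded on the lines of `St` -/
theorem norm_RR_T {h0 : ℝ} (hy : ∀ i, PBO.PtZ h0 (y i)) (c : ℂ) {u : ℂ} (h1 : -(5 / 2 * l) ≤ u.re)
    (h2 : u.re ≤ l) (h3 : 3 / 10 * l ≤ |u.re|) : ‖RR c y y u‖ ≤ ‖c‖ * PBO.cR ^ m := by
  rw [norm_RR]
  refine mul_le_mul_of_nonneg_left ?_ (norm_nonneg _)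
  calc ∏ i, rwC (y i) u ≤ ∏ _i : Fin m, PBO.cR :=
        Finset.prod_le_prod (fun i _ => rwC_nonneg _ _) fun i _ => by
          rw [PBO.rwC_eq_X]
          exact PBO.rwC_Z (hy i) h1 h2 h3
    _ = _ := by simp

/-- **the hypotheses of the cut estimate** -/
theorem zcOk_X {h0 s δ : ℝ} (hP : ParC P) (hj : P.jL ≤ 5 / 2) (hδ : δ ≤ 1 / 20)
    (hH : Hyp b s) (hs : (3 / 2 + δ) * l ≤ s) (hr : Rws y) (hr' : ∀ i, PBO.PtZ h0 (y i))
    (hx : |x.re| ≤ l / 2)
    (hy : List.ofFn y = x :: List.replicate k 0) {C0 : ℝ}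
    (hF : FlX k C0 X ξe) (hm1 : ∀ a, Measurable (s1 a)) (hm2 : ∀ a, Measurable (s2 a))
    (hd : ∀ a (u : ℂ), 3 / 5 * l ≤ u.re → u.re ≤ (1 + δ) * l → DifferentiableAt ℂ (s1 a) u)
    {S2 : ℝ} (hS2 : ∀ a t, ‖s2 a (posT t)‖ ≤ S2) {D0 κ : ℝ}
    (hM : ∀ t, M t ≤ D0 * Real.exp (-(κ * |t|))) (h : CutH b k x v ξe X cc M δ) :
    ∃ D, PBI.ZcOk (fun a => XX (c a) b y y (gP b [I, -I]) (gP (4 / 3) []) (s1 a) (s2 a))
      (fun a => ZcX (c a) y b k x v ξe X (s1 a) (s2 a)) P (3 / 5 * l) κ δ cc D := by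
  have hl := Bd.l_pos
  have hcR : 0 < PBO.cR := PBO.cR_pos'
  have hS0 : 0 ≤ S2 := (norm_nonneg _).trans (hS2 true 0)
  have hD0 : 0 ≤ D0 := by
    have := (h.M0 0).trans (hM 0)
    simpa using this
  refine ⟨(‖c true‖ + ‖c false‖) ^ 2 * PBO.cR ^ m * PBO.cR ^ m * S2 * D0,
    fun a o => zc_meas hF.me hm1 hm2 a o, fun a u u1 u2 => ?_, fun a u u1 u2 => ?_,
    fun a u hu => ?_, fun a r i hi u hu => ?_, fun a t => ?_⟩
  · exact zc_diff hH hy hF hr hx a u1 (u2.trans (by nlinarith)) (by nlinarith) (hd a u u1 u2)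
  · exact zc_A hy h a (by linarith) u2
  · have j1 := hP.j1
    exact zc_L hy h a (by rw [hu]; nlinarith) (by rw [hu]; nlinarith)
  · have hi' : (i : ℝ) / r ≤ 1 := by
      have hr : (0 : ℝ) < r := by exact_mod_cast (Nat.zero_le i).trans_lt hi
      rw [div_le_one hr]
      exact_mod_cast hi.le
    have hi0 : (0 : ℝ) ≤ (i : ℝ) / r := by positivity
    have e1 := hP.e1
    have e2 := hP.e2 r
    have d0 := hP.d0 r
    have hre : u.re = -((1 + (P.e + P.d r * ((i : ℝ) / r))) * l) := hu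
    have k1 : P.d r * ((i : ℝ) / r) ≤ P.d r := by nlinarith
    have k2 : 0 ≤ P.d r * ((i : ℝ) / r) := by positivity
    exact zc_S hy h a (by rw [hre]; nlinarith) (by rw [hre]; nlinarith)
  · have r1 : (posT t).re = -(1 / 2 * l) := posT_re t
    have r2 : (posT t - l).re = -(3 / 2 * l) := by
      rw [sub_re, r1, ofReal_re]
      ring
    have a1 := norm_RR_T hr' (c a) (u := posT t) (by rw [r1]; linarith) (by rw [r1]; linarith)
      (by rw [r1, abs_neg, abs_of_pos (by positivity)]; linarith)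
    have a2 := norm_RR_T hr' (c a) (u := posT t - l) (by rw [r2]; linarith) (by rw [r2]; linarith)
      (by rw [r2, abs_neg, abs_of_pos (by positivity)]; linarith)
    have hca : ‖c a‖ ≤ ‖c true‖ + ‖c false‖ := by
      cases a
      · linarith [norm_nonneg (c true)]
      · linarith [norm_nonneg (c false)]
    show ‖RR (c a) y y (posT t) * RR (c a) y y (posT t - l) *
      DT b k x v ξe (X (posT t + 2 * l)) (posT t) * s2 a (posT t)‖ ≤ _
    rw [norm_mul, norm_mul, norm_mul]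
    have hT := (h.T t).trans (hM t)
    have hs := hS2 a t
    calc _ ≤ ((‖c true‖ + ‖c false‖) * PBO.cR ^ m) * ((‖c true‖ + ‖c false‖) * PBO.cR ^ m) *
          (D0 * Real.exp (-(κ * |t|))) * S2 := by
          gcongr
          · exact a1.trans (mul_le_mul_of_nonneg_right hca (by positivity))
          · exact a2.trans (mul_le_mul_of_nonneg_right hca (by positivity))
      _ = _ := by ring

end PBC

end
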