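import Mathlib

/-!
# Zeros at generic rows give a zero of high order at coinciding rows (helper71)

`D x y`: analytic in `x`, continuous in the rows `y : Fin M → ℂ`; for generic rows (`y ∈ S`, pairwise
different) it vanishes at each row.  Then `D x 0 = x ^ M * Q x`, `Q` analytic.
-/

set_option autoImplicit false

noncomputable section

open Complex Set Filter Topology Metric

namespace Pool.Agent.PB

/-- zeros at pairwise different points can be divided out -/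
theorem exists_div {R : ℝ} {f : ℂ → ℂ} (hf : DifferentiableOn ℂ f (ball 0 R)) (s : Finset ℂ)
    (hs : ∀ a ∈ s, a ∈ ball (0 : ℂ) R ∧ f a = 0) :
    ∃ q : ℂ → ℂ, DifferentiableOn ℂ q (ball 0 R) ∧ ∀ x, f x = (∏ a ∈ s, (x - a)) * q x := by
  induction s using Finset.induction_on with
  | empty => exact ⟨f, hf, fun x => by simp⟩
  | insert a s ha ih =>
    obtain ⟨q, hq, hfq⟩ := ih fun b hb => hs b (Finset.mem_insert_of_mem hb)
    obtain ⟨haR, hfa⟩ := hs a (Finset.mem_insert_self a s)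
    have hqa : q a = 0 := by
      have h1 := hfq a
      rw [hfa] at h1
      rcases mul_eq_zero.1 h1.symm with h | h
      · obtain ⟨b, hb, h2⟩ := Finset.prod_eq_zero_iff.1 h
        exact absurd (sub_eq_zero.1 h2 ▸ hb) ha
      · exact h
    refine ⟨dslope q a, (differentiableOn_dslope (isOpen_ball.mem_nhds haR)).2 hq, fun x => ?_⟩
    rw [Finset.prod_insert ha, mul_right_comm, hfq x]
    have h3 : (x - a) * dslope q a x = q x := by
      have h4 := sub_smul_dslope q a x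
      rw [hqa, sub_zero, smul_eq_mul] at h4
      exact h4
    rw [← h3]
    ring

/-- the quotient is bounded by the maximum principle -/
theorem quot_le {R r B δ : ℝ} (hrR : r < R) (hδ0 : 0 ≤ δ) (hδ : δ < r) {q : ℂ → ℂ} (hq : DifferentiableOn ℂ q (ball 0 R))
    {f : ℂ → ℂ} (s : Finset ℂ) (hs : ∀ a ∈ s, ‖a‖ ≤ δ) (hfq : ∀ x, f x = (∏ a ∈ s, (x - a)) * q x)
    (hB : ∀ x, ‖x‖ = r → ‖f x‖ ≤ B) {x : ℂ} (hx : ‖x‖ ≤ r) : ‖q x‖ ≤ B / (r - δ) ^ s.card := by
  have hr : 0 < r := lt_of_le_of_lt hδ0 hδ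
  have hsub : closedBall (0 : ℂ) r ⊆ ball 0 R := closedBall_subset_ball hrR
  have hd : DiffContOnCl ℂ q (ball 0 r) := by
    refine DifferentiableOn.diffContOnCl ?_
    rw [closure_ball _ hr.ne']
    exact hq.mono hsub
  refine Complex.norm_le_of_forall_mem_frontier_norm_le isBounded_ball hd (fun z hz => ?_)
    (by rw [closure_ball _ hr.ne']; simpa using hx)
  rw [frontier_ball _ hr.ne', mem_sphere_zero_iff_norm] at hz
  have h1 : (r - δ) ^ s.card ≤ ‖∏ a ∈ s, (z - a)‖ := by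
    rw [norm_prod, ← Finset.prod_const]
    refine Finset.prod_le_prod (fun _ _ => by linarith) fun a ha => ?_
    have h2 := norm_sub_norm_le z a
    have h3 := hs a ha
    rw [hz] at h2
    linarith
  have h4 : 0 < (r - δ) ^ s.card := pow_pos (by linarith) _
  rw [le_div_iff₀ h4]
  calc ‖q z‖ * (r - δ) ^ s.card ≤ ‖q z‖ * ‖∏ a ∈ s, (z - a)‖ :=
        mul_le_mul_of_nonneg_left h1 (norm_nonneg _)
    _ = ‖f z‖ := by rw [hfq z, norm_mul, mul_comm]
    _ ≤ B := hB z hz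

/-- an analytic function with `‖f x‖ ≤ C ‖x‖ ^ M` near 0 is `x ^ M` times an analytic function -/
theorem exists_pow {R : ℝ} (hR : 0 < R) (M : ℕ) : ∀ {f : ℂ → ℂ} {C r : ℝ}, DifferentiableOn ℂ f (ball 0 R) →
    0 < r → (∀ x, ‖x‖ < r → ‖f x‖ ≤ C * ‖x‖ ^ M) →
    ∃ Q : ℂ → ℂ, DifferentiableOn ℂ Q (ball 0 R) ∧ ∀ x, f x = x ^ M * Q x := by
  induction M with
  | zero => exact fun {f} _ _ hf _ _ => ⟨f, hf, fun x => by simp⟩
  | succ M ih =>
    intro f C r hf hr h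
    have h0 : f 0 = 0 := by
      have h1 := h 0 (by simpa using hr)
      rw [norm_zero, zero_pow (by omega), mul_zero] at h1
      exact norm_le_zero_iff.1 h1
    set g := dslope f 0 with hg
    have hgd : DifferentiableOn ℂ g (ball 0 R) :=
      (differentiableOn_dslope (isOpen_ball.mem_nhds (mem_ball_self hR))).2 hf
    have hfg : ∀ x, f x = x * g x := fun x => by
      have h4 := sub_smul_dslope f 0 x
      rw [h0, sub_zero, sub_zero, smul_eq_mul] at h4
      exact h4.symm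
    have hgb : ∀ x, ‖x‖ < r → ‖g x‖ ≤ C * ‖x‖ ^ M := by
      have key : ∀ x, ‖x‖ < r → x ≠ 0 → ‖g x‖ ≤ C * ‖x‖ ^ M := by
        intro x hx hx0
        have hx0' : 0 < ‖x‖ := norm_pos_iff.2 hx0
        have h8 := h x hx
        rw [hfg x, norm_mul, pow_succ] at h8
        have h9 : ‖x‖ * ‖g x‖ ≤ ‖x‖ * (C * ‖x‖ ^ M) := by linarith [h8, mul_comm (‖x‖ ^ M) ‖x‖, mul_left_comm C (‖x‖) (‖x‖ ^ M)]
        exact le_of_mul_le_mul_left h9 hx0'
      intro x hx
      by_cases hx0 : x = 0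
      · subst hx0
        have hc : ContinuousAt g 0 :=
          (hgd.differentiableAt (isOpen_ball.mem_nhds (mem_ball_self hR))).continuousAt
        have h5 : Tendsto (fun x => ‖g x‖) (𝓝[≠] (0 : ℂ)) (𝓝 ‖g 0‖) := hc.norm.tendsto.mono_left inf_le_left
        have h6 : Tendsto (fun x : ℂ => C * ‖x‖ ^ M) (𝓝[≠] (0 : ℂ)) (𝓝 (C * ‖(0 : ℂ)‖ ^ M)) :=
          ((continuous_const.mul (continuous_norm.pow M)).tendsto 0).mono_left inf_le_left
        refine le_of_tendsto_of_tendsto h5 h6 ?_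
        have h7 : ∀ᶠ x in 𝓝[≠] (0 : ℂ), ‖x‖ < r := by
          have : ∀ᶠ x in 𝓝 (0 : ℂ), ‖x‖ < r := by
            filter_upwards [ball_mem_nhds (0 : ℂ) hr] with x hx
            simpa using hx
          exact this.filter_mono inf_le_left
        filter_upwards [h7, self_mem_nhdsWithin] with x hx hx0
        exact key x hx hx0
      · exact key x hx hx0
    obtain ⟨Q, hQ, hgQ⟩ := ih hgd hr hgb
    exact ⟨Q, hQ, fun x => by rw [hfg x, hgQ x]; ring⟩

/-- **zeros at generic rows: zero of order `M` at coinciding rows** (`S` = the generic rows) -/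
theorem zero_order {R r B : ℝ} (hr : 0 < r) (hrR : r < R) {M : ℕ} {S : Set (Fin M → ℂ)}
    (h0 : (0 : Fin M → ℂ) ∈ closure S) (hinj : ∀ y ∈ S, Function.Injective y) {D : ℂ → (Fin M → ℂ) → ℂ}
    (hD : ∀ y ∈ S, DifferentiableOn ℂ (fun x => D x y) (ball 0 R))
    (hD0 : DifferentiableOn ℂ (fun x => D x 0) (ball 0 R))
    (hB : ∀ᶠ y in 𝓝[S] (0 : Fin M → ℂ), ∀ x, ‖x‖ = r → ‖D x y‖ ≤ B)
    (hc : ∀ x, ‖x‖ < r → Tendsto (fun y => D x y) (𝓝[S] 0) (𝓝 (D x 0)))
    (hz : ∀ᶠ y in 𝓝[S] (0 : Fin M → ℂ), ∀ j, D (y j) y = 0) :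
    ∃ Q : ℂ → ℂ, DifferentiableOn ℂ Q (ball 0 R) ∧ ∀ x, D x 0 = x ^ M * Q x := by
  have hne : (𝓝[S] (0 : Fin M → ℂ)).NeBot := mem_closure_iff_nhdsWithin_neBot.1 h0
  refine exists_pow (hr.trans hrR) M (C := B / (r / 2) ^ M) hD0 hr fun x hx => ?_
  have h1 : Tendsto (fun y : Fin M → ℂ => ‖D x y‖) (𝓝[S] 0) (𝓝 ‖D x 0‖) := (hc x hx).norm
  have h2 : Tendsto (fun y : Fin M → ℂ => B / (r / 2) ^ M * ‖∏ j, (x - y j)‖) (𝓝[S] 0)
      (𝓝 (B / (r / 2) ^ M * ‖x‖ ^ M)) := by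
    have h3 : Continuous fun y : Fin M → ℂ => B / (r / 2) ^ M * ‖∏ j, (x - y j)‖ := by fun_prop
    have h4 : Tendsto (fun y : Fin M → ℂ => B / (r / 2) ^ M * ‖∏ j, (x - y j)‖) (𝓝[S] 0)
        (𝓝 (B / (r / 2) ^ M * ‖∏ j, (x - (0 : Fin M → ℂ) j)‖)) := (h3.tendsto 0).mono_left inf_le_left
    have h5 : ‖∏ j, (x - (0 : Fin M → ℂ) j)‖ = ‖x‖ ^ M := by simp
    rwa [h5] at h4
  refine le_of_tendsto_of_tendsto h1 h2 ?_
  have h5 : ∀ᶠ y in 𝓝[S] (0 : Fin M → ℂ), ∀ j, ‖y j‖ < r / 2 := by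
    have : ∀ᶠ y in 𝓝 (0 : Fin M → ℂ), ∀ j, ‖y j‖ < r / 2 := by
      filter_upwards [ball_mem_nhds (0 : Fin M → ℂ) (half_pos hr)] with y hy j
      have h6 : ‖y‖ < r / 2 := by simpa using hy
      exact (norm_le_pi_norm y j).trans_lt h6
    exact this.filter_mono inf_le_left
  filter_upwards [hB, hz, h5, self_mem_nhdsWithin] with y hyB hyz hy2 hyS
  have hi := hinj y hyS
  have hs : ∀ a ∈ Finset.univ.image y, a ∈ ball (0 : ℂ) R ∧ D a y = 0 := by
    intro a ha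
    obtain ⟨j, -, rfl⟩ := Finset.mem_image.1 ha
    refine ⟨?_, hyz j⟩
    rw [mem_ball_zero_iff]
    linarith [hy2 j]
  obtain ⟨q, hq, hfq⟩ := exists_div (hD y hyS) _ hs
  have hcard : (Finset.univ.image y).card = M := by
    rw [Finset.card_image_of_injective _ hi, Finset.card_univ, Fintype.card_fin]
  have hprod : ∀ x, ∏ a ∈ Finset.univ.image y, (x - a) = ∏ j, (x - y j) := fun x =>
    Finset.prod_image fun a _ b _ h => hi h
  have h7 := quot_le (r := r) (B := B) (δ := r / 2) hrR (by positivity) (by linarith) hq _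
    (fun a ha => by
      obtain ⟨j, -, rfl⟩ := Finset.mem_image.1 ha
      exact (hy2 j).le) hfq hyB hx.le
  rw [hcard, sub_half] at h7
  show ‖D x y‖ ≤ _
  have h8 := hfq x
  rw [h8, hprod, norm_mul, mul_comm]
  exact mul_le_mul_of_nonneg_right h7 (norm_nonneg _)

/-- the same from joint continuity -/
theorem zero_order' {R : ℝ} (hR : 0 < R) {M : ℕ} {S : Set (Fin M → ℂ)}
    (h0 : (0 : Fin M → ℂ) ∈ closure S) (hinj : ∀ y ∈ S, Function.Injective y) {D : ℂ → (Fin M → ℂ) → ℂ}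
    (hD : ∀ y ∈ S, DifferentiableOn ℂ (fun x => D x y) (ball 0 R))
    (hD0 : DifferentiableOn ℂ (fun x => D x 0) (ball 0 R))
    (hc : ∀ x, ‖x‖ < R → ContinuousAt (Function.uncurry D) (x, 0))
    (hz : ∀ᶠ y in 𝓝[S] (0 : Fin M → ℂ), ∀ j, D (y j) y = 0) :
    ∃ Q : ℂ → ℂ, DifferentiableOn ℂ Q (ball 0 R) ∧ ∀ x, D x 0 = x ^ M * Q x := by
  set r := R / 2 with hr
  have hr0 : 0 < r := half_pos hR
  have hrR : r < R := half_lt_self hR
  -- a bound near the sphere
  have hcomp : IsCompact (sphere (0 : ℂ) r) := isCompact_sphere _ _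
  obtain ⟨B, hB⟩ : ∃ B : ℝ, ∀ x ∈ sphere (0 : ℂ) r, ‖D x 0‖ < B := by
    have h1 : ContinuousOn (fun x => D x 0) (sphere (0 : ℂ) r) :=
      (hD0.continuousOn).mono fun x hx => by
        rw [mem_sphere_zero_iff_norm] at hx
        rw [mem_ball_zero_iff]
        linarith
    obtain ⟨B, hB⟩ := hcomp.exists_bound_of_continuousOn h1
    exact ⟨B + 1, fun x hx => by linarith [hB x hx]⟩
  have h2 : ∀ᶠ y in 𝓝 (0 : Fin M → ℂ), ∀ x ∈ sphere (0 : ℂ) r, ‖D x y‖ < B := by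
    have h3 : ∀ x ∈ sphere (0 : ℂ) r, ∀ᶠ z : (Fin M → ℂ) × ℂ in 𝓝 (0, x), ‖D z.2 z.1‖ < B := by
      intro x hx
      have hxR : ‖x‖ < R := by
        rw [mem_sphere_zero_iff_norm] at hx
        linarith
      have h4 : ContinuousAt (fun z : (Fin M → ℂ) × ℂ => ‖D z.2 z.1‖) (0, x) := by
        have h5 : ContinuousAt (fun z : (Fin M → ℂ) × ℂ => (z.2, z.1)) (0, x) :=
          (continuous_snd.prodMk continuous_fst).continuousAt
        exact (ContinuousAt.comp (f := fun z : (Fin M → ℂ) × ℂ => (z.2, z.1)) (hc x hxR) h5).norm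
      exact h4.eventually_lt_const (hB x hx)
    exact hcomp.eventually_forall_of_forall_eventually h3
  refine zero_order hr0 hrR h0 hinj hD hD0 (B := B) ?_ (fun x hx => ?_) hz
  · filter_upwards [h2.filter_mono (inf_le_left : 𝓝[S] (0 : Fin M → ℂ) ≤ 𝓝 0)] with y hy x hx
    exact (hy x (by rw [mem_sphere_zero_iff_norm]; exact hx)).le
  · have h6 := hc x (hx.trans hrR)
    have h7 : ContinuousAt (fun y : Fin M → ℂ => D x y) 0 :=
      ContinuousAt.comp (f := fun y : Fin M → ℂ => (x, y)) h6 (by fun_prop)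
    exact h7.tendsto.mono_left inf_le_left

end Pool.Agent.PB

end
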