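import Mathlib

/-!
# Zeros at generic rows give zeros at all rows, with multiplicity (helper71)

`D x y`: analytic in `x ∈ Ω`, continuous in the rows `y : ι → ℂ` at `y = c`; for generic rows
(`y ∈ S`, pairwise different, `c ∈ closure S`) it vanishes at each row `x = y j`.  Then
`D x c = (∏ j, (x - c j)) * Q x`, `Q` analytic on `Ω` (the rows `c j` may coincide).
-/

set_option autoImplicit false

noncomputable section

open Complex Set Filter Topology Metric

namespace Pool.Agent.PB

/-- zeros at pairwise different points can be divided out -/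
theorem exists_divΩ {Ω : Set ℂ} (hΩ : IsOpen Ω) {f : ℂ → ℂ} (hf : DifferentiableOn ℂ f Ω) (s : Finset ℂ)
    (hs : ∀ a ∈ s, a ∈ Ω ∧ f a = 0) :
    ∃ q : ℂ → ℂ, DifferentiableOn ℂ q Ω ∧ ∀ x, f x = (∏ a ∈ s, (x - a)) * q x := by
  induction s using Finset.induction_on with
  | empty => exact ⟨f, hf, fun x => by simp⟩
  | insert a s ha ih =>
    obtain ⟨q, hq, hfq⟩ := ih fun b hb => hs b (Finset.mem_insert_of_mem hb)
    obtain ⟨haR, hfa⟩ := hs a (Finset.mem_insert_self a s)
    have hqa : q a = 0 := by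
      have h1 := hfq a
      rw [hfa] at h1
      rcases mul_eq_zero.1 h1.symm with h | h
      · obtain ⟨b, hb, h2⟩ := Finset.prod_eq_zero_iff.1 h
        exact absurd (sub_eq_zero.1 h2 ▸ hb) ha
      · exact h
    refine ⟨dslope q a, (differentiableOn_dslope (hΩ.mem_nhds haR)).2 hq, fun x => ?_⟩
    rw [Finset.prod_insert ha, mul_right_comm, hfq x]
    have h3 : (x - a) * dslope q a x = q x := by
      have h4 := sub_smul_dslope q a x
      rw [hqa, sub_zero, smul_eq_mul] at h4
      exact h4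
    rw [← h3]
    ring

/-- a bound by the product of the distances to the points of a list: the points can be divided out -/
theorem exists_prod {Ω : Set ℂ} (hΩ : IsOpen Ω) {U : Set ℂ} (hU : IsOpen U) (hUΩ : U ⊆ Ω) {C : ℝ} (L : List ℂ) :
    ∀ {f : ℂ → ℂ}, (∀ a ∈ L, a ∈ U) → DifferentiableOn ℂ f Ω →
    (∀ x ∈ U, ‖f x‖ ≤ C * ‖(L.map fun a => x - a).prod‖) →
    ∃ Q : ℂ → ℂ, DifferentiableOn ℂ Q Ω ∧ ∀ x, f x = (L.map fun a => x - a).prod * Q x := by
  induction L with
  | nil => exact fun {f} _ hf _ => ⟨f, hf, fun x => by simp⟩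
  | cons a L ih =>
    intro f hL hf h
    have haU : a ∈ U := hL a (List.mem_cons_self ..)
    have h0 : f a = 0 := by
      have h1 := h a haU
      rw [List.map_cons, List.prod_cons, sub_self, zero_mul, norm_zero, mul_zero] at h1
      exact norm_le_zero_iff.1 h1
    set g := dslope f a with hg
    have hgd : DifferentiableOn ℂ g Ω := (differentiableOn_dslope (hΩ.mem_nhds (hUΩ haU))).2 hf
    have hfg : ∀ x, f x = (x - a) * g x := fun x => by
      have h4 := sub_smul_dslope f a x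
      rw [h0, sub_zero, smul_eq_mul] at h4
      exact h4.symm
    have key : ∀ x ∈ U, x ≠ a → ‖g x‖ ≤ C * ‖(L.map fun a => x - a).prod‖ := by
      intro x hx hx0
      have hx0' : 0 < ‖x - a‖ := norm_pos_iff.2 (sub_ne_zero.2 hx0)
      have h8 := h x hx
      rw [hfg x, norm_mul, List.map_cons, List.prod_cons, norm_mul] at h8
      have h9 : ‖x - a‖ * ‖g x‖ ≤ ‖x - a‖ * (C * ‖(L.map fun a => x - a).prod‖) := by
        linarith [h8, mul_left_comm C ‖x - a‖ ‖(L.map fun a => x - a).prod‖]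
      exact le_of_mul_le_mul_left h9 hx0'
    have hgb : ∀ x ∈ U, ‖g x‖ ≤ C * ‖(L.map fun a => x - a).prod‖ := by
      intro x hx
      by_cases hx0 : x = a
      · subst hx0
        have hc : ContinuousAt g x := (hgd.differentiableAt (hΩ.mem_nhds (hUΩ hx))).continuousAt
        have h5 : Tendsto (fun y => ‖g y‖) (𝓝[≠] x) (𝓝 ‖g x‖) := hc.norm.tendsto.mono_left inf_le_left
        have hcp : Continuous fun y : ℂ => C * ‖(L.map fun b => y - b).prod‖ := by
          refine continuous_const.mul (Continuous.norm ?_)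
          exact continuous_list_prod _ fun b _ => continuous_id.sub continuous_const
        have h6 : Tendsto (fun y : ℂ => C * ‖(L.map fun b => y - b).prod‖) (𝓝[≠] x)
            (𝓝 (C * ‖(L.map fun b => x - b).prod‖)) := (hcp.tendsto x).mono_left inf_le_left
        refine le_of_tendsto_of_tendsto h5 h6 ?_
        have h7 : ∀ᶠ y in 𝓝[≠] x, y ∈ U :=
          Filter.Eventually.filter_mono inf_le_left (hU.mem_nhds hx)
        filter_upwards [h7, self_mem_nhdsWithin] with y hy hy0
        exact key y hy hy0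
      · exact key x hx hx0
    obtain ⟨Q, hQ, hgQ⟩ := ih (fun b hb => hL b (List.mem_cons_of_mem _ hb)) hgd hgb
    exact ⟨Q, hQ, fun x => by rw [hfg x, hgQ x, List.map_cons, List.prod_cons]; ring⟩

/-- **zeros at generic rows: zeros with multiplicity at the rows `c j`** (`S` = the generic rows) -/
theorem zero_rows {ι : Type*} [Fintype ι] {Ω U : Set ℂ} (hΩ : IsOpen Ω) (hU : IsOpen U)
    (hUb : Bornology.IsBounded U) (hUΩ : closure U ⊆ Ω) {c : ι → ℂ} (hcU : ∀ j, c j ∈ U) {S : Set (ι → ℂ)}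
    (h0 : c ∈ closure S) (hinj : ∀ y ∈ S, Function.Injective y) {D : ℂ → (ι → ℂ) → ℂ}
    (hD : ∀ y ∈ S, DifferentiableOn ℂ (fun x => D x y) Ω) (hDc : DifferentiableOn ℂ (fun x => D x c) Ω)
    (hcont : ∀ x ∈ closure U, ContinuousAt (Function.uncurry D) (x, c))
    (hz : ∀ᶠ y in 𝓝[S] c, ∀ j, D (y j) y = 0) :
    ∃ Q : ℂ → ℂ, DifferentiableOn ℂ Q Ω ∧ ∀ x, D x c = (∏ j, (x - c j)) * Q x := by
  classical
  have hne : (𝓝[S] c).NeBot := mem_closure_iff_nhdsWithin_neBot.1 h0
  have hUΩ' : U ⊆ Ω := subset_closure.trans hUΩ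
  have hcomp : IsCompact (frontier U) := hUb.isCompact_closure.of_isClosed_subset isClosed_frontier
    frontier_subset_closure
  -- a bound on the frontier
  obtain ⟨B, hB⟩ : ∃ B : ℝ, ∀ x ∈ frontier U, ‖D x c‖ < B := by
    have h1 : ContinuousOn (fun x => D x c) (frontier U) :=
      hDc.continuousOn.mono (frontier_subset_closure.trans hUΩ)
    obtain ⟨B, hB⟩ := hcomp.exists_bound_of_continuousOn h1
    exact ⟨B + 1, fun x hx => by linarith [hB x hx]⟩
  have h2 : ∀ᶠ y in 𝓝 c, ∀ x ∈ frontier U, ‖D x y‖ < B := by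
    refine hcomp.eventually_forall_of_forall_eventually fun x hx => ?_
    have h4 : ContinuousAt (fun z : (ι → ℂ) × ℂ => ‖D z.2 z.1‖) (c, x) := by
      have h5 : ContinuousAt (fun z : (ι → ℂ) × ℂ => (z.2, z.1)) (c, x) :=
        (continuous_snd.prodMk continuous_fst).continuousAt
      exact (ContinuousAt.comp (f := fun z : (ι → ℂ) × ℂ => (z.2, z.1))
        (hcont x (frontier_subset_closure hx)) h5).norm
    exact h4.eventually_lt_const (hB x hx)
  -- the distance of the rows to the frontier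
  obtain ⟨δ, hδ0, hδ⟩ : ∃ δ : ℝ, 0 < δ ∧ ∀ j, ∀ x ∈ frontier U, 2 * δ ≤ ‖x - c j‖ := by
    have h3 : ∀ j, ∃ δ : ℝ, 0 < δ ∧ ∀ x ∈ frontier U, 2 * δ ≤ ‖x - c j‖ := by
      intro j
      obtain ⟨ε, hε, hb⟩ := Metric.isOpen_iff.1 hU (c j) (hcU j)
      refine ⟨ε / 2, by positivity, fun x hx => ?_⟩
      by_contra hcon
      push Not at hcon
      have h4 : x ∈ U := hb (by rw [mem_ball, dist_eq_norm]; linarith)
      rw [frontier, Set.mem_sdiff, hU.interior_eq] at hx
      exact hx.2 h4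
    choose d hd0 hd using h3
    rcases isEmpty_or_nonempty ι with hι | hι
    · exact ⟨1, one_pos, fun j => (IsEmpty.false j).elim⟩
    · obtain ⟨j0, hj0⟩ := Finite.exists_min d
      exact ⟨d j0, hd0 j0, fun j x hx => by linarith [hd j x hx, hj0 j]⟩
  -- the bound
  have hbd : ∀ x ∈ U, ‖D x c‖ ≤ B / δ ^ Fintype.card ι * ‖∏ j, (x - c j)‖ := by
    intro x hx
    have h1 : Tendsto (fun y => ‖D x y‖) (𝓝[S] c) (𝓝 ‖D x c‖) := by
      have h6 := hcont x (subset_closure hx)
      have h7 : ContinuousAt (fun y : ι → ℂ => D x y) c :=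
        ContinuousAt.comp (f := fun y : ι → ℂ => (x, y)) h6 (by fun_prop)
      exact (h7.tendsto.mono_left inf_le_left).norm
    have h3 : Tendsto (fun y : ι → ℂ => B / δ ^ Fintype.card ι * ‖∏ j, (x - y j)‖) (𝓝[S] c)
        (𝓝 (B / δ ^ Fintype.card ι * ‖∏ j, (x - c j)‖)) := by
      have h4 : Continuous fun y : ι → ℂ => B / δ ^ Fintype.card ι * ‖∏ j, (x - y j)‖ := by fun_prop
      exact (h4.tendsto c).mono_left inf_le_left
    refine le_of_tendsto_of_tendsto h1 h3 ?_
    have h5 : ∀ᶠ y in 𝓝[S] c, ∀ j, ‖y j - c j‖ < δ ∧ y j ∈ U := by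
      have h6 : ∀ᶠ y in 𝓝 c, ∀ j, ‖y j - c j‖ < δ ∧ y j ∈ U := by
        rw [eventually_all]
        intro j
        have h7 : Tendsto (fun y : ι → ℂ => y j) (𝓝 c) (𝓝 (c j)) := (continuous_apply j).tendsto c
        have h8 := h7.eventually (ball_mem_nhds (c j) hδ0)
        have h9 := h7.eventually (hU.mem_nhds (hcU j))
        filter_upwards [h8, h9] with y hy hy'
        exact ⟨by rw [← dist_eq_norm]; exact hy, hy'⟩
      exact h6.filter_mono inf_le_left
    filter_upwards [h2.filter_mono (inf_le_left : 𝓝[S] c ≤ 𝓝 c), hz, h5, self_mem_nhdsWithin]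
      with y hyB hyz hy2 hyS
    have hi := hinj y hyS
    have hs : ∀ a ∈ Finset.univ.image y, a ∈ Ω ∧ D a y = 0 := by
      intro a ha
      obtain ⟨j, -, rfl⟩ := Finset.mem_image.1 ha
      exact ⟨hUΩ' (hy2 j).2, hyz j⟩
    obtain ⟨q, hq, hfq⟩ := exists_divΩ hΩ (hD y hyS) _ hs
    have hprod : ∀ x, ∏ a ∈ Finset.univ.image y, (x - a) = ∏ j, (x - y j) := fun x =>
      Finset.prod_image fun a _ b _ h => hi h
    have hqb : ‖q x‖ ≤ B / δ ^ Fintype.card ι := by
      have hd : DiffContOnCl ℂ q U := DifferentiableOn.diffContOnCl (hq.mono hUΩ)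
      refine Complex.norm_le_of_forall_mem_frontier_norm_le hUb hd (fun z hz => ?_) (subset_closure hx)
      have h1 : δ ^ Fintype.card ι ≤ ‖∏ j, (z - y j)‖ := by
        rw [norm_prod, Fintype.card, ← Finset.prod_const]
        refine Finset.prod_le_prod (fun _ _ => hδ0.le) fun j _ => ?_
        have h2 := hδ j z hz
        have h3 := (hy2 j).1
        have h4 : ‖z - c j‖ ≤ ‖z - y j‖ + ‖y j - c j‖ := by
          have := norm_add_le (z - y j) (y j - c j)
          rwa [sub_add_sub_cancel] at this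
        linarith
      have h4 : 0 < δ ^ Fintype.card ι := pow_pos hδ0 _
      rw [le_div_iff₀ h4]
      calc ‖q z‖ * δ ^ Fintype.card ι ≤ ‖q z‖ * ‖∏ j, (z - y j)‖ :=
            mul_le_mul_of_nonneg_left h1 (norm_nonneg _)
        _ = ‖D z y‖ := by
            have h8 := hfq z
            rw [h8, hprod, norm_mul, mul_comm]
        _ ≤ B := (hyB z hz).le
    have h8 := hfq x
    show ‖D x y‖ ≤ _
    rw [h8, hprod, norm_mul, mul_comm]
    exact mul_le_mul_of_nonneg_right hqb (norm_nonneg _)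
  have hL : ∀ x : ℂ, ((Finset.univ.toList.map c).map fun a => x - a).prod = ∏ j, (x - c j) := by
    intro x
    rw [List.map_map, Finset.prod_map_toList]
    rfl
  obtain ⟨Q, hQ, hfQ⟩ := exists_prod hΩ hU hUΩ' (C := B / δ ^ Fintype.card ι) (Finset.univ.toList.map c)
    (f := fun x => D x c) (fun a ha => by
      obtain ⟨j, -, rfl⟩ := List.mem_map.1 ha
      exact hcU j) hDc (fun x hx => by rw [hL]; exact hbd x hx)
  exact ⟨Q, hQ, fun x => by rw [← hL]; exact hfQ x⟩

end Pool.Agent.PB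

end
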